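import Pool.Agent.FC7.CfC

/-! # Configurations given by words: rules for different heads -/

open Finset

set_option linter.unusedSectionVars false

namespace Pool.FC7

open Pool.FC6 Pool.FC6.St

section defs

variable {D V : Type} [Fintype D] [DecidableEq V]

/-- the ends of the real dart `k` have no common neighbours except across the triangles at `k` -/
def FcR (S : St D V) (k : D) : Prop :=
  ∀ e e', S.real e = true → S.real e' = true → S.M.v e = S.M.v k → S.M.v e' = S.M.v (S.M.α k) →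
    S.M.v (S.M.α e) = S.M.v (S.M.α e') →
    (e = S.M.σ k ∧ S.M.σ e' = S.M.α k) ∨ (S.M.σ e = k ∧ e' = S.M.σ (S.M.α k))

/-- the ends of the real dart `k` have no common gap faces except the faces of `k`, `α k` -/
def FcH (S : St D V) (k : D) : Prop :=
  ∀ e e', S.real e = false → S.real e' = false → S.M.v e = S.M.v k →
    S.M.v e' = S.M.v (S.M.α k) → S.M.v (S.M.α e) = S.M.v (S.M.α e') →
    (e = S.M.σ k ∧ S.M.σ e' = S.M.α k) ∨ (S.M.σ e = k ∧ e' = S.M.σ (S.M.α k))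

/-- common neighbours of the heads of the real darts `k`, `k'` at `m` are `m` or neighbours of `m` -/
def D4R (S : St D V) (k k' : D) : Prop :=
  ∀ e e', S.real e = true → S.real e' = true → S.M.v e = S.M.v (S.M.α k) →
    S.M.v e' = S.M.v (S.M.α k') → S.M.v (S.M.α e) = S.M.v (S.M.α e') →
    S.M.v (S.M.α e) = S.M.v k ∨ ∃ t, S.real t = true ∧ S.M.v t = S.M.v k ∧
      S.M.v (S.M.α t) = S.M.v (S.M.α e)

/-- common gap faces of the heads of the real darts `k`, `k'` at `m` are gap faces at `m` -/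
def D4H (S : St D V) (k k' : D) : Prop :=
  ∀ e e', S.real e = false → S.real e' = false → S.M.v e = S.M.v (S.M.α k) →
    S.M.v e' = S.M.v (S.M.α k') → S.M.v (S.M.α e) = S.M.v (S.M.α e') →
    ∃ t, S.real t = false ∧ S.M.v t = S.M.v k ∧ S.M.v (S.M.α t) = S.M.v (S.M.α e)

end defs

/-- the rules which may be used: `fr a b`, `fh a b`: `FcR`, `FcH` for the spoke `ad a b - 1`;
`dr m a b`, `dh m a b`: `D4R`, `D4H` for the spokes `ad m a - 1`, `ad m b - 1` -/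
structure Rl where
  fr : ℕ → ℕ → Bool
  fh : ℕ → ℕ → Bool
  dr : ℕ → ℕ → ℕ → Bool
  dh : ℕ → ℕ → ℕ → Bool

namespace Cf

variable (F : Cf)

/-- exceptional pair of spokes at the ends of the spoke `k` -/
def exa (k j j' : ℕ) : Bool :=
  (decide (j = F.Z.Q.ρ k) && decide (F.Z.Q.ρ j' = F.Z.Q.π k)) ||
  (decide (F.Z.Q.ρ j = k) && decide (j' = F.Z.Q.ρ (F.Z.Q.π k)))

/-- exceptional pair of spokes at the heads of the spokes `k`, `k'` of one centre -/
def exb (k k' j j' : ℕ) : Bool :=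
  (decide (j = F.Z.Q.π k) && decide (j' = F.Z.Q.π k')) ||
  (decide (F.Z.Q.ρ (F.Z.Q.ρ k) = k') && decide (F.Z.Q.ρ j = F.Z.Q.π k) &&
    decide (j' = F.Z.Q.ρ (F.Z.Q.π k'))) ||
  (decide (F.Z.Q.ρ (F.Z.Q.ρ k') = k) && decide (j = F.Z.Q.ρ (F.Z.Q.π k)) &&
    decide (F.Z.Q.ρ j' = F.Z.Q.π k'))

/-- the spokes `j`, `j'` are covered by a rule -/
def rule (R : Rl) (j j' : ℕ) : Bool :=
  (decide (F.Z.ca j = F.Z.ca j') && decide (j ≠ j')) ||
  ((F.Z.Q.rl j == F.Z.Q.rl j') &&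
    ((decide (F.ad (F.Z.ca j) (F.Z.ca j') ≠ 0) &&
      (if F.Z.Q.rl j then R.fr (F.Z.ca j) (F.Z.ca j') else R.fh (F.Z.ca j) (F.Z.ca j')) &&
      !F.exa (F.ad (F.Z.ca j) (F.Z.ca j') - 1) j j') ||
    ((List.range F.Z.nc).any fun m => decide (F.ad m (F.Z.ca j) ≠ 0) &&
      decide (F.ad m (F.Z.ca j') ≠ 0) && decide (F.Z.ca j ≠ F.Z.ca j') &&
      (if F.Z.Q.rl j then R.fr m (F.Z.ca j) && R.fr m (F.Z.ca j') && R.dr m (F.Z.ca j) (F.Z.ca j')
        else R.fh m (F.Z.ca j) && R.fh m (F.Z.ca j') && R.dh m (F.Z.ca j) (F.Z.ca j')) &&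
      !F.exb (F.ad m (F.Z.ca j) - 1) (F.ad m (F.Z.ca j') - 1) j j')))

def chkR (R : Rl) : Bool :=
  allN F.Z.Q.ns fun j => allN F.Z.Q.ns fun j' => !F.SD j j' || F.rule R j j'

end Cf

variable {D V : Type} [Fintype D] [DecidableEq V]

/-- the rules are correct -/
structure Cf.Sem (F : Cf) (R : Rl) (S : St D V) (d : ℕ → D) : Prop where
  n2 : ∀ a < F.Z.nc, F.ac a = true → S.N2 (S.M.v (d a))
  fr : ∀ a < F.Z.nc, ∀ b < F.Z.nc, F.ad a b ≠ 0 → R.fr a b = true →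
    FcR S (F.Z.io S d (F.ad a b - 1))
  fh : ∀ a < F.Z.nc, ∀ b < F.Z.nc, F.ad a b ≠ 0 → R.fh a b = true →
    FcH S (F.Z.io S d (F.ad a b - 1))
  dr : ∀ m < F.Z.nc, ∀ a < F.Z.nc, ∀ b < F.Z.nc, F.ad m a ≠ 0 → F.ad m b ≠ 0 → a ≠ b →
    R.dr m a b = true → D4R S (F.Z.io S d (F.ad m a - 1)) (F.Z.io S d (F.ad m b - 1))
  dh : ∀ m < F.Z.nc, ∀ a < F.Z.nc, ∀ b < F.Z.nc, F.ad m a ≠ 0 → F.ad m b ≠ 0 → a ≠ b →
    R.dh m a b = true → D4H S (F.Z.io S d (F.ad m a - 1)) (F.Z.io S d (F.ad m b - 1))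

variable {Δ : ℕ} {S : St D V} {L : D → Bool} {w : D → ℕ} {d : ℕ → D} {F : Cf} {R : Rl}

theorem Cf.ad_ck (hF : F.chk = true) {a b : ℕ} (ha : a < F.Z.nc) (hb : b < F.Z.nc)
    (h : F.ad a b ≠ 0) : F.ac a = true ∧ F.ac b = true ∧ F.ad a b - 1 < F.Z.Q.ns ∧
      F.Z.ca (F.ad a b - 1) = a ∧ F.Z.ca (F.Z.Q.π (F.ad a b - 1)) = b ∧
      F.Z.Q.π (F.ad a b - 1) ≠ F.ad a b - 1 ∧ F.Z.Q.rl (F.ad a b - 1) = true := by
  have hc := (Cf.chk_iff hF).2.1
  unfold Cf.chkS at hc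
  rw [Bool.and_eq_true, allN_iff] at hc
  have h4 := hc.1 a ha
  rw [allN_iff] at h4
  have h5 := h4 b hb
  simp only [Bool.and_eq_true, Bool.or_eq_true, decide_eq_true_eq] at h5
  obtain ⟨⟨⟨⟨⟨⟨c1, c2⟩, c3⟩, c4⟩, c5⟩, c6⟩, c7⟩ := h5.1.resolve_left h
  exact ⟨c1, c2, c3, c4, c5, c6, c7⟩

theorem Cf.Hy.caρ (H : F.Hy S d) {i : ℕ} (hi : i < F.Z.Q.ns) :
    F.Z.ca (F.Z.Q.ρ i) = F.Z.ca i := by
  have q1 := H.hC.lo i hi
  have q2 := H.hC.hi i hi
  have q3 := H.hC.calt i hi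
  rw [H.hC.ρj i hi]
  split_ifs with q4
  · obtain ⟨t, ht⟩ : ∃ t, i = F.Z.off (F.Z.ca i) + t := ⟨i - F.Z.off (F.Z.ca i), by omega⟩
    have := H.hC.cao _ q3 (t + 1) (by omega)
    rw [show i + 1 = F.Z.off (F.Z.ca i) + (t + 1) by omega]
    exact this
  · exact H.hC.cao _ q3 0 (H.hC.mpos _ q3)

/-- the two alternatives of `FcR`, `FcH` in terms of the spokes -/
theorem Cf.Hy.exa (H : F.Hy S d) {k j j' : ℕ} (hk : k < F.Z.Q.ns) (hπ : F.Z.Q.π k ≠ k)
    (hj : j < F.Z.Q.ns) (hj' : j' < F.Z.Q.ns) (h1 : F.Z.ca k = F.Z.ca j)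
    (h2 : F.Z.ca (F.Z.Q.π k) = F.Z.ca j')
    (h : (F.Z.io S d j = S.M.σ (F.Z.io S d k) ∧
        S.M.σ (F.Z.io S d j') = S.M.α (F.Z.io S d k)) ∨
      (S.M.σ (F.Z.io S d j) = F.Z.io S d k ∧
        F.Z.io S d j' = S.M.σ (S.M.α (F.Z.io S d k)))) : F.exa k j j' = true := by
  have hp := H.hC.Q.πlt k hk
  unfold Cf.exa
  simp only [Bool.or_eq_true, Bool.and_eq_true, decide_eq_true_eq]
  rcases h with ⟨f1, f2⟩ | ⟨f1, f2⟩
  · left
    rw [H.ioρ hk] at f1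
    rw [H.ioρ hj', H.ioπ hk hπ] at f2
    exact ⟨H.inj1 hj (H.hC.Q.ρlt _ hk) (by rw [H.caρ hk, h1]) f1,
      H.inj1 (H.hC.Q.ρlt _ hj') hp (by rw [H.caρ hj', h2]) f2⟩
  · right
    rw [H.ioρ hj] at f1
    rw [H.ioπ hk hπ, H.ioρ hp] at f2
    exact ⟨H.inj1 (H.hC.Q.ρlt _ hj) hk (by rw [H.caρ hj, h1]) f1,
      H.inj1 hj' (H.hC.Q.ρlt _ hp) (by rw [H.caρ hp, h2]) f2⟩

/-- from the rules to the different heads -/
theorem Cf.Base0.base (hF : F.chk = true) (hS : IsStar S) (W : Wf Δ S L w) (B : F.Base0 S L d)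
    (hR : F.chkR R = true) (Sm : F.Sem R S d) : F.Base S L d := by
  have H := B.hy hF hS W
  refine ⟨B, fun j hj j' hj' hac hac' hsd he => ?_⟩
  unfold Cf.chkR at hR
  rw [allN_iff] at hR
  have h1 := hR j hj
  rw [allN_iff] at h1
  have h2 := h1 j' hj'
  rw [hsd, Bool.not_true, Bool.false_or] at h2
  have ha := H.hC.calt j hj
  have hb := H.hC.calt j' hj'
  unfold Cf.rule at h2
  simp only [Bool.or_eq_true, Bool.and_eq_true, decide_eq_true_eq, beq_iff_eq,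
    List.any_eq_true, List.mem_range, Bool.not_eq_true'] at h2
  rcases h2 with ⟨h3, h4⟩ | ⟨h3, h4⟩
  · apply h4
    refine H.inj1 hj hj' h3 ?_
    exact Sm.n2 _ ha hac _ _ (F.Z.v_io S d j) (by rw [F.Z.v_io, h3]) he
  · rcases h4 with ⟨⟨k1, k2⟩, k3⟩ | ⟨m, hm, ⟨⟨⟨k1, k2⟩, k3⟩, k4⟩, k5⟩
    · obtain ⟨c1, c2, c3, c4, c5, c6, c7⟩ := Cf.ad_ck hF ha hb k1
      have hvj : S.M.v (F.Z.io S d j) = S.M.v (F.Z.io S d (F.ad (F.Z.ca j) (F.Z.ca j') - 1)) := by
        rw [F.Z.v_io, F.Z.v_io, c4]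
      have hvj' : S.M.v (F.Z.io S d j') =
          S.M.v (S.M.α (F.Z.io S d (F.ad (F.Z.ca j) (F.Z.ca j') - 1))) := by
        rw [H.ioπ c3 c6, F.Z.v_io, F.Z.v_io, c5]
      have hex := H.exa c3 c6 hj hj' c4 c5
      have r1 := H.rlj hj
      have r2 := H.rlj hj'
      cases hrl : F.Z.Q.rl j
      · rw [hrl] at k2 r1 h3
        rw [if_neg (by decide)] at k2
        rw [← h3] at r2
        rw [hex (Sm.fh _ ha _ hb k1 k2 _ _ r1 r2 hvj hvj' he)] at k3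
        exact absurd k3 (by decide)
      · rw [hrl] at k2 r1 h3
        rw [if_pos rfl] at k2
        rw [← h3] at r2
        rw [hex (Sm.fr _ ha _ hb k1 k2 _ _ r1 r2 hvj hvj' he)] at k3
        exact absurd k3 (by decide)
    · obtain ⟨c1, c2, c3, c4, c5, c6, c7⟩ := Cf.ad_ck hF hm ha k1
      obtain ⟨g1, g2, g3, g4, g5, g6, g7⟩ := Cf.ad_ck hF hm hb k2
      generalize hk : F.ad m (F.Z.ca j) - 1 = k at *
      generalize hk' : F.ad m (F.Z.ca j') - 1 = k' at *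
      have hvj : S.M.v (F.Z.io S d j) = S.M.v (S.M.α (F.Z.io S d k)) := by
        rw [H.ioπ c3 c6, F.Z.v_io, F.Z.v_io, c5]
      have hvj' : S.M.v (F.Z.io S d j') = S.M.v (S.M.α (F.Z.io S d k')) := by
        rw [H.ioπ g3 g6, F.Z.v_io, F.Z.v_io, g5]
      have hkk : S.M.v (F.Z.io S d k') = S.M.v (F.Z.io S d k) := by
        rw [F.Z.v_io, F.Z.v_io, c4, g4]
      have r1 := H.rlj hj
      have r2 := H.rlj hj'
      have hp := H.hC.Q.πlt k c3
      have hp' := H.hC.Q.πlt k' g3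
      have hne : k ≠ k' := by
        rintro rfl
        exact k3 (by rw [← c5, ← g5])
      -- the common part
      have key : ∀ t, S.M.v t = S.M.v (F.Z.io S d k) →
          ((t = S.M.σ (F.Z.io S d k) ∧ S.M.σ (F.Z.io S d j) = S.M.α (F.Z.io S d k)) ∨
            (S.M.σ t = F.Z.io S d k ∧ F.Z.io S d j = S.M.σ (S.M.α (F.Z.io S d k)))) →
          ((t = S.M.σ (F.Z.io S d k') ∧ S.M.σ (F.Z.io S d j') = S.M.α (F.Z.io S d k')) ∨
            (S.M.σ t = F.Z.io S d k' ∧ F.Z.io S d j' = S.M.σ (S.M.α (F.Z.io S d k')))) →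
          F.exb k k' j j' = true := by
        intro t ht q q'
        unfold Cf.exb
        simp only [Bool.or_eq_true, Bool.and_eq_true, decide_eq_true_eq]
        rcases q with ⟨q1, q2⟩ | ⟨q1, q2⟩
        · rcases q' with ⟨q1', q2'⟩ | ⟨q1', q2'⟩
          · exfalso
            rw [q1] at q1'
            exact hne (H.inj1 c3 g3 (by rw [c4, g4]) (S.M.σinj q1'))
          · left; right
            rw [q1, H.ioρ c3, H.ioρ (H.hC.Q.ρlt _ c3)] at q1'
            rw [H.ioρ hj, H.ioπ c3 c6] at q2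
            rw [H.ioπ g3 g6, H.ioρ hp'] at q2'
            refine ⟨⟨H.inj1 (H.hC.Q.ρlt _ (H.hC.Q.ρlt _ c3)) g3 ?_ q1',
              H.inj1 (H.hC.Q.ρlt _ hj) hp ?_ q2⟩, H.inj1 hj' (H.hC.Q.ρlt _ hp') ?_ q2'⟩
            · rw [H.caρ (H.hC.Q.ρlt _ c3), H.caρ c3, c4, g4]
            · rw [H.caρ hj, c5]
            · rw [H.caρ hp', g5]
        · rcases q' with ⟨q1', q2'⟩ | ⟨q1', q2'⟩
          · right
            rw [q1', H.ioρ g3, H.ioρ (H.hC.Q.ρlt _ g3)] at q1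
            rw [H.ioπ c3 c6, H.ioρ hp] at q2
            rw [H.ioρ hj', H.ioπ g3 g6] at q2'
            refine ⟨⟨H.inj1 (H.hC.Q.ρlt _ (H.hC.Q.ρlt _ g3)) c3 ?_ q1,
              H.inj1 hj (H.hC.Q.ρlt _ hp) ?_ q2⟩, H.inj1 (H.hC.Q.ρlt _ hj') hp' ?_ q2'⟩
            · rw [H.caρ (H.hC.Q.ρlt _ g3), H.caρ g3, c4, g4]
            · rw [H.caρ hp, c5]
            · rw [H.caρ hj', g5]
          · exfalso
            rw [q1] at q1'
            exact hne (H.inj1 c3 g3 (by rw [c4, g4]) q1')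
      cases hrl : F.Z.Q.rl j
      · rw [hrl] at k4 r1 h3
        rw [if_neg (by decide)] at k4
        rw [← h3] at r2
        simp only [Bool.and_eq_true] at k4
        obtain ⟨⟨k6, k7⟩, k8⟩ := k4
        have d1 := Sm.dh m hm _ ha _ hb k1 k2 k3 k8
        have d2 := Sm.fh m hm _ ha k1 k6
        have d3 := Sm.fh m hm _ hb k2 k7
        rw [hk, hk'] at d1
        rw [hk] at d2
        rw [hk'] at d3
        obtain ⟨t, t1, t2, t3⟩ := d1 _ _ r1 r2 hvj hvj' he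
        rw [key t t2 (d2 t _ t1 r1 t2 hvj t3) (d3 t _ t1 r2 (t2.trans hkk.symm) hvj'
          (t3.trans he))] at k5
        exact absurd k5 (by decide)
      · rw [hrl] at k4 r1 h3
        rw [if_pos rfl] at k4
        rw [← h3] at r2
        simp only [Bool.and_eq_true] at k4
        obtain ⟨⟨k6, k7⟩, k8⟩ := k4
        have d1 := Sm.dr m hm _ ha _ hb k1 k2 k3 k8
        have d2 := Sm.fr m hm _ ha k1 k6
        have d3 := Sm.fr m hm _ hb k2 k7
        rw [hk, hk'] at d1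
        rw [hk] at d2
        rw [hk'] at d3
        rcases d1 _ _ r1 r2 hvj hvj' he with h5 | ⟨t, t1, t2, t3⟩
        · -- both heads are `m`
          exfalso
          have s1 : F.Z.io S d j = S.M.α (F.Z.io S d k) :=
            W.simple _ _ r1 (by rw [W.real_α, H.rlj c3]; exact c7) hvj
              (by rw [S.M.αα]; exact h5)
          have s2 : F.Z.io S d j' = S.M.α (F.Z.io S d k') :=
            W.simple _ _ r2 (by rw [W.real_α, H.rlj g3]; exact g7) hvj'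
              (by rw [S.M.αα, ← he, h5, hkk])
          rw [H.ioπ c3 c6] at s1
          rw [H.ioπ g3 g6] at s2
          have s3 := H.inj1 hj hp (by rw [c5]) s1
          have s4 := H.inj1 hj' hp' (by rw [g5]) s2
          unfold Cf.exb at k5
          rw [decide_eq_true s3, decide_eq_true s4] at k5
          exact absurd k5 (by simp)
        · rw [key t t2 (d2 t _ t1 r1 t2 hvj t3) (d3 t _ t1 r2 (t2.trans hkk.symm) hvj'
            (t3.trans he))] at k5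
          exact absurd k5 (by decide)

end Pool.FC7
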