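import Pool.Agent.FC7.RokH

/-! # States next to a minimal counterexample -/

open Finset

set_option linter.unusedSectionVars false

namespace Pool.FC7

open Pool.FC6 Pool.FC6.St

variable {D V : Type} [Fintype D] [DecidableEq V] {Δ N R e : ℕ} {S : St D V} {L : D → Bool}
  {w : D → ℕ}

/-- a state next to a minimal counterexample: `N`, `R` = first components of the potential of the
minimal counterexample -/
structure MM (Δ N R e : ℕ) (S : St D V) (L : D → Bool) (w : D → ℕ) : Prop where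
  w1 : W1 L w
  ok : Ok Δ S L w
  no : ¬ ∃ c, Sol S L c
  nr : 20 ≤ nr S
  rc3 : ∀ s : V → Bool, (∃ x ∈ S.A, s x = true) → (∃ x ∈ S.A, s x = false) → 3 ≤ S.rc s
  n4 : n4 S ≤ N
  rq : rq S L ≤ R + e
  min : ∀ (D' V' : Type) [Fintype D'] [DecidableEq V'] (S' : St D' V') (L' : D' → Bool)
    (w' : D' → ℕ), W1 L' w' → Ok Δ S' L' w' →
    (FC7.n4 S' < N ∨ (FC7.n4 S' ≤ N ∧ FC7.rq S' L' < R)) → ∃ c, Sol S' L' c

theorem MC.mm (hΔ : Δ ≤ 6) (h : MC Δ S L w) : MM Δ (n4 S) (rq S L) 0 S L w where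
  w1 := h.w1
  ok := h.ok
  no := h.no
  nr := h.nr20 hΔ
  rc3 s h1 h2 := by
    have := h.cut4 hΔ h1 h2
    omega
  n4 := le_refl _
  rq := le_refl _
  min D' V' _ _ S' L' w' h1 h2 h3 := h.min D' V' S' L' w' h1 h2 (by
    rcases h3 with h3 | h3
    · exact mu_lt_n4 h3
    · exact mu_lt_rq h3.1 h3.2)

/-- the real graph is connected -/
theorem MM.gd (h : MM Δ N R e S L w) : Gd S where
  real_α := h.ok.real_α
  real_A := h.ok.real_A
  real_ne := h.ok.real_ne
  A_im := h.ok.A_im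
  ne := h.ok.toWf.Ane
  full d hd := by
    obtain ⟨y, hy, hyx⟩ := h.ok.toWf.ne (S.M.v d)
    have h1 := h.rc3 (fun z => decide (z = S.M.v d)) ⟨_, hd, by simp⟩ ⟨y, hy, by simpa using hyx⟩
    rw [h.ok.toWf.rc_one] at h1
    unfold St.rdeg at h1
    by_contra hn
    push Not at hn
    rw [Finset.sum_eq_zero] at h1
    · omega
    · intro e _
      rw [if_neg]
      rintro ⟨a1, a2⟩
      exact hn e a1 a2
  gcon K hK x y hx hy := by
    classical
    by_contra hne
    have h4 := h.rc3 (fun z => decide (K z = K x)) ⟨x, hx, by simp⟩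
      ⟨y, hy, decide_eq_false (fun h => hne h.symm)⟩
    have h5 : S.rc (fun z => decide (K z = K x)) = 0 := by
      unfold St.rc
      refine Finset.sum_eq_zero fun e _ => ?_
      rw [if_neg]
      rintro ⟨r, e1, e2⟩
      beta_reduce at e1 e2
      rw [hK e r, e1] at e2
      exact absurd e2 (by simp)
    omega

/-- the star form -/
theorem MM.star (h : MM Δ N R e S L w) : MM Δ N R e (star h.gd) (starL S L) (starw S w) where
  w1 := h.w1.star
  ok := ok_of_rc (star_wf _ h.ok.toWf) (fun s a b => by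
    rw [star_rc]
    obtain ⟨x, hx, hx'⟩ := a
    obtain ⟨y, hy, hy'⟩ := b
    obtain ⟨x', hx2, rfl⟩ := Finset.mem_map.1 hx
    obtain ⟨y', hy2, rfl⟩ := Finset.mem_map.1 hy
    exact h.rc3 (fun x => s (Sum.inl x)) ⟨x', hx2, hx'⟩ ⟨y', hy2, hy'⟩)
    (star_thr _ h.ok.u_A h.ok.thr)
  no := by
    rintro ⟨c, hc⟩
    exact h.no ⟨_, star_sol _ h.ok.u_A h.ok.L_real hc⟩
  nr := by rw [star_nr]; exact h.nr
  rc3 s a b := by
    rw [star_rc]
    obtain ⟨x, hx, hx'⟩ := a
    obtain ⟨y, hy, hy'⟩ := b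
    obtain ⟨x', hx2, rfl⟩ := Finset.mem_map.1 hx
    obtain ⟨y', hy2, rfl⟩ := Finset.mem_map.1 hy
    exact h.rc3 (fun x => s (Sum.inl x)) ⟨x', hx2, hx'⟩ ⟨y', hy2, hy'⟩
  n4 := by
    have : FC7.n4 (FC7.star h.gd) = FC7.n4 S := star_cnt h.gd (fun k => 4 ≤ k)
    rw [this]; exact h.n4
  rq := by
    rw [star_rq h.gd h.ok.toWf]; exact h.rq
  min := h.min

end Pool.FC7
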