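import Pool.Agent.FC7.CvD
import Pool.Agent.FC7.MM

/-! # The converted state of a minimal counterexample -/

open Finset

set_option linter.unusedSectionVars false

namespace Pool.FC7

open Pool.FC6 Pool.FC6.St

variable {D V : Type} [Fintype D] [DecidableEq V] {Δ N R e : ℕ} {S : St D V} {L : D → Bool}
  {w : D → ℕ} {C : Finset V}

/-- each hub costs 48 -/
theorem conv_rq (hS : IsStar S) (W : Wf Δ S L w) (hC : ∀ c ∈ C, Hub3 S c)
    (h4 : ∀ x ∈ S.A, 4 ≤ S.rdeg x) : rq (conv S C) L = rq S L + 48 * C.card := by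
  have h1 := conv_sum_u hS W hC
  have h2 := conv_n3 hS W hC h4
  have h3 : n3 S = 0 := by
    unfold n3
    rw [Finset.card_eq_zero, Finset.filter_eq_empty_iff]
    intro x hx
    simpa using h4 x hx
  rw [cw3 (le_refl 3)] at h1
  unfold rq
  rw [h2, h3]
  omega

theorem conv_nr : nr S ≤ nr (conv S C) := by
  unfold nr
  refine Finset.sum_le_sum fun d _ => ?_
  by_cases h : S.real d = true
  · rw [if_pos h, if_pos (conv_real.2 (Or.inl h))]
  · rw [if_neg h]; exact Nat.zero_le _

/-- the converted state -/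
theorem MC.conv (hΔ : Δ ≤ 6) (h3 : 3 ≤ Δ) (h : MC Δ S L w) (hS : IsStar S)
    (hC : ∀ c ∈ C, Hub3 S c) : MM Δ (n4 S) (rq S L) (48 * C.card) (conv S C) L w where
  w1 := h.w1
  ok := conv_ok hS h.ok.toWf h3 hC (fun s h1 h2 => by have := h.cut4 hΔ h1 h2; omega) h.ok.thr
  no := by
    rintro ⟨c, hc⟩
    exact h.no ⟨c, conv_sol hS h.ok.toWf hC (h.gd hΔ) (fun x hx => h.rdeg4 hΔ hx) hc⟩
  nr := (h.nr20 hΔ).trans conv_nr
  rc3 s h1 h2 := by
    have k := conv_ok hS h.ok.toWf h3 hC (fun s h1 h2 => by have := h.cut4 hΔ h1 h2; omega) h.ok.thr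
    by_cases k1 : ∃ x ∈ S.A, s x = true
    · by_cases k2 : ∃ x ∈ S.A, s x = false
      · have := h.cut4 hΔ k1 k2
        have := conv_rc (S := S) (C := C) s
        omega
      · obtain ⟨c, hc, hc'⟩ := h2
        push Not at k2
        have hcC : c ∈ C := by
          rcases Finset.mem_union.1 hc with h | h
          · exact absurd hc' (k2 c h)
          · exact h
        exact conv_rc3 hS h.ok.toWf hC hcC (fun x hx => by rw [hc']; simpa using k2 x hx)
    · obtain ⟨c, hc, hc'⟩ := h1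
      push Not at k1
      have hcC : c ∈ C := by
        rcases Finset.mem_union.1 hc with h | h
        · exact absurd hc' (k1 c h)
        · exact h
      exact conv_rc3 hS h.ok.toWf hC hcC (fun x hx => by rw [hc']; simpa using k1 x hx)
  n4 := le_of_eq (conv_n4 hS h.ok.toWf hC fun x hx => h.rdeg4 hΔ hx)
  rq := le_of_eq (conv_rq hS h.ok.toWf hC fun x hx => h.rdeg4 hΔ hx)
  min D' V' _ _ S' L' w' h1 h2 h3 := h.min D' V' S' L' w' h1 h2 (by
    rcases h3 with h3 | h3
    · exact mu_lt_n4 h3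
    · exact mu_lt_rq h3.1 h3.2)

end Pool.FC7
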