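import Pool.Agent.FC7.SgB

/-! # Maximum degree 6: leaving edges and separating triangles inside sigma -/

open Finset

namespace Pool.FC7

open Pool.FC6 Pool.FC6.St

variable {D V : Type} [Fintype D] [DecidableEq V] {S : St D V} {sg : Finset V}

theorem lv_all (h : Rg S) {x : V} (hA : sg = S.A) : S.lv sg x = 0 := by
  unfold lv
  refine Finset.sum_eq_zero fun d _ => ?_
  rw [if_neg]
  rintro ⟨_, hd, hd'⟩
  exact hd' (by rw [hA]; exact h.real_A _ (by rw [h.real_α, hd]))

/-- LEAVE: a vertex has fewer leaving than other edges -/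
theorem Sg.leave (h : Rg S) (hs : Sg S sg) {x : V} (hx : x ∈ sg) (hd : 0 < S.rdeg x) :
    2 * S.lv sg x < S.rdeg x := by
  classical
  rcases hs.out with h1 | ⟨h1, h2, h3⟩
  · rw [lv_all h h1]; exact hd
  · have e1 := rc_erase h.real_α h.real_ne hx
    have hcard : 2 ≤ (sg.erase x).card := by
      rw [Finset.card_erase_of_mem hx]; omega
    have e2 : 6 ≤ S.rc (ind (sg.erase x)) := by
      refine hs.inn _ (fun z _ hz => Finset.mem_of_mem_erase (ind_true.1 hz))
        ⟨x, hx, ind_false.2 (by simp)⟩
        (two_card (fun z hz => hs.sub (Finset.mem_of_mem_erase hz)) hcard) ?_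
      obtain ⟨p, hp, q, hq, hpq, hp', hq'⟩ := h3
      exact ⟨p, hp, q, hq, hpq, ind_false.2 fun hh => ind_false.1 hp' (Finset.mem_of_mem_erase hh),
        ind_false.2 fun hh => ind_false.1 hq' (Finset.mem_of_mem_erase hh)⟩
    rcases h1 with h1 | h1 <;> omega

/-- disjoint sets without edges between them -/
theorem rc_add (h : Rg S) {p q r : V → Bool} (hd : ∀ x, ¬ (p x = true ∧ q x = true))
    (hr : ∀ x, r x = (p x || q x))
    (he : ∀ d, S.real d = true → p (S.M.v d) = true → q (S.M.v (S.M.α d)) = true → False) :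
    S.rc r = S.rc p + S.rc q := by
  classical
  unfold rc
  rw [← Finset.sum_add_distrib]
  refine Finset.sum_congr rfl fun d _ => ?_
  rw [hr, hr]
  have h1 := hd (S.M.v d)
  have h2 := hd (S.M.v (S.M.α d))
  have h3 := he d
  have h4 := he (S.M.α d)
  rw [h.real_α, S.M.αα] at h4
  revert h1 h2 h3 h4
  generalize p (S.M.v d) = a
  generalize p (S.M.v (S.M.α d)) = b
  generalize q (S.M.v d) = a'
  generalize q (S.M.v (S.M.α d)) = b'
  cases S.real d <;> cases a <;> cases b <;> cases a' <;> cases b' <;> simp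

/-- a small set `T` of vertices of sigma separates: `U` and `W` are the two sides -/
structure Sep (S : St D V) (T : Finset V) (U W : V → Bool) : Prop where
  uT : ∀ x ∈ T, U x = false
  wT : ∀ x ∈ T, W x = false
  dis : ∀ x, ¬ (U x = true ∧ W x = true)
  all : ∀ x ∈ S.A, x ∈ T ∨ U x = true ∨ W x = true
  no : ∀ d, S.real d = true → U (S.M.v d) = true → W (S.M.v (S.M.α d)) = true → False
  u : ∃ x ∈ S.A, U x = true
  w : ∃ x ∈ S.A, W x = true

theorem Sep.symm (h : Rg S) {T : Finset V} {U W : V → Bool} (hs : Sep S T U W) : Sep S T W U where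
  uT := hs.wT
  wT := hs.uT
  dis := fun x hx => hs.dis x hx.symm
  all := fun x hx => by
    rcases hs.all x hx with h1 | h1 | h1
    · exact Or.inl h1
    · exact Or.inr (Or.inr h1)
    · exact Or.inr (Or.inl h1)
  no := fun d hd h1 h2 => hs.no (S.M.α d) (by rw [h.real_α, hd]) h2 (by rw [S.M.αα]; exact h1)
  u := hs.w
  w := hs.u

/-- the sum of the two cuts -/
theorem Sep.sum (h : Rg S) {T : Finset V} {U W : V → Bool} (hs : Sep S T U W) (hT : T ⊆ S.A) :
    S.rc U + S.rc W = S.rc (ind T) := by
  classical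
  have e : S.rc (fun x => U x || W x) = S.rc (ind T) := by
    rw [← rc_neg h.real_α (ind T)]
    refine rc_congr h.real_A h.real_α fun x hx => ?_
    by_cases hxT : x ∈ T
    · rw [hs.uT x hxT, hs.wT x hxT, ind_true.2 hxT]; rfl
    · rw [ind_false.2 hxT]
      rcases hs.all x hx with h1 | h1 | h1
      · exact absurd h1 hxT
      · rw [h1]; rfl
      · rw [h1]; simp
  rw [← e, rc_add h hs.dis (fun _ => rfl) hs.no]

/-- the outside of sigma lies on one side -/
theorem Sep.outside (h : Rg S) (hs : Sg S sg) {T : Finset V} {U W : V → Bool} (hp : Sep S T U W)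
    (hT : T ⊆ sg) : (∀ x ∈ S.A, U x = true → x ∈ sg) ∨ (∀ x ∈ S.A, W x = true → x ∈ sg) := by
  classical
  by_contra hc
  push Not at hc
  obtain ⟨⟨a, ha, ha', hao⟩, ⟨b, hb, hb', hbo⟩⟩ := hc
  rcases hs.out with h1 | ⟨h1, _, _⟩
  · exact hao (by rw [h1]; exact ha)
  · have e1 : S.rc (fun x => (U x && !ind sg x) || (W x && !ind sg x)) = S.rc (ind sg) := by
      rw [← rc_neg h.real_α (ind sg)]
      refine rc_congr h.real_A h.real_α fun x hx => ?_
      cases hi : ind sg x
      · have hx' := ind_false.1 hi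
        rcases hp.all x hx with h2 | h2 | h2
        · exact absurd (hT h2) hx'
        · rw [h2]; rfl
        · rw [h2]; simp
      · simp
    have hns : ∀ x ∈ sg, ∀ y : Bool, (y && !ind sg x) = false := by
      intro x hx y
      rw [ind_true.2 hx]; simp
    obtain ⟨z, hz⟩ := hs.ne
    have c1 : 4 ≤ S.rc (fun x => U x && !ind sg x) :=
      h.cut4 _ ⟨a, ha, by simp [ha', ind_false.2 hao]⟩ ⟨z, hs.sub hz, hns z hz _⟩
    have c2 : 4 ≤ S.rc (fun x => W x && !ind sg x) :=
      h.cut4 _ ⟨b, hb, by simp [hb', ind_false.2 hbo]⟩ ⟨z, hs.sub hz, hns z hz _⟩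
    have e2 := rc_add h (p := fun x => U x && !ind sg x) (q := fun x => W x && !ind sg x)
      (r := fun x => (U x && !ind sg x) || (W x && !ind sg x))
      (fun x hx => hp.dis x ⟨by
        have := hx.1; simp only [Bool.and_eq_true] at this; exact this.1, by
        have := hx.2; simp only [Bool.and_eq_true] at this; exact this.1⟩) (fun _ => rfl)
      (fun d hd k1 k2 => by
        simp only [Bool.and_eq_true] at k1 k2
        exact hp.no d hd k1.1 k2.1)
    omega

/-- a side inside sigma has at least six edges -/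
theorem Sep.six (h : Rg S) (hs : Sg S sg) {T : Finset V} {U W : V → Bool} (hp : Sep S T U W)
    (hT : T ⊆ sg) (h3 : T.card = 3) (hU : ∀ x ∈ S.A, U x = true → x ∈ sg) : 6 ≤ S.rc U := by
  classical
  obtain ⟨a, b, c, hab, hac, hbc, hTe⟩ := Finset.card_eq_three.1 h3
  have ha : a ∈ T := by rw [hTe]; simp
  have hb : b ∈ T := by rw [hTe]; simp
  by_cases h2 : S.Two U true
  · exact hs.inn U hU ⟨a, hT ha, hp.uT a ha⟩ h2
      ⟨a, hs.sub (hT ha), b, hs.sub (hT hb), hab, hp.uT a ha, hp.uT b hb⟩
  · exfalso
    -- a single vertex with neighbours in `T`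
    obtain ⟨u, hu, hu'⟩ := hp.u
    have huni : ∀ x ∈ S.A, U x = true → x = u := by
      intro x hx hx'
      by_contra hne
      exact h2 ⟨x, hx, u, hu, hne, hx', hu'⟩
    have hd := h.deg4 hu ⟨a, hs.sub (hT ha), fun e => by
      rw [← e, hp.uT a ha] at hu'; exact absurd hu' (by simp)⟩
    have hle : S.rdeg u ≤ T.card := by
      have e1 : S.rdeg u = (Finset.univ.filter fun d => S.M.v d = u ∧ S.real d = true).card := by
        unfold rdeg
        rw [Finset.card_filter]
      rw [e1]
      refine Finset.card_le_card_of_injOn (fun d => S.M.v (S.M.α d)) ?_ ?_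
      · intro d hd
        simp only [Finset.coe_filter, Finset.mem_univ, true_and, Set.mem_setOf_eq] at hd
        rw [Finset.mem_coe]
        have hA := h.real_A (S.M.α d) (by rw [h.real_α]; exact hd.2)
        rcases hp.all _ hA with k | k | k
        · exact k
        · exact absurd (hd.1.trans (huni _ hA k).symm) (h.real_ne d hd.2)
        · exact absurd (hp.no d hd.2 (by rw [hd.1]; exact hu') k) id
      · intro d hd e he hde
        simp only [Finset.coe_filter, Finset.mem_univ, true_and, Set.mem_setOf_eq] at hd he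
        exact h.sim d e hd.2 he.2 (hd.1.trans he.1.symm) hde
    omega

end Pool.FC7
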