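import Pool.Agent.FC7.RokF
import Pool.Agent.FC7.SgC

/-! # Lower bounds for the cuts next to the set sigma -/

open Finset

set_option linter.unusedSectionVars false

namespace Pool.FC7

open Pool.FC6 Pool.FC6.St

variable {D V : Type} [Fintype D] [DecidableEq V] {S : St D V} {sg : Finset V}

theorem MC.rg {Δ : ℕ} {L : D → Bool} {w : D → ℕ} (hΔ : Δ ≤ 6) (h : MC Δ S L w) : Rg S where
  toGd := h.gd hΔ
  sim := h.ok.toWf.simple
  cut4 := fun _ h1 h2 => h.cut4 hΔ h1 h2

/-- the number of real darts of a minimal counterexample -/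
theorem MC.nr20 {Δ : ℕ} {L : D → Bool} {w : D → ℕ} (hΔ : Δ ≤ 6) (h : MC Δ S L w) :
    20 ≤ nr S := by
  classical
  obtain ⟨d0, hd0⟩ := h.ok.ex
  have W := h.ok.toWf
  have h4 := fun x (hx : x ∈ S.A) => h.rdeg4 hΔ hx
  -- five vertices
  have hx := W.real_A d0 hd0
  have hT : (Finset.univ.filter fun d => S.M.v d = S.M.v d0 ∧ S.real d = true).card =
      S.rdeg (S.M.v d0) := by
    rw [Finset.card_filter]; rfl
  have hA : 5 ≤ S.A.card := by
    have e1 : ((Finset.univ.filter fun d => S.M.v d = S.M.v d0 ∧ S.real d = true).image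
        fun d => S.M.v (S.M.α d)).card = S.rdeg (S.M.v d0) := by
      rw [Finset.card_image_of_injOn, hT]
      intro d hd e he hde
      simp only [Finset.coe_filter, Finset.mem_univ, true_and, Set.mem_ofPred_eq] at hd he
      exact W.simple d e hd.2 he.2 (hd.1.trans he.1.symm) hde
    have e2 : insert (S.M.v d0) ((Finset.univ.filter fun d => S.M.v d = S.M.v d0 ∧
        S.real d = true).image fun d => S.M.v (S.M.α d)) ⊆ S.A := by
      intro y hy
      rcases Finset.mem_insert.1 hy with rfl | hy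
      · exact hx
      · obtain ⟨d, hd, rfl⟩ := Finset.mem_image.1 hy
        simp only [Finset.mem_filter, Finset.mem_univ, true_and] at hd
        exact W.real_A _ (by rw [W.real_α]; exact hd.2)
    have e3 := Finset.card_le_card e2
    rw [Finset.card_insert_of_notMem, e1] at e3
    · have := h4 _ hx
      omega
    · intro hy
      obtain ⟨d, hd, hdd⟩ := Finset.mem_image.1 hy
      simp only [Finset.mem_filter, Finset.mem_univ, true_and] at hd
      exact W.real_ne d hd.2 (hd.1.trans hdd.symm)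
  have e4 : ∑ x ∈ S.A, S.rdeg x ≤ nr S := by
    unfold St.rdeg nr
    rw [Finset.sum_comm]
    refine Finset.sum_le_sum fun d _ => ?_
    by_cases hd : S.real d = true
    · rw [if_pos hd]
      rw [Finset.sum_eq_single_of_mem (S.M.v d) (W.real_A d hd)
        (fun y _ hy => if_neg (fun h5 => hy h5.1.symm)), if_pos ⟨rfl, hd⟩]
    · rw [Finset.sum_eq_zero (fun y _ => if_neg (fun h5 => hd h5.2))]
      exact Nat.zero_le _
  have e5 : ∑ x ∈ S.A, 4 ≤ ∑ x ∈ S.A, S.rdeg x := Finset.sum_le_sum h4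
  rw [Finset.sum_const, smul_eq_mul] at e5
  omega

theorem Sg.cut5_aux (h : Rg S) (hs : Sg S sg) {s : V → Bool} (h1 : S.Two s true) {x : V} (hx : x ∈ sg) (hx' : s x = true)
    (hu : ∀ y ∈ sg, s y = true → y = x) (hc : 4 ≤ sg.card) (h5 : S.rc (ind sg) ≤ 5) :
    5 ≤ S.rc s := by
  classical
  have hr := h.real_α
  -- a vertex of the side outside of sg
  have hT : ∃ y ∈ S.A, s y = true ∧ y ∉ sg := by
    obtain ⟨p, hp, q, hq, hpq, hp', hq'⟩ := h1
    by_cases e : p ∈ sg
    · by_cases e2 : q ∈ sg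
      · exact absurd ((hu p e hp').trans (hu q e2 hq').symm) hpq
      · exact ⟨q, hq, hq', e2⟩
    · exact ⟨p, hp, hp', e⟩
  obtain ⟨y, hy, hy', hys⟩ := hT
  have a1 := rc_sub' hr s (ind sg)
  have a2 : 4 ≤ S.rc (fun p => s p && !ind sg p) :=
    h.cut4 _ ⟨y, hy, by simp [hy', ind_false.2 hys]⟩
      ⟨x, hs.sub hx, by simp [hx', ind_true.2 hx]⟩
  have hcd : 2 ≤ (sg.erase x).card := by rw [Finset.card_erase_of_mem hx]; omega
  obtain ⟨p, hp, q, hq, hpq⟩ := Finset.one_lt_card.1 hcd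
  have k1 : ∀ z ∈ sg.erase x, s z = false := by
    intro z hz
    by_contra hz'
    exact (Finset.mem_erase.1 hz).1 (hu z (Finset.mem_of_mem_erase hz) (by simpa using hz'))
  have a3 : 6 ≤ S.rc (fun p => ind sg p && !s p) := by
    refine hs.inn _ (fun z _ hz => ?_) ⟨x, hx, by simp [hx']⟩
      ⟨p, hs.sub (Finset.mem_of_mem_erase hp), q, hs.sub (Finset.mem_of_mem_erase hq), hpq, ?_, ?_⟩
      ⟨x, hs.sub hx, y, hy, fun e => hys (e ▸ hx), by simp [hx'], by simp [hy']⟩
    · simp only [Bool.and_eq_true] at hz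
      exact ind_true.1 hz.1
    · simp [k1 p hp, ind_true.2 (Finset.mem_of_mem_erase hp)]
    · simp [k1 q hq, ind_true.2 (Finset.mem_of_mem_erase hq)]
  omega

/-- both sides have two vertices and meet sigma -/
theorem Sg.cut5 (h : Rg S) (hs : Sg S sg) {s : V → Bool} (h1 : S.Two s true) (h2 : S.Two s false)
    (m1 : ∃ x ∈ sg, s x = true) (m2 : ∃ x ∈ sg, s x = false) : 5 ≤ S.rc s := by
  classical
  have hr := h.real_α
  rcases hs.out with hA | ⟨ho, hc, _⟩
  · have := hs.inn s (fun x hx _ => by rw [hA]; exact hx) m2 h1 h2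
    omega
  · obtain ⟨x, hx, hx'⟩ := m1
    obtain ⟨y, hy, hy'⟩ := m2
    by_cases u1 : ∀ z ∈ sg, s z = true → z = x
    · exact Sg.cut5_aux h hs h1 hx hx' u1 hc (by omega)
    by_cases u2 : ∀ z ∈ sg, s z = false → z = y
    · rw [← rc_neg hr]
      refine Sg.cut5_aux h hs (s := fun z => !s z) ?_ hy (by simp [hy'])
        (fun z hz hz' => u2 z hz (by simpa using hz')) hc (by omega)
      obtain ⟨p, hp, q, hq, hpq, hp', hq'⟩ := h2
      exact ⟨p, hp, q, hq, hpq, by simp [hp'], by simp [hq']⟩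
    · push Not at u1 u2
      obtain ⟨p, hp, hp', hpx⟩ := u1
      obtain ⟨q, hq, hq', hqy⟩ := u2
      have := hs.cut6 s ⟨x, hx, p, hp, fun e => hpx e.symm, hx', hp'⟩
        ⟨y, hy, q, hq, fun e => hqy e.symm, hy', hq'⟩
      omega

/-! ### The computed bound -/

/-- at least two bits -/
def two1 (t : ℕ) : Bool := decide (t &&& (t - 1) ≠ 0)

/-- two bits of one of the masks -/
def two2 (cq : List ℕ) (t : ℕ) : Bool := cq.any fun q => two1 (t &&& q)

/-- the bound: `sm` = labels surely in sigma, `cq` = sets of pairwise different labels, `cf` the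
other side -/
def bfq (cq : List ℕ) (sm f c : ℕ) : ℕ :=
  if decide (c &&& sm ≠ 0) && decide ((f ^^^ c) &&& sm ≠ 0) && two2 cq c && two2 cq (f ^^^ c) then
    if two2 cq (c &&& sm) && two2 cq ((f ^^^ c) &&& sm) then 6 else 5
  else 4

/-- the checks of the masks: `ne` = surely different labels -/
def cqc (ne : ℕ → ℕ → Bool) (m : ℕ) (cq : List ℕ) : Bool :=
  cq.all fun q => decide (q < 2 ^ m) &&
    allN m fun a => !q.testBit a || allN m fun b => decide (a = b) || !q.testBit b || ne a b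

theorem exists_bit {t : ℕ} (h : t ≠ 0) : ∃ a, t.testBit a = true := by
  by_contra hc
  push Not at hc
  exact h (Nat.eq_of_testBit_eq fun i => by rw [Nat.zero_testBit]; simpa using hc i)

theorem two1_sound {t : ℕ} (h : two1 t = true) : ∃ a b, a ≠ b ∧ t.testBit a = true ∧
    t.testBit b = true := by
  unfold two1 at h
  rw [decide_eq_true_eq] at h
  have ht : t ≠ 0 := by
    rintro rfl
    simp at h
  obtain ⟨a, ha⟩ := exists_bit h
  rw [Nat.testBit_and, Bool.and_eq_true] at ha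
  by_contra hc
  push Not at hc
  have e : t = 2 ^ a := by
    apply Nat.eq_of_testBit_eq
    intro i
    by_cases hi : i = a
    · rw [hi, ha.1, Nat.testBit_two_pow_self]
    · rw [Nat.testBit_two_pow_of_ne (Ne.symm hi)]
      simpa using hc a i (Ne.symm hi) ha.1
  have h2 := ha.2
  rw [e, Nat.testBit_two_pow_sub_one] at h2
  simp at h2

theorem two2_sound {ne : ℕ → ℕ → Bool} {m : ℕ} {cq : List ℕ} (hq : cqc ne m cq = true) {t : ℕ}
    (h : two2 cq t = true) : ∃ a < m, ∃ b < m, ne a b = true ∧ t.testBit a = true ∧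
      t.testBit b = true := by
  unfold two2 at h
  rw [List.any_eq_true] at h
  obtain ⟨q, hqm, h⟩ := h
  obtain ⟨a, b, hab, ha, hb⟩ := two1_sound h
  rw [Nat.testBit_and, Bool.and_eq_true] at ha hb
  unfold cqc at hq
  rw [List.all_eq_true] at hq
  have := hq q hqm
  rw [Bool.and_eq_true, decide_eq_true_eq, allN_iff] at this
  obtain ⟨k1, k2⟩ := this
  have hlt : ∀ i, q.testBit i = true → i < m := by
    intro i hi
    by_contra hc
    rw [Nat.testBit_lt_two_pow (lt_of_lt_of_le k1 (Nat.pow_le_pow_right (by omega)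
      (not_lt.1 hc)))] at hi
    exact absurd hi (by simp)
  have ham := hlt a ha.2
  have hbm := hlt b hb.2
  have k3 := k2 a ham
  rw [ha.2, Bool.not_true, Bool.false_or, allN_iff] at k3
  have k4 := k3 b hbm
  rw [hb.2, decide_eq_false hab, Bool.false_or, Bool.not_true, Bool.false_or] at k4
  exact ⟨a, ham, b, hbm, k4, ha.1, hb.1⟩

theorem bfq_le (h : Rg S) (hs : Sg S sg) {g : ℕ → V} {m sm : ℕ} {cq : List ℕ} {ne : ℕ → ℕ → Bool}
    (hq : cqc ne m cq = true) (hsm : sm < 2 ^ m) (hA : ∀ a < m, g a ∈ S.A)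
    (hne : ∀ a < m, ∀ b < m, ne a b = true → g a ≠ g b)
    (hg : ∀ a < m, sm.testBit a = true → g a ∈ sg) {s : V → Bool} {c : ℕ}
    (hc : ∀ a < m, c.testBit a = s (g a)) (h1 : ∃ y ∈ S.A, s y = true)
    (h2 : ∃ y ∈ S.A, s y = false) : bfq cq sm (2 ^ m - 1) c ≤ S.rc s := by
  classical
  have h4 := h.cut4 s h1 h2
  have hlt : ∀ i, sm.testBit i = true → i < m := by
    intro i hi
    by_contra hc
    rw [Nat.testBit_lt_two_pow (lt_of_lt_of_le hsm (Nat.pow_le_pow_right (by omega)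
      (not_lt.1 hc)))] at hi
    exact absurd hi (by simp)
  have hf : ∀ a < m, (2 ^ m - 1 ^^^ c).testBit a = !s (g a) := by
    intro a ha
    rw [Nat.testBit_xor, Nat.testBit_two_pow_sub_one, decide_eq_true ha, hc a ha, Bool.true_xor]
  unfold bfq
  split_ifs with c1 c2
  · rw [Bool.and_eq_true] at c2
    obtain ⟨a, ha, b, hb, hab, ha', hb'⟩ := two2_sound hq c2.1
    obtain ⟨a2, ha2, b2, hb2, hab2, ha2', hb2'⟩ := two2_sound hq c2.2
    rw [Nat.testBit_and, Bool.and_eq_true] at ha' hb' ha2' hb2'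
    rw [hc a ha] at ha'
    rw [hc b hb] at hb'
    rw [hf a2 ha2] at ha2'
    rw [hf b2 hb2] at hb2'
    exact hs.cut6 s ⟨g a, hg a ha ha'.2, g b, hg b hb hb'.2, hne a ha b hb hab, ha'.1, hb'.1⟩
      ⟨g a2, hg a2 ha2 ha2'.2, g b2, hg b2 hb2 hb2'.2, hne a2 ha2 b2 hb2 hab2,
        by simpa using ha2'.1, by simpa using hb2'.1⟩
  · rw [Bool.and_eq_true, Bool.and_eq_true, Bool.and_eq_true, decide_eq_true_eq,
      decide_eq_true_eq] at c1
    obtain ⟨⟨⟨c3, c4⟩, c5⟩, c6⟩ := c1
    obtain ⟨a, ha, b, hb, hab, ha', hb'⟩ := two2_sound hq c5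
    obtain ⟨a2, ha2, b2, hb2, hab2, ha2', hb2'⟩ := two2_sound hq c6
    rw [hc a ha] at ha'
    rw [hc b hb] at hb'
    rw [hf a2 ha2] at ha2'
    rw [hf b2 hb2] at hb2'
    obtain ⟨p, hp⟩ := exists_bit c3
    obtain ⟨q, hq⟩ := exists_bit c4
    rw [Nat.testBit_and, Bool.and_eq_true] at hp hq
    have hpm := hlt p hp.2
    have hqm := hlt q hq.2
    rw [hc p hpm] at hp
    rw [hf q hqm] at hq
    exact Sg.cut5 h hs ⟨g a, hA a ha, g b, hA b hb, hne a ha b hb hab, ha', hb'⟩
      ⟨g a2, hA a2 ha2, g b2, hA b2 hb2, hne a2 ha2 b2 hb2 hab2, by simpa using ha2',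
        by simpa using hb2'⟩ ⟨g p, hg p hpm hp.2, hp.1⟩ ⟨g q, hg q hqm hq.2, by simpa using hq.1⟩
  · exact h4

end Pool.FC7
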