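import Pool.Agent.FC7.DiD
import Pool.Agent.FC7.CfD
import Pool.Agent.FC7.CvE
import Pool.Agent.FC7.RokH

/-! # The smallest disc of a minimal counterexample, maximum degree 6 -/

open Finset

set_option linter.unusedSectionVars false

namespace Pool.FC7

open Pool.FC6 Pool.FC6.St

variable {D V : Type} [Fintype D] [DecidableEq V] {S : St D V} {L : D → Bool} {w : D → ℕ} {Δ : ℕ}

theorem MC.n2 (hΔ : Δ ≤ 6) (h : MC Δ S L w) (hS : IsStar S) {x : V} (hx : x ∈ S.A) : S.N2 x :=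
  (h.rg hΔ).n2 hS h.ok.toWf (by omega) x hx

/-- the region of a minimal counterexample -/
theorem MC.dsc (hΔ : Δ ≤ 6) (h : MC Δ S L w) (hS : IsStar S) : ∃ U T, Dsc S U T :=
  exists_dsc (h.rg hΔ) hS h.ok.toWf (by omega)

theorem Fc3.r {d : D} (h : Fc3 S d) : FcR S d := fun e e' _ _ h1 h2 h3 => h e e' h1 h2 h3

theorem Fc3.h {d : D} (h : Fc3 S d) : FcH S d := fun e e' _ _ h1 h2 h3 => h e e' h1 h2 h3

/-- the units of the face of a hub -/
theorem fu_hub (hS : IsStar S) (W : Wf Δ S L w) {c : V} (hc : c ∉ S.A) {d : D}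
    (h : InC S c d) : fu S d = ∑ e, (if S.M.v e = c then S.u (S.M.φ e) else 0) := by
  classical
  have h2 : ∑ e, (if S.M.v e = c then S.u (S.M.φ e) else 0) =
      ∑ e, if S.M.v (S.M.φ (S.M.φ e)) = c then S.u e else 0 := by
    rw [← sum_φ_nat S.M (fun e => if S.M.v (S.M.φ (S.M.φ e)) = c then S.u e else 0)]
    refine Finset.sum_congr rfl fun e _ => ?_
    rw [S.M.φ3]
  rw [h2]
  unfold fu
  refine Finset.sum_congr rfl fun e _ => ?_
  by_cases h3 : S.u e = 0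
  · rw [h3, ite_self, ite_self]
  · have h4 := inC_real hS W hc (hS.ur e h3)
    by_cases h5 : S.sc.r d e
    · rw [if_pos h5, if_pos (h4.1 ((sc_inC hS W hc h5).1 h))]
    · rw [if_neg h5, if_neg (fun hh => h5 (inC_sc hS W hc h (h4.2 hh)))]

/-- a long face with three units at different corners can be converted -/
theorem MC.hub3 (hΔ : Δ ≤ 6) (h : MC Δ S L w) (hS : IsStar S) {c : V} (hc : c ∉ S.A) {d : D}
    (hd : InC S c d) (h3 : fu S d = 3) (h1 : ∀ e, S.sc.r d e → S.u e ≤ 1) : Hub3 S c where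
  dead := hc
  one e he := by
    refine h1 _ (S.sc.iseqv.trans (inC_sc hS h.ok.toWf hc hd (Or.inl he))
      (fun t ht => (ht.1 e).symm))
  three := by rw [← fu_hub hS h.ok.toWf hc hd, h3]
  inj e e' he he' _ _ hh := by
    have hA : S.M.v (S.M.α e) ∈ S.A := hS.alivev h.ok.toWf (by rw [he]; exact hc)
    refine S.M.αinj (h.n2 hΔ hS hA _ _ rfl hh.symm ?_)
    rw [S.M.αα, S.M.αα, he, he']

/-- cuts of the converted state -/
theorem MC.cut_conv (hΔ : Δ ≤ 6) (h3 : 3 ≤ Δ) (h : MC Δ S L w) (hS : IsStar S) {C : Finset V}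
    (hC : ∀ c ∈ C, Hub3 S c) {s : V → Bool} (a : ∃ x ∈ (FC7.conv S C).A, s x = true)
    (b : ∃ x ∈ (FC7.conv S C).A, s x = false) :
    3 ≤ (FC7.conv S C).rc s ∧ ((∃ x ∈ S.A, s x = true) → (∃ x ∈ S.A, s x = false) →
      4 ≤ (FC7.conv S C).rc s) :=
  ⟨(h.conv hΔ h3 hS hC).rc3 s a b, fun a' b' => (h.cut4 hΔ a' b').trans (conv_rc s)⟩

end Pool.FC7
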