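import Pool.Agent.FC7.CfF
import Pool.Agent.FC7.DiE

/-! # `F4` from the facts about chordless closed curves of length four -/

open Finset

set_option linter.unusedSectionVars false

namespace Pool.FC7

open Pool.FC6 Pool.FC6.St

section defs

variable {D V : Type} [Fintype D] [DecidableEq V]

/-- a common gap face of `y = v (α k)` and a nonadjacent neighbour `v (α k')` of `m = v k` is a gap
face at `m` -/
def H4 (S : St D V) (U : V → Prop) : Prop :=
  ∀ k k', S.real k = true → S.real k' = true → S.M.v k' = S.M.v k → U (S.M.v k) →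
    U (S.M.v (S.M.α k)) → k' ≠ k →
    (∀ r, S.real r = true → S.M.v r = S.M.v (S.M.α k) → S.M.v (S.M.α r) ≠ S.M.v (S.M.α k')) →
    D4H S k k'

/-- closed curves of length four through alive vertices, two of them adjacent vertices of `U`: there
is a chord, or the curve is the link of a vertex of degree four -/
def R4 (S : St D V) (U : V → Prop) : Prop :=
  ∀ k k' e e', S.real k = true → S.real k' = true → S.real e = true → S.real e' = true →
    S.M.v k' = S.M.v k → S.M.v e = S.M.v (S.M.α k) → S.M.v e' = S.M.v (S.M.α k') →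
    S.M.v (S.M.α e) = S.M.v (S.M.α e') → U (S.M.v k) → U (S.M.v (S.M.α k)) →
    S.M.v (S.M.α k) ≠ S.M.v (S.M.α k') → S.M.v (S.M.α e) ≠ S.M.v k →
    (∃ r, S.real r = true ∧ S.M.v r = S.M.v (S.M.α k) ∧ S.M.v (S.M.α r) = S.M.v (S.M.α k')) ∨
    (∃ t, S.real t = true ∧ S.M.v t = S.M.v k ∧ S.M.v (S.M.α t) = S.M.v (S.M.α e)) ∨
    (k' = S.M.σ (S.M.σ k) ∧ S.M.σ (S.M.σ e) = S.M.α k ∧ S.nd (S.M.α (S.M.σ k)) = 4) ∨
    (k = S.M.σ (S.M.σ k') ∧ e = S.M.σ (S.M.σ (S.M.α k)) ∧
      S.nd (S.M.α (S.M.σ (S.M.α k))) = 4)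

end defs

variable {D V : Type} [Fintype D] [DecidableEq V] {S : St D V} {L : D → Bool} {w : D → ℕ} {Δ : ℕ}
  {U : V → Prop}

/-- the hub case -/
theorem F4.hubc (fc : ∀ z, S.real z = true → U (S.M.v z) → Fc3 S z)
    (hra : ∀ d, S.real (S.M.α d) = S.real d) (h4 : H4 S U) {k e e' r : D}
    (hk : S.real k = true) (hm : U (S.M.v k)) (hy : U (S.M.v (S.M.α k)))
    (he : S.M.v e = S.M.v k) (he' : S.M.v e' = S.M.v (S.M.α k)) (hr : S.M.v r = S.M.v (S.M.α e))
    (hr' : S.M.v (S.M.α r) = S.M.v (S.M.α e')) (h1 : S.M.v (S.M.α e) ≠ S.M.v (S.M.α k))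
    (h2 : S.M.v (S.M.α e') ≠ S.M.v k) (re : S.real e = false) (re' : S.real e' = true)
    (rr : S.real r = false) : P4 S k e e' ∨ P4 S (S.M.α k) e' e := by
  have nk : e' ≠ S.M.α k := fun h0 => h2 (by rw [h0, S.M.αα])
  by_cases hadj : ∃ t, S.real t = true ∧ S.M.v t = S.M.v k ∧ S.M.v (S.M.α t) = S.M.v (S.M.α e')
  · obtain ⟨t, t1, t2, t3⟩ := hadj
    have f1 := fc k hk hm t e' t2 he' t3
    have f2 := fc t t1 (by rw [t2]; exact hm) e (S.M.α r) (he.trans t2.symm)
      (by rw [hr', t3]) (by rw [S.M.αα, hr])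
    rcases f1 with ⟨a, b⟩ | ⟨a, b⟩
    · rcases f2 with ⟨c, -⟩ | ⟨c, -⟩
      · exact Or.inl (Or.inr (Or.inl ⟨by rw [c, a], b⟩))
      · exfalso
        apply h1
        rw [S.M.σinj (c.trans a)]
    · rcases f2 with ⟨c, -⟩ | ⟨c, -⟩
      · exfalso
        apply h1
        rw [c, a]
      · exact Or.inr (Or.inl ⟨b, by rw [c, a, S.M.αα]⟩)
  · push Not at hadj
    have g1 := h4 (S.M.α k) e' (by rw [hra]; exact hk) re' he' hy (by rw [S.M.αα]; exact hm) nk
      (by rw [S.M.αα]; exact hadj) e (S.M.α r) re (by rw [hra]; exact rr)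
      (by rw [S.M.αα]; exact he) hr' (by rw [S.M.αα]; exact hr.symm)
    obtain ⟨t, t1, t2, t3⟩ := g1
    have f1 := fc k hk hm e t he t2 t3.symm
    have f2 := fc e' re' (by rw [he']; exact hy) t (S.M.α r) (t2.trans he'.symm) hr'
      (by rw [S.M.αα, hr, t3])
    rcases f1 with ⟨a, b⟩ | ⟨a, b⟩
    · rcases f2 with ⟨c, -⟩ | ⟨c, -⟩
      · exact Or.inl (Or.inl ⟨a, by rw [← c, b]⟩)
      · exact absurd (c.symm.trans b) nk
    · rcases f2 with ⟨c, -⟩ | ⟨c, -⟩
      · exact absurd (S.M.σinj (c.symm.trans b)) nk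
      · exact Or.inr (Or.inr (Or.inl ⟨by rw [← c, b], by rw [a, S.M.αα]⟩))

/-- closed curves of length four through two adjacent vertices of `U` -/
theorem F4.of (hS : IsStar S) (W : Wf Δ S L w) (UA : ∀ x, U x → x ∈ S.A)
    (fc : ∀ z, S.real z = true → U (S.M.v z) → Fc3 S z) (h4 : H4 S U) (r4 : R4 S U) : F4 S U := by
  intro k e e' r hk hm hy he he' hr hr' h1 h2
  have hra : ∀ d, S.real (S.M.α d) = S.real d := W.real_α
  have nk : e' ≠ S.M.α k := fun h0 => h2 (by rw [h0, S.M.αα])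
  have ne : e ≠ k := fun h0 => h1 (by rw [h0])
  have virt : ∀ z, S.real z = false → S.M.v z ∈ S.A → S.M.v (S.M.α z) ∉ S.A := fun z z1 z2 =>
    hS.vhead W z2 z1
  have real : ∀ z, S.M.v z ∈ S.A → S.M.v (S.M.α z) ∈ S.A → S.real z = true := fun z z1 z2 =>
    hS.real_of W z1 z2
  have eA : S.M.v e ∈ S.A := by rw [he]; exact UA _ hm
  have eA' : S.M.v e' ∈ S.A := by rw [he']; exact UA _ hy
  cases re : S.real e <;> cases re' : S.real e'
  · exfalso
    have a1 := virt e re eA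
    have a2 := virt e' re' eA'
    rw [← hr] at a1
    rw [← hr'] at a2
    exact a2 (hS.alivev W a1)
  · have rr : S.real r = false := by
      cases q : S.real r
      · rfl
      · exact absurd (W.real_A _ q) (by rw [hr]; exact virt e re eA)
    exact F4.hubc fc hra h4 hk hm hy he he' hr hr' h1 h2 re re' rr
  · have rr : S.real r = false := by
      cases q : S.real r
      · rfl
      · exact absurd (W.real_A _ ((hra r).trans q)) (by rw [hr']; exact virt e' re' eA')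
    have := F4.hubc fc hra h4 (k := S.M.α k) (e := e') (e' := e) (r := S.M.α r)
      (by rw [hra]; exact hk) hy (by rw [S.M.αα]; exact hm) he' (by rw [S.M.αα]; exact he) hr'
      (by rw [S.M.αα]; exact hr) (by rw [S.M.αα]; exact h2) h1 re' re (by rw [hra]; exact rr)
    rw [S.M.αα] at this
    exact this.symm
  · have rr : S.real r = true := by
      refine real r ?_ ?_
      · rw [hr]; exact W.real_A _ ((hra e).trans re)
      · rw [hr']; exact W.real_A _ ((hra e').trans re')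
    rcases r4 k e e' r hk re re' rr he he' hr hr'.symm hm hy h1.symm h2 with
      ⟨t, t1, t2, t3⟩ | ⟨t, t1, t2, t3⟩ | ⟨a, b, c⟩ | ⟨a, b, c⟩
    · -- `y ~ a`
      have f1 := fc k hk hm e t he t2 t3.symm
      have f2 := fc t t1 (by rw [t2]; exact hy) e' r (he'.trans t2.symm) (by rw [hr, t3]) hr'.symm
      rcases f1 with ⟨a, b⟩ | ⟨a, b⟩
      · rcases f2 with ⟨c, -⟩ | ⟨c, -⟩
        · exact absurd (c.trans b) nk
        · exact Or.inl (Or.inl ⟨a, by rw [c, b]⟩)
      · rcases f2 with ⟨c, -⟩ | ⟨c, -⟩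
        · exact Or.inr (Or.inr (Or.inl ⟨by rw [c, b], by rw [a, S.M.αα]⟩))
        · exact absurd (S.M.σinj (c.trans b)) nk
    · -- `m ~ b`
      have f1 := fc k hk hm t e' t2 he' t3
      have f2 := fc t t1 (by rw [t2]; exact hm) e (S.M.α r) (he.trans t2.symm)
        (by rw [hr', t3]) (by rw [S.M.αα, hr])
      rcases f1 with ⟨a, b⟩ | ⟨a, b⟩
      · rcases f2 with ⟨c, -⟩ | ⟨c, -⟩
        · exact Or.inl (Or.inr (Or.inl ⟨by rw [c, a], b⟩))
        · exact absurd (S.M.σinj (c.trans a)) ne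
      · rcases f2 with ⟨c, -⟩ | ⟨c, -⟩
        · exact absurd (c.trans a) ne
        · exact Or.inr (Or.inl ⟨b, by rw [c, a, S.M.αα]⟩)
    · exact Or.inl (Or.inr (Or.inr ⟨a, b, c⟩))
    · exact Or.inr (Or.inr (Or.inr ⟨b, by rw [S.M.αα]; exact a.symm, c⟩))

end Pool.FC7
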