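import Pool.Agent.FC7.CfG

/-! # Closed curves of length four in the mirror image -/

open Finset

set_option linter.unusedSectionVars false

namespace Pool.FC7

open Pool.FC6 Pool.FC6.St

variable {D V : Type} [Fintype D] [DecidableEq V] {S : St D V} {U : V → Prop} {Δ : ℕ}
  {L : D → Bool} {w : D → ℕ}

theorem mir_nd (g : D) : (mir S).nd g = S.nd (S.M.α g) := by
  classical
  unfold St.nd
  refine Finset.card_bij (fun x _ => S.M.α x) (fun x hx => ?_) (fun x _ y _ h => S.M.αinj h)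
    fun y hy => ⟨S.M.α y, ?_, S.M.αα y⟩
  · rw [Finset.mem_filter] at hx ⊢
    exact ⟨Finset.mem_univ _, hx.2⟩
  · rw [Finset.mem_filter] at hy ⊢
    refine ⟨Finset.mem_univ _, ?_⟩
    show S.M.v (S.M.α (S.M.α y)) = S.M.v (S.M.α g)
    rw [S.M.αα]
    exact hy.2

theorem P4.mir {k e e' : D} (h : P4 S k (S.M.α e') (S.M.α e)) : P4 (FC7.mir S) k e e' := by
  -- the darts before `α k`
  obtain ⟨t, ht⟩ : ∃ t, (FC7.mir S).M.σ k = t := ⟨_, rfl⟩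
  have ht1 : S.M.σ (S.M.α t) = S.M.α k := mσ_iff.1 ht
  have e1 : ∀ x, S.M.σ (S.M.α x) = S.M.α k → x = (FC7.mir S).M.σ k := fun x hx =>
    (mσ_iff.2 hx).symm
  have e2 : ∀ x, S.M.σ (S.M.σ (S.M.α x)) = S.M.α k →
      x = (FC7.mir S).M.σ ((FC7.mir S).M.σ k) := by
    intro x hx
    rw [ht]
    have h1 : S.M.σ (S.M.α x) = S.M.α t := S.M.σinj (hx.trans ht1.symm)
    exact (mσ_iff.2 h1).symm
  have e3 : ∀ x, S.M.α x = S.M.σ k → (FC7.mir S).M.σ x = S.M.α k := by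
    intro x hx
    rw [mσ_iff, S.M.αα, hx]
  have e4 : ∀ x, S.M.α x = S.M.σ (S.M.σ k) →
      (FC7.mir S).M.σ ((FC7.mir S).M.σ x) = S.M.α k := by
    intro x hx
    have h1 : (FC7.mir S).M.σ x = S.M.α (S.M.σ k) := by
      rw [mσ_iff, S.M.αα, hx]
    rw [h1, mσ_iff, S.M.αα, S.M.αα]
  rcases h with ⟨a, b⟩ | ⟨a, b⟩ | ⟨a, b, c⟩
  · exact Or.inr (Or.inl ⟨e2 _ b, e3 _ a⟩)
  · exact Or.inl ⟨e1 _ b, e4 _ a⟩
  · refine Or.inr (Or.inr ⟨e2 _ b, e4 _ a, ?_⟩)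
    rw [mir_nd]
    show S.nd (S.M.α (S.M.α ((FC7.mir S).M.σ k))) = 4
    rw [ht, S.M.αα, ← c]
    refine nd_v ?_
    have := hd_pre ht1
    rwa [S.M.αα] at this

theorem F4.mir (W : Wf Δ S L w) (h : F4 S U) : F4 (FC7.mir S) U := by
  intro k e e' r h1 h2 h3 h4 h5 h6 h7 h8 h9
  have v1 : U (S.M.v (S.M.α k)) := h2
  have v2 : U (S.M.v (S.M.α (S.M.α k))) := h3
  have v3 : S.M.v (S.M.α e) = S.M.v (S.M.α k) := h4
  have v4 : S.M.v (S.M.α e') = S.M.v (S.M.α (S.M.α k)) := h5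
  have v5 : S.M.v (S.M.α r) = S.M.v (S.M.α (S.M.α e)) := h6
  have v6 : S.M.v (S.M.α (S.M.α r)) = S.M.v (S.M.α (S.M.α e')) := h7
  have v7 : S.M.v (S.M.α (S.M.α e)) ≠ S.M.v (S.M.α (S.M.α k)) := h8
  have v8 : S.M.v (S.M.α (S.M.α e')) ≠ S.M.v (S.M.α k) := h9
  rw [S.M.αα] at v2 v4
  rw [S.M.αα, S.M.αα] at v6 v7
  rw [S.M.αα] at v5 v8
  have hr : S.real k = true := h1
  rcases h k (S.M.α e') (S.M.α e) r hr v2 v1 v4 v3 (by rw [S.M.αα]; exact v6)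
    (by rw [S.M.αα]; exact v5) (by rw [S.M.αα]; exact v8) (by rw [S.M.αα]; exact v7) with h0 | h0
  · exact Or.inl h0.mir
  · exact Or.inr (P4.mir (S := S) (k := S.M.α k) (e := e') (e' := e) h0)

end Pool.FC7
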