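import Pool.Agent.FC7.Gd

/-! # The star form for the class with optional faces

A face with exactly three real darts (with or without units) becomes a solid triangle; every other
face gets one dead centre. -/

open Finset

namespace Pool.FC7

open Pool.FC6 Pool.FC6.St

variable {D V : Type} [Fintype D] [DecidableEq V]

/-- the face of `d` is a triangle -/
noncomputable def plf (S : St D V) (d : D) : Bool := decide (S.csz d = 3)

/-- real darts of the triangles -/
noncomputable def pp (S : St D V) (d : D) : Bool := S.real d && plf S d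

/-- real darts of the other faces -/
noncomputable def gg (S : St D V) (d : D) : Bool := S.real d && !plf S d

variable {S : St D V}

theorem plf_iff {d : D} : plf S d = true ↔ S.csz d = 3 := by
  unfold plf; exact decide_eq_true_iff

theorem plf_congr {d e : D} (h : S.sc.r d e) : plf S d = plf S e := by
  classical
  have h1 : ∀ x, S.sc.r d x ↔ S.sc.r e x := fun x =>
    ⟨fun h2 => S.sc.iseqv.trans (S.sc.iseqv.symm h) h2, fun h2 => S.sc.iseqv.trans h h2⟩
  unfold plf csz
  simp only [h1]

theorem cl_plf : S.Cl (plf S) :=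
  ⟨fun d => (plf_congr ((scφ d d).2 (S.sc.iseqv.refl d))).symm,
    fun d hd => (plf_congr ((scα hd d).2 (S.sc.iseqv.refl d))).symm⟩

theorem pp_iff {d : D} : pp S d = true ↔ S.real d = true ∧ plf S d = true := by
  simp [pp]

theorem gg_iff {d : D} : gg S d = true ↔ S.real d = true ∧ plf S d = false := by
  simp [gg]

theorem pg {d : D} (h : S.real d = true) : pp S d = true ∨ gg S d = true := by
  cases h1 : plf S d
  · exact Or.inr (gg_iff.2 ⟨h, h1⟩)
  · exact Or.inl (pp_iff.2 ⟨h, h1⟩)

theorem not_pg {d : D} (h : pp S d = true) (h' : gg S d = true) : False := by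
  rw [pp_iff] at h; rw [gg_iff] at h'
  rw [h.2] at h'; exact absurd h'.2 (by simp)

theorem Gd.B_sc (h : Gd S) {d : D} (hd : S.real d = true) : S.sc.r d (S.B d) := fun _ ht =>
  (h.cl_B ht hd).symm

theorem Gd.B_inj (h : Gd S) {a b : D} (ha : S.real a = true) (hb : S.real b = true)
    (hab : S.B a = S.B b) : a = b := by
  have ra' : S.real (S.M.α a) = true := by rw [h.real_α, ha]
  have rb' : S.real (S.M.α b) = true := by rw [h.real_α, hb]
  exact S.M.αinj (nx_inj h.full ra' rb' (h.real_A _ ra') (h.real_A _ rb') hab)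

theorem Gd.B_ne (h : Gd S) {a : D} (ha : S.real a = true) : S.B a ≠ a := by
  intro h1
  have h2 := v_B (S := S) a
  rw [h1] at h2
  exact h.real_ne a ha h2

/-- the real darts of the face of `d` -/
noncomputable def rds (S : St D V) (d : D) : Finset D :=
  open Classical in Finset.univ.filter fun e => S.real e = true ∧ S.sc.r d e

theorem mem_rds {d e : D} : e ∈ rds S d ↔ S.real e = true ∧ S.sc.r d e := by
  classical
  simp [rds]

theorem csz_eq {d : D} : S.csz d = (rds S d).card := by
  classical
  unfold csz rds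
  rw [Finset.card_filter]

/-- a face of length three -/
theorem Gd.B3 (h : Gd S) {a : D} (ha : S.real a = true) (h3 : S.csz a = 3) :
    S.B (S.B (S.B a)) = a ∧ S.B (S.B a) ≠ a ∧ ∀ e, S.real e = true → S.sc.r a e →
      e = a ∨ e = S.B a ∨ e = S.B (S.B a) := by
  classical
  have r1 := h.real_B ha
  have r2 := h.real_B r1
  have r3 := h.real_B r2
  have s1 := h.B_sc ha
  have s2 := S.sc.iseqv.trans s1 (h.B_sc r1)
  have s3 := S.sc.iseqv.trans s2 (h.B_sc r2)
  have n1 := h.B_ne ha
  have n2 := h.B_ne r1
  have n3 : S.B (S.B a) ≠ a := by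
    intro h4
    -- the class is {a, B a}
    let b : D → ℝ := fun x => if x = a ∨ x = S.B a then 1 else 0
    obtain ⟨H, hH, hb⟩ := h.bcon b (fun d hd => by
      have e1 : (S.B d = a ∨ S.B d = S.B a) ↔ (d = a ∨ d = S.B a) := by
        constructor
        · rintro (h5 | h5)
          · right; exact h.B_inj hd r1 (h5.trans h4.symm)
          · left; exact h.B_inj hd ha h5
        · rintro (h5 | h5)
          · right; rw [h5]
          · left; rw [h5, h4]
      simp only [b, e1])
    have hsub : rds S a ⊆ {a, S.B a} := by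
      intro x hx
      rw [mem_rds] at hx
      have h5 := cl_sc hH hx.2
      rw [hb a ha, hb x hx.1] at h5
      simp only [b, true_or, if_true] at h5
      by_contra h6
      rw [Finset.mem_insert, Finset.mem_singleton] at h6
      rw [if_neg h6] at h5
      exact one_ne_zero h5
    have h5 := Finset.card_le_card hsub
    rw [← csz_eq, h3] at h5
    have h6 := Finset.card_le_two (a := a) (b := S.B a)
    omega
  have hset : rds S a = {a, S.B a, S.B (S.B a)} := by
    symm
    refine Finset.eq_of_subset_of_card_le ?_ ?_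
    · intro x hx
      rw [Finset.mem_insert, Finset.mem_insert, Finset.mem_singleton] at hx
      rw [mem_rds]
      rcases hx with rfl | rfl | rfl
      · exact ⟨ha, S.sc.iseqv.refl _⟩
      · exact ⟨r1, s1⟩
      · exact ⟨r2, s2⟩
    · rw [← csz_eq, h3]
      refine le_of_eq (Eq.symm (Finset.card_eq_three.2 ⟨a, S.B a, S.B (S.B a), n1.symm, n3.symm,
        n2.symm, rfl⟩))
  have hmem : ∀ e, S.real e = true → S.sc.r a e → e = a ∨ e = S.B a ∨ e = S.B (S.B a) := by
    intro e he hs
    have : e ∈ rds S a := mem_rds.2 ⟨he, hs⟩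
    rw [hset, Finset.mem_insert, Finset.mem_insert, Finset.mem_singleton] at this
    exact this
  refine ⟨?_, n3, hmem⟩
  rcases hmem _ r3 s3 with h5 | h5 | h5
  · exact h5
  · exact absurd (h.B_inj r2 ha h5) n3
  · exact absurd (h.B_inj r2 r1 h5) n2

theorem Gd.pp_B (h : Gd S) {a : D} (ha : pp S a = true) : pp S (S.B a) = true := by
  obtain ⟨h1, h2⟩ := pp_iff.1 ha
  exact pp_iff.2 ⟨h.real_B h1, by rw [← plf_congr (h.B_sc h1)]; exact h2⟩

theorem Gd.gg_B (h : Gd S) {a : D} (ha : gg S a = true) : gg S (S.B a) = true := by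
  obtain ⟨h1, h2⟩ := gg_iff.1 ha
  exact gg_iff.2 ⟨h.real_B h1, by rw [← plf_congr (h.B_sc h1)]; exact h2⟩

/-- the map `B` on the real darts of the nonplain faces -/
noncomputable def Bg (h : Gd S) (a : {d // gg S d = true}) : {d // gg S d = true} :=
  ⟨S.B a.1, h.gg_B a.2⟩

theorem Bg_inj (h : Gd S) : Function.Injective (Bg h) := by
  intro a b hab
  have h1 : S.B a.1 = S.B b.1 := congrArg Subtype.val hab
  exact Subtype.ext (h.B_inj (gg_iff.1 a.2).1 (gg_iff.1 b.2).1 h1)

noncomputable def Be (h : Gd S) : {d // gg S d = true} ≃ {d // gg S d = true} :=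
  Equiv.ofBijective (Bg h) (Finite.injective_iff_bijective.1 (Bg_inj h))

/-- the darts of the star form -/
abbrev DS (S : St D V) : Type := {d // pp S d = true} ⊕ ({d // gg S d = true} × Fin 3)

/-- the vertices of the star form -/
abbrev VS (S : St D V) : Type := V ⊕ Quotient S.sc

/-- embedding of the real darts -/
noncomputable def em (a : D) (h : S.real a = true) : DS S :=
  if hp : pp S a = true then Sum.inl ⟨a, hp⟩ else
    Sum.inr (⟨a, (pg h).resolve_left hp⟩, 0)

theorem em_pp {a : D} (h : S.real a = true) (hp : pp S a = true) : em a h = Sum.inl ⟨a, hp⟩ := by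
  unfold em; rw [dif_pos hp]

theorem em_gg {a : D} (h : S.real a = true) (hp : gg S a = true) :
    em a h = Sum.inr (⟨a, hp⟩, 0) := by
  unfold em
  rw [dif_neg (fun h' => not_pg h' hp)]

/-- next dart of the face -/
noncomputable def sφ' (h : Gd S) : DS S → DS S
  | Sum.inl a => Sum.inl ⟨S.B a.1, h.pp_B a.2⟩
  | Sum.inr (a, i) => Sum.inr (a, i + 1)

/-- reversal -/
noncomputable def sα' (h : Gd S) : DS S → DS S
  | Sum.inl a => em (S.M.α a.1) (by rw [h.real_α]; exact (pp_iff.1 a.2).1)
  | Sum.inr (a, 0) => em (S.M.α a.1) (by rw [h.real_α]; exact (gg_iff.1 a.2).1)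
  | Sum.inr (a, 1) => Sum.inr (Be h a, 2)
  | Sum.inr (a, 2) => Sum.inr ((Be h).symm a, 1)

/-- origin -/
def sv : DS S → VS S
  | Sum.inl a => Sum.inl (S.M.v a.1)
  | Sum.inr (a, 0) => Sum.inl (S.M.v a.1)
  | Sum.inr (a, 1) => Sum.inl (S.M.v (S.M.α a.1))
  | Sum.inr (a, 2) => Sum.inr (Quotient.mk S.sc a.1)

theorem sv_em {a : D} (h : S.real a = true) : sv (em a h) = Sum.inl (S.M.v a) := by
  rcases pg h with hp | hp
  · rw [em_pp h hp]; rfl
  · rw [em_gg h hp]; rfl

theorem sα_em (h : Gd S) {a : D} (ha : S.real a = true) :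
    sα' h (em a ha) = em (S.M.α a) (by rw [h.real_α, ha]) := by
  rcases pg ha with hp | hp
  · rw [em_pp ha hp]; rfl
  · rw [em_gg ha hp]; rfl

theorem em_congr {a b : D} (h : a = b) (ha : S.real a = true) (hb : S.real b = true) :
    em a ha = em b hb := by subst h; rfl

theorem em_inj {a b : D} (ha : S.real a = true) (hb : S.real b = true) (h : em a ha = em b hb) :
    a = b := by
  rcases pg ha with h1 | h1
  · rcases pg hb with h2 | h2
    · rw [em_pp ha h1, em_pp hb h2] at h
      exact congrArg Subtype.val (Sum.inl_injective h)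
    · rw [em_pp ha h1, em_gg hb h2] at h
      exact absurd h (by simp)
  · rcases pg hb with h2 | h2
    · rw [em_pp hb h2, em_gg ha h1] at h
      exact absurd h (by simp)
    · rw [em_gg ha h1, em_gg hb h2] at h
      have := Sum.inr_injective h
      exact congrArg (fun x : {d // gg S d = true} × Fin 3 => x.1.1) this

/-- every dart is in the face of an embedded dart -/
theorem ex_em (h : Gd S) (x : DS S) : ∃ (a : D) (ha : S.real a = true), x = em a ha ∨
    x = sφ' h (em a ha) ∨ x = sφ' h (sφ' h (em a ha)) := by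
  rcases x with a | ⟨a, i⟩
  · exact ⟨a.1, (pp_iff.1 a.2).1, Or.inl (by rw [em_pp _ a.2])⟩
  · refine ⟨a.1, (gg_iff.1 a.2).1, ?_⟩
    rw [em_gg _ a.2]
    fin_cases i
    · exact Or.inl rfl
    · exact Or.inr (Or.inl rfl)
    · exact Or.inr (Or.inr rfl)

theorem sα_sα (h : Gd S) (x : DS S) : sα' h (sα' h x) = x := by
  rcases x with a | ⟨a, i⟩
  · have ra : S.real (S.M.α a.1) = true := by rw [h.real_α]; exact (pp_iff.1 a.2).1
    show sα' h (em (S.M.α a.1) ra) = _
    rw [sα_em h, em_congr (S.M.αα a.1) _ (pp_iff.1 a.2).1, em_pp _ a.2]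
  · fin_cases i
    · have ra : S.real (S.M.α a.1) = true := by rw [h.real_α]; exact (gg_iff.1 a.2).1
      show sα' h (em (S.M.α a.1) ra) = _
      rw [sα_em h, em_congr (S.M.αα a.1) _ (gg_iff.1 a.2).1, em_gg _ a.2]; rfl
    · show Sum.inr ((Be h).symm (Be h a), 1) = Sum.inr (a, 1)
      rw [Equiv.symm_apply_apply]
    · show Sum.inr (Be h ((Be h).symm a), 2) = Sum.inr (a, 2)
      rw [Equiv.apply_symm_apply]

theorem sα_ne (h : Gd S) (x : DS S) : sα' h x ≠ x := by
  rcases x with a | ⟨a, i⟩
  · intro h1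
    have ha := (pp_iff.1 a.2).1
    rw [← em_pp ha a.2, sα_em h] at h1
    exact S.M.αne _ (em_inj _ _ h1)
  · fin_cases i
    · intro h1
      have ha := (gg_iff.1 a.2).1
      have h2 : sα' h (em a.1 ha) = em a.1 ha := by rw [em_gg ha a.2]; exact h1
      rw [sα_em h] at h2
      exact S.M.αne _ (em_inj _ _ h2)
    · intro h1
      have h2 : (Sum.inr (Be h a, 2) : DS S) = Sum.inr (a, 1) := h1
      simp at h2
    · intro h1
      have h2 : (Sum.inr ((Be h).symm a, 1) : DS S) = Sum.inr (a, 2) := h1
      simp at h2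

theorem mk_B (h : Gd S) (a : {d // gg S d = true}) :
    Quotient.mk S.sc (Be h a).1 = Quotient.mk S.sc a.1 :=
  h.cl_B cl_mk (gg_iff.1 a.2).1

theorem sv_φ (h : Gd S) (x : DS S) : sv (sφ' h x) = sv (sα' h x) := by
  rcases x with a | ⟨a, i⟩
  · have ra : S.real (S.M.α a.1) = true := by rw [h.real_α]; exact (pp_iff.1 a.2).1
    show Sum.inl (S.M.v (S.B a.1)) = sv (em (S.M.α a.1) ra)
    rw [sv_em, v_B]
  · fin_cases i
    · have ra : S.real (S.M.α a.1) = true := by rw [h.real_α]; exact (gg_iff.1 a.2).1
      show Sum.inl (S.M.v (S.M.α a.1)) = sv (em (S.M.α a.1) ra)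
      rw [sv_em]
    · show (Sum.inr (Quotient.mk S.sc a.1) : VS S) = Sum.inr (Quotient.mk S.sc (Be h a).1)
      rw [mk_B h]
    · show (Sum.inl (S.M.v a.1) : VS S) = Sum.inl (S.M.v (S.M.α ((Be h).symm a).1))
      have h1 : S.B ((Be h).symm a).1 = a.1 := by
        have := (Be h).apply_symm_apply a
        exact congrArg Subtype.val this
      have h2 := v_B (S := S) ((Be h).symm a).1
      rw [h1] at h2
      rw [h2]

theorem star_conn (h : Gd S) (f : DS S → ℝ) (hφ : ∀ x, f (sφ' h x) = f x)
    (hα : ∀ x, f (sα' h x) = f x) (x y : DS S) : f x = f y := by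
  classical
  let k : D → ℝ := fun a => if ha : S.real a = true then f (em a ha) else 0
  have hk : ∀ a (ha : S.real a = true), k a = f (em a ha) := fun a ha => by
    simp only [k, dif_pos ha]
  have kα : ∀ a, S.real a = true → k (S.M.α a) = k a := by
    intro a ha
    rw [hk a ha, hk _ (by rw [h.real_α, ha]), ← sα_em h ha, hα]
  have kB : ∀ a, S.real a = true → k (S.B a) = k a := by
    intro a ha
    rw [hk a ha, hk _ (h.real_B ha)]
    rcases pg ha with hp | hg
    · rw [em_pp ha hp, em_pp _ (h.pp_B hp)]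
      exact hφ (Sum.inl ⟨a, hp⟩)
    · have hgB : gg S (S.B a) = true := h.gg_B hg
      rw [em_gg _ hgB, em_gg ha hg]
      have e1 := hφ (Sum.inr (⟨a, hg⟩, 0))
      have e2 := hα (Sum.inr (⟨a, hg⟩, 1))
      have e3 := hφ (Sum.inr (⟨S.B a, hgB⟩, 2))
      have e1' : f (Sum.inr (⟨a, hg⟩, 1)) = f (Sum.inr (⟨a, hg⟩, 0)) := e1
      have e2' : f (Sum.inr (⟨S.B a, hgB⟩, 2)) = f (Sum.inr (⟨a, hg⟩, 1)) := e2
      have e3' : f (Sum.inr (⟨S.B a, hgB⟩, 0)) = f (Sum.inr (⟨S.B a, hgB⟩, 2)) := e3
      rw [e3', e2', e1']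
  have kn : ∀ a, S.real a = true → k (S.nx a) = k a := by
    intro a ha
    have := kB (S.M.α a) (by rw [h.real_α, ha])
    unfold B at this
    rw [S.M.αα] at this
    rw [this, kα a ha]
  obtain ⟨a, ha, hx⟩ := ex_em h x
  obtain ⟨b, hb, hy⟩ := ex_em h y
  have hxa : f x = f (em a ha) := by
    rcases hx with rfl | rfl | rfl
    · rfl
    · exact hφ _
    · rw [hφ, hφ]
  have hyb : f y = f (em b hb) := by
    rcases hy with rfl | rfl | rfl
    · rfl
    · exact hφ _
    · rw [hφ, hφ]
  rw [hxa, hyb, ← hk a ha, ← hk b hb]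
  exact h.kcon k kα kn ha hb

theorem star_euler (h : Gd S) :
    Fintype.card (DS S) + 12 = 6 * (Finset.univ.image (sv (S := S))).card := by
  classical
  have hr := h.real_α
  let _ : Fintype (Quotient S.sc) := Fintype.ofFinite _
  let P : Finset D := Finset.univ.filter fun d => pp S d = true
  let G : Finset D := Finset.univ.filter fun d => gg S d = true
  let QP : Finset (Quotient S.sc) := P.image fun d => Quotient.mk S.sc d
  let QG : Finset (Quotient S.sc) := G.image fun d => Quotient.mk S.sc d
  have c1 : Fintype.card (DS S) = P.card + 3 * G.card := by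
    have e1 : Fintype.card {d // pp S d = true} = P.card :=
      Fintype.card_of_subtype P (fun x => by simp [P])
    have e2 : Fintype.card {d // gg S d = true} = G.card :=
      Fintype.card_of_subtype G (fun x => by simp [G])
    rw [Fintype.card_sum, Fintype.card_prod, Fintype.card_fin, e1, e2]; ring
  have c2 : (Finset.univ.filter fun d => S.real d = true).card = P.card + G.card := by
    rw [← Finset.card_union_of_disjoint]
    · congr 1
      ext d
      simp only [P, G, Finset.mem_filter, Finset.mem_univ, true_and, Finset.mem_union]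
      constructor
      · intro hd; exact pg hd
      · rintro (hp | hp)
        · exact (pp_iff.1 hp).1
        · exact (gg_iff.1 hp).1
    · rw [Finset.disjoint_left]
      intro d h1 h2
      simp only [P, G, Finset.mem_filter, Finset.mem_univ, true_and] at h1 h2
      exact not_pg h1 h2
  have c3 : P.card = 3 * QP.card := by
    rw [Finset.card_eq_sum_card_fiberwise (f := fun d => Quotient.mk S.sc d) (t := QP)
      (fun d hd => Finset.mem_coe.2 (Finset.mem_image_of_mem _ hd)),
      Finset.sum_const_nat (m := 3), mul_comm]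
    intro q hq
    obtain ⟨a, ha, rfl⟩ := Finset.mem_image.1 hq
    have ha' : pp S a = true := by simpa [P] using ha
    obtain ⟨h1, h2⟩ := pp_iff.1 ha'
    have h3 := plf_iff.1 h2
    rw [← h3, csz_eq]
    congr 1
    ext d
    simp only [P, Finset.mem_filter, Finset.mem_univ, true_and, mem_rds]
    constructor
    · rintro ⟨h4, h5⟩
      exact ⟨(pp_iff.1 h4).1, S.sc.iseqv.symm (Quotient.exact h5)⟩
    · rintro ⟨h4, h5⟩
      exact ⟨pp_iff.2 ⟨h4, by rw [← plf_congr h5]; exact h2⟩,
        Quotient.sound (S.sc.iseqv.symm h5)⟩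
  have c4 : Fintype.card (Quotient S.sc) = QP.card + QG.card := by
    rw [← Finset.card_union_of_disjoint, ← Finset.card_univ]
    · congr 1
      ext q
      simp only [Finset.mem_univ, true_iff, Finset.mem_union]
      induction q using Quotient.inductionOn with
      | h d =>
        obtain ⟨a, ha, ha2⟩ := h.class_real d
        rcases pg ha with hp | hp
        · left
          exact Finset.mem_image.2 ⟨a, by simp [P, hp], ha2⟩
        · right
          exact Finset.mem_image.2 ⟨a, by simp [G, hp], ha2⟩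
    · rw [Finset.disjoint_left]
      intro q h1 h2
      obtain ⟨a, ha, rfl⟩ := Finset.mem_image.1 h1
      obtain ⟨b, hb, hab⟩ := Finset.mem_image.1 h2
      have ha' : pp S a = true := by simpa [P] using ha
      have hb' : gg S b = true := by simpa [G] using hb
      have := plf_congr (Quotient.exact hab)
      rw [(pp_iff.1 ha').2, (gg_iff.1 hb').2] at this
      exact absurd this (by simp)
  have c5 : (Finset.univ.image (sv (S := S))).card = S.A.card + QG.card := by
    have : Finset.univ.image (sv (S := S)) = S.A.map ⟨Sum.inl, Sum.inl_injective⟩ ∪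
        QG.map ⟨Sum.inr, Sum.inr_injective⟩ := by
      ext x
      simp only [Finset.mem_image, Finset.mem_univ, true_and, Finset.mem_union, Finset.mem_map,
        Function.Embedding.coeFn_mk]
      constructor
      · rintro ⟨y, rfl⟩
        rcases y with a | ⟨a, i⟩
        · exact Or.inl ⟨_, h.real_A _ (pp_iff.1 a.2).1, rfl⟩
        · have ra := (gg_iff.1 a.2).1
          fin_cases i
          · exact Or.inl ⟨_, h.real_A _ ra, rfl⟩
          · exact Or.inl ⟨_, h.real_A _ (by rw [hr, ra]), rfl⟩
          · exact Or.inr ⟨_, Finset.mem_image.2 ⟨a.1, by simp [G, a.2], rfl⟩, rfl⟩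
      · rintro (⟨y, hy, rfl⟩ | ⟨q, hq, rfl⟩)
        · obtain ⟨d, rfl⟩ := h.A_im y hy
          obtain ⟨e, he1, he2⟩ := h.full d hy
          exact ⟨em e he2, by rw [sv_em, he1]⟩
        · obtain ⟨a, ha, rfl⟩ := Finset.mem_image.1 hq
          have ha' : gg S a = true := by simpa [G] using ha
          exact ⟨Sum.inr (⟨a, ha'⟩, 2), rfl⟩
    rw [this, Finset.card_union_of_disjoint, Finset.card_map, Finset.card_map]
    rw [Finset.disjoint_left]
    intro x h1 h2
    obtain ⟨y, _, rfl⟩ := Finset.mem_map.1 h1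
    obtain ⟨z, _, hz⟩ := Finset.mem_map.1 h2
    exact absurd hz (by simp)
  have c6 := h.euler
  rw [c1, c5]
  rw [c2, c4] at c6
  omega

/-- the star map -/
noncomputable def sM (h : Gd S) : TMap (DS S) (VS S) where
  φ := sφ' h
  α := sα' h
  v := sv
  φ3 := by
    rintro (a | ⟨a, i⟩)
    · show Sum.inl _ = Sum.inl a
      congr 1
      exact Subtype.ext (h.B3 (pp_iff.1 a.2).1 (plf_iff.1 (pp_iff.1 a.2).2)).1
    · show Sum.inr (a, i + 1 + 1 + 1) = Sum.inr (a, i)
      fin_cases i <;> rfl
  φne := by
    rintro (a | ⟨a, i⟩)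
    · intro h1
      have := congrArg Subtype.val (Sum.inl_injective h1)
      exact h.B_ne (pp_iff.1 a.2).1 this
    · intro h1
      have h2 : (Sum.inr (a, i + 1) : DS S) = Sum.inr (a, i) := h1
      have h3 := congrArg Prod.snd (Sum.inr_injective h2)
      fin_cases i <;> simp at h3
  αα := sα_sα h
  αne := sα_ne h
  vφ := sv_φ h
  conn := star_conn h
  euler := star_euler h

end Pool.FC7
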