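import Pool.Agent.FC7.SgE
import Pool.Agent.FC7.Star

/-! # Faces of a simple real graph with minimum degree 4

Every face has at least three real darts and no face contains all alive vertices. -/

open Finset

namespace Pool.FC7

open Pool.FC6 Pool.FC6.St

variable {D V : Type} [Fintype D] [DecidableEq V] {S : St D V}

theorem nx_self (hF : S.Full) {d : D} (hd : S.real d = true) (hA : S.M.v d ∈ S.A)
    (h : S.nx d = d) {e : D} (he : S.real e = true) (hv : S.M.v e = S.M.v d) : e = d := by
  classical
  let g : D → Bool := fun x => decide (S.M.v x = S.M.v d ∧ S.fr x = d)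
  have hg : ∀ x, g (S.M.σ x) = g x := by
    intro x
    simp only [g, S.M.vσ]
    by_cases hx : S.M.v x = S.M.v d
    · have hxA : S.M.v x ∈ S.A := by rw [hx]; exact hA
      by_cases hr : S.real x = true
      · have e1 : S.fr (S.M.σ x) = S.nx x := rfl
        rw [e1, fr_real hr]
        have : S.nx x = d ↔ x = d := by
          constructor
          · intro h1
            exact nx_inj hF hr hd hxA hA (h1.trans h.symm)
          · rintro rfl
            exact h
        simp only [this]
      · rw [fr_virt' hF hxA (by simpa using hr)]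
    · simp [hx]
  have h1 := S.M.rot' g (fun x => by
    have := hg (S.M.α (S.M.φ (S.M.φ x)))
    rw [S.M.σρ] at this
    exact this.symm) hv
  have h2 : g d = true := by simp only [g, fr_real hd]; simp
  rw [h2] at h1
  have h3 := of_decide_eq_true h1
  rw [fr_real he] at h3
  exact h3.2

/-- two real darts at a vertex of degree at least two -/
theorem exists_other {x : V} (h : 2 ≤ S.rdeg x) (d : D) :
    ∃ e, S.M.v e = x ∧ S.real e = true ∧ e ≠ d := by
  classical
  by_contra hc
  push Not at hc
  have h1 : S.rdeg x ≤ ∑ e, if e = d then 1 else 0 := by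
    unfold rdeg
    refine Finset.sum_le_sum fun e _ => ?_
    by_cases h2 : S.M.v e = x ∧ S.real e = true
    · rw [if_pos h2, if_pos (hc e h2.1 h2.2)]
    · rw [if_neg h2]; exact Nat.zero_le _
  rw [Finset.sum_ite_eq' Finset.univ d, if_pos (Finset.mem_univ _)] at h1
  omega

variable (sim : ∀ d e, S.real d = true → S.real e = true → S.M.v d = S.M.v e →
    S.M.v (S.M.α d) = S.M.v (S.M.α e) → d = e) (h4 : ∀ x ∈ S.A, 4 ≤ S.rdeg x)

include sim h4

theorem csz_ge3 (h : Gd S) {a : D} (ha : S.real a = true) : 3 ≤ S.csz a := by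
  classical
  have r1 := h.real_B ha
  have r2 := h.real_B r1
  have n1 := h.B_ne ha
  have n2 := h.B_ne r1
  have ra : S.real (S.M.α a) = true := by rw [h.real_α, ha]
  have n3 : S.B (S.B a) ≠ a := by
    intro h5
    have e1 : S.M.v (S.M.α (S.B a)) = S.M.v a := by rw [← v_B, h5]
    have e2 : S.M.v (S.B a) = S.M.v (S.M.α a) := v_B a
    have e3 : S.M.α (S.B a) = a := sim _ _ (by rw [h.real_α, r1]) ha e1 (by rw [S.M.αα]; exact e2)
    have e4 : S.B a = S.M.α a := by
      have := congrArg S.M.α e3
      rwa [S.M.αα] at this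
    have e5 : S.nx (S.M.α a) = S.M.α a := e4
    have hA := h.real_A _ ra
    obtain ⟨e, k1, k2, k3⟩ := exists_other (by have := h4 _ hA; omega :
      2 ≤ S.rdeg (S.M.v (S.M.α a))) (S.M.α a)
    exact k3 (nx_self h.full ra hA e5 k2 k1)
  have hsub : ({a, S.B a, S.B (S.B a)} : Finset D) ⊆ rds S a := by
    intro x hx
    rw [Finset.mem_insert, Finset.mem_insert, Finset.mem_singleton] at hx
    rw [mem_rds]
    rcases hx with rfl | rfl | rfl
    · exact ⟨ha, S.sc.iseqv.refl _⟩
    · exact ⟨r1, h.B_sc ha⟩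
    · exact ⟨r2, S.sc.iseqv.trans (h.B_sc ha) (h.B_sc r1)⟩
  have := Finset.card_le_card hsub
  rw [← csz_eq, Finset.card_eq_three.2 ⟨a, S.B a, S.B (S.B a), n1.symm, n3.symm, n2.symm, rfl⟩]
    at this
  exact this

/-- no face contains all alive vertices -/
theorem not_all (h : Gd S) (d0 : D) :
    ∃ x ∈ S.A, ∀ d, S.M.v d = x → ¬ S.sc.r d0 d := by
  classical
  by_contra hc
  push Not at hc
  let _ : Fintype (Quotient S.sc) := Fintype.ofFinite _
  have E := h.euler
  have s1 := h.sum_inv (fun _ => True)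
  have hF := h.full
  set R := (Finset.univ.filter fun d => S.real d = true).card with hR
  -- all alive vertices are on the face
  have hk : S.A.card ≤ S.csz d0 := by
    rw [csz_eq]
    have : Nonempty D := ⟨d0⟩
    choose! f hf1 hf2 using hc
    refine Finset.card_le_card_of_injOn (fun x => S.fr (f x)) (fun x hx => ?_) ?_
    · rw [Finset.mem_coe, mem_rds]
      have hA : S.M.v (f x) ∈ S.A := by rw [hf1 x hx]; exact hx
      exact ⟨real_fr hF hA, fun t ht => by
        rw [hf2 x hx t ht]; exact (cl_fr hF ht hA).symm⟩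
    · intro x hx y hy hxy
      have hA : S.M.v (f x) ∈ S.A := by rw [hf1 x hx]; exact hx
      have hA' : S.M.v (f y) ∈ S.A := by rw [hf1 y hy]; exact hy
      have e1 : S.M.v (S.fr (f x)) = x := by rw [v_fr, hf1 x hx]
      have e2 : S.M.v (S.fr (f y)) = y := by rw [v_fr, hf1 y hy]
      exact e1.symm.trans ((congrArg S.M.v hxy).trans e2)
  have hApos : 0 < S.A.card := Finset.card_pos.2 h.ne
  have hkpos : (0 : ℝ) < S.csz d0 := by
    have : 0 < S.csz d0 := lt_of_lt_of_le hApos hk
    exact_mod_cast this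
  -- the sum of the inverses
  have s2 : ∑ d, (if S.real d = true ∧ True then (1 : ℝ) / S.csz d else 0) ≤
      ∑ d, ((if S.real d = true then (1 : ℝ) / 3 else 0) +
        if S.real d = true ∧ S.sc.r d0 d then (1 : ℝ) / S.csz d0 - 1 / 3 else 0) := by
    refine Finset.sum_le_sum fun d _ => ?_
    by_cases hd : S.real d = true
    · by_cases hs : S.sc.r d0 d
      · have : S.csz d = S.csz d0 := by
          rw [csz_card, csz_card, (Quotient.sound hs : Quotient.mk S.sc d0 = Quotient.mk S.sc d)]
        rw [if_pos ⟨hd, trivial⟩, if_pos hd, if_pos ⟨hd, hs⟩, this]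
        linarith
      · rw [if_pos ⟨hd, trivial⟩, if_pos hd, if_neg (fun hh => hs hh.2), add_zero]
        have h3 : (3 : ℝ) ≤ S.csz d := by exact_mod_cast csz_ge3 sim h4 h hd
        exact one_div_le_one_div_of_le (by norm_num) h3
    · rw [if_neg (fun hh => hd hh.1), if_neg hd, if_neg (fun hh => hd hh.1), add_zero]
  have s3 : ∑ d, ((if S.real d = true then (1 : ℝ) / 3 else 0) +
        if S.real d = true ∧ S.sc.r d0 d then (1 : ℝ) / S.csz d0 - 1 / 3 else 0) =
        (R : ℝ) / 3 + (S.csz d0 : ℝ) * (1 / S.csz d0 - 1 / 3) := by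
    rw [Finset.sum_add_distrib]
    congr 1
    · rw [← Finset.sum_filter, Finset.sum_const, nsmul_eq_mul, ← hR]; ring
    · rw [← Finset.sum_filter, Finset.sum_const, nsmul_eq_mul]
      congr 1
      rw [csz_eq]
      rfl
  have s4 : (S.csz d0 : ℝ) * (1 / S.csz d0 - 1 / 3) = 1 - S.csz d0 / 3 := by
    field_simp
  have hRA : 4 * S.A.card ≤ R := by
    have e1 : ∑ x ∈ S.A, S.rdeg x = R := by
      rw [sum_rdeg, hR]
      congr 1
      ext d
      simp only [Finset.mem_filter, Finset.mem_univ, true_and]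
      exact ⟨fun hh => hh.1, fun hh => ⟨hh, h.real_A d hh⟩⟩
    rw [← e1]
    calc 4 * S.A.card = ∑ x ∈ S.A, 4 := by rw [Finset.sum_const, smul_eq_mul, mul_comm]
      _ ≤ _ := Finset.sum_le_sum h4
  have E' : (2 : ℝ) * S.A.card + 2 * (Fintype.card (Quotient S.sc) : ℝ) = (R : ℝ) + 4 := by
    exact_mod_cast E
  have hRA' : (4 : ℝ) * S.A.card ≤ R := by exact_mod_cast hRA
  have hk' : (S.A.card : ℝ) ≤ S.csz d0 := by exact_mod_cast hk
  have s6 : (Fintype.card (Quotient S.sc) : ℝ) ≤ (R : ℝ) / 3 + (1 - S.csz d0 / 3) := by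
    have k1 := s2.trans (le_of_eq s3)
    have k2 : (Fintype.card (Quotient S.sc) : ℝ) =
        ∑ d, (if S.real d = true then (1 : ℝ) / S.csz d else 0) := by simpa using s1.symm
    have k3 : ∑ d, (if S.real d = true ∧ True then (1 : ℝ) / S.csz d else 0) =
        ∑ d, (if S.real d = true then (1 : ℝ) / S.csz d else 0) := by simp
    rw [k3, ← k2, s4] at k1
    exact k1
  linarith

end Pool.FC7
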