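import Pool.Agent.FC7.MM
import Pool.Agent.FC6.Words

/-! # Star forms: the state without units

All statements about the darts of a star form which do not mention the units hold by FC6 applied to
the state without units. -/

open Finset

set_option linter.unusedSectionVars false

namespace Pool.FC7

open Pool.FC6 Pool.FC6.St

variable {D V : Type} [Fintype D] [DecidableEq V]

/-- the state without units -/
def nou (S : St D V) : St D V := { S with u := fun _ => 0 }

variable {Δ : ℕ} {S : St D V} {L : D → Bool} {w : D → ℕ}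

theorem nou_M : (nou S).M = S.M := rfl

theorem nou_A : (nou S).A = S.A := rfl

theorem nou_real (d : D) : (nou S).real d = S.real d := rfl

theorem nou_sc : (nou S).sc = S.sc := rfl

theorem nou_csz (d : D) : (nou S).csz d = S.csz d := rfl

theorem nou_rc (s : V → Bool) : (nou S).rc s = S.rc s := rfl

theorem nou_rdeg (x : V) : (nou S).rdeg x = S.rdeg x := rfl

theorem nou_nxr : (nou S).nxr = S.nxr := rfl

theorem nou_nd (d : D) : (nou S).nd d = S.nd d := rfl

theorem nou_ps (i : ℕ) : ∀ d : D, (nou S).ps d i = S.ps d i := by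
  induction i with
  | zero => intro d; rfl
  | succ i ih =>
    intro d
    rw [St.ps_succ, St.ps_succ, ih]
    rfl

theorem IsStar.nou (h : IsStar S) : St.IsStar (nou S) :=
  ⟨h.two, h.one, h.dead, fun _ hd => absurd rfl hd⟩

theorem Wf.nou (h : Wf Δ S L w) : (nou S).Wf Δ where
  real_α := h.real_α
  real_A := h.real_A
  real_ne := h.real_ne
  A_im := h.A_im
  u_A _ hd := absurd rfl hd
  u_f _ _ _ _ := rfl
  deg x hx := by
    refine le_trans (Finset.sum_le_sum fun d _ => ?_) (h.deg x hx)
    show (if S.M.v d = x then (if S.real d = true then 1 else 0) + 0 else 0) ≤ _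
    split_ifs <;> omega

section star

variable (hS : IsStar S) (W : Wf Δ S L w)

include hS W

/-- a virtual edge has a dead end -/
theorem IsStar.dend {r : D} (h : S.real r = false) :
    S.M.v r ∉ S.A ∨ S.M.v (S.M.α r) ∉ S.A := St.IsStar.virt hS.nou W.nou h

theorem IsStar.real_of {r : D} (h : S.M.v r ∈ S.A) (h' : S.M.v (S.M.α r) ∈ S.A) :
    S.real r = true := St.IsStar.real_of hS.nou W.nou h h'

/-- a virtual dart at an alive vertex leads to a dead vertex -/
theorem IsStar.vhead {r : D} (h : S.M.v r ∈ S.A) (hr : S.real r = false) :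
    S.M.v (S.M.α r) ∉ S.A := St.IsStar.vhead hS.nou W.nou h hr

theorem IsStar.loop {r : D} (h : S.M.v r ∈ S.A) : S.M.v (S.M.α r) ≠ S.M.v r :=
  St.IsStar.loop hS.nou W.nou h

theorem IsStar.φdead {e : D} (hv : S.M.v e ∉ S.A) :
    S.real e = false ∧ S.real (S.M.φ e) = true ∧ S.real (S.M.φ (S.M.φ e)) = false :=
  St.IsStar.φdead hS.nou W.nou hv

theorem IsStar.real2 {d : D} (hd : S.real d = true) (h : S.real (S.M.σ d) = false) :
    S.real (S.M.σ (S.M.σ d)) = true := St.IsStar.real2 hS.nou W.nou hd h

/-- the darts before and after a virtual dart at an alive vertex are real -/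
theorem IsStar.σvirt {e : D} (he : S.real e = false) (hx : S.M.v e ∈ S.A) :
    S.real (S.M.σ e) = true ∧ S.real (S.M.α (S.M.φ (S.M.φ e))) = true :=
  St.IsStar.σvirt hS.nou W.nou he hx

/-- a virtual dart at a dead vertex leads to an alive vertex -/
theorem IsStar.alivev {e : D} (hv : S.M.v e ∉ S.A) : S.M.v (S.M.α e) ∈ S.A := by
  have h1 := (hS.φdead W hv).2.1
  have := W.real_A _ h1
  rwa [S.M.vφ] at this

/-- the number of real darts of the face of a dead centre is the number of darts at the centre -/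
theorem IsStar.csz_star {g : D} (hg : S.M.v g ∉ S.A) : S.csz g = S.nd g :=
  St.csz_star hS.nou W.nou hg

/-- the face of a dead centre -/
theorem IsStar.sc_star {g : D} (hg : S.M.v g ∉ S.A) (r : D) :
    S.sc.r g r ↔ (S.M.v r = S.M.v g ∨ S.M.v (S.M.φ r) = S.M.v g ∨
      S.M.v (S.M.φ (S.M.φ r)) = S.M.v g) := St.sc_star hS.nou W.nou hg r

theorem IsStar.csz_virt {e : D} (he : S.real e = false) (hx : S.M.v e ∈ S.A) :
    S.csz e = S.nd (S.M.α e) := St.csz_virt hS.nou W.nou he hx

theorem IsStar.csz_iter {e : D} (he : S.real e = false) (hx : S.M.v e ∈ S.A) :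
    S.M.σ^[S.csz e] (S.M.α e) = S.M.α e := St.csz_iter hS.nou W.nou he hx

theorem IsStar.csz_iter_ne {e : D} (he : S.real e = false) (hx : S.M.v e ∈ S.A) {j : ℕ}
    (h0 : 0 < j) (h : j < S.csz e) : S.M.σ^[j] (S.M.α e) ≠ S.M.α e :=
  St.csz_iter_ne hS.nou W.nou he hx h0 h

theorem IsStar.nxr_real {d : D} (hd : S.real d = true) : S.real (S.nxr d) = true :=
  St.nxr_real hS.nou W.nou hd

theorem IsStar.nxr_iter_real {d : D} (hd : S.real d = true) (i : ℕ) :
    S.real (S.nxr^[i] d) = true := St.nxr_iter_real hS.nou W.nou i hd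

theorem IsStar.nxr_rdeg {d : D} (hd : S.real d = true) :
    S.nxr^[S.rdeg (S.M.v d)] d = d := St.nxr_rdeg hS.nou W.nou hd

theorem IsStar.nxr_ne {d : D} (hd : S.real d = true) {j : ℕ} (h0 : 0 < j)
    (h : j < S.rdeg (S.M.v d)) : S.nxr^[j] d ≠ d := St.nxr_ne hS.nou W.nou hd h0 h

theorem IsStar.nxr_surj {d e : D} (hd : S.real d = true) (he : S.real e = true)
    (hv : S.M.v e = S.M.v d) : ∃ i < S.rdeg (S.M.v d), S.nxr^[i] d = e :=
  St.nxr_surj hS.nou W.nou hd he hv

theorem IsStar.ps_rdeg {d : D} (hd : S.real d = true) :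
    S.ps d (S.rdeg (S.M.v d)) = S.nd d := by
  rw [← nou_ps]
  exact St.ps_rdeg hS.nou W.nou hd

/-- a face with exactly three real darts is a solid triangle -/
theorem IsStar.csz_ne3 {e : D} (he : S.real e = false) : S.csz e ≠ 3 := by
  intro h3
  -- some dart of the cell is real and followed by a virtual dart
  have key : ∀ r, S.real r = true → S.real (S.M.φ r) = false → S.csz r = 3 → False := by
    intro r h1 h2 h3
    have := (hS.pl3 r h1).2 h3
    rw [h2] at this
    exact absurd this (by decide)
  have c1 : ∀ d, S.csz (S.M.φ d) = S.csz d := fun d => csz_φ (S := S) d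
  rcases hS.one e with h1 | h1 | h1
  · rw [he] at h1; exact absurd h1 (by decide)
  · by_cases h2 : S.real (S.M.φ (S.M.φ e)) = true
    · have := hS.two _ h1 h2
      rw [S.M.φ3, he] at this
      exact absurd this (by decide)
    · exact key _ h1 (by simpa using h2) (by rw [c1]; exact h3)
  · exact key _ h1 (by rw [S.M.φ3]; exact he) (by rw [c1, c1]; exact h3)

end star

end Pool.FC7
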