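import Pool.Agent.FC6.Near
import Pool.Agent.FC7.SgC
import Pool.Agent.FC7.NrA
import Pool.Agent.FC7.CvA

/-! # Closed curves of length at most three, maximum degree 6

`N2`: two darts at a vertex have different heads; a closed curve of length three with an empty side
is the boundary of a sector. -/

open Finset

set_option linter.unusedSectionVars false

namespace Pool.FC7

open Pool.FC6 Pool.FC6.St

variable {D V : Type} [Fintype D] [DecidableEq V] {S : St D V} {L : D → Bool} {w : D → ℕ} {Δ : ℕ}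

/-- one side of a short curve is empty -/
theorem Rg.one_side (h : Rg S) (W : Wf Δ S L w) {n : ℕ} [NeZero n] {c : Fin n → D}
    (hc : S.M.Curve c) {s : D → Bool} (hs : S.M.SideOf c s) (ho : S.out c ≤ 7) :
    (∀ z, S.M.v z ∈ S.A → S.Off c z → s z = false) ∨
      (∀ z, S.M.v z ∈ S.A → S.Off c z → s z = true) := by
  by_contra hn
  push Not at hn
  obtain ⟨⟨z1, a1, a2, a3⟩, ⟨z2, b1, b2, b3⟩⟩ := hn
  have a3' : s z1 = true := by simpa using a3
  have b3' : s z2 = false := by simpa using b3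
  have h1 : 4 ≤ S.rc (S.sd c s true) := h.cut4 _ ⟨_, a1, (sd_off hc hs a2).2 a3'⟩ ⟨_, b1, by
    cases h2 : S.sd c s true (S.M.v z2)
    · rfl
    · rw [(sd_off hc hs b2).1 h2] at b3'
      exact absurd b3' (by decide)⟩
  have h2 : 4 ≤ S.rc (S.sd c s false) := h.cut4 _ ⟨_, b1, (sd_off hc hs b2).2 b3'⟩ ⟨_, a1, by
    cases h2 : S.sd c s false (S.M.v z1)
    · rfl
    · rw [(sd_off hc hs a2).1 h2] at a3'
      exact absurd a3' (by decide)⟩
  have h3 : S.rc (S.sd c s true) + S.rc (S.sd c s false) ≤ S.out c :=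
    rc_sd_add (S := nou S) W.nou hc hs
  omega

theorem rdeg_le (W : Wf Δ S L w) (x : V) : S.rdeg x ≤ Δ := St.rdeg_le' (S := nou S) W.nou x

theorem rdeg_dead (W : Wf Δ S L w) {x : V} (hx : x ∉ S.A) : S.rdeg x = 0 :=
  St.rdeg_dead (S := nou S) W.nou hx

/-- no face passes twice through a vertex -/
theorem Rg.n2_virt (h : Rg S) (hS : IsStar S) (W : Wf Δ S L w) (hΔ : Δ ≤ 7) {d d' : D}
    (hd : S.real d = false) (hd' : S.real d' = false) (hx : S.M.v d ∈ S.A)
    (hv : S.M.v d = S.M.v d') (hh : S.M.v (S.M.α d) = S.M.v (S.M.α d')) : d = d' := by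
  by_contra hne
  have hl : S.M.v (S.M.α d) ≠ S.M.v d := hS.loop W hx
  have hz := hS.vhead W hx hd
  obtain ⟨s, hs, hT⟩ := exists_tw (S := nou S) hne hv hh hl
  have hc : S.M.Curve ![d, S.M.α d'] := curve2 (S := nou S) hne hv hh hl
  have ho : S.out ![d, S.M.α d'] ≤ 7 := by
    have h1 : S.out ![d, S.M.α d'] + ∑ i : Fin 2, (if S.real (![d, S.M.α d'] i) = true then 2 else 0)
        ≤ ∑ i : Fin 2, S.rdeg (S.M.v (![d, S.M.α d'] i)) := out_le (S := nou S) W.nou hc
    have h3 : ∑ i : Fin 2, S.rdeg (S.M.v (![d, S.M.α d'] i)) ≤ 7 := by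
      rw [Fin.sum_univ_two]
      have a1 := rdeg_le W (S.M.v d)
      have a2 : S.rdeg (S.M.v (S.M.α d')) = 0 := rdeg_dead W (by rw [← hh]; exact hz)
      show S.rdeg (S.M.v d) + S.rdeg (S.M.v (S.M.α d')) ≤ 7
      omega
    omega
  have hoff : ∀ z, S.M.v z ∈ S.A → S.M.v z ≠ S.M.v d → S.Off ![d, S.M.α d'] z := by
    intro z h0 h1 i
    fin_cases i
    · exact h1
    · show S.M.v z ≠ S.M.v (S.M.α d')
      rw [← hh]
      intro h2
      rw [h2] at h0
      exact hz h0
  -- a real dart on the side `b`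
  have hreal : ∀ g : D, ∃ r, S.real r = true ∧ s r = s g := by
    intro g
    rcases hS.one g with h1 | h1 | h1
    · exact ⟨g, h1, rfl⟩
    · exact ⟨_, h1, hs.φ g⟩
    · exact ⟨_, h1, (hs.φ _).trans (hs.φ g)⟩
  have hcon : ∀ b : Bool, (∃ g, s g = b) → ¬ (∀ z, S.M.v z ∈ S.A → S.Off ![d, S.M.α d'] z →
      s z = !b) := by
    rintro b ⟨g, hg⟩ hall
    obtain ⟨r, hr1, hr2⟩ := hreal g
    rw [hg] at hr2
    have q0 : ∀ q : D, S.real q = false → r ≠ q := fun q hq h0 => by
      rw [h0, hq] at hr1; exact absurd hr1 (by decide)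
    have hr3 : s (S.M.α r) = b := (hT.o r (q0 _ hd) (q0 _ (by
      show S.real (S.M.α d) = false
      rw [h.real_α]; exact hd)) (q0 _ hd') (q0 _ (by
      show S.real (S.M.α d') = false
      rw [h.real_α]; exact hd'))).trans hr2
    have w1 : S.M.v r = S.M.v d := by
      by_contra hn
      have := hall r (h.real_A r hr1) (hoff r (h.real_A r hr1) hn)
      rw [hr2] at this
      cases b <;> exact absurd this (by decide)
    have hra : S.M.v (S.M.α r) ∈ S.A := h.real_A _ (by rw [h.real_α]; exact hr1)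
    have w2 : S.M.v (S.M.α r) = S.M.v d := by
      by_contra hn
      have := hall _ hra (hoff _ hra hn)
      rw [hr3] at this
      cases b <;> exact absurd this (by decide)
    exact h.real_ne r hr1 (w1.trans w2.symm)
  rcases h.one_side W hc hs ho with h1 | h1
  · exact hcon true ⟨d, hT.a⟩ h1
  · exact hcon false ⟨S.M.α d, hT.b⟩ h1

/-- two darts at an alive vertex with the same head are equal -/
theorem Rg.n2 (h : Rg S) (hS : IsStar S) (W : Wf Δ S L w) (hΔ : Δ ≤ 7) : ∀ x ∈ S.A, S.N2 x := by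
  intro x hx d d' hd hd' hh
  subst hd
  have hx' : S.M.v d' ∈ S.A := by rw [hd']; exact hx
  cases h1 : S.real d
  · cases h2 : S.real d'
    · exact h.n2_virt hS W hΔ h1 h2 hx hd'.symm hh
    · exact absurd (by rw [hh]; exact h.real_A _ (by rw [h.real_α]; exact h2)) (hS.vhead W hx h1)
  · cases h2 : S.real d'
    · exact absurd (by rw [← hh]; exact h.real_A _ (by rw [h.real_α]; exact h1))
        (hS.vhead W hx' h2)
    · exact h.sim _ _ h1 h2 hd'.symm hh

/-- the statement that a closed curve of length three through the dart `d` is facial: `e`, `e'` are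
darts (real or virtual) at the ends of `d` with the same head -/
def Fc3 (S : St D V) (d : D) : Prop :=
  ∀ e e', S.M.v e = S.M.v d → S.M.v e' = S.M.v (S.M.α d) → S.M.v (S.M.α e) = S.M.v (S.M.α e') →
    (e = S.M.σ d ∧ S.M.σ e' = S.M.α d) ∨ (S.M.σ e = d ∧ e' = S.M.σ (S.M.α d))

theorem Fc3.symm {d : D} (h : Fc3 S d) : Fc3 S (S.M.α d) := by
  intro e e' he he' hh
  rw [S.M.αα] at he'
  rcases h e' e he' he hh.symm with ⟨h1, h2⟩ | ⟨h1, h2⟩
  · right
    rw [S.M.αα]
    exact ⟨h2, h1⟩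
  · left
    rw [S.M.αα]
    exact ⟨h2, h1⟩

/-- a closed curve of length three which is not facial has alive vertices on both sides -/
theorem Rg.two_sides (h : Rg S) (hS : IsStar S) (W : Wf Δ S L w) (hΔ : Δ ≤ 7) {d e e' : D}
    (hd : S.real d = true) (he : S.M.v e = S.M.v d) (he' : S.M.v e' = S.M.v (S.M.α d))
    (hw : S.M.v (S.M.α e) = S.M.v (S.M.α e'))
    (hn : ¬ ((e = S.M.σ d ∧ S.M.σ e' = S.M.α d) ∨ (S.M.σ e = d ∧ e' = S.M.σ (S.M.α d)))) :
    S.M.Curve ![d, e', S.M.α e] ∧ ∀ s : D → Bool, S.M.SideOf ![d, e', S.M.α e] s → ∀ b,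
      ∃ z, S.M.v z ∈ S.A ∧ S.Off ![d, e', S.M.α e] z ∧ s z = b := by
  have hx : S.M.v d ∈ S.A := h.real_A _ hd
  have hy : S.M.v (S.M.α d) ∈ S.A := h.real_A _ (by rw [h.real_α]; exact hd)
  have n2' : S.M.v d ≠ S.M.v (S.M.α e) := by
    have := hS.loop W (r := e) (by rw [he]; exact hx)
    rw [he] at this
    exact this.symm
  have n3 : S.M.v (S.M.α d) ≠ S.M.v (S.M.α e) := by
    have := hS.loop W (r := e') (by rw [he']; exact hy)
    rw [he', ← hw] at this
    exact this.symm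
  have hc : S.M.Curve ![d, e', S.M.α e] :=
    curve3 (S := nou S) he he' hw (h.real_ne d hd) n2' n3
  refine ⟨hc, fun s hs => ?_⟩
  have key : ¬ ((∀ z, S.M.v z ∈ S.A → S.Off ![d, e', S.M.α e] z → s z = false) ∨
      (∀ z, S.M.v z ∈ S.A → S.Off ![d, e', S.M.α e] z → s z = true)) := by
    intro hh
    have hc3 : ∀ r : D, S.real r = false → S.csz r ≤ 3 → S.M.v r ∈ S.A → False := by
      intro r hr hr3 hrA
      have h1 := hS.csz_ne3 W hr
      have h2 : 3 ≤ S.csz r := by
        have h3 := csz_ge3 h.sim (fun x hx => h.deg4 hx (W.ne x)) h.toGd (hS.σvirt W hr hrA).1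
        rwa [← csz_congr (S := S) (d := r) (fun t ht => by
          show t r = t (S.M.φ (S.M.α r))
          rw [ht.1, ht.2 r hr])] at h3
      omega
    rcases fc_one (S := nou S) hS.nou W.nou (h.n2 hS W hΔ _ hx) (h.n2 hS W hΔ _ hy) hs hd he he' hw
      hh with h1 | h1 | ⟨h1, _, h3, h4⟩ | ⟨h1, _, h3, h4⟩
    · exact hn (Or.inl h1)
    · exact hn (Or.inr h1)
    · exact hc3 _ h3 h4 (by show S.M.v (S.M.σ d) ∈ S.A; rw [S.M.vσ]; exact hx)
    · exact hc3 _ h3 h4 (by show S.M.v (S.M.σ e) ∈ S.A; rw [S.M.vσ, he]; exact hx)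
  intro b
  by_contra hno
  push Not at hno
  apply key
  cases b
  · right
    intro z h1 h2
    have := hno z h1 h2
    simpa using this
  · left
    intro z h1 h2
    have := hno z h1 h2
    simpa using this

end Pool.FC7
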