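import Pool.Agent.FC7.MwA
import Pool.Agent.FC7.DiA
import Pool.Agent.FC7.CfH

/-! # Patterns: words at a vertex and at some of its neighbours -/

open Finset

set_option linter.unusedSectionVars false

namespace Pool.FC7

open Pool.FC6 Pool.FC6.St

section defs

variable {D V : Type} [Fintype D] [DecidableEq V]

/-- a chordless closed curve of length four `v k`, `v (α k)`, a face, `v (α k')` -/
structure Cv (S : St D V) (k e e' k' : D) : Prop where
  hk : S.real k = true
  hk' : S.real k' = true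
  vk : S.M.v k' = S.M.v k
  he : S.M.v e = S.M.v (S.M.α k)
  he' : S.M.v e' = S.M.v (S.M.α k')
  re : S.real e = false
  re' : S.real e' = false
  hw : S.M.v (S.M.α e) = S.M.v (S.M.α e')
  ne : S.M.v (S.M.α k) ≠ S.M.v (S.M.α k')
  hn : ∀ r, S.real r = true → S.M.v r = S.M.v (S.M.α k) → S.M.v (S.M.α r) ≠ S.M.v (S.M.α k')
  ht : ∀ t, S.M.v t = S.M.v k → S.M.v (S.M.α t) ≠ S.M.v (S.M.α e)

/-- five darts at a vertex, two consecutive ones to vertices with four darts -/
def Sp5 (S : St D V) (z : D) : Prop :=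
  ∃ x, S.M.v x = S.M.v z ∧ S.real x = true ∧ S.real (S.M.σ x) = true ∧
    S.M.σ (S.M.σ (S.M.σ (S.M.σ (S.M.σ x)))) = x ∧ S.nd (S.M.α x) = 4 ∧
    S.nd (S.M.α (S.M.σ x)) = 4

/-- closed curves of length three through the vertices of `U` are facial; closed curves of length
four through two adjacent vertices of `U` have at most one vertex on one side; there are no chordless
closed curves of length four through a face and a vertex of `U` with at least five darts, up to one
exception -/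
structure Reg (S : St D V) (U : V → Prop) : Prop where
  A : ∀ x, U x → x ∈ S.A
  fc : ∀ d, S.real d = true → U (S.M.v d) → Fc3 S d
  f4 : F4 S U
  f1 : ∀ k e e' k', Cv S k e e' k' → (U (S.M.v k) → S.nd k ≤ 4 ∨ Sp5 S k) ∧
    (U (S.M.v (S.M.α k)) → S.nd (S.M.α k) ≤ 4 ∨ Sp5 S (S.M.α k))

/-- the word `w0` at the real dart `x`, and for each pair `(i, w1)` in `nb` the word `w1` at the other
end of the `i`-th real dart after `x`, read from this edge -/
structure HasP (S : St D V) (L : D → Bool) (U : V → Prop) (w0 : List ℕ)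
    (nb : List (ℕ × List ℕ)) (x : D) : Prop where
  cU : U (S.M.v x)
  w : IsW S L x w0
  nU : ∀ p ∈ nb, U (S.M.v (S.M.α (S.nxr^[p.1] x)))
  nw : ∀ p ∈ nb, IsW S L (S.M.α (S.nxr^[p.1] x)) p.2

end defs

/-- the pattern does not occur in minimal counterexamples -/
def NoP (Δ : ℕ) (w0 : List ℕ) (nb : List (ℕ × List ℕ)) : Prop :=
  ∀ (D V : Type) [Fintype D] [DecidableEq V] (S : St D V) (L : D → Bool) (w : D → ℕ)
    (U : V → Prop), MC Δ S L w → IsStar S → Reg S U → ∀ x, ¬ HasP S L U w0 nb x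

variable {D V : Type} [Fintype D] [DecidableEq V] {Δ : ℕ} {S : St D V} {L : D → Bool}
  {w : D → ℕ} {U : V → Prop}

/-! ### The mirror image -/

theorem mr_mu (h : Wf Δ S L w) (hS : IsStar S) : mu Δ (mir S) L = mu Δ S L := by
  have h1 : nr (mir S) = nr S := rfl
  have h2 : (mir S).A = S.A := rfl
  unfold mu
  rw [mr_n4 h.real_α, mr_rq hS h, h1, h2]

theorem MC.mir (hΔ : Δ ≤ 6) (hS : IsStar S) (h : MC Δ S L w) : MC Δ (mir S) L w where
  w1 := h.w1
  ok := by
    refine ok_of_rc (mr_wf hS h.ok.toWf) (fun s a b => ?_) (mr_thr hS h.ok.toWf h.ok.thr)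
    rw [mr_rc h.ok.real_α]
    have := h.cut4 hΔ a b
    omega
  no := fun ⟨c, hc⟩ => h.no ⟨c, mr_sol hS h.ok.toWf hc⟩
  min D' V' _ _ S' L' w' h1 h2 h3 := h.min D' V' S' L' w' h1 h2 (by
    rwa [mr_mu h.ok.toWf hS] at h3)

/-- a closed curve of length four in the mirror image -/
theorem Cv.mir {k e e' k' : D} (hra : ∀ d, S.real (S.M.α d) = S.real d)
    (h : Cv (FC7.mir S) k e e' k') :
    Cv S (S.M.α k) (S.M.α e) (S.M.α e') (S.M.α k') where
  hk := by rw [hra]; exact h.hk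
  hk' := by rw [hra]; exact h.hk'
  vk := h.vk
  he := h.he
  he' := h.he'
  re := by rw [hra]; exact h.re
  re' := by rw [hra]; exact h.re'
  hw := h.hw
  ne := h.ne
  hn r h1 h2 h3 := h.hn (S.M.α r) (by show S.real (S.M.α r) = true; rw [hra]; exact h1)
    (by show S.M.v (S.M.α (S.M.α r)) = _; rw [S.M.αα]; exact h2)
    (by show S.M.v (S.M.α (S.M.α (S.M.α r))) = _; rw [S.M.αα]; exact h3)
  ht t h1 h2 := h.ht (S.M.α t) (by show S.M.v (S.M.α (S.M.α t)) = _; rw [S.M.αα]; exact h1)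
    (by show S.M.v (S.M.α (S.M.α (S.M.α t))) = _; rw [S.M.αα]; exact h2)

theorem Sp5.mir {z : D} (hra : ∀ d, S.real (S.M.α d) = S.real d) (h : Sp5 S (S.M.α z)) :
    Sp5 (FC7.mir S) z := by
  obtain ⟨x, h1, h2, h3, h4, h5, h6⟩ := h
  have key : ∀ y y', S.M.σ y = y' → (FC7.mir S).M.σ (S.M.α y') = S.M.α y := by
    intro y y' h0
    rw [mσ_iff, S.M.αα, S.M.αα]; exact h0
  refine ⟨S.M.α (S.M.σ x), ?_, ?_, ?_, ?_, ?_, ?_⟩
  · show S.M.v (S.M.α (S.M.α (S.M.σ x))) = S.M.v (S.M.α z)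
    rw [S.M.αα, S.M.vσ]; exact h1
  · show S.real (S.M.α (S.M.σ x)) = true
    rw [hra]; exact h3
  · rw [key x _ rfl]
    show S.real (S.M.α x) = true
    rw [hra]; exact h2
  · rw [key x _ rfl, key _ x h4, key _ _ rfl, key _ _ rfl, key _ _ rfl]
  · rw [mir_nd]
    show S.nd (S.M.α (S.M.α (S.M.α (S.M.σ x)))) = 4
    rw [S.M.αα]; exact h6
  · rw [key x _ rfl, mir_nd]
    show S.nd (S.M.α (S.M.α (S.M.α x))) = 4
    rw [S.M.αα]; exact h5

theorem Reg.mir (W : Wf Δ S L w) (h : Reg S U) : Reg (mir S) U where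
  A x hx := h.A x hx
  f4 := h.f4.mir W
  f1 k e e' k' hc := by
    obtain ⟨h1, h2⟩ := h.f1 _ _ _ _ (hc.mir W.real_α)
    refine ⟨fun h3 => ?_, fun h3 => ?_⟩
    · rcases h1 h3 with h4 | h4
      · left
        rw [mir_nd]; exact h4
      · exact Or.inr (h4.mir W.real_α)
    · rcases h2 h3 with h4 | h4
      · left
        rw [mir_nd]; exact h4
      · exact Or.inr (h4.mir W.real_α)
  fc k hk hU := by
    have h0 := h.fc (S.M.α k) (by rw [W.real_α]; exact hk) hU
    intro e e' h1 h2 h3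
    have h1' : S.M.v (S.M.α e) = S.M.v (S.M.α k) := h1
    have h2' : S.M.v (S.M.α e') = S.M.v (S.M.α (S.M.α k)) := h2
    have h3' : S.M.v (S.M.α (S.M.α e)) = S.M.v (S.M.α (S.M.α e')) := h3
    rcases h0 _ _ h1' h2' h3' with ⟨a, b⟩ | ⟨a, b⟩
    · rw [S.M.αα] at b
      right
      refine ⟨mσ_iff.2 a.symm, ?_⟩
      symm
      rw [mσ_iff]
      show S.M.σ (S.M.α e') = S.M.α (S.M.α k)
      rw [S.M.αα]; exact b
    · rw [S.M.αα] at b
      left
      refine ⟨(mσ_iff.2 a).symm, ?_⟩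
      rw [mσ_iff]
      show S.M.σ (S.M.α (S.M.α k)) = S.M.α e'
      rw [S.M.αα]; exact b.symm

/-- the mirror image of a pattern at a vertex of degree `n` -/
def mnb (n : ℕ) (nb : List (ℕ × List ℕ)) : List (ℕ × List ℕ) :=
  nb.map fun p => ((n - p.1) % n, mw p.2)

/-- the pattern is the mirror image of its mirror image -/
def mok (w0 : List ℕ) (nb : List (ℕ × List ℕ)) : Bool :=
  decide (mw (mw w0) = w0) && nb.all fun p => decide (p.1 < w0.length) && decide (mw (mw p.2) = p.2)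

/-- the pattern in the mirror image -/
theorem HasP.mir (hS : IsStar S) (W : Wf Δ S L w) {w0 : List ℕ} {nb : List (ℕ × List ℕ)} {x : D}
    (h : HasP S L U (mw w0) (mnb w0.length nb) x) (ho : mok w0 nb = true) :
    HasP (FC7.mir S) L U w0 nb (S.M.α x) := by
  unfold mok at ho
  simp only [Bool.and_eq_true, decide_eq_true_eq, List.all_eq_true] at ho
  obtain ⟨ho, hp⟩ := ho
  have hlen : w0.length = S.rdeg (S.M.v x) := by rw [← h.w.len, mw_length]
  have key : ∀ p ∈ nb, (FC7.mir S).M.α ((FC7.mir S).nxr^[p.1] (S.M.α x)) =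
      S.nxr^[(w0.length - p.1) % w0.length] x := by
    intro p hp'
    have h1 := (hp p hp').1
    show S.M.α ((FC7.mir S).nxr^[p.1] (S.M.α x)) = _
    rw [mnxr_rot hS W h.w.re (by omega), S.M.αα, ← hlen]
    rcases Nat.eq_zero_or_pos p.1 with h0 | h0
    · rw [h0, Nat.sub_zero, Nat.mod_self, hlen]
      exact hS.nxr_rdeg W h.w.re
    · rw [Nat.mod_eq_of_lt (by omega)]
  refine ⟨?_, ?_, fun p hp' => ?_, fun p hp' => ?_⟩
  · show U (S.M.v (S.M.α (S.M.α x)))
    rw [S.M.αα]; exact h.cU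
  · have := h.w.mir hS W fun i hi => mw_11 hi
    rwa [ho] at this
  · rw [key p hp']
    exact h.nU ((w0.length - p.1) % w0.length, mw p.2) (List.mem_map_of_mem hp')
  · rw [key p hp']
    have h1 := h.nw ((w0.length - p.1) % w0.length, mw p.2) (List.mem_map_of_mem hp')
    have h2 := h1.mir hS W fun i hi => mw_11 hi
    rw [S.M.αα] at h2
    have h3 : mw (mw p.2) = p.2 := (hp p hp').2
    rw [show mw (((w0.length - p.1) % w0.length, mw p.2).2) = p.2 from h3] at h2
    exact h2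

theorem NoP.mir (hΔ : Δ ≤ 6) {w0 : List ℕ} {nb : List (ℕ × List ℕ)} (h : NoP Δ w0 nb)
    (ho : mok w0 nb = true) : NoP Δ (mw w0) (mnb w0.length nb) := by
  intro D V _ _ S L w U hM hS hR x hP
  exact h D V (FC7.mir S) L w U (hM.mir hΔ hS) (hS.mir hM.ok.toWf) (hR.mir hM.ok.toWf) _
    (hP.mir hS hM.ok.toWf ho)

end Pool.FC7
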