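import Pool.Agent.FC7.DnA
import Pool.Agent.FC7.FtA

/-! # Closed curves of length four through one vertex of the region: the three regions -/

open Finset

set_option linter.unusedSectionVars false

namespace Pool.FC7

open Pool.FC6 Pool.FC6.St

variable {D V : Type} [Fintype D] [DecidableEq V] {S : St D V} {L : D → Bool} {w : D → ℕ} {Δ : ℕ}

section

variable {k e e' k' : D} {s : D → Bool}

/-- a vertex inside adjacent to `v k` and to the face `v (α e)`: the half with `v (α k)` -/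
theorem IsF.hub_a (hF : IsF S k e e' k' s) (hr : S.real e = false) (h : Rg S) (hS : IsStar S)
    (W : Wf Δ S L w) (hΔ : Δ ≤ 7) (h2 : TwoF S k e e' k' s)
    (hfc : ∀ z, S.real z = true → S.M.v z ∈ inq S k e e' k' s → Fc3 S z)
    (hmin : MinF S k e e' k' s) {t g : D} (hz : S.M.v t ∈ inq S k e e' k' s)
    (hv : S.M.v g = S.M.v t) (h3 : S.M.v (S.M.α t) = S.M.v k)
    (h4 : S.M.v (S.M.α g) = S.M.v (S.M.α e)) :
    ∃ r, S.M.σ g = r ∧ S.M.σ r = t := by
  have hs := hF.hs
  have hmA : S.M.v k ∈ S.A := h.real_A _ hF.hk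
  have hyA : S.M.v (S.M.α k) ∈ S.A := h.real_A _ (by rw [h.real_α]; exact hF.hk)
  have hvA : S.M.v (S.M.α k') ∈ S.A := h.real_A _ (by rw [h.real_α]; exact hF.hk')
  have hh : S.M.v (S.M.α e) ∉ S.A := hS.vhead W (by rw [hF.he]; exact hyA) hr
  obtain ⟨hxA, oz, sz⟩ := hF.mem_inq.1 hz
  have ogg : S.Off ![k, e, S.M.α e', S.M.α k'] g := fun i => by rw [hv]; exact oz i
  have sg : s g = true := by rw [hs.vert hF.hc ogg hv, sz]
  have sag : s (S.M.α g) = true := by rw [off_side hF.hc hs ogg, sg]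
  have sat : s (S.M.α t) = true := by rw [off_side hF.hc hs oz, sz]
  have rt : S.real t = true := hS.real_of2 W hxA (by rw [h3]; exact hmA)
  have rg : S.real g = false := by
    cases h0 : S.real g
    · rfl
    · exact absurd (h.real_A _ (by rw [h.real_α]; exact h0)) (by rw [h4]; exact hh)
  obtain ⟨xm, xy, xw, xv⟩ := (off4 hF.he hF.hw).1 oz
  have sk : s k = true := hs.t 0
  have se : s e = true := hs.t 1
  have fk : s (S.M.α k) = false := hs.f 0
  have fe : s (S.M.α e) = false := hs.f 1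
  by_cases hex : ∃ r, S.M.v r = S.M.v t ∧ S.M.v (S.M.α r) = S.M.v (S.M.α k)
  · obtain ⟨r, r1, r2⟩ := hex
    have rr : S.real r = true := hS.real_of2 W (by rw [r1]; exact hxA) (by rw [r2]; exact hyA)
    have orr : S.Off ![k, e, S.M.α e', S.M.α k'] r := fun i => by rw [r1]; exact oz i
    have sr : s r = true := by rw [hs.vert hF.hc orr r1, sz]
    have sar : s (S.M.α r) = true := by rw [off_side hF.hc hs orr, sr]
    have hrU : S.M.v r ∈ inq S k e e' k' s := by rw [r1]; exact hz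
    refine ⟨r, ?_, ?_⟩
    · rcases hfc r rr hrU g e (hv.trans r1.symm) (hF.he.trans r2.symm) h4 with ⟨c1, c2⟩ | ⟨c1, c2⟩
      · exfalso
        have : s (S.M.σ e) = false := by
          show s (S.M.φ (S.M.α e)) = false
          rw [hs.φ, fe]
        rw [c2, sar] at this
        exact absurd this (by decide)
      · exact c1
    · rcases hfc t rt hz r k r1 h3.symm r2 with ⟨c1, c2⟩ | ⟨c1, c2⟩
      · exfalso
        have : s (S.M.σ k) = false := by
          show s (S.M.φ (S.M.α k)) = false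
          rw [hs.φ, fk]
        rw [c2, sat] at this
        exact absurd this (by decide)
      · exact c1
  · exfalso
    push Not at hex
    have hne2 : S.M.v (S.M.α k) ≠ S.M.v (S.M.α (S.M.α t)) := by rw [S.M.αα]; exact xy.symm
    rcases h.mkF hS W hΔ (k := k) (k' := S.M.α t) (e := e) (e' := g) hF.hk
      (by rw [h.real_α]; exact rt) h3 hF.he (by rw [S.M.αα]; exact hv) (by rw [rg, hr]) h4.symm
      hne2 hF.n02.symm (fun r r1 r2 h0 => by
        rw [S.M.αα] at h0
        exact hex (S.M.α r) h0 (by rw [S.M.αα]; exact r2)) (fun t' t1 => hF.ht t' t1) with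
      ⟨s2, hF2, hT2⟩ | b1 | b1
    · have hs2 := hF2.hs
      have hout : ∀ z, s z = false → s2 z = false := by
        intro z0 h0
        have hcon := side_const hF.hc hs (s' := s2) hs2.φ (by
          intro z1 b1 b2
          have nz : ∀ y, s y = true → z1 ≠ y := fun y hy h0 => by
            rw [h0, hy] at b1
            exact absurd b1 (by decide)
          have nz' : ∀ y, s y = true → z1 ≠ S.M.α y := fun y hy h0 => by
            rw [h0, S.M.αα, hy] at b2
            exact absurd b2 (by decide)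
          refine hs2.o z1 (fun i => ?_) (fun i => ?_)
          · fin_cases i
            · exact nz _ sk
            · exact nz _ se
            · exact nz _ sag
            · exact nz _ (by
                show s (S.M.α (S.M.α t)) = true
                rw [S.M.αα]; exact sz)
          · fin_cases i
            · exact nz' _ sk
            · exact nz' _ se
            · exact nz' _ sag
            · exact nz' _ (by
                show s (S.M.α (S.M.α t)) = true
                rw [S.M.αα]; exact sz)) z0 (S.M.α e) h0 fe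
        rw [hcon]
        exact hs2.f 1
      have hcard := hF.small W h2 hmin hF2 hout hz (fun h0 => h0 3 (by
          show S.M.v t = S.M.v (S.M.α (S.M.α t))
          rw [S.M.αα])) (fun y h0 h1 => by
        rw [off4 hF.he h4.symm, S.M.αα]
        rw [off4 hF.he hF.hw] at h0
        exact ⟨h0.1, h0.2.1, h0.2.2.1, h1⟩)
      have := hF2.two_card hT2
      omega
    · rw [hr] at b1
      exact absurd b1.1 (by decide)
    · rw [hr] at b1
      exact absurd b1.1 (by decide)

/-- the half with `v (α k')` -/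
theorem IsF.hub_b (hF : IsF S k e e' k' s) (hr : S.real e = false) (h : Rg S) (hS : IsStar S)
    (W : Wf Δ S L w) (hΔ : Δ ≤ 7) (h2 : TwoF S k e e' k' s)
    (hfc : ∀ z, S.real z = true → S.M.v z ∈ inq S k e e' k' s → Fc3 S z)
    (hmin : MinF S k e e' k' s) {t g : D} (hz : S.M.v t ∈ inq S k e e' k' s)
    (hv : S.M.v g = S.M.v t) (h3 : S.M.v (S.M.α t) = S.M.v k)
    (h4 : S.M.v (S.M.α g) = S.M.v (S.M.α e)) :
    ∃ r, S.M.σ t = r ∧ S.M.σ r = g := by
  have hs := hF.hs
  have hmA : S.M.v k ∈ S.A := h.real_A _ hF.hk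
  have hyA : S.M.v (S.M.α k) ∈ S.A := h.real_A _ (by rw [h.real_α]; exact hF.hk)
  have hvA : S.M.v (S.M.α k') ∈ S.A := h.real_A _ (by rw [h.real_α]; exact hF.hk')
  have hh : S.M.v (S.M.α e) ∉ S.A := hS.vhead W (by rw [hF.he]; exact hyA) hr
  obtain ⟨hxA, oz, sz⟩ := hF.mem_inq.1 hz
  have ogg : S.Off ![k, e, S.M.α e', S.M.α k'] g := fun i => by rw [hv]; exact oz i
  have sg : s g = true := by rw [hs.vert hF.hc ogg hv, sz]
  have sag : s (S.M.α g) = true := by rw [off_side hF.hc hs ogg, sg]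
  have sat : s (S.M.α t) = true := by rw [off_side hF.hc hs oz, sz]
  have rt : S.real t = true := hS.real_of2 W hxA (by rw [h3]; exact hmA)
  have rg : S.real g = false := by
    cases h0 : S.real g
    · rfl
    · exact absurd (h.real_A _ (by rw [h.real_α]; exact h0)) (by rw [h4]; exact hh)
  obtain ⟨xm, xy, xw, xv⟩ := (off4 hF.he hF.hw).1 oz
  have se' : s (S.M.α e') = true := hs.t 2
  have sk' : s (S.M.α k') = true := hs.t 3
  have fk' : s (S.M.α (S.M.α k')) = false := hs.f 3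
  have fe' : s (S.M.α (S.M.α e')) = false := hs.f 2
  by_cases hex : ∃ r, S.M.v r = S.M.v t ∧ S.M.v (S.M.α r) = S.M.v (S.M.α k')
  · obtain ⟨r, r1, r2⟩ := hex
    have rr : S.real r = true := hS.real_of2 W (by rw [r1]; exact hxA) (by rw [r2]; exact hvA)
    have orr : S.Off ![k, e, S.M.α e', S.M.α k'] r := fun i => by rw [r1]; exact oz i
    have sr : s r = true := by rw [hs.vert hF.hc orr r1, sz]
    have sar : s (S.M.α r) = true := by rw [off_side hF.hc hs orr, sr]
    have hrU : S.M.v r ∈ inq S k e e' k' s := by rw [r1]; exact hz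
    refine ⟨r, ?_, ?_⟩
    · -- the triangle with `k'`
      rcases hfc t rt hz r k' r1 (hF.vk.trans h3.symm) r2 with ⟨c1, c2⟩ | ⟨c1, c2⟩
      · exact c1.symm
      · exfalso
        -- `k' = σ (α t)`
        have : s (S.M.σ (S.M.α t)) = false := by
          rw [← c2]
          have := fk'
          rw [S.M.αα] at this
          exact this
        have h5 : s (S.M.σ (S.M.α t)) = true := by
          show s (S.M.φ (S.M.α (S.M.α t))) = true
          rw [hs.φ, S.M.αα, sz]
        rw [h5] at this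
        exact absurd this (by decide)
    · rcases hfc r rr hrU g e' (hv.trans r1.symm) (hF.he'.trans r2.symm) (h4.trans hF.hw) with
        ⟨c1, c2⟩ | ⟨c1, c2⟩
      · exact c1.symm
      · exfalso
        have : s (S.M.σ (S.M.α r)) = false := by
          rw [← c2]
          have := fe'
          rw [S.M.αα] at this
          exact this
        have h5 : s (S.M.σ (S.M.α r)) = true := by
          show s (S.M.φ (S.M.α (S.M.α r))) = true
          rw [hs.φ, S.M.αα, sr]
        rw [h5] at this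
        exact absurd this (by decide)
  · exfalso
    push Not at hex
    rcases h.mkF hS W hΔ (k := S.M.α t) (k' := k') (e := g) (e' := e') (by rw [h.real_α]; exact rt)
      hF.hk' (hF.vk.trans h3.symm) (by rw [S.M.αα]; exact hv) hF.he' (by rw [rg, hF.re, hr])
      (h4.trans hF.hw) (by rw [S.M.αα]; exact xv) (by rw [h4, h3]; exact hF.n02.symm)
      (fun r r1 r2 h0 => by
        rw [S.M.αα] at r2
        exact hex r r2 h0) (fun t' t1 => by
        rw [h4]
        exact hF.ht t' (t1.trans h3)) with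
      ⟨s2, hF2, hT2⟩ | b1 | b1
    · have hs2 := hF2.hs
      have hout : ∀ z, s z = false → s2 z = false := by
        intro z0 h0
        have hcon := side_const hF.hc hs (s' := s2) hs2.φ (by
          intro z1 b1 b2
          have nz : ∀ y, s y = true → z1 ≠ y := fun y hy h0 => by
            rw [h0, hy] at b1
            exact absurd b1 (by decide)
          have nz' : ∀ y, s y = true → z1 ≠ S.M.α y := fun y hy h0 => by
            rw [h0, S.M.αα, hy] at b2
            exact absurd b2 (by decide)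
          refine hs2.o z1 (fun i => ?_) (fun i => ?_)
          · fin_cases i
            · exact nz _ sat
            · exact nz _ sg
            · exact nz _ se'
            · exact nz _ sk'
          · fin_cases i
            · exact nz' _ sat
            · exact nz' _ sg
            · exact nz' _ se'
            · exact nz' _ sk') z0 (S.M.α (S.M.α e')) h0 fe'
        rw [hcon]
        exact hs2.f 2
      have hcard := hF.small W h2 hmin hF2 hout hz (fun h0 => h0 1 (by
          show S.M.v t = S.M.v g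
          rw [hv])) (fun y h0 h1 => by
        rw [off4 (by rw [S.M.αα]; exact hv) (h4.trans hF.hw), S.M.αα, h3, h4]
        rw [off4 hF.he hF.hw] at h0
        exact ⟨h0.1, h1, h0.2.2.1, h0.2.2.2⟩)
      have := hF2.two_card hT2
      omega
    · rw [rg] at b1
      exact absurd b1.1 (by decide)
    · rw [rg] at b1
      exact absurd b1.1 (by decide)

/-- no vertex inside is adjacent to `v k` and to the face `v (α e)` -/
theorem IsF.opp_hub (hF : IsF S k e e' k' s) (hr : S.real e = false) (h : Rg S) (hS : IsStar S)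
    (W : Wf Δ S L w) (hΔ : Δ ≤ 7) (h2 : TwoF S k e e' k' s)
    (hfc : ∀ z, S.real z = true → S.M.v z ∈ inq S k e e' k' s → Fc3 S z)
    (hmin : MinF S k e e' k' s) {t g : D} (hz : S.M.v t ∈ inq S k e e' k' s)
    (hv : S.M.v g = S.M.v t) (h3 : S.M.v (S.M.α t) = S.M.v k)
    (h4 : S.M.v (S.M.α g) = S.M.v (S.M.α e)) : False := by
  obtain ⟨r, a1, a2⟩ := hF.hub_a hr h hS W hΔ h2 hfc hmin hz hv h3 h4
  obtain ⟨r', b1, b2⟩ := hF.hub_b hr h hS W hΔ h2 hfc hmin hz hv h3 h4
  have hyA : S.M.v (S.M.α k) ∈ S.A := h.real_A _ (by rw [h.real_α]; exact hF.hk)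
  have hh : S.M.v (S.M.α e) ∉ S.A := hS.vhead W (by rw [hF.he]; exact hyA) hr
  have hxA := (hF.mem_inq.1 hz).1
  have hnd : S.nd g = 4 := h.nd_four hS W (by rw [a1, a2, b1, b2])
  have hrd : 4 ≤ S.rdeg (S.M.v g) := h.deg4 (by rw [hv]; exact hxA) (W.ne _)
  have rg := real_of_nd hnd hrd (z' := g) rfl
  exact hh (by rw [← h4]; exact h.real_A _ (by rw [h.real_α]; exact rg))

end

/-- all darts at a vertex without virtual darts -/
theorem nd_of_vdeg {z : D} (h1 : S.rdeg (S.M.v z) = 4) (h2 : vdeg S (S.M.v z) = 0) :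
    S.nd z ≤ 4 := by
  classical
  have h3 : S.nd z ≤ S.rdeg (S.M.v z) + vdeg S (S.M.v z) := by
    unfold St.nd St.rdeg vdeg
    rw [Finset.card_filter, ← Finset.sum_add_distrib]
    refine Finset.sum_le_sum fun d _ => ?_
    cases h0 : S.real d <;> by_cases hv : S.M.v d = S.M.v z <;> simp [hv]
  omega

theorem Cut0.f41 (hC : Cut0 S) (hn : ∀ k e e' k' s, IsF S k e e' k' s → TwoF S k e e' k' s →
    ¬ inq S k e e' k' s ⊆ S.A) : F41 S fun x => x ∈ S.A := by
  intro k e e' k' s hF hT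
  exact absurd (Finset.filter_subset _ _) (hn _ _ _ _ _ hF hT)

theorem Cut3.f41 {d e e' : D} {s : D → Bool} (hC : Cut3 S d e e' s) (h : Rg S) (hS : IsStar S)
    (W : Wf Δ S L w) (hΔ : Δ ≤ 7)
    (hn : ∀ k1 e1 e1' k1' s1, IsF S k1 e1 e1' k1' s1 → TwoF S k1 e1 e1' k1' s1 →
      ¬ inq S k1 e1 e1' k1' s1 ⊆ ins S d e e' s) : F41 S fun x => x ∈ ins S d e e' s := by
  intro k1 e1 e1' k1' s1 hF hT
  have hD := hC.hD
  have hno : Nog S (S.A.filter fun x => S.sd ![d, e', S.M.α e] s true x = true) :=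
    fun _ _ _ _ _ a1 a2 a3 => hn _ _ _ _ _ a1 a2 a3.1
  have key : ∀ i : Fin 4, S.M.v (![k1, e1, S.M.α e1', S.M.α k1'] i) ∈ ins S d e e' s → False := by
    intro i hi
    obtain ⟨c1, c2, c3⟩ := hD.mem_ins.1 hi
    obtain ⟨t1, t3⟩ := hF.touch hD.hc hD.hs (hD.cf h hS W hΔ) h hno hT c1 c2 c3
    unfold Off at t1 t3
    push Not at t1 t3
    obtain ⟨a, ha⟩ := t1
    obtain ⟨b, hb⟩ := t3
    have hi2 : i + 1 + 2 = i + 3 := by rw [add_assoc]; rfl
    have hi4 : i + 3 + 2 = i + 1 := by rw [add_assoc]; rfl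
    have hab : a ≠ b := by
      rintro rfl
      have := hF.hc.inj _ _ (ha.trans hb.symm)
      revert this
      clear * -
      revert i
      decide
    have hor : b = a + 1 ∨ a = b + 1 := by
      revert hab
      clear * -
      revert a b
      decide
    rcases hor with rfl | rfl
    · refine hF.nochord h hS W (i + 1) (r := ![d, e', S.M.α e] a) ha.symm ?_
      rw [hD.hc.nx, hi2, hb]
    · refine hF.nochord h hS W (i + 3) (r := ![d, e', S.M.α e] b) hb.symm ?_
      rw [hD.hc.nx, hi4, ha]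
  exact ⟨fun h1 => absurd (key 0 h1) id, fun h1 => absurd (key 1 (by
    show S.M.v e1 ∈ _
    rw [hF.he]; exact h1)) id⟩

theorem Cut4.f41 {k e e' k' : D} {s : D → Bool} (hC : Cut4 S k e e' k' s) (h : Rg S)
    (hS : IsStar S) (W : Wf Δ S L w) (hΔ : Δ ≤ 7) : F41 S fun x => x ∈ inq S k e e' k' s := by
  intro k1 e1 e1' k1' s1 hF1 hT1
  have hF := hC.hF
  have hno : Nog S (S.A.filter fun x => S.sd ![k, e, S.M.α e', S.M.α k'] s true x = true) := by
    intro _ _ _ _ _ a1 a2 a3
    have h1 := hC.min _ _ _ _ _ a1 a2 a3.1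
    have h2 := Finset.card_lt_card a3
    have h3 : (S.A.filter fun x => S.sd ![k, e, S.M.α e', S.M.α k'] s true x = true) =
      inq S k e e' k' s := rfl
    rw [h3] at h2
    omega
  -- the darts to opposite vertices
  have o02 : ∀ {y y'}, S.M.v y ∈ inq S k e e' k' s → S.M.v y' = S.M.v y →
      S.M.v (S.M.α y) = S.M.v k → S.M.v (S.M.α y') = S.M.v (S.M.α e') → S.nd y ≤ 4 := by
    intro y y' g1 g2 g3 g4
    cases hr : S.real e
    · exact absurd (hF.opp_hub hr h hS W hΔ hC.two hC.fc hC.min g1 g2 g3 (by rw [g4, hF.hw])) id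
    · by_cases h3 : 3 ≤ (inq S k e e' k' s).card
      · exact absurd (hF.opp hr h hS W hΔ hC.two h3 hC.fc hC.min g1 g2 g3 (by rw [g4, hF.hw])) id
      · have := hF.two_card hC.two
        obtain ⟨p1, p2, -⟩ := hF.pair_facts h hS W (by omega) _ g1
        exact nd_of_vdeg p1 p2
  have o13 : ∀ {y y'}, S.M.v y ∈ inq S k e e' k' s → S.M.v y' = S.M.v y →
      S.M.v (S.M.α y) = S.M.v e → S.M.v (S.M.α y') = S.M.v (S.M.α k') → S.nd y ≤ 4 := by
    intro y y' g1 g2 g3 g4
    cases hr : S.real e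
    · exact absurd (hF.opp_virt hr h hS W hΔ hC.two hC.fc hC.min g1 g2 (by rw [g3, hF.he]) g4) id
    · by_cases h3 : 3 ≤ (inq S k e e' k' s).card
      · have hF2 := hF.rot hr h hS W
        have i1 := hF.inq_rot hF2 W
        exact absurd (hF2.opp (by rw [h.real_α, hF.re]; exact hr) h hS W hΔ (hF.two_rot hC.two)
          (by rw [i1]; exact h3) (by rw [i1]; exact hC.fc)
          (by unfold MinF; rw [i1]; exact hC.min) (by rw [i1]; exact g1) g2 g3
          (by rw [g4, S.M.αα, hF.he'])) id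
      · have := hF.two_card hC.two
        obtain ⟨p1, p2, -⟩ := hF.pair_facts h hS W (by omega) _ g1
        exact nd_of_vdeg p1 p2
  obtain ⟨K, hK⟩ : ∃ K : Fin 4 → D, K = ![k1, e1, S.M.α e1', S.M.α k1'] := ⟨_, rfl⟩
  have key : ∀ i : Fin 4, S.M.v (K i) ∈ inq S k e e' k' s → S.nd (K i) ≤ 4 := by
    intro i hi
    obtain ⟨c1, c2, c3⟩ := hF.mem_inq.1 hi
    have htouch := hF1.touch (i := i) hF.hc hF.hs (hF.cf h hS W hΔ) h hno hT1
    have hnc := hF1.nochord h hS W
    have hcK := hF1.hc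
    rw [← hK] at htouch hnc hcK
    obtain ⟨t1, t3⟩ := htouch c1 c2 c3
    unfold Off at t1 t3
    push Not at t1 t3
    obtain ⟨a, ha⟩ := t1
    obtain ⟨b, hb⟩ := t3
    have hi2 : i + 1 + 2 = i + 3 := by rw [add_assoc]; rfl
    have hi4 : i + 3 + 2 = i + 1 := by rw [add_assoc]; rfl
    have hi5 : i + 3 + 1 = i := by
      rw [add_assoc]
      have : (3 : Fin 4) + 1 = 0 := by decide
      rw [this, add_zero]
    have hab : a ≠ b := by
      rintro rfl
      have := hcK.inj _ _ (ha.trans hb.symm)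
      revert this
      clear * -
      revert i
      decide
    -- the two darts at `y`
    have u1 : S.M.v (S.M.α (K i)) = S.M.v (K (i + 1)) := hcK.nx i
    have u2 : S.M.v (S.M.α (K (i + 3))) = S.M.v (K i) := by rw [hcK.nx, hi5]
    have u3 : S.nd (S.M.α (K (i + 3))) = S.nd (K i) := nd_congr u2
    have hi' : S.M.v (S.M.α (K (i + 3))) ∈ inq S k e e' k' s := by rw [u2]; exact hi
    have hor : b = a + 1 ∨ a = b + 1 ∨ (a = 0 ∧ b = 2) ∨ (a = 2 ∧ b = 0) ∨ (a = 1 ∧ b = 3) ∨
        (a = 3 ∧ b = 1) := by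
      revert hab
      clear * -
      revert a b
      decide
    rcases hor with rfl | rfl | ⟨rfl, rfl⟩ | ⟨rfl, rfl⟩ | ⟨rfl, rfl⟩ | ⟨rfl, rfl⟩
    · exfalso
      refine hnc (i + 1) (r := ![k, e, S.M.α e', S.M.α k'] a) ha.symm ?_
      rw [hF.hc.nx, hi2, hb]
    · exfalso
      refine hnc (i + 3) (r := ![k, e, S.M.α e', S.M.α k'] b) hb.symm ?_
      rw [hF.hc.nx, hi4, ha]
    · have := o02 (y := K i) (y' := S.M.α (K (i + 3))) hi u2 (u1.trans ha)
        (by rw [S.M.αα]; exact hb)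
      exact this
    · have := o02 (y := S.M.α (K (i + 3))) (y' := K i) hi' u2.symm (by rw [S.M.αα]; exact hb)
        (u1.trans ha)
      rwa [u3] at this
    · have := o13 (y := K i) (y' := S.M.α (K (i + 3))) hi u2 (u1.trans ha)
        (by rw [S.M.αα]; exact hb)
      exact this
    · have := o13 (y := S.M.α (K (i + 3))) (y' := K i) hi' u2.symm (by rw [S.M.αα]; exact hb)
        (u1.trans ha)
      rwa [u3] at this
  refine ⟨fun h1 => ?_, fun h1 => ?_⟩
  · have := key 0 (by rw [hK]; exact h1)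
    rw [hK] at this
    exact this
  · have h2 : S.M.v (K 1) = S.M.v (S.M.α k1) := by rw [hK]; exact hF1.he
    have := key 1 (by rw [h2]; exact h1)
    rwa [nd_congr h2] at this

/-- the nested choice, from any curve inside -/
theorem Rg.cut4_of1 (h : Rg S) (hS : IsStar S) (W : Wf Δ S L w) (hΔ : Δ ≤ 7) {U : Finset V}
    (fc : ∀ z, S.real z = true → S.M.v z ∈ U → Fc3 S z)
    (hn : ∃ k e e' k' s, IsF S k e e' k' s ∧ TwoF S k e e' k' s ∧ inq S k e e' k' s ⊆ U) :
    ∃ k e e' k' s, Cut4 S k e e' k' s := by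
  classical
  let P : ℕ → Prop := fun n => ∃ k e e' k' s, IsF S k e e' k' s ∧ TwoF S k e e' k' s ∧
    inq S k e e' k' s ⊆ U ∧ (inq S k e e' k' s).card = n
  have hP : ∃ n, P n := by
    obtain ⟨k, e, e', k', s, a1, a2, a3⟩ := hn
    exact ⟨_, k, e, e', k', s, a1, a2, a3, rfl⟩
  obtain ⟨k, e, e', k', s, hF, h2, hsub, hcard⟩ := Nat.find_spec hP
  have hmin : ∀ k1 e1 e1' k1' s1, IsF S k1 e1 e1' k1' s1 → TwoF S k1 e1 e1' k1' s1 →
      inq S k1 e1 e1' k1' s1 ⊆ U →
      (inq S k e e' k' s).card ≤ (inq S k1 e1 e1' k1' s1).card := by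
    intro k1 e1 e1' k1' s1 a1 a2 a3
    have h0 := Nat.find_min' hP ⟨k1, e1, e1', k1', s1, a1, a2, a3, rfl⟩
    have h1 : (inq S k e e' k' s).card = Nat.find hP := hcard
    rw [h1]
    exact h0
  refine ⟨k, e, e', k', s, hF, h2, fun k1 e1 e1' k1' s1 a1 a2 a3 =>
    hmin _ _ _ _ _ a1 a2 (a3.trans hsub), fun z hz hv => fc z hz (hsub hv),
    fun k1 e1 e1' k1' s1 hF1 h21 u1 u2 => ?_⟩
  obtain ⟨k2, e2, e2', k2', s2, b1, b2, b3, b4⟩ :=
    cloF_side hF.hc hF.hs (hF.cf h hS W hΔ) h _ _ _ _ _ hF1 u1 u2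
  have b5 := hmin _ _ _ _ _ b1 (b3 h21) (b4.trans hsub)
  have b6 : inq S k2 e2 e2' k2' s2 ⊂ inq S k e e' k' s := by
    refine ⟨b4, fun hs => ?_⟩
    have : S.M.v k2 ∈ inq S k2 e2 e2' k2' s2 := hs (by rw [b2]; exact u1)
    exact (b1.mem_inq.1 this).2.1 0 rfl
  have b7 := Finset.card_lt_card b6
  omega

/-- there are no curves inside, or two adjacent vertices are on no curve -/
theorem nof_of_cloF {U : Finset V} (hcl : CloF S U)
    (hn : ∀ k e e' k' s, IsF S k e e' k' s → TwoF S k e e' k' s → ¬ inq S k e e' k' s ⊆ U) :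
    Nof S U := by
  intro k e e' k' s a1 a2 a3 a4
  obtain ⟨k1, e1, e1', k1', s1, b1, -, b3, b4⟩ := hcl _ _ _ _ _ a1 a3 a4
  exact hn _ _ _ _ _ b1 (b3 a2) b4

/-- the curves through a face and one vertex of the region -/
theorem F41.cv {U : V → Prop} (hU : F41 S U) (h : Rg S) (hS : IsStar S) (W : Wf Δ S L w)
    (hΔ : Δ ≤ 7) {k e e' k' : D} (hc : Cv S k e e' k') :
    (U (S.M.v k) → S.nd k ≤ 4) ∧ (U (S.M.v (S.M.α k)) → S.nd (S.M.α k) ≤ 4) := by
  have hmA : S.M.v k ∈ S.A := h.real_A _ hc.hk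
  have hyA : S.M.v (S.M.α k) ∈ S.A := h.real_A _ (by rw [h.real_α]; exact hc.hk)
  have hh : S.M.v (S.M.α e) ∉ S.A := hS.vhead W (by rw [hc.he]; exact hyA) hc.re
  rcases h.mkF hS W hΔ hc.hk hc.hk' hc.vk hc.he hc.he' (hc.re'.trans hc.re.symm) hc.hw hc.ne
    (fun h0 => hh (by rw [h0]; exact hmA)) hc.hn hc.ht with ⟨s, a1, a2⟩ | b1 | b1
  · exact hU _ _ _ _ _ a1 a2
  · rw [hc.re] at b1
    exact absurd b1.1 (by decide)
  · rw [hc.re] at b1
    exact absurd b1.1 (by decide)

/-- the region used for the discharging, with the curves through one vertex -/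
structure Dsi (S : St D V) (U T : Finset V) : Prop extends Dsh S U T where
  f1 : ∀ k e e' k', Cv S k e e' k' → (S.M.v k ∈ U → S.nd k ≤ 4 ∨ Sp5 S k) ∧
    (S.M.v (S.M.α k) ∈ U → S.nd (S.M.α k) ≤ 4 ∨ Sp5 S (S.M.α k))

/-- the region exists, with the price of the neighbours outside and the curves through one vertex -/
theorem Rg.exists_dsh3 (h : Rg S) (hS : IsStar S) (W : Wf Δ S L w) (hΔ : Δ ≤ 7) :
    ∃ U T, Dsi S U T ∧ (N1 S U T → Cnt2 S U T) := by
  classical
  have key : ∀ U T, Dsh S U T → (N1 S U T → Cnt2 S U T) → F41 S (fun x => x ∈ U) →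
      ∃ U T, Dsi S U T ∧ (N1 S U T → Cnt2 S U T) := fun U T h1 h2 h3 =>
    ⟨U, T, ⟨h1, fun k e e' k' hc => ⟨fun h4 => Or.inl ((h3.cv h hS W hΔ hc).1 h4),
      fun h4 => Or.inl ((h3.cv h hS W hΔ hc).2 h4)⟩⟩, h2⟩
  have hcases : (Cut0 S ∧ ∀ k e e' k' s, IsF S k e e' k' s → TwoF S k e e' k' s →
        ¬ inq S k e e' k' s ⊆ S.A) ∨
      (∃ d e e' s, Cut3 S d e e' s ∧ ∀ k1 e1 e1' k1' s1, IsF S k1 e1 e1' k1' s1 →
        TwoF S k1 e1 e1' k1' s1 → ¬ inq S k1 e1 e1' k1' s1 ⊆ ins S d e e' s) ∨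
      ∃ k e e' k' s, Cut4 S k e e' k' s := by
    rcases exists_disc h hS W hΔ with hall | ⟨d, e, e', s, hD, hmin⟩
    · by_cases hn : ∃ k e e' k' s, IsF S k e e' k' s ∧ TwoF S k e e' k' s ∧
        inq S k e e' k' s ⊆ S.A
      · exact Or.inr (Or.inr (h.cut4_of1 hS W hΔ (fun z hz _ => hall z hz) hn))
      · have hn' : ∀ k e e' k' s, IsF S k e e' k' s → TwoF S k e e' k' s →
          ¬ inq S k e e' k' s ⊆ S.A := fun k e e' k' s a1 a2 a3 => hn ⟨_, _, _, _, _, a1, a2, a3⟩
        exact Or.inl ⟨⟨hall, nof_of_cloF cloF_all hn'⟩, hn'⟩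
    · by_cases hn : ∃ k1 e1 e1' k1' s1, IsF S k1 e1 e1' k1' s1 ∧ TwoF S k1 e1 e1' k1' s1 ∧
        inq S k1 e1 e1' k1' s1 ⊆ ins S d e e' s
      · exact Or.inr (Or.inr (h.cut4_of1 hS W hΔ hmin hn))
      · have hn' : ∀ k1 e1 e1' k1' s1, IsF S k1 e1 e1' k1' s1 → TwoF S k1 e1 e1' k1' s1 →
          ¬ inq S k1 e1 e1' k1' s1 ⊆ ins S d e e' s :=
          fun k e e' k' s a1 a2 a3 => hn ⟨_, _, _, _, _, a1, a2, a3⟩
        exact Or.inr (Or.inl ⟨d, e, e', s, ⟨hD, hmin, nof_of_cloF
          (cloF_side hD.hc hD.hs (hD.cf h hS W hΔ) h) hn'⟩, hn'⟩)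
  rcases hcases with ⟨hC, hn⟩ | ⟨d, e, e', s, hC, hn⟩ | ⟨k, e, e', k', s, hC⟩
  · have hn1 : N1 S S.A ∅ := fun z z' _ _ _ h1 => absurd h1 (by simp)
    exact key _ _ ⟨hC.dsg h hS W hΔ, fun z z' h1 => absurd h1 (by simp), Or.inl hn1, Or.inl hn1⟩
      (fun _ => h.cnt2_all hS W) (hC.f41 hn)
  · exact key _ _ ⟨hC.dsg h hS W hΔ, hC.n5 h hS W hΔ, Or.inl (hC.n1 h hS W hΔ),
      Or.inl (hC.n1 h hS W hΔ)⟩ (fun _ => hC.cnt2 h hS W hΔ) (hC.f41 h hS W hΔ hn)
  · have hout : ∃ v ∈ S.A, v ∉ inq S k e e' k' s ∧ v ∉ tef S k e k' := by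
      obtain ⟨z, -, a1, -, a3, -, a5, -, -⟩ := hC.two false
      refine ⟨_, a1, fun h0 => ?_, fun h0 => (hC.hF.mem_tef.1 h0).2 a3⟩
      have := (hC.hF.mem_inq.1 h0).2.2
      rw [a5] at this
      exact absurd this (by decide)
    refine key _ _ ⟨hC.dsg h hS W hΔ, hC.n5 h hS W hΔ, ?_, Or.inr hout⟩
      (fun hN => hC.cnt2 h hS W hΔ hN) (hC.f41 h hS W hΔ)
    by_cases h3 : 3 ≤ (inq S k e e' k' s).card
    · exact Or.inl (hC.n1 h hS W hΔ fun _ => h3)
    · cases hr : S.real e
      · exact Or.inl (hC.n1 h hS W hΔ fun h0 => by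
          rw [hr] at h0
          exact absurd h0 (by decide))
      · have := hC.hF.two_card hC.two
        have h4 : (inq S k e e' k' s).card = 2 := by omega
        exact Or.inr ⟨h4, hC.hF.pair_facts h hS W h4⟩

/-- THE REGION of a minimal counterexample -/
theorem MC.dsh3 (hΔ : Δ ≤ 6) (h : MC Δ S L w) (hS : IsStar S) :
    ∃ U T, Dsi S U T ∧ (N1 S U T → Cnt2 S U T) :=
  (h.rg hΔ).exists_dsh3 hS h.ok.toWf (by omega)

end Pool.FC7
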