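import Pool.Agent.FC7.SyP
import Pool.Agent.FC7.DnB
import Pool.Agent.FC7.CfI

/-! # Discharging in terms of the words of letters -/

open Finset

set_option linter.unusedSectionVars false

namespace Pool.FC7

open Pool.FC6 Pool.FC6.St

variable {D V : Type} [Fintype D] [DecidableEq V]

open Classical in
/-- the word of a dart at a vertex of `U`, the empty word at the other vertices -/
noncomputable def lwU (S : St D V) (L : D → Bool) (U : V → Prop) (e : D) : List ℕ :=
  if U (S.M.v e) then lwo S L e else []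

/-- the cost of a letter (`2 * den` = cost of a degree): `den` for a gap, `nl` for a gap of length at
least 5 -/
def gw (den nl l : ℕ) : ℕ := if lsol l = true then 0 else if lng l = true then nl else den

/-- the cost of the gaps of a word -/
def gws (den nl : ℕ) (c : List ℕ) : ℕ := (c.map (gw den nl)).sum

/-- a letter of a gap of length at least 5 -/
theorem long_all : ∀ l < 1024, ∀ s : Bool, glt l s = true → lng (lett l s) = true → lC l = 2 := by
  have h' : (List.range 1024).all (fun l => [false, true].all fun s =>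
      !(glt l s && lng (lett l s)) || decide (lC l = 2)) = true := by decide +kernel
  intro l hl s h1 h2
  rw [List.all_eq_true] at h'
  have h3 := h' l (List.mem_range.2 hl)
  rw [List.all_eq_true] at h3
  have h4 := h3 s (by cases s <;> simp)
  rw [h1, h2] at h4
  simpa using h4

variable {S : St D V} {L : D → Bool} {w : D → ℕ} {d e r x : D} {U T : Finset V}

section mc

variable (h : MC 6 S L w) (hS : IsStar S) (hd : S.real d = true)

include h hS hd

/-- the letters of solid sectors -/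
theorem MC.lsol_iff : lsol (lto S L d) = decide (S.real (S.M.σ d) = true) := h.lsol_iff' hS hd

/-- sums over the real darts at a vertex -/
theorem MC.sum_real {M : Type*} [AddCommMonoid M] (F : D → M) :
    ∑ x, (if S.M.v x = S.M.v d ∧ S.real x = true then F x else 0) =
      ∑ i ∈ Finset.range (S.rdeg (S.M.v d)), F (S.nxr^[i] d) := sum_real_at hS h.ok.toWf hd F

/-- the cost of the gap corners at a vertex -/
theorem MC.gdeg_eq : gdeg S (S.M.v d) = ∑ i ∈ Finset.range (S.rdeg (S.M.v d)),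
    (if S.real (S.M.σ (S.nxr^[i] d)) = true then 0 else gh S (S.M.α (S.M.σ (S.nxr^[i] d)))) := by
  classical
  have W := h.ok.toWf
  have hA := h.ok.real_A _ hd
  have e1 : gdeg S (S.M.v d) = ∑ x, if S.M.v x = S.M.v d ∧ S.real x = true then
      (if S.real (S.M.σ x) = true then 0 else gh S (S.M.α (S.M.σ x))) else 0 := by
    unfold gdeg
    rw [← sum_σ_nat S.M (fun x => if S.M.v x = S.M.v d ∧ S.real x = false then
      gh S (S.M.α x) else 0)]
    refine Finset.sum_congr rfl fun x _ => ?_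
    have hv : S.M.v (S.M.φ (S.M.α x)) = S.M.v x := S.M.vσ x
    rw [hv]
    by_cases hx : S.M.v x = S.M.v d
    · by_cases hr : S.real (S.M.σ x) = true
      · have hr' : ¬ S.real (S.M.φ (S.M.α x)) = false := by
          show ¬ S.real (S.M.σ x) = false
          rw [hr]; decide
        rw [if_neg (fun h => hr' h.2)]
        split_ifs <;> rfl
      · have hr0 : S.real (S.M.σ x) = false := by simpa using hr
        have hA' : S.M.v (S.M.σ x) ∈ S.A := by rw [S.M.vσ, hx]; exact hA
        have h2 := (hS.σvirt W hr0 hA').2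
        have h3 : S.M.α (S.M.φ (S.M.φ (S.M.σ x))) = x := by
          show S.M.α (S.M.φ (S.M.φ (S.M.φ (S.M.α x)))) = x
          rw [S.M.φ3, S.M.αα]
        rw [h3] at h2
        rw [if_pos ⟨hx, hr0⟩, if_pos ⟨hx, h2⟩, if_neg hr]
        rfl
    · rw [if_neg (fun h => hx h.1), if_neg (fun h => hx h.1)]
  rw [e1, h.sum_real hS hd]

/-- the cost of a letter is at most the cost of the corner -/
theorem MC.gw_le {den nl : ℕ} (hnl : 5 * nl ≤ 8 * den) : 5 * gw den nl (lto S L d) ≤
    den * (if S.real (S.M.σ d) = true then 0 else gh S (S.M.α (S.M.σ d))) := by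
  have ub : ∀ x, S.u x < 4 := fun x => by have := h.u_lt (le_refl 6) hS x; omega
  have W := h.ok.toWf
  have hA := h.ok.real_A _ hd
  unfold gw
  rw [h.lsol_iff hS hd]
  by_cases hs : S.real (S.M.σ d) = true
  · rw [if_pos (by simpa using hs), if_pos hs]
    simp
  · rw [if_neg (by simpa using hs), if_neg hs]
    have hs0 : S.real (S.M.σ d) = false := by simpa using hs
    have hcs : S.csz (S.M.σ d) = S.nd (S.M.α (S.M.σ d)) :=
      hS.csz_virt W hs0 (by rw [S.M.vσ]; exact hA)
    split_ifs with h1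
    · have hc : (if S.csz (S.M.σ d) = 4 then 1 else 2) < 4 := by split_ifs <;> norm_num
      have h2 := long_all _ (h.code_lt hS (d := d)) _ (h.glt (le_refl 6) hS hd) h1
      unfold code at h2
      rw [if_neg hs, (mkl_dec (ub _) (fcl_lt _) hc (by norm_num) _ _).2.2.1] at h2
      have h3 : ¬ S.csz (S.M.σ d) = 4 := by
        intro h4
        rw [if_pos h4] at h2
        exact absurd h2 (by norm_num)
      have h5 : gh S (S.M.α (S.M.σ d)) = 8 := by
        unfold gh
        rw [if_neg (by rw [← hcs]; exact h3)]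
      rw [h5]
      omega
    · have h5 := le_gh (S := S) (S.M.α (S.M.σ d))
      calc 5 * den = den * 5 := by ring
        _ ≤ den * gh S (S.M.α (S.M.σ d)) := Nat.mul_le_mul_left _ h5

/-- the cost of a word is at most the cost of the corners -/
theorem MC.gws_le {den nl : ℕ} (hnl : 5 * nl ≤ 8 * den) :
    5 * gws den nl (lwo S L d) ≤ den * gdeg S (S.M.v d) := by
  unfold gws
  rw [h.gdeg_eq hS hd, ← sum_getD, lwo_length, Finset.mul_sum, Finset.mul_sum]
  refine Finset.sum_le_sum fun i hi => ?_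
  have hi' := Finset.mem_range.1 hi
  have hr := hS.nxr_iter_real h.ok.toWf hd i
  rw [h.lwo_getD hS hd hi']
  have := h.gw_le hS hr hnl
  exact this

end mc

/-- the sum of the star inequality: `2 * den` times the final charge; a null neighbour costs
`nu` -/
noncomputable def stX (S : St D V) (L : D → Bool) (U : V → Prop) (den nl nu : ℕ)
    (fl : List ℕ → List ℕ → ℕ) (e : D) : ℤ :=
  (den : ℤ) * (12 - 2 * (lwo S L e).length) - gws den nl (lwo S L e) -
    nu * ∑ i ∈ Finset.range (lwo S L e).length,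
      (if lwU S L U (S.M.α (S.nxr^[i] e)) = [] then 1 else 0) +
  2 * ∑ i ∈ Finset.range (lwo S L e).length,
    (if lwU S L U (S.M.α (S.nxr^[i] e)) = [] then (0 : ℤ)
      else (fl (lwU S L U (S.M.α (S.nxr^[i] e))) (lwU S L U (S.nxr^[i] e)) : ℤ) -
        fl (lwU S L U (S.nxr^[i] e)) (lwU S L U (S.M.α (S.nxr^[i] e))))

/-- what the discharging needs from the region: a null neighbour costs `nu / (2 * den)` -/
structure DscP (S : St D V) (U T : Finset V) (den nu : ℕ) : Prop where
  UA : U ⊆ S.A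
  dis : ∀ x ∈ U, x ∉ T
  nb : ∀ z, S.real z = true → S.M.v z ∈ U → S.M.v (S.M.α z) ∈ U ∨ S.M.v (S.M.α z) ∈ T
  cnt : 10 * den * ∑ x ∈ U, S.rdeg x + den * ∑ x ∈ U, gdeg S x + 5 * nu * ∑ x ∈ U, nul S T x <
    60 * den * U.card

open Classical in
/-- the final charge of a vertex of `U`, times `10 * den` -/
noncomputable def cdp (S : St D V) (U T : Finset V) (den nu : ℕ) (F : D → ℝ) (x : V) : ℝ :=
  den * (60 - 10 * S.rdeg x - (gdeg S x : ℝ)) - 5 * nu * (nul S T x : ℝ) + 10 *
    ∑ d, if S.M.v d = x ∧ S.real d = true then (if S.M.v (S.M.α d) ∈ U then F d else 0) else 0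

/-- DISCHARGING: some vertex of `U` keeps a positive charge -/
theorem DscP.discharge {U T : Finset V} {den nu : ℕ} (hD : DscP S U T den nu)
    (hra : ∀ d, S.real (S.M.α d) = S.real d) (F : D → ℝ)
    (hF : ∀ d, S.real d = true → S.M.v d ∈ U → S.M.v (S.M.α d) ∈ U → F (S.M.α d) = - F d) :
    ∃ x ∈ U, 0 < cdp S U T den nu F x := by
  classical
  by_contra hc
  push Not at hc
  have h1 : ∑ x ∈ U, cdp S U T den nu F x = 60 * den * U.card -
      10 * den * (∑ x ∈ U, S.rdeg x : ℕ) -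
      den * ((∑ x ∈ U, gdeg S x : ℕ) : ℝ) - 5 * nu * ((∑ x ∈ U, nul S T x : ℕ) : ℝ) := by
    unfold cdp
    rw [Finset.sum_add_distrib, ← Finset.mul_sum, sum_split, sum_flow hra hF, mul_zero, add_zero,
      Finset.sum_sub_distrib, ← Finset.mul_sum, ← Finset.mul_sum, Finset.sum_sub_distrib,
      Finset.sum_sub_distrib, Finset.sum_const, nsmul_eq_mul, ← Finset.mul_sum]
    push_cast
    ring
  have h2 : ∑ x ∈ U, cdp S U T den nu F x ≤ 0 := Finset.sum_nonpos fun x hx => hc x hx
  have h4 : 10 * (den : ℝ) * (∑ x ∈ U, S.rdeg x : ℕ) + den * (∑ x ∈ U, gdeg S x : ℕ) +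
      5 * nu * (∑ x ∈ U, nul S T x : ℕ) < 60 * den * U.card := by exact_mod_cast hD.cnt
  linarith

/-- the star inequality fails somewhere -/
theorem MC.star_fails (h : MC 6 S L w) (hS : IsStar S) {den nl nu : ℕ}
    (hD : DscP S U T den nu) (hnl : 5 * nl ≤ 8 * den) (fl : List ℕ → List ℕ → ℕ) :
    ∃ e : D, S.real e = true ∧ S.M.v e ∈ U ∧ 0 < stX S L (fun x => x ∈ U) den nl nu fl e := by
  classical
  have W := h.ok.toWf
  let F : D → ℝ := fun d => if S.M.v d ∈ U ∧ S.M.v (S.M.α d) ∈ U then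
    ((fl (lwo S L (S.M.α d)) (lwo S L d) : ℝ) - fl (lwo S L d) (lwo S L (S.M.α d))) else 0
  obtain ⟨x, hxU, hx⟩ := hD.discharge W.real_α F (fun d _ h1 h2 => by
    show (if S.M.v (S.M.α d) ∈ U ∧ S.M.v (S.M.α (S.M.α d)) ∈ U then _ else _) =
      -(if S.M.v d ∈ U ∧ S.M.v (S.M.α d) ∈ U then _ else _)
    rw [S.M.αα, if_pos ⟨h2, h1⟩, if_pos ⟨h1, h2⟩]
    ring)
  have hxA := hD.UA hxU
  have h4 := h.rdeg4 (le_refl 6) hxA
  obtain ⟨e, he, hre⟩ : ∃ e, S.M.v e = x ∧ S.real e = true := by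
    by_contra hc
    push Not at hc
    unfold rdeg at h4
    rw [Finset.sum_eq_zero] at h4
    · omega
    · intro e _
      rw [if_neg]
      rintro ⟨h1, h2⟩
      exact hc e h1 h2
  subst he
  set n := S.rdeg (S.M.v e) with hn
  have hlen : (lwo S L e).length = n := lwo_length
  have hr : ∀ i, S.real (S.nxr^[i] e) = true := fun i => hS.nxr_iter_real W hre i
  have hv : ∀ i, S.M.v (S.nxr^[i] e) = S.M.v e := fun i => v_nxr_iter i e
  have hrα : ∀ i, S.real (S.M.α (S.nxr^[i] e)) = true := fun i => by rw [W.real_α]; exact hr i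
  -- null neighbours
  have hnull : ∀ z, S.real z = true → (lwU S L (fun x => x ∈ U) z = [] ↔ S.M.v z ∉ U) := by
    intro z hz
    unfold lwU
    by_cases hU : S.M.v z ∈ U
    · rw [if_pos hU]
      exact ⟨fun h1 => absurd h1 (h.lwo_ne hS hz), fun h1 => absurd hU h1⟩
    · rw [if_neg hU]
      exact ⟨fun _ => hU, fun _ => rfl⟩
  have hTU : ∀ i, (S.M.v (S.M.α (S.nxr^[i] e)) ∈ T ↔ S.M.v (S.M.α (S.nxr^[i] e)) ∉ U) := by
    intro i
    constructor
    · intro h1 h2
      exact hD.dis _ h2 h1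
    · intro h1
      exact (hD.nb _ (hr i) (by rw [hv]; exact hxU)).resolve_left h1
  have hnul : nul S T (S.M.v e) = ∑ i ∈ Finset.range n,
      (if lwU S L (fun x => x ∈ U) (S.M.α (S.nxr^[i] e)) = [] then 1 else 0) := by
    have e1 : nul S T (S.M.v e) = ∑ z, if S.M.v z = S.M.v e ∧ S.real z = true then
        (if S.M.v (S.M.α z) ∈ T then 1 else 0) else 0 := by
      unfold nul
      refine Finset.sum_congr rfl fun z _ => ?_
      by_cases h1 : S.M.v z = S.M.v e ∧ S.real z = true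
      · by_cases h2 : S.M.v (S.M.α z) ∈ T
        · rw [if_pos ⟨h1.1, h1.2, h2⟩, if_pos h1, if_pos h2]
        · rw [if_neg (fun h => h2 h.2.2), if_pos h1, if_neg h2]
      · rw [if_neg (fun h => h1 ⟨h.1, h.2.1⟩), if_neg h1]
    rw [e1, h.sum_real hS hre]
    refine Finset.sum_congr rfl fun i _ => ?_
    by_cases h1 : S.M.v (S.M.α (S.nxr^[i] e)) ∈ T
    · rw [if_pos h1, if_pos ((hnull _ (hrα i)).2 ((hTU i).1 h1))]
    · rw [if_neg h1, if_neg (fun h2 => h1 ((hTU i).2 ((hnull _ (hrα i)).1 h2)))]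
  have hF : ∑ z, (if S.M.v z = S.M.v e ∧ S.real z = true then
      (if S.M.v (S.M.α z) ∈ U then F z else 0) else 0) =
      ∑ i ∈ Finset.range n, (if lwU S L (fun x => x ∈ U) (S.M.α (S.nxr^[i] e)) = [] then (0 : ℝ)
        else (fl (lwU S L (fun x => x ∈ U) (S.M.α (S.nxr^[i] e)))
          (lwU S L (fun x => x ∈ U) (S.nxr^[i] e)) : ℝ) -
        fl (lwU S L (fun x => x ∈ U) (S.nxr^[i] e))
          (lwU S L (fun x => x ∈ U) (S.M.α (S.nxr^[i] e)))) := by
    rw [h.sum_real hS hre]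
    refine Finset.sum_congr rfl fun i _ => ?_
    have hU1 : S.M.v (S.nxr^[i] e) ∈ U := by rw [hv]; exact hxU
    by_cases h1 : S.M.v (S.M.α (S.nxr^[i] e)) ∈ U
    · have h2 : ¬ lwU S L (fun x => x ∈ U) (S.M.α (S.nxr^[i] e)) = [] := fun h2 =>
        (hnull _ (hrα i)).1 h2 h1
      rw [if_pos h1, if_neg h2]
      show (if S.M.v (S.nxr^[i] e) ∈ U ∧ S.M.v (S.M.α (S.nxr^[i] e)) ∈ U then _ else _) = _
      rw [if_pos ⟨hU1, h1⟩]
      unfold lwU
      rw [if_pos h1, if_pos hU1]
    · rw [if_neg h1, if_pos ((hnull _ (hrα i)).2 h1)]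
  have hgw : (5 : ℝ) * (gws den nl (lwo S L e) : ℝ) ≤ den * (gdeg S (S.M.v e) : ℝ) := by
    exact_mod_cast h.gws_le hS hre hnl
  have key : cdp S U T den nu F (S.M.v e) ≤
      5 * (stX S L (fun x => x ∈ U) den nl nu fl e : ℝ) := by
    unfold cdp stX
    rw [hF, hnul, hlen, ← hn]
    push_cast
    nlinarith
  refine ⟨e, hre, hxU, ?_⟩
  have hx' := lt_of_lt_of_le hx key
  have hx2 : (0 : ℝ) < (stX S L (fun x => x ∈ U) den nl nu fl e : ℝ) := by linarith
  exact_mod_cast hx2

theorem Dsi.reg (hD : Dsi S U T) : Reg S (fun x => x ∈ U) :=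
  ⟨fun _ hx => hD.UA hx, hD.fc, hD.f4, hD.f1⟩

/-- the price of the null neighbours: at most two of them at each vertex -/
theorem Dsh.toP (hD : Dsh S U T) (hN : N1 S U T) (h : Rg S) (W : Wf 6 S L w) {den nu : ℕ}
    (hden : 0 < den) (hnu : 2 * nu < 3 * den) : DscP S U T den nu where
  UA := hD.UA
  dis := hD.dis
  nb := hD.nb
  cnt := by
    have pr : ∀ x ∈ U, pr4 S T x = 3 * nul S T x := by
      intro x hx
      have h2 := hN.nul_le h W hD.UA hx
      unfold pr4
      rw [if_neg]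
      rintro ⟨h3, -⟩
      omega
    have key : ∀ x ∈ U, 2 * nu * nul S T x ≤ den * pr4 S T x := by
      intro x hx
      rw [pr x hx]
      calc 2 * nu * nul S T x ≤ 3 * den * nul S T x := Nat.mul_le_mul_right _ hnu.le
        _ = den * (3 * nul S T x) := by ring
    have key' : ∀ x ∈ U, 0 < nul S T x → 2 * nu * nul S T x < den * pr4 S T x := by
      intro x hx h0
      rw [pr x hx]
      calc 2 * nu * nul S T x < 3 * den * nul S T x := Nat.mul_lt_mul_of_pos_right hnu h0
        _ = den * (3 * nul S T x) := by ring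
    have e1 : 2 * nu * ∑ x ∈ U, nul S T x ≤ den * ∑ x ∈ U, pr4 S T x := by
      rw [Finset.mul_sum, Finset.mul_sum]
      exact Finset.sum_le_sum key
    have e2 : den * (20 * ∑ x ∈ U, S.rdeg x + 2 * ∑ x ∈ U, gdeg S x +
        5 * ∑ x ∈ U, pr4 S T x) ≤ den * (120 * U.card) := Nat.mul_le_mul_left _ hD.cnt
    rcases hD.str with h1 | h1
    · have e3 := Nat.mul_lt_mul_of_pos_left h1 hden
      nlinarith
    · have e3 : 2 * nu * ∑ x ∈ U, nul S T x < den * ∑ x ∈ U, pr4 S T x := by
        rw [Finset.mul_sum, Finset.mul_sum]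
        obtain ⟨x, hx, h2⟩ : ∃ x ∈ U, 0 < nul S T x := by
          by_contra hc
          push Not at hc
          rw [Finset.sum_eq_zero fun x hx => Nat.le_zero.1 (hc x hx)] at h1
          exact lt_irrefl _ h1
        exact Finset.sum_lt_sum key ⟨x, hx, key' x hx h2⟩
      nlinarith

/-- a vertex outside `U` with two neighbours in `U` has at least five darts -/
def Nu5 (S : St D V) (U : V → Prop) : Prop :=
  ∀ z z', S.real z = true → S.real z' = true → S.M.v z = S.M.v z' → z ≠ z' →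
    ¬ U (S.M.v z) → U (S.M.v (S.M.α z)) → U (S.M.v (S.M.α z')) → 5 ≤ S.nd z

/-- two neighbours outside `U` of a vertex of `U` are consecutive -/
def Nu1 (S : St D V) (U : V → Prop) : Prop :=
  ∀ z z', S.real z = true → S.real z' = true → U (S.M.v z) → S.M.v z' = S.M.v z → z ≠ z' →
    ¬ U (S.M.v (S.M.α z)) → ¬ U (S.M.v (S.M.α z')) → z' = S.M.σ z ∨ z = S.M.σ z'

theorem Dsh.inT (hD : Dsh S U T) {z : D} (h1 : S.real z = true) (h2 : S.M.v z ∈ U)
    (h3 : S.M.v (S.M.α z) ∉ U) : S.M.v (S.M.α z) ∈ T := (hD.nb z h1 h2).resolve_left h3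

theorem Dsh.nu5 (hD : Dsh S U T) (hra : ∀ d, S.real (S.M.α d) = S.real d) :
    Nu5 S (fun x => x ∈ U) := by
  intro z z' h1 h2 h3 h4 h5 h6 h7
  have h8 := hD.inT (z := S.M.α z) (by rw [hra]; exact h1) h6 (by rw [S.M.αα]; exact h5)
  rw [S.M.αα] at h8
  exact hD.n5 z z' h8 h3.symm h4 h6 h7

theorem Dsh.nu1 (hD : Dsh S U T) (hN : N1 S U T) : Nu1 S (fun x => x ∈ U) := by
  intro z z' a1 a2 a3 a4 a5 a6 a7
  exact hN z z' a3 a4 a5 (hD.inT a1 a3 a6) (hD.inT a2 (by rw [a4]; exact a3) a7)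

/-- the region with two vertices -/
theorem Dsh.pair (hD : Dsh S U T) (hN : ¬ N1 S U T) (W : Wf 6 S L w) :
    ∃ x, S.real x = true ∧ S.M.v x ∈ U ∧ S.M.v (S.M.α x) ∈ U ∧
      (∀ z, S.M.v z ∈ U → S.real z = true ∧ S.rdeg (S.M.v z) = 4) ∧
      ∀ g, S.M.v g ∈ U → g ≠ x → g ≠ S.M.α x → S.M.v (S.M.α g) ∉ U := by
  classical
  obtain ⟨hc, h1⟩ := hD.n1.resolve_left hN
  have real : ∀ g, S.M.v g ∈ U → S.real g = true := by
    intro g hg
    exact real_all (h1 _ hg).2.1 rfl
  have one : ∀ u ∈ U, ∃ g, S.M.v g = u ∧ S.M.v (S.M.α g) ∈ U ∧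
      ∀ g', S.M.v g' = u → g' ≠ g → S.M.v (S.M.α g') ∉ U := by
    intro u hu
    obtain ⟨b1, b2, b3⟩ := h1 _ hu
    have e1 : S.rdeg u = nul S T u +
        (Finset.univ.filter fun g => S.M.v g = u ∧ S.M.v (S.M.α g) ∉ T).card := by
      unfold rdeg nul
      rw [Finset.card_filter, ← Finset.sum_add_distrib]
      refine Finset.sum_congr rfl fun g _ => ?_
      by_cases h2 : S.M.v g = u
      · have h3 := real g (by rw [h2]; exact hu)
        by_cases h4 : S.M.v (S.M.α g) ∈ T
        · rw [if_pos ⟨h2, h3⟩, if_pos ⟨h2, h3, h4⟩, if_neg fun h => h.2 h4]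
        · rw [if_pos ⟨h2, h3⟩, if_neg fun h => h4 h.2.2, if_pos ⟨h2, h4⟩]
      · rw [if_neg fun h => h2 h.1, if_neg fun h => h2 h.1, if_neg fun h => h2 h.1]
    rw [b1, b3] at e1
    have e2 : (Finset.univ.filter fun g => S.M.v g = u ∧ S.M.v (S.M.α g) ∉ T).card = 1 := by
      omega
    obtain ⟨g, hg⟩ := Finset.card_eq_one.1 e2
    have g1 : g ∈ Finset.univ.filter fun g => S.M.v g = u ∧ S.M.v (S.M.α g) ∉ T := by
      rw [hg]
      exact Finset.mem_singleton_self g
    have g2 := (Finset.mem_filter.1 g1).2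
    refine ⟨g, g2.1, (hD.nb g (real g (by rw [g2.1]; exact hu)) (by rw [g2.1]; exact hu)).resolve_right
      g2.2, fun g' h2 h3 h4 => ?_⟩
    have h5 : g' ∈ Finset.univ.filter fun g => S.M.v g = u ∧ S.M.v (S.M.α g) ∉ T :=
      Finset.mem_filter.2 ⟨Finset.mem_univ _, h2, fun h5 => hD.dis _ h4 h5⟩
    rw [hg] at h5
    exact h3 (Finset.mem_singleton.1 h5)
  obtain ⟨u, hu⟩ := hD.ne
  obtain ⟨x, x1, x2, x3⟩ := one u hu
  obtain ⟨y, y1, y2, y3⟩ := one _ x2
  have rx : S.real x = true := real x (by rw [x1]; exact hu)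
  have hxy : S.M.α x = y := by
    by_contra hne
    exact y3 (S.M.α x) rfl hne (by rw [S.M.αα, x1]; exact hu)
  refine ⟨x, rx, by rw [x1]; exact hu, x2, fun z hz => ⟨real z hz, (h1 _ hz).1⟩,
    fun g g1 g2 g3 => ?_⟩
  by_cases e1 : S.M.v g = u
  · exact x3 g e1 g2
  · by_cases e2 : S.M.v g = S.M.v (S.M.α x)
    · exact y3 g e2 (by rw [← hxy]; exact g3)
    · exfalso
      have : ({u, S.M.v (S.M.α x), S.M.v g} : Finset V) ⊆ U := by
        intro v hv
        simp only [Finset.mem_insert, Finset.mem_singleton] at hv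
        rcases hv with rfl | rfl | rfl
        exacts [hu, x2, g1]
      have h3 := Finset.card_le_card this
      have n1 : u ≠ S.M.v (S.M.α x) := by
        rw [← x1]
        exact W.real_ne x rx
      rw [Finset.card_insert_of_notMem (by
          simp only [Finset.mem_insert, Finset.mem_singleton, not_or]
          exact ⟨n1, fun h0 => e1 h0.symm⟩), Finset.card_insert_of_notMem (by
          simp only [Finset.mem_singleton]
          exact fun h0 => e2 h0.symm), Finset.card_singleton, hc] at h3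
      omega

/-- DISCHARGING: the star inequality fails somewhere, or the region has two vertices -/
theorem MC.assemble (h : MC 6 S L w) (hS : IsStar S) {den nl nu : ℕ} (hden : 0 < den)
    (hnl : 5 * nl ≤ 8 * den) (hnu : 2 * nu < 3 * den) (fl : List ℕ → List ℕ → ℕ) :
    (∃ U T, Dsi S U T ∧ ¬ N1 S U T) ∨ ∃ (U : V → Prop) (e : D), Reg S U ∧ Nu5 S U ∧ Nu1 S U ∧
      S.real e = true ∧ U (S.M.v e) ∧ 0 < stX S L U den nl nu fl e := by
  obtain ⟨U, T, hD, -⟩ := h.dsh3 (le_refl 6) hS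
  by_cases hN : N1 S U T
  · right
    obtain ⟨e, h1, h2, h3⟩ := h.star_fails hS (hD.toP hN (h.rg (le_refl 6)) h.ok.toWf hden hnu)
      hnl fl
    exact ⟨fun x => x ∈ U, e, hD.reg, hD.nu5 h.ok.real_α, hD.nu1 hN, h1, h2, h3⟩
  · exact Or.inl ⟨U, T, hD, hN⟩

end Pool.FC7
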