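import Pool.Agent.FC7.StL
import Pool.Agent.FCS.Bf

/-! # The statement of the star check -/

namespace Pool.FC7

/-- the word of a vertex with exactly four darts -/
def s4w (c : List ℕ) : Bool := decide (c.length = 4) && c.all lsol

/-- the fact has a centre, the neighbours exist, and a neighbour with at least five darts is next to a
neighbour with a word -/
def okX (X : FCS.Fct) : Bool :=
  !X.1.isEmpty && X.2.all fun p => decide (p.1 < X.1.length) && (!p.2.isEmpty ||
    X.2.any fun q => !q.2.isEmpty && decide (q.1 < X.1.length) &&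
      ((decide (q.1 = (p.1 + 1) % X.1.length) && lsol (X.1.getD p.1 0)) ||
        (decide (p.1 = (q.1 + 1) % X.1.length) && lsol (X.1.getD q.1 0))))

/-- the mirror image of a fact -/
def mirX (X : FCS.Fct) : FCS.Fct := (lmw X.1, lnb X.1.length X.2)

/-- the fact and its mirror image are well formed -/
def okf (X : FCS.Fct) : Bool := okX X && okX (mirX X)

/-- three words on a gap -/
def G4 {D : Type*} (Y : FCS.Sys D) (e : D) : Prop :=
  g4 ((Y.W e).map wl).sum ((Y.W e).getD 0 0) ((Y.W (Y.al e)).map wl).sum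
    ((Y.W (Y.al (Y.nx e))).map wl).sum ((Y.W (Y.al e)).getD ((Y.W (Y.al e)).length - 1) 0)
    ((Y.W (Y.al (Y.nx e))).getD 0 0) = true

/-- two words on a gap -/
def G2 {D : Type*} (Y : FCS.Sys D) (e : D) : Prop :=
  g2 ((Y.W e).map wl).sum ((Y.W e).getD 0 0) ((Y.W (Y.al e)).map wl).sum
    ((Y.W (Y.al e)).getD ((Y.W (Y.al e)).length - 1) 0) = true

/-- the property of the charge of the stars -/
def StarOk (facts : List FCS.Fct) (den nl nu : ℕ) (F : List ℕ → List ℕ → ℕ) : Prop :=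
  ∀ (D : Type) (Y : FCS.Sys D), Y.Ok cmpf lsol →
    (∀ e, Y.W e ≠ [] → glf (Y.W e) = true) →
    (∀ X ∈ facts, FCS.NoX lle lm lsol Y X) →
    (∀ e, Y.W e ≠ [] → FCS.Nr lsol Y e) →
    (∀ e, Y.W e ≠ [] → Y.W (Y.al e) ≠ [] → G2 Y e) →
    (∀ e, Y.W e ≠ [] → Y.W (Y.al e) ≠ [] → Y.W (Y.al (Y.nx e)) ≠ [] → G4 Y e) →
    ∀ e, Y.W e ≠ [] → FCS.chv lsol lng den nl nu F Y e ≤ 0

end Pool.FC7
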