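import Pool.Agent.FC7.AsA
import Pool.Agent.FC7.StD

/-! # The system of the words of letters in a minimal counterexample -/

open Finset

set_option linter.unusedSectionVars false

namespace Pool.FC7

open Pool.FC6 Pool.FC6.St

variable {D V : Type} [Fintype D] [DecidableEq V]

theorem nxr_modA {S : St D V} {L : D → Bool} {w : D → ℕ} {d : D} (hS : IsStar S)
    (W : Wf 6 S L w) (hd : S.real d = true) (i : ℕ) :
    S.nxr^[i % S.rdeg (S.M.v d)] d = S.nxr^[i] d := by
  have hp : Function.IsPeriodicPt S.nxr (S.rdeg (S.M.v d)) d := hS.nxr_rdeg W hd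
  exact hp.iterate_mod_apply i

/-- the system of the words at the vertices of `U` -/
noncomputable def wsy (S : St D V) (L : D → Bool) (U : V → Prop) : FCS.Sys D where
  nx x := if S.real x = true then S.nxr x else x
  al x := if S.real x = true then S.M.α x else x
  W x := if S.real x = true then lwU S L U x else []

variable {S : St D V} {L : D → Bool} {w : D → ℕ} {U : V → Prop} {d e r x : D}

theorem wsy_nx (hd : S.real d = true) : (wsy S L U).nx d = S.nxr d := if_pos hd

theorem wsy_al (hd : S.real d = true) : (wsy S L U).al d = S.M.α d := if_pos hd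

theorem wsy_W (hd : S.real d = true) : (wsy S L U).W d = lwU S L U d := if_pos hd

theorem wsy_real (hd : (wsy S L U).W d ≠ []) : S.real d = true := by
  by_contra h
  exact hd (if_neg h)

theorem wsy_U (hd : (wsy S L U).W d ≠ []) : U (S.M.v d) := by
  by_contra h
  apply hd
  rw [wsy_W (wsy_real hd)]
  exact if_neg h

theorem wsy_lwo (hd : (wsy S L U).W d ≠ []) : (wsy S L U).W d = lwo S L d := by
  rw [wsy_W (wsy_real hd)]
  exact if_pos (wsy_U hd)

section mc

variable (h : MC 6 S L w) (hS : IsStar S)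

include h hS

theorem MC.wsy_ne (hd : S.real d = true) : (wsy S L U).W d ≠ [] ↔ U (S.M.v d) := by
  refine ⟨wsy_U, fun hU => ?_⟩
  rw [wsy_W hd]
  unfold lwU
  rw [if_pos hU]
  exact h.lwo_ne hS hd

theorem MC.wsy_iter (hd : S.real d = true) (i : ℕ) : (wsy S L U).nx^[i] d = S.nxr^[i] d := by
  induction i with
  | zero => rfl
  | succ i ih =>
    rw [Function.iterate_succ_apply', ih, Function.iterate_succ_apply',
      wsy_nx (hS.nxr_iter_real h.ok.toWf hd i)]

theorem MC.wsy_glw (hd : (wsy S L U).W d ≠ []) : glw ((wsy S L U).W d) = true := by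
  rw [wsy_lwo hd]
  exact h.lwo_glw hS (wsy_real hd)

end mc

theorem wl_pos (l : ℕ) : 1 ≤ wl l := by
  unfold wl
  split_ifs <;> norm_num

theorem length_le_wl (c : List ℕ) : c.length ≤ (c.map wl).sum := by
  induction c with
  | nil => simp
  | cons x t ih =>
    rw [List.length_cons, List.map_cons, List.sum_cons]
    have := wl_pos x
    omega

theorem glw_len {c : List ℕ} (h : glw c = true) : 4 ≤ c.length ∧ c.length ≤ 6 := by
  unfold glw at h
  simp only [Bool.and_eq_true, decide_eq_true_eq] at h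
  have := length_le_wl c
  omega

theorem glw_sm {c : List ℕ} (h : glw c = true) : ∀ x ∈ c, x ≤ 26 := by
  unfold glw at h
  simp only [Bool.and_eq_true, decide_eq_true_eq, List.all_eq_true] at h
  intro x hx
  have h1 := h.1.1.2 x hx
  unfold lal at h1
  simp only [Bool.and_eq_true, decide_eq_true_eq, Bool.or_eq_true] at h1
  omega

theorem sm_of_glw {c : List ℕ} (h : glw c = true) : FCS.Sm c := fun x hx => by
  have := glw_sm h x hx
  omega

theorem lal_lt {x : ℕ} (h : lal x = true) : x < 27 := by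
  unfold lal at h
  simp only [Bool.and_eq_true, decide_eq_true_eq, Bool.or_eq_true] at h
  omega

/-- a relation for all compatible letters -/
theorem cmpf_all {f : ℕ → ℕ → Bool} (h : ((List.range 27).all fun x => (List.range 27).all fun y =>
    !cmpf x y || f x y) = true) {x y : ℕ} (hxy : cmpf x y = true) : f x y = true := by
  have h0 := hxy
  unfold cmpf at h0
  rw [Bool.and_eq_true, Bool.and_eq_true] at h0
  rw [List.all_eq_true] at h
  have h1 := h x (List.mem_range.2 (lal_lt h0.1.1))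
  rw [List.all_eq_true] at h1
  have h2 := h1 y (List.mem_range.2 (lal_lt h0.1.2))
  rw [hxy] at h2
  simpa using h2

theorem glw_lal {c : List ℕ} (h : glw c = true) : ∀ x ∈ c, lal x = true := by
  unfold glw at h
  simp only [Bool.and_eq_true, decide_eq_true_eq, List.all_eq_true] at h
  exact h.1.1.2

theorem getD_mem {c : List ℕ} {i : ℕ} (h : i < c.length) : c.getD i 0 ∈ c := by
  rw [List.getD_eq_getElem _ _ h]
  exact List.getElem_mem _

/-- the properties of the words -/
theorem MC.wsy_ok (h : MC 6 S L w) (hS : IsStar S) : (wsy S L U).Ok cmpf lsol := by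
  have W := h.ok.toWf
  have rα : ∀ {x}, S.real x = true → S.real (S.M.α x) = true := fun hx => by
    rw [W.real_α]; exact hx
  have rn : ∀ {x}, S.real x = true → S.real (S.nxr x) = true := fun hx => hS.nxr_real W hx
  have vU : ∀ {x}, (wsy S L U).W x ≠ [] → (wsy S L U).W (S.nxr x) ≠ [] := by
    intro x hx
    have hr := wsy_real hx
    rw [h.wsy_ne hS (rn hr), v_nxr]
    exact wsy_U hx
  refine ⟨fun e => ?_, fun e he => glw_len (h.wsy_glw hS he), fun e he => ?_, fun e he => ?_,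
    fun e he => ?_, fun e => ?_, fun e he ha => ?_, fun e he hs => ?_⟩
  · by_cases he : (wsy S L U).W e = []
    · rw [he]
      intro x hx
      simp at hx
    · exact sm_of_glw (h.wsy_glw hS he)
  · by_cases hr : S.real e = true
    · rw [wsy_nx hr] at he
      rw [h.wsy_ne hS hr]
      have := wsy_U he
      rwa [v_nxr] at this
    · have : (wsy S L U).nx e = e := if_neg hr
      rwa [this] at he
  · have hr := wsy_real he
    rw [wsy_nx hr, wsy_lwo (vU he), wsy_lwo he]
    exact h.lwo_rot hS hr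
  · have hr := wsy_real he
    rw [h.wsy_iter hS hr, wsy_lwo he, lwo_length]
    exact hS.nxr_rdeg W hr
  · by_cases hr : S.real e = true
    · rw [wsy_al hr, wsy_al (rα hr), S.M.αα]
    · have h1 : (wsy S L U).al e = e := if_neg hr
      rw [h1, h1]
  · have hr := wsy_real he
    have g1 := h.wsy_glw hS he
    have g2 := h.wsy_glw hS ha
    have l1 := glw_len g1
    have l2 := glw_len g2
    unfold cmpf
    rw [glw_lal g1 _ (getD_mem (by omega)), glw_lal g2 _ (getD_mem (by omega)), Bool.true_and,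
      Bool.true_and, wsy_lwo ha, wsy_lwo he, wsy_al hr]
    exact h.cmpw hS hr
  · have hr := wsy_real he
    rw [wsy_lwo he, h.lwo_getD hS hr (by have := h.rdeg_pos hS hr; omega)] at hs
    obtain ⟨r, h1, h2, h3⟩ := h.tri hS hr hs
    refine ⟨r, ?_, ?_⟩
    · rw [wsy_nx h1, wsy_al hr, h2]
    · rw [wsy_al h1, wsy_nx hr, wsy_al (rn hr), wsy_nx (rα (rn hr)), h3]

theorem gsv_gws (den nl : ℕ) (c : List ℕ) : FCS.gsv lsol lng den nl c = gws den nl c := by
  unfold FCS.gsv gws
  congr 1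
  refine List.map_congr_left fun x _ => ?_
  unfold gw
  cases lsol x
  · cases lng x <;> rfl
  · rfl

theorem enc_ne {c : List ℕ} (h : c ≠ []) : FCS.enc c ≠ 0 := by
  cases c with
  | nil => exact absurd rfl h
  | cons x t => rw [FCS.enc_cons]; omega

/-- the sum of the star inequality -/
theorem MC.chv_eq (h : MC 6 S L w) (hS : IsStar S) {den nl nu : ℕ} {F : List ℕ → List ℕ → ℕ}
    (he : (wsy S L U).W e ≠ []) :
    FCS.chv lsol lng den nl nu F (wsy S L U) e = stX S L U den nl nu F e := by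
  have W := h.ok.toWf
  have hr := wsy_real he
  have key : ∀ i, FCS.gav nu F ((wsy S L U).W ((wsy S L U).nx^[i] e))
        ((wsy S L U).W ((wsy S L U).al ((wsy S L U).nx^[i] e))) =
      (-(nu : ℤ)) * (if lwU S L U (S.M.α (S.nxr^[i] e)) = [] then 1 else 0) +
      2 * (if lwU S L U (S.M.α (S.nxr^[i] e)) = [] then (0 : ℤ)
      else (F (lwU S L U (S.M.α (S.nxr^[i] e))) (lwU S L U (S.nxr^[i] e)) : ℤ) -
        F (lwU S L U (S.nxr^[i] e)) (lwU S L U (S.M.α (S.nxr^[i] e)))) := by
    intro i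
    have hri := hS.nxr_iter_real W hr i
    have hrα : S.real (S.M.α (S.nxr^[i] e)) = true := by rw [W.real_α]; exact hri
    rw [h.wsy_iter hS hr]
    unfold FCS.gav
    rw [wsy_al hri, wsy_W hri, wsy_W hrα]
    by_cases h1 : lwU S L U (S.M.α (S.nxr^[i] e)) = []
    · rw [if_pos h1, if_pos h1, if_pos h1]
      ring
    · rw [if_neg h1, if_neg h1, if_neg h1]
      ring
  unfold FCS.chv stX
  rw [Finset.sum_congr rfl fun i _ => key i, Finset.sum_add_distrib, ← Finset.mul_sum,
    ← Finset.mul_sum, wsy_lwo he, gsv_gws]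
  ring

theorem llw_nil {c t : List ℕ} (h : llw c t = true) (hc : c ≠ []) : t ≠ [] := by
  rintro rfl
  have h1 := llw_len h
  rw [List.length_nil, List.length_eq_zero_iff] at h1
  exact hc h1

theorem llw_lew : ∀ {c t : List ℕ}, FCS.lew lle c t = true → llw c t = true
  | [], [], _ => rfl
  | [], _ :: _, h => absurd h (by simp [FCS.lew])
  | _ :: _, [], h => absurd h (by simp [FCS.lew])
  | x :: c, y :: t, h => by
    have h1 : (lle x y && FCS.lew lle c t) = true := h
    rw [Bool.and_eq_true] at h1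
    show (lle x y && llw c t) = true
    rw [Bool.and_eq_true]
    exact ⟨h1.1, llw_lew h1.2⟩

section nd

variable (h : MC 6 S L w) (hS : IsStar S)

include h hS

theorem MC.rdeg_nd (z : D) : S.rdeg (S.M.v z) ≤ S.nd z := by
  unfold St.rdeg St.nd
  rw [Finset.card_filter]
  refine Finset.sum_le_sum fun x _ => ?_
  by_cases h1 : S.M.v x = S.M.v z
  · rw [if_pos h1]
    split_ifs <;> norm_num
  · rw [if_neg h1, if_neg fun h2 => h1 h2.1]

theorem MC.rdeg_nd' {z g : D} (hg : S.M.v g = S.M.v z) (hr : ¬ S.real g = true) :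
    S.rdeg (S.M.v z) < S.nd z := by
  unfold St.rdeg St.nd
  rw [Finset.card_filter]
  refine Finset.sum_lt_sum (fun x _ => ?_) ⟨g, Finset.mem_univ g, ?_⟩
  · by_cases h1 : S.M.v x = S.M.v z
    · rw [if_pos h1]
      split_ifs <;> norm_num
    · rw [if_neg h1, if_neg fun h2 => h1 h2.1]
  · rw [if_neg fun h2 => hr h2.2, if_pos hg]
    norm_num

/-- the word of a vertex with four darts -/
theorem MC.nd_five {z : D} (hz : S.real z = true) (hw : s4w (lwo S L z) = false) :
    5 ≤ S.nd z := by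
  have h4 := h.rdeg_pos hS hz
  by_cases h5 : 5 ≤ S.rdeg (S.M.v z)
  · exact h5.trans (h.rdeg_nd hS z)
  · have h6 : S.rdeg (S.M.v z) = 4 := by omega
    have h7 : ∃ i < 4, ¬ S.real (S.M.σ (S.nxr^[i] z)) = true := by
      by_contra h8
      push Not at h8
      unfold s4w at hw
      rw [lwo_length, h6] at hw
      rw [decide_eq_true (rfl : 4 = 4), Bool.true_and, Bool.eq_false_iff] at hw
      apply hw
      rw [List.all_eq_true]
      intro l hl
      obtain ⟨i, hi, rfl⟩ := List.getElem_of_mem hl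
      rw [lwo_length, h6] at hi
      rw [← List.getD_eq_getElem _ 0, h.lwo_getD hS hz (by omega),
        h.lsol_iff hS (hS.nxr_iter_real h.ok.toWf hz i), decide_eq_true_eq]
      exact h8 i hi
    obtain ⟨i, _, hi⟩ := h7
    have h9 := h.rdeg_nd' hS (z := z) (g := S.M.σ (S.nxr^[i] z)) (by
      rw [S.M.vσ, v_nxr_iter]) hi
    omega

/-- the word at a real dart -/
theorem MC.wsy_getD (hd : (wsy S L U).W d ≠ []) {i : ℕ} (hi : i < S.rdeg (S.M.v d)) :
    ((wsy S L U).W d).getD i 0 = lto S L (S.nxr^[i] d) := by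
  rw [wsy_lwo hd]
  exact h.lwo_getD hS (wsy_real hd) hi

/-- a vertex outside `U` on a triangle with two vertices in `U` -/
theorem MC.nul_nd (hN : Nu5 S U) (he : S.real e = true) (hU : U (S.M.v e)) {i j : ℕ}
    (hi : i < S.rdeg (S.M.v e)) (hj : j < S.rdeg (S.M.v e))
    (hn : ¬ U (S.M.v (S.M.α (S.nxr^[i] e)))) (hm : U (S.M.v (S.M.α (S.nxr^[j] e))))
    (hs : (j = (i + 1) % S.rdeg (S.M.v e) ∧ lsol (lto S L (S.nxr^[i] e)) = true) ∨
      (i = (j + 1) % S.rdeg (S.M.v e) ∧ lsol (lto S L (S.nxr^[j] e)) = true)) :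
    5 ≤ S.nd (S.M.α (S.nxr^[i] e)) := by
  have W := h.ok.toWf
  have hri := fun i => hS.nxr_iter_real W he i
  have rα : ∀ {x}, S.real x = true → S.real (S.M.α x) = true := fun hx => by
    rw [W.real_α]; exact hx
  rcases hs with ⟨rfl, hs⟩ | ⟨rfl, hs⟩
  · -- the next neighbour
    obtain ⟨r, r1, r2, r3⟩ := h.tri hS (hri i) hs
    rw [nxr_modA hS W he, Function.iterate_succ_apply'] at hm
    have hv : S.M.v (S.M.α (S.nxr^[i] e)) = S.M.v r := by rw [← r2, v_nxr]
    refine hN (S.M.α (S.nxr^[i] e)) r (rα (hri i)) r1 hv ?_ hn ?_ ?_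
    · rw [← r2]
      exact (h.nxr_ne (le_refl 6) hS r1).1
    · rw [S.M.αα, v_nxr_iter]
      exact hU
    · rw [r3, v_nxr]
      exact hm
  · -- the neighbour before
    obtain ⟨r, r1, r2, r3⟩ := h.tri hS (hri j) hs
    rw [nxr_modA hS W he, Function.iterate_succ_apply'] at hn ⊢
    set g := S.nxr (S.nxr^[j] e) with hg
    have hrg : S.real g = true := hS.nxr_real W (hri j)
    refine hN (S.M.α g) (S.nxr (S.M.α g)) (rα hrg) (hS.nxr_real W (rα hrg)) (v_nxr _).symm
      (h.nxr_ne (le_refl 6) hS (rα hrg)).1.symm hn ?_ ?_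
    · rw [S.M.αα, hg, v_nxr, v_nxr_iter]
      exact hU
    · rw [← r3, S.M.αα]
      have h1 : S.M.v r = S.M.v (S.M.α (S.nxr^[j] e)) := by rw [← r2, v_nxr]
      rw [h1]
      exact hm

end nd

theorem s4w_iff {c : List ℕ} : s4w c = true ↔ c.length = 4 ∧ ∀ x ∈ c, lsol x = true := by
  unfold s4w
  rw [Bool.and_eq_true, decide_eq_true_eq, List.all_eq_true]

/-- a fact which does not occur -/
theorem NoL.noMtn {X : FCS.Fct} (hX : NoL X.1 X.2) (hok : okX X = true)
    (h : MC 6 S L w) (hS : IsStar S) (hR : Reg S U) (hC : Can S w) (hN : Nu5 S U) (e : D) :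
    ¬ FCS.Mtn lle lsol (wsy S L U) X e := by
  have W := h.ok.toWf
  unfold okX at hok
  rw [Bool.and_eq_true, List.all_eq_true] at hok
  rintro ⟨h1, h2⟩
  have h1 := llw_lew h1
  have a1 := llw_nil h1 (by
    intro h0
    rw [h0] at hok
    exact absurd hok.1 (by simp))
  have hr := wsy_real a1
  have hU := wsy_U a1
  rw [wsy_lwo a1] at h1
  have hln := llw_len h1
  rw [lwo_length] at hln
  have hri := fun i => hS.nxr_iter_real W hr i
  have rα : ∀ {x}, S.real x = true → S.real (S.M.α x) = true := fun hx => by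
    rw [W.real_α]; exact hx
  have key : ∀ p ∈ X.2, p.2 ≠ [] → U (S.M.v (S.M.α (S.nxr^[p.1] e))) ∧
      llw p.2 (lwo S L (S.M.α (S.nxr^[p.1] e))) = true := by
    intro p hp h0
    have h3 := llw_lew ((h2 p hp).2 h0)
    rw [h.wsy_iter hS hr, wsy_al (hri p.1)] at h3
    have b1 := llw_nil h3 h0
    exact ⟨wsy_U b1, by rw [← wsy_lwo b1]; exact h3⟩
  have sol : ∀ i < X.1.length, lsol (X.1.getD i 0) = lsol (lto S L (S.nxr^[i] e)) := by
    intro i hi
    have h3 := llw_getD h1 hi
    rw [h.lwo_getD hS hr (by rw [← hln]; exact hi)] at h3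
    exact lle_sol h3
  refine hX D V S L w U h hS hR hC e ⟨hr, hU, h1, fun p hp h0 => (key p hp h0).1,
    fun p hp h0 => (key p hp h0).2, fun p hp h0 => ?_⟩
  have h3 := hok.2 p hp
  rw [h0] at h3
  simp only [List.isEmpty_nil, Bool.not_true, Bool.false_or, Bool.and_eq_true,
    decide_eq_true_eq, List.any_eq_true, Bool.or_eq_true, Bool.not_eq_true'] at h3
  obtain ⟨c1, q, q1, ⟨q2, q3⟩, q4⟩ := h3
  have h4 := (h2 p hp).1 h0
  rw [h.wsy_iter hS hr, wsy_al (hri p.1)] at h4
  by_cases h6 : (wsy S L U).W (S.M.α (S.nxr^[p.1] e)) = []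
  · have hn : ¬ U (S.M.v (S.M.α (S.nxr^[p.1] e))) := fun hc =>
      ((h.wsy_ne hS (rα (hri p.1))).2 hc) h6
    have hq : q.2 ≠ [] := by
      intro hc
      rw [hc] at q2
      exact absurd q2 (by simp)
    refine h.nul_nd hS hN hr hU (by rw [← hln]; exact c1) (by rw [← hln]; exact q3) hn
      (key q q1 hq).1 ?_
    rw [← hln, ← sol _ c1, ← sol _ q3]
    exact q4
  · rcases h4 with h4 | h4
    · exact absurd h4 h6
    · rw [wsy_lwo h6, ← s4w_iff] at h4
      exact h.nd_five hS (rα (hri p.1)) (by simpa using h4)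

/-- the mirror image of a fact -/
theorem NoL.mirX {X : FCS.Fct} (hX : NoL X.1 X.2) (hok : okX X = true) :
    NoL (mirX X).1 (mirX X).2 := by
  refine hX.mir ?_
  unfold okX at hok
  rw [Bool.and_eq_true, List.all_eq_true] at hok
  rw [List.all_eq_true]
  intro p hp
  have := hok.2 p hp
  rw [Bool.and_eq_true] at this
  exact this.1

theorem nxt_mod {n i : ℕ} (hi : i < n) : (i + 1) % n = FCS.nxt n i := by
  unfold FCS.nxt
  cases h : Nat.beq (Nat.succ i) n with
  | true =>
    have := Nat.eq_of_beq_eq_true h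
    show (i + 1) % n = 0
    rw [show i + 1 = n from this, Nat.mod_self]
  | false =>
    have := Nat.ne_of_beq_eq_false h
    show (i + 1) % n = i + 1
    exact Nat.mod_eq_of_lt (by omega)

theorem nxr_iter_inj (hS : IsStar S) (W : Wf 6 S L w) (he : S.real e = true) {i j : ℕ}
    (hi : i < S.rdeg (S.M.v e)) (hj : j < S.rdeg (S.M.v e))
    (h : S.nxr^[i] e = S.nxr^[j] e) : i = j := by
  have key : ∀ i j : ℕ, i < j → j < S.rdeg (S.M.v e) → S.nxr^[i] e ≠ S.nxr^[j] e := by
    intro i j hij hj h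
    have h1 : S.nxr^[j] e = S.nxr^[j - i] (S.nxr^[i] e) := by
      rw [← Function.iterate_add_apply]
      congr 1
      omega
    rw [h1] at h
    exact hS.nxr_ne W (hS.nxr_iter_real W he i) (j := j - i) (by omega)
      (by rw [v_nxr_iter]; omega) h.symm
  rcases lt_trichotomy i j with h1 | h1 | h1
  · exact absurd h (key i j h1 hj)
  · exact h1
  · exact absurd h.symm (key j i h1 hi)

section nul

variable (h : MC 6 S L w) (hS : IsStar S)

include h hS

theorem MC.nb_zero (he : (wsy S L U).W e ≠ []) {i : ℕ} :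
    (wsy S L U).nb e i = 0 ↔ ¬ U (S.M.v (S.M.α (S.nxr^[i] e))) := by
  have hr := wsy_real he
  have hri := hS.nxr_iter_real h.ok.toWf hr i
  have hrα : S.real (S.M.α (S.nxr^[i] e)) = true := by rw [h.ok.real_α]; exact hri
  unfold FCS.Sys.nb FCS.Sys.c
  rw [h.wsy_iter hS hr, wsy_al hri]
  constructor
  · intro h1 h2
    exact enc_ne ((h.wsy_ne hS hrα).2 h2) h1
  · intro h1
    have h2 : (wsy S L U).W (S.M.α (S.nxr^[i] e)) = [] := by
      by_contra h2
      exact h1 ((h.wsy_ne hS hrα).1 h2)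
    rw [h2]
    rfl

/-- the word of a solid vertex of degree four -/
theorem MC.solid4 {z : D} (hz : S.real z = true) (hU : U (S.M.v z)) (h4 : S.rdeg (S.M.v z) = 4)
    (hr : ∀ g, S.M.v g = S.M.v z → S.real g = true) :
    ((wsy S L U).W z).length = 4 ∧ ∀ x ∈ (wsy S L U).W z, lsol x = true := by
  have h0 := (h.wsy_ne hS hz).2 hU
  rw [wsy_lwo h0]
  refine ⟨by rw [lwo_length, h4], fun l hl => ?_⟩
  obtain ⟨i, hi, rfl⟩ := List.getElem_of_mem hl
  rw [lwo_length] at hi
  rw [← List.getD_eq_getElem _ 0, h.lwo_getD hS hz hi,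
    h.lsol_iff hS (hS.nxr_iter_real h.ok.toWf hz i), decide_eq_true_eq]
  exact hr _ (by rw [S.M.vσ, v_nxr_iter])

/-- the rule of the null neighbours -/
theorem MC.nr (hN : Nu1 S U) (he : (wsy S L U).W e ≠ []) : FCS.Nr lsol (wsy S L U) e := by
  have W := h.ok.toWf
  have hr := wsy_real he
  have hU := wsy_U he
  have hri := fun i => hS.nxr_iter_real W hr i
  have hln : ((wsy S L U).W e).length = S.rdeg (S.M.v e) := by rw [wsy_lwo he, lwo_length]
  have key : ∀ i < S.rdeg (S.M.v e), ∀ j < S.rdeg (S.M.v e), S.nxr^[j] e = S.M.σ (S.nxr^[i] e) →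
      j = FCS.nxt (S.rdeg (S.M.v e)) i ∧ lsol (((wsy S L U).W e).getD i 0) = true := by
    intro i hi j hj h2
    have h3 : S.real (S.M.σ (S.nxr^[i] e)) = true := by rw [← h2]; exact hri j
    refine ⟨?_, ?_⟩
    · rw [← nxt_mod hi]
      refine nxr_iter_inj hS W hr hj (Nat.mod_lt _ (by omega)) ?_
      rw [nxr_modA hS W hr, Function.iterate_succ_apply', h2]
      exact (if_pos h3).symm
    · rw [h.wsy_getD hS he hi, h.lsol_iff hS (hri i)]
      exact decide_eq_true h3
  intro i hi j hj hij h2 h3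
  rw [hln] at hi hj ⊢
  rw [h.nb_zero hS he] at h2 h3
  have hne : S.nxr^[i] e ≠ S.nxr^[j] e := fun hc => hij (nxr_iter_inj hS W hr hi hj hc)
  rcases hN (S.nxr^[i] e) (S.nxr^[j] e) (hri i) (hri j) (by rw [v_nxr_iter]; exact hU)
    (by rw [v_nxr_iter, v_nxr_iter]) hne h2 h3 with h4 | h4
  · exact Or.inl (key i hi j hj h4)
  · exact Or.inr (key j hj i hi h4)

end nul

/-- two solid words of length four whose other neighbours are outside -/
structure Sp2 {D : Type*} (Y : FCS.Sys D) (x : D) : Prop where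
  l1 : (Y.W x).length = 4
  s1 : ∀ l ∈ Y.W x, lsol l = true
  l2 : (Y.W (Y.al x)).length = 4
  s2 : ∀ l ∈ Y.W (Y.al x), lsol l = true
  n1 : ∀ j, 1 ≤ j → j < 4 → Y.nb x j = 0
  n2 : ∀ j, 1 ≤ j → j < 4 → Y.nb (Y.al x) j = 0
  sp : sp2 (Y.W x) (Y.W (Y.al x)) = true

/-- the region with two vertices -/
theorem Dsh.sp2 {U T : Finset V} (hD : Dsh S U T) (hN : ¬ N1 S U T) (h : MC 6 S L w)
    (hS : IsStar S) (hC : Can S w) (f1 : F1) (f2 : F2) (f3 : F3) :
    ∃ x, Sp2 (wsy S L (fun v => v ∈ U)) x := by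
  have W := h.ok.toWf
  obtain ⟨x, rx, x1, x2, x3, x4⟩ := hD.pair hN W
  have ry : S.real (S.M.α x) = true := by rw [W.real_α]; exact rx
  have hall : ∀ z, S.real z = true → S.M.v z ∈ U → ∀ g, S.M.v g = S.M.v z → S.real g = true :=
    fun z hz hU g hg => (x3 g (by rw [hg]; exact hU)).1
  have hx0 := (h.wsy_ne (U := fun v => v ∈ U) hS rx).2 x1
  have hy0 := (h.wsy_ne (U := fun v => v ∈ U) hS ry).2 x2
  obtain ⟨a1, a2⟩ := h.solid4 (U := fun v => v ∈ U) hS rx x1 (x3 _ x1).2 (hall _ rx x1)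
  obtain ⟨b1, b2⟩ := h.solid4 (U := fun v => v ∈ U) hS ry x2 (x3 _ x2).2 (hall _ ry x2)
  have ex : (wsy S L (fun v => v ∈ U)).al x = S.M.α x := wsy_al rx
  have key : ∀ z, S.real z = true → S.M.v z ∈ U → (z = x ∨ z = S.M.α x) → ∀ j, 1 ≤ j → j < 4 →
      (wsy S L (fun v => v ∈ U)).nb z j = 0 := by
    intro z hz hU hzx j j1 j2
    rw [h.nb_zero hS ((h.wsy_ne (U := fun v => v ∈ U) hS hz).2 hU)]
    have n1 : S.nxr^[j] z ≠ z := hS.nxr_ne W hz (by omega) (by rw [(x3 _ hU).2]; exact j2)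
    have v1 : S.M.v (S.nxr^[j] z) = S.M.v z := v_nxr_iter _ _
    have n3 : S.M.v x ≠ S.M.v (S.M.α x) := W.real_ne x rx
    rcases hzx with rfl | rfl
    · refine x4 _ (by rw [v1]; exact x1) n1 fun h0 => n3 ?_
      rw [← v1, h0]
    · refine x4 _ (by rw [v1]; exact x2) (fun h0 => n3 ?_) n1
      rw [← v1, h0]
  refine ⟨x, a1, a2, by rw [ex]; exact b1, by rw [ex]; exact b2, key x rx x1 (Or.inl rfl),
    by rw [ex]; exact key _ ry x2 (Or.inr rfl), ?_⟩
  rw [ex, wsy_lwo hx0, wsy_lwo hy0]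
  exact h.sp2_ok hS hC f1 f2 f3 hD hN rx x1 x2

theorem mirX_eq (X : FCS.Fct) : FCS.mirX lm X = mirX X := by
  unfold FCS.mirX mirX lnb
  have e1 : ∀ c : List ℕ, FCS.mirw lm c = lmw c := by
    intro c
    unfold FCS.mirw lmw
    rw [List.map_reverse]
  rw [e1]
  simp only [e1]

/-- the words on a gap -/
theorem MC.wsy_g4 (h : MC 6 S L w) (hS : IsStar S) (hC : Can S w) (hR : Reg S U)
    (he : (wsy S L U).W e ≠ []) (ha : (wsy S L U).W ((wsy S L U).al e) ≠ [])
    (hb : (wsy S L U).W ((wsy S L U).al ((wsy S L U).nx e)) ≠ []) : G4 (wsy S L U) e := by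
  have W := h.ok.toWf
  have hr := wsy_real he
  have hrn := hS.nxr_real W hr
  have hrα : S.real (S.M.α e) = true := by rw [W.real_α]; exact hr
  have hrm : S.real (S.M.α (S.nxr e)) = true := by rw [W.real_α]; exact hrn
  rw [wsy_al hr] at ha
  rw [wsy_nx hr, wsy_al hrn] at hb
  unfold G4
  rw [wsy_nx hr, wsy_al hr, wsy_al hrn, wsy_lwo he, wsy_lwo ha, wsy_lwo hb]
  obtain ⟨r, r1, r2, r3⟩ := h.lst_eq hS hrα (k := 0) (by norm_num)
  have e1 : (lwo S L (S.M.α e)).getD ((lwo S L (S.M.α e)).length - 1) 0 = lto S L r := r3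
  have h4 := h.rdeg_pos hS hr
  have h5 := h.rdeg_pos hS hrm
  rw [e1, h.lwo_getD hS hr (by omega), h.lwo_getD hS hrm (by omega), h.wt_lwo hS hr,
    h.wt_lwo hS hrα, h.wt_lwo hS hrm]
  exact h.g4_ok hS hC hR hr (wsy_U he) r1 r2

/-- two words on a gap -/
theorem MC.wsy_g2 (h : MC 6 S L w) (hS : IsStar S) (hC : Can S w)
    (he : (wsy S L U).W e ≠ []) (ha : (wsy S L U).W ((wsy S L U).al e) ≠ []) :
    G2 (wsy S L U) e := by
  have W := h.ok.toWf
  have hr := wsy_real he
  have hrα : S.real (S.M.α e) = true := by rw [W.real_α]; exact hr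
  rw [wsy_al hr] at ha
  unfold G2
  rw [wsy_al hr, wsy_lwo he, wsy_lwo ha]
  obtain ⟨r, r1, r2, r3⟩ := h.lst_eq hS hrα (k := 0) (by norm_num)
  have e1 : (lwo S L (S.M.α e)).getD ((lwo S L (S.M.α e)).length - 1) 0 = lto S L r := r3
  have h4 := h.rdeg_pos hS hr
  rw [e1, h.lwo_getD hS hr (by omega), h.wt_lwo hS hr, h.wt_lwo hS hrα]
  exact h.g2_ok hS hC hr r1 r2

/-- two solid words of length four whose other neighbours are outside do not occur -/
def NoSp (facts : List FCS.Fct) : Prop :=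
  ∀ (D : Type) (Y : FCS.Sys D), Y.Ok cmpf lsol →
    (∀ e, Y.W e ≠ [] → glf (Y.W e) = true) →
    (∀ X ∈ facts, FCS.NoX lle lm lsol Y X) → ∀ x, ¬ Sp2 Y x

theorem MC.nox (h : MC 6 S L w) (hS : IsStar S) (hR : Reg S U) (hC : Can S w) (hN : Nu5 S U)
    {X : FCS.Fct} (hX : NoL X.1 X.2) (hok : okf X = true) : FCS.NoX lle lm lsol (wsy S L U) X := by
  unfold okf at hok
  rw [Bool.and_eq_true] at hok
  refine ⟨fun e => hX.noMtn hok.1 h hS hR hC hN e, fun e => ?_⟩
  rw [mirX_eq]
  exact (hX.mirX hok.1).noMtn hok.2 h hS hR hC hN e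

/-- THE STAR INEQUALITY AND THE FACTS: there is no minimal counterexample in canonical form -/
theorem noMCt_of_star {den nl nu : ℕ} {F : List ℕ → List ℕ → ℕ} (hden : 0 < den)
    (hnl : 5 * nl ≤ 8 * den) (hnu : 2 * nu < 3 * den)
    {facts : List FCS.Fct} (hfacts : ∀ X ∈ facts, NoL X.1 X.2)
    (hok : facts.all okf = true) (hstar : StarOk facts den nl nu F)
    {fsp : List FCS.Fct} (hfsp : ∀ X ∈ fsp, NoL X.1 X.2) (hoks : fsp.all okf = true)
    (f1 : F1) (f2 : F2) (f3 : F3) (hsp : NoSp fsp)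
    (hM : MCt tbd 6 S L w) : False := by
  rw [List.all_eq_true] at hok hoks
  have h := hM.mc
  have hS := hM.st
  have hC : Can S w := fun g g' h1 _ h3 h4 h5 => by
    have := hM.dbl (le_refl 6) h1 h3 h5 h4
    rw [wt_wgt] at this
    omega
  rcases h.assemble hS hden hnl hnu F with ⟨U, T, hD, hN⟩ | ⟨U, e, hR, hN, hN1, hr, hU, hx⟩
  · obtain ⟨x, hx⟩ := hD.sp2 hN h hS hC f1 f2 f3
    exact hsp D _ (h.wsy_ok hS) (fun e he => by rw [wsy_lwo he]; exact h.lwo_glf hS hC (wsy_real he))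
      (fun X hX => h.nox hS hD.reg hC (hD.nu5 h.ok.real_α) (hfsp X hX) (hoks X hX)) x hx
  · have he : (wsy S L U).W e ≠ [] := (h.wsy_ne hS hr).2 hU
    have hg := hstar D (wsy S L U) (h.wsy_ok hS)
      (fun e he => by rw [wsy_lwo he]; exact h.lwo_glf hS hC (wsy_real he))
      (fun X hX => h.nox hS hR hC hN (hfacts X hX) (hok X hX))
      (fun e he => h.nr hS hN1 he)
      (fun e he ha => h.wsy_g2 hS hC he ha)
      (fun e he ha hb => h.wsy_g4 hS hC hR he ha hb) e he
    rw [h.chv_eq hS he] at hg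
    omega

/-- THE STAR INEQUALITY AND THE FACTS: there is no minimal counterexample -/
theorem noMC_of_star {den nl nu : ℕ} {F : List ℕ → List ℕ → ℕ} (hden : 0 < den)
    (hnl : 5 * nl ≤ 8 * den) (hnu : 2 * nu < 3 * den)
    {facts : List FCS.Fct} (hfacts : ∀ X ∈ facts, NoL X.1 X.2)
    (hok : facts.all okf = true) (hstar : StarOk facts den nl nu F)
    {fsp : List FCS.Fct} (hfsp : ∀ X ∈ fsp, NoL X.1 X.2) (hoks : fsp.all okf = true)
    (f1 : F1) (f2 : F2) (f3 : F3) (hsp : NoSp fsp)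
    (h : MC 6 S L w) : False := by
  obtain ⟨D', V', i1, i2, S', L', w', hM⟩ := h.exists_mct (le_refl 6) tbd
  exact noMCt_of_star hden hnl hnu hfacts hok hstar hfsp hoks f1 f2 f3 hsp hM

end Pool.FC7
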