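import Pool.Agent.FC7.AsB

/-! # The same pattern seen from another dart or another vertex -/

open Finset

set_option linter.unusedSectionVars false

namespace Pool.FC7

open Pool.FC6 Pool.FC6.St

variable {D V : Type} [Fintype D] [DecidableEq V]
  {S : St D V} {L : D → Bool} {w : D → ℕ} {U : V → Prop} {d e r x : D}

/-- more neighbours -/
theorem NoL.mono {c : List ℕ} {nb nb' : List (ℕ × List ℕ)} (h : NoL c nb)
    (hs : ∀ p ∈ nb, p ∈ nb') : NoL c nb' := by
  intro D V _ _ S L w U hM hS hR hC x hx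
  exact h D V S L w U hM hS hR hC x ⟨hx.re, hx.cU, hx.w, fun p hp => hx.nU p (hs p hp),
    fun p hp => hx.nw p (hs p hp), fun p hp => hx.np p (hs p hp)⟩

theorem nd_cgr {z z' : D} (h : S.M.v z = S.M.v z') : S.nd z = S.nd z' := by
  unfold St.nd
  rw [h]

theorem rotate_ne {b : List ℕ} (h : b ≠ []) (k : ℕ) : b.rotate k ≠ [] := by
  intro h1
  exact h (List.rotate_eq_nil_iff.1 h1)

theorem nxr_inj (hS : IsStar S) (W : Wf 6 S L w) (hd : S.real d = true) (he : S.real e = true)
    (h : S.nxr d = S.nxr e) : d = e := by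
  have v1 : S.M.v d = S.M.v e := by
    have := congrArg S.M.v h
    rwa [v_nxr, v_nxr] at this
  have e1 := hS.nxr_rdeg W hd
  have e2 := hS.nxr_rdeg W he
  have h4 : 0 < S.rdeg (S.M.v d) := by
    unfold rdeg
    refine lt_of_lt_of_le ?_ (Finset.single_le_sum (f := fun x =>
      if S.M.v x = S.M.v d ∧ S.real x = true then 1 else 0) (fun _ _ => Nat.zero_le _)
      (Finset.mem_univ d))
    rw [if_pos ⟨rfl, hd⟩]
    norm_num
  obtain ⟨m, hm⟩ : ∃ m, S.rdeg (S.M.v d) = m + 1 := ⟨S.rdeg (S.M.v d) - 1, by omega⟩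
  rw [← v1] at e2
  rw [hm, Function.iterate_succ_apply] at e1 e2
  rw [h] at e1
  exact e1.symm.trans e2

theorem nxr_mod (hS : IsStar S) (W : Wf 6 S L w) (hd : S.real d = true) (i : ℕ) :
    S.nxr^[i % S.rdeg (S.M.v d)] d = S.nxr^[i] d := by
  have hp : Function.IsPeriodicPt S.nxr (S.rdeg (S.M.v d)) d := hS.nxr_rdeg W hd
  exact hp.iterate_mod_apply i

theorem MC.lwo_rots (h : MC 6 S L w) (hS : IsStar S) (hd : S.real d = true) (i : ℕ) :
    lwo S L (S.nxr^[i] d) = (lwo S L d).rotate i := by
  induction i with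
  | zero => simp
  | succ i ih =>
    rw [Function.iterate_succ_apply', h.lwo_rot hS (hS.nxr_iter_real h.ok.toWf hd i), ih,
      List.rotate_rotate]

theorem llw_unrot {c t : List ℕ} (h : llw (c.rotate 1) (t.rotate 1) = true) :
    llw c t = true := by
  have hl := llw_len h
  rw [List.length_rotate, List.length_rotate] at hl
  by_cases h0 : c.length = 0
  · have h1 : c = [] := List.length_eq_zero_iff.1 h0
    have h2 : t = [] := List.length_eq_zero_iff.1 (by omega)
    rw [h1, h2]; rfl
  · have h1 := llw_rotate h (c.length - 1)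
    rw [List.rotate_rotate, List.rotate_rotate, show 1 + (c.length - 1) = c.length by omega,
      List.rotate_length] at h1
    rw [hl, List.rotate_length] at h1
    exact h1

/-- the neighbours at another dart -/
def rnb (n k : ℕ) (nb : List (ℕ × List ℕ)) : List (ℕ × List ℕ) :=
  nb.map fun p => ((p.1 + n - k) % n, p.2)

/-- the same pattern at another dart of the centre -/
theorem NoL.rot {c : List ℕ} {nb : List (ℕ × List ℕ)} (h : NoL c nb) {k : ℕ}
    (hk : k < c.length) : NoL (c.rotate k) (rnb c.length k nb) := by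
  intro D V _ _ S L w U hM hS hR hC x hx
  have W := hM.ok.toWf
  have hn : c.length = S.rdeg (S.M.v x) := by
    rw [← lwo_length (S := S) (L := L), ← llw_len hx.w, List.length_rotate]
  have e1 : ∀ i, S.nxr^[i] (S.nxr^[c.length - k] x) = S.nxr^[(i + c.length - k) % c.length] x := by
    intro i
    rw [hn, nxr_mod hS W hx.re, ← hn, ← Function.iterate_add_apply]
    congr 1
    omega
  refine h D V S L w U hM hS hR hC (S.nxr^[c.length - k] x)
    ⟨hS.nxr_iter_real W hx.re _, by rw [v_nxr_iter]; exact hx.cU, ?_, fun p hp h0 => ?_,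
      fun p hp h0 => ?_, fun p hp h0 => ?_⟩
  · have h1 := llw_rotate hx.w (c.length - k)
    rw [List.rotate_rotate, show k + (c.length - k) = c.length by omega,
      List.rotate_length] at h1
    rw [hM.lwo_rots hS hx.re]
    exact h1
  · rw [e1]
    exact hx.nU ((p.1 + c.length - k) % c.length, p.2) (List.mem_map_of_mem hp) h0
  · rw [e1]
    exact hx.nw ((p.1 + c.length - k) % c.length, p.2) (List.mem_map_of_mem hp) h0
  · rw [e1]
    exact hx.np ((p.1 + c.length - k) % c.length, p.2) (List.mem_map_of_mem hp) h0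

theorem HasL.ne {c : List ℕ} {nb : List (ℕ × List ℕ)} (hM : MC 6 S L w) (hS : IsStar S)
    (hx : HasL S L U c nb x) : c ≠ [] := by
  rintro rfl
  have h1 := hM.rdeg_pos hS hx.re
  have h2 := llw_len hx.w
  rw [lwo_length, List.length_nil] at h2
  omega

/-- a pair seen from the other end -/
theorem NoL.pair {c a : List ℕ} (h : NoL c [(0, a)]) (hc : c ≠ []) : NoL a [(0, c)] := by
  intro D V _ _ S L w U hM hS hR hC x hx
  have W := hM.ok.toWf
  have hrα : S.real (S.M.α x) = true := by rw [W.real_α]; exact hx.re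
  refine h D V S L w U hM hS hR hC (S.M.α x) ⟨hrα, hx.nU (0, c) List.mem_cons_self hc,
    hx.nw (0, c) List.mem_cons_self hc, fun p hp _ => ?_, fun p hp _ => ?_, fun p hp h0 => ?_⟩
  · rw [List.mem_singleton] at hp
    subst hp
    show U (S.M.v (S.M.α (S.M.α x)))
    rw [S.M.αα]; exact hx.cU
  · rw [List.mem_singleton] at hp
    subst hp
    show llw a (lwo S L (S.M.α (S.M.α x))) = true
    rw [S.M.αα]; exact hx.w
  · rw [List.mem_singleton] at hp
    subst hp
    exact absurd h0 (hx.ne hM hS)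

/-- a triangle seen from the next vertex -/
theorem NoL.tri {c a b : List ℕ} (h : NoL c [(0, a), (1, b)]) (hs : lsol (c.getD 0 0) = true)
    (hc : c ≠ []) :
    NoL (a.rotate (a.length - 1)) [(0, b.rotate 1), (1, c)] := by
  intro D V _ _ S L w U hM hS hR hC r hx
  have W := hM.ok.toWf
  have hrn := hS.nxr_real W hx.re
  have hre : S.real (S.M.α (S.nxr r)) = true := by rw [W.real_α]; exact hrn
  have q1 : (1, c) ∈ [(0, b.rotate 1), (1, c)] := by simp
  have q0 : (0, b.rotate 1) ∈ [(0, b.rotate 1), (1, c)] := by simp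
  have w1 : llw c (lwo S L (S.M.α (S.nxr r))) = true := hx.nw (1, c) q1 hc
  have w1l := llw_len w1
  rw [lwo_length] at w1l
  have h4 := hM.rdeg_pos hS hre
  have hl : lsol (lto S L (S.M.α (S.nxr r))) = true := by
    have := llw_getD w1 (i := 0) (by omega)
    rw [hM.lwo_getD hS hre (i := 0) (by omega)] at this
    exact (lle_sol this).symm.trans hs
  obtain ⟨r2, a1, a2, a3⟩ := hM.tri hS hre hl
  rw [S.M.αα] at a2
  have e1 : r2 = r := nxr_inj hS W a1 hx.re a2
  subst e1
  have hq : S.real (S.M.α (S.nxr (S.M.α (S.nxr r2)))) = true := by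
    rw [W.real_α]; exact hS.nxr_real W hre
  have w2 : b ≠ [] → llw b (lwo S L (S.M.α (S.nxr (S.M.α (S.nxr r2))))) = true := by
    intro h0
    have w0 : llw (b.rotate 1) (lwo S L (S.M.α r2)) = true :=
      hx.nw (0, b.rotate 1) q0 (rotate_ne h0 1)
    rw [a3, hM.lwo_rot hS hq] at w0
    exact llw_unrot w0
  have w5 : b = [] → 5 ≤ S.nd (S.M.α (S.nxr (S.M.α (S.nxr r2)))) := by
    intro h0
    have w0 : 5 ≤ S.nd (S.M.α r2) := hx.np (0, b.rotate 1) q0 (by rw [h0]; rfl)
    rw [a3, nd_cgr (v_nxr _)] at w0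
    exact w0
  have hla : 1 ≤ a.length := by
    have h5 := hM.rdeg_pos hS hx.re
    have h6 := lwo_length (S := S) (L := L) (d := r2)
    rw [← llw_len hx.w, List.length_rotate] at h6
    omega
  refine h D V S L w U hM hS hR hC (S.M.α (S.nxr r2)) ⟨hre, hx.nU (1, c) q1 hc, w1,
    fun p hp h0 => ?_, fun p hp h0 => ?_, fun p hp h0 => ?_⟩
  · simp only [List.mem_cons, List.not_mem_nil, or_false] at hp
    rcases hp with rfl | rfl
    · show U (S.M.v (S.M.α (S.M.α (S.nxr r2))))
      rw [S.M.αα, v_nxr]; exact hx.cU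
    · have h7 := hx.nU (0, b.rotate 1) q0 (rotate_ne h0 1)
      have h8 : U (S.M.v (S.M.α r2)) := h7
      rw [a3, v_nxr] at h8
      exact h8
  · simp only [List.mem_cons, List.not_mem_nil, or_false] at hp
    rcases hp with rfl | rfl
    · show llw a (lwo S L (S.M.α (S.M.α (S.nxr r2)))) = true
      have h7 := llw_rotate hx.w 1
      rw [List.rotate_rotate, Nat.sub_add_cancel hla, List.rotate_length] at h7
      rw [S.M.αα, hM.lwo_rot hS hx.re]
      exact h7
    · exact w2 h0
  · simp only [List.mem_cons, List.not_mem_nil, or_false] at hp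
    rcases hp with rfl | rfl
    · exact absurd (show a = [] from h0) (List.ne_nil_of_length_pos (by omega))
    · exact w5 h0

/-- two triangles seen from the middle vertex -/
theorem NoL.tri2 {c a b g : List ℕ} {n : ℕ} (hn : c.length = n + 1)
    (h : NoL c [(0, a), (1, b), (n, g)]) (hs : lsol (c.getD 0 0) = true)
    (hs' : lsol (c.getD n 0) = true) :
    NoL (a.rotate (a.length - 1)) [(0, b.rotate 1), (1, c), (2, g.rotate (g.length - 1))] := by
  intro D V _ _ S L w U hM hS hR hC r hx
  have W := hM.ok.toWf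
  have hrn := hS.nxr_real W hx.re
  have hre : S.real (S.M.α (S.nxr r)) = true := by rw [W.real_α]; exact hrn
  set nb := [(0, b.rotate 1), (1, c), (2, g.rotate (g.length - 1))] with hnb
  have hc : c ≠ [] := by
    rintro rfl
    simp at hn
  have q1 : (1, c) ∈ nb := by simp [hnb]
  have q0 : (0, b.rotate 1) ∈ nb := by simp [hnb]
  have q2 : (2, g.rotate (g.length - 1)) ∈ nb := by simp [hnb]
  have w1 : llw c (lwo S L (S.M.α (S.nxr r))) = true := hx.nw (1, c) q1 hc
  have w1l := llw_len w1
  rw [lwo_length] at w1l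
  have h4 := hM.rdeg_pos hS hre
  have hl : lsol (lto S L (S.M.α (S.nxr r))) = true := by
    have := llw_getD w1 (i := 0) (by omega)
    rw [hM.lwo_getD hS hre (i := 0) (by omega)] at this
    exact (lle_sol this).symm.trans hs
  obtain ⟨r2, a1, a2, a3⟩ := hM.tri hS hre hl
  rw [S.M.αα] at a2
  have e1 : r2 = r := nxr_inj hS W a1 hx.re a2
  subst e1
  have hq : S.real (S.M.α (S.nxr (S.M.α (S.nxr r2)))) = true := by
    rw [W.real_α]; exact hS.nxr_real W hre
  have w2 : b ≠ [] → llw b (lwo S L (S.M.α (S.nxr (S.M.α (S.nxr r2))))) = true := by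
    intro h0
    have w0 : llw (b.rotate 1) (lwo S L (S.M.α r2)) = true :=
      hx.nw (0, b.rotate 1) q0 (rotate_ne h0 1)
    rw [a3, hM.lwo_rot hS hq] at w0
    exact llw_unrot w0
  have w5 : b = [] → 5 ≤ S.nd (S.M.α (S.nxr (S.M.α (S.nxr r2)))) := by
    intro h0
    have w0 : 5 ≤ S.nd (S.M.α r2) := hx.np (0, b.rotate 1) q0 (by rw [h0]; rfl)
    rw [a3, nd_cgr (v_nxr _)] at w0
    exact w0
  have hla : 1 ≤ a.length := by
    have h5 := hM.rdeg_pos hS hx.re
    have h6 := lwo_length (S := S) (L := L) (d := r2)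
    rw [← llw_len hx.w, List.length_rotate] at h6
    omega
  -- the sector before
  have hcl : c.length = S.rdeg (S.M.v (S.M.α (S.nxr r2))) := w1l
  set e := S.M.α (S.nxr r2) with he
  set e' := S.nxr^[n] e with he'
  have hre' : S.real e' = true := hS.nxr_iter_real W hre n
  have hne' : S.nxr e' = e := by
    rw [he', ← Function.iterate_succ_apply' S.nxr, Nat.succ_eq_add_one, ← hn, hcl]
    exact hS.nxr_rdeg W hre
  have hl' : lsol (lto S L e') = true := by
    have := llw_getD w1 (i := n) (by omega)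
    rw [hM.lwo_getD hS hre (i := n) (by rw [← hcl]; omega)] at this
    rw [← lle_sol this]
    exact hs'
  obtain ⟨r', b1, b2, b3⟩ := hM.tri hS hre' hl'
  rw [hne'] at b3
  -- the word at `r'`
  have hgn : S.nxr (S.nxr r2) = S.M.α r' := by
    rw [b3, he, S.M.αα]
  have w6 : g = [] → 5 ≤ S.nd (S.M.α e') := by
    intro h0
    have w0 : 5 ≤ S.nd (S.M.α (S.nxr (S.nxr r2))) :=
      hx.np (2, g.rotate (g.length - 1)) q2 (by rw [h0]; rfl)
    rw [hgn, S.M.αα] at w0
    rw [← b2, nd_cgr (v_nxr _)]
    exact w0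
  have w4 : g ≠ [] → llw g (lwo S L (S.M.α e')) = true := by
    intro h0
    have w3 : llw (g.rotate (g.length - 1)) (lwo S L r') = true := by
      have h7 := hx.nw (2, g.rotate (g.length - 1)) q2 (rotate_ne h0 _)
      have h8 : llw (g.rotate (g.length - 1)) (lwo S L (S.M.α (S.nxr (S.nxr r2)))) = true := h7
      rw [hgn, S.M.αα] at h8
      exact h8
    have hlg : 1 ≤ g.length := List.length_pos_iff.2 h0
    have h7 := llw_rotate w3 1
    rw [List.rotate_rotate, Nat.sub_add_cancel hlg, List.rotate_length] at h7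
    rw [← b2, hM.lwo_rot hS b1]
    exact h7
  refine h D V S L w U hM hS hR hC e ⟨hre, hx.nU (1, c) q1 hc, w1, fun p hp h0 => ?_,
    fun p hp h0 => ?_, fun p hp h0 => ?_⟩
  · simp only [List.mem_cons, List.not_mem_nil, or_false] at hp
    rcases hp with rfl | rfl | rfl
    · show U (S.M.v (S.M.α (S.M.α (S.nxr r2))))
      rw [S.M.αα, v_nxr]; exact hx.cU
    · have h7 := hx.nU (0, b.rotate 1) q0 (rotate_ne h0 1)
      have h8 : U (S.M.v (S.M.α r2)) := h7
      rw [a3, v_nxr] at h8
      exact h8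
    · have h7 := hx.nU (2, g.rotate (g.length - 1)) q2 (rotate_ne h0 _)
      have h8 : U (S.M.v (S.M.α (S.nxr (S.nxr r2)))) := h7
      rw [hgn, S.M.αα] at h8
      show U (S.M.v (S.M.α e'))
      rw [← b2, v_nxr]
      exact h8
  · simp only [List.mem_cons, List.not_mem_nil, or_false] at hp
    rcases hp with rfl | rfl | rfl
    · show llw a (lwo S L (S.M.α (S.M.α (S.nxr r2)))) = true
      have h7 := llw_rotate hx.w 1
      rw [List.rotate_rotate, Nat.sub_add_cancel hla, List.rotate_length] at h7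
      rw [S.M.αα, hM.lwo_rot hS hx.re]
      exact h7
    · exact w2 h0
    · exact w4 h0
  · simp only [List.mem_cons, List.not_mem_nil, or_false] at hp
    rcases hp with rfl | rfl | rfl
    · exact absurd (show a = [] from h0) (List.ne_nil_of_length_pos (by omega))
    · exact w5 h0
    · exact w6 h0

end Pool.FC7
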