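import Pool.Agent.FC7.DmB

/-! # The price of the neighbours outside of the region: the three kinds of regions -/

open Finset

set_option linter.unusedSectionVars false

namespace Pool.FC7

open Pool.FC6 Pool.FC6.St

variable {D V : Type} [Fintype D] [DecidableEq V] {S : St D V} {L : D → Bool} {w : D → ℕ} {Δ : ℕ}

/-- the inequality with the gap corners next to the neighbours outside -/
def Cnt2 (S : St D V) (U T : Finset V) : Prop :=
  20 * ∑ x ∈ U, S.rdeg x + 2 * ∑ x ∈ U, gdeg S x + 20 * ∑ x ∈ U, nul S T x +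
    ∑ x ∈ U, sdg S T x ≤ 120 * U.card + 10 * (U.filter fun x => 2 ≤ nul S T x).card

section

variable {c : Fin 3 → D} {s : D → Bool} {T : Finset V}

open Classical in
/-- THE COUNT for a curve of length three -/
theorem N1.cnt3 (hN : N1 S (ing S c s) T) (h : Rg S) (hS : IsStar S) (W : Wf Δ S L w)
    (hc : S.M.Curve c) (hs : S.M.SideOf c s)
    (hT : ∀ z, S.M.v z ∈ T ↔ S.M.v z ∈ S.A ∧ ¬ S.Off c z) (hTA : T ⊆ S.A) :
    20 * ∑ x ∈ ing S c s, S.rdeg x + 2 * ∑ x ∈ ing S c s, gdeg S x +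
      20 * ∑ x ∈ ing S c s, nul S T x + ∑ x ∈ ing S c s, sdg S T x ≤
    120 * (ing S c s).card := by
  have h1 := h.countg hS W hc hs hT (side3_le hc hs)
  have h2 := h.side_sum hS W hc hs hT
  have h3 := hN.bad_le h hS W hTA
  omega

end

/-- the inside of a closed curve of length three -/
theorem Cut3.cnt2 {d e e' : D} {s : D → Bool} (hC : Cut3 S d e e' s) (h : Rg S) (hS : IsStar S)
    (W : Wf Δ S L w) (hΔ : Δ ≤ 7) : Cnt2 S (ins S d e e' s) (tee S d e) := by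
  have hD := hC.hD
  have h1 := N1.cnt3 (c := ![d, e', S.M.α e]) (s := s) (T := tee S d e) (hC.n1 h hS W hΔ)
    h hS W hD.hc hD.hs (fun z => mem_tee hD.he') (Finset.filter_subset _ _)
  exact h1.trans (Nat.le_add_right _ _)

/-- no neighbours outside -/
theorem Rg.cnt2_all (h : Rg S) (hS : IsStar S) (W : Wf Δ S L w) : Cnt2 S S.A ∅ := by
  have h1 := h.countg_all hS W
  have h2 : ∑ x ∈ S.A, sdg S ∅ x = 0 := by
    refine Finset.sum_eq_zero fun x _ => ?_
    unfold sdg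
    refine Finset.sum_eq_zero fun z _ => ?_
    rw [if_neg]
    rintro ⟨-, -, h3⟩
    simp at h3
  unfold Cnt2
  rw [h2]
  simp only [nul_empty, Finset.sum_const_zero, mul_zero, add_zero]
  omega

section

variable {k e e' k' : D} {s : D → Bool}

/-- the curve passes through a face: two darts from the face to the inside -/
theorem IsF.eg_two (hF : IsF S k e e' k' s) (hr : S.real e = false) (h : Rg S) (hS : IsStar S)
    (W : Wf Δ S L w) (hN : N1 S (inq S k e e' k' s) (tef S k e k')) :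
    ∃ a b, a ≠ b ∧ EG S ![k, e, S.M.α e', S.M.α k'] s a ∧
      EG S ![k, e, S.M.α e', S.M.α k'] s b := by
  have hyA : S.M.v (S.M.α k) ∈ S.A := h.real_A _ (by rw [h.real_α]; exact hF.hk)
  have hvA : S.M.v (S.M.α k') ∈ S.A := h.real_A _ (by rw [h.real_α]; exact hF.hk')
  have heA : S.M.v e ∈ S.A := by rw [hF.he]; exact hyA
  have hh : S.M.v (S.M.α e) ∉ S.A := hS.vhead W heA hr
  have hc := hF.hc
  have hs := hF.hs
  -- the first dart
  obtain ⟨r1, r2, r3, r4⟩ | ⟨r1, r2, r3, r4⟩ := hS.virt W hr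
  · exact absurd heA r3
  obtain ⟨a, ha⟩ : ∃ a, a = S.M.φ e := ⟨_, rfl⟩
  rw [← ha] at r1 r2
  have va : S.M.v a = S.M.v (S.M.α e) := by rw [ha, S.M.vφ]
  have sa : s (S.M.φ a) = true := by rw [ha, hs.φ, hs.φ]; exact hs.t 1
  have w1 : S.M.v (S.M.α (S.M.φ a)) = S.M.v (S.M.α k) := by
    rw [← S.M.vφ, ha, S.M.φ3, hF.he]
  have w2 : S.M.v (S.M.φ a) = S.M.v (S.M.α a) := S.M.vφ a
  have xA : S.M.v (S.M.φ a) ∈ S.A := h.real_A _ r1
  have x0 : S.M.v (S.M.φ a) ≠ S.M.v k := fun h0 =>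
    hF.ht (S.M.α a) (by rw [← w2]; exact h0) (by rw [S.M.αα]; exact va)
  have x1 : S.M.v (S.M.φ a) ≠ S.M.v (S.M.α k) := by
    have := h.real_ne _ r1
    rw [w1] at this
    exact this
  have x2 : S.M.v (S.M.φ a) ≠ S.M.v (S.M.α k') := fun h0 =>
    hF.hn (S.M.α (S.M.φ a)) (by rw [h.real_α]; exact r1) w1 (by rw [S.M.αα, h0])
  have x3 : S.M.v (S.M.φ a) ≠ S.M.v (S.M.α e) := fun h0 => hh (by rw [← h0]; exact xA)
  have xo : S.Off ![k, e, S.M.α e', S.M.α k'] (S.M.φ a) := (off4 hF.he hF.hw).2 ⟨x0, x1, x3, x2⟩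
  have xU : S.M.v (S.M.φ a) ∈ inq S k e e' k' s := (mem_ing hc hs).2 ⟨xA, xo, sa⟩
  -- the second dart
  obtain ⟨q, hq⟩ : ∃ q, q = S.M.φ (S.M.α e') := ⟨_, rfl⟩
  have hd : S.M.v (S.M.α e') ∉ S.A := by rw [← hF.hw]; exact hh
  obtain ⟨-, t2, t3⟩ := hS.φdead W hd
  rw [← hq] at t2 t3
  have vq : S.M.v q = S.M.v (S.M.α k') := by rw [hq, S.M.vφ, S.M.αα, hF.he']
  have sq : s (S.M.φ q) = true := by rw [hq, hs.φ, hs.φ]; exact hs.t 2
  have u2 : S.M.v (S.M.φ q) = S.M.v (S.M.α q) := S.M.vφ q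
  have u3 : S.M.v (S.M.α (S.M.φ q)) = S.M.v (S.M.α e) := by
    rw [← S.M.vφ, hq, S.M.φ3, hF.hw]
  have yA : S.M.v (S.M.φ q) ∈ S.A := by
    rw [u2]; exact h.real_A _ (by rw [h.real_α]; exact t2)
  have y0 : S.M.v (S.M.φ q) ≠ S.M.v k := fun h0 => hF.ht (S.M.φ q) h0 u3
  have y1 : S.M.v (S.M.φ q) ≠ S.M.v (S.M.α k) := fun h0 =>
    hF.hn (S.M.α q) (by rw [h.real_α]; exact t2) (by rw [← u2]; exact h0) (by rw [S.M.αα]; exact vq)
  have y2 : S.M.v (S.M.φ q) ≠ S.M.v (S.M.α k') := by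
    have := h.real_ne _ t2
    rw [vq, ← u2] at this
    exact this.symm
  have y3 : S.M.v (S.M.φ q) ≠ S.M.v (S.M.α e) := fun h0 => hh (by rw [← h0]; exact yA)
  have yo : S.Off ![k, e, S.M.α e', S.M.α k'] (S.M.φ q) := (off4 hF.he hF.hw).2 ⟨y0, y1, y3, y2⟩
  have yU : S.M.v (S.M.φ q) ∈ inq S k e e' k' s := (mem_ing hc hs).2 ⟨yA, yo, sq⟩
  refine ⟨a, S.M.α (S.M.φ q), fun h0 => ?_, ⟨fun h0 => h0 2 (by rw [va]; exact hF.hw),
    by rw [va]; exact hh, by rw [← w2]; exact xU⟩, ⟨fun h0 => h0 2 (by rw [u3]; exact hF.hw),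
    by rw [u3]; exact hh, by rw [S.M.αα]; exact yU⟩⟩
  -- the two darts are different
  have g1 : S.M.σ (S.M.α q) = S.M.φ q := by rw [σ_eq, S.M.αα]
  have g2 : S.M.σ (S.M.σ (S.M.α q)) = S.M.φ a := by rw [g1, σ_eq, ← h0]
  have hv : S.M.v (S.M.α q) = S.M.v (S.M.φ a) := by rw [← g2, S.M.vσ, S.M.vσ]
  have n1 : S.M.φ a ≠ S.M.α q := by
    intro h1
    have h2 : S.M.v (S.M.α (S.M.φ a)) = S.M.v q := by rw [h1, S.M.αα]
    rw [w1, vq] at h2
    exact hF.n13 h2
  rcases hN (S.M.φ a) (S.M.α q) xU hv n1 (by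
      rw [w1]
      exact hF.mem_tef.2 ⟨hyA, fun h2 => h2 1 hF.he.symm⟩) (by
      rw [S.M.αα, vq]
      exact hF.mem_tef.2 ⟨hvA, fun h2 => h2 3 rfl⟩) with h3 | h3
  · exact σ3_ne h W (z := S.M.α q) (by rw [← u2]; exact yA) (by rw [g2]; exact h3.symm)
  · rw [h3] at g2
    exact n1 (h3.trans (S.M.σinj g2))

/-- the inside of a closed curve of length four -/
theorem Cut4.cnt2 (hC : Cut4 S k e e' k' s) (h : Rg S) (hS : IsStar S) (W : Wf Δ S L w)
    (hΔ : Δ ≤ 7) (hN : N1 S (inq S k e e' k' s) (tef S k e k')) :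
    Cnt2 S (inq S k e e' k' s) (tef S k e k') := by
  classical
  have hF := hC.hF
  have hyA : S.M.v (S.M.α k) ∈ S.A := h.real_A _ (by rw [h.real_α]; exact hF.hk)
  have hvA : S.M.v (S.M.α k') ∈ S.A := h.real_A _ (by rw [h.real_α]; exact hF.hk')
  have hmA : S.M.v k ∈ S.A := h.real_A _ hF.hk
  have key := fun J hJ => N1.cnt4 (c := ![k, e, S.M.α e', S.M.α k']) (s := s)
    (T := tef S k e k') hN h hS W hF.hc hF.hs (fun z => hF.mem_tef) (Finset.filter_subset _ _)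
    (side4_le hF.hc hF.hs) (J := J) hJ
  cases hr : S.real e
  · -- through a face
    obtain ⟨a, b, hab, ha, hb⟩ := hF.eg_two hr h hS W hN
    have hE : 2 ≤ ∑ z, if EG S ![k, e, S.M.α e', S.M.α k'] s z then 1 else 0 := by
      rw [← Finset.card_filter]
      have := Finset.card_le_card (s := {a, b})
        (t := Finset.univ.filter fun z => EG S ![k, e, S.M.α e', S.M.α k'] s z) (fun z hz => by
          rcases Finset.mem_insert.1 hz with rfl | hz
          · exact Finset.mem_filter.2 ⟨Finset.mem_univ _, ha⟩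
          · rw [Finset.mem_singleton.1 hz]
            exact Finset.mem_filter.2 ⟨Finset.mem_univ _, hb⟩)
      rw [Finset.card_pair hab] at this
      exact this
    have hh : S.M.v (S.M.α e) ∉ S.A := hS.vhead W (by rw [hF.he]; exact hyA) hr
    have h1 := key {0, 3} (fun j hj => by
      simp only [Finset.mem_insert, Finset.mem_singleton] at hj
      rcases hj with rfl | rfl
      · refine ⟨hF.hk, ?_⟩
        show S.Off ![k, e, S.M.α e', S.M.α k'] (S.M.φ (S.M.φ k))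
        have v1 : S.M.v (S.M.α (S.M.φ (S.M.φ k))) = S.M.v k := by rw [← S.M.vφ, S.M.φ3]
        have v2 : S.M.v (S.M.α (S.M.φ k)) = S.M.v (S.M.φ (S.M.φ k)) := by rw [← S.M.vφ]
        have v3 : S.M.v (S.M.φ k) = S.M.v (S.M.α k) := S.M.vφ k
        refine (off4 hF.he hF.hw).2 ⟨fun h0 => ?_, fun h0 => ?_, fun h0 => ?_, fun h0 => ?_⟩
        · exact hS.loop W (r := S.M.φ (S.M.φ k)) (by rw [h0]; exact hmA) (by rw [v1, h0])
        · exact hS.loop W (r := S.M.φ k) (by rw [v3]; exact hyA) (by rw [v2, v3, h0])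
        · exact hF.ht (S.M.α (S.M.φ (S.M.φ k))) v1 (by rw [S.M.αα]; exact h0)
        · have h2 : S.real (S.M.φ k) = true := hS.real_of2 W (by rw [v3]; exact hyA)
            (by rw [v2, h0]; exact hvA)
          exact hF.hn (S.M.φ k) h2 v3 (by rw [v2, h0])
      · refine ⟨by
          show S.real (S.M.α k') = true
          rw [h.real_α]; exact hF.hk', ?_⟩
        show S.Off ![k, e, S.M.α e', S.M.α k'] (S.M.φ (S.M.φ (S.M.α k')))
        have v1 : S.M.v (S.M.α (S.M.φ (S.M.φ (S.M.α k')))) = S.M.v (S.M.α k') := by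
          rw [← S.M.vφ, S.M.φ3]
        have v2 : S.M.v (S.M.α (S.M.φ (S.M.α k'))) = S.M.v (S.M.φ (S.M.φ (S.M.α k'))) := by
          rw [← S.M.vφ]
        have v3 : S.M.v (S.M.φ (S.M.α k')) = S.M.v k := by rw [S.M.vφ, S.M.αα, hF.vk]
        refine (off4 hF.he hF.hw).2 ⟨fun h0 => ?_, fun h0 => ?_, fun h0 => ?_, fun h0 => ?_⟩
        · exact hS.loop W (r := S.M.φ (S.M.α k')) (by rw [v3]; exact hmA) (by rw [v2, v3, h0])
        · have h2 : S.real (S.M.φ (S.M.φ (S.M.α k'))) = true := hS.real_of2 W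
            (by rw [h0]; exact hyA) (by rw [v1]; exact hvA)
          exact hF.hn (S.M.φ (S.M.φ (S.M.α k'))) h2 h0 v1
        · exact hF.ht (S.M.φ (S.M.α k')) v3 (by rw [v2]; exact h0)
        · exact hS.loop W (r := S.M.φ (S.M.φ (S.M.α k'))) (by rw [h0]; exact hvA)
            (by rw [v1, h0]))
    have h2 : ({0, 3} : Finset (Fin 4)).card = 2 := by decide
    rw [h2] at h1
    have h3 : ing S ![k, e, S.M.α e', S.M.α k'] s = inq S k e e' k' s := rfl
    rw [h3] at h1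
    unfold Cnt2
    omega
  · have h1 := key Finset.univ (fun j _ => ⟨by
      have h2 : ∀ i, S.real (![k, e, S.M.α e', S.M.α k'] i) = true := by
        intro i
        fin_cases i
        · exact hF.hk
        · exact hr
        · show S.real (S.M.α e') = true
          rw [h.real_α, hF.re]; exact hr
        · show S.real (S.M.α k') = true
          rw [h.real_α]; exact hF.hk'
      exact h2 j, hF.apex hr h hS W hΔ j⟩)
    rw [Finset.card_univ, Fintype.card_fin] at h1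
    have h3 : ing S ![k, e, S.M.α e', S.M.α k'] s = inq S k e e' k' s := rfl
    rw [h3] at h1
    unfold Cnt2
    omega

end

/-- the region exists, with the price of the neighbours outside -/
theorem Rg.exists_dsh2 (h : Rg S) (hS : IsStar S) (W : Wf Δ S L w) (hΔ : Δ ≤ 7) :
    ∃ U T, Dsh S U T ∧ (N1 S U T → Cnt2 S U T) := by
  rcases h.cuts hS W hΔ with hC | ⟨d, e, e', s, hC⟩ | ⟨k, e, e', k', s, hC⟩
  · have hn : N1 S S.A ∅ := fun z z' _ _ _ h1 => absurd h1 (by simp)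
    exact ⟨_, _, ⟨hC.dsg h hS W hΔ, fun z z' h1 => absurd h1 (by simp), Or.inl hn, Or.inl hn⟩,
      fun _ => h.cnt2_all hS W⟩
  · exact ⟨_, _, ⟨hC.dsg h hS W hΔ, hC.n5 h hS W hΔ, Or.inl (hC.n1 h hS W hΔ),
      Or.inl (hC.n1 h hS W hΔ)⟩, fun _ => hC.cnt2 h hS W hΔ⟩
  · have hout : ∃ v ∈ S.A, v ∉ inq S k e e' k' s ∧ v ∉ tef S k e k' := by
      obtain ⟨z, -, a1, -, a3, -, a5, -, -⟩ := hC.two false
      refine ⟨_, a1, fun h0 => ?_, fun h0 => (hC.hF.mem_tef.1 h0).2 a3⟩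
      have := (hC.hF.mem_inq.1 h0).2.2
      rw [a5] at this
      exact absurd this (by decide)
    refine ⟨_, _, ⟨hC.dsg h hS W hΔ, hC.n5 h hS W hΔ, ?_, Or.inr hout⟩,
      fun hN => hC.cnt2 h hS W hΔ hN⟩
    by_cases h3 : 3 ≤ (inq S k e e' k' s).card
    · exact Or.inl (hC.n1 h hS W hΔ fun _ => h3)
    · cases hr : S.real e
      · exact Or.inl (hC.n1 h hS W hΔ fun h0 => by
          rw [hr] at h0
          exact absurd h0 (by decide))
      · have := hC.hF.two_card hC.two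
        have h4 : (inq S k e e' k' s).card = 2 := by omega
        exact Or.inr ⟨h4, hC.hF.pair_facts h hS W h4⟩

/-- THE REGION of a minimal counterexample -/
theorem MC.dsh2 (hΔ : Δ ≤ 6) (h : MC Δ S L w) (hS : IsStar S) :
    ∃ U T, Dsh S U T ∧ (N1 S U T → Cnt2 S U T) :=
  (h.rg hΔ).exists_dsh2 hS h.ok.toWf (by omega)

end Pool.FC7
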