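import Pool.Agent.FC7.StD

/-! # The statement of the star check with the gap corners next to the neighbours outside

The price of a neighbour outside of the region: `nu`, plus `h l` for each of the two letters `l` next
to the edge, and `dl` if it is the only one. -/

open Finset

namespace Pool.FC7

/-- cost of the letter next to a neighbour outside: `hg` for a gap, `hl` for a gap of length at least
5 -/
def hgf (hg hl l : ℕ) : ℕ := if lsol l = true then 0 else if lng l = true then hl else hg

/-- contribution of an edge, `a` here, `b` at the other end; a neighbour outside costs `nu` and the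
cost of the two letters of `a` next to the edge -/
def gav2 (nu : ℕ) (h : ℕ → ℕ) (F : List ℕ → List ℕ → ℕ) (a b : List ℕ) : ℤ :=
  if b = [] then -((nu : ℤ) + h (a.getD 0 0) + h (a.getD (a.length - 1) 0))
  else 2 * ((F b a : ℤ) - (F a b : ℤ))

/-- the charge of a star for the flows `F`; a single neighbour outside costs `dl` more -/
def chv2 {D : Type*} (sol lng : ℕ → Bool) (den nl nu dl : ℕ) (h : ℕ → ℕ)
    (F : List ℕ → List ℕ → ℕ) (S : FCS.Sys D) (e : D) : ℤ :=
  12 * den - 2 * (S.W e).length * den - FCS.gsv sol lng den nl (S.W e) +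
    ∑ i ∈ range (S.W e).length, gav2 nu h F (S.W (S.nx^[i] e)) (S.W (S.al (S.nx^[i] e))) -
    (if ((range (S.W e).length).filter fun i => S.W (S.al (S.nx^[i] e)) = []).card = 1
      then (dl : ℤ) else 0)

/-- the property of the charge of the stars -/
def StarOk2 (facts : List FCS.Fct) (den nl nu dl : ℕ) (h : ℕ → ℕ)
    (F : List ℕ → List ℕ → ℕ) : Prop :=
  ∀ (D : Type) (Y : FCS.Sys D), Y.Ok cmpf lsol →
    (∀ e, Y.W e ≠ [] → glf (Y.W e) = true) →
    (∀ X ∈ facts, FCS.NoX lle lm lsol Y X) →
    (∀ e, Y.W e ≠ [] → FCS.Nr lsol Y e) →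
    (∀ e, Y.W e ≠ [] → Y.W (Y.al e) ≠ [] → G2 Y e) →
    (∀ e, Y.W e ≠ [] → Y.W (Y.al e) ≠ [] → Y.W (Y.al (Y.nx e)) ≠ [] → G4 Y e) →
    ∀ e, Y.W e ≠ [] → chv2 lsol lng den nl nu dl h F Y e ≤ 0

end Pool.FC7
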