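import Pool.Agent.FC7.AsB
import Pool.Agent.FC7.DmC
import Pool.Agent.FC7.StE

/-! # Discharging with the price of the neighbours outside -/

open Finset

set_option linter.unusedSectionVars false

namespace Pool.FC7

open Pool.FC6 Pool.FC6.St

variable {D V : Type} [Fintype D] [DecidableEq V]
variable {S : St D V} {L : D → Bool} {w : D → ℕ} {d e r x : D} {U T : Finset V}

/-- what the discharging needs from the region: a neighbour outside costs `nu / (2 * den)` and half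
of the costs of the gap corners next to the edge, a single one `dl / (2 * den)` more -/
structure DscQ (S : St D V) (U T : Finset V) (den nu dl : ℕ) : Prop where
  UA : U ⊆ S.A
  dis : ∀ x ∈ U, x ∉ T
  nb : ∀ z, S.real z = true → S.M.v z ∈ U → S.M.v (S.M.α z) ∈ U ∨ S.M.v (S.M.α z) ∈ T
  cnt : 20 * den * ∑ x ∈ U, S.rdeg x + 2 * den * ∑ x ∈ U, gdeg S x +
    10 * nu * ∑ x ∈ U, nul S T x + den * ∑ x ∈ U, sdg S T x +
    10 * dl * (∑ x ∈ U, if nul S T x = 1 then 1 else 0) < 120 * den * U.card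

open Classical in
/-- the final charge of a vertex of `U`, times `20 * den` -/
noncomputable def cdu (S : St D V) (U T : Finset V) (den nu dl : ℕ) (F : D → ℝ) (x : V) : ℝ :=
  den * (120 - 20 * S.rdeg x - 2 * (gdeg S x : ℝ)) - 10 * nu * (nul S T x : ℝ) -
    den * (sdg S T x : ℝ) - 10 * dl * ((if nul S T x = 1 then 1 else 0 : ℕ) : ℝ) + 20 *
    ∑ d, if S.M.v d = x ∧ S.real d = true then (if S.M.v (S.M.α d) ∈ U then F d else 0) else 0

/-- DISCHARGING: some vertex of `U` keeps a positive charge -/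
theorem DscQ.discharge {den nu dl : ℕ} (hD : DscQ S U T den nu dl)
    (hra : ∀ d, S.real (S.M.α d) = S.real d) (F : D → ℝ)
    (hF : ∀ d, S.real d = true → S.M.v d ∈ U → S.M.v (S.M.α d) ∈ U → F (S.M.α d) = - F d) :
    ∃ x ∈ U, 0 < cdu S U T den nu dl F x := by
  classical
  by_contra hc
  push Not at hc
  have h1 : ∑ x ∈ U, cdu S U T den nu dl F x = 120 * den * U.card -
      20 * den * (∑ x ∈ U, S.rdeg x : ℕ) -
      2 * den * ((∑ x ∈ U, gdeg S x : ℕ) : ℝ) - 10 * nu * ((∑ x ∈ U, nul S T x : ℕ) : ℝ) -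
      den * ((∑ x ∈ U, sdg S T x : ℕ) : ℝ) -
      10 * dl * ((∑ x ∈ U, if nul S T x = 1 then 1 else 0 : ℕ) : ℝ) := by
    unfold cdu
    rw [Finset.sum_add_distrib, ← Finset.mul_sum, sum_split, sum_flow hra hF, mul_zero, add_zero,
      Finset.sum_sub_distrib, Finset.sum_sub_distrib, Finset.sum_sub_distrib, ← Finset.mul_sum,
      ← Finset.mul_sum, ← Finset.mul_sum, ← Finset.mul_sum,
      Finset.sum_sub_distrib, Finset.sum_sub_distrib, Finset.sum_const, nsmul_eq_mul,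
      ← Finset.mul_sum, ← Finset.mul_sum]
    rw [Nat.cast_sum, Nat.cast_sum, Nat.cast_sum, Nat.cast_sum, Nat.cast_sum]
    ring
  have h2 : ∑ x ∈ U, cdu S U T den nu dl F x ≤ 0 := Finset.sum_nonpos fun x hx => hc x hx
  have h4 : 20 * (den : ℝ) * (∑ x ∈ U, S.rdeg x : ℕ) + 2 * den * (∑ x ∈ U, gdeg S x : ℕ) +
      10 * nu * (∑ x ∈ U, nul S T x : ℕ) + den * (∑ x ∈ U, sdg S T x : ℕ) +
      10 * dl * (∑ x ∈ U, if nul S T x = 1 then 1 else 0 : ℕ) < 120 * den * U.card := by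
    exact_mod_cast hD.cnt
  linarith

theorem sdg_zero {x : V} (h : nul S T x = 0) : sdg S T x = 0 := by
  unfold sdg
  refine Finset.sum_eq_zero fun z _ => ?_
  rw [if_neg]
  intro h1
  unfold nul at h
  rw [Finset.sum_eq_zero_iff] at h
  have h2 := h z (Finset.mem_univ z)
  rw [if_pos h1] at h2
  exact absurd h2 (by norm_num)

/-- the arithmetic of the price -/
theorem price_arith {den nu dl R G Sd c m1 m2 : ℕ} (h0 : 0 < m1 + m2)
    (h1 : 20 * R + 2 * G + 20 * (m1 + 2 * m2) + Sd ≤ 120 * c + 10 * m2)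
    (hnu : 2 * nu < 3 * den) (hdl : nu + dl < 2 * den) :
    20 * den * R + 2 * den * G + 10 * nu * (m1 + 2 * m2) + den * Sd + 10 * dl * m1 <
      120 * den * c := by
  have e2 := Nat.mul_le_mul_left den h1
  have e3 : (nu + dl + 1) * m1 ≤ 2 * den * m1 := Nat.mul_le_mul_right _ hdl
  have e4 : (2 * nu + 1) * m2 ≤ 3 * den * m2 := Nat.mul_le_mul_right _ hnu
  nlinarith

/-- the price of the neighbours outside -/
theorem Dsh.toQ (hD : Dsh S U T) (hN : N1 S U T) (hC : Cnt2 S U T) (h : Rg S) (W : Wf 6 S L w)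
    {den nu dl : ℕ} (hden : 0 < den) (hnu : 2 * nu < 3 * den) (hdl : nu + dl < 2 * den) :
    DscQ S U T den nu dl where
  UA := hD.UA
  dis := hD.dis
  nb := hD.nb
  cnt := by
    have h2 := fun x hx => hN.nul_le h W hD.UA (x := x) hx
    have e1 : (∑ x ∈ U, nul S T x) = (∑ x ∈ U, if nul S T x = 1 then 1 else 0) +
        2 * (U.filter fun x => 2 ≤ nul S T x).card := by
      rw [Finset.card_filter, Finset.mul_sum, ← Finset.sum_add_distrib]
      refine Finset.sum_congr rfl fun x hx => ?_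
      have h3 := h2 x hx
      interval_cases nul S T x <;> rfl
    rcases Nat.eq_zero_or_pos (∑ x ∈ U, nul S T x) with h0 | h0
    · have h3 : ∀ x ∈ U, nul S T x = 0 := fun x hx => (Finset.sum_eq_zero_iff.1 h0) x hx
      have h4 : ∑ x ∈ U, sdg S T x = 0 := Finset.sum_eq_zero fun x hx => sdg_zero (h3 x hx)
      have h5 : ∑ x ∈ U, pr4 S T x = 0 := Finset.sum_eq_zero fun x hx => by
        have := pr4_le (S := S) T x
        rw [h3 x hx] at this
        omega
      rcases hD.str with h6 | h6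
      · rw [h5] at h6
        have e2 := Nat.mul_lt_mul_of_pos_left h6 hden
        have e3 : (∑ x ∈ U, if nul S T x = 1 then 1 else 0) = 0 := by omega
        rw [h0, e3, h4]
        linarith
      · omega
    · unfold Cnt2 at hC
      rw [e1] at hC h0 ⊢
      exact price_arith (by omega) hC hnu hdl

/-- the two sectors next to a real dart -/
theorem sg_nxr (hd : S.real d = true) :
    sg S (S.M.σ d) = sg S (S.M.α (S.M.φ (S.M.φ (S.nxr d)))) := by
  unfold St.nxr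
  split_ifs with h1
  · rw [back_σ]
    unfold sg
    rw [if_neg (by rw [h1]; decide), if_neg (by rw [hd]; decide)]
  · rw [back_σ]

section mc

variable (h : MC 6 S L w) (hS : IsStar S) (hd : S.real d = true)

include h hS hd

/-- the cost of a letter next to a neighbour outside -/
theorem MC.hgf_le {den hg hl : ℕ} (hhg : 2 * hg ≤ den) (hhl : 5 * hl ≤ 4 * den) :
    10 * hgf hg hl (lto S L d) ≤ den * sg S (S.M.σ d) := by
  have h1 := h.gw_le hS hd (den := den) (nl := 2 * hl) (by omega)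
  have h2 : 2 * hgf hg hl (lto S L d) ≤ gw den (2 * hl) (lto S L d) := by
    unfold hgf gw
    split_ifs <;> omega
  have h3 : (if S.real (S.M.σ d) = true then 0 else gh S (S.M.α (S.M.σ d))) =
      sg S (S.M.σ d) := by
    unfold sg
    cases S.real (S.M.σ d) <;> rfl
  rw [h3] at h1
  omega

/-- the two letters next to an edge -/
theorem MC.hgf_two {den hg hl : ℕ} (hhg : 2 * hg ≤ den) (hhl : 5 * hl ≤ 4 * den) :
    10 * (hgf hg hl ((lwo S L d).getD 0 0) +
      hgf hg hl ((lwo S L d).getD ((lwo S L d).length - 1) 0)) ≤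
    den * (sg S (S.M.σ d) + sg S (S.M.α (S.M.φ (S.M.φ d)))) := by
  have W := h.ok.toWf
  have hp := h.rdeg_pos hS hd
  rw [h.lwo_getD hS hd (by omega), lwo_length, h.lwo_getD hS hd (by omega)]
  have h1 := h.hgf_le hS hd hhg hhl
  have h2 := h.hgf_le hS (hS.nxr_iter_real W hd (S.rdeg (S.M.v d) - 1)) hhg hhl
  have h3 : S.nxr (S.nxr^[S.rdeg (S.M.v d) - 1] d) = d := by
    rw [← Function.iterate_succ_apply' S.nxr]
    have : (S.rdeg (S.M.v d) - 1).succ = S.rdeg (S.M.v d) := by omega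
    rw [this]
    exact hS.nxr_rdeg W hd
  rw [sg_nxr (hS.nxr_iter_real W hd _), h3] at h2
  have h4 : S.nxr^[0] d = d := rfl
  rw [h4, mul_add, mul_add]
  exact Nat.add_le_add h1 h2

end mc

/-- the star inequality fails somewhere -/
theorem MC.star_fails2 (h : MC 6 S L w) (hS : IsStar S) {den nl nu dl hg hl : ℕ}
    (hD : DscQ S U T den nu dl) (hnl : 5 * nl ≤ 8 * den) (hhg : 2 * hg ≤ den)
    (hhl : 5 * hl ≤ 4 * den) (fl : List ℕ → List ℕ → ℕ) :
    ∃ e : D, S.real e = true ∧ S.M.v e ∈ U ∧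
      0 < chv2 lsol lng den nl nu dl (hgf hg hl) fl (wsy S L (fun x => x ∈ U)) e := by
  classical
  have W := h.ok.toWf
  let F : D → ℝ := fun d => if S.M.v d ∈ U ∧ S.M.v (S.M.α d) ∈ U then
    ((fl (lwo S L (S.M.α d)) (lwo S L d) : ℝ) - fl (lwo S L d) (lwo S L (S.M.α d))) else 0
  obtain ⟨x, hxU, hx⟩ := hD.discharge W.real_α F (fun d _ h1 h2 => by
    show (if S.M.v (S.M.α d) ∈ U ∧ S.M.v (S.M.α (S.M.α d)) ∈ U then _ else _) =
      -(if S.M.v d ∈ U ∧ S.M.v (S.M.α d) ∈ U then _ else _)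
    rw [S.M.αα, if_pos ⟨h2, h1⟩, if_pos ⟨h1, h2⟩]
    ring)
  have hxA := hD.UA hxU
  have h4 := h.rdeg4 (le_refl 6) hxA
  obtain ⟨e, he, hre⟩ : ∃ e, S.M.v e = x ∧ S.real e = true := by
    by_contra hc
    push Not at hc
    unfold rdeg at h4
    rw [Finset.sum_eq_zero] at h4
    · omega
    · intro e _
      rw [if_neg]
      rintro ⟨h1, h2⟩
      exact hc e h1 h2
  subst he
  obtain ⟨n, hn⟩ : ∃ n, n = S.rdeg (S.M.v e) := ⟨_, rfl⟩
  have hlen : (lwo S L e).length = n := by rw [lwo_length, hn]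
  have hr : ∀ i, S.real (S.nxr^[i] e) = true := fun i => hS.nxr_iter_real W hre i
  have hv : ∀ i, S.M.v (S.nxr^[i] e) = S.M.v e := fun i => v_nxr_iter i e
  have hrα : ∀ i, S.real (S.M.α (S.nxr^[i] e)) = true := fun i => by rw [W.real_α]; exact hr i
  have hne : (wsy S L (fun x => x ∈ U)).W e ≠ [] := (h.wsy_ne hS hre).2 hxU
  -- the neighbours outside
  have hTU : ∀ i, ((wsy S L (fun x => x ∈ U)).W ((wsy S L (fun x => x ∈ U)).al
      ((wsy S L (fun x => x ∈ U)).nx^[i] e)) = [] ↔ S.M.v (S.M.α (S.nxr^[i] e)) ∈ T) := by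
    intro i
    have h1 := h.wsy_ne hS (U := fun x => x ∈ U) (hrα i)
    rw [h.wsy_iter hS hre, wsy_al (hr i)]
    have h2 : S.M.v (S.M.α (S.nxr^[i] e)) ∈ T ↔ ¬ S.M.v (S.M.α (S.nxr^[i] e)) ∈ U :=
      ⟨fun h1 h2 => hD.dis _ h2 h1, fun h1 =>
        (hD.nb _ (hr i) (by rw [hv]; exact hxU)).resolve_left h1⟩
    rw [h2, ← h1]
    exact Iff.symm not_not
  have hreal : ∀ G : D → ℕ, (∑ z, if S.M.v z = S.M.v e ∧ (S.real z = true ∧
      S.M.v (S.M.α z) ∈ T) then G z else 0) = ∑ i ∈ Finset.range n,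
      (if S.M.v (S.M.α (S.nxr^[i] e)) ∈ T then G (S.nxr^[i] e) else 0) := by
    intro G
    have e1 : (∑ z, if S.M.v z = S.M.v e ∧ (S.real z = true ∧
        S.M.v (S.M.α z) ∈ T) then G z else 0) = ∑ z, if S.M.v z = S.M.v e ∧ S.real z = true then
        (if S.M.v (S.M.α z) ∈ T then G z else 0) else 0 := by
      refine Finset.sum_congr rfl fun z _ => ?_
      by_cases h1 : S.M.v z = S.M.v e ∧ S.real z = true
      · by_cases h2 : S.M.v (S.M.α z) ∈ T
        · rw [if_pos ⟨h1.1, h1.2, h2⟩, if_pos h1, if_pos h2]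
        · rw [if_neg (fun h => h2 h.2.2), if_pos h1, if_neg h2]
      · rw [if_neg (fun h => h1 ⟨h.1, h.2.1⟩), if_neg h1]
    rw [e1, h.sum_real hS hre, hn]
  have hnul : nul S T (S.M.v e) = ∑ i ∈ Finset.range n,
      (if S.M.v (S.M.α (S.nxr^[i] e)) ∈ T then 1 else 0) := hreal fun _ => 1
  have hsd : sdg S T (S.M.v e) = ∑ i ∈ Finset.range n,
      (if S.M.v (S.M.α (S.nxr^[i] e)) ∈ T then sg S (S.M.σ (S.nxr^[i] e)) +
        sg S (S.M.α (S.M.φ (S.M.φ (S.nxr^[i] e)))) else 0) :=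
    hreal fun z => sg S (S.M.σ z) + sg S (S.M.α (S.M.φ (S.M.φ z)))
  have hcard : ((Finset.range ((wsy S L (fun x => x ∈ U)).W e).length).filter fun i =>
      (wsy S L (fun x => x ∈ U)).W ((wsy S L (fun x => x ∈ U)).al
        ((wsy S L (fun x => x ∈ U)).nx^[i] e)) = []).card = nul S T (S.M.v e) := by
    rw [wsy_lwo hne, hlen, hnul, Finset.card_filter]
    exact Finset.sum_congr rfl fun i _ => if_congr (hTU i) rfl rfl
  have hF : ∑ z, (if S.M.v z = S.M.v e ∧ S.real z = true then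
      (if S.M.v (S.M.α z) ∈ U then F z else 0) else 0) =
      ∑ i ∈ Finset.range n, (if S.M.v (S.M.α (S.nxr^[i] e)) ∈ U then F (S.nxr^[i] e) else 0) := by
    rw [h.sum_real hS hre, hn]
  have hgw : (5 : ℝ) * (gws den nl (lwo S L e) : ℝ) ≤ den * (gdeg S (S.M.v e) : ℝ) := by
    exact_mod_cast h.gws_le hS hre hnl
  -- the contribution of an edge
  have key1 : ∀ i, -(10 * nu * ((if S.M.v (S.M.α (S.nxr^[i] e)) ∈ T then 1 else 0 : ℕ) : ℝ)) -
      den * ((if S.M.v (S.M.α (S.nxr^[i] e)) ∈ T then sg S (S.M.σ (S.nxr^[i] e)) +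
        sg S (S.M.α (S.M.φ (S.M.φ (S.nxr^[i] e)))) else 0 : ℕ) : ℝ) +
      20 * (if S.M.v (S.M.α (S.nxr^[i] e)) ∈ U then F (S.nxr^[i] e) else 0) ≤
      10 * ((gav2 nu (hgf hg hl) fl ((wsy S L (fun x => x ∈ U)).W
          ((wsy S L (fun x => x ∈ U)).nx^[i] e))
        ((wsy S L (fun x => x ∈ U)).W ((wsy S L (fun x => x ∈ U)).al
          ((wsy S L (fun x => x ∈ U)).nx^[i] e))) : ℤ) : ℝ) := by
    intro i
    have hU1 : S.M.v (S.nxr^[i] e) ∈ U := by rw [hv]; exact hxU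
    have hTi := hTU i
    rw [h.wsy_iter hS hre, wsy_al (hr i)] at hTi ⊢
    have hW1 : (wsy S L (fun x => x ∈ U)).W (S.nxr^[i] e) = lwo S L (S.nxr^[i] e) :=
      wsy_lwo ((h.wsy_ne hS (hr i)).2 hU1)
    rw [hW1]
    unfold gav2
    by_cases h1 : S.M.v (S.M.α (S.nxr^[i] e)) ∈ T
    · have h2 : S.M.v (S.M.α (S.nxr^[i] e)) ∉ U := fun h3 => hD.dis _ h3 h1
      have h3 := h.hgf_two hS (hr i) hhg hhl
      have h3' : (10 : ℝ) * ((hgf hg hl ((lwo S L (S.nxr^[i] e)).getD 0 0) : ℝ) +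
          hgf hg hl ((lwo S L (S.nxr^[i] e)).getD ((lwo S L (S.nxr^[i] e)).length - 1) 0)) ≤
          den * ((sg S (S.M.σ (S.nxr^[i] e)) : ℝ) +
            sg S (S.M.α (S.M.φ (S.M.φ (S.nxr^[i] e))))) := by exact_mod_cast h3
      rw [if_pos h1, if_pos h1, if_neg h2, if_pos (hTi.2 h1)]
      push_cast
      linarith
    · have h2 : S.M.v (S.M.α (S.nxr^[i] e)) ∈ U := by
        by_contra h3
        exact h1 ((hD.nb _ (hr i) hU1).resolve_left h3)
      have hW2 : (wsy S L (fun x => x ∈ U)).W (S.M.α (S.nxr^[i] e)) =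
          lwo S L (S.M.α (S.nxr^[i] e)) := wsy_lwo ((h.wsy_ne hS (hrα i)).2 h2)
      rw [if_neg h1, if_neg h1, if_pos h2, if_neg fun h3 => h1 (hTi.1 h3), hW2]
      show _ + 20 * (if S.M.v (S.nxr^[i] e) ∈ U ∧ S.M.v (S.M.α (S.nxr^[i] e)) ∈ U then
        ((fl (lwo S L (S.M.α (S.nxr^[i] e))) (lwo S L (S.nxr^[i] e)) : ℝ) -
          fl (lwo S L (S.nxr^[i] e)) (lwo S L (S.M.α (S.nxr^[i] e)))) else 0) ≤ _
      rw [if_pos ⟨hU1, h2⟩]
      push_cast
      linarith
  have key2 := Finset.sum_le_sum (s := Finset.range n) fun i _ => key1 i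
  rw [Finset.sum_add_distrib, Finset.sum_sub_distrib, Finset.sum_neg_distrib, ← Finset.mul_sum,
    ← Finset.mul_sum, ← Finset.mul_sum, ← Finset.mul_sum, ← Nat.cast_sum, ← Nat.cast_sum,
    ← Int.cast_sum, ← hnul, ← hsd] at key2
  have key : cdu S U T den nu dl F (S.M.v e) ≤ 10 * ((chv2 lsol lng den nl nu dl (hgf hg hl) fl
      (wsy S L (fun x => x ∈ U)) e : ℤ) : ℝ) := by
    unfold cdu chv2
    rw [hcard, hF, wsy_lwo hne, hlen, gsv_gws, ← hn]
    by_cases h1 : nul S T (S.M.v e) = 1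
    · rw [if_pos h1, if_pos h1]
      push_cast at key2 ⊢
      linarith
    · rw [if_neg h1, if_neg h1]
      push_cast at key2 ⊢
      linarith
  refine ⟨e, hre, hxU, ?_⟩
  have hx' := lt_of_lt_of_le hx key
  have hx2 : (0 : ℝ) < ((chv2 lsol lng den nl nu dl (hgf hg hl) fl
      (wsy S L (fun x => x ∈ U)) e : ℤ) : ℝ) := by linarith
  exact_mod_cast hx2

/-- DISCHARGING: the star inequality fails somewhere, or the region has two vertices -/
theorem MC.assemble2 (h : MC 6 S L w) (hS : IsStar S) {den nl nu dl hg hl : ℕ} (hden : 0 < den)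
    (hnl : 5 * nl ≤ 8 * den) (hnu : 2 * nu < 3 * den) (hdl : nu + dl < 2 * den)
    (hhg : 2 * hg ≤ den) (hhl : 5 * hl ≤ 4 * den) (fl : List ℕ → List ℕ → ℕ) :
    (∃ U T, Dsi S U T ∧ ¬ N1 S U T) ∨ ∃ (U : V → Prop) (e : D), Reg S U ∧ Nu5 S U ∧ Nu1 S U ∧
      S.real e = true ∧ U (S.M.v e) ∧
      0 < chv2 lsol lng den nl nu dl (hgf hg hl) fl (wsy S L U) e := by
  obtain ⟨U, T, hD, hC⟩ := h.dsh3 (le_refl 6) hS
  by_cases hN : N1 S U T
  · right
    obtain ⟨e, h1, h2, h3⟩ := h.star_fails2 hS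
      (hD.toQ hN (hC hN) (h.rg (le_refl 6)) h.ok.toWf hden hnu hdl) hnl hhg hhl fl
    exact ⟨fun x => x ∈ U, e, hD.reg, hD.nu5 h.ok.real_α, hD.nu1 hN, h1, h2, h3⟩
  · exact Or.inl ⟨U, T, hD, hN⟩

/-- THE STAR INEQUALITY AND THE FACTS: there is no minimal counterexample in canonical form -/
theorem noMCt_of_star2 {den nl nu dl hg hl : ℕ} {F : List ℕ → List ℕ → ℕ} (hden : 0 < den)
    (hnl : 5 * nl ≤ 8 * den) (hnu : 2 * nu < 3 * den) (hdl : nu + dl < 2 * den)
    (hhg : 2 * hg ≤ den) (hhl : 5 * hl ≤ 4 * den)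
    {facts : List FCS.Fct} (hfacts : ∀ X ∈ facts, NoL X.1 X.2)
    (hok : facts.all okf = true) (hstar : StarOk2 facts den nl nu dl (hgf hg hl) F)
    {fsp : List FCS.Fct} (hfsp : ∀ X ∈ fsp, NoL X.1 X.2) (hoks : fsp.all okf = true)
    (f1 : F1) (f2 : F2) (f3 : F3) (hsp : NoSp fsp)
    (hM : MCt tbd 6 S L w) : False := by
  rw [List.all_eq_true] at hok hoks
  have h := hM.mc
  have hS := hM.st
  have hC : Can S w := fun g g' h1 _ h3 h4 h5 => by
    have := hM.dbl (le_refl 6) h1 h3 h5 h4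
    rw [wt_wgt] at this
    omega
  rcases h.assemble2 hS hden hnl hnu hdl hhg hhl F with
    ⟨U, T, hD, hN⟩ | ⟨U, e, hR, hN, hN1, hr, hU, hx⟩
  · obtain ⟨x, hx⟩ := hD.sp2 hN h hS hC f1 f2 f3
    exact hsp D _ (h.wsy_ok hS) (fun e he => by rw [wsy_lwo he]; exact h.lwo_glf hS hC (wsy_real he))
      (fun X hX => h.nox hS hD.reg hC (hD.nu5 h.ok.real_α) (hfsp X hX) (hoks X hX)) x hx
  · have he : (wsy S L U).W e ≠ [] := (h.wsy_ne hS hr).2 hU
    have hg := hstar D (wsy S L U) (h.wsy_ok hS)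
      (fun e he => by rw [wsy_lwo he]; exact h.lwo_glf hS hC (wsy_real he))
      (fun X hX => h.nox hS hR hC hN (hfacts X hX) (hok X hX))
      (fun e he => h.nr hS hN1 he)
      (fun e he ha => h.wsy_g2 hS hC he ha)
      (fun e he ha hb => h.wsy_g4 hS hC hR he ha hb) e he
    omega

end Pool.FC7
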