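import Pool.Agent.FC7.AsD
import Pool.Agent.FCS.Tg

/-! # Discharging with flows between the corners of the solid triangles -/

open Finset

set_option linter.unusedSectionVars false

namespace Pool.FC7

open Pool.FC6 Pool.FC6.St

/-- the charge of a star with the flows `F` on the edges and `T` on the solid triangles -/
def chvt {D : Type*} (sol lng : ℕ → Bool) (den nl nu dl : ℕ) (h : ℕ → ℕ)
    (F : List ℕ → List ℕ → ℕ) (T : List ℕ → List ℕ → List ℕ → ℕ) (S : FCS.Sys D) (e : D) : ℤ :=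
  chv2 sol lng den nl nu dl h F S e +
    ∑ i ∈ range (S.W e).length, FCS.tgn sol T S (S.nx^[i] e)

theorem cmpf_sol {x y : ℕ} (h : cmpf x y = true) : lsol x = lsol y := by
  have key : ∀ x < 27, ∀ y < 27, cmpf x y = true → lsol x = lsol y := by decide +kernel
  have hx : x < 27 ∧ y < 27 := by
    unfold cmpf lal at h
    simp only [Bool.and_eq_true, Bool.or_eq_true, decide_eq_true_eq] at h
    omega
  exact key x hx.1 y hx.2 h

variable {D V : Type} [Fintype D] [DecidableEq V]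
variable {S : St D V} {L : D → Bool} {w : D → ℕ} {d e r x : D} {U T : Finset V}

/-- DISCHARGING with a function of the darts with zero sum -/
theorem DscQ.discharge3 {den nu dl : ℕ} (hD : DscQ S U T den nu dl)
    (hra : ∀ d, S.real (S.M.α d) = S.real d) (F : D → ℝ)
    (hF : ∀ d, S.real d = true → S.M.v d ∈ U → S.M.v (S.M.α d) ∈ U → F (S.M.α d) = - F d)
    (E : D → ℝ) (hE : ∑ d, (if S.real d = true ∧ S.M.v d ∈ U then E d else 0) = 0) :
    ∃ x ∈ U, 0 < cdu S U T den nu dl F x +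
      20 * ∑ d, (if S.M.v d = x ∧ S.real d = true then E d else 0) := by
  classical
  by_contra hc
  push Not at hc
  have h1 : ∑ x ∈ U, (cdu S U T den nu dl F x +
      20 * ∑ d, (if S.M.v d = x ∧ S.real d = true then E d else 0)) = 120 * den * U.card -
      20 * den * (∑ x ∈ U, S.rdeg x : ℕ) -
      2 * den * ((∑ x ∈ U, gdeg S x : ℕ) : ℝ) - 10 * nu * ((∑ x ∈ U, nul S T x : ℕ) : ℝ) -
      den * ((∑ x ∈ U, sdg S T x : ℕ) : ℝ) -
      10 * dl * ((∑ x ∈ U, if nul S T x = 1 then 1 else 0 : ℕ) : ℝ) := by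
    rw [Finset.sum_add_distrib, ← Finset.mul_sum, sum_split, hE, mul_zero, add_zero]
    unfold cdu
    rw [Finset.sum_add_distrib, ← Finset.mul_sum, sum_split, sum_flow hra hF, mul_zero, add_zero,
      Finset.sum_sub_distrib, Finset.sum_sub_distrib, Finset.sum_sub_distrib, ← Finset.mul_sum,
      ← Finset.mul_sum, ← Finset.mul_sum, ← Finset.mul_sum,
      Finset.sum_sub_distrib, Finset.sum_sub_distrib, Finset.sum_const, nsmul_eq_mul,
      ← Finset.mul_sum, ← Finset.mul_sum]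
    rw [Nat.cast_sum, Nat.cast_sum, Nat.cast_sum, Nat.cast_sum, Nat.cast_sum]
    ring
  have h2 : ∑ x ∈ U, (cdu S U T den nu dl F x +
      20 * ∑ d, (if S.M.v d = x ∧ S.real d = true then E d else 0)) ≤ 0 :=
    Finset.sum_nonpos fun x hx => hc x hx
  have h4 : 20 * (den : ℝ) * (∑ x ∈ U, S.rdeg x : ℕ) + 2 * den * (∑ x ∈ U, gdeg S x : ℕ) +
      10 * nu * (∑ x ∈ U, nul S T x : ℕ) + den * (∑ x ∈ U, sdg S T x : ℕ) +
      10 * dl * (∑ x ∈ U, if nul S T x = 1 then 1 else 0 : ℕ) < 120 * den * U.card := by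
    exact_mod_cast hD.cnt
  linarith

/-- the flow of an edge -/
noncomputable def flw (S : St D V) (L : D → Bool) (U : Finset V) (fl : List ℕ → List ℕ → ℕ)
    (d : D) : ℝ :=
  if S.M.v d ∈ U ∧ S.M.v (S.M.α d) ∈ U then
    ((fl (lwo S L (S.M.α d)) (lwo S L d) : ℝ) - fl (lwo S L d) (lwo S L (S.M.α d))) else 0

/-- the charge of a vertex is at most the charge of its star -/
theorem MC.cdu_le (h : MC 6 S L w) (hS : IsStar S) {den nl nu dl hg hl : ℕ}
    (hD : DscQ S U T den nu dl) (hnl : 5 * nl ≤ 8 * den) (hhg : 2 * hg ≤ den)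
    (hhl : 5 * hl ≤ 4 * den) (fl : List ℕ → List ℕ → ℕ) (hre : S.real e = true)
    (hxU : S.M.v e ∈ U) :
    cdu S U T den nu dl (flw S L U fl) (S.M.v e) ≤
      10 * ((chv2 lsol lng den nl nu dl (hgf hg hl) fl
      (wsy S L (fun x => x ∈ U)) e : ℤ) : ℝ) := by
  classical
  have W := h.ok.toWf
  let F : D → ℝ := flw S L U fl
  obtain ⟨n, hn⟩ : ∃ n, n = S.rdeg (S.M.v e) := ⟨_, rfl⟩
  have hlen : (lwo S L e).length = n := by rw [lwo_length, hn]
  have hr : ∀ i, S.real (S.nxr^[i] e) = true := fun i => hS.nxr_iter_real W hre i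
  have hv : ∀ i, S.M.v (S.nxr^[i] e) = S.M.v e := fun i => v_nxr_iter i e
  have hrα : ∀ i, S.real (S.M.α (S.nxr^[i] e)) = true := fun i => by rw [W.real_α]; exact hr i
  have hne : (wsy S L (fun x => x ∈ U)).W e ≠ [] := (h.wsy_ne hS hre).2 hxU
  -- the neighbours outside
  have hTU : ∀ i, ((wsy S L (fun x => x ∈ U)).W ((wsy S L (fun x => x ∈ U)).al
      ((wsy S L (fun x => x ∈ U)).nx^[i] e)) = [] ↔ S.M.v (S.M.α (S.nxr^[i] e)) ∈ T) := by
    intro i
    have h1 := h.wsy_ne hS (U := fun x => x ∈ U) (hrα i)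
    rw [h.wsy_iter hS hre, wsy_al (hr i)]
    have h2 : S.M.v (S.M.α (S.nxr^[i] e)) ∈ T ↔ ¬ S.M.v (S.M.α (S.nxr^[i] e)) ∈ U :=
      ⟨fun h1 h2 => hD.dis _ h2 h1, fun h1 =>
        (hD.nb _ (hr i) (by rw [hv]; exact hxU)).resolve_left h1⟩
    rw [h2, ← h1]
    exact Iff.symm not_not
  have hreal : ∀ G : D → ℕ, (∑ z, if S.M.v z = S.M.v e ∧ (S.real z = true ∧
      S.M.v (S.M.α z) ∈ T) then G z else 0) = ∑ i ∈ Finset.range n,
      (if S.M.v (S.M.α (S.nxr^[i] e)) ∈ T then G (S.nxr^[i] e) else 0) := by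
    intro G
    have e1 : (∑ z, if S.M.v z = S.M.v e ∧ (S.real z = true ∧
        S.M.v (S.M.α z) ∈ T) then G z else 0) = ∑ z, if S.M.v z = S.M.v e ∧ S.real z = true then
        (if S.M.v (S.M.α z) ∈ T then G z else 0) else 0 := by
      refine Finset.sum_congr rfl fun z _ => ?_
      by_cases h1 : S.M.v z = S.M.v e ∧ S.real z = true
      · by_cases h2 : S.M.v (S.M.α z) ∈ T
        · rw [if_pos ⟨h1.1, h1.2, h2⟩, if_pos h1, if_pos h2]
        · rw [if_neg (fun h => h2 h.2.2), if_pos h1, if_neg h2]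
      · rw [if_neg (fun h => h1 ⟨h.1, h.2.1⟩), if_neg h1]
    rw [e1, h.sum_real hS hre, hn]
  have hnul : nul S T (S.M.v e) = ∑ i ∈ Finset.range n,
      (if S.M.v (S.M.α (S.nxr^[i] e)) ∈ T then 1 else 0) := hreal fun _ => 1
  have hsd : sdg S T (S.M.v e) = ∑ i ∈ Finset.range n,
      (if S.M.v (S.M.α (S.nxr^[i] e)) ∈ T then sg S (S.M.σ (S.nxr^[i] e)) +
        sg S (S.M.α (S.M.φ (S.M.φ (S.nxr^[i] e)))) else 0) :=
    hreal fun z => sg S (S.M.σ z) + sg S (S.M.α (S.M.φ (S.M.φ z)))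
  have hcard : ((Finset.range ((wsy S L (fun x => x ∈ U)).W e).length).filter fun i =>
      (wsy S L (fun x => x ∈ U)).W ((wsy S L (fun x => x ∈ U)).al
        ((wsy S L (fun x => x ∈ U)).nx^[i] e)) = []).card = nul S T (S.M.v e) := by
    rw [wsy_lwo hne, hlen, hnul, Finset.card_filter]
    exact Finset.sum_congr rfl fun i _ => if_congr (hTU i) rfl rfl
  have hF : ∑ z, (if S.M.v z = S.M.v e ∧ S.real z = true then
      (if S.M.v (S.M.α z) ∈ U then F z else 0) else 0) =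
      ∑ i ∈ Finset.range n, (if S.M.v (S.M.α (S.nxr^[i] e)) ∈ U then F (S.nxr^[i] e) else 0) := by
    rw [h.sum_real hS hre, hn]
  have hgw : (5 : ℝ) * (gws den nl (lwo S L e) : ℝ) ≤ den * (gdeg S (S.M.v e) : ℝ) := by
    exact_mod_cast h.gws_le hS hre hnl
  -- the contribution of an edge
  have key1 : ∀ i, -(10 * nu * ((if S.M.v (S.M.α (S.nxr^[i] e)) ∈ T then 1 else 0 : ℕ) : ℝ)) -
      den * ((if S.M.v (S.M.α (S.nxr^[i] e)) ∈ T then sg S (S.M.σ (S.nxr^[i] e)) +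
        sg S (S.M.α (S.M.φ (S.M.φ (S.nxr^[i] e)))) else 0 : ℕ) : ℝ) +
      20 * (if S.M.v (S.M.α (S.nxr^[i] e)) ∈ U then F (S.nxr^[i] e) else 0) ≤
      10 * ((gav2 nu (hgf hg hl) fl ((wsy S L (fun x => x ∈ U)).W
          ((wsy S L (fun x => x ∈ U)).nx^[i] e))
        ((wsy S L (fun x => x ∈ U)).W ((wsy S L (fun x => x ∈ U)).al
          ((wsy S L (fun x => x ∈ U)).nx^[i] e))) : ℤ) : ℝ) := by
    intro i
    have hU1 : S.M.v (S.nxr^[i] e) ∈ U := by rw [hv]; exact hxU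
    have hTi := hTU i
    rw [h.wsy_iter hS hre, wsy_al (hr i)] at hTi ⊢
    have hW1 : (wsy S L (fun x => x ∈ U)).W (S.nxr^[i] e) = lwo S L (S.nxr^[i] e) :=
      wsy_lwo ((h.wsy_ne hS (hr i)).2 hU1)
    rw [hW1]
    unfold gav2
    by_cases h1 : S.M.v (S.M.α (S.nxr^[i] e)) ∈ T
    · have h2 : S.M.v (S.M.α (S.nxr^[i] e)) ∉ U := fun h3 => hD.dis _ h3 h1
      have h3 := h.hgf_two hS (hr i) hhg hhl
      have h3' : (10 : ℝ) * ((hgf hg hl ((lwo S L (S.nxr^[i] e)).getD 0 0) : ℝ) +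
          hgf hg hl ((lwo S L (S.nxr^[i] e)).getD ((lwo S L (S.nxr^[i] e)).length - 1) 0)) ≤
          den * ((sg S (S.M.σ (S.nxr^[i] e)) : ℝ) +
            sg S (S.M.α (S.M.φ (S.M.φ (S.nxr^[i] e))))) := by exact_mod_cast h3
      rw [if_pos h1, if_pos h1, if_neg h2, if_pos (hTi.2 h1)]
      push_cast
      linarith
    · have h2 : S.M.v (S.M.α (S.nxr^[i] e)) ∈ U := by
        by_contra h3
        exact h1 ((hD.nb _ (hr i) hU1).resolve_left h3)
      have hW2 : (wsy S L (fun x => x ∈ U)).W (S.M.α (S.nxr^[i] e)) =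
          lwo S L (S.M.α (S.nxr^[i] e)) := wsy_lwo ((h.wsy_ne hS (hrα i)).2 h2)
      rw [if_neg h1, if_neg h1, if_pos h2, if_neg fun h3 => h1 (hTi.1 h3), hW2]
      show _ + 20 * (if S.M.v (S.nxr^[i] e) ∈ U ∧ S.M.v (S.M.α (S.nxr^[i] e)) ∈ U then
        ((fl (lwo S L (S.M.α (S.nxr^[i] e))) (lwo S L (S.nxr^[i] e)) : ℝ) -
          fl (lwo S L (S.nxr^[i] e)) (lwo S L (S.M.α (S.nxr^[i] e)))) else 0) ≤ _
      rw [if_pos ⟨hU1, h2⟩]
      push_cast
      linarith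
  have key2 := Finset.sum_le_sum (s := Finset.range n) fun i _ => key1 i
  rw [Finset.sum_add_distrib, Finset.sum_sub_distrib, Finset.sum_neg_distrib, ← Finset.mul_sum,
    ← Finset.mul_sum, ← Finset.mul_sum, ← Finset.mul_sum, ← Nat.cast_sum, ← Nat.cast_sum,
    ← Int.cast_sum, ← hnul, ← hsd] at key2
  have key : cdu S U T den nu dl F (S.M.v e) ≤ 10 * ((chv2 lsol lng den nl nu dl (hgf hg hl) fl
      (wsy S L (fun x => x ∈ U)) e : ℤ) : ℝ) := by
    unfold cdu chv2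
    rw [hcard, hF, wsy_lwo hne, hlen, gsv_gws, ← hn]
    by_cases h1 : nul S T (S.M.v e) = 1
    · rw [if_pos h1, if_pos h1]
      push_cast at key2 ⊢
      linarith
    · rw [if_neg h1, if_neg h1]
      push_cast at key2 ⊢
      linarith
  exact key

/-- the star inequality fails somewhere -/
theorem MC.star_fails3 (h : MC 6 S L w) (hS : IsStar S) {den nl nu dl hg hl : ℕ}
    (hD : DscQ S U T den nu dl) (hnl : 5 * nl ≤ 8 * den) (hhg : 2 * hg ≤ den)
    (hhl : 5 * hl ≤ 4 * den) (fl : List ℕ → List ℕ → ℕ) (tr : List ℕ → List ℕ → List ℕ → ℕ) :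
    ∃ e : D, S.real e = true ∧ S.M.v e ∈ U ∧
      0 < chvt lsol lng den nl nu dl (hgf hg hl) fl tr (wsy S L (fun x => x ∈ U)) e := by
  classical
  have W := h.ok.toWf
  let Y := wsy S L (fun x => x ∈ U)
  have hY : Y.Ok cmpf lsol := h.wsy_ok hS
  let E : D → ℝ := fun d => (((if Y.W d ≠ [] then FCS.tgn lsol tr Y d else 0 : ℤ)) : ℝ) / 2
  have hE : ∑ d, (if S.real d = true ∧ S.M.v d ∈ U then E d else 0) = 0 := by
    have h1 : ∀ d, (if S.real d = true ∧ S.M.v d ∈ U then E d else 0) = E d := by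
      intro d
      by_cases h2 : S.real d = true ∧ S.M.v d ∈ U
      · rw [if_pos h2]
      · rw [if_neg h2]
        have h3 : ¬ Y.W d ≠ [] := fun h3 => h2 ⟨wsy_real h3, wsy_U h3⟩
        simp only [E]
        rw [if_neg h3, Int.cast_zero, zero_div]
    rw [Finset.sum_congr rfl fun d _ => h1 d]
    simp only [E]
    rw [← Finset.sum_div, ← Int.cast_sum, FCS.sum_tgn hY (fun x y => cmpf_sol) tr, Int.cast_zero,
      zero_div]
  obtain ⟨x, hxU, hx⟩ := hD.discharge3 W.real_α (flw S L U fl) (fun d _ h1 h2 => by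
    show (if S.M.v (S.M.α d) ∈ U ∧ S.M.v (S.M.α (S.M.α d)) ∈ U then _ else _) =
      -(if S.M.v d ∈ U ∧ S.M.v (S.M.α d) ∈ U then _ else _)
    rw [S.M.αα, if_pos ⟨h2, h1⟩, if_pos ⟨h1, h2⟩]
    ring) E hE
  have hxA := hD.UA hxU
  have h4 := h.rdeg4 (le_refl 6) hxA
  obtain ⟨e, he, hre⟩ : ∃ e, S.M.v e = x ∧ S.real e = true := by
    by_contra hc
    push Not at hc
    unfold rdeg at h4
    rw [Finset.sum_eq_zero] at h4
    · omega
    · intro e _
      rw [if_neg]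
      rintro ⟨h1, h2⟩
      exact hc e h1 h2
  subst he
  refine ⟨e, hre, hxU, ?_⟩
  have h5 := h.cdu_le hS hD hnl hhg hhl fl hre hxU
  have hne : Y.W e ≠ [] := (h.wsy_ne hS hre).2 hxU
  have h6 : ∑ d, (if S.M.v d = S.M.v e ∧ S.real d = true then E d else 0) =
      ((∑ i ∈ range (Y.W e).length, FCS.tgn lsol tr Y (Y.nx^[i] e) : ℤ) : ℝ) / 2 := by
    rw [h.sum_real hS hre, wsy_lwo hne, lwo_length, Int.cast_sum, Finset.sum_div]
    refine Finset.sum_congr rfl fun i _ => ?_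
    have h7 : Y.nx^[i] e = S.nxr^[i] e := h.wsy_iter hS hre i
    have h8 : Y.W (S.nxr^[i] e) ≠ [] := (h.wsy_ne hS (hS.nxr_iter_real W hre i)).2 (by
      rw [v_nxr_iter]; exact hxU)
    simp only [E]
    rw [if_pos h8, h7]
  rw [h6] at hx
  have h9 : (0 : ℝ) < ((chvt lsol lng den nl nu dl (hgf hg hl) fl tr Y e : ℤ) : ℝ) := by
    unfold chvt
    push_cast at hx ⊢
    linarith
  exact_mod_cast h9

/-- DISCHARGING: the star inequality fails somewhere, or the region has two vertices -/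
theorem MC.assemble3 (h : MC 6 S L w) (hS : IsStar S) {den nl nu dl hg hl : ℕ} (hden : 0 < den)
    (hnl : 5 * nl ≤ 8 * den) (hnu : 2 * nu < 3 * den) (hdl : nu + dl < 2 * den)
    (hhg : 2 * hg ≤ den) (hhl : 5 * hl ≤ 4 * den) (fl : List ℕ → List ℕ → ℕ)
    (tr : List ℕ → List ℕ → List ℕ → ℕ) :
    (∃ U T, Dsi S U T ∧ ¬ N1 S U T) ∨ ∃ (U : V → Prop) (e : D), Reg S U ∧ Nu5 S U ∧ Nu1 S U ∧
      S.real e = true ∧ U (S.M.v e) ∧
      0 < chvt lsol lng den nl nu dl (hgf hg hl) fl tr (wsy S L U) e := by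
  obtain ⟨U, T, hD, hC⟩ := h.dsh3 (le_refl 6) hS
  by_cases hN : N1 S U T
  · right
    obtain ⟨e, h1, h2, h3⟩ := h.star_fails3 hS
      (hD.toQ hN (hC hN) (h.rg (le_refl 6)) h.ok.toWf hden hnu hdl) hnl hhg hhl fl tr
    exact ⟨fun x => x ∈ U, e, hD.reg, hD.nu5 h.ok.real_α, hD.nu1 hN, h1, h2, h3⟩
  · exact Or.inl ⟨U, T, hD, hN⟩

end Pool.FC7
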