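import Pool.Agent.FC7.AsE
import Pool.Agent.FCS.Tx

/-! # Discharging with any function of the darts with zero sum -/

open Finset

set_option linter.unusedSectionVars false

namespace Pool.FC7

open Pool.FC6 Pool.FC6.St

/-- the charge of a star with the flows `F` on the edges and the gains `E` of the darts -/
def chve {D : Type*} (sol lng : ℕ → Bool) (den nl nu dl : ℕ) (h : ℕ → ℕ)
    (F : List ℕ → List ℕ → ℕ) (E : D → ℤ) (S : FCS.Sys D) (e : D) : ℤ :=
  chv2 sol lng den nl nu dl h F S e + ∑ i ∈ range (S.W e).length, E (S.nx^[i] e)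

/-- the gains of the darts of a system with zero sum -/
def ZeroE (E : (D : Type) → FCS.Sys D → D → ℤ) : Prop :=
  ∀ (D : Type) [Fintype D] (Y : FCS.Sys D), Y.Ok cmpf lsol →
    ∑ d, (if Y.W d ≠ [] then E D Y d else 0) = 0

variable {D V : Type} [Fintype D] [DecidableEq V]
variable {S : St D V} {L : D → Bool} {w : D → ℕ} {d e r x : D} {U T : Finset V}

/-- the star inequality fails somewhere -/
theorem MC.star_fails4 (h : MC 6 S L w) (hS : IsStar S) {den nl nu dl hg hl : ℕ}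
    (hD : DscQ S U T den nu dl) (hnl : 5 * nl ≤ 8 * den) (hhg : 2 * hg ≤ den)
    (hhl : 5 * hl ≤ 4 * den) (fl : List ℕ → List ℕ → ℕ) {G : (D : Type) → FCS.Sys D → D → ℤ} (hG : ZeroE G) :
    ∃ e : D, S.real e = true ∧ S.M.v e ∈ U ∧
      0 < chve lsol lng den nl nu dl (hgf hg hl) fl (G D (wsy S L (fun x => x ∈ U)))
        (wsy S L (fun x => x ∈ U)) e := by
  classical
  have W := h.ok.toWf
  let Y := wsy S L (fun x => x ∈ U)
  have hY : Y.Ok cmpf lsol := h.wsy_ok hS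
  let E : D → ℝ := fun d => (((if Y.W d ≠ [] then G D Y d else 0 : ℤ)) : ℝ) / 2
  have hE : ∑ d, (if S.real d = true ∧ S.M.v d ∈ U then E d else 0) = 0 := by
    have h1 : ∀ d, (if S.real d = true ∧ S.M.v d ∈ U then E d else 0) = E d := by
      intro d
      by_cases h2 : S.real d = true ∧ S.M.v d ∈ U
      · rw [if_pos h2]
      · rw [if_neg h2]
        have h3 : ¬ Y.W d ≠ [] := fun h3 => h2 ⟨wsy_real h3, wsy_U h3⟩
        simp only [E]
        rw [if_neg h3, Int.cast_zero, zero_div]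
    rw [Finset.sum_congr rfl fun d _ => h1 d]
    simp only [E]
    rw [← Finset.sum_div, ← Int.cast_sum, hG D Y hY, Int.cast_zero,
      zero_div]
  obtain ⟨x, hxU, hx⟩ := hD.discharge3 W.real_α (flw S L U fl) (fun d _ h1 h2 => by
    show (if S.M.v (S.M.α d) ∈ U ∧ S.M.v (S.M.α (S.M.α d)) ∈ U then _ else _) =
      -(if S.M.v d ∈ U ∧ S.M.v (S.M.α d) ∈ U then _ else _)
    rw [S.M.αα, if_pos ⟨h2, h1⟩, if_pos ⟨h1, h2⟩]
    ring) E hE
  have hxA := hD.UA hxU
  have h4 := h.rdeg4 (le_refl 6) hxA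
  obtain ⟨e, he, hre⟩ : ∃ e, S.M.v e = x ∧ S.real e = true := by
    by_contra hc
    push Not at hc
    unfold rdeg at h4
    rw [Finset.sum_eq_zero] at h4
    · omega
    · intro e _
      rw [if_neg]
      rintro ⟨h1, h2⟩
      exact hc e h1 h2
  subst he
  refine ⟨e, hre, hxU, ?_⟩
  have h5 := h.cdu_le hS hD hnl hhg hhl fl hre hxU
  have hne : Y.W e ≠ [] := (h.wsy_ne hS hre).2 hxU
  have h6 : ∑ d, (if S.M.v d = S.M.v e ∧ S.real d = true then E d else 0) =
      ((∑ i ∈ range (Y.W e).length, G D Y (Y.nx^[i] e) : ℤ) : ℝ) / 2 := by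
    rw [h.sum_real hS hre, wsy_lwo hne, lwo_length, Int.cast_sum, Finset.sum_div]
    refine Finset.sum_congr rfl fun i _ => ?_
    have h7 : Y.nx^[i] e = S.nxr^[i] e := h.wsy_iter hS hre i
    have h8 : Y.W (S.nxr^[i] e) ≠ [] := (h.wsy_ne hS (hS.nxr_iter_real W hre i)).2 (by
      rw [v_nxr_iter]; exact hxU)
    simp only [E]
    rw [if_pos h8, h7]
  rw [h6] at hx
  have h9 : (0 : ℝ) < ((chve lsol lng den nl nu dl (hgf hg hl) fl (G D Y) Y e : ℤ) : ℝ) := by
    unfold chve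
    push_cast at hx ⊢
    linarith
  exact_mod_cast h9

/-- DISCHARGING: the star inequality fails somewhere, or the region has two vertices -/
theorem MC.assemble4 (h : MC 6 S L w) (hS : IsStar S) {den nl nu dl hg hl : ℕ} (hden : 0 < den)
    (hnl : 5 * nl ≤ 8 * den) (hnu : 2 * nu < 3 * den) (hdl : nu + dl < 2 * den)
    (hhg : 2 * hg ≤ den) (hhl : 5 * hl ≤ 4 * den) (fl : List ℕ → List ℕ → ℕ)
    {G : (D : Type) → FCS.Sys D → D → ℤ} (hG : ZeroE G) :
    (∃ U T, Dsi S U T ∧ ¬ N1 S U T) ∨ ∃ (U : V → Prop) (e : D), Reg S U ∧ Nu5 S U ∧ Nu1 S U ∧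
      S.real e = true ∧ U (S.M.v e) ∧
      0 < chve lsol lng den nl nu dl (hgf hg hl) fl (G D (wsy S L U)) (wsy S L U) e := by
  obtain ⟨U, T, hD, hC⟩ := h.dsh3 (le_refl 6) hS
  by_cases hN : N1 S U T
  · right
    obtain ⟨e, h1, h2, h3⟩ := h.star_fails4 hS
      (hD.toQ hN (hC hN) (h.rg (le_refl 6)) h.ok.toWf hden hnu hdl) hnl hhg hhl fl hG
    exact ⟨fun x => x ∈ U, e, hD.reg, hD.nu5 h.ok.real_α, hD.nu1 hN, h1, h2, h3⟩
  · exact Or.inl ⟨U, T, hD, hN⟩

end Pool.FC7
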