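import Pool.Agent.FC6.Pa

/-! # The class with optional faces: visited faces and solutions

`Vi S c d` : the real face of `d` contains a bichromatic real edge.  A face is required to be visited
only if it carries units; a labelled real edge needs a visited face on one of its sides. -/

open Finset

namespace Pool.FC7

open Pool.FC6

variable {D V : Type} [Fintype D] [DecidableEq V]

/-- a bichromatic real edge -/
def Br (S : St D V) (c : V → Bool) (d : D) : Prop :=
  S.real d = true ∧ c (S.M.v d) ≠ c (S.M.v (S.M.α d))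

/-- the face of `d` is visited -/
def Vi (S : St D V) (c : V → Bool) (d : D) : Prop :=
  ∃ e, Br S c e ∧ ∀ h : D → ℝ, S.Test c h → h e = h d

/-- the colouring `c` is a solution of the state `S` with the labels `L` -/
structure Sol (S : St D V) (L : D → Bool) (c : V → Bool) : Prop where
  con : ∀ h, S.Test c h → ∀ d d', Br S c d → Br S c d' → h d = h d'
  live : ∀ x ∈ S.A, ∃ d, S.M.v d = x ∧ Vi S c d
  req : ∀ d, S.u d ≠ 0 → Vi S c d
  lab : ∀ d, L d = true → Vi S c d ∨ Vi S c (S.M.α d)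

variable {S : St D V} {c : V → Bool} {d e : D}

theorem Br.op (h : Br S c d) : S.Op c d := Or.inr h.2

theorem Br.vi (h : Br S c d) : Vi S c d := ⟨d, h, fun _ _ => rfl⟩

theorem Br.α (hr : ∀ d, S.real (S.M.α d) = S.real d) (h : Br S c d) : Br S c (S.M.α d) := by
  refine ⟨by rw [hr]; exact h.1, ?_⟩
  rw [S.M.αα]; exact h.2.symm

theorem Vi.eq (h : Vi S c d) (he : ∀ h : D → ℝ, S.Test c h → h d = h e) : Vi S c e := by
  obtain ⟨b, h1, h2⟩ := h
  exact ⟨b, h1, fun t ht => (h2 t ht).trans (he t ht)⟩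

theorem Vi.φ (h : Vi S c d) : Vi S c (S.M.φ d) := h.eq fun _ ht => (ht.1 d).symm

theorem Vi.φ' (h : Vi S c (S.M.φ d)) : Vi S c d := by
  have := h.φ.φ
  rwa [S.M.φ3] at this

theorem Vi.α (h : Vi S c d) (ho : S.Op c d) : Vi S c (S.M.α d) := h.eq fun _ ht => (ht.2 d ho).symm

theorem Vi.α' (h : Vi S c (S.M.α d)) (ho : S.Op c d) : Vi S c d := h.eq fun _ ht => ht.2 d ho

theorem vi_φ : Vi S c (S.M.φ d) ↔ Vi S c d := ⟨Vi.φ', Vi.φ⟩

theorem vi_α (ho : S.Op c d) : Vi S c (S.M.α d) ↔ Vi S c d := ⟨fun h => h.α' ho, fun h => h.α ho⟩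

/-- the visited darts are closed under the open relation -/
theorem Vi.cls (K : D → Prop) (hφ : ∀ d, K (S.M.φ d) ↔ K d) (hα : ∀ d, S.Op c d → (K (S.M.α d) ↔ K d))
    (hB : ∀ d, Br S c d → K d) {d : D} (h : Vi S c d) : K d := by
  classical
  obtain ⟨e, h1, h2⟩ := h
  have := h2 (fun d => if K d then 1 else 0) ⟨fun d => by simp only [hφ d], fun d ho => by
    simp only [hα d ho]⟩
  simp only [if_pos (hB e h1)] at this
  by_contra hd
  rw [if_neg hd] at this
  exact one_ne_zero this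

theorem Sol.conv {L : D → Bool} (hs : Sol S L c) {h : D → ℝ} (ht : S.Test c h) {d d' : D}
    (hd : Vi S c d) (hd' : Vi S c d') : h d = h d' := by
  obtain ⟨e, h1, h2⟩ := hd
  obtain ⟨e', h1', h2'⟩ := hd'
  rw [← h2 h ht, ← h2' h ht]
  exact hs.con h ht e e' h1 h1'

end Pool.FC7
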