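import Pool.Agent.FC7.Q4B
import Pool.Agent.FC6.SigA

/-! # Cuts which have at least five real edges -/

open Finset

namespace Pool.FC7

open Pool.FC6 Pool.FC6.St

variable {D V : Type} [Fintype D] [DecidableEq V]

/-- the corner of a gap at the vertex of `t`: after `t` comes the virtual dart `σ t`, then the real dart
`σ (σ t)`; the corner has no unit, and the face has not exactly two units at the heads of the two real
darts -/
structure Gc (S : St D V) (t : D) : Prop where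
  r : S.real t = true
  h : S.real (S.M.σ t) = false
  r2 : S.real (S.M.σ (S.M.σ t)) = true
  u : S.u (S.M.σ (S.M.σ t)) = 0
  two : ¬ (fu S (S.M.σ (S.M.σ t)) = 2 ∧ S.u (S.M.α t) ≠ 0 ∧
    S.u (S.M.σ (S.M.σ (S.M.α (S.M.σ (S.M.σ t))))) ≠ 0)

/-- the corner of a gap at the vertex of `t` as above, and the two faces next to it are solid triangles -/
structure Gn (S : St D V) (t : D) : Prop where
  r : S.real t = true
  h : S.real (S.M.σ t) = false
  r2 : S.real (S.M.σ (S.M.σ t)) = true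
  f2 : S.real (S.M.σ (S.M.σ (S.M.σ t))) = true
  f4 : S.real (S.M.φ (S.M.φ t)) = true

/-- the other real darts at the vertex of `t` lead to the other side than `t` and `t'` -/
def Oth (S : St D V) (s : V → Bool) (t t' : D) : Prop :=
  S.rdeg (S.M.v t) = 4 ∧ s (S.M.v (S.M.α t')) = s (S.M.v (S.M.α t)) ∧
    ∀ e, S.M.v e = S.M.v t → S.real e = true → e ≠ t → e ≠ t' →
      s (S.M.v (S.M.α e)) ≠ s (S.M.v (S.M.α t))

/-- the real dart `t'` follows the real dart `t` at its vertex -/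
def Nx (S : St D V) (t t' : D) : Prop :=
  S.real t' = true ∧ (t' = S.M.σ t ∨ (t' = S.M.σ (S.M.σ t) ∧ S.real (S.M.σ t) = false))

/-- two consecutive real edges of a cut, a plain triangle and a face with units next to them -/
def Op5 (S : St D V) (L : D → Bool) (s : V → Bool) (t t' : D) : Prop :=
  s (S.M.v t) ≠ s (S.M.v (S.M.α t)) ∧ s (S.M.v t) ≠ s (S.M.v (S.M.α t')) ∧
    ((Pt S L s (S.M.α t') ∧ fu S t ≠ 0) ∨ (Pt S L s t ∧ fu S (S.M.α t') ≠ 0))

/-- three consecutive real edges of a cut, the face before them or behind them has at most four edges -/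
def C35 (S : St D V) (s : V → Bool) (t r m : D) : Prop :=
  s (S.M.v t) ≠ s (S.M.v (S.M.α t)) ∧ s (S.M.v t) ≠ s (S.M.v (S.M.α r)) ∧
    s (S.M.v t) ≠ s (S.M.v (S.M.α m)) ∧
    (S.real (S.M.φ t) = true ∨ S.M.σ^[4] (S.M.φ (S.M.φ t)) = S.M.φ (S.M.φ t) ∨
      S.real (S.M.σ m) = true ∨ S.M.σ^[4] (S.M.α (S.M.σ m)) = S.M.α (S.M.σ m))

/-- one side of a cut `k1, k2, k3, k4` is impossible: `c` = common ends of consecutive edges, `p` =
plain triangles, `n` = faces with units -/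
def bad5 (c1 c2 c3 c4 p1 p2 p3 p4 n1 n2 n3 n4 : Bool) : Bool :=
  !(((!c2 && !c4 && !p1 && !p3) || (!c3 && !c1 && !p2 && !p4)) &&
    (!(n1 || n3) || (!c2 && !c4 && !p1 && !p3)) && (!(n2 || n4) || (!c3 && !c1 && !p2 && !p4)))

/-- three edges of a cut in the order of the dual cycle, and what is known about the faces and the
common ends exclude that the cut has four edges -/
structure Ty5 (S : St D V) (L : D → Bool) (s : V → Bool) (k1 k2 k3 : D) : Prop where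
  r1 : S.real k1 = true
  r2 : S.real k2 = true
  r3 : S.real k3 = true
  c1 : s (S.M.v k1) ≠ s (S.M.v (S.M.α k1))
  a2 : s (S.M.v k2) = s (S.M.v k1)
  b2 : s (S.M.v (S.M.α k2)) = s (S.M.v (S.M.α k1))
  a3 : s (S.M.v k3) = s (S.M.v k1)
  b3 : s (S.M.v (S.M.α k3)) = s (S.M.v (S.M.α k1))
  n12 : k1 ≠ k2
  n13 : k1 ≠ k3
  n23 : k2 ≠ k3
  f1 : S.sc.r (S.M.α k1) k2
  f2 : S.sc.r (S.M.α k2) k3
  fl : ∃ x1 x2 x3 x4 y1 y2 y3 y4 p1 p2 p3 p4 n1 n2 n3 n4 : Bool,
    ((p1 = true → Pt S L s k2) ∧ (p2 = true → Pt S L s k3) ∧ (p3 = true → Pt S L s (S.M.α k3)) ∧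
      (p4 = true → Pt S L s k1)) ∧
    ((n1 = true → fu S k2 ≠ 0) ∧ (n2 = true → fu S k3 ≠ 0) ∧ (n3 = true → fu S (S.M.α k3) ≠ 0) ∧
      (n4 = true → fu S k1 ≠ 0)) ∧
    ((x1 = true → S.M.v k1 = S.M.v k2) ∧ (x2 = true → S.M.v k2 = S.M.v k3) ∧
      (x3 = true → (∀ d, Fp S (S.M.α k3) d → S.real d = true) ∧
        s (S.M.v (S.M.φ (S.M.φ (S.M.α k3)))) = s (S.M.v (S.M.α k1))) ∧
      (x4 = true → (∀ d, Fp S k1 d → S.real d = true) ∧
        s (S.M.v (S.M.φ (S.M.φ k1))) = s (S.M.v (S.M.α k1)))) ∧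
    ((y1 = true → S.M.v (S.M.α k1) = S.M.v (S.M.α k2)) ∧
      (y2 = true → S.M.v (S.M.α k2) = S.M.v (S.M.α k3)) ∧
      (y3 = true → (∀ d, Fp S (S.M.α k3) d → S.real d = true) ∧
        s (S.M.v (S.M.φ (S.M.φ (S.M.α k3)))) = s (S.M.v k1)) ∧
      (y4 = true → (∀ d, Fp S k1 d → S.real d = true) ∧
        s (S.M.v (S.M.φ (S.M.φ k1))) = s (S.M.v k1))) ∧
    bad5 x1 x2 x3 x4 p1 p2 p3 p4 n1 n2 n3 n4 = true ∧
    bad5 y1 y2 y3 y4 p1 p2 p3 p4 n1 n2 n3 n4 = true

/-- six consecutive real darts at a vertex, three on every side of a cut, a gap with units between them,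
plain triangles next to the gap -/
structure G65 (S : St D V) (L : D → Bool) (s : V → Bool) (t0 t1 t2 t3 t4 t5 : D) : Prop where
  r0 : S.real t0 = true
  g0 : S.real (S.M.σ t0) = false
  x1 : Nx S t0 t1
  x2 : Nx S t1 t2
  x3 : Nx S t2 t3
  x4 : Nx S t3 t4
  x5 : Nx S t4 t5
  x0 : Nx S t5 t0
  u : fu S t1 ≠ 0
  P1 : Pt S L s (S.M.α t1)
  P5 : Pt S L s t0
  c2 : s (S.M.v (S.M.α t2)) = s (S.M.v (S.M.α t1))
  c3 : s (S.M.v (S.M.α t3)) = s (S.M.v (S.M.α t1))
  c4 : s (S.M.v (S.M.α t4)) ≠ s (S.M.v (S.M.α t1))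
  c5 : s (S.M.v (S.M.α t5)) ≠ s (S.M.v (S.M.α t1))
  c0 : s (S.M.v (S.M.α t0)) ≠ s (S.M.v (S.M.α t1))

/-- the four real darts `a1, …, a4` at a vertex, a gap between `a4` and `a1`, solid triangles between
the others, the first and the last one are plain; the ends of `a2` and `a3` have four real darts, their
fourth neighbours are the only two of the vertices on the other side of the cut -/
structure Tr3 (S : St D V) (L : D → Bool) (s : V → Bool) (a1 a2 a3 a4 b c : D) : Prop where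
  r4 : S.real a4 = true
  g : S.real (S.M.σ a4) = false
  x1 : Nx S a4 a1
  x2 : Nx S a1 a2
  x3 : Nx S a2 a3
  x4 : Nx S a3 a4
  Pw : Pt S L s a2
  Py : Pt S L s a4
  rt : S.real (S.M.φ a3) = true
  b1 : Nx S (S.M.φ a2) b
  b2 : Nx S b (S.M.α (S.M.φ a3))
  c1 : Nx S (S.M.φ a3) c
  c2 : Nx S c (S.M.α (S.M.φ a4))
  s1 : s (S.M.v (S.M.α a1)) = s (S.M.v a4)
  s2 : s (S.M.v (S.M.α a2)) = s (S.M.v a4)
  s3 : s (S.M.v (S.M.α a3)) = s (S.M.v a4)
  s4 : s (S.M.v (S.M.α a4)) = s (S.M.v a4)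
  sb : s (S.M.v (S.M.α b)) ≠ s (S.M.v a4)
  sc : s (S.M.v (S.M.α c)) ≠ s (S.M.v a4)

/-- conditions for a cut with at least two alive vertices on both sides, `K`: the vertices of the
region.  A real edge of the cut lies between two solid triangles without units, whose uncut edges are not
labelled; or two real edges of the cut are consecutive at a gap, and the next triangle is solid without
units, and its other edge at the vertex is not labelled; or the four real edges at a vertex lead to both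
sides, in pairs; or two real edges of the cut are consecutive at a gap between two solid triangles, whose
third vertices are on the side of the vertex, or its real degree is at most five; or two real edges of
the cut are consecutive at a vertex, the next triangle is plain and the face before them has units; or a
real edge of the cut is labelled; or three real edges of the cut are consecutive at a vertex and the next
face has at most four edges; or the types of the faces at the cut exclude four edges; or three of six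
edges at a vertex are on every side and there is a gap between two plain triangles; or the vertices
around a vertex with four edges and a gap (`Tr3`) -/
def C5 (S : St D V) (L : D → Bool) (K : V → Prop) (s : V → Bool) : Prop :=
  (∃ p, s (S.M.v p) ≠ s (S.M.v (S.M.α p)) ∧ Pt S L s p ∧ Pt S L s (S.M.α p)) ∨
  (∃ t, K (S.M.v t) ∧ Gc S t ∧ s (S.M.v t) ≠ s (S.M.v (S.M.α t)) ∧
    s (S.M.v t) ≠ s (S.M.v (S.M.α (S.M.σ (S.M.σ t)))) ∧
    ((Pt S L s t ∧ L (S.M.φ (S.M.φ t)) = false) ∨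
      (Pt S L s (S.M.α (S.M.σ (S.M.σ t))) ∧ L (S.M.σ (S.M.σ (S.M.σ t))) = false))) ∨
  (∃ t, K (S.M.v t) ∧ S.real t = true ∧ S.real (S.M.σ t) = true ∧ S.real (S.M.φ (S.M.σ t)) = true ∧
    S.u (S.M.σ t) = 0 ∧ S.u (S.M.φ (S.M.σ t)) = 0 ∧ S.u (S.M.α t) = 0 ∧
    L (S.M.φ (S.M.σ t)) = false ∧ Oth S s t (S.M.σ t)) ∨
  (∃ t, K (S.M.v t) ∧ Gc S t ∧ Oth S s t (S.M.σ (S.M.σ t)) ∧
    (S.real (S.M.σ (S.M.σ (S.M.σ t))) = true ∨ S.real (S.M.φ (S.M.φ t)) = true)) ∨
  (∃ t, K (S.M.v t) ∧ Gn S t ∧ s (S.M.v t) ≠ s (S.M.v (S.M.α t)) ∧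
    s (S.M.v t) ≠ s (S.M.v (S.M.α (S.M.σ (S.M.σ t)))) ∧
    ((s (S.M.v (S.M.α (S.M.σ (S.M.σ (S.M.σ t))))) = s (S.M.v t) ∧
      s (S.M.v (S.M.φ (S.M.φ t))) = s (S.M.v t)) ∨ S.rdeg (S.M.v t) ≤ 5)) ∨
  (∃ t t', S.real t = true ∧ Nx S t t' ∧ Op5 S L s t t') ∨
  (∃ t, L t = true ∧ s (S.M.v t) ≠ s (S.M.v (S.M.α t))) ∨
  (∃ t r m, K (S.M.v t) ∧ S.real t = true ∧ Nx S t r ∧ Nx S r m ∧ C35 S s t r m) ∨
  (∃ k1 k2 k3, Ty5 S L s k1 k2 k3) ∨
  (∃ t0 t1 t2 t3 t4 t5, G65 S L s t0 t1 t2 t3 t4 t5) ∨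
  (∃ a1 a2 a3 a4 b c, Tr3 S L s a1 a2 a3 a4 b c)

/-- the conditions which do not need two alive vertices on both sides -/
def C5o (S : St D V) (L : D → Bool) (s : V → Bool) : Prop :=
  (∃ t t', S.real t = true ∧ Nx S t t' ∧ Op5 S L s t t') ∨
  (∃ t, L t = true ∧ s (S.M.v t) ≠ s (S.M.v (S.M.α t))) ∨
  (∃ t0 t1 t2 t3 t4 t5, G65 S L s t0 t1 t2 t3 t4 t5)

/-- such cuts have at least five real edges -/
def H5 (S : St D V) (L : D → Bool) (K : V → Prop) : Prop :=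
  ∀ s : V → Bool, (C5o S L s → 5 ≤ S.rc s) ∧
    (S.Two s true → S.Two s false → C5 S L K s → 5 ≤ S.rc s)

variable {S : St D V} {L : D → Bool} {K K' : V → Prop}

theorem C5.mono {s : V → Bool} (h : ∀ x, K x → K' x) (h5 : C5 S L K s) : C5 S L K' s := by
  rcases h5 with h5 | ⟨t, h1, h2⟩ | ⟨t, h1, h2⟩ | ⟨t, h1, h2⟩ | ⟨t, h1, h2⟩ | h5 | h5 |
    ⟨t, r, m, h1, h2⟩ | h5 | h5 | h5
  · exact Or.inl h5
  · exact Or.inr (Or.inl ⟨t, h _ h1, h2⟩)
  · exact Or.inr (Or.inr (Or.inl ⟨t, h _ h1, h2⟩))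
  · exact Or.inr (Or.inr (Or.inr (Or.inl ⟨t, h _ h1, h2⟩)))
  · exact Or.inr (Or.inr (Or.inr (Or.inr (Or.inl ⟨t, h _ h1, h2⟩))))
  · exact Or.inr (Or.inr (Or.inr (Or.inr (Or.inr (Or.inl h5)))))
  · exact Or.inr (Or.inr (Or.inr (Or.inr (Or.inr (Or.inr (Or.inl h5))))))
  · exact Or.inr (Or.inr (Or.inr (Or.inr (Or.inr (Or.inr (Or.inr (Or.inl ⟨t, r, m, h _ h1, h2⟩)))))))
  · exact Or.inr (Or.inr (Or.inr (Or.inr (Or.inr (Or.inr (Or.inr (Or.inr (Or.inl h5))))))))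
  · exact Or.inr (Or.inr (Or.inr (Or.inr (Or.inr (Or.inr (Or.inr (Or.inr (Or.inr (Or.inl h5)))))))))
  · exact Or.inr (Or.inr (Or.inr (Or.inr (Or.inr (Or.inr (Or.inr (Or.inr (Or.inr (Or.inr h5)))))))))

theorem H5.mono (h5 : H5 S L K') (h : ∀ x, K x → K' x) : H5 S L K :=
  fun s => ⟨(h5 s).1, fun h1 h2 h3 => (h5 s).2 h1 h2 (h3.mono h)⟩

end Pool.FC7
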