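import Pool.Agent.FC7.Q4B
import Pool.Agent.FC6.SigA

/-! # Cuts with four real edges next to two plain triangles: the lemma -/

open Finset

namespace Pool.FC7

open Pool.FC6 Pool.FC6.St

variable {D V : Type} [Fintype D] [DecidableEq V] {S : St D V} {L : D → Bool} {w : D → ℕ} {Δ : ℕ}

section

variable {s : V → Bool} (W : Wf Δ S L w) (hT : ConS S.M s true) (hF : ConS S.M s false)

include W hT hF

/-- the gluing, the middle edge is monochromatic for `c1` -/
theorem core4 [DecidableEq D] {c1 c2 : V → Bool} (hx : ∀ x, s x = true → c1 x = c2 x)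
    (hy : ∀ x, s x = false → c1 x = !c2 x) (S1 : Sides S L w s c1) (S2 : Sides S L w s c2)
    {k1 k2 k3 k4 : D} (hK : kc S s = {k1, k2, k3, k4})
    (h12 : k1 ≠ k2) (h13 : k1 ≠ k3) (h14 : k1 ≠ k4) (h23 : k2 ≠ k3) (h24 : k2 ≠ k4)
    (h34 : k3 ≠ k4) (P2 : Pt S L s k2) (P3 : Pt S L s k3)
    (f1 : Fp S k2 (S.M.α k1)) (f2 : Fp S k3 (S.M.α k2))
    (m2 : c1 (S.M.v k2) = c1 (S.M.v (S.M.α k2))) : ∃ c, Sol S L c := by
  have K1 : k1 ∈ kc S s := by rw [hK]; simp
  have K2 : k2 ∈ kc S s := by rw [hK]; simp
  have K3 : k3 ∈ kc S s := by rw [hK]; simp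
  have K4 : k4 ∈ kc S s := by rw [hK]; simp
  have mem : ∀ {k}, k ∈ kc S s → k = k1 ∨ k = k2 ∨ k = k3 ∨ k = k4 := fun {k} hk => by
    rw [hK] at hk
    simpa using hk
  -- an edge is monochromatic for exactly one of the two colourings
  have ex : ∀ k ∈ kc S s, (c1 (S.M.v k) = c1 (S.M.v (S.M.α k)) ∧
      ¬ c2 (S.M.v k) = c2 (S.M.v (S.M.α k))) ∨ (¬ c1 (S.M.v k) = c1 (S.M.v (S.M.α k)) ∧
      c2 (S.M.v k) = c2 (S.M.v (S.M.α k))) := by
    intro k hk
    obtain ⟨-, a1, a2⟩ := mem_kc.1 hk
    rw [hx _ a1, hy _ a2]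
    cases c2 (S.M.v k) <;> cases c2 (S.M.v (S.M.α k)) <;> simp
  have n2 : ¬ c2 (S.M.v k2) = c2 (S.M.v (S.M.α k2)) := by
    rcases ex k2 K2 with h | h
    · exact h.2
    · exact absurd m2 h.1
  have D1 := fun hd => (⟨c1, sol_of_diff W hT hF S1 K2 hd⟩ : ∃ c, Sol S L c)
  have D2 := fun hd => (⟨c2, sol_of_diff W hT hF S2 K2 hd⟩ : ∃ c, Sol S L c)
  rcases ex k1 K1 with ⟨m1, n1⟩ | ⟨n1, m1⟩
  · rcases ex k3 K3 with ⟨m3, n3⟩ | ⟨n3, m3⟩
    · refine D2 fun k hk k' hk' a b _ => ?_
      rcases mem hk with e | e | e | e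
      · rw [e] at a; exact absurd a n1
      · rw [e] at a; exact absurd a n2
      · rw [e] at a; exact absurd a n3
      · rcases mem hk' with e' | e' | e' | e'
        · rw [e'] at b; exact absurd b n1
        · rw [e'] at b; exact absurd b n2
        · rw [e'] at b; exact absurd b n3
        · rw [e, e']
    · rcases ex k4 K4 with ⟨m4, n4⟩ | ⟨n4, m4⟩
      · refine D2 fun k hk k' hk' a b _ => ?_
        rcases mem hk with e | e | e | e
        · rw [e] at a; exact absurd a n1
        · rw [e] at a; exact absurd a n2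
        · rcases mem hk' with e' | e' | e' | e'
          · rw [e'] at b; exact absurd b n1
          · rw [e'] at b; exact absurd b n2
          · rw [e, e']
          · rw [e'] at b; exact absurd b n4
        · rw [e] at a; exact absurd a n4
      · -- `k1, k2` and `k3, k4`
        by_cases e12 : c1 (S.M.v k2) = c1 (S.M.v k1)
        · by_cases e34 : c2 (S.M.v k3) = c2 (S.M.v k4)
          · exact ⟨c1, sol_of_face W hT hF S1 K2 K1 K3 h12.symm h23.symm h13.symm P2 f1 m2 m1 e12
              fun k hk a b => by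
                rcases mem hk with e | e | e | e
                · exact absurd e b
                · exact absurd e a
                · rw [e]; exact n3
                · rw [e]; exact n4⟩
          · refine D2 fun k hk k' hk' a b c => ?_
            rcases mem hk with e | e | e | e
            · rw [e] at a; exact absurd a n1
            · rw [e] at a; exact absurd a n2
            · rcases mem hk' with e' | e' | e' | e'
              · rw [e'] at b; exact absurd b n1
              · rw [e'] at b; exact absurd b n2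
              · rw [e, e']
              · rw [e, e'] at c; exact absurd c e34
            · rcases mem hk' with e' | e' | e' | e'
              · rw [e'] at b; exact absurd b n1
              · rw [e'] at b; exact absurd b n2
              · rw [e, e'] at c; exact absurd c.symm e34
              · rw [e, e']
        · refine D1 fun k hk k' hk' a b c => ?_
          rcases mem hk with e | e | e | e
          · rcases mem hk' with e' | e' | e' | e'
            · rw [e, e']
            · rw [e, e'] at c; exact absurd c.symm e12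
            · rw [e'] at b; exact absurd b n3
            · rw [e'] at b; exact absurd b n4
          · rcases mem hk' with e' | e' | e' | e'
            · rw [e, e'] at c; exact absurd c e12
            · rw [e, e']
            · rw [e'] at b; exact absurd b n3
            · rw [e'] at b; exact absurd b n4
          · rw [e] at a; exact absurd a n3
          · rw [e] at a; exact absurd a n4
  · rcases ex k3 K3 with ⟨m3, n3⟩ | ⟨n3, m3⟩
    · rcases ex k4 K4 with ⟨m4, n4⟩ | ⟨n4, m4⟩
      · refine D2 fun k hk k' hk' a b _ => ?_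
        rcases mem hk with e | e | e | e
        · rcases mem hk' with e' | e' | e' | e'
          · rw [e, e']
          · rw [e'] at b; exact absurd b n2
          · rw [e'] at b; exact absurd b n3
          · rw [e'] at b; exact absurd b n4
        · rw [e] at a; exact absurd a n2
        · rw [e] at a; exact absurd a n3
        · rw [e] at a; exact absurd a n4
      · -- `k2, k3` and `k1, k4`
        by_cases e23 : c1 (S.M.v k3) = c1 (S.M.v k2)
        · by_cases e14 : c2 (S.M.v k1) = c2 (S.M.v k4)
          · exact ⟨c1, sol_of_face W hT hF S1 K3 K2 K1 h23.symm h13 h12 P3 f2 m3 m2 e23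
              fun k hk a b => by
                rcases mem hk with e | e | e | e
                · rw [e]; exact n1
                · exact absurd e b
                · exact absurd e a
                · rw [e]; exact n4⟩
          · refine D2 fun k hk k' hk' a b c => ?_
            rcases mem hk with e | e | e | e
            · rcases mem hk' with e' | e' | e' | e'
              · rw [e, e']
              · rw [e'] at b; exact absurd b n2
              · rw [e'] at b; exact absurd b n3
              · rw [e, e'] at c; exact absurd c e14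
            · rw [e] at a; exact absurd a n2
            · rw [e] at a; exact absurd a n3
            · rcases mem hk' with e' | e' | e' | e'
              · rw [e, e'] at c; exact absurd c.symm e14
              · rw [e'] at b; exact absurd b n2
              · rw [e'] at b; exact absurd b n3
              · rw [e, e']
        · refine D1 fun k hk k' hk' a b c => ?_
          rcases mem hk with e | e | e | e
          · rw [e] at a; exact absurd a n1
          · rcases mem hk' with e' | e' | e' | e'
            · rw [e'] at b; exact absurd b n1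
            · rw [e, e']
            · rw [e, e'] at c; exact absurd c.symm e23
            · rw [e'] at b; exact absurd b n4
          · rcases mem hk' with e' | e' | e' | e'
            · rw [e'] at b; exact absurd b n1
            · rw [e, e'] at c; exact absurd c e23
            · rw [e, e']
            · rw [e'] at b; exact absurd b n4
          · rw [e] at a; exact absurd a n4
    · rcases ex k4 K4 with ⟨m4, n4⟩ | ⟨n4, m4⟩
      · -- `k2, k4` and `k1, k3`
        by_cases e24 : c1 (S.M.v k2) = c1 (S.M.v k4)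
        · by_cases e13 : c2 (S.M.v k1) = c2 (S.M.v k3)
          · have hx' : ∀ x, s x = true → c2 x = c1 x := fun x h => (hx x h).symm
            have hy' : ∀ x, s x = false → c2 x = !c1 x := fun x h => by
              rw [hy x h, Bool.not_not]
            by_cases hi : ∀ h2 : D → ℝ, S.Test c2 h2 → ∀ k ∈ kc S s, h2 (S.M.α k) = h2 k
            · exact ⟨c2, sol_of_inv W hT hF S2 K2 hi⟩
            · push Not at hi
              obtain ⟨h2, t2, k, hk, hne⟩ := hi
              refine ⟨c1, sol_of_inv W hT hF S1 K2 fun h1 t1 => ?_⟩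
              rcases no_two W hx' hy' hK h12 h13 h14 h23 h24 h34 m1 m3 e13 m2 m4 e24 f1 f2 t2 t1
                with h | h
              · exact absurd (h k hk) hne
              · exact h
          · refine D2 fun k hk k' hk' a b c => ?_
            rcases mem hk with e | e | e | e
            · rcases mem hk' with e' | e' | e' | e'
              · rw [e, e']
              · rw [e'] at b; exact absurd b n2
              · rw [e, e'] at c; exact absurd c e13
              · rw [e'] at b; exact absurd b n4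
            · rw [e] at a; exact absurd a n2
            · rcases mem hk' with e' | e' | e' | e'
              · rw [e, e'] at c; exact absurd c.symm e13
              · rw [e'] at b; exact absurd b n2
              · rw [e, e']
              · rw [e'] at b; exact absurd b n4
            · rw [e] at a; exact absurd a n4
        · refine D1 fun k hk k' hk' a b c => ?_
          rcases mem hk with e | e | e | e
          · rw [e] at a; exact absurd a n1
          · rcases mem hk' with e' | e' | e' | e'
            · rw [e'] at b; exact absurd b n1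
            · rw [e, e']
            · rw [e'] at b; exact absurd b n3
            · rw [e, e'] at c; exact absurd c e24
          · rw [e] at a; exact absurd a n3
          · rcases mem hk' with e' | e' | e' | e'
            · rw [e'] at b; exact absurd b n1
            · rw [e, e'] at c; exact absurd c.symm e24
            · rw [e'] at b; exact absurd b n3
            · rw [e, e']
      · refine D1 fun k hk k' hk' a b _ => ?_
        rcases mem hk with e | e | e | e
        · rw [e] at a; exact absurd a n1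
        · rcases mem hk' with e' | e' | e' | e'
          · rw [e'] at b; exact absurd b n1
          · rw [e, e']
          · rw [e'] at b; exact absurd b n3
          · rw [e'] at b; exact absurd b n4
        · rw [e] at a; exact absurd a n3
        · rw [e] at a; exact absurd a n4

end

/-- two darts at a vertex of degree at least three -/
theorem σσ_ne {y : D} (h4 : 4 ≤ S.rdeg (S.M.v y)) : S.M.σ (S.M.σ y) ≠ y := by
  classical
  intro h0
  have h1 : S.rdeg (S.M.v y) ≤ 2 := by
    have h2 : S.rdeg (S.M.v y) = (Finset.univ.filter fun d => S.M.v d = S.M.v y ∧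
        S.real d = true).card := by
      rw [Finset.card_filter]
      rfl
    rw [h2]
    refine le_trans (Finset.card_le_card (t := {y, S.M.σ y}) fun d hd => ?_) Finset.card_le_two
    obtain ⟨n, hn⟩ := S.M.σ_orbit (Finset.mem_filter.1 hd).2.1.symm
    rw [← hn]
    clear hn hd h2
    induction n with
    | zero => simp
    | succ n ih =>
      rw [Function.iterate_succ_apply']
      simp only [Finset.mem_insert, Finset.mem_singleton] at ih ⊢
      rcases ih with g1 | g1
      · rw [g1]; exact Or.inr rfl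
      · rw [g1, h0]; exact Or.inl rfl
  omega

/-- the cut contains the edge of `p`, which leads from the side `true` to the side `false` -/
theorem MC.four (hΔ : Δ ≤ 6) (h : MC Δ S L w) {s : V → Bool} (h4 : S.rc s = 4)
    (hT : ConS S.M s true) (hF : ConS S.M s false)
    (n1 : ∃ d, S.real d = true ∧ s (S.M.v d) = true ∧ s (S.M.v (S.M.α d)) = true)
    (n2 : ∃ d, S.real d = true ∧ s (S.M.v d) = false ∧ s (S.M.v (S.M.α d)) = false) {p : D}
    (hp : p ∈ kc S s) (P1 : Pt S L s p) (P2 : Pt S L s (S.M.α p)) : False := by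
  classical
  have W := h.ok.toWf
  have rα := W.real_α
  have rA := W.real_A
  obtain ⟨hpr, hp1, hp2⟩ := mem_kc.1 hp
  have hxy : s (S.M.v p) ≠ s (S.M.v (S.M.α p)) := mix_kc hp
  -- the solutions
  have hsol : ∀ b : Bool, (∃ d, S.real d = true ∧ s (S.M.v d) = b ∧ s (S.M.v (S.M.α d)) = b) →
      ∃ cb, Sol (sd S w s b) (sdL S L s b) cb := by
    rintro b ⟨d, hd⟩
    have hne : ∃ d, (S.del (S.A.filter fun x => s x ≠ b)).real d = true :=
      ⟨d, (sd_real (w := w) rA rα).2 hd⟩
    obtain ⟨z, hz, hzb⟩ : ∃ z ∈ S.A, s z ≠ b := by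
      cases b
      · exact ⟨_, rA p hpr, by rw [hp1]; simp⟩
      · exact ⟨_, rA _ (by rw [rα]; exact hpr), by rw [hp2]; simp⟩
    obtain ⟨cb, hcb⟩ := h.min D V _ _ _ (h.w1.dl _) (h.ok.dl hne) (mu_dl h.ok hΔ
      (Finset.filter_subset _ _) ⟨z, Finset.mem_filter.2 ⟨hz, hzb⟩⟩ hne)
    exact ⟨cb, hcb⟩
  obtain ⟨a, ha⟩ := hsol true n1
  obtain ⟨b, hb⟩ := hsol false n2
  have vi : ∀ (b : Bool) (cb : V → Bool), Sol (sd S w s b) (sdL S L s b) cb → ∀ d0,
      s (S.M.v d0) ≠ s (S.M.v (S.M.α d0)) → Vi (sd S w s b) cb d0 := fun b cb hcb d0 hd0 =>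
    hole_vi h.ok hT hF ⟨_, rA p hpr, hp1⟩ ⟨_, rA _ (by rw [rα]; exact hpr), hp2⟩ hd0 hcb
  have mk : ∀ b' : V → Bool, Sol (sd S w s false) (sdL S L s false) b' →
      Sides S L w s (fun x => if s x = true then a x else b' x) := by
    intro b' hb' d0 hd0 β
    cases β
    · exact ⟨b', fun x hx => if_neg (by rw [hx]; decide), hb', vi _ _ hb' d0 hd0⟩
    · exact ⟨a, fun x hx => if_pos hx, ha, vi _ _ ha d0 hd0⟩
  have S1 := mk b hb
  have S2 := mk _ hb.neg
  have hx : ∀ x, s x = true → (if s x = true then a x else b x) =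
      (if s x = true then a x else !b x) := fun x h => by rw [if_pos h, if_pos h]
  have hy : ∀ x, s x = false → (if s x = true then a x else b x) =
      !(if s x = true then a x else !b x) := fun x h => by
    rw [if_neg (by rw [h]; decide), if_neg (by rw [h]; decide), Bool.not_not]
  have hx' := fun x h => (hx x h).symm
  have hy' : ∀ x, s x = false → (if s x = true then a x else !b x) =
      !(if s x = true then a x else b x) := fun x h => by
    rw [hy x h, Bool.not_not]
  -- the edge next to `p` in the first triangle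
  obtain ⟨k1, K1, f1⟩ : ∃ k1 ∈ kc S s, Fp S p (S.M.α k1) ∧ S.M.α k1 ≠ p ∧
      ((S.M.v k1 = S.M.v (S.M.φ (S.M.φ p)) ∧ S.M.α k1 = S.M.φ p) ∨
        (S.M.v k1 = S.M.v p ∧ S.M.α k1 = S.M.φ (S.M.φ p))) := by
    cases hz : s (S.M.v (S.M.φ (S.M.φ p)))
    · refine ⟨S.M.α (S.M.φ (S.M.φ p)), mem_kc.2 ⟨?_, ?_, ?_⟩, ?_, ?_, Or.inr ⟨?_, ?_⟩⟩
      · rw [rα]; exact P1.real _ (Or.inr (Or.inr rfl))
      · rw [S.M.vφ2]; exact hp1
      · rw [S.M.αα]; exact hz
      · rw [S.M.αα]; exact Or.inr (Or.inr rfl)
      · rw [S.M.αα]; exact S.M.φφne p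
      · exact S.M.vφ2 p
      · exact S.M.αα _
    · refine ⟨S.M.α (S.M.φ p), mem_kc.2 ⟨?_, ?_, ?_⟩, ?_, ?_, Or.inl ⟨?_, ?_⟩⟩
      · rw [rα]; exact P1.real _ (Or.inr (Or.inl rfl))
      · rw [← S.M.vφ]; exact hz
      · rw [S.M.αα, S.M.vφ]; exact hp2
      · rw [S.M.αα]; exact Or.inr (Or.inl rfl)
      · rw [S.M.αα]; exact S.M.φne p
      · exact (S.M.vφ _).symm
      · exact S.M.αα _
  obtain ⟨f1, g1, o1⟩ := f1
  -- the edge next to `p` in the second triangle
  obtain ⟨k3, K3, f2⟩ : ∃ k3 ∈ kc S s, Fp S (S.M.α p) k3 ∧ k3 ≠ S.M.α p ∧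
      ((S.M.v (S.M.α k3) = S.M.v (S.M.α p) ∧ k3 = S.M.φ (S.M.φ (S.M.α p))) ∨
        (S.M.v k3 = S.M.v p ∧ k3 = S.M.φ (S.M.α p))) := by
    cases hz : s (S.M.v (S.M.φ (S.M.φ (S.M.α p))))
    · refine ⟨S.M.φ (S.M.α p), mem_kc.2 ⟨?_, ?_, ?_⟩, ?_, ?_, Or.inr ⟨?_, rfl⟩⟩
      · exact P2.real _ (Or.inr (Or.inl rfl))
      · rw [S.M.vφ, S.M.αα]; exact hp1
      · rw [← S.M.vφ]; exact hz
      · exact Or.inr (Or.inl rfl)
      · exact S.M.φne _
      · rw [S.M.vφ, S.M.αα]
    · refine ⟨S.M.φ (S.M.φ (S.M.α p)), mem_kc.2 ⟨?_, ?_, ?_⟩, ?_, ?_, Or.inl ⟨?_, rfl⟩⟩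
      · exact P2.real _ (Or.inr (Or.inr rfl))
      · exact hz
      · rw [S.M.vφ2]; exact hp2
      · exact Or.inr (Or.inr rfl)
      · exact S.M.φφne _
      · exact S.M.vφ2 _
  obtain ⟨f2, g2, o2⟩ := f2
  have hf2 : Fp S k3 (S.M.α p) := fp_trans f2 (Or.inl rfl)
  -- the edges are different
  have h12 : k1 ≠ p := by
    rintro rfl
    exact fp_α W.real_ne P1.real (Or.inl rfl) f1
  have h23 : p ≠ k3 := by
    intro h0
    rw [← h0] at f2
    have := fp_α W.real_ne P2.real (Or.inl rfl)
    rw [S.M.αα] at this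
    exact this f2
  have h13 : k1 ≠ k3 := by
    intro h0
    rcases o1 with ⟨a1, a2⟩ | ⟨a1, a2⟩ <;> rcases o2 with ⟨b1, b2⟩ | ⟨b1, b2⟩
    · -- both at the vertex `v (α p)`
      have e1 : S.M.σ (S.M.α p) = S.M.φ p := by
        show S.M.φ (S.M.α (S.M.α p)) = S.M.φ p
        rw [S.M.αα]
      have e2 : S.M.σ (S.M.φ p) = S.M.α p := by
        show S.M.φ (S.M.α (S.M.φ p)) = S.M.α p
        rw [← a2, S.M.αα, h0, b2, S.M.φ3]
      exact σσ_ne (h.rdeg4 hΔ (rA _ (by rw [rα]; exact hpr))) (by rw [e1, e2])
    · have r := P1.real (S.M.φ (S.M.φ p)) (Or.inr (Or.inr rfl))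
      apply W.real_ne _ r
      rw [S.M.vφ2, ← a1, ← b1, h0]
    · have r := P1.real (S.M.φ p) (Or.inr (Or.inl rfl))
      apply W.real_ne _ r
      rw [← S.M.vφ (S.M.φ p), S.M.vφ p, ← b1, ← h0, a2]
    · -- both at the vertex `v p`
      have e1 : S.M.σ p = k3 := b2.symm
      have e2 : S.M.σ k3 = p := by
        show S.M.φ (S.M.α k3) = p
        rw [← h0, a2, S.M.φ3]
      exact σσ_ne (h.rdeg4 hΔ (rA _ hpr)) (by rw [e1, e2])
  -- the fourth edge
  have hc : (kc S s).card = 4 := by rw [kc_card, h4]
  have hsub : ({k1, p, k3} : Finset D) ⊆ kc S s := by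
    intro x hx
    simp only [Finset.mem_insert, Finset.mem_singleton] at hx
    rcases hx with rfl | rfl | rfl
    exacts [K1, hp, K3]
  have h3 : ({k1, p, k3} : Finset D).card = 3 := by
    rw [Finset.card_insert_of_notMem (by simp [h12, h13]), Finset.card_pair h23]
  have h1 : (kc S s \ {k1, p, k3}).card = 1 := by
    rw [Finset.card_sdiff_of_subset hsub, hc, h3]
  obtain ⟨k4, hk4⟩ := Finset.card_eq_one.1 h1
  have m4 : k4 ∈ kc S s \ {k1, p, k3} := by rw [hk4]; simp
  rw [Finset.mem_sdiff] at m4
  have nm := m4.2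
  simp only [Finset.mem_insert, Finset.mem_singleton, not_or] at nm
  have hK : kc S s = {k1, p, k3, k4} := by
    ext x
    simp only [Finset.mem_insert, Finset.mem_singleton]
    constructor
    · intro hx
      by_cases hx' : x ∈ ({k1, p, k3} : Finset D)
      · simp only [Finset.mem_insert, Finset.mem_singleton] at hx'
        tauto
      · have : x ∈ kc S s \ {k1, p, k3} := Finset.mem_sdiff.2 ⟨hx, hx'⟩
        rw [hk4, Finset.mem_singleton] at this
        exact Or.inr (Or.inr (Or.inr this))
    · rintro (rfl | rfl | rfl | rfl)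
      exacts [K1, hp, K3, m4.1]
  have P3 : Pt S L s k3 := ⟨fun d hd => P2.real d (fp_trans hf2 (fp_trans (Or.inl rfl) hd)),
    fun d hd => P2.u d (fp_trans hf2 (fp_trans (Or.inl rfl) hd)),
    fun d hd => P2.lab d (fp_trans hf2 (fp_trans (Or.inl rfl) hd))⟩
  apply h.no
  by_cases m2 : (if s (S.M.v p) = true then a (S.M.v p) else b (S.M.v p)) =
      (if s (S.M.v (S.M.α p)) = true then a (S.M.v (S.M.α p)) else b (S.M.v (S.M.α p)))
  · exact core4 W hT hF hx hy S1 S2 hK h12 h13 (Ne.symm nm.1) h23 (Ne.symm nm.2.1)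
      (Ne.symm nm.2.2) P1 P3 f1 hf2 m2
  · refine core4 W hT hF hx' hy' S2 S1 hK h12 h13 (Ne.symm nm.1) h23 (Ne.symm nm.2.1)
      (Ne.symm nm.2.2) P1 P3 f1 hf2 ?_
    rw [if_pos hp1, if_neg (by rw [hp2]; decide)] at m2 ⊢
    cases h5 : a (S.M.v p) <;> cases h6 : b (S.M.v (S.M.α p)) <;> simp_all

/-- two alive vertices on a side of a small cut: a real edge on this side -/
theorem MC.inner (hΔ : Δ ≤ 6) (h : MC Δ S L w) {s : V → Bool} (h7 : S.rc s ≤ 7)
    (h2 : S.Two s true) :
    ∃ d, S.real d = true ∧ s (S.M.v d) = true ∧ s (S.M.v (S.M.α d)) = true := by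
  classical
  by_contra hn
  push Not at hn
  obtain ⟨x, hx, y, hy, hxy, sx, sy⟩ := h2
  have e1 : S.rdeg x + S.rdeg y ≤ S.rc s := by
    unfold St.rdeg St.rc
    rw [← Finset.sum_add_distrib]
    refine Finset.sum_le_sum fun d _ => ?_
    by_cases hr : S.real d = true
    · by_cases h3 : S.M.v d = x
      · have h4 : s (S.M.v (S.M.α d)) = false := by
          have := hn d hr (by rw [h3]; exact sx)
          simpa using this
        rw [if_pos ⟨h3, hr⟩, if_neg (fun h5 => hxy (h3.symm.trans h5.1)),
          if_pos ⟨hr, by rw [h3]; exact sx, h4⟩]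
      · rw [if_neg (fun h5 => h3 h5.1), zero_add]
        by_cases h3 : S.M.v d = y
        · have h4 : s (S.M.v (S.M.α d)) = false := by
            have := hn d hr (by rw [h3]; exact sy)
            simpa using this
          rw [if_pos ⟨h3, hr⟩, if_pos ⟨hr, by rw [h3]; exact sy, h4⟩]
        · rw [if_neg (fun h5 => h3 h5.1)]
          exact Nat.zero_le _
    · rw [if_neg (fun h5 => hr h5.2), if_neg (fun h5 => hr h5.2)]
      exact Nat.zero_le _
  have h3 := h.rdeg4 hΔ hx
  have h4 := h.rdeg4 hΔ hy
  omega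

/-- A CUT NEXT TO TWO PLAIN TRIANGLES: if both sides of the cut have at least two alive vertices and
the cut contains a real edge between two solid triangles without units, whose uncut edges are not
labelled, then it has at least five real edges -/
theorem MC.cut5p (hΔ : Δ ≤ 6) (h : MC Δ S L w) {s : V → Bool} (h1 : S.Two s true)
    (h2 : S.Two s false) {p : D} (hp : s (S.M.v p) ≠ s (S.M.v (S.M.α p))) (P1 : Pt S L s p)
    (P2 : Pt S L s (S.M.α p)) : 5 ≤ S.rc s := by
  classical
  have W := h.ok.toWf
  have rα := W.real_α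
  have rA := W.real_A
  by_contra hlt
  have hA1 : ∃ x ∈ S.A, s x = true := by
    obtain ⟨x, hx, -, -, -, sx, -⟩ := h1
    exact ⟨x, hx, sx⟩
  have hA2 : ∃ x ∈ S.A, s x = false := by
    obtain ⟨x, hx, -, -, -, sx, -⟩ := h2
    exact ⟨x, hx, sx⟩
  have h4 : S.rc s = 4 := by
    have := h.cut4 hΔ hA1 hA2
    omega
  -- the choice of the sides of the faces
  let P : ℕ → Prop := fun n => ∃ s' : V → Bool, (∀ x ∈ S.A, s' x = s x) ∧ mc S.M s' = n
  have hP : ∃ n, P n := ⟨_, s, fun _ _ => rfl, rfl⟩
  obtain ⟨s0, a1, a2⟩ := Nat.find_spec hP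
  have hmin : ∀ s' : V → Bool, (∀ x ∈ S.A, s' x = s0 x) → mc S.M s0 ≤ mc S.M s' := by
    intro s' b1
    rw [a2]
    exact Nat.find_min' hP ⟨s', fun x hx => (b1 x hx).trans (a1 x hx), rfl⟩
  have rA' : ∀ d, S.real d = true → S.M.v (S.M.α d) ∈ S.A := fun d hd =>
    rA _ (by rw [rα]; exact hd)
  have h4' : S.rc s0 = 4 := by
    rw [← h4]
    unfold St.rc
    refine Finset.sum_congr rfl fun d _ => ?_
    by_cases hr : S.real d = true
    · rw [a1 _ (rA d hr), a1 _ (rA' d hr)]
    · rw [if_neg (fun h5 => hr h5.1), if_neg (fun h5 => hr h5.1)]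
  have two : ∀ b, S.Two s b → S.Two s0 b := by
    rintro b ⟨x, hx, y, hy, hxy, sx, sy⟩
    exact ⟨x, hx, y, hy, hxy, by rw [a1 x hx, sx], by rw [a1 y hy, sy]⟩
  have one : ∀ b, (∃ x ∈ S.A, s x = b) → ∃ x ∈ S.A, s0 x = b := by
    rintro b ⟨x, hx, sx⟩
    exact ⟨x, hx, by rw [a1 x hx, sx]⟩
  have c4 : ∀ s : V → Bool, (∃ x ∈ S.A, s x = true) → (∃ x ∈ S.A, s x = false) → 4 ≤ S.rc s :=
    fun _ k1 k2 => h.cut4 hΔ k1 k2
  have hT : ConS S.M s0 true := con_of_fix c4 (by omega) (one _ hA2) hmin
  have hF' : ConS S.M (fun x => !s0 x) true := by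
    refine con_of_fix c4 (by rw [rc_neg rα]; omega) ?_ fun s' b1 => ?_
    · obtain ⟨x, hx, sx⟩ := one _ hA1
      exact ⟨x, hx, by rw [sx]; rfl⟩
    · rw [mc_neg, ← mc_neg S.M s']
      exact hmin _ fun x hx => by
        show (!s' x) = s0 x
        rw [b1 x hx, Bool.not_not]
  have hF : ConS S.M s0 false := by
    intro f hf d d' hd hd'
    refine hF' f (fun e h3 h4 => hf e (by simpa using h3) (by simpa using h4)) d d' ?_ ?_
    · simpa using hd
    · simpa using hd'
  have pt : ∀ t, Pt S L s t → Pt S L s0 t := fun t ht =>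
    ⟨ht.real, ht.u, fun d hd h5 => ht.lab d hd (by
      have hr := ht.real d hd
      rw [← a1 _ (rA d hr), ← a1 _ (rA' d hr), h5])⟩
  have n1 := h.inner hΔ (by omega) (two _ h1)
  have n2 : ∃ d, S.real d = true ∧ s0 (S.M.v d) = false ∧ s0 (S.M.v (S.M.α d)) = false := by
    obtain ⟨d, d1, d2, d3⟩ := h.inner hΔ (s := fun x => !s0 x) (by rw [rc_neg rα]; omega) (by
      obtain ⟨x, hx, y, hy, hxy, sx, sy⟩ := two _ h2
      exact ⟨x, hx, y, hy, hxy, by simp [sx], by simp [sy]⟩)
    exact ⟨d, d1, by simpa using d2, by simpa using d3⟩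
  have hpr := P1.real p (Or.inl rfl)
  have hp0 : s0 (S.M.v p) ≠ s0 (S.M.v (S.M.α p)) := by
    rw [a1 _ (rA p hpr), a1 _ (rA' p hpr)]
    exact hp
  cases e1 : s0 (S.M.v p)
  · have e2 : s0 (S.M.v (S.M.α p)) = true := by
      cases e3 : s0 (S.M.v (S.M.α p))
      · exact absurd (e1.trans e3.symm) hp0
      · rfl
    exact h.four hΔ h4' hT hF n1 n2 (p := S.M.α p)
      (mem_kc.2 ⟨by rw [rα]; exact hpr, e2, by rw [S.M.αα]; exact e1⟩) (pt _ P2)
      (by rw [S.M.αα]; exact pt _ P1)
  · have e2 : s0 (S.M.v (S.M.α p)) = false := by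
      cases e3 : s0 (S.M.v (S.M.α p))
      · rfl
      · exact absurd (e1.trans e3.symm) hp0
    exact h.four hΔ h4' hT hF n1 n2 (mem_kc.2 ⟨hpr, e1, e2⟩) (pt _ P1) (pt _ P2)

end Pool.FC7
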