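import Pool.Agent.FC7.DnB
import Pool.Agent.FC7.Q4C

/-! # Cuts next to a vertex with two consecutive neighbours of degree four -/

open Finset

set_option linter.unusedSectionVars false

namespace Pool.FC7

open Pool.FC6 Pool.FC6.St

variable {D V : Type} [Fintype D] [DecidableEq V] {S : St D V} {L : D → Bool} {w : D → ℕ} {Δ : ℕ}

/-- a lower bound for the number of edges of a cut -/
theorem rc_list [DecidableEq D] (rα : ∀ d, S.real (S.M.α d) = S.real d) {s : V → Bool} {β : Bool}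
    (l : List D) (hl : l.Nodup) (hm : ∀ d ∈ l, S.real d = true ∧ s (S.M.v d) = β ∧
      s (S.M.v (S.M.α d)) ≠ β) : l.length ≤ S.rc s := by
  have key : ∀ s : V → Bool, (∀ d ∈ l, S.real d = true ∧ s (S.M.v d) = true ∧
      s (S.M.v (S.M.α d)) ≠ true) → l.length ≤ S.rc s := fun s hm => by
    rw [← kc_card, ← List.toFinset_card_of_nodup hl]
    refine Finset.card_le_card fun d hd => ?_
    have h1 := hm d (List.mem_toFinset.1 hd)
    exact mem_kc.2 ⟨h1.1, h1.2.1, by simpa using h1.2.2⟩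
  cases β
  · rw [← rc_neg rα]
    refine key _ fun d hd => ?_
    obtain ⟨a, b, c⟩ := hm d hd
    refine ⟨a, by rw [b]; rfl, ?_⟩
    cases h1 : s (S.M.v (S.M.α d))
    · exact absurd h1 c
    · simp
  · exact key s hm

/-- the darts of the vertex of `Sp5` next to a virtual dart -/
theorem MC.sp5 (hΔ : Δ ≤ 6) (h : MC Δ S L w) (hS : IsStar S) {t : D} (rt : S.real t = true)
    (rg : S.real (S.M.σ t) = false) (hsp : Sp5 S t) :
    S.M.σ (S.M.σ (S.M.σ (S.M.σ (S.M.σ t)))) = t ∧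
      S.nd (S.M.α (S.M.σ (S.M.σ (S.M.σ t)))) = 4 ∧
      S.nd (S.M.α (S.M.σ (S.M.σ (S.M.σ (S.M.σ t))))) = 4 ∧
      S.real (S.M.σ (S.M.σ (S.M.σ t))) = true ∧
      S.real (S.M.σ (S.M.σ (S.M.σ (S.M.σ t)))) = true := by
  classical
  have W := h.ok.toWf
  have rα := W.real_α
  have rA := W.real_A
  have rA' : ∀ d, S.real d = true → S.M.v (S.M.α d) ∈ S.A := fun d hd =>
    rA _ (by rw [rα]; exact hd)
  obtain ⟨x, vx, r1, r2, h5, n1, n2⟩ := hsp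
  -- a vertex with a virtual dart
  have hv : ∀ z g, S.nd z = 4 → S.M.v z ∈ S.A → S.M.v g = S.M.v z → S.real g = true :=
    fun z g h1 h2 h3 => real_of_nd h1 (h.rdeg4 hΔ h2) h3
  have g1 : S.nd (S.M.α t) ≠ 4 := fun h1 => by
    have h2 := hv _ (S.M.α (S.M.φ (S.M.φ (S.M.α t)))) h1 (rA' _ rt) (by rw [S.M.vφ2])
    rw [rα] at h2
    have h3 := hS.two (S.M.φ (S.M.φ (S.M.α t))) h2 (by rw [S.M.φ3, rα]; exact rt)
    rw [S.M.φ3] at h3
    rw [show S.M.σ t = S.M.φ (S.M.α t) from rfl, h3] at rg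
    exact absurd rg (by decide)
  have rs : S.real (S.M.σ (S.M.σ t)) = true := by
    by_contra h0
    have h1 : S.real (S.M.φ (S.M.α (S.M.σ t))) = false := Bool.eq_false_iff.2 h0
    rcases hS.one (S.M.α (S.M.σ t)) with h2 | h2 | h2
    · rw [rα, rg] at h2
      exact absurd h2 (by decide)
    · rw [h1] at h2
      exact absurd h2 (by decide)
    · -- the head of `σ t` is alive
      have h3 := rA' _ h2
      rw [S.M.vφ2] at h3
      exact hS.vhead W (by rw [S.M.vσ]; exact rA _ rt) rg h3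
  have g2 : S.nd (S.M.α (S.M.σ (S.M.σ t))) ≠ 4 := fun h1 => by
    have h2 := hv _ (S.M.φ (S.M.σ (S.M.σ t))) h1 (rA' _ rs) (S.M.vφ _)
    have h3 := hS.two _ rs h2
    rw [show S.M.σ (S.M.σ t) = S.M.φ (S.M.α (S.M.σ t)) from rfl, S.M.φ3, rα, rg] at h3
    exact absurd h3 (by decide)
  obtain ⟨n, hn⟩ := S.M.σ_orbit vx
  have hn' : S.M.σ^[n % 5] x = t := by
    have hp : Function.IsPeriodicPt S.M.σ 5 x := h5
    rw [hp.iterate_mod_apply]; exact hn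
  have hlt : n % 5 < 5 := Nat.mod_lt _ (by norm_num)
  generalize n % 5 = m at hn' hlt
  have hcase : m = 0 ∨ m = 1 ∨ m = 2 ∨ m = 3 ∨ m = 4 := by omega
  rcases hcase with rfl | rfl | rfl | rfl | rfl
  · exfalso
    have : x = t := hn'
    rw [← this, r2] at rg
    exact absurd rg (by decide)
  · exfalso
    have : S.M.σ x = t := hn'
    rw [this] at n2
    exact g1 n2
  · have ht : S.M.σ (S.M.σ x) = t := hn'
    subst ht
    rw [h5]
    exact ⟨rfl, n1, n2, r1, r2⟩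
  · exfalso
    have ht : S.M.σ (S.M.σ (S.M.σ x)) = t := hn'
    have h6 : S.M.σ (S.M.σ t) = x := by rw [← ht]; exact h5
    rw [h6] at g2
    exact g2 n1
  · exfalso
    have ht : S.M.σ (S.M.σ (S.M.σ (S.M.σ x))) = t := hn'
    have h6 : S.M.σ t = x := by rw [← ht]; exact h5
    rw [h6, r1] at rg
    exact absurd rg (by decide)

/-- a cut next to a vertex of `Sp5` with a gap has at least five edges -/
theorem MC.c5s (hΔ : Δ ≤ 6) (h : MC Δ S L w) (hS : IsStar S) {s : V → Bool}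
    (h1 : S.Two s true) (h2 : S.Two s false) {t : D} (rt : S.real t = true)
    (rg : S.real (S.M.σ t) = false) (hsp : Sp5 S t)
    (hc : (s (S.M.v t) ≠ s (S.M.v (S.M.α t)) ∧
        s (S.M.v t) ≠ s (S.M.v (S.M.α (S.M.σ (S.M.σ t))))) ∨
      (s (S.M.v (S.M.α (S.M.σ (S.M.σ t)))) = s (S.M.v (S.M.α t)) ∧
        ∀ e, S.real e = true → S.M.v e = S.M.v t → e ≠ t → e ≠ S.M.σ (S.M.σ t) →
          s (S.M.v (S.M.α e)) ≠ s (S.M.v (S.M.α t)))) : 5 ≤ S.rc s := by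
  classical
  have W := h.ok.toWf
  have rα := W.real_α
  have rA := W.real_A
  have rA' : ∀ d, S.real d = true → S.M.v (S.M.α d) ∈ S.A := fun d hd =>
    rA _ (by rw [rα]; exact hd)
  have ne := W.real_ne
  obtain ⟨h5, n1, n2, rp, rq⟩ := h.sp5 hΔ hS rt rg hsp
  have rs : S.real (S.M.σ (S.M.σ t)) = true := by
    by_contra h0
    have h1 : S.real (S.M.φ (S.M.α (S.M.σ t))) = false := Bool.eq_false_iff.2 h0
    rcases hS.one (S.M.α (S.M.σ t)) with h2 | h2 | h2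
    · rw [rα, rg] at h2
      exact absurd h2 (by decide)
    · rw [h1] at h2
      exact absurd h2 (by decide)
    · have h3 := rA' _ h2
      rw [S.M.vφ2] at h3
      exact hS.vhead W (by rw [S.M.vσ]; exact rA _ rt) rg h3
  have hv : ∀ z g, S.nd z = 4 → S.M.v z ∈ S.A → S.M.v g = S.M.v z → S.real g = true :=
    fun z g h1 h2 h3 => real_of_nd h1 (h.rdeg4 hΔ h2) h3
  -- the darts at `y`
  obtain ⟨r, hr⟩ : ∃ r, r = S.M.σ (S.M.σ t) := ⟨_, rfl⟩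
  rw [← hr] at h5 n1 n2 rp rq rs hc
  obtain ⟨p, hp⟩ : ∃ p, p = S.M.σ r := ⟨_, rfl⟩
  rw [← hp] at h5 n1 n2 rp rq
  obtain ⟨q, hq⟩ : ∃ q, q = S.M.σ p := ⟨_, rfl⟩
  rw [← hq] at h5 n2 rq
  have vr : S.M.v r = S.M.v t := by rw [hr, S.M.vσ, S.M.vσ]
  have vp : S.M.v p = S.M.v t := by rw [hp, S.M.vσ, vr]
  have vq : S.M.v q = S.M.v t := by rw [hq, S.M.vσ, vp]
  have rg' : S.real (S.M.σ t) ≠ true := by rw [rg]; decide
  have tr : r ≠ t := fun h0 => rg' (by rw [← h0, ← hp]; exact rp)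
  have tp : p ≠ t := fun h0 => rg' (by rw [← h0, ← hq]; exact rq)
  have tq : q ≠ t := fun h0 => rg' (by rw [← h0, h5]; exact rt)
  have pr : p ≠ r := fun h0 => tr (by
    have e1 : S.M.σ r = r := by rw [← hp, h0]
    have e2 : q = r := by rw [hq, h0, e1]
    rw [← h5, e2, e1])
  have qr : q ≠ r := fun h0 => tp (by rw [← h5, h0, ← hp])
  have qp : q ≠ p := fun h0 => tq (by rw [← h5, h0, ← hq, h0])
  -- the darts at `a`
  have vaA := rA' _ rp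
  have vbA := rA' _ rq
  have na : ∀ g, S.M.v g = S.M.v (S.M.α p) → S.real g = true := fun g hg => hv _ g n1 vaA hg
  have nb : ∀ g, S.M.v g = S.M.v (S.M.α q) → S.real g = true := fun g hg => hv _ g n2 vbA hg
  have ia : ∀ i j, i < 4 → j < 4 → S.M.σ^[i] (S.M.α p) = S.M.σ^[j] (S.M.α p) → i = j :=
    fun i j hi hj => σ_inj_lt _ (by rw [n1]; exact hi) (by rw [n1]; exact hj)
  have ib : ∀ i j, i < 4 → j < 4 → S.M.σ^[i] (S.M.α q) = S.M.σ^[j] (S.M.α q) → i = j :=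
    fun i j hi hj => σ_inj_lt _ (by rw [n2]; exact hi) (by rw [n2]; exact hj)
  have ca : S.M.σ (S.M.σ (S.M.σ (S.M.σ (S.M.α p)))) = S.M.α p := by
    have : S.M.σ^[S.nd (S.M.α p)] (S.M.α p) = S.M.α p := S.M.iter_card _
    rw [n1] at this
    exact this
  have cb : S.M.σ (S.M.σ (S.M.σ (S.M.σ (S.M.α q)))) = S.M.α q := by
    have : S.M.σ^[S.nd (S.M.α q)] (S.M.α q) = S.M.α q := S.M.iter_card _
    rw [n2] at this
    exact this
  obtain ⟨a1, ha1⟩ : ∃ a1, a1 = S.M.σ (S.M.α p) := ⟨_, rfl⟩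
  obtain ⟨a2, ha2⟩ : ∃ a2, a2 = S.M.σ a1 := ⟨_, rfl⟩
  obtain ⟨a3, ha3⟩ : ∃ a3, a3 = S.M.σ a2 := ⟨_, rfl⟩
  obtain ⟨b1, hb1⟩ : ∃ b1, b1 = S.M.σ (S.M.α q) := ⟨_, rfl⟩
  obtain ⟨b2, hb2⟩ : ∃ b2, b2 = S.M.σ b1 := ⟨_, rfl⟩
  obtain ⟨b3, hb3⟩ : ∃ b3, b3 = S.M.σ b2 := ⟨_, rfl⟩
  rw [← ha1, ← ha2, ← ha3] at ca
  rw [← hb1, ← hb2, ← hb3] at cb
  have va1 : S.M.v a1 = S.M.v (S.M.α p) := by rw [ha1, S.M.vσ]
  have va2 : S.M.v a2 = S.M.v (S.M.α p) := by rw [ha2, S.M.vσ, va1]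
  have va3 : S.M.v a3 = S.M.v (S.M.α p) := by rw [ha3, S.M.vσ, va2]
  have vb1 : S.M.v b1 = S.M.v (S.M.α q) := by rw [hb1, S.M.vσ]
  have vb2 : S.M.v b2 = S.M.v (S.M.α q) := by rw [hb2, S.M.vσ, vb1]
  have vb3 : S.M.v b3 = S.M.v (S.M.α q) := by rw [hb3, S.M.vσ, vb2]
  have a01 : S.M.α p ≠ a1 := fun h0 => absurd (ia 0 1 (by norm_num) (by norm_num)
    (by show S.M.α p = S.M.σ (S.M.α p); rw [← ha1]; exact h0)) (by norm_num)
  have a02 : S.M.α p ≠ a2 := fun h0 => absurd (ia 0 2 (by norm_num) (by norm_num)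
    (by show S.M.α p = S.M.σ (S.M.σ (S.M.α p)); rw [← ha1, ← ha2]; exact h0)) (by norm_num)
  have a12 : a1 ≠ a2 := fun h0 => absurd (ia 1 2 (by norm_num) (by norm_num)
    (by show S.M.σ (S.M.α p) = S.M.σ (S.M.σ (S.M.α p)); rw [← ha1, ← ha2]; exact h0))
    (by norm_num)
  have a13 : a1 ≠ a3 := fun h0 => absurd (ia 1 3 (by norm_num) (by norm_num)
    (by show S.M.σ (S.M.α p) = S.M.σ (S.M.σ (S.M.σ (S.M.α p))); rw [← ha1, ← ha2, ← ha3]; exact h0))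
    (by norm_num)
  have b02 : S.M.α q ≠ b2 := fun h0 => absurd (ib 0 2 (by norm_num) (by norm_num)
    (by show S.M.α q = S.M.σ (S.M.σ (S.M.α q)); rw [← hb1, ← hb2]; exact h0)) (by norm_num)
  have b03 : S.M.α q ≠ b3 := fun h0 => absurd (ib 0 3 (by norm_num) (by norm_num)
    (by show S.M.α q = S.M.σ (S.M.σ (S.M.σ (S.M.α q))); rw [← hb1, ← hb2, ← hb3]; exact h0))
    (by norm_num)
  have b13 : b1 ≠ b3 := fun h0 => absurd (ib 1 3 (by norm_num) (by norm_num)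
    (by show S.M.σ (S.M.α q) = S.M.σ (S.M.σ (S.M.σ (S.M.α q))); rw [← hb1, ← hb2, ← hb3]; exact h0))
    (by norm_num)
  -- the heads
  have fp2 : S.M.φ (S.M.φ p) = S.M.α r := by
    rw [hp]; exact S.M.φ3 _
  have ep : a1 = S.M.φ p := by rw [ha1]; show S.M.φ (S.M.α (S.M.α p)) = _; rw [S.M.αα]
  have eq1 : b1 = S.M.φ q := by rw [hb1]; show S.M.φ (S.M.α (S.M.α q)) = _; rw [S.M.αα]
  have w1 : S.M.v (S.M.α a1) = S.M.v (S.M.α r) := by
    rw [← S.M.vφ, ep, fp2]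
  have ea3 : S.M.α a3 = b1 := by
    have e1 : S.M.φ (S.M.α a3) = S.M.α p := ca
    have e2 : S.M.α a3 = S.M.φ (S.M.φ (S.M.α p)) := by rw [← e1, S.M.φ3]
    rw [e2, eq1, hq]; rfl
  have w3 : S.M.v (S.M.α a3) = S.M.v (S.M.α q) := by rw [ea3, vb1]
  have wb1 : S.M.v (S.M.α b1) = S.M.v (S.M.α p) := by rw [← ea3, S.M.αα, va3]
  have eb2 : b2 = S.M.φ a3 := by
    rw [hb2, ← ea3]; show S.M.φ (S.M.α (S.M.α a3)) = _; rw [S.M.αα]
  have wb2 : S.M.v (S.M.α b2) = S.M.v (S.M.α a2) := by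
    rw [← S.M.vφ, eb2, ha3]
    show S.M.v (S.M.φ (S.M.φ (S.M.φ (S.M.α a2)))) = _
    rw [S.M.φ3]
  have eb3 : S.M.α b3 = S.M.φ t := by
    have e1 : S.M.φ (S.M.α b3) = S.M.α q := cb
    have e2 : S.M.α b3 = S.M.φ (S.M.φ (S.M.α q)) := by rw [← e1, S.M.φ3]
    rw [e2, ← h5]; rfl
  have wb3 : S.M.v (S.M.α b3) = S.M.v (S.M.α t) := by rw [eb3, S.M.vφ]
  have fb3 : S.M.φ (S.M.φ b3) = S.M.α b2 := by rw [hb3]; exact S.M.φ3 _
  obtain ⟨c1, hc1⟩ : ∃ c1, c1 = S.M.α (S.M.φ b3) := ⟨_, rfl⟩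
  have vc1 : S.M.v c1 = S.M.v (S.M.α a2) := by rw [hc1, ← S.M.vφ, fb3, wb2]
  have wc1 : S.M.v (S.M.α c1) = S.M.v (S.M.α t) := by rw [hc1, S.M.αα, S.M.vφ, wb3]
  have rb2 : S.real (S.M.α b2) = true := by rw [rα]; exact nb _ vb2
  have rc1 : S.real c1 = true := by
    rw [hc1, rα]
    have e1 : S.M.φ (S.M.α b2) = b3 := hb3.symm
    have := hS.two _ rb2 (by rw [e1]; exact nb _ vb3)
    rw [e1] at this
    exact this
  -- different darts
  have yb : S.M.v t ≠ S.M.v (S.M.α q) := by rw [← vq]; exact ne _ rq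
  have ya : S.M.v t ≠ S.M.v (S.M.α p) := by rw [← vp]; exact ne _ rp
  have ab : S.M.v (S.M.α p) ≠ S.M.v (S.M.α q) := by
    rw [← va3, ← w3]; exact ne _ (na _ va3)
  have ac : S.M.v (S.M.α p) ≠ S.M.v (S.M.α a2) := by
    rw [← va2]; exact ne _ (na _ va2)
  have bc : S.M.v (S.M.α q) ≠ S.M.v (S.M.α a2) := by
    rw [← wb2, ← vb2]; exact ne _ (nb _ vb2)
  have ct : c1 ≠ t := fun h0 => rg' (by
    have e1 : S.M.φ b3 = S.M.α t := by rw [← h0, hc1, S.M.αα]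
    have e2 : S.M.σ t = S.M.α b2 := by
      show S.M.φ (S.M.α t) = _
      rw [← e1, fb3]
    rw [e2]; exact rb2)
  have cr : c1 ≠ r := fun h0 => ab (by
    have e1 : S.M.φ b3 = S.M.α r := by rw [← h0, hc1, S.M.αα]
    have e2 : p = S.M.α b2 := by
      rw [hp]; show S.M.φ (S.M.α r) = _
      rw [← e1, fb3]
    rw [e2, S.M.αα, vb2])
  have dv : ∀ {g g' : D}, S.M.v g ≠ S.M.v g' → g ≠ g' := fun h1 h2 => h1 (by rw [h2])
  have five : ∀ (β : Bool) (d1 d2 d3 d4 d5 : D), (d1 ≠ d2 ∧ d1 ≠ d3 ∧ d1 ≠ d4 ∧ d1 ≠ d5) →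
      (d2 ≠ d3 ∧ d2 ≠ d4 ∧ d2 ≠ d5) → (d3 ≠ d4 ∧ d3 ≠ d5) → d4 ≠ d5 →
      (S.real d1 = true ∧ s (S.M.v d1) = β ∧ s (S.M.v (S.M.α d1)) ≠ β) →
      (S.real d2 = true ∧ s (S.M.v d2) = β ∧ s (S.M.v (S.M.α d2)) ≠ β) →
      (S.real d3 = true ∧ s (S.M.v d3) = β ∧ s (S.M.v (S.M.α d3)) ≠ β) →
      (S.real d4 = true ∧ s (S.M.v d4) = β ∧ s (S.M.v (S.M.α d4)) ≠ β) →
      (S.real d5 = true ∧ s (S.M.v d5) = β ∧ s (S.M.v (S.M.α d5)) ≠ β) → 5 ≤ S.rc s := by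
    intro β d1 d2 d3 d4 d5 ⟨k12, k13, k14, k15⟩ ⟨k23, k24, k25⟩ ⟨k34, k35⟩ k45 m1 m2 m3 m4 m5
    refine rc_list rα (β := β) [d1, d2, d3, d4, d5] (by simp [k12, k13, k14, k15, k23, k24, k25,
      k34, k35, k45]) fun d hd => ?_
    simp only [List.mem_cons, List.not_mem_nil, or_false] at hd
    rcases hd with rfl | rfl | rfl | rfl | rfl <;> assumption
  obtain ⟨Y, hY⟩ : ∃ Y, Y = s (S.M.v t) := ⟨_, rfl⟩
  obtain ⟨X1, hX1⟩ : ∃ Y, Y = s (S.M.v (S.M.α t)) := ⟨_, rfl⟩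
  obtain ⟨X2, hX2⟩ : ∃ Y, Y = s (S.M.v (S.M.α r)) := ⟨_, rfl⟩
  obtain ⟨A, hA⟩ : ∃ Y, Y = s (S.M.v (S.M.α p)) := ⟨_, rfl⟩
  obtain ⟨B, hB⟩ : ∃ Y, Y = s (S.M.v (S.M.α q)) := ⟨_, rfl⟩
  obtain ⟨C, hC⟩ : ∃ Y, Y = s (S.M.v (S.M.α a2)) := ⟨_, rfl⟩
  have main : (X1 ≠ Y ∧ X2 ≠ Y) ∨ (X1 = Y ∧ X2 = Y ∧ A ≠ Y ∧ B ≠ Y) := by
    rcases hc with ⟨c1, c2⟩ | ⟨c1, c2⟩
    · left
      rw [hX1, hX2, hY]
      exact ⟨Ne.symm c1, Ne.symm c2⟩
    · have d1 := c2 p rp vp tp pr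
      have d2 := c2 q rq vq tq qr
      rw [← hX1, ← hA] at d1
      rw [← hX1, ← hB] at d2
      rw [← hX1, ← hX2] at c1
      by_cases h0 : X1 = Y
      · right
        rw [h0] at d1 d2 c1
        exact ⟨h0, c1, d1, d2⟩
      · left
        exact ⟨h0, by rw [c1]; exact h0⟩
  have ft : s (S.M.v t) = Y ∧ s (S.M.v (S.M.α t)) = X1 := ⟨hY.symm, hX1.symm⟩
  have fr : s (S.M.v r) = Y ∧ s (S.M.v (S.M.α r)) = X2 := ⟨by rw [vr]; exact hY.symm, hX2.symm⟩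
  have fp : s (S.M.v p) = Y ∧ s (S.M.v (S.M.α p)) = A := ⟨by rw [vp]; exact hY.symm, hA.symm⟩
  have fq : s (S.M.v q) = Y ∧ s (S.M.v (S.M.α q)) = B := ⟨by rw [vq]; exact hY.symm, hB.symm⟩
  have fa0 : s (S.M.v (S.M.α p)) = A ∧ s (S.M.v (S.M.α (S.M.α p))) = Y :=
    ⟨hA.symm, by rw [S.M.αα]; exact fp.1⟩
  have fa1 : s (S.M.v a1) = A ∧ s (S.M.v (S.M.α a1)) = X2 :=
    ⟨by rw [va1]; exact hA.symm, by rw [w1]; exact hX2.symm⟩
  have fa2 : s (S.M.v a2) = A ∧ s (S.M.v (S.M.α a2)) = C :=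
    ⟨by rw [va2]; exact hA.symm, hC.symm⟩
  have fa3 : s (S.M.v a3) = A ∧ s (S.M.v (S.M.α a3)) = B :=
    ⟨by rw [va3]; exact hA.symm, by rw [w3]; exact hB.symm⟩
  have fb0 : s (S.M.v (S.M.α q)) = B ∧ s (S.M.v (S.M.α (S.M.α q))) = Y :=
    ⟨hB.symm, by rw [S.M.αα]; exact fq.1⟩
  have fb1 : s (S.M.v b1) = B ∧ s (S.M.v (S.M.α b1)) = A :=
    ⟨by rw [vb1]; exact hB.symm, by rw [wb1]; exact hA.symm⟩
  have fb2 : s (S.M.v b2) = B ∧ s (S.M.v (S.M.α b2)) = C :=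
    ⟨by rw [vb2]; exact hB.symm, by rw [wb2]; exact hC.symm⟩
  have fb3' : s (S.M.v b3) = B ∧ s (S.M.v (S.M.α b3)) = X1 :=
    ⟨by rw [vb3]; exact hB.symm, by rw [wb3]; exact hX1.symm⟩
  have fc1 : s (S.M.v c1) = C ∧ s (S.M.v (S.M.α c1)) = X1 :=
    ⟨by rw [vc1]; exact hC.symm, by rw [wc1]; exact hX1.symm⟩
  have mk : ∀ {d : D} {P Q β : Bool}, S.real d = true →
      (s (S.M.v d) = P ∧ s (S.M.v (S.M.α d)) = Q) → P = β → Q ≠ β →
      (S.real d = true ∧ s (S.M.v d) = β ∧ s (S.M.v (S.M.α d)) ≠ β) := by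
    intro d P Q β h0 ⟨h1, h2⟩ h3 h4
    exact ⟨h0, by rw [h1, h3], by rw [h2]; exact h4⟩
  have ra0 : S.real (S.M.α p) = true := by rw [rα]; exact rp
  have rb0 : S.real (S.M.α q) = true := by rw [rα]; exact rq
  have ra1 := na _ va1
  have ra2 := na _ va2
  have ra3 := na _ va3
  have rb1 := nb _ vb1
  have rb2' := nb _ vb2
  have rb3 := nb _ vb3
  -- origins
  have oya : ∀ {g g' : D}, S.M.v g = S.M.v t → S.M.v g' = S.M.v (S.M.α p) → g ≠ g' :=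
    fun h1 h2 => dv (by rw [h1, h2]; exact ya)
  have oyb : ∀ {g g' : D}, S.M.v g = S.M.v t → S.M.v g' = S.M.v (S.M.α q) → g ≠ g' :=
    fun h1 h2 => dv (by rw [h1, h2]; exact yb)
  have oab : ∀ {g g' : D}, S.M.v g = S.M.v (S.M.α p) → S.M.v g' = S.M.v (S.M.α q) → g ≠ g' :=
    fun h1 h2 => dv (by rw [h1, h2]; exact ab)
  have oac : ∀ {g g' : D}, S.M.v g = S.M.v (S.M.α p) → S.M.v g' = S.M.v (S.M.α a2) → g ≠ g' :=
    fun h1 h2 => dv (by rw [h1, h2]; exact ac)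
  have obc : ∀ {g g' : D}, S.M.v g = S.M.v (S.M.α q) → S.M.v g' = S.M.v (S.M.α a2) → g ≠ g' :=
    fun h1 h2 => dv (by rw [h1, h2]; exact bc)
  rcases main with ⟨x1, x2⟩ | ⟨x1, x2, eA, eB⟩
  · by_cases eA : A = Y
    · by_cases eB : B = Y
      · by_cases eC : C = Y
        · exact five Y t r a1 b3 c1 ⟨tr.symm, oya rfl va1, oyb rfl vb3, ct.symm⟩
            ⟨oya vr va1, oyb vr vb3, cr.symm⟩ ⟨oab va1 vb3, oac va1 vc1⟩ (obc vb3 vc1)
            (mk rt ft rfl x1) (mk rs fr rfl x2) (mk ra1 fa1 eA x2) (mk rb3 fb3' eB x1)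
            (mk rc1 fc1 eC x1)
        · exact five Y t r a1 a2 b2 ⟨tr.symm, oya rfl va1, oya rfl va2, oyb rfl vb2⟩
            ⟨oya vr va1, oya vr va2, oyb vr vb2⟩ ⟨a12, oab va1 vb2⟩ (oab va2 vb2)
            (mk rt ft rfl x1) (mk rs fr rfl x2) (mk ra1 fa1 eA x2) (mk ra2 fa2 eA eC)
            (mk rb2' fb2 eB eC)
      · exact five Y t r q a1 a3 ⟨tr.symm, tq.symm, oya rfl va1, oya rfl va3⟩
          ⟨qr.symm, oya vr va1, oya vr va3⟩ ⟨oya vq va1, oya vq va3⟩ a13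
          (mk rt ft rfl x1) (mk rs fr rfl x2) (mk rq fq rfl eB) (mk ra1 fa1 eA x2)
          (mk ra3 fa3 eA eB)
    · by_cases eB : B = Y
      · exact five Y t r p b1 b3 ⟨tr.symm, tp.symm, oyb rfl vb1, oyb rfl vb3⟩
          ⟨pr.symm, oyb vr vb1, oyb vr vb3⟩ ⟨oyb vp vb1, oyb vp vb3⟩ b13
          (mk rt ft rfl x1) (mk rs fr rfl x2) (mk rp fp rfl eA) (mk rb1 fb1 eB eA)
          (mk rb3 fb3' eB x1)
      · -- all neighbours on the other side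
        obtain ⟨z, hzA, hzy, hzs⟩ : ∃ z ∈ S.A, z ≠ S.M.v t ∧ s z = Y := by
          have h3 : S.Two s Y := by
            cases Y
            · exact h2
            · exact h1
          obtain ⟨z1, k1, z2, k2, k3, k4, k5⟩ := h3
          by_cases h0 : z1 = S.M.v t
          · exact ⟨z2, k2, fun h6 => k3 (h0.trans h6.symm), k5⟩
          · exact ⟨z1, k1, h0, k4⟩
        obtain ⟨s', hs'⟩ : ∃ s' : V → Bool, ∀ x, s' x = if x = S.M.v t then !Y else s x :=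
          ⟨_, fun _ => rfl⟩
        have st : s' (S.M.v t) = !Y := by rw [hs', if_pos rfl]
        have sz : s' z = Y := by rw [hs', if_neg hzy, hzs]
        have htA := rA _ rt
        have h4 : 4 ≤ S.rc s' := by
          cases hYc : Y
          · rw [hYc] at st sz
            exact h.cut4 hΔ ⟨_, htA, st⟩ ⟨_, hzA, sz⟩
          · rw [hYc] at st sz
            exact h.cut4 hΔ ⟨_, hzA, sz⟩ ⟨_, htA, st⟩
        obtain ⟨d, k1, k2, k3⟩ : ∃ d, S.real d = true ∧ s' (S.M.v d) = Y ∧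
            s' (S.M.v (S.M.α d)) ≠ Y := by
          rw [← kc_card] at h4
          obtain ⟨d, hd⟩ := Finset.card_pos.1 (by omega : 0 < (kc S s').card)
          obtain ⟨e1, e2, e3⟩ := mem_kc.1 hd
          cases hYc : Y
          · exact ⟨S.M.α d, by rw [rα]; exact e1, e3, by rw [S.M.αα, e2]; decide⟩
          · exact ⟨d, e1, e2, by rw [e3]; decide⟩
        have k4 : S.M.v d ≠ S.M.v t := fun h0 => by
          rw [h0, st] at k2
          revert k2; cases Y <;> decide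
        have k5 : s (S.M.v d) = Y := by rw [hs', if_neg k4] at k2; exact k2
        have k6 : S.M.v (S.M.α d) ≠ S.M.v t := fun h0 => by
          obtain ⟨n, hn⟩ := S.M.σ_orbit h0.symm
          have hp5 : Function.IsPeriodicPt S.M.σ 5 t := by
            show S.M.σ (S.M.σ (S.M.σ (S.M.σ (S.M.σ t)))) = t
            rw [← hr, ← hp, ← hq, h5]
          have hn' : S.M.σ^[n % 5] t = S.M.α d := by rw [hp5.iterate_mod_apply]; exact hn
          have hlt : n % 5 < 5 := Nat.mod_lt _ (by norm_num)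
          generalize n % 5 = m at hn' hlt
          have hcase : m = 0 ∨ m = 1 ∨ m = 2 ∨ m = 3 ∨ m = 4 := by omega
          have hd : ∀ g, S.M.α d = g → s (S.M.v (S.M.α g)) = Y := fun g hg => by
            rw [← hg, S.M.αα]; exact k5
          rcases hcase with rfl | rfl | rfl | rfl | rfl
          · have e := hd t hn'.symm
            rw [ft.2] at e
            exact x1 e
          · have e : S.M.σ t = S.M.α d := hn'
            exact rg' (by rw [e, rα]; exact k1)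
          · have e : S.M.σ (S.M.σ t) = S.M.α d := hn'
            rw [← hr] at e
            have e := hd r e.symm
            rw [fr.2] at e
            exact x2 e
          · have e : S.M.σ (S.M.σ (S.M.σ t)) = S.M.α d := hn'
            rw [← hr, ← hp] at e
            have e := hd p e.symm
            rw [fp.2] at e
            exact eA e
          · have e : S.M.σ (S.M.σ (S.M.σ (S.M.σ t))) = S.M.α d := hn'
            rw [← hr, ← hp, ← hq] at e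
            have e := hd q e.symm
            rw [fq.2] at e
            exact eB e
        have k7 : s (S.M.v (S.M.α d)) ≠ Y := by rw [hs', if_neg k6] at k3; exact k3
        exact five Y t r p q d ⟨tr.symm, tp.symm, tq.symm, dv (Ne.symm k4)⟩
          ⟨pr.symm, qr.symm, dv (by rw [vr]; exact Ne.symm k4)⟩
          ⟨qp.symm, dv (by rw [vp]; exact Ne.symm k4)⟩ (dv (by rw [vq]; exact Ne.symm k4))
          (mk rt ft rfl x1) (mk rs fr rfl x2) (mk rp fp rfl eA) (mk rq fq rfl eB)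
          ⟨k1, k5, k7⟩
  · have nY : ∀ {a : Bool}, a ≠ Y → a = !Y := fun {a} h0 => by
      revert h0; cases a <;> cases Y <;> decide
    have nY' : Y ≠ !Y := by cases Y <;> decide
    by_cases eC : C = Y
    · exact five (!Y) (S.M.α p) a1 a2 (S.M.α q) b2 ⟨a01, a02, oab rfl rfl, oab rfl vb2⟩
        ⟨a12, oab va1 rfl, oab va1 vb2⟩ ⟨oab va2 rfl, oab va2 vb2⟩ b02
        (mk ra0 fa0 (nY eA) nY') (mk ra1 fa1 (nY eA) (by rw [x2]; exact nY'))
        (mk ra2 fa2 (nY eA) (by rw [eC]; exact nY')) (mk rb0 fb0 (nY eB) nY')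
        (mk rb2' fb2 (nY eB) (by rw [eC]; exact nY'))
    · exact five (!Y) (S.M.α p) a1 (S.M.α q) b3 c1 ⟨a01, oab rfl rfl, oab rfl vb3, oac rfl vc1⟩
        ⟨oab va1 rfl, oab va1 vb3, oac va1 vc1⟩ ⟨b03, obc rfl vc1⟩ (obc vb3 vc1)
        (mk ra0 fa0 (nY eA) nY') (mk ra1 fa1 (nY eA) (by rw [x2]; exact nY'))
        (mk rb0 fb0 (nY eB) nY') (mk rb3 fb3' (nY eB) (by rw [x1]; exact nY'))
        (mk rc1 fc1 (nY eC) (by rw [x1]; exact nY'))

end Pool.FC7
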