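import Pool.Agent.FC7.StarS
import Pool.Agent.FC6.Pa

/-! # Flips of virtual edges do not change a state

`Sim S S'`: the states `S` and `S'` have the same real graph, faces, units and solutions. -/

open Finset

namespace Pool.FC7

open Pool.FC6 Pool.FC6.St

variable {D V : Type} [Fintype D] [DecidableEq V]

/-- the same real graph with the same faces -/
structure Sim (S S' : St D V) : Prop where
  hα : ∀ d, S'.M.α d = S.M.α d
  hr : ∀ d, S'.real d = S.real d
  hu : ∀ d, S'.u d = S.u d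
  hA : S'.A = S.A
  hv : ∀ d, S.real d = true → S'.M.v d = S.M.v d
  im : ∀ d, ∃ e, S'.M.v d = S.M.v e
  im' : ∀ d, ∃ e, S.M.v d = S'.M.v e
  cl : ∀ t : D → ℝ, S'.Cl t ↔ S.Cl t
  ur : ∀ d, S.u d ≠ 0 → S.real d = true
  ra : ∀ d, S.real (S.M.α d) = S.real d

namespace Sim

variable {S S' S'' : St D V}

theorem refl (ur : ∀ d, S.u d ≠ 0 → S.real d = true) (ra : ∀ d, S.real (S.M.α d) = S.real d) :
    Sim S S where
  hα _ := rfl
  hr _ := rfl
  hu _ := rfl
  hA := rfl
  hv _ _ := rfl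
  im d := ⟨d, rfl⟩
  im' d := ⟨d, rfl⟩
  cl _ := Iff.rfl
  ur := ur
  ra := ra

theorem symm (h : Sim S S') : Sim S' S where
  hα d := (h.hα d).symm
  hr d := (h.hr d).symm
  hu d := (h.hu d).symm
  hA := h.hA.symm
  hv d hd := (h.hv d (by rw [← h.hr]; exact hd)).symm
  im := h.im'
  im' := h.im
  cl t := (h.cl t).symm
  ur d hd := by rw [h.hr]; exact h.ur d (by rw [← h.hu]; exact hd)
  ra d := by rw [h.hr, h.hr, h.hα]; exact h.ra d

theorem trans (h : Sim S S') (h' : Sim S' S'') : Sim S S'' where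
  hα d := (h'.hα d).trans (h.hα d)
  hr d := (h'.hr d).trans (h.hr d)
  hu d := (h'.hu d).trans (h.hu d)
  hA := h'.hA.trans h.hA
  hv d hd := (h'.hv d (by rw [h.hr]; exact hd)).trans (h.hv d hd)
  im d := by
    obtain ⟨e, he⟩ := h'.im d
    obtain ⟨e', he'⟩ := h.im e
    exact ⟨e', he.trans he'⟩
  im' d := by
    obtain ⟨e, he⟩ := h.im' d
    obtain ⟨e', he'⟩ := h'.im' e
    exact ⟨e', he.trans he'⟩
  cl t := (h'.cl t).trans (h.cl t)
  ur := h.ur
  ra := h.ra

theorem hvα (h : Sim S S') {d : D} (hd : S.real d = true) :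
    S'.M.v (S'.M.α d) = S.M.v (S.M.α d) := by
  rw [h.hα]; exact h.hv _ (by rw [h.ra, hd])

/-- the classes are the same, for functions with values in any type -/
theorem clX (h : Sim S S') {X : Type} (t : D → X) : S'.Cl t ↔ S.Cl t := by
  classical
  have key : ∀ (R R' : St D V), (∀ t : D → ℝ, R'.Cl t → R.Cl t) → R'.Cl t → R.Cl t := by
    intro R R' hR ht
    have h1 : ∀ x, R.Cl (fun e => if t e = x then (1 : ℝ) else 0) := fun x =>
      hR _ ⟨fun d => by beta_reduce; rw [ht.1], fun d hd => by beta_reduce; rw [ht.2 d hd]⟩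
    constructor
    · intro d
      have := (h1 (t d)).1 d
      beta_reduce at this
      rw [if_pos rfl] at this
      by_contra hn
      rw [if_neg hn] at this
      exact zero_ne_one this
    · intro d hd
      have := (h1 (t d)).2 d hd
      beta_reduce at this
      rw [if_pos rfl] at this
      by_contra hn
      rw [if_neg hn] at this
      exact zero_ne_one this
  exact ⟨key S S' (fun t => (h.cl t).1), key S' S (fun t => (h.cl t).2)⟩

theorem sc (h : Sim S S') (d e : D) : S'.sc.r d e ↔ S.sc.r d e :=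
  ⟨fun h1 t ht => h1 t ((h.clX t).2 ht), fun h1 t ht => h1 t ((h.clX t).1 ht)⟩

theorem csz (h : Sim S S') (d : D) : S'.csz d = S.csz d := by
  classical
  unfold St.csz
  refine Finset.sum_congr rfl fun e _ => ?_
  simp only [h.hr, h.sc]

theorem rc (h : Sim S S') (s : V → Bool) : S'.rc s = S.rc s := by
  unfold St.rc
  refine Finset.sum_congr rfl fun d _ => ?_
  rw [h.hr]
  by_cases hd : S.real d = true
  · rw [h.hv d hd, h.hvα hd]
  · simp [hd]

theorem full (h : Sim S S') (hF : ∀ x ∈ S.A, ∃ d, S.M.v d = x ∧ S.real d = true) :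
    ∀ x ∈ S'.A, ∃ d, S'.M.v d = x ∧ S'.real d = true := by
  intro x hx
  rw [h.hA] at hx
  obtain ⟨d, h1, h2⟩ := hF x hx
  exact ⟨d, by rw [h.hv d h2, h1], by rw [h.hr]; exact h2⟩

theorem gd (h : Sim S S') (g : Gd S) : Gd S' where
  real_α d := by rw [h.hr, h.hr, h.hα]; exact g.real_α d
  real_A d hd := by
    rw [h.hr] at hd
    rw [h.hA, h.hv d hd]; exact g.real_A d hd
  real_ne d hd := by
    rw [h.hr] at hd
    rw [h.hv d hd, h.hvα hd]; exact g.real_ne d hd
  A_im x hx := by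
    rw [h.hA] at hx
    obtain ⟨d, hd⟩ := g.A_im x hx
    obtain ⟨e, he⟩ := h.im' d
    exact ⟨e, by rw [← he, hd]⟩
  ne := by rw [h.hA]; exact g.ne
  full d hd := by
    rw [h.hA] at hd
    obtain ⟨e, he⟩ := h.im d
    rw [he] at hd
    obtain ⟨e', h1, h2⟩ := g.full e hd
    exact ⟨e', by rw [h.hv e' h2, h1, he], by rw [h.hr]; exact h2⟩
  gcon K hK x y hx hy := by
    rw [h.hA] at hx hy
    refine g.gcon K (fun d hd => ?_) hx hy
    have := hK d (by rw [h.hr]; exact hd)
    rwa [h.hv d hd, h.hvα hd] at this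

theorem ur' (h : Sim S S') : ∀ d, S.u d ≠ 0 → S.real d = true := h.ur

theorem ra' (h : Sim S S') : ∀ d, S.real (S.M.α d) = S.real d := h.ra

variable {c : V → Bool}

theorem br (h : Sim S S') (d : D) : Br S' c d ↔ Br S c d := by
  unfold Br
  rw [h.hr]
  by_cases hd : S.real d = true
  · rw [h.hv d hd, h.hvα hd]
  · simp [hd]

theorem test (h : Sim S S') (f : D → ℝ) : S'.Test c f ↔ S.Test c f := by
  have key : ∀ (R R' : St D V), Sim R R' → R.Test c f → R'.Test c f := by
    intro R R' h hf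
    have hC : R.Cl f := ⟨hf.1, fun d hd => hf.2 d (Or.inl hd)⟩
    have hC' := (h.cl f).2 hC
    refine ⟨hC'.1, fun d hd => ?_⟩
    by_cases hr : R.real d = true
    · rw [h.hα]
      refine hf.2 d (Or.inr ?_)
      rcases hd with hd | hd
      · rw [h.hr, hr] at hd; exact absurd hd (by simp)
      · rwa [h.hv d hr, h.hvα hr] at hd
    · exact hC'.2 d (by rw [h.hr]; simpa using hr)
  exact ⟨key S' S h.symm, key S S' h⟩

theorem vi (h : Sim S S') (d : D) : Vi S' c d ↔ Vi S c d := by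
  unfold Vi
  simp only [h.br, h.test]

/-- the solutions are the same -/
theorem sol (h : Sim S S') (hF : S.Full) {L : D → Bool} (hs : Sol S L c) : Sol S' L c where
  con f hf d d' hd hd' := hs.con f ((h.test f).1 hf) d d' ((h.br d).1 hd) ((h.br d').1 hd')
  live x hx := by
    rw [h.hA] at hx
    obtain ⟨d, rfl, h2⟩ := hs.live x hx
    refine ⟨S.fr d, ?_, (h.vi _).2 (vi_cl (fun t ht => (cl_fr hF ht hx).symm) h2)⟩
    rw [h.hv _ (real_fr hF hx), v_fr]
  req d hd := by
    rw [h.hu] at hd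
    exact (h.vi d).2 (hs.req d hd)
  lab d hd := by
    rw [h.hα]
    rcases hs.lab d hd with h1 | h1
    · exact Or.inl ((h.vi d).2 h1)
    · exact Or.inr ((h.vi _).2 h1)

end Sim

/-- a state with another map -/
def wM (S : St D V) (M' : TMap D V) : St D V where
  M := M'
  A := S.A
  real := S.real
  u := S.u

/-- the flip of a virtual edge -/
theorem sim_flip [DecidableEq D] {S : St D V} {a : D} (h1 : S.M.α a ≠ S.M.φ a)
    (h2 : S.M.α a ≠ S.M.φ (S.M.φ a)) (ha : S.real a = false)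
    (ur : ∀ d, S.u d ≠ 0 → S.real d = true) (ra : ∀ d, S.real (S.M.α d) = S.real d) :
    Sim S (wM S (S.M.flip a h1 h2)) := by
  have s := S.M.six h1 h2
  have ra' : S.real (S.M.α a) = false := by rw [ra, ha]
  have hoff : ∀ d, S.real d = true → d ≠ a ∧ d ≠ S.M.α a := by
    intro d hd
    constructor
    · rintro rfl; rw [ha] at hd; exact absurd hd (by simp)
    · rintro rfl; rw [ra'] at hd; exact absurd hd (by simp)
  refine ⟨fun _ => rfl, fun _ => rfl, fun _ => rfl, rfl, fun d hd => ?_, fun d => ?_, fun d => ?_,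
    fun t => ⟨fun ht => ?_, fun ht => ?_⟩, ur, ra⟩
  · obtain ⟨k1, k2⟩ := hoff d hd
    exact S.M.flv_off k1 k2
  · show ∃ e, S.M.flv a d = S.M.v e
    unfold TMap.flv
    split_ifs
    · exact ⟨_, rfl⟩
    · exact ⟨_, rfl⟩
    · exact ⟨_, rfl⟩
  · show ∃ e, S.M.v d = S.M.flv a e
    by_cases k1 : d = a
    · refine ⟨S.M.φ (S.M.α a), ?_⟩
      rw [S.M.flv_off s.m2.symm s.n4.symm, k1, S.M.vφ, S.M.αα]
    · by_cases k2 : d = S.M.α a
      · refine ⟨S.M.φ a, ?_⟩
        rw [S.M.flv_off s.n1.symm s.m4, k2, S.M.vφ]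
      · exact ⟨d, by rw [S.M.flv_off k1 k2]⟩
  · -- from the flipped map
    have hφ : ∀ d, t (flφ S.M.φ a (S.M.α a) d) = t d := ht.1
    have hα : t (S.M.α a) = t a := ht.2 a ha
    have e1 := hφ a
    have e2 := hφ (S.M.φ (S.M.φ a))
    have e3 := hφ (S.M.φ (S.M.α a))
    have e4 := hφ (S.M.α a)
    have e5 := hφ (S.M.φ (S.M.φ (S.M.α a)))
    have e6 := hφ (S.M.φ a)
    rw [TMap.flφ_a] at e1
    rw [TMap.flφ_c s] at e2
    rw [TMap.flφ_b' s] at e3
    rw [TMap.flφ_a' s] at e4
    rw [TMap.flφ_c' s] at e5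
    rw [TMap.flφ_b s] at e6
    refine ⟨fun d => ?_, fun d hd => ht.2 d hd⟩
    rcases TMap.off_or S.M.φ a (S.M.α a) d with k | k | k | k | k | k | k
    · rw [k]; linarith
    · rw [k]; linarith
    · rw [k, S.M.φ3]; linarith
    · rw [k]; linarith
    · rw [k]; linarith
    · rw [k, S.M.φ3]; linarith
    · have := hφ d
      rwa [TMap.flφ_off k] at this
  · have hα : t (S.M.α a) = t a := ht.2 a ha
    have c1 := ht.1 a
    have c2 := ht.1 (S.M.φ a)
    have c3 := ht.1 (S.M.α a)
    have c4 := ht.1 (S.M.φ (S.M.α a))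
    refine ⟨fun d => ?_, fun d hd => ht.2 d hd⟩
    show t (flφ S.M.φ a (S.M.α a) d) = t d
    rcases TMap.off_or S.M.φ a (S.M.α a) d with k | k | k | k | k | k | k
    · rw [k, TMap.flφ_a]; linarith
    · rw [k, TMap.flφ_b s]; linarith
    · rw [k, TMap.flφ_c s]; linarith
    · rw [k, TMap.flφ_a' s]; linarith
    · rw [k, TMap.flφ_b' s]; linarith
    · rw [k, TMap.flφ_c' s]; linarith
    · rw [TMap.flφ_off k]; exact ht.1 d

/-- a list of flips of virtual edges leads from `P` to `P'` -/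
noncomputable def vflips (P' : Pa) : Pa → List ℕ → Bool
  | P, [] => decide (P'.n = P.n) && allN P.n fun i => decide (P'.φ i = P.φ i) &&
      decide (P'.α i = P.α i) && decide (P'.l i = P.l i) && (P'.real i == P.real i)
  | P, a :: L => P.flOk a && !P.real a && vflips P' (P.fl a) L

/-- flips of virtual edges of an embedded patch -/
theorem em_vflips [DecidableEq D] {P' : Pa} {f : ℕ → D} {g : ℕ → V} (L : List ℕ) :
    ∀ {P : Pa} {S : St D V}, Em P S f g → (∀ i < P.n, P.φ i < P.n) → (∀ i < P.n, P.α i < P.n) →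
      (∀ d, S.u d ≠ 0 → S.real d = true) → (∀ d, S.real (S.M.α d) = S.real d) →
      vflips P' P L = true → ∃ S' : St D V, Em P' S' f g ∧ P'.n = P.n ∧ Sim S S' ∧
        (∀ d, (∀ i < P.n, f i ≠ d) → S'.M.φ d = S.M.φ d) ∧
        (∀ d, (∀ i < P.n, f i ≠ d) → S'.M.v d = S.M.v d) := by
  induction L with
  | nil =>
    intro P S e hφ hα ur ra h
    simp only [vflips, Bool.and_eq_true, decide_eq_true_eq, allN_iff, beq_iff_eq] at h
    obtain ⟨hn, hL⟩ := h
    refine ⟨S, ⟨?_, fun i hi => ?_, fun i hi hne => ?_, fun i hi => ?_, fun i hi => ?_⟩, hn,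
      Sim.refl ur ra, fun _ _ => rfl, fun _ _ => rfl⟩
    · rw [hn]; exact e.inj
    · rw [hn] at hi
      rw [(hL i hi).1.1.1]; exact e.hφ i hi
    · rw [hn] at hi
      rw [(hL i hi).1.1.2] at hne ⊢
      exact e.hα i hi hne
    · rw [hn] at hi
      rw [(hL i hi).1.2]; exact e.hl i hi
    · rw [hn] at hi
      rw [(hL i hi).2]; exact e.hr i hi
  | cons a L ih =>
    intro P S e hφ hα ur ra h
    simp only [vflips, Bool.and_eq_true, Bool.not_eq_true'] at h
    obtain ⟨⟨k1, k2⟩, k3⟩ := h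
    have k1' := k1
    simp only [Pa.flOk, Bool.and_eq_true, decide_eq_true_eq] at k1'
    obtain ⟨⟨⟨h0, h1⟩, h2⟩, h3⟩ := k1'
    have p1 := hφ a h0
    have p2 := hφ _ p1
    have p3 := hα a h0
    have p4 := hφ _ p3
    have p5 := hφ _ p4
    have q0 := e.hα a h0 h1
    have q1 := e.hφ a h0
    have q2 : S.M.φ (S.M.φ (f a)) = f (P.φ (P.φ a)) := by rw [q1, e.hφ _ p1]
    have q3 : S.M.φ (S.M.α (f a)) = f (P.φ (P.α a)) := by rw [q0, e.hφ _ p3]
    have q4 : S.M.φ (S.M.φ (S.M.α (f a))) = f (P.φ (P.φ (P.α a))) := by rw [q3, e.hφ _ p4]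
    have g1 : S.M.α (f a) ≠ S.M.φ (f a) := by
      rw [q0, q1]; intro h; exact h2 (e.inj _ p3 _ p1 h)
    have g2 : S.M.α (f a) ≠ S.M.φ (S.M.φ (f a)) := by
      rw [q0, q2]; intro h; exact h3 (e.inj _ p3 _ p2 h)
    have hra : S.real (f a) = false := by rw [e.hr a h0, k2]
    have hsim := sim_flip g1 g2 hra ur ra
    have E : ∀ i < P.n, ∀ j < P.n, (f i = f j) = (i = j) := fun i hi j hj =>
      propext ⟨e.inj i hi j hj, fun e => by rw [e]⟩
    have eM : Em (P.fl a) (wM S (S.M.flip (f a) g1 g2)) f g := by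
      refine ⟨e.inj, fun i hi => ?_, e.hα, fun i hi => ?_, e.hr⟩
      · show flφ S.M.φ (f a) (S.M.α (f a)) (f i) = f (flφ P.φ a (P.α a) i)
        unfold flφ
        rw [q4, q3, q2, q0, q1]
        have hi' : i < P.n := hi
        simp only [E i hi' a h0, E i hi' _ p2, E i hi' _ p4, E i hi' _ p3, E i hi' _ p5,
          E i hi' _ p1]
        rw [e.hφ i hi]
        split_ifs <;> rfl
      · show S.M.flv (f a) (f i) = g (if i = a then P.l (P.φ (P.φ (P.α a))) else
          if i = P.α a then P.l (P.φ (P.φ a)) else P.l i)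
        unfold TMap.flv
        have hi' : i < P.n := hi
        rw [q4, q2, q0, e.hl _ p5, e.hl _ p2, e.hl i hi']
        simp only [E i hi' a h0, E i hi' _ p3]
        split_ifs <;> rfl
    have hφ' : ∀ i < (P.fl a).n, (P.fl a).φ i < (P.fl a).n := by
      intro i hi
      have hi' : i < P.n := hi
      show flφ P.φ a (P.α a) i < P.n
      unfold flφ
      split_ifs
      · exact p2
      · exact p4
      · exact h0
      · exact p5
      · exact p1
      · exact p3
      · exact hφ i hi'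
    obtain ⟨S', r1, r2, r3, r4, r5⟩ := ih eM hφ' hα hsim.symm.ur' hsim.symm.ra' k3
    refine ⟨S', r1, r2, hsim.trans r3, fun d hd => ?_, fun d hd => ?_⟩
    · rw [r4 d hd]
      show flφ S.M.φ (f a) (S.M.α (f a)) d = S.M.φ d
      apply TMap.flφ_off
      refine ⟨?_, ?_, ?_, ?_, ?_, ?_⟩
      · exact (hd a h0).symm
      · rw [q1]; exact (hd _ p1).symm
      · rw [q2]; exact (hd _ p2).symm
      · rw [q0]; exact (hd _ p3).symm
      · rw [q3]; exact (hd _ p4).symm
      · rw [q4]; exact (hd _ p5).symm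
    · rw [r5 d hd]
      show S.M.flv (f a) d = S.M.v d
      apply S.M.flv_off
      · exact (hd a h0).symm
      · rw [q0]; exact (hd _ p3).symm

/-- restriction of a patch to some of its cells -/
def rstr (P' P : Pa) : Bool :=
  decide (P'.n ≤ P.n) && allN P'.n fun i => decide (P'.φ i = P.φ i) &&
    (decide (P'.α i = P.α i) || decide (P'.α i = i)) && decide (P'.l i = P.l i) &&
    (P'.real i == P.real i)

theorem Em.restrict {P' P : Pa} {S : St D V} {f : ℕ → D} {g : ℕ → V} (e : Em P S f g)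
    (h : rstr P' P = true) : Em P' S f g := by
  simp only [rstr, Bool.and_eq_true, decide_eq_true_eq, allN_iff, Bool.or_eq_true,
    beq_iff_eq] at h
  obtain ⟨hn, hL⟩ := h
  refine ⟨fun i hi j hj => e.inj i (by omega) j (by omega), fun i hi => ?_, fun i hi hne => ?_,
    fun i hi => ?_, fun i hi => ?_⟩
  · rw [(hL i hi).1.1.1]; exact e.hφ i (by omega)
  · rcases (hL i hi).1.1.2 with h1 | h1
    · rw [h1] at hne ⊢
      exact e.hα i (by omega) hne
    · exact absurd h1 hne
  · rw [(hL i hi).1.2]; exact e.hl i (by omega)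
  · rw [(hL i hi).2]; exact e.hr i (by omega)

end Pool.FC7
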