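import Pool.Agent.FC6.Stars
import Pool.Agent.FC7.Flp

/-! # Embeddings from base darts, for the star form of FC7

The same proofs as in FC6/Sp.lean and FC6/Stars.lean. -/

open Finset

namespace Pool.FC7

open Pool.FC6 Pool.FC6.St

variable {D V : Type} [Fintype D] [DecidableEq V]

/-- the embedding given by the spokes.  `hx` : the spokes with different labels are at different
vertices; `hh` : the ends of the unpaired spokes are not in `X` -/
theorem em_of_sp {S : St D V} (hS : IsStar S)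
    (hra : ∀ d, S.real (S.M.α d) = S.real d) {P : Pa} (Q : Sp)
    (hQ : Q.chk P = true) (ι : ℕ → D)
    (hinj : ∀ j < Q.ns, ∀ j' < Q.ns, ι j = ι j' → j = j')
    (hρ : ∀ j < Q.ns, S.M.σ (ι j) = ι (Q.ρ j))
    (hπ : ∀ j < Q.ns, Q.π j ≠ j → S.M.α (ι j) = ι (Q.π j))
    (hrl : ∀ j < Q.ns, S.real (ι j) = Q.rl j)
    (hx : ∀ j < Q.ns, ∀ j' < Q.ns, S.M.v (ι j) = S.M.v (ι j') → P.l (Q.nf 0 j) = P.l (Q.nf 0 j'))
    (hh : ∀ j < Q.ns, Q.π j = j → ∀ j' < Q.ns, S.M.v (S.M.α (ι j)) ≠ S.M.v (ι j')) :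
    ∃ (f : ℕ → D) (g : ℕ → V), Em P S f g ∧
      (∀ j < Q.ns, f (Q.nf 0 j) = ι j ∧ f (Q.nf 1 j) = S.M.α (ι j) ∧ f (Q.nf 2 j) = S.M.φ (ι j)) ∧
      (∀ i < P.n, Q.cx (P.l i) = true → ∀ d, S.M.v d = g (P.l i) → ∃ i' < P.n, f i' = d) ∧
      (∀ i < P.n, Q.cx (P.l i) = true → ∀ i' < P.n, P.l i' ≠ P.l i → g (P.l i') ≠ g (P.l i)) := by
  have hC := Sp.chk_ck hQ
  -- the names
  have hnm : ∀ j < Q.ns, ∀ k < 3, nmS S ι (Q.rk (Q.nf k j)) (Q.rj (Q.nf k j)) = nmS S ι k j :=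
    fun j hj k hk => (nmS_same hC hρ hπ hj (hC.same j hj k hk)).symm
  obtain ⟨f, hf⟩ : ∃ f : ℕ → D, ∀ i, f i = nmS S ι (Q.rk i) (Q.rj i) := ⟨_, fun _ => rfl⟩
  have f0 : ∀ j < Q.ns, f (Q.nf 0 j) = ι j := fun j hj => by
    rw [hf, hnm j hj 0 (by norm_num)]; rfl
  have f1 : ∀ j < Q.ns, f (Q.nf 1 j) = S.M.α (ι j) := fun j hj => by
    rw [hf, hnm j hj 1 (by norm_num)]; rfl
  have f2 : ∀ j < Q.ns, f (Q.nf 2 j) = S.M.φ (ι j) := fun j hj => by
    rw [hf, hnm j hj 2 (by norm_num)]; rfl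
  have fr0 : ∀ i < P.n, Q.rk i = 0 → f i = ι (Q.rj i) := fun i _ h => by rw [hf, h]; rfl
  have fr1 : ∀ i < P.n, Q.rk i = 1 → f i = S.M.α (ι (Q.rj i)) := fun i _ h => by rw [hf, h]; rfl
  have fr2 : ∀ i < P.n, Q.rk i = 2 → f i = S.M.φ (ι (Q.rj i)) := fun i _ h => by rw [hf, h]; rfl
  have hφα : ∀ j < Q.ns, S.M.φ (S.M.α (ι j)) = ι (Q.ρ j) := hρ
  have hφφ : ∀ j < Q.ns, S.M.φ (S.M.φ (ι j)) = S.M.α (ι (Q.ρi j)) := by
    intro j hj
    have e1 := hφα _ (hC.ρilt j hj)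
    rw [hC.ρρi j hj] at e1
    rw [← e1, S.M.φ3]
  have hcase : ∀ i < P.n, Q.rk i = 0 ∨ Q.rk i = 1 ∨ Q.rk i = 2 := fun i hi => by
    have := hC.k3 i hi
    omega
  have hEφ : ∀ i < P.n, S.M.φ (f i) = f (P.φ i) := by
    intro i hi
    have hj := hC.rjlt i hi
    rcases hcase i hi with h | h | h
    · obtain ⟨a1, -⟩ := hC.k0 i hi h
      rw [fr0 i hi h, a1, f2 _ hj]
    · obtain ⟨a1, -⟩ := hC.k1 i hi h
      rw [fr1 i hi h, a1, f0 _ (hC.ρlt _ hj), hφα _ hj]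
    · obtain ⟨a1, -⟩ := hC.k2 i hi h
      rw [fr2 i hi h, a1, f1 _ (hC.ρilt _ hj), hφφ _ hj]
  have hEα : ∀ i < P.n, P.α i ≠ i → S.M.α (f i) = f (P.α i) := by
    intro i hi hne
    have hj := hC.rjlt i hi
    rcases hcase i hi with h | h | h
    · obtain ⟨-, a2, -⟩ := hC.k0 i hi h
      rw [fr0 i hi h, a2, f1 _ hj]
    · obtain ⟨-, a2, -⟩ := hC.k1 i hi h
      rw [fr1 i hi h, a2, f0 _ hj, S.M.αα]
    · exact absurd (hC.k2 i hi h).2.1 hne
  have hEr : ∀ i < P.n, S.real (f i) = P.real i := by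
    intro i hi
    have hj := hC.rjlt i hi
    rcases hcase i hi with h | h | h
    · rw [fr0 i hi h, (hC.k0 i hi h).2.2.2, hrl _ hj]
    · rw [fr1 i hi h, (hC.k1 i hi h).2.2.2.2, hra, hrl _ hj]
    · rw [fr2 i hi h, (hC.k2 i hi h).2.2.2.2]
      have hj' := hC.ρilt _ hj
      have b0 : S.real (ι (Q.rj i)) = Q.rl (Q.rj i) := hrl _ hj
      have b1 : S.real (S.M.φ (S.M.φ (ι (Q.rj i)))) = Q.rl (Q.ρi (Q.rj i)) := by
        rw [hφφ _ hj, hra, hrl _ hj']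
      rw [← b0, ← b1]
      have c1 := hS.two (ι (Q.rj i))
      have c2 := hS.two (S.M.φ (ι (Q.rj i)))
      have c3 := hS.two (S.M.φ (S.M.φ (ι (Q.rj i))))
      have c4 := hS.one (ι (Q.rj i))
      rw [S.M.φ3] at c2 c3
      cases ha : S.real (ι (Q.rj i)) <;> cases hb : S.real (S.M.φ (ι (Q.rj i))) <;>
        cases hc : S.real (S.M.φ (S.M.φ (ι (Q.rj i)))) <;> simp_all
  -- injectivity
  have hEinj : ∀ i < P.n, ∀ i' < P.n, f i = f i' → i = i' := by
    have h01 : ∀ i < P.n, ∀ i' < P.n, Q.rk i = 0 → Q.rk i' = 1 → f i ≠ f i' := by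
      intro i hi i' hi' h h' e
      rw [fr0 i hi h, fr1 i' hi' h'] at e
      exact hh _ (hC.rjlt i' hi') (hC.k1 i' hi' h').2.2.2.1 _ (hC.rjlt i hi) (by rw [e])
    have h02 : ∀ i < P.n, ∀ i' < P.n, Q.rk i = 0 → Q.rk i' = 2 → f i ≠ f i' := by
      intro i hi i' hi' h h' e
      rw [fr0 i hi h, fr2 i' hi' h'] at e
      exact hh _ (hC.rjlt i' hi') (hC.k2 i' hi' h').2.2.1 _ (hC.rjlt i hi)
        (by rw [e, S.M.vφ])
    have h12 : ∀ i < P.n, ∀ i' < P.n, Q.rk i = 1 → Q.rk i' = 2 → f i ≠ f i' := by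
      intro i hi i' hi' h h' e
      rw [fr1 i hi h, fr2 i' hi' h'] at e
      have hj' := hC.rjlt i' hi'
      have e2 : S.M.v (ι (Q.rj i)) = S.M.v (S.M.α (ι (Q.ρi (Q.rj i')))) := by
        rw [← hφφ _ hj', S.M.vφ, ← e, S.M.αα]
      exact hh _ (hC.ρilt _ hj') (hC.k2 i' hi' h').2.2.2.1 _ (hC.rjlt i hi) e2.symm
    have hsame : ∀ i < P.n, ∀ i' < P.n, Q.rk i = Q.rk i' → f i = f i' → i = i' := by
      intro i hi i' hi' h e
      have hj := hC.rjlt i hi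
      have hj' := hC.rjlt i' hi'
      have e1 : ι (Q.rj i) = ι (Q.rj i') := by
        rcases hcase i hi with h1 | h1 | h1
        · rw [fr0 i hi h1, fr0 i' hi' (by rw [← h, h1])] at e
          exact e
        · rw [fr1 i hi h1, fr1 i' hi' (by rw [← h, h1])] at e
          exact S.M.αinj e
        · rw [fr2 i hi h1, fr2 i' hi' (by rw [← h, h1])] at e
          exact S.M.φinj e
      have e2 := hinj _ hj _ hj' e1
      rw [← hC.nfr i hi, ← hC.nfr i' hi', h, e2]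
    intro i hi i' hi' e
    rcases hcase i hi with h | h | h <;> rcases hcase i' hi' with h' | h' | h'
    · exact hsame i hi i' hi' (by rw [h, h']) e
    · exact absurd e (h01 i hi i' hi' h h')
    · exact absurd e (h02 i hi i' hi' h h')
    · exact absurd e.symm (h01 i' hi' i hi h' h)
    · exact hsame i hi i' hi' (by rw [h, h']) e
    · exact absurd e (h12 i hi i' hi' h h')
    · exact absurd e.symm (h02 i' hi' i hi h' h)
    · exact absurd e.symm (h12 i' hi' i hi h' h)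
    · exact hsame i hi i' hi' (by rw [h, h']) e
  -- the labels
  have hGφ := hC.G.φlt
  have hGα := hC.G.αlt
  obtain ⟨g, hg⟩ : ∃ g : ℕ → V, ∀ l, g l = S.M.v (f (Q.lr l)) := ⟨_, fun _ => rfl⟩
  have hEl : ∀ i < P.n, S.M.v (f i) = g (P.l i) := by
    have key : ∀ N : ℕ, ∀ i < P.n, Q.vr i < N → S.M.v (f i) = g (P.l i) := by
      intro N
      induction N with
      | zero => intro i _ h; omega
      | succ N ih =>
        intro i hi hN
        rcases hC.vp i hi with h1 | ⟨h1, h2, h3, h4⟩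
        · rw [hg, ← h1]
        · have h5 := ih (Q.vp i) h2 (by omega)
          rw [h3] at h5
          rw [← h5]
          rcases h4 with ⟨h6, h7⟩ | ⟨h6, h7⟩
          · rw [h7, ← hEφ _ (hGα i hi), ← hEα i hi h6, S.M.vφ, S.M.αα]
          · have hi1 := hGφ i hi
            have hi2 := hGφ _ hi1
            rw [h7, ← hEα _ hi2 h6, ← hEφ _ hi1, ← hEφ i hi, S.M.vφ2]
    intro i hi
    exact key (Q.vr i + 1) i hi (by omega)
  -- darts at the centres are spokes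
  have hspoke : ∀ j < Q.ns, ∀ d, S.M.v d = S.M.v (ι j) → ∃ j' < Q.ns, ι j' = d := by
    intro j hj d hd
    obtain ⟨m, hm⟩ := S.M.σ_orbit hd.symm
    have key : ∀ m : ℕ, ∃ j' < Q.ns, ι j' = S.M.σ^[m] (ι j) := by
      intro m
      induction m with
      | zero => exact ⟨j, hj, rfl⟩
      | succ m ih =>
        obtain ⟨j', hj', e⟩ := ih
        refine ⟨Q.ρ j', hC.ρlt _ hj', ?_⟩
        rw [Function.iterate_succ_apply', ← e, hρ _ hj']
    obtain ⟨j', hj', e⟩ := key m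
    exact ⟨j', hj', e.trans hm⟩
  have hrk0 : ∀ j < Q.ns, Q.rk (Q.nf 0 j) = 0 ∧ Q.rj (Q.nf 0 j) = j := by
    intro j hj
    have h1 := hC.same j hj 0 (by norm_num)
    simp only [Sp.same, Sp.step, Bool.or_eq_true, Bool.and_eq_true, decide_eq_true_eq] at h1
    rcases h1 with (((h1 | h1) | h1) | h1) | h1
    · exact h1
    · exact absurd h1.1.1.1 (by norm_num)
    · exact absurd h1.1.1.1 (by norm_num)
    · exact absurd h1.1.1.1 (by norm_num)
    · exact absurd h1.1.1 (by norm_num)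
  have hcx : ∀ i < P.n, Q.cx (P.l i) = true → Q.rk i = 0 := by
    intro i hi hc
    have hj := hC.rjlt i hi
    rcases hcase i hi with h | h | h
    · exact h
    · exfalso
      have h1 := hC.nfr i hi
      rw [h] at h1
      rcases hC.cx1 _ hj with h2 | h2
      · exact h2 (hC.k1 i hi h).2.2.2.1
      · rw [h1, hc] at h2
        exact absurd h2 (by decide)
    · exfalso
      have h1 := hC.nfr i hi
      rw [h] at h1
      obtain ⟨k0, kj⟩ := hrk0 _ hj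
      have hn0 := hC.nflt _ hj 0 (by norm_num)
      obtain ⟨a1, a2, a3, -⟩ := hC.k0 _ hn0 k0
      rw [kj] at a1 a2
      have h3 := hC.G.lφ _ hn0 a3
      rw [a1, a2, h1] at h3
      rcases hC.cx1 _ hj with h2 | h2
      · exact h2 (hC.k2 i hi h).2.2.1
      · rw [← h3, hc] at h2
        exact absurd h2 (by decide)
  refine ⟨f, g, ⟨hEinj, hEφ, hEα, hEl, hEr⟩, fun j hj => ⟨f0 j hj, f1 j hj, f2 j hj⟩, ?_, ?_⟩
  · intro i hi hc d hd
    have h0 := hcx i hi hc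
    have hj := hC.rjlt i hi
    rw [← hEl i hi, fr0 i hi h0] at hd
    obtain ⟨j', hj', e⟩ := hspoke _ hj d hd
    exact ⟨Q.nf 0 j', hC.nflt _ hj' 0 (by norm_num), by rw [f0 _ hj', e]⟩
  · intro i hi hc i' hi' hne e
    have h0 := hcx i hi hc
    have hj := hC.rjlt i hi
    rw [← hEl i hi, ← hEl i' hi', fr0 i hi h0] at e
    obtain ⟨j', hj', e'⟩ := hspoke _ hj (f i') e
    have h1 : Q.nf 0 j' = i' := hEinj _ (hC.nflt _ hj' 0 (by norm_num)) _ hi' (by rw [f0 _ hj', e'])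
    have h2 := hx j' hj' (Q.rj i) hj (by rw [e', e])
    have h3 : Q.nf 0 (Q.rj i) = i := by
      have := hC.nfr i hi
      rw [h0] at this
      exact this
    rw [h1, h3] at h2
    exact hne h2

/-- the embedding given by base darts: the numbers of the darts at the centres, their real flags
(`hrl`), different centres are different vertices (`hv`), the ends of the unpaired spokes are no
centres (`hh`) -/
theorem em_of_stars {S : St D V} (hS : IsStar S)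
    (hra : ∀ d, S.real (S.M.α d) = S.real d) {P : Pa} (Z : Stars)
    (hZ : Z.chk P = true) (d : ℕ → D)
    (hd : ∀ a < Z.nc, 0 < a → d a = S.M.α (S.M.σ^[Z.ja a] (d (Z.pa a))))
    (hm : ∀ a < Z.nc, S.M.σ^[Z.m a] (d a) = d a)
    (hm' : ∀ a < Z.nc, ∀ j < Z.m a, 0 < j → S.M.σ^[j] (d a) ≠ d a)
    (hrl : ∀ a < Z.nc, ∀ j < Z.m a, S.real (S.M.σ^[j] (d a)) = Z.Q.rl (Z.off a + j))
    (hv : ∀ a < Z.nc, ∀ b < Z.nc, S.M.v (d a) = S.M.v (d b) → a = b)
    (hh : ∀ a < Z.nc, ∀ j < Z.m a, Z.Q.π (Z.off a + j) = Z.off a + j →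
      ∀ b < Z.nc, S.M.v (S.M.α (S.M.σ^[j] (d a))) ≠ S.M.v (d b)) :
    ∃ (f : ℕ → D) (g : ℕ → V), Em P S f g ∧
      (∀ a < Z.nc, ∀ j < Z.m a, f (Z.Q.nf 0 (Z.off a + j)) = S.M.σ^[j] (d a) ∧
        f (Z.Q.nf 1 (Z.off a + j)) = S.M.α (S.M.σ^[j] (d a)) ∧
        f (Z.Q.nf 2 (Z.off a + j)) = S.M.φ (S.M.σ^[j] (d a))) ∧
      (∀ i < P.n, Z.Q.cx (P.l i) = true → ∀ e, S.M.v e = g (P.l i) → ∃ i' < P.n, f i' = e) ∧
      (∀ i < P.n, Z.Q.cx (P.l i) = true → ∀ i' < P.n, P.l i' ≠ P.l i → g (P.l i') ≠ g (P.l i)) ∧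
      (∀ a < Z.nc, g (P.l (Z.Q.nf 0 (Z.off a))) = S.M.v (d a)) ∧
      (∀ a < Z.nc, ∀ j < Z.m a, g (P.l (Z.Q.nf 1 (Z.off a + j))) =
        S.M.v (S.M.α (S.M.σ^[j] (d a)))) := by
  have hC := Stars.chk_ck hZ
  have hZ' : Z.Q.chk P = true := by
    simp only [Stars.chk, Bool.and_eq_true] at hZ
    exact hZ.1.1
  obtain ⟨f, g, hE, hf, h1, h2⟩ := em_of_sp hS hra Z.Q hZ' (Z.io S d) (Stars.io_inj hC hm' hv)
    (fun j hj => Stars.io_ρ hC hm hj) (Stars.io_π hC hd hm) (fun j hj => by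
      have a1 := hC.lo j hj
      have a2 := hC.hi j hj
      have a3 := hrl _ (hC.calt j hj) (j - Z.off (Z.ca j)) (by omega)
      rw [show Z.off (Z.ca j) + (j - Z.off (Z.ca j)) = j by omega] at a3
      exact a3) (fun j hj j' hj' e => by
      rw [Z.v_io, Z.v_io] at e
      have := hv _ (hC.calt j hj) _ (hC.calt j' hj') e
      rw [hC.lab j hj, hC.lab j' hj', this]) (fun j hj hπ j' hj' => by
      have a1 := hC.lo j hj
      have a2 := hC.hi j hj
      rw [Z.v_io S d j']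
      refine hh _ (hC.calt j hj) (j - Z.off (Z.ca j)) (by omega) ?_ _ (hC.calt j' hj')
      rw [show Z.off (Z.ca j) + (j - Z.off (Z.ca j)) = j by omega]
      exact hπ)
  have hlt : ∀ a < Z.nc, ∀ j < Z.m a, Z.off a + j < Z.Q.ns := fun a ha j hj => by
    have := hC.offm a ha
    omega
  refine ⟨f, g, hE, fun a ha j hj => ?_, h1, h2, fun a ha => ?_, fun a ha j hj => ?_⟩
  · rw [← Stars.io_off hC S d ha hj]
    exact hf _ (hlt a ha j hj)
  · have h3 := hlt a ha 0 (hC.mpos a ha)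
    rw [add_zero] at h3
    rw [← hE.hl _ (hC.Q.nflt _ h3 0 (by norm_num)), (hf _ h3).1, Stars.io_base hC S d ha]
  · have h3 := hlt a ha j hj
    rw [← hE.hl _ (hC.Q.nflt _ h3 1 (by norm_num)), (hf _ h3).2.1, Stars.io_off hC S d ha hj]

end Pool.FC7
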