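import Pool.Agent.FC7.WdA
import Pool.Agent.FC7.EmbA
import Pool.Agent.FC6.WordsB

/-! # Configurations given by words: the embedding of the patch -/

open Finset

set_option linter.unusedSectionVars false

namespace Pool.FC7

open Pool.FC6 Pool.FC6.St

/-- a configuration.  `Z`: the spokes of the centres; `P`: the patch of all cells at the centres;
`ac a`: the centre `a` is alive; `wd a`: its word; `ra a`: the real spoke of the parent `pa a` which
leads to the centre `a` (for a dead centre: the gap after this spoke); `ad a b = k + 1`: the real spoke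
`k` at `a` leads to `b`; `al j`: a spoke at an alive centre with the same head as `j`; `cs b`: a
spoke at an alive centre which leads to `b`; `SD j j'`: the heads of the spokes `j`, `j'` at alive
centres are surely different -/
structure Cf where
  Z : Stars
  P : Pa
  ac : ℕ → Bool
  wd : ℕ → List ℕ
  ra : ℕ → ℕ
  ad : ℕ → ℕ → ℕ
  al : ℕ → ℕ
  cs : ℕ → ℕ
  SD : ℕ → ℕ → Bool

namespace Cf

variable (F : Cf)

/-- `cs b` is a spoke at an alive centre which is paired with a spoke at `b` -/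
def csok (b : ℕ) : Bool :=
  decide (F.cs b < F.Z.Q.ns) && decide (F.Z.Q.π (F.cs b) ≠ F.cs b) &&
  decide (F.Z.ca (F.Z.Q.π (F.cs b)) = b) && F.ac (F.Z.ca (F.cs b))

/-- the head of the spoke is alive -/
def hal (j : ℕ) : Bool := if F.ac (F.Z.ca j) then F.Z.Q.rl j else true

/-- surely different heads -/
def sd (j j' : ℕ) : Bool :=
  decide (j < F.Z.Q.ns) && decide (j' < F.Z.Q.ns) && F.ac (F.Z.ca j) && F.ac (F.Z.ca j') &&
  ((F.Z.Q.rl j != F.Z.Q.rl j') || F.SD j j')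

/-- the centres are different, the ends of the unpaired spokes are no centres -/
def chkS : Bool :=
  allN F.Z.nc (fun a => allN F.Z.nc fun b =>
    (decide (F.ad a b = 0) ||
      (F.ac a && F.ac b && decide (F.ad a b - 1 < F.Z.Q.ns) && decide (F.Z.ca (F.ad a b - 1) = a) &&
        decide (F.Z.ca (F.Z.Q.π (F.ad a b - 1)) = b) &&
        decide (F.Z.Q.π (F.ad a b - 1) ≠ F.ad a b - 1) && F.Z.Q.rl (F.ad a b - 1))) &&
    (decide (a = b) || (F.ac a != F.ac b) || decide (F.ad a b ≠ 0) ||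
      (F.csok a && F.csok b && F.sd (F.cs a) (F.cs b)))) &&
  allN F.Z.Q.ns (fun j =>
    decide (F.Z.Q.π j ≠ j) || (decide (F.al j < F.Z.Q.ns) && F.ac (F.Z.ca (F.al j)) &&
    (decide (F.al j = j) ||
      (decide (F.Z.Q.π (F.Z.Q.ρi j) ≠ F.Z.Q.ρi j) &&
        decide (F.al j = F.Z.Q.ρi (F.Z.Q.π (F.Z.Q.ρi j)))) ||
      (decide (F.Z.Q.π (F.Z.Q.ρ j) ≠ F.Z.Q.ρ j) &&
        decide (F.al j = F.Z.Q.ρ (F.Z.Q.π (F.Z.Q.ρ j))))) &&
    allN F.Z.nc fun b =>
      (F.hal j != F.ac b) || (decide (F.Z.ca (F.al j) = b) && F.Z.Q.rl (F.al j)) ||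
      (F.csok b && F.sd (F.al j) (F.cs b))))

/-- the tables agree with the words of the alive centres -/
def chkW : Bool :=
  allN F.Z.nc fun a =>
    if F.ac a then
      decide (F.Z.m a = (fl (F.wd a)).length) &&
      allN (F.Z.m a) (fun j => F.Z.Q.rl (F.Z.off a + j) == (fl (F.wd a)).getD j false)
    else
      decide (a ≠ 0) && F.ac (F.Z.pa a) && !F.Z.Q.rl (F.Z.off (F.Z.pa a) + F.Z.ja a) &&
      decide (F.Z.m a = Sd.ubl ((kin ((F.wd (F.Z.pa a)).map sk)).getD (F.Z.ja a) 0)) &&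
      decide (F.Z.m a ≤ 4) && allN (F.Z.m a) (fun j => !F.Z.Q.rl (F.Z.off a + j))

/-- the tree of the centres agrees with the words -/
def chkT : Bool :=
  allN F.Z.nc fun a => decide (a = 0) || (F.ac (F.Z.pa a) &&
    decide (F.ra a ≤ (F.wd (F.Z.pa a)).length) &&
    (if F.ac a then decide (F.Z.ja a = pos (F.wd (F.Z.pa a)) (F.ra a))
      else decide (F.Z.ja a = pos (F.wd (F.Z.pa a)) (F.ra a) + 1)))

/-- the check -/
def chk : Bool := F.Z.chk F.P && F.chkS && F.chkW && F.chkT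

end Cf

variable {D V : Type} [Fintype D] [DecidableEq V]

/-- the base darts of the configuration -/
structure Cf.Base0 (F : Cf) (S : St D V) (L : D → Bool) (d : ℕ → D) : Prop where
  t : ∀ a < F.Z.nc, 0 < a → d a = S.M.α (if F.ac a = true then S.nxr^[F.ra a] (d (F.Z.pa a))
    else S.M.σ (S.nxr^[F.ra a] (d (F.Z.pa a))))
  w : ∀ a < F.Z.nc, F.ac a = true → IsW S L (d a) (F.wd a)

/-- the base darts of the configuration; the heads of the pairs in `SD` are different -/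
structure Cf.Base (F : Cf) (S : St D V) (L : D → Bool) (d : ℕ → D) : Prop
    extends F.Base0 S L d where
  sd : ∀ j < F.Z.Q.ns, ∀ j' < F.Z.Q.ns, F.ac (F.Z.ca j) = true → F.ac (F.Z.ca j') = true →
    F.SD j j' = true → S.M.v (S.M.α (F.Z.io S d j)) ≠ S.M.v (S.M.α (F.Z.io S d j'))

/-- properties of the base darts -/
structure Cf.Hy (F : Cf) (S : St D V) (d : ℕ → D) : Prop where
  hC : F.Z.Ck F.P
  hd : ∀ a < F.Z.nc, 0 < a → d a = S.M.α (S.M.σ^[F.Z.ja a] (d (F.Z.pa a)))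
  hm : ∀ a < F.Z.nc, S.M.σ^[F.Z.m a] (d a) = d a
  hm' : ∀ a < F.Z.nc, ∀ j < F.Z.m a, 0 < j → S.M.σ^[j] (d a) ≠ d a
  hrl : ∀ a < F.Z.nc, ∀ j < F.Z.m a, S.real (S.M.σ^[j] (d a)) = F.Z.Q.rl (F.Z.off a + j)
  hac : ∀ a < F.Z.nc, S.M.v (d a) ∈ S.A ↔ F.ac a = true
  nd : ∀ a < F.Z.nc, S.nd (d a) = F.Z.m a

variable {Δ : ℕ} {S : St D V} {L : D → Bool} {w : D → ℕ} {F : Cf} {d : ℕ → D}

theorem Cf.chk_iff (h : F.chk = true) : F.Z.chk F.P = true ∧ F.chkS = true ∧ F.chkW = true ∧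
    F.chkT = true := by
  unfold Cf.chk at h
  simp only [Bool.and_eq_true] at h
  exact ⟨h.1.1.1, h.1.1.2, h.1.2, h.2⟩

theorem Cf.Base0.hy (hF : F.chk = true) (hS : IsStar S) (W : Wf Δ S L w) (B : F.Base0 S L d) :
    F.Hy S d := by
  obtain ⟨hZ, -, hW, hT⟩ := Cf.chk_iff hF
  have hC := Stars.chk_ck hZ
  unfold Cf.chkT at hT
  simp only [allN_iff, Bool.or_eq_true, Bool.and_eq_true, decide_eq_true_eq] at hT
  unfold Cf.chkW at hW
  rw [allN_iff] at hW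
  have hal : ∀ a < F.Z.nc, F.ac a = true → F.Z.m a = (fl (F.wd a)).length ∧
      ∀ j < F.Z.m a, F.Z.Q.rl (F.Z.off a + j) = (fl (F.wd a)).getD j false := by
    intro a ha hac
    have h1 := hW a ha
    rw [if_pos hac, Bool.and_eq_true, decide_eq_true_eq, allN_iff] at h1
    refine ⟨h1.1, fun j hj => ?_⟩
    have h2 := h1.2 j hj
    rwa [beq_iff_eq] at h2
  have hde : ∀ a < F.Z.nc, F.ac a = false → 0 < a ∧ F.ac (F.Z.pa a) = true ∧
      F.Z.Q.rl (F.Z.off (F.Z.pa a) + F.Z.ja a) = false ∧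
      F.Z.m a = Sd.ubl ((kin ((F.wd (F.Z.pa a)).map sk)).getD (F.Z.ja a) 0) ∧ F.Z.m a ≤ 4 ∧
      ∀ j < F.Z.m a, F.Z.Q.rl (F.Z.off a + j) = false := by
    intro a ha hac
    have h1 := hW a ha
    rw [if_neg (by rw [hac]; decide)] at h1
    simp only [Bool.and_eq_true, decide_eq_true_eq, allN_iff, Bool.not_eq_true'] at h1
    obtain ⟨⟨⟨⟨⟨h1, h2⟩, h3⟩, h4⟩, h5⟩, h6⟩ := h1
    exact ⟨by omega, h2, h3, h4, h5, h6⟩
  have hd : ∀ a < F.Z.nc, 0 < a → d a = S.M.α (S.M.σ^[F.Z.ja a] (d (F.Z.pa a))) := by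
    intro a ha h0
    obtain ⟨⟨g1, g2⟩, g3⟩ := (hT a ha).resolve_left (by omega)
    have hp := hC.palt a ha h0
    have hwp := B.w _ (by omega) g1
    rw [B.t a ha h0]
    congr 1
    rw [nxr_pos hwp g2]
    cases hac : F.ac a
    · rw [hac, if_neg (by decide), decide_eq_true_eq] at g3
      rw [if_neg (by decide), g3, Function.iterate_succ_apply']
    · rw [hac, if_pos rfl, decide_eq_true_eq] at g3
      rw [if_pos rfl, g3]
  have hvA : ∀ a < F.Z.nc, F.ac a = true → S.M.v (d a) ∈ S.A := fun a ha hac =>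
    W.real_A _ (B.w a ha hac).re
  -- the spoke of the parent which leads to a dead centre
  have hsp : ∀ a < F.Z.nc, F.ac a = false → ∃ t, S.real t = false ∧ S.M.v t ∈ S.A ∧
      d a = S.M.α t ∧ S.csz t = F.Z.m a := by
    intro a ha hac
    obtain ⟨h1, h2, h3, h4, h5, _⟩ := hde a ha hac
    have hp := hC.palt a ha h1
    have hj := hC.jalt a ha h1
    have hpn : F.Z.pa a < F.Z.nc := by omega
    obtain ⟨g1, g2⟩ := hal _ hpn h2
    have hI := B.w _ hpn h2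
    have hj' : F.Z.ja a < (fl (F.wd (F.Z.pa a))).length := by rw [← g1]; exact hj
    have hr : S.real (S.M.σ^[F.Z.ja a] (d (F.Z.pa a))) = false := by
      rw [hI.real hS W hj', ← g2 _ hj]; exact h3
    refine ⟨_, hr, ?_, hd a ha h1, ?_⟩
    · rw [S.M.v_iter']; exact hvA _ hpn h2
    · have h6 := (hI.csz hS W hj' hr).1
      rw [h4]
      exact h6.ub (by rw [← h4]; exact h5)
  refine ⟨hC, hd, fun a ha => ?_, fun a ha j hj h0 => ?_, fun a ha j hj => ?_, fun a ha => ?_,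
    fun a ha => ?_⟩
  · cases hac : F.ac a
    · obtain ⟨t, t1, t2, t3, t4⟩ := hsp a ha hac
      rw [t3, ← t4]
      exact hS.csz_iter W t1 t2
    · rw [(hal a ha hac).1]
      exact (B.w a ha hac).per hS W
  · cases hac : F.ac a
    · obtain ⟨t, t1, t2, t3, t4⟩ := hsp a ha hac
      rw [t3]
      exact hS.csz_iter_ne W t1 t2 h0 (by rw [t4]; exact hj)
    · rw [(hal a ha hac).1] at hj
      exact (B.w a ha hac).ne hS W h0 hj
  · cases hac : F.ac a
    · obtain ⟨t, t1, t2, t3, t4⟩ := hsp a ha hac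
      rw [(hde a ha hac).2.2.2.2.2 j hj, t3]
      apply W.nou.vdead
      rw [nou_M, S.M.v_iter']
      exact hS.vhead W t2 t1
    · obtain ⟨g1, g2⟩ := hal a ha hac
      rw [g2 j hj]
      exact (B.w a ha hac).real hS W (by rw [← g1]; exact hj)
  · cases hac : F.ac a
    · obtain ⟨t, t1, t2, t3, t4⟩ := hsp a ha hac
      rw [t3]
      constructor
      · intro h; exact absurd h (hS.vhead W t2 t1)
      · intro h; exact absurd h (by decide)
    · exact ⟨fun _ => rfl, fun _ => hvA a ha hac⟩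
  · cases hac : F.ac a
    · obtain ⟨t, t1, t2, t3, t4⟩ := hsp a ha hac
      rw [t3, ← hS.csz_virt W t1 t2, t4]
    · rw [(hal a ha hac).1, (B.w a ha hac).nd hS W]

theorem Cf.Base.hy (hF : F.chk = true) (hS : IsStar S) (W : Wf Δ S L w) (B : F.Base S L d) :
    F.Hy S d := B.toBase0.hy hF hS W

namespace Cf.Hy

variable (H : F.Hy S d)

include H

theorem ioρ {j : ℕ} (hj : j < F.Z.Q.ns) : S.M.σ (F.Z.io S d j) = F.Z.io S d (F.Z.Q.ρ j) :=
  Stars.io_ρ H.hC H.hm hj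

theorem ioπ {j : ℕ} (hj : j < F.Z.Q.ns) (h : F.Z.Q.π j ≠ j) :
    S.M.α (F.Z.io S d j) = F.Z.io S d (F.Z.Q.π j) :=
  Stars.io_π H.hC H.hd H.hm j hj h

theorem rlj {j : ℕ} (hj : j < F.Z.Q.ns) : S.real (F.Z.io S d j) = F.Z.Q.rl j := by
  have a1 := H.hC.lo j hj
  have a2 := H.hC.hi j hj
  have a3 := H.hrl _ (H.hC.calt j hj) (j - F.Z.off (F.Z.ca j)) (by omega)
  rw [show F.Z.off (F.Z.ca j) + (j - F.Z.off (F.Z.ca j)) = j by omega] at a3
  exact a3

theorem inj1 {j j' : ℕ} (hj : j < F.Z.Q.ns) (hj' : j' < F.Z.Q.ns) (hc : F.Z.ca j = F.Z.ca j')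
    (e : F.Z.io S d j = F.Z.io S d j') : j = j' := by
  have key : ∀ j < F.Z.Q.ns, ∀ j' < F.Z.Q.ns, j < j' → F.Z.ca j = F.Z.ca j' →
      F.Z.io S d j ≠ F.Z.io S d j' := by
    intro j hj j' hj' hlt hc e
    have h1 := H.hC.lo j hj
    have h1' := H.hC.lo j' hj'
    have h2 := H.hC.hi j' hj'
    have ha := H.hC.calt j' hj'
    unfold Stars.io at e
    rw [hc] at e h1
    have e0 : j' - F.Z.off (F.Z.ca j') = (j - F.Z.off (F.Z.ca j')) + (j' - j) := by omega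
    rw [e0, Function.iterate_add_apply] at e
    have e1 := Function.Injective.iterate S.M.σinj _ e
    exact H.hm' _ ha (j' - j) (by omega) (by omega) e1.symm
  rcases Nat.lt_trichotomy j j' with h | h | h
  · exact absurd e (key j hj j' hj' h hc)
  · exact h
  · exact absurd e.symm (key j' hj' j hj h hc.symm)

/-- the alternative spoke has the same head -/
theorem al_eq {j : ℕ} (hj : j < F.Z.Q.ns)
    (h : F.al j = j ∨ (F.Z.Q.π (F.Z.Q.ρi j) ≠ F.Z.Q.ρi j ∧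
        F.al j = F.Z.Q.ρi (F.Z.Q.π (F.Z.Q.ρi j))) ∨
      (F.Z.Q.π (F.Z.Q.ρ j) ≠ F.Z.Q.ρ j ∧ F.al j = F.Z.Q.ρ (F.Z.Q.π (F.Z.Q.ρ j)))) :
    S.M.v (S.M.α (F.Z.io S d (F.al j))) = S.M.v (S.M.α (F.Z.io S d j)) := by
  have hC := H.hC.Q
  rcases h with h | ⟨h1, h2⟩ | ⟨h1, h2⟩
  · rw [h]
  · have hp := hC.ρilt j hj
    have hq := hC.πlt _ hp
    have hr := hC.ρilt _ hq
    have e1 := H.ioρ hp
    rw [hC.ρρi j hj] at e1
    have e2 := H.ioπ hp h1
    have e3 := H.ioρ hr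
    rw [hC.ρρi _ hq, ← e2] at e3
    rw [h2]
    have e4 : S.M.α (F.Z.io S d (F.Z.Q.ρi (F.Z.Q.π (F.Z.Q.ρi j)))) =
        S.M.φ (S.M.φ (S.M.α (F.Z.io S d (F.Z.Q.ρi j)))) := by
      rw [← e3]
      exact (S.M.φ3 _).symm
    rw [e4, ← e1, S.M.vφ]
    rfl
  · have hp := hC.ρlt j hj
    have hq := hC.πlt _ hp
    have e1 := H.ioρ hj
    have e2 := H.ioπ hp h1
    have e3 := H.ioρ hq
    rw [h2, ← e3, ← e2]
    have e4 : S.M.α (F.Z.io S d j) = S.M.φ (S.M.φ (F.Z.io S d (F.Z.Q.ρ j))) := by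
      rw [← e1]
      exact (S.M.φ3 _).symm
    rw [e4]
    show S.M.v (S.M.α (S.M.φ (S.M.α (S.M.α _)))) = _
    rw [S.M.αα, ← S.M.vφ]

theorem cs_v {b : ℕ} (h : F.csok b = true) :
    S.M.v (S.M.α (F.Z.io S d (F.cs b))) = S.M.v (d b) := by
  unfold Cf.csok at h
  simp only [Bool.and_eq_true, decide_eq_true_eq] at h
  rw [H.ioπ h.1.1.1 h.1.1.2, F.Z.v_io, h.1.2]

end Cf.Hy

/-- the heads of real spokes at alive centres are alive, the heads of virtual spokes are dead -/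
theorem Cf.Base0.head (hF : F.chk = true) (hS : IsStar S) (W : Wf Δ S L w) (B : F.Base0 S L d)
    {j : ℕ} (hj : j < F.Z.Q.ns) (hac : F.ac (F.Z.ca j) = true) :
    S.M.v (S.M.α (F.Z.io S d j)) ∈ S.A ↔ F.Z.Q.rl j = true := by
  have H := B.hy hF hS W
  have h2 := (H.hac _ (H.hC.calt j hj)).2 hac
  rw [← F.Z.v_io S d j] at h2
  constructor
  · intro h3
    by_contra h4
    exact hS.vhead W h2 (by rw [H.rlj hj]; simpa using h4) h3
  · intro h3
    exact W.real_A _ (by rw [W.real_α, H.rlj hj, h3])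

section main

variable (hF : F.chk = true) (hS : IsStar S) (W : Wf Δ S L w) (B : F.Base S L d)

include hF hS W B

theorem Cf.Base.head {j : ℕ} (hj : j < F.Z.Q.ns) (hac : F.ac (F.Z.ca j) = true) :
    S.M.v (S.M.α (F.Z.io S d j)) ∈ S.A ↔ F.Z.Q.rl j = true := B.toBase0.head hF hS W hj hac

/-- surely different heads are different -/
theorem Cf.Base.sd_ne {j j' : ℕ} (h : F.sd j j' = true) :
    S.M.v (S.M.α (F.Z.io S d j)) ≠ S.M.v (S.M.α (F.Z.io S d j')) := by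
  unfold Cf.sd at h
  simp only [Bool.and_eq_true, Bool.or_eq_true, decide_eq_true_eq, bne_iff_ne] at h
  obtain ⟨⟨⟨⟨h1, h2⟩, h3⟩, h4⟩, h5⟩ := h
  rcases h5 with h5 | h5
  · intro he
    apply h5
    rw [Bool.eq_iff_iff, ← B.head hF hS W h1 h3, ← B.head hF hS W h2 h4, he]
  · exact B.sd j h1 j' h2 h3 h4 h5

theorem Cf.Base.hv {a b : ℕ} (ha : a < F.Z.nc) (hb : b < F.Z.nc)
    (he : S.M.v (d a) = S.M.v (d b)) : a = b := by
  have H := B.hy hF hS W
  have h := (Cf.chk_iff hF).2.1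
  unfold Cf.chkS at h
  rw [Bool.and_eq_true, allN_iff] at h
  have h4 := h.1 a ha
  rw [allN_iff] at h4
  have h5 := h4 b hb
  simp only [Bool.and_eq_true, Bool.or_eq_true, decide_eq_true_eq, bne_iff_ne] at h5
  rcases h5.2 with ((h6 | h6) | h6) | h6
  · exact h6
  · exfalso
    apply h6
    rw [Bool.eq_iff_iff, ← H.hac a ha, ← H.hac b hb, he]
  · exfalso
    obtain ⟨⟨⟨⟨⟨⟨c1, c2⟩, c3⟩, c4⟩, c5⟩, c6⟩, c7⟩ := h5.1.resolve_left h6
    have e1 := H.ioπ c3 c6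
    have e2 := W.real_ne _ (by rw [H.rlj c3]; exact c7 : S.real (F.Z.io S d (F.ad a b - 1)) = true)
    rw [e1, F.Z.v_io, F.Z.v_io, c4, c5] at e2
    exact e2 he
  · exfalso
    apply B.sd_ne hF hS W h6.2
    rw [H.cs_v h6.1.1, H.cs_v h6.1.2, he]

theorem Cf.Base.hh {j : ℕ} (hj : j < F.Z.Q.ns) (hπ : F.Z.Q.π j = j) {b : ℕ}
    (hb : b < F.Z.nc) : S.M.v (S.M.α (F.Z.io S d j)) ≠ S.M.v (d b) := by
  have H := B.hy hF hS W
  intro he
  have h := (Cf.chk_iff hF).2.1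
  unfold Cf.chkS at h
  rw [Bool.and_eq_true, allN_iff, allN_iff] at h
  have h4 := h.2 j hj
  simp only [Bool.and_eq_true, Bool.or_eq_true, decide_eq_true_eq, allN_iff, bne_iff_ne] at h4
  obtain ⟨⟨⟨c1, c2⟩, c3⟩, c4⟩ := h4.resolve_left (fun h => h hπ)
  have c3' : F.al j = j ∨ (F.Z.Q.π (F.Z.Q.ρi j) ≠ F.Z.Q.ρi j ∧
        F.al j = F.Z.Q.ρi (F.Z.Q.π (F.Z.Q.ρi j))) ∨
      (F.Z.Q.π (F.Z.Q.ρ j) ≠ F.Z.Q.ρ j ∧ F.al j = F.Z.Q.ρ (F.Z.Q.π (F.Z.Q.ρ j))) := by
    rcases c3 with (c3 | c3) | c3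
    · exact Or.inl c3
    · exact Or.inr (Or.inl c3)
    · exact Or.inr (Or.inr c3)
  have hale := H.al_eq hj c3'
  have hal : S.M.v (S.M.α (F.Z.io S d j)) ∈ S.A ↔ F.hal j = true := by
    unfold Cf.hal
    by_cases h1 : F.ac (F.Z.ca j) = true
    · rw [if_pos h1]
      exact B.head hF hS W hj h1
    · rw [if_neg h1]
      have h2 : S.M.v (F.Z.io S d j) ∉ S.A := by
        rw [F.Z.v_io, H.hac _ (H.hC.calt j hj)]
        exact h1
      exact ⟨fun _ => rfl, fun _ => hS.alivev W h2⟩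
  rcases c4 b hb with (h1 | ⟨h1, h2⟩) | ⟨h1, h2⟩
  · apply h1
    rw [Bool.eq_iff_iff, ← hal, he, H.hac b hb]
  · rw [← hale] at he
    have h3 := W.real_ne _ (by rw [H.rlj c1]; exact h2 : S.real (F.Z.io S d (F.al j)) = true)
    apply h3
    rw [he, F.Z.v_io, h1]
  · apply B.sd_ne hF hS W h2
    rw [H.cs_v h1, hale, he]

/-- the embedding of the patch -/
theorem Cf.Base.emb : ∃ (f : ℕ → D) (g : ℕ → V), Em F.P S f g ∧
    (∀ j < F.Z.Q.ns, ∀ k < 3, f (F.Z.Q.nf k j) = nmS S (F.Z.io S d) k j) ∧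
    (∀ i < F.P.n, F.Z.Q.cx (F.P.l i) = true → ∀ e, S.M.v e = g (F.P.l i) →
      ∃ i' < F.P.n, f i' = e) ∧
    (∀ i < F.P.n, F.Z.Q.cx (F.P.l i) = true → ∀ i' < F.P.n, F.P.l i' ≠ F.P.l i →
      g (F.P.l i') ≠ g (F.P.l i)) ∧
    (∀ a < F.Z.nc, g (F.P.l (F.Z.Q.nf 0 (F.Z.off a))) = S.M.v (d a)) ∧
    (∀ j < F.Z.Q.ns, g (F.P.l (F.Z.Q.nf 1 j)) = S.M.v (S.M.α (F.Z.io S d j))) := by
  have H := B.hy hF hS W
  obtain ⟨hZ, -, -, -⟩ := Cf.chk_iff hF
  have hC := H.hC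
  obtain ⟨f, g, hE, hf, hst, hdl, hg0, hg1⟩ := em_of_stars hS W.real_α F.Z hZ d H.hd H.hm H.hm' H.hrl
    (fun a ha b hb e => B.hv hF hS W ha hb e) (fun a ha j hj hπ b hb => by
      have h1 := hC.offm a ha
      have h2 := B.hh hF hS W (show F.Z.off a + j < F.Z.Q.ns by omega) hπ hb
      rwa [Stars.io_off hC S d ha hj] at h2)
  refine ⟨f, g, hE, fun j hj k hk => ?_, hst, hdl, hg0, fun j hj => ?_⟩
  · have q1 := hC.lo j hj
    have q2 := hC.hi j hj
    have q3 := hC.calt j hj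
    have := hf _ q3 (j - F.Z.off (F.Z.ca j)) (by omega)
    rw [show F.Z.off (F.Z.ca j) + (j - F.Z.off (F.Z.ca j)) = j by omega] at this
    obtain ⟨r1, r2, r3⟩ := this
    unfold nmS
    rcases (show k = 0 ∨ k = 1 ∨ k = 2 by omega) with rfl | rfl | rfl
    · rw [if_pos rfl, r1]; rfl
    · rw [if_neg (by norm_num), if_pos rfl, r2]; rfl
    · rw [if_neg (by norm_num), if_neg (by norm_num), r3]; rfl
  · have q1 := hC.lo j hj
    have q2 := hC.hi j hj
    have q3 := hC.calt j hj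
    have := hg1 _ q3 (j - F.Z.off (F.Z.ca j)) (by omega)
    rw [show F.Z.off (F.Z.ca j) + (j - F.Z.off (F.Z.ca j)) = j by omega] at this
    exact this

end main

end Pool.FC7
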