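import Pool.Agent.FC7.CfA

/-! # Configurations given by words: the sectors -/

open Finset

set_option linter.unusedSectionVars false

namespace Pool.FC7

open Pool.FC6 Pool.FC6.St

variable {D V : Type} [Fintype D] [DecidableEq V] {Δ : ℕ} {S : St D V} {L : D → Bool}
  {w : D → ℕ} {d : ℕ → D} {e : D} {wd : List ℕ}

theorem pos_zero : pos wd 0 = 0 := by simp [pos, fl, flags]

theorem flags_append (a b : List ℕ) : flags (a ++ b) = flags a ++ flags b := by
  induction a with
  | nil => rfl
  | cons l a ih =>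
    rw [List.cons_append]
    by_cases hl : l = 0
    · subst hl
      rw [flags_zero, flags_zero, ih]; rfl
    · rw [flags_pos hl, flags_pos hl, ih]; rfl

theorem sk_zero {l : ℕ} : sk l = 0 ↔ lK l = 0 := by
  unfold sk
  constructor
  · intro h
    by_contra h1
    rw [if_neg h1] at h
    split_ifs at h
  · intro h
    rw [if_pos h]

theorem pos_succ {i : ℕ} (hi : i < wd.length) :
    pos wd (i + 1) = pos wd i + (if lK (wd.getD i 0) = 0 then 1 else 2) := by
  unfold pos fl
  have e1 : wd.take (i + 1) = wd.take i ++ [wd.getD i 0] := by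
    rw [List.take_add_one, List.getD_eq_getElem _ _ hi, List.getElem?_eq_getElem hi]
    rfl
  rw [e1, List.map_append, flags_append, List.length_append]
  congr 1
  show (flags [sk (wd.getD i 0)]).length = _
  by_cases h : lK (wd.getD i 0) = 0
  · rw [sk_zero.2 h, if_pos h]; rfl
  · rw [flags_pos (fun h1 => h (sk_zero.1 h1)), if_neg h]; rfl

theorem pos_length : pos wd wd.length = (fl wd).length := by
  unfold pos
  rw [List.take_length]

theorem pos_lt {i j : ℕ} (hij : i < j) (hj : j ≤ wd.length) : pos wd i < pos wd j := by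
  induction j with
  | zero => omega
  | succ j ih =>
    rw [pos_succ (by omega)]
    have h2 : 1 ≤ (if lK (wd.getD j 0) = 0 then 1 else 2) := by split_ifs <;> omega
    by_cases h : i < j
    · have := ih h (by omega)
      omega
    · have : i = j := by omega
      subst this
      omega

/-- every position belongs to a sector -/
theorem exists_pos {j : ℕ} (hj : j < (fl wd).length) : ∃ i < wd.length,
    j = pos wd i ∨ (j = pos wd i + 1 ∧ lK (wd.getD i 0) ≠ 0) := by
  have key : ∀ n ≤ wd.length, j < pos wd n → ∃ i < n,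
      j = pos wd i ∨ (j = pos wd i + 1 ∧ lK (wd.getD i 0) ≠ 0) := by
    intro n
    induction n with
    | zero => intro _ h; rw [pos_zero] at h; omega
    | succ n ih =>
      intro hn h
      by_cases h1 : j < pos wd n
      · obtain ⟨i, h2, h3⟩ := ih (by omega) h1
        exact ⟨i, by omega, h3⟩
      · refine ⟨n, by omega, ?_⟩
        rw [pos_succ (by omega)] at h
        by_cases h2 : lK (wd.getD n 0) = 0
        · rw [if_pos h2] at h
          left; omega
        · rw [if_neg h2] at h
          have : j = pos wd n ∨ j = pos wd n + 1 := by omega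
          rcases this with h3 | h3
          · exact Or.inl h3
          · exact Or.inr ⟨h3, h2⟩
  rw [← pos_length] at hj
  exact key _ (le_refl _) hj

variable {F : Cf}

/-- the number of the `i`-th real spoke of the centre `a` -/
def Cf.rs (F : Cf) (a i : ℕ) : ℕ := F.Z.off a + pos (F.wd a) i

/-- the sectors of the alive centre `a`: the spokes, the codes -/
theorem Cf.Base.sector (hF : F.chk = true) (hS : IsStar S) (W : Wf Δ S L w) (B : F.Base S L d)
    {a : ℕ} (ha : a < F.Z.nc) (hac : F.ac a = true) {i : ℕ} (hi : i < (F.wd a).length) :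
    F.rs a i < F.Z.Q.ns ∧ F.Z.ca (F.rs a i) = a ∧ F.Z.io S d (F.rs a i) = S.nxr^[i] (d a) ∧
      IsL S L (F.Z.io S d (F.rs a i)) ((F.wd a).getD i 0) ∧
      F.rs a ((i + 1) % (F.wd a).length) < F.Z.Q.ns ∧
      F.Z.io S d (F.rs a ((i + 1) % (F.wd a).length)) = S.nxr (F.Z.io S d (F.rs a i)) ∧
      (lK ((F.wd a).getD i 0) ≠ 0 → F.rs a i + 1 < F.Z.Q.ns ∧ F.Z.ca (F.rs a i + 1) = a ∧
        F.Z.io S d (F.rs a i + 1) = S.M.σ (F.Z.io S d (F.rs a i)) ∧
        F.Z.Q.rl (F.rs a i + 1) = false) ∧ F.Z.Q.rl (F.rs a i) = true := by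
  have H := B.hy hF hS W
  have hI := B.w a ha hac
  have hW := (Cf.chk_iff hF).2.2.1
  unfold Cf.chkW at hW
  rw [allN_iff] at hW
  have hm := hW a ha
  rw [if_pos hac, Bool.and_eq_true, decide_eq_true_eq, allN_iff] at hm
  have hm := hm.1
  have hoff := H.hC.offm a ha
  have key : ∀ k < (F.wd a).length, F.rs a k < F.Z.Q.ns ∧ F.Z.ca (F.rs a k) = a ∧
      F.Z.io S d (F.rs a k) = S.nxr^[k] (d a) := by
    intro k hk
    have h1 : pos (F.wd a) k < F.Z.m a := by
      rw [hm, ← pos_length]
      exact pos_lt hk (le_refl _)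
    refine ⟨?_, H.hC.cao a ha _ h1, ?_⟩
    · unfold Cf.rs; omega
    · rw [nxr_pos hI (by omega)]
      exact Stars.io_off H.hC S d ha h1
  obtain ⟨k1, k2, k3⟩ := key i hi
  have hl := hI.l i hi
  rw [← k3] at hl
  have hmod : (i + 1) % (F.wd a).length < (F.wd a).length := Nat.mod_lt _ (by omega)
  obtain ⟨l1, -, l3⟩ := key _ hmod
  refine ⟨k1, k2, k3, hl, l1, ?_, fun hk => ?_, ?_⟩
  · rw [l3, k3, ← Function.iterate_succ_apply' S.nxr]
    by_cases h1 : i + 1 < (F.wd a).length
    · rw [Nat.mod_eq_of_lt h1]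
    · have h2 : i + 1 = (F.wd a).length := by omega
      rw [h2, Nat.mod_self, Nat.succ_eq_add_one, h2, hI.len, hS.nxr_rdeg W hI.re]
      rfl
  · have h1 : pos (F.wd a) i + 1 < F.Z.m a := by
      rw [hm, ← pos_length]
      have h2 := pos_succ (wd := F.wd a) hi
      rw [if_neg hk] at h2
      have h3 : pos (F.wd a) (i + 1) ≤ pos (F.wd a) (F.wd a).length := by
        rcases Nat.lt_or_ge (i + 1) (F.wd a).length with h4 | h4
        · exact (pos_lt h4 (le_refl _)).le
        · rw [show i + 1 = (F.wd a).length by omega]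
      omega
    have h2 : F.Z.io S d (F.rs a i + 1) = S.M.σ (F.Z.io S d (F.rs a i)) := by
      have e1 := Stars.io_off H.hC S d ha h1
      have e2 := Stars.io_off H.hC S d ha (show pos (F.wd a) i < F.Z.m a by omega)
      unfold Cf.rs
      rw [Nat.add_assoc, e1, e2, Function.iterate_succ_apply']
    have h3 : F.rs a i + 1 < F.Z.Q.ns := by unfold Cf.rs; omega
    refine ⟨h3, ?_, h2, ?_⟩
    · have := H.hC.cao a ha _ h1
      unfold Cf.rs
      rw [Nat.add_assoc]
      exact this
    · rw [← H.rlj h3, h2]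
      exact (hl.gap hk).1
  · rw [← H.rlj k1, k3]
    exact hS.nxr_iter_real W hI.re i

/-- every spoke of an alive centre belongs to a sector -/
theorem Cf.Base.spoke (hF : F.chk = true) (hS : IsStar S) (W : Wf Δ S L w) (B : F.Base S L d)
    {j : ℕ} (hj : j < F.Z.Q.ns) (hac : F.ac (F.Z.ca j) = true) :
    ∃ i < (F.wd (F.Z.ca j)).length, j = F.rs (F.Z.ca j) i ∨
      (j = F.rs (F.Z.ca j) i + 1 ∧ lK ((F.wd (F.Z.ca j)).getD i 0) ≠ 0) := by
  have H := B.hy hF hS W
  have hW := (Cf.chk_iff hF).2.2.1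
  unfold Cf.chkW at hW
  rw [allN_iff] at hW
  have hm := hW _ (H.hC.calt j hj)
  rw [if_pos hac, Bool.and_eq_true, decide_eq_true_eq, allN_iff] at hm
  have h1 := H.hC.lo j hj
  have h2 := H.hC.hi j hj
  obtain ⟨i, hi, h3⟩ := exists_pos (wd := F.wd (F.Z.ca j)) (j := j - F.Z.off (F.Z.ca j))
    (by rw [← hm.1]; omega)
  refine ⟨i, hi, ?_⟩
  unfold Cf.rs
  rcases h3 with h3 | ⟨h3, h4⟩
  · left; omega
  · right; exact ⟨by omega, h4⟩

end Pool.FC7
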