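import Pool.Agent.FC7.CvE
import Pool.Agent.FC6.Stars

/-! # Facts from words: letters and what they say about the darts of the patch

The letter `a + 4 b + 16 c + 64 k + 256 s + 512 o` describes the sector between the consecutive real
darts `x`, `y` at an alive vertex.  `k = 0`: solid triangle with exactly `a`, `b`, `c` units at the
vertex, at the head of `x`, at the head of `y`; `k = 1`: gap with exactly `a` units at the vertex, face
class `b` (0 nothing known, 1 one or two units, 2 at least three units, 3 no units) and length class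
`c`; `s`: the edge `x` is labelled; `o`: the opposite edge of the solid triangle is labelled.
`k = 0`, `b = c = 3`: the units at the heads are not known; bit 10: the triangle has at least three
units; bit 12: it has no units or at least three; bit 11: the label of the opposite edge is not known.
-/

open Finset

set_option linter.unusedSectionVars false

namespace Pool.FC7

open Pool.FC6 Pool.FC6.St

def wa (l : ℕ) : ℕ := l % 4
def wb (l : ℕ) : ℕ := l / 4 % 4
def wc (l : ℕ) : ℕ := l / 16 % 4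
def wk (l : ℕ) : ℕ := l / 64 % 4
def ws (l : ℕ) : Bool := decide (l / 256 % 2 = 1)
def wo (l : ℕ) : Bool := decide (l / 512 % 2 = 1)

/-- the units at the heads are not known -/
def uo (l : ℕ) : Bool := decide (wb l = 3) && decide (wc l = 3)

/-- no units or at least three units -/
def OZ (n : ℕ) : Prop := n = 0 ∨ 3 ≤ n

/-- additional information of the letter `l` about the number `n` of units of the face; `r`: the sector
is a solid triangle -/
def Oo (n : ℕ) (r : Bool) (l : ℕ) : Prop :=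
  (r = false → wk l = 2 → OZ n) ∧ (r = true → uo l = true →
    (l.testBit 10 = true → 3 ≤ n) ∧ (l.testBit 12 = true → OZ n))

/-- the number `n` of units of a face has the class `b` -/
def FB (n b : ℕ) : Prop := (b = 1 → 1 ≤ n ∧ n ≤ 2) ∧ (b = 2 → 3 ≤ n) ∧ (b = 3 → n = 0)

variable {D V : Type} [Fintype D] [DecidableEq V] {Δ N R e : ℕ} {S : St D V} {L : D → Bool}
  {w : D → ℕ}

/-- what is known about the spokes; `ac a`: the centre `a` is alive, otherwise it is the hub of a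
gap; `lt j` = the letter of the sector after the real spoke `j`, or of the gap at a dead centre -/
structure Info (Z : Stars) (ac : ℕ → Bool) (S : St D V) (L : D → Bool) (d : ℕ → D)
    (lt : ℕ → ℕ) : Prop where
  rl : ∀ j < Z.Q.ns, S.real (Z.io S d j) = Z.Q.rl j
  al : ∀ j < Z.Q.ns, ac (Z.ca j) = true → S.M.v (Z.io S d j) ∈ S.A
  de : ∀ j < Z.Q.ns, ac (Z.ca j) = false → Z.Q.rl j = false ∧
    FB (fu S (Z.io S d j)) (wb (lt j))
  lab : ∀ j < Z.Q.ns, Z.Q.rl j = true → L (Z.io S d j) = ws (lt j)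
  sol : ∀ j < Z.Q.ns, Z.Q.rl j = true → Z.Q.rl (Z.Q.ρ j) = true →
    S.u (Z.io S d (Z.Q.ρ j)) = wa (lt j) ∧ (uo (lt j) = false →
      S.u (S.M.α (Z.io S d j)) = wb (lt j) ∧ S.u (S.M.φ (Z.io S d (Z.Q.ρ j))) = wc (lt j)) ∧
      ((lt j).testBit 11 = false → L (S.M.φ (Z.io S d (Z.Q.ρ j))) = wo (lt j))
  gap : ∀ j < Z.Q.ns, Z.Q.rl j = true → Z.Q.rl (Z.Q.ρ j) = false →
    S.u (Z.io S d (Z.Q.ρ (Z.Q.ρ j))) = wa (lt j) ∧ FB (fu S (Z.io S d (Z.Q.ρ j))) (wb (lt j))

open Classical in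
/-- the face of a solid triangle -/
theorem rds_solid (hS : IsStar S) {x : D} (h1 : S.real x = true) (h2 : S.real (S.M.φ x) = true) :
    rds S x = {x, S.M.φ x, S.M.φ (S.M.φ x)} := by
  have h3 := hS.two x h1 h2
  have n1 : x ≠ S.M.φ x := (S.M.φne x).symm
  have n2 : S.M.φ x ≠ S.M.φ (S.M.φ x) := (S.M.φne _).symm
  have n3 : x ≠ S.M.φ (S.M.φ x) := (S.M.φφne x).symm
  symm
  refine Finset.eq_of_subset_of_card_le (fun y hy => ?_) ?_
  · rw [Finset.mem_insert, Finset.mem_insert, Finset.mem_singleton] at hy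
    rw [mem_rds]
    rcases hy with rfl | rfl | rfl
    · exact ⟨h1, S.sc.iseqv.refl _⟩
    · exact ⟨h2, (scφ x x).2 (S.sc.iseqv.refl _)⟩
    · exact ⟨h3, (scφ x _).2 ((scφ x x).2 (S.sc.iseqv.refl _))⟩
  · rw [← csz_eq, (hS.pl3 x h1).1 h2, Finset.card_eq_three.2 ⟨_, _, _, n1, n3, n2, rfl⟩]

/-- the units of a solid triangle -/
theorem fu_solid (hS : IsStar S) {x : D} (h1 : S.real x = true)
    (h2 : S.real (S.M.φ x) = true) : fu S x = S.u x + S.u (S.M.φ x) + S.u (S.M.φ (S.M.φ x)) := by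
  classical
  have h3 := rds_solid hS h1 h2
  have n1 : x ≠ S.M.φ x := (S.M.φne x).symm
  have n2 : S.M.φ x ≠ S.M.φ (S.M.φ x) := (S.M.φne _).symm
  have n3 : x ≠ S.M.φ (S.M.φ x) := (S.M.φφne x).symm
  have e1 : fu S x = ∑ y ∈ rds S x, S.u y := by
    unfold fu rds
    rw [Finset.sum_filter]
    refine Finset.sum_congr rfl fun y _ => ?_
    by_cases hy : S.sc.r x y
    · rw [if_pos hy]
      by_cases hr : S.real y = true
      · rw [if_pos ⟨hr, hy⟩]
      · rw [if_neg (fun h => hr h.1)]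
        by_contra hu
        exact hr (hS.ur y hu)
    · rw [if_neg hy, if_neg (fun h => hy h.2)]
  rw [e1, h3, Finset.sum_insert, Finset.sum_pair n2, Nat.add_assoc]
  rw [Finset.mem_insert, Finset.mem_singleton]
  push Not
  exact ⟨n1, n3⟩

theorem ule_fu {d e : D} (h : S.sc.r d e) : S.u e ≤ fu S d := by
  classical
  unfold fu
  have := Finset.single_le_sum (f := fun x => if S.sc.r d x then S.u x else 0)
    (fun _ _ => Nat.zero_le _) (Finset.mem_univ e)
  simp only [if_pos h] at this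
  exact this

theorem fu_posx {d : D} (h : 1 ≤ fu S d) : ∃ x, S.sc.r d x ∧ S.u x ≠ 0 := by
  classical
  by_contra hno
  push Not at hno
  unfold fu at h
  rw [Finset.sum_eq_zero] at h
  · omega
  · intro x _
    by_cases hs : S.sc.r d x
    · rw [if_pos hs]; exact hno x hs
    · rw [if_neg hs]

theorem fu_φ (d : D) : fu S (S.M.φ d) = fu S d :=
  fu_congr ((scφ d d).2 (S.sc.iseqv.refl _)) |>.symm

theorem fu_α {d : D} (h : S.real d = false) : fu S (S.M.α d) = fu S d :=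
  fu_congr ((scα h d).2 (S.sc.iseqv.refl _)) |>.symm

/-! ### The darts of the patch -/

/-- tables: spokes and the letters after the real spokes; alive centres (the dead centres are hubs) -/
structure Wt where
  Z : Stars
  lt : ℕ → ℕ
  ac : ℕ → Bool := fun _ => true

namespace Wt

variable (W : Wt)

/-- the last real spoke before the spoke `j` -/
def prv (j : ℕ) : ℕ :=
  if W.Z.Q.rl (W.Z.Q.ρi j) then W.Z.Q.ρi j else W.Z.Q.ρi (W.Z.Q.ρi j)

/-- the sector after (`k = 1`) or before the spoke `j` is a solid triangle -/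
def sol (k j : ℕ) : Bool :=
  W.Z.Q.rl j && (if k = 1 then W.Z.Q.rl (W.Z.Q.ρ j) else W.Z.Q.rl (W.Z.Q.ρi j))

/-- the letter of this sector -/
def fl (k j : ℕ) : ℕ :=
  if W.ac (W.Z.ca j) = false then W.lt j
  else if k = 1 then (if W.Z.Q.rl j then W.lt j else W.lt (W.Z.Q.ρi j)) else W.lt (W.prv j)

/-- the real spoke `j` leads to the fourth corner of a closed gap: the other three corners of the gap
after `j` are centres, the hub is a dead centre -/
def clk (j : ℕ) : Bool :=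
  W.Z.Q.rl j && !W.Z.Q.rl (W.Z.Q.ρ j) && decide (W.Z.Q.π (W.Z.Q.ρ j) ≠ W.Z.Q.ρ j) &&
  !W.ac (W.Z.ca (W.Z.Q.π (W.Z.Q.ρ j))) && decide (W.Z.m (W.Z.ca (W.Z.Q.π (W.Z.Q.ρ j))) = 4) &&
  decide (W.Z.Q.π (W.Z.Q.ρi (W.Z.Q.π (W.Z.Q.ρ j))) ≠ W.Z.Q.ρi (W.Z.Q.π (W.Z.Q.ρ j))) &&
  decide (W.Z.Q.π (W.Z.Q.ρi (W.Z.Q.ρi (W.Z.Q.π (W.Z.Q.ρ j)))) ≠
    W.Z.Q.ρi (W.Z.Q.ρi (W.Z.Q.π (W.Z.Q.ρ j))))

/-- the units at the corner with the paired spoke `t` of a hub -/
def cwa (t : ℕ) : ℕ := wa (W.lt (W.Z.Q.ρi (W.Z.Q.π t)))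

/-- the units at the fourth corner of a closed gap -/
def cun (j : ℕ) : ℕ :=
  (if wb (W.lt j) = 2 then 3 else if wb (W.lt j) = 1 then 2 else 0) -
    (W.cwa (W.Z.Q.π (W.Z.Q.ρ j)) + W.cwa (W.Z.Q.ρi (W.Z.Q.π (W.Z.Q.ρ j))) +
      W.cwa (W.Z.Q.ρi (W.Z.Q.ρi (W.Z.Q.π (W.Z.Q.ρ j)))))

/-- the units of the dart are known -/
def kn (k j : ℕ) : Bool :=
  if k = 1 then !W.Z.Q.rl j || (if W.Z.Q.rl (W.Z.Q.ρ j) then !uo (W.lt j)
    else (decide (wb (W.lt j) = 3) || (W.clk j && decide (wb (W.lt j) ≠ 0))))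
  else decide (k ≠ 2) || !(W.Z.Q.rl j && W.Z.Q.rl (W.Z.Q.ρi j) && uo (W.lt (W.Z.Q.ρi j)))

/-- the units of the dart -/
def un (k j : ℕ) : ℕ :=
  if k = 0 then (if W.Z.Q.rl j then wa (W.lt (W.prv j)) else 0)
  else if k = 1 then (if W.Z.Q.rl j && W.Z.Q.rl (W.Z.Q.ρ j) then wb (W.lt j)
    else if W.clk j && decide (wb (W.lt j) ≠ 3) then W.cun j else 0)
  else (if W.Z.Q.rl j && W.Z.Q.rl (W.Z.Q.ρi j) then wc (W.lt (W.Z.Q.ρi j)) else 0)

/-- the label of the dart is not known -/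
def lun (k j : ℕ) : Bool :=
  decide (2 ≤ k) && W.Z.Q.rl j && W.Z.Q.rl (W.Z.Q.ρi j) && (W.lt (W.Z.Q.ρi j)).testBit 11

/-- the dart is labelled -/
def lb (k j : ℕ) : Bool :=
  if k ≤ 1 then W.Z.Q.rl j && ws (W.lt j)
  else W.Z.Q.rl j && W.Z.Q.rl (W.Z.Q.ρi j) && wo (W.lt (W.Z.Q.ρi j))

/-- the class of the face of the dart -/
def fc (k j : ℕ) : ℕ :=
  if W.sol k j then (if uo (W.fl k j) then (if (W.fl k j).testBit 10 then 2 else 0)
    else if wa (W.fl k j) + wb (W.fl k j) + wc (W.fl k j) = 0 then 3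
    else if wa (W.fl k j) + wb (W.fl k j) + wc (W.fl k j) ≤ 2 then 1 else 2)
  else wb (W.fl k j)

/-- the face of the dart has no units or at least three units -/
def oc (k j : ℕ) : Bool :=
  if W.sol k j then uo (W.fl k j) && (W.fl k j).testBit 12 else decide (wk (W.fl k j) = 2)

/-- the words have no virtual spokes one after the other; no two unpaired spokes one after the other
and no letters with `k = 2` at a dead centre -/
def ok : Bool :=
  allN W.Z.Q.ns fun j => if W.ac (W.Z.ca j) then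
    W.Z.Q.rl j || (W.Z.Q.rl (W.Z.Q.ρ j) && W.Z.Q.rl (W.Z.Q.ρi j))
  else (decide (W.Z.Q.π j ≠ j) || decide (W.Z.Q.π (W.Z.Q.ρi j) ≠ W.Z.Q.ρi j)) &&
    decide (wk (W.lt j) ≠ 2)

end Wt

theorem scaρ {Z : Stars} {P : Pa} (hC : Z.Ck P) {i : ℕ} (hi : i < Z.Q.ns) :
    Z.ca (Z.Q.ρ i) = Z.ca i := by
  have q1 := hC.lo i hi
  have q2 := hC.hi i hi
  have q3 := hC.calt i hi
  rw [hC.ρj i hi]
  split_ifs with q4
  · obtain ⟨t, ht⟩ : ∃ t, i = Z.off (Z.ca i) + t := ⟨i - Z.off (Z.ca i), by omega⟩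
    have := hC.cao _ q3 (t + 1) (by omega)
    rw [show i + 1 = Z.off (Z.ca i) + (t + 1) by omega]
    exact this
  · exact hC.cao _ q3 0 (hC.mpos _ q3)

theorem scaρi {Z : Stars} {P : Pa} (hC : Z.Ck P) {i : ℕ} (hi : i < Z.Q.ns) :
    Z.ca (Z.Q.ρi i) = Z.ca i := by
  have h1 := scaρ hC (hC.Q.ρilt i hi)
  rw [hC.Q.ρρi i hi] at h1
  exact h1.symm

section names

variable {W : Wt} {P : Pa} {d : ℕ → D} (hS : IsStar S) (wf : Wf Δ S L w) (hC : W.Z.Ck P)
  (ok : W.ok = true) (hρ : ∀ j < W.Z.Q.ns, S.M.σ (W.Z.io S d j) = W.Z.io S d (W.Z.Q.ρ j))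
  (I : Info W.Z W.ac S L d W.lt)

include hS wf hC ok hρ I

theorem Wt.rl_or {j : ℕ} (hj : j < W.Z.Q.ns) (ha : W.ac (W.Z.ca j) = true)
    (h : W.Z.Q.rl j = false) :
    W.Z.Q.rl (W.Z.Q.ρ j) = true ∧ W.Z.Q.rl (W.Z.Q.ρi j) = true := by
  unfold Wt.ok at ok
  rw [allN_iff] at ok
  have := ok j hj
  rw [if_pos ha, h] at this
  simpa using this

theorem Wt.prv_rl {j : ℕ} (hj : j < W.Z.Q.ns) (ha : W.ac (W.Z.ca j) = true) :
    W.prv j < W.Z.Q.ns ∧ W.Z.Q.rl (W.prv j) = true := by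
  have h1 := hC.Q.ρilt j hj
  have ha' : W.ac (W.Z.ca (W.Z.Q.ρi j)) = true := by rw [scaρi hC hj]; exact ha
  unfold Wt.prv
  split_ifs with h
  · exact ⟨h1, h⟩
  · exact ⟨hC.Q.ρilt _ h1, (Wt.rl_or hS wf hC ok hρ I h1 ha' (by simpa using h)).2⟩

/-- `φ` of a spoke is the reverse of the spoke before -/
theorem Wt.φφ {j : ℕ} (hj : j < W.Z.Q.ns) :
    S.M.φ (S.M.φ (W.Z.io S d j)) = S.M.α (W.Z.io S d (W.Z.Q.ρi j)) := by
  have h1 := hρ _ (hC.Q.ρilt j hj)
  rw [hC.Q.ρρi j hj] at h1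
  rw [← h1]
  show S.M.φ (S.M.φ (S.M.φ _)) = _
  rw [S.M.φ3]

theorem Wt.real_φ {j : ℕ} (hj : j < W.Z.Q.ns) (ha : W.ac (W.Z.ca j) = true) :
    S.real (S.M.φ (W.Z.io S d j)) = (W.Z.Q.rl j && W.Z.Q.rl (W.Z.Q.ρi j)) := by
  have hi := hC.Q.ρilt j hj
  have e1 := Wt.φφ hS wf hC ok hρ I hj
  have r1 := I.rl j hj
  have r2 := I.rl _ hi
  cases h1 : W.Z.Q.rl j
  · rw [h1] at r1
    rcases hS.virt wf r1 with ⟨_, _, a3, _⟩ | ⟨_, a2, _, _⟩
    · exact absurd (I.al j hj ha) a3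
    · rw [a2]; rfl
  · rw [h1] at r1
    cases h2 : W.Z.Q.rl (W.Z.Q.ρi j)
    · by_contra h3
      have h4 := hS.two _ r1 (by simpa using h3)
      rw [e1, wf.real_α, r2, h2] at h4
      exact absurd h4 (by simp)
    · have h4 := hS.two (S.M.φ (S.M.φ (W.Z.io S d j))) (by rw [e1, wf.real_α, r2, h2])
        (by rw [S.M.φ3]; exact r1)
      rw [S.M.φ3] at h4
      exact h4

/-- real spokes are at alive centres -/
theorem Wt.ac_rl {j : ℕ} (hj : j < W.Z.Q.ns) (h : W.Z.Q.rl j = true) :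
    W.ac (W.Z.ca j) = true := by
  by_contra hn
  rw [(I.de j hj (by simpa using hn)).1] at h
  exact absurd h (by decide)

/-- the names with `k = 2` are at alive centres -/
theorem Wt.nm2 {i : ℕ} (hi : i < P.n) (h : W.Z.Q.rk i = 2) :
    W.ac (W.Z.ca (W.Z.Q.rj i)) = true := by
  by_contra hn
  obtain ⟨-, -, h1, h2, -⟩ := hC.Q.k2 i hi h
  unfold Wt.ok at ok
  rw [allN_iff] at ok
  have := ok _ (hC.Q.rjlt i hi)
  rw [if_neg hn, h1, h2] at this
  simp at this

/-- the units of the darts -/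
theorem Wt.u_nm (cu : ∀ j < W.Z.Q.ns, W.clk j = true → (wb (W.lt j) = 1 ∨ wb (W.lt j) = 2) →
      S.u (S.M.α (W.Z.io S d j)) = W.cun j) {k j : ℕ} (hj : j < W.Z.Q.ns) (hk : k < 3)
    (h2a : k = 2 → W.ac (W.Z.ca j) = true) (h : W.kn k j = true) :
    S.u (nmS S (W.Z.io S d) k j) = W.un k j := by
  have hi := hC.Q.ρilt j hj
  have u0 : ∀ x, S.real x = false → S.u x = 0 := by
    intro x hx
    by_contra hu
    rw [hS.ur x hu] at hx
    exact absurd hx (by simp)
  have k3 : k = 0 ∨ k = 1 ∨ k = 2 := by omega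
  rcases k3 with rfl | rfl | rfl
  · show S.u (W.Z.io S d j) = W.un 0 j
    unfold Wt.un
    rw [if_pos rfl]
    cases h1 : W.Z.Q.rl j
    · exact u0 _ (by rw [I.rl j hj, h1])
    · have haj := Wt.ac_rl hS wf hC ok hρ I hj h1
      have haj' : W.ac (W.Z.ca (W.Z.Q.ρi j)) = true := by rw [scaρi hC hj]; exact haj
      rw [if_pos rfl]
      unfold Wt.prv
      by_cases h2 : W.Z.Q.rl (W.Z.Q.ρi j) = true
      · rw [if_pos h2]
        have := (I.sol _ hi h2 (by rw [hC.Q.ρρi j hj]; exact h1)).1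
        rwa [hC.Q.ρρi j hj] at this
      · rw [if_neg h2]
        have h3 := Wt.rl_or hS wf hC ok hρ I hi haj' (by simpa using h2)
        have hii := hC.Q.ρilt _ hi
        have := (I.gap _ hii h3.2 (by rw [hC.Q.ρρi _ hi]; simpa using h2)).1
        rwa [hC.Q.ρρi _ hi, hC.Q.ρρi j hj] at this
  · show S.u (S.M.α (W.Z.io S d j)) = W.un 1 j
    unfold Wt.un
    rw [if_neg (by decide), if_pos rfl]
    cases h1 : W.Z.Q.rl j
    · have hc : W.clk j = false := by
        unfold Wt.clk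
        rw [h1]
        simp
      rw [Bool.false_and, hc]
      exact u0 _ (by rw [wf.real_α, I.rl j hj, h1])
    · rw [Bool.true_and]
      by_cases h2 : W.Z.Q.rl (W.Z.Q.ρ j) = true
      · rw [if_pos h2]
        unfold Wt.kn at h
        have h3 : uo (W.lt j) = false := by
          rw [h1] at h
          simpa [h2] using h
        exact ((I.sol j hj h1 h2).2.1 h3).1
      · rw [if_neg h2]
        have h2' : W.Z.Q.rl (W.Z.Q.ρ j) = false := by simpa using h2
        by_cases h3 : wb (W.lt j) = 3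
        · rw [if_neg (by rw [h3]; simp)]
          have h4 := (I.gap j hj h1 h2').2.2.2 h3
          rw [← hρ j hj] at h4
          have h5 : fu S (S.M.φ (S.M.α (W.Z.io S d j))) = 0 := h4
          rw [fu_φ] at h5
          classical
          unfold fu at h5
          have h6 := (Finset.sum_eq_zero_iff.1 h5) (S.M.α (W.Z.io S d j)) (Finset.mem_univ _)
          rwa [if_pos (S.sc.iseqv.refl _)] at h6
        · unfold Wt.kn at h
          rw [h1, h2', decide_eq_false h3] at h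
          simp only [ne_eq, if_true, Bool.false_eq_true, if_false, Bool.not_true,
            Bool.false_or, Bool.and_eq_true, decide_eq_true_eq] at h
          rw [if_pos (by rw [h.1, decide_eq_true h3]; rfl)]
          refine cu j hj h.1 ?_
          have h5 : wb (W.lt j) < 4 := by unfold wb; omega
          have h6 := h.2
          omega
  · show S.u (S.M.φ (W.Z.io S d j)) = W.un 2 j
    unfold Wt.un
    rw [if_neg (by decide), if_neg (by decide)]
    by_cases h1 : (W.Z.Q.rl j && W.Z.Q.rl (W.Z.Q.ρi j)) = true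
    · rw [if_pos h1]
      have h3 : uo (W.lt (W.Z.Q.ρi j)) = false := by
        unfold Wt.kn at h
        rw [h1] at h
        simpa using h
      rw [Bool.and_eq_true] at h1
      have := ((I.sol _ hi h1.2 (by rw [hC.Q.ρρi j hj]; exact h1.1)).2.1 h3).2
      rwa [hC.Q.ρρi j hj] at this
    · rw [if_neg h1]
      exact u0 _ (by rw [Wt.real_φ hS wf hC ok hρ I hj (h2a rfl)]; simpa using h1)

/-- the labels of the darts -/
theorem Wt.l_nm {k j : ℕ} (hj : j < W.Z.Q.ns) (hk : k < 3)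
    (h2a : k = 2 → W.ac (W.Z.ca j) = true) (h : W.lun k j = false) :
    L (nmS S (W.Z.io S d) k j) = W.lb k j := by
  have hi := hC.Q.ρilt j hj
  have l0 : ∀ x, S.real x = false → L x = false := by
    intro x hx
    by_contra hu
    rw [wf.L_real x (by simpa using hu)] at hx
    exact absurd hx (by simp)
  have k3 : k = 0 ∨ k = 1 ∨ k = 2 := by omega
  have key : L (W.Z.io S d j) = (W.Z.Q.rl j && ws (W.lt j)) := by
    cases h1 : W.Z.Q.rl j
    · exact l0 _ (by rw [I.rl j hj, h1])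
    · exact I.lab j hj h1
  rcases k3 with rfl | rfl | rfl
  · exact key
  · show L (S.M.α (W.Z.io S d j)) = W.lb 1 j
    rw [wf.L_α]
    exact key
  · show L (S.M.φ (W.Z.io S d j)) = W.lb 2 j
    unfold Wt.lb
    rw [if_neg (by decide)]
    by_cases h1 : (W.Z.Q.rl j && W.Z.Q.rl (W.Z.Q.ρi j)) = true
    · have h3 : (W.lt (W.Z.Q.ρi j)).testBit 11 = false := by
        unfold Wt.lun at h
        rw [Bool.and_assoc (decide (2 ≤ 2)), h1] at h
        simpa using h
      rw [h1, Bool.true_and]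
      rw [Bool.and_eq_true] at h1
      have := (I.sol _ hi h1.2 (by rw [hC.Q.ρρi j hj]; exact h1.1)).2.2
        h3
      rwa [hC.Q.ρρi j hj] at this
    · have h2 : (W.Z.Q.rl j && W.Z.Q.rl (W.Z.Q.ρi j)) = false := by simpa using h1
      rw [h2, Bool.false_and]
      exact l0 _ (by rw [Wt.real_φ hS wf hC ok hρ I hj (h2a rfl), h2])

theorem Wt.fc0 (hO : ∀ j < W.Z.Q.ns, W.Z.Q.rl j = true →
      Oo (fu S (W.Z.io S d (W.Z.Q.ρ j))) (W.Z.Q.rl (W.Z.Q.ρ j)) (W.lt j))
    {j : ℕ} (hj : j < W.Z.Q.ns) (ha : W.ac (W.Z.ca j) = true) :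
    FB (fu S (W.Z.io S d j)) (W.fc 0 j) := by
  have hi := hC.Q.ρilt j hj
  have e1 := Wt.φφ hS wf hC ok hρ I hj
  have ha' : W.ac (W.Z.ca (W.Z.Q.ρi j)) = true := by rw [scaρi hC hj]; exact ha
  unfold Wt.fc
  by_cases h1 : (W.Z.Q.rl j && W.Z.Q.rl (W.Z.Q.ρi j)) = true
  · have hs : W.sol 0 j = true := h1
    rw [if_pos hs]
    have hr := Wt.real_φ hS wf hC ok hρ I hj ha
    rw [h1] at hr
    rw [Bool.and_eq_true] at h1
    have hf : W.fl 0 j = W.lt (W.Z.Q.ρi j) := by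
      unfold Wt.fl Wt.prv
      rw [if_neg (by rw [ha]; decide), if_neg (by decide), if_pos h1.2]
    have h2 := I.sol _ hi h1.2 (by rw [hC.Q.ρρi j hj]; exact h1.1)
    rw [hC.Q.ρρi j hj] at h2
    by_cases h5 : uo (W.fl 0 j) = true
    · rw [if_pos h5]
      rw [hf] at h5 ⊢
      have h6 := hO _ hi h1.2
      rw [hC.Q.ρρi j hj] at h6
      split_ifs with h7
      · exact ⟨fun h => absurd h (by decide), fun _ => (h6.2 h1.1 h5).1 h7,
          fun h => absurd h (by decide)⟩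
      · exact ⟨fun h => absurd h (by decide), fun h => absurd h (by decide),
          fun h => absurd h (by decide)⟩
    rw [if_neg h5]
    rw [hf] at h5
    have h6 := h2.2.1 (by simpa using h5)
    rw [fu_solid hS (by rw [I.rl j hj]; exact h1.1) hr, e1, h2.1, h6.1, h6.2, hf]
    split_ifs with h3 h4
    · exact ⟨fun h => absurd h (by decide), fun h => absurd h (by decide), fun _ => by omega⟩
    · exact ⟨fun _ => by omega, fun h => absurd h (by decide), fun h => absurd h (by decide)⟩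
    · exact ⟨fun h => absurd h (by decide), fun _ => by omega, fun h => absurd h (by decide)⟩
  · have hs : ¬ W.sol 0 j = true := h1
    rw [if_neg hs]
    have hf : W.fl 0 j = W.lt (W.prv j) := by
      unfold Wt.fl
      rw [if_neg (by rw [ha]; decide), if_neg (by decide)]
    rw [hf]
    cases h2 : W.Z.Q.rl j
    · have h3 := (Wt.rl_or hS wf hC ok hρ I hj ha h2).2
      have h4 : W.prv j = W.Z.Q.ρi j := if_pos h3
      rw [h4]
      have h5 := (I.gap _ hi h3 (by rw [hC.Q.ρρi j hj]; exact h2)).2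
      rwa [hC.Q.ρρi j hj] at h5
    · have h3 : W.Z.Q.rl (W.Z.Q.ρi j) = false := by
        rw [h2] at h1
        simpa using h1
      have h4 : W.prv j = W.Z.Q.ρi (W.Z.Q.ρi j) := if_neg (by rw [h3]; simp)
      rw [h4]
      have hii := hC.Q.ρilt _ hi
      have h5 := (I.gap _ hii (Wt.rl_or hS wf hC ok hρ I hi ha' h3).2
        (by rw [hC.Q.ρρi _ hi]; exact h3)).2
      rw [hC.Q.ρρi _ hi] at h5
      rw [← fu_φ, ← fu_φ, e1, fu_α (by rw [I.rl _ hi, h3])]
      exact h5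

/-- the classes of the faces of the darts -/
theorem Wt.f_nm (hO : ∀ j < W.Z.Q.ns, W.Z.Q.rl j = true →
      Oo (fu S (W.Z.io S d (W.Z.Q.ρ j))) (W.Z.Q.rl (W.Z.Q.ρ j)) (W.lt j))
    {k j : ℕ} (hj : j < W.Z.Q.ns) (hk : k < 3) :
    FB (fu S (nmS S (W.Z.io S d) k j)) (W.fc k j) := by
  have k3 : k = 0 ∨ k = 1 ∨ k = 2 := by omega
  by_cases ha : W.ac (W.Z.ca j) = true
  · rcases k3 with rfl | rfl | rfl
    · exact Wt.fc0 hS wf hC ok hρ I hO hj ha
    · have h1 := Wt.fc0 hS wf hC ok hρ I hO (hC.Q.ρlt j hj) (by rw [scaρ hC hj]; exact ha)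
      rw [← hρ j hj] at h1
      have h2 : fu S (S.M.σ (W.Z.io S d j)) = fu S (S.M.α (W.Z.io S d j)) := fu_φ _
      rw [h2] at h1
      have e1 : W.fc 0 (W.Z.Q.ρ j) = W.fc 1 j := by
        unfold Wt.fc Wt.sol Wt.fl Wt.prv
        rw [scaρ hC hj, if_neg (by decide : ¬ (0 : ℕ) = 1), if_neg (by decide : ¬ (0 : ℕ) = 1),
          if_neg (by rw [ha]; decide : ¬ W.ac (W.Z.ca j) = false),
          if_neg (by rw [ha]; decide : ¬ W.ac (W.Z.ca j) = false), if_pos rfl,
          if_pos rfl, hC.Q.ρiρ j hj, Bool.and_comm]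
        by_cases h3 : W.Z.Q.rl j = true
        · rw [if_pos h3, if_pos h3]
        · rw [if_neg h3, if_neg h3]
      rw [e1] at h1
      exact h1
    · show FB (fu S (S.M.φ (W.Z.io S d j))) (W.fc 2 j)
      rw [fu_φ]
      have h1 := Wt.fc0 hS wf hC ok hρ I hO hj ha
      have e1 : W.fc 0 j = W.fc 2 j := by
        unfold Wt.fc Wt.sol Wt.fl
        rw [if_neg (by decide : ¬ (0 : ℕ) = 1), if_neg (by decide : ¬ (0 : ℕ) = 1),
          if_neg (by decide : ¬ (2 : ℕ) = 1), if_neg (by decide : ¬ (2 : ℕ) = 1)]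
      rw [← e1]
      exact h1
  · have ha' : W.ac (W.Z.ca j) = false := by simpa using ha
    obtain ⟨r1, r2⟩ := I.de j hj ha'
    have e0 : W.fc k j = wb (W.lt j) := by
      unfold Wt.fc Wt.sol Wt.fl
      rw [r1, if_neg (by rw [Bool.false_and]; decide), if_pos ha']
    rw [e0]
    rcases k3 with rfl | rfl | rfl
    · exact r2
    · show FB (fu S (S.M.α (W.Z.io S d j))) _
      rw [fu_α (by rw [I.rl j hj, r1])]
      exact r2
    · show FB (fu S (S.M.φ (W.Z.io S d j))) _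
      rw [fu_φ]
      exact r2

/-- the units at the vertex are units of the face -/
theorem Wt.fa0 {j : ℕ} (hj : j < W.Z.Q.ns) (ha : W.ac (W.Z.ca j) = true) :
    wa (W.fl 0 j) ≤ fu S (W.Z.io S d j) := by
  have hi := hC.Q.ρilt j hj
  have ha' : W.ac (W.Z.ca (W.Z.Q.ρi j)) = true := by rw [scaρi hC hj]; exact ha
  have hf : W.fl 0 j = W.lt (W.prv j) := by
    unfold Wt.fl
    rw [if_neg (by rw [ha]; decide), if_neg (by decide)]
  rw [hf]
  cases h2 : W.Z.Q.rl j
  · have h3 := (Wt.rl_or hS wf hC ok hρ I hj ha h2).2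
    have h4 : W.prv j = W.Z.Q.ρi j := if_pos h3
    rw [h4]
    have h5 := (I.gap _ hi h3 (by rw [hC.Q.ρρi j hj]; exact h2)).1
    rw [hC.Q.ρρi j hj, ← hρ j hj] at h5
    rw [← h5]
    refine ule_fu ?_
    show S.sc.r _ (S.M.φ (S.M.α (W.Z.io S d j)))
    exact (scφ _ _).2 ((scα (by rw [I.rl j hj, h2]) _).2 (S.sc.iseqv.refl _))
  · by_cases h3 : W.Z.Q.rl (W.Z.Q.ρi j) = true
    · have h4 : W.prv j = W.Z.Q.ρi j := if_pos h3
      rw [h4]
      have h5 := (I.sol _ hi h3 (by rw [hC.Q.ρρi j hj]; exact h2)).1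
      rw [hC.Q.ρρi j hj] at h5
      rw [← h5]
      exact ule_fu (S.sc.iseqv.refl _)
    · have h4 : W.prv j = W.Z.Q.ρi (W.Z.Q.ρi j) := if_neg h3
      rw [h4]
      have h3' : W.Z.Q.rl (W.Z.Q.ρi j) = false := by simpa using h3
      have hii := hC.Q.ρilt _ hi
      have h5 := (I.gap _ hii (Wt.rl_or hS wf hC ok hρ I hi ha' h3').2
        (by rw [hC.Q.ρρi _ hi]; exact h3')).1
      rw [hC.Q.ρρi _ hi, hC.Q.ρρi j hj] at h5
      rw [← h5]
      exact ule_fu (S.sc.iseqv.refl _)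

/-- the units at the vertex are units of the face -/
theorem Wt.fa_nm {k j : ℕ} (hj : j < W.Z.Q.ns) (hk : k < 3) (ha : W.ac (W.Z.ca j) = true) :
    wa (W.fl k j) ≤ fu S (nmS S (W.Z.io S d) k j) := by
  have k3 : k = 0 ∨ k = 1 ∨ k = 2 := by omega
  rcases k3 with rfl | rfl | rfl
  · exact Wt.fa0 hS wf hC ok hρ I hj ha
  · have h1 := Wt.fa0 hS wf hC ok hρ I (hC.Q.ρlt j hj) (by rw [scaρ hC hj]; exact ha)
    rw [← hρ j hj] at h1
    have h2 : fu S (S.M.σ (W.Z.io S d j)) = fu S (S.M.α (W.Z.io S d j)) := fu_φ _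
    rw [h2] at h1
    have e1 : W.fl 0 (W.Z.Q.ρ j) = W.fl 1 j := by
      unfold Wt.fl Wt.prv
      rw [scaρ hC hj, if_neg (by decide : ¬ (0 : ℕ) = 1),
        if_neg (by rw [ha]; decide : ¬ W.ac (W.Z.ca j) = false),
        if_neg (by rw [ha]; decide : ¬ W.ac (W.Z.ca j) = false), if_pos rfl, hC.Q.ρiρ j hj]
      by_cases h3 : W.Z.Q.rl j = true
      · rw [if_pos h3, if_pos h3]
      · rw [if_neg h3, if_neg h3]
    rw [e1] at h1
    exact h1
  · show wa (W.fl 2 j) ≤ fu S (S.M.φ (W.Z.io S d j))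
    rw [fu_φ]
    have e1 : W.fl 2 j = W.fl 0 j := by
      unfold Wt.fl
      rw [if_neg (by decide : ¬ (0 : ℕ) = 1), if_neg (by decide : ¬ (2 : ℕ) = 1)]
    rw [e1]
    exact Wt.fa0 hS wf hC ok hρ I hj ha

end names

end Pool.FC7
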