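import Pool.Agent.FC7.CfB
import Pool.Agent.FC7.WfA

/-! # Configurations given by words: the letters at the spokes -/

open Finset

set_option linter.unusedSectionVars false

namespace Pool.FC7

open Pool.FC6 Pool.FC6.St

theorem lS_ws (l : ℕ) : lS l = ws l := by
  unfold lS ws
  rw [Nat.testBit_eq_decide_div_mod_eq]

theorem lO_wo (l : ℕ) : lO l = wo l := by
  unfold lO wo
  rw [Nat.testBit_eq_decide_div_mod_eq]

/-- all units of the letter are known, or those of both heads of a solid sector are not known -/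
def no3 (l : ℕ) : Bool :=
  decide (lA l ≠ 3) && (decide (lK l ≠ 0) || (decide (lB l ≠ 3) && decide (lC l ≠ 3)) || uo l)

/-- `lt j` is the letter after the real spoke `j`, or of the gap of a dead centre -/
def Cf.chkL (F : Cf) (lt : ℕ → ℕ) : Bool :=
  allN F.Z.nc fun a => if F.ac a then allN (F.wd a).length fun i =>
      decide (lt (F.rs a i) = (F.wd a).getD i 0) && no3 ((F.wd a).getD i 0)
    else decide (F.ra a < (F.wd (F.Z.pa a)).length) && allN (F.Z.m a) fun i =>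
      decide (wb (lt (F.Z.off a + i)) = wb ((F.wd (F.Z.pa a)).getD (F.ra a) 0))

variable {D V : Type} [Fintype D] [DecidableEq V] {Δ : ℕ} {S : St D V} {L : D → Bool}
  {w : D → ℕ} {d : ℕ → D} {F : Cf}

/-- the letter after a real spoke at an alive centre -/
theorem Cf.Base.letter (hF : F.chk = true) (hS : IsStar S) (W : Wf Δ S L w) (B : F.Base S L d)
    {j : ℕ} (hj : j < F.Z.Q.ns) (hac : F.ac (F.Z.ca j) = true) (hr : F.Z.Q.rl j = true) :
    ∃ i < (F.wd (F.Z.ca j)).length, j = F.rs (F.Z.ca j) i ∧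
      IsL S L (F.Z.io S d j) ((F.wd (F.Z.ca j)).getD i 0) := by
  have H := B.hy hF hS W
  obtain ⟨i, hi, h1⟩ := B.spoke hF hS W hj hac
  have hs := B.sector hF hS W (H.hC.calt j hj) hac hi
  rcases h1 with h1 | ⟨h1, h2⟩
  · refine ⟨i, hi, h1, ?_⟩
    have h3 := hs.2.2.2.1
    rw [← h1] at h3
    exact h3
  · exfalso
    have h3 := (hs.2.2.2.2.2.2.1 h2).2.2.2
    rw [← h1, hr] at h3
    exact absurd h3 (by decide)

/-- the gap of a dead centre -/
theorem Cf.Base0.dgap (hF : F.chk = true) (hS : IsStar S) (W : Wf Δ S L w) (B : F.Base0 S L d)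
    {a : ℕ} (ha : a < F.Z.nc) (hac : F.ac a = false)
    (hr : F.ra a < (F.wd (F.Z.pa a)).length) :
    0 < a ∧ F.Z.pa a < F.Z.nc ∧ F.ac (F.Z.pa a) = true ∧
      d a = S.M.α (S.M.σ (S.nxr^[F.ra a] (d (F.Z.pa a)))) ∧
      S.real (S.M.σ (S.nxr^[F.ra a] (d (F.Z.pa a)))) = false ∧
      S.real (S.nxr^[F.ra a] (d (F.Z.pa a))) = true ∧
      IsL S L (S.nxr^[F.ra a] (d (F.Z.pa a))) ((F.wd (F.Z.pa a)).getD (F.ra a) 0) ∧
      lK ((F.wd (F.Z.pa a)).getD (F.ra a) 0) ≠ 0 ∧
      (∀ i < F.Z.m a, F.Z.Q.rl (F.Z.off a + i) = false) := by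
  have H := B.hy hF hS W
  obtain ⟨hZ, -, hW, hT⟩ := Cf.chk_iff hF
  have hC := H.hC
  unfold Cf.chkT at hT
  simp only [allN_iff, Bool.or_eq_true, Bool.and_eq_true, decide_eq_true_eq] at hT
  unfold Cf.chkW at hW
  rw [allN_iff] at hW
  have h1 := hW a ha
  rw [if_neg (by rw [hac]; decide)] at h1
  simp only [Bool.and_eq_true, decide_eq_true_eq, allN_iff, Bool.not_eq_true'] at h1
  obtain ⟨⟨⟨⟨⟨h1, h2⟩, h3⟩, h4⟩, h5⟩, h6⟩ := h1
  have h0 : 0 < a := by omega
  have hp := hC.palt a ha h0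
  have hpn : F.Z.pa a < F.Z.nc := by omega
  obtain ⟨⟨g1, g2⟩, g3⟩ := (hT a ha).resolve_left (by omega)
  rw [if_neg (by rw [hac]; decide), decide_eq_true_eq] at g3
  have hwp := B.w _ hpn h2
  have hd := B.t a ha h0
  rw [if_neg (by rw [hac]; decide)] at hd
  have hj := hC.jalt a ha h0
  have hv : S.real (S.M.σ (S.nxr^[F.ra a] (d (F.Z.pa a)))) = false := by
    rw [nxr_pos hwp g2, ← Function.iterate_succ_apply' S.M.σ, Nat.succ_eq_add_one, ← g3,
      ← Stars.io_off hC S d hpn hj, H.rlj (by have := hC.offm _ hpn; omega)]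
    exact h3
  have hl := hwp.l _ hr
  refine ⟨h0, hpn, h2, hd, hv, hS.nxr_iter_real W hwp.re _, hl, fun hk => ?_, h6⟩
  rw [hl.solid hk] at hv
  exact absurd hv (by decide)

/-- what is known about the spokes -/
theorem Cf.Base.info (hF : F.chk = true) (hS : IsStar S) (W : Wf Δ S L w) (B : F.Base S L d)
    {lt : ℕ → ℕ} (hL : F.chkL lt = true) : Info F.Z F.ac S L d lt := by
  have H := B.hy hF hS W
  unfold Cf.chkL at hL
  rw [allN_iff] at hL
  have hLa : ∀ a < F.Z.nc, F.ac a = true → ∀ i < (F.wd a).length,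
      lt (F.rs a i) = (F.wd a).getD i 0 ∧ no3 ((F.wd a).getD i 0) = true := by
    intro a ha hac i hi
    have h1 := hL a ha
    rw [if_pos hac, allN_iff] at h1
    have h2 := h1 i hi
    rwa [Bool.and_eq_true, decide_eq_true_eq] at h2
  have hde : ∀ j < F.Z.Q.ns, F.ac (F.Z.ca j) = false → F.Z.Q.rl j = false ∧
      FB (fu S (F.Z.io S d j)) (wb (lt j)) := by
    intro j hj hac
    have ha := H.hC.calt j hj
    have h1 := hL _ ha
    rw [if_neg (by rw [hac]; decide), Bool.and_eq_true, decide_eq_true_eq, allN_iff] at h1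
    obtain ⟨h1, h2⟩ := h1
    obtain ⟨c0, c1, c2, c3, c4, c5, c6, c7, c8⟩ := B.toBase0.dgap hF hS W ha hac h1
    have a1 := H.hC.lo j hj
    have a2 := H.hC.hi j hj
    have e0 : F.Z.off (F.Z.ca j) + (j - F.Z.off (F.Z.ca j)) = j := by omega
    have h3 := h2 (j - F.Z.off (F.Z.ca j)) (by omega)
    rw [e0, decide_eq_true_eq] at h3
    have h4 := c8 (j - F.Z.off (F.Z.ca j)) (by omega)
    rw [e0] at h4
    refine ⟨h4, ?_⟩
    rw [h3]
    have hz : S.M.v (d (F.Z.ca j)) ∉ S.A := by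
      rw [H.hac _ ha, hac]; decide
    have h5 : S.sc.r (d (F.Z.ca j)) (F.Z.io S d j) :=
      (hS.sc_star W hz _).2 (Or.inl (F.Z.v_io S d j))
    rw [← fu_congr h5, c3, fu_α c4]
    exact c6.f c7
  have hac : ∀ j < F.Z.Q.ns, F.Z.Q.rl j = true → F.ac (F.Z.ca j) = true := by
    intro j hj hr
    by_contra hn
    rw [(hde j hj (by simpa using hn)).1] at hr
    exact absurd hr (by decide)
  have key : ∀ j < F.Z.Q.ns, F.Z.Q.rl j = true → IsL S L (F.Z.io S d j) (lt j) ∧
      no3 (lt j) = true := by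
    intro j hj hr
    obtain ⟨i, hi, h1, h2⟩ := B.letter hF hS W hj (hac j hj hr) hr
    obtain ⟨h3, h4⟩ := hLa _ (H.hC.calt j hj) (hac j hj hr) i hi
    rw [← h1] at h3
    rw [h3]
    exact ⟨h2, h4⟩
  refine ⟨fun j hj => H.rlj hj, fun j hj ha => ?_, hde, fun j hj hr => ?_, fun j hj hr hr' => ?_,
    fun j hj hr hr' => ?_⟩
  · rw [F.Z.v_io]
    exact (H.hac _ (H.hC.calt j hj)).2 ha
  · obtain ⟨h1, -⟩ := key j hj hr
    rw [h1.s, lS_ws]
  · obtain ⟨h1, h2⟩ := key j hj hr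
    have e1 := H.ioρ hj
    have hs : S.real (S.M.σ (F.Z.io S d j)) = true := by
      rw [e1, H.rlj (H.hC.Q.ρlt j hj)]; exact hr'
    have hk : lK (lt j) = 0 := by
      by_contra hk
      rw [(h1.gap hk).1] at hs
      exact absurd hs (by decide)
    unfold no3 at h2
    simp only [Bool.and_eq_true, Bool.or_eq_true, decide_eq_true_eq] at h2
    obtain ⟨n1, n2⟩ := h2
    have a1 := h1.a
    rw [h1.nxr_solid hk, e1] at a1
    have a2 := h1.b hk
    have a3 := h1.c hk
    have a4 := h1.o hk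
    rw [e1] at a3 a4
    refine ⟨a1.resolve_left n1, fun hu => ?_, fun h11 => by rw [a4 h11, lO_wo]⟩
    rcases n2 with (n2 | n2) | n2
    · exact absurd hk n2
    · exact ⟨a2.resolve_left n2.1, a3.resolve_left n2.2⟩
    · rw [hu] at n2; exact absurd n2 (by simp)
  · obtain ⟨h1, h2⟩ := key j hj hr
    have e1 := H.ioρ hj
    have e2 := H.ioρ (H.hC.Q.ρlt j hj)
    have hs : S.real (S.M.σ (F.Z.io S d j)) = false := by
      rw [e1, H.rlj (H.hC.Q.ρlt j hj)]; exact hr'
    have hk : lK (lt j) ≠ 0 := by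
      intro hk
      rw [h1.solid hk] at hs
      exact absurd hs (by decide)
    unfold no3 at h2
    simp only [Bool.and_eq_true, Bool.or_eq_true, decide_eq_true_eq] at h2
    have a1 := h1.a
    rw [h1.nxr_gap hk, e1, e2] at a1
    have a2 := h1.f hk
    rw [e1] at a2
    exact ⟨a1.resolve_left h2.1, a2⟩

end Pool.FC7
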