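import Pool.Agent.FC7.CfD

/-! # Configurations given by words: hubs at nonadjacent neighbours of a centre -/

open Finset

set_option linter.unusedSectionVars false

namespace Pool.FC7

open Pool.FC6 Pool.FC6.St

/-- `D4H` for nonconsecutive real darts at a vertex of `U` with their heads in `U` -/
def DH {D V : Type} [Fintype D] [DecidableEq V] (S : St D V) (U : V → Prop) : Prop :=
  ∀ k k', S.real k = true → S.real k' = true → S.M.v k = S.M.v k' → U (S.M.v k) →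
    U (S.M.v (S.M.α k)) → U (S.M.v (S.M.α k')) → k ≠ k' → k' ≠ S.M.σ k → k ≠ S.M.σ k' →
    D4H S k k'

/-- the rules: real heads at adjacent centres; hubs at centres at distance at most two -/
def Cf.rlH (F : Cf) : Rl :=
  ⟨fun _ _ => true, fun _ _ => true, fun _ _ _ => false, fun m a b =>
    decide (F.Z.Q.ρ (F.ad m a - 1) ≠ F.ad m b - 1) && decide (F.Z.Q.ρ (F.ad m b - 1) ≠ F.ad m a - 1)⟩

variable {D V : Type} [Fintype D] [DecidableEq V] {Δ : ℕ} {S : St D V} {L : D → Bool}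
  {w : D → ℕ} {d : ℕ → D} {U : V → Prop}

theorem DH.mono {U' : V → Prop} (h : DH S U) (hU : ∀ x, U' x → U x) : DH S U' :=
  fun k k' h1 h2 h3 h4 h5 h6 => h k k' h1 h2 h3 (hU _ h4) (hU _ h5) (hU _ h6)

/-- the rules at the centres -/
theorem Cf.sem_of {F : Cf} (hF : F.chk = true) (H : F.Hy S d)
    (n2 : ∀ a < F.Z.nc, S.N2 (S.M.v (d a)))
    (fr : ∀ a < F.Z.nc, ∀ k, S.real k = true → S.M.v k = S.M.v (d a) → FcR S k)
    (fh : ∀ a < F.Z.nc, ∀ k, S.real k = true → S.M.v k = S.M.v (d a) → FcH S k)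
    (dh : DH S fun x => ∃ a < F.Z.nc, x = S.M.v (d a)) :
    F.Sem F.rlH S d := by
  have adk : ∀ a < F.Z.nc, ∀ b < F.Z.nc, F.ad a b ≠ 0 →
      F.ad a b - 1 < F.Z.Q.ns ∧ F.Z.ca (F.ad a b - 1) = a ∧
      F.Z.ca (F.Z.Q.π (F.ad a b - 1)) = b ∧
      S.real (F.Z.io S d (F.ad a b - 1)) = true ∧
      S.M.v (F.Z.io S d (F.ad a b - 1)) = S.M.v (d a) ∧
      S.M.v (S.M.α (F.Z.io S d (F.ad a b - 1))) = S.M.v (d b) := by
    intro a ha b hb hab
    obtain ⟨-, -, k3, k4, k5, k6, k7⟩ := Cf.ad_ck hF ha hb hab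
    exact ⟨k3, k4, k5, (H.rlj k3).trans k7, by rw [F.Z.v_io, k4],
      by rw [H.ioπ k3 k6, F.Z.v_io, k5]⟩
  refine ⟨fun a ha _ => n2 a ha, fun a ha b hb hab _ => ?_, fun a ha b hb hab _ => ?_,
    fun m _ a _ b _ _ _ _ hf => absurd hf (by simp [Cf.rlH]),
    fun m hm a ha b hb h1 h2 hab hf => ?_⟩
  · obtain ⟨-, -, -, q1, q2, -⟩ := adk a ha b hb hab
    exact fr a ha _ q1 q2
  · obtain ⟨-, -, -, q1, q2, -⟩ := adk a ha b hb hab
    exact fh a ha _ q1 q2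
  · obtain ⟨p1, p2, p3, p4, p5, p6⟩ := adk m hm a ha h1
    obtain ⟨q1, q2, q3, q4, q5, q6⟩ := adk m hm b hb h2
    unfold Cf.rlH at hf
    simp only [Bool.and_eq_true, decide_eq_true_eq] at hf
    have hca : F.Z.ca (F.ad m a - 1) = F.Z.ca (F.ad m b - 1) := p2.trans q2.symm
    refine dh _ _ p4 q4 (p5.trans q5.symm) ⟨m, hm, p5⟩ ⟨a, ha, p6⟩ ⟨b, hb, q6⟩ (fun he => ?_)
      (fun he => ?_) (fun he => ?_)
    · have h3 := H.inj1 p1 q1 hca he
      apply hab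
      rw [← p3, ← q3, h3]
    · rw [H.ioρ p1] at he
      exact hf.1 (H.inj1 (H.hC.Q.ρlt _ p1) q1 ((H.caρ p1).trans hca) he.symm)
    · rw [H.ioρ q1] at he
      exact hf.2 (H.inj1 (H.hC.Q.ρlt _ q1) p1 ((H.caρ q1).trans hca.symm) he.symm)

end Pool.FC7
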