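import Pool.Agent.FC7.MM
import Pool.Agent.FC6.Mirror

/-! # The mirror image of a star state -/

open Finset

set_option linter.unusedSectionVars false

namespace Pool.FC7

open Pool.FC6 Pool.FC6.St

variable {D V : Type} [Fintype D] [DecidableEq V] {Δ N R e : ℕ} {S : St D V} {L : D → Bool}
  {w : D → ℕ}

/-- the next real dart of the same face -/
def mnx (S : St D V) (d : D) : D :=
  if S.real d = true then (if S.real (S.M.φ d) = true then S.M.φ d else S.M.σ (S.M.φ d)) else d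

/-- the mirror image of a star state: the unit of a corner is moved to the other side -/
def mir (S : St D V) : St D V where
  M := S.M.mir
  A := S.A
  real := S.real
  u d := S.u (mnx S d)

theorem mr_cl {X : Type} {t : D → X} : (mir S).Cl t ↔ S.Cl t := by
  show S.mir.Cl t ↔ S.Cl t
  exact St.mir_cl

theorem mr_test {c : V → Bool} {h : D → ℝ} : (mir S).Test c h ↔ S.Test c h := by
  show S.mir.Test c h ↔ S.Test c h
  exact St.mir_test

theorem mr_sc {d e : D} : (mir S).sc.r d e ↔ S.sc.r d e :=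
  ⟨fun h t ht => h t (mr_cl.2 ht), fun h t ht => h t (mr_cl.1 ht)⟩

theorem mr_csz (d : D) : (mir S).csz d = S.csz d := by
  classical
  unfold csz
  exact Finset.sum_congr rfl fun e _ => if_congr (and_congr Iff.rfl mr_sc) rfl rfl

theorem mr_br {c : V → Bool} {d : D} : Br (mir S) c d ↔ Br S c d := by
  show (S.real d = true ∧ c (S.M.v (S.M.α d)) ≠ c (S.M.v (S.M.α (S.M.α d)))) ↔
    (S.real d = true ∧ c (S.M.v d) ≠ c (S.M.v (S.M.α d)))
  rw [S.M.αα, ne_comm]

theorem mr_vi {c : V → Bool} {d : D} : Vi (mir S) c d ↔ Vi S c d := by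
  constructor
  · rintro ⟨e, h1, h2⟩
    exact ⟨e, mr_br.1 h1, fun h hh => h2 h (mr_test.2 hh)⟩
  · rintro ⟨e, h1, h2⟩
    exact ⟨e, mr_br.2 h1, fun h hh => h2 h (mr_test.1 hh)⟩

theorem mnx_sc (d : D) : S.sc.r (mnx S d) d := by
  intro t ht
  unfold mnx
  by_cases h1 : S.real d = true
  · rw [if_pos h1]
    by_cases h2 : S.real (S.M.φ d) = true
    · rw [if_pos h2]; exact ht.1 d
    · rw [if_neg h2]; exact cl_σφ ht (by simpa using h2)
  · rw [if_neg h1]

theorem mnx_v {d : D} (h : S.real d = true) : S.M.v (mnx S d) = S.M.v (S.M.α d) := by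
  unfold mnx
  rw [if_pos h]
  by_cases h2 : S.real (S.M.φ d) = true
  · rw [if_pos h2, S.M.vφ]
  · rw [if_neg h2, vσφ]

section star

variable (hS : IsStar S) (hα : ∀ d, S.real (S.M.α d) = S.real d)
  (hA : ∀ d, S.real d = true → S.M.v d ∈ S.A)

include hS hα hA

theorem mnx_real {d : D} (h : S.real d = true) : S.real (mnx S d) = true := by
  unfold mnx
  rw [if_pos h]
  by_cases h2 : S.real (S.M.φ d) = true
  · rw [if_pos h2]; exact h2
  · rw [if_neg h2]
    have h3 := hS.dead d h (by simpa using h2)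
    have e1 : S.M.v (S.M.φ (S.M.φ d)) = S.M.v (S.M.α (S.M.φ d)) := S.M.vφ _
    rw [e1] at h3
    show S.real (S.M.φ (S.M.α (S.M.φ d))) = true
    rcases hS.one (S.M.α (S.M.φ d)) with h4 | h4 | h4
    · exact absurd (hA _ h4) h3
    · exact h4
    · have h5 := hA (S.M.α (S.M.φ (S.M.φ (S.M.α (S.M.φ d))))) (by rw [hα]; exact h4)
      rw [S.M.vφ2] at h5
      exact absurd h5 h3

theorem mnx_real' {d : D} : S.real (mnx S d) = true ↔ S.real d = true := by
  constructor
  · intro h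
    by_contra h2
    unfold mnx at h
    rw [if_neg h2] at h
    exact h2 h
  · exact mnx_real hS hα hA

theorem mnx_inj : Function.Injective (mnx S) := by
  intro a b hab
  by_cases ha : S.real a = true
  · have hb : S.real b = true := by
      rw [← mnx_real' hS hα hA, ← hab]
      exact mnx_real hS hα hA ha
    unfold mnx at hab
    rw [if_pos ha, if_pos hb] at hab
    by_cases h1 : S.real (S.M.φ a) = true
    · rw [if_pos h1] at hab
      by_cases h2 : S.real (S.M.φ b) = true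
      · rw [if_pos h2] at hab
        exact S.M.φinj hab
      · rw [if_neg h2] at hab
        have h3 : a = S.M.α (S.M.φ b) := S.M.φinj hab
        rw [h3, hα] at ha
        exact absurd ha h2
    · rw [if_neg h1] at hab
      by_cases h2 : S.real (S.M.φ b) = true
      · rw [if_pos h2] at hab
        have h3 : S.M.α (S.M.φ a) = b := S.M.φinj hab
        rw [← h3, hα] at hb
        exact absurd hb h1
      · rw [if_neg h2] at hab
        exact S.M.φinj (S.M.σinj hab)
  · have hb : ¬ S.real b = true := by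
      rw [← mnx_real' hS hα hA, ← hab, mnx_real' hS hα hA]
      exact ha
    unfold mnx at hab
    rwa [if_neg ha, if_neg hb] at hab

theorem mnx_bij : Function.Bijective (mnx S) := Finite.injective_iff_bijective.1 (mnx_inj hS hα hA)

theorem mnx_sum (F : D → ℕ) : ∑ d, F (mnx S d) = ∑ d, F d :=
  Equiv.sum_comp (Equiv.ofBijective _ (mnx_bij hS hα hA)) F

theorem mr_fu (d : D) : fu (mir S) d = fu S d := by
  classical
  unfold fu
  rw [← mnx_sum hS hα hA (fun e => if S.sc.r d e then S.u e else 0)]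
  refine Finset.sum_congr rfl fun e _ => if_congr ?_ rfl rfl
  rw [mr_sc]
  exact ⟨fun h => S.sc.iseqv.trans h (S.sc.iseqv.symm (mnx_sc e)),
    fun h => S.sc.iseqv.trans h (mnx_sc e)⟩

theorem mr_two {d : D} (h : Two S d) : Two (mir S) d := by
  obtain ⟨e, e', h1, h2, h3, h4, h5, h6⟩ := h
  obtain ⟨f, rfl⟩ := (mnx_bij hS hα hA).2 e
  obtain ⟨f', rfl⟩ := (mnx_bij hS hα hA).2 e'
  have r1 : S.real f = true := (mnx_real' hS hα hA).1 (hS.ur _ h3)
  have r2 : S.real f' = true := (mnx_real' hS hα hA).1 (hS.ur _ h4)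
  rw [mnx_v r1, mnx_v r2] at h5
  refine ⟨f, f', mr_sc.2 (S.sc.iseqv.trans h1 (mnx_sc f)), mr_sc.2 (S.sc.iseqv.trans h2 (mnx_sc f')),
    h3, h4, h5, fun r hr hs => ?_⟩
  have h7 := h6 r hr (mr_sc.1 hs)
  rw [mnx_v r1, mnx_v r2] at h7
  have e1 : (mir S).M.v ((mir S).M.α r) = S.M.v r := TMap.mir_vα S.M r
  rw [e1]
  show ¬ (S.M.v (S.M.α r) = S.M.v (S.M.α f) ∧ S.M.v r = S.M.v (S.M.α f')) ∧
    ¬ (S.M.v (S.M.α r) = S.M.v (S.M.α f') ∧ S.M.v r = S.M.v (S.M.α f))
  exact ⟨fun h => h7.2 ⟨h.2, h.1⟩, fun h => h7.1 ⟨h.2, h.1⟩⟩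

end star

theorem mr_rc (hα : ∀ d, S.real (S.M.α d) = S.real d) (s : V → Bool) : (mir S).rc s = S.rc s := by
  unfold St.rc
  rw [← sum_α_nat S.M (fun d => if S.real d = true ∧ s (S.M.v d) = true ∧
    s (S.M.v (S.M.α d)) = false then 1 else 0)]
  refine Finset.sum_congr rfl fun d _ => ?_
  have e1 : (mir S).M.v ((mir S).M.α d) = S.M.v d := TMap.mir_vα S.M d
  rw [e1, hα, S.M.αα]
  rfl

theorem mr_rdeg (hα : ∀ d, S.real (S.M.α d) = S.real d) (x : V) : (mir S).rdeg x = S.rdeg x := by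
  unfold St.rdeg
  rw [← sum_α_nat S.M (fun d => if S.M.v d = x ∧ S.real d = true then 1 else 0)]
  refine Finset.sum_congr rfl fun d _ => ?_
  rw [hα]
  rfl

theorem mr_n4 (hα : ∀ d, S.real (S.M.α d) = S.real d) : n4 (mir S) = n4 S := by
  unfold n4
  show (S.A.filter fun x => 4 ≤ (mir S).rdeg x).card = _
  simp only [mr_rdeg hα]

theorem mr_n3 (hα : ∀ d, S.real (S.M.α d) = S.real d) : n3 (mir S) = n3 S := by
  unfold n3
  show (S.A.filter fun x => ¬ 4 ≤ (mir S).rdeg x).card = _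
  simp only [mr_rdeg hα]

theorem mr_wf (hS : IsStar S) (h : Wf Δ S L w) : Wf Δ (mir S) L w where
  real_α := h.real_α
  real_A d hd := h.real_A (S.M.α d) (by rw [h.real_α]; exact hd)
  real_ne d hd := by
    show S.M.v (S.M.α d) ≠ S.M.v (S.M.α (S.M.α d))
    rw [S.M.αα]
    exact (h.real_ne d hd).symm
  A_im x hx := by
    obtain ⟨d, hd⟩ := h.A_im x hx
    exact ⟨S.M.α d, by
      show S.M.v (S.M.α (S.M.α d)) = x
      rw [S.M.αα]; exact hd⟩
  u_A d hd := by
    have h1 : S.real d = true := (mnx_real' hS h.real_α h.real_A).1 (hS.ur _ hd)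
    exact h.real_A (S.M.α d) (by rw [h.real_α]; exact h1)
  L_real := h.L_real
  L_α := h.L_α
  w_L := h.w_L
  w_α := h.w_α
  deg x hx := by
    refine le_trans (le_of_eq ?_) (h.deg x hx)
    have e1 : ∀ (F : D → ℕ) (G : D → V), ∑ d, (if G d = x then (if S.real d = true then 1 else 0) +
        F d + w d else 0) = ∑ d, (if G d = x then (if S.real d = true then 1 else 0) + w d else 0) +
        ∑ d, (if G d = x then F d else 0) := by
      intro F G
      rw [← Finset.sum_add_distrib]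
      refine Finset.sum_congr rfl fun d _ => ?_
      by_cases hd : G d = x
      · simp only [if_pos hd]; omega
      · simp only [if_neg hd]
    rw [e1 S.u S.M.v]
    show ∑ d, (if S.M.v (S.M.α d) = x then (if S.real d = true then 1 else 0) +
        S.u (mnx S d) + w d else 0) = _
    rw [e1 (fun d => S.u (mnx S d)) (fun d => S.M.v (S.M.α d))]
    congr 1
    · rw [← sum_α_nat S.M (fun d => if S.M.v d = x then (if S.real d = true then 1 else 0) + w d
        else 0)]
      refine Finset.sum_congr rfl fun d _ => ?_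
      rw [h.real_α, h.w_α]
    · rw [← mnx_sum hS h.real_α h.real_A (fun d => if S.M.v d = x then S.u d else 0)]
      refine Finset.sum_congr rfl fun d _ => ?_
      by_cases hu : S.u (mnx S d) = 0
      · rw [hu, ite_self, ite_self]
      · have h1 : S.real d = true := (mnx_real' hS h.real_α h.real_A).1 (hS.ur _ hu)
        rw [mnx_v h1]
  simple d d' h1 h2 h3 h4 := by
    have e1 : (mir S).M.v ((mir S).M.α d) = S.M.v d := TMap.mir_vα S.M d
    have e2 : (mir S).M.v ((mir S).M.α d') = S.M.v d' := TMap.mir_vα S.M d'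
    rw [e1, e2] at h4
    exact h.simple d d' h1 h2 h4 h3
  ex := h.ex

theorem mr_thr (hS : IsStar S) (h : Wf Δ S L w) (thr : ∀ d, S.u d ≠ 0 → 3 ≤ fu S d ∨ Two S d) :
    ∀ d, (mir S).u d ≠ 0 → 3 ≤ fu (mir S) d ∨ Two (mir S) d := by
  intro d hd
  rw [mr_fu hS h.real_α h.real_A, fu_congr (S.sc.iseqv.symm (mnx_sc d))]
  rcases thr (mnx S d) hd with h1 | h1
  · exact Or.inl h1
  · right
    apply mr_two hS h.real_α h.real_A
    obtain ⟨e, e', h1, h2, h3⟩ := h1
    exact ⟨e, e', S.sc.iseqv.trans (S.sc.iseqv.symm (mnx_sc d)) h1,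
      S.sc.iseqv.trans (S.sc.iseqv.symm (mnx_sc d)) h2, h3.1, h3.2.1, h3.2.2.1, fun r hr hs =>
        h3.2.2.2 r hr (S.sc.iseqv.trans (mnx_sc d) hs)⟩

theorem mr_rq (hS : IsStar S) (h : Wf Δ S L w) : rq (mir S) L = rq S L := by
  unfold rq
  rw [mr_n3 h.real_α]
  congr 2
  rw [← mnx_sum hS h.real_α h.real_A (fun d => S.u d * cw (fu S d))]
  refine Finset.sum_congr rfl fun d _ => ?_
  rw [mr_fu hS h.real_α h.real_A, fu_congr (mnx_sc d)]
  rfl

theorem mr_sol (hS : IsStar S) (h : Wf Δ S L w) {c : V → Bool} (hs : Sol (mir S) L c) :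
    Sol S L c where
  con t ht d d' hd hd' := hs.con t (mr_test.2 ht) d d' (mr_br.2 hd) (mr_br.2 hd')
  live x hx := by
    obtain ⟨d, hd, hv⟩ := hs.live x hx
    refine ⟨S.M.φ d, ?_, vi_φ.2 (mr_vi.1 hv)⟩
    rw [S.M.vφ]
    exact hd
  req d hd := by
    obtain ⟨f, rfl⟩ := (mnx_bij hS h.real_α h.real_A).2 d
    exact vi_cl (S.sc.iseqv.symm (mnx_sc f)) (mr_vi.1 (hs.req f hd))
  lab d hd := by
    rcases hs.lab d hd with h1 | h1
    · exact Or.inl (mr_vi.1 h1)
    · exact Or.inr (mr_vi.1 h1)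

theorem IsStar.mir (hS : IsStar S) (h : Wf Δ S L w) : IsStar (mir S) where
  two d h1 h2 := by
    show S.real (S.M.φ (S.M.φ (S.M.φ (S.M.φ d)))) = true
    rw [S.M.φ3]
    have h3 := hS.two (S.M.φ (S.M.φ d)) h2 (by rw [S.M.φ3]; exact h1)
    rwa [S.M.φ3] at h3
  one d := by
    show S.real d = true ∨ S.real (S.M.φ (S.M.φ d)) = true ∨
      S.real (S.M.φ (S.M.φ (S.M.φ (S.M.φ d)))) = true
    rw [S.M.φ3]
    have := hS.one d
    tauto
  dead d h1 h2 := by
    show S.M.v (S.M.α (S.M.φ (S.M.φ (S.M.φ (S.M.φ d))))) ∉ S.A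
    rw [S.M.φ3, ← S.M.vφ]
    have h2' : S.real (S.M.φ (S.M.φ d)) = false := h2
    refine hS.dead d h1 ?_
    cases h3 : S.real (S.M.φ d)
    · rfl
    · rw [hS.two d h1 h3] at h2'
      exact absurd h2' (by decide)
  ur d hd := (mnx_real' hS h.real_α h.real_A).1 (hS.ur _ hd)
  pl3 d hd := by
    rw [mr_csz, ← hS.pl3 d hd]
    show S.real (S.M.φ (S.M.φ d)) = true ↔ _
    constructor
    · intro h3
      have h4 := hS.two (S.M.φ (S.M.φ d)) h3 (by rw [S.M.φ3]; exact hd)
      rwa [S.M.φ3] at h4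
    · exact hS.two d hd

theorem MM.mir (hS : IsStar S) (h : MM Δ N R e S L w) : MM Δ N R e (mir S) L w where
  w1 := h.w1
  ok := ok_of_rc (mr_wf hS h.ok.toWf) (fun s a b => by
    rw [mr_rc h.ok.real_α]
    exact h.rc3 s a b) (mr_thr hS h.ok.toWf h.ok.thr)
  no := fun ⟨c, hc⟩ => h.no ⟨c, mr_sol hS h.ok.toWf hc⟩
  nr := h.nr
  rc3 s a b := by
    rw [mr_rc h.ok.real_α]
    exact h.rc3 s a b
  n4 := by rw [mr_n4 h.ok.real_α]; exact h.n4
  rq := by rw [mr_rq hS h.ok.toWf]; exact h.rq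
  min := h.min

end Pool.FC7
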