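import Pool.Agent.FC7.WdB

/-! # Exact words -/

open Finset

set_option linter.unusedSectionVars false

namespace Pool.FC7

open Pool.FC6 Pool.FC6.St

/-- a code from its parts -/
def mkl (a b c k : ℕ) (s o : Bool) : ℕ :=
  a + 4 * b + 16 * c + 64 * k + (if s then 256 else 0) + (if o then 512 else 0)

theorem mkl_dec {a b c k : ℕ} (ha : a < 4) (hb : b < 4) (hc : c < 4) (hk : k < 4) (s o : Bool) :
    lA (mkl a b c k s o) = a ∧ lB (mkl a b c k s o) = b ∧ lC (mkl a b c k s o) = c ∧
      lK (mkl a b c k s o) = k ∧ lS (mkl a b c k s o) = s ∧ lO (mkl a b c k s o) = o := by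
  unfold lA lB lC lK lS lO
  rw [Nat.testBit_eq_decide_div_mod_eq, Nat.testBit_eq_decide_div_mod_eq]
  unfold mkl
  norm_num
  cases s <;> cases o <;> simp only [Bool.false_eq_true, if_false, if_true] <;>
    refine ⟨by omega, by omega, by omega, by omega, ?_, ?_⟩ <;>
    first
    | (rw [decide_eq_true_iff]; omega)
    | (rw [decide_eq_false_iff_not]; omega)

/-- the class of a face with `n` units -/
def fcl (n : ℕ) : ℕ := if n = 0 then 3 else if n ≤ 2 then 1 else 2

theorem fcl_FcU (n : ℕ) : FcU n (fcl n) := by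
  unfold FcU fcl
  split_ifs with h1 h2
  · exact ⟨fun h => absurd h (by norm_num), fun h => absurd h (by norm_num), fun _ => h1⟩
  · exact ⟨fun _ => ⟨by omega, h2⟩, fun h => absurd h (by norm_num), fun h => absurd h (by norm_num)⟩
  · exact ⟨fun h => absurd h (by norm_num), fun _ => by omega, fun h => absurd h (by norm_num)⟩

theorem fcl_lt (n : ℕ) : fcl n < 4 := by unfold fcl; split_ifs <;> norm_num

variable {D V : Type} [Fintype D] [DecidableEq V]

/-- the exact code of the sector after `d` -/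
noncomputable def code (S : St D V) (L : D → Bool) (d : D) : ℕ :=
  if S.real (S.M.σ d) = true then
    mkl (S.u (S.nxr d)) (S.u (S.M.α d)) (S.u (S.M.φ (S.M.σ d))) 0 (L d) (L (S.M.φ (S.M.σ d)))
  else mkl (S.u (S.nxr d)) (fcl (fu S (S.M.σ d))) (if S.csz (S.M.σ d) = 4 then 1 else 2) 1 (L d) false

/-- the exact word -/
noncomputable def word (S : St D V) (L : D → Bool) (d : D) : List ℕ :=
  (List.range (S.rdeg (S.M.v d))).map fun i => code S L (S.nxr^[i] d)

variable {Δ : ℕ} {S : St D V} {L : D → Bool} {w : D → ℕ} {d e : D}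

theorem word_length : (word S L d).length = S.rdeg (S.M.v d) := by simp [word]

theorem word_getD {i : ℕ} (hi : i < S.rdeg (S.M.v d)) :
    (word S L d).getD i 0 = code S L (S.nxr^[i] d) := by
  unfold word
  rw [List.getD_eq_getElem _ _ (by simpa using hi)]
  simp

/-- a gap face has at least four real darts -/
theorem IsStar.gap4 (hS : IsStar S) (W : Wf Δ S L w) (he : S.real e = false)
    (h3 : 3 ≤ S.csz e) : 4 ≤ S.csz e := by
  have := hS.csz_ne3 W he
  omega

theorem isL_code (hS : IsStar S) (W : Wf Δ S L w) (hu : ∀ e, S.u e < 3)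
    (h3 : ∀ e, 3 ≤ S.csz e) : IsL S L d (code S L d) := by
  have hu' : ∀ e, S.u e < 4 := fun e => by have := hu e; omega
  unfold code
  by_cases h1 : S.real (S.M.σ d) = true
  · rw [if_pos h1]
    obtain ⟨a1, a2, a3, a4, a5, a6⟩ := mkl_dec (hu' (S.nxr d)) (hu' (S.M.α d))
      (hu' (S.M.φ (S.M.σ d))) (show (0 : ℕ) < 4 by norm_num) (L d) (L (S.M.φ (S.M.σ d)))
    refine ⟨?_, Or.inr a1.symm, a5.symm, fun _ => Or.inr a2.symm, fun _ => Or.inr a3.symm,
      fun _ _ => a6.symm, fun h => absurd a4 h⟩
    unfold sk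
    rw [if_pos a4]
    exact h1
  · have h1' : S.real (S.M.σ d) = false := by simpa using h1
    rw [if_neg h1]
    have hc : (if S.csz (S.M.σ d) = 4 then 1 else 2) < 4 := by split_ifs <;> norm_num
    obtain ⟨a1, a2, a3, a4, a5, a6⟩ := mkl_dec (hu' (S.nxr d)) (fcl_lt (fu S (S.M.σ d))) hc
      (show (1 : ℕ) < 4 by norm_num) (L d) false
    have hk : lK (mkl (S.u (S.nxr d)) (fcl (fu S (S.M.σ d)))
      (if S.csz (S.M.σ d) = 4 then 1 else 2) 1 (L d) false) ≠ 0 := by rw [a4]; norm_num
    refine ⟨?_, Or.inr a1.symm, a5.symm, fun h => absurd h hk, fun h => absurd h hk,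
      fun h => absurd h hk, fun _ => by rw [a2]; exact fcl_FcU _⟩
    have h4 := hS.gap4 W h1' (h3 _)
    unfold sk
    rw [if_neg hk, a3]
    by_cases h5 : S.csz (S.M.σ d) = 4
    · rw [if_pos h5, if_neg (by norm_num), if_pos rfl]
      exact ⟨h1', h5⟩
    · rw [if_neg h5, if_neg (by norm_num), if_neg (by norm_num)]
      refine ⟨h1', ?_⟩
      show 5 ≤ S.csz (S.M.σ d)
      omega

theorem isW_word (hS : IsStar S) (W : Wf Δ S L w) (hd : S.real d = true) (hu : ∀ e, S.u e < 3)
    (h3 : ∀ e, 3 ≤ S.csz e) : IsW S L d (word S L d) where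
  re := hd
  len := word_length
  l i hi := by
    rw [word_length] at hi
    rw [word_getD hi]
    exact isL_code hS W hu h3

/-- the parts of an exact code -/
theorem code_A (hu : ∀ e, S.u e < 3) : lA (code S L d) = S.u (S.nxr d) := by
  have hu' : ∀ e, S.u e < 4 := fun e => by have := hu e; omega
  unfold code
  split_ifs
  · exact (mkl_dec (hu' _) (hu' _) (hu' _) (by norm_num) _ _).1
  · exact (mkl_dec (hu' _) (fcl_lt _) (by norm_num) (by norm_num) _ _).1
  · exact (mkl_dec (hu' _) (fcl_lt _) (by norm_num) (by norm_num) _ _).1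

theorem code_S (hu : ∀ e, S.u e < 3) : lS (code S L d) = L d := by
  have hu' : ∀ e, S.u e < 4 := fun e => by have := hu e; omega
  unfold code
  split_ifs
  · exact (mkl_dec (hu' _) (hu' _) (hu' _) (by norm_num) _ _).2.2.2.2.1
  · exact (mkl_dec (hu' _) (fcl_lt _) (by norm_num) (by norm_num) _ _).2.2.2.2.1
  · exact (mkl_dec (hu' _) (fcl_lt _) (by norm_num) (by norm_num) _ _).2.2.2.2.1

/-- sums over the real darts at a vertex -/
theorem sum_real_at {M : Type*} [AddCommMonoid M] (hS : IsStar S) (W : Wf Δ S L w)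
    (hd : S.real d = true) (F : D → M) :
    ∑ e, (if S.M.v e = S.M.v d ∧ S.real e = true then F e else 0) =
      ∑ i ∈ Finset.range (S.rdeg (S.M.v d)), F (S.nxr^[i] d) := by
  classical
  have hinj : ∀ i ∈ Finset.range (S.rdeg (S.M.v d)), ∀ j ∈ Finset.range (S.rdeg (S.M.v d)),
      S.nxr^[i] d = S.nxr^[j] d → i = j := by
    have key : ∀ i j : ℕ, i < j → j < S.rdeg (S.M.v d) → S.nxr^[i] d ≠ S.nxr^[j] d := by
      intro i j hij hj he
      have h1 := hS.nxr_iter_real W hd i
      have h2 : S.nxr^[j - i] (S.nxr^[i] d) = S.nxr^[i] d := by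
        rw [← Function.iterate_add_apply, Nat.sub_add_cancel hij.le]; exact he.symm
      exact hS.nxr_ne W h1 (show 0 < j - i by omega) (by rw [v_nxr_iter]; omega) h2
    intro i hi j hj he
    rw [Finset.mem_range] at hi hj
    rcases lt_trichotomy i j with h1 | h1 | h1
    · exact absurd he (key i j h1 hj)
    · exact h1
    · exact absurd he.symm (key j i h1 hi)
  rw [← Finset.sum_filter]
  have hset : (Finset.univ.filter fun e => S.M.v e = S.M.v d ∧ S.real e = true) =
      (Finset.range (S.rdeg (S.M.v d))).image fun i => S.nxr^[i] d := by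
    ext e
    simp only [Finset.mem_filter, Finset.mem_univ, true_and, Finset.mem_image, Finset.mem_range]
    constructor
    · rintro ⟨h1, h2⟩
      obtain ⟨i, hi, h3⟩ := hS.nxr_surj W hd h2 h1
      exact ⟨i, hi, h3⟩
    · rintro ⟨i, hi, rfl⟩
      exact ⟨v_nxr_iter i d, hS.nxr_iter_real W hd i⟩
  rw [hset, Finset.sum_image (fun i hi j hj h => hinj i (by simpa using hi) j (by simpa using hj) h)]

/-- the weight of a vertex from its exact word -/
theorem word_sum (hS : IsStar S) (W : Wf Δ S L w) (w1 : W1 L w) (hd : S.real d = true)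
    (hu : ∀ e, S.u e < 3) :
    ∑ e, (if S.M.v e = S.M.v d then (if S.real e = true then 1 else 0) + S.u e + w e else 0) =
      (word S L d).length + ((word S L d).map fun l => lA l + (if lS l = true then 1 else 0)).sum := by
  classical
  have e1 : ∀ e, (if S.M.v e = S.M.v d then (if S.real e = true then 1 else 0) + S.u e + w e
      else 0) = if S.M.v e = S.M.v d ∧ S.real e = true then 1 + S.u e +
        (if L e = true then 1 else 0) else 0 := by
    intro e
    by_cases h1 : S.M.v e = S.M.v d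
    · by_cases h2 : S.real e = true
      · rw [if_pos h1, if_pos h2, if_pos ⟨h1, h2⟩, w1 e]
      · have h3 : S.u e = 0 := by
          by_contra hc
          exact h2 (hS.ur e hc)
        have h4 : w e = 0 := by
          rw [w1 e, if_neg (fun h => h2 (W.L_real e h))]
        rw [if_pos h1, if_neg h2, if_neg (fun h => h2 h.2), h3, h4]
    · rw [if_neg h1, if_neg (fun h => h1 h.1)]
  simp only [e1]
  rw [sum_real_at hS W hd]
  have e2 : ((word S L d).map fun l => lA l + (if lS l = true then 1 else 0)).sum =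
      ∑ i ∈ Finset.range (S.rdeg (S.M.v d)), (S.u (S.nxr^[i + 1] d) +
        (if L (S.nxr^[i] d) = true then 1 else 0)) := by
    unfold word
    rw [List.map_map, ← List.sum_toFinset _ List.nodup_range, List.toFinset_range]
    refine Finset.sum_congr rfl fun i _ => ?_
    show lA (code S L (S.nxr^[i] d)) + (if lS (code S L (S.nxr^[i] d)) = true then 1 else 0) = _
    rw [code_A hu, code_S hu, ← Function.iterate_succ_apply' S.nxr]
  rw [e2, word_length]
  simp only [Finset.sum_add_distrib]
  have e3 : ∑ i ∈ Finset.range (S.rdeg (S.M.v d)), S.u (S.nxr^[i + 1] d) =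
      ∑ i ∈ Finset.range (S.rdeg (S.M.v d)), S.u (S.nxr^[i] d) := by
    have h1 := Finset.sum_range_succ' (fun i => S.u (S.nxr^[i] d)) (S.rdeg (S.M.v d))
    have h2 := Finset.sum_range_succ (fun i => S.u (S.nxr^[i] d)) (S.rdeg (S.M.v d))
    have h3 : S.nxr^[S.rdeg (S.M.v d)] d = S.nxr^[0] d := hS.nxr_rdeg W hd
    rw [h3] at h2
    omega
  rw [e3]
  simp
  omega

end Pool.FC7
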