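import Pool.Agent.FC7.CfB
import Pool.Agent.FC7.WdC
import Pool.Agent.FC7.WfA
import Pool.Agent.FC7.Mir

/-! # Words in the mirror image -/

open Finset

set_option linter.unusedSectionVars false

namespace Pool.FC7

open Pool.FC6 Pool.FC6.St

/-- the code of the mirror image of a sector; `s`: the label of the other spoke -/
def mlt (l : ℕ) (s : Bool) : ℕ :=
  if lK l = 0 then mkl (lA l) (lC l) (lB l) 0 s (lO l) else mkl (lA l) (lB l) (lC l) (lK l) s false

/-- the mirror image of a word -/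
def mw (wd : List ℕ) : List ℕ :=
  (List.range wd.length).map fun i => mlt (wd.getD (wd.length - 1 - i) 0)
    (lS (wd.getD ((wd.length - i) % wd.length) 0))

theorem mlt_lt (l : ℕ) (s : Bool) : mlt l s < 1024 := by
  unfold mlt mkl lA lB lC lK
  split_ifs <;> omega

theorem mlt_11 (l : ℕ) (s : Bool) : (mlt l s).testBit 11 = false :=
  Nat.testBit_lt_two_pow (lt_of_lt_of_le (mlt_lt l s) (by norm_num))

theorem lA_lt (l : ℕ) : lA l < 4 := Nat.mod_lt _ (by norm_num)
theorem lB_lt (l : ℕ) : lB l < 4 := Nat.mod_lt _ (by norm_num)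
theorem lC_lt (l : ℕ) : lC l < 4 := Nat.mod_lt _ (by norm_num)
theorem lK_lt (l : ℕ) : lK l < 4 := Nat.mod_lt _ (by norm_num)

theorem mw_length (wd : List ℕ) : (mw wd).length = wd.length := by simp [mw]

theorem mw_getD {wd : List ℕ} {i : ℕ} (hi : i < wd.length) :
    (mw wd).getD i 0 = mlt (wd.getD (wd.length - 1 - i) 0)
      (lS (wd.getD ((wd.length - i) % wd.length) 0)) := by
  unfold mw
  rw [List.getD_eq_getElem _ _ (by simpa using hi)]
  simp

theorem mw_11 {wd : List ℕ} {i : ℕ} (hi : i < (mw wd).length) :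
    ((mw wd).getD i 0).testBit 11 = false := by
  rw [mw_length] at hi
  rw [mw_getD hi]
  exact mlt_11 _ _

variable {D V : Type} [Fintype D] [DecidableEq V]

/-- the rotation of the mirror image -/
theorem mσ_iff {S : St D V} {x y : D} : (mir S).M.σ x = y ↔ S.M.σ (S.M.α y) = S.M.α x := by
  have h := TMap.mir_σ S.M x
  constructor
  · rintro rfl
    exact h
  · intro h2
    have h3 := S.M.σinj (h.trans h2.symm)
    have h4 := congrArg S.M.α h3
    rwa [S.M.αα, S.M.αα] at h4

variable {Δ : ℕ} {S : St D V} {L : D → Bool} {w : D → ℕ} {d : D} {wd : List ℕ}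

/-- the next real dart of the mirror image -/
theorem mnxr (hα : ∀ d, S.real (S.M.α d) = S.real d) (hd : S.real d = true) :
    (mir S).nxr (S.M.α (S.nxr d)) = S.M.α d := by
  have e1 : S.real (S.M.σ d) = true → (mir S).M.σ (S.M.α (S.nxr d)) = S.M.α d := by
    intro h
    rw [mσ_iff, S.M.αα, S.M.αα]
    exact (if_pos h).symm
  have e2 : ¬ S.real (S.M.σ d) = true → (mir S).M.σ (S.M.α (S.nxr d)) = S.M.α (S.M.σ d) := by
    intro h
    rw [mσ_iff, S.M.αα, S.M.αα]
    exact (if_neg h).symm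
  have e3 : (mir S).M.σ (S.M.α (S.M.σ d)) = S.M.α d := by
    rw [mσ_iff, S.M.αα, S.M.αα]
  have hr : ∀ x, (mir S).real x = S.real x := fun _ => rfl
  by_cases h : S.real (S.M.σ d) = true
  · have h1 := e1 h
    unfold nxr
    rw [show (if S.real (S.M.σ d) = true then S.M.σ d else S.M.σ (S.M.σ d)) = S.nxr d from rfl, h1,
      hr, hα, if_pos hd]
  · have h1 := e2 h
    unfold nxr
    rw [show (if S.real (S.M.σ d) = true then S.M.σ d else S.M.σ (S.M.σ d)) = S.nxr d from rfl, h1,
      hr, hα, if_neg h, e3]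

section star

variable (hS : IsStar S) (W : Wf Δ S L w)

include hS W

theorem mnxr_iter (hd : S.real d = true) {n k : ℕ} (hk : k ≤ n) :
    (mir S).nxr^[k] (S.M.α (S.nxr^[n] d)) = S.M.α (S.nxr^[n - k] d) := by
  induction k with
  | zero => rfl
  | succ k ih =>
    rw [Function.iterate_succ_apply', ih (by omega)]
    obtain ⟨m, hm⟩ : ∃ m, n - k = m + 1 := ⟨n - k - 1, by omega⟩
    rw [hm, Function.iterate_succ_apply', mnxr W.real_α (hS.nxr_iter_real W hd m)]
    congr 2
    rw [show n - (k + 1) = m by omega]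

/-- the `i`-th real dart of the mirror image -/
theorem mnxr_rot (hd : S.real d = true) {i : ℕ} (hi : i ≤ S.rdeg (S.M.v d)) :
    (mir S).nxr^[i] (S.M.α d) = S.M.α (S.nxr^[S.rdeg (S.M.v d) - i] d) := by
  have h1 := mnxr_iter hS W hd hi
  rwa [hS.nxr_rdeg W hd] at h1

/-- the code of the mirror image of a sector -/
theorem IsL.mir {l : ℕ} (hd : S.real d = true) (h : IsL S L d l) (h11 : l.testBit 11 = false) :
    IsL (mir S) L (S.M.α (S.nxr d)) (mlt l (L (S.nxr d))) := by
  have hn := mnxr W.real_α hd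
  have hmn : mnx S (S.M.α d) = S.nxr d := by
    unfold mnx
    rw [if_pos (by rw [W.real_α]; exact hd)]
    rfl
  have ha : (FC7.mir S).u ((FC7.mir S).nxr (S.M.α (S.nxr d))) = S.u (S.nxr d) := by
    rw [hn]
    show S.u (mnx S (S.M.α d)) = _
    rw [hmn]
  by_cases hk : lK l = 0
  · have hl : mlt l (L (S.nxr d)) = mkl (lA l) (lC l) (lB l) 0 (L (S.nxr d)) (lO l) := if_pos hk
    obtain ⟨m1, m2, m3, m4, m5, m6⟩ := mkl_dec (lA_lt l) (lC_lt l) (lB_lt l)
      (show (0 : ℕ) < 4 by norm_num) (L (S.nxr d)) (lO l)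
    rw [hl]
    have r1 := h.solid hk
    have r2 := h.nxr_solid hk
    have e1 : (FC7.mir S).M.σ (S.M.α (S.nxr d)) = S.M.α d := by
      rw [mσ_iff, S.M.αα, S.M.αα, r2]
    have hrd : S.real (S.M.α d) = true := by rw [W.real_α]; exact hd
    have r3 : S.real (S.M.φ (S.M.σ d)) = true := hS.two (S.M.α d) hrd r1
    have r4 : S.M.φ (S.M.φ (S.M.σ d)) = S.M.α d := S.M.φ3 _
    have e2 : (FC7.mir S).M.φ (S.M.α d) = S.M.φ (S.M.σ d) := rfl
    refine ⟨?_, by rw [m1, ha]; exact h.a, by rw [m5, W.L_α], fun _ => ?_, fun _ => ?_,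
      fun _ _ => ?_, fun h => absurd m4 h⟩
    · unfold FC7.sk
      rw [if_pos m4]
      unfold St.IsL
      rw [if_pos rfl]
      show S.real ((FC7.mir S).M.σ (S.M.α (S.nxr d))) = true
      rw [e1]; exact hrd
    · rw [m2]
      show EqU (S.u (mnx S (S.M.α (S.M.α (S.nxr d))))) _
      rw [S.M.αα, r2]
      unfold mnx
      rw [if_pos r1, if_pos r3]
      exact h.c hk
    · rw [m3, e1, e2]
      show EqU (S.u (mnx S (S.M.φ (S.M.σ d)))) _
      unfold mnx
      rw [if_pos r3, r4, if_pos hrd]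
      exact h.b hk
    · rw [m6, e1, e2]
      exact h.o hk h11
  · have hl : mlt l (L (S.nxr d)) = mkl (lA l) (lB l) (lC l) (lK l) (L (S.nxr d)) false := if_neg hk
    obtain ⟨m1, m2, m3, m4, m5, m6⟩ := mkl_dec (lA_lt l) (lB_lt l) (lC_lt l) (lK_lt l)
      (L (S.nxr d)) false
    rw [hl]
    have r1 := h.gap hk
    have r2 := h.nxr_gap hk
    have e1 : (FC7.mir S).M.σ (S.M.α (S.nxr d)) = S.M.α (S.M.σ d) := by
      rw [mσ_iff, S.M.αα, S.M.αα, r2]
    have hk' : lK (mkl (lA l) (lB l) (lC l) (lK l) (L (S.nxr d)) false) ≠ 0 := by rw [m4]; exact hk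
    refine ⟨?_, by rw [m1, ha]; exact h.a, by rw [m5, W.L_α], fun h => absurd h hk',
      fun h => absurd h hk', fun h => absurd h hk', fun _ => ?_⟩
    · have hsk : FC7.sk (mkl (lA l) (lB l) (lC l) (lK l) (L (S.nxr d)) false) = FC7.sk l := by
        unfold FC7.sk
        rw [m4, m3]
      have h0 : FC7.sk l ≠ 0 := fun h0 => hk (sk_zero.1 h0)
      rw [hsk]
      have h1 := h.k
      unfold St.IsL at h1 ⊢
      rw [if_neg h0] at h1 ⊢
      have c1 : (nou (FC7.mir S)).real ((nou (FC7.mir S)).M.σ (S.M.α (S.nxr d))) =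
          S.real (S.M.σ d) := by
        show S.real ((FC7.mir S).M.σ (S.M.α (S.nxr d))) = _
        rw [e1, W.real_α]
      have c2 : (nou (FC7.mir S)).csz ((nou (FC7.mir S)).M.σ (S.M.α (S.nxr d))) =
          S.csz (S.M.σ d) := by
        show (FC7.mir S).csz ((FC7.mir S).M.σ (S.M.α (S.nxr d))) = _
        rw [e1, mr_csz]
        exact csz_congr (S.sc.iseqv.symm ((scα r1.1 _).2 (S.sc.iseqv.refl _)))
      rw [c1, c2]
      exact h1
    · rw [m2, e1, mr_fu hS W.real_α W.real_A, fu_α r1.1]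
      exact h.f hk

theorem IsW.mir (h : IsW S L d wd) (h11 : ∀ i < wd.length, (wd.getD i 0).testBit 11 = false) :
    IsW (mir S) L (S.M.α d) (mw wd) where
  re := by show S.real (S.M.α d) = true; rw [W.real_α]; exact h.re
  len := by
    rw [mw_length, h.len, mr_rdeg W.real_α]
    congr 1
    exact (TMap.mir_vα S.M d).symm
  l i hi := by
    rw [mw_length] at hi
    rw [mw_getD hi, mnxr_rot hS W h.re (by rw [← h.len]; exact hi.le), ← h.len]
    obtain ⟨m, hm⟩ : ∃ m, wd.length - i = m + 1 := ⟨wd.length - i - 1, by omega⟩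
    rw [hm, Function.iterate_succ_apply', show wd.length - 1 - i = m by omega]
    have e1 : L (S.nxr (S.nxr^[m] d)) = lS (wd.getD ((m + 1) % wd.length) 0) := by
      rw [← Function.iterate_succ_apply' S.nxr]
      by_cases h1 : m + 1 < wd.length
      · rw [Nat.mod_eq_of_lt h1]
        exact (h.l _ h1).s
      · have h2 : m + 1 = wd.length := by omega
        have h3 : S.nxr^[m.succ] d = d := by
          rw [Nat.succ_eq_add_one, h2, h.len]
          exact hS.nxr_rdeg W h.re
        rw [h3, h2, Nat.mod_self]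
        exact (h.l 0 (by omega)).s
    rw [← e1]
    exact IsL.mir hS W (hS.nxr_iter_real W h.re m) (h.l m (by omega)) (h11 m (by omega))

end star

end Pool.FC7
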