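import Pool.Agent.FC7.CfE
import Pool.Agent.FC7.MwA

/-! # Closed curves of length four through two adjacent vertices

`F4 S U`: closed curves of length four through the ends of a real dart with both ends in `U` have at
most one vertex on one side.  Consequences: heads of darts at the ends of two darts at one centre are
different (`F4.dist`). -/

open Finset

set_option linter.unusedSectionVars false

namespace Pool.FC7

open Pool.FC6 Pool.FC6.St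

section defs

variable {D V : Type} [Fintype D] [DecidableEq V]

/-- the closed curve of length four through the darts `e` at `v k` and `e'` at `v (α k)` has on the
side of `σ k` no vertex (two triangles) or one vertex, the head of `σ k` -/
def P4 (S : St D V) (k e e' : D) : Prop :=
  (e = S.M.σ k ∧ S.M.σ (S.M.σ e') = S.M.α k) ∨ (e = S.M.σ (S.M.σ k) ∧ S.M.σ e' = S.M.α k) ∨
  (e = S.M.σ (S.M.σ k) ∧ S.M.σ (S.M.σ e') = S.M.α k ∧ S.nd (S.M.α (S.M.σ k)) = 4)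

/-- closed curves of length four through two adjacent vertices of `U` have at most one vertex on one
side -/
def F4 (S : St D V) (U : V → Prop) : Prop :=
  ∀ k e e' r, S.real k = true → U (S.M.v k) → U (S.M.v (S.M.α k)) → S.M.v e = S.M.v k →
    S.M.v e' = S.M.v (S.M.α k) → S.M.v r = S.M.v (S.M.α e) →
    S.M.v (S.M.α r) = S.M.v (S.M.α e') → S.M.v (S.M.α e) ≠ S.M.v (S.M.α k) →
    S.M.v (S.M.α e') ≠ S.M.v k → P4 S k e e' ∨ P4 S (S.M.α k) e' e

/-- the darts `e`, `e'` at the heads of `k`, `k' = σ (σ k)`: both to the head of `σ k`, or to the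
fourth neighbour of this vertex -/
def E22 (S : St D V) (k k' e e' : D) : Prop :=
  k' = S.M.σ (S.M.σ k) ∧ ((S.M.σ e = S.M.α k ∧ e' = S.M.σ (S.M.α k')) ∨
    (S.M.σ (S.M.σ e) = S.M.α k ∧ e' = S.M.σ (S.M.σ (S.M.α k')) ∧
      S.nd (S.M.α (S.M.σ k)) = 4))

end defs

variable {D V : Type} [Fintype D] [DecidableEq V] {S : St D V} {U : V → Prop}

theorem F4.mono {U' : V → Prop} (h : F4 S U) (hU : ∀ x, U' x → U x) : F4 S U' :=
  fun k e e' r h1 h2 h3 => h k e e' r h1 (hU _ h2) (hU _ h3)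

section map

/-- the dart before `α k` has the same head as `σ k` -/
theorem hd_pre {k e : D} (h : S.M.σ e = S.M.α k) : S.M.v (S.M.α e) = S.M.v (S.M.α (S.M.σ k)) := by
  have h1 : S.M.φ (S.M.α e) = S.M.α k := h
  have h2 : S.M.φ (S.M.φ (S.M.α e)) = S.M.σ k := by rw [h1]; rfl
  have h3 : S.M.α e = S.M.φ (S.M.σ k) := by rw [← h2, S.M.φ3]
  rw [h3, S.M.vφ]

/-- the dart after `α (σ k)` has the same head as `k` -/
theorem hd_suc (k : D) : S.M.v (S.M.α (S.M.σ (S.M.α (S.M.σ k)))) = S.M.v (S.M.α k) := by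
  have h1 : S.M.σ (S.M.α (S.M.σ k)) = S.M.φ (S.M.σ k) := by
    show S.M.φ (S.M.α (S.M.α (S.M.σ k))) = _
    rw [S.M.αα]
  have h2 : S.M.σ k = S.M.φ (S.M.α k) := rfl
  rw [h1, ← S.M.vφ, h2, S.M.φ3]

/-- the rotation at the head of `σ k` -/
theorem rot_x (k : D) : S.M.σ (S.M.α (S.M.σ k)) = S.M.φ (S.M.σ k) := by
  show S.M.φ (S.M.α (S.M.α (S.M.σ k))) = _
  rw [S.M.αα]

/-- the second dart after `α (σ k)` -/
theorem hd_two {k e : D} (h : S.M.σ (S.M.σ e) = S.M.α k) :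
    S.M.v (S.M.α (S.M.σ (S.M.σ (S.M.α (S.M.σ k))))) = S.M.v (S.M.α e) := by
  have h1 : S.M.φ (S.M.α (S.M.σ e)) = S.M.α k := h
  have h2 : S.M.φ (S.M.φ (S.M.α (S.M.σ e))) = S.M.σ k := by rw [h1]; rfl
  have h3 : S.M.φ (S.M.σ k) = S.M.α (S.M.σ e) := by rw [← h2, S.M.φ3]
  rw [rot_x, h3]
  exact hd_suc e

/-- the dart from the head of `σ k` to the head of `σ (σ k)` -/
theorem hd_pre2 (k : D) : S.M.v (S.M.α (S.M.φ (S.M.σ (S.M.σ k)))) = S.M.v (S.M.α (S.M.σ k)) := by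
  rw [← S.M.vφ]
  show S.M.v (S.M.φ (S.M.φ (S.M.φ (S.M.α (S.M.σ k))))) = _
  rw [S.M.φ3]

/-- the fourth neighbour from the other side -/
theorem hd_four {k e : D} (h : S.M.σ (S.M.σ e) = S.M.α k) (h4 : S.nd (S.M.α (S.M.σ k)) = 4) :
    S.M.v (S.M.α (S.M.σ (S.M.σ (S.M.α (S.M.σ (S.M.σ k)))))) = S.M.v (S.M.α e) := by
  set g := S.M.α (S.M.σ k) with hg
  have p4 : S.M.σ^[4] g = g := by rw [← h4]; exact S.M.iter_card g
  have p4' : S.M.σ (S.M.σ (S.M.σ (S.M.σ g))) = g := p4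
  -- `e1 = σ e` is the dart before `α k`
  have a1 : S.M.φ (S.M.σ k) = S.M.α (S.M.σ e) := by
    have h1 : S.M.φ (S.M.α (S.M.σ e)) = S.M.α k := h
    have h2 : S.M.φ (S.M.φ (S.M.α (S.M.σ e))) = S.M.σ k := by rw [h1]; rfl
    rw [← h2, S.M.φ3]
  have a2 : S.M.σ g = S.M.α (S.M.σ e) := by rw [hg, rot_x, a1]
  -- `σ (σ g)` leads to the head of `e`
  have a3 : S.M.v (S.M.α (S.M.σ (S.M.σ g))) = S.M.v (S.M.α e) := by
    rw [a2]
    exact hd_suc e
  -- the other side: `σ (σ (σ g)) = α (φ k')`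
  have b1 : S.M.σ (S.M.α (S.M.φ (S.M.σ (S.M.σ k)))) = g := by
    have h1 : S.M.σ (S.M.α (S.M.φ (S.M.σ (S.M.σ k)))) = S.M.φ (S.M.φ (S.M.σ (S.M.σ k))) := by
      show S.M.φ (S.M.α (S.M.α _)) = _
      rw [S.M.αα]
    rw [h1]
    show S.M.φ (S.M.φ (S.M.φ (S.M.α (S.M.σ k)))) = g
    rw [S.M.φ3]
  have b2 : S.M.σ (S.M.σ (S.M.σ g)) = S.M.α (S.M.φ (S.M.σ (S.M.σ k))) :=
    S.M.σinj (p4'.trans b1.symm)
  -- `σ (σ (α k')) = φ (α (φ k'))`
  have c1 : S.M.σ (S.M.α (S.M.σ (S.M.σ k))) = S.M.φ (S.M.σ (S.M.σ k)) := by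
    show S.M.φ (S.M.α (S.M.α _)) = _
    rw [S.M.αα]
  have c2 : S.M.σ (S.M.σ (S.M.α (S.M.σ (S.M.σ k)))) = S.M.φ (S.M.σ (S.M.σ (S.M.σ g))) := by
    rw [c1, b2]; rfl
  rw [c2]
  have c3 : S.M.v (S.M.α (S.M.φ (S.M.σ (S.M.σ (S.M.σ g))))) =
      S.M.v (S.M.φ (S.M.φ (S.M.σ (S.M.σ (S.M.σ g))))) := (S.M.vφ _).symm
  rw [c3]
  have c4 : S.M.σ (S.M.σ (S.M.σ g)) = S.M.φ (S.M.α (S.M.σ (S.M.σ g))) := rfl
  rw [c4, S.M.φ3]
  exact a3

end map

/-- heads of darts at the ends of two nonconsecutive darts at a vertex -/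
theorem F4.dist (h : F4 S U) (hn : ∀ x, U x → S.N2 x) {k k' e e' : D} (hk : S.real k = true)
    (hk' : S.real k' = true) (hv : S.M.v k = S.M.v k') (hU : U (S.M.v k))
    (hy : U (S.M.v (S.M.α k))) (hy' : U (S.M.v (S.M.α k'))) (h1 : k ≠ k') (h2 : k' ≠ S.M.σ k)
    (h3 : k ≠ S.M.σ k') (he : S.M.v e = S.M.v (S.M.α k)) (he' : S.M.v e' = S.M.v (S.M.α k'))
    (hh : S.M.v (S.M.α e) = S.M.v (S.M.α e')) :
    S.M.v (S.M.α e) = S.M.v k ∨ E22 S k k' e e' ∨ E22 S k' k e' e := by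
  by_cases hm : S.M.v (S.M.α e) = S.M.v k
  · exact Or.inl hm
  · right
    have key := h k k' e e' hk hU hy hv.symm he he' hh.symm
      (fun h0 => h1 (hn _ hU _ _ rfl hv.symm h0.symm)) hm
    rcases key with (⟨a, b⟩ | ⟨a, b⟩ | ⟨a, b, c⟩) | (⟨a, b⟩ | ⟨a, b⟩ | ⟨a, b, c⟩)
    · exact absurd a h2
    · left
      refine ⟨a, Or.inl ⟨b, ?_⟩⟩
      refine hn _ hy' _ _ he' (S.M.vσ _) ?_
      rw [← hh, hd_pre b, a]
      exact (hd_suc (S.M.σ k)).symm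
    · left
      refine ⟨a, Or.inr ⟨b, ?_, c⟩⟩
      refine hn _ hy' _ _ he' ((S.M.vσ _).trans (S.M.vσ _)) ?_
      rw [← hh, a]
      exact (hd_four b c).symm
    · -- `e = σ (α k)`, `k = σ (σ k')`
      right
      have hkk : k = S.M.σ (S.M.σ k') := by rw [S.M.αα] at b; exact b.symm
      refine ⟨hkk, Or.inl ⟨?_, a⟩⟩
      obtain ⟨e0, h0⟩ := Function.Injective.surjective_of_finite (Equiv.refl D) S.M.σinj (S.M.α k')
      have h4 : S.M.v e0 = S.M.v (S.M.α k') := by rw [← S.M.vσ e0, h0]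
      rw [hn _ hy' _ _ he' h4 (by rw [← hh, a, hkk, hd_pre h0]; exact hd_suc (S.M.σ k')), h0]
    · exact absurd (by rw [S.M.αα] at b; exact b.symm) h3
    · right
      have hkk : k = S.M.σ (S.M.σ k') := by rw [S.M.αα] at b; exact b.symm
      have hx : S.M.v (S.M.α (S.M.σ (S.M.α k))) = S.M.v (S.M.α (S.M.σ k')) := by
        rw [hkk]; exact hd_suc (S.M.σ k')
      have hc : S.nd (S.M.α (S.M.σ k')) = 4 := by
        unfold St.nd at c ⊢
        rw [← hx]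
        exact c
      refine ⟨hkk, Or.inr ⟨?_, a, hc⟩⟩
      obtain ⟨e1, g1⟩ := Function.Injective.surjective_of_finite (Equiv.refl D) S.M.σinj (S.M.α k')
      obtain ⟨e0, h0⟩ := Function.Injective.surjective_of_finite (Equiv.refl D) S.M.σinj e1
      have h5 : S.M.σ (S.M.σ e0) = S.M.α k' := by rw [h0, g1]
      have h4 : S.M.v e0 = S.M.v (S.M.α k') := by rw [← S.M.vσ e0, ← S.M.vσ (S.M.σ e0), h5]
      rw [hn _ hy' _ _ he' h4 (by rw [← hh, a, hkk]; exact hd_four h5 hc), h5]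

end Pool.FC7
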