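import Pool.Agent.FC7.CfF

/-! # Configurations given by words: rules from closed curves of length four -/

open Finset

set_option linter.unusedSectionVars false

namespace Pool.FC7

open Pool.FC6 Pool.FC6.St

namespace Cf

variable (F : Cf) (bg : ℕ → Bool)

/-- exceptional pair of spokes at the heads of the spokes `k`, `k' = ρ (ρ k)` -/
def ex22 (k k' j j' : ℕ) : Bool :=
  decide (F.Z.Q.ρ (F.Z.Q.ρ k) = k') &&
    ((decide (F.Z.Q.ρ j = F.Z.Q.π k) && decide (j' = F.Z.Q.ρ (F.Z.Q.π k'))) ||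
    (F.Z.Q.rl j && !bg (F.Z.Q.ρ k) && decide (F.Z.Q.ρ (F.Z.Q.ρ j) = F.Z.Q.π k) &&
      decide (j' = F.Z.Q.ρ (F.Z.Q.ρ (F.Z.Q.π k')))))

/-- exceptional pair of spokes at the heads of the spokes `k`, `k'` of one centre -/
def exc (k k' j j' : ℕ) : Bool :=
  (decide (j = F.Z.Q.π k) && decide (j' = F.Z.Q.π k')) || F.ex22 bg k k' j j' ||
    F.ex22 bg k' k j' j

/-- nonconsecutive spokes -/
def nco (k k' : ℕ) : Bool := decide (F.Z.Q.ρ k ≠ k') && decide (F.Z.Q.ρ k' ≠ k)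

/-- the heads of the spokes `j`, `j'` are different by a rule; `bg i`: the head of the spoke `i` has
surely not exactly four darts -/
def rule4 (j j' : ℕ) : Bool :=
  (decide (F.Z.ca j = F.Z.ca j') && decide (j ≠ j')) ||
  ((F.Z.Q.rl j == F.Z.Q.rl j') &&
    ((decide (F.ad (F.Z.ca j) (F.Z.ca j') ≠ 0) &&
      !F.exa (F.ad (F.Z.ca j) (F.Z.ca j') - 1) j j') ||
    ((List.range F.Z.nc).any fun m => decide (F.ad m (F.Z.ca j) ≠ 0) &&
      decide (F.ad m (F.Z.ca j') ≠ 0) && decide (F.Z.ca j ≠ F.Z.ca j') &&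
      F.nco (F.ad m (F.Z.ca j) - 1) (F.ad m (F.Z.ca j') - 1) &&
      !F.exc bg (F.ad m (F.Z.ca j) - 1) (F.ad m (F.Z.ca j') - 1) j j')))

def chk4 : Bool :=
  allN F.Z.Q.ns fun j => allN F.Z.Q.ns fun j' => !F.SD j j' || F.rule4 bg j j'

/-- exceptional pair of spokes at the ends of the spoke `k` -/
def p4 (k j j' : ℕ) : Bool :=
  (decide (j = F.Z.Q.ρ k) && decide (F.Z.Q.ρ (F.Z.Q.ρ j') = F.Z.Q.π k)) ||
  (decide (j = F.Z.Q.ρ (F.Z.Q.ρ k)) && decide (F.Z.Q.ρ j' = F.Z.Q.π k)) ||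
  (F.Z.Q.rl j && F.Z.Q.rl j' && !bg (F.Z.Q.ρ k) && decide (j = F.Z.Q.ρ (F.Z.Q.ρ k)) &&
    decide (F.Z.Q.ρ (F.Z.Q.ρ j') = F.Z.Q.π k))

/-- no dart between the heads of the spokes `j`, `j'` at adjacent centres -/
def nadj (j j' : ℕ) : Bool :=
  decide (F.ad (F.Z.ca j) (F.Z.ca j') ≠ 0) &&
  decide (j ≠ F.ad (F.Z.ca j) (F.Z.ca j') - 1) &&
  decide (j' ≠ F.Z.Q.π (F.ad (F.Z.ca j) (F.Z.ca j') - 1)) &&
  !F.p4 bg (F.ad (F.Z.ca j) (F.Z.ca j') - 1) j j' &&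
  !F.p4 bg (F.Z.Q.π (F.ad (F.Z.ca j) (F.Z.ca j') - 1)) j' j

/-- the head of the spoke `i` is a centre without exactly four spokes, or a gap of length at least
five -/
def big (i : ℕ) : Bool :=
  (decide (F.Z.Q.π i ≠ i) && decide (F.Z.m (F.Z.ca (F.Z.Q.π i)) ≠ 4)) ||
  (F.ac (F.Z.ca i) && !F.Z.Q.rl i &&
    decide (5 ≤ (kin ((F.wd (F.Z.ca i)).map sk)).getD (i - F.Z.off (F.Z.ca i)) 0))

end Cf

variable {D V : Type} [Fintype D] [DecidableEq V] {Δ : ℕ} {S : St D V} {L : D → Bool}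
  {w : D → ℕ} {F : Cf} {d : ℕ → D} {bg : ℕ → Bool}

theorem nd_v {a b : D} (h : S.M.v a = S.M.v b) : S.nd a = S.nd b := by
  unfold St.nd
  rw [h]

/-- all neighbours of a vertex with four darts are alive -/
theorem nb_alive (hS : IsStar S) (W : Wf Δ S L w) {g g' : D} (h4 : S.nd g = 4)
    (hr : S.M.v g ∈ S.A → 4 ≤ S.rdeg (S.M.v g)) (hv : S.M.v g' = S.M.v g) :
    S.M.v (S.M.α g') ∈ S.A := by
  classical
  by_cases hA : S.M.v g ∈ S.A
  · have h5 := hr hA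
    have hreal : S.real g' = true := by
      by_contra hn
      have h6 : S.rdeg (S.M.v g) < S.nd g := by
        unfold St.rdeg St.nd
        rw [← Finset.card_filter]
        refine Finset.card_lt_card ?_
        rw [Finset.ssubset_iff_of_subset]
        · refine ⟨g', by simp [hv], ?_⟩
          simp [hn]
        · intro x hx
          rw [Finset.mem_filter] at hx ⊢
          exact ⟨hx.1, hx.2.1⟩
      omega
    exact W.real_A _ (by rw [W.real_α]; exact hreal)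
  · by_contra hB
    have key : ∀ x, S.real x = true → S.M.v x ∈ S.A ∧ S.M.v (S.M.α x) ∈ S.A := fun x hx =>
      ⟨W.real_A _ hx, W.real_A _ (by rw [W.real_α]; exact hx)⟩
    rcases hS.one g' with h1 | h1 | h1
    · exact hA (hv ▸ (key _ h1).1)
    · have := (key _ h1).1
      rw [S.M.vφ] at this
      exact hB this
    · have := (key _ h1).2
      rw [← S.M.vφ, S.M.φ3, hv] at this
      exact hA this

theorem Cf.big_ne (hF : F.chk = true) (hS : IsStar S) (W : Wf Δ S L w) (B : F.Base0 S L d)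
    {i : ℕ} (hi : i < F.Z.Q.ns) (h : F.big i = true) : S.nd (S.M.α (F.Z.io S d i)) ≠ 4 := by
  have H := B.hy hF hS W
  unfold Cf.big at h
  simp only [Bool.or_eq_true, Bool.and_eq_true, decide_eq_true_eq, Bool.not_eq_true'] at h
  rcases h with ⟨h1, h2⟩ | ⟨⟨h1, h2⟩, h3⟩
  · have hp := H.hC.Q.πlt i hi
    have hc := H.hC.calt _ hp
    rw [H.ioπ hi h1, nd_v (F.Z.v_io S d (F.Z.Q.π i)), H.nd _ hc]
    exact h2
  · have hc := H.hC.calt i hi
    have hr : S.real (F.Z.io S d i) = false := (H.rlj hi).trans h2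
    have hA : S.M.v (F.Z.io S d i) ∈ S.A := by
      rw [F.Z.v_io]; exact (H.hac _ hc).2 h1
    rw [← hS.csz_virt W hr hA]
    have hw := B.w _ hc h1
    have a1 := H.hC.lo i hi
    have a2 := H.hC.hi i hi
    have hlen : F.Z.m (F.Z.ca i) = (fl (F.wd (F.Z.ca i))).length := by
      have h5 := (Cf.chk_iff hF).2.2.1
      unfold Cf.chkW at h5
      rw [allN_iff] at h5
      have h6 := h5 _ hc
      rw [if_pos h1, Bool.and_eq_true, decide_eq_true_eq] at h6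
      exact h6.1
    have hj : i - F.Z.off (F.Z.ca i) < (fl (F.wd (F.Z.ca i))).length := by rw [← hlen]; omega
    have h4 := (hw.csz hS W hj hr).1
    unfold CL at h4
    have h5 : S.csz (F.Z.io S d i) = S.csz (S.M.σ^[i - F.Z.off (F.Z.ca i)] (d (F.Z.ca i))) := rfl
    rw [h5]
    split_ifs at h4 <;> omega

section rules

variable (hF : F.chk = true) (hS : IsStar S)
  (W : Wf Δ S L w) (B : F.Base0 S L d)
  (hbg : ∀ i < F.Z.Q.ns, bg i = true → S.nd (S.M.α (F.Z.io S d i)) ≠ 4)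
  (n2 : ∀ a < F.Z.nc, F.ac a = true → S.N2 (S.M.v (d a)))
  (f4 : F4 S fun x => ∃ a < F.Z.nc, F.ac a = true ∧ x = S.M.v (d a))
  (r4 : ∀ a < F.Z.nc, F.ac a = true → ∀ k, S.real k = true → S.M.v k = S.M.v (d a) →
    4 ≤ S.rdeg (S.M.v (S.M.α k)))

include hF hS W B hbg n2 f4 r4

/-- a neighbour of a centre with four darts has only alive neighbours -/
theorem nb_cen {a : ℕ} (ha : a < F.Z.nc) (hca : F.ac a = true) {k : D} (hk : S.M.v k = S.M.v (d a))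
    (h4 : S.nd (S.M.α k) = 4) {g' : D} (hv : S.M.v g' = S.M.v (S.M.α k)) :
    S.M.v (S.M.α g') ∈ S.A := by
  refine nb_alive hS W h4 (fun hA => ?_) hv
  have hr : S.real k = true := by
    by_contra hn
    have hka : S.M.v k ∈ S.A := by
      rw [hk]; exact ((B.hy hF hS W).hac a ha).2 hca
    exact hS.vhead W hka (by simpa using hn) hA
  exact r4 a ha hca k hr hk

/-- no dart between the heads -/
theorem Cf.nadj_no {j j' : ℕ} (hj : j < F.Z.Q.ns) (hj' : j' < F.Z.Q.ns)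
    (h : F.nadj bg j j' = true) (r : D) :
    ¬ (S.M.v r = S.M.v (S.M.α (F.Z.io S d j)) ∧ S.M.v (S.M.α r) = S.M.v (S.M.α (F.Z.io S d j'))) := by
  rintro ⟨e1, e2⟩
  have H := B.hy hF hS W
  unfold Cf.nadj at h
  simp only [Bool.and_eq_true, decide_eq_true_eq, Bool.not_eq_true'] at h
  obtain ⟨⟨⟨⟨h1, h2⟩, h3⟩, h4⟩, h5⟩ := h
  have ha := H.hC.calt j hj
  have hb := H.hC.calt j' hj'
  obtain ⟨a1, a2, c3, c4, c5, c6, c7⟩ := Cf.ad_ck hF ha hb h1
  generalize hk : F.ad (F.Z.ca j) (F.Z.ca j') - 1 = k at *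
  have hp := H.hC.Q.πlt k c3
  have hkr : S.real (F.Z.io S d k) = true := (H.rlj c3).trans c7
  have vk : S.M.v (F.Z.io S d k) = S.M.v (d (F.Z.ca j)) := by rw [F.Z.v_io, c4]
  have vαk : S.M.v (S.M.α (F.Z.io S d k)) = S.M.v (d (F.Z.ca j')) := by
    rw [H.ioπ c3 c6, F.Z.v_io, c5]
  have vj : S.M.v (F.Z.io S d j) = S.M.v (d (F.Z.ca j)) := F.Z.v_io S d j
  have vj' : S.M.v (F.Z.io S d j') = S.M.v (d (F.Z.ca j')) := F.Z.v_io S d j'
  have key := f4 (F.Z.io S d k) (F.Z.io S d j) (F.Z.io S d j') r hkr ⟨_, ha, a1, vk⟩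
    ⟨_, hb, a2, vαk⟩ (vj.trans vk.symm) (vj'.trans vαk.symm) e1 e2
    (fun h0 => h2 (H.inj1 hj c3 c4.symm (n2 _ ha a1 _ _ vj vk h0)))
    (fun h0 => h3 (H.inj1 hj' hp c5.symm (by
      rw [← H.ioπ c3 c6]
      exact n2 _ hb a2 _ _ vj' vαk (by rw [h0, S.M.αα]))))
  have hππ : F.Z.Q.π (F.Z.Q.π k) = k := H.hC.Q.ππ k c3
  -- general step
  have step : ∀ k j j' : ℕ, k < F.Z.Q.ns → j < F.Z.Q.ns → j' < F.Z.Q.ns → F.Z.Q.π k ≠ k →
      F.Z.ca k = F.Z.ca j → F.Z.ca (F.Z.Q.π k) = F.Z.ca j' → F.ac (F.Z.ca j) = true →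
      F.ac (F.Z.ca j') = true → P4 S (F.Z.io S d k) (F.Z.io S d j) (F.Z.io S d j') → F.p4 bg k j j' = true := by
    intro k j j' hk hj hj' hπ hc hc' ca cb hP
    have hp := H.hC.Q.πlt k hk
    have ha := H.hC.calt j hj
    have hb := H.hC.calt j' hj'
    have r1 := H.hC.Q.ρlt k hk
    have r2 := H.hC.Q.ρlt _ r1
    have r3 := H.hC.Q.ρlt j' hj'
    have r5 := H.hC.Q.ρlt _ r3
    have s1 := H.ioρ hk
    have s2 := H.ioρ r1
    have s3 := H.ioρ hj'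
    have s4 := H.ioρ r3
    have t1 : F.Z.ca (F.Z.Q.ρ k) = F.Z.ca j := (H.caρ hk).trans hc
    have t2 : F.Z.ca (F.Z.Q.ρ (F.Z.Q.ρ k)) = F.Z.ca j := (H.caρ r1).trans t1
    have t3 : F.Z.ca (F.Z.Q.ρ j') = F.Z.ca (F.Z.Q.π k) := (H.caρ hj').trans hc'.symm
    have t4 : F.Z.ca (F.Z.Q.ρ (F.Z.Q.ρ j')) = F.Z.ca (F.Z.Q.π k) := (H.caρ r3).trans t3
    have hα := H.ioπ hk hπ
    unfold Cf.p4
    simp only [Bool.or_eq_true, Bool.and_eq_true, decide_eq_true_eq, Bool.not_eq_true']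
    rcases hP with ⟨p, q⟩ | ⟨p, q⟩ | ⟨p, q, c⟩
    · rw [s1] at p
      rw [s3, s4, hα] at q
      exact Or.inl (Or.inl ⟨H.inj1 hj r1 t1.symm p, H.inj1 r5 hp t4 q⟩)
    · rw [s1, s2] at p
      rw [s3, hα] at q
      exact Or.inl (Or.inr ⟨H.inj1 hj r2 t2.symm p, H.inj1 r3 hp t3 q⟩)
    · right
      have vk : S.M.v (F.Z.io S d k) = S.M.v (d (F.Z.ca j)) := by rw [F.Z.v_io, hc]
      have vσ : S.M.v (S.M.σ (F.Z.io S d k)) = S.M.v (d (F.Z.ca j)) := (S.M.vσ _).trans vk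
      have nb : ∀ g', S.M.v g' = S.M.v (S.M.α (S.M.σ (F.Z.io S d k))) →
          S.M.v (S.M.α g') ∈ S.A := fun g' =>
        nb_cen hF hS W B hbg n2 f4 r4 ha ca vσ c
      -- the heads are alive
      have a1 : S.M.v (S.M.α (F.Z.io S d j')) ∈ S.A := by
        rw [← hd_two q]
        exact nb _ ((S.M.vσ _).trans (S.M.vσ _))
      have a2 : S.M.v (S.M.α (F.Z.io S d j)) ∈ S.A := by
        have h1 := nb _ (hd_pre2 (F.Z.io S d k))
        rw [S.M.αα, S.M.vφ] at h1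
        rw [p]; exact h1
      have b1 := (B.head hF hS W hj ca).1 a2
      have b2 := (B.head hF hS W hj' cb).1 a1
      have b3 : bg (F.Z.Q.ρ k) = false := by
        by_contra hn
        rw [s1] at c
        exact hbg _ r1 (by simpa using hn) c
      rw [s1, s2] at p
      rw [s3, s4, hα] at q
      exact ⟨⟨⟨⟨b1, b2⟩, b3⟩, H.inj1 hj r2 t2.symm p⟩, H.inj1 r5 hp t4 q⟩
  rcases key with hP | hP
  · rw [step k j j' c3 hj hj' c6 c4 c5 a1 a2 hP] at h4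
    exact absurd h4 (by decide)
  · rw [H.ioπ c3 c6] at hP
    rw [step (F.Z.Q.π k) j' j hp hj' hj (by rw [hππ]; exact c6.symm) c5
      (by rw [hππ]; exact c4) a2 a1 hP] at h5
    exact absurd h5 (by decide)

/-- exceptional pairs of spokes at the heads of `k`, `k' = ρ (ρ k)` -/
theorem Cf.ex22_of {k k' j j' : ℕ} (hk : k < F.Z.Q.ns) (hk' : k' < F.Z.Q.ns) (hj : j < F.Z.Q.ns)
    (hj' : j' < F.Z.Q.ns) (hπ : F.Z.Q.π k ≠ k) (hπ' : F.Z.Q.π k' ≠ k')
    (hm : F.Z.ca k = F.Z.ca k') (am : F.ac (F.Z.ca k) = true) (aj : F.ac (F.Z.ca j) = true)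
    (hc : F.Z.ca (F.Z.Q.π k) = F.Z.ca j)
    (hc' : F.Z.ca (F.Z.Q.π k') = F.Z.ca j')
    (hE : E22 S (F.Z.io S d k) (F.Z.io S d k') (F.Z.io S d j) (F.Z.io S d j')) :
    F.ex22 bg k k' j j' = true := by
  have H := B.hy hF hS W
  have hp := H.hC.Q.πlt k hk
  have hp' := H.hC.Q.πlt k' hk'
  have ha := H.hC.calt j hj
  have r1 := H.hC.Q.ρlt k hk
  have r2 := H.hC.Q.ρlt _ r1
  have r3 := H.hC.Q.ρlt j hj
  have r5 := H.hC.Q.ρlt _ r3
  have r6 := H.hC.Q.ρlt _ hp'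
  have r7 := H.hC.Q.ρlt _ r6
  have s1 := H.ioρ hk
  have s2 := H.ioρ r1
  have s3 := H.ioρ hj
  have s4 := H.ioρ r3
  have s5 := H.ioρ hp'
  have s6 := H.ioρ r6
  have t1 : F.Z.ca (F.Z.Q.ρ k) = F.Z.ca k := H.caρ hk
  have t2 : F.Z.ca (F.Z.Q.ρ (F.Z.Q.ρ k)) = F.Z.ca k := (H.caρ r1).trans t1
  have t3 : F.Z.ca (F.Z.Q.ρ j) = F.Z.ca (F.Z.Q.π k) := (H.caρ hj).trans hc.symm
  have t4 : F.Z.ca (F.Z.Q.ρ (F.Z.Q.ρ j)) = F.Z.ca (F.Z.Q.π k) := (H.caρ r3).trans t3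
  have t5 : F.Z.ca (F.Z.Q.ρ (F.Z.Q.π k')) = F.Z.ca j' := (H.caρ hp').trans hc'
  have t6 : F.Z.ca (F.Z.Q.ρ (F.Z.Q.ρ (F.Z.Q.π k'))) = F.Z.ca j' := (H.caρ r6).trans t5
  have hα := H.ioπ hk hπ
  have hα' := H.ioπ hk' hπ'
  unfold Cf.ex22
  simp only [Bool.or_eq_true, Bool.and_eq_true, decide_eq_true_eq, Bool.not_eq_true']
  obtain ⟨p, q⟩ := hE
  have p' := p
  rw [s1, s2] at p
  refine ⟨H.inj1 r2 hk' (t2.trans hm) p.symm, ?_⟩
  rcases q with ⟨q1, q2⟩ | ⟨q1, q2, c⟩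
  · rw [s3, hα] at q1
    rw [hα', s5] at q2
    exact Or.inl ⟨H.inj1 r3 hp t3 q1, H.inj1 hj' r6 t5.symm q2⟩
  · right
    have hm1 := H.hC.calt k hk
    have vσ : S.M.v (S.M.σ (F.Z.io S d k)) = S.M.v (d (F.Z.ca k)) :=
      (S.M.vσ _).trans (F.Z.v_io S d k)
    have a1 : S.M.v (S.M.α (F.Z.io S d j)) ∈ S.A := by
      rw [← hd_two q1]
      exact nb_cen hF hS W B hbg n2 f4 r4 hm1 am vσ c ((S.M.vσ _).trans (S.M.vσ _))
    have b1 := (B.head hF hS W hj aj).1 a1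
    have b3 : bg (F.Z.Q.ρ k) = false := by
      by_contra hn
      rw [s1] at c
      exact hbg _ r1 (by simpa using hn) c
    rw [s3, s4, hα] at q1
    rw [hα', s5, s6] at q2
    exact ⟨⟨⟨b1, b3⟩, H.inj1 r5 hp t4 q1⟩, H.inj1 hj' r7 t6.symm q2⟩

/-- from the rules to the different heads -/
theorem Cf.Base0.base4
    (fr : ∀ a < F.Z.nc, F.ac a = true → ∀ k, S.real k = true → S.M.v k = S.M.v (d a) → FcR S k)
    (fh : ∀ a < F.Z.nc, F.ac a = true → ∀ k, S.real k = true → S.M.v k = S.M.v (d a) → FcH S k)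
    (hR : F.chk4 bg = true) : F.Base S L d := by
  have H := B.hy hF hS W
  refine ⟨B, fun j hj j' hj' hacj hacj' hsd he => ?_⟩
  unfold Cf.chk4 at hR
  rw [allN_iff] at hR
  have h1 := hR j hj
  rw [allN_iff] at h1
  have h2 := h1 j' hj'
  rw [hsd, Bool.not_true, Bool.false_or] at h2
  have ha := H.hC.calt j hj
  have hb := H.hC.calt j' hj'
  unfold Cf.rule4 at h2
  simp only [Bool.or_eq_true, Bool.and_eq_true, decide_eq_true_eq, beq_iff_eq,
    List.any_eq_true, List.mem_range, Bool.not_eq_true'] at h2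
  rcases h2 with ⟨h3, h4⟩ | ⟨h3, h4⟩
  · apply h4
    refine H.inj1 hj hj' h3 ?_
    exact n2 _ ha hacj _ _ (F.Z.v_io S d j) (by rw [F.Z.v_io, h3]) he
  · rcases h4 with ⟨k1, k3⟩ | ⟨m, hm, ⟨⟨⟨k1, k2⟩, k3⟩, k4⟩, k5⟩
    · obtain ⟨c1, c2, c3, c4, c5, c6, c7⟩ := Cf.ad_ck hF ha hb k1
      have hvj : S.M.v (F.Z.io S d j) = S.M.v (F.Z.io S d (F.ad (F.Z.ca j) (F.Z.ca j') - 1)) := by
        rw [F.Z.v_io, F.Z.v_io, c4]
      have hvj' : S.M.v (F.Z.io S d j') =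
          S.M.v (S.M.α (F.Z.io S d (F.ad (F.Z.ca j) (F.Z.ca j') - 1))) := by
        rw [H.ioπ c3 c6, F.Z.v_io, F.Z.v_io, c5]
      have hkr : S.real (F.Z.io S d (F.ad (F.Z.ca j) (F.Z.ca j') - 1)) = true :=
        (H.rlj c3).trans c7
      have hkv : S.M.v (F.Z.io S d (F.ad (F.Z.ca j) (F.Z.ca j') - 1)) = S.M.v (d (F.Z.ca j)) := by
        rw [F.Z.v_io, c4]
      have hex := H.exa c3 c6 hj hj' c4 c5
      have r1 := H.rlj hj
      have r2 := H.rlj hj'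
      cases hrl : F.Z.Q.rl j
      · rw [hrl] at r1 h3
        rw [← h3] at r2
        rw [hex (fh _ ha hacj _ hkr hkv _ _ r1 r2 hvj hvj' he)] at k3
        exact absurd k3 (by decide)
      · rw [hrl] at r1 h3
        rw [← h3] at r2
        rw [hex (fr _ ha hacj _ hkr hkv _ _ r1 r2 hvj hvj' he)] at k3
        exact absurd k3 (by decide)
    · obtain ⟨c1, c2, c3, c4, c5, c6, c7⟩ := Cf.ad_ck hF hm ha k1
      obtain ⟨g1, g2, g3, g4, g5, g6, g7⟩ := Cf.ad_ck hF hm hb k2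
      generalize hk : F.ad m (F.Z.ca j) - 1 = k at *
      generalize hk' : F.ad m (F.Z.ca j') - 1 = k' at *
      have hvj : S.M.v (F.Z.io S d j) = S.M.v (S.M.α (F.Z.io S d k)) := by
        rw [H.ioπ c3 c6, F.Z.v_io, F.Z.v_io, c5]
      have hvj' : S.M.v (F.Z.io S d j') = S.M.v (S.M.α (F.Z.io S d k')) := by
        rw [H.ioπ g3 g6, F.Z.v_io, F.Z.v_io, g5]
      have hkk : S.M.v (F.Z.io S d k) = S.M.v (F.Z.io S d k') := by
        rw [F.Z.v_io, F.Z.v_io, c4, g4]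
      have hca : F.Z.ca k = F.Z.ca k' := c4.trans g4.symm
      have hp := H.hC.Q.πlt k c3
      have hp' := H.hC.Q.πlt k' g3
      have hkr : S.real (F.Z.io S d k) = true := (H.rlj c3).trans c7
      have hkr' : S.real (F.Z.io S d k') = true := (H.rlj g3).trans g7
      have vm : S.M.v (F.Z.io S d k) = S.M.v (d m) := by rw [F.Z.v_io, c4]
      have hne : k ≠ k' := by
        rintro rfl
        exact k3 (by rw [← c5, ← g5])
      unfold Cf.nco at k4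
      rw [Bool.and_eq_true, decide_eq_true_eq, decide_eq_true_eq] at k4
      have hU : ∀ x, (∃ a < F.Z.nc, F.ac a = true ∧ x = S.M.v (d a)) → S.N2 x := by
        rintro x ⟨a, ha, ha', rfl⟩
        exact n2 a ha ha'
      have key := f4.dist hU hkr hkr' hkk ⟨m, hm, c1, vm⟩
        ⟨_, ha, c2, by rw [← hvj, F.Z.v_io]⟩ ⟨_, hb, g2, by rw [← hvj', F.Z.v_io]⟩
        (fun h0 => hne (H.inj1 c3 g3 hca h0))
        (fun h0 => k4.1 (by
          rw [H.ioρ c3] at h0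
          exact H.inj1 (H.hC.Q.ρlt _ c3) g3 ((H.caρ c3).trans hca) h0.symm))
        (fun h0 => k4.2 (by
          rw [H.ioρ g3] at h0
          exact H.inj1 (H.hC.Q.ρlt _ g3) c3 ((H.caρ g3).trans hca.symm) h0.symm))
        hvj hvj' he
      unfold Cf.exc at k5
      rw [Bool.or_eq_false_iff, Bool.or_eq_false_iff] at k5
      obtain ⟨⟨k6, k7⟩, k8⟩ := k5
      rcases key with h5 | h5 | h5
      · -- both heads are `m`
        have hNa := n2 _ ha hacj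
        have s1 : F.Z.io S d j = S.M.α (F.Z.io S d k) :=
          hNa _ _ (F.Z.v_io S d j) (by rw [H.ioπ c3 c6, F.Z.v_io, c5]) (by rw [S.M.αα]; exact h5)
        have s2 : F.Z.io S d j' = S.M.α (F.Z.io S d k') :=
          n2 _ hb hacj' _ _ (F.Z.v_io S d j') (by rw [H.ioπ g3 g6, F.Z.v_io, g5])
            (by rw [S.M.αα, ← he, h5, hkk])
        rw [H.ioπ c3 c6] at s1
        rw [H.ioπ g3 g6] at s2
        have s3 := H.inj1 hj hp (by rw [c5]) s1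
        have s4 := H.inj1 hj' hp' (by rw [g5]) s2
        rw [decide_eq_true s3, decide_eq_true s4] at k6
        exact absurd k6 (by decide)
      · rw [Cf.ex22_of hF hS W B hbg n2 f4 r4 c3 g3 hj hj' c6 g6 hca (by rw [c4]; exact c1) c2
          c5 g5 h5] at k7
        exact absurd k7 (by decide)
      · rw [Cf.ex22_of hF hS W B hbg n2 f4 r4 g3 c3 hj' hj g6 c6 hca.symm (by rw [g4]; exact g1) g2
          g5 c5 h5] at k8
        exact absurd k8 (by decide)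

end rules

end Pool.FC7
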