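import Pool.Agent.FC7.CfG

/-! # Heads of spokes seen from two adjacent centres -/

open Finset

set_option linter.unusedSectionVars false

namespace Pool.FC7

open Pool.FC6 Pool.FC6.St

/-- the property `bg` of the head of the spoke `i`, also if it is known at an adjacent centre -/
def Cf.bgx (F : Cf) (bg : ℕ → Bool) (i : ℕ) : Bool :=
  bg i || (decide (F.Z.Q.π (F.Z.Q.ρi i) ≠ F.Z.Q.ρi i) && bg (F.Z.Q.ρi (F.Z.Q.π (F.Z.Q.ρi i)))) ||
    (decide (F.Z.Q.π (F.Z.Q.ρ i) ≠ F.Z.Q.ρ i) && bg (F.Z.Q.ρ (F.Z.Q.π (F.Z.Q.ρ i))))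

variable {D V : Type} [Fintype D] [DecidableEq V] {S : St D V} {F : Cf} {d : ℕ → D}
  {bg : ℕ → Bool}

theorem Cf.Hy.bgx (H : F.Hy S d)
    (hbg : ∀ i < F.Z.Q.ns, bg i = true → S.nd (S.M.α (F.Z.io S d i)) ≠ 4) :
    ∀ i < F.Z.Q.ns, F.bgx bg i = true → S.nd (S.M.α (F.Z.io S d i)) ≠ 4 := by
  intro i hi h
  unfold Cf.bgx at h
  simp only [Bool.or_eq_true, Bool.and_eq_true, decide_eq_true_eq] at h
  rcases h with (h | ⟨h1, h2⟩) | ⟨h1, h2⟩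
  · exact hbg i hi h
  · -- the spoke before `i` leads to an adjacent centre
    have p1 := H.hC.Q.ρilt i hi
    have p2 := H.hC.Q.πlt _ p1
    have p3 := H.hC.Q.ρilt _ p2
    have h3 := hbg _ p3 h2
    have e1 := H.ioρ p1
    rw [H.hC.Q.ρρi i hi] at e1
    have e2 := H.ioπ p1 h1
    have e3 := H.ioρ p3
    rw [H.hC.Q.ρρi _ p2, ← e2] at e3
    -- `σ z = α y` and `σ y = x`: the heads of `z` and `x` are equal
    rwa [nd_v (show S.M.v (S.M.α (F.Z.io S d (F.Z.Q.ρi (F.Z.Q.π (F.Z.Q.ρi i))))) =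
      S.M.v (S.M.α (F.Z.io S d i)) by rw [← e1]; exact hd_pre e3)] at h3
  · have p1 := H.hC.Q.ρlt i hi
    have p2 := H.hC.Q.πlt _ p1
    have p3 := H.hC.Q.ρlt _ p2
    have h3 := hbg _ p3 h2
    have e1 := H.ioρ hi
    have e2 := H.ioπ p1 h1
    have e3 := H.ioρ p2
    rw [← e2, ← e1] at e3
    rwa [nd_v (show S.M.v (S.M.α (F.Z.io S d (F.Z.Q.ρ (F.Z.Q.π (F.Z.Q.ρ i))))) =
      S.M.v (S.M.α (F.Z.io S d i)) by rw [← e3]; exact hd_suc _)] at h3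

end Pool.FC7
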