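import Pool.Agent.FC7.UpC
import Pool.Agent.FC7.MwA
import Pool.Agent.FC7.CvA

/-! # Classification: the units and labels of a sector in a minimal counterexample -/

open Finset

set_option linter.unusedSectionVars false

namespace Pool.FC7

open Pool.FC6 Pool.FC6.St

variable {D V : Type} [Fintype D] [DecidableEq V] {Δ : ℕ} {S : St D V} {L : D → Bool}
  {w : D → ℕ} {d e : D}

/-- every face has at least three real darts -/
theorem MC.csz3 (hΔ : Δ ≤ 6) (h : MC Δ S L w) (hS : IsStar S) (e : D) : 3 ≤ S.csz e := by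
  have g := (h.rg hΔ).toGd
  have key : ∀ x, S.real x = true → 3 ≤ S.csz x := fun x hx =>
    csz_ge3 (h.rg hΔ).sim (fun y hy => h.rdeg4 hΔ hy) g hx
  have hc : ∀ x, S.csz (S.M.φ x) = S.csz x := fun x =>
    (csz_congr ((scφ x x).2 (S.sc.iseqv.refl _))).symm
  rcases hS.one e with h1 | h1 | h1
  · exact key e h1
  · rw [← hc e]; exact key _ h1
  · rw [← hc e, ← hc (S.M.φ e)]; exact key _ h1

/-- the weight of a vertex -/
theorem rdeg_u_le (S : St D V) (w : D → ℕ) (e : D) :
    S.rdeg (S.M.v e) + S.u e ≤ wt S w (S.M.v e) := by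
  classical
  have h1 : S.u e = ∑ x, if x = e then S.u e else 0 := by
    rw [Finset.sum_ite_eq' Finset.univ e, if_pos (Finset.mem_univ _)]
  have h2 : S.rdeg (S.M.v e) + ∑ x, (if x = e then S.u e else 0) =
      ∑ x, ((if S.M.v x = S.M.v e ∧ S.real x = true then 1 else 0) +
        if x = e then S.u e else 0) := by
    rw [Finset.sum_add_distrib]
    rfl
  rw [h1, h2]
  unfold wt
  refine Finset.sum_le_sum fun x _ => ?_
  by_cases hx : S.M.v x = S.M.v e
  · rw [if_pos hx]
    by_cases hr : S.real x = true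
    · rw [if_pos ⟨hx, hr⟩, if_pos hr]
      by_cases he : x = e
      · rw [if_pos he, he]; omega
      · rw [if_neg he]; omega
    · rw [if_neg (fun h => hr h.2), if_neg hr]
      by_cases he : x = e
      · rw [if_pos he, he]; omega
      · rw [if_neg he]; omega
  · rw [if_neg (fun h => hx h.1), if_neg hx, if_neg (fun h => hx (by rw [h]))]

theorem MC.u_lt (hΔ : Δ ≤ 6) (h : MC Δ S L w) (hS : IsStar S) (e : D) : S.u e < 3 := by
  by_contra hu
  push Not at hu
  have hr : S.real e = true := hS.ur e (by omega)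
  have hA := h.ok.real_A _ hr
  have h1 := rdeg_u_le S w e
  have h2 : wt S w (S.M.v e) ≤ Δ := h.ok.deg _ hA
  have h3 := h.rdeg4 hΔ hA
  omega

/-- the exact word of a real dart -/
theorem MC.isW (hΔ : Δ ≤ 6) (h : MC Δ S L w) (hS : IsStar S) (hd : S.real d = true) :
    IsW S L d (word S L d) :=
  isW_word hS h.ok.toWf hd (h.u_lt hΔ hS) (h.csz3 hΔ hS)

/-- a face has no, two or three units -/
theorem MC.fu023 (hΔ : Δ ≤ 6) (h : MC Δ S L w) (e : D) : fu S e = 0 ∨ fu S e = 2 ∨ fu S e = 3 := by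
  classical
  by_cases h1 : ∃ x, S.sc.r e x ∧ S.u x ≠ 0
  · obtain ⟨x, h1, h2⟩ := h1
    rw [fu_congr h1]
    exact Or.inr (h.fu23 hΔ h2)
  · left
    push Not at h1
    unfold fu
    refine Finset.sum_eq_zero fun x _ => ?_
    by_cases hs : S.sc.r e x
    · rw [if_pos hs]; exact h1 x hs
    · rw [if_neg hs]

/-- a face with two units: two corners which are not neighbours -/
theorem MC.two (h : MC Δ S L w) (hf : fu S e = 2) : Two S e := by
  classical
  have h1 : ∃ x, S.sc.r e x ∧ S.u x ≠ 0 := by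
    by_contra hno
    push Not at hno
    unfold fu at hf
    rw [Finset.sum_eq_zero] at hf
    · omega
    · intro x _
      by_cases hs : S.sc.r e x
      · rw [if_pos hs]; exact hno x hs
      · rw [if_neg hs]
  obtain ⟨x, h1, h2⟩ := h1
  rcases h.ok.thr x h2 with h3 | ⟨a, b, a1, a2, a3, a4, a5, a6⟩
  · rw [← fu_congr h1] at h3; omega
  · exact ⟨a, b, S.sc.iseqv.trans h1 a1, S.sc.iseqv.trans h1 a2, a3, a4, a5, fun r hr hs =>
      a6 r hr (S.sc.iseqv.trans (S.sc.iseqv.symm h1) hs)⟩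

/-- in a face with two units all corners have at most one unit; the unit corners are not
neighbours -/
theorem MC.two_u (h : MC Δ S L w) (hf : fu S e = 2) {a b : D} (ha : S.sc.r e a)
    (hb : S.sc.r e b) : S.u a ≤ 1 ∧ (a ≠ b → S.u a ≠ 0 → S.u b ≠ 0 → ∀ r, S.real r = true →
      S.sc.r e r → ¬ (S.M.v r = S.M.v a ∧ S.M.v (S.M.α r) = S.M.v b)) := by
  classical
  obtain ⟨x, y, a1, a2, a3, a4, a5, a6⟩ := h.two hf
  have hne : x ≠ y := fun hh => a5 (by rw [hh])
  have key : ∀ z, S.sc.r e z → z ≠ x → z ≠ y → S.u z = 0 := by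
    intro z hz n1 n2
    have h1 : ∑ t ∈ {x, y, z}, (if S.sc.r e t then S.u t else 0) ≤ fu S e :=
      Finset.sum_le_sum_of_subset (Finset.subset_univ _)
    rw [Finset.sum_insert, Finset.sum_pair (Ne.symm n2), if_pos a1, if_pos a2, if_pos hz] at h1
    · omega
    · rw [Finset.mem_insert, Finset.mem_singleton]
      push Not
      exact ⟨hne, Ne.symm n1⟩
  have h1 : ∑ t ∈ {x, y}, (if S.sc.r e t then S.u t else 0) ≤ fu S e :=
    Finset.sum_le_sum_of_subset (Finset.subset_univ _)
  rw [Finset.sum_pair hne, if_pos a1, if_pos a2] at h1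
  refine ⟨?_, fun hab ua ub r hr hs => ?_⟩
  · by_cases n1 : a = x
    · rw [n1]; omega
    · by_cases n2 : a = y
      · rw [n2]; omega
      · rw [key a ha n1 n2]; omega
  · have c1 : a = x ∨ a = y := by
      by_contra hc
      push Not at hc
      exact ua (key a ha hc.1 hc.2)
    have c2 : b = x ∨ b = y := by
      by_contra hc
      push Not at hc
      exact ub (key b hb hc.1 hc.2)
    have h2 := a6 r hr hs
    rcases c1 with rfl | rfl <;> rcases c2 with rfl | rfl
    · exact absurd rfl hab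
    · exact h2.1
    · exact h2.2
    · exact absurd rfl hab

/-- the units of a solid triangle -/
theorem MC.solid_u (hΔ : Δ ≤ 6) (h : MC Δ S L w) (hS : IsStar S) (hd : S.real d = true)
    (h1 : S.real (S.M.σ d) = true) :
    S.u (S.M.σ d) + S.u (S.M.α d) + S.u (S.M.φ (S.M.σ d)) = fu S (S.M.α d) ∧
      (fu S (S.M.α d) = 0 ∨ fu S (S.M.α d) = 3) := by
  classical
  have hr : S.real (S.M.α d) = true := by rw [h.ok.real_α]; exact hd
  have h2 : S.real (S.M.φ (S.M.α d)) = true := h1
  have e1 := fu_solid hS hr h2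
  have e2 : S.M.φ (S.M.φ (S.M.α d)) = S.M.φ (S.M.σ d) := rfl
  have e3 : S.M.φ (S.M.α d) = S.M.σ d := rfl
  rw [e2, e3] at e1
  refine ⟨by omega, ?_⟩
  rcases h.fu023 hΔ (S.M.α d) with h3 | h3 | h3
  · exact Or.inl h3
  · exfalso
    obtain ⟨x, y, a1, a2, a3, a4, a5, a6⟩ := h.two h3
    have hs := rds_solid hS hr h2
    have mem : ∀ z, S.sc.r (S.M.α d) z → S.u z ≠ 0 → z = S.M.α d ∨ z = S.M.φ (S.M.α d) ∨
        z = S.M.φ (S.M.φ (S.M.α d)) := by
      intro z h4 h5
      have h6 : z ∈ rds S (S.M.α d) := (mem_rds).2 ⟨hS.ur z h5, h4⟩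
      rw [hs, Finset.mem_insert, Finset.mem_insert, Finset.mem_singleton] at h6
      exact h6
    have hadj : S.M.φ x = y ∨ S.M.φ y = x := by
      have hne : x ≠ y := fun hh => a5 (by rw [hh])
      rcases mem x a1 a3 with rfl | rfl | rfl <;> rcases mem y a2 a4 with rfl | rfl | rfl
      · exact absurd rfl hne
      · exact Or.inl rfl
      · exact Or.inr (S.M.φ3 _)
      · exact Or.inr rfl
      · exact absurd rfl hne
      · exact Or.inl rfl
      · exact Or.inl (S.M.φ3 _)
      · exact Or.inr rfl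
      · exact absurd rfl hne
    rcases hadj with h4 | h4
    · exact (a6 x (hS.ur x a3) a1).1 ⟨rfl, by rw [← h4, S.M.vφ]⟩
    · exact (a6 y (hS.ur y a4) a2).2 ⟨rfl, by rw [← h4, S.M.vφ]⟩
  · exact Or.inr h3

end Pool.FC7
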