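import Pool.Agent.FC7.CfB

/-! # Sums over the real darts at a vertex with a word -/

open Finset

set_option linter.unusedSectionVars false

namespace Pool.FC7

open Pool.FC6 Pool.FC6.St

variable {D V : Type} [Fintype D] [DecidableEq V] {Δ : ℕ} {S : St D V} {L : D → Bool}
  {w : D → ℕ} {e : D} {wd : List ℕ}

/-- the degree given by a word -/
def dgw (wd : List ℕ) : ℕ := (wd.map fun l => 1 + lA l + if lS l then 1 else 0).sum

/-- the units at the vertex are known -/
def nu3 (wd : List ℕ) : Bool := wd.all fun l => decide (lA l ≠ 3)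

theorem IsW.inj (hS : IsStar S) (W : Wf Δ S L w) (h : IsW S L e wd) {i j : ℕ}
    (hi : i < wd.length) (hj : j < wd.length) (he : S.nxr^[i] e = S.nxr^[j] e) : i = j := by
  have key : ∀ i j : ℕ, i < j → j < wd.length → S.nxr^[i] e ≠ S.nxr^[j] e := by
    intro i j hij hj he
    rw [nxr_pos h (by omega), nxr_pos h (by omega)] at he
    have h1 := pos_lt hij (le_of_lt hj)
    have h2 := pos_lt hj (le_refl _)
    rw [pos_length] at h2
    rw [show pos wd j = pos wd i + (pos wd j - pos wd i) by omega,
      Function.iterate_add_apply] at he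
    exact h.ne hS W (show 0 < pos wd j - pos wd i by omega) (by omega)
      (Function.Injective.iterate S.M.σinj _ he).symm
  rcases Nat.lt_trichotomy i j with h1 | h1 | h1
  · exact absurd he (key i j h1 hj)
  · exact h1
  · exact absurd he.symm (key j i h1 hi)

/-- sum over the real darts at a vertex -/
theorem IsW.sum (hS : IsStar S) (W : Wf Δ S L w) (h : IsW S L e wd) (F : D → ℕ) :
    (∑ x, if S.M.v x = S.M.v e ∧ S.real x = true then F x else 0) =
      ∑ i ∈ Finset.range wd.length, F (S.nxr^[i] e) := by
  classical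
  have h1 : (Finset.range wd.length).image (fun i => S.nxr^[i] e) =
      Finset.univ.filter fun x => S.M.v x = S.M.v e ∧ S.real x = true := by
    refine Finset.eq_of_subset_of_card_le (fun x hx => ?_) ?_
    · rw [Finset.mem_image] at hx
      obtain ⟨i, -, rfl⟩ := hx
      rw [Finset.mem_filter]
      exact ⟨Finset.mem_univ _, v_nxr_iter i e, hS.nxr_iter_real W h.re i⟩
    · rw [Finset.card_image_of_injOn, Finset.card_range, h.len]
      · unfold St.rdeg
        rw [Finset.card_filter]
      · intro i hi j hj he
        exact h.inj hS W (Finset.mem_range.1 (Finset.mem_coe.1 hi))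
          (Finset.mem_range.1 (Finset.mem_coe.1 hj)) he
  rw [← Finset.sum_filter, ← h1, Finset.sum_image]
  intro i hi j hj he
  exact h.inj hS W (Finset.mem_range.1 (Finset.mem_coe.1 hi))
    (Finset.mem_range.1 (Finset.mem_coe.1 hj)) he

theorem sum_getD (F : ℕ → ℕ) (wd : List ℕ) :
    (∑ i ∈ Finset.range wd.length, F (wd.getD i 0)) = (wd.map F).sum := by
  induction wd with
  | nil => rfl
  | cons a t ih =>
    rw [List.length_cons, Finset.sum_range_succ', List.map_cons, List.sum_cons]
    simp only [List.getD_cons_succ, List.getD_cons_zero]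
    rw [ih, Nat.add_comm]

/-- the degree of a vertex with a word -/
theorem IsW.deg (hS : IsStar S) (W : Wf Δ S L w) (w1 : W1 L w) (h : IsW S L e wd)
    (h3 : nu3 wd = true) :
    (∑ x, if S.M.v x = S.M.v e then (if S.real x = true then 1 else 0) + S.u x + w x else 0) =
      dgw wd := by
  have e1 : ∀ x, (if S.M.v x = S.M.v e then (if S.real x = true then 1 else 0) + S.u x + w x
      else 0) = if S.M.v x = S.M.v e ∧ S.real x = true then 1 + S.u x + w x else 0 := by
    intro x
    by_cases h1 : S.M.v x = S.M.v e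
    · by_cases h2 : S.real x = true
      · rw [if_pos h1, if_pos h2, if_pos ⟨h1, h2⟩]
      · rw [if_pos h1, if_neg h2, if_neg (fun h => h2 h.2), w1]
        have h4 : S.u x = 0 := by
          by_contra hu
          exact h2 (hS.ur x hu)
        have h5 : ¬ L x = true := fun hL => h2 (W.L_real x hL)
        rw [h4, if_neg h5]
    · rw [if_neg h1, if_neg (fun h => h1 h.1)]
  rw [Finset.sum_congr rfl fun x _ => e1 x, h.sum hS W]
  have e2 : ∀ n, (∑ i ∈ Finset.range n, (1 + S.u (S.nxr^[i] e) + w (S.nxr^[i] e))) +
      S.u (S.nxr^[n] e) = S.u e + ∑ i ∈ Finset.range n,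
        (1 + S.u (S.nxr^[i + 1] e) + w (S.nxr^[i] e)) := by
    intro n
    induction n with
    | zero => simp
    | succ n ih =>
      rw [Finset.sum_range_succ, Finset.sum_range_succ]
      have : (∑ i ∈ Finset.range n, (1 + S.u (S.nxr^[i] e) + w (S.nxr^[i] e))) +
          (1 + S.u (S.nxr^[n] e) + w (S.nxr^[n] e)) + S.u (S.nxr^[n + 1] e) =
          ((∑ i ∈ Finset.range n, (1 + S.u (S.nxr^[i] e) + w (S.nxr^[i] e))) +
            S.u (S.nxr^[n] e)) + (1 + S.u (S.nxr^[n + 1] e) + w (S.nxr^[n] e)) := by ring
      rw [this, ih]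
      ring
  have e3 := e2 wd.length
  have e4 : S.nxr^[wd.length] e = e := by rw [h.len]; exact hS.nxr_rdeg W h.re
  rw [e4] at e3
  have e5 : (∑ i ∈ Finset.range wd.length, (1 + S.u (S.nxr^[i + 1] e) + w (S.nxr^[i] e))) =
      dgw wd := by
    unfold dgw
    rw [← sum_getD]
    refine Finset.sum_congr rfl fun i hi => ?_
    have hi' := Finset.mem_range.1 hi
    have h6 := h.l i hi'
    have h7 := h6.a
    rw [← Function.iterate_succ_apply' S.nxr] at h7
    have h8 : lA (wd.getD i 0) ≠ 3 := by
      unfold nu3 at h3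
      rw [List.all_eq_true] at h3
      have := h3 (wd.getD i 0) (by
        rw [List.getD_eq_getElem _ _ hi']
        exact List.getElem_mem _)
      simpa using this
    rw [h7.resolve_left h8, w1, h6.s]
  omega

end Pool.FC7
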