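import Pool.Agent.FC7.ClA
import Pool.Agent.FC7.WfH

/-! # Classification: the words of a minimal counterexample -/

open Finset

set_option linter.unusedSectionVars false

namespace Pool.FC7

open Pool.FC6 Pool.FC6.St

/-- the letters which occur; `s`: the label of the next spoke -/
def glt (l : ℕ) (s : Bool) : Bool :=
  if lK l = 0 then
    (decide (lA l + lB l + lC l = 0) && !(lS l && s) && !(lS l && lO l) && !(s && lO l)) ||
    (decide (lA l + lB l + lC l = 3) && decide (lA l < 3) && decide (lB l < 3) &&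
      decide (lC l < 3) && !lS l && !s && !lO l)
  else decide (lK l = 1) && (decide (lC l = 1) || decide (lC l = 2)) &&
    ((decide (lB l = 3) && decide (lA l = 0) && !(lS l && s)) ||
    (decide (lB l = 1) && decide (lA l < 2) && !lS l && !s) ||
    (decide (lB l = 2) && decide (lA l < 3) && !lS l && !s))

/-- the letters of faces with two units or with a label -/
def ful (l : ℕ) (s : Bool) : Bool :=
  lS l || s || (if lK l = 0 then lO l else decide (lB l = 1))

/-- the words which occur -/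
def goodw (Δ : ℕ) (wd : List ℕ) : Bool :=
  decide (4 ≤ wd.length) && decide (dgw wd ≤ Δ) && nu3 wd &&
  ((List.range wd.length).all fun i => glt (wd.getD i 0) (lS (wd.getD ((i + 1) % wd.length) 0))) &&
  (decide (dgw wd = Δ) || (List.range wd.length).all fun i =>
    !ful (wd.getD i 0) (lS (wd.getD ((i + 1) % wd.length) 0)))

variable {D V : Type} [Fintype D] [DecidableEq V] {Δ : ℕ} {S : St D V} {L : D → Bool}
  {w : D → ℕ} {d e : D}

/-- the darts of the face after `d` -/
theorem sc_sec1 (d : D) : S.sc.r (S.M.α d) (S.M.σ d) :=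
  (scφ (S.M.α d) (S.M.α d)).2 (S.sc.iseqv.refl _)

theorem sc_sec2 (h : S.real (S.M.σ d) = false) : S.sc.r (S.M.α d) (S.M.σ (S.M.σ d)) :=
  S.sc.iseqv.trans (sc_sec1 d) (S.sc.iseqv.trans ((scα h (S.M.σ d)).2 (S.sc.iseqv.refl _))
    ((scφ _ _).2 (S.sc.iseqv.refl _)))

theorem sc_nxr (d : D) : S.sc.r (S.M.α d) (S.nxr d) := by
  unfold nxr
  by_cases h : S.real (S.M.σ d) = true
  · rw [if_pos h]; exact sc_sec1 d
  · rw [if_neg h]; exact sc_sec2 (by simpa using h)

theorem sc_opp (d : D) : S.sc.r (S.M.α d) (S.M.φ (S.M.σ d)) :=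
  S.sc.iseqv.trans (sc_sec1 d) ((scφ _ _).2 (S.sc.iseqv.refl _))

section mc

variable (hΔ : Δ ≤ 6) (h : MC Δ S L w) (hS : IsStar S) (hd : S.real d = true)

include hΔ h hS hd

theorem MC.nxr_ne : S.nxr d ≠ d ∧ S.nxr d ≠ S.M.α d := by
  refine ⟨?_, fun h1 => ?_⟩
  · have h4 := h.rdeg4 hΔ (h.ok.real_A _ hd)
    exact hS.nxr_ne h.ok.toWf hd Nat.one_pos (by omega)
  · have h2 := v_nxr (S := S) d
    rw [h1] at h2
    exact h.ok.real_ne _ hd h2.symm

/-- labels at the face after `d` -/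
theorem MC.lab_s (hl : L d = true) : fu S (S.M.α d) = 0 :=
  h.lab_no hΔ (by rw [h.ok.L_α]; exact hl)

theorem MC.lab_n (hl : L (S.nxr d) = true) : fu S (S.M.α d) = 0 := by
  rw [fu_congr (sc_nxr d)]; exact h.lab_no hΔ hl

theorem MC.lab_o (hl : L (S.M.φ (S.M.σ d)) = true) : fu S (S.M.α d) = 0 := by
  rw [fu_congr (sc_opp d)]; exact h.lab_no hΔ hl

/-- at most one label -/
theorem MC.lab_sn : (L d && L (S.nxr d)) = false := by
  rw [Bool.and_eq_false_iff]
  by_contra hc
  push Not at hc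
  obtain ⟨n1, n2⟩ := h.nxr_ne hΔ hS hd
  have h1 : L (S.M.α d) = true := by rw [h.ok.L_α]; simpa using hc.1
  rcases h.lab_one hΔ h1 (by simpa using hc.2) (sc_nxr d) with h2 | h2
  · exact n2 h2
  · rw [S.M.αα] at h2; exact n1 h2

theorem MC.lab_so (hs : S.real (S.M.σ d) = true) : (L d && L (S.M.φ (S.M.σ d))) = false := by
  rw [Bool.and_eq_false_iff]
  by_contra hc
  push Not at hc
  have h1 : L (S.M.α d) = true := by rw [h.ok.L_α]; simpa using hc.1
  rcases h.lab_one hΔ h1 (by simpa using hc.2) (sc_opp d) with h2 | h2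
  · exact S.M.φφne (S.M.α d) h2
  · rw [S.M.αα] at h2
    have h3 : S.M.v (S.M.φ (S.M.σ d)) = S.M.v (S.M.σ d) := by rw [h2, S.M.vσ]
    rw [S.M.vφ] at h3
    exact h.ok.real_ne _ hs h3.symm

theorem MC.lab_no' (hs : S.real (S.M.σ d) = true) :
    (L (S.nxr d) && L (S.M.φ (S.M.σ d))) = false := by
  rw [Bool.and_eq_false_iff]
  by_contra hc
  push Not at hc
  have e1 : S.nxr d = S.M.σ d := if_pos hs
  rw [e1] at hc
  have h1 : L (S.M.σ d) = true := by simpa using hc.1
  rcases h.lab_one hΔ h1 (by simpa using hc.2) ((scφ _ _).2 (S.sc.iseqv.refl _)) with h2 | h2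
  · exact S.M.φne _ h2
  · have h3 : S.M.φ (S.M.φ (S.M.σ d)) = S.M.σ (S.M.σ d) := by rw [h2]; rfl
    have h4 : S.M.φ (S.M.φ (S.M.σ d)) = S.M.α d := S.M.φ3 _
    have h5 : S.M.v (S.M.α d) = S.M.v (S.M.σ (S.M.σ d)) := by rw [← h4, h3]
    rw [S.M.vσ, S.M.vσ] at h5
    exact h.ok.real_ne _ hd h5.symm

/-- the letters of a minimal counterexample -/
theorem MC.glt : glt (code S L d) (L (S.nxr d)) = true := by
  have hu' : ∀ e, S.u e < 4 := fun e => by have := h.u_lt hΔ hS e; omega
  have u1 := h.u_lt hΔ hS (S.nxr d)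
  have u2 := h.u_lt hΔ hS (S.M.α d)
  have u3 := h.u_lt hΔ hS (S.M.φ (S.M.σ d))
  have l1 := h.lab_sn hΔ hS hd
  have s0 := h.lab_s hΔ hS hd
  have n0 := h.lab_n hΔ hS hd
  have o0 := h.lab_o hΔ hS hd
  unfold code
  by_cases hs : S.real (S.M.σ d) = true
  · rw [if_pos hs]
    obtain ⟨a1, a2, a3, a4, a5, a6⟩ := mkl_dec (hu' (S.nxr d)) (hu' (S.M.α d))
      (hu' (S.M.φ (S.M.σ d))) (show (0 : ℕ) < 4 by norm_num) (L d) (L (S.M.φ (S.M.σ d)))
    have l2 := h.lab_so hΔ hS hd hs
    have l3 := h.lab_no' hΔ hS hd hs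
    obtain ⟨q1, q2⟩ := h.solid_u hΔ hS hd hs
    have e1 : S.nxr d = S.M.σ d := if_pos hs
    unfold FC7.glt
    rw [a1, a2, a3, a4, a5, a6, if_pos rfl, l1, l2, l3]
    rw [e1] at u1 n0 ⊢
    simp only [Bool.or_eq_true, Bool.and_eq_true, decide_eq_true_eq, Bool.not_eq_true',
      Bool.not_false]
    rcases q2 with q2 | q2
    · left
      exact ⟨⟨⟨by omega, trivial⟩, trivial⟩, trivial⟩
    · right
      refine ⟨⟨⟨⟨⟨⟨by omega, u1⟩, u2⟩, u3⟩, ?_⟩, ?_⟩, ?_⟩
      · by_contra hc
        have := s0 (by simpa using hc); omega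
      · by_contra hc
        have := n0 (by simpa using hc); omega
      · by_contra hc
        have := o0 (by simpa using hc); omega
  · have hs' : S.real (S.M.σ d) = false := by simpa using hs
    rw [if_neg hs]
    have hc : (if S.csz (S.M.σ d) = 4 then 1 else 2) < 4 := by split_ifs <;> norm_num
    obtain ⟨a1, a2, a3, a4, a5, a6⟩ := mkl_dec (hu' (S.nxr d)) (fcl_lt (fu S (S.M.σ d))) hc
      (show (1 : ℕ) < 4 by norm_num) (L d) false
    have hf : fu S (S.M.σ d) = fu S (S.M.α d) := (fu_congr (sc_sec1 d)).symm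
    have hlt : S.u (S.nxr d) ≤ fu S (S.M.α d) := by
      rw [fu_congr (sc_nxr d)]; exact u_le_fu S _
    unfold FC7.glt
    rw [a1, a2, a3, a4, a5, if_neg (by norm_num), l1, hf]
    simp only [Bool.or_eq_true, Bool.and_eq_true, decide_eq_true_eq, Bool.not_eq_true',
      Bool.not_false]
    refine ⟨⟨trivial, by split_ifs <;> simp⟩, ?_⟩
    have nl : fu S (S.M.α d) ≠ 0 → L d = false ∧ L (S.nxr d) = false := by
      intro hne
      constructor
      · by_contra hc
        exact hne (s0 (by simpa using hc))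
      · by_contra hc
        exact hne (n0 (by simpa using hc))
    rcases h.fu023 hΔ (S.M.α d) with q | q | q
    · left; left
      rw [q] at hlt ⊢
      exact ⟨⟨rfl, by omega⟩, trivial⟩
    · left; right
      have q1 := (h.two_u q (sc_nxr d) (sc_nxr d)).1
      obtain ⟨c1, c2⟩ := nl (by omega)
      rw [q]
      exact ⟨⟨⟨rfl, by omega⟩, c1⟩, c2⟩
    · right
      obtain ⟨c1, c2⟩ := nl (by omega)
      rw [q]
      exact ⟨⟨⟨rfl, u1⟩, c1⟩, c2⟩

/-- full vertices -/
theorem MC.ful (hf : ful (code S L d) (L (S.nxr d)) = true) : Δ ≤ wt S w (S.M.v d) := by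
  have hu' : ∀ e, S.u e < 4 := fun e => by have := h.u_lt hΔ hS e; omega
  have hA := h.ok.real_A _ hd
  have hr : L (S.M.α d) = L d := h.ok.L_α d
  have hv : S.M.v (S.nxr d) = S.M.v d := v_nxr d
  have k1 : L d = true → Δ ≤ wt S w (S.M.v d) := fun hl =>
    h.full_lab hΔ hl (S.sc.iseqv.refl _) hA
  have k2 : L (S.nxr d) = true → Δ ≤ wt S w (S.M.v d) := fun hl => by
    have := h.full_lab hΔ hl (S.sc.iseqv.refl _) (by rw [hv]; exact hA)
    rwa [hv] at this
  have k3 : L (S.M.φ (S.M.σ d)) = true → Δ ≤ wt S w (S.M.v d) := fun hl => by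
    have := h.full_lab hΔ hl (S.sc.iseqv.trans (S.sc.iseqv.symm (sc_opp d)) (sc_nxr d))
      (by rw [hv]; exact hA)
    rwa [hv] at this
  unfold FC7.ful at hf
  unfold code at hf
  by_cases hs : S.real (S.M.σ d) = true
  · obtain ⟨a1, a2, a3, a4, a5, a6⟩ := mkl_dec (hu' (S.nxr d)) (hu' (S.M.α d))
      (hu' (S.M.φ (S.M.σ d))) (show (0 : ℕ) < 4 by norm_num) (L d) (L (S.M.φ (S.M.σ d)))
    rw [if_pos hs, a4, a5, a6, if_pos rfl] at hf
    simp only [Bool.or_eq_true] at hf
    rcases hf with (hf | hf) | hf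
    · exact k1 hf
    · exact k2 hf
    · exact k3 hf
  · have hc : (if S.csz (S.M.σ d) = 4 then 1 else 2) < 4 := by split_ifs <;> norm_num
    obtain ⟨a1, a2, a3, a4, a5, a6⟩ := mkl_dec (hu' (S.nxr d)) (fcl_lt (fu S (S.M.σ d))) hc
      (show (1 : ℕ) < 4 by norm_num) (L d) false
    rw [if_neg hs, a2, a4, a5, if_neg (by norm_num)] at hf
    simp only [Bool.or_eq_true, decide_eq_true_eq] at hf
    rcases hf with (hf | hf) | hf
    · exact k1 hf
    · exact k2 hf
    · have hf2 : fu S (S.M.σ d) = 2 := by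
        have e1 : fu S (S.M.σ d) = fu S (S.M.α d) := (fu_congr (sc_sec1 d)).symm
        rw [e1] at hf ⊢
        rcases h.fu023 hΔ (S.M.α d) with q | q | q
        · rw [q] at hf; exact absurd hf (by decide)
        · exact q
        · rw [q] at hf; exact absurd hf (by decide)
      have := h.full2 hΔ hf2 (S.sc.iseqv.trans (S.sc.iseqv.symm (sc_sec1 d)) (sc_nxr d))
        (by rw [hv]; exact hA)
      rwa [hv] at this

end mc

/-- THE WORDS OF A MINIMAL COUNTEREXAMPLE -/
theorem MC.good (hΔ : Δ ≤ 6) (h : MC Δ S L w) (hS : IsStar S) (hd : S.real d = true) :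
    goodw Δ (word S L d) = true := by
  have W := h.ok.toWf
  have hw := h.isW hΔ hS hd
  have hA := h.ok.real_A _ hd
  have hlen := word_length (S := S) (L := L) (d := d)
  have hr4 := h.rdeg4 hΔ hA
  have hnu : nu3 (word S L d) = true := by
    unfold nu3
    rw [List.all_eq_true]
    intro l hl
    unfold FC7.word at hl
    rw [List.mem_map] at hl
    obtain ⟨i, -, rfl⟩ := hl
    rw [decide_eq_true_eq, code_A (h.u_lt hΔ hS)]
    have := h.u_lt hΔ hS (S.nxr (S.nxr^[i] d))
    omega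
  have hdg : wt S w (S.M.v d) = dgw (word S L d) := hw.deg hS W h.w1 hnu
  have hdeg : wt S w (S.M.v d) ≤ Δ := h.ok.deg _ hA
  have hreal : ∀ i, S.real (S.nxr^[i] d) = true := fun i => hS.nxr_iter_real W hd i
  have hget : ∀ i < (word S L d).length, (word S L d).getD i 0 = code S L (S.nxr^[i] d) ∧
      lS ((word S L d).getD ((i + 1) % (word S L d).length) 0) = L (S.nxr (S.nxr^[i] d)) := by
    intro i hi
    refine ⟨word_getD (by rw [← hlen]; exact hi), ?_⟩
    rw [← Function.iterate_succ_apply' S.nxr]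
    by_cases h1 : i + 1 < (word S L d).length
    · rw [Nat.mod_eq_of_lt h1, word_getD (by rw [← hlen]; exact h1), code_S (h.u_lt hΔ hS)]
    · have h2 : i + 1 = (word S L d).length := by omega
      rw [h2, Nat.mod_self, word_getD (by omega), code_S (h.u_lt hΔ hS)]
      have h3 : S.nxr^[i.succ] d = d := by
        rw [Nat.succ_eq_add_one, h2, hlen]
        exact hS.nxr_rdeg W hd
      rw [h3]
      rfl
  unfold goodw
  simp only [Bool.and_eq_true, Bool.or_eq_true, decide_eq_true_eq, List.all_eq_true,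
    List.mem_range, Bool.not_eq_true']
  refine ⟨⟨⟨⟨by rw [hlen]; exact hr4, by omega⟩, hnu⟩, fun i hi => ?_⟩, ?_⟩
  · obtain ⟨e1, e2⟩ := hget i hi
    rw [e1, e2]
    exact h.glt hΔ hS (hreal i)
  · by_cases hf : ∃ i < (word S L d).length, FC7.ful ((word S L d).getD i 0)
        (lS ((word S L d).getD ((i + 1) % (word S L d).length) 0)) = true
    · left
      obtain ⟨i, hi, hf⟩ := hf
      obtain ⟨e1, e2⟩ := hget i hi
      rw [e1, e2] at hf
      have h1 := h.ful hΔ hS (hreal i) hf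
      rw [v_nxr_iter] at h1
      omega
    · right
      push Not at hf
      intro i hi
      simpa using hf i hi

end Pool.FC7
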