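import Pool.Agent.FC7.Cut
import Pool.Agent.FC6.Near0

/-! # The class of states with optional faces, closure under deletion

`L` = labelled real edges, `w` = weight of the labels (extra degree at both ends). -/

open Finset

namespace Pool.FC7

open Pool.FC6 Pool.FC6.St

variable {D V : Type} [Fintype D] [DecidableEq V]

/-- the contribution of the dart `d` to (twice) the value of a cut -/
def cfw (S : St D V) (w : D → ℕ) (s : V → Bool) (t : D → Bool) (d : D) : ℕ :=
  S.cf s t d + (if s (S.M.v d) ≠ s (S.M.v (S.M.α d)) then w d else 0)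

/-- the units of the face of `d` -/
noncomputable def fu (S : St D V) (d : D) : ℕ :=
  open Classical in ∑ e, if S.sc.r d e then S.u e else 0

/-- the face of `d` has two unit corners which are not neighbours -/
def Two (S : St D V) (d : D) : Prop :=
  ∃ e e', S.sc.r d e ∧ S.sc.r d e' ∧ S.u e ≠ 0 ∧ S.u e' ≠ 0 ∧ S.M.v e ≠ S.M.v e' ∧
    ∀ r, S.real r = true → S.sc.r d r →
      ¬ (S.M.v r = S.M.v e ∧ S.M.v (S.M.α r) = S.M.v e') ∧
      ¬ (S.M.v r = S.M.v e' ∧ S.M.v (S.M.α r) = S.M.v e)

/-- the basic conditions of a state with labels `L` of weight `w` -/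
structure Wf (Δ : ℕ) (S : St D V) (L : D → Bool) (w : D → ℕ) : Prop where
  real_α : ∀ d, S.real (S.M.α d) = S.real d
  real_A : ∀ d, S.real d = true → S.M.v d ∈ S.A
  real_ne : ∀ d, S.real d = true → S.M.v d ≠ S.M.v (S.M.α d)
  A_im : ∀ x ∈ S.A, ∃ d, S.M.v d = x
  u_A : ∀ d, S.u d ≠ 0 → S.M.v d ∈ S.A
  L_real : ∀ d, L d = true → S.real d = true
  L_α : ∀ d, L (S.M.α d) = L d
  w_L : ∀ d, w d ≠ 0 → L d = true
  w_α : ∀ d, w (S.M.α d) = w d
  deg : ∀ x ∈ S.A, ∑ d, (if S.M.v d = x then (if S.real d = true then 1 else 0) + S.u d + w d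
    else 0) ≤ Δ
  simple : ∀ d e, S.real d = true → S.real e = true → S.M.v d = S.M.v e →
    S.M.v (S.M.α d) = S.M.v (S.M.α e) → d = e
  ex : ∃ d, S.real d = true

/-- the class -/
structure Ok (Δ : ℕ) (S : St D V) (L : D → Bool) (w : D → ℕ) : Prop extends Wf Δ S L w where
  ec : ∀ (s : V → Bool) (t : D → Bool), S.Cl t → (∃ x ∈ S.A, s x = true) →
    (∃ y ∈ S.A, s y = false) → 6 ≤ ∑ d, cfw S w s t d
  thr : ∀ d, S.u d ≠ 0 → 3 ≤ fu S d ∨ Two S d

/-- cost of a unit in a face with `k` units -/
def cw (k : ℕ) : ℕ := if k ≤ 2 then 3054 else 2024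

/-- the number of alive vertices with at least four real edges -/
def n4 (S : St D V) : ℕ := (S.A.filter fun x => 4 ≤ S.rdeg x).card

/-- the number of alive vertices with at most three real edges -/
def n3 (S : St D V) : ℕ := (S.A.filter fun x => ¬ 4 ≤ S.rdeg x).card

/-- the requirements -/
noncomputable def rq (S : St D V) (L : D → Bool) : ℕ :=
  (∑ d, S.u d * cw (fu S d)) + 3054 * (∑ d, if L d = true then 1 else 0) + 6120 * n3 S

/-- the number of real darts -/
def nr (S : St D V) : ℕ := ∑ d, if S.real d = true then 1 else 0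

/-- the potential -/
noncomputable def mu (Δ : ℕ) (S : St D V) (L : D → Bool) : ℕ ×ₗ ℕ ×ₗ ℕ :=
  toLex (n4 S, toLex (rq S L, Δ * S.A.card - nr S))

theorem cw_pos (k : ℕ) : 0 < cw k := by unfold cw; split_ifs <;> omega

theorem cw_mono {k l : ℕ} (h : k ≤ l) : cw l ≤ cw k := by
  unfold cw; split_ifs <;> omega

theorem cw3 {k : ℕ} (h : 3 ≤ k) : cw k = 2024 := by unfold cw; rw [if_neg (by omega)]

section mus

variable {D' V' : Type} [Fintype D'] [DecidableEq V'] {Δ : ℕ} {S : St D V} {L : D → Bool}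
  {S' : St D' V'} {L' : D' → Bool}

theorem mu_lt_n4 (h : n4 S' < n4 S) : mu Δ S' L' < mu Δ S L :=
  Prod.Lex.toLex_lt_toLex.2 (Or.inl h)

theorem mu_lt_rq (h : n4 S' ≤ n4 S) (h2 : rq S' L' < rq S L) :
    mu Δ S' L' < mu Δ S L := by
  rcases h.lt_or_eq with h1 | h1
  · exact mu_lt_n4 h1
  · exact Prod.Lex.toLex_lt_toLex.2 (Or.inr ⟨h1, Prod.Lex.toLex_lt_toLex.2 (Or.inl h2)⟩)

theorem mu_lt_nr (h : n4 S' ≤ n4 S) (h2 : rq S' L' ≤ rq S L) (h3 : nr S < nr S')
    (h4 : nr S' ≤ Δ * S'.A.card) (h5 : S'.A.card ≤ S.A.card) : mu Δ S' L' < mu Δ S L := by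
  rcases h.lt_or_eq with h1 | h1
  · exact mu_lt_n4 h1
  rcases h2.lt_or_eq with h2 | h2
  · exact mu_lt_rq h h2
  · refine Prod.Lex.toLex_lt_toLex.2 (Or.inr ⟨h1, Prod.Lex.toLex_lt_toLex.2 (Or.inr ⟨h2, ?_⟩)⟩)
    show Δ * S'.A.card - nr S' < Δ * S.A.card - nr S
    have : Δ * S'.A.card ≤ Δ * S.A.card := Nat.mul_le_mul_left _ h5
    omega

end mus

/-- weights after the deletion of vertices -/
def dw (S : St D V) (w : D → ℕ) (X : Finset V) (d : D) : ℕ :=
  if (S.del X).real d = true then w d else 0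

variable {S : St D V} {L : D → Bool} {w : D → ℕ} {Δ : ℕ}

theorem del_real_α (rα : ∀ d, S.real (S.M.α d) = S.real d) (X : Finset V) (d : D) :
    (S.del X).real (S.M.α d) = (S.del X).real d := by
  show (S.real (S.M.α d) && decide (S.M.v (S.M.α d) ∉ X) &&
    decide (S.M.v (S.M.α (S.M.α d)) ∉ X)) = (S.real d && decide (S.M.v d ∉ X) &&
    decide (S.M.v (S.M.α d) ∉ X))
  rw [rα, S.M.αα]
  cases S.real d <;> cases decide (S.M.v d ∉ X) <;> cases decide (S.M.v (S.M.α d) ∉ X) <;> rfl

theorem dl_sc (X : Finset V) (d e : D) : (dl S w X).sc.r d e ↔ (S.del X).sc.r d e := Iff.rfl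

theorem Wf.dl (h : Wf Δ S L w) {X : Finset V} (hX : ∃ d, (S.del X).real d = true) :
    Wf Δ (dl S w X) (dL S L X) (dw S w X) where
  real_α := del_real_α h.real_α X
  real_A d hd := by
    have hd' : (S.del X).real d = true := hd
    rw [del_real] at hd'
    exact Finset.mem_sdiff.2 ⟨h.real_A d hd'.1, hd'.2.1⟩
  real_ne d hd := by
    have hd' : (S.del X).real d = true := hd
    rw [del_real] at hd'
    exact h.real_ne d hd'.1
  A_im x hx := h.A_im x (Finset.mem_sdiff.1 hx).1
  u_A d hd := by
    have hd' : (if S.M.v d ∈ X then 0 else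
      S.u d + (if S.real d = true ∧ S.M.v (S.M.α d) ∈ X then 1 + w d else 0)) ≠ 0 := hd
    by_cases h1 : S.M.v d ∈ X
    · rw [if_pos h1] at hd'; exact absurd rfl hd'
    · rw [if_neg h1] at hd'
      refine Finset.mem_sdiff.2 ⟨?_, h1⟩
      by_cases h2 : S.u d = 0
      · rw [h2, zero_add] at hd'
        by_cases h3 : S.real d = true ∧ S.M.v (S.M.α d) ∈ X
        · exact h.real_A d h3.1
        · rw [if_neg h3] at hd'; exact absurd rfl hd'
      · exact h.u_A d h2
  L_real d hd := by
    have hd' : (L d && (S.del X).real d) = true := hd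
    rw [Bool.and_eq_true] at hd'
    exact hd'.2
  L_α d := by
    show (L (S.M.α d) && (S.del X).real (S.M.α d)) = (L d && (S.del X).real d)
    rw [h.L_α, del_real_α h.real_α]
  w_L d hd := by
    have hd' : (if (S.del X).real d = true then w d else 0) ≠ 0 := hd
    show (L d && (S.del X).real d) = true
    by_cases h1 : (S.del X).real d = true
    · rw [if_pos h1] at hd'
      rw [h.w_L d hd', h1]; rfl
    · rw [if_neg h1] at hd'; exact absurd rfl hd'
  w_α d := by
    show (if (S.del X).real (S.M.α d) = true then w (S.M.α d) else 0) =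
      if (S.del X).real d = true then w d else 0
    rw [del_real_α h.real_α, h.w_α]
  deg x hx := by
    refine le_trans (Finset.sum_le_sum fun d _ => ?_) (h.deg x (Finset.mem_sdiff.1 hx).1)
    have hxX := (Finset.mem_sdiff.1 hx).2
    show (if S.M.v d = x then (if (S.del X).real d = true then 1 else 0) +
      (if S.M.v d ∈ X then 0 else
      S.u d + (if S.real d = true ∧ S.M.v (S.M.α d) ∈ X then 1 + w d else 0)) +
      (if (S.del X).real d = true then w d else 0) else 0) ≤ _
    by_cases h1 : S.M.v d = x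
    · have h2 : S.M.v d ∉ X := by rw [h1]; exact hxX
      rw [if_pos h1, if_pos h1, if_neg h2]
      by_cases h3 : S.real d = true
      · by_cases h4 : S.M.v (S.M.α d) ∈ X
        · rw [if_neg (by rw [del_real]; tauto), if_pos ⟨h3, h4⟩, if_pos h3,
            if_neg (by rw [del_real]; tauto)]; omega
        · rw [if_pos (by rw [del_real]; tauto), if_neg (by tauto), if_pos h3,
            if_pos (by rw [del_real]; tauto)]; omega
      · rw [if_neg (by rw [del_real]; tauto), if_neg (by tauto), if_neg h3,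
          if_neg (by rw [del_real]; tauto)]; omega
    · rw [if_neg h1, if_neg h1]
  simple d e hd he := by
    have hd' : (S.del X).real d = true := hd
    have he' : (S.del X).real e = true := he
    rw [del_real] at hd' he'
    exact h.simple d e hd'.1 he'.1
  ex := hX

/-- the value of a cut of `dl S w X` is the value of a cut of `S` -/
theorem dl_cut (h : Wf Δ S L w) {X : Finset V} {s : V → Bool} {t : D → Bool}
    (ht : (S.del X).Cl t) :
    ∑ d, cfw S w (ds S X s t) t d = ∑ d, cfw (dl S w X) (dw S w X) s t d := by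
  classical
  refine sum_pair S.M _ _ fun d => ?_
  have hX : ∀ e, S.M.v e ∈ X → ds S X s t (S.M.v e) = t e := fun e he => ds_X ht he
  have hN : ∀ x, x ∉ X → ds S X s t x = s x := fun x hx => by unfold ds; rw [if_neg hx]
  have hα : (S.del X).real d = false → t (S.M.α d) = t d := fun h => ht.2 d h
  have hr := h.real_α d
  have hw := h.w_α d
  have hwr : S.real d = false → w d = 0 := by
    intro h1
    by_contra h2
    have := h.L_real d (h.w_L d h2)
    rw [h1] at this; exact absurd this (by simp)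
  have ee : S.M.v (S.M.α (S.M.α d)) = S.M.v d := by rw [S.M.αα]
  have cf1 : ∀ e, cfw S w (ds S X s t) t e =
    (if S.real e = true ∧ ds S X s t (S.M.v e) ≠ ds S X s t (S.M.v (S.M.α e)) then 1 else 0) +
    2 * (if ds S X s t (S.M.v e) ≠ t e then S.u e else 0) +
    (if ds S X s t (S.M.v e) ≠ ds S X s t (S.M.v (S.M.α e)) then w e else 0) := fun e => rfl
  have cf2 : ∀ e, cfw (dl S w X) (dw S w X) s t e =
    (if (S.del X).real e = true ∧ s (S.M.v e) ≠ s (S.M.v (S.M.α e)) then 1 else 0) +
    2 * (if s (S.M.v e) ≠ t e then (if S.M.v e ∈ X then 0 else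
      S.u e + (if S.real e = true ∧ S.M.v (S.M.α e) ∈ X then 1 + w e else 0)) else 0) +
    (if s (S.M.v e) ≠ s (S.M.v (S.M.α e)) then (if (S.del X).real e = true then w e else 0)
      else 0) := fun e => rfl
  have hr2 : (S.del X).real (S.M.α d) = (S.del X).real d := del_real_α h.real_α X d
  rw [cf1, cf1, cf2, cf2, ee, hr, hr2, hw]
  by_cases a1 : S.M.v d ∈ X
  · have b1 := hX d a1
    have r0 : (S.del X).real d = false := del_real_f.2 (Or.inr (Or.inl a1))
    have hα' := hα r0
    by_cases a2 : S.M.v (S.M.α d) ∈ X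
    · have b2 := hX _ a2
      simp [a1, a2, b1, b2, r0, hα']
    · have b2 := hN _ a2
      by_cases hd : S.real d = true
      · simp only [a1, a2, b1, b2, r0, hα', hd]
        by_cases h3 : t d = s (S.M.v (S.M.α d))
        · simp [h3]
        · have h4 : s (S.M.v (S.M.α d)) ≠ t d := fun h => h3 h.symm
          simp [h3, h4]; omega
      · have hd' : S.real d = false := by simpa using hd
        simp [a1, a2, b1, b2, r0, hα', hd', hwr hd']
  · have b1 := hN _ a1
    by_cases a2 : S.M.v (S.M.α d) ∈ X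
    · have b2 := hX _ a2
      have r0 : (S.del X).real d = false := del_real_f.2 (Or.inr (Or.inr a2))
      have hα' := hα r0
      by_cases hd : S.real d = true
      · simp only [a1, a2, b1, b2, r0, hα', hd]
        by_cases h3 : s (S.M.v d) = t d
        · simp [h3]
        · have h4 : t d ≠ s (S.M.v d) := fun h => h3 h.symm
          simp [h3, h4]; omega
      · have hd' : S.real d = false := by simpa using hd
        simp [a1, a2, b1, b2, r0, hα', hd', hwr hd']
    · have b2 := hN _ a2
      have r0 : (S.del X).real d = S.real d := by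
        simp [St.del, a1, a2]
      by_cases hd : S.real d = true
      · simp [a1, a2, b1, b2, r0, hd]
      · have hd' : S.real d = false := by simpa using hd
        simp [a1, a2, b1, b2, r0, hd', hwr hd']

/-- merged faces have at least three units -/
theorem Ok.dl_fu (h : Ok Δ S L w) {X : Finset V} (hX : ∃ d, (S.del X).real d = true) {d : D}
    (hc : ∃ e, (S.del X).sc.r d e ∧ S.M.v e ∈ X ∧ S.M.v e ∈ S.A) :
    3 ≤ fu (FC7.dl S w X) d := by
  classical
  let t : D → Bool := fun e => decide ((S.del X).sc.r d e)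
  have ht : (S.del X).Cl t := by
    refine ⟨fun e => ?_, fun e he => ?_⟩
    · exact decide_eq_decide.2 (scφ d e)
    · exact decide_eq_decide.2 (scα he d)
  have htS : S.Cl t := ⟨ht.1, fun d hd => ht.2 d (del_real_f.2 (Or.inl hd))⟩
  obtain ⟨y0, hy0⟩ := hX
  have hy0' := hy0
  rw [del_real] at hy0'
  obtain ⟨e, e1, e2, e3⟩ := hc
  have k := h.ec (ds S X (fun _ => false) t) t htS ⟨S.M.v e, e3, by
      rw [ds_X ht e2]; exact decide_eq_true e1⟩
    ⟨S.M.v y0, h.real_A _ hy0'.1, by unfold ds; rw [if_neg hy0'.2.1]⟩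
  rw [dl_cut h.toWf ht] at k
  have k2 : ∑ d, cfw (FC7.dl S w X) (dw S w X) (fun _ => false) t d =
      2 * ∑ d, if t d = true then (FC7.dl S w X).u d else 0 := by
    rw [Finset.mul_sum]
    refine Finset.sum_congr rfl fun d _ => ?_
    unfold cfw St.cf
    cases t d <;> simp
  rw [k2] at k
  have k3 : fu (FC7.dl S w X) d = ∑ d, if t d = true then (FC7.dl S w X).u d else 0 := by
    unfold fu
    refine Finset.sum_congr rfl fun e _ => ?_
    by_cases h3 : (S.del X).sc.r d e
    · rw [if_pos (show (FC7.dl S w X).sc.r d e from h3), if_pos (decide_eq_true h3)]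
    · rw [if_neg (show ¬ (FC7.dl S w X).sc.r d e from h3),
        if_neg (fun h4 => h3 (of_decide_eq_true h4))]
  omega

/-- the faces without deleted corners are not changed -/
theorem Ok.dl_un (h : Ok Δ S L w) {X : Finset V} {d : D}
    (hc : ¬ ∃ e, (S.del X).sc.r d e ∧ S.M.v e ∈ X ∧ S.M.v e ∈ S.A) :
    (∀ e, (S.del X).sc.r d e → (FC7.dl S w X).u e = S.u e) ∧
    (∀ e, S.sc.r d e ↔ (S.del X).sc.r d e) := by
  classical
  push Not at hc
  let t : D → Bool := fun e => decide ((S.del X).sc.r d e)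
  have ht : (S.del X).Cl t := by
    refine ⟨fun e => ?_, fun e he => ?_⟩
    · exact decide_eq_decide.2 (scφ d e)
    · exact decide_eq_decide.2 (scα he d)
  have htd : t d = true := decide_eq_true ((S.del X).sc.iseqv.refl d)
  have tt : ∀ e, t e = true → (S.del X).sc.r d e := fun e he => of_decide_eq_true he
  have r1 : ∀ e, t e = true → (S.del X).real e = S.real e := by
    intro e he
    by_cases hr : S.real e = true
    · rw [hr, del_real]
      refine ⟨hr, fun h3 => hc e (tt e he) h3 (h.real_A e hr), fun h3 => ?_⟩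
      have h4 : (S.del X).real e = false := del_real_f.2 (Or.inr (Or.inr h3))
      have h5 : t (S.M.α e) = true := (ht.2 e h4).trans he
      exact hc _ (tt _ h5) h3 (h.real_A _ (by rw [h.real_α, hr]))
    · have hr' : S.real e = false := by simpa using hr
      rw [hr', del_real_f]; exact Or.inl hr'
  have u1 : ∀ e, t e = true → (FC7.dl S w X).u e = S.u e := by
    intro e he
    show (if S.M.v e ∈ X then 0 else
      S.u e + (if S.real e = true ∧ S.M.v (S.M.α e) ∈ X then 1 + w e else 0)) = S.u e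
    by_cases h3 : S.M.v e ∈ X
    · rw [if_pos h3]
      by_contra h4
      exact hc e (tt e he) h3 (h.u_A e (fun h5 => h4 h5.symm))
    · rw [if_neg h3, if_neg, add_zero]
      rintro ⟨h4, h5⟩
      have h6 := r1 e he
      rw [h4, del_real] at h6
      exact h6.2.2 h5
  refine ⟨fun e he => u1 e (decide_eq_true he), fun e => ⟨fun h1 => del_sc h1, fun h1 => ?_⟩⟩
  have key : (S.del X).Cl (fun e => t e && decide (S.sc.r d e)) := by
    refine ⟨fun e => ?_, fun e he => ?_⟩
    · beta_reduce
      rw [ht.1 e]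
      congr 1
      exact decide_eq_decide.2 (scφ d e)
    · beta_reduce
      rw [ht.2 e he]
      by_cases h2 : t e = true
      · rw [h2]
        congr 1
        rw [r1 e h2] at he
        exact decide_eq_decide.2 (scα he d)
      · have h2' : t e = false := by simpa using h2
        rw [h2']; rfl
  have h3 := h1 _ key
  beta_reduce at h3
  rw [htd, decide_eq_true (S.sc.iseqv.refl d)] at h3
  have h4 : (t e && decide (S.sc.r d e)) = true := h3.symm
  rw [Bool.and_eq_true] at h4
  exact of_decide_eq_true h4.2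

/-- deletion of vertices keeps the class if a real edge remains -/
theorem Ok.dl (h : Ok Δ S L w) {X : Finset V} (hX : ∃ d, (S.del X).real d = true) :
    Ok Δ (dl S w X) (dL S L X) (dw S w X) where
  toWf := h.toWf.dl hX
  ec s t ht h1 h2 := by
    rw [← dl_cut h.toWf ht]
    obtain ⟨x, hx, hx'⟩ := h1
    obtain ⟨y, hy, hy'⟩ := h2
    refine h.ec _ t ⟨ht.1, fun d hd => ht.2 d (del_real_f.2 (Or.inl hd))⟩ ⟨x, ?_, ?_⟩ ⟨y, ?_, ?_⟩
    · exact (Finset.mem_sdiff.1 hx).1
    · unfold ds; rw [if_neg (Finset.mem_sdiff.1 hx).2, hx']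
    · exact (Finset.mem_sdiff.1 hy).1
    · unfold ds; rw [if_neg (Finset.mem_sdiff.1 hy).2, hy']
  thr d hd := by
    classical
    by_cases hc : ∃ e, (S.del X).sc.r d e ∧ S.M.v e ∈ X ∧ S.M.v e ∈ S.A
    · exact Or.inl (h.dl_fu hX hc)
    · obtain ⟨u1, sc1⟩ := h.dl_un hc
      have hu : S.u d ≠ 0 := by rw [← u1 d ((S.del X).sc.iseqv.refl d)]; exact hd
      rcases h.thr d hu with h1 | ⟨e, e', h2, h3, h4, h5, h6, h7⟩
      · left
        refine le_trans h1 (le_of_eq ?_)
        unfold fu
        refine Finset.sum_congr rfl fun e _ => ?_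
        by_cases h2 : S.sc.r d e
        · have h3 := (sc1 e).1 h2
          rw [if_pos h2, if_pos (show (FC7.dl S w X).sc.r d e from h3), u1 e h3]
        · rw [if_neg h2, if_neg (show ¬ (FC7.dl S w X).sc.r d e from
            fun h3 => h2 ((sc1 e).2 h3))]
      · right
        refine ⟨e, e', (sc1 e).1 h2, (sc1 e').1 h3, ?_, ?_, h6, fun r hr hs => ?_⟩
        · rw [u1 e ((sc1 e).1 h2)]; exact h4
        · rw [u1 e' ((sc1 e').1 h3)]; exact h5
        · have hr' : (S.del X).real r = true := hr
          rw [del_real] at hr'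
          exact h7 r hr'.1 ((sc1 r).2 hs)

end Pool.FC7
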