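import Pool.Agent.FC7.Min
import Pool.Agent.FC6.Near0

/-! # Minimal counterexamples: connectedness, degrees, star form, flips, units -/

open Finset

namespace Pool.FC7

open Pool.FC6 Pool.FC6.St

variable {D V : Type} [Fintype D] [DecidableEq V] {S : St D V} {L : D → Bool} {w : D → ℕ} {Δ : ℕ}

/-- the class follows from real cuts -/
theorem ok_of_rc (hw : Wf Δ S L w)
    (hrc : ∀ s : V → Bool, (∃ x ∈ S.A, s x = true) → (∃ x ∈ S.A, s x = false) → 3 ≤ S.rc s)
    (thr : ∀ d, S.u d ≠ 0 → 3 ≤ fu S d ∨ Two S d) : Ok Δ S L w where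
  toWf := hw
  ec s t _ h1 h2 := by
    have h3 := hrc s h1 h2
    have h4 := rc_two hw.real_α s
    have h5 : ∑ d, (if S.real d = true ∧ s (S.M.v d) ≠ s (S.M.v (S.M.α d)) then 1 else 0) ≤
        ∑ d, cfw S w s t d := Finset.sum_le_sum fun d _ => by unfold cfw St.cf; omega
    omega
  thr := thr

theorem Wf.ne (h : Wf Δ S L w) (x : V) : ∃ y ∈ S.A, y ≠ x := by
  obtain ⟨d, hd⟩ := h.ex
  by_cases h1 : S.M.v d = x
  · refine ⟨S.M.v (S.M.α d), h.real_A _ (by rw [h.real_α, hd]), ?_⟩
    rw [← h1]; exact (h.real_ne d hd).symm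
  · exact ⟨S.M.v d, h.real_A d hd, h1⟩

theorem Wf.Ane (h : Wf Δ S L w) : S.A.Nonempty := by
  obtain ⟨d, hd⟩ := h.ex
  exact ⟨_, h.real_A d hd⟩

theorem Wf.rc_one (hW : Wf Δ S L w) (x : V) :
    S.rc (fun y => decide (y = x)) = S.rdeg x := by
  unfold St.rc St.rdeg
  refine Finset.sum_congr rfl fun d _ => ?_
  by_cases h1 : S.M.v d = x ∧ S.real d = true
  · rw [if_pos h1, if_pos]
    refine ⟨h1.2, by simpa using h1.1, ?_⟩
    have := hW.real_ne d h1.2
    rw [h1.1] at this
    simpa using this.symm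
  · rw [if_neg h1, if_neg]
    rintro ⟨a1, a2, a3⟩
    exact h1 ⟨by simpa using a2, a1⟩

/-- every alive vertex has real degree at least four -/
theorem MC.rdeg4 (hΔ : Δ ≤ 6) (h : MC Δ S L w) {x : V} (hx : x ∈ S.A) : 4 ≤ S.rdeg x := by
  rw [← h.ok.toWf.rc_one]
  obtain ⟨y, hy, hyx⟩ := h.ok.toWf.ne x
  exact h.cut4 hΔ ⟨x, hx, by simp⟩ ⟨y, hy, by simpa using hyx⟩

theorem MC.fullx (hΔ : Δ ≤ 6) (h : MC Δ S L w) {x : V} (hx : x ∈ S.A) :
    ∃ e, S.M.v e = x ∧ S.real e = true := by
  have h1 := h.rdeg4 hΔ hx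
  unfold St.rdeg at h1
  by_contra hn
  push Not at hn
  rw [Finset.sum_eq_zero] at h1
  · omega
  · intro d _
    rw [if_neg]
    rintro ⟨a1, a2⟩
    exact hn d a1 a2

/-- the real graph of a minimal counterexample is connected -/
theorem MC.gd (hΔ : Δ ≤ 6) (h : MC Δ S L w) : Gd S where
  real_α := h.ok.real_α
  real_A := h.ok.real_A
  real_ne := h.ok.real_ne
  A_im := h.ok.A_im
  ne := h.ok.toWf.Ane
  full d hd := h.fullx hΔ hd
  gcon K hK x y hx hy := by
    classical
    by_contra hne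
    have h4 := h.cut4 hΔ (s := fun z => decide (K z = K x)) ⟨x, hx, by simp⟩
      ⟨y, hy, decide_eq_false (fun h => hne h.symm)⟩
    have h5 : S.rc (fun z => decide (K z = K x)) = 0 := by
      unfold St.rc
      refine Finset.sum_eq_zero fun e _ => ?_
      rw [if_neg]
      rintro ⟨r, e1, e2⟩
      beta_reduce at e1 e2
      rw [hK e r, e1] at e2
      exact absurd e2 (by simp)
    omega

/-- another state with the same real graph -/
theorem MC.of_ok (h : MC Δ S L w) {D' V' : Type} [Fintype D'] [DecidableEq V'] {S' : St D' V'}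
    {L' : D' → Bool} {w' : D' → ℕ} (w1 : W1 L' w') (ok : Ok Δ S' L' w') (hmu : mu Δ S' L' ≤ mu Δ S L)
    (hs : ∀ c, Sol S' L' c → ∃ c, Sol S L c) : MC Δ S' L' w' where
  w1 := w1
  ok := ok
  no := by
    rintro ⟨c, hc⟩
    exact h.no (hs c hc)
  min D'' V'' _ _ S'' L'' w'' h0 h1 h2 := h.min D'' V'' S'' L'' w'' h0 h1 (lt_of_lt_of_le h2 hmu)

/-- flips of virtual edges -/
theorem Sim.wf {S' : St D V} (h : Sim S S') (hW : Wf Δ S L w) : Wf Δ S' L w where
  real_α d := by rw [h.hr, h.hr, h.hα]; exact hW.real_α d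
  real_A d hd := by
    rw [h.hr] at hd
    rw [h.hA, h.hv d hd]; exact hW.real_A d hd
  real_ne d hd := by
    rw [h.hr] at hd
    rw [h.hv d hd, h.hvα hd]; exact hW.real_ne d hd
  A_im x hx := by
    rw [h.hA] at hx
    obtain ⟨d, hd⟩ := hW.A_im x hx
    obtain ⟨e, he⟩ := h.im' d
    exact ⟨e, by rw [← he, hd]⟩
  u_A d hd := by
    rw [h.hu] at hd
    rw [h.hA, h.hv d (h.ur d hd)]; exact hW.u_A d hd
  L_real d hd := by rw [h.hr]; exact hW.L_real d hd
  L_α d := by rw [h.hα]; exact hW.L_α d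
  w_L := hW.w_L
  w_α d := by rw [h.hα]; exact hW.w_α d
  deg x hx := by
    rw [h.hA] at hx
    refine le_trans (Finset.sum_le_sum fun d _ => ?_) (hW.deg x hx)
    rw [h.hr, h.hu]
    by_cases hd : S.real d = true
    · rw [h.hv d hd]
    · have h1 : S.u d = 0 := by
        by_contra h2; exact hd (h.ur d h2)
      have h2 : w d = 0 := by
        by_contra h3; exact hd (hW.L_real d (hW.w_L d h3))
      rw [h1, h2, if_neg hd]
      split_ifs <;> omega
  simple d e hd he h1 h2 := by
    rw [h.hr] at hd he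
    rw [h.hv d hd, h.hv e he] at h1
    rw [h.hvα hd, h.hvα he] at h2
    exact hW.simple d e hd he h1 h2
  ex := by
    obtain ⟨d, hd⟩ := hW.ex
    exact ⟨d, by rw [h.hr]; exact hd⟩

theorem Sim.fu {S' : St D V} (h : Sim S S') (d : D) : FC7.fu S' d = FC7.fu S d := by
  classical
  unfold FC7.fu
  refine Finset.sum_congr rfl fun e _ => ?_
  simp only [h.hu, h.sc]

theorem Sim.two {S' : St D V} (h : Sim S S') {d : D} (hT : Two S d) : Two S' d := by
  obtain ⟨e, e', h1, h2, h3, h4, h5, h6⟩ := hT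
  refine ⟨e, e', (h.sc d e).2 h1, (h.sc d e').2 h2, by rw [h.hu]; exact h3,
    by rw [h.hu]; exact h4, ?_, fun r hr hs => ?_⟩
  · rw [h.hv e (h.ur e h3), h.hv e' (h.ur e' h4)]; exact h5
  · rw [h.hr] at hr
    rw [h.hv e (h.ur e h3), h.hv e' (h.ur e' h4), h.hv r hr, h.hvα hr]
    exact h6 r hr ((h.sc d r).1 hs)

theorem Sim.ok {S' : St D V} (h : Sim S S') (ok : Ok Δ S L w)
    (hrc : ∀ s : V → Bool, (∃ x ∈ S.A, s x = true) → (∃ x ∈ S.A, s x = false) → 3 ≤ S.rc s) :
    Ok Δ S' L w := by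
  refine ok_of_rc (h.wf ok.toWf) (fun s h1 h2 => ?_) fun d hd => ?_
  · rw [h.hA] at h1 h2
    rw [h.rc]
    exact hrc s h1 h2
  · rw [h.hu] at hd
    rw [h.fu]
    rcases ok.thr d hd with h1 | h1
    · exact Or.inl h1
    · exact Or.inr (h.two h1)

theorem Sim.rdeg {S' : St D V} (h : Sim S S') (x : V) : S'.rdeg x = S.rdeg x := by
  unfold St.rdeg
  refine Finset.sum_congr rfl fun d _ => ?_
  rw [h.hr]
  by_cases hd : S.real d = true
  · rw [h.hv d hd]
  · rw [if_neg (fun h1 => hd h1.2), if_neg (fun h1 => hd h1.2)]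

theorem Sim.n4 {S' : St D V} (h : Sim S S') : FC7.n4 S' = FC7.n4 S := by
  unfold FC7.n4
  simp only [h.hA, h.rdeg]

theorem Sim.rq {S' : St D V} (h : Sim S S') (L : D → Bool) : FC7.rq S' L = FC7.rq S L := by
  unfold FC7.rq FC7.n3
  simp only [h.hu, h.fu, h.hA, h.rdeg]

theorem Sim.nr {S' : St D V} (h : Sim S S') : FC7.nr S' = FC7.nr S := by
  unfold FC7.nr
  simp only [h.hr]

theorem Sim.mu {S' : St D V} (h : Sim S S') (L : D → Bool) : FC7.mu Δ S' L = FC7.mu Δ S L := by
  unfold FC7.mu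
  rw [h.hA, h.rq, h.nr, h.n4]

theorem MC.sim {S' : St D V} (hΔ : Δ ≤ 6) (h : MC Δ S L w) (hs : Sim S S') : MC Δ S' L w :=
  h.of_ok h.w1 (hs.ok h.ok fun s h1 h2 => by have := h.cut4 hΔ h1 h2; omega) (le_of_eq (hs.mu L)) fun c hc =>
    ⟨c, hs.symm.sol (hs.gd (h.gd hΔ)).full hc⟩

/-- the weights of the star form -/
def starw (S : St D V) (w : D → ℕ) : DS S → ℕ
    | Sum.inl a => w a.1
    | Sum.inr (a, i) => if i = 0 then w a.1 else 0

theorem starw_em {a : D} (ha : S.real a = true) : starw S w (em a ha) = w a := by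
  rcases pg ha with hp | hp
  · rw [em_pp ha hp]; rfl
  · rw [em_gg ha hp]; rfl

theorem star_degw (g : Gd S) (hw : ∀ d, w d ≠ 0 → S.real d = true) (y : V) :
    ∑ x, (if (star g).M.v x = (Sum.inl y : VS S) then (if (star g).real x = true then 1 else 0) +
      (star g).u x + starw S w x else 0) ≤
      ∑ d, (if S.M.v d = y then (if S.real d = true then 1 else 0) + S.u d + w d else 0) := by
  classical
  have key := sum_DS (S := S) (fun x => if sv x = Sum.inl y then
    (if (star g).real x = true then 1 else 0) + (star g).u x + starw S w x else 0)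
    (fun a => if S.M.v a = y then 1 + S.U a + w a else 0)
    (fun a ha => by
      show (if sv (em a ha) = Sum.inl y then
        (if (star g).real (em a ha) = true then 1 else 0) + (star g).u (em a ha) +
          starw S w (em a ha) else 0) = _
      rw [sv_em, star_real_em, star_u_em, starw_em ha]
      simp) (fun a => by
      show (if sv (Sum.inr (a, 1)) = (Sum.inl y : VS S) then 0 + 0 + 0 else 0) = 0
      simp) (fun a => by
      show (if sv (Sum.inr (a, 2)) = (Sum.inl y : VS S) then 0 + 0 + 0 else 0) = 0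
      simp)
  refine le_trans (le_of_eq key) ?_
  have e1 : ∑ d, (if S.real d = true then (if S.M.v d = y then 1 + S.U d + w d else 0) else 0) =
      ∑ d, (if S.real d = true then (if S.M.v d = y then 1 + w d else 0) else 0) +
      ∑ d, (if S.real d = true then (if S.M.v d = y then S.U d else 0) else 0) := by
    rw [← Finset.sum_add_distrib]
    refine Finset.sum_congr rfl fun d _ => ?_
    split_ifs <;> omega
  rw [e1, sum_U g (fun d => S.M.v d = y), ← Finset.sum_add_distrib]
  refine Finset.sum_le_sum fun d _ => ?_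
  rw [v_fr]
  by_cases h1 : S.M.v d = y
  · simp only [h1, if_true, and_true]
    by_cases h2 : S.real d = true
    · by_cases h3 : y ∈ S.A
      · simp [h2, h3]; omega
      · simp [h2, h3]
    · have h3 : w d = 0 := by
        by_contra h4; exact h2 (hw d h4)
      by_cases h5 : y ∈ S.A
      · simp [h2, h5, h3]
      · simp [h2, h5]
  · simp [h1]

theorem star_wf (g : Gd S) (hW : Wf Δ S L w) : Wf Δ (star g) (starL S L) (starw S w) where
  real_α := star_real_α g
  real_A d hd := star_real_A g hd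
  real_ne d hd := star_real_ne g hd
  A_im x hx := by
    obtain ⟨y, h1, _⟩ := star_full' g hx
    exact ⟨y, h1⟩
  u_A d hd := star_real_A g (star_ur g hd)
  L_real d hd := by
    obtain ⟨a, ha, rfl⟩ := starL_ex hd
    exact star_real_em g ha
  L_α x := by
    rcases x with a | ⟨a, i⟩
    · have ra := (pp_iff.1 a.2).1
      rw [← em_pp ra a.2, star_α_em, starL_em, starL_em, hW.L_α]
    · fin_cases i
      · have ra := (gg_iff.1 a.2).1
        show starL S L ((star g).M.α (Sum.inr (a, 0))) = starL S L (Sum.inr (a, 0))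
        rw [← em_gg ra a.2, star_α_em, starL_em, starL_em, hW.L_α]
      · rfl
      · rfl
  w_L x hx := by
    rcases x with a | ⟨a, i⟩
    · exact hW.w_L a.1 hx
    · show (decide (i = 0) && L a.1) = true
      have h1 : (if i = 0 then w a.1 else 0) ≠ 0 := hx
      by_cases hi : i = 0
      · rw [if_pos hi] at h1
        rw [decide_eq_true hi, hW.w_L a.1 h1]; rfl
      · rw [if_neg hi] at h1; exact absurd rfl h1
  w_α x := by
    rcases x with a | ⟨a, i⟩
    · have ra := (pp_iff.1 a.2).1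
      rw [← em_pp ra a.2, star_α_em, starw_em, starw_em, hW.w_α]
    · fin_cases i
      · have ra := (gg_iff.1 a.2).1
        show starw S w ((star g).M.α (Sum.inr (a, 0))) = starw S w (Sum.inr (a, 0))
        rw [← em_gg ra a.2, star_α_em, starw_em, starw_em, hW.w_α]
      · rfl
      · rfl
  deg x hx := by
    obtain ⟨y, hy, rfl⟩ := Finset.mem_map.1 hx
    exact le_trans (star_degw g (fun d h => hW.L_real d (hW.w_L d h)) y) (hW.deg y hy)
  simple x y hx hy h1 h2 := by
    obtain ⟨a, ha, rfl⟩ := star_real_ex g hx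
    obtain ⟨b, hb, rfl⟩ := star_real_ex g hy
    rw [star_v_em, star_v_em] at h1
    rw [star_v_αem, star_v_αem] at h2
    exact em_congr (hW.simple a b ha hb (Sum.inl_injective h1) (Sum.inl_injective h2)) _ _
  ex := by
    obtain ⟨d, hd⟩ := hW.ex
    exact ⟨_, star_real_em g hd⟩

theorem star_fu (g : Gd S) (uA : ∀ d, S.u d ≠ 0 → S.M.v d ∈ S.A) {a : D}
    (ha : S.real a = true) : fu (star g) (em a ha) = fu S a := by
  classical
  have h1 := star_sum_u g uA (t := fun x => decide ((star g).sc.r (em a ha) x))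
    (t' := fun e => decide (S.sc.r a e)) ⟨fun e => decide_eq_decide.2 (scφ a e),
      fun e he => decide_eq_decide.2 (scα he a)⟩ (fun b hb => decide_eq_decide.2
        (star_sc g ha hb).symm)
  unfold fu
  refine Eq.trans ?_ (h1.trans ?_)
  · refine Finset.sum_congr rfl fun x _ => ?_
    by_cases h2 : (star g).sc.r (em a ha) x
    · rw [if_pos h2, if_pos (decide_eq_true h2)]
    · rw [if_neg h2, if_neg (fun h3 => h2 (of_decide_eq_true h3))]
  · refine Finset.sum_congr rfl fun x _ => ?_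
    by_cases h2 : S.sc.r a x
    · rw [if_pos h2, if_pos (decide_eq_true h2)]
    · rw [if_neg h2, if_neg (fun h3 => h2 (of_decide_eq_true h3))]

theorem fu_congr {d e : D} (h : S.sc.r d e) : fu S d = fu S e := by
  classical
  unfold fu
  refine Finset.sum_congr rfl fun x _ => ?_
  have : S.sc.r d x ↔ S.sc.r e x :=
    ⟨fun h2 => S.sc.iseqv.trans (S.sc.iseqv.symm h) h2, fun h2 => S.sc.iseqv.trans h h2⟩
  simp only [this]

theorem Two.congr {d e : D} (h : S.sc.r d e) (hT : Two S d) : Two S e := by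
  obtain ⟨a, b, h1, h2, h3, h4, h5, h6⟩ := hT
  have h' := S.sc.iseqv.symm h
  exact ⟨a, b, S.sc.iseqv.trans h' h1, S.sc.iseqv.trans h' h2, h3, h4, h5, fun r hr hs =>
    h6 r hr (S.sc.iseqv.trans h hs)⟩

theorem U_pos {e : D} (hA : S.M.v e ∈ S.A) (hu : S.u e ≠ 0) : S.U (S.fr e) ≠ 0 := by
  intro h7
  unfold St.U at h7
  have := (Finset.sum_eq_zero_iff.1 h7) e (Finset.mem_univ _)
  rw [if_pos ⟨hA, rfl⟩] at this
  exact hu this

theorem star_two (g : Gd S) (uA : ∀ d, S.u d ≠ 0 → S.M.v d ∈ S.A) {a : D}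
    (ha : S.real a = true) (hT : Two S a) : Two (star g) (em a ha) := by
  obtain ⟨e, e', h1, h2, h3, h4, h5, h6⟩ := hT
  have A1 := uA e h3
  have A2 := uA e' h4
  have r1 := real_fr g.full A1
  have r2 := real_fr g.full A2
  have s1 : S.sc.r a (S.fr e) := S.sc.iseqv.trans h1 (g.fr_sc A1)
  have s2 : S.sc.r a (S.fr e') := S.sc.iseqv.trans h2 (g.fr_sc A2)
  refine ⟨em _ r1, em _ r2, (star_sc g ha r1).2 s1, (star_sc g ha r2).2 s2, ?_, ?_, ?_,
    fun r hr hs => ?_⟩
  · rw [star_u_em]; exact U_pos A1 h3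
  · rw [star_u_em]; exact U_pos A2 h4
  · rw [star_v_em, star_v_em, v_fr, v_fr]
    exact fun h => h5 (Sum.inl_injective h)
  · obtain ⟨b, hb, rfl⟩ := star_real_ex g hr
    have h7 := h6 b hb ((star_sc g ha hb).1 hs)
    rw [star_v_em, star_v_αem, star_v_em, star_v_em, v_fr, v_fr]
    exact ⟨fun h => h7.1 ⟨Sum.inl_injective h.1, Sum.inl_injective h.2⟩,
      fun h => h7.2 ⟨Sum.inl_injective h.1, Sum.inl_injective h.2⟩⟩

theorem star_thr (g : Gd S) (uA : ∀ d, S.u d ≠ 0 → S.M.v d ∈ S.A)
    (thr : ∀ d, S.u d ≠ 0 → 3 ≤ fu S d ∨ Two S d) (x : DS S) (hx : (star g).u x ≠ 0) :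
    3 ≤ fu (star g) x ∨ Two (star g) x := by
  obtain ⟨a, ha, rfl⟩ := star_real_ex g (star_ur g hx)
  rw [star_u_em] at hx
  obtain ⟨e, he1, he2, he3⟩ : ∃ e, S.M.v e ∈ S.A ∧ S.fr e = a ∧ S.u e ≠ 0 := by
    by_contra hn
    apply hx
    unfold St.U
    refine Finset.sum_eq_zero fun e _ => ?_
    by_cases h1 : S.M.v e ∈ S.A ∧ S.fr e = a
    · rw [if_pos h1]
      by_contra h2
      exact hn ⟨e, h1.1, h1.2, h2⟩
    · rw [if_neg h1]
  have hsc : S.sc.r e a := by rw [← he2]; exact g.fr_sc he1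
  rw [star_fu g uA ha]
  rcases thr e he3 with h1 | h1
  · left
    rw [← fu_congr hsc]; exact h1
  · exact Or.inr (star_two g uA ha (h1.congr hsc))

theorem star_rdeg (g : Gd S) (y : V) : (star g).rdeg (Sum.inl y) = S.rdeg y := by
  classical
  have key := sum_DS (S := S) (fun x => if (star g).M.v x = Sum.inl y ∧ (star g).real x = true
    then 1 else 0) (fun a => if S.M.v a = y then 1 else 0) (fun a ha => by
      rw [star_v_em, star_real_em]
      simp) (fun a => by
      show (if _ ∧ false = true then 1 else 0) = 0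
      simp) (fun a => by
      show (if _ ∧ false = true then 1 else 0) = 0
      simp)
  unfold St.rdeg
  rw [key]
  refine Finset.sum_congr rfl fun d _ => ?_
  by_cases h1 : S.real d = true <;> by_cases h2 : S.M.v d = y <;> simp [h1, h2]

theorem star_cnt (g : Gd S) (p : ℕ → Prop) [DecidablePred p] :
    ((star g).A.filter fun x => p ((star g).rdeg x)).card =
      (S.A.filter fun x => p (S.rdeg x)).card := by
  have e : (star g).A = S.A.map ⟨Sum.inl, Sum.inl_injective⟩ := rfl
  rw [e, Finset.filter_map, Finset.card_map]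
  congr 1
  refine Finset.filter_congr fun x _ => ?_
  show p ((star g).rdeg (Sum.inl x)) ↔ _
  rw [star_rdeg]

theorem star_rq (g : Gd S) (hW : Wf Δ S L w) : rq (star g) (starL S L) = rq S L := by
  classical
  unfold rq n3
  rw [star_sum_L g hW.L_real, star_cnt g (fun k => ¬ 4 ≤ k)]
  congr 2
  have key := sum_DS (S := S) (fun x => (star g).u x * cw (fu (star g) x))
    (fun a => S.U a * cw (fu S a)) (fun a ha => by
      rw [star_u_em, star_fu g hW.u_A ha]) (fun a => by
      show 0 * _ = 0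
      simp) (fun a => by
      show 0 * _ = 0
      simp)
  rw [key]
  have c1 : ∀ k, cw k = if k ≤ 2 then 3054 else 2024 := fun _ => rfl
  have e1 : ∑ d, (if S.real d = true then S.U d * cw (fu S d) else 0) =
      3054 * ∑ d, (if S.real d = true then (if fu S d ≤ 2 then S.U d else 0) else 0) +
      2024 * ∑ d, (if S.real d = true then (if ¬ fu S d ≤ 2 then S.U d else 0) else 0) := by
    rw [Finset.mul_sum, Finset.mul_sum, ← Finset.sum_add_distrib]
    refine Finset.sum_congr rfl fun d _ => ?_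
    rw [c1]
    split_ifs <;> omega
  rw [e1, sum_U g (fun d => fu S d ≤ 2), sum_U g (fun d => ¬ fu S d ≤ 2), Finset.mul_sum,
    Finset.mul_sum, ← Finset.sum_add_distrib]
  refine Finset.sum_congr rfl fun e _ => ?_
  rw [c1]
  by_cases h1 : S.M.v e ∈ S.A
  · have h2 : fu S (S.fr e) = fu S e := (fu_congr (g.fr_sc h1)).symm
    rw [h2]
    by_cases h3 : fu S e ≤ 2
    · simp [h1, h3, Nat.mul_comm]
    · simp [h1, h3, Nat.mul_comm]
  · have h2 : S.u e = 0 := by
      by_contra h3; exact h1 (hW.u_A e h3)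
    simp [h2]

theorem star_nr (g : Gd S) : nr (star g) = nr S := by
  have h4 := star_sum_real g (t := fun _ => true) (t' := fun _ => true) (fun _ _ => rfl)
  simp only [true_and] at h4
  exact h4

theorem star_mu (g : Gd S) (hW : Wf Δ S L w) : mu Δ (star g) (starL S L) = mu Δ S L := by
  unfold mu n4
  have h1 : (star g).A.card = S.A.card := Finset.card_map _
  rw [h1, star_rq g hW, star_nr g, star_cnt g (fun k => 4 ≤ k)]

theorem W1.star (h : W1 L w) : W1 (starL S L) (starw S w) := by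
  intro x
  rcases x with a | ⟨a, i⟩
  · exact h a.1
  · show (if i = 0 then w a.1 else 0) = if (decide (i = 0) && L a.1) = true then 1 else 0
    rw [h]
    by_cases hi : i = 0
    · rw [if_pos hi, decide_eq_true hi]; rfl
    · rw [if_neg hi, decide_eq_false hi]; rfl

/-- the star form of a minimal counterexample is a minimal counterexample -/
theorem MC.star (hΔ : Δ ≤ 6) (h : MC Δ S L w) :
    MC Δ (star (h.gd hΔ)) (starL S L) (starw S w) := by
  refine h.of_ok h.w1.star (ok_of_rc (star_wf _ h.ok.toWf) (fun s a b => ?_)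
    (star_thr _ h.ok.u_A h.ok.thr)) (le_of_eq (star_mu _ h.ok.toWf)) fun c hc =>
    ⟨_, star_sol _ h.ok.u_A h.ok.L_real hc⟩
  rw [star_rc]
  obtain ⟨x, hx, hx'⟩ := a
  obtain ⟨y, hy, hy'⟩ := b
  obtain ⟨x', hx2, rfl⟩ := Finset.mem_map.1 hx
  obtain ⟨y', hy2, rfl⟩ := Finset.mem_map.1 hy
  have := h.cut4 hΔ (s := fun x => s (Sum.inl x)) ⟨x', hx2, hx'⟩ ⟨y', hy2, hy'⟩
  omega

/-- the state with other units -/
def wU (S : St D V) (u' : D → ℕ) : St D V where
  M := S.M
  A := S.A
  real := S.real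
  u := u'

/-- upgrades: other units and labels on the same real graph -/
theorem MC.upg (hΔ : Δ ≤ 6) (h : MC Δ S L w) {u' : D → ℕ} {L' : D → Bool} {w' : D → ℕ}
    (w1 : W1 L' w') (wf : Wf Δ (wU S u') L' w') (thr : ∀ d, u' d ≠ 0 → 3 ≤ fu (wU S u') d ∨ Two (wU S u') d)
    (hrq : rq (wU S u') L' < rq S L) (hs : ∀ c, Sol (wU S u') L' c → Sol S L c) : False := by
  have ok : Ok Δ (wU S u') L' w' := ok_of_rc wf (fun s h1 h2 => by
    have := h.cut4 hΔ h1 h2
    exact le_trans (by omega) (show S.rc s ≤ (wU S u').rc s from le_refl _)) thr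
  exact h.lt w1 ok (mu_lt_rq (le_of_eq rfl) hrq) fun c hc => ⟨c, hs c hc⟩

/-- the units of a minimal counterexample are minimal -/
theorem MC.units (hΔ : Δ ≤ 6) (h : MC Δ S L w) {u' : D → ℕ} (hle : ∀ d, u' d ≤ S.u d)
    (hlt : ∃ d, u' d < S.u d) (hq : ∀ d, S.u d ≠ 0 → 3 ≤ fu (wU S u') d ∨
      ∀ e, S.sc.r d e → u' e = S.u e) : False := by
  classical
  have hW := h.ok.toWf
  have wf : Wf Δ (wU S u') L w := {
    real_α := hW.real_α
    real_A := hW.real_A
    real_ne := hW.real_ne
    A_im := hW.A_im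
    u_A := fun d hd => hW.u_A d (fun h1 => hd (by have := hle d; show u' d = 0; omega))
    L_real := hW.L_real
    L_α := hW.L_α
    w_L := hW.w_L
    w_α := hW.w_α
    deg := fun x hx => le_trans (Finset.sum_le_sum fun d _ => by
      show (if S.M.v d = x then (if S.real d = true then 1 else 0) + u' d + w d else 0) ≤ _
      have := hle d
      split_ifs <;> omega) (hW.deg x hx)
    simple := hW.simple
    ex := hW.ex }
  have fle : ∀ d, fu (wU S u') d ≤ fu S d := by
    intro d
    refine Finset.sum_le_sum fun e _ => ?_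
    show (if S.sc.r d e then u' e else 0) ≤ if S.sc.r d e then S.u e else 0
    have := hle e
    split_ifs <;> omega
  have feq : ∀ d, (∀ e, S.sc.r d e → u' e = S.u e) → fu (wU S u') d = fu S d := by
    intro d hd
    refine Finset.sum_congr rfl fun e _ => ?_
    show (if S.sc.r d e then u' e else 0) = if S.sc.r d e then S.u e else 0
    split_ifs with h1
    · exact hd e h1
    · rfl
  have hthr : ∀ d, u' d ≠ 0 → 3 ≤ fu (wU S u') d ∨ Two (wU S u') d := by
    intro d hd
    have h1 : S.u d ≠ 0 := fun h2 => hd (by have := hle d; omega)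
    rcases hq d h1 with h2 | h2
    · exact Or.inl h2
    · rcases h.ok.thr d h1 with h3 | ⟨e, e', a1, a2, a3, a4, a5, a6⟩
      · left; rw [feq d h2]; exact h3
      · right
        refine ⟨e, e', a1, a2, ?_, ?_, a5, a6⟩
        · show u' e ≠ 0
          rw [h2 e a1]; exact a3
        · show u' e' ≠ 0
          rw [h2 e' a2]; exact a4
  refine h.upg hΔ h.w1 wf hthr ?_ fun c hc => ⟨hc.con, hc.live, fun d hd => ?_, hc.lab⟩
  · unfold rq
    refine Nat.add_lt_add_of_lt_of_le (Nat.add_lt_add_right ?_ _) (le_of_eq rfl)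
    have t1 : ∀ d, u' d * cw (fu (wU S u') d) ≤ S.u d * cw (fu S d) ∧
        (u' d < S.u d → u' d * cw (fu (wU S u') d) < S.u d * cw (fu S d)) := by
      intro d
      have hl := hle d
      by_cases h1 : S.u d = 0
      · rw [h1] at hl ⊢
        have : u' d = 0 := by omega
        rw [this]
        simp
      · rcases hq d h1 with h2 | h2
        · rw [cw3 h2, cw3 (le_trans h2 (fle d))]
          omega
        · rw [feq d h2, h2 d (S.sc.iseqv.refl d)]
          exact ⟨le_refl _, fun h => absurd h (lt_irrefl _)⟩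
    obtain ⟨d, hd⟩ := hlt
    exact Finset.sum_lt_sum (fun d _ => (t1 d).1) ⟨d, Finset.mem_univ _, (t1 d).2 hd⟩
  · obtain ⟨e, he, hu⟩ : ∃ e, S.sc.r d e ∧ u' e ≠ 0 := by
      rcases hq d hd with h1 | h1
      · by_contra hn
        push Not at hn
        have : fu (wU S u') d = 0 := by
          refine Finset.sum_eq_zero fun e _ => ?_
          show (if S.sc.r d e then u' e else 0) = 0
          split_ifs with h2
          · exact hn e h2
          · rfl
        omega
      · exact ⟨d, S.sc.iseqv.refl d, by rw [h1 d (S.sc.iseqv.refl d)]; exact hd⟩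
    exact vi_cl (S := S) (S.sc.iseqv.symm he) (hc.req e hu)

end Pool.FC7
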