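import Pool.Agent.FC7.NrA

/-! # Words of the sectors at an alive vertex of a star form

Code of the sector between the real dart `d : v → x` and the next real dart `S.nxr d : v → y`:
`l = a + 4 b + 16 c + 64 k + 256 s + 512 o`.

* `k = 0`: solid triangle, `a`, `b`, `c` = units of the corners at `v`, `x`, `y`.
* `k = 1`: gap, `a` = units of the corner at `v`, `b` = class of the face (0: nothing known,
  1: one or two units, 2: at least three units, 3: no units), `c` = length of the face
  (0: at least four real darts, 1: exactly four, 2: at least five).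
* `s`: label of `d`; `o`: label of the edge `y x` (only `k = 0`); bit 11: this label is not known.
* units `3` mean that nothing is known. -/

open Finset

set_option linter.unusedSectionVars false

namespace Pool.FC7

open Pool.FC6 Pool.FC6.St

/-- the parts of a code -/
def lA (l : ℕ) : ℕ := l % 4
def lB (l : ℕ) : ℕ := l / 4 % 4
def lC (l : ℕ) : ℕ := l / 16 % 4
def lK (l : ℕ) : ℕ := l / 64 % 4
def lS (l : ℕ) : Bool := l.testBit 8
def lO (l : ℕ) : Bool := l.testBit 9

/-- the letter of FC6 -/
def sk (l : ℕ) : ℕ := if lK l = 0 then 0 else if lC l = 0 then 1 else if lC l = 1 then 4 else 5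

/-- units: `3` means that nothing is known -/
def EqU (n a : ℕ) : Prop := a = 3 ∨ n = a

/-- the class of a face with `n` units -/
def FcU (n b : ℕ) : Prop :=
  (b = 1 → 1 ≤ n ∧ n ≤ 2) ∧ (b = 2 → 3 ≤ n) ∧ (b = 3 → n = 0)

variable {D V : Type} [Fintype D] [DecidableEq V]

/-- the code of the sector after the real dart `d` -/
structure IsL (S : St D V) (L : D → Bool) (d : D) (l : ℕ) : Prop where
  k : (nou S).IsL d (sk l)
  a : EqU (S.u (S.nxr d)) (lA l)
  s : L d = lS l
  b : lK l = 0 → EqU (S.u (S.M.α d)) (lB l)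
  c : lK l = 0 → EqU (S.u (S.M.φ (S.M.σ d))) (lC l)
  o : lK l = 0 → l.testBit 11 = false → L (S.M.φ (S.M.σ d)) = lO l
  f : lK l ≠ 0 → FcU (fu S (S.M.σ d)) (lB l)

/-- `wd` is the word of the sectors at the origin of the real dart `d`, starting after `d` -/
structure IsW (S : St D V) (L : D → Bool) (d : D) (wd : List ℕ) : Prop where
  re : S.real d = true
  len : wd.length = S.rdeg (S.M.v d)
  l : ∀ i < wd.length, IsL S L (S.nxr^[i] d) (wd.getD i 0)

theorem getD_map {w : List ℕ} {f : ℕ → ℕ} {i : ℕ} (hi : i < w.length) :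
    (w.map f).getD i 0 = f (w.getD i 0) := by
  rw [List.getD_eq_getElem _ _ (by rw [List.length_map]; exact hi), List.getElem_map,
    List.getD_eq_getElem _ _ hi]

/-- positions of the darts: flags real/virtual of the darts described by a word -/
def fl (wd : List ℕ) : List Bool := flags (wd.map sk)

/-- position of the `i`-th real dart of a word -/
def pos (wd : List ℕ) (i : ℕ) : ℕ := (fl (wd.take i)).length

variable {Δ : ℕ} {S : St D V} {L : D → Bool} {w : D → ℕ} {d : D} {wd : List ℕ}

theorem IsW.sk (h : IsW S L d wd) : (nou S).IsW d (wd.map sk) where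
  re := h.re
  len := by rw [List.length_map]; exact h.len
  l i hi := by
    rw [List.length_map] at hi
    rw [getD_map hi]
    exact (h.l i hi).k

section star

variable (hS : IsStar S) (W : Wf Δ S L w)

include hS W

theorem IsW.nd (h : IsW S L d wd) : (fl wd).length = S.nd d := h.sk.nd hS.nou W.nou

theorem IsW.per (h : IsW S L d wd) : S.M.σ^[(fl wd).length] d = d := h.sk.per hS.nou W.nou

theorem IsW.ne (h : IsW S L d wd) {j : ℕ} (h0 : 0 < j) (hj : j < (fl wd).length) :
    S.M.σ^[j] d ≠ d := h.sk.ne hS.nou W.nou h0 hj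

theorem IsW.real (h : IsW S L d wd) {j : ℕ} (hj : j < (fl wd).length) :
    S.real (S.M.σ^[j] d) = (fl wd).getD j false := h.sk.real hS.nou W.nou hj

/-- the letters of FC6 at the virtual darts -/
theorem IsW.csz (h : IsW S L d wd) {j : ℕ} (hj : j < (fl wd).length)
    (hr : S.real (S.M.σ^[j] d) = false) :
    CL (S.csz (S.M.σ^[j] d)) ((kin (wd.map FC7.sk)).getD j 0) ∧
      (kin (wd.map FC7.sk)).getD j 0 ≠ 0 := h.sk.csz hS.nou W.nou hj hr

/-- the word at the next real dart -/
theorem IsW.rot (h : IsW S L d wd) : IsW S L (S.nxr d) (wd.rotate 1) := by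
  refine ⟨hS.nxr_real W h.re, by rw [List.length_rotate, h.len, v_nxr], fun i hi => ?_⟩
  rw [List.length_rotate] at hi
  have e : (wd.rotate 1).getD i 0 = wd.getD ((i + 1) % wd.length) 0 := by
    rw [List.getD_eq_getElem _ _ (by rw [List.length_rotate]; exact hi), List.getElem_rotate,
      List.getD_eq_getElem _ _ (Nat.mod_lt _ (by omega))]
  rw [e, ← Function.iterate_succ_apply]
  by_cases h1 : i + 1 < wd.length
  · rw [Nat.mod_eq_of_lt h1]
    exact h.l _ h1
  · have h2 : i + 1 = wd.length := by omega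
    have h3 : S.nxr^[i.succ] d = d := by
      rw [Nat.succ_eq_add_one, h2, h.len]
      exact hS.nxr_rdeg W h.re
    rw [h3, h2, Nat.mod_self]
    exact h.l 0 (by omega)

theorem IsW.rots (h : IsW S L d wd) (k : ℕ) : IsW S L (S.nxr^[k] d) (wd.rotate k) := by
  induction k with
  | zero => simpa using h
  | succ k ih =>
    rw [Function.iterate_succ_apply', ← List.rotate_rotate]
    exact ih.rot hS W

omit hS W in
/-- refinement of the codes -/
theorem IsW.mono (h : IsW S L d wd) {wd' : List ℕ} (hl : wd'.length = wd.length)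
    (hh : ∀ i < wd.length, IsL S L (S.nxr^[i] d) (wd.getD i 0) →
      IsL S L (S.nxr^[i] d) (wd'.getD i 0)) : IsW S L d wd' :=
  ⟨h.re, by rw [hl]; exact h.len, fun i hi => hh i (by omega) (h.l i (by omega))⟩

omit hS W in
theorem ps_pos (h : IsW S L d wd) {i : ℕ} (hi : i ≤ wd.length) : S.ps d i = pos wd i := by
  unfold pos fl
  rw [← nou_ps (S := S), St.flags_ps (S := nou S) ((wd.take i).map FC7.sk) (d := d)]
  · rw [List.length_map, List.length_take, min_eq_left hi]
  · intro k hk
    rw [List.length_map, List.length_take] at hk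
    rw [getD_map (by rw [List.length_take]; exact hk)]
    have e : (wd.take i).getD k 0 = wd.getD k 0 := by
      rw [List.getD_eq_getElem _ _ (by rw [List.length_take]; exact hk), List.getElem_take,
        List.getD_eq_getElem _ _ (by omega)]
    rw [e]
    exact (h.l k (by omega)).k

omit hS W in
/-- the `i`-th real dart -/
theorem nxr_pos (h : IsW S L d wd) {i : ℕ} (hi : i ≤ wd.length) :
    S.nxr^[i] d = S.M.σ^[pos wd i] d := by
  rw [St.nxr_ps, ps_pos h hi]

omit hS W in
/-- solid sectors and gaps -/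
theorem IsL.solid {l : ℕ} (h : IsL S L d l) (hk : lK l = 0) : S.real (S.M.σ d) = true := by
  have h1 := h.k
  unfold FC7.sk at h1
  rw [if_pos hk] at h1
  unfold St.IsL at h1
  rw [if_pos rfl] at h1
  exact h1

omit hS W in
theorem IsL.gap {l : ℕ} (h : IsL S L d l) (hk : lK l ≠ 0) :
    S.real (S.M.σ d) = false ∧ 4 ≤ S.csz (S.M.σ d) ∧ (lC l = 1 → S.csz (S.M.σ d) = 4) ∧
      (2 ≤ lC l → 5 ≤ S.csz (S.M.σ d)) := by
  have h1 := h.k
  unfold FC7.sk at h1
  rw [if_neg hk] at h1
  unfold St.IsL CL at h1
  have e1 : (nou S).real ((nou S).M.σ d) = S.real (S.M.σ d) := rfl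
  have e2 : (nou S).csz ((nou S).M.σ d) = S.csz (S.M.σ d) := rfl
  rw [e1, e2] at h1
  by_cases h2 : lC l = 0
  · rw [if_pos h2] at h1
    norm_num at h1
    exact ⟨h1.1, h1.2, fun h => by omega, fun h => by omega⟩
  · rw [if_neg h2] at h1
    by_cases h3 : lC l = 1
    · rw [if_pos h3] at h1
      norm_num at h1
      exact ⟨h1.1, by omega, fun _ => h1.2, fun h => by omega⟩
    · rw [if_neg h3] at h1
      norm_num at h1
      exact ⟨h1.1, by omega, fun h => by omega, fun _ => h1.2⟩

omit hS W in
theorem IsL.nxr_solid {l : ℕ} (h : IsL S L d l) (hk : lK l = 0) : S.nxr d = S.M.σ d :=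
  if_pos (h.solid hk)

omit hS W in
theorem IsL.nxr_gap {l : ℕ} (h : IsL S L d l) (hk : lK l ≠ 0) : S.nxr d = S.M.σ (S.M.σ d) :=
  if_neg (by rw [(h.gap hk).1]; decide)

end star

end Pool.FC7
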