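import Pool.Agent.FC7.DiE
import Pool.Agent.FC7.Mcs
import Pool.Agent.FC7.WdA

/-! # The star form of the converted state: rotations -/

open Finset

set_option linter.unusedSectionVars false

namespace Pool.FC7

open Pool.FC6 Pool.FC6.St

section gen

variable {D V : Type} [Fintype D] [DecidableEq V] {S : St D V}

theorem real_nx' (g : Gd S) {a : D} (ha : S.real a = true) : S.real (S.nx a) = true :=
  real_nx g.full (g.real_A a ha)

theorem B_α (a : D) : S.B (S.M.α a) = S.nx a := by
  unfold B
  rw [S.M.αα]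

/-- the rotation at a solid sector -/
theorem star_σ_pp (g : Gd S) {a : D} (ha : S.real a = true) (hp : pp S (S.M.α a) = true) :
    (star g).M.σ (em a ha) = em (S.nx a) (real_nx' g ha) := by
  show sφ' g (sα' g (em a ha)) = _
  rw [sα_em g ha, em_pp _ hp]
  have h1 : pp S (S.nx a) = true := by
    have := g.pp_B hp
    rwa [B_α] at this
  rw [em_pp _ h1]
  show Sum.inl (⟨S.B (S.M.α a), g.pp_B hp⟩ : {d // pp S d = true}) = Sum.inl ⟨S.nx a, h1⟩
  congr 1
  exact Subtype.ext (B_α a)

/-- the rotation at a gap -/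
theorem star_σ_gg (g : Gd S) {a : D} (ha : S.real a = true) (hp : gg S (S.M.α a) = true) :
    (star g).M.σ (em a ha) = Sum.inr (⟨S.M.α a, hp⟩, 1) := by
  show sφ' g (sα' g (em a ha)) = _
  rw [sα_em g ha, em_gg _ hp]
  rfl

theorem star_σσ_gg (g : Gd S) {a : D} (ha : S.real a = true) (hp : gg S (S.M.α a) = true) :
    (star g).M.σ ((star g).M.σ (em a ha)) = em (S.nx a) (real_nx' g ha) := by
  rw [star_σ_gg g ha hp]
  show sφ' g (sα' g (Sum.inr (⟨S.M.α a, hp⟩, 1))) = _
  show Sum.inr (Be g ⟨S.M.α a, hp⟩, 2 + 1) = _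
  have h1 : gg S (S.nx a) = true := by
    have := g.gg_B hp
    rwa [B_α] at this
  rw [em_gg _ h1]
  congr 1
  refine Prod.ext (Subtype.ext ?_) rfl
  show S.B (S.M.α a) = _
  exact B_α a

theorem star_real_σ (g : Gd S) {a : D} (ha : S.real a = true) :
    (star g).real ((star g).M.σ (em a ha)) = pp S (S.M.α a) := by
  rcases pg (S := S) (d := S.M.α a) (by rw [g.real_α]; exact ha) with hp | hp
  · rw [star_σ_pp g ha hp, hp]
    exact star_real_em g _
  · rw [star_σ_gg g ha hp]
    have : pp S (S.M.α a) = false := by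
      by_contra h
      exact not_pg (by simpa using h) hp
    rw [this]
    rfl

/-- the next real dart of the star form -/
theorem star_nxr (g : Gd S) {a : D} (ha : S.real a = true) :
    (star g).nxr (em a ha) = em (S.nx a) (real_nx' g ha) := by
  unfold nxr
  rw [star_real_σ g ha]
  rcases pg (S := S) (d := S.M.α a) (by rw [g.real_α]; exact ha) with hp | hp
  · rw [if_pos hp, star_σ_pp g ha hp]
  · rw [if_neg (fun h => not_pg h hp), star_σσ_gg g ha hp]

end gen

variable {D V : Type} [Fintype D] [DecidableEq V] {S : St D V} {L : D → Bool} {w : D → ℕ} {Δ : ℕ}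
  {C : Finset V}

/-- the vertex `x` has no unit at the hubs of `C` -/
structure Free (S : St D V) (C : Finset V) (x : V) : Prop where
  A : x ∈ S.A
  r : ∀ z, S.M.v z = x → (conv S C).real z = S.real z

section free

variable (hS : IsStar S) (W : Wf Δ S L w) (hC : ∀ c ∈ C, Hub3 S c)

include hS W hC

theorem Free.u {z : D} (hz : Free S C (S.M.v z)) : (conv S C).u z = S.u z := by
  rw [conv_u]
  split_ifs with h
  · by_contra hu
    have hu' : S.u z ≠ 0 := fun h0 => hu h0.symm
    have hv : S.M.v (S.M.α (S.M.φ (S.M.φ z))) = S.M.v z := by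
      rw [← S.M.vφ, S.M.φ3]
    have h1 : (conv S C).real (S.M.α (S.M.φ (S.M.φ z))) = true :=
      conv_real.2 (Or.inr (Or.inr ⟨by rw [S.M.αα]; exact h, by rw [S.M.αα, S.M.φ3]; exact hu'⟩))
    rw [hz.r _ hv] at h1
    have h2 := W.real_A _ (by rw [W.real_α]; exact h1 : S.real (S.M.α (S.M.α (S.M.φ (S.M.φ z)))) = true)
    rw [S.M.αα] at h2
    exact (hC _ h).dead h2
  · rfl

theorem Free.nx (g : Gd (conv S C)) {d : D} (hd : S.real d = true) (hv : Free S C (S.M.v d)) :
    (conv S C).nx d = S.nxr d := by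
  unfold St.nx nxr
  have hσ : S.M.v (S.M.σ d) = S.M.v d := S.M.vσ d
  have h1 := hv.r (S.M.σ d) hσ
  by_cases h : S.real (S.M.σ d) = true
  · rw [if_pos h]
    exact fr_real (S := conv S C) (h1.trans h)
  · rw [if_neg h]
    have h' : S.real (S.M.σ d) = false := by simpa using h
    have h2 : S.real (S.M.σ (S.M.σ d)) = true := hS.real2 W hd h'
    have h3 : (conv S C).real (S.M.σ (S.M.σ d)) = true := by
      rw [hv.r _ (by rw [S.M.vσ, hσ])]; exact h2
    have h4 : (conv S C).fr (S.M.σ d) = (conv S C).fr (S.M.σ (S.M.σ d)) := by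
      refine fr_virt' g.full ?_ (by rw [h1]; exact h')
      show S.M.v (S.M.σ d) ∈ S.A ∪ C
      rw [hσ]
      exact Finset.mem_union_left _ hv.A
    show (conv S C).fr (S.M.σ d) = _
    rw [h4]
    exact fr_real h3

theorem conv_U {a : D} (ha : (conv S C).real a = true) : (conv S C).U a = (conv S C).u a := by
  classical
  unfold St.U
  rw [Finset.sum_eq_single a]
  · by_cases h0 : (conv S C).u a = 0
    · rw [h0]; split_ifs <;> rfl
    · rw [if_pos]
      refine ⟨?_, fr_real ha⟩
      have h1 : S.u a ≠ 0 := by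
        intro h2
        apply h0
        rw [conv_u, h2]
        split_ifs <;> rfl
      exact Finset.mem_union_left _ (W.u_A a h1)
  · intro b _ hb
    by_cases h0 : (conv S C).u b = 0
    · rw [h0]; split_ifs <;> rfl
    · rw [if_neg]
      rintro ⟨_, h1⟩
      have h2 : S.u b ≠ 0 := by
        intro h2
        apply h0
        rw [conv_u, h2]
        split_ifs <;> rfl
      have h3 : (conv S C).real b = true := conv_real.2 (Or.inl (hS.ur b h2))
      rw [fr_real h3] at h1
      exact hb h1
  · intro h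
    exact absurd (Finset.mem_univ _) h

end free

end Pool.FC7
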