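import Pool.Agent.FC7.CoA

/-! # The star form of the converted state: letters and words -/

open Finset

set_option linter.unusedSectionVars false

namespace Pool.FC7

open Pool.FC6 Pool.FC6.St

variable {D V : Type} [Fintype D] [DecidableEq V] {S : St D V} {L : D → Bool} {w : D → ℕ} {Δ : ℕ}
  {C : Finset V}

theorem conv_real_off (hS : IsStar S) (W : Wf Δ S L w) (hC : ∀ c ∈ C, Hub3 S c) {d : D}
    (h : ¬ OnC S C d) : (conv S C).real d = S.real d := by
  cases h1 : S.real d
  · by_contra h2
    exact h (onC_spoke hS W hC h1 (by simpa using h2))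
  · exact conv_real.2 (Or.inl h1)

/-- faces which are not converted have the same length -/
theorem conv_csz_off (hS : IsStar S) (W : Wf Δ S L w) (hC : ∀ c ∈ C, Hub3 S c) {d : D}
    (h : ¬ OnC S C d) : (conv S C).csz d = S.csz d := by
  classical
  unfold csz
  refine Finset.sum_congr rfl fun r _ => if_congr ?_ rfl rfl
  constructor
  · rintro ⟨h1, h2⟩
    have h3 := conv_sc h2
    have h4 : ¬ OnC S C r := fun hh => h ((onC_sc hS W hC h3).2 hh)
    rw [conv_real_off hS W hC h4] at h1
    exact ⟨h1, h3⟩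
  · rintro ⟨h1, h2⟩
    exact ⟨conv_real.2 (Or.inl h1), sc_conv hS W hC h h2⟩

theorem csz_σ (hra : ∀ d, S.real (S.M.α d) = S.real d) (d : D) :
    S.csz (S.M.σ d) = S.csz (S.M.α d) := by
  refine csz_congr ?_
  intro t ht
  show t (S.M.φ (S.M.α d)) = t (S.M.α d)
  exact ht.1 _

theorem sc_σ (d : D) : S.sc.r (S.M.σ d) (S.M.α d) := fun t ht => ht.1 (S.M.α d)

section gen

variable (g : Gd S)

theorem star_csz_σ {a : D} (ha : S.real a = true) :
    (star g).csz ((star g).M.σ (em a ha)) = S.csz (S.M.α a) := by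
  have h1 : (star g).csz ((star g).M.σ (em a ha)) = (star g).csz ((star g).M.α (em a ha)) :=
    csz_congr (sc_σ (S := star g) _)
  rw [h1, star_α_em g ha, star_csz g]

theorem star_fu_σ (uA : ∀ d, S.u d ≠ 0 → S.M.v d ∈ S.A) {a : D} (ha : S.real a = true) :
    fu (star g) ((star g).M.σ (em a ha)) = fu S (S.M.α a) := by
  rw [fu_congr (sc_σ (S := star g) _), star_α_em g ha, star_fu g uA]

/-- the third dart of a solid triangle -/
theorem star_φ_pp {a : D} (ha : S.real a = true) (hp : pp S a = true) :
    (star g).M.φ (em a ha) = em (S.B a) (g.real_B ha) := by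
  rw [em_pp _ hp, em_pp _ (g.pp_B hp)]
  rfl

end gen

section free

variable (hS : IsStar S) (W : Wf Δ S L w) (hC : ∀ c ∈ C, Hub3 S c) (g : Gd (conv S C))

include hS W hC

theorem creal {a : D} (ha : S.real a = true) : (conv S C).real a = true :=
  conv_real.2 (Or.inl ha)

theorem solid_csz {a : D} (ha : S.real a = true) :
    S.real (S.M.σ a) = true ↔ S.csz (S.M.α a) = 3 :=
  hS.pl3 (S.M.α a) (by rw [W.real_α]; exact ha)

/-- `u` of an embedded dart at a free vertex -/
theorem Free.ue {z : D} (hz : Free S C (S.M.v z)) (hr : (conv S C).real z = true) :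
    (star g).u (em z hr) = S.u z := by
  rw [star_u_em g hr, conv_U hS W hC hr, hz.u hS W hC]

theorem u_off {z : D} (hz : ¬ OnC S C z) (hr : (conv S C).real z = true) :
    (star g).u (em z hr) = S.u z := by
  rw [star_u_em g hr, conv_U hS W hC hr, conv_u_off hz]

theorem conv_uA : ∀ d, (conv S C).u d ≠ 0 → S.M.v d ∈ (conv S C).A := by
  intro d hd
  refine Finset.mem_union_left _ (W.u_A d fun h => hd ?_)
  rw [conv_u, h]
  exact ite_self _

/-- the letter of a sector whose face is not converted -/
theorem isL_off {a : D} (ha : S.real a = true) (hx : Free S C (S.M.v a))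
    (ho : ¬ OnC S C (S.M.α a)) {l : ℕ} (h : IsL S L a l) :
    IsL (star g) (starL (conv S C) L) (em a (creal hS W hC ha)) l := by
  have hαr : (conv S C).real (S.M.α a) = true := creal hS W hC (by rw [W.real_α]; exact ha)
  have hnx : (conv S C).nx a = S.nxr a := hx.nx hS W hC g ha
  have hnr : S.real (S.nxr a) = true := hS.nxr_real W ha
  have vn : S.M.v (S.nxr a) = S.M.v a := v_nxr a
  have hcs : (conv S C).csz (S.M.α a) = S.csz (S.M.α a) := conv_csz_off hS W hC ho
  have hpp : pp (conv S C) (S.M.α a) = true ↔ S.real (S.M.σ a) = true := by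
    rw [pp_iff, plf_iff, hcs, solid_csz hS W hC ha]
    exact ⟨fun h => h.2, fun h => ⟨hαr, h⟩⟩
  have hs0 : lK l = 0 → S.real (S.M.σ a) = true := by
    intro hk
    have h1 := h.k
    unfold St.IsL at h1
    rw [if_pos (show sk l = 0 by unfold sk; rw [if_pos hk])] at h1
    exact h1
  have hsol : lK l = 0 → (star g).M.σ (em a (creal hS W hC ha)) =
      em (S.nxr a) (creal hS W hC hnr) := by
    intro hk
    rw [star_σ_pp g _ (hpp.2 (hs0 hk))]
    exact em_congr hnx _ _
  have hφ : ∀ hk : lK l = 0, (star g).M.φ ((star g).M.σ (em a (creal hS W hC ha))) =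
      em (S.M.φ (S.M.σ a)) (creal hS W hC (hS.two _ (by rw [W.real_α]; exact ha) (hs0 hk))) := by
    intro hk
    rw [hsol hk]
    have h3 := hs0 hk
    have h4 : S.nxr a = S.M.σ a := by unfold nxr; rw [if_pos h3]
    have h5 : pp (conv S C) (S.nxr a) = true := by
      have := g.pp_B (hpp.2 h3)
      have e : (conv S C).B (S.M.α a) = S.nxr a := (B_α (S := conv S C) a).trans hnx
      rwa [e] at this
    rw [star_φ_pp g _ h5]
    refine em_congr ?_ _ _
    have h6 : (conv S C).real (S.M.φ (S.M.σ a)) = true :=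
      creal hS W hC (hS.two (S.M.α a) (by rw [W.real_α]; exact ha) h3)
    show (conv S C).fr (S.M.φ (S.M.α (S.M.α (S.nxr a)))) = _
    rw [S.M.αα, h4]
    exact fr_real (S := conv S C) h6
  have ho1 : ¬ OnC S C (S.M.φ (S.M.σ a)) := fun hh =>
    ho ((onC_sc hS W hC (S.sc.iseqv.trans (fun t ht => ht.1 (S.M.σ a)) (sc_σ a))).1 hh)
  refine ⟨?_, ?_, ?_, fun hk => ?_, fun hk => ?_, fun hk => ?_, fun hk => ?_⟩
  · have h1 := h.k
    unfold St.IsL at h1 ⊢
    by_cases hk : sk l = 0
    · rw [if_pos hk] at h1 ⊢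
      show (star g).real ((star g).M.σ (em a _)) = true
      rw [star_real_σ g]
      exact hpp.2 h1
    · rw [if_neg hk] at h1 ⊢
      refine ⟨?_, ?_⟩
      · show (star g).real ((star g).M.σ (em a _)) = false
        rw [star_real_σ g]
        show pp (conv S C) (S.M.α a) = false
        cases h2 : pp (conv S C) (S.M.α a)
        · rfl
        · have h3 := hpp.1 h2
          have h4 : S.real (S.M.σ a) = false := h1.1
          rw [h3] at h4
          exact absurd h4 (by decide)
      · show CL ((star g).csz ((star g).M.σ (em a _))) (sk l)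
        rw [star_csz_σ g]
        show CL ((conv S C).csz (S.M.α a)) (sk l)
        rw [hcs, ← csz_σ W.real_α]
        exact h1.2
  · rw [star_nxr g]
    have h1 := h.a
    rw [← Free.ue hS W hC g (z := S.nxr a) (by rw [vn]; exact hx) (creal hS W hC hnr)] at h1
    rw [em_congr hnx (real_nx' g (creal hS W hC ha)) (creal hS W hC hnr)]
    exact h1
  · rw [starL_em]; exact h.s
  · rw [star_α_em g]
    have := u_off hS W hC g ho hαr
    show EqU ((star g).u (em (S.M.α a) hαr)) (lB l)
    rw [this]
    exact h.b hk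
  · rw [hφ hk, u_off hS W hC g ho1]
    exact h.c hk
  · rw [hφ hk, starL_em]
    exact h.o hk
  · rw [star_fu_σ g (conv_uA hS W hC)]
    show FcU (fu (conv S C) (S.M.α a)) (lB l)
    rw [conv_fu hS W hC ho, ← fu_congr (sc_σ (S := S) a)]
    exact h.f hk

end free

end Pool.FC7
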