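import Pool.Agent.FC7.CoB

/-! # The star form of the converted state: converted sectors, words -/

open Finset

set_option linter.unusedSectionVars false

namespace Pool.FC7

open Pool.FC6 Pool.FC6.St

variable {D V : Type} [Fintype D] [DecidableEq V] {S : St D V} {L : D → Bool} {w : D → ℕ} {Δ : ℕ}
  {C : Finset V}

section free

variable (hS : IsStar S) (W : Wf Δ S L w) (hC : ∀ c ∈ C, Hub3 S c) (g : Gd (conv S C))

include hS W hC

/-- a real dart of the converted state between old vertices is old -/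
theorem conv_old {r : D} (hr : (conv S C).real r = true) (h1 : S.M.v r ∈ S.A)
    (h2 : S.M.v (S.M.α r) ∈ S.A) : S.real r = true := by
  rcases conv_real.1 hr with k | k | k
  · exact k
  · exact absurd h1 (hC _ k.1).dead
  · exact absurd h2 (hC _ k.1).dead

include g in
/-- the sector of a converted face is a gap of length at least 4 -/
theorem csz_on (h4 : ∀ x ∈ S.A, 4 ≤ S.rdeg x) {a : D} (ha : S.real a = true)
    (hx : Free S C (S.M.v a)) (hg : S.real (S.M.σ a) = false) (hF : Fc3 S a) :
    4 ≤ (conv S C).csz (S.M.α a) := by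
  classical
  have hαr : (conv S C).real (S.M.α a) = true := creal hS W hC (by rw [W.real_α]; exact ha)
  have hnx : (conv S C).nx a = S.nxr a := hx.nx hS W hC g ha
  have hnr : S.real (S.nxr a) = true := hS.nxr_real W ha
  have vn : S.M.v (S.nxr a) = S.M.v a := v_nxr a
  have d4 := h4 _ hx.A
  obtain ⟨b, hb⟩ : ∃ b, b = S.nxr a := ⟨_, rfl⟩
  have hbr : S.real b = true := by rw [hb]; exact hnr
  have hbv : S.M.v b = S.M.v a := by rw [hb]; exact vn
  have hba : b ≠ a := by
    have := hS.nxr_ne W ha (j := 1) (by norm_num) (by omega)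
    rw [hb]
    exact this
  have hB1 : (conv S C).B (S.M.α a) = b := by
    rw [hb]
    exact (B_α (S := conv S C) a).trans hnx
  obtain ⟨r1, hr1⟩ : ∃ r1, r1 = (conv S C).B b := ⟨_, rfl⟩
  obtain ⟨r2, hr2⟩ : ∃ r2, r2 = (conv S C).B r1 := ⟨_, rfl⟩
  have cb : (conv S C).real b = true := creal hS W hC hbr
  have c1 : (conv S C).real r1 = true := by rw [hr1]; exact g.real_B cb
  have c2 : (conv S C).real r2 = true := by rw [hr2]; exact g.real_B c1
  have s0 : (conv S C).sc.r (S.M.α a) b := by
    have := g.B_sc hαr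
    rwa [hB1] at this
  have s1 : (conv S C).sc.r (S.M.α a) r1 := by
    refine (conv S C).sc.iseqv.trans s0 ?_
    rw [hr1]; exact g.B_sc cb
  have s2 : (conv S C).sc.r (S.M.α a) r2 := by
    refine (conv S C).sc.iseqv.trans s1 ?_
    rw [hr2]; exact g.B_sc c1
  have v1 : S.M.v r1 = S.M.v (S.M.α b) := by rw [hr1]; exact v_B (S := conv S C) b
  have v2 : S.M.v r2 = S.M.v (S.M.α r1) := by rw [hr2]; exact v_B (S := conv S C) r1
  have na := W.real_ne a ha
  have nb := W.real_ne b hbr
  have e1 : S.M.α a ≠ b := fun h => na (by rw [← hbv, ← h])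
  have e2 : b ≠ r1 := fun h => nb (by rw [← v1, ← h])
  have e3 : S.M.α a ≠ r1 := by
    intro h
    apply hba
    refine W.simple b a hbr ha hbv ?_
    rw [← v1, ← h]
  have e4 : r1 ≠ r2 := by rw [hr2]; exact (g.B_ne c1).symm
  have e5 : b ≠ r2 := by
    intro h
    rw [hr2, ← hB1] at h
    exact e3 (g.B_inj hαr c1 h)
  have e6 : S.M.α a ≠ r2 := by
    intro h
    have k1 : S.M.v (S.M.α r1) = S.M.v (S.M.α a) := by rw [← v2, ← h]
    have k2 : S.real r1 = true := conv_old hS W hC c1 (by
      rw [v1]; exact W.real_A _ (by rw [W.real_α]; exact hbr)) (by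
      rw [k1]; exact W.real_A _ (by rw [W.real_α]; exact ha))
    rcases hF b (S.M.α r1) hbv k1 (by rw [S.M.αα]; exact v1.symm) with ⟨h1, -⟩ | ⟨h1, -⟩
    · rw [h1, hg] at hbr
      exact absurd hbr (by decide)
    · have h3 : S.nxr b = a := by
        unfold nxr
        rw [h1, if_pos ha]
      have := hS.nxr_ne W ha (j := 2) (by norm_num) (by omega)
      apply this
      show S.nxr (S.nxr a) = a
      rw [← hb, h3]
  have h5 : ({S.M.α a, b, r1, r2} : Finset D) ⊆ rds (conv S C) (S.M.α a) := by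
    intro z hz
    simp only [Finset.mem_insert, Finset.mem_singleton] at hz
    rw [mem_rds]
    rcases hz with rfl | rfl | rfl | rfl
    · exact ⟨hαr, (conv S C).sc.iseqv.refl _⟩
    · exact ⟨cb, s0⟩
    · exact ⟨c1, s1⟩
    · exact ⟨c2, s2⟩
  have h6 := Finset.card_le_card h5
  rw [Finset.card_insert_of_notMem (by simp [e1, e3, e6]),
    Finset.card_insert_of_notMem (by simp [e2, e5]), Finset.card_pair e4] at h6
  rw [csz_eq]
  omega

/-- the letter of a converted sector -/
theorem isL_on (h4 : ∀ x ∈ S.A, 4 ≤ S.rdeg x) {a : D} (ha : S.real a = true)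
    (hx : Free S C (S.M.v a)) (ho : OnC S C (S.M.α a)) (hg : S.real (S.M.σ a) = false)
    (hF : Fc3 S a) {l : ℕ} (hk : lK l ≠ 0) (hc : lC l = 0) (hu : EqU (S.u (S.nxr a)) (lA l))
    (hs : L a = lS l) (hf : FcU 0 (lB l)) :
    IsL (star g) (starL (conv S C) L) (em a (creal hS W hC ha)) l := by
  have hnx : (conv S C).nx a = S.nxr a := hx.nx hS W hC g ha
  have hnr : S.real (S.nxr a) = true := hS.nxr_real W ha
  have vn : S.M.v (S.nxr a) = S.M.v a := v_nxr a
  have h5 := csz_on hS W hC g h4 ha hx hg hF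
  have hsk : sk l = 1 := by unfold sk; rw [if_neg hk, if_pos hc]
  refine ⟨?_, ?_, ?_, fun h => absurd h hk, fun h => absurd h hk, fun h => absurd h hk,
    fun _ => ?_⟩
  · unfold St.IsL
    rw [hsk, if_neg (by decide)]
    refine ⟨?_, ?_⟩
    · show (star g).real ((star g).M.σ (em a _)) = false
      rw [star_real_σ g]
      show pp (conv S C) (S.M.α a) = false
      cases h2 : pp (conv S C) (S.M.α a)
      · rfl
      · have := plf_iff.1 (pp_iff.1 h2).2
        omega
    · show CL ((star g).csz ((star g).M.σ (em a _))) 1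
      rw [star_csz_σ g]
      show CL ((conv S C).csz (S.M.α a)) 1
      unfold CL
      rw [if_pos rfl]
      exact h5
  · rw [star_nxr g, em_congr hnx (real_nx' g (creal hS W hC ha)) (creal hS W hC hnr),
      Free.ue hS W hC g (z := S.nxr a) (by rw [vn]; exact hx) (creal hS W hC hnr)]
    exact hu
  · rw [starL_em]; exact hs
  · rw [star_fu_σ g (conv_uA hS W hC)]
    show FcU (fu (conv S C) (S.M.α a)) (lB l)
    have h6 : fu (conv S C) (S.M.α a) = 0 := by
      classical
      unfold fu
      refine Finset.sum_eq_zero fun e _ => ?_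
      by_cases h7 : (conv S C).sc.r (S.M.α a) e
      · rw [if_pos h7]
        exact conv_u_on hS W hC ((onC_sc hS W hC (conv_sc h7)).1 ho)
      · rw [if_neg h7]
    rw [h6]
    exact hf

/-- the rotation at a free vertex -/
theorem star_nxr_iter {a : D} (ha : S.real a = true) (hx : Free S C (S.M.v a)) (i : ℕ) :
    (star g).nxr^[i] (em a (creal hS W hC ha)) =
      em (S.nxr^[i] a) (creal hS W hC (hS.nxr_iter_real W ha i)) := by
  induction i with
  | zero => rfl
  | succ i ih =>
    rw [Function.iterate_succ_apply', ih, star_nxr g]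
    refine em_congr ?_ _ _
    rw [Function.iterate_succ_apply']
    exact Free.nx hS W hC g (hS.nxr_iter_real W ha i) (by rw [v_nxr_iter]; exact hx)

theorem conv_rdeg_free {x : V} (hx : Free S C x) : (conv S C).rdeg x = S.rdeg x := by
  unfold rdeg
  refine Finset.sum_congr rfl fun d _ => if_congr ?_ rfl rfl
  constructor
  · rintro ⟨h1, h2⟩
    have h1' : S.M.v d = x := h1
    exact ⟨h1', by rw [← hx.r d h1']; exact h2⟩
  · rintro ⟨h1, h2⟩
    exact ⟨h1, by rw [hx.r d h1]; exact h2⟩

/-- what is known about a sector and its letter in the converted state -/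
def CvL (S : St D V) (L : D → Bool) (C : Finset V) (a : D) (l : ℕ) : Prop :=
  (¬ OnC S C (S.M.α a) ∧ IsL S L a l) ∨ (OnC S C (S.M.α a) ∧ S.real (S.M.σ a) = false ∧
    lK l ≠ 0 ∧ lC l = 0 ∧ EqU (S.u (S.nxr a)) (lA l) ∧ L a = lS l ∧ FcU 0 (lB l))

/-- the words of the converted state -/
theorem isW_conv (h4 : ∀ x ∈ S.A, 4 ≤ S.rdeg x) {a : D} (ha : S.real a = true)
    (hx : Free S C (S.M.v a)) (hF : ∀ k, S.real k = true → S.M.v k = S.M.v a → Fc3 S k)
    {wd : List ℕ} (hl : wd.length = S.rdeg (S.M.v a))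
    (h : ∀ i < wd.length, CvL S L C (S.nxr^[i] a) (wd.getD i 0)) :
    IsW (star g) (starL (conv S C) L) (em a (creal hS W hC ha)) wd where
  re := star_real_em g _
  len := by
    rw [star_v_em g, hl]
    have h1 : (star g).rdeg (Sum.inl (S.M.v a)) = (conv S C).rdeg (S.M.v a) := star_rdeg g _
    have h2 := conv_rdeg_free hS W hC hx
    rw [← h2]
    exact h1.symm
  l i hi := by
    rw [star_nxr_iter hS W hC g ha hx i]
    have hr := hS.nxr_iter_real W ha i
    have hv : S.M.v (S.nxr^[i] a) = S.M.v a := v_nxr_iter i a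
    have hx' : Free S C (S.M.v (S.nxr^[i] a)) := by rw [hv]; exact hx
    rcases h i hi with ⟨h1, h2⟩ | ⟨h1, h2, h3, h5, h6, h7, h8⟩
    · exact isL_off hS W hC g hr hx' h1 h2
    · exact isL_on hS W hC g h4 hr hx' h1 h2 (hF _ hr hv) h3 h5 h6 h7 h8

end free

end Pool.FC7
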