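import Pool.Agent.FC7.CoC

/-! # The star form of the converted state: two darts with the same head are equal -/

open Finset

set_option linter.unusedSectionVars false

namespace Pool.FC7

open Pool.FC6 Pool.FC6.St

section gen

variable {D V : Type} [Fintype D] [DecidableEq V] {S : St D V} {L : D → Bool} {w : D → ℕ} {Δ : ℕ}

/-- no face passes twice through the vertex `x`, if both sides of such a curve would have at least
four edges -/
theorem n2_gen (W : Wf Δ S L w) (hS : IsStar S) (hΔ : Δ ≤ 7) {x : V}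
    (hcut : ∀ s : V → Bool, s x = false → (∃ y ∈ S.A, s y = true) →
      (∀ d, S.real d = true → s (S.M.v d) = true → S.M.v (S.M.α d) ≠ x →
        s (S.M.v (S.M.α d)) = true) → 4 ≤ S.rc s)
    {d d' : D} (hd : S.real d = false) (hd' : S.real d' = false) (hx : x ∈ S.A)
    (h1 : S.M.v d = x) (h2 : S.M.v d' = x) (hh : S.M.v (S.M.α d) = S.M.v (S.M.α d')) :
    d = d' := by
  by_contra hne
  have hv : S.M.v d = S.M.v d' := h1.trans h2.symm
  have hxd : S.M.v d ∈ S.A := by rw [h1]; exact hx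
  have hl : S.M.v (S.M.α d) ≠ S.M.v d := hS.loop W hxd
  have hz := hS.vhead W hxd hd
  obtain ⟨s, hs, hT⟩ := exists_tw (S := nou S) hne hv hh hl
  have hc : S.M.Curve ![d, S.M.α d'] := curve2 (S := nou S) hne hv hh hl
  have hs : S.M.SideOf ![d, S.M.α d'] s := hs
  have ho : S.out ![d, S.M.α d'] ≤ 7 := by
    have h1 : S.out ![d, S.M.α d'] + ∑ i : Fin 2, (if S.real (![d, S.M.α d'] i) = true then 2 else 0)
        ≤ ∑ i : Fin 2, S.rdeg (S.M.v (![d, S.M.α d'] i)) := out_le (S := nou S) W.nou hc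
    have h3 : ∑ i : Fin 2, S.rdeg (S.M.v (![d, S.M.α d'] i)) ≤ 7 := by
      rw [Fin.sum_univ_two]
      have a1 := rdeg_le W (S.M.v d)
      have a2 : S.rdeg (S.M.v (S.M.α d')) = 0 := rdeg_dead W (by rw [← hh]; exact hz)
      show S.rdeg (S.M.v d) + S.rdeg (S.M.v (S.M.α d')) ≤ 7
      omega
    omega
  have hoff : ∀ z, S.M.v z ∈ S.A → S.M.v z ≠ x → S.Off ![d, S.M.α d'] z := by
    intro z h0 h3 i
    fin_cases i
    · intro h4
      exact h3 (Eq.trans h4 h1)
    · show S.M.v z ≠ S.M.v (S.M.α d')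
      rw [← hh]
      intro h4
      rw [h4] at h0
      exact hz h0
  have hreal : ∀ q : D, ∃ r, S.real r = true ∧ s r = s q := by
    intro q
    rcases hS.one q with h1 | h1 | h1
    · exact ⟨q, h1, rfl⟩
    · exact ⟨_, h1, hs.φ q⟩
    · exact ⟨_, h1, (hs.φ _).trans (hs.φ q)⟩
  -- each side has an alive vertex which is not `x`
  have hex : ∀ b : Bool, (∃ q, s q = b) → ∃ r, S.M.v r ∈ S.A ∧ S.Off ![d, S.M.α d'] r ∧ s r = b := by
    rintro b ⟨q, hq⟩
    obtain ⟨r, hr1, hr2⟩ := hreal q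
    rw [hq] at hr2
    have q0 : ∀ q : D, S.real q = false → r ≠ q := fun q hq h0 => by
      rw [h0, hq] at hr1; exact absurd hr1 (by decide)
    have hr3 : s (S.M.α r) = b := (hT.o r (q0 _ hd) (q0 _ (by
      show S.real (S.M.α d) = false
      rw [W.real_α]; exact hd)) (q0 _ hd') (q0 _ (by
      show S.real (S.M.α d') = false
      rw [W.real_α]; exact hd'))).trans hr2
    have hra : S.M.v (S.M.α r) ∈ S.A := W.real_A _ (by rw [W.real_α]; exact hr1)
    by_cases w1 : S.M.v r = x
    · have w2 : S.M.v (S.M.α r) ≠ x := fun h0 => W.real_ne r hr1 (w1.trans h0.symm)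
      exact ⟨_, hra, hoff _ hra w2, hr3⟩
    · exact ⟨r, W.real_A r hr1, hoff r (W.real_A r hr1) w1, hr2⟩
  have hcb : ∀ b : Bool, (∃ q, s q = b) → 4 ≤ S.rc (S.sd ![d, S.M.α d'] s b) := by
    intro b hq
    obtain ⟨r, r1, r2, r3⟩ := hex b hq
    refine hcut _ ?_ ⟨_, r1, (sd_off hc hs r2).2 r3⟩ fun q hq hqs hqx => ?_
    · rw [← h1]
      exact sd_on (fun h0 => h0 0 rfl)
    · have hqo : S.Off ![d, S.M.α d'] q := by
        by_contra hn
        rw [sd_on hn] at hqs
        exact absurd hqs (by decide)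
      have hqb := (sd_off hc hs hqo).1 hqs
      have hA : S.M.v (S.M.α q) ∈ S.A := W.real_A _ (by rw [W.real_α]; exact hq)
      refine (sd_off hc hs (hoff _ hA hqx)).2 ?_
      rw [off_side hc hs hqo, hqb]
  have t1 := hcb true ⟨d, hT.a⟩
  have t2 := hcb false ⟨S.M.α d, hT.b⟩
  have t3 : S.rc (S.sd ![d, S.M.α d'] s true) + S.rc (S.sd ![d, S.M.α d'] s false) ≤
      S.out ![d, S.M.α d'] := rc_sd_add (S := nou S) W.nou hc hs
  omega

end gen

variable {D V : Type} [Fintype D] [DecidableEq V] {S : St D V} {L : D → Bool} {w : D → ℕ} {Δ : ℕ}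
  {C : Finset V}

/-- a hub has two spokes with different heads -/
theorem Hub3.two {c : V} (h : Hub3 S c) : ∃ d e, S.M.v d = c ∧ S.M.v e = c ∧
    S.u (S.M.φ d) ≠ 0 ∧ S.u (S.M.φ e) ≠ 0 ∧ S.M.v (S.M.α d) ≠ S.M.v (S.M.α e) := by
  classical
  obtain ⟨d, h1, h2⟩ := h.ex
  by_contra hn
  push Not at hn
  have h3 : ∀ e, S.M.v e = c → S.u (S.M.φ e) ≠ 0 → e = d := fun e he hu =>
    h.inj e d he h1 hu h2 (hn d e h1 he h2 hu).symm
  have h4 := h.three
  rw [Finset.sum_eq_single d (fun e _ hne => ?_) (fun hh => absurd (Finset.mem_univ _) hh),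
    if_pos h1] at h4
  · have := h.one d h1
    omega
  · by_cases he : S.M.v e = c
    · rw [if_pos he]
      by_contra hu
      exact hne (h3 e he hu)
    · rw [if_neg he]

section free

variable (hS : IsStar S) (W : Wf Δ S L w) (hC : ∀ c ∈ C, Hub3 S c) (g : Gd (conv S C))

include hS W hC

/-- two darts at an old vertex of the star form of the converted state with the same head -/
theorem conv_n2 (hΔ : Δ ≤ 6) (h3 : 3 ≤ Δ) (h4 : ∀ s : V → Bool, (∃ x ∈ S.A, s x = true) →
    (∃ x ∈ S.A, s x = false) → 4 ≤ S.rc s) {x : V} (hx : x ∈ S.A) :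
    (star g).N2 (Sum.inl x) := by
  have W1 := conv_wf hS W h3 hC
  have W2 := star_wf g W1
  have hS2 := star_isStar g
  have hxA : (Sum.inl x : VS (conv S C)) ∈ (star g).A :=
    Finset.mem_map.2 ⟨x, Finset.mem_union_left _ hx, rfl⟩
  intro d d' hd hd' hh
  cases h1 : (star g).real d
  · cases h2 : (star g).real d'
    · refine n2_gen W2 hS2 (by omega) (fun s hsx hex hcl => ?_) h1 h2 hxA hd hd' hh
      rw [star_rc]
      refine le_trans (h4 (fun y => s (Sum.inl y)) ?_ ⟨x, hx, hsx⟩) (conv_rc _)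
      obtain ⟨y, hy, hy'⟩ := hex
      obtain ⟨y', hy2, rfl⟩ := Finset.mem_map.1 hy
      rcases Finset.mem_union.1 hy2 with hyA | hyC
      · exact ⟨y', hyA, hy'⟩
      · obtain ⟨a, b, a1, b1, a2, b2, hab⟩ := (hC _ hyC).two
        have key : ∀ a, S.M.v a = y' → S.u (S.M.φ a) ≠ 0 → S.M.v (S.M.α a) ≠ x →
            ∃ z ∈ S.A, s (Sum.inl z) = true := by
          intro a a1 a2 ax
          have ar : (conv S C).real a = true :=
            conv_real.2 (Or.inr (Or.inl ⟨by rw [a1]; exact hyC, a2⟩))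
          have h5 := hcl (em a ar) (star_real_em g ar) (by
            rw [star_v_em g ar]
            show s (Sum.inl (S.M.v a)) = true
            rw [a1]; exact hy') (by
            rw [star_v_αem g ar]
            exact fun h0 => ax (Sum.inl_injective h0))
          rw [star_v_αem g ar] at h5
          exact ⟨_, (hub_u hS W hC (by rw [a1]; exact hyC)).2.2.2.2, h5⟩
        by_cases hax : S.M.v (S.M.α a) = x
        · exact key b b1 b2 (fun h0 => hab (hax.trans h0.symm))
        · exact key a a1 a2 hax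
    · exact absurd (by rw [hh]; exact W2.real_A _ (by rw [W2.real_α]; exact h2))
        (hS2.vhead W2 (by rw [hd]; exact hxA) h1)
  · cases h2 : (star g).real d'
    · exact absurd (by rw [← hh]; exact W2.real_A _ (by rw [W2.real_α]; exact h1))
        (hS2.vhead W2 (by rw [hd']; exact hxA) h2)
    · exact W2.simple _ _ h1 h2 (hd.trans hd'.symm) hh

end free

end Pool.FC7
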