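import Pool.Agent.FC7.CoD

/-! # The star form of the converted state: closed curves of length three -/

open Finset

set_option linter.unusedSectionVars false

namespace Pool.FC7

open Pool.FC6 Pool.FC6.St

section gen

variable {D V : Type} [Fintype D] [DecidableEq V] {S : St D V}

/-- the virtual darts at alive vertices of a star form -/
theorem star_virt_ex (g : Gd S) {x : V} {e : DS S} (he : (star g).real e = false)
    (hv : (star g).M.v e = Sum.inl x) : ∃ (b : D) (hb : S.real b = true), S.M.v b = x ∧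
      gg S (S.M.α b) = true ∧ e = (star g).M.σ (em b hb) := by
  rcases e with a | ⟨a, i⟩
  · exact absurd (show (true : Bool) = false from he) (by decide)
  · have hb : S.real (S.M.α a.1) = true := by rw [g.real_α]; exact (gg_iff.1 a.2).1
    have hi : i = 0 ∨ i = 1 ∨ i = 2 := by omega
    rcases hi with rfl | rfl | rfl
    · exact absurd (show (true : Bool) = false from he) (by decide)
    · refine ⟨S.M.α a.1, hb, Sum.inl_injective hv, by rw [S.M.αα]; exact a.2, ?_⟩
      rw [star_σ_gg g hb (by rw [S.M.αα]; exact a.2)]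
      congr 1
      exact Prod.ext (Subtype.ext (S.M.αα _).symm) rfl
    · exact absurd hv (by
        show ¬ (Sum.inr (Quotient.mk S.sc a.1) : VS S) = Sum.inl x
        simp)

/-- the head of a virtual dart is the face -/
theorem star_hub (g : Gd S) {a : D} (ha : S.real a = true) (hp : gg S (S.M.α a) = true) :
    (star g).M.v ((star g).M.α ((star g).M.σ (em a ha))) = Sum.inr (Quotient.mk S.sc (S.M.α a)) := by
  rw [star_σ_gg g ha hp]
  show (Sum.inr (Quotient.mk S.sc (Be g ⟨S.M.α a, hp⟩).1) : VS S) = _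
  congr 1
  exact Quotient.sound (S.sc.iseqv.symm (g.B_sc (gg_iff.1 hp).1))

/-- the virtual dart before a real dart -/
theorem star_prev (g : Gd S) {a : D} (ha : S.real a = true) (hp : gg S a = true) :
    ∃ e : DS S, (star g).real e = false ∧ (star g).M.v e = Sum.inl (S.M.v a) ∧
      (star g).M.v ((star g).M.α e) = Sum.inr (Quotient.mk S.sc a) ∧
      (star g).M.σ e = em a ha := by
  have hB : Be g ((Be g).symm ⟨a, hp⟩) = ⟨a, hp⟩ := Equiv.apply_symm_apply _ _
  have hB' : S.B ((Be g).symm ⟨a, hp⟩).1 = a := congrArg Subtype.val hB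
  refine ⟨Sum.inr ((Be g).symm ⟨a, hp⟩, 1), rfl, ?_, ?_, ?_⟩
  · show (Sum.inl (S.M.v (S.M.α ((Be g).symm ⟨a, hp⟩).1)) : VS S) = _
    congr 1
    rw [← v_B, hB']
  · show (Sum.inr (Quotient.mk S.sc (Be g ((Be g).symm ⟨a, hp⟩)).1) : VS S) = _
    rw [hB]
  · show sφ' g (sα' g (Sum.inr ((Be g).symm ⟨a, hp⟩, 1))) = _
    show Sum.inr (Be g ((Be g).symm ⟨a, hp⟩), 2 + 1) = _
    rw [hB, em_gg _ hp]
    rfl

end gen

variable {D V : Type} [Fintype D] [DecidableEq V] {S : St D V} {L : D → Bool} {w : D → ℕ} {Δ : ℕ}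
  {C : Finset V}

section free

variable (hS : IsStar S) (W : Wf Δ S L w) (hC : ∀ c ∈ C, Hub3 S c) (g : Gd (conv S C))

include hS W hC

/-- solid sectors stay solid -/
theorem cpp {a : D} (ha : S.real a = true) (h : S.real (S.M.σ a) = true) :
    pp (conv S C) (S.M.α a) = true := by
  have hr : S.real (S.M.α a) = true := by rw [W.real_α]; exact ha
  have h3 : S.csz (S.M.α a) = 3 := (solid_csz hS W hC ha).1 h
  have ho : ¬ OnC S C (S.M.α a) := by
    rintro ⟨c, hc, hh⟩
    have h4 := (inC_real hS W (hC c hc).dead hr).1 hh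
    have h5 := W.real_A _ (hS.two _ hr h)
    rw [h4] at h5
    exact (hC c hc).dead h5
  rw [pp_iff, plf_iff, conv_csz_off hS W hC ho]
  exact ⟨creal hS W hC hr, h3⟩

theorem star_σ_solid {a : D} (ha : S.real a = true) (h : S.real (S.M.σ a) = true) :
    (star g).M.σ (em a (creal hS W hC ha)) = em (S.M.σ a) (creal hS W hC h) := by
  rw [star_σ_pp g _ (cpp hS W hC ha h)]
  exact em_congr (fr_real (S := conv S C) (creal hS W hC h)) _ _

theorem conv_fcR {k : D} (hk : S.real k = true) (hx : Free S C (S.M.v k)) (hF : Fc3 S k) :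
    FcR (star g) (em k (creal hS W hC hk)) := by
  intro e e' he he' h1 h2 h3
  obtain ⟨a, ha, rfl⟩ := star_real_ex g he
  obtain ⟨b, hb, rfl⟩ := star_real_ex g he'
  have ck := creal hS W hC hk
  have hα : S.real (S.M.α k) = true := by rw [W.real_α]; exact hk
  rw [star_v_em g, star_v_em g] at h1
  rw [star_v_em g, star_v_αem g] at h2
  rw [star_v_αem g, star_v_αem g] at h3
  have h1 : S.M.v a = S.M.v k := Sum.inl_injective h1
  have h2 : S.M.v b = S.M.v (S.M.α k) := Sum.inl_injective h2
  have h3 : S.M.v (S.M.α a) = S.M.v (S.M.α b) := Sum.inl_injective h3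
  have ra : S.real a = true := by
    rw [← hx.r a h1]; exact ha
  have rb : S.real b = true := conv_old hS W hC hb (by rw [h2]; exact W.real_A _ hα)
    (by rw [← h3]; exact W.real_A _ (by rw [W.real_α]; exact ra))
  rcases hF a b h1 h2 h3 with ⟨e1, e2⟩ | ⟨e1, e2⟩
  · left
    have s1 : S.real (S.M.σ k) = true := by rw [← e1]; exact ra
    have s2 : S.real (S.M.σ b) = true := by rw [e2]; exact hα
    refine ⟨?_, ?_⟩
    · rw [star_σ_solid hS W hC g hk s1]
      exact em_congr e1 _ _
    · rw [star_σ_solid hS W hC g rb s2, star_α_em g]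
      exact em_congr e2 _ _
  · right
    have s1 : S.real (S.M.σ a) = true := by rw [e1]; exact hk
    have s2 : S.real (S.M.σ (S.M.α k)) = true := by rw [← e2]; exact rb
    refine ⟨?_, ?_⟩
    · rw [star_σ_solid hS W hC g ra s1]
      exact em_congr e1 _ _
    · rw [star_α_em g]
      show em b _ = (star g).M.σ (em (S.M.α k) (creal hS W hC hα))
      rw [star_σ_solid hS W hC g hα s2]
      exact em_congr e2 _ _

theorem conv_fcH {k : D} (hk : S.real k = true) (hx : Free S C (S.M.v k)) (hF : Fc3 S k)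
    (n2 : (star g).N2 (Sum.inl (S.M.v (S.M.α k)))) :
    FcH (star g) (em k (creal hS W hC hk)) := by
  intro e e' he he' h1 h2 h3
  have ck := creal hS W hC hk
  have hα : S.real (S.M.α k) = true := by rw [W.real_α]; exact hk
  have cα : (conv S C).real (S.M.α k) = true := creal hS W hC hα
  rw [star_v_em g] at h1
  rw [star_v_αem g] at h2
  obtain ⟨b, hb, vb, gb, rfl⟩ := star_virt_ex g he h1
  obtain ⟨b', hb', vb', gb', rfl⟩ := star_virt_ex g he' h2
  have vb : S.M.v b = S.M.v k := vb
  have vb' : S.M.v b' = S.M.v (S.M.α k) := vb'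
  have h3' := h3
  rw [star_hub g hb gb, star_hub g hb' gb'] at h3'
  have hsc : (conv S C).sc.r (S.M.α b) (S.M.α b') := Quotient.exact (Sum.inr_injective h3')
  have hsc' : S.sc.r (S.M.α b) (S.M.α b') := conv_sc hsc
  have rb : S.real b = true := by rw [← hx.r b vb]; exact hb
  have rαb : S.real (S.M.α b) = true := by rw [W.real_α]; exact rb
  -- the sector of `b` is a gap
  have virt : ∀ z, S.real z = true → gg (conv S C) (S.M.α z) = true → S.real (S.M.σ z) = false := by
    intro z hz hg
    by_contra hn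
    exact not_pg (cpp hS W hC hz (by simpa using hn)) hg
  have s1 := virt b rb gb
  have hσφ : ∀ z, S.M.v (S.M.φ (S.M.φ (S.M.α z))) = S.M.v (S.M.α (S.M.σ z)) := by
    intro z
    rw [S.M.vφ]
    rfl
  obtain ⟨c, hc⟩ : ∃ c, c = S.M.v (S.M.α (S.M.σ b)) := ⟨_, rfl⟩
  have hcA : c ∉ S.A := by
    rw [hc, ← hσφ]
    exact hS.dead _ rαb s1
  have hin : InC S c (S.M.α b) := by
    rw [inC_real hS W hcA rαb, hσφ]; exact hc.symm
  have hin' : InC S c (S.M.α b') := (sc_inC hS W hcA hsc').1 hin
  have hε : ∃ ε, S.M.v ε = S.M.v (S.M.α k) ∧ S.M.v (S.M.α (S.M.σ b)) = S.M.v (S.M.α ε) := by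
    by_cases rb' : S.real b' = true
    · refine ⟨S.M.σ b', by rw [S.M.vσ]; exact vb', ?_⟩
      have h5 := (inC_real hS W hcA (by rw [W.real_α]; exact rb')).1 hin'
      rw [hσφ] at h5
      rw [h5, hc]
    · have rb' : S.real b' = false := by simpa using rb'
      refine ⟨b', vb', ?_⟩
      rcases (inC_virt hS W hcA (by rw [W.real_α]; exact rb')).1 hin' with h5 | h5
      · rw [h5, hc]
      · rw [S.M.αα, vb'] at h5
        exact absurd (h5 ▸ W.real_A _ hα) hcA
  obtain ⟨ε, e1, e2⟩ := hε
  have hnx : (conv S C).nx b = S.nxr b := Free.nx hS W hC g rb (by rw [vb]; exact hx)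
  rcases hF (S.M.σ b) ε (by rw [S.M.vσ]; exact vb) e1 e2 with ⟨q1, -⟩ | ⟨q1, -⟩
  · left
    have hbk : b = k := S.M.σinj q1
    subst hbk
    have gk : gg (conv S C) (S.M.α b) = true := gb
    obtain ⟨e0, f1, f2, f3, f4⟩ := star_prev g cα gk
    have h6 : (star g).M.σ (em b' hb') = e0 := by
      refine n2 _ _ h2 f2 ?_
      rw [← h3, star_hub g hb gb, f3]
      rfl
    refine ⟨rfl, ?_⟩
    rw [h6, f4, star_α_em g]
    rfl
  · right
    have hbk : S.nxr b = k := by
      unfold nxr
      rw [s1, if_neg (by decide)]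
      exact q1
    have hB : (conv S C).B ((conv S C).M.α b) = k := (B_α (S := conv S C) b).trans (hnx.trans hbk)
    have gk : gg (conv S C) k = true := by
      have := g.gg_B gb
      rwa [hB] at this
    refine ⟨?_, ?_⟩
    · rw [star_σσ_gg g hb gb]
      exact em_congr (hnx.trans hbk) _ _
    · rw [star_α_em g]
      refine n2 _ _ h2 ?_ ?_
      · show (star g).M.v ((star g).M.σ (em (S.M.α k) cα)) = _
        rw [(star g).M.vσ, star_v_em g]
        rfl
      · rw [← h3, star_hub g hb gb]
        have gk' : gg (conv S C) ((conv S C).M.α (S.M.α k)) = true := by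
          show gg (conv S C) (S.M.α (S.M.α k)) = true
          rw [S.M.αα]; exact gk
        refine Eq.trans ?_ (star_hub g cα gk').symm
        congr 1
        refine Quotient.sound ?_
        show (conv S C).sc.r (S.M.α b) (S.M.α (S.M.α k))
        rw [S.M.αα]
        have := g.B_sc (gg_iff.1 gb).1
        rwa [hB] at this

end free

end Pool.FC7
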