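import Pool.Agent.FC7.ExE

/-! # Cells of the patch are connected in the state -/

open Finset

set_option linter.unusedSectionVars false

namespace Pool.FC7

open Pool.FC6 Pool.FC6.St

variable {D V : Type} [Fintype D] [DecidableEq V] {S : St D V} {P P' : Pa} {f : ℕ → D}
  {g : ℕ → V} {X : XE}

/-- darts of one cell of `P` belong to one face of `S` -/
theorem sc_ce (st : X.Stat P P') (e : Em P S f g) {i j : ℕ} (hi : i < P.n) (hj : j < P.n)
    (he : X.ce i = X.ce j) : S.sc.r (f i) (f j) := by
  have key : ∀ n i, X.pk i < n → i < P.n → S.sc.r (f (X.cr (X.ce i))) (f i) := by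
    intro n
    induction n with
    | zero => intro i h; omega
    | succ n ih =>
      intro i hn hi
      rcases st.tr i hi with h | ⟨h1, h2, h3, h4⟩
      · rw [← h]
      · have h5 := ih (X.pa i) (by omega) h2
        rw [h3] at h5
        refine S.sc.iseqv.trans h5 (S.sc.iseqv.symm ?_)
        rcases h4 with h4 | ⟨h4, h6, h7⟩
        · rw [h4, ← e.hφ i hi]
          exact (scφ _ _).2 (S.sc.iseqv.refl _)
        · rw [h7, ← e.hα i hi h4]
          exact (scα (by rw [e.hr i hi]; exact h6) _).2 (S.sc.iseqv.refl _)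
  have h1 := key _ i (Nat.lt_succ_self _) hi
  have h2 := key _ j (Nat.lt_succ_self _) hj
  rw [← he] at h2
  exact S.sc.iseqv.trans (S.sc.iseqv.symm h1) h2

end Pool.FC7
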