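import Pool.Agent.FC7.WfB
import Pool.Agent.FC7.CtA

/-! # The units of a piece with the outer parts of several faces -/

open Finset

set_option linter.unusedSectionVars false

namespace Pool.FC7

open Pool.FC6 Pool.FC6.St

/-- sums of terms with at most one nonzero index -/
theorem amo_le {E : Type} (s : Finset E) (T : Finset ℕ) (p : ℕ → E → Prop)
    [∀ i d, Decidable (p i d)] (F G : E → ℕ) (h1 : ∀ d ∈ s, ∀ i ∈ T, p i d → F d ≤ G d)
    (h2 : ∀ d ∈ s, ∀ i ∈ T, ∀ j ∈ T, p i d → p j d → i = j) :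
    ∑ i ∈ T, ∑ d ∈ s, (if p i d then F d else 0) ≤ ∑ d ∈ s, G d := by
  rw [Finset.sum_comm]
  refine Finset.sum_le_sum fun d hd => ?_
  by_cases hex : ∃ i ∈ T, p i d
  · obtain ⟨i, hi, hp⟩ := hex
    rw [Finset.sum_eq_single_of_mem i hi (fun j hj hji => if_neg fun hq => hji (h2 d hd j hj i hi hq hp)),
      if_pos hp]
    exact h1 d hd i hi hp
  · push Not at hex
    rw [Finset.sum_eq_zero fun i hi => if_neg (hex i hi)]
    exact Nat.zero_le _

variable {D V : Type} [Fintype D] [DecidableEq V] {Δ : ℕ} {S : St D V} {L : D → Bool}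
  {w : D → ℕ} {P : Pa} {f : ℕ → D} {g : ℕ → V}

/-- a triangle has one dead corner -/
theorem inC_uniq (hS : IsStar S) (W : Wf Δ S L w) {c c' : V} (hc : c ∉ S.A) (hc' : c' ∉ S.A)
    {d : D} (h : InC S c d) (h' : InC S c' d) : c = c' := by
  by_cases hd : S.real d = true
  · rw [inC_real hS W hc hd] at h
    rw [inC_real hS W hc' hd] at h'
    exact h.symm.trans h'
  · have hd : S.real d = false := by simpa using hd
    rw [inC_virt hS W hc hd] at h
    rw [inC_virt hS W hc' hd] at h'
    rcases hS.virt W hd with ⟨_, _, h3, h4⟩ | ⟨_, _, h3, h4⟩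
    · have e1 := h.resolve_right (fun h5 => hc (h5 ▸ h4))
      have e2 := h'.resolve_right (fun h5 => hc' (h5 ▸ h4))
      exact e1.symm.trans e2
    · have e1 := h.resolve_left (fun h5 => hc (h5 ▸ h4))
      have e2 := h'.resolve_left (fun h5 => hc' (h5 ▸ h4))
      exact e1.symm.trans e2

section outer

variable {S' : St D V} {L' : D → Bool} {w' : D → ℕ} {P' : Pa} {X : OD}

/-- the units of the faces of the darts `i ∈ T` and of the piece `q`; `I i k`: the dart `k` is in the
face of the dart `i`; `A`: the known units, `κ`: the other ones -/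
theorem RH.faces_fu (h : RH Δ S S' L L' w w' P P' f g X) {q : ℕ} {T : List ℕ} (hn : T.Nodup)
    {I : ℕ → ℕ → Bool}
    {i0 : ℕ} (hi0 : i0 < P.n) (hq : X.pc i0 = q)
    (h0 : ∀ i ∈ T, i < P.n ∧ (∀ k < P.n, S.sc.r (f i) (f k) ↔ I i k = true) ∧
      ∀ d, (∀ j < P.n, f j ≠ d) → S.sc.r (f i) d → S'.sc.r (f i0) d)
    (hd : ∀ i ∈ T, ∀ j ∈ T, I i j = true → i = j)
    (A κ : ℕ → ℕ) (hA : ∀ k < P.n, S.u (f k) = A k + κ k) {U : ℕ}
    (hU : U + (∑ k ∈ Finset.range P.n, if (T.any fun i => I i k) = true then κ k else 0) ≤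
      ∑ k ∈ Finset.range P.n, if X.pc k = q then P'.u k else 0) :
    (T.map fun i => fu S (f i)).sum + U ≤ fu S' (f i0) +
      (T.map fun i => ∑ k ∈ Finset.range P.n, if I i k = true then A k else 0).sum := by
  classical
  rw [← List.sum_toFinset _ hn, ← List.sum_toFinset _ hn]
  have hm : ∀ i, i ∈ T.toFinset ↔ i ∈ T := fun i => List.mem_toFinset
  have hne : ∀ i ∈ T, ∀ j ∈ T, ∀ d, S.sc.r (f i) d → S.sc.r (f j) d → i = j := by
    intro i hi j hj d h1 h2
    have b1 := (h0 j hj).1
    exact hd i hi j hj (((h0 i hi).2.1 j b1).1 (S.sc.iseqv.trans h1 (S.sc.iseqv.symm h2)))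
  -- the faces of `S`
  have e1 : ∀ i, fu S (f i) = (∑ d, if ∃ k < P.n, f k = d then 0 else
      if S.sc.r (f i) d then S.u d else 0) +
      ∑ k ∈ Finset.range P.n, if S.sc.r (f i) (f k) then S.u (f k) else 0 := by
    intro i
    unfold fu
    rw [FC6.RH.split h.rep.e.inj]
  have e2 : fu S' (f i0) = (∑ d, if ∃ k < P.n, f k = d then 0 else
      if S'.sc.r (f i0) d then S'.u d else 0) +
      ∑ k ∈ Finset.range P.n, if S'.sc.r (f i0) (f k) then S'.u (f k) else 0 := by
    unfold fu
    rw [FC6.RH.split h.rep.e.inj]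
  rw [Finset.sum_congr rfl fun i _ => e1 i, e2, Finset.sum_add_distrib]
  -- outer parts
  have o1 : (∑ i ∈ T.toFinset, ∑ d, if ∃ k < P.n, f k = d then 0 else
      if S.sc.r (f i) d then S.u d else 0) ≤ ∑ d, if ∃ k < P.n, f k = d then 0 else
      if S'.sc.r (f i0) d then S'.u d else 0 := by
    have := amo_le (Finset.univ : Finset D) T.toFinset
      (fun i d => (¬ ∃ k < P.n, f k = d) ∧ S.sc.r (f i) d) (fun d => S.u d)
      (fun d => if ∃ k < P.n, f k = d then 0 else if S'.sc.r (f i0) d then S'.u d else 0)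
      (fun d _ i hi hp => ?_) (fun d _ i hi j hj hp hp' => ?_)
    · refine le_trans (le_of_eq ?_) this
      refine Finset.sum_congr rfl fun i _ => Finset.sum_congr rfl fun d _ => ?_
      by_cases h1 : ∃ k < P.n, f k = d
      · rw [if_pos h1, if_neg (fun h2 => h2.1 h1)]
      · rw [if_neg h1]
        by_cases h2 : S.sc.r (f i) d
        · rw [if_pos h2, if_pos ⟨h1, h2⟩]
        · rw [if_neg h2, if_neg (fun h3 => h2 h3.2)]
    · rw [hm] at hi
      obtain ⟨a1, a3, a4⟩ := h0 i hi
      have ho : ∀ j < P.n, f j ≠ d := by have := hp.1; push Not at this; exact this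
      rw [if_neg hp.1, if_pos, h.rep.uo d ho]
      exact a4 d ho hp.2
    · exact hne i ((hm i).1 hi) j ((hm j).1 hj) d hp.2 hp'.2
  -- the patch
  have o2 : (∑ i ∈ T.toFinset, ∑ k ∈ Finset.range P.n, if S.sc.r (f i) (f k) then S.u (f k)
      else 0) ≤ (∑ i ∈ T.toFinset, ∑ k ∈ Finset.range P.n, if I i k = true then A k else 0) +
      ∑ k ∈ Finset.range P.n, if (T.any fun i => I i k) = true then κ k else 0 := by
    have := amo_le (Finset.range P.n) T.toFinset
      (fun i k => I i k = true) κ (fun k => if (T.any fun i => I i k) = true then κ k else 0)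
      (fun k hk i hi hp => ?_) (fun k hk i hi j hj hp hp' => ?_)
    · refine le_trans (le_of_eq ?_) (Nat.add_le_add_left this _)
      rw [← Finset.sum_add_distrib]
      refine Finset.sum_congr rfl fun i hi => ?_
      rw [← Finset.sum_add_distrib]
      refine Finset.sum_congr rfl fun k hk => ?_
      rw [hm] at hi
      rw [Finset.mem_range] at hk
      obtain ⟨a1, a3, a4⟩ := h0 i hi
      by_cases h2 : I i k = true
      · rw [if_pos ((a3 k hk).2 h2), if_pos h2, if_pos h2, hA k hk]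
      · rw [if_neg (fun h4 => h2 ((a3 k hk).1 h4)), if_neg h2, if_neg h2]
    · rw [if_pos (List.any_eq_true.2 ⟨i, (hm i).1 hi, hp⟩)]
    · have hi' := (hm i).1 hi
      have hj' := (hm j).1 hj
      have hk := Finset.mem_range.1 hk
      exact hne i hi' j hj' (f k) (((h0 i hi').2.1 k hk).2 hp) (((h0 j hj').2.1 k hk).2 hp')
  -- the piece
  have o3 : (∑ k ∈ Finset.range P.n, if X.pc k = q then P'.u k else 0) ≤
      ∑ k ∈ Finset.range P.n, if S'.sc.r (f i0) (f k) then S'.u (f k) else 0 := by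
    refine Finset.sum_le_sum fun k hk => ?_
    have hk := Finset.mem_range.1 hk
    by_cases h1 : X.pc k = q
    · rw [if_pos h1, if_pos (h.sc_piece hi0 hk (hq.trans h1.symm)), h.rep.hu' k hk]
    · rw [if_neg h1]; exact Nat.zero_le _
  omega

end outer

end Pool.FC7
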