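import Pool.Agent.FC7.WfA

/-! # Sectors of faces without units or with at least three units

The letter has `k = 2`, or it is a solid triangle with bit 12. -/

open Finset

set_option linter.unusedSectionVars false

namespace Pool.FC7

open Pool.FC6 Pool.FC6.St

variable {D V : Type} [Fintype D] [DecidableEq V] {Δ N R e : ℕ} {S : St D V} {L : D → Bool}
  {w : D → ℕ}

variable {W : Wt} {P : Pa} {d : ℕ → D} (hS : IsStar S) (wf : Wf Δ S L w) (hC : W.Z.Ck P)
  (ok : W.ok = true) (hρ : ∀ j < W.Z.Q.ns, S.M.σ (W.Z.io S d j) = W.Z.io S d (W.Z.Q.ρ j))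
  (I : Info W.Z W.ac S L d W.lt)
  (hO : ∀ j < W.Z.Q.ns, W.Z.Q.rl j = true →
    Oo (fu S (W.Z.io S d (W.Z.Q.ρ j))) (W.Z.Q.rl (W.Z.Q.ρ j)) (W.lt j))

include hS wf hC ok hρ I hO

theorem Wt.oc0 {j : ℕ} (hj : j < W.Z.Q.ns) (ha : W.ac (W.Z.ca j) = true)
    (h : W.oc 0 j = true) : OZ (fu S (W.Z.io S d j)) := by
  have hi := hC.Q.ρilt j hj
  have ha' : W.ac (W.Z.ca (W.Z.Q.ρi j)) = true := by rw [scaρi hC hj]; exact ha
  have e1 := Wt.φφ hS wf hC ok hρ I hj
  unfold Wt.oc at h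
  by_cases h1 : W.sol 0 j = true
  · rw [if_pos h1, Bool.and_eq_true] at h
    have h2 : (W.Z.Q.rl j && W.Z.Q.rl (W.Z.Q.ρi j)) = true := h1
    rw [Bool.and_eq_true] at h2
    have hf : W.fl 0 j = W.lt (W.Z.Q.ρi j) := by
      unfold Wt.fl Wt.prv
      rw [if_neg (by rw [ha]; decide), if_neg (by decide), if_pos h2.2]
    rw [hf] at h
    have h6 := hO _ hi h2.2
    rw [hC.Q.ρρi j hj] at h6
    exact (h6.2 h2.1 h.1).2 h.2
  · rw [if_neg h1, decide_eq_true_eq] at h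
    have hf : W.fl 0 j = W.lt (W.prv j) := by
      unfold Wt.fl
      rw [if_neg (by rw [ha]; decide), if_neg (by decide)]
    rw [hf] at h
    cases h3 : W.Z.Q.rl j
    · have h4 := (Wt.rl_or hS wf hC ok hρ I hj ha h3).2
      have h5 : W.prv j = W.Z.Q.ρi j := if_pos h4
      rw [h5] at h
      have h6 := (hO _ hi h4).1 (by rw [hC.Q.ρρi j hj]; exact h3) h
      rwa [hC.Q.ρρi j hj] at h6
    · have h4 : W.Z.Q.rl (W.Z.Q.ρi j) = false := by
        unfold Wt.sol at h1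
        rw [h3] at h1
        simpa using h1
      have h5 : W.prv j = W.Z.Q.ρi (W.Z.Q.ρi j) := if_neg (by rw [h4]; simp)
      rw [h5] at h
      have hii := hC.Q.ρilt _ hi
      have h6 := (hO _ hii (Wt.rl_or hS wf hC ok hρ I hi ha' h4).2).1
        (by rw [hC.Q.ρρi _ hi]; exact h4) h
      rw [hC.Q.ρρi _ hi] at h6
      rw [← fu_φ, ← fu_φ, e1, fu_α (by rw [I.rl _ hi, h4])]
      exact h6

theorem Wt.o_nm {k j : ℕ} (hj : j < W.Z.Q.ns) (hk : k < 3) (h : W.oc k j = true) :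
    OZ (fu S (nmS S (W.Z.io S d) k j)) := by
  have k3 : k = 0 ∨ k = 1 ∨ k = 2 := by omega
  by_cases ha : W.ac (W.Z.ca j) = true
  · rcases k3 with rfl | rfl | rfl
    · exact Wt.oc0 hS wf hC ok hρ I hO hj ha h
    · have e1 : W.oc 0 (W.Z.Q.ρ j) = W.oc 1 j := by
        unfold Wt.oc Wt.sol Wt.fl Wt.prv
        rw [scaρ hC hj, if_neg (by decide : ¬ (0 : ℕ) = 1), if_neg (by decide : ¬ (0 : ℕ) = 1),
          if_neg (by rw [ha]; decide : ¬ W.ac (W.Z.ca j) = false),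
          if_neg (by rw [ha]; decide : ¬ W.ac (W.Z.ca j) = false), if_pos rfl,
          if_pos rfl, hC.Q.ρiρ j hj, Bool.and_comm (W.Z.Q.rl (W.Z.Q.ρ j))]
        by_cases h3 : W.Z.Q.rl j = true
        · rw [if_pos h3, if_pos h3]
        · rw [if_neg h3, if_neg h3]
      have h1 := Wt.oc0 hS wf hC ok hρ I hO (hC.Q.ρlt j hj) (by rw [scaρ hC hj]; exact ha)
        (e1.trans h)
      rw [← hρ j hj] at h1
      have h2 : fu S (S.M.σ (W.Z.io S d j)) = fu S (S.M.α (W.Z.io S d j)) := fu_φ _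
      rw [h2] at h1
      exact h1
    · show OZ (fu S (S.M.φ (W.Z.io S d j)))
      rw [fu_φ]
      have e1 : W.oc 0 j = W.oc 2 j := by
        unfold Wt.oc Wt.sol Wt.fl
        rw [if_neg (by decide : ¬ (0 : ℕ) = 1), if_neg (by decide : ¬ (0 : ℕ) = 1),
          if_neg (by decide : ¬ (2 : ℕ) = 1), if_neg (by decide : ¬ (2 : ℕ) = 1)]
      exact Wt.oc0 hS wf hC ok hρ I hO hj ha (e1.trans h)
  · exfalso
    have hn : W.sol k j = false := by
      unfold Wt.sol
      rw [(I.de j hj (by simpa using ha)).1, Bool.false_and]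
    unfold Wt.oc Wt.fl at h
    rw [hn, if_neg (by simp), if_pos (by simpa using ha), decide_eq_true_eq] at h
    unfold Wt.ok at ok
    rw [allN_iff] at ok
    have := ok j hj
    rw [if_neg ha, Bool.and_eq_true, decide_eq_true_eq] at this
    exact this.2 h

end Pool.FC7
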