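import Pool.Agent.FC7.CfC

/-! # Closed gaps of length four: the units at the fourth corner -/

open Finset

set_option linter.unusedSectionVars false

namespace Pool.FC7

open Pool.FC6 Pool.FC6.St

variable {D V : Type} [Fintype D] [DecidableEq V] {Δ : ℕ} {S : St D V} {L : D → Bool}
  {w : D → ℕ}

theorem sum_star (F : D → ℕ) (g : D) : (∑ h, if S.M.v h = S.M.v g then F h else 0) =
    ∑ i ∈ Finset.range (S.nd g), F (S.M.σ^[i] g) := by
  classical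
  have h1 : (Finset.range (S.nd g)).image (fun i => S.M.σ^[i] g) =
      Finset.univ.filter fun x => S.M.v x = S.M.v g := by
    refine Finset.eq_of_subset_of_card_le (fun x hx => ?_) ?_
    · rw [Finset.mem_image] at hx
      obtain ⟨i, -, rfl⟩ := hx
      rw [Finset.mem_filter]
      exact ⟨Finset.mem_univ _, S.M.v_iter' i g⟩
    · rw [Finset.card_image_of_injOn, Finset.card_range]
      · exact le_of_eq rfl
      · intro i hi j hj he
        exact σ_inj_lt g (Finset.mem_range.1 (Finset.mem_coe.1 hi))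
          (Finset.mem_range.1 (Finset.mem_coe.1 hj)) he
  rw [← Finset.sum_filter, ← h1, Finset.sum_image]
  intro i hi j hj he
  exact σ_inj_lt g (Finset.mem_range.1 (Finset.mem_coe.1 hi))
    (Finset.mem_range.1 (Finset.mem_coe.1 hj)) he

/-- the units of the face of a hub -/
theorem fu_hub4 (hS : IsStar S) (W : Wf Δ S L w) {g : D} (hg : S.M.v g ∉ S.A) :
    fu S g = ∑ i ∈ Finset.range (S.nd g), S.u (S.M.φ (S.M.σ^[i] g)) := by
  classical
  rw [← sum_star (fun h => S.u (S.M.φ h))]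
  have e1 : fu S g = ∑ h, if S.sc.r g (S.M.φ h) then S.u (S.M.φ h) else 0 := by
    have hb : Function.Bijective S.M.φ :=
      Finite.injective_iff_bijective.1 S.M.φinj
    have := (Equiv.ofBijective S.M.φ hb).sum_comp
      (fun y => if S.sc.r g y then S.u y else 0)
    rw [fu]
    refine Eq.trans (Finset.sum_congr rfl fun y _ => ?_) this.symm
    congr
  rw [e1]
  refine Finset.sum_congr rfl fun h _ => ?_
  by_cases h1 : S.M.v h = S.M.v g
  · rw [if_pos h1, if_pos]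
    exact (hS.sc_star W hg _).2 (Or.inr (Or.inr (by rw [S.M.φ3]; exact h1)))
  · rw [if_neg h1]
    by_cases h2 : S.sc.r g (S.M.φ h)
    · rw [if_pos h2]
      by_contra hu
      have hr : S.real (S.M.φ h) = true := hS.ur _ hu
      rcases (hS.sc_star W hg _).1 h2 with h3 | h3 | h3
      · exact hg (h3 ▸ W.real_A _ hr)
      · rw [S.M.vφ] at h3
        exact hg (h3 ▸ W.real_A _ (by rw [W.real_α]; exact hr))
      · rw [S.M.φ3] at h3
        exact h1 h3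
    · rw [if_neg h2]

/-- the units of a gap with four corners -/
theorem fu_four (hS : IsStar S) (W : Wf Δ S L w) {g : D} (hg : S.M.v g ∉ S.A)
    (h4 : S.nd g = 4) : fu S g = S.u (S.M.φ g) + S.u (S.M.φ (S.M.σ g)) +
      S.u (S.M.φ (S.M.σ (S.M.σ g))) + S.u (S.M.φ (S.M.σ (S.M.σ (S.M.σ g)))) := by
  rw [fu_hub4 hS W hg, h4, Finset.sum_range_succ, Finset.sum_range_succ, Finset.sum_range_succ,
    Finset.sum_range_succ, Finset.sum_range_zero, Nat.zero_add]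
  rfl

/-- the units at the fourth corner of a closed gap -/
theorem Wt.cu_of {W : Wt} {P : Pa} {d : ℕ → D} (hS : IsStar S) (wf : Wf Δ S L w)
    (hC : W.Z.Ck P) (ok : W.ok = true)
    (hρ : ∀ j < W.Z.Q.ns, S.M.σ (W.Z.io S d j) = W.Z.io S d (W.Z.Q.ρ j))
    (I : Info W.Z W.ac S L d W.lt)
    (hπ : ∀ j < W.Z.Q.ns, W.Z.Q.π j ≠ j → S.M.α (W.Z.io S d j) = W.Z.io S d (W.Z.Q.π j))
    (hA : ∀ j < W.Z.Q.ns, S.M.v (W.Z.io S d j) ∈ S.A ↔ W.ac (W.Z.ca j) = true)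
    (h4 : ∀ j < W.Z.Q.ns, W.Z.m (W.Z.ca j) = 4 → S.nd (W.Z.io S d j) = 4)
    (f3 : ∀ e, fu S e = 0 ∨ fu S e = 2 ∨ fu S e = 3) :
    ∀ j < W.Z.Q.ns, W.clk j = true → (wb (W.lt j) = 1 ∨ wb (W.lt j) = 2) →
      S.u (S.M.α (W.Z.io S d j)) = W.cun j := by
  intro j hj h hb
  unfold Wt.clk at h
  simp only [Bool.and_eq_true, decide_eq_true_eq, Bool.not_eq_true'] at h
  obtain ⟨⟨⟨⟨⟨⟨k1, k2⟩, k3⟩, k4⟩, k5⟩, k6⟩, k7⟩ := h
  have r1 := hC.Q.ρlt j hj
  have l0 := hC.Q.πlt _ r1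
  have gp := I.gap j hj k1 k2
  -- the class of the face
  have hf1 : fu S (W.Z.io S d (W.Z.Q.π (W.Z.Q.ρ j))) = fu S (W.Z.io S d (W.Z.Q.ρ j)) := by
    rw [← hπ _ r1 k3]
    exact fu_α (by rw [I.rl _ r1, k2])
  have hft : fu S (W.Z.io S d (W.Z.Q.π (W.Z.Q.ρ j))) =
      if wb (W.lt j) = 2 then 3 else if wb (W.lt j) = 1 then 2 else 0 := by
    rw [hf1]
    have h3 := f3 (W.Z.io S d (W.Z.Q.ρ j))
    rcases hb with hb | hb
    · have := gp.2.1 hb
      rw [if_neg (by rw [hb]; decide), if_pos hb]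
      omega
    · have := gp.2.2.1 hb
      rw [if_pos hb]
      omega
  -- the corners
  have e0 : W.Z.io S d (W.Z.Q.π (W.Z.Q.ρ j)) = S.M.α (W.Z.io S d (W.Z.Q.ρ j)) := (hπ _ r1 k3).symm
  have hlast : S.M.φ (S.M.σ (W.Z.io S d (W.Z.Q.π (W.Z.Q.ρ j)))) = S.M.α (W.Z.io S d j) := by
    rw [e0]
    show S.M.φ (S.M.φ (S.M.α (S.M.α (W.Z.io S d (W.Z.Q.ρ j))))) = _
    rw [S.M.αα, ← hρ j hj]
    show S.M.φ (S.M.φ (S.M.φ (S.M.α (W.Z.io S d j)))) = _
    rw [S.M.φ3]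
  generalize ht : W.Z.Q.π (W.Z.Q.ρ j) = t at *
  have htt : W.Z.Q.π t ≠ t := by
    rw [← ht, hC.Q.ππ _ r1, ht]
    exact Ne.symm k3
  have cor : ∀ t < W.Z.Q.ns, W.ac (W.Z.ca t) = false → W.Z.Q.π t ≠ t →
      S.u (S.M.φ (W.Z.io S d t)) = W.cwa t := by
    intro t ht hta htp
    have q1 := hC.Q.πlt t ht
    have q2 := hC.Q.ρilt _ q1
    have a1 : S.M.v (W.Z.io S d t) ∉ S.A := by
      rw [hA t ht, hta]; decide
    have a2 : W.ac (W.Z.ca (W.Z.Q.π t)) = true := by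
      rw [← hA _ q1, ← hπ t ht htp]
      exact hS.alivev wf a1
    have a3 : W.Z.Q.rl (W.Z.Q.π t) = false := by
      rw [← I.rl _ q1, ← hπ t ht htp, wf.real_α, I.rl t ht]
      exact (I.de t ht hta).1
    have a4 := (Wt.rl_or hS wf hC ok hρ I q1 a2 a3).2
    have a5 := (I.gap _ q2 a4 (by rw [hC.Q.ρρi _ q1]; exact a3)).1
    rw [hC.Q.ρρi _ q1, ← hρ _ q1, ← hπ t ht htp] at a5
    have a6 : S.M.σ (S.M.α (W.Z.io S d t)) = S.M.φ (W.Z.io S d t) := by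
      show S.M.φ (S.M.α (S.M.α _)) = _
      rw [S.M.αα]
    rw [a6] at a5
    exact a5
  have l1 := hC.Q.ρilt t l0
  have l2 := hC.Q.ρilt _ l1
  have c1 : W.Z.ca (W.Z.Q.ρi t) = W.Z.ca t := scaρi hC l0
  have c2 : W.Z.ca (W.Z.Q.ρi (W.Z.Q.ρi t)) = W.Z.ca t := (scaρi hC l1).trans c1
  have s2 := hρ _ l2
  have s1 := hρ _ l1
  rw [hC.Q.ρρi _ l1] at s2
  rw [hC.Q.ρρi _ l0] at s1
  have hz : S.M.v (W.Z.io S d (W.Z.Q.ρi (W.Z.Q.ρi t))) ∉ S.A := by
    rw [hA _ l2, c2, k4]; decide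
  have hsum := fu_four hS wf hz (h4 _ l2 (by rw [c2]; exact k5))
  rw [s2, s1, hlast, cor _ l2 (by rw [c2]; exact k4) k7, cor _ l1 (by rw [c1]; exact k4) k6,
    cor _ l0 k4 htt] at hsum
  have hsame : fu S (W.Z.io S d (W.Z.Q.ρi (W.Z.Q.ρi t))) = fu S (W.Z.io S d t) := by
    refine fu_congr ((hS.sc_star wf hz _).2 (Or.inl ?_))
    rw [W.Z.v_io, W.Z.v_io, c2]
  rw [hsame, hft] at hsum
  unfold Wt.cun
  rw [ht]
  omega

end Pool.FC7
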