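import Pool.Agent.FC7.SyE

/-! # Patterns without optional gaps -/

open Finset

set_option linter.unusedSectionVars false

namespace Pool.FC7

open Pool.FC6 Pool.FC6.St

/-- no gaps without units -/
def noO (wd : List ℕ) : Bool := wd.all fun l => !isO l

theorem chc_eq {wd wd' : List ℕ} (h : chc wd wd' = true) (ho : noO wd = true) : wd' = wd := by
  unfold chc at h
  simp only [Bool.and_eq_true, decide_eq_true_eq, List.all_eq_true, List.mem_range] at h
  unfold noO at ho
  rw [List.all_eq_true] at ho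
  refine List.ext_getElem h.1 fun i h1 h2 => ?_
  have h3 := h.2 i h2
  unfold chl at h3
  simp only [Bool.or_eq_true, Bool.and_eq_true, decide_eq_true_eq] at h3
  rw [← List.getD_eq_getElem _ 0 h1, ← List.getD_eq_getElem _ 0 h2]
  rcases h3 with h3 | h3
  · exact h3
  · exfalso
    have h4 := ho (wd.getD i 0) (by
      rw [List.getD_eq_getElem _ _ h2]
      exact List.getElem_mem _)
    rw [h3.1] at h4
    exact absurd h4 (by simp)

/-- a pattern without optional gaps -/
theorem NoP.noC {w0 : List ℕ} {nb : List (ℕ × List ℕ)} (h : NoP 6 w0 nb)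
    (ho : (noO w0 && nb.all fun p => noO p.2) = true) : NoC w0 nb := by
  intro D V _ _ S L w U hM hS hR x hx
  rw [Bool.and_eq_true, List.all_eq_true] at ho
  obtain ⟨ho1, ho2⟩ := ho
  refine h D V S L w U hM hS hR x ⟨hx.cU, ?_, hx.nU, fun p hp => ?_⟩
  · obtain ⟨w', h1, h2⟩ := hx.w
    rwa [chc_eq h1 ho1] at h2
  · obtain ⟨w', h1, h2⟩ := hx.nw p hp
    rwa [chc_eq h1 (ho2 p hp)] at h2

variable {D V : Type} [Fintype D] [DecidableEq V]

/-- the pattern of codes with unknown faces; the neighbours in `pl` have at least five darts -/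
structure HasG (S : St D V) (L : D → Bool) (U : V → Prop) (w0 : List ℕ)
    (nb : List (ℕ × List ℕ)) (pl : List ℕ) (x : D) : Prop where
  cU : U (S.M.v x)
  w : ∃ w', chgc w0 w' = true ∧ IsW S L x w'
  nU : ∀ p ∈ nb, U (S.M.v (S.M.α (S.nxr^[p.1] x)))
  nw : ∀ p ∈ nb, ∃ w', chgc p.2 w' = true ∧ IsW S L (S.M.α (S.nxr^[p.1] x)) w'
  np : ∀ i ∈ pl, 5 ≤ S.nd (S.M.α (S.nxr^[i] x))

/-- the pattern of codes with unknown faces does not occur -/
def NoG (w0 : List ℕ) (nb : List (ℕ × List ℕ)) (pl : List ℕ) : Prop :=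
  ∀ (D V : Type) [Fintype D] [DecidableEq V] (S : St D V) (L : D → Bool) (w : D → ℕ)
    (U : V → Prop), MC 6 S L w → IsStar S → Reg S U → Can S w → ∀ x, ¬ HasG S L U w0 nb pl x

/-- no codes of unknown faces -/
def noG (wd : List ℕ) : Bool := wd.all fun g =>
  !(decide (g = 64 ∨ g = 80 ∨ g = 96) || decide (g = 65 ∨ g = 81 ∨ g = 97) ||
    decide (g = 1085) || decide (g = 1086) || decide (g = 4156) || decide (g = 6204))

theorem chgc_noG {wd wd' : List ℕ} (h : chgc wd wd' = true) (ho : noG wd = true) :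
    chc wd wd' = true := by
  unfold chgc at h
  unfold chc
  simp only [Bool.and_eq_true, decide_eq_true_eq, List.all_eq_true, List.mem_range] at h ⊢
  unfold noG at ho
  rw [List.all_eq_true] at ho
  refine ⟨h.1, fun i hi => ?_⟩
  have h3 := h.2 i hi
  have h4 := ho (wd.getD i 0) (by
    rw [List.getD_eq_getElem _ _ hi]
    exact List.getElem_mem _)
  generalize wd.getD i 0 = g at h3 h4 ⊢
  generalize wd'.getD i 0 = l' at h3 ⊢
  unfold chg at h3
  simp only [Bool.not_eq_true', Bool.or_eq_false_iff, decide_eq_false_iff_not] at h4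
  obtain ⟨⟨⟨⟨⟨h4, h5⟩, h6⟩, h7⟩, h8⟩, h9⟩ := h4
  rwa [if_neg h4, if_neg h5, if_neg h6, if_neg h7, if_neg h8, if_neg h9] at h3

/-- a pattern of codes without unknown faces -/
theorem NoCp.noG {w0 : List ℕ} {nb : List (ℕ × List ℕ)} {pl : List ℕ} (h : NoCp w0 nb pl)
    (ho : (FC7.noG w0 && nb.all fun p => FC7.noG p.2) = true) : NoG w0 nb pl := by
  intro D V _ _ S L w U hM hS hR hC x hx
  rw [Bool.and_eq_true, List.all_eq_true] at ho
  obtain ⟨ho1, ho2⟩ := ho
  obtain ⟨w', h1, h2⟩ := hx.w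
  refine h D V S L w U hM hS hR x ⟨hx.cU, ⟨w', chgc_noG h1 ho1, h2⟩, hx.nU, fun p hp => ?_⟩
    fun i hi => by have := hx.np i hi; omega
  obtain ⟨w', h1, h2⟩ := hx.nw p hp
  exact ⟨w', chgc_noG h1 (ho2 p hp), h2⟩

end Pool.FC7
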