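import Pool.Agent.FC7.CuA
import Pool.Agent.FC7.ClA
import Pool.Agent.FC7.SyF

/-! # Gaps with four corners and no units at three of them; patterns with exact letters there -/

open Finset

set_option linter.unusedSectionVars false

namespace Pool.FC7

open Pool.FC6 Pool.FC6.St

variable {D V : Type} [Fintype D] [DecidableEq V] {S : St D V} {L : D → Bool}
  {w : D → ℕ} {g : D}

/-- a gap with four corners without units at three corners has no units, or has two units -/
theorem fu_czero {Δ : ℕ} (hS : IsStar S) (W : Wf Δ S L w) (hr : S.real g = true)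
    (hv : S.real (S.M.σ g) = false) (h4 : S.csz (S.M.σ g) = 4) (u1 : S.u (S.nxr g) = 0)
    (u2 : S.u (S.M.α g) = 0) (u3 : S.u (S.nxr (S.M.α (S.nxr g))) = 0) :
    fu S (S.M.σ g) = S.u (S.M.φ (S.M.σ (S.M.σ (S.M.α (S.M.σ g))))) := by
  have hA : S.M.v (S.M.σ g) ∈ S.A := by rw [S.M.vσ]; exact W.real_A _ hr
  have hz : S.M.v (S.M.α (S.M.σ g)) ∉ S.A := hS.vhead W hA hv
  have hnd : S.nd (S.M.α (S.M.σ g)) = 4 := by rw [← hS.csz_virt W hv hA]; exact h4
  have hn : S.nxr g = S.M.σ (S.M.σ g) := if_neg (by rw [hv]; decide)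
  rw [← fu_α hv, fu_four hS W hz hnd]
  have e1 : S.M.φ (S.M.α (S.M.σ g)) = S.nxr g := hn.symm
  have e2 : S.M.φ (S.M.σ (S.M.α (S.M.σ g))) = S.M.α g := by
    show S.M.φ (S.M.φ (S.M.α (S.M.α (S.M.σ g)))) = _
    rw [S.M.αα]
    show S.M.φ (S.M.φ (S.M.φ (S.M.α g))) = _
    rw [S.M.φ3]
  have e3 : S.M.σ (S.M.σ (S.M.σ (S.M.α (S.M.σ g)))) = S.M.α (S.M.σ (S.M.α (S.nxr g))) := by
    have p4 : S.M.σ^[4] (S.M.α (S.M.σ g)) = S.M.α (S.M.σ g) := by
      rw [← hnd]; exact S.M.iter_card _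
    have p4' : S.M.σ (S.M.σ (S.M.σ (S.M.σ (S.M.α (S.M.σ g))))) = S.M.α (S.M.σ g) := p4
    refine S.M.σinj (p4'.trans ?_)
    have a1 : S.M.σ (S.M.α (S.nxr g)) = S.M.φ (S.nxr g) := by
      show S.M.φ (S.M.α (S.M.α (S.nxr g))) = _
      rw [S.M.αα]
    rw [a1]
    show S.M.α (S.M.σ g) = S.M.φ (S.M.α (S.M.α (S.M.φ (S.nxr g))))
    rw [S.M.αα, ← e1, S.M.φ3]
  have hv2 : S.real (S.M.σ (S.M.α (S.nxr g))) = false := by
    have a1 : S.M.σ (S.M.α (S.nxr g)) = S.M.φ (S.nxr g) := by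
      show S.M.φ (S.M.α (S.M.α (S.nxr g))) = _
      rw [S.M.αα]
    rw [a1]
    by_contra hne
    have h5 : S.real (S.M.φ (S.nxr g)) = true := by simpa using hne
    have h6 := hS.two _ (hS.nxr_real W hr) h5
    rw [← e1, S.M.φ3, W.real_α, hv] at h6
    exact absurd h6 (by decide)
  have e4 : S.M.φ (S.M.σ (S.M.σ (S.M.σ (S.M.α (S.M.σ g))))) = S.nxr (S.M.α (S.nxr g)) := by
    rw [e3]
    have : S.nxr (S.M.α (S.nxr g)) = S.M.σ (S.M.σ (S.M.α (S.nxr g))) :=
      if_neg (by rw [hv2]; decide)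
    rw [this]
    rfl
  rw [e1, e2, e4, u1, u2, u3]
  omega

/-- the fourth corner belongs to the face -/
theorem czero_sc {Δ : ℕ} (hS : IsStar S) (W : Wf Δ S L w) {y : D}
    (hv : S.real y = false) (hz : S.M.v (S.M.α y) ∉ S.A) :
    S.sc.r y (S.M.φ (S.M.σ (S.M.σ (S.M.α y)))) := by
  refine S.sc.iseqv.trans ((scα hv _).2 (S.sc.iseqv.refl _)) ((hS.sc_star W hz _).2
    (Or.inr (Or.inr ?_)))
  rw [S.M.φ3, S.M.vσ, S.M.vσ]

/-! ### Patterns -/

/-- a gap with four corners without units here -/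
def is4 (l : ℕ) : Bool := decide (l = 92) || decide (l = 348) || decide (l = 80) || decide (l = 336)

/-- a gap without units here -/
def isz (l : ℕ) : Bool := is4 l || decide (l = 76) || decide (l = 332) || decide (l = 64) ||
  decide (l = 320)

/-- the code of this gap without units in the face -/
def rc4 (l : ℕ) : ℕ := if l % 256 = 92 ∨ l % 256 = 76 then l else l + 12

/-- the gap after the `i`-th spoke of the pattern has four corners and no units at the centre and at
both neighbours -/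
def cz (w0 : List ℕ) (nb : List (ℕ × List ℕ)) (i : ℕ) : Bool :=
  is4 (w0.getD i 0) && (nb.any fun p => decide (p.1 = i) && isz (p.2.getD (p.2.length - 1) 0)) &&
    (nb.any fun p => decide (p.1 = (i + 1) % w0.length) && isz (p.2.getD 0 0))

theorem isz_chg {l l' : ℕ} (hc : chg l l' = true) (h4 : isz l = true) :
    l' ∈ ([92, 88, 348, 344, 84, 336, 76, 72, 332, 328, 68, 320] : List ℕ) ∧ lA l' = lA (rc4 l) ∧
      sk l' = sk (rc4 l) ∧ lS l' = lS (rc4 l) ∧ lK (rc4 l) = 1 ∧ lB (rc4 l) = 3 := by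
  unfold isz is4 at h4
  simp only [Bool.or_eq_true, decide_eq_true_eq] at h4
  unfold chg chl at hc
  rcases h4 with ((((((h4 | h4) | h4) | h4) | h4) | h4) | h4) | h4 <;> subst h4
  · have h5 : l' = 92 ∨ l' = 88 := by
      have h6 : l' = 92 ∨ l' + 4 = 92 := by simpa [isO] using hc
      omega
    rcases h5 with h5 | h5 <;> subst h5 <;> decide
  · have h5 : l' = 348 ∨ l' = 344 := by
      have h6 : l' = 348 ∨ l' + 4 = 348 := by simpa [isO] using hc
      omega
    rcases h5 with h5 | h5 <;> subst h5 <;> decide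
  · have h5 : (l' = 84 ∨ l' = 88) ∨ l' = 92 := by simpa using hc
    rcases h5 with (h5 | h5) | h5 <;> subst h5 <;> decide
  · have h5 : l' = 336 := by simpa [isO] using hc
    subst h5
    decide
  · have h5 : l' = 76 ∨ l' = 72 := by
      have h6 : l' = 76 ∨ l' + 4 = 76 := by simpa [isO] using hc
      omega
    rcases h5 with h5 | h5 <;> subst h5 <;> decide
  · have h5 : l' = 332 ∨ l' = 328 := by
      have h6 : l' = 332 ∨ l' + 4 = 332 := by simpa [isO] using hc
      omega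
    rcases h5 with h5 | h5 <;> subst h5 <;> decide
  · have h5 : (l' = 68 ∨ l' = 72) ∨ l' = 76 := by simpa using hc
    rcases h5 with (h5 | h5) | h5 <;> subst h5 <;> decide
  · have h5 : l' = 320 := by simpa [isO] using hc
    subst h5
    decide

theorem is4_isz {l : ℕ} (h : is4 l = true) : isz l = true := by
  unfold isz
  rw [h]
  rfl

theorem chg_isz {l l' : ℕ} {d : D} (h : IsL S L d l') (hc : chg l l' = true) (h4 : isz l = true) :
    S.u (S.nxr d) = 0 ∧ S.real (S.M.σ d) = false := by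
  have h2 : lA l' = 0 ∧ lK l' = 1 := by
    have h5 := (isz_chg hc h4).1
    simp only [List.mem_cons, List.not_mem_nil, or_false] at h5
    rcases h5 with h5 | h5 | h5 | h5 | h5 | h5 | h5 | h5 | h5 | h5 | h5 | h5 <;> subst h5 <;>
      decide
  obtain ⟨a1, a3⟩ := h2
  obtain ⟨g1, -⟩ := h.gap (by omega)
  refine ⟨?_, g1⟩
  rcases h.a with h5 | h5
  · omega
  · rw [h5, a1]

theorem chg_is4 {l l' : ℕ} {d : D} (h : IsL S L d l') (hc : chg l l' = true) (h4 : is4 l = true) :
    S.u (S.nxr d) = 0 ∧ S.real (S.M.σ d) = false ∧ S.csz (S.M.σ d) = 4 := by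
  obtain ⟨u1, u2⟩ := chg_isz h hc (is4_isz h4)
  refine ⟨u1, u2, ?_⟩
  have h2 : lC l' = 1 ∧ lK l' = 1 := by
    unfold is4 at h4
    simp only [Bool.or_eq_true, decide_eq_true_eq] at h4
    unfold chg chl at hc
    rcases h4 with ((h4 | h4) | h4) | h4 <;> subst h4
    · have h5 : l' = 92 ∨ l' = 88 := by
        have h6 : l' = 92 ∨ l' + 4 = 92 := by simpa [isO] using hc
        omega
      rcases h5 with h5 | h5 <;> subst h5 <;> decide
    · have h5 : l' = 348 ∨ l' = 344 := by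
        have h6 : l' = 348 ∨ l' + 4 = 348 := by simpa [isO] using hc
        omega
      rcases h5 with h5 | h5 <;> subst h5 <;> decide
    · have h5 : (l' = 84 ∨ l' = 88) ∨ l' = 92 := by simpa using hc
      rcases h5 with (h5 | h5) | h5 <;> subst h5 <;> decide
    · have h5 : l' = 336 := by simpa [isO] using hc
      subst h5
      decide
  obtain ⟨-, -, g3, -⟩ := h.gap (by omega)
  exact g3 h2.1

/-- the pattern of codes, at any vertices -/
structure HasW (S : St D V) (L : D → Bool) (w0 : List ℕ) (nb : List (ℕ × List ℕ)) (x : D) :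
    Prop where
  w : ∃ w', chgc w0 w' = true ∧ IsW S L x w'
  nw : ∀ p ∈ nb, ∃ w', chgc p.2 w' = true ∧ IsW S L (S.M.α (S.nxr^[p.1] x)) w'

theorem chgc_len {wd wd' : List ℕ} (h : chgc wd wd' = true) : wd'.length = wd.length := by
  unfold chgc at h
  rw [Bool.and_eq_true, decide_eq_true_eq] at h
  exact h.1

theorem chgc_get {wd wd' : List ℕ} (h : chgc wd wd' = true) {i : ℕ} (hi : i < wd.length) :
    chg (wd.getD i 0) (wd'.getD i 0) = true := by
  unfold chgc at h
  simp only [Bool.and_eq_true, decide_eq_true_eq, List.all_eq_true, List.mem_range] at h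
  exact h.2 i hi

/-- a gap with four corners without units at the centre and at both neighbours has no units -/
theorem HasW.cz {Δ : ℕ} (hΔ : Δ ≤ 6) (h : MC Δ S L w) (hS : IsStar S) {w0 : List ℕ}
    {nb : List (ℕ × List ℕ)} {x : D} (hP : HasW S L w0 nb x) {i : ℕ} (hi : i < w0.length)
    (hz : FC7.cz w0 nb i = true) :
    S.real (S.M.σ (S.nxr^[i] x)) = false ∧ fu S (S.M.σ (S.nxr^[i] x)) = 0 := by
  have W := h.ok.toWf
  unfold FC7.cz at hz
  simp only [Bool.and_eq_true, List.any_eq_true, decide_eq_true_eq] at hz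
  obtain ⟨⟨z1, p, p1, p2, p3⟩, q, q1, q2, q3⟩ := hz
  obtain ⟨w', c1, I⟩ := hP.w
  have hlen := chgc_len c1
  obtain ⟨u1, hv, h4⟩ := chg_is4 (I.l i (by omega)) (chgc_get c1 hi) z1
  obtain ⟨wp, c2, I2⟩ := hP.nw p p1
  obtain ⟨wq, c3, I3⟩ := hP.nw q q1
  rw [p2] at I2
  have hq : S.nxr^[q.1] x = S.nxr (S.nxr^[i] x) := by
    rw [q2, ← Function.iterate_succ_apply' S.nxr]
    by_cases h5 : i + 1 = w0.length
    · rw [h5, Nat.mod_self]
      have := hS.nxr_rdeg W I.re
      rw [← I.len, hlen] at this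
      rw [show i.succ = w0.length from h5, this]
      rfl
    · rw [Nat.mod_eq_of_lt (by omega)]
  rw [hq] at I3
  have l2 := I2.len_pos hS W
  have l3 := I3.len_pos hS W
  have hl2 := chgc_len c2
  have hl3 := chgc_len c3
  obtain ⟨u2, -⟩ := chg_isz (I2.l (wp.length - 1) (by omega)) (by
    rw [hl2]; exact chgc_get c2 (by omega)) p3
  rw [I2.prev hS W] at u2
  obtain ⟨u3, -⟩ := chg_isz (I3.l 0 l3) (chgc_get c3 (by omega)) q3
  have u3' : S.u (S.nxr (S.M.α (S.nxr (S.nxr^[i] x)))) = 0 := u3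
  have key := fu_czero hS W (hS.nxr_iter_real W I.re i) hv h4 u1 u2 u3'
  refine ⟨hv, ?_⟩
  have hA : S.M.v (S.M.σ (S.nxr^[i] x)) ∈ S.A := by
    rw [S.M.vσ]; exact W.real_A _ (hS.nxr_iter_real W I.re i)
  have hsz := czero_sc hS W hv (hS.vhead W hA hv)
  generalize S.M.σ (S.nxr^[i] x) = y at *
  generalize S.M.φ (S.M.σ (S.M.σ (S.M.α y))) = z at *
  have hu := h.u_lt hΔ hS z
  by_contra hne
  obtain ⟨t, t1, t2⟩ := fu_posx (S := S) (d := y) (by omega)
  rcases h.ok.thr t t2 with h5 | ⟨e, e', a1, a2, a3, a4, a5, a6⟩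
  · rw [← fu_congr t1] at h5; omega
  · -- two different darts with units
    classical
    have key2 : ∀ e, S.sc.r y e → S.u e ≠ 0 → e = z := by
      intro e he hue
      by_contra hez
      have : ∑ x ∈ ({e, z} : Finset D), (if S.sc.r y x then S.u x else 0) ≤ fu S y := by
        unfold fu
        exact Finset.sum_le_sum_of_subset (Finset.subset_univ _)
      rw [Finset.sum_pair hez, if_pos he, if_pos hsz] at this
      omega
    have b1 := key2 e (S.sc.iseqv.trans t1 a1) a3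
    have b2 := key2 e' (S.sc.iseqv.trans t1 a2) a4
    exact a5 (by rw [b1, b2])

/-- the face before the reverse of a spoke -/
theorem fu_last {g h : D} (hn : S.nxr h = S.M.α g)
    (hv : S.real (S.M.σ h) = false) : fu S (S.M.σ h) = fu S (S.M.σ g) := by
  have e1 : S.M.σ (S.M.σ h) = S.M.α g := by rw [← hn]; exact (if_neg (by rw [hv]; decide)).symm
  have e2 : S.M.φ (S.M.α (S.M.σ h)) = S.M.α g := e1
  rw [← fu_α hv, ← fu_φ (S.M.α (S.M.σ h)), e2, ← fu_φ (S.M.α g)]
  rfl

/-- the face after the reverse of the next spoke -/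
theorem fu_first {g : D} (hv : S.real (S.M.σ g) = false) :
    fu S (S.M.σ (S.M.α (S.nxr g))) = fu S (S.M.σ g) := by
  have e1 : S.nxr g = S.M.σ (S.M.σ g) := if_neg (by rw [hv]; decide)
  have e2 : S.M.σ (S.M.α (S.nxr g)) = S.M.φ (S.nxr g) := by
    show S.M.φ (S.M.α (S.M.α (S.nxr g))) = _
    rw [S.M.αα]
  rw [e2, fu_φ, e1]
  show fu S (S.M.φ (S.M.α (S.M.σ g))) = _
  rw [fu_φ, fu_α hv]

end Pool.FC7
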