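import Pool.Agent.FC7.Ex
import Pool.Agent.FC6.Min

/-! # Gluing along a cut with at most three real edges, for the class with optional faces -/

open Finset

namespace Pool.FC7

open Pool.FC6 Pool.FC6.St

variable {D V : Type} [Fintype D] [DecidableEq V] {S : St D V} {L : D → Bool} {w : D → ℕ}

/-- deletion of the vertices in `X`; `w` = weight of the labels, which become units -/
def dl (S : St D V) (w : D → ℕ) (X : Finset V) : St D V where
  M := S.M
  A := S.A \ X
  real := (S.del X).real
  u d := if S.M.v d ∈ X then 0 else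
    S.u d + (if S.real d = true ∧ S.M.v (S.M.α d) ∈ X then 1 + w d else 0)

/-- the side `b` of the cut `s` -/
def sd (S : St D V) (w : D → ℕ) (s : V → Bool) (b : Bool) : St D V :=
  dl S w (S.A.filter fun x => s x ≠ b)

/-- labels after the deletion of vertices -/
def dL (S : St D V) (L : D → Bool) (X : Finset V) (d : D) : Bool := L d && (S.del X).real d

/-- the labels of one side -/
def sdL (S : St D V) (L : D → Bool) (s : V → Bool) (b : Bool) : D → Bool :=
  dL S L (S.A.filter fun x => s x ≠ b)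

theorem sd_real (rA : ∀ d, S.real d = true → S.M.v d ∈ S.A)
    (rα : ∀ d, S.real (S.M.α d) = S.real d) {s : V → Bool} {b : Bool} {d : D} :
    (sd S w s b).real d = true ↔ S.real d = true ∧ s (S.M.v d) = b ∧ s (S.M.v (S.M.α d)) = b := by
  show (S.del (S.A.filter fun x => s x ≠ b)).real d = true ↔ _
  rw [del_real]
  constructor
  · rintro ⟨h1, h2, h3⟩
    have a1 := rA d h1
    have a2 := rA (S.M.α d) (by rw [rα, h1])
    rw [Finset.mem_filter] at h2 h3
    refine ⟨h1, ?_, ?_⟩
    · by_contra h; exact h2 ⟨a1, h⟩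
    · by_contra h; exact h3 ⟨a2, h⟩
  · rintro ⟨h1, h2, h3⟩
    refine ⟨h1, ?_, ?_⟩
    · rw [Finset.mem_filter]; exact fun h => h.2 h2
    · rw [Finset.mem_filter]; exact fun h => h.2 h3

theorem sd_virt (rA : ∀ d, S.real d = true → S.M.v d ∈ S.A)
    (rα : ∀ d, S.real (S.M.α d) = S.real d) {s : V → Bool} {b : Bool} {d : D}
    (h : s (S.M.v d) ≠ s (S.M.v (S.M.α d))) : (sd S w s b).real d = false := by
  by_contra hc
  obtain ⟨_, h2, h3⟩ := (sd_real rA rα).1 (by simpa using hc)
  exact h (h2.trans h3.symm)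

theorem sd_br (rA : ∀ d, S.real d = true → S.M.v d ∈ S.A)
    (rα : ∀ d, S.real (S.M.α d) = S.real d) {s c c1 : V → Bool} {b : Bool}
    (hc : ∀ x, s x = b → c x = c1 x) {d : D} :
    Br (sd S w s b) c1 d ↔ Br S c d ∧ s (S.M.v d) = b ∧ s (S.M.v (S.M.α d)) = b := by
  unfold Br
  rw [sd_real rA rα]
  constructor
  · rintro ⟨⟨h1, h2, h3⟩, h4⟩
    refine ⟨⟨h1, ?_⟩, h2, h3⟩
    rw [hc _ h2, hc _ h3]; exact h4
  · rintro ⟨⟨h1, h4⟩, h2, h3⟩
    refine ⟨⟨h1, h2, h3⟩, ?_⟩
    rw [hc _ h2, hc _ h3] at h4; exact h4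

/-- the test function of the side `b` -/
noncomputable def hh (S : St D V) (s : V → Bool) (b : Bool) (h : D → ℝ) (lam : ℝ) (d : D) : ℝ :=
  open Classical in if NF S.M s b d then lam else h d

section

variable (rA : ∀ d, S.real d = true → S.M.v d ∈ S.A)
  (rα : ∀ d, S.real (S.M.α d) = S.real d) {s c c1 : V → Bool} {b : Bool}
  (hc : ∀ x, s x = b → c x = c1 x) {h : D → ℝ} {lam : ℝ} (ht : S.Test c h)
  (hlam : ∀ d, s (S.M.v d) ≠ s (S.M.v (S.M.α d)) → h d = lam)

include ht hlam in
theorem hh_eq {d : D} (hd : s (S.M.v d) = b) : hh S s b h lam d = h d := by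
  unfold hh
  by_cases hN : NF S.M s b d
  · rw [if_pos hN]
    obtain ⟨e, e1, e2⟩ := cut_face S.M s b hN hd
    rw [← inv3 ht.1 e1]
    exact (hlam e e2).symm
  · rw [if_neg hN]

theorem hh_nf {d : D} (hN : NF S.M s b d) : hh S s b h lam d = lam := by
  unfold hh; rw [if_pos hN]

include rA rα hc ht hlam in
theorem hh_test : (sd S w s b).Test c1 (hh S s b h lam) := by
  classical
  refine ⟨fun d => ?_, fun d hd => ?_⟩
  · show (if NF S.M s b (S.M.φ d) then lam else h (S.M.φ d)) = if NF S.M s b d then lam else h d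
    by_cases h2 : NF S.M s b d
    · rw [if_pos h2, if_pos ((NF_φ _ _ _ _).2 h2)]
    · rw [if_neg h2, if_neg (fun h3 => h2 ((NF_φ _ _ _ _).1 h3)), ht.1]
  · show hh S s b h lam (S.M.α d) = hh S s b h lam d
    by_cases h1 : s (S.M.v d) = b
    · by_cases h2 : s (S.M.v (S.M.α d)) = b
      · rw [hh_eq ht hlam h1, hh_eq ht hlam h2]
        refine ht.2 d ?_
        rcases hd with hd | hd
        · left
          by_contra hr
          have : (sd S w s b).real d = true := (sd_real rA rα).2 ⟨by simpa using hr, h1, h2⟩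
          rw [hd] at this; exact absurd this (by simp)
        · right
          rw [hc _ h1, hc _ h2]; exact hd
      · rw [hh_nf (Or.inl h2), hh_nf (Or.inr (Or.inl (by rw [S.M.vφ]; exact h2)))]
    · rw [hh_nf (d := d) (Or.inl h1), hh_nf (Or.inr (Or.inl (by rw [S.M.vφ, S.M.αα]; exact h1)))]

end

/-- a side without real edges: every function which is constant on the cut is constant there -/
theorem triv_side {s : V → Bool} {b : Bool}
    (hb : ∀ d, S.real d = true → s (S.M.v d) = b → s (S.M.v (S.M.α d)) ≠ b) {h : D → ℝ}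
    (ht : S.Cl h) {lam : ℝ} (hlam : ∀ d, s (S.M.v d) ≠ s (S.M.v (S.M.α d)) → h d = lam)
    {d0 : D} (hd0 : s (S.M.v d0) ≠ s (S.M.v (S.M.α d0))) {d : D} (hd : s (S.M.v d) = b) :
    h d = lam := by
  classical
  -- `P e`: all corners of the triangle of `e` are on the side `b`
  let P : D → Prop := fun e => ¬ NF S.M s b e
  have hPφ : ∀ e, P (S.M.φ e) ↔ P e := fun e => not_congr (NF_φ _ _ _ _)
  have hmix : ∀ e, NF S.M s b e → s (S.M.v e) = b → h e = lam := by
    intro e he he'
    obtain ⟨e1, h1, h2⟩ := cut_face S.M s b he he'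
    rw [← inv3 ht.1 h1]
    exact hlam e1 h2
  have hPv : ∀ e, P e → s (S.M.v e) = b ∧ s (S.M.v (S.M.α e)) = b := by
    intro e he
    simp only [P, NF] at he
    push Not at he
    exact ⟨he.1, by rw [← S.M.vφ]; exact he.2.1⟩
  have key := S.M.conn (fun e => if P e then h e - lam else 0) (fun e => by
      show (if P (S.M.φ e) then h (S.M.φ e) - lam else 0) = if P e then h e - lam else 0
      by_cases h1 : P e
      · rw [if_pos h1, if_pos ((hPφ e).2 h1), ht.1]
      · rw [if_neg h1, if_neg (fun h2 => h1 ((hPφ e).1 h2))]) (fun e => by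
      show (if P (S.M.α e) then h (S.M.α e) - lam else 0) = if P e then h e - lam else 0
      by_cases h1 : P e
      · obtain ⟨a1, a2⟩ := hPv e h1
        have hr : S.real e = false := by
          by_contra hr
          exact hb e (by simpa using hr) a1 a2
        have h2 := ht.2 e hr
        rw [if_pos h1]
        by_cases h3 : P (S.M.α e)
        · rw [if_pos h3, h2]
        · rw [if_neg h3, ← h2, hmix _ (not_not.1 h3) a2, sub_self]
      · by_cases h3 : P (S.M.α e)
        · obtain ⟨a1, a2⟩ := hPv _ h3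
          rw [S.M.αα] at a2
          have hr : S.real e = false := by
            by_contra hr
            exact hb e (by simpa using hr) a2 a1
          rw [if_pos h3, if_neg h1, ht.2 e hr, hmix e (not_not.1 h1) a2, sub_self]
        · rw [if_neg h1, if_neg h3]) d d0
  have hN0 : ¬ P d0 := by
    simp only [P, not_not]
    by_cases h2 : s (S.M.v d0) = b
    · right; left
      rw [S.M.vφ]
      exact fun h3 => hd0 (h2.trans h3.symm)
    · left; exact h2
  rw [if_neg hN0] at key
  by_cases h1 : P d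
  · rw [if_pos h1] at key; linarith
  · exact hmix d (not_not.1 h1) hd

/-- gluing along a cut with at most one monochromatic real edge; the hole is visited on both sides,
or a side has no real edges -/
theorem glue7 (rA : ∀ d, S.real d = true → S.M.v d ∈ S.A)
    (rα : ∀ d, S.real (S.M.α d) = S.real d) (uA : ∀ d, S.u d ≠ 0 → S.M.v d ∈ S.A)
    (Ai : ∀ x ∈ S.A, ∃ d, S.M.v d = x)
    (Lr : ∀ d, L d = true → S.real d = true) {s c : V → Bool}
    (hT : ConS S.M s true) (hF : ConS S.M s false) (hM : OneMono S s c)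
    {d0 : D} (hd0 : s (S.M.v d0) ≠ s (S.M.v (S.M.α d0))) (hB : ∃ e, Br S c e)
    (hs : ∀ b, (∃ cb : V → Bool, (∀ x, s x = b → c x = cb x) ∧
      Sol (sd S w s b) (sdL S L s b) cb ∧ Vi (sd S w s b) cb d0) ∨
      (∀ d, S.real d = true → s (S.M.v d) = b → s (S.M.v (S.M.α d)) ≠ b)) : Sol S L c := by
  classical
  have inv : ∀ h : D → ℝ, S.Test c h → ∀ d, s (S.M.v d) ≠ s (S.M.v (S.M.α d)) → h d = h d0 := by
    intro h ht d hd
    exact cut_const S.M hT hF ht.1 (fun e he => cut_inv rα hM ht he) hd hd0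
  have hN0 : ∀ b, NF S.M s b d0 := by
    intro b
    by_cases h2 : s (S.M.v d0) = b
    · right; left
      rw [S.M.vφ]
      exact fun h3 => hd0 (h2.trans h3.symm)
    · left; exact h2
  have one : ∀ b, ∀ d, Br S c d → s (S.M.v d) = b → s (S.M.v (S.M.α d)) = b →
      ∀ h : D → ℝ, S.Test c h → h d = h d0 := by
    intro b d hd h1 h2 h ht
    rcases hs b with ⟨cb, hc, hS, hv⟩ | hb
    · have hT1 := hh_test (b := b) (w := w) rA rα hc ht (inv h ht)
      have hd' : Br (sd S w s b) cb d := (sd_br rA rα hc).2 ⟨hd, h1, h2⟩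
      obtain ⟨e, e1, e2⟩ := hv
      have k1 := hS.con _ hT1 d e hd' e1
      have k2 := e2 _ hT1
      rw [hh_eq ht (inv h ht) h1] at k1
      rw [hh_nf (hN0 b)] at k2
      rw [k1, k2]
    · exact absurd h2 (hb d hd.1 h1)
  have brc : ∀ d, Br S c d → ∀ h : D → ℝ, S.Test c h → h d = h d0 := by
    intro d hd h ht
    by_cases h1 : s (S.M.v d) = s (S.M.v (S.M.α d))
    · exact one _ d hd rfl h1.symm h ht
    · exact inv h ht d h1
  -- the mixed darts are visited
  have v0 : Vi S c d0 := by
    obtain ⟨e, e1⟩ := hB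
    exact ⟨e, e1, brc e e1⟩
  have vm : ∀ d, s (S.M.v d) ≠ s (S.M.v (S.M.α d)) → Vi S c d := fun d hd =>
    v0.eq fun h ht => (inv h ht d hd).symm
  have tt : ∀ b, (∀ d, S.real d = true → s (S.M.v d) = b → s (S.M.v (S.M.α d)) ≠ b) →
      ∀ d, s (S.M.v d) = b → Vi S c d := fun b hb d hd =>
    v0.eq fun h ht => (triv_side hb ⟨ht.1, fun e he => ht.2 e (Or.inl he)⟩ (inv h ht) hd0 hd).symm
  have tr : ∀ b cb, (∀ x, s x = b → c x = cb x) → ∀ d, s (S.M.v d) = b →
      Vi (sd S w s b) cb d → Vi S c d := by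
    intro b cb hc d hd hvd
    obtain ⟨e, e1, e2⟩ := hvd
    obtain ⟨f1, f2, f3⟩ := (sd_br rA rα hc).1 e1
    refine ⟨e, f1, fun h ht => ?_⟩
    have hT1 := hh_test (b := b) (w := w) rA rα hc ht (inv h ht)
    have := e2 _ hT1
    rwa [hh_eq ht (inv h ht) f2, hh_eq ht (inv h ht) hd] at this
  refine ⟨fun h ht d d' hd hd' => ?_, fun x hx => ?_, fun d hd => ?_, fun d hd => ?_⟩
  · rw [brc d hd h ht, brc d' hd' h ht]
  · rcases hs (s x) with ⟨cb, hc, hS, hv⟩ | hb
    · obtain ⟨d, hd, hvd⟩ := hS.live x (by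
        show x ∈ S.A \ (S.A.filter fun y => s y ≠ s x)
        simp [hx])
      have hd' : S.M.v d = x := hd
      exact ⟨d, hd', tr (s x) cb hc d (by rw [hd']) hvd⟩
    · obtain ⟨d, hd⟩ := Ai x hx
      exact ⟨d, hd, tt _ hb d (by rw [hd])⟩
  · have hA := uA d hd
    rcases hs (s (S.M.v d)) with ⟨cb, hc, hS, hv⟩ | hb
    · refine tr (s (S.M.v d)) cb hc d rfl (hS.req d ?_)
      show (if S.M.v d ∈ (S.A.filter fun y => s y ≠ s (S.M.v d)) then 0 else S.u d +
        (if S.real d = true ∧ S.M.v (S.M.α d) ∈ (S.A.filter fun y => s y ≠ s (S.M.v d)) then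
          1 + w d else 0)) ≠ 0
      rw [if_neg (by simp)]
      omega
    · exact tt _ hb d rfl
  · have hr := Lr d hd
    by_cases h1 : s (S.M.v d) = s (S.M.v (S.M.α d))
    · rcases hs (s (S.M.v d)) with ⟨cb, hc, hS, hv⟩ | hb
      · have hl : sdL S L s (s (S.M.v d)) d = true := by
          show (L d && (sd S w s (s (S.M.v d))).real d) = true
          rw [hd, (sd_real rA rα).2 ⟨hr, rfl, h1.symm⟩]; rfl
        rcases hS.lab d hl with h2 | h2
        · exact Or.inl (tr _ cb hc d rfl h2)
        · exact Or.inr (tr _ cb hc _ h1.symm h2)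
      · exact Or.inl (tt _ hb d rfl)
    · exact Or.inl (vm d h1)

/-- a face of `S` with darts on both sides lies in the hole -/
theorem hole_mix (rA : ∀ d, S.real d = true → S.M.v d ∈ S.A)
    (rα : ∀ d, S.real (S.M.α d) = S.real d) {s : V → Bool} {b : Bool}
    (hT : ConS S.M s true) (hF : ConS S.M s false) {h : D → ℝ} (ht : (sd S w s b).Cl h)
    {d0 : D} (hd0 : s (S.M.v d0) ≠ s (S.M.v (S.M.α d0))) {d e : D} (hde : S.sc.r d e)
    (hs : s (S.M.v d) ≠ s (S.M.v e)) : h d = h d0 := by
  classical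
  have inv : ∀ d, s (S.M.v d) ≠ s (S.M.v (S.M.α d)) → h d = h d0 := by
    intro d hd
    exact cut_const S.M hT hF ht.1 (fun e he => ht.2 e (sd_virt rA rα he)) hd hd0
  have hmix : ∀ x, h x ≠ h d0 → s (S.M.v (S.M.φ x)) = s (S.M.v x) := by
    intro x hx
    by_contra hn
    rw [S.M.vφ] at hn
    exact hx (inv x (fun h => hn h.symm))
  have key : S.Cl (fun x => if h x = h d0 then none else some (s (S.M.v x))) := by
    refine ⟨fun x => ?_, fun x hx => ?_⟩
    · have e1 : h (S.M.φ x) = h x := ht.1 x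
      beta_reduce
      rw [e1]
      by_cases h1 : h x = h d0
      · rw [if_pos h1, if_pos h1]
      · rw [if_neg h1, if_neg h1, hmix x h1]
    · have e1 : h (S.M.α x) = h x := by
        refine ht.2 x ?_
        by_contra hn
        obtain ⟨h2, _, _⟩ := (sd_real rA rα).1 (show (sd S w s b).real x = true by simpa using hn)
        rw [hx] at h2; exact absurd h2 (by simp)
      beta_reduce
      rw [e1]
      by_cases h1 : h x = h d0
      · rw [if_pos h1, if_pos h1]
      · rw [if_neg h1, if_neg h1]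
        by_contra hn
        apply h1
        refine inv x fun h2 => hn ?_
        rw [h2]
  have h1 := cl_sc key hde
  beta_reduce at h1
  by_contra hn
  rw [if_neg hn] at h1
  by_cases h2 : h e = h d0
  · rw [if_pos h2] at h1; exact absurd h1 (by simp)
  · rw [if_neg h2] at h1
    exact hs (Option.some_injective _ h1)

end Pool.FC7
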