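import Pool.Agent.FC7.Star

/-! # The star form for the class with optional faces: states and solutions -/

open Finset

namespace Pool.FC7

open Pool.FC6 Pool.FC6.St

variable {D V : Type} [Fintype D] [DecidableEq V] {S : St D V}

/-- the star form of a state -/
noncomputable def star (h : Gd S) : St (DS S) (VS S) where
  M := sM h
  A := S.A.map ⟨Sum.inl, Sum.inl_injective⟩
  real
    | Sum.inl _ => true
    | Sum.inr (_, i) => decide (i = 0)
  u
    | Sum.inl a => S.U a.1
    | Sum.inr (a, i) => if i = 0 then S.U a.1 else 0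

/-- the labels of the star form -/
def starL (S : St D V) (L : D → Bool) : DS S → Bool
    | Sum.inl a => L a.1
    | Sum.inr (a, i) => decide (i = 0) && L a.1

theorem sum_DS (F : DS S → ℕ) (G : D → ℕ)
    (h0 : ∀ a (ha : S.real a = true), F (em a ha) = G a) (h1 : ∀ a, F (Sum.inr (a, 1)) = 0)
    (h2 : ∀ a, F (Sum.inr (a, 2)) = 0) : ∑ x, F x = ∑ d, if S.real d = true then G d else 0 := by
  classical
  rw [Fintype.sum_sum_type, Fintype.sum_prod_type]
  have e1 : ∑ a : {d // pp S d = true}, F (Sum.inl a) =
      ∑ d ∈ Finset.univ.filter (fun d => pp S d = true), G d := by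
    rw [Finset.sum_subtype (Finset.univ.filter fun d => pp S d = true) (p := fun d => pp S d = true)
      (by simp) G]
    refine Finset.sum_congr rfl fun a _ => ?_
    rw [← h0 a.1 (pp_iff.1 a.2).1, em_pp _ a.2]
  have e2 : ∑ a : {d // gg S d = true}, ∑ i, F (Sum.inr (a, i)) =
      ∑ d ∈ Finset.univ.filter (fun d => gg S d = true), G d := by
    rw [Finset.sum_subtype (Finset.univ.filter fun d => gg S d = true) (p := fun d => gg S d = true)
      (by simp) G]
    refine Finset.sum_congr rfl fun a _ => ?_
    rw [Fin.sum_univ_three, h1, h2, ← h0 a.1 (gg_iff.1 a.2).1, em_gg _ a.2]; rfl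
  rw [e1, e2, ← Finset.sum_union, ← Finset.sum_filter]
  · congr 1
    ext d
    simp only [Finset.mem_filter, Finset.mem_univ, true_and, Finset.mem_union]
    constructor
    · rintro (hp | hp)
      · exact (pp_iff.1 hp).1
      · exact (gg_iff.1 hp).1
    · intro hd; exact pg hd
  · rw [Finset.disjoint_left]
    intro d h1 h2
    simp only [Finset.mem_filter, Finset.mem_univ, true_and] at h1 h2
    exact not_pg h1 h2

/-- sums of collected units -/
theorem sum_U (h : Gd S) (P : D → Prop) [DecidablePred P] :
    ∑ d, (if S.real d = true then (if P d then S.U d else 0) else 0) =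
      ∑ e, if S.M.v e ∈ S.A ∧ P (S.fr e) then S.u e else 0 := by
  classical
  have e1 : ∀ d, (if S.real d = true then (if P d then S.U d else 0) else 0) =
      ∑ e, if (S.real d = true ∧ P d) ∧ (S.M.v e ∈ S.A ∧ S.fr e = d) then S.u e else 0 := by
    intro d
    by_cases h1 : S.real d = true
    · by_cases h2 : P d
      · simp only [h1, h2, if_true, and_self, true_and]
        rfl
      · simp [h1, h2]
    · simp [h1]
  simp only [e1]
  rw [Finset.sum_comm]
  refine Finset.sum_congr rfl fun e _ => ?_
  by_cases h1 : S.M.v e ∈ S.A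
  · have hr := real_fr h.full h1
    rw [Finset.sum_eq_single (S.fr e)]
    · by_cases h2 : P (S.fr e)
      · rw [if_pos ⟨⟨hr, h2⟩, h1, rfl⟩, if_pos ⟨h1, h2⟩]
      · rw [if_neg (by tauto), if_neg (by tauto)]
    · intro d _ hd
      rw [if_neg]
      rintro ⟨_, _, h3⟩
      exact hd h3.symm
    · intro h2; exact absurd (Finset.mem_univ _) h2
  · rw [Finset.sum_eq_zero]
    · rw [if_neg (by tauto)]
    · intro d _
      rw [if_neg (by tauto)]

theorem Gd.fr_sc (h : Gd S) {d : D} (hd : S.M.v d ∈ S.A) : S.sc.r d (S.fr d) := fun _ ht =>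
  (cl_fr h.full ht hd).symm

theorem star_real_em (h : Gd S) {a : D} (ha : S.real a = true) :
    (star h).real (em a ha) = true := by
  rcases pg ha with hp | hp
  · rw [em_pp ha hp]; rfl
  · rw [em_gg ha hp]; rfl

theorem star_u_em (h : Gd S) {a : D} (ha : S.real a = true) :
    (star h).u (em a ha) = S.U a := by
  rcases pg ha with hp | hp
  · rw [em_pp ha hp]; rfl
  · rw [em_gg ha hp]; rfl

theorem starL_em {L : D → Bool} {a : D} (ha : S.real a = true) : starL S L (em a ha) = L a := by
  rcases pg ha with hp | hp
  · rw [em_pp ha hp]; rfl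
  · rw [em_gg ha hp]; exact Bool.true_and _

theorem star_real_ex (h : Gd S) {x : DS S} (hx : (star h).real x = true) :
    ∃ (a : D) (ha : S.real a = true), x = em a ha := by
  rcases x with a | ⟨a, i⟩
  · exact ⟨a.1, (pp_iff.1 a.2).1, by rw [em_pp _ a.2]⟩
  · refine ⟨a.1, (gg_iff.1 a.2).1, ?_⟩
    rw [em_gg _ a.2]
    have : i = 0 := by simpa [star] using hx
    rw [this]

theorem starL_ex {L : D → Bool} {x : DS S} (hx : starL S L x = true) :
    ∃ (a : D) (ha : S.real a = true), x = em a ha := by
  rcases x with a | ⟨a, i⟩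
  · exact ⟨a.1, (pp_iff.1 a.2).1, by rw [em_pp _ a.2]⟩
  · refine ⟨a.1, (gg_iff.1 a.2).1, ?_⟩
    rw [em_gg _ a.2]
    have : (decide (i = 0) && L a.1) = true := hx
    simp only [Bool.and_eq_true, decide_eq_true_eq] at this
    rw [this.1]

theorem star_α_em (h : Gd S) {a : D} (ha : S.real a = true) :
    (star h).M.α (em a ha) = em (S.M.α a) (by rw [h.real_α, ha]) := sα_em h ha

theorem star_v_em (h : Gd S) {a : D} (ha : S.real a = true) :
    (star h).M.v (em a ha) = Sum.inl (S.M.v a) := sv_em ha

theorem star_v_αem (h : Gd S) {a : D} (ha : S.real a = true) :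
    (star h).M.v ((star h).M.α (em a ha)) = Sum.inl (S.M.v (S.M.α a)) := by
  rw [star_α_em h ha, star_v_em]

theorem star_real_α (h : Gd S) (x : DS S) :
    (star h).real ((star h).M.α x) = (star h).real x := by
  rcases x with a | ⟨a, i⟩
  · have ra : S.real (S.M.α a.1) = true := by rw [h.real_α]; exact (pp_iff.1 a.2).1
    show (star h).real (em (S.M.α a.1) ra) = true
    exact star_real_em h ra
  · fin_cases i
    · have ra : S.real (S.M.α a.1) = true := by rw [h.real_α]; exact (gg_iff.1 a.2).1
      show (star h).real (em (S.M.α a.1) ra) = true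
      exact star_real_em h ra
    · rfl
    · rfl

/-- degrees of the star form -/
theorem star_deg (h : Gd S) {L : D → Bool} (hL : ∀ d, L d = true → S.real d = true) (k : ℕ)
    (y : V) : ∑ x, (if sv x = (Sum.inl y : VS S) then (if (star h).real x = true then 1 else 0) +
      (star h).u x + k * (if starL S L x = true then 1 else 0) else 0) ≤
      ∑ d, (if S.M.v d = y then (if S.real d = true then 1 else 0) + S.u d +
        k * (if L d = true then 1 else 0) else 0) := by
  classical
  have key := sum_DS (S := S) (fun x => if sv x = Sum.inl y then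
    (if (star h).real x = true then 1 else 0) + (star h).u x +
      k * (if starL S L x = true then 1 else 0) else 0)
    (fun a => if S.M.v a = y then 1 + S.U a + k * (if L a = true then 1 else 0) else 0)
    (fun a ha => by
      show (if sv (em a ha) = Sum.inl y then
        (if (star h).real (em a ha) = true then 1 else 0) + (star h).u (em a ha) +
          k * (if starL S L (em a ha) = true then 1 else 0) else 0) = _
      rw [sv_em, star_real_em, star_u_em, starL_em ha]
      simp) (fun a => by
      show (if sv (Sum.inr (a, 1)) = (Sum.inl y : VS S) then 0 + 0 +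
        k * (if (false && L a.1) = true then 1 else 0) else 0) = 0
      simp) (fun a => by
      show (if sv (Sum.inr (a, 2)) = (Sum.inl y : VS S) then 0 + 0 +
        k * (if (false && L a.1) = true then 1 else 0) else 0) = 0
      simp)
  rw [key]
  have e1 : ∑ d, (if S.real d = true then (if S.M.v d = y then 1 + S.U d +
      k * (if L d = true then 1 else 0) else 0) else 0) =
      ∑ d, (if S.real d = true then (if S.M.v d = y then 1 + k * (if L d = true then 1 else 0)
        else 0) else 0) +
      ∑ d, (if S.real d = true then (if S.M.v d = y then S.U d else 0) else 0) := by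
    rw [← Finset.sum_add_distrib]
    refine Finset.sum_congr rfl fun d _ => ?_
    split_ifs <;> omega
  rw [e1, sum_U h (fun d => S.M.v d = y), ← Finset.sum_add_distrib]
  refine Finset.sum_le_sum fun d _ => ?_
  rw [v_fr]
  by_cases h1 : S.M.v d = y
  · simp only [h1, if_true, and_true]
    by_cases h2 : S.real d = true
    · by_cases h3 : y ∈ S.A
      · simp [h2, h3]; omega
      · simp [h2, h3]
    · have h3 : L d ≠ true := fun h4 => h2 (hL d h4)
      by_cases h5 : y ∈ S.A
      · simp [h2, h5, h3]
      · simp [h2, h5]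
  · simp [h1]

theorem star_real_A (h : Gd S) {x : DS S} (hx : (star h).real x = true) :
    (star h).M.v x ∈ (star h).A := by
  obtain ⟨a, ha, rfl⟩ := star_real_ex h hx
  rw [star_v_em]
  exact Finset.mem_map_of_mem ⟨Sum.inl, Sum.inl_injective⟩ (h.real_A a ha)

theorem star_real_ne (h : Gd S) {x : DS S} (hx : (star h).real x = true) :
    (star h).M.v x ≠ (star h).M.v ((star h).M.α x) := by
  obtain ⟨a, ha, rfl⟩ := star_real_ex h hx
  rw [star_v_em, star_v_αem]
  intro h1
  exact h.real_ne a ha (Sum.inl_injective h1)

theorem star_full' (h : Gd S) {x : VS S} (hx : x ∈ (star h).A) :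
    ∃ y, (star h).M.v y = x ∧ (star h).real y = true := by
  obtain ⟨y, hy, rfl⟩ := Finset.mem_map.1 hx
  obtain ⟨d, rfl⟩ := h.A_im y hy
  obtain ⟨e, he1, he2⟩ := h.full d hy
  exact ⟨em e he2, by rw [star_v_em, he1]; rfl, star_real_em h he2⟩

theorem star_ur (h : Gd S) {x : DS S} (hx : (star h).u x ≠ 0) : (star h).real x = true := by
  rcases x with a | ⟨a, i⟩
  · rfl
  · have hi : i = 0 := by
      by_contra hi
      apply hx
      show (if i = 0 then S.U a.1 else 0) = 0
      rw [if_neg hi]
    subst hi
    rfl

theorem star_rc (h : Gd S) (s : VS S → Bool) :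
    (star h).rc s = S.rc (fun x => s (Sum.inl x)) := by
  classical
  unfold rc
  have key := sum_DS (S := S) (fun x => if (star h).real x = true ∧ s (sv x) = true ∧
      s (sv (sα' h x)) = false then 1 else 0)
    (fun a => if s (Sum.inl (S.M.v a)) = true ∧ s (Sum.inl (S.M.v (S.M.α a))) = false then 1 else 0)
    (fun a ha => by
      rw [star_real_em, sα_em h ha, sv_em, sv_em]
      simp) (fun a => by
      show (if false = true ∧ _ then 1 else 0) = 0
      simp) (fun a => by
      show (if false = true ∧ _ then 1 else 0) = 0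
      simp)
  refine key.trans (Finset.sum_congr rfl fun d _ => ?_)
  by_cases hd : S.real d = true
  · simp only [hd, if_true, true_and]
  · simp [hd]

/-- class functions of the star form come from class functions -/
theorem star_cl (h : Gd S) {t : DS S → Bool} (ht : (star h).Cl t) :
    ∃ t' : D → Bool, S.Cl t' ∧ ∀ a (ha : S.real a = true), t' a = t (em a ha) := by
  classical
  let b : D → ℝ := fun a => if ha : S.real a = true then (if t (em a ha) = true then 1 else 0) else 0
  have hb : ∀ a (ha : S.real a = true), b a = if t (em a ha) = true then 1 else 0 := fun a ha => by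
    simp only [b, dif_pos ha]
  have tφ : ∀ x, t (sφ' h x) = t x := ht.1
  have tB : ∀ a (ha : S.real a = true), t (em (S.B a) (h.real_B ha)) = t (em a ha) := by
    intro a ha
    rcases pg ha with hp | hg
    · rw [em_pp ha hp, em_pp _ (h.pp_B hp)]
      exact tφ (Sum.inl ⟨a, hp⟩)
    · have hgB : gg S (S.B a) = true := h.gg_B hg
      rw [em_gg _ hgB, em_gg ha hg]
      have e1 : t (Sum.inr (⟨a, hg⟩, 1)) = t (Sum.inr (⟨a, hg⟩, 0)) := tφ (Sum.inr (⟨a, hg⟩, 0))
      have e2 : t (Sum.inr (⟨S.B a, hgB⟩, 2)) = t (Sum.inr (⟨a, hg⟩, 1)) :=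
        ht.2 (Sum.inr (⟨a, hg⟩, 1)) rfl
      have e3 : t (Sum.inr (⟨S.B a, hgB⟩, 0)) = t (Sum.inr (⟨S.B a, hgB⟩, 2)) :=
        tφ (Sum.inr (⟨S.B a, hgB⟩, 2))
      rw [e3, e2, e1]
  obtain ⟨H, hC, hH⟩ := h.bcon b (fun a ha => by rw [hb a ha, hb _ (h.real_B ha), tB a ha])
  refine ⟨fun d => decide (H d = 1), ⟨fun d => by simp only [hC.1],
    fun d hd => by simp only [hC.2 d hd]⟩, ?_⟩
  intro a ha
  simp only [hH a ha, hb a ha]
  cases t (em a ha) <;> simp

/-- class functions give class functions of the star form -/
theorem cl_star (h : Gd S) {X : Type} {t : D → X} (ht : S.Cl t) :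
    (star h).Cl (fun x => match x with
      | Sum.inl a => t a.1
      | Sum.inr (a, _) => t a.1) := by
  refine ⟨fun x => ?_, fun x hx => ?_⟩
  · rcases x with a | ⟨a, i⟩
    · exact h.cl_B ht (pp_iff.1 a.2).1
    · rfl
  · rcases x with a | ⟨a, i⟩
    · exact absurd (show (true : Bool) = false from hx) (by decide)
    · have fBe : ∀ a, t (Be h a).1 = t a.1 := fun a => h.cl_B ht (gg_iff.1 a.2).1
      fin_cases i
      · exact absurd (show decide ((0 : Fin 3) = 0) = false from hx) (by decide)
      · exact fBe a
      · show t ((Be h).symm a).1 = t a.1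
        rw [← fBe, Equiv.apply_symm_apply]

theorem star_sc (h : Gd S) {a b : D} (ha : S.real a = true) (hb : S.real b = true) :
    (star h).sc.r (em a ha) (em b hb) ↔ S.sc.r a b := by
  constructor
  · intro h1 t ht
    have := h1 _ (cl_star h ht)
    rcases pg ha with hp | hp <;> rcases pg hb with hq | hq <;>
      simpa [em_pp, em_gg, hp, hq] using this
  · intro h1 t ht
    obtain ⟨t', ht1, ht2⟩ := star_cl h ht
    rw [← ht2, ← ht2]
    exact h1 t' ht1

/-- sums of the units over a set of faces -/
theorem star_sum_u (h : Gd S) (uA : ∀ d, S.u d ≠ 0 → S.M.v d ∈ S.A) {t : DS S → Bool}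
    {t' : D → Bool} (hC' : S.Cl t') (ht' : ∀ a (ha : S.real a = true), t' a = t (em a ha)) :
    ∑ x, (if t x = true then (star h).u x else 0) = ∑ e, if t' e = true then S.u e else 0 := by
  classical
  have key := sum_DS (S := S) (fun x => if t x = true then (star h).u x else 0)
    (fun a => if t' a = true then S.U a else 0) (fun a ha => by
      beta_reduce
      rw [star_u_em, ht' a ha]) (fun a => by
      show (if _ then (if (1 : Fin 3) = 0 then S.U a.1 else 0) else 0) = 0
      simp) (fun a => by
      show (if _ then (if (2 : Fin 3) = 0 then S.U a.1 else 0) else 0) = 0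
      simp)
  rw [key, sum_U h (fun d => t' d = true)]
  refine Finset.sum_congr rfl fun e _ => ?_
  by_cases h1 : S.M.v e ∈ S.A
  · rw [cl_fr h.full hC' h1]
    simp [h1]
  · have : S.u e = 0 := by
      by_contra h2
      exact h1 (uA e h2)
    simp [this]

/-- numbers of real darts over a set of faces -/
theorem star_sum_real (h : Gd S) {t : DS S → Bool}
    {t' : D → Bool} (ht' : ∀ a (ha : S.real a = true), t' a = t (em a ha)) :
    ∑ x, (if t x = true ∧ (star h).real x = true then 1 else 0) =
      ∑ d, if t' d = true ∧ S.real d = true then 1 else 0 := by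
  classical
  have key := sum_DS (S := S) (fun x => if t x = true ∧ (star h).real x = true then 1 else 0)
    (fun a => if t' a = true then 1 else 0) (fun a ha => by
      beta_reduce
      rw [star_real_em, ht' a ha]; simp) (fun a => by
      show (if _ ∧ false = true then 1 else 0) = 0
      simp) (fun a => by
      show (if _ ∧ false = true then 1 else 0) = 0
      simp)
  rw [key]
  refine Finset.sum_congr rfl fun d _ => ?_
  by_cases hd : S.real d = true
  · simp [hd]
  · simp [hd]

theorem star_sum_all_u (h : Gd S) (uA : ∀ d, S.u d ≠ 0 → S.M.v d ∈ S.A) :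
    ∑ x, (star h).u x = ∑ d, S.u d := by
  have := star_sum_u h uA (t := fun _ => true) (t' := fun _ => true) ⟨fun _ => rfl, fun _ _ => rfl⟩
    (fun _ _ => rfl)
  simpa using this

theorem star_sum_L (h : Gd S) {L : D → Bool} (hL : ∀ d, L d = true → S.real d = true) :
    ∑ x, (if starL S L x = true then 1 else 0) = ∑ d, if L d = true then 1 else 0 := by
  classical
  have key := sum_DS (S := S) (fun x => if starL S L x = true then 1 else 0)
    (fun a => if L a = true then 1 else 0) (fun a ha => by
      beta_reduce
      rw [starL_em ha]) (fun a => by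
      show (if (false && L a.1) = true then 1 else 0) = 0
      simp) (fun a => by
      show (if (false && L a.1) = true then 1 else 0) = 0
      simp)
  rw [key]
  refine Finset.sum_congr rfl fun d _ => ?_
  by_cases hd : S.real d = true
  · simp [hd]
  · have : L d ≠ true := fun h4 => hd (hL d h4)
    simp [hd, this]

theorem star_csz (h : Gd S) {a : D} (ha : S.real a = true) :
    (star h).csz (em a ha) = S.csz a := by
  classical
  unfold csz
  have key := sum_DS (S := S) (fun x => if (star h).real x = true ∧
      (star h).sc.r (em a ha) x then 1 else 0)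
    (fun b => if S.sc.r a b then 1 else 0) (fun b hb => by
      beta_reduce
      rw [star_real_em, star_sc h ha hb]
      simp) (fun b => by
      show (if false = true ∧ _ then 1 else 0) = 0
      simp) (fun b => by
      show (if false = true ∧ _ then 1 else 0) = 0
      simp)
  rw [key]
  refine Finset.sum_congr rfl fun b _ => ?_
  by_cases hb : S.real b = true
  · simp [hb]
  · simp [hb]

section sol

variable {L : D → Bool} {c : VS S → Bool}

theorem star_br (h : Gd S) {a : D} (ha : S.real a = true) :
    Br (star h) c (em a ha) ↔ Br S (fun x => c (Sum.inl x)) a := by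
  unfold Br
  rw [star_v_em, star_v_αem, star_real_em, ha]

theorem star_br_ex (h : Gd S) {x : DS S} (hx : Br (star h) c x) :
    ∃ (a : D) (ha : S.real a = true), x = em a ha ∧ Br S (fun x => c (Sum.inl x)) a := by
  obtain ⟨a, ha, rfl⟩ := star_real_ex h hx.1
  exact ⟨a, ha, rfl, (star_br h ha).1 hx⟩

/-- the function of the star form given by a function on the darts -/
def gS (f : D → ℝ) (x : DS S) : ℝ := match x with
  | Sum.inl a => f a.1
  | Sum.inr (a, _) => f a.1

theorem gS_em {f : D → ℝ} {a : D} (ha : S.real a = true) : gS f (em a ha) = f a := by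
  rcases pg ha with hp | hp
  · rw [em_pp ha hp]; rfl
  · rw [em_gg ha hp]; rfl

theorem gS_test (h : Gd S) {f : D → ℝ} (hf : S.Test (fun x => c (Sum.inl x)) f) :
    (star h).Test c (gS f) := by
  have hC : S.Cl f := ⟨hf.1, fun d hd => hf.2 d (Or.inl hd)⟩
  have hC' := cl_star h hC
  refine ⟨hC'.1, fun x hx => ?_⟩
  by_cases hr : (star h).real x = true
  · obtain ⟨a, ha, rfl⟩ := star_real_ex h hr
    rw [star_α_em h ha, gS_em, gS_em]
    refine hf.2 a (Or.inr ?_)
    rcases hx with hx | hx
    · rw [hr] at hx; exact absurd hx (by simp)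
    · rw [star_v_em, star_v_αem] at hx; exact hx
  · exact hC'.2 x (by simpa using hr)

theorem star_vi (h : Gd S) {a : D} {x : DS S} (hx : ∀ f : D → ℝ, S.Cl f → gS f x = f a)
    (hv : Vi (star h) c x) : Vi S (fun x => c (Sum.inl x)) a := by
  obtain ⟨e, he, h2⟩ := hv
  obtain ⟨b, hb, rfl, hbr⟩ := star_br_ex h he
  refine ⟨b, hbr, fun f hf => ?_⟩
  have h3 := h2 _ (gS_test h hf)
  rw [gS_em, hx f ⟨hf.1, fun d hd => hf.2 d (Or.inl hd)⟩] at h3
  exact h3

theorem star_vi_em (h : Gd S) {a : D} (ha : S.real a = true) (hv : Vi (star h) c (em a ha)) :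
    Vi S (fun x => c (Sum.inl x)) a := star_vi h (fun _ _ => gS_em ha) hv

theorem vi_cl {c : V → Bool} {a b : D} (h : S.sc.r a b) (hv : Vi S c a) : Vi S c b :=
  hv.eq fun _ ht => cl_sc ⟨ht.1, fun d hd => ht.2 d (Or.inl hd)⟩ h

/-- a solution of the star form is a solution -/
theorem star_sol (h : Gd S) (uA : ∀ d, S.u d ≠ 0 → S.M.v d ∈ S.A)
    (hL : ∀ d, L d = true → S.real d = true) (hs : Sol (star h) (starL S L) c) :
    Sol S L (fun x => c (Sum.inl x)) := by
  classical
  refine ⟨fun f hf d d' hd hd' => ?_, fun x hx => ?_, fun d hd => ?_, fun d hd => ?_⟩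
  · have := hs.con _ (gS_test h hf) (em d hd.1) (em d' hd'.1) ((star_br h hd.1).2 hd)
      ((star_br h hd'.1).2 hd')
    rwa [gS_em, gS_em] at this
  · obtain ⟨y, hy, hv⟩ := hs.live (Sum.inl x)
      (Finset.mem_map_of_mem ⟨Sum.inl, Sum.inl_injective⟩ hx)
    have hy' : sv y = Sum.inl x := hy
    rcases y with a | ⟨a, i⟩
    · exact ⟨a.1, Sum.inl_injective hy', star_vi h (fun f _ => rfl) hv⟩
    · fin_cases i
      · exact ⟨a.1, Sum.inl_injective hy', star_vi h (fun f _ => rfl) hv⟩
      · refine ⟨S.B a.1, ?_, star_vi h (fun f hf => ?_) hv⟩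
        · rw [v_B]; exact Sum.inl_injective hy'
        · exact (h.cl_B hf (gg_iff.1 a.2).1).symm
      · exact absurd hy' (by simp [sv])
  · have hA := uA d hd
    have hr := real_fr h.full hA
    have hU : S.U (S.fr d) ≠ 0 := by
      unfold U
      intro h0
      have := (Finset.sum_eq_zero_iff.1 h0) d (Finset.mem_univ _)
      rw [if_pos ⟨hA, rfl⟩] at this
      exact hd this
    have hv := hs.req (em (S.fr d) hr) (by rw [star_u_em]; exact hU)
    exact vi_cl (S.sc.iseqv.symm (h.fr_sc hA)) (star_vi_em h hr hv)
  · have hr := hL d hd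
    rcases hs.lab (em d hr) (by rw [starL_em hr]; exact hd) with hv | hv
    · exact Or.inl (star_vi_em h hr hv)
    · right
      rw [star_α_em h hr] at hv
      exact star_vi_em h _ hv

end sol

/-- the properties of the star form -/
structure IsStar (S : St D V) : Prop where
  two : ∀ d, S.real d = true → S.real (S.M.φ d) = true → S.real (S.M.φ (S.M.φ d)) = true
  one : ∀ d, S.real d = true ∨ S.real (S.M.φ d) = true ∨ S.real (S.M.φ (S.M.φ d)) = true
  dead : ∀ d, S.real d = true → S.real (S.M.φ d) = false → S.M.v (S.M.φ (S.M.φ d)) ∉ S.A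
  ur : ∀ d, S.u d ≠ 0 → S.real d = true
  pl3 : ∀ d, S.real d = true → (S.real (S.M.φ d) = true ↔ S.csz d = 3)

theorem star_isStar (h : Gd S) : IsStar (star h) := by
  classical
  refine { two := fun x h1 h2 => ?_, one := fun x => ?_, dead := fun x h1 h2 => ?_,
           ur := fun x h1 => star_ur h h1, pl3 := fun x h1 => ⟨fun h2 => ?_, fun h2 => ?_⟩ }
  · rcases x with a | ⟨a, i⟩
    · rfl
    · exfalso
      fin_cases i
      · exact absurd (show decide ((1 : Fin 3) = 0) = true from h2) (by decide)
      · exact absurd (show decide ((1 : Fin 3) = 0) = true from h1) (by decide)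
      · exact absurd (show decide ((2 : Fin 3) = 0) = true from h1) (by decide)
  · rcases x with a | ⟨a, i⟩
    · exact Or.inl rfl
    · fin_cases i
      · exact Or.inl rfl
      · exact Or.inr (Or.inr rfl)
      · exact Or.inr (Or.inl rfl)
  · rcases x with a | ⟨a, i⟩
    · exact absurd (show (true : Bool) = false from h2) (by decide)
    · fin_cases i
      · show (Sum.inr (Quotient.mk S.sc a.1) : VS S) ∉ S.A.map ⟨Sum.inl, Sum.inl_injective⟩
        intro h3
        obtain ⟨y, _, hy⟩ := Finset.mem_map.1 h3
        exact absurd hy (by simp)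
      · exact absurd (show decide ((1 : Fin 3) = 0) = true from h1) (by decide)
      · exact absurd (show decide ((2 : Fin 3) = 0) = true from h1) (by decide)
  · rcases x with a | ⟨a, i⟩
    · have ha := (pp_iff.1 a.2).1
      rw [← em_pp ha a.2, star_csz h ha]
      exact plf_iff.1 (pp_iff.1 a.2).2
    · exfalso
      fin_cases i
      · exact absurd (show decide ((1 : Fin 3) = 0) = true from h2) (by decide)
      · exact absurd (show decide ((1 : Fin 3) = 0) = true from h1) (by decide)
      · exact absurd (show decide ((2 : Fin 3) = 0) = true from h1) (by decide)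
  · obtain ⟨a, ha, rfl⟩ := star_real_ex h h1
    rcases pg ha with hp | hp
    · rw [em_pp ha hp]; rfl
    · exfalso
      rw [star_csz h ha] at h2
      have h4 := (gg_iff.1 hp).2
      have h5 : plf S a = true := plf_iff.2 h2
      rw [h4] at h5; exact absurd h5 (by simp)

end Pool.FC7
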