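import Pool.Agent.FC7.CvA
import Pool.Agent.FC7.StarS
import Pool.Agent.FC7.Mcs

/-! # Conversion of long required faces into small vertices, part 1

`S` is in star form, `C` is a set of hubs (dead centres) whose faces carry exactly three units at
three distinct corners.  `conv S C` has the hubs in `C` as alive vertices, joined to the three unit
corners; the units are dropped. -/

open Finset

namespace Pool.FC7

open Pool.FC6 Pool.FC6.St

variable {D V : Type} [Fintype D] [DecidableEq V] {S : St D V} {L : D → Bool} {w : D → ℕ} {Δ : ℕ}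

/-- the cell of `d` contains the vertex `c` -/
def InC (S : St D V) (c : V) (d : D) : Prop :=
  S.M.v d = c ∨ S.M.v (S.M.φ d) = c ∨ S.M.v (S.M.φ (S.M.φ d)) = c

theorem inC_φ {c : V} {d : D} : InC S c (S.M.φ d) ↔ InC S c d := by
  unfold InC
  rw [S.M.φ3]
  constructor
  · rintro (h | h | h)
    · exact Or.inr (Or.inl h)
    · exact Or.inr (Or.inr h)
    · exact Or.inl h
  · rintro (h | h | h)
    · exact Or.inr (Or.inr h)
    · exact Or.inl h
    · exact Or.inr (Or.inl h)

/-- the two kinds of virtual darts of a star form -/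
theorem IsStar.virt (hS : IsStar S) (W : Wf Δ S L w) {d : D} (hd : S.real d = false) :
    (S.real (S.M.φ d) = true ∧ S.real (S.M.φ (S.M.φ d)) = false ∧ S.M.v d ∉ S.A ∧
      S.M.v (S.M.α d) ∈ S.A) ∨
    (S.real (S.M.φ (S.M.φ d)) = true ∧ S.real (S.M.φ d) = false ∧ S.M.v (S.M.α d) ∉ S.A ∧
      S.M.v d ∈ S.A) := by
  rcases hS.one d with h | h | h
  · rw [h] at hd; exact absurd hd (by simp)
  · left
    have h2 : S.real (S.M.φ (S.M.φ d)) = false := by
      by_contra h3
      have := hS.two _ h (by simpa using h3)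
      rw [S.M.φ3, hd] at this
      exact absurd this (by simp)
    have h3 := hS.dead _ h h2
    rw [S.M.φ3] at h3
    refine ⟨h, h2, h3, ?_⟩
    rw [← S.M.vφ]
    exact W.real_A _ h
  · right
    have h2 : S.real (S.M.φ d) = false := by
      by_contra h3
      have := hS.two (S.M.φ (S.M.φ d)) h
      rw [S.M.φ3] at this
      by_cases h4 : S.real d = true
      · rw [h4] at hd; exact absurd hd (by simp)
      · have h5 := hS.two (S.M.φ d) (by simpa using h3) h
        rw [S.M.φ3, hd] at h5
        exact absurd h5 (by simp)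
    have h3 := hS.dead _ h (by rw [S.M.φ3]; exact hd)
    rw [S.M.φ3] at h3
    refine ⟨h, h2, ?_, ?_⟩
    · rw [← S.M.vφ]; exact h3
    · have h4 := W.real_A (S.M.α (S.M.φ (S.M.φ d))) (by rw [W.real_α, h])
      rwa [S.M.vφ2] at h4

theorem inC_real (hS : IsStar S) (W : Wf Δ S L w) {c : V} (hc : c ∉ S.A) {d : D}
    (hd : S.real d = true) : InC S c d ↔ S.M.v (S.M.φ (S.M.φ d)) = c := by
  have h1 := W.real_A _ hd
  have h2 : S.M.v (S.M.φ d) ∈ S.A := by
    rw [S.M.vφ]
    exact W.real_A _ (by rw [W.real_α, hd])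
  constructor
  · rintro (h | h | h)
    · exact absurd (h ▸ h1) hc
    · exact absurd (h ▸ h2) hc
    · exact h
  · intro h
    exact Or.inr (Or.inr h)

theorem inC_virt (hS : IsStar S) (W : Wf Δ S L w) {c : V} (hc : c ∉ S.A) {d : D}
    (hd : S.real d = false) : InC S c d ↔ (S.M.v d = c ∨ S.M.v (S.M.α d) = c) := by
  rcases hS.virt W hd with ⟨h1, h2, h3, h4⟩ | ⟨h1, h2, h3, h4⟩
  · have h5 : S.M.v (S.M.φ (S.M.φ d)) ∈ S.A := by
      rw [S.M.vφ]
      exact W.real_A _ (by rw [W.real_α, h1])
    constructor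
    · rintro (h | h | h)
      · exact Or.inl h
      · rw [S.M.vφ] at h; exact Or.inr h
      · exact absurd (h ▸ h5) hc
    · rintro (h | h)
      · exact Or.inl h
      · exact Or.inr (Or.inl (by rw [S.M.vφ]; exact h))
  · have h5 : S.M.v (S.M.φ (S.M.φ d)) ∈ S.A := W.real_A _ h1
    constructor
    · rintro (h | h | h)
      · exact Or.inl h
      · rw [S.M.vφ] at h; exact Or.inr h
      · exact absurd (h ▸ h5) hc
    · rintro (h | h)
      · exact Or.inl h
      · exact Or.inr (Or.inl (by rw [S.M.vφ]; exact h))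

theorem inC_α (hS : IsStar S) (W : Wf Δ S L w) {c : V} (hc : c ∉ S.A) {d : D}
    (hd : S.real d = false) : InC S c (S.M.α d) ↔ InC S c d := by
  rw [inC_virt hS W hc hd, inC_virt hS W hc (d := S.M.α d) (by rw [W.real_α, hd]), S.M.αα, or_comm]

theorem inC_cl (hS : IsStar S) (W : Wf Δ S L w) {c : V} (hc : c ∉ S.A) :
    S.Cl (fun d => InC S c d) :=
  ⟨fun _ => propext inC_φ, fun _ hd => propext (inC_α hS W hc hd)⟩

/-- a dart at a hub is virtual -/
theorem hub_virt (hS : IsStar S) (W : Wf Δ S L w) {c : V} (hc : c ∉ S.A) {d : D}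
    (hd : S.M.v d = c) : S.real d = false ∧ S.real (S.M.φ d) = true ∧
      S.real (S.M.φ (S.M.φ d)) = false ∧ S.M.v (S.M.α d) ∈ S.A := by
  have h1 : S.real d = false := by
    by_contra h
    have := W.real_A d (by simpa using h)
    rw [hd] at this
    exact hc this
  rcases hS.virt W h1 with ⟨h2, h3, h4, h5⟩ | ⟨h2, h3, h4, h5⟩
  · exact ⟨h1, h2, h3, h5⟩
  · rw [hd] at h5; exact absurd h5 hc

theorem hub_sc (hS : IsStar S) (W : Wf Δ S L w) {c : V} (hc : c ∉ S.A) {d e : D}
    (hd : S.M.v d = c) (he : S.M.v e = c) : S.sc.r d e := by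
  classical
  intro t ht
  have h1 := S.M.rot' (fun x => if S.M.v x = c then t x else false) (fun x => by
    beta_reduce
    rw [S.M.vφ2]
    by_cases hx : S.M.v x = c
    · rw [if_pos hx, if_pos hx, ht.2 _ (hub_virt hS W hc hx).2.2.1, ht.1, ht.1]
    · rw [if_neg hx, if_neg hx]) (hd.trans he.symm)
  rwa [if_pos hd, if_pos he] at h1

theorem inC_sc (hS : IsStar S) (W : Wf Δ S L w) {c : V} (hc : c ∉ S.A) {d e : D}
    (hd : InC S c d) (he : InC S c e) : S.sc.r d e := by
  have key : ∀ x : D, InC S c x → ∃ y, S.M.v y = c ∧ S.sc.r x y := by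
    rintro x (h | h | h)
    · exact ⟨x, h, S.sc.iseqv.refl _⟩
    · exact ⟨_, h, (scφ x x).2 (S.sc.iseqv.refl _)⟩
    · exact ⟨_, h, (scφ x _).2 ((scφ x x).2 (S.sc.iseqv.refl _))⟩
  obtain ⟨y, h1, h2⟩ := key d hd
  obtain ⟨z, h3, h4⟩ := key e he
  exact S.sc.iseqv.trans h2 (S.sc.iseqv.trans (hub_sc hS W hc h1 h3) (S.sc.iseqv.symm h4))

theorem sc_inC (hS : IsStar S) (W : Wf Δ S L w) {c : V} (hc : c ∉ S.A) {d e : D}
    (h : S.sc.r d e) : InC S c d ↔ InC S c e :=
  iff_of_eq (cl_sc (inC_cl hS W hc) h)

/-- the face of the hub `c` has exactly three units at three distinct corners -/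
structure Hub3 (S : St D V) (c : V) : Prop where
  dead : c ∉ S.A
  one : ∀ d, S.M.v d = c → S.u (S.M.φ d) ≤ 1
  three : ∑ d, (if S.M.v d = c then S.u (S.M.φ d) else 0) = 3
  inj : ∀ d e, S.M.v d = c → S.M.v e = c → S.u (S.M.φ d) ≠ 0 → S.u (S.M.φ e) ≠ 0 →
    S.M.v (S.M.α d) = S.M.v (S.M.α e) → d = e

theorem Hub3.ex {c : V} (h : Hub3 S c) : ∃ d, S.M.v d = c ∧ S.u (S.M.φ d) ≠ 0 := by
  by_contra hn
  push Not at hn
  have := h.three
  rw [Finset.sum_eq_zero (fun d _ => by
    by_cases h1 : S.M.v d = c
    · rw [if_pos h1, hn d h1]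
    · rw [if_neg h1])] at this
  omega

/-- `d` is a spoke from a hub in `C` to a unit corner -/
def spk (S : St D V) (C : Finset V) (d : D) : Bool :=
  decide (S.M.v d ∈ C) && decide (S.u (S.M.φ d) ≠ 0)

theorem spk_iff {C : Finset V} {d : D} : spk S C d = true ↔ S.M.v d ∈ C ∧ S.u (S.M.φ d) ≠ 0 := by
  unfold spk; simp

/-- the converted state -/
def conv (S : St D V) (C : Finset V) : St D V where
  M := S.M
  A := S.A ∪ C
  real d := S.real d || spk S C d || spk S C (S.M.α d)
  u d := if S.M.v (S.M.φ (S.M.φ d)) ∈ C then 0 else S.u d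

variable {C : Finset V}

theorem conv_real {d : D} : (conv S C).real d = true ↔ S.real d = true ∨
    (S.M.v d ∈ C ∧ S.u (S.M.φ d) ≠ 0) ∨ (S.M.v (S.M.α d) ∈ C ∧ S.u (S.M.φ (S.M.α d)) ≠ 0) := by
  show (S.real d || spk S C d || spk S C (S.M.α d)) = true ↔ _
  rw [Bool.or_eq_true, Bool.or_eq_true, spk_iff, spk_iff, or_assoc]

theorem conv_real_f {d : D} (h : (conv S C).real d = false) : S.real d = false := by
  by_contra h1
  have := conv_real (C := C).2 (Or.inl (by simpa using h1 : S.real d = true))
  rw [h] at this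
  exact absurd this (by simp)

theorem conv_u {d : D} : (conv S C).u d = if S.M.v (S.M.φ (S.M.φ d)) ∈ C then 0 else S.u d := rfl

theorem sum_σ_nat (M : TMap D V) (F : D → ℕ) : ∑ d, F (M.φ (M.α d)) = ∑ d, F d := by
  rw [sum_α_nat M (fun d => F (M.φ d))]
  have h : ∀ G : D → ℝ, ∑ d, G (M.φ d) = ∑ d, G d := M.sum_φ
  have := h (fun d => (F d : ℝ))
  exact_mod_cast this

theorem sum_φ_nat (M : TMap D V) (F : D → ℕ) : ∑ d, F (M.φ d) = ∑ d, F d := by
  have h : ∀ G : D → ℝ, ∑ d, G (M.φ d) = ∑ d, G d := M.sum_φ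
  have := h (fun d => (F d : ℝ))
  exact_mod_cast this

/-- unit darts at hubs of `C` -/
theorem hub_u (hS : IsStar S) (W : Wf Δ S L w) (hC : ∀ c ∈ C, Hub3 S c) {d : D}
    (hd : S.M.v d ∈ C) : S.real d = false ∧ S.u d = 0 ∧ L d = false ∧ w d = 0 ∧
      S.M.v (S.M.α d) ∈ S.A := by
  obtain ⟨h1, h2, h3, h4⟩ := hub_virt hS W (hC _ hd).dead rfl
  have h5 : L d = false := by
    by_contra h
    have := W.L_real d (by simpa using h)
    rw [h1] at this
    exact absurd this (by simp)
  refine ⟨h1, ?_, h5, ?_, h4⟩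
  · by_contra h
    have := hS.ur d h
    rw [h1] at this
    exact absurd this (by simp)
  · by_contra h
    have := W.w_L d h
    rw [h5] at this
    exact absurd this (by simp)

theorem notC (hC : ∀ c ∈ C, Hub3 S c) {x : V} (hx : x ∈ S.A) : x ∉ C := fun h =>
  (hC x h).dead hx

theorem conv_wf (hS : IsStar S) (W : Wf Δ S L w) (hΔ : 3 ≤ Δ) (hC : ∀ c ∈ C, Hub3 S c) :
    Wf Δ (conv S C) L w where
  real_α d := by
    have : ∀ d, (conv S C).real d = true → (conv S C).real (S.M.α d) = true := by
      intro d hd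
      rw [conv_real] at hd ⊢
      rw [W.real_α, S.M.αα]
      rcases hd with h | h | h
      · exact Or.inl h
      · exact Or.inr (Or.inr h)
      · exact Or.inr (Or.inl h)
    have h1 := this d
    have h2 := this (S.M.α d)
    rw [S.M.αα] at h2
    show (conv S C).real (S.M.α d) = (conv S C).real d
    cases e1 : (conv S C).real d
    · by_contra h3
      have h4 : (conv S C).real (S.M.α d) = true := by simpa using h3
      rw [h2 h4] at e1
      exact absurd e1 (by simp)
    · exact h1 e1
  real_A d hd := by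
    rw [conv_real] at hd
    show S.M.v d ∈ S.A ∪ C
    rcases hd with h | h | h
    · exact Finset.mem_union_left _ (W.real_A d h)
    · exact Finset.mem_union_right _ h.1
    · refine Finset.mem_union_left _ ?_
      have := (hub_u hS W hC h.1).2.2.2.2
      rwa [S.M.αα] at this
  real_ne d hd := by
    rw [conv_real] at hd
    show S.M.v d ≠ S.M.v (S.M.α d)
    rcases hd with h | h | h
    · exact W.real_ne d h
    · intro h1
      exact notC hC (hub_u hS W hC h.1).2.2.2.2 (h1 ▸ h.1)
    · intro h1
      have h2 := (hub_u hS W hC h.1).2.2.2.2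
      rw [S.M.αα] at h2
      exact notC hC h2 (by rw [h1]; exact h.1)
  A_im x hx := by
    rcases Finset.mem_union.1 hx with h | h
    · exact W.A_im x h
    · obtain ⟨d, hd, _⟩ := (hC x h).ex
      exact ⟨d, hd⟩
  u_A d hd := by
    have hd' : (if S.M.v (S.M.φ (S.M.φ d)) ∈ C then 0 else S.u d) ≠ 0 := hd
    by_cases h1 : S.M.v (S.M.φ (S.M.φ d)) ∈ C
    · rw [if_pos h1] at hd'; exact absurd rfl hd'
    · rw [if_neg h1] at hd'
      exact Finset.mem_union_left _ (W.u_A d hd')
  L_real d hd := conv_real.2 (Or.inl (W.L_real d hd))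
  L_α := W.L_α
  w_L := W.w_L
  w_α := W.w_α
  deg x hx := by
    rcases Finset.mem_union.1 hx with h | h
    · refine le_trans ?_ (W.deg x h)
      have key : ∑ d, (if S.M.v d = x then
          (if S.M.v (S.M.α d) ∈ C ∧ S.u (S.M.φ (S.M.α d)) ≠ 0 then 1 else 0) else 0) ≤
          ∑ d, (if S.M.v d = x then (if S.M.v (S.M.φ (S.M.φ d)) ∈ C then S.u d else 0) else 0) := by
        rw [← sum_σ_nat S.M (fun d => if S.M.v d = x then
          (if S.M.v (S.M.φ (S.M.φ d)) ∈ C then S.u d else 0) else 0)]
        refine Finset.sum_le_sum fun d _ => ?_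
        rw [S.M.vφ, S.M.αα, S.M.φ3]
        by_cases h1 : S.M.v d = x
        · rw [if_pos h1, if_pos h1]
          by_cases h2 : S.M.v (S.M.α d) ∈ C
          · by_cases h3 : S.u (S.M.φ (S.M.α d)) ≠ 0
            · rw [if_pos ⟨h2, h3⟩, if_pos h2]; omega
            · rw [if_neg (fun hh => h3 hh.2)]; exact Nat.zero_le _
          · rw [if_neg (fun hh => h2 hh.1)]; exact Nat.zero_le _
        · rw [if_neg h1, if_neg h1]
      have e1 : ∑ d, (if (conv S C).M.v d = x then (if (conv S C).real d = true then 1 else 0) +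
          (conv S C).u d + w d else 0) + ∑ d, (if S.M.v d = x then
            (if S.M.v (S.M.φ (S.M.φ d)) ∈ C then S.u d else 0) else 0) =
          ∑ d, (if S.M.v d = x then (if S.real d = true then 1 else 0) + S.u d + w d else 0) +
          ∑ d, (if S.M.v d = x then
          (if S.M.v (S.M.α d) ∈ C ∧ S.u (S.M.φ (S.M.α d)) ≠ 0 then 1 else 0) else 0) := by
        rw [← Finset.sum_add_distrib, ← Finset.sum_add_distrib]
        refine Finset.sum_congr rfl fun d _ => ?_
        show (if S.M.v d = x then (if (conv S C).real d = true then 1 else 0) +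
          (conv S C).u d + w d else 0) + _ = _
        by_cases h1 : S.M.v d = x
        · rw [if_pos h1, if_pos h1, if_pos h1, if_pos h1, conv_u]
          have h2 : S.M.v d ∉ C := by rw [h1]; exact notC hC h
          have h3 : ((conv S C).real d = true ↔ S.real d = true ∨
              (S.M.v (S.M.α d) ∈ C ∧ S.u (S.M.φ (S.M.α d)) ≠ 0)) := by
            rw [conv_real]
            constructor
            · rintro (h | h | h)
              · exact Or.inl h
              · exact absurd h.1 h2
              · exact Or.inr h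
            · rintro (h | h)
              · exact Or.inl h
              · exact Or.inr (Or.inr h)
          by_cases h4 : S.M.v (S.M.α d) ∈ C
          · have h5 : S.real d = false := by
              have := (hub_u hS W hC h4).1
              rwa [W.real_α] at this
            by_cases h6 : S.u (S.M.φ (S.M.α d)) ≠ 0
            · rw [if_pos (h3.2 (Or.inr ⟨h4, h6⟩)), if_pos (show S.M.v (S.M.α d) ∈ C ∧ _ from ⟨h4, h6⟩), h5]
              split_ifs <;> simp_all <;> omega
            · rw [if_neg (fun hh => by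
                rcases h3.1 hh with h7 | h7
                · rw [h5] at h7; exact absurd h7 (by simp)
                · exact h6 h7.2), if_neg (fun hh : S.M.v (S.M.α d) ∈ C ∧ _ => h6 hh.2), h5]
              split_ifs <;> simp_all <;> omega
          · have h5 : ((conv S C).real d = true) = (S.real d = true) := propext
              ⟨fun hh => by
                rcases h3.1 hh with h7 | h7
                · exact h7
                · exact absurd h7.1 h4, fun hh => h3.2 (Or.inl hh)⟩
            simp only [h5]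
            rw [if_neg (fun hh : S.M.v (S.M.α d) ∈ C ∧ _ => h4 hh.1)]
            split_ifs <;> omega
        · rw [if_neg h1, if_neg h1, if_neg h1, if_neg h1]
      have e2 : ∑ d, (if (conv S C).M.v d = x then (if (conv S C).real d = true then 1 else 0) +
          (conv S C).u d + w d else 0) ≤
          ∑ d, (if S.M.v d = x then (if S.real d = true then 1 else 0) + S.u d + w d else 0) := by
        omega
      exact e2
    · refine le_trans ?_ ((hC x h).three.le.trans hΔ)
      refine Finset.sum_le_sum fun d _ => ?_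
      show (if S.M.v d = x then (if (conv S C).real d = true then 1 else 0) +
          (conv S C).u d + w d else 0) ≤ _
      by_cases h1 : S.M.v d = x
      · obtain ⟨k1, k2, k3, k4, k5⟩ := hub_u hS W hC (show S.M.v d ∈ C by rw [h1]; exact h)
        rw [if_pos h1, if_pos h1, conv_u, k2, k4]
        have k6 : S.M.v (S.M.α d) ∉ C := notC hC k5
        by_cases k7 : (conv S C).real d = true
        · have k8 : S.u (S.M.φ d) ≠ 0 := by
            rcases conv_real.1 k7 with k | k | k
            · rw [k1] at k; exact absurd k (by simp)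
            · exact k.2
            · exact absurd k.1 k6
          rw [if_pos k7]
          split_ifs <;> omega
        · rw [if_neg k7]
          split_ifs <;> omega
      · rw [if_neg h1, if_neg h1]
  simple d e hd he h1 h2 := by
    rw [conv_real] at hd he
    have h1 : S.M.v d = S.M.v e := h1
    have h2 : S.M.v (S.M.α d) = S.M.v (S.M.α e) := h2
    have hr : ∀ x : D, S.real x = true → S.M.v x ∉ C ∧ S.M.v (S.M.α x) ∉ C := fun x hx =>
      ⟨notC hC (W.real_A x hx), notC hC (W.real_A _ (by rw [W.real_α, hx]))⟩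
    have hs : ∀ x : D, S.M.v x ∈ C → S.M.v (S.M.α x) ∉ C := fun x hx =>
      notC hC (hub_u hS W hC hx).2.2.2.2
    rcases hd with a | a | a
    · rcases he with b | b | b
      · exact W.simple d e a b h1 h2
      · exact absurd (h1 ▸ b.1) (hr d a).1
      · exact absurd (h2 ▸ b.1) (hr d a).2
    · rcases he with b | b | b
      · exact absurd (h1 ▸ a.1) (hr e b).1
      · exact (hC _ a.1).inj d e rfl h1.symm a.2 b.2 h2
      · exact absurd (h2 ▸ b.1) (hs d a.1)
    · rcases he with b | b | b
      · exact absurd (h2 ▸ a.1) (hr e b).2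
      · exact absurd (h2 ▸ a.1) (hs e b.1)
      · have := (hC _ a.1).inj (S.M.α d) (S.M.α e) rfl h2.symm a.2 b.2 (by
          rw [S.M.αα, S.M.αα]; exact h1)
        exact S.M.αinj this
  ex := by
    obtain ⟨d, hd⟩ := W.ex
    exact ⟨d, conv_real.2 (Or.inl hd)⟩

end Pool.FC7
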