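import Pool.Agent.FC7.CvB

/-! # Conversion of long required faces into small vertices, part 2: the class and the potential -/

open Finset

namespace Pool.FC7

open Pool.FC6 Pool.FC6.St

variable {D V : Type} [Fintype D] [DecidableEq V] {S : St D V} {L : D → Bool} {w : D → ℕ} {Δ : ℕ}
  {C : Finset V}

theorem conv_rc (s : V → Bool) : S.rc s ≤ (conv S C).rc s := by
  unfold rc
  refine Finset.sum_le_sum fun d _ => ?_
  by_cases h : S.real d = true ∧ s (S.M.v d) = true ∧ s (S.M.v (S.M.α d)) = false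
  · rw [if_pos h, if_pos (show (conv S C).real d = true ∧ s ((conv S C).M.v d) = true ∧
      s ((conv S C).M.v ((conv S C).M.α d)) = false from ⟨conv_real.2 (Or.inl h.1), h.2⟩)]
  · rw [if_neg h]; exact Nat.zero_le _

/-- a cut around hubs only -/
theorem conv_rc3 (hS : IsStar S) (W : Wf Δ S L w) (hC : ∀ c ∈ C, Hub3 S c) {s : V → Bool} {c : V}
    (hc : c ∈ C) (h : ∀ x ∈ S.A, s x = !s c) : 3 ≤ (conv S C).rc s := by
  have h3 := (hC c hc).three
  cases hb : s c
  · -- darts from the corners to the hub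
    rw [← h3, ← sum_α_nat S.M (fun d => if S.M.v d = c then S.u (S.M.φ d) else 0)]
    unfold rc
    refine Finset.sum_le_sum fun d _ => ?_
    beta_reduce
    by_cases h1 : S.M.v (S.M.α d) = c
    · rw [if_pos h1]
      by_cases h2 : S.u (S.M.φ (S.M.α d)) = 0
      · rw [h2]; exact Nat.zero_le _
      · have h4 : S.M.v (S.M.α d) ∈ C := by rw [h1]; exact hc
        have h5 := (hub_u hS W hC h4).2.2.2.2
        rw [S.M.αα] at h5
        rw [if_pos (show (conv S C).real d = true ∧ s ((conv S C).M.v d) = true ∧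
          s ((conv S C).M.v ((conv S C).M.α d)) = false from ⟨conv_real.2 (Or.inr (Or.inr ⟨h4, h2⟩)),
            by show s (S.M.v d) = true; rw [h _ h5, hb]; rfl,
            by show s (S.M.v (S.M.α d)) = false; rw [h1, hb]⟩)]
        exact (hC c hc).one _ h1
    · rw [if_neg h1]; exact Nat.zero_le _
  · rw [← h3]
    unfold rc
    refine Finset.sum_le_sum fun d _ => ?_
    by_cases h1 : S.M.v d = c
    · rw [if_pos h1]
      by_cases h2 : S.u (S.M.φ d) = 0
      · rw [h2]; exact Nat.zero_le _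
      · have h4 : S.M.v d ∈ C := by rw [h1]; exact hc
        have h5 := (hub_u hS W hC h4).2.2.2.2
        rw [if_pos (show (conv S C).real d = true ∧ s ((conv S C).M.v d) = true ∧
          s ((conv S C).M.v ((conv S C).M.α d)) = false from ⟨conv_real.2 (Or.inr (Or.inl ⟨h4, h2⟩)),
            by show s (S.M.v d) = true; rw [h1, hb],
            by show s (S.M.v (S.M.α d)) = false; rw [h _ h5, hb]; rfl⟩)]
        exact (hC c hc).one _ h1
    · rw [if_neg h1]; exact Nat.zero_le _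

/-- the dart is in the face of a hub of `C` -/
def OnC (S : St D V) (C : Finset V) (d : D) : Prop := ∃ c ∈ C, InC S c d

theorem onC_cl (hS : IsStar S) (W : Wf Δ S L w) (hC : ∀ c ∈ C, Hub3 S c) :
    S.Cl (fun d => OnC S C d) := by
  refine ⟨fun d => propext ?_, fun d hd => propext ?_⟩
  · exact ⟨fun ⟨c, h1, h2⟩ => ⟨c, h1, inC_φ.1 h2⟩, fun ⟨c, h1, h2⟩ => ⟨c, h1, inC_φ.2 h2⟩⟩
  · exact ⟨fun ⟨c, h1, h2⟩ => ⟨c, h1, (inC_α hS W (hC c h1).dead hd).1 h2⟩,
      fun ⟨c, h1, h2⟩ => ⟨c, h1, (inC_α hS W (hC c h1).dead hd).2 h2⟩⟩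

theorem onC_sc (hS : IsStar S) (W : Wf Δ S L w) (hC : ∀ c ∈ C, Hub3 S c) {d e : D}
    (h : S.sc.r d e) : OnC S C d ↔ OnC S C e := iff_of_eq (cl_sc (onC_cl hS W hC) h)

/-- new real darts are on faces of hubs -/
theorem onC_spoke (hS : IsStar S) (W : Wf Δ S L w) (hC : ∀ c ∈ C, Hub3 S c) {d : D}
    (hd : S.real d = false) (h : (conv S C).real d = true) : OnC S C d := by
  rcases conv_real.1 h with k | k | k
  · rw [hd] at k; exact absurd k (by simp)
  · exact ⟨_, k.1, Or.inl rfl⟩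
  · exact ⟨_, k.1, (inC_virt hS W (hC _ k.1).dead hd).2 (Or.inr rfl)⟩

theorem cl_conv {X : Type} {t : D → X} (ht : S.Cl t) : (conv S C).Cl t :=
  ⟨ht.1, fun d hd => ht.2 d (conv_real_f hd)⟩

theorem conv_sc {d e : D} (h : (conv S C).sc.r d e) : S.sc.r d e := fun t ht => h t (cl_conv ht)

theorem sc_conv (hS : IsStar S) (W : Wf Δ S L w) (hC : ∀ c ∈ C, Hub3 S c) {d e : D}
    (hd : ¬ OnC S C d) (h : S.sc.r d e) : (conv S C).sc.r d e := by
  classical
  intro t ht
  have hcl := onC_cl hS W hC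
  have he : ¬ OnC S C e := fun hh => hd ((onC_sc hS W hC h).2 hh)
  have key : S.Cl (fun x => if OnC S C x then true else t x) := by
    refine ⟨fun x => ?_, fun x hx => ?_⟩
    · have := hcl.1 x
      beta_reduce at this ⊢
      have h2 : t (S.M.φ x) = t x := ht.1 x
      simp only [this, h2]
    · have := hcl.2 x hx
      beta_reduce at this ⊢
      simp only [this]
      by_cases h1 : OnC S C x
      · rw [if_pos h1, if_pos h1]
      · rw [if_neg h1, if_neg h1]
        refine ht.2 x ?_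
        by_contra h2
        exact h1 (onC_spoke hS W hC hx (by simpa using h2))
  have := h _ key
  rwa [if_neg hd, if_neg he] at this

theorem conv_u_on (hS : IsStar S) (W : Wf Δ S L w) (hC : ∀ c ∈ C, Hub3 S c) {d : D}
    (h : OnC S C d) : (conv S C).u d = 0 := by
  obtain ⟨c, hc, h1⟩ := h
  rw [conv_u]
  by_cases h2 : S.u d = 0
  · rw [h2]; exact ite_self _
  · rw [if_pos]
    rw [(inC_real hS W (hC c hc).dead (hS.ur d h2)).1 h1]
    exact hc

theorem conv_u_off {d : D} (h : ¬ OnC S C d) : (conv S C).u d = S.u d := by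
  rw [conv_u, if_neg]
  exact fun hh => h ⟨_, hh, Or.inr (Or.inr rfl)⟩

theorem conv_fu (hS : IsStar S) (W : Wf Δ S L w) (hC : ∀ c ∈ C, Hub3 S c) {d : D}
    (h : ¬ OnC S C d) : fu (conv S C) d = fu S d := by
  classical
  unfold fu
  refine Finset.sum_congr rfl fun e _ => ?_
  by_cases h1 : S.sc.r d e
  · rw [if_pos h1, if_pos (sc_conv hS W hC h h1),
      conv_u_off (fun hh => h ((onC_sc hS W hC h1).2 hh))]
  · rw [if_neg h1, if_neg (fun hh => h1 (conv_sc hh))]

/-- the units of the face of a hub -/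
theorem hub_fu (hS : IsStar S) (W : Wf Δ S L w) {c : V} (hc : Hub3 S c) {d : D}
    (h : InC S c d) : fu S d = 3 := by
  classical
  rw [← hc.three]
  have h2 : ∑ e, (if S.M.v e = c then S.u (S.M.φ e) else 0) =
      ∑ e, if S.M.v (S.M.φ (S.M.φ e)) = c then S.u e else 0 := by
    rw [← sum_φ_nat S.M (fun e => if S.M.v (S.M.φ (S.M.φ e)) = c then S.u e else 0)]
    refine Finset.sum_congr rfl fun e _ => ?_
    rw [S.M.φ3]
  rw [h2]
  unfold fu
  refine Finset.sum_congr rfl fun e _ => ?_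
  by_cases h3 : S.u e = 0
  · rw [h3, ite_self, ite_self]
  · have h4 := inC_real hS W hc.dead (hS.ur e h3)
    by_cases h5 : S.sc.r d e
    · rw [if_pos h5, if_pos (h4.1 ((sc_inC hS W hc.dead h5).1 h))]
    · rw [if_neg h5, if_neg (fun hh => h5 (inC_sc hS W hc.dead h (h4.2 hh)))]

theorem conv_thr (hS : IsStar S) (W : Wf Δ S L w) (hC : ∀ c ∈ C, Hub3 S c)
    (thr : ∀ d, S.u d ≠ 0 → 3 ≤ fu S d ∨ Two S d) :
    ∀ d, (conv S C).u d ≠ 0 → 3 ≤ fu (conv S C) d ∨ Two (conv S C) d := by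
  intro d hd
  have h1 : ¬ OnC S C d := fun hh => hd (conv_u_on hS W hC hh)
  have h2 : S.u d ≠ 0 := by rwa [conv_u_off h1] at hd
  rcases thr d h2 with h3 | ⟨e, e', k1, k2, k3, k4, k5, k6⟩
  · left; rw [conv_fu hS W hC h1]; exact h3
  · right
    have n1 : ¬ OnC S C e := fun hh => h1 ((onC_sc hS W hC k1).2 hh)
    have n2 : ¬ OnC S C e' := fun hh => h1 ((onC_sc hS W hC k2).2 hh)
    refine ⟨e, e', sc_conv hS W hC h1 k1, sc_conv hS W hC h1 k2, by rwa [conv_u_off n1],
      by rwa [conv_u_off n2], k5, fun r hr hs => ?_⟩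
    have h4 : S.sc.r d r := conv_sc hs
    have h5 : S.real r = true := by
      by_contra h6
      exact h1 ((onC_sc hS W hC h4).2 (onC_spoke hS W hC (by simpa using h6) hr))
    exact k6 r h5 h4

/-- the converted state is in the class -/
theorem conv_ok (hS : IsStar S) (W : Wf Δ S L w) (hΔ : 3 ≤ Δ) (hC : ∀ c ∈ C, Hub3 S c)
    (hrc : ∀ s : V → Bool, (∃ x ∈ S.A, s x = true) → (∃ x ∈ S.A, s x = false) → 3 ≤ S.rc s)
    (thr : ∀ d, S.u d ≠ 0 → 3 ≤ fu S d ∨ Two S d) : Ok Δ (conv S C) L w := by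
  refine ok_of_rc (conv_wf hS W hΔ hC) (fun s h1 h2 => ?_) (conv_thr hS W hC thr)
  by_cases k1 : ∃ x ∈ S.A, s x = true
  · by_cases k2 : ∃ x ∈ S.A, s x = false
    · exact (hrc s k1 k2).trans (conv_rc s)
    · obtain ⟨c, hc, hc'⟩ := h2
      push Not at k2
      have hcC : c ∈ C := by
        rcases Finset.mem_union.1 hc with h | h
        · exact absurd hc' (k2 c h)
        · exact h
      exact conv_rc3 hS W hC hcC (fun x hx => by rw [hc']; simpa using k2 x hx)
  · obtain ⟨c, hc, hc'⟩ := h1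
    push Not at k1
    have hcC : c ∈ C := by
      rcases Finset.mem_union.1 hc with h | h
      · exact absurd hc' (k1 c h)
      · exact h
    exact conv_rc3 hS W hC hcC (fun x hx => by rw [hc']; simpa using k1 x hx)

/-- the degrees -/
theorem conv_rdeg (x : V) : S.rdeg x ≤ (conv S C).rdeg x := by
  unfold rdeg
  refine Finset.sum_le_sum fun d _ => ?_
  by_cases h : S.M.v d = x ∧ S.real d = true
  · rw [if_pos h, if_pos (show (conv S C).M.v d = x ∧ (conv S C).real d = true from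
      ⟨h.1, conv_real.2 (Or.inl h.2)⟩)]
  · rw [if_neg h]; exact Nat.zero_le _

theorem conv_rdeg_hub (hS : IsStar S) (W : Wf Δ S L w) (hC : ∀ c ∈ C, Hub3 S c) {c : V}
    (hc : c ∈ C) : (conv S C).rdeg c ≤ 3 := by
  rw [← (hC c hc).three]
  unfold rdeg
  refine Finset.sum_le_sum fun d _ => ?_
  show (if S.M.v d = c ∧ (conv S C).real d = true then 1 else 0) ≤ _
  by_cases h1 : S.M.v d = c
  · have h2 : S.M.v d ∈ C := by rw [h1]; exact hc
    obtain ⟨k1, _, _, _, k5⟩ := hub_u hS W hC h2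
    rw [if_pos h1]
    by_cases h3 : (conv S C).real d = true
    · rw [if_pos ⟨h1, h3⟩]
      have : S.u (S.M.φ d) ≠ 0 := by
        rcases conv_real.1 h3 with k | k | k
        · rw [k1] at k; exact absurd k (by simp)
        · exact k.2
        · exact absurd k.1 (notC hC k5)
      omega
    · rw [if_neg (fun hh => h3 hh.2)]; exact Nat.zero_le _
  · rw [if_neg (fun hh => h1 hh.1)]; exact Nat.zero_le _

theorem conv_n4 (hS : IsStar S) (W : Wf Δ S L w) (hC : ∀ c ∈ C, Hub3 S c)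
    (h4 : ∀ x ∈ S.A, 4 ≤ S.rdeg x) : n4 (conv S C) = n4 S := by
  unfold n4
  congr 1
  ext x
  simp only [Finset.mem_filter]
  constructor
  · rintro ⟨h1, h2⟩
    rcases Finset.mem_union.1 h1 with h | h
    · exact ⟨h, h4 x h⟩
    · have := conv_rdeg_hub hS W hC h
      omega
  · rintro ⟨h1, h2⟩
    exact ⟨Finset.mem_union_left _ h1, h2.trans (conv_rdeg x)⟩

theorem conv_n3 (hS : IsStar S) (W : Wf Δ S L w) (hC : ∀ c ∈ C, Hub3 S c)
    (h4 : ∀ x ∈ S.A, 4 ≤ S.rdeg x) : n3 (conv S C) = C.card := by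
  unfold n3
  congr 1
  ext x
  simp only [Finset.mem_filter]
  constructor
  · rintro ⟨h1, h2⟩
    rcases Finset.mem_union.1 h1 with h | h
    · exact absurd ((h4 x h).trans (conv_rdeg x)) h2
    · exact h
  · intro h
    have := conv_rdeg_hub hS W hC h
    exact ⟨Finset.mem_union_right _ h, by omega⟩

/-- the requirements: each hub saves three units -/
theorem conv_sum_u (hS : IsStar S) (W : Wf Δ S L w) (hC : ∀ c ∈ C, Hub3 S c) :
    ∑ d, (conv S C).u d * cw (fu (conv S C) d) + 3 * cw 3 * C.card =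
      ∑ d, S.u d * cw (fu S d) := by
  classical
  have h1 : 3 * cw 3 * C.card = ∑ d, if S.M.v (S.M.φ (S.M.φ d)) ∈ C then S.u d * cw (fu S d) else 0 := by
    have e1 : ∀ c ∈ C, 3 * cw 3 = ∑ d, if S.M.v (S.M.φ (S.M.φ d)) = c then S.u d * cw (fu S d)
        else 0 := by
      intro c hc
      have h2 : ∑ e, (if S.M.v e = c then S.u (S.M.φ e) else 0) =
          ∑ e, if S.M.v (S.M.φ (S.M.φ e)) = c then S.u e else 0 := by
        rw [← sum_φ_nat S.M (fun e => if S.M.v (S.M.φ (S.M.φ e)) = c then S.u e else 0)]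
        refine Finset.sum_congr rfl fun e _ => ?_
        rw [S.M.φ3]
      rw [show 3 * cw 3 = (∑ e, if S.M.v (S.M.φ (S.M.φ e)) = c then S.u e else 0) * cw 3 from by
        rw [← h2, (hC c hc).three], Finset.sum_mul]
      refine Finset.sum_congr rfl fun e _ => ?_
      by_cases h3 : S.M.v (S.M.φ (S.M.φ e)) = c
      · rw [if_pos h3, if_pos h3, hub_fu hS W (hC c hc) (Or.inr (Or.inr h3))]
      · rw [if_neg h3, if_neg h3, zero_mul]
    rw [mul_comm, ← smul_eq_mul, ← Finset.sum_const, Finset.sum_congr rfl e1, Finset.sum_comm]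
    refine Finset.sum_congr rfl fun d _ => ?_
    rw [Finset.sum_ite_eq]
  rw [h1, ← Finset.sum_add_distrib]
  refine Finset.sum_congr rfl fun d _ => ?_
  by_cases h2 : S.M.v (S.M.φ (S.M.φ d)) ∈ C
  · rw [if_pos h2, conv_u, if_pos h2, zero_mul, zero_add]
  · rw [if_neg h2, add_zero, conv_u, if_neg h2]
    by_cases h3 : S.u d = 0
    · rw [h3, zero_mul, zero_mul]
    · have h4 : ¬ OnC S C d := by
        rintro ⟨c, hc, h5⟩
        apply h2
        rw [(inC_real hS W (hC c hc).dead (hS.ur d h3)).1 h5]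
        exact hc
      rw [conv_fu hS W hC h4]

end Pool.FC7
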