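import Pool.Agent.FC7.CvC

/-! # Conversion of long required faces into small vertices, part 3: solutions -/

open Finset

namespace Pool.FC7

open Pool.FC6 Pool.FC6.St

variable {D V : Type} [Fintype D] [DecidableEq V] {S : St D V} {L : D → Bool} {w : D → ℕ} {Δ : ℕ}
  {C : Finset V} {c : V → Bool}

theorem test_conv {h : D → ℝ} (ht : S.Test c h) : (conv S C).Test c h := by
  refine ⟨ht.1, fun d hd => ht.2 d ?_⟩
  rcases hd with h1 | h1
  · exact Or.inl (conv_real_f h1)
  · exact Or.inr h1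

theorem br_conv {d : D} (h : Br S c d) : Br (conv S C) c d := ⟨conv_real.2 (Or.inl h.1), h.2⟩

theorem test_cl {h : D → ℝ} (ht : S.Test c h) : S.Cl h := ⟨ht.1, fun d hd => ht.2 d (Or.inl hd)⟩

theorem vi_conv (hS : IsStar S) (W : Wf Δ S L w) (hC : ∀ c ∈ C, Hub3 S c) (gd : Gd S)
    (h4 : ∀ x ∈ S.A, 4 ≤ S.rdeg x) (h : Sol (conv S C) L c) {d : D} (hd : Vi (conv S C) c d) :
    Vi S c d := by
  classical
  obtain ⟨e, he, hed⟩ := hd
  by_cases hr : S.real e = true
  · exact ⟨e, ⟨hr, he.2⟩, fun g hg => hed g (test_conv hg)⟩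
  obtain ⟨c0, hc0, hin⟩ := onC_spoke hS W hC (by simpa using hr) he.1
  have hdead := (hC c0 hc0).dead
  by_cases hb : ∃ b, Br S c b ∧ InC S c0 b
  · obtain ⟨b, hb1, hb2⟩ := hb
    refine ⟨b, hb1, fun g hg => ?_⟩
    rw [← hed g (test_conv hg)]
    exact cl_sc (test_cl hg) (inC_sc hS W hdead hb2 hin)
  exfalso
  push Not at hb
  let F1 : D → ℝ := fun x => if InC S c0 x then 1 else 0
  have hT : (conv S C).Test c F1 := by
    refine ⟨fun x => ?_, fun x hx => ?_⟩
    · show (if InC S c0 (S.M.φ x) then (1 : ℝ) else 0) = if InC S c0 x then 1 else 0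
      simp only [inC_φ]
    · show (if InC S c0 (S.M.α x) then (1 : ℝ) else 0) = if InC S c0 x then 1 else 0
      by_cases hx2 : S.real x = true
      · have hx3 : c (S.M.v x) ≠ c (S.M.v (S.M.α x)) := by
          rcases hx with h1 | h1
          · rw [conv_real_f h1] at hx2; exact absurd hx2 (by simp)
          · exact h1
        have b1 : Br S c x := ⟨hx2, hx3⟩
        have b2 : Br S c (S.M.α x) := b1.α W.real_α
        rw [if_neg (hb _ b1), if_neg (hb _ b2)]
      · simp only [inC_α hS W hdead (by simpa using hx2 : S.real x = false)]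
  have h1 : F1 e = 1 := if_pos hin
  have h2 : ∀ b, Br (conv S C) c b → F1 b = 1 := fun b hb' => by
    rw [← h1]
    exact h.con F1 hT b e hb' he
  obtain ⟨x, hx, hx'⟩ := not_all W.simple h4 gd e
  obtain ⟨y, hy, e', he', hey⟩ := h.live x (Finset.mem_union_left _ hx)
  have h3 : F1 y = 1 := by rw [← hey F1 hT]; exact h2 e' he'
  have h5 : InC S c0 y := by
    by_contra hn
    have : F1 y = 0 := if_neg hn
    rw [this] at h3
    exact zero_ne_one h3
  exact hx' y hy (inC_sc hS W hdead hin h5)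

/-- a solution of the converted state is a solution -/
theorem conv_sol (hS : IsStar S) (W : Wf Δ S L w) (hC : ∀ c ∈ C, Hub3 S c) (gd : Gd S)
    (h4 : ∀ x ∈ S.A, 4 ≤ S.rdeg x) (h : Sol (conv S C) L c) : Sol S L c where
  con g hg d d' hd hd' := h.con g (test_conv hg) d d' (br_conv hd) (br_conv hd')
  live x hx := by
    obtain ⟨d, h1, h2⟩ := h.live x (Finset.mem_union_left _ hx)
    exact ⟨d, h1, vi_conv hS W hC gd h4 h h2⟩
  req d hd := by
    by_cases h1 : OnC S C d
    · obtain ⟨c0, hc0, h2⟩ := h1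
      obtain ⟨d0, h3, h5⟩ := h.live c0 (Finset.mem_union_right _ hc0)
      exact (vi_conv hS W hC gd h4 h h5).eq fun g hg =>
        cl_sc (test_cl hg) (inC_sc hS W (hC c0 hc0).dead (Or.inl h3) h2)
    · exact vi_conv hS W hC gd h4 h (h.req d (by rwa [conv_u_off h1]))
  lab d hd := by
    rcases h.lab d hd with h1 | h1
    · exact Or.inl (vi_conv hS W hC gd h4 h h1)
    · exact Or.inr (vi_conv hS W hC gd h4 h h1)

end Pool.FC7
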