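import Pool.Agent.FC7.VcE

/-! # Facts with the static checks in several parts -/

set_option linter.unusedSectionVars false

namespace Pool.FC7

open Pool.FC6

namespace K

variable (W : WG)

noncomputable def g1 : Bool :=
  K.band (K.Stars_chk (FC7.Wt.Z (FC7.WF.toWt (FC7.WG.toWF W))) (FC7.WF.PT (FC7.WG.toWF W)))
    (K.band (K.Wt_ok (FC7.WF.toWt (FC7.WG.toWF W)))
      (K.band (K.Cf_chkS (K.WG_cf W)) (K.band (K.Cf_chkW (K.WG_cf W)) (K.Cf_chkT (K.WG_cf W)))))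

noncomputable def g2 : Bool := K.WF_chkA (FC7.WG.toWF W)

noncomputable def g3 : Bool := K.WF_chkD (FC7.WG.toWF W)

noncomputable def g4 : Bool :=
  K.band (K.WF_chkL (FC7.WG.toWF W) 6) (K.band (K.WF_chkP (FC7.WG.toWF W)) (K.WF_chkV (FC7.WG.toWF W)))

noncomputable def g5 : Bool := K.WF_chkO (FC7.WG.toWF W)

noncomputable def g6 : Bool := K.WF_chkZ (FC7.WG.toWF W)

noncomputable def g7 : Bool := K.Cf_chk4 (K.WG_cf W) (K.WG_bg W)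

noncomputable def g8 : Bool :=
  K.band (K.Cf_chkL (K.WG_cf W) (FC7.Wt.lt (FC7.WF.toWt (FC7.WG.toWF W))))
    (K.band (K.lall (FC7.WF.dq (FC7.WG.toWF W)) fun q => K.Cf_sd (K.WG_cf W) (Prod.fst q) (Prod.snd q))
      (K.band (K.lall (FC7.WF.nq (FC7.WG.toWF W)) (K.WG_nqc W))
        (K.band (K.lall (FC7.WF.oq (FC7.WG.toWF W)) (K.WG_oqc W)) (K.WF_chkB (FC7.WG.toWF W)))))

variable (F : Fc)

noncomputable def f1 : Bool :=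
  K.band (K.Pa_good (FC7.Fc.P F)) (K.band (K.Pa_good (FC7.Fc.P' F))
    (K.band (K.Pa_flips (FC7.Fc.P' F) (FC7.Fc.P F) (FC7.Fc.fl F))
      (K.band (K.XE_sta (K.Fc_XX F) (FC7.Fc.P F) (FC7.Fc.P' F))
        (K.XE_ringOk (K.Fc_XX F) (FC7.Fc.P F)))))

noncomputable def f2 : Bool :=
  K.band (K.OD_stat (FC7.Fc.O F) (FC7.Fc.P F) (FC7.Fc.P' F))
    (K.band (K.djs (K.Fc_XX F) (FC7.Fc.O F) (FC7.Fc.P F) (FC7.Fc.P' F)
        (K.lrange (FC7.OD.x (FC7.Fc.O F))) (FC7.Fc.ou F) (FC7.Fc.lu F))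
      (K.band (Nat.beq (FC7.XE.x (FC7.Fc.X F)) (FC7.OD.x (FC7.Fc.O F)))
        (K.band (Nat.beq (Nat.add (FC7.XE.x (FC7.Fc.X F)) (FC7.XE.k (FC7.Fc.X F)))
            (FC7.OD.m (FC7.Fc.O F)))
          (K.band (Nat.beq (FC7.OD.Δ (FC7.Fc.O F)) 6)
            (K.band (Nat.beq (FC7.XE.lo (FC7.Fc.X F)) (FC7.OD.lo (FC7.Fc.O F)))
              (K.band (Nat.ble (Nat.succ (FC7.OD.x (FC7.Fc.O F))) (FC7.OD.m (FC7.Fc.O F)))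
                (K.band (Nat.beq (FC7.Fc.sm F) 0) (K.lemp (FC7.Fc.cq F)))))))))

noncomputable def f3 : Bool := K.Fc_chkS F

noncomputable def f4 : Bool :=
  K.band (K.Fc_chkL F) (K.band (K.Fc_chkQ F) (K.band (K.Fc_chkK F) (K.band (K.Fc_chkR F)
    (K.band (K.allN (FC6.Pa.n (FC7.Fc.P F)) (fun (i : ℕ) => (Nat.beq (FC7.OD.wt' (FC7.Fc.O F) i)
      (Bool.rec (motive := fun _ => ℕ) (nat_lit 0) (nat_lit 1) (FC7.OD.lb' (FC7.Fc.O F) i)))))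
      (K.bor (K.Fc_chkM F (nat_lit 0)) (K.Fc_chkN F))))))

noncomputable def f5 : Bool := Vc.vchk F.C F.O F.P F.P' F.gt F.D5 F.p5

variable {W F}

theorem cd_of (hs : K.OD_stat (FC7.Fc.O F) (FC7.Fc.P F) (FC7.Fc.P' F) = true)
    (h1 : Nat.beq (FC7.Fc.sm F) 0 = true) (h2 : K.lemp (FC7.Fc.cq F) = true)
    (h5 : K.f5 F = true) : K.CD_chk (FC7.Fc.C F) (FC7.Fc.O F) (FC7.Fc.P F) (FC7.Fc.P' F)
      (K.Fc_bf F) (K.Fc_gb F) = true := by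
  rw [K.OD_stat_eq] at hs
  have h3 := Vc.vchk_sound hs h5
  rw [K.CD_chk_eq, K.Fc_bf_eq, K.Fc_gb_eq]
  have e1 : F.bf = FC7.bf5 [] 0 F.D5 F.p5 (2 ^ F.O.m - 1) := by
    funext c
    show FC7.bf5 F.cq F.sm F.D5 F.p5 (2 ^ F.O.m - 1) c = _
    rw [K.nbeq_eq, decide_eq_true_eq] at h1
    have h4 : F.cq = [] := by
      rw [K.lemp_eq] at h2
      exact List.isEmpty_iff.1 h2
    rw [h1, h4]
  have e2 : F.gb = FC7.gbn F.P F.O F.gt := rfl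
  rw [e1, e2]
  exact h3

theorem Fc_chk_of (h1 : K.f1 F = true) (h2 : K.f2 F = true) (h3 : K.f3 F = true)
    (h4 : K.f4 F = true) (h5 : K.f5 F = true) :
    K.Fc_chk F 6 = true ∧ (K.bor (K.Fc_chkM F (nat_lit 0)) (K.Fc_chkN F)) = true ∧
      Nat.beq (FC7.Fc.sm F) 0 = true := by
  have b1 := h1
  have b2 := h2
  have b4 := h4
  unfold K.f1 at b1
  unfold K.f2 at b2
  unfold K.f3 at h3
  unfold K.f4 at b4
  rw [K.band_eq] at b1 b2 b4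
  simp only [Bool.and_eq_true] at b1 b2 b4
  obtain ⟨p1, p2, p3, p4, p5⟩ := b1
  obtain ⟨q1, q2, q3, q4, q5, q6, q7, q8, q9⟩ := b2
  obtain ⟨r1, r2, r3, r4, r5, r6⟩ := b4
  have cd := cd_of q1 q8 q9 h5
  refine ⟨?_, r6, q8⟩
  unfold K.Fc_chk
  rw [K.band_eq]
  simp only [Bool.and_eq_true]
  refine ⟨⟨⟨⟨⟨⟨⟨⟨⟨⟨⟨⟨⟨⟨⟨⟨⟨⟨⟨p1, p2⟩, p3⟩, p4, p5⟩, q1⟩, cd⟩, q2⟩, q3⟩, q4⟩, q5⟩, q6⟩, q7⟩, ?_⟩, ?_⟩,
    h3⟩, r1⟩, r2⟩, r3⟩, r4⟩, r5⟩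
  · rw [K.nbeq_eq, decide_eq_true_eq] at q8
    rw [K.nble_eq, decide_eq_true_eq, q8]
    exact Nat.one_le_two_pow
  · rw [K.cqc_eq, K.lemp_eq] at *
    rw [List.isEmpty_iff.1 q9]
    rfl

/-- A FACT FOR A PATTERN OF CODES, the static check in several parts -/
theorem WG_noGs {W : WG} (h1 : K.g1 W = true) (h2 : K.g2 W = true) (h3 : K.g3 W = true)
    (h4 : K.g4 W = true) (h5 : K.g5 W = true) (h6 : K.g6 W = true) (h7 : K.g7 W = true)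
    (h8 : K.g8 W = true) (k1 : K.f1 W.F = true) (k2 : K.f2 W.F = true) (k3 : K.f3 W.F = true)
    (k4 : K.f4 W.F = true) (k5 : K.f5 W.F = true) (hE : W.F.One) {w0 : List ℕ}
    {nb : List (ℕ × List ℕ)} {pl : List ℕ} (hU : K.WG_chkCp W w0 nb pl = true) : NoG w0 nb pl := by
  obtain ⟨c1, c2, c3⟩ := Fc_chk_of k1 k2 k3 k4 k5
  refine WG_noG ?_ hE hU
  have b1 := h1
  have b4 := h4
  have b8 := h8
  unfold K.g1 at b1
  unfold K.g4 at b4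
  unfold K.g8 at b8
  unfold K.g2 at h2
  unfold K.g3 at h3
  unfold K.g5 at h5
  unfold K.g6 at h6
  unfold K.g7 at h7
  rw [K.band_eq] at b1 b4 b8
  simp only [Bool.and_eq_true] at b1 b4 b8
  obtain ⟨p1, p2, p3, p4, p5⟩ := b1
  obtain ⟨q1, q2, q3⟩ := b4
  obtain ⟨r1, r2, r3, r4, r5⟩ := b8
  have hc : K.Cf_chk (K.WG_cf W) = true := by
    unfold K.Cf_chk
    rw [K.band_eq]
    simp only [Bool.and_eq_true]
    exact ⟨⟨⟨p1, p3⟩, p4⟩, p5⟩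
  have hw : K.WF_chk (FC7.WG.toWF W) 6 = true := by
    unfold K.WF_chk
    rw [K.band_eq]
    simp only [Bool.and_eq_true]
    exact ⟨⟨⟨⟨⟨⟨⟨⟨p1, p2⟩, h2⟩, h3⟩, q1⟩, q2⟩, h5⟩, q3⟩, h6⟩
  unfold K.WG_chkOp K.WG_chkH
  rw [K.band_eq]
  simp only [Bool.and_eq_true]
  exact ⟨⟨⟨⟨⟨⟨⟨⟨⟨⟨hw, hc⟩, r1⟩, h7⟩, r2⟩, r3⟩, r4⟩, c3⟩, r5⟩, c1⟩, c2⟩

end K

end Pool.FC7
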