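import Pool.Agent.FC7.GrB
import Pool.Agent.FC7.VcF

/-! # Many patterns with the same record, the static check in several parts -/

set_option linter.unusedSectionVars false

namespace Pool.FC7

open Pool.FC6

namespace K

/-- MANY PATTERNS WITH THE SAME RECORD -/
theorem grpGs {W : WG} (h1 : K.g1 W = true) (h2 : K.g2 W = true) (h3 : K.g3 W = true)
    (h4 : K.g4 W = true) (h5 : K.g5 W = true) (h6 : K.g6 W = true) (h7 : K.g7 W = true)
    (h8 : K.g8 W = true) (k1 : K.f1 W.F = true) (k2 : K.f2 W.F = true) (k3 : K.f3 W.F = true)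
    (k4 : K.f4 W.F = true) (k5 : K.f5 W.F = true) (hE : W.F.One)
    {l : List (List ℕ × List (ℕ × List ℕ))} (h : K.lall l (keyG W) = true) :
    ∀ X ∈ l, NoL X.1 X.2 := by
  intro X hX
  rw [lall_eq, List.all_eq_true] at h
  have h0 := h X hX
  unfold keyG at h0
  rw [band_eq, Bool.and_eq_true, cdc_eq, cdn_eq, pls_eq, psn_eq, llen_eq] at h0
  exact NoG.toL (K.WG_noGs h1 h2 h3 h4 h5 h6 h7 h8 k1 k2 k3 k4 k5 hE h0.1) h0.2

end K

/-- the entry `n` of a list of patterns -/
def pick : List (List ℕ × List (ℕ × List ℕ)) → ℕ → Option (List ℕ × List (ℕ × List ℕ))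
  | [], _ => none
  | a :: _, 0 => some a
  | _ :: t, n + 1 => pick t n

/-- one fact of a list -/
theorem kid {l : List (List ℕ × List (ℕ × List ℕ))} (h : ∀ X ∈ l, NoL X.1 X.2) (n : ℕ) {c : List ℕ}
    {nb : List (ℕ × List ℕ)} (hn : pick l n = some (c, nb)) : NoL c nb := by
  refine h (c, nb) ?_
  clear h
  induction l generalizing n with
  | nil => exact absurd hn (by simp [pick])
  | cons a t ih =>
    cases n with
    | zero =>
      have h1 : a = (c, nb) := by simpa [pick] using hn
      rw [← h1]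
      exact List.mem_cons_self
    | succ n => exact List.mem_cons_of_mem _ (ih n hn)

/-- two lists of facts -/
theorem both {l r : List (List ℕ × List (ℕ × List ℕ))} (h : ∀ X ∈ l, NoL X.1 X.2)
    (h' : ∀ X ∈ r, NoL X.1 X.2) : ∀ X ∈ l ++ r, NoL X.1 X.2 := fun X hX => by
  rcases List.mem_append.1 hX with h1 | h1
  · exact h X h1
  · exact h' X h1

end Pool.FC7
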