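import Pool.Agent.FC7.Ovm

/-! # Case distinctions with a cover

`P`: positions of the pattern `X`; a tuple of letters for these positions is a refinement of `X`.
Every refinement of the list is impossible or an instance of a pattern which does not occur, and the
list covers all tuples of letters. -/

open Finset

set_option linter.unusedSectionVars false

namespace Pool.FC7.Lc

open Pool.FC7 Pool.FC6 Pool.FC6.St

/-- the letters of the tuple at the positions -/
def sts : FCS.Fct → List (ℕ × ℕ) → List ℕ → FCS.Fct
  | X, q :: P, a :: u => sts (stL X q.1 q.2 a) P u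
  | X, _, _ => X

/-- the bit is set -/
def tb1 (u l : ℕ) : Bool := Nat.beq (Nat.land (Nat.shiftRight u l) 1) 1

theorem tb1_eq (u l : ℕ) : tb1 u l = u.testBit l := by
  unfold tb1
  show Nat.beq ((u >>> l) &&& 1) 1 = _
  rw [Nat.testBit, Nat.and_comm 1]
  have h1 := Nat.and_one_is_mod (u >>> l)
  rcases Nat.mod_two_eq_zero_or_one (u >>> l) with h | h
  · rw [h1, h]; rfl
  · rw [h1, h]; rfl

/-- the packed masks with the letter `l` at the first position -/
def flp (l : ℕ) : List ℕ → List ℕ
  | [] => []
  | u :: Us => cond (tb1 u l) (Nat.shiftRight u 32 :: flp l Us) (flp l Us)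

/-- the packed masks cover all tuples -/
def cvp : List ℕ → ℕ → List ℕ → Bool
  | [], _, Us => !Us.isEmpty
  | g :: gs, F, Us => (Us.any fun u => Nat.beq (Nat.land u F) F) ||
      (lts g).all fun l => cvp gs (Nat.shiftRight F 32) (flp l Us)

/-- packed masks -/
def pkm : List ℕ → ℕ
  | [] => 0
  | a :: r => Nat.lor (mkL a true) (Nat.shiftLeft (pkm r) 32)

theorem mem_flp {l u : ℕ} : ∀ {Us : List ℕ}, u ∈ flp l Us →
    ∃ v ∈ Us, v.testBit l = true ∧ u = v >>> 32
  | [], h => absurd h (by simp [flp])
  | v :: Us, h => by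
    unfold flp at h
    rw [tb1_eq] at h
    cases hv : v.testBit l
    · rw [hv] at h
      obtain ⟨v', h1, h2⟩ := mem_flp h
      exact ⟨v', List.mem_cons_of_mem _ h1, h2⟩
    · rw [hv] at h
      rcases List.mem_cons.1 h with h1 | h1
      · exact ⟨v, List.mem_cons_self .., hv, h1⟩
      · obtain ⟨v', h2, h3⟩ := mem_flp h1
        exact ⟨v', List.mem_cons_of_mem _ h2, h3⟩

theorem cvp_sound : ∀ {gs : List ℕ} {F : ℕ} {Us : List ℕ} {t : ℕ → ℕ}, cvp gs F Us = true →
    (∀ i < gs.length, t i ∈ lts (gs.getD i 0)) → (∀ i < gs.length, F.testBit (32 * i + t i) = true) →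
    ∃ u ∈ Us, ∀ i < gs.length, u.testBit (32 * i + t i) = true
  | [], F, Us, t, h, _, _ => by
    unfold cvp at h
    cases Us with
    | nil => exact absurd h (by simp)
    | cons u Us => exact ⟨u, List.mem_cons_self .., fun i hi => absurd hi (by simp)⟩
  | g :: gs, F, Us, t, h, ht, hF => by
    unfold cvp at h
    rw [Bool.or_eq_true, List.any_eq_true, List.all_eq_true] at h
    rcases h with ⟨u, hu, h1⟩ | h
    · refine ⟨u, hu, fun i hi => ?_⟩
      have h2 : u &&& F = F := Nat.eq_of_beq_eq_true h1
      have h3 := hF i hi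
      rw [← h2, Nat.testBit_and, Bool.and_eq_true] at h3
      exact h3.1
    · have h0 : t 0 ∈ lts g := ht 0 (by simp)
      obtain ⟨u, hu, h1⟩ := cvp_sound (t := fun i => t (i + 1)) (h _ h0)
        (fun i hi => ht (i + 1) (by simpa using hi)) (fun i hi => by
          show (F >>> 32).testBit _ = true
          rw [Nat.testBit_shiftRight]
          have := hF (i + 1) (by simpa using hi)
          rwa [show 32 * (i + 1) + t (i + 1) = 32 + (32 * i + t (i + 1)) by ring] at this)
      obtain ⟨v, hv, h2, rfl⟩ := mem_flp hu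
      refine ⟨v, hv, fun i hi => ?_⟩
      cases i with
      | zero => rw [Nat.mul_zero, Nat.zero_add]; exact h2
      | succ i =>
        have h3 := h1 i (by simpa using hi)
        rwa [Nat.testBit_shiftRight,
          show 32 + (32 * i + t (i + 1)) = 32 * (i + 1) + t (i + 1) by ring] at h3

theorem mkL_bit : ((List.range 46).all fun g => (List.range 32).all fun l =>
    !(mkL g true).testBit l || lle g l) = true := by decide +kernel

theorem tbl_lt (T g : ℕ) : tbl T g < 4294967296 := Nat.mod_lt _ (by norm_num)

theorem mkL_big {g : ℕ} (h : 46 ≤ g) : mkL g true = 0 := by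
  unfold mkL tbl
  show ((_ : ℕ) >>> (32 * g)) % 4294967296 = 0
  rw [Nat.shiftRight_eq_div_pow, Nat.div_eq_of_lt, Nat.zero_mod]
  refine lt_of_lt_of_le ?_ (Nat.pow_le_pow_right (by norm_num) (show 32 * 46 ≤ 32 * g by omega))
  decide +kernel

theorem lle_of_bit {g l : ℕ} (hl : l < 32) (h : (mkL g true).testBit l = true) :
    lle g l = true := by
  by_cases hg : g < 46
  · have h1 := List.all_eq_true.1 (List.all_eq_true.1 mkL_bit g (List.mem_range.2 hg)) l
      (List.mem_range.2 hl)
    rwa [h, Bool.not_true, Bool.false_or] at h1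
  · rw [mkL_big (by omega)] at h
    exact absurd h (by simp)

theorem pkm_bit : ∀ {u : List ℕ} {i l : ℕ}, l < 32 → (pkm u).testBit (32 * i + l) = true →
    lle (u.getD i 0) l = true
  | [], i, l, _, h => absurd h (by simp [pkm])
  | a :: r, i, l, hl, h => by
    have e : pkm (a :: r) = mkL a true ||| (pkm r <<< 32) := rfl
    rw [e, Nat.testBit_or, Nat.testBit_shiftLeft, Bool.or_eq_true, Bool.and_eq_true,
      decide_eq_true_eq] at h
    cases i with
    | zero =>
      rw [Nat.mul_zero, Nat.zero_add] at h
      rcases h with h | ⟨h, -⟩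
      · exact lle_of_bit hl h
      · omega
    | succ i =>
      rcases h with h | ⟨-, h⟩
      · exfalso
        have h1 : mkL a true < 2 ^ 32 := tbl_lt _ _
        rw [Nat.testBit_lt_two_pow (lt_of_lt_of_le h1 (Nat.pow_le_pow_right (by norm_num)
          (by omega)))] at h
        exact absurd h (by simp)
      · rw [show 32 * (i + 1) + l - 32 = 32 * i + l by omega] at h
        exact pkm_bit (u := r) (i := i) hl h

theorem pkm_mem : ∀ {gs : List ℕ} {i l : ℕ}, i < gs.length → l ∈ lts (gs.getD i 0) →
    (pkm gs).testBit (32 * i + l) = true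
  | [], i, l, hi, _ => absurd hi (by simp)
  | a :: r, i, l, hi, h => by
    have e : pkm (a :: r) = mkL a true ||| (pkm r <<< 32) := rfl
    rw [e, Nat.testBit_or, Nat.testBit_shiftLeft, Bool.or_eq_true, Bool.and_eq_true,
      decide_eq_true_eq]
    cases i with
    | zero =>
      left
      rw [Nat.mul_zero, Nat.zero_add]
      exact mkL_mem (f := true) (List.mem_filter.2 ⟨h, by simp⟩)
    | succ i =>
      right
      refine ⟨by omega, ?_⟩
      rw [show 32 * (i + 1) + l - 32 = 32 * i + l by omega]
      exact pkm_mem (by simpa using hi) h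

section

variable {D V : Type} [Fintype D] [DecidableEq V]
  {S : St D V} {L : D → Bool} {w : D → ℕ} {U : V → Prop} {x d : D}
  (h : MC 6 S L w) (hS : IsStar S)

/-- the letter of the state at a position of the pattern -/
noncomputable def actl (S : St D V) (L : D → Bool) (x : D) (X : FCS.Fct) (s j : ℕ) : ℕ :=
  match s with
  | 0 => (lwo S L x).getD j 0
  | k + 1 => (lwo S L (S.M.α (S.nxr^[(X.2.getD k (0, [])).1] x))).getD j 0

include h hS

theorem actl_mem {X : FCS.Fct} {s j : ℕ} (hv : vld X s j = true)
    (hx : HasL S L U X.1 X.2 x) : actl S L x X s j ∈ lts (gtL X s j) ∧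
      ∀ a, lle a (actl S L x X s j) = true → HasL S L U (stL X s j a).1 (stL X s j a).2 x := by
  have W := h.ok.toWf
  have real : ∀ i, S.real (S.M.α (S.nxr^[i] x)) = true := fun i => by
    rw [W.real_α]; exact hS.nxr_iter_real W hx.re i
  have key : ∀ {c u : List ℕ} {j : ℕ}, llw c u = true → (∀ l ∈ u, lal l = true) → j < c.length →
      (u.getD j 0) ∈ lts (c.getD j 0) ∧ ∀ a, lle a (u.getD j 0) = true →
        llw (c.set j a) u = true := by
    intro c u j h1 h2 h3
    have h4 := llw_iff.1 h1
    have h5 : j < u.length := by omega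
    refine ⟨mem_lts (h4.2 j h3) (h2 _ (getD_mem h5)), fun a ha => llw_iff.2 ⟨by
      rw [List.length_set]; exact h4.1, fun i hi => ?_⟩⟩
    rw [List.length_set] at hi
    by_cases h6 : j = i
    · subst h6
      rw [List.getD_eq_getElem _ _ (by rw [List.length_set]; exact hi), List.getElem_set_self]
      exact ha
    · rw [List.getD_eq_getElem _ _ (by rw [List.length_set]; exact hi), List.getElem_set_ne h6,
        ← List.getD_eq_getElem _ 0]
      exact h4.2 i hi
  cases s with
  | zero =>
    have hv' : j < X.1.length := by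
      unfold vld at hv
      simpa using hv
    obtain ⟨k1, k2⟩ := key hx.w (h.lwo_lal hS hx.re) hv'
    exact ⟨k1, fun a ha => ⟨hx.re, hx.cU, k2 a ha, hx.nU, hx.nw, hx.np⟩⟩
  | succ k =>
    have hv' : k < X.2.length ∧ j < (X.2.getD k (0, [])).2.length := by
      unfold vld at hv
      simpa using hv
    have hm : X.2.getD k (0, []) ∈ X.2 := by
      rw [List.getD_eq_getElem _ _ hv'.1]
      exact List.getElem_mem _
    have hne : (X.2.getD k (0, [])).2 ≠ [] := by
      intro h0
      have := hv'.2
      rw [h0] at this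
      exact absurd this (by simp)
    obtain ⟨k1, k2⟩ := key (hx.nw _ hm hne) (h.lwo_lal hS (real _)) hv'.2
    have hne' : ∀ l, (X.2.getD k (0, [])).2.set j l ≠ [] := by
      intro l h0
      have := congrArg List.length h0
      rw [List.length_set, List.length_nil] at this
      omega
    refine ⟨k1, fun a ha => ⟨hx.re, hx.cU, hx.w, fun p hp h0 => ?_, fun p hp h0 => ?_,
      fun p hp h0 => ?_⟩⟩
    · rcases List.mem_or_eq_of_mem_set hp with h1 | h1
      · exact hx.nU p h1 h0
      · rw [h1]; exact hx.nU (X.2.getD k (0, [])) hm hne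
    · rcases List.mem_or_eq_of_mem_set hp with h1 | h1
      · exact hx.nw p h1 h0
      · rw [h1]; exact k2 a ha
    · rcases List.mem_or_eq_of_mem_set hp with h1 | h1
      · exact hx.np p h1 h0
      · rw [h1] at h0
        exact absurd h0 (hne' _)

omit [Fintype D] [DecidableEq V] h hS in
theorem stL_idx (X : FCS.Fct) (s j a k : ℕ) :
    ((stL X s j a).2.getD k (0, [])).1 = (X.2.getD k (0, [])).1 := by
  cases s with
  | zero => rfl
  | succ m =>
    show ((X.2.set m ((X.2.getD m (0, [])).1, _)).getD k (0, [])).1 = _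
    by_cases hk : k < X.2.length
    · rw [List.getD_eq_getElem _ _ (by rw [List.length_set]; exact hk)]
      by_cases hm : m = k
      · subst hm
        rw [List.getElem_set_self]
      · rw [List.getElem_set_ne hm, List.getD_eq_getElem _ _ hk]
    · rw [List.getD_eq_default _ _ (by rw [List.length_set]; omega),
        List.getD_eq_default _ _ (by omega)]

omit h hS in
theorem actl_stL (X : FCS.Fct) (s j a s' j' : ℕ) :
    actl S L x (stL X s j a) s' j' = actl S L x X s' j' := by
  cases s' with
  | zero => rfl
  | succ k =>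
    show (lwo S L (S.M.α (S.nxr^[((stL X s j a).2.getD k (0, [])).1] x))).getD j' 0 = _
    rw [stL_idx]
    rfl

omit h hS in
theorem vld_stL (X : FCS.Fct) (s j a s' j' : ℕ) : vld (stL X s j a) s' j' = vld X s' j' := by
  cases s' with
  | zero =>
    cases s with
    | zero =>
      show decide (j' < (X.1.set j a).length) = _
      rw [List.length_set]
      rfl
    | succ m => rfl
  | succ k =>
    cases s with
    | zero => rfl
    | succ m =>
      show (decide (k < (X.2.set m ((X.2.getD m (0, [])).1, (X.2.getD m (0, [])).2.set j a)).length)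
        && decide (j' < ((X.2.set m ((X.2.getD m (0, [])).1,
          (X.2.getD m (0, [])).2.set j a)).getD k (0, [])).2.length)) = _
      rw [List.length_set]
      show _ = (decide (k < X.2.length) && decide (j' < (X.2.getD k (0, [])).2.length))
      by_cases hk : k < X.2.length
      · rw [decide_eq_true hk, Bool.true_and, Bool.true_and,
          List.getD_eq_getElem _ _ (by rw [List.length_set]; exact hk)]
        by_cases hm : m = k
        · subst hm
          rw [List.getElem_set_self, List.length_set]
        · rw [List.getElem_set_ne hm, List.getD_eq_getElem _ _ hk]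
      · rw [decide_eq_false hk, Bool.false_and, Bool.false_and]

/-- the pattern with the letters of a tuple which fits -/
theorem sts_sound : ∀ {P : List (ℕ × ℕ)} {X : FCS.Fct} {u : List ℕ},
    (∀ q ∈ P, vld X q.1 q.2 = true) → HasL S L U X.1 X.2 x →
    (∀ i < P.length, lle (u.getD i 0)
      (actl S L x X (P.getD i (0, 0)).1 (P.getD i (0, 0)).2) = true) →
    HasL S L U (sts X P u).1 (sts X P u).2 x
  | [], X, u, _, hx, _ => by
    cases u <;> exact hx
  | q :: P, X, [], _, hx, _ => hx
  | q :: P, X, a :: u, hv, hx, hu => by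
    show HasL S L U (sts (stL X q.1 q.2 a) P u).1 (sts (stL X q.1 q.2 a) P u).2 x
    refine sts_sound (fun r hr => ?_) ((actl_mem h hS (hv q (List.mem_cons_self ..)) hx).2 a
      (hu 0 (by simp))) fun i hi => ?_
    · rw [vld_stL]
      exact hv r (List.mem_cons_of_mem _ hr)
    · rw [actl_stL]
      exact hu (i + 1) (by simpa using hi)

end

/-- the list of tuples covers all letters -/
def cvx (P : List (ℕ × ℕ)) (X : FCS.Fct) (Us : List (List ℕ)) : Bool :=
  P.all (fun q => vld X q.1 q.2) &&
    cvp (P.map fun q => gtL X q.1 q.2) (pkm (P.map fun q => gtL X q.1 q.2)) (Us.map pkm)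

/-- A CASE DISTINCTION WITH A COVER -/
theorem spv {X : FCS.Fct} (P : List (ℕ × ℕ)) (Us : List (List ℕ))
    (hU : ∀ u ∈ Us, NoL (sts X P u).1 (sts X P u).2) (hs : cvx P X Us = true) :
    NoL X.1 X.2 := by
  intro D V _ _ S L w U hM hS hR hC x hx
  unfold cvx at hs
  rw [Bool.and_eq_true, List.all_eq_true] at hs
  obtain ⟨hv, hc⟩ := hs
  have lt32 : ∀ {g l : ℕ}, l ∈ lts g → l < 32 := fun {g l} hl => by
    have h1 : lal l = true := by
      unfold lts at hl
      split_ifs at hl with h2
      · rw [List.mem_singleton] at hl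
        rw [hl]; exact h2
      · exact (List.mem_filter.1 hl).2
    have := lal_lt h1
    omega
  have hm : ∀ i < P.length, actl S L x X (P.getD i (0, 0)).1 (P.getD i (0, 0)).2 ∈
      lts ((P.map fun q => gtL X q.1 q.2).getD i 0) := by
    intro i hi
    rw [List.getD_eq_getElem _ _ (by rw [List.length_map]; exact hi), List.getElem_map,
      List.getD_eq_getElem _ _ hi]
    exact (actl_mem hM hS (hv _ (List.getElem_mem _)) hx).1
  obtain ⟨u, hu, h1⟩ := cvp_sound (t := fun i => actl S L x X (P.getD i (0, 0)).1
    (P.getD i (0, 0)).2) hc (fun i hi => hm i (by simpa using hi))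
    (fun i hi => pkm_mem hi (hm i (by simpa using hi)))
  obtain ⟨v, hv', rfl⟩ := List.mem_map.1 hu
  refine hU v hv' D V S L w U hM hS hR hC x (sts_sound hM hS hv hx fun i hi => ?_)
  exact pkm_bit (lt32 (hm i hi)) (h1 i (by simpa using hi))

/-- more than two units and labels at the neighbour `i`, or no letter for the centre at `i` -/
def bd1 (X : FCS.Fct) (i : ℕ) : Bool :=
  decide (i < X.1.length) && (Nat.beq (cnm X i) 0 ||
    ov4 (mq1 (cnm X ((i + X.1.length - 1) % X.1.length)) + mq2 (cnm X i))
      (if lsol (X.1.getD i 0) = true then wrd X ((i + 1) % X.1.length) else [])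
      (if lsol (X.1.getD ((i + X.1.length - 1) % X.1.length) 0) = true then
        wrd X ((i + X.1.length - 1) % X.1.length) else []))

theorem bd1_bd2 {X : FCS.Fct} {i : ℕ} (h : bd1 X i = true) : bd2 X = true := by
  unfold bd1 at h
  rw [Bool.and_eq_true, decide_eq_true_eq, Bool.or_eq_true] at h
  obtain ⟨h0, h1 | h1⟩ := h
  · unfold bd2
    rw [Bool.or_eq_true, Bool.or_eq_true, List.any_eq_true]
    exact Or.inl (Or.inl ⟨i, List.mem_range.2 h0, h1⟩)
  · unfold bd2 ovB
    rw [Bool.or_eq_true, Bool.or_eq_true, List.any_eq_true (l := List.range X.1.length)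
      (p := fun i => ov4 _ _ _)]
    exact Or.inl (Or.inr ⟨i, List.mem_range.2 h0, h1⟩)

/-- the pattern seen from the neighbour number `v`; `0`: from the centre -/
def vw (X : FCS.Fct) (v : ℕ) : FCS.Fct :=
  match v with
  | 0 => X
  | k + 1 => vwX X (X.2.getD k (0, []))

/-- this is a neighbour with a word -/
def vwo (X : FCS.Fct) (v : ℕ) : Bool :=
  match v with
  | 0 => true
  | k + 1 => decide (k < X.2.length) && !(X.2.getD k (0, [])).2.isEmpty &&
      decide ((X.2.getD k (0, [])).1 < X.1.length)

/-- the refinement `Z` does not occur: an instance of the pattern number `k`, or impossible; `v`: the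
vertex -/
def wok (Ys : List FCS.Fct) (Z : FCS.Fct) (k v : ℕ) : Bool :=
  vwo Z v && (if Nat.blt k Ys.length = true then fgn (Ys.getD k ([], [])) (vw Z v)
    else if Nat.beq k Ys.length = true then glbq (vw Z v)
    else bd1 (vw Z v) (k - Ys.length - 1))

theorem wok_sound {Ys : List FCS.Fct} (hY : ∀ Y ∈ Ys, NoL Y.1 Y.2) {Z : FCS.Fct} {k v : ℕ}
    (hw : wok Ys Z k v = true) : NoL Z.1 Z.2 := by
  intro D V _ _ S L w U hM hS hR hC x hx
  unfold wok at hw
  rw [Bool.and_eq_true] at hw
  obtain ⟨h1, h2⟩ := hw
  have h3 : ∃ y, HasL S L U (vw Z v).1 (vw Z v).2 y := by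
    cases v with
    | zero => exact ⟨x, hx⟩
    | succ k =>
      have h4 : (decide (k < Z.2.length) && !(Z.2.getD k (0, [])).2.isEmpty &&
        decide ((Z.2.getD k (0, [])).1 < Z.1.length)) = true := h1
      rw [Bool.and_eq_true, Bool.and_eq_true, Bool.not_eq_true', decide_eq_true_eq,
        decide_eq_true_eq] at h4
      have hm : Z.2.getD k (0, []) ∈ Z.2 := by
        rw [List.getD_eq_getElem _ _ h4.1.1]
        exact List.getElem_mem _
      exact ⟨_, vwX_sound hM hS hm (fun h6 => by
        rw [h6] at h4
        exact absurd h4.1.2 (by simp)) h4.2 hx⟩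
  obtain ⟨y, hy⟩ := h3
  by_cases hk : Nat.blt k Ys.length = true
  · rw [if_pos hk] at h2
    have hk' : k < Ys.length := Nat.blt_eq.mp hk
    have hm : Ys.getD k ([], []) ∈ Ys := by
      rw [List.getD_eq_getElem _ _ hk']
      exact List.getElem_mem _
    exact hY _ hm D V S L w U hM hS hR hC _ (fgn_sound hM hS h2 hy)
  · rw [if_neg hk] at h2
    have hb := bd2_sound hM hS hC hy
    by_cases hk2 : Nat.beq k Ys.length = true
    · rw [if_pos hk2] at h2
      unfold bd2 at hb
      rw [h2, Bool.or_true] at hb
      exact absurd hb (by decide)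
    · rw [if_neg hk2] at h2
      rw [bd1_bd2 h2] at hb
      exact absurd hb (by decide)

/-- the check of a case distinction: `W`: the refinements with the number of the pattern and the
vertex -/
def spz (Ys : List FCS.Fct) (P : List (ℕ × ℕ)) (X : FCS.Fct) (W : List (ℕ × ℕ × List ℕ)) : Bool :=
  cvx P X (W.map fun q => q.2.2) && W.all fun q => wok Ys (sts X P q.2.2) q.1 q.2.1

/-- A CASE DISTINCTION WITH A COVER: `W`: the refinements with the number of the pattern of `Ys` (or
the kind of the contradiction) and the vertex from which this is seen -/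
theorem splz {Ys : List FCS.Fct} (hY : ∀ Y ∈ Ys, NoL Y.1 Y.2) (P : List (ℕ × ℕ))
    (W : List (ℕ × ℕ × List ℕ)) {X : FCS.Fct} (hs : spz Ys P X W = true) : NoL X.1 X.2 := by
  unfold spz at hs
  rw [Bool.and_eq_true, List.all_eq_true] at hs
  refine spv P _ (fun u hu => ?_) hs.1
  obtain ⟨q, hq, rfl⟩ := List.mem_map.1 hu
  exact wok_sound hY (hs.2 q hq)

end Pool.FC7.Lc
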