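import Pool.Agent.FC7.Pk
import Pool.Agent.FC7.Ovn

/-! # Lists of patterns and of case distinctions, given by numbers -/

set_option linter.unusedSectionVars false

namespace Pool.FC7

open Pool.FC6

namespace K

/-- a list of patterns from `n` bytes: a pattern is `255`, the word of the centre and for every
neighbour `254`, its number, its word -/
noncomputable def dk (n N : ℕ) : List (List ℕ × List (ℕ × List ℕ)) :=
  Nat.rec (motive := fun _ => List ℕ → List (ℕ × List ℕ) → List (List ℕ × List (ℕ × List ℕ)) →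
      List (List ℕ × List (ℕ × List ℕ))) (fun _ _ r => r)
    (fun i ih c nb r => Bool.rec (motive := fun _ => List (List ℕ × List (ℕ × List ℕ)))
      (Bool.rec (motive := fun _ => List (List ℕ × List (ℕ × List ℕ)))
        (ih (tb N i :: c) nb r)
        (ih [] (List.rec (motive := fun _ => List (ℕ × List ℕ)) nb (fun a t _ => Prod.mk a t :: nb) c) r)
        (Nat.beq (tb N i) (nat_lit 254)))
      (ih [] [] (Prod.mk c nb :: r)) (Nat.beq (tb N i) (nat_lit 255))) n [] [] []

/-- a list of bytes, the length has 16 bits -/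
noncomputable def dl2 (N : ℕ) : List ℕ :=
  dgs (nat_lit 8) (nat_lit 255) (Nat.land N (nat_lit 65535)) (Nat.shiftRight N (nat_lit 16))

/-- a list of numbers of 16 bits, the length has 16 bits -/
noncomputable def dh2 (N : ℕ) : List ℕ :=
  dgs (nat_lit 16) (nat_lit 65535) (Nat.land N (nat_lit 65535)) (Nat.shiftRight N (nat_lit 16))

noncomputable def prs (l : List ℕ) : List (ℕ × ℕ) :=
  lmap (fun v => Prod.mk (Nat.land v (nat_lit 255)) (Nat.shiftRight v (nat_lit 8))) l

/-- `[k, v, u, ..]` -/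
noncomputable def tri (l : List ℕ) : ℕ × ℕ × List ℕ :=
  List.rec (motive := fun _ => ℕ × ℕ × List ℕ) (Prod.mk (nat_lit 0) (Prod.mk (nat_lit 0) []))
    (fun k t _ => List.rec (motive := fun _ => ℕ × ℕ × List ℕ) (Prod.mk k (Prod.mk (nat_lit 0) []))
      (fun v u _ => Prod.mk k (Prod.mk v u)) t) l

/-- case distinctions: `NX`: the patterns, `NK`: the numbers of the facts, `NP`: the positions, `NW`: the
refinements -/
noncomputable def dqs (n NX NK NP NW : ℕ) :
    List (FCS.Fct × List ℕ × List (ℕ × ℕ) × List (ℕ × ℕ × List ℕ)) :=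
  lmapi (fun j X => Prod.mk X (Prod.mk (lgetD (spl (nat_lit 65535) (dh2 NK)) j [])
    (Prod.mk (prs (lgetD (spl (nat_lit 65535) (dh2 NP)) j []))
      (lmap tri (spl (nat_lit 254) (lgetD (spl (nat_lit 255) (dl2 NW)) j [])))))) (dk n NX)

/-- equality of lists of patterns -/
noncomputable def leqF (A B : List (List ℕ × List (ℕ × List ℕ))) : Bool :=
  leqG (fun X Y => band (leq (Prod.fst X) (Prod.fst Y))
    (leqG (fun p q => band (Nat.beq (Prod.fst p) (Prod.fst q)) (leq (Prod.snd p) (Prod.snd q)))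
      (Prod.snd X) (Prod.snd Y))) A B

theorem leqF_eq (A B : List (List ℕ × List (ℕ × List ℕ))) : leqF A B = decide (A = B) := by
  refine leqG_eq (fun X Y => ?_) A B
  rw [band_eq, leq_eq, leqG_eq (fun p q => ?_)]
  · rw [← Bool.decide_and, decide_eq_decide]
    exact ⟨fun h => Prod.ext h.1 h.2, fun h => ⟨congrArg _ h, congrArg _ h⟩⟩
  · rw [nbeq_eq, leq_eq, ← Bool.decide_and, decide_eq_decide]
    exact ⟨fun h => Prod.ext h.1 h.2, fun h => ⟨congrArg _ h, congrArg _ h⟩⟩

/-- the same list in another form -/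
theorem same {l r : List (List ℕ × List (ℕ × List ℕ))} (h : ∀ X ∈ l, NoL X.1 X.2)
    (he : leqF r l = true) : ∀ X ∈ r, NoL X.1 X.2 := by
  rw [leqF_eq, decide_eq_true_eq] at he
  rw [he]
  exact h

/-- two lists of facts -/
theorem both {l r : List (List ℕ × List (ℕ × List ℕ))} (h : ∀ X ∈ l, NoL X.1 X.2)
    (h' : ∀ X ∈ r, NoL X.1 X.2) : ∀ X ∈ lapp l r, NoL X.1 X.2 := by
  rw [lapp_eq]
  exact FC7.both h h'

end K

namespace Lc

/-- a case distinction whose cases are facts of the list `KL` -/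
def qok (KL : List FCS.Fct) (q : FCS.Fct × List ℕ × List (ℕ × ℕ) × List (ℕ × ℕ × List ℕ)) : Bool :=
  (q.2.1.all fun i => Nat.blt i KL.length) &&
    spz (q.2.1.map fun i => KL.getD i ([], [])) q.2.2.1 q.1 q.2.2.2

/-- MANY CASE DISTINCTIONS -/
theorem qs {KL : List FCS.Fct} (h : ∀ X ∈ KL, NoL X.1 X.2)
    {Q : List (FCS.Fct × List ℕ × List (ℕ × ℕ) × List (ℕ × ℕ × List ℕ))}
    (hq : Q.all (qok KL) = true) : ∀ X ∈ Q.map Prod.fst, NoL X.1 X.2 := by
  intro X hX
  obtain ⟨q, hq1, rfl⟩ := List.mem_map.1 hX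
  rw [List.all_eq_true] at hq
  have h1 := hq q hq1
  unfold qok at h1
  rw [Bool.and_eq_true, List.all_eq_true] at h1
  refine splz (fun Y hY => ?_) _ _ h1.2
  obtain ⟨i, hi, rfl⟩ := List.mem_map.1 hY
  have h2 : i < KL.length := Nat.blt_eq.mp (h1.1 i hi)
  rw [List.getD_eq_getElem _ _ h2]
  exact h _ (List.getElem_mem _)

end Lc

theorem K.qsp {KL A : List FCS.Fct} {n NX NK NP NW : ℕ} (h : ∀ X ∈ KL, NoL X.1 X.2)
    (hq : (K.dqs n NX NK NP NW).all (Lc.qok KL) = true)
    (hA : K.leqF A ((K.dqs n NX NK NP NW).map Prod.fst) = true) : ∀ X ∈ A, NoL X.1 X.2 :=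
  K.same (Lc.qs h hq) hA

end Pool.FC7
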