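import Pool.Agent.FC7.Q5O
import Pool.Agent.FC7.GrC
import Pool.Agent.FC7.Pl

/-! # Vertices with four real edges

A vertex with four real edges has no labelled edge, and the face opposite to a triangle without units
and labels has no units.  So there are no patterns with a word of length four which has a label, or the
code `0` opposite to the code of a face with units. -/

open Finset

set_option linter.unusedSectionVars false

namespace Pool.FC7

open Pool.FC6 Pool.FC6.St

/-- the codes of faces with units -/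
def uc4 (g : ℕ) : Bool := Nat.testBit
  0x60000000000000000000000000000000000000000000000000000000000000000000000000000000000000000000000000000000000000000000000000000000000000000000000000000000000000000000000000000000000000000000000000000000000000000000000000000000000000000000000000000732073207320000001201240240 g

/-- a word of length four which does not occur -/
def bw4 : List ℕ → Bool
  | [a, b, c, d] => (lS a || lS b || lS c || lS d) ||
      (((decide (a = 0) && uc4 c) || (decide (c = 0) && uc4 a)) ||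
      ((decide (b = 0) && uc4 d) || (decide (d = 0) && uc4 b)))
  | _ => false

/-- the code has units -/
def Un4 (l : ℕ) : Prop :=
  (lA l ≠ 0 ∧ lA l ≠ 3) ∨ (lK l = 0 ∧ lB l ≠ 0 ∧ lB l ≠ 3) ∨ (lK l = 0 ∧ lC l ≠ 0 ∧ lC l ≠ 3) ∨
    (lK l ≠ 0 ∧ (lB l = 1 ∨ lB l = 2))

instance (l : ℕ) : Decidable (Un4 l) := by unfold Un4; infer_instance

/-- the codes of the choices -/
def cnd4 (g : ℕ) : List ℕ :=
  if g = 65 ∨ g = 81 ∨ g = 97 then [g + 4, g + 8]
  else if g = 1085 then [21, 9, 33] else if g = 1086 then [6, 18] else [g]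

theorem uc4_tab : ∀ g < 1087, uc4 g = true →
    ((∀ l ∈ cnd4 g, Un4 l) ∧ isO g = false ∧ g ≠ 64 ∧ g ≠ 80 ∧ g ≠ 96 ∧ g ≠ 4156 ∧ g ≠ 6204) := by
  have h : (allN 1087 fun g => !uc4 g || ((cnd4 g).all (fun l => decide (Un4 l)) &&
      (!isO g && (!decide (g = 64) && (!decide (g = 80) && (!decide (g = 96) &&
      (!decide (g = 4156) && !decide (g = 6204)))))))) = true := by decide +kernel
  rw [allN_iff] at h
  intro g hg hu
  have h1 := h g hg
  rw [hu] at h1
  simpa using h1

theorem uc4_lt {g : ℕ} (h : uc4 g = true) : g < 1087 := by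
  by_contra h0
  push Not at h0
  unfold uc4 at h
  rw [Nat.testBit_lt_two_pow (i := g) (lt_of_lt_of_le (b := 2 ^ 1087) (by decide +kernel)
    (Nat.pow_le_pow_right (by norm_num) h0))] at h
  exact absurd h (by decide)

theorem chg_cnd {g l : ℕ} (h : chg g l = true) (hu : uc4 g = true) : l ∈ cnd4 g := by
  obtain ⟨-, ho, n1, n2, n3, n4, n5⟩ := uc4_tab g (uc4_lt hu) hu
  unfold chg at h
  unfold cnd4
  rw [if_neg (by tauto)] at h
  by_cases c1 : g = 65 ∨ g = 81 ∨ g = 97
  · rw [if_pos c1] at h ⊢
    simpa using h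
  rw [if_neg c1] at h ⊢
  by_cases c2 : g = 1085
  · rw [if_pos c2] at h ⊢
    simpa [or_assoc] using h
  rw [if_neg c2] at h ⊢
  by_cases c3 : g = 1086
  · rw [if_pos c3] at h ⊢
    simpa using h
  rw [if_neg c3] at h ⊢
  rw [if_neg n4, if_neg n5] at h
  unfold chl at h
  rw [ho, Bool.false_and, Bool.or_false] at h
  simpa using h

theorem chg_un {g l : ℕ} (h : chg g l = true) (hu : uc4 g = true) : Un4 l :=
  (uc4_tab g (uc4_lt hu) hu).1 l (chg_cnd h hu)

theorem chg_zero {l : ℕ} (h : chg 0 l = true) : l = 0 := by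
  unfold chg at h
  rw [if_neg (by norm_num), if_neg (by norm_num), if_neg (by norm_num), if_neg (by norm_num),
    if_neg (by norm_num), if_neg (by norm_num)] at h
  unfold chl at h
  rw [show isO 0 = false by decide, Bool.false_and, Bool.or_false] at h
  simpa using h

theorem chg_lS {g l : ℕ} (h : chg g l = true) (hs : lS g = true) : lS l = true := by
  unfold chg at h
  by_cases c0 : g = 64 ∨ g = 80 ∨ g = 96
  · exfalso
    rcases c0 with rfl | rfl | rfl <;> exact absurd hs (by decide)
  rw [if_neg c0] at h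
  by_cases c1 : g = 65 ∨ g = 81 ∨ g = 97
  · exfalso
    rcases c1 with rfl | rfl | rfl <;> exact absurd hs (by decide)
  rw [if_neg c1] at h
  by_cases c2 : g = 1085
  · rw [c2] at hs; exact absurd hs (by decide)
  rw [if_neg c2] at h
  by_cases c3 : g = 1086
  · rw [c3] at hs; exact absurd hs (by decide)
  rw [if_neg c3] at h
  by_cases c4 : g = 4156
  · rw [c4] at hs; exact absurd hs (by decide)
  rw [if_neg c4] at h
  by_cases c5 : g = 6204
  · rw [c5] at hs; exact absurd hs (by decide)
  rw [if_neg c5] at h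
  unfold chl at h
  rw [Bool.or_eq_true, Bool.and_eq_true, decide_eq_true_eq, decide_eq_true_eq] at h
  rcases h with h | ⟨ho, h⟩
  · rw [h]; exact hs
  · rw [← h] at hs ho
    unfold isO at ho
    simp only [Bool.or_eq_true, decide_eq_true_eq] at ho
    unfold lS at hs ⊢
    have e : l % 512 % 256 + 4 < 256 := by omega
    rw [Nat.testBit_eq_decide_div_mod_eq, decide_eq_true_eq] at hs ⊢
    omega

variable {D V : Type} [Fintype D] [DecidableEq V] {S : St D V} {L : D → Bool} {w : D → ℕ} {d e : D}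

/-- the cut around one vertex -/
theorem MC.one4 (h : MC 6 S L w) (h4 : S.rdeg (S.M.v d) = 4) (hr : S.real e = true)
    (he : S.M.v e = S.M.v d) : L e = false := by
  have W := h.ok.toWf
  by_contra h0
  have h1 := h.lab5 (le_refl 6) (k := e) (by simpa using h0)
    (s := fun y => decide (y = S.M.v d)) (by
      have hn : S.M.v (S.M.α e) ≠ S.M.v d := by
        rw [← he]; exact (W.real_ne e hr).symm
      show decide (S.M.v e = S.M.v d) ≠ decide (S.M.v (S.M.α e) = S.M.v d)
      rw [decide_eq_true he, decide_eq_false hn]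
      decide)
  rw [W.rc_one, h4] at h1
  omega

/-- a face with units -/
theorem IsL.unit4 {l : ℕ} (h : IsL S L d l) (hu : Un4 l) : ∃ e, S.sc.r (S.M.α d) e ∧ S.u e ≠ 0 := by
  rcases hu with ⟨a, b⟩ | ⟨k, a, b⟩ | ⟨k, a, b⟩ | ⟨k, a⟩
  · refine ⟨_, FC7.sc_nxr d, ?_⟩
    rcases h.a with h1 | h1
    · exact absurd h1 b
    · rw [h1]; exact a
  · refine ⟨_, S.sc.iseqv.refl _, ?_⟩
    rcases h.b k with h1 | h1
    · exact absurd h1 b
    · rw [h1]; exact a
  · refine ⟨_, sc_opp d, ?_⟩
    rcases h.c k with h1 | h1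
    · exact absurd h1 b
    · rw [h1]; exact a
  · have h1 := h.f k
    have h2 : fu S (S.M.σ d) ≠ 0 := by
      rcases a with a | a
      · have := (h1.1 a).1
        omega
      · have := h1.2.1 a
        omega
    by_contra h3
    push Not at h3
    refine h2 (Finset.sum_eq_zero fun e _ => ?_)
    by_cases h4 : S.sc.r (S.M.σ d) e
    · rw [if_pos h4]
      exact h3 e (S.sc.iseqv.trans (sc_sec1 d) h4)
    · exact if_neg h4

/-- the face opposite to a triangle without units and labels has no units -/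
theorem MC.opp4 (h : MC 6 S L w) (hS : IsStar S) (hd : S.real d = true)
    (h4 : S.rdeg (S.M.v d) = 4) (h0 : IsL S L d 0) {e : D}
    (he : S.sc.r (S.M.α (S.nxr (S.nxr d))) e) (hu : S.u e ≠ 0) : False := by
  have W := h.ok.toWf
  have r1 : S.real (S.M.σ d) = true := h0.solid (by decide)
  have n1 : S.nxr d = S.M.σ d := if_pos r1
  have u1 : S.u (S.M.σ d) = 0 := by
    rcases h0.a with h1 | h1
    · exact absurd h1 (by decide)
    · rw [← n1]; exact h1
  have u2 : S.u (S.M.α d) = 0 := by
    rcases h0.b (by decide) with h1 | h1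
    · exact absurd h1 (by decide)
    · exact h1
  have u3 : S.u (S.M.φ (S.M.σ d)) = 0 := by
    rcases h0.c (by decide) with h1 | h1
    · exact absurd h1 (by decide)
    · exact h1
  have o : L (S.M.φ (S.M.σ d)) = false := h0.o (by decide) (by decide)
  have rt : S.real (S.nxr d) = true := hS.nxr_real W hd
  have rt2 : S.real (S.nxr (S.nxr d)) = true := hS.nxr_real W rt
  have rφ : S.real (S.M.φ (S.M.σ d)) = true :=
    hS.two (S.M.α d) (by rw [W.real_α]; exact hd) r1
  have f3 : S.M.φ (S.M.φ (S.M.σ d)) = S.M.α d := S.M.φ3 _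
  have v1 : S.M.v (S.nxr d) = S.M.v d := v_nxr d
  have v2 : S.M.v (S.nxr (S.nxr d)) = S.M.v d := by rw [v_nxr, v_nxr]
  have key : ∀ x, S.real x = true → S.M.v x = S.M.v d → S.M.v (S.M.α x) ≠ S.M.v d :=
    fun x hx hv => by rw [← hv]; exact (W.real_ne x hx).symm
  have hsn : ∀ x, S.real x = true → S.M.v x = S.M.v d →
      decide (S.M.v x = S.M.v d) ≠ decide (S.M.v (S.M.α x) = S.M.v d) := by
    intro x hx hv
    rw [decide_eq_true hv, decide_eq_false (key x hx hv)]
    decide
  have h5 := h.opp (le_refl 6) (t := S.nxr d) (t2 := S.nxr (S.nxr d)) rt rt2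
    (h.nxr_ne (le_refl 6) hS rt).1 (by rw [v_nxr]) (FC7.sc_nxr _)
    (s := fun y => decide (y = S.M.v d))
    ⟨S.M.v d, W.real_A _ hd, decide_eq_true rfl⟩
    ⟨S.M.v (S.M.α d), W.real_A _ (by rw [W.real_α]; exact hd), decide_eq_false (key d hd rfl)⟩
    (by
      show decide (S.M.v (S.nxr d) = S.M.v d) ≠ decide (S.M.v (S.M.α (S.nxr d)) = S.M.v d)
      exact hsn _ rt v1)
    (by
      show decide (S.M.v (S.nxr d) = S.M.v d) ≠
        decide (S.M.v (S.M.α (S.nxr (S.nxr d))) = S.M.v d)
      rw [decide_eq_true v1, decide_eq_false (key _ rt2 v2)]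
      decide)
    (Or.inr ⟨?_, e, he, hu⟩)
  · rw [W.rc_one, h4] at h5
    omega
  · rw [n1]
    refine ⟨?_, ?_, ?_⟩
    · rintro x (rfl | rfl | rfl)
      · exact r1
      · exact rφ
      · rw [f3, W.real_α]; exact hd
    · rintro x (rfl | rfl | rfl)
      · exact u1
      · exact u3
      · rw [f3]; exact u2
    · rintro x (rfl | rfl | rfl) hx
      · exact absurd hx (hsn _ r1 (S.M.vσ d))
      · exact o
      · rw [f3, S.M.αα] at hx
        exact absurd hx.symm (hsn _ hd rfl)

/-- the words of length four -/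
theorem MC.bw4 (h : MC 6 S L w) (hS : IsStar S) {c c' : List ℕ} (hb : FC7.bw4 c = true)
    (hc : chgc c c' = true) (hw : IsW S L d c') : False := by
  have W := h.ok.toWf
  unfold chgc at hc
  simp only [Bool.and_eq_true, decide_eq_true_eq, List.all_eq_true, List.mem_range] at hc
  obtain ⟨hl, hc⟩ := hc
  have hlen : c.length = 4 := by
    unfold FC7.bw4 at hb
    split at hb
    · rfl
    · exact absurd hb (by decide)
  obtain ⟨a0, a1, a2, a3, rfl⟩ : ∃ a0 a1 a2 a3, c = [a0, a1, a2, a3] := by
    rcases c with _ | ⟨a0, _ | ⟨a1, _ | ⟨a2, _ | ⟨a3, _ | ⟨a4, t⟩⟩⟩⟩⟩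
    all_goals simp at hlen
    exact ⟨a0, a1, a2, a3, rfl⟩
  have h4 : S.rdeg (S.M.v d) = 4 := by rw [← hw.len, hl]; rfl
  have hr : ∀ i, S.real (S.nxr^[i] d) = true := fun i => hS.nxr_iter_real W hw.re i
  have hv : ∀ i, S.M.v (S.nxr^[i] d) = S.M.v d := fun i => v_nxr_iter i d
  have hL : ∀ i < 4, ∃ l, chg ([a0, a1, a2, a3].getD i 0) l = true ∧ IsL S L (S.nxr^[i] d) l :=
    fun i hi => ⟨_, hc i (by simpa using hi), hw.l i (by rw [hl]; simpa using hi)⟩
  -- a label
  have kL : ∀ i < 4, lS ([a0, a1, a2, a3].getD i 0) = true → False := by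
    intro i hi hs
    obtain ⟨l, h1, h2⟩ := hL i hi
    have h3 := h2.s
    rw [chg_lS h1 hs, h.one4 h4 (hr i) (hv i)] at h3
    exact absurd h3 (by decide)
  -- the opposite face
  have per : S.nxr^[4] d = d := by
    have := hS.nxr_rdeg W hw.re
    rwa [h4] at this
  have kO : ∀ i j, i < 4 → j < 4 → S.nxr^[i + 2] d = S.nxr^[j] d →
      [a0, a1, a2, a3].getD i 0 = 0 → uc4 ([a0, a1, a2, a3].getD j 0) = true → False := by
    intro i j hi hj hij h0 hu
    obtain ⟨l, h1, h2⟩ := hL i hi
    rw [h0] at h1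
    rw [chg_zero h1] at h2
    obtain ⟨l2, h5, h6⟩ := hL j hj
    obtain ⟨e, h7, h8⟩ := h6.unit4 (chg_un h5 hu)
    refine h.opp4 hS (hr i) (by rw [hv i]; exact h4) h2 (e := e) ?_ h8
    have e1 : S.nxr (S.nxr (S.nxr^[i] d)) = S.nxr^[i + 2] d := by
      rw [← Function.iterate_succ_apply' S.nxr, ← Function.iterate_succ_apply' S.nxr]
    rw [e1, hij]
    exact h7
  unfold FC7.bw4 at hb
  simp only [Bool.or_eq_true, Bool.and_eq_true, decide_eq_true_eq] at hb
  rcases hb with (((hb | hb) | hb) | hb) | ((hb | hb) | (hb | hb))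
  · exact kL 0 (by norm_num) hb
  · exact kL 1 (by norm_num) hb
  · exact kL 2 (by norm_num) hb
  · exact kL 3 (by norm_num) hb
  · exact kO 0 2 (by norm_num) (by norm_num) rfl hb.1 hb.2
  · exact kO 2 0 (by norm_num) (by norm_num) per hb.1 hb.2
  · exact kO 1 3 (by norm_num) (by norm_num) rfl hb.1 hb.2
  · refine kO 3 1 (by norm_num) (by norm_num) ?_ hb.1 hb.2
    rw [Function.iterate_succ_apply', per]
    rfl

/-- the pattern has a word of length four which does not occur -/
theorem NoG.of4 {w0 : List ℕ} {nb : List (ℕ × List ℕ)} {pl : List ℕ}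
    (hb : (FC7.bw4 w0 || nb.any fun p => FC7.bw4 p.2) = true) : NoG w0 nb pl := by
  intro D V _ _ S L w U hM hS _ _ x hx
  rw [Bool.or_eq_true, List.any_eq_true] at hb
  rcases hb with hb | ⟨p, hp, hb⟩
  · obtain ⟨w', h1, h2⟩ := hx.w
    exact hM.bw4 hS hb h1 h2
  · obtain ⟨w', h1, h2⟩ := hx.nw p hp
    exact hM.bw4 hS hb h1 h2

namespace K

/-- the codes of faces with units -/
def uc4 (g : ℕ) : Bool := tbit (nat_lit
  0x60000000000000000000000000000000000000000000000000000000000000000000000000000000000000000000000000000000000000000000000000000000000000000000000000000000000000000000000000000000000000000000000000000000000000000000000000000000000000000000000000000732073207320000001201240240) g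

theorem uc4_eq : uc4 = FC7.uc4 := by
  funext g
  show tbit _ g = Nat.testBit _ g
  rw [tbit_eq]

/-- a word of length four which does not occur -/
noncomputable def bw4 (l : List ℕ) : Bool :=
  List.rec (motive := fun _ => Bool) false
    (fun a t _ => List.rec (motive := fun _ => Bool) false
      (fun b t _ => List.rec (motive := fun _ => Bool) false
        (fun c t _ => List.rec (motive := fun _ => Bool) false
          (fun d t _ => List.rec (motive := fun _ => Bool)
            (bor (bor (bor (bor (lS a) (lS b)) (lS c)) (lS d))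
              (bor (bor (band (Nat.beq a (nat_lit 0)) (uc4 c)) (band (Nat.beq c (nat_lit 0)) (uc4 a)))
              (bor (band (Nat.beq b (nat_lit 0)) (uc4 d)) (band (Nat.beq d (nat_lit 0)) (uc4 b)))))
            (fun _ _ _ => false) t) t) t) t) l

theorem bw4_eq : bw4 = FC7.bw4 := by
  funext l
  rcases l with _ | ⟨a, _ | ⟨b, _ | ⟨c, _ | ⟨d, _ | ⟨e, t⟩⟩⟩⟩⟩
  · rfl
  · rfl
  · rfl
  · rfl
  · show bor (bor (bor (bor (lS a) (lS b)) (lS c)) (lS d))
      (bor (bor (band (Nat.beq a (nat_lit 0)) (uc4 c)) (band (Nat.beq c (nat_lit 0)) (uc4 a)))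
      (bor (band (Nat.beq b (nat_lit 0)) (uc4 d)) (band (Nat.beq d (nat_lit 0)) (uc4 b)))) = _
    rw [bor_eq, band_eq, uc4_eq, lS_eq]
    simp only [nbeq_eq]
    rfl
  · rfl

/-- the pattern has a word of length four which does not occur -/
noncomputable def b4x (X : List ℕ × List (ℕ × List ℕ)) : Bool :=
  band (bor (bw4 (cdc (Prod.fst X) (Prod.snd X)))
    (lany (cdn (Prod.fst X) (Prod.snd X)) fun p => bw4 (Prod.snd p)))
    (psn (llen (Prod.fst X)) (Prod.snd X))

/-- FACTS WITH A WORD OF LENGTH FOUR WHICH DOES NOT OCCUR -/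
theorem recD4 {l : List FCS.Fct} (h : lall l b4x = true) : ∀ X ∈ l, NoL X.1 X.2 := by
  intro X hX
  rw [lall_eq, List.all_eq_true] at h
  have h1 := h X hX
  unfold b4x at h1
  rw [band_eq, Bool.and_eq_true, bor_eq, cdc_eq, cdn_eq, psn_eq, llen_eq, lany_eq, bw4_eq] at h1
  exact NoG.toL (NoG.of4 h1.1) h1.2

end K

end Pool.FC7
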