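import Pool.Agent.FC7.DiA

/-! # The disc inside a smallest closed curve of length three, maximum degree 6

Either all closed curves of length three are facial, or there is one, `c`, with a smallest side: no
curve of length three through a vertex strictly inside of it is nonfacial. -/

open Finset

set_option linter.unusedSectionVars false

namespace Pool.FC7

open Pool.FC6 Pool.FC6.St

section map

variable {D V : Type} [Fintype D] [DecidableEq V] {M : TMap D V}

open Classical in
/-- a function on the faces which changes only at edges inside of the curve is constant outside -/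
theorem side_const {n : ℕ} [NeZero n] {c : Fin n → D} (hc : M.Curve c) {s : D → Bool}
    (hs : M.SideOf c s) {s' : D → Bool} (hφ : ∀ z, s' (M.φ z) = s' z)
    (ha : ∀ z, s z = false → s (M.α z) = false → s' (M.α z) = s' z) :
    ∀ z z', s z = false → s z' = false → s' z = s' z' := by
  obtain ⟨h, hh⟩ : ∃ h : D → ℝ, ∀ z, h z = if s z = false ∧ s' z = true then 1 else 0 :=
    ⟨_, fun _ => rfl⟩
  have hhφ : ∀ z, h (M.φ z) = h z := fun z => by rw [hh, hh, hs.φ, hφ]
  have hbal : ∀ x : V, ∑ z, (if M.v z = x then h z - h (M.α z) else 0) = 0 := by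
    intro x
    have e1 : ∑ z, (if M.v z = x then h z - h (M.α z) else 0) =
        ∑ z, (if M.v z = x then h z else 0) - ∑ z, (if M.v z = x then h (M.α z) else 0) := by
      rw [← Finset.sum_sub_distrib]
      refine Finset.sum_congr rfl fun z _ => ?_
      split_ifs <;> ring
    have e2 : ∑ z, (if M.v z = x then h (M.α z) else 0) = ∑ z, (if M.v z = x then h z else 0) := by
      rw [← M.sum_α fun z => if M.v z = x then h (M.α z) else 0,
        ← M.sum_φ fun z => if M.v z = x then h z else 0]
      refine Finset.sum_congr rfl fun z _ => ?_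
      rw [M.αα, M.vφ, hhφ]
    rw [e1, e2, sub_self]
  -- the outer values along the curve
  have hst : ∀ i, s' (M.α (c (i + 1))) = s' (M.α (c i)) := by
    intro i
    have h0 := hbal (M.v (c (i + 1)))
    have hne : c (i + 1) ≠ M.α (c i) := fun h => hc.ne i (i + 1) h.symm
    have e1 : ∑ z, (if M.v z = M.v (c (i + 1)) then h z - h (M.α z) else 0) =
        ∑ z, ((if z = c (i + 1) then h z - h (M.α z) else 0) +
          (if z = M.α (c i) then h z - h (M.α z) else 0)) := by
      refine Finset.sum_congr rfl fun z _ => ?_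
      by_cases hz : M.v z = M.v (c (i + 1))
      · rw [if_pos hz]
        by_cases h1 : z = c (i + 1)
        · rw [if_pos h1, if_neg (fun h2 => hne (h1.symm.trans h2)), add_zero]
        · by_cases h2 : z = M.α (c i)
          · rw [if_neg h1, if_pos h2, zero_add]
          · rw [if_neg h1, if_neg h2, add_zero]
            have h3 : s (M.α z) = s z := by
              refine hs.o z (fun j hj => h1 ?_) (fun j hj => h2 ?_)
              · rw [hj] at hz
                rw [hj, hc.inj _ _ hz]
              · rw [hj, hc.nx] at hz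
                have := hc.inj _ _ hz
                rw [hj, add_right_cancel this]
            rw [hh, hh, h3]
            cases h4 : s z
            · rw [ha z h4 (h3.trans h4), sub_self]
            · simp
      · rw [if_neg hz, if_neg, if_neg, add_zero]
        · rintro rfl
          exact hz (hc.nx i)
        · rintro rfl
          exact hz rfl
    rw [e1, Finset.sum_add_distrib, Finset.sum_ite_eq' Finset.univ (c (i + 1)),
      Finset.sum_ite_eq' Finset.univ (M.α (c i)), if_pos (Finset.mem_univ _),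
      if_pos (Finset.mem_univ _), hh, hh, hh, hh, M.αα, hs.t, hs.f, hs.t, hs.f] at h0
    cases h1 : s' (M.α (c (i + 1))) <;> cases h2 : s' (M.α (c i)) <;> rw [h1, h2] at h0 <;>
      simp at h0 ⊢
  have hall : ∀ i, s' (M.α (c i)) = s' (M.α (c 0)) := by
    have h1 : ∀ k : ℕ, s' (M.α (c (Fin.ofNat n k))) = s' (M.α (c 0)) := by
      intro k
      induction k with
      | zero => rfl
      | succ k ih =>
        rw [← ih, ← hst (Fin.ofNat n k)]
        congr 3
        ext
        simp [Fin.ofNat, Fin.val_add]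
    intro i
    rw [← h1 i.1]
    congr 3
    ext
    simp [Fin.ofNat, Nat.mod_eq_of_lt i.2]
  obtain ⟨b, hb0, hb1⟩ : ∃ b : Bool → ℝ, b false = 0 ∧ b true = 1 :=
    ⟨fun x => if x = true then 1 else 0, by simp, by simp⟩
  have hbi : ∀ x y : Bool, b x = b y → x = y := by
    intro x y hxy
    cases x <;> cases y
    · rfl
    · rw [hb0, hb1] at hxy; norm_num at hxy
    · rw [hb0, hb1] at hxy; norm_num at hxy
    · rfl
  obtain ⟨g, hg⟩ : ∃ g : D → Bool, ∀ z, g z = if s z = false then s' z else s' (M.α (c 0)) :=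
    ⟨_, fun _ => rfl⟩
  have hgα : ∀ z, g (M.α z) = g z := by
    intro z
    by_cases h1 : ∃ i, z = c i
    · obtain ⟨i, rfl⟩ := h1
      rw [hg, hg, hs.f, hs.t, if_pos rfl, if_neg (by decide), hall]
    · by_cases h2 : ∃ i, z = M.α (c i)
      · obtain ⟨i, rfl⟩ := h2
        rw [hg, hg, M.αα, hs.f, hs.t, if_pos rfl, if_neg (by decide)]
        exact (hall i).symm
      · push Not at h1 h2
        have h3 := hs.o z h1 h2
        rw [hg, hg, h3]
        cases h4 : s z
        · rw [if_pos rfl, if_pos rfl, ha z h4 (h3.trans h4)]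
        · rfl
  have hgc := M.conn (fun z => b (g z)) (fun z => by
    show b (g (M.φ z)) = b (g z)
    rw [hg, hg, hs.φ, hφ]) (fun z => by
    show b (g (M.α z)) = b (g z)
    rw [hgα])
  intro z z' hz hz'
  have h1 := hbi _ _ (hgc z z')
  rw [hg, hg, if_pos hz, if_pos hz'] at h1
  exact h1

end map

variable {D V : Type} [Fintype D] [DecidableEq V] {S : St D V} {L : D → Bool} {w : D → ℕ} {Δ : ℕ}

/-- a closed curve of length three with alive vertices on both sides -/
structure IsD (S : St D V) (d e e' : D) (s : D → Bool) : Prop where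
  hd : S.real d = true
  he : S.M.v e = S.M.v d
  he' : S.M.v e' = S.M.v (S.M.α d)
  hw : S.M.v (S.M.α e) = S.M.v (S.M.α e')
  hc : S.M.Curve ![d, e', S.M.α e]
  hs : S.M.SideOf ![d, e', S.M.α e] s
  ne : ∀ b, ∃ z, S.M.v z ∈ S.A ∧ S.Off ![d, e', S.M.α e] z ∧ s z = b
  nf : ¬ ((e = S.M.σ d ∧ S.M.σ e' = S.M.α d) ∨ (S.M.σ e = d ∧ e' = S.M.σ (S.M.α d)))

theorem off3 {d e e' z : D} (he' : S.M.v e' = S.M.v (S.M.α d)) :
    S.Off ![d, e', S.M.α e] z ↔ S.M.v z ≠ S.M.v d ∧ S.M.v z ≠ S.M.v (S.M.α d) ∧
      S.M.v z ≠ S.M.v (S.M.α e) := by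
  constructor
  · intro h
    refine ⟨h 0, ?_, h 2⟩
    rw [← he']
    exact h 1
  · rintro ⟨h1, h2, h3⟩ i
    fin_cases i
    · exact h1
    · show S.M.v z ≠ S.M.v e'
      rw [he']; exact h2
    · exact h3

theorem IsD.symm {d e e' : D} {s : D → Bool} (h : IsD S d e e' s)
    (hra : ∀ d, S.real (S.M.α d) = S.real d) : IsD S (S.M.α d) e' e (fun z => !s z) where
  hd := by rw [hra]; exact h.hd
  he := h.he'
  he' := by rw [S.M.αα]; exact h.he
  hw := h.hw.symm
  hc := by
    have h1 : S.M.v d ≠ S.M.v (S.M.α d) := by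
      intro h0
      have := h.hc.inj 0 1 (h0.trans h.he'.symm)
      exact absurd this (by decide)
    have h2 : S.M.v d ≠ S.M.v (S.M.α e) := by
      intro h0
      have := h.hc.inj 0 2 h0
      exact absurd this (by decide)
    have h3 : S.M.v (S.M.α d) ≠ S.M.v (S.M.α e) := by
      intro h0
      have := h.hc.inj 1 2 (h.he'.trans h0)
      exact absurd this (by decide)
    exact curve3 h.he' (by rw [S.M.αα]; exact h.he) h.hw.symm (by rw [S.M.αα]; exact h1.symm)
      (by rw [← h.hw]; exact h3) (by rw [S.M.αα, ← h.hw]; exact h2)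
  hs := by
    have hT := SideOf.tr h.hs
    refine ⟨fun x => ?_, fun i => ?_, fun i => ?_, fun x h1 h2 => ?_⟩
    · show (!s (S.M.φ x)) = !s x
      rw [hT.φ]
    · fin_cases i
      · show (!s (S.M.α d)) = true
        rw [hT.b]; rfl
      · show (!s e) = true
        rw [hT.b1]; rfl
      · show (!s (S.M.α e')) = true
        rw [hT.b2]; rfl
    · fin_cases i
      · show (!s (S.M.α (S.M.α d))) = false
        rw [S.M.αα, hT.a]; rfl
      · show (!s (S.M.α e)) = false
        rw [hT.a1]; rfl
      · show (!s (S.M.α (S.M.α e'))) = false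
        rw [S.M.αα, hT.a2]; rfl
    · show (!s (S.M.α x)) = !s x
      have k1 : x ≠ S.M.α d := h1 0
      have k2 : x ≠ e := h1 1
      have k3 : x ≠ S.M.α e' := h1 2
      have k4 : x ≠ S.M.α (S.M.α d) := h2 0
      have k5 : x ≠ S.M.α e := h2 1
      have k6 : x ≠ S.M.α (S.M.α e') := h2 2
      rw [S.M.αα] at k4 k6
      rw [hT.o x k4 k1 k2 k5 k6 k3]
  ne b := by
    obtain ⟨z, h1, h2, h3⟩ := h.ne (!b)
    refine ⟨z, h1, ?_, ?_⟩
    · rw [off3 h.he'] at h2
      rw [off3 (by rw [S.M.αα]; exact h.he), S.M.αα, ← h.hw]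
      exact ⟨h2.2.1, h2.1, h2.2.2⟩
    · show (!s z) = b
      rw [h3]; simp
  nf := by
    rw [S.M.αα]
    rintro (⟨h1, h2⟩ | ⟨h1, h2⟩)
    · exact h.nf (Or.inr ⟨h2, h1⟩)
    · exact h.nf (Or.inl ⟨h2, h1⟩)

/-- the vertices inside -/
noncomputable def ins (S : St D V) (d e e' : D) (s : D → Bool) : Finset V :=
  S.A.filter fun x => S.sd ![d, e', S.M.α e] s true x = true

/-- a curve through a vertex inside has a side contained in the inside -/
theorem IsD.lt (h : Rg S) (hS : IsStar S) (W : Wf Δ S L w) (hΔ : Δ ≤ 7) {d e e' : D}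
    {s : D → Bool} (hD : IsD S d e e' s) {d1 e1 e1' : D} {s1 : D → Bool}
    (hD1 : IsD S d1 e1 e1' s1) (hv : S.M.v d1 ∈ ins S d e e' s) :
    ∃ d2 e2 e2' s2, IsD S d2 e2 e2' s2 ∧ (ins S d2 e2 e2' s2).card < (ins S d e e' s).card := by
  classical
  obtain ⟨hvA, hvs⟩ := Finset.mem_filter.1 hv
  have hvs' : ∃ z, S.M.v z = S.M.v d1 ∧ S.Off ![d, e', S.M.α e] z ∧ s z = true := by
    unfold St.sd at hvs
    exact of_decide_eq_true hvs
  obtain ⟨z0, k1, k2, k3⟩ := hvs'
  have hoff1 : S.Off ![d, e', S.M.α e] d1 := fun i => by rw [← k1]; exact k2 i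
  have sd1 : s d1 = true := by rw [← k3]; exact hD.hs.vert hD.hc hoff1 k1.symm
  have soff : ∀ z, S.Off ![d, e', S.M.α e] z → s (S.M.α z) = s z := fun z hz =>
    off_side hD.hc hD.hs hz
  have sαd1 : s (S.M.α d1) = true := by rw [soff _ hoff1, sd1]
  have hoffe1 : S.Off ![d, e', S.M.α e] e1 := fun i => by rw [hD1.he]; exact hoff1 i
  have se1 : s e1 = true := by rw [← sd1]; exact hD.hs.vert hD.hc hoffe1 hD1.he
  have sαe1 : s (S.M.α e1) = true := by rw [soff _ hoffe1, se1]
  have hyA : S.M.v (S.M.α d1) ∈ S.A := h.real_A _ (by rw [h.real_α]; exact hD1.hd)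
  -- the third edge has a side inside
  have third : ¬ (s e1' = false ∧ s (S.M.α e1') = false) := by
    rintro ⟨a1, a2⟩
    by_cases hy : S.Off ![d, e', S.M.α e] e1'
    · have : s e1' = s (S.M.α d1) := hD.hs.vert hD.hc hy hD1.he'
      rw [a1, sαd1] at this
      exact absurd this (by decide)
    · by_cases hz : S.Off ![d, e', S.M.α e] (S.M.α e1')
      · have : s (S.M.α e1') = s (S.M.α e1) := hD.hs.vert hD.hc hz hD1.hw.symm
        rw [a2, sαe1] at this
        exact absurd this (by decide)
      · unfold Off at hy hz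
        push Not at hy hz
        obtain ⟨i, hi⟩ := hy
        obtain ⟨j, hj⟩ := hz
        have hN := h.n2 hS W hΔ _ hyA
        have hij : i ≠ j := by
          rintro rfl
          have h1 : S.M.v e1' = S.M.v (S.M.α e1') := hi.trans hj.symm
          rw [← hD1.hw] at h1
          have := hD1.hc.inj 1 2 h1
          exact absurd this (by decide)
        have hor : j = i + 1 ∨ i = j + 1 := by
          revert hij
          fin_cases i <;> fin_cases j <;> decide
        rcases hor with rfl | rfl
        · have h2 : e1' = ![d, e', S.M.α e] i := by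
            refine hN _ _ hD1.he' (hi.symm.trans hD1.he') ?_
            rw [hj, hD.hc.nx]
          rw [h2] at a1
          have := hD.hs.t i
          rw [a1] at this
          exact absurd this (by decide)
        · have h2 : e1' = S.M.α (![d, e', S.M.α e] j) := by
            refine hN _ _ hD1.he' ?_ ?_
            · rw [hD.hc.nx, ← hi]; exact hD1.he'
            · rw [hj, S.M.αα]
          rw [h2, S.M.αα] at a2
          have := hD.hs.t j
          rw [a2] at this
          exact absurd this (by decide)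
  have hT1 := SideOf.tr hD1.hs
  have hcon := side_const hD.hc hD.hs (s' := s1) hT1.φ (by
    intro z b1 b2
    refine hT1.o z ?_ ?_ ?_ ?_ ?_ ?_
    · rintro rfl; rw [sd1] at b1; exact absurd b1 (by decide)
    · rintro rfl; rw [sαd1] at b1; exact absurd b1 (by decide)
    · rintro rfl; rw [se1] at b1; exact absurd b1 (by decide)
    · rintro rfl; rw [sαe1] at b1; exact absurd b1 (by decide)
    · rintro rfl; exact third ⟨b1, b2⟩
    · rintro rfl; rw [S.M.αα] at b2; exact third ⟨b2, b1⟩)
  have sα : s (S.M.α d) = false := hD.hs.f 0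
  -- the side which contains the outside is the side `false`
  obtain ⟨d2, e2, e2', s2, hD2, hout, hon⟩ : ∃ d2 e2 e2' s2, IsD S d2 e2 e2' s2 ∧
      (∀ z, s z = false → s2 z = false) ∧ ¬ S.Off ![d2, e2', S.M.α e2] d1 := by
    cases hb : s1 (S.M.α d)
    · exact ⟨d1, e1, e1', s1, hD1, fun z hz => by rw [hcon z _ hz sα, hb], fun h0 => h0 0 rfl⟩
    · refine ⟨S.M.α d1, e1', e1, fun z => !s1 z, hD1.symm h.real_α, fun z hz => ?_, fun h0 => ?_⟩
      · show (!s1 z) = false
        rw [hcon z _ hz sα, hb]; rfl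
      · exact h0 1 hD1.he.symm
  refine ⟨d2, e2, e2', s2, hD2, Finset.card_lt_card ⟨fun x hx => ?_, fun hsub => ?_⟩⟩
  · obtain ⟨hxA, hxs⟩ := Finset.mem_filter.1 hx
    have hxs' : ∃ z, S.M.v z = x ∧ S.Off ![d2, e2', S.M.α e2] z ∧ s2 z = true := by
      unfold St.sd at hxs
      exact of_decide_eq_true hxs
    obtain ⟨z, c1, c2, c3⟩ := hxs'
    have hoz : S.Off ![d, e', S.M.α e] z := by
      intro i hi
      have q1 : S.M.v (S.M.α (![d, e', S.M.α e] (i - 1))) = S.M.v z := by
        rw [hD.hc.nx, sub_add_cancel]; exact hi.symm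
      have q2 : s (S.M.α (![d, e', S.M.α e] (i - 1))) = false := hD.hs.f _
      have q3 := hout _ q2
      have q4 : s2 z = s2 (S.M.α (![d, e', S.M.α e] (i - 1))) := hD2.hs.vert hD2.hc c2 q1.symm
      rw [c3, q3] at q4
      exact absurd q4 (by decide)
    have hsz : s z = true := by
      cases h0 : s z
      · rw [hout z h0] at c3
        exact absurd c3 (by decide)
      · rfl
    refine Finset.mem_filter.2 ⟨hxA, ?_⟩
    rw [← c1]
    exact (sd_off hD.hc hD.hs hoz).2 hsz
  · have h1 := hsub hv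
    have h2 := (Finset.mem_filter.1 h1).2
    rw [sd_on hon] at h2
    exact absurd h2 (by decide)

/-- either all closed curves of length three are facial, or there is a smallest disc -/
theorem exists_disc (h : Rg S) (hS : IsStar S) (W : Wf Δ S L w) (hΔ : Δ ≤ 7) :
    (∀ d, S.real d = true → Fc3 S d) ∨ ∃ d e e' s, IsD S d e e' s ∧
      ∀ d1, S.real d1 = true → S.M.v d1 ∈ ins S d e e' s → Fc3 S d1 := by
  classical
  by_cases hall : ∀ d, S.real d = true → Fc3 S d
  · exact Or.inl hall
  right
  have mk : ∀ d, S.real d = true → ¬ Fc3 S d → ∃ e e' s, IsD S d e e' s := by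
    intro d hd hn
    unfold Fc3 at hn
    push Not at hn
    obtain ⟨e, e', he, he', hw, hn⟩ := hn
    have hnf : ¬ ((e = S.M.σ d ∧ S.M.σ e' = S.M.α d) ∨ (S.M.σ e = d ∧ e' = S.M.σ (S.M.α d))) := by
      rintro (⟨h1, h2⟩ | ⟨h1, h2⟩)
      · exact hn.1 h1 h2
      · exact hn.2 h1 h2
    obtain ⟨hc, hside⟩ := h.two_sides hS W hΔ hd he he' hw hnf
    obtain ⟨s, hs⟩ := hc.side
    exact ⟨e, e', s, hd, he, he', hw, hc, hs, hside s hs, hnf⟩
  push Not at hall
  obtain ⟨d, hd, hn⟩ := hall
  obtain ⟨e, e', s, hD⟩ := mk d hd hn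
  let P : ℕ → Prop := fun n => ∃ d e e' s, IsD S d e e' s ∧ (ins S d e e' s).card = n
  have hP : ∃ n, P n := ⟨_, d, e, e', s, hD, rfl⟩
  obtain ⟨d, e, e', s, hD, hcard⟩ := Nat.find_spec hP
  refine ⟨d, e, e', s, hD, fun d1 hd1 hv1 => ?_⟩
  by_contra hn1
  obtain ⟨e1, e1', s1, hD1⟩ := mk d1 hd1 hn1
  obtain ⟨d2, e2, e2', s2, hD2, hlt⟩ := hD.lt h hS W hΔ hD1 hv1
  rw [hcard] at hlt
  exact Nat.find_min hP hlt ⟨d2, e2, e2', s2, hD2, rfl⟩

end Pool.FC7
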