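import Pool.Agent.FC7.DiB

/-! # Euler's formula in the disc, maximum degree 6 -/

open Finset

set_option linter.unusedSectionVars false

namespace Pool.FC7

open Pool.FC6 Pool.FC6.St

variable {D V : Type} [Fintype D] [DecidableEq V] {S : St D V} {L : D → Bool} {w : D → ℕ} {Δ : ℕ}

/-- the number of virtual darts (gap corners) at `x` -/
def vdeg (S : St D V) (x : V) : ℕ := ∑ d, if S.M.v d = x ∧ S.real d = false then 1 else 0

/-- the number of real darts from `x` to `T` -/
def nul (S : St D V) (T : Finset V) (x : V) : ℕ :=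
  ∑ d, if S.M.v d = x ∧ (S.real d = true ∧ S.M.v (S.M.α d) ∈ T) then 1 else 0

theorem sum_at (S : St D V) (T : Finset V) (P : D → Prop) [DecidablePred P] :
    ∑ x ∈ T, ∑ d, (if S.M.v d = x ∧ P d then 1 else 0) =
      ∑ d, if S.M.v d ∈ T ∧ P d then 1 else 0 := by
  rw [Finset.sum_comm]
  refine Finset.sum_congr rfl fun d _ => ?_
  by_cases hP : P d
  · simp only [hP, and_true]
    rw [Finset.sum_ite_eq T (S.M.v d)]
  · simp [hP]

/-- the degree of a hub is at least 4 -/
theorem Rg.hub4 (h : Rg S) (hS : IsStar S) (W : Wf Δ S L w) {g : D} (hg : S.M.v g ∉ S.A) :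
    4 ≤ S.nd g := by
  have h1 := hS.csz_star W hg
  have hr : S.real g = false := by
    cases h0 : S.real g
    · rfl
    · exact absurd (h.real_A g h0) hg
  have h2 := hS.csz_ne3 W hr
  have h3 := csz_ge3 h.sim (fun x hx => h.deg4 hx (W.ne x)) h.toGd (hS.φdead W hg).2.1
  rw [← csz_congr (S := S) (d := g) (fun t ht => (ht.1 g).symm)] at h3
  omega

/-- the vertices on the curve -/
def tee (S : St D V) (d e : D) : Finset V :=
  S.A.filter fun x => x = S.M.v d ∨ x = S.M.v (S.M.α d) ∨ x = S.M.v (S.M.α e)

theorem tee_card (d e : D) : (tee S d e).card ≤ 3 := by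
  refine le_trans (Finset.card_le_card (t := {S.M.v d, S.M.v (S.M.α d), S.M.v (S.M.α e)})
    fun x hx => ?_) Finset.card_le_three
  have := (Finset.mem_filter.1 hx).2
  simp only [Finset.mem_insert, Finset.mem_singleton]
  exact this

section

variable {d e e' : D} {s : D → Bool}

theorem mem_tee (he' : S.M.v e' = S.M.v (S.M.α d)) {z : D} :
    S.M.v z ∈ tee S d e ↔ S.M.v z ∈ S.A ∧ ¬ S.Off ![d, e', S.M.α e] z := by
  rw [off3 he']
  unfold tee
  rw [Finset.mem_filter]
  tauto

theorem IsD.mem_ins (hD : IsD S d e e' s) {z : D} :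
    S.M.v z ∈ ins S d e e' s ↔ S.M.v z ∈ S.A ∧ S.Off ![d, e', S.M.α e] z ∧ s z = true := by
  unfold ins
  rw [Finset.mem_filter]
  constructor
  · rintro ⟨h1, h2⟩
    have h3 : S.Off ![d, e', S.M.α e] z := by
      by_contra hn
      rw [sd_on hn] at h2
      exact absurd h2 (by decide)
    exact ⟨h1, h3, (sd_off hD.hc hD.hs h3).1 h2⟩
  · rintro ⟨h1, h2, h3⟩
    exact ⟨h1, (sd_off hD.hc hD.hs h2).2 h3⟩

theorem IsD.nb (hD : IsD S d e e' s) (h : Rg S) {z : D} (hz : S.real z = true)
    (hv : S.M.v z ∈ ins S d e e' s) :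
    S.M.v (S.M.α z) ∈ ins S d e e' s ∨ S.M.v (S.M.α z) ∈ tee S d e := by
  obtain ⟨_, h2, h3⟩ := hD.mem_ins.1 hv
  have h4 : S.M.v (S.M.α z) ∈ S.A := h.real_A _ (by rw [h.real_α]; exact hz)
  by_cases h5 : S.Off ![d, e', S.M.α e] (S.M.α z)
  · left
    exact hD.mem_ins.2 ⟨h4, h5, by rw [off_side hD.hc hD.hs h2, h3]⟩
  · right
    exact (mem_tee hD.he').2 ⟨h4, h5⟩

/-- virtual darts at the curve, inside -/
def PB (S : St D V) (d e e' : D) (s : D → Bool) (z : D) : Prop :=
  S.real z = false ∧ s z = true ∧ ¬ S.Off ![d, e', S.M.α e] z ∧ S.M.v z ∈ S.A ∧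
    S.Off ![d, e', S.M.α e] (S.M.α z)

/-- darts at the hub on the curve, inside -/
def PP (S : St D V) (d e e' : D) (s : D → Bool) (z : D) : Prop :=
  s z = true ∧ ¬ S.Off ![d, e', S.M.α e] z ∧ S.M.v z ∉ S.A ∧ z ≠ S.M.α e

open Classical in
/-- Euler's formula inside of the curve -/
theorem IsD.count (hD : IsD S d e e' s) (h : Rg S) (hS : IsStar S) (W : Wf Δ S L w) :
    2 * ∑ x ∈ ins S d e e' s, S.rdeg x + ∑ x ∈ ins S d e e' s, vdeg S x +
      2 * ∑ x ∈ ins S d e e' s, nul S (tee S d e) x +
      (∑ z, if PB S d e e' s z then 1 else 0) + 2 * (∑ z, if PP S d e e' s z then 1 else 0) ≤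
      12 * (ins S d e e' s).card := by
  have he' := hD.he'
  have hU := fun z => hD.mem_ins (z := z)
  have hT := fun z => mem_tee (S := S) (e := e) he' (z := z)
  have ho := fun z => off3 (S := S) (e := e) (z := z) he'
  have hside : ∀ z, S.Off ![d, e', S.M.α e] z → s (S.M.α z) = s z := fun z hz =>
    off_side hD.hc hD.hs hz
  have hTr := SideOf.tr hD.hs
  have hxA : S.M.v d ∈ S.A := h.real_A _ hD.hd
  have hyA : S.M.v (S.M.α d) ∈ S.A := h.real_A _ (by rw [h.real_α]; exact hD.hd)
  -- the sums
  have eR : ∑ x ∈ ins S d e e' s, S.rdeg x =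
      ∑ z, if S.M.v z ∈ ins S d e e' s ∧ S.real z = true then 1 else 0 := by
    unfold rdeg
    exact sum_at S _ _
  have eV : ∑ x ∈ ins S d e e' s, vdeg S x =
      ∑ z, if S.M.v z ∈ ins S d e e' s ∧ S.real z = false then 1 else 0 := by
    unfold vdeg
    exact sum_at S _ _
  have eN : ∑ x ∈ ins S d e e' s, nul S (tee S d e) x =
      ∑ z, if S.M.v z ∈ tee S d e ∧ S.real z = true ∧ S.M.v (S.M.α z) ∈ ins S d e e' s
        then 1 else 0 := by
    unfold nul
    rw [sum_at S _ (fun z => S.real z = true ∧ S.M.v (S.M.α z) ∈ tee S d e),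
      ← sum_α_nat S.M (fun z => if S.M.v z ∈ tee S d e ∧ S.real z = true ∧
        S.M.v (S.M.α z) ∈ ins S d e e' s then 1 else 0)]
    refine Finset.sum_congr rfl fun z _ => ?_
    rw [S.M.αα, h.real_α]
    exact if_congr (by tauto) rfl rfl
  -- the hubs inside
  obtain ⟨KF, hKF⟩ : ∃ KF : Finset D, KF = Finset.univ.filter fun z => s z = true ∧
    S.Off ![d, e', S.M.α e] z ∧ S.M.v z ∉ S.A := ⟨_, rfl⟩
  have mKF : ∀ z, z ∈ KF ↔ s z = true ∧ S.Off ![d, e', S.M.α e] z ∧ S.M.v z ∉ S.A := by
    intro z
    rw [hKF, Finset.mem_filter]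
    simp
  have hH : 4 * (KF.image S.M.v).card ≤ KF.card := by
    rw [Finset.card_eq_sum_card_image S.M.v KF, mul_comm, ← smul_eq_mul]
    refine Finset.card_nsmul_le_sum _ _ _ fun b hb => ?_
    obtain ⟨z0, hz0, rfl⟩ := Finset.mem_image.1 hb
    obtain ⟨k1, k2, k3⟩ := (mKF z0).1 hz0
    refine le_trans (h.hub4 hS W k3) ?_
    unfold St.nd
    refine Finset.card_le_card fun z hz => ?_
    rw [Finset.mem_filter] at hz ⊢
    have k4 : S.Off ![d, e', S.M.α e] z := fun i => by rw [hz.2]; exact k2 i
    refine ⟨(mKF z).2 ⟨?_, k4, by rw [hz.2]; exact k3⟩, hz.2⟩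
    rw [hD.hs.vert hD.hc k4 hz.2, k1]
  have eK : KF.card = ∑ z, if S.M.α z ∈ KF then 1 else 0 := by
    rw [sum_α_nat S.M (fun z => if z ∈ KF then 1 else 0), ← Finset.card_filter]
    congr 1
    ext z
    simp
  have hK : KF.card ≤ (∑ z, if S.M.v z ∈ ins S d e e' s ∧ S.real z = false then 1 else 0) +
      ∑ z, if PB S d e e' s z then 1 else 0 := by
    rw [eK, ← Finset.sum_add_distrib]
    refine Finset.sum_le_sum fun z _ => ?_
    by_cases hz : S.M.α z ∈ KF
    · rw [if_pos hz]
      obtain ⟨k1, k2, k3⟩ := (mKF _).1 hz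
      have k4 : S.M.v z ∈ S.A := by
        have := hS.alivev W k3
        rwa [S.M.αα] at this
      have k5 : S.real z = false := by
        cases h0 : S.real z
        · rfl
        · exact absurd (h.real_A _ (by rw [h.real_α]; exact h0)) k3
      have k6 : s z = true := by
        have := hside _ k2
        rw [S.M.αα] at this
        rw [this, k1]
      by_cases k7 : S.Off ![d, e', S.M.α e] z
      · rw [if_pos ⟨(hU z).2 ⟨k4, k7, k6⟩, k5⟩]
        omega
      · rw [if_pos (show PB S d e e' s z from ⟨k5, k6, k7, k4, k2⟩)]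
        omega
    · rw [if_neg hz]; exact Nat.zero_le _
  -- Euler's formula
  have hE : (∑ z, if s z = true then 1 else 0) + 15 ≤
      6 * (ins S d e e' s).card + 6 * (KF.image S.M.v).card + 18 := by
    have e1 := hD.hs.euler hD.hc
    have e2 := hD.hs.T_im hD.hc
    have e3 : (Finset.univ.image (hD.hs.P hD.hc).v).card =
        ((Finset.univ.filter fun x => s x = true).image S.M.v).card := congrArg Finset.card e2
    have e4 : Fintype.card (TMap.DI s) = (∑ z, if s z = true then 1 else 0) + 3 := by
      rw [Fintype.card_sum, Fintype.card_fin, Fintype.card_subtype, Finset.card_filter]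
    have e5 : ((Finset.univ.filter fun x => s x = true).image S.M.v).card ≤
        (ins S d e e' s).card + (KF.image S.M.v).card + 3 := by
      refine le_trans (Finset.card_le_card (t := (ins S d e e' s ∪ KF.image S.M.v) ∪
        {S.M.v d, S.M.v (S.M.α d), S.M.v (S.M.α e)}) fun x hx => ?_) ?_
      · obtain ⟨z, hz, rfl⟩ := Finset.mem_image.1 hx
        have hz' := (Finset.mem_filter.1 hz).2
        by_cases k1 : S.Off ![d, e', S.M.α e] z
        · by_cases k2 : S.M.v z ∈ S.A
          · exact Finset.mem_union_left _ (Finset.mem_union_left _ ((hU z).2 ⟨k2, k1, hz'⟩))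
          · exact Finset.mem_union_left _ (Finset.mem_union_right _
              (Finset.mem_image_of_mem _ ((mKF z).2 ⟨hz', k1, k2⟩)))
        · refine Finset.mem_union_right _ ?_
          rw [ho] at k1
          simp only [Finset.mem_insert, Finset.mem_singleton]
          tauto
      · refine le_trans (Finset.card_union_le _ _) ?_
        have := Finset.card_union_le (ins S d e e' s) (KF.image S.M.v)
        have := Finset.card_le_three (a := S.M.v d) (b := S.M.v (S.M.α d)) (c := S.M.v (S.M.α e))
        omega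
    rw [e3, e4] at e1
    omega
  -- the darts inside
  have hn : (∑ z, if S.M.v z ∈ ins S d e e' s ∧ S.real z = true then 1 else 0) +
      (∑ z, if S.M.v z ∈ ins S d e e' s ∧ S.real z = false then 1 else 0) + KF.card + 3 +
      (∑ z, if S.M.v z ∈ tee S d e ∧ S.real z = true ∧ S.M.v (S.M.α z) ∈ ins S d e e' s
        then 1 else 0) + (∑ z, if PB S d e e' s z then 1 else 0) +
      (∑ z, if PP S d e e' s z then 1 else 0) ≤ ∑ z, if s z = true then 1 else 0 := by
    have e1 : KF.card = ∑ z, if z ∈ KF then 1 else 0 := by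
      rw [← Finset.card_filter]
      congr 1
      ext z
      simp
    have e2 : (3 : ℕ) = (∑ z, if z = d then 1 else 0) + (∑ z, if z = e' then 1 else 0) +
        ∑ z, if z = S.M.α e then 1 else 0 := by
      rw [Finset.sum_ite_eq' Finset.univ d, Finset.sum_ite_eq' Finset.univ e',
        Finset.sum_ite_eq' Finset.univ (S.M.α e), if_pos (Finset.mem_univ _),
        if_pos (Finset.mem_univ _), if_pos (Finset.mem_univ _)]
    rw [e1, e2, ← Finset.sum_add_distrib, ← Finset.sum_add_distrib, ← Finset.sum_add_distrib,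
      ← Finset.sum_add_distrib, ← Finset.sum_add_distrib, ← Finset.sum_add_distrib,
      ← Finset.sum_add_distrib, ← Finset.sum_add_distrib]
    refine Finset.sum_le_sum fun z _ => ?_
    have n1 : S.M.v d ≠ S.M.v e' := fun h0 => absurd (hD.hc.inj 0 1 h0) (by decide)
    have n2 : S.M.v d ≠ S.M.v (S.M.α e) := fun h0 => absurd (hD.hc.inj 0 2 h0) (by decide)
    have n3 : S.M.v e' ≠ S.M.v (S.M.α e) := fun h0 => absurd (hD.hc.inj 1 2 h0) (by decide)
    have od : ¬ S.Off ![d, e', S.M.α e] d := fun h0 => h0 0 rfl
    have oe' : ¬ S.Off ![d, e', S.M.α e] e' := fun h0 => h0 1 rfl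
    have oe : ¬ S.Off ![d, e', S.M.α e] (S.M.α e) := fun h0 => h0 2 rfl
    have oαd : ¬ S.Off ![d, e', S.M.α e] (S.M.α d) := fun h0 => h0 1 he'.symm
    have oαe' : ¬ S.Off ![d, e', S.M.α e] (S.M.α e') := fun h0 => h0 2 hD.hw.symm
    have oe0 : ¬ S.Off ![d, e', S.M.α e] e := fun h0 => h0 0 hD.he
    cases hsz : s z
    · -- nothing on the other side
      rw [if_neg, if_neg, if_neg, if_neg, if_neg, if_neg, if_neg, if_neg, if_neg]
      · exact Nat.zero_le _
      · rintro ⟨h1, _⟩; rw [hsz] at h1; exact absurd h1 (by decide)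
      · rintro ⟨_, h1, _⟩; rw [hsz] at h1; exact absurd h1 (by decide)
      · rintro ⟨_, _, h1⟩
        obtain ⟨_, k2, k3⟩ := (hU _).1 h1
        have := hside _ k2
        rw [S.M.αα, k3, hsz] at this
        exact absurd this (by decide)
      · rintro rfl; rw [hTr.a1] at hsz; exact absurd hsz (by decide)
      · rintro rfl; rw [hTr.a2] at hsz; exact absurd hsz (by decide)
      · rintro rfl; rw [hTr.a] at hsz; exact absurd hsz (by decide)
      · intro h1; rw [((mKF z).1 h1).1] at hsz; exact absurd hsz (by decide)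
      · rintro ⟨h1, _⟩; rw [((hU z).1 h1).2.2] at hsz; exact absurd hsz (by decide)
      · rintro ⟨h1, _⟩; rw [((hU z).1 h1).2.2] at hsz; exact absurd hsz (by decide)
    · rw [if_pos (rfl : true = true)]
      by_cases k1 : S.Off ![d, e', S.M.α e] z
      · rw [if_neg (c := z = d), if_neg (c := z = e'), if_neg (c := z = S.M.α e),
          if_neg (c := S.M.v z ∈ tee S d e ∧ _), if_neg (c := PB S d e e' s z),
          if_neg (c := PP S d e e' s z)]
        · by_cases k2 : S.M.v z ∈ S.A
          · rw [if_neg (c := z ∈ KF) (fun h0 => ((mKF z).1 h0).2.2 k2)]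
            cases S.real z
            · rw [if_neg (fun h0 => absurd h0.2 (by decide))]
              split_ifs <;> omega
            · rw [if_neg (c := _ ∧ true = false) (fun h0 => absurd h0.2 (by decide))]
              split_ifs <;> omega
          · rw [if_neg (fun h0 => k2 ((hU z).1 h0.1).1), if_neg (fun h0 => k2 ((hU z).1 h0.1).1)]
            split_ifs <;> omega
        · exact fun h0 => h0.2.1 k1
        · exact fun h0 => h0.2.2.1 k1
        · exact fun h0 => ((hT z).1 h0.1).2 k1
        · rintro rfl; exact oe k1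
        · rintro rfl; exact oe' k1
        · rintro rfl; exact od k1
      · have u1 : ¬ S.M.v z ∈ ins S d e e' s := fun h0 => k1 ((hU z).1 h0).2.1
        rw [if_neg (fun h0 => u1 h0.1), if_neg (fun h0 => u1 h0.1),
          if_neg (c := z ∈ KF) (fun h0 => k1 ((mKF z).1 h0).2.1)]
        by_cases c1 : z = d
        · have q1 : ¬ (S.M.v z ∈ tee S d e ∧ S.real z = true ∧
              S.M.v (S.M.α z) ∈ ins S d e e' s) := by
            intro h0
            have := ((hU _).1 h0.2.2).2.1
            rw [c1] at this
            exact oαd this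
          have q2 : ¬ PB S d e e' s z := by
            intro h0
            have := h0.1
            rw [c1, hD.hd] at this
            exact absurd this (by decide)
          have q3 : ¬ PP S d e e' s z := fun h0 => h0.2.2.1 (by rw [c1]; exact hxA)
          rw [if_pos c1, if_neg (c := z = e') (fun h0 => n1 (by rw [← h0, c1])),
            if_neg (c := z = S.M.α e) (fun h0 => n2 (by rw [← h0, c1])), if_neg q1, if_neg q2,
            if_neg q3]
          norm_num
        · rw [if_neg c1]
          by_cases c2 : z = e'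
          · have q1 : ¬ (S.M.v z ∈ tee S d e ∧ S.real z = true ∧
                S.M.v (S.M.α z) ∈ ins S d e e' s) := by
              intro h0
              have := ((hU _).1 h0.2.2).2.1
              rw [c2] at this
              exact oαe' this
            have q2 : ¬ PB S d e e' s z := by
              intro h0
              have := h0.2.2.2.2
              rw [c2] at this
              exact oαe' this
            have q3 : ¬ PP S d e e' s z := fun h0 => h0.2.2.1 (by rw [c2, he']; exact hyA)
            rw [if_pos c2, if_neg (c := z = S.M.α e) (fun h0 => n3 (by rw [← h0, c2])), if_neg q1,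
              if_neg q2, if_neg q3]
            norm_num
          · rw [if_neg c2]
            by_cases c3 : z = S.M.α e
            · have q1 : ¬ (S.M.v z ∈ tee S d e ∧ S.real z = true ∧
                  S.M.v (S.M.α z) ∈ ins S d e e' s) := by
                intro h0
                have := ((hU _).1 h0.2.2).2.1
                rw [c3, S.M.αα] at this
                exact oe0 this
              have q2 : ¬ PB S d e e' s z := by
                intro h0
                have := h0.2.2.2.2
                rw [c3, S.M.αα] at this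
                exact oe0 this
              have q3 : ¬ PP S d e e' s z := fun h0 => h0.2.2.2 c3
              rw [if_pos c3, if_neg q1, if_neg q2, if_neg q3]
              norm_num
            · rw [if_neg c3]
              by_cases c4 : S.M.v z ∈ S.A
              · rw [if_neg (c := PP S d e e' s z) (fun h0 => h0.2.2.1 c4)]
                cases hr : S.real z
                · rw [if_neg (c := _ ∧ false = true ∧ _) (fun h0 => absurd h0.2.1 (by decide))]
                  split_ifs <;> omega
                · rw [if_neg (c := PB S d e e' s z) (fun h0 => by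
                    have := h0.1
                    rw [hr] at this
                    exact absurd this (by decide))]
                  split_ifs <;> omega
              · rw [if_neg (fun h0 => c4 ((hT z).1 h0.1).1),
                  if_neg (c := PB S d e e' s z) (fun h0 => c4 h0.2.2.2.1)]
                split_ifs <;> omega
  rw [eR, eV, eN]
  omega

end

end Pool.FC7
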