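import Pool.Agent.FC7.DiC
import Pool.Agent.FC6.SigD

/-! # The discharging principle in a smallest disc, maximum degree 6

`Dsc S U T`: `U` is the set of the vertices strictly inside of a smallest nonfacial closed curve of
length at most three and `T` the set of the (at most three) vertices on it, or `U` is everything. -/

open Finset

set_option linter.unusedSectionVars false

namespace Pool.FC7

open Pool.FC6 Pool.FC6.St

variable {D V : Type} [Fintype D] [DecidableEq V] {S : St D V} {L : D → Bool} {w : D → ℕ} {Δ : ℕ}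

/-- a vertex of `U` at a real triangle whose other two vertices are in `T` -/
def Apx (S : St D V) (T : Finset V) (x : V) : Prop :=
  ∃ r, S.real r = true ∧ S.real (S.M.σ r) = true ∧ S.M.v r = x ∧ S.M.v (S.M.α r) ∈ T ∧
    S.M.v (S.M.α (S.M.σ r)) ∈ T

/-- the region used for the discharging -/
structure Dsc (S : St D V) (U T : Finset V) : Prop where
  UA : U ⊆ S.A
  TA : T ⊆ S.A
  dis : ∀ x ∈ U, x ∉ T
  ne : U.Nonempty
  T3 : T.card ≤ 3
  nb : ∀ z, S.real z = true → S.M.v z ∈ U → S.M.v (S.M.α z) ∈ U ∨ S.M.v (S.M.α z) ∈ T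
  n2 : ∀ x ∈ S.A, S.N2 x
  fc : ∀ z, S.real z = true → S.M.v z ∈ U → Fc3 S z
  cnt : 2 * ∑ x ∈ U, S.rdeg x + ∑ x ∈ U, vdeg S x + 2 * ∑ x ∈ U, nul S T x ≤ 12 * U.card
  str : 2 * ∑ x ∈ U, S.rdeg x + ∑ x ∈ U, vdeg S x + 2 * ∑ x ∈ U, nul S T x < 12 * U.card ∨
    ∃ x ∈ U, Apx S T x

theorem IsD.strict {d e e' : D} {s : D → Bool} (hD : IsD S d e e' s) (h : Rg S) (hS : IsStar S)
    (W : Wf Δ S L w) (hΔ : Δ ≤ 7) :
    (∃ z, PB S d e e' s z) ∨ (∃ z, PP S d e e' s z) ∨ ∃ x ∈ ins S d e e' s, Apx S (tee S d e) x := by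
  have he' := hD.he'
  have hd := hD.hd
  have hxA : S.M.v d ∈ S.A := h.real_A _ hd
  have hyA : S.M.v (S.M.α d) ∈ S.A := h.real_A _ (by rw [h.real_α]; exact hd)
  have hTr := SideOf.tr hD.hs
  have sφ : s (S.M.φ d) = true := by rw [hTr.φ, hTr.a]
  have sφφ : s (S.M.φ (S.M.φ d)) = true := by rw [hTr.φ, sφ]
  have hN := h.n2 hS W hΔ
  have hside : ∀ z, S.Off ![d, e', S.M.α e] z → s (S.M.α z) = s z := fun z hz =>
    off_side hD.hc hD.hs hz
  have vφφ : S.M.v (S.M.φ (S.M.φ d)) = S.M.v (S.M.α (S.M.φ d)) := S.M.vφ _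
  have vα2 : S.M.v (S.M.α (S.M.φ (S.M.φ d))) = S.M.v d := by
    rw [← S.M.vφ, S.M.φ3]
  have hσd : S.M.σ (S.M.α d) = S.M.φ d := by
    show S.M.φ (S.M.α (S.M.α d)) = S.M.φ d
    rw [S.M.αα]
  by_cases hw : S.M.v (S.M.α e) ∈ S.A
  · cases hr : S.real (S.M.φ d)
    · left
      have hdead : S.M.v (S.M.α (S.M.φ d)) ∉ S.A :=
        hS.vhead W (by rw [S.M.vφ]; exact hyA) hr
      refine ⟨S.M.φ d, hr, sφ, ?_, by rw [S.M.vφ]; exact hyA, ?_⟩
      · rw [off3 he']
        exact fun h0 => h0.2.1 (S.M.vφ d)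
      · rw [off3 he']
        exact ⟨fun h0 => hdead (by rw [h0]; exact hxA), fun h0 => hdead (by rw [h0]; exact hyA),
          fun h0 => hdead (by rw [h0]; exact hw)⟩
    · right; right
      have hr2 : S.real (S.M.φ (S.M.φ d)) = true := hS.two d hd hr
      have hzA : S.M.v (S.M.φ (S.M.φ d)) ∈ S.A := h.real_A _ hr2
      have n1 : S.M.v (S.M.φ (S.M.φ d)) ≠ S.M.v d := by
        have := h.real_ne _ hr2
        rwa [vα2] at this
      have n2 : S.M.v (S.M.φ (S.M.φ d)) ≠ S.M.v (S.M.α d) := by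
        have := h.real_ne _ hr
        rw [← vφφ, S.M.vφ d] at this
        exact this.symm
      have n3 : S.M.v (S.M.φ (S.M.φ d)) ≠ S.M.v (S.M.α e) := by
        intro h0
        have h1 : S.M.φ d = e' := hN _ hyA _ _ (S.M.vφ d) he' (by rw [← vφφ, h0, hD.hw])
        have h2 : S.M.φ (S.M.φ d) = S.M.α e := hN _ hw _ _ h0 rfl (by
          rw [vα2, S.M.αα, hD.he])
        refine hD.nf (Or.inr ⟨?_, ?_⟩)
        · show S.M.φ (S.M.α e) = d
          rw [← h2, S.M.φ3]
        · rw [hσd, h1]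
      have hoff : S.Off ![d, e', S.M.α e] (S.M.φ (S.M.φ d)) := (off3 he').2 ⟨n1, n2, n3⟩
      refine ⟨S.M.v (S.M.φ (S.M.φ d)), hD.mem_ins.2 ⟨hzA, hoff, sφφ⟩, S.M.α (S.M.φ d), ?_, ?_,
        ?_, ?_, ?_⟩
      · rw [h.real_α]; exact hr
      · show S.real (S.M.φ (S.M.α (S.M.α (S.M.φ d)))) = true
        rw [S.M.αα]; exact hr2
      · exact vφφ.symm
      · rw [S.M.αα, S.M.vφ]
        exact Finset.mem_filter.2 ⟨hyA, Or.inr (Or.inl rfl)⟩
      · show S.M.v (S.M.α (S.M.φ (S.M.α (S.M.α (S.M.φ d))))) ∈ _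
        rw [S.M.αα, vα2]
        exact Finset.mem_filter.2 ⟨hxA, Or.inl rfl⟩
  · right; left
    have er : S.real e = false := by
      cases h0 : S.real e
      · rfl
      · exact absurd (h.real_A _ (by rw [h.real_α]; exact h0)) hw
    have heA : S.M.v e ∈ S.A := by rw [hD.he]; exact hxA
    have z1 : S.real (S.M.σ e) = true := (hS.σvirt W er heA).1
    have vz1 : S.M.v (S.M.σ e) = S.M.v d := by rw [S.M.vσ, hD.he]
    have sz1 : s (S.M.σ e) = true := by
      show s (S.M.φ (S.M.α e)) = true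
      rw [hTr.φ, hTr.a1]
    have h1A : S.M.v (S.M.α (S.M.σ e)) ∈ S.A := h.real_A _ (by rw [h.real_α]; exact z1)
    have q3 : S.M.φ (S.M.φ (S.M.σ e)) = S.M.α e := by
      show S.M.φ (S.M.φ (S.M.φ (S.M.α e))) = S.M.α e
      rw [S.M.φ3]
    have vq : S.M.v (S.M.φ (S.M.σ e)) = S.M.v (S.M.α (S.M.σ e)) := S.M.vφ _
    have vαq : S.M.v (S.M.α (S.M.φ (S.M.σ e))) = S.M.v (S.M.α e) := by
      rw [← S.M.vφ, q3]
    have m1 : S.M.v (S.M.α (S.M.σ e)) ≠ S.M.v d := by
      have := h.real_ne _ z1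
      rw [vz1] at this
      exact this.symm
    have m2 : S.M.v (S.M.α (S.M.σ e)) ≠ S.M.v (S.M.α d) := by
      intro h0
      have k1 : S.M.σ e = d := hN _ hxA _ _ vz1 rfl h0
      have k2 : S.M.φ (S.M.φ d) = S.M.α e := by rw [← k1, q3]
      refine hD.nf (Or.inr ⟨k1, ?_⟩)
      rw [hσd]
      refine hN _ hyA _ _ he' (S.M.vφ d) ?_
      rw [← vφφ, k2, hD.hw]
    have m3 : S.M.v (S.M.α (S.M.σ e)) ≠ S.M.v (S.M.α e) := fun h0 => hw (by rw [← h0]; exact h1A)
    have hoff : S.Off ![d, e', S.M.α e] (S.M.φ (S.M.σ e)) := by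
      rw [off3 he', vq]
      exact ⟨m1, m2, m3⟩
    refine ⟨S.M.α (S.M.φ (S.M.σ e)), ?_, ?_, ?_, ?_⟩
    · rw [hside _ hoff, hTr.φ, sz1]
    · rw [off3 he', vαq]
      exact fun h0 => h0.2.2 rfl
    · rw [vαq]; exact hw
    · intro h0
      have h1 := S.M.αinj h0
      apply m1
      rw [← vq, h1, hD.he]

/-- Euler's formula on the whole sphere -/
theorem Rg.count (h : Rg S) (hS : IsStar S) (W : Wf Δ S L w) :
    2 * ∑ x ∈ S.A, S.rdeg x + ∑ x ∈ S.A, vdeg S x + 24 ≤ 12 * S.A.card := by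
  classical
  have eR : ∑ x ∈ S.A, S.rdeg x =
      ∑ z, if S.M.v z ∈ S.A ∧ S.real z = true then 1 else 0 := by
    unfold rdeg
    exact sum_at S _ _
  have eV : ∑ x ∈ S.A, vdeg S x =
      ∑ z, if S.M.v z ∈ S.A ∧ S.real z = false then 1 else 0 := by
    unfold vdeg
    exact sum_at S _ _
  obtain ⟨KF, hKF⟩ : ∃ KF : Finset D, KF = Finset.univ.filter fun z => S.M.v z ∉ S.A := ⟨_, rfl⟩
  have mKF : ∀ z, z ∈ KF ↔ S.M.v z ∉ S.A := by
    intro z
    rw [hKF, Finset.mem_filter]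
    simp
  have hH : 4 * (KF.image S.M.v).card ≤ KF.card := by
    rw [Finset.card_eq_sum_card_image S.M.v KF, mul_comm, ← smul_eq_mul]
    refine Finset.card_nsmul_le_sum _ _ _ fun b hb => ?_
    obtain ⟨z0, hz0, rfl⟩ := Finset.mem_image.1 hb
    refine le_trans (h.hub4 hS W ((mKF z0).1 hz0)) ?_
    unfold St.nd
    refine Finset.card_le_card fun z hz => ?_
    rw [Finset.mem_filter] at hz ⊢
    exact ⟨(mKF z).2 (by rw [hz.2]; exact (mKF z0).1 hz0), hz.2⟩
  have e1 : KF.card = ∑ z, if z ∈ KF then 1 else 0 := by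
    rw [← Finset.card_filter]
    congr 1
    ext z
    simp
  have hK : KF.card ≤ ∑ z, if S.M.v z ∈ S.A ∧ S.real z = false then 1 else 0 := by
    rw [e1, ← sum_α_nat S.M (fun z => if z ∈ KF then 1 else 0)]
    refine Finset.sum_le_sum fun z _ => ?_
    by_cases hz : S.M.α z ∈ KF
    · have k3 := (mKF _).1 hz
      have k4 : S.M.v z ∈ S.A := by
        have := hS.alivev W k3
        rwa [S.M.αα] at this
      have k5 : S.real z = false := by
        cases h0 : S.real z
        · rfl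
        · exact absurd (h.real_A _ (by rw [h.real_α]; exact h0)) k3
      rw [if_pos hz, if_pos ⟨k4, k5⟩]
    · rw [if_neg hz]; exact Nat.zero_le _
  have hE := S.M.euler
  have e5 : (Finset.univ.image S.M.v).card ≤ S.A.card + (KF.image S.M.v).card := by
    refine le_trans (Finset.card_le_card (t := S.A ∪ KF.image S.M.v) fun x hx => ?_)
      (Finset.card_union_le _ _)
    obtain ⟨z, _, rfl⟩ := Finset.mem_image.1 hx
    by_cases k2 : S.M.v z ∈ S.A
    · exact Finset.mem_union_left _ k2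
    · exact Finset.mem_union_right _ (Finset.mem_image_of_mem _ ((mKF z).2 k2))
  have e6 : Fintype.card D = (∑ z, if S.M.v z ∈ S.A ∧ S.real z = true then 1 else 0) +
      (∑ z, if S.M.v z ∈ S.A ∧ S.real z = false then 1 else 0) + KF.card := by
    rw [e1, ← Finset.sum_add_distrib, ← Finset.sum_add_distrib, ← Finset.card_univ,
      Finset.card_eq_sum_ones]
    refine Finset.sum_congr rfl fun z _ => ?_
    by_cases k : S.M.v z ∈ S.A
    · have k' : z ∉ KF := fun h0 => (mKF z).1 h0 k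
      cases hr : S.real z <;> simp [k, k']
    · have k' : z ∈ KF := (mKF z).2 k
      simp [k, k']
  rw [eR, eV]
  omega

theorem nul_empty (x : V) : nul S ∅ x = 0 := by
  unfold nul
  exact Finset.sum_eq_zero fun d _ => if_neg (by simp)

/-- the region exists -/
theorem exists_dsc (h : Rg S) (hS : IsStar S) (W : Wf Δ S L w) (hΔ : Δ ≤ 7) :
    ∃ U T, Dsc S U T := by
  classical
  rcases exists_disc h hS W hΔ with hall | ⟨d, e, e', s, hD, hmin⟩
  · refine ⟨S.A, ∅, Finset.Subset.refl _, by simp, by simp, h.ne, by simp,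
      fun z hz _ => Or.inl (h.real_A _ (by rw [h.real_α]; exact hz)), h.n2 hS W hΔ,
      fun z hz _ => hall z hz, ?_, Or.inl ?_⟩
    · have := h.count hS W
      simp only [nul_empty, Finset.sum_const_zero, mul_zero, add_zero]
      omega
    · have := h.count hS W
      simp only [nul_empty, Finset.sum_const_zero, mul_zero, add_zero]
      omega
  · have hcnt := hD.count h hS W
    obtain ⟨z0, k1, k2, k3⟩ := hD.ne true
    refine ⟨ins S d e e' s, tee S d e, Finset.filter_subset _ _, Finset.filter_subset _ _, ?_,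
      ⟨S.M.v z0, hD.mem_ins.2 ⟨k1, k2, k3⟩⟩, tee_card d e, fun z hz hv => hD.nb h hz hv,
      h.n2 hS W hΔ, hmin, by omega, ?_⟩
    · intro x hx hxt
      obtain ⟨z, rfl⟩ := W.A_im x (Finset.filter_subset _ _ hx)
      exact ((mem_tee hD.he').1 hxt).2 (hD.mem_ins.1 hx).2.1
    · rcases hD.strict h hS W hΔ with ⟨z, hz⟩ | ⟨z, hz⟩ | h3
      · left
        have : 1 ≤ ∑ z, if PB S d e e' s z then 1 else 0 := by
          refine le_trans ?_ (Finset.single_le_sum (f := fun z => if PB S d e e' s z then 1 else 0)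
            (fun _ _ => Nat.zero_le _) (Finset.mem_univ z))
          show 1 ≤ if PB S d e e' s z then 1 else 0
          rw [if_pos hz]
        omega
      · left
        have : 1 ≤ ∑ z, if PP S d e e' s z then 1 else 0 := by
          refine le_trans ?_ (Finset.single_le_sum (f := fun z => if PP S d e e' s z then 1 else 0)
            (fun _ _ => Nat.zero_le _) (Finset.mem_univ z))
          show 1 ≤ if PP S d e e' s z then 1 else 0
          rw [if_pos hz]
        omega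
      · exact Or.inr h3

/-- a real dart between two neighbours of a vertex of `U` is opposite in a solid sector -/
theorem Dsc.chord {U T : Finset V} (hD : Dsc S U T) {e e' r : D} (he : S.real e = true)
    (hv : S.M.v e ∈ U) (he' : S.M.v e' = S.M.v e) (hr : S.M.v r = S.M.v (S.M.α e))
    (hr' : S.M.v (S.M.α r) = S.M.v (S.M.α e')) :
    (e' = S.M.σ e ∧ S.M.σ r = S.M.α e) ∨ (S.M.σ e' = e ∧ r = S.M.σ (S.M.α e)) :=
  hD.fc e he hv e' r he' hr hr'.symm

open Classical in
/-- the final charge of a vertex of `U`: a gap corner costs 1/2, a neighbour in `T` costs 1,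
`F d` = what `v d` gets through the dart `d` from a neighbour in `U` -/
noncomputable def cd (S : St D V) (U T : Finset V) (F : D → ℝ) (x : V) : ℝ :=
  6 - S.rdeg x - (vdeg S x : ℝ) / 2 - nul S T x +
    ∑ d, if S.M.v d = x ∧ S.real d = true then (if S.M.v (S.M.α d) ∈ U then F d else 0) else 0

theorem Dsc.sum_cd {U T : Finset V} (hra : ∀ d, S.real (S.M.α d) = S.real d) {F : D → ℝ}
    (hF : ∀ d, S.real d = true → S.M.v d ∈ U → S.M.v (S.M.α d) ∈ U → F (S.M.α d) = - F d) :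
    ∑ x ∈ U, cd S U T F x = 6 * U.card - (∑ x ∈ U, S.rdeg x : ℕ) -
      ((∑ x ∈ U, vdeg S x : ℕ) : ℝ) / 2 - (∑ x ∈ U, nul S T x : ℕ) := by
  classical
  unfold cd
  rw [Finset.sum_add_distrib, sum_split, sum_flow hra hF, add_zero, Finset.sum_sub_distrib,
    Finset.sum_sub_distrib, Finset.sum_sub_distrib, Finset.sum_const, nsmul_eq_mul, mul_comm,
    ← Finset.sum_div]
  push_cast
  ring

/-- DISCHARGING: some vertex of `U` keeps a positive charge, or a vertex at a real triangle whose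
other two vertices are in `T` keeps a nonnegative one -/
theorem Dsc.discharge {U T : Finset V} (hD : Dsc S U T)
    (hra : ∀ d, S.real (S.M.α d) = S.real d) (F : D → ℝ)
    (hF : ∀ d, S.real d = true → S.M.v d ∈ U → S.M.v (S.M.α d) ∈ U → F (S.M.α d) = - F d) :
    ∃ x ∈ U, 0 < cd S U T F x ∨ (Apx S T x ∧ 0 ≤ cd S U T F x) := by
  classical
  by_contra hc
  push Not at hc
  have h1 := Dsc.sum_cd (T := T) hra hF
  have h2 : ∑ x ∈ U, cd S U T F x ≤ 0 := Finset.sum_nonpos fun x hx => (hc x hx).1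
  rcases hD.str with h3 | ⟨x, hx, hA⟩
  · have h4 : (2 : ℝ) * (∑ x ∈ U, S.rdeg x : ℕ) + (∑ x ∈ U, vdeg S x : ℕ) +
        2 * (∑ x ∈ U, nul S T x : ℕ) < 12 * U.card := by exact_mod_cast h3
    linarith
  · have h4 : (2 : ℝ) * (∑ x ∈ U, S.rdeg x : ℕ) + (∑ x ∈ U, vdeg S x : ℕ) +
        2 * (∑ x ∈ U, nul S T x : ℕ) ≤ 12 * U.card := by exact_mod_cast hD.cnt
    have h5 := (hc x hx).2 hA
    have h6 : ∑ x ∈ U, cd S U T F x < 0 := by
      rw [← Finset.add_sum_erase _ _ hx]
      have : ∑ y ∈ U.erase x, cd S U T F y ≤ 0 := Finset.sum_nonpos fun y hy =>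
        (hc y (Finset.mem_of_mem_erase hy)).1
      linarith
    linarith

end Pool.FC7
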