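import Pool.Agent.FC7.DiD

/-! # Euler's inequality inside of a closed curve of length four

The outside of the curve is closed by gluing its darts in pairs. -/

open Finset

set_option linter.unusedSectionVars false

namespace Pool.FC7

open Pool.FC6

variable {D V : Type} [Fintype D] [DecidableEq V] {M : TMap D V}

/-- a function on the faces outside of the curve which changes only at the curve has the same value
along the curve -/
theorem out_const {n : ℕ} [NeZero n] {c : Fin n → D} (hc : M.Curve c) {s : D → Bool}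
    (hs : M.SideOf c s) {h : D → ℝ} (hφ : ∀ z, h (M.φ z) = h z) (h0 : ∀ z, s z = true → h z = 0)
    (ha : ∀ z, s z = false → s (M.α z) = false → h (M.α z) = h z) :
    ∀ i, h (M.α (c i)) = h (M.α (c 0)) := by
  classical
  have hbal : ∀ x : V, ∑ z, (if M.v z = x then h z - h (M.α z) else 0) = 0 := by
    intro x
    have e1 : ∑ z, (if M.v z = x then h z - h (M.α z) else 0) =
        ∑ z, (if M.v z = x then h z else 0) - ∑ z, (if M.v z = x then h (M.α z) else 0) := by
      rw [← Finset.sum_sub_distrib]
      refine Finset.sum_congr rfl fun z _ => ?_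
      split_ifs <;> ring
    have e2 : ∑ z, (if M.v z = x then h (M.α z) else 0) = ∑ z, (if M.v z = x then h z else 0) := by
      rw [← M.sum_α fun z => if M.v z = x then h (M.α z) else 0,
        ← M.sum_φ fun z => if M.v z = x then h z else 0]
      refine Finset.sum_congr rfl fun z _ => ?_
      rw [M.αα, M.vφ, hφ]
    rw [e1, e2, sub_self]
  have hst : ∀ i, h (M.α (c (i + 1))) = h (M.α (c i)) := by
    intro i
    have hb := hbal (M.v (c (i + 1)))
    have hne : c (i + 1) ≠ M.α (c i) := fun h => hc.ne i (i + 1) h.symm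
    have e1 : ∑ z, (if M.v z = M.v (c (i + 1)) then h z - h (M.α z) else 0) =
        ∑ z, ((if z = c (i + 1) then h z - h (M.α z) else 0) +
          (if z = M.α (c i) then h z - h (M.α z) else 0)) := by
      refine Finset.sum_congr rfl fun z _ => ?_
      by_cases hz : M.v z = M.v (c (i + 1))
      · rw [if_pos hz]
        by_cases h1 : z = c (i + 1)
        · rw [if_pos h1, if_neg (fun h2 => hne (h1.symm.trans h2)), add_zero]
        · by_cases h2 : z = M.α (c i)
          · rw [if_neg h1, if_pos h2, zero_add]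
          · rw [if_neg h1, if_neg h2, add_zero]
            have h3 : s (M.α z) = s z := by
              refine hs.o z (fun j hj => h1 ?_) (fun j hj => h2 ?_)
              · rw [hj] at hz
                rw [hj, hc.inj _ _ hz]
              · rw [hj, hc.nx] at hz
                have := hc.inj _ _ hz
                rw [hj, add_right_cancel this]
            cases h4 : s z
            · rw [ha z h4 (h3.trans h4), sub_self]
            · rw [h0 z h4, h0 _ (h3.trans h4), sub_self]
      · rw [if_neg hz, if_neg, if_neg, add_zero]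
        · rintro rfl
          exact hz (hc.nx i)
        · rintro rfl
          exact hz rfl
    rw [e1, Finset.sum_add_distrib, Finset.sum_ite_eq' Finset.univ (c (i + 1)),
      Finset.sum_ite_eq' Finset.univ (M.α (c i)), if_pos (Finset.mem_univ _),
      if_pos (Finset.mem_univ _), M.αα, h0 _ (hs.t _), h0 _ (hs.t _)] at hb
    linarith
  have h1 : ∀ k : ℕ, h (M.α (c (Fin.ofNat n k))) = h (M.α (c 0)) := by
    intro k
    induction k with
    | zero => rfl
    | succ k ih =>
      rw [← ih, ← hst (Fin.ofNat n k)]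
      congr 3
      ext
      simp [Fin.ofNat, Fin.val_add]
  intro i
  rw [← h1 i.1]
  congr 3
  ext
  simp [Fin.ofNat, Nat.mod_eq_of_lt i.2]

section fold

variable {c : Fin 4 → D} (hc : M.Curve c) {s : D → Bool} (hs : M.SideOf c s)

include hs in
theorem out_α {x : D} (hx : s x = false) (h : ∀ i, x ≠ M.α (c i)) : s (M.α x) = false := by
  rw [hs.o x (fun i hi => by
    rw [hi, hs.t] at hx
    exact absurd hx (by decide)) h]
  exact hx

open Classical in
/-- reversal in the outside: the four outer darts of the curve are glued in pairs -/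
noncomputable def fα (x : {x // s x = false}) : {x // s x = false} :=
  if h : ∃ i, x.1 = M.α (c i) then ⟨M.α (c (3 - h.choose)), hs.f _⟩ else
    ⟨M.α x.1, out_α hs x.2 fun i hi => h ⟨i, hi⟩⟩

include hc in
theorem fα_c (x : {x // s x = false}) {i : Fin 4} (h : x.1 = M.α (c i)) :
    (fα hs x).1 = M.α (c (3 - i)) := by
  have hex : ∃ i, x.1 = M.α (c i) := ⟨i, h⟩
  unfold fα
  rw [dif_pos hex]
  have h1 : M.α (c hex.choose) = M.α (c i) := hex.choose_spec.symm.trans h
  have h2 : hex.choose = i := hc.inj _ _ (by rw [M.αinj h1] : M.v (c hex.choose) = M.v (c i))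
  show M.α (c (3 - hex.choose)) = _
  rw [h2]

theorem fα_o (x : {x // s x = false}) (h : ∀ i, x.1 ≠ M.α (c i)) : (fα hs x).1 = M.α x.1 := by
  have hex : ¬ ∃ i, x.1 = M.α (c i) := fun ⟨i, hi⟩ => h i hi
  unfold fα
  rw [dif_neg hex]

/-- the vertices `c 1` and `c 3` are merged -/
def fv (M : TMap D V) (c : Fin 4 → D) (x : D) : V := if M.v x = M.v (c 3) then M.v (c 1) else M.v x

/-- the outside of the curve, glued -/
noncomputable def foldP : PMap {x // s x = false} V where
  φ x := ⟨M.φ x.1, by rw [hs.φ]; exact x.2⟩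
  α := fα hs
  v x := fv M c x.1
  φ3 x := Subtype.ext (M.φ3 x.1)
  φne x h := M.φne x.1 (congrArg Subtype.val h)
  αα x := by
    apply Subtype.ext
    by_cases h : ∃ i, x.1 = M.α (c i)
    · obtain ⟨i, hi⟩ := h
      rw [fα_c hc hs _ (fα_c hc hs x hi), hi, (by decide : ∀ i : Fin 4, 3 - (3 - i) = i) i]
    · have h' : ∀ i, x.1 ≠ M.α (c i) := fun i hi => h ⟨i, hi⟩
      rw [fα_o hs _ (fun i hi => ?_), fα_o hs x h', M.αα]
      rw [fα_o hs x h'] at hi
      have h1 : x.1 = c i := M.αinj hi
      have h2 := x.2
      rw [h1, hs.t] at h2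
      exact absurd h2 (by decide)
  αne x h := by
    have h0 := congrArg Subtype.val h
    by_cases h1 : ∃ i, x.1 = M.α (c i)
    · obtain ⟨i, hi⟩ := h1
      rw [fα_c hc hs x hi, hi] at h0
      have h2 := hc.inj _ _ (by rw [M.αinj h0] : M.v (c (3 - i)) = M.v (c i))
      exact (by decide : ∀ i : Fin 4, 3 - i ≠ i) i h2
    · rw [fα_o hs x (fun i hi => h1 ⟨i, hi⟩)] at h0
      exact M.αne x.1 h0
  vφ x := by
    show fv M c (M.φ x.1) = fv M c (fα hs x).1
    by_cases h1 : ∃ i, x.1 = M.α (c i)
    · obtain ⟨i, hi⟩ := h1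
      rw [fα_c hc hs x hi]
      unfold fv
      rw [M.vφ, hi, M.αα, hc.nx]
      fin_cases i
      · rfl
      · show (if M.v (c 1) = M.v (c 3) then M.v (c 1) else M.v (c 1)) =
          (if M.v (c 3) = M.v (c 3) then M.v (c 1) else M.v (c 3))
        rw [if_pos (rfl : M.v (c 3) = M.v (c 3)), ite_self]
      · rfl
      · show (if M.v (c 3) = M.v (c 3) then M.v (c 1) else M.v (c 3)) =
          (if M.v (c 1) = M.v (c 3) then M.v (c 1) else M.v (c 1))
        rw [if_pos (rfl : M.v (c 3) = M.v (c 3)), ite_self]
    · rw [fα_o hs x (fun i hi => h1 ⟨i, hi⟩)]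
      unfold fv
      rw [M.vφ]
  conn h h1 h2 := by
    classical
    obtain ⟨H, hH⟩ : ∃ H : D → ℝ, ∀ z, H z = if hz : s z = false then h ⟨z, hz⟩ else 0 :=
      ⟨_, fun _ => rfl⟩
    have Hf : ∀ z (hz : s z = false), H z = h ⟨z, hz⟩ := fun z hz => by rw [hH, dif_pos hz]
    have Ht : ∀ z, s z = true → H z = 0 := fun z hz => by
      rw [hH, dif_neg (by rw [hz]; decide)]
    have Hφ : ∀ z, H (M.φ z) = H z := by
      intro z
      cases hz : s z
      · rw [Hf z hz, Hf _ (by rw [hs.φ, hz])]
        exact h1 ⟨z, hz⟩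
      · rw [Ht z hz, Ht _ (by rw [hs.φ, hz])]
    have Hα : ∀ z, s z = false → (∀ i, z ≠ M.α (c i)) → H (M.α z) = H z := by
      intro z hz hi
      rw [Hf z hz, Hf _ (out_α hs hz hi), ← h2 ⟨z, hz⟩]
      congr 1
      exact Subtype.ext (fα_o hs ⟨z, hz⟩ hi).symm
    have hall := out_const hc hs Hφ Ht (fun z hz hz' => by
      refine Hα z hz fun i hi => ?_
      rw [hi, M.αα, hs.t] at hz'
      exact absurd hz' (by decide))
    obtain ⟨k, hk⟩ : ∃ k : D → ℝ, ∀ z, k z = if s z = false then H z else H (M.α (c 0)) :=
      ⟨_, fun _ => rfl⟩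
    have k1 : ∀ z, k (M.φ z) = k z := fun z => by rw [hk, hk, hs.φ, Hφ]
    have k2 : ∀ z, k (M.α z) = k z := by
      intro z
      by_cases a1 : ∃ i, z = c i
      · obtain ⟨i, rfl⟩ := a1
        rw [hk, hk, hs.f, hs.t, if_pos rfl, if_neg (by decide), hall]
      · by_cases a2 : ∃ i, z = M.α (c i)
        · obtain ⟨i, rfl⟩ := a2
          rw [hk, hk, M.αα, hs.f, hs.t, if_pos rfl, if_neg (by decide)]
          exact (hall i).symm
        · push Not at a1 a2
          have h3 := hs.o z a1 a2
          rw [hk, hk, h3]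
          cases h4 : s z
          · rw [if_pos rfl, if_pos rfl, Hα z h4 a2]
          · rfl
    intro x y
    have h3 := M.conn k k1 k2 x.1 y.1
    rw [hk, hk, if_pos x.2, if_pos y.2, Hf _ x.2, Hf _ y.2] at h3
    exact h3

include hc hs in
/-- Euler's inequality inside of a closed curve of length four -/
theorem side4_le : (∑ z, if s z = true then 1 else 0) ≤
    6 * ((Finset.univ.image M.v) \ ((Finset.univ.filter fun z => s z = false).image M.v)).card +
      6 := by
  classical
  have h1 := (foldP hc hs).ineq ⟨M.α (c 0), hs.f 0⟩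
  have h2 := M.euler
  have h3 : Fintype.card {x // s x = false} = ∑ z, if s z = false then 1 else 0 := by
    rw [Fintype.card_subtype, Finset.card_filter]
  have h4 : Fintype.card D = (∑ z, if s z = true then 1 else 0) +
      ∑ z, if s z = false then 1 else 0 := by
    rw [← Finset.card_univ, Finset.card_eq_sum_ones, ← Finset.sum_add_distrib]
    refine Finset.sum_congr rfl fun z _ => ?_
    cases s z <;> rfl
  have h5 : ((Finset.univ.filter fun z => s z = false).image M.v).card ≤
      (Finset.univ.image (foldP hc hs).v).card + 1 := by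
    refine le_trans (Finset.card_le_card (t := insert (M.v (c 3))
      (Finset.univ.image (foldP hc hs).v)) fun y hy => ?_) (Finset.card_insert_le _ _)
    obtain ⟨z, hz, rfl⟩ := Finset.mem_image.1 hy
    by_cases h6 : M.v z = M.v (c 3)
    · rw [h6]; exact Finset.mem_insert_self _ _
    · refine Finset.mem_insert_of_mem (Finset.mem_image.2
        ⟨⟨z, (Finset.mem_filter.1 hz).2⟩, Finset.mem_univ _, ?_⟩)
      show fv M c z = M.v z
      unfold fv
      rw [if_neg h6]
  have h7 := Finset.card_sdiff_add_card_eq_card (s := (Finset.univ.filter fun z =>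
    s z = false).image M.v) (t := Finset.univ.image M.v)
    (Finset.image_subset_image (Finset.filter_subset _ _))
  omega

end fold

end Pool.FC7
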