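import Pool.Agent.FC7.DiF
import Pool.Agent.FC7.CfD

/-! # Closed curves of length four through a face -/

open Finset

set_option linter.unusedSectionVars false

namespace Pool.FC7

open Pool.FC6 Pool.FC6.St

variable {D V : Type} [Fintype D] [DecidableEq V] {S : St D V} {L : D → Bool} {w : D → ℕ} {Δ : ℕ}

/-- a closed curve of length four through the vertices `v k`, `v (α k)`, `v (α k')` and a face, with
alive vertices on both sides -/
structure IsQ (S : St D V) (k e e' k' : D) (s : D → Bool) : Prop where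
  hk : S.real k = true
  hk' : S.real k' = true
  vk : S.M.v k' = S.M.v k
  he : S.M.v e = S.M.v (S.M.α k)
  he' : S.M.v e' = S.M.v (S.M.α k')
  re : S.real e = false
  re' : S.real e' = false
  hw : S.M.v (S.M.α e) = S.M.v (S.M.α e')
  hn : ∀ r, S.real r = true → S.M.v r = S.M.v (S.M.α k) → S.M.v (S.M.α r) ≠ S.M.v (S.M.α k')
  hc : S.M.Curve ![k, e, S.M.α e', S.M.α k']
  hs : S.M.SideOf ![k, e, S.M.α e', S.M.α k'] s
  ne : ∀ b, ∃ z, S.M.v z ∈ S.A ∧ S.Off ![k, e, S.M.α e', S.M.α k'] z ∧ s z = b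

theorem curve4 {k e e' k' : D} (vk : S.M.v k' = S.M.v k) (he : S.M.v e = S.M.v (S.M.α k))
    (he' : S.M.v e' = S.M.v (S.M.α k')) (hw : S.M.v (S.M.α e) = S.M.v (S.M.α e'))
    (h1 : S.M.v k ≠ S.M.v (S.M.α k)) (h2 : S.M.v k ≠ S.M.v (S.M.α e))
    (h3 : S.M.v k ≠ S.M.v (S.M.α k')) (h4 : S.M.v (S.M.α k) ≠ S.M.v (S.M.α e))
    (h5 : S.M.v (S.M.α k) ≠ S.M.v (S.M.α k')) (h6 : S.M.v (S.M.α e) ≠ S.M.v (S.M.α k')) :
    S.M.Curve ![k, e, S.M.α e', S.M.α k'] := by
  have hinj : ∀ i j : Fin 4, S.M.v (![k, e, S.M.α e', S.M.α k'] i) =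
      S.M.v (![k, e, S.M.α e', S.M.α k'] j) → i = j := by
    intro i j h
    fin_cases i <;> fin_cases j
    · rfl
    · exact absurd (Eq.trans h he) h1
    · exact absurd (Eq.trans h hw.symm) h2
    · exact absurd h h3
    · exact absurd ((Eq.symm h).trans he) h1
    · rfl
    · exact absurd (he.symm.trans (Eq.trans h hw.symm)) h4
    · exact absurd (he.symm.trans h) h5
    · exact absurd ((Eq.symm h).trans hw.symm) h2
    · exact absurd (he.symm.trans ((Eq.symm h).trans hw.symm)) h4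
    · rfl
    · exact absurd (hw.trans h) h6
    · exact absurd (Eq.symm h) h3
    · exact absurd (he.symm.trans (Eq.symm h)) h5
    · exact absurd (hw.trans (Eq.symm h)) h6
    · rfl
  have hnx : ∀ i : Fin 4, S.M.v (S.M.α (![k, e, S.M.α e', S.M.α k'] i)) =
      S.M.v (![k, e, S.M.α e', S.M.α k'] (i + 1)) := by
    intro i
    fin_cases i
    · exact he.symm
    · exact hw
    · show S.M.v (S.M.α (S.M.α e')) = S.M.v (S.M.α k')
      rw [S.M.αα]; exact he'
    · show S.M.v (S.M.α (S.M.α k')) = S.M.v k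
      rw [S.M.αα]; exact vk
  refine ⟨hnx, hinj, fun i j h => ?_⟩
  have k1 : i + 1 = j := hinj _ _ (by rw [← hnx, h])
  have k2 : j + 1 = i := hinj _ _ (by rw [← hnx, ← h, S.M.αα])
  rw [← k1] at k2
  revert k2
  fin_cases i <;> decide

theorem off4 {k e e' k' z : D} (he : S.M.v e = S.M.v (S.M.α k))
    (hw : S.M.v (S.M.α e) = S.M.v (S.M.α e')) :
    S.Off ![k, e, S.M.α e', S.M.α k'] z ↔ S.M.v z ≠ S.M.v k ∧ S.M.v z ≠ S.M.v (S.M.α k) ∧
      S.M.v z ≠ S.M.v (S.M.α e) ∧ S.M.v z ≠ S.M.v (S.M.α k') := by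
  constructor
  · intro h
    refine ⟨h 0, ?_, ?_, h 3⟩
    · rw [← he]; exact h 1
    · rw [hw]; exact h 2
  · rintro ⟨h1, h2, h3, h4⟩ i
    fin_cases i
    · exact h1
    · show S.M.v z ≠ S.M.v e
      rw [he]; exact h2
    · show S.M.v z ≠ S.M.v (S.M.α e')
      rw [← hw]; exact h3
    · exact h4

section

variable {k e e' k' : D} {s : D → Bool}

theorem IsQ.n01 (h : IsQ S k e e' k' s) : S.M.v k ≠ S.M.v (S.M.α k) := fun h0 =>
  absurd (h.hc.inj 0 1 (h0.trans h.he.symm)) (by decide)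

theorem IsQ.n02 (h : IsQ S k e e' k' s) : S.M.v k ≠ S.M.v (S.M.α e) := fun h0 =>
  absurd (h.hc.inj 0 2 (h0.trans h.hw)) (by decide)

theorem IsQ.n03 (h : IsQ S k e e' k' s) : S.M.v k ≠ S.M.v (S.M.α k') := fun h0 =>
  absurd (h.hc.inj 0 3 h0) (by decide)

theorem IsQ.n12 (h : IsQ S k e e' k' s) : S.M.v (S.M.α k) ≠ S.M.v (S.M.α e) := fun h0 =>
  absurd (h.hc.inj 1 2 (h.he.trans (h0.trans h.hw))) (by decide)

theorem IsQ.n13 (h : IsQ S k e e' k' s) : S.M.v (S.M.α k) ≠ S.M.v (S.M.α k') := fun h0 =>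
  absurd (h.hc.inj 1 3 (h.he.trans h0)) (by decide)

theorem IsQ.n23 (h : IsQ S k e e' k' s) : S.M.v (S.M.α e) ≠ S.M.v (S.M.α k') := fun h0 =>
  absurd (h.hc.inj 2 3 (h.hw.symm.trans h0)) (by decide)

theorem IsQ.symm (h : IsQ S k e e' k' s) (hra : ∀ d, S.real (S.M.α d) = S.real d) :
    IsQ S k' e' e k (fun z => !s z) where
  hk := h.hk'
  hk' := h.hk
  vk := h.vk.symm
  he := h.he'
  he' := h.he
  re := h.re'
  re' := h.re
  hw := h.hw.symm
  hn r hr h1 h2 := h.hn (S.M.α r) (by rw [hra]; exact hr) h2 (by rw [S.M.αα]; exact h1)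
  hc := curve4 h.vk.symm h.he' h.he h.hw.symm (by rw [h.vk]; exact h.n03)
    (by rw [h.vk, ← h.hw]; exact h.n02) (by rw [h.vk]; exact h.n01)
    (by rw [← h.hw]; exact h.n23.symm) h.n13.symm (by rw [← h.hw]; exact h.n12.symm)
  hs := by
    have hs := h.hs
    refine ⟨fun x => ?_, fun i => ?_, fun i => ?_, fun x h1 h2 => ?_⟩
    · show (!s (S.M.φ x)) = !s x
      rw [hs.φ]
    · fin_cases i
      · show (!s k') = true
        have := hs.f 3
        rw [show (![k, e, S.M.α e', S.M.α k'] 3 : D) = S.M.α k' from rfl, S.M.αα] at this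
        rw [this]; rfl
      · show (!s e') = true
        have := hs.f 2
        rw [show (![k, e, S.M.α e', S.M.α k'] 2 : D) = S.M.α e' from rfl, S.M.αα] at this
        rw [this]; rfl
      · show (!s (S.M.α e)) = true
        have : s (S.M.α e) = false := hs.f 1
        rw [this]; rfl
      · show (!s (S.M.α k)) = true
        have : s (S.M.α k) = false := hs.f 0
        rw [this]; rfl
    · fin_cases i
      · show (!s (S.M.α k')) = false
        have : s (S.M.α k') = true := hs.t 3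
        rw [this]; rfl
      · show (!s (S.M.α e')) = false
        have : s (S.M.α e') = true := hs.t 2
        rw [this]; rfl
      · show (!s (S.M.α (S.M.α e))) = false
        have : s e = true := hs.t 1
        rw [S.M.αα, this]; rfl
      · show (!s (S.M.α (S.M.α k))) = false
        have : s k = true := hs.t 0
        rw [S.M.αα, this]; rfl
    · show (!s (S.M.α x)) = !s x
      have k1 : x ≠ k' := h1 0
      have k2 : x ≠ e' := h1 1
      have k3 : x ≠ S.M.α e := h1 2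
      have k4 : x ≠ S.M.α k := h1 3
      have k5 : x ≠ S.M.α k' := h2 0
      have k6 : x ≠ S.M.α e' := h2 1
      have k7 : x ≠ S.M.α (S.M.α e) := h2 2
      have k8 : x ≠ S.M.α (S.M.α k) := h2 3
      rw [S.M.αα] at k7 k8
      rw [hs.o x (fun i => ?_) (fun i => ?_)]
      · fin_cases i
        · exact k8
        · exact k7
        · exact k6
        · exact k5
      · fin_cases i
        · exact k4
        · exact k3
        · show x ≠ S.M.α (S.M.α e')
          rw [S.M.αα]; exact k2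
        · show x ≠ S.M.α (S.M.α k')
          rw [S.M.αα]; exact k1
  ne b := by
    obtain ⟨z, h1, h2, h3⟩ := h.ne (!b)
    refine ⟨z, h1, ?_, ?_⟩
    · rw [off4 h.he h.hw] at h2
      rw [off4 h.he' h.hw.symm, h.vk, ← h.hw]
      exact ⟨h2.1, h2.2.2.2, h2.2.2.1, h2.2.1⟩
    · show (!s z) = b
      rw [h3]; simp

end

/-- a common gap face of two nonadjacent neighbours of `v k` which is not a gap face at `v k` gives a
curve with alive vertices on both sides -/
theorem Rg.mkQ (h : Rg S) (hS : IsStar S) (W : Wf Δ S L w) {k e e' k' : D}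
    (hk : S.real k = true) (hk' : S.real k' = true) (vk : S.M.v k' = S.M.v k)
    (he : S.M.v e = S.M.v (S.M.α k)) (he' : S.M.v e' = S.M.v (S.M.α k'))
    (re : S.real e = false) (re' : S.real e' = false)
    (hw : S.M.v (S.M.α e) = S.M.v (S.M.α e')) (hne : S.M.v (S.M.α k) ≠ S.M.v (S.M.α k'))
    (hn : ∀ r, S.real r = true → S.M.v r = S.M.v (S.M.α k) →
      S.M.v (S.M.α r) ≠ S.M.v (S.M.α k'))
    (ht : ∀ t, S.real t = false → S.M.v t = S.M.v k → S.M.v (S.M.α t) ≠ S.M.v (S.M.α e)) :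
    ∃ s, IsQ S k e e' k' s := by
  have hmA : S.M.v k ∈ S.A := h.real_A _ hk
  have hyA : S.M.v (S.M.α k) ∈ S.A := h.real_A _ (by rw [h.real_α]; exact hk)
  have hvA : S.M.v (S.M.α k') ∈ S.A := h.real_A _ (by rw [h.real_α]; exact hk')
  have hh : S.M.v (S.M.α e) ∉ S.A := hS.vhead W (by rw [he]; exact hyA) re
  have hc : S.M.Curve ![k, e, S.M.α e', S.M.α k'] :=
    curve4 vk he he' hw (h.real_ne k hk) (fun h0 => hh (h0 ▸ hmA))
      (by have := h.real_ne k' hk'; rwa [vk] at this) (fun h0 => hh (h0 ▸ hyA)) hne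
      (fun h0 => hh (by rw [h0]; exact hvA))
  obtain ⟨s, hs⟩ := hc.side
  have heA : S.M.v e ∈ S.A := by rw [he]; exact hyA
  obtain ⟨r1, r2, r3, r4⟩ | ⟨r1, r2, r3, r4⟩ := hS.virt W re
  · exact absurd heA r3
  -- the third vertices at `e`
  have w1 : S.M.v (S.M.α (S.M.φ (S.M.φ e))) = S.M.v e := by rw [← S.M.vφ, S.M.φ3]
  have s1 : s (S.M.φ (S.M.φ e)) = true := by
    rw [hs.φ, hs.φ]; exact hs.t 1
  have q1 : S.real (S.M.σ e) = true := (hS.σvirt W re heA).1
  have s2 : s (S.M.φ (S.M.σ e)) = false := by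
    show s (S.M.φ (S.M.φ (S.M.α e))) = false
    rw [hs.φ, hs.φ]; exact hs.f 1
  have w2 : S.M.v (S.M.φ (S.M.σ e)) = S.M.v (S.M.α (S.M.σ e)) := S.M.vφ _
  have key : ∀ z, S.M.v z ∈ S.A → S.M.v z ≠ S.M.v e → ¬ S.Off ![k, e, S.M.α e', S.M.α k'] z →
      (∃ r, S.real r = true ∧ S.M.v r = S.M.v e ∧ S.M.v (S.M.α r) = S.M.v z) →
      S.M.v z = S.M.v k := by
    rintro z hz hze ho ⟨r, hr1, hr2, hr3⟩
    rw [off4 he hw] at ho
    by_contra hnk
    refine ho ⟨hnk, fun h0 => hze (h0.trans he.symm), fun h0 => hh (h0 ▸ hz), fun h0 => ?_⟩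
    exact hn r hr1 (hr2.trans he) (hr3.trans h0)
  refine ⟨s, hk, hk', vk, he, he', re, re', hw, hn, hc, hs, fun b => ?_⟩
  by_contra hno
  push Not at hno
  cases b
  · have hoff : ¬ S.Off ![k, e, S.M.α e', S.M.α k'] (S.M.φ (S.M.σ e)) := fun h0 =>
      hno _ (by rw [w2]; exact h.real_A _ (by rw [h.real_α]; exact q1)) h0 s2
    have hz : S.M.v (S.M.φ (S.M.σ e)) = S.M.v k := by
      refine key _ (by rw [w2]; exact h.real_A _ (by rw [h.real_α]; exact q1)) ?_ hoff
        ⟨S.M.σ e, q1, S.M.vσ e, w2.symm⟩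
      rw [w2]
      have := h.real_ne _ q1
      rw [S.M.vσ] at this
      exact this.symm
    have q3 : S.M.φ (S.M.φ (S.M.σ e)) = S.M.α e := by
      show S.M.φ (S.M.φ (S.M.φ (S.M.α e))) = S.M.α e
      rw [S.M.φ3]
    have hv : S.M.v (S.M.α (S.M.φ (S.M.σ e))) = S.M.v (S.M.α e) := by rw [← S.M.vφ, q3]
    refine ht _ ?_ hz hv
    by_contra hr
    have := h.real_A _ (by rw [h.real_α]; simpa using hr :
      S.real (S.M.α (S.M.φ (S.M.σ e))) = true)
    rw [hv] at this
    exact hh this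
  · have hA1 : S.M.v (S.M.φ (S.M.φ e)) ∈ S.A := h.real_A _ r1
    have hoff : ¬ S.Off ![k, e, S.M.α e', S.M.α k'] (S.M.φ (S.M.φ e)) := fun h0 =>
      hno _ hA1 h0 s1
    have hz : S.M.v (S.M.φ (S.M.φ e)) = S.M.v k := by
      refine key _ hA1 ?_ hoff ⟨S.M.α (S.M.φ (S.M.φ e)), by rw [h.real_α]; exact r1, w1,
        by rw [S.M.αα]⟩
      have := h.real_ne _ r1
      rw [w1] at this
      exact this
    refine ht (S.M.α (S.M.φ e)) (by rw [h.real_α]; exact r2) ?_ ?_
    · rw [← S.M.vφ]; exact hz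
    · rw [S.M.αα, S.M.vφ]

end Pool.FC7
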