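import Pool.Agent.FC7.DiG

/-! # Euler's formula in the disc of a closed curve of length four through a face -/

open Finset

set_option linter.unusedSectionVars false

namespace Pool.FC7

open Pool.FC6 Pool.FC6.St

variable {D V : Type} [Fintype D] [DecidableEq V] {S : St D V} {L : D → Bool} {w : D → ℕ} {Δ : ℕ}

/-- the vertices inside -/
noncomputable def inq (S : St D V) (k e e' k' : D) (s : D → Bool) : Finset V :=
  S.A.filter fun x => S.sd ![k, e, S.M.α e', S.M.α k'] s true x = true

/-- the vertices on the curve -/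
def teq (S : St D V) (k k' : D) : Finset V :=
  S.A.filter fun x => x = S.M.v k ∨ x = S.M.v (S.M.α k) ∨ x = S.M.v (S.M.α k')

theorem teq_card (k k' : D) : (teq S k k').card ≤ 3 := by
  refine le_trans (Finset.card_le_card (t := {S.M.v k, S.M.v (S.M.α k), S.M.v (S.M.α k')})
    fun x hx => ?_) Finset.card_le_three
  have := (Finset.mem_filter.1 hx).2
  simp only [Finset.mem_insert, Finset.mem_singleton]
  exact this

section

variable {k e e' k' : D} {s : D → Bool}

theorem IsQ.mem_teq (hQ : IsQ S k e e' k' s) (hh : S.M.v (S.M.α e) ∉ S.A) {z : D} :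
    S.M.v z ∈ teq S k k' ↔ S.M.v z ∈ S.A ∧ ¬ S.Off ![k, e, S.M.α e', S.M.α k'] z := by
  rw [off4 hQ.he hQ.hw]
  unfold teq
  rw [Finset.mem_filter]
  constructor
  · rintro ⟨h1, h2⟩
    exact ⟨h1, by tauto⟩
  · rintro ⟨h1, h2⟩
    have h3 : S.M.v z ≠ S.M.v (S.M.α e) := fun h0 => hh (h0 ▸ h1)
    exact ⟨h1, by tauto⟩

theorem IsQ.mem_inq (hQ : IsQ S k e e' k' s) {z : D} :
    S.M.v z ∈ inq S k e e' k' s ↔
      S.M.v z ∈ S.A ∧ S.Off ![k, e, S.M.α e', S.M.α k'] z ∧ s z = true := by
  unfold inq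
  rw [Finset.mem_filter]
  constructor
  · rintro ⟨h1, h2⟩
    have h3 : S.Off ![k, e, S.M.α e', S.M.α k'] z := by
      by_contra hn
      rw [sd_on hn] at h2
      exact absurd h2 (by decide)
    exact ⟨h1, h3, (sd_off hQ.hc hQ.hs h3).1 h2⟩
  · rintro ⟨h1, h2, h3⟩
    exact ⟨h1, (sd_off hQ.hc hQ.hs h2).2 h3⟩

theorem IsQ.dead (hQ : IsQ S k e e' k' s) (h : Rg S) (hS : IsStar S) (W : Wf Δ S L w) :
    S.M.v (S.M.α e) ∉ S.A :=
  hS.vhead W (by rw [hQ.he]; exact h.real_A _ (by rw [h.real_α]; exact hQ.hk)) hQ.re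

theorem IsQ.nb (hQ : IsQ S k e e' k' s) (h : Rg S) (hS : IsStar S) (W : Wf Δ S L w) {z : D}
    (hz : S.real z = true) (hv : S.M.v z ∈ inq S k e e' k' s) :
    S.M.v (S.M.α z) ∈ inq S k e e' k' s ∨ S.M.v (S.M.α z) ∈ teq S k k' := by
  obtain ⟨_, h2, h3⟩ := hQ.mem_inq.1 hv
  have h4 : S.M.v (S.M.α z) ∈ S.A := h.real_A _ (by rw [h.real_α]; exact hz)
  by_cases h5 : S.Off ![k, e, S.M.α e', S.M.α k'] (S.M.α z)
  · left
    exact hQ.mem_inq.2 ⟨h4, h5, by rw [off_side hQ.hc hQ.hs h2, h3]⟩
  · right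
    exact (hQ.mem_teq (hQ.dead h hS W)).2 ⟨h4, h5⟩

/-- virtual darts at the curve, inside, which lead to inner faces -/
def PQ (S : St D V) (k e e' k' : D) (s : D → Bool) (z : D) : Prop :=
  S.real z = false ∧ s z = true ∧ ¬ S.Off ![k, e, S.M.α e', S.M.α k'] z ∧ S.M.v z ∈ S.A ∧
    S.Off ![k, e, S.M.α e', S.M.α k'] (S.M.α z)

open Classical in
/-- Euler's formula inside of the curve -/
theorem IsQ.count (hQ : IsQ S k e e' k' s) (h : Rg S) (hS : IsStar S) (W : Wf Δ S L w) :
    2 * ∑ x ∈ inq S k e e' k' s, S.rdeg x + ∑ x ∈ inq S k e e' k' s, vdeg S x +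
      2 * ∑ x ∈ inq S k e e' k' s, nul S (teq S k k') x ≤ 12 * (inq S k e e' k' s).card + 1 := by
  have hh := hQ.dead h hS W
  have hU := fun z => hQ.mem_inq (z := z)
  have hT := fun z => hQ.mem_teq hh (z := z)
  have ho := fun z => off4 (S := S) (k' := k') (z := z) hQ.he hQ.hw
  have hside : ∀ z, S.Off ![k, e, S.M.α e', S.M.α k'] z → s (S.M.α z) = s z := fun z hz =>
    off_side hQ.hc hQ.hs hz
  have hmA : S.M.v k ∈ S.A := h.real_A _ hQ.hk
  have hyA : S.M.v (S.M.α k) ∈ S.A := h.real_A _ (by rw [h.real_α]; exact hQ.hk)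
  have hvA : S.M.v (S.M.α k') ∈ S.A := h.real_A _ (by rw [h.real_α]; exact hQ.hk')
  have heA : S.M.v e ∈ S.A := by rw [hQ.he]; exact hyA
  have sk : s k = true := hQ.hs.t 0
  have se : s e = true := hQ.hs.t 1
  have se' : s (S.M.α e') = true := hQ.hs.t 2
  have sk' : s (S.M.α k') = true := hQ.hs.t 3
  have fk : s (S.M.α k) = false := hQ.hs.f 0
  have fe : s (S.M.α e) = false := hQ.hs.f 1
  have fe' : s (S.M.α (S.M.α e')) = false := hQ.hs.f 2
  have fk' : s (S.M.α (S.M.α k')) = false := hQ.hs.f 3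
  rw [S.M.αα] at fe' fk'
  -- the sums
  have eR : ∑ x ∈ inq S k e e' k' s, S.rdeg x =
      ∑ z, if S.M.v z ∈ inq S k e e' k' s ∧ S.real z = true then 1 else 0 := by
    unfold rdeg
    exact sum_at S _ _
  have eV : ∑ x ∈ inq S k e e' k' s, vdeg S x =
      ∑ z, if S.M.v z ∈ inq S k e e' k' s ∧ S.real z = false then 1 else 0 := by
    unfold vdeg
    exact sum_at S _ _
  have eN : ∑ x ∈ inq S k e e' k' s, nul S (teq S k k') x =
      ∑ z, if S.M.v z ∈ teq S k k' ∧ S.real z = true ∧ S.M.v (S.M.α z) ∈ inq S k e e' k' s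
        then 1 else 0 := by
    unfold nul
    rw [sum_at S _ (fun z => S.real z = true ∧ S.M.v (S.M.α z) ∈ teq S k k'),
      ← sum_α_nat S.M (fun z => if S.M.v z ∈ teq S k k' ∧ S.real z = true ∧
        S.M.v (S.M.α z) ∈ inq S k e e' k' s then 1 else 0)]
    refine Finset.sum_congr rfl fun z _ => ?_
    rw [S.M.αα, h.real_α]
    exact if_congr (by tauto) rfl rfl
  -- the first inner dart at the hub
  obtain ⟨a, ha⟩ : ∃ a, a = S.M.φ e := ⟨_, rfl⟩
  obtain ⟨r1, r2, r3, r4⟩ | ⟨r1, r2, r3, r4⟩ := hS.virt W hQ.re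
  · exact absurd heA r3
  rw [← ha] at r1 r2
  have va : S.M.v a = S.M.v (S.M.α e) := by rw [ha, S.M.vφ]
  have sa : s a = true := by rw [ha, hQ.hs.φ, se]
  have w1 : S.M.v (S.M.α (S.M.φ a)) = S.M.v (S.M.α k) := by
    rw [← S.M.vφ, ha, S.M.φ3, hQ.he]
  have w2 : S.M.v (S.M.φ a) = S.M.v (S.M.α a) := S.M.vφ a
  have xA : S.M.v (S.M.α a) ∈ S.A := by rw [← w2]; exact h.real_A _ r1
  have ne1 : a ≠ S.M.α e' := by
    intro h0
    refine hQ.hn (S.M.α (S.M.φ a)) (by rw [h.real_α]; exact r1) w1 ?_
    rw [S.M.αα, w2, h0, S.M.αα, hQ.he']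
  have ne2 : a ≠ S.M.α e := fun h0 => by rw [h0, fe] at sa; exact absurd sa (by decide)
  have aA : S.M.v a ∉ S.A := by rw [va]; exact hh
  have sαa : s (S.M.α a) = true := by
    rw [hQ.hs.o a (fun i => ?_) (fun i => ?_), sa]
    · fin_cases i
      · exact fun h0 => aA (by rw [h0]; exact hmA)
      · exact fun h0 => aA (by rw [h0]; exact heA)
      · exact ne1
      · exact fun h0 => aA (by rw [h0]; exact hvA)
    · fin_cases i
      · exact fun h0 => aA (by rw [h0]; exact hyA)
      · exact ne2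
      · intro h0
        have h0 : a = S.M.α (S.M.α e') := h0
        rw [S.M.αα] at h0
        exact aA (by rw [h0, hQ.he']; exact hvA)
      · intro h0
        have h0 : a = S.M.α (S.M.α k') := h0
        rw [S.M.αα] at h0
        exact aA (by rw [h0, hQ.vk]; exact hmA)
  have x1 : S.M.v (S.M.α a) ≠ S.M.v (S.M.α k) := by
    have := h.real_ne _ r1
    rw [w1, w2] at this
    exact this
  have x2 : S.M.v (S.M.α a) ≠ S.M.v (S.M.α k') := fun h0 =>
    hQ.hn (S.M.α (S.M.φ a)) (by rw [h.real_α]; exact r1) w1 (by rw [S.M.αα, w2, h0])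
  have x3 : S.M.v (S.M.α a) ≠ S.M.v (S.M.α e) := fun h0 => hh (by rw [← h0]; exact xA)
  have ra : S.real a = false := by
    cases h0 : S.real a
    · rfl
    · exact absurd (h.real_A _ h0) aA
  have rαa : S.real (S.M.α a) = false := by rw [h.real_α]; exact ra
  have na : ¬ S.Off ![k, e, S.M.α e', S.M.α k'] a := by
    rw [ho]; exact fun h0 => h0.2.2.1 va
  -- the hubs inside
  obtain ⟨KF, hKF⟩ : ∃ KF : Finset D, KF = Finset.univ.filter fun z => s z = true ∧
    S.Off ![k, e, S.M.α e', S.M.α k'] z ∧ S.M.v z ∉ S.A := ⟨_, rfl⟩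
  have mKF : ∀ z, z ∈ KF ↔ s z = true ∧ S.Off ![k, e, S.M.α e', S.M.α k'] z ∧
      S.M.v z ∉ S.A := by
    intro z
    rw [hKF, Finset.mem_filter]
    simp
  have hH : 4 * (KF.image S.M.v).card ≤ KF.card := by
    rw [Finset.card_eq_sum_card_image S.M.v KF, mul_comm, ← smul_eq_mul]
    refine Finset.card_nsmul_le_sum _ _ _ fun b hb => ?_
    obtain ⟨z0, hz0, rfl⟩ := Finset.mem_image.1 hb
    obtain ⟨k1, k2, k3⟩ := (mKF z0).1 hz0
    refine le_trans (h.hub4 hS W k3) ?_
    unfold St.nd
    refine Finset.card_le_card fun z hz => ?_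
    rw [Finset.mem_filter] at hz ⊢
    have k4 : S.Off ![k, e, S.M.α e', S.M.α k'] z := fun i => by rw [hz.2]; exact k2 i
    refine ⟨(mKF z).2 ⟨?_, k4, by rw [hz.2]; exact k3⟩, hz.2⟩
    rw [hQ.hs.vert hQ.hc k4 hz.2, k1]
  have eK : KF.card = ∑ z, if S.M.α z ∈ KF then 1 else 0 := by
    rw [sum_α_nat S.M (fun z => if z ∈ KF then 1 else 0), ← Finset.card_filter]
    congr 1
    ext z
    simp
  obtain ⟨X, hX⟩ : ∃ X : ℕ, X = if S.M.v (S.M.α a) = S.M.v k then 1 else 0 := ⟨_, rfl⟩
  have hX1 : X ≤ 1 := by rw [hX]; split_ifs <;> omega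
  have hK : KF.card + (1 - X) ≤
      (∑ z, if S.M.v z ∈ inq S k e e' k' s ∧ S.real z = false then 1 else 0) +
      ∑ z, if PQ S k e e' k' s z then 1 else 0 := by
    have e1 : 1 - X = ∑ z, if z = S.M.α a then 1 - X else 0 := by
      rw [Finset.sum_ite_eq' Finset.univ (S.M.α a), if_pos (Finset.mem_univ _)]
    rw [eK, e1, ← Finset.sum_add_distrib, ← Finset.sum_add_distrib]
    refine Finset.sum_le_sum fun z _ => ?_
    by_cases hz : S.M.α z ∈ KF
    · rw [if_pos hz, if_neg (fun h0 => na (by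
        have := ((mKF _).1 hz).2.1
        rwa [h0, S.M.αα] at this))]
      obtain ⟨k1, k2, k3⟩ := (mKF _).1 hz
      have k4 : S.M.v z ∈ S.A := by
        have := hS.alivev W k3
        rwa [S.M.αα] at this
      have k5 : S.real z = false := by
        cases h0 : S.real z
        · rfl
        · exact absurd (h.real_A _ (by rw [h.real_α]; exact h0)) k3
      have k6 : s z = true := by
        have := hside _ k2
        rw [S.M.αα] at this
        rw [this, k1]
      by_cases k7 : S.Off ![k, e, S.M.α e', S.M.α k'] z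
      · rw [if_pos ⟨(hU z).2 ⟨k4, k7, k6⟩, k5⟩]
        omega
      · rw [if_pos (show PQ S k e e' k' s z from ⟨k5, k6, k7, k4, k2⟩)]
        omega
    · rw [if_neg hz]
      by_cases hz2 : z = S.M.α a
      · rw [if_pos hz2, hX]
        by_cases hx : S.M.v (S.M.α a) = S.M.v k
        · rw [if_pos hx]; exact Nat.zero_le _
        · rw [if_neg hx, if_pos]
          · omega
          · rw [hz2]
            exact ⟨(hU _).2 ⟨xA, (ho _).2 ⟨hx, x1, x3, x2⟩, sαa⟩, rαa⟩
      · rw [if_neg hz2]; exact Nat.zero_le _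
  -- Euler's formula
  have hE : (∑ z, if s z = true then 1 else 0) ≤
      6 * (inq S k e e' k' s).card + 6 * (KF.image S.M.v).card + 6 := by
    have e1 := side4_le hQ.hc hQ.hs
    have e5 : ((Finset.univ.image S.M.v) \
        ((Finset.univ.filter fun z => s z = false).image S.M.v)).card ≤
        (inq S k e e' k' s).card + (KF.image S.M.v).card := by
      refine le_trans (Finset.card_le_card (t := inq S k e e' k' s ∪ KF.image S.M.v)
        fun x hx => ?_) (Finset.card_union_le _ _)
      obtain ⟨hx1, hx2⟩ := Finset.mem_sdiff.1 hx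
      obtain ⟨z, -, rfl⟩ := Finset.mem_image.1 hx1
      have hf : ∀ z', S.M.v z' = S.M.v z → s z' = true := by
        intro z' hz'
        cases h0 : s z'
        · exact absurd (Finset.mem_image.2 ⟨z', Finset.mem_filter.2 ⟨Finset.mem_univ _, h0⟩, hz'⟩)
            hx2
        · rfl
      have hoz : S.Off ![k, e, S.M.α e', S.M.α k'] z := by
        intro i hi
        have q1 : S.M.v (S.M.α (![k, e, S.M.α e', S.M.α k'] (i - 1))) = S.M.v z := by
          rw [hQ.hc.nx, sub_add_cancel]; exact hi.symm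
        have q2 : s (S.M.α (![k, e, S.M.α e', S.M.α k'] (i - 1))) = false := hQ.hs.f _
        rw [hf _ q1] at q2
        exact absurd q2 (by decide)
      by_cases k2 : S.M.v z ∈ S.A
      · exact Finset.mem_union_left _ ((hU z).2 ⟨k2, hoz, hf z rfl⟩)
      · exact Finset.mem_union_right _ (Finset.mem_image_of_mem _ ((mKF z).2 ⟨hf z rfl, hoz, k2⟩))
    omega
  -- the darts inside
  have hn : (∑ z, if S.M.v z ∈ inq S k e e' k' s ∧ S.real z = true then 1 else 0) +
      (∑ z, if S.M.v z ∈ inq S k e e' k' s ∧ S.real z = false then 1 else 0) + KF.card + 4 +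
      (∑ z, if S.M.v z ∈ teq S k k' ∧ S.real z = true ∧ S.M.v (S.M.α z) ∈ inq S k e e' k' s
        then 1 else 0) + (∑ z, if PQ S k e e' k' s z then 1 else 0) + 1 + X ≤
      ∑ z, if s z = true then 1 else 0 := by
    have e1 : KF.card = ∑ z, if z ∈ KF then 1 else 0 := by
      rw [← Finset.card_filter]
      congr 1
      ext z
      simp
    have e2 : (4 : ℕ) = (∑ z, if z = k then 1 else 0) + (∑ z, if z = e then 1 else 0) +
        (∑ z, if z = S.M.α e' then 1 else 0) + ∑ z, if z = S.M.α k' then 1 else 0 := by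
      rw [Finset.sum_ite_eq' Finset.univ k, Finset.sum_ite_eq' Finset.univ e,
        Finset.sum_ite_eq' Finset.univ (S.M.α e'), Finset.sum_ite_eq' Finset.univ (S.M.α k'),
        if_pos (Finset.mem_univ _), if_pos (Finset.mem_univ _), if_pos (Finset.mem_univ _),
        if_pos (Finset.mem_univ _)]
    have e3 : (1 : ℕ) = ∑ z, if z = a then 1 else 0 := by
      rw [Finset.sum_ite_eq' Finset.univ a, if_pos (Finset.mem_univ _)]
    have e4 : X = ∑ z, if z = S.M.α a then X else 0 := by
      rw [Finset.sum_ite_eq' Finset.univ (S.M.α a), if_pos (Finset.mem_univ _)]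
    have key : ∀ z, (if S.M.v z ∈ inq S k e e' k' s ∧ S.real z = true then 1 else 0) +
        (if S.M.v z ∈ inq S k e e' k' s ∧ S.real z = false then 1 else 0) +
        (if z ∈ KF then 1 else 0) + ((if z = k then 1 else 0) + (if z = e then 1 else 0) +
        (if z = S.M.α e' then 1 else 0) + (if z = S.M.α k' then 1 else 0)) +
        (if S.M.v z ∈ teq S k k' ∧ S.real z = true ∧ S.M.v (S.M.α z) ∈ inq S k e e' k' s
          then 1 else 0) + (if PQ S k e e' k' s z then 1 else 0) + (if z = a then 1 else 0) +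
        (if z = S.M.α a then X else 0) ≤ if s z = true then 1 else 0 := by
      intro z
      have nk : ¬ S.Off ![k, e, S.M.α e', S.M.α k'] k := fun h0 => h0 0 rfl
      have ne0 : ¬ S.Off ![k, e, S.M.α e', S.M.α k'] e := fun h0 => h0 1 rfl
      have ne' : ¬ S.Off ![k, e, S.M.α e', S.M.α k'] (S.M.α e') := fun h0 => h0 2 rfl
      have nk' : ¬ S.Off ![k, e, S.M.α e', S.M.α k'] (S.M.α k') := fun h0 => h0 3 rfl
      have nαk : ¬ S.Off ![k, e, S.M.α e', S.M.α k'] (S.M.α k) := fun h0 =>
        h0 1 hQ.he.symm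
      have nαe : ¬ S.Off ![k, e, S.M.α e', S.M.α k'] (S.M.α e) := fun h0 => h0 2 hQ.hw
      have nek : ¬ S.Off ![k, e, S.M.α e', S.M.α k'] k' := fun h0 => h0 0 hQ.vk
      by_cases k1 : S.Off ![k, e, S.M.α e', S.M.α k'] z
      · rw [if_neg (c := z = k) (fun h0 => nk (h0 ▸ k1)),
          if_neg (c := z = e) (fun h0 => ne0 (h0 ▸ k1)),
          if_neg (c := z = S.M.α e') (fun h0 => ne' (h0 ▸ k1)),
          if_neg (c := z = S.M.α k') (fun h0 => nk' (h0 ▸ k1)),
          if_neg (c := S.M.v z ∈ teq S k k' ∧ _) (fun h0 => ((hT z).1 h0.1).2 k1),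
          if_neg (c := PQ S k e e' k' s z) (fun h0 => h0.2.2.1 k1),
          if_neg (c := z = a) (fun h0 => na (h0 ▸ k1))]
        have hXz : (if z = S.M.α a then X else 0) = 0 := by
          by_cases h0 : z = S.M.α a
          · rw [if_pos h0, hX, if_neg]
            rw [← h0]
            exact ((ho z).1 k1).1
          · rw [if_neg h0]
        rw [hXz]
        cases hsz : s z
        · rw [if_neg, if_neg, if_neg]
          · exact Nat.zero_le _
          · intro h0
            have := ((mKF z).1 h0).1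
            rw [hsz] at this
            exact absurd this (by decide)
          · rintro ⟨h0, _⟩
            have := ((hU z).1 h0).2.2
            rw [hsz] at this
            exact absurd this (by decide)
          · rintro ⟨h0, _⟩
            have := ((hU z).1 h0).2.2
            rw [hsz] at this
            exact absurd this (by decide)
        · rw [if_pos (rfl : true = true)]
          by_cases k2 : S.M.v z ∈ S.A
          · rw [if_neg (c := z ∈ KF) (fun h0 => ((mKF z).1 h0).2.2 k2)]
            cases S.real z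
            · rw [if_neg (fun h0 => absurd h0.2 (by decide))]
              split_ifs <;> omega
            · rw [if_neg (c := _ ∧ true = false) (fun h0 => absurd h0.2 (by decide))]
              split_ifs <;> omega
          · rw [if_neg (fun h0 => k2 ((hU z).1 h0.1).1), if_neg (fun h0 => k2 ((hU z).1 h0.1).1)]
            split_ifs <;> omega
      · have u1 : ¬ S.M.v z ∈ inq S k e e' k' s := fun h0 => k1 ((hU z).1 h0).2.1
        rw [if_neg (fun h0 => u1 h0.1), if_neg (fun h0 => u1 h0.1),
          if_neg (c := z ∈ KF) (fun h0 => k1 ((mKF z).1 h0).2.1)]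
        -- facts about the two sums
        have T1 : ∀ {z}, S.real z = false → ¬ (S.M.v z ∈ teq S k k' ∧ S.real z = true ∧
            S.M.v (S.M.α z) ∈ inq S k e e' k' s) := fun hz h0 => by
          rw [hz] at h0
          exact absurd h0.2.1 (by decide)
        have T2 : ∀ {z}, S.M.v z ∉ S.A → ¬ (S.M.v z ∈ teq S k k' ∧ S.real z = true ∧
            S.M.v (S.M.α z) ∈ inq S k e e' k' s) := fun hz h0 => hz ((hT _).1 h0.1).1
        have T3 : ∀ {z}, ¬ S.Off ![k, e, S.M.α e', S.M.α k'] (S.M.α z) →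
            ¬ (S.M.v z ∈ teq S k k' ∧ S.real z = true ∧
            S.M.v (S.M.α z) ∈ inq S k e e' k' s) := fun hz h0 => hz ((hU _).1 h0.2.2).2.1
        have P1 : ∀ {z}, S.real z = true → ¬ PQ S k e e' k' s z := fun hz h0 => by
          have := h0.1
          rw [hz] at this
          exact absurd this (by decide)
        have P2 : ∀ {z}, S.M.v z ∉ S.A → ¬ PQ S k e e' k' s z := fun hz h0 => hz h0.2.2.2.1
        have P3 : ∀ {z}, ¬ S.Off ![k, e, S.M.α e', S.M.α k'] (S.M.α z) →
            ¬ PQ S k e e' k' s z := fun hz h0 => hz h0.2.2.2.2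
        have m1 : k ≠ e := fun h0 => hQ.n01 (by rw [← hQ.he, ← h0])
        have m2 : k ≠ S.M.α e' := fun h0 => hQ.n02 (by rw [hQ.hw, ← h0])
        have m3 : k ≠ S.M.α k' := fun h0 => hQ.n03 (by rw [← h0])
        have m4 : k ≠ a := fun h0 => aA (by rw [← h0]; exact hmA)
        have m5 : k ≠ S.M.α a := fun h0 => by
          have := hQ.hk
          rw [h0, rαa] at this
          exact absurd this (by decide)
        have m6 : e ≠ S.M.α e' := fun h0 => hh (by rw [hQ.hw, ← h0]; exact heA)
        have m7 : e ≠ S.M.α k' := fun h0 => hQ.n13 (by rw [← hQ.he, ← h0])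
        have m8 : e ≠ a := fun h0 => aA (by rw [← h0]; exact heA)
        have m9 : e ≠ S.M.α a := fun h0 => x1 (by rw [← hQ.he, ← h0])
        have m10 : S.M.α e' ≠ S.M.α k' := fun h0 => hQ.n23 (by rw [hQ.hw, ← h0])
        have m11 : S.M.α e' ≠ S.M.α a := fun h0 => hh (by rw [hQ.hw, h0]; exact xA)
        have m12 : S.M.α k' ≠ a := fun h0 => aA (by rw [← h0]; exact hvA)
        have m13 : S.M.α k' ≠ S.M.α a := fun h0 => x2 (by rw [← h0])
        have m14 : a ≠ S.M.α a := fun h0 => aA (by rw [h0]; exact xA)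
        by_cases c1 : z = k
        · subst c1
          rw [if_pos rfl, if_neg m1, if_neg m2, if_neg m3, if_neg (T3 nαk), if_neg (P3 nαk),
            if_neg m4, if_neg m5, if_pos sk]
        rw [if_neg c1]
        by_cases c2 : z = e
        · subst c2
          rw [if_pos rfl, if_neg m6, if_neg m7, if_neg (T1 hQ.re), if_neg (P3 nαe),
            if_neg m8, if_neg m9, if_pos se]
        rw [if_neg c2]
        by_cases c3 : z = S.M.α e'
        · subst c3
          have hd : S.M.v (S.M.α e') ∉ S.A := by rw [← hQ.hw]; exact hh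
          rw [if_pos rfl, if_neg m10, if_neg (T2 hd), if_neg (P2 hd), if_neg ne1.symm,
            if_neg m11, if_pos se']
        rw [if_neg c3]
        by_cases c4 : z = S.M.α k'
        · subst c4
          have hd : ¬ S.Off ![k, e, S.M.α e', S.M.α k'] (S.M.α (S.M.α k')) := by
            rw [S.M.αα]; exact nek
          rw [if_pos rfl, if_neg (T3 hd), if_neg (P3 hd), if_neg m12, if_neg m13, if_pos sk']
        rw [if_neg c4]
        by_cases c5 : z = a
        · subst c5
          rw [if_neg (T2 aA), if_neg (P2 aA), if_pos rfl, if_neg m14, if_pos sa]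
        rw [if_neg c5]
        by_cases c6 : z = S.M.α a
        · have hd : ¬ S.Off ![k, e, S.M.α e', S.M.α k'] (S.M.α z) := by
            rw [c6, S.M.αα]; exact na
          rw [if_neg (T3 hd), if_neg (P3 hd), if_pos c6, c6, if_pos sαa]
          omega
        rw [if_neg c6]
        by_cases c7 : PQ S k e e' k' s z
        · rw [if_neg (T1 c7.1), if_pos c7, if_pos c7.2.1]
        · rw [if_neg c7]
          split_ifs with c8 c9 c9
          · omega
          · exfalso
            have := (hU _).1 c8.2.2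
            have h9 := hside _ this.2.1
            rw [S.M.αα, this.2.2] at h9
            exact c9 h9
          · omega
          · omega
    have h0 := Finset.sum_le_sum (s := Finset.univ) (fun z (_ : z ∈ Finset.univ) => key z)
    simp only [Finset.sum_add_distrib] at h0
    omega
  rw [eR, eV, eN]
  omega

end

end Pool.FC7
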