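import Pool.Agent.FC7.DiH

/-! # The region in which common faces of two neighbours of a vertex are faces at this vertex

`Dsq S U T`: like `Dsc`, but `U` is the inside of a smallest closed curve of length three, or of a
smallest closed curve of length four through a face in it.  The price of a null neighbour is 3/4. -/

open Finset

set_option linter.unusedSectionVars false

namespace Pool.FC7

open Pool.FC6 Pool.FC6.St

variable {D V : Type} [Fintype D] [DecidableEq V] {S : St D V} {L : D → Bool} {w : D → ℕ} {Δ : ℕ}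

/-- the side of a curve of length four contained in the inside of another curve -/
theorem IsQ.into {n : ℕ} [NeZero n] {c : Fin n → D} (hc : S.M.Curve c) {s0 : D → Bool}
    (hs0 : S.M.SideOf c s0) (hra : ∀ d, S.real (S.M.α d) = S.real d) {k e e' k' : D}
    {s : D → Bool} (hQ : IsQ S k e e' k' s) (o1 : S.Off c k) (t1 : s0 k = true)
    (o2 : S.Off c (S.M.α k)) (t2 : s0 (S.M.α k) = true) (o3 : S.Off c (S.M.α k'))
    (t3 : s0 (S.M.α k') = true) :
    ∃ k1 e1 e1' k1' s1, IsQ S k1 e1 e1' k1' s1 ∧ S.M.v k1 = S.M.v k ∧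
      ((S.M.v (S.M.α k1) = S.M.v (S.M.α k) ∧ S.M.v (S.M.α k1') = S.M.v (S.M.α k')) ∨
      (S.M.v (S.M.α k1) = S.M.v (S.M.α k') ∧ S.M.v (S.M.α k1') = S.M.v (S.M.α k))) ∧
      ∀ z, s0 z = false → s1 z = false := by
  have hoff : ∀ {x y}, S.M.v x = S.M.v y → S.Off c y → S.Off c x := fun h1 h2 i => by
    rw [h1]; exact h2 i
  have oe : S.Off c e := hoff hQ.he o2
  have oe' : S.Off c e' := hoff hQ.he' o3
  have ok' : S.Off c k' := hoff hQ.vk o1
  have te : s0 e = true := by rw [← t2]; exact hs0.vert hc oe hQ.he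
  have te' : s0 e' = true := by rw [← t3]; exact hs0.vert hc oe' hQ.he'
  have tk' : s0 k' = true := by rw [← t1]; exact hs0.vert hc ok' hQ.vk
  have tαe : s0 (S.M.α e) = true := by rw [off_side hc hs0 oe, te]
  have tαe' : s0 (S.M.α e') = true := by rw [off_side hc hs0 oe', te']
  have hs := hQ.hs
  have hcon := side_const hc hs0 (s' := s) hs.φ (by
    intro z b1 _
    have nz : ∀ y, s0 y = true → z ≠ y := fun y hy h0 => by
      rw [h0, hy] at b1
      exact absurd b1 (by decide)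
    refine hs.o z (fun i => ?_) (fun i => ?_)
    · fin_cases i
      · exact nz _ t1
      · exact nz _ te
      · exact nz _ tαe'
      · exact nz _ t3
    · fin_cases i
      · exact nz _ t2
      · exact nz _ tαe
      · exact nz _ (by
          show s0 (S.M.α (S.M.α e')) = true
          rw [S.M.αα]; exact te')
      · exact nz _ (by
          show s0 (S.M.α (S.M.α k')) = true
          rw [S.M.αα]; exact tk'))
  have h0 : s0 (S.M.α (c 0)) = false := hs0.f 0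
  cases hb : s (S.M.α (c 0))
  · exact ⟨k, e, e', k', s, hQ, rfl, Or.inl ⟨rfl, rfl⟩, fun z hz => by rw [hcon z _ hz h0, hb]⟩
  · refine ⟨k', e', e, k, fun z => !s z, hQ.symm hra, hQ.vk, Or.inr ⟨rfl, rfl⟩, fun z hz => ?_⟩
    show (!s z) = false
    rw [hcon z _ hz h0, hb]; rfl

theorem IsQ.sub {n : ℕ} [NeZero n] {c : Fin n → D} (hc : S.M.Curve c) {s0 : D → Bool}
    (hs0 : S.M.SideOf c s0) {k e e' k' : D} {s : D → Bool} (hQ : IsQ S k e e' k' s)
    (hout : ∀ z, s0 z = false → s z = false) :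
    inq S k e e' k' s ⊆ S.A.filter fun x => S.sd c s0 true x = true := by
  classical
  intro x hx
  obtain ⟨hxA, hxs⟩ := Finset.mem_filter.1 hx
  have hxs' : ∃ z, S.M.v z = x ∧ S.Off ![k, e, S.M.α e', S.M.α k'] z ∧ s z = true := by
    unfold St.sd at hxs
    exact of_decide_eq_true hxs
  obtain ⟨z, c1, c2, c3⟩ := hxs'
  have hoz : S.Off c z := by
    intro i hi
    have q1 : S.M.v (S.M.α (c (i - 1))) = S.M.v z := by
      rw [hc.nx, sub_add_cancel]; exact hi.symm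
    have q3 := hout _ (hs0.f (i - 1))
    have q4 : s z = s (S.M.α (c (i - 1))) := hQ.hs.vert hQ.hc c2 q1.symm
    rw [c3, q3] at q4
    exact absurd q4 (by decide)
  have hsz : s0 z = true := by
    cases h0 : s0 z
    · rw [hout z h0] at c3
      exact absurd c3 (by decide)
    · rfl
  refine Finset.mem_filter.2 ⟨hxA, ?_⟩
  rw [← c1]
  exact (sd_off hc hs0 hoz).2 hsz

/-- every curve of length four through a face and vertices of `U` has a side in `U` -/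
def CloQ (S : St D V) (U : Finset V) : Prop :=
  ∀ k e e' k' s, IsQ S k e e' k' s → S.M.v k ∈ U → S.M.v (S.M.α k) ∈ U → S.M.v (S.M.α k') ∈ U →
    ∃ k1 e1 e1' k1' s1, IsQ S k1 e1 e1' k1' s1 ∧ S.M.v k1 = S.M.v k ∧
      ((S.M.v (S.M.α k1) = S.M.v (S.M.α k) ∧ S.M.v (S.M.α k1') = S.M.v (S.M.α k')) ∨
      (S.M.v (S.M.α k1) = S.M.v (S.M.α k') ∧ S.M.v (S.M.α k1') = S.M.v (S.M.α k))) ∧
      inq S k1 e1 e1' k1' s1 ⊆ U

theorem clo_side {n : ℕ} [NeZero n] {c : Fin n → D} (hc : S.M.Curve c) {s0 : D → Bool}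
    (hs0 : S.M.SideOf c s0) (hra : ∀ d, S.real (S.M.α d) = S.real d) :
    CloQ S (S.A.filter fun x => S.sd c s0 true x = true) := by
  intro k e e' k' s hQ h1 h2 h3
  have key : ∀ z, S.M.v z ∈ (S.A.filter fun x => S.sd c s0 true x = true) →
      S.Off c z ∧ s0 z = true := by
    intro z hz
    have h4 := (Finset.mem_filter.1 hz).2
    have h5 : S.Off c z := by
      by_contra hn
      rw [sd_on hn] at h4
      exact absurd h4 (by decide)
    exact ⟨h5, (sd_off hc hs0 h5).1 h4⟩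
  obtain ⟨k1, e1, e1', k1', s1, a1, a2, a3, a4⟩ := hQ.into hc hs0 hra (key _ h1).1 (key _ h1).2
    (key _ h2).1 (key _ h2).2 (key _ h3).1 (key _ h3).2
  exact ⟨k1, e1, e1', k1', s1, a1, a2, a3, a1.sub hc hs0 a4⟩

/-- the region used for the discharging -/
structure Dsq (S : St D V) (U T : Finset V) : Prop where
  UA : U ⊆ S.A
  TA : T ⊆ S.A
  dis : ∀ x ∈ U, x ∉ T
  ne : U.Nonempty
  T3 : T.card ≤ 3
  nb : ∀ z, S.real z = true → S.M.v z ∈ U → S.M.v (S.M.α z) ∈ U ∨ S.M.v (S.M.α z) ∈ T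
  n2 : ∀ x ∈ S.A, S.N2 x
  fc : ∀ z, S.real z = true → S.M.v z ∈ U → Fc3 S z
  d4 : ∀ k k', S.real k = true → S.real k' = true → S.M.v k' = S.M.v k → S.M.v k ∈ U →
    S.M.v (S.M.α k) ∈ U → S.M.v (S.M.α k') ∈ U → k' ≠ k → k' ≠ S.M.σ k → S.M.σ k' ≠ k →
    D4H S k k'
  cnt : 4 * ∑ x ∈ U, S.rdeg x + 2 * ∑ x ∈ U, vdeg S x + 3 * ∑ x ∈ U, nul S T x < 24 * U.card

theorem Rg.nul4 (h : Rg S) {U T : Finset V} (hUA : U ⊆ S.A) (hne : U.Nonempty)
    (hex : ∃ y ∈ S.A, y ∉ U)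
    (nb : ∀ z, S.real z = true → S.M.v z ∈ U → S.M.v (S.M.α z) ∈ U ∨ S.M.v (S.M.α z) ∈ T) :
    4 ≤ ∑ x ∈ U, nul S T x := by
  classical
  obtain ⟨x, hx⟩ := hne
  obtain ⟨y, hy, hyU⟩ := hex
  refine (h.cut4 (fun x => decide (x ∈ U)) ⟨x, hUA hx, by simp [hx]⟩ ⟨y, hy, by simp [hyU]⟩).trans ?_
  unfold nul
  rw [sum_at S _ (fun z => S.real z = true ∧ S.M.v (S.M.α z) ∈ T)]
  unfold rc
  refine Finset.sum_le_sum fun z _ => ?_
  by_cases h1 : S.real z = true ∧ decide (S.M.v z ∈ U) = true ∧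
      decide (S.M.v (S.M.α z) ∈ U) = false
  · obtain ⟨a1, a2, a3⟩ := h1
    have a2 : S.M.v z ∈ U := of_decide_eq_true a2
    have a3 : S.M.v (S.M.α z) ∉ U := of_decide_eq_false a3
    rw [if_pos (show S.M.v z ∈ U ∧ S.real z = true ∧ S.M.v (S.M.α z) ∈ T from
      ⟨a2, a1, (nb z a1 a2).resolve_left a3⟩)]
    split_ifs <;> omega
  · rw [if_neg h1]; exact Nat.zero_le _

/-- the count of `Dsc` with the smaller price -/
theorem Dsc.cnt' {U T : Finset V} (hD : Dsc S U T) (h : Rg S) :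
    4 * ∑ x ∈ U, S.rdeg x + 2 * ∑ x ∈ U, vdeg S x + 3 * ∑ x ∈ U, nul S T x < 24 * U.card := by
  by_cases hex : ∃ y ∈ S.A, y ∉ U
  · have h1 := h.nul4 hD.UA hD.ne hex hD.nb
    have h2 := hD.cnt
    omega
  · push Not at hex
    rcases hD.str with h1 | ⟨x, hx, r, a1, a2, a3, a4, a5⟩
    · omega
    · exact absurd a4 (hD.dis _ (hex _ (hD.TA a4)))

theorem Dsc.nadj {U T : Finset V} (hD : Dsc S U T) {k k' : D} (hk : S.real k = true)
    (hk' : S.real k' = true) (hv : S.M.v k' = S.M.v k) (hU : S.M.v k ∈ U) (h2 : k' ≠ S.M.σ k)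
    (h3 : S.M.σ k' ≠ k) :
    ∀ r, S.real r = true → S.M.v r = S.M.v (S.M.α k) → S.M.v (S.M.α r) ≠ S.M.v (S.M.α k') := by
  intro r _ hr1 hr2
  rcases hD.fc k hk hU k' r hv hr1 hr2.symm with ⟨h4, -⟩ | ⟨h4, -⟩
  · exact h2 h4
  · exact h3 h4

/-- `Dsq` without curves of length four -/
theorem Dsc.dsq {U T : Finset V} (hD : Dsc S U T) (h : Rg S) (hS : IsStar S) (W : Wf Δ S L w)
    (hno : ∀ k e e' k' s, IsQ S k e e' k' s → S.M.v k ∈ U → S.M.v (S.M.α k) ∈ U →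
      S.M.v (S.M.α k') ∈ U → False) : Dsq S U T where
  UA := hD.UA
  TA := hD.TA
  dis := hD.dis
  ne := hD.ne
  T3 := hD.T3
  nb := hD.nb
  n2 := hD.n2
  fc := hD.fc
  d4 k k' hk hk' vk u1 u2 u3 h1 h2 h3 := by
    intro e e' re re' he he' hw
    by_contra ht
    push Not at ht
    have hne : S.M.v (S.M.α k) ≠ S.M.v (S.M.α k') := fun h0 =>
      h1 (hD.n2 _ (hD.UA u1) _ _ vk rfl h0.symm)
    obtain ⟨s, hQ⟩ := h.mkQ hS W hk hk' vk he he' re re' hw hne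
      (hD.nadj hk hk' vk u1 h2 h3) ht
    exact hno _ _ _ _ _ hQ u1 u2 u3
  cnt := hD.cnt' h

/-- the region exists if the 3-region is closed -/
theorem Dsc.exists_dsq {U T : Finset V} (hD : Dsc S U T) (hcl : CloQ S U) (h : Rg S)
    (hS : IsStar S) (W : Wf Δ S L w) : ∃ U T, Dsq S U T := by
  classical
  by_cases hex : ∃ k e e' k' s, IsQ S k e e' k' s ∧ S.M.v k ∈ U ∧ S.M.v (S.M.α k) ∈ U ∧
      S.M.v (S.M.α k') ∈ U
  swap
  · exact ⟨U, T, hD.dsq h hS W fun k e e' k' s hQ a1 a2 a3 =>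
      hex ⟨k, e, e', k', s, hQ, a1, a2, a3⟩⟩
  let P : ℕ → Prop := fun n => ∃ k e e' k' s, IsQ S k e e' k' s ∧ S.M.v k ∈ U ∧
    S.M.v (S.M.α k) ∈ U ∧ S.M.v (S.M.α k') ∈ U ∧ inq S k e e' k' s ⊆ U ∧
    (inq S k e e' k' s).card = n
  have mk : ∀ (U' : Finset V), CloQ S U' → U' ⊆ U → ∀ k e e' k' s, IsQ S k e e' k' s →
      S.M.v k ∈ U' → S.M.v (S.M.α k) ∈ U' → S.M.v (S.M.α k') ∈ U' →
      ∃ n, P n ∧ n < U'.card := by
    intro U' hcl' hUU k e e' k' s hQ a1 a2 a3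
    obtain ⟨k1, e1, e1', k1', s1, b1, b2, b3, b4⟩ := hcl' _ _ _ _ _ hQ a1 a2 a3
    have c1 : S.M.v k1 ∈ U' := by rw [b2]; exact a1
    have c2 : S.M.v (S.M.α k1) ∈ U' := by
      rcases b3 with ⟨b5, b6⟩ | ⟨b5, b6⟩
      · rw [b5]; exact a2
      · rw [b5]; exact a3
    have c3 : S.M.v (S.M.α k1') ∈ U' := by
      rcases b3 with ⟨b5, b6⟩ | ⟨b5, b6⟩
      · rw [b6]; exact a3
      · rw [b6]; exact a2
    refine ⟨_, ⟨k1, e1, e1', k1', s1, b1, hUU c1, hUU c2, hUU c3, b4.trans hUU, rfl⟩,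
      Finset.card_lt_card ⟨b4, fun hsub => ?_⟩⟩
    exact (b1.mem_inq.1 (hsub c1)).2.1 0 rfl
  obtain ⟨k, e, e', k', s, hQ, a1, a2, a3⟩ := hex
  have hP : ∃ n, P n := by
    obtain ⟨n, hn, -⟩ := mk U hcl (Finset.Subset.refl _) _ _ _ _ _ hQ a1 a2 a3
    exact ⟨n, hn⟩
  clear hQ a1 a2 a3 k e e' k' s
  obtain ⟨k, e, e', k', s, hQ, a1, a2, a3, hsub, hcard⟩ := Nat.find_spec hP
  have hh := hQ.dead h hS W
  have hne : (inq S k e e' k' s).Nonempty := by
    obtain ⟨z, k1, k2, k3⟩ := hQ.ne true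
    exact ⟨_, hQ.mem_inq.2 ⟨k1, k2, k3⟩⟩
  have hmA : S.M.v k ∈ S.A := h.real_A _ hQ.hk
  refine ⟨inq S k e e' k' s, teq S k k', Finset.filter_subset _ _, Finset.filter_subset _ _,
    fun x hx hxt => ?_, hne, teq_card k k', fun z hz hv => hQ.nb h hS W hz hv, hD.n2,
    fun z hz hv => hD.fc z hz (hsub hv), ?_, ?_⟩
  · obtain ⟨z, rfl⟩ := W.A_im x (Finset.filter_subset _ _ hx)
    exact ((hQ.mem_teq hh).1 hxt).2 (hQ.mem_inq.1 hx).2.1
  · intro k1 k1' hk hk' vk u1 u2 u3 h1 h2 h3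
    intro e1 e1' re re' he he' hw
    by_contra ht
    push Not at ht
    have hne : S.M.v (S.M.α k1) ≠ S.M.v (S.M.α k1') := fun h0 =>
      h1 (hD.n2 _ (hD.UA (hsub u1)) _ _ vk rfl h0.symm)
    obtain ⟨s1, hQ1⟩ := h.mkQ hS W hk hk' vk he he' re re' hw hne
      (hD.nadj hk hk' vk (hsub u1) h2 h3) ht
    obtain ⟨n, hn, hlt⟩ := mk _ (clo_side hQ.hc hQ.hs h.real_α) hsub _ _ _ _ _ hQ1 u1 u2 u3
    have hlt : n < (inq S k e e' k' s).card := hlt
    rw [hcard] at hlt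
    exact Nat.find_min hP hlt hn
  · have h1 := hQ.count h hS W
    have h2 := h.nul4 (U := inq S k e e' k' s) (T := teq S k k') (Finset.filter_subset _ _) hne
      ⟨S.M.v k, hmA, fun h0 => (hQ.mem_inq.1 h0).2.1 0 rfl⟩ (fun z hz hv => hQ.nb h hS W hz hv)
    omega

end Pool.FC7
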