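import Pool.Agent.FC7.DiI
import Pool.Agent.FC7.DiE

/-! # The region of a minimal counterexample and the discharging principle, price 3/4 -/

open Finset

set_option linter.unusedSectionVars false

namespace Pool.FC7

open Pool.FC6 Pool.FC6.St

variable {D V : Type} [Fintype D] [DecidableEq V] {S : St D V} {L : D → Bool} {w : D → ℕ} {Δ : ℕ}

theorem cloQ_all : CloQ S S.A := fun k e e' k' s hQ _ _ _ =>
  ⟨k, e, e', k', s, hQ, rfl, Or.inl ⟨rfl, rfl⟩, Finset.filter_subset _ _⟩

theorem Rg.dsc_all (h : Rg S) (hS : IsStar S) (W : Wf Δ S L w) (hΔ : Δ ≤ 7)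
    (hall : ∀ d, S.real d = true → Fc3 S d) : Dsc S S.A ∅ := by
  refine ⟨Finset.Subset.refl _, by simp, by simp, h.ne, by simp,
    fun z hz _ => Or.inl (h.real_A _ (by rw [h.real_α]; exact hz)), h.n2 hS W hΔ,
    fun z hz _ => hall z hz, ?_, Or.inl ?_⟩
  · have := h.count hS W
    simp only [nul_empty, Finset.sum_const_zero, mul_zero, add_zero]
    omega
  · have := h.count hS W
    simp only [nul_empty, Finset.sum_const_zero, mul_zero, add_zero]
    omega

theorem IsD.dsc {d e e' : D} {s : D → Bool} (hD : IsD S d e e' s) (h : Rg S) (hS : IsStar S)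
    (W : Wf Δ S L w) (hΔ : Δ ≤ 7)
    (hmin : ∀ d1, S.real d1 = true → S.M.v d1 ∈ ins S d e e' s → Fc3 S d1) :
    Dsc S (ins S d e e' s) (tee S d e) := by
  classical
  have hcnt := hD.count h hS W
  obtain ⟨z0, k1, k2, k3⟩ := hD.ne true
  refine ⟨Finset.filter_subset _ _, Finset.filter_subset _ _, ?_,
    ⟨S.M.v z0, hD.mem_ins.2 ⟨k1, k2, k3⟩⟩, tee_card d e, fun z hz hv => hD.nb h hz hv,
    h.n2 hS W hΔ, hmin, by omega, ?_⟩
  · intro x hx hxt
    obtain ⟨z, rfl⟩ := W.A_im x (Finset.filter_subset _ _ hx)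
    exact ((mem_tee hD.he').1 hxt).2 (hD.mem_ins.1 hx).2.1
  · rcases hD.strict h hS W hΔ with ⟨z, hz⟩ | ⟨z, hz⟩ | h3
    · left
      have : 1 ≤ ∑ z, if PB S d e e' s z then 1 else 0 := by
        refine le_trans ?_ (Finset.single_le_sum (f := fun z => if PB S d e e' s z then 1 else 0)
          (fun _ _ => Nat.zero_le _) (Finset.mem_univ z))
        show 1 ≤ if PB S d e e' s z then 1 else 0
        rw [if_pos hz]
      omega
    · left
      have : 1 ≤ ∑ z, if PP S d e e' s z then 1 else 0 := by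
        refine le_trans ?_ (Finset.single_le_sum (f := fun z => if PP S d e e' s z then 1 else 0)
          (fun _ _ => Nat.zero_le _) (Finset.mem_univ z))
        show 1 ≤ if PP S d e e' s z then 1 else 0
        rw [if_pos hz]
      omega
    · exact Or.inr h3

/-- the region exists -/
theorem Rg.exists_dsq (h : Rg S) (hS : IsStar S) (W : Wf Δ S L w) (hΔ : Δ ≤ 7) :
    ∃ U T, Dsq S U T := by
  rcases exists_disc h hS W hΔ with hall | ⟨d, e, e', s, hD, hmin⟩
  · exact (h.dsc_all hS W hΔ hall).exists_dsq cloQ_all h hS W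
  · exact (hD.dsc h hS W hΔ hmin).exists_dsq (clo_side hD.hc hD.hs h.real_α) h hS W

/-- THE REGION of a minimal counterexample -/
theorem MC.dsq (hΔ : Δ ≤ 6) (h : MC Δ S L w) (hS : IsStar S) : ∃ U T, Dsq S U T :=
  (h.rg hΔ).exists_dsq hS h.ok.toWf (by omega)

open Classical in
/-- the final charge of a vertex of `U`: a gap corner costs 1/2, a neighbour in `T` costs 3/4,
`F d` = what `v d` gets through the dart `d` from a neighbour in `U` -/
noncomputable def cdq (S : St D V) (U T : Finset V) (F : D → ℝ) (x : V) : ℝ :=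
  6 - S.rdeg x - (vdeg S x : ℝ) / 2 - 3 * (nul S T x : ℝ) / 4 +
    ∑ d, if S.M.v d = x ∧ S.real d = true then (if S.M.v (S.M.α d) ∈ U then F d else 0) else 0

/-- DISCHARGING: some vertex of `U` keeps a positive charge -/
theorem Dsq.discharge {U T : Finset V} (hD : Dsq S U T)
    (hra : ∀ d, S.real (S.M.α d) = S.real d) (F : D → ℝ)
    (hF : ∀ d, S.real d = true → S.M.v d ∈ U → S.M.v (S.M.α d) ∈ U → F (S.M.α d) = - F d) :
    ∃ x ∈ U, 0 < cdq S U T F x := by
  classical
  by_contra hc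
  push Not at hc
  have h1 : ∑ x ∈ U, cdq S U T F x = 6 * U.card - (∑ x ∈ U, S.rdeg x : ℕ) -
      ((∑ x ∈ U, vdeg S x : ℕ) : ℝ) / 2 - 3 * ((∑ x ∈ U, nul S T x : ℕ) : ℝ) / 4 := by
    unfold cdq
    rw [Finset.sum_add_distrib, sum_split, sum_flow hra hF, add_zero, Finset.sum_sub_distrib,
      Finset.sum_sub_distrib, Finset.sum_sub_distrib, Finset.sum_const, nsmul_eq_mul, mul_comm,
      ← Finset.sum_div, ← Finset.sum_div, ← Finset.mul_sum]
    push_cast
    ring
  have h2 : ∑ x ∈ U, cdq S U T F x ≤ 0 := Finset.sum_nonpos fun x hx => hc x hx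
  have h4 : (4 : ℝ) * (∑ x ∈ U, S.rdeg x : ℕ) + 2 * (∑ x ∈ U, vdeg S x : ℕ) +
      3 * (∑ x ∈ U, nul S T x : ℕ) < 24 * U.card := by exact_mod_cast hD.cnt
  linarith

end Pool.FC7
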