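import Pool.Agent.FC7.DiJ

/-! # Chordless closed curves of length four

`IsF S k e e' k' s`: the curve through `m = v k`, `y = v (α k)`, `w = v (α e)`, `v' = v (α k')`; `w` may be
a face or an alive vertex. -/

open Finset

set_option linter.unusedSectionVars false

namespace Pool.FC7

open Pool.FC6 Pool.FC6.St

variable {D V : Type} [Fintype D] [DecidableEq V] {S : St D V} {L : D → Bool} {w : D → ℕ} {Δ : ℕ}

/-- a chordless closed curve of length four -/
structure IsF (S : St D V) (k e e' k' : D) (s : D → Bool) : Prop where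
  hk : S.real k = true
  hk' : S.real k' = true
  vk : S.M.v k' = S.M.v k
  he : S.M.v e = S.M.v (S.M.α k)
  he' : S.M.v e' = S.M.v (S.M.α k')
  re : S.real e' = S.real e
  hw : S.M.v (S.M.α e) = S.M.v (S.M.α e')
  hn : ∀ r, S.real r = true → S.M.v r = S.M.v (S.M.α k) → S.M.v (S.M.α r) ≠ S.M.v (S.M.α k')
  ht : ∀ t, S.M.v t = S.M.v k → S.M.v (S.M.α t) ≠ S.M.v (S.M.α e)
  hc : S.M.Curve ![k, e, S.M.α e', S.M.α k']
  hs : S.M.SideOf ![k, e, S.M.α e', S.M.α k'] s

/-- at least two alive vertices on both sides -/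
def TwoF (S : St D V) (k e e' k' : D) (s : D → Bool) : Prop :=
  ∀ b, ∃ z z', S.M.v z ∈ S.A ∧ S.M.v z' ∈ S.A ∧ S.Off ![k, e, S.M.α e', S.M.α k'] z ∧
    S.Off ![k, e, S.M.α e', S.M.α k'] z' ∧ s z = b ∧ s z' = b ∧ S.M.v z ≠ S.M.v z'

/-- the reversed curve -/
theorem side4_symm {k e e' k' : D} {s : D → Bool}
    (hs : S.M.SideOf ![k, e, S.M.α e', S.M.α k'] s) :
    S.M.SideOf ![k', e', S.M.α e, S.M.α k] (fun z => !s z) := by
  refine ⟨fun x => ?_, fun i => ?_, fun i => ?_, fun x h1 h2 => ?_⟩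
  · show (!s (S.M.φ x)) = !s x
    rw [hs.φ]
  · fin_cases i
    · show (!s k') = true
      have := hs.f 3
      rw [show (![k, e, S.M.α e', S.M.α k'] 3 : D) = S.M.α k' from rfl, S.M.αα] at this
      rw [this]; rfl
    · show (!s e') = true
      have := hs.f 2
      rw [show (![k, e, S.M.α e', S.M.α k'] 2 : D) = S.M.α e' from rfl, S.M.αα] at this
      rw [this]; rfl
    · show (!s (S.M.α e)) = true
      have : s (S.M.α e) = false := hs.f 1
      rw [this]; rfl
    · show (!s (S.M.α k)) = true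
      have : s (S.M.α k) = false := hs.f 0
      rw [this]; rfl
  · fin_cases i
    · show (!s (S.M.α k')) = false
      have : s (S.M.α k') = true := hs.t 3
      rw [this]; rfl
    · show (!s (S.M.α e')) = false
      have : s (S.M.α e') = true := hs.t 2
      rw [this]; rfl
    · show (!s (S.M.α (S.M.α e))) = false
      have : s e = true := hs.t 1
      rw [S.M.αα, this]; rfl
    · show (!s (S.M.α (S.M.α k))) = false
      have : s k = true := hs.t 0
      rw [S.M.αα, this]; rfl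
  · show (!s (S.M.α x)) = !s x
    have k1 : x ≠ k' := h1 0
    have k2 : x ≠ e' := h1 1
    have k3 : x ≠ S.M.α e := h1 2
    have k4 : x ≠ S.M.α k := h1 3
    have k5 : x ≠ S.M.α k' := h2 0
    have k6 : x ≠ S.M.α e' := h2 1
    have k7 : x ≠ S.M.α (S.M.α e) := h2 2
    have k8 : x ≠ S.M.α (S.M.α k) := h2 3
    rw [S.M.αα] at k7 k8
    rw [hs.o x (fun i => ?_) (fun i => ?_)]
    · fin_cases i
      · exact k8
      · exact k7
      · exact k6
      · exact k5
    · fin_cases i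
      · exact k4
      · exact k3
      · show x ≠ S.M.α (S.M.α e')
        rw [S.M.αα]; exact k2
      · show x ≠ S.M.α (S.M.α k')
        rw [S.M.αα]; exact k1

/-- a dart between two vertices of the curve has an inner side -/
def CF (S : St D V) {n : ℕ} (c : Fin n → D) (s : D → Bool) : Prop :=
  ∀ z, S.M.v z ∈ S.A → ¬ S.Off c z → ¬ S.Off c (S.M.α z) → ¬ (s z = false ∧ s (S.M.α z) = false)

section

variable {k e e' k' : D} {s : D → Bool}

theorem IsF.n01 (h : IsF S k e e' k' s) : S.M.v k ≠ S.M.v (S.M.α k) := fun h0 =>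
  absurd (h.hc.inj 0 1 (h0.trans h.he.symm)) (by decide)

theorem IsF.n02 (h : IsF S k e e' k' s) : S.M.v k ≠ S.M.v (S.M.α e) := fun h0 =>
  absurd (h.hc.inj 0 2 (h0.trans h.hw)) (by decide)

theorem IsF.n03 (h : IsF S k e e' k' s) : S.M.v k ≠ S.M.v (S.M.α k') := fun h0 =>
  absurd (h.hc.inj 0 3 h0) (by decide)

theorem IsF.n12 (h : IsF S k e e' k' s) : S.M.v (S.M.α k) ≠ S.M.v (S.M.α e) := fun h0 =>
  absurd (h.hc.inj 1 2 (h.he.trans (h0.trans h.hw))) (by decide)

theorem IsF.n13 (h : IsF S k e e' k' s) : S.M.v (S.M.α k) ≠ S.M.v (S.M.α k') := fun h0 =>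
  absurd (h.hc.inj 1 3 (h.he.trans h0)) (by decide)

theorem IsF.n23 (h : IsF S k e e' k' s) : S.M.v (S.M.α e) ≠ S.M.v (S.M.α k') := fun h0 =>
  absurd (h.hc.inj 2 3 (h.hw.symm.trans h0)) (by decide)

theorem IsF.symm (h : IsF S k e e' k' s) (hra : ∀ d, S.real (S.M.α d) = S.real d) :
    IsF S k' e' e k (fun z => !s z) where
  hk := h.hk'
  hk' := h.hk
  vk := h.vk.symm
  he := h.he'
  he' := h.he
  re := h.re.symm
  hw := h.hw.symm
  hn r hr h1 h2 := h.hn (S.M.α r) (by rw [hra]; exact hr) h2 (by rw [S.M.αα]; exact h1)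
  ht t h1 := by rw [← h.hw]; exact h.ht t (h1.trans h.vk)
  hc := curve4 h.vk.symm h.he' h.he h.hw.symm (by rw [h.vk]; exact h.n03)
    (by rw [h.vk, ← h.hw]; exact h.n02) (by rw [h.vk]; exact h.n01)
    (by rw [← h.hw]; exact h.n23.symm) h.n13.symm (by rw [← h.hw]; exact h.n12.symm)
  hs := side4_symm h.hs

theorem IsF.two_symm (h : IsF S k e e' k' s) (ht : TwoF S k e e' k' s) :
    TwoF S k' e' e k (fun z => !s z) := by
  intro b
  obtain ⟨z, z', h1, h2, h3, h4, h5, h6, h7⟩ := ht (!b)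
  have key : ∀ z, S.Off ![k, e, S.M.α e', S.M.α k'] z →
      S.Off ![k', e', S.M.α e, S.M.α k] z := by
    intro z hz
    rw [off4 h.he h.hw] at hz
    rw [off4 h.he' h.hw.symm, h.vk, ← h.hw]
    exact ⟨hz.1, hz.2.2.2, hz.2.2.1, hz.2.1⟩
  refine ⟨z, z', h1, h2, key z h3, key z' h4, ?_, ?_, h7⟩
  · show (!s z) = b
    rw [h5]; simp
  · show (!s z') = b
    rw [h6]; simp

theorem IsF.isQ (h : IsF S k e e' k' s) (hr : S.real e = false) (ht : TwoF S k e e' k' s) :
    IsQ S k e e' k' s where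
  hk := h.hk
  hk' := h.hk'
  vk := h.vk
  he := h.he
  he' := h.he'
  re := hr
  re' := by rw [h.re]; exact hr
  hw := h.hw
  hn := h.hn
  hc := h.hc
  hs := h.hs
  ne b := by
    obtain ⟨z, z', h1, h2, h3, h4, h5, h6, h7⟩ := ht b
    exact ⟨z, h1, h3, h5⟩

/-- the darts between two vertices of the curve, one of them alive -/
theorem IsF.on (h : IsF S k e e' k' s) (hR : Rg S) (hS : IsStar S) (W : Wf Δ S L w) (hΔ : Δ ≤ 7)
    {z : D} (hz : S.M.v z ∈ S.A) (h1 : ¬ S.Off ![k, e, S.M.α e', S.M.α k'] z)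
    (h2 : ¬ S.Off ![k, e, S.M.α e', S.M.α k'] (S.M.α z)) :
    (∃ i, z = ![k, e, S.M.α e', S.M.α k'] i) ∨ ∃ i, z = S.M.α (![k, e, S.M.α e', S.M.α k'] i) := by
  have hN := hR.n2 hS W hΔ _ hz
  unfold Off at h1 h2
  push Not at h1 h2
  obtain ⟨i, hi⟩ := h1
  obtain ⟨j, hj⟩ := h2
  have hij : i ≠ j := by
    rintro rfl
    exact hS.loop W hz (hj.trans hi.symm)
  have hor : j = i + 1 ∨ i = j + 1 ∨ (i = 0 ∧ j = 2) ∨ (i = 2 ∧ j = 0) ∨ (i = 1 ∧ j = 3) ∨
      (i = 3 ∧ j = 1) := by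
    revert hij
    fin_cases i <;> fin_cases j <;> decide
  have hre : S.M.v (S.M.α z) ∈ S.A → S.real z = true := fun hA => by
    by_contra hn
    exact hS.vhead W hz (by simpa using hn) hA
  have hyA : S.M.v (S.M.α k) ∈ S.A := hR.real_A _ (by rw [hR.real_α]; exact h.hk)
  have hvA : S.M.v (S.M.α k') ∈ S.A := hR.real_A _ (by rw [hR.real_α]; exact h.hk')
  rcases hor with rfl | rfl | ⟨rfl, rfl⟩ | ⟨rfl, rfl⟩ | ⟨rfl, rfl⟩ | ⟨rfl, rfl⟩
  · left
    refine ⟨i, hN _ _ rfl hi.symm ?_⟩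
    rw [hj, h.hc.nx]
  · right
    refine ⟨j, hN _ _ rfl ?_ ?_⟩
    · rw [h.hc.nx]; exact hi.symm
    · rw [hj, S.M.αα]
  · exact absurd (hj.trans h.hw.symm) (h.ht z hi)
  · refine absurd ?_ (h.ht (S.M.α z) hj)
    rw [S.M.αα]
    exact hi.trans h.hw.symm
  · have h3 : S.M.v z = S.M.v (S.M.α k) := hi.trans h.he
    have h4 : S.M.v (S.M.α z) = S.M.v (S.M.α k') := hj
    exact absurd h4 (h.hn z (hre (by rw [h4]; exact hvA)) h3)
  · have h3 : S.M.v z = S.M.v (S.M.α k') := hi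
    have h4 : S.M.v (S.M.α z) = S.M.v (S.M.α k) := hj.trans h.he
    exact absurd (by rw [S.M.αα]; exact h3) (h.hn (S.M.α z) (by
      rw [hR.real_α]; exact hre (by rw [h4]; exact hyA)) h4)

theorem IsF.cf (h : IsF S k e e' k' s) (hR : Rg S) (hS : IsStar S) (W : Wf Δ S L w) (hΔ : Δ ≤ 7) :
    CF S ![k, e, S.M.α e', S.M.α k'] s := by
  rintro z hz h1 h2 ⟨h3, h4⟩
  rcases h.on hR hS W hΔ hz h1 h2 with ⟨i, rfl⟩ | ⟨i, rfl⟩
  · rw [h.hs.t] at h3
    exact absurd h3 (by decide)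
  · rw [S.M.αα, h.hs.t] at h4
    exact absurd h4 (by decide)

theorem IsD.cf {d : D} (h : IsD S d e e' s) (hR : Rg S) (hS : IsStar S) (W : Wf Δ S L w)
    (hΔ : Δ ≤ 7) : CF S ![d, e', S.M.α e] s := by
  rintro z hz h1 h2 ⟨h3, h4⟩
  have hN := hR.n2 hS W hΔ _ hz
  unfold Off at h1 h2
  push Not at h1 h2
  obtain ⟨i, hi⟩ := h1
  obtain ⟨j, hj⟩ := h2
  have hij : i ≠ j := by
    rintro rfl
    exact hS.loop W hz (hj.trans hi.symm)
  have hor : j = i + 1 ∨ i = j + 1 := by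
    revert hij
    fin_cases i <;> fin_cases j <;> decide
  rcases hor with rfl | rfl
  · have h2 : z = ![d, e', S.M.α e] i := by
      refine hN _ _ rfl hi.symm ?_
      rw [hj, h.hc.nx]
    rw [h2, h.hs.t] at h3
    exact absurd h3 (by decide)
  · have h2 : z = S.M.α (![d, e', S.M.α e] j) := by
      refine hN _ _ rfl ?_ ?_
      · rw [h.hc.nx]; exact hi.symm
      · rw [hj, S.M.αα]
    rw [h2, S.M.αα, h.hs.t] at h4
    exact absurd h4 (by decide)

/-- a curve with two adjacent vertices inside of another curve has a side inside -/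
theorem IsF.into {n : ℕ} [NeZero n] {c : Fin n → D} (hc : S.M.Curve c) {s0 : D → Bool}
    (hs0 : S.M.SideOf c s0) (hcf : CF S c s0) (hR : Rg S) (hF : IsF S k e e' k' s)
    (o1 : S.Off c k) (t1 : s0 k = true) (o2 : S.Off c (S.M.α k)) (t2 : s0 (S.M.α k) = true) :
    ∃ k1 e1 e1' k1' s1, IsF S k1 e1 e1' k1' s1 ∧ S.M.v k1 = S.M.v k ∧
      (TwoF S k e e' k' s → TwoF S k1 e1 e1' k1' s1) ∧ ∀ z, s0 z = false → s1 z = false := by
  have hoff : ∀ {x y}, S.M.v x = S.M.v y → S.Off c y → S.Off c x := fun h1 h2 i => by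
    rw [h1]; exact h2 i
  have oe : S.Off c e := hoff hF.he o2
  have ok' : S.Off c k' := hoff hF.vk o1
  have te : s0 e = true := by rw [← t2]; exact hs0.vert hc oe hF.he
  have tk' : s0 k' = true := by rw [← t1]; exact hs0.vert hc ok' hF.vk
  have tαe : s0 (S.M.α e) = true := by rw [off_side hc hs0 oe, te]
  have tαk' : s0 (S.M.α k') = true := by rw [off_side hc hs0 ok', tk']
  have hvA : S.M.v e' ∈ S.A := by
    rw [hF.he']; exact hR.real_A _ (by rw [hR.real_α]; exact hF.hk')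
  have te' : ¬ (s0 e' = false ∧ s0 (S.M.α e') = false) := by
    by_cases o3 : S.Off c e'
    · have : s0 e' = true := by rw [← tαk']; exact hs0.vert hc o3 hF.he'
      rw [this]
      exact fun h0 => absurd h0.1 (by decide)
    · by_cases o4 : S.Off c (S.M.α e')
      · have : s0 (S.M.α e') = true := by rw [← tαe]; exact hs0.vert hc o4 hF.hw.symm
        rw [this]
        exact fun h0 => absurd h0.2 (by decide)
      · exact hcf e' hvA o3 o4
  have hs := hF.hs
  have hcon := side_const hc hs0 (s' := s) hs.φ (by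
    intro z b1 b2
    have nz : ∀ y, s0 y = true → z ≠ y := fun y hy h0 => by
      rw [h0, hy] at b1
      exact absurd b1 (by decide)
    refine hs.o z (fun i => ?_) (fun i => ?_)
    · fin_cases i
      · exact nz _ t1
      · exact nz _ te
      · intro h0
        have h0 : z = S.M.α e' := h0
        rw [h0] at b1
        rw [h0, S.M.αα] at b2
        exact te' ⟨b2, b1⟩
      · exact nz _ tαk'
    · fin_cases i
      · exact nz _ t2
      · exact nz _ tαe
      · intro h0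
        have h0 : z = S.M.α (S.M.α e') := h0
        rw [S.M.αα] at h0
        rw [h0] at b1 b2
        exact te' ⟨b1, b2⟩
      · exact nz _ (by
          show s0 (S.M.α (S.M.α k')) = true
          rw [S.M.αα]; exact tk'))
  have h0 : s0 (S.M.α (c 0)) = false := hs0.f 0
  cases hb : s (S.M.α (c 0))
  · exact ⟨k, e, e', k', s, hF, rfl, fun h => h, fun z hz => by rw [hcon z _ hz h0, hb]⟩
  · refine ⟨k', e', e, k, fun z => !s z, hF.symm hR.real_α, hF.vk, hF.two_symm, fun z hz => ?_⟩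
    show (!s z) = false
    rw [hcon z _ hz h0, hb]; rfl

theorem IsF.sub {n : ℕ} [NeZero n] {c : Fin n → D} (hc : S.M.Curve c) {s0 : D → Bool}
    (hs0 : S.M.SideOf c s0) (hF : IsF S k e e' k' s) (hout : ∀ z, s0 z = false → s z = false) :
    inq S k e e' k' s ⊆ S.A.filter fun x => S.sd c s0 true x = true := by
  classical
  intro x hx
  obtain ⟨hxA, hxs⟩ := Finset.mem_filter.1 hx
  have hxs' : ∃ z, S.M.v z = x ∧ S.Off ![k, e, S.M.α e', S.M.α k'] z ∧ s z = true := by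
    unfold St.sd at hxs
    exact of_decide_eq_true hxs
  obtain ⟨z, c1, c2, c3⟩ := hxs'
  have hoz : S.Off c z := by
    intro i hi
    have q1 : S.M.v (S.M.α (c (i - 1))) = S.M.v z := by
      rw [hc.nx, sub_add_cancel]; exact hi.symm
    have q3 := hout _ (hs0.f (i - 1))
    have q4 : s z = s (S.M.α (c (i - 1))) := hF.hs.vert hF.hc c2 q1.symm
    rw [c3, q3] at q4
    exact absurd q4 (by decide)
  have hsz : s0 z = true := by
    cases h0 : s0 z
    · rw [hout z h0] at c3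
      exact absurd c3 (by decide)
    · rfl
  refine Finset.mem_filter.2 ⟨hxA, ?_⟩
  rw [← c1]
  exact (sd_off hc hs0 hoz).2 hsz

theorem IsF.mem_inq (hF : IsF S k e e' k' s) {z : D} :
    S.M.v z ∈ inq S k e e' k' s ↔
      S.M.v z ∈ S.A ∧ S.Off ![k, e, S.M.α e', S.M.α k'] z ∧ s z = true := by
  unfold inq
  rw [Finset.mem_filter]
  constructor
  · rintro ⟨h1, h2⟩
    have h3 : S.Off ![k, e, S.M.α e', S.M.α k'] z := by
      by_contra hn
      rw [sd_on hn] at h2
      exact absurd h2 (by decide)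
    exact ⟨h1, h3, (sd_off hF.hc hF.hs h3).1 h2⟩
  · rintro ⟨h1, h2, h3⟩
    exact ⟨h1, (sd_off hF.hc hF.hs h2).2 h3⟩

/-- the alive vertices on the curve -/
def tef (S : St D V) (k e k' : D) : Finset V :=
  S.A.filter fun x => x = S.M.v k ∨ x = S.M.v (S.M.α k) ∨ x = S.M.v (S.M.α e) ∨
    x = S.M.v (S.M.α k')

theorem IsF.mem_tef (hF : IsF S k e e' k' s) {z : D} :
    S.M.v z ∈ tef S k e k' ↔ S.M.v z ∈ S.A ∧ ¬ S.Off ![k, e, S.M.α e', S.M.α k'] z := by
  rw [off4 hF.he hF.hw]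
  unfold tef
  rw [Finset.mem_filter]
  tauto

theorem IsF.nb (hF : IsF S k e e' k' s) (h : Rg S) {z : D}
    (hz : S.real z = true) (hv : S.M.v z ∈ inq S k e e' k' s) :
    S.M.v (S.M.α z) ∈ inq S k e e' k' s ∨ S.M.v (S.M.α z) ∈ tef S k e k' := by
  obtain ⟨_, h2, h3⟩ := hF.mem_inq.1 hv
  have h4 : S.M.v (S.M.α z) ∈ S.A := h.real_A _ (by rw [h.real_α]; exact hz)
  by_cases h5 : S.Off ![k, e, S.M.α e', S.M.α k'] (S.M.α z)
  · left
    exact hF.mem_inq.2 ⟨h4, h5, by rw [off_side hF.hc hF.hs h2, h3]⟩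
  · right
    exact hF.mem_tef.2 ⟨h4, h5⟩

end

/-- every chordless curve of length four with two adjacent vertices in `U` has a side in `U` -/
def CloF (S : St D V) (U : Finset V) : Prop :=
  ∀ k e e' k' s, IsF S k e e' k' s → S.M.v k ∈ U → S.M.v (S.M.α k) ∈ U →
    ∃ k1 e1 e1' k1' s1, IsF S k1 e1 e1' k1' s1 ∧ S.M.v k1 = S.M.v k ∧
      (TwoF S k e e' k' s → TwoF S k1 e1 e1' k1' s1) ∧ inq S k1 e1 e1' k1' s1 ⊆ U

theorem cloF_all : CloF S S.A := fun k e e' k' s hF _ _ =>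
  ⟨k, e, e', k', s, hF, rfl, fun h => h, Finset.filter_subset _ _⟩

theorem cloF_side {n : ℕ} [NeZero n] {c : Fin n → D} (hc : S.M.Curve c) {s0 : D → Bool}
    (hs0 : S.M.SideOf c s0) (hcf : CF S c s0) (hR : Rg S) :
    CloF S (S.A.filter fun x => S.sd c s0 true x = true) := by
  intro k e e' k' s hF h1 h2
  have key : ∀ z, S.M.v z ∈ (S.A.filter fun x => S.sd c s0 true x = true) →
      S.Off c z ∧ s0 z = true := by
    intro z hz
    have h4 := (Finset.mem_filter.1 hz).2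
    have h5 : S.Off c z := by
      by_contra hn
      rw [sd_on hn] at h4
      exact absurd h4 (by decide)
    exact ⟨h5, (sd_off hc hs0 h5).1 h4⟩
  obtain ⟨k1, e1, e1', k1', s1, a1, a2, a3, a4⟩ := hF.into hc hs0 hcf hR (key _ h1).1
    (key _ h1).2 (key _ h2).1 (key _ h2).2
  exact ⟨k1, e1, e1', k1', s1, a1, a2, a3, a1.sub hc hs0 a4⟩

end Pool.FC7
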