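import Pool.Agent.FC7.DjA

/-! # Euler's formula in the disc of a closed curve of length four: all vertices alive -/

open Finset

set_option linter.unusedSectionVars false

namespace Pool.FC7

open Pool.FC6 Pool.FC6.St

variable {D V : Type} [Fintype D] [DecidableEq V] {S : St D V} {L : D → Bool} {w : D → ℕ} {Δ : ℕ}

section

variable {k e e' k' : D} {s : D → Bool}

open Classical in
/-- Euler's formula inside of the curve -/
theorem IsF.count (hF : IsF S k e e' k' s) (hr : S.real e = true) (h : Rg S) (hS : IsStar S)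
    (W : Wf Δ S L w) :
    2 * ∑ x ∈ inq S k e e' k' s, S.rdeg x + ∑ x ∈ inq S k e e' k' s, vdeg S x +
      2 * ∑ x ∈ inq S k e e' k' s, nul S (tef S k e k') x +
      (∑ z, if PQ S k e e' k' s z then 1 else 0) ≤ 12 * (inq S k e e' k' s).card + 4 := by
  have hU := fun z => hF.mem_inq (z := z)
  have hT := fun z => hF.mem_tef (z := z)
  have hside : ∀ z, S.Off ![k, e, S.M.α e', S.M.α k'] z → s (S.M.α z) = s z := fun z hz =>
    off_side hF.hc hF.hs hz
  have hmA : S.M.v k ∈ S.A := h.real_A _ hF.hk
  have hyA : S.M.v (S.M.α k) ∈ S.A := h.real_A _ (by rw [h.real_α]; exact hF.hk)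
  have hvA : S.M.v (S.M.α k') ∈ S.A := h.real_A _ (by rw [h.real_α]; exact hF.hk')
  have hwA : S.M.v (S.M.α e) ∈ S.A := h.real_A _ (by rw [h.real_α]; exact hr)
  have sk : s k = true := hF.hs.t 0
  have se : s e = true := hF.hs.t 1
  have se' : s (S.M.α e') = true := hF.hs.t 2
  have sk' : s (S.M.α k') = true := hF.hs.t 3
  -- the sums
  have eR : ∑ x ∈ inq S k e e' k' s, S.rdeg x =
      ∑ z, if S.M.v z ∈ inq S k e e' k' s ∧ S.real z = true then 1 else 0 := by
    unfold rdeg
    exact sum_at S _ _
  have eV : ∑ x ∈ inq S k e e' k' s, vdeg S x =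
      ∑ z, if S.M.v z ∈ inq S k e e' k' s ∧ S.real z = false then 1 else 0 := by
    unfold vdeg
    exact sum_at S _ _
  have eN : ∑ x ∈ inq S k e e' k' s, nul S (tef S k e k') x =
      ∑ z, if S.M.v z ∈ tef S k e k' ∧ S.real z = true ∧ S.M.v (S.M.α z) ∈ inq S k e e' k' s
        then 1 else 0 := by
    unfold nul
    rw [sum_at S _ (fun z => S.real z = true ∧ S.M.v (S.M.α z) ∈ tef S k e k'),
      ← sum_α_nat S.M (fun z => if S.M.v z ∈ tef S k e k' ∧ S.real z = true ∧
        S.M.v (S.M.α z) ∈ inq S k e e' k' s then 1 else 0)]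
    refine Finset.sum_congr rfl fun z _ => ?_
    rw [S.M.αα, h.real_α]
    exact if_congr (by tauto) rfl rfl
  -- the hubs inside
  obtain ⟨KF, hKF⟩ : ∃ KF : Finset D, KF = Finset.univ.filter fun z => s z = true ∧
    S.Off ![k, e, S.M.α e', S.M.α k'] z ∧ S.M.v z ∉ S.A := ⟨_, rfl⟩
  have mKF : ∀ z, z ∈ KF ↔ s z = true ∧ S.Off ![k, e, S.M.α e', S.M.α k'] z ∧
      S.M.v z ∉ S.A := by
    intro z
    rw [hKF, Finset.mem_filter]
    simp
  have hH : 4 * (KF.image S.M.v).card ≤ KF.card := by
    rw [Finset.card_eq_sum_card_image S.M.v KF, mul_comm, ← smul_eq_mul]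
    refine Finset.card_nsmul_le_sum _ _ _ fun b hb => ?_
    obtain ⟨z0, hz0, rfl⟩ := Finset.mem_image.1 hb
    obtain ⟨k1, k2, k3⟩ := (mKF z0).1 hz0
    refine le_trans (h.hub4 hS W k3) ?_
    unfold St.nd
    refine Finset.card_le_card fun z hz => ?_
    rw [Finset.mem_filter] at hz ⊢
    have k4 : S.Off ![k, e, S.M.α e', S.M.α k'] z := fun i => by rw [hz.2]; exact k2 i
    refine ⟨(mKF z).2 ⟨?_, k4, by rw [hz.2]; exact k3⟩, hz.2⟩
    rw [hF.hs.vert hF.hc k4 hz.2, k1]
  have eK : KF.card = ∑ z, if S.M.α z ∈ KF then 1 else 0 := by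
    rw [sum_α_nat S.M (fun z => if z ∈ KF then 1 else 0), ← Finset.card_filter]
    congr 1
    ext z
    simp
  have hK : KF.card ≤
      (∑ z, if S.M.v z ∈ inq S k e e' k' s ∧ S.real z = false then 1 else 0) +
      ∑ z, if PQ S k e e' k' s z then 1 else 0 := by
    rw [eK, ← Finset.sum_add_distrib]
    refine Finset.sum_le_sum fun z _ => ?_
    by_cases hz : S.M.α z ∈ KF
    · rw [if_pos hz]
      obtain ⟨k1, k2, k3⟩ := (mKF _).1 hz
      have k4 : S.M.v z ∈ S.A := by
        have := hS.alivev W k3
        rwa [S.M.αα] at this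
      have k5 : S.real z = false := by
        cases h0 : S.real z
        · rfl
        · exact absurd (h.real_A _ (by rw [h.real_α]; exact h0)) k3
      have k6 : s z = true := by
        have := hside _ k2
        rw [S.M.αα] at this
        rw [this, k1]
      by_cases k7 : S.Off ![k, e, S.M.α e', S.M.α k'] z
      · rw [if_pos ⟨(hU z).2 ⟨k4, k7, k6⟩, k5⟩]
        omega
      · rw [if_pos (show PQ S k e e' k' s z from ⟨k5, k6, k7, k4, k2⟩)]
        omega
    · rw [if_neg hz]
      exact Nat.zero_le _
  -- Euler's formula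
  have hE : (∑ z, if s z = true then 1 else 0) ≤
      6 * (inq S k e e' k' s).card + 6 * (KF.image S.M.v).card + 6 := by
    have e1 := side4_le hF.hc hF.hs
    have e5 : ((Finset.univ.image S.M.v) \
        ((Finset.univ.filter fun z => s z = false).image S.M.v)).card ≤
        (inq S k e e' k' s).card + (KF.image S.M.v).card := by
      refine le_trans (Finset.card_le_card (t := inq S k e e' k' s ∪ KF.image S.M.v)
        fun x hx => ?_) (Finset.card_union_le _ _)
      obtain ⟨hx1, hx2⟩ := Finset.mem_sdiff.1 hx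
      obtain ⟨z, -, rfl⟩ := Finset.mem_image.1 hx1
      have hf : ∀ z', S.M.v z' = S.M.v z → s z' = true := by
        intro z' hz'
        cases h0 : s z'
        · exact absurd (Finset.mem_image.2 ⟨z', Finset.mem_filter.2 ⟨Finset.mem_univ _, h0⟩, hz'⟩)
            hx2
        · rfl
      have hoz : S.Off ![k, e, S.M.α e', S.M.α k'] z := by
        intro i hi
        have q1 : S.M.v (S.M.α (![k, e, S.M.α e', S.M.α k'] (i - 1))) = S.M.v z := by
          rw [hF.hc.nx, sub_add_cancel]; exact hi.symm
        have q2 : s (S.M.α (![k, e, S.M.α e', S.M.α k'] (i - 1))) = false := hF.hs.f _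
        rw [hf _ q1] at q2
        exact absurd q2 (by decide)
      by_cases k2 : S.M.v z ∈ S.A
      · exact Finset.mem_union_left _ ((hU z).2 ⟨k2, hoz, hf z rfl⟩)
      · exact Finset.mem_union_right _ (Finset.mem_image_of_mem _ ((mKF z).2 ⟨hf z rfl, hoz, k2⟩))
    omega
  -- the darts inside
  have hn : (∑ z, if S.M.v z ∈ inq S k e e' k' s ∧ S.real z = true then 1 else 0) +
      (∑ z, if S.M.v z ∈ inq S k e e' k' s ∧ S.real z = false then 1 else 0) + KF.card + 4 +
      (∑ z, if S.M.v z ∈ tef S k e k' ∧ S.real z = true ∧ S.M.v (S.M.α z) ∈ inq S k e e' k' s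
        then 1 else 0) + (∑ z, if PQ S k e e' k' s z then 1 else 0) ≤
      ∑ z, if s z = true then 1 else 0 := by
    have e1 : KF.card = ∑ z, if z ∈ KF then 1 else 0 := by
      rw [← Finset.card_filter]
      congr 1
      ext z
      simp
    have e2 : (4 : ℕ) = (∑ z, if z = k then 1 else 0) + (∑ z, if z = e then 1 else 0) +
        (∑ z, if z = S.M.α e' then 1 else 0) + ∑ z, if z = S.M.α k' then 1 else 0 := by
      rw [Finset.sum_ite_eq' Finset.univ k, Finset.sum_ite_eq' Finset.univ e,
        Finset.sum_ite_eq' Finset.univ (S.M.α e'), Finset.sum_ite_eq' Finset.univ (S.M.α k'),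
        if_pos (Finset.mem_univ _), if_pos (Finset.mem_univ _), if_pos (Finset.mem_univ _),
        if_pos (Finset.mem_univ _)]
    have key : ∀ z, (if S.M.v z ∈ inq S k e e' k' s ∧ S.real z = true then 1 else 0) +
        (if S.M.v z ∈ inq S k e e' k' s ∧ S.real z = false then 1 else 0) +
        (if z ∈ KF then 1 else 0) + ((if z = k then 1 else 0) + (if z = e then 1 else 0) +
        (if z = S.M.α e' then 1 else 0) + (if z = S.M.α k' then 1 else 0)) +
        (if S.M.v z ∈ tef S k e k' ∧ S.real z = true ∧ S.M.v (S.M.α z) ∈ inq S k e e' k' s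
          then 1 else 0) + (if PQ S k e e' k' s z then 1 else 0) ≤
          if s z = true then 1 else 0 := by
      intro z
      have nk : ¬ S.Off ![k, e, S.M.α e', S.M.α k'] k := fun h0 => h0 0 rfl
      have ne0 : ¬ S.Off ![k, e, S.M.α e', S.M.α k'] e := fun h0 => h0 1 rfl
      have ne' : ¬ S.Off ![k, e, S.M.α e', S.M.α k'] (S.M.α e') := fun h0 => h0 2 rfl
      have nk' : ¬ S.Off ![k, e, S.M.α e', S.M.α k'] (S.M.α k') := fun h0 => h0 3 rfl
      have nαk : ¬ S.Off ![k, e, S.M.α e', S.M.α k'] (S.M.α k) := fun h0 =>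
        h0 1 hF.he.symm
      have nαe : ¬ S.Off ![k, e, S.M.α e', S.M.α k'] (S.M.α e) := fun h0 => h0 2 hF.hw
      have nee : ¬ S.Off ![k, e, S.M.α e', S.M.α k'] e' := fun h0 => h0 3 hF.he'
      have nek : ¬ S.Off ![k, e, S.M.α e', S.M.α k'] k' := fun h0 => h0 0 hF.vk
      by_cases k1 : S.Off ![k, e, S.M.α e', S.M.α k'] z
      · rw [if_neg (c := z = k) (fun h0 => nk (h0 ▸ k1)),
          if_neg (c := z = e) (fun h0 => ne0 (h0 ▸ k1)),
          if_neg (c := z = S.M.α e') (fun h0 => ne' (h0 ▸ k1)),
          if_neg (c := z = S.M.α k') (fun h0 => nk' (h0 ▸ k1)),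
          if_neg (c := S.M.v z ∈ tef S k e k' ∧ _) (fun h0 => ((hT z).1 h0.1).2 k1),
          if_neg (c := PQ S k e e' k' s z) (fun h0 => h0.2.2.1 k1)]
        cases hsz : s z
        · rw [if_neg, if_neg, if_neg]
          · exact Nat.zero_le _
          · intro h0
            have := ((mKF z).1 h0).1
            rw [hsz] at this
            exact absurd this (by decide)
          · rintro ⟨h0, _⟩
            have := ((hU z).1 h0).2.2
            rw [hsz] at this
            exact absurd this (by decide)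
          · rintro ⟨h0, _⟩
            have := ((hU z).1 h0).2.2
            rw [hsz] at this
            exact absurd this (by decide)
        · rw [if_pos (rfl : true = true)]
          by_cases k2 : S.M.v z ∈ S.A
          · rw [if_neg (c := z ∈ KF) (fun h0 => ((mKF z).1 h0).2.2 k2)]
            cases S.real z
            · rw [if_neg (fun h0 => absurd h0.2 (by decide))]
              split_ifs <;> omega
            · rw [if_neg (c := _ ∧ true = false) (fun h0 => absurd h0.2 (by decide))]
              split_ifs <;> omega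
          · rw [if_neg (fun h0 => k2 ((hU z).1 h0.1).1), if_neg (fun h0 => k2 ((hU z).1 h0.1).1)]
            split_ifs <;> omega
      · have u1 : ¬ S.M.v z ∈ inq S k e e' k' s := fun h0 => k1 ((hU z).1 h0).2.1
        rw [if_neg (fun h0 => u1 h0.1), if_neg (fun h0 => u1 h0.1),
          if_neg (c := z ∈ KF) (fun h0 => k1 ((mKF z).1 h0).2.1)]
        have T3 : ∀ {z}, ¬ S.Off ![k, e, S.M.α e', S.M.α k'] (S.M.α z) →
            ¬ (S.M.v z ∈ tef S k e k' ∧ S.real z = true ∧
            S.M.v (S.M.α z) ∈ inq S k e e' k' s) := fun hz h0 => hz ((hU _).1 h0.2.2).2.1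
        have P3 : ∀ {z}, ¬ S.Off ![k, e, S.M.α e', S.M.α k'] (S.M.α z) →
            ¬ PQ S k e e' k' s z := fun hz h0 => hz h0.2.2.2.2
        have m1 : k ≠ e := fun h0 => hF.n01 (by rw [← hF.he, ← h0])
        have m2 : k ≠ S.M.α e' := fun h0 => hF.n02 (by rw [hF.hw, ← h0])
        have m3 : k ≠ S.M.α k' := fun h0 => hF.n03 (by rw [← h0])
        have m6 : e ≠ S.M.α e' := fun h0 => hF.n12 (by rw [hF.hw, ← h0, hF.he])
        have m7 : e ≠ S.M.α k' := fun h0 => hF.n13 (by rw [← hF.he, ← h0])
        have m10 : S.M.α e' ≠ S.M.α k' := fun h0 => hF.n23 (by rw [hF.hw, ← h0])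
        by_cases c1 : z = k
        · subst c1
          rw [if_pos rfl, if_neg m1, if_neg m2, if_neg m3, if_neg (T3 nαk), if_neg (P3 nαk),
            if_pos sk]
        rw [if_neg c1]
        by_cases c2 : z = e
        · subst c2
          rw [if_pos rfl, if_neg m6, if_neg m7, if_neg (T3 nαe), if_neg (P3 nαe), if_pos se]
        rw [if_neg c2]
        by_cases c3 : z = S.M.α e'
        · subst c3
          have hd : ¬ S.Off ![k, e, S.M.α e', S.M.α k'] (S.M.α (S.M.α e')) := by
            rw [S.M.αα]; exact nee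
          rw [if_pos rfl, if_neg m10, if_neg (T3 hd), if_neg (P3 hd), if_pos se']
        rw [if_neg c3]
        by_cases c4 : z = S.M.α k'
        · subst c4
          have hd : ¬ S.Off ![k, e, S.M.α e', S.M.α k'] (S.M.α (S.M.α k')) := by
            rw [S.M.αα]; exact nek
          rw [if_pos rfl, if_neg (T3 hd), if_neg (P3 hd), if_pos sk']
        rw [if_neg c4]
        by_cases c7 : PQ S k e e' k' s z
        · have T1 : ¬ (S.M.v z ∈ tef S k e k' ∧ S.real z = true ∧
              S.M.v (S.M.α z) ∈ inq S k e e' k' s) := fun h0 => by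
            have := c7.1
            rw [h0.2.1] at this
            exact absurd this (by decide)
          rw [if_neg T1, if_pos c7, if_pos c7.2.1]
        · rw [if_neg c7]
          split_ifs with c8 c9 c9
          · omega
          · exfalso
            have := (hU _).1 c8.2.2
            have h9 := hside _ this.2.1
            rw [S.M.αα, this.2.2] at h9
            exact c9 h9
          · omega
          · omega
    have h0 := Finset.sum_le_sum (s := Finset.univ) (fun z (_ : z ∈ Finset.univ) => key z)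
    simp only [Finset.sum_add_distrib] at h0
    omega
  rw [eR, eV, eN]
  omega

end

end Pool.FC7
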