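import Pool.Agent.FC7.DjB

/-! # Inner darts at the vertices of a chordless closed curve of length four

If at most one alive vertex is inside, the curve is the boundary of a star. -/

open Finset

set_option linter.unusedSectionVars false

namespace Pool.FC7

open Pool.FC6 Pool.FC6.St

variable {D V : Type} [Fintype D] [DecidableEq V] {S : St D V} {L : D → Bool} {w : D → ℕ} {Δ : ℕ}

/-- the inner darts at a vertex of the curve -/
noncomputable def ID (S : St D V) (c : Fin 4 → D) (s : D → Bool) (i : Fin 4) : Finset D := by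
  classical
  exact Finset.univ.filter fun z => S.M.v z = S.M.v (c i) ∧ s z = true ∧ S.Off c (S.M.α z)

theorem mem_ID {c : Fin 4 → D} {s : D → Bool} {i : Fin 4} {z : D} :
    z ∈ ID S c s i ↔ S.M.v z = S.M.v (c i) ∧ s z = true ∧ S.Off c (S.M.α z) := by
  classical
  unfold ID
  rw [Finset.mem_filter]
  simp

section

variable {k e e' k' : D} {s : D → Bool}

theorem IsF.alive (hF : IsF S k e e' k' s) (hr : S.real e = true) (h : Rg S) :
    ∀ i, S.M.v (![k, e, S.M.α e', S.M.α k'] i) ∈ S.A := by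
  intro i
  fin_cases i
  · exact h.real_A _ hF.hk
  · exact h.real_A _ hr
  · exact h.real_A (S.M.α e') (by rw [h.real_α, hF.re]; exact hr)
  · exact h.real_A (S.M.α k') (by rw [h.real_α]; exact hF.hk')

/-- the third vertex of an inner face at the curve is not on the curve -/
theorem IsF.apex (hF : IsF S k e e' k' s) (hr : S.real e = true) (h : Rg S) (hS : IsStar S)
    (W : Wf Δ S L w) (hΔ : Δ ≤ 7) (i : Fin 4) :
    S.Off ![k, e, S.M.α e', S.M.α k'] (S.M.φ (S.M.φ (![k, e, S.M.α e', S.M.α k'] i))) := by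
  obtain ⟨c, hcc⟩ : ∃ c, c = ![k, e, S.M.α e', S.M.α k'] := ⟨_, rfl⟩
  have hA := hF.alive hr h
  have hon := fun z => hF.on h hS W hΔ (z := z)
  have hc := hF.hc
  have hs := hF.hs
  rw [← hcc] at hA hon hc hs ⊢
  by_contra hno
  have v1 : S.M.v (S.M.α (S.M.φ (S.M.φ (c i)))) = S.M.v (c i) := by rw [← S.M.vφ, S.M.φ3]
  have s1 : s (S.M.φ (S.M.φ (c i))) = true := by rw [hs.φ, hs.φ]; exact hs.t i
  rcases hon (S.M.α (S.M.φ (S.M.φ (c i)))) (by rw [v1]; exact hA i) (fun h0 => h0 i v1)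
    (by rw [S.M.αα]; exact hno) with ⟨j, hj⟩ | ⟨j, hj⟩
  · rw [hj] at v1
    rw [hc.inj _ _ v1] at hj
    have : S.M.φ (S.M.φ (c i)) = S.M.α (c i) := by
      have := congrArg S.M.α hj
      rwa [S.M.αα] at this
    rw [this, hs.f] at s1
    exact absurd s1 (by decide)
  · have hj' : S.M.φ (S.M.φ (c i)) = c j := S.M.αinj hj
    rw [hj, hc.nx] at v1
    have e1 : j + 1 = i := hc.inj _ _ v1
    have v2 : S.M.v (S.M.φ (c i)) = S.M.v (c (i + 1)) := by rw [S.M.vφ, hc.nx]
    have v3 : S.M.v (S.M.α (S.M.φ (c i))) = S.M.v (c j) := by rw [← S.M.vφ, hj']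
    rcases hon (S.M.φ (c i)) (by rw [v2]; exact hA _) (fun h0 => h0 _ v2)
      (fun h0 => h0 _ v3) with ⟨m, hm⟩ | ⟨m, hm⟩
    · rw [hm] at v2
      have e2 := hc.inj _ _ v2
      rw [hm, hc.nx] at v3
      have e3 := hc.inj _ _ v3
      rw [e2] at e3
      rw [← e1] at e3
      revert e3
      fin_cases j <;> decide
    · rw [hm, hc.nx] at v2
      have e2 := hc.inj _ _ v2
      rw [hm, S.M.αα] at v3
      have e3 := hc.inj _ _ v3
      rw [← e3] at e1
      have e4 : m = i := add_right_cancel e2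
      rw [e4] at e1
      revert e1
      fin_cases i <;> decide

theorem IsF.l_mem (hF : IsF S k e e' k' s) (hr : S.real e = true) (h : Rg S) (hS : IsStar S)
    (W : Wf Δ S L w) (hΔ : Δ ≤ 7) (i : Fin 4) :
    S.M.α (S.M.φ (S.M.φ (![k, e, S.M.α e', S.M.α k'] i))) ∈
      ID S ![k, e, S.M.α e', S.M.α k'] s i := by
  have ho := hF.apex hr h hS W hΔ i
  refine mem_ID.2 ⟨by rw [← S.M.vφ, S.M.φ3], ?_, by rw [S.M.αα]; exact ho⟩
  rw [off_side hF.hc hF.hs ho, hF.hs.φ, hF.hs.φ]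
  exact hF.hs.t i

theorem IsF.j_mem (hF : IsF S k e e' k' s) (hr : S.real e = true) (h : Rg S) (hS : IsStar S)
    (W : Wf Δ S L w) (hΔ : Δ ≤ 7) (i : Fin 4) :
    S.M.φ (![k, e, S.M.α e', S.M.α k'] i) ∈ ID S ![k, e, S.M.α e', S.M.α k'] s (i + 1) := by
  have ho := hF.apex hr h hS W hΔ i
  refine mem_ID.2 ⟨by rw [S.M.vφ, hF.hc.nx], by rw [hF.hs.φ]; exact hF.hs.t i, fun j => ?_⟩
  rw [← S.M.vφ]
  exact ho j

open Classical in
theorem IsF.sumID (hF : IsF S k e e' k' s) (hr : S.real e = true) (h : Rg S) (f : D → ℕ) :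
    ∑ i, ∑ z ∈ ID S ![k, e, S.M.α e', S.M.α k'] s i, f z ≤
      (∑ z, if S.M.v z ∈ tef S k e k' ∧ S.real z = true ∧ S.M.v (S.M.α z) ∈ inq S k e e' k' s
        then f z else 0) + ∑ z, if PQ S k e e' k' s z then f z else 0 := by
  have hA := hF.alive hr h
  have e1 : ∑ i, ∑ z ∈ ID S ![k, e, S.M.α e', S.M.α k'] s i, f z =
      ∑ z, ∑ i, if z ∈ ID S ![k, e, S.M.α e', S.M.α k'] s i then f z else 0 := by
    rw [Finset.sum_comm]
    refine Finset.sum_congr rfl fun i _ => ?_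
    rw [← Finset.sum_filter]
    congr 1
    ext z
    simp
  rw [e1, ← Finset.sum_add_distrib]
  refine Finset.sum_le_sum fun z _ => ?_
  by_cases hz : ∃ i, z ∈ ID S ![k, e, S.M.α e', S.M.α k'] s i
  · obtain ⟨i, hi⟩ := hz
    have e2 : (∑ j, if z ∈ ID S ![k, e, S.M.α e', S.M.α k'] s j then f z else 0) = f z := by
      rw [Finset.sum_eq_single i, if_pos hi]
      · intro j _ hj
        rw [if_neg]
        intro h0
        exact hj (hF.hc.inj _ _ ((mem_ID.1 h0).1.symm.trans (mem_ID.1 hi).1))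
      · intro h0
        exact absurd (Finset.mem_univ i) h0
    rw [e2]
    obtain ⟨a1, a2, a3⟩ := mem_ID.1 hi
    have a4 : S.M.v z ∈ S.A := by rw [a1]; exact hA i
    have a5 : ¬ S.Off ![k, e, S.M.α e', S.M.α k'] z := fun h0 => h0 i a1
    cases hre : S.real z
    · rw [if_neg (fun h0 => absurd h0.2.1 (by decide)),
        if_pos (show PQ S k e e' k' s z from ⟨hre, a2, a5, a4, a3⟩)]
      omega
    · have a6 : s (S.M.α z) = true := by
        have := off_side hF.hc hF.hs a3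
        rw [S.M.αα] at this
        rw [← this, a2]
      rw [if_pos (⟨hF.mem_tef.2 ⟨a4, a5⟩, rfl,
        hF.mem_inq.2 ⟨h.real_A _ (by rw [h.real_α]; exact hre), a3, a6⟩⟩ :
        S.M.v z ∈ tef S k e k' ∧ true = true ∧ S.M.v (S.M.α z) ∈ inq S k e e' k' s)]
      omega
  · rw [Finset.sum_eq_zero]
    · exact Nat.zero_le _
    · intro i _
      rw [if_neg (fun h0 => hz ⟨i, h0⟩)]

open Classical in
theorem IsF.eN (h : Rg S) :
    ∑ x ∈ inq S k e e' k' s, nul S (tef S k e k') x =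
      ∑ z, if S.M.v z ∈ tef S k e k' ∧ S.real z = true ∧ S.M.v (S.M.α z) ∈ inq S k e e' k' s
        then 1 else 0 := by
  unfold nul
  rw [sum_at S _ (fun z => S.real z = true ∧ S.M.v (S.M.α z) ∈ tef S k e k'),
    ← sum_α_nat S.M (fun z => if S.M.v z ∈ tef S k e k' ∧ S.real z = true ∧
      S.M.v (S.M.α z) ∈ inq S k e e' k' s then 1 else 0)]
  refine Finset.sum_congr rfl fun z _ => ?_
  rw [S.M.αα, h.real_α]
  exact if_congr (by tauto) rfl rfl

/-- at most one alive vertex inside: the inside is a star -/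
theorem IsF.star (hF : IsF S k e e' k' s) (hr : S.real e = true) (h : Rg S) (hS : IsStar S)
    (W : Wf Δ S L w) (hΔ : Δ ≤ 7) (h1 : (inq S k e e' k' s).card ≤ 1) :
    ∀ i, S.M.σ (S.M.φ (![k, e, S.M.α e', S.M.α k'] i)) = ![k, e, S.M.α e', S.M.α k'] (i + 1) := by
  classical
  have hcnt := hF.count hr h hS W
  have hsum := hF.sumID hr h (fun _ => 1)
  rw [← IsF.eN h] at hsum
  have hle : ∑ i, ∑ z ∈ ID S ![k, e, S.M.α e', S.M.α k'] s i, 1 ≤ 4 := by
    refine hsum.trans ?_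
    rcases Nat.le_one_iff_eq_zero_or_eq_one.1 h1 with h2 | h2
    · rw [Finset.card_eq_zero] at h2
      rw [h2] at hcnt ⊢
      simp only [Finset.sum_empty, Finset.card_empty] at hcnt ⊢
      omega
    · obtain ⟨x, hx⟩ := Finset.card_eq_one.1 h2
      have hxi : x ∈ inq S k e e' k' s := by rw [hx]; simp
      have hxA : x ∈ S.A := (Finset.mem_filter.1 hxi).1
      have hd : 4 ≤ S.rdeg x := h.deg4 hxA (W.ne x)
      have hN : nul S (tef S k e k') x = S.rdeg x := by
        unfold nul St.rdeg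
        refine Finset.sum_congr rfl fun z _ => ?_
        by_cases h3 : S.M.v z = x ∧ S.real z = true
        · have h4 : S.M.v z ∈ inq S k e e' k' s := by rw [h3.1]; exact hxi
          have h5 : S.M.v (S.M.α z) ∈ tef S k e k' := by
            rcases hF.nb h h3.2 h4 with h5 | h5
            · rw [hx, Finset.mem_singleton] at h5
              exact absurd (h3.1.trans h5.symm) (h.real_ne z h3.2)
            · exact h5
          rw [if_pos (show S.M.v z = x ∧ S.real z = true ∧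
            S.M.v (S.M.α z) ∈ tef S k e k' from ⟨h3.1, h3.2, h5⟩), if_pos h3]
        · rw [if_neg (fun h0 => h3 ⟨h0.1, h0.2.1⟩), if_neg h3]
      rw [hx] at hcnt ⊢
      simp only [Finset.sum_singleton, Finset.card_singleton, hN] at hcnt ⊢
      omega
  have hone : ∀ i, 1 ≤ (ID S ![k, e, S.M.α e', S.M.α k'] s i).card := fun i =>
    Finset.card_pos.2 ⟨_, hF.l_mem hr h hS W hΔ i⟩
  have hcard : ∀ i, (ID S ![k, e, S.M.α e', S.M.α k'] s i).card ≤ 1 := by
    simp only [Finset.sum_const, smul_eq_mul, mul_one] at hle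
    rw [Fin.sum_univ_four] at hle
    have a0 := hone 0
    have a1 := hone 1
    have a2 := hone 2
    have a3 := hone 3
    intro i
    fin_cases i
    · show (ID S ![k, e, S.M.α e', S.M.α k'] s 0).card ≤ 1
      omega
    · show (ID S ![k, e, S.M.α e', S.M.α k'] s 1).card ≤ 1
      omega
    · show (ID S ![k, e, S.M.α e', S.M.α k'] s 2).card ≤ 1
      omega
    · show (ID S ![k, e, S.M.α e', S.M.α k'] s 3).card ≤ 1
      omega
  intro i
  have h2 := Finset.card_le_one.1 (hcard (i + 1)) _ (hF.j_mem hr h hS W hΔ i) _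
    (hF.l_mem hr h hS W hΔ (i + 1))
  rw [h2]
  show S.M.φ (S.M.α (S.M.α _)) = _
  rw [S.M.αα, S.M.φ3]

end

/-- the apex of a star has degree four -/
theorem star_deg4 {c : Fin 4 → D} (h : ∀ i, S.M.σ (S.M.φ (c i)) = c (i + 1)) :
    ∀ i, S.M.σ (S.M.σ (S.M.σ (S.M.σ (S.M.φ (S.M.φ (c i)))))) = S.M.φ (S.M.φ (c i)) := by
  have h1 : ∀ i, S.M.σ (S.M.φ (S.M.φ (c (i + 1)))) = S.M.φ (S.M.φ (c i)) := by
    intro i
    have h2 := h i
    have h3 : S.M.α (S.M.φ (c i)) = S.M.φ (S.M.φ (c (i + 1))) := by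
      rw [← h2]
      show _ = S.M.φ (S.M.φ (S.M.φ (S.M.α (S.M.φ (c i)))))
      rw [S.M.φ3]
    rw [← h3]
    show S.M.φ (S.M.α (S.M.α (S.M.φ (c i)))) = _
    rw [S.M.αα]
  intro i
  have e1 : i = i + 1 + 1 + 1 + 1 := by
    revert i; decide
  conv_lhs => rw [e1]
  rw [h1, h1, h1, h1]

end Pool.FC7
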