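import Pool.Agent.FC7.DjC

/-! # A smallest chordless curve: at least eight inner darts at its vertices

If a vertex of the curve has only one inner dart, then it can be replaced by the other end of the
dart. -/

open Finset

set_option linter.unusedSectionVars false

namespace Pool.FC7

open Pool.FC6 Pool.FC6.St

variable {D V : Type} [Fintype D] [DecidableEq V] {S : St D V} {L : D → Bool} {w : D → ℕ} {Δ : ℕ}

/-- the inside of a star is one vertex -/
theorem star_one {c : Fin 4 → D} (hc : S.M.Curve c) {s s' : D → Bool} (hs : S.M.SideOf c s)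
    {c' : Fin 4 → D} (hc' : S.M.Curve c') (hs' : S.M.SideOf c' fun z => !s z)
    (h : ∀ i, S.M.σ (S.M.φ (c i)) = c (i + 1)) {z z' : D} (hz : s z = true) (hz' : s z' = true)
    (ho : S.Off c z) (ho' : S.Off c z') : S.M.v z = S.M.v z' := by
  classical
  obtain ⟨B, hB⟩ : ∃ B : D → Prop, B = fun z => ∃ i, z = c i ∨ z = S.M.φ (c i) ∨
    z = S.M.φ (S.M.φ (c i)) := ⟨_, rfl⟩
  have mB : ∀ z, B z ↔ ∃ i, z = c i ∨ z = S.M.φ (c i) ∨ z = S.M.φ (S.M.φ (c i)) := fun z => by
    rw [hB]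
  have hx : ∀ i, S.M.α (S.M.φ (c i)) = S.M.φ (S.M.φ (c (i + 1))) := by
    intro i
    rw [← h i]
    show _ = S.M.φ (S.M.φ (S.M.φ (S.M.α (S.M.φ (c i)))))
    rw [S.M.φ3]
  have hx' : ∀ i, S.M.α (S.M.φ (S.M.φ (c i))) = S.M.φ (c (i - 1)) := by
    intro i
    have := hx (i - 1)
    rw [sub_add_cancel] at this
    rw [← this, S.M.αα]
  have Bφ : ∀ z, B (S.M.φ z) ↔ B z := by
    intro z
    rw [mB, mB]
    constructor
    · rintro ⟨i, h1 | h1 | h1⟩
      · refine ⟨i, Or.inr (Or.inr ?_)⟩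
        rw [← h1, S.M.φ3]
      · exact ⟨i, Or.inl (S.M.φinj h1)⟩
      · exact ⟨i, Or.inr (Or.inl (S.M.φinj h1))⟩
    · rintro ⟨i, rfl | rfl | rfl⟩
      · exact ⟨i, Or.inr (Or.inl rfl)⟩
      · exact ⟨i, Or.inr (Or.inr rfl)⟩
      · exact ⟨i, Or.inl (S.M.φ3 _)⟩
  have Bα : ∀ z, s (S.M.α z) = true → B z → B (S.M.α z) := by
    intro z h1 h2
    rw [mB] at h2 ⊢
    obtain ⟨i, rfl | rfl | rfl⟩ := h2
    · rw [hs.f] at h1
      exact absurd h1 (by decide)
    · exact ⟨i + 1, Or.inr (Or.inr (hx i))⟩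
    · exact ⟨i - 1, Or.inr (Or.inl (hx' i))⟩
  have hcon := side_const hc' hs' (s' := fun z => decide (B z))
    (fun z => decide_eq_decide.2 (Bφ z)) (by
      intro z h1 h2
      have h1 : s z = true := by simpa using h1
      have h2 : s (S.M.α z) = true := by simpa using h2
      refine decide_eq_decide.2 ⟨fun h3 => ?_, fun h3 => Bα z h2 h3⟩
      have := Bα (S.M.α z) (by rw [S.M.αα]; exact h1) h3
      rwa [S.M.αα] at this)
  have hall : ∀ z, s z = true → B z := by
    intro z h1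
    have h2 := hcon z (c 0) (by simpa using h1) (by rw [hs.t]; rfl)
    have h3 : decide (B (c 0)) = true := decide_eq_true ((mB _).2 ⟨0, Or.inl rfl⟩)
    have h2 : decide (B z) = decide (B (c 0)) := h2
    rw [h3] at h2
    exact of_decide_eq_true h2
  have hv : ∀ i, S.M.v (S.M.φ (S.M.φ (c (i + 1)))) = S.M.v (S.M.φ (S.M.φ (c i))) := by
    intro i
    rw [← hx i, ← S.M.vφ (S.M.φ (c i))]
  have hv0 : ∀ i, S.M.v (S.M.φ (S.M.φ (c i))) = S.M.v (S.M.φ (S.M.φ (c 0))) := by
    intro i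
    have a1 := hv 0
    have a2 := hv 1
    have a3 := hv 2
    fin_cases i
    · rfl
    · exact a1
    · exact a2.trans a1
    · exact a3.trans (a2.trans a1)
  have key : ∀ z, s z = true → S.Off c z → S.M.v z = S.M.v (S.M.φ (S.M.φ (c 0))) := by
    intro z h1 h2
    obtain ⟨i, rfl | rfl | rfl⟩ := (mB z).1 (hall z h1)
    · exact absurd rfl (h2 i)
    · exact absurd (by rw [S.M.vφ, hc.nx]) (h2 (i + 1))
    · exact hv0 i
  rw [key z hz ho, key z' hz' ho']

section

variable {k e e' k' : D} {s : D → Bool}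

theorem IsF.star_one' (hF : IsF S k e e' k' s)
    (h : ∀ i, S.M.σ (S.M.φ (![k, e, S.M.α e', S.M.α k'] i)) = ![k, e, S.M.α e', S.M.α k'] (i + 1))
    (h2 : TwoF S k e e' k' s) (hra : ∀ d, S.real (S.M.α d) = S.real d) : False := by
  obtain ⟨z, z', a1, a2, a3, a4, a5, a6, a7⟩ := h2 true
  have hF' := hF.symm hra
  exact a7 (star_one (s' := s) hF.hc hF.hs hF'.hc hF'.hs h a5 a6 a3 a4)

/-- rotation of a curve whose vertices are alive -/
theorem IsF.rot (hF : IsF S k e e' k' s) (hr : S.real e = true) (h : Rg S) (hS : IsStar S)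
    (W : Wf Δ S L w) : IsF S e (S.M.α e') k' (S.M.α k) s where
  hk := hr
  hk' := by rw [h.real_α]; exact hF.hk
  vk := hF.he.symm
  he := hF.hw.symm
  he' := by rw [S.M.αα]; exact hF.vk
  re := by rw [h.real_α, hF.re, hF.hk', hr]
  hw := by rw [S.M.αα, hF.he']
  hn r _ h1 h2 := hF.ht (S.M.α r) (by rw [h2, S.M.αα]) (by rw [S.M.αα, h1])
  ht t h1 h2 := by
    have hvA : S.M.v (S.M.α k') ∈ S.A := h.real_A _ (by rw [h.real_α]; exact hF.hk')
    rw [S.M.αα, hF.he'] at h2
    have h3 : S.M.v t ∈ S.A := by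
      rw [h1]; exact h.real_A _ hr
    have h4 : S.real t = true := by
      by_contra hn
      exact hS.vhead W h3 (by simpa using hn) (by rw [h2]; exact hvA)
    exact hF.hn t h4 (h1.trans hF.he) h2
  hc := curve4 hF.he.symm hF.hw.symm (by rw [S.M.αα]; exact hF.vk) (by rw [S.M.αα, hF.he'])
    (by rw [hF.he]; exact hF.n12) (by rw [S.M.αα, hF.he, hF.he']; exact hF.n13)
    (by rw [S.M.αα, hF.he]; exact hF.n01.symm) (by rw [S.M.αα, hF.he']; exact hF.n23)
    (by rw [S.M.αα]; exact hF.n02.symm) (by rw [S.M.αα, S.M.αα, hF.he']; exact hF.n03.symm)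
  hs := by
    have hs := hF.hs
    refine ⟨hs.φ, fun i => ?_, fun i => ?_, fun x h1 h2 => ?_⟩
    · fin_cases i
      · exact hs.t 1
      · exact hs.t 2
      · exact hs.t 3
      · show s (S.M.α (S.M.α k)) = true
        rw [S.M.αα]; exact hs.t 0
    · fin_cases i
      · exact hs.f 1
      · exact hs.f 2
      · exact hs.f 3
      · show s (S.M.α (S.M.α (S.M.α k))) = false
        rw [S.M.αα]; exact hs.f 0
    · refine hs.o x (fun i => ?_) (fun i => ?_)
      · fin_cases i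
        · have := h1 3
          rwa [show (![e, S.M.α e', S.M.α k', S.M.α (S.M.α k)] 3 : D) = S.M.α (S.M.α k) from rfl,
            S.M.αα] at this
        · exact h1 0
        · exact h1 1
        · exact h1 2
      · fin_cases i
        · have := h2 3
          rwa [show (![e, S.M.α e', S.M.α k', S.M.α (S.M.α k)] 3 : D) = S.M.α (S.M.α k) from rfl,
            S.M.αα] at this
        · exact h2 0
        · exact h2 1
        · exact h2 2

theorem IsF.off_rot (hF : IsF S k e e' k' s) {z : D} :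
    S.Off ![e, S.M.α e', S.M.α k', S.M.α (S.M.α k)] z ↔
      S.Off ![k, e, S.M.α e', S.M.α k'] z := by
  rw [off4 hF.he hF.hw, off4 hF.hw.symm (by rw [S.M.αα, hF.he']), S.M.αα, S.M.αα, hF.he, hF.he']
  tauto

theorem IsF.inq_rot (hF : IsF S k e e' k' s) (hF' : IsF S e (S.M.α e') k' (S.M.α k) s)
    (W : Wf Δ S L w) : inq S e (S.M.α e') k' (S.M.α k) s = inq S k e e' k' s := by
  ext x
  by_cases hx : x ∈ S.A
  · obtain ⟨z, rfl⟩ := W.A_im x hx
    rw [hF.mem_inq, hF'.mem_inq, hF.off_rot]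
  · exact ⟨fun h0 => absurd (Finset.filter_subset _ _ h0) hx,
      fun h0 => absurd (Finset.filter_subset _ _ h0) hx⟩

theorem IsF.two_rot (hF : IsF S k e e' k' s) (h2 : TwoF S k e e' k' s) :
    TwoF S e (S.M.α e') k' (S.M.α k) s := by
  intro b
  obtain ⟨z, z', a1, a2, a3, a4, a5, a6, a7⟩ := h2 b
  exact ⟨z, z', a1, a2, hF.off_rot.2 a3, hF.off_rot.2 a4, a5, a6, a7⟩

theorem IsF.ID_rot (hF : IsF S k e e' k' s) (i : Fin 4) :
    ID S ![e, S.M.α e', S.M.α k', S.M.α (S.M.α k)] s i =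
      ID S ![k, e, S.M.α e', S.M.α k'] s (i + 1) := by
  ext z
  rw [mem_ID, mem_ID, hF.off_rot]
  fin_cases i
  · rfl
  · rfl
  · rfl
  · show (_ = S.M.v (S.M.α (S.M.α k)) ∧ _) ↔ (_ = S.M.v k ∧ _)
    rw [S.M.αα]

end

end Pool.FC7
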