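import Pool.Agent.FC7.DjD

/-! # Replacement of a vertex of the curve which has only one inner dart -/

open Finset

set_option linter.unusedSectionVars false

namespace Pool.FC7

open Pool.FC6 Pool.FC6.St

variable {D V : Type} [Fintype D] [DecidableEq V] {S : St D V} {L : D → Bool} {w : D → ℕ} {Δ : ℕ}

theorem exists_two (W : Wf Δ S L w) {U : Finset V} (hUA : U ⊆ S.A) (h : 2 ≤ U.card) :
    ∃ z z', S.M.v z ∈ U ∧ S.M.v z' ∈ U ∧ S.M.v z ≠ S.M.v z' := by
  obtain ⟨x, hx, y, hy, hne⟩ := Finset.one_lt_card.1 h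
  obtain ⟨z, rfl⟩ := W.A_im x (hUA hx)
  obtain ⟨z', rfl⟩ := W.A_im y (hUA hy)
  exact ⟨z, z', hx, hy, hne⟩

section

variable {k e e' k' : D} {s : D → Bool}

theorem IsF.two_card (hF : IsF S k e e' k' s) (h2 : TwoF S k e e' k' s) :
    2 ≤ (inq S k e e' k' s).card := by
  obtain ⟨z, z', a1, a2, a3, a4, a5, a6, a7⟩ := h2 true
  exact Finset.one_lt_card.2 ⟨_, hF.mem_inq.2 ⟨a1, a3, a5⟩, _, hF.mem_inq.2 ⟨a2, a4, a6⟩, a7⟩

/-- replacement of the vertex `v (α e)` -/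
theorem IsF.repl (hF : IsF S k e e' k' s) (hr : S.real e = true) (h : Rg S) (hS : IsStar S)
    (W : Wf Δ S L w) (hΔ : Δ ≤ 7) (h2 : TwoF S k e e' k' s)
    (h3 : 3 ≤ (inq S k e e' k' s).card)
    (hfc : ∀ z, S.real z = true → S.M.v z ∈ inq S k e e' k' s → Fc3 S z)
    (hl : S.M.φ e = S.M.α (S.M.φ (S.M.φ (S.M.α e')))) (hlr : S.real (S.M.φ e) = true)
    (hone : ∀ z ∈ ID S ![k, e, S.M.α e', S.M.α k'] s 2, z = S.M.φ e) :
    ∃ k1 e1 e1' k1' s1, IsF S k1 e1 e1' k1' s1 ∧ TwoF S k1 e1 e1' k1' s1 ∧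
      inq S k1 e1 e1' k1' s1 ⊆ inq S k e e' k' s ∧
      (inq S k1 e1 e1' k1' s1).card < (inq S k e e' k' s).card := by
  classical
  have hmA : S.M.v k ∈ S.A := h.real_A _ hF.hk
  have hyA : S.M.v (S.M.α k) ∈ S.A := h.real_A _ (by rw [h.real_α]; exact hF.hk)
  have hvA : S.M.v (S.M.α k') ∈ S.A := h.real_A _ (by rw [h.real_α]; exact hF.hk')
  have hxA : S.M.v (S.M.α (S.M.φ e)) ∈ S.A := h.real_A _ (by rw [h.real_α]; exact hlr)
  have hs := hF.hs
  have sk : s k = true := hs.t 0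
  have se : s e = true := hs.t 1
  have se' : s (S.M.α e') = true := hs.t 2
  have sk' : s (S.M.α k') = true := hs.t 3
  have fk : s (S.M.α k) = false := hs.f 0
  have fe : s (S.M.α e) = false := hs.f 1
  have fe' : s (S.M.α (S.M.α e')) = false := hs.f 2
  have fk' : s (S.M.α (S.M.α k')) = false := hs.f 3
  rw [S.M.αα] at fe' fk'
  -- the apex
  obtain ⟨x, hx⟩ : ∃ x, x = S.M.v (S.M.φ (S.M.φ e)) := ⟨_, rfl⟩
  have x1 : S.M.v (S.M.φ (S.M.φ e)) = x := hx.symm
  have x2 : S.M.v (S.M.α (S.M.φ e)) = x := by rw [← S.M.vφ, x1]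
  have hl' : S.M.φ (S.M.φ (S.M.α e')) = S.M.α (S.M.φ e) := by rw [hl, S.M.αα]
  have x3 : S.M.v (S.M.φ (S.M.φ (S.M.α e'))) = x := by rw [hl', x2]
  have xA : x ∈ S.A := by rw [← x2]; exact hxA
  have xo : S.Off ![k, e, S.M.α e', S.M.α k'] (S.M.φ (S.M.φ e)) := hF.apex hr h hS W hΔ 1
  have xn := (off4 hF.he hF.hw).1 xo
  rw [x1] at xn
  obtain ⟨xm, xy, xw, xv⟩ := xn
  have sx : s (S.M.φ (S.M.φ e)) = true := by rw [hs.φ, hs.φ]; exact se
  have hxU : x ∈ inq S k e e' k' s := by rw [← x1]; exact hF.mem_inq.2 ⟨by rw [x1]; exact xA, xo, sx⟩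
  -- the new darts
  obtain ⟨e1, he1⟩ : ∃ e1, e1 = S.M.α (S.M.φ (S.M.φ e)) := ⟨_, rfl⟩
  obtain ⟨e1', he1'⟩ : ∃ e1', e1' = S.M.φ (S.M.α e') := ⟨_, rfl⟩
  have a1 : S.M.α e1 = S.M.φ (S.M.φ e) := by rw [he1, S.M.αα]
  have a1' : S.M.φ e1' = S.M.α (S.M.φ e) := by rw [he1']; exact hl'
  have v1 : S.M.v e1 = S.M.v (S.M.α k) := by rw [he1, ← S.M.vφ, S.M.φ3, hF.he]
  have v2 : S.M.v (S.M.α e1) = x := by rw [a1, x1]
  have v1' : S.M.v e1' = S.M.v (S.M.α k') := by rw [he1', S.M.vφ, S.M.αα, hF.he']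
  have v2' : S.M.v (S.M.α e1') = x := by rw [← S.M.vφ, a1', x2]
  have r1 : S.real e1 = true := by
    by_contra hn
    exact hS.vhead W (by rw [v1]; exact hyA) (by simpa using hn) (by rw [v2]; exact xA)
  have r1' : S.real e1' = true := by
    by_contra hn
    exact hS.vhead W (by rw [v1']; exact hvA) (by simpa using hn) (by rw [v2']; exact xA)
  have s1 : s e1 = true := by
    have := off_side hF.hc hs (z := S.M.α e1) (by rw [a1]; exact xo)
    rw [S.M.αα] at this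
    rw [this, a1, sx]
  have s1' : s e1' = true := by rw [he1', hs.φ]; exact se'
  have sa1' : s (S.M.α e1') = true := by
    have : S.Off ![k, e, S.M.α e', S.M.α k'] (S.M.α e1') := fun i => by
      rw [v2', ← x1]; exact xo i
    have h0 := off_side hF.hc hs this
    rw [S.M.αα] at h0
    rw [← h0, s1']
  have σ1 : S.M.σ (S.M.α e1') = S.M.α (S.M.φ e) := by
    show S.M.φ (S.M.α (S.M.α e1')) = _
    rw [S.M.αα, a1']
  have σ2 : S.M.σ (S.M.α (S.M.φ e)) = S.M.α e1 := by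
    show S.M.φ (S.M.α (S.M.α (S.M.φ e))) = _
    rw [S.M.αα, a1]
  -- no dart from `v k` to the new vertex
  have ht : ∀ t, S.M.v t = S.M.v k → S.M.v (S.M.α t) ≠ S.M.v (S.M.α e1) := by
    intro t t1 t2
    rw [v2] at t2
    have rt : S.real t = true := by
      by_contra hn
      exact hS.vhead W (by rw [t1]; exact hmA) (by simpa using hn) (by rw [t2]; exact xA)
    have hf := hfc (S.M.α t) (by rw [h.real_α]; exact rt) (by rw [t2]; exact hxU)
    have nt : S.M.α t ≠ S.M.α (S.M.φ e) := fun h0 => by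
      have := S.M.αinj h0
      rw [this, S.M.vφ] at t1
      exact hF.n02 t1.symm
    have b1 : S.M.σ (S.M.α e1) = S.M.α t ∧ k = S.M.σ t := by
      rcases hf (S.M.α e1) k (v2.trans t2.symm) (by rw [S.M.αα, t1])
        (by rw [S.M.αα, v1]) with ⟨c1, -⟩ | ⟨c1, c2⟩
      · rw [← σ2] at c1
        exact absurd (S.M.σinj c1).symm nt
      · rw [S.M.αα] at c2
        exact ⟨c1, c2⟩
    have b2 : S.M.α e1' = S.M.σ (S.M.α t) ∧ S.M.σ k' = t := by
      rcases hf (S.M.α e1') k' (v2'.trans t2.symm) (by rw [S.M.αα, t1, hF.vk])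
        (by rw [S.M.αα, v1']) with ⟨c1, c2⟩ | ⟨c1, -⟩
      · rw [S.M.αα] at c2
        exact ⟨c1, c2⟩
      · rw [σ1] at c1
        exact absurd c1.symm nt
    obtain ⟨b3, b4⟩ := b1
    obtain ⟨b5, b6⟩ := b2
    have b7 : S.M.φ k = e1 := by
      apply S.M.φinj
      have c1 : S.M.φ e1 = S.M.α t := by
        rw [← b3]
        show _ = S.M.φ (S.M.α (S.M.α e1))
        rw [S.M.αα]
      have c2 : S.M.φ (S.M.φ k) = S.M.α t := by
        rw [b4]
        show S.M.φ (S.M.φ (S.M.φ (S.M.α t))) = _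
        rw [S.M.φ3]
      rw [c1, c2]
    have b8 : S.M.φ (S.M.α k') = t := b6
    have b9 : S.M.φ t = S.M.α e1' := by
      rw [b5]
      show _ = S.M.φ (S.M.α (S.M.α t))
      rw [S.M.αα]
    refine hF.star_one' (fun i => ?_) h2 h.real_α
    fin_cases i
    · show S.M.σ (S.M.φ k) = e
      rw [b7]
      show S.M.φ (S.M.α e1) = e
      rw [a1, S.M.φ3]
    · show S.M.σ (S.M.φ e) = S.M.α e'
      rw [hl]
      show S.M.φ (S.M.α (S.M.α _)) = _
      rw [S.M.αα, S.M.φ3]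
    · show S.M.σ (S.M.φ (S.M.α e')) = S.M.α k'
      rw [← he1']
      show S.M.φ (S.M.α e1') = _
      rw [← b9, ← b8, S.M.φ3]
    · show S.M.σ (S.M.φ (S.M.α k')) = k
      rw [b8, b4]
  -- the side function
  obtain ⟨B, hB⟩ : ∃ B : D → Prop, B = fun z => z = e ∨ z = S.M.φ e ∨ z = S.M.φ (S.M.φ e) ∨
    z = S.M.α e' ∨ z = S.M.φ (S.M.α e') ∨ z = S.M.φ (S.M.φ (S.M.α e')) := ⟨_, rfl⟩
  have mB : ∀ z, B z ↔ z = e ∨ z = S.M.φ e ∨ z = S.M.φ (S.M.φ e) ∨
    z = S.M.α e' ∨ z = S.M.φ (S.M.α e') ∨ z = S.M.φ (S.M.φ (S.M.α e')) := fun z => by rw [hB]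
  have Bv : ∀ z, B z → S.M.v z = S.M.v (S.M.α k) ∨ S.M.v z = S.M.v (S.M.α e) ∨
      S.M.v z = S.M.v (S.M.α k') ∨ S.M.v z = x := by
    intro z hz
    rcases (mB z).1 hz with rfl | rfl | rfl | rfl | rfl | rfl
    · exact Or.inl hF.he
    · exact Or.inr (Or.inl (S.M.vφ _))
    · exact Or.inr (Or.inr (Or.inr x1))
    · exact Or.inr (Or.inl hF.hw.symm)
    · exact Or.inr (Or.inr (Or.inl (by rw [S.M.vφ, S.M.αα, hF.he'])))
    · exact Or.inr (Or.inr (Or.inr x3))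
  have Bφ : ∀ z, B (S.M.φ z) ↔ B z := by
    intro z
    rw [mB, mB]
    constructor
    · rintro (h1 | h1 | h1 | h1 | h1 | h1)
      · exact Or.inr (Or.inr (Or.inl (by rw [← h1, S.M.φ3])))
      · exact Or.inl (S.M.φinj h1)
      · exact Or.inr (Or.inl (S.M.φinj h1))
      · exact Or.inr (Or.inr (Or.inr (Or.inr (Or.inr (by rw [← h1, S.M.φ3])))))
      · exact Or.inr (Or.inr (Or.inr (Or.inl (S.M.φinj h1))))
      · exact Or.inr (Or.inr (Or.inr (Or.inr (Or.inl (S.M.φinj h1)))))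
    · rintro (rfl | rfl | rfl | rfl | rfl | rfl)
      · exact Or.inr (Or.inl rfl)
      · exact Or.inr (Or.inr (Or.inl rfl))
      · exact Or.inl (S.M.φ3 _)
      · exact Or.inr (Or.inr (Or.inr (Or.inr (Or.inl rfl))))
      · exact Or.inr (Or.inr (Or.inr (Or.inr (Or.inr rfl))))
      · exact Or.inr (Or.inr (Or.inr (Or.inl (S.M.φ3 _))))
  obtain ⟨s₁, hs₁⟩ : ∃ s₁ : D → Bool, s₁ = fun z => s z && !decide (B z) := ⟨_, rfl⟩
  have st : ∀ z, s₁ z = true ↔ s z = true ∧ ¬ B z := by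
    intro z
    rw [hs₁]
    simp
  have sf : ∀ z, s₁ z = false ↔ s z = false ∨ B z := by
    intro z
    rw [← Bool.not_eq_true, st]
    cases s z <;> simp
  have nB : ∀ z, S.M.v z ≠ S.M.v (S.M.α k) → S.M.v z ≠ S.M.v (S.M.α e) →
      S.M.v z ≠ S.M.v (S.M.α k') → S.M.v z ≠ x → ¬ B z := fun z b1 b2 b3 b4 b5 => by
    rcases Bv z b5 with b6 | b6 | b6 | b6
    · exact b1 b6
    · exact b2 b6
    · exact b3 b6
    · exact b4 b6
  have nBk : ¬ B k := nB k hF.n01 hF.n02 hF.n03 xm.symm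
  have nBe1 : ¬ B e1 := by
    rw [mB]
    rintro (h1 | h1 | h1 | h1 | h1 | h1)
    · rw [h1] at v2
      exact xw v2.symm
    · rw [h1, S.M.vφ] at v1
      exact hF.n12 v1.symm
    · rw [h1, x1] at v1
      exact xy v1
    · rw [h1, ← hF.hw] at v1
      exact hF.n12 v1.symm
    · rw [h1, S.M.vφ, S.M.αα, hF.he'] at v1
      exact hF.n13 v1.symm
    · rw [h1, x3] at v1
      exact xy v1
  have nBa1' : ¬ B (S.M.α e1') := by
    rw [mB]
    rintro (h1 | h1 | h1 | h1 | h1 | h1)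
    · rw [h1, hF.he] at v2'
      exact xy v2'.symm
    · rw [h1, S.M.vφ] at v2'
      exact xw v2'.symm
    · have h4 : S.M.v (S.M.α (S.M.α e1')) = S.M.v (S.M.α (S.M.φ (S.M.φ e))) := by rw [h1]
      rw [S.M.αα, v1', ← he1, v1] at h4
      exact hF.n13 h4.symm
    · have := S.M.αinj h1
      rw [this, ← hF.hw] at v2'
      exact xw v2'.symm
    · rw [h1, S.M.vφ, S.M.αα, hF.he'] at v2'
      exact xv v2'.symm
    · have h4 : S.M.v (S.M.α (S.M.α e1')) = S.M.v (S.M.α (S.M.φ (S.M.φ (S.M.α e')))) := by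
        rw [h1]
      rw [S.M.αα, v1', ← hl, S.M.vφ] at h4
      exact hF.n23 h4.symm
  have nBk' : ¬ B (S.M.α k') := by
    rw [mB]
    rintro (h1 | h1 | h1 | h1 | h1 | h1)
    · exact hF.n13 (by rw [h1, hF.he])
    · exact hF.n23 (by rw [h1, S.M.vφ])
    · exact xv (by rw [h1, x1])
    · exact hF.n23 (by rw [h1, hF.hw])
    · have h4 : S.M.v (S.M.α (S.M.α k')) = S.M.v (S.M.α (S.M.φ (S.M.α e'))) := by rw [h1]
      rw [S.M.αα, ← he1', v2', hF.vk] at h4
      exact xm h4.symm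
    · exact xv (by rw [h1, x3])
  have hc₁ : S.M.Curve ![k, e1, S.M.α e1', S.M.α k'] :=
    curve4 hF.vk v1 v1' (v2.trans v2'.symm) hF.n01 (by rw [v2]; exact xm.symm) hF.n03
      (by rw [v2]; exact xy.symm) hF.n13 (by rw [v2]; exact xv)
  have hside : S.M.SideOf ![k, e1, S.M.α e1', S.M.α k'] s₁ := by
    refine ⟨fun z => ?_, fun i => ?_, fun i => ?_, fun z b1 b2 => ?_⟩
    · rw [hs₁]
      show (s (S.M.φ z) && !decide (B (S.M.φ z))) = (s z && !decide (B z))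
      rw [hs.φ, decide_eq_decide.2 (Bφ z)]
    · fin_cases i
      · exact (st k).2 ⟨sk, nBk⟩
      · exact (st e1).2 ⟨s1, nBe1⟩
      · exact (st (S.M.α e1')).2 ⟨sa1', nBa1'⟩
      · exact (st (S.M.α k')).2 ⟨sk', nBk'⟩
    · fin_cases i
      · exact (sf (S.M.α k)).2 (Or.inl fk)
      · refine (sf (S.M.α e1)).2 (Or.inr ?_)
        rw [a1, mB]
        exact Or.inr (Or.inr (Or.inl rfl))
      · refine (sf (S.M.α (S.M.α e1'))).2 (Or.inr ?_)
        rw [S.M.αα, mB]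
        exact Or.inr (Or.inr (Or.inr (Or.inr (Or.inl he1'))))
      · refine (sf (S.M.α (S.M.α k'))).2 (Or.inl ?_)
        rw [S.M.αα]; exact fk'
    · have n1 : z ≠ k := b1 0
      have n2 : z ≠ e1 := b1 1
      have n3 : z ≠ S.M.α e1' := b1 2
      have n4 : z ≠ S.M.α k' := b1 3
      have n5 : z ≠ S.M.α k := b2 0
      have n6 : z ≠ S.M.α e1 := b2 1
      have n7 : z ≠ S.M.α (S.M.α e1') := b2 2
      have n8 : z ≠ S.M.α (S.M.α k') := b2 3
      rw [S.M.αα] at n7 n8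
      have Be : B e := (mB _).2 (Or.inl rfl)
      have Be' : B (S.M.α e') := (mB _).2 (Or.inr (Or.inr (Or.inr (Or.inl rfl))))
      by_cases c1 : z = e
      · rw [c1, (sf e).2 (Or.inr Be), (sf (S.M.α e)).2 (Or.inl fe)]
      by_cases c2 : z = S.M.α e
      · rw [c2, S.M.αα, (sf e).2 (Or.inr Be), (sf (S.M.α e)).2 (Or.inl fe)]
      by_cases c3 : z = S.M.α e'
      · rw [c3, S.M.αα, (sf (S.M.α e')).2 (Or.inr Be'), (sf e').2 (Or.inl fe')]
      by_cases c4 : z = e'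
      · rw [c4, (sf (S.M.α e')).2 (Or.inr Be'), (sf e').2 (Or.inl fe')]
      have d1 : s (S.M.α z) = s z := by
        refine hs.o z (fun i => ?_) (fun i => ?_)
        · fin_cases i
          · exact n1
          · exact c1
          · exact c3
          · exact n4
        · fin_cases i
          · exact n5
          · exact c2
          · show z ≠ S.M.α (S.M.α e')
            rw [S.M.αα]; exact c4
          · show z ≠ S.M.α (S.M.α k')
            rw [S.M.αα]; exact n8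
      have d2 : B (S.M.α z) ↔ B z := by
        have key : ∀ y, y ≠ e → y ≠ S.M.α e1 → y ≠ S.M.α e' → y ≠ e1' → B y →
            B (S.M.α y) := by
          intro y g1 g2 g3 g4 g5
          rcases (mB y).1 g5 with g | g | g | g | g | g
          · exact absurd g g1
          · rw [g, ← hl', mB]
            exact Or.inr (Or.inr (Or.inr (Or.inr (Or.inr rfl))))
          · exact absurd (g.trans a1.symm) g2
          · exact absurd g g3
          · exact absurd (g.trans he1'.symm) g4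
          · rw [g, hl', S.M.αα, mB]
            exact Or.inr (Or.inl rfl)
        constructor
        · intro g
          have := key (S.M.α z) (fun h0 => c2 (by rw [← h0, S.M.αα]))
            (fun h0 => n2 (S.M.αinj h0)) (fun h0 => c4 (S.M.αinj h0))
            (fun h0 => n3 (by rw [← h0, S.M.αα])) g
          rwa [S.M.αα] at this
        · exact key z c1 n6 c3 n7
      rw [hs₁]
      show (s (S.M.α z) && !decide (B (S.M.α z))) = (s z && !decide (B z))
      rw [d1, decide_eq_decide.2 d2]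
  have hF₁ : IsF S k e1 e1' k' s₁ :=
    { hk := hF.hk, hk' := hF.hk', vk := hF.vk, he := v1, he' := v1', re := r1'.trans r1.symm,
      hw := v2.trans v2'.symm, hn := hF.hn, ht := ht, hc := hc₁, hs := hside }
  have ho₁ : ∀ z, S.Off ![k, e1, S.M.α e1', S.M.α k'] z ↔ S.M.v z ≠ S.M.v k ∧
      S.M.v z ≠ S.M.v (S.M.α k) ∧ S.M.v z ≠ x ∧ S.M.v z ≠ S.M.v (S.M.α k') := by
    intro z
    rw [off4 v1 (v2.trans v2'.symm), v2]
  have ho : ∀ z, S.Off ![k, e, S.M.α e', S.M.α k'] z ↔ S.M.v z ≠ S.M.v k ∧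
      S.M.v z ≠ S.M.v (S.M.α k) ∧ S.M.v z ≠ S.M.v (S.M.α e) ∧ S.M.v z ≠ S.M.v (S.M.α k') :=
    fun z => off4 hF.he hF.hw
  -- the vertices inside
  have hin : inq S k e1 e1' k' s₁ = (inq S k e e' k' s).erase x := by
    ext y
    rw [Finset.mem_erase]
    by_cases hy : y ∈ S.A
    swap
    · exact ⟨fun h0 => absurd (Finset.filter_subset _ _ h0) hy,
        fun h0 => absurd (Finset.filter_subset _ _ h0.2) hy⟩
    obtain ⟨z, rfl⟩ := W.A_im y hy
    rw [hF.mem_inq, hF₁.mem_inq, ho, ho₁, st]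
    constructor
    · rintro ⟨g1, ⟨g2, g3, g4, g5⟩, g6, g7⟩
      refine ⟨g4, g1, ⟨g2, g3, fun g8 => ?_, g5⟩, g6⟩
      by_cases g9 : S.Off ![k, e, S.M.α e', S.M.α k'] (S.M.α z)
      · have := hone z (mem_ID.2 ⟨by rw [g8, hF.hw]; rfl, g6, g9⟩)
        exact g7 (by rw [this, mB]; exact Or.inr (Or.inl rfl))
      · have g10 : ¬ S.Off ![k, e, S.M.α e', S.M.α k'] z := by
          rw [ho]; exact fun h0 => h0.2.2.1 g8
        rcases hF.on h hS W hΔ g1 g10 g9 with ⟨i, hi⟩ | ⟨i, hi⟩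
        · have g11 : S.M.v (![k, e, S.M.α e', S.M.α k'] i) =
              S.M.v (![k, e, S.M.α e', S.M.α k'] 2) := by rw [← hi, g8, hF.hw]; rfl
          have g12 := hF.hc.inj _ _ g11
          rw [g12] at hi
          exact g7 (by rw [hi, mB]; exact Or.inr (Or.inr (Or.inr (Or.inl rfl))))
        · rw [hi, hs.f] at g6
          exact absurd g6 (by decide)
    · rintro ⟨g4, g1, ⟨g2, g3, g8, g5⟩, g6⟩
      exact ⟨g1, ⟨g2, g3, g4, g5⟩, g6, nB z g3 g8 g5 g4⟩
  have hcard : (inq S k e1 e1' k' s₁).card + 1 = (inq S k e e' k' s).card := by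
    rw [hin]
    exact Finset.card_erase_add_one hxU
  refine ⟨k, e1, e1', k', s₁, hF₁, fun b => ?_, by rw [hin]; exact Finset.erase_subset _ _,
    by omega⟩
  cases b
  · obtain ⟨z, z', b1, b2, b3, b4, b5, b6, b7⟩ := h2 false
    have key : ∀ z, S.Off ![k, e, S.M.α e', S.M.α k'] z → s z = false →
        S.Off ![k, e1, S.M.α e1', S.M.α k'] z := by
      intro z c1 c2
      obtain ⟨c3, c4, c5, c6⟩ := (ho z).1 c1
      refine (ho₁ z).2 ⟨c3, c4, fun c7 => ?_, c6⟩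
      have := hs.vert hF.hc c1 (c7.trans x1.symm)
      rw [c2, sx] at this
      exact absurd this (by decide)
    exact ⟨z, z', b1, b2, key z b3 b5, key z' b4 b6, (sf z).2 (Or.inl b5), (sf z').2 (Or.inl b6),
      b7⟩
  · obtain ⟨z, z', b1, b2, b3⟩ := exists_two W (Finset.filter_subset _ _)
      (show 2 ≤ (inq S k e1 e1' k' s₁).card by omega)
    obtain ⟨c1, c2, c3⟩ := hF₁.mem_inq.1 b1
    obtain ⟨d1, d2, d3⟩ := hF₁.mem_inq.1 b2
    exact ⟨z, z', c1, d1, c2, d2, c3, d3, b3⟩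

end

end Pool.FC7
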