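import Pool.Agent.FC7.DjE

/-! # The charge inside of a smallest chordless closed curve of length four -/

open Finset

set_option linter.unusedSectionVars false

namespace Pool.FC7

open Pool.FC6 Pool.FC6.St

variable {D V : Type} [Fintype D] [DecidableEq V] {S : St D V} {L : D → Bool} {w : D → ℕ} {Δ : ℕ}

/-- real darts count one, virtual darts two -/
def wtd (S : St D V) (z : D) : ℕ := if S.real z = true then 1 else 2

theorem one_le_wtd (z : D) : 1 ≤ wtd S z := by
  unfold wtd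
  split_ifs <;> omega

/-- four times the price of the null neighbours of `x` -/
def pr4 (S : St D V) (T : Finset V) (x : V) : ℕ :=
  if nul S T x = 3 ∧ S.rdeg x = 4 ∧ vdeg S x = 0 then 8 else 3 * nul S T x

theorem pr4_le (T : Finset V) (x : V) : pr4 S T x ≤ 3 * nul S T x := by
  unfold pr4
  split_ifs <;> omega

/-- a smallest curve -/
def MinF (S : St D V) (k e e' k' : D) (s : D → Bool) : Prop :=
  ∀ k1 e1 e1' k1' s1, IsF S k1 e1 e1' k1' s1 → TwoF S k1 e1 e1' k1' s1 →
    inq S k1 e1 e1' k1' s1 ⊆ inq S k e e' k' s →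
    (inq S k e e' k' s).card ≤ (inq S k1 e1 e1' k1' s1).card

section

variable {k e e' k' : D} {s : D → Bool}

theorem IsF.w2 (hF : IsF S k e e' k' s) (hr : S.real e = true) (h : Rg S) (hS : IsStar S)
    (W : Wf Δ S L w) (hΔ : Δ ≤ 7) (h2 : TwoF S k e e' k' s)
    (h3 : 3 ≤ (inq S k e e' k' s).card)
    (hfc : ∀ z, S.real z = true → S.M.v z ∈ inq S k e e' k' s → Fc3 S z)
    (hmin : MinF S k e e' k' s) :
    2 ≤ ∑ z ∈ ID S ![k, e, S.M.α e', S.M.α k'] s 2, wtd S z := by
  by_contra hlt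
  push Not at hlt
  have m1 : S.M.φ e ∈ ID S ![k, e, S.M.α e', S.M.α k'] s 2 := hF.j_mem hr h hS W hΔ 1
  have m2 : S.M.α (S.M.φ (S.M.φ (S.M.α e'))) ∈ ID S ![k, e, S.M.α e', S.M.α k'] s 2 :=
    hF.l_mem hr h hS W hΔ 2
  have c1 : (ID S ![k, e, S.M.α e', S.M.α k'] s 2).card ≤
      ∑ z ∈ ID S ![k, e, S.M.α e', S.M.α k'] s 2, wtd S z := by
    rw [Finset.card_eq_sum_ones]
    exact Finset.sum_le_sum fun z _ => one_le_wtd z
  have c2 := Finset.card_le_one.1 (show (ID S ![k, e, S.M.α e', S.M.α k'] s 2).card ≤ 1 by omega)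
  have hlr : S.real (S.M.φ e) = true := by
    by_contra hn
    have c3 : wtd S (S.M.φ e) ≤ ∑ z ∈ ID S ![k, e, S.M.α e', S.M.α k'] s 2, wtd S z :=
      Finset.single_le_sum (f := fun z => wtd S z) (fun _ _ => Nat.zero_le _) m1
    unfold wtd at c3 hlt
    rw [if_neg hn] at c3
    omega
  obtain ⟨k1, e1, e1', k1', s1, b1, b2, b3, b4⟩ := hF.repl hr h hS W hΔ h2 h3 hfc (c2 _ m1 _ m2)
    hlr (fun z hz => c2 _ hz _ m1)
  have := hmin _ _ _ _ _ b1 b2 b3
  omega

theorem IsF.w8 (hF : IsF S k e e' k' s) (hr : S.real e = true) (h : Rg S) (hS : IsStar S)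
    (W : Wf Δ S L w) (hΔ : Δ ≤ 7) (h2 : TwoF S k e e' k' s)
    (h3 : 3 ≤ (inq S k e e' k' s).card)
    (hfc : ∀ z, S.real z = true → S.M.v z ∈ inq S k e e' k' s → Fc3 S z)
    (hmin : MinF S k e e' k' s) :
    8 ≤ ∑ i, ∑ z ∈ ID S ![k, e, S.M.α e', S.M.α k'] s i, wtd S z := by
  have hF1 := hF.rot hr h hS W
  have hr1 : S.real (S.M.α e') = true := by rw [h.real_α, hF.re]; exact hr
  have hF2 := hF1.rot hr1 h hS W
  have hr2 : S.real (S.M.α k') = true := by rw [h.real_α]; exact hF.hk'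
  have hF3 := hF2.rot hr2 h hS W
  have hr3 : S.real (S.M.α (S.M.α k)) = true := by rw [S.M.αα]; exact hF.hk
  have i1 := hF.inq_rot hF1 W
  have i2 := hF1.inq_rot hF2 W
  have i3 := hF2.inq_rot hF3 W
  have t1 := hF.two_rot h2
  have t2 := hF1.two_rot t1
  have t3 := hF2.two_rot t2
  have a0 := hF.w2 hr h hS W hΔ h2 h3 hfc hmin
  have a1 := hF1.w2 hr1 h hS W hΔ t1 (by rw [i1]; exact h3) (by rw [i1]; exact hfc)
    (by unfold MinF; rw [i1]; exact hmin)
  have a2 := hF2.w2 hr2 h hS W hΔ t2 (by rw [i2, i1]; exact h3) (by rw [i2, i1]; exact hfc)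
    (by unfold MinF; rw [i2, i1]; exact hmin)
  have a3 := hF3.w2 hr3 h hS W hΔ t3 (by rw [i3, i2, i1]; exact h3)
    (by rw [i3, i2, i1]; exact hfc) (by unfold MinF; rw [i3, i2, i1]; exact hmin)
  rw [hF.ID_rot] at a1
  rw [hF1.ID_rot, hF.ID_rot] at a2
  rw [hF2.ID_rot, hF1.ID_rot, hF.ID_rot] at a3
  rw [Fin.sum_univ_four]
  have b1 : 2 ≤ ∑ z ∈ ID S ![k, e, S.M.α e', S.M.α k'] s 3, wtd S z := a1
  have b2 : 2 ≤ ∑ z ∈ ID S ![k, e, S.M.α e', S.M.α k'] s 0, wtd S z := a2
  have b3 : 2 ≤ ∑ z ∈ ID S ![k, e, S.M.α e', S.M.α k'] s 1, wtd S z := a3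
  omega

/-- two vertices inside -/
theorem IsF.two_in (hF : IsF S k e e' k' s) (h : Rg S) {x y : V} (hxy : x ≠ y)
    (hU : inq S k e e' k' s = {x, y}) : S.rdeg x ≤ nul S (tef S k e k') x + 1 := by
  classical
  have e1 : (∑ d, if S.M.v d = x ∧ S.real d = true ∧ S.M.v (S.M.α d) = y then 1 else 0) ≤ 1 := by
    by_cases hex : ∃ d, S.M.v d = x ∧ S.real d = true ∧ S.M.v (S.M.α d) = y
    · obtain ⟨d0, a1, a2, a3⟩ := hex
      calc (∑ d, if S.M.v d = x ∧ S.real d = true ∧ S.M.v (S.M.α d) = y then 1 else 0)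
          ≤ ∑ d, if d = d0 then 1 else 0 := by
            refine Finset.sum_le_sum fun d _ => ?_
            by_cases hd : S.M.v d = x ∧ S.real d = true ∧ S.M.v (S.M.α d) = y
            · rw [if_pos hd, if_pos (h.sim d d0 hd.2.1 a2 (hd.1.trans a1.symm)
                (hd.2.2.trans a3.symm))]
            · rw [if_neg hd]; exact Nat.zero_le _
        _ ≤ 1 := by
            rw [Finset.sum_ite_eq' Finset.univ d0, if_pos (Finset.mem_univ _)]
    · push Not at hex
      rw [Finset.sum_eq_zero]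
      · omega
      · intro d _
        rw [if_neg]
        rintro ⟨a1, a2, a3⟩
        exact hex d a1 a2 a3
  refine le_trans ?_ (Nat.add_le_add_left e1 _)
  unfold St.rdeg nul
  rw [← Finset.sum_add_distrib]
  refine Finset.sum_le_sum fun d _ => ?_
  by_cases hd : S.M.v d = x ∧ S.real d = true
  · have h1 : S.M.v d ∈ inq S k e e' k' s := by rw [hU, hd.1]; simp
    rcases hF.nb h hd.2 h1 with h2 | h2
    · rw [hU] at h2
      have h3 : S.M.v (S.M.α d) = y := by
        rcases Finset.mem_insert.1 h2 with h3 | h3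
        · exact absurd (hd.1.trans h3.symm) (h.real_ne d hd.2)
        · exact Finset.mem_singleton.1 h3
      rw [if_pos (c := S.M.v d = x ∧ S.real d = true ∧ S.M.v (S.M.α d) = y) ⟨hd.1, hd.2, h3⟩]
      split_ifs <;> omega
    · rw [if_pos (c := S.M.v d = x ∧ S.real d = true ∧ S.M.v (S.M.α d) ∈ tef S k e k')
        ⟨hd.1, hd.2, h2⟩]
      split_ifs <;> omega
  · rw [if_neg hd]; exact Nat.zero_le _

/-- THE CHARGE, all vertices of the curve alive -/
theorem IsF.cnt_real (hF : IsF S k e e' k' s) (hr : S.real e = true) (h : Rg S) (hS : IsStar S)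
    (W : Wf Δ S L w) (hΔ : Δ ≤ 7) (h2 : TwoF S k e e' k' s)
    (hfc : ∀ z, S.real z = true → S.M.v z ∈ inq S k e e' k' s → Fc3 S z)
    (hmin : MinF S k e e' k' s) :
    4 * ∑ x ∈ inq S k e e' k' s, S.rdeg x + 2 * ∑ x ∈ inq S k e e' k' s, vdeg S x +
      ∑ x ∈ inq S k e e' k' s, pr4 S (tef S k e k') x ≤ 24 * (inq S k e e' k' s).card := by
  classical
  have hcnt := hF.count hr h hS W
  have hc2 := hF.two_card h2
  rcases Nat.lt_or_ge (inq S k e e' k' s).card 3 with h3 | h3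
  · have hc : (inq S k e e' k' s).card = 2 := by omega
    obtain ⟨x, y, hxy, hU⟩ := Finset.card_eq_two.1 hc
    have nx := hF.two_in h hxy hU
    have ny := hF.two_in h hxy.symm (by rw [hU, Finset.pair_comm])
    have hxA : x ∈ S.A := Finset.filter_subset _ _ (show x ∈ inq S k e e' k' s by rw [hU]; simp)
    have hyA : y ∈ S.A := Finset.filter_subset _ _ (show y ∈ inq S k e e' k' s by rw [hU]; simp)
    have dx : 4 ≤ S.rdeg x := h.deg4 hxA (W.ne x)
    have dy : 4 ≤ S.rdeg y := h.deg4 hyA (W.ne y)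
    rw [hU] at hcnt ⊢
    rw [Finset.sum_pair hxy, Finset.sum_pair hxy, Finset.sum_pair hxy,
      Finset.card_pair hxy] at hcnt
    rw [Finset.sum_pair hxy, Finset.sum_pair hxy, Finset.sum_pair hxy, Finset.card_pair hxy]
    unfold pr4
    rw [if_pos ⟨by omega, by omega, by omega⟩, if_pos ⟨by omega, by omega, by omega⟩]
    omega
  · have h8 := hF.w8 hr h hS W hΔ h2 h3 hfc hmin
    have h9 := hF.sumID hr h (wtd S)
    have e1 : (∑ z, if S.M.v z ∈ tef S k e k' ∧ S.real z = true ∧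
        S.M.v (S.M.α z) ∈ inq S k e e' k' s then wtd S z else 0) =
        ∑ x ∈ inq S k e e' k' s, nul S (tef S k e k') x := by
      rw [IsF.eN h]
      refine Finset.sum_congr rfl fun z _ => ?_
      by_cases hz : S.M.v z ∈ tef S k e k' ∧ S.real z = true ∧
        S.M.v (S.M.α z) ∈ inq S k e e' k' s
      · rw [if_pos hz, if_pos hz]
        unfold wtd
        rw [if_pos hz.2.1]
      · rw [if_neg hz, if_neg hz]
    have e2 : (∑ z, if PQ S k e e' k' s z then wtd S z else 0) =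
        2 * ∑ z, if PQ S k e e' k' s z then 1 else 0 := by
      rw [Finset.mul_sum]
      refine Finset.sum_congr rfl fun z _ => ?_
      by_cases hz : PQ S k e e' k' s z
      · rw [if_pos hz, if_pos hz]
        unfold wtd
        rw [if_neg (by rw [hz.1]; decide), mul_one]
      · rw [if_neg hz, if_neg hz, mul_zero]
    rw [e1, e2] at h9
    have e3 : ∑ x ∈ inq S k e e' k' s, pr4 S (tef S k e k') x ≤
        3 * ∑ x ∈ inq S k e e' k' s, nul S (tef S k e k') x := by
      rw [Finset.mul_sum]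
      exact Finset.sum_le_sum fun x _ => pr4_le _ x
    omega

/-- THE CHARGE, the curve passes through a face -/
theorem IsF.cnt_virt (hF : IsF S k e e' k' s) (hr : S.real e = false) (h : Rg S) (hS : IsStar S)
    (W : Wf Δ S L w) (h2 : TwoF S k e e' k' s) :
    4 * ∑ x ∈ inq S k e e' k' s, S.rdeg x + 2 * ∑ x ∈ inq S k e e' k' s, vdeg S x +
      ∑ x ∈ inq S k e e' k' s, pr4 S (tef S k e k') x ≤ 24 * (inq S k e e' k' s).card := by
  have hQ := hF.isQ hr h2
  have hcnt := hQ.count h hS W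
  have hh := hQ.dead h hS W
  have hT : tef S k e k' = teq S k k' := by
    unfold tef teq
    refine Finset.filter_congr fun x hx => ?_
    have : x ≠ S.M.v (S.M.α e) := fun h0 => hh (h0 ▸ hx)
    tauto
  have hne : (inq S k e e' k' s).Nonempty := by
    rw [← Finset.card_pos]
    have := hF.two_card h2
    omega
  have hN := h.nul4 (U := inq S k e e' k' s) (T := teq S k k') (Finset.filter_subset _ _) hne
    ⟨S.M.v k, h.real_A _ hF.hk, fun h0 => (hQ.mem_inq.1 h0).2.1 0 rfl⟩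
    (fun z hz hv => hQ.nb h hS W hz hv)
  have e3 : ∑ x ∈ inq S k e e' k' s, pr4 S (teq S k k') x ≤
      3 * ∑ x ∈ inq S k e e' k' s, nul S (teq S k k') x := by
    rw [Finset.mul_sum]
    exact Finset.sum_le_sum fun x _ => pr4_le _ x
  rw [hT]
  omega

end

end Pool.FC7
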