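import Pool.Agent.FC7.DjF

/-! # Common neighbours and the closed curves of length four

`F4 S U`: a closed curve of length four (its vertices may be alive or faces) through two adjacent
vertices of `U` has one of six forms. -/

open Finset

set_option linter.unusedSectionVars false

namespace Pool.FC7

open Pool.FC6 Pool.FC6.St

variable {D V : Type} [Fintype D] [DecidableEq V] {S : St D V} {L : D → Bool} {w : D → ℕ} {Δ : ℕ}

/-- three forms of a closed curve of length four with the darts `k`, `e` at one and `α k`, `e'` at the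
other vertex -/
def Pq4 (S : St D V) (k e e' : D) : Prop :=
  (e = S.M.σ k ∧ S.M.σ (S.M.σ e') = S.M.α k) ∨
  (e = S.M.σ (S.M.σ k) ∧ S.M.σ e' = S.M.α k) ∨
  (e = S.M.σ (S.M.σ k) ∧ S.M.σ (S.M.σ e') = S.M.α k ∧ S.nd (S.M.α (S.M.σ k)) = 4)

/-- closed curves of length four through two adjacent vertices of `U` have one of the six forms -/
def Fq4 (S : St D V) (U : Finset V) : Prop :=
  ∀ k e e' r, S.real k = true → S.M.v k ∈ U → S.M.v (S.M.α k) ∈ U → S.M.v e = S.M.v k →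
    S.M.v e' = S.M.v (S.M.α k) → S.M.v r = S.M.v (S.M.α e) → S.M.v (S.M.α r) = S.M.v (S.M.α e') →
    S.M.v (S.M.α e) ≠ S.M.v (S.M.α k) → S.M.v (S.M.α e') ≠ S.M.v k →
    Pq4 S k e e' ∨ Pq4 S (S.M.α k) e' e

/-- four darts at a vertex -/
theorem Rg.nd_four (h : Rg S) (hS : IsStar S) (W : Wf Δ S L w) {z : D}
    (hz : S.M.σ (S.M.σ (S.M.σ (S.M.σ z))) = z) : S.nd z = 4 := by
  classical
  apply le_antisymm
  · unfold St.nd
    refine le_trans (Finset.card_le_card (t := {z, S.M.σ z, S.M.σ (S.M.σ z),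
      S.M.σ (S.M.σ (S.M.σ z))}) fun y hy => ?_) Finset.card_le_four
    have hy : S.M.v y = S.M.v z := (Finset.mem_filter.1 hy).2
    obtain ⟨k, hk⟩ := S.M.σ_orbit hy.symm
    rw [← hk]
    clear hk hy
    induction k with
    | zero => simp
    | succ k ih =>
      rw [Function.iterate_succ_apply']
      simp only [Finset.mem_insert, Finset.mem_singleton] at ih ⊢
      rcases ih with h1 | h1 | h1 | h1
      · rw [h1]; exact Or.inr (Or.inl rfl)
      · rw [h1]; exact Or.inr (Or.inr (Or.inl rfl))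
      · rw [h1]; exact Or.inr (Or.inr (Or.inr rfl))
      · rw [h1, hz]; exact Or.inl rfl
  · by_cases hA : S.M.v z ∈ S.A
    · refine (h.deg4 hA (W.ne _)).trans ?_
      unfold St.rdeg St.nd
      rw [Finset.card_filter]
      refine Finset.sum_le_sum fun d _ => ?_
      by_cases hd : S.M.v d = S.M.v z ∧ S.real d = true
      · rw [if_pos hd, if_pos hd.1]
      · rw [if_neg hd]; exact Nat.zero_le _
    · exact h.hub4 hS W hA

theorem nd_congr {z z' : D} (h : S.M.v z = S.M.v z') : S.nd z = S.nd z' := by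
  unfold St.nd
  rw [h]

theorem nul_single (h : Rg S) {U T : Finset V} {x : V} (hU : U = {x})
    (nb : ∀ z, S.real z = true → S.M.v z ∈ U → S.M.v (S.M.α z) ∈ U ∨ S.M.v (S.M.α z) ∈ T) :
    nul S T x = S.rdeg x := by
  unfold nul St.rdeg
  refine Finset.sum_congr rfl fun z _ => ?_
  by_cases h3 : S.M.v z = x ∧ S.real z = true
  · have h4 : S.M.v z ∈ U := by rw [hU, h3.1]; simp
    have h5 : S.M.v (S.M.α z) ∈ T := by
      rcases nb z h3.2 h4 with h5 | h5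
      · rw [hU, Finset.mem_singleton] at h5
        exact absurd (h3.1.trans h5.symm) (h.real_ne z h3.2)
      · exact h5
    rw [if_pos (show S.M.v z = x ∧ S.real z = true ∧ S.M.v (S.M.α z) ∈ T from
      ⟨h3.1, h3.2, h5⟩), if_pos h3]
  · rw [if_neg (fun h0 => h3 ⟨h0.1, h0.2.1⟩), if_neg h3]

section

variable {k e e' k' : D} {s : D → Bool}

theorem IsQ.two_le (hQ : IsQ S k e e' k' s) (h : Rg S) (hS : IsStar S) (W : Wf Δ S L w) :
    2 ≤ (inq S k e e' k' s).card := by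
  have hcnt := hQ.count h hS W
  have hne : 1 ≤ (inq S k e e' k' s).card := by
    obtain ⟨z, k1, k2, k3⟩ := hQ.ne true
    exact Finset.card_pos.2 ⟨_, hQ.mem_inq.2 ⟨k1, k2, k3⟩⟩
  by_contra hlt
  obtain ⟨x, hx⟩ := Finset.card_eq_one.1 (show (inq S k e e' k' s).card = 1 by omega)
  have hxA : x ∈ S.A := Finset.filter_subset _ _ (show x ∈ inq S k e e' k' s by rw [hx]; simp)
  have hd : 4 ≤ S.rdeg x := h.deg4 hxA (W.ne x)
  have hn := nul_single h hx (fun z hz hv => hQ.nb h hS W hz hv)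
  rw [hx] at hcnt
  simp only [Finset.sum_singleton, Finset.card_singleton, hn] at hcnt
  omega

/-- two alive vertices on both sides from the numbers of the vertices -/
theorem IsF.two_of (hF : IsF S k e e' k' s) (W : Wf Δ S L w)
    (hF' : IsF S k' e' e k (fun z => !s z)) (h1 : 2 ≤ (inq S k e e' k' s).card)
    (h2 : 2 ≤ (inq S k' e' e k (fun z => !s z)).card) : TwoF S k e e' k' s := by
  intro b
  cases b
  · obtain ⟨z, z', b1, b2, b3⟩ := exists_two W (Finset.filter_subset _ _) h2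
    obtain ⟨c1, c2, c3⟩ := hF'.mem_inq.1 b1
    obtain ⟨d1, d2, d3⟩ := hF'.mem_inq.1 b2
    have key : ∀ z, S.Off ![k', e', S.M.α e, S.M.α k] z →
        S.Off ![k, e, S.M.α e', S.M.α k'] z := by
      intro z hz
      rw [off4 hF.he' hF.hw.symm, hF.vk, ← hF.hw] at hz
      rw [off4 hF.he hF.hw]
      exact ⟨hz.1, hz.2.2.2, hz.2.2.1, hz.2.1⟩
    exact ⟨z, z', c1, d1, key z c2, key z' d2, by simpa using c3, by simpa using d3, b3⟩
  · obtain ⟨z, z', b1, b2, b3⟩ := exists_two W (Finset.filter_subset _ _) h1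
    obtain ⟨c1, c2, c3⟩ := hF.mem_inq.1 b1
    obtain ⟨d1, d2, d3⟩ := hF.mem_inq.1 b2
    exact ⟨z, z', c1, d1, c2, d2, c3, d3, b3⟩

theorem IsF.star_form (h : ∀ i, S.M.σ (S.M.φ (![k, e, S.M.α e', S.M.α k'] i)) =
      ![k, e, S.M.α e', S.M.α k'] (i + 1)) :
    S.M.σ (S.M.σ k') = k ∧ e = S.M.σ (S.M.σ (S.M.α k)) ∧
      S.M.σ (S.M.σ (S.M.σ (S.M.σ (S.M.α (S.M.σ k'))))) = S.M.α (S.M.σ k') ∧
      S.M.σ (S.M.σ e') = S.M.α k' := by
  have h0 : S.M.σ (S.M.φ k) = e := h 0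
  have h2 : S.M.σ (S.M.φ (S.M.α e')) = S.M.α k' := h 2
  have h3 : S.M.σ (S.M.φ (S.M.α k')) = k := h 3
  refine ⟨h3, ?_, ?_, h2⟩
  · rw [← h0]
    show S.M.σ (S.M.φ k) = S.M.σ (S.M.φ (S.M.α (S.M.α k)))
    rw [S.M.αα]
  · have h4 := star_deg4 h 0
    have h5 : S.M.φ (S.M.φ k) = S.M.α (S.M.σ k') := by
      have h6 : S.M.φ (S.M.α (S.M.σ k')) = k := h3
      rw [← h6, S.M.φ3]
    rw [← h5]
    exact h4

end

/-- a chordless closed curve of length four has two alive vertices on both sides or is the boundary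
of a star -/
theorem Rg.mkF (h : Rg S) (hS : IsStar S) (W : Wf Δ S L w) (hΔ : Δ ≤ 7) {k e e' k' : D}
    (hk : S.real k = true) (hk' : S.real k' = true) (vk : S.M.v k' = S.M.v k)
    (he : S.M.v e = S.M.v (S.M.α k)) (he' : S.M.v e' = S.M.v (S.M.α k'))
    (re : S.real e' = S.real e)
    (hw : S.M.v (S.M.α e) = S.M.v (S.M.α e')) (hne : S.M.v (S.M.α k) ≠ S.M.v (S.M.α k'))
    (hm : S.M.v (S.M.α e) ≠ S.M.v k)
    (hn : ∀ r, S.real r = true → S.M.v r = S.M.v (S.M.α k) →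
      S.M.v (S.M.α r) ≠ S.M.v (S.M.α k'))
    (ht : ∀ t, S.M.v t = S.M.v k → S.M.v (S.M.α t) ≠ S.M.v (S.M.α e)) :
    (∃ s, IsF S k e e' k' s ∧ TwoF S k e e' k' s) ∨
      (S.real e = true ∧ S.M.σ (S.M.σ k') = k ∧ e = S.M.σ (S.M.σ (S.M.α k)) ∧
        S.M.σ (S.M.σ (S.M.σ (S.M.σ (S.M.α (S.M.σ k'))))) = S.M.α (S.M.σ k')) ∨
      (S.real e = true ∧ k' = S.M.σ (S.M.σ k) ∧ S.M.σ (S.M.σ e) = S.M.α k ∧
        S.M.σ (S.M.σ (S.M.σ (S.M.σ (S.M.α (S.M.σ k))))) = S.M.α (S.M.σ k)) := by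
  cases hre : S.real e
  · obtain ⟨s, hQ⟩ := h.mkQ hS W hk hk' vk he he' hre (re.trans hre) hw hne hn
      (fun t _ => ht t)
    have hF : IsF S k e e' k' s :=
      { hk := hk, hk' := hk', vk := vk, he := he, he' := he', re := re, hw := hw, hn := hn,
        ht := ht, hc := hQ.hc, hs := hQ.hs }
    exact Or.inl ⟨s, hF, hF.two_of W (hF.symm h.real_α) (hQ.two_le h hS W)
      ((hQ.symm h.real_α).two_le h hS W)⟩
  · have hyA : S.M.v (S.M.α k) ∈ S.A := h.real_A _ (by rw [h.real_α]; exact hk)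
    have hvA : S.M.v (S.M.α k') ∈ S.A := h.real_A _ (by rw [h.real_α]; exact hk')
    have l1 : S.M.v (S.M.α e) ≠ S.M.v e := hS.loop W (by rw [he]; exact hyA)
    have l2 : S.M.v (S.M.α e') ≠ S.M.v e' := hS.loop W (by rw [he']; exact hvA)
    have hc : S.M.Curve ![k, e, S.M.α e', S.M.α k'] :=
      curve4 vk he he' hw (h.real_ne k hk) hm.symm
        (by have := h.real_ne k' hk'; rwa [vk] at this) (by rw [← he]; exact l1.symm) hne
        (by rw [hw, ← he']; exact l2)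
    obtain ⟨s, hs⟩ := hc.side
    have hF : IsF S k e e' k' s :=
      { hk := hk, hk' := hk', vk := vk, he := he, he' := he', re := re, hw := hw, hn := hn,
        ht := ht, hc := hc, hs := hs }
    have hF' := hF.symm h.real_α
    by_cases c1 : (inq S k e e' k' s).card ≤ 1
    · obtain ⟨d1, d2, d3, d4⟩ := IsF.star_form (hF.star hre h hS W hΔ c1)
      exact Or.inr (Or.inl ⟨rfl, d1, d2, d3⟩)
    by_cases c2 : (inq S k' e' e k (fun z => !s z)).card ≤ 1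
    · obtain ⟨d1, d2, d3, d4⟩ := IsF.star_form (hF'.star (re.trans hre) h hS W hΔ c2)
      exact Or.inr (Or.inr ⟨rfl, d1.symm, d4, d3⟩)
    exact Or.inl ⟨s, hF, hF.two_of W hF' (by omega) (by omega)⟩

/-- the six forms, the vertex `v (α k')` is alive -/
theorem Rg.f4_core (h : Rg S) (hS : IsStar S) (W : Wf Δ S L w) (hΔ : Δ ≤ 7) {U : Finset V}
    (fc : ∀ z, S.real z = true → S.M.v z ∈ U → Fc3 S z)
    (hno : ∀ k e e' k' s, IsF S k e e' k' s → TwoF S k e e' k' s → S.M.v k ∈ U →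
      S.M.v (S.M.α k) ∈ U → False) {k e e' k' : D}
    (hk : S.real k = true) (hk' : S.real k' = true) (u1 : S.M.v k ∈ U) (u2 : S.M.v (S.M.α k) ∈ U)
    (vk : S.M.v k' = S.M.v k)
    (he : S.M.v e = S.M.v (S.M.α k)) (he' : S.M.v e' = S.M.v (S.M.α k'))
    (hw : S.M.v (S.M.α e) = S.M.v (S.M.α e')) (hne : S.M.v (S.M.α k) ≠ S.M.v (S.M.α k'))
    (hm : S.M.v (S.M.α e) ≠ S.M.v k) :
    (k' = S.M.σ k ∧ S.M.σ (S.M.σ e) = S.M.α k) ∨
    (k' = S.M.σ (S.M.σ k) ∧ S.M.σ e = S.M.α k) ∨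
    (S.M.σ k' = k ∧ e = S.M.σ (S.M.σ (S.M.α k))) ∨
    (S.M.σ (S.M.σ k') = k ∧ e = S.M.σ (S.M.α k)) ∨
    (S.real e = true ∧ S.M.σ (S.M.σ k') = k ∧ e = S.M.σ (S.M.σ (S.M.α k)) ∧
      S.M.σ (S.M.σ (S.M.σ (S.M.σ (S.M.α (S.M.σ k'))))) = S.M.α (S.M.σ k')) ∨
    (S.real e = true ∧ k' = S.M.σ (S.M.σ k) ∧ S.M.σ (S.M.σ e) = S.M.α k ∧
      S.M.σ (S.M.σ (S.M.σ (S.M.σ (S.M.α (S.M.σ k))))) = S.M.α (S.M.σ k)) := by
  have hmA : S.M.v k ∈ S.A := h.real_A _ hk
  have hyA : S.M.v (S.M.α k) ∈ S.A := h.real_A _ (by rw [h.real_α]; exact hk)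
  have hvA : S.M.v (S.M.α k') ∈ S.A := h.real_A _ (by rw [h.real_α]; exact hk')
  by_cases c1 : ∃ t, S.M.v t = S.M.v k ∧ S.M.v (S.M.α t) = S.M.v (S.M.α e)
  · obtain ⟨t, t1, t2⟩ := c1
    have hkk : k ≠ k' := fun h0 => hne (by rw [h0])
    rcases fc k hk u1 t e t1 he t2 with ⟨a1, a2⟩ | ⟨a1, a2⟩ <;>
      rcases fc k' hk' (by rw [vk]; exact u1) t e' (by rw [vk]; exact t1) he'
        (t2.trans hw) with ⟨b1, b2⟩ | ⟨b1, b2⟩
    · exact absurd (S.M.σinj (a1.symm.trans b1)) hkk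
    · exact Or.inr (Or.inl ⟨by rw [← b1, a1], a2⟩)
    · exact Or.inr (Or.inr (Or.inr (Or.inl ⟨by rw [← b1, a1], a2⟩)))
    · exact absurd (a1.symm.trans b1) hkk
  push Not at c1
  by_cases c2 : ∃ r, S.real r = true ∧ S.M.v r = S.M.v (S.M.α k) ∧
      S.M.v (S.M.α r) = S.M.v (S.M.α k')
  · obtain ⟨r, r0, r1, r2⟩ := c2
    rcases fc k hk u1 k' r vk r1 r2.symm with ⟨a1, a2⟩ | ⟨a1, a2⟩ <;>
      rcases fc r r0 (by rw [r1]; exact u2) e e' (he.trans r1.symm) (he'.trans r2.symm) hw with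
        ⟨b1, b2⟩ | ⟨b1, b2⟩
    · rw [a2] at b1
      exact absurd (by rw [b1, S.M.αα]) hm
    · exact Or.inl ⟨a1, by rw [b1, a2]⟩
    · exact Or.inr (Or.inr (Or.inl ⟨a1, by rw [b1, a2]⟩))
    · have b3 := S.M.σinj (b1.trans a2)
      exact absurd (by rw [b3, S.M.αα]) hm
  push Not at c2
  have re : S.real e' = S.real e := by
    cases h1 : S.real e
    · cases h2 : S.real e'
      · rfl
      · exact absurd (by rw [hw]; exact h.real_A _ (by rw [h.real_α]; exact h2))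
          (hS.vhead W (by rw [he]; exact hyA) h1)
    · cases h2 : S.real e'
      · exact absurd (by rw [← hw]; exact h.real_A _ (by rw [h.real_α]; exact h1))
          (hS.vhead W (by rw [he']; exact hvA) h2)
      · rfl
  rcases h.mkF hS W hΔ hk hk' vk he he' re hw hne hm c2 c1 with ⟨s, a1, a2⟩ | a1 | a1
  · exact absurd u2 fun h0 => hno _ _ _ _ _ a1 a2 u1 h0
  · exact Or.inr (Or.inr (Or.inr (Or.inr (Or.inl a1))))
  · exact Or.inr (Or.inr (Or.inr (Or.inr (Or.inr a1))))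

/-- the six forms -/
theorem Rg.f4 (h : Rg S) (hS : IsStar S) (W : Wf Δ S L w) (hΔ : Δ ≤ 7) {U : Finset V}
    (fc : ∀ z, S.real z = true → S.M.v z ∈ U → Fc3 S z)
    (hno : ∀ k e e' k' s, IsF S k e e' k' s → TwoF S k e e' k' s → S.M.v k ∈ U →
      S.M.v (S.M.α k) ∈ U → False) : Fq4 S U := by
  intro k a b r hk u1 u2 va vb vr hw n1 n2
  have hmA : S.M.v k ∈ S.A := h.real_A _ hk
  have hyA : S.M.v (S.M.α k) ∈ S.A := h.real_A _ (by rw [h.real_α]; exact hk)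
  unfold Pq4
  rw [S.M.αα]
  cases hra : S.real a
  · have hd : S.M.v (S.M.α a) ∉ S.A := hS.vhead W (by rw [va]; exact hmA) hra
    have hbA : S.M.v (S.M.α b) ∈ S.A := by
      rw [← hw]
      exact hS.alivev W (by rw [vr]; exact hd)
    have hrb : S.real b = true := by
      by_contra hn
      exact hS.vhead W (by rw [vb]; exact hyA) (by simpa using hn) hbA
    have h0 := h.f4_core hS W hΔ fc hno (k := S.M.α k) (k' := b) (e := a) (e' := S.M.α r)
      (by rw [h.real_α]; exact hk) hrb u2 (by rw [S.M.αα]; exact u1) vb (by rw [S.M.αα]; exact va)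
      hw (by rw [S.M.αα]; exact vr.symm) (by rw [S.M.αα]; exact n2.symm) n1
    rw [S.M.αα] at h0
    rcases h0 with ⟨a1, a2⟩ | ⟨a1, a2⟩ | ⟨a1, a2⟩ | ⟨a1, a2⟩ | ⟨a1, -⟩ | ⟨a1, -⟩
    · exact Or.inr (Or.inl ⟨a1, a2⟩)
    · exact Or.inr (Or.inr (Or.inl ⟨a1, a2⟩))
    · exact Or.inl (Or.inr (Or.inl ⟨a2, a1⟩))
    · exact Or.inl (Or.inl ⟨a2, a1⟩)
    · rw [hra] at a1
      exact absurd a1 (by decide)
    · rw [hra] at a1
      exact absurd a1 (by decide)
  · rcases h.f4_core hS W hΔ fc hno (k := k) (k' := a) (e := b) (e' := r) hk hra u1 u2 va vb vr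
      hw.symm n1.symm n2 with a1 | a1 | ⟨a1, a2⟩ | ⟨a1, a2⟩ | ⟨-, a1, a2, a3⟩ | ⟨-, a1, a2, a3⟩
    · exact Or.inl (Or.inl a1)
    · exact Or.inl (Or.inr (Or.inl a1))
    · exact Or.inr (Or.inr (Or.inl ⟨a2, a1⟩))
    · exact Or.inr (Or.inl ⟨a2, a1⟩)
    · refine Or.inr (Or.inr (Or.inr ⟨a2, a1, ?_⟩))
      rw [← h.nd_four hS W a3]
      refine nd_congr ?_
      have e1 : S.M.φ k = S.M.σ (S.M.α k) := by
        show _ = S.M.φ (S.M.α (S.M.α k))
        rw [S.M.αα]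
      have e2 : S.M.φ (S.M.φ k) = S.M.α (S.M.σ a) := by
        have e3 : S.M.φ (S.M.α (S.M.σ a)) = k := a1
        rw [← e3, S.M.φ3]
      rw [← e1, ← e2, S.M.vφ]
    · exact Or.inl (Or.inr (Or.inr ⟨a1, a2, h.nd_four hS W a3⟩))

end Pool.FC7
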