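import Pool.Agent.FC7.DjG

/-! # The region in which closed curves of length four are trivial

`Dsr S U T`: `U` is the inside of a smallest nonfacial closed curve of length three, or of a smallest
nontrivial closed curve of length four in it.  The price of a null neighbour is `p < 3/4`, the price
of the three null neighbours of a vertex of degree four without gaps is `q < 2`. -/

open Finset

set_option linter.unusedSectionVars false

namespace Pool.FC7

open Pool.FC6 Pool.FC6.St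

variable {D V : Type} [Fintype D] [DecidableEq V] {S : St D V} {L : D → Bool} {w : D → ℕ} {Δ : ℕ}

/-- the region used for the discharging -/
structure Dsr (S : St D V) (U T : Finset V) : Prop where
  UA : U ⊆ S.A
  TA : T ⊆ S.A
  dis : ∀ x ∈ U, x ∉ T
  ne : U.Nonempty
  T4 : T.card ≤ 4
  nb : ∀ z, S.real z = true → S.M.v z ∈ U → S.M.v (S.M.α z) ∈ U ∨ S.M.v (S.M.α z) ∈ T
  n2 : ∀ x ∈ S.A, S.N2 x
  fc : ∀ z, S.real z = true → S.M.v z ∈ U → Fc3 S z
  f4 : Fq4 S U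
  cnt : 4 * ∑ x ∈ U, S.rdeg x + 2 * ∑ x ∈ U, vdeg S x + ∑ x ∈ U, pr4 S T x ≤ 24 * U.card
  str : 4 * ∑ x ∈ U, S.rdeg x + 2 * ∑ x ∈ U, vdeg S x + ∑ x ∈ U, pr4 S T x < 24 * U.card ∨
    0 < ∑ x ∈ U, nul S T x

theorem tef_card (k e k' : D) : (tef S k e k').card ≤ 4 := by
  refine le_trans (Finset.card_le_card (t := {S.M.v k, S.M.v (S.M.α k), S.M.v (S.M.α e),
    S.M.v (S.M.α k')}) fun x hx => ?_) Finset.card_le_four
  have := (Finset.mem_filter.1 hx).2
  simp only [Finset.mem_insert, Finset.mem_singleton]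
  exact this

/-- `Dsr` without nontrivial curves of length four -/
theorem Dsc.dsr {U T : Finset V} (hD : Dsc S U T) (h : Rg S) (hS : IsStar S) (W : Wf Δ S L w)
    (hΔ : Δ ≤ 7)
    (hno : ∀ k e e' k' s, IsF S k e e' k' s → TwoF S k e e' k' s → S.M.v k ∈ U →
      S.M.v (S.M.α k) ∈ U → False) : Dsr S U T := by
  have e3 : ∑ x ∈ U, pr4 S T x ≤ 3 * ∑ x ∈ U, nul S T x := by
    rw [Finset.mul_sum]
    exact Finset.sum_le_sum fun x _ => pr4_le _ x
  have hcnt := hD.cnt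
  refine ⟨hD.UA, hD.TA, hD.dis, hD.ne, hD.T3.trans (by norm_num), hD.nb, hD.n2, hD.fc,
    h.f4 hS W hΔ hD.fc hno, by omega, ?_⟩
  by_cases hex : ∃ y ∈ S.A, y ∉ U
  · have h1 := h.nul4 hD.UA hD.ne hex hD.nb
    right
    omega
  · push Not at hex
    rcases hD.str with h1 | ⟨x, hx, r, a1, a2, a3, a4, a5⟩
    · left
      omega
    · exact absurd a4 (hD.dis _ (hex _ (hD.TA a4)))

/-- the region exists if the 3-region is closed -/
theorem Dsc.exists_dsr {U T : Finset V} (hD : Dsc S U T) (hcl : CloF S U) (h : Rg S)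
    (hS : IsStar S) (W : Wf Δ S L w) (hΔ : Δ ≤ 7) : ∃ U T, Dsr S U T := by
  classical
  by_cases hex : ∃ k e e' k' s, IsF S k e e' k' s ∧ TwoF S k e e' k' s ∧ S.M.v k ∈ U ∧
      S.M.v (S.M.α k) ∈ U
  swap
  · exact ⟨U, T, hD.dsr h hS W hΔ fun k e e' k' s a1 a2 a3 a4 =>
      hex ⟨k, e, e', k', s, a1, a2, a3, a4⟩⟩
  let P : ℕ → Prop := fun n => ∃ k e e' k' s, IsF S k e e' k' s ∧ TwoF S k e e' k' s ∧
    inq S k e e' k' s ⊆ U ∧ (inq S k e e' k' s).card = n
  have hP : ∃ n, P n := by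
    obtain ⟨k, e, e', k', s, a1, a2, a3, a4⟩ := hex
    obtain ⟨k1, e1, e1', k1', s1, b1, b2, b3, b4⟩ := hcl _ _ _ _ _ a1 a3 a4
    exact ⟨_, k1, e1, e1', k1', s1, b1, b3 a2, b4, rfl⟩
  obtain ⟨k, e, e', k', s, hF, h2, hsub, hcard⟩ := Nat.find_spec hP
  have hmin : ∀ k1 e1 e1' k1' s1, IsF S k1 e1 e1' k1' s1 → TwoF S k1 e1 e1' k1' s1 →
      inq S k1 e1 e1' k1' s1 ⊆ U →
      (inq S k e e' k' s).card ≤ (inq S k1 e1 e1' k1' s1).card := by
    intro k1 e1 e1' k1' s1 a1 a2 a3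
    have h0 := Nat.find_min' hP ⟨k1, e1, e1', k1', s1, a1, a2, a3, rfl⟩
    have h1 : (inq S k e e' k' s).card = Nat.find hP := hcard
    rw [h1]
    exact h0
  have hMin : MinF S k e e' k' s := fun k1 e1 e1' k1' s1 a1 a2 a3 =>
    hmin _ _ _ _ _ a1 a2 (a3.trans hsub)
  have hfc : ∀ z, S.real z = true → S.M.v z ∈ inq S k e e' k' s → Fc3 S z :=
    fun z hz hv => hD.fc z hz (hsub hv)
  have hmA : S.M.v k ∈ S.A := h.real_A _ hF.hk
  have hne : (inq S k e e' k' s).Nonempty := by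
    rw [← Finset.card_pos]
    have := hF.two_card h2
    omega
  have hN := h.nul4 (U := inq S k e e' k' s) (T := tef S k e k') (Finset.filter_subset _ _) hne
    ⟨S.M.v k, hmA, fun h0 => (hF.mem_inq.1 h0).2.1 0 rfl⟩ (fun z hz hv => hF.nb h hz hv)
  refine ⟨inq S k e e' k' s, tef S k e k', Finset.filter_subset _ _, Finset.filter_subset _ _,
    fun x hx hxt => ?_, hne, tef_card k e k', fun z hz hv => hF.nb h hz hv, hD.n2, hfc, ?_, ?_,
    Or.inr (by omega)⟩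
  · obtain ⟨z, rfl⟩ := W.A_im x (Finset.filter_subset _ _ hx)
    exact (hF.mem_tef.1 hxt).2 (hF.mem_inq.1 hx).2.1
  · refine h.f4 hS W hΔ hfc fun k1 e1 e1' k1' s1 hF1 h21 u1 u2 => ?_
    obtain ⟨k2, e2, e2', k2', s2, b1, b2, b3, b4⟩ :=
      cloF_side hF.hc hF.hs (hF.cf h hS W hΔ) h _ _ _ _ _ hF1 u1 u2
    have b5 := hmin _ _ _ _ _ b1 (b3 h21) (b4.trans hsub)
    have b6 : inq S k2 e2 e2' k2' s2 ⊂ inq S k e e' k' s := by
      refine ⟨b4, fun hs => ?_⟩
      have : S.M.v k2 ∈ inq S k2 e2 e2' k2' s2 := hs (by rw [b2]; exact u1)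
      exact (b1.mem_inq.1 this).2.1 0 rfl
    have b7 := Finset.card_lt_card b6
    omega
  · cases hr : S.real e
    · exact hF.cnt_virt hr h hS W h2
    · exact hF.cnt_real hr h hS W hΔ h2 hfc hMin

/-- the region exists -/
theorem Rg.exists_dsr (h : Rg S) (hS : IsStar S) (W : Wf Δ S L w) (hΔ : Δ ≤ 7) :
    ∃ U T, Dsr S U T := by
  rcases exists_disc h hS W hΔ with hall | ⟨d, e, e', s, hD, hmin⟩
  · exact (h.dsc_all hS W hΔ hall).exists_dsr cloF_all h hS W hΔ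
  · exact (hD.dsc h hS W hΔ hmin).exists_dsr (cloF_side hD.hc hD.hs (hD.cf h hS W hΔ) h)
      h hS W hΔ

/-- THE REGION of a minimal counterexample -/
theorem MC.dsr (hΔ : Δ ≤ 6) (h : MC Δ S L w) (hS : IsStar S) : ∃ U T, Dsr S U T :=
  (h.rg hΔ).exists_dsr hS h.ok.toWf (by omega)

/-- the price of the null neighbours of `x` -/
noncomputable def prr (p q : ℝ) (S : St D V) (T : Finset V) (x : V) : ℝ :=
  if nul S T x = 3 ∧ S.rdeg x = 4 ∧ vdeg S x = 0 then q else p * nul S T x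

theorem prr_le {p q : ℝ} (hp : p ≤ 3 / 4) (hq : q ≤ 2) (T : Finset V) (x : V) :
    prr p q S T x ≤ (pr4 S T x : ℝ) / 4 := by
  unfold prr pr4
  split_ifs
  · push_cast; linarith
  · push_cast
    have : (0 : ℝ) ≤ nul S T x := Nat.cast_nonneg _
    nlinarith

theorem prr_lt {p q : ℝ} (hp : p < 3 / 4) (hq : q < 2) {T : Finset V} {x : V}
    (h : 0 < nul S T x) : prr p q S T x < (pr4 S T x : ℝ) / 4 := by
  unfold prr pr4
  split_ifs
  · push_cast; linarith
  · push_cast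
    have : (0 : ℝ) < nul S T x := by exact_mod_cast h
    nlinarith

open Classical in
/-- the final charge of a vertex of `U`: a gap corner costs 1/2, the neighbours in `T` cost `prr`,
`F d` = what `v d` gets through the dart `d` from a neighbour in `U` -/
noncomputable def cdr (p q : ℝ) (S : St D V) (U T : Finset V) (F : D → ℝ) (x : V) : ℝ :=
  6 - S.rdeg x - (vdeg S x : ℝ) / 2 - prr p q S T x +
    ∑ d, if S.M.v d = x ∧ S.real d = true then (if S.M.v (S.M.α d) ∈ U then F d else 0) else 0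

/-- DISCHARGING: some vertex of `U` keeps a positive charge -/
theorem Dsr.discharge {U T : Finset V} (hD : Dsr S U T)
    (hra : ∀ d, S.real (S.M.α d) = S.real d) {p q : ℝ} (hp : p < 3 / 4) (hq : q < 2) (F : D → ℝ)
    (hF : ∀ d, S.real d = true → S.M.v d ∈ U → S.M.v (S.M.α d) ∈ U → F (S.M.α d) = - F d) :
    ∃ x ∈ U, 0 < cdr p q S U T F x := by
  classical
  by_contra hc
  push Not at hc
  have h1 : ∑ x ∈ U, cdr p q S U T F x = 6 * U.card - (∑ x ∈ U, S.rdeg x : ℕ) -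
      ((∑ x ∈ U, vdeg S x : ℕ) : ℝ) / 2 - ∑ x ∈ U, prr p q S T x := by
    unfold cdr
    rw [Finset.sum_add_distrib, sum_split, sum_flow hra hF, add_zero, Finset.sum_sub_distrib,
      Finset.sum_sub_distrib, Finset.sum_sub_distrib, Finset.sum_const, nsmul_eq_mul, mul_comm,
      ← Finset.sum_div]
    push_cast
    ring
  have h2 : ∑ x ∈ U, cdr p q S U T F x ≤ 0 := Finset.sum_nonpos fun x hx => hc x hx
  have h3 : ((∑ x ∈ U, pr4 S T x : ℕ) : ℝ) / 4 = ∑ x ∈ U, (pr4 S T x : ℝ) / 4 := by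
    rw [← Finset.sum_div]
    push_cast
    ring
  have h4 : (4 : ℝ) * (∑ x ∈ U, S.rdeg x : ℕ) + 2 * (∑ x ∈ U, vdeg S x : ℕ) +
      (∑ x ∈ U, pr4 S T x : ℕ) ≤ 24 * U.card := by exact_mod_cast hD.cnt
  have h5 : ∑ x ∈ U, prr p q S T x ≤ ∑ x ∈ U, (pr4 S T x : ℝ) / 4 :=
    Finset.sum_le_sum fun x _ => prr_le hp.le hq.le T x
  rcases hD.str with h6 | h6
  · have h7 : (4 : ℝ) * (∑ x ∈ U, S.rdeg x : ℕ) + 2 * (∑ x ∈ U, vdeg S x : ℕ) +
        (∑ x ∈ U, pr4 S T x : ℕ) < 24 * U.card := by exact_mod_cast h6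
    linarith
  · obtain ⟨x, hx, hx1⟩ : ∃ x ∈ U, 0 < nul S T x := by
      by_contra hn
      push Not at hn
      have : ∑ x ∈ U, nul S T x = 0 := Finset.sum_eq_zero fun x hx => by
        have := hn x hx
        omega
      omega
    have h8 : ∑ x ∈ U, prr p q S T x < ∑ x ∈ U, (pr4 S T x : ℝ) / 4 :=
      Finset.sum_lt_sum (fun x _ => prr_le hp.le hq.le T x) ⟨x, hx, prr_lt hp hq hx1⟩
    linarith

end Pool.FC7
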