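import Pool.Agent.FC7.DjH

/-! # Euler's formula with the exact cost of the gap corners

A corner of a gap face costs 1/2 if the face has length four, and 4/5 if it is longer (in the
formulas: 5 and 8, for the dart `z` from the corner to the face `v (α z)`). -/

open Finset

set_option linter.unusedSectionVars false

namespace Pool.FC7

open Pool.FC6 Pool.FC6.St

variable {D V : Type} [Fintype D] [DecidableEq V] {S : St D V} {L : D → Bool} {w : D → ℕ} {Δ : ℕ}

/-- ten times the cost of a corner at a face with the dart `z` -/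
noncomputable def gh (S : St D V) (z : D) : ℕ := by
  classical
  exact if S.nd z = 4 then 5 else 8

/-- ten times the costs of the gap corners at `x` -/
noncomputable def gdeg (S : St D V) (x : V) : ℕ :=
  ∑ z, if S.M.v z = x ∧ S.real z = false then gh S (S.M.α z) else 0

theorem gh_congr {z z' : D} (h : S.M.v z = S.M.v z') : gh S z = gh S z' := by
  unfold gh
  rw [nd_congr h]

theorem gh_le (z : D) : gh S z ≤ 8 := by
  unfold gh
  split_ifs <;> omega

theorem le_gh (z : D) : 5 ≤ gh S z := by
  unfold gh
  split_ifs <;> omega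

theorem sum_at' (S : St D V) (T : Finset V) (P : D → Prop) [DecidablePred P] (f : D → ℕ) :
    ∑ x ∈ T, ∑ d, (if S.M.v d = x ∧ P d then f d else 0) =
      ∑ d, if S.M.v d ∈ T ∧ P d then f d else 0 := by
  rw [Finset.sum_comm]
  refine Finset.sum_congr rfl fun d _ => ?_
  by_cases hP : P d
  · simp only [hP, and_true]
    rw [Finset.sum_ite_eq T (S.M.v d)]
  · simp [hP]

/-- the cost of the corners of faces -/
theorem Rg.hub_g (h : Rg S) (hS : IsStar S) (W : Wf Δ S L w) {KF : Finset D}
    (hcl : ∀ z ∈ KF, ∀ z', S.M.v z' = S.M.v z → z' ∈ KF) (hd : ∀ z ∈ KF, S.M.v z ∉ S.A) :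
    60 * (KF.image S.M.v).card + ∑ z ∈ KF, gh S z ≤ 20 * KF.card := by
  classical
  have hm : ∀ z ∈ KF, S.M.v z ∈ KF.image S.M.v := fun z hz => Finset.mem_image_of_mem _ hz
  rw [← Finset.sum_fiberwise_of_maps_to hm (fun z => gh S z),
    Finset.card_eq_sum_card_image S.M.v KF, Finset.mul_sum, mul_comm 60, ← smul_eq_mul,
    ← Finset.sum_const, ← Finset.sum_add_distrib]
  refine Finset.sum_le_sum fun b hb => ?_
  obtain ⟨z0, hz0, rfl⟩ := Finset.mem_image.1 hb
  have e1 : (KF.filter fun z => S.M.v z = S.M.v z0) =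
      Finset.univ.filter fun z => S.M.v z = S.M.v z0 := by
    ext z
    simp only [Finset.mem_filter, Finset.mem_univ, true_and, and_iff_right_iff_imp]
    exact fun h0 => hcl z0 hz0 z h0
  have e2 : ∑ z ∈ KF.filter (fun z => S.M.v z = S.M.v z0), gh S z =
      (KF.filter fun z => S.M.v z = S.M.v z0).card * gh S z0 := by
    rw [← smul_eq_mul, ← Finset.sum_const]
    exact Finset.sum_congr rfl fun z hz => gh_congr (Finset.mem_filter.1 hz).2
  have e3 : (KF.filter fun z => S.M.v z = S.M.v z0).card = S.nd z0 := by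
    rw [e1]
    unfold St.nd
    rfl
  rw [e2, e3]
  have h4 := h.hub4 hS W (hd z0 hz0)
  unfold gh
  split_ifs with h5
  · omega
  · have h6 : 5 ≤ S.nd z0 := by omega
    omega

section

variable {n : ℕ} [NeZero n] {c : Fin n → D} {s : D → Bool}

/-- the vertices inside -/
noncomputable def ing (S : St D V) (c : Fin n → D) (s : D → Bool) : Finset V :=
  S.A.filter fun x => S.sd c s true x = true

theorem mem_ing (hc : S.M.Curve c) (hs : S.M.SideOf c s) {z : D} :
    S.M.v z ∈ ing S c s ↔ S.M.v z ∈ S.A ∧ S.Off c z ∧ s z = true := by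
  unfold ing
  rw [Finset.mem_filter]
  constructor
  · rintro ⟨h1, h2⟩
    have h3 : S.Off c z := by
      by_contra hn
      rw [sd_on hn] at h2
      exact absurd h2 (by decide)
    exact ⟨h1, h3, (sd_off hc hs h3).1 h2⟩
  · rintro ⟨h1, h2, h3⟩
    exact ⟨h1, (sd_off hc hs h2).2 h3⟩

/-- virtual darts at the curve, inside, which lead to inner faces -/
def PG (S : St D V) (c : Fin n → D) (s : D → Bool) (z : D) : Prop :=
  S.real z = false ∧ s z = true ∧ ¬ S.Off c z ∧ S.M.v z ∈ S.A ∧ S.Off c (S.M.α z)

/-- darts from a face on the curve to a vertex inside -/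
def EG (S : St D V) (c : Fin n → D) (s : D → Bool) (z : D) : Prop :=
  ¬ S.Off c z ∧ S.M.v z ∉ S.A ∧ S.M.v (S.M.α z) ∈ ing S c s

open Classical in
/-- Euler's formula inside of a closed curve -/
theorem Rg.countg (h : Rg S) (hS : IsStar S) (W : Wf Δ S L w) (hc : S.M.Curve c)
    (hs : S.M.SideOf c s) {T : Finset V}
    (hT : ∀ z, S.M.v z ∈ T ↔ S.M.v z ∈ S.A ∧ ¬ S.Off c z) {m : ℕ}
    (hE : (∑ z, if s z = true then 1 else 0) ≤ 6 * ((Finset.univ.image S.M.v) \
      ((Finset.univ.filter fun z => s z = false).image S.M.v)).card + m) :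
    10 * ∑ x ∈ ing S c s, S.rdeg x + ∑ x ∈ ing S c s, gdeg S x +
      10 * ∑ x ∈ ing S c s, nul S T x + (∑ z, if PG S c s z then gh S (S.M.α z) else 0) +
      12 * (∑ z, if EG S c s z then 1 else 0) + 10 * n ≤ 60 * (ing S c s).card + 10 * m := by
  have hU := fun z => mem_ing (z := z) hc hs
  have hside : ∀ z, S.Off c z → s (S.M.α z) = s z := fun z hz => off_side hc hs hz
  -- the sums
  have eR : ∑ x ∈ ing S c s, S.rdeg x =
      ∑ z, if S.M.v z ∈ ing S c s ∧ S.real z = true then 1 else 0 := by
    unfold rdeg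
    exact sum_at S _ _
  have eG : ∑ x ∈ ing S c s, gdeg S x =
      ∑ z, if S.M.v z ∈ ing S c s ∧ S.real z = false then gh S (S.M.α z) else 0 := by
    unfold gdeg
    exact sum_at' S _ _ _
  have eN : ∑ x ∈ ing S c s, nul S T x =
      ∑ z, if S.M.v z ∈ T ∧ S.real z = true ∧ S.M.v (S.M.α z) ∈ ing S c s
        then 1 else 0 := by
    unfold nul
    rw [sum_at S _ (fun z => S.real z = true ∧ S.M.v (S.M.α z) ∈ T),
      ← sum_α_nat S.M (fun z => if S.M.v z ∈ T ∧ S.real z = true ∧
        S.M.v (S.M.α z) ∈ ing S c s then 1 else 0)]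
    refine Finset.sum_congr rfl fun z _ => ?_
    rw [S.M.αα, h.real_α]
    exact if_congr (by tauto) rfl rfl
  -- the hubs inside
  obtain ⟨KF, hKF⟩ : ∃ KF : Finset D, KF = Finset.univ.filter fun z => s z = true ∧
    S.Off c z ∧ S.M.v z ∉ S.A := ⟨_, rfl⟩
  have mKF : ∀ z, z ∈ KF ↔ s z = true ∧ S.Off c z ∧ S.M.v z ∉ S.A := by
    intro z
    rw [hKF, Finset.mem_filter]
    simp
  have hH : 60 * (KF.image S.M.v).card + ∑ z ∈ KF, gh S z ≤ 20 * KF.card := by
    refine h.hub_g hS W (fun z hz z' hv => ?_) (fun z hz => ((mKF z).1 hz).2.2)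
    obtain ⟨k1, k2, k3⟩ := (mKF z).1 hz
    have k4 : S.Off c z' := fun i => by rw [hv]; exact k2 i
    exact (mKF z').2 ⟨by rw [hs.vert hc k4 hv, k1], k4, by rw [hv]; exact k3⟩
  have eK : KF.card = ∑ z, if S.M.α z ∈ KF then 1 else 0 := by
    rw [sum_α_nat S.M (fun z => if z ∈ KF then 1 else 0), ← Finset.card_filter]
    congr 1
    ext z
    simp
  have eKg : ∑ z ∈ KF, gh S z = ∑ z, if S.M.α z ∈ KF then gh S (S.M.α z) else 0 := by
    rw [sum_α_nat S.M (fun z => if z ∈ KF then gh S z else 0), ← Finset.sum_filter]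
    congr 1
    ext z
    simp
  have eE : (∑ z, if EG S c s z then 1 else 0) = ∑ z, if EG S c s (S.M.α z) then 1 else 0 :=
    (sum_α_nat S.M (fun z => if EG S c s z then 1 else 0)).symm
  -- the corners
  have hG : (∑ z, if S.M.v z ∈ ing S c s ∧ S.real z = false then gh S (S.M.α z) else 0) +
      (∑ z, if PG S c s z then gh S (S.M.α z) else 0) ≤
      (∑ z ∈ KF, gh S z) + 8 * ∑ z, if EG S c s z then 1 else 0 := by
    rw [eKg, eE, Finset.mul_sum, ← Finset.sum_add_distrib, ← Finset.sum_add_distrib]
    refine Finset.sum_le_sum fun z _ => ?_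
    by_cases a1 : S.M.v z ∈ ing S c s ∧ S.real z = false
    · obtain ⟨b1, b2, b3⟩ := (hU z).1 a1.1
      have b4 : ¬ PG S c s z := fun h0 => h0.2.2.1 b2
      have b5 : S.M.v (S.M.α z) ∉ S.A := hS.vhead W b1 a1.2
      rw [if_pos a1, if_neg b4, add_zero]
      by_cases b6 : S.Off c (S.M.α z)
      · rw [if_pos ((mKF _).2 ⟨by rw [hside _ b2]; exact b3, b6, b5⟩)]
        omega
      · rw [if_pos (c := EG S c s (S.M.α z)) ⟨b6, b5, by rw [S.M.αα]; exact a1.1⟩]
        have := gh_le (S := S) (S.M.α z)
        omega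
    · rw [if_neg a1, zero_add]
      by_cases a2 : PG S c s z
      · obtain ⟨b1, b2, b3, b4, b5⟩ := a2
        have b6 : S.M.v (S.M.α z) ∉ S.A := hS.vhead W b4 b1
        have b7 : s (S.M.α z) = true := by
          have := hside _ b5
          rw [S.M.αα] at this
          rw [← this, b2]
        rw [if_pos (c := PG S c s z) ⟨b1, b2, b3, b4, b5⟩, if_pos ((mKF _).2 ⟨b7, b5, b6⟩)]
        omega
      · rw [if_neg a2]; exact Nat.zero_le _
  have hV : (∑ z, if EG S c s z then 1 else 0) + KF.card ≤
      (∑ z, if S.M.v z ∈ ing S c s ∧ S.real z = false then 1 else 0) +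
      ∑ z, if PG S c s z then 1 else 0 := by
    rw [eK, eE, ← Finset.sum_add_distrib, ← Finset.sum_add_distrib]
    refine Finset.sum_le_sum fun z _ => ?_
    by_cases a1 : EG S c s (S.M.α z)
    · obtain ⟨b1, b2, b3⟩ := a1
      rw [S.M.αα] at b3
      have b4 : S.real z = false := by
        cases h0 : S.real z
        · rfl
        · exact absurd (h.real_A _ (by rw [h.real_α]; exact h0)) b2
      rw [if_pos (c := EG S c s (S.M.α z)) ⟨b1, b2, by rw [S.M.αα]; exact b3⟩,
        if_neg (c := S.M.α z ∈ KF) (fun h0 => b1 ((mKF _).1 h0).2.1), if_pos ⟨b3, b4⟩]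
      omega
    · rw [if_neg a1, zero_add]
      by_cases a2 : S.M.α z ∈ KF
      · obtain ⟨k1, k2, k3⟩ := (mKF _).1 a2
        have k4 : S.M.v z ∈ S.A := by
          have := hS.alivev W k3
          rwa [S.M.αα] at this
        have k5 : S.real z = false := by
          cases h0 : S.real z
          · rfl
          · exact absurd (h.real_A _ (by rw [h.real_α]; exact h0)) k3
        have k6 : s z = true := by
          have := hside _ k2
          rw [S.M.αα] at this
          rw [this, k1]
        rw [if_pos a2]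
        by_cases k7 : S.Off c z
        · rw [if_pos ⟨(hU z).2 ⟨k4, k7, k6⟩, k5⟩]
          omega
        · rw [if_pos (c := PG S c s z) ⟨k5, k6, k7, k4, k2⟩]
          omega
      · rw [if_neg a2]; exact Nat.zero_le _
  -- Euler's formula
  have hE' : (∑ z, if s z = true then 1 else 0) ≤
      6 * (ing S c s).card + 6 * (KF.image S.M.v).card + m := by
    have e5 : ((Finset.univ.image S.M.v) \
        ((Finset.univ.filter fun z => s z = false).image S.M.v)).card ≤
        (ing S c s).card + (KF.image S.M.v).card := by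
      refine le_trans (Finset.card_le_card (t := ing S c s ∪ KF.image S.M.v)
        fun x hx => ?_) (Finset.card_union_le _ _)
      obtain ⟨hx1, hx2⟩ := Finset.mem_sdiff.1 hx
      obtain ⟨z, -, rfl⟩ := Finset.mem_image.1 hx1
      have hf : ∀ z', S.M.v z' = S.M.v z → s z' = true := by
        intro z' hz'
        cases h0 : s z'
        · exact absurd (Finset.mem_image.2 ⟨z', Finset.mem_filter.2 ⟨Finset.mem_univ _, h0⟩, hz'⟩)
            hx2
        · rfl
      have hoz : S.Off c z := by
        intro i hi
        have q1 : S.M.v (S.M.α (c (i - 1))) = S.M.v z := by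
          rw [hc.nx, sub_add_cancel]; exact hi.symm
        have q2 : s (S.M.α (c (i - 1))) = false := hs.f _
        rw [hf _ q1] at q2
        exact absurd q2 (by decide)
      by_cases k2 : S.M.v z ∈ S.A
      · exact Finset.mem_union_left _ ((hU z).2 ⟨k2, hoz, hf z rfl⟩)
      · exact Finset.mem_union_right _ (Finset.mem_image_of_mem _ ((mKF z).2 ⟨hf z rfl, hoz, k2⟩))
    omega
  -- the darts inside
  have hn : (∑ z, if S.M.v z ∈ ing S c s ∧ S.real z = true then 1 else 0) +
      (∑ z, if S.M.v z ∈ ing S c s ∧ S.real z = false then 1 else 0) + KF.card + n +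
      (∑ z, if S.M.v z ∈ T ∧ S.real z = true ∧ S.M.v (S.M.α z) ∈ ing S c s
        then 1 else 0) + (∑ z, if PG S c s z then 1 else 0) +
      (∑ z, if EG S c s z then 1 else 0) ≤ ∑ z, if s z = true then 1 else 0 := by
    have e1 : KF.card = ∑ z, if z ∈ KF then 1 else 0 := by
      rw [← Finset.card_filter]
      congr 1
      ext z
      simp
    have e2 : n = ∑ z, if ∃ i, z = c i then 1 else 0 := by
      rw [← Finset.card_filter]
      have : (Finset.univ.filter fun z => ∃ i, z = c i) = Finset.univ.image c := by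
        ext z
        simp only [Finset.mem_filter, Finset.mem_univ, true_and, Finset.mem_image]
        exact ⟨fun ⟨i, hi⟩ => ⟨i, hi.symm⟩, fun ⟨i, hi⟩ => ⟨i, hi.symm⟩⟩
      rw [this, Finset.card_image_of_injective _ (fun i j hij => hc.inj _ _ (by rw [hij])),
        Finset.card_univ, Fintype.card_fin]
    have key : ∀ z, (if S.M.v z ∈ ing S c s ∧ S.real z = true then 1 else 0) +
        (if S.M.v z ∈ ing S c s ∧ S.real z = false then 1 else 0) +
        (if z ∈ KF then 1 else 0) + (if ∃ i, z = c i then 1 else 0) +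
        (if S.M.v z ∈ T ∧ S.real z = true ∧ S.M.v (S.M.α z) ∈ ing S c s
          then 1 else 0) + (if PG S c s z then 1 else 0) + (if EG S c s z then 1 else 0) ≤
          if s z = true then 1 else 0 := by
      intro z
      by_cases k1 : S.Off c z
      · rw [if_neg (c := ∃ i, z = c i) (fun ⟨i, hi⟩ => k1 i (by rw [hi])),
          if_neg (c := S.M.v z ∈ T ∧ _) (fun h0 => ((hT z).1 h0.1).2 k1),
          if_neg (c := PG S c s z) (fun h0 => h0.2.2.1 k1),
          if_neg (c := EG S c s z) (fun h0 => h0.1 k1)]
        cases hsz : s z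
        · rw [if_neg, if_neg, if_neg]
          · exact Nat.zero_le _
          · intro h0
            have := ((mKF z).1 h0).1
            rw [hsz] at this
            exact absurd this (by decide)
          · rintro ⟨h0, _⟩
            have := ((hU z).1 h0).2.2
            rw [hsz] at this
            exact absurd this (by decide)
          · rintro ⟨h0, _⟩
            have := ((hU z).1 h0).2.2
            rw [hsz] at this
            exact absurd this (by decide)
        · rw [if_pos (rfl : true = true)]
          by_cases k2 : S.M.v z ∈ S.A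
          · rw [if_neg (c := z ∈ KF) (fun h0 => ((mKF z).1 h0).2.2 k2)]
            cases S.real z
            · rw [if_neg (fun h0 => absurd h0.2 (by decide))]
              split_ifs <;> omega
            · rw [if_neg (c := _ ∧ true = false) (fun h0 => absurd h0.2 (by decide))]
              split_ifs <;> omega
          · rw [if_neg (fun h0 => k2 ((hU z).1 h0.1).1), if_neg (fun h0 => k2 ((hU z).1 h0.1).1)]
            split_ifs <;> omega
      · have u1 : ¬ S.M.v z ∈ ing S c s := fun h0 => k1 ((hU z).1 h0).2.1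
        rw [if_neg (fun h0 => u1 h0.1), if_neg (fun h0 => u1 h0.1),
          if_neg (c := z ∈ KF) (fun h0 => k1 ((mKF z).1 h0).2.1)]
        by_cases c1 : ∃ i, z = c i
        · obtain ⟨i, rfl⟩ := c1
          have o1 : ¬ S.Off c (S.M.α (c i)) := fun h0 => h0 (i + 1) (hc.nx i)
          rw [if_pos ⟨i, rfl⟩, if_neg (fun h0 => o1 ((hU _).1 h0.2.2).2.1),
            if_neg (c := PG S c s (c i)) (fun h0 => o1 h0.2.2.2.2),
            if_neg (c := EG S c s (c i)) (fun h0 => o1 ((hU _).1 h0.2.2).2.1), if_pos (hs.t i)]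
        · rw [if_neg c1]
          have hin : S.M.v (S.M.α z) ∈ ing S c s → s z = true := by
            intro h0
            obtain ⟨_, b2, b3⟩ := (hU _).1 h0
            have := hside _ b2
            rw [S.M.αα, b3] at this
            exact this
          by_cases c2 : PG S c s z
          · rw [if_neg (fun h0 => by
              have := c2.1
              rw [h0.2.1] at this
              exact absurd this (by decide)), if_pos c2, if_neg (fun h0 => h0.2.1 c2.2.2.2.1),
              if_pos c2.2.1]
          · rw [if_neg c2]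
            by_cases c3 : EG S c s z
            · rw [if_neg (fun h0 => c3.2.1 ((hT z).1 h0.1).1), if_pos c3, if_pos (hin c3.2.2)]
            · rw [if_neg c3]
              split_ifs with c8 c9 c9
              · omega
              · exact absurd (hin c8.2.2) c9
              · omega
              · omega
    have h0 := Finset.sum_le_sum (s := Finset.univ) (fun z (_ : z ∈ Finset.univ) => key z)
    simp only [Finset.sum_add_distrib] at h0
    rw [← e1, ← e2] at h0
    exact h0
  rw [eR, eG, eN]
  omega

end

end Pool.FC7
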