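import Pool.Agent.FC7.DkA

/-! # The region with the exact cost of the gap corners

A corner of a gap face costs 1/2 if the face has length four, and 4/5 if it is longer; a null
neighbour costs `p < 3/4`, the three null neighbours of a vertex of degree four without gaps cost
`q < 2`. -/

open Finset

set_option linter.unusedSectionVars false

namespace Pool.FC7

open Pool.FC6 Pool.FC6.St

variable {D V : Type} [Fintype D] [DecidableEq V] {S : St D V} {L : D → Bool} {w : D → ℕ} {Δ : ℕ}

/-- Euler's inequality inside of a closed curve of length three -/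
theorem side3_le {M : TMap D V} {c : Fin 3 → D} (hc : M.Curve c) {s : D → Bool}
    (hs : M.SideOf c s) : (∑ z, if s z = true then 1 else 0) ≤
    6 * ((Finset.univ.image M.v) \ ((Finset.univ.filter fun z => s z = false).image M.v)).card +
      3 := by
  classical
  have e1 := hs.euler hc
  have e2 := hs.T_im hc
  have e3 : (Finset.univ.image (hs.P hc).v).card =
      ((Finset.univ.filter fun x => s x = true).image M.v).card := congrArg Finset.card e2
  have e4 : Fintype.card (TMap.DI s) = (∑ z, if s z = true then 1 else 0) + 3 := by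
    rw [Fintype.card_sum, Fintype.card_fin, Fintype.card_subtype, Finset.card_filter]
  have e5 : ((Finset.univ.filter fun x => s x = true).image M.v).card ≤
      ((Finset.univ.image M.v) \ ((Finset.univ.filter fun z => s z = false).image M.v)).card +
        3 := by
    refine le_trans (Finset.card_le_card (t := ((Finset.univ.image M.v) \
      ((Finset.univ.filter fun z => s z = false).image M.v)) ∪
      {M.v (c 0), M.v (c 1), M.v (c 2)}) fun x hx => ?_) ?_
    · obtain ⟨z, hz, rfl⟩ := Finset.mem_image.1 hx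
      have hz' := (Finset.mem_filter.1 hz).2
      by_cases k1 : ∀ i, M.v z ≠ M.v (c i)
      · refine Finset.mem_union_left _ (Finset.mem_sdiff.2
          ⟨Finset.mem_image_of_mem _ (Finset.mem_univ _), fun h0 => ?_⟩)
        obtain ⟨z', h1, h2⟩ := Finset.mem_image.1 h0
        have h3 := (Finset.mem_filter.1 h1).2
        have h4 := hs.vert hc k1 h2.symm
        rw [hz', h3] at h4
        exact absurd h4 (by decide)
      · push Not at k1
        obtain ⟨i, hi⟩ := k1
        refine Finset.mem_union_right _ ?_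
        rw [hi]
        fin_cases i <;> simp
    · refine le_trans (Finset.card_union_le _ _) ?_
      have := Finset.card_le_three (a := M.v (c 0)) (b := M.v (c 1)) (c := M.v (c 2))
      omega
  rw [e3, e4] at e1
  omega

theorem le_gdeg (x : V) : 5 * vdeg S x ≤ gdeg S x := by
  unfold vdeg gdeg
  rw [Finset.mul_sum]
  refine Finset.sum_le_sum fun z _ => ?_
  by_cases h : S.M.v z = x ∧ S.real z = false
  · rw [if_pos h, if_pos h]
    exact le_gh _
  · rw [if_neg h, if_neg h, mul_zero]

/-- Euler's formula on the whole sphere -/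
theorem Rg.countg_all (h : Rg S) (hS : IsStar S) (W : Wf Δ S L w) :
    10 * ∑ x ∈ S.A, S.rdeg x + ∑ x ∈ S.A, gdeg S x + 120 ≤ 60 * S.A.card := by
  classical
  have eR : ∑ x ∈ S.A, S.rdeg x =
      ∑ z, if S.M.v z ∈ S.A ∧ S.real z = true then 1 else 0 := by
    unfold rdeg
    exact sum_at S _ _
  have eG : ∑ x ∈ S.A, gdeg S x =
      ∑ z, if S.M.v z ∈ S.A ∧ S.real z = false then gh S (S.M.α z) else 0 := by
    unfold gdeg
    exact sum_at' S _ _ _
  obtain ⟨KF, hKF⟩ : ∃ KF : Finset D, KF = Finset.univ.filter fun z => S.M.v z ∉ S.A := ⟨_, rfl⟩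
  have mKF : ∀ z, z ∈ KF ↔ S.M.v z ∉ S.A := by
    intro z
    rw [hKF, Finset.mem_filter]
    simp
  have hH : 60 * (KF.image S.M.v).card + ∑ z ∈ KF, gh S z ≤ 20 * KF.card :=
    h.hub_g hS W (fun z hz z' hv => (mKF z').2 (by rw [hv]; exact (mKF z).1 hz))
      (fun z hz => (mKF z).1 hz)
  have e1 : KF.card = ∑ z, if z ∈ KF then 1 else 0 := by
    rw [← Finset.card_filter]
    congr 1
    ext z
    simp
  have hK : KF.card ≤ ∑ z, if S.M.v z ∈ S.A ∧ S.real z = false then 1 else 0 := by
    rw [e1, ← sum_α_nat S.M (fun z => if z ∈ KF then 1 else 0)]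
    refine Finset.sum_le_sum fun z _ => ?_
    by_cases hz : S.M.α z ∈ KF
    · have k3 := (mKF _).1 hz
      have k4 : S.M.v z ∈ S.A := by
        have := hS.alivev W k3
        rwa [S.M.αα] at this
      have k5 : S.real z = false := by
        cases h0 : S.real z
        · rfl
        · exact absurd (h.real_A _ (by rw [h.real_α]; exact h0)) k3
      rw [if_pos hz, if_pos ⟨k4, k5⟩]
    · rw [if_neg hz]; exact Nat.zero_le _
  have hG : (∑ z, if S.M.v z ∈ S.A ∧ S.real z = false then gh S (S.M.α z) else 0) ≤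
      ∑ z ∈ KF, gh S z := by
    have : ∑ z ∈ KF, gh S z = ∑ z, if S.M.α z ∈ KF then gh S (S.M.α z) else 0 := by
      rw [sum_α_nat S.M (fun z => if z ∈ KF then gh S z else 0), ← Finset.sum_filter]
      congr 1
      ext z
      simp
    rw [this]
    refine Finset.sum_le_sum fun z _ => ?_
    by_cases hz : S.M.v z ∈ S.A ∧ S.real z = false
    · rw [if_pos hz, if_pos ((mKF _).2 (hS.vhead W hz.1 hz.2))]
    · rw [if_neg hz]; exact Nat.zero_le _
  have hE := S.M.euler
  have e5 : (Finset.univ.image S.M.v).card ≤ S.A.card + (KF.image S.M.v).card := by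
    refine le_trans (Finset.card_le_card (t := S.A ∪ KF.image S.M.v) fun x hx => ?_)
      (Finset.card_union_le _ _)
    obtain ⟨z, _, rfl⟩ := Finset.mem_image.1 hx
    by_cases k2 : S.M.v z ∈ S.A
    · exact Finset.mem_union_left _ k2
    · exact Finset.mem_union_right _ (Finset.mem_image_of_mem _ ((mKF z).2 k2))
  have e6 : Fintype.card D = (∑ z, if S.M.v z ∈ S.A ∧ S.real z = true then 1 else 0) +
      (∑ z, if S.M.v z ∈ S.A ∧ S.real z = false then 1 else 0) + KF.card := by
    rw [e1, ← Finset.sum_add_distrib, ← Finset.sum_add_distrib, ← Finset.card_univ,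
      Finset.card_eq_sum_ones]
    refine Finset.sum_congr rfl fun z _ => ?_
    by_cases k : S.M.v z ∈ S.A
    · have k' : z ∉ KF := fun h0 => (mKF z).1 h0 k
      cases hr : S.real z <;> simp [k, k']
    · have k' : z ∈ KF := (mKF z).2 k
      simp [k, k']
  rw [eR, eG]
  omega

theorem IsD.countg {d e e' : D} {s : D → Bool} (hD : IsD S d e e' s) (h : Rg S) (hS : IsStar S)
    (W : Wf Δ S L w) :
    10 * ∑ x ∈ ins S d e e' s, S.rdeg x + ∑ x ∈ ins S d e e' s, gdeg S x +
      10 * ∑ x ∈ ins S d e e' s, nul S (tee S d e) x ≤ 60 * (ins S d e e' s).card := by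
  classical
  have h1 := h.countg hS W hD.hc hD.hs (T := tee S d e) (fun z => mem_tee hD.he')
    (side3_le hD.hc hD.hs)
  have h2 : ing S ![d, e', S.M.α e] s = ins S d e e' s := rfl
  rw [h2] at h1
  omega

section

variable {k e e' k' : D} {s : D → Bool}

open Classical in
theorem IsF.countg (hF : IsF S k e e' k' s) (h : Rg S) (hS : IsStar S) (W : Wf Δ S L w) :
    10 * ∑ x ∈ inq S k e e' k' s, S.rdeg x + ∑ x ∈ inq S k e e' k' s, gdeg S x +
      10 * ∑ x ∈ inq S k e e' k' s, nul S (tef S k e k') x +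
      5 * (∑ z, if PQ S k e e' k' s z then 1 else 0) +
      12 * (∑ z, if EG S ![k, e, S.M.α e', S.M.α k'] s z then 1 else 0) ≤
      60 * (inq S k e e' k' s).card + 20 := by
  have h1 := h.countg hS W hF.hc hF.hs (T := tef S k e k') (fun z => hF.mem_tef)
    (side4_le hF.hc hF.hs)
  have h2 : ing S ![k, e, S.M.α e', S.M.α k'] s = inq S k e e' k' s := rfl
  rw [h2] at h1
  have h3 : 5 * (∑ z, if PQ S k e e' k' s z then 1 else 0) ≤
      ∑ z, if PG S ![k, e, S.M.α e', S.M.α k'] s z then gh S (S.M.α z) else 0 := by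
    rw [Finset.mul_sum]
    refine Finset.sum_le_sum fun z _ => ?_
    by_cases hz : PQ S k e e' k' s z
    · rw [if_pos hz, if_pos (c := PG S ![k, e, S.M.α e', S.M.α k'] s z) hz]
      exact le_gh _
    · rw [if_neg hz]; exact Nat.zero_le _
  omega

/-- THE CHARGE, all vertices of the curve alive -/
theorem IsF.cntg_real (hF : IsF S k e e' k' s) (hr : S.real e = true) (h : Rg S) (hS : IsStar S)
    (W : Wf Δ S L w) (hΔ : Δ ≤ 7) (h2 : TwoF S k e e' k' s)
    (hfc : ∀ z, S.real z = true → S.M.v z ∈ inq S k e e' k' s → Fc3 S z)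
    (hmin : MinF S k e e' k' s) :
    20 * ∑ x ∈ inq S k e e' k' s, S.rdeg x + 2 * ∑ x ∈ inq S k e e' k' s, gdeg S x +
      5 * ∑ x ∈ inq S k e e' k' s, pr4 S (tef S k e k') x ≤ 120 * (inq S k e e' k' s).card := by
  classical
  have hcnt := hF.countg h hS W
  have hc2 := hF.two_card h2
  rcases Nat.lt_or_ge (inq S k e e' k' s).card 3 with h3 | h3
  · have hc : (inq S k e e' k' s).card = 2 := by omega
    obtain ⟨x, y, hxy, hU⟩ := Finset.card_eq_two.1 hc
    have nx := hF.two_in h hxy hU
    have ny := hF.two_in h hxy.symm (by rw [hU, Finset.pair_comm])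
    have hxA : x ∈ S.A := Finset.filter_subset _ _ (show x ∈ inq S k e e' k' s by rw [hU]; simp)
    have hyA : y ∈ S.A := Finset.filter_subset _ _ (show y ∈ inq S k e e' k' s by rw [hU]; simp)
    have dx : 4 ≤ S.rdeg x := h.deg4 hxA (W.ne x)
    have dy : 4 ≤ S.rdeg y := h.deg4 hyA (W.ne y)
    have gx := le_gdeg (S := S) x
    have gy := le_gdeg (S := S) y
    rw [hU] at hcnt ⊢
    rw [Finset.sum_pair hxy, Finset.sum_pair hxy, Finset.sum_pair hxy,
      Finset.card_pair hxy] at hcnt
    rw [Finset.sum_pair hxy, Finset.sum_pair hxy, Finset.sum_pair hxy, Finset.card_pair hxy]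
    unfold pr4
    rw [if_pos ⟨by omega, by omega, by omega⟩, if_pos ⟨by omega, by omega, by omega⟩]
    omega
  · have h8 := hF.w8 hr h hS W hΔ h2 h3 hfc hmin
    have h9 := hF.sumID hr h (wtd S)
    have e1 : (∑ z, if S.M.v z ∈ tef S k e k' ∧ S.real z = true ∧
        S.M.v (S.M.α z) ∈ inq S k e e' k' s then wtd S z else 0) =
        ∑ x ∈ inq S k e e' k' s, nul S (tef S k e k') x := by
      rw [IsF.eN h]
      refine Finset.sum_congr rfl fun z _ => ?_
      by_cases hz : S.M.v z ∈ tef S k e k' ∧ S.real z = true ∧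
        S.M.v (S.M.α z) ∈ inq S k e e' k' s
      · rw [if_pos hz, if_pos hz]
        unfold wtd
        rw [if_pos hz.2.1]
      · rw [if_neg hz, if_neg hz]
    have e2 : (∑ z, if PQ S k e e' k' s z then wtd S z else 0) =
        2 * ∑ z, if PQ S k e e' k' s z then 1 else 0 := by
      rw [Finset.mul_sum]
      refine Finset.sum_congr rfl fun z _ => ?_
      by_cases hz : PQ S k e e' k' s z
      · rw [if_pos hz, if_pos hz]
        unfold wtd
        rw [if_neg (by rw [hz.1]; decide), mul_one]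
      · rw [if_neg hz, if_neg hz, mul_zero]
    rw [e1, e2] at h9
    have e3 : ∑ x ∈ inq S k e e' k' s, pr4 S (tef S k e k') x ≤
        3 * ∑ x ∈ inq S k e e' k' s, nul S (tef S k e k') x := by
      rw [Finset.mul_sum]
      exact Finset.sum_le_sum fun x _ => pr4_le _ x
    omega

/-- THE CHARGE, the curve passes through a face -/
theorem IsF.cntg_virt (hF : IsF S k e e' k' s) (hr : S.real e = false) (h : Rg S) (hS : IsStar S)
    (W : Wf Δ S L w) (h2 : TwoF S k e e' k' s) :
    20 * ∑ x ∈ inq S k e e' k' s, S.rdeg x + 2 * ∑ x ∈ inq S k e e' k' s, gdeg S x +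
      5 * ∑ x ∈ inq S k e e' k' s, pr4 S (tef S k e k') x ≤ 120 * (inq S k e e' k' s).card := by
  classical
  have hcnt := hF.countg h hS W
  have hQ := hF.isQ hr h2
  have hh := hQ.dead h hS W
  have hyA : S.M.v (S.M.α k) ∈ S.A := h.real_A _ (by rw [h.real_α]; exact hF.hk)
  have heA : S.M.v e ∈ S.A := by rw [hF.he]; exact hyA
  -- a dart at the face
  have hEG : 1 ≤ ∑ z, if EG S ![k, e, S.M.α e', S.M.α k'] s z then 1 else 0 := by
    obtain ⟨a, ha⟩ : ∃ a, a = S.M.φ e := ⟨_, rfl⟩
    obtain ⟨r1, r2, r3, r4⟩ | ⟨r1, r2, r3, r4⟩ := hS.virt W hr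
    · exact absurd heA r3
    rw [← ha] at r1 r2
    have va : S.M.v a = S.M.v (S.M.α e) := by rw [ha, S.M.vφ]
    have sa : s a = true := by rw [ha, hF.hs.φ]; exact hF.hs.t 1
    have w1 : S.M.v (S.M.α (S.M.φ a)) = S.M.v (S.M.α k) := by
      rw [← S.M.vφ, ha, S.M.φ3, hF.he]
    have w2 : S.M.v (S.M.φ a) = S.M.v (S.M.α a) := S.M.vφ a
    have xA : S.M.v (S.M.α a) ∈ S.A := by rw [← w2]; exact h.real_A _ r1
    have x0 : S.M.v (S.M.α a) ≠ S.M.v k := fun h0 =>
      hF.ht (S.M.α a) h0 (by rw [S.M.αα]; exact va)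
    have x1 : S.M.v (S.M.α a) ≠ S.M.v (S.M.α k) := by
      have := h.real_ne _ r1
      rw [w1, w2] at this
      exact this
    have x2 : S.M.v (S.M.α a) ≠ S.M.v (S.M.α k') := fun h0 =>
      hF.hn (S.M.α (S.M.φ a)) (by rw [h.real_α]; exact r1) w1 (by rw [S.M.αα, w2, h0])
    have x3 : S.M.v (S.M.α a) ≠ S.M.v (S.M.α e) := fun h0 => hh (by rw [← h0]; exact xA)
    have xo : S.Off ![k, e, S.M.α e', S.M.α k'] (S.M.α a) :=
      (off4 hF.he hF.hw).2 ⟨x0, x1, x3, x2⟩
    have sαa : s (S.M.α a) = true := by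
      have := off_side hF.hc hF.hs xo
      rw [S.M.αα] at this
      rw [← this, sa]
    refine le_trans ?_ (Finset.single_le_sum (f := fun z =>
      if EG S ![k, e, S.M.α e', S.M.α k'] s z then 1 else 0)
      (fun _ _ => Nat.zero_le _) (Finset.mem_univ a))
    show 1 ≤ if EG S ![k, e, S.M.α e', S.M.α k'] s a then 1 else 0
    rw [if_pos]
    exact ⟨fun h0 => h0 2 (by rw [va]; exact hF.hw), by rw [va]; exact hh,
      (mem_ing hF.hc hF.hs).2 ⟨xA, xo, sαa⟩⟩
  have hne : (inq S k e e' k' s).Nonempty := by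
    rw [← Finset.card_pos]
    have := hF.two_card h2
    omega
  have hN := h.nul4 (U := inq S k e e' k' s) (T := tef S k e k') (Finset.filter_subset _ _) hne
    ⟨S.M.v k, h.real_A _ hF.hk, fun h0 => (hF.mem_inq.1 h0).2.1 0 rfl⟩
    (fun z hz hv => hF.nb h hz hv)
  have e3 : ∑ x ∈ inq S k e e' k' s, pr4 S (tef S k e k') x ≤
      3 * ∑ x ∈ inq S k e e' k' s, nul S (tef S k e k') x := by
    rw [Finset.mul_sum]
    exact Finset.sum_le_sum fun x _ => pr4_le _ x
  omega

end

end Pool.FC7
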