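import Pool.Agent.FC7.DkC

/-! # The three kinds of regions

`Cut0`, `Cut3`, `Cut4`: everything, the inside of a smallest closed curve of length three, the inside
of a smallest nontrivial closed curve of length four. -/

open Finset

set_option linter.unusedSectionVars false

namespace Pool.FC7

open Pool.FC6 Pool.FC6.St

variable {D V : Type} [Fintype D] [DecidableEq V] {S : St D V} {L : D → Bool} {w : D → ℕ} {Δ : ℕ}

/-- no nontrivial chordless curve of length four through two adjacent vertices of `U` -/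
def Nof (S : St D V) (U : Finset V) : Prop :=
  ∀ k e e' k' s, IsF S k e e' k' s → TwoF S k e e' k' s → S.M.v k ∈ U → S.M.v (S.M.α k) ∈ U → False

/-- everything -/
structure Cut0 (S : St D V) : Prop where
  fc : ∀ z, S.real z = true → Fc3 S z
  nof : Nof S S.A

/-- the inside of a closed curve of length three -/
structure Cut3 (S : St D V) (d e e' : D) (s : D → Bool) : Prop where
  hD : IsD S d e e' s
  fc : ∀ z, S.real z = true → S.M.v z ∈ ins S d e e' s → Fc3 S z
  nof : Nof S (ins S d e e' s)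

/-- the inside of a closed curve of length four -/
structure Cut4 (S : St D V) (k e e' k' : D) (s : D → Bool) : Prop where
  hF : IsF S k e e' k' s
  two : TwoF S k e e' k' s
  min : MinF S k e e' k' s
  fc : ∀ z, S.real z = true → S.M.v z ∈ inq S k e e' k' s → Fc3 S z
  nof : Nof S (inq S k e e' k' s)

/-- the nested choice -/
theorem Rg.cut4_of (h : Rg S) (hS : IsStar S) (W : Wf Δ S L w) (hΔ : Δ ≤ 7) {U : Finset V}
    (fc : ∀ z, S.real z = true → S.M.v z ∈ U → Fc3 S z) (hcl : CloF S U) (hn : ¬ Nof S U) :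
    ∃ k e e' k' s, Cut4 S k e e' k' s := by
  classical
  unfold Nof at hn
  push Not at hn
  let P : ℕ → Prop := fun n => ∃ k e e' k' s, IsF S k e e' k' s ∧ TwoF S k e e' k' s ∧
    inq S k e e' k' s ⊆ U ∧ (inq S k e e' k' s).card = n
  have hP : ∃ n, P n := by
    obtain ⟨k, e, e', k', s, a1, a2, a3, a4, -⟩ := hn
    obtain ⟨k1, e1, e1', k1', s1, b1, b2, b3, b4⟩ := hcl _ _ _ _ _ a1 a3 a4
    exact ⟨_, k1, e1, e1', k1', s1, b1, b3 a2, b4, rfl⟩
  obtain ⟨k, e, e', k', s, hF, h2, hsub, hcard⟩ := Nat.find_spec hP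
  have hmin : ∀ k1 e1 e1' k1' s1, IsF S k1 e1 e1' k1' s1 → TwoF S k1 e1 e1' k1' s1 →
      inq S k1 e1 e1' k1' s1 ⊆ U →
      (inq S k e e' k' s).card ≤ (inq S k1 e1 e1' k1' s1).card := by
    intro k1 e1 e1' k1' s1 a1 a2 a3
    have h0 := Nat.find_min' hP ⟨k1, e1, e1', k1', s1, a1, a2, a3, rfl⟩
    have h1 : (inq S k e e' k' s).card = Nat.find hP := hcard
    rw [h1]
    exact h0
  refine ⟨k, e, e', k', s, hF, h2, fun k1 e1 e1' k1' s1 a1 a2 a3 =>
    hmin _ _ _ _ _ a1 a2 (a3.trans hsub), fun z hz hv => fc z hz (hsub hv), ?_⟩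
  intro k1 e1 e1' k1' s1 hF1 h21 u1 u2
  obtain ⟨k2, e2, e2', k2', s2, b1, b2, b3, b4⟩ :=
    cloF_side hF.hc hF.hs (hF.cf h hS W hΔ) h _ _ _ _ _ hF1 u1 u2
  have b5 := hmin _ _ _ _ _ b1 (b3 h21) (b4.trans hsub)
  have b6 : inq S k2 e2 e2' k2' s2 ⊂ inq S k e e' k' s := by
    refine ⟨b4, fun hs => ?_⟩
    have : S.M.v k2 ∈ inq S k2 e2 e2' k2' s2 := hs (by rw [b2]; exact u1)
    exact (b1.mem_inq.1 this).2.1 0 rfl
  have b7 := Finset.card_lt_card b6
  omega

/-- one of the three kinds of regions exists -/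
theorem Rg.cuts (h : Rg S) (hS : IsStar S) (W : Wf Δ S L w) (hΔ : Δ ≤ 7) :
    Cut0 S ∨ (∃ d e e' s, Cut3 S d e e' s) ∨ ∃ k e e' k' s, Cut4 S k e e' k' s := by
  rcases exists_disc h hS W hΔ with hall | ⟨d, e, e', s, hD, hmin⟩
  · by_cases hn : Nof S S.A
    · exact Or.inl ⟨hall, hn⟩
    · exact Or.inr (Or.inr (h.cut4_of hS W hΔ (fun z hz _ => hall z hz) cloF_all hn))
  · by_cases hn : Nof S (ins S d e e' s)
    · exact Or.inr (Or.inl ⟨d, e, e', s, hD, hmin, hn⟩)
    · exact Or.inr (Or.inr (h.cut4_of hS W hΔ hmin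
        (cloF_side hD.hc hD.hs (hD.cf h hS W hΔ) h) hn))

theorem Cut0.dsg (hC : Cut0 S) (h : Rg S) (hS : IsStar S) (W : Wf Δ S L w) (hΔ : Δ ≤ 7) :
    Dsg S S.A ∅ := by
  have h1 := h.countg_all hS W
  have hd := h.dsc_all hS W hΔ hC.fc
  have e3 : ∑ x ∈ S.A, pr4 S ∅ x ≤ 3 * ∑ x ∈ S.A, nul S ∅ x := by
    rw [Finset.mul_sum]
    exact Finset.sum_le_sum fun x _ => pr4_le _ x
  simp only [nul_empty, Finset.sum_const_zero, mul_zero] at e3
  exact ⟨hd.UA, hd.TA, hd.dis, hd.ne, hd.T3.trans (by norm_num), hd.nb, hd.n2, hd.fc,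
    h.f4 hS W hΔ hd.fc hC.nof, by omega, Or.inl (by omega)⟩

theorem Cut3.dsg {d e e' : D} {s : D → Bool} (hC : Cut3 S d e e' s) (h : Rg S) (hS : IsStar S)
    (W : Wf Δ S L w) (hΔ : Δ ≤ 7) : Dsg S (ins S d e e' s) (tee S d e) := by
  have h1 := hC.hD.countg h hS W
  have hd := hC.hD.dsc h hS W hΔ hC.fc
  have e3 : ∑ x ∈ ins S d e e' s, pr4 S (tee S d e) x ≤
      3 * ∑ x ∈ ins S d e e' s, nul S (tee S d e) x := by
    rw [Finset.mul_sum]
    exact Finset.sum_le_sum fun x _ => pr4_le _ x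
  have h2 := h.nul4 hd.UA hd.ne ⟨S.M.v d, h.real_A _ hC.hD.hd, fun h0 =>
    (hC.hD.mem_ins.1 h0).2.1 0 rfl⟩ hd.nb
  exact ⟨hd.UA, hd.TA, hd.dis, hd.ne, hd.T3.trans (by norm_num), hd.nb, hd.n2, hd.fc,
    h.f4 hS W hΔ hd.fc hC.nof, by omega, Or.inr (by omega)⟩

theorem Cut4.dsg {k e e' k' : D} {s : D → Bool} (hC : Cut4 S k e e' k' s) (h : Rg S)
    (hS : IsStar S) (W : Wf Δ S L w) (hΔ : Δ ≤ 7) : Dsg S (inq S k e e' k' s) (tef S k e k') := by
  have hF := hC.hF
  have hmA : S.M.v k ∈ S.A := h.real_A _ hF.hk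
  have hne : (inq S k e e' k' s).Nonempty := by
    rw [← Finset.card_pos]
    have := hF.two_card hC.two
    omega
  have hN := h.nul4 (U := inq S k e e' k' s) (T := tef S k e k') (Finset.filter_subset _ _) hne
    ⟨S.M.v k, hmA, fun h0 => (hF.mem_inq.1 h0).2.1 0 rfl⟩ (fun z hz hv => hF.nb h hz hv)
  refine ⟨Finset.filter_subset _ _, Finset.filter_subset _ _,
    fun x hx hxt => ?_, hne, tef_card k e k', fun z hz hv => hF.nb h hz hv, h.n2 hS W hΔ, hC.fc,
    h.f4 hS W hΔ hC.fc hC.nof, ?_, Or.inr (by omega)⟩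
  · obtain ⟨z, rfl⟩ := W.A_im x (Finset.filter_subset _ _ hx)
    exact (hF.mem_tef.1 hxt).2 (hF.mem_inq.1 hx).2.1
  · cases hr : S.real e
    · exact hF.cntg_virt hr h hS W hC.two
    · exact hF.cntg_real hr h hS W hΔ hC.two hC.fc hC.min

/-- the darts inside at a vertex of the curve with one inner dart -/
theorem curve_single {n : ℕ} [NeZero n] {c : Fin n → D} (hc : S.M.Curve c) {s : D → Bool}
    (hs : S.M.SideOf c s) {i : Fin n} (h1 : S.M.σ (S.M.φ (c i)) = c (i + 1)) {z : D}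
    (hv : S.M.v z = S.M.v (c (i + 1))) (hz : s z = true) : z = c (i + 1) ∨ z = S.M.φ (c i) := by
  obtain ⟨m, hm⟩ := S.M.σ_orbit hv
  induction m generalizing z with
  | zero => exact Or.inl hm
  | succ m ih =>
    by_cases h2 : z = c (i + 1)
    · exact Or.inl h2
    · right
      have h3 : s (S.M.σ z) = true := by
        show s (S.M.φ (S.M.α z)) = true
        rw [hs.φ, hs.o z (fun j hj => h2 ?_) (fun j hj => ?_), hz]
        · rw [hj] at hv
          rw [hj, hc.inj _ _ hv]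
        · rw [hj, hs.f] at hz
          exact absurd hz (by decide)
      rcases ih (z := S.M.σ z) (by rw [S.M.vσ]; exact hv) h3
        (by rw [← Function.iterate_succ_apply]; exact hm) with h4 | h4
      · rw [← h1] at h4
        exact S.M.σinj h4
      · have h5 : S.M.σ z = S.M.σ (S.M.α (c i)) := by
          rw [h4]
          show _ = S.M.φ (S.M.α (S.M.α (c i)))
          rw [S.M.αα]
        rw [S.M.σinj h5, hs.f] at hz
        exact absurd hz (by decide)

end Pool.FC7
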