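import Pool.Agent.FC7.DlA

/-! # A vertex of the curve with two neighbours inside has at least five darts -/

open Finset

set_option linter.unusedSectionVars false

namespace Pool.FC7

open Pool.FC6 Pool.FC6.St

variable {D V : Type} [Fintype D] [DecidableEq V] {S : St D V} {L : D → Bool} {w : D → ℕ} {Δ : ℕ}

theorem curve_five {n : ℕ} [NeZero n] {c : Fin n → D} (hc : S.M.Curve c) {s : D → Bool}
    (hs : S.M.SideOf c s) {i : Fin n} {z z' o : D} (vz : S.M.v z = S.M.v (c (i + 1)))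
    (vz' : S.M.v z' = S.M.v (c (i + 1))) (hne : z ≠ z') (sz : s z = true) (sz' : s z' = true)
    (oz : S.Off c (S.M.α z)) (oz' : S.Off c (S.M.α z')) (vo : S.M.v o = S.M.v (c (i + 1)))
    (so : s o = false) (oo : S.Off c (S.M.α o)) : 5 ≤ S.nd z := by
  classical
  have n1 : ¬ S.Off c (S.M.α (c (i + 1))) := fun h0 => h0 (i + 1 + 1) (hc.nx _)
  have n2 : ¬ S.Off c (S.M.α (S.M.α (c i))) := fun h0 => h0 i (by rw [S.M.αα])
  have t1 : s (c (i + 1)) = true := hs.t _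
  have t2 : s (S.M.α (c i)) = false := hs.f _
  have k1 : c (i + 1) ∉ ({S.M.α (c i), z, z', o} : Finset D) := by
    simp only [Finset.mem_insert, Finset.mem_singleton]
    rintro (h0 | h0 | h0 | h0)
    · rw [h0, t2] at t1; exact absurd t1 (by decide)
    · exact n1 (by rw [h0]; exact oz)
    · exact n1 (by rw [h0]; exact oz')
    · rw [h0, so] at t1; exact absurd t1 (by decide)
  have k2 : S.M.α (c i) ∉ ({z, z', o} : Finset D) := by
    simp only [Finset.mem_insert, Finset.mem_singleton]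
    rintro (h0 | h0 | h0)
    · exact n2 (by rw [h0]; exact oz)
    · exact n2 (by rw [h0]; exact oz')
    · exact n2 (by rw [h0]; exact oo)
  have k3 : z ∉ ({z', o} : Finset D) := by
    simp only [Finset.mem_insert, Finset.mem_singleton]
    rintro (h0 | h0)
    · exact hne h0
    · rw [h0, so] at sz; exact absurd sz (by decide)
  have k4 : z' ∉ ({o} : Finset D) := by
    simp only [Finset.mem_singleton]
    intro h0
    rw [h0, so] at sz'; exact absurd sz' (by decide)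
  have k5 : ({c (i + 1), S.M.α (c i), z, z', o} : Finset D).card = 5 := by
    rw [Finset.card_insert_of_notMem k1, Finset.card_insert_of_notMem k2,
      Finset.card_insert_of_notMem k3, Finset.card_insert_of_notMem k4, Finset.card_singleton]
  rw [← k5]
  unfold St.nd
  refine Finset.card_le_card fun y hy => Finset.mem_filter.2 ⟨Finset.mem_univ _, ?_⟩
  simp only [Finset.mem_insert, Finset.mem_singleton] at hy
  rw [vz]
  rcases hy with rfl | rfl | rfl | rfl | rfl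
  · rfl
  · exact hc.nx i
  · exact vz
  · exact vz'
  · exact vo

/-- a vertex of `T` with two neighbours in `U` has at least five darts -/
def N5 (S : St D V) (U T : Finset V) : Prop :=
  ∀ z z', S.M.v z ∈ T → S.M.v z' = S.M.v z → z ≠ z' → S.M.v (S.M.α z) ∈ U →
    S.M.v (S.M.α z') ∈ U → 5 ≤ S.nd z

theorem n5_of {n : ℕ} [NeZero n] {c : Fin n → D} (hc : S.M.Curve c) {s : D → Bool}
    (hs : S.M.SideOf c s) {U T : Finset V}
    (hU : ∀ z, S.M.v z ∈ U → S.Off c z ∧ s z = true)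
    (hT : ∀ z, S.M.v z ∈ T → ¬ S.Off c z)
    (ho : ∀ i, S.M.v (c (i + 1)) ∈ T → ∃ o, S.M.v o = S.M.v (c (i + 1)) ∧ s o = false ∧
      S.Off c (S.M.α o)) : N5 S U T := by
  intro z z' h1 h2 h3 h4 h5
  have h6 := hT z h1
  unfold Off at h6
  push Not at h6
  obtain ⟨j, hj⟩ := h6
  obtain ⟨i, rfl⟩ : ∃ i, j = i + 1 := ⟨j - 1, by rw [sub_add_cancel]⟩
  obtain ⟨o, o1, o2, o3⟩ := ho i (by rw [← hj]; exact h1)
  obtain ⟨a1, a2⟩ := hU _ h4
  obtain ⟨b1, b2⟩ := hU _ h5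
  have s1 := off_side hc hs a1
  have s2 := off_side hc hs b1
  rw [S.M.αα, a2] at s1
  rw [S.M.αα, b2] at s2
  exact curve_five hc hs hj (h2.trans hj) h3 s1 s2 a1 b1 o1 o2 o3

section

variable {k e e' k' : D} {s : D → Bool}

theorem IsF.off_symm (hF : IsF S k e e' k' s) {z : D} :
    S.Off ![k', e', S.M.α e, S.M.α k] z ↔ S.Off ![k, e, S.M.α e', S.M.α k'] z := by
  rw [off4 hF.he hF.hw, off4 hF.he' hF.hw.symm, hF.vk, ← hF.hw]
  tauto

/-- the outer dart at a vertex of the curve -/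
theorem IsF.outer (hF : IsF S k e e' k' s) (h : Rg S) (hS : IsStar S) (W : Wf Δ S L w)
    (hΔ : Δ ≤ 7) (i : Fin 4) (hi : S.M.v (![k, e, S.M.α e', S.M.α k'] (i + 1)) ∈ S.A) :
    ∃ o, S.M.v o = S.M.v (![k, e, S.M.α e', S.M.α k'] (i + 1)) ∧ s o = false ∧
      S.Off ![k, e, S.M.α e', S.M.α k'] (S.M.α o) := by
  cases hr : S.real e
  · have hmA : S.M.v k ∈ S.A := h.real_A _ hF.hk
    have hyA : S.M.v (S.M.α k) ∈ S.A := h.real_A _ (by rw [h.real_α]; exact hF.hk)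
    have hvA : S.M.v (S.M.α k') ∈ S.A := h.real_A _ (by rw [h.real_α]; exact hF.hk')
    have heA : S.M.v e ∈ S.A := by rw [hF.he]; exact hyA
    have hh : S.M.v (S.M.α e) ∉ S.A := hS.vhead W heA hr
    have sk : s k = true := hF.hs.t 0
    have sk' : s (S.M.α k') = true := hF.hs.t 3
    have fk : s (S.M.α k) = false := hF.hs.f 0
    have fk' : s (S.M.α (S.M.α k')) = false := hF.hs.f 3
    rw [S.M.αα] at fk'
    have hN := h.n2 hS W hΔ
    have real_of : ∀ z, S.M.v z ∈ S.A → S.M.v (S.M.α z) ∈ S.A → S.real z = true := by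
      intro z h1 h2
      by_contra hn
      exact hS.vhead W h1 (by simpa using hn) h2
    -- the outer face at `k`
    have v1 : S.M.v (S.M.φ (S.M.φ (S.M.α k))) = S.M.v (S.M.α (S.M.σ k)) := S.M.vφ _
    have v2 : S.M.v (S.M.α (S.M.φ (S.M.φ (S.M.α k)))) = S.M.v (S.M.α k) := by
      rw [← S.M.vφ, S.M.φ3]
    have sσ : s (S.M.σ k) = false := by
      show s (S.M.φ (S.M.α k)) = false
      rw [hF.hs.φ, fk]
    have x0 : S.M.v (S.M.α (S.M.σ k)) ≠ S.M.v k := by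
      have := hS.loop W (r := S.M.σ k) (by rw [S.M.vσ]; exact hmA)
      rwa [S.M.vσ] at this
    have x1 : S.M.v (S.M.α (S.M.σ k)) ≠ S.M.v (S.M.α k) := fun h0 => by
      have h1 : S.M.σ k = k := hN _ hmA _ _ (S.M.vσ k) rfl h0
      rw [h1, sk] at sσ
      exact absurd sσ (by decide)
    have x2 : S.M.v (S.M.α (S.M.σ k)) ≠ S.M.v (S.M.α e) := hF.ht _ (S.M.vσ k)
    have x3 : S.M.v (S.M.α (S.M.σ k)) ≠ S.M.v (S.M.α k') := fun h0 => by
      have h1 : S.M.v (S.M.φ (S.M.φ (S.M.α k))) ∈ S.A := by rw [v1, h0]; exact hvA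
      refine hF.hn (S.M.α (S.M.φ (S.M.φ (S.M.α k)))) ?_ v2 (by rw [S.M.αα, v1, h0])
      rw [h.real_α]
      exact real_of _ h1 (by rw [v2]; exact hyA)
    have xo : S.Off ![k, e, S.M.α e', S.M.α k'] (S.M.α (S.M.σ k)) :=
      (off4 hF.he hF.hw).2 ⟨x0, x1, x2, x3⟩
    have xo' : S.Off ![k, e, S.M.α e', S.M.α k'] (S.M.φ (S.M.φ (S.M.α k))) := fun i => by
      rw [v1]; exact xo i
    -- the outer face at `k'`
    have u1 : S.M.v (S.M.φ (S.M.φ k')) = S.M.v (S.M.α (S.M.φ k')) := S.M.vφ _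
    have u2 : S.M.v (S.M.α (S.M.φ (S.M.φ k'))) = S.M.v k' := by rw [← S.M.vφ, S.M.φ3]
    have u3 : S.M.v (S.M.φ k') = S.M.v (S.M.α k') := S.M.vφ _
    have sφ : s (S.M.φ k') = false := by rw [hF.hs.φ, fk']
    have y3 : S.M.v (S.M.α (S.M.φ k')) ≠ S.M.v (S.M.α k') := by
      have := hS.loop W (r := S.M.φ k') (by rw [u3]; exact hvA)
      rwa [u3] at this
    have y0 : S.M.v (S.M.α (S.M.φ k')) ≠ S.M.v k := fun h0 => by
      have h1 : S.M.φ k' = S.M.α k' := hN _ hvA _ _ u3 rfl (by rw [S.M.αα, h0, hF.vk])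
      rw [h1, sk'] at sφ
      exact absurd sφ (by decide)
    have y2 : S.M.v (S.M.α (S.M.φ k')) ≠ S.M.v (S.M.α e) := fun h0 =>
      hF.ht (S.M.α (S.M.φ (S.M.φ k'))) (u2.trans hF.vk) (by rw [S.M.αα, u1, h0])
    have y1 : S.M.v (S.M.α (S.M.φ k')) ≠ S.M.v (S.M.α k) := fun h0 => by
      refine hF.hn (S.M.α (S.M.φ k')) ?_ h0 (by rw [S.M.αα, u3])
      rw [h.real_α]
      exact real_of _ (by rw [u3]; exact hvA) (by rw [h0]; exact hyA)
    have yo : S.Off ![k, e, S.M.α e', S.M.α k'] (S.M.α (S.M.φ k')) :=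
      (off4 hF.he hF.hw).2 ⟨y0, y1, y2, y3⟩
    fin_cases i
    · refine ⟨S.M.α (S.M.φ (S.M.φ (S.M.α k))), ?_, ?_, by rw [S.M.αα]; exact xo'⟩
      · show _ = S.M.v e
        rw [v2, hF.he]
      · rw [off_side hF.hc hF.hs xo', hF.hs.φ, hF.hs.φ, fk]
    · exfalso
      apply hh
      have : S.M.v (S.M.α e') ∈ S.A := hi
      rw [hF.hw]; exact this
    · exact ⟨S.M.φ k', u3, sφ, yo⟩
    · exact ⟨S.M.σ k, S.M.vσ k, sσ, xo⟩
  · have hF' := hF.symm h.real_α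
    have hr' : S.real e' = true := hF.re.trans hr
    have key : ∀ j x, S.M.v (![k', e', S.M.α e, S.M.α k] (j + 1)) = x →
        ∃ o, S.M.v o = x ∧ s o = false ∧ S.Off ![k, e, S.M.α e', S.M.α k'] (S.M.α o) := by
      rintro j x rfl
      obtain ⟨a1, a2, a3⟩ := mem_ID.1 (hF'.j_mem hr' h hS W hΔ j)
      exact ⟨_, a1, by simpa using a2, hF.off_symm.1 a3⟩
    fin_cases i
    · exact key 2 _ (by
        show S.M.v (S.M.α k) = S.M.v e
        rw [hF.he])
    · exact key 1 _ (by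
        show S.M.v (S.M.α e) = S.M.v (S.M.α e')
        rw [hF.hw])
    · exact key 0 _ (by
        show S.M.v e' = S.M.v (S.M.α k')
        rw [hF.he'])
    · exact key 3 _ (by
        show S.M.v k' = S.M.v k
        rw [hF.vk])

end

theorem Cut4.n5 {k e e' k' : D} {s : D → Bool} (hC : Cut4 S k e e' k' s) (h : Rg S)
    (hS : IsStar S) (W : Wf Δ S L w) (hΔ : Δ ≤ 7) :
    N5 S (inq S k e e' k' s) (tef S k e k') :=
  n5_of hC.hF.hc hC.hF.hs (fun z hz => (hC.hF.mem_inq.1 hz).2) (fun z hz => (hC.hF.mem_tef.1 hz).2)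
    (fun i hi => hC.hF.outer h hS W hΔ i (hC.hF.mem_tef.1 hi).1)

theorem Cut3.n5 {d e e' : D} {s : D → Bool} (hC : Cut3 S d e e' s) (h : Rg S)
    (hS : IsStar S) (W : Wf Δ S L w) (hΔ : Δ ≤ 7) :
    N5 S (ins S d e e' s) (tee S d e) := by
  have hD := hC.hD
  have hN := h.n2 hS W hΔ
  have hxA : S.M.v d ∈ S.A := h.real_A _ hD.hd
  have hyA : S.M.v (S.M.α d) ∈ S.A := h.real_A _ (by rw [h.real_α]; exact hD.hd)
  refine n5_of hD.hc hD.hs (fun z hz => (hD.mem_ins.1 hz).2)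
    (fun z hz => ((mem_tee hD.he').1 hz).2) (fun i hi => ?_)
  have hiA := ((mem_tee hD.he').1 hi).1
  have sd : s d = true := hD.hs.t 0
  have se' : s e' = true := hD.hs.t 1
  have fd : s (S.M.α d) = false := hD.hs.f 0
  have fe' : s (S.M.α e') = false := hD.hs.f 1
  -- the outer face at `d`
  have v1 : S.M.v (S.M.φ (S.M.φ (S.M.α d))) = S.M.v (S.M.α (S.M.σ d)) := S.M.vφ _
  have v2 : S.M.v (S.M.α (S.M.φ (S.M.φ (S.M.α d)))) = S.M.v (S.M.α d) := by
    rw [← S.M.vφ, S.M.φ3]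
  have sσ : s (S.M.σ d) = false := by
    show s (S.M.φ (S.M.α d)) = false
    rw [hD.hs.φ, fd]
  have x0 : S.M.v (S.M.α (S.M.σ d)) ≠ S.M.v d := by
    have := hS.loop W (r := S.M.σ d) (by rw [S.M.vσ]; exact hxA)
    rwa [S.M.vσ] at this
  have x1 : S.M.v (S.M.α (S.M.σ d)) ≠ S.M.v (S.M.α d) := fun h0 => by
    have h1 : S.M.σ d = d := hN _ hxA _ _ (S.M.vσ d) rfl h0
    rw [h1, sd] at sσ
    exact absurd sσ (by decide)
  have x2 : S.M.v (S.M.α (S.M.σ d)) ≠ S.M.v (S.M.α e) := fun h0 => by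
    have h1 : S.M.σ d = e := hN _ hxA _ _ (S.M.vσ d) hD.he h0
    have h2 : S.M.α (S.M.φ (S.M.φ (S.M.α d))) = e' :=
      hN _ hyA _ _ v2 hD.he' (by rw [S.M.αα, v1, h0, hD.hw])
    refine hD.nf (Or.inl ⟨h1.symm, ?_⟩)
    rw [← h2]
    show S.M.φ (S.M.α (S.M.α _)) = _
    rw [S.M.αα, S.M.φ3]
  have xo : S.Off ![d, e', S.M.α e] (S.M.α (S.M.σ d)) := (off3 hD.he').2 ⟨x0, x1, x2⟩
  have xo' : S.Off ![d, e', S.M.α e] (S.M.φ (S.M.φ (S.M.α d))) := fun i => by
    rw [v1]; exact xo i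
  fin_cases i
  · refine ⟨S.M.α (S.M.φ (S.M.φ (S.M.α d))), ?_, ?_, by rw [S.M.αα]; exact xo'⟩
    · show _ = S.M.v e'
      rw [v2, hD.he']
    · rw [off_side hD.hc hD.hs xo', hD.hs.φ, hD.hs.φ, fd]
  · -- the third vertex
    have hW : S.M.v (S.M.α e) ∈ S.A := hiA
    have w1 : S.M.v (S.M.φ (S.M.φ (S.M.α e'))) = S.M.v (S.M.α (S.M.σ e')) := S.M.vφ _
    have w2 : S.M.v (S.M.α (S.M.φ (S.M.φ (S.M.α e')))) = S.M.v (S.M.α e') := by
      rw [← S.M.vφ, S.M.φ3]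
    have hyA' : S.M.v e' ∈ S.A := by rw [hD.he']; exact hyA
    have sσ' : s (S.M.σ e') = false := by
      show s (S.M.φ (S.M.α e')) = false
      rw [hD.hs.φ, fe']
    have z1 : S.M.v (S.M.α (S.M.σ e')) ≠ S.M.v (S.M.α d) := by
      have := hS.loop W (r := S.M.σ e') (by rw [S.M.vσ]; exact hyA')
      rwa [S.M.vσ, hD.he'] at this
    have z2 : S.M.v (S.M.α (S.M.σ e')) ≠ S.M.v (S.M.α e) := fun h0 => by
      have h1 : S.M.σ e' = e' := hN _ hyA' _ _ (S.M.vσ e') rfl (h0.trans hD.hw)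
      rw [h1, se'] at sσ'
      exact absurd sσ' (by decide)
    have z0 : S.M.v (S.M.α (S.M.σ e')) ≠ S.M.v d := fun h0 => by
      have h1 : S.M.σ e' = S.M.α d := hN _ hyA _ _ (by rw [S.M.vσ, hD.he']) rfl
        (by rw [S.M.αα, h0])
      have h2 : S.M.α (S.M.φ (S.M.φ (S.M.α e'))) = S.M.α e :=
        hN _ hW _ _ (by rw [w2, hD.hw]) rfl (by rw [S.M.αα, S.M.αα, w1, h0, hD.he])
      refine hD.nf (Or.inl ⟨?_, h1⟩)
      have h3 := S.M.αinj h2
      rw [← h3]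
      show _ = S.M.φ (S.M.α d)
      rw [← h1]
      rfl
    have zo : S.Off ![d, e', S.M.α e] (S.M.φ (S.M.φ (S.M.α e'))) := by
      rw [off3 hD.he', w1]
      exact ⟨z0, z1, z2⟩
    refine ⟨S.M.α (S.M.φ (S.M.φ (S.M.α e'))), ?_, ?_, by rw [S.M.αα]; exact zo⟩
    · show _ = S.M.v (S.M.α e)
      rw [w2, hD.hw]
    · rw [off_side hD.hc hD.hs zo, hD.hs.φ, hD.hs.φ, fe']
  · exact ⟨S.M.σ d, S.M.vσ d, sσ, xo⟩

end Pool.FC7
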