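import Pool.Agent.FC7.DlB

/-! # Two null neighbours of a vertex are consecutive -/

open Finset

set_option linter.unusedSectionVars false

namespace Pool.FC7

open Pool.FC6 Pool.FC6.St

variable {D V : Type} [Fintype D] [DecidableEq V] {S : St D V} {L : D → Bool} {w : D → ℕ} {Δ : ℕ}

/-- a dart with alive ends is real -/
theorem IsStar.real_of2 (hS : IsStar S) (W : Wf Δ S L w) {z : D} (h1 : S.M.v z ∈ S.A)
    (h2 : S.M.v (S.M.α z) ∈ S.A) : S.real z = true := by
  by_contra hn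
  exact hS.vhead W h1 (by simpa using hn) h2

/-- all four darts of a vertex of degree four are real -/
theorem real_of_nd {z z' : D} (h1 : S.nd z = 4) (h2 : 4 ≤ S.rdeg (S.M.v z))
    (h3 : S.M.v z' = S.M.v z) : S.real z' = true := by
  classical
  by_contra hn
  have h4 : S.rdeg (S.M.v z) + (∑ d, if d = z' then 1 else 0) ≤ S.nd z := by
    unfold St.nd
    rw [Finset.card_filter]
    unfold St.rdeg
    rw [← Finset.sum_add_distrib]
    refine Finset.sum_le_sum fun d _ => ?_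
    by_cases h6 : d = z'
    · rw [h6, if_neg (fun h0 => hn h0.2), if_pos rfl, if_pos h3]
    · rw [if_neg h6]
      by_cases h7 : S.M.v d = S.M.v z
      · rw [if_pos h7]
        split_ifs <;> omega
      · rw [if_neg h7, if_neg (fun h0 => h7 h0.1)]
  rw [Finset.sum_ite_eq' Finset.univ z', if_pos (Finset.mem_univ _)] at h4
  omega

section

variable {k e e' k' : D} {s : D → Bool}

/-- a smaller curve with the same first dart -/
theorem IsF.small (hF : IsF S k e e' k' s) (W : Wf Δ S L w) (h2 : TwoF S k e e' k' s)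
    (hmin : MinF S k e e' k' s) {k1 e1 e1' k1' : D} {s1 : D → Bool}
    (hF1 : IsF S k1 e1 e1' k1' s1) (hout : ∀ z, s z = false → s1 z = false) {x : D}
    (hx : S.M.v x ∈ inq S k e e' k' s) (hx1 : ¬ S.Off ![k1, e1, S.M.α e1', S.M.α k1'] x)
    (hv : ∀ z, S.Off ![k, e, S.M.α e', S.M.α k'] z → S.M.v z ≠ S.M.v x →
      S.Off ![k1, e1, S.M.α e1', S.M.α k1'] z) :
    (inq S k1 e1 e1' k1' s1).card ≤ 1 := by
  by_contra hlt
  have hsub := hF1.sub hF.hc hF.hs hout
  have hsub' : inq S k1 e1 e1' k1' s1 ⊆ inq S k e e' k' s := hsub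
  have hlt2 : (inq S k1 e1 e1' k1' s1).card < (inq S k e e' k' s).card := by
    refine Finset.card_lt_card ⟨hsub', fun h0 => ?_⟩
    exact hx1 (hF1.mem_inq.1 (h0 hx)).2.1
  have htwo : TwoF S k1 e1 e1' k1' s1 := by
    intro b
    cases b
    · obtain ⟨z, z', a1, a2, a3, a4, a5, a6, a7⟩ := h2 false
      obtain ⟨b1, b2, b3⟩ := hF.mem_inq.1 hx
      have key : ∀ z, S.Off ![k, e, S.M.α e', S.M.α k'] z → s z = false →
          S.M.v z ≠ S.M.v x := by
        intro z c1 c2 c3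
        have := hF.hs.vert hF.hc c1 c3
        rw [c2, b3] at this
        exact absurd this (by decide)
      exact ⟨z, z', a1, a2, hv z a3 (key z a3 a5), hv z' a4 (key z' a4 a6), hout z a5, hout z' a6,
        a7⟩
    · obtain ⟨z, z', b1, b2, b3⟩ := exists_two W (Finset.filter_subset _ _)
        (show 2 ≤ (inq S k1 e1 e1' k1' s1).card by omega)
      obtain ⟨c1, c2, c3⟩ := hF1.mem_inq.1 b1
      obtain ⟨d1, d2, d3⟩ := hF1.mem_inq.1 b2
      exact ⟨z, z', c1, d1, c2, d2, c3, d3, b3⟩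
  have := hmin _ _ _ _ _ hF1 htwo hsub'
  omega

/-- a vertex inside adjacent to `v k` and `v (α e)`: the half with `v (α k)` -/
theorem IsF.half (hF : IsF S k e e' k' s) (hr : S.real e = true) (h : Rg S) (hS : IsStar S)
    (W : Wf Δ S L w) (hΔ : Δ ≤ 7) (h2 : TwoF S k e e' k' s)
    (hfc : ∀ z, S.real z = true → S.M.v z ∈ inq S k e e' k' s → Fc3 S z)
    (hmin : MinF S k e e' k' s) {z z' : D} (hz : S.M.v z ∈ inq S k e e' k' s)
    (hv : S.M.v z' = S.M.v z) (h3 : S.M.v (S.M.α z) = S.M.v k)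
    (h4 : S.M.v (S.M.α z') = S.M.v (S.M.α e)) :
    S.M.σ (S.M.φ k) = e ∧ S.M.σ (S.M.σ z') = z ∧
      (S.real (S.M.σ z') = true → S.real (S.M.φ k) = true) := by
  have hs := hF.hs
  have hmA : S.M.v k ∈ S.A := h.real_A _ hF.hk
  have hyA : S.M.v (S.M.α k) ∈ S.A := h.real_A _ (by rw [h.real_α]; exact hF.hk)
  have hwA : S.M.v (S.M.α e) ∈ S.A := h.real_A _ (by rw [h.real_α]; exact hr)
  obtain ⟨hxA, oz, sz⟩ := hF.mem_inq.1 hz
  have oz' : S.Off ![k, e, S.M.α e', S.M.α k'] z' := fun i => by rw [hv]; exact oz i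
  have sz' : s z' = true := by rw [hs.vert hF.hc oz' hv, sz]
  have saz : s (S.M.α z) = true := by rw [off_side hF.hc hs oz, sz]
  have saz' : s (S.M.α z') = true := by rw [off_side hF.hc hs oz', sz']
  have rz : S.real z = true := hS.real_of2 W hxA (by rw [h3]; exact hmA)
  have rz' : S.real z' = true := hS.real_of2 W (by rw [hv]; exact hxA) (by rw [h4]; exact hwA)
  have hzU' : S.M.v z' ∈ inq S k e e' k' s := by rw [hv]; exact hz
  obtain ⟨xm, xy, xw, xv⟩ := (off4 hF.he hF.hw).1 oz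
  have hne : z ≠ z' := fun h0 => hF.n02 (by rw [← h3, h0, h4])
  have sk : s k = true := hs.t 0
  have se : s e = true := hs.t 1
  have fk : s (S.M.α k) = false := hs.f 0
  have fe : s (S.M.α e) = false := hs.f 1
  by_cases hg : ∃ g, S.M.v g = S.M.v z ∧ S.M.v (S.M.α g) = S.M.v (S.M.α k)
  · obtain ⟨g, g1, g2⟩ := hg
    have rg : S.real g = true := hS.real_of2 W (by rw [g1]; exact hxA) (by rw [g2]; exact hyA)
    have a : S.M.σ g = z ∧ k = S.M.φ z := by
      rcases hfc z rz hz g k g1 h3.symm g2 with ⟨b1, b2⟩ | ⟨b1, b2⟩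
      · exfalso
        have : s (S.M.σ k) = false := by
          show s (S.M.φ (S.M.α k)) = false
          rw [hs.φ, fk]
        rw [b2, saz] at this
        exact absurd this (by decide)
      · refine ⟨b1, ?_⟩
        rw [b2]
        show S.M.φ (S.M.α (S.M.α z)) = _
        rw [S.M.αα]
    have b : g = S.M.σ z' ∧ S.M.φ e = S.M.α z' := by
      rcases hfc z' rz' hzU' g (S.M.α e) (g1.trans hv.symm) h4.symm
        (by rw [S.M.αα, g2, hF.he]) with ⟨b1, b2⟩ | ⟨b1, b2⟩
      · refine ⟨b1, ?_⟩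
        rw [← b2]
        show _ = S.M.φ (S.M.α (S.M.α e))
        rw [S.M.αα]
      · exact absurd (a.1.symm.trans b1) hne
    have c1 : S.M.φ k = S.M.α g := by
      rw [a.2, ← a.1]
      show S.M.φ (S.M.φ (S.M.φ (S.M.α g))) = _
      rw [S.M.φ3]
    refine ⟨?_, by rw [← b.1, a.1], fun _ => by rw [c1, h.real_α]; exact rg⟩
    rw [c1]
    show S.M.φ (S.M.α (S.M.α g)) = e
    rw [S.M.αα, b.1]
    show S.M.φ (S.M.φ (S.M.α z')) = e
    rw [← b.2, S.M.φ3]
  · push Not at hg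
    have hc1 : S.M.Curve ![k, e, S.M.α z', S.M.α (S.M.α z)] :=
      curve4 (k' := S.M.α z) h3 hF.he (by rw [S.M.αα]; exact hv) h4.symm hF.n01 hF.n02
        (by rw [S.M.αα]; exact xm.symm) hF.n12 (by rw [S.M.αα]; exact xy.symm)
        (by rw [S.M.αα]; exact xw.symm)
    obtain ⟨s1, hs1⟩ := hc1.side
    have hF1 : IsF S k e z' (S.M.α z) s1 :=
      { hk := hF.hk, hk' := by rw [h.real_α]; exact rz, vk := h3, he := hF.he,
        he' := by rw [S.M.αα]; exact hv, re := rz'.trans hr.symm, hw := h4.symm,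
        hn := fun r _ r1 r2 => hg (S.M.α r) (by rw [r2, S.M.αα]) (by rw [S.M.αα, r1]),
        ht := hF.ht, hc := hc1, hs := hs1 }
    have hout : ∀ z, s z = false → s1 z = false := by
      intro z0 h0
      have hcon := side_const hF.hc hs (s' := s1) hs1.φ (by
        intro z1 b1 b2
        have nz : ∀ y, s y = true → z1 ≠ y := fun y hy h0 => by
          rw [h0, hy] at b1
          exact absurd b1 (by decide)
        have nz' : ∀ y, s y = true → z1 ≠ S.M.α y := fun y hy h0 => by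
          rw [h0, S.M.αα, hy] at b2
          exact absurd b2 (by decide)
        refine hs1.o z1 (fun i => ?_) (fun i => ?_)
        · fin_cases i
          · exact nz _ sk
          · exact nz _ se
          · exact nz _ saz'
          · exact nz _ (by
              show s (S.M.α (S.M.α z)) = true
              rw [S.M.αα]; exact sz)
        · fin_cases i
          · exact nz' _ sk
          · exact nz' _ se
          · exact nz' _ saz'
          · exact nz' _ (by
              show s (S.M.α (S.M.α z)) = true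
              rw [S.M.αα]; exact sz)) z0 (S.M.α k) h0 fk
      rw [hcon]
      exact hs1.f 0
    have hcard := hF.small W h2 hmin hF1 hout hz (fun h0 => h0 3 (by
      show S.M.v z = S.M.v (S.M.α (S.M.α z))
      rw [S.M.αα])) (fun y h0 h1 => by
        rw [off4 hF.he h4.symm, S.M.αα]
        rw [off4 hF.he hF.hw] at h0
        exact ⟨h0.1, h0.2.1, h0.2.2.1, h1⟩)
    have hst := hF1.star hr h hS W hΔ hcard
    have t0 : S.M.σ (S.M.φ k) = e := hst 0
    have t1 : S.M.σ (S.M.φ e) = S.M.α z' := hst 1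
    have t2 : S.M.σ (S.M.φ (S.M.α z')) = S.M.α (S.M.α z) := hst 2
    rw [S.M.αα] at t2
    refine ⟨t0, t2, fun hreal => ?_⟩
    have a1 : S.M.v (S.M.α (S.M.σ z')) ∈ S.A := h.real_A _ (by rw [h.real_α]; exact hreal)
    have a2 : S.M.v (S.M.α (S.M.φ k)) = S.M.v (S.M.α (S.M.σ z')) := by
      have c1 : ∀ i, S.M.v (S.M.α (S.M.φ (![k, e, S.M.α z', S.M.α (S.M.α z)] i))) =
          S.M.v (S.M.φ (S.M.φ (![k, e, S.M.α z', S.M.α (S.M.α z)] (i + 1)))) := by
        intro i
        rw [← hst i]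
        show _ = S.M.v (S.M.φ (S.M.φ (S.M.φ (S.M.α (S.M.φ _)))))
        rw [S.M.φ3]
      have c2 : ∀ i, S.M.v (S.M.φ (S.M.φ (![k, e, S.M.α z', S.M.α (S.M.α z)] i))) =
          S.M.v (S.M.α (S.M.φ (![k, e, S.M.α z', S.M.α (S.M.α z)] i))) := fun i => S.M.vφ _
      have d1 : S.M.v (S.M.α (S.M.φ k)) = S.M.v (S.M.φ (S.M.φ e)) := c1 0
      have d2 : S.M.v (S.M.φ (S.M.φ e)) = S.M.v (S.M.α (S.M.φ e)) := c2 1
      have d3 : S.M.v (S.M.α (S.M.φ e)) = S.M.v (S.M.φ (S.M.φ (S.M.α z'))) := c1 1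
      have d4 : S.M.v (S.M.φ (S.M.φ (S.M.α z'))) = S.M.v (S.M.α (S.M.σ z')) := c2 2
      rw [d1, d2, d3, d4]
    refine hS.real_of2 W ?_ (by rw [a2]; exact a1)
    rw [S.M.vφ]; exact hyA

theorem IsF.w1 (hF : IsF S k e e' k' s) (hr : S.real e = true) (h : Rg S) (hS : IsStar S)
    (W : Wf Δ S L w) (hΔ : Δ ≤ 7) (h2 : TwoF S k e e' k' s)
    (h3 : 3 ≤ (inq S k e e' k' s).card)
    (hfc : ∀ z, S.real z = true → S.M.v z ∈ inq S k e e' k' s → Fc3 S z)
    (hmin : MinF S k e e' k' s) :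
    2 ≤ ∑ z ∈ ID S ![k, e, S.M.α e', S.M.α k'] s 1, wtd S z := by
  have hF1 := hF.rot hr h hS W
  have hr1 : S.real (S.M.α e') = true := by rw [h.real_α, hF.re]; exact hr
  have hF2 := hF1.rot hr1 h hS W
  have hr2 : S.real (S.M.α k') = true := by rw [h.real_α]; exact hF.hk'
  have hF3 := hF2.rot hr2 h hS W
  have hr3 : S.real (S.M.α (S.M.α k)) = true := by rw [S.M.αα]; exact hF.hk
  have i1 := hF.inq_rot hF1 W
  have i2 := hF1.inq_rot hF2 W
  have i3 := hF2.inq_rot hF3 W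
  have t3 := hF2.two_rot (hF1.two_rot (hF.two_rot h2))
  have a3 := hF3.w2 hr3 h hS W hΔ t3 (by rw [i3, i2, i1]; exact h3)
    (by rw [i3, i2, i1]; exact hfc) (by unfold MinF; rw [i3, i2, i1]; exact hmin)
  rw [hF2.ID_rot, hF1.ID_rot, hF.ID_rot] at a3
  exact a3

/-- no vertex inside is adjacent to two opposite vertices of the curve -/
theorem IsF.opp (hF : IsF S k e e' k' s) (hr : S.real e = true) (h : Rg S) (hS : IsStar S)
    (W : Wf Δ S L w) (hΔ : Δ ≤ 7) (h2 : TwoF S k e e' k' s)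
    (h3 : 3 ≤ (inq S k e e' k' s).card)
    (hfc : ∀ z, S.real z = true → S.M.v z ∈ inq S k e e' k' s → Fc3 S z)
    (hmin : MinF S k e e' k' s) {z z' : D} (hz : S.M.v z ∈ inq S k e e' k' s)
    (hv : S.M.v z' = S.M.v z) (h4 : S.M.v (S.M.α z) = S.M.v k)
    (h5 : S.M.v (S.M.α z') = S.M.v (S.M.α e)) : False := by
  have hF1 := hF.rot hr h hS W
  have hr1 : S.real (S.M.α e') = true := by rw [h.real_α, hF.re]; exact hr
  have hF2 := hF1.rot hr1 h hS W
  have hr2 : S.real (S.M.α k') = true := by rw [h.real_α]; exact hF.hk'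
  have i1 := hF.inq_rot hF1 W
  have i2 := hF1.inq_rot hF2 W
  have t2 := hF1.two_rot (hF.two_rot h2)
  obtain ⟨a1, a2, a3⟩ := hF.half hr h hS W hΔ h2 hfc hmin hz hv h4 h5
  obtain ⟨b1, b2, b3⟩ := hF2.half hr2 h hS W hΔ t2 (by rw [i2, i1]; exact hfc)
    (by unfold MinF; rw [i2, i1]; exact hmin) (z := z') (z' := z)
    (by rw [i2, i1, hv]; exact hz) hv.symm (by rw [h5, hF.hw]) (by rw [h4, S.M.αα, hF.vk])
  have hnd : S.nd z = 4 := h.nd_four hS W (by rw [b2, a2])
  have hrd : 4 ≤ S.rdeg (S.M.v z) := h.deg4 (hF.mem_inq.1 hz).1 (W.ne _)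
  have hreal : S.real (S.M.σ z') = true := real_of_nd hnd hrd (by rw [S.M.vσ]; exact hv)
  have hφ := a3 hreal
  have hw := hF.w1 hr h hS W hΔ h2 h3 hfc hmin
  have hsub : ID S ![k, e, S.M.α e', S.M.α k'] s 1 ⊆ {S.M.φ k} := by
    intro y hy
    obtain ⟨c1, c2, c3⟩ := mem_ID.1 hy
    rcases curve_single hF.hc hF.hs (i := 0) a1 c1 c2 with c4 | c4
    · exfalso
      have c5 : y = e := c4
      rw [c5] at c3
      exact c3 2 hF.hw
    · rw [Finset.mem_singleton]
      exact c4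
  have hle : ∑ z ∈ ID S ![k, e, S.M.α e', S.M.α k'] s 1, wtd S z ≤ 1 := by
    refine (Finset.sum_le_sum_of_subset hsub).trans ?_
    rw [Finset.sum_singleton]
    unfold wtd
    rw [if_pos hφ]
  omega

end

end Pool.FC7
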