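import Pool.Agent.FC7.DlC

/-! # Two null neighbours of a vertex are consecutive: all regions -/

open Finset

set_option linter.unusedSectionVars false

namespace Pool.FC7

open Pool.FC6 Pool.FC6.St

variable {D V : Type} [Fintype D] [DecidableEq V] {S : St D V} {L : D → Bool} {w : D → ℕ} {Δ : ℕ}

section

variable {k e e' k' : D} {s : D → Bool}

/-- the curve passes through a face: no vertex inside is adjacent to `v (α k)` and `v (α k')` -/
theorem IsF.opp_virt (hF : IsF S k e e' k' s) (hr : S.real e = false) (h : Rg S) (hS : IsStar S)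
    (W : Wf Δ S L w) (hΔ : Δ ≤ 7) (h2 : TwoF S k e e' k' s)
    (hfc : ∀ z, S.real z = true → S.M.v z ∈ inq S k e e' k' s → Fc3 S z)
    (hmin : MinF S k e e' k' s) {z z' : D} (hz : S.M.v z ∈ inq S k e e' k' s)
    (hv : S.M.v z' = S.M.v z) (h3 : S.M.v (S.M.α z) = S.M.v (S.M.α k))
    (h4 : S.M.v (S.M.α z') = S.M.v (S.M.α k')) : False := by
  have hs := hF.hs
  have hmA : S.M.v k ∈ S.A := h.real_A _ hF.hk
  have hyA : S.M.v (S.M.α k) ∈ S.A := h.real_A _ (by rw [h.real_α]; exact hF.hk)
  have hvA : S.M.v (S.M.α k') ∈ S.A := h.real_A _ (by rw [h.real_α]; exact hF.hk')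
  have hh : S.M.v (S.M.α e) ∉ S.A := hS.vhead W (by rw [hF.he]; exact hyA) hr
  obtain ⟨hxA, oz, sz⟩ := hF.mem_inq.1 hz
  have oz' : S.Off ![k, e, S.M.α e', S.M.α k'] z' := fun i => by rw [hv]; exact oz i
  have sz' : s z' = true := by rw [hs.vert hF.hc oz' hv, sz]
  have saz : s (S.M.α z) = true := by rw [off_side hF.hc hs oz, sz]
  have saz' : s (S.M.α z') = true := by rw [off_side hF.hc hs oz', sz']
  have rz : S.real z = true := hS.real_of2 W hxA (by rw [h3]; exact hyA)
  have rz' : S.real z' = true := hS.real_of2 W (by rw [hv]; exact hxA) (by rw [h4]; exact hvA)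
  have hzU' : S.M.v z' ∈ inq S k e e' k' s := by rw [hv]; exact hz
  obtain ⟨xm, xy, xw, xv⟩ := (off4 hF.he hF.hw).1 oz
  have hne : z ≠ z' := fun h0 => hF.n13 (by rw [← h3, h0, h4])
  have sk : s k = true := hs.t 0
  have se : s e = true := hs.t 1
  have se' : s (S.M.α e') = true := hs.t 2
  have sk' : s (S.M.α k') = true := hs.t 3
  have fk : s (S.M.α k) = false := hs.f 0
  have fe : s (S.M.α e) = false := hs.f 1
  -- the first half
  have A1 : S.M.σ (S.M.σ z) = z' := by
    by_cases ht : ∃ t, S.M.v t = S.M.v z ∧ S.M.v (S.M.α t) = S.M.v k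
    · obtain ⟨t, t1, t2⟩ := ht
      have rt : S.real t = true := hS.real_of2 W (by rw [t1]; exact hxA) (by rw [t2]; exact hmA)
      have ot : S.Off ![k, e, S.M.α e', S.M.α k'] t := fun i => by rw [t1]; exact oz i
      have sat : s (S.M.α t) = true := by
        rw [off_side hF.hc hs ot, hs.vert hF.hc ot t1, sz]
      have htU : S.M.v t ∈ inq S k e e' k' s := by rw [t1]; exact hz
      have b1 : S.M.σ z = t := by
        rcases hfc t rt htU z k t1.symm t2.symm h3 with ⟨c1, c2⟩ | ⟨c1, c2⟩
        · exfalso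
          have : s (S.M.σ k) = false := by
            show s (S.M.φ (S.M.α k)) = false
            rw [hs.φ, fk]
          rw [c2, sat] at this
          exact absurd this (by decide)
        · exact c1
      have b2 : z' = S.M.σ t := by
        rcases hfc t rt htU z' k' (hv.trans t1.symm) (hF.vk.trans t2.symm) h4 with
          ⟨c1, c2⟩ | ⟨c1, c2⟩
        · exact c1
        · exact absurd (S.M.σinj (b1.trans c1.symm)) hne
      rw [b1, b2]
    · push Not at ht
      have hc1 : S.M.Curve ![k, S.M.α z, S.M.α (S.M.α z'), S.M.α k'] :=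
        curve4 (e' := S.M.α z') hF.vk h3 h4 (by rw [S.M.αα, S.M.αα]; exact hv.symm) hF.n01
          (by rw [S.M.αα]; exact xm.symm) hF.n03 (by rw [S.M.αα]; exact xy.symm) hF.n13
          (by rw [S.M.αα]; exact xv)
      obtain ⟨s1, hs1⟩ := hc1.side
      have hF1 : IsF S k (S.M.α z) (S.M.α z') k' s1 :=
        { hk := hF.hk, hk' := hF.hk', vk := hF.vk, he := h3, he' := h4,
          re := by rw [h.real_α, h.real_α, rz, rz'], hw := by rw [S.M.αα, S.M.αα]; exact hv.symm,
          hn := hF.hn,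
          ht := fun t t1 t2 => ht (S.M.α t) (by rw [t2, S.M.αα]) (by rw [S.M.αα]; exact t1),
          hc := hc1, hs := hs1 }
      have hout : ∀ z, s z = false → s1 z = false := by
        intro z0 h0
        have hcon := side_const hF.hc hs (s' := s1) hs1.φ (by
          intro z1 b1 b2
          have nz : ∀ y, s y = true → z1 ≠ y := fun y hy h0 => by
            rw [h0, hy] at b1
            exact absurd b1 (by decide)
          have nz' : ∀ y, s y = true → z1 ≠ S.M.α y := fun y hy h0 => by
            rw [h0, S.M.αα, hy] at b2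
            exact absurd b2 (by decide)
          refine hs1.o z1 (fun i => ?_) (fun i => ?_)
          · fin_cases i
            · exact nz _ sk
            · exact nz _ saz
            · exact nz _ (by
                show s (S.M.α (S.M.α z')) = true
                rw [S.M.αα]; exact sz')
            · exact nz _ sk'
          · fin_cases i
            · exact nz' _ sk
            · exact nz' _ saz
            · exact nz' _ (by
                show s (S.M.α (S.M.α z')) = true
                rw [S.M.αα]; exact sz')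
            · exact nz' _ sk') z0 (S.M.α k) h0 fk
        rw [hcon]
        exact hs1.f 0
      have hcard := hF.small W h2 hmin hF1 hout hz (fun h0 => h0 2 (by
        show S.M.v z = S.M.v (S.M.α (S.M.α z'))
        rw [S.M.αα, hv])) (fun y h0 h1 => by
          rw [off4 h3 hF1.hw, S.M.αα]
          rw [off4 hF.he hF.hw] at h0
          exact ⟨h0.1, h0.2.1, h1, h0.2.2.2⟩)
      have hst := hF1.star (by rw [h.real_α]; exact rz) h hS W hΔ hcard
      have t1 : S.M.σ (S.M.φ (S.M.α z)) = S.M.α (S.M.α z') := hst 1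
      rw [S.M.αα] at t1
      exact t1
  -- the second half
  have A2 : S.M.σ (S.M.σ z') = z ∧ S.real (S.M.σ z') = false := by
    by_cases hg : ∃ g, S.M.v g = S.M.v z ∧ S.M.v (S.M.α g) = S.M.v (S.M.α e)
    · obtain ⟨g, g1, g2⟩ := hg
      have b1 : S.M.σ g = z := by
        rcases hfc z rz hz g e g1 (hF.he.trans h3.symm) g2 with ⟨c1, c2⟩ | ⟨c1, c2⟩
        · exfalso
          have : s (S.M.σ e) = false := by
            show s (S.M.φ (S.M.α e)) = false
            rw [hs.φ, fe]
          rw [c2, saz] at this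
          exact absurd this (by decide)
        · exact c1
      have b2 : g = S.M.σ z' := by
        rcases hfc z' rz' hzU' g e' (g1.trans hv.symm) (hF.he'.trans h4.symm)
          (g2.trans hF.hw) with ⟨c1, c2⟩ | ⟨c1, c2⟩
        · exact c1
        · exact absurd (b1.symm.trans c1) hne
      refine ⟨by rw [← b2, b1], ?_⟩
      rw [← b2]
      cases h0 : S.real g
      · rfl
      · exact absurd (h.real_A _ (by rw [h.real_α]; exact h0)) (by rw [g2]; exact hh)
    · exfalso
      push Not at hg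
      have hne2 : S.M.v (S.M.α z) ≠ S.M.v (S.M.α z') := by rw [h3, h4]; exact hF.n13
      rcases h.mkF hS W hΔ (k := z) (k' := z') (e := e) (e' := e') rz rz' hv
        (hF.he.trans h3.symm) (hF.he'.trans h4.symm) hF.re hF.hw hne2 xw.symm
        (fun r r1 r2 => by
          rw [h4]
          exact hF.hn r r1 (r2.trans h3)) (fun t t1 => hg t t1) with ⟨s2, hF2, hT2⟩ | b1 | b1
      · -- orientation
        have hs2 := hF2.hs
        have hout : ∀ z, s z = false → s2 z = false := by
          intro z0 h0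
          have hcon := side_const hF.hc hs (s' := s2) hs2.φ (by
            intro z1 b1 b2
            have nz : ∀ y, s y = true → z1 ≠ y := fun y hy h0 => by
              rw [h0, hy] at b1
              exact absurd b1 (by decide)
            have nz' : ∀ y, s y = true → z1 ≠ S.M.α y := fun y hy h0 => by
              rw [h0, S.M.αα, hy] at b2
              exact absurd b2 (by decide)
            refine hs2.o z1 (fun i => ?_) (fun i => ?_)
            · fin_cases i
              · exact nz _ sz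
              · exact nz _ se
              · exact nz _ se'
              · exact nz _ saz'
            · fin_cases i
              · exact nz' _ sz
              · exact nz' _ se
              · exact nz' _ se'
              · exact nz' _ saz') z0 (S.M.α e) h0 fe
          rw [hcon]
          exact hs2.f 1
        have hcard := hF.small W h2 hmin hF2 hout hz (fun h0 => h0 0 rfl) (fun y h0 h1 => by
          rw [off4 (hF.he.trans h3.symm) hF.hw, h3, h4]
          rw [off4 hF.he hF.hw] at h0
          exact ⟨h1, h0.2.1, h0.2.2.1, h0.2.2.2⟩)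
        have := hF2.two_card hT2
        omega
      · rw [hr] at b1
        exact absurd b1.1 (by decide)
      · rw [hr] at b1
        exact absurd b1.1 (by decide)
  have hnd : S.nd z = 4 := h.nd_four hS W (by rw [A1, A2.1])
  have hrd : 4 ≤ S.rdeg (S.M.v z) := h.deg4 hxA (W.ne _)
  have := real_of_nd hnd hrd (z' := S.M.σ z') (by rw [S.M.vσ]; exact hv)
  rw [A2.2] at this
  exact absurd this (by decide)

/-- two vertices inside of a real curve -/
theorem IsF.pair_facts (hF : IsF S k e e' k' s) (h : Rg S) (hS : IsStar S)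
    (W : Wf Δ S L w) (hc : (inq S k e e' k' s).card = 2) :
    ∀ x ∈ inq S k e e' k' s, S.rdeg x = 4 ∧ vdeg S x = 0 ∧ nul S (tef S k e k') x = 3 := by
  have hcnt := hF.countg h hS W
  obtain ⟨x, y, hxy, hU⟩ := Finset.card_eq_two.1 hc
  have nx := hF.two_in h hxy hU
  have ny := hF.two_in h hxy.symm (by rw [hU, Finset.pair_comm])
  have hxA : x ∈ S.A := Finset.filter_subset _ _ (show x ∈ inq S k e e' k' s by rw [hU]; simp)
  have hyA : y ∈ S.A := Finset.filter_subset _ _ (show y ∈ inq S k e e' k' s by rw [hU]; simp)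
  have dx : 4 ≤ S.rdeg x := h.deg4 hxA (W.ne x)
  have dy : 4 ≤ S.rdeg y := h.deg4 hyA (W.ne y)
  have gx := le_gdeg (S := S) x
  have gy := le_gdeg (S := S) y
  rw [hU] at hcnt
  rw [Finset.sum_pair hxy, Finset.sum_pair hxy, Finset.sum_pair hxy,
    Finset.card_pair hxy] at hcnt
  intro x0 hx0
  rw [hU, Finset.mem_insert, Finset.mem_singleton] at hx0
  rcases hx0 with rfl | rfl
  · exact ⟨by omega, by omega, by omega⟩
  · exact ⟨by omega, by omega, by omega⟩

end

/-- two null neighbours of a vertex are consecutive -/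
def N1 (S : St D V) (U T : Finset V) : Prop :=
  ∀ z z', S.M.v z ∈ U → S.M.v z' = S.M.v z → z ≠ z' → S.M.v (S.M.α z) ∈ T →
    S.M.v (S.M.α z') ∈ T → z' = S.M.σ z ∨ z = S.M.σ z'

/-- adjacent vertices of the curve -/
theorem curve_adj {n : ℕ} [NeZero n] {c : Fin n → D} (hc : S.M.Curve c) {z z' : D} {i : Fin n}
    (hf : Fc3 S z) (hv : S.M.v z' = S.M.v z) (h1 : S.M.v (S.M.α z) = S.M.v (c i))
    (h2 : S.M.v (S.M.α z') = S.M.v (c (i + 1))) : z' = S.M.σ z ∨ z = S.M.σ z' := by
  rcases hf z' (c i) hv h1.symm (h2.trans (hc.nx i).symm) with ⟨h3, -⟩ | ⟨h3, -⟩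
  · exact Or.inl h3
  · exact Or.inr h3.symm

theorem Cut3.n1 {d e e' : D} {s : D → Bool} (hC : Cut3 S d e e' s) (h : Rg S)
    (hS : IsStar S) (W : Wf Δ S L w) (hΔ : Δ ≤ 7) :
    N1 S (ins S d e e' s) (tee S d e) := by
  intro z z' h1 h2 h3 h4 h5
  have hD := hC.hD
  have hA := (hD.mem_ins.1 h1).1
  have a1 := (mem_tee hD.he').1 h4
  have a2 := (mem_tee hD.he').1 h5
  have rz : S.real z = true := hS.real_of2 W hA a1.1
  have rz' : S.real z' = true := hS.real_of2 W (by rw [h2]; exact hA) a2.1
  have b1 := a1.2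
  have b2 := a2.2
  unfold Off at b1 b2
  push Not at b1 b2
  obtain ⟨i, hi⟩ := b1
  obtain ⟨j, hj⟩ := b2
  have hij : i ≠ j := fun h0 => h3 (h.n2 hS W hΔ _ hA _ _ rfl h2 (by rw [hi, hj, h0]))
  have hor : j = i + 1 ∨ i = j + 1 := by
    revert hij
    fin_cases i <;> fin_cases j <;> decide
  rcases hor with rfl | rfl
  · exact curve_adj hD.hc (hC.fc z rz h1) h2 hi hj
  · rcases curve_adj hD.hc (hC.fc z' rz' (by rw [h2]; exact h1)) h2.symm hj hi with h6 | h6
    · exact Or.inr h6
    · exact Or.inl h6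

theorem Cut4.n1 {k e e' k' : D} {s : D → Bool} (hC : Cut4 S k e e' k' s) (h : Rg S)
    (hS : IsStar S) (W : Wf Δ S L w) (hΔ : Δ ≤ 7)
    (h3 : S.real e = true → 3 ≤ (inq S k e e' k' s).card) :
    N1 S (inq S k e e' k' s) (tef S k e k') := by
  intro z z' h1 h2 hne h4 h5
  have hF := hC.hF
  have hA := (hF.mem_inq.1 h1).1
  have a1 := hF.mem_tef.1 h4
  have a2 := hF.mem_tef.1 h5
  have rz : S.real z = true := hS.real_of2 W hA a1.1
  have rz' : S.real z' = true := hS.real_of2 W (by rw [h2]; exact hA) a2.1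
  have h1' : S.M.v z' ∈ inq S k e e' k' s := by rw [h2]; exact h1
  have b1 := a1.2
  have b2 := a2.2
  unfold Off at b1 b2
  push Not at b1 b2
  obtain ⟨i, hi⟩ := b1
  obtain ⟨j, hj⟩ := b2
  have hij : i ≠ j := fun h0 => hne (h.n2 hS W hΔ _ hA _ _ rfl h2 (by rw [hi, hj, h0]))
  have hyA : S.M.v (S.M.α k) ∈ S.A := h.real_A _ (by rw [h.real_α]; exact hF.hk)
  have heA : S.M.v e ∈ S.A := by rw [hF.he]; exact hyA
  -- opposite vertices
  have o02 : ∀ {y y'}, S.M.v y ∈ inq S k e e' k' s → S.M.v y' = S.M.v y →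
      S.M.v (S.M.α y) = S.M.v k → S.M.v (S.M.α y') = S.M.v (S.M.α e') →
      S.M.v (S.M.α y') ∈ S.A → False := by
    intro y y' g1 g2 g3 g4 g5
    cases hr : S.real e
    · exact hS.vhead W heA hr (by rw [hF.hw, ← g4]; exact g5)
    · exact hF.opp hr h hS W hΔ hC.two (h3 hr) hC.fc hC.min g1 g2 g3 (by rw [g4, hF.hw])
  have o13 : ∀ {y y'}, S.M.v y ∈ inq S k e e' k' s → S.M.v y' = S.M.v y →
      S.M.v (S.M.α y) = S.M.v e → S.M.v (S.M.α y') = S.M.v (S.M.α k') → False := by
    intro y y' g1 g2 g3 g4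
    cases hr : S.real e
    · exact hF.opp_virt hr h hS W hΔ hC.two hC.fc hC.min g1 g2 (by rw [g3, hF.he]) g4
    · have hF1 := hF.rot hr h hS W
      have i1 := hF.inq_rot hF1 W
      have hr1 : S.real e = true := hr
      exact hF1.opp (by rw [h.real_α, hF.re]; exact hr) h hS W hΔ (hF.two_rot hC.two)
        (by rw [i1]; exact h3 hr) (by rw [i1]; exact hC.fc)
        (by unfold MinF; rw [i1]; exact hC.min) (by rw [i1]; exact g1) g2 g3
        (by rw [g4, S.M.αα, hF.he'])
  have hor : j = i + 1 ∨ i = j + 1 ∨ (i = 0 ∧ j = 2) ∨ (i = 2 ∧ j = 0) ∨ (i = 1 ∧ j = 3) ∨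
      (i = 3 ∧ j = 1) := by
    revert hij
    fin_cases i <;> fin_cases j <;> decide
  rcases hor with rfl | rfl | ⟨rfl, rfl⟩ | ⟨rfl, rfl⟩ | ⟨rfl, rfl⟩ | ⟨rfl, rfl⟩
  · exact curve_adj hF.hc (hC.fc z rz h1) h2 hi hj
  · rcases curve_adj hF.hc (hC.fc z' rz' h1') h2.symm hj hi with h6 | h6
    · exact Or.inr h6
    · exact Or.inl h6
  · exact absurd (o02 h1 h2 hi hj a2.1) id
  · exact absurd (o02 h1' h2.symm hj hi a1.1) id
  · exact absurd (o13 h1 h2 hi hj) id
  · exact absurd (o13 h1' h2.symm hj hi) id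

/-- at most two null neighbours -/
theorem N1.nul_le {U T : Finset V} (hN : N1 S U T) (h : Rg S) (W : Wf Δ S L w) (hUA : U ⊆ S.A)
    {x : V} (hx : x ∈ U) : nul S T x ≤ 2 := by
  classical
  by_contra hlt
  have h1 : nul S T x = (Finset.univ.filter fun z => S.M.v z = x ∧
      (S.real z = true ∧ S.M.v (S.M.α z) ∈ T)).card := by
    rw [Finset.card_filter]
    rfl
  have h2 : 2 < (Finset.univ.filter fun z => S.M.v z = x ∧
      (S.real z = true ∧ S.M.v (S.M.α z) ∈ T)).card := by omega
  obtain ⟨a, ha, b, hb, c, hc, hab, hac, hbc⟩ := Finset.two_lt_card.1 h2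
  have ha := (Finset.mem_filter.1 ha).2
  have hb := (Finset.mem_filter.1 hb).2
  have hc := (Finset.mem_filter.1 hc).2
  have key : ∀ y, S.M.v y = x → S.M.σ (S.M.σ (S.M.σ y)) = y → False := by
    intro y hy h3
    have h4 : 4 ≤ S.rdeg x := h.deg4 (hUA hx) (W.ne x)
    have h5 : S.rdeg x ≤ S.nd y := by
      unfold St.rdeg St.nd
      rw [Finset.card_filter]
      refine Finset.sum_le_sum fun d _ => ?_
      by_cases h6 : S.M.v d = x ∧ S.real d = true
      · rw [if_pos h6, if_pos (h6.1.trans hy.symm)]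
      · rw [if_neg h6]; exact Nat.zero_le _
    have h6 : S.nd y ≤ 3 := by
      unfold St.nd
      refine le_trans (Finset.card_le_card (t := {y, S.M.σ y, S.M.σ (S.M.σ y)})
        fun y' hy' => ?_) Finset.card_le_three
      have hy' : S.M.v y' = S.M.v y := (Finset.mem_filter.1 hy').2
      obtain ⟨m, hm⟩ := S.M.σ_orbit hy'.symm
      rw [← hm]
      clear hm hy'
      induction m with
      | zero => simp
      | succ m ih =>
        rw [Function.iterate_succ_apply']
        simp only [Finset.mem_insert, Finset.mem_singleton] at ih ⊢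
        rcases ih with g1 | g1 | g1
        · rw [g1]; exact Or.inr (Or.inl rfl)
        · rw [g1]; exact Or.inr (Or.inr rfl)
        · rw [g1, h3]; exact Or.inl rfl
    omega
  have e1 := hN a b (by rw [ha.1]; exact hx) (hb.1.trans ha.1.symm) hab ha.2.2 hb.2.2
  have e2 := hN a c (by rw [ha.1]; exact hx) (hc.1.trans ha.1.symm) hac ha.2.2 hc.2.2
  have e3 := hN b c (by rw [hb.1]; exact hx) (hc.1.trans hb.1.symm) hbc hb.2.2 hc.2.2
  rcases e1 with e1 | e1 <;> rcases e2 with e2 | e2 <;> rcases e3 with e3 | e3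
  · exact hbc (e1.trans e2.symm)
  · exact hbc (e1.trans e2.symm)
  · exact key a ha.1 (by rw [← e1, ← e3, ← e2])
  · -- b = σ a, a = σ c, b = σ c
    exact hab (e2.trans e3.symm)
  · -- a = σ b, c = σ a, c = σ b
    exact hac (e1.trans e3.symm)
  · exact key a ha.1 (by rw [← e2, ← e3, ← e1])
  · exact hbc (S.M.σinj (e1.symm.trans e2))
  · exact hbc (S.M.σinj (e1.symm.trans e2))

/-- the region used for the discharging, with the structure of the null neighbours -/
structure Dsh (S : St D V) (U T : Finset V) : Prop extends Dsg S U T where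
  n5 : N5 S U T
  n1 : N1 S U T ∨ (U.card = 2 ∧ ∀ x ∈ U, S.rdeg x = 4 ∧ vdeg S x = 0 ∧ nul S T x = 3)
  out : N1 S U T ∨ ∃ v ∈ S.A, v ∉ U ∧ v ∉ T

/-- the region exists -/
theorem Rg.exists_dsh (h : Rg S) (hS : IsStar S) (W : Wf Δ S L w) (hΔ : Δ ≤ 7) :
    ∃ U T, Dsh S U T := by
  rcases h.cuts hS W hΔ with hC | ⟨d, e, e', s, hC⟩ | ⟨k, e, e', k', s, hC⟩
  · have hn : N1 S S.A ∅ := fun z z' _ _ _ h1 => absurd h1 (by simp)
    exact ⟨_, _, hC.dsg h hS W hΔ, fun z z' h1 => absurd h1 (by simp), Or.inl hn, Or.inl hn⟩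
  · exact ⟨_, _, hC.dsg h hS W hΔ, hC.n5 h hS W hΔ, Or.inl (hC.n1 h hS W hΔ),
      Or.inl (hC.n1 h hS W hΔ)⟩
  · have hout : ∃ v ∈ S.A, v ∉ inq S k e e' k' s ∧ v ∉ tef S k e k' := by
      obtain ⟨z, -, a1, -, a3, -, a5, -, -⟩ := hC.two false
      refine ⟨_, a1, fun h0 => ?_, fun h0 => (hC.hF.mem_tef.1 h0).2 a3⟩
      have := (hC.hF.mem_inq.1 h0).2.2
      rw [a5] at this
      exact absurd this (by decide)
    refine ⟨_, _, hC.dsg h hS W hΔ, hC.n5 h hS W hΔ, ?_, Or.inr hout⟩
    by_cases h3 : 3 ≤ (inq S k e e' k' s).card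
    · exact Or.inl (hC.n1 h hS W hΔ fun _ => h3)
    · cases hr : S.real e
      · exact Or.inl (hC.n1 h hS W hΔ fun h0 => by
          rw [hr] at h0
          exact absurd h0 (by decide))
      · have := hC.hF.two_card hC.two
        have h4 : (inq S k e e' k' s).card = 2 := by omega
        exact Or.inr ⟨h4, hC.hF.pair_facts h hS W h4⟩

/-- THE REGION of a minimal counterexample -/
theorem MC.dsh (hΔ : Δ ≤ 6) (h : MC Δ S L w) (hS : IsStar S) : ∃ U T, Dsh S U T :=
  (h.rg hΔ).exists_dsh hS h.ok.toWf (by omega)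

end Pool.FC7
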