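import Pool.Agent.FC7.DlD

/-! # The gap corners next to the neighbours outside of the region

A neighbour `v` outside of the region costs 1, minus 1/4 if another neighbour outside is next to it,
plus half of the cost of the gap corners (1/4 or 2/5) on both sides of the edge to `v`. -/

open Finset

set_option linter.unusedSectionVars false

namespace Pool.FC7

open Pool.FC6 Pool.FC6.St

variable {D V : Type} [Fintype D] [DecidableEq V] {S : St D V} {L : D → Bool} {w : D → ℕ} {Δ : ℕ}

/-- ten times the cost of the gap corner with the virtual dart `t`, `0` for real darts -/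
noncomputable def sg (S : St D V) (t : D) : ℕ := if S.real t = false then gh S (S.M.α t) else 0

/-- the sum of the costs of the gap corners at `x` on both sides of the edges to `T` -/
noncomputable def sdg (S : St D V) (T : Finset V) (x : V) : ℕ :=
  ∑ z, if S.M.v z = x ∧ (S.real z = true ∧ S.M.v (S.M.α z) ∈ T) then
    sg S (S.M.σ z) + sg S (S.M.α (S.M.φ (S.M.φ z))) else 0

theorem σ_eq (z : D) : S.M.σ z = S.M.φ (S.M.α z) := rfl

theorem σ_back (z : D) : S.M.σ (S.M.α (S.M.φ (S.M.φ z))) = z := by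
  rw [σ_eq, S.M.αα, S.M.φ3]

theorem back_σ (z : D) : S.M.α (S.M.φ (S.M.φ (S.M.σ z))) = z := by
  rw [σ_eq, S.M.φ3, S.M.αα]

/-- the two gap corners of a face with the real edge `z` have the same cost -/
theorem sg_face (h : Rg S) (hS : IsStar S) (W : Wf Δ S L w) {z : D} (hz : S.real z = true) :
    sg S (S.M.φ z) = sg S (S.M.α (S.M.φ (S.M.φ z))) := by
  have hv : S.M.v (S.M.α (S.M.φ z)) = S.M.v (S.M.α (S.M.α (S.M.φ (S.M.φ z)))) := by
    rw [S.M.αα, ← S.M.vφ]
  unfold sg
  rw [h.real_α]
  cases hr : S.real (S.M.φ z)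
  · rcases hS.virt W hr with ⟨h1, h2, -, -⟩ | ⟨h1, h2, h3, -⟩
    · rw [S.M.φ3, hz] at h2
      exact absurd h2 (by decide)
    · rw [h2, if_pos rfl, if_pos rfl, gh_congr hv]
  · cases hr2 : S.real (S.M.φ (S.M.φ z))
    · rcases hS.virt W hr2 with ⟨h1, h2, -, -⟩ | ⟨h1, h2, -, -⟩
      · rw [S.M.φ3, hr] at h2
        exact absurd h2 (by decide)
      · rw [S.M.φ3, hz] at h2
        exact absurd h2 (by decide)
    · rw [if_neg (by decide), if_neg (by decide)]

section

variable {n : ℕ} [NeZero n] {c : Fin n → D} {s : D → Bool}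

/-- real darts from the curve to the inside -/
def ZG (S : St D V) (c : Fin n → D) (s : D → Bool) (T : Finset V) (z : D) : Prop :=
  S.M.v z ∈ T ∧ S.real z = true ∧ S.M.v (S.M.α z) ∈ ing S c s

/-- darts of `ZG` with a face of the curve on the left -/
def BA (S : St D V) (c : Fin n → D) (s : D → Bool) (T : Finset V) (z : D) : Prop :=
  ZG S c s T z ∧ S.real (S.M.σ z) = false ∧ ¬ S.Off c (S.M.α (S.M.σ z))

/-- darts of `ZG` with a face of the curve on the right -/
def BB (S : St D V) (c : Fin n → D) (s : D → Bool) (T : Finset V) (z : D) : Prop :=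
  ZG S c s T z ∧ S.real (S.M.φ z) = false ∧ ¬ S.Off c (S.M.φ (S.M.φ z))

open Classical in
/-- the gap corners on both sides of the edges to the outside -/
theorem Rg.side_sum (h : Rg S) (hS : IsStar S) (W : Wf Δ S L w) (hc : S.M.Curve c)
    (hs : S.M.SideOf c s) {T : Finset V}
    (hT : ∀ z, S.M.v z ∈ T ↔ S.M.v z ∈ S.A ∧ ¬ S.Off c z) :
    ∑ x ∈ ing S c s, sdg S T x +
      5 * (Finset.univ.filter fun j => PG S c s (S.M.φ (c j))).card +
      5 * (Finset.univ.filter fun j => PG S c s (S.M.α (S.M.φ (S.M.φ (c j))))).card ≤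
    2 * (∑ z, if PG S c s z then gh S (S.M.α z) else 0) +
      8 * (Finset.univ.filter fun z => BA S c s T z).card +
      8 * (Finset.univ.filter fun z => BB S c s T z).card := by
  have hU := fun z => mem_ing (z := z) hc hs
  have hside : ∀ z, S.Off c z → s (S.M.α z) = s z := fun z hz => off_side hc hs hz
  have sin : ∀ z, ZG S c s T z → s z = true := by
    rintro z ⟨-, -, h3⟩
    obtain ⟨_, b2, b3⟩ := (hU _).1 h3
    have := hside _ b2
    rw [S.M.αα, b3] at this
    exact this
  -- the sum over the darts from the curve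
  have e1 : ∑ x ∈ ing S c s, sdg S T x =
      ∑ z, if ZG S c s T z then sg S (S.M.σ z) + sg S (S.M.φ z) else 0 := by
    unfold sdg
    rw [sum_at' S _ (fun z => S.real z = true ∧ S.M.v (S.M.α z) ∈ T),
      ← sum_α_nat S.M (fun z => if S.M.v z ∈ ing S c s ∧ (S.real z = true ∧
        S.M.v (S.M.α z) ∈ T) then sg S (S.M.σ z) + sg S (S.M.α (S.M.φ (S.M.φ z))) else 0)]
    refine Finset.sum_congr rfl fun z _ => ?_
    rw [S.M.αα, h.real_α]
    by_cases hz : ZG S c s T z
    · obtain ⟨h1, h2, h3⟩ := hz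
      rw [if_pos ⟨h3, h2, h1⟩, if_pos (c := ZG S c s T z) ⟨h1, h2, h3⟩, add_comm,
        ← sg_face h hS W (z := S.M.α z) (by rw [h.real_α]; exact h2), σ_eq (S.M.α z), S.M.αα]
      rfl
    · rw [if_neg hz, if_neg]
      rintro ⟨a1, a2, a3⟩
      exact hz ⟨a3, a2, a1⟩
  -- the left side
  have e2 : (∑ z, if ZG S c s T z then sg S (S.M.σ z) else 0) ≤
      (∑ y, if PG S c s y ∧ ZG S c s T (S.M.α (S.M.φ (S.M.φ y))) then gh S (S.M.α y) else 0) +
      8 * (Finset.univ.filter fun z => BA S c s T z).card := by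
    rw [← sum_σ_nat S.M (fun y => if PG S c s y ∧ ZG S c s T (S.M.α (S.M.φ (S.M.φ y)))
      then gh S (S.M.α y) else 0), Finset.card_filter, Finset.mul_sum, ← Finset.sum_add_distrib]
    refine Finset.sum_le_sum fun z _ => ?_
    show _ ≤ (if PG S c s (S.M.σ z) ∧ ZG S c s T (S.M.α (S.M.φ (S.M.φ (S.M.σ z)))) then
      gh S (S.M.α (S.M.σ z)) else 0) + _
    rw [back_σ]
    by_cases hz : ZG S c s T z
    · rw [if_pos hz]
      unfold sg
      by_cases hr : S.real (S.M.σ z) = false
      · rw [if_pos hr]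
        by_cases ho : S.Off c (S.M.α (S.M.σ z))
        · have hp : PG S c s (S.M.σ z) := by
            obtain ⟨a1, a2⟩ := (hT z).1 hz.1
            obtain ⟨b1, b2, b3⟩ := (hU _).1 hz.2.2
            refine ⟨hr, ?_, ?_, by rw [S.M.vσ]; exact a1, ho⟩
            · rw [σ_eq, hs.φ]; exact b3
            · intro h0
              exact a2 fun i => by rw [← S.M.vσ]; exact h0 i
          rw [if_pos ⟨hp, hz⟩]
          exact Nat.le_add_right _ _
        · rw [if_pos (c := BA S c s T z) ⟨hz, hr, ho⟩]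
          have := gh_le (S := S) (S.M.α (S.M.σ z))
          omega
      · rw [if_neg hr]
        exact Nat.zero_le _
    · rw [if_neg hz]
      exact Nat.zero_le _
  -- the right side
  have e3 : (∑ z, if ZG S c s T z then sg S (S.M.φ z) else 0) ≤
      (∑ y, if PG S c s y ∧ ZG S c s T (S.M.σ y) then gh S (S.M.α y) else 0) +
      8 * (Finset.univ.filter fun z => BB S c s T z).card := by
    have e4 : (∑ y, if PG S c s y ∧ ZG S c s T (S.M.σ y) then gh S (S.M.α y) else 0) =
        ∑ z, if PG S c s (S.M.α (S.M.φ (S.M.φ z))) ∧ ZG S c s T z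
          then gh S (S.M.φ (S.M.φ z)) else 0 := by
      rw [← sum_σ_nat S.M (fun z => if PG S c s (S.M.α (S.M.φ (S.M.φ z))) ∧ ZG S c s T z
          then gh S (S.M.φ (S.M.φ z)) else 0)]
      refine Finset.sum_congr rfl fun y _ => ?_
      have e0 : S.M.φ (S.M.φ (S.M.σ y)) = S.M.α y := by rw [σ_eq, S.M.φ3]
      show _ = if PG S c s (S.M.α (S.M.φ (S.M.φ (S.M.σ y)))) ∧ ZG S c s T (S.M.σ y) then
        gh S (S.M.φ (S.M.φ (S.M.σ y))) else 0
      rw [e0, S.M.αα]
    rw [e4, Finset.card_filter, Finset.mul_sum, ← Finset.sum_add_distrib]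
    refine Finset.sum_le_sum fun z _ => ?_
    by_cases hz : ZG S c s T z
    · rw [if_pos hz]
      unfold sg
      by_cases hr : S.real (S.M.φ z) = false
      · rw [if_pos hr]
        have hg : gh S (S.M.α (S.M.φ z)) = gh S (S.M.φ (S.M.φ z)) := gh_congr (by rw [← S.M.vφ])
        have hr2 : S.real (S.M.φ (S.M.φ z)) = false := by
          rcases hS.virt W hr with ⟨-, h2, -, -⟩ | ⟨-, h2, -, -⟩
          · rw [S.M.φ3, hz.2.1] at h2
            exact absurd h2 (by decide)
          · exact h2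
        by_cases ho : S.Off c (S.M.φ (S.M.φ z))
        · have hv : S.M.v (S.M.α (S.M.φ (S.M.φ z))) = S.M.v z := by rw [← S.M.vφ, S.M.φ3]
          have hp : PG S c s (S.M.α (S.M.φ (S.M.φ z))) := by
            obtain ⟨a1, a2⟩ := (hT z).1 hz.1
            refine ⟨by rw [h.real_α]; exact hr2, ?_, ?_, by rw [hv]; exact a1,
              by rw [S.M.αα]; exact ho⟩
            · rw [hside _ ho, hs.φ, hs.φ]
              exact sin z hz
            · intro h0
              exact a2 fun i => by rw [← hv]; exact h0 i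
          rw [if_pos ⟨hp, hz⟩, hg]
          exact Nat.le_add_right _ _
        · rw [if_pos (c := BB S c s T z) ⟨hz, hr, ho⟩]
          have := gh_le (S := S) (S.M.α (S.M.φ z))
          omega
      · rw [if_neg hr]
        exact Nat.zero_le _
    · rw [if_neg hz]
      exact Nat.zero_le _
  -- the darts next to the curve
  have hcinj : ∀ i j, c i = c j → i = j := fun i j hij => hc.inj _ _ (by rw [hij])
  have e5 : 5 * (Finset.univ.filter fun j => PG S c s (S.M.φ (c j))).card ≤
      ∑ y, if PG S c s y ∧ ∃ j, y = S.M.φ (c j) then 5 else 0 := by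
    have h1 : (Finset.univ.filter fun j => PG S c s (S.M.φ (c j))).card ≤
        (Finset.univ.filter fun y => PG S c s y ∧ ∃ j, y = S.M.φ (c j)).card := by
      refine Finset.card_le_card_of_injOn (fun j => S.M.φ (c j)) (fun j hj => ?_)
        (fun i _ j _ hij => hcinj _ _ (S.M.φinj hij))
      rw [Finset.mem_coe, Finset.mem_filter] at hj ⊢
      exact ⟨Finset.mem_univ _, hj.2, j, rfl⟩
    rw [Finset.card_filter (fun y => PG S c s y ∧ ∃ j, y = S.M.φ (c j))] at h1
    refine (Nat.mul_le_mul_left 5 h1).trans ?_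
    rw [Finset.mul_sum]
    refine Finset.sum_le_sum fun y _ => ?_
    split_ifs <;> simp
  have e6 : 5 * (Finset.univ.filter fun j => PG S c s (S.M.α (S.M.φ (S.M.φ (c j))))).card ≤
      ∑ y, if PG S c s y ∧ ∃ j, y = S.M.α (S.M.φ (S.M.φ (c j))) then 5 else 0 := by
    have h1 : (Finset.univ.filter fun j => PG S c s (S.M.α (S.M.φ (S.M.φ (c j))))).card ≤
        (Finset.univ.filter fun y => PG S c s y ∧
          ∃ j, y = S.M.α (S.M.φ (S.M.φ (c j)))).card := by
      refine Finset.card_le_card_of_injOn (fun j => S.M.α (S.M.φ (S.M.φ (c j)))) (fun j hj => ?_)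
        (fun i _ j _ hij => hcinj _ _ (S.M.φinj (S.M.φinj (S.M.αinj hij))))
      rw [Finset.mem_coe, Finset.mem_filter] at hj ⊢
      exact ⟨Finset.mem_univ _, hj.2, j, rfl⟩
    rw [Finset.card_filter (fun y => PG S c s y ∧ ∃ j, y = S.M.α (S.M.φ (S.M.φ (c j))))] at h1
    refine (Nat.mul_le_mul_left 5 h1).trans ?_
    rw [Finset.mul_sum]
    refine Finset.sum_le_sum fun y _ => ?_
    split_ifs <;> simp
  -- each virtual dart has two sides
  have e7 : (∑ y, if PG S c s y ∧ ZG S c s T (S.M.α (S.M.φ (S.M.φ y)))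
        then gh S (S.M.α y) else 0) +
      (∑ y, if PG S c s y ∧ ZG S c s T (S.M.σ y) then gh S (S.M.α y) else 0) +
      (∑ y, if PG S c s y ∧ ∃ j, y = S.M.φ (c j) then 5 else 0) +
      (∑ y, if PG S c s y ∧ ∃ j, y = S.M.α (S.M.φ (S.M.φ (c j))) then 5 else 0) ≤
      2 * ∑ y, if PG S c s y then gh S (S.M.α y) else 0 := by
    rw [← Finset.sum_add_distrib, ← Finset.sum_add_distrib, ← Finset.sum_add_distrib,
      Finset.mul_sum]
    refine Finset.sum_le_sum fun y _ => ?_
    by_cases hp : PG S c s y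
    · have h5 := le_gh (S := S) (S.M.α y)
      have k1 : ¬ (ZG S c s T (S.M.α (S.M.φ (S.M.φ y))) ∧ ∃ j, y = S.M.φ (c j)) := by
        rintro ⟨a1, j, rfl⟩
        rw [S.M.φ3] at a1
        have := ((hU _).1 a1.2.2).2.1
        rw [S.M.αα] at this
        exact this j rfl
      have k2 : ¬ (ZG S c s T (S.M.σ y) ∧ ∃ j, y = S.M.α (S.M.φ (S.M.φ (c j)))) := by
        rintro ⟨a1, j, rfl⟩
        rw [σ_back] at a1
        exact ((hU _).1 a1.2.2).2.1 (j + 1) (hc.nx j)
      rw [if_pos (c := PG S c s y) hp]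
      have r1 : (if PG S c s y ∧ ZG S c s T (S.M.α (S.M.φ (S.M.φ y)))
          then gh S (S.M.α y) else 0) + (if PG S c s y ∧ ∃ j, y = S.M.φ (c j) then 5 else 0) ≤
          gh S (S.M.α y) := by
        by_cases q1 : ZG S c s T (S.M.α (S.M.φ (S.M.φ y)))
        · rw [if_pos ⟨hp, q1⟩, if_neg (fun h0 => k1 ⟨q1, h0.2⟩)]
          omega
        · rw [if_neg (fun h0 => q1 h0.2)]
          split_ifs <;> omega
      have r2 : (if PG S c s y ∧ ZG S c s T (S.M.σ y) then gh S (S.M.α y) else 0) +
          (if PG S c s y ∧ ∃ j, y = S.M.α (S.M.φ (S.M.φ (c j))) then 5 else 0) ≤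
          gh S (S.M.α y) := by
        by_cases q1 : ZG S c s T (S.M.σ y)
        · rw [if_pos ⟨hp, q1⟩, if_neg (fun h0 => k2 ⟨q1, h0.2⟩)]
          omega
        · rw [if_neg (fun h0 => q1 h0.2)]
          split_ifs <;> omega
      omega
    · rw [if_neg (fun h0 => hp h0.1), if_neg (fun h0 => hp h0.1), if_neg (fun h0 => hp h0.1),
        if_neg (fun h0 => hp h0.1)]
      exact Nat.zero_le _
  have e8 : (∑ z, if ZG S c s T z then sg S (S.M.σ z) + sg S (S.M.φ z) else 0) =
      (∑ z, if ZG S c s T z then sg S (S.M.σ z) else 0) +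
      ∑ z, if ZG S c s T z then sg S (S.M.φ z) else 0 := by
    rw [← Finset.sum_add_distrib]
    refine Finset.sum_congr rfl fun z _ => ?_
    split_ifs <;> simp
  rw [e1, e8]
  omega

end

end Pool.FC7
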