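import Pool.Agent.FC7.DmA

/-! # The price of the neighbours outside of the region

For a chordless closed curve of length four: `20 * null + gap corners next to them` is at most the
charge inside plus ten for every vertex with two neighbours outside. -/

open Finset

set_option linter.unusedSectionVars false

namespace Pool.FC7

open Pool.FC6 Pool.FC6.St

variable {D V : Type} [Fintype D] [DecidableEq V] {S : St D V} {L : D → Bool} {w : D → ℕ} {Δ : ℕ}

theorem rdeg_le_nd (z : D) : S.rdeg (S.M.v z) ≤ S.nd z := by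
  unfold St.rdeg St.nd
  rw [Finset.card_filter]
  refine Finset.sum_le_sum fun x _ => ?_
  by_cases h1 : S.M.v x = S.M.v z
  · rw [if_pos h1]
    split_ifs <;> norm_num
  · rw [if_neg h1, if_neg fun h2 => h1 h2.1]

/-- alive vertices have at least four darts -/
theorem Rg.nd4 (h : Rg S) (W : Wf Δ S L w) {z : D} (hz : S.M.v z ∈ S.A) : 4 ≤ S.nd z :=
  (h.deg4 hz (W.ne _)).trans (rdeg_le_nd z)

theorem σ3_ne (h : Rg S) (W : Wf Δ S L w) {z : D} (hz : S.M.v z ∈ S.A) :
    S.M.σ (S.M.σ (S.M.σ z)) ≠ z := by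
  intro h0
  have h4 := h.nd4 W hz
  have := S.σ_inj_lt z (i := 3) (j := 0) (by omega) (by omega) h0
  omega

theorem σ2_ne (h : Rg S) (W : Wf Δ S L w) {z : D} (hz : S.M.v z ∈ S.A) :
    S.M.σ (S.M.σ z) ≠ z := by
  intro h0
  have h4 := h.nd4 W hz
  have := S.σ_inj_lt z (i := 2) (j := 0) (by omega) (by omega) h0
  omega

section

variable {n : ℕ} [NeZero n] {c : Fin n → D} {s : D → Bool}

open Classical in
/-- the gap corners at the faces of the curve -/
theorem N1.bad_le {T : Finset V} (hN : N1 S (ing S c s) T) (h : Rg S) (hS : IsStar S)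
    (W : Wf Δ S L w) (hTA : T ⊆ S.A) :
    (Finset.univ.filter fun z => BA S c s T z).card +
      (Finset.univ.filter fun z => BB S c s T z).card ≤ ∑ z, if EG S c s z then 1 else 0 := by
  have hUA : ing S c s ⊆ S.A := Finset.filter_subset _ _
  have e1 : (Finset.univ.filter fun z => BA S c s T z).card =
      ((Finset.univ.filter fun z => BA S c s T z).image
        fun z => S.M.φ (S.M.φ (S.M.α z))).card :=
    (Finset.card_image_of_injective _ fun a b hab =>
      S.M.αinj (S.M.φinj (S.M.φinj hab))).symm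
  have e2 : (Finset.univ.filter fun z => BB S c s T z).card =
      ((Finset.univ.filter fun z => BB S c s T z).image fun z => S.M.α (S.M.φ z)).card :=
    (Finset.card_image_of_injective _ fun a b hab => S.M.φinj (S.M.αinj hab)).symm
  rw [e1, e2, ← Finset.card_union_of_disjoint, ← Finset.card_filter]
  · refine Finset.card_le_card fun y hy => ?_
    rw [Finset.mem_filter]
    refine ⟨Finset.mem_univ _, ?_⟩
    rcases Finset.mem_union.1 hy with hy | hy
    · obtain ⟨z, hz, rfl⟩ := Finset.mem_image.1 hy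
      obtain ⟨⟨z1, z2, z3⟩, z4, z5⟩ := (Finset.mem_filter.1 hz).2
      have hv : S.M.v (S.M.φ (S.M.φ (S.M.α z))) = S.M.v (S.M.α (S.M.σ z)) := by
        rw [S.M.vφ]; rfl
      have hA : S.M.v (S.M.α (S.M.σ z)) ∉ S.A :=
        hS.vhead W (by rw [S.M.vσ]; exact hTA z1) z4
      refine ⟨fun h0 => z5 fun i => ?_, ?_, ?_⟩
      · rw [← hv]; exact h0 i
      · rw [hv]; exact hA
      · rw [← S.M.vφ, S.M.φ3]; exact z3
    · obtain ⟨z, hz, rfl⟩ := Finset.mem_image.1 hy
      obtain ⟨⟨z1, z2, z3⟩, z4, z5⟩ := (Finset.mem_filter.1 hz).2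
      have hv : S.M.v (S.M.α (S.M.φ z)) = S.M.v (S.M.φ (S.M.φ z)) := by
        rw [← S.M.vφ]
      have hA : S.M.v (S.M.α (S.M.φ z)) ∉ S.A :=
        hS.vhead W (by rw [S.M.vφ]; exact hUA z3) z4
      refine ⟨fun h0 => z5 fun i => ?_, hA, ?_⟩
      · rw [← hv]; exact h0 i
      · rw [S.M.αα, S.M.vφ]; exact z3
  · rw [Finset.disjoint_left]
    intro y h1 h2
    obtain ⟨z1, k1, rfl⟩ := Finset.mem_image.1 h1
    obtain ⟨z2, k2, h12⟩ := Finset.mem_image.1 h2
    obtain ⟨⟨a1, a2, a3⟩, a4, a5⟩ := (Finset.mem_filter.1 k1).2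
    obtain ⟨⟨b1, b2, b3⟩, b4, b5⟩ := (Finset.mem_filter.1 k2).2
    -- `α z1 = σ (σ (α z2))`
    have q0 : S.M.σ (S.M.α z2) = S.M.φ z2 := by rw [σ_eq, S.M.αα]
    have q1 : S.M.σ (S.M.σ (S.M.α z2)) = S.M.α z1 := by
      rw [q0, ← S.M.αα (S.M.φ z2), h12, σ_back]
    have hv : S.M.v (S.M.α z2) = S.M.v (S.M.α z1) := by rw [← q1, S.M.vσ, S.M.vσ]
    have hA : S.M.v (S.M.α z2) ∈ S.A := hUA b3
    have ne : S.M.α z1 ≠ S.M.α z2 := by
      intro h0
      rw [← q1] at h0
      exact σ2_ne h W hA h0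
    rcases hN (S.M.α z1) (S.M.α z2) a3 hv ne (by rw [S.M.αα]; exact a1)
      (by rw [S.M.αα]; exact b1) with h3 | h3
    · rw [← q1] at h3
      exact σ3_ne h W hA h3.symm
    · rw [q0] at h3
      rw [← h3, h.real_α] at b4
      rw [a2] at b4
      exact absurd b4 (by decide)

/-- the third vertex of the inner face at a real edge of the curve -/
theorem apex_or (h : Rg S) (hc : S.M.Curve c)
    (hs : S.M.SideOf c s) {j : Fin n} (hr : S.real (c j) = true)
    (ho : S.Off c (S.M.φ (S.M.φ (c j)))) :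
    S.M.v (S.M.φ (S.M.φ (c j))) ∈ ing S c s ∨
      (PG S c s (S.M.φ (c j)) ∧ PG S c s (S.M.α (S.M.φ (S.M.φ (c j))))) := by
  have s2 : s (S.M.φ (S.M.φ (c j))) = true := by rw [hs.φ, hs.φ]; exact hs.t j
  by_cases hA : S.M.v (S.M.φ (S.M.φ (c j))) ∈ S.A
  · exact Or.inl ((mem_ing hc hs).2 ⟨hA, ho, s2⟩)
  · right
    have r1 : S.real (S.M.φ (c j)) = false := by
      cases h0 : S.real (S.M.φ (c j))
      · rfl
      · have := h.real_A (S.M.α (S.M.φ (c j))) (by rw [h.real_α]; exact h0)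
        rw [← S.M.vφ] at this
        exact absurd this hA
    have r2 : S.real (S.M.φ (S.M.φ (c j))) = false := by
      cases h0 : S.real (S.M.φ (S.M.φ (c j)))
      · rfl
      · exact absurd (h.real_A _ h0) hA
    have v1 : S.M.v (S.M.φ (c j)) = S.M.v (c (j + 1)) := by rw [S.M.vφ, hc.nx]
    have v2 : S.M.v (S.M.α (S.M.φ (S.M.φ (c j)))) = S.M.v (c j) := by rw [← S.M.vφ, S.M.φ3]
    refine ⟨⟨r1, by rw [hs.φ]; exact hs.t j, fun h0 => h0 (j + 1) v1, ?_, fun i => ?_⟩,
      ⟨by rw [h.real_α]; exact r2, ?_, fun h0 => h0 j v2, ?_, fun i => ?_⟩⟩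
    · rw [S.M.vφ]
      exact h.real_A _ (by rw [h.real_α]; exact hr)
    · rw [← S.M.vφ]; exact ho i
    · rw [off_side hc hs ho]; exact s2
    · rw [v2]; exact h.real_A _ hr
    · rw [S.M.αα]; exact ho i

end

/-- the number of the neighbours outside -/
theorem nul_card (T : Finset V) (x : V) : nul S T x = (Finset.univ.filter fun z => S.M.v z = x ∧
    (S.real z = true ∧ S.M.v (S.M.α z) ∈ T)).card := by
  rw [Finset.card_filter]
  rfl

theorem Fin4_ne (i : Fin 4) : i + 1 + 1 ≠ i := by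
  fin_cases i <;> decide

section

variable {c : Fin 4 → D} {s : D → Bool} {T : Finset V}

/-- the inner faces at real edges of the curve have different third vertices -/
theorem N1.two_le (hN : N1 S (ing S c s) T) (h : Rg S) (hS : IsStar S) (W : Wf Δ S L w)
    (hc : S.M.Curve c) (hT : ∀ z, S.M.v z ∈ T ↔ S.M.v z ∈ S.A ∧ ¬ S.Off c z)
    {J : Finset (Fin 4)} (hJ : ∀ j ∈ J, S.real (c j) = true ∧
      S.M.v (S.M.φ (S.M.φ (c j))) ∈ ing S c s) :
    J.card ≤ ((ing S c s).filter fun x => 2 ≤ nul S T x).card := by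
  classical
  have hUA : ing S c s ⊆ S.A := Finset.filter_subset _ _
  -- the two darts
  have va : ∀ j, S.M.v (S.M.α (S.M.φ (S.M.φ (c j)))) = S.M.v (c j) := fun j => by
    rw [← S.M.vφ, S.M.φ3]
  have vb : ∀ j, S.M.v (S.M.α (S.M.α (S.M.φ (c j)))) = S.M.v (c (j + 1)) := fun j => by
    rw [S.M.αα, S.M.vφ, hc.nx]
  have vb' : ∀ j, S.M.v (S.M.α (S.M.φ (c j))) = S.M.v (S.M.φ (S.M.φ (c j))) := fun j => by
    rw [← S.M.vφ]
  have ha : ∀ j ∈ J, S.M.φ (S.M.φ (c j)) ∈ Finset.univ.filter fun z =>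
      S.M.v z = S.M.v (S.M.φ (S.M.φ (c j))) ∧ (S.real z = true ∧ S.M.v (S.M.α z) ∈ T) := by
    intro j hj
    obtain ⟨h1, h2⟩ := hJ j hj
    have h3 : S.M.v (S.M.α (S.M.φ (S.M.φ (c j)))) ∈ T := by
      rw [va]
      exact (hT _).2 ⟨h.real_A _ h1, fun h0 => h0 j rfl⟩
    exact Finset.mem_filter.2 ⟨Finset.mem_univ _, rfl,
      hS.real_of2 W (hUA h2) ((hT _).1 h3).1, h3⟩
  have hb : ∀ j ∈ J, S.M.α (S.M.φ (c j)) ∈ Finset.univ.filter fun z =>
      S.M.v z = S.M.v (S.M.φ (S.M.φ (c j))) ∧ (S.real z = true ∧ S.M.v (S.M.α z) ∈ T) := by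
    intro j hj
    obtain ⟨h1, h2⟩ := hJ j hj
    have h3 : S.M.v (S.M.α (S.M.α (S.M.φ (c j)))) ∈ T := by
      rw [vb, ← hc.nx]
      exact (hT _).2 ⟨h.real_A _ (by rw [h.real_α]; exact h1), fun h0 => h0 (j + 1) (hc.nx j)⟩
    exact Finset.mem_filter.2 ⟨Finset.mem_univ _, vb' j,
      hS.real_of2 W (by rw [vb' j]; exact hUA h2) ((hT _).1 h3).1, h3⟩
  have hab : ∀ j, S.M.φ (S.M.φ (c j)) ≠ S.M.α (S.M.φ (c j)) := by
    intro j h0
    have h1 : S.M.v (c j) = S.M.v (c (j + 1)) := by rw [← va, h0, vb]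
    have := hc.inj _ _ h1
    revert this
    clear h1 h0
    fin_cases j <;> decide
  refine Finset.card_le_card_of_injOn (fun j => S.M.v (S.M.φ (S.M.φ (c j)))) (fun j hj => ?_)
    (fun i hi j hj hij => ?_)
  · have hj' := Finset.mem_coe.1 hj
    rw [Finset.mem_coe, Finset.mem_filter]
    refine ⟨(hJ j hj').2, ?_⟩
    rw [nul_card]
    have := Finset.card_le_card (s := {S.M.φ (S.M.φ (c j)), S.M.α (S.M.φ (c j))})
      (t := Finset.univ.filter fun z => S.M.v z = S.M.v (S.M.φ (S.M.φ (c j))) ∧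
        (S.real z = true ∧ S.M.v (S.M.α z) ∈ T)) (fun z hz => by
          rcases Finset.mem_insert.1 hz with rfl | hz
          · exact ha j hj'
          · rw [Finset.mem_singleton.1 hz]
            exact hb j hj')
    rw [Finset.card_pair (hab j)] at this
    exact this
  · have hi' := Finset.mem_coe.1 hi
    have hj' := Finset.mem_coe.1 hj
    have hij' : S.M.v (S.M.φ (S.M.φ (c i))) = S.M.v (S.M.φ (S.M.φ (c j))) := hij
    have h2 := hN.nul_le h W hUA (hJ i hi').2
    rw [nul_card] at h2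
    -- a third dart is one of the two
    have key : ∀ z, z ∈ (Finset.univ.filter fun z => S.M.v z = S.M.v (S.M.φ (S.M.φ (c j))) ∧
        (S.real z = true ∧ S.M.v (S.M.α z) ∈ T)) → z = S.M.φ (S.M.φ (c i)) ∨
        z = S.M.α (S.M.φ (c i)) := by
      intro z hz
      by_contra hc3
      push Not at hc3
      have := Finset.card_le_card (s := {z, S.M.φ (S.M.φ (c i)), S.M.α (S.M.φ (c i))})
        (t := Finset.univ.filter fun z => S.M.v z = S.M.v (S.M.φ (S.M.φ (c i))) ∧
          (S.real z = true ∧ S.M.v (S.M.α z) ∈ T)) (fun y hy => by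
            simp only [Finset.mem_insert, Finset.mem_singleton] at hy
            rcases hy with rfl | rfl | rfl
            · rw [hij']; exact hz
            · exact ha i hi'
            · exact hb i hi')
      rw [Finset.card_insert_of_notMem (by
        simp only [Finset.mem_insert, Finset.mem_singleton, not_or]
        exact hc3), Finset.card_pair (hab i)] at this
      omega
    rcases key _ (ha j hj') with h3 | h3
    · exact hc.inj _ _ (by rw [← va, ← va, h3])
    · rcases key _ (hb j hj') with h4 | h4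
      · have h5 : S.M.v (c j) = S.M.v (c (i + 1)) := by rw [← va, h3, vb]
        have h6 : S.M.v (c (j + 1)) = S.M.v (c i) := by rw [← vb, h4, va]
        have h7 := hc.inj _ _ h5
        have h8 := hc.inj _ _ h6
        rw [h7] at h8
        exact absurd h8 (Fin4_ne i)
      · have h5 : S.M.v (c (j + 1)) = S.M.v (c (i + 1)) := by rw [← vb, h4, vb]
        exact (add_right_cancel (hc.inj _ _ h5)).symm

open Classical in
/-- THE COUNT for a curve of length four with the set `J` of edges -/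
theorem N1.cnt4 (hN : N1 S (ing S c s) T) (h : Rg S) (hS : IsStar S) (W : Wf Δ S L w)
    (hc : S.M.Curve c) (hs : S.M.SideOf c s)
    (hT : ∀ z, S.M.v z ∈ T ↔ S.M.v z ∈ S.A ∧ ¬ S.Off c z) (hTA : T ⊆ S.A)
    (hE : (∑ z, if s z = true then 1 else 0) ≤ 6 * ((Finset.univ.image S.M.v) \
      ((Finset.univ.filter fun z => s z = false).image S.M.v)).card + 6)
    {J : Finset (Fin 4)} (hJ : ∀ j ∈ J, S.real (c j) = true ∧ S.Off c (S.M.φ (S.M.φ (c j)))) :
    20 * ∑ x ∈ ing S c s, S.rdeg x + 2 * ∑ x ∈ ing S c s, gdeg S x +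
      20 * ∑ x ∈ ing S c s, nul S T x + ∑ x ∈ ing S c s, sdg S T x + 10 * J.card +
      16 * (∑ z, if EG S c s z then 1 else 0) ≤ 120 * (ing S c s).card + 40 +
      10 * ((ing S c s).filter fun x => 2 ≤ nul S T x).card := by
  have h1 := h.countg hS W hc hs hT hE
  have h2 := h.side_sum hS W hc hs hT
  have h3 := hN.bad_le h hS W hTA
  have h4 := hN.two_le h hS W hc hT
    (J := J.filter fun j => S.M.v (S.M.φ (S.M.φ (c j))) ∈ ing S c s) (fun j hj =>
      ⟨(hJ j (Finset.mem_filter.1 hj).1).1, (Finset.mem_filter.1 hj).2⟩)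
  have h5 : (J.filter fun j => ¬ S.M.v (S.M.φ (S.M.φ (c j))) ∈ ing S c s).card ≤
      (Finset.univ.filter fun j => PG S c s (S.M.φ (c j))).card := by
    refine Finset.card_le_card fun j hj => ?_
    obtain ⟨a1, a2⟩ := Finset.mem_filter.1 hj
    obtain ⟨b1, b2⟩ := hJ j a1
    exact Finset.mem_filter.2 ⟨Finset.mem_univ _, ((apex_or h hc hs b1 b2).resolve_left a2).1⟩
  have h6 : (J.filter fun j => ¬ S.M.v (S.M.φ (S.M.φ (c j))) ∈ ing S c s).card ≤
      (Finset.univ.filter fun j => PG S c s (S.M.α (S.M.φ (S.M.φ (c j))))).card := by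
    refine Finset.card_le_card fun j hj => ?_
    obtain ⟨a1, a2⟩ := Finset.mem_filter.1 hj
    obtain ⟨b1, b2⟩ := hJ j a1
    exact Finset.mem_filter.2 ⟨Finset.mem_univ _, ((apex_or h hc hs b1 b2).resolve_left a2).2⟩
  have h7 := Finset.card_filter_add_card_filter_not (s := J)
    (fun j => S.M.v (S.M.φ (S.M.φ (c j))) ∈ ing S c s)
  omega

end

end Pool.FC7
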