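import Pool.Agent.FC7.DmC

/-! # Closed curves of length four through one vertex of the region

`F41 S U`: a vertex of `U` on a chordless closed curve of length four with at least two alive vertices
on both sides has at most four darts. -/

open Finset

set_option linter.unusedSectionVars false

namespace Pool.FC7

open Pool.FC6 Pool.FC6.St

variable {D V : Type} [Fintype D] [DecidableEq V] {S : St D V} {L : D → Bool} {w : D → ℕ} {Δ : ℕ}

/-- no chordless closed curve of length four with two alive vertices on both sides has an inside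
strictly smaller than `U` -/
def Nog (S : St D V) (U : Finset V) : Prop :=
  ∀ k e e' k' s, IsF S k e e' k' s → TwoF S k e e' k' s → ¬ inq S k e e' k' s ⊂ U

/-- a vertex of `U` on a chordless closed curve of length four with two alive vertices on both sides
has at most four darts -/
def F41 (S : St D V) (U : V → Prop) : Prop :=
  ∀ k e e' k' s, IsF S k e e' k' s → TwoF S k e e' k' s →
    (U (S.M.v k) → S.nd k ≤ 4) ∧ (U (S.M.v (S.M.α k)) → S.nd (S.M.α k) ≤ 4)

section

variable {k e e' k' : D} {s : D → Bool}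

/-- a closed curve of length four without darts outside of another curve -/
theorem IsF.into1 {n : ℕ} [NeZero n] {c : Fin n → D} (hc : S.M.Curve c) {s0 : D → Bool}
    (hs0 : S.M.SideOf c s0) (hR : Rg S) (hF : IsF S k e e' k' s)
    (h0 : ∀ j, ¬ (s0 (![k, e, S.M.α e', S.M.α k'] j) = false ∧
      s0 (S.M.α (![k, e, S.M.α e', S.M.α k'] j)) = false)) :
    ∃ k1 e1 e1' k1' s1, IsF S k1 e1 e1' k1' s1 ∧
      (TwoF S k e e' k' s → TwoF S k1 e1 e1' k1' s1) ∧
      (∀ z, S.Off ![k1, e1, S.M.α e1', S.M.α k1'] z → S.Off ![k, e, S.M.α e', S.M.α k'] z) ∧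
      ∀ z, s0 z = false → s1 z = false := by
  have hs := hF.hs
  have hcon := side_const hc hs0 (s' := s) hs.φ (by
    intro z b1 b2
    refine hs.o z (fun i h1 => ?_) (fun i h1 => ?_)
    · rw [h1] at b1 b2
      exact h0 i ⟨b1, b2⟩
    · rw [h1] at b1 b2
      rw [S.M.αα] at b2
      exact h0 i ⟨b2, b1⟩)
  have h1 : s0 (S.M.α (c 0)) = false := hs0.f 0
  cases hb : s (S.M.α (c 0))
  · exact ⟨k, e, e', k', s, hF, fun h => h, fun _ h => h,
      fun z hz => by rw [hcon z _ hz h1, hb]⟩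
  · refine ⟨k', e', e, k, fun z => !s z, hF.symm hR.real_α, hF.two_symm,
      fun z hz => hF.off_symm.1 hz, fun z hz => ?_⟩
    show (!s z) = false
    rw [hcon z _ hz h1, hb]; rfl

/-- there are no chords -/
theorem IsF.nochord (hF : IsF S k e e' k' s) (h : Rg S) (hS : IsStar S) (W : Wf Δ S L w)
    (j : Fin 4) {r : D} (h1 : S.M.v r = S.M.v (![k, e, S.M.α e', S.M.α k'] j)) :
    S.M.v (S.M.α r) ≠ S.M.v (![k, e, S.M.α e', S.M.α k'] (j + 2)) := by
  have hyA : S.M.v (S.M.α k) ∈ S.A := h.real_A _ (by rw [h.real_α]; exact hF.hk)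
  have hvA : S.M.v (S.M.α k') ∈ S.A := h.real_A _ (by rw [h.real_α]; exact hF.hk')
  intro h2
  fin_cases j
  · have h1 : S.M.v r = S.M.v k := h1
    have h2 : S.M.v (S.M.α r) = S.M.v (S.M.α e') := h2
    exact hF.ht r h1 (h2.trans hF.hw.symm)
  · have h1 : S.M.v r = S.M.v e := h1
    have h2 : S.M.v (S.M.α r) = S.M.v (S.M.α k') := h2
    have h3 : S.M.v r = S.M.v (S.M.α k) := h1.trans hF.he
    exact hF.hn r (hS.real_of2 W (by rw [h3]; exact hyA) (by rw [h2]; exact hvA)) h3 h2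
  · have h1 : S.M.v r = S.M.v (S.M.α e') := h1
    have h2 : S.M.v (S.M.α r) = S.M.v k := h2
    exact hF.ht (S.M.α r) h2 (by rw [S.M.αα, h1, hF.hw])
  · have h1 : S.M.v r = S.M.v (S.M.α k') := h1
    have h2 : S.M.v (S.M.α r) = S.M.v e := h2
    have h3 : S.M.v (S.M.α r) = S.M.v (S.M.α k) := h2.trans hF.he
    exact hF.hn (S.M.α r) (hS.real_of2 W (by rw [h3]; exact hyA)
      (by rw [S.M.αα, h1]; exact hvA)) h3 (by rw [S.M.αα, h1])

/-- one end of each dart is alive -/
theorem IsF.end_alive (hF : IsF S k e e' k' s) (h : Rg S) (j : Fin 4) :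
    S.M.v (![k, e, S.M.α e', S.M.α k'] j) ∈ S.A ∨
      S.M.v (S.M.α (![k, e, S.M.α e', S.M.α k'] j)) ∈ S.A := by
  have hyA : S.M.v (S.M.α k) ∈ S.A := h.real_A _ (by rw [h.real_α]; exact hF.hk)
  have hvA : S.M.v (S.M.α k') ∈ S.A := h.real_A _ (by rw [h.real_α]; exact hF.hk')
  fin_cases j
  · exact Or.inl (h.real_A _ hF.hk)
  · left
    show S.M.v e ∈ S.A
    rw [hF.he]; exact hyA
  · right
    show S.M.v (S.M.α (S.M.α e')) ∈ S.A
    rw [S.M.αα, hF.he']; exact hvA
  · exact Or.inl hvA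

/-- THE TOUCHING CURVE: a curve through a vertex of a minimal region leaves the region at both
neighbours of this vertex -/
theorem IsF.touch {n : ℕ} [NeZero n] {c : Fin n → D} (hc : S.M.Curve c) {s0 : D → Bool}
    (hs0 : S.M.SideOf c s0) (hcf : CF S c s0) (h : Rg S)
    (hno : Nog S (S.A.filter fun x => S.sd c s0 true x = true))
    (hF : IsF S k e e' k' s) (hT : TwoF S k e e' k' s) {i : Fin 4}
    (hA : S.M.v (![k, e, S.M.α e', S.M.α k'] i) ∈ S.A)
    (ho : S.Off c (![k, e, S.M.α e', S.M.α k'] i))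
    (ht : s0 (![k, e, S.M.α e', S.M.α k'] i) = true) :
    ¬ S.Off c (![k, e, S.M.α e', S.M.α k'] (i + 1)) ∧
      ¬ S.Off c (![k, e, S.M.α e', S.M.α k'] (i + 3)) := by
  obtain ⟨K, hK⟩ : ∃ K : Fin 4 → D, K = ![k, e, S.M.α e', S.M.α k'] := ⟨_, rfl⟩
  have hal := hF.end_alive h
  have hcK := hF.hc
  have hinto := hF.into1 hc hs0 h
  rw [← hK] at hA ho ht hal hcK hinto ⊢
  have nx : ∀ j, S.M.v (S.M.α (K j)) = S.M.v (K (j + 1)) := hcK.nx
  -- sides at `y`
  have off_of : ∀ {x y}, S.M.v x = S.M.v y → S.Off c y → S.Off c x := fun h1 h2 i => by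
    rw [h1]; exact h2 i
  have v3 : S.M.v (S.M.α (K (i + 3))) = S.M.v (K i) := by
    rw [nx, add_assoc, show (3 : Fin 4) + 1 = 0 by decide, add_zero]
  have o3 : S.Off c (S.M.α (K (i + 3))) := off_of v3 ho
  have t3 : s0 (S.M.α (K (i + 3))) = true := by rw [← ht]; exact hs0.vert hc o3 v3
  have t3' : s0 (K (i + 3)) = true := by
    have := off_side hc hs0 o3
    rw [S.M.αα, t3] at this
    exact this
  have t0' : s0 (S.M.α (K i)) = true := by rw [off_side hc hs0 ho, ht]
  -- a neighbour off the curve is inside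
  have in1 : S.Off c (K (i + 1)) → s0 (K (i + 1)) = true ∧ s0 (S.M.α (K (i + 1))) = true := by
    intro h1
    have h2 : s0 (K (i + 1)) = true := by rw [hs0.vert hc h1 (nx i).symm, t0']
    exact ⟨h2, by rw [off_side hc hs0 h1, h2]⟩
  have v2 : S.M.v (S.M.α (K (i + 2))) = S.M.v (K (i + 3)) := by
    rw [nx, add_assoc]
    rfl
  have v1 : S.M.v (S.M.α (K (i + 1))) = S.M.v (K (i + 2)) := by
    rw [nx, add_assoc]
    rfl
  have in3 : S.Off c (K (i + 3)) → s0 (S.M.α (K (i + 2))) = true ∧ s0 (K (i + 2)) = true := by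
    intro h1
    have h3 : S.Off c (S.M.α (K (i + 2))) := off_of v2 h1
    have h2 : s0 (S.M.α (K (i + 2))) = true := by rw [hs0.vert hc h3 v2, t3']
    have h4 := off_side hc hs0 h3
    rw [S.M.αα, h2] at h4
    exact ⟨h2, h4⟩
  have cf : ∀ j, ¬ S.Off c (K j) → ¬ S.Off c (S.M.α (K j)) →
      ¬ (s0 (K j) = false ∧ s0 (S.M.α (K j)) = false) := by
    intro j h1 h2 h3
    rcases hal j with h4 | h4
    · exact hcf _ h4 h1 h2 h3
    · exact hcf _ h4 h2 (by rw [S.M.αα]; exact h1) ⟨h3.2, by rw [S.M.αα]; exact h3.1⟩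
  -- some dart is outside
  obtain ⟨j, j1, j2⟩ : ∃ j, s0 (K j) = false ∧ s0 (S.M.α (K j)) = false := by
    by_contra hn
    push Not at hn
    obtain ⟨k1, e1, e1', k1', s1, a1, a2, a3, a4⟩ := hinto fun j h1 => hn j h1.1 h1.2
    refine hno _ _ _ _ _ a1 (a2 hT) ⟨a1.sub hc hs0 a4, fun h1 => ?_⟩
    have h2 : S.M.v (K i) ∈ inq S k1 e1 e1' k1' s1 := by
      refine h1 (Finset.mem_filter.2 ⟨hA, ?_⟩)
      exact (sd_off hc hs0 ho).2 ht
    exact a3 _ (a1.mem_inq.1 h2).2.1 i rfl
  have hj : j = i + 1 ∨ j = i + 2 := by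
    have n0 : j ≠ i := fun h1 => by rw [h1, ht] at j1; exact absurd j1 (by decide)
    have n3 : j ≠ i + 3 := fun h1 => by rw [h1, t3'] at j1; exact absurd j1 (by decide)
    revert n0 n3
    clear * -
    revert i j
    decide
  rcases hj with rfl | rfl
  · have b1 : ¬ S.Off c (K (i + 1)) := fun h1 => by
      rw [(in1 h1).1] at j1
      exact absurd j1 (by decide)
    refine ⟨b1, fun h3 => ?_⟩
    have o2 : S.Off c (K (i + 2)) := by
      by_contra hn
      exact cf (i + 1) b1 (fun h1 => hn (off_of v1.symm h1)) ⟨j1, j2⟩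
    have : s0 (K (i + 2)) = false := by rw [hs0.vert hc o2 v1.symm, j2]
    rw [(in3 h3).2] at this
    exact absurd this (by decide)
  · have b3 : ¬ S.Off c (K (i + 3)) := fun h1 => by
      rw [(in3 h1).1] at j2
      exact absurd j2 (by decide)
    refine ⟨fun h1 => ?_, b3⟩
    have o2 : S.Off c (K (i + 2)) := by
      by_contra hn
      exact cf (i + 2) hn (fun h1 => b3 (off_of v2.symm h1)) ⟨j1, j2⟩
    have : s0 (S.M.α (K (i + 1))) = false := by
      rw [hs0.vert hc (off_of v1 o2) v1, j1]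
    rw [(in1 h1).2] at this
    exact absurd this (by decide)

end

end Pool.FC7
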