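import Pool.Agent.FC7.XFa

/-! # Vector checks: bits of words, lanes and rows -/

set_option linter.unusedSectionVars false

namespace Pool.FC7

namespace Ev

noncomputable def band (a b : Bool) : Bool := Bool.rec (motive := fun _ => Bool) false b a

noncomputable def bor (a b : Bool) : Bool := Bool.rec (motive := fun _ => Bool) b true a

noncomputable def lall {α : Type} (l : List α) (p : α → Bool) : Bool :=
  List.rec (motive := fun _ => Bool) true
    (fun a _ ih => Bool.rec (motive := fun _ => Bool) false ih (p a)) l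

noncomputable def llen {α : Type} (l : List α) : ℕ :=
  List.rec (motive := fun _ => ℕ) 0 (fun _ _ ih => Nat.succ ih) l

theorem band_eq : band = and := by funext a b; cases a <;> rfl

theorem bor_eq : bor = or := by funext a b; cases a <;> rfl

theorem lall_eq {α : Type} (l : List α) (p : α → Bool) : lall l p = l.all p := by
  induction l with
  | nil => rfl
  | cons a l ih =>
    show (Bool.rec (motive := fun _ => Bool) false (lall l p) (p a)) = _
    rw [ih, List.all_cons]
    cases p a <;> rfl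

def p2 (n : ℕ) : ℕ := Nat.pow 2 n
def mo (n : ℕ) : ℕ := Nat.sub (Nat.pow 2 n) 1

/-- `X` and not `Y` -/
def nT (X Y : ℕ) : ℕ := Nat.xor (Nat.land X Y) X

theorem tb_lor {a b i : ℕ} : (Nat.lor a b).testBit i = (a.testBit i || b.testBit i) :=
  Nat.testBit_or a b i

theorem tb_land {a b i : ℕ} : (Nat.land a b).testBit i = (a.testBit i && b.testBit i) :=
  Nat.testBit_and a b i

theorem tb_xor {a b i : ℕ} : (Nat.xor a b).testBit i = (a.testBit i != b.testBit i) := by
  have := Nat.testBit_xor a b i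
  show (a ^^^ b).testBit i = _
  rw [this]

theorem tb_shr {a n i : ℕ} : (Nat.shiftRight a n).testBit i = a.testBit (n + i) := by
  show (a >>> n).testBit i = _
  exact Nat.testBit_shiftRight a

theorem tb_shl {a n i : ℕ} : (Nat.shiftLeft a n).testBit i = (decide (n ≤ i) && a.testBit (i - n)) := by
  show (a <<< n).testBit i = _
  rw [Nat.testBit_shiftLeft]

theorem tb_p2 {n i : ℕ} : (p2 n).testBit i = decide (n = i) := Nat.testBit_two_pow

theorem tb_mo {n i : ℕ} : (mo n).testBit i = decide (i < n) := Nat.testBit_two_pow_sub_one n i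

theorem tb_nT {a b i : ℕ} : (nT a b).testBit i = (a.testBit i && !b.testBit i) := by
  unfold nT
  rw [tb_xor, tb_land]
  cases a.testBit i <;> cases b.testBit i <;> rfl

theorem mo_lt {n : ℕ} : mo n < 2 ^ n := by
  have : 0 < 2 ^ n := Nat.two_pow_pos n
  show 2 ^ n - 1 < 2 ^ n
  omega

theorem mo_le {n m : ℕ} (h : n ≤ m) : mo n < 2 ^ m :=
  lt_of_lt_of_le mo_lt (Nat.pow_le_pow_right (by norm_num) h)

theorem p2_lt {n m : ℕ} (h : n < m) : p2 n < 2 ^ m := Nat.pow_lt_pow_right (by norm_num) h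

theorem lor_lt {a b n : ℕ} (ha : a < 2 ^ n) (hb : b < 2 ^ n) : Nat.lor a b < 2 ^ n :=
  Nat.or_lt_two_pow ha hb

theorem lt_of_tb {a n : ℕ} (h : ∀ i, a.testBit i = true → i < n) : a < 2 ^ n := by
  apply Nat.lt_pow_two_of_testBit
  intro i hi
  by_contra hc
  rw [Bool.not_eq_false] at hc
  exact absurd (h i hc) (by omega)

theorem tb_of_lt {a n i : ℕ} (h : a < 2 ^ n) (hi : a.testBit i = true) : i < n := by
  by_contra hc
  have : a < 2 ^ i := lt_of_lt_of_le h (Nat.pow_le_pow_right (by norm_num) (by omega))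
  rw [Nat.testBit_lt_two_pow this] at hi
  cases hi

theorem land_mo {a n : ℕ} : Nat.land a (mo n) < 2 ^ n :=
  lt_of_tb fun i h => by
    rw [tb_land, tb_mo, Bool.and_eq_true, decide_eq_true_eq] at h
    exact h.2

/-! ### Ones -/

theorem Ks_mo {q : ℕ} : ∀ n, Ks q n * (2 ^ q - 1) = 2 ^ (q * n) - 1
  | 0 => by simp [Ks]
  | n + 1 => by
    have h1 : 0 < 2 ^ q := Nat.two_pow_pos q
    have h2 : 0 < 2 ^ (q * n) := Nat.two_pow_pos _
    have ih := Ks_mo (q := q) n
    have e : 2 ^ (q * (n + 1)) = 2 ^ q * 2 ^ (q * n) := by rw [← pow_add]; congr 1; ring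
    unfold Ks
    rw [add_mul, one_mul, mul_assoc, ih, Nat.mul_sub, mul_one, e]
    have h3 : 2 ^ q * 1 ≤ 2 ^ q * 2 ^ (q * n) := Nat.mul_le_mul_left _ h2
    omega

theorem div_mo {q n : ℕ} (hq : 0 < q) : Nat.div (mo (Nat.mul q n)) (mo q) = Ks q n := by
  have h1 : 1 < 2 ^ q := Nat.one_lt_two_pow (by omega)
  have h2 : mo (Nat.mul q n) = Ks q n * (2 ^ q - 1) := (Ks_mo n).symm
  have h3 : mo q = 2 ^ q - 1 := rfl
  show mo (Nat.mul q n) / mo q = _
  rw [h2, h3, Nat.mul_div_cancel _ (by omega)]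

theorem Ks_at {q n i p : ℕ} (hp : p < q) :
    (Ks q n).testBit (q * i + p) = (decide (p = 0) && decide (i < n)) := by
  rw [Bool.eq_iff_iff, Ks_bit (by omega), Bool.and_eq_true, decide_eq_true_eq, decide_eq_true_eq]
  constructor
  · rintro ⟨t, h1, h2⟩
    have h3 : (q * i + p) / q = (q * t) / q := by rw [h2]
    rw [Nat.mul_add_div (by omega), Nat.mul_div_cancel_left _ (by omega), Nat.div_eq_of_lt hp] at h3
    have h4 : i = t := by omega
    subst h4
    exact ⟨by omega, h1⟩
  · rintro ⟨h1, h2⟩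
    exact ⟨i, h2, by rw [h1]; omega⟩

theorem Ks_spr {q n : ℕ} (hq : 0 < q) : Spr q (Ks q n) := by
  intro i h
  obtain ⟨t, -, rfl⟩ := (Ks_bit hq).1 h
  exact Dvd.intro _ rfl

theorem spr_or {q a b : ℕ} (ha : Spr q a) (hb : Spr q b) : Spr q (Nat.lor a b) := by
  intro i h
  rw [tb_lor, Bool.or_eq_true] at h
  exact h.elim (ha i) (hb i)

theorem spr_and {q a b : ℕ} (ha : Spr q a) : Spr q (Nat.land a b) := by
  intro i h
  rw [tb_land, Bool.and_eq_true] at h
  exact ha i h.1

theorem spr_and' {q a b : ℕ} (ha : Spr q b) : Spr q (Nat.land a b) := by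
  intro i h
  rw [tb_land, Bool.and_eq_true] at h
  exact ha i h.2

theorem spr_xor {q a b : ℕ} (ha : Spr q a) (hb : Spr q b) : Spr q (Nat.xor a b) := by
  intro i h
  rw [tb_xor] at h
  cases h1 : a.testBit i
  · rw [h1] at h
    exact hb i (by simpa using h)
  · exact ha i h1

theorem spr_zero {q : ℕ} : Spr q 0 := by
  intro i h
  rw [Nat.zero_testBit] at h
  cases h

theorem shr_Ks {q n N : ℕ} (hq : 0 < q) (h : n ≤ N) :
    Nat.shiftRight (Ks q N) (Nat.mul q (Nat.sub N n)) = Ks q n := by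
  apply Nat.eq_of_testBit_eq
  intro i
  rw [tb_shr]
  have e : i = q * (i / q) + i % q := (Nat.div_add_mod i q).symm
  have e2 : Nat.mul q (Nat.sub N n) + i = q * (N - n + i / q) + i % q := by
    show q * (N - n) + i = _
    rw [Nat.mul_add]
    omega
  have hp : i % q < q := Nat.mod_lt _ hq
  rw [e2, Ks_at hp]
  conv_rhs => rw [e, Ks_at hp]
  congr 2
  rw [eq_iff_iff]
  omega

theorem Ks_add (q n : ℕ) : Ks q (n + 1) = Ks q n + 2 ^ (q * n) := by
  induction n with
  | zero => simp [Ks]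
  | succ n ih =>
    show 1 + 2 ^ q * Ks q (n + 1) = 1 + 2 ^ q * Ks q n + 2 ^ (q * (n + 1))
    rw [ih, Nat.mul_add, ← pow_add, Nat.mul_add q n 1, mul_one, Nat.add_comm q (q * n)]
    omega

/-! ### Multiplication -/

/-- slices times a word -/
theorem mul_at {q s m t u : ℕ} (hs : Spr q s) (hm : m < 2 ^ q) (hu : u < q) :
    (Nat.mul s m).testBit (q * t + u) = (s.testBit (q * t) && m.testBit u) :=
  mul_spr (by omega) hs hm t u hu

theorem and_add {q a b c d : ℕ} (ha : a < 2 ^ q) (hc : c < 2 ^ q) :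
    (a + 2 ^ q * b) &&& (c + 2 ^ q * d) = (a &&& c) + 2 ^ q * (b &&& d) := by
  apply Nat.eq_of_testBit_eq
  intro i
  rw [Nat.testBit_and, tb_add ha, tb_add hc, tb_add (lt_of_le_of_lt Nat.and_le_left ha)]
  split_ifs with h
  · rw [Nat.testBit_and]
  · rw [Nat.testBit_and]

/-- the bit 0 of every row tells whether the row has a bit in the first `q - 1` columns -/
def nzr (q C G X : ℕ) : ℕ := Nat.land (Nat.shiftRight (Nat.add (Nat.land X G) G) (Nat.sub q 1)) C

theorem nzr_add {q : ℕ} (hq : 1 ≤ q) : ∀ (u C X : ℕ), Spr q C →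
    (((X &&& (C * (2 ^ (q - 1) - 1))) + C * (2 ^ (q - 1) - 1)).testBit (q * u + (q - 1)) = true ↔
      C.testBit (q * u) = true ∧ ∃ c < q - 1, X.testBit (q * u + c) = true) := by
  intro u
  have hp : 0 < 2 ^ (q - 1) := Nat.two_pow_pos _
  have h2q : 2 ^ q = 2 * 2 ^ (q - 1) := by
    rw [← pow_succ']
    congr 1
    omega
  induction u with
  | zero =>
    intro C X hC
    obtain ⟨b, C', hb, rfl, hC'⟩ := hC.step (by omega : 0 < q)
    have hx : X % 2 ^ q < 2 ^ q := Nat.mod_lt _ (Nat.two_pow_pos _)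
    have hg : b * (2 ^ (q - 1) - 1) < 2 ^ q := by
      have : b * (2 ^ (q - 1) - 1) ≤ 1 * (2 ^ (q - 1) - 1) := Nat.mul_le_mul_right _ hb
      omega
    have e1 : (b + 2 ^ q * C') * (2 ^ (q - 1) - 1) =
        b * (2 ^ (q - 1) - 1) + 2 ^ q * (C' * (2 ^ (q - 1) - 1)) := by ring
    have e2 : X = X % 2 ^ q + 2 ^ q * (X / 2 ^ q) := (Nat.mod_add_div _ _).symm
    have e3 : X &&& ((b + 2 ^ q * C') * (2 ^ (q - 1) - 1)) =
        (X % 2 ^ q &&& b * (2 ^ (q - 1) - 1)) + 2 ^ q * (X / 2 ^ q &&& C' * (2 ^ (q - 1) - 1)) := by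
      conv_lhs => rw [e2, e1]
      exact and_add hx hg
    have hA : X % 2 ^ q &&& b * (2 ^ (q - 1) - 1) ≤ b * (2 ^ (q - 1) - 1) := Nat.and_le_right
    have hb1 : b * (2 ^ (q - 1) - 1) ≤ 2 ^ (q - 1) - 1 := by
      calc b * (2 ^ (q - 1) - 1) ≤ 1 * (2 ^ (q - 1) - 1) := Nat.mul_le_mul_right _ hb
        _ = _ := one_mul _
    have e4 : (X % 2 ^ q &&& b * (2 ^ (q - 1) - 1)) + 2 ^ q * (X / 2 ^ q &&& C' * (2 ^ (q - 1) - 1)) +
        (b * (2 ^ (q - 1) - 1) + 2 ^ q * (C' * (2 ^ (q - 1) - 1))) =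
        ((X % 2 ^ q &&& b * (2 ^ (q - 1) - 1)) + b * (2 ^ (q - 1) - 1)) +
          2 ^ q * ((X / 2 ^ q &&& C' * (2 ^ (q - 1) - 1)) + C' * (2 ^ (q - 1) - 1)) := by ring
    rw [e3, e1, e4, tb_add (by omega), mul_zero, zero_add, if_pos (by omega),
      tb_add (lt_of_le_of_lt hb (Nat.one_lt_two_pow (by omega))), if_pos (by omega)]
    interval_cases b
    · simp
    · rw [one_mul]
      have hA2 : X % 2 ^ q &&& (2 ^ (q - 1) - 1) = X % 2 ^ (q - 1) := by
        rw [Nat.and_two_pow_sub_one_eq_mod, Nat.mod_mod_of_dvd]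
        exact Nat.pow_dvd_pow _ (by omega)
      rw [hA2]
      have hlt : X % 2 ^ (q - 1) < 2 ^ (q - 1) := Nat.mod_lt _ hp
      have e5 : (X % 2 ^ (q - 1) + (2 ^ (q - 1) - 1)).testBit (q - 1) = true ↔ X % 2 ^ (q - 1) ≠ 0 := by
        constructor
        · intro h h0
          rw [h0, zero_add, Nat.testBit_lt_two_pow (by omega)] at h
          cases h
        · intro h
          have e6 : X % 2 ^ (q - 1) + (2 ^ (q - 1) - 1) = 2 ^ (q - 1) + (X % 2 ^ (q - 1) - 1) := by omega
          rw [e6, Nat.testBit_two_pow_add_eq, Nat.testBit_lt_two_pow (by omega)]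
          rfl
      rw [e5]
      constructor
      · intro h
        refine ⟨by simp, ?_⟩
        obtain ⟨c, hc⟩ := Nat.exists_testBit_of_ne_zero h
        rw [Nat.testBit_mod_two_pow, Bool.and_eq_true, decide_eq_true_eq] at hc
        exact ⟨c, hc.1, by simpa using hc.2⟩
      · rintro ⟨-, c, hc1, hc2⟩ h
        have := congrArg (fun n => n.testBit c) h
        simp only [Nat.testBit_mod_two_pow, hc1, decide_true, Bool.true_and, Nat.zero_testBit] at this
        rw [zero_add, this] at hc2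
        cases hc2
  | succ u ih =>
    intro C X hC
    obtain ⟨b, C', hb, rfl, hC'⟩ := hC.step (by omega : 0 < q)
    have hx : X % 2 ^ q < 2 ^ q := Nat.mod_lt _ (Nat.two_pow_pos _)
    have hg : b * (2 ^ (q - 1) - 1) < 2 ^ q := by
      have : b * (2 ^ (q - 1) - 1) ≤ 1 * (2 ^ (q - 1) - 1) := Nat.mul_le_mul_right _ hb
      omega
    have e1 : (b + 2 ^ q * C') * (2 ^ (q - 1) - 1) =
        b * (2 ^ (q - 1) - 1) + 2 ^ q * (C' * (2 ^ (q - 1) - 1)) := by ring
    have e2 : X = X % 2 ^ q + 2 ^ q * (X / 2 ^ q) := (Nat.mod_add_div _ _).symm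
    have e3 : X &&& ((b + 2 ^ q * C') * (2 ^ (q - 1) - 1)) =
        (X % 2 ^ q &&& b * (2 ^ (q - 1) - 1)) + 2 ^ q * (X / 2 ^ q &&& C' * (2 ^ (q - 1) - 1)) := by
      conv_lhs => rw [e2, e1]
      exact and_add hx hg
    have hA : X % 2 ^ q &&& b * (2 ^ (q - 1) - 1) ≤ b * (2 ^ (q - 1) - 1) := Nat.and_le_right
    have hb1 : b * (2 ^ (q - 1) - 1) ≤ 2 ^ (q - 1) - 1 := by
      calc b * (2 ^ (q - 1) - 1) ≤ 1 * (2 ^ (q - 1) - 1) := Nat.mul_le_mul_right _ hb
        _ = _ := one_mul _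
    have e4 : (X % 2 ^ q &&& b * (2 ^ (q - 1) - 1)) + 2 ^ q * (X / 2 ^ q &&& C' * (2 ^ (q - 1) - 1)) +
        (b * (2 ^ (q - 1) - 1) + 2 ^ q * (C' * (2 ^ (q - 1) - 1))) =
        ((X % 2 ^ q &&& b * (2 ^ (q - 1) - 1)) + b * (2 ^ (q - 1) - 1)) +
          2 ^ q * ((X / 2 ^ q &&& C' * (2 ^ (q - 1) - 1)) + C' * (2 ^ (q - 1) - 1)) := by ring
    have n1 : ¬ q * (u + 1) + (q - 1) < q := by rw [Nat.mul_add]; omega
    have n2 : q * (u + 1) + (q - 1) - q = q * u + (q - 1) := by rw [Nat.mul_add]; omega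
    have n3 : ¬ q * (u + 1) < q := by rw [Nat.mul_add]; omega
    have n4 : q * (u + 1) - q = q * u := by rw [Nat.mul_add]; omega
    rw [e3, e1, e4, tb_add (by omega), if_neg n1, n2, ih C' (X / 2 ^ q) hC',
      tb_add (lt_of_le_of_lt hb (Nat.one_lt_two_pow (by omega))), if_neg n3, n4]
    have key : ∀ c, (X / 2 ^ q).testBit (q * u + c) = X.testBit (q * (u + 1) + c) := by
      intro c
      rw [Nat.testBit_div_two_pow]
      congr 1
      rw [Nat.mul_add]
      omega
    simp only [key]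

theorem nzr_at {q C G X u c : ℕ} (hC : Spr q C) (hG : G = Nat.mul C (mo (Nat.sub q 1))) (hc : c < q) :
    (nzr q C G X).testBit (q * u + c) = true ↔ c = 0 ∧ C.testBit (q * u) = true ∧
      ∃ c' < q - 1, X.testBit (q * u + c') = true := by
  unfold nzr
  rw [tb_land, Bool.and_eq_true, tb_shr]
  constructor
  · rintro ⟨h1, h2⟩
    have h3 := hC _ h2
    have h4 : c = 0 := by
      rcases Nat.eq_zero_or_pos c with h | h
      · exact h
      · exfalso
        have h5 : q ∣ c := (Nat.dvd_add_right (Dvd.intro u rfl)).1 h3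
        exact absurd (Nat.le_of_dvd h h5) (by omega)
    subst h4
    rw [add_zero] at h2
    refine ⟨rfl, h2, ?_⟩
    have e : Nat.sub q 1 + (q * u + 0) = q * u + (q - 1) := by
      show q - 1 + (q * u + 0) = _
      omega
    rw [e, hG] at h1
    exact ((nzr_add (by omega) u C X hC).1 h1).2
  · rintro ⟨rfl, h2, h3⟩
    refine ⟨?_, by rw [add_zero]; exact h2⟩
    have e : Nat.sub q 1 + (q * u + 0) = q * u + (q - 1) := by
      show q - 1 + (q * u + 0) = _
      omega
    rw [e, hG]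
    exact (nzr_add (by omega) u C X hC).2 ⟨h2, h3⟩

/-! ### Copies of rows -/

theorem add_or {a b : ℕ} (h : ∀ i, ¬ (a.testBit i = true ∧ b.testBit i = true)) : a + b = a ||| b := by
  induction a using Nat.binaryRec generalizing b with
  | zero => simp
  | bit x a ih =>
    induction b using Nat.binaryRec with
    | zero => simp
    | bit y b _ =>
      have h0 := h 0
      rw [Nat.testBit_bit_zero, Nat.testBit_bit_zero] at h0
      have h1 : ∀ i, ¬ (a.testBit i = true ∧ b.testBit i = true) := by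
        intro i
        have := h (i + 1)
        rwa [Nat.testBit_bit_succ, Nat.testBit_bit_succ] at this
      rw [Nat.lor_bit, ← ih h1]
      cases x <;> cases y
      · simp [Nat.bit]; ring
      · simp [Nat.bit]; ring
      · simp [Nat.bit]; ring
      · simp at h0

/-- rows of `X` are far from each other: multiplication by `Ks q n` copies them -/
theorem rep_at {q n X : ℕ} (hq : 0 < q) {Rw : ℕ → Prop}
    (hX : ∀ u c, c < q → X.testBit (q * u + c) = true → Rw u)
    (hs : ∀ u v, Rw u → Rw v → u < v → u + n ≤ v) : ∀ m ≤ n, ∀ u c, c < q →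
    ((X * Ks q m).testBit (q * u + c) = true ↔ ∃ r < m, r ≤ u ∧ X.testBit (q * (u - r) + c) = true)
  | 0, _, u, c, hc => by simp [Ks]
  | m + 1, hm, u, c, hc => by
    have ih := rep_at hq hX hs m (by omega)
    have e : X * Ks q (m + 1) = X * Ks q m + X * 2 ^ (q * m) := by rw [Ks_add, Nat.mul_add]
    have sh : ∀ u c, c < q → ((X * 2 ^ (q * m)).testBit (q * u + c) = true ↔ m ≤ u ∧
        X.testBit (q * (u - m) + c) = true) := by
      intro u c hc
      rw [Nat.testBit_mul_two_pow, Bool.and_eq_true, decide_eq_true_eq]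
      constructor
      · rintro ⟨h1, h2⟩
        have h3 : m ≤ u := by
          by_contra hcon
          have : q * (u + 1) ≤ q * m := Nat.mul_le_mul_left _ (by omega)
          rw [Nat.mul_add] at this
          omega
        refine ⟨h3, ?_⟩
        have : q * u + c - q * m = q * (u - m) + c := by
          rw [Nat.mul_sub]
          have : q * m ≤ q * u := Nat.mul_le_mul_left _ h3
          omega
        rwa [this] at h2
      · rintro ⟨h1, h2⟩
        have h4 : q * m ≤ q * u := Nat.mul_le_mul_left _ h1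
        refine ⟨by omega, ?_⟩
        have : q * u + c - q * m = q * (u - m) + c := by
          rw [Nat.mul_sub]
          omega
        rwa [this]
    have hd : ∀ i, ¬ ((X * Ks q m).testBit i = true ∧ (X * 2 ^ (q * m)).testBit i = true) := by
      rintro i ⟨h1, h2⟩
      have e2 : i = q * (i / q) + i % q := (Nat.div_add_mod i q).symm
      have hc : i % q < q := Nat.mod_lt _ hq
      rw [e2, ih _ _ hc] at h1
      rw [e2, sh _ _ hc] at h2
      obtain ⟨r, r1, r2, r3⟩ := h1
      obtain ⟨s1, s2⟩ := h2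
      have := hs _ _ (hX _ _ hc s2) (hX _ _ hc r3) (by omega)
      omega
    rw [e, add_or hd, Nat.testBit_or, Bool.or_eq_true, ih u c hc, sh u c hc]
    constructor
    · rintro (⟨r, r1, r2, r3⟩ | ⟨r2, r3⟩)
      · exact ⟨r, by omega, r2, r3⟩
      · exact ⟨m, by omega, r2, r3⟩
    · rintro ⟨r, r1, r2, r3⟩
      rcases Nat.lt_succ_iff_lt_or_eq.1 r1 with h | rfl
      · exact Or.inl ⟨r, h, r2, r3⟩
      · exact Or.inr ⟨r2, r3⟩

end Ev

end Pool.FC7
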