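import Pool.Agent.FC7.EvA

/-! # Vector checks: definitions

Lanes of `L = q s` bits; a lane consists of `s` rows of `q` bits.  Rows `0, .., q-1` = block 1, rows
`q, .., 2q-1` = block 2, then the colours of the labels (known true, known false) and the colours `ξ` of
the inner labels of `P`.  `z = q - 2` is an additional element. -/

set_option linter.unusedSectionVars false

namespace Pool.FC7

/-- an edge: labels, cells -/
structure EE where
  a : ℕ
  b : ℕ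
  i : ℕ
  j : ℕ

/-- an arc: number, labels, real, real or surely active, hub rule, cells -/
structure EA where
  t : ℕ
  a : ℕ
  b : ℕ
  r : Bool
  s : Bool
  h : Bool
  c : ℕ
  c' : ℕ

/-- requirement: masks, kind 0 always, 1 colours differ, 2 colours equal -/
structure EY where
  f : ℕ
  f' : ℕ
  k : ℕ
  a : ℕ
  b : ℕ

/-- the tables -/
structure EV where
  q : ℕ
  s : ℕ
  x : ℕ
  m : ℕ
  lo : ℕ
  NB : ℕ
  A : ℕ
  es : List EE
  es' : List EE
  ars : List EA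
  ys : List EY
  rq : List ℕ

namespace Ev

noncomputable def fo {α : Type} (l : List α) (f : α → ℕ → ℕ) (b : ℕ) : ℕ :=
  List.rec (motive := fun _ => ℕ) b (fun a _ ih => f a ih) l

def sl (O W p : ℕ) : ℕ := Nat.land (Nat.shiftRight W p) O

/-- rows 0..n-1, bit 0 -/
def cl (q n : ℕ) : ℕ := Nat.div (mo (Nat.mul q n)) (mo q)

end Ev

open Ev

variable (E : EV)

namespace EV

def L : ℕ := Nat.mul E.q E.s
def z : ℕ := Nat.sub E.q 2
def g : ℕ := Nat.sub E.q 1
def mb : ℕ := Nat.mul E.q (Nat.mul 2 E.q)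
def xb : ℕ := Nat.add E.mb (Nat.mul 2 E.m)
def bt (r c : ℕ) : ℕ := p2 (Nat.add (Nat.mul E.q r) c)
def b2 (r c : ℕ) : ℕ := p2 (Nat.add (Nat.mul E.q (Nat.add E.q r)) c)
def sy (r c : ℕ) : ℕ := Nat.lor (E.bt r c) (E.bt c r)
def sy2 (r c : ℕ) : ℕ := Nat.lor (E.b2 r c) (E.b2 c r)
/-- ones -/
def OB : ℕ := Nat.div (mo (Nat.mul E.L E.NB)) (mo E.L)
def on (n : ℕ) : ℕ := Nat.shiftRight E.OB (Nat.mul E.L (Nat.sub E.NB n))

section
variable (O W : ℕ)

def cT (a : ℕ) : ℕ := sl O W (Nat.add E.mb a)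
def cF (a : ℕ) : ℕ := sl O W (Nat.add E.mb (Nat.add E.m a))
def cX (a : ℕ) : ℕ := sl O W (Nat.add E.xb a)
noncomputable def cP (a : ℕ) : ℕ :=
  Bool.rec (motive := fun _ => ℕ) (E.cT O W a) (E.cX O W a) (Nat.ble (Nat.succ a) E.x)
/-- certainly different -/
def cd (a b : ℕ) : ℕ :=
  Nat.lor (Nat.land (E.cT O W a) (E.cF O W b)) (Nat.land (E.cF O W a) (E.cT O W b))
/-- possibly different -/
def md (a b : ℕ) : ℕ :=
  Nat.xor O (Nat.lor (Nat.land (E.cT O W a) (E.cT O W b)) (Nat.land (E.cF O W a) (E.cF O W b)))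

def Dp (i j : ℕ) : ℕ := Nat.lor (E.sy i j) (Nat.lor (E.sy i E.z) (E.sy j E.z))
def Dq (i j : ℕ) : ℕ := Nat.lor (E.sy2 i j) (Nat.lor (E.sy2 i E.z) (E.sy2 j E.z))

noncomputable def idm : ℕ := Nat.rec (motive := fun _ => ℕ) 0
  (fun i ih => Nat.lor ih (Nat.lor (E.bt i i) (E.b2 i i))) (Nat.succ E.z)

/-- ring labels are unknown -/
noncomputable def rk : ℕ := Nat.rec (motive := fun _ => ℕ) 0
  (fun i ih => Nat.lor ih (Nat.xor O (Nat.lor (E.cT O W (Nat.add E.x i)) (E.cF O W (Nat.add E.x i)))))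
  (Nat.sub E.m E.x)

/-- known to be active -/
noncomputable def ac (a : EA) : ℕ := Bool.rec (motive := fun _ => ℕ)
  (sl O W (Nat.add (Nat.mul E.q a.t) E.z))
  (Nat.lor (sl O W (Nat.add (Nat.mul E.q a.t) E.z)) (E.cd O W a.a a.b)) a.s

noncomputable def M0 : ℕ :=
  fo E.es (fun e acc => Nat.lor acc (Nat.mul (Nat.xor (E.cP O W e.a) (E.cP O W e.b)) (E.Dp e.i e.j)))
    (fo E.es' (fun e acc => Nat.lor acc (Nat.mul (E.md O W e.a e.b) (E.Dq e.i e.j)))
      (fo E.ars (fun a acc => Nat.lor acc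
          (Nat.mul (E.ac O W a) (Nat.lor (E.sy a.c E.z) (E.sy2 a.c' E.z))))
        (List.rec (motive := fun _ => ℕ) (Nat.mul O E.idm)
          (fun a l ih => fo l (fun b acc => Nat.lor acc
            (Nat.mul (sl O W (Nat.add (Nat.mul E.q a.t) b.t)) (E.sy a.c b.c))) ih) E.ars)))

def COL : ℕ := Nat.mul O (cl E.q (Nat.mul 2 E.q))
def ROW : ℕ := Nat.mul O (Nat.mul (Nat.add 1 (p2 (Nat.mul E.q E.q))) (mo E.q))

def Sc (C M k : ℕ) : ℕ := Nat.mul (Nat.land (Nat.shiftRight M k) C) (mo E.g)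
def Rr (R M k : ℕ) : ℕ :=
  Nat.mul (Nat.land (Nat.shiftRight M (Nat.mul E.q k)) R) (cl E.q E.q)

noncomputable def clo (C R M : ℕ) (n : ℕ) : ℕ :=
  Nat.rec (motive := fun _ => ℕ) M
    (fun k ih => Nat.lor ih (Nat.land (E.Sc C ih k) (E.Rr R ih k))) n

noncomputable def anb : ℕ :=
  fo E.es (fun e acc => Nat.lor acc (Nat.xor (E.cP O W e.a) (E.cP O W e.b)))
    (fo E.ars (fun a acc => Nat.lor acc (E.ac O W a)) 0)
noncomputable def anv : ℕ := fo E.es' (fun e acc => Nat.lor acc (E.cd O W e.a e.b))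
  (fo E.ars (fun a acc => Nat.lor acc (E.ac O W a)) 0)

noncomputable def ny : ℕ := Ev.llen E.ys
noncomputable def F1 : ℕ := fo E.ys (fun y acc => Nat.lor (Nat.shiftLeft acc E.q) y.f) 0
noncomputable def F2 : ℕ := fo E.ys (fun y acc => Nat.lor (Nat.shiftLeft acc E.q) y.f') 0
/-- the condition of a requirement -/
noncomputable def fy (y : EY) : ℕ := Nat.rec (motive := fun _ => ℕ) O
  (fun n _ => Nat.rec (motive := fun _ => ℕ) (E.cd O W y.a y.b)
    (fun _ _ => Nat.xor O (E.cd O W y.a y.b)) n) y.k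
noncomputable def OY : ℕ :=
  fo E.ys (fun y acc => Nat.lor (Nat.shiftLeft acc E.q) (E.fy O W y)) 0

/-- one row of the transfer conditions -/
def trj (M RY CY G F1O F2O OYc R0 c c' op acc : ℕ) : ℕ :=
  Nat.lor acc (Nat.land (Nat.mul op RY)
    (nT (Nat.land (nzr E.q CY G (Nat.land F2O
        (Nat.mul (Nat.land (Nat.shiftRight M (Nat.mul E.q (Nat.add E.q c'))) R0) RY))) OYc)
      (nzr E.q CY G (Nat.land F1O (Nat.mul (Nat.land (Nat.lor (Nat.shiftRight M (Nat.mul E.q c))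
        (Nat.shiftRight M (Nat.mul E.q E.z))) R0) RY)))))

/-- possibly open -/
noncomputable def opv (a : EA) : ℕ := Bool.rec (motive := fun _ => ℕ) O (E.md O W a.a a.b) a.r

noncomputable def tra (M : ℕ) : ℕ :=
  (fun RY => (fun CY => (fun G => (fun F1O => (fun F2O => (fun OYc => (fun R0 =>
    fo E.ars (fun a acc => E.trj M RY CY G F1O F2O OYc R0 a.c a.c' (E.opv O W a) acc)
      (E.trj M RY CY G F1O F2O OYc R0 E.z E.z O 0)
    ) (Nat.mul O (mo E.q))) (E.OY O W)) (Nat.mul O E.F2)) (Nat.mul O E.F1))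
    (Nat.mul CY (mo (Nat.sub E.q 1)))) (Nat.mul O RY)) (cl E.q E.ny)

/-- the closure -/
noncomputable def MT : ℕ := E.clo (E.COL O) (E.ROW O) (E.M0 O W) E.z

/-- the lanes which do not pass the test -/
noncomputable def badT : ℕ :=
  (fun M => Nat.lor (E.rk O W)
    (Nat.lor (nT (E.anb O W) (E.anv O W))
      (Nat.lor (nT (Nat.land (Nat.land (E.Sc (E.COL O) M E.z) (E.Rr (E.ROW O) M E.z))
          (Nat.mul O (Nat.mul (cl E.q E.z) (mo E.z)))) M)
        (E.tra O W M)))) (E.MT O W)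

/-! ### Contradictions: joined pairs in block 1, pairs which are not joined in block 2 -/

def C1 : ℕ := Nat.mul O (cl E.q E.q)
def R1 : ℕ := Nat.mul O (mo E.q)
def Bk : ℕ := Nat.mul O (mo (Nat.mul E.q E.q))
noncomputable def id1 (n : ℕ) : ℕ := Nat.rec (motive := fun _ => ℕ) 0
  (fun i ih => Nat.lor ih (E.bt i i)) n
noncomputable def CM0 : ℕ :=
  fo E.ars (fun a acc => Bool.rec (motive := fun _ => ℕ) acc
      (Nat.lor acc (Nat.mul (E.cd O W a.a a.b) (E.sy a.t E.z))) a.s)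
    (Nat.lor (Nat.land W (E.Bk O)) (Nat.mul O (E.id1 E.A)))
def blkm (r c : ℕ) : ℕ := Nat.mul (cl E.q r) (mo c)
noncomputable def prd (X Y n : ℕ) : ℕ :=
  Nat.rec (motive := fun _ => ℕ) 0
    (fun k ih => Nat.lor ih (Nat.land (E.Sc (E.C1 O) X k) (E.Rr (E.R1 O) Y k))) n
def prdz (X Y k : ℕ) : ℕ := Nat.land (E.Sc (E.C1 O) X k) (E.Rr (E.R1 O) Y k)

noncomputable def Tm : ℕ := E.clo (E.C1 O) (E.R1 O) (E.CM0 O W) E.A
def Nm : ℕ := Nat.land (Nat.shiftRight W (Nat.mul E.q E.q)) (E.Bk O)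
/-- rows: arcs -/
noncomputable def X1 : ℕ := Nat.land (Nat.lor (E.prd O (E.Tm O W) (E.Nm O W) E.A)
  (E.prdz O (E.Tm O W) (E.Nm O W) E.z)) (Nat.mul O (E.blkm E.A E.g))
noncomputable def NS : ℕ := Nat.lor (E.X1 O W) (Nat.land (Nat.lor
  (E.prd O (E.X1 O W) (E.Tm O W) E.A) (E.prdz O (E.X1 O W) (E.Tm O W) E.z))
  (Nat.mul O (E.blkm E.A E.A)))
/-- both possibly open -/
noncomputable def OPm : ℕ := fo E.ars (fun a acc => Bool.rec (motive := fun _ => ℕ) acc
    (nT acc (Nat.mul (Nat.xor O (E.md O W a.a a.b))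
      (Nat.lor (Nat.shiftLeft (mo E.g) (Nat.mul E.q a.t)) (Nat.shiftLeft (cl E.q E.q) a.t)))) a.r)
  (Nat.mul O (Nat.lor (E.blkm E.A E.A) (Nat.shiftLeft (cl E.q E.A) E.z)))
/-- possible pairs -/
noncomputable def PM : ℕ := nT (E.OPm O W) (E.NS O W)
noncomputable def sd : ℕ := Nat.xor O (E.anv O W)
noncomputable def MC0 : ℕ :=
  fo E.es' (fun e acc => Nat.lor acc (Nat.lor (Nat.mul (E.md O W e.a e.b) (E.sy e.i e.j))
      (Nat.mul (Nat.lor (E.cd O W e.a e.b) (Nat.land (E.sd O W) (E.md O W e.a e.b)))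
        (Nat.lor (E.sy e.i E.z) (E.sy e.j E.z)))))
    (fo E.ars (fun a acc => Nat.lor acc
        (Nat.mul (Nat.lor (sl O (E.Tm O W) (Nat.add (Nat.mul E.q a.t) E.z))
          (Nat.land (E.sd O W) (sl O (E.PM O W) (Nat.add (Nat.mul E.q a.t) E.z)))) (E.sy a.c' E.z)))
      (List.rec (motive := fun _ => ℕ) (Nat.mul O (E.id1 E.z))
        (fun a l ih => fo l (fun b acc => Nat.lor acc
          (Nat.mul (sl O (E.PM O W) (Nat.add (Nat.mul E.q a.t) b.t)) (E.sy a.c' b.c'))) ih) E.ars))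
noncomputable def MCm : ℕ := E.clo (E.C1 O) (E.R1 O) (E.MC0 O W) E.z

/-- upper triangle: rows `a <` columns `b` -/
noncomputable def upt : ℕ := Nat.rec (motive := fun _ => ℕ) 0
  (fun i ih => Nat.lor ih (Nat.shiftLeft (Nat.mul (p2 (Nat.succ i)) (mo (Nat.sub E.A (Nat.succ i))))
    (Nat.mul E.q i))) E.A
/-- rows > a -/
def below (a : ℕ) : ℕ :=
  Nat.shiftLeft (cl E.q (Nat.sub E.A (Nat.succ a))) (Nat.mul E.q (Nat.succ a))
/-- `(b, c)`: there is `a < b` with `T(a,c)`, `N(a,b)` -/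
noncomputable def crA : ℕ := Nat.rec (motive := fun _ => ℕ) 0 (fun a ih => Nat.lor ih
   (Nat.land (Nat.mul (Nat.land (Nat.shiftRight (E.NS O W) a) (Nat.mul O (E.below a))) (mo E.A))
     (E.Rr (E.R1 O) (E.Tm O W) a))) E.A
def sh1 (X c : ℕ) : ℕ := Nat.land (Nat.shiftRight X c) (Nat.mul O (E.blkm E.A (Nat.sub E.A c)))
/-- `(b, c)`: there is `d > c` with `T(b,d)` -/
noncomputable def crB : ℕ := (fun Y => (fun Y => (fun Y => Nat.lor Y (E.sh1 O Y 4))
  (Nat.lor Y (E.sh1 O Y 2))) (Nat.lor Y (E.sh1 O Y 1))) (E.sh1 O (E.Tm O W) 1)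
noncomputable def crs : ℕ := Nat.land (Nat.land (E.crA O W) (E.crB O W)) (Nat.mul O E.upt)

noncomputable def nrq : ℕ := Ev.llen E.rq
noncomputable def RQ : ℕ := fo E.rq (fun y acc => Nat.lor (Nat.shiftLeft acc E.q) y) 0

/-- the requirements which are not met by the cells of the row `z` of `M` -/
noncomputable def unm (M : ℕ) : ℕ :=
  (fun CY => nT CY (nzr E.q CY (Nat.mul CY (mo (Nat.sub E.q 1))) (Nat.land (Nat.mul O E.RQ)
    (Nat.mul (Nat.land (Nat.shiftRight M (Nat.mul E.q E.z)) (Nat.mul O (mo E.q)))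
      (cl E.q E.nrq))))) (Nat.mul O (cl E.q E.nrq))

/-- contradictions -/
noncomputable def Qm : ℕ :=
  Nat.lor (E.crs O W)
    (Nat.lor (Nat.land (Nat.land (E.Tm O W) (E.NS O W)) (Nat.mul O (E.blkm E.A E.A)))
    (Nat.lor (Nat.land (Nat.mul (E.anv O W) (mo E.L)) (nT (Nat.land (Nat.land
        (E.Sc (E.C1 O) (E.MCm O W) E.z) (E.Rr (E.R1 O) (E.MCm O W) E.z))
        (Nat.mul O (Nat.mul (cl E.q E.z) (mo E.z)))) (E.MCm O W)))
      (E.unm O (E.MCm O W))))

/-! ### The stronger test: only arcs whose cell can be visited are tested -/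

/-- possibly open, possibly visited; `MC` = closure of the possible joins -/
noncomputable def opw (MC : ℕ) (a : EA) : ℕ :=
  Nat.land (E.opv O W a) (sl O MC (Nat.add (Nat.mul E.q E.z) a.c'))

noncomputable def traw (MC M : ℕ) : ℕ :=
  (fun RY => (fun CY => (fun G => (fun F1O => (fun F2O => (fun OYc => (fun R0 =>
    fo E.ars (fun a acc => E.trj M RY CY G F1O F2O OYc R0 a.c a.c' (E.opw O W MC a) acc)
      (E.trj M RY CY G F1O F2O OYc R0 E.z E.z O 0)
    ) (Nat.mul O (mo E.q))) (E.OY O W)) (Nat.mul O E.F2)) (Nat.mul O E.F1))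
    (Nat.mul CY (mo (Nat.sub E.q 1)))) (Nat.mul O RY)) (cl E.q E.ny)

/-- the lanes which do not pass the stronger test -/
noncomputable def badW : ℕ :=
  (fun M => Nat.lor (E.rk O W)
    (Nat.lor (nT (E.anb O W) (E.anv O W))
      (Nat.lor (nT (Nat.land (Nat.land (E.Sc (E.COL O) M E.z) (E.Rr (E.ROW O) M E.z))
          (Nat.mul O (Nat.mul (cl E.q E.z) (mo E.z)))) M)
        (E.traw O W (E.MCm O W) M)))) (E.MT O W)

/-- the lanes which do not pass the test; `b`: the stronger test -/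
noncomputable def badF (b : ℕ) : ℕ :=
  Nat.rec (motive := fun _ => ℕ) (E.badT O W) (fun _ _ => E.badW O W) b

/-- every lane is contradictory -/
noncomputable def okC : Bool :=
  Nat.beq (nzr E.L O (Nat.mul O (mo (Nat.sub E.L 1))) (E.Qm O W)) O

end

end EV

end Pool.FC7
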