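import Pool.Agent.FC7.EvB

/-! # Vector checks: lanes, matrices, closures -/

set_option linter.unusedSectionVars false

namespace Pool.FC7

open Ev

/-- the tables are well formed -/
structure EV.Wf (E : EV) : Prop where
  q3 : 3 ≤ E.q
  hA : E.A ≤ E.z
  hL : E.xb + E.x ≤ E.L
  xm : E.x ≤ E.m
  es : ∀ e ∈ E.es, e.i < E.z ∧ e.j < E.z ∧ e.a < E.m ∧ e.b < E.m
  es' : ∀ e ∈ E.es', e.i < E.z ∧ e.j < E.z ∧ e.a < E.m ∧ e.b < E.m
  ars : ∀ a ∈ E.ars, a.t < E.A ∧ a.c < E.z ∧ a.c' < E.z ∧ a.a < E.m ∧ a.b < E.m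
  ys : ∀ y ∈ E.ys, y.f < 2 ^ E.z ∧ y.f' < 2 ^ E.g ∧ y.a < E.m ∧ y.b < E.m
  yn : E.ys.length ≤ E.s
  rq : ∀ d ∈ E.rq, d < 2 ^ E.z
  rn : E.rq.length ≤ E.s

namespace Ev

theorem fo_lor {α : Type} (g : α → ℕ) (b p : ℕ) : ∀ l : List α,
    ((fo l (fun a acc => Nat.lor acc (g a)) b).testBit p = true ↔
      b.testBit p = true ∨ ∃ a ∈ l, (g a).testBit p = true)
  | [] => by
    show b.testBit p = true ↔ _
    simp
  | a :: l => by
    show (Nat.lor (fo l (fun a acc => Nat.lor acc (g a)) b) (g a)).testBit p = true ↔ _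
    rw [tb_lor, Bool.or_eq_true, fo_lor g b p l]
    simp only [List.mem_cons, exists_eq_or_imp]
    rw [or_assoc]
    exact or_congr_right or_comm

theorem fo_pair {α : Type} (g : α → α → ℕ) (b p : ℕ) : ∀ l : List α,
    ((List.rec (motive := fun _ => ℕ) b
      (fun a l ih => fo l (fun c acc => Nat.lor acc (g a c)) ih) l).testBit p = true ↔
      b.testBit p = true ∨ ∃ a c, [a, c].Sublist l ∧ (g a c).testBit p = true)
  | [] => by
    show b.testBit p = true ↔ _
    simp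
  | a :: l => by
    show (fo l (fun c acc => Nat.lor acc (g a c)) (List.rec (motive := fun _ => ℕ) b
      (fun a l ih => fo l (fun c acc => Nat.lor acc (g a c)) ih) l)).testBit p = true ↔ _
    rw [fo_lor, fo_pair g b p l]
    constructor
    · rintro ((h | ⟨c, d, h1, h2⟩) | ⟨c, h1, h2⟩)
      · exact Or.inl h
      · exact Or.inr ⟨c, d, h1.cons _, h2⟩
      · exact Or.inr ⟨a, c, List.Sublist.cons_cons _ (List.singleton_sublist.2 h1), h2⟩
    · rintro (h | ⟨c, d, h1, h2⟩)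
      · exact Or.inl (Or.inl h)
      · rcases List.sublist_cons_iff.1 h1 with h3 | ⟨r, h3, h4⟩
        · exact Or.inl (Or.inr ⟨c, d, h3, h2⟩)
        · simp only [List.cons.injEq] at h3
          obtain ⟨rfl, rfl⟩ := h3
          exact Or.inr ⟨d, List.singleton_sublist.1 h4, h2⟩

theorem pair_mem {α : Type} {a c : α} {l : List α} (h : [a, c].Sublist l) : a ∈ l ∧ c ∈ l :=
  ⟨h.subset (by simp), h.subset (by simp)⟩

theorem mem_pair {α : Type} {a c : α} (hne : a ≠ c) : ∀ {l : List α}, a ∈ l → c ∈ l →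
    [a, c].Sublist l ∨ [c, a].Sublist l
  | [], h, _ => by simp at h
  | b :: l, ha, hc => by
    rcases List.mem_cons.1 ha with h1 | h1
    · rcases List.mem_cons.1 hc with h2 | h2
      · exact absurd (h1.trans h2.symm) hne
      · rw [h1]
        exact Or.inl (List.Sublist.cons_cons _ (List.singleton_sublist.2 h2))
    · rcases List.mem_cons.1 hc with h2 | h2
      · rw [h2]
        exact Or.inr (List.Sublist.cons_cons _ (List.singleton_sublist.2 h1))
      · exact (mem_pair hne h1 h2).imp (fun h => h.cons _) (fun h => h.cons _)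

theorem llen_eq {α : Type} : ∀ l : List α, Ev.llen l = l.length
  | [] => rfl
  | a :: l => by
    show Nat.succ (Ev.llen l) = _
    rw [llen_eq l]; rfl

theorem cl_eq {q n : ℕ} (hq : 0 < q) : cl q n = Ks q n := div_mo hq

theorem sl_at {L n i p W : ℕ} (hL : 0 < L) (hi : i < n) :
    (sl (Ks L n) W p).testBit (L * i) = W.testBit (L * i + p) := by
  unfold sl
  have h := Ks_at (q := L) (n := n) (i := i) (p := 0) hL
  rw [add_zero] at h
  rw [tb_land, tb_shr, h, Nat.add_comm p]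
  simp [hi]

theorem sl_spr {L n p W : ℕ} (hL : 0 < L) : Spr L (sl (Ks L n) W p) := spr_and' (Ks_spr hL)

/-- rows of the blocks -/
def Rw (q s u : ℕ) : Prop := ∃ i, u = s * i ∨ u = s * i + q

theorem Rw_far {q s u v : ℕ} (hs : 2 * q ≤ s) (hu : Rw q s u) (hv : Rw q s v) (h : u < v) :
    u + q ≤ v := by
  obtain ⟨i, hi⟩ := hu
  obtain ⟨j, hj⟩ := hv
  have h1 : ∀ a b, a < b → s * a + s ≤ s * b := fun a b hab => by
    have : s * (a + 1) ≤ s * b := Nat.mul_le_mul_left _ hab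
    rwa [Nat.mul_add, mul_one] at this
  rcases Nat.lt_trichotomy i j with hij | hij | hij
  · have := h1 i j hij
    omega
  · subst hij
    omega
  · have := h1 j i hij
    omega

/-! ### Closures -/

/-- `F k` = the matrix after `k` steps -/
theorem wsh {g : ℕ} {F : ℕ → ℕ → ℕ → Bool} {n : ℕ} (hn : n ≤ g)
    (hF : ∀ k < n, ∀ r < g, ∀ c < g, F (k + 1) r c = (F k r c || (F k r k && F k k c))) :
    ∀ m ≤ n, ∀ k < m, ∀ r < g, ∀ c < g, F m r k = true → F m k c = true → F m r c = true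
  | 0, _, k, hk, _, _, _, _, _, _ => by omega
  | m + 1, hm, k, hk, r, hr, c, hc, h1, h2 => by
    have ih := wsh hn hF m (by omega)
    have hs := hF m (by omega)
    have hmg : m < g := by omega
    have hkg : k < g := by omega
    rw [hs r hr k hkg, Bool.or_eq_true, Bool.and_eq_true] at h1
    rw [hs k hkg c hc, Bool.or_eq_true, Bool.and_eq_true] at h2
    rw [hs r hr c hc, Bool.or_eq_true, Bool.and_eq_true]
    rcases Nat.lt_succ_iff_lt_or_eq.1 hk with hk' | rfl
    · rcases h1 with h1 | ⟨h1, h1'⟩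
      · rcases h2 with h2 | ⟨h2, h2'⟩
        · exact Or.inl (ih k hk' r hr c hc h1 h2)
        · exact Or.inr ⟨ih k hk' r hr m hmg h1 h2, h2'⟩
      · rcases h2 with h2 | ⟨h2, h2'⟩
        · exact Or.inr ⟨h1, ih k hk' m hmg c hc h1' h2⟩
        · exact Or.inr ⟨h1, h2'⟩
    · have e1 : F k r k = true := by
        rcases h1 with h1 | ⟨h1, _⟩
        · exact h1
        · exact h1
      have e2 : F k k c = true := by
        rcases h2 with h2 | ⟨_, h2⟩
        · exact h2
        · exact h2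
      exact Or.inr ⟨e1, e2⟩

theorem wsh_mono {g : ℕ} {F : ℕ → ℕ → ℕ → Bool} {n : ℕ}
    (hF : ∀ k < n, ∀ r < g, ∀ c < g, F (k + 1) r c = (F k r c || (F k r k && F k k c))) :
    ∀ m ≤ n, ∀ r < g, ∀ c < g, F 0 r c = true → F m r c = true
  | 0, _, _, _, _, _, h => h
  | m + 1, hm, r, hr, c, hc, h => by
    rw [hF m (by omega) r hr c hc, wsh_mono hF m (by omega) r hr c hc h]
    rfl

theorem wsh_sym {g : ℕ} {F : ℕ → ℕ → ℕ → Bool} {n : ℕ} (hn : n ≤ g)
    (hF : ∀ k < n, ∀ r < g, ∀ c < g, F (k + 1) r c = (F k r c || (F k r k && F k k c)))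
    (h0 : ∀ r < g, ∀ c < g, F 0 r c = F 0 c r) :
    ∀ m ≤ n, ∀ r < g, ∀ c < g, F m r c = F m c r
  | 0, _, r, hr, c, hc => h0 r hr c hc
  | m + 1, hm, r, hr, c, hc => by
    have ih := wsh_sym hn hF h0 m (by omega)
    have hmg : m < g := by omega
    rw [hF m (by omega) r hr c hc, hF m (by omega) c hc r hr, ih r hr c hc, ih r hr m hmg,
      ih m hmg c hc, Bool.and_comm]

/-- soundness -/
theorem wsh_sub {g : ℕ} {F : ℕ → ℕ → ℕ → Bool} {n : ℕ} (hn : n ≤ g)
    (hF : ∀ k < n, ∀ r < g, ∀ c < g, F (k + 1) r c = (F k r c || (F k r k && F k k c)))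
    {T : ℕ → ℕ → Prop} (hT : ∀ k < n, ∀ r < g, ∀ c < g, T r k → T k c → T r c)
    (h0 : ∀ r < g, ∀ c < g, F 0 r c = true → T r c) :
    ∀ m ≤ n, ∀ r < g, ∀ c < g, F m r c = true → T r c
  | 0, _, r, hr, c, hc, h => h0 r hr c hc h
  | m + 1, hm, r, hr, c, hc, h => by
    have ih := wsh_sub hn hF hT h0 m (by omega)
    have hmg : m < g := by omega
    rw [hF m (by omega) r hr c hc, Bool.or_eq_true, Bool.and_eq_true] at h
    rcases h with h | ⟨h1, h2⟩
    · exact ih r hr c hc h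
    · exact hT m (by omega) r hr c hc (ih r hr m hmg h1) (ih m hmg c hc h2)

end Ev

namespace EV

variable {E : EV}

theorem L_eq : E.L = E.q * E.s := rfl
theorem z_eq : E.z = E.q - 2 := rfl
theorem g_eq : E.g = E.q - 1 := rfl
theorem mb_eq : E.mb = E.q * (2 * E.q) := rfl
theorem xb_eq : E.xb = E.mb + 2 * E.m := rfl

theorem Wf.qp (w : E.Wf) : 0 < E.q := by have := w.q3; omega

theorem Wf.s2 (w : E.Wf) : 2 * E.q ≤ E.s := by
  have h1 := w.hL
  rw [xb_eq, mb_eq, L_eq] at h1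
  have h2 : E.q * (2 * E.q) ≤ E.q * E.s := by omega
  exact Nat.le_of_mul_le_mul_left h2 w.qp

theorem Wf.Lp (w : E.Wf) : 0 < E.L := by
  rw [L_eq]
  exact Nat.mul_pos w.qp (by have := w.s2; have := w.qp; omega)

theorem Wf.zg (w : E.Wf) : E.z + 1 = E.g ∧ E.g + 1 = E.q ∧ 0 < E.z := by
  have := w.q3
  rw [z_eq, g_eq]
  omega

/-- a position of a row in a lane -/
theorem pos_eq {i r c : ℕ} : E.L * i + (E.q * r + c) = E.q * (E.s * i + r) + c := by
  rw [L_eq]
  ring

theorem Wf.row_lt (w : E.Wf) {r c : ℕ} (hr : r < E.s) (hc : c < E.q) : E.q * r + c < E.L := by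
  rw [L_eq]
  have : E.q * (r + 1) ≤ E.q * E.s := Nat.mul_le_mul_left _ hr
  rw [Nat.mul_add] at this
  omega

theorem idx_inj {q r c i j : ℕ} (hc : c < q) (hj : j < q) : q * r + c = q * i + j ↔ r = i ∧ c = j := by
  constructor
  · intro h
    have hq : 0 < q := by omega
    have h1 : (q * r + c) / q = (q * i + j) / q := by rw [h]
    rw [Nat.mul_add_div hq, Nat.mul_add_div hq, Nat.div_eq_of_lt hc, Nat.div_eq_of_lt hj] at h1
    have h2 : r = i := by omega
    subst h2
    exact ⟨rfl, by omega⟩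
  · rintro ⟨rfl, rfl⟩
    rfl

theorem bt_at {r c i j : ℕ} (hc : c < E.q) (hj : j < E.q) :
    (E.bt i j).testBit (E.q * r + c) = true ↔ r = i ∧ c = j := by
  unfold bt
  rw [tb_p2, decide_eq_true_eq]
  show E.q * i + j = E.q * r + c ↔ _
  rw [eq_comm]
  exact idx_inj hc hj

theorem b2_at {r c i j : ℕ} (hc : c < E.q) (hj : j < E.q) :
    (E.b2 i j).testBit (E.q * r + c) = true ↔ r = E.q + i ∧ c = j := by
  unfold b2
  rw [tb_p2, decide_eq_true_eq]
  show E.q * (E.q + i) + j = E.q * r + c ↔ _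
  rw [eq_comm]
  exact idx_inj hc hj

/-- the pair `(i, j)` or `(j, i)` -/
def S2 (i j r c : ℕ) : Prop := (r = i ∧ c = j) ∨ (r = j ∧ c = i)

theorem S2.symm {i j r c : ℕ} (h : S2 i j r c) : S2 i j c r := by
  unfold S2 at *
  tauto

theorem sy_at {r c i j : ℕ} (hc : c < E.q) (hi : i < E.q) (hj : j < E.q) :
    (E.sy i j).testBit (E.q * r + c) = true ↔ S2 i j r c := by
  unfold sy S2
  rw [tb_lor, Bool.or_eq_true, bt_at hc hj, bt_at hc hi]

theorem sy_at2 {r c i j : ℕ} (hc : c < E.q) (hi : i < E.q) (hj : j < E.q) :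
    ¬ (E.sy i j).testBit (E.q * (E.q + r) + c) = true := by
  rw [sy_at hc hi hj]
  unfold S2
  omega

theorem sy2_at {r c i j : ℕ} (hc : c < E.q) (hi : i < E.q) (hj : j < E.q) :
    (E.sy2 i j).testBit (E.q * (E.q + r) + c) = true ↔ S2 i j r c := by
  unfold sy2 S2
  rw [tb_lor, Bool.or_eq_true, b2_at hc hj, b2_at hc hi]
  omega

theorem sy2_at1 {r c i j : ℕ} (hr : r < E.q) (hc : c < E.q) (hi : i < E.q) (hj : j < E.q) :
    ¬ (E.sy2 i j).testBit (E.q * r + c) = true := by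
  unfold sy2
  rw [tb_lor, Bool.or_eq_true, b2_at hc hj, b2_at hc hi]
  omega

theorem Wf.sy_lt (w : E.Wf) {i j : ℕ} (hi : i < E.q) (hj : j < E.q) : E.sy i j < 2 ^ E.L := by
  have := w.s2
  have := w.qp
  exact lor_lt (p2_lt (w.row_lt (by omega) hj)) (p2_lt (w.row_lt (by omega) hi))

theorem Wf.sy2_lt (w : E.Wf) {i j : ℕ} (hi : i < E.q) (hj : j < E.q) : E.sy2 i j < 2 ^ E.L := by
  have := w.s2
  have := w.qp
  exact lor_lt (p2_lt (w.row_lt (r := E.q + i) (by omega) hj))
    (p2_lt (w.row_lt (r := E.q + j) (by omega) hi))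

/-! ### Columns and rows -/

theorem Sc_at {C M k u c : ℕ} (hC : Spr E.q C) (hq : 0 < E.q) (hc : c < E.q) :
    (E.Sc C M k).testBit (E.q * u + c) = (C.testBit (E.q * u) && M.testBit (E.q * u + k) &&
      decide (c < E.g)) := by
  unfold Sc
  rw [mul_at (spr_and' hC) (mo_le (by rw [g_eq]; omega)) hc, tb_mo, tb_land, tb_shr, Nat.add_comm k]
  congr 1
  exact Bool.and_comm _ _

theorem Wf.Rr_at (w : E.Wf) {R M k i b r c : ℕ}
    (hR : ∀ u c, c < E.q → R.testBit (E.q * u + c) = true → Rw E.q E.s u)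
    (hb : b = 0 ∨ b = E.q) (hr : r < E.q) (hc : c < E.q) :
    (E.Rr R M k).testBit (E.L * i + (E.q * (b + r) + c)) =
      (R.testBit (E.L * i + (E.q * b + c)) && M.testBit (E.L * i + (E.q * (b + k) + c))) := by
  have hX : ∀ u c, c < E.q → (Nat.land (Nat.shiftRight M (Nat.mul E.q k)) R).testBit (E.q * u + c) = true →
      Rw E.q E.s u := by
    intro u c hc h
    rw [tb_land, Bool.and_eq_true] at h
    exact hR u c hc h.2
  have hs := w.s2
  have key := rep_at w.qp hX (n := E.q) (fun u v hu hv h => Rw_far hs hu hv h) E.q le_rfl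
    (E.s * i + (b + r)) c hc
  rw [pos_eq, Bool.eq_iff_iff]
  unfold Rr
  rw [cl_eq w.qp]
  show ((Nat.land (Nat.shiftRight M (Nat.mul E.q k)) R) * Ks E.q E.q).testBit _ = true ↔ _
  rw [key]
  have e1 : (Nat.land (Nat.shiftRight M (Nat.mul E.q k)) R).testBit (E.q * (E.s * i + b) + c) =
      (R.testBit (E.L * i + (E.q * b + c)) && M.testBit (E.L * i + (E.q * (b + k) + c))) := by
    rw [tb_land, tb_shr, pos_eq, pos_eq, Bool.and_comm]
    congr 2
    show E.q * k + _ = _
    ring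
  rw [← e1]
  constructor
  · rintro ⟨r', h1, h2, h3⟩
    have hw1 := hX _ _ hc h3
    have hw2 : Rw E.q E.s (E.s * i + b) := by
      rcases hb with rfl | rfl
      · exact ⟨i, Or.inl rfl⟩
      · exact ⟨i, Or.inr rfl⟩
    have h4 : E.s * i + (b + r) - r' = E.s * i + b := by
      by_contra hne
      rcases Nat.lt_or_gt_of_ne hne with h5 | h5
      · have := Rw_far hs hw1 hw2 h5
        omega
      · have := Rw_far hs hw2 hw1 h5
        omega
    rwa [h4] at h3
  · intro h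
    exact ⟨r, hr, by omega, by rw [show E.s * i + (b + r) - r = E.s * i + b by omega]; exact h⟩

/-- one step of a closure in a block -/
theorem Wf.clo_at (w : E.Wf) {C R M k i b r c : ℕ} (hC : Spr E.q C)
    (hR : ∀ u c, c < E.q → R.testBit (E.q * u + c) = true → Rw E.q E.s u)
    (hb : b = 0 ∨ b = E.q) (hC1 : C.testBit (E.L * i + E.q * (b + r)) = true)
    (hR1 : R.testBit (E.L * i + (E.q * b + c)) = true) (hr : r < E.q) (hc : c < E.q) :
    (E.clo C R M (k + 1)).testBit (E.L * i + (E.q * (b + r) + c)) =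
      ((E.clo C R M k).testBit (E.L * i + (E.q * (b + r) + c)) || (decide (c < E.g) &&
        (E.clo C R M k).testBit (E.L * i + (E.q * (b + r) + k)) &&
        (E.clo C R M k).testBit (E.L * i + (E.q * (b + k) + c)))) := by
  show (Nat.lor (E.clo C R M k) (Nat.land (E.Sc C (E.clo C R M k) k)
    (E.Rr R (E.clo C R M k) k))).testBit _ = _
  have e0 : C.testBit (E.q * (E.s * i + (b + r))) = true := by
    rw [← hC1]
    congr 1
    rw [L_eq]
    ring
  rw [tb_lor, tb_land, w.Rr_at hR hb hr hc, hR1]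
  congr 1
  rw [pos_eq, Sc_at hC w.qp hc, e0]
  rw [show E.L * i + (E.q * (b + r) + k) = E.q * (E.s * i + (b + r)) + k from pos_eq]
  cases decide (c < E.g) <;> simp

end EV

end Pool.FC7
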