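import Pool.Agent.FC7.EvC

/-! # Vector checks: one lane of the test -/

set_option linter.unusedSectionVars false

namespace Pool.FC7

open Ev

namespace Ev

theorem ble_iff {a b : ℕ} : Nat.ble a b = true ↔ a ≤ b := by rw [Nat.ble_eq]

/-- the ones of a product with a word -/
theorem spr_mul {q s X D : ℕ} (hL : 0 < q * s) (hX : Spr (q * s) X) (hD : D < 2 ^ (q * s)) (hD' : Spr q D) :
    Spr q (Nat.mul X D) := by
  intro p h
  have e : p = q * s * (p / (q * s)) + p % (q * s) := (Nat.div_add_mod _ _).symm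
  have hp : p % (q * s) < q * s := Nat.mod_lt _ hL
  rw [e, mul_at hX hD hp, Bool.and_eq_true] at h
  have h1 := hD' _ h.2
  rw [e]
  exact Dvd.dvd.add (Dvd.intro (s * (p / (q * s))) (by ring)) h1

theorem fy_at {E : EV} {y : EY} {n W i : ℕ} (hi : i < n) (hL : 0 < E.L) :
    (E.fy (Ks E.L n) W y).testBit (E.L * i) = (match y.k with
      | 0 => true
      | 1 => (E.cd (Ks E.L n) W y.a y.b).testBit (E.L * i)
      | _ => !(E.cd (Ks E.L n) W y.a y.b).testBit (E.L * i)) := by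
  have hO : (Ks E.L n).testBit (E.L * i) = true := by
    have := Ks_at (q := E.L) (n := n) (i := i) (p := 0) hL
    rw [add_zero] at this
    rw [this]; simp [hi]
  unfold EV.fy
  rcases y with ⟨f, f', k, a, b⟩
  rcases k with _ | _ | k
  · exact hO
  · rfl
  · show (Nat.xor (Ks E.L n) (E.cd (Ks E.L n) W a b)).testBit (E.L * i) = _
    rw [tb_xor, hO]
    cases (E.cd (Ks E.L n) W a b).testBit (E.L * i) <;> rfl

section
variable {α : Type}

noncomputable def GG (q : ℕ) (φ : α → ℕ) (l : List α) : ℕ :=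
  fo l (fun y acc => Nat.lor (Nat.shiftLeft acc q) (φ y)) 0

theorem GG_cons {q : ℕ} {φ : α → ℕ} {y : α} {l : List α} :
    GG q φ (y :: l) = Nat.lor (Nat.shiftLeft (GG q φ l) q) (φ y) := rfl

theorem GG_zero {q : ℕ} {φ : α → ℕ} {y : α} {l : List α} {c : ℕ} (hc : c < q) :
    (GG q φ (y :: l)).testBit (q * 0 + c) = (φ y).testBit c := by
  rw [GG_cons, tb_lor, tb_shl, mul_zero, zero_add]
  have : ¬ q ≤ c := by omega
  simp [this]

theorem GG_succ {q : ℕ} {φ : α → ℕ} {y : α} {l : List α} {u c : ℕ} (hc : c < q)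
    (hy : φ y < 2 ^ q) : (GG q φ (y :: l)).testBit (q * (u + 1) + c) =
    (GG q φ l).testBit (q * u + c) := by
  rw [GG_cons, tb_lor, tb_shl]
  have h1 : q ≤ q * (u + 1) + c := by rw [Nat.mul_add]; omega
  have h2 : q * (u + 1) + c - q = q * u + c := by rw [Nat.mul_add]; omega
  have h3 : (φ y).testBit (q * (u + 1) + c) = false := by
    by_contra hcon
    rw [Bool.not_eq_false] at hcon
    have := tb_of_lt hy hcon
    omega
  rw [h2, h3]
  simp [h1]

theorem GG_lt {q : ℕ} {φ : α → ℕ} : ∀ {l : List α}, (∀ y ∈ l, φ y < 2 ^ q) →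
    GG q φ l < 2 ^ (q * l.length)
  | [], _ => by
    show 0 < _
    exact Nat.two_pow_pos _
  | y :: l, h => by
    apply lt_of_tb
    intro p hp
    rw [GG_cons, tb_lor, tb_shl, Bool.or_eq_true, Bool.and_eq_true, decide_eq_true_eq] at hp
    rw [List.length_cons, Nat.mul_add, mul_one]
    rcases hp with ⟨h1, h2⟩ | h1
    · have := tb_of_lt (GG_lt (l := l) (fun y hy => h y (List.mem_cons_of_mem _ hy))) h2
      omega
    · have := tb_of_lt (h y (by simp)) h1
      omega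

/-- slices in the rows: the positions -/
theorem GG_pos {q s : ℕ} {φ : α → ℕ} : ∀ {l : List α}, (∀ y ∈ l, Spr (q * s) (φ y)) → ∀ p,
    (GG q φ l).testBit p = true → ∃ i u, u < l.length ∧ p = q * (s * i + u)
  | [], _, p, h => by
    have : GG q φ ([] : List α) = 0 := rfl
    rw [this, Nat.zero_testBit] at h
    cases h
  | y :: l, hl, p, h => by
    rw [GG_cons, tb_lor, tb_shl, Bool.or_eq_true, Bool.and_eq_true, decide_eq_true_eq] at h
    rcases h with ⟨h1, h2⟩ | h1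
    · obtain ⟨i, u, h3, h4⟩ := GG_pos (l := l) (fun y hy => hl y (List.mem_cons_of_mem _ hy)) _ h2
      refine ⟨i, u + 1, by simp [h3], ?_⟩
      have : p = p - q + q := by omega
      rw [this, h4]
      ring
    · obtain ⟨i, hi⟩ := hl y (by simp) p h1
      exact ⟨i, 0, by simp, by rw [hi]; ring⟩

theorem GG_row0 {q s : ℕ} (hq : 0 < q) {φ : α → ℕ} {y : α} {l : List α} {i : ℕ} (hs : l.length + 1 ≤ s)
    (hl : ∀ y ∈ l, Spr (q * s) (φ y)) :
    (GG q φ (y :: l)).testBit (q * (s * i + 0)) = (φ y).testBit (q * s * i) := by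
  rw [GG_cons, tb_lor, tb_shl]
  have h1 : ¬ (q ≤ q * (s * i + 0) ∧ (GG q φ l).testBit (q * (s * i + 0) - q) = true) := by
    rintro ⟨h1, h2⟩
    obtain ⟨j, u, h3, h4⟩ := GG_pos hl _ h2
    have h5 : q * (s * i + 0) = q * (s * j + (u + 1)) := by
      rw [show s * j + (u + 1) = (s * j + u) + 1 by ring, Nat.mul_add q (s * j + u) 1, ← h4]
      omega
    have h6 := Nat.eq_of_mul_eq_mul_left hq h5
    rw [add_zero] at h6
    have h7 : s ∣ u + 1 := (Nat.dvd_add_right (Dvd.intro j rfl)).1 (h6 ▸ Dvd.intro i rfl)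
    have := Nat.le_of_dvd (by omega) h7
    omega
  have h2 : (decide (q ≤ q * (s * i + 0)) && (GG q φ l).testBit (q * (s * i + 0) - q)) = false := by
    rw [Bool.eq_false_iff]
    intro h
    rw [Bool.and_eq_true, decide_eq_true_eq] at h
    exact h1 h
  rw [h2, Bool.false_or]
  congr 1
  ring

theorem GG_rows {q s : ℕ} (hq : 0 < q) {φ : α → ℕ} {y : α} {l : List α} {i u : ℕ} (hu : u + 1 < s)
    (hy : Spr (q * s) (φ y)) :
    (GG q φ (y :: l)).testBit (q * (s * i + (u + 1))) = (GG q φ l).testBit (q * (s * i + u)) := by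
  rw [GG_cons, tb_lor, tb_shl]
  have h1 : q ≤ q * (s * i + (u + 1)) := by
    calc q = q * 1 := (mul_one q).symm
      _ ≤ _ := Nat.mul_le_mul_left _ (by omega)
  have h2 : q * (s * i + (u + 1)) - q = q * (s * i + u) := by
    rw [show s * i + (u + 1) = (s * i + u) + 1 by ring, Nat.mul_add q (s * i + u) 1]
    omega
  have h3 : (φ y).testBit (q * (s * i + (u + 1))) = false := by
    by_contra hcon
    rw [Bool.not_eq_false] at hcon
    have h4 := hy _ hcon
    have h5 : s ∣ s * i + (u + 1) := Nat.dvd_of_mul_dvd_mul_left hq h4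
    have h6 : s ∣ u + 1 := (Nat.dvd_add_right (Dvd.intro i rfl)).1 h5
    have := Nat.le_of_dvd (by omega) h6
    omega
  rw [h2, h3]
  simp [h1]

/-- the row of an element -/
theorem GG_mem {q s : ℕ} (hq : 0 < q) {φ φ' ψ : α → ℕ} : ∀ {l : List α}, l.length ≤ s →
    (∀ y ∈ l, φ y < 2 ^ q ∧ φ' y < 2 ^ q ∧ Spr (q * s) (ψ y)) → ∀ y ∈ l, ∃ u < l.length,
      (∀ c < q, (GG q φ l).testBit (q * u + c) = (φ y).testBit c) ∧
      (∀ c < q, (GG q φ' l).testBit (q * u + c) = (φ' y).testBit c) ∧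
      ∀ i, (GG q ψ l).testBit (q * (s * i + u)) = (ψ y).testBit (q * s * i)
  | [], _, _, y, hy => by simp at hy
  | z :: l, hs, h, y, hy => by
    rw [List.length_cons] at hs
    obtain ⟨z1, z2, z3⟩ := h z (by simp)
    have h' : ∀ y ∈ l, φ y < 2 ^ q ∧ φ' y < 2 ^ q ∧ Spr (q * s) (ψ y) :=
      fun y hy => h y (List.mem_cons_of_mem _ hy)
    rcases List.mem_cons.1 hy with rfl | hy
    · exact ⟨0, by simp, fun c hc => GG_zero hc, fun c hc => GG_zero hc,
        fun i => GG_row0 hq hs fun y hy => (h' y hy).2.2⟩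
    · obtain ⟨u, u1, u2, u3, u4⟩ := GG_mem hq (l := l) (by omega) h' y hy
      refine ⟨u + 1, by simp [u1], fun c hc => ?_, fun c hc => ?_, fun i => ?_⟩
      · rw [GG_succ hc z1, u2 c hc]
      · rw [GG_succ hc z2, u3 c hc]
      · rw [GG_rows hq (by omega) z3, u4]

end

end Ev

namespace EV

variable {E : EV}

/-- known to be true / false, colours `ξ` -/
def tT (E : EV) (W i a : ℕ) : Bool := W.testBit (E.L * i + (E.mb + a))
def tF (E : EV) (W i a : ℕ) : Bool := W.testBit (E.L * i + (E.mb + (E.m + a)))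
def tX (E : EV) (W i a : ℕ) : Bool := W.testBit (E.L * i + (E.xb + a))
/-- blocks -/
def p1 (E : EV) (W i r c : ℕ) : Bool := W.testBit (E.L * i + (E.q * r + c))
def q1 (E : EV) (W i r c : ℕ) : Bool := W.testBit (E.L * i + (E.q * (E.q + r) + c))

def dif (E : EV) (W i a b : ℕ) : Bool := (E.tT W i a && E.tF W i b) || (E.tF W i a && E.tT W i b)
def mdf (E : EV) (W i a b : ℕ) : Bool := !((E.tT W i a && E.tT W i b) || (E.tF W i a && E.tF W i b))
def cPv (E : EV) (W i a : ℕ) : Bool := if a < E.x then E.tX W i a else E.tT W i a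
def acb (E : EV) (W i : ℕ) (a : EA) : Bool := E.p1 W i a.t E.z || (a.s && E.dif W i a.a a.b)

section
variable {n i : ℕ} (w : E.Wf) (hi : i < n) {W : ℕ}

include w hi

theorem Wf.O_at : (Ks E.L n).testBit (E.L * i) = true := by
  have := Ks_at (q := E.L) (n := n) (i := i) (p := 0) w.Lp
  rw [add_zero] at this
  rw [this]; simp [hi]

theorem Wf.cT_at {a : ℕ} : (E.cT (Ks E.L n) W a).testBit (E.L * i) = E.tT W i a := sl_at w.Lp hi

theorem Wf.cF_at {a : ℕ} : (E.cF (Ks E.L n) W a).testBit (E.L * i) = E.tF W i a := sl_at w.Lp hi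

theorem Wf.cX_at {a : ℕ} : (E.cX (Ks E.L n) W a).testBit (E.L * i) = E.tX W i a := sl_at w.Lp hi

theorem Wf.cP_at {a : ℕ} : (E.cP (Ks E.L n) W a).testBit (E.L * i) = E.cPv W i a := by
  unfold cP cPv
  by_cases h : a < E.x
  · have : Nat.ble (Nat.succ a) E.x = true := ble_iff.2 h
    rw [this, if_pos h]
    exact w.cX_at hi
  · have : Nat.ble (Nat.succ a) E.x = false := by
      rw [Bool.eq_false_iff]
      intro hc
      exact h (ble_iff.1 hc)
    rw [this, if_neg h]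
    exact w.cT_at hi

theorem Wf.cd_at {a b : ℕ} : (E.cd (Ks E.L n) W a b).testBit (E.L * i) = E.dif W i a b := by
  unfold cd dif
  rw [tb_lor, tb_land, tb_land, w.cT_at hi, w.cF_at hi, w.cT_at hi, w.cF_at hi]

theorem Wf.md_at {a b : ℕ} : (E.md (Ks E.L n) W a b).testBit (E.L * i) = E.mdf W i a b := by
  unfold md mdf
  rw [tb_xor, tb_lor, tb_land, tb_land, w.cT_at hi, w.cF_at hi, w.cT_at hi, w.cF_at hi, w.O_at hi]
  cases ((E.tT W i a && E.tT W i b) || (E.tF W i a && E.tF W i b)) <;> rfl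

theorem Wf.ac_at {a : EA} : (E.ac (Ks E.L n) W a).testBit (E.L * i) = E.acb W i a := by
  unfold ac acb
  cases a.s
  · show (sl (Ks E.L n) W (E.q * a.t + E.z)).testBit (E.L * i) = _
    rw [sl_at w.Lp hi, Bool.false_and, Bool.or_false]
    rfl
  · show (Nat.lor (sl (Ks E.L n) W (E.q * a.t + E.z)) (E.cd (Ks E.L n) W a.a a.b)).testBit (E.L * i) = _
    rw [tb_lor, sl_at w.Lp hi, w.cd_at hi, Bool.true_and]
    rfl

omit hi in
theorem Wf.cP_spr {a : ℕ} : Spr E.L (E.cP (Ks E.L n) W a) := by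
  unfold cP
  cases Nat.ble (Nat.succ a) E.x
  · exact sl_spr w.Lp
  · exact sl_spr w.Lp

omit hi in
theorem Wf.cd_spr {a b : ℕ} : Spr E.L (E.cd (Ks E.L n) W a b) :=
  spr_or (spr_and (sl_spr w.Lp)) (spr_and (sl_spr w.Lp))

omit hi in
theorem Wf.md_spr {a b : ℕ} : Spr E.L (E.md (Ks E.L n) W a b) :=
  spr_xor (Ks_spr w.Lp) (spr_or (spr_and (sl_spr w.Lp)) (spr_and (sl_spr w.Lp)))

omit hi in
theorem Wf.ac_spr {a : EA} : Spr E.L (E.ac (Ks E.L n) W a) := by
  unfold ac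
  cases a.s
  · exact sl_spr w.Lp
  · exact spr_or (sl_spr w.Lp) w.cd_spr

omit hi in
theorem Wf.fy_spr {y : EY} : Spr E.L (E.fy (Ks E.L n) W y) := by
  unfold fy
  rcases y with ⟨f, f', k, a, b⟩
  rcases k with _ | _ | k
  · exact Ks_spr w.Lp
  · exact w.cd_spr
  · exact spr_xor (Ks_spr w.Lp) w.cd_spr

/-- symmetric relation of an edge -/
def D3 (z i j r c : ℕ) : Prop := S2 i j r c ∨ S2 i z r c ∨ S2 j z r c

omit w hi in
theorem D3.symm {z i j r c : ℕ} (h : D3 z i j r c) : D3 z i j c r := by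
  unfold D3 at *
  exact h.imp S2.symm fun h => h.imp S2.symm S2.symm

omit hi in
theorem Wf.rowlt1 {r c : ℕ} (hr : r < E.q) (hc : c < E.q) : E.q * r + c < E.L :=
  w.row_lt (by have := w.s2; omega) hc

omit hi in
theorem Wf.rowlt2 {r c : ℕ} (hr : r < E.q) (hc : c < E.q) : E.q * (E.q + r) + c < E.L :=
  w.row_lt (by have := w.s2; omega) hc

omit hi in
theorem Wf.idm_aux {k p : ℕ} : (Nat.rec (motive := fun _ => ℕ) 0
    (fun i ih => Nat.lor ih (Nat.lor (E.bt i i) (E.b2 i i))) k).testBit p = true ↔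
    ∃ j < k, ((E.bt j j).testBit p = true ∨ (E.b2 j j).testBit p = true) := by
  induction k with
  | zero => simp
  | succ k ih =>
    show (Nat.lor _ (Nat.lor (E.bt k k) (E.b2 k k))).testBit p = true ↔ _
    rw [tb_lor, tb_lor, Bool.or_eq_true, Bool.or_eq_true, ih]
    constructor
    · rintro (⟨j, h1, h2⟩ | h)
      · exact ⟨j, by omega, h2⟩
      · exact ⟨k, by omega, h⟩
    · rintro ⟨j, h1, h2⟩
      rcases Nat.lt_succ_iff_lt_or_eq.1 h1 with h | rfl
      · exact Or.inl ⟨j, h, h2⟩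
      · exact Or.inr h2

omit hi in
theorem Wf.idm_at {p : ℕ} : E.idm.testBit p = true ↔
    ∃ j < E.z + 1, ((E.bt j j).testBit p = true ∨ (E.b2 j j).testBit p = true) := by
  exact w.idm_aux (k := Nat.succ E.z)

omit hi in
theorem Wf.idm_lt : E.idm < 2 ^ E.L := by
  apply lt_of_tb
  intro p hp
  have hz := w.zg
  have hp' := w.idm_at.1 hp
  obtain ⟨j, h1, h2⟩ := hp'
  have hj : j < E.q := by
    have : j < E.z + 1 := h1
    omega
  rcases h2 with h2 | h2
  · unfold bt at h2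
    rw [tb_p2, decide_eq_true_eq] at h2
    rw [← h2]
    exact w.rowlt1 hj hj
  · unfold b2 at h2
    rw [tb_p2, decide_eq_true_eq] at h2
    rw [← h2]
    exact w.rowlt2 hj hj

/-- the matrix before the closure, block 1 -/
theorem Wf.M0_at1 {r c : ℕ} (hr : r < E.q) (hc : c < E.q) :
    (E.M0 (Ks E.L n) W).testBit (E.L * i + (E.q * r + c)) = true ↔
      (∃ e ∈ E.es, (E.cPv W i e.a != E.cPv W i e.b) = true ∧ D3 E.z e.i e.j r c) ∨
      (∃ a ∈ E.ars, E.acb W i a = true ∧ S2 a.c E.z r c) ∨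
      (∃ a b, [a, b].Sublist E.ars ∧ E.p1 W i a.t b.t = true ∧ S2 a.c b.c r c) ∨
      (r = c ∧ r ≤ E.z) := by
  obtain ⟨hz1, hz2, hz3⟩ := w.zg
  have hp := w.rowlt1 hr hc
  unfold M0
  rw [fo_lor, fo_lor, fo_lor, fo_pair]
  have e0 : (Nat.mul (Ks E.L n) E.idm).testBit (E.L * i + (E.q * r + c)) = true ↔ r = c ∧ r ≤ E.z := by
    rw [mul_at (Ks_spr w.Lp) w.idm_lt hp, w.O_at hi, Bool.true_and]
    refine w.idm_at.trans ?_
    constructor
    · rintro ⟨j, h1, h2⟩
      have hj : j < E.q := by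
        have : j < E.z + 1 := h1
        omega
      have h1' : j < E.z + 1 := h1
      rcases h2 with h2 | h2
      · have := (bt_at hc hj).1 h2
        omega
      · have := (b2_at hc hj).1 h2
        omega
    · rintro ⟨rfl, h⟩
      exact ⟨r, Nat.lt_succ_of_le h, Or.inl ((bt_at hc hr).2 ⟨rfl, rfl⟩)⟩
  have e1 : ∀ e ∈ E.es, ((Nat.mul (Nat.xor (E.cP (Ks E.L n) W e.a) (E.cP (Ks E.L n) W e.b))
      (E.Dp e.i e.j)).testBit (E.L * i + (E.q * r + c)) = true ↔
      (E.cPv W i e.a != E.cPv W i e.b) = true ∧ D3 E.z e.i e.j r c) := by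
    intro e he
    obtain ⟨h1, h2, -⟩ := w.es e he
    have hd : E.Dp e.i e.j < 2 ^ E.L := lor_lt (w.sy_lt (by omega) (by omega))
      (lor_lt (w.sy_lt (by omega) (by omega)) (w.sy_lt (by omega) (by omega)))
    rw [mul_at (spr_xor w.cP_spr w.cP_spr) hd hp, tb_xor, w.cP_at hi, w.cP_at hi, Bool.and_eq_true]
    unfold Dp
    rw [tb_lor, tb_lor, Bool.or_eq_true, Bool.or_eq_true, sy_at hc (by omega) (by omega),
      sy_at hc (by omega) (by omega), sy_at hc (by omega) (by omega)]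
    rfl
  have e2 : ∀ e ∈ E.es', ¬ (Nat.mul (E.md (Ks E.L n) W e.a e.b)
      (E.Dq e.i e.j)).testBit (E.L * i + (E.q * r + c)) = true := by
    intro e he
    obtain ⟨h1, h2, -⟩ := w.es' e he
    have hd : E.Dq e.i e.j < 2 ^ E.L := lor_lt (w.sy2_lt (by omega) (by omega))
      (lor_lt (w.sy2_lt (by omega) (by omega)) (w.sy2_lt (by omega) (by omega)))
    rw [mul_at w.md_spr hd hp, Bool.and_eq_true]
    rintro ⟨-, h⟩
    unfold Dq at h
    rw [tb_lor, tb_lor, Bool.or_eq_true, Bool.or_eq_true] at h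
    rcases h with h | h | h
    · exact sy2_at1 hr hc (by omega) (by omega) h
    · exact sy2_at1 hr hc (by omega) (by omega) h
    · exact sy2_at1 hr hc (by omega) (by omega) h
  have e3 : ∀ a ∈ E.ars, ((Nat.mul (E.ac (Ks E.L n) W a)
      (Nat.lor (E.sy a.c E.z) (E.sy2 a.c' E.z))).testBit (E.L * i + (E.q * r + c)) = true ↔
      E.acb W i a = true ∧ S2 a.c E.z r c) := by
    intro a ha
    obtain ⟨h0, h1, h2, -⟩ := w.ars a ha
    have hd : Nat.lor (E.sy a.c E.z) (E.sy2 a.c' E.z) < 2 ^ E.L :=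
      lor_lt (w.sy_lt (by omega) (by omega)) (w.sy2_lt (by omega) (by omega))
    rw [mul_at w.ac_spr hd hp, w.ac_at hi, Bool.and_eq_true, tb_lor, Bool.or_eq_true,
      sy_at hc (by omega) (by omega)]
    have := sy2_at1 (E := E) (i := a.c') (j := E.z) hr hc (by omega) (by omega)
    tauto
  have e4 : ∀ a b, [a, b].Sublist E.ars → ((Nat.mul (sl (Ks E.L n) W (Nat.add (Nat.mul E.q a.t) b.t))
      (E.sy a.c b.c)).testBit (E.L * i + (E.q * r + c)) = true ↔
      E.p1 W i a.t b.t = true ∧ S2 a.c b.c r c) := by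
    intro a b hab
    obtain ⟨h1, h2⟩ := pair_mem hab
    obtain ⟨-, h3, -⟩ := w.ars a h1
    obtain ⟨-, h4, -⟩ := w.ars b h2
    rw [mul_at (sl_spr w.Lp) (w.sy_lt (by omega) (by omega)) hp, sl_at w.Lp hi, Bool.and_eq_true,
      sy_at hc (by omega) (by omega)]
    rfl
  rw [e0]
  constructor
  · rintro ((((h | ⟨a, b, h1, h2⟩) | ⟨a, h1, h2⟩) | ⟨e, h1, h2⟩) | ⟨e, h1, h2⟩)
    · exact Or.inr (Or.inr (Or.inr h))
    · exact Or.inr (Or.inr (Or.inl ⟨a, b, h1, (e4 a b h1).1 h2⟩))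
    · exact Or.inr (Or.inl ⟨a, h1, (e3 a h1).1 h2⟩)
    · exact absurd h2 (e2 e h1)
    · exact Or.inl ⟨e, h1, (e1 e h1).1 h2⟩
  · rintro (⟨e, h1, h2⟩ | ⟨a, h1, h2⟩ | ⟨a, b, h1, h2⟩ | h)
    · exact Or.inr ⟨e, h1, (e1 e h1).2 h2⟩
    · exact Or.inl (Or.inl (Or.inr ⟨a, h1, (e3 a h1).2 h2⟩))
    · exact Or.inl (Or.inl (Or.inl (Or.inr ⟨a, b, h1, (e4 a b h1).2 h2⟩)))
    · exact Or.inl (Or.inl (Or.inl (Or.inl h)))

/-- block 2 -/
theorem Wf.M0_at2 {r c : ℕ} (hr : r < E.q) (hc : c < E.q) :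
    (E.M0 (Ks E.L n) W).testBit (E.L * i + (E.q * (E.q + r) + c)) = true ↔
      (∃ e ∈ E.es', E.mdf W i e.a e.b = true ∧ D3 E.z e.i e.j r c) ∨
      (∃ a ∈ E.ars, E.acb W i a = true ∧ S2 a.c' E.z r c) ∨
      (r = c ∧ r ≤ E.z) := by
  obtain ⟨hz1, hz2, hz3⟩ := w.zg
  have hp := w.rowlt2 hr hc
  unfold M0
  rw [fo_lor, fo_lor, fo_lor, fo_pair]
  have e0 : (Nat.mul (Ks E.L n) E.idm).testBit (E.L * i + (E.q * (E.q + r) + c)) = true ↔
      r = c ∧ r ≤ E.z := by
    rw [mul_at (Ks_spr w.Lp) w.idm_lt hp, w.O_at hi, Bool.true_and]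
    refine w.idm_at.trans ?_
    constructor
    · rintro ⟨j, h1, h2⟩
      have h1' : j < E.z + 1 := h1
      have hj : j < E.q := by omega
      rcases h2 with h2 | h2
      · have := (bt_at hc hj).1 h2
        omega
      · have := (b2_at hc hj).1 h2
        omega
    · rintro ⟨rfl, h⟩
      exact ⟨r, Nat.lt_succ_of_le h, Or.inr ((b2_at hc hr).2 ⟨rfl, rfl⟩)⟩
  have e1 : ∀ e ∈ E.es, ¬ (Nat.mul (Nat.xor (E.cP (Ks E.L n) W e.a) (E.cP (Ks E.L n) W e.b))
      (E.Dp e.i e.j)).testBit (E.L * i + (E.q * (E.q + r) + c)) = true := by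
    intro e he
    obtain ⟨h1, h2, -⟩ := w.es e he
    have hd : E.Dp e.i e.j < 2 ^ E.L := lor_lt (w.sy_lt (by omega) (by omega))
      (lor_lt (w.sy_lt (by omega) (by omega)) (w.sy_lt (by omega) (by omega)))
    rw [mul_at (spr_xor w.cP_spr w.cP_spr) hd hp, Bool.and_eq_true]
    rintro ⟨-, h⟩
    unfold Dp at h
    rw [tb_lor, tb_lor, Bool.or_eq_true, Bool.or_eq_true] at h
    rcases h with h | h | h
    · exact sy_at2 hc (by omega) (by omega) h
    · exact sy_at2 hc (by omega) (by omega) h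
    · exact sy_at2 hc (by omega) (by omega) h
  have e2 : ∀ e ∈ E.es', ((Nat.mul (E.md (Ks E.L n) W e.a e.b)
      (E.Dq e.i e.j)).testBit (E.L * i + (E.q * (E.q + r) + c)) = true ↔
      E.mdf W i e.a e.b = true ∧ D3 E.z e.i e.j r c) := by
    intro e he
    obtain ⟨h1, h2, -⟩ := w.es' e he
    have hd : E.Dq e.i e.j < 2 ^ E.L := lor_lt (w.sy2_lt (by omega) (by omega))
      (lor_lt (w.sy2_lt (by omega) (by omega)) (w.sy2_lt (by omega) (by omega)))
    rw [mul_at w.md_spr hd hp, w.md_at hi, Bool.and_eq_true]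
    unfold Dq
    rw [tb_lor, tb_lor, Bool.or_eq_true, Bool.or_eq_true, sy2_at hc (by omega) (by omega),
      sy2_at hc (by omega) (by omega), sy2_at hc (by omega) (by omega)]
    rfl
  have e3 : ∀ a ∈ E.ars, ((Nat.mul (E.ac (Ks E.L n) W a)
      (Nat.lor (E.sy a.c E.z) (E.sy2 a.c' E.z))).testBit (E.L * i + (E.q * (E.q + r) + c)) = true ↔
      E.acb W i a = true ∧ S2 a.c' E.z r c) := by
    intro a ha
    obtain ⟨h0, h1, h2, -⟩ := w.ars a ha
    have hd : Nat.lor (E.sy a.c E.z) (E.sy2 a.c' E.z) < 2 ^ E.L :=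
      lor_lt (w.sy_lt (by omega) (by omega)) (w.sy2_lt (by omega) (by omega))
    rw [mul_at w.ac_spr hd hp, w.ac_at hi, Bool.and_eq_true, tb_lor, Bool.or_eq_true,
      sy2_at hc (by omega) (by omega)]
    have := sy_at2 (E := E) (r := r) (i := a.c) (j := E.z) hc (by omega) (by omega)
    tauto
  have e4 : ∀ a b, [a, b].Sublist E.ars → ¬ (Nat.mul (sl (Ks E.L n) W (Nat.add (Nat.mul E.q a.t) b.t))
      (E.sy a.c b.c)).testBit (E.L * i + (E.q * (E.q + r) + c)) = true := by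
    intro a b hab
    obtain ⟨h1, h2⟩ := pair_mem hab
    obtain ⟨-, h3, -⟩ := w.ars a h1
    obtain ⟨-, h4, -⟩ := w.ars b h2
    rw [mul_at (sl_spr w.Lp) (w.sy_lt (by omega) (by omega)) hp, Bool.and_eq_true]
    rintro ⟨-, h⟩
    exact sy_at2 hc (by omega) (by omega) h
  rw [e0]
  constructor
  · rintro ((((h | ⟨a, b, h1, h2⟩) | ⟨a, h1, h2⟩) | ⟨e, h1, h2⟩) | ⟨e, h1, h2⟩)
    · exact Or.inr (Or.inr h)
    · exact absurd h2 (e4 a b h1)
    · exact Or.inr (Or.inl ⟨a, h1, (e3 a h1).1 h2⟩)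
    · exact Or.inl ⟨e, h1, (e2 e h1).1 h2⟩
    · exact absurd h2 (e1 e h1)
  · rintro (⟨e, h1, h2⟩ | ⟨a, h1, h2⟩ | h)
    · exact Or.inl (Or.inr ⟨e, h1, (e2 e h1).2 h2⟩)
    · exact Or.inl (Or.inl (Or.inr ⟨a, h1, (e3 a h1).2 h2⟩))
    · exact Or.inl (Or.inl (Or.inl (Or.inl h)))

end

end EV

end Pool.FC7
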