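import Pool.Agent.FC7.EvD

/-! # Vector checks: one lane of the test, the closure and the transfer conditions -/

set_option linter.unusedSectionVars false

namespace Pool.FC7

open Ev

namespace Ev

theorem Ks_lt {q n m : ℕ} (hq : 0 < q) (h : q * n ≤ m) : Ks q n < 2 ^ m := by
  apply lt_of_tb
  intro p hp
  obtain ⟨t, h1, rfl⟩ := (Ks_bit hq).1 hp
  have : q * (t + 1) ≤ q * n := Nat.mul_le_mul_left _ h1
  rw [Nat.mul_add] at this
  omega

theorem Ks_row {q n r : ℕ} (hq : 0 < q) : (Ks q n).testBit (q * r) = decide (r < n) := by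
  have := Ks_at (q := q) (n := n) (i := r) (p := 0) hq
  rw [add_zero] at this
  rw [this]; simp

theorem one_two {N p : ℕ} (hN : 0 < N) : (Nat.add 1 (p2 N)).testBit p = true ↔ p = 0 ∨ p = N := by
  have e : Nat.add 1 (p2 N) = 1 ||| 2 ^ N := by
    refine add_or fun i => ?_
    rintro ⟨h1, h2⟩
    rw [Nat.testBit_one_eq_true_iff_self_eq_zero] at h1
    have h3 : (2 ^ N).testBit i = true := h2
    rw [Nat.testBit_two_pow, decide_eq_true_eq] at h3
    omega
  rw [e, Nat.testBit_or, Bool.or_eq_true, Nat.testBit_one_eq_true_iff_self_eq_zero,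
    Nat.testBit_two_pow, decide_eq_true_eq, @eq_comm _ N p]

/-- positions -/
theorem pos_split {q s p : ℕ} (hs : 0 < s) (hq : 0 < q) :
    p = q * s * (p / q / s) + (q * (p / q % s) + p % q) := by
  have h1 : q * (p / q) + p % q = p := Nat.div_add_mod p q
  have h2 : s * (p / q / s) + p / q % s = p / q := Nat.div_add_mod (p / q) s
  calc p = q * (p / q) + p % q := h1.symm
    _ = q * (s * (p / q / s) + p / q % s) + p % q := by rw [h2]
    _ = _ := by ring

end Ev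

namespace EV

variable {E : EV}

section
variable {n i : ℕ} (w : E.Wf) {W : ℕ}

include w

theorem Wf.sp : 0 < E.s := by
  have := w.s2
  have := w.qp
  omega

theorem Wf.row_eq {u c : ℕ} : E.q * u + c = E.L * (u / E.s) + (E.q * (u % E.s) + c) := by
  rw [pos_eq, Nat.div_add_mod]

theorem Wf.row_bd {u c : ℕ} (hc : c < E.q) : E.q * (u % E.s) + c < E.L :=
  w.row_lt (Nat.mod_lt _ w.sp) hc

theorem Wf.COL_at (hi : i < n) {r : ℕ} (hr : r < 2 * E.q) :
    (E.COL (Ks E.L n)).testBit (E.L * i + E.q * r) = true := by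
  have hs := w.s2
  have hq := w.qp
  unfold COL
  rw [cl_eq hq, mul_at (Ks_spr w.Lp) (Ks_lt hq (by
    show E.q * (2 * E.q) ≤ E.q * E.s
    exact Nat.mul_le_mul_left _ hs)) (by
    have := w.row_lt (r := r) (c := 0) (by omega) hq
    omega), w.O_at hi, Ks_row hq, Bool.true_and]
  exact decide_eq_true hr

theorem Wf.COL_spr : Spr E.q (E.COL (Ks E.L n)) := by
  have hs := w.s2
  have hq := w.qp
  unfold COL
  rw [cl_eq hq]
  exact spr_mul w.Lp (Ks_spr w.Lp) (Ks_lt hq (by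
    show E.q * (2 * E.q) ≤ E.q * E.s
    exact Nat.mul_le_mul_left _ hs)) (Ks_spr hq)

theorem Wf.one_spr : Spr E.q (Nat.add 1 (p2 (Nat.mul E.q E.q))) := by
  intro p hp
  rcases (one_two (Nat.mul_pos w.qp w.qp)).1 hp with rfl | rfl
  · exact dvd_zero _
  · exact Dvd.intro _ rfl

theorem Wf.DR_at {r c : ℕ} (hc : c < E.q) :
    (Nat.mul (Nat.add 1 (p2 (Nat.mul E.q E.q))) (mo E.q)).testBit (E.q * r + c) = true ↔
      r = 0 ∨ r = E.q := by
  have hq := w.qp
  have h0 : 0 < Nat.mul E.q E.q := Nat.mul_pos hq hq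
  rw [mul_at w.one_spr mo_lt hc, tb_mo, Bool.and_eq_true, one_two h0]
  constructor
  · rintro ⟨h | h, -⟩
    · rcases Nat.mul_eq_zero.1 h with h | h
      · omega
      · exact Or.inl h
    · exact Or.inr (Nat.eq_of_mul_eq_mul_left hq h)
  · rintro (rfl | rfl)
    · exact ⟨Or.inl (mul_zero _), decide_eq_true hc⟩
    · exact ⟨Or.inr rfl, decide_eq_true hc⟩

theorem Wf.DR_lt : Nat.mul (Nat.add 1 (p2 (Nat.mul E.q E.q))) (mo E.q) < 2 ^ E.L := by
  apply lt_of_tb
  intro p hp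
  have hq := w.qp
  have hs := w.s2
  have hc : p % E.q < E.q := Nat.mod_lt _ hq
  have e : p = E.q * (p / E.q) + p % E.q := (Nat.div_add_mod _ _).symm
  rw [e] at hp ⊢
  rcases (w.DR_at hc).1 hp with h | h
  · rw [h]
    exact w.row_lt (by omega) hc
  · rw [h]
    exact w.row_lt (by omega) hc

theorem Wf.ROW_rw : ∀ u c, c < E.q → (E.ROW (Ks E.L n)).testBit (E.q * u + c) = true →
    Rw E.q E.s u := by
  intro u c hc h
  rw [w.row_eq] at h
  unfold ROW at h
  rw [mul_at (Ks_spr w.Lp) w.DR_lt (w.row_bd hc), Bool.and_eq_true] at h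
  have e : u = E.s * (u / E.s) + u % E.s := (Nat.div_add_mod _ _).symm
  rcases (w.DR_at hc).1 h.2 with h1 | h1
  · exact ⟨u / E.s, Or.inl (by omega)⟩
  · exact ⟨u / E.s, Or.inr (by omega)⟩

theorem Wf.ROW_at (hi : i < n) {b c : ℕ} (hb : b = 0 ∨ b = E.q) (hc : c < E.q) :
    (E.ROW (Ks E.L n)).testBit (E.L * i + (E.q * b + c)) = true := by
  have hs := w.s2
  have hq := w.qp
  unfold ROW
  rw [mul_at (Ks_spr w.Lp) w.DR_lt (w.row_lt (by omega) hc), w.O_at hi, Bool.true_and]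
  exact (w.DR_at hc).2 hb

/-- the matrices after `k` steps -/
noncomputable def FF (E : EV) (O W i b k r c : ℕ) : Bool :=
  (E.clo (E.COL O) (E.ROW O) W k).testBit (E.L * i + (E.q * (b + r) + c))

theorem Wf.FF_step (hi : i < n) {b : ℕ} (hb : b = 0 ∨ b = E.q) : ∀ k < E.z, ∀ r < E.g, ∀ c < E.g,
    E.FF (Ks E.L n) W i b (k + 1) r c = (E.FF (Ks E.L n) W i b k r c ||
      (E.FF (Ks E.L n) W i b k r k && E.FF (Ks E.L n) W i b k k c)) := by
  obtain ⟨hz1, hz2, hz3⟩ := w.zg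
  intro k hk r hr c hc
  unfold FF
  rw [w.clo_at w.COL_spr w.ROW_rw hb (w.COL_at hi (by omega)) (w.ROW_at hi hb (by omega))
    (by omega) (by omega)]
  congr 1
  simp [hc]

/-! ### The lane of the test -/

/-- the matrices of a lane -/
def m1 (E : EV) (M i r c : ℕ) : Bool := M.testBit (E.L * i + (E.q * r + c))
def m2 (E : EV) (M i r c : ℕ) : Bool := M.testBit (E.L * i + (E.q * (E.q + r) + c))

theorem Wf.m1_eq {r c : ℕ} : E.m1 (E.MT (Ks E.L n) W) i r c =
    E.FF (Ks E.L n) (E.M0 (Ks E.L n) W) i 0 E.z r c := by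
  unfold m1 FF MT
  rw [Nat.zero_add]

theorem Wf.m2_eq {r c : ℕ} : E.m2 (E.MT (Ks E.L n) W) i r c =
    E.FF (Ks E.L n) (E.M0 (Ks E.L n) W) i E.q E.z r c := rfl

theorem Wf.FF0_1 {r c : ℕ} : E.FF (Ks E.L n) (E.M0 (Ks E.L n) W) i 0 0 r c =
    (E.M0 (Ks E.L n) W).testBit (E.L * i + (E.q * r + c)) := by
  unfold FF
  rw [Nat.zero_add]
  rfl

theorem Wf.FF0_2 {r c : ℕ} : E.FF (Ks E.L n) (E.M0 (Ks E.L n) W) i E.q 0 r c =
    (E.M0 (Ks E.L n) W).testBit (E.L * i + (E.q * (E.q + r) + c)) := rfl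

variable (hi : i < n)
include hi

theorem Wf.m1_mono {r c : ℕ} (hr : r < E.g) (hc : c < E.g)
    (h : (E.M0 (Ks E.L n) W).testBit (E.L * i + (E.q * r + c)) = true) :
    E.m1 (E.MT (Ks E.L n) W) i r c = true := by
  rw [w.m1_eq]
  exact wsh_mono (w.FF_step hi (Or.inl rfl)) E.z le_rfl r hr c hc (by rw [w.FF0_1]; exact h)

theorem Wf.m2_mono {r c : ℕ} (hr : r < E.g) (hc : c < E.g)
    (h : (E.M0 (Ks E.L n) W).testBit (E.L * i + (E.q * (E.q + r) + c)) = true) :
    E.m2 (E.MT (Ks E.L n) W) i r c = true := by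
  rw [w.m2_eq]
  exact wsh_mono (w.FF_step hi (Or.inr rfl)) E.z le_rfl r hr c hc (by rw [w.FF0_2]; exact h)

theorem Wf.m1_tr {k r c : ℕ} (hk : k < E.z) (hr : r < E.g) (hc : c < E.g)
    (h1 : E.m1 (E.MT (Ks E.L n) W) i r k = true) (h2 : E.m1 (E.MT (Ks E.L n) W) i k c = true) :
    E.m1 (E.MT (Ks E.L n) W) i r c = true := by
  have hz := w.zg
  rw [w.m1_eq] at *
  exact wsh (by omega) (w.FF_step hi (Or.inl rfl)) E.z le_rfl k hk r hr c hc h1 h2

theorem Wf.m2_tr {k r c : ℕ} (hk : k < E.z) (hr : r < E.g) (hc : c < E.g)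
    (h1 : E.m2 (E.MT (Ks E.L n) W) i r k = true) (h2 : E.m2 (E.MT (Ks E.L n) W) i k c = true) :
    E.m2 (E.MT (Ks E.L n) W) i r c = true := by
  have hz := w.zg
  rw [w.m2_eq] at *
  exact wsh (by omega) (w.FF_step hi (Or.inr rfl)) E.z le_rfl k hk r hr c hc h1 h2

theorem Wf.m1_sym {r c : ℕ} (hr : r < E.g) (hc : c < E.g) :
    E.m1 (E.MT (Ks E.L n) W) i r c = E.m1 (E.MT (Ks E.L n) W) i c r := by
  have hz := w.zg
  rw [w.m1_eq, w.m1_eq]
  refine wsh_sym (by omega) (w.FF_step hi (Or.inl rfl)) (fun r hr c hc => ?_) E.z le_rfl r hr c hc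
  rw [w.FF0_1, w.FF0_1, Bool.eq_iff_iff, w.M0_at1 hi (by omega) (by omega),
    w.M0_at1 hi (by omega) (by omega)]
  constructor
  · rintro (⟨e, h1, h2, h3⟩ | ⟨a, h1, h2, h3⟩ | ⟨a, b, h1, h2, h3⟩ | h)
    · exact Or.inl ⟨e, h1, h2, h3.symm⟩
    · exact Or.inr (Or.inl ⟨a, h1, h2, h3.symm⟩)
    · exact Or.inr (Or.inr (Or.inl ⟨a, b, h1, h2, h3.symm⟩))
    · exact Or.inr (Or.inr (Or.inr (by omega)))
  · rintro (⟨e, h1, h2, h3⟩ | ⟨a, h1, h2, h3⟩ | ⟨a, b, h1, h2, h3⟩ | h)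
    · exact Or.inl ⟨e, h1, h2, h3.symm⟩
    · exact Or.inr (Or.inl ⟨a, h1, h2, h3.symm⟩)
    · exact Or.inr (Or.inr (Or.inl ⟨a, b, h1, h2, h3.symm⟩))
    · exact Or.inr (Or.inr (Or.inr (by omega)))

theorem Wf.m2_sym {r c : ℕ} (hr : r < E.g) (hc : c < E.g) :
    E.m2 (E.MT (Ks E.L n) W) i r c = E.m2 (E.MT (Ks E.L n) W) i c r := by
  have hz := w.zg
  rw [w.m2_eq, w.m2_eq]
  refine wsh_sym (by omega) (w.FF_step hi (Or.inr rfl)) (fun r hr c hc => ?_) E.z le_rfl r hr c hc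
  rw [w.FF0_2, w.FF0_2, Bool.eq_iff_iff, w.M0_at2 hi (by omega) (by omega),
    w.M0_at2 hi (by omega) (by omega)]
  constructor
  · rintro (⟨e, h1, h2, h3⟩ | ⟨a, h1, h2, h3⟩ | h)
    · exact Or.inl ⟨e, h1, h2, h3.symm⟩
    · exact Or.inr (Or.inl ⟨a, h1, h2, h3.symm⟩)
    · exact Or.inr (Or.inr (by omega))
  · rintro (⟨e, h1, h2, h3⟩ | ⟨a, h1, h2, h3⟩ | h)
    · exact Or.inl ⟨e, h1, h2, h3.symm⟩
    · exact Or.inr (Or.inl ⟨a, h1, h2, h3.symm⟩)
    · exact Or.inr (Or.inr (by omega))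

theorem Wf.m1_sub {T : ℕ → ℕ → Prop} (hT : ∀ k < E.z, ∀ r < E.g, ∀ c < E.g, T r k → T k c → T r c)
    (h0 : ∀ r < E.g, ∀ c < E.g, (E.M0 (Ks E.L n) W).testBit (E.L * i + (E.q * r + c)) = true → T r c)
    {r c : ℕ} (hr : r < E.g) (hc : c < E.g) (h : E.m1 (E.MT (Ks E.L n) W) i r c = true) : T r c := by
  have hz := w.zg
  rw [w.m1_eq] at h
  refine wsh_sub (by omega) (w.FF_step hi (Or.inl rfl)) hT (fun r hr c hc h => ?_) E.z le_rfl r hr c hc h
  rw [w.FF0_1] at h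
  exact h0 r hr c hc h

/-! ### The conditions -/

omit hi in
theorem Wf.blk_at {a b r c : ℕ} (hb : b ≤ E.q) (hc : c < E.q) :
    (Nat.mul (cl E.q a) (mo b)).testBit (E.q * r + c) = (decide (r < a) && decide (c < b)) := by
  rw [cl_eq w.qp, mul_at (Ks_spr w.qp) (mo_le hb) hc, Ks_row w.qp, tb_mo]

omit hi in
theorem Wf.blk_lt {a b : ℕ} (ha : a ≤ E.s) (hb : b ≤ E.q) : Nat.mul (cl E.q a) (mo b) < 2 ^ E.L := by
  apply lt_of_tb
  intro p hp
  have hq := w.qp
  have hc : p % E.q < E.q := Nat.mod_lt _ hq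
  have e : p = E.q * (p / E.q) + p % E.q := (Nat.div_add_mod _ _).symm
  rw [e] at hp ⊢
  rw [w.blk_at hb hc, Bool.and_eq_true, decide_eq_true_eq] at hp
  exact w.row_lt (by omega) hc

theorem Wf.uc_at {r c : ℕ} (hr : r < E.z) (hc : c < E.z)
    (h : (nT (Nat.land (Nat.land (E.Sc (E.COL (Ks E.L n)) (E.MT (Ks E.L n) W) E.z)
        (E.Rr (E.ROW (Ks E.L n)) (E.MT (Ks E.L n) W) E.z))
          (Nat.mul (Ks E.L n) (Nat.mul (cl E.q E.z) (mo E.z)))) (E.MT (Ks E.L n) W)).testBit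
            (E.L * i + (E.q * r + c)) = false)
    (h1 : E.m1 (E.MT (Ks E.L n) W) i r E.z = true) (h2 : E.m1 (E.MT (Ks E.L n) W) i E.z c = true) :
    E.m1 (E.MT (Ks E.L n) W) i r c = true := by
  obtain ⟨hz1, hz2, hz3⟩ := w.zg
  have hs := w.s2
  by_contra hcon
  rw [tb_nT, tb_land, tb_land] at h
  have e1 : (E.Sc (E.COL (Ks E.L n)) (E.MT (Ks E.L n) W) E.z).testBit (E.L * i + (E.q * r + c)) = true := by
    rw [pos_eq, Sc_at w.COL_spr w.qp (by omega), Bool.and_eq_true, Bool.and_eq_true, decide_eq_true_eq]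
    refine ⟨⟨?_, ?_⟩, by omega⟩
    · have := w.COL_at hi (r := r) (by omega)
      rw [← this]
      congr 1
      rw [L_eq]; ring
    · rw [← pos_eq]
      exact h1
  have e2 : (E.Rr (E.ROW (Ks E.L n)) (E.MT (Ks E.L n) W) E.z).testBit
      (E.L * i + (E.q * r + c)) = true := by
    have := w.Rr_at (R := E.ROW (Ks E.L n)) (M := E.MT (Ks E.L n) W) (k := E.z) (i := i) (b := 0)
      (r := r) (c := c) w.ROW_rw (Or.inl rfl) (by omega) (by omega)
    rw [Nat.zero_add, Nat.zero_add] at this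
    rw [this, w.ROW_at hi (Or.inl rfl) (by omega), Bool.true_and]
    exact h2
  have e3 : (Nat.mul (Ks E.L n) (Nat.mul (cl E.q E.z) (mo E.z))).testBit
      (E.L * i + (E.q * r + c)) = true := by
    rw [mul_at (Ks_spr w.Lp) (w.blk_lt (by omega) (by omega)) (w.row_lt (by omega) (by omega)),
      w.O_at hi, w.blk_at (by omega) (by omega)]
    simp [hr, hc]
  have e4 : (E.MT (Ks E.L n) W).testBit (E.L * i + (E.q * r + c)) = false := by
    rw [← Bool.not_eq_true]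
    exact hcon
  rw [e1, e2, e3, e4] at h
  cases h

theorem Wf.anb_at : (E.anb (Ks E.L n) W).testBit (E.L * i) = true ↔
    (∃ e ∈ E.es, (E.cPv W i e.a != E.cPv W i e.b) = true) ∨ ∃ a ∈ E.ars, E.acb W i a = true := by
  unfold anb
  rw [fo_lor, fo_lor, Nat.zero_testBit]
  simp only [tb_xor, w.cP_at hi, w.ac_at hi, Bool.false_eq_true, false_or]
  exact or_comm

theorem Wf.anv_at : (E.anv (Ks E.L n) W).testBit (E.L * i) = true ↔
    (∃ e ∈ E.es', E.dif W i e.a e.b = true) ∨ ∃ a ∈ E.ars, E.acb W i a = true := by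
  unfold anv
  rw [fo_lor, fo_lor, Nat.zero_testBit]
  simp only [w.cd_at hi, w.ac_at hi, Bool.false_eq_true, false_or]
  exact or_comm

theorem Wf.rk_at {a : ℕ} (h1 : E.x ≤ a) (h2 : a < E.m)
    (h : (E.rk (Ks E.L n) W).testBit (E.L * i) = false) : E.tT W i a = true ∨ E.tF W i a = true := by
  have key : ∀ k, (Nat.rec (motive := fun _ => ℕ) 0
      (fun i ih => Nat.lor ih (Nat.xor (Ks E.L n) (Nat.lor (E.cT (Ks E.L n) W (Nat.add E.x i))
        (E.cF (Ks E.L n) W (Nat.add E.x i))))) k).testBit (E.L * i) = false →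
      ∀ j < k, E.tT W i (E.x + j) = true ∨ E.tF W i (E.x + j) = true := by
    intro k
    induction k with
    | zero => intro _ j hj; omega
    | succ k ih =>
      intro h j hj
      have h' : (Nat.lor (Nat.rec (motive := fun _ => ℕ) 0
        (fun i ih => Nat.lor ih (Nat.xor (Ks E.L n) (Nat.lor (E.cT (Ks E.L n) W (Nat.add E.x i))
          (E.cF (Ks E.L n) W (Nat.add E.x i))))) k) (Nat.xor (Ks E.L n)
          (Nat.lor (E.cT (Ks E.L n) W (Nat.add E.x k))
          (E.cF (Ks E.L n) W (Nat.add E.x k))))).testBit (E.L * i) = false := h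
      rw [tb_lor, Bool.or_eq_false_iff, tb_xor, tb_lor, w.O_at hi, w.cT_at hi, w.cF_at hi] at h'
      rcases Nat.lt_succ_iff_lt_or_eq.1 hj with hj | rfl
      · exact ih h'.1 j hj
      · have h3 := h'.2
        show E.tT W i (Nat.add E.x j) = true ∨ E.tF W i (Nat.add E.x j) = true
        cases h4 : E.tT W i (Nat.add E.x j)
        · rw [h4] at h3
          right
          cases h5 : E.tF W i (Nat.add E.x j)
          · rw [h5] at h3; cases h3
          · rfl
        · exact Or.inl rfl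
  have := key (Nat.sub E.m E.x) h (a - E.x) (by
    show a - E.x < E.m - E.x
    omega)
  rwa [Nat.add_sub_cancel' h1] at this

/-- rows of slices -/
theorem Wf.rep0 {X N y c : ℕ} (hX : ∀ u c, c < E.q → X.testBit (E.q * u + c) = true → ∃ j, u = E.s * j)
    (hN : N ≤ E.s) (hy : y < N) (hc : c < E.q) :
    (Nat.mul X (Ks E.q N)).testBit (E.L * i + (E.q * y + c)) = X.testBit (E.L * i + c) := by
  have far : ∀ u v, (∃ j, u = E.s * j) → (∃ j, v = E.s * j) → u < v → u + N ≤ v := by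
    rintro u v ⟨j, rfl⟩ ⟨k, rfl⟩ h
    have h1 : j < k := by
      by_contra hcon
      have : E.s * k ≤ E.s * j := Nat.mul_le_mul_left _ (by omega)
      omega
    have : E.s * (j + 1) ≤ E.s * k := Nat.mul_le_mul_left _ h1
    rw [Nat.mul_add] at this
    omega
  have key := rep_at w.qp hX (n := N) far N le_rfl (E.s * i + y) c hc
  have e1 : X.testBit (E.L * i + c) = X.testBit (E.q * (E.s * i) + c) := by
    congr 1
    rw [L_eq]; ring
  rw [pos_eq, e1, Bool.eq_iff_iff]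
  show (X * Ks E.q N).testBit _ = true ↔ _
  rw [key]
  constructor
  · rintro ⟨r, h1, h2, h3⟩
    have hw1 := hX _ _ hc h3
    have h4 : E.s * i + y - r = E.s * i := by
      by_contra hne
      rcases Nat.lt_or_gt_of_ne hne with h5 | h5
      · have := far _ _ hw1 ⟨i, rfl⟩ h5
        omega
      · have := far _ _ ⟨i, rfl⟩ hw1 h5
        omega
    rwa [h4] at h3
  · intro h
    exact ⟨y, hy, by omega, by rw [show E.s * i + y - y = E.s * i by omega]; exact h⟩

omit hi in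
/-- the mask of the first rows -/
theorem Wf.R0_rows : ∀ u c, c < E.q → (Nat.mul (Ks E.L n) (mo E.q)).testBit (E.q * u + c) = true →
    ∃ j, u = E.s * j := by
  intro u c hc h
  have hs := w.s2
  have hq := w.qp
  rw [w.row_eq] at h
  have hlt : mo E.q < 2 ^ E.L := mo_le (by
    have := w.row_lt (r := 0) (c := E.q - 1) (by omega) (by omega)
    omega)
  rw [mul_at (Ks_spr w.Lp) hlt (w.row_bd hc), Bool.and_eq_true, tb_mo, decide_eq_true_eq] at h
  have h1 : u % E.s = 0 := by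
    by_contra hne
    have : E.q * 1 ≤ E.q * (u % E.s) := Nat.mul_le_mul_left _ (by omega)
    omega
  exact ⟨u / E.s, by
    have := Nat.div_add_mod u E.s
    omega⟩

theorem Wf.R0_at {c : ℕ} (hc : c < E.q) : (Nat.mul (Ks E.L n) (mo E.q)).testBit (E.L * i + c) = true := by
  have hs := w.s2
  have hq := w.qp
  have h1 := w.row_lt (r := 0) (c := E.q - 1) (by omega) (by omega)
  rw [mul_at (Ks_spr w.Lp) (mo_le (by omega)) (by omega), w.O_at hi, tb_mo, Bool.true_and]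
  exact decide_eq_true hc

/-- a row of requirements meets a row of a matrix -/
theorem Wf.nz_row {T X N y : ℕ} (hN : N ≤ E.s) (hy : y < N) (hT : T < 2 ^ E.L)
    (hX : ∀ u c, c < E.q → X.testBit (E.q * u + c) = true → ∃ j, u = E.s * j) :
    (nzr E.q (Nat.mul (Ks E.L n) (Ks E.q N)) (Nat.mul (Nat.mul (Ks E.L n) (Ks E.q N)) (mo (Nat.sub E.q 1)))
      (Nat.land (Nat.mul (Ks E.L n) T) (Nat.mul X (Ks E.q N)))).testBit (E.L * i + E.q * y) = true ↔
      ∃ c < E.g, T.testBit (E.q * y + c) = true ∧ X.testBit (E.L * i + c) = true := by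
  obtain ⟨hz1, hz2, hz3⟩ := w.zg
  have hq := w.qp
  have hlt : Ks E.q N < 2 ^ E.L := Ks_lt hq (by rw [L_eq]; exact Nat.mul_le_mul_left _ hN)
  have hC : Spr E.q (Nat.mul (Ks E.L n) (Ks E.q N)) := spr_mul w.Lp (Ks_spr w.Lp) hlt (Ks_spr hq)
  have e1 : E.L * i + E.q * y = E.q * (E.s * i + y) + 0 := by rw [L_eq]; ring
  have e2 : (Nat.mul (Ks E.L n) (Ks E.q N)).testBit (E.q * (E.s * i + y)) = true := by
    have h1 := w.row_lt (r := y) (c := 0) (by omega) hq
    have := mul_at (q := E.L) (s := Ks E.L n) (m := Ks E.q N) (t := i) (u := E.q * y) (Ks_spr w.Lp) hlt (by omega)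
    rw [e1, add_zero, w.O_at hi, Ks_row hq, decide_eq_true hy] at this
    exact this
  have e3 : ∀ c, c < E.q → E.q * (E.s * i + y) + c = E.L * i + (E.q * y + c) := fun c _ => pos_eq.symm
  rw [e1, nzr_at hC rfl hq]
  constructor
  · rintro ⟨-, -, c, hc, h⟩
    have hc' : c < E.g := hc
    rw [e3 c (by omega), tb_land, Bool.and_eq_true, w.rep0 hi hX hN hy (by omega),
      mul_at (Ks_spr w.Lp) hT (w.row_lt (by omega) (by omega)), Bool.and_eq_true] at h
    exact ⟨c, hc', h.1.2, h.2⟩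
  · rintro ⟨c, hc, h1, h2⟩
    refine ⟨rfl, e2, c, hc, ?_⟩
    rw [e3 c (by omega), tb_land, Bool.and_eq_true, w.rep0 hi hX hN hy (by omega),
      mul_at (Ks_spr w.Lp) hT (w.row_lt (by omega) (by omega)), Bool.and_eq_true]
    exact ⟨⟨w.O_at hi, h1⟩, h2⟩

omit w hi in
theorem F1_eq : E.F1 = GG E.q (fun y : EY => y.f) E.ys := rfl
omit w hi in
theorem F2_eq : E.F2 = GG E.q (fun y : EY => y.f') E.ys := rfl
omit w hi in
theorem OY_eq {O : ℕ} : E.OY O W = GG E.q (fun y : EY => E.fy O W y) E.ys := rfl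

/-- the flag of a requirement -/
def fl (E : EV) (W i : ℕ) (y : EY) : Bool := match y.k with
  | 0 => true
  | 1 => E.dif W i y.a y.b
  | _ => !E.dif W i y.a y.b

/-- a transfer condition -/
theorem Wf.trj_at {M c c' op acc : ℕ} (hop : Spr E.L op) (ho : op.testBit (E.L * i) = true)
    (h : ∀ p < E.L, (E.trj M (Ks E.q E.ny) (Nat.mul (Ks E.L n) (Ks E.q E.ny))
      (Nat.mul (Nat.mul (Ks E.L n) (Ks E.q E.ny)) (mo (Nat.sub E.q 1))) (Nat.mul (Ks E.L n) E.F1)
      (Nat.mul (Ks E.L n) E.F2) (E.OY (Ks E.L n) W) (Nat.mul (Ks E.L n) (mo E.q)) c c' op acc).testBit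
        (E.L * i + p) = false) :
    ∀ y ∈ E.ys, E.fl W i y = true → (∃ s < E.g, y.f'.testBit s = true ∧ E.m2 M i c' s = true) →
      ∃ s < E.g, y.f.testBit s = true ∧ (E.m1 M i c s = true ∨ E.m1 M i E.z s = true) := by
  obtain ⟨hz1, hz2, hz3⟩ := w.zg
  have hq := w.qp
  have hny : E.ny = E.ys.length := llen_eq _
  have hN : E.ny ≤ E.s := by rw [hny]; exact w.yn
  have hlt : Ks E.q E.ny < 2 ^ E.L := Ks_lt hq (by rw [L_eq]; exact Nat.mul_le_mul_left _ hN)
  intro y hy hf hs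
  obtain ⟨u, u1, u2, u3, u4⟩ := GG_mem (q := E.q) (s := E.s) hq (φ := fun y : EY => y.f)
    (φ' := fun y : EY => y.f') (ψ := fun y : EY => E.fy (Ks E.L n) W y) w.yn (fun y hy => by
      obtain ⟨h1, h2, -⟩ := w.ys y hy
      exact ⟨lt_of_lt_of_le h1 (Nat.pow_le_pow_right (by norm_num) (by omega)),
        lt_of_lt_of_le h2 (Nat.pow_le_pow_right (by norm_num) (by omega)), w.fy_spr⟩) y hy
  have hu : u < E.ny := by rw [hny]; exact u1
  have hF1 : E.F1 < 2 ^ E.L := by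
    refine lt_of_lt_of_le (GG_lt fun y hy => ?_) (Nat.pow_le_pow_right (by norm_num) (?_ : E.q * E.ys.length ≤ E.L))
    · exact lt_of_lt_of_le (w.ys y hy).1 (Nat.pow_le_pow_right (by norm_num) (by omega))
    · rw [L_eq]; exact Nat.mul_le_mul_left _ w.yn
  have hF2 : E.F2 < 2 ^ E.L := by
    refine lt_of_lt_of_le (GG_lt fun y hy => ?_) (Nat.pow_le_pow_right (by norm_num) (?_ : E.q * E.ys.length ≤ E.L))
    · exact lt_of_lt_of_le (w.ys y hy).2.1 (Nat.pow_le_pow_right (by norm_num) (by omega))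
    · rw [L_eq]; exact Nat.mul_le_mul_left _ w.yn
  have hp := w.row_lt (r := u) (c := 0) (by omega) hq
  have h1 := h (E.q * u) (by omega)
  unfold trj at h1
  rw [tb_lor, Bool.or_eq_false_iff, tb_land, mul_at hop hlt (by omega), ho, Ks_row hq,
    decide_eq_true hu, Bool.true_and, Bool.true_and, tb_nT, tb_land] at h1
  have h2 := h1.2
  have rows : ∀ X : ℕ, ∀ u c, c < E.q → (Nat.land X (Nat.mul (Ks E.L n) (mo E.q))).testBit (E.q * u + c) = true →
      ∃ j, u = E.s * j := by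
    intro X u c hc hX
    rw [tb_land, Bool.and_eq_true] at hX
    exact w.R0_rows u c hc hX.2
  have e1 : (nzr E.q (Nat.mul (Ks E.L n) (Ks E.q E.ny)) (Nat.mul (Nat.mul (Ks E.L n) (Ks E.q E.ny))
      (mo (Nat.sub E.q 1))) (Nat.land (Nat.mul (Ks E.L n) E.F2)
        (Nat.mul (Nat.land (Nat.shiftRight M (Nat.mul E.q (Nat.add E.q c')))
          (Nat.mul (Ks E.L n) (mo E.q))) (Ks E.q E.ny)))).testBit (E.L * i + E.q * u) = true := by
    rw [w.nz_row hi hN hu hF2 (rows _)]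
    obtain ⟨s, s1, s2, s3⟩ := hs
    refine ⟨s, s1, ?_, ?_⟩
    · rw [F2_eq, u3 s (by omega)]; exact s2
    · rw [tb_land, w.R0_at hi (by omega), Bool.and_true, tb_shr]
      unfold m2 at s3
      rw [← s3]
      congr 1
      show E.q * (E.q + c') + (E.L * i + s) = E.L * i + (E.q * (E.q + c') + s)
      ring
  have e2 : (E.OY (Ks E.L n) W).testBit (E.L * i + E.q * u) = true := by
    rw [OY_eq]
    have : E.L * i + E.q * u = E.q * (E.s * i + u) := by rw [L_eq]; ring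
    rw [this, u4 i, show E.q * E.s * i = E.L * i by rfl, fy_at hi w.Lp]
    unfold fl at hf
    rw [w.cd_at hi]
    exact hf
  rw [e1, e2, Bool.true_and, Bool.true_and, Bool.not_eq_false'] at h2
  rw [w.nz_row hi hN hu hF1 (rows _)] at h2
  obtain ⟨s, s1, s2, s3⟩ := h2
  refine ⟨s, s1, ?_, ?_⟩
  · rw [F1_eq, u2 s (by omega)] at s2; exact s2
  · rw [tb_land, w.R0_at hi (by omega), Bool.and_true, tb_lor, tb_shr, tb_shr, Bool.or_eq_true] at s3
    unfold m1
    have a1 : E.L * i + (E.q * c + s) = Nat.mul E.q c + (E.L * i + s) := by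
      show _ = E.q * c + (E.L * i + s)
      ring
    have a2 : E.L * i + (E.q * E.z + s) = Nat.mul E.q E.z + (E.L * i + s) := by
      show _ = E.q * E.z + (E.L * i + s)
      ring
    rw [a1, a2]
    exact s3

end

end EV

end Pool.FC7
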