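import Pool.Agent.FC7.XMa

/-! # The guided extension check: the tests -/

open Finset

set_option linter.unusedSectionVars false

namespace Pool.FC7

open Pool.FC6

variable {F : XF} {X : XE} {P P' : Pa}
variable {D V : Type} [Fintype D] [DecidableEq V]
variable {S S' : St D V} {f : ℕ → D} {g : ℕ → V} {c' : V → Bool} {c0 : ℕ}

/-- a closed set which contains the marked cells; if `Wk` is not `0` then some cell of it is
visited -/
structure VC (S' : St D V) (P P' : Pa) (f : ℕ → D) (F : XF) (X : XE) (c' : V → Bool) (c0 : ℕ)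
    (R' W Wk : ℕ) : Prop where
  lt : W < 2 ^ F.q
  cl : Cl F.q R' W
  br : ∀ i < P.n, br P' c0 i = true → W.testBit (X.ce' i) = true
  nz : Wk ≠ 0 → ∃ i < P.n, W.testBit (X.ce' i) = true ∧ Vi S' c' (f i)

theorem VI.vc {R' W : ℕ} (hR : Eqv F.q F.w R') (h : VI S' P P' f F X c' c0 R' W) :
    VC S' P P' f F X c' c0 R' W W := by
  refine ⟨?_, h.cl, h.br, fun h0 => ?_⟩
  · apply Nat.lt_pow_two_of_testBit
    intro i hi
    by_contra hcon
    rw [Bool.not_eq_false] at hcon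
    obtain ⟨j, -, -, j3⟩ := h.rp i hcon
    have := j3.1
    omega
  · obtain ⟨i, i1, i2, i3⟩ := h.rp _ (log2_bit h0)
    exact ⟨i, i1, h.cl _ _ (hR.symm _ _ i3) (log2_bit h0), i2⟩

theorem VC.mr (C : Cx S S' P P' f g X c' c0) (L : Lk F X P P') {R' W Wk : ℕ} (hR : Eqv F.q F.w R')
    (h : VC S' P P' f F X c' c0 R' W Wk) {a c : FA} (oa : OA F X P' c0 a) (oc : OA F X P' c0 c) :
    VC S' P P' f F X c' c0 (mr F.K F.F R' a.i' c.i' a.qi' c.qi')
      (F.vm W (FC7.mr F.K F.F R' a.i' c.i' a.qi' c.qi') a c) Wk := by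
  have aa := L.arc oa.1
  have ac := L.arc oc.1
  refine ⟨?_, vm_cl L hR h.cl (oa.lt C L) (oc.lt C L) aa.bi' ac.bi' aa.qi' ac.qi',
    fun i hi hb => vm_mono (h.br i hi hb), fun h0 => ?_⟩
  · unfold XF.vm
    rw [bif_eq]
    split_ifs
    · exact h.lt
    · rw [lor_eq, L.hF]
      exact Nat.or_lt_two_pow h.lt row_lt
  · obtain ⟨i, i1, i2, i3⟩ := h.nz h0
    exact ⟨i, i1, vm_mono i2, i3⟩

theorem mpr_sub {c : V → Bool} (C : Cx S S' P P' f g X c' c0) (L : Lk F X P P')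
    (hag : Ag g X c' c) {R : ℕ} (h : Sub F.q R (Tq S P X f c)) : ∀ (pp : List (FA × FA)),
    (∀ z ∈ pp, OA F X P' c0 z.1 ∧ OA F X P' c0 z.2 ∧ RQ S P f X c' z.1 z.2) →
    Sub F.q (F.mpr R pp) (Tq S P X f c)
  | [], _ => h
  | z :: pp, hp => by
    show Sub F.q (mr F.K F.F (F.mpr R pp) z.1.i z.2.i z.1.qi z.2.qi) _
    obtain ⟨h1, h2, h3⟩ := hp z (by simp)
    have a1 := L.arc h1.1
    have a2 := L.arc h2.1
    have g1 := (C.st.rs _ (C.st.asm a1.mem)).1
    have g2 := (C.st.rs _ (C.st.asm a2.mem)).1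
    have ih := mpr_sub C L hag h pp fun z hz => hp z (List.mem_cons_of_mem _ hz)
    rw [a1.qi, a2.qi, L.hK, L.hF, a1.i, a2.i]
    have w1 := (L.ce _ g1).1
    have w2 := (L.ce _ g2).1
    have := L.hw
    exact ih.mr Tq_equiv L.hq (by omega) (by omega) (Tq_of C g1 g2 fun τ ht => C.rr_test hag ht h3)

/-- SOUNDNESS of a leaf, one colour of the interior -/
theorem lfM_sound (C : Cx S S' P P' f g X c' c0) (L : Lk F X P P') {cls : List (ℕ × FA)} {Fb W Wk R' : ℕ} {pp : List (FA × FA)}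
    (hG : GI S P P' f F X c' c0 cls Fb R' pp) (hV : VC S' P P' f F X c' c0 R' W Wk) {BA Om : ℕ}
    (hO : PO S P P' f F X c' c0 BA Om) {ex : List ℕ} {c : V → Bool} (hag : Ag g X c' c) {m : ℕ}
    (hop : ∀ i < P.n, (S.Op c (f i) ↔ P.op m i = true))
    (hbr : ∀ i < P.n, (Br S c (f i) ↔ br P m i = true))
    (h : F.lfM W Wk R' Om cls ex (Nat.lor (meB m F.es 0) BA)
      (F.mpr (meR F.K F.F m F.es F.I) pp) = true) :
    (∀ t, S.Test c t → ∀ d d', Br S c d → Br S c d' → t d = t d') ∧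
      (∀ d, OV P f d → Vi S' c' d → Vi S c d) ∧
      (∀ i < P.n, Vi S' c' (f i) → X.x ≤ P'.l i → P'.l i < X.x + X.k →
        ∃ d, S.M.v d = g (P'.l i) ∧ Vi S c d) ∧
      (∀ i ∈ X.kd, Vi S' c' (f i) → Vi S c (f i)) ∧
      ∀ z ∈ X.dj ++ ex, ∃ i < P.n, z.testBit (X.ce i) = true ∧ Vi S c (f i) := by
  have hn := C.h.hn
  set R := F.mpr (meR F.K F.F m F.es F.I) pp with hR
  set B := Nat.lor (meB m F.es 0) BA with hBd
  have hT : Sub F.q R (Tq S P X f c) := mpr_sub C L hag (P_rel C L hop) pp hG.pr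
  unfold XF.lfM at h
  simp only at h
  set U := F.vis B R with hU
  have ub : ∀ t, U.testBit t = true ↔ B ≠ 0 ∧ rb F.q R (Nat.log2 B) t := fun t => vis_bit L
  -- marked cells of `P`
  have hes : ∀ e ∈ F.es, FE.Ok F.q e := by
    intro e he
    rw [L.es] at he
    obtain ⟨i, hi, rfl⟩ := List.mem_map.1 he
    exact mkE_ok
  have hmk : ∀ b, B.testBit b = true → ∃ i < P.n, X.ce i = b ∧ Vi S c (f i) := by
    intro b hb
    rw [hBd, lor_eq, Nat.testBit_or, Bool.or_eq_true, meB_bit _ _ hes, Nat.zero_testBit] at hb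
    rcases hb with (hb | ⟨e, e1, e2, e3⟩) | hb
    · cases hb
    · rw [L.es] at e1
      obtain ⟨i, hi, rfl⟩ := List.mem_map.1 e1
      obtain ⟨h1, h2⟩ := C.st.es i hi
      have h3 : Br S c (f i) := (hbr i h1).2 ((ncl_br (L.er i hi)).1 e2)
      rcases e3 with rfl | rfl
      · exact ⟨i, h1, rfl, h3.vi⟩
      · refine ⟨P.α i, C.h.G.αlt i h1, rfl, ?_⟩
        rw [← C.h.e.hα i h1 h2]
        exact (vi_α ((hop i h1).2 ((ncl_op (L.er i hi)).1 e2))).2 h3.vi
    · obtain ⟨a, a1, a2, a3⟩ := hO.a1 b hb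
      have aa := L.arc a1.1
      exact ⟨dt X a, (C.st.rs _ (C.st.asm aa.mem)).1, by rw [← aa.i]; exact a3, C.actR_vi hag a2⟩
  rcases bif_true h with ⟨h1, h2⟩ | ⟨h1, h2⟩
  swap
  · cases h2
  rcases bif_true h2 with ⟨h3, h4⟩ | ⟨h3, h4⟩
  swap
  · cases h4
  rcases bif_true h4 with ⟨h5, h6⟩ | ⟨h5, h6⟩
  swap
  · cases h6
  rcases bif_true h6 with ⟨h7, h8⟩ | ⟨h7, h8⟩
  swap
  · cases h8
  rcases bif_true h8 with ⟨h9, h10⟩ | ⟨h9, h10⟩
  swap
  · cases h10
  rw [beq_true, land_eq] at h1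
  have hUlt : U < 2 ^ F.q := vis_lt L
  have hVlt : W < 2 ^ F.q := hV.lt
  have hBU : ∀ t, B.testBit t = true → U.testBit t = true := by
    intro t ht
    rw [← h1, Nat.testBit_and, Bool.and_eq_true] at ht
    exact ht.2
  -- cells of `U`
  have ucell : ∀ t, U.testBit t = true → ∃ i < P.n, X.ce i = t := by
    intro t ht
    obtain ⟨u1, u2⟩ := (ub t).1 ht
    obtain ⟨i0, i1, i2, i3⟩ := hmk _ (log2_bit u1)
    exact (hT _ _ u2).1.1 ⟨i0, i1, i2⟩
  have urel : ∀ i < P.n, U.testBit (X.ce i) = true → ∀ i0 < P.n, X.ce i0 = Nat.log2 B →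
      ∀ τ, S.Test c τ → τ (f i0) = τ (f i) := by
    intro i hi hu i0 h0 he τ ht
    obtain ⟨u1, u2⟩ := (ub _).1 hu
    have := hT _ _ u2
    rw [← he] at this
    exact Tq_get C h0 hi this ht
  let E : ℕ → ℕ → Prop := fun s t => s = t ∨ rb F.q R' s t
  have eE : Equivalence E := by
    refine ⟨fun s => Or.inl rfl, ?_, ?_⟩
    · rintro s t (h | h)
      · exact Or.inl h.symm
      · exact Or.inr (hG.e.symm _ _ h)
    · rintro s t u (h | h) (h' | h')
      · exact Or.inl (h.trans h')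
      · subst h; exact Or.inr h'
      · subst h'; exact Or.inr h
      · exact Or.inr (hG.e.trans _ _ _ h h')
  have vcl : ∀ s t, E s t → W.testBit s = true → W.testBit t = true := by
    rintro s t (h | h) hs
    · rwa [← h]
    · exact hV.cl _ _ h hs
  obtain ⟨k1, k2, k3⟩ := tra_get' L hVlt hUlt hO h9
  -- the class of an arc
  have cla : ∀ j ∈ X.as, P'.op c0 j = true → ∃ b, OA F X P' c0 b ∧ dt X b = j ∧ ∃ c ∈ cls,
      OA F X P' c0 c.2 ∧ RQ S P f X c' c.2 b ∧ rb F.q R' c.2.i' b.i' := by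
    intro j hj oj
    obtain ⟨b, b1, b2⟩ := L.of_mem hj
    have ob : OA F X P' c0 b := ⟨b1, by rw [b2]; exact oj⟩
    obtain ⟨c, c1, c2⟩ := hG.v b ob
    obtain ⟨oc, kc⟩ := hG.m c c1
    obtain ⟨b', x1, x2, x3, x4⟩ := kc _ c2
    have := L.arc_inj x1.1 b1 x2
    subst this
    exact ⟨b', ob, b2, c, c1, oc, x3, x4⟩
  refine leaf_core C hag hbr (E := E) (V' := fun t => W.testBit t = true)
    (U := fun t => U.testBit t = true) (ex := ex)
    (co := fun j t => ∃ b, OA F X P' c0 b ∧ dt X b = j ∧ ∃ c ∈ cls,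
      OA F X P' c0 c.2 ∧ RQ S P f X c' c.2 b ∧ rb F.q R' c.2.i' b.i' ∧ rb F.q R c.2.i t)
    ⟨eE, fun i hi hne hr ho => Or.inr (hG.o i hi hne hr ho), vcl,
      fun i hi hb => hV.br i hi hb, ?_, ?_, ?_, ?_, ?_, ?_, ?_, ?_, ?_, ?_, L.kd,
      fun i hi hv => k3 i hi hv, ?_⟩
  · -- m3
    rintro ⟨i, hi, hu⟩
    have hB0 : B ≠ 0 := ((ub _).1 hu).1
    have hV0 : Wk ≠ 0 := by
      rcases bif_true h7 with ⟨h11, h12⟩ | ⟨h11, h12⟩
      · exact absurd (beq_true.1 h12) hB0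
      · exact beq_false.1 h11
    exact hV.nz hV0
  · -- t1
    intro j hj oj hv
    obtain ⟨b, b1, b2⟩ := L.of_mem hj
    have ab := L.arc b1
    have := k1 b ⟨b1, by rw [b2]; exact oj⟩ (by rw [ab.i', b2]; exact hv)
    rwa [ab.i, b2] at this
  · -- t1'
    intro i hi hv l1 l2
    have e5 : X.x + (P'.l i - X.x) = P'.l i := by omega
    have := k2 (P'.l i - X.x) (by omega) _ hv (by rw [e5]; exact C.st.st' i hi)
    rwa [e5] at this
  · -- t2
    intro j hj oj hv i hi oi hE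
    obtain ⟨b, ob, b2, z, z1, z2, z3, z4⟩ := cla j hj oj
    have ab := L.arc ob.1
    have az := L.arc z2.1
    have hz : z.2.bi' &&& W = 0 := by
      by_contra hcon
      rw [← Ne, az.bi', bi_test] at hcon
      apply hv
      have := vcl _ _ (Or.inr z4) hcon
      rwa [ab.i', b2] at this
    have htr := un_sound h10 z z1 hz
    rw [az.qi', az.qi, L.hF] at htr
    have w3 : Nat.lor U (row (2 ^ F.q - 1) R (F.q * z.2.i)) < 2 ^ F.q := by
      rw [lor_eq]
      exact Nat.or_lt_two_pow hUlt row_lt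
    obtain ⟨m1, m2, -⟩ := tra_get' L row_lt w3 hO htr
    obtain ⟨a, a1, a2⟩ := L.of_mem hi
    have aa := L.arc a1
    have hrow : (row (2 ^ F.q - 1) R' (F.q * z.2.i')).testBit a.i' = true := by
      rw [row_bit]
      rw [ab.i', b2] at z4
      rw [aa.i', a2]
      rcases hE with hE | hE
      · rw [hE]; exact z4
      · exact hG.e.trans _ _ _ z4 (hG.e.symm _ _ hE)
    have := m1 a ⟨a1, by rw [a2]; exact oi⟩ hrow
    rw [lor_eq, Nat.testBit_or, Bool.or_eq_true, row_bit, aa.i, a2] at this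
    rcases this with h | h
    · exact Or.inl h
    · exact Or.inr ⟨b, ob, b2, z, z1, z2, z3, z4, h⟩
  · -- t2'
    intro j hj oj hv i hi hE l1 l2
    obtain ⟨b, ob, b2, z, z1, z2, z3, z4⟩ := cla j hj oj
    have ab := L.arc ob.1
    have az := L.arc z2.1
    have hz : z.2.bi' &&& W = 0 := by
      by_contra hcon
      rw [← Ne, az.bi', bi_test] at hcon
      apply hv
      have := vcl _ _ (Or.inr z4) hcon
      rwa [ab.i', b2] at this
    have htr := un_sound h10 z z1 hz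
    rw [az.qi', az.qi, L.hF] at htr
    have w3 : Nat.lor U (row (2 ^ F.q - 1) R (F.q * z.2.i)) < 2 ^ F.q := by
      rw [lor_eq]
      exact Nat.or_lt_two_pow hUlt row_lt
    obtain ⟨m1, m2, -⟩ := tra_get' L row_lt w3 hO htr
    have hrow : (row (2 ^ F.q - 1) R' (F.q * z.2.i')).testBit (X.ce' i) = true := by
      rw [row_bit]
      rw [ab.i', b2] at z4
      rcases hE with hE | hE
      · rw [hE]; exact z4
      · exact hG.e.trans _ _ _ z4 (hG.e.symm _ _ hE)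
    have e5 : X.x + (P'.l i - X.x) = P'.l i := by omega
    obtain ⟨u, u1, u2⟩ := m2 (P'.l i - X.x) (by omega) _ hrow (by rw [e5]; exact C.st.st' i hi)
    rw [e5] at u2
    rw [lor_eq, Nat.testBit_or, Bool.or_eq_true, row_bit] at u1
    refine ⟨u, ?_, u2⟩
    rcases u1 with h | h
    · exact Or.inl h
    · exact Or.inr ⟨b, ob, b2, z, z1, z2, z3, z4, h⟩
  · -- c1
    rintro j hj i hi ⟨b, ob, b2, z, z1, z2, z3, z4, z5⟩ τ ht
    have az := L.arc z2.1
    have hzi := (C.st.rs _ (C.st.asm az.mem)).1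
    have h1 := hT _ _ z5
    rw [az.i] at h1
    rw [← Tq_get C hzi hi h1 ht]
    have : τ (f (dt X z.2)) = τ (f (dt X b)) := C.rr_test hag ht z3
    rw [this, b2]
  · -- u1
    intro i hi hu
    obtain ⟨u1, u2⟩ := (ub _).1 hu
    obtain ⟨i0, g1, g2, g3⟩ := hmk _ (log2_bit u1)
    exact g3.eq fun τ ht => urel i hi hu i0 g1 g2 τ ht
  · -- u2
    intro τ ht
    by_cases hB0 : B = 0
    · exact ⟨0, fun i hi hu => absurd hB0 ((ub _).1 hu).1⟩
    · obtain ⟨i0, g1, g2, g3⟩ := hmk _ (log2_bit hB0)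
      exact ⟨τ (f i0), fun i hi hu => (urel i hi hu i0 g1 g2 τ ht).symm⟩
  · -- u3
    intro i hi hb
    apply hBU
    rw [hBd, lor_eq, Nat.testBit_or, Bool.or_eq_true, meB_bit _ _ hes]
    have hr := br_real hb
    by_cases hα : P.α i = i
    · right
      have hrs := (C.st.ring i hi hα).1
      have has := C.st.rreal hrs hr
      obtain ⟨a, a1, a2⟩ := L.of_mem has
      have aa := L.arc a1
      have h3 : br P' c0 i = true := (C.br' hi).1 ((C.brO hag (C.pe.ringOR hi hα)).1 ((hbr i hi).2 hb))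
      have := hO.a2 a ⟨a1, by rw [a2]; exact br_op h3⟩ (by rw [aa.r, a2]; exact hr)
      rwa [aa.i, a2] at this
    · left; right
      rw [L.es]
      rcases C.st.inn i hi hα hr with h3 | h3
      · exact ⟨_, List.mem_map_of_mem h3, (ncl_br hr).2 hb, Or.inl rfl⟩
      · have hr' : P.real (P.α i) = true := by rw [C.st.rα i hi]; exact hr
        refine ⟨_, List.mem_map_of_mem h3, (ncl_br hr').2 ?_, Or.inr ?_⟩
        · rw [br_α C.h.G hi hα (C.st.rα i hi)]; exact hb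
        · show X.ce i = X.ce (P.α (P.α i))
          rw [C.h.G.αα i hi]
  · -- d
    intro z hz
    have hzu : z &&& U ≠ 0 := by
      rcases List.mem_append.1 hz with hz | hz
      · rw [L.hO, L.hFK, L.tj, L.hj] at h3
        exact all_meet L.hq hUlt L.dj L.djn h3 z hz
      · exact meet_true h5 z hz
    obtain ⟨u, u1, u2⟩ := and_ne_zero.1 hzu
    obtain ⟨i, hi, rfl⟩ := ucell u u2
    exact ⟨i, hi, u1, u2⟩
  · -- kept darts
    intro j hj oj hv i hi hE
    obtain ⟨b, ob, b2, z, z1, z2, z3, z4⟩ := cla j hj oj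
    have ab := L.arc ob.1
    have az := L.arc z2.1
    have hz : z.2.bi' &&& W = 0 := by
      by_contra hcon
      rw [← Ne, az.bi', bi_test] at hcon
      apply hv
      have := vcl _ _ (Or.inr z4) hcon
      rwa [ab.i', b2] at this
    have htr := un_sound h10 z z1 hz
    rw [az.qi', az.qi, L.hF] at htr
    have w3 : Nat.lor U (row (2 ^ F.q - 1) R (F.q * z.2.i)) < 2 ^ F.q := by
      rw [lor_eq]
      exact Nat.or_lt_two_pow hUlt row_lt
    obtain ⟨-, -, m3⟩ := tra_get' L row_lt w3 hO htr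
    have hrow : (row (2 ^ F.q - 1) R' (F.q * z.2.i')).testBit (X.ce' i) = true := by
      rw [row_bit]
      rw [ab.i', b2] at z4
      rcases hE with hE | hE
      · rw [hE]; exact z4
      · exact hG.e.trans _ _ _ z4 (hG.e.symm _ _ hE)
    have := m3 i hi hrow
    rw [lor_eq, Nat.testBit_or, Bool.or_eq_true, row_bit] at this
    rcases this with h | h
    · exact Or.inl h
    · exact Or.inr ⟨b, ob, b2, z, z1, z2, z3, z4, h⟩

/-- the goal -/
def Gl (S S' : St D V) (P P' : Pa) (f : ℕ → D) (g : ℕ → V) (X : XE) (c' : V → Bool)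
    (ex : List ℕ) : Prop :=
  ∃ c, Ag g X c' c ∧ (∀ t, S.Test c t → ∀ d d', Br S c d → Br S c d' → t d = t d') ∧
      (∀ d, OV P f d → Vi S' c' d → Vi S c d) ∧
      (∀ i < P.n, Vi S' c' (f i) → X.x ≤ P'.l i → P'.l i < X.x + X.k →
        ∃ d, S.M.v d = g (P'.l i) ∧ Vi S c d) ∧
      (∀ i ∈ X.kd, Vi S' c' (f i) → Vi S c (f i)) ∧
      ∀ z ∈ X.dj ++ ex, ∃ i < P.n, z.testBit (X.ce i) = true ∧ Vi S c (f i)

theorem tst_sound (C : Cx S S' P P' f g X c' c0)
    (hgx : ∀ a < X.x, ∀ b < X.x, g a = g b → a = b) (L : Lk F X P P') {RP BP : ℕ → ℕ}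
    (hRP : ∀ ξ < 2 ^ X.x, RP ξ = meR F.K F.F (((c0 >>> X.x) <<< X.x) + ξ) F.es F.I)
    (hBP : ∀ ξ < 2 ^ X.x, BP ξ = meB (((c0 >>> X.x) <<< X.x) + ξ) F.es 0)
    {cls : List (ℕ × FA)} {Fb W Wk R' : ℕ} {pp : List (FA × FA)}
    (hG : GI S P P' f F X c' c0 cls Fb R' pp) (hV : VC S' P P' f F X c' c0 R' W Wk) {BA Om : ℕ}
    (hO : PO S P P' f F X c' c0 BA Om) {ex : List ℕ} {ξ : ℕ}
    (h : F.tst Om ex RP BP ξ BA Wk W R' cls pp = true) : Gl S S' P P' f g X c' ex := by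
  unfold XF.tst at h
  rcases bif_true h with ⟨h1, h2⟩ | ⟨-, h2⟩
  swap
  · cases h2
  rw [beq_true, L.hx] at h1
  have hξ : ξ < 2 ^ X.x := by
    have h4 : ξ >>> X.x = 0 := h1
    rw [Nat.shiftRight_eq_div_pow] at h4
    exact (Nat.div_eq_zero_iff_lt (by positivity)).1 h4
  rw [hRP ξ hξ, hBP ξ hξ] at h2
  exact ⟨nc g X.x ξ c', nc_agr', lfM_sound C L hG hV hO nc_agr' (fun i hi => C.opP hgx hξ hi)
      (fun i hi => C.brP hgx hξ hi) h2⟩

end Pool.FC7
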