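import Pool.Agent.FC7.EvE
import Pool.Agent.FC7.XMb

/-! # Vector checks: tables and truth -/

set_option linter.unusedSectionVars false

namespace Pool.FC7

open Ev Pool.FC6

namespace EV

variable {E : EV} {n i : ℕ} {W : ℕ}

theorem Wf.opv_spr (w : E.Wf) {a : EA} : Spr E.L (E.opv (Ks E.L n) W a) := by
  unfold opv
  cases a.r
  · exact Ks_spr w.Lp
  · exact w.md_spr

theorem Wf.opv_at (w : E.Wf) (hi : i < n) {a : EA} (h : a.r = true → E.mdf W i a.a a.b = true) :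
    (E.opv (Ks E.L n) W a).testBit (E.L * i) = true := by
  unfold opv
  cases hr : a.r
  · exact w.O_at hi
  · show (E.md (Ks E.L n) W a.a a.b).testBit (E.L * i) = true
    rw [w.md_at hi]
    exact h hr

/-- a lane which passes the test; `Q`: cells which can be visited -/
structure TL (E : EV) (M W i : ℕ) (Q : ℕ → Prop) : Prop where
  rk : ∀ a, E.x ≤ a → a < E.m → E.tT W i a = true ∨ E.tF W i a = true
  an : (∃ e ∈ E.es, (E.cPv W i e.a != E.cPv W i e.b) = true) ∨ (∃ a ∈ E.ars, E.acb W i a = true) →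
    (∃ e ∈ E.es', E.dif W i e.a e.b = true) ∨ ∃ a ∈ E.ars, E.acb W i a = true
  uc : ∀ r < E.z, ∀ c < E.z, E.m1 M i r E.z = true → E.m1 M i E.z c = true → E.m1 M i r c = true
  ra : ∀ a ∈ E.ars, Q a.c' → (a.r = true → E.mdf W i a.a a.b = true) → ∀ y ∈ E.ys,
    E.fl W i y = true → (∃ s < E.g, y.f'.testBit s = true ∧ E.m2 M i a.c' s = true) →
      ∃ s < E.g, y.f.testBit s = true ∧ (E.m1 M i a.c s = true ∨ E.m1 M i E.z s = true)
  rz : ∀ y ∈ E.ys, E.fl W i y = true → (∃ s < E.g, y.f'.testBit s = true ∧ E.m2 M i E.z s = true) →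
      ∃ s < E.g, y.f.testBit s = true ∧ E.m1 M i E.z s = true

theorem Wf.tl (w : E.Wf) (hi : i < n)
    (h : ∀ p < E.L, (E.badT (Ks E.L n) W).testBit (E.L * i + p) = false) :
    E.TL (E.MT (Ks E.L n) W) W i (fun _ => True) := by
  obtain ⟨hz1, hz2, hz3⟩ := w.zg
  have hq := w.qp
  have hs := w.s2
  have h0 := h 0 w.Lp
  rw [add_zero] at h0
  unfold badT at h0
  simp only [tb_lor, Bool.or_eq_false_iff] at h0
  obtain ⟨b1, b2, b3, b4⟩ := h0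
  have key : ∀ p < E.L, (nT (Nat.land (Nat.land (E.Sc (E.COL (Ks E.L n)) (E.MT (Ks E.L n) W) E.z)
      (E.Rr (E.ROW (Ks E.L n)) (E.MT (Ks E.L n) W) E.z))
          (Nat.mul (Ks E.L n) (Nat.mul (cl E.q E.z) (mo E.z)))) (E.MT (Ks E.L n) W)).testBit
            (E.L * i + p) = false ∧
      (E.tra (Ks E.L n) W (E.MT (Ks E.L n) W)).testBit (E.L * i + p) = false := by
    intro p hp
    have h1 := h p hp
    unfold badT at h1
    simp only [tb_lor, Bool.or_eq_false_iff] at h1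
    exact ⟨h1.2.2.1, h1.2.2.2⟩
  have hra : ∀ p < E.L, ∀ (c c' op : ℕ), ((c = E.z ∧ c' = E.z ∧ op = Ks E.L n) ∨
      ∃ a ∈ E.ars, c = a.c ∧ c' = a.c' ∧ op = E.opv (Ks E.L n) W a) →
      (E.trj (E.MT (Ks E.L n) W) (Ks E.q E.ny) (Nat.mul (Ks E.L n) (Ks E.q E.ny))
      (Nat.mul (Nat.mul (Ks E.L n) (Ks E.q E.ny)) (mo (Nat.sub E.q 1))) (Nat.mul (Ks E.L n) E.F1)
      (Nat.mul (Ks E.L n) E.F2) (E.OY (Ks E.L n) W) (Nat.mul (Ks E.L n) (mo E.q)) c c' op 0).testBit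
        (E.L * i + p) = false := by
    intro p hp c c' op hc
    have h2 := (key p hp).2
    unfold tra at h2
    simp only [cl_eq hq] at h2
    unfold trj at h2 ⊢
    rw [← Bool.not_eq_true, fo_lor] at h2
    push Not at h2
    obtain ⟨h3, h4⟩ := h2
    rcases hc with ⟨rfl, rfl, rfl⟩ | ⟨a, ha, rfl, rfl, rfl⟩
    · rw [← Bool.not_eq_true]
      exact h3
    · rw [← Bool.not_eq_true]
      intro hcon
      rw [tb_lor, Nat.zero_testBit, Bool.false_or] at hcon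
      exact h4 a ha hcon
  refine ⟨fun a h1 h2 => w.rk_at hi h1 h2 b1, fun ha => ?_, fun r hr c hc h1 h2 => ?_,
    fun a ha _ ho => ?_, fun y hy hf hs => ?_⟩
  · have ha' := (w.anb_at hi).2 ha
    rw [tb_nT, ha', Bool.true_and, Bool.not_eq_false'] at b2
    exact (w.anv_at hi).1 b2
  · exact w.uc_at hi hr hc (key _ (w.row_lt (by omega) (by omega))).1 h1 h2
  · exact w.trj_at hi w.opv_spr (w.opv_at hi ho) fun p hp =>
      hra p hp _ _ _ (Or.inr ⟨a, ha, rfl, rfl, rfl⟩)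
  · obtain ⟨s, s1, s2, s3⟩ := w.trj_at hi (Ks_spr w.Lp) (w.O_at hi) (fun p hp =>
      hra p hp _ _ _ (Or.inl ⟨rfl, rfl, rfl⟩)) y hy hf hs
    exact ⟨s, s1, s2, by tauto⟩

theorem Wf.opw_spr (w : E.Wf) {MC : ℕ} {a : EA} : Spr E.L (E.opw (Ks E.L n) W MC a) :=
  spr_and' (sl_spr w.Lp)

theorem Wf.opw_at (w : E.Wf) (hi : i < n) {MC : ℕ} {a : EA} (hQ : E.m1 MC i E.z a.c' = true)
    (h : a.r = true → E.mdf W i a.a a.b = true) :
    (E.opw (Ks E.L n) W MC a).testBit (E.L * i) = true := by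
  unfold opw
  rw [tb_land, w.opv_at hi h, Bool.true_and, sl_at w.Lp hi]
  exact hQ

theorem Wf.tlW (w : E.Wf) (hi : i < n)
    (h : ∀ p < E.L, (E.badW (Ks E.L n) W).testBit (E.L * i + p) = false) :
    E.TL (E.MT (Ks E.L n) W) W i (fun s => E.m1 (E.MCm (Ks E.L n) W) i E.z s = true) := by
  obtain ⟨hz1, hz2, hz3⟩ := w.zg
  have hq := w.qp
  have hs := w.s2
  have h0 := h 0 w.Lp
  rw [add_zero] at h0
  unfold badW at h0
  simp only [tb_lor, Bool.or_eq_false_iff] at h0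
  obtain ⟨b1, b2, b3, b4⟩ := h0
  have key : ∀ p < E.L, (nT (Nat.land (Nat.land (E.Sc (E.COL (Ks E.L n)) (E.MT (Ks E.L n) W) E.z)
      (E.Rr (E.ROW (Ks E.L n)) (E.MT (Ks E.L n) W) E.z))
          (Nat.mul (Ks E.L n) (Nat.mul (cl E.q E.z) (mo E.z)))) (E.MT (Ks E.L n) W)).testBit
            (E.L * i + p) = false ∧
      (E.traw (Ks E.L n) W (E.MCm (Ks E.L n) W) (E.MT (Ks E.L n) W)).testBit (E.L * i + p) = false := by
    intro p hp
    have h1 := h p hp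
    unfold badW at h1
    simp only [tb_lor, Bool.or_eq_false_iff] at h1
    exact ⟨h1.2.2.1, h1.2.2.2⟩
  have hra : ∀ p < E.L, ∀ (c c' op : ℕ), ((c = E.z ∧ c' = E.z ∧ op = Ks E.L n) ∨
      ∃ a ∈ E.ars, c = a.c ∧ c' = a.c' ∧ op = E.opw (Ks E.L n) W (E.MCm (Ks E.L n) W) a) →
      (E.trj (E.MT (Ks E.L n) W) (Ks E.q E.ny) (Nat.mul (Ks E.L n) (Ks E.q E.ny))
      (Nat.mul (Nat.mul (Ks E.L n) (Ks E.q E.ny)) (mo (Nat.sub E.q 1))) (Nat.mul (Ks E.L n) E.F1)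
      (Nat.mul (Ks E.L n) E.F2) (E.OY (Ks E.L n) W) (Nat.mul (Ks E.L n) (mo E.q)) c c' op 0).testBit
        (E.L * i + p) = false := by
    intro p hp c c' op hc
    have h2 := (key p hp).2
    unfold traw at h2
    simp only [cl_eq hq] at h2
    unfold trj at h2 ⊢
    rw [← Bool.not_eq_true, fo_lor] at h2
    push Not at h2
    obtain ⟨h3, h4⟩ := h2
    rcases hc with ⟨rfl, rfl, rfl⟩ | ⟨a, ha, rfl, rfl, rfl⟩
    · rw [← Bool.not_eq_true]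
      exact h3
    · rw [← Bool.not_eq_true]
      intro hcon
      rw [tb_lor, Nat.zero_testBit, Bool.false_or] at hcon
      exact h4 a ha hcon
  refine ⟨fun a h1 h2 => w.rk_at hi h1 h2 b1, fun ha => ?_, fun r hr c hc h1 h2 => ?_,
    fun a ha hQ ho => ?_, fun y hy hf hs => ?_⟩
  · have ha' := (w.anb_at hi).2 ha
    rw [tb_nT, ha', Bool.true_and, Bool.not_eq_false'] at b2
    exact (w.anv_at hi).1 b2
  · exact w.uc_at hi hr hc (key _ (w.row_lt (by omega) (by omega))).1 h1 h2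
  · exact w.trj_at hi w.opw_spr (w.opw_at hi hQ ho) fun p hp =>
      hra p hp _ _ _ (Or.inr ⟨a, ha, rfl, rfl, rfl⟩)
  · obtain ⟨s, s1, s2, s3⟩ := w.trj_at hi (Ks_spr w.Lp) (w.O_at hi) (fun p hp =>
      hra p hp _ _ _ (Or.inl ⟨rfl, rfl, rfl⟩)) y hy hf hs
    exact ⟨s, s1, s2, by tauto⟩

end EV

/-! ### The tables -/

def evEE (Q : Pa) (ce : ℕ → ℕ) (i : ℕ) : EE := ⟨Q.l i, Q.l (Q.φ i), ce i, ce (Q.α i)⟩

def evEA (X : XE) (P : Pa) (hb : ℕ → Bool) (t : ℕ) (p : ℕ × ℕ) : EA :=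
  ⟨t, P.l p.1, P.l (P.φ p.2), P.real p.1, P.real p.1 || X.sp p.1, hb p.1, X.ce p.1, X.ce' p.1⟩

/-- the dart of the arc number `t` -/
def evDa (X : XE) (t : ℕ) : ℕ := (X.ar.getD t (0, 0)).1

/-- the tables are correct -/
structure EvLv (E : EV) (X : XE) (P P' : Pa) (hb : ℕ → Bool) : Prop where
  w : E.Wf
  x : E.x = X.x
  m : E.m = X.x + X.k
  A : E.A = X.ar.length
  es : E.es = X.es.map (evEE P X.ce)
  es' : E.es' = X.es'.map (evEE P' X.ce')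
  ars : E.ars = X.ar.mapIdx (evEA X P hb)
  y1 : ∀ a < X.k, ∃ y ∈ E.ys, y.k = 0 ∧ y.f = X.st (X.x + a) ∧ y.f' = X.st' (X.x + a)
  y2 : ∀ p ∈ X.ar, ∃ y ∈ E.ys, (y.k = if P.real p.1 = true then 1 else 0) ∧ y.a = P.l p.1 ∧
    y.b = P.l (P.φ p.2) ∧ y.f = 2 ^ X.ce p.1 ∧ y.f' = 2 ^ X.ce' p.1
  y3 : ∀ i ∈ X.kd, i < P.n ∧ ∃ y ∈ E.ys, y.k = 0 ∧ y.f = 2 ^ X.ce i ∧ y.f' = 2 ^ X.ce' i
  y4 : ∀ z ∈ X.dj, ∃ y ∈ E.ys, y.k = 0 ∧ y.f = z ∧ y.f' = 2 ^ E.z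
  y5 : ∀ q ∈ X.lr, q.2.1 = true → ∃ y ∈ E.ys, y.k = 2 ∧ y.a = P.l q.1 ∧ y.b = P.l (P.φ q.1) ∧
    y.f = 2 ^ X.ce q.1 ∧ y.f' = 2 ^ E.z
  rq : ∀ d ∈ E.rq, d ∈ X.dj'
  ring : X.ringOk P = true
  er : ∀ i ∈ X.es, P.real i = true
  er' : ∀ i ∈ X.es', P'.real i = true

/-- true pairs -/
def EvTP (A z : ℕ) (R : ℕ → ℕ → Prop) (Ac : ℕ → Prop) (r c : ℕ) : Prop :=
  (r < A ∧ c < A ∧ R r c) ∨ (r < A ∧ c = z ∧ Ac r) ∨ (r = z ∧ c < A ∧ Ac c)

def EvTN (A z : ℕ) (R : ℕ → ℕ → Prop) (Ac : ℕ → Prop) (r c : ℕ) : Prop :=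
  (r < A ∧ c < A ∧ ¬ R r c) ∨ (r < A ∧ c = z ∧ ¬ Ac r) ∨ (r = z ∧ c < A ∧ ¬ Ac c)

/-- the statements of a lane are true -/
structure EvTw (E : EV) (col : ℕ → Bool) (R : ℕ → ℕ → Prop) (Ac : ℕ → Prop) (W i : ℕ) : Prop where
  t : ∀ a < E.m, E.tT W i a = true → col a = true
  f : ∀ a < E.m, E.tF W i a = true → col a = false
  p : ∀ r < E.q, ∀ c < E.q, E.p1 W i r c = true → EvTP E.A E.z R Ac r c
  n : ∀ r < E.q, ∀ c < E.q, E.q1 W i r c = true → EvTN E.A E.z R Ac r c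

section
variable {E : EV} {col : ℕ → Bool} {R : ℕ → ℕ → Prop} {Ac : ℕ → Prop} {W i : ℕ}

theorem EvTw.dif (h : EvTw E col R Ac W i) {a b : ℕ} (ha : a < E.m) (hb : b < E.m)
    (hd : E.dif W i a b = true) : col a ≠ col b := by
  unfold EV.dif at hd
  rw [Bool.or_eq_true, Bool.and_eq_true, Bool.and_eq_true] at hd
  rcases hd with ⟨h1, h2⟩ | ⟨h1, h2⟩
  · rw [h.t a ha h1, h.f b hb h2]; simp
  · rw [h.f a ha h1, h.t b hb h2]; simp

theorem EvTw.mdf (h : EvTw E col R Ac W i) {a b : ℕ} (ha : a < E.m) (hb : b < E.m)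
    (hd : col a ≠ col b) : E.mdf W i a b = true := by
  unfold EV.mdf
  by_contra hcon
  rw [Bool.not_eq_true, Bool.not_eq_false', Bool.or_eq_true, Bool.and_eq_true, Bool.and_eq_true] at hcon
  rcases hcon with ⟨h1, h2⟩ | ⟨h1, h2⟩
  · rw [h.t a ha h1, h.t b hb h2] at hd; exact hd rfl
  · rw [h.f a ha h1, h.f b hb h2] at hd; exact hd rfl

theorem EvTw.tT (h : EvTw E col R Ac W i) {a : ℕ} (ha : a < E.m)
    (hk : E.tT W i a = true ∨ E.tF W i a = true) : E.tT W i a = col a := by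
  cases h1 : E.tT W i a
  · rw [h1] at hk
    rcases hk with hk | hk
    · cases hk
    · exact (h.f a ha hk).symm
  · exact (h.t a ha h1).symm

theorem EvTw.tF (h : EvTw E col R Ac W i) {a : ℕ} (ha : a < E.m)
    (hk : E.tT W i a = true ∨ E.tF W i a = true) : E.tF W i a = !col a := by
  cases h1 : E.tF W i a
  · rw [h1] at hk
    rcases hk with hk | hk
    · rw [h.t a ha hk]; rfl
    · cases hk
  · rw [h.f a ha h1]; rfl

theorem EvTw.dif' (h : EvTw E col R Ac W i) {a b : ℕ} (ha : a < E.m) (hb : b < E.m)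
    (ka : E.tT W i a = true ∨ E.tF W i a = true) (kb : E.tT W i b = true ∨ E.tF W i b = true)
    (hd : col a ≠ col b) : E.dif W i a b = true := by
  unfold EV.dif
  rw [h.tT ha ka, h.tT hb kb, h.tF ha ka, h.tF hb kb]
  cases h1 : col a <;> cases h2 : col b
  · rw [h1, h2] at hd; exact absurd rfl hd
  · rfl
  · rfl
  · rw [h1, h2] at hd; exact absurd rfl hd

theorem EvTP.arcs {A z r c : ℕ} (hA : A ≤ z) (h : EvTP A z R Ac r c) (hr : r < A) (hc : c < A) : R r c := by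
  rcases h with h | h | h
  · exact h.2.2
  · omega
  · omega

theorem EvTP.act {A z r : ℕ} (hA : A ≤ z) (h : EvTP A z R Ac r z) (hr : r < A) : Ac r := by
  rcases h with h | h | h
  · omega
  · exact h.2.2
  · omega

end

section
variable {E : EV} {X : XE} {P P' : Pa} {hb : ℕ → Bool}

theorem EvLv.mem (L : EvLv E X P P' hb) {a : EA} : a ∈ E.ars ↔ ∃ (t : ℕ) (_ : t < X.ar.length),
    evEA X P hb t X.ar[t] = a := by
  rw [L.ars, List.mem_mapIdx]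

/-- the data of an arc -/
structure EvArE (X : XE) (P : Pa) (hb : ℕ → Bool) (a : EA) (p : ℕ × ℕ) : Prop where
  tl : a.t < X.ar.length
  mem : p ∈ X.ar
  d : evDa X a.t = p.1
  g : X.ar[a.t] = p
  ea : a.a = P.l p.1
  eb : a.b = P.l (P.φ p.2)
  er : a.r = P.real p.1
  es : a.s = (P.real p.1 || X.sp p.1)
  eh : a.h = hb p.1
  ec : a.c = X.ce p.1
  ec' : a.c' = X.ce' p.1

theorem evDa_eq {t : ℕ} (ht : t < X.ar.length) : evDa X t = (X.ar[t]).1 := by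
  unfold evDa
  rw [List.getD_eq_getElem _ _ ht]

theorem EvLv.arc (L : EvLv E X P P' hb) {a : EA} (h : a ∈ E.ars) : ∃ p, EvArE X P hb a p := by
  obtain ⟨t, ht, rfl⟩ := L.mem.1 h
  exact ⟨X.ar[t], ht, List.getElem_mem ht, evDa_eq ht, rfl, rfl, rfl, rfl, rfl, rfl, rfl, rfl⟩

theorem EvLv.arcA (L : EvLv E X P P' hb) {a : EA} (h : a ∈ E.ars) : a.t < E.A := by
  obtain ⟨p, hp⟩ := L.arc h
  rw [L.A]
  exact hp.tl

theorem EvLv.of_ar (L : EvLv E X P P' hb) {p : ℕ × ℕ} (h : p ∈ X.ar) : ∃ a ∈ E.ars, EvArE X P hb a p := by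
  obtain ⟨t, ht, rfl⟩ := List.getElem_of_mem h
  exact ⟨_, L.mem.2 ⟨t, ht, rfl⟩, ht, h, evDa_eq ht, rfl, rfl, rfl, rfl, rfl, rfl, rfl, rfl⟩

theorem EvLv.of_t (L : EvLv E X P P' hb) {t : ℕ} (h : t < E.A) : ∃ a ∈ E.ars, a.t = t := by
  rw [L.A] at h
  exact ⟨_, L.mem.2 ⟨t, h, rfl⟩, rfl⟩

variable {D V : Type} [Fintype D] [DecidableEq V]
variable {S S' : St D V} {f : ℕ → D} {g : ℕ → V} {c' : V → Bool} {c0 : ℕ}

/-- open arcs -/
theorem ev_ope_iff (C : Cx S S' P P' f g X c' c0) {p : ℕ × ℕ} (hp : p ∈ X.ar) :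
    P'.op c0 p.1 = true ↔ (P.real p.1 = true → c0.testBit (P.l p.1) ≠ c0.testBit (P.l (P.φ p.2))) := by
  obtain ⟨h1, h2⟩ := C.st.rs _ (C.st.arm hp).1
  obtain ⟨-, r1, r2, r3, -⟩ := C.st.ring _ h1 h2
  unfold Pa.op
  rw [r1, r2, r3]
  cases hr : P.real p.1
  · simp
  · have hpe : p.1 = p.2 := by
      rcases C.st.tw p hp with h | ⟨h, -⟩
      · exact h
      · rw [hr] at h; cases h
    rw [← hpe]
    simp

/-- arcs which are surely active -/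
theorem ev_acb_true (C : Cx S S' P P' f g X c' c0) (L : EvLv E X P P' hb)
    (hsp : ∀ p ∈ X.ar, X.sp p.1 = true → c' (g (P.l p.1)) ≠ c' (g (P.l (P.φ p.2))) →
      ActR S P f X c' p.1) {R : ℕ → ℕ → Prop} {W i : ℕ}
    (tw : EvTw E c0.testBit R (fun s => ActR S P f X c' (evDa X s)) W i) {a : EA} (ha : a ∈ E.ars)
    (h : E.acb W i a = true) : ActR S P f X c' (evDa X a.t) := by
  obtain ⟨p, hp⟩ := L.arc ha
  have hA := L.w.hA
  have hz := L.w.zg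
  have hat := L.arcA ha
  obtain ⟨w0, w1, w2, w3, w4⟩ := L.w.ars a ha
  unfold EV.acb at h
  rw [Bool.or_eq_true, Bool.and_eq_true] at h
  rcases h with h | ⟨h1, h2⟩
  · exact EvTP.act (Ac := fun s => ActR S P f X c' (evDa X s)) hA (tw.p _ (by omega) _ (by omega) h) hat
  · have h3 := tw.dif w3 w4 h2
    rw [hp.ea, hp.eb] at h3
    rw [hp.es, Bool.or_eq_true] at h1
    rw [hp.d]
    rcases h1 with h1 | h1
    · exact C.act_real (List.mem_map.2 ⟨p, hp.mem, rfl⟩) h1 ((ev_ope_iff C hp.mem).2 fun _ => h3)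
    · refine hsp p hp.mem h1 ?_
      obtain ⟨k1, k2⟩ := C.st.al p hp.mem
      rw [C.hm _ k1, C.hm _ k2]
      exact h3

end

end Pool.FC7
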