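import Pool.Agent.FC7.ExH
import Pool.Agent.FC6.Mu
import Pool.Agent.FC6.Ext

/-! # The extension theorem for the class with optional faces -/

open Finset

set_option linter.unusedSectionVars false

namespace Pool.FC7

open Pool.FC6

variable {D V : Type} [Fintype D] [DecidableEq V]

/-! ### Solutions depend only on the colours of the alive vertices -/

section

variable {S : St D V} {c c' : V → Bool} {L : D → Bool}

theorem op_congr (hr : ∀ d, S.real (S.M.α d) = S.real d)
    (hw : ∀ d, S.real d = true → S.M.v d ∈ S.A) (h : ∀ x ∈ S.A, c' x = c x) (d : D) :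
    S.Op c' d ↔ S.Op c d := by
  unfold St.Op
  by_cases hd : S.real d = true
  · have h1 := h _ (hw d hd)
    have h2 := h _ (hw (S.M.α d) (by rw [hr]; exact hd))
    rw [h1, h2]
  · have : S.real d = false := by simpa using hd
    simp [this]

theorem br_congr (hr : ∀ d, S.real (S.M.α d) = S.real d)
    (hw : ∀ d, S.real d = true → S.M.v d ∈ S.A) (h : ∀ x ∈ S.A, c' x = c x) (d : D) :
    Br S c' d ↔ Br S c d := by
  unfold Br
  by_cases hd : S.real d = true
  · have h1 := h _ (hw d hd)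
    have h2 := h _ (hw (S.M.α d) (by rw [hr]; exact hd))
    rw [h1, h2]
  · have : S.real d = false := by simpa using hd
    simp [this]

theorem test_congr (hr : ∀ d, S.real (S.M.α d) = S.real d)
    (hw : ∀ d, S.real d = true → S.M.v d ∈ S.A) (h : ∀ x ∈ S.A, c' x = c x) (t : D → ℝ) :
    S.Test c' t ↔ S.Test c t := by
  unfold St.Test
  simp only [op_congr hr hw h]

theorem vi_congr (hr : ∀ d, S.real (S.M.α d) = S.real d)
    (hw : ∀ d, S.real d = true → S.M.v d ∈ S.A) (h : ∀ x ∈ S.A, c' x = c x) (d : D) :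
    Vi S c' d ↔ Vi S c d := by
  unfold Vi
  simp only [br_congr hr hw h, test_congr hr hw h]

theorem Sol.congr (hr : ∀ d, S.real (S.M.α d) = S.real d)
    (hw : ∀ d, S.real d = true → S.M.v d ∈ S.A) (h : ∀ x ∈ S.A, c' x = c x) (hs : Sol S L c) :
    Sol S L c' where
  con t ht d d' hd hd' := hs.con t ((test_congr hr hw h t).1 ht) d d' ((br_congr hr hw h d).1 hd)
    ((br_congr hr hw h d').1 hd')
  live x hx := by
    obtain ⟨d, h1, h2⟩ := hs.live x hx
    exact ⟨d, h1, (vi_congr hr hw h d).2 h2⟩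
  req d hd := (vi_congr hr hw h d).2 (hs.req d hd)
  lab d hd := (hs.lab d hd).imp (vi_congr hr hw h d).2 (vi_congr hr hw h _).2

theorem op_neg (d : D) : S.Op (fun x => !c x) d ↔ S.Op c d := by
  unfold St.Op
  simp

theorem br_neg (d : D) : Br S (fun x => !c x) d ↔ Br S c d := by
  unfold Br
  simp

theorem vi_neg (d : D) : Vi S (fun x => !c x) d ↔ Vi S c d := by
  unfold Vi St.Test
  simp only [br_neg, op_neg]

/-- the complementary colouring -/
theorem Sol.neg (hs : Sol S L c) : Sol S L (fun x => !c x) where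
  con _ ht d d' hd hd' := hs.con _ ⟨ht.1, fun d ho => ht.2 d ((op_neg d).2 ho)⟩ d d'
    ((br_neg d).1 hd) ((br_neg d').1 hd')
  live x hx := by
    obtain ⟨d, h1, h2⟩ := hs.live x hx
    exact ⟨d, h1, (vi_neg d).2 h2⟩
  req d hd := (vi_neg d).2 (hs.req d hd)
  lab d hd := (hs.lab d hd).imp (vi_neg d).2 (vi_neg _).2

/-- darts of the same real face are visited simultaneously -/
theorem Vi.sc {d e : D} (h : Vi S c d) (hs : S.sc.r d e) : Vi S c e :=
  h.eq fun t ht => S.cl_sc ⟨ht.1, fun d hd => ht.2 d (Or.inl hd)⟩ hs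

end

variable {S S' : St D V} {P P' : Pa} {f : ℕ → D} {g : ℕ → V} {X : XE}

/-- the mask `z` contains at most the cell of `i` -/
def Cell (P : Pa) (X : XE) (z i : ℕ) : Prop := ∀ j < P.n, z.testBit (X.ce j) = true → X.ce j = X.ce i

theorem Cx.cell_vi {c' c : V → Bool} {c0 : ℕ} (C : Cx S S' P P' f g X c' c0) {z i : ℕ}
    (hi : i < P.n) (hz : ∀ j < P.n, z.testBit (X.ce j) = true → X.ce j = X.ce i) {j : ℕ}
    (hj : j < P.n) (hb : z.testBit (X.ce j) = true) (hv : Vi S c (f j)) : Vi S c (f i) := by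
  exact hv.eq fun t ht => C.cellP ht hj hi (hz j hj hb)

/-- EXTENSION THEOREM -/
theorem ext_sol (h : Rpl S S' P P' f g) (rα : ∀ d, S.real (S.M.α d) = S.real d)
    (rα' : ∀ d, S'.real (S'.M.α d) = S'.real d) (hrA : ∀ d, S'.real d = true → S'.M.v d ∈ S'.A)
    (X : XE) (hchk : X.chk P P' = true)
    (hX : ∀ a < X.x, ∀ d, S.M.v d = g a → ∃ i < P.n, f i = d)
    (hg : ∀ a < X.x, ∀ i < P.n, P.l i ≠ a → g (P.l i) ≠ g a)
    (hgx : ∀ a < X.x, ∀ b < X.x, g a = g b → a = b)
    (hA : ∀ y ∈ S.A, y ∈ S'.A ∨ ∃ a < X.x, y = g a)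
    (hA' : ∀ a < X.lo, g a ∉ S'.A)
    (hfr : ∀ i < P.n, X.x + X.k ≤ P'.l i → g (P'.l i) ∈ S'.A →
      ∃ d, OU P f d ∧ S.M.v d = g (P'.l i) ∧ S'.sc.r (f i) d)
    {L L' : D → Bool} (hL : ∀ d, L (S.M.α d) = L d)
    (hal : ∀ a < X.x, g a ∈ S.A → X.st a ∈ X.dj)
    (hu : ∀ i < P.n, S.u (f i) ≠ 0 → ∃ z ∈ X.dj, Cell P X z i)
    (hui : ∀ i < P.n, P.α i ≠ i → L (f i) = true → ∃ z ∈ X.dj, ∀ j < P.n,
      z.testBit (X.ce j) = true → X.ce j = X.ce i ∨ X.ce j = X.ce (P.α i))
    (hlr : ∀ i ∈ X.rs, L (f i) = true → ∃ s, (i, true, s) ∈ X.lr)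
    (hlr' : ∀ q ∈ X.lr, q.2.2 = true → L' (f q.1) = true)
    (huo : ∀ d, OU P f d → S.u d ≠ 0 → S'.u d ≠ 0 ∨ ∃ i < P.n, S.sc.r (f i) d ∧
      ∃ z ∈ X.dj, Cell P X z i)
    (hlo : ∀ d, OU P f d → OU P f (S.M.α d) → L d = true → L' d = true)
    (hou : ∀ i ∈ X.rs, L (f i) = true → OU P f (S.M.α (f i)))
    {c' : V → Bool} (hc' : Sol S' L' c')
    (hdj : ∀ c', Sol S' L' c' → Dj S' P f X.ce' c' X.dj')
    (hsp : ∀ c', Sol S' L' c' → ∀ p ∈ X.ar, X.sp p.1 = true →
      c' (g (P.l p.1)) ≠ c' (g (P.l (P.φ p.2))) → Act S P f c' (f p.1) ∨ Act S P f c' (f p.2))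
    (hflt : ∀ m < 2 ^ (X.x + X.k), (∀ a < X.x + X.k, m.testBit a = (decide (g a ∈ S'.A) && c' (g a))) →
      X.flt m = true) : ∃ c, Sol S L c := by
  classical
  unfold XE.chk at hchk
  rw [Bool.and_eq_true, Bool.and_eq_true, Bool.and_eq_true, Bool.and_eq_true, decide_eq_true_eq,
    allN_iff, List.all_eq_true] at hchk
  obtain ⟨⟨⟨⟨h1, h2⟩, hlo'⟩, hlc⟩, h3⟩ := hchk
  have hst := XE.stat_of h1
  have hring : (X.nc || X.par) = true → X.ringOk P = true := by
    intro hn
    rw [if_pos hn] at h2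
    exact h2
  -- normalise the colouring
  let c : V → Bool := fun y => if y ∈ S'.A then c' y else false
  have hc : Sol S' L' c := hc'.congr rα' hrA (fun y hy => by simp only [c, if_pos hy])
  have cD : ∀ y, y ∉ S'.A → c y = false := fun y hy => by simp only [c, if_neg hy]
  obtain ⟨c0, m1, m2⟩ := exists_mask (X.x + X.k) (fun a => c (g a))
  have C : Cx S S' P P' f g X c c0 := by
    exact ⟨h, rα, rα', hst, hX, hg, hc.con, fun a ha => (m2 a ha).symm⟩
  have hone : X.one P P' c0 = true := by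
    have e : c0 = (c0 >>> X.lo) <<< X.lo := by
      apply Nat.eq_of_testBit_eq
      intro t
      have := mask_bit (c0 := c0) (x := X.lo) (ξ := 0) (Nat.two_pow_pos _) t
      rw [Nat.add_zero] at this
      rw [this]
      split_ifs with ht
      · rw [m2 t (by omega), cD _ (hA' t ht), Nat.zero_testBit]
      · rfl
    have h4 := h3 (c0 >>> X.lo) (by
      rw [Nat.shiftRight_eq_div_pow]
      apply Nat.div_lt_of_lt_mul
      rw [← pow_add, Nat.add_sub_cancel' (by omega)]; exact m1)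
    rw [← e, Bool.or_eq_true, Bool.not_eq_true'] at h4
    rcases h4 with h4 | h4
    · rw [hflt c0 m1 (fun a ha => by
        rw [m2 a ha]
        simp only [c]
        by_cases hy : g a ∈ S'.A
        · rw [if_pos hy]; simp [hy]
        · rw [if_neg hy]; simp [hy])] at h4
      cases h4
    · exact h4
  have hlrn : ∀ q ∈ X.lr, q.1 < P.n := fun q hq => by
    have := hlc q hq
    rw [Bool.and_eq_true, decide_eq_true_eq] at this
    exact (hst.rs _ (hst.asm this.1)).1
  have hLr : ∀ q ∈ X.lr, q.1 < P.n ∧ (q.2.2 = true → Vi S' c (f q.1) ∨ Vi S' c (S.M.α (f q.1))) := by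
    intro q hq
    refine ⟨hlrn q hq, fun hs => ?_⟩
    have := hc.lab _ (hlr' q hq hs)
    rwa [h.αo] at this
  have hspR : ∀ p ∈ X.ar, X.sp p.1 = true → c (g (P.l p.1)) ≠ c (g (P.l (P.φ p.2))) →
      ActR S P f X c p.1 := by
    intro p hp h5 h6
    rcases hsp c hc p hp h5 h6 with h7 | h7
    · exact ⟨p.1, C.rr_equiv.refl _, h7⟩
    · exact ⟨p.2, C.rr_arc hp, h7⟩
  obtain ⟨Ac, ex, Lk, prs, p1, p2, p3, p4, p5, p6⟩ := one_sound C hring hspR hLr (hdj c hc) hone
  obtain ⟨cn, q1, q2, q3, q4, q5⟩ := leaf_sound C hgx p1 p2 p4 p5 p6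
  -- singletons and pairs of cells
  have hcell : ∀ i < P.n, (∃ z ∈ X.dj, Cell P X z i) → Vi S cn (f i) := by
    rintro i hi ⟨z, z1, z2⟩
    obtain ⟨j, j1, j2, j3⟩ := q5 z (List.mem_append_left _ z1)
    exact C.cell_vi hi z2 j1 j2 j3
  refine ⟨cn, q2, fun y hy => ?_, fun d hd => ?_, fun d hd => ?_⟩
  · by_cases hx : ∃ a < X.x, y = g a
    · obtain ⟨a, ha, rfl⟩ := hx
      obtain ⟨j, j1, j2, j3⟩ := q5 _ (List.mem_append_left _ (hal a ha hy))
      obtain ⟨i, i1, i2, i3⟩ := hst.stb a (by omega) _ j2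
      refine ⟨f i, by rw [h.e.hl i i1, i2], ?_⟩
      exact C.cell_vi i1 (z := 2 ^ X.ce i) (fun j hj hb => (bit1.1 hb).symm) j1
        (bit1.2 i3) j3
    · have hy' : y ∈ S'.A := (hA y hy).resolve_right hx
      obtain ⟨d, hd, hv⟩ := hc.live y hy'
      by_cases hO : OU P f d
      · exact ⟨d, by rw [← h.vo d hO]; exact hd, q3 d hO hv⟩
      · obtain ⟨i, hi, rfl⟩ := C.exi hO
        have hi' : i < P'.n := by rw [h.hn]; exact hi
        have hl := h.e'.hl i hi'
        rw [hd] at hl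
        have n1 : X.x ≤ P'.l i := by
          by_contra hcon
          exact hx ⟨P'.l i, by omega, hl⟩
        by_cases n2 : P'.l i < X.x + X.k
        · obtain ⟨e, e1, e2⟩ := q4 i hi hv n1 n2
          exact ⟨e, by rw [e1, hl], e2⟩
        · obtain ⟨e, e1, e2, e3⟩ := hfr i hi (by omega) (by rw [← hl]; exact hy')
          exact ⟨e, by rw [e2, hl], q3 e e1 (hv.sc e3)⟩
  · by_cases hO : OU P f d
    · rcases huo d hO hd with h5 | ⟨i, hi, h5, h6⟩
      · exact q3 d hO (hc.req d h5)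
      · exact (hcell i hi h6).sc h5
    · obtain ⟨i, hi, rfl⟩ := C.exi hO
      exact hcell i hi (hu i hi hd)
  · -- ring darts
    have ring : ∀ i ∈ X.rs, L (f i) = true → Vi S cn (f i) ∨ Vi S cn (S.M.α (f i)) := by
      intro i hi hl
      obtain ⟨k1, k2⟩ := hst.rs i hi
      obtain ⟨s, hs⟩ := hlr i hi hl
      have hO := C.pe.ringOR k1 k2
      have hreal : P.real i = true := by
        have := hlc _ hs
        rw [Bool.and_eq_true] at this
        exact this.2
      rcases p3 _ hs rfl with h5 | h5 | h5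
      · left
        refine Br.vi ?_
        rw [C.brO q1 hO, ← C.brO ag_refl hO]
        refine ⟨by rw [h.e.hr i k1]; exact hreal, ?_⟩
        obtain ⟨r4, r5⟩ := hst.rl i k1 hreal
        rw [h.e.hl i k1, em_end h.e h.G k1, C.hm _ r4, C.hm _ r5]
        unfold Pa.op at h5
        simp only [hreal] at h5
        simpa using h5
      · left
        obtain ⟨j, j1, j2, j3⟩ := q5 _ (List.mem_append_right _ h5)
        exact C.cell_vi k1 (fun j hj hb => (bit1.1 hb).symm) j1 j2 j3
      · right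
        exact q3 _ (hou i hi hl) h5
    by_cases hO : OU P f d
    · by_cases hO' : OU P f (S.M.α d)
      · rcases hc.lab d (hlo d hO hO' hd) with h5 | h5
        · exact Or.inl (q3 d hO h5)
        · rw [h.αo] at h5
          exact Or.inr (q3 _ hO' h5)
      · obtain ⟨i, hi, hi'⟩ := C.exi hO'
        have hα : P.α i = i := by
          by_contra hcon
          exact C.pe.orα hO.or i hi hcon hi'
        have := ring i (hst.ring i hi hα).1 (by rw [hi', hL]; exact hd)
        rw [hi', S.M.αα] at this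
        exact this.symm
    · obtain ⟨i, hi, rfl⟩ := C.exi hO
      by_cases hα : P.α i = i
      · exact ring i (hst.ring i hi hα).1 hd
      · obtain ⟨z, z1, z2⟩ := hui i hi hα hd
        obtain ⟨j, j1, j2, j3⟩ := q5 z (List.mem_append_left _ z1)
        rcases z2 j j1 j2 with h5 | h5
        · left
          exact C.cell_vi hi (z := 2 ^ X.ce i) (fun j hj hb => (bit1.1 hb).symm) j1
            (bit1.2 h5.symm) j3
        · right
          rw [h.e.hα i hi hα]
          exact C.cell_vi (h.G.αlt i hi) (z := 2 ^ X.ce (P.α i)) (fun j hj hb => (bit1.1 hb).symm) j1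
            (bit1.2 h5.symm) j3

end Pool.FC7
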