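import Pool.Agent.FC7.EvF
import Pool.Agent.FC7.Ex

/-! # Vector checks: soundness of a lane of the test -/

set_option linter.unusedSectionVars false

namespace Pool.FC7

open Ev Pool.FC6

variable {E : EV} {X : XE} {P P' : Pa} {hb : ℕ → Bool}
variable {D V : Type} [Fintype D] [DecidableEq V]
variable {S S' : St D V} {f : ℕ → D} {g : ℕ → V} {c' : V → Bool} {c0 : ℕ}

/-- the conclusion for one colouring -/
def EvSm (S S' : St D V) (P P' : Pa) (f : ℕ → D) (g : ℕ → V) (X : XE) (c' : V → Bool) (c0 : ℕ) :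
    Prop :=
  ∃ ex c, (∀ q ∈ X.lr, LrOk S S' P f X c' c0 ex q) ∧
    Ag g X c' c ∧ (∀ t, S.Test c t → ∀ d d', Br S c d → Br S c d' → t d = t d') ∧
    (∀ d, OV P f d → Vi S' c' d → Vi S c d) ∧
    (∀ i < P.n, Vi S' c' (f i) → X.x ≤ P'.l i → P'.l i < X.x + X.k →
      ∃ d, S.M.v d = g (P'.l i) ∧ Vi S c d) ∧
    (∀ i ∈ X.kd, Vi S' c' (f i) → Vi S c (f i)) ∧
    ∀ z ∈ X.dj ++ ex, ∃ i < P.n, z.testBit (X.ce i) = true ∧ Vi S c (f i)

/-- a visited cell of `P` -/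
def EvVc (S : St D V) (P : Pa) (X : XE) (f : ℕ → D) (c : V → Bool) (s : ℕ) : Prop :=
  ∃ i < P.n, X.ce i = s ∧ Vi S c (f i)

theorem EvVc.tq (C : Cx S S' P P' f g X c' c0) {c : V → Bool} {s t : ℕ} (h : Tq S P X f c s t)
    (hs : EvVc S P X f c s) : EvVc S P X f c t := by
  obtain ⟨i, hi, rfl, hv⟩ := hs
  obtain ⟨j, hj, rfl⟩ := h.1.1 ⟨i, hi, rfl⟩
  exact ⟨j, hj, rfl, hv.eq fun τ ht => Tq_get C hi hj h ht⟩

/-- the relation of the cells of `P` and the element `z` -/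
def EvTQ (S : St D V) (P : Pa) (X : XE) (f : ℕ → D) (c : V → Bool) (z r s : ℕ) : Prop :=
  (r = z ∧ s = z) ∨ (r < z ∧ s < z ∧ Tq S P X f c r s) ∨ (r = z ∧ s < z ∧ EvVc S P X f c s) ∨
    (r < z ∧ s = z ∧ EvVc S P X f c r)

theorem EvTQ.symm {c : V → Bool} {z r s : ℕ} (h : EvTQ S P X f c z r s) : EvTQ S P X f c z s r := by
  rcases h with ⟨h1, h2⟩ | ⟨h1, h2, h3⟩ | ⟨h1, h2, h3⟩ | ⟨h1, h2, h3⟩
  · exact Or.inl ⟨h2, h1⟩
  · exact Or.inr (Or.inl ⟨h2, h1, Tq_equiv.symm h3⟩)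
  · exact Or.inr (Or.inr (Or.inr ⟨h2, h1, h3⟩))
  · exact Or.inr (Or.inr (Or.inl ⟨h2, h1, h3⟩))

theorem EvTQ.trans (C : Cx S S' P P' f g X c' c0) {c : V → Bool} {z k r s : ℕ} (hk : k < z)
    (h : EvTQ S P X f c z r k) (h' : EvTQ S P X f c z k s) : EvTQ S P X f c z r s := by
  rcases h with ⟨h1, h2⟩ | ⟨h1, h2, h3⟩ | ⟨h1, h2, h3⟩ | ⟨h1, h2, h3⟩
  · omega
  · rcases h' with ⟨g1, g2⟩ | ⟨g1, g2, g3⟩ | ⟨g1, g2, g3⟩ | ⟨g1, g2, g3⟩
    · omega
    · exact Or.inr (Or.inl ⟨h1, g2, Tq_equiv.trans h3 g3⟩)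
    · omega
    · exact Or.inr (Or.inr (Or.inr ⟨h1, g2, g3.tq C (Tq_equiv.symm h3)⟩))
  · rcases h' with ⟨g1, g2⟩ | ⟨g1, g2, g3⟩ | ⟨g1, g2, g3⟩ | ⟨g1, g2, g3⟩
    · omega
    · exact Or.inr (Or.inr (Or.inl ⟨h1, g2, h3.tq C g3⟩))
    · omega
    · exact Or.inl ⟨h1, g2⟩
  · omega

theorem EvTQ.s2 {c : V → Bool} {z a b r s : ℕ} (h : EvTQ S P X f c z a b) (h' : EV.S2 a b r s) :
    EvTQ S P X f c z r s := by
  rcases h' with ⟨rfl, rfl⟩ | ⟨rfl, rfl⟩
  · exact h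
  · exact h.symm

theorem EvTQ.tq {c : V → Bool} {z r s : ℕ} (h : EvTQ S P X f c z r s) (hr : r < z) (hs : s < z) :
    Tq S P X f c r s := by
  rcases h with ⟨h1, h2⟩ | ⟨h1, h2, h3⟩ | ⟨h1, h2, h3⟩ | ⟨h1, h2, h3⟩
  · omega
  · exact h3
  · omega
  · omega

theorem EvTQ.vc {c : V → Bool} {z s : ℕ} (h : EvTQ S P X f c z z s) (hs : s < z) :
    EvVc S P X f c s := by
  rcases h with ⟨h1, h2⟩ | ⟨h1, h2, h3⟩ | ⟨h1, h2, h3⟩ | ⟨h1, h2, h3⟩
  · omega
  · omega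
  · exact h3
  · omega

theorem ev_fl0 {W i : ℕ} {y : EY} (h : y.k = 0) : E.fl W i y = true := by
  unfold EV.fl
  rw [h]
  rfl

section
variable {n i W : ℕ}

/-- the colours of the labels in `P` -/
theorem ev_cPv_eq (L : EvLv E X P P' hb) {R : ℕ → ℕ → Prop} {Ac : ℕ → Prop}
    (tw : EvTw E c0.testBit R Ac W i)
    (hk : ∀ a, E.x ≤ a → a < E.m → E.tT W i a = true ∨ E.tF W i a = true) {ξ : ℕ}
    (hξ : ξ < 2 ^ X.x) (hx : ∀ a < X.x, ξ.testBit a = E.tX W i a) {a : ℕ} (ha : a < E.m) :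
    E.cPv W i a = (((c0 >>> X.x) <<< X.x) + ξ).testBit a := by
  unfold EV.cPv
  rw [mask_bit hξ, L.x]
  split_ifs with h
  · exact (hx a h).symm
  · exact tw.tT ha (hk a (by rw [L.x]; omega) ha)

variable (C : Cx S S' P P' f g X c' c0) (L : EvLv E X P P' hb)
  (hsp : ∀ p ∈ X.ar, X.sp p.1 = true → c' (g (P.l p.1)) ≠ c' (g (P.l (P.φ p.2))) →
      ActR S P f X c' p.1)
  (hi : i < n)
  (tw : EvTw E c0.testBit (fun s t => Rr S P f X c' (evDa X s) (evDa X t))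
    (fun s => ActR S P f X c' (evDa X s)) W i)

include C L hsp hi tw

/-- soundness of the matrix of `P` -/
theorem ev_m1_tt {c : V → Bool} (hag : Ag g X c' c) {m : ℕ}
    (hop : ∀ i < P.n, (S.Op c (f i) ↔ P.op m i = true))
    (hbr : ∀ i < P.n, (Br S c (f i) ↔ br P m i = true))
    (hm : ∀ a < E.m, E.cPv W i a = m.testBit a) {r s : ℕ} (hr : r < E.g) (hs : s < E.g)
    (h : E.m1 (E.MT (Ks E.L n) W) i r s = true) : EvTQ S P X f c E.z r s := by
  have w := L.w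
  obtain ⟨hz1, hz2, hz3⟩ := w.zg
  have hA := w.hA
  refine w.m1_sub hi (T := EvTQ S P X f c E.z) (fun k hk r _ s _ h h' => h.trans C hk h')
    (fun r hr s hs h0 => ?_) hr hs h
  rw [w.M0_at1 hi (by omega) (by omega)] at h0
  rcases h0 with ⟨e, h1, h2, h3⟩ | ⟨a, h1, h2, h3⟩ | ⟨a, b, h1, h2, h3⟩ | ⟨h1, h2⟩
  · obtain ⟨w1, w2, w3, w4⟩ := w.es e h1
    rw [hm _ w3, hm _ w4] at h2
    rw [L.es] at h1
    obtain ⟨j, hj, rfl⟩ := List.mem_map.1 h1
    obtain ⟨k1, k2⟩ := C.st.es j hj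
    have k3 := C.h.G.αlt j k1
    have hre := L.er j hj
    have ob : P.op m j = true := by
      unfold Pa.op
      rw [hre]
      exact h2
    have bb : br P m j = true := by
      unfold br
      rw [hre]
      exact h2
    have v1 : Vi S c (f j) := ((hbr j k1).2 bb).vi
    have v2 : Vi S c (f (P.α j)) := by
      rw [← C.h.e.hα j k1 k2]
      exact (vi_α ((hop j k1).2 ob)).2 v1
    have q : Tq S P X f c (X.ce j) (X.ce (P.α j)) := by
      refine Tq_of C k1 k3 fun τ ht => ?_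
      rw [← C.h.e.hα j k1 k2, ht.2 _ ((hop j k1).2 ob)]
    rcases h3 with h3 | h3 | h3
    · exact EvTQ.s2 (Or.inr (Or.inl ⟨w1, w2, q⟩)) h3
    · exact EvTQ.s2 (Or.inr (Or.inr (Or.inr ⟨w1, rfl, ⟨j, k1, rfl, v1⟩⟩))) h3
    · exact EvTQ.s2 (Or.inr (Or.inr (Or.inr ⟨w2, rfl, ⟨_, k3, rfl, v2⟩⟩))) h3
  · obtain ⟨w0, w1, w2, w3, w4⟩ := w.ars a h1
    obtain ⟨p, hp⟩ := L.arc h1
    have ha := ev_acb_true C L hsp tw h1 h2
    rw [hp.d] at ha
    have v := C.actR_vi hag ha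
    refine EvTQ.s2 (Or.inr (Or.inr (Or.inr ⟨w1, rfl, ⟨p.1, (C.arlt hp.mem).1, hp.ec.symm, v⟩⟩))) h3
  · obtain ⟨ha, hb'⟩ := pair_mem h1
    obtain ⟨-, w1, w2, w3, w4⟩ := w.ars a ha
    obtain ⟨-, v1, v2, v3, v4⟩ := w.ars b hb'
    obtain ⟨p, hp⟩ := L.arc ha
    obtain ⟨q, hq⟩ := L.arc hb'
    have hat := L.arcA ha
    have hbt := L.arcA hb'
    have hR := EvTP.arcs (R := fun s t => Rr S P f X c' (evDa X s) (evDa X t)) hA
      (tw.p _ (by omega) _ (by omega) h2) hat hbt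
    simp only [hp.d, hq.d] at hR
    refine EvTQ.s2 (Or.inr (Or.inl ⟨w1, v1, ?_⟩)) h3
    rw [hp.ec, hq.ec]
    exact Tq_of C (C.arlt hp.mem).1 (C.arlt hq.mem).1 fun τ ht => C.rr_test hag ht hR
  · subst h1
    rcases Nat.lt_or_ge r E.z with h4 | h4
    · exact Or.inr (Or.inl ⟨h4, h4, Tq_equiv.refl _⟩)
    · exact Or.inl ⟨by omega, by omega⟩

/-- SOUNDNESS of a lane of the test; `Q`: cells which can be visited -/
theorem ev_TL_sound (hgx : ∀ a < X.x, ∀ b < X.x, g a = g b → a = b)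
    (hlr : ∀ q ∈ X.lr, q.1 < P.n ∧ P.real q.1 = true ∧ P.l q.1 < X.x + X.k ∧
      P.l (P.φ q.1) < X.x + X.k)
    {Q : ℕ → Prop} (T : E.TL (E.MT (Ks E.L n) W) W i Q)
    (hQ : ∀ j < P.n, X.ce' j < E.z → Vi S' c' (f j) → Q (X.ce' j)) :
    EvSm S S' P P' f g X c' c0 := by
  classical
  have w := L.w
  obtain ⟨hz1, hz2, hz3⟩ := w.zg
  have hA := w.hA
  obtain ⟨ξ, hξ, hx⟩ := exists_mask X.x (fun a => E.tX W i a)
  set M := E.MT (Ks E.L n) W with hM
  have hcp : ∀ a < E.m, E.cPv W i a = (((c0 >>> X.x) <<< X.x) + ξ).testBit a :=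
    fun a ha => ev_cPv_eq L tw T.rk hξ hx ha
  have hop := fun i hi => C.opP hgx hξ (i := i) hi
  have hbr := fun i hi => C.brP hgx hξ (i := i) hi
  have hag : Ag g X c' (nc g X.x ξ c') := nc_agr'
  set c := nc g X.x ξ c' with hc
  set m := ((c0 >>> X.x) <<< X.x) + ξ with hm
  have tt : ∀ {r s : ℕ}, r < E.g → s < E.g → E.m1 M i r s = true → EvTQ S P X f c E.z r s :=
    fun hr hs h => ev_m1_tt C L hsp hi tw hag hop hbr hcp hr hs h
  -- cells
  have idz : ∀ r < E.g, E.m2 M i r r = true := fun r hr => w.m2_mono hi hr hr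
    ((w.M0_at2 hi (by omega) (by omega)).2 (Or.inr (Or.inr ⟨rfl, by omega⟩)))
  -- edges of `P'`
  have ed' : ∀ j < P.n, P.α j ≠ j → P'.real j = true → c0.testBit (P'.l j) ≠ c0.testBit (P'.l (P'.φ j)) →
      X.ce' j < E.z ∧ X.ce' (P.α j) < E.z ∧ E.m2 M i (X.ce' j) (X.ce' (P.α j)) = true ∧
      E.m2 M i E.z (X.ce' j) = true := by
    intro j hj hne hr hcol
    have hj' : j < P'.n := by rw [C.h.hn]; exact hj
    have hα' : P'.α j = P.α j := C.h.hα j hj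
    rcases C.st.inn' j hj hne hr with h1 | h1
    · have he : evEE P' X.ce' j ∈ E.es' := by rw [L.es']; exact List.mem_map_of_mem h1
      obtain ⟨w1, w2, w3, w4⟩ := w.es' _ he
      have hmd : E.mdf W i (P'.l j) (P'.l (P'.φ j)) = true := tw.mdf w3 w4 hcol
      have w2' : X.ce' (P.α j) < E.z := by rw [← hα']; exact w2
      have w1' : X.ce' j < E.z := w1
      refine ⟨w1, w2', w.m2_mono hi (by omega) (by omega) ?_, w.m2_mono hi (by omega) (by omega) ?_⟩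
      · exact (w.M0_at2 hi (by omega) (by omega)).2 (Or.inl ⟨_, he, hmd, Or.inl (Or.inl
          ⟨rfl, by show X.ce' (P.α j) = X.ce' (P'.α j); rw [hα']⟩)⟩)
      · exact (w.M0_at2 hi (by omega) (by omega)).2 (Or.inl ⟨_, he, hmd, Or.inr (Or.inl (Or.inr
          ⟨rfl, rfl⟩))⟩)
    · have he : evEE P' X.ce' (P.α j) ∈ E.es' := by rw [L.es']; exact List.mem_map_of_mem h1
      obtain ⟨w1, w2, w3, w4⟩ := w.es' _ he
      have k1 := C.h.G.αlt j hj
      have k1' : P.α j < P'.n := by rw [C.h.hn]; exact k1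
      have hαα : P'.α (P.α j) = j := by rw [C.h.hα _ k1, C.h.G.αα j hj]
      have e1 := C.h.G'.lφ j hj' (by rw [hα']; exact hne)
      have e2 := C.h.G'.lφ (P.α j) k1' (by rw [hαα]; exact hne.symm)
      rw [hα'] at e1
      rw [hαα] at e2
      have hmd : E.mdf W i (P'.l (P.α j)) (P'.l (P'.φ (P.α j))) = true := by
        refine tw.mdf w3 w4 ?_
        rw [e2, ← e1]; exact hcol.symm
      have w1' : X.ce' (P.α j) < E.z := w1
      have w2' : X.ce' j < E.z := by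
        have : X.ce' (P'.α (P.α j)) < E.z := w2
        rwa [hαα] at this
      refine ⟨w2', w1, w.m2_mono hi (by omega) (by omega) ?_, w.m2_mono hi (by omega) (by omega) ?_⟩
      · exact (w.M0_at2 hi (by omega) (by omega)).2 (Or.inl ⟨_, he, hmd, Or.inl (Or.inr
          ⟨by show X.ce' j = X.ce' (P'.α (P.α j)); rw [hαα], rfl⟩)⟩)
      · exact (w.M0_at2 hi (by omega) (by omega)).2 (Or.inl ⟨_, he, hmd, Or.inr (Or.inr (Or.inr
          ⟨rfl, by show X.ce' j = X.ce' (P'.α (P.α j)); rw [hαα]⟩))⟩)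
  -- arcs
  have arcI : ∀ j ∈ X.as, ∃ p ∈ X.ar, ∃ a ∈ E.ars, EvArE X P hb a p ∧ p.1 = j := by
    intro j hj
    obtain ⟨p, hp, rfl⟩ := List.mem_map.1 hj
    obtain ⟨a, ha, h1⟩ := L.of_ar hp
    exact ⟨p, hp, a, ha, h1, rfl⟩
  have opn : ∀ p ∈ X.ar, P'.op c0 p.1 = true → P.real p.1 = true →
      c0.testBit (P.l p.1) ≠ c0.testBit (P.l (P.φ p.2)) := fun p hp ho => (ev_ope_iff C hp).1 ho
  have rlab : ∀ p ∈ X.ar, P.real p.1 = true → X.x ≤ P.l p.1 ∧ X.x ≤ P.l (P.φ p.2) := by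
    intro p hp hr
    obtain ⟨h1, h2⟩ := C.st.rs _ (C.st.arm hp).1
    obtain ⟨-, r1, r2, r3, r4, r5⟩ := C.st.ring _ h1 h2
    have hpe : p.1 = p.2 := by
      rcases C.st.tw p hp with h | ⟨h, -⟩
      · exact h
      · rw [hr] at h; cases h
    rw [← hpe]
    exact ⟨r4, r5⟩
  have kn : ∀ a, X.x ≤ a → a < X.x + X.k → E.tT W i a = true ∨ E.tF W i a = true :=
    fun a h1 h2 => T.rk a (by rw [L.x]; exact h1) (by rw [L.m]; exact h2)
  have amd : ∀ {a : EA} {p : ℕ × ℕ}, EvArE X P hb a p → P'.op c0 p.1 = true → a.r = true →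
      E.mdf W i a.a a.b = true := by
    intro a p hp ho hr
    rw [hp.er] at hr
    obtain ⟨k1, k2⟩ := C.st.al p hp.mem
    rw [hp.ea, hp.eb]
    exact tw.mdf (by rw [L.m]; exact k1) (by rw [L.m]; exact k2) (opn p hp.mem ho hr)
  have fl2 : ∀ p ∈ X.ar, P'.op c0 p.1 = true → ∃ y ∈ E.ys, E.fl W i y = true ∧
      y.f = 2 ^ X.ce p.1 ∧ y.f' = 2 ^ X.ce' p.1 := by
    intro p hp ho
    obtain ⟨y, y1, y2, y3, y4, y5, y6⟩ := L.y2 p hp
    refine ⟨y, y1, ?_, y5, y6⟩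
    unfold EV.fl
    rw [y2, y3, y4]
    split_ifs with hr
    · obtain ⟨k1, k2⟩ := C.st.al p hp
      obtain ⟨k3, k4⟩ := rlab p hp hr
      exact tw.dif' (by rw [L.m]; exact k1) (by rw [L.m]; exact k2) (kn _ k3 k1) (kn _ k4 k2)
        (opn p hp ho hr)
    · rfl
  have rac : ∀ {a : EA} {p : ℕ × ℕ}, a ∈ E.ars → EvArE X P hb a p → P'.op c0 p.1 = true →
      P.real p.1 = true → E.acb W i a = true := by
    intro a p ha hp ho hr
    obtain ⟨k1, k2⟩ := C.st.al p hp.mem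
    obtain ⟨k3, k4⟩ := rlab p hp.mem hr
    unfold EV.acb
    rw [hp.es, hr, Bool.true_or, Bool.true_and, hp.ea, hp.eb, Bool.or_eq_true]
    exact Or.inr (tw.dif' (by rw [L.m]; exact k1) (by rw [L.m]; exact k2) (kn _ k3 k1) (kn _ k4 k2)
      (opn p hp.mem ho hr))
  -- the rows
  have rowA : ∀ {a : EA} {p : ℕ × ℕ}, a ∈ E.ars → EvArE X P hb a p → P'.op c0 p.1 = true →
      Vi S' c' (f p.1) → ∀ y ∈ E.ys, E.fl W i y = true → (∃ s < E.g, y.f'.testBit s = true ∧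
        E.m2 M i (X.ce' p.1) s = true) →
      ∃ s < E.z, y.f.testBit s = true ∧ (E.m1 M i (X.ce p.1) s = true ∨ E.m1 M i E.z s = true) := by
    intro a p ha hp ho hw y hy hf hs
    have hz : X.ce' p.1 < E.z := by
      obtain ⟨v0, v1, v2, v3, v4⟩ := w.ars a ha
      rw [← hp.ec']
      exact v2
    have hq := hQ p.1 (C.arlt hp.mem).1 hz hw
    rw [← hp.ec'] at hs hq
    obtain ⟨s, s1, s2, s3⟩ := T.ra a ha hq (amd hp ho) y hy hf hs
    rw [hp.ec] at s3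
    exact ⟨s, tb_of_lt (w.ys y hy).1 s2, s2, s3⟩
  have rowZ : ∀ y ∈ E.ys, E.fl W i y = true → (∃ s < E.g, y.f'.testBit s = true ∧
        E.m2 M i E.z s = true) → ∃ s < E.z, y.f.testBit s = true ∧ E.m1 M i E.z s = true := by
    intro y hy hf hs
    obtain ⟨s, s1, s2, s3⟩ := T.rz y hy hf hs
    exact ⟨s, tb_of_lt (w.ys y hy).1 s2, s2, s3⟩
  let ex : List ℕ := (X.lr.filter fun q => q.2.1 && !P.op c0 q.1).map fun q => 2 ^ X.ce q.1
  have core := leaf_coreV C hag hbr (E := fun s t => s = t ∨ (s < E.z ∧ t < E.z ∧ E.m2 M i s t = true))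
    (V' := fun s => s < E.z ∧ E.m2 M i E.z s = true) (U := fun s => s < E.z ∧ E.m1 M i E.z s = true)
    (ex := ex) (co := fun j s => X.ce j < E.z ∧ s < E.z ∧ E.m1 M i (X.ce j) s = true)
    ⟨?_, ?_, ?_, ?_, ?_, ?_, ?_, ?_, ?_, ?_, ?_, ?_, ?_, ?_, ?_, ?_, ?_⟩
  · refine ⟨ex, c, fun q hq => ?_, hag, core⟩
    intro hs
    by_cases ho : P.op c0 q.1 = true
    · exact Or.inl ho
    · refine Or.inr (Or.inl (List.mem_map.2 ⟨q, List.mem_filter.2 ⟨hq, ?_⟩, rfl⟩))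
      rw [Bool.not_eq_true] at ho
      rw [hs, ho]; rfl
  · -- evEE
    refine ⟨fun s => Or.inl rfl, ?_, ?_⟩
    · rintro s t (h | ⟨h1, h2, h3⟩)
      · exact Or.inl h.symm
      · exact Or.inr ⟨h2, h1, by rw [w.m2_sym hi (by omega) (by omega)]; exact h3⟩
    · rintro s t u (h | ⟨h1, h2, h3⟩) (k | ⟨k1, k2, k3⟩)
      · exact Or.inl (h.trans k)
      · exact Or.inr ⟨by omega, k2, by rw [h]; exact k3⟩
      · exact Or.inr ⟨h1, by omega, by rw [← k]; exact h3⟩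
      · exact Or.inr ⟨h1, k2, w.m2_tr hi h2 (by omega) (by omega) h3 k3⟩
  · -- eo
    intro j hj hne hr ho
    unfold Pa.op at ho
    rw [hr, Bool.not_true, Bool.false_or] at ho
    obtain ⟨k1, k2, k3, k4⟩ := ed' j hj hne hr (by simpa using ho)
    exact Or.inr ⟨k1, k2, k3⟩
  · -- m1
    rintro s t (h | ⟨h1, h2, h3⟩) ⟨k1, k2⟩
    · rw [← h]; exact ⟨k1, k2⟩
    · exact ⟨h2, w.m2_tr hi h1 (by omega) (by omega) k2 h3⟩
  · -- m2
    intro j hj hbj
    have hr : P'.real j = true := br_real hbj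
    have hcol : c0.testBit (P'.l j) ≠ c0.testBit (P'.l (P'.φ j)) := by
      unfold br at hbj
      rw [hr, Bool.true_and] at hbj
      simpa using hbj
    by_cases hne : P.α j = j
    · obtain ⟨hrs, r1, r2, r3, r4, r5⟩ := C.st.ring j hj hne
      obtain ⟨a, a1, a2, a3, a4, a5⟩ := C.st.rep hrs
      have hja : j = a.1 := by
        rcases a5 with h | ⟨-, h⟩
        · exact h
        · rw [← r1, hr] at h; cases h
      obtain ⟨e, e1, e2⟩ := L.of_ar a1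
      obtain ⟨v0, v1, v2, v3, v4⟩ := w.ars e e1
      have ho : P'.op c0 a.1 = true := by rw [← hja]; exact br_op hbj
      have hac := rac e1 e2 ho (by rw [← hja, ← r1]; exact hr)
      have hce : X.ce' j < E.z := by rw [hja, ← e2.ec']; exact v2
      refine ⟨hce, w.m2_mono hi (by omega) (by omega) ((w.M0_at2 hi (by omega) (by omega)).2
        (Or.inr (Or.inl ⟨e, e1, hac, Or.inr ⟨rfl, ?_⟩⟩)))⟩
      rw [hja, e2.ec']
    · obtain ⟨k1, k2, k3, k4⟩ := ed' j hj hne hr hcol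
      exact ⟨k1, k4⟩
  · -- m3
    rintro ⟨j, hj, hj1, hj2⟩
    have h1 : (∃ e ∈ E.es, (E.cPv W i e.a != E.cPv W i e.b) = true) ∨
        (∃ a ∈ E.ars, E.acb W i a = true) := by
      by_contra hno
      push Not at hno
      obtain ⟨n1, n2⟩ := hno
      have key := w.m1_sub hi (T := fun r s => (r = E.z ↔ s = E.z))
        (fun k hk r _ s _ h h' => h.trans h') (fun r hr s hs h0 => ?_) (by omega) (by omega) hj2
      · have := key.1 rfl
        omega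
      · rw [w.M0_at1 hi (by omega) (by omega)] at h0
        rcases h0 with ⟨e, g1, g2, g3⟩ | ⟨a, g1, g2, g3⟩ | ⟨a, b, g1, g2, g3⟩ | ⟨g1, g2⟩
        · exact absurd g2 (n1 e g1)
        · exact absurd g2 (n2 a g1)
        · obtain ⟨ha, hb'⟩ := pair_mem g1
          obtain ⟨-, w1, -⟩ := w.ars a ha
          obtain ⟨-, v1, -⟩ := w.ars b hb'
          rcases g3 with ⟨g4, g5⟩ | ⟨g4, g5⟩
          · constructor <;> intro g6 <;> omega
          · constructor <;> intro g6 <;> omega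
        · rw [g1]
    rcases T.an h1 with ⟨e, g1, g2⟩ | ⟨a, g1, g2⟩
    · obtain ⟨w1, w2, w3, w4⟩ := w.es' e g1
      have g3 := tw.dif w3 w4 g2
      rw [L.es'] at g1
      obtain ⟨k, hk, rfl⟩ := List.mem_map.1 g1
      obtain ⟨k1, k2⟩ := C.st.es' k hk
      have hr := L.er' k hk
      have hb1 : br P' c0 k = true := by
        unfold br
        rw [hr, Bool.true_and]
        have g4 : c0.testBit (P'.l k) ≠ c0.testBit (P'.l (P'.φ k)) := g3
        simpa using g4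
      obtain ⟨k3, k4, k5, k6⟩ := ed' k k1 k2 hr g3
      exact ⟨k, k1, ⟨k3, k6⟩, ((C.br' k1).2 hb1).vi⟩
    · obtain ⟨p, hp⟩ := L.arc g1
      obtain ⟨v0, v1, v2, v3, v4⟩ := w.ars a g1
      have g3 := ev_acb_true C L hsp tw g1 g2
      rw [hp.d] at g3
      have v2' : X.ce' p.1 < E.z := by rw [← hp.ec']; exact v2
      refine ⟨p.1, (C.arlt hp.mem).1, ⟨v2', w.m2_mono hi (by omega) (by omega)
        ((w.M0_at2 hi (by omega) (by omega)).2 (Or.inr (Or.inl ⟨a, g1, g2, Or.inr ⟨rfl, ?_⟩⟩)))⟩,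
        C.actR_vi' g3⟩
      exact hp.ec'.symm
  · -- t1
    rintro j hj oj ⟨hv1, hv2⟩
    obtain ⟨p, hp, a, ha, hpa, rfl⟩ := arcI j hj
    obtain ⟨y, y1, y2, y3, y4⟩ := fl2 p hp oj
    obtain ⟨s, s1, s2, s3⟩ := rowZ y y1 y2 ⟨X.ce' p.1, by omega, by rw [y4]; exact bit1.2 rfl, hv2⟩
    rw [y3] at s2
    have := bit1.1 s2
    rw [this]
    exact ⟨s1, s3⟩
  · -- t1'
    rintro j hj ⟨hv1, hv2⟩ l1 l2
    obtain ⟨y, y1, y2, y3, y4⟩ := L.y1 (P'.l j - X.x) (by omega)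
    have e5 : X.x + (P'.l j - X.x) = P'.l j := by omega
    rw [e5] at y3 y4
    obtain ⟨s, s1, s2, s3⟩ := rowZ y y1 (ev_fl0 y2)
      ⟨X.ce' j, by omega, by rw [y4]; exact C.st.st' j hj, hv2⟩
    rw [y3] at s2
    exact ⟨s, ⟨s1, s3⟩, s2⟩
  · -- t2
    rintro j hj oj hv wv k hk ok hE
    obtain ⟨p, hp, a, ha, hpa, rfl⟩ := arcI j hj
    obtain ⟨q, hq, b, hb', hqb, rfl⟩ := arcI k hk
    obtain ⟨v0, v1, v2, v3, v4⟩ := w.ars a ha
    rw [hpa.ec] at v1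
    rw [hpa.ec'] at v2
    obtain ⟨y, y1, y2, y3, y4⟩ := fl2 q hq ok
    have hm2 : X.ce' q.1 < E.z ∧ E.m2 M i (X.ce' p.1) (X.ce' q.1) = true := by
      rcases hE with hE | ⟨h1, h2, h3⟩
      · rw [hE]; exact ⟨v2, idz _ (by omega)⟩
      · exact ⟨h1, by rw [w.m2_sym hi (by omega) (by omega)]; exact h3⟩
    obtain ⟨s, s1, s2, s3⟩ := rowA ha hpa oj wv y y1 y2
      ⟨X.ce' q.1, by omega, by rw [y4]; exact bit1.2 rfl, hm2.2⟩
    rw [y3] at s2
    have := bit1.1 s2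
    rw [this]
    rcases s3 with s3 | s3
    · exact Or.inr ⟨v1, s1, s3⟩
    · exact Or.inl ⟨s1, s3⟩
  · -- t2'
    rintro j hj oj hv wv k hk hE l1 l2
    obtain ⟨p, hp, a, ha, hpa, rfl⟩ := arcI j hj
    obtain ⟨v0, v1, v2, v3, v4⟩ := w.ars a ha
    rw [hpa.ec] at v1
    rw [hpa.ec'] at v2
    obtain ⟨y, y1, y2, y3, y4⟩ := L.y1 (P'.l k - X.x) (by omega)
    have e5 : X.x + (P'.l k - X.x) = P'.l k := by omega
    rw [e5] at y3 y4
    have hm2 : X.ce' k < E.z ∧ E.m2 M i (X.ce' p.1) (X.ce' k) = true := by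
      rcases hE with hE | ⟨h1, h2, h3⟩
      · rw [hE]; exact ⟨v2, idz _ (by omega)⟩
      · exact ⟨h1, by rw [w.m2_sym hi (by omega) (by omega)]; exact h3⟩
    obtain ⟨s, s1, s2, s3⟩ := rowA ha hpa oj wv y y1 (ev_fl0 y2)
      ⟨X.ce' k, by omega, by rw [y4]; exact C.st.st' k hk, hm2.2⟩
    rw [y3] at s2
    refine ⟨s, ?_, s2⟩
    rcases s3 with s3 | s3
    · exact Or.inr ⟨v1, s1, s3⟩
    · exact Or.inl ⟨s1, s3⟩
  · -- c1
    rintro j hj k hk ⟨h1, h2, h3⟩ τ ht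
    have h4 := (tt (by omega) (by omega) h3).tq h1 h2
    exact Tq_get C (C.st.rs j (C.st.asm hj)).1 hk h4 ht
  · -- u1
    rintro k hk ⟨h1, h2⟩
    obtain ⟨j, j1, j2, j3⟩ := (tt (by omega) (by omega) h2).vc h1
    exact j3.eq fun τ ht => C.cellP ht j1 hk j2
  · -- u2
    intro τ ht
    by_cases hno : ∃ s0 < E.z, E.m1 M i E.z s0 = true
    · obtain ⟨s0, h1, h2⟩ := hno
      refine ⟨cv P X f τ s0, ?_⟩
      rintro k hk ⟨h3, h4⟩
      have h5 := T.uc s0 h1 _ h3 (by rw [w.m1_sym hi (by omega) (by omega)]; exact h2) h4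
      have h6 := (tt (by omega) (by omega) h5).tq h1 h3
      rw [h6.2 τ ht, cv_eq C ht hk]
    · exact ⟨0, fun k hk hu => absurd ⟨_, hu.1, hu.2⟩ hno⟩
  · -- u3
    intro j hj hbj
    have hr := br_real hbj
    have hcol : m.testBit (P.l j) ≠ m.testBit (P.l (P.φ j)) := by
      unfold br at hbj
      rw [hr, Bool.true_and] at hbj
      simpa using hbj
    by_cases hne : P.α j = j
    · obtain ⟨hrs, r1, r2, r3, r4, r5⟩ := C.st.ring j hj hne
      obtain ⟨a, a1, a2, a3, a4, a5⟩ := C.st.rep hrs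
      have hja : j = a.1 := by
        rcases a5 with h | ⟨-, h⟩
        · exact h
        · rw [hr] at h; cases h
      obtain ⟨e, e1, e2⟩ := L.of_ar a1
      obtain ⟨v0, v1, v2, v3, v4⟩ := w.ars e e1
      have ho : P'.op c0 a.1 = true := by
        rw [← hja]
        have : br P' c0 j = true := (C.br' hj).1 ((C.brO hag (C.pe.ringOR hj hne)).1 ((hbr j hj).2 hbj))
        exact br_op this
      have hac := rac e1 e2 ho (by rw [← hja]; exact hr)
      have hce : X.ce j < E.z := by rw [hja, ← e2.ec]; exact v1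
      refine ⟨hce, w.m1_mono hi (by omega) (by omega) ((w.M0_at1 hi (by omega) (by omega)).2
        (Or.inr (Or.inl ⟨e, e1, hac, Or.inr ⟨rfl, ?_⟩⟩)))⟩
      rw [hja, e2.ec]
    · rcases C.st.inn j hj hne hr with h1 | h1
      · have he : evEE P X.ce j ∈ E.es := by rw [L.es]; exact List.mem_map_of_mem h1
        obtain ⟨w1, w2, w3, w4⟩ := w.es _ he
        have hd : (E.cPv W i (P.l j) != E.cPv W i (P.l (P.φ j))) = true := by
          have c1 : E.cPv W i (P.l j) = m.testBit (P.l j) := hcp _ w3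
          have c2 : E.cPv W i (P.l (P.φ j)) = m.testBit (P.l (P.φ j)) := hcp _ w4
          rw [c1, c2]
          simpa using hcol
        have w1' : X.ce j < E.z := w1
        exact ⟨w1, w.m1_mono hi (by omega) (by omega) ((w.M0_at1 hi (by omega) (by omega)).2
          (Or.inl ⟨_, he, hd, Or.inr (Or.inl (Or.inr ⟨rfl, rfl⟩))⟩))⟩
      · have he : evEE P X.ce (P.α j) ∈ E.es := by rw [L.es]; exact List.mem_map_of_mem h1
        obtain ⟨w1, w2, w3, w4⟩ := w.es _ he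
        have k1 := C.h.G.αlt j hj
        have hαα : P.α (P.α j) = j := C.h.G.αα j hj
        have e1 := C.h.G.lφ j hj hne
        have e2 := C.h.G.lφ (P.α j) k1 (by rw [hαα]; exact fun h => hne h.symm)
        rw [hαα] at e2
        have hd : (E.cPv W i (P.l (P.α j)) != E.cPv W i (P.l (P.φ (P.α j)))) = true := by
          have c1 : E.cPv W i (P.l (P.α j)) = m.testBit (P.l (P.α j)) := hcp _ w3
          have c2 : E.cPv W i (P.l (P.φ (P.α j))) = m.testBit (P.l (P.φ (P.α j))) := hcp _ w4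
          rw [c1, c2, e2, ← e1]
          simpa using hcol.symm
        have w2' : X.ce j < E.z := by
          have : X.ce (P.α (P.α j)) < E.z := w2
          rwa [hαα] at this
        refine ⟨w2', w.m1_mono hi (by omega) (by omega) ((w.M0_at1 hi (by omega) (by omega)).2
          (Or.inl ⟨_, he, hd, Or.inr (Or.inr (Or.inr ⟨rfl, ?_⟩))⟩))⟩
        show X.ce j = X.ce (P.α (P.α j))
        rw [hαα]
  · -- d
    intro z hz
    have fin : ∀ s < E.z, E.m1 M i E.z s = true → ∃ j < P.n, X.ce j = s := by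
      intro s h1 h2
      obtain ⟨j, j1, j2, j3⟩ := (tt (by omega) (by omega) h2).vc h1
      exact ⟨j, j1, j2⟩
    rcases List.mem_append.1 hz with hz | hz
    · obtain ⟨y, y1, y2, y3, y4⟩ := L.y4 z hz
      obtain ⟨s, s1, s2, s3⟩ := rowZ y y1 (ev_fl0 y2)
        ⟨E.z, by omega, by rw [y4]; exact bit1.2 rfl, idz _ (by omega)⟩
      obtain ⟨j, j1, rfl⟩ := fin s s1 s3
      exact ⟨j, j1, by rw [← y3]; exact s2, s1, s3⟩
    · obtain ⟨q, hq, rfl⟩ := List.mem_map.1 hz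
      rw [List.mem_filter, Bool.and_eq_true] at hq
      obtain ⟨q1, q2, q3⟩ := hq
      obtain ⟨y, y1, y2, y3, y4, y5, y6⟩ := L.y5 q q1 q2
      obtain ⟨l1, l2, l3, l4⟩ := hlr q q1
      have hfl : E.fl W i y = true := by
        unfold EV.fl
        rw [y2]
        show (!E.dif W i y.a y.b) = true
        rw [Bool.not_eq_true', ← Bool.not_eq_true]
        intro hcon
        rw [y3, y4] at hcon
        have := tw.dif (by rw [L.m]; exact l3) (by rw [L.m]; exact l4) hcon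
        unfold Pa.op at q3
        rw [l2] at q3
        simp at q3
        exact this q3
      obtain ⟨s, s1, s2, s3⟩ := rowZ y y1 hfl
        ⟨E.z, by omega, by rw [y6]; exact bit1.2 rfl, idz _ (by omega)⟩
      obtain ⟨j, j1, rfl⟩ := fin s s1 s3
      exact ⟨j, j1, by rw [← y5]; exact s2, s1, s3⟩
  · -- kn
    intro j hj
    exact (L.y3 j hj).1
  · -- k1
    rintro j hj ⟨hv1, hv2⟩
    obtain ⟨-, y, y1, y2, y3, y4⟩ := L.y3 j hj
    obtain ⟨s, s1, s2, s3⟩ := rowZ y y1 (ev_fl0 y2)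
      ⟨X.ce' j, by omega, by rw [y4]; exact bit1.2 rfl, hv2⟩
    rw [y3] at s2
    have := bit1.1 s2
    rw [this]
    exact ⟨s1, s3⟩
  · -- k2
    rintro j hj oj hv wv k hk hE
    obtain ⟨p, hp, a, ha, hpa, rfl⟩ := arcI j hj
    obtain ⟨v0, v1, v2, v3, v4⟩ := w.ars a ha
    rw [hpa.ec] at v1
    rw [hpa.ec'] at v2
    obtain ⟨-, y, y1, y2, y3, y4⟩ := L.y3 k hk
    have hm2 : X.ce' k < E.z ∧ E.m2 M i (X.ce' p.1) (X.ce' k) = true := by
      rcases hE with hE | ⟨h1, h2, h3⟩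
      · rw [hE]; exact ⟨v2, idz _ (by omega)⟩
      · exact ⟨h1, by rw [w.m2_sym hi (by omega) (by omega)]; exact h3⟩
    obtain ⟨s, s1, s2, s3⟩ := rowA ha hpa oj wv y y1 (ev_fl0 y2)
      ⟨X.ce' k, by omega, by rw [y4]; exact bit1.2 rfl, hm2.2⟩
    rw [y3] at s2
    have := bit1.1 s2
    rw [this]
    rcases s3 with s3 | s3
    · exact Or.inr ⟨v1, s1, s3⟩
    · exact Or.inl ⟨s1, s3⟩

theorem ev_T_sound (hgx : ∀ a < X.x, ∀ b < X.x, g a = g b → a = b)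
    (hlr : ∀ q ∈ X.lr, q.1 < P.n ∧ P.real q.1 = true ∧ P.l q.1 < X.x + X.k ∧
      P.l (P.φ q.1) < X.x + X.k)
    (h : ∀ p < E.L, (E.badT (Ks E.L n) W).testBit (E.L * i + p) = false) :
    EvSm S S' P P' f g X c' c0 :=
  ev_TL_sound C L hsp hi tw hgx hlr (L.w.tl hi h) fun _ _ _ _ => trivial

end

end Pool.FC7
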