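import Pool.Agent.FC7.EvG

/-! # Vector checks: the bits of the contradictions -/

set_option linter.unusedSectionVars false

namespace Pool.FC7

open Ev

namespace Ev

theorem fo_cond {α : Type} (s : α → Bool) (g : α → ℕ) (b p : ℕ) : ∀ l : List α,
    ((fo l (fun a acc => Bool.rec (motive := fun _ => ℕ) acc (Nat.lor acc (g a)) (s a)) b).testBit p = true ↔
      b.testBit p = true ∨ ∃ a ∈ l, s a = true ∧ (g a).testBit p = true)
  | [] => by
    show b.testBit p = true ↔ _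
    simp
  | a :: l => by
    have ih := fo_cond s g b p l
    show (Bool.rec (motive := fun _ => ℕ)
      (fo l (fun a acc => Bool.rec (motive := fun _ => ℕ) acc (Nat.lor acc (g a)) (s a)) b)
      (Nat.lor (fo l (fun a acc => Bool.rec (motive := fun _ => ℕ) acc (Nat.lor acc (g a)) (s a)) b) (g a))
      (s a)).testBit p = true ↔ _
    simp only [List.mem_cons, exists_eq_or_imp]
    cases h : s a
    · refine ih.trans ?_
      simp
    · show (Nat.lor _ (g a)).testBit p = true ↔ _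
      rw [tb_lor, Bool.or_eq_true, ih]
      simp only [true_and]
      rw [or_assoc]
      exact or_congr_right or_comm

theorem fo_nT {α : Type} (s : α → Bool) (g : α → ℕ) (b p : ℕ) : ∀ l : List α,
    ((fo l (fun a acc => Bool.rec (motive := fun _ => ℕ) acc (nT acc (g a)) (s a)) b).testBit p = true ↔
      b.testBit p = true ∧ ∀ a ∈ l, s a = true → (g a).testBit p = false)
  | [] => by
    show b.testBit p = true ↔ _
    simp
  | a :: l => by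
    have ih := fo_nT s g b p l
    show (Bool.rec (motive := fun _ => ℕ)
      (fo l (fun a acc => Bool.rec (motive := fun _ => ℕ) acc (nT acc (g a)) (s a)) b)
      (nT (fo l (fun a acc => Bool.rec (motive := fun _ => ℕ) acc (nT acc (g a)) (s a)) b) (g a))
      (s a)).testBit p = true ↔ _
    simp only [List.mem_cons, forall_eq_or_imp]
    cases h : s a
    · refine ih.trans ?_
      simp
    · show (nT _ (g a)).testBit p = true ↔ _
      rw [tb_nT, Bool.and_eq_true, ih]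
      simp only [true_imp_iff, Bool.not_eq_true']
      rw [and_assoc]
      exact and_congr_right fun _ => and_comm

theorem rec_lor (g : ℕ → ℕ) (b p : ℕ) : ∀ k, ((Nat.rec (motive := fun _ => ℕ) b
    (fun i ih => Nat.lor ih (g i)) k).testBit p = true ↔ b.testBit p = true ∨
      ∃ j < k, (g j).testBit p = true)
  | 0 => by simp
  | k + 1 => by
    show (Nat.lor _ (g k)).testBit p = true ↔ _
    rw [tb_lor, Bool.or_eq_true, rec_lor g b p k]
    constructor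
    · rintro ((h | ⟨j, h1, h2⟩) | h)
      · exact Or.inl h
      · exact Or.inr ⟨j, by omega, h2⟩
      · exact Or.inr ⟨k, by omega, h⟩
    · rintro (h | ⟨j, h1, h2⟩)
      · exact Or.inl (Or.inl h)
      · rcases Nat.lt_succ_iff_lt_or_eq.1 h1 with h | rfl
        · exact Or.inl (Or.inr ⟨j, h, h2⟩)
        · exact Or.inr h2

/-- every row is the row of an element -/
theorem GG_row {α : Type} {q : ℕ} {φ : α → ℕ} : ∀ {l : List α}, (∀ y ∈ l, φ y < 2 ^ q) →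
    ∀ u < l.length, ∃ y ∈ l, ∀ c < q, (GG q φ l).testBit (q * u + c) = (φ y).testBit c
  | [], _, u, hu => by simp at hu
  | y :: l, h, 0, _ => ⟨y, by simp, fun _ hc => GG_zero hc⟩
  | y :: l, h, u + 1, hu => by
    obtain ⟨z, z1, z2⟩ := GG_row (l := l) (fun y hy => h y (List.mem_cons_of_mem _ hy)) u
      (by simpa using hu)
    exact ⟨z, List.mem_cons_of_mem _ z1, fun c hc => by
      rw [GG_succ hc (h y (by simp)), z2 c hc]⟩

end Ev

namespace EV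

variable {E : EV} {n i : ℕ} {W : ℕ}

theorem Wf.C1_lt (w : E.Wf) : cl E.q E.q < 2 ^ E.L := by
  have hs := w.s2
  have hq := w.qp
  rw [cl_eq hq]
  exact Ks_lt hq (by rw [L_eq]; exact Nat.mul_le_mul_left _ (by omega))

theorem Wf.C1_at (w : E.Wf) (hi : i < n) {r : ℕ} (hr : r < E.q) :
    (E.C1 (Ks E.L n)).testBit (E.L * i + E.q * r) = true := by
  have hs := w.s2
  have hq := w.qp
  unfold C1
  have h1 := w.row_lt (r := r) (c := 0) (by omega) hq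
  rw [mul_at (Ks_spr w.Lp) w.C1_lt (by omega), w.O_at hi, cl_eq hq, Ks_row hq, Bool.true_and]
  exact decide_eq_true hr

theorem Wf.C1_spr (w : E.Wf) : Spr E.q (E.C1 (Ks E.L n)) := by
  have h := w.C1_lt
  unfold C1
  rw [cl_eq w.qp] at h ⊢
  exact spr_mul w.Lp (Ks_spr w.Lp) h (Ks_spr w.qp)

theorem Wf.R1_rw (w : E.Wf) : ∀ u c, c < E.q → (E.R1 (Ks E.L n)).testBit (E.q * u + c) = true →
    Rw E.q E.s u := fun u c hc h => by
  obtain ⟨j, hj⟩ := w.R0_rows u c hc h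
  exact ⟨j, Or.inl hj⟩

theorem Wf.pr_at (w : E.Wf) (hi : i < n) {X Y k r c : ℕ} (hr : r < E.q) (hc : c < E.q) :
    (Nat.land (E.Sc (E.C1 (Ks E.L n)) X k) (E.Rr (E.R1 (Ks E.L n)) Y k)).testBit
      (E.L * i + (E.q * r + c)) = (E.m1 X i r k && decide (c < E.g) && E.m1 Y i k c) := by
  have h1 := w.Rr_at (R := E.R1 (Ks E.L n)) (M := Y) (k := k) (i := i) (b := 0) (r := r) (c := c)
    w.R1_rw (Or.inl rfl) hr hc
  rw [Nat.zero_add, Nat.zero_add] at h1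
  have h2 : (E.R1 (Ks E.L n)).testBit (E.L * i + (E.q * 0 + c)) = true := by
    rw [Nat.mul_zero, Nat.zero_add]
    exact w.R0_at hi hc
  have h3 : (E.C1 (Ks E.L n)).testBit (E.q * (E.s * i + r)) = true := by
    rw [← w.C1_at hi hr]
    congr 1
    rw [L_eq]
    ring
  rw [tb_land, h1, h2, Bool.true_and]
  congr 1
  rw [pos_eq, Sc_at w.C1_spr w.qp hc, h3, Bool.true_and, ← pos_eq]
  rfl

theorem Wf.prd_at (w : E.Wf) (hi : i < n) {X Y m r c : ℕ} (hr : r < E.q) (hc : c < E.q) :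
    (E.prd (Ks E.L n) X Y m).testBit (E.L * i + (E.q * r + c)) = true ↔
      ∃ k < m, E.m1 X i r k = true ∧ c < E.g ∧ E.m1 Y i k c = true := by
  unfold prd
  rw [rec_lor (fun k => Nat.land (E.Sc (E.C1 (Ks E.L n)) X k) (E.Rr (E.R1 (Ks E.L n)) Y k)),
    Nat.zero_testBit]
  simp only [Bool.false_eq_true, false_or]
  constructor
  · rintro ⟨k, h1, h2⟩
    rw [w.pr_at hi hr hc, Bool.and_eq_true, Bool.and_eq_true, decide_eq_true_eq] at h2
    exact ⟨k, h1, h2.1.1, h2.1.2, h2.2⟩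
  · rintro ⟨k, h1, h2, h3, h4⟩
    refine ⟨k, h1, ?_⟩
    rw [w.pr_at hi hr hc, Bool.and_eq_true, Bool.and_eq_true, decide_eq_true_eq]
    exact ⟨⟨h2, h3⟩, h4⟩

/-- closures in the first block -/
theorem Wf.clo1 (w : E.Wf) (hi : i < n) {M : ℕ} : ∀ k < E.z, ∀ r < E.g, ∀ c < E.g,
    E.m1 (E.clo (E.C1 (Ks E.L n)) (E.R1 (Ks E.L n)) M (k + 1)) i r c =
      (E.m1 (E.clo (E.C1 (Ks E.L n)) (E.R1 (Ks E.L n)) M k) i r c ||
      (E.m1 (E.clo (E.C1 (Ks E.L n)) (E.R1 (Ks E.L n)) M k) i r k &&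
        E.m1 (E.clo (E.C1 (Ks E.L n)) (E.R1 (Ks E.L n)) M k) i k c)) := by
  obtain ⟨hz1, hz2, hz3⟩ := w.zg
  intro k hk r hr c hc
  have e : E.clo (E.C1 (Ks E.L n)) (E.R1 (Ks E.L n)) M (k + 1) =
    Nat.lor (E.clo (E.C1 (Ks E.L n)) (E.R1 (Ks E.L n)) M k)
      (Nat.land (E.Sc (E.C1 (Ks E.L n)) (E.clo (E.C1 (Ks E.L n)) (E.R1 (Ks E.L n)) M k) k)
        (E.Rr (E.R1 (Ks E.L n)) (E.clo (E.C1 (Ks E.L n)) (E.R1 (Ks E.L n)) M k) k)) := rfl
  have h := w.pr_at hi (X := E.clo (E.C1 (Ks E.L n)) (E.R1 (Ks E.L n)) M k)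
    (Y := E.clo (E.C1 (Ks E.L n)) (E.R1 (Ks E.L n)) M k) (k := k) (r := r) (c := c)
    (by omega) (by omega)
  rw [e]
  unfold m1 at h ⊢
  rw [tb_lor, h, decide_eq_true hc, Bool.and_true]

theorem Wf.clo_sub (w : E.Wf) (hi : i < n) {M m : ℕ} (hm : m ≤ E.z) {T : ℕ → ℕ → Prop}
    (hT : ∀ k < m, ∀ r < E.g, ∀ c < E.g, T r k → T k c → T r c)
    (h0 : ∀ r < E.g, ∀ c < E.g, E.m1 M i r c = true → T r c) {r c : ℕ} (hr : r < E.g) (hc : c < E.g)
    (h : E.m1 (E.clo (E.C1 (Ks E.L n)) (E.R1 (Ks E.L n)) M m) i r c = true) : T r c := by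
  obtain ⟨hz1, hz2, hz3⟩ := w.zg
  exact wsh_sub (F := fun k r c => E.m1 (E.clo (E.C1 (Ks E.L n)) (E.R1 (Ks E.L n)) M k) i r c)
    (n := m) (g := E.g) (by omega) (fun k hk => w.clo1 hi k (by omega)) hT h0 m le_rfl r hr c hc h

theorem Wf.clo_mono (w : E.Wf) (hi : i < n) {M m : ℕ} (hm : m ≤ E.z) {r c : ℕ} (hr : r < E.g)
    (hc : c < E.g) (h : E.m1 M i r c = true) :
    E.m1 (E.clo (E.C1 (Ks E.L n)) (E.R1 (Ks E.L n)) M m) i r c = true :=
  wsh_mono (F := fun k r c => E.m1 (E.clo (E.C1 (Ks E.L n)) (E.R1 (Ks E.L n)) M k) i r c)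
    (n := m) (g := E.g) (fun k hk => w.clo1 hi k (by omega)) m le_rfl r hr c hc h

theorem Wf.clo_tr (w : E.Wf) (hi : i < n) {M m : ℕ} (hm : m ≤ E.z) {k r c : ℕ} (hk : k < m)
    (hr : r < E.g) (hc : c < E.g)
    (h1 : E.m1 (E.clo (E.C1 (Ks E.L n)) (E.R1 (Ks E.L n)) M m) i r k = true)
    (h2 : E.m1 (E.clo (E.C1 (Ks E.L n)) (E.R1 (Ks E.L n)) M m) i k c = true) :
    E.m1 (E.clo (E.C1 (Ks E.L n)) (E.R1 (Ks E.L n)) M m) i r c = true := by
  obtain ⟨hz1, hz2, hz3⟩ := w.zg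
  exact wsh (F := fun k r c => E.m1 (E.clo (E.C1 (Ks E.L n)) (E.R1 (Ks E.L n)) M k) i r c)
    (n := m) (g := E.g) (by omega) (fun k hk => w.clo1 hi k (by omega)) m le_rfl k hk r hr c hc h1 h2

theorem Wf.clo_sym (w : E.Wf) (hi : i < n) {M m : ℕ} (hm : m ≤ E.z)
    (h0 : ∀ r < E.g, ∀ c < E.g, E.m1 M i r c = E.m1 M i c r) {r c : ℕ} (hr : r < E.g) (hc : c < E.g) :
    E.m1 (E.clo (E.C1 (Ks E.L n)) (E.R1 (Ks E.L n)) M m) i r c =
      E.m1 (E.clo (E.C1 (Ks E.L n)) (E.R1 (Ks E.L n)) M m) i c r := by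
  obtain ⟨hz1, hz2, hz3⟩ := w.zg
  exact wsh_sym (F := fun k r c => E.m1 (E.clo (E.C1 (Ks E.L n)) (E.R1 (Ks E.L n)) M k) i r c)
    (n := m) (g := E.g) (by omega) (fun k hk => w.clo1 hi k (by omega)) h0 m le_rfl r hr c hc

/-- masks of blocks -/
theorem Wf.msk_at (w : E.Wf) (hi : i < n) {a b r c : ℕ} (ha : a ≤ E.s) (hb : b ≤ E.q) (hr : r < E.s)
    (hc : c < E.q) : (Nat.mul (Ks E.L n) (E.blkm a b)).testBit (E.L * i + (E.q * r + c)) =
      (decide (r < a) && decide (c < b)) := by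
  unfold blkm
  rw [mul_at (Ks_spr w.Lp) (w.blk_lt ha hb) (w.row_lt hr hc), w.O_at hi, w.blk_at hb hc,
    Bool.true_and]

theorem Wf.Bk_lt (w : E.Wf) : mo (Nat.mul E.q E.q) < 2 ^ E.L := by
  refine mo_le ?_
  rw [L_eq]
  exact Nat.mul_le_mul_left _ (by have := w.s2; omega)

theorem Wf.Bk_at (w : E.Wf) (hi : i < n) {r c : ℕ} (hr : r < E.q) (hc : c < E.q) :
    (E.Bk (Ks E.L n)).testBit (E.L * i + (E.q * r + c)) = true := by
  unfold Bk
  rw [mul_at (Ks_spr w.Lp) w.Bk_lt (w.rowlt1 hr hc), w.O_at hi, tb_mo, Bool.true_and]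
  refine decide_eq_true ?_
  show E.q * r + c < E.q * E.q
  have : E.q * (r + 1) ≤ E.q * E.q := Nat.mul_le_mul_left _ hr
  rw [Nat.mul_add] at this
  omega

theorem Wf.id1_at (w : E.Wf) {m r c : ℕ} (hm : m ≤ E.q) (hc : c < E.q) :
    (E.id1 m).testBit (E.q * r + c) = true ↔ r = c ∧ r < m := by
  unfold id1
  rw [rec_lor (fun i => E.bt i i), Nat.zero_testBit]
  simp only [Bool.false_eq_true, false_or]
  constructor
  · rintro ⟨j, h1, h2⟩
    rw [bt_at hc (by omega)] at h2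
    omega
  · rintro ⟨rfl, h⟩
    exact ⟨r, h, (bt_at hc (by omega)).2 ⟨rfl, rfl⟩⟩

theorem Wf.id1_lt (w : E.Wf) {m : ℕ} (hm : m ≤ E.q) : E.id1 m < 2 ^ E.L := by
  apply lt_of_tb
  intro p hp
  have hs := w.s2
  have hq := w.qp
  have hc : p % E.q < E.q := Nat.mod_lt _ hq
  have e : p = E.q * (p / E.q) + p % E.q := (Nat.div_add_mod _ _).symm
  rw [e] at hp ⊢
  have := (w.id1_at hm hc).1 hp
  exact w.row_lt (by omega) hc

/-- the certain relation before the closure -/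
theorem Wf.CM0_at (w : E.Wf) (hi : i < n) {r c : ℕ} (hr : r < E.q) (hc : c < E.q) :
    E.m1 (E.CM0 (Ks E.L n) W) i r c = true ↔ (E.p1 W i r c = true ∨ (r = c ∧ r < E.A)) ∨
      ∃ a ∈ E.ars, a.s = true ∧ E.dif W i a.a a.b = true ∧ S2 a.t E.z r c := by
  obtain ⟨hz1, hz2, hz3⟩ := w.zg
  have hA := w.hA
  unfold m1 CM0
  refine (fo_cond (fun a : EA => a.s) (fun a => Nat.mul (E.cd (Ks E.L n) W a.a a.b) (E.sy a.t E.z))
    _ _ _).trans ?_
  rw [tb_lor, Bool.or_eq_true, tb_land, w.Bk_at hi hr hc, Bool.and_true,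
    mul_at (Ks_spr w.Lp) (w.id1_lt (by omega)) (w.rowlt1 hr hc), w.O_at hi, Bool.true_and,
    w.id1_at (by omega) hc]
  refine or_congr Iff.rfl ?_
  constructor
  · rintro ⟨a, h1, h2, h3⟩
    obtain ⟨v0, v1, v2, v3, v4⟩ := w.ars a h1
    rw [mul_at w.cd_spr (w.sy_lt (by omega) (by omega)) (w.rowlt1 hr hc), w.cd_at hi,
      Bool.and_eq_true, sy_at hc (by omega) (by omega)] at h3
    exact ⟨a, h1, h2, h3.1, h3.2⟩
  · rintro ⟨a, h1, h2, h3, h4⟩
    obtain ⟨v0, v1, v2, v3, v4⟩ := w.ars a h1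
    refine ⟨a, h1, h2, ?_⟩
    rw [mul_at w.cd_spr (w.sy_lt (by omega) (by omega)) (w.rowlt1 hr hc), w.cd_at hi,
      Bool.and_eq_true, sy_at hc (by omega) (by omega)]
    exact ⟨h3, h4⟩

theorem Wf.Nm_at (w : E.Wf) (hi : i < n) {r c : ℕ} (hr : r < E.q) (hc : c < E.q) :
    E.m1 (E.Nm (Ks E.L n) W) i r c = E.q1 W i r c := by
  unfold m1 Nm q1
  rw [tb_land, w.Bk_at hi hr hc, Bool.and_true, tb_shr]
  congr 1
  show E.q * E.q + _ = _
  ring

theorem Wf.X1_at (w : E.Wf) (hi : i < n) {r c : ℕ} (hr : r < E.q) (hc : c < E.q) :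
    E.m1 (E.X1 (Ks E.L n) W) i r c = true ↔ (r < E.A ∧ c < E.g) ∧
      ((∃ k < E.A, E.m1 (E.Tm (Ks E.L n) W) i r k = true ∧ E.q1 W i k c = true) ∨
        (E.m1 (E.Tm (Ks E.L n) W) i r E.z = true ∧ E.q1 W i E.z c = true)) := by
  obtain ⟨hz1, hz2, hz3⟩ := w.zg
  have hA := w.hA
  have hs := w.s2
  unfold X1
  unfold m1
  rw [tb_land, tb_lor, Bool.and_eq_true, Bool.or_eq_true, w.prd_at hi hr hc,
    w.msk_at hi (by omega) (by omega) (by omega) hc, Bool.and_eq_true, decide_eq_true_eq,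
    decide_eq_true_eq]
  unfold prdz
  rw [w.pr_at hi hr hc, Bool.and_eq_true, Bool.and_eq_true, decide_eq_true_eq]
  have e : ∀ k, k < E.q → E.m1 (E.Nm (Ks E.L n) W) i k c = E.q1 W i k c := fun k hk => w.Nm_at hi hk hc
  constructor
  · rintro ⟨⟨k, h1, h2, h3, h4⟩ | ⟨⟨h2, h3⟩, h4⟩, h5⟩
    · rw [e k (by omega)] at h4
      exact ⟨h5, Or.inl ⟨k, h1, h2, h4⟩⟩
    · rw [e _ (by omega)] at h4
      exact ⟨h5, Or.inr ⟨h2, h4⟩⟩
  · rintro ⟨h5, ⟨k, h1, h2, h4⟩ | ⟨h2, h4⟩⟩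
    · rw [← e k (by omega)] at h4
      exact ⟨Or.inl ⟨k, h1, h2, h5.2, h4⟩, h5⟩
    · rw [← e _ (by omega)] at h4
      exact ⟨Or.inr ⟨⟨h2, h5.2⟩, h4⟩, h5⟩

theorem Wf.NS_at (w : E.Wf) (hi : i < n) {r c : ℕ} (hr : r < E.q) (hc : c < E.q) :
    E.m1 (E.NS (Ks E.L n) W) i r c = true ↔ E.m1 (E.X1 (Ks E.L n) W) i r c = true ∨
      ((r < E.A ∧ c < E.A) ∧
      ((∃ k < E.A, E.m1 (E.X1 (Ks E.L n) W) i r k = true ∧ E.m1 (E.Tm (Ks E.L n) W) i k c = true) ∨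
        (E.m1 (E.X1 (Ks E.L n) W) i r E.z = true ∧ E.m1 (E.Tm (Ks E.L n) W) i E.z c = true))) := by
  obtain ⟨hz1, hz2, hz3⟩ := w.zg
  have hA := w.hA
  have hs := w.s2
  unfold NS
  unfold m1
  rw [tb_lor, tb_land, tb_lor, Bool.or_eq_true, Bool.and_eq_true, Bool.or_eq_true, w.prd_at hi hr hc,
    w.msk_at hi (by omega) (by omega) (by omega) hc, Bool.and_eq_true, decide_eq_true_eq,
    decide_eq_true_eq]
  unfold prdz
  rw [w.pr_at hi hr hc, Bool.and_eq_true, Bool.and_eq_true, decide_eq_true_eq]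
  refine or_congr Iff.rfl ?_
  constructor
  · rintro ⟨⟨k, h1, h2, h3, h4⟩ | ⟨⟨h2, h3⟩, h4⟩, h5⟩
    · exact ⟨h5, Or.inl ⟨k, h1, h2, h4⟩⟩
    · exact ⟨h5, Or.inr ⟨h2, h4⟩⟩
  · rintro ⟨h5, ⟨k, h1, h2, h4⟩ | ⟨h2, h4⟩⟩
    · exact ⟨Or.inl ⟨k, h1, h2, by omega, h4⟩, h5⟩
    · exact ⟨Or.inr ⟨⟨h2, by omega⟩, h4⟩, h5⟩

/-- possibly open arcs -/
theorem Wf.OPm_at (w : E.Wf) (hi : i < n) {r c : ℕ} (hr : r < E.A) (hc : c < E.A ∨ c = E.z)
    (h : ∀ a ∈ E.ars, a.r = true → (a.t = r ∨ a.t = c) → E.mdf W i a.a a.b = true) :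
    E.m1 (E.OPm (Ks E.L n) W) i r c = true := by
  obtain ⟨hz1, hz2, hz3⟩ := w.zg
  have hA := w.hA
  have hs := w.s2
  have hq := w.qp
  have hc' : c < E.q := by omega
  have hp := w.rowlt1 (r := r) (c := c) (by omega) hc'
  unfold m1 OPm
  refine (fo_nT (fun a : EA => a.r) (fun a => Nat.mul (Nat.xor (Ks E.L n) (E.md (Ks E.L n) W a.a a.b))
      (Nat.lor (Nat.shiftLeft (mo E.g) (Nat.mul E.q a.t)) (Nat.shiftLeft (cl E.q E.q) a.t)))
        _ _ _).2 ?_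
  have clz : ∀ p, (Nat.shiftLeft (cl E.q E.A) E.z).testBit p = true ↔ ∃ y < E.A, p = E.q * y + E.z := by
    intro p
    rw [tb_shl, cl_eq hq, Bool.and_eq_true, decide_eq_true_eq, Ks_bit hq]
    constructor
    · rintro ⟨h1, t, h2, h3⟩
      exact ⟨t, h2, by omega⟩
    · rintro ⟨y, h1, h2⟩
      exact ⟨by omega, y, h1, by omega⟩
  have hlt : Nat.lor (E.blkm E.A E.A) (Nat.shiftLeft (cl E.q E.A) E.z) < 2 ^ E.L := by
    refine lor_lt (w.blk_lt (by omega) (by omega)) (lt_of_tb fun p hp => ?_)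
    obtain ⟨y, h1, rfl⟩ := (clz p).1 hp
    exact w.row_lt (by omega) (by omega)
  constructor
  · rw [mul_at (Ks_spr w.Lp) hlt hp, w.O_at hi, Bool.true_and, tb_lor, Bool.or_eq_true]
    rcases hc with hc | hc
    · left
      unfold blkm
      rw [w.blk_at (by omega) hc', Bool.and_eq_true, decide_eq_true_eq, decide_eq_true_eq]
      exact ⟨hr, hc⟩
    · right
      rw [clz]
      exact ⟨r, hr, by rw [hc]⟩
  · intro a ha har
    obtain ⟨v0, v1, v2, v3, v4⟩ := w.ars a ha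
    have cla : ∀ p, (Nat.shiftLeft (cl E.q E.q) a.t).testBit p = true ↔
        ∃ y < E.q, p = E.q * y + a.t := by
      intro p
      rw [tb_shl, cl_eq hq, Bool.and_eq_true, decide_eq_true_eq, Ks_bit hq]
      constructor
      · rintro ⟨h1, t, h2, h3⟩
        exact ⟨t, h2, by omega⟩
      · rintro ⟨y, h1, h2⟩
        exact ⟨by omega, y, h1, by omega⟩
    have rowa : ∀ p, (Nat.shiftLeft (mo E.g) (Nat.mul E.q a.t)).testBit p = true ↔
        ∃ y < E.g, p = E.q * a.t + y := by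
      intro p
      rw [tb_shl, tb_mo, Bool.and_eq_true, decide_eq_true_eq, decide_eq_true_eq]
      have e : Nat.mul E.q a.t = E.q * a.t := rfl
      rw [e]
      constructor
      · rintro ⟨h1, h2⟩
        exact ⟨p - E.q * a.t, h2, by omega⟩
      · rintro ⟨y, h1, h2⟩
        exact ⟨by omega, by omega⟩
    have hlt : Nat.lor (Nat.shiftLeft (mo E.g) (Nat.mul E.q a.t)) (Nat.shiftLeft (cl E.q E.q) a.t) <
        2 ^ E.L := by
      refine lor_lt (lt_of_tb fun p hp => ?_) (lt_of_tb fun p hp => ?_)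
      · obtain ⟨y, h1, rfl⟩ := (rowa p).1 hp
        exact w.row_lt (by omega) (by omega)
      · obtain ⟨y, h1, rfl⟩ := (cla p).1 hp
        exact w.row_lt (by omega) (by omega)
    rw [mul_at (spr_xor (Ks_spr w.Lp) w.md_spr) hlt hp, tb_xor, w.O_at hi, w.md_at hi,
      ← Bool.not_eq_true, Bool.and_eq_true, tb_lor, Bool.or_eq_true]
    rintro ⟨h1, h2⟩
    have h3 : a.t = r ∨ a.t = c := by
      rcases h2 with h2 | h2
      · obtain ⟨y, h4, h5⟩ := (rowa _).1 h2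
        left
        exact ((idx_inj (by omega) (by omega)).1 h5).1.symm
      · obtain ⟨y, h4, h5⟩ := (cla _).1 h2
        right
        exact ((idx_inj (by omega) (by omega)).1 h5).2.symm
    rw [h a ha har h3] at h1
    cases h1

theorem Wf.PM_at (w : E.Wf) (hi : i < n) {r c : ℕ} (hr : r < E.A) (hc : c < E.A ∨ c = E.z)
    (h : ∀ a ∈ E.ars, a.r = true → (a.t = r ∨ a.t = c) → E.mdf W i a.a a.b = true)
    (hN : ¬ E.m1 (E.NS (Ks E.L n) W) i r c = true) : E.m1 (E.PM (Ks E.L n) W) i r c = true := by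
  have h1 := w.OPm_at hi hr hc h
  unfold m1 PM at *
  rw [tb_nT, h1, Bool.not_eq_true] at *
  rw [hN]; rfl

theorem Wf.sd_at (w : E.Wf) (hi : i < n) :
    (E.sd (Ks E.L n) W).testBit (E.L * i) = !(E.anv (Ks E.L n) W).testBit (E.L * i) := by
  unfold sd
  rw [tb_xor, w.O_at hi]
  cases (E.anv (Ks E.L n) W).testBit (E.L * i) <;> rfl

theorem Wf.anv_spr (w : E.Wf) : Spr E.L (E.anv (Ks E.L n) W) := by
  intro p hp
  unfold anv at hp
  rw [fo_lor, fo_lor, Nat.zero_testBit] at hp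
  rcases hp with (hp | ⟨a, -, hp⟩) | ⟨e, -, hp⟩
  · cases hp
  · exact w.ac_spr p hp
  · exact w.cd_spr p hp

theorem Wf.sd_spr (w : E.Wf) : Spr E.L (E.sd (Ks E.L n) W) :=
  spr_xor (Ks_spr w.Lp) w.anv_spr

theorem Wf.sl_m1 (w : E.Wf) (hi : i < n) {M a b : ℕ} :
    (sl (Ks E.L n) M (Nat.add (Nat.mul E.q a) b)).testBit (E.L * i) = E.m1 M i a b := sl_at w.Lp hi

/-- the possible relation of the cells of `P'` before the closure -/
theorem Wf.MC0_at (w : E.Wf) (hi : i < n) {r c : ℕ} (hr : r < E.q) (hc : c < E.q) :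
    E.m1 (E.MC0 (Ks E.L n) W) i r c = true ↔
      (∃ e ∈ E.es', (E.mdf W i e.a e.b = true ∧ S2 e.i e.j r c) ∨
        ((E.dif W i e.a e.b = true ∨ ((E.anv (Ks E.L n) W).testBit (E.L * i) = false ∧
          E.mdf W i e.a e.b = true)) ∧ (S2 e.i E.z r c ∨ S2 e.j E.z r c))) ∨
      (∃ a ∈ E.ars, (E.m1 (E.Tm (Ks E.L n) W) i a.t E.z = true ∨
        ((E.anv (Ks E.L n) W).testBit (E.L * i) = false ∧
          E.m1 (E.PM (Ks E.L n) W) i a.t E.z = true)) ∧ S2 a.c' E.z r c) ∨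
      (∃ a b, [a, b].Sublist E.ars ∧ E.m1 (E.PM (Ks E.L n) W) i a.t b.t = true ∧ S2 a.c' b.c' r c) ∨
      (r = c ∧ r < E.z) := by
  obtain ⟨hz1, hz2, hz3⟩ := w.zg
  have hp := w.rowlt1 hr hc
  unfold MC0
  unfold m1
  rw [fo_lor, fo_lor, fo_pair]
  have e0 : (Nat.mul (Ks E.L n) (E.id1 E.z)).testBit (E.L * i + (E.q * r + c)) = true ↔
      r = c ∧ r < E.z := by
    rw [mul_at (Ks_spr w.Lp) (w.id1_lt (by omega)) hp, w.O_at hi, Bool.true_and,
      w.id1_at (by omega) hc]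
  have e1 : ∀ e ∈ E.es', ((Nat.lor (Nat.mul (E.md (Ks E.L n) W e.a e.b) (E.sy e.i e.j))
      (Nat.mul (Nat.lor (E.cd (Ks E.L n) W e.a e.b) (Nat.land (E.sd (Ks E.L n) W)
        (E.md (Ks E.L n) W e.a e.b))) (Nat.lor (E.sy e.i E.z) (E.sy e.j E.z)))).testBit
          (E.L * i + (E.q * r + c)) = true ↔ (E.mdf W i e.a e.b = true ∧ S2 e.i e.j r c) ∨
        ((E.dif W i e.a e.b = true ∨ ((E.anv (Ks E.L n) W).testBit (E.L * i) = false ∧
          E.mdf W i e.a e.b = true)) ∧ (S2 e.i E.z r c ∨ S2 e.j E.z r c))) := by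
    intro e he
    obtain ⟨h1, h2, -⟩ := w.es' e he
    have hd : Nat.lor (E.sy e.i E.z) (E.sy e.j E.z) < 2 ^ E.L :=
      lor_lt (w.sy_lt (by omega) (by omega)) (w.sy_lt (by omega) (by omega))
    rw [tb_lor, mul_at w.md_spr (w.sy_lt (by omega) (by omega)) hp,
      mul_at (spr_or w.cd_spr (spr_and w.sd_spr)) hd hp, w.md_at hi, tb_lor, w.cd_at hi, tb_land,
      w.sd_at hi, w.md_at hi, tb_lor, Bool.or_eq_true, Bool.and_eq_true, Bool.and_eq_true,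
      Bool.or_eq_true, Bool.or_eq_true, Bool.and_eq_true, Bool.not_eq_true',
      sy_at hc (by omega) (by omega), sy_at hc (by omega) (by omega), sy_at hc (by omega) (by omega)]
  have e3 : ∀ a ∈ E.ars, ((Nat.mul (Nat.lor (sl (Ks E.L n) (E.Tm (Ks E.L n) W)
      (Nat.add (Nat.mul E.q a.t) E.z)) (Nat.land (E.sd (Ks E.L n) W)
        (sl (Ks E.L n) (E.PM (Ks E.L n) W) (Nat.add (Nat.mul E.q a.t) E.z))))
          (E.sy a.c' E.z)).testBit (E.L * i + (E.q * r + c)) = true ↔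
      (E.m1 (E.Tm (Ks E.L n) W) i a.t E.z = true ∨
        ((E.anv (Ks E.L n) W).testBit (E.L * i) = false ∧
          E.m1 (E.PM (Ks E.L n) W) i a.t E.z = true)) ∧ S2 a.c' E.z r c) := by
    intro a ha
    obtain ⟨h0, h1, h2, -⟩ := w.ars a ha
    rw [mul_at (spr_or (sl_spr w.Lp) (spr_and w.sd_spr)) (w.sy_lt (by omega) (by omega)) hp, tb_lor,
      tb_land, w.sl_m1 hi, w.sl_m1 hi, w.sd_at hi, Bool.and_eq_true, Bool.or_eq_true,
      Bool.and_eq_true, Bool.not_eq_true', sy_at hc (by omega) (by omega)]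
  have e4 : ∀ a b, [a, b].Sublist E.ars → ((Nat.mul (sl (Ks E.L n) (E.PM (Ks E.L n) W)
      (Nat.add (Nat.mul E.q a.t) b.t)) (E.sy a.c' b.c')).testBit (E.L * i + (E.q * r + c)) = true ↔
      E.m1 (E.PM (Ks E.L n) W) i a.t b.t = true ∧ S2 a.c' b.c' r c) := by
    intro a b hab
    obtain ⟨h1, h2⟩ := pair_mem hab
    obtain ⟨-, -, h3, -⟩ := w.ars a h1
    obtain ⟨-, -, h4, -⟩ := w.ars b h2
    rw [mul_at (sl_spr w.Lp) (w.sy_lt (by omega) (by omega)) hp, w.sl_m1 hi, Bool.and_eq_true,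
      sy_at hc (by omega) (by omega)]
  rw [e0]
  constructor
  · rintro (((h | ⟨a, b, h1, h2⟩) | ⟨a, h1, h2⟩) | ⟨e, h1, h2⟩)
    · exact Or.inr (Or.inr (Or.inr h))
    · exact Or.inr (Or.inr (Or.inl ⟨a, b, h1, (e4 a b h1).1 h2⟩))
    · exact Or.inr (Or.inl ⟨a, h1, (e3 a h1).1 h2⟩)
    · exact Or.inl ⟨e, h1, (e1 e h1).1 h2⟩
  · rintro (⟨e, h1, h2⟩ | ⟨a, h1, h2⟩ | ⟨a, b, h1, h2⟩ | h)
    · exact Or.inr ⟨e, h1, (e1 e h1).2 h2⟩
    · exact Or.inl (Or.inr ⟨a, h1, (e3 a h1).2 h2⟩)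
    · exact Or.inl (Or.inl (Or.inr ⟨a, b, h1, (e4 a b h1).2 h2⟩))
    · exact Or.inl (Or.inl (Or.inl h))

end EV

end Pool.FC7
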