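import Pool.Agent.FC7.EvH

/-! # Vector checks: soundness of the contradictions -/

set_option linter.unusedSectionVars false

namespace Pool.FC7

open Ev

namespace EV

variable {E : EV} {n i : ℕ} {W : ℕ}

theorem Wf.lane (w : E.Wf) {p : ℕ} (hp : p < E.L) : p = E.q * (p / E.q) + p % E.q ∧ p / E.q < E.s ∧
    p % E.q < E.q := by
  have hq := w.qp
  refine ⟨(Nat.div_add_mod _ _).symm, ?_, Nat.mod_lt _ hq⟩
  rw [L_eq, Nat.mul_comm] at hp
  exact Nat.div_lt_of_lt_mul (by rw [Nat.mul_comm]; exact hp)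

/-! ### Crossings -/

theorem Wf.upt_at (w : E.Wf) {r c : ℕ} (hc : c < E.q) :
    E.upt.testBit (E.q * r + c) = true → r < c ∧ c < E.A := by
  intro h
  have hA := w.hA
  have hz := w.zg
  unfold upt at h
  rw [rec_lor (fun i => Nat.shiftLeft (Nat.mul (p2 (Nat.succ i)) (mo (Nat.sub E.A (Nat.succ i))))
    (Nat.mul E.q i)), Nat.zero_testBit] at h
  rcases h with h | ⟨j, h1, h2⟩
  · cases h
  · rw [tb_shl, Bool.and_eq_true, decide_eq_true_eq] at h2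
    obtain ⟨h3, h4⟩ := h2
    have h5 : ((mo (E.A - (j + 1))) * 2 ^ (j + 1)).testBit (E.q * r + c - E.q * j) = true := by
      rw [Nat.mul_comm]; exact h4
    have h3' : E.q * j ≤ E.q * r + c := h3
    rw [Nat.testBit_mul_two_pow, Bool.and_eq_true, decide_eq_true_eq, tb_mo, decide_eq_true_eq] at h5
    have h6 : E.q * r + c = E.q * j + (E.q * r + c - E.q * j) := by omega
    have h7 := (idx_inj hc (by omega)).1 h6
    omega

theorem Wf.upt_lt (w : E.Wf) : E.upt < 2 ^ E.L := by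
  apply lt_of_tb
  intro p hp
  have hs := w.s2
  have hq := w.qp
  have hA := w.hA
  have hz := w.zg
  have hc : p % E.q < E.q := Nat.mod_lt _ hq
  have e : p = E.q * (p / E.q) + p % E.q := (Nat.div_add_mod _ _).symm
  rw [e] at hp ⊢
  have := w.upt_at hc hp
  exact w.row_lt (by omega) hc

theorem Wf.below_at (w : E.Wf) {a p : ℕ} : (E.below a).testBit p = true ↔
    ∃ y, a < y ∧ y < E.A ∧ p = E.q * y := by
  have hq := w.qp
  unfold below
  rw [tb_shl, cl_eq hq, Bool.and_eq_true, decide_eq_true_eq, Ks_bit hq]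
  have e : Nat.mul E.q (Nat.succ a) = E.q * (a + 1) := rfl
  have e2 : Nat.sub E.A (Nat.succ a) = E.A - (a + 1) := rfl
  rw [e, e2]
  constructor
  · rintro ⟨h1, t, h2, h3⟩
    exact ⟨a + 1 + t, by omega, by omega, by rw [Nat.mul_add]; omega⟩
  · rintro ⟨y, h1, h2, rfl⟩
    have h3 : E.q * (a + 1) ≤ E.q * y := Nat.mul_le_mul_left _ h1
    refine ⟨h3, y - (a + 1), by omega, ?_⟩
    rw [Nat.mul_sub]

theorem Wf.below_lt (w : E.Wf) {a : ℕ} : E.below a < 2 ^ E.L := by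
  apply lt_of_tb
  intro p hp
  have hs := w.s2
  have hq := w.qp
  have hA := w.hA
  have hz := w.zg
  obtain ⟨y, h1, h2, rfl⟩ := w.below_at.1 hp
  have := w.row_lt (r := y) (c := 0) (by omega) hq
  omega

theorem Wf.below_spr (w : E.Wf) {a : ℕ} : Spr E.q (E.below a) := by
  intro p hp
  obtain ⟨y, h1, h2, rfl⟩ := w.below_at.1 hp
  exact Dvd.intro _ rfl

theorem Wf.crA_at (w : E.Wf) (hi : i < n) {r c : ℕ} (hr : r < E.q) (hc : c < E.q)
    (h : (E.crA (Ks E.L n) W).testBit (E.L * i + (E.q * r + c)) = true) :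
    ∃ a < r, E.m1 (E.NS (Ks E.L n) W) i r a = true ∧ E.m1 (E.Tm (Ks E.L n) W) i a c = true := by
  have hs := w.s2
  have hq := w.qp
  have hA := w.hA
  have hz := w.zg
  unfold crA at h
  rw [rec_lor (fun a => Nat.land (Nat.mul (Nat.land (Nat.shiftRight (E.NS (Ks E.L n) W) a)
    (Nat.mul (Ks E.L n) (E.below a))) (mo E.A)) (E.Rr (E.R1 (Ks E.L n)) (E.Tm (Ks E.L n) W) a)),
    Nat.zero_testBit] at h
  rcases h with h | ⟨a, h1, h2⟩
  · cases h
  · rw [tb_land, Bool.and_eq_true] at h2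
    obtain ⟨h3, h4⟩ := h2
    have hsp : Spr E.q (Nat.mul (Ks E.L n) (E.below a)) :=
      spr_mul w.Lp (Ks_spr w.Lp) w.below_lt w.below_spr
    rw [pos_eq, mul_at (spr_and' hsp) (mo_le (by omega)) hc, Bool.and_eq_true, tb_land, tb_shr,
      Bool.and_eq_true] at h3
    obtain ⟨⟨h5, h6⟩, -⟩ := h3
    have e1 : E.q * (E.s * i + r) = E.L * i + E.q * r := by rw [L_eq]; ring
    have h7 := w.row_lt (r := r) (c := 0) (by omega) hq
    rw [e1, mul_at (Ks_spr w.Lp) w.below_lt (by omega), Bool.and_eq_true, w.below_at] at h6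
    obtain ⟨y, y1, y2, y3⟩ := h6.2
    have : r = y := Nat.eq_of_mul_eq_mul_left hq y3
    subst this
    refine ⟨a, y1, ?_, ?_⟩
    · unfold m1
      rw [← h5]
      congr 1
      rw [e1]
      omega
    · have h8 := w.Rr_at (R := E.R1 (Ks E.L n)) (M := E.Tm (Ks E.L n) W) (k := a) (i := i) (b := 0)
        (r := r) (c := c) w.R1_rw (Or.inl rfl) hr hc
      rw [Nat.zero_add, Nat.zero_add] at h8
      rw [h8, Bool.and_eq_true] at h4
      exact h4.2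

theorem Wf.sh1_at (w : E.Wf) (hi : i < n) {Y k r c : ℕ} (hr : r < E.q) (hc : c < E.q)
    (h : (E.sh1 (Ks E.L n) Y k).testBit (E.L * i + (E.q * r + c)) = true) :
    r < E.A ∧ c + k < E.A ∧ E.m1 Y i r (c + k) = true := by
  have hs := w.s2
  have hq := w.qp
  have hA := w.hA
  have hz := w.zg
  unfold sh1 at h
  have e2 : Nat.sub E.A k = E.A - k := rfl
  rw [tb_land, Bool.and_eq_true, tb_shr, w.msk_at hi (by omega) (by rw [e2]; omega) (by omega) hc,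
    Bool.and_eq_true, decide_eq_true_eq, decide_eq_true_eq, e2] at h
  refine ⟨h.2.1, by omega, ?_⟩
  unfold m1
  rw [← h.1]
  congr 1
  omega

theorem Wf.crB_step (w : E.Wf) (hi : i < n) {Y k : ℕ}
    (hY : ∀ r < E.q, ∀ c < E.q, E.m1 Y i r c = true → ∃ d, c < d ∧ d < E.A ∧
      E.m1 (E.Tm (Ks E.L n) W) i r d = true) :
    ∀ r < E.q, ∀ c < E.q, E.m1 (Nat.lor Y (E.sh1 (Ks E.L n) Y k)) i r c = true → ∃ d, c < d ∧ d < E.A ∧
      E.m1 (E.Tm (Ks E.L n) W) i r d = true := by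
  have hA := w.hA
  have hz := w.zg
  intro r hr c hc h
  unfold m1 at h
  rw [tb_lor, Bool.or_eq_true] at h
  rcases h with h | h
  · exact hY r hr c hc h
  · obtain ⟨h1, h2, h3⟩ := w.sh1_at hi hr hc h
    obtain ⟨d, d1, d2, d3⟩ := hY r hr (c + k) (by omega) h3
    exact ⟨d, by omega, d2, d3⟩

theorem Wf.crB_at (w : E.Wf) (hi : i < n) : ∀ r < E.q, ∀ c < E.q,
    E.m1 (E.crB (Ks E.L n) W) i r c = true → ∃ d, c < d ∧ d < E.A ∧
      E.m1 (E.Tm (Ks E.L n) W) i r d = true := by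
  unfold crB
  refine w.crB_step hi (w.crB_step hi (w.crB_step hi fun r hr c hc h => ?_))
  obtain ⟨h1, h2, h3⟩ := w.sh1_at hi hr hc h
  exact ⟨c + 1, by omega, h2, h3⟩

/-! ### Certain relations -/

/-- the relation which contains the certain matrix -/
def TZ (A z : ℕ) (R : ℕ → ℕ → Prop) (Ac : ℕ → Prop) (r c : ℕ) : Prop :=
  EvTP A z R Ac r c ∨ (r = z ∧ c = z)

theorem TZ.arcs {R : ℕ → ℕ → Prop} {Ac : ℕ → Prop} {A z r c : ℕ} (hA : A ≤ z) (h : TZ A z R Ac r c) (hr : r < A) (hc : c < A) :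
    R r c := by
  rcases h with (h | h | h) | h
  · exact h.2.2
  · omega
  · omega
  · omega

theorem EvTN.arcs {R : ℕ → ℕ → Prop} {Ac : ℕ → Prop} {A z r c : ℕ} (hA : A ≤ z) (h : EvTN A z R Ac r c) (hr : r < A) (hc : c < A) :
    ¬ R r c := by
  rcases h with h | h | h
  · exact h.2.2
  · omega
  · omega

section
variable (w : E.Wf) (hi : i < n) {col : ℕ → Bool} {R : ℕ → ℕ → Prop} {Ac : ℕ → Prop}
  (hR : Equivalence R) (hAc : ∀ s t, R s t → (Ac s ↔ Ac t)) (tw : EvTw E col R Ac W i)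
  (hsa : ∀ a ∈ E.ars, E.acb W i a = true → Ac a.t)

include w hi hR hAc tw hsa

theorem Tm_sub {r c : ℕ} (hr : r < E.g) (hc : c < E.g)
    (h : E.m1 (E.Tm (Ks E.L n) W) i r c = true) : TZ E.A E.z R Ac r c := by
  obtain ⟨hz1, hz2, hz3⟩ := w.zg
  have hA := w.hA
  refine w.clo_sub hi hA (T := TZ E.A E.z R Ac) (fun k hk r _ c _ h1 h2 => ?_)
    (fun r hr c hc h0 => ?_) hr hc h
  · rcases h1 with (⟨a1, a2, a3⟩ | ⟨a1, a2, a3⟩ | ⟨a1, a2, a3⟩) | ⟨a1, a2⟩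
    · rcases h2 with (⟨b1, b2, b3⟩ | ⟨b1, b2, b3⟩ | ⟨b1, b2, b3⟩) | ⟨b1, b2⟩
      · exact Or.inl (Or.inl ⟨a1, b2, hR.trans a3 b3⟩)
      · exact Or.inl (Or.inr (Or.inl ⟨a1, b2, (hAc _ _ a3).2 b3⟩))
      · omega
      · omega
    · omega
    · rcases h2 with (⟨b1, b2, b3⟩ | ⟨b1, b2, b3⟩ | ⟨b1, b2, b3⟩) | ⟨b1, b2⟩
      · exact Or.inl (Or.inr (Or.inr ⟨a1, b2, (hAc _ _ b3).1 a3⟩))
      · exact Or.inr ⟨a1, b2⟩
      · omega
      · omega
    · omega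
  · rw [w.CM0_at hi (by omega) (by omega)] at h0
    rcases h0 with (h0 | ⟨h0, h1⟩) | ⟨a, a1, a2, a3, a4⟩
    · exact Or.inl (tw.p _ (by omega) _ (by omega) h0)
    · exact Or.inl (Or.inl ⟨h1, by omega, by rw [h0]; exact hR.refl _⟩)
    · have hac : Ac a.t := hsa a a1 (by
        unfold acb
        rw [a2, a3, Bool.and_true, Bool.or_true])
      have hat := (w.ars a a1).1
      rcases a4 with ⟨b1, b2⟩ | ⟨b1, b2⟩
      · exact Or.inl (Or.inr (Or.inl ⟨by omega, b2, by rw [b1]; exact hac⟩))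
      · exact Or.inl (Or.inr (Or.inr ⟨b1, by omega, by rw [b2]; exact hac⟩))

theorem Tm_ac {a : EA} (ha : a ∈ E.ars) (h : E.acb W i a = true) :
    E.m1 (E.Tm (Ks E.L n) W) i a.t E.z = true := by
  obtain ⟨hz1, hz2, hz3⟩ := w.zg
  have hA := w.hA
  have hat := (w.ars a ha).1
  refine w.clo_mono hi hA (by omega) (by omega) ((w.CM0_at hi (by omega) (by omega)).2 ?_)
  unfold acb at h
  rw [Bool.or_eq_true, Bool.and_eq_true] at h
  rcases h with h | ⟨h1, h2⟩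
  · exact Or.inl (Or.inl h)
  · exact Or.inr ⟨a, ha, h1, h2, Or.inl ⟨rfl, rfl⟩⟩

theorem X1_sub {r c : ℕ} (hr : r < E.A) (hc : c < E.g)
    (h : E.m1 (E.X1 (Ks E.L n) W) i r c = true) : EvTN E.A E.z R Ac r c := by
  obtain ⟨hz1, hz2, hz3⟩ := w.zg
  have hA := w.hA
  rw [w.X1_at hi (by omega) (by omega)] at h
  obtain ⟨-, ⟨k, h1, h2, h3⟩ | ⟨h2, h3⟩⟩ := h
  · have h4 := Tm_sub w hi hR hAc tw hsa (by omega) (by omega) h2
    have h5 := tw.n _ (by omega) _ (by omega) h3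
    rcases h4 with (⟨a1, a2, a3⟩ | ⟨a1, a2, a3⟩ | ⟨a1, a2, a3⟩) | ⟨a1, a2⟩
    · rcases h5 with ⟨b1, b2, b3⟩ | ⟨b1, b2, b3⟩ | ⟨b1, b2, b3⟩
      · exact Or.inl ⟨a1, b2, fun h => b3 (hR.trans (hR.symm a3) h)⟩
      · exact Or.inr (Or.inl ⟨a1, b2, fun h => b3 ((hAc _ _ a3).1 h)⟩)
      · omega
    · omega
    · omega
    · omega
  · have h4 := Tm_sub w hi hR hAc tw hsa (by omega) (by omega) h2
    have h5 := tw.n _ (by omega) _ (by omega) h3
    rcases h4 with (⟨a1, a2, a3⟩ | ⟨a1, a2, a3⟩ | ⟨a1, a2, a3⟩) | ⟨a1, a2⟩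
    · omega
    · rcases h5 with ⟨b1, b2, b3⟩ | ⟨b1, b2, b3⟩ | ⟨b1, b2, b3⟩
      · omega
      · omega
      · exact Or.inl ⟨a1, b2, fun h => b3 ((hAc _ _ h).1 a3)⟩
    · omega
    · omega

theorem NS_sub {r c : ℕ} (hr : r < E.A) (hc : c < E.g)
    (h : E.m1 (E.NS (Ks E.L n) W) i r c = true) : EvTN E.A E.z R Ac r c := by
  obtain ⟨hz1, hz2, hz3⟩ := w.zg
  have hA := w.hA
  rw [w.NS_at hi (by omega) (by omega)] at h
  rcases h with h | ⟨⟨-, hcA⟩, ⟨k, h1, h2, h3⟩ | ⟨h2, h3⟩⟩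
  · exact X1_sub w hi hR hAc tw hsa hr hc h
  · have h5 := X1_sub w hi hR hAc tw hsa hr (by omega) h2
    have h4 := Tm_sub w hi hR hAc tw hsa (by omega) (by omega) h3
    rcases h5 with ⟨b1, b2, b3⟩ | ⟨b1, b2, b3⟩ | ⟨b1, b2, b3⟩
    · rcases h4 with (⟨a1, a2, a3⟩ | ⟨a1, a2, a3⟩ | ⟨a1, a2, a3⟩) | ⟨a1, a2⟩
      · exact Or.inl ⟨hr, a2, fun h => b3 (hR.trans h (hR.symm a3))⟩
      · omega
      · omega
      · omega
    · omega
    · omega
  · have h5 := X1_sub w hi hR hAc tw hsa hr (by omega) h2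
    have h4 := Tm_sub w hi hR hAc tw hsa (by omega) (by omega) h3
    rcases h5 with ⟨b1, b2, b3⟩ | ⟨b1, b2, b3⟩ | ⟨b1, b2, b3⟩
    · omega
    · rcases h4 with (⟨a1, a2, a3⟩ | ⟨a1, a2, a3⟩ | ⟨a1, a2, a3⟩) | ⟨a1, a2⟩
      · omega
      · omega
      · exact Or.inl ⟨hr, a2, fun h => b3 ((hAc _ _ h).2 a3)⟩
      · omega
    · omega

/-- no crossings -/
theorem crs_no (hN : ∀ a b c d, a < b → b < c → c < d → d < E.A → R a c → R b d → R a b)
    {p : ℕ} (hp : p < E.L) : ¬ (E.crs (Ks E.L n) W).testBit (E.L * i + p) = true := by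
  obtain ⟨hz1, hz2, hz3⟩ := w.zg
  have hA := w.hA
  have hs := w.s2
  intro h
  obtain ⟨e, hr, hc⟩ := w.lane hp
  set r := p / E.q
  set c := p % E.q
  rw [e] at h hp
  unfold crs at h
  rw [tb_land, tb_land, Bool.and_eq_true, Bool.and_eq_true, mul_at (Ks_spr w.Lp) w.upt_lt hp,
    Bool.and_eq_true] at h
  obtain ⟨⟨h1, h2⟩, -, h3⟩ := h
  obtain ⟨h4, h5⟩ := w.upt_at hc h3
  obtain ⟨a, a1, a2, a3⟩ := w.crA_at hi (by omega) hc h1
  obtain ⟨d, d1, d2, d3⟩ := w.crB_at hi r (by omega) c hc h2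
  have t1 := TZ.arcs (R := R) (Ac := Ac) hA (Tm_sub w hi hR hAc tw hsa (by omega) (by omega) a3)
    (by omega) (by omega)
  have t2 := TZ.arcs (R := R) (Ac := Ac) hA (Tm_sub w hi hR hAc tw hsa (by omega) (by omega) d3)
    (by omega) (by omega)
  have t3 := EvTN.arcs (R := R) (Ac := Ac) hA (NS_sub w hi hR hAc tw hsa (by omega) (by omega) a2)
    (by omega) (by omega)
  exact t3 (hR.symm (hN a r c d a1 h4 d1 d2 t1 t2))

/-- no contradictory pairs -/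
theorem tn_no {p : ℕ} (hp : p < E.L) : ¬ (Nat.land (Nat.land (E.Tm (Ks E.L n) W) (E.NS (Ks E.L n) W))
    (Nat.mul (Ks E.L n) (E.blkm E.A E.A))).testBit (E.L * i + p) = true := by
  obtain ⟨hz1, hz2, hz3⟩ := w.zg
  have hA := w.hA
  have hs := w.s2
  intro h
  obtain ⟨e, hr, hc⟩ := w.lane hp
  set r := p / E.q
  set c := p % E.q
  rw [e] at h hp
  rw [tb_land, tb_land, Bool.and_eq_true, Bool.and_eq_true, w.msk_at hi (by omega) (by omega) hr hc,
    Bool.and_eq_true, decide_eq_true_eq, decide_eq_true_eq] at h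
  obtain ⟨⟨h1, h2⟩, h3, h4⟩ := h
  exact EvTN.arcs (R := R) (Ac := Ac) hA (NS_sub w hi hR hAc tw hsa h3 (by omega) h2) h3 h4
    (TZ.arcs (R := R) (Ac := Ac) hA (Tm_sub w hi hR hAc tw hsa (by omega) (by omega) h1) h3 h4)

end

/-- the certain pair of the whole lane -/
theorem Wf.okC_at (w : E.Wf) (h : E.okC (Ks E.L n) W = true) (hi : i < n) :
    ∃ p < E.L, (E.Qm (Ks E.L n) W).testBit (E.L * i + p) = true := by
  unfold okC at h
  have h1 : nzr E.L (Ks E.L n) (Nat.mul (Ks E.L n) (mo (Nat.sub E.L 1))) (E.Qm (Ks E.L n) W) = Ks E.L n :=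
    Nat.eq_of_beq_eq_true h
  have h2 := w.O_at hi
  rw [← h1] at h2
  have h3 := (nzr_at (u := i) (c := 0) (Ks_spr w.Lp) rfl w.Lp).1 (by rw [add_zero]; exact h2)
  obtain ⟨-, -, p, p1, p2⟩ := h3
  exact ⟨p, by omega, p2⟩

end EV

end Pool.FC7
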