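import Pool.Agent.FC7.XFe

/-! # The fast extension check: one colouring -/

open Finset

set_option linter.unusedSectionVars false

namespace Pool.FC7

open Pool.FC6

variable {F : XF} {X : XE} {P P' : Pa}
variable {D V : Type} [Fintype D] [DecidableEq V]
variable {S S' : St D V} {f : ℕ → D} {g : ℕ → V} {c' : V → Bool} {c0 : ℕ}

theorem ar_sub (C : Cx S S' P P' f g X c' c0) : X.as.Sublist X.rs := by
  unfold XE.as
  rw [C.st.ar]
  clear * -
  induction X.ar with
  | nil => simp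
  | cons p l ih =>
    rw [List.map_cons, List.flatMap_cons]
    unfold ad
    split_ifs
    · exact List.Sublist.cons_cons _ ih
    · exact List.Sublist.cons_cons _ (List.Sublist.cons _ ih)

/-- the arcs whose ends have different colours: every class contains an even number -/
theorem oda_even (C : Cx S S' P P' f g X c' c0) (hr : X.ringOk P = true) :
    EvL (Rr S P f X c') ((X.ar.filter (XE.oda P c0)).map Prod.fst) := by
  classical
  have hoa : ∀ p ∈ X.ar, (XE.oda P c0 p = true ↔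
      c' (g (P.l p.1)) ≠ c' (g (P.l (P.φ p.2)))) := by
    intro p hp
    obtain ⟨h1, h2⟩ := C.st.al p hp
    rw [C.hm _ h1, C.hm _ h2]
    unfold XE.oda
    simp
  have hr' := hr
  unfold XE.ringOk at hr'
  rw [Bool.and_eq_true, Bool.and_eq_true, decide_eq_true_eq] at hr'
  -- the colours of the ends of ring darts
  let od : ℕ → Bool := fun i => c' (g (P.l i)) != c' (g (P.l (P.φ i)))
  have hod : ∀ i ∈ X.rs, (od i = true ↔
      c' (S.M.v (f i)) ≠ c' (S.M.v (S.M.α (f i)))) := by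
    intro i hi
    obtain ⟨h1, h2⟩ := C.st.rs i hi
    rw [C.h.e.hl i h1, em_end C.h.e C.h.G h1]
    simp [od]
  have sub1 : ((X.ar.filter (XE.oda P c0)).map Prod.fst).Sublist X.rs :=
    (List.filter_sublist.map _).trans (ar_sub C)
  intro i hi
  have hi' : i ∈ X.rs := sub1.subset hi
  let Z : D → Prop := fun d => ∃ j ∈ X.rs, Rr S P f X c' i j ∧ ORel S P f c' (f j) d
  have hZ : ∀ j ∈ X.rs, (Z (f j) ↔ Rr S P f X c' i j) := by
    intro j hj
    constructor
    · rintro ⟨k, k1, k2, k3⟩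
      exact C.rr_equiv.trans k2 (C.rr_or k3)
    · intro h1
      exact ⟨j, hj, h1, ORel.refl _⟩
  have ringO : ∀ j ∈ X.rs, OR P f (f j) := fun j hj =>
    C.pe.ringOR (C.st.rs j hj).1 (C.st.rs j hj).2
  have p1 := parity_cls (c := c') (Z := Z) C.pe C.st.rs hr'.1.1
    (fun i h1 h2 => (C.st.ring i h1 h2).1) hod
    (fun d hd => by
      rintro ⟨k, k1, k2, k3⟩
      exact ⟨k, k1, k2, k3.φ hd⟩)
    (fun d hd => by
      rintro ⟨k, k1, k2, k3⟩
      exact ⟨k, k1, k2, k3.α (k3.or C.pe (ringO k k1)) hd⟩)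
    (fun d => by
      rintro ⟨k, k1, k2, k3⟩
      exact k3.or C.pe (ringO k k1))
  have p2 : Even ((X.rs.filter od).countP fun j => decide (Rr S P f X c' i j)) := by
    have e2 : ((X.rs.filter od).countP fun j => decide (Rr S P f X c' i j)) =
        (X.rs.filter od).countP fun j => decide (Z (f j)) := by
      refine List.countP_congr fun j hj => ?_
      rw [List.mem_filter] at hj
      simp only [decide_eq_true_eq]
      exact (hZ j hj.1).symm
    rw [e2]
    exact (congrArg Even (List.countP_congr fun j _ => by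
             simp only [decide_eq_true_eq])).mp p1
  rw [C.st.ar, arc_even (oa := XE.oda P c0)] at p2
  · exact (congrArg Even (List.countP_congr fun j _ => by
             simp only [decide_eq_true_eq])).mp p2
  · intro p hp
    have h5 := hoa p hp
    have h6 : XE.oda P c0 p = (c' (g (P.l p.1)) != c' (g (P.l (P.φ p.2)))) := by
      rw [Bool.eq_iff_iff, h5]; simp
    by_cases hpe : p.1 = p.2
    · left
      refine ⟨hpe, ?_⟩
      rw [h6, ← hpe]
    · right
      obtain ⟨-, -, h7, -, -⟩ := (C.st.tw p hp).resolve_left hpe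
      refine ⟨hpe, ?_, ?_⟩
      · rw [h6]
        simp only [od]
        rw [h7]
        cases c' (g (P.l p.1)) <;> cases c' (g (P.l p.2)) <;>
          cases c' (g (P.l (P.φ p.2))) <;> rfl
      · rw [Bool.eq_iff_iff, decide_eq_true_eq, decide_eq_true_eq]
        exact ⟨fun h => C.rr_equiv.trans h (C.rr_arc hp),
          fun h => C.rr_equiv.trans h (C.rr_equiv.symm (C.rr_arc hp))⟩

/-- the list of the arcs with ends of different colours -/
theorem od_map (L : Lk F X P P') :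
    (F.ars.reverse.filter (fun a => !ncl c0 a.lm)).map (dt X) =
      (X.ar.filter (XE.oda P c0)).map Prod.fst := by
  rw [L.ars, List.reverse_reverse, List.mapIdx_eq_zipIdx_map, List.filter_map, List.map_map]
  have e1 : ∀ z ∈ X.ar.zipIdx, ((fun a : FA => !ncl c0 a.lm) ∘ fun z : (ℕ × ℕ) × ℕ =>
      mkA F.q X P z.2 z.1) z = (XE.oda P c0 ∘ Prod.fst) z := by
    intro z _
    show (!ncl c0 (2 ^ P.l z.1.1 ||| 2 ^ P.l (P.φ z.1.2))) = XE.oda P c0 z.1
    rw [ncl_eq, Bool.not_not]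
    rfl
  rw [List.filter_congr e1]
  have e2 : ∀ z ∈ X.ar.zipIdx.filter (XE.oda P c0 ∘ Prod.fst),
      (dt X ∘ fun z : (ℕ × ℕ) × ℕ => mkA F.q X P z.2 z.1) z = (Prod.fst ∘ Prod.fst) z := by
    intro z hz
    have hz' := (List.mem_filter.1 hz).1
    have h3 := List.mem_zipIdx' hz'
    show dt X (mkA F.q X P z.2 z.1) = z.1.1
    unfold dt
    show (X.ar.getD z.2 (0, 0)).1 = z.1.1
    rw [List.getD_eq_getElem _ _ h3.1, ← h3.2]
  rw [List.map_congr_left e2, ← List.map_map, ← List.filter_map, List.zipIdx_map_fst]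

theorem as_get {t : ℕ} : X.as.getD t 0 = (X.ar.getD t (0, 0)).1 := by
  unfold XE.as
  rw [List.getD_eq_getElem?_getD, List.getD_eq_getElem?_getD, List.getElem?_map]
  cases X.ar[t]? <;> rfl

theorem nca_of (C : Cx S S' P P' f g X c' c0) (L : Lk F X P P') : NCA S P f F X c' := by
  have hN : NCL (Rr S P f X c') X.as := (ring_ncl C L.ring).sub (ar_sub C)
  rw [ncl_iff] at hN
  intro a ha b hb c hc d hd h1 h2 h3 h4 h5
  have hl : d.t < X.as.length := by
    unfold XE.as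
    rw [List.length_map]
    exact (L.arc hd).tl
  have := hN a.t b.t c.t d.t h1 h2 h3 hl
  simp only [as_get] at this
  exact this h4 h5

/-- noncrossing and parity for the list of arcs -/
theorem od_rel (C : Cx S S' P P' f g X c' c0) (L : Lk F X P P') {od : List FA}
    (hod : od = F.ars.reverse.filter (fun a => !ncl c0 a.lm)) :
    NCL (RQ S P f X c') od ∧ EvL (RQ S P f X c') od := by
  have hmap := od_map (c0 := c0) L
  rw [← hod] at hmap
  constructor
  · have hN : NCL (Rr S P f X c') (od.map (dt X)) := by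
      rw [hmap]
      exact (ring_ncl C L.ring).sub ((List.filter_sublist.map _).trans (ar_sub C))
    intro a b s t hs h1 h2
    exact hN _ _ _ _ (hs.map (dt X)) h1 h2
  · have hE := oda_even C L.ring
    rw [← hmap] at hE
    intro a ha
    have := hE (dt X a) (List.mem_map_of_mem ha)
    rw [List.countP_map] at this
    exact this

/-! ### The initial state -/

theorem pcl_mem {cls : List (ℕ × FA)} : ∀ {prs : List (FA × FA)} {c : ℕ × FA},
    c ∈ XF.pcl cls prs ↔ c ∈ cls ∨ ∃ p ∈ prs, c = (Nat.lor p.1.bt p.2.bt, p.1)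
  | [], c => by
    show c ∈ cls ↔ _
    simp
  | p :: prs, c => by
    show c ∈ (Nat.lor p.1.bt p.2.bt, p.1) :: XF.pcl cls prs ↔ _
    rw [List.mem_cons, pcl_mem]
    constructor
    · rintro (h | h | ⟨p', h1, h2⟩)
      · exact Or.inr ⟨p, by simp, h⟩
      · exact Or.inl h
      · exact Or.inr ⟨p', List.mem_cons_of_mem _ h1, h2⟩
    · rintro (h | ⟨p', h1, h2⟩)
      · exact Or.inr (Or.inl h)
      · rcases List.mem_cons.1 h1 with rfl | h1
        · exact Or.inl h2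
        · exact Or.inr (Or.inr ⟨p', h1, h2⟩)

theorem pfb_ok (C : Cx S S' P P' f g X c' c0) (L : Lk F X P P') {Fb : ℕ}
    (h : FbOk S P P' f F X c' c0 Fb) : ∀ (prs : List (FA × FA)),
    (∀ z ∈ prs, OA F X P' c0 z.1 ∧ OA F X P' c0 z.2 ∧ RQ S P f X c' z.1 z.2) →
    FbOk S P P' f F X c' c0 (F.pfb Fb prs)
  | [], _ => h
  | p :: prs, hp => by
    have ih := pfb_ok C L h prs fun z hz => hp z (List.mem_cons_of_mem _ hz)
    obtain ⟨h1, h2, h3⟩ := hp p (by simp)
    exact ih.ctr C L h1 h2 h3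

theorem prr_ok (C : Cx S S' P P' f g X c' c0) (L : Lk F X P P') {R : ℕ} (h : Eqv F.q F.w R) :
    ∀ (prs : List (FA × FA)), (∀ z ∈ prs, OA F X P' c0 z.1 ∧ OA F X P' c0 z.2) →
    Eqv F.q F.w (F.prr R prs) ∧ (∀ s t, rb F.q R s t → rb F.q (F.prr R prs) s t) ∧
      ∀ z ∈ prs, rb F.q (F.prr R prs) z.1.i' z.2.i'
  | [], _ => ⟨h, fun _ _ h => h, by simp⟩
  | p :: prs, hp => by
    obtain ⟨i1, i2, i3⟩ := prr_ok C L h prs fun z hz => hp z (List.mem_cons_of_mem _ hz)
    obtain ⟨h1, h2⟩ := hp p (by simp)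
    have a1 := L.arc h1.1
    have a2 := L.arc h2.1
    have g1 := (C.st.rs _ (C.st.asm a1.mem)).1
    have g2 := (C.st.rs _ (C.st.asm a2.mem)).1
    have w1 : p.1.i' < F.w := by rw [a1.i']; exact (L.ce _ g1).2
    have w2 : p.2.i' < F.w := by rw [a2.i']; exact (L.ce _ g2).2
    obtain ⟨q1, q2, q3⟩ := i1.mr (i := p.1.i') (j := p.2.i') L.hq (le_of_lt L.hw) w1 w2
    have e : F.prr R (p :: prs) = mr (Ks F.q F.w) (2 ^ F.q - 1) (F.prr R prs) p.1.i' p.2.i'
        (F.q * p.1.i') (F.q * p.2.i') := by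
      show mr F.K F.F (F.prr R prs) p.1.i' p.2.i' p.1.qi' p.2.qi' = _
      rw [L.hK, L.hF, a1.qi', a2.qi']
    rw [e]
    refine ⟨q1, fun s t h => q2 _ _ (i2 s t h), fun z hz => ?_⟩
    rcases List.mem_cons.1 hz with rfl | hz
    · exact q3
    · exact q2 _ _ (i3 z hz)

/-- arcs of different activity are not related -/
theorem fb0_ok (C : Cx S S' P P' f g X c' c0) (L : Lk F X P P') {B0 : ℕ} {dn : List FA}
    {cls : List (ℕ × FA)} {od : List FA} {Am Aq Im Iq B' BA Om : ℕ}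
    (h : AI S P P' f F X c' c0 B0 dn cls od Am Aq Im Iq B' BA Om) :
    FbOk S P P' f F X c' c0 (Nat.lor (Nat.mul Aq Im) (Nat.mul Iq Am)) := by
  have spr : ∀ (M : ℕ) (p : FA → Prop), Bp M 0 p (fun a => F.q * a.t) dn → Spr F.q M := by
    intro M p hp n hn
    rcases (hp n).1 hn with h1 | ⟨a, -, -, h1⟩
    · rw [Nat.zero_testBit] at h1; cases h1
    · rw [← h1]; exact Dvd.intro _ rfl
  have lt : ∀ (M : ℕ) (p : FA → Prop), (∀ a, p a → a ∈ F.ars) → Bp M 0 p (fun a => a.t) dn →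
      M < 2 ^ F.q := by
    intro M p hpa hp
    apply Nat.lt_pow_two_of_testBit
    intro i hi
    by_contra hcon
    rw [Bool.not_eq_false] at hcon
    rcases (hp i).1 hcon with h1 | ⟨a, -, h0, h1⟩
    · rw [Nat.zero_testBit] at h1; cases h1
    · have h2 := L.tq (hpa a h0)
      have h3 : a.t = i := h1
      omega
  have row : ∀ (M : ℕ) (p : FA → Prop), (∀ a, p a → a ∈ F.ars) →
      Bp M 0 p (fun a => F.q * a.t) dn → ∀ a ∈ F.ars, M.testBit (F.q * a.t) = true → p a := by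
    intro M p hpa hp a ha h1
    rcases (hp _).1 h1 with h2 | ⟨b, -, h2, h3⟩
    · rw [Nat.zero_testBit] at h2; cases h2
    · have h4 : b.t = a.t := Nat.eq_of_mul_eq_mul_left L.hq h3
      rw [← L.arc_inj (hpa b h2) ha h4]; exact h2
  have col : ∀ (M : ℕ) (p : FA → Prop), (∀ a, p a → a ∈ F.ars) →
      Bp M 0 p (fun a => a.t) dn → ∀ a ∈ F.ars, M.testBit a.t = true → p a := by
    intro M p hpa hp a ha h1
    rcases (hp _).1 h1 with h2 | ⟨b, -, h2, h3⟩
    · rw [Nat.zero_testBit] at h2; cases h2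
    · rw [← L.arc_inj (hpa b h2) ha h3]; exact h2
  intro a b ha hb hr hab
  obtain ⟨h1, h2⟩ := hr
  have e2 : ∀ a b : ℕ, Nat.mul a b = a * b := fun _ _ => rfl
  rw [lor_eq, e2, e2, Nat.testBit_or, Bool.or_eq_true,
    mul_spr L.hq (spr _ _ h.aq) (lt _ _ (fun a h => h.1.1) h.im) _ _ h1,
    mul_spr L.hq (spr _ _ h.iq) (lt _ _ (fun a h => h.1.1) h.am) _ _ h1, Bool.and_eq_true,
    Bool.and_eq_true] at h2
  rcases h2 with ⟨h3, h4⟩ | ⟨h3, h4⟩
  · have k1 := row _ _ (fun a h => h.1.1) h.aq a ha.1 h3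
    have k2 := col _ _ (fun a h => h.1.1) h.im b hb.1 h4
    exact k2.2 ((C.actR_iff hab).1 k1.2)
  · have k1 := row _ _ (fun a h => h.1.1) h.iq a ha.1 h3
    have k2 := col _ _ (fun a h => h.1.1) h.am b hb.1 h4
    exact k1.2 ((C.actR_iff hab).2 k2.2)

theorem bo_of (C : Cx S S' P P' f g X c' c0) (L : Lk F X P P') {dn : List FA}
    (hdn : ∀ a ∈ F.ars, a ∈ dn) {cls : List (ℕ × FA)} {od : List FA} {Am Aq Im Iq B' BA Om : ℕ}
    (h : AI S P P' f F X c' c0 (meB c0 F.es' 0) dn cls od Am Aq Im Iq B' BA Om) :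
    BO S S' P P' f F X c' c0 B' := by
  have hes : ∀ e ∈ F.es', FE.Ok F.q e := by
    intro e he
    rw [L.es'] at he
    obtain ⟨i, hi, rfl⟩ := List.mem_map.1 he
    exact mkE_ok
  have b0 : ∀ t, (meB c0 F.es' 0).testBit t = true ↔
      ∃ e ∈ F.es', ncl c0 e.lm = false ∧ (t = e.i ∨ t = e.j) := by
    intro t
    rw [meB_bit _ _ hes, Nat.zero_testBit]
    simp
  have b2 : ∀ a, OA F X P' c0 a → ActR S P f X c' (dt X a) → B'.testBit a.i' = true := by
    intro a ha hA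
    exact (h.b' _).2 (Or.inr ⟨a, hdn a ha.1, ⟨ha, hA⟩, rfl⟩)
  have hn := C.h.hn
  refine ⟨fun i hi hb => ?_, b2, fun t ht => ?_⟩
  · have hr := br_real hb
    by_cases hα : P.α i = i
    · obtain ⟨r1, r2, -⟩ := C.st.ring i hi hα
      have has := C.st.rreal r1 (by rw [← r2]; exact hr)
      obtain ⟨a, a1, a2⟩ := L.of_mem has
      have aa := L.arc a1
      have ho := br_op hb
      have := b2 a ⟨a1, by rw [a2]; exact ho⟩
        (by rw [a2]; exact C.act_real has (by rw [← r2]; exact hr) ho)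
      rwa [aa.i', a2] at this
    · refine (h.b' _).2 (Or.inl ((b0 _).2 ?_))
      have hi' : i < P'.n := by rw [hn]; exact hi
      have hα' : P'.α i = P.α i := C.h.hα i hi
      rw [L.es']
      rcases C.st.inn' i hi hα hr with h3 | h3
      · exact ⟨_, List.mem_map_of_mem h3, (ncl_br hr).2 hb, Or.inl rfl⟩
      · have hr' : P'.real (P.α i) = true := by rw [C.st.rα' i hi]; exact hr
        refine ⟨_, List.mem_map_of_mem h3, (ncl_br hr').2 ?_, Or.inr ?_⟩
        · rw [← hα']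
          rw [br_α C.h.G' hi' (by rw [hα']; exact hα) (by rw [hα']; exact C.st.rα' i hi)]
          exact hb
        · show X.ce' i = X.ce' (P'.α (P.α i))
          rw [← hα', C.h.G'.αα i hi']
  · rcases (h.b' t).1 ht with h1 | ⟨a, -, ⟨h1, h2⟩, h3⟩
    · obtain ⟨e, e1, e2, e3⟩ := (b0 t).1 h1
      rw [L.es'] at e1
      obtain ⟨i, hi, rfl⟩ := List.mem_map.1 e1
      obtain ⟨k1, k2⟩ := C.st.es' i hi
      have hi' : i < P'.n := by rw [hn]; exact k1
      have h3 : Br S' c' (f i) := (C.br' k1).2 ((ncl_br (L.er' i hi)).1 e2)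
      rcases e3 with rfl | rfl
      · exact ⟨i, k1, rfl, h3.vi⟩
      · have hα' : P'.α i = P.α i := C.h.hα i k1
        refine ⟨P'.α i, by rw [hα']; exact C.h.G.αlt i k1, rfl, ?_⟩
        rw [← C.h.e'.hα i hi' (by rw [hα']; exact k2)]
        exact (vi_α ((C.op' k1).2 ((ncl_op (L.er' i hi)).1 e2))).2 h3.vi
    · have aa := L.arc h1.1
      refine ⟨dt X a, (C.st.rs _ (C.st.asm aa.mem)).1, ?_, C.actR_vi' h2⟩
      rw [← aa.i']; exact h3

/-- bits of the fields of the labels and of the kept darts -/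
theorem hlk_bit {q n : ℕ} (hq : 0 < q) (h : (∃ y < X.k, n = q * y + (q - 1)) ∨
    ∃ y < X.kd.length, n = q * (X.k + X.ar.length + y) + (q - 1)) :
    (hlk q X).testBit n = true := by
  unfold hlk
  have hlt : 2 ^ (q - 1) * Ks q X.k < 2 ^ (q * (X.k + X.ar.length)) := by
    apply Nat.lt_pow_two_of_testBit
    intro i hi
    by_contra hcon
    rw [Bool.not_eq_false] at hcon
    obtain ⟨y, hy, rfl⟩ := (Hs_bit hq).1 hcon
    have : q * (y + 1) ≤ q * (X.k + X.ar.length) := Nat.mul_le_mul_left _ (by omega)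
    rw [Nat.mul_add] at this
    omega
  rw [tb_add hlt]
  rcases h with ⟨y, hy, rfl⟩ | ⟨y, hy, rfl⟩
  · have : q * (y + 1) ≤ q * (X.k + X.ar.length) := Nat.mul_le_mul_left _ (by omega)
    rw [Nat.mul_add] at this
    rw [if_pos (by omega)]
    exact (Hs_bit hq).2 ⟨y, hy, rfl⟩
  · have e : q * (X.k + X.ar.length + y) = q * (X.k + X.ar.length) + q * y := Nat.mul_add _ _ _
    rw [if_neg (by omega)]
    exact (Hs_bit hq).2 ⟨y, hy, by omega⟩

theorem po_of (C : Cx S S' P P' f g X c' c0) (L : Lk F X P P') {dn : List FA}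
    (hdn : ∀ a ∈ F.ars, a ∈ dn) {B0 : ℕ} {cls : List (ℕ × FA)} {od : List FA}
    {Am Aq Im Iq B' BA Om : ℕ}
    (h : AI S P P' f F X c' c0 B0 dn cls od Am Aq Im Iq B' BA Om) :
    PO S P P' f F X c' c0 BA Om := by
  refine ⟨fun t ht => ?_, fun a ha hr => ?_, fun y hy => ?_, fun a ha => ?_, fun y hy => ?_⟩
  · rcases (h.ba t).1 ht with h1 | ⟨a, -, ⟨h1, h2⟩, h3⟩
    · rw [Nat.zero_testBit] at h1; cases h1
    · exact ⟨a, h1, h2, h3⟩
  · have aa := L.arc ha.1
    exact (h.ba _).2 (Or.inr ⟨a, hdn a ha.1, ⟨ha, C.act_real aa.mem (by rw [← aa.r]; exact hr) ha.2⟩,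
      rfl⟩)
  · refine (h.om _).2 (Or.inl ?_)
    rw [L.hl]
    exact hlk_bit L.hq (Or.inl ⟨y, hy, rfl⟩)
  · exact (h.om _).2 (Or.inr ⟨a, hdn a ha.1, ha, rfl⟩)
  · refine (h.om _).2 (Or.inl ?_)
    rw [L.hl]
    exact hlk_bit L.hq (Or.inr ⟨y, hy, rfl⟩)

theorem rq_of (L : Lk F X P P') (hdj : Dj S' P f X.ce' c' X.dj') :
    ∀ m ∈ F.rq, RqOk S' P f F X c' m := by
  intro m hm
  rw [L.rq] at hm
  obtain ⟨z, hz, rfl⟩ := List.mem_map.1 hm
  refine ⟨fun t ht h => ?_, fun y hy => ?_, hdj z hz⟩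
  · exact List.mem_map.2 ⟨t, List.mem_filter.2 ⟨List.mem_range.2 ht, h⟩, rfl⟩
  · obtain ⟨t, ht, rfl⟩ := List.mem_map.1 hy
    rw [List.mem_filter, List.mem_range] at ht
    exact ⟨t, ht.1, rfl, ht.2⟩

/-- SOUNDNESS OF THE FAST CHECK, one colouring -/
theorem oneF_sound (C : Cx S S' P P' f g X c' c0)
    (hgx : ∀ a < X.x, ∀ b < X.x, g a = g b → a = b) (L : Lk F X P P')
    (hsp : ∀ p ∈ X.ar, X.sp p.1 = true → c' (g (P.l p.1)) ≠ c' (g (P.l (P.φ p.2))) →
      ActR S P f X c' p.1)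
    (hlr : ∀ q ∈ X.lr, q.1 < P.n ∧ P.real q.1 = true ∧
      (q.2.2 = true → Vi S' c' (f q.1) ∨ Vi S' c' (S.M.α (f q.1))))
    (hdj : Dj S' P f X.ce' c' X.dj') (h : F.one c0 = true) :
    ∃ ex c, (∀ q ∈ X.lr, LrOk S S' P f X c' c0 ex q) ∧
      Ag g X c' c ∧ (∀ t, S.Test c t → ∀ d d', Br S c d → Br S c d' → t d = t d') ∧
      (∀ d, OV P f d → Vi S' c' d → Vi S c d) ∧
      (∀ i < P.n, Vi S' c' (f i) → X.x ≤ P'.l i → P'.l i < X.x + X.k →
        ∃ d, S.M.v d = g (P'.l i) ∧ Vi S c d) ∧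
      (∀ i ∈ X.kd, Vi S' c' (f i) → Vi S c (f i)) ∧
      ∀ z ∈ X.dj ++ ex, ∃ i < P.n, z.testBit (X.ce i) = true ∧ Vi S c (f i) := by
  classical
  have hN := nca_of C L
  unfold XF.one at h
  obtain ⟨cls, od, Am, Aq, Im, Iq, B', BA, Om, hA, hk⟩ := arcs_sound C L (B0 := meB c0 F.es' 0)
    F.ars [] [] [] 0 0 0 0 (meB c0 F.es' 0) 0 F.hl (fun _ h => h) (fun a ha hs hn => by
      have aa := L.arc ha
      obtain ⟨p, p1, p2, p3⟩ := aa.p
      rw [← p2]
      refine hsp p p1 (by rw [p2, ← aa.sp]; exact hs) ?_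
      obtain ⟨h1, h2⟩ := C.st.al p p1
      rw [C.hm _ h1, C.hm _ h2]
      rw [p3, ncl_eq] at hn
      simpa using hn)
    ⟨by simp, by simp, by simp, Bp.nil, Bp.nil, Bp.nil, Bp.nil, Bp.nil, Bp.nil, Bp.nil⟩ h
  rw [List.append_nil] at hA
  have hdn : ∀ a ∈ F.ars, a ∈ F.ars.reverse := fun a ha => List.mem_reverse.2 ha
  rw [L.lr] at hk
  obtain ⟨ex, ex', hk, hex', -, hlo⟩ := labs_soundF C L X.lr [] [] hlr hk (by simp)
  obtain ⟨n1, n2⟩ := od_rel C L hA.od
  rw [mt2_eq] at hk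
  obtain ⟨r1, r2, r3⟩ := Lk.rq_equiv C
  obtain ⟨prs, m1, m2, -, hk⟩ := mt_cover (R := RQ S P f X c') ⟨r1, r2, r3⟩ _ od [] [] hk
    (by simpa using n1) (by simpa using n2) (by simp) (by simp)
  simp only [List.reverse_nil, List.nil_append, List.not_mem_nil, or_false] at m1 m2
  have odo : ∀ a ∈ od, OA F X P' c0 a := by
    intro a ha
    rw [hA.od, List.mem_filter, List.mem_reverse] at ha
    refine ⟨ha.1, (Lk.oa_iff C L ha.1).2 fun h => ?_⟩
    rw [h.1] at ha
    simp at ha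
  have hp : ∀ z ∈ prs, OA F X P' c0 z.1 ∧ OA F X P' c0 z.2 ∧ RQ S P f X c' z.1 z.2 :=
    fun z hz => ⟨odo _ (m1 z hz).2.1, odo _ (m1 z hz).2.2, (m1 z hz).1⟩
  have hB := bo_of C L hdn hA
  have hO := po_of C L hdn hA
  have hn := C.h.hn
  -- the relation of the cells of `P'`
  have hI : Eqv F.q F.w F.I := by rw [L.hI]; exact Is_eqv (le_of_lt L.hw)
  have hes' : ∀ e ∈ F.es', e.Ok F.q ∧ e.i < F.w ∧ e.j < F.w := by
    intro e he
    rw [L.es'] at he
    obtain ⟨i, hi, rfl⟩ := List.mem_map.1 he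
    obtain ⟨h1, h2⟩ := C.st.es' i hi
    refine ⟨mkE_ok, (L.ce i h1).2, ?_⟩
    show X.ce' (P'.α i) < F.w
    rw [C.h.hα i h1]
    exact (L.ce _ (C.h.G.αlt i h1)).2
  obtain ⟨e1, e2, e3⟩ := meR_eqv (c := c0) L.hq (le_of_lt L.hw) F.es' F.I hes' hI
  rw [← L.hK, ← L.hF] at e1 e2 e3
  obtain ⟨f1, f2, f3⟩ := prr_ok C L e1 prs fun z hz => ⟨(hp z hz).1, (hp z hz).2.1⟩
  have lt' : ∀ a, OA F X P' c0 a → a.i' < F.w := by
    intro a ha
    rw [(L.arc ha.1).i']
    exact (L.ce _ (C.st.rs _ (C.st.asm (L.arc ha.1).mem)).1).2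
  have hG : GI S P P' f F X c' c0 (XF.pcl cls prs)
      (F.pfb (Nat.lor (Nat.mul Aq Im) (Nat.mul Iq Am)) prs)
      (F.prr (meR F.K F.F c0 F.es' F.I) prs) prs := by
    refine ⟨f1, fun i hi hne hr ho => f2 _ _ ?_, fun c hc => ?_, fun b hb => ?_,
      pfb_ok C L (fb0_ok C L hA) prs hp, hp⟩
    · have hi' : i < P'.n := by rw [hn]; exact hi
      have hα' : P'.α i = P.α i := C.h.hα i hi
      rcases C.st.inn' i hi hne hr with h3 | h3
      · have := e3 (mkE F.q P' X.ce' i) (by rw [L.es']; exact List.mem_map_of_mem h3)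
          ((ncl_op hr).2 ho)
        have h5 : rb F.q (meR F.K F.F c0 F.es' F.I) (X.ce' i) (X.ce' (P'.α i)) := this
        rwa [hα'] at h5
      · have hr' : P'.real (P.α i) = true := by rw [C.st.rα' i hi]; exact hr
        have := e3 (mkE F.q P' X.ce' (P.α i)) (by rw [L.es']; exact List.mem_map_of_mem h3)
          ((ncl_op hr').2 (by
            rw [← hα', op_α C.h.G' hi' (by rw [hα']; exact hne)
              (by rw [hα']; exact C.st.rα' i hi)]
            exact ho))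
        have h5 : rb F.q (meR F.K F.F c0 F.es' F.I) (X.ce' (P.α i)) (X.ce' (P'.α (P.α i))) := this
        rw [← hα', C.h.G'.αα i hi', hα'] at h5
        exact e1.symm _ _ h5
    · rcases pcl_mem.1 hc with h1 | ⟨p, h1, rfl⟩
      · obtain ⟨k1, k2⟩ := hA.cl c h1
        refine ⟨k2, fun t ht => ?_⟩
        rw [k1, (L.arc k2.1).bt] at ht
        exact ⟨c.2, k2, bit1.1 ht, r1 _, f1.refl _ (lt' _ k2)⟩
      · obtain ⟨k1, k2, k3⟩ := hp p h1
        refine ⟨k1, fun t ht => ?_⟩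
        have ht' : (2 ^ p.1.t ||| 2 ^ p.2.t).testBit t = true := by
          rw [← (L.arc k1.1).bt, ← (L.arc k2.1).bt]; exact ht
        rcases bit2.1 ht' with h5 | h5
        · exact ⟨p.1, k1, h5, r1 _, f1.refl _ (lt' _ k1)⟩
        · exact ⟨p.2, k2, h5, k3, f3 p h1⟩
    · by_cases hnl : ncl c0 b.lm = true
      · refine ⟨(b.bt, b), pcl_mem.2 (Or.inl (hA.cv b (hdn b hb.1) hb.2 hnl)), ?_⟩
        rw [(L.arc hb.1).bt]
        exact bit1.2 rfl
      · have hbo : b ∈ od := by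
          rw [hA.od, List.mem_filter, List.mem_reverse]
          exact ⟨hb.1, by simpa using hnl⟩
        obtain ⟨p, h1, h2⟩ := m2 b hbo
        refine ⟨(Nat.lor p.1.bt p.2.bt, p.1), pcl_mem.2 (Or.inr ⟨p, h1, rfl⟩), ?_⟩
        obtain ⟨k1, k2, k3⟩ := hp p h1
        show (p.1.bt ||| p.2.bt).testBit b.t = true
        rw [(L.arc k1.1).bt, (L.arc k2.1).bt]
        exact bit2.2 (h2.imp (fun h => by rw [h]) (fun h => by rw [h]))
  refine go_soundF C L hN hB hex' (rq_of L hdj) (fun cls Fb R' pp hG' hV hl => ?_) 20 _ _ _ _ hG hk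
  have hl' : F.leaf ((c0 >>> X.x) <<< X.x) BA Om ex (F.vis B' R') R' cls pp (F.hi c0) = true := by
    have e : Nat.shiftLeft (Nat.shiftRight c0 F.x) F.x = (c0 >>> X.x) <<< X.x := by
      rw [L.hx]; rfl
    rw [← e]; exact hl
  obtain ⟨c, w⟩ := leaf_soundF C hgx L hB hG' hV hO _ hl'
  exact ⟨ex, c, hlo, w⟩

end Pool.FC7
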