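import Pool.Agent.FC7.EvI
import Pool.Agent.FC7.XFf

/-! # Vector checks: soundness of the contradictions, cells -/

set_option linter.unusedSectionVars false

namespace Pool.FC7

open Ev Pool.FC6

variable {E : EV} {X : XE} {P P' : Pa} {hb : ℕ → Bool}
variable {D V : Type} [Fintype D] [DecidableEq V]
variable {S S' : St D V} {f : ℕ → D} {g : ℕ → V} {c' : V → Bool} {c0 : ℕ}

theorem EvLv.inj (L : EvLv E X P P' hb) {a b : EA} (ha : a ∈ E.ars) (hb' : b ∈ E.ars) (h : a.t = b.t) :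
    a = b := by
  obtain ⟨t, ht, rfl⟩ := L.mem.1 ha
  obtain ⟨s, hs, rfl⟩ := L.mem.1 hb'
  have h' : t = s := h
  subst h'
  rfl

theorem ev_RA_equiv (C : Cx S S' P P' f g X c' c0) :
    Equivalence (fun s t => Rr S P f X c' (evDa X s) (evDa X t)) :=
  ⟨fun _ => C.rr_equiv.refl _, fun h => C.rr_equiv.symm h, fun h h' => C.rr_equiv.trans h h'⟩

/-- noncrossing property of the arcs -/
theorem ev_ncA (C : Cx S S' P P' f g X c' c0) (L : EvLv E X P P' hb) : ∀ a b c d, a < b → b < c → c < d →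
    d < E.A → Rr S P f X c' (evDa X a) (evDa X c) → Rr S P f X c' (evDa X b) (evDa X d) →
    Rr S P f X c' (evDa X a) (evDa X b) := by
  have hN : NCL (Rr S P f X c') X.as := (ring_ncl C L.ring).sub (ar_sub C)
  rw [ncl_iff] at hN
  intro a b c d h1 h2 h3 hd h4 h5
  have hl : d < X.as.length := by
    unfold XE.as
    rw [List.length_map, ← L.A]
    exact hd
  have := hN a b c d h1 h2 h3 hl
  simp only [as_get] at this
  exact this h4 h5

section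
variable {n i W : ℕ}
variable (C : Cx S S' P P' f g X c' c0) (L : EvLv E X P P' hb)
  (hsp : ∀ p ∈ X.ar, X.sp p.1 = true → c' (g (P.l p.1)) ≠ c' (g (P.l (P.φ p.2))) →
      ActR S P f X c' p.1)
  (hi : i < n)
  (tw : EvTw E c0.testBit (fun s t => Rr S P f X c' (evDa X s) (evDa X t))
    (fun s => ActR S P f X c' (evDa X s)) W i)

include C L tw

/-- open edges of `P'` -/
theorem ev_edJ {j : ℕ} (hj : j < P.n) (hne : P.α j ≠ j) (hr : P'.real j = true)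
    (hcol : c0.testBit (P'.l j) ≠ c0.testBit (P'.l (P'.φ j))) :
    ∃ e ∈ E.es', E.mdf W i e.a e.b = true ∧ e.i < E.z ∧ e.j < E.z ∧
      ((e.i = X.ce' j ∧ e.j = X.ce' (P.α j)) ∨ (e.i = X.ce' (P.α j) ∧ e.j = X.ce' j)) := by
  have w := L.w
  have hj' : j < P'.n := by rw [C.h.hn]; exact hj
  have hα' : P'.α j = P.α j := C.h.hα j hj
  rcases C.st.inn' j hj hne hr with h1 | h1
  · have he : evEE P' X.ce' j ∈ E.es' := by rw [L.es']; exact List.mem_map_of_mem h1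
    obtain ⟨w1, w2, w3, w4⟩ := w.es' _ he
    refine ⟨_, he, tw.mdf w3 w4 hcol, w1, w2, Or.inl ⟨rfl, ?_⟩⟩
    show X.ce' (P'.α j) = _
    rw [hα']
  · have he : evEE P' X.ce' (P.α j) ∈ E.es' := by rw [L.es']; exact List.mem_map_of_mem h1
    obtain ⟨w1, w2, w3, w4⟩ := w.es' _ he
    have k1 := C.h.G.αlt j hj
    have k1' : P.α j < P'.n := by rw [C.h.hn]; exact k1
    have hαα : P'.α (P.α j) = j := by rw [C.h.hα _ k1, C.h.G.αα j hj]
    have e1 := C.h.G'.lφ j hj' (by rw [hα']; exact hne)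
    have e2 := C.h.G'.lφ (P.α j) k1' (by rw [hαα]; exact hne.symm)
    rw [hα'] at e1
    rw [hαα] at e2
    refine ⟨_, he, tw.mdf w3 w4 ?_, w1, w2, Or.inr ⟨rfl, ?_⟩⟩
    · show c0.testBit (P'.l (P.α j)) ≠ c0.testBit (P'.l (P'.φ (P.α j)))
      rw [e2, ← e1]; exact hcol.symm
    · show X.ce' (P'.α (P.α j)) = _
      rw [hαα]

include hsp

theorem ev_hsa_of : ∀ a ∈ E.ars, E.acb W i a = true → ActR S P f X c' (evDa X a.t) :=
  fun _ ha h => ev_acb_true C L hsp tw ha h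

include hi

theorem ev_mc_mono {r c : ℕ} (hr : r < E.g) (hc : c < E.g)
    (h : E.m1 (E.MC0 (Ks E.L n) W) i r c = true) : E.m1 (E.MCm (Ks E.L n) W) i r c = true :=
  L.w.clo_mono hi le_rfl hr hc h

theorem ev_mc_tr {k r c : ℕ} (hk : k < E.z) (hr : r < E.g) (hc : c < E.g)
    (h1 : E.m1 (E.MCm (Ks E.L n) W) i r k = true) (h2 : E.m1 (E.MCm (Ks E.L n) W) i k c = true) :
    E.m1 (E.MCm (Ks E.L n) W) i r c = true :=
  L.w.clo_tr hi le_rfl hk hr hc h1 h2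

theorem ev_mc_sym {r c : ℕ} (hr : r < E.g) (hc : c < E.g) :
    E.m1 (E.MCm (Ks E.L n) W) i r c = E.m1 (E.MCm (Ks E.L n) W) i c r := by
  have w := L.w
  obtain ⟨hz1, hz2, hz3⟩ := w.zg
  refine w.clo_sym hi le_rfl (fun r hr c hc => ?_) hr hc
  have key : ∀ r < E.g, ∀ c < E.g, E.m1 (E.MC0 (Ks E.L n) W) i r c = true →
      E.m1 (E.MC0 (Ks E.L n) W) i c r = true := by
    intro r hr c hc h
    rw [w.MC0_at hi (by omega) (by omega)] at h ⊢
    rcases h with ⟨e, h1, h2⟩ | ⟨a, h1, h2, h3⟩ | ⟨a, b, h1, h2, h3⟩ | h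
    · refine Or.inl ⟨e, h1, ?_⟩
      rcases h2 with ⟨h2, h3⟩ | ⟨h2, h3⟩
      · exact Or.inl ⟨h2, h3.symm⟩
      · exact Or.inr ⟨h2, h3.imp EV.S2.symm EV.S2.symm⟩
    · exact Or.inr (Or.inl ⟨a, h1, h2, h3.symm⟩)
    · exact Or.inr (Or.inr (Or.inl ⟨a, b, h1, h2, h3.symm⟩))
    · exact Or.inr (Or.inr (Or.inr (by omega)))
  rw [Bool.eq_iff_iff]
  exact ⟨key r hr c hc, key c hc r hr⟩

theorem ev_mc_id {r : ℕ} (hr : r < E.z) : E.m1 (E.MCm (Ks E.L n) W) i r r = true := by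
  have w := L.w
  obtain ⟨hz1, hz2, hz3⟩ := w.zg
  exact ev_mc_mono C L hsp hi tw (by omega) (by omega) ((w.MC0_at hi (by omega) (by omega)).2
    (Or.inr (Or.inr (Or.inr ⟨rfl, hr⟩))))

/-- open arcs which are joined outside have joined cells -/
theorem ev_mc_pair {a b : EA} (ha : a ∈ E.ars) (hb' : b ∈ E.ars) (oa : P'.op c0 (evDa X a.t) = true)
    (ob : P'.op c0 (evDa X b.t) = true) (hR : Rr S P f X c' (evDa X a.t) (evDa X b.t)) :
    E.m1 (E.MCm (Ks E.L n) W) i a.c' b.c' = true := by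
  have w := L.w
  obtain ⟨hz1, hz2, hz3⟩ := w.zg
  have hA := w.hA
  have key : ∀ a b : EA, [a, b].Sublist E.ars → P'.op c0 (evDa X a.t) = true →
      P'.op c0 (evDa X b.t) = true → Rr S P f X c' (evDa X a.t) (evDa X b.t) →
      E.m1 (E.MCm (Ks E.L n) W) i a.c' b.c' = true := by
    intro a b hs oa ob hR
    obtain ⟨ha, hb'⟩ := pair_mem hs
    obtain ⟨v0, v1, v2, v3, v4⟩ := w.ars a ha
    obtain ⟨u0, u1, u2, u3, u4⟩ := w.ars b hb'
    refine ev_mc_mono C L hsp hi tw (by omega) (by omega) ((w.MC0_at hi (by omega) (by omega)).2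
      (Or.inr (Or.inr (Or.inl ⟨a, b, hs, ?_, Or.inl ⟨rfl, rfl⟩⟩))))
    refine w.PM_at hi v0 (Or.inl u0) (fun x hx hxr hxt => ?_) fun hN => ?_
    · obtain ⟨p, hp⟩ := L.arc hx
      obtain ⟨x0, x1, x2, x3, x4⟩ := w.ars x hx
      refine tw.mdf x3 x4 ?_
      rw [hp.ea, hp.eb]
      refine (ev_ope_iff C hp.mem).1 ?_ (by rw [← hp.er]; exact hxr)
      rw [← hp.d]
      rcases hxt with hxt | hxt
      · rw [hxt]; exact oa
      · rw [hxt]; exact ob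
    · exact EV.EvTN.arcs (R := fun s t => Rr S P f X c' (evDa X s) (evDa X t))
        (Ac := fun s => ActR S P f X c' (evDa X s)) hA (EV.NS_sub w hi (ev_RA_equiv C)
        (fun s t h => C.actR_iff h) tw (ev_hsa_of C L hsp tw) v0 (by omega) hN) v0 u0 hR
  by_cases hab : a = b
  · rw [← hab]
    exact ev_mc_id C L hsp hi tw (w.ars a ha).2.2.1
  · rcases mem_pair hab ha hb' with h | h
    · exact key a b h oa ob hR
    · obtain ⟨v0, v1, v2, v3, v4⟩ := w.ars a ha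
      obtain ⟨u0, u1, u2, u3, u4⟩ := w.ars b hb'
      rw [ev_mc_sym C L hsp hi tw (by omega) (by omega)]
      exact key b a h ob oa (C.rr_equiv.symm hR)

/-- the component of a cell is closed -/
theorem ev_mc_clo {s0 : ℕ} (hs : s0 < E.z) :
    Clo P P' X c0 (fun s => s < E.z ∧ E.m1 (E.MCm (Ks E.L n) W) i s0 s = true) := by
  have w := L.w
  obtain ⟨hz1, hz2, hz3⟩ := w.zg
  intro j hj hne hr ho
  have hcol : c0.testBit (P'.l j) ≠ c0.testBit (P'.l (P'.φ j)) := by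
    unfold Pa.op at ho
    rw [hr, Bool.not_true, Bool.false_or] at ho
    simpa using ho
  obtain ⟨e, e1, e2, e3, e4, e5⟩ := ev_edJ C L tw hj hne hr hcol
  have h1 : E.m1 (E.MCm (Ks E.L n) W) i e.i e.j = true :=
    ev_mc_mono C L hsp hi tw (by omega) (by omega) ((w.MC0_at hi (by omega) (by omega)).2
      (Or.inl ⟨e, e1, Or.inl ⟨e2, Or.inl ⟨rfl, rfl⟩⟩⟩))
  have h2 : E.m1 (E.MCm (Ks E.L n) W) i e.j e.i = true := by
    rw [ev_mc_sym C L hsp hi tw (by omega) (by omega)]; exact h1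
  rcases e5 with ⟨e5, e6⟩ | ⟨e5, e6⟩
  · rw [← e5, ← e6]
    constructor
    · rintro ⟨k1, k2⟩
      exact ⟨e4, ev_mc_tr C L hsp hi tw e3 (by omega) (by omega) k2 h1⟩
    · rintro ⟨k1, k2⟩
      exact ⟨e3, ev_mc_tr C L hsp hi tw e4 (by omega) (by omega) k2 h2⟩
  · rw [← e5, ← e6]
    constructor
    · rintro ⟨k1, k2⟩
      exact ⟨e3, ev_mc_tr C L hsp hi tw e4 (by omega) (by omega) k2 h2⟩
    · rintro ⟨k1, k2⟩
      exact ⟨e4, ev_mc_tr C L hsp hi tw e3 (by omega) (by omega) k2 h1⟩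

/-- no outside pair leaves the component -/
theorem ev_mc_leave {s0 : ℕ} (hs : s0 < E.z) :
    ¬ ∃ j ∈ X.as, P'.op c0 j = true ∧
      (X.ce' j < E.z ∧ E.m1 (E.MCm (Ks E.L n) W) i s0 (X.ce' j) = true) ∧
      ∃ k ∈ X.as, P'.op c0 k = true ∧
      ¬ (X.ce' k < E.z ∧ E.m1 (E.MCm (Ks E.L n) W) i s0 (X.ce' k) = true) ∧ Rr S P f X c' j k := by
  have w := L.w
  obtain ⟨hz1, hz2, hz3⟩ := w.zg
  rintro ⟨j, j1, j2, ⟨j3, j4⟩, k, k1, k2, k3, h⟩
  obtain ⟨p, hp, rfl⟩ := List.mem_map.1 j1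
  obtain ⟨q, hq, rfl⟩ := List.mem_map.1 k1
  obtain ⟨a, ha, hpa⟩ := L.of_ar hp
  obtain ⟨b, hb', hqb⟩ := L.of_ar hq
  have h1 := ev_mc_pair C L hsp hi tw ha hb' (by rw [hpa.d]; exact j2) (by rw [hqb.d]; exact k2)
    (by rw [hpa.d, hqb.d]; exact h)
  rw [hpa.ec', hqb.ec'] at h1
  have h2 : X.ce' q.1 < E.z := by rw [← hqb.ec']; exact (w.ars b hb').2.2.1
  exact k3 ⟨h2, ev_mc_tr C L hsp hi tw j3 (by omega) (by omega) j4 h1⟩

/-- a cell which is joined to `z` -/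
theorem ev_mc_z {r : ℕ} (hr : r < E.z) (h : E.m1 (E.MCm (Ks E.L n) W) i r E.z = true) :
    ∃ s < E.z, E.m1 (E.MCm (Ks E.L n) W) i r s = true ∧
      E.m1 (E.MC0 (Ks E.L n) W) i s E.z = true := by
  have w := L.w
  obtain ⟨hz1, hz2, hz3⟩ := w.zg
  have sy0 : ∀ r < E.g, ∀ c < E.g, E.m1 (E.MC0 (Ks E.L n) W) i r c = true →
      E.m1 (E.MC0 (Ks E.L n) W) i c r = true := by
    intro r hr c hc h
    rw [w.MC0_at hi (by omega) (by omega)] at h ⊢
    rcases h with ⟨e, h1, h2⟩ | ⟨a, h1, h2, h3⟩ | ⟨a, b, h1, h2, h3⟩ | h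
    · refine Or.inl ⟨e, h1, ?_⟩
      rcases h2 with ⟨h2, h3⟩ | ⟨h2, h3⟩
      · exact Or.inl ⟨h2, h3.symm⟩
      · exact Or.inr ⟨h2, h3.imp EV.S2.symm EV.S2.symm⟩
    · exact Or.inr (Or.inl ⟨a, h1, h2, h3.symm⟩)
    · exact Or.inr (Or.inr (Or.inl ⟨a, b, h1, h2, h3.symm⟩))
    · exact Or.inr (Or.inr (Or.inr (by omega)))
  let J : ℕ → Prop := fun r => ∃ s < E.z, E.m1 (E.MCm (Ks E.L n) W) i r s = true ∧
    E.m1 (E.MC0 (Ks E.L n) W) i s E.z = true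
  have hJ : ∀ r < E.z, ∀ k < E.z, E.m1 (E.MCm (Ks E.L n) W) i r k = true → J k → J r := by
    rintro r hr k hk h1 ⟨s, s1, s2, s3⟩
    exact ⟨s, s1, ev_mc_tr C L hsp hi tw hk (by omega) (by omega) h1 s2, s3⟩
  have key := w.clo_sub hi (M := E.MC0 (Ks E.L n) W) (m := E.z) le_rfl
    (T := fun r c => (r < E.z ∧ c < E.z ∧ E.m1 (E.MCm (Ks E.L n) W) i r c = true) ∨
      (r < E.z ∧ c = E.z ∧ J r) ∨ (r = E.z ∧ c < E.z ∧ J c) ∨ (r = E.z ∧ c = E.z))
    (fun k hk r _ c _ h1 h2 => ?_) (fun r hr c hc h0 => ?_) (r := r) (c := E.z) (by omega) (by omega) h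
  · rcases key with ⟨-, h1, -⟩ | ⟨-, -, h1⟩ | ⟨h1, -⟩ | ⟨h1, -⟩
    · omega
    · exact h1
    · omega
    · omega
  · rcases h1 with ⟨a1, a2, a3⟩ | ⟨a1, a2, a3⟩ | ⟨a1, a2, a3⟩ | ⟨a1, a2⟩
    · rcases h2 with ⟨b1, b2, b3⟩ | ⟨b1, b2, b3⟩ | ⟨b1, b2, b3⟩ | ⟨b1, b2⟩
      · exact Or.inl ⟨a1, b2, ev_mc_tr C L hsp hi tw hk (by omega) (by omega) a3 b3⟩
      · exact Or.inr (Or.inl ⟨a1, b2, hJ r a1 k hk a3 b3⟩)
      · omega
      · omega
    · omega
    · rcases h2 with ⟨b1, b2, b3⟩ | ⟨b1, b2, b3⟩ | ⟨b1, b2, b3⟩ | ⟨b1, b2⟩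
      · refine Or.inr (Or.inr (Or.inl ⟨a1, b2, hJ c b2 k hk ?_ a3⟩))
        rw [ev_mc_sym C L hsp hi tw (by omega) (by omega)]
        exact b3
      · exact Or.inr (Or.inr (Or.inr ⟨a1, b2⟩))
      · omega
      · omega
    · omega
  · rcases Nat.lt_or_ge r E.z with h1 | h1
    · rcases Nat.lt_or_ge c E.z with h2 | h2
      · exact Or.inl ⟨h1, h2, ev_mc_mono C L hsp hi tw hr hc h0⟩
      · have : c = E.z := by omega
        subst this
        exact Or.inr (Or.inl ⟨h1, rfl, r, h1, ev_mc_id C L hsp hi tw h1, h0⟩)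
    · have hrz : r = E.z := by omega
      subst hrz
      rcases Nat.lt_or_ge c E.z with h2 | h2
      · exact Or.inr (Or.inr (Or.inl ⟨rfl, h2, c, h2, ev_mc_id C L hsp hi tw h2, sy0 _ hr _ hc h0⟩))
      · exact Or.inr (Or.inr (Or.inr ⟨rfl, by omega⟩))

/-- certain cells -/
theorem ev_mc0_z (ha : (E.anv (Ks E.L n) W).testBit (E.L * i) = true) {r : ℕ} (hr : r < E.z)
    (h : E.m1 (E.MC0 (Ks E.L n) W) i r E.z = true) : ∃ j < P.n, X.ce' j = r ∧ Vi S' c' (f j) := by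
  have w := L.w
  obtain ⟨hz1, hz2, hz3⟩ := w.zg
  have hA := w.hA
  rw [w.MC0_at hi (by omega) (by omega)] at h
  rcases h with ⟨e, h1, h2⟩ | ⟨a, h1, h2, h3⟩ | ⟨a, b, h1, h2, h3⟩ | h
  · obtain ⟨w1, w2, w3, w4⟩ := w.es' e h1
    rcases h2 with ⟨-, h3⟩ | ⟨h2, h3⟩
    · rcases h3 with ⟨h3, h4⟩ | ⟨h3, h4⟩ <;> omega
    · have h4 : E.dif W i e.a e.b = true := by
        rcases h2 with h2 | ⟨h2, -⟩
        · exact h2
        · rw [ha] at h2; cases h2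
      have g3 := tw.dif w3 w4 h4
      rw [L.es'] at h1
      obtain ⟨k, hk, rfl⟩ := List.mem_map.1 h1
      obtain ⟨k1, k2⟩ := C.st.es' k hk
      have hr' := L.er' k hk
      have g4 : c0.testBit (P'.l k) ≠ c0.testBit (P'.l (P'.φ k)) := g3
      have hb1 : br P' c0 k = true := by
        unfold br
        rw [hr', Bool.true_and]
        simpa using g4
      have v1 : Vi S' c' (f k) := ((C.br' k1).2 hb1).vi
      have hk' : k < P'.n := by rw [C.h.hn]; exact k1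
      have hα' : P'.α k = P.α k := C.h.hα k k1
      rcases h3 with ⟨h3, h5⟩ | ⟨h3, h5⟩ | ⟨h3, h5⟩ | ⟨h3, h5⟩
      · exact ⟨k, k1, h3.symm, v1⟩
      · omega
      rotate_left
      · omega
      · refine ⟨P.α k, C.h.G.αlt k k1, ?_, ?_⟩
        · rw [h3]
          show _ = X.ce' (P'.α k)
          rw [hα']
        · rw [← hα', ← C.h.e'.hα k hk' (by rw [hα']; exact k2)]
          exact (vi_α ((C.op' k1).2 (br_op hb1))).2 v1
  · obtain ⟨v0, v1, v2, v3, v4⟩ := w.ars a h1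
    have h4 : E.m1 (E.Tm (Ks E.L n) W) i a.t E.z = true := by
      rcases h2 with h2 | ⟨h2, -⟩
      · exact h2
      · rw [ha] at h2; cases h2
    have h5 := EV.Tm_sub w hi (ev_RA_equiv C) (fun s t h => C.actR_iff h) tw (ev_hsa_of C L hsp tw)
      (by omega) (by omega) h4
    have h6 : ActR S P f X c' (evDa X a.t) := by
      rcases h5 with (h | h | h) | h
      · omega
      · exact h.2.2
      · omega
      · omega
    obtain ⟨p, hp⟩ := L.arc h1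
    rw [hp.d] at h6
    have h7 : r = a.c' := by
      rcases h3 with ⟨h3, h4⟩ | ⟨h3, h4⟩
      · exact h3
      · omega
    exact ⟨p.1, (C.arlt hp.mem).1, by rw [h7, hp.ec'], C.actR_vi' h6⟩
  · obtain ⟨ha', hb'⟩ := pair_mem h1
    have := (w.ars a ha').2.2.1
    have := (w.ars b hb').2.2.1
    rcases h3 with ⟨h3, h4⟩ | ⟨h3, h4⟩ <;> omega
  · omega

theorem ev_anv_no {p : ℕ} (hp : p < E.L) :
    ¬ (Nat.land (Nat.mul (E.anv (Ks E.L n) W) (mo E.L)) (nT (Nat.land (Nat.land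
        (E.Sc (E.C1 (Ks E.L n)) (E.MCm (Ks E.L n) W) E.z) (E.Rr (E.R1 (Ks E.L n)) (E.MCm (Ks E.L n) W) E.z))
        (Nat.mul (Ks E.L n) (Nat.mul (cl E.q E.z) (mo E.z)))) (E.MCm (Ks E.L n) W))).testBit
          (E.L * i + p) = true := by
  have w := L.w
  obtain ⟨hz1, hz2, hz3⟩ := w.zg
  have hs := w.s2
  intro h
  obtain ⟨e, hr, hc⟩ := w.lane hp
  set r := p / E.q
  set c := p % E.q
  rw [tb_land, mul_at w.anv_spr mo_lt hp, Bool.and_eq_true, Bool.and_eq_true] at h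
  obtain ⟨⟨h1, -⟩, h2⟩ := h
  rw [e, tb_nT, tb_land, Bool.and_eq_true, Bool.and_eq_true] at h2
  obtain ⟨⟨h3, h4⟩, h5⟩ := h2
  have hm := w.msk_at hi (a := E.z) (b := E.z) (r := r) (c := c) (by omega) (by omega) hr hc
  unfold EV.blkm at hm
  rw [hm, Bool.and_eq_true, decide_eq_true_eq, decide_eq_true_eq] at h4
  obtain ⟨h6, h7⟩ := h4
  rw [w.pr_at hi (by omega) hc, Bool.and_eq_true, Bool.and_eq_true] at h3
  obtain ⟨⟨h8, -⟩, h9⟩ := h3
  have h10 : ¬ E.m1 (E.MCm (Ks E.L n) W) i r c = true := by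
    unfold EV.m1
    rw [Bool.not_eq_true]
    simpa using h5
  rw [ev_mc_sym C L hsp hi tw (by omega) (by omega)] at h9
  obtain ⟨s, s1, s2, s3⟩ := ev_mc_z C L hsp hi tw h6 h8
  obtain ⟨t, t1, t2, t3⟩ := ev_mc_z C L hsp hi tw h7 h9
  obtain ⟨j, j1, j2, j3⟩ := ev_mc0_z C L hsp hi tw h1 s1 s3
  obtain ⟨k, k1, k2, k3⟩ := ev_mc0_z C L hsp hi tw h1 t1 t3
  refine ev_mc_leave C L hsp hi tw s1 (exists_pair2N C (ev_mc_clo C L hsp hi tw s1) j1 ?_ j3 k1 ?_ k3)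
  · rw [j2]
    exact ⟨s1, ev_mc_id C L hsp hi tw s1⟩
  · rw [k2]
    rintro ⟨-, h11⟩
    apply h10
    refine ev_mc_tr C L hsp hi tw s1 (by omega) (by omega) s2
      (ev_mc_tr C L hsp hi tw t1 (by omega) (by omega) h11 ?_)
    rw [ev_mc_sym C L hsp hi tw (by omega) (by omega)]
    exact t2

/-- marked cells are joined to `z` -/
theorem ev_mark_z (ha : (E.anv (Ks E.L n) W).testBit (E.L * i) = false) :
    (∀ j ∈ X.as, P'.op c0 j = true → ActR S P f X c' j →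
      E.m1 (E.MCm (Ks E.L n) W) i (X.ce' j) E.z = true ∧ X.ce' j < E.z) ∧
    ∀ j < P.n, br P' c0 j = true → E.m1 (E.MCm (Ks E.L n) W) i (X.ce' j) E.z = true ∧ X.ce' j < E.z := by
  have w := L.w
  obtain ⟨hz1, hz2, hz3⟩ := w.zg
  have hA := w.hA
  have k1 : ∀ j ∈ X.as, P'.op c0 j = true → ActR S P f X c' j →
      E.m1 (E.MCm (Ks E.L n) W) i (X.ce' j) E.z = true ∧ X.ce' j < E.z := by
    intro j hj oj hac
    obtain ⟨p, hp, rfl⟩ := List.mem_map.1 hj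
    obtain ⟨a, haa, hpa⟩ := L.of_ar hp
    obtain ⟨v0, v1, v2, v3, v4⟩ := w.ars a haa
    rw [← hpa.ec']
    refine ⟨ev_mc_mono C L hsp hi tw (by omega) (by omega) ((w.MC0_at hi (by omega) (by omega)).2
      (Or.inr (Or.inl ⟨a, haa, Or.inr ⟨ha, ?_⟩, Or.inl ⟨rfl, rfl⟩⟩))), v2⟩
    refine w.PM_at hi v0 (Or.inr rfl) (fun x hx hxr hxt => ?_) fun hN => ?_
    · obtain ⟨q, hq⟩ := L.arc hx
      obtain ⟨x0, x1, x2, x3, x4⟩ := w.ars x hx
      refine tw.mdf x3 x4 ?_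
      rw [hq.ea, hq.eb]
      refine (ev_ope_iff C hq.mem).1 ?_ (by rw [← hq.er]; exact hxr)
      rw [← hq.d]
      rcases hxt with hxt | hxt
      · rw [hxt, hpa.d]; exact oj
      · omega
    · have h1 := EV.NS_sub w hi (ev_RA_equiv C)
        (fun s t h => C.actR_iff h) tw (ev_hsa_of C L hsp tw) v0 (by omega) hN
      rcases h1 with h1 | ⟨h1, h2, h3⟩ | h1
      · omega
      · apply h3
        show ActR S P f X c' (evDa X a.t)
        rw [hpa.d]; exact hac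
      · omega
  refine ⟨k1, fun j hj hbj => ?_⟩
  have hr : P'.real j = true := br_real hbj
  have hcol : c0.testBit (P'.l j) ≠ c0.testBit (P'.l (P'.φ j)) := by
    unfold br at hbj
    rw [hr, Bool.true_and] at hbj
    simpa using hbj
  by_cases hne : P.α j = j
  · obtain ⟨hrs, r1, r2, r3, r4, r5⟩ := C.st.ring j hj hne
    obtain ⟨a, a1, a2, a3, a4, a5⟩ := C.st.rep hrs
    have hja : j = a.1 := by
      rcases a5 with h | ⟨-, h⟩
      · exact h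
      · rw [← r1, hr] at h; cases h
    have ho : P'.op c0 j = true := br_op hbj
    have hjs : j ∈ X.as := by rw [hja]; exact List.mem_map.2 ⟨a, a1, rfl⟩
    exact k1 j hjs ho (C.act_real hjs (by rw [← r1]; exact hr) ho)
  · obtain ⟨e, e1, e2, e3, e4, e5⟩ := ev_edJ C L tw hj hne hr hcol
    rcases e5 with ⟨e5, e6⟩ | ⟨e5, e6⟩
    · rw [← e5]
      exact ⟨ev_mc_mono C L hsp hi tw (by omega) (by omega) ((w.MC0_at hi (by omega) (by omega)).2
        (Or.inl ⟨e, e1, Or.inr ⟨Or.inr ⟨ha, e2⟩, Or.inl (Or.inl ⟨rfl, rfl⟩)⟩⟩)), e3⟩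
    · rw [← e6]
      exact ⟨ev_mc_mono C L hsp hi tw (by omega) (by omega) ((w.MC0_at hi (by omega) (by omega)).2
        (Or.inl ⟨e, e1, Or.inr ⟨Or.inr ⟨ha, e2⟩, Or.inr (Or.inl ⟨rfl, rfl⟩)⟩⟩)), e4⟩

/-- visited cells are joined to `z` -/
theorem ev_vis_z {j : ℕ} (hj : j < P.n) (hz : X.ce' j < E.z) (hv : Vi S' c' (f j)) :
    E.m1 (E.MCm (Ks E.L n) W) i E.z (X.ce' j) = true := by
  have w := L.w
  obtain ⟨hz1, hz2, hz3⟩ := w.zg
  have hA := w.hA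
  by_contra hcon
  rw [ev_mc_sym C L hsp hi tw (by omega) (by omega)] at hcon
  cases ha : (E.anv (Ks E.L n) W).testBit (E.L * i)
  · obtain ⟨m1, m2⟩ := ev_mark_z C L hsp hi tw ha
    refine ev_mc_leave C L hsp hi tw hz (exists_pair1N C (ev_mc_clo C L hsp hi tw hz)
      (fun k hk hbk => ?_) (fun k hk ok hac => ?_) hj ⟨hz, ev_mc_id C L hsp hi tw hz⟩ hv)
    · rintro ⟨h1, h2⟩
      exact hcon (ev_mc_tr C L hsp hi tw h1 (by omega) (by omega) h2 (m2 k hk hbk).1)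
    · rintro ⟨h1, h2⟩
      exact hcon (ev_mc_tr C L hsp hi tw h1 (by omega) (by omega) h2 (m1 k hk ok hac).1)
  · -- a certain cell
    have hx : ∃ s < E.z, E.m1 (E.MC0 (Ks E.L n) W) i s E.z = true := by
      rcases (w.anv_at hi).1 ha with ⟨e, h1, h2⟩ | ⟨a, h1, h2⟩
      · obtain ⟨w1, w2, w3, w4⟩ := w.es' e h1
        exact ⟨e.i, w1, (w.MC0_at hi (by omega) (by omega)).2 (Or.inl ⟨e, h1, Or.inr
          ⟨Or.inl h2, Or.inl (Or.inl ⟨rfl, rfl⟩)⟩⟩)⟩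
      · obtain ⟨v0, v1, v2, v3, v4⟩ := w.ars a h1
        exact ⟨a.c', v2, (w.MC0_at hi (by omega) (by omega)).2 (Or.inr (Or.inl ⟨a, h1, Or.inl
          (EV.Tm_ac w hi (ev_RA_equiv C) (fun s t h => C.actR_iff h) tw (ev_hsa_of C L hsp tw) h1 h2),
          Or.inl ⟨rfl, rfl⟩⟩))⟩
    obtain ⟨s, s1, s2⟩ := hx
    obtain ⟨k, k1, k2, k3⟩ := ev_mc0_z C L hsp hi tw ha s1 s2
    refine ev_mc_leave C L hsp hi tw hz (exists_pair2N C (ev_mc_clo C L hsp hi tw hz) hj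
      ⟨hz, ev_mc_id C L hsp hi tw hz⟩ hv k1 ?_ k3)
    rw [k2]
    rintro ⟨h1, h2⟩
    exact hcon (ev_mc_tr C L hsp hi tw s1 (by omega) (by omega) h2
      (ev_mc_mono C L hsp hi tw (by omega) (by omega) s2))

theorem ev_unm_no (hdj : Dj S' P f X.ce' c' X.dj') {p : ℕ} (hp : p < E.L) :
    ¬ (E.unm (Ks E.L n) (E.MCm (Ks E.L n) W)).testBit (E.L * i + p) = true := by
  have w := L.w
  obtain ⟨hz1, hz2, hz3⟩ := w.zg
  have hq := w.qp
  have hs := w.s2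
  have hN : E.nrq ≤ E.s := by
    show Ev.llen E.rq ≤ E.s
    rw [llen_eq]; exact w.rn
  have hlt : Ks E.q E.nrq < 2 ^ E.L := Ks_lt hq (by rw [EV.L_eq]; exact Nat.mul_le_mul_left _ hN)
  intro h
  unfold EV.unm at h
  simp only [cl_eq hq] at h
  rw [tb_nT, Bool.and_eq_true, mul_at (Ks_spr w.Lp) hlt hp, Bool.and_eq_true, Ks_bit hq] at h
  obtain ⟨⟨-, y, y1, y2⟩, h2⟩ := h
  subst y2
  have hRQ : E.RQ = GG E.q (fun y : ℕ => y) E.rq := rfl
  have hd : ∀ d ∈ E.rq, (fun y : ℕ => y) d < 2 ^ E.q := fun d hd =>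
    lt_of_lt_of_le (w.rq d hd) (Nat.pow_le_pow_right (by norm_num) (by omega))
  have hT : E.RQ < 2 ^ E.L := by
    rw [hRQ]
    refine lt_of_lt_of_le (GG_lt hd) (Nat.pow_le_pow_right (by norm_num) ?_)
    rw [EV.L_eq]
    exact Nat.mul_le_mul_left _ w.rn
  have h3 := w.nz_row (X := Nat.land (Nat.shiftRight (E.MCm (Ks E.L n) W) (Nat.mul E.q E.z))
    (Nat.mul (Ks E.L n) (mo E.q))) hi hN y1 hT (fun u c hc hX => by
      rw [tb_land, Bool.and_eq_true] at hX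
      exact w.R0_rows u c hc hX.2)
  obtain ⟨d, d1, d2⟩ := GG_row hd y (by
    have : E.nrq = E.rq.length := llen_eq _
    omega)
  obtain ⟨j, j1, j2, j3⟩ := hdj d (L.rq d d1)
  have hz : X.ce' j < E.z := tb_of_lt (w.rq d d1) j2
  have h4 := ev_vis_z C L hsp hi tw j1 hz j3
  rw [Bool.not_eq_true', ← Bool.not_eq_true] at h2
  apply h2
  rw [h3]
  refine ⟨X.ce' j, by omega, ?_, ?_⟩
  · rw [hRQ, d2 _ (by omega)]
    exact j2
  · rw [tb_land, w.R0_at hi (by omega), Bool.and_true, tb_shr]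
    unfold EV.m1 at h4
    rw [← h4]
    congr 1
    show E.q * E.z + (E.L * i + X.ce' j) = E.L * i + (E.q * E.z + X.ce' j)
    omega

/-- SOUNDNESS of the contradictions -/
theorem ev_C_sound (hdj : Dj S' P f X.ce' c' X.dj') {p : ℕ} (hp : p < E.L) :
    ¬ (E.Qm (Ks E.L n) W).testBit (E.L * i + p) = true := by
  have w := L.w
  intro h
  unfold EV.Qm at h
  rw [tb_lor, tb_lor, tb_lor, Bool.or_eq_true, Bool.or_eq_true, Bool.or_eq_true] at h
  rcases h with h | h | h | h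
  · exact EV.crs_no w hi (ev_RA_equiv C) (fun s t h => C.actR_iff h) tw (ev_hsa_of C L hsp tw)
      (ev_ncA C L) hp h
  · exact EV.tn_no w hi (ev_RA_equiv C) (fun s t h => C.actR_iff h) tw (ev_hsa_of C L hsp tw) hp h
  · exact ev_anv_no C L hsp hi tw hp h
  · exact ev_unm_no C L hsp hi tw hdj hp h

end

end Pool.FC7
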