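import Pool.Agent.FC7.EvJ

/-! # Vector checks: the colourings and matchings of the ring, the search, definitions

A certificate consists of `XI` (colours `ξ` for the lanes of the ring; the next bit selects the stronger test), `nr` = number of lanes of the
ring which are treated by a search, `nt`, `nc` = numbers of the further lanes, `N` = the searches:
lane (`v` bits), numbers of the further lanes (`v` bits each), codes of `2 + w` bits: `0` leaf, `1` both
children, `2` the child `yes` is contradictory, `3` the child `no` is contradictory. -/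

set_option linter.unusedSectionVars false

namespace Pool.FC7

open Ev

/-- certificates -/
structure EK where
  w : ℕ
  v : ℕ
  XI : ℕ
  nr : ℕ
  nt : ℕ
  nc : ℕ
  N : ℕ

variable (E : EV)

namespace EV

def wT (a : ℕ) : ℕ := p2 (Nat.add E.mb a)
def wF (a : ℕ) : ℕ := p2 (Nat.add E.mb (Nat.add E.m a))
def wJ (a b : EA) : ℕ := E.sy a.t b.t
def wN (a b : EA) : ℕ := E.sy2 a.t b.t
def wA (a : EA) : ℕ := E.sy a.t E.z
def wI (a : EA) : ℕ := E.sy2 a.t E.z

/-- append an entry at the low end -/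
def ent (y n acc : ℕ) : ℕ :=
  Nat.lor (Nat.shiftLeft acc (Nat.mul 2 E.L)) (Nat.lor y (Nat.shiftLeft n E.L))

/-- table: colours `lo, .., x-1`, activity, pairs -/
noncomputable def tab : ℕ :=
  Nat.rec (motive := fun _ => ℕ → ℕ) (fun acc => acc)
    (fun a ih acc => ih (E.ent (E.wT (Nat.add E.lo a)) (E.wF (Nat.add E.lo a)) acc))
    (Nat.sub E.x E.lo)
    (fo E.ars (fun a acc => E.ent (E.wA a) (E.wI a) acc)
      (List.rec (motive := fun _ => ℕ) 0
        (fun a l ih => fo l (fun b acc => E.ent (E.wJ a b) (E.wN a b) acc) ih) E.ars))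

noncomputable def tY (d : ℕ) : ℕ :=
  Nat.land (Nat.shiftRight E.tab (Nat.mul (Nat.mul 2 E.L) d)) (mo E.L)
noncomputable def tN (d : ℕ) : ℕ :=
  Nat.land (Nat.shiftRight E.tab (Nat.add (Nat.mul (Nat.mul 2 E.L) d) E.L)) (mo E.L)

/-! ### The ring -/

/-- colour of the current label -/
noncomputable def par (st : List EA) : Bool :=
  List.rec (motive := fun _ => Bool) false
    (fun _ _ ih => Bool.rec (motive := fun _ => Bool) true false ih) st

/-- number of lanes; `st` = open arcs of the matching -/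
noncomputable def cn (l : List EA) : List EA → ℕ :=
  List.rec (motive := fun _ => List EA → ℕ)
    (fun st => List.rec (motive := fun _ => ℕ) 1
      (fun _ s _ => List.rec (motive := fun _ => ℕ) 1 (fun _ _ _ => 0) s) st)
    (fun a l ih st => Bool.rec (motive := fun _ => ℕ) 0
      (Nat.add (ih st) (Nat.add (List.rec (motive := fun _ => ℕ) 0 (fun _ s _ => ih s) st)
        (ih (a :: st))))
      (Nat.ble (Ev.llen st) (Nat.succ (Nat.succ (Ev.llen l))))) l

noncomputable def cw (a : EA) (β : Bool) : ℕ :=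
  Bool.rec (motive := fun _ => ℕ) (E.wF a.b) (E.wT a.b) β

/-- the word `w` is added to `n` lanes -/
noncomputable def blk (w n v : ℕ) : ℕ := Nat.lor v (Nat.mul (E.on n) w)

noncomputable def rv (la : EA) (l : List EA) : List EA → ℕ :=
  List.rec (motive := fun _ => List EA → ℕ)
    (fun st => List.rec (motive := fun _ => ℕ) 0
      (fun a s _ => List.rec (motive := fun _ => ℕ) (E.wJ a la) (fun _ _ _ => 0) s) st)
    (fun a l ih st => Bool.rec (motive := fun _ => ℕ) 0
      (Nat.lor (E.blk (E.cw a (par st)) (cn l st) (ih st))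
        (Nat.shiftLeft (List.rec (motive := fun _ => ℕ)
          (E.blk (E.cw a (par (a :: st))) (cn l (a :: st)) (ih (a :: st)))
          (fun b s _ => Nat.lor (E.blk (Nat.lor (E.wJ b a) (E.cw a (par s))) (cn l s) (ih s))
            (Nat.shiftLeft (E.blk (E.cw a (par (a :: st))) (cn l (a :: st)) (ih (a :: st)))
              (Nat.mul E.L (cn l s)))) st)
          (Nat.mul E.L (cn l st))))
      (Nat.ble (Ev.llen st) (Nat.succ (Nat.succ (Ev.llen l))))) l

/-- arcs without the last -/
noncomputable def ri (l : List EA) : List EA :=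
  List.rec (motive := fun _ => List EA) [] (fun a l ih =>
    List.rec (motive := fun _ => List EA) [] (fun _ _ _ => a :: ih) l) l

/-- the last arc -/
noncomputable def ls (l : List EA) : EA :=
  List.rec (motive := fun _ => EA) ⟨0, 0, 0, false, false, false, 0, 0⟩ (fun a l ih =>
    List.rec (motive := fun _ => EA) a (fun _ _ _ => ih) l) l

noncomputable def n0 : ℕ := cn (ri E.ars) []
noncomputable def RV : ℕ := E.blk (E.wF (ls E.ars).b) E.n0 (E.rv (ls E.ars) (ri E.ars) [])

/-! ### The search -/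

abbrev KE := ℕ → ℕ → ℕ → Bool

noncomputable def psT (w ξ aT : ℕ) : ℕ :=
  Nat.lor (Nat.shiftLeft aT E.L) (Nat.lor w (Nat.shiftLeft ξ E.xb))
noncomputable def psC (w aC : ℕ) : ℕ := Nat.lor (Nat.shiftLeft aC E.L) w

end EV

/-- strict application -/
noncomputable def Ev.str (x : ℕ) (k : ℕ → Bool) : Bool :=
  Nat.rec (motive := fun _ => Bool) (k 0) (fun n _ => k (Nat.succ n)) x

namespace EV

variable (G : EK)

noncomputable def tr (fuel : ℕ) : ℕ → KE → KE :=
  Nat.rec (motive := fun _ => ℕ → KE → KE) (fun _ _ _ _ _ => false)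
    (fun _ ih w k N aT aC =>
      Nat.rec (motive := fun _ => ℕ → ℕ → Bool)
        (fun ξ N => Bool.rec (motive := fun _ => Bool) (k N aT (E.psC w aC))
          (k N (E.psT w ξ aT) aC) (Nat.ble (Nat.succ ξ) (p2 E.x)))
        (fun n1 _ => Nat.rec (motive := fun _ => ℕ → ℕ → Bool)
          (fun d N => ih (Nat.lor w (E.tY d)) (ih (Nat.lor w (E.tN d)) k) N aT aC)
          (fun n2 _ => Nat.rec (motive := fun _ => ℕ → ℕ → Bool)
            (fun d N => ih (Nat.lor w (E.tN d)) k N aT (E.psC (Nat.lor w (E.tY d)) aC))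
            (fun _ _ d N => ih (Nat.lor w (E.tY d)) k N aT (E.psC (Nat.lor w (E.tN d)) aC)) n2) n1)
        (Nat.land N 3) (Nat.land (Nat.shiftRight N 2) (mo G.w)) (Nat.shiftRight N (Nat.add 2 G.w)))
    fuel

def cat (a b n : ℕ) : ℕ := Nat.lor (Nat.shiftLeft a (Nat.mul E.L n)) b

/-- the searches -/
noncomputable def lsts (V : ℕ) (k : ℕ → ℕ → ℕ → Bool) (n : ℕ) : ℕ → ℕ → ℕ → ℕ → Bool :=
  Nat.rec (motive := fun _ => ℕ → ℕ → ℕ → ℕ → Bool) (fun _ aT aC X => k aT aC X)
    (fun _ ih N aT aC X => str aT fun aT => str aC fun aC =>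
      (fun i nt nc => E.tr G 64 (Nat.land (Nat.shiftRight V (Nat.mul E.L i)) (mo E.L))
        (fun N bT bC => Bool.rec (motive := fun _ => Bool) false
          (Bool.rec (motive := fun _ => Bool) false
            (ih N (E.cat aT bT nt) (E.cat aC bC nc) (Nat.lor X (p2 i)))
            (Nat.beq (Nat.shiftRight bC (Nat.mul E.L nc)) 0))
            (Nat.beq (Nat.shiftRight bT (Nat.mul E.L nt)) 0))
        (Nat.shiftRight N (Nat.mul 3 G.v)) 0 0)
      (Nat.land N (mo G.v)) (Nat.land (Nat.shiftRight N G.v) (mo G.v))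
      (Nat.land (Nat.shiftRight N (Nat.mul 2 G.v)) (mo G.v))) n

/-! spread: `n` blocks of `nb` fields of `s` bits -/

def on' (s nb : ℕ) : ℕ := Nat.div (mo (Nat.mul (Nat.sub E.L s) nb)) (mo (Nat.sub E.L s))
def sp1 (s nb F : ℕ) : ℕ :=
  Nat.land (Nat.mul (E.on' s nb) (Nat.land F (mo (Nat.mul s nb)))) (Nat.mul (E.on nb) (mo s))
noncomputable def spr (s nb n : ℕ) : ℕ → ℕ :=
  Nat.rec (motive := fun _ => ℕ → ℕ) (fun _ => 0)
    (fun _ ih F => Nat.lor (E.sp1 s nb F)
      (Nat.shiftLeft (ih (Nat.shiftRight F (Nat.mul s nb))) (Nat.mul E.L nb))) n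

/-- all lanes of the test -/
noncomputable def AL (V aT : ℕ) : ℕ :=
  Nat.lor (Nat.shiftLeft aT (Nat.mul E.L E.n0)) (Nat.lor V (Nat.shiftLeft (Nat.land
      (E.spr E.x (Nat.sub (Nat.div E.L E.x) 1)
        (Nat.succ (Nat.div E.n0 (Nat.sub (Nat.div E.L E.x) 1))) G.XI)
      (Nat.mul (E.on E.n0) (mo E.x))) E.xb))

noncomputable def chkA (V aT aC X : ℕ) : Bool :=
  (fun n => Ev.band (Nat.ble n E.NB) (Ev.band (Nat.beq (Nat.shiftRight X E.n0) 0)
    (Ev.band (Nat.beq (Nat.shiftRight aT (Nat.mul E.L G.nt)) 0)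
    (Ev.band (Nat.beq (Nat.shiftRight aC (Nat.mul E.L G.nc)) 0) (Ev.band (Nat.ble G.nc E.NB)
      (Ev.band (str (E.on n) fun O => str (E.AL G V aT) fun A =>
        str (Nat.mul (E.spr 1 (Nat.sub E.L 1) (Nat.succ (Nat.div E.n0 (Nat.sub E.L 1))) X) (mo E.L))
        fun XM => Nat.beq (Nat.lor (E.badF O A (Nat.shiftRight G.XI (Nat.mul E.x E.n0))) XM) XM)
        (str (E.on G.nc) fun O => E.okC O aC)))))))
    (Nat.add E.n0 G.nt)

noncomputable def run : Bool := str E.RV fun V => E.lsts G V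
  (fun aT aC X => str aT fun aT => str aC fun aC => E.chkA G V aT aC X) G.nr G.N 0 0 0

end EV

end Pool.FC7
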