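import Pool.Agent.FC7.EvK

/-! # Vector checks: true words, the table, the search -/

set_option linter.unusedSectionVars false

namespace Pool.FC7

open Ev Pool.FC6

/-- the positions of the true statements -/
def EvTr (E : EV) (col : ℕ → Bool) (R : ℕ → ℕ → Prop) (Ac : ℕ → Prop) (p : ℕ) : Prop :=
  (∃ a < E.m, p = E.mb + a ∧ col a = true) ∨ (∃ a < E.m, p = E.mb + (E.m + a) ∧ col a = false) ∨
    (∃ r < E.q, ∃ c < E.q, p = E.q * r + c ∧ EvTP E.A E.z R Ac r c) ∨
    ∃ r < E.q, ∃ c < E.q, p = E.q * (E.q + r) + c ∧ EvTN E.A E.z R Ac r c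

/-- lane `i` of `W`: all positions are in `T` -/
def EvLtr (E : EV) (T : ℕ → Prop) (W i : ℕ) : Prop :=
  ∀ p < E.xb, W.testBit (E.L * i + p) = true → T p

namespace EV

variable {E : EV} {T : ℕ → Prop} {W i : ℕ}

theorem blk1_lt {r c : ℕ} (hr : r < E.q) (hc : c < E.q) : E.q * r + c < E.mb := by
  rw [mb_eq]
  have h1 : E.q * (r + 1) ≤ E.q * (2 * E.q) := Nat.mul_le_mul_left _ (by omega)
  rw [Nat.mul_add] at h1
  omega

theorem blk2_lt {r c : ℕ} (hr : r < E.q) (hc : c < E.q) : E.q * (E.q + r) + c < E.mb := by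
  rw [mb_eq]
  have h1 : E.q * (E.q + r + 1) ≤ E.q * (2 * E.q) := Nat.mul_le_mul_left _ (by omega)
  rw [Nat.mul_add] at h1
  omega

theorem tw_of {col : ℕ → Bool} {R : ℕ → ℕ → Prop} {Ac : ℕ → Prop} (h : EvLtr E (EvTr E col R Ac) W i) :
    EvTw E col R Ac W i := by
  have hxb := E.xb_eq
  refine ⟨fun a ha h1 => ?_, fun a ha h1 => ?_, fun r hr c hc h1 => ?_, fun r hr c hc h1 => ?_⟩
  · rcases h _ (by omega) h1 with ⟨b, hb, h2, h3⟩ | ⟨b, hb, h2, h3⟩ | ⟨r, hr, c, hc, h2, h3⟩ |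
      ⟨r, hr, c, hc, h2, h3⟩
    · have : a = b := by omega
      rw [this]; exact h3
    · omega
    · have := blk1_lt hr hc; omega
    · have := blk2_lt hr hc; omega
  · rcases h _ (by omega) h1 with ⟨b, hb, h2, h3⟩ | ⟨b, hb, h2, h3⟩ | ⟨r, hr, c, hc, h2, h3⟩ |
      ⟨r, hr, c, hc, h2, h3⟩
    · omega
    · have : a = b := by omega
      rw [this]; exact h3
    · have := blk1_lt hr hc; omega
    · have := blk2_lt hr hc; omega
  · have hlt := blk1_lt hr hc
    rcases h _ (by omega) h1 with ⟨b, hb, h2, h3⟩ | ⟨b, hb, h2, h3⟩ | ⟨r', hr', c', hc', h2, h3⟩ |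
      ⟨r', hr', c', hc', h2, h3⟩
    · omega
    · omega
    · obtain ⟨rfl, rfl⟩ := (idx_inj hc hc').1 h2
      exact h3
    · have := (idx_inj hc hc').1 h2
      omega
  · have hlt := blk2_lt hr hc
    rcases h _ (by omega) h1 with ⟨b, hb, h2, h3⟩ | ⟨b, hb, h2, h3⟩ | ⟨r', hr', c', hc', h2, h3⟩ |
      ⟨r', hr', c', hc', h2, h3⟩
    · omega
    · omega
    · have := (idx_inj hc hc').1 h2
      omega
    · obtain ⟨h4, rfl⟩ := (idx_inj hc hc').1 h2
      have h5 : r = r' := by omega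
      rw [h5]
      exact h3

/-! ### Words -/

/-- all positions of the word are in `T` -/
def Wd (T : ℕ → Prop) (w : ℕ) : Prop := ∀ p, w.testBit p = true → T p

theorem Wd.or {a b : ℕ} (ha : Wd T a) (hb : Wd T b) : Wd T (Nat.lor a b) := by
  intro p h
  rw [tb_lor, Bool.or_eq_true] at h
  exact h.elim (ha p) (hb p)

theorem Wd.zero : Wd T 0 := by
  intro p h
  rw [Nat.zero_testBit] at h
  cases h

theorem Wd.p2 {p : ℕ} (h : T p) : Wd T (p2 p) := by
  intro i hi
  rw [tb_p2, decide_eq_true_eq] at hi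
  rw [← hi]
  exact h

theorem wT_wd {a : ℕ} (h : T (E.mb + a)) : Wd T (E.wT a) := Wd.p2 h

theorem wF_wd {a : ℕ} (h : T (E.mb + (E.m + a))) : Wd T (E.wF a) := Wd.p2 h

theorem sy_wd {r c : ℕ} (h : T (E.q * r + c)) (h' : T (E.q * c + r)) : Wd T (E.sy r c) :=
  (Wd.p2 h).or (Wd.p2 h')

theorem sy2_wd {r c : ℕ} (h : T (E.q * (E.q + r) + c)) (h' : T (E.q * (E.q + c) + r)) :
    Wd T (E.sy2 r c) := (Wd.p2 h).or (Wd.p2 h')

variable {col : ℕ → Bool} {R : ℕ → ℕ → Prop} {Ac : ℕ → Prop}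

theorem tr_T {a : ℕ} (ha : a < E.m) (h : col a = true) : EvTr E col R Ac (E.mb + a) :=
  Or.inl ⟨a, ha, rfl, h⟩

theorem tr_F {a : ℕ} (ha : a < E.m) (h : col a = false) : EvTr E col R Ac (E.mb + (E.m + a)) :=
  Or.inr (Or.inl ⟨a, ha, rfl, h⟩)

theorem tr_1 {r c : ℕ} (hr : r < E.q) (hc : c < E.q) (h : EvTP E.A E.z R Ac r c) :
    EvTr E col R Ac (E.q * r + c) := Or.inr (Or.inr (Or.inl ⟨r, hr, c, hc, rfl, h⟩))

theorem tr_2 {r c : ℕ} (hr : r < E.q) (hc : c < E.q) (h : EvTN E.A E.z R Ac r c) :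
    EvTr E col R Ac (E.q * (E.q + r) + c) := Or.inr (Or.inr (Or.inr ⟨r, hr, c, hc, rfl, h⟩))

theorem wT_lt (w : E.Wf) {a : ℕ} (ha : a < E.m) : E.wT a < 2 ^ E.L := by
  have := w.hL
  rw [xb_eq] at this
  exact p2_lt (show E.mb + a < E.L by omega)

theorem wF_lt (w : E.Wf) {a : ℕ} (ha : a < E.m) : E.wF a < 2 ^ E.L := by
  have := w.hL
  rw [xb_eq] at this
  exact p2_lt (show E.mb + (E.m + a) < E.L by omega)

/-! ### The table -/

/-- lane `j` of `T` as a number -/
theorem lane_at {V j p : ℕ} : (Nat.land (Nat.shiftRight V (Nat.mul E.L j)) (mo E.L)).testBit p =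
    (V.testBit (E.L * j + p) && decide (p < E.L)) := by
  rw [tb_land, tb_shr, tb_mo]
  rfl

/-- every entry is a pair of words one of which is true -/
def TE (E : EV) (T : ℕ → Prop) (B : ℕ) : Prop := ∀ d, EvLtr E T B (2 * d) ∨ EvLtr E T B (2 * d + 1)

theorem TE.zero : TE E T 0 := by
  intro d
  left
  intro p _ h
  rw [Nat.zero_testBit] at h
  cases h

theorem ent_0 {y n B p : ℕ} (hp : p < E.L) : (E.ent y n B).testBit p = y.testBit p := by
  have e : ¬ Nat.mul 2 E.L ≤ p := by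
    show ¬ 2 * E.L ≤ p
    omega
  have e2 : ¬ E.L ≤ p := by omega
  unfold ent
  rw [tb_lor, tb_lor, tb_shl, tb_shl, decide_eq_false e, decide_eq_false e2]
  simp

theorem ent_1 {y n B p : ℕ} (hy : y < 2 ^ E.L) (hp : p < E.L) :
    (E.ent y n B).testBit (E.L + p) = n.testBit p := by
  have e : ¬ Nat.mul 2 E.L ≤ E.L + p := by
    show ¬ 2 * E.L ≤ E.L + p
    omega
  have e3 : y.testBit (E.L + p) = false := by
    by_contra h
    rw [Bool.not_eq_false] at h
    have := tb_of_lt hy h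
    omega
  unfold ent
  rw [tb_lor, tb_lor, tb_shl, tb_shl, decide_eq_false e, e3, Nat.add_sub_cancel_left]
  simp

theorem ent_2 {y n B p : ℕ} (hy : y < 2 ^ E.L) (hn : n < 2 ^ E.L) :
    (E.ent y n B).testBit (2 * E.L + p) = B.testBit p := by
  have e : Nat.mul 2 E.L ≤ 2 * E.L + p := Nat.le_add_right _ _
  have e1 : y.testBit (2 * E.L + p) = false := by
    by_contra h
    rw [Bool.not_eq_false] at h
    have := tb_of_lt hy h
    omega
  have e2 : n.testBit (2 * E.L + p - E.L) = false := by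
    by_contra h
    rw [Bool.not_eq_false] at h
    have := tb_of_lt hn h
    omega
  have e4 : 2 * E.L + p - Nat.mul 2 E.L = p := Nat.add_sub_cancel_left _ _
  unfold ent
  rw [tb_lor, tb_lor, tb_shl, tb_shl, decide_eq_true e, e1, e2, e4]
  simp

theorem TE.ent (w : E.Wf) {y n B : ℕ} (h : TE E T B) (hy : y < 2 ^ E.L) (hn : n < 2 ^ E.L)
    (hT : Wd T y ∨ Wd T n) : TE E T (E.ent y n B) := by
  have hL := w.hL
  intro d
  rcases d with - | d
  · rcases hT with hT | hT
    · left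
      intro p hp h1
      rw [mul_zero, mul_zero, zero_add, ent_0 (by omega)] at h1
      exact hT p h1
    · right
      intro p hp h1
      rw [mul_zero, zero_add, mul_one, ent_1 hy (by omega)] at h1
      exact hT p h1
  · rcases h d with h1 | h1
    · left
      intro p hp h2
      have e : E.L * (2 * (d + 1)) + p = 2 * E.L + (E.L * (2 * d) + p) := by ring
      rw [e, ent_2 hy hn] at h2
      exact h1 p hp h2
    · right
      intro p hp h2
      have e : E.L * (2 * (d + 1) + 1) + p = 2 * E.L + (E.L * (2 * d + 1) + p) := by ring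
      rw [e, ent_2 hy hn] at h2
      exact h1 p hp h2

section
variable (w : E.Wf) (hR : ∀ a b, R a b → R b a)
include w hR

theorem wJ_te {a b : EA} (ha : a.t < E.A) (hb : b.t < E.A) {B : ℕ} (h : TE E (EvTr E col R Ac) B) :
    TE E (EvTr E col R Ac) (E.ent (E.wJ a b) (E.wN a b) B) := by
  have hA := w.hA
  obtain ⟨hz1, hz2, hz3⟩ := w.zg
  refine h.ent w (w.sy_lt (by omega) (by omega)) (w.sy2_lt (by omega) (by omega)) ?_
  by_cases h1 : R a.t b.t
  · exact Or.inl (sy_wd (tr_1 (by omega) (by omega) (Or.inl ⟨ha, hb, h1⟩))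
      (tr_1 (by omega) (by omega) (Or.inl ⟨hb, ha, hR _ _ h1⟩)))
  · exact Or.inr (sy2_wd (tr_2 (by omega) (by omega) (Or.inl ⟨ha, hb, h1⟩))
      (tr_2 (by omega) (by omega) (Or.inl ⟨hb, ha, fun h => h1 (hR _ _ h)⟩)))

theorem wA_te {a : EA} (ha : a.t < E.A) {B : ℕ} (h : TE E (EvTr E col R Ac) B) :
    TE E (EvTr E col R Ac) (E.ent (E.wA a) (E.wI a) B) := by
  have hA := w.hA
  obtain ⟨hz1, hz2, hz3⟩ := w.zg
  refine h.ent w (w.sy_lt (by omega) (by omega)) (w.sy2_lt (by omega) (by omega)) ?_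
  by_cases h1 : Ac a.t
  · exact Or.inl (sy_wd (tr_1 (by omega) (by omega) (Or.inr (Or.inl ⟨ha, rfl, h1⟩)))
      (tr_1 (by omega) (by omega) (Or.inr (Or.inr ⟨rfl, ha, h1⟩))))
  · exact Or.inr (sy2_wd (tr_2 (by omega) (by omega) (Or.inr (Or.inl ⟨ha, rfl, h1⟩)))
      (tr_2 (by omega) (by omega) (Or.inr (Or.inr ⟨rfl, ha, h1⟩))))

theorem wC_te {a : ℕ} (ha : a < E.m) {B : ℕ} (h : TE E (EvTr E col R Ac) B) :
    TE E (EvTr E col R Ac) (E.ent (E.wT a) (E.wF a) B) := by
  refine h.ent w (wT_lt w ha) (wF_lt w ha) ?_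
  cases h1 : col a
  · exact Or.inr (wF_wd (tr_F ha h1))
  · exact Or.inl (wT_wd (tr_T ha h1))

theorem tab_te : TE E (EvTr E col R Ac) E.tab := by
  have h1 : ∀ (l : List EA) (a : EA) (B : ℕ), (∀ b ∈ a :: l, b.t < E.A) → TE E (EvTr E col R Ac) B →
      TE E (EvTr E col R Ac) (fo l (fun b acc => E.ent (E.wJ a b) (E.wN a b) acc) B) := by
    intro l a B
    induction l with
    | nil => exact fun _ h => h
    | cons b l ih =>
      intro hl h
      exact wJ_te w hR (hl a (by simp)) (hl b (by simp))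
        (ih (fun c hc => hl c (by
          rcases List.mem_cons.1 hc with rfl | hc
          · simp
          · simp [hc])) h)
  have h2 : ∀ (l : List EA), (∀ b ∈ l, b.t < E.A) →
      TE E (EvTr E col R Ac) (List.rec (motive := fun _ => ℕ) 0
        (fun a l ih => fo l (fun b acc => E.ent (E.wJ a b) (E.wN a b) acc) ih) l) := by
    intro l
    induction l with
    | nil => exact fun _ => TE.zero
    | cons b l ih =>
      intro hl
      exact h1 l b _ hl (ih fun c hc => hl c (by simp [hc]))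
  have h3 : ∀ (l : List EA) (B : ℕ), (∀ b ∈ l, b.t < E.A) → TE E (EvTr E col R Ac) B →
      TE E (EvTr E col R Ac) (fo l (fun a acc => E.ent (E.wA a) (E.wI a) acc) B) := by
    intro l B
    induction l with
    | nil => exact fun _ h => h
    | cons b l ih =>
      intro hl h
      exact wA_te w hR (hl b (by simp)) (ih (fun c hc => hl c (by simp [hc])) h)
  have h4 : ∀ (n B : ℕ), E.lo + n ≤ E.m → TE E (EvTr E col R Ac) B →
      TE E (EvTr E col R Ac) (Nat.rec (motive := fun _ => ℕ → ℕ) (fun acc => acc)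
        (fun a ih acc => ih (E.ent (E.wT (Nat.add E.lo a)) (E.wF (Nat.add E.lo a)) acc)) n B) := by
    intro n
    induction n with
    | zero => exact fun B _ h => h
    | succ n ih =>
      intro B hn h
      exact ih _ (by omega) (wC_te w hR (show E.lo + n < E.m by omega) h)
  have ht : ∀ b ∈ E.ars, b.t < E.A := fun b hb => (w.ars b hb).1
  unfold tab
  have hxm := w.xm
  by_cases hlo : E.lo ≤ E.x
  · exact h4 _ _ (by show E.lo + (E.x - E.lo) ≤ E.m; omega) (h3 _ _ ht (h2 _ ht))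
  · have e : Nat.sub E.x E.lo = 0 := by
      show E.x - E.lo = 0
      omega
    rw [e]
    exact h3 _ _ ht (h2 _ ht)

end

theorem tY_at {d p : ℕ} : (E.tY d).testBit p = (E.tab.testBit (E.L * (2 * d) + p) && decide (p < E.L)) := by
  unfold tY
  rw [tb_land, tb_shr, tb_mo]
  congr 2
  show 2 * E.L * d + p = _
  ring

theorem tN_at {d p : ℕ} : (E.tN d).testBit p =
    (E.tab.testBit (E.L * (2 * d + 1) + p) && decide (p < E.L)) := by
  unfold tN
  rw [tb_land, tb_shr, tb_mo]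
  congr 2
  show 2 * E.L * d + E.L + p = _
  ring

/-- the word is true on the positions of the lane -/
def Lw (E : EV) (T : ℕ → Prop) (v : ℕ) : Prop := ∀ p < E.xb, v.testBit p = true → T p

theorem Lw.or {a b : ℕ} (ha : Lw E T a) (hb : Lw E T b) : Lw E T (Nat.lor a b) := by
  intro p hp h
  rw [tb_lor, Bool.or_eq_true] at h
  exact h.elim (ha p hp) (hb p hp)

theorem TE.yn (h : TE E T E.tab) (d : ℕ) : Lw E T (E.tY d) ∨ Lw E T (E.tN d) := by
  rcases h d with h1 | h1
  · left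
    intro p hp h2
    rw [tY_at, Bool.and_eq_true] at h2
    exact h1 p hp h2.1
  · right
    intro p hp h2
    rw [tN_at, Bool.and_eq_true] at h2
    exact h1 p hp h2.1

theorem tY_lt {d : ℕ} : E.tY d < 2 ^ E.L := land_mo
theorem tN_lt {d : ℕ} : E.tN d < 2 ^ E.L := land_mo

/-! ### The search -/

/-- the flag of a lane: the colour of the first ring label -/
def pf (E : EV) : ℕ := E.mb + (E.m + E.x)

/-- there is a true lane -/
def Ht (E : EV) (T : ℕ → Prop) (B : ℕ) : Prop :=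
  ∃ j, B.testBit (E.L * j + E.pf) = true ∧ EvLtr E T B j

theorem pf_lt (w : E.Wf) (hx : E.x < E.m) : E.pf < E.L := by
  have := w.hL
  rw [xb_eq] at this
  unfold pf
  omega

theorem shl_add {B v j p : ℕ} (hv : v < 2 ^ E.L) :
    (Nat.lor (Nat.shiftLeft B E.L) v).testBit (E.L * (j + 1) + p) = B.testBit (E.L * j + p) := by
  have e : E.L ≤ E.L * (j + 1) + p := by
    rw [Nat.mul_add]
    omega
  have e1 : v.testBit (E.L * (j + 1) + p) = false := by
    by_contra h
    rw [Bool.not_eq_false] at h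
    have := tb_of_lt hv h
    omega
  have e2 : E.L * (j + 1) + p - E.L = E.L * j + p := by
    rw [Nat.mul_add]
    omega
  rw [tb_lor, tb_shl, decide_eq_true e, e1, e2]
  simp

theorem shl_low {B v p : ℕ} (hp : p < E.L) :
    (Nat.lor (Nat.shiftLeft B E.L) v).testBit (E.L * 0 + p) = v.testBit p := by
  have e : ¬ E.L ≤ p := by omega
  rw [mul_zero, zero_add, tb_lor, tb_shl, decide_eq_false e]
  simp

theorem Ht.shl {B v : ℕ} (hv : v < 2 ^ E.L) (h : Ht E T B) : Ht E T (Nat.lor (Nat.shiftLeft B E.L) v) := by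
  obtain ⟨j, h1, h2⟩ := h
  refine ⟨j + 1, ?_, fun p hp h3 => ?_⟩
  · rw [shl_add hv]
    exact h1
  · rw [shl_add hv] at h3
    exact h2 p hp h3

theorem Ht.new (w : E.Wf) (hx : E.x < E.m) {B v : ℕ} (hf : v.testBit E.pf = true) (hw : Lw E T v) :
    Ht E T (Nat.lor (Nat.shiftLeft B E.L) v) := by
  have hL := w.hL
  refine ⟨0, ?_, fun p hp h3 => ?_⟩
  · rw [shl_low (pf_lt w hx)]
    exact hf
  · rw [shl_low (by omega)] at h3
    exact hw p hp h3

theorem psT_v (w : E.Wf) {v ξ : ℕ} (hv : v < 2 ^ E.L) (hξ : ξ < 2 ^ E.x) :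
    Nat.lor v (Nat.shiftLeft ξ E.xb) < 2 ^ E.L := by
  have hL := w.hL
  refine lor_lt hv (lt_of_tb fun i h => ?_)
  rw [tb_shl, Bool.and_eq_true, decide_eq_true_eq] at h
  have := tb_of_lt hξ h.2
  omega

theorem psT_w {v ξ : ℕ} (hw : Lw E T v) : Lw E T (Nat.lor v (Nat.shiftLeft ξ E.xb)) := by
  intro p hp h
  have e : ¬ E.xb ≤ p := by omega
  rw [tb_lor, tb_shl, decide_eq_false e, Bool.false_and, Bool.or_false] at h
  exact hw p hp h

theorem str_eq {x : ℕ} {k : ℕ → Bool} : str x k = k x := by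
  unfold str
  cases x <;> rfl

variable {G : EK}

/-- the search is exhaustive -/
theorem tr_ok (w : E.Wf) (hx : E.x < E.m) (ht : TE E T E.tab) : ∀ (fuel v : ℕ) (k : KE) (N aT aC : ℕ),
    v < 2 ^ E.L → E.tr G fuel v k N aT aC = true →
    ∃ N' bT bC, k N' bT bC = true ∧ (Ht E T aT → Ht E T bT) ∧ (Ht E T aC → Ht E T bC) ∧
      (v.testBit E.pf = true → Lw E T v → Ht E T bT ∨ Ht E T bC) := by
  intro fuel
  induction fuel with
  | zero => intro v k N aT aC _ h; cases h
  | succ fuel ih =>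
    intro v k N aT aC hv h
    have flg : ∀ y, v.testBit E.pf = true → (Nat.lor v y).testBit E.pf = true := by
      intro y hy
      rw [tb_lor, hy]
      rfl
    change (Nat.rec (motive := fun _ => ℕ → ℕ → Bool)
        (fun ξ N => Bool.rec (motive := fun _ => Bool) (k N aT (E.psC v aC))
          (k N (E.psT v ξ aT) aC) (Nat.ble (Nat.succ ξ) (Ev.p2 E.x)))
        (fun n1 _ => Nat.rec (motive := fun _ => ℕ → ℕ → Bool)
          (fun d N => E.tr G fuel (Nat.lor v (E.tY d)) (E.tr G fuel (Nat.lor v (E.tN d)) k) N aT aC)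
          (fun n2 _ => Nat.rec (motive := fun _ => ℕ → ℕ → Bool)
            (fun d N => E.tr G fuel (Nat.lor v (E.tN d)) k N aT (E.psC (Nat.lor v (E.tY d)) aC))
            (fun _ _ d N => E.tr G fuel (Nat.lor v (E.tY d)) k N aT (E.psC (Nat.lor v (E.tN d)) aC)) n2) n1)
        (Nat.land N 3) (Nat.land (Nat.shiftRight N 2) (mo G.w)) (Nat.shiftRight N (Nat.add 2 G.w))) = true at h
    generalize Nat.land (Nat.shiftRight N 2) (mo G.w) = d at h
    generalize Nat.shiftRight N (Nat.add 2 G.w) = N1 at h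
    generalize Nat.land N 3 = c at h
    rcases c with - | c
    · replace h : Bool.rec (motive := fun _ => Bool) (k N1 aT (E.psC v aC))
          (k N1 (E.psT v d aT) aC) (Nat.ble (Nat.succ d) (Ev.p2 E.x)) = true := h
      cases hb : Nat.ble (Nat.succ d) (Ev.p2 E.x)
      · rw [hb] at h
        exact ⟨N1, aT, E.psC v aC, h, id, fun h1 => h1.shl hv, fun h1 h2 => Or.inr (Ht.new w hx h1 h2)⟩
      · rw [hb] at h
        have hd : d < 2 ^ E.x := ble_iff.1 hb
        exact ⟨N1, E.psT v d aT, aC, h, fun h1 => h1.shl (psT_v w hv hd), id, fun h1 h2 =>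
          Or.inl (Ht.new w hx (flg _ h1) (psT_w h2))⟩
    rcases c with - | c
    · obtain ⟨N2, bT, bC, h1, h2, h3, h4⟩ := ih _ _ _ _ _ (lor_lt hv tY_lt) h
      obtain ⟨N3, cT, cC, g1, g2, g3, g4⟩ := ih _ _ _ _ _ (lor_lt hv tN_lt) h1
      refine ⟨N3, cT, cC, g1, fun h => g2 (h2 h), fun h => g3 (h3 h), fun h5 h6 => ?_⟩
      rcases ht.yn d with h7 | h7
      · exact (h4 (flg _ h5) (h6.or h7)).imp g2 g3
      · exact g4 (flg _ h5) (h6.or h7)
    rcases c with - | c
    · obtain ⟨N2, bT, bC, h1, h2, h3, h4⟩ := ih _ _ _ _ _ (lor_lt hv tN_lt) h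
      refine ⟨N2, bT, bC, h1, h2, fun h => h3 (h.shl (lor_lt hv tY_lt)), fun h5 h6 => ?_⟩
      rcases ht.yn d with h7 | h7
      · exact Or.inr (h3 (Ht.new w hx (flg _ h5) (h6.or h7)))
      · exact h4 (flg _ h5) (h6.or h7)
    · obtain ⟨N2, bT, bC, h1, h2, h3, h4⟩ := ih _ _ _ _ _ (lor_lt hv tY_lt) h
      refine ⟨N2, bT, bC, h1, h2, fun h => h3 (h.shl (lor_lt hv tN_lt)), fun h5 h6 => ?_⟩
      rcases ht.yn d with h7 | h7
      · exact h4 (flg _ h5) (h6.or h7)
      · exact Or.inr (h3 (Ht.new w hx (flg _ h5) (h6.or h7)))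

theorem cat_low {a b n p : ℕ} (hp : p < E.L * n) : (E.cat a b n).testBit p = b.testBit p := by
  have e : ¬ Nat.mul E.L n ≤ p := by
    show ¬ E.L * n ≤ p
    omega
  unfold cat
  rw [tb_lor, tb_shl, decide_eq_false e]
  simp

theorem cat_high {a b n p : ℕ} (hb : Nat.shiftRight b (Nat.mul E.L n) = 0) :
    (E.cat a b n).testBit (E.L * n + p) = a.testBit p := by
  have e : Nat.mul E.L n ≤ E.L * n + p := Nat.le_add_right _ _
  have e1 : b.testBit (E.L * n + p) = false := by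
    have h1 : (Nat.shiftRight b (Nat.mul E.L n)).testBit p = b.testBit (E.L * n + p) := tb_shr
    rw [hb, Nat.zero_testBit] at h1
    exact h1.symm
  have e4 : E.L * n + p - Nat.mul E.L n = p := Nat.add_sub_cancel_left _ _
  unfold cat
  rw [tb_lor, tb_shl, decide_eq_true e, e1, e4]
  simp

theorem lane_lt {j n p : ℕ} (hj : j < n) (hp : p < E.L) : E.L * j + p < E.L * n := by
  have h1 : E.L * (j + 1) ≤ E.L * n := Nat.mul_le_mul_left _ hj
  rw [Nat.mul_add] at h1
  omega

/-- lanes beyond `n` are empty -/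
theorem Ht.lt {B n : ℕ} (hb : Nat.shiftRight B (Nat.mul E.L n) = 0) (h : Ht E T B) :
    ∃ j < n, B.testBit (E.L * j + E.pf) = true ∧ EvLtr E T B j := by
  obtain ⟨j, h1, h2⟩ := h
  refine ⟨j, ?_, h1, h2⟩
  by_contra hc
  have h3 : E.L * n ≤ E.L * j := Nat.mul_le_mul_left _ (by omega)
  have h4 : (Nat.shiftRight B (Nat.mul E.L n)).testBit (E.L * j + E.pf - E.L * n) =
      B.testBit (E.L * n + (E.L * j + E.pf - E.L * n)) := tb_shr
  have e : E.L * n + (E.L * j + E.pf - E.L * n) = E.L * j + E.pf := by omega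
  rw [hb, Nat.zero_testBit, e, h1] at h4
  cases h4

theorem Ht.cat_a {a b n : ℕ} (hb : Nat.shiftRight b (Nat.mul E.L n) = 0) (h : Ht E T a) :
    Ht E T (E.cat a b n) := by
  obtain ⟨j, h1, h2⟩ := h
  have e : ∀ p, E.L * (n + j) + p = E.L * n + (E.L * j + p) := fun p => by ring
  refine ⟨n + j, ?_, fun p hp h3 => ?_⟩
  · rw [e, cat_high hb]
    exact h1
  · rw [e, cat_high hb] at h3
    exact h2 p hp h3

theorem Ht.cat_b (w : E.Wf) (hx : E.x < E.m) {a b n : ℕ} (hb : Nat.shiftRight b (Nat.mul E.L n) = 0)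
    (h : Ht E T b) : Ht E T (E.cat a b n) := by
  have hL := w.hL
  obtain ⟨j, h0, h1, h2⟩ := h.lt hb
  refine ⟨j, ?_, fun p hp h3 => ?_⟩
  · rw [cat_low (lane_lt h0 (pf_lt w hx))]
    exact h1
  · rw [cat_low (lane_lt h0 (by omega))] at h3
    exact h2 p hp h3

/-- the searches for the lanes of the ring -/
theorem lsts_ok (w : E.Wf) (hx : E.x < E.m) (ht : TE E T E.tab) {V : ℕ} {k : ℕ → ℕ → ℕ → Bool} :
    ∀ (n N aT aC X : ℕ), E.lsts G V k n N aT aC X = true →
    ∃ bT bC Y, k bT bC Y = true ∧ (Ht E T aT → Ht E T bT) ∧ (Ht E T aC → Ht E T bC) ∧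
      ∀ i, Y.testBit i = true → X.testBit i = true ∨ (V.testBit (E.L * i + E.pf) = true →
        EvLtr E T V i → Ht E T bT ∨ Ht E T bC) := by
  intro n
  induction n with
  | zero => intro N aT aC X h; exact ⟨aT, aC, X, h, id, id, fun i hi => Or.inl hi⟩
  | succ n ih =>
    intro N aT aC X h
    change (str aT fun aT => str aC fun aC =>
      (fun i nt nc => E.tr G 64 (Nat.land (Nat.shiftRight V (Nat.mul E.L i)) (mo E.L))
        (fun N bT bC => Bool.rec (motive := fun _ => Bool) false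
          (Bool.rec (motive := fun _ => Bool) false
            (E.lsts G V k n N (E.cat aT bT nt) (E.cat aC bC nc) (Nat.lor X (Ev.p2 i)))
            (Nat.beq (Nat.shiftRight bC (Nat.mul E.L nc)) 0))
            (Nat.beq (Nat.shiftRight bT (Nat.mul E.L nt)) 0))
        (Nat.shiftRight N (Nat.mul 3 G.v)) 0 0)
      (Nat.land N (mo G.v)) (Nat.land (Nat.shiftRight N G.v) (mo G.v))
      (Nat.land (Nat.shiftRight N (Nat.mul 2 G.v)) (mo G.v))) = true at h
    rw [str_eq, str_eq] at h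
    generalize Nat.land N (mo G.v) = i at h
    generalize Nat.land (Nat.shiftRight N G.v) (mo G.v) = nt at h
    generalize Nat.land (Nat.shiftRight N (Nat.mul 2 G.v)) (mo G.v) = nc at h
    obtain ⟨N', bT, bC, h1, -, -, h4⟩ := tr_ok w hx ht _ _ _ _ _ _ land_mo h
    rcases bif_true h1 with ⟨e1, h1⟩ | ⟨-, h1⟩
    swap
    · cases h1
    rcases bif_true h1 with ⟨e2, h1⟩ | ⟨-, h1⟩
    swap
    · cases h1
    replace e1 := beq_true.1 e1
    replace e2 := beq_true.1 e2
    obtain ⟨cT, cC, Y, g1, g2, g3, g4⟩ := ih _ _ _ _ h1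
    refine ⟨cT, cC, Y, g1, fun h => g2 (h.cat_a e1), fun h => g3 (h.cat_a e2), fun j hj => ?_⟩
    rcases g4 j hj with h5 | h5
    · rw [tb_lor, Bool.or_eq_true, tb_p2, decide_eq_true_eq] at h5
      rcases h5 with h5 | rfl
      · exact Or.inl h5
      · right
        intro h6 h7
        have h8 := h4 (by rw [lane_at, h6, decide_eq_true (pf_lt w hx)]; rfl) (by
          intro p hp h9
          rw [lane_at, Bool.and_eq_true] at h9
          exact h7 p hp h9.1)
        exact h8.imp (fun h => g2 (h.cat_b w hx e1)) (fun h => g3 (h.cat_b w hx e2))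
    · exact Or.inr h5

end EV

end Pool.FC7
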