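import Pool.Agent.FC7.EvL

/-! # Vector checks: the final test of all lanes -/

set_option linter.unusedSectionVars false

namespace Pool.FC7

open Ev Pool.FC6

namespace EV

variable {E : EV} {T : ℕ → Prop} {G : EK}

theorem on_eq (w : E.Wf) {n : ℕ} : E.on n = Ks E.L (min n E.NB) := by
  have h1 : E.OB = Ks E.L E.NB := div_mo w.Lp
  unfold on
  rw [h1]
  rcases le_or_gt n E.NB with h | h
  · rw [Nat.min_eq_left h]
    exact shr_Ks w.Lp h
  · rw [Nat.min_eq_right h.le]
    have e : Nat.sub E.NB n = 0 := by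
      show E.NB - n = 0
      omega
    rw [e]
    rfl

theorem on_eq' (w : E.Wf) {n : ℕ} (h : n ≤ E.NB) : E.on n = Ks E.L n := by
  rw [on_eq w, Nat.min_eq_left h]

theorem on_mul (w : E.Wf) {n v t u : ℕ} (hv : v < 2 ^ E.L) (hu : u < E.L) :
    (Nat.mul (E.on n) v).testBit (E.L * t + u) = (decide (t < min n E.NB) && v.testBit u) := by
  rw [on_eq w, mul_at (Ks_spr w.Lp) hv hu]
  have := Ks_at (q := E.L) (n := min n E.NB) (i := t) (p := 0) w.Lp
  rw [add_zero] at this
  rw [this]
  simp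

theorem on_pos (w : E.Wf) {n v p : ℕ} (hv : v < 2 ^ E.L) (h : (Nat.mul (E.on n) v).testBit p = true) :
    p / E.L < n ∧ v.testBit (p % E.L) = true := by
  have e : p = E.L * (p / E.L) + p % E.L := (Nat.div_add_mod _ _).symm
  rw [e, on_mul w hv (Nat.mod_lt _ w.Lp), Bool.and_eq_true, decide_eq_true_eq] at h
  exact ⟨by omega, h.2⟩

theorem sp1_at (w : E.Wf) (hL : 1 < E.L) {nb F t u : ℕ} (hn : nb ≤ E.L - 1) (hu : u < E.L)
    (h : (E.sp1 1 nb F).testBit (E.L * t + u) = true) : u = 0 ∧ t < nb ∧ F.testBit t = true := by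
  unfold sp1 at h
  rw [tb_land, Bool.and_eq_true] at h
  obtain ⟨h1, h2⟩ := h
  have hm1 : mo 1 < 2 ^ E.L := mo_le (by omega)
  rw [on_mul w hm1 hu, tb_mo, Bool.and_eq_true, decide_eq_true_eq, decide_eq_true_eq] at h2
  have hu0 : u = 0 := by omega
  subst hu0
  have ht : t < nb := by omega
  have e1 : E.on' 1 nb = Ks (E.L - 1) nb := by
    unfold on'
    exact div_mo (q := E.L - 1) (by omega)
  have e2 : E.L * t + 0 = (E.L - 1) * t + t := by
    rw [Nat.sub_mul, one_mul]
    have : t ≤ E.L * t := Nat.le_mul_of_pos_left _ w.Lp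
    omega
  rw [e1, e2, mul_at (Ks_spr (by omega)) (lt_of_lt_of_le land_mo (Nat.pow_le_pow_right (by norm_num)
    (by show 1 * nb ≤ _; omega))) (by omega), Bool.and_eq_true, tb_land, Bool.and_eq_true] at h1
  exact ⟨rfl, ht, h1.2.1⟩

theorem spr_at (w : E.Wf) (hL : 1 < E.L) {nb : ℕ} (hn : nb ≤ E.L - 1) : ∀ (n F t u : ℕ), u < E.L →
    (E.spr 1 nb n F).testBit (E.L * t + u) = true → u = 0 ∧ F.testBit t = true := by
  intro n
  induction n with
  | zero =>
    intro F t u _ h
    change (0 : ℕ).testBit _ = true at h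
    rw [Nat.zero_testBit] at h
    cases h
  | succ n ih =>
    intro F t u hu h
    change (Nat.lor (E.sp1 1 nb F) (Nat.shiftLeft (E.spr 1 nb n (Nat.shiftRight F (Nat.mul 1 nb)))
      (Nat.mul E.L nb))).testBit _ = true at h
    rw [tb_lor, Bool.or_eq_true, tb_shl, Bool.and_eq_true, decide_eq_true_eq] at h
    rcases h with h | ⟨h1, h2⟩
    · obtain ⟨h3, -, h4⟩ := sp1_at w hL hn hu h
      exact ⟨h3, h4⟩
    · replace h1 : E.L * nb ≤ E.L * t + u := h1
      have h3 : nb ≤ t := by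
        by_contra hc
        have := lane_lt (E := E) (show t < nb by omega) hu
        omega
      have e : E.L * t + u - Nat.mul E.L nb = E.L * (t - nb) + u := by
        show E.L * t + u - E.L * nb = _
        rw [Nat.mul_sub]
        have : E.L * nb ≤ E.L * t := Nat.mul_le_mul_left _ h3
        omega
      rw [e] at h2
      obtain ⟨h4, h5⟩ := ih _ _ _ hu h2
      rw [tb_shr] at h5
      have e2 : Nat.mul 1 nb + (t - nb) = t := by
        show 1 * nb + (t - nb) = t
        omega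
      rw [e2] at h5
      exact ⟨h4, h5⟩

theorem XM_at (w : E.Wf) (hL : 1 < E.L) {n F i p : ℕ} (hp : p < E.L)
    (h : (Nat.mul (E.spr 1 (Nat.sub E.L 1) n F) (mo E.L)).testBit (E.L * i + p) = true) :
    F.testBit i = true := by
  have hs : Spr E.L (E.spr 1 (Nat.sub E.L 1) n F) := by
    intro j hj
    have e : j = E.L * (j / E.L) + j % E.L := (Nat.div_add_mod _ _).symm
    rw [e] at hj
    have := spr_at w hL (le_refl _) _ _ _ _ (Nat.mod_lt _ w.Lp) hj
    exact Nat.dvd_of_mod_eq_zero this.1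
  rw [mul_at hs mo_lt hp, Bool.and_eq_true] at h
  have h1 := h.1
  rw [← add_zero (E.L * i)] at h1
  exact (spr_at w hL (le_refl _) _ _ _ _ w.Lp h1).2

/-- the positions of the colours `ξ` -/
theorem msk_pos (w : E.Wf) {n Z p : ℕ}
    (h : (Nat.shiftLeft (Nat.land Z (Nat.mul (E.on n) (mo E.x))) E.xb).testBit p = true) :
    ∃ t < n, ∃ u < E.x, p = E.L * t + (E.xb + u) := by
  have hL := w.hL
  rw [tb_shl, Bool.and_eq_true, decide_eq_true_eq, tb_land, Bool.and_eq_true] at h
  obtain ⟨h1, -, h2⟩ := h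
  obtain ⟨h3, h4⟩ := on_pos w (mo_le (by omega)) h2
  rw [tb_mo, decide_eq_true_eq] at h4
  refine ⟨_, h3, _, h4, ?_⟩
  have := Nat.div_add_mod (p - E.xb) E.L
  omega

theorem AL_low (w : E.Wf) {V aT i p : ℕ} (hi : i < E.n0) (hp : p < E.xb)
    (h : (E.AL G V aT).testBit (E.L * i + p) = true) : V.testBit (E.L * i + p) = true := by
  have hL := w.hL
  unfold AL at h
  rw [tb_lor, tb_lor, Bool.or_eq_true, Bool.or_eq_true] at h
  rcases h with h | h | h
  · rw [tb_shl, Bool.and_eq_true, decide_eq_true_eq] at h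
    have h1 : E.L * E.n0 ≤ E.L * i + p := h.1
    have := lane_lt (E := E) hi (show p < E.L by omega)
    omega
  · exact h
  · obtain ⟨t, ht, u, hu, e⟩ := msk_pos w h
    have := (idx_inj (q := E.L) (by omega) (by omega)).1 e
    omega

theorem AL_high (w : E.Wf) {V aT j p : ℕ} (hV : V < 2 ^ (E.L * E.n0))
    (h : (E.AL G V aT).testBit (E.L * (E.n0 + j) + p) = true) : aT.testBit (E.L * j + p) = true := by
  have hL := w.hL
  have e : E.L * (E.n0 + j) + p = E.L * E.n0 + (E.L * j + p) := by ring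
  rw [e] at h
  unfold AL at h
  rw [tb_lor, tb_lor, Bool.or_eq_true, Bool.or_eq_true] at h
  rcases h with h | h | h
  · rw [tb_shl, Bool.and_eq_true, decide_eq_true_eq] at h
    have e4 : E.L * E.n0 + (E.L * j + p) - Nat.mul E.L E.n0 = E.L * j + p := Nat.add_sub_cancel_left _ _
    rw [e4] at h
    exact h.2
  · have := tb_of_lt hV h
    omega
  · obtain ⟨t, ht, u, hu, e⟩ := msk_pos w h
    have := lane_lt (E := E) ht (show E.xb + u < E.L by omega)
    omega

/-- the facts of the final check -/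
structure CA (E : EV) (G : EK) (V aT aC X : ℕ) : Prop where
  n : E.n0 + G.nt ≤ E.NB
  x : Nat.shiftRight X E.n0 = 0
  t : Nat.shiftRight aT (Nat.mul E.L G.nt) = 0
  c : Nat.shiftRight aC (Nat.mul E.L G.nc) = 0
  bad : ∀ i p, p < E.L → X.testBit i = false →
    (E.badF (Ks E.L (E.n0 + G.nt)) (E.AL G V aT) (Nat.shiftRight G.XI (Nat.mul E.x E.n0))).testBit
      (E.L * i + p) = false
  ok : E.okC (Ks E.L G.nc) aC = true

theorem band_true {a b : Bool} (h : Ev.band a b = true) : a = true ∧ b = true := by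
  rw [Ev.band_eq] at h
  simpa using h

theorem ca_of (w : E.Wf) (hL : 1 < E.L) {V aT aC X : ℕ} (h : E.chkA G V aT aC X = true) :
    CA E G V aT aC X := by
  unfold chkA at h
  obtain ⟨h1, h⟩ := band_true h
  obtain ⟨h2, h⟩ := band_true h
  obtain ⟨h3, h⟩ := band_true h
  obtain ⟨h4, h⟩ := band_true h
  obtain ⟨h5, h⟩ := band_true h
  obtain ⟨h6, h7⟩ := band_true h
  rw [str_eq, str_eq, str_eq] at h6
  rw [str_eq] at h7
  have g1 : E.n0 + G.nt ≤ E.NB := ble_iff.1 h1
  have g5 : G.nc ≤ E.NB := ble_iff.1 h5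
  refine ⟨g1, beq_true.1 h2, beq_true.1 h3, beq_true.1 h4, fun i p hp hi => ?_, ?_⟩
  · have h8 := beq_true.1 h6
    have h9 := congrArg (fun n => n.testBit (E.L * i + p)) h8
    simp only [tb_lor] at h9
    have e : E.on (Nat.add E.n0 G.nt) = Ks E.L (E.n0 + G.nt) := on_eq' w g1
    rw [e] at h9
    by_contra hc
    rw [Bool.not_eq_false] at hc
    rw [hc, Bool.true_or] at h9
    have := XM_at w hL hp h9.symm
    rw [hi] at this
    cases this
  · have e : E.on G.nc = Ks E.L G.nc := on_eq' w g5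
    rw [e] at h7
    exact h7

end EV

end Pool.FC7
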