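import Pool.Agent.FC7.EvM
import Pool.Agent.FC7.XFf

/-! # Vector checks: the lanes of the ring -/

set_option linter.unusedSectionVars false

namespace Pool.FC7

open Ev Pool.FC6

theorem ev_mt_mono {α : Type} {k k' : List (α × α) → Bool} : ∀ (l st : List α) (prs : List (α × α)),
    (∀ prs', (∀ p ∈ prs, p ∈ prs') → k prs' = true → k' prs' = true) → mt k l st prs = true →
    mt k' l st prs = true := by
  intro l
  induction l with
  | nil =>
    intro st prs h hm
    cases st with
    | nil => exact h _ (fun p hp => hp) hm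
    | cons t s => rfl
  | cons i l ih =>
    intro st prs h hm
    cases st with
    | nil => exact ih [i] prs h hm
    | cons t s =>
      have h' : mt k l (i :: t :: s) prs = true ∧ mt k l s ((t, i) :: prs) = true := by
        simpa [FC6.mt] using hm
      have g : mt k' l (i :: t :: s) prs = true ∧ mt k' l s ((t, i) :: prs) = true :=
        ⟨ih _ _ h h'.1, ih _ _ (fun prs' hp => h prs' fun p hp' => hp p (List.mem_cons_of_mem _ hp')) h'.2⟩
      simpa [FC6.mt] using g

theorem ev_mt_big {α : Type} {k : List (α × α) → Bool} : ∀ (l st : List α) (prs : List (α × α)),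
    l.length < st.length → mt k l st prs = true := by
  intro l
  induction l with
  | nil =>
    intro st prs h
    cases st with
    | nil => simp at h
    | cons t s => rfl
  | cons i l ih =>
    intro st prs h
    cases st with
    | nil => simp at h
    | cons t s =>
      have h1 : l.length + 1 < s.length + 1 := h
      have g : mt k l (i :: t :: s) prs = true ∧ mt k l s ((t, i) :: prs) = true :=
        ⟨ih _ _ (by simp only [List.length_cons]; omega), ih _ _ (by omega)⟩
      simpa [FC6.mt] using g

/-- the labels form a chain which ends in `x` -/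
def EvCh (x : ℕ) (la : EA) : List EA → ℕ → Prop
  | [], u => la.a = u ∧ la.b = x
  | a :: l, u => a.a = u ∧ EvCh x la l a.b

namespace EV

/-- the labels form a chain which ends in `x` -/
noncomputable def chn (x : ℕ) (l : List EA) : ℕ → Bool :=
  List.rec (motive := fun _ => ℕ → Bool) (fun u => Nat.beq u x)
    (fun a _ ih u => Bool.rec (motive := fun _ => Bool) false (ih a.b) (Nat.beq a.a u)) l

theorem chn_ch {x : ℕ} {la : EA} : ∀ (l : List EA) (u : ℕ), chn x (l ++ [la]) u = true → EvCh x la l u
  | [], u, h => by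
    change (Bool.rec (motive := fun _ => Bool) false (Nat.beq la.b x) (Nat.beq la.a u)) = true at h
    rcases bif_true h with ⟨h1, h2⟩ | ⟨-, h2⟩
    · exact ⟨beq_true.1 h1, beq_true.1 h2⟩
    · cases h2
  | a :: l, u, h => by
    change (Bool.rec (motive := fun _ => Bool) false (chn x (l ++ [la]) a.b) (Nat.beq a.a u)) = true at h
    rcases bif_true h with ⟨h1, h2⟩ | ⟨-, h2⟩
    · exact ⟨beq_true.1 h1, chn_ch l _ h2⟩
    · cases h2

variable {E : EV}

theorem ri_ls : ∀ (l : List EA) (a : EA), ri (a :: l) ++ [ls (a :: l)] = a :: l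
  | [], a => rfl
  | b :: l, a => by
    show (a :: ri (b :: l)) ++ [ls (b :: l)] = _
    rw [List.cons_append, ri_ls l b]

/-- the positions of true colours and of the pairs of a matching -/
def TM (E : EV) (col : ℕ → Bool) (prs : List (EA × EA)) (p : ℕ) : Prop :=
  (∃ a < E.m, p = E.mb + a ∧ col a = true) ∨ (∃ a < E.m, p = E.mb + (E.m + a) ∧ col a = false) ∨
    ∃ q ∈ prs, (E.wJ q.1 q.2).testBit p = true

/-- all positions of the lane -/
def LL (E : EV) (T : ℕ → Prop) (W i : ℕ) : Prop :=
  ∀ p < E.L, W.testBit (E.L * i + p) = true → T p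

/-- the colours are different -/
def od (col : ℕ → Bool) (a : EA) : Bool := col a.a != col a.b

/-- the arc is admissible -/
def Ok (E : EV) (a : EA) : Prop := a.t < E.A ∧ a.b < E.m

theorem blk_lt' (w : E.Wf) {v n V : ℕ} (hv : v < 2 ^ E.L) (hV : V < 2 ^ (E.L * n)) :
    E.blk v n V < 2 ^ (E.L * n) := by
  refine lor_lt hV (lt_of_tb fun i h => ?_)
  have h1 := (on_pos w hv h).1
  have h2 := lane_lt (E := E) h1 (Nat.mod_lt i w.Lp)
  have := Nat.div_add_mod i E.L
  omega

theorem LL.blk (w : E.Wf) {T : ℕ → Prop} {v n V i : ℕ} (hv : v < 2 ^ E.L) (hT : Wd T v)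
    (h : LL E T V i) : LL E T (E.blk v n V) i := by
  intro p hp h1
  unfold EV.blk at h1
  rw [tb_lor, Bool.or_eq_true] at h1
  rcases h1 with h1 | h1
  · exact h p hp h1
  · rw [on_mul w hv hp, Bool.and_eq_true] at h1
    exact hT p h1.2

theorem LL.low {T : ℕ → Prop} {X Y n i : ℕ} (hi : i < n) (h : LL E T X i) :
    LL E T (Nat.lor X (Nat.shiftLeft Y (Nat.mul E.L n))) i := by
  intro p hp h1
  have h2 := lane_lt (E := E) hi hp
  have e : ¬ Nat.mul E.L n ≤ E.L * i + p := by
    show ¬ E.L * n ≤ _
    omega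
  rw [tb_lor, tb_shl, decide_eq_false e, Bool.false_and, Bool.or_false] at h1
  exact h p hp h1

theorem LL.high {T : ℕ → Prop} {X Y n i : ℕ} (hX : X < 2 ^ (E.L * n)) (h : LL E T Y i) :
    LL E T (Nat.lor X (Nat.shiftLeft Y (Nat.mul E.L n))) (n + i) := by
  intro p hp h1
  have e0 : E.L * (n + i) + p = E.L * n + (E.L * i + p) := by ring
  rw [e0, tb_lor, Bool.or_eq_true] at h1
  rcases h1 with h1 | h1
  · have := tb_of_lt hX h1
    omega
  · rw [tb_shl, Bool.and_eq_true] at h1
    have e4 : E.L * n + (E.L * i + p) - Nat.mul E.L n = E.L * i + p := Nat.add_sub_cancel_left _ _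
    rw [e4] at h1
    exact h p hp h1.2

theorem lor_shl_lt {X Y n m : ℕ} (hX : X < 2 ^ (E.L * n)) (hY : Y < 2 ^ (E.L * m)) :
    Nat.lor X (Nat.shiftLeft Y (Nat.mul E.L n)) < 2 ^ (E.L * (n + m)) := by
  refine lor_lt (lt_of_lt_of_le hX (Nat.pow_le_pow_right (by norm_num) (Nat.mul_le_mul_left _ (by omega))))
    (lt_of_tb fun i h => ?_)
  rw [tb_shl, Bool.and_eq_true, decide_eq_true_eq] at h
  have h1 := tb_of_lt hY h.2
  have h2 : E.L * n ≤ i := h.1
  have h3 : i - E.L * n < E.L * m := h1
  rw [Nat.mul_add]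
  omega

theorem cw_lt (w : E.Wf) {a : EA} (ha : Ok E a) {β : Bool} : E.cw a β < 2 ^ E.L := by
  unfold cw
  cases β
  · exact wF_lt w ha.2
  · exact wT_lt w ha.2

theorem wJ_lt (w : E.Wf) {a b : EA} (ha : Ok E a) (hb : Ok E b) : E.wJ a b < 2 ^ E.L := by
  have hA := w.hA
  obtain ⟨hz1, hz2, hz3⟩ := w.zg
  have h1 := ha.1
  have h2 := hb.1
  exact w.sy_lt (by omega) (by omega)

section
variable {la : EA}

theorem cn_guard {l st : List EA} {a : EA}
    (h : Nat.ble (Ev.llen st) (Nat.succ (Nat.succ (Ev.llen l))) = false) : cn (a :: l) st = 0 := by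
  show (Bool.rec (motive := fun _ => ℕ) 0 _ (Nat.ble (Ev.llen st) (Nat.succ (Nat.succ (Ev.llen l))))) = 0
  rw [h]

theorem rv_guard {l st : List EA} {a : EA}
    (h : Nat.ble (Ev.llen st) (Nat.succ (Nat.succ (Ev.llen l))) = false) : E.rv la (a :: l) st = 0 := by
  show (Bool.rec (motive := fun _ => ℕ) 0 _ (Nat.ble (Ev.llen st) (Nat.succ (Nat.succ (Ev.llen l))))) = 0
  rw [h]

theorem cn_nil {l : List EA} {a : EA}
    (h : Nat.ble (Ev.llen ([] : List EA)) (Nat.succ (Nat.succ (Ev.llen l))) = true) :
    cn (a :: l) [] = cn l [] + cn l [a] := by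
  show (Bool.rec (motive := fun _ => ℕ) 0 (Nat.add (cn l []) (Nat.add 0 (cn l [a])))
    (Nat.ble (Ev.llen ([] : List EA)) (Nat.succ (Nat.succ (Ev.llen l))))) = _
  rw [h]
  show cn l [] + (0 + cn l [a]) = _
  omega

theorem cn_cons {l s : List EA} {a b : EA}
    (h : Nat.ble (Ev.llen (b :: s)) (Nat.succ (Nat.succ (Ev.llen l))) = true) :
    cn (a :: l) (b :: s) = cn l (b :: s) + (cn l s + cn l (a :: b :: s)) := by
  show (Bool.rec (motive := fun _ => ℕ) 0 (Nat.add (cn l (b :: s)) (Nat.add (cn l s)
    (cn l (a :: b :: s)))) (Nat.ble (Ev.llen (b :: s)) (Nat.succ (Nat.succ (Ev.llen l))))) = _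
  rw [h]
  rfl

theorem rv_nil {l : List EA} {a : EA}
    (h : Nat.ble (Ev.llen ([] : List EA)) (Nat.succ (Nat.succ (Ev.llen l))) = true) :
    E.rv la (a :: l) [] = Nat.lor (E.blk (E.cw a (par [])) (cn l []) (E.rv la l []))
      (Nat.shiftLeft (E.blk (E.cw a (par [a])) (cn l [a]) (E.rv la l [a])) (Nat.mul E.L (cn l []))) := by
  show (Bool.rec (motive := fun _ => ℕ) 0 (Nat.lor (E.blk (E.cw a (par [])) (cn l []) (E.rv la l []))
      (Nat.shiftLeft (E.blk (E.cw a (par [a])) (cn l [a]) (E.rv la l [a])) (Nat.mul E.L (cn l []))))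
    (Nat.ble (Ev.llen ([] : List EA)) (Nat.succ (Nat.succ (Ev.llen l))))) = _
  rw [h]

theorem rv_cons {l s : List EA} {a b : EA}
    (h : Nat.ble (Ev.llen (b :: s)) (Nat.succ (Nat.succ (Ev.llen l))) = true) :
    E.rv la (a :: l) (b :: s) = Nat.lor (E.blk (E.cw a (par (b :: s))) (cn l (b :: s)) (E.rv la l (b :: s)))
      (Nat.shiftLeft (Nat.lor (E.blk (Nat.lor (E.wJ b a) (E.cw a (par s))) (cn l s) (E.rv la l s))
            (Nat.shiftLeft (E.blk (E.cw a (par (a :: b :: s))) (cn l (a :: b :: s)) (E.rv la l (a :: b :: s)))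
              (Nat.mul E.L (cn l s)))) (Nat.mul E.L (cn l (b :: s)))) := by
  show (Bool.rec (motive := fun _ => ℕ) 0 (Nat.lor (E.blk (E.cw a (par (b :: s))) (cn l (b :: s))
      (E.rv la l (b :: s)))
      (Nat.shiftLeft (Nat.lor (E.blk (Nat.lor (E.wJ b a) (E.cw a (par s))) (cn l s) (E.rv la l s))
            (Nat.shiftLeft (E.blk (E.cw a (par (a :: b :: s))) (cn l (a :: b :: s)) (E.rv la l (a :: b :: s)))
              (Nat.mul E.L (cn l s)))) (Nat.mul E.L (cn l (b :: s)))))
    (Nat.ble (Ev.llen (b :: s)) (Nat.succ (Nat.succ (Ev.llen l))))) = _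
  rw [h]

theorem rv_lt (w : E.Wf) (hla : Ok E la) : ∀ (l st : List EA), (∀ a ∈ l, Ok E a) → (∀ a ∈ st, Ok E a) →
    E.rv la l st < 2 ^ (E.L * cn l st)
  | [], [], _, _ => Nat.two_pow_pos _
  | [], [a], _, h => by
    show E.wJ a la < 2 ^ (E.L * 1)
    rw [mul_one]
    exact wJ_lt w (h a (by simp)) hla
  | [], _ :: _ :: _, _, _ => by
    show 0 < 2 ^ (E.L * 0)
    exact Nat.two_pow_pos _
  | a :: l, st, h, h' => by
    have ih := rv_lt w hla l
    have ha : Ok E a := h a (by simp)
    have hl : ∀ b ∈ l, Ok E b := fun b hb => h b (by simp [hb])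
    rcases hg : Nat.ble (Ev.llen st) (Nat.succ (Nat.succ (Ev.llen l))) with - | -
    · rw [cn_guard hg, rv_guard hg]
      exact Nat.two_pow_pos _
    · rcases st with - | ⟨b, s⟩
      · rw [cn_nil hg, rv_nil hg]
        exact lor_shl_lt (blk_lt' w (cw_lt w ha) (ih _ hl h'))
          (blk_lt' w (cw_lt w ha) (ih _ hl (by simpa using ha)))
      · rw [cn_cons hg, rv_cons hg]
        have hb : Ok E b := h' b (by simp)
        have hs : ∀ c ∈ s, Ok E c := fun c hc => h' c (by simp [hc])
        refine lor_shl_lt (blk_lt' w (cw_lt w ha) (ih _ hl h')) (lor_shl_lt (blk_lt' w (lor_lt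
          (wJ_lt w hb ha) (cw_lt w ha)) (ih _ hl hs)) (blk_lt' w (cw_lt w ha) (ih _ hl ?_)))
        intro c hc
        rcases List.mem_cons.1 hc with rfl | hc
        · exact ha
        · exact h' c hc

theorem cw_wd {a : EA} (ha : Ok E a) {col : ℕ → Bool} {prs : List (EA × EA)} {β : Bool}
    (h : col a.b = β) : Wd (TM E col prs) (E.cw a β) := by
  unfold cw
  cases β
  · exact wF_wd (Or.inr (Or.inl ⟨a.b, ha.2, rfl, h⟩))
  · exact wT_wd (Or.inl ⟨a.b, ha.2, rfl, h⟩)

theorem wJ_wd {a b : EA} {col : ℕ → Bool} {prs : List (EA × EA)} (h : (a, b) ∈ prs) :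
    Wd (TM E col prs) (E.wJ a b) := fun p hp => Or.inr (Or.inr ⟨(a, b), h, hp⟩)

open Classical in
theorem ring_mt (w : E.Wf) (hla : Ok E la) {x : ℕ} {col : ℕ → Bool} : ∀ (l st : List EA) (u : ℕ),
    (∀ a ∈ l, Ok E a) → (∀ a ∈ st, Ok E a) → EvCh x la l u → col u = par st → ∀ prs,
    mt (fun prs' => decide (∃ i < cn l st, LL E (TM E col prs') (E.rv la l st) i))
      ((l ++ [la]).filter (od col)) st prs = true
  | [], st, u, _, _, _, _, prs => by
    rw [List.nil_append]
    rcases ho : od col la with - | -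
    · have e : [la].filter (od col) = [] := by simp [ho]
      rw [e]
      rcases st with - | ⟨b, s⟩
      · show decide _ = true
        rw [decide_eq_true_eq]
        refine ⟨0, Nat.one_pos, fun p _ hp => ?_⟩
        change (0 : ℕ).testBit _ = true at hp
        rw [Nat.zero_testBit] at hp
        cases hp
      · rfl
    · have e : [la].filter (od col) = [la] := by simp [ho]
      rw [e]
      rcases st with - | ⟨b, s⟩
      · rfl
      · have g : ∀ k : List (EA × EA) → Bool, mt k [] s ((b, la) :: prs) = true →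
            mt k [la] (b :: s) prs = true := by
          intro k hk
          show (mt k [] (la :: b :: s) prs && mt k [] s ((b, la) :: prs)) = true
          rw [hk]
          rfl
        apply g
        rcases s with - | ⟨c, s⟩
        · show decide _ = true
          rw [decide_eq_true_eq]
          refine ⟨0, Nat.one_pos, fun p _ hp => ?_⟩
          rw [mul_zero, zero_add] at hp
          exact wJ_wd (by simp) p hp
        · rfl
  | a :: l, st, u, h, h', hc, hu, prs => by
    have ih := ring_mt w hla (x := x) (col := col) l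
    have ha : Ok E a := h a (by simp)
    have hl : ∀ b ∈ l, Ok E b := fun b hb => h b (by simp [hb])
    obtain ⟨hc1, hc2⟩ := hc
    rcases hg : Nat.ble (Ev.llen st) (Nat.succ (Nat.succ (Ev.llen l))) with - | -
    · apply ev_mt_big
      have h1 : ¬ Ev.llen st ≤ Ev.llen l + 1 + 1 := by
        intro hc
        rw [ble_iff.2 hc] at hg
        cases hg
      rw [llen_eq, llen_eq] at h1
      have h2 := List.length_filter_le (od col) ((a :: l) ++ [la])
      simp only [List.length_append, List.length_cons, List.length_nil] at h2 ⊢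
      omega
    · have hlt := rv_lt w hla l
      rcases ho : od col a with - | -
      · have e : ((a :: l) ++ [la]).filter (od col) = (l ++ [la]).filter (od col) := by
          rw [List.cons_append, List.filter_cons, ho]
          simp
        have hb : col a.b = par st := by
          rw [← hu, ← hc1]
          unfold od at ho
          simp only [bne_eq_false_iff_eq] at ho
          exact ho.symm
        rw [e]
        refine ev_mt_mono _ _ _ (fun prs' _ hk => ?_) (ih st a.b hl h' hc2 hb prs)
        rw [decide_eq_true_eq] at hk ⊢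
        obtain ⟨i, hi, hi2⟩ := hk
        rcases st with - | ⟨b, s⟩
        · rw [cn_nil hg, rv_nil hg]
          exact ⟨i, by omega, LL.low hi (hi2.blk w (cw_lt w ha) (cw_wd ha hb))⟩
        · rw [cn_cons hg, rv_cons hg]
          exact ⟨i, by omega, LL.low hi (hi2.blk w (cw_lt w ha) (cw_wd ha hb))⟩
      · have e : ((a :: l) ++ [la]).filter (od col) = a :: (l ++ [la]).filter (od col) := by
          rw [List.cons_append, List.filter_cons, ho]
          simp
        have hb : col a.b = !par st := by
          rw [← hu, ← hc1]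
          unfold od at ho
          cases h1 : col a.a <;> cases h2 : col a.b <;> simp_all
        have hpar : ∀ c (s : List EA), par (c :: s) = !par s := by
          intro c s
          show (Bool.rec (motive := fun _ => Bool) true false (par s)) = _
          cases par s <;> rfl
        rw [e]
        rcases st with - | ⟨b, s⟩
        · have hb' : col a.b = par [a] := by rw [hpar]; exact hb
          show mt _ _ [a] prs = true
          refine ev_mt_mono _ _ _ (fun prs' _ hk => ?_) (ih [a] a.b hl (by simpa using ha) hc2 hb' prs)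
          rw [decide_eq_true_eq] at hk ⊢
          obtain ⟨i, hi, hi2⟩ := hk
          rw [cn_nil hg, rv_nil hg]
          exact ⟨cn l [] + i, by omega, LL.high (blk_lt' w (cw_lt w ha) (hlt _ hl h'))
            (hi2.blk w (cw_lt w ha) (cw_wd ha hb'))⟩
        · have hb' : col a.b = par (a :: b :: s) := by rw [hpar]; exact hb
          have hb2 : col a.b = par s := by rw [hb, hpar, Bool.not_not]
          have kb : Ok E b := h' b (by simp)
          have hs : ∀ c ∈ s, Ok E c := fun c hc => h' c (by simp [hc])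
          have ha' : ∀ c ∈ a :: b :: s, Ok E c := by
            intro c hc
            rcases List.mem_cons.1 hc with rfl | hc
            · exact ha
            · exact h' c hc
          have g : ∀ k : List (EA × EA) → Bool, mt k ((l ++ [la]).filter (od col)) (a :: b :: s) prs = true →
              mt k ((l ++ [la]).filter (od col)) s ((b, a) :: prs) = true →
              mt k (a :: (l ++ [la]).filter (od col)) (b :: s) prs = true := by
            intro k hk1 hk2
            show (mt k _ (a :: b :: s) prs && mt k _ s ((b, a) :: prs)) = true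
            rw [hk1, hk2]
            rfl
          apply g
          · refine ev_mt_mono _ _ _ (fun prs' _ hk => ?_) (ih (a :: b :: s) a.b hl ha' hc2 hb' prs)
            rw [decide_eq_true_eq] at hk ⊢
            obtain ⟨i, hi, hi2⟩ := hk
            rw [cn_cons hg, rv_cons hg]
            refine ⟨cn l (b :: s) + (cn l s + i), by omega, LL.high (blk_lt' w (cw_lt w ha) (hlt _ hl h'))
              (LL.high (blk_lt' w (lor_lt (wJ_lt w kb ha) (cw_lt w ha)) (hlt _ hl hs))
                (hi2.blk w (cw_lt w ha) (cw_wd ha hb')))⟩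
          · refine ev_mt_mono _ _ _ (fun prs' hp hk => ?_) (ih s a.b hl hs hc2 hb2 ((b, a) :: prs))
            rw [decide_eq_true_eq] at hk ⊢
            obtain ⟨i, hi, hi2⟩ := hk
            rw [cn_cons hg, rv_cons hg]
            refine ⟨cn l (b :: s) + i, by omega, LL.high (blk_lt' w (cw_lt w ha) (hlt _ hl h'))
              (LL.low hi (hi2.blk w (lor_lt (wJ_lt w kb ha) (cw_lt w ha))
                ((wJ_wd (hp _ (by simp))).or (cw_wd ha hb2))))⟩

end

end EV

end Pool.FC7
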