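import Pool.Agent.FC7.EvJ

/-! # Vector checks: soundness of a lane of the stronger test -/

set_option linter.unusedSectionVars false

namespace Pool.FC7

open Ev Pool.FC6

variable {E : EV} {X : XE} {P P' : Pa} {hb : ℕ → Bool}
variable {D V : Type} [Fintype D] [DecidableEq V]
variable {S S' : St D V} {f : ℕ → D} {g : ℕ → V} {c' : V → Bool} {c0 : ℕ}

section
variable {n i W : ℕ}
variable (C : Cx S S' P P' f g X c' c0) (L : EvLv E X P P' hb)
  (hsp : ∀ p ∈ X.ar, X.sp p.1 = true → c' (g (P.l p.1)) ≠ c' (g (P.l (P.φ p.2))) →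
      ActR S P f X c' p.1)
  (hi : i < n)
  (tw : EvTw E c0.testBit (fun s t => Rr S P f X c' (evDa X s) (evDa X t))
    (fun s => ActR S P f X c' (evDa X s)) W i)

include C L hsp hi tw

/-- SOUNDNESS of a lane of the test, both forms -/
theorem ev_F_sound (hgx : ∀ a < X.x, ∀ b < X.x, g a = g b → a = b)
    (hlr : ∀ q ∈ X.lr, q.1 < P.n ∧ P.real q.1 = true ∧ P.l q.1 < X.x + X.k ∧
      P.l (P.φ q.1) < X.x + X.k)
    (b : ℕ) (h : ∀ p < E.L, (E.badF (Ks E.L n) W b).testBit (E.L * i + p) = false) :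
    EvSm S S' P P' f g X c' c0 := by
  cases b with
  | zero => exact ev_T_sound C L hsp hi tw hgx hlr h
  | succ b =>
    exact ev_TL_sound C L hsp hi tw hgx hlr (L.w.tlW hi h) fun j hj hz hv =>
      ev_vis_z C L hsp hi tw hj hz hv

end

end Pool.FC7
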