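import Pool.Agent.FC7.EvN
import Pool.Agent.FC7.EvP

/-! # Vector checks: soundness of the whole check for one colouring -/

set_option linter.unusedSectionVars false

namespace Pool.FC7

open Ev Pool.FC6

variable {E : EV} {X : XE} {P P' : Pa} {hb : ℕ → Bool}
variable {D V : Type} [Fintype D] [DecidableEq V]
variable {S S' : St D V} {f : ℕ → D} {g : ℕ → V} {c' : V → Bool} {c0 : ℕ}

/-- the arcs with ends of different colours -/
theorem ev_od_map (L : EvLv E X P P' hb) :
    (E.ars.filter (EV.od c0.testBit)).map (fun a => evDa X a.t) =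
      (X.ar.filter (XE.oda P c0)).map Prod.fst := by
  rw [L.ars, List.mapIdx_eq_zipIdx_map, List.filter_map, List.map_map]
  have e1 : ∀ z ∈ X.ar.zipIdx, ((EV.od c0.testBit) ∘ fun z : (ℕ × ℕ) × ℕ =>
      evEA X P hb z.2 z.1) z = (XE.oda P c0 ∘ Prod.fst) z := fun z _ => rfl
  rw [List.filter_congr e1]
  have e2 : ∀ z ∈ X.ar.zipIdx.filter (XE.oda P c0 ∘ Prod.fst),
      ((fun a : EA => evDa X a.t) ∘ fun z : (ℕ × ℕ) × ℕ => evEA X P hb z.2 z.1) z = (Prod.fst ∘ Prod.fst) z := by
    intro z hz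
    have hz' := (List.mem_filter.1 hz).1
    have h3 := List.mem_zipIdx' hz'
    show (X.ar.getD z.2 (0, 0)).1 = z.1.1
    rw [List.getD_eq_getElem _ _ h3.1, ← h3.2]
  rw [List.map_congr_left e2, ← List.map_map, ← List.filter_map, List.zipIdx_map_fst]

/-- noncrossing and parity -/
theorem ev_od_rel (C : Cx S S' P P' f g X c' c0) (L : EvLv E X P P' hb) :
    NCL (fun s t : EA => Rr S P f X c' (evDa X s.t) (evDa X t.t)) (E.ars.filter (EV.od c0.testBit)) ∧
      EvL (fun s t : EA => Rr S P f X c' (evDa X s.t) (evDa X t.t)) (E.ars.filter (EV.od c0.testBit)) := by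
  have hmap := ev_od_map (c0 := c0) L
  constructor
  · have hN : NCL (Rr S P f X c') ((E.ars.filter (EV.od c0.testBit)).map (fun a => evDa X a.t)) := by
      rw [hmap]
      exact (ring_ncl C L.ring).sub ((List.filter_sublist.map _).trans (ar_sub C))
    intro a b s t hs h1 h2
    exact hN _ _ _ _ (hs.map (fun a : EA => evDa X a.t)) h1 h2
  · have hE := oda_even C L.ring
    rw [← hmap] at hE
    intro a ha
    have := hE (evDa X a.t) (List.mem_map_of_mem (f := fun a : EA => evDa X a.t) ha)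
    rw [List.countP_map] at this
    exact this

section
variable {G : EK}
variable (C : Cx S S' P P' f g X c' c0) (L : EvLv E X P P' hb)
include C L

/-- one lane of the ring is true -/
theorem ev_ring_lane (hx : c0.testBit X.x = false) (hk : 0 < X.k) (hne : E.ars ≠ [])
    (hch : EV.chn E.x E.ars E.x = true) (hn : E.n0 ≤ E.NB) :
    ∃ i < E.n0, E.RV.testBit (E.L * i + E.pf) = true ∧
      EvLtr E (EvTr E c0.testBit (fun s t => Rr S P f X c' (evDa X s) (evDa X t))
        (fun s => ActR S P f X c' (evDa X s))) E.RV i := by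
  classical
  have w := L.w
  have hL := w.hL
  have hA := w.hA
  obtain ⟨hz1, hz2, hz3⟩ := w.zg
  have hxm : E.x < E.m := by rw [L.x, L.m]; omega
  obtain ⟨a, l, hal⟩ := List.exists_cons_of_ne_nil hne
  have hars : EV.ri E.ars ++ [EV.ls E.ars] = E.ars := by
    rw [hal]
    exact EV.ri_ls l a
  have mem : ∀ a, a ∈ EV.ri E.ars ++ [EV.ls E.ars] → a ∈ E.ars := fun a h => by
    rw [hars] at h; exact h
  have hok : ∀ a ∈ E.ars, EV.Ok E a := fun a ha => ⟨(w.ars a ha).1, (w.ars a ha).2.2.2.2⟩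
  have hla : EV.Ok E (EV.ls E.ars) := hok _ (mem _ (by simp))
  have hri : ∀ a ∈ EV.ri E.ars, EV.Ok E a := fun a ha => hok a (mem _ (by simp [ha]))
  have hc0 : EvCh E.x (EV.ls E.ars) (EV.ri E.ars) E.x := EV.chn_ch _ _ (by rw [hars]; exact hch)
  have hlb : ∀ (l : List EA) u, EvCh E.x (EV.ls E.ars) l u → (EV.ls E.ars).b = E.x := by
    intro l
    induction l with
    | nil => exact fun u h => h.2
    | cons b l ih => exact fun u h => ih _ h.2
  have hbx := hlb _ _ hc0
  have hm := EV.ring_mt w hla (x := E.x) (col := c0.testBit) (EV.ri E.ars) [] E.x hri (by simp) hc0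
    (by rw [L.x]; exact hx) []
  rw [hars] at hm
  obtain ⟨hN, hE⟩ := ev_od_rel (c0 := c0) C L
  have hR : Equivalence (fun s t : EA => Rr S P f X c' (evDa X s.t) (evDa X t.t)) :=
    ⟨fun a => C.rr_equiv.refl _, fun h => C.rr_equiv.symm h, fun h h' => C.rr_equiv.trans h h'⟩
  obtain ⟨prs, h1, -, -, h2⟩ := mt_cover hR _ _ [] [] hm (by simpa using hN) (by simpa using hE)
    (by simp) (by simp)
  rw [decide_eq_true_eq] at h2
  obtain ⟨i, hi, h3⟩ := h2
  have hwF : E.wF (EV.ls E.ars).b < 2 ^ E.L := EV.wF_lt w (by rw [hbx]; exact hxm)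
  refine ⟨i, hi, ?_, fun p hp h4 => ?_⟩
  · show (Nat.lor _ (Nat.mul (E.on E.n0) (E.wF (EV.ls E.ars).b))).testBit _ = true
    rw [tb_lor, EV.on_mul w hwF (EV.pf_lt w hxm), Nat.min_eq_left hn, decide_eq_true (show i < E.n0 from hi), hbx]
    have e : (E.wF E.x).testBit E.pf = true := by
      unfold EV.wF
      rw [tb_p2, decide_eq_true_eq]
      rfl
    rw [e]
    simp
  · have h5 : E.RV = Nat.lor (E.rv (EV.ls E.ars) (EV.ri E.ars) []) (Nat.mul (E.on E.n0)
        (E.wF (EV.ls E.ars).b)) := rfl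
    rw [h5, tb_lor, Bool.or_eq_true] at h4
    rcases h4 with h4 | h4
    · rcases h3 p (by omega) h4 with h6 | h6 | ⟨q, hq, h6⟩
      · exact Or.inl h6
      · exact Or.inr (Or.inl h6)
      · obtain ⟨h7, h8⟩ := h1 q hq
        rcases h8 with ⟨h8, h9⟩ | h8
        swap
        · simp at h8
        have q1 : q.1 ∈ E.ars := List.mem_of_mem_filter (by simpa using h8)
        have q2 : q.2 ∈ E.ars := List.mem_of_mem_filter (by simpa using h9)
        have t1 := (w.ars _ q1).1
        have t2 := (w.ars _ q2).1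
        exact EV.sy_wd (T := EvTr E c0.testBit (fun s t => Rr S P f X c' (evDa X s) (evDa X t))
          (fun s => ActR S P f X c' (evDa X s)))
          (EV.tr_1 (by omega) (by omega) (Or.inl ⟨t1, t2, h7⟩))
          (EV.tr_1 (by omega) (by omega) (Or.inl ⟨t2, t1, C.rr_equiv.symm h7⟩)) p h6
    · rw [EV.on_mul w hwF (by omega), Bool.and_eq_true] at h4
      rw [hbx] at h4
      exact EV.wF_wd (T := EvTr E c0.testBit (fun s t => Rr S P f X c' (evDa X s) (evDa X t))
          (fun s => ActR S P f X c' (evDa X s))) (EV.tr_F hxm (by rw [L.x]; exact hx)) p h4.2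

variable (hsp : ∀ p ∈ X.ar, X.sp p.1 = true → c' (g (P.l p.1)) ≠ c' (g (P.l (P.φ p.2))) →
      ActR S P f X c' p.1)
include hsp

/-- SOUNDNESS of the vector check for one colouring -/
theorem ev_run_sound (hgx : ∀ a < X.x, ∀ b < X.x, g a = g b → a = b)
    (hlr : ∀ q ∈ X.lr, q.1 < P.n ∧ P.real q.1 = true ∧ P.l q.1 < X.x + X.k ∧
      P.l (P.φ q.1) < X.x + X.k)
    (hdj : Dj S' P f X.ce' c' X.dj')
    (hx : c0.testBit X.x = false) (hk : 0 < X.k) (hne : E.ars ≠ [])
    (hch : EV.chn E.x E.ars E.x = true) (h : E.run G = true) : EvSm S S' P P' f g X c' c0 := by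
  have w := L.w
  have hL := w.hL
  have hxm : E.x < E.m := by rw [L.x, L.m]; omega
  have h1L : 1 < E.L := by
    have h1 := EV.mb_eq (E := E)
    have h2 := EV.xb_eq (E := E)
    have h3 := w.q3
    have h4 : 3 * (2 * 3) ≤ E.q * (2 * E.q) := Nat.mul_le_mul h3 (by omega)
    omega
  unfold EV.run at h
  rw [EV.str_eq] at h
  have ht := EV.tab_te (col := c0.testBit) (R := fun s t => Rr S P f X c' (evDa X s) (evDa X t))
    (Ac := fun s => ActR S P f X c' (evDa X s)) w (fun a b h => C.rr_equiv.symm h)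
  obtain ⟨bT, bC, Y, h1, -, -, h2⟩ := EV.lsts_ok w hxm ht _ _ _ _ _ h
  rw [EV.str_eq, EV.str_eq] at h1
  have ca := EV.ca_of w h1L h1
  have hn0 : E.n0 ≤ E.NB := le_trans (Nat.le_add_right _ _) ca.n
  obtain ⟨i, hi, h3, h4⟩ := ev_ring_lane C L hx hk hne hch hn0
  have hV : E.RV < 2 ^ (E.L * E.n0) := by
    have hok : ∀ a ∈ E.ars, EV.Ok E a := fun a ha => ⟨(w.ars a ha).1, (w.ars a ha).2.2.2.2⟩
    obtain ⟨a, l, hal⟩ := List.exists_cons_of_ne_nil hne
    have hars : EV.ri E.ars ++ [EV.ls E.ars] = E.ars := by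
      rw [hal]
      exact EV.ri_ls l a
    have mem : ∀ a, a ∈ EV.ri E.ars ++ [EV.ls E.ars] → a ∈ E.ars := fun a h => by
      rw [hars] at h; exact h
    have hla : EV.Ok E (EV.ls E.ars) := hok _ (mem _ (by simp))
    exact EV.blk_lt' w (EV.wF_lt w hla.2) (EV.rv_lt w hla _ _
      (fun a ha => hok a (mem _ (by simp [ha]))) (by simp))
  -- a lane of the test
  have lane : ∀ j < E.n0 + G.nt, Y.testBit j = false →
      EvLtr E (EvTr E c0.testBit (fun s t => Rr S P f X c' (evDa X s) (evDa X t))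
        (fun s => ActR S P f X c' (evDa X s))) (E.AL G E.RV bT) j → EvSm S S' P P' f g X c' c0 :=
    fun j hj h5 h6 => ev_F_sound C L hsp hj (EV.tw_of h6) hgx hlr _ fun p hp => ca.bad j p hp h5
  have yx : ∀ j, E.n0 ≤ j → Y.testBit j = false := by
    intro j hj
    have h5 := congrArg (fun n => n.testBit (j - E.n0)) ca.x
    simp only [tb_shr, Nat.zero_testBit] at h5
    have e : E.n0 + (j - E.n0) = j := by omega
    rw [e] at h5
    exact h5
  rcases hY : Y.testBit i with - | -
  · exact lane i (by omega) hY fun p hp h5 => h4 p hp (EV.AL_low w hi hp h5)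
  · rcases h2 i hY with h5 | h5
    · rw [Nat.zero_testBit] at h5; cases h5
    · rcases h5 h3 h4 with h6 | h6
      · obtain ⟨j, hj, -, h7⟩ := h6.lt ca.t
        exact lane (E.n0 + j) (by omega) (yx _ (by omega))
          fun p hp h8 => h7 p hp (EV.AL_high w hV h8)
      · obtain ⟨j, hj, -, h7⟩ := h6.lt ca.c
        obtain ⟨p, hp, h8⟩ := w.okC_at ca.ok hj
        exact absurd h8 (ev_C_sound C L hsp hj (EV.tw_of h7) hdj hp)

end

end Pool.FC7
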