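import Pool.Agent.FC7.EvT

/-! # Vector checks: a fast form of the ring words -/

set_option linter.unusedSectionVars false

namespace Pool.FC7

open Ev

namespace EV

variable (E : EV)

/-- length of a height -/
noncomputable def lenU (hs : List Unit) : ℕ :=
  List.rec (motive := fun _ => ℕ) 0 (fun _ _ ih => Nat.succ ih) hs

/-- colour of the current label -/
noncomputable def parU (hs : List Unit) : Bool :=
  List.rec (motive := fun _ => Bool) false
    (fun _ _ ih => Bool.rec (motive := fun _ => Bool) true false ih) hs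

/-- number of lanes -/
noncomputable def cnU (l : List EA) : List Unit → ℕ :=
  List.rec (motive := fun _ => List Unit → ℕ)
    (fun hs => List.rec (motive := fun _ => ℕ) 1
      (fun _ s _ => List.rec (motive := fun _ => ℕ) 1 (fun _ _ _ => 0) s) hs)
    (fun _ l ih hs => Bool.rec (motive := fun _ => ℕ) 0
      (Nat.add (ih hs) (Nat.add (List.rec (motive := fun _ => ℕ) 0 (fun _ s _ => ih s) hs)
        (ih (() :: hs))))
      (Nat.ble (lenU hs) (Nat.succ (Nat.succ (Ev.llen l))))) l

/-- the words; the height is a second argument -/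
noncomputable def rvU (la : EA) (l : List EA) : List EA → List Unit → ℕ :=
  List.rec (motive := fun _ => List EA → List Unit → ℕ)
    (fun st _ => List.rec (motive := fun _ => ℕ) 0
      (fun a s _ => List.rec (motive := fun _ => ℕ) (E.wJ a la) (fun _ _ _ => 0) s) st)
    (fun a l ih st hs => Bool.rec (motive := fun _ => ℕ) 0
      (Nat.lor (Nat.lor (ih st hs) (Nat.mul (E.on (cnU l hs)) (E.cw a (parU hs))))
        (Nat.shiftLeft (List.rec (motive := fun _ => ℕ)
          (Nat.lor (ih (a :: st) (() :: hs))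
            (Nat.mul (E.on (cnU l (() :: hs))) (E.cw a (parU (() :: hs)))))
          (fun b s _ => List.rec (motive := fun _ => ℕ) 0 (fun _ hs' _ =>
            Nat.lor (Nat.lor (ih s hs') (Nat.mul (E.on (cnU l hs')) (Nat.lor (E.wJ b a)
                (E.cw a (parU hs')))))
              (Nat.shiftLeft (Nat.lor (ih (a :: st) (() :: hs))
                (Nat.mul (E.on (cnU l (() :: hs))) (E.cw a (parU (() :: hs)))))
              (Nat.mul E.L (cnU l hs')))) hs) st)
          (Nat.mul E.L (cnU l hs))))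
      (Nat.ble (lenU hs) (Nat.succ (Nat.succ (Ev.llen l))))) l

/-- the height of a stack -/
def hgt (st : List EA) : List Unit := st.map fun _ => ()

theorem lenU_eq : ∀ st : List EA, lenU (hgt st) = Ev.llen st
  | [] => rfl
  | _ :: s => congrArg Nat.succ (lenU_eq s)

theorem parU_eq : ∀ st : List EA, parU (hgt st) = par st
  | [] => rfl
  | _ :: s => congrArg (fun b : Bool => (Bool.rec (motive := fun _ => Bool) true false b : Bool))
      (parU_eq s)

theorem cnU_eq : ∀ (l st : List EA), cnU l (hgt st) = cn l st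
  | [], st => by
    rcases st with _ | ⟨b, _ | ⟨c, s⟩⟩ <;> rfl
  | a :: l, st => by
    have ih := cnU_eq l
    show Bool.rec (motive := fun _ => ℕ) 0
      (Nat.add (cnU l (hgt st)) (Nat.add (List.rec (motive := fun _ => ℕ) 0 (fun _ s _ => cnU l s)
        (hgt st)) (cnU l (hgt (a :: st))))) (Nat.ble (lenU (hgt st)) (Nat.succ (Nat.succ (Ev.llen l))))
      = Bool.rec (motive := fun _ => ℕ) 0
      (Nat.add (cn l st) (Nat.add (List.rec (motive := fun _ => ℕ) 0 (fun _ s _ => cn l s) st)
        (cn l (a :: st)))) (Nat.ble (Ev.llen st) (Nat.succ (Nat.succ (Ev.llen l))))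
    rw [ih, ih, lenU_eq]
    rcases st with _ | ⟨b, s⟩
    · rfl
    · show Bool.rec (motive := fun _ => ℕ) 0 (Nat.add _ (Nat.add (cnU l (hgt s)) _)) _ = _
      rw [ih]

theorem rvU_eq (la : EA) : ∀ (l st : List EA), E.rvU la l st (hgt st) = E.rv la l st
  | [], _ => rfl
  | a :: l, st => by
    have ih := rvU_eq la l
    have h1 : E.rvU la l (a :: st) (() :: hgt st) = E.rv la l (a :: st) := ih (a :: st)
    have h2 : cnU l (() :: hgt st) = cn l (a :: st) := cnU_eq l (a :: st)
    have h3 : parU (() :: hgt st) = par (a :: st) := parU_eq (a :: st)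
    rcases st with _ | ⟨b, s⟩
    · show Bool.rec (motive := fun _ => ℕ) 0
        (Nat.lor (Nat.lor (E.rvU la l [] (hgt [])) (Nat.mul (E.on (cnU l (hgt [])))
            (E.cw a (parU (hgt [])))))
          (Nat.shiftLeft (Nat.lor (E.rvU la l [a] (() :: hgt []))
            (Nat.mul (E.on (cnU l (() :: hgt []))) (E.cw a (parU (() :: hgt [])))))
          (Nat.mul E.L (cnU l (hgt [])))))
        (Nat.ble (lenU (hgt [])) (Nat.succ (Nat.succ (Ev.llen l)))) = _
      rw [h1, h2, h3, ih, cnU_eq, parU_eq, lenU_eq]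
      rfl
    · show Bool.rec (motive := fun _ => ℕ) 0
        (Nat.lor (Nat.lor (E.rvU la l (b :: s) (hgt (b :: s))) (Nat.mul (E.on (cnU l (hgt (b :: s))))
            (E.cw a (parU (hgt (b :: s))))))
          (Nat.shiftLeft (Nat.lor (Nat.lor (E.rvU la l s (hgt s)) (Nat.mul (E.on (cnU l (hgt s)))
              (Nat.lor (E.wJ b a) (E.cw a (parU (hgt s))))))
            (Nat.shiftLeft (Nat.lor (E.rvU la l (a :: b :: s) (() :: hgt (b :: s)))
              (Nat.mul (E.on (cnU l (() :: hgt (b :: s)))) (E.cw a (parU (() :: hgt (b :: s))))))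
              (Nat.mul E.L (cnU l (hgt s)))))
          (Nat.mul E.L (cnU l (hgt (b :: s))))))
        (Nat.ble (lenU (hgt (b :: s))) (Nat.succ (Nat.succ (Ev.llen l)))) = _
      rw [h1, h2, h3, ih, ih, cnU_eq, cnU_eq, parU_eq, parU_eq, lenU_eq]
      rfl

/-- the lanes of the ring -/
noncomputable def n0F : ℕ := cnU (ri E.ars) []
noncomputable def RVF : ℕ :=
  Nat.lor (E.rvU (ls E.ars) (ri E.ars) [] []) (Nat.mul (E.on E.n0F) (E.wF (ls E.ars).b))

theorem n0F_eq : E.n0F = E.n0 := cnU_eq _ []

theorem RVF_eq : E.RVF = E.RV := by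
  have h : E.rvU (ls E.ars) (ri E.ars) [] [] = E.rv (ls E.ars) (ri E.ars) [] := E.rvU_eq _ _ []
  unfold RVF
  rw [h, n0F_eq]
  rfl

variable (G : EK)

/-- all lanes of the test -/
noncomputable def ALU (n0 V aT : ℕ) : ℕ :=
  Nat.lor (Nat.shiftLeft aT (Nat.mul E.L n0)) (Nat.lor V (Nat.shiftLeft (Nat.land
      (E.spr E.x (Nat.sub (Nat.div E.L E.x) 1)
        (Nat.succ (Nat.div n0 (Nat.sub (Nat.div E.L E.x) 1))) G.XI)
      (Nat.mul (E.on n0) (mo E.x))) E.xb))

/-- the test; the number of lanes of the ring is an argument -/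
noncomputable def chkU (n0 V aT aC X : ℕ) : Bool :=
  (fun n => Ev.band (Nat.ble n E.NB) (Ev.band (Nat.beq (Nat.shiftRight X n0) 0)
    (Ev.band (Nat.beq (Nat.shiftRight aT (Nat.mul E.L G.nt)) 0)
    (Ev.band (Nat.beq (Nat.shiftRight aC (Nat.mul E.L G.nc)) 0) (Ev.band (Nat.ble G.nc E.NB)
      (Ev.band (str (E.on n) fun O => str (E.ALU G n0 V aT) fun A =>
        str (Nat.mul (E.spr 1 (Nat.sub E.L 1) (Nat.succ (Nat.div n0 (Nat.sub E.L 1))) X) (mo E.L))
        fun XM => Nat.beq (Nat.lor (E.badF O A (Nat.shiftRight G.XI (Nat.mul E.x n0))) XM) XM)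
        (str (E.on G.nc) fun O => E.okC O aC)))))))
    (Nat.add n0 G.nt)

theorem chkU_eq (V aT aC X : ℕ) : E.chkU G E.n0 V aT aC X = E.chkA G V aT aC X := rfl

/-- the complete run, fast form -/
noncomputable def runF : Bool := str E.n0F fun n0 => str E.RVF fun V => E.lstF G V
  (fun aT aC X => str aT fun aT => str aC fun aC => E.chkU G n0 V aT aC X) G.nr G.N 0 0 0

theorem runF_eq : E.runF G = E.run G := by
  unfold runF run
  rw [str_eq, n0F_eq, RVF_eq, str_eq, str_eq, lstF_eq]
  rfl

end EV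

end Pool.FC7
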