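import Pool.Agent.FC7.EvO
import Pool.Agent.FC7.EvU

/-! # Vector checks: the tables are computed from the record -/

set_option linter.unusedSectionVars false

namespace Pool.FC7

open Ev Pool.FC6

/-! ### Strict evaluation -/

/-- strict application for truth values -/
noncomputable def Ev.bst (b : Bool) (k : Bool → Bool) : Bool :=
  Bool.rec (motive := fun _ => Bool) (k false) (k true) b

theorem Ev.bst_eq {b : Bool} {k : Bool → Bool} : bst b k = k b := by cases b <;> rfl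

/-- the elements of `l` are evaluated and put in front of the list -/
noncomputable def Ev.fS {α β : Type} (f : α → List β → (List β → Bool) → Bool) (l : List α) :
    List β → (List β → Bool) → Bool :=
  List.rec (motive := fun _ => List β → (List β → Bool) → Bool) (fun r k => k r)
    (fun a _ ih r k => ih r fun r => f a r k) l

theorem Ev.fS_eq {α β : Type} {f : α → List β → (List β → Bool) → Bool} {G : α → List β}
    (hf : ∀ a r k, f a r k = k (G a ++ r)) : ∀ (l : List α) (r : List β) (k : List β → Bool),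
    fS f l r k = k (l.flatMap G ++ r)
  | [], _, _ => rfl
  | a :: l, r, k => by
    show fS f l r (fun r => f a r k) = _
    rw [fS_eq hf l r, hf, List.flatMap_cons, List.append_assoc]

theorem Ev.flatMap_one {α β : Type} (g : α → β) (l : List α) : (l.flatMap fun a => [g a]) = l.map g := by
  induction l with
  | nil => rfl
  | cons a l ih => rw [List.flatMap_cons, ih]; rfl

/-- the same for the numbers `0, .., n - 1` -/
noncomputable def Ev.rS {β : Type} (f : ℕ → List β → (List β → Bool) → Bool) (n : ℕ) :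
    List β → (List β → Bool) → Bool :=
  Nat.rec (motive := fun _ => List β → (List β → Bool) → Bool) (fun r k => k r)
    (fun a ih r k => f a r fun r => ih r k) n

theorem Ev.rS_ok {β : Type} {f : ℕ → List β → (List β → Bool) → Bool} {g : ℕ → β}
    (hf : ∀ a r k, f a r k = k (g a :: r)) : ∀ (n : ℕ) (r : List β) (k : List β → Bool),
    rS f n r k = true → ∃ r', (∀ y ∈ r, y ∈ r') ∧ (∀ a < n, g a ∈ r') ∧ k r' = true
  | 0, r, k, h => ⟨r, fun _ h => h, by simp, h⟩
  | n + 1, r, k, h => by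
    change f n r (fun r => rS f n r k) = true at h
    rw [hf] at h
    obtain ⟨r', h1, h2, h3⟩ := rS_ok hf n _ k h
    refine ⟨r', fun y hy => h1 y (List.mem_cons_of_mem _ hy), fun a ha => ?_, h3⟩
    rcases Nat.lt_succ_iff_lt_or_eq.1 ha with h4 | rfl
    · exact h2 a h4
    · exact h1 _ List.mem_cons_self

/-- the arcs, with numbers -/
noncomputable def Ev.aS {α β : Type} (f : ℕ → α → (β → Bool) → Bool) (l : List α) :
    ℕ → (List β → Bool) → Bool :=
  List.rec (motive := fun _ => ℕ → (List β → Bool) → Bool) (fun _ k => k [])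
    (fun a _ ih t k => str t fun t => f t a fun b => ih (Nat.succ t) fun r => k (b :: r)) l

theorem Ev.aS_eq {α β : Type} {f : ℕ → α → (β → Bool) → Bool} {g : ℕ → α → β}
    (hf : ∀ t a k, f t a k = k (g t a)) : ∀ (l : List α) (t : ℕ) (k : List β → Bool),
    aS f l t k = k (l.mapIdx fun i a => g (t + i) a)
  | [], _, _ => rfl
  | a :: l, t, k => by
    show str t (fun t => f t a fun b => aS f l (Nat.succ t) fun r => k (b :: r)) = _
    rw [EV.str_eq, hf, aS_eq hf l, List.mapIdx_cons]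
    congr 3
    funext i a
    congr 1
    show t + 1 + i = t + (i + 1)
    omega

namespace EV

noncomputable def sE (Q : Pa) (ce : ℕ → ℕ) (i : ℕ) (r : List EE) (k : List EE → Bool) : Bool :=
  str i fun i => str (Q.l i) fun a => str (Q.l (Q.φ i)) fun b => str (ce i) fun c =>
    str (ce (Q.α i)) fun d => k (⟨a, b, c, d⟩ :: r)

theorem sE_eq {Q : Pa} {ce : ℕ → ℕ} {i : ℕ} {r : List EE} {k : List EE → Bool} :
    sE Q ce i r k = k ([evEE Q ce i] ++ r) := by
  unfold sE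
  simp only [str_eq]
  rfl

noncomputable def sA (X : XE) (P : Pa) (t : ℕ) (p : ℕ × ℕ) (k : EA → Bool) : Bool :=
  str (Prod.fst p) fun i => str (Prod.snd p) fun j => str (P.l i) fun a => str (P.l (P.φ j)) fun b =>
    bst (P.real i) fun r => bst (Ev.bor r (X.sp i)) fun s => str (X.ce i) fun c =>
      str (X.ce' i) fun c' => k ⟨t, a, b, r, s, false, c, c'⟩

theorem sA_eq {X : XE} {P : Pa} {t : ℕ} {p : ℕ × ℕ} {k : EA → Bool} :
    sA X P t p k = k (evEA X P (fun _ => false) t p) := by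
  unfold sA
  simp only [str_eq, Ev.bst_eq, Ev.bor_eq]
  rfl

/-- requirements for the labels of the ring -/
noncomputable def sY1 (X : XE) (a : ℕ) (r : List EY) (k : List EY → Bool) : Bool :=
  str (X.st (Nat.add X.x a)) fun f => str (X.st' (Nat.add X.x a)) fun f' => k (⟨f, f', 0, 0, 0⟩ :: r)

/-- requirements for the arcs -/
noncomputable def sY2 (a : EA) (r : List EY) (k : List EY → Bool) : Bool :=
  str (p2 a.c) fun f => str (p2 a.c') fun f' =>
    k (⟨f, f', Bool.rec (motive := fun _ => ℕ) 0 1 a.r, a.a, a.b⟩ :: r)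

noncomputable def sY3 (X : XE) (i : ℕ) (r : List EY) (k : List EY → Bool) : Bool :=
  str i fun i => str (p2 (X.ce i)) fun f => str (p2 (X.ce' i)) fun f' => k (⟨f, f', 0, 0, 0⟩ :: r)

noncomputable def sY4 (z d : ℕ) (r : List EY) (k : List EY → Bool) : Bool :=
  str d fun d => str (p2 z) fun f' => k (⟨d, f', 0, 0, 0⟩ :: r)

noncomputable def sY5 (X : XE) (P : Pa) (z : ℕ) (q : ℕ × Bool × Bool) (r : List EY)
    (k : List EY → Bool) : Bool :=
  Bool.rec (motive := fun _ => Bool) (k r) (str (Prod.fst q) fun i => str (p2 (X.ce i)) fun f =>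
    str (p2 z) fun f' => str (P.l i) fun a => str (P.l (P.φ i)) fun b => k (⟨f, f', 2, a, b⟩ :: r))
      (Prod.fst (Prod.snd q))

noncomputable def sN (d : ℕ) (r : List ℕ) (k : List ℕ → Bool) : Bool := str d fun d => k (d :: r)

variable (X : XE) (P P' : Pa)

/-- the tables of the record -/
noncomputable def ofX (q s x m lo NB A : ℕ) (k : EV → Bool) : Bool :=
  fS (sE P X.ce) X.es [] fun es => fS (sE P' X.ce') X.es' [] fun es' =>
    aS (sA X P) X.ar 0 fun ars => fS (sY5 X P (Nat.sub q 2)) X.lr [] fun y5 =>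
      fS (sY4 (Nat.sub q 2)) X.dj y5 fun y4 => fS (sY3 X) X.kd y4 fun y3 =>
        fS sY2 ars y3 fun y2 => rS (sY1 X) X.k y2 fun ys => fS sN X.dj' [] fun rq =>
          k ⟨q, s, x, m, lo, NB, A, es, es', ars, ys, rq⟩

/-- the result of the computation -/
structure OfX (q s x m lo NB A : ℕ) (E : EV) : Prop where
  q : E.q = q
  s : E.s = s
  x : E.x = x
  m : E.m = m
  lo : E.lo = lo
  NB : E.NB = NB
  A : E.A = A
  es : E.es = X.es.map (evEE P X.ce)
  es' : E.es' = X.es'.map (evEE P' X.ce')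
  ars : E.ars = X.ar.mapIdx (evEA X P fun _ => false)
  y1 : ∀ a < X.k, ∃ y ∈ E.ys, y.k = 0 ∧ y.f = X.st (X.x + a) ∧ y.f' = X.st' (X.x + a)
  y2 : ∀ a ∈ E.ars, ∃ y ∈ E.ys, (y.k = if a.r = true then 1 else 0) ∧ y.a = a.a ∧
    y.b = a.b ∧ y.f = 2 ^ a.c ∧ y.f' = 2 ^ a.c'
  y3 : ∀ i ∈ X.kd, ∃ y ∈ E.ys, y.k = 0 ∧ y.f = 2 ^ X.ce i ∧ y.f' = 2 ^ X.ce' i
  y4 : ∀ z ∈ X.dj, ∃ y ∈ E.ys, y.k = 0 ∧ y.f = z ∧ y.f' = 2 ^ E.z
  y5 : ∀ q ∈ X.lr, q.2.1 = true → ∃ y ∈ E.ys, y.k = 2 ∧ y.a = P.l q.1 ∧ y.b = P.l (P.φ q.1) ∧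
    y.f = 2 ^ X.ce q.1 ∧ y.f' = 2 ^ E.z
  rq : ∀ d ∈ E.rq, d ∈ X.dj'

theorem ofX_ok {q s x m lo NB A : ℕ} {k : EV → Bool} (h : ofX X P P' q s x m lo NB A k = true) :
    ∃ E, OfX X P P' q s x m lo NB A E ∧ k E = true := by
  unfold ofX at h
  rw [Ev.fS_eq (G := fun i => [evEE P X.ce i]) (fun _ _ _ => sE_eq), Ev.flatMap_one, List.append_nil,
    Ev.fS_eq (G := fun i => [evEE P' X.ce' i]) (fun _ _ _ => sE_eq), Ev.flatMap_one, List.append_nil,
    Ev.aS_eq (g := evEA X P fun _ => false) (fun _ _ _ => sA_eq)] at h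
  have ez : ∀ (l : List (ℕ × ℕ)), (l.mapIdx fun i a => evEA X P (fun _ => false) (0 + i) a) =
      l.mapIdx (evEA X P fun _ => false) := by
    intro l
    congr 1
    funext i a
    rw [Nat.zero_add]
  rw [ez, Ev.fS_eq (G := fun q' : ℕ × Bool × Bool => if q'.2.1 = true then
      [⟨2 ^ X.ce q'.1, 2 ^ (q - 2), 2, P.l q'.1, P.l (P.φ q'.1)⟩] else []) (fun q' r k => by
        unfold sY5
        simp only [str_eq]
        rcases q' with ⟨a, b, c⟩
        cases b <;> rfl),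
    Ev.fS_eq (G := fun d : ℕ => [(⟨d, 2 ^ (q - 2), 0, 0, 0⟩ : EY)]) (fun d r k => by
        unfold sY4
        simp only [str_eq]
        rfl),
    Ev.fS_eq (G := fun i : ℕ => [(⟨2 ^ X.ce i, 2 ^ X.ce' i, 0, 0, 0⟩ : EY)]) (fun d r k => by
        unfold sY3
        simp only [str_eq]
        rfl),
    Ev.fS_eq (G := fun a : EA => [(⟨2 ^ a.c, 2 ^ a.c', Bool.rec (motive := fun _ => ℕ) 0 1 a.r, a.a,
      a.b⟩ : EY)]) (fun d r k => by
        unfold sY2
        simp only [str_eq]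
        rfl)] at h
  obtain ⟨ys, h1, h2, h3⟩ := Ev.rS_ok (g := fun a => (⟨X.st (X.x + a), X.st' (X.x + a), 0, 0, 0⟩ : EY))
    (fun a r k => by
        unfold sY1
        simp only [str_eq]
        rfl) _ _ _ h
  rw [Ev.fS_eq (G := fun d : ℕ => [d]) (fun d r k => by
        unfold sN
        simp only [str_eq]
        rfl)] at h3
  refine ⟨_, ⟨rfl, rfl, rfl, rfl, rfl, rfl, rfl, rfl, rfl, rfl, fun a ha => ?_, fun a ha => ?_,
    fun i hi => ?_, fun z hz => ?_, fun q' hq hq2 => ?_, fun d hd => ?_⟩, h3⟩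
  · exact ⟨_, h2 a ha, rfl, rfl, rfl⟩
  · refine ⟨_, h1 _ (List.mem_append_left _ (List.mem_flatMap.2 ⟨a, ha, List.mem_singleton_self _⟩)),
      ?_, rfl, rfl, rfl, rfl⟩
    show Bool.rec (motive := fun _ => ℕ) 0 1 a.r = _
    cases a.r <;> rfl
  · exact ⟨_, h1 _ (List.mem_append_right _ (List.mem_append_left _ (List.mem_flatMap.2 ⟨i, hi,
      List.mem_singleton_self _⟩))), rfl, rfl, rfl⟩
  · exact ⟨_, h1 _ (List.mem_append_right _ (List.mem_append_right _ (List.mem_append_left _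
      (List.mem_flatMap.2 ⟨z, hz, List.mem_singleton_self _⟩)))), rfl, rfl, rfl⟩
  · refine ⟨(⟨2 ^ X.ce q'.1, 2 ^ (q - 2), 2, P.l q'.1, P.l (P.φ q'.1)⟩ : EY), h1 _
      (List.mem_append_right _ (List.mem_append_right _ (List.mem_append_right _
        (List.mem_append_left _ (List.mem_flatMap.2 ⟨q', hq, ?_⟩))))), rfl, rfl, rfl, rfl, rfl⟩
    rw [if_pos hq2]
    exact List.mem_singleton_self _
  · rw [List.append_nil, List.mem_flatMap] at hd
    obtain ⟨a, ha, hd⟩ := hd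
    rw [List.mem_singleton] at hd
    rw [hd]
    exact ha

/-! ### The checks of the tables -/

variable (E : EV)

noncomputable def lt (a b : ℕ) : Bool := Nat.ble (Nat.succ a) b

theorem lt_true {a b : ℕ} : lt a b = true ↔ a < b := ble_iff

noncomputable def wE (e : EE) : Bool :=
  Ev.band (lt e.i E.z) (Ev.band (lt e.j E.z) (Ev.band (lt e.a E.m) (lt e.b E.m)))

noncomputable def wA' (a : EA) : Bool :=
  Ev.band (lt a.t E.A) (Ev.band (lt a.c E.z) (Ev.band (lt a.c' E.z) (Ev.band (lt a.a E.m) (lt a.b E.m))))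

noncomputable def wY (y : EY) : Bool :=
  Ev.band (lt y.f (p2 E.z)) (Ev.band (lt y.f' (p2 E.g)) (Ev.band (lt y.a E.m) (lt y.b E.m)))

noncomputable def wf : Bool :=
  Ev.band (Nat.ble 3 E.q) (Ev.band (Nat.ble E.A E.z) (Ev.band (Nat.ble (Nat.add E.xb E.x) E.L)
    (Ev.band (lt E.x E.m) (Ev.band (Ev.lall E.es E.wE) (Ev.band (Ev.lall E.es' E.wE)
      (Ev.band (Ev.lall E.ars E.wA') (Ev.band (Ev.lall E.ys E.wY) (Ev.band (Nat.ble (Ev.llen E.ys) E.s)
        (Ev.band (Ev.lall E.rq fun d => lt d (p2 E.z)) (Ev.band (Nat.ble (Ev.llen E.rq) E.s)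
          (Ev.band (lt 0 E.A) (chn E.x E.ars E.x))))))))))))

theorem wf_ok {E : EV} (h : E.wf = true) : E.Wf ∧ E.x < E.m ∧ 0 < E.A ∧ chn E.x E.ars E.x = true := by
  unfold wf at h
  obtain ⟨h1, h⟩ := band_true h
  obtain ⟨h2, h⟩ := band_true h
  obtain ⟨h3, h⟩ := band_true h
  obtain ⟨h4, h⟩ := band_true h
  obtain ⟨h5, h⟩ := band_true h
  obtain ⟨h6, h⟩ := band_true h
  obtain ⟨h7, h⟩ := band_true h
  obtain ⟨h8, h⟩ := band_true h
  obtain ⟨h9, h⟩ := band_true h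
  obtain ⟨h10, h⟩ := band_true h
  obtain ⟨h11, h⟩ := band_true h
  obtain ⟨h12, h13⟩ := band_true h
  rw [Ev.lall_eq, List.all_eq_true] at h5 h6 h7 h8 h10
  refine ⟨⟨ble_iff.1 h1, ble_iff.1 h2, ble_iff.1 h3, (lt_true.1 h4).le, fun e he => ?_, fun e he => ?_,
    fun a ha => ?_, fun y hy => ?_, ?_, fun d hd => lt_true.1 (h10 d hd), ?_⟩, lt_true.1 h4,
    lt_true.1 h12, h13⟩
  · obtain ⟨a1, h⟩ := band_true (h5 e he)
    obtain ⟨a2, h⟩ := band_true h
    obtain ⟨a3, a4⟩ := band_true h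
    exact ⟨lt_true.1 a1, lt_true.1 a2, lt_true.1 a3, lt_true.1 a4⟩
  · obtain ⟨a1, h⟩ := band_true (h6 e he)
    obtain ⟨a2, h⟩ := band_true h
    obtain ⟨a3, a4⟩ := band_true h
    exact ⟨lt_true.1 a1, lt_true.1 a2, lt_true.1 a3, lt_true.1 a4⟩
  · obtain ⟨a1, h⟩ := band_true (h7 a ha)
    obtain ⟨a2, h⟩ := band_true h
    obtain ⟨a3, h⟩ := band_true h
    obtain ⟨a4, a5⟩ := band_true h
    exact ⟨lt_true.1 a1, lt_true.1 a2, lt_true.1 a3, lt_true.1 a4, lt_true.1 a5⟩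
  · obtain ⟨a1, h⟩ := band_true (h8 y hy)
    obtain ⟨a2, h⟩ := band_true h
    obtain ⟨a3, a4⟩ := band_true h
    exact ⟨lt_true.1 a1, lt_true.1 a2, lt_true.1 a3, lt_true.1 a4⟩
  · rw [← llen_eq]; exact ble_iff.1 h9
  · rw [← llen_eq]; exact ble_iff.1 h11

/-- the complete check of a record -/
noncomputable def ev (q s x m lo NB A : ℕ) (G : EK) : Bool :=
  Ev.band (Nat.beq x X.x) (Ev.band (Nat.beq m (Nat.add X.x X.k)) (Ev.band (Nat.beq A (Ev.llen X.ar))
    (Ev.band (Ev.lall X.es P.real) (Ev.band (Ev.lall X.es' P'.real) (Ev.band (Ev.lall X.kd fun i => lt i P.n)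
      (ofX X P P' q s x m lo NB A fun E => Ev.band E.wf (E.runF G)))))))

end EV

/-- the conditions of the vector check -/
structure XE.VOk (X : XE) (P P' : Pa) : Prop where
  kd : ∀ i ∈ X.kd, i < P.n
  run : X.ringOk P = true → ∃ E G, EvLv E X P P' (fun _ => false) ∧ 0 < X.k ∧ E.ars ≠ [] ∧
    EV.chn E.x E.ars E.x = true ∧ E.run G = true

theorem EV.ev_ok {X : XE} {P P' : Pa} {q s x m lo NB A : ℕ} {G : EK}
    (h : EV.ev X P P' q s x m lo NB A G = true) : X.VOk P P' := by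
  unfold EV.ev at h
  obtain ⟨h1, h⟩ := band_true h
  obtain ⟨h2, h⟩ := band_true h
  obtain ⟨h3, h⟩ := band_true h
  obtain ⟨h4, h⟩ := band_true h
  obtain ⟨h5, h⟩ := band_true h
  obtain ⟨h6, h⟩ := band_true h
  rw [Ev.lall_eq, List.all_eq_true] at h4 h5 h6
  have g1 : x = X.x := beq_true.1 h1
  have g2 : m = X.x + X.k := beq_true.1 h2
  have g3 : A = X.ar.length := by
    rw [← llen_eq]
    exact beq_true.1 h3
  obtain ⟨E, hE, h7⟩ := EV.ofX_ok X P P' h
  obtain ⟨h8, h9⟩ := band_true h7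
  obtain ⟨w, w1, w2, w3⟩ := EV.wf_ok h8
  have kd : ∀ i ∈ X.kd, i < P.n := fun i hi => EV.lt_true.1 (h6 i hi)
  refine ⟨kd, fun hr => ⟨E, G, ⟨w, hE.x.trans g1, hE.m.trans g2, hE.A.trans g3, hE.es, hE.es', hE.ars,
    hE.y1, fun p hp => ?_, fun i hi => ⟨kd i hi, hE.y3 i hi⟩, hE.y4, hE.y5, hE.rq, hr, h4, h5⟩, ?_, ?_,
    w3, (E.runF_eq G).symm.trans h9⟩⟩
  · obtain ⟨t, ht, rfl⟩ := List.getElem_of_mem hp
    exact hE.y2 (evEA X P (fun _ => false) t X.ar[t]) (by rw [hE.ars, List.mem_mapIdx]; exact ⟨t, ht, rfl⟩)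
  · rw [hE.x, hE.m, g1, g2] at w1
    omega
  · intro h0
    have h10 := hE.ars
    rw [h0] at h10
    have h11 := congrArg List.length h10
    rw [List.length_mapIdx, List.length_nil, ← g3, ← hE.A] at h11
    omega

end Pool.FC7
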