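import Pool.Agent.FC7.RokK

/-! # Vector checks: functions of the records -/

set_option linter.unusedSectionVars false

namespace Pool.FC7

namespace K

/-- the vector check of a fact -/
noncomputable def ev (F : Fc) (q s x m lo NB A w v XI nr nt nc N : ℕ) : Bool :=
  EV.ev F.XX F.P F.P' q s x m lo NB A ⟨w, v, XI, nr, nt, nc, N⟩

/-- the vector check of a fact without replacement -/
noncomputable def evS (F : Fr) (q s x m lo NB A w v XI nr nt nc N : ℕ) : Bool :=
  EV.ev F.XX F.P F.P q s x m lo NB A ⟨w, v, XI, nr, nt, nc, N⟩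

theorem ev_one {F : Fc} {q s x m lo NB A w v XI nr nt nc N : ℕ}
    (h : K.ev F q s x m lo NB A w v XI nr nt nc N = true) : F.One := Fc.oneV h

theorem evS_one {F : Fr} {q s x m lo NB A w v XI nr nt nc N : ℕ}
    (h : K.evS F q s x m lo NB A w v XI nr nt nc N = true) : F.One := Fr.oneV h

end K

end Pool.FC7
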