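import Pool.Agent.FC7.EvL

/-! # Vector checks: a fast form of the search -/

set_option linter.unusedSectionVars false

namespace Pool.FC7

open Ev

namespace EV

/-- the branch of a code -/
structure Br where
  f : (ℕ → KE → KE) → ℕ → KE → KE

variable (E : EV) (G : EK)

/-- a leaf with colours -/
noncomputable def bLT (X : ℕ) : Br :=
  ⟨fun _ w k N aT aC => k N (Nat.lor (Nat.shiftLeft aT E.L) (Nat.lor w X)) aC⟩

/-- a leaf which is contradictory -/
noncomputable def bLC : Br := ⟨fun _ w k N aT aC => k N aT (Nat.lor (Nat.shiftLeft aC E.L) w)⟩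

/-- a node with two children -/
noncomputable def bN1 (Y Z : ℕ) : Br :=
  ⟨fun ih w k N aT aC => ih (Nat.lor w Y) (ih (Nat.lor w Z) k) N aT aC⟩

/-- a node with a contradictory child -/
noncomputable def bN2 (Y Z : ℕ) : Br :=
  ⟨fun ih w k N aT aC => ih (Nat.lor w Z) k N aT (Nat.lor (Nat.shiftLeft aC E.L) (Nat.lor w Y))⟩

/-- the branch of the code `c` -/
noncomputable def act (c : ℕ) : Br :=
  Nat.rec (motive := fun _ => ℕ → Br)
    (fun ξ => Bool.rec (motive := fun _ => Br) (bLC E) (bLT E (Nat.shiftLeft ξ E.xb))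
      (Nat.ble (Nat.succ ξ) (p2 E.x)))
    (fun n1 _ => Nat.rec (motive := fun _ => ℕ → Br) (fun d => bN1 (E.tY d) (E.tN d))
      (fun n2 _ => Nat.rec (motive := fun _ => ℕ → Br) (fun d => bN2 E (E.tY d) (E.tN d))
        (fun _ _ d => bN2 E (E.tN d) (E.tY d)) n2) n1)
    (Nat.land c 3) (Nat.shiftRight c 2)

/-- the search; the codes are forced -/
noncomputable def trF (M sh : ℕ) (fuel : ℕ) : ℕ → KE → KE :=
  Nat.rec (motive := fun _ => ℕ → KE → KE) (fun _ _ _ _ _ => false)
    (fun _ ih w k N aT aC =>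
      Nat.rec (motive := fun _ => (ℕ → KE → KE) → ℕ → KE → KE) (fun _ _ _ _ _ _ => false)
        (fun n _ ih w k N aT aC =>
          Br.rec (motive := fun _ => (ℕ → KE → KE) → ℕ → KE → KE) (fun f => f) (act E n)
            ih w k (Nat.shiftRight N sh) aT aC)
        (Nat.succ (Nat.land N M)) ih w k N aT aC) fuel

/-- from time to time the numbers are forced -/
noncomputable def frc (c : ℕ) : ℕ → ℕ → (ℕ → ℕ → Bool) → Bool :=
  Nat.rec (motive := fun _ => ℕ → ℕ → (ℕ → ℕ → Bool) → Bool)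
    (fun aT aC k => str aT fun aT => str aC fun aC => k aT aC)
    (fun _ _ aT aC k => k aT aC) c

/-- the searches -/
noncomputable def lstF (V : ℕ) (k : ℕ → ℕ → ℕ → Bool) (n : ℕ) : ℕ → ℕ → ℕ → ℕ → Bool :=
  (fun M sh v2 v3 mv => Nat.rec (motive := fun _ => ℕ → ℕ → ℕ → ℕ → Bool)
    (fun _ aT aC X => k aT aC X)
    (fun m ih N aT aC X => frc (Nat.land m 15) aT aC fun aT aC =>
      (fun i sT sC => E.trF M sh 64 (Nat.land (Nat.shiftRight V (Nat.mul E.L i)) (mo E.L))
        (fun N bT bC => Bool.rec (motive := fun _ => Bool) false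
          (ih N (Nat.lor (Nat.shiftLeft aT sT) bT) (Nat.lor (Nat.shiftLeft aC sC) bC)
            (Nat.lor X (p2 i)))
          (Nat.beq (Nat.lor (Nat.shiftRight bC sC) (Nat.shiftRight bT sT)) 0))
        (Nat.shiftRight N v3) 0 0)
      (Nat.land N mv) (Nat.mul E.L (Nat.land (Nat.shiftRight N G.v) mv))
      (Nat.mul E.L (Nat.land (Nat.shiftRight N v2) mv))) n)
    (mo (Nat.add 2 G.w)) (Nat.add 2 G.w) (Nat.mul 2 G.v) (Nat.mul 3 G.v) (mo G.v)

theorem land_mo (N a b : ℕ) : Nat.land (Nat.land N (mo (Nat.add a b))) (mo a) = Nat.land N (mo a) := by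
  show (N &&& (2 ^ (a + b) - 1)) &&& (2 ^ a - 1) = N &&& (2 ^ a - 1)
  apply Nat.eq_of_testBit_eq
  intro i
  simp only [Nat.testBit_and, Nat.testBit_two_pow_sub_one]
  by_cases h : i < a
  · have h2 : i < a + b := by omega
    simp [h, h2]
  · simp [h]

theorem shr_mo (N a b : ℕ) : Nat.shiftRight (Nat.land N (mo (Nat.add a b))) a =
    Nat.land (Nat.shiftRight N a) (mo b) := by
  show (N &&& (2 ^ (a + b) - 1)) >>> a = (N >>> a) &&& (2 ^ b - 1)
  apply Nat.eq_of_testBit_eq
  intro i
  simp only [Nat.testBit_and, Nat.testBit_shiftRight, Nat.testBit_two_pow_sub_one]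
  by_cases h : i < b
  · have h2 : a + i < a + b := by omega
    simp [h, h2]
  · have h2 : ¬ a + i < a + b := by omega
    simp [h]

theorem trF_eq : ∀ fuel, E.trF (mo (Nat.add 2 G.w)) (Nat.add 2 G.w) fuel = E.tr G fuel
  | 0 => rfl
  | m + 1 => by
    have ih := trF_eq m
    funext w k N aT aC
    have e1 : Nat.land (Nat.land N (mo (Nat.add 2 G.w))) 3 = Nat.land N 3 := land_mo N 2 G.w
    have e2 : Nat.shiftRight (Nat.land N (mo (Nat.add 2 G.w))) 2 =
      Nat.land (Nat.shiftRight N 2) (mo G.w) := shr_mo N 2 G.w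
    show Br.rec (motive := fun _ => (ℕ → KE → KE) → ℕ → KE → KE) (fun f => f)
      (act E (Nat.land N (mo (Nat.add 2 G.w)))) (E.trF (mo (Nat.add 2 G.w)) (Nat.add 2 G.w) m) w k
        (Nat.shiftRight N (Nat.add 2 G.w)) aT aC = _
    unfold act
    rw [e1, e2, ih]
    unfold tr
    generalize hx : Nat.land N 3 = x
    show _ = Nat.rec (motive := fun _ => ℕ → ℕ → Bool) _ _ (Nat.land N 3) _ _
    rw [hx]
    rcases x with _ | _ | _ | x
    · show Br.rec (motive := fun _ => (ℕ → KE → KE) → ℕ → KE → KE) (fun f => f)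
        (Bool.rec (motive := fun _ => Br) (bLC E) (bLT E (Nat.shiftLeft _ E.xb))
          (Nat.ble (Nat.succ (Nat.land (Nat.shiftRight N 2) (mo G.w))) (p2 E.x))) _ w k _ aT aC =
        Bool.rec (motive := fun _ => Bool) _ _
          (Nat.ble (Nat.succ (Nat.land (Nat.shiftRight N 2) (mo G.w))) (p2 E.x))
      cases Nat.ble (Nat.succ (Nat.land (Nat.shiftRight N 2) (mo G.w))) (p2 E.x) <;> rfl
    · rfl
    · rfl
    · rfl

theorem frc_eq (c aT aC : ℕ) (k : ℕ → ℕ → Bool) : frc c aT aC k = k aT aC := by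
  cases c
  · show (str aT fun aT => str aC fun aC => k aT aC) = _
    rw [str_eq, str_eq]
  · rfl

theorem two_test (a b : ℕ) (r : Bool) :
    (Bool.rec (motive := fun _ => Bool) false r (Nat.beq (Nat.lor a b) 0) : Bool) =
      Bool.rec (motive := fun _ => Bool) false
        (Bool.rec (motive := fun _ => Bool) false r (Nat.beq a 0)) (Nat.beq b 0) := by
  rcases a with _ | a
  · have e : Nat.lor 0 b = b := Nat.zero_or b
    rw [e]
    cases Nat.beq b 0 <;> rfl
  · obtain ⟨n, hn⟩ : ∃ n, Nat.lor (a + 1) b = n + 1 := by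
      refine Nat.exists_eq_succ_of_ne_zero ?_
      show (a + 1) ||| b ≠ 0
      simp
    rw [hn]
    cases Nat.beq b 0 <;> rfl

theorem lstF_eq (V : ℕ) (k : ℕ → ℕ → ℕ → Bool) : ∀ n, E.lstF G V k n = E.lsts G V k n
  | 0 => rfl
  | m + 1 => by
    have ih := lstF_eq V k m
    funext N aT aC X
    show (frc (Nat.land m 15) aT aC fun aT aC =>
      E.trF (mo (Nat.add 2 G.w)) (Nat.add 2 G.w) 64
        (Nat.land (Nat.shiftRight V (Nat.mul E.L (Nat.land N (mo G.v)))) (mo E.L))
        (fun N' bT bC => Bool.rec (motive := fun _ => Bool) false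
          (E.lstF G V k m N' (Nat.lor (Nat.shiftLeft aT
            (Nat.mul E.L (Nat.land (Nat.shiftRight N G.v) (mo G.v)))) bT)
            (Nat.lor (Nat.shiftLeft aC
              (Nat.mul E.L (Nat.land (Nat.shiftRight N (Nat.mul 2 G.v)) (mo G.v)))) bC)
            (Nat.lor X (p2 (Nat.land N (mo G.v)))))
          (Nat.beq (Nat.lor
            (Nat.shiftRight bC (Nat.mul E.L (Nat.land (Nat.shiftRight N (Nat.mul 2 G.v)) (mo G.v))))
            (Nat.shiftRight bT (Nat.mul E.L (Nat.land (Nat.shiftRight N G.v) (mo G.v))))) 0))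
        (Nat.shiftRight N (Nat.mul 3 G.v)) 0 0) =
      (str aT fun aT => str aC fun aC =>
        E.tr G 64 (Nat.land (Nat.shiftRight V (Nat.mul E.L (Nat.land N (mo G.v)))) (mo E.L))
          (fun N' bT bC => Bool.rec (motive := fun _ => Bool) false
            (Bool.rec (motive := fun _ => Bool) false
              (E.lsts G V k m N' (E.cat aT bT (Nat.land (Nat.shiftRight N G.v) (mo G.v)))
                (E.cat aC bC (Nat.land (Nat.shiftRight N (Nat.mul 2 G.v)) (mo G.v)))
                (Nat.lor X (p2 (Nat.land N (mo G.v)))))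
              (Nat.beq (Nat.shiftRight bC
                (Nat.mul E.L (Nat.land (Nat.shiftRight N (Nat.mul 2 G.v)) (mo G.v)))) 0))
            (Nat.beq (Nat.shiftRight bT
              (Nat.mul E.L (Nat.land (Nat.shiftRight N G.v) (mo G.v)))) 0))
          (Nat.shiftRight N (Nat.mul 3 G.v)) 0 0)
    rw [frc_eq, str_eq, str_eq, trF_eq, ih]
    congr 1
    funext N' bT bC
    exact two_test _ _ _

end EV

end Pool.FC7
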