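import Pool.Agent.FC7.ExR

/-! # The extension check for the class with optional faces

Cells = classes of darts of the patch under rotation of the triangles and virtual inner edges.  The
outside of the patch is described by: the activity of the virtual arcs (their outside class contains a
bichromatic edge), noncrossing pairs of arcs which are joined outside, and the outer sides of the
labelled ring edges. -/

open Finset

namespace Pool.FC7

open Pool.FC6

/-- the dart is a bichromatic real dart -/
def br (P : Pa) (c i : ℕ) : Bool := P.real i && (c.testBit (P.l i) != c.testBit (P.l (P.φ i)))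

/-- data of an extension check.  Labels `0, .., x-1` (interior) are recoloured, the labels `< lo` are
dead in `S'`, the labels `x, .., x+k-1` are labels of the ring, all other labels are free.
`ce, ce'` = cell of a dart in `P, P'`; `cr, cr'` = root dart of a cell, `pa, pa'`, `pk, pk'` parent and
rank of a dart in its cell; `st a, st' a` = masks of the cells at the label `a`; `es`, `es'` = one dart for
each real inner edge; `rs` = the ring darts in cyclic order, `ar` = the arcs: pairs of ring darts
which are joined by the patch, or `(i, i)`; `sp` : the arc is active if its ends have different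
colours; `nc` : use the noncrossing property, `par` : use the parity; `dj`: masks of cells of `P`, each
has to meet the visited set; `dj'`: masks of cells of `P'`, each meets the visited set of `S'`; `lr`:
labelled real ring darts with the flags (label in `S`), (label in the new state); `kd`: kept darts: if
the face in `S'` is visited then the face in `S` is visited -/
structure XE where
  x : ℕ
  k : ℕ
  lo : ℕ
  nc : Bool
  par : Bool
  flt : ℕ → Bool
  ce : ℕ → ℕ
  ce' : ℕ → ℕ
  cr : ℕ → ℕ
  pa : ℕ → ℕ
  pk : ℕ → ℕ
  cr' : ℕ → ℕ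
  pa' : ℕ → ℕ
  pk' : ℕ → ℕ
  st : ℕ → ℕ
  st' : ℕ → ℕ
  es : List ℕ
  es' : List ℕ
  rs : List ℕ
  ar : List (ℕ × ℕ)
  sp : ℕ → Bool
  dj : List ℕ
  dj' : List ℕ
  lr : List (ℕ × Bool × Bool)
  kd : List ℕ := []

namespace XE

variable (X : XE) (P P' : Pa)

/-- the representatives of the arcs -/
def as : List ℕ := X.ar.map Prod.fst

/-- the components of the open cells -/
def cmps (Q : Pa) (ce : ℕ → ℕ) (es : List ℕ) (c : ℕ) : List ℕ :=
  X.as.foldl (fun L i => if Q.op c i then mg (2 ^ ce i) L else L)
    (es.foldl (fun L i => if Q.op c i then mg (2 ^ ce i ||| 2 ^ ce (Q.α i)) L else L) [])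

/-- the cells with a bichromatic dart or an active arc (`Ac` = list of the active virtual arcs) -/
def bm (Q : Pa) (ce : ℕ → ℕ) (es : List ℕ) (c : ℕ) (Ac : List ℕ) : ℕ :=
  es.foldl (fun m i => if br Q c i then m ||| (2 ^ ce i ||| 2 ^ ce (Q.α i)) else m)
    (X.as.foldl (fun m i => if br Q c i || Ac.contains i then m ||| 2 ^ ce i else m) 0)

/-- union of the components which meet `B` -/
def vu (B : ℕ) (L : List ℕ) : ℕ := mun (L.filter fun m => m &&& B != 0)

/-- union of the components which contain the cell `t` -/
def co (t : ℕ) (L : List ℕ) : ℕ := mun (L.filter fun m => m.testBit t)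

/-- the transfer condition for the component `K` of `P'` -/
def tra (c0 B' : ℕ) (C : List ℕ) (U : ℕ) (K : ℕ) : Bool :=
  let r := X.as.filter fun i => P'.op c0 i && K.testBit (X.ce' i)
  let a := (List.range X.k).filter fun a => K &&& X.st' (X.x + a) != 0
  let t := fun W : ℕ => r.all (fun i => W.testBit (X.ce i)) && a.all fun a => W &&& X.st (X.x + a) != 0
  if K &&& B' != 0 then t U else r.all fun j => t (U ||| co (X.ce j) C)

/-- `L` = components of `P'`, `B'` = marked cells of `P'`, `prs` = pairs joined outside, `ex` =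
additional requirements -/
def leaf (c0 : ℕ) (Ac : List ℕ) (B' : ℕ) (ex : List ℕ) (L : List ℕ) (prs : List (ℕ × ℕ)) : Bool :=
  !allN (2 ^ X.x) fun ξ =>
    !(let c := (c0 >>> X.x) <<< X.x + ξ
      let C := XD.addp X.ce prs (X.cmps P X.ce X.es c)
      let B := X.bm P X.ce X.es c Ac
      let U := vu B C
      (X.dj ++ ex).all (fun m => m &&& U != 0) &&
      decide ((C.filter fun m => m &&& B != 0).length ≤ 1) &&
        (vu B' L != 0 || decide (U = 0)) &&
        L.all (X.tra P' c0 B' C U))

/-- the activity of an open arc -/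
def act (P : Pa) (Ac : List ℕ) (i : ℕ) : Bool := P.real i || Ac.contains i

/-- the position of a ring dart -/
def pos (i : ℕ) : ℕ := X.rs.idxOf i

/-- the pairs `p, q` of ring darts cross -/
def crs (p q : ℕ × ℕ) : Bool :=
  let a := min (X.pos p.1) (X.pos p.2)
  let b := max (X.pos p.1) (X.pos p.2)
  let s := X.pos q.1
  let t := X.pos q.2
  (decide (a < s) && decide (s < b) && (decide (t < a) || decide (b < t))) ||
    (decide (a < t) && decide (t < b) && (decide (s < a) || decide (b < s)))

/-- the new pair and the pairs forced by crossings -/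
def news (p : ℕ × ℕ) (prs : List (ℕ × ℕ)) : List (ℕ × ℕ) :=
  p :: (if X.nc then (prs.filter fun q => X.crs p q).map (fun q => (p.1, q.1)) else [])

/-- the pairs which leave the component `r0` -/
def prs (P' : Pa) (Ac : List ℕ) (c0 r0 : ℕ) (k : ℕ × ℕ → Bool) : Bool :=
  X.as.all fun i => !P'.op c0 i || !r0.testBit (X.ce' i) ||
    X.as.all fun j => !P'.op c0 j || r0.testBit (X.ce' j) ||
      (act P Ac i != act P Ac j) || k (i, j)

def go (c0 : ℕ) (Ac : List ℕ) (B' : ℕ) (ex ex' : List ℕ) : ℕ → List ℕ → List (ℕ × ℕ) → Bool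
  | 0, _, _ => false
  | fuel + 1, L, pr =>
      let V := vu B' L
      let nx := fun p => let q := X.news p pr
        (q.any fun z => act P Ac z.1 != act P Ac z.2) ||
          go c0 Ac B' ex ex' fuel (XD.addp X.ce' q L) (q ++ pr)
      match (ex' ++ X.dj').find? fun m => m &&& V == 0 with
      | some m => L.all fun r0 => r0 &&& m == 0 || X.prs P P' Ac c0 r0 nx
      | none =>
        match L.filter fun m => m &&& B' != 0 with
        | r0 :: _ :: _ => X.prs P P' Ac c0 r0 nx
        | _ => X.leaf P P' c0 Ac B' ex L pr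

/-- all sublists -/
def subs (k : List ℕ → Bool) : List ℕ → List ℕ → Bool
  | [], Ac => k Ac
  | i :: l, Ac => subs k l Ac && subs k l (i :: Ac)

/-- the labelled ring edges: if the edge is monochromatic then its outer side is visited or not -/
def labs (c0 : ℕ) (k : List ℕ → List ℕ → Bool) : List (ℕ × Bool × Bool) → List ℕ → List ℕ → Bool
  | [], ex, ex' => k ex ex'
  | (i, s, s') :: l, ex, ex' =>
      if P.op c0 i then labs c0 k l ex ex'
      else if s' then labs c0 k l ex ex' &&
        labs c0 k l (if s then 2 ^ X.ce i :: ex else ex) (2 ^ X.ce' i :: ex')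
      else if s then labs c0 k l (2 ^ X.ce i :: ex) ex'
      else labs c0 k l ex ex'

/-- the ends of the arc have different colours -/
def oda (P : Pa) (c0 : ℕ) (p : ℕ × ℕ) : Bool := c0.testBit (P.l p.1) != c0.testBit (P.l (P.φ p.2))

/-- virtual arcs which are surely active, and the other ones -/
def fo (c0 : ℕ) : List ℕ :=
  (X.ar.filter fun p => !P.real p.1 && (X.sp p.1 && oda P c0 p)).map Prod.fst

def fr (c0 : ℕ) : List ℕ :=
  (X.ar.filter fun p => !P.real p.1 && !(X.sp p.1 && oda P c0 p)).map Prod.fst

/-- the check for one colouring -/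
def one (c0 : ℕ) : Bool :=
  let C' := X.cmps P' X.ce' X.es' c0
  subs (fun Ac =>
    let B' := X.bm P' X.ce' X.es' c0 Ac
    X.labs P c0 (fun ex ex' =>
      let K := fun pr => (pr.any fun z => act P Ac z.1 != act P Ac z.2) ||
        X.go P P' c0 Ac B' ex ex' (C'.length + 1) (XD.addp X.ce' pr C') pr
      K [] || (X.par && mt K ((X.ar.filter (oda P c0)).map Prod.fst) [] [])) X.lr [] [])
    (X.fr P c0) (X.fo P c0)

/-- the static conditions -/
def stat : Bool :=
  allN P.n (fun i =>
    (!P.real i || (decide (P.l i < X.x + X.k) && decide (P.l (P.φ i) < X.x + X.k))) &&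
    (!P'.real i || (decide (P'.l i < X.x + X.k) && decide (P'.l (P'.φ i) < X.x + X.k))) &&
    (P.real (P.α i) == P.real i) && (P'.real (P.α i) == P'.real i) &&
    decide (X.ce (P.φ i) = X.ce i) && decide (X.ce' (P'.φ i) = X.ce' i) &&
    (P.real i || decide (X.ce (P.α i) = X.ce i)) &&
    (P'.real i || decide (X.ce' (P.α i) = X.ce' i)) &&
    (X.st' (P'.l i)).testBit (X.ce' i) && decide (X.cr (X.ce i) < P.n) &&
    (decide (i = X.cr (X.ce i)) || (decide (X.pk (X.pa i) < X.pk i) &&
      decide (X.pa i < P.n) && decide (X.ce (X.pa i) = X.ce i) &&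
      (decide (X.pa i = P.φ i) ||
        (decide (P.α i ≠ i) && !P.real i && decide (X.pa i = P.α i))))) &&
    decide (X.cr' (X.ce' i) < P.n) &&
    (decide (i = X.cr' (X.ce' i)) || (decide (X.pk' (X.pa' i) < X.pk' i) &&
      decide (X.pa' i < P.n) && decide (X.ce' (X.pa' i) = X.ce' i) &&
      (decide (X.pa' i = P'.φ i) ||
        (decide (P.α i ≠ i) && !P'.real i && decide (X.pa' i = P.α i))))) &&
    (if P.α i = i then decide (i ∈ X.rs) && (P'.real i == P.real i) && decide (P'.l i = P.l i) &&
      decide (P'.l (P'.φ i) = P.l (P.φ i)) && decide (X.x ≤ P.l i) && decide (X.x ≤ P.l (P.φ i))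
      else (!P.real i || decide (i ∈ X.es) || decide (P.α i ∈ X.es)) &&
        (!P'.real i || decide (i ∈ X.es') || decide (P.α i ∈ X.es')))) &&
  X.es.all (fun i => decide (i < P.n) && decide (P.α i ≠ i)) &&
  X.es'.all (fun i => decide (i < P.n) && decide (P.α i ≠ i)) &&
  X.rs.all (fun i => decide (i < P.n) && decide (P.α i = i)) &&
  allN (X.x + X.k) (fun a => decide (X.st a =
    (List.range P.n).foldl (fun m i => if P.l i = a then m ||| 2 ^ X.ce i else m) 0)) &&
  decide (X.rs = X.ar.flatMap ad) &&
  X.ar.all (fun p => (decide (p.1 = p.2) || (!P.real p.1 && !P.real p.2 &&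
      decide (P.l (P.φ p.1) = P.l p.2) && decide (X.ce p.1 = X.ce p.2) &&
      decide (X.ce' p.1 = X.ce' p.2))) &&
    decide (P.l p.1 < X.x + X.k) && decide (P.l (P.φ p.2) < X.x + X.k))

/-- the ring conditions: `rs` is cyclically ordered and the patch is connected -/
def ringOk : Bool :=
  decide X.rs.Nodup && XD.chn P X.rs &&
    decide ((X.rs.foldl (fun L i => mg (2 ^ X.ce i) L)
      (X.es.foldl (fun L i => mg (2 ^ X.ce i ||| 2 ^ X.ce (P.α i)) L) [])).length ≤ 1)

/-- the complete check -/
def chk : Bool :=
  X.stat P P' && (if X.nc || X.par then X.ringOk P else true) && decide (X.lo ≤ X.x) &&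
    X.lr.all (fun q => decide (q.1 ∈ X.as) && P.real q.1) &&
    allN (2 ^ (X.x + X.k - X.lo)) fun r => !X.flt (r <<< X.lo) || X.one P P' (r <<< X.lo)

end XE

end Pool.FC7
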