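import Pool.Agent.FC7.ExD

/-! # Soundness of the extension check: the context -/

open Finset

set_option linter.unusedSectionVars false

namespace Pool.FC7

open Pool.FC6

variable {D V : Type} [Fintype D] [DecidableEq V]

namespace XE

/-- the static facts -/
structure Stat (X : XE) (P P' : Pa) : Prop where
  rl : ∀ i < P.n, P.real i = true → P.l i < X.x + X.k ∧ P.l (P.φ i) < X.x + X.k
  rl' : ∀ i < P.n, P'.real i = true → P'.l i < X.x + X.k ∧ P'.l (P'.φ i) < X.x + X.k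
  rα : ∀ i < P.n, P.real (P.α i) = P.real i
  rα' : ∀ i < P.n, P'.real (P.α i) = P'.real i
  ce : ∀ i < P.n, X.ce (P.φ i) = X.ce i
  ce' : ∀ i < P.n, X.ce' (P'.φ i) = X.ce' i
  cv : ∀ i < P.n, P.real i = false → X.ce (P.α i) = X.ce i
  cv' : ∀ i < P.n, P'.real i = false → X.ce' (P.α i) = X.ce' i
  st' : ∀ i < P.n, (X.st' (P'.l i)).testBit (X.ce' i) = true
  crl : ∀ i < P.n, X.cr (X.ce i) < P.n
  tr : ∀ i < P.n, i = X.cr (X.ce i) ∨ (X.pk (X.pa i) < X.pk i ∧ X.pa i < P.n ∧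
    X.ce (X.pa i) = X.ce i ∧ (X.pa i = P.φ i ∨ (P.α i ≠ i ∧ P.real i = false ∧ X.pa i = P.α i)))
  tr' : ∀ i < P.n, i = X.cr' (X.ce' i) ∨ (X.pk' (X.pa' i) < X.pk' i ∧ X.pa' i < P.n ∧
    X.ce' (X.pa' i) = X.ce' i ∧
    (X.pa' i = P'.φ i ∨ (P.α i ≠ i ∧ P'.real i = false ∧ X.pa' i = P.α i)))
  ring : ∀ i < P.n, P.α i = i → i ∈ X.rs ∧ P'.real i = P.real i ∧ P'.l i = P.l i ∧
    P'.l (P'.φ i) = P.l (P.φ i) ∧ X.x ≤ P.l i ∧ X.x ≤ P.l (P.φ i)
  inn : ∀ i < P.n, P.α i ≠ i → P.real i = true → i ∈ X.es ∨ P.α i ∈ X.es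
  inn' : ∀ i < P.n, P.α i ≠ i → P'.real i = true → i ∈ X.es' ∨ P.α i ∈ X.es'
  es : ∀ i ∈ X.es, i < P.n ∧ P.α i ≠ i
  es' : ∀ i ∈ X.es', i < P.n ∧ P.α i ≠ i
  rs : ∀ i ∈ X.rs, i < P.n ∧ P.α i = i
  stb : ∀ a < X.x + X.k, ∀ t, (X.st a).testBit t = true → ∃ i < P.n, P.l i = a ∧ X.ce i = t
  ar : X.rs = X.ar.flatMap ad
  tw : ∀ p ∈ X.ar, p.1 = p.2 ∨ (P.real p.1 = false ∧ P.real p.2 = false ∧
    P.l (P.φ p.1) = P.l p.2 ∧ X.ce p.1 = X.ce p.2 ∧ X.ce' p.1 = X.ce' p.2)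
  al : ∀ p ∈ X.ar, P.l p.1 < X.x + X.k ∧ P.l (P.φ p.2) < X.x + X.k

theorem stat_of {X : XE} {P P' : Pa} (h : X.stat P P' = true) : Stat X P P' := by
  unfold stat at h
  simp only [Bool.and_eq_true, allN_iff, List.all_eq_true, decide_eq_true_eq] at h
  obtain ⟨⟨⟨⟨⟨⟨h1, h2⟩, h2'⟩, h3⟩, h4⟩, h5⟩, h6⟩ := h
  have h1' : ∀ i < P.n, (P.real i = true → P.l i < X.x + X.k ∧ P.l (P.φ i) < X.x + X.k) ∧
      (P'.real i = true → P'.l i < X.x + X.k ∧ P'.l (P'.φ i) < X.x + X.k) ∧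
      P.real (P.α i) = P.real i ∧ P'.real (P.α i) = P'.real i ∧
      X.ce (P.φ i) = X.ce i ∧ X.ce' (P'.φ i) = X.ce' i ∧
      (P.real i = false → X.ce (P.α i) = X.ce i) ∧
      (P'.real i = false → X.ce' (P.α i) = X.ce' i) ∧
      (X.st' (P'.l i)).testBit (X.ce' i) = true ∧ X.cr (X.ce i) < P.n ∧
      (i = X.cr (X.ce i) ∨ (X.pk (X.pa i) < X.pk i ∧ X.pa i < P.n ∧
        X.ce (X.pa i) = X.ce i ∧
        (X.pa i = P.φ i ∨ (P.α i ≠ i ∧ P.real i = false ∧ X.pa i = P.α i)))) ∧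
      (i = X.cr' (X.ce' i) ∨ (X.pk' (X.pa' i) < X.pk' i ∧ X.pa' i < P.n ∧
        X.ce' (X.pa' i) = X.ce' i ∧
        (X.pa' i = P'.φ i ∨ (P.α i ≠ i ∧ P'.real i = false ∧ X.pa' i = P.α i)))) ∧
      (P.α i = i → i ∈ X.rs ∧ P'.real i = P.real i ∧ P'.l i = P.l i ∧
        P'.l (P'.φ i) = P.l (P.φ i) ∧ X.x ≤ P.l i ∧ X.x ≤ P.l (P.φ i)) ∧
      (P.α i ≠ i → (P.real i = true → i ∈ X.es ∨ P.α i ∈ X.es) ∧
        (P'.real i = true → i ∈ X.es' ∨ P.α i ∈ X.es')) := by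
    intro i hi
    have := h1 i hi
    simp only [Bool.and_eq_true, Bool.or_eq_true, decide_eq_true_eq, beq_iff_eq,
      Bool.not_eq_true'] at this
    obtain ⟨⟨⟨⟨⟨⟨⟨⟨⟨⟨⟨⟨⟨a1, a2⟩, a3⟩, a4⟩, a5⟩, a6⟩, b1⟩, b2⟩, a7⟩, a8⟩, a9⟩, -⟩, b9⟩, a10⟩ := this
    refine ⟨fun hr => ?_, fun hr => ?_, a3, a4, a5, a6, fun hr => ?_, fun hr => ?_, a7, a8, ?_, ?_,
      fun he => ?_, fun he => ?_⟩
    · rcases a1 with a1 | a1
      · rw [hr] at a1; cases a1
      · exact a1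
    · rcases a2 with a2 | a2
      · rw [hr] at a2; cases a2
      · exact a2
    · rcases b1 with b1 | b1
      · rw [hr] at b1; cases b1
      · exact b1
    · rcases b2 with b2 | b2
      · rw [hr] at b2; cases b2
      · exact b2
    · rcases a9 with a9 | a9
      · exact Or.inl a9
      · refine Or.inr ⟨a9.1.1.1, a9.1.1.2, a9.1.2, ?_⟩
        rcases a9.2 with a11 | a11
        · exact Or.inl a11
        · exact Or.inr ⟨a11.1.1, a11.1.2, a11.2⟩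
    · rcases b9 with a9 | a9
      · exact Or.inl a9
      · refine Or.inr ⟨a9.1.1.1, a9.1.1.2, a9.1.2, ?_⟩
        rcases a9.2 with a11 | a11
        · exact Or.inl a11
        · exact Or.inr ⟨a11.1.1, a11.1.2, a11.2⟩
    · rw [if_pos he] at a10
      simp only [Bool.and_eq_true, decide_eq_true_eq, beq_iff_eq] at a10
      obtain ⟨⟨⟨⟨⟨c1, c2⟩, c3⟩, c4⟩, c5⟩, c6⟩ := a10
      exact ⟨c1, c2, c3, c4, c5, c6⟩
    · rw [if_neg he] at a10
      simp only [Bool.and_eq_true, Bool.or_eq_true, decide_eq_true_eq, Bool.not_eq_true'] at a10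
      constructor
      · intro hr
        rcases a10.1 with (c | c) | c
        · rw [hr] at c; cases c
        · exact Or.inl c
        · exact Or.inr c
      · intro hr
        rcases a10.2 with (c | c) | c
        · rw [hr] at c; cases c
        · exact Or.inl c
        · exact Or.inr c
  refine ⟨fun i hi => (h1' i hi).1, fun i hi => (h1' i hi).2.1, fun i hi => (h1' i hi).2.2.1,
    fun i hi => (h1' i hi).2.2.2.1, fun i hi => (h1' i hi).2.2.2.2.1,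
    fun i hi => (h1' i hi).2.2.2.2.2.1, fun i hi => (h1' i hi).2.2.2.2.2.2.1,
    fun i hi => (h1' i hi).2.2.2.2.2.2.2.1, fun i hi => (h1' i hi).2.2.2.2.2.2.2.2.1,
    fun i hi => (h1' i hi).2.2.2.2.2.2.2.2.2.1, fun i hi => (h1' i hi).2.2.2.2.2.2.2.2.2.2.1,
    fun i hi => (h1' i hi).2.2.2.2.2.2.2.2.2.2.2.1,
    fun i hi => (h1' i hi).2.2.2.2.2.2.2.2.2.2.2.2.1,
    fun i hi he => ((h1' i hi).2.2.2.2.2.2.2.2.2.2.2.2.2 he).1,
    fun i hi he => ((h1' i hi).2.2.2.2.2.2.2.2.2.2.2.2.2 he).2, h2, h2', h3, fun a ha t ht => ?_, h5,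
    fun p hp => ?_, fun p hp => ?_⟩
  · rw [h4 a ha] at ht
    rcases XD.fold_bit (fun i => P.l i = a) X.ce (List.range P.n) 0 t ht with h5 | ⟨i, h5, h6, h7⟩
    · rw [Nat.zero_testBit] at h5; cases h5
    · exact ⟨i, List.mem_range.1 h5, h6, h7⟩
  · have := (h6 p hp).1.1
    simp only [Bool.or_eq_true, Bool.and_eq_true, decide_eq_true_eq, Bool.not_eq_true'] at this
    rcases this with h7 | h7
    · exact Or.inl h7
    · exact Or.inr ⟨h7.1.1.1.1, h7.1.1.1.2, h7.1.1.2, h7.1.2, h7.2⟩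
  · exact ⟨(h6 p hp).1.2, (h6 p hp).2⟩

end XE

/-- the list `L` of masks describes the components of the open cells of `Q` -/
structure Inv (Q : Pa) (ce : ℕ → ℕ) (m : ℕ) (L : List ℕ) : Prop where
  dj : L.Pairwise (fun a b => a &&& b = 0)
  ne : ∀ e ∈ L, e ≠ 0
  vi : ∀ e ∈ L, ∀ t, e.testBit t = true → ∃ i < Q.n, Q.op m i = true ∧ ce i = t
  inn : ∀ i < Q.n, Q.α i ≠ i → Q.real i = true → Q.op m i = true →
    ∃ e ∈ L, e.testBit (ce i) = true ∧ e.testBit (ce (Q.α i)) = true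
  all : ∀ i < Q.n, (Q.α i = i ∨ Q.real i = true) → Q.op m i = true →
    ∃ e ∈ L, e.testBit (ce i) = true

theorem Inv.uniq {Q : Pa} {ce : ℕ → ℕ} {m : ℕ} {L : List ℕ} (h : Inv Q ce m L) {a b t : ℕ}
    (ha : a ∈ L) (hb : b ∈ L) (h1 : a.testBit t = true) (h2 : b.testBit t = true) : a = b := by
  by_contra hne
  have : Std.Symm (fun a b : ℕ => a &&& b = 0) := ⟨fun x y h => by rw [Nat.land_comm]; exact h⟩
  have h0 := h.dj.forall ha hb hne
  exact and_eq_zero_iff.1 h0 t h1 h2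

theorem Inv.addp {Q : Pa} {ce : ℕ → ℕ} {m : ℕ} {L : List ℕ} (h : Inv Q ce m L)
    {prs : List (ℕ × ℕ)} (hp : ∀ p ∈ prs, (p.1 < Q.n ∧ Q.op m p.1 = true) ∧
      (p.2 < Q.n ∧ Q.op m p.2 = true)) : Inv Q ce m (XD.addp ce prs L) := by
  rw [addp_eq]
  have c1 := mf_cov (p := fun _ => true) (s := fun p : ℕ × ℕ => 2 ^ ce p.1 ||| 2 ^ ce p.2) prs L
  refine ⟨mf_disj _ _ h.dj, ?_, ?_, fun i hi hne hr ho => ?_, fun i hi hr ho => ?_⟩
  · apply mf_Q (Q := fun e => e ≠ 0)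
    · intro e e' he _ _ h0
      apply he
      have := Nat.or_eq_zero_iff.1 h0
      exact this.1
    · intro i _ _ h0
      have := (Nat.or_eq_zero_iff.1 h0).1
      exact Nat.pos_iff_ne_zero.1 (Nat.two_pow_pos _) this
    · exact h.ne
  · apply mf_Q (Q := fun e => ∀ t, e.testBit t = true → ∃ i < Q.n, Q.op m i = true ∧ ce i = t)
    · intro e e' h1 h2 _ t ht
      rw [Nat.testBit_or, Bool.or_eq_true] at ht
      rcases ht with ht | ht
      · exact h1 t ht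
      · exact h2 t ht
    · intro p hp' _ t ht
      rcases bit2.1 ht with ht | ht
      · exact ⟨p.1, (hp p hp').1.1, (hp p hp').1.2, ht⟩
      · exact ⟨p.2, (hp p hp').2.1, (hp p hp').2.2, ht⟩
    · exact h.vi
  · obtain ⟨e, h1, h2, h3⟩ := h.inn i hi hne hr ho
    obtain ⟨e', h4, h5⟩ := c1.2 e h1
    exact ⟨e', h4, h5 _ h2, h5 _ h3⟩
  · obtain ⟨e, h1, h2⟩ := h.all i hi hr ho
    obtain ⟨e', h4, h5⟩ := c1.2 e h1
    exact ⟨e', h4, h5 _ h2⟩

theorem cmps_eq (X : XE) (Q : Pa) (ce : ℕ → ℕ) (es : List ℕ) (m : ℕ) : X.cmps Q ce es m =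
    mf (fun i => Q.op m i) (fun i => 2 ^ ce i) X.as
      (mf (fun i => Q.op m i) (fun i => 2 ^ ce i ||| 2 ^ ce (Q.α i)) es []) := rfl

theorem inv_cmps {X : XE} {Q : Pa} (G : Q.Good) {ce : ℕ → ℕ} {es : List ℕ} {m : ℕ}
    (hrα : ∀ i < Q.n, Q.real (Q.α i) = Q.real i)
    (hes : ∀ i ∈ es, i < Q.n ∧ Q.α i ≠ i) (has : ∀ i ∈ X.as, i < Q.n)
    (hring : ∀ i < Q.n, Q.α i = i → Q.op m i = true → ∃ j ∈ X.as, ce j = ce i ∧ Q.op m j = true)
    (hinn : ∀ i < Q.n, Q.α i ≠ i → Q.real i = true → i ∈ es ∨ Q.α i ∈ es) :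
    Inv Q ce m (X.cmps Q ce es m) := by
  rw [cmps_eq]
  set L1 := mf (fun i => Q.op m i) (fun i => 2 ^ ce i ||| 2 ^ ce (Q.α i)) es [] with hL1
  have c1 := mf_cov (p := fun i => Q.op m i) (s := fun i => 2 ^ ce i ||| 2 ^ ce (Q.α i)) es []
  have c2 := mf_cov (p := fun i => Q.op m i) (s := fun i => 2 ^ ce i) X.as L1
  rw [← hL1] at c1
  have inn : ∀ i < Q.n, Q.α i ≠ i → Q.real i = true → Q.op m i = true →
      ∃ e ∈ mf (fun i => Q.op m i) (fun i => 2 ^ ce i) X.as L1,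
        e.testBit (ce i) = true ∧ e.testBit (ce (Q.α i)) = true := by
    intro i hi hne hr ho
    rcases hinn i hi hne hr with h | h
    · obtain ⟨e1, h1, h2⟩ := c1.1 i h ho
      obtain ⟨e2, h3, h4⟩ := c2.2 e1 h1
      exact ⟨e2, h3, h4 _ (h2 _ (bit2.2 (Or.inl rfl))), h4 _ (h2 _ (bit2.2 (Or.inr rfl)))⟩
    · obtain ⟨e1, h1, h2⟩ := c1.1 (Q.α i) h (by
        rw [op_α G hi hne (hrα i hi)]; exact ho)
      obtain ⟨e2, h3, h4⟩ := c2.2 e1 h1
      rw [G.αα i hi] at h2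
      exact ⟨e2, h3, h4 _ (h2 _ (bit2.2 (Or.inr rfl))), h4 _ (h2 _ (bit2.2 (Or.inl rfl)))⟩
  refine ⟨?_, ?_, ?_, inn, ?_⟩
  · apply mf_disj
    apply mf_disj
    exact List.Pairwise.nil
  · apply mf_Q (Q := fun e => e ≠ 0)
    · intro e e' he _ _ h0
      apply he
      have := Nat.or_eq_zero_iff.1 h0
      exact this.1
    · intro i _ _
      exact Nat.pos_iff_ne_zero.1 (Nat.two_pow_pos _)
    · apply mf_Q (Q := fun e => e ≠ 0)
      · intro e e' he _ _ h0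
        apply he
        have := Nat.or_eq_zero_iff.1 h0
        exact this.1
      · intro i _ _ h0
        have := (Nat.or_eq_zero_iff.1 h0).1
        exact Nat.pos_iff_ne_zero.1 (Nat.two_pow_pos _) this
      · simp
  · have hor : ∀ e e', (∀ t, e.testBit t = true → ∃ i < Q.n, Q.op m i = true ∧ ce i = t) →
        (∀ t, e'.testBit t = true → ∃ i < Q.n, Q.op m i = true ∧ ce i = t) → e' &&& e ≠ 0 →
        (∀ t, (e ||| e').testBit t = true → ∃ i < Q.n, Q.op m i = true ∧ ce i = t) := by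
      intro e e' h1 h2 _ t ht
      rw [Nat.testBit_or, Bool.or_eq_true] at ht
      rcases ht with ht | ht
      · exact h1 t ht
      · exact h2 t ht
    apply mf_Q (Q := fun e => ∀ t, e.testBit t = true → ∃ i < Q.n, Q.op m i = true ∧ ce i = t) hor
    · intro i hi ho t ht
      exact ⟨i, has i hi, ho, bit1.1 ht⟩
    · apply mf_Q (Q := fun e => ∀ t, e.testBit t = true → ∃ i < Q.n, Q.op m i = true ∧ ce i = t) hor
      · intro i hi ho t ht
        rcases bit2.1 ht with ht | ht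
        · exact ⟨i, (hes i hi).1, ho, ht⟩
        · refine ⟨Q.α i, G.αlt i (hes i hi).1, ?_, ht⟩
          rw [op_α G (hes i hi).1 (hes i hi).2 (hrα i (hes i hi).1)]; exact ho
      · simp
  · intro i hi hr ho
    by_cases hα : Q.α i = i
    · obtain ⟨j, j1, j2, j3⟩ := hring i hi hα ho
      obtain ⟨e, h1, h2⟩ := c2.1 j j1 j3
      exact ⟨e, h1, h2 _ (bit1.2 j2)⟩
    · obtain ⟨e, h1, h2, _⟩ := inn i hi hα (hr.resolve_left hα) ho
      exact ⟨e, h1, h2⟩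

/-- the state `S'` arises from `S` by replacing the patch `P` by `P'` (units disregarded) -/
structure Rpl (S S' : St D V) (P P' : Pa) (f : ℕ → D) (g : ℕ → V) : Prop where
  e : Em P S f g
  e' : Em P' S' f g
  G : P.Good
  G' : P'.Good
  hn : P'.n = P.n
  hα : ∀ i < P.n, P'.α i = P.α i
  αo : ∀ d, S'.M.α d = S.M.α d
  φo : ∀ d, (∀ i < P.n, f i ≠ d) → S'.M.φ d = S.M.φ d
  vo : ∀ d, (∀ i < P.n, f i ≠ d) → S'.M.v d = S.M.v d
  ro : ∀ d, (∀ i < P.n, f i ≠ d) → S'.real d = S.real d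

theorem _root_.Pool.FC6.Rep.rpl {S S' : St D V} {P P' : Pa} {f : ℕ → D} {g : ℕ → V}
    (h : Rep S S' P P' f g) : Rpl S S' P P' f g :=
  ⟨h.e, h.e', h.G, h.G', h.hn, h.hα, h.αo, h.φo, h.vo, h.ro⟩

/-- the situation of the extension theorem -/
structure Cx (S S' : St D V) (P P' : Pa) (f : ℕ → D) (g : ℕ → V) (X : XE) (c' : V → Bool)
    (c0 : ℕ) : Prop where
  h : Rpl S S' P P' f g
  rα : ∀ d, S.real (S.M.α d) = S.real d
  rα' : ∀ d, S'.real (S'.M.α d) = S'.real d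
  st : X.Stat P P'
  hX : ∀ a < X.x, ∀ d, S.M.v d = g a → ∃ i < P.n, f i = d
  hg : ∀ a < X.x, ∀ i < P.n, P.l i ≠ a → g (P.l i) ≠ g a
  con' : ∀ h, S'.Test c' h → ∀ d d', Br S' c' d → Br S' c' d' → h d = h d'
  hm : ∀ a < X.x + X.k, c' (g a) = c0.testBit a

variable {S S' : St D V} {P P' : Pa} {f : ℕ → D} {g : ℕ → V} {X : XE} {c' : V → Bool} {c0 : ℕ}

theorem Cx.pe (C : Cx S S' P P' f g X c' c0) : PE P S f g := ⟨C.h.e, C.h.G, C.rα⟩

theorem Cx.op' (C : Cx S S' P P' f g X c' c0) {i : ℕ} (hi : i < P.n) :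
    S'.Op c' (f i) ↔ P'.op c0 i = true := by
  have hi' : i < P'.n := by rw [C.h.hn]; exact hi
  exact op_em C.h.e' C.h.G' hi' fun hr =>
    ⟨C.hm _ (C.st.rl' i hi hr).1, C.hm _ (C.st.rl' i hi hr).2⟩

/-- bichromatic darts of an embedded patch -/
theorem br_em {P : Pa} {S : St D V} (e : Em P S f g) (G : P.Good) {c : V → Bool} {m : ℕ} {i : ℕ}
    (hi : i < P.n) (h : P.real i = true → c (g (P.l i)) = m.testBit (P.l i) ∧
      c (g (P.l (P.φ i))) = m.testBit (P.l (P.φ i))) : Br S c (f i) ↔ br P m i = true := by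
  unfold Br br
  rw [e.hr i hi, e.hl i hi, em_end e G hi]
  by_cases hr : P.real i = true
  · obtain ⟨h1, h2⟩ := h hr
    rw [h1, h2, hr]
    cases m.testBit (P.l i) <;> cases m.testBit (P.l (P.φ i)) <;> simp
  · have hr' : P.real i = false := by simpa using hr
    simp [hr']

theorem Cx.br' (C : Cx S S' P P' f g X c' c0) {i : ℕ} (hi : i < P.n) :
    Br S' c' (f i) ↔ br P' c0 i = true := by
  have hi' : i < P'.n := by rw [C.h.hn]; exact hi
  exact br_em C.h.e' C.h.G' hi' fun hr =>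
    ⟨C.hm _ (C.st.rl' i hi hr).1, C.hm _ (C.st.rl' i hi hr).2⟩

theorem br_op {Q : Pa} {m i : ℕ} (h : br Q m i = true) : Q.op m i = true := by
  unfold br at h
  unfold Pa.op
  rw [Bool.and_eq_true] at h
  rw [h.2, Bool.or_true]

/-- colourings which differ from `c'` only on `X` -/
def Ag (g : ℕ → V) (X : XE) (c' c : V → Bool) : Prop := ∀ y, (∀ a < X.x, y ≠ g a) → c y = c' y

/-- the ends of an outside or ring dart -/
theorem Cx.ends (C : Cx S S' P P' f g X c' c0) {d : D} (hd : OR P f d) :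
    S'.M.v d = S.M.v d ∧ S'.M.v (S'.M.α d) = S.M.v (S.M.α d) ∧ S'.real d = S.real d ∧
      (∀ a < X.x, S.M.v d ≠ g a) ∧ ∀ a < X.x, S.M.v (S.M.α d) ≠ g a := by
  by_cases hO : OU P f d
  · have hφ := C.pe.ouφ hO
    refine ⟨C.h.vo d hO, ?_, C.h.ro d hO, fun a ha he => ?_, fun a ha he => ?_⟩
    · rw [← S.M.vφ, ← S'.M.vφ, C.h.φo d hO, C.h.vo _ hφ]
    · obtain ⟨i, hi, hi'⟩ := C.hX a ha d he
      exact hO i hi hi'
    · rw [← S.M.vφ] at he
      obtain ⟨i, hi, hi'⟩ := C.hX a ha _ he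
      exact hφ i hi hi'
  · have : ∃ i < P.n, f i = d := by
      by_contra hcon
      push Not at hcon
      exact hO hcon
    obtain ⟨i, hi, rfl⟩ := this
    have hα : P.α i = i := by
      by_contra hcon
      exact hd i hi hcon rfl
    obtain ⟨-, r1, r2, r3, r4, r5⟩ := C.st.ring i hi hα
    have hi' : i < P'.n := by rw [C.h.hn]; exact hi
    refine ⟨by rw [C.h.e.hl i hi, C.h.e'.hl i hi', r2], by
      rw [em_end C.h.e C.h.G hi, em_end C.h.e' C.h.G' hi', r3], by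
      rw [C.h.e.hr i hi, C.h.e'.hr i hi', r1], fun a ha he => ?_, fun a ha he => ?_⟩
    · rw [C.h.e.hl i hi] at he
      exact C.hg a ha i hi (by omega) he
    · rw [em_end C.h.e C.h.G hi] at he
      exact C.hg a ha _ (C.h.G.φlt i hi) (by omega) he

theorem Cx.opO (C : Cx S S' P P' f g X c' c0) {c : V → Bool} (hc : Ag g X c' c) {d : D}
    (hd : OR P f d) : S.Op c d ↔ S'.Op c' d := by
  obtain ⟨h1, h2, h3, h4, h5⟩ := C.ends hd
  unfold St.Op
  rw [h1, h2, h3, hc _ h4, hc _ h5]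

theorem Cx.brO (C : Cx S S' P P' f g X c' c0) {c : V → Bool} (hc : Ag g X c' c) {d : D}
    (hd : OR P f d) : Br S c d ↔ Br S' c' d := by
  obtain ⟨h1, h2, h3, h4, h5⟩ := C.ends hd
  unfold Br
  rw [h1, h2, h3, hc _ h4, hc _ h5]

theorem ag_refl : Ag g X c' c' := fun _ _ => rfl

theorem Cx.exi (_ : Cx S S' P P' f g X c' c0) {d : D} (hd : ¬ OU P f d) : ∃ i < P.n, f i = d := by
  by_contra hcon
  push Not at hcon
  exact hd hcon

/-- reversal keeps openness -/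
theorem opα {T : St D V} (hr : ∀ d, T.real (T.M.α d) = T.real d) {c : V → Bool} {d : D}
    (ho : T.Op c d) : T.Op c (T.M.α d) := by
  rcases ho with ho | ho
  · left; rw [hr]; exact ho
  · right; rw [T.M.αα]; exact ho.symm

theorem Cx.opα' (C : Cx S S' P P' f g X c' c0) {d : D} (ho : S'.Op c' d) :
    S'.Op c' (S.M.α d) := by
  have := opα C.rα' ho
  rwa [C.h.αo d] at this

/-- the outside relation is invariant under test functions of `S` -/
theorem Cx.orel_test (C : Cx S S' P P' f g X c' c0) {c : V → Bool} (hc : Ag g X c' c) {t : D → ℝ}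
    (ht : S.Test c t) {a b : D} (hab : ORel S P f c' a b) : t b = t a := by
  induction hab with
  | refl => rfl
  | @φ b _ hb ih => rw [ht.1, ih]
  | @α b _ hb ho ih =>
    rw [ht.2 b ((C.opO hc hb).2 ((C.opO ag_refl hb).1 ho)), ih]

theorem Cx.orel_test' (C : Cx S S' P P' f g X c' c0) {t : D → ℝ}
    (ht : S'.Test c' t) {a b : D} (hab : ORel S P f c' a b) : t b = t a := by
  induction hab with
  | refl => rfl
  | @φ b _ hb ih => rw [← C.h.φo b hb, ht.1, ih]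
  | @α b _ hb ho ih => rw [← C.h.αo b, ht.2 b ((C.opO ag_refl hb).1 ho), ih]

/-- the outside class of `d` contains a bichromatic real dart -/
def Act (S : St D V) (P : Pa) (f : ℕ → D) (c' : V → Bool) (d : D) : Prop :=
  ∃ e, ORel S P f c' d e ∧ OR P f e ∧ Br S c' e

theorem Cx.act_vi (C : Cx S S' P P' f g X c' c0) {c : V → Bool} (hc : Ag g X c' c) {d : D}
    (h : Act S P f c' d) : Vi S c d := by
  obtain ⟨e, h1, h2, h3⟩ := h
  exact ⟨e, (C.brO hc h2).2 ((C.brO ag_refl h2).1 h3), fun t ht => C.orel_test hc ht h1⟩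

theorem Cx.act_vi' (C : Cx S S' P P' f g X c' c0) {d : D}
    (h : Act S P f c' d) : Vi S' c' d := by
  obtain ⟨e, h1, h2, h3⟩ := h
  exact ⟨e, (C.brO ag_refl h2).1 h3, fun t ht => C.orel_test' ht h1⟩

theorem act_iff (h : PE P S f g) {a b : D} (hab : ORel S P f c' a b) :
    Act S P f c' a ↔ Act S P f c' b := by
  constructor
  · rintro ⟨e, h1, h2, h3⟩
    exact ⟨e, (hab.symm h).trans h1, h2, h3⟩
  · rintro ⟨e, h1, h2, h3⟩
    exact ⟨e, hab.trans h1, h2, h3⟩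

/-- test functions are constant on the cells of `P` -/
theorem Cx.cellR (C : Cx S S' P P' f g X c' c0) {T : D → D → Prop} (hT : Equivalence T)
    (hφ : ∀ i < P.n, T (f i) (S.M.φ (f i)))
    (hα : ∀ i < P.n, P.α i ≠ i → P.real i = false → T (f i) (S.M.α (f i))) :
    ∀ i < P.n, T (f (X.cr (X.ce i))) (f i) := by
  have key : ∀ n i, X.pk i < n → i < P.n → T (f (X.cr (X.ce i))) (f i) := by
    intro n
    induction n with
    | zero => intro i h; omega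
    | succ n ih =>
      intro i hn hi
      rcases C.st.tr i hi with h | ⟨h1, h2, h3, h4⟩
      · rw [← h]; exact hT.refl _
      · have h5 := ih (X.pa i) (by omega) h2
        rw [h3] at h5
        refine hT.trans h5 (hT.symm ?_)
        rcases h4 with h4 | ⟨h4, h6, h7⟩
        · rw [h4, ← C.h.e.hφ i hi]; exact hφ i hi
        · rw [h7, ← C.h.e.hα i hi h4]; exact hα i hi h4 h6
  exact fun i hi => key _ i (Nat.lt_succ_self _) hi

theorem Cx.cellT (C : Cx S S' P P' f g X c' c0) {T : D → D → Prop} (hT : Equivalence T)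
    (hφ : ∀ i < P.n, T (f i) (S.M.φ (f i)))
    (hα : ∀ i < P.n, P.α i ≠ i → P.real i = false → T (f i) (S.M.α (f i))) {i j : ℕ}
    (hi : i < P.n) (hj : j < P.n) (he : X.ce i = X.ce j) : T (f i) (f j) := by
  have h1 := C.cellR hT hφ hα i hi
  have h2 := C.cellR hT hφ hα j hj
  rw [← he] at h2
  exact hT.trans (hT.symm h1) h2

theorem Cx.cellP (C : Cx S S' P P' f g X c' c0) {c : V → Bool} {t : D → ℝ} (ht : S.Test c t)
    {i j : ℕ} (hi : i < P.n) (hj : j < P.n) (he : X.ce i = X.ce j) : t (f i) = t (f j) := by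
  refine C.cellT (T := fun a b => t a = t b) ⟨fun _ => rfl, fun h => h.symm, fun h h' => h.trans h'⟩
    (fun i _ => (ht.1 _).symm) (fun i hi _ hr => (ht.2 _ (Or.inl ?_)).symm) hi hj he
  rw [C.h.e.hr i hi]; exact hr

/-- test functions of `S'` are constant on the cells of `P'` -/
theorem Cx.cellP' (C : Cx S S' P P' f g X c' c0) {t : D → ℝ} (ht : S'.Test c' t)
    {i j : ℕ} (hi : i < P.n) (hj : j < P.n) (he : X.ce' i = X.ce' j) : t (f i) = t (f j) := by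
  have key : ∀ n i, X.pk' i < n → i < P.n → t (f (X.cr' (X.ce' i))) = t (f i) := by
    intro n
    induction n with
    | zero => intro i h; omega
    | succ n ih =>
      intro i hn hi
      have hi' : i < P'.n := by rw [C.h.hn]; exact hi
      rcases C.st.tr' i hi with h | ⟨h1, h2, h3, h4⟩
      · rw [← h]
      · have h5 := ih (X.pa' i) (by omega) h2
        rw [h3] at h5
        rw [h5]
        rcases h4 with h4 | ⟨h4, h6, h7⟩
        · rw [h4, ← C.h.e'.hφ i hi', ht.1]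
        · have h8 : P'.α i ≠ i := by rw [C.h.hα i hi]; exact h4
          rw [h7, ← C.h.hα i hi, ← C.h.e'.hα i hi' h8]
          exact ht.2 _ (Or.inl (by rw [C.h.e'.hr i hi']; exact h6))
  have h1 := key _ i (Nat.lt_succ_self _) hi
  have h2 := key _ j (Nat.lt_succ_self _) hj
  rw [← h1, ← h2, he]

/-- the arc of a ring dart -/
theorem XE.Stat.arc (st : X.Stat P P') {i : ℕ} (hi : i ∈ X.rs) : ∃ p ∈ X.ar, i = p.1 ∨ i = p.2 := by
  rw [st.ar, List.mem_flatMap] at hi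
  obtain ⟨p, h1, h2⟩ := hi
  exact ⟨p, h1, mem_ad.1 h2⟩

theorem XE.Stat.arm (st : X.Stat P P') {p : ℕ × ℕ} (hp : p ∈ X.ar) : p.1 ∈ X.rs ∧ p.2 ∈ X.rs := by
  rw [st.ar, List.mem_flatMap, List.mem_flatMap]
  exact ⟨⟨p, hp, mem_ad.2 (Or.inl rfl)⟩, ⟨p, hp, mem_ad.2 (Or.inr rfl)⟩⟩

theorem XE.Stat.asm (st : X.Stat P P') {i : ℕ} (hi : i ∈ X.as) : i ∈ X.rs := by
  unfold XE.as at hi
  obtain ⟨p, h1, rfl⟩ := List.mem_map.1 hi
  exact (st.arm h1).1

/-- the representative of a ring dart -/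
theorem XE.Stat.rep (st : X.Stat P P') {i : ℕ} (hi : i ∈ X.rs) : ∃ p ∈ X.ar, (i = p.1 ∨ i = p.2) ∧
    X.ce p.1 = X.ce i ∧ X.ce' p.1 = X.ce' i ∧ (i = p.1 ∨ (P.real p.1 = false ∧ P.real i = false)) := by
  obtain ⟨p, h1, h2⟩ := st.arc hi
  refine ⟨p, h1, h2, ?_⟩
  rcases h2 with rfl | rfl
  · exact ⟨rfl, rfl, Or.inl rfl⟩
  · rcases st.tw p h1 with h3 | ⟨h3, h4, h5, h6, h7⟩
    · rw [← h3]; exact ⟨rfl, rfl, Or.inl rfl⟩
    · exact ⟨h6, h7, Or.inr ⟨h3, h4⟩⟩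

theorem Cx.inv (C : Cx S S' P P' f g X c' c0) : Inv P' X.ce' c0 (X.cmps P' X.ce' X.es' c0) := by
  have hn := C.h.hn
  have hα := C.h.hα
  refine inv_cmps C.h.G' (fun i hi => ?_) (fun i hi => ?_)
    (fun i hi => ?_) (fun i hi he ho => ?_) (fun i hi he hr => ?_)
  · rw [hn] at hi
    rw [hα i hi]; exact C.st.rα' i hi
  · obtain ⟨h1, h2⟩ := C.st.es' i hi
    rw [hn, hα i h1]; exact ⟨h1, h2⟩
  · rw [hn]
    exact (C.st.rs i (C.st.asm hi)).1
  · rw [hn] at hi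
    rw [hα i hi] at he
    obtain ⟨p, p1, p2, p3, p4, p5⟩ := C.st.rep (C.st.ring i hi he).1
    refine ⟨p.1, List.mem_map.2 ⟨p, p1, rfl⟩, p4, ?_⟩
    rcases p5 with p5 | ⟨p5, p6⟩
    · rw [← p5]; exact ho
    · obtain ⟨k1, k2⟩ := C.st.rs _ (C.st.arm p1).1
      unfold Pa.op
      rw [(C.st.ring _ k1 k2).2.1, p5]
      rfl
  · rw [hn] at hi
    rw [hα i hi] at he ⊢
    exact C.st.inn' i hi he hr

theorem Cx.invP (C : Cx S S' P P' f g X c' c0) {m : ℕ} : Inv P X.ce m (X.cmps P X.ce X.es m) := by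
  refine inv_cmps C.h.G (fun i hi => C.st.rα i hi) C.st.es
    (fun i hi => (C.st.rs i (C.st.asm hi)).1) (fun i hi he ho => ?_)
    (fun i hi he hr => C.st.inn i hi he hr)
  obtain ⟨p, p1, p2, p3, p4, p5⟩ := C.st.rep (C.st.ring i hi he).1
  refine ⟨p.1, List.mem_map.2 ⟨p, p1, rfl⟩, p3, ?_⟩
  rcases p5 with p5 | ⟨p5, p6⟩
  · rw [← p5]; exact ho
  · unfold Pa.op
    rw [p5]
    rfl

theorem nc_agr' {ξ : ℕ} : Ag g X c' (nc g X.x ξ c') := by
  intro y hy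
  unfold nc
  rw [dif_neg]
  rintro ⟨a, h1, h2⟩
  exact hy a h1 h2

theorem nc_x' {ξ : ℕ} (hgx : ∀ a < X.x, ∀ b < X.x, g a = g b → a = b) {a : ℕ} (ha : a < X.x) :
    nc g X.x ξ c' (g a) = ξ.testBit a := by
  unfold nc
  have h : ∃ b < X.x, g a = g b := ⟨a, ha, rfl⟩
  rw [dif_pos h]
  have := hgx a ha _ h.choose_spec.1 h.choose_spec.2
  rw [← this]

/-- openness of the patch darts -/
theorem Cx.keyP (C : Cx S S' P P' f g X c' c0)
    (hgx : ∀ a < X.x, ∀ b < X.x, g a = g b → a = b) {ξ : ℕ} (hξ : ξ < 2 ^ X.x) {j : ℕ}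
    (hl : P.l j < X.x + X.k) (hj : j < P.n) : nc g X.x ξ c' (g (P.l j)) =
      ((c0 >>> X.x) <<< X.x + ξ).testBit (P.l j) := by
  rw [mask_bit hξ]
  split_ifs with h1
  · exact nc_x' hgx h1
  · rw [← C.hm _ hl]
    exact nc_agr' _ fun a ha he => C.hg a ha j hj (by omega) he

theorem Cx.opP (C : Cx S S' P P' f g X c' c0)
    (hgx : ∀ a < X.x, ∀ b < X.x, g a = g b → a = b) {ξ : ℕ} (hξ : ξ < 2 ^ X.x) {i : ℕ}
    (hi : i < P.n) : S.Op (nc g X.x ξ c') (f i) ↔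
      P.op ((c0 >>> X.x) <<< X.x + ξ) i = true := by
  refine op_em C.h.e C.h.G hi fun hr => ?_
  obtain ⟨h1, h2⟩ := C.st.rl i hi hr
  exact ⟨C.keyP hgx hξ h1 hi, C.keyP hgx hξ h2 (C.h.G.φlt i hi)⟩

theorem Cx.brP (C : Cx S S' P P' f g X c' c0)
    (hgx : ∀ a < X.x, ∀ b < X.x, g a = g b → a = b) {ξ : ℕ} (hξ : ξ < 2 ^ X.x) {i : ℕ}
    (hi : i < P.n) : Br S (nc g X.x ξ c') (f i) ↔
      br P ((c0 >>> X.x) <<< X.x + ξ) i = true := by
  refine br_em C.h.e C.h.G hi fun hr => ?_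
  obtain ⟨h1, h2⟩ := C.st.rl i hi hr
  exact ⟨C.keyP hgx hξ h1 hi, C.keyP hgx hξ h2 (C.h.G.φlt i hi)⟩

end Pool.FC7
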