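import Pool.Agent.FC7.ExE

/-! # Soundness of the extension check: the outside pairs -/

open Finset

set_option linter.unusedSectionVars false

namespace Pool.FC7

open Pool.FC6

variable {D V : Type} [Fintype D] [DecidableEq V]
variable {S S' : St D V} {P P' : Pa} {f : ℕ → D} {g : ℕ → V} {X : XE} {c' : V → Bool} {c0 : ℕ}

/-- if no outside pair leaves the component `r0` then `r0` is the support of a test function -/
theorem test_of_no_pair (C : Cx S S' P P' f g X c' c0) {r0 : ℕ} {L : List ℕ}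
    (hI : Inv P' X.ce' c0 L) (h0 : r0 ∈ L)
    (hno : ∀ i ∈ X.rs, P'.op c0 i = true → r0.testBit (X.ce' i) = true → ∀ j ∈ X.rs,
      P'.op c0 j = true → r0.testBit (X.ce' j) = false → ¬ ORel S P f c' (f i) (f j)) :
    ∃ χ : D → ℝ, S'.Test c' χ ∧ (∀ i < P.n, r0.testBit (X.ce' i) = true → χ (f i) = 1) ∧
      (∀ i < P.n, r0.testBit (X.ce' i) = false → χ (f i) = 0) ∧
      ∀ d, OU P f d → χ d ≠ 0 → ∃ j ∈ X.rs, P'.op c0 j = true ∧ r0.testBit (X.ce' j) = true ∧
        ORel S P f c' d (f j) := by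
  classical
  have pe := C.pe
  have hn := C.h.hn
  have hα' : ∀ i < P.n, P'.α i = P.α i := C.h.hα
  have np : ∀ i ∈ X.rs, ∀ j ∈ X.rs, P'.op c0 i = true → P'.op c0 j = true →
      ORel S P f c' (f i) (f j) → r0.testBit (X.ce' i) = r0.testBit (X.ce' j) := by
    intro i hi j hj oi oj hij
    cases h1 : r0.testBit (X.ce' i) <;> cases h2 : r0.testBit (X.ce' j)
    · rfl
    · exact absurd (hij.symm pe) (hno j hj oj h2 i hi oi h1)
    · exact absurd hij (hno i hi oi h1 j hj oj h2)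
    · rfl
  let T : D → Prop := fun d => (∃ i, i < P.n ∧ f i = d ∧ r0.testBit (X.ce' i) = true) ∨
    (OU P f d ∧ ∃ j ∈ X.rs, P'.op c0 j = true ∧ r0.testBit (X.ce' j) = true ∧
      ORel S P f c' d (f j))
  have Tf : ∀ i < P.n, (T (f i) ↔ r0.testBit (X.ce' i) = true) := by
    intro i hi
    constructor
    · rintro (⟨j, hj, hj', h1⟩ | ⟨h1, _⟩)
      · have := pe.e.inj j hj i hi hj'
        rwa [← this]
      · exact absurd rfl (h1 i hi)
    · intro h1
      exact Or.inl ⟨i, hi, rfl, h1⟩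
  have To : ∀ d, OU P f d → (T d ↔ ∃ j ∈ X.rs, P'.op c0 j = true ∧ r0.testBit (X.ce' j) = true ∧
      ORel S P f c' d (f j)) := by
    intro d hd
    constructor
    · rintro (⟨j, hj, hj', h1⟩ | ⟨_, h1⟩)
      · exact absurd hj' (hd j hj)
      · exact h1
    · intro h1
      exact Or.inr ⟨hd, h1⟩
  have TU : ∀ d, OR P f d → S'.Op c' d → (T d ↔ ∃ j ∈ X.rs, P'.op c0 j = true ∧
      r0.testBit (X.ce' j) = true ∧ ORel S P f c' d (f j)) := by
    intro d hd ho
    by_cases hO : OU P f d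
    · exact To d hO
    · obtain ⟨i, hi, rfl⟩ := C.exi hO
      have hα : P.α i = i := by
        by_contra hcon
        exact hd i hi hcon rfl
      have hrs := (C.st.ring i hi hα).1
      have oi := (C.op' hi).1 ho
      rw [Tf i hi]
      constructor
      · intro h1
        exact ⟨i, hrs, oi, h1, ORel.refl _⟩
      · rintro ⟨j, hj, oj, h1, h2⟩
        rw [np i hrs j hj oi oj h2]; exact h1
  refine ⟨fun d => if T d then 1 else 0, ⟨fun d => ?_, fun d ho => ?_⟩, fun i hi h => ?_,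
    fun i hi h => ?_, fun d hd h => ?_⟩
  · have : T (S'.M.φ d) ↔ T d := by
      by_cases hO : OU P f d
      · have h1 := pe.ouφ hO
        rw [C.h.φo d hO, To _ h1, To _ hO]
        constructor
        · rintro ⟨j, hj, oj, h2, h3⟩
          exact ⟨j, hj, oj, h2, ((ORel.refl d).φ hO).trans h3⟩
        · rintro ⟨j, hj, oj, h2, h3⟩
          exact ⟨j, hj, oj, h2, (((ORel.refl d).φ hO).symm pe).trans h3⟩
      · obtain ⟨i, hi, rfl⟩ := C.exi hO
        have hi' : i < P'.n := by rw [hn]; exact hi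
        have h1 := C.h.G'.φlt i hi'
        rw [hn] at h1
        rw [C.h.e'.hφ i hi', Tf _ h1, Tf i hi, C.st.ce' i hi]
    simp only [this]
  · have : T (S'.M.α d) ↔ T d := by
      rw [C.h.αo d]
      by_cases hd : OR P f d
      · have h1 := pe.orα hd
        have ho2 : S'.Op c' (S.M.α d) := C.opα' ho
        have ho3 : S.Op c' d := (C.opO ag_refl hd).2 ho
        rw [TU d hd ho, TU _ h1 ho2]
        have hs : ORel S P f c' d (S.M.α d) := (ORel.refl d).α hd ho3
        constructor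
        · rintro ⟨j, hj, oj, h2, h3⟩
          exact ⟨j, hj, oj, h2, hs.trans h3⟩
        · rintro ⟨j, hj, oj, h2, h3⟩
          exact ⟨j, hj, oj, h2, (hs.symm pe).trans h3⟩
      · have : ∃ i, i < P.n ∧ P.α i ≠ i ∧ f i = d := by
          by_contra hcon
          apply hd
          intro i hi hne he
          exact hcon ⟨i, hi, hne, he⟩
        obtain ⟨i, hi, hne, rfl⟩ := this
        have hi' : i < P'.n := by rw [hn]; exact hi
        have oi := (C.op' hi).1 ho
        rw [pe.e.hα i hi hne, Tf _ (pe.G.αlt i hi), Tf i hi]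
        by_cases hr : P'.real i = true
        · obtain ⟨e, he, h1, h2⟩ := hI.inn i hi' (by rw [hα' i hi]; exact hne) hr oi
          rw [hα' i hi] at h2
          constructor
          · intro h3
            rw [hI.uniq h0 he h3 h2]; exact h1
          · intro h3
            rw [hI.uniq h0 he h3 h1]; exact h2
        · rw [C.st.cv' i hi (by simpa using hr)]
    simp only [this]
  · exact if_pos ((Tf i hi).2 h)
  · refine if_neg fun h1 => ?_
    rw [Tf i hi, h] at h1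
    cases h1
  · refine (To d hd).1 ?_
    by_contra hc
    exact h (if_neg hc)

/-- the outside relation with merged arcs -/
def Rr (S : St D V) (P : Pa) (f : ℕ → D) (X : XE) (c' : V → Bool) : ℕ → ℕ → Prop :=
  jf (fun i j => ORel S P f c' (f i) (f j)) X.ar

theorem Cx.or_eq (C : Cx S S' P P' f g X c' c0) :
    Equivalence (fun i j => ORel S P f c' (f i) (f j)) := or_equiv C.pe c'

theorem Cx.rr_equiv (C : Cx S S' P P' f g X c' c0) : Equivalence (Rr S P f X c') :=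
  jf_equiv C.or_eq _

theorem Cx.rr_arc (C : Cx S S' P P' f g X c' c0) {p : ℕ × ℕ} (hp : p ∈ X.ar) :
    Rr S P f X c' p.1 p.2 := jf_arc C.or_eq _ hp

theorem Cx.rr_or (_ : Cx S S' P P' f g X c' c0) {i j : ℕ} (h : ORel S P f c' (f i) (f j)) :
    Rr S P f X c' i j := jf_sub h _

theorem Cx.arlt (C : Cx S S' P P' f g X c' c0) {p : ℕ × ℕ} (hp : p ∈ X.ar) :
    p.1 < P.n ∧ p.2 < P.n ∧ X.ce p.1 = X.ce p.2 ∧ X.ce' p.1 = X.ce' p.2 := by
  obtain ⟨h1, h2⟩ := C.st.arm hp
  refine ⟨(C.st.rs _ h1).1, (C.st.rs _ h2).1, ?_⟩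
  rcases C.st.tw p hp with h3 | ⟨-, -, -, h6, h7⟩
  · rw [h3]; exact ⟨rfl, rfl⟩
  · exact ⟨h6, h7⟩

/-- related ring darts have the same values of test functions -/
theorem Cx.rr_test (C : Cx S S' P P' f g X c' c0) {c : V → Bool} (hc : Ag g X c' c) {t : D → ℝ}
    (ht : S.Test c t) {i j : ℕ} (h : Rr S P f X c' i j) : t (f i) = t (f j) := by
  refine jf_ind (T := fun a b => t (f a) = t (f b)) ⟨fun _ => rfl, fun h => h.symm,
    fun h h' => h.trans h'⟩ (fun a b hab => (C.orel_test hc ht hab).symm) X.ar (fun p hp => ?_) i j h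
  obtain ⟨h1, h2, h3, -⟩ := C.arlt hp
  exact C.cellP ht h1 h2 h3

theorem Cx.rr_test' (C : Cx S S' P P' f g X c' c0) {t : D → ℝ} (ht : S'.Test c' t) {i j : ℕ}
    (h : Rr S P f X c' i j) : t (f i) = t (f j) := by
  refine jf_ind (T := fun a b => t (f a) = t (f b)) ⟨fun _ => rfl, fun h => h.symm,
    fun h h' => h.trans h'⟩ (fun a b hab => (C.orel_test' ht hab).symm) X.ar (fun p hp => ?_) i j h
  obtain ⟨h1, h2, -, h3⟩ := C.arlt hp
  exact C.cellP' ht h1 h2 h3

/-- the class of the arc is active -/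
def ActR (S : St D V) (P : Pa) (f : ℕ → D) (X : XE) (c' : V → Bool) (i : ℕ) : Prop :=
  ∃ j, Rr S P f X c' i j ∧ Act S P f c' (f j)

theorem Cx.actR_iff (C : Cx S S' P P' f g X c' c0) {i j : ℕ} (h : Rr S P f X c' i j) :
    ActR S P f X c' i ↔ ActR S P f X c' j := by
  constructor
  · rintro ⟨k, h1, h2⟩
    exact ⟨k, C.rr_equiv.trans (C.rr_equiv.symm h) h1, h2⟩
  · rintro ⟨k, h1, h2⟩
    exact ⟨k, C.rr_equiv.trans h h1, h2⟩

theorem Cx.actR_vi (C : Cx S S' P P' f g X c' c0) {c : V → Bool} (hc : Ag g X c' c) {i : ℕ}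
    (h : ActR S P f X c' i) : Vi S c (f i) := by
  obtain ⟨j, h1, h2⟩ := h
  exact (C.act_vi hc h2).eq fun t ht => (C.rr_test hc ht h1).symm

theorem Cx.actR_vi' (C : Cx S S' P P' f g X c' c0) {i : ℕ} (h : ActR S P f X c' i) :
    Vi S' c' (f i) := by
  obtain ⟨j, h1, h2⟩ := h
  exact (C.act_vi' h2).eq fun t ht => (C.rr_test' ht h1).symm

/-- the list `Ac` describes the active virtual arcs -/
def AcOk (S : St D V) (P : Pa) (f : ℕ → D) (X : XE) (c' : V → Bool) (Ac : List ℕ) : Prop :=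
  ∀ i ∈ X.as, P.real i = false → (i ∈ Ac ↔ ActR S P f X c' i)

theorem fold_or {ι : Type} (p : ι → Bool) (s : ι → ℕ) (l : List ι) : ∀ m t,
    (l.foldl (fun m i => if p i then m ||| s i else m) m).testBit t = true ↔
      m.testBit t = true ∨ ∃ i ∈ l, p i = true ∧ (s i).testBit t = true := by
  induction l with
  | nil => intro m t; simp
  | cons a l ih =>
    intro m t
    rw [List.foldl_cons, ih]
    by_cases ha : p a = true
    · rw [if_pos ha, Nat.testBit_or, Bool.or_eq_true]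
      simp only [List.mem_cons, exists_eq_or_imp, ha, true_and]
      tauto
    · rw [if_neg ha]
      simp only [List.mem_cons, exists_eq_or_imp, ha, false_and, false_or, Bool.false_eq_true]

/-- reversal of an inner bichromatic dart -/
theorem br_α {Q : Pa} {i : ℕ} (G : Q.Good) (hi : i < Q.n) (hne : Q.α i ≠ i) {m : ℕ}
    (hr : Q.real (Q.α i) = Q.real i) : br Q m (Q.α i) = br Q m i := by
  have e1 := G.lφ i hi hne
  have e2 := G.lφ (Q.α i) (G.αlt i hi) (by rw [G.αα i hi]; exact hne.symm)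
  rw [G.αα i hi] at e2
  unfold br
  rw [hr, e1, e2]
  cases m.testBit (Q.l i) <;> cases m.testBit (Q.l (Q.α i)) <;> rfl

/-- the marked cells -/
theorem bm_bit {Q : Pa} (G : Q.Good) {ce : ℕ → ℕ} {es : List ℕ} {m : ℕ} {Ac : List ℕ}
    (hrα : ∀ i < Q.n, Q.real (Q.α i) = Q.real i)
    (hes : ∀ i ∈ es, i < Q.n ∧ Q.α i ≠ i) (has : ∀ i ∈ X.as, i < Q.n)
    (hring : ∀ i < Q.n, Q.α i = i → Q.real i = true → i ∈ X.as)
    (hinn : ∀ i < Q.n, Q.α i ≠ i → Q.real i = true → i ∈ es ∨ Q.α i ∈ es) {t : ℕ} :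
    (X.bm Q ce es m Ac).testBit t = true ↔ (∃ i < Q.n, br Q m i = true ∧ ce i = t) ∨
      ∃ i ∈ X.as, i ∈ Ac ∧ ce i = t := by
  unfold XE.bm
  rw [fold_or (fun i => br Q m i) (fun i => 2 ^ ce i ||| 2 ^ ce (Q.α i)),
    fold_or (fun i => br Q m i || Ac.contains i) (fun i => 2 ^ ce i), Nat.zero_testBit]
  constructor
  · rintro ((h | ⟨i, h1, h2, h3⟩) | ⟨i, h1, h2, h3⟩)
    · cases h
    · rw [Bool.or_eq_true] at h2
      have h4 := bit1.1 h3
      rcases h2 with h2 | h2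
      · exact Or.inl ⟨i, has i h1, h2, h4⟩
      · exact Or.inr ⟨i, h1, by simpa using h2, h4⟩
    · obtain ⟨k1, k2⟩ := hes i h1
      rcases bit2.1 h3 with h3 | h3
      · exact Or.inl ⟨i, k1, h2, h3⟩
      · exact Or.inl ⟨Q.α i, G.αlt i k1, by rw [br_α G k1 k2 (hrα i k1)]; exact h2, h3⟩
  · rintro (⟨i, h1, h2, h3⟩ | ⟨i, h1, h2, h3⟩)
    · have hr : Q.real i = true := by
        unfold br at h2
        rw [Bool.and_eq_true] at h2
        exact h2.1
      by_cases hα : Q.α i = i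
      · exact Or.inl (Or.inr ⟨i, hring i h1 hα hr, by rw [h2]; rfl, bit1.2 h3⟩)
      · rcases hinn i h1 hα hr with h4 | h4
        · exact Or.inr ⟨i, h4, h2, bit2.2 (Or.inl h3)⟩
        · refine Or.inr ⟨Q.α i, h4, by rw [br_α G h1 hα (hrα i h1)]; exact h2, bit2.2 (Or.inr ?_)⟩
          rw [G.αα i h1]; exact h3
    · refine Or.inl (Or.inr ⟨i, h1, ?_, bit1.2 h3⟩)
      rw [Bool.or_eq_true]
      exact Or.inr (by simpa using h2)

/-- real ring darts are representatives -/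
theorem XE.Stat.rreal (st : X.Stat P P') {i : ℕ} (hi : i ∈ X.rs) (hr : P.real i = true) :
    i ∈ X.as := by
  obtain ⟨p, p1, p2, p3, p4, p5⟩ := st.rep hi
  rcases p5 with rfl | ⟨p5, p6⟩
  · exact List.mem_map.2 ⟨p, p1, rfl⟩
  · rw [hr] at p6; cases p6

/-- the marked cells of `P'` -/
theorem Cx.bmb' (C : Cx S S' P P' f g X c' c0) {Ac : List ℕ} {t : ℕ} :
    (X.bm P' X.ce' X.es' c0 Ac).testBit t = true ↔
      (∃ i < P.n, br P' c0 i = true ∧ X.ce' i = t) ∨ ∃ i ∈ X.as, i ∈ Ac ∧ X.ce' i = t := by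
  have hn := C.h.hn
  have hα := C.h.hα
  have := bm_bit (X := X) C.h.G' (ce := X.ce') (es := X.es') (m := c0) (Ac := Ac) (t := t)
    (fun i hi => by
      rw [hn] at hi
      rw [hα i hi]; exact C.st.rα' i hi) (fun i hi => by
      obtain ⟨h1, h2⟩ := C.st.es' i hi
      rw [hn, hα i h1]; exact ⟨h1, h2⟩) (fun i hi => by
      rw [hn]
      exact (C.st.rs i (C.st.asm hi)).1) (fun i hi he hr => by
      rw [hn] at hi
      rw [hα i hi] at he
      obtain ⟨r1, r2, -⟩ := C.st.ring i hi he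
      exact C.st.rreal r1 (by rw [← r2]; exact hr)) (fun i hi he hr => by
      rw [hn] at hi
      rw [hα i hi] at he ⊢
      exact C.st.inn' i hi he hr)
  rwa [hn] at this

/-- the marked cells of `P` -/
theorem Cx.bmb (C : Cx S S' P P' f g X c' c0) {Ac : List ℕ} {m t : ℕ} :
    (X.bm P X.ce X.es m Ac).testBit t = true ↔ (∃ i < P.n, br P m i = true ∧ X.ce i = t) ∨
      ∃ i ∈ X.as, i ∈ Ac ∧ X.ce i = t :=
  bm_bit (X := X) C.h.G (fun i hi => C.st.rα i hi) C.st.es
    (fun i hi => (C.st.rs i (C.st.asm hi)).1)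
    (fun i hi he hr => C.st.rreal (C.st.ring i hi he).1 hr) C.st.inn

/-- the marked cells are visited -/
theorem Cx.mark' (C : Cx S S' P P' f g X c' c0) {Ac : List ℕ} (hA : AcOk S P f X c' Ac)
    (hAr : ∀ i ∈ Ac, P.real i = false) {t : ℕ}
    (h : (X.bm P' X.ce' X.es' c0 Ac).testBit t = true) :
    ∃ i < P.n, X.ce' i = t ∧ Vi S' c' (f i) := by
  rcases C.bmb'.1 h with ⟨i, h1, h2, h3⟩ | ⟨i, h1, h2, h3⟩
  · exact ⟨i, h1, h3, ((C.br' h1).2 h2).vi⟩
  · exact ⟨i, (C.st.rs i (C.st.asm h1)).1, h3, C.actR_vi' ((hA i h1 (hAr i h2)).1 h2)⟩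

/-- an open ring dart whose class is active is in a marked cell -/
theorem Cx.act_mark' (C : Cx S S' P P' f g X c' c0) {Ac : List ℕ} (hA : AcOk S P f X c' Ac)
    {j : ℕ} (hj : j ∈ X.rs) (oj : P'.op c0 j = true) (ha : ActR S P f X c' j) :
    (X.bm P' X.ce' X.es' c0 Ac).testBit (X.ce' j) = true := by
  obtain ⟨h1, h2⟩ := C.st.rs j hj
  rw [C.bmb']
  by_cases hr : P.real j = true
  · left
    refine ⟨j, h1, ?_, rfl⟩
    have hr' : P'.real j = true := by rw [(C.st.ring j h1 h2).2.1]; exact hr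
    unfold Pa.op at oj
    unfold br
    rw [hr'] at oj ⊢
    simpa using oj
  · right
    obtain ⟨p, p1, p2, p3, p4, p5⟩ := C.st.rep hj
    have hp : Rr S P f X c' p.1 j := by
      rcases p2 with rfl | rfl
      · exact C.rr_equiv.refl _
      · exact C.rr_arc p1
    have hpr : P.real p.1 = false := by
      rcases p5 with p5 | p5
      · rw [← p5]; simpa using hr
      · exact p5.1
    have hpa : p.1 ∈ X.as := List.mem_map.2 ⟨p, p1, rfl⟩
    exact ⟨p.1, hpa, (hA _ hpa hpr).2 ((C.actR_iff hp).2 ha), p4⟩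

/-- pairs of ring darts and pairs of arcs -/
theorem Cx.no_ring (C : Cx S S' P P' f g X c' c0) {r0 : ℕ}
    (hno : ∀ i ∈ X.as, P'.op c0 i = true → r0.testBit (X.ce' i) = true → ∀ j ∈ X.as,
      P'.op c0 j = true → r0.testBit (X.ce' j) = false → ¬ Rr S P f X c' i j) :
    ∀ i ∈ X.rs, P'.op c0 i = true → r0.testBit (X.ce' i) = true → ∀ j ∈ X.rs,
      P'.op c0 j = true → r0.testBit (X.ce' j) = false → ¬ ORel S P f c' (f i) (f j) := by
  have key : ∀ i ∈ X.rs, P'.op c0 i = true → ∃ j ∈ X.as, P'.op c0 j = true ∧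
      X.ce' j = X.ce' i ∧ Rr S P f X c' j i := by
    intro i hi ho
    obtain ⟨p, p1, p2, p3, p4, p5⟩ := C.st.rep hi
    have hp : Rr S P f X c' p.1 i := by
      rcases p2 with rfl | rfl
      · exact C.rr_equiv.refl _
      · exact C.rr_arc p1
    refine ⟨p.1, List.mem_map.2 ⟨p, p1, rfl⟩, ?_, p4, hp⟩
    rcases p5 with p5 | ⟨p5, p6⟩
    · rw [← p5]; exact ho
    · obtain ⟨k1, k2⟩ := C.st.rs _ (C.st.arm p1).1
      unfold Pa.op
      rw [(C.st.ring _ k1 k2).2.1, p5]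
      rfl
  intro i hi oi bi j hj oj bj hij
  obtain ⟨a, a1, a2, a3, a4⟩ := key i hi oi
  obtain ⟨b, b1, b2, b3, b4⟩ := key j hj oj
  refine hno a a1 a2 (by rw [a3]; exact bi) b b1 b2 (by rw [b3]; exact bj) ?_
  exact C.rr_equiv.trans a4 (C.rr_equiv.trans (C.rr_or hij) (C.rr_equiv.symm b4))

/-- a visited component without marked cell is left by an outside pair -/
theorem exists_pair1 (C : Cx S S' P P' f g X c' c0) {Ac : List ℕ} (hA : AcOk S P f X c' Ac)
    {r0 : ℕ} {L : List ℕ} (hI : Inv P' X.ce' c0 L) (h0 : r0 ∈ L)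
    (hB : r0 &&& X.bm P' X.ce' X.es' c0 Ac = 0) {i0 : ℕ} (hi0 : i0 < P.n)
    (hb : r0.testBit (X.ce' i0) = true) (hv : Vi S' c' (f i0)) :
    ∃ i ∈ X.as, P'.op c0 i = true ∧ r0.testBit (X.ce' i) = true ∧
      ∃ j ∈ X.as, P'.op c0 j = true ∧ r0.testBit (X.ce' j) = false ∧
        Rr S P f X c' i j := by
  by_contra hno
  push Not at hno
  obtain ⟨χ, t1, t2, t3, t4⟩ := test_of_no_pair C hI h0 (C.no_ring hno)
  obtain ⟨e, e1, e2⟩ := hv
  have e3 := e2 χ t1
  rw [t2 i0 hi0 hb] at e3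
  by_cases hO : OU P f e
  · obtain ⟨j, j1, j2, j3, j4⟩ := t4 e hO (by rw [e3]; exact one_ne_zero)
    have ha : ActR S P f X c' j :=
      ⟨j, C.rr_equiv.refl _, e, j4.symm C.pe, hO.or, (C.brO ag_refl hO.or).2 e1⟩
    exact and_eq_zero_iff.1 hB _ j3 (C.act_mark' hA j1 j2 ha)
  · obtain ⟨i, hi, rfl⟩ := C.exi hO
    have h5 : r0.testBit (X.ce' i) = true := by
      by_contra hc
      rw [t3 i hi (by simpa using hc)] at e3
      exact zero_ne_one e3
    exact and_eq_zero_iff.1 hB _ h5 (C.bmb'.2 (Or.inl ⟨i, hi, (C.br' hi).1 e1, rfl⟩))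

/-- two marked components are joined outside -/
theorem exists_pair2 (C : Cx S S' P P' f g X c' c0) {Ac : List ℕ} (hA : AcOk S P f X c' Ac)
    (hAr : ∀ i ∈ Ac, P.real i = false)
    {r0 r1 : ℕ} {L : List ℕ} (hI : Inv P' X.ce' c0 L) (h0 : r0 ∈ L) (h1 : r1 ∈ L)
    (hne : r0 ≠ r1)
    (hB0 : r0 &&& X.bm P' X.ce' X.es' c0 Ac ≠ 0) (hB1 : r1 &&& X.bm P' X.ce' X.es' c0 Ac ≠ 0) :
    ∃ i ∈ X.as, P'.op c0 i = true ∧ r0.testBit (X.ce' i) = true ∧
      ∃ j ∈ X.as, P'.op c0 j = true ∧ r0.testBit (X.ce' j) = false ∧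
        Rr S P f X c' i j := by
  by_contra hno
  push Not at hno
  obtain ⟨χ, t1, t2, t3, t4⟩ := test_of_no_pair C hI h0 (C.no_ring hno)
  obtain ⟨b0, x1, x2⟩ := and_ne_zero.1 hB0
  obtain ⟨b1, y1, y2⟩ := and_ne_zero.1 hB1
  obtain ⟨i0, i01, rfl, i03⟩ := C.mark' hA hAr x2
  obtain ⟨i1, i11, rfl, i13⟩ := C.mark' hA hAr y2
  obtain ⟨e0, e01, e02⟩ := i03
  obtain ⟨e1, e11, e12⟩ := i13
  have h := C.con' χ t1 e0 e1 e01 e11
  rw [e02 χ t1, e12 χ t1, t2 i0 i01 x1] at h
  have h5 : r0.testBit (X.ce' i1) = false := by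
    by_contra hc
    exact hne (hI.uniq h0 h1 (by simpa using hc) y1)
  rw [t3 i1 i11 h5] at h
  exact one_ne_zero h

/-- valid pairs -/
def Pw (S : St D V) (P P' : Pa) (f : ℕ → D) (X : XE) (c' : V → Bool) (c0 : ℕ)
    (prs : List (ℕ × ℕ)) : Prop :=
  ∀ p ∈ prs, (p.1 ∈ X.as ∧ P'.op c0 p.1 = true) ∧ (p.2 ∈ X.as ∧ P'.op c0 p.2 = true) ∧
    Rr S P f X c' p.1 p.2

theorem crs_rel {R : ℕ → ℕ → Prop} (hR : Equivalence R) (hnc : NCL R X.rs)
    {p q : ℕ × ℕ} (p1 : p.1 ∈ X.rs) (p2 : p.2 ∈ X.rs) (q1 : q.1 ∈ X.rs) (q2 : q.2 ∈ X.rs)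
    (hp : R p.1 p.2) (hq : R q.1 q.2) (hc : X.crs p q = true) : R p.1 q.1 := by
  -- sorted version of `p`
  have key : ∀ u v, u ∈ X.rs → v ∈ X.rs → R u v →
      ((X.pos u < X.pos q.1 ∧ X.pos q.1 < X.pos v) ∧
        (X.pos q.2 < X.pos u ∨ X.pos v < X.pos q.2) ∨
      (X.pos u < X.pos q.2 ∧ X.pos q.2 < X.pos v) ∧
        (X.pos q.1 < X.pos u ∨ X.pos v < X.pos q.1)) → R u q.1 := by
    intro u v hu hv huv h
    unfold XE.pos at h
    rcases h with ⟨⟨h1, h2⟩, h3 | h3⟩ | ⟨⟨h1, h2⟩, h3 | h3⟩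
    · have := hnc _ _ _ _ (sub4 q2 hu q1 hv h3 h1 h2) (hR.symm hq) huv
      exact hR.trans (hR.symm this) (hR.symm hq)
    · exact hnc _ _ _ _ (sub4 hu q1 hv q2 h1 h2 h3) huv hq
    · have := hnc _ _ _ _ (sub4 q1 hu q2 hv h3 h1 h2) hq huv
      exact hR.symm this
    · have := hnc _ _ _ _ (sub4 hu q2 hv q1 h1 h2 h3) huv (hR.symm hq)
      exact hR.trans this (hR.symm hq)
  unfold XE.crs at hc
  simp only [Bool.or_eq_true, Bool.and_eq_true, decide_eq_true_eq] at hc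
  rcases le_total (X.pos p.1) (X.pos p.2) with h | h
  · rw [min_eq_left h, max_eq_right h] at hc
    exact key p.1 p.2 p1 p2 hp hc
  · rw [min_eq_right h, max_eq_left h] at hc
    exact hR.trans hp (key p.2 p.1 p2 p1 (hR.symm hp) hc)

theorem Pw.news (C : Cx S S' P P' f g X c' c0)
    (hnc : X.nc = true → NCL (Rr S P f X c') X.rs)
    {prs : List (ℕ × ℕ)} (h : Pw S P P' f X c' c0 prs) {p : ℕ × ℕ}
    (hp : (p.1 ∈ X.as ∧ P'.op c0 p.1 = true) ∧ (p.2 ∈ X.as ∧ P'.op c0 p.2 = true) ∧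
      Rr S P f X c' p.1 p.2) : Pw S P P' f X c' c0 (X.news p prs) := by
  intro q hq
  unfold XE.news at hq
  rcases List.mem_cons.1 hq with rfl | hq
  · exact hp
  · by_cases hn : X.nc = true
    · rw [if_pos hn] at hq
      obtain ⟨q', h1, rfl⟩ := List.mem_map.1 hq
      rw [List.mem_filter] at h1
      have h2 := h q' h1.1
      exact ⟨hp.1, h2.1, crs_rel C.rr_equiv (hnc hn) (p := p) (q := q') (C.st.asm hp.1.1)
        (C.st.asm hp.2.1.1) (C.st.asm h2.1.1) (C.st.asm h2.2.1.1) hp.2.2 h2.2.2 h1.2⟩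
    · rw [if_neg hn] at hq
      simp at hq

theorem Pw.lt (C : Cx S S' P P' f g X c' c0) {prs : List (ℕ × ℕ)}
    (h : Pw S P P' f X c' c0 prs) : ∀ p ∈ prs, (p.1 < P'.n ∧ P'.op c0 p.1 = true) ∧
      (p.2 < P'.n ∧ P'.op c0 p.2 = true) := by
  intro p hp
  obtain ⟨h1, h2, _⟩ := h p hp
  rw [C.h.hn]
  exact ⟨⟨(C.st.rs _ (C.st.asm h1.1)).1, h1.2⟩, ⟨(C.st.rs _ (C.st.asm h2.1)).1, h2.2⟩⟩

/-- the activity of an open arc -/
theorem Cx.act_iff' (C : Cx S S' P P' f g X c' c0) {Ac : List ℕ} (hA : AcOk S P f X c' Ac)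
    {i : ℕ} (hi : i ∈ X.as) (oi : P'.op c0 i = true) :
    XE.act P Ac i = true ↔ ActR S P f X c' i := by
  obtain ⟨h1, h2⟩ := C.st.rs i (C.st.asm hi)
  unfold XE.act
  by_cases hr : P.real i = true
  · rw [hr, Bool.true_or]
    refine ⟨fun _ => ⟨i, C.rr_equiv.refl _, f i, ORel.refl _, C.pe.ringOR h1 h2, ?_⟩, fun _ => rfl⟩
    rw [C.brO ag_refl (C.pe.ringOR h1 h2), C.br' h1]
    have hr' : P'.real i = true := by rw [(C.st.ring i h1 h2).2.1]; exact hr
    unfold Pa.op at oi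
    unfold br
    rw [hr'] at oi ⊢
    simpa using oi
  · have hr' : P.real i = false := by simpa using hr
    rw [hr', Bool.false_or, ← hA i hi hr']
    simp

/-- both darts of a valid pair have the same activity -/
theorem Pw.act (C : Cx S S' P P' f g X c' c0) {Ac : List ℕ} (hA : AcOk S P f X c' Ac)
    {prs : List (ℕ × ℕ)} (h : Pw S P P' f X c' c0 prs) {p : ℕ × ℕ} (hp : p ∈ prs) :
    XE.act P Ac p.1 = XE.act P Ac p.2 := by
  obtain ⟨h1, h2, h3⟩ := h p hp
  rw [Bool.eq_iff_iff, C.act_iff' hA h1.1 h1.2, C.act_iff' hA h2.1 h2.2]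
  exact C.actR_iff h3

theorem Pw.bad (C : Cx S S' P P' f g X c' c0) {Ac : List ℕ} (hA : AcOk S P f X c' Ac)
    {prs : List (ℕ × ℕ)} (h : Pw S P P' f X c' c0 prs) :
    (prs.any fun z => XE.act P Ac z.1 != XE.act P Ac z.2) = false := by
  rw [List.any_eq_false]
  intro p hp
  rw [Pw.act C hA h hp]
  simp

/-- the masks `ex'` meet the visited set of `S'` -/
def Dj (S' : St D V) (P : Pa) (f : ℕ → D) (ce : ℕ → ℕ) (c' : V → Bool) (l : List ℕ) : Prop :=
  ∀ m ∈ l, ∃ i < P.n, m.testBit (ce i) = true ∧ Vi S' c' (f i)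

theorem vu_bit {B t : ℕ} {L : List ℕ} : (XE.vu B L).testBit t = true ↔
    ∃ m ∈ L, m &&& B ≠ 0 ∧ m.testBit t = true := by
  unfold XE.vu
  rw [mun_bit]
  constructor
  · rintro ⟨m, h1, h2⟩
    rw [List.mem_filter] at h1
    exact ⟨m, h1.1, by simpa using h1.2, h2⟩
  · rintro ⟨m, h1, h2, h3⟩
    exact ⟨m, List.mem_filter.2 ⟨h1, by simpa using h2⟩, h3⟩

theorem co_bit {s t : ℕ} {L : List ℕ} : (XE.co s L).testBit t = true ↔
    ∃ m ∈ L, m.testBit s = true ∧ m.testBit t = true := by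
  unfold XE.co
  rw [mun_bit]
  constructor
  · rintro ⟨m, h1, h2⟩
    rw [List.mem_filter] at h1
    exact ⟨m, h1.1, h1.2, h2⟩
  · rintro ⟨m, h1, h2, h3⟩
    exact ⟨m, List.mem_filter.2 ⟨h1, h2⟩, h3⟩

/-- a visited patch dart of `S'` is in a component -/
theorem Cx.vis_comp (C : Cx S S' P P' f g X c' c0) {L : List ℕ} (hI : Inv P' X.ce' c0 L) {i : ℕ}
    (hi : i < P.n) (hv : Vi S' c' (f i)) : ∃ K ∈ L, K.testBit (X.ce' i) = true := by
  classical
  by_contra hno
  push Not at hno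
  have hn := C.h.hn
  -- the cell of `f i` has no open real dart and no open ring dart
  have hcl : ∀ j < P.n, X.ce' j = X.ce' i → (P.α j = j ∨ P'.real j = true) →
      P'.op c0 j = false := by
    intro j hj he hr
    by_contra hc
    obtain ⟨K, k1, k2⟩ := hI.all j (by rw [hn]; exact hj) (by rw [C.h.hα j hj]; exact hr)
      (by simpa using hc)
    rw [he] at k2
    exact absurd k2 (by simpa using hno K k1)
  have key := hv.cls (fun d => ¬ ∃ j, j < P.n ∧ f j = d ∧ X.ce' j = X.ce' i) (fun d => ?_)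
    (fun d ho => ?_) (fun d hb => ?_)
  · exact key ⟨i, hi, rfl, rfl⟩
  · refine not_congr ?_
    constructor
    · rintro ⟨j, hj, h1, h2⟩
      have hj' : j < P'.n := by rw [hn]; exact hj
      have k1 := C.h.G'.φlt j hj'
      have k2 := C.h.G'.φlt _ k1
      refine ⟨P'.φ (P'.φ j), by rwa [hn] at k2, ?_, ?_⟩
      · rw [← C.h.e'.hφ _ k1, ← C.h.e'.hφ j hj', h1, S'.M.φ3]
      · rw [C.st.ce' _ (by rwa [hn] at k1), C.st.ce' j hj, h2]
    · rintro ⟨j, hj, rfl, h2⟩
      have hj' : j < P'.n := by rw [hn]; exact hj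
      have k1 := C.h.G'.φlt j hj'
      exact ⟨P'.φ j, by rwa [hn] at k1, by rw [C.h.e'.hφ j hj'], by rw [C.st.ce' j hj, h2]⟩
  · -- open darts of the cell are virtual inner darts
    have step : ∀ d, S'.Op c' d → (∃ j, j < P.n ∧ f j = d ∧ X.ce' j = X.ce' i) →
        ∃ j, j < P.n ∧ f j = S'.M.α d ∧ X.ce' j = X.ce' i := by
      rintro d ho ⟨j, hj, rfl, h2⟩
      have oj := (C.op' hj).1 ho
      have h3 : ¬ (P.α j = j ∨ P'.real j = true) := by
        intro hc
        rw [hcl j hj h2 hc] at oj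
        cases oj
      push Not at h3
      have hj' : j < P'.n := by rw [hn]; exact hj
      have h4 : P'.α j ≠ j := by rw [C.h.hα j hj]; exact h3.1
      refine ⟨P.α j, C.h.G.αlt j hj, ?_, ?_⟩
      · rw [C.h.e'.hα j hj' h4, C.h.hα j hj]
      · rw [C.st.cv' j hj (by simpa using h3.2)]; exact h2
    refine not_congr ⟨fun h => ?_, step d ho⟩
    have := step _ (opα C.rα' ho) h
    rwa [S'.M.αα] at this
  · rintro ⟨j, hj, rfl, h2⟩
    have h3 := (C.br' hj).1 hb
    have hr : P'.real j = true := by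
      unfold br at h3
      rw [Bool.and_eq_true] at h3
      exact h3.1
    have := (C.op' hj).1 hb.op
    rw [hcl j hj h2 (Or.inr hr)] at this
    cases this

theorem prs_get {r0 : ℕ} {Ac : List ℕ} {k : ℕ × ℕ → Bool}
    (h : X.prs P P' Ac c0 r0 k = true) {i j : ℕ} (hi : i ∈ X.as) (oi : P'.op c0 i = true)
    (bi : r0.testBit (X.ce' i) = true) (hj : j ∈ X.as) (oj : P'.op c0 j = true)
    (bj : r0.testBit (X.ce' j) = false) (ha : XE.act P Ac i = XE.act P Ac j) :
    k (i, j) = true := by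
  unfold XE.prs at h
  rw [List.all_eq_true] at h
  have h1 := h i hi
  rw [oi, bi] at h1
  simp only [Bool.not_true, Bool.false_or, List.all_eq_true] at h1
  have h2 := h1 j hj
  rw [oj, bj, ha] at h2
  simpa using h2

theorem go_sound (C : Cx S S' P P' f g X c' c0) {Ac : List ℕ} (hA : AcOk S P f X c' Ac)
    (hAr : ∀ i ∈ Ac, P.real i = false)
    (hnc : X.nc = true → NCL (Rr S P f X c') X.rs) {ex ex' : List ℕ}
    (hex : Dj S' P f X.ce' c' (ex' ++ X.dj')) (fuel : ℕ) :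
    ∀ (L : List ℕ) (prs : List (ℕ × ℕ)), Inv P' X.ce' c0 L → Pw S P P' f X c' c0 prs →
      X.go P P' c0 Ac (X.bm P' X.ce' X.es' c0 Ac) ex ex' fuel L prs = true →
      ∃ L' prs', Inv P' X.ce' c0 L' ∧ Pw S P P' f X c' c0 prs' ∧
        X.leaf P P' c0 Ac (X.bm P' X.ce' X.es' c0 Ac) ex L' prs' = true := by
  induction fuel with
  | zero => intro L prs _ _ h; simp [XE.go] at h
  | succ fuel ih =>
    intro L prs hI hp h
    -- the continuation for a pair
    have step : ∀ {i j : ℕ}, i ∈ X.as → P'.op c0 i = true → j ∈ X.as → P'.op c0 j = true →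
        Rr S P f X c' i j →
        (((X.news (i, j) prs).any fun z => XE.act P Ac z.1 != XE.act P Ac z.2) ||
          X.go P P' c0 Ac (X.bm P' X.ce' X.es' c0 Ac) ex ex' fuel
            (XD.addp X.ce' (X.news (i, j) prs) L) (X.news (i, j) prs ++ prs)) = true →
        ∃ L' prs', Inv P' X.ce' c0 L' ∧ Pw S P P' f X c' c0 prs' ∧
          X.leaf P P' c0 Ac (X.bm P' X.ce' X.es' c0 Ac) ex L' prs' = true := by
      intro i j hi oi hj oj hij hk
      have hv : Pw S P P' f X c' c0 (X.news (i, j) prs) :=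
        Pw.news C hnc hp ⟨⟨hi, oi⟩, ⟨hj, oj⟩, hij⟩
      rw [Pw.bad C hA hv, Bool.false_or] at hk
      refine ih _ _ (hI.addp (Pw.lt C hv)) ?_ hk
      intro p hp'
      rcases List.mem_append.1 hp' with h3 | h3
      · exact hv p h3
      · exact hp p h3
    have hact : ∀ {i j : ℕ}, i ∈ X.as → P'.op c0 i = true → j ∈ X.as → P'.op c0 j = true →
        Rr S P f X c' i j → XE.act P Ac i = XE.act P Ac j := by
      intro i j hi oi hj oj hij
      rw [Bool.eq_iff_iff, C.act_iff' hA hi oi, C.act_iff' hA hj oj]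
      exact C.actR_iff hij
    unfold XE.go at h
    simp only at h
    split at h
    · next m hm =>
      have hmem := List.mem_of_find?_eq_some hm
      have hz := List.find?_some hm
      simp only [beq_iff_eq] at hz
      obtain ⟨i0, k1, k2, k3⟩ := hex m hmem
      obtain ⟨K, q1, q2⟩ := C.vis_comp hI k1 k3
      rw [List.all_eq_true] at h
      have h1 := h K q1
      rw [Bool.or_eq_true] at h1
      have hKm : K &&& m ≠ 0 := and_ne_zero.2 ⟨_, q2, k2⟩
      rcases h1 with h1 | h1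
      · exact absurd (by simpa using h1) hKm
      have hKB : K &&& X.bm P' X.ce' X.es' c0 Ac = 0 := by
        by_contra hc
        exact and_eq_zero_iff.1 hz _ k2 (vu_bit.2 ⟨K, q1, hc, q2⟩)
      obtain ⟨i, hi, oi, bi, j, hj, oj, bj, hij⟩ := exists_pair1 C hA hI q1 hKB k1 q2 k3
      exact step hi oi hj oj hij (prs_get h1 hi oi bi hj oj bj (hact hi oi hj oj hij))
    · split at h
      · next r0 r1 l he =>
        have m0 : r0 ∈ L.filter fun m => m &&& X.bm P' X.ce' X.es' c0 Ac != 0 := by rw [he]; simp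
        have m1 : r1 ∈ L.filter fun m => m &&& X.bm P' X.ce' X.es' c0 Ac != 0 := by rw [he]; simp
        rw [List.mem_filter] at m0 m1
        have b0 : r0 &&& X.bm P' X.ce' X.es' c0 Ac ≠ 0 := by simpa using m0.2
        have b1 : r1 &&& X.bm P' X.ce' X.es' c0 Ac ≠ 0 := by simpa using m1.2
        have hd : r0 &&& r1 = 0 := by
          have h3 := (hI.dj.sublist (List.filter_sublist (p := fun m =>
            m &&& X.bm P' X.ce' X.es' c0 Ac != 0)))
          rw [he] at h3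
          exact (List.pairwise_cons.1 h3).1 r1 (by simp)
        have hne : r0 ≠ r1 := by
          rintro rfl
          have := hI.ne r0 m0.1
          rw [Nat.and_self] at hd
          exact this hd
        obtain ⟨i, hi, oi, bi, j, hj, oj, bj, hij⟩ := exists_pair2 C hA hAr hI m0.1 m1.1 hne b0 b1
        exact step hi oi hj oj hij (prs_get h hi oi bi hj oj bj (hact hi oi hj oj hij))
      · exact ⟨L, prs, hI, hp, h⟩

end Pool.FC7
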