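import Pool.Agent.FC7.ExF

/-! # Soundness of the extension check: the ring conditions, one colouring -/

open Finset

set_option linter.unusedSectionVars false

namespace Pool.FC7

open Pool.FC6

variable {D V : Type} [Fintype D] [DecidableEq V]
variable {S S' : St D V} {P P' : Pa} {f : ℕ → D} {g : ℕ → V} {X : XE} {c' : V → Bool} {c0 : ℕ}

theorem Cx.inα (C : Cx S S' P P' f g X c' c0) : ∀ d, IN P f d → IN P f (S.M.α d) := by
  rintro d ⟨q, k1, k2, rfl⟩
  exact ⟨P.α q, C.h.G.αlt q k1, C.pe.αα' k1 k2, (C.h.e.hα q k1 k2).symm⟩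

theorem Cx.same_cell (C : Cx S S' P P' f g X c' c0) {i j : ℕ} (hi : i < P.n) (hj : j < P.n)
    (h : X.ce i = X.ce j) : S.M.Rel (IN P f) (f i) (f j) := by
  refine C.cellT (T := S.M.Rel (IN P f)) ⟨fun _ => TMap.Rel.refl _, fun h => h.symm C.inα,
    fun h h' => h.trans h'⟩ (fun i _ => (TMap.Rel.refl _).φ) (fun i hi hne _ => ?_) hi hj h
  exact (TMap.Rel.refl _).α ⟨i, hi, hne, rfl⟩

theorem ring_con (C : Cx S S' P P' f g X c' c0) (h : X.ringOk P = true) :
    ∀ i ∈ X.rs, ∀ j ∈ X.rs, S.M.Rel (IN P f) (f i) (f j) := by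
  unfold XE.ringOk at h
  rw [Bool.and_eq_true, decide_eq_true_eq] at h
  have hlen := h.2
  have e1 : (X.es.foldl (fun L i => mg (2 ^ X.ce i ||| 2 ^ X.ce (P.α i)) L) []) =
      mf (fun _ => true) (fun i => 2 ^ X.ce i ||| 2 ^ X.ce (P.α i)) X.es [] := by
    unfold mf; simp
  have e2 : ∀ L0, (X.rs.foldl (fun L i => mg (2 ^ X.ce i) L) L0) =
      mf (fun _ => true) (fun i => 2 ^ X.ce i) X.rs L0 := by
    intro L0; unfold mf; simp
  rw [e1, e2] at hlen
  set L1 := mf (fun _ => true) (fun i => 2 ^ X.ce i ||| 2 ^ X.ce (P.α i)) X.es [] with hL1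
  set L2 := mf (fun _ => true) (fun i => 2 ^ X.ce i) X.rs L1 with hL2
  let Q : ℕ → Prop := fun m => (∀ t, m.testBit t = true → ∃ i < P.n, X.ce i = t) ∧
    ∀ i < P.n, ∀ j < P.n, m.testBit (X.ce i) = true → m.testBit (X.ce j) = true →
      S.M.Rel (IN P f) (f i) (f j)
  have hQ : ∀ e m, Q e → Q m → m &&& e ≠ 0 → Q (e ||| m) := by
    intro e m he hm hem
    obtain ⟨t, t1, t2⟩ := and_ne_zero.1 hem
    obtain ⟨k, hk, rfl⟩ := he.1 t t2
    have rk : ∀ i < P.n, (e ||| m).testBit (X.ce i) = true → S.M.Rel (IN P f) (f k) (f i) := by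
      intro i hi h1
      rw [Nat.testBit_or, Bool.or_eq_true] at h1
      rcases h1 with h1 | h1
      · exact he.2 k hk i hi t2 h1
      · exact hm.2 k hk i hi t1 h1
    refine ⟨fun t ht => ?_, fun i hi j hj h1 h2 => ((rk i hi h1).symm C.inα).trans (rk j hj h2)⟩
    rw [Nat.testBit_or, Bool.or_eq_true] at ht
    rcases ht with ht | ht
    · exact he.1 t ht
    · exact hm.1 t ht
  have q1 : ∀ m ∈ L1, Q m := by
    apply mf_Q hQ
    · intro i hi _
      obtain ⟨k1, k2⟩ := C.st.es i hi
      have rk : ∀ j < P.n, (2 ^ X.ce i ||| 2 ^ X.ce (P.α i)).testBit (X.ce j) = true →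
          S.M.Rel (IN P f) (f i) (f j) := by
        intro j hj h1
        rcases bit2.1 h1 with h1 | h1
        · exact C.same_cell k1 hj h1
        · have h3 : S.M.Rel (IN P f) (f i) (f (P.α i)) := by
            rw [← C.h.e.hα i k1 k2]
            exact (TMap.Rel.refl _).α ⟨i, k1, k2, rfl⟩
          exact h3.trans (C.same_cell (C.h.G.αlt i k1) hj h1)
      refine ⟨fun t ht => ?_, fun a ha b hb h1 h2 => ((rk a ha h1).symm C.inα).trans (rk b hb h2)⟩
      rcases bit2.1 ht with ht | ht
      · exact ⟨i, k1, ht⟩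
      · exact ⟨P.α i, C.h.G.αlt i k1, ht⟩
    · simp
  have q2 : ∀ m ∈ L2, Q m := by
    apply mf_Q hQ
    · intro i hi _
      obtain ⟨k1, k2⟩ := C.st.rs i hi
      refine ⟨fun t ht => ⟨i, k1, bit1.1 ht⟩, fun a ha b hb h1 h2 => ?_⟩
      have h1' := bit1.1 h1
      have h2' := bit1.1 h2
      exact C.same_cell ha hb (h1'.symm.trans h2')
    · exact q1
  intro i hi j hj
  have c2 := (mf_cov (p := fun _ => true) (s := fun i => 2 ^ X.ce i) X.rs L1).1
  obtain ⟨m1, a1, a2⟩ := c2 i hi rfl
  obtain ⟨m2, b1, b2⟩ := c2 j hj rfl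
  rw [← hL2] at a1 b1
  have hm : m1 = m2 := by
    match L2, a1, b1, hlen with
    | [], a1, _, _ => simp at a1
    | [m], a1, b1, _ =>
      rw [List.mem_singleton] at a1 b1
      rw [a1, b1]
    | _ :: _ :: _, _, _, hl => simp at hl
  subst hm
  exact (q2 m1 a1).2 i (C.st.rs i hi).1 j (C.st.rs j hj).1 (a2 _ (bit1.2 rfl)) (b2 _ (bit1.2 rfl))

theorem ring_ncl (C : Cx S S' P P' f g X c' c0) (h : X.ringOk P = true) :
    NCL (Rr S P f X c') X.rs := by
  have h' := h
  unfold XE.ringOk at h'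
  rw [Bool.and_eq_true, Bool.and_eq_true, decide_eq_true_eq] at h'
  refine jf_ncl C.or_eq ?_ X.ar (ad_pos C.st.ar)
  refine nc_ring C.pe C.st.rs h'.1.1 (fun t ht => ?_) (ring_con C h)
  have h1 := (C.st.rs _ (List.getElem_mem (by omega : t < X.rs.length))).1
  have h2 := (C.st.rs _ (List.getElem_mem ht)).1
  rw [em_end C.h.e C.h.G h1, C.h.e.hl _ h2, chn_get X.rs h'.1.2 t ht]

open Classical in
/-- every closed set of darts contains an even number of bichromatic ring darts -/
theorem parity_cls {c : V → Bool} (h : PE P S f g) {rs : List ℕ}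
    (hrs : ∀ i ∈ rs, i < P.n ∧ P.α i = i)
    (hnd : rs.Nodup) (hall : ∀ i < P.n, P.α i = i → i ∈ rs) {od : ℕ → Bool}
    (hod : ∀ i ∈ rs, (od i = true ↔ c (S.M.v (f i)) ≠ c (S.M.v (S.M.α (f i))))) {Z : D → Prop}
    (hφ : ∀ d, OU P f d → Z d → Z (S.M.φ d)) (hα : ∀ d, S.Op c d → Z d → Z (S.M.α d))
    (hOR : ∀ d, Z d → OR P f d) :
    Even ((rs.filter od).countP fun j => decide (Z (f j))) := by
  let Y : Finset D := Finset.univ.filter fun d => Z d
  let bi : D → Prop := fun d => c (S.M.v d) ≠ c (S.M.v (S.M.α d))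
  have hY : ∀ d, d ∈ Y ↔ Z d := fun d => by simp [Y]
  have e1 : ((Y.filter bi).card : ZMod 2) = 0 := by
    refine card_invol (α := S.M.α) (fun d hd => ?_) S.M.αα S.M.αne
    rw [Finset.mem_filter, hY] at hd ⊢
    refine ⟨hα d (Or.inr hd.2) hd.1, ?_⟩
    show c (S.M.v (S.M.α d)) ≠ c (S.M.v (S.M.α (S.M.α d)))
    rw [S.M.αα]; exact hd.2.symm
  have e2 : (((Y.filter bi).filter fun d => OU P f d).card : ZMod 2) = 0 := by
    let W : Finset D := Y.filter fun d => OU P f d
    have hW : ∀ d, d ∈ W ↔ Z d ∧ OU P f d := fun d => by simp [W, hY]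
    let χ : V → ZMod 2 := fun y => if c y = true then 1 else 0
    have s1 : ∑ d ∈ W, χ (S.M.v (S.M.φ d)) = ∑ d ∈ W, χ (S.M.v d) := by
      refine Finset.sum_bij (fun d _ => S.M.φ d) (fun d hd => ?_) (fun a _ b _ hab => S.M.φinj hab)
        (fun b hb => ?_) (fun _ _ => rfl)
      · rw [hW] at hd ⊢
        exact ⟨hφ d hd.2 hd.1, h.ouφ hd.2⟩
      · rw [hW] at hb
        refine ⟨S.M.φ (S.M.φ b), ?_, S.M.φ3 b⟩
        rw [hW]
        exact ⟨hφ _ (h.ouφ hb.2) (hφ _ hb.2 hb.1), h.ouφ (h.ouφ hb.2)⟩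
    have s2 : ∑ d ∈ W, (χ (S.M.v d) + χ (S.M.v (S.M.φ d))) = 0 := by
      rw [Finset.sum_add_distrib, s1]
      exact CharTwo.add_self_eq_zero _
    have s3 : ∀ d, χ (S.M.v d) + χ (S.M.v (S.M.φ d)) = if bi d then 1 else 0 := by
      intro d
      show (if c (S.M.v d) = true then (1 : ZMod 2) else 0) +
        (if c (S.M.v (S.M.φ d)) = true then 1 else 0) =
        if c (S.M.v d) ≠ c (S.M.v (S.M.α d)) then 1 else 0
      rw [S.M.vφ]
      cases c (S.M.v d) <;> cases c (S.M.v (S.M.α d)) <;> simp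
      · decide
    simp only [s3] at s2
    rw [Finset.sum_ite, Finset.sum_const_zero, add_zero, Finset.sum_const, nsmul_eq_mul,
      mul_one] at s2
    have s4 : W.filter bi = (Y.filter bi).filter fun d => OU P f d := by
      ext d
      simp only [W, Finset.mem_filter]
      tauto
    rw [← s4]; exact s2
  have e3 : (((Y.filter bi).filter fun d => ¬ OU P f d).card : ZMod 2) = 0 := by
    have := Finset.card_filter_add_card_filter_not (s := Y.filter bi) (fun d => OU P f d)
    have h2 : (((Y.filter bi).filter fun d => OU P f d).card : ZMod 2) +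
        (((Y.filter bi).filter fun d => ¬ OU P f d).card : ZMod 2) = ((Y.filter bi).card : ZMod 2) := by
      rw [← this]; push_cast; rfl
    rw [e1, e2, zero_add] at h2
    exact h2
  have e4 : ((Y.filter bi).filter fun d => ¬ OU P f d) =
      (((rs.filter od).filter fun j => decide (Z (f j))).toFinset.image f) := by
    ext d
    simp only [Finset.mem_filter, hY, Finset.mem_image, List.mem_toFinset, List.mem_filter,
      decide_eq_true_eq]
    constructor
    · rintro ⟨⟨h1, h2⟩, h3⟩
      have h4 : ∃ j < P.n, f j = d := by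
        by_contra hc
        push Not at hc
        exact h3 hc
      obtain ⟨j, hj, rfl⟩ := h4
      have h5 : P.α j = j := by
        by_contra hc
        exact hOR _ h1 j hj hc rfl
      have h6 := hall j hj h5
      exact ⟨j, ⟨⟨h6, (hod j h6).2 h2⟩, h1⟩, rfl⟩
    · rintro ⟨j, ⟨⟨h1, h2⟩, h3⟩, rfl⟩
      exact ⟨⟨h3, (hod j h1).1 h2⟩, fun h' => h' j (hrs j h1).1 rfl⟩
  rw [e4, Finset.card_image_of_injOn, List.toFinset_card_of_nodup ((hnd.filter _).filter _)] at e3
  · rw [List.countP_eq_length_filter]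
    exact (ZMod.natCast_eq_zero_iff_even).1 e3
  · intro a ha b hb hab
    simp only [List.coe_toFinset, Set.mem_setOf_eq, List.mem_filter] at ha hb
    exact h.e.inj a (hrs a ha.1.1).1 b (hrs b hb.1.1).1 hab

/-- counting over the arcs -/
theorem arc_even {od : ℕ → Bool} {oa : ℕ × ℕ → Bool} {z : ℕ → Bool} :
    ∀ l : List (ℕ × ℕ), (∀ p ∈ l, (p.1 = p.2 ∧ oa p = od p.1) ∨
      (p.1 ≠ p.2 ∧ oa p = (od p.1 != od p.2) ∧ z p.1 = z p.2)) →
    (Even (((l.flatMap ad).filter od).countP z) ↔
      Even (((l.filter oa).map Prod.fst).countP z))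
  | [], _ => by simp
  | p :: l, hl => by
    have ih := arc_even l (fun q hq => hl q (List.mem_cons_of_mem _ hq))
    rw [List.flatMap_cons, List.filter_append, List.countP_append, List.filter_cons]
    rcases hl p (by simp) with ⟨h1, h2⟩ | ⟨h1, h2, h3⟩
    · have e : ad p = [p.1] := if_pos h1
      rw [e, h2, Nat.even_add, ih]
      cases h4 : od p.1
      · simp [h4]
      · simp only [if_true, List.map_cons, List.countP_cons, List.filter_cons, h4, List.filter_nil,
          List.countP_nil, Nat.zero_add]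
        rw [Nat.even_add]
        tauto
    · have e : ad p = [p.1, p.2] := if_neg h1
      rw [e, h2, Nat.even_add, ih]
      cases h4 : od p.1 <;> cases h5 : od p.2 <;> cases h6 : z p.1 <;>
        (rw [h6] at h3; simp [h4, h5, h6, ← h3, Nat.even_add_one])

/-- some sublist satisfies the description -/
theorem subs_sound {k : List ℕ → Bool} (p : ℕ → Prop) : ∀ (l Ac : List ℕ),
    XE.subs k l Ac = true → ∃ Ac', k Ac' = true ∧ ∀ i, i ∈ Ac' ↔ (i ∈ Ac ∨ (i ∈ l ∧ p i))
  | [], Ac, h => ⟨Ac, h, fun i => by simp⟩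
  | a :: l, Ac, h => by
    unfold XE.subs at h
    rw [Bool.and_eq_true] at h
    by_cases ha : p a
    · obtain ⟨Ac', h1, h2⟩ := subs_sound p l (a :: Ac) h.2
      refine ⟨Ac', h1, fun i => ?_⟩
      rw [h2]
      constructor
      · rintro (h3 | h3)
        · rcases List.mem_cons.1 h3 with rfl | h3
          · exact Or.inr ⟨by simp, ha⟩
          · exact Or.inl h3
        · exact Or.inr ⟨List.mem_cons_of_mem _ h3.1, h3.2⟩
      · rintro (h3 | ⟨h3, h4⟩)
        · exact Or.inl (List.mem_cons_of_mem _ h3)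
        · rcases List.mem_cons.1 h3 with rfl | h3
          · exact Or.inl (by simp)
          · exact Or.inr ⟨h3, h4⟩
    · obtain ⟨Ac', h1, h2⟩ := subs_sound p l Ac h.1
      refine ⟨Ac', h1, fun i => ?_⟩
      rw [h2]
      constructor
      · rintro (h3 | h3)
        · exact Or.inl h3
        · exact Or.inr ⟨List.mem_cons_of_mem _ h3.1, h3.2⟩
      · rintro (h3 | ⟨h3, h4⟩)
        · exact Or.inl h3
        · rcases List.mem_cons.1 h3 with rfl | h3
          · exact absurd h4 ha
          · exact Or.inr ⟨h3, h4⟩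

/-- the situation of a labelled ring dart: `ex` and `ex'` are the lists of requirements -/
def LrOk (S S' : St D V) (P : Pa) (f : ℕ → D) (X : XE) (c' : V → Bool) (c0 : ℕ) (ex : List ℕ)
    (q : ℕ × Bool × Bool) : Prop :=
  q.2.1 = true → P.op c0 q.1 = true ∨ 2 ^ X.ce q.1 ∈ ex ∨ Vi S' c' (S.M.α (f q.1))

theorem labs_sound (C : Cx S S' P P' f g X c' c0) {k : List ℕ → List ℕ → Bool} :
    ∀ (l : List (ℕ × Bool × Bool)) (ex ex' : List ℕ),
      (∀ q ∈ l, q.1 < P.n ∧ (q.2.2 = true → Vi S' c' (f q.1) ∨ Vi S' c' (S.M.α (f q.1)))) →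
      X.labs P c0 k l ex ex' = true → Dj S' P f X.ce' c' ex' →
      ∃ ey ey', k ey ey' = true ∧ Dj S' P f X.ce' c' ey' ∧ (∀ m ∈ ex, m ∈ ey) ∧
        ∀ q ∈ l, LrOk S S' P f X c' c0 ey q
  | [], ex, ex', _, h, hd => ⟨ex, ex', h, hd, fun _ h => h, by simp⟩
  | (i, s, s') :: l, ex, ex', hl, h, hd => by
    have hl' : ∀ q ∈ l, q.1 < P.n ∧ (q.2.2 = true → Vi S' c' (f q.1) ∨
        Vi S' c' (S.M.α (f q.1))) := fun q hq => hl q (List.mem_cons_of_mem _ hq)
    obtain ⟨hi, hv⟩ := hl (i, s, s') (by simp)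
    have fin : ∀ (ex1 ex1' : List ℕ), (∀ m ∈ ex, m ∈ ex1) → X.labs P c0 k l ex1 ex1' = true →
        Dj S' P f X.ce' c' ex1' → (s = true → P.op c0 i = true ∨ 2 ^ X.ce i ∈ ex1 ∨
          Vi S' c' (S.M.α (f i))) →
        ∃ ey ey', k ey ey' = true ∧ Dj S' P f X.ce' c' ey' ∧ (∀ m ∈ ex, m ∈ ey) ∧
          ∀ q ∈ (i, s, s') :: l, LrOk S S' P f X c' c0 ey q := by
      intro ex1 ex1' h1 h2 h3 h4
      obtain ⟨ey, ey', k1, k2, k3, k4⟩ := labs_sound C l ex1 ex1' hl' h2 h3
      refine ⟨ey, ey', k1, k2, fun m hm => k3 m (h1 m hm), fun q hq => ?_⟩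
      rcases List.mem_cons.1 hq with rfl | hq
      · intro hs
        rcases h4 hs with h5 | h5 | h5
        · exact Or.inl h5
        · exact Or.inr (Or.inl (k3 _ h5))
        · exact Or.inr (Or.inr h5)
      · exact k4 q hq
    unfold XE.labs at h
    by_cases ho : P.op c0 i = true
    · rw [if_pos ho] at h
      exact fin ex ex' (fun _ h => h) h hd fun _ => Or.inl ho
    · rw [if_neg ho] at h
      by_cases hs' : s' = true
      · rw [if_pos hs', Bool.and_eq_true] at h
        rcases hv hs' with hv | hv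
        · refine fin _ _ ?_ h.2 ?_ ?_
          · intro m hm
            split_ifs
            · exact List.mem_cons_of_mem _ hm
            · exact hm
          · intro m hm
            rcases List.mem_cons.1 hm with rfl | hm
            · exact ⟨i, hi, bit1.2 rfl, hv⟩
            · exact hd m hm
          · intro hs
            rw [if_pos hs]
            exact Or.inr (Or.inl (by simp))
        · exact fin ex ex' (fun _ h => h) h.1 hd fun _ => Or.inr (Or.inr hv)
      · rw [if_neg hs'] at h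
        by_cases hs : s = true
        · rw [if_pos hs] at h
          exact fin _ _ (fun m hm => List.mem_cons_of_mem _ hm) h hd
            fun _ => Or.inr (Or.inl (by simp))
        · rw [if_neg hs] at h
          exact fin ex ex' (fun _ h => h) h hd fun h => absurd h hs

theorem one_sound (C : Cx S S' P P' f g X c' c0)
    (hring : (X.nc || X.par) = true → X.ringOk P = true)
    (hsp : ∀ p ∈ X.ar, X.sp p.1 = true → c' (g (P.l p.1)) ≠ c' (g (P.l (P.φ p.2))) →
      ActR S P f X c' p.1)
    (hlr : ∀ q ∈ X.lr, q.1 < P.n ∧ (q.2.2 = true → Vi S' c' (f q.1) ∨ Vi S' c' (S.M.α (f q.1))))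
    (hdj : Dj S' P f X.ce' c' X.dj') (h : X.one P P' c0 = true) :
    ∃ Ac ex L prs, AcOk S P f X c' Ac ∧ (∀ i ∈ Ac, P.real i = false) ∧
      (∀ q ∈ X.lr, LrOk S S' P f X c' c0 ex q) ∧
      Inv P' X.ce' c0 L ∧ Pw S P P' f X c' c0 prs ∧
      X.leaf P P' c0 Ac (X.bm P' X.ce' X.es' c0 Ac) ex L prs = true := by
  classical
  have hnc : X.nc = true → NCL (Rr S P f X c') X.rs := fun hn =>
    ring_ncl C (hring (by rw [hn]; rfl))
  have hI := C.inv
  -- arcs with ends of different colours
  have hoa : ∀ p ∈ X.ar, (XE.oda P c0 p = true ↔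
      c' (g (P.l p.1)) ≠ c' (g (P.l (P.φ p.2)))) := by
    intro p hp
    obtain ⟨h1, h2⟩ := C.st.al p hp
    rw [C.hm _ h1, C.hm _ h2]
    unfold XE.oda
    simp
  unfold XE.one at h
  obtain ⟨Ac, h, hAc⟩ := subs_sound (fun i => ActR S P f X c' i) _ _ h
  have hAr : ∀ i ∈ Ac, P.real i = false := by
    intro i hi
    rw [hAc] at hi
    rcases hi with hi | ⟨hi, -⟩
    · unfold XE.fo at hi
      obtain ⟨p, h1, rfl⟩ := List.mem_map.1 hi
      rw [List.mem_filter] at h1
      have := h1.2
      simp only [Bool.and_eq_true, Bool.not_eq_true'] at this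
      exact this.1
    · unfold XE.fr at hi
      obtain ⟨p, h1, rfl⟩ := List.mem_map.1 hi
      rw [List.mem_filter] at h1
      have := h1.2
      simp only [Bool.and_eq_true, Bool.not_eq_true'] at this
      exact this.1
  have hA : AcOk S P f X c' Ac := by
    intro i hi hr
    rw [hAc]
    constructor
    · rintro (h1 | h1)
      · unfold XE.fo at h1
        obtain ⟨p, h2, rfl⟩ := List.mem_map.1 h1
        rw [List.mem_filter] at h2
        have := h2.2
        simp only [Bool.and_eq_true, Bool.not_eq_true'] at this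
        exact hsp p h2.1 this.2.1 ((hoa p h2.1).1 this.2.2)
      · exact h1.2
    · intro h1
      unfold XE.as at hi
      obtain ⟨p, hp, rfl⟩ := List.mem_map.1 hi
      by_cases hf : (X.sp p.1 && XE.oda P c0 p) = true
      · left
        exact List.mem_map.2 ⟨p, List.mem_filter.2 ⟨hp, by rw [hr, hf]; rfl⟩, rfl⟩
      · right
        refine ⟨List.mem_map.2 ⟨p, List.mem_filter.2 ⟨hp, ?_⟩, rfl⟩, h1⟩
        rw [hr, Bool.eq_false_iff.2 hf]; rfl
  obtain ⟨ex, ex', h, hex', -, hlo⟩ := labs_sound C X.lr [] [] hlr h (by intro m hm; simp at hm)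
  have hex : Dj S' P f X.ce' c' (ex' ++ X.dj') := by
    intro m hm
    rcases List.mem_append.1 hm with hm | hm
    · exact hex' m hm
    · exact hdj m hm
  simp only [Bool.or_eq_true, Bool.and_eq_true] at h
  have fin : ∀ pr, Pw S P P' f X c' c0 pr →
      ((pr.any fun z => XE.act P Ac z.1 != XE.act P Ac z.2) = true ∨
        X.go P P' c0 Ac (X.bm P' X.ce' X.es' c0 Ac) ex ex'
          ((X.cmps P' X.ce' X.es' c0).length + 1)
          (XD.addp X.ce' pr (X.cmps P' X.ce' X.es' c0)) pr = true) →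
      ∃ Ac ex L prs, AcOk S P f X c' Ac ∧ (∀ i ∈ Ac, P.real i = false) ∧
        (∀ q ∈ X.lr, LrOk S S' P f X c' c0 ex q) ∧
        Inv P' X.ce' c0 L ∧ Pw S P P' f X c' c0 prs ∧
        X.leaf P P' c0 Ac (X.bm P' X.ce' X.es' c0 Ac) ex L prs = true := by
    intro pr hv hk
    rw [Pw.bad C hA hv] at hk
    obtain ⟨L, prs, k1, k2, k3⟩ := go_sound C hA hAr hnc hex _ _ _ (hI.addp (Pw.lt C hv)) hv
      (hk.resolve_left (by simp))
    exact ⟨Ac, ex, L, prs, hA, hAr, hlo, k1, k2, k3⟩
  rcases h with h | ⟨hpar, h⟩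
  · exact fin [] (by intro p hp; simp at hp) h
  · have hr := hring (by rw [hpar]; simp)
    have hN := ring_ncl C hr
    have hr' := hr
    unfold XE.ringOk at hr'
    rw [Bool.and_eq_true, Bool.and_eq_true, decide_eq_true_eq] at hr'
    -- the colours of the ends of ring darts
    let od : ℕ → Bool := fun i => c' (g (P.l i)) != c' (g (P.l (P.φ i)))
    have hod : ∀ i ∈ X.rs, (od i = true ↔
        c' (S.M.v (f i)) ≠ c' (S.M.v (S.M.α (f i)))) := by
      intro i hi
      obtain ⟨h1, h2⟩ := C.st.rs i hi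
      rw [C.h.e.hl i h1, em_end C.h.e C.h.G h1]
      simp [od]
    have sub1 : ((X.ar.filter (XE.oda P c0)).map Prod.fst).Sublist X.rs := by
      refine (List.filter_sublist.map _).trans ?_
      rw [C.st.ar]
      clear * -
      induction X.ar with
      | nil => simp
      | cons p l ih =>
        rw [List.map_cons, List.flatMap_cons]
        unfold ad
        split_ifs
        · exact List.Sublist.cons_cons _ ih
        · exact List.Sublist.cons_cons _ (List.Sublist.cons _ ih)
    have hev : EvL (Rr S P f X c') ((X.ar.filter (XE.oda P c0)).map Prod.fst) := by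
      intro i hi
      have hi' : i ∈ X.rs := sub1.subset hi
      let Z : D → Prop := fun d => ∃ j ∈ X.rs, Rr S P f X c' i j ∧ ORel S P f c' (f j) d
      have hZ : ∀ j ∈ X.rs, (Z (f j) ↔ Rr S P f X c' i j) := by
        intro j hj
        constructor
        · rintro ⟨k, k1, k2, k3⟩
          exact C.rr_equiv.trans k2 (C.rr_or k3)
        · intro h1
          exact ⟨j, hj, h1, ORel.refl _⟩
      have ringO : ∀ j ∈ X.rs, OR P f (f j) := fun j hj =>
        C.pe.ringOR (C.st.rs j hj).1 (C.st.rs j hj).2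
      have p1 := parity_cls (c := c') (Z := Z) C.pe C.st.rs hr'.1.1
        (fun i h1 h2 => (C.st.ring i h1 h2).1) hod
        (fun d hd => by
          rintro ⟨k, k1, k2, k3⟩
          exact ⟨k, k1, k2, k3.φ hd⟩)
        (fun d hd => by
          rintro ⟨k, k1, k2, k3⟩
          exact ⟨k, k1, k2, k3.α (k3.or C.pe (ringO k k1)) hd⟩)
        (fun d => by
          rintro ⟨k, k1, k2, k3⟩
          exact k3.or C.pe (ringO k k1))
      have p2 : Even ((X.rs.filter od).countP fun j => decide (Rr S P f X c' i j)) := by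
        have e2 : ((X.rs.filter od).countP fun j => decide (Rr S P f X c' i j)) =
            (X.rs.filter od).countP fun j => decide (Z (f j)) := by
          refine List.countP_congr fun j hj => ?_
          rw [List.mem_filter] at hj
          simp only [decide_eq_true_eq]
          exact (hZ j hj.1).symm
        rw [e2]
        exact (congrArg Even (List.countP_congr fun j _ => by
             simp only [decide_eq_true_eq])).mp p1
      rw [C.st.ar, arc_even (oa := XE.oda P c0)] at p2
      · exact (congrArg Even (List.countP_congr fun j _ => by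
             simp only [decide_eq_true_eq])).mp p2
      · intro p hp
        have h5 := hoa p hp
        have h6 : XE.oda P c0 p = (c' (g (P.l p.1)) != c' (g (P.l (P.φ p.2)))) := by
          rw [Bool.eq_iff_iff, h5]; simp
        by_cases hpe : p.1 = p.2
        · left
          refine ⟨hpe, ?_⟩
          rw [h6, ← hpe]
        · right
          obtain ⟨-, -, h7, -, -⟩ := (C.st.tw p hp).resolve_left hpe
          refine ⟨hpe, ?_, ?_⟩
          · rw [h6]
            simp only [od]
            rw [h7]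
            cases c' (g (P.l p.1)) <;> cases c' (g (P.l p.2)) <;>
              cases c' (g (P.l (P.φ p.2))) <;> rfl
          · rw [Bool.eq_iff_iff, decide_eq_true_eq, decide_eq_true_eq]
            exact ⟨fun h => C.rr_equiv.trans h (C.rr_arc hp),
              fun h => C.rr_equiv.trans h (C.rr_equiv.symm (C.rr_arc hp))⟩
    obtain ⟨prs', p1, p2⟩ := mt_sound C.rr_equiv _ _ [] [] h
      (by simpa using hN.sub sub1) (by simpa using hev) (by simp) (by simp)
    have hv : Pw S P P' f X c' c0 prs' := by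
      intro p hp
      obtain ⟨h1, h2⟩ := p1 p hp
      have h3 : ∀ i ∈ (X.ar.filter (XE.oda P c0)).map Prod.fst,
          i ∈ X.as ∧ P'.op c0 i = true := by
        intro i hi
        obtain ⟨q, q1, rfl⟩ := List.mem_map.1 hi
        rw [List.mem_filter] at q1
        refine ⟨List.mem_map.2 ⟨q, q1.1, rfl⟩, ?_⟩
        obtain ⟨k1, k2⟩ := C.st.rs _ (C.st.arm q1.1).1
        obtain ⟨-, r1, r2, r3, -⟩ := C.st.ring _ k1 k2
        unfold Pa.op
        rw [r1, r2, r3]
        rcases C.st.tw q q1.1 with h5 | ⟨h5, -⟩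
        · have h6 := q1.2
          unfold XE.oda at h6
          rw [← h5] at h6
          rw [h6, Bool.or_true]
        · rw [h5]; rfl
      rcases h2 with h2 | h2
      · rw [List.reverse_nil, List.nil_append] at h2
        exact ⟨h3 _ h2.1, h3 _ h2.2, h1⟩
      · simp at h2
    refine fin prs' hv ?_
    simpa using p2

end Pool.FC7
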