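import Pool.Agent.FC7.ExG

/-! # Soundness of the extension check: the leaves -/

open Finset

set_option linter.unusedSectionVars false

namespace Pool.FC7

open Pool.FC6

variable {D V : Type} [Fintype D] [DecidableEq V]
variable {S S' : St D V} {P P' : Pa} {f : ℕ → D} {g : ℕ → V} {X : XE} {c' : V → Bool} {c0 : ℕ}

/-- the transfer condition for a set `W` of cells -/
def TT (X : XE) (P' : Pa) (c0 K W : ℕ) : Prop :=
  (∀ i ∈ X.as, P'.op c0 i = true → K.testBit (X.ce' i) = true → W.testBit (X.ce i) = true) ∧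
    ∀ a < X.k, K &&& X.st' (X.x + a) ≠ 0 → W &&& X.st (X.x + a) ≠ 0

theorem tra_get {B' : ℕ} {Lc : List ℕ} {U K : ℕ} (h : X.tra P' c0 B' Lc U K = true) :
    (K &&& B' ≠ 0 → TT X P' c0 K U) ∧ (K &&& B' = 0 → ∀ j ∈ X.as, P'.op c0 j = true →
      K.testBit (X.ce' j) = true → TT X P' c0 K (U ||| XE.co (X.ce j) Lc)) := by
  have key : ∀ W : ℕ, ((X.as.filter fun i => P'.op c0 i && K.testBit (X.ce' i)).all
      (fun i => W.testBit (X.ce i)) && ((List.range X.k).filter fun a =>
        K &&& X.st' (X.x + a) != 0).all fun a => W &&& X.st (X.x + a) != 0) = true →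
      TT X P' c0 K W := by
    intro W hW
    rw [Bool.and_eq_true, List.all_eq_true, List.all_eq_true] at hW
    refine ⟨fun i hi ho hk => hW.1 i (List.mem_filter.2 ⟨hi, by rw [ho, hk]; rfl⟩),
      fun a ha hk => ?_⟩
    have := hW.2 a (List.mem_filter.2 ⟨List.mem_range.2 ha, by simpa using hk⟩)
    simpa using this
  unfold XE.tra at h
  simp only at h
  constructor
  · intro hK
    rw [if_pos (by simpa using hK)] at h
    exact key U h
  · intro hK j hj oj bj
    rw [if_neg (by simpa using hK), List.all_eq_true] at h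
    exact key _ (h j (List.mem_filter.2 ⟨hj, by rw [oj, bj]; rfl⟩))

theorem leaf_ex {Ac : List ℕ} {B' : ℕ} {ex L : List ℕ} {prs : List (ℕ × ℕ)}
    (h : X.leaf P P' c0 Ac B' ex L prs = true) :
    ∃ ξ < 2 ^ X.x, ∃ (m : ℕ) (Lc : List ℕ) (B U : ℕ), m = (c0 >>> X.x) <<< X.x + ξ ∧
      Lc = XD.addp X.ce prs (X.cmps P X.ce X.es m) ∧ B = X.bm P X.ce X.es m Ac ∧
      U = XE.vu B Lc ∧
      (∀ z ∈ X.dj ++ ex, z &&& U ≠ 0) ∧ (Lc.filter fun z => z &&& B != 0).length ≤ 1 ∧
      (XE.vu B' L ≠ 0 ∨ U = 0) ∧ ∀ K ∈ L, X.tra P' c0 B' Lc U K = true := by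
  by_contra hno
  push Not at hno
  unfold XE.leaf at h
  rw [Bool.not_eq_true'] at h
  have : ∀ b : Bool, b = false → b = true → False := by decide
  refine this _ h ?_
  rw [allN_iff]
  intro ξ hξ
  rw [Bool.not_eq_true', Bool.eq_false_iff]
  intro h1
  simp only [Bool.and_eq_true, decide_eq_true_eq, Bool.or_eq_true, List.all_eq_true] at h1
  obtain ⟨⟨⟨h2, h3⟩, h4⟩, h5⟩ := h1
  obtain ⟨K, k1, k2⟩ := hno ξ hξ _ _ _ _ rfl rfl rfl rfl (fun z hz => by
    have := h2 z hz
    simpa using this) h3 (by simpa using h4)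
  exact k2 (h5 K k1)

theorem br_real {Q : Pa} {m i : ℕ} (h : br Q m i = true) : Q.real i = true := by
  unfold br at h
  rw [Bool.and_eq_true] at h
  exact h.1

theorem leaf_sound (C : Cx S S' P P' f g X c' c0)
    (hgx : ∀ a < X.x, ∀ b < X.x, g a = g b → a = b) {Ac : List ℕ} (hA : AcOk S P f X c' Ac)
    (hAr : ∀ i ∈ Ac, P.real i = false) {ex L : List ℕ} {prs : List (ℕ × ℕ)}
    (hI : Inv P' X.ce' c0 L) (hp : Pw S P P' f X c' c0 prs)
    (h : X.leaf P P' c0 Ac (X.bm P' X.ce' X.es' c0 Ac) ex L prs = true) :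
    ∃ c, Ag g X c' c ∧ (∀ t, S.Test c t → ∀ d d', Br S c d → Br S c d' → t d = t d') ∧
      (∀ d, OU P f d → Vi S' c' d → Vi S c d) ∧
      (∀ i < P.n, Vi S' c' (f i) → X.x ≤ P'.l i → P'.l i < X.x + X.k →
        ∃ d, S.M.v d = g (P'.l i) ∧ Vi S c d) ∧
      ∀ z ∈ X.dj ++ ex, ∃ i < P.n, z.testBit (X.ce i) = true ∧ Vi S c (f i) := by
  classical
  obtain ⟨ξ, hξ, m, Lc, B, U, hm, hLc, hB, hU, h1, h2, h3, h4⟩ := leaf_ex h
  set B' := X.bm P' X.ce' X.es' c0 Ac with hB'
  set c := nc g X.x ξ c' with hc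
  have hag : Ag g X c' c := nc_agr' 
  have hn := C.h.hn
  have hop : ∀ i < P.n, (S.Op c (f i) ↔ P.op m i = true) := fun i hi => by
    rw [hm]; exact C.opP hgx hξ hi
  have hbr : ∀ i < P.n, (Br S c (f i) ↔ br P m i = true) := fun i hi => by
    rw [hm]; exact C.brP hgx hξ hi
  -- the components of `P`
  have hop' : ∀ i ∈ X.as, P'.op c0 i = true → P.op m i = true := by
    intro i hi ho
    obtain ⟨k1, k2⟩ := C.st.rs i (C.st.asm hi)
    rw [← hop i k1, C.opO hag (C.pe.ringOR k1 k2), C.op' k1]; exact ho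
  have hIc : Inv P X.ce m Lc := by
    rw [hLc]
    refine Inv.addp C.invP fun p hp' => ?_
    obtain ⟨k1, k2, _⟩ := hp p hp'
    exact ⟨⟨(C.st.rs _ (C.st.asm k1.1)).1, hop' _ k1.1 k1.2⟩,
      ⟨(C.st.rs _ (C.st.asm k2.1)).1, hop' _ k2.1 k2.2⟩⟩
  have hcon : ∀ t, S.Test c t → ∀ K ∈ Lc, ∀ i < P.n, ∀ j < P.n, K.testBit (X.ce i) = true →
      K.testBit (X.ce j) = true → t (f i) = t (f j) := by
    intro t ht
    let Q : ℕ → Prop := fun m => (∀ t, m.testBit t = true → ∃ i < P.n, X.ce i = t) ∧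
      ∀ i < P.n, ∀ j < P.n, m.testBit (X.ce i) = true → m.testBit (X.ce j) = true →
        t (f i) = t (f j)
    have hQ : ∀ e m, Q e → Q m → m &&& e ≠ 0 → Q (e ||| m) := by
      intro e m he hm hem
      obtain ⟨b, t1, t2⟩ := and_ne_zero.1 hem
      obtain ⟨k, hk, rfl⟩ := he.1 b t2
      have rk : ∀ i < P.n, (e ||| m).testBit (X.ce i) = true → t (f k) = t (f i) := by
        intro i hi h1
        rw [Nat.testBit_or, Bool.or_eq_true] at h1
        rcases h1 with h1 | h1
        · exact he.2 k hk i hi t2 h1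
        · exact hm.2 k hk i hi t1 h1
      refine ⟨fun b hb => ?_, fun i hi j hj h1 h2 => (rk i hi h1).symm.trans (rk j hj h2)⟩
      rw [Nat.testBit_or, Bool.or_eq_true] at hb
      rcases hb with hb | hb
      · exact he.1 b hb
      · exact hm.1 b hb
    have q2 : ∀ i < P.n, ∀ j < P.n, t (f i) = t (f j) → Q (2 ^ X.ce i ||| 2 ^ X.ce j) := by
      intro i hi j hj hij
      have rk : ∀ k < P.n, (2 ^ X.ce i ||| 2 ^ X.ce j).testBit (X.ce k) = true →
          t (f i) = t (f k) := by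
        intro k hk h1
        rcases bit2.1 h1 with h1 | h1
        · exact C.cellP ht hi hk h1
        · exact hij.trans (C.cellP ht hj hk h1)
      refine ⟨fun b hb => ?_, fun a ha b hb h1 h2 => (rk a ha h1).symm.trans (rk b hb h2)⟩
      rcases bit2.1 hb with hb | hb
      · exact ⟨i, hi, hb⟩
      · exact ⟨j, hj, hb⟩
    have hQL : ∀ e ∈ Lc, Q e := by
      rw [hLc, addp_eq, cmps_eq]
      apply mf_Q hQ
      · intro p hp' _
        obtain ⟨k1, k2, k3⟩ := hp p hp'
        exact q2 _ (C.st.rs _ (C.st.asm k1.1)).1 _ (C.st.rs _ (C.st.asm k2.1)).1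
          (C.rr_test hag ht k3)
      · apply mf_Q hQ
        · intro i hi _
          obtain ⟨k1, k2⟩ := C.st.rs i (C.st.asm hi)
          refine ⟨fun b hb => ⟨i, k1, bit1.1 hb⟩, fun a ha b hb h1 h2 => ?_⟩
          exact C.cellP ht ha hb ((bit1.1 h1).symm.trans (bit1.1 h2))
        · apply mf_Q hQ
          · intro i hi ho
            obtain ⟨k1, k2⟩ := C.st.es i hi
            refine q2 _ k1 _ (C.h.G.αlt i k1) ?_
            rw [← C.h.e.hα i k1 k2, ht.2 _ ((hop i k1).2 ho)]
          · simp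
    exact fun K hK => (hQL K hK).2
  -- marked cells of `P`
  have hmk : ∀ b, B.testBit b = true → ∃ i < P.n, X.ce i = b ∧ Vi S c (f i) := by
    intro b hb
    rw [hB, C.bmb] at hb
    rcases hb with ⟨i, k1, k2, k3⟩ | ⟨i, k1, k2, k3⟩
    · exact ⟨i, k1, k3, ((hbr i k1).2 k2).vi⟩
    · exact ⟨i, (C.st.rs i (C.st.asm k1)).1, k3, C.actR_vi hag ((hA i k1 (hAr i k2)).1 k2)⟩
  have v1 : ∀ i < P.n, U.testBit (X.ce i) = true → Vi S c (f i) := by
    intro i hi hb
    rw [hU, vu_bit] at hb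
    obtain ⟨K, k1, k2, k3⟩ := hb
    obtain ⟨b, b1, b2⟩ := and_ne_zero.1 k2
    obtain ⟨j, j1, rfl, j3⟩ := hmk b b2
    exact j3.eq fun t ht => hcon t ht K k1 j j1 i hi b1 k3
  have v2 : ∀ i < P.n, ∀ j < P.n, (XE.co (X.ce j) Lc).testBit (X.ce i) = true →
      ∀ t, S.Test c t → t (f j) = t (f i) := by
    intro i hi j hj hb t ht
    rw [co_bit] at hb
    obtain ⟨K, k1, k2, k3⟩ := hb
    exact hcon t ht K k1 j hj i hi k2 k3
  have v3 : ∀ i < P.n, ∀ j < P.n, Vi S c (f j) →
      (U ||| XE.co (X.ce j) Lc).testBit (X.ce i) = true → Vi S c (f i) := by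
    intro i hi j hj hv hb
    rw [Nat.testBit_or, Bool.or_eq_true] at hb
    rcases hb with hb | hb
    · exact v1 i hi hb
    · exact hv.eq (v2 i hi j hj hb)
  -- the two parts of the transfer condition
  have tr1 : ∀ K ∈ L, K &&& B' ≠ 0 → TT X P' c0 K U := fun K hK => (tra_get (h4 K hK)).1
  have tr2 : ∀ K ∈ L, K &&& B' = 0 → ∀ j ∈ X.as, P'.op c0 j = true →
      K.testBit (X.ce' j) = true → TT X P' c0 K (U ||| XE.co (X.ce j) Lc) := fun K hK =>
    (tra_get (h4 K hK)).2
  have compE : ∀ i < P.n, (P.α i = i ∨ P'.real i = true) → P'.op c0 i = true →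
      ∃ K ∈ L, K.testBit (X.ce' i) = true :=
    fun i hi hr ho => hI.all i (by rw [hn]; exact hi) (by rw [C.h.hα i hi]; exact hr) ho
  have innK : ∀ i < P.n, P.α i ≠ i → P'.op c0 i = true → ∀ K ∈ L,
      (K.testBit (X.ce' i) = true ↔ K.testBit (X.ce' (P.α i)) = true) := by
    intro i hi hne ho K hK
    by_cases hr : P'.real i = true
    swap
    · rw [C.st.cv' i hi (by simpa using hr)]
    obtain ⟨e, he, k1, k2⟩ := hI.inn i (by rw [hn]; exact hi) (by rw [C.h.hα i hi]; exact hne) hr ho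
    rw [C.h.hα i hi] at k2
    constructor
    · intro h5
      rw [hI.uniq hK he h5 k1]; exact k2
    · intro h5
      rw [hI.uniq hK he h5 k2]; exact k1
  -- representatives
  have rep : ∀ i ∈ X.rs, P'.op c0 i = true → ∃ p ∈ X.as, p < P.n ∧ P'.op c0 p = true ∧
      X.ce p = X.ce i ∧ X.ce' p = X.ce' i := by
    intro i hi ho
    obtain ⟨p, p1, p2, p3, p4, p5⟩ := C.st.rep hi
    obtain ⟨k1, k2⟩ := C.st.rs _ (C.st.arm p1).1
    refine ⟨p.1, List.mem_map.2 ⟨p, p1, rfl⟩, k1, ?_, p3, p4⟩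
    rcases p5 with p5 | ⟨p5, p6⟩
    · rw [← p5]; exact ho
    · unfold Pa.op
      rw [(C.st.ring _ k1 k2).2.1, p5]
      rfl
  have vice : ∀ i < P.n, ∀ j < P.n, X.ce i = X.ce j → Vi S c (f i) → Vi S c (f j) :=
    fun i hi j hj he hv => hv.eq fun t ht => C.cellP ht hi hj he
  -- good patch darts of `S'`
  let good : ℕ → Prop := fun i => ∃ K ∈ L, K.testBit (X.ce' i) = true ∧
    (K &&& B' ≠ 0 ∨ ∃ j ∈ X.as, P'.op c0 j = true ∧ K.testBit (X.ce' j) = true ∧ Vi S c (f j))
  have gas : ∀ i ∈ X.as, P'.op c0 i = true → (good i ↔ Vi S c (f i)) := by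
    intro i hi ho
    obtain ⟨k1, k2⟩ := C.st.rs i (C.st.asm hi)
    constructor
    · rintro ⟨K, hK, b1, b2⟩
      by_cases hKB : K &&& B' = 0
      · obtain ⟨j, j1, j2, j3, j4⟩ := b2.resolve_left (by simpa using hKB)
        exact v3 i k1 j (C.st.rs j (C.st.asm j1)).1 j4 ((tr2 K hK hKB j j1 j2 j3).1 i hi ho b1)
      · exact v1 i k1 ((tr1 K hK hKB).1 i hi ho b1)
    · intro hv
      obtain ⟨K, hK, b1⟩ := compE i k1 (Or.inl k2) ho
      exact ⟨K, hK, b1, Or.inr ⟨i, hi, ho, b1, hv⟩⟩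
  have gring : ∀ i ∈ X.rs, P'.op c0 i = true → (good i ↔ Vi S c (f i)) := by
    intro i hi ho
    obtain ⟨p, p1, p2, p3, p4, p5⟩ := rep i hi ho
    have e1 : good i ↔ good p := by simp only [good, p5]
    have hin := (C.st.rs i hi).1
    rw [e1, gas p p1 p3]
    exact ⟨vice p p2 i hin p4, vice i hin p p2 p4.symm⟩
  let Kp : D → Prop := fun d => (OU P f d ∧ Vi S c d) ∨ ∃ i, i < P.n ∧ f i = d ∧ good i
  have KU : ∀ d, OU P f d → (Kp d ↔ Vi S c d) := by
    intro d hd
    constructor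
    · rintro (h5 | ⟨i, hi, h5, _⟩)
      · exact h5.2
      · exact absurd h5 (hd i hi)
    · exact fun h5 => Or.inl ⟨hd, h5⟩
  have Kf : ∀ i < P.n, (Kp (f i) ↔ good i) := by
    intro i hi
    constructor
    · rintro (h5 | ⟨j, hj, h5, h6⟩)
      · exact absurd rfl (h5.1 i hi)
      · have := C.pe.e.inj j hj i hi h5
        rwa [← this]
    · exact fun h5 => Or.inr ⟨i, hi, rfl, h5⟩
  have KO : ∀ d, OR P f d → S'.Op c' d → (Kp d ↔ Vi S c d) := by
    intro d hd ho
    by_cases hO : OU P f d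
    · exact KU d hO
    · obtain ⟨i, hi, rfl⟩ := C.exi hO
      have hα : P.α i = i := by
        by_contra hcon
        exact hd i hi hcon rfl
      rw [Kf i hi]
      exact gring i (C.st.ring i hi hα).1 ((C.op' hi).1 ho)
  have hKp : ∀ d, Vi S' c' d → Kp d := by
    intro d hd
    refine hd.cls Kp (fun d => ?_) (fun d ho => ?_) (fun d hb => ?_)
    · by_cases hO : OU P f d
      · have o1 := C.pe.ouφ hO
        rw [C.h.φo d hO, KU _ o1, KU _ hO, vi_φ]
      · obtain ⟨i, hi, rfl⟩ := C.exi hO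
        have hi' : i < P'.n := by rw [hn]; exact hi
        have k1 := C.h.G'.φlt i hi'
        rw [hn] at k1
        rw [C.h.e'.hφ i hi', Kf _ k1, Kf i hi]
        simp only [good, C.st.ce' i hi]
    · rw [C.h.αo d]
      by_cases hd : OR P f d
      · rw [KO d hd ho, KO _ (C.pe.orα hd) (C.opα' ho), vi_α ((C.opO hag hd).2 ho)]
      · have : ∃ i, i < P.n ∧ P.α i ≠ i ∧ f i = d := by
          by_contra hcon
          apply hd
          intro i hi hne he
          exact hcon ⟨i, hi, hne, he⟩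
        obtain ⟨i, hi, hne, rfl⟩ := this
        have oi := (C.op' hi).1 ho
        rw [C.pe.e.hα i hi hne, Kf _ (C.pe.G.αlt i hi), Kf i hi]
        constructor
        · rintro ⟨K, k1, k2, k3⟩
          exact ⟨K, k1, (innK i hi hne oi K k1).2 k2, k3⟩
        · rintro ⟨K, k1, k2, k3⟩
          exact ⟨K, k1, (innK i hi hne oi K k1).1 k2, k3⟩
    · by_cases hO : OU P f d
      · rw [KU d hO]
        exact ((C.brO hag hO.or).2 hb).vi
      · obtain ⟨i, hi, rfl⟩ := C.exi hO
        rw [Kf i hi]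
        have hb' := (C.br' hi).1 hb
        obtain ⟨K, k1, k2⟩ := compE i hi (Or.inr (br_real hb')) (br_op hb')
        exact ⟨K, k1, k2, Or.inl (and_ne_zero.2 ⟨_, k2, C.bmb'.2 (Or.inl ⟨i, hi, hb', rfl⟩)⟩)⟩
  refine ⟨c, hag, fun t ht => ?_, fun d hd hv => (KU d hd).1 (hKp d hv), fun i hi hv l1 l2 => ?_,
    fun z hz => ?_⟩
  · -- connectedness
    obtain ⟨lam, hlam⟩ : ∃ lam : ℝ, ∀ i < P.n, U.testBit (X.ce i) = true → t (f i) = lam := by
      by_cases hex : ∃ i < P.n, U.testBit (X.ce i) = true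
      · obtain ⟨i, hi, bi⟩ := hex
        refine ⟨t (f i), fun j hj bj => ?_⟩
        rw [hU, vu_bit] at bi bj
        obtain ⟨K, k1, k2, k3⟩ := bi
        obtain ⟨K', k1', k2', k3'⟩ := bj
        have hKK : K = K' := by
          have m1 : K ∈ Lc.filter fun z => z &&& B != 0 :=
            List.mem_filter.2 ⟨k1, by simpa using k2⟩
          have m2 : K' ∈ Lc.filter fun z => z &&& B != 0 :=
            List.mem_filter.2 ⟨k1', by simpa using k2'⟩
          match Lc.filter (fun z => z &&& B != 0), m1, m2, h2 with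
          | [], m1, _, _ => simp at m1
          | [z], m1, m2, _ =>
            rw [List.mem_singleton] at m1 m2
            rw [m1, m2]
          | _ :: _ :: _, _, _, hl => simp at hl
        subst hKK
        exact hcon t ht K k1 j hj i hi k3' k3
      · push Not at hex
        exact ⟨0, fun j hj bj => absurd bj (by simpa using hex j hj)⟩
    let tv : ℕ → ℝ := fun K => if K &&& B' ≠ 0 then lam else
      if hj : ∃ j, j ∈ X.as ∧ P'.op c0 j = true ∧ K.testBit (X.ce' j) = true then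
        t (f hj.choose) else 0
    have tva : ∀ K ∈ L, ∀ j ∈ X.as, P'.op c0 j = true → K.testBit (X.ce' j) = true →
        tv K = t (f j) := by
      intro K hK j hj oj bj
      obtain ⟨j1, -⟩ := C.st.rs j (C.st.asm hj)
      by_cases hKB : K &&& B' = 0
      · have hex : ∃ j, j ∈ X.as ∧ P'.op c0 j = true ∧ K.testBit (X.ce' j) = true :=
          ⟨j, hj, oj, bj⟩
        have e1 : tv K = t (f hex.choose) := by
          simp only [tv]
          rw [if_neg (by simpa using hKB), dif_pos hex]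
        obtain ⟨y1, y2, y3⟩ := hex.choose_spec
        set y := hex.choose with hy
        have y4 := (C.st.rs y (C.st.asm y1)).1
        rw [e1]
        have w1 := (tr2 K hK hKB y y1 y2 y3).1 j hj oj bj
        have w2 := (tr2 K hK hKB j hj oj bj).1 y y1 y2 y3
        rw [Nat.testBit_or, Bool.or_eq_true] at w1 w2
        rcases w1 with w1 | w1
        · rcases w2 with w2 | w2
          · rw [hlam y y4 w2, hlam j j1 w1]
          · exact (v2 y y4 j j1 w2 t ht).symm
        · exact v2 j j1 y y4 w1 t ht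
      · have e1 : tv K = lam := by
          simp only [tv]
          rw [if_pos hKB]
        rw [e1, hlam j j1 ((tr1 K hK hKB).1 j hj oj bj)]
    have tvr : ∀ K ∈ L, ∀ j ∈ X.rs, P'.op c0 j = true → K.testBit (X.ce' j) = true →
        tv K = t (f j) := by
      intro K hK j hj oj bj
      obtain ⟨p, p1, p2, p3, p4, p5⟩ := rep j hj oj
      rw [tva K hK p p1 p3 (by rw [p5]; exact bj)]
      exact C.cellP ht p2 (C.st.rs j hj).1 p4
    let kof : ℕ → ℕ := fun i => if hK : ∃ K, K ∈ L ∧ K.testBit (X.ce' i) = true then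
      hK.choose else 0
    have kofe : ∀ i, ∀ K ∈ L, K.testBit (X.ce' i) = true → kof i = K := by
      intro i K hK b
      have hex : ∃ K, K ∈ L ∧ K.testBit (X.ce' i) = true := ⟨K, hK, b⟩
      simp only [kof]
      rw [dif_pos hex]
      exact hI.uniq hex.choose_spec.1 hK hex.choose_spec.2 b
    let t' : D → ℝ := fun d => if hd : ∃ i, i < P.n ∧ f i = d then tv (kof hd.choose) else t d
    have tf : ∀ i < P.n, t' (f i) = tv (kof i) := by
      intro i hi
      have hex : ∃ j, j < P.n ∧ f j = f i := ⟨i, hi, rfl⟩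
      simp only [t']
      rw [dif_pos hex, C.pe.e.inj _ hex.choose_spec.1 i hi hex.choose_spec.2]
    have tO : ∀ d, OU P f d → t' d = t d := by
      intro d hd
      simp only [t']
      rw [dif_neg]
      rintro ⟨i, hi, he⟩
      exact hd i hi he
    have tR : ∀ d, OR P f d → S'.Op c' d → t' d = t d := by
      intro d hd ho
      by_cases hO : OU P f d
      · exact tO d hO
      · obtain ⟨i, hi, rfl⟩ := C.exi hO
        have hα : P.α i = i := by
          by_contra hcon
          exact hd i hi hcon rfl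
        have oi := (C.op' hi).1 ho
        obtain ⟨K, k1, k2⟩ := compE i hi (Or.inl hα) oi
        rw [tf i hi, kofe i K k1 k2]
        exact tvr K k1 i (C.st.ring i hi hα).1 oi k2
    have hT : S'.Test c' t' := by
      refine ⟨fun d => ?_, fun d ho => ?_⟩
      · by_cases hO : OU P f d
        · rw [C.h.φo d hO, tO _ (C.pe.ouφ hO), tO _ hO, ht.1]
        · obtain ⟨i, hi, rfl⟩ := C.exi hO
          have hi' : i < P'.n := by rw [hn]; exact hi
          have h5 := C.h.G'.φlt i hi'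
          rw [hn] at h5
          rw [C.h.e'.hφ i hi', tf _ h5, tf i hi]
          simp only [kof, C.st.ce' i hi]
      · rw [C.h.αo d]
        by_cases hd : OR P f d
        · rw [tR _ hd ho, tR _ (C.pe.orα hd) (C.opα' ho), ht.2 _ ((C.opO hag hd).2 ho)]
        · have : ∃ i, i < P.n ∧ P.α i ≠ i ∧ f i = d := by
            by_contra hcon
            apply hd
            intro i hi hne he
            exact hcon ⟨i, hi, hne, he⟩
          obtain ⟨i, hi, hne, rfl⟩ := this
          have oi := (C.op' hi).1 ho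
          by_cases hr : P'.real i = true
          swap
          · rw [C.pe.e.hα i hi hne, tf _ (C.pe.G.αlt i hi), tf i hi]
            simp only [kof, C.st.cv' i hi (by simpa using hr)]
          obtain ⟨K, k1, k2⟩ := compE i hi (Or.inr hr) oi
          rw [C.pe.e.hα i hi hne, tf _ (C.pe.G.αlt i hi), tf i hi, kofe i K k1 k2,
            kofe _ K k1 ((innK i hi hne oi K k1).1 k2)]
    by_cases hU0 : U = 0
    · have out : ∀ d, Br S c d → OU P f d := by
        intro d hb
        by_contra hO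
        obtain ⟨i, hi, rfl⟩ := C.exi hO
        have hb' := (hbr i hi).1 hb
        obtain ⟨K, k1, k2⟩ := hIc.all i hi (Or.inr (br_real hb')) (br_op hb')
        have : U.testBit (X.ce i) = true := by
          rw [hU, vu_bit]
          exact ⟨K, k1, and_ne_zero.2 ⟨_, k2, by rw [hB, C.bmb]; exact Or.inl ⟨i, hi, hb', rfl⟩⟩, k2⟩
        rw [hU0, Nat.zero_testBit] at this
        cases this
      intro d d' hd hd'
      have o1 := out d hd
      have o2 := out d' hd'
      rw [← tO d o1, ← tO d' o2]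
      exact C.con' t' hT d d' ((C.brO hag o1.or).1 hd) ((C.brO hag o2.or).1 hd')
    · have hU' : XE.vu B' L ≠ 0 := h3.resolve_right hU0
      obtain ⟨b, hb⟩ := Nat.exists_testBit_of_ne_zero hU'
      rw [vu_bit] at hb
      obtain ⟨K, k1, k2, -⟩ := hb
      obtain ⟨b, b1, b2⟩ := and_ne_zero.1 k2
      obtain ⟨i1, i2, rfl, e1, e2, e3⟩ := C.mark' hA hAr b2
      have ht1 : t' e1 = lam := by
        rw [e3 t' hT, tf i1 i2, kofe i1 K k1 b1]
        simp only [tv]
        rw [if_pos k2]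
      have key : ∀ d, Br S c d → t d = lam := by
        intro d hb
        by_cases hO : OU P f d
        · rw [← tO d hO, C.con' t' hT d e1 ((C.brO hag hO.or).1 hb) e2, ht1]
        · obtain ⟨i, hi, rfl⟩ := C.exi hO
          have hb' := (hbr i hi).1 hb
          obtain ⟨K, k1, k2⟩ := hIc.all i hi (Or.inr (br_real hb')) (br_op hb')
          refine hlam i hi ?_
          rw [hU, vu_bit]
          exact ⟨K, k1, and_ne_zero.2 ⟨_, k2, by rw [hB, C.bmb]; exact Or.inl ⟨i, hi, hb', rfl⟩⟩, k2⟩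
      intro d d' hd hd'
      rw [key d hd, key d' hd']
  · -- ring labels
    obtain ⟨K, hK, b1, b2⟩ := (Kf i hi).1 (hKp _ hv)
    have hi' : i < P'.n := by rw [hn]; exact hi
    have e5 : X.x + (P'.l i - X.x) = P'.l i := by omega
    have hst : K &&& X.st' (X.x + (P'.l i - X.x)) ≠ 0 := by
      rw [e5]
      exact and_ne_zero.2 ⟨_, b1, C.st.st' i hi⟩
    have fin : ∀ W : ℕ, W &&& X.st (P'.l i) ≠ 0 →
        (∀ j < P.n, W.testBit (X.ce j) = true → Vi S c (f j)) →
        ∃ d, S.M.v d = g (P'.l i) ∧ Vi S c d := by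
      intro W hW hv'
      obtain ⟨b, c1, c2⟩ := and_ne_zero.1 hW
      obtain ⟨j, hj, hl, hce⟩ := C.st.stb _ l2 b c2
      refine ⟨f j, by rw [C.h.e.hl j hj, hl], hv' j hj ?_⟩
      rw [hce]; exact c1
    by_cases hKB : K &&& B' = 0
    · obtain ⟨j, j1, j2, j3, j4⟩ := b2.resolve_left (by simpa using hKB)
      have w := (tr2 K hK hKB j j1 j2 j3).2 _ (by omega) hst
      rw [e5] at w
      exact fin _ w fun y hy hb => v3 y hy j (C.st.rs j (C.st.asm j1)).1 j4 hb
    · have w := (tr1 K hK hKB).2 _ (by omega) hst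
      rw [e5] at w
      exact fin _ w v1
  · -- requirements
    obtain ⟨b, c1, c2⟩ := and_ne_zero.1 (h1 z hz)
    have c3 := c2
    rw [hU, vu_bit] at c3
    obtain ⟨K, k1, k2, k3⟩ := c3
    obtain ⟨i, hi, oi, rfl⟩ := hIc.vi K k1 b k3
    exact ⟨i, hi, c1, v1 i hi c2⟩

end Pool.FC7
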