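import Pool.Agent.FC7.ExH

/-! # Bit matrices

A relation on `0, .., q - 1` is given by a number: bit `q s + t` = the pair `(s, t)` is in the relation. -/

set_option linter.unusedSectionVars false

namespace Pool.FC7

open Pool.FC6

theorem bif_eq {α : Type} (b : Bool) (x y : α) :
    (Bool.rec (motive := fun _ => _) y x b) = if b = true then x else y := by
  cases b <;> rfl

theorem bif_true {b : Bool} {x y : Bool} (h : (Bool.rec (motive := fun _ => _) y x b) = true) :
    (b = true ∧ x = true) ∨ (b = false ∧ y = true) := by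
  cases b
  · exact Or.inr ⟨rfl, h⟩
  · exact Or.inl ⟨rfl, h⟩

/-- the pair `(s, t)` is in the relation -/
def rb (q R s t : ℕ) : Prop := t < q ∧ R.testBit (q * s + t) = true

/-- the ones at the multiples of `q` -/
def Ks (q : ℕ) : ℕ → ℕ
  | 0 => 0
  | w + 1 => 1 + 2 ^ q * Ks q w

/-- the diagonal -/
def Is (q : ℕ) : ℕ → ℕ
  | 0 => 0
  | w + 1 => Is q w ||| 2 ^ (q * w + w)

theorem tb_add {q a b n : ℕ} (hb : b < 2 ^ q) : (b + 2 ^ q * a).testBit n =
    if n < q then b.testBit n else a.testBit (n - q) := by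
  rw [Nat.add_comm]
  exact Nat.testBit_two_pow_mul_add a hb n

theorem Ks_bit {q w n : ℕ} (hq : 0 < q) : (Ks q w).testBit n = true ↔ ∃ t < w, n = q * t := by
  induction w generalizing n with
  | zero => simp [Ks]
  | succ w ih =>
    unfold Ks
    rw [tb_add (Nat.one_lt_two_pow (by omega))]
    split_ifs with h
    · rw [Nat.testBit_one_eq_true_iff_self_eq_zero]
      constructor
      · rintro rfl
        exact ⟨0, by omega, by simp⟩
      · rintro ⟨t, h1, h2⟩
        rcases Nat.eq_zero_or_pos t with h3 | h3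
        · rw [h2, h3]; simp
        · exfalso
          have : q * 1 ≤ q * t := Nat.mul_le_mul_left _ h3
          omega
    · rw [ih]
      constructor
      · rintro ⟨t, h1, h2⟩
        exact ⟨t + 1, by omega, by rw [Nat.mul_add, mul_one]; omega⟩
      · rintro ⟨t, h1, h2⟩
        rcases t with _ | t
        · simp at h2; omega
        · exact ⟨t, by omega, by rw [h2, Nat.mul_add, mul_one]; omega⟩

/-- all ones are at multiples of `q` -/
def Spr (q s : ℕ) : Prop := ∀ n, s.testBit n = true → q ∣ n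

theorem Spr.land {q w s : ℕ} (hq : 0 < q) : Spr q (s &&& Ks q w) := by
  intro n h
  rw [Nat.testBit_and, Bool.and_eq_true, Ks_bit hq] at h
  obtain ⟨_, t, _, rfl⟩ := h
  exact Dvd.intro _ rfl

theorem Spr.step {q s : ℕ} (hq : 0 < q) (h : Spr q s) :
    ∃ b s', b ≤ 1 ∧ s = b + 2 ^ q * s' ∧ Spr q s' := by
  have e1 : s = s % 2 ^ q + 2 ^ q * (s / 2 ^ q) := (Nat.mod_add_div _ _).symm
  refine ⟨s % 2 ^ q, s / 2 ^ q, ?_, e1, fun n hn => ?_⟩
  · have e : s % 2 ^ q = s % 2 := by
      apply Nat.eq_of_testBit_eq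
      intro n
      rw [Nat.testBit_mod_two_pow]
      rcases Nat.eq_zero_or_pos n with h0 | h0
      · subst h0
        have : (s % 2).testBit 0 = s.testBit 0 := by simp [Nat.testBit_zero]
        rw [this]; simp [hq]
      · have h1 : (s % 2).testBit n = false := by
          have : s % 2 < 2 ^ n := lt_of_lt_of_le (Nat.mod_lt _ (by norm_num))
            (by calc 2 = 2 ^ 1 := rfl
                 _ ≤ 2 ^ n := Nat.pow_le_pow_right (by norm_num) h0)
          exact Nat.testBit_lt_two_pow this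
        rw [h1, Bool.and_eq_false_iff]
        by_cases h2 : n < q
        · right
          by_contra h3
          have := h n (by simpa using h3)
          exact absurd (Nat.le_of_dvd h0 this) (by omega)
        · left; simpa using h2
    rw [e]
    have := Nat.mod_lt s (show 2 > 0 by norm_num)
    omega
  · have h2 : s.testBit (n + q) = true := by
      rw [Nat.testBit_div_two_pow, Nat.add_comm] at hn
      rw [Nat.add_comm]; exact hn
    have := h _ h2
    exact (Nat.dvd_add_left (dvd_refl q)).1 this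

theorem mul_spr {q s m : ℕ} (hq : 0 < q) (h : Spr q s) (hm : m < 2 ^ q) (t u : ℕ) (hu : u < q) :
    (s * m).testBit (q * t + u) = (s.testBit (q * t) && m.testBit u) := by
  induction t generalizing s with
  | zero =>
    obtain ⟨b, s', hb, rfl, hs'⟩ := h.step hq
    have hbm : b * m < 2 ^ q := lt_of_le_of_lt (by
      calc b * m ≤ 1 * m := Nat.mul_le_mul_right _ hb
        _ = m := one_mul _) hm
    have e : (b + 2 ^ q * s') * m = b * m + 2 ^ q * (s' * m) := by ring
    rw [e, mul_zero, zero_add, tb_add hbm, if_pos hu, tb_add (lt_of_le_of_lt hb (Nat.one_lt_two_pow (by omega))),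
      if_pos hq]
    interval_cases b
    · simp
    · simp
  | succ t ih =>
    obtain ⟨b, s', hb, rfl, hs'⟩ := h.step hq
    have hbm : b * m < 2 ^ q := lt_of_le_of_lt (by
      calc b * m ≤ 1 * m := Nat.mul_le_mul_right _ hb
        _ = m := one_mul _) hm
    have e : (b + 2 ^ q * s') * m = b * m + 2 ^ q * (s' * m) := by ring
    have h1 : ¬ q * (t + 1) + u < q := by
      rw [Nat.mul_add]; omega
    have h2 : q * (t + 1) + u - q = q * t + u := by rw [Nat.mul_add]; omega
    have h3 : ¬ q * (t + 1) < q := by rw [Nat.mul_add]; omega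
    have h4 : q * (t + 1) - q = q * t := by rw [Nat.mul_add]; omega
    rw [e, tb_add hbm, if_neg h1, h2, ih hs', tb_add (lt_of_le_of_lt hb (Nat.one_lt_two_pow (by omega))),
      if_neg h3, h4]

/-- merge the rows `i` and `j` -/
def mr (K F R i j qi qj : ℕ) : ℕ :=
  Nat.lor R (Nat.mul (Nat.land (Nat.lor (Nat.shiftRight R i) (Nat.shiftRight R j)) K)
    (Nat.land (Nat.lor (Nat.shiftRight R qi) (Nat.shiftRight R qj)) F))

/-- contraction of `j` into `i` -/
def ctr (K F R i j qi qj : ℕ) : ℕ :=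
  Nat.lor (Nat.lor R (Nat.shiftLeft (Nat.land (Nat.shiftRight R qj) F) qi))
    (Nat.shiftLeft (Nat.land (Nat.shiftRight R j) K) i)

/-- a row -/
def row (F R qi : ℕ) : ℕ := Nat.land (Nat.shiftRight R qi) F

theorem row_bit {q R i t : ℕ} : (row (2 ^ q - 1) R (q * i)).testBit t = true ↔ rb q R i t := by
  unfold row rb
  show ((R >>> (q * i)) &&& (2 ^ q - 1)).testBit t = true ↔ _
  rw [Nat.testBit_and, Nat.testBit_two_pow_sub_one, Nat.testBit_shiftRight, Bool.and_eq_true,
    decide_eq_true_eq, and_comm]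

theorem row_lt {q R i : ℕ} : row (2 ^ q - 1) R i < 2 ^ q := by
  unfold row
  have : Nat.land (Nat.shiftRight R i) (2 ^ q - 1) ≤ 2 ^ q - 1 := Nat.and_le_right
  have := Nat.one_le_two_pow (n := q)
  omega

theorem mr_bit {q w R i j : ℕ} (hq : 0 < q) (hi : i < q) (hj : j < q) {s t : ℕ} :
    rb q (mr (Ks q w) (2 ^ q - 1) R i j (q * i) (q * j)) s t ↔
      rb q R s t ∨ ((s < w ∧ (rb q R s i ∨ rb q R s j)) ∧ (rb q R i t ∨ rb q R j t)) := by
  unfold rb
  constructor
  · rintro ⟨ht, h⟩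
    unfold mr at h
    have e : ∀ a b : ℕ, Nat.lor a b = a ||| b := fun _ _ => rfl
    have e2 : ∀ a b : ℕ, Nat.mul a b = a * b := fun _ _ => rfl
    have e3 : ∀ a b : ℕ, Nat.land a b = a &&& b := fun _ _ => rfl
    have e4 : ∀ a b : ℕ, Nat.shiftRight a b = a >>> b := fun _ _ => rfl
    rw [e, e2, e3, e3, e, e, e4, e4, e4, e4, Nat.testBit_or, mul_spr hq (Spr.land hq)
      (lt_of_le_of_lt Nat.and_le_right (Nat.sub_lt Nat.one_le_two_pow one_pos)) s t ht,
      Nat.testBit_and, Nat.testBit_and, Nat.testBit_or, Nat.testBit_or, Nat.testBit_shiftRight,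
      Nat.testBit_shiftRight, Nat.testBit_shiftRight, Nat.testBit_shiftRight,
      Nat.testBit_two_pow_sub_one] at h
    simp only [Bool.or_eq_true, Bool.and_eq_true, decide_eq_true_eq] at h
    rcases h with h | ⟨⟨h1, h2⟩, h3, -⟩
    · exact Or.inl ⟨ht, h⟩
    · right
      rw [Ks_bit hq] at h2
      obtain ⟨t', h4, h5⟩ := h2
      have h6 : s = t' := Nat.eq_of_mul_eq_mul_left hq h5
      subst h6
      refine ⟨⟨h4, ?_⟩, ?_⟩
      · rw [add_comm i, add_comm j] at h1
        rcases h1 with h1 | h1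
        · exact Or.inl ⟨hi, h1⟩
        · exact Or.inr ⟨hj, h1⟩
      · rcases h3 with h3 | h3
        · exact Or.inl ⟨ht, h3⟩
        · exact Or.inr ⟨ht, h3⟩
  · intro h
    have ht : t < q := by
      rcases h with h | ⟨_, h | h⟩
      · exact h.1
      · exact h.1
      · exact h.1
    refine ⟨ht, ?_⟩
    unfold mr
    have e : ∀ a b : ℕ, Nat.lor a b = a ||| b := fun _ _ => rfl
    have e2 : ∀ a b : ℕ, Nat.mul a b = a * b := fun _ _ => rfl
    have e3 : ∀ a b : ℕ, Nat.land a b = a &&& b := fun _ _ => rfl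
    have e4 : ∀ a b : ℕ, Nat.shiftRight a b = a >>> b := fun _ _ => rfl
    rw [e, e2, e3, e3, e, e, e4, e4, e4, e4, Nat.testBit_or, mul_spr hq (Spr.land hq)
      (lt_of_le_of_lt Nat.and_le_right (Nat.sub_lt Nat.one_le_two_pow one_pos)) s t ht,
      Nat.testBit_and, Nat.testBit_and, Nat.testBit_or, Nat.testBit_or, Nat.testBit_shiftRight,
      Nat.testBit_shiftRight, Nat.testBit_shiftRight, Nat.testBit_shiftRight,
      Nat.testBit_two_pow_sub_one]
    simp only [Bool.or_eq_true, Bool.and_eq_true, decide_eq_true_eq]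
    rcases h with h | ⟨⟨h1, h2⟩, h3⟩
    · exact Or.inl h.2
    · right
      refine ⟨⟨?_, (Ks_bit hq).2 ⟨s, h1, rfl⟩⟩, ?_, ht⟩
      · rw [add_comm i, add_comm j]
        exact h2.imp (fun h => h.2) (fun h => h.2)
      · exact h3.imp (fun h => h.2) (fun h => h.2)

/-- equivalence relations on `0, .., w - 1` -/
structure Eqv (q w R : ℕ) : Prop where
  lt : ∀ s t, rb q R s t → s < w ∧ t < w
  refl : ∀ s < w, rb q R s s
  symm : ∀ s t, rb q R s t → rb q R t s
  trans : ∀ s t u, rb q R s t → rb q R t u → rb q R s u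

theorem Eqv.mr {q w R i j : ℕ} (h : Eqv q w R) (hq : 0 < q) (hw : w ≤ q) (hi : i < w) (hj : j < w) :
    Eqv q w (mr (Ks q w) (2 ^ q - 1) R i j (q * i) (q * j)) ∧
      (∀ s t, rb q R s t → rb q (mr (Ks q w) (2 ^ q - 1) R i j (q * i) (q * j)) s t) ∧
      rb q (mr (Ks q w) (2 ^ q - 1) R i j (q * i) (q * j)) i j := by
  have key : ∀ s t, rb q (FC7.mr (Ks q w) (2 ^ q - 1) R i j (q * i) (q * j)) s t ↔
      rb q R s t ∨ ((rb q R s i ∨ rb q R s j) ∧ (rb q R t i ∨ rb q R t j)) := by
    intro s t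
    rw [mr_bit hq (by omega) (by omega)]
    constructor
    · rintro (h1 | ⟨⟨h1, h2⟩, h3⟩)
      · exact Or.inl h1
      · exact Or.inr ⟨h2, h3.imp (h.symm _ _) (h.symm _ _)⟩
    · rintro (h1 | ⟨h2, h3⟩)
      · exact Or.inl h1
      · refine Or.inr ⟨⟨?_, h2⟩, h3.imp (h.symm _ _) (h.symm _ _)⟩
        rcases h2 with h2 | h2
        · exact (h.lt _ _ h2).1
        · exact (h.lt _ _ h2).1
  have cong : ∀ s t, rb q R s t → (rb q R t i ∨ rb q R t j) → (rb q R s i ∨ rb q R s j) :=
    fun s t h1 h2 => h2.imp (h.trans _ _ _ h1) (h.trans _ _ _ h1)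
  refine ⟨⟨fun s t h1 => ?_, fun s hs => (key s s).2 (Or.inl (h.refl s hs)), fun s t h1 => ?_,
    fun s t u h1 h2 => ?_⟩, fun s t h1 => (key s t).2 (Or.inl h1), ?_⟩
  · rcases (key s t).1 h1 with h1 | ⟨h1, h2⟩
    · exact h.lt s t h1
    · refine ⟨?_, ?_⟩
      · rcases h1 with h1 | h1
        · exact (h.lt _ _ h1).1
        · exact (h.lt _ _ h1).1
      · rcases h2 with h2 | h2
        · exact (h.lt _ _ h2).1
        · exact (h.lt _ _ h2).1
  · rw [key] at h1 ⊢
    rcases h1 with h1 | ⟨h1, h2⟩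
    · exact Or.inl (h.symm _ _ h1)
    · exact Or.inr ⟨h2, h1⟩
  · rw [key] at h1 h2 ⊢
    rcases h1 with h1 | ⟨h1, h1'⟩
    · rcases h2 with h2 | ⟨h2, h2'⟩
      · exact Or.inl (h.trans _ _ _ h1 h2)
      · exact Or.inr ⟨cong _ _ h1 h2, h2'⟩
    · rcases h2 with h2 | ⟨h2, h2'⟩
      · exact Or.inr ⟨h1, cong _ _ (h.symm _ _ h2) h1'⟩
      · exact Or.inr ⟨h1, h2'⟩
  · rw [key]
    exact Or.inr ⟨Or.inl (h.refl i hi), Or.inr (h.refl j hj)⟩

/-- the relation is contained in `T` -/
def Sub (q R : ℕ) (T : ℕ → ℕ → Prop) : Prop := ∀ s t, rb q R s t → T s t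

theorem Sub.mr {q w R i j : ℕ} {T : ℕ → ℕ → Prop} (hT : Equivalence T) (h : Sub q R T) (hq : 0 < q)
    (hi : i < q) (hj : j < q) (hij : T i j) :
    Sub q (mr (Ks q w) (2 ^ q - 1) R i j (q * i) (q * j)) T := by
  intro s t h1
  rw [mr_bit hq hi hj] at h1
  rcases h1 with h1 | ⟨⟨-, h1⟩, h2⟩
  · exact h s t h1
  · have a : T s i := by
      rcases h1 with h1 | h1
      · exact h _ _ h1
      · exact hT.trans (h _ _ h1) (hT.symm hij)
    have b : T i t := by
      rcases h2 with h2 | h2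
      · exact h _ _ h2
      · exact hT.trans hij (h _ _ h2)
    exact hT.trans a b

theorem Is_bit {q w : ℕ} (hw : w ≤ q) {s t : ℕ} : rb q (Is q w) s t ↔ s = t ∧ s < w := by
  induction w with
  | zero => simp [rb, Is]
  | succ w ih =>
    have ih := ih (by omega)
    unfold rb at ih ⊢
    unfold Is
    rw [Nat.testBit_or, Bool.or_eq_true, Nat.testBit_two_pow]
    constructor
    · rintro ⟨h1, h2 | h2⟩
      · have := ih.1 ⟨h1, h2⟩
        exact ⟨this.1, by omega⟩
      · rw [decide_eq_true_eq] at h2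
        have h3 : s = w := by
          rcases lt_trichotomy s w with h4 | h4 | h4
          · have : q * (s + 1) ≤ q * w := Nat.mul_le_mul_left _ h4
            rw [Nat.mul_add] at this; omega
          · exact h4
          · have : q * (w + 1) ≤ q * s := Nat.mul_le_mul_left _ h4
            rw [Nat.mul_add] at this; omega
        subst h3
        exact ⟨by omega, by omega⟩
    · rintro ⟨h1, h2⟩
      subst h1
      by_cases h3 : s < w
      · have := ih.2 ⟨rfl, h3⟩
        exact ⟨this.1, Or.inl this.2⟩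
      · have : s = w := by omega
        subst this
        exact ⟨by omega, Or.inr (by simp)⟩

theorem Is_eqv {q w : ℕ} (hw : w ≤ q) : Eqv q w (Is q w) where
  lt s t h := by
    rw [Is_bit hw] at h
    obtain ⟨rfl, h⟩ := h
    exact ⟨h, h⟩
  refl s hs := (Is_bit hw).2 ⟨rfl, hs⟩
  symm s t h := by
    rw [Is_bit hw] at h ⊢
    obtain ⟨rfl, h⟩ := h
    exact ⟨rfl, h⟩
  trans s t u h1 h2 := by
    rw [Is_bit hw] at h1 h2 ⊢
    obtain ⟨rfl, h1⟩ := h1
    obtain ⟨rfl, h2⟩ := h2
    exact ⟨rfl, h1⟩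

/-- bits of the contraction -/
theorem ctr_bit {q w R i j : ℕ} (hq : 0 < q) (hi : i < q) (hj : j < q) {s t : ℕ}
    (h : rb q (ctr (Ks q w) (2 ^ q - 1) R i j (q * i) (q * j)) s t) :
    rb q R s t ∨ (s = i ∧ rb q R j t) ∨ (t = i ∧ rb q R s j) := by
  unfold rb at h
  obtain ⟨ht, h⟩ := h
  unfold ctr at h
  have e : ∀ a b : ℕ, Nat.lor a b = a ||| b := fun _ _ => rfl
  have e3 : ∀ a b : ℕ, Nat.land a b = a &&& b := fun _ _ => rfl
  have e4 : ∀ a b : ℕ, Nat.shiftRight a b = a >>> b := fun _ _ => rfl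
  have e5 : ∀ a b : ℕ, Nat.shiftLeft a b = a <<< b := fun _ _ => rfl
  rw [e, e, e5, e5, e3, e3, e4, e4, Nat.testBit_or, Nat.testBit_or, Nat.testBit_shiftLeft,
    Nat.testBit_shiftLeft, Nat.testBit_and, Nat.testBit_and, Nat.testBit_shiftRight,
    Nat.testBit_shiftRight, Nat.testBit_two_pow_sub_one] at h
  simp only [Bool.or_eq_true, Bool.and_eq_true, decide_eq_true_eq, ge_iff_le] at h
  rcases h with (h | ⟨h1, h2, h3⟩) | ⟨h1, h2, h3⟩
  · exact Or.inl ⟨ht, h⟩
  · right; left
    have h4 : s = i := by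
      rcases lt_trichotomy s i with h4 | h4 | h4
      · have : q * (s + 1) ≤ q * i := Nat.mul_le_mul_left _ h4
        rw [Nat.mul_add] at this; omega
      · exact h4
      · have : q * (i + 1) ≤ q * s := Nat.mul_le_mul_left _ h4
        rw [Nat.mul_add] at this; omega
    subst h4
    refine ⟨rfl, ht, ?_⟩
    have : q * s + t - q * s = t := by omega
    rw [this] at h2
    exact h2
  · right; right
    rw [Ks_bit hq] at h3
    obtain ⟨t', -, h4⟩ := h3
    have h5 : t' = s := by
      rcases lt_trichotomy s t' with h6 | h6 | h6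
      · have : q * (s + 1) ≤ q * t' := Nat.mul_le_mul_left _ h6
        rw [Nat.mul_add] at this; omega
      · exact h6.symm
      · have : q * (t' + 1) ≤ q * s := Nat.mul_le_mul_left _ h6
        rw [Nat.mul_add] at this; omega
    subst h5
    have h6 : t = i := by omega
    subst h6
    refine ⟨rfl, hj, ?_⟩
    have : q * t' + t - t = q * t' := by omega
    rw [this, add_comm] at h2
    exact h2

/-! ### Nonzero fields -/

/-- `2 ^ (q - 1) - 1` in every field -/
def Fs (q : ℕ) : ℕ → ℕ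
  | 0 => 0
  | w + 1 => (2 ^ (q - 1) - 1) + 2 ^ q * Fs q w

/-- a table of masks -/
def Tb (q : ℕ) : List ℕ → ℕ
  | [] => 0
  | m :: l => m + 2 ^ q * Tb q l

theorem Tb_bit {q : ℕ} : ∀ (l : List ℕ), (∀ m ∈ l, m < 2 ^ q) → ∀ y u, u < q →
    (Tb q l).testBit (q * y + u) = (l.getD y 0).testBit u
  | [], _, y, u, _ => by simp [Tb]
  | m :: l, hl, y, u, hu => by
    unfold Tb
    rw [tb_add (hl m (by simp))]
    rcases y with _ | y
    · simp [hu]
    · have h1 : ¬ q * (y + 1) + u < q := by rw [Nat.mul_add]; omega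
      have h2 : q * (y + 1) + u - q = q * y + u := by rw [Nat.mul_add]; omega
      rw [if_neg h1, h2, Tb_bit l (fun m hm => hl m (List.mem_cons_of_mem _ hm)) y u hu]
      simp

/-- the fields of `T` which meet `V` -/
def nz (O FK T V : ℕ) : ℕ := Nat.add (Nat.land T (Nat.mul V O)) FK

theorem Tb_land {q n V : ℕ} (hq : 0 < q) (hV : V < 2 ^ q) (l : List ℕ) (hl : ∀ m ∈ l, m < 2 ^ q)
    (hn : l.length ≤ n) : Tb q l &&& (V * Ks q n) = Tb q (l.map fun m => m &&& V) := by
  have hl' : ∀ m ∈ l.map (fun m => m &&& V), m < 2 ^ q := by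
    intro m hm
    obtain ⟨z, hz, rfl⟩ := List.mem_map.1 hm
    exact lt_of_le_of_lt Nat.and_le_left (hl z hz)
  apply Nat.eq_of_testBit_eq
  intro i
  obtain ⟨y, u, hu, rfl⟩ : ∃ y u, u < q ∧ i = q * y + u :=
    ⟨i / q, i % q, Nat.mod_lt _ hq, (Nat.div_add_mod _ _).symm⟩
  have hs : Spr q (Ks q n) := fun n h => by
    rw [Ks_bit hq] at h
    obtain ⟨t, _, rfl⟩ := h
    exact Dvd.intro _ rfl
  rw [Nat.testBit_and, Tb_bit l hl y u hu, Tb_bit _ hl' y u hu, Nat.mul_comm V, mul_spr hq hs hV y u hu]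
  by_cases hy : y < l.length
  · have h1 : (Ks q n).testBit (q * y) = true := (Ks_bit hq).2 ⟨y, by omega, rfl⟩
    rw [h1, Bool.true_and, List.getD_eq_getElem _ _ hy, List.getD_eq_getElem _ _ (by simpa using hy),
      List.getElem_map, Nat.testBit_and]
  · rw [List.getD_eq_default _ _ (by omega), List.getD_eq_default _ _ (by simpa using hy)]
    simp

theorem Fs_bit {q : ℕ} (hq : 0 < q) : ∀ (l : List ℕ) (n : ℕ), (∀ m ∈ l, m < 2 ^ (q - 1)) →
    ∀ y < l.length, l.length ≤ n →
    ((Tb q l + Fs q n).testBit (q * y + (q - 1)) = true ↔ l.getD y 0 ≠ 0)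
  | [], _, _, y, hy, _ => by simp at hy
  | m :: l, 0, _, y, _, hn => by simp at hn
  | m :: l, n + 1, hl, y, hy, hn => by
    have e : Tb q (m :: l) + Fs q (n + 1) = (m + (2 ^ (q - 1) - 1)) + 2 ^ q * (Tb q l + Fs q n) := by
      show m + 2 ^ q * Tb q l + (2 ^ (q - 1) - 1 + 2 ^ q * Fs q n) = _
      ring
    have hm : m < 2 ^ (q - 1) := hl m (by simp)
    have hp : 2 ^ q = 2 * 2 ^ (q - 1) := by
      rw [← pow_succ']
      congr 1; omega
    have h1 : 1 ≤ 2 ^ (q - 1) := Nat.one_le_two_pow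
    have hlt : m + (2 ^ (q - 1) - 1) < 2 ^ q := by omega
    rw [e, tb_add hlt]
    rcases y with _ | y
    · have h2 : q * 0 + (q - 1) < q := by omega
      rw [if_pos h2, mul_zero, zero_add]
      have h3 : (m + (2 ^ (q - 1) - 1)).testBit (q - 1) = decide (2 ^ (q - 1) ≤ m + (2 ^ (q - 1) - 1)) := by
        rw [Nat.testBit_eq_decide_div_mod_eq, decide_eq_decide]
        constructor
        · intro h
          by_contra hc
          rw [Nat.div_eq_of_lt (by omega)] at h
          simp at h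
        · intro h
          have : (m + (2 ^ (q - 1) - 1)) / 2 ^ (q - 1) = 1 := by
            apply Nat.div_eq_of_lt_le
            · omega
            · omega
          rw [this]
      rw [h3, decide_eq_true_eq]
      simp only [List.getD_cons_zero]
      omega
    · have h2 : ¬ q * (y + 1) + (q - 1) < q := by rw [Nat.mul_add]; omega
      have h4 : q * (y + 1) + (q - 1) - q = q * y + (q - 1) := by rw [Nat.mul_add]; omega
      rw [if_neg h2, h4]
      rw [Fs_bit hq l n (fun m hm => hl m (List.mem_cons_of_mem _ hm)) y (by simpa using hy)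
        (by simpa using hn)]
      simp

/-- the bit `q y + q - 1` of `nz`: the mask number `y` of the list meets `V` -/
theorem nz_bit {q n V : ℕ} (hq : 0 < q) (hV : V < 2 ^ q) {l : List ℕ} (hl : ∀ m ∈ l, m < 2 ^ (q - 1))
    (hn : l.length ≤ n) {y : ℕ} (hy : y < l.length) :
    (nz (Ks q n) (Fs q n) (Tb q l) V).testBit (q * y + (q - 1)) = true ↔ l.getD y 0 &&& V ≠ 0 := by
  have hp : 2 ^ (q - 1) ≤ 2 ^ q := Nat.pow_le_pow_right (by norm_num) (by omega)
  unfold nz
  show ((Tb q l &&& (V * Ks q n)) + Fs q n).testBit _ = true ↔ _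
  rw [Tb_land hq hV l (fun m hm => lt_of_lt_of_le (hl m hm) hp) hn, Fs_bit hq _ n ?_ y (by simpa using hy)
    (by simpa using hn)]
  · rw [List.getD_eq_getElem _ _ (by simpa using hy), List.getElem_map,
      List.getD_eq_getElem _ _ hy]
  · intro m hm
    obtain ⟨z, hz, rfl⟩ := List.mem_map.1 hm
    exact lt_of_le_of_lt Nat.and_le_left (hl z hz)

end Pool.FC7
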