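import Pool.Agent.FC7.ExM

/-! # Soundness of the extension check: relational versions -/

open Finset

set_option linter.unusedSectionVars false

namespace Pool.FC7

open Pool.FC6

variable {D V : Type} [Fintype D] [DecidableEq V]
variable {S S' : St D V} {P P' : Pa} {f : ℕ → D} {g : ℕ → V} {X : XE} {c' : V → Bool} {c0 : ℕ}

/-- the set `M` of cells of `P'` is closed -/
def Clo (P P' : Pa) (X : XE) (c0 : ℕ) (M : ℕ → Prop) : Prop :=
  ∀ i < P.n, P.α i ≠ i → P'.real i = true → P'.op c0 i = true →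
    (M (X.ce' i) ↔ M (X.ce' (P.α i)))

/-- if no outside pair leaves the closed set `M` then `M` is the support of a test function -/
theorem test_of_no_pairN (C : Cx S S' P P' f g X c' c0) {M : ℕ → Prop} (hM : Clo P P' X c0 M)
    (hno : ∀ i ∈ X.rs, P'.op c0 i = true → M (X.ce' i) → ∀ j ∈ X.rs,
      P'.op c0 j = true → ¬ M (X.ce' j) → ¬ ORel S P f c' (f i) (f j)) :
    ∃ χ : D → ℝ, S'.Test c' χ ∧ (∀ i < P.n, M (X.ce' i) → χ (f i) = 1) ∧
      (∀ i < P.n, ¬ M (X.ce' i) → χ (f i) = 0) ∧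
      ∀ d, OU P f d → χ d ≠ 0 → ∃ j ∈ X.rs, P'.op c0 j = true ∧ M (X.ce' j) ∧
        ORel S P f c' d (f j) := by
  classical
  have pe := C.pe
  have hn := C.h.hn
  have hα' : ∀ i < P.n, P'.α i = P.α i := C.h.hα
  have np : ∀ i ∈ X.rs, ∀ j ∈ X.rs, P'.op c0 i = true → P'.op c0 j = true →
      ORel S P f c' (f i) (f j) → (M (X.ce' i) ↔ M (X.ce' j)) := by
    intro i hi j hj oi oj hij
    by_cases h1 : M (X.ce' i) <;> by_cases h2 : M (X.ce' j)
    · exact ⟨fun _ => h2, fun _ => h1⟩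
    · exact absurd hij (hno i hi oi h1 j hj oj h2)
    · exact absurd (hij.symm pe) (hno j hj oj h2 i hi oi h1)
    · exact ⟨fun h => absurd h h1, fun h => absurd h h2⟩
  let T : D → Prop := fun d => (∃ i, i < P.n ∧ f i = d ∧ M (X.ce' i)) ∨
    (OU P f d ∧ ∃ j ∈ X.rs, P'.op c0 j = true ∧ M (X.ce' j) ∧ ORel S P f c' d (f j))
  have Tf : ∀ i < P.n, (T (f i) ↔ M (X.ce' i)) := by
    intro i hi
    constructor
    · rintro (⟨j, hj, hj', h1⟩ | ⟨h1, _⟩)
      · have := pe.e.inj j hj i hi hj'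
        rwa [← this]
      · exact absurd rfl (h1 i hi)
    · intro h1
      exact Or.inl ⟨i, hi, rfl, h1⟩
  have To : ∀ d, OU P f d → (T d ↔ ∃ j ∈ X.rs, P'.op c0 j = true ∧ M (X.ce' j) ∧
      ORel S P f c' d (f j)) := by
    intro d hd
    constructor
    · rintro (⟨j, hj, hj', h1⟩ | ⟨_, h1⟩)
      · exact absurd hj' (hd j hj)
      · exact h1
    · intro h1
      exact Or.inr ⟨hd, h1⟩
  have TU : ∀ d, OR P f d → S'.Op c' d → (T d ↔ ∃ j ∈ X.rs, P'.op c0 j = true ∧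
      M (X.ce' j) ∧ ORel S P f c' d (f j)) := by
    intro d hd ho
    by_cases hO : OU P f d
    · exact To d hO
    · obtain ⟨i, hi, rfl⟩ := C.exi hO
      have hα : P.α i = i := by
        by_contra hcon
        exact hd i hi hcon rfl
      have hrs := (C.st.ring i hi hα).1
      have oi := (C.op' hi).1 ho
      rw [Tf i hi]
      constructor
      · intro h1
        exact ⟨i, hrs, oi, h1, ORel.refl _⟩
      · rintro ⟨j, hj, oj, h1, h2⟩
        exact (np i hrs j hj oi oj h2).2 h1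
  refine ⟨fun d => if T d then 1 else 0, ⟨fun d => ?_, fun d ho => ?_⟩, fun i hi h => ?_,
    fun i hi h => ?_, fun d hd h => ?_⟩
  · have : T (S'.M.φ d) ↔ T d := by
      by_cases hO : OU P f d
      · have h1 := pe.ouφ hO
        rw [C.h.φo d hO, To _ h1, To _ hO]
        constructor
        · rintro ⟨j, hj, oj, h2, h3⟩
          exact ⟨j, hj, oj, h2, ((ORel.refl d).φ hO).trans h3⟩
        · rintro ⟨j, hj, oj, h2, h3⟩
          exact ⟨j, hj, oj, h2, (((ORel.refl d).φ hO).symm pe).trans h3⟩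
      · obtain ⟨i, hi, rfl⟩ := C.exi hO
        have hi' : i < P'.n := by rw [hn]; exact hi
        have h1 := C.h.G'.φlt i hi'
        rw [hn] at h1
        rw [C.h.e'.hφ i hi', Tf _ h1, Tf i hi, C.st.ce' i hi]
    simp only [this]
  · have : T (S'.M.α d) ↔ T d := by
      rw [C.h.αo d]
      by_cases hd : OR P f d
      · have h1 := pe.orα hd
        have ho2 : S'.Op c' (S.M.α d) := C.opα' ho
        have ho3 : S.Op c' d := (C.opO ag_refl hd).2 ho
        rw [TU d hd ho, TU _ h1 ho2]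
        have hs : ORel S P f c' d (S.M.α d) := (ORel.refl d).α hd ho3
        constructor
        · rintro ⟨j, hj, oj, h2, h3⟩
          exact ⟨j, hj, oj, h2, hs.trans h3⟩
        · rintro ⟨j, hj, oj, h2, h3⟩
          exact ⟨j, hj, oj, h2, (hs.symm pe).trans h3⟩
      · have : ∃ i, i < P.n ∧ P.α i ≠ i ∧ f i = d := by
          by_contra hcon
          apply hd
          intro i hi hne he
          exact hcon ⟨i, hi, hne, he⟩
        obtain ⟨i, hi, hne, rfl⟩ := this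
        have hi' : i < P'.n := by rw [hn]; exact hi
        have oi := (C.op' hi).1 ho
        rw [pe.e.hα i hi hne, Tf _ (pe.G.αlt i hi), Tf i hi]
        by_cases hr : P'.real i = true
        · exact (hM i hi hne hr oi).symm
        · rw [C.st.cv' i hi (by simpa using hr)]
    simp only [this]
  · exact if_pos ((Tf i hi).2 h)
  · refine if_neg fun h1 => ?_
    rw [Tf i hi] at h1
    exact h h1
  · refine (To d hd).1 ?_
    by_contra hc
    exact h (if_neg hc)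

/-- pairs of ring darts and pairs of arcs -/
theorem Cx.no_ringN (C : Cx S S' P P' f g X c' c0) {M : ℕ → Prop}
    (hno : ∀ i ∈ X.as, P'.op c0 i = true → M (X.ce' i) → ∀ j ∈ X.as,
      P'.op c0 j = true → ¬ M (X.ce' j) → ¬ Rr S P f X c' i j) :
    ∀ i ∈ X.rs, P'.op c0 i = true → M (X.ce' i) → ∀ j ∈ X.rs,
      P'.op c0 j = true → ¬ M (X.ce' j) → ¬ ORel S P f c' (f i) (f j) := by
  have key : ∀ i ∈ X.rs, P'.op c0 i = true → ∃ j ∈ X.as, P'.op c0 j = true ∧
      X.ce' j = X.ce' i ∧ Rr S P f X c' j i := by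
    intro i hi ho
    obtain ⟨p, p1, p2, p3, p4, p5⟩ := C.st.rep hi
    have hp : Rr S P f X c' p.1 i := by
      rcases p2 with rfl | rfl
      · exact C.rr_equiv.refl _
      · exact C.rr_arc p1
    refine ⟨p.1, List.mem_map.2 ⟨p, p1, rfl⟩, ?_, p4, hp⟩
    rcases p5 with p5 | ⟨p5, p6⟩
    · rw [← p5]; exact ho
    · obtain ⟨k1, k2⟩ := C.st.rs _ (C.st.arm p1).1
      unfold Pa.op
      rw [(C.st.ring _ k1 k2).2.1, p5]
      rfl
  intro i hi oi bi j hj oj bj hij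
  obtain ⟨a, a1, a2, a3, a4⟩ := key i hi oi
  obtain ⟨b, b1, b2, b3, b4⟩ := key j hj oj
  refine hno a a1 a2 (by rw [a3]; exact bi) b b1 b2 (by rw [b3]; exact bj) ?_
  exact C.rr_equiv.trans a4 (C.rr_equiv.trans (C.rr_or hij) (C.rr_equiv.symm b4))

/-- an open ring dart has the representative of its arc -/
theorem Cx.repa (C : Cx S S' P P' f g X c' c0) {j : ℕ} (hj : j ∈ X.rs) (oj : P'.op c0 j = true) :
    ∃ p ∈ X.as, P'.op c0 p = true ∧ X.ce' p = X.ce' j ∧ Rr S P f X c' p j := by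
  obtain ⟨p, p1, p2, p3, p4, p5⟩ := C.st.rep hj
  have hp : Rr S P f X c' p.1 j := by
    rcases p2 with rfl | rfl
    · exact C.rr_equiv.refl _
    · exact C.rr_arc p1
  refine ⟨p.1, List.mem_map.2 ⟨p, p1, rfl⟩, ?_, p4, hp⟩
  rcases p5 with p5 | ⟨p5, p6⟩
  · rw [← p5]; exact oj
  · obtain ⟨k1, k2⟩ := C.st.rs _ (C.st.arm p1).1
    unfold Pa.op
    rw [(C.st.ring _ k1 k2).2.1, p5]
    rfl

/-- a visited closed set without marked cell is left by an outside pair -/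
theorem exists_pair1N (C : Cx S S' P P' f g X c' c0)
    {M : ℕ → Prop} (hM : Clo P P' X c0 M)
    (hb1 : ∀ i < P.n, br P' c0 i = true → ¬ M (X.ce' i))
    (hb2 : ∀ j ∈ X.as, P'.op c0 j = true → ActR S P f X c' j → ¬ M (X.ce' j))
    {i0 : ℕ} (hi0 : i0 < P.n) (hb : M (X.ce' i0)) (hv : Vi S' c' (f i0)) :
    ∃ i ∈ X.as, P'.op c0 i = true ∧ M (X.ce' i) ∧
      ∃ j ∈ X.as, P'.op c0 j = true ∧ ¬ M (X.ce' j) ∧ Rr S P f X c' i j := by
  by_contra hno
  push Not at hno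
  obtain ⟨χ, t1, t2, t3, t4⟩ := test_of_no_pairN C hM (C.no_ringN hno)
  obtain ⟨e, e1, e2⟩ := hv
  have e3 := e2 χ t1
  rw [t2 i0 hi0 hb] at e3
  by_cases hO : OU P f e
  · obtain ⟨j, j1, j2, j3, j4⟩ := t4 e hO (by rw [e3]; exact one_ne_zero)
    have ha : ActR S P f X c' j :=
      ⟨j, C.rr_equiv.refl _, e, j4.symm C.pe, hO.or, (C.brO ag_refl hO.or).2 e1⟩
    obtain ⟨p, p1, p2, p3, p4⟩ := C.repa j1 j2
    exact hb2 p p1 p2 ((C.actR_iff p4).2 ha) (by rw [p3]; exact j3)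
  · obtain ⟨i, hi, rfl⟩ := C.exi hO
    have h5 : M (X.ce' i) := by
      by_contra hc
      rw [t3 i hi hc] at e3
      exact zero_ne_one e3
    exact hb1 i hi ((C.br' hi).1 e1) h5

/-- visited cells inside and outside of a closed set are joined outside -/
theorem exists_pair2N (C : Cx S S' P P' f g X c' c0) {M : ℕ → Prop} (hM : Clo P P' X c0 M)
    {i0 i1 : ℕ} (i01 : i0 < P.n) (h0 : M (X.ce' i0)) (i03 : Vi S' c' (f i0)) (i11 : i1 < P.n)
    (h1 : ¬ M (X.ce' i1)) (i13 : Vi S' c' (f i1)) :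
    ∃ i ∈ X.as, P'.op c0 i = true ∧ M (X.ce' i) ∧
      ∃ j ∈ X.as, P'.op c0 j = true ∧ ¬ M (X.ce' j) ∧ Rr S P f X c' i j := by
  by_contra hno
  push Not at hno
  obtain ⟨χ, t1, t2, t3, t4⟩ := test_of_no_pairN C hM (C.no_ringN hno)
  obtain ⟨e0, e01, e02⟩ := i03
  obtain ⟨e1, e11, e12⟩ := i13
  have h := C.con' χ t1 e0 e1 e01 e11
  rw [e02 χ t1, e12 χ t1, t2 i0 i01 h0, t3 i1 i11 h1] at h
  exact one_ne_zero h

/-- the conditions at a leaf: `E` = relation of the cells of `P'`, `V'` = visited cells of `P'`,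
`U` = visited cells of `P`, `co j` = cells of `P` which are joined to the arc `j` -/
structure LC (S S' : St D V) (P P' : Pa) (f : ℕ → D) (X : XE) (c' : V → Bool) (c0 : ℕ)
    (c : V → Bool) (m : ℕ) (ex : List ℕ) (E : ℕ → ℕ → Prop) (V' U : ℕ → Prop)
    (co : ℕ → ℕ → Prop) : Prop where
  eE : Equivalence E
  eo : ∀ i < P.n, P.α i ≠ i → P'.real i = true → P'.op c0 i = true →
    E (X.ce' i) (X.ce' (P.α i))
  m1 : ∀ s t, E s t → V' s → V' t
  m2 : ∀ i < P.n, br P' c0 i = true → V' (X.ce' i)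
  m3 : (∃ i < P.n, U (X.ce i)) → ∃ i < P.n, V' (X.ce' i) ∧ Vi S' c' (f i)
  t1 : ∀ j ∈ X.as, P'.op c0 j = true → V' (X.ce' j) → U (X.ce j)
  t1' : ∀ i < P.n, V' (X.ce' i) → X.x ≤ P'.l i → P'.l i < X.x + X.k →
    ∃ b, U b ∧ (X.st (P'.l i)).testBit b = true
  t2 : ∀ j ∈ X.as, P'.op c0 j = true → ¬ V' (X.ce' j) → ∀ i ∈ X.as, P'.op c0 i = true →
    E (X.ce' i) (X.ce' j) → U (X.ce i) ∨ co j (X.ce i)
  t2' : ∀ j ∈ X.as, P'.op c0 j = true → ¬ V' (X.ce' j) → ∀ i < P.n, E (X.ce' i) (X.ce' j) →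
    X.x ≤ P'.l i → P'.l i < X.x + X.k → ∃ b, (U b ∨ co j b) ∧ (X.st (P'.l i)).testBit b = true
  c1 : ∀ j ∈ X.as, ∀ i < P.n, co j (X.ce i) → ∀ t, S.Test c t → t (f j) = t (f i)
  u1 : ∀ i < P.n, U (X.ce i) → Vi S c (f i)
  u2 : ∀ t, S.Test c t → ∃ lam : ℝ, ∀ i < P.n, U (X.ce i) → t (f i) = lam
  u3 : ∀ i < P.n, br P m i = true → U (X.ce i)
  d : ∀ z ∈ X.dj ++ ex, ∃ i < P.n, z.testBit (X.ce i) = true ∧ U (X.ce i)
  kn : ∀ i ∈ X.kd, i < P.n
  k1 : ∀ i ∈ X.kd, V' (X.ce' i) → U (X.ce i)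
  k2 : ∀ j ∈ X.as, P'.op c0 j = true → ¬ V' (X.ce' j) → ∀ i ∈ X.kd,
    E (X.ce' i) (X.ce' j) → U (X.ce i) ∨ co j (X.ce i)

/-- the conditions at a leaf; only visited arcs are tested: `E` = relation of the cells of `P'`, `V'` = visited cells of `P'`,
`U` = visited cells of `P`, `co j` = cells of `P` which are joined to the arc `j` -/
structure LCV (S S' : St D V) (P P' : Pa) (f : ℕ → D) (X : XE) (c' : V → Bool) (c0 : ℕ)
    (c : V → Bool) (m : ℕ) (ex : List ℕ) (E : ℕ → ℕ → Prop) (V' U : ℕ → Prop)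
    (co : ℕ → ℕ → Prop) : Prop where
  eE : Equivalence E
  eo : ∀ i < P.n, P.α i ≠ i → P'.real i = true → P'.op c0 i = true →
    E (X.ce' i) (X.ce' (P.α i))
  m1 : ∀ s t, E s t → V' s → V' t
  m2 : ∀ i < P.n, br P' c0 i = true → V' (X.ce' i)
  m3 : (∃ i < P.n, U (X.ce i)) → ∃ i < P.n, V' (X.ce' i) ∧ Vi S' c' (f i)
  t1 : ∀ j ∈ X.as, P'.op c0 j = true → V' (X.ce' j) → U (X.ce j)
  t1' : ∀ i < P.n, V' (X.ce' i) → X.x ≤ P'.l i → P'.l i < X.x + X.k →
    ∃ b, U b ∧ (X.st (P'.l i)).testBit b = true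
  t2 : ∀ j ∈ X.as, P'.op c0 j = true → ¬ V' (X.ce' j) → Vi S' c' (f j) → ∀ i ∈ X.as, P'.op c0 i = true →
    E (X.ce' i) (X.ce' j) → U (X.ce i) ∨ co j (X.ce i)
  t2' : ∀ j ∈ X.as, P'.op c0 j = true → ¬ V' (X.ce' j) → Vi S' c' (f j) → ∀ i < P.n, E (X.ce' i) (X.ce' j) →
    X.x ≤ P'.l i → P'.l i < X.x + X.k → ∃ b, (U b ∨ co j b) ∧ (X.st (P'.l i)).testBit b = true
  c1 : ∀ j ∈ X.as, ∀ i < P.n, co j (X.ce i) → ∀ t, S.Test c t → t (f j) = t (f i)
  u1 : ∀ i < P.n, U (X.ce i) → Vi S c (f i)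
  u2 : ∀ t, S.Test c t → ∃ lam : ℝ, ∀ i < P.n, U (X.ce i) → t (f i) = lam
  u3 : ∀ i < P.n, br P m i = true → U (X.ce i)
  d : ∀ z ∈ X.dj ++ ex, ∃ i < P.n, z.testBit (X.ce i) = true ∧ U (X.ce i)
  kn : ∀ i ∈ X.kd, i < P.n
  k1 : ∀ i ∈ X.kd, V' (X.ce' i) → U (X.ce i)
  k2 : ∀ j ∈ X.as, P'.op c0 j = true → ¬ V' (X.ce' j) → Vi S' c' (f j) → ∀ i ∈ X.kd,
    E (X.ce' i) (X.ce' j) → U (X.ce i) ∨ co j (X.ce i)

theorem LC.toV {c : V → Bool} {m : ℕ} {ex : List ℕ} {E : ℕ → ℕ → Prop} {V' U : ℕ → Prop}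
    {co : ℕ → ℕ → Prop} (H : LC S S' P P' f X c' c0 c m ex E V' U co) :
    LCV S S' P P' f X c' c0 c m ex E V' U co where
  eE := H.eE
  eo := H.eo
  m1 := H.m1
  m2 := H.m2
  m3 := H.m3
  t1 := H.t1
  t1' := H.t1'
  t2 := fun j hj ho hv _ => H.t2 j hj ho hv
  t2' := fun j hj ho hv _ => H.t2' j hj ho hv
  c1 := H.c1
  u1 := H.u1
  u2 := H.u2
  u3 := H.u3
  d := H.d
  kn := H.kn
  k1 := H.k1
  k2 := fun j hj ho hv _ => H.k2 j hj ho hv

/-- the dart is outside of the patch or a virtual ring dart -/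
def OV (P : Pa) (f : ℕ → D) (d : D) : Prop :=
  OU P f d ∨ ∃ j < P.n, P.α j = j ∧ P.real j = false ∧ f j = d

theorem leaf_coreV (C : Cx S S' P P' f g X c' c0) {c : V → Bool} (hag : Ag g X c' c) {m : ℕ}
    (hbr : ∀ i < P.n, (Br S c (f i) ↔ br P m i = true)) {ex : List ℕ} {E : ℕ → ℕ → Prop}
    {V' U : ℕ → Prop} {co : ℕ → ℕ → Prop} (H : LCV S S' P P' f X c' c0 c m ex E V' U co) :
    (∀ t, S.Test c t → ∀ d d', Br S c d → Br S c d' → t d = t d') ∧
      (∀ d, OV P f d → Vi S' c' d → Vi S c d) ∧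
      (∀ i < P.n, Vi S' c' (f i) → X.x ≤ P'.l i → P'.l i < X.x + X.k →
        ∃ d, S.M.v d = g (P'.l i) ∧ Vi S c d) ∧
      (∀ i ∈ X.kd, Vi S' c' (f i) → Vi S c (f i)) ∧
      ∀ z ∈ X.dj ++ ex, ∃ i < P.n, z.testBit (X.ce i) = true ∧ Vi S c (f i) := by
  classical
  have hn := C.h.hn
  have innK : ∀ i < P.n, P.α i ≠ i → P'.op c0 i = true → E (X.ce' i) (X.ce' (P.α i)) := by
    intro i hi hne ho
    by_cases hr : P'.real i = true
    swap
    · rw [C.st.cv' i hi (by simpa using hr)]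
      exact H.eE.refl _
    exact H.eo i hi hne hr ho
  -- representatives
  have rep : ∀ i ∈ X.rs, P'.op c0 i = true → ∃ p ∈ X.as, p < P.n ∧ P'.op c0 p = true ∧
      X.ce p = X.ce i ∧ X.ce' p = X.ce' i := by
    intro i hi ho
    obtain ⟨p, p1, p2, p3, p4, p5⟩ := C.st.rep hi
    obtain ⟨k1, k2⟩ := C.st.rs _ (C.st.arm p1).1
    refine ⟨p.1, List.mem_map.2 ⟨p, p1, rfl⟩, k1, ?_, p3, p4⟩
    rcases p5 with p5 | ⟨p5, p6⟩
    · rw [← p5]; exact ho
    · unfold Pa.op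
      rw [(C.st.ring _ k1 k2).2.1, p5]
      rfl
  have vice : ∀ i < P.n, ∀ j < P.n, X.ce i = X.ce j → Vi S c (f i) → Vi S c (f j) :=
    fun i hi j hj he hv => hv.eq fun t ht => C.cellP ht hi hj he
  have v3 : ∀ i < P.n, ∀ j ∈ X.as, Vi S c (f j) → (U (X.ce i) ∨ co j (X.ce i)) →
      Vi S c (f i) := by
    intro i hi j hj hv hb
    rcases hb with hb | hb
    · exact H.u1 i hi hb
    · exact hv.eq (H.c1 j hj i hi hb)
  -- good patch darts of `S'`
  let good : ℕ → Prop := fun i => V' (X.ce' i) ∨ ∃ j ∈ X.as, P'.op c0 j = true ∧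
    E (X.ce' i) (X.ce' j) ∧ Vi S c (f j) ∧ Vi S' c' (f j)
  have gce : ∀ i j, E (X.ce' i) (X.ce' j) → good i → good j := by
    rintro i j hij (h | ⟨k, k1, k2, k3, k4⟩)
    · exact Or.inl (H.m1 _ _ hij h)
    · exact Or.inr ⟨k, k1, k2, H.eE.trans (H.eE.symm hij) k3, k4⟩
  have gas : ∀ i ∈ X.as, P'.op c0 i = true → Vi S' c' (f i) → (good i ↔ Vi S c (f i)) := by
    intro i hi ho hw
    obtain ⟨k1, k2⟩ := C.st.rs i (C.st.asm hi)
    constructor
    · rintro (h | ⟨j, j1, j2, j3, j4, j5⟩)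
      · exact H.u1 i k1 (H.t1 i hi ho h)
      · by_cases hV : V' (X.ce' j)
        · exact H.u1 i k1 (H.t1 i hi ho (H.m1 _ _ (H.eE.symm j3) hV))
        · exact v3 i k1 j j1 j4 (H.t2 j j1 j2 hV j5 i hi ho j3)
    · intro hv
      exact Or.inr ⟨i, hi, ho, H.eE.refl _, hv, hw⟩
  have gring : ∀ i ∈ X.rs, P'.op c0 i = true → Vi S' c' (f i) → (good i ↔ Vi S c (f i)) := by
    intro i hi ho hw
    obtain ⟨p, p1, p2, p3, p4, p5⟩ := rep i hi ho
    have e1 : good i ↔ good p := ⟨gce i p (by rw [p5]; exact H.eE.refl _),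
      gce p i (by rw [p5]; exact H.eE.refl _)⟩
    have hin := (C.st.rs i hi).1
    have hp : Vi S' c' (f p) := hw.eq fun t ht => C.cellP' ht hin p2 p5.symm
    rw [e1, gas p p1 p3 hp]
    exact ⟨vice p p2 i hin p4, vice i hin p p2 p4.symm⟩
  let Kp : D → Prop := fun d => Vi S' c' d → ((OU P f d ∧ Vi S c d) ∨
    ∃ i, i < P.n ∧ f i = d ∧ good i)
  have KU : ∀ d, OU P f d → Vi S' c' d → (Kp d ↔ Vi S c d) := by
    intro d hd hw
    constructor
    · intro h6
      rcases h6 hw with h5 | ⟨i, hi, h5, _⟩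
      · exact h5.2
      · exact absurd h5 (hd i hi)
    · exact fun h5 _ => Or.inl ⟨hd, h5⟩
  have Kf : ∀ i < P.n, Vi S' c' (f i) → (Kp (f i) ↔ good i) := by
    intro i hi hw
    constructor
    · intro h7
      rcases h7 hw with h5 | ⟨j, hj, h5, h6⟩
      · exact absurd rfl (h5.1 i hi)
      · have := C.pe.e.inj j hj i hi h5
        rwa [← this]
    · exact fun h5 _ => Or.inr ⟨i, hi, rfl, h5⟩
  have KO : ∀ d, OR P f d → S'.Op c' d → Vi S' c' d → (Kp d ↔ Vi S c d) := by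
    intro d hd ho hw
    by_cases hO : OU P f d
    · exact KU d hO hw
    · obtain ⟨i, hi, rfl⟩ := C.exi hO
      have hα : P.α i = i := by
        by_contra hcon
        exact hd i hi hcon rfl
      rw [Kf i hi hw]
      exact gring i (C.st.ring i hi hα).1 ((C.op' hi).1 ho) hw
  have hKp : ∀ d, Vi S' c' d → Kp d := by
    intro d hd
    refine hd.cls Kp (fun d => ?_) (fun d ho => ?_) (fun d hb => ?_)
    · by_cases hw : Vi S' c' d
      swap
      · exact ⟨fun _ h6 => absurd h6 hw, fun _ h6 => absurd h6.φ' hw⟩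
      have hw1 : Vi S' c' (S'.M.φ d) := hw.φ
      by_cases hO : OU P f d
      · have o1 := C.pe.ouφ hO
        rw [C.h.φo d hO] at hw1 ⊢
        rw [KU _ o1 hw1, KU _ hO hw, vi_φ]
      · obtain ⟨i, hi, rfl⟩ := C.exi hO
        have hi' : i < P'.n := by rw [hn]; exact hi
        have k1 := C.h.G'.φlt i hi'
        rw [hn] at k1
        rw [C.h.e'.hφ i hi'] at hw1 ⊢
        rw [Kf _ k1 hw1, Kf i hi hw]
        simp only [good, C.st.ce' i hi]
    · by_cases hw : Vi S' c' d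
      swap
      · exact ⟨fun _ h6 => absurd h6 hw, fun _ h6 => absurd (h6.α' ho) hw⟩
      have hw1 : Vi S' c' (S'.M.α d) := hw.α ho
      rw [C.h.αo d] at hw1 ⊢
      by_cases hd : OR P f d
      · rw [KO d hd ho hw, KO _ (C.pe.orα hd) (C.opα' ho) hw1, vi_α ((C.opO hag hd).2 ho)]
      · have : ∃ i, i < P.n ∧ P.α i ≠ i ∧ f i = d := by
          by_contra hcon
          apply hd
          intro i hi hne he
          exact hcon ⟨i, hi, hne, he⟩
        obtain ⟨i, hi, hne, rfl⟩ := this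
        have oi := (C.op' hi).1 ho
        have ie := innK i hi hne oi
        rw [C.pe.e.hα i hi hne] at hw1 ⊢
        rw [Kf _ (C.pe.G.αlt i hi) hw1, Kf i hi hw]
        exact ⟨gce _ _ (H.eE.symm ie), gce _ _ ie⟩
    · by_cases hO : OU P f d
      · rw [KU d hO hb.vi]
        exact ((C.brO hag hO.or).2 hb).vi
      · obtain ⟨i, hi, rfl⟩ := C.exi hO
        rw [Kf i hi hb.vi]
        exact Or.inl (H.m2 i hi ((C.br' hi).1 hb))
  refine ⟨fun t ht => ?_, fun d hd hv => ?_, fun i hi hv l1 l2 => ?_,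
    fun i hi hv => ?_, fun z hz => ?_⟩
  swap
  · rcases hd with hd | ⟨j, hj, hα, hr, rfl⟩
    · exact (KU d hd hv).1 (hKp d hv)
    · have h1 := C.st.ring j hj hα
      refine (gring j h1.1 ?_ hv).1 ((Kf j hj hv).1 (hKp _ hv))
      unfold Pa.op
      rw [h1.2.1, hr]
      rfl
  · -- connectedness
    obtain ⟨lam, hlam⟩ := H.u2 t ht
    let tv : ℕ → ℝ := fun s => if V' s then lam else
      if hj : ∃ j, j ∈ X.as ∧ P'.op c0 j = true ∧ E s (X.ce' j) ∧ Vi S' c' (f j) then t (f hj.choose) else 0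
    have tvE : ∀ s u, E s u → tv s = tv u := by
      intro s u hsu
      by_cases hV : V' s
      · simp only [tv]
        rw [if_pos hV, if_pos (H.m1 _ _ hsu hV)]
      · have hV' : ¬ V' u := fun h => hV (H.m1 _ _ (H.eE.symm hsu) h)
        have hp : (fun j => j ∈ X.as ∧ P'.op c0 j = true ∧ E s (X.ce' j) ∧ Vi S' c' (f j)) =
            fun j => j ∈ X.as ∧ P'.op c0 j = true ∧ E u (X.ce' j) ∧ Vi S' c' (f j) := by
          funext j
          apply propext
          constructor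
          · rintro ⟨h1, h2, h3, h4⟩
            exact ⟨h1, h2, H.eE.trans (H.eE.symm hsu) h3, h4⟩
          · rintro ⟨h1, h2, h3, h4⟩
            exact ⟨h1, h2, H.eE.trans hsu h3, h4⟩
        simp only [tv]
        rw [if_neg hV, if_neg hV']
        by_cases hx : ∃ j, j ∈ X.as ∧ P'.op c0 j = true ∧ E s (X.ce' j) ∧ Vi S' c' (f j)
        · have hx' : ∃ j, j ∈ X.as ∧ P'.op c0 j = true ∧ E u (X.ce' j) ∧ Vi S' c' (f j) := by
            obtain ⟨j, hj⟩ := hx
            exact ⟨j, by rw [← congrFun hp j]; exact hj⟩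
          rw [dif_pos hx, dif_pos hx']
          congr 2
          simp only [hp]
        · rw [dif_neg hx, dif_neg]
          rintro ⟨j, hj⟩
          exact hx ⟨j, by rw [congrFun hp j]; exact hj⟩
    have tva : ∀ j ∈ X.as, P'.op c0 j = true → Vi S' c' (f j) → tv (X.ce' j) = t (f j) := by
      intro j hj oj wj
      obtain ⟨j1, -⟩ := C.st.rs j (C.st.asm hj)
      by_cases hV : V' (X.ce' j)
      · have e1 : tv (X.ce' j) = lam := by
          simp only [tv]
          rw [if_pos hV]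
        rw [e1, hlam j j1 (H.t1 j hj oj hV)]
      · have hex : ∃ y, y ∈ X.as ∧ P'.op c0 y = true ∧ E (X.ce' j) (X.ce' y) ∧
            Vi S' c' (f y) := ⟨j, hj, oj, H.eE.refl _, wj⟩
        have e1 : tv (X.ce' j) = t (f hex.choose) := by
          simp only [tv]
          rw [if_neg hV, dif_pos hex]
        obtain ⟨y1, y2, y3, wy⟩ := hex.choose_spec
        set y := hex.choose with hy
        have y4 := (C.st.rs y (C.st.asm y1)).1
        have hVy : ¬ V' (X.ce' y) := fun h => hV (H.m1 _ _ (H.eE.symm y3) h)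
        rw [e1]
        have w1 := H.t2 y y1 y2 hVy wy j hj oj y3
        have w2 := H.t2 j hj oj hV wj y y1 y2 (H.eE.symm y3)
        rcases w1 with w1 | w1
        · rcases w2 with w2 | w2
          · rw [hlam y y4 w2, hlam j j1 w1]
          · exact (H.c1 j hj y y4 w2 t ht).symm
        · exact H.c1 y y1 j j1 w1 t ht
    have tvr : ∀ j ∈ X.rs, P'.op c0 j = true → Vi S' c' (f j) → tv (X.ce' j) = t (f j) := by
      intro j hj oj wj
      obtain ⟨p, p1, p2, p3, p4, p5⟩ := rep j hj oj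
      have wp : Vi S' c' (f p) := wj.eq fun τ hτ => C.cellP' hτ (C.st.rs j hj).1 p2 p5.symm
      rw [← p5, tva p p1 p3 wp]
      exact C.cellP ht p2 (C.st.rs j hj).1 p4
    let t' : D → ℝ := fun d => if Vi S' c' d then
      (if hd : ∃ i, i < P.n ∧ f i = d then tv (X.ce' hd.choose) else t d) else 0
    have tn : ∀ d, ¬ Vi S' c' d → t' d = 0 := by
      intro d hd
      simp only [t']
      rw [if_neg hd]
    have tf : ∀ i < P.n, Vi S' c' (f i) → t' (f i) = tv (X.ce' i) := by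
      intro i hi hw
      have hex : ∃ j, j < P.n ∧ f j = f i := ⟨i, hi, rfl⟩
      simp only [t']
      rw [if_pos hw, dif_pos hex, C.pe.e.inj _ hex.choose_spec.1 i hi hex.choose_spec.2]
    have tO : ∀ d, OU P f d → Vi S' c' d → t' d = t d := by
      intro d hd hw
      simp only [t']
      rw [if_pos hw, dif_neg]
      rintro ⟨i, hi, he⟩
      exact hd i hi he
    have tR : ∀ d, OR P f d → S'.Op c' d → Vi S' c' d → t' d = t d := by
      intro d hd ho hw
      by_cases hO : OU P f d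
      · exact tO d hO hw
      · obtain ⟨i, hi, rfl⟩ := C.exi hO
        have hα : P.α i = i := by
          by_contra hcon
          exact hd i hi hcon rfl
        have oi := (C.op' hi).1 ho
        rw [tf i hi hw]
        exact tvr i (C.st.ring i hi hα).1 oi hw
    have hT : S'.Test c' t' := by
      refine ⟨fun d => ?_, fun d ho => ?_⟩
      · by_cases hw : Vi S' c' d
        swap
        · rw [tn _ hw, tn _ fun h6 => hw h6.φ']
        have hw1 : Vi S' c' (S'.M.φ d) := hw.φ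
        by_cases hO : OU P f d
        · rw [C.h.φo d hO] at hw1 ⊢
          rw [tO _ (C.pe.ouφ hO) hw1, tO _ hO hw, ht.1]
        · obtain ⟨i, hi, rfl⟩ := C.exi hO
          have hi' : i < P'.n := by rw [hn]; exact hi
          have h5 := C.h.G'.φlt i hi'
          rw [hn] at h5
          rw [C.h.e'.hφ i hi'] at hw1 ⊢
          rw [tf _ h5 hw1, tf i hi hw, C.st.ce' i hi]
      · by_cases hw : Vi S' c' d
        swap
        · rw [tn _ hw, tn _ fun h6 => hw (h6.α' ho)]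
        have hw1 : Vi S' c' (S'.M.α d) := hw.α ho
        rw [C.h.αo d] at hw1 ⊢
        by_cases hd : OR P f d
        · rw [tR _ hd ho hw, tR _ (C.pe.orα hd) (C.opα' ho) hw1, ht.2 _ ((C.opO hag hd).2 ho)]
        · have : ∃ i, i < P.n ∧ P.α i ≠ i ∧ f i = d := by
            by_contra hcon
            apply hd
            intro i hi hne he
            exact hcon ⟨i, hi, hne, he⟩
          obtain ⟨i, hi, hne, rfl⟩ := this
          have oi := (C.op' hi).1 ho
          rw [C.pe.e.hα i hi hne] at hw1 ⊢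
          rw [tf _ (C.pe.G.αlt i hi) hw1, tf i hi hw]
          exact (tvE _ _ (innK i hi hne oi)).symm
    by_cases hU0 : ∃ i < P.n, U (X.ce i)
    · obtain ⟨i1, i2, i3, e1, e2, e3⟩ := H.m3 hU0
      have wi1 : Vi S' c' (f i1) := ⟨e1, e2, fun τ hτ => (e3 τ hτ)⟩
      have ht1 : t' e1 = lam := by
        rw [e3 t' hT, tf i1 i2 wi1]
        simp only [tv]
        rw [if_pos i3]
      have key : ∀ d, Br S c d → t d = lam := by
        intro d hb
        by_cases hO : OU P f d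
        · have hb' := (C.brO hag hO.or).1 hb
          rw [← tO d hO hb'.vi, C.con' t' hT d e1 hb' e2, ht1]
        · obtain ⟨i, hi, rfl⟩ := C.exi hO
          exact hlam i hi (H.u3 i hi ((hbr i hi).1 hb))
      intro d d' hd hd'
      rw [key d hd, key d' hd']
    · have out : ∀ d, Br S c d → OU P f d := by
        intro d hb
        by_contra hO
        obtain ⟨i, hi, rfl⟩ := C.exi hO
        exact hU0 ⟨i, hi, H.u3 i hi ((hbr i hi).1 hb)⟩
      intro d d' hd hd'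
      have o1 := out d hd
      have o2 := out d' hd'
      have b1 := (C.brO hag o1.or).1 hd
      have b2 := (C.brO hag o2.or).1 hd'
      rw [← tO d o1 b1.vi, ← tO d' o2 b2.vi]
      exact C.con' t' hT d d' b1 b2
  · -- ring labels
    have hg := (Kf i hi hv).1 (hKp _ hv)
    have fin : ∀ W : ℕ → Prop, (∃ b, W b ∧ (X.st (P'.l i)).testBit b = true) →
        (∀ j < P.n, W (X.ce j) → Vi S c (f j)) →
        ∃ d, S.M.v d = g (P'.l i) ∧ Vi S c d := by
      rintro W ⟨b, c1, c2⟩ hv'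
      obtain ⟨j, hj, hl, hce⟩ := C.st.stb _ l2 b c2
      refine ⟨f j, by rw [C.h.e.hl j hj, hl], hv' j hj ?_⟩
      rw [hce]; exact c1
    by_cases hV : V' (X.ce' i)
    · exact fin U (H.t1' i hi hV l1 l2) H.u1
    · rcases hg with h | ⟨j, j1, j2, j3, j4, j5⟩
      · exact absurd h hV
      · have hVj : ¬ V' (X.ce' j) := fun h => hV (H.m1 _ _ (H.eE.symm j3) h)
        exact fin (fun b => U b ∨ co j b) (H.t2' j j1 j2 hVj j5 i hi j3 l1 l2)
          fun y hy hb => v3 y hy j j1 j4 hb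
  · -- kept darts
    have hin := H.kn i hi
    rcases (Kf i hin hv).1 (hKp _ hv) with h | ⟨j, j1, j2, j3, j4, j5⟩
    · exact H.u1 i hin (H.k1 i hi h)
    · by_cases hVj : V' (X.ce' j)
      · exact H.u1 i hin (H.k1 i hi (H.m1 _ _ (H.eE.symm j3) hVj))
      · exact v3 i hin j j1 j4 (H.k2 j j1 j2 hVj j5 i hi j3)
  · -- requirements
    obtain ⟨i, hi, h1, h2⟩ := H.d z hz
    exact ⟨i, hi, h1, H.u1 i hi h2⟩

/-- the same, all open arcs are tested -/
theorem leaf_core (C : Cx S S' P P' f g X c' c0) {c : V → Bool} (hag : Ag g X c' c) {m : ℕ}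
    (hbr : ∀ i < P.n, (Br S c (f i) ↔ br P m i = true)) {ex : List ℕ} {E : ℕ → ℕ → Prop}
    {V' U : ℕ → Prop} {co : ℕ → ℕ → Prop} (H : LC S S' P P' f X c' c0 c m ex E V' U co) :
    (∀ t, S.Test c t → ∀ d d', Br S c d → Br S c d' → t d = t d') ∧
      (∀ d, OV P f d → Vi S' c' d → Vi S c d) ∧
      (∀ i < P.n, Vi S' c' (f i) → X.x ≤ P'.l i → P'.l i < X.x + X.k →
        ∃ d, S.M.v d = g (P'.l i) ∧ Vi S c d) ∧
      (∀ i ∈ X.kd, Vi S' c' (f i) → Vi S c (f i)) ∧
      ∀ z ∈ X.dj ++ ex, ∃ i < P.n, z.testBit (X.ce i) = true ∧ Vi S c (f i) :=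
  leaf_coreV C hag hbr H.toV

end Pool.FC7
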