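import Pool.Agent.FC7.Base
import Pool.Agent.FC6.ExtH

/-! # Merging consecutive elements of noncrossing relations -/

open Finset

set_option linter.unusedSectionVars false

namespace Pool.FC7

open Pool.FC6

/-- the classes of `x` and `y` are merged -/
def jn (R : ℕ → ℕ → Prop) (x y a b : ℕ) : Prop := R a b ∨ (R a x ∧ R y b) ∨ (R a y ∧ R x b)

theorem jn_equiv {R : ℕ → ℕ → Prop} (hR : Equivalence R) (x y : ℕ) : Equivalence (jn R x y) where
  refl a := Or.inl (hR.refl a)
  symm := by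
    rintro a b (h | ⟨h1, h2⟩ | ⟨h1, h2⟩)
    · exact Or.inl (hR.symm h)
    · exact Or.inr (Or.inr ⟨hR.symm h2, hR.symm h1⟩)
    · exact Or.inr (Or.inl ⟨hR.symm h2, hR.symm h1⟩)
  trans := by
    rintro a b c (h | ⟨h1, h2⟩ | ⟨h1, h2⟩) (k | ⟨k1, k2⟩ | ⟨k1, k2⟩)
    · exact Or.inl (hR.trans h k)
    · exact Or.inr (Or.inl ⟨hR.trans h k1, k2⟩)
    · exact Or.inr (Or.inr ⟨hR.trans h k1, k2⟩)
    · exact Or.inr (Or.inl ⟨h1, hR.trans h2 k⟩)
    · -- a x, y b, b x, y c
      exact Or.inl (hR.trans h1 (hR.trans (hR.symm (hR.trans h2 k1)) k2))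
    · -- a x, y b, b y, x c
      exact Or.inl (hR.trans h1 k2)
    · exact Or.inr (Or.inr ⟨h1, hR.trans h2 k⟩)
    · exact Or.inl (hR.trans h1 k2)
    · -- a y, x b, b y, x c
      exact Or.inl (hR.trans h1 (hR.trans (hR.symm (hR.trans h2 k1)) k2))

theorem ncl_iff {R : ℕ → ℕ → Prop} {w : List ℕ} : NCL R w ↔ ∀ p q r s, p < q → q < r → r < s →
    s < w.length → R (w.getD p 0) (w.getD r 0) → R (w.getD q 0) (w.getD s 0) →
    R (w.getD p 0) (w.getD q 0) := by
  constructor
  · intro h p q r s h1 h2 h3 h4 h5 h6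
    refine h _ _ _ _ ?_ h5 h6
    have e : ∀ i, i < w.length → w.getD i 0 = w[i]! := by
      intro i hi
      rw [List.getD_eq_getElem _ _ hi, List.getElem!_eq_getElem?_getD,
        List.getElem?_eq_getElem hi]
      rfl
    rw [List.getD_eq_getElem _ _ (by omega), List.getD_eq_getElem _ _ (by omega),
      List.getD_eq_getElem _ _ (by omega), List.getD_eq_getElem _ _ h4]
    have s1 : [w[p], w[q], w[r], w[s]].Sublist w := by
      have hs : (w.drop s).head? = some w[s] := by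
        rw [List.head?_drop, List.getElem?_eq_getElem h4]
      have k1 : [w[s]].Sublist (w.drop s) := by
        rw [List.drop_eq_getElem_cons h4]
        exact List.Sublist.cons_cons _ (List.nil_sublist _)
      have step : ∀ (i j : ℕ) (hi : i < w.length) (l : List ℕ), i < j → l.Sublist (w.drop j) →
          (w[i] :: l).Sublist (w.drop i) := by
        intro i j hi l hij hl
        rw [List.drop_eq_getElem_cons hi]
        refine List.Sublist.cons_cons _ (hl.trans ?_)
        have : w.drop j = (w.drop (i + 1)).drop (j - (i + 1)) := by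
          rw [List.drop_drop]; congr 1; omega
        rw [this]
        exact List.drop_sublist _ _
      have k2 := step r s (by omega) _ h3 k1
      have k3 := step q r (by omega) _ h2 k2
      have k4 := step p q (by omega) _ h1 k3
      exact k4.trans (List.drop_sublist _ _)
    exact s1
  · intro h a b s t hs h1 h2
    obtain ⟨F, hF⟩ := List.sublist_iff_exists_fin_orderEmbedding_get_eq.1 hs
    have o1 : F ⟨0, by simp⟩ < F ⟨1, by simp⟩ := F.lt_iff_lt.2 (by simp)
    have o2 : F ⟨1, by simp⟩ < F ⟨2, by simp⟩ := F.lt_iff_lt.2 (by simp)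
    have o3 : F ⟨2, by simp⟩ < F ⟨3, by simp⟩ := F.lt_iff_lt.2 (by simp)
    have e0 : a = w.getD (F ⟨0, by simp⟩) 0 := by
      rw [List.getD_eq_getElem _ _ (F ⟨0, by simp⟩).2]; exact hF ⟨0, by simp⟩
    have e1 : b = w.getD (F ⟨1, by simp⟩) 0 := by
      rw [List.getD_eq_getElem _ _ (F ⟨1, by simp⟩).2]; exact hF ⟨1, by simp⟩
    have e2 : s = w.getD (F ⟨2, by simp⟩) 0 := by
      rw [List.getD_eq_getElem _ _ (F ⟨2, by simp⟩).2]; exact hF ⟨2, by simp⟩
    have e3 : t = w.getD (F ⟨3, by simp⟩) 0 := by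
      rw [List.getD_eq_getElem _ _ (F ⟨3, by simp⟩).2]; exact hF ⟨3, by simp⟩
    have := h _ _ _ _ o1 o2 o3 (F ⟨3, by simp⟩).2
    rw [← e0, ← e1, ← e2, ← e3] at this
    exact this h1 h2

/-- the merged class -/
def jT (R : ℕ → ℕ → Prop) (x y a : ℕ) : Prop := R a x ∨ R a y

theorem jn_iff {R : ℕ → ℕ → Prop} (hR : Equivalence R) {x y a b : ℕ} :
    jn R x y a b ↔ R a b ∨ (jT R x y a ∧ jT R x y b) := by
  unfold jn jT
  constructor
  · rintro (h | ⟨h1, h2⟩ | ⟨h1, h2⟩)
    · exact Or.inl h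
    · exact Or.inr ⟨Or.inl h1, Or.inr (hR.symm h2)⟩
    · exact Or.inr ⟨Or.inr h1, Or.inl (hR.symm h2)⟩
  · rintro (h | ⟨h1 | h1, h2 | h2⟩)
    · exact Or.inl h
    · exact Or.inl (hR.trans h1 (hR.symm h2))
    · exact Or.inr (Or.inl ⟨h1, hR.symm h2⟩)
    · exact Or.inr (Or.inr ⟨h1, hR.symm h2⟩)
    · exact Or.inl (hR.trans h1 (hR.symm h2))

theorem jT_cong {R : ℕ → ℕ → Prop} (hR : Equivalence R) {x y a b : ℕ} (h : R a b)
    (ha : jT R x y a) : jT R x y b :=
  ha.imp (hR.trans (hR.symm h)) (hR.trans (hR.symm h))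

/-- merging the classes of consecutive elements keeps the noncrossing property -/
theorem jn_ncl {R : ℕ → ℕ → Prop} (hR : Equivalence R) {w : List ℕ} (hn : NCL R w) {k : ℕ}
    (hk : k + 1 < w.length) : NCL (jn R (w.getD k 0) (w.getD (k + 1) 0)) w := by
  rw [ncl_iff] at hn ⊢
  intro p q r s h1 h2 h3 h4 h5 h6
  rw [jn_iff hR] at h5 h6 ⊢
  have kx : jT R (w.getD k 0) (w.getD (k + 1) 0) (w.getD k 0) := Or.inl (hR.refl _)
  have ky : jT R (w.getD k 0) (w.getD (k + 1) 0) (w.getD (k + 1) 0) := Or.inr (hR.refl _)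
  set T := jT R (w.getD k 0) (w.getD (k + 1) 0) with hT
  have tc : ∀ {a b : ℕ}, R a b → T a → T b := fun h ha => jT_cong hR h ha
  -- a member of the merged class is related to the position `k` or `k + 1`
  have tk : ∀ a, T a → ∃ t, (t = k ∨ t = k + 1) ∧ R a (w.getD t 0) := by
    rintro a (h | h)
    · exact ⟨k, Or.inl rfl, h⟩
    · exact ⟨k + 1, Or.inr rfl, h⟩
  by_cases hp : T (w.getD p 0)
  · by_cases hq : T (w.getD q 0)
    · exact Or.inr ⟨hp, hq⟩
    · -- `q`, `s` are not in the class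
      have h6' : R (w.getD q 0) (w.getD s 0) := h6.resolve_right fun h => hq h.1
      by_cases h5' : R (w.getD p 0) (w.getD r 0)
      · exact Or.inl (hn p q r s h1 h2 h3 h4 h5' h6')
      · exfalso
        have hr : T (w.getD r 0) := (h5.resolve_left h5').2
        have hs : ¬ T (w.getD s 0) := fun h => hq (tc (hR.symm h6') h)
        have nq : q ≠ k ∧ q ≠ k + 1 := ⟨fun h => hq (h ▸ kx), fun h => hq (h ▸ ky)⟩
        have ns : s ≠ k ∧ s ≠ k + 1 := ⟨fun h => hs (h ▸ kx), fun h => hs (h ▸ ky)⟩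
        by_cases hin : q < k ∧ k + 1 < s
        · obtain ⟨t, ht, htr⟩ := tk _ hp
          have b1 : q < t := by omega
          have b2 : t < s := by omega
          exact hq (tc (hn p q t s h1 b1 b2 h4 htr h6') hp)
        · obtain ⟨t, ht, htr⟩ := tk _ hr
          have b : t < q ∨ s < t := by omega
          rcases b with b | b
          · have := hn t q r s b h2 h3 h4 (hR.symm htr) h6'
            exact hq (tc this (tc htr hr))
          · have := hn q r s t h2 h3 b (by omega) h6' htr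
            exact hq (tc (hR.symm this) hr)
  · have h5' : R (w.getD p 0) (w.getD r 0) := h5.resolve_right fun h => hp h.1
    by_cases h6' : R (w.getD q 0) (w.getD s 0)
    · exact Or.inl (hn p q r s h1 h2 h3 h4 h5' h6')
    · exfalso
      obtain ⟨hq, hs⟩ := h6.resolve_left h6'
      have hr : ¬ T (w.getD r 0) := fun h => hp (tc (hR.symm h5') h)
      have np : p ≠ k ∧ p ≠ k + 1 := ⟨fun h => hp (h ▸ kx), fun h => hp (h ▸ ky)⟩
      have nr : r ≠ k ∧ r ≠ k + 1 := ⟨fun h => hr (h ▸ kx), fun h => hr (h ▸ ky)⟩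
      by_cases hin : p < k ∧ k + 1 < r
      · obtain ⟨t, ht, htr⟩ := tk _ hs
        have b1 : p < t := by omega
        have b2 : t < r := by omega
        have := hn p t r s b1 b2 h3 h4 h5' (hR.symm htr)
        exact hp (tc (hR.symm this) (tc htr hs))
      · obtain ⟨t, ht, htr⟩ := tk _ hq
        have b : t < p ∨ r < t := by omega
        rcases b with b | b
        · have := hn t p q r b h1 h2 (by omega) (hR.symm htr) h5'
          exact hp (tc this (tc htr hq))
        · have := hn p q r t h1 h2 b (by omega) h5' htr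
          exact hp (tc (hR.symm this) hq)

/-! ### Arcs -/

/-- the ring darts of an arc -/
def ad (p : ℕ × ℕ) : List ℕ := if p.1 = p.2 then [p.1] else [p.1, p.2]

/-- the classes of the darts of the arcs are merged -/
def jf (R : ℕ → ℕ → Prop) : List (ℕ × ℕ) → ℕ → ℕ → Prop
  | [] => R
  | p :: l => jn (jf R l) p.1 p.2

theorem jf_equiv {R : ℕ → ℕ → Prop} (hR : Equivalence R) : ∀ l, Equivalence (jf R l)
  | [] => hR
  | p :: l => jn_equiv (jf_equiv hR l) p.1 p.2

theorem jf_sub {R : ℕ → ℕ → Prop} {a b : ℕ} (h : R a b) : ∀ l, jf R l a b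
  | [] => h
  | _ :: l => Or.inl (jf_sub h l)

theorem jf_arc {R : ℕ → ℕ → Prop} (hR : Equivalence R) {p : ℕ × ℕ} : ∀ l, p ∈ l → jf R l p.1 p.2
  | q :: l, h => by
    rcases List.mem_cons.1 h with rfl | h
    · exact Or.inr (Or.inl ⟨(jf_equiv hR l).refl _, (jf_equiv hR l).refl _⟩)
    · exact Or.inl (jf_arc hR l h)

/-- induction over the merged relation -/
theorem jf_ind {R T : ℕ → ℕ → Prop} (hT : Equivalence T) (h0 : ∀ a b, R a b → T a b) :
    ∀ l : List (ℕ × ℕ), (∀ p ∈ l, T p.1 p.2) → ∀ a b, jf R l a b → T a b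
  | [], _, a, b, h => h0 a b h
  | p :: l, hl, a, b, h => by
    have hp := hl p (by simp)
    have ih := jf_ind hT h0 l (fun q hq => hl q (List.mem_cons_of_mem _ hq))
    rcases h with h | ⟨h1, h2⟩ | ⟨h1, h2⟩
    · exact ih a b h
    · exact hT.trans (ih _ _ h1) (hT.trans hp (ih _ _ h2))
    · exact hT.trans (ih _ _ h1) (hT.trans (hT.symm hp) (ih _ _ h2))

theorem jn_self {R : ℕ → ℕ → Prop} (hR : Equivalence R) (x : ℕ) : jn R x x = R := by
  funext a b
  apply propext
  rw [jn_iff hR]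
  unfold jT
  constructor
  · rintro (h | ⟨h1, h2⟩)
    · exact h
    · rw [or_self] at h1 h2
      exact hR.trans h1 (hR.symm h2)
  · exact Or.inl

theorem jf_ncl {R : ℕ → ℕ → Prop} (hR : Equivalence R) {w : List ℕ} (hn : NCL R w) :
    ∀ l : List (ℕ × ℕ), (∀ p ∈ l, p.1 = p.2 ∨ ∃ k, k + 1 < w.length ∧ w.getD k 0 = p.1 ∧
      w.getD (k + 1) 0 = p.2) → NCL (jf R l) w
  | [], _ => hn
  | p :: l, hl => by
    have ih := jf_ncl hR hn l (fun q hq => hl q (List.mem_cons_of_mem _ hq))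
    show NCL (jn (jf R l) p.1 p.2) w
    rcases hl p (by simp) with h | ⟨k, h1, h2, h3⟩
    · rw [h, jn_self (jf_equiv hR l)]; exact ih
    · rw [← h2, ← h3]
      exact jn_ncl (jf_equiv hR l) ih h1

theorem ad_pos {l : List (ℕ × ℕ)} {w : List ℕ} (h : w = l.flatMap ad) : ∀ p ∈ l, p.1 = p.2 ∨
    ∃ k, k + 1 < w.length ∧ w.getD k 0 = p.1 ∧ w.getD (k + 1) 0 = p.2 := by
  intro p hp
  by_cases hpe : p.1 = p.2
  · exact Or.inl hpe
  right
  obtain ⟨l1, l2, rfl⟩ := List.append_of_mem hp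
  have e : w = l1.flatMap ad ++ ([p.1, p.2] ++ l2.flatMap ad) := by
    rw [h, List.flatMap_append, List.flatMap_cons]
    unfold ad
    rw [if_neg hpe]
  refine ⟨(l1.flatMap ad).length, ?_, ?_, ?_⟩
  · rw [e]; simp
  · rw [e, List.getD_append_right _ _ _ _ (le_refl _)]; simp
  · rw [e, List.getD_append_right _ _ _ _ (by omega)]; simp

theorem mem_ad {p : ℕ × ℕ} {i : ℕ} : i ∈ ad p ↔ i = p.1 ∨ i = p.2 := by
  unfold ad
  split_ifs with h
  · rw [List.mem_singleton, ← h, or_self]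
  · simp

end Pool.FC7
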