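import Pool.Agent.FC7.Gd
import Pool.Agent.FC7.StarS

/-! # A face without bichromatic edges has one colour -/

open Finset

namespace Pool.FC7

open Pool.FC6 Pool.FC6.St

variable {D V : Type} [Fintype D] [DecidableEq V] {S : St D V}

/-- a face whose real edges are monochromatic has one colour -/
theorem Gd.face_col (g : Gd S) {c : V → Bool} {d : D}
    (h : ∀ e, S.real e = true → S.sc.r d e → c (S.M.v e) = c (S.M.v (S.M.α e)))
    {a b : D} (ha : S.real a = true) (hb : S.real b = true) (da : S.sc.r d a) (db : S.sc.r d b) :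
    c (S.M.v a) = c (S.M.v b) := by
  classical
  let k : D → ℝ := fun e => if S.sc.r d e then (if c (S.M.v e) = true then 1 else 0) else 0
  have hk : ∀ e, S.real e = true → k (S.B e) = k e := by
    intro e he
    have h1 := g.B_sc he
    by_cases h2 : S.sc.r d e
    · have h3 : S.sc.r d (S.B e) := S.sc.iseqv.trans h2 h1
      have h4 : c (S.M.v (S.B e)) = c (S.M.v e) := by
        rw [v_B, ← h e he h2]
      simp only [k, if_pos h2, if_pos h3, h4]
    · have h3 : ¬ S.sc.r d (S.B e) := fun h4 => h2 (S.sc.iseqv.trans h4 (S.sc.iseqv.symm h1))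
      simp only [k, if_neg h2, if_neg h3]
  obtain ⟨H, hH, hHb⟩ := g.bcon k hk
  have h1 : H d = H a := cl_sc hH da
  have h2 : H d = H b := cl_sc hH db
  have h3 : k a = k b := by rw [← hHb a ha, ← hHb b hb, ← h1, ← h2]
  simp only [k, if_pos da, if_pos db] at h3
  cases h4 : c (S.M.v a) <;> cases h5 : c (S.M.v b) <;> rw [h4, h5] at h3 <;> simp at h3 ⊢

/-- a face with corners of both colours has a bichromatic edge -/
theorem Gd.face_bi (g : Gd S) {c : V → Bool} {d a b : D} (ha : S.M.v a ∈ S.A) (hb : S.M.v b ∈ S.A)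
    (da : S.sc.r d a) (db : S.sc.r d b) (hne : c (S.M.v a) ≠ c (S.M.v b)) :
    ∃ e, S.real e = true ∧ S.sc.r d e ∧ c (S.M.v e) ≠ c (S.M.v (S.M.α e)) := by
  by_contra hn
  push Not at hn
  refine hne ?_
  have h1 := g.face_col (c := c) (d := d) (fun e he hs => hn e he hs) (real_fr g.full ha)
    (real_fr g.full hb) (S.sc.iseqv.trans da (g.fr_sc ha)) (S.sc.iseqv.trans db (g.fr_sc hb))
  rwa [v_fr, v_fr] at h1

end Pool.FC7
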