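import Pool.Agent.FC7.Q5N

/-! # Cuts with four real edges next to a plain triangle and a face with units

The units of a face are removed; in the solution of this smaller state the face is monochromatic.  The
colours of one side of the cut are changed. -/

open Finset

set_option linter.unusedSectionVars false

namespace Pool.FC7

open Pool.FC6 Pool.FC6.St

variable {D V : Type} [Fintype D] [DecidableEq V] {S : St D V} {L : D → Bool} {w : D → ℕ} {Δ : ℕ}
  {U : V → Prop}

/-- a colouring with one class of bichromatic edges, all alive vertices are live -/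
structure Nso (S : St D V) (a : V → Bool) : Prop where
  con : ∀ h, S.Test a h → ∀ d d', Br S a d → Br S a d' → h d = h d'
  live : ∀ x ∈ S.A, ∃ d, S.M.v d = x ∧ Vi S a d

/-- the visited darts after the change of the colours of one side -/
theorem Nso.vis {a c s : V → Bool} (ha : Nso S a) (h2 : ∀ b, ∃ x ∈ S.A, s x = b)
    (hc : ∀ x y, s x = s y → a x ≠ a y → c x ≠ c y)
    {h : D → ℝ} {m : ℝ} (hφ : ∀ d, h (S.M.φ d) = h d) (hα : ∀ d, S.Op c d → h (S.M.α d) = h d)
    (hm : ∀ d, s (S.M.v d) ≠ s (S.M.v (S.M.α d)) → h d = m) {d : D} (hd : Vi S a d) :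
    h d = m := by
  classical
  obtain ⟨b, hb⟩ : ∃ b, b = s (S.M.v d) := ⟨_, rfl⟩
  obtain ⟨g, hg⟩ : ∃ g : D → ℝ, ∀ e, g e = if s (S.M.v e) = b ∧ s (S.M.v (S.M.φ e)) = b ∧
      s (S.M.v (S.M.φ (S.M.φ e))) = b then h e else m := ⟨_, fun _ => rfl⟩
  have g1 : ∀ e, s (S.M.v e) = b → g e = h e := by
    intro e he
    rw [hg]
    by_cases c1 : s (S.M.v (S.M.φ e)) = b
    · by_cases c2 : s (S.M.v (S.M.φ (S.M.φ e))) = b
      · exact if_pos ⟨he, c1, c2⟩
      · rw [if_neg fun h0 => c2 h0.2.2, ← hφ e]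
        refine (hm _ fun h0 => c2 ?_).symm
        rw [S.M.vφ (S.M.φ e), ← h0, c1]
    · rw [if_neg fun h0 => c1 h0.2.1]
      refine (hm _ fun h0 => c1 ?_).symm
      rw [S.M.vφ, ← h0, he]
  have g2 : ∀ e, s (S.M.v e) ≠ b → g e = m := fun e he => by
    rw [hg]; exact if_neg fun h0 => he h0.1
  have g3 : ∀ e, s (S.M.v e) ≠ s (S.M.v (S.M.α e)) → g e = m := fun e he => by
    by_cases h0 : s (S.M.v e) = b
    · rw [g1 e h0]; exact hm e he
    · exact g2 e h0
  have gt : S.Test a g := by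
    refine ⟨fun e => ?_, fun e ho => ?_⟩
    · rw [hg, hg, S.M.φ3, hφ]
      exact if_congr (by tauto) rfl rfl
    · by_cases c1 : s (S.M.v e) = s (S.M.v (S.M.α e))
      · by_cases c2 : s (S.M.v e) = b
        · rw [g1 _ (c1.symm.trans c2), g1 _ c2]
          refine hα e ?_
          rcases ho with h0 | h0
          · exact Or.inl h0
          · exact Or.inr (hc _ _ c1 h0)
        · rw [g2 _ fun h0 => c2 (c1.trans h0), g2 _ c2]
      · rw [g3 _ c1, g3 (S.M.α e) (by rw [S.M.αα]; exact fun h0 => c1 h0.symm)]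
  obtain ⟨e, he, he2⟩ := hd
  obtain ⟨x, hx, hxb⟩ := h2 (!b)
  obtain ⟨d', hd', e', he', he2'⟩ := ha.live x hx
  have k3 : g d' = m := g2 d' (by rw [hd', hxb]; cases b <;> decide)
  rw [← g1 d hb.symm, ← he2 g gt, ha.con g gt e e' he he', he2' g gt, k3]

/-- the change of the colours of one side gives a solution -/
theorem Nso.glue (W : Wf Δ S L w) {a c s : V → Bool} (ha : Nso S a)
    (h2 : ∀ b, ∃ x ∈ S.A, s x = b) (hc : ∀ x y, s x = s y → (a x ≠ a y ↔ c x ≠ c y))
    {Q : D → Prop} (Qφ : ∀ d, Q (S.M.φ d) ↔ Q d) (Qo : ∀ d, S.Op c d → ¬ Q d ∧ ¬ Q (S.M.α d))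
    {d0 : D} (B0 : Br S c d0)
    (inv : ∀ h : D → ℝ, S.Test c h → (∀ d, Q d → h d = h d0) →
      ∀ d, s (S.M.v d) ≠ s (S.M.v (S.M.α d)) → h d = h d0)
    (Qv : ∀ d, Q d → ∃ d', S.M.v d' = S.M.v d ∧ ¬ Q d' ∧
      (s (S.M.v d') ≠ s (S.M.v (S.M.α d')) ∨
        s (S.M.v (S.M.φ (S.M.φ d'))) ≠ s (S.M.v (S.M.α (S.M.φ (S.M.φ d'))))))
    (Qu : ∀ d, Q d → S.u d = 0)
    (QL : ∀ d, Q d → s (S.M.v d) = s (S.M.v (S.M.α d)) → L d = false)
    (Qm : ∀ d, s (S.M.v d) ≠ s (S.M.v (S.M.α d)) → ¬ Q d ∨ ¬ Q (S.M.α d))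
    (req : ∀ d, S.u d ≠ 0 → Vi S a d ∨ Vi S c d)
    (lab : ∀ d, L d = true → (Vi S a d ∨ Vi S a (S.M.α d)) ∨ Vi S c d ∨ Vi S c (S.M.α d)) :
    Sol S L c := by
  classical
  have hQ0 : ¬ Q d0 := (Qo d0 B0.op).1
  -- the modified test function
  let hm : (D → ℝ) → D → ℝ := fun h d => if Q d then h d0 else h d
  have hmn : ∀ (h : D → ℝ) d, ¬ Q d → hm h d = h d := fun h d hd => if_neg hd
  have hmq : ∀ (h : D → ℝ) d, Q d → hm h d = h d0 := fun h d hd => if_pos hd
  have hmt : ∀ h : D → ℝ, S.Test c h → S.Test c (hm h) := fun h ht => test_mod Qφ Qo ht (h d0)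
  have hmi : ∀ h : D → ℝ, S.Test c h → ∀ d, s (S.M.v d) ≠ s (S.M.v (S.M.α d)) →
      hm h d = h d0 := by
    intro h ht d hd
    rw [inv _ (hmt h ht) (fun d hd => by rw [hmq h _ hd, hmn h _ hQ0]) d hd, hmn h _ hQ0]
  have key : ∀ d, ¬ Q d → Vi S a d → ∀ h, S.Test c h → h d = h d0 := by
    intro d hq hd h ht
    rw [← hmn h d hq]
    exact ha.vis h2 (fun x y h0 => (hc x y h0).1) (hmt h ht).1 (hmt h ht).2 (hmi h ht) hd
  have tr : ∀ d, ¬ Q d → Vi S a d → Vi S c d := fun d hq hd =>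
    ⟨d0, B0, fun h ht => (key d hq hd h ht).symm⟩
  have vm : ∀ d, s (S.M.v d) ≠ s (S.M.v (S.M.α d)) → ¬ Q d → Vi S c d := fun d hd hq =>
    ⟨d0, B0, fun h ht => by
      have := hmi h ht d hd
      rw [hmn h _ hq] at this
      exact this.symm⟩
  have brc : ∀ d, Br S c d → ∀ h : D → ℝ, S.Test c h → h d = h d0 := by
    intro d hd h ht
    have hq := (Qo d hd.op).1
    by_cases h1 : s (S.M.v d) = s (S.M.v (S.M.α d))
    · exact key d hq (Br.vi ⟨hd.1, (hc _ _ h1).2 hd.2⟩) h ht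
    · have := hmi h ht d h1
      rwa [hmn h _ hq] at this
  refine ⟨fun h ht d d' hd hd' => ?_, fun x hx => ?_, fun d hd => ?_, fun d hd => ?_⟩
  · rw [brc d hd h ht, brc d' hd' h ht]
  · obtain ⟨d, hd, hvd⟩ := ha.live x hx
    by_cases hq : Q d
    · obtain ⟨d', e1, e2, e3⟩ := Qv d hq
      refine ⟨d', e1.trans hd, ?_⟩
      rcases e3 with e3 | e3
      · exact vm d' e3 e2
      · have := (vm _ e3 (fun h4 => e2 ((Qφ _).1 ((Qφ _).1 h4)))).φ
        rwa [S.M.φ3] at this
    · exact ⟨d, hd, tr d hq hvd⟩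
  · rcases req d hd with h0 | h0
    · exact tr d (fun hq => hd (Qu d hq)) h0
    · exact h0
  · by_cases h1 : s (S.M.v d) = s (S.M.v (S.M.α d))
    · have q1 : ¬ Q d := fun hq => by
        rw [QL d hq h1] at hd
        exact absurd hd (by decide)
      have q2 : ¬ Q (S.M.α d) := fun hq => by
        have := QL _ hq (by rw [S.M.αα]; exact h1.symm)
        rw [W.L_α, hd] at this
        exact absurd this (by decide)
      rcases lab d hd with (h2 | h2) | h2
      · exact Or.inl (tr d q1 h2)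
      · exact Or.inr (tr _ q2 h2)
      · exact h2
    · rcases Qm d h1 with h2 | h2
      · exact Or.inl (vm d h1 h2)
      · exact Or.inr (vm _ (by rw [S.M.αα]; exact fun h3 => h1 h3.symm) h2)

/-- the units of one face are removed -/
noncomputable def unU (S : St D V) (d1 : D) : St D V :=
  open Classical in { S with u := fun d => if S.sc.r d1 d then 0 else S.u d }

/-- the solution after the removal of the units of a face -/
theorem MC.unm (hΔ : Δ ≤ 6) (h : MC Δ S L w) {d1 e1 : D} (he : S.sc.r d1 e1) (hu : S.u e1 ≠ 0) :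
    ∃ a, Nso S a ∧ (∀ d, S.sc.r d1 d → ¬ Vi S a d) ∧
      (∀ d, S.u d ≠ 0 → ¬ S.sc.r d1 d → Vi S a d) ∧
      (∀ d, L d = true → Vi S a d ∨ Vi S a (S.M.α d)) := by
  classical
  have W := h.ok.toWf
  have hu0 : ∀ d, (unU S d1).u d = if S.sc.r d1 d then 0 else S.u d := fun d => rfl
  have hle : ∀ d, (unU S d1).u d ≤ S.u d := fun d => by
    rw [hu0]; split_ifs <;> omega
  have hne : ∀ d, (unU S d1).u d ≠ 0 → ¬ S.sc.r d1 d ∧ S.u d ≠ 0 := fun d hd => by
    rw [hu0] at hd
    by_cases h0 : S.sc.r d1 d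
    · rw [if_pos h0] at hd; exact absurd rfl hd
    · rw [if_neg h0] at hd; exact ⟨h0, hd⟩
  have hfu : ∀ d, ¬ S.sc.r d1 d → fu (unU S d1) d = fu S d := by
    intro d hd
    show (∑ e, if S.sc.r d e then (unU S d1).u e else 0) = ∑ e, if S.sc.r d e then S.u e else 0
    refine Finset.sum_congr rfl fun e _ => ?_
    by_cases h0 : S.sc.r d e
    · rw [if_pos h0, if_pos h0, hu0,
        if_neg fun h1 => hd (S.sc.iseqv.trans h1 (S.sc.iseqv.symm h0))]
    · rw [if_neg h0, if_neg h0]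
  have wf : Wf Δ (unU S d1) L w :=
    { real_α := W.real_α
      real_A := W.real_A
      real_ne := W.real_ne
      A_im := W.A_im
      u_A := fun d hd => W.u_A d (hne d hd).2
      L_real := W.L_real
      L_α := W.L_α
      w_L := W.w_L
      w_α := W.w_α
      deg := fun x hx => by
        refine le_trans (Finset.sum_le_sum fun d _ => ?_) (W.deg x hx)
        have := hle d
        show (if S.M.v d = x then (if S.real d = true then 1 else 0) + (unU S d1).u d + w d
          else 0) ≤ if S.M.v d = x then (if S.real d = true then 1 else 0) + S.u d + w d else 0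
        by_cases h0 : S.M.v d = x
        · rw [if_pos h0, if_pos h0]; omega
        · rw [if_neg h0, if_neg h0]
      simple := W.simple
      ex := W.ex }
  have ok : Ok Δ (unU S d1) L w := by
    refine ok_of_rc wf (fun s k1 k2 => ?_) fun d hd => ?_
    · have : 4 ≤ S.rc s := h.cut4 hΔ k1 k2
      show 3 ≤ S.rc s
      omega
    · obtain ⟨n1, n2⟩ := hne d hd
      rcases h.ok.thr d n2 with h3 | ⟨e, e', q1, q2, q3, q4, q5, q6⟩
      · left; rw [hfu d n1]; exact h3
      · right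
        refine ⟨e, e', q1, q2, ?_, ?_, q5, q6⟩
        · rw [hu0, if_neg fun h1 => n1 (S.sc.iseqv.trans h1 (S.sc.iseqv.symm q1))]; exact q3
        · rw [hu0, if_neg fun h1 => n1 (S.sc.iseqv.trans h1 (S.sc.iseqv.symm q2))]; exact q4
  have hrq : rq (unU S d1) L < rq S L := by
    have e3 : n3 (unU S d1) = n3 S := rfl
    have e4 : ∑ d, (unU S d1).u d * cw (fu (unU S d1) d) < ∑ d, S.u d * cw (fu S d) := by
      refine Finset.sum_lt_sum (fun d _ => ?_) ⟨e1, Finset.mem_univ _, ?_⟩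
      · by_cases h0 : S.sc.r d1 d
        · rw [hu0, if_pos h0, Nat.zero_mul]; exact Nat.zero_le _
        · rw [hfu d h0, hu0, if_neg h0]
      · rw [hu0, if_pos he, Nat.zero_mul]
        exact Nat.mul_pos (Nat.pos_of_ne_zero hu) (cw_pos _)
    unfold rq
    rw [e3]
    omega
  obtain ⟨a, ha⟩ := h.min D V _ L w h.w1 ok (mu_lt_rq (le_of_eq rfl) hrq)
  have hvi : ∀ d, Vi (unU S d1) a d → Vi S a d := fun d hd => hd
  refine ⟨a, ⟨ha.con, ha.live⟩, fun d hd hv => ?_, fun d hd h0 => ?_, ha.lab⟩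
  · apply h.no
    refine ⟨a, ha.con, ha.live, fun e he' => ?_, ha.lab⟩
    by_cases h0 : S.sc.r d1 e
    · exact hv.sc (S.sc.iseqv.trans (S.sc.iseqv.symm hd) h0)
    · exact ha.req e (by rw [hu0, if_neg h0]; exact he')
  · exact ha.req d (by rw [hu0, if_neg h0]; exact hd)

/-- the real class of a solid triangle -/
theorem sc_fp (rα : ∀ d, S.real (S.M.α d) = S.real d) {k e : D}
    (hr : ∀ d, Fp S k d → S.real d = true) (h : S.sc.r k e) : Fp S k e := by
  classical
  have h1 : S.Cl (fun d => decide (Fp S k d)) := by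
    refine ⟨fun d => ?_, fun d hd => ?_⟩
    · exact decide_eq_decide.2 fp_φ
    · refine decide_eq_decide.2 ⟨fun h0 => ?_, fun h0 => ?_⟩
      · have := hr _ h0
        rw [rα, hd] at this
        exact absurd this (by decide)
      · have := hr _ h0
        rw [hd] at this
        exact absurd this (by decide)
  have h2 := S.cl_sc h1 h
  have h3 : Fp S k k := Or.inl rfl
  have h4 : decide (Fp S k k) = true := decide_eq_true h3
  rw [h2] at h4
  exact of_decide_eq_true h4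

/-- real darts of an unvisited face are monochromatic -/
theorem mono_unv {a : V → Bool} {d : D} (hn : ¬ Vi S a d) (hr : S.real d = true) :
    a (S.M.v d) = a (S.M.v (S.M.α d)) := by
  by_contra h0
  exact hn (Br.vi ⟨hr, h0⟩)

/-- the fourth cut edge -/
theorem kc_four [DecidableEq D] {s : V → Bool} (h4 : S.rc s = 4) {k1 k2 k3 : D} (K1 : k1 ∈ kc S s)
    (K2 : k2 ∈ kc S s) (K3 : k3 ∈ kc S s) (n12 : k1 ≠ k2) (n13 : k1 ≠ k3) (n23 : k2 ≠ k3) :
    ∃ k4, k4 ∈ kc S s ∧ kc S s = {k1, k2, k3, k4} ∧ k1 ≠ k4 ∧ k2 ≠ k4 ∧ k3 ≠ k4 := by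
  have hc : (kc S s).card = 4 := by rw [kc_card, h4]
  have hsub : ({k1, k2, k3} : Finset D) ⊆ kc S s := by
    intro x hx
    simp only [Finset.mem_insert, Finset.mem_singleton] at hx
    rcases hx with rfl | rfl | rfl <;> assumption
  have h3 : ({k1, k2, k3} : Finset D).card = 3 := Finset.card_eq_three.2
    ⟨k1, k2, k3, n12, n13, n23, rfl⟩
  have h1 : (kc S s \ {k1, k2, k3}).card = 1 := by
    rw [Finset.card_sdiff_of_subset hsub, hc, h3]
  obtain ⟨k4, hk⟩ := Finset.card_eq_one.1 h1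
  have hm : k4 ∈ kc S s \ {k1, k2, k3} := by rw [hk]; exact Finset.mem_singleton_self _
  rw [Finset.mem_sdiff] at hm
  have hn := hm.2
  simp only [Finset.mem_insert, Finset.mem_singleton, not_or] at hn
  refine ⟨k4, hm.1, ?_, fun h => hn.1 h.symm, fun h => hn.2.1 h.symm, fun h => hn.2.2 h.symm⟩
  rw [← Finset.sdiff_union_of_subset hsub, hk]
  ext x
  simp only [Finset.mem_union, Finset.mem_insert, Finset.mem_singleton]
  tauto

/-- the face of units and the plain triangle of a cut with four edges are not opposite -/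
theorem MC.oppc (hΔ : Δ ≤ 6) (h : MC Δ S L w) {s : V → Bool} (hT : ConS S.M s true)
    (hF : ConS S.M s false) (h4 : S.rc s = 4) {k1 k2 : D} (K1 : k1 ∈ kc S s) (K2 : k2 ∈ kc S s)
    (n12 : k1 ≠ k2) (f1 : S.sc.r k1 (S.M.α k2)) (P : Pt S L s k2) {e : D}
    (he : S.sc.r (S.M.α k1) e) (hu : S.u e ≠ 0) : False := by
  classical
  have W := h.ok.toWf
  have rα := W.real_α
  have rA := W.real_A
  have m1 := mem_kc.1 K1
  have m2 := mem_kc.1 K2
  -- the third cut edge
  obtain ⟨k3, K3, f2⟩ : ∃ k3, k3 ∈ kc S s ∧ Fp S k2 (S.M.α k3) := by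
    have r1 : S.real (S.M.φ k2) = true := P.real _ (Or.inr (Or.inl rfl))
    have r2 : S.real (S.M.φ (S.M.φ k2)) = true := P.real _ (Or.inr (Or.inr rfl))
    by_cases hz : s (S.M.v (S.M.φ (S.M.φ k2))) = true
    · refine ⟨S.M.α (S.M.φ k2), mem_kc.2 ⟨by rw [rα]; exact r1, ?_, ?_⟩, ?_⟩
      · rw [← S.M.vφ]; exact hz
      · rw [S.M.αα, S.M.vφ]; exact m2.2.2
      · rw [S.M.αα]; exact Or.inr (Or.inl rfl)
    · refine ⟨S.M.α (S.M.φ (S.M.φ k2)), mem_kc.2 ⟨by rw [rα]; exact r2, ?_, ?_⟩, ?_⟩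
      · rw [← S.M.vφ, S.M.φ3]; exact m2.2.1
      · rw [S.M.αα]; simpa using hz
      · rw [S.M.αα]; exact Or.inr (Or.inr rfl)
  have m3 := mem_kc.1 K3
  have q2 : Fp S k2 k2 := Or.inl rfl
  have nq2 : ¬ Fp S k2 (S.M.α k2) := fp_α W.real_ne P.real q2
  have nq3 : ¬ Fp S k2 k3 := by
    have := fp_α W.real_ne P.real f2
    rwa [S.M.αα] at this
  have n23 : k2 ≠ k3 := fun h0 => nq3 (h0 ▸ q2)
  have n13 : k1 ≠ k3 := by
    intro h0
    rw [← h0] at f2
    have h1 : S.sc.r k2 e := S.sc.iseqv.trans (fp_sc f2) he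
    exact hu (P.u e (sc_fp rα P.real h1))
  obtain ⟨k4, K4, hK, n14, n24, n34⟩ := kc_four h4 K1 K2 K3 n12 n13 n23
  have m4 := mem_kc.1 K4
  obtain ⟨a, ha, hn, hreq, hlab⟩ := h.unm hΔ he hu
  -- the side `true` with other colours
  obtain ⟨c, hc⟩ : ∃ c : V → Bool, ∀ x, c x = if s x = true then !a x else a x := ⟨_, fun _ => rfl⟩
  have cT : ∀ {x}, s x = true → c x = !a x := fun hx => by rw [hc, if_pos hx]
  have cF : ∀ {x}, s x = false → c x = a x := fun hx => by
    rw [hc, if_neg (by rw [hx]; decide)]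
  have hcc : ∀ x y, s x = s y → (a x ≠ a y ↔ c x ≠ c y) := by
    intro x y hxy
    cases hy : s y
    · rw [cF hy, cF (hxy.trans hy)]
    · rw [cT hy, cT (hxy.trans hy)]
      simp
  have hcr : ∀ k ∈ kc S s, a (S.M.v k) = a (S.M.v (S.M.α k)) →
      c (S.M.v k) ≠ c (S.M.v (S.M.α k)) := by
    intro k hk h0
    have := mem_kc.1 hk
    rw [cT this.2.1, cF this.2.2, h0]
    cases a (S.M.v (S.M.α k)) <;> decide
  -- the indicator of the face of the units
  have hg : S.Cl (fun d => if S.sc.r (S.M.α k1) d then (1 : ℝ) else 0) := by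
    refine ⟨fun d => ?_, fun d hd => ?_⟩
    · exact if_congr (scφ _ _) rfl rfl
    · exact if_congr (scα hd _) rfl rfl
  obtain ⟨g, gd⟩ : ∃ g : D → ℝ, g = fun d => if S.sc.r (S.M.α k1) d then (1 : ℝ) else 0 := ⟨_, rfl⟩
  rw [← gd] at hg
  have g1 : ∀ d, S.sc.r (S.M.α k1) d → g d = 1 := fun d hd => by rw [gd]; exact if_pos hd
  have g0 : ∀ d, ¬ S.sc.r (S.M.α k1) d → g d = 0 := fun d hd => by rw [gd]; exact if_neg hd
  have gs := cut_idT (s := s) (c := fun _ => true) rα hg.1 hg.2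
    (fun d _ _ hd => absurd rfl hd) (fun _ => (1 : ℝ))
  rw [sum4 hK n12 n13 n14 n23 n24 n34] at gs
  have e1 : g k1 = g (S.M.α k2) := S.cl_sc hg f1
  have e2 : g k2 = g (S.M.α k3) := S.cl_sc hg (fp_sc f2)
  have e3 : g (S.M.α k1) = 1 := g1 _ (S.sc.iseqv.refl _)
  have e4 : g k3 + g k4 - g (S.M.α k4) = 1 := by
    rw [← e2, ← e1, e3] at gs
    linarith
  -- the equations of a test function
  have b1 : c (S.M.v k1) ≠ c (S.M.v (S.M.α k1)) := by
    refine hcr k1 K1 ?_
    have := mono_unv (hn _ (S.sc.iseqv.refl _)) (by rw [rα]; exact m1.1)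
    rw [S.M.αα] at this
    exact this.symm
  have B1 : Br S c k1 := ⟨m1.1, b1⟩
  have hreq' : ∀ d, S.u d ≠ 0 → Vi S a d ∨ Vi S c d := by
    intro d hd
    by_cases h0 : S.sc.r (S.M.α k1) d
    · exact Or.inr ((Br.vi (B1.α rα)).sc h0)
    · exact Or.inl (hreq d hd h0)
  have h2 : ∀ b, ∃ x ∈ S.A, s x = b := by
    intro b
    cases b
    · exact ⟨_, rA _ (by rw [rα]; exact m1.1), m1.2.2⟩
    · exact ⟨_, rA _ m1.1, m1.2.1⟩
  have hs1 : ∀ h' : D → ℝ, S.Test c h' → (h' k1 - h' (S.M.α k1)) + (h' k2 - h' (S.M.α k2)) +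
      (h' k3 - h' (S.M.α k3)) + (h' k4 - h' (S.M.α k4)) = 0 := by
    intro h' ht
    have := cut_idT (s := s) (c := c) rα ht.1 (fun d hd => ht.2 d (Or.inl hd))
      (fun d _ _ hd => ht.2 d (Or.inr hd)) (fun _ => (1 : ℝ))
    rw [sum4 hK n12 n13 n14 n23 n24 n34] at this
    linarith
  -- all differences vanish
  have fin0 : (∀ h' : D → ℝ, S.Test c h' → ∀ k ∈ kc S s, h' (S.M.α k) = h' k) → False := by
    intro hinv
    refine h.no ⟨c, ?_⟩
    refine ha.glue W h2 hcc (Q := fun _ => False) (fun _ => Iff.rfl) (fun _ _ => ⟨id, id⟩) B1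
      (fun h' ht _ d hd => inv_of rα hT hF ht (hinv h' ht) hd (mix_kc K1))
      (fun _ h => h.elim) (fun _ h => h.elim) (fun _ h => h.elim) (fun _ _ => Or.inl id) hreq'
      (fun d hd => Or.inl (hlab d hd))
  by_cases h3 : S.sc.r (S.M.α k1) k3
  · -- the third edge is at the face of the units
    have b3 : c (S.M.v k3) ≠ c (S.M.v (S.M.α k3)) := hcr k3 K3 (mono_unv (hn _ h3) m3.1)
    refine fin0 fun h' ht k hk => ?_
    have hcl : S.Cl h' := ⟨ht.1, fun d hd => ht.2 d (Or.inl hd)⟩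
    have t1 := ht.2 k1 (Or.inr b1)
    have t3 := ht.2 k3 (Or.inr b3)
    have t2 : h' (S.M.α k2) = h' k2 := by
      rw [← S.cl_sc hcl f1, ← t1, S.cl_sc hcl h3, ← t3, S.cl_sc hcl (fp_sc f2)]
    have t4 := hs1 h' ht
    rw [hK] at hk
    simp only [Finset.mem_insert, Finset.mem_singleton] at hk
    rcases hk with rfl | rfl | rfl | rfl
    · exact t1
    · exact t2
    · exact t3
    · linarith
  · have g3 := g0 _ h3
    have h4' : S.sc.r (S.M.α k1) k4 := by
      by_contra h0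
      have g4 := g0 _ h0
      have : g (S.M.α k4) = 0 ∨ g (S.M.α k4) = 1 := by
        by_cases h5 : S.sc.r (S.M.α k1) (S.M.α k4)
        · exact Or.inr (g1 _ h5)
        · exact Or.inl (g0 _ h5)
      rcases this with h5 | h5 <;> rw [g3, g4, h5] at e4 <;> norm_num at e4
    have b4 : c (S.M.v k4) ≠ c (S.M.v (S.M.α k4)) := hcr k4 K4 (mono_unv (hn _ h4') m4.1)
    by_cases x2 : c (S.M.v k2) = c (S.M.v (S.M.α k2))
    swap
    · refine fin0 fun h' ht k hk => ?_
      have t1 := ht.2 k1 (Or.inr b1)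
      have t2 := ht.2 k2 (Or.inr x2)
      have t4 := ht.2 k4 (Or.inr b4)
      have t3 := hs1 h' ht
      rw [hK] at hk
      simp only [Finset.mem_insert, Finset.mem_singleton] at hk
      rcases hk with rfl | rfl | rfl | rfl
      · exact t1
      · exact t2
      · linarith
      · exact t4
    by_cases x3 : c (S.M.v k3) = c (S.M.v (S.M.α k3))
    swap
    · refine fin0 fun h' ht k hk => ?_
      have t1 := ht.2 k1 (Or.inr b1)
      have t3 := ht.2 k3 (Or.inr x3)
      have t4 := ht.2 k4 (Or.inr b4)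
      have t2 := hs1 h' ht
      rw [hK] at hk
      simp only [Finset.mem_insert, Finset.mem_singleton] at hk
      rcases hk with rfl | rfl | rfl | rfl
      · exact t1
      · linarith
      · exact t3
      · exact t4
    -- the triangle is monochromatic
    have v3 : (S.M.α k3 = S.M.φ k2 ∧ S.M.v (S.M.φ (S.M.φ k2)) = S.M.v k3) ∨
        (S.M.α k3 = S.M.φ (S.M.φ k2) ∧ S.M.v (S.M.φ (S.M.φ k2)) = S.M.v (S.M.α k3)) := by
      rcases f2 with h0 | h0 | h0
      · exfalso
        have a1 := m2.2.1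
        have a2 := m3.2.2
        rw [h0, a1] at a2
        exact absurd a2 (by decide)
      · left
        refine ⟨h0, ?_⟩
        rw [S.M.vφ, ← h0, S.M.αα]
      · right
        exact ⟨h0, by rw [h0]⟩
    have me : c (S.M.v k2) = c (S.M.v k3) := by
      rcases v3 with ⟨h0, -⟩ | ⟨h0, -⟩
      · rw [x3, h0, S.M.vφ, x2]
      · have h5 : S.M.v k3 = S.M.v k2 := by
          have h6 : S.M.v (S.M.φ (S.M.α k3)) = S.M.v k3 := by rw [S.M.vφ, S.M.αα]
          rw [← h6, h0, S.M.φ3]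
        rw [h5]
    have hcol : ∀ d, Fp S k2 d → c (S.M.v d) = c (S.M.v k2) := by
      rintro d (rfl | rfl | rfl)
      · rfl
      · rw [S.M.vφ]; exact x2.symm
      · rcases v3 with ⟨-, h0⟩ | ⟨-, h0⟩
        · rw [h0]; exact me.symm
        · rw [h0, ← x3]; exact me.symm
    have hmono : ∀ d, Fp S k2 d → ¬ S.Op c d := by
      rintro d hd (h0 | h0)
      · rw [P.real d hd] at h0
        exact absurd h0 (by decide)
      · apply h0
        rw [← S.M.vφ, hcol d hd, hcol _ (fp_φ.2 hd)]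
    have opα : ∀ d, S.Op c d → S.Op c (S.M.α d) := by
      rintro d (h0 | h0)
      · left; rw [rα]; exact h0
      · right; rw [S.M.αα]; exact h0.symm
    have Qo : ∀ d, S.Op c d → ¬ Fp S k2 d ∧ ¬ Fp S k2 (S.M.α d) := fun d ho =>
      ⟨fun h0 => hmono d h0 ho, fun h0 => hmono _ h0 (opα d ho)⟩
    refine h.no ⟨c, ?_⟩
    refine ha.glue W h2 hcc (Q := Fp S k2) (fun _ => fp_φ) Qo B1 (fun h' ht hq d hd => ?_)
      (fun d hd => ?_) P.u P.lab (fun d _ => ?_) hreq' (fun d hd => Or.inl (hlab d hd))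
    · have t1 := ht.2 k1 (Or.inr b1)
      have t4 := ht.2 k4 (Or.inr b4)
      have t0 := hs1 h' ht
      have hcl : S.Cl h' := ⟨ht.1, fun d hd => ht.2 d (Or.inl hd)⟩
      have t2 : h' (S.M.α k2) = h' k2 := by
        rw [hq k2 q2, ← S.cl_sc hcl f1]
      refine inv_of rα hT hF ht (fun k hk => ?_) hd (mix_kc K1)
      rw [hK] at hk
      simp only [Finset.mem_insert, Finset.mem_singleton] at hk
      rcases hk with rfl | rfl | rfl | rfl
      · exact t1
      · exact t2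
      · linarith
      · exact t4
    · rcases hd with rfl | rfl | rfl
      · refine ⟨S.M.φ (S.M.α d), by rw [S.M.vφ, S.M.αα], fun h0 => nq2 (fp_φ.1 h0), Or.inr ?_⟩
        rw [S.M.φ3, S.M.αα]
        exact (mix_kc K2).symm
      · refine ⟨S.M.α k2, (S.M.vφ k2).symm, nq2, Or.inl ?_⟩
        rw [S.M.αα]
        exact (mix_kc K2).symm
      · rcases v3 with ⟨-, h0⟩ | ⟨-, h0⟩
        · exact ⟨k3, h0.symm, nq3, Or.inl (mix_kc K3)⟩
        · refine ⟨S.M.φ k3, by rw [S.M.vφ]; exact h0.symm, fun h5 => nq3 (fp_φ.1 h5), Or.inr ?_⟩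
          rw [S.M.φ3]
          exact mix_kc K3
    · by_cases h0 : Fp S k2 d
      · exact Or.inr (fp_α W.real_ne P.real h0)
      · exact Or.inl h0

theorem conS_neg5 {s : V → Bool} {b : Bool} (h : ConS S.M s b) :
    ConS S.M (fun x => !s x) (!b) := by
  intro f hf d d' hd hd'
  refine h f (fun e h3 h4 => hf e ?_ ?_) d d' ?_ ?_
  · show (!s _) = !b
    rw [h3]
  · show (!s _) = !b
    rw [h4]
  · simpa using hd
  · simpa using hd'

/-- three consecutive faces at a vertex, separated by two edges of a cut: a plain triangle and a face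
with units -/
theorem MC.opp (hΔ : Δ ≤ 6) (h : MC Δ S L w) {t t2 : D} (rt : S.real t = true)
    (r2 : S.real t2 = true) (nt : t2 ≠ t) (v2 : S.M.v t2 = S.M.v t)
    (f1 : S.sc.r (S.M.α t) t2) {s : V → Bool} (hx : ∃ x ∈ S.A, s x = true)
    (hy : ∃ x ∈ S.A, s x = false) (c1 : s (S.M.v t) ≠ s (S.M.v (S.M.α t)))
    (c2 : s (S.M.v t) ≠ s (S.M.v (S.M.α t2)))
    (F : (Pt S L s (S.M.α t2) ∧ ∃ e, S.sc.r t e ∧ S.u e ≠ 0) ∨
      (Pt S L s t ∧ ∃ e, S.sc.r (S.M.α t2) e ∧ S.u e ≠ 0)) : 5 ≤ S.rc s := by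
  classical
  have W := h.ok.toWf
  have rα := W.real_α
  have rA := W.real_A
  have rA' : ∀ d, S.real d = true → S.M.v (S.M.α d) ∈ S.A := fun d hd =>
    rA _ (by rw [rα]; exact hd)
  by_contra hlt
  have h4 : S.rc s = 4 := by
    have := h.cut4 hΔ hx hy
    omega
  obtain ⟨s1, a1, a2, hT, hF⟩ := h.ext hΔ (s := s) (by omega) hx hy
  have tr : ∀ x, Pt S L s x → Pt S L s1 x := fun x P => ⟨P.real, P.u, fun d hd hs =>
    P.lab d hd (by rw [← a1 _ (rA _ (P.real d hd)), ← a1 _ (rA' _ (P.real d hd))]; exact hs)⟩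
  rw [h4] at a2
  rw [← a1 _ (rA _ rt), ← a1 _ (rA' _ rt)] at c1
  rw [← a1 _ (rA _ rt), ← a1 _ (rA' _ r2)] at c2
  have neg4 : S.rc (fun x => !s1 x) = 4 := by rw [rc_neg rα]; exact a2
  have hT' : ConS S.M (fun x => !s1 x) true := conS_neg5 hF
  have hF' : ConS S.M (fun x => !s1 x) false := conS_neg5 hT
  have keyL : ∀ s : V → Bool, ConS S.M s true → ConS S.M s false → S.rc s = 4 →
      s (S.M.v t) = false → s (S.M.v (S.M.α t)) = true → s (S.M.v (S.M.α t2)) = true →
      Pt S L s (S.M.α t2) → (∃ e, S.sc.r t e ∧ S.u e ≠ 0) → False := by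
    rintro s hT hF h4 s0 s1 s2 P ⟨e, he, hu⟩
    refine h.oppc hΔ hT hF h4 (k1 := S.M.α t) (k2 := S.M.α t2)
      (mem_kc.2 ⟨by rw [rα]; exact rt, s1, by rw [S.M.αα]; exact s0⟩)
      (mem_kc.2 ⟨by rw [rα]; exact r2, s2, by rw [S.M.αα, v2]; exact s0⟩)
      (fun h0 => nt (S.M.αinj h0).symm) (by rw [S.M.αα]; exact f1) P (e := e)
      (by rw [S.M.αα]; exact he) hu
  have keyR : ∀ s : V → Bool, ConS S.M s true → ConS S.M s false → S.rc s = 4 →
      s (S.M.v t) = true → s (S.M.v (S.M.α t)) = false → s (S.M.v (S.M.α t2)) = false →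
      Pt S L s t → (∃ e, S.sc.r (S.M.α t2) e ∧ S.u e ≠ 0) → False := by
    rintro s hT hF h4 s0 s1 s2 P ⟨e, he, hu⟩
    exact h.oppc hΔ hT hF h4 (k1 := t2) (k2 := t)
      (mem_kc.2 ⟨r2, by rw [v2]; exact s0, s2⟩) (mem_kc.2 ⟨rt, s0, s1⟩) nt
      (S.sc.iseqv.symm f1) P he hu
  rcases F with ⟨P, hu⟩ | ⟨P, hu⟩
  · cases sy : s1 (S.M.v t)
    · rw [sy] at c1 c2
      exact keyL s1 hT hF a2 sy (by simpa using c1.symm) (by simpa using c2.symm) (tr _ P) hu
    · rw [sy] at c1 c2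
      refine keyL (fun x => !s1 x) hT' hF' neg4 ?_ ?_ ?_ (tr _ P).neg hu
      · show (!s1 _) = false
        rw [sy]; rfl
      · show (!s1 _) = true
        have : s1 (S.M.v (S.M.α t)) = false := by simpa using c1.symm
        rw [this]; rfl
      · show (!s1 _) = true
        have : s1 (S.M.v (S.M.α t2)) = false := by simpa using c2.symm
        rw [this]; rfl
  · cases sy : s1 (S.M.v t)
    · rw [sy] at c1 c2
      refine keyR (fun x => !s1 x) hT' hF' neg4 ?_ ?_ ?_ (tr _ P).neg hu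
      · show (!s1 _) = true
        rw [sy]; rfl
      · show (!s1 _) = false
        have : s1 (S.M.v (S.M.α t)) = true := by simpa using c1.symm
        rw [this]; rfl
      · show (!s1 _) = false
        have : s1 (S.M.v (S.M.α t2)) = true := by simpa using c2.symm
        rw [this]; rfl
    · rw [sy] at c1 c2
      exact keyR s1 hT hF a2 sy (by simpa using c1.symm) (by simpa using c2.symm) (tr _ P) hu

/-- three consecutive faces at a vertex: the first one at `t` and the third one -/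
theorem MC.oppx (hΔ : Δ ≤ 6) (h : MC Δ S L w) {t t2 : D} (rt : S.real t = true)
    (r2 : S.real t2 = true)
    (h2 : t2 = S.M.σ t ∨ (t2 = S.M.σ (S.M.σ t) ∧ S.real (S.M.σ t) = false))
    {s : V → Bool} (hx : ∃ x ∈ S.A, s x = true)
    (hy : ∃ x ∈ S.A, s x = false) (c1 : s (S.M.v t) ≠ s (S.M.v (S.M.α t)))
    (c2 : s (S.M.v t) ≠ s (S.M.v (S.M.α t2)))
    (F : (Pt S L s (S.M.α t2) ∧ fu S t ≠ 0) ∨ (Pt S L s t ∧ fu S (S.M.α t2) ≠ 0)) :
    5 ≤ S.rc s := by
  classical
  have W := h.ok.toWf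
  have hfu : ∀ d, fu S d ≠ 0 → ∃ e, S.sc.r d e ∧ S.u e ≠ 0 := by
    intro d hd
    by_contra h0
    push Not at h0
    refine hd (Finset.sum_eq_zero fun e _ => ?_)
    by_cases h1 : S.sc.r d e
    · rw [if_pos h1]; exact h0 e h1
    · exact if_neg h1
  have r4 := h.rdeg4 hΔ (W.real_A _ rt)
  have v2 : S.M.v t2 = S.M.v t := by
    rcases h2 with h2 | ⟨h2, -⟩
    · rw [h2, S.M.vσ]
    · rw [h2, S.M.vσ, S.M.vσ]
  have nt : t2 ≠ t := by
    rcases h2 with h2 | ⟨h2, -⟩
    · intro h0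
      rw [h2] at h0
      exact σσ_ne r4 (by rw [h0, h0])
    · rw [h2]; exact σσ_ne r4
  have f1 : S.sc.r (S.M.α t) t2 := by
    have e1 : S.sc.r (S.M.α t) (S.M.σ t) := (scφ _ _).2 (S.sc.iseqv.refl _)
    rcases h2 with h2 | ⟨h2, h3⟩
    · rw [h2]; exact e1
    · rw [h2]
      exact (scφ _ _).2 ((scα h3 _).2 e1)
  exact h.opp hΔ rt r2 nt v2 f1 hx hy c1 c2
    (F.imp (fun h0 => ⟨h0.1, hfu _ h0.2⟩) fun h0 => ⟨h0.1, hfu _ h0.2⟩)

/-- the labels without one edge -/
def unL [DecidableEq D] (S : St D V) (L : D → Bool) (k : D) (d : D) : Bool :=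
  L d && !decide (d = k) && !decide (d = S.M.α k)

/-- the solution after the removal of a label -/
theorem MC.unl [DecidableEq D] (hΔ : Δ ≤ 6) (h : MC Δ S L w) {k : D} (hk : L k = true) :
    ∃ a, Nso S a ∧ ¬ Vi S a k ∧ ¬ Vi S a (S.M.α k) ∧ (∀ d, S.u d ≠ 0 → Vi S a d) ∧
      (∀ d, L d = true → (d = k ∨ d = S.M.α k) ∨ Vi S a d ∨ Vi S a (S.M.α d)) := by
  classical
  have W := h.ok.toWf
  have hw1 := h.w1
  have hL : ∀ d, unL S L k d = true → L d = true := fun d hd => by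
    unfold unL at hd
    rw [Bool.and_eq_true, Bool.and_eq_true] at hd
    exact hd.1.1
  have hLk : unL S L k k = false := by
    unfold unL
    rw [decide_eq_true rfl]
    simp
  obtain ⟨w', hw'⟩ : ∃ w' : D → ℕ, ∀ d, w' d = if unL S L k d = true then 1 else 0 :=
    ⟨_, fun _ => rfl⟩
  have hle : ∀ d, w' d ≤ w d := fun d => by
    rw [hw', hw1]
    by_cases h0 : unL S L k d = true
    · rw [if_pos h0, if_pos (hL d h0)]
    · rw [if_neg h0]; exact Nat.zero_le _
  have hLα : ∀ d, unL S L k (S.M.α d) = unL S L k d := fun d => by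
    unfold unL
    rw [W.L_α]
    have e1 : decide (S.M.α d = k) = decide (d = S.M.α k) := decide_eq_decide.2
      ⟨fun h0 => by rw [← h0, S.M.αα], fun h0 => by rw [h0, S.M.αα]⟩
    have e2 : decide (S.M.α d = S.M.α k) = decide (d = k) := decide_eq_decide.2
      ⟨fun h0 => S.M.αinj h0, fun h0 => by rw [h0]⟩
    rw [e1, e2, Bool.and_assoc, Bool.and_assoc, Bool.and_comm (!decide (d = S.M.α k))]
  have wf : Wf Δ S (unL S L k) w' :=
    { real_α := W.real_α
      real_A := W.real_A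
      real_ne := W.real_ne
      A_im := W.A_im
      u_A := W.u_A
      L_real := fun d hd => W.L_real d (hL d hd)
      L_α := hLα
      w_L := fun d hd => by
        by_contra h0
        rw [hw', if_neg h0] at hd
        exact hd rfl
      w_α := fun d => by rw [hw', hw', hLα]
      deg := fun x hx => by
        refine le_trans (Finset.sum_le_sum fun d _ => ?_) (W.deg x hx)
        have := hle d
        by_cases h0 : S.M.v d = x
        · rw [if_pos h0, if_pos h0]; omega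
        · rw [if_neg h0, if_neg h0]
      simple := W.simple
      ex := W.ex }
  have ok : Ok Δ S (unL S L k) w' := by
    refine ok_of_rc wf (fun s k1 k2 => ?_) fun d hd => h.ok.thr d hd
    have : 4 ≤ S.rc s := h.cut4 hΔ k1 k2
    omega
  have hrq : rq S (unL S L k) < rq S L := by
    have e4 : ∑ d, (if unL S L k d = true then 1 else 0) < ∑ d, (if L d = true then 1 else 0) := by
      refine Finset.sum_lt_sum (fun d _ => ?_) ⟨k, Finset.mem_univ _, ?_⟩
      · have := hle d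
        rwa [hw', hw1] at this
      · rw [hLk, if_pos hk, if_neg (by decide)]; exact Nat.one_pos
    unfold rq
    omega
  obtain ⟨a, ha⟩ := h.min D V _ _ w' hw' ok (mu_lt_rq (le_of_eq rfl) hrq)
  have hlab : ∀ d, L d = true → (d = k ∨ d = S.M.α k) ∨ Vi S a d ∨ Vi S a (S.M.α d) := by
    intro d hd
    by_cases h1 : d = k
    · exact Or.inl (Or.inl h1)
    by_cases h2 : d = S.M.α k
    · exact Or.inl (Or.inr h2)
    refine Or.inr (ha.lab d ?_)
    unfold unL
    rw [hd, decide_eq_false h1, decide_eq_false h2]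
    rfl
  have hno : ¬ (Vi S a k ∨ Vi S a (S.M.α k)) := by
    intro h0
    apply h.no
    refine ⟨a, ha.con, ha.live, ha.req, fun d hd => ?_⟩
    rcases hlab d hd with (h1 | h1) | h1
    · rw [h1]; exact h0
    · rw [h1, S.M.αα]; exact h0.symm
    · exact h1
  exact ⟨a, ⟨ha.con, ha.live⟩, fun h0 => hno (Or.inl h0), fun h0 => hno (Or.inr h0), ha.req, hlab⟩

/-- a labelled edge of a cut with connected sides -/
theorem MC.labc (hΔ : Δ ≤ 6) (h : MC Δ S L w) {s : V → Bool} (hT : ConS S.M s true)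
    (hF : ConS S.M s false) (h4 : S.rc s = 4) {k : D} (K : k ∈ kc S s) (hk : L k = true) : False := by
  classical
  have W := h.ok.toWf
  have rα := W.real_α
  have rA := W.real_A
  have m1 := mem_kc.1 K
  obtain ⟨a, ha, hn1, hn2, hreq, hlab⟩ := h.unl hΔ hk
  obtain ⟨c, hc⟩ : ∃ c : V → Bool, ∀ x, c x = if s x = true then !a x else a x := ⟨_, fun _ => rfl⟩
  have cT : ∀ {x}, s x = true → c x = !a x := fun hx => by rw [hc, if_pos hx]
  have cF : ∀ {x}, s x = false → c x = a x := fun hx => by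
    rw [hc, if_neg (by rw [hx]; decide)]
  have hcc : ∀ x y, s x = s y → (a x ≠ a y ↔ c x ≠ c y) := by
    intro x y hxy
    cases hy : s y
    · rw [cF hy, cF (hxy.trans hy)]
    · rw [cT hy, cT (hxy.trans hy)]
      simp
  have hcr : ∀ k ∈ kc S s, a (S.M.v k) = a (S.M.v (S.M.α k)) →
      c (S.M.v k) ≠ c (S.M.v (S.M.α k)) := by
    intro k hk h0
    have := mem_kc.1 hk
    rw [cT this.2.1, cF this.2.2, h0]
    cases a (S.M.v (S.M.α k)) <;> decide
  -- the indicator of the two faces of the labelled edge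
  obtain ⟨g, gd⟩ : ∃ g : D → ℝ,
      g = fun d => if S.sc.r k d ∨ S.sc.r (S.M.α k) d then (1 : ℝ) else 0 := ⟨_, rfl⟩
  have hg : S.Cl g := by
    rw [gd]
    refine ⟨fun d => ?_, fun d hd => ?_⟩
    · exact if_congr (or_congr (scφ _ _) (scφ _ _)) rfl rfl
    · exact if_congr (or_congr (scα hd _) (scα hd _)) rfl rfl
  have g1 : ∀ d, (S.sc.r k d ∨ S.sc.r (S.M.α k) d) → g d = 1 := fun d hd => by
    rw [gd]; exact if_pos hd
  have g0 : ∀ d, ¬ (S.sc.r k d ∨ S.sc.r (S.M.α k) d) → g d = 0 := fun d hd => by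
    rw [gd]; exact if_neg hd
  have hn : ∀ d, (S.sc.r k d ∨ S.sc.r (S.M.α k) d) → ¬ Vi S a d := by
    rintro d (h0 | h0) hv
    · exact hn1 (hv.sc (S.sc.iseqv.symm h0))
    · exact hn2 (hv.sc (S.sc.iseqv.symm h0))
  have gα : ∀ {h' : D → ℝ}, S.Test c h' → ∀ k' ∈ kc S s, g k' = 1 ∨ g (S.M.α k') = 1 →
      h' (S.M.α k') = h' k' := by
    intro h' ht k' hk' h0
    have m := mem_kc.1 hk'
    refine ht.2 k' (Or.inr (hcr k' hk' ?_))
    rcases h0 with h0 | h0
    · refine mono_unv (hn k' ?_) m.1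
      by_contra h2
      rw [g0 _ h2] at h0
      norm_num at h0
    · have h3 : ¬ Vi S a (S.M.α k') := by
        refine hn _ ?_
        by_contra h2
        rw [g0 _ h2] at h0
        norm_num at h0
      have := mono_unv h3 (by rw [rα]; exact m.1)
      rw [S.M.αα] at this
      exact this.symm
  have gz : ∀ d, g d = 0 ∨ g d = 1 := fun d => by
    by_cases h5 : S.sc.r k d ∨ S.sc.r (S.M.α k) d
    · exact Or.inr (g1 _ h5)
    · exact Or.inl (g0 _ h5)
  have ek : g k = 1 := g1 _ (Or.inl (S.sc.iseqv.refl _))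
  have ek' : g (S.M.α k) = 1 := g1 _ (Or.inr (S.sc.iseqv.refl _))
  -- the other cut edges
  have hc3 : ((kc S s).erase k).card = 3 := by
    rw [Finset.card_erase_of_mem K, kc_card, h4]
  obtain ⟨k2, k3, k4, n23, n24, n34, hE⟩ := Finset.card_eq_three.1 hc3
  have hmem : ∀ x, x ∈ (kc S s).erase k ↔ x = k2 ∨ x = k3 ∨ x = k4 := by
    intro x; rw [hE]; simp
  have E2 := Finset.mem_erase.1 ((hmem k2).2 (Or.inl rfl))
  have E3 := Finset.mem_erase.1 ((hmem k3).2 (Or.inr (Or.inl rfl)))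
  have E4 := Finset.mem_erase.1 ((hmem k4).2 (Or.inr (Or.inr rfl)))
  have hK : kc S s = {k, k2, k3, k4} := by
    rw [← Finset.insert_erase K, hE]
  have n12 : k ≠ k2 := fun h0 => E2.1 h0.symm
  have n13 : k ≠ k3 := fun h0 => E3.1 h0.symm
  have n14 : k ≠ k4 := fun h0 => E4.1 h0.symm
  have gs := cut_idT (s := s) (c := fun _ => true) rα hg.1 hg.2
    (fun d _ _ hd => absurd rfl hd) (fun _ => (1 : ℝ))
  rw [sum4 hK n12 n13 n14 n23 n24 n34, ek, ek'] at gs
  have hs1 : ∀ h' : D → ℝ, S.Test c h' → (h' k - h' (S.M.α k)) + (h' k2 - h' (S.M.α k2)) +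
      (h' k3 - h' (S.M.α k3)) + (h' k4 - h' (S.M.α k4)) = 0 := by
    intro h' ht
    have := cut_idT (s := s) (c := c) rα ht.1 (fun d hd => ht.2 d (Or.inl hd))
      (fun d _ _ hd => ht.2 d (Or.inr hd)) (fun _ => (1 : ℝ))
    rw [sum4 hK n12 n13 n14 n23 n24 n34] at this
    linarith
  -- the face function is not constant on the cut
  have gt : S.Test (fun _ => true) g := ⟨hg.1, fun d hd => by
    rcases hd with hd | hd
    · exact hg.2 d hd
    · exact absurd rfl hd⟩
  have nc : ∀ k' ∈ kc S s, g k' = 0 → ¬ ∀ k'' ∈ kc S s, g (S.M.α k'') = g k'' := by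
    intro k' hk' h0 hall
    have := inv_of rα hT hF gt hall (mix_kc K) (mix_kc hk')
    rw [ek, h0] at this
    norm_num at this
  have b1 : c (S.M.v k) ≠ c (S.M.v (S.M.α k)) := by
    refine hcr k K ?_
    have := mono_unv hn1 m1.1
    exact this
  have B1 : Br S c k := ⟨m1.1, b1⟩
  have h2 : ∀ b, ∃ x ∈ S.A, s x = b := by
    intro b
    cases b
    · exact ⟨_, rA _ (by rw [rα]; exact m1.1), m1.2.2⟩
    · exact ⟨_, rA _ m1.1, m1.2.1⟩
  have hinv : ∀ h' : D → ℝ, S.Test c h' → ∀ k' ∈ kc S s, h' (S.M.α k') = h' k' := by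
    intro h' ht
    have t0 := gα ht
    have t1 := ht.2 k (Or.inr b1)
    have t2 := hs1 h' ht
    have D : ∀ x ∈ kc S s, (h' (S.M.α x) = h' x) ∨ (g x = 0 ∧ g (S.M.α x) = 0) := by
      intro x hx
      rcases gz x with h5 | h5
      · rcases gz (S.M.α x) with h6 | h6
        · exact Or.inr ⟨h5, h6⟩
        · exact Or.inl (t0 x hx (Or.inr h6))
      · exact Or.inl (t0 x hx (Or.inl h5))
    have fin : h' (S.M.α k2) = h' k2 → h' (S.M.α k3) = h' k3 → h' (S.M.α k4) = h' k4 →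
        ∀ k' ∈ kc S s, h' (S.M.α k') = h' k' := by
      intro c2 c3 c4 k' hk'
      rw [hK] at hk'
      simp only [Finset.mem_insert, Finset.mem_singleton] at hk'
      rcases hk' with rfl | rfl | rfl | rfl
      · exact t1
      · exact c2
      · exact c3
      · exact c4
    have bad : ∀ k' ∈ kc S s, g k' = 0 → g (S.M.α k2) = g k2 → g (S.M.α k3) = g k3 →
        g (S.M.α k4) = g k4 → False := by
      intro k' hk' h0 c2 c3 c4
      refine nc k' hk' h0 fun x hx => ?_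
      rw [hK] at hx
      simp only [Finset.mem_insert, Finset.mem_singleton] at hx
      rcases hx with rfl | rfl | rfl | rfl
      · rw [ek, ek']
      · exact c2
      · exact c3
      · exact c4
    rcases D k2 E2.2 with c2 | c2
    · rcases D k3 E3.2 with c3 | c3
      · exact fin c2 c3 (by linarith)
      · rcases D k4 E4.2 with c4 | c4
        · exact fin c2 (by linarith) c4
        · exact (bad k3 E3.2 c3.1 (by linarith [c3.1, c3.2, c4.1, c4.2]) (by rw [c3.1, c3.2])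
            (by rw [c4.1, c4.2])).elim
    · rcases D k3 E3.2 with c3 | c3
      · rcases D k4 E4.2 with c4 | c4
        · exact fin (by linarith) c3 c4
        · exact (bad k2 E2.2 c2.1 (by rw [c2.1, c2.2]) (by linarith [c2.1, c2.2, c4.1, c4.2])
            (by rw [c4.1, c4.2])).elim
      · exact (bad k2 E2.2 c2.1 (by rw [c2.1, c2.2]) (by rw [c3.1, c3.2])
          (by linarith [c2.1, c2.2, c3.1, c3.2])).elim
  refine h.no ⟨c, ?_⟩
  refine ha.glue W h2 hcc (Q := fun _ => False) (fun _ => Iff.rfl) (fun _ _ => ⟨id, id⟩) B1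
    (fun h' ht _ d hd => inv_of rα hT hF ht (hinv h' ht) hd (mix_kc K))
    (fun _ h => h.elim) (fun _ h => h.elim) (fun _ h => h.elim) (fun _ _ => Or.inl id)
    (fun d hd => Or.inl (hreq d hd)) (fun d hd => ?_)
  rcases hlab d hd with (h0 | h0) | h0
  · rw [h0]; exact Or.inr (Or.inl B1.vi)
  · rw [h0, S.M.αα]; exact Or.inr (Or.inr B1.vi)
  · exact Or.inl h0

/-- a cut which contains a labelled edge -/
theorem MC.lab5 (hΔ : Δ ≤ 6) (h : MC Δ S L w) {k : D} (hk : L k = true) {s : V → Bool}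
    (hs : s (S.M.v k) ≠ s (S.M.v (S.M.α k))) : 5 ≤ S.rc s := by
  classical
  have W := h.ok.toWf
  have rα := W.real_α
  have rk := W.L_real k hk
  have A1 : S.M.v k ∈ S.A := W.real_A _ rk
  have A2 : S.M.v (S.M.α k) ∈ S.A := W.real_A _ (by rw [rα]; exact rk)
  by_contra hlt
  have hx : ∀ b, ∃ x ∈ S.A, s x = b := by
    intro b
    by_cases h0 : s (S.M.v k) = b
    · exact ⟨_, A1, h0⟩
    · refine ⟨_, A2, ?_⟩
      cases b <;> cases h1 : s (S.M.v k) <;> cases h2 : s (S.M.v (S.M.α k)) <;> simp_all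
  have h4 : S.rc s = 4 := by
    have := h.cut4 hΔ (hx true) (hx false)
    omega
  obtain ⟨s1, a1, a2, hT, hF⟩ := h.ext hΔ (s := s) (by omega) (hx true) (hx false)
  rw [h4] at a2
  rw [← a1 _ A1, ← a1 _ A2] at hs
  cases sy : s1 (S.M.v k)
  · rw [sy] at hs
    have s2 : s1 (S.M.v (S.M.α k)) = true := by simpa using hs.symm
    exact h.labc hΔ hT hF a2 (k := S.M.α k)
      (mem_kc.2 ⟨by rw [rα]; exact rk, s2, by rw [S.M.αα]; exact sy⟩) (by rw [W.L_α]; exact hk)
  · rw [sy] at hs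
    have s2 : s1 (S.M.v (S.M.α k)) = false := by simpa using hs.symm
    exact h.labc hΔ hT hF a2 (mem_kc.2 ⟨rk, sy, s2⟩) hk

end Pool.FC7
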