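import Pool.Agent.FC7.Q5M

/-! # Three consecutive edges of a cut at one vertex

`MC.c3`: a cut with at least two alive vertices on both sides which contains three consecutive edges at
a core vertex has at least five edges, if one of the two faces before and after these three edges has at
most four edges. -/

open Finset

set_option linter.unusedSectionVars false

namespace Pool.FC7

open Pool.FC6 Pool.FC6.St

variable {D V : Type} [Fintype D] [DecidableEq V] {S : St D V} {L : D → Bool} {w : D → ℕ} {Δ : ℕ}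
  {U : V → Prop}

/-- at most half of the edges at a vertex belong to a cut with four edges -/
theorem MC.half4 (hΔ : Δ ≤ 6) (h : MC Δ S L w) {s : V → Bool} (h4 : S.rc s = 4)
    (h2 : S.Two s false) {y : V} (X : Finset D)
    (hne : X.Nonempty) (hX : ∀ d ∈ X, d ∈ kc S s ∧ S.M.v (S.M.α d) = y) :
    2 * X.card ≤ S.rdeg y := by
  classical
  have W := h.ok.toWf
  have rα := W.real_α
  have rA := W.real_A
  obtain ⟨z, hzA, hzy, hzs⟩ : ∃ z ∈ S.A, z ≠ y ∧ s z = false := by
    obtain ⟨z1, k1, z2, k2, k3, k4, k5⟩ := h2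
    by_cases h0 : z1 = y
    · exact ⟨z2, k2, fun h6 => k3 (h0.trans h6.symm), k5⟩
    · exact ⟨z1, k1, h0, k4⟩
  obtain ⟨s', hs'⟩ : ∃ s' : V → Bool, ∀ x, s' x = if x = y then true else s x :=
    ⟨_, fun _ => rfl⟩
  obtain ⟨d0, hd0⟩ := hne
  obtain ⟨e1, e2, e3⟩ := mem_kc.1 (hX d0 hd0).1
  have h5 : 4 ≤ S.rc s' := h.cut4 hΔ ⟨_, rA d0 e1, by
    rw [hs']
    split_ifs
    · rfl
    · exact e2⟩ ⟨z, hzA, by rw [hs', if_neg hzy]; exact hzs⟩
  obtain ⟨Y, hY⟩ : ∃ Y : Finset D, Y = Finset.univ.filter fun d => S.real d = true ∧ S.M.v d = y ∧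
      s (S.M.v (S.M.α d)) = false := ⟨_, rfl⟩
  have h6 : kc S s' ⊆ (kc S s \ X) ∪ Y := by
    intro d hd
    obtain ⟨d1, d2, d3⟩ := mem_kc.1 hd
    have d4 : S.M.v (S.M.α d) ≠ y := fun h0 => by
      rw [hs', if_pos h0] at d3
      exact absurd d3 (by decide)
    rw [hs', if_neg d4] at d3
    by_cases d5 : S.M.v d = y
    · refine Finset.mem_union_right _ ?_
      rw [hY]
      exact Finset.mem_filter.2 ⟨Finset.mem_univ _, d1, d5, d3⟩
    · rw [hs', if_neg d5] at d2
      exact Finset.mem_union_left _ (Finset.mem_sdiff.2 ⟨mem_kc.2 ⟨d1, d2, d3⟩, fun h0 =>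
        d4 (hX d h0).2⟩)
  have h7 := (Finset.card_le_card h6).trans (Finset.card_union_le _ _)
  rw [kc_card, Finset.card_sdiff_of_subset (fun d hd => (hX d hd).1), kc_card, h4] at h7
  have h8 : X.card ≤ 4 := by
    rw [← h4, ← kc_card]
    exact Finset.card_le_card fun d hd => (hX d hd).1
  -- the darts at `y`
  have h9 : X.card + Y.card ≤ S.rdeg y := by
    have e4 : S.rdeg y = (Finset.univ.filter fun d => S.M.v d = y ∧ S.real d = true).card := by
      rw [Finset.card_filter]
      rfl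
    have e5 : (X.image S.M.α).card = X.card :=
      Finset.card_image_of_injective _ S.M.αinj
    rw [e4, ← e5, ← Finset.card_union_of_disjoint]
    · refine Finset.card_le_card fun d hd => ?_
      rcases Finset.mem_union.1 hd with hd | hd
      · obtain ⟨e, he, rfl⟩ := Finset.mem_image.1 hd
        refine Finset.mem_filter.2 ⟨Finset.mem_univ _, (hX e he).2, ?_⟩
        rw [rα]
        exact (mem_kc.1 (hX e he).1).1
      · rw [hY] at hd
        obtain ⟨-, a1, a2, a3⟩ := Finset.mem_filter.1 hd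
        exact Finset.mem_filter.2 ⟨Finset.mem_univ _, a2, a1⟩
    · rw [Finset.disjoint_left]
      intro d hd hd'
      obtain ⟨e, he, rfl⟩ := Finset.mem_image.1 hd
      rw [hY] at hd'
      obtain ⟨-, -, -, a3⟩ := Finset.mem_filter.1 hd'
      rw [S.M.αα, (mem_kc.1 (hX e he).1).2.1] at a3
      exact absurd a3 (by decide)
  omega

/-- a real dart of a face with a centre -/
theorem hub_c3 (W : Wf Δ S L w) (hS : IsStar S) {a b : D} (ra : S.real a = true)
    (ha : S.real (S.M.φ a) = false) (rb : S.real b = true) (h0 : S.sc.r a b) :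
    S.M.v (S.M.φ (S.M.φ b)) = S.M.v (S.M.φ (S.M.φ a)) := by
  have rα := W.real_α
  have rA := W.real_A
  have hd := hS.dead a ra ha
  have h9 : S.sc.r (S.M.φ (S.M.φ a)) b :=
    S.sc.iseqv.trans (S.sc.iseqv.symm ((scφ _ _).2 ((scφ _ _).2 (S.sc.iseqv.refl a)))) h0
  rw [hS.sc_star W hd] at h9
  rcases h9 with h9 | h9 | h9
  · rw [← h9] at hd
    exact absurd (rA _ rb) hd
  · rw [← h9, S.M.vφ] at hd
    exact absurd (rA (S.M.α b) (by rw [rα]; exact rb)) hd
  · exact h9

/-- the real darts at a vertex, `r`, `m` are the real darts after `t` -/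
theorem cyc3 {t r m : D} (o1 : r = S.M.σ t ∨ (S.real (S.M.σ t) = false ∧ r = S.M.σ (S.M.σ t)))
    (o2 : m = S.M.σ r ∨ (S.real (S.M.σ r) = false ∧ m = S.M.σ (S.M.σ r))) {j : ℕ}
    (hj : S.M.σ^[j + 1] m = t) : S.rdeg (S.M.v t) ≤
      3 + ((Finset.range j).filter fun i => S.real (S.M.σ^[i + 1] m) = true).card := by
  classical
  have e4 : S.rdeg (S.M.v t) =
      (Finset.univ.filter fun d => S.M.v d = S.M.v t ∧ S.real d = true).card := by
    rw [Finset.card_filter]
    rfl
  have hP : ∀ n, (S.M.σ^[n] t = t ∨ S.M.σ^[n] t = S.M.σ t ∨ S.M.σ^[n] t = r ∨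
      S.M.σ^[n] t = S.M.σ r ∨ ∃ i < j + 1, S.M.σ^[n] t = S.M.σ^[i] m) := by
    intro n
    induction n with
    | zero => exact Or.inl rfl
    | succ n ih =>
      rw [Function.iterate_succ_apply']
      rcases ih with ih | ih | ih | ih | ⟨i, hi, ih⟩
      · exact Or.inr (Or.inl (by rw [ih]))
      · rcases o1 with o1 | ⟨-, o1⟩
        · exact Or.inr (Or.inr (Or.inr (Or.inl (by rw [ih, o1]))))
        · exact Or.inr (Or.inr (Or.inl (by rw [ih, o1])))
      · exact Or.inr (Or.inr (Or.inr (Or.inl (by rw [ih]))))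
      · rcases o2 with o2 | ⟨-, o2⟩
        · rcases Nat.eq_zero_or_pos j with h0 | h0
          · left
            rw [ih, ← o2]
            rw [h0] at hj
            exact hj
          · refine Or.inr (Or.inr (Or.inr (Or.inr ⟨1, by omega, ?_⟩)))
            rw [ih, ← o2]
            rfl
        · refine Or.inr (Or.inr (Or.inr (Or.inr ⟨0, by omega, ?_⟩)))
          rw [ih, o2]
          rfl
      · rcases Nat.lt_or_ge (i + 1) (j + 1) with h0 | h0
        · refine Or.inr (Or.inr (Or.inr (Or.inr ⟨i + 1, h0, ?_⟩)))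
          rw [ih, Function.iterate_succ_apply']
        · left
          rw [ih, ← Function.iterate_succ_apply' S.M.σ i m]
          have h7 : i = j := by omega
          rw [← h7] at hj
          exact hj
  rw [e4]
  have hsub : (Finset.univ.filter fun d => S.M.v d = S.M.v t ∧ S.real d = true) ⊆
      ({t, r, m} : Finset D) ∪ (((Finset.range j).filter fun i =>
        S.real (S.M.σ^[i + 1] m) = true).image fun i => S.M.σ^[i + 1] m) := by
    intro d hd
    obtain ⟨-, d1, d2⟩ := Finset.mem_filter.1 hd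
    obtain ⟨n, hn⟩ := S.M.σ_orbit d1.symm
    have h0 := hP n
    rw [hn] at h0
    rcases h0 with h0 | h0 | h0 | h0 | ⟨i, hi, h0⟩
    · exact Finset.mem_union_left _ (by simp [h0])
    · rcases o1 with o1 | ⟨o1, -⟩
      · exact Finset.mem_union_left _ (by simp [h0, o1])
      · rw [h0, o1] at d2
        exact absurd d2 (by decide)
    · exact Finset.mem_union_left _ (by simp [h0])
    · rcases o2 with o2 | ⟨o2, -⟩
      · exact Finset.mem_union_left _ (by simp [h0, o2])
      · rw [h0, o2] at d2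
        exact absurd d2 (by decide)
    · rcases Nat.eq_zero_or_pos i with h1 | h1
      · refine Finset.mem_union_left _ ?_
        rw [h1] at h0
        simp [h0]
      · refine Finset.mem_union_right _ (Finset.mem_image.2 ⟨i - 1, Finset.mem_filter.2
          ⟨Finset.mem_range.2 (by omega), ?_⟩, ?_⟩)
        · rw [show i - 1 + 1 = i by omega, ← h0]
          exact d2
        · show S.M.σ^[i - 1 + 1] m = d
          rw [show i - 1 + 1 = i by omega, ← h0]
  refine (Finset.card_le_card hsub).trans ((Finset.card_union_le _ _).trans ?_)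
  exact Nat.add_le_add Finset.card_le_three Finset.card_image_le

section three

variable (hΔ : Δ ≤ 6) (h : MC Δ S L w) (hS : IsStar S) {s : V → Bool} {t r m : D}
  (hf : ∀ d, S.real d = true → S.M.v d = S.M.v t → Fc3 S d)
  (rt : S.real t = true) (rr : S.real r = true) (rm : S.real m = true)
  (o1 : r = S.M.σ t ∨ (S.real (S.M.σ t) = false ∧ r = S.M.σ (S.M.σ t)))
  (o2 : m = S.M.σ r ∨ (S.real (S.M.σ r) = false ∧ m = S.M.σ (S.M.σ r)))
  (h4 : S.rc s = 4) (h2 : S.Two s false) (K1 : S.M.α t ∈ kc S s) (K2 : S.M.α r ∈ kc S s)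
  (K3 : S.M.α m ∈ kc S s)

include hΔ h hS hf rt rr rm o1 o2 h4 h2 K1 K2 K3

theorem MC.c3a (sm : S.real (S.M.φ t) = true ∨
      S.M.σ^[4] (S.M.φ (S.M.φ t)) = S.M.φ (S.M.φ t) ∨ S.real (S.M.σ m) = true ∨
      S.M.σ^[4] (S.M.α (S.M.σ m)) = S.M.α (S.M.σ m)) : False := by
  classical
  have W := h.ok.toWf
  have rα := W.real_α
  have rA := W.real_A
  have rA' : ∀ d, S.real d = true → S.M.v (S.M.α d) ∈ S.A := fun d hd =>
    rA _ (by rw [rα]; exact hd)
  have hN := (h.rg hΔ).n2 hS W (by omega)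
  have yA := rA _ rt
  have vr : S.M.v r = S.M.v t := by
    rcases o1 with rfl | ⟨-, rfl⟩
    · exact S.M.vσ t
    · rw [S.M.vσ, S.M.vσ]
  have vm : S.M.v m = S.M.v t := by
    rcases o2 with rfl | ⟨-, rfl⟩
    · rw [S.M.vσ, vr]
    · rw [S.M.vσ, S.M.vσ, vr]
  obtain ⟨-, s1, s1'⟩ := mem_kc.1 K1
  obtain ⟨-, s2, s2'⟩ := mem_kc.1 K2
  obtain ⟨-, s3, s3'⟩ := mem_kc.1 K3
  rw [S.M.αα] at s1' s2' s3'
  have d4 := h.rdeg4 hΔ yA
  have it : ∀ n, 0 < n → n < 4 → S.M.σ^[n] t ≠ t := by
    intro n h0 h1 h5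
    have h6 := rdeg_le_iter (S := S) h0 h5
    have h7 := Finset.card_filter_le (Finset.range n) fun i => S.real (S.M.σ^[i] t) = true
    rw [Finset.card_range] at h7
    omega
  have n12 : t ≠ r := by
    rintro rfl
    rcases o1 with o1 | ⟨-, o1⟩
    · exact it 1 (by norm_num) (by norm_num) o1.symm
    · exact it 2 (by norm_num) (by norm_num) o1.symm
  have n23 : r ≠ m := by
    intro h0
    have d4' := h.rdeg4 hΔ (rA _ rr)
    rcases o2 with o2 | ⟨-, o2⟩
    · have h6 := rdeg_le_iter (S := S) (n := 1) (by norm_num) (y := r) (by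
        show S.M.σ r = r
        rw [← o2, h0])
      have h7 := Finset.card_filter_le (Finset.range 1) fun i => S.real (S.M.σ^[i] r) = true
      rw [Finset.card_range] at h7
      omega
    · have h6 := rdeg_le_iter (S := S) (n := 2) (by norm_num) (y := r) (by
        show S.M.σ (S.M.σ r) = r
        rw [← o2, h0])
      have h7 := Finset.card_filter_le (Finset.range 2) fun i => S.real (S.M.σ^[i] r) = true
      rw [Finset.card_range] at h7
      omega
  have n13 : t ≠ m := by
    intro h0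
    rcases o1 with o1 | ⟨o1', o1⟩
    · rcases o2 with o2 | ⟨-, o2⟩
      · exact it 2 (by norm_num) (by norm_num) (by
          show S.M.σ (S.M.σ t) = t
          rw [← o1, ← o2, h0])
      · exact it 3 (by norm_num) (by norm_num) (by
          show S.M.σ (S.M.σ (S.M.σ t)) = t
          rw [← o1, ← o2, h0])
    · rcases o2 with o2 | ⟨-, o2⟩
      · exact it 3 (by norm_num) (by norm_num) (by
          show S.M.σ (S.M.σ (S.M.σ t)) = t
          rw [← o1, ← o2, h0])
      · have h5 : S.M.σ^[4] t = t := by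
          show S.M.σ (S.M.σ (S.M.σ (S.M.σ t))) = t
          rw [← o1, ← o2, h0]
        have h6 := rdeg_le_iter (S := S) (n := 4) (by norm_num) h5
        have h7 : ((Finset.range 4).filter fun i => S.real (S.M.σ^[i] t) = true) ⊆
            (Finset.range 4).erase 1 := by
          intro i hi
          obtain ⟨a1, a2⟩ := Finset.mem_filter.1 hi
          refine Finset.mem_erase.2 ⟨fun a3 => ?_, a1⟩
          rw [a3] at a2
          exact absurd (o1'.symm.trans a2) (by decide)
        have h8 := Finset.card_le_card h7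
        rw [Finset.card_erase_of_mem (by simp), Finset.card_range] at h8
        omega
  -- six real edges
  have αne : ∀ {a b : D}, a ≠ b → S.M.α a ≠ S.M.α b := fun h0 h1 => h0 (S.M.αinj h1)
  have d6 : 6 ≤ S.rdeg (S.M.v t) := by
    have h0 := h.half4 hΔ h4 h2 {S.M.α t, S.M.α r, S.M.α m} ⟨S.M.α t, by simp⟩ (by
      intro d hd
      simp only [Finset.mem_insert, Finset.mem_singleton] at hd
      rcases hd with rfl | rfl | rfl
      · exact ⟨K1, by rw [S.M.αα]⟩
      · exact ⟨K2, by rw [S.M.αα, vr]⟩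
      · exact ⟨K3, by rw [S.M.αα, vm]⟩)
    rw [Finset.card_insert_of_notMem (by simp [αne n12, αne n13]),
      Finset.card_pair (αne n23)] at h0
    omega
  have d6' : S.rdeg (S.M.v t) ≤ 6 := (rdeg_le W _).trans hΔ
  -- the fourth edge
  obtain ⟨k4, K4, x1, x2, x3⟩ : ∃ k4 ∈ kc S s, S.M.α t ≠ k4 ∧ S.M.α r ≠ k4 ∧ S.M.α m ≠ k4 := by
    by_contra hc
    push Not at hc
    have h0 : kc S s ⊆ {S.M.α t, S.M.α r, S.M.α m} := by
      intro d hd
      simp only [Finset.mem_insert, Finset.mem_singleton]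
      by_contra h1
      push Not at h1
      exact h1.2.2 (hc d hd (fun h5 => h1.1 h5.symm) (fun h5 => h1.2.1 h5.symm)).symm
    have h5 := Finset.card_le_card h0
    rw [kc_card, h4] at h5
    have h6 : ({S.M.α t, S.M.α r, S.M.α m} : Finset D).card ≤ 3 := Finset.card_le_three
    omega
  obtain ⟨r4, s4, s4'⟩ := mem_kc.1 K4
  have no4 : S.M.v (S.M.α k4) ≠ S.M.v t := by
    intro hv
    have h0 := h.half4 hΔ h4 h2 {S.M.α t, S.M.α r, S.M.α m, k4} ⟨S.M.α t, by simp⟩ (by
      intro d hd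
      simp only [Finset.mem_insert, Finset.mem_singleton] at hd
      rcases hd with rfl | rfl | rfl | rfl
      · exact ⟨K1, by rw [S.M.αα]⟩
      · exact ⟨K2, by rw [S.M.αα, vr]⟩
      · exact ⟨K3, by rw [S.M.αα, vm]⟩
      · exact ⟨K4, hv⟩)
    rw [Finset.card_insert_of_notMem (by simp [αne n12, αne n13, x1]),
      Finset.card_insert_of_notMem (by simp [αne n23, x2]), Finset.card_pair x3] at h0
    omega
  have cyc : ∀ j, j < 3 → S.M.σ^[j + 1] m ≠ t := by
    intro j hj h0
    have h5 := cyc3 o1 o2 h0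
    have h6 := Finset.card_filter_le (Finset.range j) fun i => S.real (S.M.σ^[i + 1] m) = true
    rw [Finset.card_range] at h6
    omega
  have cyc4 : S.real (S.M.σ m) = false → S.M.σ^[4] m ≠ t := by
    intro hv h0
    have h5 := cyc3 o1 o2 (j := 3) h0
    have h7 : ((Finset.range 3).filter fun i => S.real (S.M.σ^[i + 1] m) = true) ⊆
        (Finset.range 3).erase 0 := by
      intro i hi
      obtain ⟨a1, a2⟩ := Finset.mem_filter.1 hi
      refine Finset.mem_erase.2 ⟨fun a3 => ?_, a1⟩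
      rw [a3] at a2
      exact absurd (hv.symm.trans a2) (by decide)
    have h8 := Finset.card_le_card h7
    rw [Finset.card_erase_of_mem (by simp), Finset.card_range] at h8
    omega
  have mt : S.M.v (S.M.α m) ≠ S.M.v (S.M.α t) := fun h0 => n13 (hN _ yA t m rfl vm h0.symm)
  -- darts in terms of `φ`
  have σφ : ∀ d, S.M.φ (S.M.α d) = S.M.σ d := fun _ => rfl
  have φ3 : ∀ d, S.M.φ (S.M.φ (S.M.φ d)) = d := S.M.φ3
  have φinj : ∀ a b, S.M.φ a = S.M.φ b → a = b := fun a b h0 => by
    rw [← φ3 a, h0, φ3]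
  have hα : ∀ d, S.M.v (S.M.α d) = S.M.v (S.M.φ d) := fun d => (S.M.vφ d).symm
  -- the faces
  have g1 : S.sc.r (S.M.α t) r := by
    have e1 : S.sc.r (S.M.α t) (S.M.σ t) := (scφ _ _).2 (S.sc.iseqv.refl _)
    rcases o1 with o1 | ⟨o1', o1⟩
    · rw [o1]; exact e1
    · rw [o1]
      exact (scφ _ _).2 ((scα o1' (S.M.α t)).2 e1)
  have g2 : S.sc.r (S.M.α r) m := by
    have e1 : S.sc.r (S.M.α r) (S.M.σ r) := (scφ _ _).2 (S.sc.iseqv.refl _)
    rcases o2 with o2 | ⟨o2', o2⟩
    · rw [o2]; exact e1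
    · rw [o2]
      exact (scφ _ _).2 ((scα o2' (S.M.α r)).2 e1)
  have rm' : S.real (S.M.α m) = true := by rw [rα]; exact rm
  have r4' : S.real (S.M.α k4) = true := by rw [rα]; exact r4
  -- solid faces
  have sol : ∀ d, S.real d = true → S.real (S.M.φ d) = true → ∀ e, Fp S d e → S.real e = true := by
    rintro d h0 h1 e (rfl | rfl | rfl)
    · exact h0
    · exact h1
    · exact hS.two d h0 h1
  have g3 : ¬ S.sc.r t (S.M.α m) := by
    intro h0
    cases h1 : S.real (S.M.φ t)
    · have h5 := hub_c3 W hS rt h1 rm' h0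
      have h6 : S.M.σ m = S.M.α (S.M.φ (S.M.φ t)) :=
        hN _ yA _ _ (by rw [S.M.vσ, vm]) (by rw [hα, φ3]) (by
          rw [S.M.αα, hα, ← σφ]; exact h5)
      refine cyc 1 (by norm_num) ?_
      show S.M.σ (S.M.σ m) = t
      rw [h6, ← σφ, S.M.αα, φ3]
    · rcases fp_of_sc rα (sol t rt h1) h0 with h5 | h5 | h5
      · exact W.real_ne _ rm (by rw [h5, vm])
      · exact mt (by rw [h5, hα])
      · refine cyc 0 (by norm_num) ?_
        show S.M.σ m = t
        rw [← σφ, h5, φ3]
  obtain ⟨P1, P2⟩ : S.sc.r t k4 ∧ S.sc.r (S.M.α m) (S.M.α k4) := by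
    have hK : kc S s = {S.M.α t, S.M.α r, S.M.α m, k4} := by
      symm
      refine Finset.eq_of_subset_of_card_le (fun d hd => ?_) ?_
      · simp only [Finset.mem_insert, Finset.mem_singleton] at hd
        rcases hd with rfl | rfl | rfl | rfl <;> assumption
      · rw [kc_card, h4, Finset.card_insert_of_notMem (by simp [αne n12, αne n13, x1]),
          Finset.card_insert_of_notMem (by simp [αne n23, x2]), Finset.card_pair x3]
    have hid : ∀ d, (fci S d (S.M.α t) - fci S d t) + (fci S d (S.M.α r) - fci S d r) +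
        (fci S d (S.M.α m) - fci S d m) + (fci S d k4 - fci S d (S.M.α k4)) = 0 := by
      intro d
      have h1 := fc_id (s := s) rα (fci_cl (S := S) d)
      rw [sum4 hK (αne n12) (αne n13) x1 (αne n23) x2 x3, S.M.αα, S.M.αα, S.M.αα] at h1
      exact h1
    have eq1 : ∀ d, fci S d r = fci S d (S.M.α t) := fun d => (cl_sc (fci_cl d) g1).symm
    have eq2 : ∀ d, fci S d (S.M.α r) = fci S d m := fun d => cl_sc (fci_cl d) g2
    have nb := fun {d : D} (hd : S.real d = true) => h.nobr hΔ hS hd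
    have lo : ∀ d e, 0 ≤ fci S d e := fun d e => by
      unfold fci
      split_ifs <;> norm_num
    have po : ∀ d e, 0 < fci S d e → S.sc.r d e := fun d e h0 => by
      by_contra h1
      rw [fci_zero h1] at h0
      exact lt_irrefl _ h0
    constructor
    · have c1 := hid t
      rw [eq1, eq2, fci_zero (nb rt), fci_one (S.sc.iseqv.refl t), fci_zero g3] at c1
      refine po _ _ ?_
      have := lo t (S.M.α k4)
      linarith
    · have c1 := hid (S.M.α m)
      have e1 : ¬ S.sc.r (S.M.α m) t := fun h0 => g3 (S.sc.iseqv.symm h0)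
      have e2 : ¬ S.sc.r (S.M.α m) m := fun h0 => nb rm (S.sc.iseqv.symm h0)
      rw [eq1, eq2, fci_zero e1, fci_zero e2, fci_one (S.sc.iseqv.refl (S.M.α m))] at c1
      refine po _ _ ?_
      have := lo (S.M.α m) k4
      linarith
  have k4t : k4 ≠ t := fun h0 => by
    rw [h0, s1'] at s4
    exact absurd s4 (by decide)
  have k4m : S.M.α k4 ≠ S.M.α m := fun h0 => by
    rw [S.M.αinj h0, s3'] at s4
    exact absurd s4 (by decide)
  -- the face before `t` with a centre
  have hub4 : S.real (S.M.φ t) = false → S.M.v (S.M.φ (S.M.φ k4)) = S.M.v (S.M.φ (S.M.φ t)) :=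
    fun h0 => hub_c3 W hS rt h0 r4 P1
  have hub3 : S.real (S.M.σ m) = false → S.M.v (S.M.φ (S.M.φ (S.M.α k4))) = S.M.v (S.M.φ (S.M.σ m)) :=
    fun h0 => hub_c3 W hS rm' h0 r4' P2
  -- solid faces
  have tri4 : S.real (S.M.φ t) = true → k4 = S.M.φ t := by
    intro h0
    rcases fp_of_sc rα (sol t rt h0) P1 with h5 | h5 | h5
    · exact absurd h5 k4t
    · exact h5
    · exact absurd (by rw [hα, h5, φ3]) no4
  have tri3 : S.real (S.M.σ m) = true → S.M.α k4 = S.M.φ (S.M.σ m) := by
    intro h0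
    rcases fp_of_sc rα (sol (S.M.α m) rm' h0) P2 with h5 | h5 | h5
    · exact absurd h5 k4m
    · exact absurd (by rw [h5, σφ, S.M.vσ, vm]) no4
    · exact h5
  -- (1) the head of `k4` on the side of `t`
  have Q1 : S.M.v k4 ≠ S.M.v (S.M.α t) := by
    intro hv
    cases h0 : S.real (S.M.σ m)
    · rcases hf t rt rfl (S.M.σ m) (S.M.φ (S.M.α k4)) (by rw [S.M.vσ, vm])
        (by rw [S.M.vφ, S.M.αα]; exact hv) (by rw [hα, hα]; exact (hub3 h0).symm) with
        ⟨h5, -⟩ | ⟨h5, -⟩
      · exact n13 (S.M.σinj h5).symm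
      · exact cyc 1 (by norm_num) h5
    · have h5 := tri3 h0
      refine mt ?_
      rw [← hv]
      have h6 : S.M.v k4 = S.M.v (S.M.φ (S.M.α k4)) := by rw [S.M.vφ, S.M.αα]
      rw [h6, h5, ← σφ, φ3]
  -- (2) the tail of `k4` is the vertex before the face before `t`
  have Q2 : ∀ g, S.real g = true → S.M.v g = S.M.v t →
      (S.M.σ g = t ∨ S.M.σ (S.M.σ g) = t) → S.M.v (S.M.α k4) ≠ S.M.v (S.M.α g) := by
    intro g rg vg hg hv
    cases h0 : S.real (S.M.σ m)
    · rcases hf g rg vg (S.M.σ m) (S.M.α (S.M.φ (S.M.φ (S.M.α k4)))) (by rw [S.M.vσ, vm, vg])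
        (by rw [hα, φ3]; exact hv) (by rw [S.M.αα, hα]; exact (hub3 h0).symm) with
        ⟨h5, -⟩ | ⟨h5, -⟩
      · have h6 := S.M.σinj h5
        rcases hg with hg | hg
        · exact cyc 0 (by norm_num) (by show S.M.σ m = t; rw [h6]; exact hg)
        · exact cyc 1 (by norm_num) (by show S.M.σ (S.M.σ m) = t; rw [h6]; exact hg)
      · rcases hg with hg | hg
        · exact cyc 2 (by norm_num) (by
            show S.M.σ (S.M.σ (S.M.σ m)) = t
            rw [h5]; exact hg)
        · exact cyc4 h0 (by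
            show S.M.σ (S.M.σ (S.M.σ (S.M.σ m))) = t
            rw [h5]; exact hg)
    · have h5 := tri3 h0
      have h6 : S.M.σ m = g := hN _ yA _ _ (by rw [S.M.vσ, vm]) vg (by
        rw [hα, ← h5]; exact hv)
      rcases hg with hg | hg
      · exact cyc 1 (by norm_num) (by show S.M.σ (S.M.σ m) = t; rw [h6]; exact hg)
      · exact cyc 2 (by norm_num) (by show S.M.σ (S.M.σ (S.M.σ m)) = t; rw [h6]; exact hg)
  -- (3) the head of `k4` on the side of `m`
  have Q3 : S.M.v k4 ≠ S.M.v (S.M.α m) := by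
    intro hv
    cases h0 : S.real (S.M.φ t)
    · have e1 : S.M.σ (S.M.α (S.M.φ (S.M.φ t))) = t := by rw [← σφ, S.M.αα, φ3]
      rcases hf m rm vm (S.M.α (S.M.φ (S.M.φ t))) (S.M.α (S.M.φ (S.M.φ k4)))
        (by rw [hα, φ3, vm]) (by rw [hα, φ3]; exact hv)
        (by rw [S.M.αα, S.M.αα]; exact (hub4 h0).symm) with ⟨h5, -⟩ | ⟨h5, -⟩
      · exact cyc 1 (by norm_num) (by show S.M.σ (S.M.σ m) = t; rw [← h5]; exact e1)
      · exact n13 (e1.symm.trans h5)
    · have h5 := tri4 h0
      exact mt (by rw [← hv, h5, hα])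
  -- (4) the tail of `k4` is the vertex after the face after `m`
  have Q4 : ∀ n, S.real n = true → S.M.v n = S.M.v t →
      (n = S.M.σ m ∨ (S.real (S.M.σ m) = false ∧ n = S.M.σ (S.M.σ m))) →
      S.M.v (S.M.α k4) ≠ S.M.v (S.M.α n) := by
    intro n rn vn hn hv
    cases h0 : S.real (S.M.φ t)
    · have e1 : S.M.σ (S.M.α (S.M.φ (S.M.φ t))) = t := by rw [← σφ, S.M.αα, φ3]
      rcases hf n rn vn (S.M.α (S.M.φ (S.M.φ t))) (S.M.φ k4)
        (by rw [hα, φ3, vn]) (by rw [← hα]; exact hv)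
        (by rw [S.M.αα, hα]; exact (hub4 h0).symm) with ⟨h5, -⟩ | ⟨h5, -⟩
      · rcases hn with hn | ⟨h6, hn⟩
        · exact cyc 2 (by norm_num) (by
            show S.M.σ (S.M.σ (S.M.σ m)) = t
            rw [← hn, ← h5]; exact e1)
        · exact cyc4 h6 (by
            show S.M.σ (S.M.σ (S.M.σ (S.M.σ m))) = t
            rw [← hn, ← h5]; exact e1)
      · rcases hn with hn | ⟨h6, hn⟩
        · exact cyc 0 (by norm_num) (by
            show S.M.σ m = t
            rw [← hn, ← h5]; exact e1)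
        · exact cyc 1 (by norm_num) (by
            show S.M.σ (S.M.σ m) = t
            rw [← hn, ← h5]; exact e1)
    · have h5 := tri4 h0
      have h6 : n = S.M.α (S.M.φ (S.M.φ t)) := hN _ yA _ _ vn (by rw [hα, φ3]) (by
        rw [S.M.αα, ← hv, hα, h5])
      have e1 : S.M.σ n = t := by rw [h6, ← σφ, S.M.αα, φ3]
      rcases hn with hn | ⟨h7, hn⟩
      · exact cyc 1 (by norm_num) (by show S.M.σ (S.M.σ m) = t; rw [← hn]; exact e1)
      · exact cyc 2 (by norm_num) (by
          show S.M.σ (S.M.σ (S.M.σ m)) = t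
          rw [← hn]; exact e1)
  -- the small face
  cases h0 : S.real (S.M.φ t)
  · cases h1 : S.real (S.M.σ m)
    · rcases sm with sm | sm | sm | sm
      · rw [h0] at sm; exact absurd sm (by decide)
      · -- a face with four edges before `t`
        obtain ⟨u, hu⟩ : ∃ u, u = S.M.φ (S.M.φ t) := ⟨_, rfl⟩
        rw [← hu] at sm
        have hd : S.M.v u ∉ S.A := by rw [hu]; exact hS.dead t rt h0
        obtain ⟨n, hn⟩ := S.M.σ_orbit (d := u) (e := S.M.φ (S.M.φ k4)) (by
          rw [hu]; exact (hub4 h0).symm)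
        have hp : Function.IsPeriodicPt S.M.σ 4 u := sm
        have hn' : S.M.σ^[n % 4] u = S.M.φ (S.M.φ k4) := by rw [hp.iterate_mod_apply]; exact hn
        have hlt : n % 4 < 4 := Nat.mod_lt _ (by norm_num)
        generalize n % 4 = i at hn' hlt
        have e0 : S.M.v (S.M.α u) = S.M.v t := by rw [hα, hu, φ3]
        have hcase : i = 0 ∨ i = 1 ∨ i = 2 ∨ i = 3 := by omega
        rcases hcase with rfl | rfl | rfl | rfl
        · have h5 : u = S.M.φ (S.M.φ k4) := hn'
          rw [hu] at h5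
          exact k4t (φinj _ _ (φinj _ _ h5)).symm
        · have h5 : S.M.φ (S.M.α u) = S.M.φ (S.M.φ k4) := hn'
          have h6 := φinj _ _ h5
          exact no4 (by rw [hα, ← h6, e0])
        · have h5 : S.M.φ (S.M.α (S.M.σ u)) = S.M.φ (S.M.φ k4) := hn'
          have h6 := φinj _ _ h5
          have r0 : S.real (S.M.φ (S.M.σ u)) = true := by
            rcases hS.one (S.M.σ u) with h7 | h7 | h7
            · have := rA _ h7
              rw [S.M.vσ] at this
              exact absurd this hd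
            · exact h7
            · have h8 : S.M.φ (S.M.φ (S.M.σ u)) = S.M.α u := by rw [← σφ, φ3]
              rw [h8] at h7
              have := rA' _ h7
              rw [S.M.αα] at this
              exact absurd this hd
          have h8 : S.M.φ (S.M.φ (S.M.σ u)) = S.M.α u := by rw [← σφ, φ3]
          refine Q2 (S.M.α (S.M.φ (S.M.σ u))) (by rw [rα]; exact r0) (by rw [hα, h8, e0])
            (Or.inr ?_) (by rw [S.M.αα, hα, ← h6, hα])
          rw [← σφ (S.M.α (S.M.φ (S.M.σ u))), S.M.αα, h8, ← σφ, S.M.αα, hu, φ3]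
        · have h5 : S.M.φ (S.M.α (S.M.φ (S.M.φ k4))) = S.M.φ (S.M.φ t) := by
            rw [σφ, ← hn', ← hu]
            exact sm
          have h6 := φinj _ _ h5
          refine Q1 ?_
          rw [hα t, ← h6, hα, φ3]
      · rw [h1] at sm; exact absurd sm (by decide)
      · -- a face with four edges after `m`
        obtain ⟨u, hu⟩ : ∃ u, u = S.M.α (S.M.σ m) := ⟨_, rfl⟩
        rw [← hu] at sm
        have hvu : S.M.v u = S.M.v (S.M.φ (S.M.σ m)) := by rw [hu, hα]
        have hd : S.M.v u ∉ S.A := by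
          rw [hvu]; exact hS.dead (S.M.α m) rm' h1
        obtain ⟨n, hn⟩ := S.M.σ_orbit (d := u) (e := S.M.φ (S.M.φ (S.M.α k4))) (by
          rw [hvu]; exact (hub3 h1).symm)
        have hp : Function.IsPeriodicPt S.M.σ 4 u := sm
        have hn' : S.M.σ^[n % 4] u = S.M.φ (S.M.φ (S.M.α k4)) := by
          rw [hp.iterate_mod_apply]; exact hn
        have hlt : n % 4 < 4 := Nat.mod_lt _ (by norm_num)
        generalize n % 4 = i at hn' hlt
        have a0 : S.M.α u = S.M.σ m := by rw [hu, S.M.αα]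
        have hcase : i = 0 ∨ i = 1 ∨ i = 2 ∨ i = 3 := by omega
        rcases hcase with rfl | rfl | rfl | rfl
        · have h5 : u = S.M.φ (S.M.φ (S.M.α k4)) := hn'
          have h6 : S.M.α k4 = S.M.σ (S.M.σ m) := by
            rw [← σφ (S.M.σ m), ← hu, h5, φ3]
          exact no4 (by rw [h6, S.M.vσ, S.M.vσ, vm])
        · have h5 : S.M.φ (S.M.α u) = S.M.φ (S.M.φ (S.M.α k4)) := hn'
          have h6 := φinj _ _ h5
          rw [a0, ← σφ] at h6
          exact k4m (φinj _ _ h6).symm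
        · have h5 : S.M.φ (S.M.α (S.M.σ u)) = S.M.φ (S.M.φ (S.M.α k4)) := hn'
          have h6 := φinj _ _ h5
          refine Q3 ?_
          have h7 : S.M.v k4 = S.M.v (S.M.φ (S.M.α k4)) := by rw [S.M.vφ, S.M.αα]
          rw [h7, ← h6, hα, ← σφ u, a0, ← σφ m, φ3]
        · have h5 : S.M.φ (S.M.α (S.M.φ (S.M.φ (S.M.α k4)))) = u := by
            rw [σφ, ← hn']
            exact sm
          have r0 : S.real (S.M.σ (S.M.σ m)) = true := by
            have h8 : S.M.φ u = S.M.σ (S.M.σ m) := by rw [hu, σφ]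
            rcases hS.one u with h7 | h7 | h7
            · exact absurd (rA _ h7) hd
            · rw [← h8]; exact h7
            · have h9 := rA' _ h7
              rw [hα, φ3] at h9
              exact absurd h9 hd
          refine Q4 (S.M.σ (S.M.σ m)) r0 (by rw [S.M.vσ, S.M.vσ, vm]) (Or.inr ⟨h1, rfl⟩) ?_
          have h8 : S.M.φ u = S.M.σ (S.M.σ m) := by rw [hu, σφ]
          have h9 : S.M.α (S.M.φ (S.M.φ (S.M.α k4))) = S.M.φ (S.M.φ u) :=
            φinj _ _ (by rw [h5, φ3])
          rw [hα (S.M.σ (S.M.σ m)), ← h8, ← h9, hα (S.M.φ (S.M.φ (S.M.α k4))), φ3]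
    · -- a triangle after `m`
      have h5 := tri3 h1
      refine Q3 ?_
      have h6 : S.M.v k4 = S.M.v (S.M.φ (S.M.α k4)) := by rw [S.M.vφ, S.M.αα]
      rw [h6, h5, ← σφ, φ3]
  · -- a triangle before `t`
    exact Q1 (by rw [tri4 h0, hα])

end three

/-- a cut with three consecutive edges at a core vertex next to a face with at most four edges -/
theorem MC.c3 (hΔ : Δ ≤ 6) (h : MC Δ S L w) (hS : IsStar S) (hR : Reg S U) {s : V → Bool}
    {t r m : D} (hU : U (S.M.v t)) (rt : S.real t = true) (rr : S.real r = true)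
    (rm : S.real m = true)
    (o1 : r = S.M.σ t ∨ (S.real (S.M.σ t) = false ∧ r = S.M.σ (S.M.σ t)))
    (o2 : m = S.M.σ r ∨ (S.real (S.M.σ r) = false ∧ m = S.M.σ (S.M.σ r)))
    (h1 : S.Two s true) (h2 : S.Two s false) (c1 : s (S.M.v t) ≠ s (S.M.v (S.M.α t)))
    (c2 : s (S.M.v t) ≠ s (S.M.v (S.M.α r))) (c3 : s (S.M.v t) ≠ s (S.M.v (S.M.α m)))
    (sm : S.real (S.M.φ t) = true ∨ S.M.σ^[4] (S.M.φ (S.M.φ t)) = S.M.φ (S.M.φ t) ∨
      S.real (S.M.σ m) = true ∨ S.M.σ^[4] (S.M.α (S.M.σ m)) = S.M.α (S.M.σ m)) :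
    5 ≤ S.rc s := by
  have W := h.ok.toWf
  have rα := W.real_α
  have hf : ∀ d, S.real d = true → S.M.v d = S.M.v t → Fc3 S d := fun d hd hv =>
    hR.fc d hd (by rw [hv]; exact hU)
  have vr : S.M.v r = S.M.v t := by
    rcases o1 with rfl | ⟨-, rfl⟩
    · exact S.M.vσ t
    · rw [S.M.vσ, S.M.vσ]
  have vm : S.M.v m = S.M.v t := by
    rcases o2 with rfl | ⟨-, rfl⟩
    · rw [S.M.vσ, vr]
    · rw [S.M.vσ, S.M.vσ, vr]
  by_contra hlt
  have hA : ∀ {b}, S.Two s b → ∃ x ∈ S.A, s x = b := by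
    rintro b ⟨x, hx, -, -, -, sx, -⟩
    exact ⟨x, hx, sx⟩
  have h4 : S.rc s = 4 := by
    have := h.cut4 hΔ (hA h1) (hA h2)
    omega
  cases sy : s (S.M.v t)
  · rw [sy] at c1 c2 c3
    exact h.c3a hΔ hS hf rt rr rm o1 o2 h4 h2
      (mem_kc.2 ⟨by rw [rα]; exact rt, by simpa using c1.symm, by rw [S.M.αα]; exact sy⟩)
      (mem_kc.2 ⟨by rw [rα]; exact rr, by simpa using c2.symm, by rw [S.M.αα, vr]; exact sy⟩)
      (mem_kc.2 ⟨by rw [rα]; exact rm, by simpa using c3.symm, by rw [S.M.αα, vm]; exact sy⟩) sm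
  · rw [sy] at c1 c2 c3
    exact h.c3a (s := fun x => !s x) hΔ hS hf rt rr rm o1 o2 (by rw [rc_neg rα]; exact h4)
      (two_neg5 h1)
      (mem_kc.2 ⟨by rw [rα]; exact rt, by simpa using c1.symm, by rw [S.M.αα]; simp [sy]⟩)
      (mem_kc.2 ⟨by rw [rα]; exact rr, by simpa using c2.symm, by rw [S.M.αα, vr]; simp [sy]⟩)
      (mem_kc.2 ⟨by rw [rα]; exact rm, by simpa using c3.symm, by rw [S.M.αα, vm]; simp [sy]⟩) sm

end Pool.FC7
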