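import Pool.Agent.FC7.Q5V
import Pool.Agent.FC7.C5

/-! # The types of the faces at a cut -/

open Finset

set_option linter.unusedSectionVars false

namespace Pool.FC7

open Pool.FC6 Pool.FC6.St

variable {D V : Type} [Fintype D] [DecidableEq V] {S : St D V} {L : D → Bool} {w : D → ℕ} {Δ : ℕ}

theorem bad5_no {c1 c2 c3 c4 p1 p2 p3 p4 n1 n2 n3 n4 : Bool}
    (h : bad5 c1 c2 c3 c4 p1 p2 p3 p4 n1 n2 n3 n4 = true) {A B : Prop}
    (hA : A → c2 = false ∧ c4 = false ∧ p1 = false ∧ p3 = false)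
    (hB : B → c3 = false ∧ c1 = false ∧ p2 = false ∧ p4 = false) (h0 : A ∨ B)
    (h1 : n1 = true ∨ n3 = true → A) (h2 : n2 = true ∨ n4 = true → B) : False := by
  unfold bad5 at h
  have hA' : A → (!c2 && !c4 && !p1 && !p3) = true := fun a => by
    obtain ⟨e1, e2, e3, e4⟩ := hA a
    rw [e1, e2, e3, e4]; rfl
  have hB' : B → (!c3 && !c1 && !p2 && !p4) = true := fun a => by
    obtain ⟨e1, e2, e3, e4⟩ := hB a
    rw [e1, e2, e3, e4]; rfl
  generalize (!c2 && !c4 && !p1 && !p3) = u at h hA'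
  generalize (!c3 && !c1 && !p2 && !p4) = v at h hB'
  have k1 : (u || v) = true := by
    rcases h0 with a | a
    · rw [hA' a]; rfl
    · rw [hB' a, Bool.or_true]
  have k2 : (!(n1 || n3) || u) = true := by
    by_cases hn : n1 = true ∨ n3 = true
    · rw [hA' (h1 hn), Bool.or_true]
    · rw [not_or, Bool.not_eq_true, Bool.not_eq_true] at hn
      rw [hn.1, hn.2]; rfl
  have k3 : (!(n2 || n4) || v) = true := by
    by_cases hn : n2 = true ∨ n4 = true
    · rw [hB' (h2 hn), Bool.or_true]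
    · rw [not_or, Bool.not_eq_true, Bool.not_eq_true] at hn
      rw [hn.1, hn.2]; rfl
  rw [k1, k2, k3] at h
  exact absurd h (by decide)

theorem fu_nd {d : D} (h : fu S d ≠ 0) : Nd S L d := by
  classical
  by_contra h0
  refine h (Finset.sum_eq_zero fun e _ => ?_)
  by_cases h1 : S.sc.r d e
  · rw [if_pos h1]
    by_contra h2
    exact h0 ⟨e, h1, Or.inl h2⟩
  · exact if_neg h1

theorem Nd.sc {d e : D} (h : Nd S L d) (he : S.sc.r e d) : Nd S L e := by
  obtain ⟨x, h1, h2⟩ := h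
  exact ⟨x, S.sc.iseqv.trans he h1, h2⟩

theorem Ty5.neg {s : V → Bool} {k1 k2 k3 : D} (T : Ty5 S L s k1 k2 k3) :
    Ty5 S L (fun x => !s x) k1 k2 k3 := by
  obtain ⟨x1, x2, x3, x4, y1, y2, y3, y4, p1, p2, p3, p4, n1, n2, n3, n4, hp, hn, hx, hy, hb⟩ := T.fl
  have e : ∀ {a b}, s a = s b → (!s a) = !s b := fun h0 => by rw [h0]
  refine ⟨T.r1, T.r2, T.r3, ?_, e T.a2, e T.b2, e T.a3, e T.b3, T.n12, T.n13, T.n23, T.f1, T.f2,
    x1, x2, x3, x4, y1, y2, y3, y4, p1, p2, p3, p4, n1, n2, n3, n4,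
    ⟨fun h => (hp.1 h).neg, fun h => (hp.2.1 h).neg, fun h => (hp.2.2.1 h).neg,
      fun h => (hp.2.2.2 h).neg⟩, hn, ⟨hx.1, hx.2.1, fun h => ⟨(hx.2.2.1 h).1, e (hx.2.2.1 h).2⟩,
      fun h => ⟨(hx.2.2.2 h).1, e (hx.2.2.2 h).2⟩⟩, ⟨hy.1, hy.2.1,
      fun h => ⟨(hy.2.2.1 h).1, e (hy.2.2.1 h).2⟩, fun h => ⟨(hy.2.2.2 h).1, e (hy.2.2.2 h).2⟩⟩, hb⟩
  have h1 := T.c1
  intro h0
  apply h1
  have h2 : (!s (S.M.v k1)) = !s (S.M.v (S.M.α k1)) := h0
  cases h3 : s (S.M.v k1) <;> cases h4 : s (S.M.v (S.M.α k1)) <;> rw [h3, h4] at h2 <;>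
    first | rfl | exact absurd h2 (by decide)

/-- the type of a cut -/
theorem MC.ty5 (hΔ : Δ ≤ 6) (h : MC Δ S L w) (hS : IsStar S) {s : V → Bool}
    (h1 : S.Two s true) (h2 : S.Two s false) {k1 k2 k3 : D} (T : Ty5 S L s k1 k2 k3) :
    5 ≤ S.rc s := by
  classical
  have W := h.ok.toWf
  have rα := W.real_α
  by_contra hlt
  have hA : ∀ {b}, S.Two s b → ∃ x ∈ S.A, s x = b := by
    rintro b ⟨x, hx, -, -, -, sx, -⟩
    exact ⟨x, hx, sx⟩
  have h4 : S.rc s = 4 := by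
    have := h.cut4 hΔ (hA h1) (hA h2)
    omega
  have key : ∀ s : V → Bool, S.rc s = 4 → S.Two s true → S.Two s false → Ty5 S L s k1 k2 k3 →
      s (S.M.v k1) = true → False := by
    intro s h4 h1 h2 T s1
    have s2 : s (S.M.v (S.M.α k1)) = false := by
      have := T.c1
      rw [s1] at this
      simpa using this.symm
    have K1 : k1 ∈ kc S s := mem_kc.2 ⟨T.r1, s1, s2⟩
    have K2 : k2 ∈ kc S s := mem_kc.2 ⟨T.r2, T.a2.trans s1, T.b2.trans s2⟩
    have K3 : k3 ∈ kc S s := mem_kc.2 ⟨T.r3, T.a3.trans s1, T.b3.trans s2⟩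
    obtain ⟨k4, R, b, h0, hn1, hn2⟩ := h.typ hΔ hS h4 h1 h2 K1 K2 K3 T.n12 T.n13 T.n23 T.f1 T.f2
    have m4 := mem_kc.1 R.K4
    obtain ⟨x1, x2, x3, x4, y1, y2, y3, y4, p1, p2, p3, p4, n1, n2, n3, n4, hp, hn, hx, hy, hb1,
      hb2⟩ := T.fl
    -- the fourth edge in the triangle of the third edge
    have t3 : (∀ d, Fp S (S.M.α k3) d → S.real d = true) → Fp S (S.M.α k3) k4 := fun hr =>
      sc_fp rα hr R.f3
    have t1 : (∀ d, Fp S k1 d → S.real d = true) → Fp S k1 (S.M.α k4) := fun hr =>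
      sc_fp rα hr (S.sc.iseqv.symm R.f4)
    have e3 : S.M.v (S.M.φ (S.M.α k3)) = S.M.v k3 := by rw [S.M.vφ, S.M.αα]
    have sk3 : s (S.M.v k3) = true := T.a3.trans s1
    have sk3' : s (S.M.v (S.M.α k3)) = false := T.b3.trans s2
    have X3 : x3 = true → S.M.v k3 = S.M.v k4 := by
      intro h5
      obtain ⟨hr, hz⟩ := hx.2.2.1 h5
      rcases t3 hr with h6 | h6 | h6
      · rw [h6, sk3'] at m4
        exact absurd m4.2.1 (by decide)
      · rw [h6, e3]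
      · rw [h6, hz, s2] at m4
        exact absurd m4.2.1 (by decide)
    have Y3 : y3 = true → S.M.v (S.M.α k3) = S.M.v (S.M.α k4) := by
      intro h5
      obtain ⟨hr, hz⟩ := hy.2.2.1 h5
      rcases t3 hr with h6 | h6 | h6
      · rw [h6, sk3'] at m4
        exact absurd m4.2.1 (by decide)
      · rw [h6, ← S.M.vφ, hz, s1] at m4
        exact absurd m4.2.2 (by decide)
      · rw [h6, ← S.M.vφ (S.M.φ (S.M.φ (S.M.α k3))), S.M.φ3]
    have X4 : x4 = true → S.M.v k4 = S.M.v k1 := by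
      intro h5
      obtain ⟨hr, hz⟩ := hx.2.2.2 h5
      have e4 : S.M.v (S.M.φ (S.M.α k4)) = S.M.v k4 := by rw [S.M.vφ, S.M.αα]
      rcases t1 hr with h6 | h6 | h6
      · rw [h6, s1] at m4
        exact absurd m4.2.2 (by decide)
      · rw [h6] at e4
        have h7 := m4.2.1
        rw [← e4, hz, s2] at h7
        exact absurd h7 (by decide)
      · rw [h6, S.M.φ3] at e4
        exact e4.symm
    have Y4 : y4 = true → S.M.v (S.M.α k4) = S.M.v (S.M.α k1) := by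
      intro h5
      obtain ⟨hr, hz⟩ := hy.2.2.2 h5
      rcases t1 hr with h6 | h6 | h6
      · rw [h6, s1] at m4
        exact absurd m4.2.2 (by decide)
      · rw [h6, S.M.vφ]
      · have h7 := m4.2.2
        rw [h6, hz, s1] at h7
        exact absurd h7 (by decide)
    have P3 : p3 = true → Pt S L s k4 := fun h5 => by
      have P := hp.2.2.1 h5
      exact P.of_fp (t3 P.real)
    have ff : ∀ {q : Bool}, (q = true → False) → q = false := fun {q} hq => by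
      cases q
      · rfl
      · exact (hq rfl).elim
    have N1 : n1 = true ∨ n3 = true → Nd S L k2 ∨ Nd S L k4 := by
      rintro (h5 | h5)
      · exact Or.inl (fu_nd (hn.1 h5))
      · exact Or.inr ((fu_nd (hn.2.2.1 h5)).sc (S.sc.iseqv.symm R.f3))
    have N2 : n2 = true ∨ n4 = true → Nd S L k3 ∨ Nd S L k1 := by
      rintro (h5 | h5)
      · exact Or.inl (fu_nd (hn.2.1 h5))
      · exact Or.inr (fu_nd (hn.2.2.2 h5))
    cases b
    · refine bad5_no hb2 (A := O4 S L s false k1 k2 k3 k4) (B := O4 S L s false k2 k3 k4 k1)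
        (fun o => ⟨ff fun h5 => o.1 (hy.2.1 h5), ff fun h5 => o.2.1 (Y4 h5),
          ff fun h5 => o.2.2.1 (hp.1 h5), ff fun h5 => o.2.2.2 (P3 h5)⟩)
        (fun o => ⟨ff fun h5 => o.1 (Y3 h5), ff fun h5 => o.2.1 (hy.1 h5),
          ff fun h5 => o.2.2.1 (hp.2.1 h5), ff fun h5 => o.2.2.2 (hp.2.2.2 h5)⟩) h0
        (fun h5 => hn1 (N1 h5)) (fun h5 => hn2 (N2 h5))
    · refine bad5_no hb1 (A := O4 S L s true k1 k2 k3 k4) (B := O4 S L s true k2 k3 k4 k1)
        (fun o => ⟨ff fun h5 => o.1 (hx.2.1 h5), ff fun h5 => o.2.1 (X4 h5),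
          ff fun h5 => o.2.2.1 (hp.1 h5), ff fun h5 => o.2.2.2 (P3 h5)⟩)
        (fun o => ⟨ff fun h5 => o.1 (X3 h5), ff fun h5 => o.2.1 (hx.1 h5),
          ff fun h5 => o.2.2.1 (hp.2.1 h5), ff fun h5 => o.2.2.2 (hp.2.2.2 h5)⟩) h0
        (fun h5 => hn1 (N1 h5)) (fun h5 => hn2 (N2 h5))
  cases sy : s (S.M.v k1)
  · exact key (fun x => !s x) (by rw [rc_neg rα]; exact h4) (two_neg5 h2) (two_neg5 h1) T.neg
      (by simp [sy])
  · exact key s h4 h1 h2 T sy

end Pool.FC7
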