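import Pool.Agent.FC7.Q7B
import Pool.Agent.FC7.FtA

/-! # A cut with three of the six real edges at a vertex, a gap and two plain triangles: one orientation
is sufficient -/

open Finset

set_option linter.unusedSectionVars false

namespace Pool.FC7

open Pool.FC6 Pool.FC6.St

variable {D V : Type} [Fintype D] [DecidableEq V] {S : St D V} {L : D → Bool} {w : D → ℕ} {Δ : ℕ}

/-- a vertex with three edges to both sides of a cut with four edges is moved -/
theorem rc_mv (W : Wf Δ S L w) {s : V → Bool} (h4 : S.rc s = 4) {y : V} {p1 p2 p3 q1 q2 q3 : D}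
    (all : ∀ d, S.real d = true → S.M.v d = y → d = p1 ∨ d = p2 ∨ d = p3 ∨ d = q1 ∨ d = q2 ∨ d = q3)
    (r1 : S.real p1 = true) (r2 : S.real p2 = true) (r3 : S.real p3 = true)
    (v1 : S.M.v p1 = y) (v2 : S.M.v p2 = y) (v3 : S.M.v p3 = y)
    (s1 : s (S.M.v (S.M.α p1)) = true) (s2 : s (S.M.v (S.M.α p2)) = true)
    (s3 : s (S.M.v (S.M.α p3)) = true) (n12 : p1 ≠ p2) (n13 : p1 ≠ p3) (n23 : p2 ≠ p3) :
    S.rc (fun z => if z = y then true else s z) ≤ 4 := by
  classical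
  have rα := W.real_α
  cases sy : s y
  swap
  · have : (fun z => if z = y then true else s z) = s := by
      funext z
      by_cases hz : z = y
      · rw [if_pos hz, hz, sy]
      · rw [if_neg hz]
    rw [this, h4]
  set s' : V → Bool := fun z => if z = y then true else s z with hs'
  have e' : ∀ z, s' z = if z = y then true else s z := fun _ => rfl
  have hne : ∀ {d}, S.real d = true → S.M.v d = y → S.M.v (S.M.α d) ≠ y := fun hd hv h0 =>
    W.real_ne _ hd (by rw [hv, h0])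
  have kp : ∀ {p}, S.real p = true → S.M.v p = y → s (S.M.v (S.M.α p)) = true →
      S.M.α p ∈ kc S s := fun hr hv hs => mem_kc.2 ⟨by rw [rα]; exact hr, hs, by
        rw [S.M.αα, hv]; exact sy⟩
  have hsub : ({S.M.α p1, S.M.α p2, S.M.α p3} : Finset D) ⊆ kc S s := by
    intro x hx
    simp only [Finset.mem_insert, Finset.mem_singleton] at hx
    rcases hx with rfl | rfl | rfl
    · exact kp r1 v1 s1
    · exact kp r2 v2 s2
    · exact kp r3 v3 s3
  have h3 : ({S.M.α p1, S.M.α p2, S.M.α p3} : Finset D).card = 3 := Finset.card_eq_three.2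
    ⟨_, _, _, fun h => n12 (S.M.αinj h), fun h => n13 (S.M.αinj h), fun h => n23 (S.M.αinj h), rfl⟩
  have hK : kc S s' ⊆ (kc S s \ {S.M.α p1, S.M.α p2, S.M.α p3}) ∪ {q1, q2, q3} := by
    intro d hd
    obtain ⟨a1, a2, a3⟩ := mem_kc.1 hd
    have b3 : S.M.v (S.M.α d) ≠ y ∧ s (S.M.v (S.M.α d)) = false := by
      rw [e'] at a3
      by_cases h0 : S.M.v (S.M.α d) = y
      · rw [if_pos h0] at a3
        exact absurd a3 (by decide)
      · rw [if_neg h0] at a3
        exact ⟨h0, a3⟩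
    rw [Finset.mem_union]
    by_cases h0 : S.M.v d = y
    · right
      simp only [Finset.mem_insert, Finset.mem_singleton]
      rcases all d a1 h0 with h | h | h | h | h | h
      · rw [h, s1] at b3
        exact absurd b3.2 (by decide)
      · rw [h, s2] at b3
        exact absurd b3.2 (by decide)
      · rw [h, s3] at b3
        exact absurd b3.2 (by decide)
      · exact Or.inl h
      · exact Or.inr (Or.inl h)
      · exact Or.inr (Or.inr h)
    · left
      rw [e', if_neg h0] at a2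
      rw [Finset.mem_sdiff]
      refine ⟨mem_kc.2 ⟨a1, a2, b3.2⟩, fun h => ?_⟩
      simp only [Finset.mem_insert, Finset.mem_singleton] at h
      rcases h with h | h | h <;> rw [h, S.M.αα] at b3
      · exact b3.1 v1
      · exact b3.1 v2
      · exact b3.1 v3
  rw [← kc_card]
  refine (Finset.card_le_card hK).trans ((Finset.card_union_le _ _).trans ?_)
  rw [Finset.card_sdiff_of_subset hsub, kc_card, h4, h3]
  have : ({q1, q2, q3} : Finset D).card ≤ 3 := Finset.card_le_three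
  omega

/-! ### The mirror image -/

theorem Nx.mir (W : Wf Δ S L w) {t a : D} (rt : S.real t = true) (h : Nx S t a) :
    Nx (FC7.mir S) (S.M.α a) (S.M.α t) := by
  obtain ⟨-, h⟩ := h
  refine ⟨by show S.real (S.M.α t) = true; rw [W.real_α]; exact rt, ?_⟩
  rcases h with h | ⟨h, h2⟩
  · left
    symm
    rw [mσ_iff, S.M.αα, S.M.αα, h]
  · right
    have e1 : (FC7.mir S).M.σ (S.M.α a) = S.M.α (S.M.σ t) := by
      rw [mσ_iff, S.M.αα, S.M.αα, h]
    refine ⟨?_, ?_⟩
    · symm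
      rw [e1, mσ_iff, S.M.αα, S.M.αα]
    · rw [e1]
      show S.real (S.M.α (S.M.σ t)) = false
      rw [W.real_α]; exact h2

theorem mr_fp {d e : D} : Fp (mir S) d e ↔ Fp S d e := by
  have e1 : (mir S).M.φ d = S.M.φ (S.M.φ d) := rfl
  have e2 : (mir S).M.φ ((mir S).M.φ d) = S.M.φ d := S.M.mir_φφ d
  constructor
  · rintro (h | h | h)
    · exact Or.inl h
    · exact Or.inr (Or.inr (h.trans e1))
    · exact Or.inr (Or.inl (h.trans e2))
  · rintro (h | h | h)
    · exact Or.inl h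
    · exact Or.inr (Or.inr (h.trans e2.symm))
    · exact Or.inr (Or.inl (h.trans e1.symm))

theorem Pt.mir {s : V → Bool} {k : D} (P : Pt S L s k) : Pt (FC7.mir S) L s k where
  real d hd := P.real d (mr_fp.1 hd)
  u d hd := by
    have h1 := mr_fp.1 hd
    have r1 := P.real d h1
    have h2 : Fp S k (S.M.φ d) := fp_φ.2 h1
    show S.u (mnx S d) = 0
    unfold mnx
    rw [if_pos r1, if_pos (P.real _ h2)]
    exact P.u _ h2
  lab d hd h0 := P.lab d (mr_fp.1 hd) (by
    have h1 : s (S.M.v (S.M.α d)) = s (S.M.v (S.M.α (S.M.α d))) := h0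
    rw [S.M.αα] at h1
    exact h1.symm)

theorem G65.mir (hS : IsStar S) (W : Wf Δ S L w) {s : V → Bool} {t0 t1 t2 t3 t4 t5 : D}
    (G : G65 S L s t0 t1 t2 t3 t4 t5) :
    G65 (FC7.mir S) L s (S.M.α t1) (S.M.α t0) (S.M.α t5) (S.M.α t4) (S.M.α t3) (S.M.α t2) := by
  have rα := W.real_α
  have e1 : S.M.σ (S.M.σ t0) = t1 := by
    rcases G.x1.2 with h | ⟨h, -⟩
    · have := G.x1.1
      rw [h, G.g0] at this
      exact absurd this (by decide)
    · exact h.symm
  have vv : ∀ d, (FC7.mir S).M.v ((FC7.mir S).M.α (S.M.α d)) = S.M.v (S.M.α d) := fun d => by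
    show S.M.v (S.M.α (S.M.α (S.M.α d))) = _
    rw [S.M.αα]
  have bb : ∀ {x y z : Bool}, x ≠ z → y ≠ z → x = y := by decide
  have c5 := G.c5
  have c4 := G.c4
  have c0 := G.c0
  exact
    { r0 := by
        show S.real (S.M.α t1) = true
        rw [rα]; exact G.x1.1
      g0 := by
        have : (FC7.mir S).M.σ (S.M.α t1) = S.M.α (S.M.σ t0) := by
          rw [mσ_iff, S.M.αα, S.M.αα, e1]
        rw [this]
        show S.real (S.M.α (S.M.σ t0)) = false
        rw [rα]; exact G.g0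
      x1 := G.x1.mir W G.r0
      x2 := G.x0.mir W G.x5.1
      x3 := G.x5.mir W G.x4.1
      x4 := G.x4.mir W G.x3.1
      x5 := G.x3.mir W G.x2.1
      x0 := G.x2.mir W G.x1.1
      u := by
        rw [mr_fu hS W.real_α W.real_A, fu_congr G.x1.sc]
        exact G.u
      P1 := by
        have := G.P5.mir
        rwa [show (FC7.mir S).M.α (S.M.α t0) = t0 from S.M.αα t0]
      P5 := G.P1.mir
      c2 := by rw [vv, vv]; exact bb c5 c0
      c3 := by rw [vv, vv]; exact bb c4 c0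
      c4 := by rw [vv, vv, G.c3]; exact fun h => c0 h.symm
      c5 := by rw [vv, vv, G.c2]; exact fun h => c0 h.symm
      c0 := by rw [vv, vv]; exact fun h => c0 h.symm }

theorem G65.neg {s : V → Bool} {t0 t1 t2 t3 t4 t5 : D} (G : G65 S L s t0 t1 t2 t3 t4 t5) :
    G65 S L (fun z => !s z) t0 t1 t2 t3 t4 t5 := by
  have bb : ∀ {x y : Bool}, x = y → (!x) = !y := by decide
  have bn : ∀ {x y : Bool}, x ≠ y → (!x) ≠ !y := by decide
  exact
    { r0 := G.r0, g0 := G.g0, x1 := G.x1, x2 := G.x2, x3 := G.x3, x4 := G.x4, x5 := G.x5,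
      x0 := G.x0, u := G.u, P1 := G.P1.neg, P5 := G.P5.neg, c2 := bb G.c2, c3 := bb G.c3,
      c4 := bn G.c4, c5 := bn G.c5, c0 := bn G.c0 }

/-- one orientation -/
def R1Z (Δ : ℕ) (S : St D V) (L : D → Bool) (w : D → ℕ) : Prop :=
  MC Δ S L w → IsStar S → ∀ {t0 t1 t2 t3 t4 t5 : D}, R7 S t0 t1 t2 t3 t4 t5 → fu S t1 ≠ 0 →
    ∀ {s : V → Bool}, Pt S L s (S.M.α t1) → Pt S L s t0 → s (S.M.v t0) = true →
    s (S.M.v (S.M.α t1)) = true → s (S.M.v (S.M.α t2)) = true → s (S.M.v (S.M.α t3)) = true →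
    s (S.M.v (S.M.α t4)) = false → s (S.M.v (S.M.α t5)) = false → s (S.M.v (S.M.α t0)) = false →
    S.rc s = 4 → S.Two s true → S.Two s false → s (S.M.v (fgw S t1 2)) = true →
    (∃ d, S.sc.r t1 d ∧ S.u d ≠ 0 ∧ s (S.M.v d) = true) → False

/-- the data of the cut, the vertex is on the side of `t1, t2, t3` -/
theorem MC.r1w (hΔ : Δ ≤ 6) (h : MC Δ S L w) (hS : IsStar S) (hA : R1Z Δ S L w) {s : V → Bool}
    {t0 t1 t2 t3 t4 t5 : D} (G : G65 S L s t0 t1 t2 t3 t4 t5)
    (P1 : ∀ s', Pt S L s' (S.M.α t1)) (P5 : ∀ s', Pt S L s' t0) (h4 : S.rc s = 4)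
    (s1 : s (S.M.v (S.M.α t1)) = true) {s' : V → Bool}
    (hs' : s' = fun z => if z = S.M.v t0 then true else s z) :
    (∃ n m, Gq S s' t0 t1 n m ∧ S.u t1 = 0 ∧ S.real (S.M.φ t1) = false) ∧
    ¬ (s' (S.M.v (fgw S t1 2)) = true ∧ ∃ d, S.sc.r t1 d ∧ S.u d ≠ 0 ∧ s' (S.M.v d) = true) := by
  classical
  have W := h.ok.toWf
  have rα := W.real_α
  have rA := W.real_A
  have rA' : ∀ d, S.real d = true → S.M.v (S.M.α d) ∈ S.A := fun d hd =>
    rA _ (by rw [rα]; exact hd)
  have bne : ∀ {x z : Bool}, x ≠ z → x = !z := by decide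
  have c4 := bne G.c4
  have c5 := bne G.c5
  have c0 := bne G.c0
  have f1 : S.real (S.M.σ t1) = true := G.P1.real (S.M.φ (S.M.α t1)) (Or.inr (Or.inl rfl))
  have f5 : S.real (S.M.φ (S.M.φ t0)) = true := G.P5.real _ (Or.inr (Or.inr rfl))
  have R := R7.of W hS G.r0 G.g0 G.x1 G.x2 G.x3 G.x4 G.x5 G.x0 f1 f5 (s := s)
    (b := s (S.M.v (S.M.α t1))) rfl G.c2 G.c3 c4 c5 c0
  have s2 := G.c2.trans s1
  have s3 := G.c3.trans s1
  rw [s1] at c4 c5 c0
  have nd := R.nd
  simp only [List.nodup_cons, List.mem_cons, List.not_mem_nil, or_false, not_or, not_false_iff,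
    List.nodup_nil, and_true] at nd
  obtain ⟨⟨n01, n02, n03, n04, n05⟩, ⟨n12, n13, n14, n15⟩, ⟨n23, n24, n25⟩, ⟨n34, n35⟩, n45⟩ := nd
  have yne : ∀ {d}, S.real d = true → S.M.v d = S.M.v t0 → S.M.v (S.M.α d) ≠ S.M.v t0 :=
    fun hd hv h0 => W.real_ne _ hd (by rw [hv, h0])
  have dif : ∀ {a b}, S.real a = true → S.real b = true → S.M.v a = S.M.v t0 →
      S.M.v b = S.M.v t0 → a ≠ b → S.M.v (S.M.α a) ≠ S.M.v (S.M.α b) := fun ra rb va vb hab h0 =>
    hab (W.simple _ _ ra rb (va.trans vb.symm) h0)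
  have hm : ∀ {d}, S.real d = true → S.M.v d = S.M.v t0 → s' (S.M.v (S.M.α d)) =
      s (S.M.v (S.M.α d)) := fun {d} hd hv => by rw [hs']; exact if_neg (yne hd hv)
  have hle : S.rc s' ≤ 4 := by
    rw [hs']
    refine rc_mv W h4 (p1 := t1) (p2 := t2) (p3 := t3) (q1 := t4) (q2 := t5) (q3 := t0)
      (fun d hd hv => ?_) R.r1 R.r2 R.r3 R.v1 R.v2 R.v3 s1 s2 s3 n12 n13 n23
    rcases R.all d hd hv with h | h | h | h | h | h <;> simp [h]
  have a1 : s' (S.M.v (S.M.α t1)) = true := by rw [hm R.r1 R.v1, s1]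
  have a2 : s' (S.M.v (S.M.α t2)) = true := by rw [hm R.r2 R.v2, s2]
  have a3 : s' (S.M.v (S.M.α t3)) = true := by rw [hm R.r3 R.v3, s3]
  have a4 : s' (S.M.v (S.M.α t4)) = false := by rw [hm R.r4 R.v4]; exact c4
  have a5 : s' (S.M.v (S.M.α t5)) = false := by rw [hm R.r5 R.v5]; exact c5
  have a0 : s' (S.M.v (S.M.α t0)) = false := by rw [hm R.r0 rfl]; exact c0
  have ay : s' (S.M.v t0) = true := by rw [hs']; exact if_pos rfl
  have h4' : S.rc s' = 4 := by
    have := h.cut4 hΔ (s := s') ⟨_, rA _ R.r0, ay⟩ ⟨_, rA' _ R.r4, a4⟩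
    omega
  refine ⟨?_, fun hN => ?_⟩
  · -- the ring
    have K4 : t4 ∈ kc S s' := mem_kc.2 ⟨R.r4, by rw [R.v4]; exact ay, a4⟩
    have K5 : t5 ∈ kc S s' := mem_kc.2 ⟨R.r5, by rw [R.v5]; exact ay, a5⟩
    have K0 : t0 ∈ kc S s' := mem_kc.2 ⟨R.r0, ay, a0⟩
    obtain ⟨k, R0⟩ := h.ring hΔ hS h4' K4 K5 K0 n45 (Ne.symm n04) (Ne.symm n05) R.s4 R.s5
    obtain ⟨n, m, Gn, -⟩ := h.gq hΔ hS (k := k) R.r0 R.r1 R.p1 R.e1 (S.sc.iseqv.symm R.s0)
      (by rw [R.v1]; exact ay) a1 a0 fun k' hk' => by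
      rcases (R0.mem k').1 hk' with h0 | h0 | h0 | h0
      · right; rw [h0, R.v4, R.v1]
      · right; rw [h0, R.v5, R.v1]
      · right; rw [h0, R.v1]
      · exact Or.inl h0
    exact ⟨n, m, Gn, h.u6 hΔ R.r1 (by rw [R.v1]; exact R.rd6), R.p1⟩
  · exact hA h hS R G.u (P1 s') (P5 s') ay a1 a2 a3 a4 a5 a0 h4'
      ⟨_, rA' _ R.r1, _, rA' _ R.r2, dif R.r1 R.r2 R.v1 R.v2 n12, a1, a2⟩
      ⟨_, rA' _ R.r4, _, rA' _ R.r5, dif R.r4 R.r5 R.v4 R.v5 n45, a4, a5⟩ hN.1 hN.2

theorem MC.r1q (hΔ : Δ ≤ 6) (h : MC Δ S L w) (hS : IsStar S) (hA : R1Z Δ S L w)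
    (hB : R1Z Δ (FC7.mir S) L w) {s : V → Bool} {t0 t1 t2 t3 t4 t5 : D}
    (G : G65 S L s t0 t1 t2 t3 t4 t5) : 5 ≤ S.rc s := by
  classical
  have W := h.ok.toWf
  have rα := W.real_α
  have rA := W.real_A
  have rA' : ∀ d, S.real d = true → S.M.v (S.M.α d) ∈ S.A := fun d hd =>
    rA _ (by rw [rα]; exact hd)
  by_contra hlt
  have bne : ∀ {x z : Bool}, x ≠ z → x = !z := by decide
  have hx : ∀ b, ∃ x ∈ S.A, s x = b := by
    intro b
    by_cases h0 : s (S.M.v (S.M.α t1)) = b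
    · exact ⟨_, rA' _ G.x1.1, h0⟩
    · refine ⟨_, rA' _ G.x4.1, ?_⟩
      rw [bne G.c4]
      exact (bne (fun h1 => h0 h1.symm)).symm
  have h4 : S.rc s = 4 := by
    have := h.cut4 hΔ (hx true) (hx false)
    omega
  -- the triangles have no labels
  have pl : ∀ {t} {s' : V → Bool}, Pt S L s t → Pt S L s' t := fun {t s'} P =>
    ⟨P.real, P.u, fun d hd _ => by
      by_cases h0 : s (S.M.v d) = s (S.M.v (S.M.α d))
      · exact P.lab d hd h0
      · by_contra hL
        have := h.lab5 hΔ (k := d) (by simpa using hL) h0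
        omega⟩
  have key : ∀ s : V → Bool, (∀ s', Pt S L s' (S.M.α t1)) → (∀ s', Pt S L s' t0) →
      G65 S L s t0 t1 t2 t3 t4 t5 → S.rc s = 4 → s (S.M.v (S.M.α t1)) = true → False := by
    intro s P1 P5 G h4 s1
    have e1 : S.M.σ (S.M.σ t0) = t1 := by
      rcases G.x1.2 with h | ⟨h, -⟩
      · have := G.x1.1
        rw [h, G.g0] at this
        exact absurd this (by decide)
      · exact h.symm
    have vt : S.M.v t1 = S.M.v t0 := by rw [← e1, S.M.vσ, S.M.vσ]
    obtain ⟨s', hs'⟩ : ∃ s' : V → Bool, s' = fun z => if z = S.M.v t0 then true else s z :=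
      ⟨_, rfl⟩
    obtain ⟨⟨n, m, Gn, u1, p1⟩, no⟩ := h.r1w hΔ hS hA G P1 P5 h4 s1 hs'
    have GR := gw_real hS W G.x1.1 p1
    have GS := gw_sc hS W G.x1.1 p1
    rcases h.gside hΔ hS G.x1.1 p1 G.u u1 Gn with ⟨n2, i, i1, i2, i3⟩ | ⟨n2, i, i1, i2, i3⟩
    · exact no ⟨Gn.tv 2 n2, _, GS i, i3, Gn.tv i i2⟩
    · -- the mirror image
      have h' := h.mir hΔ hS
      have hS' := hS.mir W
      have G' := (G.neg).mir hS W
      have c0 := bne G.c0
      rw [s1] at c0
      obtain ⟨s2, hs2⟩ : ∃ s2 : V → Bool, s2 = fun z => if z = (FC7.mir S).M.v (S.M.α t1) then true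
        else !s z := ⟨_, rfl⟩
      have hy : (FC7.mir S).M.v (S.M.α t1) = S.M.v t0 := by
        show S.M.v (S.M.α (S.M.α t1)) = _
        rw [S.M.αα, vt]
      obtain ⟨-, no'⟩ := h'.r1w hΔ hS' hB G'
        (fun s' => by
          have := (P5 s').mir
          rwa [show (FC7.mir S).M.α (S.M.α t0) = t0 from S.M.αα t0])
        (fun s' => (P1 s').mir) (by
          rw [mr_rc rα, rc_neg rα]; exact h4)
        (by
          show (!s (S.M.v (S.M.α (S.M.α (S.M.α t0))))) = true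
          rw [S.M.αα]
          show (!s (S.M.v (S.M.α t0))) = true
          rw [c0]; rfl) hs2
      have fl : ∀ j, n < j → j ≤ m → s2 (S.M.v (fgw S t1 j)) = true := by
        intro j j1 j2
        have h1 := Gn.fv j j1 j2
        have e3 : ∀ z, s' z = if z = S.M.v t0 then true else s z := fun z => by rw [hs']
        rw [e3] at h1
        have h2 : S.M.v (fgw S t1 j) ≠ S.M.v t0 := fun h0 => by
          rw [if_pos h0] at h1
          exact absurd h1 (by decide)
        rw [if_neg h2] at h1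
        rw [hs2]
        show (if S.M.v (fgw S t1 j) = (FC7.mir S).M.v (S.M.α t1) then true else
          !s (S.M.v (fgw S t1 j))) = true
        rw [h1]
        split_ifs <;> rfl
      apply no'
      have nm := Gn.nm
      have n0 := Gn.n0
      constructor
      · have q1 : fgw (FC7.mir S) (S.M.α t0) 1 = fgw S t1 (m - 1) := by
          have q2 : fgw (FC7.mir S) (S.M.α t0) 1 =
              (FC7.mir S).M.σ ((FC7.mir S).M.φ (S.M.α t0)) := rfl
          rw [q2, mσ_iff]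
          show S.M.φ (S.M.α (S.M.α (fgw S t1 (m - 1)))) = S.M.α (S.M.φ (S.M.φ (S.M.α t0)))
          rw [S.M.αα, ← Gn.last]
          have q3 := gw_φφ (S := S) (t := t1) (m - 1)
          rw [show m - 1 + 1 = m by omega] at q3
          rw [q3, S.M.αα]
        rw [gw_v (S := FC7.mir S) (t := S.M.α t0) 1, q1]
        show s2 (S.M.v (S.M.α (S.M.α (fgw S t1 (m - 1))))) = true
        rw [S.M.αα]
        exact fl _ (by omega) (by omega)
      · refine ⟨fgw S t1 (i - 1), ?_, ?_, ?_⟩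
        · rw [mr_sc]
          exact S.sc.iseqv.trans G.x1.sc (GS _)
        · show S.u (mnx S (fgw S t1 (i - 1))) ≠ 0
          unfold mnx
          rw [if_pos (GR _).1, if_neg (by rw [(GR _).2]; decide)]
          have : S.M.σ (S.M.φ (fgw S t1 (i - 1))) = fgw S t1 (i - 1 + 1) := rfl
          rw [this, show i - 1 + 1 = i by omega]
          exact i3
        · show s2 (S.M.v (S.M.α (fgw S t1 (i - 1)))) = true
          rw [← gw_v, show i - 1 + 1 = i by omega]
          exact fl _ i1 i2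
  cases s1 : s (S.M.v (S.M.α t1))
  · refine key (fun z => !s z) (fun s' => pl G.P1) (fun s' => pl G.P5) G.neg
      (by rw [rc_neg rα]; exact h4) ?_
    show (!s (S.M.v (S.M.α t1))) = true
    rw [s1]; rfl
  · exact key s (fun s' => pl G.P1) (fun s' => pl G.P5) G h4 s1

end Pool.FC7
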