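import Pool.Agent.FC7.Q7C
import Pool.Agent.FC7.Q7D

/-! # A cut with three of the six real edges at a vertex, a gap and two plain triangles: the theorem -/

namespace Pool.FC7

open Pool.FC6 Pool.FC6.St

variable {D V : Type} [Fintype D] [DecidableEq V] {S : St D V} {L : D → Bool} {w : D → ℕ} {Δ : ℕ}

theorem r1z (hΔ : Δ ≤ 6) : R1Z Δ S L w :=
  fun h hS {_ _ _ _ _ _} R _ {_} P1 P5 sy s1 s2 s3 s4 s5 s0 h4 T2 F2 NA UA =>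
    h.r1A hΔ hS R P1 P5 sy s1 s2 s3 s4 s5 s0 h4 T2 F2 NA UA

theorem MC.r1 (hΔ : Δ ≤ 6) (h : MC Δ S L w) (hS : IsStar S) {s : V → Bool}
    {t0 t1 t2 t3 t4 t5 : D} (G : G65 S L s t0 t1 t2 t3 t4 t5) : 5 ≤ S.rc s :=
  h.r1q hΔ hS (r1z hΔ) (r1z hΔ) G

end Pool.FC7
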