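import Pool.Agent.FC7.Q5U

/-! # Two nested cuts with four edges: the solutions of the larger side

The vertex `y` is the only vertex of the larger side which is not in the smaller one.  It has three real
edges on the larger side.  All solutions of the larger side give `y` and `x` one colour; then they are of
the second type on the smaller side. -/

open Finset

set_option linter.unusedSectionVars false

namespace Pool.FC7

open Pool.FC6 Pool.FC6.St

variable {D V : Type} [Fintype D] [DecidableEq V] {S : St D V} {L : D → Bool} {w : D → ℕ} {Δ : ℕ}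

theorem sd_memA {s : V → Bool} {b : Bool} {x : V} : x ∈ (sd S w s b).A ↔ x ∈ S.A ∧ s x = b := by
  show x ∈ S.A \ (S.A.filter fun x => s x ≠ b) ↔ _
  rw [Finset.mem_sdiff, Finset.mem_filter]
  constructor
  · rintro ⟨h1, h2⟩
    exact ⟨h1, by by_contra h3; exact h2 ⟨h1, h3⟩⟩
  · rintro ⟨h1, h2⟩
    exact ⟨h1, fun h3 => h3.2 h2⟩

theorem sdL_iff {s : V → Bool} {b : Bool} {d : D} :
    sdL S L s b d = true ↔ L d = true ∧ (sd S w s b).real d = true := by
  show (L d && (sd S w s b).real d) = true ↔ _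
  rw [Bool.and_eq_true]

/-- the units of a side -/
theorem sd_u5 (W : Wf Δ S L w) {s : V → Bool} {b : Bool} {d : D} :
    (sd S w s b).u d ≠ 0 ↔ s (S.M.v d) = b ∧ (S.u d ≠ 0 ∨ (S.real d = true ∧
      s (S.M.v (S.M.α d)) ≠ b)) := by
  have rA := W.real_A
  have rα := W.real_α
  show (if S.M.v d ∈ (S.A.filter fun y => s y ≠ b) then 0 else S.u d +
    (if S.real d = true ∧ S.M.v (S.M.α d) ∈ (S.A.filter fun y => s y ≠ b) then
      1 + w d else 0)) ≠ 0 ↔ _
  constructor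
  · intro hd
    by_cases h3 : S.M.v d ∈ (S.A.filter fun y => s y ≠ b)
    · rw [if_pos h3] at hd
      exact absurd rfl hd
    · rw [if_neg h3] at hd
      by_cases h4 : S.real d = true ∧ S.M.v (S.M.α d) ∈ (S.A.filter fun y => s y ≠ b)
      · refine ⟨?_, Or.inr ⟨h4.1, (Finset.mem_filter.1 h4.2).2⟩⟩
        by_contra h8
        exact h3 (Finset.mem_filter.2 ⟨rA d h4.1, h8⟩)
      · rw [if_neg h4, Nat.add_zero] at hd
        refine ⟨?_, Or.inl hd⟩
        by_contra h8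
        exact h3 (Finset.mem_filter.2 ⟨W.u_A d hd, h8⟩)
  · rintro ⟨h1, h2⟩
    rw [if_neg (fun h3 : S.M.v d ∈ (S.A.filter fun y => s y ≠ b) => (Finset.mem_filter.1 h3).2 h1)]
    rcases h2 with h2 | ⟨h2, h3⟩
    · omega
    · rw [if_pos ⟨h2, Finset.mem_filter.2 ⟨rA _ (by rw [rα]; exact h2), h3⟩⟩]
      omega

/-- a solution of a side, restricted to a smaller side -/
theorem Sol.sub (W : Wf Δ S L w) {s s2 : V → Bool} (hT : ConS S.M s2 true)
    (hF : ConS S.M s2 false) (hle : ∀ z ∈ S.A, s2 z = true → s z = true) {c : V → Bool}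
    (hc : Sol (sd S w s true) (sdL S L s true) c) {e0 : D} (r0 : S.real e0 = true)
    (b0 : c (S.M.v e0) ≠ c (S.M.v (S.M.α e0))) (h1 : s2 (S.M.v e0) = true)
    (h2 : s2 (S.M.v (S.M.α e0)) = true) {k0 : D}
    (m0 : s2 (S.M.v k0) ≠ s2 (S.M.v (S.M.α k0))) (hv : Vi (sd S w s true) c k0) :
    Sol (sd S w s2 true) (sdL S L s2 true) c := by
  have rA := W.real_A
  have rα := W.real_α
  have R : ∀ d, (sd S w s2 true).real d = true → (sd S w s true).real d = true := fun d hd => by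
    obtain ⟨a1, a2, a3⟩ := (sd_real rA rα).1 hd
    exact (sd_real rA rα).2 ⟨a1, hle _ (rA _ a1) a2, hle _ (rA _ (by rw [rα]; exact a1)) a3⟩
  have T : ∀ g : D → ℝ, (sd S w s2 true).Test c g → (sd S w s true).Test c g := fun g hg =>
    ⟨hg.1, fun d hd => hg.2 d (by
      rcases hd with hd | hd
      · left
        by_contra hc
        have h3 := R d (by simpa using hc)
        rw [hd] at h3
        exact absurd h3 (by decide)
      · exact Or.inr hd)⟩
  have E0 : Br (sd S w s2 true) c e0 := ⟨(sd_real rA rα).2 ⟨r0, h1, h2⟩, b0⟩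
  have E1 : Br (sd S w s true) c e0 := ⟨R _ E0.1, b0⟩
  have tr : ∀ d, Vi (sd S w s true) c d → Vi (sd S w s2 true) c d := by
    rintro d ⟨e, e1, e2⟩
    refine ⟨e0, E0, fun g hg => ?_⟩
    rw [← e2 g (T g hg)]
    exact hc.con g (T g hg) e0 e E1 e1
  have mx : ∀ d, s2 (S.M.v d) ≠ s2 (S.M.v (S.M.α d)) → Vi (sd S w s2 true) c d := fun d hd =>
    (tr k0 hv).eq fun g hg => sd_mix W hT hF hg m0 hd
  refine ⟨fun g hg d d' hd hd' => hc.con g (T g hg) d d' ⟨R _ hd.1, hd.2⟩ ⟨R _ hd'.1, hd'.2⟩,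
    fun x hx => ?_, fun d hd => ?_, fun d hd => ?_⟩
  · obtain ⟨x1, x2⟩ := sd_memA.1 hx
    obtain ⟨d, e1, e2⟩ := hc.live x (sd_memA.2 ⟨x1, hle _ x1 x2⟩)
    exact ⟨d, e1, tr d e2⟩
  · obtain ⟨u1, u2⟩ := (sd_u5 W).1 hd
    rcases u2 with u2 | ⟨u2, u3⟩
    · exact tr d (hc.req d ((sd_u5 W).2 ⟨hle _ (W.u_A d u2) u1, Or.inl u2⟩))
    · exact mx d (by rw [u1]; exact Ne.symm u3)
  · obtain ⟨l1, l2⟩ := (sdL_iff (w := w)).1 hd
    exact (hc.lab d ((sdL_iff (w := w)).2 ⟨l1, R _ l2⟩)).imp (tr d) (tr _)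

section nest

variable {s : V → Bool} {y n1 n2 n3 : V} {d1 d2 d3 : D}
  (E1 : (S.M.v d1 = y ∧ S.M.v (S.M.α d1) = n1) ∨ (S.M.v d1 = n1 ∧ S.M.v (S.M.α d1) = y))
  (E2 : (S.M.v d2 = y ∧ S.M.v (S.M.α d2) = n2) ∨ (S.M.v d2 = n2 ∧ S.M.v (S.M.α d2) = y))
  (E3 : (S.M.v d3 = y ∧ S.M.v (S.M.α d3) = n3) ∨ (S.M.v d3 = n3 ∧ S.M.v (S.M.α d3) = y))
  (n12 : n1 ≠ n2) (sy : s y = true) (s1 : s n1 = true) (s2' : s n2 = true) (s3 : s n3 = true)
  (on : ∀ d, S.real d = true → S.M.v d = y → s (S.M.v (S.M.α d)) = true →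
    d = d1 ∨ d = S.M.α d1 ∨ d = d2 ∨ d = S.M.α d2 ∨ d = d3 ∨ d = S.M.α d3)
  (r1 : S.real d1 = true) (r2 : S.real d2 = true) (r3 : S.real d3 = true)
  (m1 : ∃ e, S.sc.r d1 e ∧ s (S.M.v e) ≠ s (S.M.v (S.M.α e)))
  (P : Pt S L s d2) (f1 : Fp S d2 (S.M.α d1)) (f2 : S.sc.r (S.M.α d2) d3)
  (m3 : ∃ e, S.sc.r (S.M.α d3) e ∧ s (S.M.v e) ≠ s (S.M.v (S.M.α e)))

include E1 E2 E3 n12 sy s1 s2' s3 on r1 r2 r3 m1 P f1 f2 m3

/-- the colour of `y` is changed -/
theorem recol (W : Wf Δ S L w) (hT : ConS S.M s true) (hF : ConS S.M s false) {c : V → Bool}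
    (hc : Sol (sd S w s true) (sdL S L s true) c) (c1 : c n1 ≠ c y) (c2 : c n2 = c n1)
    (c3 : c n3 = c y) :
    Sol (sd S w s true) (sdL S L s true) (fun z => if z = y then c n1 else c z) := by
  classical
  have rA := W.real_A
  have rα := W.real_α
  obtain ⟨c', hc'⟩ : ∃ c' : V → Bool, ∀ z, c' z = if z = y then c n1 else c z := ⟨_, fun _ => rfl⟩
  have ec : (fun z => if z = y then c n1 else c z) = c' := funext fun z => (hc' z).symm
  rw [ec]
  have cy : c' y = c n1 := by rw [hc', if_pos rfl]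
  have co : ∀ {z}, z ≠ y → c' z = c z := fun hz => by rw [hc', if_neg hz]
  have ne1 : n1 ≠ y := fun h0 => by rw [h0] at c1; exact c1 rfl
  have ne2 : n2 ≠ y := fun h0 => by rw [h0] at c2; exact c1 c2.symm
  have ne3 : n3 ≠ y := by
    intro h0
    rcases E3 with ⟨a1, a2⟩ | ⟨a1, a2⟩
    · exact W.real_ne _ r3 (by rw [a1, a2, h0])
    · exact W.real_ne _ r3 (by rw [a1, a2, h0])
  -- the edges at `y`
  have R1 : ∀ d, (sd S w s true).real d = true ↔ S.real d = true ∧ s (S.M.v d) = true ∧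
      s (S.M.v (S.M.α d)) = true := fun d => sd_real rA rα
  have T1r : (sd S w s true).real d1 = true := (R1 _).2 ⟨r1, by
    rcases E1 with ⟨a1, a2⟩ | ⟨a1, a2⟩ <;> rw [a1, a2] <;> exact ⟨by assumption, by assumption⟩⟩
  have T2r : (sd S w s true).real d2 = true := (R1 _).2 ⟨r2, by
    rcases E2 with ⟨a1, a2⟩ | ⟨a1, a2⟩ <;> rw [a1, a2] <;> exact ⟨by assumption, by assumption⟩⟩
  have T3r : (sd S w s true).real d3 = true := (R1 _).2 ⟨r3, by
    rcases E3 with ⟨a1, a2⟩ | ⟨a1, a2⟩ <;> rw [a1, a2] <;> exact ⟨by assumption, by assumption⟩⟩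
  have b1 : c (S.M.v d1) ≠ c (S.M.v (S.M.α d1)) := by
    rcases E1 with ⟨a1, a2⟩ | ⟨a1, a2⟩ <;> rw [a1, a2]
    · exact c1.symm
    · exact c1
  have b1' : c' (S.M.v d1) = c' (S.M.v (S.M.α d1)) := by
    rcases E1 with ⟨a1, a2⟩ | ⟨a1, a2⟩ <;> rw [a1, a2, cy, co ne1]
  have b2' : c' (S.M.v d2) = c' (S.M.v (S.M.α d2)) := by
    rcases E2 with ⟨a1, a2⟩ | ⟨a1, a2⟩ <;> rw [a1, a2, cy, co ne2, c2]
  have b3' : c (S.M.v d3) = c (S.M.v (S.M.α d3)) := by
    rcases E3 with ⟨a1, a2⟩ | ⟨a1, a2⟩ <;> rw [a1, a2, c3]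
  have b3 : c' (S.M.v d3) ≠ c' (S.M.v (S.M.α d3)) := by
    rcases E3 with ⟨a1, a2⟩ | ⟨a1, a2⟩ <;> rw [a1, a2, cy, co ne3, c3]
    · exact c1
    · exact c1.symm
  have B3 : Br (sd S w s true) c' d3 := ⟨T3r, b3⟩
  have B1 : Br (sd S w s true) c d1 := ⟨T1r, b1⟩
  -- darts which are not at `y`
  have off : ∀ d, S.M.v d ≠ y → S.M.v (S.M.α d) ≠ y → (c (S.M.v d) ≠ c (S.M.v (S.M.α d)) ↔
      c' (S.M.v d) ≠ c' (S.M.v (S.M.α d))) := fun d h1 h2 => by rw [co h1, co h2]
  have on2 : ∀ d, (sd S w s true).real d = true → (S.M.v d = y ∨ S.M.v (S.M.α d) = y) →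
      (d = d1 ∨ d = S.M.α d1) ∨ (d = d2 ∨ d = S.M.α d2) ∨ (d = d3 ∨ d = S.M.α d3) := by
    intro d hd hy
    obtain ⟨g1, g2, g3⟩ := (R1 d).1 hd
    rcases hy with hy | hy
    · have := on d g1 hy g3
      tauto
    · have := on (S.M.α d) (by rw [rα]; exact g1) hy (by rw [S.M.αα]; exact g2)
      rcases this with q | q | q | q | q | q
      · exact Or.inl (Or.inr (by rw [← q, S.M.αα]))
      · exact Or.inl (Or.inl (S.M.αinj q))
      · exact Or.inr (Or.inl (Or.inr (by rw [← q, S.M.αα])))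
      · exact Or.inr (Or.inl (Or.inl (S.M.αinj q)))
      · exact Or.inr (Or.inr (Or.inr (by rw [← q, S.M.αα])))
      · exact Or.inr (Or.inr (Or.inl (S.M.αinj q)))
  -- the corners of the triangle of `d2`
  have e1m : ∀ {z}, z = S.M.v d1 ∨ z = S.M.v (S.M.α d1) → z = y ∨ z = n1 := by
    rintro z (rfl | rfl) <;> rcases E1 with ⟨a1, a2⟩ | ⟨a1, a2⟩
    · exact Or.inl a1
    · exact Or.inr a1
    · exact Or.inr a2
    · exact Or.inl a2
  have e2m : ∀ {z}, z = S.M.v d2 ∨ z = S.M.v (S.M.α d2) → z = y ∨ z = n2 := by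
    rintro z (rfl | rfl) <;> rcases E2 with ⟨a1, a2⟩ | ⟨a1, a2⟩
    · exact Or.inl a1
    · exact Or.inr a1
    · exact Or.inr a2
    · exact Or.inl a2
  have fpv : ∀ d, Fp S d2 d → S.M.v d = y ∨ S.M.v d = n1 ∨ S.M.v d = n2 := by
    have q3 : S.M.v (S.M.φ (S.M.φ d2)) = y ∨ S.M.v (S.M.φ (S.M.φ d2)) = n1 := by
      rcases f1 with q | q | q
      · exfalso
        have q' : d1 = S.M.α d2 := by rw [← q, S.M.αα]
        rcases E1 with ⟨a1, a2⟩ | ⟨a1, a2⟩
        · rw [q] at a2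
          rcases e2m (Or.inl a2.symm) with h0 | h0
          · exact ne1 h0
          · exact n12 h0
        · rw [q'] at a1
          rcases e2m (Or.inr a1.symm) with h0 | h0
          · exact ne1 h0
          · exact n12 h0
      · rw [← q]
        exact e1m (Or.inl (by rw [S.M.vφ, S.M.αα]))
      · rw [← q]
        exact e1m (Or.inr rfl)
    rintro d (rfl | rfl | rfl)
    · rcases e2m (Or.inl rfl) with h0 | h0
      · exact Or.inl h0
      · exact Or.inr (Or.inr h0)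
    · rw [S.M.vφ]
      rcases e2m (Or.inr rfl) with h0 | h0
      · exact Or.inl h0
      · exact Or.inr (Or.inr h0)
    · rcases q3 with h0 | h0
      · exact Or.inl h0
      · exact Or.inr (Or.inl h0)
  have fps : ∀ d, Fp S d2 d → s (S.M.v d) = true := fun d hd => by
    rcases fpv d hd with h0 | h0 | h0 <;> rw [h0] <;> assumption
  have fpα : ∀ d, Fp S d2 d → s (S.M.v (S.M.α d)) = true := fun d hd => by
    rw [← S.M.vφ]
    exact fps _ (fp_φ.2 hd)
  have fpr : ∀ d, Fp S d2 d → (sd S w s true).real d = true := fun d hd =>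
    (R1 d).2 ⟨P.real d hd, fps d hd, fpα d hd⟩
  have fp2 : Fp S d2 d2 := Or.inl rfl
  -- the third edge of the triangle
  have third : ∀ d, Fp S d2 d → S.M.v d ≠ y → S.M.v (S.M.α d) ≠ y →
      c (S.M.v d) = c (S.M.v (S.M.α d)) := by
    intro d hd h1 h2
    have k1 := fpv d hd
    have k2 := fpv _ (fp_φ.2 hd)
    rw [S.M.vφ] at k2
    have g1 : c (S.M.v d) = c n1 := by
      rcases k1 with h0 | h0 | h0
      · exact absurd h0 h1
      · rw [h0]
      · rw [h0, c2]
    have g2 : c (S.M.v (S.M.α d)) = c n1 := by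
      rcases k2 with h0 | h0 | h0
      · exact absurd h0 h2
      · rw [h0]
      · rw [h0, c2]
    rw [g1, g2]
  have third' : ∀ d, Fp S d2 (S.M.α d) → S.M.v d ≠ y → S.M.v (S.M.α d) ≠ y →
      c (S.M.v d) = c (S.M.v (S.M.α d)) := fun d hd h1 h2 => by
    have := third _ hd h2 (by rw [S.M.αα]; exact h1)
    rw [S.M.αα] at this
    exact this.symm
  -- the test functions
  have key : ∀ g : D → ℝ, (sd S w s true).Test c' g → ∃ lam : ℝ, g d1 = lam ∧
      g (S.M.α d2) = lam ∧ g d3 = lam ∧ g (S.M.α d3) = lam ∧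
      (sd S w s true).Test c (fun d => if Fp S d2 d then lam else g d) := by
    intro g hg
    obtain ⟨e1, h1, h1'⟩ := m1
    obtain ⟨e3, h3, h3'⟩ := m3
    have cl : S.Cl g := ⟨hg.1, fun e he => hg.2 e (Or.inl (by
      by_contra h0
      have := ((R1 e).1 (by simpa using h0)).1
      rw [he] at this
      exact absurd this (by decide)))⟩
    have q1 : g d1 = g e1 := S.cl_sc cl h1
    have q3 : g (S.M.α d3) = g e1 := (S.cl_sc cl h3).trans (sd_mix W hT hF hg h3' h1')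
    have q3' : g d3 = g e1 := (hg.2 d3 (Or.inr b3)).symm.trans q3
    have q2 : g (S.M.α d2) = g e1 := (S.cl_sc cl f2).trans q3'
    refine ⟨g e1, q1, q2, q3', q3, fun d => ?_, fun d hd => ?_⟩
    · show (if Fp S d2 (S.M.φ d) then g e1 else g (S.M.φ d)) = if Fp S d2 d then g e1 else g d
      have hφ : g (S.M.φ d) = g d := hg.1 d
      by_cases h0 : Fp S d2 d
      · rw [if_pos h0, if_pos (fp_φ.2 h0)]
      · rw [if_neg h0, if_neg (fun h5 => h0 (fp_φ.1 h5)), hφ]
    · show (if Fp S d2 (S.M.α d) then g e1 else g (S.M.α d)) = if Fp S d2 d then g e1 else g d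
      by_cases hr : (sd S w s true).real d = true
      · have hb : c (S.M.v d) ≠ c (S.M.v (S.M.α d)) := by
          rcases hd with hd | hd
          · rw [hr] at hd
            exact absurd hd (by decide)
          · exact hd
        by_cases hy : S.M.v d = y ∨ S.M.v (S.M.α d) = y
        · rcases on2 d hr hy with (q | q) | (q | q) | (q | q)
          · rw [q, if_pos f1]
            split_ifs
            · rfl
            · exact q1.symm
          · rw [q, S.M.αα, if_pos f1]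
            split_ifs
            · rfl
            · exact q1
          · rw [q, if_pos fp2]
            split_ifs
            · rfl
            · exact q2
          · rw [q, S.M.αα, if_pos fp2]
            split_ifs
            · rfl
            · exact q2.symm
          · rw [q] at hb
            exact absurd b3' hb
          · rw [q, S.M.αα] at hb
            exact absurd b3'.symm hb
        · push Not at hy
          rw [if_neg (fun h0 => hb (third' d h0 hy.1 hy.2)), if_neg (fun h0 => hb (third d h0 hy.1 hy.2))]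
          exact hg.2 d (Or.inr ((off d hy.1 hy.2).1 hb))
      · have hr' : (sd S w s true).real (S.M.α d) ≠ true := fun h0 => by
          obtain ⟨a1, a2, a3⟩ := (R1 _).1 h0
          rw [rα] at a1
          rw [S.M.αα] at a3
          exact hr ((R1 _).2 ⟨a1, a3, a2⟩)
        rw [if_neg (fun h0 => hr' (fpr _ h0)), if_neg (fun h0 => hr (fpr _ h0))]
        exact hg.2 d (Or.inl (by simpa using hr))
  have g1 : ∀ {g : D → ℝ} {lam : ℝ}, g d1 = lam → (if Fp S d2 d1 then lam else g d1) = lam :=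
    fun h0 => by
      split_ifs
      · rfl
      · exact h0
  have BL : ∀ g : D → ℝ, (sd S w s true).Test c' g → ∀ d, Br (sd S w s true) c' d →
      g d = g d3 := by
    intro g hg d hd
    obtain ⟨lam, q1, -, q3, q3', hT'⟩ := key g hg
    by_cases hy : S.M.v d = y ∨ S.M.v (S.M.α d) = y
    · rcases on2 d hd.1 hy with (q | q) | (q | q) | (q | q)
      · exact absurd b1' (by rw [← q]; exact hd.2)
      · exact absurd b1'.symm (by
          have : c' (S.M.v d) ≠ c' (S.M.v (S.M.α d)) := hd.2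
          rw [q, S.M.αα] at this
          exact this)
      · exact absurd b2' (by rw [← q]; exact hd.2)
      · exact absurd b2'.symm (by
          have : c' (S.M.v d) ≠ c' (S.M.v (S.M.α d)) := hd.2
          rw [q, S.M.αα] at this
          exact this)
      · rw [q]
      · rw [q, q3', q3]
    · push Not at hy
      have hb := (off d hy.1 hy.2).2 hd.2
      have h5 : (if Fp S d2 d then lam else g d) = if Fp S d2 d1 then lam else g d1 :=
        hc.con _ hT' d d1 ⟨hd.1, hb⟩ B1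
      rw [if_neg (fun h0 => hb (third d h0 hy.1 hy.2)), g1 q1] at h5
      rw [h5, q3]
  have tr : ∀ d, ¬ Fp S d2 d → Vi (sd S w s true) c d → Vi (sd S w s true) c' d := by
    rintro d hf ⟨e, he, he'⟩
    refine ⟨d3, B3, fun g hg => ?_⟩
    obtain ⟨lam, q1, -, q3, q3', hT'⟩ := key g hg
    have h5 : (if Fp S d2 e then lam else g e) = if Fp S d2 d then lam else g d := he' _ hT'
    have h6 : (if Fp S d2 e then lam else g e) = if Fp S d2 d1 then lam else g d1 :=
      hc.con _ hT' e d1 he B1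
    rw [if_neg hf] at h5
    rw [g1 q1] at h6
    rw [q3, ← h5, h6]
  have v1 : Vi (sd S w s true) c' d1 := ⟨d3, B3, fun g hg => by
    obtain ⟨lam, q1, -, q3, -, -⟩ := key g hg
    rw [q1, q3]⟩
  have v2 : Vi (sd S w s true) c' (S.M.α d2) := ⟨d3, B3, fun g hg => by
    obtain ⟨lam, -, q2, q3, -, -⟩ := key g hg
    rw [q2, q3]⟩
  have v3 : Vi (sd S w s true) c' (S.M.α d3) := ⟨d3, B3, fun g hg => by
    obtain ⟨lam, -, -, q3, q3', -⟩ := key g hg
    rw [q3', q3]⟩
  refine ⟨fun g hg d d' hd hd' => (BL g hg d hd).trans (BL g hg d' hd').symm, fun x hx => ?_,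
    fun d hd => ?_, fun d hd => ?_⟩
  · obtain ⟨d, e1, e2⟩ := hc.live x hx
    by_cases hf : Fp S d2 d
    · have h5 := fpv d hf
      change S.M.v d = x at e1
      rw [e1] at h5
      rcases h5 with h5 | h5 | h5
      · rw [h5]
        rcases E3 with ⟨a1, a2⟩ | ⟨a1, a2⟩
        · exact ⟨d3, a1, B3.vi⟩
        · exact ⟨S.M.α d3, a2, v3⟩
      · rw [h5]
        rcases E1 with ⟨a1, a2⟩ | ⟨a1, a2⟩
        · exact ⟨S.M.φ d1, by rw [← a2]; exact S.M.vφ d1, v1.φ⟩
        · exact ⟨d1, a1, v1⟩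
      · rw [h5]
        rcases E2 with ⟨a1, a2⟩ | ⟨a1, a2⟩
        · exact ⟨S.M.α d2, a2, v2⟩
        · exact ⟨S.M.φ (S.M.α d2), by
            show S.M.v (S.M.φ (S.M.α d2)) = n2
            rw [S.M.vφ, S.M.αα, a1], v2.φ⟩
    · exact ⟨d, e1, tr d hf e2⟩
  · refine tr d (fun hf => ?_) (hc.req d hd)
    obtain ⟨-, u2⟩ := (sd_u5 W).1 hd
    rcases u2 with u2 | ⟨-, u3⟩
    · exact u2 (P.u d hf)
    · exact u3 (fpα d hf)
  · obtain ⟨l1, l2⟩ := (sdL_iff (w := w)).1 hd
    have hn : ¬ Fp S d2 d := fun hf => by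
      rw [P.lab d hf (by rw [fps d hf, fpα d hf])] at l1
      exact absurd l1 (by decide)
    have hn' : ¬ Fp S d2 (S.M.α d) := fun hf => by
      have := P.lab _ hf (by rw [fps _ hf, fpα _ hf])
      rw [W.L_α, l1] at this
      exact absurd this (by decide)
    exact (hc.lab d hd).imp (tr d hn) (tr _ hn')

/-- the solutions of the larger side: the second type -/
theorem MC.nest5 (hΔ : Δ ≤ 6) (h : MC Δ S L w) (hT : ConS S.M s true) (hF : ConS S.M s false)
    {s2 : V → Bool} (hs2 : ∀ z ∈ S.A, s2 z = if z = y then false else s z) (hT2 : ConS S.M s2 true)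
    (hF2 : ConS S.M s2 false) (h4 : S.rc s2 = 4) {k0 : D} (q0 : S.real k0 = true)
    (sk : s (S.M.v (S.M.α k0)) = false) (yk : S.M.v k0 ≠ y) (sk' : s (S.M.v k0) = true) {x : V}
    (hx : S.M.v k0 = x)
    (C : ∀ c, Sol (sd S w s true) (sdL S L s true) c → c y = c x)
    (Sp : ∀ c, Sol (sd S w s2 true) (sdL S L s2 true) c →
      (c n1 = c n2 ∧ c n3 = c x ∧ c n1 ≠ c n3) ∨ (c n1 = c x ∧ c n2 = c n3 ∧ c n1 ≠ c n2))
    (c : V → Bool) (hc : Sol (sd S w s true) (sdL S L s true) c) :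
    c n1 = c y ∧ c x = c y ∧ c n2 = c n3 ∧ c n1 ≠ c n2 := by
  classical
  have W := h.ok.toWf
  have rA := W.real_A
  have rα := W.real_α
  have hyx := C c hc
  have oth : ∀ {z}, z ∈ S.A → z ≠ y → s2 z = s z := fun hA hz => by rw [hs2 _ hA, if_neg hz]
  have hle : ∀ z ∈ S.A, s2 z = true → s z = true := fun z hA hz => by
    by_cases h0 : z = y
    · rw [h0]; exact sy
    · rw [← oth hA h0]; exact hz
  have ne : ∀ {d : D} {n : V}, S.real d = true → ((S.M.v d = y ∧ S.M.v (S.M.α d) = n) ∨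
      (S.M.v d = n ∧ S.M.v (S.M.α d) = y)) → n ≠ y ∧ n ∈ S.A ∧ y ∈ S.A := by
    intro d n hd hE
    have a1 := rA _ hd
    have a2 := rA (S.M.α d) (by rw [rα]; exact hd)
    rcases hE with ⟨b1, b2⟩ | ⟨b1, b2⟩ <;> rw [b1] at a1 <;> rw [b2] at a2
    · exact ⟨fun h0 => W.real_ne _ hd (by rw [b1, b2, h0]), a2, a1⟩
    · exact ⟨fun h0 => W.real_ne _ hd (by rw [b1, b2, h0]), a1, a2⟩
  obtain ⟨ne1, A1, Ay⟩ := ne r1 E1
  obtain ⟨ne2, A2, -⟩ := ne r2 E2
  obtain ⟨ne3, A3, -⟩ := ne r3 E3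
  have s2y : s2 y = false := by rw [hs2 _ Ay, if_pos rfl]
  have Ax : x ∈ S.A := by rw [← hx]; exact rA _ q0
  have sx : s2 x = true := by rw [← hx, oth (rA _ q0) yk]; exact sk'
  have t1 : s2 n1 = true := by rw [oth A1 ne1]; exact s1
  have t2 : s2 n2 = true := by rw [oth A2 ne2]; exact s2'
  have t3 : s2 n3 = true := by rw [oth A3 ne3]; exact s3
  have hv : Vi (sd S w s true) c k0 := hole_vi h.ok hT hF ⟨y, Ay, sy⟩
    ⟨_, rA _ (by rw [rα]; exact q0), sk⟩ (by rw [sk, sk']; decide) hc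
  -- a bichromatic edge on the smaller side
  obtain ⟨e0, r0, h1, h2, b0⟩ : ∃ e0, S.real e0 = true ∧ s2 (S.M.v e0) = true ∧
      s2 (S.M.v (S.M.α e0)) = true ∧ c (S.M.v e0) ≠ c (S.M.v (S.M.α e0)) := by
    by_contra hno
    push Not at hno
    have one : ∀ {z : V}, z ∈ S.A → s2 z = true → c z = c x := fun hz sz =>
      h.onec hΔ (s := s2) h4 (b := true) ⟨y, Ay, by rw [s2y]; decide⟩ (a := c)
        (fun d g1 g2 g3 => hno d g1 g2 g3) hz Ax sz sx
    obtain ⟨e, ⟨g1, g2⟩, -⟩ := hv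
    obtain ⟨g3, g4, g5⟩ := (sd_real rA rα).1 g1
    have al : ∀ d, S.real d = true → s (S.M.v d) = true → c (S.M.v d) = c x := by
      intro d hd hs
      by_cases h0 : S.M.v d = y
      · rw [h0, hyx]
      · exact one (rA _ hd) (by rw [oth (rA _ hd) h0]; exact hs)
    exact g2 ((al e g3 g4).trans (al (S.M.α e) (by rw [rα]; exact g3) g5).symm)
  have m0 : s2 (S.M.v k0) ≠ s2 (S.M.v (S.M.α k0)) := by
    have : s2 (S.M.v (S.M.α k0)) = false := by
      by_contra h0
      have := hle _ (rA _ (by rw [rα]; exact q0)) (by simpa using h0)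
      rw [sk] at this
      exact absurd this (by decide)
    rw [this, hx, sx]
    decide
  have h5 := Sp c (Sol.sub W hT2 hF2 hle hc r0 b0 h1 h2 m0 hv)
  rcases h5 with ⟨a1, a2, a3⟩ | ⟨a1, a2, a3⟩
  · exfalso
    have h6 := C _ (recol E1 E2 E3 n12 sy s1 s2' s3 on r1 r2 r3 m1 P f1 f2 m3 W hT hF hc
      (by rw [hyx, ← a2]; exact a3) a1.symm (by rw [a2, hyx]))
    have hxy : x ≠ y := fun h0 => yk (hx.trans h0)
    simp only [if_neg hxy] at h6
    exact a3 (h6.trans a2.symm)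
  · exact ⟨a1.trans hyx.symm, hyx.symm, a2, a3⟩

end nest

end Pool.FC7
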