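import Pool.Agent.FC7.Q5F

/-! # Cuts with four real edges next to a gap and a plain triangle -/

open Finset

set_option linter.unusedSectionVars false

namespace Pool.FC7

open Pool.FC6 Pool.FC6.St

variable {D V : Type} [Fintype D] [DecidableEq V] {S : St D V} {L : D → Bool} {w : D → ℕ} {Δ : ℕ}
  {s : V → Bool} {a k3 k4 : D}

theorem fp_sc {t d : D} (h : Fp S t d) : S.sc.r t d := by
  intro f hf
  rcases h with rfl | rfl | rfl
  · rfl
  · exact (hf.1 _).symm
  · rw [hf.1, hf.1]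

theorem fp_symm {t d : D} (h : Fp S t d) : Fp S d t := fp_trans h (Or.inl rfl)

/-- the cut edges -/
theorem Chy.kc_eq [DecidableEq D] (W : Wf Δ S L w) (H : Chy S s a k3 k4) (h34 : k3 ≠ k4) :
    kc S s = {S.M.φ a, S.M.α (S.M.φ (S.M.φ a)), k3, k4} := by
  have C := H.toCp
  have hN := C.ne_a W
  symm
  refine Finset.eq_of_subset_of_card_le (fun x hx => ?_) ?_
  · simp only [Finset.mem_insert, Finset.mem_singleton] at hx
    rcases hx with rfl | rfl | rfl | rfl
    exacts [C.k1 W, C.k2 W, H.K3, H.K4]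
  · rw [kc_card, H.h4, Finset.card_insert_of_notMem, Finset.card_insert_of_notMem,
      Finset.card_pair h34]
    · simp only [Finset.mem_insert, Finset.mem_singleton, not_or]
      exact ⟨fun h0 => H.n32 h0.symm, fun h0 => H.n42 h0.symm⟩
    · simp only [Finset.mem_insert, Finset.mem_singleton, not_or]
      exact ⟨fun h0 => hN.2.2.2.2.1 h0.symm, fun h0 => H.n31 h0.symm, fun h0 => H.n41 h0.symm⟩

omit [Fintype D] in
theorem perm_a [DecidableEq D] (k1 k2 k3 k4 : D) :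
    ({k1, k2, k3, k4} : Finset D) = {k3, k2, k1, k4} := by
  ext x
  simp only [Finset.mem_insert, Finset.mem_singleton]
  tauto

omit [Fintype D] in
theorem perm_b [DecidableEq D] (k1 k2 k3 k4 : D) :
    ({k1, k2, k3, k4} : Finset D) = {k2, k1, k3, k4} := by
  ext x
  simp only [Finset.mem_insert, Finset.mem_singleton]
  tauto

theorem bool_ne : ∀ p q : Bool, ¬ p = q → p = !q := by decide

/-- the solutions of a side -/
theorem MC.side_ex (hΔ : Δ ≤ 6) (h : MC Δ S L w) (h7 : S.rc s ≤ 7) {b : Bool} (h2 : S.Two s b)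
    (h3 : ∃ x ∈ S.A, s x ≠ b) : ∃ cb, Sol (sd S w s b) (sdL S L s b) cb := by
  classical
  have W := h.ok.toWf
  have rA := W.real_A
  have rα := W.real_α
  obtain ⟨d, hd⟩ : ∃ d, S.real d = true ∧ s (S.M.v d) = b ∧ s (S.M.v (S.M.α d)) = b := by
    cases b
    · obtain ⟨d, d1, d2, d3⟩ := h.inner hΔ (s := fun x => !s x) (by rw [rc_neg rα]; omega) (by
        obtain ⟨x, hx, y, hy, hxy, sx, sy⟩ := h2
        exact ⟨x, hx, y, hy, hxy, by simp [sx], by simp [sy]⟩)
      exact ⟨d, d1, by simpa using d2, by simpa using d3⟩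
    · exact h.inner hΔ h7 h2
  have hne : ∃ d, (S.del (S.A.filter fun x => s x ≠ b)).real d = true :=
    ⟨d, (sd_real (w := w) rA rα).2 hd⟩
  obtain ⟨z, hz, hzb⟩ := h3
  exact h.min D V _ _ _ (h.w1.dl _) (h.ok.dl hne) (mu_dl h.ok hΔ
      (Finset.filter_subset _ _) ⟨z, Finset.mem_filter.2 ⟨hz, hzb⟩⟩ hne)

/-- S1 -/
theorem Chy.no (hΔ : Δ ≤ 6) (h : MC Δ S L w) (H : Chy S s a k3 k4) (h34 : k3 ≠ k4)
    (h1 : S.Two s true) (h2 : S.Two s false)
    (F : (Pt S L s (S.M.α (S.M.φ (S.M.φ a))) ∧ Fp S (S.M.α (S.M.φ (S.M.φ a))) (S.M.α k3)) ∨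
      (Pt S L s k3 ∧ Fp S k3 (S.M.α (S.M.φ a)))) : False := by
  classical
  have W := h.ok.toWf
  have rα := W.real_α
  have rA := W.real_A
  have C := H.toCp
  have hT := H.hT
  have hF := H.hF
  have hyA : S.M.v (S.M.φ (S.M.φ a)) ∈ S.A := rA _ C.rb'
  obtain ⟨vA, vA'⟩ := H.vaA W
  obtain ⟨cb, e1, e2, e3⟩ := H.ex W hΔ h h1
  obtain ⟨cf, e4⟩ := h.side_ex hΔ (by rw [H.h4]; omega) h2 ⟨_, vA, by rw [C.sa]; decide⟩
  have vi : ∀ (b : Bool) (cb : V → Bool), Sol (sd S w s b) (sdL S L s b) cb → ∀ d0,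
      s (S.M.v d0) ≠ s (S.M.v (S.M.α d0)) → Vi (sd S w s b) cb d0 := fun b cb hcb d0 hd0 =>
    hole_vi h.ok hT hF ⟨_, vA, C.sa⟩ ⟨_, hyA, C.sy⟩ hd0 hcb
  have mk : ∀ b' : V → Bool, Sol (sd S w s false) (sdL S L s false) b' →
      Sides S L w s (fun x => if s x = true then cb x else b' x) := by
    intro b' hb' d0 hd0 β
    cases β
    · exact ⟨b', fun x hx => if_neg (by rw [hx]; decide), hb', vi _ _ hb' d0 hd0⟩
    · exact ⟨cb, fun x hx => if_pos hx, e3, vi _ _ e3 d0 hd0⟩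
  have S1 := mk cf e4
  have S2 := mk _ e4.neg
  have hx : ∀ x, s x = true → (if s x = true then cb x else cf x) =
      (if s x = true then cb x else !cf x) := fun x h => by rw [if_pos h, if_pos h]
  have hy : ∀ x, s x = false → (if s x = true then cb x else cf x) =
      !(if s x = true then cb x else !cf x) := fun x h => by
    rw [if_neg (by rw [h]; decide), if_neg (by rw [h]; decide), Bool.not_not]
  have hx' := fun x h => (hx x h).symm
  have hy' : ∀ x, s x = false → (if s x = true then cb x else !cf x) =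
      !(if s x = true then cb x else cf x) := fun x h => by
    rw [hy x h, Bool.not_not]
  obtain ⟨k1, hk1⟩ : ∃ k1, k1 = S.M.φ a := ⟨_, rfl⟩
  obtain ⟨k2, hk2⟩ : ∃ k2, k2 = S.M.α (S.M.φ (S.M.φ a)) := ⟨_, rfl⟩
  have hK := H.kc_eq W h34
  have K1 := C.k1 W
  have K2 := C.k2 W
  have hN := C.ne_a W
  have h12 : k1 ≠ k2 := by rw [hk1, hk2]; exact fun h0 => hN.2.2.2.2.1 h0.symm
  have hαk2 : S.M.φ (S.M.φ a) = S.M.α k2 := by rw [hk2, S.M.αα]
  have h31 := H.n31
  have h32 := H.n32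
  have h41 := H.n41
  have h42 := H.n42
  rw [← hk2] at hK K2 F h32 h42
  rw [← hk1] at hK K1 F h31 h41
  have mem : ∀ {k}, k ∈ kc S s → k = k1 ∨ k = k2 ∨ k = k3 ∨ k = k4 := fun {k} hk => by
    rw [hK] at hk
    simpa using hk
  have f21 : S.sc.r (S.M.α k2) k1 := by
    rw [← hαk2, hk1]
    exact S.sc.iseqv.symm ((scφ _ _).2 (S.sc.iseqv.refl _))
  -- the chord is used
  have HC : ∀ b' : V → Bool, Sol (sd S w s false) (sdL S L s false) b' → ∀ c : V → Bool,
      (∀ x, s x = true → c x = cb x) → (∀ x, s x = false → c x = b' x) →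
      c (S.M.v k1) = c (S.M.v (S.M.α k1)) → c (S.M.v k2) = c (S.M.v (S.M.α k2)) →
      c (S.M.v k3) ≠ c (S.M.v (S.M.α k3)) → c (S.M.v k4) ≠ c (S.M.v (S.M.α k4)) →
      ∃ c, Sol S L c := by
    intro b' hb' c c1 c2 m1 m2 n3 n4
    refine ⟨c, C.sol W hT hF H.ur H.uy (fun x _ => c1 x) (fun x _ => c2 x) ?_ ?_
      (fun k hk n1 n2 => ?_) e1 e2 hb'
      (vi _ _ hb' _ (mix_kc (C.k2 W)))⟩
    · rw [← hk1]; exact m1
    · rw [hαk2, S.M.αα]; exact m2.symm
    · rw [← hk1] at n1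
      rw [← hk2] at n2
      rcases mem hk with e | e | e | e
      · exact absurd e n1
      · exact absurd e n2
      · rw [e]; exact n3
      · rw [e]; exact n4
  have HC1 := HC cf e4 (fun x => if s x = true then cb x else cf x)
    (fun x hx => if_pos hx) (fun x hx => if_neg (by rw [hx]; decide))
  have HC2 := HC _ e4.neg (fun x => if s x = true then cb x else !cf x)
    (fun x hx => if_pos hx) (fun x hx => if_neg (by rw [hx]; decide))
  apply h.no
  rcases F with ⟨P, f⟩ | ⟨P, f⟩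
  · -- the order `k3, k2, k1, k4`
    have hK' : kc S s = {k3, k2, k1, k4} := hK.trans (perm_a _ _ _ _)
    have f32 : S.sc.r (S.M.α k3) k2 := S.sc.iseqv.symm (fp_sc f)
    have FC : ∀ c : V → Bool, Sides S L w s c → c (S.M.v k3) = c (S.M.v (S.M.α k3)) →
        c (S.M.v k2) = c (S.M.v (S.M.α k2)) → c (S.M.v k2) = c (S.M.v k3) →
        c (S.M.v k1) ≠ c (S.M.v (S.M.α k1)) → c (S.M.v k4) ≠ c (S.M.v (S.M.α k4)) →
        ∃ c, Sol S L c := by
      intro c hc m3 m2 m23 n1 n4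
      refine ⟨c, sol_of_face W hT hF hc K2 H.K3 K1 (Ne.symm h32) h12 (Ne.symm h31) P f m2 m3 m23
        fun k hk a b => ?_⟩
      rcases mem hk with e | e | e | e
      · rw [e]; exact n1
      · exact absurd e a
      · exact absurd e b
      · rw [e]; exact n4
    by_cases m2 : (if s (S.M.v k2) = true then cb (S.M.v k2) else cf (S.M.v k2)) =
        (if s (S.M.v (S.M.α k2)) = true then cb (S.M.v (S.M.α k2)) else cf (S.M.v (S.M.α k2)))
    · exact core5 W hT hF hx hy S1 S2 hK' h32 h31 h34 h12.symm (Ne.symm h42) (Ne.symm h41)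
        f32 f21 (fun m3 m2 m23 n1 n4 => FC _ S1 m3 m2 m23 n1 n4)
        (fun m2 m1 _ n3 n4 => HC1 m1 m2 n3 n4) m2
    · refine core5 W hT hF hx' hy' S2 S1 hK' h32 h31 h34 h12.symm (Ne.symm h42) (Ne.symm h41)
        f32 f21 (fun m3 m2 m23 n1 n4 => FC _ S2 m3 m2 m23 n1 n4)
        (fun m2 m1 _ n3 n4 => HC2 m1 m2 n3 n4) ?_
      obtain ⟨-, a1, a2⟩ := mem_kc.1 K2
      rw [if_pos a1, if_neg (by rw [a2]; decide)] at m2 ⊢
      exact bool_ne _ _ m2
  · -- the order `k2, k1, k3, k4`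
    have hK' : kc S s = {k2, k1, k3, k4} := hK.trans (perm_b _ _ _ _)
    have f13 : S.sc.r (S.M.α k1) k3 := S.sc.iseqv.symm (fp_sc f)
    have FC : ∀ c : V → Bool, Sides S L w s c → c (S.M.v k1) = c (S.M.v (S.M.α k1)) →
        c (S.M.v k3) = c (S.M.v (S.M.α k3)) → c (S.M.v k3) = c (S.M.v k1) →
        c (S.M.v k2) ≠ c (S.M.v (S.M.α k2)) → c (S.M.v k4) ≠ c (S.M.v (S.M.α k4)) →
        ∃ c, Sol S L c := by
      intro c hc m1 m3 m31 n2 n4
      refine ⟨c, sol_of_face W hT hF hc H.K3 K1 K2 h31 (Ne.symm h32) (Ne.symm h12) P f m3 m1 m31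
        fun k hk a b => ?_⟩
      rcases mem hk with e | e | e | e
      · exact absurd e b
      · rw [e]; exact n2
      · exact absurd e a
      · rw [e]; exact n4
    by_cases m1 : (if s (S.M.v k1) = true then cb (S.M.v k1) else cf (S.M.v k1)) =
        (if s (S.M.v (S.M.α k1)) = true then cb (S.M.v (S.M.α k1)) else cf (S.M.v (S.M.α k1)))
    · exact core5 W hT hF hx hy S1 S2 hK' h12.symm (Ne.symm h32) (Ne.symm h42) (Ne.symm h31)
        (Ne.symm h41) h34 f21 f13 (fun m2 m1 _ n3 n4 => HC1 m1 m2 n3 n4)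
        (fun m1 m3 m31 n2 n4 => FC _ S1 m1 m3 m31 n2 n4) m1
    · refine core5 W hT hF hx' hy' S2 S1 hK' h12.symm (Ne.symm h32) (Ne.symm h42) (Ne.symm h31)
        (Ne.symm h41) h34 f21 f13 (fun m2 m1 _ n3 n4 => HC2 m1 m2 n3 n4)
        (fun m1 m3 m31 n2 n4 => FC _ S2 m1 m3 m31 n2 n4) ?_
      obtain ⟨-, a1, a2⟩ := mem_kc.1 K1
      rw [if_pos a1, if_neg (by rw [a2]; decide)] at m1 ⊢
      exact bool_ne _ _ m1

end Pool.FC7
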