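import Pool.Agent.FC7.Q5V
import Pool.Agent.FC7.Q5G

/-! # The ear state of one side of a cut

The virtual dart `a` and its triangle are on the side `true` of a cut with four edges, three of which
start at one vertex `y`; `a` connects `y` with the fourth vertex.  The ear state: the side `true` with
the real edge `a` and at least three units on the triangle of `a`. -/

open Finset

set_option linter.unusedSectionVars false

namespace Pool.FC7

open Pool.FC6 Pool.FC6.St

variable {D V : Type} [Fintype D] [DecidableEq V] {S : St D V} {L : D → Bool} {w : D → ℕ} {Δ : ℕ}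
  {U : D → ℕ}

/-- the units of the ear state -/
noncomputable def eru (S : St D V) (w : D → ℕ) (s : V → Bool) (k a : D) (U : D → ℕ) (d : D) : ℕ :=
  open Classical in
  if Fp S a d then U d else if (sd S w s true).sc.r k d then 0 else (sd S w s true).u d

/-- the ear state -/
noncomputable def Er (S : St D V) (w : D → ℕ) (s : V → Bool) (k a : D) (U : D → ℕ) : St D V :=
  wE (sd S w s true) a (eru S w s k a U)

/-- the hypotheses on the ear -/
structure Erp (S : St D V) (w : D → ℕ) (s : V → Bool) (k a : D) (y : V) (U : D → ℕ) : Prop where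
  ra : S.real a = false
  r1 : S.real (S.M.φ a) = true
  r2 : S.real (S.M.φ (S.M.φ a)) = true
  s0 : s (S.M.v a) = true
  s1 : s (S.M.v (S.M.α a)) = true
  s2 : s (S.M.v (S.M.φ (S.M.φ a))) = true
  hT : ConS S.M s true
  hF : ConS S.M s false
  h4 : S.rc s = 4
  K : k ∈ kc S s
  ky : ∀ k' ∈ kc S s, k' = k ∨ S.M.v k' = y
  e : (S.M.v a = S.M.v k ∧ S.M.v (S.M.α a) = y ∧ U a ≤ S.u k ∧ U (S.M.φ a) ≤ 2) ∨
    (S.M.v a = y ∧ S.M.v (S.M.α a) = S.M.v k ∧ U a ≤ 2 ∧ U (S.M.φ a) ≤ S.u (S.M.φ a))
  un : U (S.M.φ (S.M.φ a)) ≤ S.u (S.M.φ (S.M.φ a))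
  nky : S.M.v k ≠ y
  np : ∀ r, S.real r = true → S.M.v r = y → S.M.v (S.M.α r) ≠ S.M.v k
  hol : (sd S w s true).sc.r k a
  U3 : 3 ≤ U a + U (S.M.φ a) + U (S.M.φ (S.M.φ a))

/-- the mixed darts belong to one face of a side -/
theorem sd_hole (W : Wf Δ S L w) {s : V → Bool} (hT : ConS S.M s true) (hF : ConS S.M s false)
    {b : Bool} {k d : D} (hk : s (S.M.v k) ≠ s (S.M.v (S.M.α k)))
    (hd : s (S.M.v d) ≠ s (S.M.v (S.M.α d))) : (sd S w s b).sc.r k d := by
  intro t ht
  have hr : ∀ e, s (S.M.v e) ≠ s (S.M.v (S.M.α e)) → (sd S w s b).real e = false :=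
    fun e he => sd_virt W.real_A W.real_α he
  let g : D → ℝ := fun e => if t e = t k then 1 else 0
  have gφ : ∀ e, g (S.M.φ e) = g e := fun e => by
    show (if t (S.M.φ e) = t k then (1 : ℝ) else 0) = if t e = t k then 1 else 0
    rw [show t (S.M.φ e) = t e from ht.1 e]
  have gα : ∀ e, (sd S w s b).real e = false → g (S.M.α e) = g e := fun e he => by
    show (if t (S.M.α e) = t k then (1 : ℝ) else 0) = if t e = t k then 1 else 0
    rw [show t (S.M.α e) = t e from ht.2 e he]
  have k1 := cut_const S.M hT hF gφ (fun e he => gα e (hr e he)) hd hk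
  by_contra hn
  have a1 : g d = 0 := if_neg fun h0 => hn h0.symm
  have a2 : g k = 1 := if_pos rfl
  rw [a1, a2] at k1
  exact zero_ne_one k1

section

variable {s : V → Bool} {k a : D} {y : V} (W : Wf Δ S L w) (H : Erp S w s k a y U)

include W H

theorem Erp.ne : S.M.v a ≠ S.M.v (S.M.α a) := by
  rcases H.e with ⟨h1, h2, -, -⟩ | ⟨h1, h2, -, -⟩
  · rw [h1, h2]; exact H.nky
  · rw [h1, h2]; exact H.nky.symm

theorem Erp.n0 : S.M.v (S.M.φ (S.M.φ a)) ≠ S.M.v a := by
  have := W.real_ne _ H.r2
  rwa [S.M.vφ2] at this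

theorem Erp.n1 : S.M.v (S.M.φ (S.M.φ a)) ≠ S.M.v (S.M.α a) := by
  have := W.real_ne _ H.r1
  rw [← S.M.vφ (S.M.φ a), S.M.vφ a] at this
  exact this.symm

theorem Erp.fpv {d : D} (hd : Fp S a d) : s (S.M.v d) = true ∧ s (S.M.v (S.M.α d)) = true := by
  rcases hd with rfl | rfl | rfl
  · exact ⟨H.s0, H.s1⟩
  · exact ⟨by rw [S.M.vφ]; exact H.s1, by rw [← S.M.vφ]; exact H.s2⟩
  · exact ⟨H.s2, by rw [S.M.vφ2]; exact H.s0⟩

theorem Erp.nα {d : D} (hd : Fp S a d) : ¬ Fp S a (S.M.α d) := by
  intro h2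
  have h3 := fp_trans hd h2
  have ra' : S.real (S.M.α a) = false := by rw [W.real_α]; exact H.ra
  rcases hd with rfl | rfl | rfl
  · rcases h2 with h4 | h4 | h4
    · exact S.M.αne _ h4
    · rw [h4, H.r1] at ra'; exact absurd ra' (by decide)
    · rw [h4, H.r2] at ra'; exact absurd ra' (by decide)
  · rcases h2 with h4 | h4 | h4
    · have : S.M.φ a = S.M.α a := by
        have h5 := congrArg S.M.α h4
        rwa [S.M.αα] at h5
      rw [← this, H.r1] at ra'; exact absurd ra' (by decide)
    · exact S.M.αne _ h4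
    · have := H.ne W
      apply this
      rw [← S.M.vφ2 a, ← h4, S.M.αα, S.M.vφ]
  · rcases h2 with h4 | h4 | h4
    · have : S.M.φ (S.M.φ a) = S.M.α a := by
        have h5 := congrArg S.M.α h4
        rwa [S.M.αα] at h5
      rw [← this, H.r2] at ra'; exact absurd ra' (by decide)
    · have := H.ne W
      apply this
      rw [← S.M.vφ2 a, h4, S.M.vφ]
    · exact S.M.αne _ h4

theorem Erp.sr1 : (sd S w s true).real (S.M.φ a) = true :=
  (sd_real W.real_A W.real_α).2 ⟨H.r1, (H.fpv W (Or.inr (Or.inl rfl)))⟩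

theorem Erp.sr2 : (sd S w s true).real (S.M.φ (S.M.φ a)) = true :=
  (sd_real W.real_A W.real_α).2 ⟨H.r2, (H.fpv W (Or.inr (Or.inr rfl)))⟩

theorem Erp.sra : (sd S w s true).real a = false := by
  by_contra h0
  have := ((sd_real (w := w) W.real_A W.real_α).1 (by simpa using h0)).1
  rw [H.ra] at this
  exact absurd this (by decide)

theorem Erp.rd {d : D} : (Er S w s k a U).real d = true ↔ (S.real d = true ∧ s (S.M.v d) = true ∧
    s (S.M.v (S.M.α d)) = true) ∨ d = a ∨ d = S.M.α a := by
  unfold Er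
  rw [wE_real, sd_real W.real_A W.real_α]
  exact Iff.rfl

theorem Erp.hfp {d : D} (hd : Fp S a d) : (sd S w s true).sc.r k d := by
  have h1 := H.hol
  rcases hd with rfl | rfl | rfl
  · exact h1
  · exact (scφ (S := sd S w s true) _ _).2 h1
  · exact (scφ (S := sd S w s true) _ _).2 ((scφ (S := sd S w s true) _ _).2 h1)

theorem Erp.hmx {d : D} (hd : s (S.M.v d) ≠ s (S.M.v (S.M.α d))) : (sd S w s true).sc.r k d :=
  sd_hole W H.hT H.hF (mix_kc H.K) hd

theorem Erp.hαa : (sd S w s true).sc.r k (S.M.α a) :=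
  (scα (S := sd S w s true) (H.sra W) _).2 H.hol

theorem Erp.u_in {d : D} (hd : Fp S a d) : eru S w s k a U d = U d := if_pos hd

theorem Erp.u_h {d : D} (hd : ¬ Fp S a d) (h : (sd S w s true).sc.r k d) :
    eru S w s k a U d = 0 := by
  unfold eru
  rw [if_neg hd, if_pos h]

theorem Erp.u_o {d : D} (h : ¬ (sd S w s true).sc.r k d) :
    eru S w s k a U d = (sd S w s true).u d := by
  unfold eru
  rw [if_neg fun h0 => h (H.hfp W h0), if_neg h]

/-- units off the hole -/
theorem Erp.sdu {d : D} (hd : s (S.M.v d) = true) (h : ¬ (sd S w s true).sc.r k d) :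
    (sd S w s true).u d = S.u d := by
  rw [sd_u W hd, if_neg]
  · rfl
  · rintro ⟨-, h2⟩
    exact h (H.hmx W (by rw [hd]; exact fun h3 => h2 h3.symm))

theorem Erp.u_le {d : D} (hd : s (S.M.v d) = true) (hf : ¬ Fp S a d) :
    eru S w s k a U d ≤ S.u d := by
  by_cases h : (sd S w s true).sc.r k d
  · rw [H.u_h W hf h]; exact Nat.zero_le _
  · rw [H.u_o W h, H.sdu W hd h]

open Classical in
/-- at least three cut edges at `y` -/
theorem Erp.k3 : 3 ≤ ∑ d, (if S.M.v d = y ∧ d ∈ kc S s then 1 else 0) := by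
  classical
  have h1 : (kc S s).card = 4 := by rw [kc_card, H.h4]
  have h2 : ((kc S s).erase k).card = 3 := by rw [Finset.card_erase_of_mem H.K, h1]
  have h3 : ∑ d, (if S.M.v d = y ∧ d ∈ kc S s then 1 else 0) =
      (Finset.univ.filter fun d => S.M.v d = y ∧ d ∈ kc S s).card := by
    rw [Finset.card_filter]
  rw [h3, ← h2]
  refine Finset.card_le_card fun d hd => ?_
  obtain ⟨d1, d2⟩ := Finset.mem_erase.1 hd
  exact Finset.mem_filter.2 ⟨Finset.mem_univ _, (H.ky d d2).resolve_left d1, d2⟩

/-- the degrees in the ear state -/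
theorem Erp.deg {x : V} (hx : x ∈ (Er S w s k a U).A) :
    ∑ d, (if S.M.v d = x then (if (Er S w s k a U).real d = true then 1 else 0) +
      eru S w s k a U d + dw S w (S.A.filter fun y => s y ≠ true) d else 0) ≤ Δ := by
  classical
  have hx' : x ∈ S.A ∧ s x = true := (sd_A (w := w)).1 hx
  have rA := W.real_A
  have rα := W.real_α
  obtain ⟨w', hw'⟩ : ∃ w', w' = dw S w (S.A.filter fun y => s y ≠ true) := ⟨_, rfl⟩
  rw [← hw']
  have dr : ∀ d, (S.del (S.A.filter fun y => s y ≠ true)).real d = true ↔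
      S.real d = true ∧ s (S.M.v d) = true ∧ s (S.M.v (S.M.α d)) = true := fun d =>
    sd_real (w := w) rA rα
  have w0 : ∀ d, w' d ≤ (if S.real d = true ∧ s (S.M.v d) = true ∧ s (S.M.v (S.M.α d)) = true
      then w d else 0) := fun d => by
    rw [hw']
    unfold dw
    by_cases h0 : (S.del (S.A.filter fun y => s y ≠ true)).real d = true
    · rw [if_pos h0, if_pos ((dr d).1 h0)]
    · rw [if_neg h0]; exact Nat.zero_le _
  -- gains and losses
  let G : D → ℕ := fun d => if S.M.v d = x then (if d = a ∨ d = S.M.α a then 1 else 0) +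
    (if Fp S a d then U d - S.u d else 0) else 0
  let Ls : D → ℕ := fun d => if S.M.v d = x ∧ d ∈ kc S s then 1 + S.u d else 0
  have pt : ∀ d, (if S.M.v d = x then (if (Er S w s k a U).real d = true then 1 else 0) +
      eru S w s k a U d + w' d else 0) + Ls d ≤
      (if S.M.v d = x then (if S.real d = true then 1 else 0) + S.u d + w d else 0) + G d := by
    intro d
    show _ + (if S.M.v d = x ∧ d ∈ kc S s then 1 + S.u d else 0) ≤ _ +
      (if S.M.v d = x then (if d = a ∨ d = S.M.α a then 1 else 0) +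
        (if Fp S a d then U d - S.u d else 0) else 0)
    by_cases hv : S.M.v d = x
    · rw [if_pos hv, if_pos hv, if_pos hv]
      have hs : s (S.M.v d) = true := by rw [hv]; exact hx'.2
      by_cases hk : d ∈ kc S s
      · obtain ⟨q1, q2, q3⟩ := mem_kc.1 hk
        have hnf : ¬ Fp S a d := fun h0 => by
          rw [(H.fpv W h0).2] at q3
          exact absurd q3 (by decide)
        have e1 : ¬ (Er S w s k a U).real d = true := by
          rw [H.rd W]
          rintro (h0 | h0 | h0)
          · rw [q3] at h0; exact absurd h0.2.2 (by decide)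
          · rw [h0, H.ra] at q1; exact absurd q1 (by decide)
          · rw [h0, rα, H.ra] at q1; exact absurd q1 (by decide)
        have e2 := w0 d
        rw [if_neg (c := S.real d = true ∧ s (S.M.v d) = true ∧ s (S.M.v (S.M.α d)) = true)
          (fun h0 => by rw [q3] at h0; exact absurd h0.2.2 (by decide))] at e2
        rw [if_pos (c := S.M.v d = x ∧ d ∈ kc S s) ⟨hv, hk⟩,
          if_neg (c := (Er S w s k a U).real d = true) e1,
          H.u_h W hnf (H.hmx W (by rw [q2, q3]; decide)), if_pos (c := S.real d = true) q1]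
        omega
      · rw [if_neg (c := S.M.v d = x ∧ d ∈ kc S s) fun h0 => hk h0.2]
        have e2 : w' d ≤ w d := by
          refine (w0 d).trans ?_
          split_ifs
          · exact le_rfl
          · exact Nat.zero_le _
        have e1 : (if (Er S w s k a U).real d = true then 1 else 0) ≤
            (if S.real d = true then 1 else 0) + (if d = a ∨ d = S.M.α a then 1 else 0) := by
          by_cases h0 : (Er S w s k a U).real d = true
          · rw [if_pos h0]
            rcases (H.rd W).1 h0 with h5 | h5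
            · rw [if_pos h5.1]; omega
            · rw [if_pos h5]; omega
          · rw [if_neg h0]; exact Nat.zero_le _
        by_cases hf : Fp S a d
        · rw [H.u_in W hf, if_pos hf]
          omega
        · rw [if_neg hf]
          have := H.u_le W hs hf
          omega
    · rw [if_neg hv, if_neg hv, if_neg hv, if_neg fun h0 => hv h0.1]
  have hsum := Finset.sum_le_sum fun d (_ : d ∈ (Finset.univ : Finset D)) => pt d
  rw [Finset.sum_add_distrib, Finset.sum_add_distrib] at hsum
  have hdeg := W.deg x hx'.1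
  have fa : Fp S a a := Or.inl rfl
  have f1 : Fp S a (S.M.φ a) := Or.inr (Or.inl rfl)
  have f2 : Fp S a (S.M.φ (S.M.φ a)) := Or.inr (Or.inr rfl)
  -- the gain is concentrated on four darts
  have hG : ∑ d, G d ≤ G a + G (S.M.α a) + G (S.M.φ a) + G (S.M.φ (S.M.φ a)) := by
    have n1 : a ≠ S.M.α a := fun h0 => S.M.αne a h0.symm
    have n2 : a ≠ S.M.φ a := fun h0 => S.M.φne a h0.symm
    have n3 : a ≠ S.M.φ (S.M.φ a) := fun h0 => by
      have := congrArg S.M.φ h0
      rw [S.M.φ3] at this
      exact S.M.φne a this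
    have n4 : S.M.α a ≠ S.M.φ a := fun h0 => H.nα W fa (by rw [h0]; exact f1)
    have n5 : S.M.α a ≠ S.M.φ (S.M.φ a) := fun h0 => H.nα W fa (by rw [h0]; exact f2)
    have n6 : S.M.φ a ≠ S.M.φ (S.M.φ a) := fun h0 => n2 (S.M.φinj h0)
    have h0 : ∑ d, G d = ∑ d ∈ ({a, S.M.α a, S.M.φ a, S.M.φ (S.M.φ a)} : Finset D), G d := by
      symm
      refine Finset.sum_subset (Finset.subset_univ _) fun d _ hd => ?_
      simp only [Finset.mem_insert, Finset.mem_singleton, not_or] at hd
      show (if S.M.v d = x then (if d = a ∨ d = S.M.α a then 1 else 0) +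
        (if Fp S a d then U d - S.u d else 0) else 0) = 0
      rw [if_neg (c := d = a ∨ d = S.M.α a) (fun h0 => h0.elim hd.1 hd.2.1), if_neg (c := Fp S a d)]
      · simp
      · rintro (h0 | h0 | h0)
        · exact hd.1 h0
        · exact hd.2.2.1 h0
        · exact hd.2.2.2 h0
    rw [h0, Finset.sum_insert (by simp [n1, n2, n3]), Finset.sum_insert (by simp [n4, n5]),
      Finset.sum_pair n6]
    omega
  have hra' : S.M.v (S.M.φ a) = S.M.v (S.M.α a) := S.M.vφ a
  have hαf : ¬ Fp S a (S.M.α a) := H.nα W fa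
  have gn : G (S.M.φ (S.M.φ a)) = 0 := by
    show (if S.M.v (S.M.φ (S.M.φ a)) = x then (if S.M.φ (S.M.φ a) = a ∨
      S.M.φ (S.M.φ a) = S.M.α a then 1 else 0) + (if Fp S a (S.M.φ (S.M.φ a)) then
        U (S.M.φ (S.M.φ a)) - S.u (S.M.φ (S.M.φ a)) else 0) else 0) = 0
    by_cases h0 : S.M.v (S.M.φ (S.M.φ a)) = x
    · rw [if_pos h0, if_neg, if_pos f2]
      · have := H.un
        omega
      · rintro (h1 | h1)
        · have := congrArg S.M.φ h1
          rw [S.M.φ3] at this
          exact S.M.φne a this.symm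
        · exact hαf (by rw [← h1]; exact f2)
    · rw [if_neg h0]
  have lk : ∀ d, d ∈ kc S s → S.M.v d = x → 1 + S.u d ≤ ∑ d, Ls d := by
    intro d hd hv
    refine le_trans (le_of_eq ?_) (Finset.single_le_sum (f := Ls) (fun _ _ => Nat.zero_le _)
      (Finset.mem_univ d))
    show _ = (if S.M.v d = x ∧ d ∈ kc S s then 1 + S.u d else 0)
    rw [if_pos ⟨hv, hd⟩]
  have g0 : S.M.v a ≠ x → G a = 0 := fun h0 => if_neg h0
  have g1 : S.M.v (S.M.α a) ≠ x → G (S.M.α a) = 0 := fun h0 => if_neg h0
  have g2 : S.M.v (S.M.α a) ≠ x → G (S.M.φ a) = 0 := fun h0 => if_neg (by rw [hra']; exact h0)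
  have g0' : G a ≤ 1 + U a := by
    show (if S.M.v a = x then (if a = a ∨ a = S.M.α a then 1 else 0) +
      (if Fp S a a then U a - S.u a else 0) else 0) ≤ _
    split_ifs <;> omega
  have g1' : G (S.M.α a) ≤ 1 := by
    show (if S.M.v (S.M.α a) = x then (if S.M.α a = a ∨ S.M.α a = S.M.α a then 1 else 0) +
      (if Fp S a (S.M.α a) then U (S.M.α a) - S.u (S.M.α a) else 0) else 0) ≤ _
    rw [if_neg hαf]
    split_ifs <;> omega
  have g2' : G (S.M.φ a) ≤ U (S.M.φ a) - S.u (S.M.φ a) := by
    show (if S.M.v (S.M.φ a) = x then (if S.M.φ a = a ∨ S.M.φ a = S.M.α a then 1 else 0) +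
      (if Fp S a (S.M.φ a) then U (S.M.φ a) - S.u (S.M.φ a) else 0) else 0) ≤ _
    rw [if_neg (c := S.M.φ a = a ∨ S.M.φ a = S.M.α a), if_pos f1]
    · split_ifs <;> omega
    · rintro (h1 | h1)
      · exact S.M.φne a h1
      · exact hαf (by rw [← h1]; exact f1)
  have gl : ∑ d, G d ≤ ∑ d, Ls d := by
    by_cases hy : x = y
    · have h3 : 3 ≤ ∑ d, Ls d := by
        refine le_trans (H.k3 W) (Finset.sum_le_sum fun d _ => ?_)
        show _ ≤ (if S.M.v d = x ∧ d ∈ kc S s then 1 + S.u d else 0)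
        rw [hy]
        split_ifs <;> omega
      rcases H.e with ⟨q1, q2, q3, q4⟩ | ⟨q1, q2, q3, q4⟩
      · have := g0 (by rw [q1, hy]; exact H.nky)
        omega
      · have h5 : S.M.v (S.M.α a) ≠ x := by rw [q2, hy]; exact H.nky
        have := g1 h5
        have := g2 h5
        omega
    · by_cases hk : x = S.M.v k
      · have h3 := lk k H.K hk.symm
        rcases H.e with ⟨q1, q2, q3, q4⟩ | ⟨q1, q2, q3, q4⟩
        · have h5 : S.M.v (S.M.α a) ≠ x := by rw [q2]; exact fun h0 => hy h0.symm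
          have := g1 h5
          have := g2 h5
          omega
        · have := g0 (by rw [q1]; exact fun h0 => hy h0.symm)
          omega
      · have a1 : S.M.v a ≠ x := by
          rcases H.e with ⟨q1, q2, q3, q4⟩ | ⟨q1, q2, q3, q4⟩
          · rw [q1]; exact fun h0 => hk h0.symm
          · rw [q1]; exact fun h0 => hy h0.symm
        have a2 : S.M.v (S.M.α a) ≠ x := by
          rcases H.e with ⟨q1, q2, q3, q4⟩ | ⟨q1, q2, q3, q4⟩
          · rw [q2]; exact fun h0 => hy h0.symm
          · rw [q2]; exact fun h0 => hk h0.symm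
        have := g0 a1
        have := g1 a2
        have := g2 a2
        omega
  omega

end

end Pool.FC7
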