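import Pool.Agent.FC7.Q5V
import Pool.Agent.FC7.Q5R
import Pool.Agent.FC7.Q6A

/-! # Three pairwise adjacent vertices of degree four: the swap

`x, z, v` are pairwise adjacent vertices with four real edges on the side `true` of a cut; the fourth
edges of `z` and `v` are cut edges.  A solution of the side without `x, z, v` extends to two solutions
of the side, with the colours of `z` and `v` exchanged. -/

open Finset

set_option linter.unusedSectionVars false

namespace Pool.FC7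

open Pool.FC6 Pool.FC6.St

variable {D V : Type} [Fintype D] [DecidableEq V] {S : St D V} {L : D → Bool} {w : D → ℕ} {Δ : ℕ}

/-- the darts `a1 : x → w`, `a2 : x → v`, `a3 : x → z`, `a4 : x → y`, `b : v → q2`, `c : z → q1` -/
structure Sw3 (S : St D V) (s : V → Bool) (a1 a2 a3 a4 b c : D) : Prop where
  r1 : S.real a1 = true
  r2 : S.real a2 = true
  r3 : S.real a3 = true
  r4 : S.real a4 = true
  rm : S.real (S.M.φ a2) = true
  rn : S.real (S.M.φ a3) = true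
  rl : S.real (S.M.φ a4) = true
  rb : S.real b = true
  rc : S.real c = true
  v2 : S.M.v a2 = S.M.v a1
  v3 : S.M.v a3 = S.M.v a1
  v4 : S.M.v a4 = S.M.v a1
  vb : S.M.v b = S.M.v (S.M.α a2)
  vc : S.M.v c = S.M.v (S.M.α a3)
  f2 : S.M.φ (S.M.φ a2) = S.M.α a1
  f1 : S.M.φ (S.M.φ a3) = S.M.α a2
  f0 : S.M.φ (S.M.φ a4) = S.M.α a3
  gg : S.sc.r (S.M.α a4) a1
  gm : S.sc.r (S.M.α (S.M.φ a2)) b
  gb : S.sc.r (S.M.α b) (S.M.α (S.M.φ a3))
  gn : S.sc.r (S.M.α (S.M.φ a3)) c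
  gc : S.sc.r (S.M.α c) (S.M.α (S.M.φ a4))
  hx : ∀ d, S.real d = true → S.M.v d = S.M.v a1 → d = a1 ∨ d = a2 ∨ d = a3 ∨ d = a4
  hv : ∀ d, S.real d = true → S.M.v d = S.M.v (S.M.α a2) → d = S.M.α a2 ∨ d = S.M.φ a2 ∨
    d = b ∨ d = S.M.α (S.M.φ a3)
  hz : ∀ d, S.real d = true → S.M.v d = S.M.v (S.M.α a3) → d = S.M.α a3 ∨ d = S.M.φ a3 ∨
    d = c ∨ d = S.M.α (S.M.φ a4)
  sx : s (S.M.v a1) = true
  sw : s (S.M.v (S.M.α a1)) = true
  sv : s (S.M.v (S.M.α a2)) = true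
  sz : s (S.M.v (S.M.α a3)) = true
  sy : s (S.M.v (S.M.α a4)) = true
  sb : s (S.M.v (S.M.α b)) = false
  sc : s (S.M.v (S.M.α c)) = false
  u0 : ∀ d, Fp S a4 d → S.u d = 0
  n13 : a1 ≠ a3
  n24 : a2 ≠ a4
  n14 : a1 ≠ a4

/-- the side without three vertices -/
def of3 (s : V → Bool) (x y z u : V) : Bool := if u = x ∨ u = y ∨ u = z then false else s u

theorem of3_true {s : V → Bool} {x y z u : V} :
    of3 s x y z u = true ↔ u ≠ x ∧ u ≠ y ∧ u ≠ z ∧ s u = true := by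
  unfold of3
  split_ifs with h
  · constructor
    · intro h0; exact absurd h0 (by decide)
    · rintro ⟨h1, h2, h3, -⟩
      exact absurd h (by tauto)
  · push Not at h
    exact ⟨fun h0 => ⟨h.1, h.2.1, h.2.2, h0⟩, fun h0 => h0.2.2.2⟩

section

variable {s : V → Bool} {a1 a2 a3 a4 b c : D} (W : Wf Δ S L w)
  (ur : ∀ d, S.u d ≠ 0 → S.real d = true) (hT : ConS S.M s true) (hF : ConS S.M s false)
  (H : Sw3 S s a1 a2 a3 a4 b c)

include W H

theorem Sw3.vm : S.M.v (S.M.φ a2) = S.M.v (S.M.α a2) := S.M.vφ _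

theorem Sw3.vn : S.M.v (S.M.φ a3) = S.M.v (S.M.α a3) := S.M.vφ _

theorem Sw3.vl : S.M.v (S.M.φ a4) = S.M.v (S.M.α a4) := S.M.vφ _

theorem Sw3.vm' : S.M.v (S.M.α (S.M.φ a2)) = S.M.v (S.M.α a1) := by rw [← S.M.vφ, H.f2]

theorem Sw3.vn' : S.M.v (S.M.α (S.M.φ a3)) = S.M.v (S.M.α a2) := by rw [← S.M.vφ, H.f1]

theorem Sw3.vl' : S.M.v (S.M.α (S.M.φ a4)) = S.M.v (S.M.α a3) := by rw [← S.M.vφ, H.f0]

/-- a dart on the side is real on the side -/
theorem Sw3.rd {s1 : V → Bool} {d : D} (hr : S.real d = true) (h1 : s1 (S.M.v d) = true)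
    (h2 : s1 (S.M.v (S.M.α d)) = true) : (sd S w s1 true).real d = true :=
  (sd_real W.real_A W.real_α).2 ⟨hr, h1, h2⟩

include ur hT hF

/-- the values of a function which is closed on the side, the three faces are connected with the
hole -/
theorem Sw3.val {h : D → ℝ} (hcl : (sd S w s true).Cl h) (F0 : h (S.M.α a4) = h b)
    (F1 : h a3 = h b) (F2 : h a2 = h b) :
    h a1 = h b ∧ h (S.M.α a1) = h b ∧ h (S.M.α a2) = h b ∧ h (S.M.φ a2) = h b ∧
      h (S.M.α (S.M.φ a2)) = h b ∧ h (S.M.φ a3) = h b ∧ h (S.M.α (S.M.φ a3)) = h b ∧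
      h (S.M.α (S.M.φ a4)) = h b := by
  have hS : S.Cl h := ⟨hcl.1, fun d hd => hcl.2 d (by
    by_contra h0
    have := ((sd_real (w := w) W.real_A W.real_α).1 (by simpa using h0)).1
    rw [hd] at this
    exact absurd this (by decide))⟩
  have mb : s (S.M.v b) ≠ s (S.M.v (S.M.α b)) := by rw [H.vb, H.sv, H.sb]; decide
  have mc' : s (S.M.v c) ≠ s (S.M.v (S.M.α c)) := by rw [H.vc, H.sz, H.sc]; decide
  have e1 : h (S.M.α b) = h b := hcl.2 b (sd_virt W.real_A W.real_α mb)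
  have e2 : h (S.M.α c) = h c := hcl.2 c (sd_virt W.real_A W.real_α mc')
  have g1 := S.cl_sc hS H.gg
  have g2 := S.cl_sc hS H.gm
  have g3 := S.cl_sc hS H.gb
  have g4 := S.cl_sc hS H.gn
  have g5 := S.cl_sc hS H.gc
  have p1 : h (S.M.φ a2) = h a2 := hcl.1 _
  have p2 : h (S.M.α a1) = h (S.M.φ a2) := by rw [← H.f2]; exact hcl.1 _
  have p3 : h (S.M.φ a3) = h a3 := hcl.1 _
  have p4 : h (S.M.α a2) = h (S.M.φ a3) := by rw [← H.f1]; exact hcl.1 _
  refine ⟨by rw [← g1, F0], by rw [p2, p1, F2], by rw [p4, p3, F1], by rw [p1, F2], g2,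
    by rw [p3, F1], by rw [← g3, e1], by rw [← g5, e2, ← g4, ← g3, e1]⟩

/-- THE RECOLOURING LEMMA -/
theorem Sw3.rcl {cc c' : V → Bool}
    (hc : Sol (sd S w (of3 s (S.M.v a1) (S.M.v (S.M.α a2)) (S.M.v (S.M.α a3))) true)
      (sdL S L (of3 s (S.M.v a1) (S.M.v (S.M.α a2)) (S.M.v (S.M.α a3))) true) cc)
    (off : ∀ u, u ≠ S.M.v a1 → u ≠ S.M.v (S.M.α a2) → u ≠ S.M.v (S.M.α a3) → c' u = cc u)
    (F : ∀ h, (sd S w s true).Test c' h → h (S.M.α a4) = h b ∧ h a3 = h b ∧ h a2 = h b) :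
    Sol (sd S w s true) (sdL S L s true) c' := by
  classical
  have rA := W.real_A
  have rα := W.real_α
  obtain ⟨s1, hs1⟩ : ∃ s1, s1 = of3 s (S.M.v a1) (S.M.v (S.M.α a2)) (S.M.v (S.M.α a3)) :=
    ⟨_, rfl⟩
  rw [← hs1] at hc
  have s1t : ∀ {u}, s1 u = true ↔ u ≠ S.M.v a1 ∧ u ≠ S.M.v (S.M.α a2) ∧ u ≠ S.M.v (S.M.α a3) ∧
      s u = true := by
    intro u
    rw [hs1]
    exact of3_true
  have tcl : ∀ {h}, (sd S w s true).Test c' h → (sd S w s true).Cl h := fun hh =>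
    ⟨hh.1, fun d hd => hh.2 d (Or.inl hd)⟩
  have Vl : ∀ {h}, (sd S w s true).Test c' h → _ := fun {h} hh =>
    H.val W ur hT hF (tcl hh) (F h hh).1 (F h hh).2.1 (F h hh).2.2
  -- the darts of the triangle are on the side and not off the three vertices
  have ss : ∀ {d}, Fp S a4 d → (sd S w s true).real d = true ∧ ¬ s1 (S.M.v d) = true ∨
      (sd S w s true).real d = true ∧ ¬ s1 (S.M.v (S.M.α d)) = true := by
    intro d hd
    have vx : S.M.v a4 = S.M.v a1 := H.v4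
    rcases hd with h0 | h0 | h0
    · left
      rw [h0]
      exact ⟨H.rd W H.r4 (by rw [vx]; exact H.sx) H.sy, fun h1 => (s1t.1 h1).1 vx⟩
    · right
      rw [h0]
      exact ⟨H.rd W H.rl (by rw [H.vl W]; exact H.sy) (by rw [H.vl' W]; exact H.sz),
        fun h1 => (s1t.1 h1).2.2.1 (H.vl' W)⟩
    · left
      rw [h0, H.f0]
      exact ⟨H.rd W (by rw [rα]; exact H.r3) H.sz (by rw [S.M.αα, H.v3]; exact H.sx),
        fun h1 => (s1t.1 h1).2.2.1 rfl⟩
  have sF : ∀ {d}, Fp S a4 d → (sd S w s true).real d = true := fun hd =>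
    (ss hd).elim (fun h => h.1) fun h => h.1
  have s1F : ∀ {d}, s1 (S.M.v d) = true → s1 (S.M.v (S.M.α d)) = true → ¬ Fp S a4 d :=
    fun h1 h2 hd => (ss hd).elim (fun h => h.2 h1) fun h => h.2 h2
  have sdα : ∀ d, (sd S w s true).real (S.M.α d) = (sd S w s true).real d := fun d =>
    del_real_α rα _ d
  -- the modified function
  obtain ⟨M, hM⟩ : ∃ M : (D → ℝ) → D → ℝ, ∀ h d, M h d = if Fp S a4 d then h b else h d :=
    ⟨_, fun _ _ => rfl⟩
  have Mn : ∀ {h d}, ¬ Fp S a4 d → M h d = h d := fun {h d} hd => by rw [hM, if_neg hd]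
  have Mb : ∀ {h d}, (h d = h b ∨ Fp S a4 d) → M h d = h b := fun {h d} hd => by
    rw [hM]
    split_ifs with h1
    · rfl
    · exact hd.resolve_right h1
  have f4 : Fp S a4 a4 := Or.inl rfl
  have fl : Fp S a4 (S.M.φ a4) := Or.inr (Or.inl rfl)
  have f3 : Fp S a4 (S.M.α a3) := Or.inr (Or.inr H.f0.symm)
  -- the darts at the three vertices
  have at3 : ∀ {d}, (sd S w s true).real d = true → ¬ s1 (S.M.v d) = true →
      ∀ {h}, (sd S w s true).Test c' h →
        (h d = h b ∨ Fp S a4 d) ∧ (h (S.M.α d) = h b ∨ Fp S a4 (S.M.α d)) := by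
    intro d hd h1 h hh
    obtain ⟨q1, q2, q3⟩ := (sd_real (w := w) rA rα).1 hd
    obtain ⟨V1, V2, V3, V4, V5, V6, V7, V8⟩ := Vl hh
    obtain ⟨F0, F1, F2⟩ := F h hh
    have hv : S.M.v d = S.M.v a1 ∨ S.M.v d = S.M.v (S.M.α a2) ∨ S.M.v d = S.M.v (S.M.α a3) := by
      by_contra h0
      push Not at h0
      exact h1 (s1t.2 ⟨h0.1, h0.2.1, h0.2.2, q2⟩)
    rcases hv with hv | hv | hv
    · rcases H.hx d q1 hv with h0 | h0 | h0 | h0 <;> rw [h0]
      · exact ⟨Or.inl V1, Or.inl V2⟩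
      · exact ⟨Or.inl F2, Or.inl V3⟩
      · exact ⟨Or.inl F1, Or.inr f3⟩
      · exact ⟨Or.inr f4, Or.inl F0⟩
    · rcases H.hv d q1 hv with h0 | h0 | h0 | h0
      · rw [h0, S.M.αα]; exact ⟨Or.inl V3, Or.inl F2⟩
      · rw [h0]; exact ⟨Or.inl V4, Or.inl V5⟩
      · rw [h0, H.sb] at q3; exact absurd q3 (by decide)
      · rw [h0, S.M.αα]; exact ⟨Or.inl V7, Or.inl V6⟩
    · rcases H.hz d q1 hv with h0 | h0 | h0 | h0
      · rw [h0, S.M.αα]; exact ⟨Or.inr f3, Or.inl F1⟩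
      · rw [h0]; exact ⟨Or.inl V6, Or.inl V7⟩
      · rw [h0, H.sc] at q3; exact absurd q3 (by decide)
      · rw [h0, S.M.αα]; exact ⟨Or.inl V8, Or.inr fl⟩
  have cuts : ∀ {u}, s1 u = true → c' u = cc u := fun hu =>
    off _ (s1t.1 hu).1 (s1t.1 hu).2.1 (s1t.1 hu).2.2.1
  -- it is a test function of the smaller side
  have MT : ∀ {h}, (sd S w s true).Test c' h → (sd S w s1 true).Test cc (M h) := by
    intro h hh
    refine ⟨fun d => ?_, fun d hd => ?_⟩
    · show M h (S.M.φ d) = M h d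
      by_cases h1 : Fp S a4 d
      · rw [Mb (Or.inr h1), Mb (Or.inr (fp_φ.2 h1))]
      · rw [Mn h1, Mn fun h2 => h1 (fp_φ.1 h2)]
        exact hh.1 d
    · show M h (S.M.α d) = M h d
      have hd : (sd S w s1 true).real d = false ∨ cc (S.M.v d) ≠ cc (S.M.v (S.M.α d)) := hd
      by_cases h1 : (sd S w s true).real d = true
      · by_cases h2 : s1 (S.M.v d) = true
        · by_cases h3 : s1 (S.M.v (S.M.α d)) = true
          · have h4 : (sd S w s1 true).real d = true := H.rd W ((sd_real (w := w) rA rα).1 h1).1 h2 h3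
            have h5 : cc (S.M.v d) ≠ cc (S.M.v (S.M.α d)) := by
              rcases hd with h0 | h0
              · rw [h4] at h0; exact absurd h0 (by decide)
              · exact h0
            rw [Mn (s1F h2 h3), Mn (s1F h3 (by rw [S.M.αα]; exact h2))]
            exact hh.2 d (Or.inr (by
              show c' (S.M.v d) ≠ c' (S.M.v (S.M.α d))
              rw [cuts h2, cuts h3]; exact h5))
          · have := at3 (d := S.M.α d) (by rw [sdα]; exact h1) h3 hh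
            rw [S.M.αα] at this
            rw [Mb this.1, Mb this.2]
        · have := at3 h1 h2 hh
          rw [Mb this.1, Mb this.2]
      · have n1 : ¬ Fp S a4 d := fun h2 => h1 (sF h2)
        have n2 : ¬ Fp S a4 (S.M.α d) := fun h2 => h1 (by rw [← sdα]; exact sF h2)
        rw [Mn n1, Mn n2]
        exact hh.2 d (Or.inl (by simpa using h1))
  -- the hole is visited
  have xw : s1 (S.M.v (S.M.α a1)) = true := s1t.2 ⟨fun h0 => W.real_ne _ H.r1 h0.symm, fun h0 => by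
      have := W.real_ne _ H.rm
      rw [H.vm W, H.vm' W] at this
      exact this h0.symm, fun h0 => H.n13 (W.simple _ _ H.r1 H.r3 H.v3.symm h0), H.sw⟩
  obtain ⟨e0, he0, hv0⟩ := hc.req (S.M.α a1) ((sd_u5 W).2 ⟨xw, Or.inr ⟨by rw [rα]; exact H.r1, by
    rw [S.M.αα]
    exact fun h0 => (s1t.1 h0).1 rfl⟩⟩)
  have e0r := (sd_real (w := w) rA rα).1 he0.1
  have e0F : ¬ Fp S a4 e0 := s1F e0r.2.1 e0r.2.2
  have up : ∀ {e}, Br (sd S w s1 true) cc e → Br (sd S w s true) c' e := by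
    intro e he
    obtain ⟨q1, q2, q3⟩ := (sd_real (w := w) rA rα).1 he.1
    refine ⟨H.rd W q1 (s1t.1 q2).2.2.2 (s1t.1 q3).2.2.2, ?_⟩
    show c' (S.M.v e) ≠ c' (S.M.v (S.M.α e))
    rw [cuts q2, cuts q3]
    exact he.2
  have h0b : ∀ {h}, (sd S w s true).Test c' h → h e0 = h b := by
    intro h hh
    have h1 := hv0 (M h) (MT hh)
    rw [Mn e0F, Mb (Or.inl (Vl hh).2.1)] at h1
    exact h1
  have vm : ∀ {d}, (∀ h, (sd S w s true).Test c' h → h d = h b) → Vi (sd S w s true) c' d :=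
    fun {d} hd => ⟨e0, up he0, fun h hh => by rw [h0b hh, hd h hh]⟩
  have tr : ∀ {d}, ¬ Fp S a4 d → Vi (sd S w s1 true) cc d → Vi (sd S w s true) c' d := by
    rintro d hd ⟨e, he, hv⟩
    have er := (sd_real (w := w) rA rα).1 he.1
    refine ⟨e, up he, fun h hh => ?_⟩
    have h1 := hv (M h) (MT hh)
    rwa [Mn hd, Mn (s1F er.2.1 er.2.2)] at h1
  have mb : s (S.M.v b) ≠ s (S.M.v (S.M.α b)) := by rw [H.vb, H.sv, H.sb]; decide
  -- the other side of an edge of the triangle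
  have oth : ∀ {d}, (sd S w s true).real d = true → ¬ s1 (S.M.v d) = true →
      (∀ h, (sd S w s true).Test c' h → h d = h b) ∨
      (∀ h, (sd S w s true).Test c' h → h (S.M.α d) = h b) := by
    intro d hd h1
    by_cases h2 : Fp S a4 d
    · right
      intro h hh
      refine ((at3 hd h1 hh).2).resolve_right fun h3 => ?_
      exact fp_α W.real_ne (fun e he => ((sd_real (w := w) rA rα).1 (sF he)).1) h2 h3
    · left
      intro h hh
      exact ((at3 hd h1 hh).1).resolve_right h2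
  have oth' : ∀ {d}, (sd S w s true).real d = true → ¬ (s1 (S.M.v d) = true ∧
      s1 (S.M.v (S.M.α d)) = true) →
      (∀ h, (sd S w s true).Test c' h → h d = h b) ∨
      (∀ h, (sd S w s true).Test c' h → h (S.M.α d) = h b) := by
    intro d hd h1
    by_cases h2 : s1 (S.M.v d) = true
    · have h3 : ¬ s1 (S.M.v (S.M.α d)) = true := fun h3 => h1 ⟨h2, h3⟩
      have := oth (d := S.M.α d) (by rw [sdα]; exact hd) h3
      rw [S.M.αα] at this
      exact this.symm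
    · exact oth hd h2
  have key : ∀ {h}, (sd S w s true).Test c' h → ∀ d, Br (sd S w s true) c' d → h d = h b := by
    intro h hh d hd
    by_cases h1 : s1 (S.M.v d) = true ∧ s1 (S.M.v (S.M.α d)) = true
    · have h2 : Br (sd S w s1 true) cc d := ⟨H.rd W ((sd_real (w := w) rA rα).1 hd.1).1 h1.1 h1.2, by
        show cc (S.M.v d) ≠ cc (S.M.v (S.M.α d))
        rw [← cuts h1.1, ← cuts h1.2]
        exact hd.2⟩
      have h3 := hc.con (M h) (MT hh) d e0 h2 he0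
      rw [Mn e0F, Mn (s1F h1.1 h1.2)] at h3
      rw [h3, h0b hh]
    · rcases oth' hd.1 h1 with h2 | h2
      · exact h2 h hh
      · rw [← h2 h hh]
        exact (hh.2 d (Or.inr hd.2)).symm
  refine ⟨fun h hh d d' hd hd' => ?_, fun u hu => ?_, fun d hd => ?_, fun d hd => ?_⟩
  · rw [key hh d hd, key hh d' hd']
  · -- the vertices are alive
    obtain ⟨uA, us⟩ := (sd_A (w := w)).1 hu
    by_cases h1 : s1 u = true
    · obtain ⟨d, hd, hv⟩ := hc.live u ((sd_A (w := w)).2 ⟨uA, h1⟩)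
      have hd : S.M.v d = u := hd
      by_cases h2 : Fp S a4 d
      · have h3 : u = S.M.v (S.M.α a4) := by
          rcases h2 with h0 | h0 | h0
          · exact absurd (by rw [← hd, h0, H.v4]) (s1t.1 h1).1
          · rw [← hd, h0, H.vl W]
          · exact absurd (by rw [← hd, h0, H.f0]) (s1t.1 h1).2.2.1
        exact ⟨S.M.α a4, h3.symm, vm fun h hh => (F h hh).1⟩
      · exact ⟨d, hd, tr h2 hv⟩
    · have hv : u = S.M.v a1 ∨ u = S.M.v (S.M.α a2) ∨ u = S.M.v (S.M.α a3) := by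
        by_contra h0
        push Not at h0
        exact h1 (s1t.2 ⟨h0.1, h0.2.1, h0.2.2, us⟩)
      rcases hv with hv | hv | hv
      · exact ⟨a3, by rw [hv]; exact H.v3, vm fun h hh => (F h hh).2.1⟩
      · exact ⟨S.M.α a2, hv.symm, vm fun h hh => (Vl hh).2.2.1⟩
      · exact ⟨S.M.φ a3, (show S.M.v (S.M.φ a3) = u by rw [hv]; exact H.vn W), vm fun h hh => (Vl hh).2.2.2.2.2.1⟩
  · -- units
    obtain ⟨u1, u2⟩ := (sd_u5 W).1 hd
    by_cases hm : s (S.M.v (S.M.α d)) = true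
    swap
    · refine vm fun h hh => ?_
      have h3 : s (S.M.v d) ≠ s (S.M.v (S.M.α d)) := by rw [u1]; exact fun h0 => hm h0.symm
      exact (Pool.FC6.St.cl_sc (tcl hh) (sd_hole W hT hF mb h3)).symm
    have u3 : S.u d ≠ 0 := u2.resolve_right fun h0 => h0.2 hm
    have hr := ur d u3
    have hr' : (sd S w s true).real d = true := H.rd W hr u1 hm
    have nF : ¬ Fp S a4 d := fun h0 => u3 (H.u0 d h0)
    by_cases h1 : s1 (S.M.v d) = true
    · exact tr nF (hc.req d ((sd_u5 W).2 ⟨h1, Or.inl u3⟩))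
    · exact vm fun h hh => ((at3 hr' h1 hh).1).resolve_right nF
  · -- labels
    obtain ⟨l1, l2⟩ := (sdL_iff (w := w)).1 hd
    by_cases h1 : s1 (S.M.v d) = true ∧ s1 (S.M.v (S.M.α d)) = true
    · have n1 : ¬ Fp S a4 d := s1F h1.1 h1.2
      have n2 : ¬ Fp S a4 (S.M.α d) := s1F h1.2 (by rw [S.M.αα]; exact h1.1)
      have h2 : sdL S L s1 true d = true := (sdL_iff (w := w)).2 ⟨l1, H.rd W
        ((sd_real (w := w) rA rα).1 l2).1 h1.1 h1.2⟩
      exact (hc.lab d h2).imp (tr n1) (tr n2)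
    · exact (oth' l2 h1).imp (fun h2 => vm h2) fun h2 => vm h2

/-- THE SWAP: two solutions of the side -/
theorem Sw3.ex {cc : V → Bool}
    (hc : Sol (sd S w (of3 s (S.M.v a1) (S.M.v (S.M.α a2)) (S.M.v (S.M.α a3))) true)
      (sdL S L (of3 s (S.M.v a1) (S.M.v (S.M.α a2)) (S.M.v (S.M.α a3))) true) cc) :
    ∃ c1 c2, Sol (sd S w s true) (sdL S L s true) c1 ∧ Sol (sd S w s true) (sdL S L s true) c2 ∧
      (∀ u, u ≠ S.M.v a1 → u ≠ S.M.v (S.M.α a2) → u ≠ S.M.v (S.M.α a3) → c1 u = c2 u) ∧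
      c1 (S.M.v b) ≠ c1 (S.M.v c) ∧ c2 (S.M.v b) = c1 (S.M.v c) ∧
      c2 (S.M.v c) = c1 (S.M.v b) := by
  classical
  have rA := W.real_A
  have rα := W.real_α
  -- the vertices
  have nxv : S.M.v (S.M.α a2) ≠ S.M.v a1 := fun h0 => W.real_ne _ H.r2 (by rw [H.v2, h0])
  have nxz : S.M.v (S.M.α a3) ≠ S.M.v a1 := fun h0 => W.real_ne _ H.r3 (by rw [H.v3, h0])
  have nvz : S.M.v (S.M.α a3) ≠ S.M.v (S.M.α a2) := by
    have := W.real_ne _ H.rn
    rwa [H.vn W, H.vn' W] at this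
  have nwx : S.M.v (S.M.α a1) ≠ S.M.v a1 := fun h0 => W.real_ne _ H.r1 h0.symm
  have nwv : S.M.v (S.M.α a1) ≠ S.M.v (S.M.α a2) := by
    have := W.real_ne _ H.rm
    rw [H.vm W, H.vm' W] at this
    exact this.symm
  have nwz : S.M.v (S.M.α a1) ≠ S.M.v (S.M.α a3) := fun h0 =>
    H.n13 (W.simple _ _ H.r1 H.r3 H.v3.symm h0)
  have nyx : S.M.v (S.M.α a4) ≠ S.M.v a1 := fun h0 => W.real_ne _ H.r4 (by rw [H.v4, h0])
  have nyv : S.M.v (S.M.α a4) ≠ S.M.v (S.M.α a2) := fun h0 =>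
    H.n24 (W.simple _ _ H.r2 H.r4 (H.v2.trans H.v4.symm) h0.symm)
  have nyz : S.M.v (S.M.α a4) ≠ S.M.v (S.M.α a3) := by
    have := W.real_ne _ H.rl
    rwa [H.vl W, H.vl' W] at this
  obtain ⟨N, hN⟩ : ∃ N : Bool → Bool → Bool → V → Bool, ∀ X Y Z u, N X Y Z u =
      if u = S.M.v a1 then X else if u = S.M.v (S.M.α a2) then Y else
        if u = S.M.v (S.M.α a3) then Z else cc u := ⟨_, fun _ _ _ _ => rfl⟩
  have Nx : ∀ {X Y Z}, N X Y Z (S.M.v a1) = X := fun {X Y Z} => by rw [hN, if_pos rfl]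
  have Nv : ∀ {X Y Z}, N X Y Z (S.M.v (S.M.α a2)) = Y := fun {X Y Z} => by
    rw [hN, if_neg nxv, if_pos rfl]
  have Nz : ∀ {X Y Z}, N X Y Z (S.M.v (S.M.α a3)) = Z := fun {X Y Z} => by
    rw [hN, if_neg nxz, if_neg nvz, if_pos rfl]
  have No : ∀ {X Y Z} u, u ≠ S.M.v a1 → u ≠ S.M.v (S.M.α a2) → u ≠ S.M.v (S.M.α a3) →
      N X Y Z u = cc u := fun u h1 h2 h3 => by rw [hN, if_neg h1, if_neg h2, if_neg h3]
  have Nw : ∀ {X Y Z}, N X Y Z (S.M.v (S.M.α a1)) = cc (S.M.v (S.M.α a1)) :=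
    No _ nwx nwv nwz
  have Ny : ∀ {X Y Z}, N X Y Z (S.M.v (S.M.α a4)) = cc (S.M.v (S.M.α a4)) :=
    No _ nyx nyv nyz
  -- the values of a test function
  have mb : s (S.M.v b) ≠ s (S.M.v (S.M.α b)) := by rw [H.vb, H.sv, H.sb]; decide
  have mc' : s (S.M.v c) ≠ s (S.M.v (S.M.α c)) := by rw [H.vc, H.sz, H.sc]; decide
  have T : ∀ {c' : V → Bool} {h : D → ℝ}, (sd S w s true).Test c' h →
      h (S.M.α a4) = h a1 ∧ h (S.M.α (S.M.φ a2)) = h b ∧ h (S.M.α (S.M.φ a3)) = h b ∧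
      h (S.M.α (S.M.φ a4)) = h b ∧ h (S.M.φ a2) = h a2 ∧ h (S.M.α a1) = h a2 ∧
      h (S.M.φ a3) = h a3 ∧ h (S.M.α a2) = h a3 ∧ h (S.M.φ a4) = h a4 ∧ h (S.M.α a3) = h a4 := by
    intro c' h hh
    have hcl : (sd S w s true).Cl h := ⟨hh.1, fun d hd => hh.2 d (Or.inl hd)⟩
    have hS : S.Cl h := ⟨hcl.1, fun d hd => hcl.2 d (by
      by_contra h0
      have := ((sd_real (w := w) W.real_A W.real_α).1 (by simpa using h0)).1
      rw [hd] at this
      exact absurd this (by decide))⟩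
    have e1 : h (S.M.α b) = h b := hcl.2 b (sd_virt W.real_A W.real_α mb)
    have e2 : h (S.M.α c) = h c := hcl.2 c (sd_virt W.real_A W.real_α mc')
    have g1 := S.cl_sc hS H.gg
    have g2 := S.cl_sc hS H.gm
    have g3 := S.cl_sc hS H.gb
    have g4 := S.cl_sc hS H.gn
    have g5 := S.cl_sc hS H.gc
    have p1 : ∀ d, h (S.M.φ d) = h d := hcl.1
    exact ⟨g1, g2, by rw [← g3, e1], by rw [← g5, e2, ← g4, ← g3, e1], p1 _,
      by rw [← H.f2, p1, p1], p1 _, by rw [← H.f1, p1, p1], p1 _, by rw [← H.f0, p1, p1]⟩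
  have B : ∀ {c' : V → Bool} {h : D → ℝ}, (sd S w s true).Test c' h → ∀ d,
      c' (S.M.v d) ≠ c' (S.M.v (S.M.α d)) → h (S.M.α d) = h d := fun hh d hd =>
    hh.2 d (Or.inr hd)
  have vm := H.vm W
  have vn := H.vn W
  have vl := H.vl W
  have vm' := H.vm' W
  have vn' := H.vn' W
  have vl' := H.vl' W
  rw [H.vb, H.vc]
  by_cases hwy : cc (S.M.v (S.M.α a1)) = cc (S.M.v (S.M.α a4))
  · -- one colour at the two neighbours
    obtain ⟨A, hA⟩ : ∃ A, A = cc (S.M.v (S.M.α a1)) := ⟨_, rfl⟩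
    have nA : ∀ B : Bool, (!B) ≠ B := by decide
    refine ⟨N (!A) A (!A), N (!A) (!A) A, H.rcl W ur hT hF hc No fun h hh => ?_,
      H.rcl W ur hT hF hc No fun h hh => ?_, fun u h1 h2 h3 => by rw [No u h1 h2 h3, No u h1 h2 h3],
      ?_, ?_, ?_⟩
    · obtain ⟨t1, t2, t3, t4, t5, t6, t7, t8, t9, t0⟩ := T hh
      have b1 := B hh a4 (by rw [H.v4, Nx, Ny, ← hwy, ← hA]; exact nA A)
      have b2 := B hh (S.M.φ a4) (by rw [vl, vl', Nz, Ny, ← hwy, ← hA]; exact (nA A).symm)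
      have b3 := B hh (S.M.φ a3) (by rw [vn, vn', Nz, Nv]; exact nA A)
      have b4 := B hh a2 (by rw [H.v2, Nx, Nv]; exact nA A)
      have c1 : h a4 = h b := by rw [← t9, ← b2, t4]
      have c2 : h a3 = h b := by rw [← t7, ← b3, t3]
      exact ⟨by rw [b1, c1], c2, by rw [← b4, t8, c2]⟩
    · obtain ⟨t1, t2, t3, t4, t5, t6, t7, t8, t9, t0⟩ := T hh
      have b1 := B hh a1 (by rw [Nx, Nw, ← hA]; exact nA A)
      have b2 := B hh (S.M.φ a2) (by rw [vm, vm', Nv, Nw, ← hA]; exact nA A)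
      have b3 := B hh (S.M.φ a3) (by rw [vn, vn', Nz, Nv]; exact (nA A).symm)
      have c1 : h a2 = h b := by rw [← t5, ← b2, t2]
      have c2 : h a3 = h b := by rw [← t7, ← b3, t3]
      exact ⟨by rw [t1, ← b1, t6, c1], c2, c1⟩
    · rw [Nv, Nz]; exact (nA A).symm
    · rw [Nv, Nz]
    · rw [Nv, Nz]
  · -- two colours at the two neighbours
    obtain ⟨A, hA⟩ : ∃ A, A = cc (S.M.v (S.M.α a1)) := ⟨_, rfl⟩
    obtain ⟨A', hA'⟩ : ∃ A', A' = cc (S.M.v (S.M.α a4)) := ⟨_, rfl⟩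
    rw [← hA, ← hA'] at hwy
    refine ⟨N A A' A, N A' A A', H.rcl W ur hT hF hc No fun h hh => ?_,
      H.rcl W ur hT hF hc No fun h hh => ?_, fun u h1 h2 h3 => by rw [No u h1 h2 h3, No u h1 h2 h3],
      ?_, ?_, ?_⟩
    · obtain ⟨t1, t2, t3, t4, t5, t6, t7, t8, t9, t0⟩ := T hh
      have b1 := B hh a4 (by rw [H.v4, Nx, Ny, ← hA']; exact hwy)
      have b2 := B hh (S.M.φ a4) (by rw [vl, vl', Nz, Ny, ← hA']; exact fun h0 => hwy h0.symm)
      have b3 := B hh (S.M.φ a2) (by rw [vm, vm', Nv, Nw, ← hA]; exact fun h0 => hwy h0.symm)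
      have b4 := B hh a2 (by rw [H.v2, Nx, Nv]; exact hwy)
      have c1 : h a4 = h b := by rw [← t9, ← b2, t4]
      have c2 : h a2 = h b := by rw [← t5, ← b3, t2]
      exact ⟨by rw [b1, c1], by rw [← t8, b4, c2], c2⟩
    · obtain ⟨t1, t2, t3, t4, t5, t6, t7, t8, t9, t0⟩ := T hh
      have b1 := B hh (S.M.φ a3) (by rw [vn, vn', Nz, Nv]; exact fun h0 => hwy h0.symm)
      have b2 := B hh a2 (by rw [H.v2, Nx, Nv]; exact fun h0 => hwy h0.symm)
      have b3 := B hh a1 (by rw [Nx, Nw, ← hA]; exact fun h0 => hwy h0.symm)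
      have c1 : h a3 = h b := by rw [← t7, ← b1, t3]
      have c2 : h a2 = h b := by rw [← b2, t8, c1]
      exact ⟨by rw [t1, ← b3, t6, c2], c1, c2⟩
    · rw [Nv, Nz]; exact fun h0 => hwy h0.symm
    · rw [Nv, Nz]
    · rw [Nv, Nz]

end

/-- at most seven edges leave the side without the three vertices -/
theorem Sw3.rc7 {s : V → Bool} {a1 a2 a3 a4 b c : D} (W : Wf Δ S L w)
    (H : Sw3 S s a1 a2 a3 a4 b c) (h4 : S.rc s = 4) :
    S.rc (of3 s (S.M.v a1) (S.M.v (S.M.α a2)) (S.M.v (S.M.α a3))) ≤ 7 := by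
  classical
  have rα := W.real_α
  obtain ⟨s1, hs1⟩ : ∃ s1, s1 = of3 s (S.M.v a1) (S.M.v (S.M.α a2)) (S.M.v (S.M.α a3)) :=
    ⟨_, rfl⟩
  rw [← hs1]
  have s1t : ∀ {u}, s1 u = true ↔ u ≠ S.M.v a1 ∧ u ≠ S.M.v (S.M.α a2) ∧ u ≠ S.M.v (S.M.α a3) ∧
      s u = true := by
    intro u
    rw [hs1]
    exact of3_true
  have nbc : b ≠ c := by
    intro h0
    have := W.real_ne _ H.rn
    rw [H.vn W, H.vn' W, ← H.vb, ← H.vc, h0] at this
    exact this rfl
  have pt : ∀ d, (if S.real d = true ∧ s1 (S.M.v d) = true ∧ s1 (S.M.v (S.M.α d)) = false then 1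
      else 0) + ((if d = b then 1 else 0) + (if d = c then 1 else 0)) ≤
      (if S.real d = true ∧ s (S.M.v d) = true ∧ s (S.M.v (S.M.α d)) = false then 1 else 0) +
      ((if d = S.M.α a1 then 1 else 0) + (if d = S.M.α a4 then 1 else 0) +
      (if d = S.M.α (S.M.φ a2) then 1 else 0) + (if d = S.M.φ a4 then 1 else 0)) := by
    intro d
    by_cases h1 : d = b
    · have e1 : ¬ (S.real d = true ∧ s1 (S.M.v d) = true ∧ s1 (S.M.v (S.M.α d)) = false) := by
        rintro ⟨-, h2, -⟩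
        rw [h1] at h2
        exact (s1t.1 h2).2.1 H.vb
      have e2 : S.real d = true ∧ s (S.M.v d) = true ∧ s (S.M.v (S.M.α d)) = false := by
        rw [h1, H.vb]; exact ⟨H.rb, H.sv, H.sb⟩
      have e3 : ¬ d = c := by rw [h1]; exact nbc
      rw [if_neg e1, if_pos e2, if_pos h1, if_neg e3]
      omega
    by_cases h2 : d = c
    · have e1 : ¬ (S.real d = true ∧ s1 (S.M.v d) = true ∧ s1 (S.M.v (S.M.α d)) = false) := by
        rintro ⟨-, h2', -⟩
        rw [h2] at h2'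
        exact (s1t.1 h2').2.2.1 H.vc
      have e2 : S.real d = true ∧ s (S.M.v d) = true ∧ s (S.M.v (S.M.α d)) = false := by
        rw [h2, H.vc]; exact ⟨H.rc, H.sz, H.sc⟩
      rw [if_neg e1, if_pos e2, if_neg h1, if_pos h2]
      omega
    rw [if_neg h1, if_neg h2]
    by_cases h3 : S.real d = true ∧ s1 (S.M.v d) = true ∧ s1 (S.M.v (S.M.α d)) = false
    · obtain ⟨q1, q2, q3⟩ := h3
      rw [if_pos ⟨q1, q2, q3⟩]
      have q2' := (s1t.1 q2).2.2.2
      cases h4 : s (S.M.v (S.M.α d))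
      · rw [if_pos ⟨q1, q2', rfl⟩]
        omega
      · have rd : S.real (S.M.α d) = true := by rw [rα]; exact q1
        have hv : S.M.v (S.M.α d) = S.M.v a1 ∨ S.M.v (S.M.α d) = S.M.v (S.M.α a2) ∨
            S.M.v (S.M.α d) = S.M.v (S.M.α a3) := by
          by_contra h0
          push Not at h0
          have := s1t.2 ⟨h0.1, h0.2.1, h0.2.2, h4⟩
          rw [q3] at this
          exact absurd this (by decide)
        have inv : ∀ {e}, S.M.α d = e → d = S.M.α e := fun h0 => by rw [← h0, S.M.αα]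
        have fin : d = S.M.α a1 ∨ d = S.M.α a4 ∨ d = S.M.α (S.M.φ a2) ∨ d = S.M.φ a4 := by
          rcases hv with hv | hv | hv
          · rcases H.hx _ rd hv with h0 | h0 | h0 | h0
            · exact Or.inl (inv h0)
            · exact absurd (by rw [inv h0]) (s1t.1 q2).2.1
            · exact absurd (by rw [inv h0]) (s1t.1 q2).2.2.1
            · exact Or.inr (Or.inl (inv h0))
          · rcases H.hv _ rd hv with h0 | h0 | h0 | h0
            · exact absurd (by rw [inv h0, S.M.αα]; exact H.v2) (s1t.1 q2).1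
            · exact Or.inr (Or.inr (Or.inl (inv h0)))
            · exfalso
              have := H.sb
              rw [← h0, S.M.αα, q2'] at this
              exact absurd this (by decide)
            · exact absurd (by rw [inv h0, S.M.αα]; exact H.vn W) (s1t.1 q2).2.2.1
          · rcases H.hz _ rd hv with h0 | h0 | h0 | h0
            · exact absurd (by rw [inv h0, S.M.αα]; exact H.v3) (s1t.1 q2).1
            · exact absurd (by rw [inv h0]; exact H.vn' W) (s1t.1 q2).2.1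
            · exfalso
              have := H.sc
              rw [← h0, S.M.αα, q2'] at this
              exact absurd this (by decide)
            · exact Or.inr (Or.inr (Or.inr (by rw [inv h0, S.M.αα])))
        rcases fin with h0 | h0 | h0 | h0
        · rw [if_pos (c := d = S.M.α a1) h0]; omega
        · rw [if_pos (c := d = S.M.α a4) h0]; omega
        · rw [if_pos (c := d = S.M.α (S.M.φ a2)) h0]; omega
        · rw [if_pos (c := d = S.M.φ a4) h0]; omega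
    · rw [if_neg h3]
      exact Nat.zero_le _
  have hs := Finset.sum_le_sum fun d (_ : d ∈ (Finset.univ : Finset D)) => pt d
  simp only [Finset.sum_add_distrib, Finset.sum_ite_eq', Finset.mem_univ, if_true] at hs
  unfold St.rc at h4 ⊢
  omega

/-- two solutions of the side which exchange the colours of `z` and `v` -/
theorem MC.swp (hΔ : Δ ≤ 6) (h : MC Δ S L w) (ur : ∀ d, S.u d ≠ 0 → S.real d = true)
    {s : V → Bool} {a1 a2 a3 a4 b c : D} (hT : ConS S.M s true) (hF : ConS S.M s false)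
    (h4 : S.rc s = 4) (H : Sw3 S s a1 a2 a3 a4 b c) :
    ∃ c1 c2, Sol (sd S w s true) (sdL S L s true) c1 ∧ Sol (sd S w s true) (sdL S L s true) c2 ∧
      (∀ u, u ≠ S.M.v a1 → u ≠ S.M.v (S.M.α a2) → u ≠ S.M.v (S.M.α a3) → c1 u = c2 u) ∧
      c1 (S.M.v b) ≠ c1 (S.M.v c) ∧ c2 (S.M.v b) = c1 (S.M.v c) ∧
      c2 (S.M.v c) = c1 (S.M.v b) := by
  classical
  have W := h.ok.toWf
  have rA := W.real_A
  have rα := W.real_α
  have rA' : ∀ {d}, S.real d = true → S.M.v (S.M.α d) ∈ S.A := fun hd =>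
    rA _ (by rw [rα]; exact hd)
  have h7 := H.rc7 W h4
  have nwx : S.M.v (S.M.α a1) ≠ S.M.v a1 := fun h0 => W.real_ne _ H.r1 h0.symm
  have nwv : S.M.v (S.M.α a1) ≠ S.M.v (S.M.α a2) := by
    have := W.real_ne _ H.rm
    rw [H.vm W, H.vm' W] at this
    exact this.symm
  have nwz : S.M.v (S.M.α a1) ≠ S.M.v (S.M.α a3) := fun h0 =>
    H.n13 (W.simple _ _ H.r1 H.r3 H.v3.symm h0)
  have nyx : S.M.v (S.M.α a4) ≠ S.M.v a1 := fun h0 => W.real_ne _ H.r4 (by rw [H.v4, h0])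
  have nyv : S.M.v (S.M.α a4) ≠ S.M.v (S.M.α a2) := fun h0 =>
    H.n24 (W.simple _ _ H.r2 H.r4 (H.v2.trans H.v4.symm) h0.symm)
  have nyz : S.M.v (S.M.α a4) ≠ S.M.v (S.M.α a3) := by
    have := W.real_ne _ H.rl
    rwa [H.vl W, H.vl' W] at this
  have nwy : S.M.v (S.M.α a1) ≠ S.M.v (S.M.α a4) := fun h0 =>
    H.n14 (W.simple _ _ H.r1 H.r4 H.v4.symm h0)
  have two : S.Two (of3 s (S.M.v a1) (S.M.v (S.M.α a2)) (S.M.v (S.M.α a3))) true :=
    ⟨_, rA' H.r1, _, rA' H.r4, nwy, of3_true.2 ⟨nwx, nwv, nwz, H.sw⟩,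
      of3_true.2 ⟨nyx, nyv, nyz, H.sy⟩⟩
  obtain ⟨cc, hc⟩ := h.sds hΔ (s := of3 s (S.M.v a1) (S.M.v (S.M.α a2)) (S.M.v (S.M.α a3)))
    (b := true) ⟨_, rA _ H.r1, fun h0 => (of3_true.1 h0).1 rfl⟩ (h.inner hΔ h7 two)
  exact H.ex W ur hT hF hc

/-- the vertex of another cut edge is not one of the three vertices -/
theorem Sw3.kout {s : V → Bool} {a1 a2 a3 a4 b c k : D} (W : Wf Δ S L w)
    (H : Sw3 S s a1 a2 a3 a4 b c) (K : k ∈ kc S s) (kb : k ≠ b) (kc' : k ≠ c) :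
    S.M.v k ≠ S.M.v a1 ∧ S.M.v k ≠ S.M.v (S.M.α a2) ∧ S.M.v k ≠ S.M.v (S.M.α a3) := by
  obtain ⟨q1, q2, q3⟩ := mem_kc.1 K
  have tf : ∀ {e}, k = e → s (S.M.v (S.M.α e)) = true → False := fun h0 h1 => by
    rw [h0, h1] at q3
    exact absurd q3 (by decide)
  refine ⟨fun hv => ?_, fun hv => ?_, fun hv => ?_⟩
  · rcases H.hx _ q1 hv with h0 | h0 | h0 | h0
    · exact tf h0 H.sw
    · exact tf h0 H.sv
    · exact tf h0 H.sz
    · exact tf h0 H.sy
  · rcases H.hv _ q1 hv with h0 | h0 | h0 | h0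
    · exact tf h0 (by rw [S.M.αα, H.v2]; exact H.sx)
    · exact tf h0 (by rw [H.vm' W]; exact H.sw)
    · exact kb h0
    · exact tf h0 (by rw [S.M.αα, H.vn W]; exact H.sz)
  · rcases H.hz _ q1 hv with h0 | h0 | h0 | h0
    · exact tf h0 (by rw [S.M.αα, H.v3]; exact H.sx)
    · exact tf h0 (by rw [H.vn' W]; exact H.sv)
    · exact kc' h0
    · exact tf h0 (by rw [S.M.αα, H.vl W]; exact H.sy)

/-- RULE R3 for a cut with its ring -/
theorem MC.r3c (hΔ : Δ ≤ 6) (h : MC Δ S L w) (ur : ∀ d, S.u d ≠ 0 → S.real d = true)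
    {s : V → Bool} {a1 a2 a3 a4 b c k3 k4 : D} (hT : ConS S.M s true) (hF : ConS S.M s false)
    (h4 : S.rc s = 4) (H : Sw3 S s a1 a2 a3 a4 b c) (R : Rk S s b c k3 k4)
    (i2 : ∃ d, S.real d = true ∧ s (S.M.v d) = false ∧ s (S.M.v (S.M.α d)) = false) : False := by
  classical
  have W := h.ok.toWf
  obtain ⟨c1, c2, S1, S2, off, n1, e1, e2⟩ := h.swp hΔ ur hT hF h4 H
  obtain ⟨o1, o2, o3⟩ := H.kout W R.K3 R.n13.symm R.n23.symm
  have e3 := off _ o1 o2 o3
  obtain ⟨b0, hb⟩ := h.tp R hΔ hT hF ⟨a1, H.r1, H.sx, H.sw⟩ i2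
  cases b0
  · have := (hb.cs c1 S1).1
    unfold kEnd at this
    simp only [Bool.not_false, cond_true] at this
    exact n1 this
  · have key : ∀ c' : V → Bool, Sol (sd S w s true) (sdL S L s true) c' →
        c' (S.M.v b) ≠ c' (S.M.v c) → c' (S.M.v c) = c' (S.M.v k3) := by
      intro c' hc hn
      rcases hb.sp c' hc with h5 | h5
      · have := h5.1
        unfold kEnd at this
        simp only [cond_true] at this
        exact absurd this hn
      · have := h5.1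
        unfold kEnd at this
        simpa only [cond_true] using this
    have k1 := key c1 S1 n1
    have k2 := key c2 S2 (by rw [e1, e2]; exact n1.symm)
    rw [e2, ← e3, ← k1] at k2
    exact n1 k2

end Pool.FC7
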