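import Pool.Agent.FC7.Q5U

/-! # Cuts with four real edges: the rule of types -/

open Finset

set_option linter.unusedSectionVars false

namespace Pool.FC7

open Pool.FC6 Pool.FC6.St

variable {D V : Type} [Fintype D] [DecidableEq V] {S : St D V} {L : D → Bool} {w : D → ℕ} {Δ : ℕ}
  {U : V → Prop}

/-- all solutions of the side `b` are split, all solutions of the other side are constant -/
structure Tp (S : St D V) (L : D → Bool) (w : D → ℕ) (s : V → Bool) (b : Bool)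
    (k1 k2 k3 k4 : D) : Prop where
  sp : ∀ c, Sol (sd S w s b) (sdL S L s b) c → Spl S b c k1 k2 k3 k4 ∨ Spl S b c k2 k3 k4 k1
  cs : ∀ c, Sol (sd S w s (!b)) (sdL S L s (!b)) c → Cst S (!b) c k1 k2 k3 k4

theorem Spl.rot {b : Bool} {c : V → Bool} {k1 k2 k3 k4 : D} (h : Spl S b c k1 k2 k3 k4) :
    Spl S b c k3 k4 k1 k2 := ⟨h.2.1, h.1, h.2.2.symm⟩

theorem Cst.rot {b : Bool} {c : V → Bool} {k1 k2 k3 k4 : D} (h : Cst S b c k1 k2 k3 k4) :
    Cst S b c k2 k3 k4 k1 := ⟨h.2.1, h.2.2, (h.1.trans (h.2.1.trans h.2.2)).symm⟩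

section

variable {s : V → Bool} {k1 k2 k3 k4 : D} (R : Rk S s k1 k2 k3 k4)

include R

/-- the two sides -/
theorem MC.tp (hΔ : Δ ≤ 6) (h : MC Δ S L w) (hT : ConS S.M s true) (hF : ConS S.M s false)
    (n1 : ∃ d, S.real d = true ∧ s (S.M.v d) = true ∧ s (S.M.v (S.M.α d)) = true)
    (n2 : ∃ d, S.real d = true ∧ s (S.M.v d) = false ∧ s (S.M.v (S.M.α d)) = false) :
    ∃ b, Tp S L w s b k1 k2 k3 k4 := by
  classical
  have W := h.ok.toWf
  have rα := W.real_α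
  have rA := W.real_A
  have e1 := mem_kc.1 R.K1
  have hxx : ∃ x ∈ S.A, s x = true := ⟨_, rA _ e1.1, e1.2.1⟩
  have hyy : ∃ x ∈ S.A, s x = false := ⟨_, rA _ (by rw [rα]; exact e1.1), e1.2.2⟩
  obtain ⟨a0, ha0⟩ := h.sds hΔ (s := s) (b := true) (by
    obtain ⟨z, g1, g2⟩ := hyy
    exact ⟨z, g1, by rw [g2]; decide⟩) n1
  obtain ⟨b0, hb0⟩ := h.sds hΔ (s := s) (b := false) (by
    obtain ⟨z, g1, g2⟩ := hxx
    exact ⟨z, g1, by rw [g2]; decide⟩) n2
  have P : ∀ a b, Sol (sd S w s true) (sdL S L s true) a → Sol (sd S w s false) (sdL S L s false) b →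
      (Cst S true a k1 k2 k3 k4 ∧ (Spl S false b k1 k2 k3 k4 ∨ Spl S false b k2 k3 k4 k1)) ∨
      (Cst S false b k1 k2 k3 k4 ∧ (Spl S true a k1 k2 k3 k4 ∨ Spl S true a k2 k3 k4 k1)) :=
    fun a b ha hb => R.pair W hT hF h.no (h.prS hT hF hxx hyy ha hb) (h.prS hT hF hxx hyy ha hb.neg)
  rcases P a0 b0 ha0 hb0 with ⟨q1, q2⟩ | ⟨q1, q2⟩
  · refine ⟨false, fun c hc => ?_, fun c hc => ?_⟩
    · rcases P a0 c ha0 hc with ⟨-, q⟩ | ⟨-, q | q⟩
      · exact q
      · exact absurd q1 q.not_cst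
      · exact absurd q1 q.not_cst'
    · rcases P c b0 hc hb0 with ⟨q, -⟩ | ⟨q, -⟩
      · exact q
      · rcases q2 with q2 | q2
        · exact absurd q q2.not_cst
        · exact absurd q q2.not_cst'
  · refine ⟨true, fun c hc => ?_, fun c hc => ?_⟩
    · rcases P c b0 hc hb0 with ⟨-, q | q⟩ | ⟨-, q⟩
      · exact absurd q1 q.not_cst
      · exact absurd q1 q.not_cst'
      · exact q
    · rcases P a0 c ha0 hc with ⟨q, -⟩ | ⟨q, -⟩
      · rcases q2 with q2 | q2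
        · exact absurd q q2.not_cst
        · exact absurd q q2.not_cst'
      · exact q

/-- a split of `k1, k2 | k3, k4` -/
theorem MC.o4p (hΔ : Δ ≤ 6) (h : MC Δ S L w) (hT : ConS S.M s true) (hF : ConS S.M s false)
    {b : Bool} {c c' : V → Bool} (hc : Sol (sd S w s b) (sdL S L s b) c)
    (hc' : Sol (sd S w s (!b)) (sdL S L s (!b)) c') (sp : Spl S b c k1 k2 k3 k4)
    (cs : Cst S (!b) c' k1 k2 k3 k4) : ¬ Pt S L s k2 := by
  classical
  have W := h.ok.toWf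
  have rα := W.real_α
  have rA := W.real_A
  have e1 := mem_kc.1 R.K1
  have hxx : ∃ x ∈ S.A, s x = true := ⟨_, rA _ e1.1, e1.2.1⟩
  have hyy : ∃ x ∈ S.A, s x = false := ⟨_, rA _ (by rw [rα]; exact e1.1), e1.2.2⟩
  -- a pair of solutions, the first two edges are monochromatic
  have key : ∀ a b : V → Bool, Sol (sd S w s true) (sdL S L s true) a →
      Sol (sd S w s false) (sdL S L s false) b →
      (Cst S true a k1 k2 k3 k4 ∧ Spl S false b k1 k2 k3 k4) ∨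
      (Cst S false b k1 k2 k3 k4 ∧ Spl S true a k1 k2 k3 k4) →
      a (S.M.v k1) = b (S.M.v (S.M.α k1)) → ¬ Pt S L s k2 := by
    intro a b ha hb q m1
    have ea : ∀ {k}, k ∈ kc S s → (if s (S.M.v k) = true then a (S.M.v k) else
        b (S.M.v k)) = a (S.M.v k) := fun hk => if_pos (mem_kc.1 hk).2.1
    have eb : ∀ {k}, k ∈ kc S s → (if s (S.M.v (S.M.α k)) = true then
        a (S.M.v (S.M.α k)) else b (S.M.v (S.M.α k))) = b (S.M.v (S.M.α k)) := fun hk =>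
      if_neg (by rw [(mem_kc.1 hk).2.2]; decide)
    unfold Cst Spl kEnd at q
    simp only [cond_true, cond_false] at q
    refine R.np W hT hF (c := fun x => if s x = true then a x else b x)
      (h.prS hT hF hxx hyy ha hb) h.no ?_ ?_ ?_ ?_ ?_
    all_goals
      simp only [ea R.K1, ea R.K2, ea R.K3, ea R.K4, eb R.K1, eb R.K2, eb R.K3, eb R.K4]
      clear ea eb
      revert m1 q
      generalize a (S.M.v k1) = x1
      generalize a (S.M.v k2) = x2
      generalize a (S.M.v k3) = x3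
      generalize a (S.M.v k4) = x4
      generalize b (S.M.v (S.M.α k1)) = y1
      generalize b (S.M.v (S.M.α k2)) = y2
      generalize b (S.M.v (S.M.α k3)) = y3
      generalize b (S.M.v (S.M.α k4)) = y4
      intro q m1
      cases x1 <;> cases x2 <;> cases x3 <;> cases x4 <;> cases y1 <;> cases y2 <;>
        cases y3 <;> cases y4 <;> simp at *
  have key' : ∀ a b : V → Bool, Sol (sd S w s true) (sdL S L s true) a →
      Sol (sd S w s false) (sdL S L s false) b →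
      (Cst S true a k1 k2 k3 k4 ∧ Spl S false b k1 k2 k3 k4) ∨
      (Cst S false b k1 k2 k3 k4 ∧ Spl S true a k1 k2 k3 k4) → ¬ Pt S L s k2 := by
    intro a b ha hb q
    by_cases m1 : a (S.M.v k1) = b (S.M.v (S.M.α k1))
    · exact key a b ha hb q m1
    · refine key a (fun x => !b x) ha hb.neg ?_ ?_
      · revert q
        unfold Cst Spl kEnd
        simp only [cond_true, cond_false]
        generalize b (S.M.v (S.M.α k1)) = y1
        generalize b (S.M.v (S.M.α k2)) = y2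
        generalize b (S.M.v (S.M.α k3)) = y3
        generalize b (S.M.v (S.M.α k4)) = y4
        cases y1 <;> cases y2 <;> cases y3 <;> cases y4 <;> simp
      · show a (S.M.v k1) = !b (S.M.v (S.M.α k1))
        revert m1
        cases a (S.M.v k1) <;> cases b (S.M.v (S.M.α k1)) <;> simp
  cases b
  · exact key' c' c hc' hc (Or.inl ⟨cs, sp⟩)
  · exact key' c c' hc hc' (Or.inr ⟨cs, sp⟩)

theorem MC.o4 (hΔ : Δ ≤ 6) (h : MC Δ S L w) (hT : ConS S.M s true) (hF : ConS S.M s false)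
    {b : Bool} {c c' : V → Bool} (hc : Sol (sd S w s b) (sdL S L s b) c)
    (hc' : Sol (sd S w s (!b)) (sdL S L s (!b)) c') (sp : Spl S b c k1 k2 k3 k4)
    (cs : Cst S (!b) c' k1 k2 k3 k4) : O4 S L s b k1 k2 k3 k4 :=
  ⟨fun h0 => sp.2.2 (by rw [sp.1, h0]), fun h0 => sp.2.2 (by rw [← h0, sp.2.1]),
    h.o4p R hΔ hT hF hc hc' sp cs, h.o4p R.rot.rot hΔ hT hF hc hc' sp.rot cs.rot.rot⟩

/-- THE RULE OF TYPES for a cut with connected sides -/
theorem MC.typc (hΔ : Δ ≤ 6) (h : MC Δ S L w) (hT : ConS S.M s true) (hF : ConS S.M s false)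
    (h4 : S.rc s = 4)
    (n1 : ∃ d, S.real d = true ∧ s (S.M.v d) = true ∧ s (S.M.v (S.M.α d)) = true)
    (n2 : ∃ d, S.real d = true ∧ s (S.M.v d) = false ∧ s (S.M.v (S.M.α d)) = false) :
    ∃ b : Bool, (O4 S L s b k1 k2 k3 k4 ∨ O4 S L s b k2 k3 k4 k1) ∧
      (Nd S L k2 ∨ Nd S L k4 → O4 S L s b k1 k2 k3 k4) ∧
      (Nd S L k3 ∨ Nd S L k1 → O4 S L s b k2 k3 k4 k1) := by
  classical
  have W := h.ok.toWf
  have rα := W.real_α
  have rA := W.real_A
  have e1 := mem_kc.1 R.K1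
  have hz : ∀ b : Bool, ∃ z ∈ S.A, s z ≠ b := by
    intro b
    cases b
    · exact ⟨_, rA _ e1.1, by rw [e1.2.1]; decide⟩
    · exact ⟨_, rA _ (by rw [rα]; exact e1.1), by rw [e1.2.2]; decide⟩
  have hn : ∀ b : Bool, ∃ d, S.real d = true ∧ s (S.M.v d) = b ∧ s (S.M.v (S.M.α d)) = b := by
    intro b
    cases b
    · exact n2
    · exact n1
  obtain ⟨b, hb⟩ := h.tp R hΔ hT hF n1 n2
  obtain ⟨c, hc⟩ := h.sds hΔ (hz b) (hn b)
  obtain ⟨c', hc'⟩ := h.sds hΔ (hz (!b)) (hn (!b))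
  have cs := hb.cs c' hc'
  have A : ∀ {c}, Sol (sd S w s b) (sdL S L s b) c → Spl S b c k1 k2 k3 k4 →
      O4 S L s b k1 k2 k3 k4 := fun h1 h2 => h.o4 R hΔ hT hF h1 hc' h2 cs
  have B : ∀ {c}, Sol (sd S w s b) (sdL S L s b) c → Spl S b c k2 k3 k4 k1 →
      O4 S L s b k2 k3 k4 k1 := fun h1 h2 => h.o4 R.rot hΔ hT hF h1 hc' h2 cs.rot
  -- the side of a split solution
  have sb : ∀ {b' : Bool} {a : V → Bool}, Sol (sd S w s b') (sdL S L s b') a →
      (Spl S b' a k1 k2 k3 k4 ∨ Spl S b' a k2 k3 k4 k1) → b' = b := by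
    intro b' a ha hs
    by_contra hne
    have hb' : b' = !b := by
      revert hne
      cases b <;> cases b' <;> decide
    rw [hb'] at ha hs
    have q := hb.cs a ha
    rcases hs with hs | hs
    · exact hs.not_cst q
    · exact hs.not_cst' q
  refine ⟨b, (hb.sp c hc).imp (A hc) (B hc), ?_, ?_⟩
  · rintro (hN | hN)
    · obtain ⟨b', a, ha, hs⟩ := h.needc R hΔ hT hF h4 hN
      have := sb ha (Or.inl hs)
      rw [this] at ha hs
      exact A ha hs
    · obtain ⟨b', a, ha, hs⟩ := h.needc R.rot.rot hΔ hT hF h4 hN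
      have := sb ha (Or.inl hs.rot)
      rw [this] at ha hs
      exact A ha hs.rot
  · rintro (hN | hN)
    · obtain ⟨b', a, ha, hs⟩ := h.needc R.rot hΔ hT hF h4 hN
      have := sb ha (Or.inr hs)
      rw [this] at ha hs
      exact B ha hs
    · obtain ⟨b', a, ha, hs⟩ := h.needc R.rot.rot.rot hΔ hT hF h4 hN
      have := sb ha (Or.inr hs.rot)
      rw [this] at ha hs
      exact B ha hs.rot

end

/-- the ring of a cut with four edges, three consecutive edges are given -/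
theorem MC.ring (hΔ : Δ ≤ 6) (h : MC Δ S L w) (hS : IsStar S) {s : V → Bool} (h4 : S.rc s = 4)
    {k1 k2 k3 : D} (K1 : k1 ∈ kc S s) (K2 : k2 ∈ kc S s) (K3 : k3 ∈ kc S s) (n12 : k1 ≠ k2)
    (n13 : k1 ≠ k3) (n23 : k2 ≠ k3) (f1 : S.sc.r (S.M.α k1) k2) (f2 : S.sc.r (S.M.α k2) k3) :
    ∃ k4, Rk S s k1 k2 k3 k4 := by
  classical
  have W := h.ok.toWf
  have rα := W.real_α
  obtain ⟨k4, K4, hK, n14, n24, n34⟩ := kc_four h4 K1 K2 K3 n12 n13 n23
  have r4 := (mem_kc.1 K4).1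
  have nb := h.nobr hΔ hS r4
  have hid : ∀ d, (fci S d k1 - fci S d (S.M.α k3)) + (fci S d k4 - fci S d (S.M.α k4)) = 0 := by
    intro d
    have h1 := fc_id (s := s) rα (fci_cl (S := S) d)
    rw [sum4 hK n12 n13 n14 n23 n24 n34, cl_sc (fci_cl d) f1, cl_sc (fci_cl d) f2] at h1
    linarith
  have bd : ∀ d e, 0 ≤ fci S d e ∧ fci S d e ≤ 1 := by
    intro d e
    unfold fci
    split_ifs <;> norm_num
  have one : ∀ {d e}, 1 ≤ fci S d e → S.sc.r d e := by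
    intro d e h1
    by_contra h2
    rw [fci_zero h2] at h1
    norm_num at h1
  refine ⟨k4, fun k => ?_, n12, n13, n14, n23, n24, n34, f1, f2, ?_, ?_⟩
  · rw [hK]
    simp only [Finset.mem_insert, Finset.mem_singleton]
  · have h1 := hid k4
    rw [fci_one (S.sc.iseqv.refl k4), fci_zero nb] at h1
    exact S.sc.iseqv.symm (one (d := k4) (by linarith [(bd k4 k1).1]))
  · have h1 := hid (S.M.α k4)
    rw [fci_one (S.sc.iseqv.refl _), fci_zero fun h0 => nb (S.sc.iseqv.symm h0)] at h1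
    exact one (d := S.M.α k4) (by linarith [(bd (S.M.α k4) (S.M.α k3)).1])

/-- THE RULE OF TYPES: three consecutive edges of a cut with four edges -/
theorem MC.typ (hΔ : Δ ≤ 6) (h : MC Δ S L w) (hS : IsStar S) {s : V → Bool} (h4 : S.rc s = 4)
    (h1 : S.Two s true) (h2 : S.Two s false)
    {k1 k2 k3 : D} (K1 : k1 ∈ kc S s) (K2 : k2 ∈ kc S s) (K3 : k3 ∈ kc S s) (n12 : k1 ≠ k2)
    (n13 : k1 ≠ k3) (n23 : k2 ≠ k3) (f1 : S.sc.r (S.M.α k1) k2) (f2 : S.sc.r (S.M.α k2) k3) :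
    ∃ k4, Rk S s k1 k2 k3 k4 ∧
      ∃ b : Bool, (O4 S L s b k1 k2 k3 k4 ∨ O4 S L s b k2 k3 k4 k1) ∧
        (Nd S L k2 ∨ Nd S L k4 → O4 S L s b k1 k2 k3 k4) ∧
        (Nd S L k3 ∨ Nd S L k1 → O4 S L s b k2 k3 k4 k1) := by
  classical
  have W := h.ok.toWf
  have rα := W.real_α
  have rA := W.real_A
  have rA' : ∀ d, S.real d = true → S.M.v (S.M.α d) ∈ S.A := fun d hd =>
    rA _ (by rw [rα]; exact hd)
  have hA : ∀ {b}, S.Two s b → ∃ x ∈ S.A, s x = b := by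
    rintro b ⟨x, hx, -, -, -, sx, -⟩
    exact ⟨x, hx, sx⟩
  obtain ⟨s1, a1, a2, hT, hF⟩ := h.ext hΔ (s := s) (by omega) (hA h1) (hA h2)
  rw [h4] at a2
  obtain ⟨k4, R⟩ := h.ring hΔ hS h4 K1 K2 K3 n12 n13 n23 f1 f2
  have hk : ∀ k, k ∈ kc S s1 ↔ k ∈ kc S s := by
    intro k
    rw [mem_kc, mem_kc]
    constructor
    · rintro ⟨r, g1, g2⟩
      exact ⟨r, by rw [← a1 _ (rA _ r)]; exact g1, by rw [← a1 _ (rA' _ r)]; exact g2⟩
    · rintro ⟨r, g1, g2⟩
      exact ⟨r, by rw [a1 _ (rA _ r)]; exact g1, by rw [a1 _ (rA' _ r)]; exact g2⟩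
  have R1 : Rk S s1 k1 k2 k3 k4 :=
    ⟨fun k => (hk k).trans (R.mem k), R.n12, R.n13, R.n14, R.n23, R.n24, R.n34, R.f1, R.f2, R.f3,
      R.f4⟩
  have two : ∀ b, S.Two s b → S.Two s1 b := by
    rintro b ⟨x, hx, y, hy, hxy, sx, sy⟩
    exact ⟨x, hx, y, hy, hxy, by rw [a1 x hx, sx], by rw [a1 y hy, sy]⟩
  have n1 := h.inner hΔ (by omega) (two _ h1)
  have n2 : ∃ d, S.real d = true ∧ s1 (S.M.v d) = false ∧ s1 (S.M.v (S.M.α d)) = false := by
    obtain ⟨d, d1, d2, d3⟩ := h.inner hΔ (s := fun x => !s1 x) (by rw [rc_neg rα]; omega) (by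
      obtain ⟨x, hx, y, hy, hxy, sx, sy⟩ := two _ h2
      exact ⟨x, hx, y, hy, hxy, by simp [sx], by simp [sy]⟩)
    exact ⟨d, d1, by simpa using d2, by simpa using d3⟩
  have pt : ∀ t, Pt S L s t → Pt S L s1 t := fun t ht =>
    ⟨ht.real, ht.u, fun d hd h5 => ht.lab d hd (by
      have hr := ht.real d hd
      rw [← a1 _ (rA d hr), ← a1 _ (rA' d hr), h5])⟩
  have o4 : ∀ {b k1 k2 k3 k4}, O4 S L s1 b k1 k2 k3 k4 → O4 S L s b k1 k2 k3 k4 :=
    fun ho => ⟨ho.1, ho.2.1, fun P => ho.2.2.1 (pt _ P), fun P => ho.2.2.2 (pt _ P)⟩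
  obtain ⟨b, g1, g2, g3⟩ := h.typc R1 hΔ hT hF a2 n1 n2
  exact ⟨k4, R, b, g1.imp o4 o4, fun hN => o4 (g2 hN), fun hN => o4 (g3 hN)⟩

end Pool.FC7
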