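import Pool.Agent.FC7.Q5G
import Pool.Agent.FC7.DiA
import Pool.Agent.FC7.RokH

/-! # The flip at a gap corner and the choice of the cut -/

open Finset

set_option linter.unusedSectionVars false

namespace Pool.FC7

open Pool.FC6 Pool.FC6.St

variable {D V : Type} [Fintype D] [DecidableEq V] {S : St D V} {L : D → Bool} {w : D → ℕ} {Δ : ℕ}

/-- two real darts of a gap at the same vertex are equal -/
theorem real_uniq (hS : IsStar S) (W : Wf Δ S L w) {e e' : D} (hN : S.N2 (S.M.v e))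
    (re : S.real e = true) (re' : S.real e' = true) (rf : S.real (S.M.φ e) = false)
    (hv : S.M.v e' = S.M.v e) (hsc : S.sc.r e e') : e = e' := by
  have hd := hS.dead e re rf
  have A1 : S.M.v e' ∈ S.A := W.real_A _ re'
  have A2 : S.M.v (S.M.φ e') ∈ S.A := by
    rw [S.M.vφ]; exact W.real_A _ (by rw [W.real_α]; exact re')
  have h1 : S.sc.r (S.M.φ (S.M.φ e)) e' := by
    refine S.sc.iseqv.trans (S.sc.iseqv.symm ?_) hsc
    exact (scφ _ _).2 ((scφ _ _).2 (S.sc.iseqv.refl _))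
  have h2 : S.M.v (S.M.φ (S.M.φ e')) = S.M.v (S.M.φ (S.M.φ e)) := by
    rcases (hS.sc_star W hd e').1 h1 with h2 | h2 | h2
    · rw [h2] at A1; exact absurd A1 hd
    · rw [h2] at A2; exact absurd A2 hd
    · exact h2
  have h3 := hN (S.M.α (S.M.φ (S.M.φ e))) (S.M.α (S.M.φ (S.M.φ e'))) (S.M.vφ2 e)
    ((S.M.vφ2 e').trans hv) (by rw [S.M.αα, S.M.αα, h2])
  exact S.M.φinj (S.M.φinj (S.M.αinj h3))

/-- the state with the flipped virtual dart `σ t` -/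
theorem flip_ex (hS : IsStar S) (W : Wf Δ S L w) {t : D} (rt : S.real t = true)
    (rh : S.real (S.M.σ t) = false) :
    ∃ S' : St D V, Sim S S' ∧ S'.M.φ (S.M.σ t) = S.M.α t ∧ S'.M.φ (S.M.α t) = S.M.σ (S.M.σ t) ∧
      S'.M.v (S.M.σ t) = S.M.v (S.M.α (S.M.σ (S.M.σ t))) ∧
      S'.M.v (S.M.α (S.M.σ t)) = S.M.v (S.M.α t) ∧
      ∀ d, (∀ e, Fp S d e → S.real e = true) → S'.M.φ d = S.M.φ d := by
  classical
  have rα := W.real_α
  have e0 : S.M.φ (S.M.φ (S.M.σ t)) = S.M.α t := S.M.φ3 _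
  have e1 : S.M.φ (S.M.α (S.M.σ t)) = S.M.σ (S.M.σ t) := rfl
  have h1 : S.M.α (S.M.σ t) ≠ S.M.φ (S.M.σ t) := by
    intro h0
    have h2 : S.M.v (S.M.α (S.M.α (S.M.σ t))) = S.M.v (S.M.α (S.M.φ (S.M.σ t))) := by rw [h0]
    rw [S.M.αα, ← S.M.vφ (S.M.φ (S.M.σ t)), e0, S.M.vσ] at h2
    exact W.real_ne t rt h2
  have h2 : S.M.α (S.M.σ t) ≠ S.M.φ (S.M.φ (S.M.σ t)) := by
    intro h0
    rw [e0] at h0
    have h3 : S.real (S.M.α (S.M.σ t)) = false := by rw [rα]; exact rh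
    rw [h0, rα, rt] at h3
    exact absurd h3 (by decide)
  have s := S.M.six h1 h2
  refine ⟨wM S (S.M.flip (S.M.σ t) h1 h2), sim_flip h1 h2 rh hS.ur rα, ?_, ?_, ?_, ?_,
    fun d hd => ?_⟩
  · show flφ S.M.φ (S.M.σ t) (S.M.α (S.M.σ t)) (S.M.σ t) = S.M.α t
    rw [TMap.flφ_a, e0]
  · show flφ S.M.φ (S.M.σ t) (S.M.α (S.M.σ t)) (S.M.α t) = S.M.σ (S.M.σ t)
    rw [← e0, TMap.flφ_c s]
    rfl
  · show S.M.flv (S.M.σ t) (S.M.σ t) = _
    rw [S.M.flv_a, e1, S.M.vφ]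
  · show S.M.flv (S.M.σ t) (S.M.α (S.M.σ t)) = _
    rw [S.M.flv_a', e0]
  · show flφ S.M.φ (S.M.σ t) (S.M.α (S.M.σ t)) d = S.M.φ d
    have r1 : S.real (S.M.α (S.M.σ t)) = false := by rw [rα]; exact rh
    have rf : ∀ {e}, Fp S d e → S.real e = false → False := fun he hr => by
      rw [hd _ he] at hr
      exact absurd hr (by decide)
    apply TMap.flφ_off
    refine ⟨fun h0 => ?_, fun h0 => ?_, fun h0 => ?_, fun h0 => ?_, fun h0 => ?_, fun h0 => ?_⟩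
    · exact rf (Or.inl h0.symm) rh
    · refine rf (e := S.M.σ t) (Or.inr (Or.inr ?_)) rh
      rw [h0, S.M.φ3]
    · refine rf (e := S.M.σ t) (Or.inr (Or.inl ?_)) rh
      rw [h0, S.M.φ3]
    · exact rf (Or.inl h0.symm) r1
    · refine rf (e := S.M.α (S.M.σ t)) (Or.inr (Or.inr ?_)) r1
      rw [h0, S.M.φ3]
    · refine rf (e := S.M.α (S.M.σ t)) (Or.inr (Or.inl ?_)) r1
      rw [h0, S.M.φ3]

/-- the sides of the dead vertices -/
theorem MC.ext (hΔ : Δ ≤ 6) (h : MC Δ S L w) {s : V → Bool} (h7 : S.rc s ≤ 7)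
    (hx : ∃ x ∈ S.A, s x = true) (hy : ∃ x ∈ S.A, s x = false) :
    ∃ s1 : V → Bool, (∀ x ∈ S.A, s1 x = s x) ∧ S.rc s1 = S.rc s ∧ ConS S.M s1 true ∧
      ConS S.M s1 false := by
  classical
  have W := h.ok.toWf
  have rα := W.real_α
  have rA := W.real_A
  let P : ℕ → Prop := fun n => ∃ s' : V → Bool, (∀ x ∈ S.A, s' x = s x) ∧ mc S.M s' = n
  have hP : ∃ n, P n := ⟨_, s, fun _ _ => rfl, rfl⟩
  obtain ⟨s0, a1, a2⟩ := Nat.find_spec hP
  have hmin : ∀ s' : V → Bool, (∀ x ∈ S.A, s' x = s0 x) → mc S.M s0 ≤ mc S.M s' := by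
    intro s' b1
    rw [a2]
    exact Nat.find_min' hP ⟨s', fun x hx => (b1 x hx).trans (a1 x hx), rfl⟩
  have h4' : S.rc s0 = S.rc s := rc_congr rA rα a1
  have one : ∀ b, (∃ x ∈ S.A, s x = b) → ∃ x ∈ S.A, s0 x = b := by
    rintro b ⟨x, hx, sx⟩
    exact ⟨x, hx, by rw [a1 x hx, sx]⟩
  have c4 : ∀ s : V → Bool, (∃ x ∈ S.A, s x = true) → (∃ x ∈ S.A, s x = false) → 4 ≤ S.rc s :=
    fun _ k1 k2 => h.cut4 hΔ k1 k2
  have hT : ConS S.M s0 true := con_of_fix c4 (by omega) (one _ hy) hmin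
  have hF' : ConS S.M (fun x => !s0 x) true := by
    refine con_of_fix c4 (by rw [rc_neg rα]; omega) ?_ fun s' b1 => ?_
    · obtain ⟨x, hx, sx⟩ := one _ hx
      exact ⟨x, hx, by rw [sx]; rfl⟩
    · rw [mc_neg, ← mc_neg S.M s']
      exact hmin _ fun x hx => by
        show (!s' x) = s0 x
        rw [b1 x hx, Bool.not_not]
  refine ⟨s0, a1, h4', hT, ?_⟩
  intro f hf d d' hd hd'
  refine hF' f (fun e h3 h4 => hf e (by simpa using h3) (by simpa using h4)) d d' ?_ ?_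
  · simpa using hd
  · simpa using hd'

/-- a smallest side with four edges which contains two given vertices and does not contain `y` -/
theorem MC.pick (hΔ : Δ ≤ 6) (h : MC Δ S L w) {s : V → Bool} (h4 : S.rc s = 4) {x1 x2 y : V}
    (A1 : x1 ∈ S.A) (Ay : y ∈ S.A) (s1 : s x1 = true) (s2 : s x2 = true)
    (sy : s y = false) (A2 : x2 ∈ S.A) :
    ∃ s0 : V → Bool, (∀ x ∈ S.A, s0 x = true → s x = true) ∧ S.rc s0 = 4 ∧ s0 x1 = true ∧
      s0 x2 = true ∧ s0 y = false ∧ ConS S.M s0 true ∧ ConS S.M s0 false ∧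
      ∀ T : V → Bool, (∀ x, T x = true → s0 x = true) → T x1 = true → T x2 = true →
        (∃ x ∈ S.A, s0 x = true ∧ T x = false) → 5 ≤ S.rc T := by
  classical
  let P : ℕ → Prop := fun n => ∃ s' : V → Bool, (∀ x ∈ S.A, s' x = true → s x = true) ∧
    S.rc s' = 4 ∧ s' x1 = true ∧ s' x2 = true ∧ (S.A.filter fun x => s' x = true).card = n
  have hP : ∃ n, P n := ⟨_, s, fun _ _ h => h, h4, s1, s2, rfl⟩
  obtain ⟨s', a1, a2, a3, a4, a5⟩ := Nat.find_spec hP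
  have ay : s' y = false := by
    cases h0 : s' y
    · rfl
    · have := a1 y Ay h0
      rw [sy] at this
      exact absurd this (by decide)
  obtain ⟨s0, b1, b2, b3, b4⟩ := h.ext hΔ (s := s') (by omega) ⟨x1, A1, a3⟩ ⟨y, Ay, ay⟩
  refine ⟨s0, fun x hx h0 => a1 x hx (by rw [← b1 x hx]; exact h0), by rw [b2, a2],
    by rw [b1 x1 A1]; exact a3, by rw [b1 x2 A2]; exact a4, by rw [b1 y Ay]; exact ay, b3, b4,
    fun T t1 t2 t3 t4 => ?_⟩
  obtain ⟨z, zA, z1, z2⟩ := t4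
  have k1 := h.cut4 hΔ (s := T) ⟨x1, A1, t2⟩ ⟨z, zA, z2⟩
  by_contra hlt
  have k2 : S.rc T = 4 := by omega
  have k3 : (S.A.filter fun x => T x = true).card < Nat.find hP := by
    rw [← a5]
    refine Finset.card_lt_card ⟨fun x hx => ?_, fun hs => ?_⟩
    · rw [Finset.mem_filter] at hx ⊢
      exact ⟨hx.1, by rw [← b1 x hx.1]; exact t1 x hx.2⟩
    · have := hs (Finset.mem_filter.2 ⟨zA, by rw [← b1 z zA]; exact z1⟩)
      rw [Finset.mem_filter, z2] at this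
      exact absurd this.2 (by decide)
  exact Nat.find_min hP k3 ⟨T, fun x hx h0 => a1 x hx (by rw [← b1 x hx]; exact t1 x h0), k2, t2,
    t3, rfl⟩

end Pool.FC7
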