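import Pool.Agent.FC7.Q6B
import Pool.Agent.FC7.Q5H
import Pool.Agent.FC7.C5

/-! # A vertex with six real darts at a gap with four edges -/

open Finset

set_option linter.unusedSectionVars false

namespace Pool.FC7

open Pool.FC6 Pool.FC6.St

variable {D V : Type} [Fintype D] [DecidableEq V] {S : St D V} {L : D → Bool} {w : D → ℕ} {Δ : ℕ}

/-- the six real darts `t0, …, t5` at a vertex in the rotation; a gap with four edges between `t0` and
`t1` with the real darts `t1, e, f, α t0`, solid triangles between `t1, t2` and between `t5, t0` -/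
structure R6 (S : St D V) (t0 t1 t2 t3 t4 t5 e f : D) : Prop where
  r0 : S.real t0 = true
  r1 : S.real t1 = true
  r2 : S.real t2 = true
  r3 : S.real t3 = true
  r4 : S.real t4 = true
  r5 : S.real t5 = true
  g0 : S.real (S.M.σ t0) = false
  e1 : S.M.σ (S.M.σ t0) = t1
  e2 : S.M.σ t1 = t2
  e0 : S.M.σ t5 = t0
  v1 : S.M.v t1 = S.M.v t0
  v2 : S.M.v t2 = S.M.v t0
  v3 : S.M.v t3 = S.M.v t0
  v4 : S.M.v t4 = S.M.v t0
  v5 : S.M.v t5 = S.M.v t0
  s0 : S.sc.r (S.M.α t0) t1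
  s1 : S.sc.r (S.M.α t1) t2
  s2 : S.sc.r (S.M.α t2) t3
  s3 : S.sc.r (S.M.α t3) t4
  s4 : S.sc.r (S.M.α t4) t5
  s5 : S.sc.r (S.M.α t5) t0
  all : ∀ d, S.real d = true → S.M.v d = S.M.v t0 → d = t0 ∨ d = t1 ∨ d = t2 ∨ d = t3 ∨ d = t4 ∨
    d = t5
  nd : [t0, t1, t2, t3, t4, t5].Nodup
  /-- the dart from the end of `t1` to the vertex opposite in the gap -/
  ee : e = S.M.σ (S.M.φ t1)
  re : S.real e = true
  ve : S.M.v e = S.M.v (S.M.α t1)
  /-- the next dart of the gap, it leads to the end of `t0` -/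
  ff : f = S.M.σ (S.M.φ e)
  rf : S.real f = true
  vf : S.M.v f = S.M.v (S.M.α e)
  vf' : S.M.v (S.M.α f) = S.M.v (S.M.α t0)
  /-- the triangles of the gap at its dead vertex -/
  p1 : S.real (S.M.φ t1) = false
  pe : S.real (S.M.φ e) = false
  pf : S.real (S.M.φ f) = false
  h4 : S.M.σ^[4] (S.M.α (S.M.σ t0)) = S.M.α (S.M.σ t0)
  hf : S.M.α (S.M.φ f) = S.M.φ (S.M.σ t0)
  gap : ∀ d, S.real d = true → S.sc.r t1 d → d = t1 ∨ d = e ∨ d = f ∨ d = S.M.α t0

theorem Nx.uniq {a b t : D} (h1 : Nx S t a) (h2 : Nx S t b) : a = b := by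
  obtain ⟨r1, h1⟩ := h1
  obtain ⟨r2, h2⟩ := h2
  rcases h1 with h1 | ⟨h1, v1⟩ <;> rcases h2 with h2 | ⟨h2, v2⟩
  · rw [h1, h2]
  · rw [h1, v2] at r1
    exact absurd r1 (by decide)
  · rw [h2, v1] at r2
    exact absurd r2 (by decide)
  · rw [h1, h2]

theorem Nx.v {a t : D} (h : Nx S t a) : S.M.v a = S.M.v t := by
  rcases h.2 with h | ⟨h, -⟩
  · rw [h, S.M.vσ]
  · rw [h, S.M.vσ, S.M.vσ]

theorem Nx.sc {a t : D} (h : Nx S t a) : S.sc.r (S.M.α t) a := by
  have e1 : S.sc.r (S.M.α t) (S.M.σ t) := (scφ _ _).2 (S.sc.iseqv.refl _)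
  rcases h.2 with h | ⟨h, h3⟩
  · rw [h]; exact e1
  · rw [h]; exact (scφ _ _).2 ((scα h3 _).2 e1)

/-- the next dart of a virtual dart between two real darts -/
theorem Nx.step {a t d : D} (h : Nx S t a) (hd : d = t ∨ (d = S.M.σ t ∧ S.real d = false)) :
    S.M.σ d = a ∨ (S.M.σ d = S.M.σ t ∧ S.real (S.M.σ d) = false) := by
  rcases h.2 with h1 | ⟨h1, h2⟩
  · rcases hd with h3 | ⟨h3, h4⟩
    · left; rw [h3, h1]
    · rw [h3, ← h1, h.1] at h4
      exact absurd h4 (by decide)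
  · rcases hd with h3 | ⟨h3, h4⟩
    · right; rw [h3]; exact ⟨rfl, h2⟩
    · left; rw [h3, h1]

theorem R6.of (W : Wf Δ S L w) (hS : IsStar S) {t0 t1 t2 t3 t4 t5 : D}
    (r0 : S.real t0 = true) (g0 : S.real (S.M.σ t0) = false) (x1 : Nx S t0 t1) (x2 : Nx S t1 t2)
    (x3 : Nx S t2 t3) (x4 : Nx S t3 t4) (x5 : Nx S t4 t5) (x0 : Nx S t5 t0)
    (f1 : S.real (S.M.σ t1) = true) (f5 : S.real (S.M.φ (S.M.φ t0)) = true)
    (h4 : S.M.σ^[4] (S.M.α (S.M.σ t0)) = S.M.α (S.M.σ t0))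
    {s : V → Bool} {b : Bool} (c1 : s (S.M.v (S.M.α t1)) = b) (c2 : s (S.M.v (S.M.α t2)) = b)
    (c3 : s (S.M.v (S.M.α t3)) = b) (c4 : s (S.M.v (S.M.α t4)) = !b)
    (c5 : s (S.M.v (S.M.α t5)) = !b) (c0 : s (S.M.v (S.M.α t0)) = !b) :
    R6 S t0 t1 t2 t3 t4 t5 (S.M.σ (S.M.φ t1)) (S.M.σ (S.M.φ (S.M.σ (S.M.φ t1)))) := by
  classical
  have rα := W.real_α
  have rA := W.real_A
  have rA' : ∀ d, S.real d = true → S.M.v (S.M.α d) ∈ S.A := fun d hd =>
    rA _ (by rw [rα]; exact hd)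
  have nb : ∀ {x : Bool}, x = b → x = (!b) → False := by
    intro x h1 h2
    rw [h1] at h2
    cases b <;> exact absurd h2 (by decide)
  have ne : ∀ {x y : D}, s (S.M.v (S.M.α x)) = b → s (S.M.v (S.M.α y)) = (!b) → x ≠ y :=
    fun h1 h2 h3 => nb h1 (by rw [h3]; exact h2)
  -- the darts are different
  have n12 : t1 ≠ t2 := fun h => by
    rw [h] at x2
    have a := Nx.uniq x2 x3
    rw [← a] at x4
    exact ne c2 c4 (Nx.uniq x2 x4)
  have n23 : t2 ≠ t3 := fun h => by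
    rw [h] at x3
    exact ne c3 c4 (Nx.uniq x3 x4)
  have n13 : t1 ≠ t3 := fun h => by
    rw [h] at x2
    exact ne c2 c4 (Nx.uniq x2 x4)
  have n50 : t5 ≠ t0 := fun h => by
    rw [h] at x0
    exact ne c1 c0 (Nx.uniq x0 x1).symm
  have n45 : t4 ≠ t5 := fun h => by
    rw [h] at x5
    exact n50 (Nx.uniq x5 x0)
  have n40 : t4 ≠ t0 := fun h => by
    rw [h] at x5
    exact ne c1 c5 (Nx.uniq x5 x1).symm
  have v1 := x1.v
  have v2 := x2.v.trans v1
  have v3 := x3.v.trans v2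
  have v4 := x4.v.trans v3
  have v5 := x5.v.trans v4
  -- the triangles
  have e1 : S.M.σ (S.M.σ t0) = t1 := by
    rcases x1.2 with h | ⟨h, -⟩
    · rw [← h, x1.1] at g0
      exact absurd g0 (by decide)
    · exact h.symm
  have e2 : S.M.σ t1 = t2 := by
    rcases x2.2 with h | ⟨-, h⟩
    · exact h.symm
    · rw [f1] at h
      exact absurd h (by decide)
  have e0 : S.M.σ t5 = t0 := by
    rcases x0.2 with h | ⟨h, h3⟩
    · exact h.symm
    · have h5 : S.M.φ (S.M.φ t0) = S.M.α (S.M.σ t5) := by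
        rw [h]
        show S.M.φ (S.M.φ (S.M.φ (S.M.α (S.M.σ t5)))) = _
        rw [S.M.φ3]
      rw [h5, rα, h3] at f5
      exact absurd f5 (by decide)
  -- the gap
  obtain ⟨z, hz⟩ : ∃ z, z = S.M.α (S.M.σ t0) := ⟨_, rfl⟩
  have rz : S.real z = false := by rw [hz, rα]; exact g0
  have zt : S.M.φ z = t1 := by rw [hz]; exact e1
  have z2 : S.M.φ (S.M.φ t1) = z := by rw [← zt, S.M.φ3]
  have p1 : S.real (S.M.φ t1) = false := by
    by_contra h
    have := hS.two t1 x1.1 (by simpa using h)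
    rw [z2, rz] at this
    exact absurd this (by decide)
  have dz : S.M.v z ∉ S.A := by rw [← z2]; exact hS.dead _ x1.1 p1
  have nxt : ∀ t : D, S.real t = true → S.real (S.M.φ t) = false →
      S.real (S.M.σ (S.M.φ t)) = true ∧ S.real (S.M.φ (S.M.σ (S.M.φ t))) = false ∧
      S.M.v (S.M.σ (S.M.φ t)) = S.M.v (S.M.α t) ∧
      S.M.φ (S.M.φ (S.M.σ (S.M.φ t))) = S.M.α (S.M.φ t) := by
    intro t rt pt
    have hv : S.M.v (S.M.σ (S.M.φ t)) = S.M.v (S.M.α t) := by rw [S.M.vσ, S.M.vφ]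
    have h3 : S.M.φ (S.M.φ (S.M.σ (S.M.φ t))) = S.M.α (S.M.φ t) := by
      show S.M.φ (S.M.φ (S.M.φ (S.M.α (S.M.φ t)))) = _
      rw [S.M.φ3]
    have h4 : S.real (S.M.α (S.M.φ t)) = false := by rw [rα]; exact pt
    have h5 : S.real (S.M.σ (S.M.φ t)) = true := by
      rcases hS.virt W h4 with ⟨k, -⟩ | ⟨-, -, k, -⟩
      · exact k
      · exfalso
        apply k
        rw [S.M.αα, S.M.vφ]
        exact rA' _ rt
    refine ⟨h5, ?_, hv, h3⟩
    by_contra h6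
    have := hS.two _ h5 (by simpa using h6)
    rw [h3, h4] at this
    exact absurd this (by decide)
  obtain ⟨re, pe, ve, ze⟩ := nxt t1 x1.1 p1
  obtain ⟨rf, pf, vf, zf⟩ := nxt _ re pe
  obtain ⟨e, he⟩ : ∃ e, e = S.M.σ (S.M.φ t1) := ⟨_, rfl⟩
  rw [← he] at re pe ve ze rf pf vf zf ⊢
  obtain ⟨f, hf⟩ : ∃ f, f = S.M.σ (S.M.φ e) := ⟨_, rfl⟩
  rw [← hf] at rf pf vf zf ⊢
  -- the darts at the dead vertex
  have a0 : S.M.σ z = S.M.φ (S.M.σ t0) := by
    rw [hz]
    show S.M.φ (S.M.α (S.M.α (S.M.σ t0))) = _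
    rw [S.M.αα]
  have a1 : S.M.σ (S.M.α (S.M.φ t1)) = z := by
    show S.M.φ (S.M.α (S.M.α (S.M.φ t1))) = z
    rw [S.M.αα, z2]
  have a2 : S.M.σ (S.M.α (S.M.φ e)) = S.M.α (S.M.φ t1) := by
    show S.M.φ (S.M.α (S.M.α (S.M.φ e))) = _
    rw [S.M.αα, ze]
  have a3 : S.M.σ (S.M.α (S.M.φ f)) = S.M.α (S.M.φ e) := by
    show S.M.φ (S.M.α (S.M.α (S.M.φ f))) = _
    rw [S.M.αα, zf]
  rw [← hz] at h4
  have b1 : S.M.σ (S.M.σ (S.M.σ z)) = S.M.α (S.M.φ t1) := S.M.σinj (by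
    rw [a1]; exact h4)
  have b2 : S.M.σ (S.M.σ z) = S.M.α (S.M.φ e) := S.M.σinj (by rw [a2]; exact b1)
  have b3 : S.M.σ z = S.M.α (S.M.φ f) := S.M.σinj (by rw [a3]; exact b2)
  have hhf : S.M.α (S.M.φ f) = S.M.φ (S.M.σ t0) := by rw [← b3, a0]
  have q0 : S.M.φ (S.M.φ (S.M.σ t0)) = S.M.α t0 := S.M.φ3 _
  refine
    { r0 := r0, r1 := x1.1, r2 := x2.1, r3 := x3.1, r4 := x4.1, r5 := x5.1, g0 := g0, e1 := e1,
      e2 := e2, e0 := e0, v1 := v1, v2 := v2, v3 := v3, v4 := v4, v5 := v5, s0 := x1.sc,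
      s1 := x2.sc, s2 := x3.sc, s3 := x4.sc, s4 := x5.sc, s5 := x0.sc, all := ?_, nd := ?_,
      ee := he, re := re, ve := ve, ff := hf, rf := rf, vf := vf, vf' := ?_, p1 := p1, pe := pe,
      pf := pf, h4 := by rw [← hz]; exact h4, hf := hhf, gap := ?_ }
  · -- all real darts at the vertex
    intro d rd hd
    obtain ⟨m, hm⟩ := S.M.σ_orbit hd.symm
    have key : ∀ m, ∃ t ∈ [t0, t1, t2, t3, t4, t5], S.M.σ^[m] t0 = t ∨
        (S.M.σ^[m] t0 = S.M.σ t ∧ S.real (S.M.σ^[m] t0) = false) := by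
      intro m
      induction m with
      | zero => exact ⟨t0, by simp, Or.inl rfl⟩
      | succ m ih =>
        obtain ⟨t, ht, h1⟩ := ih
        rw [Function.iterate_succ_apply']
        have go : ∀ a, Nx S t a → a ∈ [t0, t1, t2, t3, t4, t5] →
            ∃ t ∈ [t0, t1, t2, t3, t4, t5], S.M.σ (S.M.σ^[m] t0) = t ∨
              (S.M.σ (S.M.σ^[m] t0) = S.M.σ t ∧ S.real (S.M.σ (S.M.σ^[m] t0)) = false) := by
          intro a ha hm
          rcases ha.step h1 with h2 | h2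
          · exact ⟨a, hm, Or.inl h2⟩
          · exact ⟨t, ht, Or.inr h2⟩
        simp only [List.mem_cons, List.not_mem_nil, or_false] at ht
        rcases ht with ht | ht | ht | ht | ht | ht <;> rw [ht] at go
        · exact go _ x1 (by simp)
        · exact go _ x2 (by simp)
        · exact go _ x3 (by simp)
        · exact go _ x4 (by simp)
        · exact go _ x5 (by simp)
        · exact go _ x0 (by simp)
    obtain ⟨t, ht, h1⟩ := key m
    rw [hm] at h1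
    rcases h1 with h1 | ⟨-, h1⟩
    · rw [h1]
      simpa using ht
    · rw [rd] at h1
      exact absurd h1 (by decide)
  · have m10 := ne c1 c0
    have m14 := ne c1 c4
    have m15 := ne c1 c5
    have m20 := ne c2 c0
    have m24 := ne c2 c4
    have m25 := ne c2 c5
    have m30 := ne c3 c0
    have m34 := ne c3 c4
    have m35 := ne c3 c5
    simp only [List.nodup_cons, List.mem_cons, List.not_mem_nil, or_false, not_or, not_false_iff,
      List.nodup_nil, and_true]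
    exact ⟨⟨m10.symm, m20.symm, m30.symm, n40.symm, n50.symm⟩, ⟨n12, n13, m14, m15⟩,
      ⟨n23, m24, m25⟩, ⟨m34, m35⟩, n45⟩
  · rw [← S.M.vφ f, ← S.M.αα (S.M.φ f), hhf, ← S.M.vφ (S.M.φ (S.M.σ t0)), q0]
  · intro d rd hd
    have h1 : S.sc.r z d := by
      refine S.sc.iseqv.trans ?_ hd
      rw [← zt]
      exact (scφ _ _).2 (S.sc.iseqv.refl _)
    have h2 : S.M.v (S.M.φ (S.M.φ d)) = S.M.v z := by
      rcases (hS.sc_star W dz d).1 h1 with h3 | h3 | h3
      · exact absurd (h3 ▸ rA d rd) dz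
      · rw [S.M.vφ] at h3
        exact absurd (h3 ▸ rA' d rd) dz
      · exact h3
    obtain ⟨m, hm⟩ := S.M.σ_orbit h2.symm
    have key : ∀ m, S.M.σ^[m] z = z ∨ S.M.σ^[m] z = S.M.σ z ∨
        S.M.σ^[m] z = S.M.σ (S.M.σ z) ∨ S.M.σ^[m] z = S.M.σ (S.M.σ (S.M.σ z)) := by
      intro m
      induction m with
      | zero => exact Or.inl rfl
      | succ m ih =>
        rw [Function.iterate_succ_apply']
        rcases ih with h | h | h | h <;> rw [h]
        · exact Or.inr (Or.inl rfl)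
        · exact Or.inr (Or.inr (Or.inl rfl))
        · exact Or.inr (Or.inr (Or.inr rfl))
        · exact Or.inl h4
    have h3 := key m
    rw [hm] at h3
    rcases h3 with h3 | h3 | h3 | h3
    · left
      rw [← z2] at h3
      exact S.M.φinj (S.M.φinj h3)
    · right; right; right
      rw [a0] at h3
      rw [← q0, ← S.M.φinj h3, S.M.φ3]
    · right; right; left
      rw [b2, ← zf] at h3
      exact S.M.φinj (S.M.φinj h3)
    · right; left
      rw [b1, ← ze] at h3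
      exact S.M.φinj (S.M.φinj h3)

end Pool.FC7
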