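import Pool.Agent.FC7.Q7B
import Pool.Agent.FC7.Q6D
import Pool.Agent.FC7.Q5V
import Pool.Agent.FC7.C5

/-! # The vertices around a vertex with four real darts and a gap -/

open Finset

set_option linter.unusedSectionVars false

namespace Pool.FC7

open Pool.FC6 Pool.FC6.St

variable {D V : Type} [Fintype D] [DecidableEq V] {S : St D V} {L : D → Bool} {w : D → ℕ} {Δ : ℕ}

/-- four real darts in the rotation at a vertex are all real darts at this vertex -/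
theorem nx4_all {t0 t1 t2 t3 : D} (x1 : Nx S t0 t1) (x2 : Nx S t1 t2) (x3 : Nx S t2 t3)
    (x0 : Nx S t3 t0) {d : D} (rd : S.real d = true) (hd : S.M.v d = S.M.v t0) :
    d = t0 ∨ d = t1 ∨ d = t2 ∨ d = t3 := by
  obtain ⟨m, hm⟩ := S.M.σ_orbit hd.symm
  have key : ∀ m, ∃ t ∈ [t0, t1, t2, t3], S.M.σ^[m] t0 = t ∨
      (S.M.σ^[m] t0 = S.M.σ t ∧ S.real (S.M.σ^[m] t0) = false) := by
    intro m
    induction m with
    | zero => exact ⟨t0, by simp, Or.inl rfl⟩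
    | succ m ih =>
      obtain ⟨t, ht, h1⟩ := ih
      rw [Function.iterate_succ_apply']
      have go : ∀ a, Nx S t a → a ∈ [t0, t1, t2, t3] →
          ∃ t ∈ [t0, t1, t2, t3], S.M.σ (S.M.σ^[m] t0) = t ∨
            (S.M.σ (S.M.σ^[m] t0) = S.M.σ t ∧ S.real (S.M.σ (S.M.σ^[m] t0)) = false) := by
        intro a ha hm
        rcases ha.step h1 with h2 | h2
        · exact ⟨a, hm, Or.inl h2⟩
        · exact ⟨t, ht, Or.inr h2⟩
      simp only [List.mem_cons, List.not_mem_nil, or_false] at ht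
      rcases ht with ht | ht | ht | ht <;> rw [ht] at go
      · exact go _ x1 (by simp)
      · exact go _ x2 (by simp)
      · exact go _ x3 (by simp)
      · exact go _ x0 (by simp)
  obtain ⟨t, ht, h1⟩ := key m
  rw [hm] at h1
  rcases h1 with h1 | ⟨-, h1⟩
  · rw [h1]
    simpa using ht
  · rw [rd] at h1
    exact absurd h1 (by decide)

/-- at most four real darts at a vertex -/
theorem rdeg4_of {t0 t1 t2 t3 : D} (h : ∀ d, S.real d = true → S.M.v d = S.M.v t0 →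
    d = t0 ∨ d = t1 ∨ d = t2 ∨ d = t3) : S.rdeg (S.M.v t0) ≤ 4 := by
  classical
  have h1 : S.rdeg (S.M.v t0) =
      (Finset.univ.filter fun d => S.M.v d = S.M.v t0 ∧ S.real d = true).card := by
    unfold St.rdeg
    rw [Finset.card_filter]
  rw [h1]
  refine le_trans (Finset.card_le_card (t := {t0, t1, t2, t3}) fun d hd => ?_) Finset.card_le_four
  rw [Finset.mem_filter] at hd
  simp only [Finset.mem_insert, Finset.mem_singleton]
  exact h d hd.2.2 hd.2.1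

/-- four real darts at a vertex of degree four are different -/
theorem nodup4_of {t0 t1 t2 t3 : D} (h : ∀ d, S.real d = true → S.M.v d = S.M.v t0 →
    d = t0 ∨ d = t1 ∨ d = t2 ∨ d = t3) (h4 : 4 ≤ S.rdeg (S.M.v t0)) :
    [t0, t1, t2, t3].Nodup := by
  classical
  have h1 : S.rdeg (S.M.v t0) =
      (Finset.univ.filter fun d => S.M.v d = S.M.v t0 ∧ S.real d = true).card := by
    unfold St.rdeg
    rw [Finset.card_filter]
  have h2 : 4 ≤ ([t0, t1, t2, t3].toFinset).card := by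
    rw [h1] at h4
    refine le_trans h4 (Finset.card_le_card fun d hd => ?_)
    rw [Finset.mem_filter] at hd
    rw [List.mem_toFinset]
    simpa using h d hd.2.2 hd.2.1
  have h3 : ([t0, t1, t2, t3].toFinset).card = [t0, t1, t2, t3].length :=
    le_antisymm (List.toFinset_card_le _) h2
  exact Multiset.toFinset_card_eq_card_iff_nodup.1 h3

/-- the triangle before a real dart -/
theorem Nx.tri (W : Wf Δ S L w) {t a : D} (x : Nx S t a) (hf : S.real (S.M.φ (S.M.φ a)) = true) :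
    S.M.φ (S.M.φ a) = S.M.α t := by
  have e : ∀ z, S.M.φ (S.M.φ (S.M.σ z)) = S.M.α z := fun z => S.M.φ3 _
  rcases x.2 with h | ⟨h, h2⟩
  · rw [h, e]
  · rw [h, e, W.real_α, h2] at hf
    exact absurd hf (by decide)

theorem Tr3.neg {s : V → Bool} {a1 a2 a3 a4 b c : D} (T : Tr3 S L s a1 a2 a3 a4 b c) :
    Tr3 S L (fun x => !s x) a1 a2 a3 a4 b c := by
  have e : ∀ {a b}, s a = s b → (!s a) = !s b := fun h0 => by rw [h0]
  have n : ∀ {a b}, s a ≠ s b → (!s a) ≠ !s b := fun {a b} h0 h1 => by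
    apply h0
    cases h3 : s a <;> cases h4 : s b <;> rw [h3, h4] at h1 <;>
      first | rfl | exact absurd h1 (by decide)
  exact
    { r4 := T.r4, g := T.g, x1 := T.x1, x2 := T.x2, x3 := T.x3, x4 := T.x4, Pw := T.Pw.neg,
      Py := T.Py.neg, rt := T.rt, b1 := T.b1, b2 := T.b2, c1 := T.c1, c2 := T.c2, s1 := e T.s1,
      s2 := e T.s2, s3 := e T.s3, s4 := e T.s4, sb := n T.sb, sc := n T.sc }

section

variable {s : V → Bool} {a1 a2 a3 a4 b c : D} (W : Wf Δ S L w) (hS : IsStar S)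
  (T : Tr3 S L s a1 a2 a3 a4 b c)

include W hS T

theorem Tr3.f2 : S.M.φ (S.M.φ a2) = S.M.α a1 :=
  T.x2.tri W (T.Pw.real _ (Or.inr (Or.inr rfl)))

theorem Tr3.f3 : S.M.φ (S.M.φ a3) = S.M.α a2 :=
  T.x3.tri W (hS.two _ T.x3.1 T.rt)

theorem Tr3.f4 : S.M.φ (S.M.φ a4) = S.M.α a3 :=
  T.x4.tri W (T.Py.real _ (Or.inr (Or.inr rfl)))

theorem Tr3.v1 : S.M.v a1 = S.M.v a4 := T.x1.v

theorem Tr3.v2 : S.M.v a2 = S.M.v a4 := T.x2.v.trans T.x1.v

theorem Tr3.v3 : S.M.v a3 = S.M.v a4 := T.x4.v.symm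

theorem Tr3.vb : S.M.v b = S.M.v (S.M.α a2) := T.b1.v.trans (S.M.vφ _)

theorem Tr3.vc : S.M.v c = S.M.v (S.M.α a3) := T.c1.v.trans (S.M.vφ _)

/-- `φ a2` leads to the end of `a1` -/
theorem Tr3.w2 : S.M.v (S.M.α (S.M.φ a2)) = S.M.v (S.M.α a1) := by
  rw [← S.M.vφ, T.f2 W hS]

theorem Tr3.w3 : S.M.v (S.M.α (S.M.φ a3)) = S.M.v (S.M.α a2) := by
  rw [← S.M.vφ, T.f3 W hS]

theorem Tr3.w4 : S.M.v (S.M.α (S.M.φ a4)) = S.M.v (S.M.α a3) := by
  rw [← S.M.vφ, T.f4 W hS]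

/-- the real darts at the centre -/
theorem Tr3.atx {d : D} (rd : S.real d = true) (hd : S.M.v d = S.M.v a4) :
    d = a1 ∨ d = a2 ∨ d = a3 ∨ d = a4 := by
  rcases nx4_all T.x1 T.x2 T.x3 T.x4 rd hd with h | h | h | h
  · exact Or.inr (Or.inr (Or.inr h))
  · exact Or.inl h
  · exact Or.inr (Or.inl h)
  · exact Or.inr (Or.inr (Or.inl h))

theorem Tr3.nxv : Nx S (S.M.α a2) (S.M.φ a2) ∧ Nx S (S.M.α (S.M.φ a3)) (S.M.α a2) := by
  refine ⟨⟨T.Pw.real _ (Or.inr (Or.inl rfl)), Or.inl ?_⟩, ⟨by rw [W.real_α]; exact T.x2.1,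
    Or.inl ?_⟩⟩
  · show _ = S.M.φ (S.M.α (S.M.α a2))
    rw [S.M.αα]
  · show _ = S.M.φ (S.M.α (S.M.α (S.M.φ a3)))
    rw [S.M.αα, T.f3 W hS]

theorem Tr3.nxz : Nx S (S.M.α a3) (S.M.φ a3) ∧ Nx S (S.M.α (S.M.φ a4)) (S.M.α a3) := by
  refine ⟨⟨T.rt, Or.inl ?_⟩, ⟨by rw [W.real_α]; exact T.x3.1, Or.inl ?_⟩⟩
  · show _ = S.M.φ (S.M.α (S.M.α a3))
    rw [S.M.αα]
  · show _ = S.M.φ (S.M.α (S.M.α (S.M.φ a4)))
    rw [S.M.αα, T.f4 W hS]

/-- the real darts at the end of `a2` -/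
theorem Tr3.atv {d : D} (rd : S.real d = true) (hd : S.M.v d = S.M.v (S.M.α a2)) :
    d = S.M.α a2 ∨ d = S.M.φ a2 ∨ d = b ∨ d = S.M.α (S.M.φ a3) :=
  nx4_all (T.nxv W hS).1 T.b1 T.b2 (T.nxv W hS).2 rd hd

/-- the real darts at the end of `a3` -/
theorem Tr3.atz {d : D} (rd : S.real d = true) (hd : S.M.v d = S.M.v (S.M.α a3)) :
    d = S.M.α a3 ∨ d = S.M.φ a3 ∨ d = c ∨ d = S.M.α (S.M.φ a4) :=
  nx4_all (T.nxz W hS).1 T.c1 T.c2 (T.nxz W hS).2 rd hd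

omit T in
theorem ne_of_side {s : V → Bool} {x y : V} (h : s x ≠ s y) : x ≠ y := fun h0 => h (by rw [h0])

/-- the heads of the four real darts at the centre are different -/
theorem MC.tr3_ne (hΔ : Δ ≤ 6) (h : MC Δ S L w) :
    S.M.v (S.M.α a1) ≠ S.M.v (S.M.α a2) ∧ S.M.v (S.M.α a1) ≠ S.M.v (S.M.α a3) ∧
    S.M.v (S.M.α a1) ≠ S.M.v (S.M.α a4) ∧ S.M.v (S.M.α a2) ≠ S.M.v (S.M.α a3) ∧
    S.M.v (S.M.α a2) ≠ S.M.v (S.M.α a4) ∧ S.M.v (S.M.α a3) ≠ S.M.v (S.M.α a4) := by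
  have nd := nodup4_of (fun d h1 h2 => nx4_all T.x1 T.x2 T.x3 T.x4 h1 h2)
    (h.rdeg4 hΔ (W.real_A _ T.r4))
  simp only [List.nodup_cons, List.mem_cons, List.not_mem_nil, or_false, not_or, not_false_iff,
    List.nodup_nil, and_true] at nd
  obtain ⟨⟨n41, n42, n43⟩, ⟨n12, n13⟩, n23⟩ := nd
  have dif : ∀ {a b}, S.real a = true → S.real b = true → S.M.v a = S.M.v a4 →
      S.M.v b = S.M.v a4 → a ≠ b → S.M.v (S.M.α a) ≠ S.M.v (S.M.α b) := fun ra rb va vb hab h0 =>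
    hab (W.simple _ _ ra rb (va.trans vb.symm) h0)
  have v1 := T.v1 W hS
  have v2 := T.v2 W hS
  have v3 := T.v3 W hS
  exact ⟨dif T.x1.1 T.x2.1 v1 v2 n12, dif T.x1.1 T.x3.1 v1 v3 n13,
    dif T.x1.1 T.r4 v1 rfl (Ne.symm n41), dif T.x2.1 T.x3.1 v2 v3 n23,
    dif T.x2.1 T.r4 v2 rfl (Ne.symm n42), dif T.x3.1 T.r4 v3 rfl (Ne.symm n43)⟩

end

/-- a closed curve of length three through two vertices with four real darts and a gap is facial -/
theorem MC.no3 (hΔ : Δ ≤ 6) (h : MC Δ S L w) (hS : IsStar S) {d e e' : D}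
    (hd : S.real d = true) (he : S.M.v e = S.M.v d) (he' : S.M.v e' = S.M.v (S.M.α d))
    (hw : S.M.v (S.M.α e) = S.M.v (S.M.α e')) (r4 : S.rdeg (S.M.v d) ≤ 4)
    (r4' : S.rdeg (S.M.v (S.M.α d)) ≤ 4) (re : S.real e = false) :
    (e = S.M.σ d ∧ S.M.σ e' = S.M.α d) ∨ (S.M.σ e = d ∧ e' = S.M.σ (S.M.α d)) := by
  classical
  have W := h.ok.toWf
  by_contra hn
  have hR := h.rg hΔ
  obtain ⟨hc, h2⟩ := hR.two_sides hS W (by omega) hd he he' hw hn
  obtain ⟨s, hs⟩ := hc.side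
  have hz : S.M.v (S.M.α e) ∉ S.A := hS.vhead W (by rw [he]; exact W.real_A _ hd) re
  have ho : S.out ![d, e', S.M.α e] ≤ 7 := by
    have h1 : S.out ![d, e', S.M.α e] +
        ∑ i : Fin 3, (if S.real (![d, e', S.M.α e] i) = true then 2 else 0)
        ≤ ∑ i : Fin 3, S.rdeg (S.M.v (![d, e', S.M.α e] i)) := out_le (S := nou S) W.nou hc
    have h3 : ∑ i : Fin 3, S.rdeg (S.M.v (![d, e', S.M.α e] i)) ≤ 8 := by
      rw [Fin.sum_univ_three]
      have a2 : S.rdeg (S.M.v (S.M.α e)) = 0 := rdeg_dead W hz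
      show S.rdeg (S.M.v d) + S.rdeg (S.M.v e') + S.rdeg (S.M.v (S.M.α e)) ≤ 8
      rw [he']
      omega
    have h4 : 2 ≤ ∑ i : Fin 3, (if S.real (![d, e', S.M.α e] i) = true then 2 else 0) := by
      rw [Fin.sum_univ_three]
      show 2 ≤ (if S.real d = true then 2 else 0) + (if S.real e' = true then 2 else 0) +
        (if S.real (S.M.α e) = true then 2 else 0)
      rw [if_pos hd]
      omega
    omega
  rcases hR.one_side W hc hs ho with h5 | h5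
  · obtain ⟨z, z1, z2, z3⟩ := h2 s hs true
    rw [h5 z z1 z2] at z3
    exact absurd z3 (by decide)
  · obtain ⟨z, z1, z2, z3⟩ := h2 s hs false
    rw [h5 z z1 z2] at z3
    exact absurd z3 (by decide)

section

variable {s : V → Bool} {a1 a2 a3 a4 b c : D}

/-- the face between the fourth darts at the ends of `a2` and `a3` is on one side of them only -/
theorem MC.tr3_nb (hΔ : Δ ≤ 6) (h : MC Δ S L w) (hS : IsStar S)
    (T : Tr3 S L s a1 a2 a3 a4 b c) : ¬ S.sc.r (S.M.α c) b := by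
  classical
  have W := h.ok.toWf
  have rα := W.real_α
  have rA := W.real_A
  intro h0
  obtain ⟨n12, n13, n14, n23, n24, n34⟩ := h.tr3_ne W hS T hΔ
  have vb := T.vb W hS
  have vc := T.vc W hS
  have rc' : S.real (S.M.α c) = true := by rw [rα]; exact T.c1.1
  have rφ4 : S.real (S.M.φ a4) = true := T.Py.real _ (Or.inr (Or.inl rfl))
  have rφ2 : S.real (S.M.φ a2) = true := T.Pw.real _ (Or.inr (Or.inl rfl))
  have eσ : S.M.σ c = S.M.φ (S.M.α c) := rfl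
  rcases T.c2.2 with h1 | ⟨h1, h2⟩
  · -- a triangle
    have p1 : S.real (S.M.φ (S.M.α c)) = true := by
      rw [← eσ, ← h1, rα]; exact rφ4
    have hr : ∀ d, Fp S (S.M.α c) d → S.real d = true := by
      rintro d (rfl | rfl | rfl)
      · exact rc'
      · exact p1
      · exact hS.two _ rc' p1
    rcases fp_of_sc rα hr h0 with h3 | h3 | h3
    · apply T.sc
      rw [← h3, vb, T.s2]
    · apply n23
      rw [← vb, h3, ← eσ, S.M.vσ, vc]
    · apply n24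
      rw [← vb, h3, S.M.vφ, ← eσ, ← h1, S.M.αα, S.M.vφ]
  · -- a gap
    have hd := hS.dead _ rc' (by rw [← eσ]; exact h2)
    have e1 : S.M.v (S.M.α (S.M.σ c)) = S.M.v (S.M.φ (S.M.φ (S.M.α c))) := by
      rw [eσ, ← S.M.vφ]
    have rw2 : S.real (S.M.α (S.M.φ a2)) = true := by rw [rα]; exact rφ2
    have hsc : S.sc.r (S.M.α c) (S.M.α (S.M.φ a2)) :=
      S.sc.iseqv.trans h0 (S.sc.iseqv.symm T.b1.sc)
    have h3 : S.M.v (S.M.φ (S.M.φ (S.M.α (S.M.φ a2)))) = S.M.v (S.M.φ (S.M.φ (S.M.α c))) := by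
      have h4 : S.sc.r (S.M.φ (S.M.φ (S.M.α c))) (S.M.α (S.M.φ a2)) :=
        S.sc.iseqv.trans (S.sc.iseqv.symm ((scφ _ _).2 ((scφ _ _).2 (S.sc.iseqv.refl _)))) hsc
      rcases (hS.sc_star W hd _).1 h4 with h5 | h5 | h5
      · exact absurd (h5 ▸ rA _ rw2) hd
      · rw [S.M.vφ, S.M.αα] at h5
        exact absurd (h5 ▸ rA _ rφ2) hd
      · exact h5
    have e2 : S.M.σ (S.M.φ a2) = S.M.φ (S.M.α (S.M.φ a2)) := rfl
    have e3 : S.M.v (S.M.α (S.M.σ (S.M.φ a2))) = S.M.v (S.M.φ (S.M.φ (S.M.α c))) := by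
      rw [e2, ← S.M.vφ, h3]
    have hw : S.M.v (S.M.α (S.M.σ c)) = S.M.v (S.M.α (S.M.σ (S.M.φ a2))) := by rw [e1, e3]
    have w3 := T.w3 W hS
    have r4 : S.rdeg (S.M.v (S.M.φ a3)) ≤ 4 := by
      rw [S.M.vφ]
      exact rdeg4_of fun d h1 h2 => T.atz W hS h1 h2
    have r4' : S.rdeg (S.M.v (S.M.α (S.M.φ a3))) ≤ 4 := by
      rw [w3]
      exact rdeg4_of fun d h1 h2 => T.atv W hS h1 h2
    rcases h.no3 hΔ hS (d := S.M.φ a3) (e := S.M.σ c) (e' := S.M.σ (S.M.φ a2)) T.rt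
      (by rw [S.M.vσ, vc, S.M.vφ]) (by rw [S.M.vσ, S.M.vφ, w3]) hw r4 r4' h2 with ⟨h5, -⟩ | ⟨h5, -⟩
    · have h6 := S.M.σinj h5
      apply T.sc
      rw [h6, w3, T.s2]
    · rw [← h1] at h5
      apply n24
      rw [← w3, ← h5, S.M.αα, S.M.vφ]

/-- the ring of the cut -/
theorem MC.tr3_rk (hΔ : Δ ≤ 6) (h : MC Δ S L w) (hS : IsStar S)
    (T : Tr3 S L s a1 a2 a3 a4 b c) (h4 : S.rc s = 4) (sx : s (S.M.v a4) = true) :
    ∃ k3 k4, Rk S s b c k3 k4 := by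
  classical
  have W := h.ok.toWf
  have rα := W.real_α
  have bne : ∀ {x : Bool}, x ≠ true → x = false := by decide
  obtain ⟨n12, n13, n14, n23, n24, n34⟩ := h.tr3_ne W hS T hΔ
  have vb := T.vb W hS
  have vc := T.vc W hS
  have K1 : b ∈ kc S s := mem_kc.2 ⟨T.b1.1, by rw [vb, T.s2, sx], bne (by rw [← sx]; exact T.sb)⟩
  have K2 : c ∈ kc S s := mem_kc.2 ⟨T.c1.1, by rw [vc, T.s3, sx], bne (by rw [← sx]; exact T.sc)⟩
  have nbc : b ≠ c := fun h0 => n23 (by rw [← vb, h0, vc])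
  have f1 : S.sc.r (S.M.α b) c := S.sc.iseqv.trans T.b2.sc T.c1.sc
  have nb := h.nobr hΔ hS T.c1.1
  have key : ∃ k ∈ kc S s, S.sc.r (S.M.α c) k := by
    by_contra hn
    push Not at hn
    have h1 := fc_id (s := s) rα (fci_cl (S := S) (S.M.α c))
    have h2 : ∑ k ∈ kc S s, fci S (S.M.α c) (S.M.α k) = 0 := by
      have h3 : ∑ k ∈ kc S s, (fci S (S.M.α c) k - fci S (S.M.α c) (S.M.α k)) =
          ∑ k ∈ kc S s, -fci S (S.M.α c) (S.M.α k) :=
        Finset.sum_congr rfl fun k hk => by rw [fci_zero (hn k hk), zero_sub]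
      rw [h3, Finset.sum_neg_distrib] at h1
      linarith
    have h5 : ∀ k ∈ kc S s, 0 ≤ fci S (S.M.α c) (S.M.α k) := fun k _ => by
      unfold fci
      split_ifs <;> norm_num
    have h6 := (Finset.sum_eq_zero_iff_of_nonneg h5).1 h2 c K2
    rw [fci_one (S.sc.iseqv.refl _)] at h6
    norm_num at h6
  obtain ⟨k3, K3, f2⟩ := key
  have n3 : c ≠ k3 := fun h0 => nb (by rw [← h0] at f2; exact S.sc.iseqv.symm f2)
  have n2 : b ≠ k3 := fun h0 => h.tr3_nb hΔ hS T (by rw [h0]; exact f2)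
  obtain ⟨k4, R⟩ := h.ring hΔ hS h4 K1 K2 K3 nbc n2 n3 f1 f2
  exact ⟨k3, k4, R⟩

end

end Pool.FC7
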