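import Pool.Agent.FC7.Q7E
import Pool.Agent.FC7.Q8B
import Pool.Agent.FC7.Q8C

/-! # Cuts next to a vertex with four edges and a gap -/

open Finset

set_option linter.unusedSectionVars false

namespace Pool.FC7

open Pool.FC6 Pool.FC6.St

variable {D V : Type} [Fintype D] [DecidableEq V] {S : St D V} {L : D → Bool} {w : D → ℕ} {Δ : ℕ}

theorem Tr3.sw3 {s : V → Bool} {a1 a2 a3 a4 b c : D} (hΔ : Δ ≤ 6) (h : MC Δ S L w)
    (hS : IsStar S) (T : Tr3 S L s a1 a2 a3 a4 b c) (sx : s (S.M.v a4) = true) :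
    Sw3 S s a1 a2 a3 a4 b c := by
  have W := h.ok.toWf
  have bne : ∀ {x : Bool}, x ≠ true → x = false := by decide
  obtain ⟨n12, n13, n14, n23, n24, n34⟩ := h.tr3_ne W hS T hΔ
  have v1 := T.v1 W hS
  exact
    { r1 := T.x1.1, r2 := T.x2.1, r3 := T.x3.1, r4 := T.r4
      rm := T.Pw.real _ (Or.inr (Or.inl rfl)), rn := T.rt
      rl := T.Py.real _ (Or.inr (Or.inl rfl)), rb := T.b1.1, rc := T.c1.1
      v2 := T.x2.v, v3 := (T.v3 W hS).trans v1.symm, v4 := v1.symm, vb := T.vb W hS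
      vc := T.vc W hS, f2 := T.f2 W hS, f1 := T.f3 W hS, f0 := T.f4 W hS, gg := T.x1.sc
      gm := T.b1.sc, gb := T.b2.sc, gn := T.c1.sc, gc := T.c2.sc
      hx := fun d h1 h2 => T.atx W hS h1 (h2.trans v1)
      hv := fun d h1 h2 => T.atv W hS h1 h2
      hz := fun d h1 h2 => T.atz W hS h1 h2
      sx := by rw [v1, sx], sw := T.s1.trans sx, sv := T.s2.trans sx, sz := T.s3.trans sx
      sy := T.s4.trans sx, sb := bne (by rw [← sx]; exact T.sb), sc := bne (by rw [← sx]; exact T.sc)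
      u0 := T.Py.u, n13 := fun h0 => n13 (by rw [h0]), n24 := fun h0 => n24 (by rw [h0])
      n14 := fun h0 => n14 (by rw [h0]) }

/-- the conditions depend on the alive vertices only -/
theorem Tr3.cg (W : Wf Δ S L w) {s s' : V → Bool} {a1 a2 a3 a4 b c : D}
    (T : Tr3 S L s a1 a2 a3 a4 b c) (e : ∀ x ∈ S.A, s' x = s x) : Tr3 S L s' a1 a2 a3 a4 b c := by
  have rα := W.real_α
  have rA := W.real_A
  have rA' : ∀ d, S.real d = true → S.M.v (S.M.α d) ∈ S.A := fun d hd =>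
    rA _ (by rw [rα]; exact hd)
  have pt : ∀ t, Pt S L s t → Pt S L s' t := fun t ht =>
    ⟨ht.real, ht.u, fun d hd h5 => ht.lab d hd (by
      have hr := ht.real d hd
      rw [← e _ (rA d hr), ← e _ (rA' d hr), h5])⟩
  have e4 := e _ (rA _ T.r4)
  exact
    { r4 := T.r4, g := T.g, x1 := T.x1, x2 := T.x2, x3 := T.x3, x4 := T.x4, Pw := pt _ T.Pw,
      Py := pt _ T.Py, rt := T.rt, b1 := T.b1, b2 := T.b2, c1 := T.c1, c2 := T.c2
      s1 := by rw [e4, e _ (rA' _ T.x1.1)]; exact T.s1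
      s2 := by rw [e4, e _ (rA' _ T.x2.1)]; exact T.s2
      s3 := by rw [e4, e _ (rA' _ T.x3.1)]; exact T.s3
      s4 := by rw [e4, e _ (rA' _ T.r4)]; exact T.s4
      sb := by rw [e4, e _ (rA' _ T.b1.1)]; exact T.sb
      sc := by rw [e4, e _ (rA' _ T.c1.1)]; exact T.sc }

/-- the side of the centre is `true` -/
theorem MC.r3w (hΔ : Δ ≤ 6) (h : MC Δ S L w) (hS : IsStar S) {s : V → Bool} {a1 a2 a3 a4 b c : D}
    (T : Tr3 S L s a1 a2 a3 a4 b c) (h2 : S.Two s false) (h4 : S.rc s = 4)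
    (sx : s (S.M.v a4) = true) : False := by
  classical
  have W := h.ok.toWf
  have rα := W.real_α
  have rA := W.real_A
  have rA' : ∀ d, S.real d = true → S.M.v (S.M.α d) ∈ S.A := fun d hd =>
    rA _ (by rw [rα]; exact hd)
  have Ax := rA _ T.r4
  have Ab := rA' _ T.b1.1
  obtain ⟨s1, a1', a2', hT, hF⟩ := h.ext hΔ (s := s) (by omega) ⟨_, Ax, sx⟩ ⟨_, Ab, by
    have := T.sb
    rw [sx] at this
    simpa using this⟩
  have T1 := T.cg W a1'
  have sx1 : s1 (S.M.v a4) = true := by rw [a1' _ Ax, sx]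
  rw [h4] at a2'
  obtain ⟨k3, k4, R⟩ := h.tr3_rk hΔ hS T1 a2' sx1
  have n2 : ∃ d, S.real d = true ∧ s1 (S.M.v d) = false ∧ s1 (S.M.v (S.M.α d)) = false := by
    obtain ⟨d, d1, d2, d3⟩ := h.inner hΔ (s := fun x => !s1 x) (by rw [rc_neg rα]; omega) (by
      obtain ⟨x, hx, y, hy, hxy, sx, sy⟩ := h2
      exact ⟨x, hx, y, hy, hxy, by simp [a1' x hx, sx], by simp [a1' y hy, sy]⟩)
    exact ⟨d, d1, by simpa using d2, by simpa using d3⟩
  exact h.r3c hΔ hS.ur hT hF a2' (T1.sw3 hΔ h hS sx1) R n2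

/-- a cut next to a vertex with four real edges and a gap has at least five real edges -/
theorem MC.r3 (hΔ : Δ ≤ 6) (h : MC Δ S L w) (hS : IsStar S) {s : V → Bool} {a1 a2 a3 a4 b c : D}
    (T : Tr3 S L s a1 a2 a3 a4 b c) (h1 : S.Two s true) (h2 : S.Two s false) : 5 ≤ S.rc s := by
  classical
  have W := h.ok.toWf
  have rα := W.real_α
  by_contra hlt
  have hA : ∀ {b}, S.Two s b → ∃ x ∈ S.A, s x = b := by
    rintro b ⟨x, hx, -, -, -, sx, -⟩
    exact ⟨x, hx, sx⟩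
  have h4 : S.rc s = 4 := by
    have := h.cut4 hΔ (hA h1) (hA h2)
    omega
  cases sx : s (S.M.v a4)
  · refine h.r3w hΔ hS T.neg ?_ (by rw [rc_neg rα]; exact h4) (by
      show (!s (S.M.v a4)) = true
      rw [sx]; rfl)
    obtain ⟨x, hx, y, hy, hxy, sx, sy⟩ := h1
    exact ⟨x, hx, y, hy, hxy, by simp [sx], by simp [sy]⟩
  · exact h.r3w hΔ hS T h2 h4 sx

end Pool.FC7
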