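import Pool.Agent.FC7.Q5N
import Pool.Agent.FC7.Q5O
import Pool.Agent.FC7.Q5P
import Pool.Agent.FC7.Q5W
import Pool.Agent.FC7.Q7E
import Pool.Agent.FC7.Q8Z
import Pool.Agent.FC7.C5

/-! # The bound 5 in a minimal counterexample -/

open Finset

namespace Pool.FC7

open Pool.FC6 Pool.FC6.St

variable {D V : Type} [Fintype D] [DecidableEq V] {S : St D V} {L : D → Bool} {w : D → ℕ} {Δ : ℕ}
  {U : V → Prop}

theorem Gc.co {t : D} (G : Gc S t) : Gco S t := ⟨G.r, G.h, G.r2, G.u, G.two⟩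

/-- the ends of a cut real dart are alive vertices of both sides -/
theorem MC.cutA (h : MC Δ S L w) {t : D} (rt : S.real t = true) {s : V → Bool}
    (c : s (S.M.v t) ≠ s (S.M.v (S.M.α t))) (b : Bool) : ∃ x ∈ S.A, s x = b := by
  have W := h.ok.toWf
  by_cases h0 : s (S.M.v t) = b
  · exact ⟨_, W.real_A _ rt, h0⟩
  · refine ⟨_, W.real_A (S.M.α t) (by rw [W.real_α]; exact rt), ?_⟩
    revert h0 c
    cases s (S.M.v t) <;> cases s (S.M.v (S.M.α t)) <;> cases b <;> decide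

theorem MC.h5 (hΔ : Δ ≤ 6) (h : MC Δ S L w) (hS : IsStar S) (hR : Reg S U) : H5 S L U := by
  intro s
  refine ⟨?_, ?_⟩
  · rintro (⟨t, t', rt, N, c1, c2, F⟩ | ⟨t, hL, c1⟩ | ⟨t0, t1, t2, t3, t4, t5, G⟩)
    · exact h.oppx hΔ rt N.1 N.2 (h.cutA rt c1 true) (h.cutA rt c1 false) c1 c2 F
    · exact h.lab5 hΔ hL c1
    · exact h.r1 hΔ hS G
  rintro h1 h2 (⟨p, hp, P1, P2⟩ | ⟨t, hU, G, c1, c2, P⟩ |
    ⟨t, -, rt, rs, rp, u1, u2, u3, hL, hd, c1, c2⟩ | ⟨t, hU, G, ⟨hd, c1, c2⟩, F⟩ |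
    ⟨t, hU, G, c1, c2, hc⟩ | ⟨t, t', rt, N, c1, c2, F⟩ | ⟨t, hL, c1⟩ |
    ⟨t, r, m, hU, rt, N1, N2, c1, c2, c3, F⟩ | ⟨k1, k2, k3, T⟩ | ⟨t0, t1, t2, t3, t4, t5, G⟩ |
    ⟨a1, a2, a3, a4, b, c, T⟩)
  · exact h.cut5p hΔ h1 h2 hp P1 P2
  · exact h.s1 hΔ hS (hR.fc t G.r hU) G.co (h.gx hΔ hS hR hU G.co) h1 h2 c1 c2 P
  · exact h.r5a hΔ h1 h2 hd rt rs rp u1 u2 u3 hL c1 fun e e1 e2 => c2 e e2 e1
  · exact h.r5b hΔ hS (hR.fc t G.r hU) G.co (h.gx hΔ hS hR hU G.co) h1 h2 hd c1 c2 F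
  · exact h.rN5 hΔ hS hR hU G.r G.h G.r2 G.f2 G.f4 h1 h2 c1 c2 hc
  · obtain ⟨x, hx, -, -, -, sx, -⟩ := h1
    obtain ⟨y, hy, -, -, -, sy, -⟩ := h2
    exact h.oppx hΔ rt N.1 N.2 ⟨x, hx, sx⟩ ⟨y, hy, sy⟩ c1 c2 F
  · exact h.lab5 hΔ hL c1
  · exact h.c3 hΔ hS hR hU rt N1.1 N2.1 (N1.2.imp_right And.symm) (N2.2.imp_right And.symm) h1 h2
      c1 c2 c3 F
  · exact h.ty5 hΔ hS h1 h2 T
  · exact h.r1 hΔ hS G
  · exact h.r3 hΔ hS T h1 h2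

end Pool.FC7
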