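import Pool.Agent.FC7.CfH
import Pool.Agent.FC7.WfF
import Pool.Agent.FC7.ClA
import Pool.Agent.FC7.CuA
import Pool.Agent.FC7.CfX

/-! # Facts given by words: minimal counterexamples

A record `WG` has all tables of a fact.  `WG.chkG`: the static check; `W.F.One`: the check of the
colourings.  `WG.no`: the words of the record do not occur in a minimal counterexample at centres with
the rules `FcR`, `FcH`, `N2`. -/

open Finset

set_option linter.unusedSectionVars false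

namespace Pool.FC7

open Pool.FC6 Pool.FC6.St

/-- a fact with the words of its centres; `bw i`: the word at the other end of the spoke `i` (or
empty); `pl`: spokes whose heads have not exactly four darts -/
structure WG extends WF where
  wd : ℕ → List ℕ
  ra : ℕ → ℕ
  ad : ℕ → ℕ → ℕ
  al : ℕ → ℕ
  cs : ℕ → ℕ
  SD : ℕ → ℕ → Bool
  bw : ℕ → List ℕ := fun _ => []
  pl : List ℕ := []

namespace WG

variable (W : WG)

/-- the configuration -/
def cf : Cf := ⟨W.Z, W.PT, W.ac, W.wd, W.ra, W.ad, W.al, W.cs, W.SD⟩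

/-- the head of the spoke `i` surely has not exactly four darts, by the tables of this spoke -/
def bg0 (i : ℕ) : Bool :=
  W.cf.big i || (!(W.bw i).isEmpty && decide ((fl (W.bw i)).length ≠ 4)) || W.pl.contains i

/-- the head of the spoke `i` surely has not exactly four darts -/
def bg (i : ℕ) : Bool := W.cf.bgx W.bg0 i

/-- two real spokes at one centre, not at a solid triangle, or at adjacent centres by `nadj` -/
def nqc (q : ℕ × ℕ) : Bool :=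
  W.Z.Q.rl q.1 && W.Z.Q.rl q.2 && ((decide (W.Z.ca q.1 = W.Z.ca q.2) &&
    decide (W.Z.Q.ρ q.1 ≠ q.2) && decide (W.Z.Q.ρ q.2 ≠ q.1)) || W.cf.nadj W.bg q.1 q.2)

/-- a real and a virtual spoke at one centre, not one after the other, or at adjacent centres -/
def oqc (q : ℕ × ℕ) : Bool :=
  W.Z.Q.rl q.1 && !W.Z.Q.rl q.2 && ((decide (W.Z.ca q.1 = W.Z.ca q.2) &&
    decide (W.Z.Q.ρ q.1 ≠ q.2) && decide (W.Z.Q.ρ q.2 ≠ q.1)) || W.cf.nadj W.bg q.1 q.2)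

/-- the check without the potential -/
noncomputable def chkH (Δ : ℕ) : Bool :=
  W.chk Δ && W.cf.chk && W.cf.chkL W.lt && W.cf.chk4 W.bg &&
    W.dq.all (fun q => W.cf.sd q.1 q.2) && W.nq.all W.nqc && W.oq.all W.oqc &&
    decide (W.F.sm = 0) && W.chkB && W.F.chk Δ

/-- no letters with `k = 2` or with unknown units at both heads -/
def noo : Bool := allN W.Z.Q.ns fun j => decide (wk (W.lt j) ≠ 2) && !uo (W.lt j)

/-- the check -/
noncomputable def chkG (Δ : ℕ) : Bool := W.chkH Δ && (W.F.chkM 0 || W.F.chkN) && W.noo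

/-- the check with letters `k = 2` -/
noncomputable def chkO' (Δ : ℕ) : Bool := W.chkH Δ && (W.F.chkM 0 || W.F.chkN)

end WG

variable {D V : Type} [Fintype D] [DecidableEq V] {Δ : ℕ} {S : St D V} {L : D → Bool}
  {w : D → ℕ} {W : WG} {d : ℕ → D}

/-- no real edge between the heads -/
theorem nq_of (H : W.cf.Hy S d) {q : ℕ × ℕ} (h1 : q.1 < W.Z.Q.ns)
    (h2 : q.2 < W.Z.Q.ns) (hq : W.nqc q = true)
    (fr : ∀ k, S.real k = true → S.M.v k = S.M.v (d (W.Z.ca q.1)) → FcR S k)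
    (nad : W.cf.nadj W.bg q.1 q.2 = true → ∀ r, ¬ (S.M.v r = S.M.v (S.M.α (W.Z.io S d q.1)) ∧
      S.M.v (S.M.α r) = S.M.v (S.M.α (W.Z.io S d q.2)))) :
    ∀ r, S.real r = true → ¬ (S.M.v r = S.M.v (S.M.α (W.Z.io S d q.1)) ∧
      S.M.v (S.M.α r) = S.M.v (S.M.α (W.Z.io S d q.2))) := by
  intro r hr he
  unfold WG.nqc at hq
  simp only [Bool.and_eq_true, Bool.or_eq_true, decide_eq_true_eq] at hq
  obtain ⟨⟨c2, c3⟩, ⟨⟨c1, c4⟩, c5⟩ | c1⟩ := hq
  · obtain ⟨e1, e2⟩ := he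
    have v1 : S.M.v (W.Z.io S d q.1) = S.M.v (d (W.Z.ca q.1)) := W.Z.v_io S d q.1
    have v2 : S.M.v (W.Z.io S d q.2) = S.M.v (d (W.Z.ca q.2)) := W.Z.v_io S d q.2
    have r1 : S.real (W.Z.io S d q.1) = true := (H.rlj h1).trans c2
    have r2 : S.real (W.Z.io S d q.2) = true := (H.rlj h2).trans c3
    rcases fr _ r1 v1 (W.Z.io S d q.2) r r2 hr (by rw [v1, v2, c1]) e1 e2.symm with
      ⟨h3, -⟩ | ⟨h3, -⟩
    · have h4 : S.M.σ (W.Z.io S d q.1) = W.Z.io S d (W.Z.Q.ρ q.1) := H.ioρ h1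
      rw [h4] at h3
      exact c4 (H.inj1 h2 (H.hC.Q.ρlt _ h1) (c1.symm.trans (H.caρ h1).symm) h3).symm
    · have h4 : S.M.σ (W.Z.io S d q.2) = W.Z.io S d (W.Z.Q.ρ q.2) := H.ioρ h2
      rw [h4] at h3
      exact c5 (H.inj1 (H.hC.Q.ρlt _ h2) h1 ((H.caρ h2).trans c1.symm) h3)
  · exact nad c1 r he

/-- the head of the first spoke is not a corner of the face of the second spoke -/
theorem oq_of (H : W.cf.Hy S d) {q : ℕ × ℕ} (h1 : q.1 < W.Z.Q.ns)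
    (h2 : q.2 < W.Z.Q.ns) (hq : W.oqc q = true)
    (fh : ∀ k, S.real k = true → S.M.v k = S.M.v (d (W.Z.ca q.1)) → FcH S k)
    (nad : W.cf.nadj W.bg q.1 q.2 = true → ∀ r, ¬ (S.M.v r = S.M.v (S.M.α (W.Z.io S d q.1)) ∧
      S.M.v (S.M.α r) = S.M.v (S.M.α (W.Z.io S d q.2)))) :
    Off S (S.M.v (S.M.α (W.Z.io S d q.1))) (S.M.v (S.M.α (W.Z.io S d q.2))) := by
  intro r hr he
  unfold WG.oqc at hq
  simp only [Bool.and_eq_true, Bool.or_eq_true, decide_eq_true_eq, Bool.not_eq_true'] at hq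
  obtain ⟨⟨c2, c3⟩, ⟨⟨c1, c4⟩, c5⟩ | c1⟩ := hq
  · obtain ⟨e1, e2⟩ := he
    have v1 : S.M.v (W.Z.io S d q.1) = S.M.v (d (W.Z.ca q.1)) := W.Z.v_io S d q.1
    have v2 : S.M.v (W.Z.io S d q.2) = S.M.v (d (W.Z.ca q.2)) := W.Z.v_io S d q.2
    have r1 : S.real (W.Z.io S d q.1) = true := (H.rlj h1).trans c2
    have r2 : S.real (W.Z.io S d q.2) = false := (H.rlj h2).trans c3
    rcases fh _ r1 v1 (W.Z.io S d q.2) r r2 hr (by rw [v1, v2, c1]) e1 e2.symm with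
      ⟨h3, -⟩ | ⟨h3, -⟩
    · have h4 : S.M.σ (W.Z.io S d q.1) = W.Z.io S d (W.Z.Q.ρ q.1) := H.ioρ h1
      rw [h4] at h3
      exact c4 (H.inj1 h2 (H.hC.Q.ρlt _ h1) (c1.symm.trans (H.caρ h1).symm) h3).symm
    · have h4 : S.M.σ (W.Z.io S d q.2) = W.Z.io S d (W.Z.Q.ρ q.2) := H.ioρ h2
      rw [h4] at h3
      exact c5 (H.inj1 (H.hC.Q.ρlt _ h2) h1 ((H.caρ h2).trans c1.symm) h3)
  · exact nad c1 r he

theorem WG.cfc (hG : W.chkH Δ = true) : W.cf.chk = true := by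
  unfold WG.chkH at hG
  simp only [Bool.and_eq_true] at hG
  exact hG.1.1.1.1.1.1.1.1.2

theorem WG.chkGH (hG : W.chkG Δ = true) : W.chkH Δ = true := by
  unfold WG.chkG at hG
  rw [Bool.and_eq_true, Bool.and_eq_true] at hG
  exact hG.1.1

/-- the bound for the cuts with labels on both sides -/
theorem bf_le {F : Fc} (h : F.sm = 0) (c : ℕ) : F.bf4 c ≤ 4 := by
  unfold Fc.bf4 bf3 bfq
  rw [h]
  split_ifs with h1 h2
  · omega
  · simp at h2
  · simp at h2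
  · exact le_refl _

theorem bf_le3 {F : Fc} {c : ℕ} {b : Bool} (h : ∀ a < F.O.m, c.testBit a = b) : F.bf4 c ≤ 3 := by
  have h1 : c &&& (2 ^ F.O.m - 1) = 0 ∨ c &&& (2 ^ F.O.m - 1) = 2 ^ F.O.m - 1 := by
    cases b
    · left
      apply Nat.eq_of_testBit_eq
      intro a
      rw [Nat.testBit_and, Nat.testBit_two_pow_sub_one, Nat.zero_testBit]
      by_cases h2 : a < F.O.m
      · rw [h a h2]; rfl
      · simp [h2]
    · right
      apply Nat.eq_of_testBit_eq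
      intro a
      rw [Nat.testBit_and, Nat.testBit_two_pow_sub_one]
      by_cases h2 : a < F.O.m
      · rw [h a h2]; simp
      · simp [h2]
  unfold Fc.bf4 bf3
  rw [if_pos h1]

/-- what a fact needs -/
structure WG.Ctx (W : WG) (S : St D V) (L : D → Bool) (d : ℕ → D) (Old : V → Prop) : Prop where
  f3 : ∀ e, fu S e = 0 ∨ fu S e = 2 ∨ fu S e = 3
  n2 : ∀ a < W.Z.nc, W.ac a = true → S.N2 (S.M.v (d a))
  fr : ∀ a < W.Z.nc, W.ac a = true → ∀ k, S.real k = true → S.M.v k = S.M.v (d a) → FcR S k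
  fh : ∀ a < W.Z.nc, W.ac a = true → ∀ k, S.real k = true → S.M.v k = S.M.v (d a) → FcH S k
  f4 : F4 S fun x => ∃ a < W.Z.nc, W.ac a = true ∧ x = S.M.v (d a)
  pl : ∀ i < W.Z.Q.ns, i ∈ W.pl → S.nd (S.M.α (W.Z.io S d i)) ≠ 4
  bw : ∀ i < W.Z.Q.ns, W.bw i ≠ [] → IsW S L (S.M.α (W.Z.io S d i)) (W.bw i)
  sw : ∀ a < W.F.O.m, W.F.O.sl a ≠ 0 → IsW S L (S.M.α (W.Z.io S d (W.sc a))) (W.sw a)
  oo : ∀ j < W.Z.Q.ns, W.Z.Q.rl j = true →
    Oo (fu S (W.Z.io S d (W.Z.Q.ρ j))) (W.Z.Q.rl (W.Z.Q.ρ j)) (W.lt j)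
  od : ∀ a < W.Z.nc, ∀ k, S.real k = true → S.M.v k = S.M.v (d a) →
    Old (S.M.v k) ∧ Old (S.M.v (S.M.α k))
  r4 : ∀ x, Old x → 4 ≤ S.rdeg x
  c3 : ∀ s : V → Bool, (∃ x ∈ S.A, s x = true) → (∃ x ∈ S.A, s x = false) → 3 ≤ S.rc s
  c4 : ∀ s : V → Bool, (∃ x, Old x ∧ s x = true) → (∃ x, Old x ∧ s x = false) → 4 ≤ S.rc s
  h5 : H5 S L fun x => ∃ a < W.Z.nc, W.ac a = true ∧ x = S.M.v (d a)

/-- the heads with more than four darts -/
theorem WG.bg_ne (hF : W.cf.chk = true) (hS : IsStar S) (W0 : Wf Δ S L w) (B : W.cf.Base0 S L d)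
    (hb : ∀ i < W.Z.Q.ns, W.bw i ≠ [] → IsW S L (S.M.α (W.Z.io S d i)) (W.bw i))
    (hp : ∀ i < W.Z.Q.ns, i ∈ W.pl → S.nd (S.M.α (W.Z.io S d i)) ≠ 4) :
    ∀ i < W.cf.Z.Q.ns, W.bg i = true → S.nd (S.M.α (W.cf.Z.io S d i)) ≠ 4 := by
  refine (B.hy hF hS W0).bgx fun i hi h => ?_
  unfold WG.bg0 at h
  rw [Bool.or_eq_true, Bool.or_eq_true, Bool.and_eq_true, Bool.not_eq_true',
    List.isEmpty_eq_false_iff, decide_eq_true_eq, List.contains_iff_mem] at h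
  rcases h with (h | ⟨h1, h2⟩) | h
  · exact Cf.big_ne hF hS W0 B hi h
  · exact fun h4 => h2 (((hb i hi h1).nd hS W0).trans h4)
  · exact hp i hi h

/-- the words give the input of the fact -/
theorem WG.hy (hG : W.chkH Δ = true) (W0 : Wf Δ S L w) (hS : IsStar S)
    (B : W.cf.Base0 S L d) {Old : V → Prop} (X : W.Ctx S L d Old) :
    ∃ f g, W.toWF.Hy S L d f g := by
  unfold WG.chkH at hG
  simp only [Bool.and_eq_true, decide_eq_true_eq, List.all_eq_true] at hG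
  obtain ⟨⟨⟨⟨⟨⟨⟨⟨⟨c1, c2⟩, c3⟩, c4⟩, c5⟩, c6⟩, c6o⟩, c7⟩, c8b⟩, c8⟩ := hG
  have H := B.hy c2 hS W0
  have hbg := WG.bg_ne c2 hS W0 B X.bw X.pl
  have r4 : ∀ a < W.cf.Z.nc, W.cf.ac a = true → ∀ k, S.real k = true → S.M.v k = S.M.v (d a) →
      4 ≤ S.rdeg (S.M.v (S.M.α k)) := fun a ha _ k hk hv => X.r4 _ (X.od a ha k hk hv).2
  have hac : ∀ a < W.Z.nc, ∀ k, S.real k = true → S.M.v k = S.M.v (d a) → W.ac a = true :=
    fun a ha k hk hv => (H.hac a ha).1 (hv ▸ W0.real_A _ hk)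
  have B1 : W.cf.Base S L d := B.base4 c2 hS W0 hbg X.n2 X.f4 r4 X.fr X.fh c4
  have nad : ∀ j < W.Z.Q.ns, ∀ j' < W.Z.Q.ns, W.cf.nadj W.bg j j' = true → ∀ r,
      ¬ (S.M.v r = S.M.v (S.M.α (W.Z.io S d j)) ∧ S.M.v (S.M.α r) =
        S.M.v (S.M.α (W.Z.io S d j'))) := fun j hj j' hj' h r =>
    Cf.nadj_no c2 hS W0 B hbg X.n2 X.f4 r4 hj hj' h r
  obtain ⟨f, g, e1, e2, e3, e4, -, -⟩ := B1.emb c2 hS W0
  have C := WF.ck c1
  have eP := Em.restrict e1 C.rs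
  have inf : Info W.Z W.ac S L d W.lt := B1.info c2 hS W0 c3
  have hρ : ∀ j < W.Z.Q.ns, S.M.σ (W.Z.io S d j) = W.Z.io S d (W.Z.Q.ρ j) :=
    fun j hj => H.ioρ hj
  have cu := Wt.cu_of hS W0 C.Z C.ok hρ inf (fun j hj hp => H.ioπ hj hp)
    (fun j hj => by rw [W.Z.v_io]; exact H.hac _ (C.Z.calt j hj))
    (fun j hj h => by rw [nd_v (W.Z.v_io S d j)]; exact (H.nd _ (C.Z.calt j hj)).trans h) X.f3
  -- the vertices of real darts of the patch
  have old : ∀ i < W.F.P.n, W.F.P.real i = true → Old (S.M.v (f i)) := by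
    intro i hi hr
    have hn : W.F.P.n ≤ W.PT.n := by
      have := C.rs
      simp only [rstr, Bool.and_eq_true, decide_eq_true_eq] at this
      exact this.1
    have h1 := C.Z.Q.k3 i (by omega)
    have h2 := C.Z.Q.rjlt i (by omega)
    have h3 : f i = nmS S (W.Z.io S d) (W.Z.Q.rk i) (W.Z.Q.rj i) := by
      have h4 : f (W.Z.Q.nf (W.Z.Q.rk i) (W.Z.Q.rj i)) =
          nmS S (W.Z.io S d) (W.Z.Q.rk i) (W.Z.Q.rj i) := e2 _ h2 _ h1
      rwa [C.Z.Q.nfr i (by omega)] at h4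
    have hre : S.real (f i) = true := by rw [eP.hr i hi]; exact hr
    have hvi : S.M.v (W.Z.io S d (W.Z.Q.rj i)) = S.M.v (d (W.Z.ca (W.Z.Q.rj i))) := W.Z.v_io S d _
    have hca := C.Z.calt _ h2
    have k3 : W.Z.Q.rk i = 0 ∨ W.Z.Q.rk i = 1 ∨ W.Z.Q.rk i = 2 := by omega
    -- the centre is alive
    have hacj : W.ac (W.Z.ca (W.Z.Q.rj i)) = true := by
      rcases k3 with k | k | k
      · rw [k] at h3
        have h3 : f i = W.Z.io S d (W.Z.Q.rj i) := h3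
        rw [h3] at hre
        exact hac _ hca _ hre hvi
      · rw [k] at h3
        have h3 : f i = S.M.α (W.Z.io S d (W.Z.Q.rj i)) := h3
        rw [h3, W0.real_α] at hre
        exact hac _ hca _ hre hvi
      · exact Wt.nm2 hS W0 C.Z C.ok hρ inf (show i < W.PT.n by omega) k
    have hal := inf.al _ h2 hacj
    -- the spoke is real if its head is alive
    have hs : S.M.v (S.M.α (W.Z.io S d (W.Z.Q.rj i))) ∈ S.A →
        Old (S.M.v (S.M.α (W.Z.io S d (W.Z.Q.rj i)))) := by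
      intro hA
      have hr2 : S.real (W.Z.io S d (W.Z.Q.rj i)) = true := hS.real_of W0 hal hA
      exact (X.od _ hca _ hr2 hvi).2
    rcases k3 with k | k | k
    · rw [k] at h3
      have h3 : f i = W.Z.io S d (W.Z.Q.rj i) := h3
      rw [h3] at hre ⊢
      exact (X.od _ hca _ hre hvi).1
    · rw [k] at h3
      have h3 : f i = S.M.α (W.Z.io S d (W.Z.Q.rj i)) := h3
      rw [h3] at hre ⊢
      exact hs (W0.real_A _ hre)
    · rw [k] at h3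
      have h3 : f i = S.M.φ (W.Z.io S d (W.Z.Q.rj i)) := h3
      rw [h3] at hre ⊢
      have h4 := W0.real_A _ hre
      rw [S.M.vφ] at h4 ⊢
      exact hs h4
  refine ⟨f, g, H.hm, inf, cu, X.oo, e1, e2, e3, e4, fun q hq => B1.sd_ne c2 hS W0 (c5 q hq),
    fun q hq => ?_, fun q hq => ?_, X.sw, fun i hi hr => X.r4 _ (old i hi hr),
    fun s c hc h1 h2 => ?_, X.h5⟩
  · obtain ⟨l1, l2⟩ := C.nl q hq
    exact nq_of H l1 l2 (c6 q hq) (fun k hk hv => X.fr _ (C.Z.calt _ l1)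
      (hac _ (C.Z.calt _ l1) k hk hv) k hk hv) (nad _ l1 _ l2)
  · obtain ⟨l1, l2⟩ := C.ol q hq
    exact oq_of H l1 l2 (c6o q hq) (fun k hk hv => X.fh _ (C.Z.calt _ l1)
      (hac _ (C.Z.calt _ l1) k hk hv) k hk hv) (nad _ l1 _ l2)
  · have lab : ∀ a < W.F.O.m, Old (g a) := by
      intro a ha
      obtain ⟨r1, r2, r3⟩ := C.r1 a ha
      have := old _ r1 r3
      rwa [eP.hl _ r1, r2] at this
    by_cases ht : ∃ a < W.F.O.m, s (g a) = true
    · by_cases hf : ∃ a < W.F.O.m, s (g a) = false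
      · obtain ⟨a, ha, ha'⟩ := ht
        obtain ⟨b, hb, hb'⟩ := hf
        exact (bf_le c7 c).trans (X.c4 s ⟨_, lab a ha, ha'⟩ ⟨_, lab b hb, hb'⟩)
      · push Not at hf
        refine le_trans (bf_le3 (b := true) fun a ha => ?_) (X.c3 s h1 h2)
        rw [hc a ha]
        simpa using hf a ha
    · push Not at ht
      refine le_trans (bf_le3 (b := false) fun a ha => ?_) (X.c3 s h1 h2)
      rw [hc a ha]
      simpa using ht a ha

/-- THE FACT for states next to a minimal counterexample -/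
theorem WG.noM {N R e : ℕ} (hG : W.chkH Δ = true) (hE : W.F.One) (hM : W.F.chkM e = true)
    (h : MM Δ N R e S L w) (hS : IsStar S) (B : W.cf.Base0 S L d) {Old : V → Prop}
    (X : W.Ctx S L d Old) : False := by
  obtain ⟨f, g, Hy⟩ := WG.hy hG h.ok.toWf hS B X
  unfold WG.chkH at hG
  simp only [Bool.and_eq_true] at hG
  exact WF.no hG.1.1.1.1.1.1.1.1.1 hG.1.2 hG.2 hE hM h hS Hy

/-- THE FACT, with letters `k = 2` -/
theorem WG.noO (hΔ : Δ ≤ 6) (hG : W.chkO' Δ = true) (hE : W.F.One) (h : MC Δ S L w)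
    (hS : IsStar S) (B : W.cf.Base0 S L d)
    (n2 : ∀ a < W.Z.nc, W.ac a = true → S.N2 (S.M.v (d a)))
    (fr : ∀ a < W.Z.nc, W.ac a = true → ∀ k, S.real k = true → S.M.v k = S.M.v (d a) → FcR S k)
    (fh : ∀ a < W.Z.nc, W.ac a = true → ∀ k, S.real k = true → S.M.v k = S.M.v (d a) → FcH S k)
    (f4 : F4 S fun x => ∃ a < W.Z.nc, W.ac a = true ∧ x = S.M.v (d a))
    (h5 : H5 S L fun x => ∃ a < W.Z.nc, W.ac a = true ∧ x = S.M.v (d a))
    (hpl : ∀ i < W.Z.Q.ns, i ∈ W.pl → S.nd (S.M.α (W.Z.io S d i)) ≠ 4)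
    (hbw : ∀ i < W.Z.Q.ns, W.bw i ≠ [] → IsW S L (S.M.α (W.Z.io S d i)) (W.bw i))
    (hsw : ∀ a < W.F.O.m, W.F.O.sl a ≠ 0 → IsW S L (S.M.α (W.Z.io S d (W.sc a))) (W.sw a))
    (hoo : ∀ j < W.Z.Q.ns, W.Z.Q.rl j = true →
      Oo (fu S (W.Z.io S d (W.Z.Q.ρ j))) (W.Z.Q.rl (W.Z.Q.ρ j)) (W.lt j)) : False := by
  unfold WG.chkO' at hG
  rw [Bool.and_eq_true, Bool.or_eq_true] at hG
  obtain ⟨hG, hM⟩ := hG
  have W0 := h.ok.toWf
  have X : W.Ctx S L d (fun x => x ∈ S.A) := by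
    refine ⟨h.fu023 hΔ, n2, fr, fh, f4, hpl, hbw, hsw, hoo, fun a _ k hk _ => ⟨W0.real_A k hk, W0.real_A _ ?_⟩,
      fun x hx => h.rdeg4 hΔ hx, fun s h1 h2 => ?_, fun s h1 h2 => h.cut4 hΔ h1 h2, h5⟩
    · rw [W0.real_α]; exact hk
    · have := h.cut4 hΔ h1 h2
      omega
  rcases hM with hM | hM
  · exact WG.noM hG hE hM (h.mm hΔ) hS B X
  · obtain ⟨f, g, Hy⟩ := WG.hy hG W0 hS B X
    unfold WG.chkH at hG
    simp only [Bool.and_eq_true] at hG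
    exact WF.noN hΔ hG.1.1.1.1.1.1.1.1.1 hG.1.2 hG.2 hE hM h hS Hy

/-- THE FACT -/
theorem WG.no (hΔ : Δ ≤ 6) (hG : W.chkG Δ = true) (hE : W.F.One) (h : MC Δ S L w)
    (hS : IsStar S) (B : W.cf.Base0 S L d)
    (n2 : ∀ a < W.Z.nc, W.ac a = true → S.N2 (S.M.v (d a)))
    (fr : ∀ a < W.Z.nc, W.ac a = true → ∀ k, S.real k = true → S.M.v k = S.M.v (d a) → FcR S k)
    (fh : ∀ a < W.Z.nc, W.ac a = true → ∀ k, S.real k = true → S.M.v k = S.M.v (d a) → FcH S k)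
    (f4 : F4 S fun x => ∃ a < W.Z.nc, W.ac a = true ∧ x = S.M.v (d a))
    (h5 : H5 S L fun x => ∃ a < W.Z.nc, W.ac a = true ∧ x = S.M.v (d a))
    (hpl : ∀ i < W.Z.Q.ns, i ∈ W.pl → S.nd (S.M.α (W.Z.io S d i)) ≠ 4)
    (hbw : ∀ i < W.Z.Q.ns, W.bw i ≠ [] → IsW S L (S.M.α (W.Z.io S d i)) (W.bw i))
    (hsw : ∀ a < W.F.O.m, W.F.O.sl a ≠ 0 → IsW S L (S.M.α (W.Z.io S d (W.sc a))) (W.sw a)) :
    False := by
  unfold WG.chkG at hG
  rw [Bool.and_eq_true] at hG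
  refine WG.noO hΔ hG.1 hE h hS B n2 fr fh f4 h5 hpl hbw hsw fun j hj _ => ?_
  have h1 := hG.2
  unfold WG.noo at h1
  rw [allN_iff] at h1
  have := h1 j hj
  rw [Bool.and_eq_true, decide_eq_true_eq, Bool.not_eq_true'] at this
  exact ⟨fun _ hk => absurd hk this.1, fun _ hu => by rw [this.2] at hu; exact absurd hu (by simp)⟩

end Pool.FC7
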