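import Pool.Agent.FC7.FtA
import Pool.Agent.FC7.WfG
import Pool.Agent.FC7.Q4D

/-! # Facts for patterns -/

open Finset

set_option linter.unusedSectionVars false

namespace Pool.FC7

open Pool.FC6 Pool.FC6.St

/-- the pair is in the list -/
def hasp (nb : List (ℕ × List ℕ)) (i : ℕ) (wd : List ℕ) : Bool :=
  nb.any fun p => decide (p.1 = i) && decide (p.2 = wd)

theorem hasp_iff {nb : List (ℕ × List ℕ)} {i : ℕ} {wd : List ℕ} (h : hasp nb i wd = true) :
    (i, wd) ∈ nb := by
  unfold hasp at h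
  simp only [List.any_eq_true, Bool.and_eq_true, decide_eq_true_eq] at h
  obtain ⟨p, h1, h2, h3⟩ := h
  have h4 : p = (i, wd) := Prod.ext h2 h3
  rwa [h4] at h1

/-- the centres of the fact are the centre and neighbours of the pattern; the kept vertices with
slack are neighbours of the pattern; no dead centres -/
def WG.chkU (W : WG) (w0 : List ℕ) (nb : List (ℕ × List ℕ)) : Bool :=
  decide (0 < W.Z.nc) && decide (W.wd 0 = w0) &&
  allN W.Z.nc (fun a => W.ac a && (decide (a = 0) || (decide (W.Z.pa a = 0) &&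
    hasp nb (W.ra a) (W.wd a)))) && W.pl.isEmpty &&
  allN W.F.O.m (fun a => decide (W.F.O.sl a = 0) || (List.range w0.length).any fun r =>
    decide (W.sc a = W.Z.off 0 + pos w0 r) && hasp nb r (W.sw a)) &&
  allN W.Z.Q.ns (fun i => (W.bw i).isEmpty || (List.range w0.length).any fun r =>
    decide (i = W.Z.off 0 + pos w0 r) && hasp nb r (W.bw i))

variable {D V : Type} [Fintype D] [DecidableEq V] {S : St D V} {L : D → Bool} {w : D → ℕ}

/-- the base darts of a star with the base dart `x` at the centre -/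
def bd (S : St D V) (ac : ℕ → Bool) (ra : ℕ → ℕ) (x : D) (a : ℕ) : D :=
  if a = 0 then x else S.M.α (if ac a = true then S.nxr^[ra a] x else S.M.σ (S.nxr^[ra a] x))

/-- A FACT FOR A PATTERN -/
theorem WG.noP {W : WG} {Δ : ℕ} (hΔ : Δ ≤ 6) (hG : W.chkG Δ = true) (hE : W.F.One)
    {w0 : List ℕ} {nb : List (ℕ × List ℕ)} (hU : W.chkU w0 nb = true) : NoP Δ w0 nb := by
  intro D V _ _ S L w U hM hS hR x hP
  unfold WG.chkU at hU
  simp only [Bool.and_eq_true, Bool.or_eq_true, decide_eq_true_eq, allN_iff, List.any_eq_true,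
    List.mem_range] at hU
  obtain ⟨⟨⟨⟨⟨u1, u2⟩, u3⟩, up⟩, u4⟩, u5⟩ := hU
  have hcf : W.cf.chk = true := WG.cfc (WG.chkGH hG)
  have W0 := hM.ok.toWf
  have hw : ∀ a < W.Z.nc, IsW S L (bd S W.ac W.ra x a) (W.wd a) ∧ U (S.M.v (bd S W.ac W.ra x a)) := by
    intro a ha
    unfold bd
    rcases (u3 a ha).2 with h1 | ⟨h1, h2⟩
    · rw [if_pos h1, h1, u2]
      exact ⟨hP.w, hP.cU⟩
    · by_cases h0 : a = 0
      · rw [if_pos h0, h0, u2]
        exact ⟨hP.w, hP.cU⟩
      · rw [if_neg h0, if_pos (u3 a ha).1]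
        exact ⟨hP.nw _ (hasp_iff h2), hP.nU _ (hasp_iff h2)⟩
  have B : W.cf.Base0 S L (bd S W.ac W.ra x) := by
    refine ⟨fun a ha h0 => ?_, fun a ha _ => (hw a ha).1⟩
    have ha : a < W.Z.nc := ha
    have h1 := ((u3 a ha).2.resolve_left (by omega)).1
    have h2 : W.cf.Z.pa a = 0 := h1
    have h3 : W.cf.ac a = true := (u3 a ha).1
    have h4 : W.ac a = true := h3
    rw [if_pos h3, h2]
    unfold bd
    rw [if_neg (by omega), if_pos h4, if_pos rfl]
    rfl
  have H := B.hy hcf hS W0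
  have hv : ∀ a < W.Z.nc, ∀ k, S.real k = true → S.M.v k = S.M.v (bd S W.ac W.ra x a) →
      Fc3 S k := by
    intro a ha k hk hv
    exact hR.fc k hk (by rw [hv]; exact (hw a ha).2)
  -- the spokes of the centre
  have spk : ∀ r < w0.length, W.Z.io S (bd S W.ac W.ra x) (W.Z.off 0 + pos w0 r) = S.nxr^[r] x := by
    intro r h1
    have h4 : pos w0 r < W.Z.m 0 := by
      have h5 := (Cf.chk_iff hcf).2.2.1
      unfold Cf.chkW at h5
      rw [allN_iff] at h5
      have h6 := h5 0 u1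
      have h7 : W.cf.ac 0 = true := (u3 0 u1).1
      rw [if_pos h7, Bool.and_eq_true, decide_eq_true_eq] at h6
      have h8 : W.Z.m 0 = (fl w0).length := by rw [← u2]; exact h6.1
      rw [h8, ← pos_length]
      exact pos_lt h1 (le_refl _)
    rw [nxr_pos hP.w h1.le]
    exact Stars.io_off H.hC S (bd S W.ac W.ra x) u1 h4
  refine WG.no hΔ hG hE hM hS B (fun a ha _ => ?_) (fun a ha _ k hk hv' e e' r r' => ?_)
    (fun a ha _ k hk hv' e e' r r' => ?_) (hR.f4.mono fun y hy => ?_)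
    ((hM.h5 hΔ hS hR).mono fun y hy => ?_) (fun i hi hp => ?_) (fun i hi hb => ?_) fun a ha hsl => ?_
  · exact (hM.rg hΔ).n2 hS W0 (by omega) _ (hR.A _ (hw a ha).2)
  · exact hv a ha k hk hv' e e'
  · exact hv a ha k hk hv' e e'
  · obtain ⟨a, ha, -, rfl⟩ := hy
    exact (hw a ha).2
  · obtain ⟨a, ha, -, rfl⟩ := hy
    exact (hw a ha).2
  · rw [List.isEmpty_iff] at up
    rw [up] at hp
    exact absurd hp (by simp)
  · obtain ⟨r, h1, h2, h3⟩ := (u5 i hi).resolve_left (by simpa using hb)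
    have h4 : W.Z.io S (bd S W.ac W.ra x) i = S.nxr^[r] x := by rw [h2]; exact spk r h1
    rw [h4]
    exact hP.nw _ (hasp_iff h3)
  · obtain ⟨r, h1, h2, h3⟩ := (u4 a ha).resolve_left hsl
    rw [h2, spk r h1]
    exact hP.nw _ (hasp_iff h3)

end Pool.FC7
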