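import Pool.Agent.FC7.FtB
import Pool.Agent.FC7.CuB

/-! # Facts for patterns of codes with gaps without units here: no conversion

The letters `76`, `332` (no units here; the face has no units or three units) are replaced by `128`,
`384` in the record; the same for `92`, `348` (length 4) and `108`, `364` (length at least 5).  The
letters stay if the gap has four corners and no units at the centre and at both neighbours; in this case
the codes `64`, `80` of unknown faces are replaced by `76`, `92`.  The other codes of unknown faces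
stay. -/

open Finset

set_option linter.unusedSectionVars false

namespace Pool.FC7

open Pool.FC6 Pool.FC6.St

/-- the letter of the record -/
def o2 (l : ℕ) : ℕ := if isO l = true then l + 52 else l

/-- the word of the record: `o2` of the letters, or the letters themselves at the positions `z` -/
def relw (z : ℕ → Bool) (wd rc : List ℕ) : Bool :=
  decide (rc.length = wd.length) && (List.range wd.length).all fun i =>
    decide (rc.getD i 0 = o2 (wd.getD i 0)) ||
      (z i && isz (wd.getD i 0) && decide (rc.getD i 0 = rc4 (wd.getD i 0)))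

/-- the positions at the neighbour `p` of the gaps with four corners and no units -/
def zn (w0 : List ℕ) (nb : List (ℕ × List ℕ)) (p : ℕ × List ℕ) (j : ℕ) : Bool :=
  (decide (j + 1 = p.2.length) && cz w0 nb p.1) ||
    (decide (j = 0) && cz w0 nb ((p.1 + w0.length - 1) % w0.length))

/-- the pair is in the list, `wd` is the word of the record -/
def hasz (w0 : List ℕ) (nb : List (ℕ × List ℕ)) (i : ℕ) (wd : List ℕ) : Bool :=
  nb.any fun p => decide (p.1 = i) && decide (p.1 < w0.length) && relw (zn w0 nb p) p.2 wd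

/-- the pair is in the list -/
def haso (nb : List (ℕ × List ℕ)) (i : ℕ) (wd : List ℕ) : Bool :=
  nb.any fun p => decide (p.1 = i) && decide (p.2.map o2 = wd)

theorem haso_iff {nb : List (ℕ × List ℕ)} {i : ℕ} {wd : List ℕ} (h : haso nb i wd = true) :
    ∃ p ∈ nb, p.1 = i ∧ p.2.map o2 = wd := by
  unfold haso at h
  simp only [List.any_eq_true, Bool.and_eq_true, decide_eq_true_eq] at h
  exact h

/-- the codes of the unknown faces, and their members -/
def chp : List (ℕ × ℕ) :=
  [(64, 68), (64, 72), (64, 76), (80, 84), (80, 88), (80, 92), (96, 100), (96, 104), (96, 108),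
    (65, 69), (65, 73), (81, 85), (81, 89), (97, 101), (97, 105), (1085, 21), (1085, 9), (1085, 33),
    (1086, 6), (1086, 18), (4156, 0), (4156, 24), (4156, 36), (6204, 0), (6204, 24), (6204, 36),
    (6204, 512)]

theorem chg_cases {g l : ℕ} (h : chg g l = true) : (l = g ∧ ∀ p ∈ chp, p.1 ≠ g) ∨
    (isO g = true ∧ l + 4 = g) ∨ ∃ p ∈ chp, p.1 = g ∧ p.2 = l := by
  unfold chg at h
  split_ifs at h with h1 h2 h3 h4 h5 h6
  · right; right
    simp only [Bool.or_eq_true, decide_eq_true_eq] at h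
    rcases h1 with rfl | rfl | rfl <;> rcases h with (h | h) | h <;> subst h <;> decide
  · right; right
    simp only [Bool.or_eq_true, decide_eq_true_eq] at h
    rcases h2 with rfl | rfl | rfl <;> rcases h with h | h <;> subst h <;> decide
  · right; right
    simp only [Bool.or_eq_true, decide_eq_true_eq] at h
    subst h3
    rcases h with (h | h) | h <;> subst h <;> decide
  · right; right
    simp only [Bool.or_eq_true, decide_eq_true_eq] at h
    subst h4
    rcases h with h | h <;> subst h <;> decide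
  · right; right
    simp only [Bool.or_eq_true, decide_eq_true_eq] at h
    subst h5
    rcases h with (h | h) | h <;> subst h <;> decide
  · right; right
    simp only [Bool.or_eq_true, decide_eq_true_eq] at h
    subst h6
    rcases h with ((h | h) | h) | h <;> subst h <;> decide
  · unfold chl at h
    simp only [Bool.or_eq_true, Bool.and_eq_true, decide_eq_true_eq] at h
    rcases h with h | h
    · refine Or.inl ⟨h, ?_⟩
      have k1 : ∀ p ∈ chp, (p.1 = 64 ∨ p.1 = 80 ∨ p.1 = 96) ∨ (p.1 = 65 ∨ p.1 = 81 ∨ p.1 = 97) ∨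
          p.1 = 1085 ∨ p.1 = 1086 ∨ p.1 = 4156 ∨ p.1 = 6204 := by decide
      intro p hp he
      have := k1 p hp
      rw [he] at this
      tauto
    · exact Or.inr (Or.inl h)

/-- no letter with `k = 2`; unknown units at the heads only in the codes of classes -/
def nkl (l : ℕ) : Bool :=
  (decide (l < 1024) && decide (wk l ≠ 2) && (!uo l || decide (lK l ≠ 0))) ||
    chp.any fun p => decide (p.1 = l)

/-- no letters with `k = 2` -/
def nk2 (wd : List ℕ) : Bool := wd.all nkl

/-- the centres of the fact are the centre and neighbours of the pattern in `nb`, and hubs at the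
centre; the kept vertices with slack or with given words are neighbours of the pattern in `nb` or
`kb`; the neighbours in `pl` have not exactly four darts -/
def WG.chkK (W : WG) (w0 : List ℕ) (nb kb : List (ℕ × List ℕ)) (pl : List ℕ) : Bool :=
  decide (0 < W.Z.nc) && W.ac 0 && relw (cz w0 nb) w0 (W.wd 0) && nk2 w0 &&
  (nb ++ kb).all (fun p => nk2 p.2) &&
  allN W.Z.nc (fun a => decide (a = 0) || (decide (W.Z.pa a = 0) &&
    (!W.ac a || hasz w0 nb (W.ra a) (W.wd a)))) &&
  allN W.F.O.m (fun a => decide (W.F.O.sl a = 0) || (List.range w0.length).any fun r =>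
    decide (W.sc a = W.Z.off 0 + pos (W.wd 0) r) && haso (nb ++ kb) r (W.sw a)) &&
  allN W.Z.Q.ns (fun i => (W.bw i).isEmpty || (List.range w0.length).any fun r =>
    decide (i = W.Z.off 0 + pos (W.wd 0) r) && haso (nb ++ kb) r (W.bw i)) &&
  W.pl.all (fun i => (List.range w0.length).any fun r =>
    decide (i = W.Z.off 0 + pos (W.wd 0) r) && pl.contains r)

/-- the check with neighbours which have not exactly four darts -/
def WG.chkCp (W : WG) (w0 : List ℕ) (nb : List (ℕ × List ℕ)) (pl : List ℕ) : Bool :=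
  W.chkK w0 nb [] pl

variable {D V : Type} [Fintype D] [DecidableEq V] {Δ : ℕ} {S : St D V} {L : D → Bool}
  {w : D → ℕ} {d : D}

/-- a sector of a state with the code `l` also has the code `r` -/
def okl (l r : ℕ) : Bool :=
  decide (sk r = sk l) && (decide (lA r = 3) || decide (lA r = lA l)) && (lS r == lS l) &&
  (if lK r = 0 then decide (lK l = 0) && (decide (lB r = 3) || decide (lB r = lB l)) &&
      (decide (lC r = 3) || decide (lC r = lC l)) &&
      (r.testBit 11 || (!l.testBit 11 && (lO r == lO l)))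
    else decide (lK l ≠ 0) && (decide (lB r = 0) || decide (lB r = lB l)))

/-- the additional information of the code `r` -/
def okO (l r : ℕ) : Bool :=
  (decide (lK l = 0) || decide (wk r ≠ 2) || decide (lB l = 3) || decide (lB l = 2)) &&
  (decide (lK l ≠ 0) || !uo r || (decide (lA l ≠ 3) && decide (lB l ≠ 3) && decide (lC l ≠ 3) &&
    (!r.testBit 10 || decide (3 ≤ lA l + lB l + lC l)) &&
    (!r.testBit 12 || decide (lA l + lB l + lC l = 0) || decide (3 ≤ lA l + lB l + lC l))))

theorem isL_okl {l r : ℕ} (h : IsL S L d l) (hc : okl l r = true) : IsL S L d r := by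
  unfold okl at hc
  simp only [Bool.and_eq_true, Bool.or_eq_true, decide_eq_true_eq, beq_iff_eq] at hc
  obtain ⟨⟨⟨c1, c2⟩, c3⟩, c4⟩ := hc
  have eq : ∀ {n a b : ℕ}, (b = 3 ∨ b = a) → EqU n a → EqU n b := by
    intro n a b h1 h2
    rcases h1 with h1 | h1
    · exact Or.inl h1
    · rw [h1]; exact h2
  refine ⟨by rw [c1]; exact h.k, eq c2 h.a, by rw [c3]; exact h.s, fun hk => ?_, fun hk => ?_,
    fun hk h11 => ?_, fun hk => ?_⟩
  · rw [if_pos hk] at c4
    simp only [Bool.and_eq_true, Bool.or_eq_true, decide_eq_true_eq] at c4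
    exact eq c4.1.1.2 (h.b c4.1.1.1)
  · rw [if_pos hk] at c4
    simp only [Bool.and_eq_true, Bool.or_eq_true, decide_eq_true_eq] at c4
    exact eq c4.1.2 (h.c c4.1.1.1)
  · rw [if_pos hk] at c4
    simp only [Bool.and_eq_true, Bool.or_eq_true, decide_eq_true_eq, Bool.not_eq_true',
      beq_iff_eq] at c4
    rcases c4.2 with h1 | h1
    · rw [h11] at h1; exact absurd h1 (by simp)
    · rw [h1.2]; exact h.o c4.1.1.1 h1.1
  · rw [if_neg hk] at c4
    simp only [Bool.and_eq_true, Bool.or_eq_true, decide_eq_true_eq] at c4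
    have h1 := h.f c4.1
    rcases c4.2 with h2 | h2
    · rw [h2]
      exact ⟨fun h0 => absurd h0 (by norm_num), fun h0 => absurd h0 (by norm_num),
        fun h0 => absurd h0 (by norm_num)⟩
    · rw [h2]; exact h1

theorem okO_Oo (hS : IsStar S) (W : Wf Δ S L w) (hd : S.real d = true) {l r : ℕ}
    (h : IsL S L d l) (hc : okO l r = true) : Oo (fu S (S.M.σ d)) (S.real (S.M.σ d)) r := by
  unfold okO at hc
  simp only [Bool.and_eq_true, Bool.or_eq_true, decide_eq_true_eq, Bool.not_eq_true'] at hc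
  obtain ⟨c1, c2⟩ := hc
  refine ⟨fun hr hk => ?_, fun hr hu => ?_⟩
  · have h0 : lK l ≠ 0 := by
      intro h0
      rw [h.solid h0] at hr
      exact absurd hr (by simp)
    rcases c1 with ((c1 | c1) | c1) | c1
    · exact absurd c1 h0
    · exact absurd hk c1
    · exact Or.inl ((h.f h0).2.2 c1)
    · exact Or.inr ((h.f h0).2.1 c1)
  · have h0 : lK l = 0 := by
      by_contra h0
      rw [(h.gap h0).1] at hr
      exact absurd hr (by simp)
    rcases c2 with (c2 | c2) | c2
    · exact absurd h0 c2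
    · rw [hu] at c2; exact absurd c2 (by simp)
    · obtain ⟨⟨⟨⟨n1, n2⟩, n3⟩, c3⟩, c4⟩ := c2
      have a1 := h.a.resolve_left n1
      have a2 := (h.b h0).resolve_left n2
      have a3 := (h.c h0).resolve_left n3
      rw [h.nxr_solid h0] at a1
      have r1 : S.real (S.M.φ (S.M.σ d)) = true :=
        hS.two (S.M.α d) (by rw [W.real_α]; exact hd) hr
      have h1 : fu S (S.M.σ d) = lA l + lB l + lC l := by
        have e1 : S.M.φ (S.M.φ (S.M.σ d)) = S.M.α d := by
          show S.M.φ (S.M.φ (S.M.φ (S.M.α d))) = _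
          rw [S.M.φ3]
        rw [fu_solid hS hr r1, a1, a3, e1, a2]
        omega
      rw [h1]
      refine ⟨fun h10 => ?_, fun h12 => ?_⟩
      · rcases c3 with c3 | c3
        · rw [h10] at c3; exact absurd c3 (by simp)
        · exact c3
      · rcases c4 with (c4 | c4) | c4
        · rw [h12] at c4; exact absurd c4 (by simp)
        · exact Or.inl c4
        · exact Or.inr c4

theorem okl_refl (l : ℕ) : okl l l = true := by
  unfold okl
  by_cases h : lK l = 0
  · by_cases h1 : l.testBit 11 = true <;> simp [h, h1]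
  · simp [h]

/-- the letters of the record -/
theorem chg_rok {g l : ℕ} (hc : chg g l = true) (hn : nkl g = true) :
    okl l (o2 g) = true ∧ okO l (o2 g) = true := by
  have hO : isO g = true → g < 1024 → g ∈ ([76, 92, 108, 332, 348, 364, 588, 604, 620, 844, 860,
      876] : List ℕ) := by
    intro h h1
    unfold isO at h
    simp only [Bool.or_eq_true, decide_eq_true_eq] at h
    simp only [List.mem_cons, List.not_mem_nil, or_false]
    omega
  have hp : ∀ p ∈ chp, okl p.2 (o2 p.1) = true ∧ okO p.2 (o2 p.1) = true ∧ isO p.1 = false := by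
    decide
  have hlt : isO g = true → g < 1024 := by
    intro h
    unfold nkl at hn
    rw [Bool.or_eq_true, Bool.and_eq_true, Bool.and_eq_true, decide_eq_true_eq,
      List.any_eq_true] at hn
    rcases hn with hn | ⟨p, hn, h2⟩
    · exact hn.1.1
    · rw [decide_eq_true_eq] at h2
      rw [← h2, (hp p hn).2.2] at h
      exact absurd h (by simp)
  have hk : ∀ g ∈ ([76, 92, 108, 332, 348, 364, 588, 604, 620, 844, 860, 876] : List ℕ),
      okl g (o2 g) = true ∧ okO g (o2 g) = true ∧ okl (g - 4) (o2 g) = true ∧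
        okO (g - 4) (o2 g) = true := by
    decide
  rcases chg_cases hc with ⟨c2, c3⟩ | ⟨c1, c2⟩ | ⟨p, c1, c2, c3⟩
  · by_cases h : isO g = true
    · have h1 := hk g (hO h (hlt h))
      rw [c2]
      exact ⟨h1.1, h1.2.1⟩
    · have h2 : o2 g = g := if_neg h
      rw [c2, h2]
      refine ⟨okl_refl g, ?_⟩
      unfold nkl at hn
      simp only [Bool.or_eq_true, Bool.and_eq_true, decide_eq_true_eq, List.any_eq_true,
        Bool.not_eq_true'] at hn
      rcases hn with ⟨⟨-, n1⟩, n2⟩ | ⟨p, n1, n2⟩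
      · unfold okO
        simp only [Bool.or_eq_true, Bool.and_eq_true, decide_eq_true_eq, Bool.not_eq_true']
        exact ⟨Or.inl (Or.inl (Or.inr n1)), by
          rcases n2 with n2 | n2
          · exact Or.inl (Or.inr n2)
          · exact Or.inl (Or.inl n2)⟩
      · exact absurd n2 (c3 p n1)
  · have h1 := hk g (hO c1 (hlt c1))
    have h2 : l = g - 4 := by omega
    rw [h2]
    exact h1.2.2
  · have h1 := hp p c1
    rw [c2, c3] at h1
    exact ⟨h1.1, h1.2.1⟩

theorem nk2_get {wd : List ℕ} (hn : nk2 wd = true) {i : ℕ} (hi : i < wd.length) :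
    nkl (wd.getD i 0) = true := by
  unfold nk2 at hn
  rw [List.all_eq_true] at hn
  exact hn _ (by
    rw [List.getD_eq_getElem _ _ hi]
    exact List.getElem_mem _)

theorem isW_o2 {wd w' : List ℕ} (h : IsW S L d w') (hc : chgc wd w' = true) (hn : nk2 wd = true) :
    IsW S L d (wd.map o2) := by
  have hl := chgc_len hc
  refine h.mono (by rw [List.length_map, hl]) fun i hi hI => ?_
  have hi' : i < wd.length := by rw [← hl]; exact hi
  rw [getD_map hi']
  exact isL_okl hI (chg_rok (chgc_get hc hi') (nk2_get hn hi')).1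

/-- the word of the record -/
theorem isW_rel {z : ℕ → Bool} {wd w' rc : List ℕ} (h : IsW S L d w') (hc : chgc wd w' = true)
    (hn : nk2 wd = true)
    (hr : relw z wd rc = true) (hz : ∀ i < wd.length, z i = true →
      S.real (S.M.σ (S.nxr^[i] d)) = false → fu S (S.M.σ (S.nxr^[i] d)) = 0) : IsW S L d rc := by
  unfold relw at hr
  simp only [Bool.and_eq_true, Bool.or_eq_true, decide_eq_true_eq, List.all_eq_true,
    List.mem_range] at hr
  have hl := chgc_len hc
  refine h.mono (by rw [hr.1, hl]) fun i hi hI => ?_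
  have hi' : i < wd.length := by omega
  have h1 := chgc_get hc hi'
  rcases hr.2 i hi' with h2 | ⟨⟨h2, h3⟩, h4⟩
  · rw [h2]
    exact isL_okl hI (chg_rok h1 (nk2_get hn hi')).1
  · rw [h4]
    obtain ⟨-, g1⟩ := chg_isz hI h1 h3
    have h5 := hz i hi' h2 g1
    obtain ⟨-, b1, b2, b3, b4, b5⟩ := isz_chg h1 h3
    have hk : lK (rc4 (wd.getD i 0)) ≠ 0 := by rw [b4]; norm_num
    refine ⟨by rw [← b2]; exact hI.k, by rw [← b1]; exact hI.a, by rw [← b3]; exact hI.s,
      fun h0 => absurd h0 hk, fun h0 => absurd h0 hk, fun h0 => absurd h0 hk, fun _ => ?_⟩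
    rw [b5, h5]
    exact ⟨fun h0 => absurd h0 (by norm_num), fun h0 => absurd h0 (by norm_num), fun _ => rfl⟩

/-- the additional information of the letters of the record -/
theorem rel_Oo (hS : IsStar S) (W : Wf Δ S L w) {z : ℕ → Bool} {wd w' rc : List ℕ}
    (h : IsW S L d w') (hc : chgc wd w' = true)
    (hr : relw z wd rc = true) (hn : nk2 wd = true) {i : ℕ} (hi : i < rc.length) :
    Oo (fu S (S.M.σ (S.nxr^[i] d))) (S.real (S.M.σ (S.nxr^[i] d))) (rc.getD i 0) := by
  unfold relw at hr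
  simp only [Bool.and_eq_true, Bool.or_eq_true, decide_eq_true_eq, List.all_eq_true,
    List.mem_range] at hr
  have hl := chgc_len hc
  have hi' : i < wd.length := by omega
  have hI := h.l i (by omega)
  rcases hr.2 i hi' with h2 | ⟨⟨h2, h3⟩, h4⟩
  · rw [h2]
    exact okO_Oo hS W (hS.nxr_iter_real W h.re i) hI (chg_rok (chgc_get hc hi') (nk2_get hn hi')).2
  · rw [h4]
    obtain ⟨-, g1⟩ := chg_isz hI (chgc_get hc hi') h3
    obtain ⟨-, b1, b2, b3, b4, b5⟩ := isz_chg (chgc_get hc hi') h3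
    refine ⟨fun _ hk => ?_, fun hr => ?_⟩
    · have hk' : lK (rc4 (wd.getD i 0)) = 2 := hk
      rw [b4] at hk'
      exact absurd hk' (by norm_num)
    · rw [g1] at hr; exact absurd hr (by simp)

/-- the gaps with four corners at a neighbour -/
theorem HasW.zn (hM : MC 6 S L w) (hS : IsStar S) {w0 : List ℕ} {nb : List (ℕ × List ℕ)} {x : D}
    (hP : HasW S L w0 nb x) {p : ℕ × List ℕ} (hp : p.1 < w0.length) {w' : List ℕ}
    (hc : chgc p.2 w' = true) (hI : IsW S L (S.M.α (S.nxr^[p.1] x)) w') {j : ℕ}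
    (hj : j < p.2.length) (hz : FC7.zn w0 nb p j = true)
    (hv : S.real (S.M.σ (S.nxr^[j] (S.M.α (S.nxr^[p.1] x)))) = false) :
    fu S (S.M.σ (S.nxr^[j] (S.M.α (S.nxr^[p.1] x)))) = 0 := by
  have W0 := hM.ok.toWf
  have hl := chgc_len hc
  unfold FC7.zn at hz
  simp only [Bool.or_eq_true, Bool.and_eq_true, decide_eq_true_eq] at hz
  rcases hz with ⟨h1, h2⟩ | ⟨h1, h2⟩
  · have h3 := hI.prev hS W0
    rw [show w'.length - 1 = j by omega] at h3
    rw [fu_last h3 hv]
    exact (hP.cz (le_refl 6) hM hS hp h2).2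
  · obtain ⟨w2, c1, I⟩ := hP.w
    have h0 : (p.1 + w0.length - 1) % w0.length < w0.length := Nat.mod_lt _ (by omega)
    obtain ⟨g1, g2⟩ := hP.cz (le_refl 6) hM hS h0 h2
    have e1 : S.nxr (S.nxr^[(p.1 + w0.length - 1) % w0.length] x) = S.nxr^[p.1] x := by
      rw [← Function.iterate_succ_apply' S.nxr]
      rcases Nat.eq_zero_or_pos p.1 with h5 | h5
      · rw [h5, Nat.zero_add, Nat.mod_eq_of_lt (by omega),
          show (w0.length - 1).succ = w0.length by omega]
        have := hS.nxr_rdeg W0 I.re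
        rwa [← I.len, chgc_len c1] at this
      · rw [show p.1 + w0.length - 1 = (p.1 - 1) + w0.length by omega, Nat.add_mod_right,
          Nat.mod_eq_of_lt (by omega), show (p.1 - 1).succ = p.1 by omega]
    rw [h1, Function.iterate_zero, id, ← e1, fu_first g1]
    exact g2

/-- the additional information of the letters of the record -/
theorem Cf.hoo {C : Cf} {lt : ℕ → ℕ} {d : ℕ → D} (hcf : C.chk = true) (hL : C.chkL lt = true)
    (hS : IsStar S) (W0 : Wf Δ S L w) (H : C.Hy S d) (B : C.Base S L d)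
    (hw : ∀ a < C.Z.nc, C.ac a = true → ∃ z wa w', relw z wa (C.wd a) = true ∧ nk2 wa = true ∧
      chgc wa w' = true ∧ IsW S L (d a) w') :
    ∀ j < C.Z.Q.ns, C.Z.Q.rl j = true →
      Oo (fu S (C.Z.io S d (C.Z.Q.ρ j))) (C.Z.Q.rl (C.Z.Q.ρ j)) (lt j) := by
  intro j hj hr
  have hca : C.Z.ca j < C.Z.nc := H.hC.calt j hj
  have hac : C.ac (C.Z.ca j) = true := by
    refine (H.hac _ hca).1 ?_
    rw [← C.Z.v_io S d j]
    exact W0.real_A _ ((H.rlj hj).trans hr)
  obtain ⟨i, hi, h1, -⟩ := B.letter hcf hS W0 hj hac hr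
  have hs := B.sector hcf hS W0 hca hac hi
  obtain ⟨z, wa, w', k1, k2, k3, k4⟩ := hw _ hca hac
  unfold Cf.chkL at hL
  simp only [allN_iff] at hL
  have h3 := hL _ hca
  rw [if_pos hac] at h3
  simp only [allN_iff, Bool.and_eq_true, decide_eq_true_eq] at h3
  have h4 : lt j = (C.wd (C.Z.ca j)).getD i 0 := by
    have := (h3 i hi).1
    rw [← h1] at this
    exact this
  have h7 := hs.2.2.1
  rw [← h1] at h7
  have h9 := rel_Oo hS W0 k4 k3 k1 k2 hi
  have h10 : S.M.σ (C.Z.io S d j) = C.Z.io S d (C.Z.Q.ρ j) := H.ioρ hj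
  rw [← h4, ← h7, h10, show S.real (C.Z.io S d (C.Z.Q.ρ j)) = C.Z.Q.rl (C.Z.Q.ρ j) from
    H.rlj (H.hC.Q.ρlt j hj)] at h9
  exact h9

/-- the base darts with the rules -/
theorem WG.bas {W : WG} {d : ℕ → D} (hG : W.chkH Δ = true) (W0 : Wf Δ S L w) (hS : IsStar S)
    (B : W.cf.Base0 S L d)
    (n2 : ∀ a < W.Z.nc, W.ac a = true → S.N2 (S.M.v (d a)))
    (fr : ∀ a < W.Z.nc, W.ac a = true → ∀ k, S.real k = true → S.M.v k = S.M.v (d a) → FcR S k)
    (fh : ∀ a < W.Z.nc, W.ac a = true → ∀ k, S.real k = true → S.M.v k = S.M.v (d a) → FcH S k)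
    (f4 : F4 S fun x => ∃ a < W.Z.nc, W.ac a = true ∧ x = S.M.v (d a))
    (hbw : ∀ i < W.Z.Q.ns, W.bw i ≠ [] → IsW S L (S.M.α (W.Z.io S d i)) (W.bw i))
    (hpl : ∀ i < W.Z.Q.ns, i ∈ W.pl → S.nd (S.M.α (W.Z.io S d i)) ≠ 4)
    (r4 : ∀ a < W.Z.nc, W.ac a = true → ∀ k, S.real k = true → S.M.v k = S.M.v (d a) →
      4 ≤ S.rdeg (S.M.v (S.M.α k))) :
    W.cf.Base S L d := by
  unfold WG.chkH at hG
  simp only [Bool.and_eq_true, decide_eq_true_eq, List.all_eq_true] at hG
  obtain ⟨⟨⟨⟨⟨⟨⟨⟨⟨c1, c2⟩, c3⟩, c4⟩, c5⟩, c6⟩, c6o⟩, c7⟩, c8b⟩, c8⟩ := hG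
  exact B.base4 c2 hS W0 (WG.bg_ne c2 hS W0 B hbw hpl) n2 f4 r4 fr fh c4

/-- the pattern of codes: neighbours `nb` in the region, neighbours `kb` anywhere -/
structure HasK (S : St D V) (L : D → Bool) (U : V → Prop) (w0 : List ℕ)
    (nb kb : List (ℕ × List ℕ)) (x : D) : Prop where
  cU : U (S.M.v x)
  w : ∃ w', chgc w0 w' = true ∧ IsW S L x w'
  nU : ∀ p ∈ nb, U (S.M.v (S.M.α (S.nxr^[p.1] x)))
  nw : ∀ p ∈ nb ++ kb, ∃ w', chgc p.2 w' = true ∧ IsW S L (S.M.α (S.nxr^[p.1] x)) w'

/-- the pattern of codes does not occur if the neighbours in `pl` have not exactly four darts, for all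
choices of the gaps without units here -/
def NoK (w0 : List ℕ) (nb kb : List (ℕ × List ℕ)) (pl : List ℕ) : Prop :=
  ∀ (D V : Type) [Fintype D] [DecidableEq V] (S : St D V) (L : D → Bool) (w : D → ℕ)
    (U : V → Prop), MC 6 S L w → IsStar S → Reg S U → ∀ x, HasK S L U w0 nb kb x →
      (∀ i ∈ pl, S.nd (S.M.α (S.nxr^[i] x)) ≠ 4) → False

theorem NoK.noG {w0 : List ℕ} {nb : List (ℕ × List ℕ)} {pl : List ℕ} (h : NoK w0 nb [] pl) :
    NoG w0 nb pl := by
  intro D V _ _ S L w U hM hS hR _ x hP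
  exact h D V S L w U hM hS hR x ⟨hP.cU, hP.w, hP.nU, fun p hp => hP.nw p (by simpa using hp)⟩
    fun i hi => by have := hP.np i hi; omega

/-- A FACT FOR A PATTERN OF CODES, for all choices -/
theorem WG.noK {W : WG} (hG : W.chkO' 6 = true) (hE : W.F.One)
    {w0 : List ℕ} {nb kb : List (ℕ × List ℕ)} {pl : List ℕ} (hU : W.chkK w0 nb kb pl = true) :
    NoK w0 nb kb pl := by
  intro D V _ _ S L w U hM hS hR x hP hQ
  unfold WG.chkK at hU
  simp only [Bool.and_eq_true, Bool.or_eq_true, decide_eq_true_eq, allN_iff, List.any_eq_true,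
    List.mem_range, List.all_eq_true, Bool.not_eq_true'] at hU
  obtain ⟨⟨⟨⟨⟨⟨⟨⟨u1, ua⟩, u2⟩, n1⟩, n3⟩, u3⟩, u4⟩, u5⟩, u6⟩ := hU
  have hH : W.chkH 6 = true := by
    unfold WG.chkO' at hG
    rw [Bool.and_eq_true] at hG
    exact hG.1
  have hcf : W.cf.chk = true := WG.cfc hH
  have W0 := hM.ok.toWf
  have hPW : HasW S L w0 nb x := ⟨hP.w, fun p hp => hP.nw p (List.mem_append_left _ hp)⟩
  -- the words of the centres
  have hw : ∀ a < W.Z.nc, W.ac a = true → ∃ z wa w', relw z wa (W.wd a) = true ∧ nk2 wa = true ∧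
      chgc wa w' = true ∧ IsW S L (bd S W.ac W.ra x a) w' ∧
      IsW S L (bd S W.ac W.ra x a) (W.wd a) ∧ U (S.M.v (bd S W.ac W.ra x a)) := by
    intro a ha hac
    unfold bd
    by_cases h0 : a = 0
    · rw [if_pos h0, h0]
      obtain ⟨w', h1, h2⟩ := hP.w
      exact ⟨_, w0, w', u2, n1, h1, h2, isW_rel h2 h1 n1 u2 fun i hi hz _ =>
        (hPW.cz (le_refl 6) hM hS hi hz).2, hP.cU⟩
    · have h3 := ((u3 a ha).resolve_left h0).2.resolve_left (by rw [hac]; decide)
      unfold hasz at h3
      simp only [List.any_eq_true, Bool.and_eq_true, decide_eq_true_eq] at h3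
      obtain ⟨p, p1, ⟨p2, p3⟩, p4⟩ := h3
      obtain ⟨w', h1, h2⟩ := hP.nw p (List.mem_append_left _ p1)
      have h4 := hP.nU p p1
      rw [if_neg h0, if_pos hac, ← p2]
      have n4 := n3 p (List.mem_append_left _ p1)
      exact ⟨_, p.2, w', p4, n4, h1, h2, isW_rel h2 h1 n4 p4 fun i hi hz hv =>
        hPW.zn hM hS p3 h1 h2 hi hz hv, h4⟩
  have B : W.cf.Base0 S L (bd S W.ac W.ra x) := by
    refine ⟨fun a ha h0 => ?_, fun a ha hac => ?_⟩
    · have ha : a < W.Z.nc := ha
      have h1 := ((u3 a ha).resolve_left (by omega)).1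
      have h2 : W.cf.Z.pa a = 0 := h1
      rw [h2]
      unfold bd
      rw [if_neg (by omega), if_pos rfl]
      rfl
    · obtain ⟨z, wa, w', h1, h2, h3, h4, h5, h6⟩ := hw a ha hac
      exact h5
  have H := B.hy hcf hS W0
  have hUa : ∀ a < W.Z.nc, W.ac a = true → U (S.M.v (bd S W.ac W.ra x a)) := by
    intro a ha hac
    obtain ⟨z, wa, w', h1, h2, h3, h4, h5, h6⟩ := hw a ha hac
    exact h6
  have hv : ∀ a < W.Z.nc, W.ac a = true → ∀ k, S.real k = true →
      S.M.v k = S.M.v (bd S W.ac W.ra x a) → Fc3 S k := by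
    intro a ha hac k hk hv
    exact hR.fc k hk (by rw [hv]; exact hUa a ha hac)
  have n2 : ∀ a < W.Z.nc, W.ac a = true → S.N2 (S.M.v (bd S W.ac W.ra x a)) := fun a ha hac =>
    (hM.rg (le_refl 6)).n2 hS W0 (by omega) _ (hR.A _ (hUa a ha hac))
  have fr : ∀ a < W.Z.nc, W.ac a = true → ∀ k, S.real k = true →
      S.M.v k = S.M.v (bd S W.ac W.ra x a) → FcR S k :=
    fun a ha hac k hk hv' e e' r r' => hv a ha hac k hk hv' e e'
  have fh : ∀ a < W.Z.nc, W.ac a = true → ∀ k, S.real k = true →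
      S.M.v k = S.M.v (bd S W.ac W.ra x a) → FcH S k :=
    fun a ha hac k hk hv' e e' r r' => hv a ha hac k hk hv' e e'
  have f4 : F4 S fun y => ∃ a < W.Z.nc, W.ac a = true ∧ y = S.M.v (bd S W.ac W.ra x a) :=
    hR.f4.mono fun y hy => by
      obtain ⟨a, ha, hac, rfl⟩ := hy
      exact hUa a ha hac
  -- the spokes of the centre
  have hx : IsW S L x (W.wd 0) := by
    have h4 := B.w 0 u1 ua
    unfold bd at h4
    rw [if_pos rfl] at h4
    exact h4
  have hlen : (W.wd 0).length = w0.length := by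
    unfold relw at u2
    rw [Bool.and_eq_true, decide_eq_true_eq] at u2
    exact u2.1
  have spk : ∀ r < w0.length,
      W.Z.io S (bd S W.ac W.ra x) (W.Z.off 0 + pos (W.wd 0) r) = S.nxr^[r] x := by
    intro r h1
    have h4 : pos (W.wd 0) r < W.Z.m 0 := by
      have h5 := (Cf.chk_iff hcf).2.2.1
      unfold Cf.chkW at h5
      rw [allN_iff] at h5
      have h6 := h5 0 u1
      have h7 : W.cf.ac 0 = true := ua
      rw [if_pos h7, Bool.and_eq_true, decide_eq_true_eq] at h6
      have h8 : W.Z.m 0 = (fl (W.wd 0)).length := h6.1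
      rw [h8, ← pos_length]
      exact pos_lt (by rw [hlen]; exact h1) (le_refl _)
    rw [nxr_pos hx (by rw [hlen]; exact h1.le)]
    exact Stars.io_off H.hC S (bd S W.ac W.ra x) u1 h4
  have wsp : ∀ r < w0.length, ∀ wd, haso (nb ++ kb) r wd = true →
      IsW S L (S.M.α (S.nxr^[r] x)) wd := by
    intro r _ wd h3
    obtain ⟨p, p1, p2, p3⟩ := haso_iff h3
    obtain ⟨w', q1, q2⟩ := hP.nw p p1
    have q3 := isW_o2 q2 q1 (n3 p p1)
    rw [p2, p3] at q3
    exact q3
  have hbw : ∀ i < W.Z.Q.ns, W.bw i ≠ [] →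
      IsW S L (S.M.α (W.Z.io S (bd S W.ac W.ra x) i)) (W.bw i) := by
    intro i hi hb
    obtain ⟨r, h1, h2, h3⟩ := (u5 i hi).resolve_left (by simpa using hb)
    have h4 : W.Z.io S (bd S W.ac W.ra x) i = S.nxr^[r] x := by rw [h2]; exact spk r h1
    rw [h4]
    exact wsp r h1 _ h3
  have hpl : ∀ i < W.Z.Q.ns, i ∈ W.pl →
      S.nd (S.M.α (W.Z.io S (bd S W.ac W.ra x) i)) ≠ 4 := by
    intro i _ hi
    obtain ⟨r, h1, h2, h3⟩ := u6 i hi
    rw [h2, spk r h1]
    exact hQ r (by simpa using h3)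
  have B1 := WG.bas hH W0 hS B n2 fr fh f4 hbw hpl
    (fun _ _ _ k hk _ => hM.rdeg4 (le_refl 6) (W0.real_A _ (by rw [W0.real_α]; exact hk)))
  have h5 : H5 S L fun y => ∃ a < W.Z.nc, W.ac a = true ∧ y = S.M.v (bd S W.ac W.ra x a) :=
    (hM.h5 (le_refl 6) hS hR).mono fun y hy => by
      obtain ⟨a, ha, hac, rfl⟩ := hy
      exact hUa a ha hac
  refine WG.noO (le_refl 6) hG hE hM hS B n2 fr fh f4 h5 hpl hbw (fun a ha hsl => ?_)
    (fun j hj hr => ?_)
  · obtain ⟨r, h1, h2, h3⟩ := (u4 a ha).resolve_left hsl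
    rw [h2, spk r h1]
    exact wsp r h1 _ h3
  · have hL : W.cf.chkL W.lt = true := by
      unfold WG.chkH at hH
      simp only [Bool.and_eq_true] at hH
      exact hH.1.1.1.1.1.1.1.2
    refine Cf.hoo hcf hL hS W0 H B1 (fun a ha hac => ?_) j hj hr
    obtain ⟨z, wa, w', k1, k2, k3, k4, k5, k6⟩ := hw a ha hac
    exact ⟨z, wa, w', k1, k2, k3, k4⟩

/-- A FACT FOR A PATTERN OF CODES, for all choices -/
theorem WG.noG {W : WG} (hG : W.chkO' 6 = true) (hE : W.F.One)
    {w0 : List ℕ} {nb : List (ℕ × List ℕ)} {pl : List ℕ} (hU : W.chkCp w0 nb pl = true) :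
    NoG w0 nb pl := (WG.noK hG hE hU).noG

end Pool.FC7
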