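import Pool.Agent.FC7.WrB
import Pool.Agent.FC7.CfH
import Pool.Agent.FC7.CfX

/-! # Facts without replacement given by words: minimal counterexamples -/

open Finset

set_option linter.unusedSectionVars false

namespace Pool.FC7

open Pool.FC6 Pool.FC6.St

variable {D V : Type} [Fintype D] [DecidableEq V] {Δ : ℕ} {S : St D V} {L : D → Bool}
  {w : D → ℕ} {d : ℕ → D}

/-- a fact without replacement with the words of its centres -/
structure WS extends WR where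
  wd : ℕ → List ℕ
  ra : ℕ → ℕ
  ad : ℕ → ℕ → ℕ
  al : ℕ → ℕ
  cs : ℕ → ℕ
  SD : ℕ → ℕ → Bool
  pl : List ℕ := []

namespace WS

variable (W : WS)

/-- the configuration -/
def cf : Cf := ⟨W.Z, W.PT, W.ac, W.wd, W.ra, W.ad, W.al, W.cs, W.SD⟩

/-- the head of the spoke `i` surely has not exactly four darts, by the tables of this spoke -/
def bg0 (i : ℕ) : Bool := W.cf.big i || W.pl.contains i

/-- the head of the spoke `i` surely has not exactly four darts -/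
def bg (i : ℕ) : Bool := W.cf.bgx W.bg0 i

/-- the check -/
noncomputable def chkG : Bool :=
  W.chk && W.cf.chk && W.cf.chkL W.lt && W.cf.chk4 W.bg && W.dq.all (fun q => W.cf.sd q.1 q.2) &&
    W.F.chk

end WS

/-- THE FACT for states next to a minimal counterexample -/
theorem WS.noM {N R e : ℕ} {W : WS} (hG : W.chkG = true) (hE : W.F.One) (he : e < 6072)
    (h : MM Δ N R e S L w)
    (hS : IsStar S) (B : W.cf.Base0 S L d)
    (f3 : ∀ e, fu S e = 0 ∨ fu S e = 2 ∨ fu S e = 3)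
    (n2 : ∀ a < W.Z.nc, W.ac a = true → S.N2 (S.M.v (d a)))
    (fr : ∀ a < W.Z.nc, W.ac a = true → ∀ k, S.real k = true → S.M.v k = S.M.v (d a) → FcR S k)
    (fh : ∀ a < W.Z.nc, W.ac a = true → ∀ k, S.real k = true → S.M.v k = S.M.v (d a) → FcH S k)
    (f4 : F4 S fun x => ∃ a < W.Z.nc, W.ac a = true ∧ x = S.M.v (d a))
    (hpl : ∀ i < W.Z.Q.ns, i ∈ W.pl → S.nd (S.M.α (W.Z.io S d i)) ≠ 4)
    (r4 : ∀ a < W.Z.nc, W.ac a = true → ∀ k, S.real k = true → S.M.v k = S.M.v (d a) →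
      4 ≤ S.rdeg (S.M.v (S.M.α k)))
    (hoo : ∀ j < W.Z.Q.ns, W.Z.Q.rl j = true →
      Oo (fu S (W.Z.io S d (W.Z.Q.ρ j))) (W.Z.Q.rl (W.Z.Q.ρ j)) (W.lt j)) : False := by
  unfold WS.chkG at hG
  simp only [Bool.and_eq_true, List.all_eq_true] at hG
  obtain ⟨⟨⟨⟨⟨c1, c2⟩, c3⟩, c4⟩, c5⟩, c6⟩ := hG
  have Wf0 := h.ok.toWf
  have H := B.hy c2 hS Wf0
  have hbg : ∀ i < W.cf.Z.Q.ns, W.bg i = true → S.nd (S.M.α (W.cf.Z.io S d i)) ≠ 4 := by
    refine H.bgx fun i hi h => ?_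
    unfold WS.bg0 at h
    rw [Bool.or_eq_true, List.contains_iff_mem] at h
    rcases h with h | h
    · exact Cf.big_ne c2 hS Wf0 B hi h
    · exact hpl i hi h
  have B1 : W.cf.Base S L d := B.base4 c2 hS Wf0 hbg n2 f4 r4 fr fh c4
  obtain ⟨f, g, e1, e2, e3, e4, -, -⟩ := B1.emb c2 hS Wf0
  have inf : Info W.Z W.ac S L d W.lt := B1.info c2 hS Wf0 c3
  have C := WR.ck c1
  have hρ : ∀ j < W.Z.Q.ns, S.M.σ (W.Z.io S d j) = W.Z.io S d (W.Z.Q.ρ j) :=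
    fun j hj => H.ioρ hj
  have cu := Wt.cu_of hS Wf0 C.Z C.ok hρ inf (fun j hj hp => H.ioπ hj hp)
    (fun j hj => by rw [W.Z.v_io]; exact H.hac _ (C.Z.calt j hj))
    (fun j hj h => by rw [nd_v (W.Z.v_io S d j)]; exact (H.nd _ (C.Z.calt j hj)).trans h) f3
  have Hy : W.toWR.Hy S L d f g :=
    ⟨H.hm, inf, cu, hoo, e1, e2, e3, e4, fun q hq => B1.sd_ne c2 hS Wf0 (c5 q hq)⟩
  exact WR.no c1 c6 hE he h hS Hy

/-- THE FACT -/
theorem WS.no {W : WS} (hΔ : Δ ≤ 6) (hG : W.chkG = true) (hE : W.F.One) (h : MC Δ S L w)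
    (hS : IsStar S) (B : W.cf.Base0 S L d)
    (n2 : ∀ a < W.Z.nc, W.ac a = true → S.N2 (S.M.v (d a)))
    (fr : ∀ a < W.Z.nc, W.ac a = true → ∀ k, S.real k = true → S.M.v k = S.M.v (d a) → FcR S k)
    (fh : ∀ a < W.Z.nc, W.ac a = true → ∀ k, S.real k = true → S.M.v k = S.M.v (d a) → FcH S k)
    (f4 : F4 S fun x => ∃ a < W.Z.nc, W.ac a = true ∧ x = S.M.v (d a))
    (hpl : ∀ i < W.Z.Q.ns, i ∈ W.pl → S.nd (S.M.α (W.Z.io S d i)) ≠ 4)
    (hoo : ∀ j < W.Z.Q.ns, W.Z.Q.rl j = true →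
      Oo (fu S (W.Z.io S d (W.Z.Q.ρ j))) (W.Z.Q.rl (W.Z.Q.ρ j)) (W.lt j)) : False :=
  WS.noM hG hE (by norm_num) (h.mm hΔ) hS B (h.fu023 hΔ) n2 fr fh f4 hpl
    (fun _ _ _ k hk _ => h.rdeg4 hΔ (h.ok.toWf.real_A _ (by rw [h.ok.toWf.real_α]; exact hk))) hoo

end Pool.FC7
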