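import Pool.Agent.FC7.FtC
import Pool.Agent.FC7.WrC

/-! # Facts without replacement for patterns of codes -/

open Finset

set_option linter.unusedSectionVars false

namespace Pool.FC7

open Pool.FC6 Pool.FC6.St

/-- the centres of the fact are the centre and neighbours of the pattern, and hubs at the centre; the
neighbours in `pl` have not exactly four darts -/
def WS.chkCp (W : WS) (w0 : List ℕ) (nb : List (ℕ × List ℕ)) (pl : List ℕ) : Bool :=
  decide (0 < W.Z.nc) && W.ac 0 && relw (cz w0 nb) w0 (W.wd 0) && nk2 w0 &&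
  nb.all (fun p => nk2 p.2) &&
  allN W.Z.nc (fun a => decide (a = 0) || (decide (W.Z.pa a = 0) &&
    (!W.ac a || hasz w0 nb (W.ra a) (W.wd a)))) &&
  W.pl.all (fun i => (List.range w0.length).any fun r =>
    decide (i = W.Z.off 0 + pos (W.wd 0) r) && pl.contains r)

/-- A FACT WITHOUT REPLACEMENT FOR A PATTERN OF CODES, for all choices -/
theorem WS.noG {W : WS} (hG : W.chkG = true) (hE : W.F.One)
    {w0 : List ℕ} {nb : List (ℕ × List ℕ)} {pl : List ℕ} (hU : W.chkCp w0 nb pl = true) :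
    NoG w0 nb pl := by
  intro D V _ _ S L w U hM hS hR _ x hP
  unfold WS.chkCp at hU
  simp only [Bool.and_eq_true, Bool.or_eq_true, decide_eq_true_eq, allN_iff, List.any_eq_true,
    List.mem_range, List.all_eq_true, Bool.not_eq_true'] at hU
  obtain ⟨⟨⟨⟨⟨⟨u1, ua⟩, u2⟩, n1⟩, n3⟩, u3⟩, u6⟩ := hU
  have W0 := hM.ok.toWf
  have hG' := hG
  unfold WS.chkG at hG'
  simp only [Bool.and_eq_true] at hG'
  obtain ⟨⟨⟨⟨⟨c1, hcf⟩, c3⟩, c4⟩, c5⟩, c6⟩ := hG'
  have hPW : HasW S L w0 nb x := ⟨hP.w, hP.nw⟩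
  -- the words of the centres
  have hw : ∀ a < W.Z.nc, W.ac a = true → ∃ z wa w', relw z wa (W.wd a) = true ∧ nk2 wa = true ∧
      chgc wa w' = true ∧ IsW S L (bd S W.ac W.ra x a) w' ∧
      IsW S L (bd S W.ac W.ra x a) (W.wd a) ∧ U (S.M.v (bd S W.ac W.ra x a)) := by
    intro a ha hac
    unfold bd
    by_cases h0 : a = 0
    · rw [if_pos h0, h0]
      obtain ⟨w', h1, h2⟩ := hP.w
      exact ⟨_, w0, w', u2, n1, h1, h2, isW_rel h2 h1 n1 u2 fun i hi hz _ =>
        (hPW.cz (le_refl 6) hM hS hi hz).2, hP.cU⟩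
    · have h3 := ((u3 a ha).resolve_left h0).2.resolve_left (by rw [hac]; decide)
      unfold hasz at h3
      simp only [List.any_eq_true, Bool.and_eq_true, decide_eq_true_eq] at h3
      obtain ⟨p, p1, ⟨p2, p3⟩, p4⟩ := h3
      obtain ⟨w', h1, h2⟩ := hP.nw p p1
      have h4 := hP.nU p p1
      rw [if_neg h0, if_pos hac, ← p2]
      exact ⟨_, p.2, w', p4, n3 p p1, h1, h2, isW_rel h2 h1 (n3 p p1) p4 fun i hi hz hv =>
        hPW.zn hM hS p3 h1 h2 hi hz hv, h4⟩
  have B : W.cf.Base0 S L (bd S W.ac W.ra x) := by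
    refine ⟨fun a ha h0 => ?_, fun a ha hac => ?_⟩
    · have ha : a < W.Z.nc := ha
      have h1 := ((u3 a ha).resolve_left (by omega)).1
      have h2 : W.cf.Z.pa a = 0 := h1
      rw [h2]
      unfold bd
      rw [if_neg (by omega), if_pos rfl]
      rfl
    · obtain ⟨z, wa, w', h1, h2, h3, h4, h5, h6⟩ := hw a ha hac
      exact h5
  have H := B.hy hcf hS W0
  have hUa : ∀ a < W.Z.nc, W.ac a = true → U (S.M.v (bd S W.ac W.ra x a)) := by
    intro a ha hac
    obtain ⟨z, wa, w', h1, h2, h3, h4, h5, h6⟩ := hw a ha hac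
    exact h6
  have hv : ∀ a < W.Z.nc, W.ac a = true → ∀ k, S.real k = true →
      S.M.v k = S.M.v (bd S W.ac W.ra x a) → Fc3 S k := by
    intro a ha hac k hk hv
    exact hR.fc k hk (by rw [hv]; exact hUa a ha hac)
  have n2 : ∀ a < W.Z.nc, W.ac a = true → S.N2 (S.M.v (bd S W.ac W.ra x a)) := fun a ha hac =>
    (hM.rg (le_refl 6)).n2 hS W0 (by omega) _ (hR.A _ (hUa a ha hac))
  have fr : ∀ a < W.Z.nc, W.ac a = true → ∀ k, S.real k = true →
      S.M.v k = S.M.v (bd S W.ac W.ra x a) → FcR S k :=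
    fun a ha hac k hk hv' e e' r r' => hv a ha hac k hk hv' e e'
  have fh : ∀ a < W.Z.nc, W.ac a = true → ∀ k, S.real k = true →
      S.M.v k = S.M.v (bd S W.ac W.ra x a) → FcH S k :=
    fun a ha hac k hk hv' e e' r r' => hv a ha hac k hk hv' e e'
  have f4 : F4 S fun y => ∃ a < W.Z.nc, W.ac a = true ∧ y = S.M.v (bd S W.ac W.ra x a) :=
    hR.f4.mono fun y hy => by
      obtain ⟨a, ha, hac, rfl⟩ := hy
      exact hUa a ha hac
  -- the spokes of the centre
  have hx : IsW S L x (W.wd 0) := by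
    have h4 := B.w 0 u1 ua
    unfold bd at h4
    rw [if_pos rfl] at h4
    exact h4
  have hlen : (W.wd 0).length = w0.length := by
    unfold relw at u2
    rw [Bool.and_eq_true, decide_eq_true_eq] at u2
    exact u2.1
  have spk : ∀ r < w0.length,
      W.Z.io S (bd S W.ac W.ra x) (W.Z.off 0 + pos (W.wd 0) r) = S.nxr^[r] x := by
    intro r h1
    have h4 : pos (W.wd 0) r < W.Z.m 0 := by
      have h5 := (Cf.chk_iff hcf).2.2.1
      unfold Cf.chkW at h5
      rw [allN_iff] at h5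
      have h6 := h5 0 u1
      have h7 : W.cf.ac 0 = true := ua
      rw [if_pos h7, Bool.and_eq_true, decide_eq_true_eq] at h6
      have h8 : W.Z.m 0 = (fl (W.wd 0)).length := h6.1
      rw [h8, ← pos_length]
      exact pos_lt (by rw [hlen]; exact h1) (le_refl _)
    rw [nxr_pos hx (by rw [hlen]; exact h1.le)]
    exact Stars.io_off H.hC S (bd S W.ac W.ra x) u1 h4
  have hpl : ∀ i < W.Z.Q.ns, i ∈ W.pl →
      S.nd (S.M.α (W.Z.io S (bd S W.ac W.ra x) i)) ≠ 4 := by
    intro i _ hi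
    obtain ⟨r, h1, h2, h3⟩ := u6 i hi
    rw [h2, spk r h1]
    have := hP.np r (by simpa using h3)
    omega
  have hbg : ∀ i < W.cf.Z.Q.ns, W.bg i = true →
      S.nd (S.M.α (W.cf.Z.io S (bd S W.ac W.ra x) i)) ≠ 4 := by
    refine H.bgx fun i hi h => ?_
    unfold WS.bg0 at h
    rw [Bool.or_eq_true, List.contains_iff_mem] at h
    rcases h with h | h
    · exact Cf.big_ne hcf hS W0 B hi h
    · exact hpl i hi h
  have B1 : W.cf.Base S L (bd S W.ac W.ra x) := B.base4 hcf hS W0 hbg n2 f4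
    (fun _ _ _ k hk _ => hM.rdeg4 (le_refl 6) (W0.real_A _ (by rw [W0.real_α]; exact hk)))
    fr fh c4
  refine WS.no (le_refl 6) hG hE hM hS B n2 fr fh f4 hpl
    (Cf.hoo hcf c3 hS W0 H B1 fun a ha hac => ?_)
  obtain ⟨z, wa, w', k1, k2, k3, k4, k5, k6⟩ := hw a ha hac
  exact ⟨z, wa, w', k1, k2, k3, k4⟩

end Pool.FC7
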