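import Pool.Agent.FC7.RokE

/-! # The bonus for faces with one arc: definitions

`T`: the gap arcs `(p, p', M)`: the ring dart `p` ends at the hub, `p'` is the only ring dart which
starts at the hub, `M` = mask of the real ring darts whose reversal may belong to the face of the hub -/

open Finset

set_option linter.unusedSectionVars false

namespace Pool.FC7

open Pool.FC6 Pool.FC6.St

/-- different colours at the ends of the arc -/
def gcr (P : Pa) (c : ℕ) (p : ℕ × ℕ × ℕ) : Bool :=
  c.testBit (P.l p.1) != c.testBit (P.l (P.φ p.2.1))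

/-- there is a cut dart in the mask -/
def gex (P : Pa) (c M : ℕ) : Bool :=
  !(decide (M = 0) || allN P.n fun j => !(M.testBit j && OD.crs P c j))

/-- the number of cut darts in the mask -/
def gnr (P : Pa) (c M : ℕ) : ℕ :=
  if M = 0 then 0 else sumN P.n fun j => if M.testBit j && OD.crs P c j then 1 else 0

/-- the number of arcs with different colours at the ends -/
def gnum (P : Pa) (c : ℕ) : List (ℕ × ℕ × ℕ) → ℕ
  | [] => 0
  | p :: T => (if gcr P c p then 1 else 0) + gnum P c T

/-- the number of these arcs with a cut dart in the mask -/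
def gnum1 (P : Pa) (c : ℕ) : List (ℕ × ℕ × ℕ) → ℕ
  | [] => 0
  | p :: T => (if gcr P c p && gex P c p.2.2 then 1 else 0) + gnum1 P c T

/-- the union of the masks of these arcs -/
def gmsk (P : Pa) (c : ℕ) : List (ℕ × ℕ × ℕ) → ℕ
  | [] => 0
  | p :: T => (if gcr P c p then p.2.2 else 0) ||| gmsk P c T

/-- the bonus -/
def gbon (P : Pa) (c : ℕ) (T : List (ℕ × ℕ × ℕ)) : ℕ :=
  2 * ((gnum P c T - (if gnum1 P c T = 0 then 0 else min (gnum1 P c T) (gnr P c (gmsk P c T))) +
    1) / 2)

/-- the lower bound for the number of cut darts outside of the patch -/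
def gbn (P : Pa) (O : OD) (T : List (ℕ × ℕ × ℕ)) (c : ℕ) : ℕ :=
  if gbon P c T = 0 then 0 else O.rr P c + gbon P c T

theorem gnum_eq (P : Pa) (c : ℕ) (T : List (ℕ × ℕ × ℕ)) :
    gnum P c T = (T.filter fun p => gcr P c p).length := by
  induction T with
  | nil => rfl
  | cons p T ih =>
    rw [gnum, List.filter_cons, ih]
    split_ifs
    · rw [List.length_cons]; omega
    · omega

theorem gnum1_eq (P : Pa) (c : ℕ) (T : List (ℕ × ℕ × ℕ)) :
    gnum1 P c T = ((T.filter fun p => gcr P c p).filter fun p => gex P c p.2.2).length := by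
  induction T with
  | nil => rfl
  | cons p T ih =>
    rw [gnum1, List.filter_cons, ih]
    by_cases h1 : gcr P c p = true
    · rw [if_pos h1, List.filter_cons, h1, Bool.true_and]
      split_ifs
      · rw [List.length_cons]; omega
      · omega
    · rw [if_neg h1, if_neg (by simp [h1])]
      omega

theorem gmsk_bit (P : Pa) (c : ℕ) (T : List (ℕ × ℕ × ℕ)) {p : ℕ × ℕ × ℕ} (hp : p ∈ T)
    (hg : gcr P c p = true) {j : ℕ} (hj : p.2.2.testBit j = true) :
    (gmsk P c T).testBit j = true := by
  induction T with
  | nil => exact absurd hp (by simp)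
  | cons q T ih =>
    rw [gmsk, Nat.testBit_or, Bool.or_eq_true]
    rcases List.mem_cons.1 hp with h | h
    · left
      rw [← h, if_pos hg]
      exact hj
    · exact Or.inr (ih h)

theorem gex_iff {P : Pa} {c M j : ℕ} (hj : j < P.n) (hM : M.testBit j = true)
    (hc : OD.crs P c j = true) : gex P c M = true := by
  unfold gex
  rw [Bool.not_eq_true', Bool.or_eq_false_iff]
  refine ⟨?_, ?_⟩
  · rw [decide_eq_false_iff_not]
    rintro rfl
    rw [Nat.zero_testBit] at hM
    exact absurd hM (by simp)
  · by_contra h
    rw [Bool.not_eq_false, allN_iff] at h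
    have := h j hj
    rw [hM, hc] at this
    exact absurd this (by simp)

theorem gnr_eq (P : Pa) (c M : ℕ) : gnr P c M =
    ((Finset.range P.n).filter fun j => (M.testBit j && OD.crs P c j) = true).card := by
  unfold gnr
  rw [Finset.card_filter]
  split_ifs with h
  · rw [h]
    symm
    apply Finset.sum_eq_zero
    intro j _
    rw [if_neg]
    rw [Nat.zero_testBit]
    simp
  · rw [sumN_eq]

end Pool.FC7
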