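import Pool.Agent.FC7.WfE
import Pool.Agent.FC7.GbA

/-! # Real edges outside of the patch forced by faces with one arc

A face with a dead vertex (hub) which meets the patch in one arc `p, hub, q` with different colours
at `p` and `q` has a real edge with different colours outside of the patch.  `WF.Cx.gb`: the bound
`gbn` for the cuts. -/

open Finset

set_option linter.unusedSectionVars false

namespace Pool.FC7

open Pool.FC6 Pool.FC6.St

/-- the static conditions for the gap arcs; `ex a b`: the label `a` is surely not a corner of the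
face of the hub `b` -/
def gchk (T : List (ℕ × ℕ × ℕ)) (P : Pa) (x m : ℕ) (ex : ℕ → ℕ → Bool) : Bool :=
  T.all (fun p => decide (p.1 < P.n) && decide (p.2.1 < P.n) && decide (P.α p.1 = p.1) &&
    (allN P.n fun j => decide (P.α j ≠ j) || decide (P.l j ≠ P.l (P.φ p.1)) ||
      decide (j = p.2.1)) && decide (x ≤ P.l p.1) && decide (P.l p.1 < m) &&
    decide (x ≤ P.l (P.φ p.2.1)) && decide (P.l (P.φ p.2.1) < m) &&
    (allN P.n fun j => decide (P.α j ≠ j) || !P.real j || p.2.2.testBit j ||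
      ex (P.l j) (P.l (P.φ p.1)) || ex (P.l (P.φ j)) (P.l (P.φ p.1)))) &&
  decide ((T.map fun p => P.l (P.φ p.1)).Nodup)

/-- the entry makes the colours of `a` and `b` different -/
def cl5 (E : List (List (ℕ × ℕ × Bool))) (a b : ℕ) : Bool :=
  E.any fun C => C.all fun t => t.2.2 && ((decide (t.1 = a) && decide (t.2.1 = b)) ||
    (decide (t.1 = b) && decide (t.2.1 = a)))

/-- a real dart without units; it is not labelled or its ends have different colours -/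
def WF.pd5 (W : WF) (E : List (List (ℕ × ℕ × Bool))) (j : ℕ) : Bool :=
  W.F.P.real j && decide (W.F.P.u j = 0) && !W.F.uk j &&
    ((!W.F.O.lb j && !W.F.lu j) || cl5 E (W.F.P.l j) (W.F.P.l (W.F.P.φ j)))

/-- the entry makes the colours of `a` and `b` equal -/
def ce5 (E : List (List (ℕ × ℕ × Bool))) (a b : ℕ) : Bool :=
  decide (a = b) || E.any fun C => C.all fun t => !t.2.2 &&
    ((decide (t.1 = a) && decide (t.2.1 = b)) || (decide (t.1 = b) && decide (t.2.1 = a)))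

/-- the triangle of the dart `j` -/
def WF.pt5 (W : WF) (E : List (List (ℕ × ℕ × Bool))) (j : ℕ) : Bool :=
  W.pd5 E j && W.pd5 E (W.F.P.φ j) && W.pd5 E (W.F.P.φ (W.F.P.φ j))

/-- no units at the dart `j` -/
def WF.nu5 (W : WF) (j : ℕ) : Bool := decide (W.F.P.u j = 0) && !W.F.uk j

/-- the dart `j` is not labelled -/
def WF.ln5 (W : WF) (j : ℕ) : Bool := !W.F.O.lb j && !W.F.lu j

/-- the corner of a gap: `j` is the virtual dart after the real dart `i`, `k` is the next real dart -/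
def WF.gc5 (W : WF) (i j k : ℕ) : Bool :=
  W.F.P.real i && decide (W.F.P.α i ≠ i) && !W.F.P.real j && decide (W.F.P.α j ≠ j) &&
    W.F.P.real k && decide (W.F.P.α k ≠ k) && W.nu5 k &&
    (decide (W.fcl k = 2) || decide (W.fcl k = 3) || W.ocl k || W.nu5 (W.F.P.α i) ||
      (decide (W.F.P.α (W.F.P.φ k) ≠ W.F.P.φ k) && W.nu5 (W.F.P.φ (W.F.P.α (W.F.P.φ k)))))

/-- the vertex of the dart `i` has four real darts; `i` and `k` lead to one side, the others to the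
other side -/
def WF.ot5 (W : WF) (E : List (List (ℕ × ℕ × Bool))) (i k : ℕ) : Bool :=
  decide (W.F.P.l i < W.F.O.x) &&
    decide (sumN W.F.P.n (fun e => if W.F.P.real e && decide (W.F.P.l e = W.F.P.l i) then 1 else 0) = 4) &&
    ce5 E (W.F.P.l (W.F.P.φ k)) (W.F.P.l (W.F.P.φ i)) &&
    allN W.F.P.n fun e => !W.F.P.real e || !decide (W.F.P.l e = W.F.P.l i) || decide (e = i) ||
      decide (e = k) || cl5 E (W.F.P.l (W.F.P.φ e)) (W.F.P.l (W.F.P.φ i))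

/-- kind 0: an edge between two plain triangles -/
def WF.k05 (W : WF) (E : List (List (ℕ × ℕ × Bool))) (i : ℕ) : Bool :=
  decide (i < W.F.P.n) && decide (W.F.P.α i ≠ i) && cl5 E (W.F.P.l i) (W.F.P.l (W.F.P.φ i)) &&
    W.pt5 E i && W.pt5 E (W.F.P.α i)

/-- kind 1: two edges of the cut next to a gap, and a plain triangle -/
def WF.k15 (W : WF) (E : List (List (ℕ × ℕ × Bool))) (i j k : ℕ) : Bool :=
  W.gc5 i j k && cl5 E (W.F.P.l i) (W.F.P.l (W.F.P.φ i)) && cl5 E (W.F.P.l i) (W.F.P.l (W.F.P.φ k)) &&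
    ((W.pt5 E i && W.ln5 (W.F.P.φ (W.F.P.φ i))) || (W.pt5 E (W.F.P.α k) && W.ln5 (W.F.P.φ (W.F.P.α k))))

/-- kind 2: a vertex with four edges in pairs, at a plain triangle -/
def WF.k25 (W : WF) (E : List (List (ℕ × ℕ × Bool))) (i k : ℕ) : Bool :=
  W.F.P.real i && decide (W.F.P.α i ≠ i) && W.F.P.real k && W.F.P.real (W.F.P.φ k) && W.nu5 k &&
    W.nu5 (W.F.P.φ k) && W.nu5 (W.F.P.α i) && !W.F.O.lb (W.F.P.φ k) && !W.F.lu (W.F.P.φ k) &&
    W.ot5 E i k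

/-- kind 3: a vertex with four edges in pairs, at a gap -/
def WF.k35 (W : WF) (E : List (List (ℕ × ℕ × Bool))) (i j k : ℕ) : Bool :=
  W.gc5 i j k && W.ot5 E i k && (W.F.P.real (W.F.P.φ (W.F.P.α k)) || W.F.P.real (W.F.P.φ (W.F.P.φ i)))

/-- kind 4: two edges of the cut next to a gap between two solid triangles -/
def WF.k45 (W : WF) (E : List (List (ℕ × ℕ × Bool))) (i j k : ℕ) : Bool :=
  W.F.P.real i && decide (W.F.P.α i ≠ i) && !W.F.P.real j && decide (W.F.P.α j ≠ j) &&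
    W.F.P.real k && decide (W.F.P.α k ≠ k) && W.F.P.real (W.F.P.φ (W.F.P.α k)) &&
    W.F.P.real (W.F.P.φ (W.F.P.φ i)) && cl5 E (W.F.P.l i) (W.F.P.l (W.F.P.φ i)) &&
    cl5 E (W.F.P.l i) (W.F.P.l (W.F.P.φ k)) &&
    ((ce5 E (W.F.P.l (W.F.P.φ (W.F.P.φ (W.F.P.α k)))) (W.F.P.l i) &&
      ce5 E (W.F.P.l (W.F.P.φ (W.F.P.φ i))) (W.F.P.l i)) ||
    (decide (W.F.P.l i < W.F.O.x) &&
      decide (sumN W.F.P.n (fun e => if W.F.P.real e && decide (W.F.P.l e = W.F.P.l i) then 1 else 0) ≤ 5)))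

/-- the dart `j` surely has a unit -/
def WF.ku5 (W : WF) (j : ℕ) : Bool := !decide (W.F.P.u j = 0) && !W.F.uk j

/-- the face of the real dart `i` surely has a unit -/
def WF.fn5 (W : WF) (i : ℕ) : Bool :=
  decide (W.fcl i = 1) || decide (W.fcl i = 2) || W.ku5 i || W.ku5 (W.F.P.φ i) ||
    W.ku5 (W.F.P.φ (W.F.P.φ i)) ||
    (W.F.P.real i && !W.F.P.real (W.F.P.φ i) && !allN W.F.P.n fun e =>
      !(decide (W.F.P.l (W.F.P.φ (W.F.P.φ e)) = W.F.P.l (W.F.P.φ (W.F.P.φ i))) && W.ku5 e))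

/-- two edges of the cut next to each other, a plain triangle and a face with units next to them -/
def WF.o55 (W : WF) (E : List (List (ℕ × ℕ × Bool))) (i k : ℕ) : Bool :=
  W.F.P.real k && decide (W.F.P.α k ≠ k) && cl5 E (W.F.P.l i) (W.F.P.l (W.F.P.φ i)) &&
    cl5 E (W.F.P.l i) (W.F.P.l (W.F.P.φ k)) &&
    ((W.pt5 E (W.F.P.α k) && W.fn5 i) || (W.pt5 E i && W.fn5 (W.F.P.α k)))

/-- kind 5: two edges of the cut next to each other at the vertex of the dart `i`, a plain triangle and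
a face with units -/
def WF.k55 (W : WF) (E : List (List (ℕ × ℕ × Bool))) (i : ℕ) : Bool :=
  decide (i < W.F.P.n) && W.F.P.real i && decide (W.F.P.α i ≠ i) &&
    (W.o55 E i (W.F.P.φ (W.F.P.α i)) ||
      (!W.F.P.real (W.F.P.φ (W.F.P.α i)) &&
        decide (W.F.P.α (W.F.P.φ (W.F.P.α i)) ≠ W.F.P.φ (W.F.P.α i)) &&
        W.o55 E i (W.F.P.φ (W.F.P.α (W.F.P.φ (W.F.P.α i))))))

/-- kind 6: a labelled edge of the cut -/
def WF.k65 (W : WF) (E : List (List (ℕ × ℕ × Bool))) (i : ℕ) : Bool :=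
  decide (i < W.F.P.n) && W.F.P.real i && W.F.O.lb i && !W.F.lu i &&
    cl5 E (W.F.P.l i) (W.F.P.l (W.F.P.φ i))

/-- the next real dart at the vertex of the real dart `i` -/
def WF.nx5 (W : WF) (i : ℕ) : ℕ :=
  if W.F.P.real (W.F.P.φ (W.F.P.α i)) then W.F.P.φ (W.F.P.α i)
  else W.F.P.φ (W.F.P.α (W.F.P.φ (W.F.P.α i)))

/-- the next real dart at the vertex of the real dart `i` belongs to the patch -/
def WF.nq5 (W : WF) (i : ℕ) : Bool :=
  decide (W.F.P.α i ≠ i) && (W.F.P.real (W.F.P.φ (W.F.P.α i)) ||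
    (decide (W.F.P.α (W.F.P.φ (W.F.P.α i)) ≠ W.F.P.φ (W.F.P.α i)) &&
      W.F.P.real (W.F.P.φ (W.F.P.α (W.F.P.φ (W.F.P.α i))))))

/-- four darts at the vertex of the dart `i` -/
def WF.cy5 (W : WF) (i : ℕ) : Bool :=
  decide (W.F.P.α i ≠ i) &&
  decide (W.F.P.α (W.F.P.φ (W.F.P.α i)) ≠ W.F.P.φ (W.F.P.α i)) &&
  decide (W.F.P.α (W.F.P.φ (W.F.P.α (W.F.P.φ (W.F.P.α i)))) ≠
    W.F.P.φ (W.F.P.α (W.F.P.φ (W.F.P.α i)))) &&
  decide (W.F.P.α (W.F.P.φ (W.F.P.α (W.F.P.φ (W.F.P.α (W.F.P.φ (W.F.P.α i)))))) ≠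
    W.F.P.φ (W.F.P.α (W.F.P.φ (W.F.P.α (W.F.P.φ (W.F.P.α i)))))) &&
  decide (W.F.P.φ (W.F.P.α (W.F.P.φ (W.F.P.α (W.F.P.φ (W.F.P.α (W.F.P.φ (W.F.P.α i))))))) = i)

/-- kind 7: three edges of the cut next to each other, the face before or behind them is small -/
def WF.k75 (W : WF) (E : List (List (ℕ × ℕ × Bool))) (i r m : ℕ) : Bool :=
  W.F.P.real i && W.nq5 i && W.nq5 r && cl5 E (W.F.P.l i) (W.F.P.l (W.F.P.φ i)) &&
    cl5 E (W.F.P.l i) (W.F.P.l (W.F.P.φ r)) && cl5 E (W.F.P.l i) (W.F.P.l (W.F.P.φ m)) &&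
    (W.F.P.real (W.F.P.φ i) || W.cy5 (W.F.P.φ (W.F.P.φ i)) ||
      (decide (W.F.P.α m ≠ m) && (W.F.P.real (W.F.P.φ (W.F.P.α m)) ||
        (decide (W.F.P.α (W.F.P.φ (W.F.P.α m)) ≠ W.F.P.φ (W.F.P.α m)) &&
          W.cy5 (W.F.P.α (W.F.P.φ (W.F.P.α m)))))))

/-- the darts `i`, `j` belong to the same face, `i` is a real dart -/
def WF.sf5 (W : WF) (i j : ℕ) : Bool :=
  decide (j = i) || decide (j = W.F.P.φ i) || decide (j = W.F.P.φ (W.F.P.φ i)) ||
    (!W.F.P.real (W.F.P.φ i) &&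
      decide (W.F.P.l (W.F.P.φ (W.F.P.φ j)) = W.F.P.l (W.F.P.φ (W.F.P.φ i))))

/-- the triangle of the dart `i` is solid -/
def WF.so5 (W : WF) (i : ℕ) : Bool :=
  W.F.P.real i && W.F.P.real (W.F.P.φ i) && W.F.P.real (W.F.P.φ (W.F.P.φ i))

/-- the edges `a b` and `c d` have different colours at the ends: the colours of `a` and `c` are
equal -/
def sm5 (E : List (List (ℕ × ℕ × Bool))) (a b c d : ℕ) : Bool :=
  ce5 E a c || ce5 E b d || cl5 E a d || cl5 E b c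

/-- `a` has the colour of one of `x, x', x''` or not the colour of one of `y, y', y''` -/
def sx5 (E : List (List (ℕ × ℕ × Bool))) (a x x' x'' y y' y'' : ℕ) : Bool :=
  ce5 E a x || ce5 E a x' || ce5 E a x'' || cl5 E a y || cl5 E a y' || cl5 E a y''

/-- kind 8, the flags: `e` = the reversal of the first edge, `i`, `j` = the other edges -/
def WF.kf5 (W : WF) (e i j : ℕ) (b1 b3 : Bool) (X4 Y4 X3 Y3 p1 p2 p3 p4 n1 n2 n3 n4 : Bool) : Bool :=
  bad5 (decide (W.F.P.l (W.F.P.φ e) = W.F.P.l i)) (decide (W.F.P.l i = W.F.P.l j))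
      (b3 && X3) (b1 && X4) p1 p2 (b3 && p3) (b1 && p4) n1 n2 (b3 && n3) (b1 && n4) &&
    bad5 (decide (W.F.P.l e = W.F.P.l (W.F.P.φ i)))
      (decide (W.F.P.l (W.F.P.φ i) = W.F.P.l (W.F.P.φ j)))
      (b3 && Y3) (b1 && Y4) p1 p2 (b3 && p3) (b1 && p4) n1 n2 (b3 && n3) (b1 && n4)

/-- kind 8: the types of the faces at three edges of the cut; `e` = the reversal of the first edge,
`i`, `j` = the other edges -/
def WF.k85 (W : WF) (E : List (List (ℕ × ℕ × Bool))) (e i j : ℕ) : Bool :=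
  decide (e < W.F.P.n) && decide (i < W.F.P.n) && decide (j < W.F.P.n) && W.F.P.real e &&
    W.F.P.real i && W.F.P.real j && decide (W.F.P.α i ≠ i) &&
    cl5 E (W.F.P.l e) (W.F.P.l (W.F.P.φ e)) && cl5 E (W.F.P.l i) (W.F.P.l (W.F.P.φ i)) &&
    cl5 E (W.F.P.l j) (W.F.P.l (W.F.P.φ j)) &&
    sm5 E (W.F.P.l i) (W.F.P.l (W.F.P.φ i)) (W.F.P.l (W.F.P.φ e)) (W.F.P.l e) &&
    (sm5 E (W.F.P.l j) (W.F.P.l (W.F.P.φ j)) (W.F.P.l (W.F.P.φ e)) (W.F.P.l e) ||
      sm5 E (W.F.P.l j) (W.F.P.l (W.F.P.φ j)) (W.F.P.l i) (W.F.P.l (W.F.P.φ i))) &&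
    decide (e ≠ W.F.P.α i) && decide (i ≠ j) &&
    ((decide (W.F.P.α e ≠ e) && decide (W.F.P.α e ≠ j)) ||
      (decide (W.F.P.α j ≠ j) && decide (W.F.P.α j ≠ e)) || W.F.ne (W.F.P.l (W.F.P.φ e)) (W.F.P.l j) ||
      W.F.ne (W.F.P.l e) (W.F.P.l (W.F.P.φ j))) &&
    W.sf5 e i && W.sf5 (W.F.P.α i) j &&
    W.kf5 e i j (decide (W.F.P.α e ≠ e)) (decide (W.F.P.α j ≠ j))
      (W.so5 (W.F.P.α e) && sx5 E (W.F.P.l (W.F.P.φ (W.F.P.φ (W.F.P.α e)))) (W.F.P.l e)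
        (W.F.P.l (W.F.P.φ i)) (W.F.P.l (W.F.P.φ j)) (W.F.P.l (W.F.P.φ e)) (W.F.P.l i) (W.F.P.l j))
      (W.so5 (W.F.P.α e) && sx5 E (W.F.P.l (W.F.P.φ (W.F.P.φ (W.F.P.α e)))) (W.F.P.l (W.F.P.φ e))
        (W.F.P.l i) (W.F.P.l j) (W.F.P.l e) (W.F.P.l (W.F.P.φ i)) (W.F.P.l (W.F.P.φ j)))
      (W.so5 (W.F.P.α j) && sx5 E (W.F.P.l (W.F.P.φ (W.F.P.φ (W.F.P.α j)))) (W.F.P.l e)
        (W.F.P.l (W.F.P.φ i)) (W.F.P.l (W.F.P.φ j)) (W.F.P.l (W.F.P.φ e)) (W.F.P.l i) (W.F.P.l j))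
      (W.so5 (W.F.P.α j) && sx5 E (W.F.P.l (W.F.P.φ (W.F.P.φ (W.F.P.α j)))) (W.F.P.l (W.F.P.φ e))
        (W.F.P.l i) (W.F.P.l j) (W.F.P.l e) (W.F.P.l (W.F.P.φ i)) (W.F.P.l (W.F.P.φ j)))
      (W.pt5 E i) (W.pt5 E j) (W.pt5 E (W.F.P.α j)) (W.pt5 E (W.F.P.α e))
      (W.fn5 i) (W.fn5 j) (W.fn5 (W.F.P.α j)) (W.fn5 (W.F.P.α e))

/-- kind 9: six real darts `i0, …, i5` at a vertex, three on every side of the cut; a gap with units
between `i0` and `i1`, plain triangles next to it -/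
def WF.k95 (W : WF) (E : List (List (ℕ × ℕ × Bool))) (i0 i1 i2 i3 i4 i5 : ℕ) : Bool :=
  decide (i0 < W.F.P.n) && W.F.P.real i0 && !W.F.P.real (W.F.P.φ (W.F.P.α i0)) &&
    W.nq5 i0 && W.nq5 i1 && W.nq5 i2 && W.nq5 i3 && W.nq5 i4 && W.nq5 i5 &&
    decide (W.nx5 i5 = i0) && W.fn5 i1 &&
    W.pt5 E (W.F.P.α i1) && W.pt5 E i0 &&
    ce5 E (W.F.P.l (W.F.P.φ i2)) (W.F.P.l (W.F.P.φ i1)) &&
    ce5 E (W.F.P.l (W.F.P.φ i3)) (W.F.P.l (W.F.P.φ i1)) &&
    cl5 E (W.F.P.l (W.F.P.φ i4)) (W.F.P.l (W.F.P.φ i1)) &&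
    cl5 E (W.F.P.l (W.F.P.φ i5)) (W.F.P.l (W.F.P.φ i1)) &&
    cl5 E (W.F.P.l (W.F.P.φ i0)) (W.F.P.l (W.F.P.φ i1))

/-- kind 9 at the dart `i` -/
def WF.kn5 (W : WF) (E : List (List (ℕ × ℕ × Bool))) (i : ℕ) : Bool :=
  W.k95 E i (W.nx5 i) (W.nx5 (W.nx5 i)) (W.nx5 (W.nx5 (W.nx5 i)))
    (W.nx5 (W.nx5 (W.nx5 (W.nx5 i)))) (W.nx5 (W.nx5 (W.nx5 (W.nx5 (W.nx5 i)))))

/-- kind 10: the four real darts `a1, …, a4` at a vertex, a gap between `a4` and `a1`; `b` and `c` = the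
fourth darts at the ends of `a2` and `a3` -/
def WF.kt5 (W : WF) (E : List (List (ℕ × ℕ × Bool))) (a1 a2 a3 a4 b c : ℕ) : Bool :=
  decide (a4 < W.F.P.n) && W.F.P.real a4 && !W.F.P.real (W.F.P.φ (W.F.P.α a4)) &&
    W.nq5 a4 && W.nq5 a1 && W.nq5 a2 && W.nq5 a3 && decide (W.nx5 a3 = a4) &&
    W.pt5 E a2 && W.pt5 E a4 && W.F.P.real (W.F.P.φ a3) &&
    W.nq5 (W.F.P.φ a2) && W.nq5 b && decide (W.nx5 b = W.F.P.α (W.F.P.φ a3)) &&
    W.nq5 (W.F.P.φ a3) && W.nq5 c && decide (W.nx5 c = W.F.P.α (W.F.P.φ a4)) &&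
    decide (W.F.P.α (W.F.P.φ a4) ≠ W.F.P.φ a4) &&
    ce5 E (W.F.P.l (W.F.P.φ a1)) (W.F.P.l a4) && ce5 E (W.F.P.l (W.F.P.φ a2)) (W.F.P.l a4) &&
    ce5 E (W.F.P.l (W.F.P.φ a3)) (W.F.P.l a4) && ce5 E (W.F.P.l (W.F.P.φ a4)) (W.F.P.l a4) &&
    cl5 E (W.F.P.l (W.F.P.φ b)) (W.F.P.l a4) && cl5 E (W.F.P.l (W.F.P.φ c)) (W.F.P.l a4)

/-- kind 10 at the dart `i` -/
def WF.kz5 (W : WF) (E : List (List (ℕ × ℕ × Bool))) (i : ℕ) : Bool :=
  W.kt5 E (W.nx5 i) (W.nx5 (W.nx5 i)) (W.nx5 (W.nx5 (W.nx5 i))) i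
    (W.nx5 (W.F.P.φ (W.nx5 (W.nx5 i)))) (W.nx5 (W.F.P.φ (W.nx5 (W.nx5 (W.nx5 i)))))

/-- the kinds at any vertex -/
def WF.ka5 (W : WF) (K : List ℕ) (E : List (List (ℕ × ℕ × Bool))) : Bool :=
  (decide (K.getD 0 0 = 0) && W.k05 E (K.getD 1 0)) ||
  (decide (K.getD 0 0 = 5) && W.k55 E (K.getD 1 0)) ||
  (decide (K.getD 0 0 = 6) && W.k65 E (K.getD 1 0)) ||
  (decide (K.getD 0 0 = 8) && W.k85 E (K.getD 1 0 % 256) (K.getD 1 0 / 256 % 256)
    (K.getD 1 0 / 65536 % 256)) ||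
  (decide (K.getD 0 0 = 9) && W.kn5 E (K.getD 1 0)) ||
  (decide (K.getD 0 0 = 10) && W.kz5 E (K.getD 1 0))

/-- the kinds at a centre -/
def WF.kk5 (W : WF) (t : ℕ) (E : List (List (ℕ × ℕ × Bool))) (i j : ℕ) : Bool :=
  (decide (t = 1) && W.k15 E i j (W.F.P.φ (W.F.P.α j))) || (decide (t = 2) && W.k25 E i j) ||
    (decide (t = 3) && W.k35 E i j (W.F.P.φ (W.F.P.α j))) ||
    (decide (t = 4) && W.k45 E i j (W.F.P.φ (W.F.P.α j))) ||
    (decide (t = 7) && W.k75 E i (W.nx5 i) (W.nx5 (W.nx5 i)))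

/-- the conditions for an entry of the bound 5: the certificate is `[t, i]` with a dart `i` for the
kinds 0, 5, 6, 9, 10, `[8, e + 256 i + 65536 j]` with darts or `[t, j]` with a spoke `j` -/
def WF.ok5 (W : WF) (E : List ℕ × List (List (ℕ × ℕ × Bool))) : Bool :=
  W.ka5 E.1 E.2 ||
  (decide (E.1.getD 1 0 < W.Z.Q.ns) && W.ac (W.Z.ca (E.1.getD 1 0)) &&
    decide (W.Z.Q.nf 0 (E.1.getD 1 0) < W.F.P.n) &&
    W.kk5 (E.1.getD 0 0) E.2 (W.Z.Q.nf 0 (E.1.getD 1 0))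
      (W.F.P.φ (W.F.P.α (W.Z.Q.nf 0 (E.1.getD 1 0)))))

/-- a list of surely different labels -/
def WF.di5 (W : WF) (D : List ℕ) : Bool :=
  allN D.length fun i => decide (D.getD i 0 < W.F.O.m) &&
    allN i fun j => W.F.ne (D.getD j 0) (D.getD i 0)

/-- the static conditions for the gap arcs and the entries of the bound 5 -/
def WF.chkB (W : WF) : Bool :=
  gchk W.F.gt W.F.P W.F.O.x W.F.O.m W.off &&
    W.F.gt.all (fun p => W.hub (W.F.P.l (W.F.P.φ p.1))) &&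
    (W.F.D5.all W.di5 && W.F.p5.all W.ok5)

variable {D V : Type} [Fintype D] [DecidableEq V] {Δ : ℕ} {S : St D V} {L : D → Bool}
  {w : D → ℕ} {P : Pa} {f : ℕ → D} {g : ℕ → V}

/-- a virtual ring dart `i` which ends at the hub; `i'` is the only ring dart which starts at this
hub: different colours at the ends of the arc give an outer real dart with different colours in a
triangle at the hub -/
theorem arc_dart (e : Em P S f g) (G : P.Good) (hS : IsStar S) (wf : Wf Δ S L w) {i i' : ℕ}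
    (hi : i < P.n) (ri : P.α i = i)
    (hz : S.M.v (S.M.α (f i)) ∉ S.A)
    (huniq : ∀ j < P.n, P.α j = j → S.M.v (f j) = S.M.v (S.M.α (f i)) → j = i')
    {s : V → Bool} (hc : s (S.M.v (f i)) ≠ s (S.M.v (S.M.α (f i')))) :
    ∃ x, OU P f x ∧ S.real x = true ∧ s (S.M.v x) ≠ s (S.M.v (S.M.α x)) ∧
      S.M.v (S.M.φ (S.M.φ x)) = S.M.v (S.M.α (f i)) := by
  classical
  by_contra hna
  have pe : PE P S f g := ⟨e, G, wf.real_α⟩
  let τ : D → D := fun h => S.M.α (S.M.φ (S.M.φ h))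
  have vτ : ∀ h, S.M.v (τ h) = S.M.v h := fun h => S.M.vφ2 h
  have τσ : ∀ x, τ (S.M.σ x) = x := fun x => by
    show S.M.α (S.M.φ (S.M.φ (S.M.φ (S.M.α x)))) = x
    rw [S.M.φ3, S.M.αα]
  have vk : ∀ k, S.M.v (τ^[k] (S.M.α (f i))) = S.M.v (S.M.α (f i)) := by
    intro k
    induction k with
    | zero => rfl
    | succ k ih => rw [Function.iterate_succ_apply', vτ, ih]
  have τσk : ∀ (m : ℕ) x, τ^[m] (S.M.σ^[m] x) = x := by
    intro m
    induction m with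
    | zero => intro x; rfl
    | succ m ih =>
      intro x
      rw [Function.iterate_succ_apply, Function.iterate_succ_apply' S.M.σ, τσ, ih]
  -- a dart of the patch in the orbit
  have hex : ∃ k, ∃ j < P.n, f j = τ^[k] (S.M.α (f i)) := by
    have h1 : S.M.v (f (P.φ i)) = S.M.v (S.M.α (f i)) := by
      rw [← e.hφ i hi, S.M.vφ]
    obtain ⟨m, hm⟩ := S.M.σ_orbit h1
    refine ⟨m, P.φ i, G.φlt i hi, ?_⟩
    rw [← hm, τσk]
  obtain ⟨k, hk, hmin⟩ : ∃ k, (∃ j < P.n, f j = τ^[k] (S.M.α (f i))) ∧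
      ∀ m < k, OU P f (τ^[m] (S.M.α (f i))) := by
    refine ⟨Nat.find hex, Nat.find_spec hex, fun m hm j hj hj' => Nat.find_min hex hm ⟨j, hj, hj'⟩⟩
  have inv : ∀ m ≤ k, s (S.M.v (S.M.α (τ^[m] (S.M.α (f i))))) = s (S.M.v (f i)) := by
    intro m
    induction m with
    | zero =>
      intro _
      show s (S.M.v (S.M.α (S.M.α (f i)))) = _
      rw [S.M.αα]
    | succ m ih =>
      intro hm
      have h2 := ih (by omega)
      have ho := hmin m (by omega)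
      obtain ⟨a1, a2, a3, a4⟩ := hub_virt hS wf hz (vk m)
      have ho1 := pe.ouφ ho
      have heq : s (S.M.v (S.M.φ (τ^[m] (S.M.α (f i))))) =
          s (S.M.v (S.M.α (S.M.φ (τ^[m] (S.M.α (f i)))))) := by
        by_contra hne
        exact hna ⟨_, ho1, a2, hne, by rw [S.M.φ3]; exact vk m⟩
      rw [Function.iterate_succ_apply']
      show s (S.M.v (S.M.α (S.M.α (S.M.φ (S.M.φ _))))) = _
      rw [S.M.αα, S.M.vφ, ← heq, S.M.vφ, h2]
  obtain ⟨j, hj, hj'⟩ := hk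
  have rj : P.α j = j := by
    by_contra hne
    have h1 := e.hα j hj hne
    rcases Nat.eq_zero_or_pos k with h0 | h0
    · rw [h0] at hj'
      have h2 : f j = S.M.α (f i) := hj'
      rw [h2, S.M.αα] at h1
      have h3 := e.inj i hi _ (G.αlt j hj) h1
      have h4 := G.αα j hj
      rw [← h3, ri] at h4
      rw [← h4] at h2
      exact S.M.αne _ h2.symm
    · obtain ⟨m, rfl⟩ : ∃ m, k = m + 1 := ⟨k - 1, by omega⟩
      rw [Function.iterate_succ_apply'] at hj'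
      rw [hj'] at h1
      have h2 : S.M.φ (S.M.φ (τ^[m] (S.M.α (f i)))) = f (P.α j) := by
        rw [← h1]
        show _ = S.M.α (S.M.α _)
        rw [S.M.αα]
      exact pe.ouφ (pe.ouφ (hmin m (by omega))) _ (G.αlt j hj) h2.symm
  have hji := huniq j hj rj (by rw [hj', vk])
  have h5 := inv k le_rfl
  rw [← hj', hji] at h5
  exact hc h5.symm

/-- THE BONUS -/
theorem oc_gap (e : Em P S f g) (G : P.Good) (hS : IsStar S) (wf : Wf Δ S L w) {X : OD}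
    (hro : ∀ i < P.n, X.rg P i = true → ∀ j < P.n, f j ≠ S.M.α (f i))
    (hr : ∀ i < P.n, P.α i = i → P.real i = true → X.x ≤ P.l i ∧ P.l i < X.m ∧
      X.x ≤ P.l (P.φ i) ∧ P.l (P.φ i) < X.m)
    {T : List (ℕ × ℕ × ℕ)} {ex : ℕ → ℕ → Bool} (hB : gchk T P X.x X.m ex = true)
    (hb : ∀ p ∈ T, g (P.l (P.φ p.1)) ∉ S.A ∧
      ∀ j < P.n, g (P.l j) = g (P.l (P.φ p.1)) → P.l j = P.l (P.φ p.1))
    (hex : ∀ p ∈ T, ∀ j < P.n, P.α j = j → P.real j = true →
      (ex (P.l j) (P.l (P.φ p.1)) = true → Off S (g (P.l j)) (g (P.l (P.φ p.1)))) ∧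
      (ex (P.l (P.φ j)) (P.l (P.φ p.1)) = true →
        Off S (g (P.l (P.φ j))) (g (P.l (P.φ p.1)))))
    (s : V → Bool) (c : ℕ) (hc : ∀ a, X.x ≤ a → a < X.m → c.testBit a = s (g a)) :
    X.rr P c + gbon P c T ≤ oc S P f s := by
  classical
  have rα := wf.real_α
  have : Nonempty D := ⟨f 0⟩
  unfold gchk at hB
  simp only [Bool.and_eq_true, Bool.or_eq_true, decide_eq_true_eq, List.all_eq_true, allN_iff,
    Bool.not_eq_true'] at hB
  obtain ⟨hB, hN⟩ := hB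
  set A := T.filter fun p => gcr P c p with hA
  have hAN : A.Nodup := (List.Nodup.of_map _ hN).filter _
  have hAm : ∀ p ∈ A, p ∈ T ∧ gcr P c p = true := fun p hp => List.mem_filter.1 hp
  -- the darts
  have h1 : ∀ p ∈ A, ∃ x, OU P f x ∧ S.real x = true ∧ s (S.M.v x) ≠ s (S.M.v (S.M.α x)) ∧
      S.M.v (S.M.φ (S.M.φ x)) = g (P.l (P.φ p.1)) := by
    intro p hp
    obtain ⟨hp, hg⟩ := hAm p hp
    obtain ⟨⟨⟨⟨⟨⟨⟨⟨a1, a2⟩, a3⟩, a5⟩, a6⟩, a7⟩, a8⟩, a9⟩, a10⟩ := hB p hp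
    have ev : S.M.v (S.M.α (f p.1)) = g (P.l (P.φ p.1)) := by
      rw [← S.M.vφ, e.hφ _ a1, e.hl _ (G.φlt _ a1)]
    have ev' : S.M.v (S.M.α (f p.2.1)) = g (P.l (P.φ p.2.1)) := by
      rw [← S.M.vφ, e.hφ _ a2, e.hl _ (G.φlt _ a2)]
    obtain ⟨b1, b2⟩ := hb p hp
    have := arc_dart e G hS wf (i' := p.2.1) a1 a3 (by rw [ev]; exact b1)
      (fun j hj hα hv => ?_) (s := s) ?_
    · rw [ev] at this; exact this
    · rw [ev, e.hl j hj] at hv
      rcases a5 j hj with (h | h) | h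
      · exact absurd hα h
      · exact absurd (b2 j hj hv) h
      · exact h
    · rw [ev', e.hl _ a1, ← hc _ a6 a7, ← hc _ a8 a9]
      unfold gcr at hg
      rwa [bne_iff_ne] at hg
  choose! x x1 x2 x3 x4 using h1
  have xinj : ∀ p ∈ A, ∀ q ∈ A, x p = x q → p = q := by
    intro p hp q hq h
    have h5 := (x4 p hp).symm.trans ((congrArg (fun t => S.M.v (S.M.φ (S.M.φ t))) h).trans (x4 q hq))
    obtain ⟨hp', -⟩ := hAm p hp
    obtain ⟨hq', -⟩ := hAm q hq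
    have h6 := (hb q hq').2 _ (G.φlt _ (hB p hp').1.1.1.1.1.1.1.1) h5
    exact List.inj_on_of_nodup_map hN hp' hq' h6
  -- the darts whose reversal is in the patch
  set I1 := A.toFinset.filter fun p => ∃ j < P.n, f j = S.M.α (x p) with hI1
  set I2 := A.toFinset.filter fun p => ¬ ∃ j < P.n, f j = S.M.α (x p) with hI2
  have hcard : I1.card + I2.card = A.length := by
    rw [hI1, hI2, Finset.card_filter_add_card_filter_not, List.toFinset_card_of_nodup hAN]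
  have h2 : ∀ p ∈ I1, ∃ j < P.n, f j = S.M.α (x p) := fun p hp => (Finset.mem_filter.1 hp).2
  choose! y y1 y2 using h2
  have yA : ∀ p ∈ I1, p ∈ A := fun p hp => List.mem_toFinset.1 (Finset.mem_filter.1 hp).1
  have y3 : ∀ p ∈ I1, P.α (y p) = y p ∧ P.real (y p) = true ∧ OD.crs P c (y p) = true ∧
      p.2.2.testBit (y p) = true := by
    intro p hp
    have hpA := yA p hp
    obtain ⟨hp', hg⟩ := hAm p hpA
    have hj := y1 p hp
    have e1 := y2 p hp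
    have e2 : S.M.α (f (y p)) = x p := by rw [e1, S.M.αα]
    have r1 : P.α (y p) = y p := by
      by_contra hne
      have := e.hα _ hj hne
      rw [e2] at this
      exact x1 p hpA _ (G.αlt _ hj) this.symm
    have r2 : P.real (y p) = true := by
      rw [← e.hr _ hj, e1, rα]; exact x2 p hpA
    have v1 : S.M.v (S.M.α (x p)) = g (P.l (y p)) := by rw [← e1, e.hl _ hj]
    have v2 : S.M.v (x p) = g (P.l (P.φ (y p))) := by
      rw [← e2, ← S.M.vφ, e.hφ _ hj, e.hl _ (G.φlt _ hj)]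
    obtain ⟨l1, l2, l3, l4⟩ := hr _ hj r1 r2
    refine ⟨r1, r2, ?_, ?_⟩
    · have h3 := x3 p hpA
      rw [v1, v2, ← hc _ l1 l2, ← hc _ l3 l4] at h3
      unfold OD.crs
      rw [bne_iff_ne]
      exact fun h => h3 h.symm
    · obtain ⟨⟨⟨⟨⟨⟨⟨⟨a1, a2⟩, a3⟩, a5⟩, a6⟩, a7⟩, a8⟩, a9⟩, a10⟩ := hB p hp'
      obtain ⟨o1, o2⟩ := hex p hp' _ hj r1 r2
      have o3 := inC_off hS wf (hb p hp').1 (x2 p hpA) (Or.inr (Or.inr (x4 p hpA)))
      rw [v1, v2] at o3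
      rcases a10 _ hj with (((h | h) | h) | h) | h
      · exact absurd r1 h
      · rw [r2] at h; exact absurd h (by simp)
      · exact h
      · exact absurd (o1 h) o3.2
      · exact absurd (o2 h) o3.1
  have c1 : I1.card ≤ gnum1 P c T := by
    rw [gnum1_eq, ← hA]
    rw [← List.toFinset_card_of_nodup (hAN.filter _)]
    refine Finset.card_le_card fun p hp => ?_
    obtain ⟨-, -, k3, k4⟩ := y3 p hp
    rw [List.mem_toFinset, List.mem_filter]
    exact ⟨yA p hp, gex_iff (y1 p hp) k4 k3⟩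
  have c2 : I1.card ≤ gnr P c (gmsk P c T) := by
    rw [gnr_eq]
    refine Finset.card_le_card_of_injOn y (fun p hp => ?_) (fun p hp q hq h => ?_)
    · obtain ⟨-, -, k3, k4⟩ := y3 p hp
      obtain ⟨hp', hg⟩ := hAm p (yA p hp)
      rw [Finset.mem_coe, Finset.mem_filter, Finset.mem_range]
      exact ⟨y1 p hp, by rw [gmsk_bit P c T hp' hg k4, k3]; rfl⟩
    · have h3 := y2 p hp
      have h4 : f (y p) = f (y q) := congrArg f h
      rw [h3, y2 q hq] at h4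
      exact xinj p (yA p hp) q (yA q hq) (S.M.αinj h4)
  -- the cut darts
  let Tc : Finset D := Finset.univ.filter fun d => OU P f d ∧ S.real d = true ∧
    s (S.M.v d) ≠ s (S.M.v (S.M.α d))
  have hT : oc S P f s = Tc.card := by
    unfold oc
    rw [Finset.card_filter]
    refine Finset.sum_congr rfl fun d _ => ?_
    by_cases hd : ∃ i < P.n, f i = d
    · rw [if_pos hd, if_neg]
      rintro ⟨h3, -⟩
      obtain ⟨i, hi, h4⟩ := hd
      exact h3 i hi h4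
    · rw [if_neg hd]
      have h3 : OU P f d := fun i hi h4 => hd ⟨i, hi, h4⟩
      by_cases h4 : S.real d = true ∧ s (S.M.v d) ≠ s (S.M.v (S.M.α d))
      · rw [if_pos h4, if_pos ⟨h3, h4⟩]
      · rw [if_neg h4, if_neg (fun h5 => h4 h5.2)]
  let R : Finset ℕ := (Finset.range P.n).filter fun i => (X.rg P i && P.real i && OD.crs P c i) = true
  have hR : X.rr P c = R.card := by
    unfold OD.rr
    rw [sumN_eq, Finset.card_filter]
  let Bt : Finset D := R.image fun i => S.M.α (f i)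
  have hBt : Bt.card = R.card := Finset.card_image_of_injOn fun i hi j hj h => by
    have hi' := Finset.mem_range.1 (Finset.mem_filter.1 hi).1
    have hj' := Finset.mem_range.1 (Finset.mem_filter.1 hj).1
    exact e.inj i hi' j hj' (S.M.αinj h)
  let Y : Finset D := I2.image x ∪ (I2.image fun p => S.M.α (x p))
  have i2A : ∀ p ∈ I2, p ∈ A := fun p hp => List.mem_toFinset.1 (Finset.mem_filter.1 hp).1
  have i2o : ∀ p ∈ I2, OU P f (S.M.α (x p)) := fun p hp j hj h =>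
    (Finset.mem_filter.1 hp).2 ⟨j, hj, h⟩
  have yY : ∀ d, d ∈ Y ↔ ∃ p ∈ I2, d = x p ∨ d = S.M.α (x p) := by
    intro d
    show d ∈ I2.image x ∪ (I2.image fun p => S.M.α (x p)) ↔ _
    rw [Finset.mem_union, Finset.mem_image, Finset.mem_image]
    constructor
    · rintro (⟨p, h3, h4⟩ | ⟨p, h3, h4⟩)
      · exact ⟨p, h3, Or.inl h4.symm⟩
      · exact ⟨p, h3, Or.inr h4.symm⟩
    · rintro ⟨p, h3, h4 | h4⟩
      · exact Or.inl ⟨p, h3, h4.symm⟩
      · exact Or.inr ⟨p, h3, h4.symm⟩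
  have Yo : ∀ d ∈ Y, OU P f d ∧ OU P f (S.M.α d) ∧ S.real d = true ∧
      s (S.M.v d) ≠ s (S.M.v (S.M.α d)) := by
    intro d hd
    obtain ⟨p, h3, rfl | rfl⟩ := (yY d).1 hd
    · exact ⟨x1 p (i2A p h3), i2o p h3, x2 p (i2A p h3), x3 p (i2A p h3)⟩
    · refine ⟨i2o p h3, by rw [S.M.αα]; exact x1 p (i2A p h3), by rw [rα]; exact x2 p (i2A p h3), ?_⟩
      rw [S.M.αα]
      exact (x3 p (i2A p h3)).symm
  have Yα : ∀ d ∈ Y, S.M.α d ∈ Y := by
    intro d hd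
    obtain ⟨p, h3, rfl | rfl⟩ := (yY d).1 hd
    · exact (yY _).2 ⟨p, h3, Or.inr rfl⟩
    · exact (yY _).2 ⟨p, h3, Or.inl (S.M.αα _)⟩
  have Ye : ((Y.card : ℕ) : ZMod 2) = 0 := by
    have := Finset.sum_involution (s := Y) (f := fun _ => (1 : ZMod 2)) (fun d _ => S.M.α d)
      (fun d _ => by decide) (fun d _ _ => S.M.αne d) (fun d hd => Yα d hd)
      (fun d _ => S.M.αα d)
    rw [Finset.sum_const, nsmul_eq_mul, mul_one] at this
    exact this
  have Ye2 : 2 ∣ Y.card := (ZMod.natCast_eq_zero_iff _ _).1 Ye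
  have Yc : I2.card ≤ Y.card := by
    have h3 : (I2.image x).card = I2.card := Finset.card_image_of_injOn fun p hp q hq h =>
      xinj p (i2A p hp) q (i2A q hq) h
    rw [← h3]
    exact Finset.card_le_card Finset.subset_union_left
  have hsub : Bt ∪ Y ⊆ Tc := by
    intro d hd
    rcases Finset.mem_union.1 hd with hd | hd
    · obtain ⟨i, h3, rfl⟩ := Finset.mem_image.1 hd
      obtain ⟨h4, h5⟩ := Finset.mem_filter.1 h3
      have hi := Finset.mem_range.1 h4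
      rw [Bool.and_eq_true, Bool.and_eq_true] at h5
      obtain ⟨⟨k1, k2⟩, k3⟩ := h5
      have ha : P.α i = i := by
        unfold OD.rg at k1
        rw [Bool.and_eq_true] at k1
        exact of_decide_eq_true k1.1
      have r1 := hr i hi ha k2
      refine Finset.mem_filter.2 ⟨Finset.mem_univ _, hro i hi k1, ?_, ?_⟩
      · rw [rα, e.hr i hi]; exact k2
      · rw [S.M.αα, e.hl i hi, ← S.M.vφ, e.hφ i hi, e.hl _ (G.φlt i hi)]
        unfold OD.crs at k3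
        rw [hc _ r1.1 r1.2.1, hc _ r1.2.2.1 r1.2.2.2, bne_iff_ne] at k3
        exact fun h9 => k3 h9.symm
    · obtain ⟨h3, h4, h5, h6⟩ := Yo d hd
      exact Finset.mem_filter.2 ⟨Finset.mem_univ _, h3, h5, h6⟩
  have hdis : Disjoint Bt Y := by
    rw [Finset.disjoint_left]
    intro d hd hd'
    obtain ⟨i, h3, rfl⟩ := Finset.mem_image.1 hd
    have hi := Finset.mem_range.1 (Finset.mem_filter.1 h3).1
    exact (Yo _ hd').2.1 i hi (S.M.αα _).symm
  have h9 := Finset.card_le_card hsub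
  rw [Finset.card_union_of_disjoint hdis, hBt, ← hR, ← hT] at h9
  have hgn : gnum P c T = A.length := by rw [gnum_eq]
  unfold gbon
  rw [hgn]
  obtain ⟨t, ht⟩ := Ye2
  have c3 : I1.card ≤ if gnum1 P c T = 0 then 0 else min (gnum1 P c T) (gnr P c (gmsk P c T)) := by
    split_ifs with h11
    · omega
    · exact le_min c1 c2
  omega

/-- real cuts: darts of the patch and the outer darts -/
theorem inS_oc (e : Em P S f g) (G : P.Good) (wf : Wf Δ S L w) {m : ℕ}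
    (hm : ∀ i < P.n, P.real i = true → P.l i < m ∧ P.l (P.φ i) < m)
    (s : V → Bool) (c : ℕ) (hc : ∀ a < m, c.testBit a = s (g a)) :
    FC6.OD.inS P c + oc S P f s = 2 * S.rc s := by
  classical
  rw [← St.rc_two wf.real_α s, FC6.RH.split e.inj, add_comm]
  congr 1
  unfold FC6.OD.inS
  rw [sumN_eq]
  refine Finset.sum_congr rfl fun i hi => ?_
  have hi := Finset.mem_range.1 hi
  have v1 : S.M.v (S.M.α (f i)) = g (P.l (P.φ i)) := by
    rw [← S.M.vφ, e.hφ i hi, e.hl _ (G.φlt i hi)]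
  rw [e.hr i hi, e.hl i hi, v1]
  by_cases hr : P.real i = true
  · obtain ⟨h1, h2⟩ := hm i hi hr
    rw [hc _ h1, hc _ h2, hr]
    simp [bne_iff_ne]
  · simp [hr]

/-- the bound for the cuts -/
theorem WF.Cx.gb {W : WF} {d : ℕ → D} (X : W.Cx Δ S L w d f g) (hb : W.chkB = true)
    (s : V → Bool) (c : ℕ) (hc : ∀ a < W.F.O.m, c.testBit a = s (g a)) :
    FC6.OD.inS W.F.P c + gbn W.F.P W.F.O W.F.gt c ≤ 2 * S.rc s := by
  have G := X.G
  have wf := X.ok.toWf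
  unfold WF.chkB at hb
  rw [Bool.and_eq_true, Bool.and_eq_true, List.all_eq_true] at hb
  replace hb := hb.1
  rw [← inS_oc X.eP G wf (m := W.F.O.m) (fun i hi hr => by
    have h1 := (OD.stat1 X.F.st hi).r hr
    exact ⟨h1.1, h1.2⟩) s c hc]
  refine Nat.add_le_add_left ?_ _
  unfold gbn
  split_ifs with h0
  · exact Nat.zero_le _
  refine oc_gap X.eP G X.hS wf (ex := W.off) ?_ (fun i hi ha hr => ?_) hb.1
    (fun p hp => X.hub (hb.2 p hp)) (fun p hp j hj ha hr => ⟨fun h => X.off h, fun h => X.off h⟩) s c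
    (fun a _ ha => hc a ha)
  · intro i hi hr j hj hj'
    obtain ⟨h1, h2⟩ := X.C.rg i hi hr
    have e := X.eP
    have hrj : W.F.P.real j = true := by
      rw [← e.hr j hj, hj', X.ok.real_α, e.hr i hi]; exact h1
    rcases h2 j hj with h3 | h3 | h3
    · rw [hrj] at h3; exact absurd h3 (by simp)
    · refine X.dis (X.lnl hj) (X.lnl (G.φlt i hi)) h3 ?_
      rw [← e.hl j hj, ← e.hl _ (G.φlt i hi), hj', ← e.hφ i hi, S.M.vφ]
    · refine X.dis (X.lnl (G.φlt j hj)) (X.lnl hi) h3 ?_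
      rw [← e.hl i hi, ← e.hl _ (G.φlt j hj), ← e.hφ j hj, S.M.vφ, hj', S.M.αα]
  · have s1 := OD.stat1 X.F.st hi
    have r1 := s1.ring ha
    have r2 := s1.r hr
    exact ⟨r1.2.2.2.1, r2.1, r1.2.2.2.2, r2.2⟩

end Pool.FC7
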