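import Pool.Agent.FC7.Mcs

/-! # Chords which cut off an ear of a face

The virtual dart `a` of a minimal counterexample is made real; `φ a`, `φ (φ a)` are real, the corner
`v (φ (φ a))` has no units on this face. -/

open Finset

namespace Pool.FC7

open Pool.FC6 Pool.FC6.St

variable {D V : Type} [Fintype D] [DecidableEq V] {S : St D V} {L : D → Bool} {w : D → ℕ} {Δ : ℕ}

/-- the weight of a vertex: real edges, units and labels -/
def wgt (S : St D V) (w : D → ℕ) (x : V) : ℕ :=
  ∑ d, if S.M.v d = x then (if S.real d = true then 1 else 0) + S.u d + w d else 0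

open Classical in
/-- one more real edge, other units -/
noncomputable def wE (S : St D V) (a : D) (u' : D → ℕ) : St D V where
  M := S.M
  A := S.A
  real := fun d => S.real d || decide (d = a) || decide (d = S.M.α a)
  u := u'

variable {a : D} {u' : D → ℕ}

theorem wE_real {d : D} : (wE S a u').real d = true ↔ S.real d = true ∨ d = a ∨ d = S.M.α a := by
  classical
  show (S.real d || decide (d = a) || decide (d = S.M.α a)) = true ↔ _
  simp [or_assoc]

theorem wE_of {d : D} (h : S.real d = true) : (wE S a u').real d = true := wE_real.2 (Or.inl h)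

theorem wE_test {c : V → Bool} {h : D → ℝ} (ht : S.Test c h) : (wE S a u').Test c h := by
  refine ⟨ht.1, fun d hd => ht.2 d ?_⟩
  rcases hd with hd | hd
  · left
    by_contra hn
    have : S.real d = true := by simpa using hn
    rw [wE_of this] at hd
    exact absurd hd (by decide)
  · exact Or.inr hd

theorem wE_cl {X : Type} {t : D → X} (ht : S.Cl t) : (wE S a u').Cl t := by
  refine ⟨ht.1, fun d hd => ht.2 d ?_⟩
  by_contra hn
  have : S.real d = true := by simpa using hn
  rw [wE_of this] at hd
  exact absurd hd (by decide)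

/-- the restriction of a solution -/
theorem wE_sol {c : V → Bool} (hs : Sol (wE S a u') L c)
    (rα : ∀ d, S.real (S.M.α d) = S.real d) (h1 : S.M.v a ∈ S.A) (h2 : S.M.v (S.M.α a) ∈ S.A)
    (hrc : ∀ s : V → Bool, (∃ x ∈ S.A, s x = true) → (∃ x ∈ S.A, s x = false) → 1 ≤ S.rc s)
    (hq : ∀ d, S.u d ≠ 0 → ∃ e, u' e ≠ 0 ∧ S.sc.r e d) : Sol S L c := by
  have hbr : ∀ {d}, Br S c d → Br (wE S a u') c d := fun hd => ⟨wE_of hd.1, hd.2⟩
  have hvi : ∀ {d}, Vi (wE S a u') c d → Vi S c d := by
    rintro d ⟨e, he, hh⟩
    rcases wE_real.1 he.1 with h3 | h3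
    · exact ⟨e, ⟨h3, he.2⟩, fun f hf => hh f (wE_test hf)⟩
    · have hc : c (S.M.v a) ≠ c (S.M.v (S.M.α a)) := by
        have h4 : c (S.M.v e) ≠ c (S.M.v (S.M.α e)) := he.2
        rcases h3 with rfl | rfl
        · exact h4
        · rw [S.M.αα] at h4
          exact h4.symm
      have h5 : 1 ≤ S.rc c := by
        apply hrc
        · cases h6 : c (S.M.v a)
          · refine ⟨_, h2, ?_⟩
            rw [h6] at hc
            simpa using hc.symm
          · exact ⟨_, h1, h6⟩
        · cases h6 : c (S.M.v a)
          · exact ⟨_, h1, h6⟩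
          · refine ⟨_, h2, ?_⟩
            rw [h6] at hc
            simpa using hc.symm
      obtain ⟨e0, h6⟩ : ∃ e0, S.real e0 = true ∧ c (S.M.v e0) = true ∧
          c (S.M.v (S.M.α e0)) = false := by
        by_contra hn
        push Not at hn
        have : S.rc c = 0 := by
          unfold St.rc
          exact Finset.sum_eq_zero fun d _ => if_neg fun h7 => hn d h7.1 h7.2.1 h7.2.2
        omega
      have hb : Br S c e0 := ⟨h6.1, by rw [h6.2.1, h6.2.2]; decide⟩
      exact ⟨e0, hb, fun f hf => (hs.con f (wE_test hf) _ _ (hbr hb) he).trans (hh f (wE_test hf))⟩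
  refine ⟨fun f hf d d' hd hd' => hs.con f (wE_test hf) d d' (hbr hd) (hbr hd'), fun x hx => ?_,
    fun d hd => ?_, fun d hd => ?_⟩
  · obtain ⟨d, h3, h4⟩ := hs.live x hx
    exact ⟨d, h3, hvi h4⟩
  · obtain ⟨e, h3, h4⟩ := hq d hd
    exact vi_cl h4 (hvi (hs.req e h3))
  · rcases hs.lab d hd with h3 | h3
    · exact Or.inl (hvi h3)
    · exact Or.inr (hvi h3)

/-- faces off the ear -/
theorem wE_sc (hb : S.real (S.M.φ a) = true) (hb' : S.real (S.M.φ (S.M.φ a)) = true)
    (rα : ∀ d, S.real (S.M.α d) = S.real d) (ha : S.real a = false) {d e : D}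
    (hd : d ≠ a ∧ d ≠ S.M.φ a ∧ d ≠ S.M.φ (S.M.φ a))
    (he : e ≠ a ∧ e ≠ S.M.φ a ∧ e ≠ S.M.φ (S.M.φ a)) :
    (wE S a u').sc.r d e ↔ S.sc.r d e := by
  classical
  constructor
  · intro h t ht
    exact h t (wE_cl ht)
  · intro h t ht
    let t' : D → Bool := fun x => if x = a ∨ x = S.M.φ a ∨ x = S.M.φ (S.M.φ a) then t (S.M.α a)
      else t x
    have tin : ∀ x, (x = a ∨ x = S.M.φ a ∨ x = S.M.φ (S.M.φ a)) → t' x = t (S.M.α a) :=
      fun x hx => if_pos hx
    have tout : ∀ x, ¬ (x = a ∨ x = S.M.φ a ∨ x = S.M.φ (S.M.φ a)) → t' x = t x :=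
      fun x hx => if_neg hx
    have hra : S.real (S.M.α a) = false := by rw [rα, ha]
    have hcl : S.Cl t' := by
      refine ⟨fun x => ?_, fun x hx => ?_⟩
      · have h1 : (S.M.φ x = a ∨ S.M.φ x = S.M.φ a ∨ S.M.φ x = S.M.φ (S.M.φ a)) ↔
            (x = a ∨ x = S.M.φ a ∨ x = S.M.φ (S.M.φ a)) := by
          constructor
          · rintro (h2 | h2 | h2)
            · exact Or.inr (Or.inr (by rw [← h2, S.M.φ3]))
            · exact Or.inl (S.M.φinj h2)
            · exact Or.inr (Or.inl (S.M.φinj h2))
          · rintro (rfl | rfl | rfl)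
            · exact Or.inr (Or.inl rfl)
            · exact Or.inr (Or.inr rfl)
            · exact Or.inl (S.M.φ3 _)
        by_cases h2 : x = a ∨ x = S.M.φ a ∨ x = S.M.φ (S.M.φ a)
        · rw [tin x h2, tin _ (h1.2 h2)]
        · rw [tout x h2, tout _ (fun h3 => h2 (h1.1 h3))]
          exact ht.1 x
      · by_cases h2 : x = a
        · rw [h2, tin a (Or.inl rfl), tout]
          rintro (h3 | h3 | h3)
          · exact S.M.αne a h3
          · rw [h3, hb] at hra
            exact absurd hra (by decide)
          · rw [h3, hb'] at hra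
            exact absurd hra (by decide)
        · by_cases h3 : x = S.M.α a
          · rw [h3, S.M.αα, tin a (Or.inl rfl), tout]
            rintro (h4 | h4 | h4)
            · exact S.M.αne a h4
            · rw [h4, hb] at hra
              exact absurd hra (by decide)
            · rw [h4, hb'] at hra
              exact absurd hra (by decide)
          · have h4 : (wE S a u').real x = false := by
              by_contra hn
              rcases wE_real.1 (by simpa using hn) with h5 | h5 | h5
              · rw [hx] at h5; exact absurd h5 (by decide)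
              · exact h2 h5
              · exact h3 h5
            have m1 : ¬ (x = a ∨ x = S.M.φ a ∨ x = S.M.φ (S.M.φ a)) := by
              rintro (h5 | h5 | h5)
              · exact h2 h5
              · rw [h5, hb] at hx
                exact absurd hx (by decide)
              · rw [h5, hb'] at hx
                exact absurd hx (by decide)
            have m2 : ¬ (S.M.α x = a ∨ S.M.α x = S.M.φ a ∨ S.M.α x = S.M.φ (S.M.φ a)) := by
              rintro (h5 | h5 | h5)
              · exact h3 (by rw [← h5, S.M.αα])
              · have := rα x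
                rw [h5, hb, hx] at this
                exact absurd this (by decide)
              · have := rα x
                rw [h5, hb', hx] at this
                exact absurd this (by decide)
            rw [tout x m1, tout _ m2]
            exact ht.2 x h4
    have h1 := h t' hcl
    rw [tout d (by tauto), tout e (by tauto)] at h1
    exact h1

end Pool.FC7
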