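import Pool.Agent.FC7.GcA

/-! # One of the two ends of a chord which cuts off an ear is full -/

open Finset

namespace Pool.FC7

open Pool.FC6 Pool.FC6.St

variable {D V : Type} [Fintype D] [DecidableEq V] {S : St D V} {L : D → Bool} {w : D → ℕ} {Δ : ℕ}

theorem sum_shift {f g : D → ℕ} {x1 x2 y1 y2 y3 : D} {a1 a2 c1 c2 c3 : ℕ} [DecidableEq D]
    (h : ∀ d, f d + (if d = x1 then a1 else 0) + (if d = x2 then a2 else 0) =
      g d + (if d = y1 then c1 else 0) + (if d = y2 then c2 else 0) + (if d = y3 then c3 else 0)) :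
    ∑ d, f d + a1 + a2 = ∑ d, g d + c1 + c2 + c3 := by
  have e : ∀ (x : D) (K : ℕ), ∑ d, (if d = x then K else 0) = K := fun x K => by
    rw [Finset.sum_ite_eq' Finset.univ x, if_pos (Finset.mem_univ _)]
  have h1 := Finset.sum_congr (rfl : (Finset.univ : Finset D) = Finset.univ) fun d _ => h d
  simp only [Finset.sum_add_distrib, e] at h1
  exact h1

open Classical in
/-- the chord `a` cuts off the corner `v (φ (φ a))`; its units go to the ends of the chord -/
theorem MC.ear (hΔ : Δ ≤ 6) (h : MC Δ S L w) {a : D} (ha : S.real a = false)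
    (hb : S.real (S.M.φ a) = true) (hb' : S.real (S.M.φ (S.M.φ a)) = true)
    (ur : ∀ d, S.u d ≠ 0 → S.real d = true) {k1 k2 : ℕ}
    (hk : k1 + k2 = S.u (S.M.φ (S.M.φ a)))
    (hA1 : S.M.v a ∈ S.A) (hA2 : S.M.v (S.M.α a) ∈ S.A) (hne : S.M.v a ≠ S.M.v (S.M.α a))
    (hnadj : ∀ r, S.real r = true → S.M.v r = S.M.v a → S.M.v (S.M.α r) ≠ S.M.v (S.M.α a))
    (hfu : ∀ d, S.u d ≠ 0 → S.sc.r a d → 3 ≤ fu S d)
    (s1 : wgt S w (S.M.v (S.M.α a)) + 1 + k1 ≤ Δ) (s2 : wgt S w (S.M.v a) + 1 + k2 ≤ Δ) :
    False := by
  have hW := h.ok.toWf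
  have rα := hW.real_α
  have hra : S.real (S.M.α a) = false := by rw [rα, ha]
  have u0 : ∀ d, S.real d = false → S.u d = 0 := fun d hd => by
    by_contra hn
    rw [ur d hn] at hd
    exact absurd hd (by decide)
  have w0 : ∀ d, S.real d = false → w d = 0 := fun d hd => by
    by_contra hn
    rw [hW.L_real d (hW.w_L d hn)] at hd
    exact absurd hd (by decide)
  obtain ⟨b, hbd⟩ : ∃ b, b = S.M.φ a := ⟨_, rfl⟩
  obtain ⟨b', hbd'⟩ : ∃ b', b' = S.M.φ (S.M.φ a) := ⟨_, rfl⟩
  obtain ⟨q, hq⟩ : ∃ q, q = S.M.φ (S.M.α a) := ⟨_, rfl⟩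
  rw [← hbd] at hb
  rw [← hbd'] at hb' hk
  have vb : S.M.v b = S.M.v (S.M.α a) := by rw [hbd, S.M.vφ]
  have vq : S.M.v q = S.M.v a := by rw [hq, S.M.vφ, S.M.αα]
  have ne1 : a ≠ S.M.α a := fun h0 => S.M.αne a h0.symm
  have n2 : b ≠ a := fun h0 => by rw [h0, ha] at hb; exact absurd hb (by decide)
  have ne3 : b ≠ S.M.α a := fun h0 => by rw [h0, hra] at hb; exact absurd hb (by decide)
  have n4' : b' ≠ a := fun h0 => by rw [h0, ha] at hb'; exact absurd hb' (by decide)
  have ne5 : b' ≠ S.M.α a := fun h0 => by rw [h0, hra] at hb'; exact absurd hb' (by decide)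
  have n6 : b ≠ b' := fun h0 => S.M.φne (S.M.φ a) (by rw [← hbd', ← hbd, h0])
  have n7 : q ≠ a := fun h0 => by
    have h1 : S.M.φ (S.M.φ q) = S.M.α a := by rw [hq, S.M.φ3]
    rw [h0] at h1
    exact ne5 (hbd'.trans h1)
  have n8 : q ≠ S.M.α a := fun h0 => hne (by rw [← vq, h0])
  have n9 : q ≠ b := fun h0 => hne (by rw [← vq, h0, vb])
  have n10 : q ≠ b' := fun h0 => by
    have h1 := hW.real_ne b' hb'
    have h2 : S.M.v (S.M.α b') = S.M.v a := by
      rw [← S.M.vφ b', hbd', S.M.φ3]
    rw [h2, ← h0, vq] at h1
    exact h1 rfl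
  obtain ⟨u', hu'⟩ : ∃ u' : D → ℕ, u' = fun d => (if d = b ∨ d = b' then 0 else S.u d) +
    (if d = S.M.α a then S.u b + k1 else 0) + (if d = q then k2 else 0) := ⟨_, rfl⟩
  have ude : ∀ d, u' d = (if d = b ∨ d = b' then 0 else S.u d) +
    (if d = S.M.α a then S.u b + k1 else 0) + (if d = q then k2 else 0) := fun d => by rw [hu']
  have ua' : u' (S.M.α a) = S.u b + k1 := by
    rw [ude, if_neg (by rintro (h0 | h0); exacts [ne3 h0.symm, ne5 h0.symm]), if_pos rfl,
      if_neg n8.symm, u0 _ hra]
    omega
  have uq : u' q = S.u q + k2 := by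
    rw [ude, if_neg (by rintro (h0 | h0); exacts [n9 h0, n10 h0]), if_neg n8, if_pos rfl]
    omega
  have ub : u' b = 0 := by
    rw [ude, if_pos (Or.inl rfl), if_neg ne3, if_neg n9.symm]
  have ub' : u' b' = 0 := by
    rw [ude, if_pos (Or.inr rfl), if_neg ne5, if_neg n10.symm]
  have uo : ∀ d, d ≠ S.M.α a → d ≠ b → d ≠ b' → d ≠ q → u' d = S.u d := fun d h1 h2 h3 h4 => by
    rw [ude, if_neg (by rintro (h0 | h0); exacts [h2 h0, h3 h0]), if_neg h1, if_neg h4]
    omega
  have scab : S.sc.r a b := fun t ht => by rw [hbd, ht.1]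
  have scab' : S.sc.r a b' := fun t ht => by rw [hbd', ht.1, ht.1]
  have scaa : S.sc.r a (S.M.α a) := fun t ht => (ht.2 a ha).symm
  have scaq : S.sc.r a q := fun t ht => by rw [hq, ht.1]; exact (ht.2 a ha).symm
  have scd : ∀ {d e}, S.sc.r a e → (S.sc.r d e ↔ S.sc.r d b) := fun he =>
    ⟨fun h4 => S.sc.iseqv.trans h4 (S.sc.iseqv.trans (S.sc.iseqv.symm he) scab),
      fun h4 => S.sc.iseqv.trans h4 (S.sc.iseqv.trans (S.sc.iseqv.symm scab) he)⟩
  have hoff : ∀ {d}, d ≠ a → d ≠ b → d ≠ b' → d ≠ a ∧ d ≠ S.M.φ a ∧ d ≠ S.M.φ (S.M.φ a) :=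
    fun h1 h2 h3 => ⟨h1, by rw [← hbd]; exact h2, by rw [← hbd']; exact h3⟩
  have hsc : ∀ {d e}, d ≠ a → d ≠ b → d ≠ b' → e ≠ a → e ≠ b → e ≠ b' →
      ((wE S a u').sc.r d e ↔ S.sc.r d e) := fun h1 h2 h3 h4 h5 h6 =>
    wE_sc (by rw [← hbd]; exact hb) (by rw [← hbd']; exact hb') rα ha (hoff h1 h2 h3)
      (hoff h4 h5 h6)
  -- the units of the faces
  have fu' : ∀ d, d ≠ a → d ≠ b → d ≠ b' → fu (wE S a u') d = fu S d := by
    intro d h1 h2 h3
    unfold fu
    have key := sum_shift (f := fun e => if (wE S a u').sc.r d e then u' e else 0)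
      (g := fun e => if S.sc.r d e then S.u e else 0)
      (x1 := b) (x2 := b') (y1 := S.M.α a) (y2 := q) (y3 := a)
      (a1 := if S.sc.r d b then S.u b else 0) (a2 := if S.sc.r d b then S.u b' else 0)
      (c1 := if S.sc.r d b then S.u b + k1 else 0) (c2 := if S.sc.r d b then k2 else 0)
      (c3 := 0) (fun e => by
        show (if (wE S a u').sc.r d e then u' e else 0) + _ + _ =
          (if S.sc.r d e then S.u e else 0) + _ + _ + _
        rw [ite_self]
        by_cases c1 : e = b
        · rw [c1, ub, if_pos (rfl : b = b), if_neg n6, if_neg ne3, if_neg n9.symm, ite_self]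
          omega
        by_cases c2 : e = b'
        · rw [c2, ub', if_neg n6.symm, if_pos (rfl : b' = b'), if_neg ne5, if_neg n10.symm,
            ite_self]
          by_cases c3 : S.sc.r d b
          · rw [if_pos c3, if_pos ((scd scab').2 c3)]
            omega
          · rw [if_neg c3, if_neg fun h5 => c3 ((scd scab').1 h5)]
        rw [if_neg c1, if_neg c2]
        by_cases c3 : e = S.M.α a
        · have k1' : (wE S a u').sc.r d (S.M.α a) ↔ S.sc.r d b :=
            (hsc h1 h2 h3 ne1.symm ne3.symm ne5.symm).trans (scd scaa)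
          rw [c3, ua', u0 _ hra, if_pos (rfl : S.M.α a = S.M.α a), if_neg n8.symm, ite_self]
          by_cases c3 : S.sc.r d b
          · rw [if_pos (k1'.2 c3), if_pos c3]
            omega
          · rw [if_neg (fun h5 => c3 (k1'.1 h5)), if_neg c3]
        rw [if_neg c3]
        by_cases c4 : e = q
        · have k1' : (wE S a u').sc.r d q ↔ S.sc.r d q :=
            hsc h1 h2 h3 n7 n9 n10
          rw [c4, uq, if_pos (rfl : q = q)]
          by_cases c3 : S.sc.r d b
          · have c5 := (scd scaq).2 c3
            rw [if_pos (k1'.2 c5), if_pos c3, if_pos c5]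
            omega
          · have c5 : ¬ S.sc.r d q := fun h5 => c3 ((scd scaq).1 h5)
            rw [if_neg (fun h5 => c5 (k1'.1 h5)), if_neg c3, if_neg c5]
        rw [if_neg c4, uo e c3 c1 c2 c4]
        by_cases c5 : e = a
        · rw [c5, u0 a ha, ite_self, ite_self]
        · have k1' := hsc h1 h2 h3 c5 c1 c2
          by_cases c6 : S.sc.r d e
          · rw [if_pos (k1'.2 c6), if_pos c6]
          · rw [if_neg (fun h5 => c6 (k1'.1 h5)), if_neg c6])
    split_ifs at key with c0
    · show (∑ e, if (wE S a u').sc.r d e then u' e else 0) = _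
      omega
    · show (∑ e, if (wE S a u').sc.r d e then u' e else 0) = _
      omega
  -- the degrees
  have hdeg : ∀ x, (∑ d, if S.M.v d = x then (if (wE S a u').real d = true then 1 else 0) + u' d +
      w d else 0) + (if S.M.v b' = x then S.u b' else 0) = wgt S w x +
      (if S.M.v a = x then 1 + k2 else 0) + (if S.M.v (S.M.α a) = x then 1 + k1 else 0) := by
    intro x
    have key := sum_shift (f := fun d => if S.M.v d = x then (if (wE S a u').real d = true then 1
        else 0) + u' d + w d else 0)
      (g := fun d => if S.M.v d = x then (if S.real d = true then 1 else 0) + S.u d + w d else 0)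
      (x1 := b) (x2 := b') (y1 := S.M.α a) (y2 := q) (y3 := a)
      (a1 := if S.M.v (S.M.α a) = x then S.u b else 0) (a2 := if S.M.v b' = x then S.u b' else 0)
      (c1 := if S.M.v (S.M.α a) = x then 1 + (S.u b + k1) else 0)
      (c2 := if S.M.v a = x then k2 else 0)
      (c3 := if S.M.v a = x then 1 else 0) (fun d => by
        show (if S.M.v d = x then (if (wE S a u').real d = true then 1 else 0) + u' d + w d
          else 0) + _ + _ = (if S.M.v d = x then (if S.real d = true then 1 else 0) + S.u d + w d
          else 0) + _ + _ + _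
        by_cases c1 : d = b
        · have r1 : (wE S a u').real b = true := wE_of hb
          rw [c1, ub, if_pos (rfl : b = b), if_neg n2, if_neg ne3, if_neg n6, if_neg n9.symm, vb,
            r1, hb]
          split_ifs <;> omega
        by_cases c2 : d = b'
        · have r1 : (wE S a u').real b' = true := wE_of hb'
          rw [c2, ub', if_pos (rfl : b' = b'), if_neg n6.symm, if_neg n4', if_neg ne5,
            if_neg n10.symm, r1, hb']
          split_ifs <;> omega
        rw [if_neg c1, if_neg c2]
        by_cases c3 : d = S.M.α a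
        · have r1 : (wE S a u').real (S.M.α a) = true := wE_real.2 (Or.inr (Or.inr rfl))
          rw [c3, ua', u0 _ hra, w0 _ hra, if_neg ne1.symm, if_neg n8.symm,
            if_pos (rfl : S.M.α a = S.M.α a), r1, hra, if_pos (rfl : true = true),
            if_neg (by decide : ¬ (false = true))]
          split_ifs <;> omega
        rw [if_neg c3]
        by_cases c4 : d = q
        · have r1 : (wE S a u').real q = true ↔ S.real q = true := by
            rw [wE_real]
            tauto
          rw [c4, uq, vq, if_pos (rfl : q = q), if_neg n7]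
          simp only [r1]
          split_ifs <;> omega
        rw [if_neg c4, uo d c3 c1 c2 c4]
        by_cases c5 : d = a
        · have r1 : (wE S a u').real a = true := wE_real.2 (Or.inr (Or.inl rfl))
          rw [c5, u0 a ha, w0 a ha, if_pos (rfl : a = a), r1, ha, if_pos (rfl : true = true),
            if_neg (by decide : ¬ (false = true))]
          split_ifs <;> omega
        · have r1 : (wE S a u').real d = true ↔ S.real d = true := by
            rw [wE_real]
            tauto
          rw [if_neg c5]
          simp only [r1])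
    have key2 : (∑ d, if S.M.v d = x then (if (wE S a u').real d = true then 1 else 0) + u' d +
      w d else 0) + (if S.M.v (S.M.α a) = x then S.u b else 0) +
      (if S.M.v b' = x then S.u b' else 0) = wgt S w x +
      (if S.M.v (S.M.α a) = x then 1 + (S.u b + k1) else 0) + (if S.M.v a = x then k2 else 0) +
      (if S.M.v a = x then 1 else 0) := key
    split_ifs at key2 ⊢ <;> omega
  have wf : Wf Δ (wE S a u') L w :=
    { real_α := fun d => by
        have : (wE S a u').real (S.M.α d) = true ↔ (wE S a u').real d = true := by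
          rw [wE_real, wE_real, rα]
          constructor
          · rintro (h1 | h1 | h1)
            · exact Or.inl h1
            · exact Or.inr (Or.inr (by rw [← h1, S.M.αα]))
            · exact Or.inr (Or.inl (S.M.αinj h1))
          · rintro (h1 | h1 | h1)
            · exact Or.inl h1
            · exact Or.inr (Or.inr (by rw [h1]))
            · exact Or.inr (Or.inl (by rw [h1, S.M.αα]))
        show (wE S a u').real (S.M.α d) = (wE S a u').real d
        cases h1 : (wE S a u').real d
        · cases h2 : (wE S a u').real (S.M.α d)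
          · rfl
          · rw [this.1 h2] at h1
            exact absurd h1 (by decide)
        · exact this.2 h1
      real_A := fun d hd => by
        rcases wE_real.1 hd with h1 | h1 | h1
        · exact hW.real_A d h1
        · rw [h1]; exact hA1
        · rw [h1]; exact hA2
      real_ne := fun d hd => by
        rcases wE_real.1 hd with h1 | h1 | h1
        · exact hW.real_ne d h1
        · rw [h1]; exact hne
        · rw [h1]
          show S.M.v (S.M.α a) ≠ S.M.v (S.M.α (S.M.α a))
          rw [S.M.αα]; exact hne.symm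
      A_im := hW.A_im
      u_A := fun d hd => by
        have hd : u' d ≠ 0 := hd
        by_cases c2 : d = S.M.α a
        · rw [c2]; exact hA2
        by_cases c1 : d = b
        · rw [c1, ub] at hd
          exact absurd rfl hd
        by_cases c3 : d = b'
        · rw [c3, ub'] at hd
          exact absurd rfl hd
        by_cases c4 : d = q
        · rw [c4]
          show S.M.v q ∈ S.A
          rw [vq]; exact hA1
        rw [uo d c2 c1 c3 c4] at hd
        exact hW.u_A d hd
      L_real := fun d hd => wE_of (hW.L_real d hd)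
      L_α := hW.L_α
      w_L := hW.w_L
      w_α := hW.w_α
      deg := fun x hx => by
        have h1 := hdeg x
        have h2 : wgt S w x ≤ Δ := hW.deg x hx
        show (∑ d, if S.M.v d = x then (if (wE S a u').real d = true then 1 else 0) + u' d +
          w d else 0) ≤ Δ
        by_cases c1 : S.M.v a = x
        · have c2 : ¬ S.M.v (S.M.α a) = x := fun c2 => hne (c1.trans c2.symm)
          rw [if_pos c1, if_neg c2, ← c1] at h1
          rw [← c1]
          omega
        · rw [if_neg c1] at h1
          by_cases c2 : S.M.v (S.M.α a) = x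
          · rw [if_pos c2, ← c2] at h1
            rw [← c2]
            omega
          · rw [if_neg c2] at h1
            omega
      simple := fun d e hd he h1 h2 => by
        have key : ∀ {d e}, S.real d = true → (e = a ∨ e = S.M.α a) → S.M.v d = S.M.v e →
            S.M.v (S.M.α d) = S.M.v (S.M.α e) → False := by
          rintro d e h3 (rfl | rfl) h4 h5
          · exact hnadj d h3 h4 h5
          · rw [S.M.αα] at h5
            exact hnadj (S.M.α d) (by rw [rα]; exact h3) h5 (by rw [S.M.αα]; exact h4)
        rcases wE_real.1 hd with h3 | h3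
        · rcases wE_real.1 he with h4 | h4
          · exact hW.simple d e h3 h4 h1 h2
          · exact absurd (key h3 h4 h1 h2) id
        · rcases wE_real.1 he with h4 | h4
          · exact absurd (key h4 h3 h1.symm h2.symm) id
          · rcases h3 with rfl | rfl <;> rcases h4 with rfl | rfl
            · rfl
            · exact absurd h1 hne
            · exact absurd h1.symm hne
            · rfl
      ex := by
        obtain ⟨d, hd⟩ := hW.ex
        exact ⟨d, wE_of hd⟩ }
  have hrc : ∀ s : V → Bool, S.rc s ≤ (wE S a u').rc s := by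
    intro s
    refine Finset.sum_le_sum fun d _ => ?_
    by_cases c1 : S.real d = true ∧ s (S.M.v d) = true ∧ s (S.M.v (S.M.α d)) = false
    · rw [if_pos c1, if_pos]
      exact ⟨wE_of c1.1, c1.2⟩
    · rw [if_neg c1]; exact Nat.zero_le _
  have hex : ∀ d, u' d ≠ 0 → S.sc.r a d → 3 ≤ fu S a := by
    intro d hd hs
    have fin : ∀ e, S.u e ≠ 0 → S.sc.r a e → 3 ≤ fu S a := fun e h1 h2 => by
      rw [fu_congr h2]; exact hfu e h1 h2
    by_cases c2 : d = S.M.α a
    · rw [c2, ua'] at hd
      by_cases c1 : S.u b = 0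
      · exact fin b' (by omega) scab'
      · exact fin b c1 scab
    by_cases c4 : d = q
    · rw [c4, uq] at hd
      by_cases c1 : S.u q = 0
      · exact fin b' (by omega) scab'
      · exact fin q c1 scaq
    by_cases c1 : d = b
    · rw [c1, ub] at hd
      exact absurd rfl hd
    by_cases c3 : d = b'
    · rw [c3, ub'] at hd
      exact absurd rfl hd
    rw [uo d c2 c1 c3 c4] at hd
    exact fin d hd hs
  have ok : Ok Δ (wE S a u') L w := by
    refine ok_of_rc wf (fun s h1 h2 => ?_) fun d hd => ?_
    · have := h.cut4 hΔ h1 h2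
      have := hrc s
      omega
    · have hd : u' d ≠ 0 := hd
      have d1 : d ≠ b := fun h0 => hd (by rw [h0, ub])
      have d3 : d ≠ b' := fun h0 => hd (by rw [h0, ub'])
      have d2 : d ≠ a := fun h0 => hd (by
        rw [h0, uo a ne1 n2.symm n4'.symm n7.symm]; exact u0 a ha)
      rw [fu' d d2 d1 d3]
      by_cases c3 : S.sc.r a d
      · left
        rw [← fu_congr c3]
        exact hex d hd c3
      · have d4 : d ≠ S.M.α a := fun h0 => c3 (by rw [h0]; exact scaa)
        have d5 : d ≠ q := fun h0 => c3 (by rw [h0]; exact scaq)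
        rw [uo d d4 d1 d3 d5] at hd
        · rcases h.ok.thr d hd with h3 | ⟨e, e', g1, g2, g3, g4, g5, g6⟩
          · exact Or.inl h3
          · right
            have off : ∀ y, S.sc.r d y → y ≠ a ∧ y ≠ b ∧ y ≠ b' ∧ y ≠ S.M.α a ∧ y ≠ q := by
              intro y hy
              refine ⟨fun h0 => c3 ?_, fun h0 => c3 ?_, fun h0 => c3 ?_, fun h0 => c3 ?_,
                fun h0 => c3 ?_⟩
              · rw [h0] at hy; exact S.sc.iseqv.symm hy
              · rw [h0] at hy; exact S.sc.iseqv.trans scab (S.sc.iseqv.symm hy)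
              · rw [h0] at hy
                refine S.sc.iseqv.trans (fun t ht => ?_) (S.sc.iseqv.symm hy)
                rw [hbd', ht.1, ht.1]
              · rw [h0] at hy; exact S.sc.iseqv.trans scaa (S.sc.iseqv.symm hy)
              · rw [h0] at hy; exact S.sc.iseqv.trans scaq (S.sc.iseqv.symm hy)
            obtain ⟨o1, o2, o3, o4, o5⟩ := off e g1
            obtain ⟨p1, p2, p3, p4, p5⟩ := off e' g2
            refine ⟨e, e', (hsc d2 d1 d3 o1 o2 o3).2 g1, (hsc d2 d1 d3 p1 p2 p3).2 g2, ?_, ?_, g5,
              fun r hr hs => ?_⟩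
            · show u' e ≠ 0
              rw [uo e o4 o2 o3 o5]; exact g3
            · show u' e' ≠ 0
              rw [uo e' p4 p2 p3 p5]; exact g4
            · have hs' : S.sc.r d r := fun t ht => hs t (wE_cl ht)
              obtain ⟨q1, q2, q3, q4, q5⟩ := off r hs'
              have hr' : S.real r = true := by
                rcases wE_real.1 hr with h5 | h5 | h5
                · exact h5
                · exact absurd h5 q1
                · exact absurd h5 q4
              exact g6 r hr' hs'
  have hr4 : ∀ x ∈ S.A, 4 ≤ S.rdeg x := fun x hx => h.rdeg4 hΔ hx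
  have hn4 : n4 (wE S a u') ≤ n4 S := by
    have e1 : n4 S = S.A.card := by
      unfold n4
      rw [Finset.filter_true_of_mem hr4]
    rw [e1]
    exact Finset.card_le_card (Finset.filter_subset _ _)
  have hrd : ∀ x, S.rdeg x ≤ (wE S a u').rdeg x := by
    intro x
    refine Finset.sum_le_sum fun d _ => ?_
    by_cases c1 : S.M.v d = x ∧ S.real d = true
    · rw [if_pos c1, if_pos]
      exact ⟨c1.1, wE_of c1.2⟩
    · rw [if_neg c1]; exact Nat.zero_le _
  have hrq : rq (wE S a u') L ≤ rq S L := by
    have e1 : n3 (wE S a u') = 0 := by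
      unfold n3
      rw [Finset.card_eq_zero, Finset.filter_eq_empty_iff]
      intro x hx h0
      exact h0 ((hr4 x hx).trans (hrd x))
    have e2 : ∑ d, u' d * cw (fu (wE S a u') d) = ∑ d, S.u d * cw (fu S d) := by
      obtain ⟨C, hC⟩ : ∃ C, C = cw (fu S a) := ⟨_, rfl⟩
      have key := sum_shift (f := fun d => u' d * cw (fu (wE S a u') d))
        (g := fun d => S.u d * cw (fu S d))
        (x1 := b) (x2 := b') (y1 := S.M.α a) (y2 := q) (y3 := a)
        (a1 := S.u b * C) (a2 := S.u b' * C) (c1 := (S.u b + k1) * C) (c2 := k2 * C) (c3 := 0)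
        (fun d => by
          show u' d * cw (fu (wE S a u') d) + _ + _ = S.u d * cw (fu S d) + _ + _ + _
          rw [ite_self]
          by_cases c1 : d = b
          · rw [c1, ub, if_pos (rfl : b = b), if_neg n6, if_neg ne3, if_neg n9.symm,
              ← fu_congr scab, hC]
            ring
          by_cases c2 : d = b'
          · rw [c2, ub', if_neg n6.symm, if_pos (rfl : b' = b'), if_neg ne5, if_neg n10.symm,
              ← fu_congr scab', hC]
            ring
          rw [if_neg c1, if_neg c2]
          by_cases c3 : d = S.M.α a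
          · rw [c3, ua', u0 _ hra, fu' _ ne1.symm ne3.symm ne5.symm, ← fu_congr scaa,
              if_neg n8.symm, if_pos (rfl : S.M.α a = S.M.α a), hC]
            ring
          rw [if_neg c3]
          by_cases c4 : d = q
          · rw [c4, uq, fu' _ n7 n9 n10, ← fu_congr scaq, if_pos (rfl : q = q), hC]
            ring
          rw [if_neg c4, uo d c3 c1 c2 c4]
          by_cases c5 : d = a
          · rw [c5, u0 a ha]; ring
          · rw [fu' d c5 c1 c2])
      have k3 : (S.u b + k1) * C + k2 * C = S.u b * C + S.u b' * C := by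
        rw [← hk]
        ring
      have key2 : ∑ d, u' d * cw (fu (wE S a u') d) + S.u b * C + S.u b' * C =
        ∑ d, S.u d * cw (fu S d) + (S.u b + k1) * C + k2 * C + 0 := key
      omega
    unfold rq
    show (∑ d, u' d * cw (fu (wE S a u') d)) + _ + 6120 * n3 (wE S a u') ≤ _
    rw [e1, e2]
    omega
  have hnr : nr S < nr (wE S a u') := by
    unfold nr
    refine Finset.sum_lt_sum (fun d _ => ?_) ⟨a, Finset.mem_univ _, ?_⟩
    · by_cases c1 : S.real d = true
      · rw [if_pos c1, if_pos (wE_of c1)]
      · rw [if_neg c1]; exact Nat.zero_le _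
    · rw [if_neg (by rw [ha]; decide), if_pos (wE_real.2 (Or.inr (Or.inl rfl)))]
      omega
  have hnr2 : nr (wE S a u') ≤ Δ * S.A.card := by
    have e1 : ∑ x ∈ S.A, ∑ d, (if S.M.v d = x then (if (wE S a u').real d = true then 1 else 0) +
        u' d + w d else 0) ≤ S.A.card * Δ := by
      rw [← smul_eq_mul, ← Finset.sum_const]
      exact Finset.sum_le_sum fun x hx => wf.deg x hx
    have e2 : nr (wE S a u') ≤ ∑ x ∈ S.A, ∑ d, (if S.M.v d = x then
        (if (wE S a u').real d = true then 1 else 0) + u' d + w d else 0) := by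
      rw [Finset.sum_comm]
      refine Finset.sum_le_sum fun d _ => ?_
      by_cases hd : (wE S a u').real d = true
      · refine le_trans ?_ (Finset.single_le_sum (f := fun x => if S.M.v d = x then
          (if (wE S a u').real d = true then 1 else 0) + u' d + w d else 0)
          (fun _ _ => Nat.zero_le _) (wf.real_A d hd))
        show (if (wE S a u').real d = true then 1 else 0) ≤ if S.M.v d = S.M.v d then
          (if (wE S a u').real d = true then 1 else 0) + u' d + w d else 0
        rw [if_pos hd, if_pos (rfl : S.M.v d = S.M.v d)]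
        omega
      · rw [if_neg hd]; exact Nat.zero_le _
    rw [Nat.mul_comm]
    exact le_trans e2 e1
  refine h.lt h.w1 ok (mu_lt_nr hn4 hrq hnr hnr2 le_rfl) fun c hc => ⟨c, ?_⟩
  refine wE_sol hc rα hA1 hA2 (fun s h1 h2 => by have := h.cut4 hΔ h1 h2; omega) fun d hd => ?_
  have toe : ∀ {e}, S.sc.r a e → S.sc.r (S.M.α a) e := fun he =>
    S.sc.iseqv.trans (S.sc.iseqv.symm scaa) he
  by_cases c1 : d = b
  · exact ⟨S.M.α a, by rw [ua', ← c1]; omega, by rw [c1]; exact toe scab⟩
  by_cases c2 : d = b'
  · rw [c2] at hd ⊢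
    by_cases c3 : k1 = 0
    · exact ⟨q, by rw [uq]; omega, S.sc.iseqv.trans (S.sc.iseqv.symm scaq) scab'⟩
    · exact ⟨S.M.α a, by rw [ua']; omega, toe scab'⟩
  have c3 : d ≠ S.M.α a := fun h0 => hd (by rw [h0]; exact u0 _ hra)
  refine ⟨d, ?_, S.sc.iseqv.refl d⟩
  by_cases c4 : d = q
  · rw [c4] at hd ⊢
    rw [uq]
    omega
  · rw [uo d c3 c1 c2 c4]
    exact hd

end Pool.FC7
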