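import Pool.Agent.FC7.GcB
import Pool.Agent.FC7.DiA

/-! # Faces with two units, labelled edges: all vertices are full -/

open Finset

namespace Pool.FC7

open Pool.FC6 Pool.FC6.St

variable {D V : Type} [Fintype D] [DecidableEq V] {S : St D V} {L : D → Bool} {w : D → ℕ} {Δ : ℕ}

theorem wgt_le (W : Wf Δ S L w) {x : V} (hx : x ∈ S.A) : wgt S w x ≤ Δ := W.deg x hx

/-- one more unit -/
theorem sum_add_one {f g : D → ℕ} {x : D} {K : ℕ} [DecidableEq D]
    (h : ∀ d, f d = g d + (if d = x then K else 0)) : ∑ d, f d = ∑ d, g d + K := by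
  rw [← Finset.sum_ite_eq' Finset.univ x (fun _ => K) |>.trans (if_pos (Finset.mem_univ _)),
    ← Finset.sum_add_distrib]
  exact Finset.sum_congr rfl fun d _ => h d

theorem fu_pos {d : D} (hd : S.u d ≠ 0) : 1 ≤ fu S d := by
  classical
  have h1 : S.u d ≤ fu S d := by
    unfold fu
    refine le_trans ?_ (Finset.single_le_sum (f := fun e => if S.sc.r d e then S.u e else 0)
      (fun _ _ => Nat.zero_le _) (Finset.mem_univ d))
    show S.u d ≤ if S.sc.r d d then S.u d else 0
    rw [if_pos (S.sc.iseqv.refl d)]
  omega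

open Classical in
/-- every vertex of a face with exactly two units is full -/
theorem MC.two_full (hΔ : Δ ≤ 6) (h : MC Δ S L w) {d e : D} (h2 : fu S d = 2)
    (he : S.sc.r d e) (hv : S.M.v e ∈ S.A) : wgt S w (S.M.v e) = Δ := by
  have hW := h.ok.toWf
  by_contra hne
  have hlt : wgt S w (S.M.v e) < Δ := lt_of_le_of_ne (wgt_le hW hv) hne
  obtain ⟨u', hu'⟩ : ∃ u' : D → ℕ, u' = fun x => S.u x + (if x = e then 1 else 0) := ⟨_, rfl⟩
  have ux : ∀ x, u' x = S.u x + (if x = e then 1 else 0) := fun x => by rw [hu']
  have fx : ∀ x, fu (wU S u') x = fu S x + (if S.sc.r x e then 1 else 0) := by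
    intro x
    unfold fu
    refine sum_add_one (x := e) fun y => ?_
    show (if S.sc.r x y then u' y else 0) = _
    rw [ux]
    by_cases c1 : y = e
    · rw [c1]
      split_ifs <;> omega
    · rw [if_neg c1]
      split_ifs <;> omega
  have fon : ∀ x, S.sc.r d x → fu (wU S u') x = 3 := fun x hx => by
    rw [fx, if_pos (S.sc.iseqv.trans (S.sc.iseqv.symm hx) he), ← fu_congr hx, h2]
  have foff : ∀ x, ¬ S.sc.r d x → fu (wU S u') x = fu S x := fun x hx => by
    rw [fx, if_neg fun h0 => hx (S.sc.iseqv.trans he (S.sc.iseqv.symm h0))]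
    omega
  have wf : Wf Δ (wU S u') L w :=
    { real_α := hW.real_α
      real_A := hW.real_A
      real_ne := hW.real_ne
      A_im := hW.A_im
      u_A := fun x hx => by
        by_cases c1 : x = e
        · rw [c1]; exact hv
        · refine hW.u_A x fun h0 => hx ?_
          show u' x = 0
          rw [ux, if_neg c1, h0]
      L_real := hW.L_real
      L_α := hW.L_α
      w_L := hW.w_L
      w_α := hW.w_α
      deg := fun x hx => by
        have h3 := wgt_le hW hx
        have h4 : ∑ y, (if S.M.v y = x then (if S.real y = true then 1 else 0) + u' y + w y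
            else 0) = wgt S w x + (if S.M.v e = x then 1 else 0) := by
          refine sum_add_one (x := e) fun y => ?_
          rw [ux]
          by_cases c1 : y = e
          · rw [c1, if_pos (rfl : e = e), if_pos (rfl : e = e)]
            split_ifs <;> omega
          · rw [if_neg c1, if_neg c1]
            split_ifs <;> omega
        show ∑ y, (if S.M.v y = x then (if S.real y = true then 1 else 0) + u' y + w y
            else 0) ≤ Δ
        rw [h4]
        by_cases c1 : S.M.v e = x
        · rw [if_pos c1, ← c1]; omega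
        · rw [if_neg c1]; omega
      simple := hW.simple
      ex := hW.ex }
  refine h.upg hΔ h.w1 wf (fun x hx => ?_) ?_ fun c hc => ⟨hc.con, hc.live, fun x hx => ?_, hc.lab⟩
  · by_cases c1 : S.sc.r d x
    · left; rw [fon x c1]
    · have c2 : S.u x ≠ 0 := by
        intro h0
        rw [ux, h0, if_neg fun h3 => c1 (by rw [h3]; exact he)] at hx
        exact hx rfl
      rw [foff x c1]
      rcases h.ok.thr x c2 with h3 | ⟨y, y', a1, a2, a3, a4, a5, a6⟩
      · exact Or.inl h3
      · right
        refine ⟨y, y', a1, a2, ?_, ?_, a5, a6⟩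
        · show u' y ≠ 0
          rw [ux]; omega
        · show u' y' ≠ 0
          rw [ux]; omega
  · -- the cost
    have e1 : ∑ x, u' x * cw (fu (wU S u') x) = ∑ x, (if S.sc.r d x then u' x * 2024 else
        S.u x * cw (fu S x)) := by
      refine Finset.sum_congr rfl fun x _ => ?_
      by_cases c1 : S.sc.r d x
      · rw [if_pos c1, fon x c1]; rfl
      · rw [if_neg c1, foff x c1, ux, if_neg fun h3 => c1 (by rw [h3]; exact he)]
        rfl
    have e2 : ∑ x, S.u x * cw (fu S x) = ∑ x, (if S.sc.r d x then S.u x * 3054 else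
        S.u x * cw (fu S x)) := by
      refine Finset.sum_congr rfl fun x _ => ?_
      by_cases c1 : S.sc.r d x
      · rw [if_pos c1, ← fu_congr c1, h2]; rfl
      · rw [if_neg c1]
    have e3 : ∀ (f : D → ℕ) (K : ℕ), ∑ x, (if S.sc.r d x then f x * K else S.u x * cw (fu S x)) =
        (∑ x, if S.sc.r d x then f x else 0) * K +
          ∑ x, (if S.sc.r d x then 0 else S.u x * cw (fu S x)) := by
      intro f K
      rw [Finset.sum_mul, ← Finset.sum_add_distrib]
      refine Finset.sum_congr rfl fun x _ => ?_
      split_ifs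
      · omega
      · omega
    rw [e3 u' 2024] at e1
    rw [e3 S.u 3054] at e2
    have e4 : (∑ x, if S.sc.r d x then u' x else 0) = 3 := fon d (S.sc.iseqv.refl d)
    have e5 : (∑ x, if S.sc.r d x then S.u x else 0) = 2 := h2
    rw [e4] at e1
    rw [e5] at e2
    unfold rq
    show (∑ x, u' x * cw (fu (wU S u') x)) + _ + 6120 * n3 S < _
    omega
  · refine hc.req x ?_
    show u' x ≠ 0
    rw [ux]
    omega

end Pool.FC7
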