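import Pool.Agent.FC7.GcC

/-! # The faces of a labelled edge have no units and all their vertices are full -/

open Finset

namespace Pool.FC7

open Pool.FC6 Pool.FC6.St

variable {D V : Type} [Fintype D] [DecidableEq V] {S : St D V} {L : D → Bool} {w : D → ℕ} {Δ : ℕ}

section rm

open Classical in
/-- without the label of `d` -/
noncomputable def rmL (S : St D V) (L : D → Bool) (d : D) (x : D) : Bool :=
  L x && decide (x ≠ d) && decide (x ≠ S.M.α d)

theorem rmL_iff {d x : D} : rmL S L d x = true ↔ L x = true ∧ x ≠ d ∧ x ≠ S.M.α d := by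
  unfold rmL
  simp [and_assoc]

/-- the weights without the label of `d` -/
noncomputable def rmw (S : St D V) (L : D → Bool) (d : D) (x : D) : ℕ :=
  if rmL S L d x = true then 1 else 0

open Classical in
theorem rmw_add (hW : Wf Δ S L w) (w1 : W1 L w) {d : D} (hd : L d = true) (x : D) :
    w x = rmw S L d x + (if x = d then 1 else 0) + (if x = S.M.α d then 1 else 0) := by
  have n1 : d ≠ S.M.α d := fun h0 => S.M.αne d h0.symm
  unfold rmw
  rw [w1]
  by_cases c1 : x = d
  · rw [c1, if_pos hd, if_neg (fun h0 => (rmL_iff.1 h0).2.1 rfl), if_pos rfl, if_neg n1]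
  by_cases c2 : x = S.M.α d
  · rw [c2, if_pos (by rw [hW.L_α]; exact hd), if_neg (fun h0 => (rmL_iff.1 h0).2.2 rfl),
      if_neg n1.symm, if_pos rfl]
  · have c3 : rmL S L d x = true ↔ L x = true := by
      rw [rmL_iff]
      tauto
    rw [if_neg c1, if_neg c2]
    simp only [c3]
    omega

end rm

open Classical in
/-- the faces of a labelled edge have no units -/
theorem MC.lab_nou (hΔ : Δ ≤ 6) (h : MC Δ S L w) {d e : D} (hd : L d = true)
    (he : S.sc.r d e) : S.u e = 0 := by
  have hW := h.ok.toWf
  by_contra hu
  have hadd := rmw_add hW h.w1 hd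
  have hle : ∀ x, rmw S L d x ≤ w x := fun x => by rw [hadd x]; omega
  have wf : Wf Δ (wU S S.u) (rmL S L d) (rmw S L d) :=
    { real_α := hW.real_α
      real_A := hW.real_A
      real_ne := hW.real_ne
      A_im := hW.A_im
      u_A := hW.u_A
      L_real := fun x hx => hW.L_real x (rmL_iff.1 hx).1
      L_α := fun x => by
        have : rmL S L d (S.M.α x) = true ↔ rmL S L d x = true := by
          rw [rmL_iff, rmL_iff, hW.L_α]
          constructor
          · rintro ⟨a1, a2, a3⟩
            exact ⟨a1, fun h0 => a3 (by rw [h0]), fun h0 => a2 (by rw [h0, S.M.αα])⟩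
          · rintro ⟨a1, a2, a3⟩
            exact ⟨a1, fun h0 => a3 (by rw [← h0, S.M.αα]), fun h0 => a2 (S.M.αinj h0)⟩
        exact Bool.eq_iff_iff.2 this
      w_L := fun x hx => by
        by_contra hn
        exact hx (if_neg hn)
      w_α := fun x => by
        have : rmL S L d (S.M.α x) = true ↔ rmL S L d x = true := by
          rw [rmL_iff, rmL_iff, hW.L_α]
          constructor
          · rintro ⟨a1, a2, a3⟩
            exact ⟨a1, fun h0 => a3 (by rw [h0]), fun h0 => a2 (by rw [h0, S.M.αα])⟩
          · rintro ⟨a1, a2, a3⟩
            exact ⟨a1, fun h0 => a3 (by rw [← h0, S.M.αα]), fun h0 => a2 (S.M.αinj h0)⟩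
        unfold rmw
        exact if_congr this rfl rfl
      deg := fun x hx => le_trans (Finset.sum_le_sum fun y _ => by
        show (if S.M.v y = x then (if S.real y = true then 1 else 0) + S.u y + rmw S L d y
          else 0) ≤ _
        have := hle y
        split_ifs <;> omega) (hW.deg x hx)
      simple := hW.simple
      ex := hW.ex }
  refine h.upg hΔ (fun _ => rfl) wf (fun x hx => ?_) ?_
    fun c hc => ⟨hc.con, hc.live, hc.req, fun x hx => ?_⟩
  · rcases h.ok.thr x hx with h3 | h3
    · exact Or.inl h3
    · exact Or.inr h3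
  · unfold rq
    have e1 : (∑ x, if L x = true then 1 else 0) = (∑ x, if rmL S L d x = true then 1 else 0) +
        1 + 1 := by
      rw [← sum_add_one (f := fun x => (if rmL S L d x = true then 1 else 0) +
        (if x = d then 1 else 0)) (x := d) (K := 1) fun x => rfl]
      rw [← sum_add_one (f := fun x => (if rmL S L d x = true then 1 else 0) +
        (if x = d then 1 else 0) + (if x = S.M.α d then 1 else 0)) (x := S.M.α d) (K := 1)
        fun x => rfl]
      refine Finset.sum_congr rfl fun x _ => ?_
      rw [← h.w1 x, hadd x]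
      rfl
    show (∑ x, S.u x * cw (fu S x)) + 3054 * (∑ x, if rmL S L d x = true then 1 else 0) +
      6120 * n3 S < _
    rw [e1]
    omega
  · by_cases c1 : x = d ∨ x = S.M.α d
    · have hv : Vi (wU S S.u) c d := vi_cl (fun t ht => (he t ht).symm) (hc.req e hu)
      rcases c1 with c1 | c1
      · rw [c1]; exact Or.inl hv
      · rw [c1]
        right
        rw [S.M.αα]
        exact hv
    · rw [not_or] at c1
      exact hc.lab x (rmL_iff.2 ⟨hx, c1.1, c1.2⟩)

open Classical in
/-- the vertices of the faces of a labelled edge are full -/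
theorem MC.lab_full (hΔ : Δ ≤ 6) (h : MC Δ S L w) {d e : D} (hd : L d = true)
    (he : S.sc.r d e) (hv : S.M.v e ∈ S.A) : wgt S w (S.M.v e) = Δ := by
  have hW := h.ok.toWf
  by_contra hne
  have hlt : wgt S w (S.M.v e) < Δ := lt_of_le_of_ne (wgt_le hW hv) hne
  have hadd := rmw_add hW h.w1 hd
  have hu0 : ∀ x, S.sc.r d x → S.u x = 0 := fun x hx => h.lab_nou hΔ hd hx
  have hf0 : fu S d = 0 := by
    unfold fu
    refine Finset.sum_eq_zero fun x _ => ?_
    by_cases c1 : S.sc.r d x
    · rw [if_pos c1, hu0 x c1]
    · rw [if_neg c1]
  obtain ⟨q, hq⟩ : ∃ q, q = S.M.φ d := ⟨_, rfl⟩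
  have scq : S.sc.r d q := fun t ht => by rw [hq, ht.1]
  have vq : S.M.v q = S.M.v (S.M.α d) := by rw [hq, S.M.vφ]
  have hrd := hW.L_real d hd
  obtain ⟨u', hu'⟩ : ∃ u' : D → ℕ, u' = fun x => S.u x + (if x = e then 1 else 0) +
    (if x = d then 1 else 0) + (if x = q then 1 else 0) := ⟨_, rfl⟩
  have ux : ∀ x, u' x = S.u x + (if x = e then 1 else 0) +
    (if x = d then 1 else 0) + (if x = q then 1 else 0) := fun x => by rw [hu']
  have fx : ∀ x, fu (wU S u') x = fu S x + (if S.sc.r x e then 1 else 0) +
      (if S.sc.r x d then 1 else 0) + (if S.sc.r x q then 1 else 0) := by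
    intro x
    have e1 : fu (wU S u') x = (∑ y, ((if S.sc.r x y then S.u y else 0) +
        (if y = e then (if S.sc.r x e then 1 else 0) else 0) +
        (if y = d then (if S.sc.r x d then 1 else 0) else 0))) +
        (if S.sc.r x q then 1 else 0) := by
      unfold fu
      refine sum_add_one (x := q) fun y => ?_
      show (if S.sc.r x y then u' y else 0) = _
      rw [ux]
      by_cases c1 : S.sc.r x y
      · rw [if_pos c1, if_pos c1]
        by_cases c2 : y = e
        · by_cases c3 : y = d
          · by_cases c4 : y = q
            · simp only [← c2, ← c3, ← c4, c1, if_true]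
            · simp only [← c2, ← c3, c4, c1, if_true, if_false]
          · by_cases c4 : y = q
            · simp only [← c2, c3, ← c4, c1, if_true, if_false]
            · simp only [← c2, c3, c4, c1, if_true, if_false]
        · by_cases c3 : y = d
          · by_cases c4 : y = q
            · simp only [c2, ← c3, ← c4, c1, if_true, if_false]
            · simp only [c2, ← c3, c4, c1, if_true, if_false]
          · by_cases c4 : y = q
            · simp only [c2, c3, ← c4, c1, if_true, if_false]
            · simp only [c2, c3, c4, if_false]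
      · rw [if_neg c1, if_neg c1]
        by_cases c2 : y = e
        · by_cases c3 : y = d
          · by_cases c4 : y = q
            · simp only [← c2, ← c3, ← c4, c1, if_true, if_false]
            · simp only [← c2, ← c3, c4, c1, if_true, if_false]
          · by_cases c4 : y = q
            · simp only [← c2, c3, ← c4, c1, if_true, if_false]
            · simp only [← c2, c3, c4, c1, if_true, if_false]
        · by_cases c3 : y = d
          · by_cases c4 : y = q
            · simp only [c2, ← c3, ← c4, c1, if_true, if_false]
            · simp only [c2, ← c3, c4, c1, if_true, if_false]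
          · by_cases c4 : y = q
            · simp only [c2, c3, ← c4, c1, if_true, if_false]
            · simp only [c2, c3, c4, if_false]
    rw [e1]
    congr 1
    rw [sum_add_one (g := fun y => (if S.sc.r x y then S.u y else 0) +
      (if y = e then (if S.sc.r x e then 1 else 0) else 0)) (x := d)
      (K := if S.sc.r x d then 1 else 0) fun y => rfl]
    congr 1
    exact sum_add_one fun y => rfl
  have fon : ∀ x, S.sc.r d x → fu (wU S u') x = 3 := fun x hx => by
    have hx' := S.sc.iseqv.symm hx
    rw [fx, if_pos (S.sc.iseqv.trans hx' he), if_pos hx', if_pos (S.sc.iseqv.trans hx' scq),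
      ← fu_congr hx, hf0]
  have foff : ∀ x, ¬ S.sc.r d x → fu (wU S u') x = fu S x := fun x hx => by
    rw [fx, if_neg fun h0 => hx (S.sc.iseqv.trans he (S.sc.iseqv.symm h0)),
      if_neg fun h0 => hx (S.sc.iseqv.symm h0),
      if_neg fun h0 => hx (S.sc.iseqv.trans scq (S.sc.iseqv.symm h0))]
    omega
  have uoff : ∀ x, ¬ S.sc.r d x → u' x = S.u x := fun x hx => by
    rw [ux, if_neg fun h3 => hx (by rw [h3]; exact he),
      if_neg fun h3 => hx (by rw [h3]),
      if_neg fun h3 => hx (by rw [h3]; exact scq)]
    omega
  have hαL : ∀ x, rmL S L d (S.M.α x) = true ↔ rmL S L d x = true := by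
    intro x
    rw [rmL_iff, rmL_iff, hW.L_α]
    constructor
    · rintro ⟨a1, a2, a3⟩
      exact ⟨a1, fun h0 => a3 (by rw [h0]), fun h0 => a2 (by rw [h0, S.M.αα])⟩
    · rintro ⟨a1, a2, a3⟩
      exact ⟨a1, fun h0 => a3 (by rw [← h0, S.M.αα]), fun h0 => a2 (S.M.αinj h0)⟩
  have wf : Wf Δ (wU S u') (rmL S L d) (rmw S L d) :=
    { real_α := hW.real_α
      real_A := hW.real_A
      real_ne := hW.real_ne
      A_im := hW.A_im
      u_A := fun x hx => by
        have hx : u' x ≠ 0 := hx
        by_cases c1 : x = e
        · rw [c1]; exact hv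
        by_cases c2 : x = d
        · rw [c2]; exact hW.real_A d hrd
        by_cases c3 : x = q
        · rw [c3]
          show S.M.v q ∈ S.A
          rw [vq]
          exact hW.real_A _ (by rw [hW.real_α]; exact hrd)
        · refine hW.u_A x fun h0 => hx ?_
          rw [ux, if_neg c1, if_neg c2, if_neg c3, h0]
      L_real := fun x hx => hW.L_real x (rmL_iff.1 hx).1
      L_α := fun x => Bool.eq_iff_iff.2 (hαL x)
      w_L := fun x hx => by
        by_contra hn
        exact hx (if_neg hn)
      w_α := fun x => by
        unfold rmw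
        exact if_congr (hαL x) rfl rfl
      deg := fun x hx => by
        have h3 := wgt_le hW hx
        have key := sum_shift (f := fun y => if S.M.v y = x then (if S.real y = true then 1
          else 0) + u' y + rmw S L d y else 0)
          (g := fun y => if S.M.v y = x then (if S.real y = true then 1 else 0) + S.u y + w y
          else 0) (x1 := d) (x2 := S.M.α d) (y1 := e) (y2 := d) (y3 := q)
          (a1 := if S.M.v d = x then 1 else 0) (a2 := if S.M.v (S.M.α d) = x then 1 else 0)
          (c1 := if S.M.v e = x then 1 else 0) (c2 := if S.M.v d = x then 1 else 0)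
          (c3 := if S.M.v (S.M.α d) = x then 1 else 0) (fun y => by
            have t1 : ∀ (z : D) (P : Prop) [Decidable P], (S.M.v z = x ↔ P) →
                ((if y = z then (if P then 1 else 0) else 0 : ℕ) =
                  if S.M.v y = x then (if y = z then 1 else 0) else 0) := by
              intro z P _ hP
              by_cases c1 : y = z
              · rw [c1, if_pos (rfl : z = z), if_pos (rfl : z = z)]
                exact if_congr hP.symm rfl rfl
              · rw [if_neg c1, if_neg c1, ite_self]
            show (if S.M.v y = x then (if S.real y = true then 1 else 0) + u' y + rmw S L d y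
              else 0) + _ + _ = (if S.M.v y = x then (if S.real y = true then 1 else 0) + S.u y +
              w y else 0) + _ + _ + _
            rw [t1 d _ Iff.rfl, t1 (S.M.α d) _ Iff.rfl, t1 e _ Iff.rfl,
              t1 q (S.M.v (S.M.α d) = x) (by rw [vq]), ux, hadd y]
            split_ifs <;> omega)
        have key2 : ∑ y, (if S.M.v y = x then (if S.real y = true then 1
          else 0) + u' y + rmw S L d y else 0) + (if S.M.v d = x then 1 else 0) +
          (if S.M.v (S.M.α d) = x then 1 else 0) = wgt S w x + (if S.M.v e = x then 1 else 0) +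
          (if S.M.v d = x then 1 else 0) + (if S.M.v (S.M.α d) = x then 1 else 0) := key
        show ∑ y, (if S.M.v y = x then (if S.real y = true then 1 else 0) + u' y +
            rmw S L d y else 0) ≤ Δ
        by_cases c1 : S.M.v e = x
        · rw [if_pos c1, ← c1] at key2
          rw [← c1]; omega
        · rw [if_neg c1] at key2; omega
      simple := hW.simple
      ex := hW.ex }
  refine h.upg hΔ (fun _ => rfl) wf (fun x hx => ?_) ?_
    fun c hc => ⟨hc.con, hc.live, fun x hx => hc.req x ?_, fun x hx => ?_⟩
  · by_cases c1 : S.sc.r d x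
    · left; rw [fon x c1]
    · rw [uoff x c1] at hx
      rw [foff x c1]
      rcases h.ok.thr x hx with h3 | ⟨y, y', a1, a2, a3, a4, a5, a6⟩
      · exact Or.inl h3
      · right
        refine ⟨y, y', a1, a2, ?_, ?_, a5, a6⟩
        · show u' y ≠ 0
          rw [ux]; omega
        · show u' y' ≠ 0
          rw [ux]; omega
  · -- the cost
    have e1 : ∑ x, u' x * cw (fu (wU S u') x) = (∑ x, if S.sc.r d x then u' x else 0) * 2024 +
        ∑ x, (if S.sc.r d x then 0 else S.u x * cw (fu S x)) := by
      rw [Finset.sum_mul, ← Finset.sum_add_distrib]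
      refine Finset.sum_congr rfl fun x _ => ?_
      by_cases c1 : S.sc.r d x
      · rw [if_pos c1, if_pos c1, fon x c1, cw3 le_rfl, Nat.add_zero]
      · rw [if_neg c1, if_neg c1, foff x c1, uoff x c1]; omega
    have e2 : ∑ x, (if S.sc.r d x then 0 else S.u x * cw (fu S x)) ≤
        ∑ x, S.u x * cw (fu S x) := by
      refine Finset.sum_le_sum fun x _ => ?_
      split_ifs
      · exact Nat.zero_le _
      · exact le_rfl
    have e4 : (∑ x, if S.sc.r d x then u' x else 0) = 3 := fon d (S.sc.iseqv.refl d)
    have e5 : (∑ x, if L x = true then 1 else 0) = (∑ x, if rmL S L d x = true then 1 else 0) +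
        1 + 1 := by
      rw [← sum_add_one (f := fun x => (if rmL S L d x = true then 1 else 0) +
        (if x = d then 1 else 0)) (x := d) (K := 1) fun x => rfl]
      rw [← sum_add_one (f := fun x => (if rmL S L d x = true then 1 else 0) +
        (if x = d then 1 else 0) + (if x = S.M.α d then 1 else 0)) (x := S.M.α d) (K := 1)
        fun x => rfl]
      refine Finset.sum_congr rfl fun x _ => ?_
      rw [← h.w1 x, hadd x]
      rfl
    rw [e4] at e1
    unfold rq
    show (∑ x, u' x * cw (fu (wU S u') x)) + 3054 * (∑ x, if rmL S L d x = true then 1 else 0) +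
      6120 * n3 S < _
    rw [e1, e5]
    omega
  · show u' x ≠ 0
    rw [ux]
    omega
  · by_cases c1 : x = d ∨ x = S.M.α d
    · have hv : Vi (wU S u') c d := hc.req d (by
        show u' d ≠ 0
        rw [ux, if_pos (rfl : d = d)]
        omega)
      rcases c1 with c1 | c1
      · rw [c1]; exact Or.inl hv
      · rw [c1]
        right
        show Vi (wU S u') c (S.M.α (S.M.α d))
        rw [S.M.αα]
        exact hv
    · rw [not_or] at c1
      exact hc.lab x (rmL_iff.2 ⟨hx, c1.1, c1.2⟩)

end Pool.FC7
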