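import Pool.Agent.FC7.GcD
import Pool.Agent.FC7.DlC
import Pool.Agent.FC7.NrA

/-! # The neighbours at a gap sector of a minimal counterexample -/

open Finset

namespace Pool.FC7

open Pool.FC6 Pool.FC6.St

variable {D V : Type} [Fintype D] [DecidableEq V] {S : St D V} {L : D → Bool} {w : D → ℕ} {Δ : ℕ}

/-- weights do not see virtual darts -/
theorem wgt_sim {S' : St D V} (hs : Sim S S') (hW : Wf Δ S L w) (x : V) :
    wgt S' w x = wgt S w x := by
  unfold wgt
  refine Finset.sum_congr rfl fun d _ => ?_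
  rw [hs.hr, hs.hu]
  by_cases hd : S.real d = true
  · rw [hs.hv d hd]
  · have u0 : S.u d = 0 := by
      by_contra hn
      exact hd (hs.ur d hn)
    have w0 : w d = 0 := by
      by_contra hn
      exact hd (hW.L_real d (hW.w_L d hn))
    rw [u0, w0, if_neg hd, ite_self, ite_self]

open Classical in
theorem fu_sim {S' : St D V} (hs : Sim S S') (d : D) : fu S' d = fu S d := by
  unfold fu
  refine Finset.sum_congr rfl fun e _ => ?_
  rw [hs.hu]
  exact if_congr (hs.sc d e) rfl rfl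

/-- the two neighbours of the dart at a gap sector: not both have room for a chord -/
theorem MC.gap_slack (hΔ : Δ ≤ 6) (h : MC Δ S L w) (hS : IsStar S) {z : D}
    (hz : S.real z = true) (hg : S.real (S.M.σ z) = false) {k1 k2 : ℕ}
    (hk : k1 + k2 = S.u (S.nxr z))
    (hne : S.M.v (S.M.α z) ≠ S.M.v (S.M.α (S.nxr z)))
    (hnadj : ∀ r, S.real r = true → S.M.v r = S.M.v (S.M.α z) →
      S.M.v (S.M.α r) ≠ S.M.v (S.M.α (S.nxr z)))
    (s1 : wgt S w (S.M.v (S.M.α z)) + 1 + k1 ≤ Δ)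
    (s2 : wgt S w (S.M.v (S.M.α (S.nxr z))) + 1 + k2 ≤ Δ) : False := by
  classical
  have hW := h.ok.toWf
  have rα := hW.real_α
  have hnx : S.nxr z = S.M.σ (S.M.σ z) := by
    unfold nxr
    rw [if_neg (by rw [hg]; decide)]
  obtain ⟨g, hgd⟩ : ∃ g, g = S.M.σ z := ⟨_, rfl⟩
  rw [← hgd] at hg
  have hφg : S.M.φ (S.M.φ g) = S.M.α z := by
    rw [hgd]
    show S.M.φ (S.M.φ (S.M.φ (S.M.α z))) = _
    rw [S.M.φ3]
  have hf : S.nxr z = S.M.φ (S.M.α g) := by rw [hnx, ← hgd]; rfl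
  have rz : S.real (S.M.α z) = true := by rw [rα]; exact hz
  have hrf : S.real (S.M.φ (S.M.α g)) = true := by
    rw [← hf]
    exact hS.nxr_real hW hz
  have ng1 : S.M.α g ≠ S.M.φ g := by
    intro h0
    have h1 : S.M.φ (S.M.α g) = S.M.α z := by rw [h0, hφg]
    rw [hf, h1] at hne
    rw [S.M.αα] at hne
    have h2 : S.M.v (S.M.φ (S.M.α g)) = S.M.v g := by rw [S.M.vφ, S.M.αα]
    have h3 : S.M.v g = S.M.v z := by rw [hgd, S.M.vσ]
    have h4 := hW.real_ne z hz
    rw [h1] at h2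
    exact h4 (h2.trans h3).symm
  have ng2 : S.M.α g ≠ S.M.φ (S.M.φ g) := by
    intro h0
    have : S.real (S.M.α g) = true := by rw [h0, hφg]; exact rz
    rw [rα, hg] at this
    exact absurd this (by decide)
  have sx := S.M.six ng1 ng2
  have hs := sim_flip ng1 ng2 hg hS.ur rα
  have hM := h.sim hΔ hs
  have e1 : (wM S (S.M.flip g ng1 ng2)).M.φ g = S.M.α z := by
    show flφ S.M.φ g (S.M.α g) g = _
    rw [TMap.flφ_a, hφg]
  have e2 : (wM S (S.M.flip g ng1 ng2)).M.φ (S.M.α z) = S.nxr z := by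
    rw [hf, ← hφg]
    show flφ S.M.φ g (S.M.α g) (S.M.φ (S.M.φ g)) = _
    rw [TMap.flφ_c sx]
  have v1 : (wM S (S.M.flip g ng1 ng2)).M.v g = S.M.v (S.M.α (S.nxr z)) := by
    show S.M.flv g g = _
    unfold TMap.flv
    rw [if_pos rfl, hf, ← S.M.vφ]
  have v2 : (wM S (S.M.flip g ng1 ng2)).M.v ((wM S (S.M.flip g ng1 ng2)).M.α g) =
      S.M.v (S.M.α z) := by
    show S.M.flv g (S.M.α g) = _
    unfold TMap.flv
    rw [if_neg (S.M.αne g), if_pos rfl, hφg]
  have a1 : S.M.v (S.M.α z) ∈ S.A := hW.real_A _ rz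
  have a2 : S.M.v (S.M.α (S.nxr z)) ∈ S.A := hW.real_A _ (by rw [rα, hf]; exact hrf)
  refine hM.ear hΔ (a := g) (k1 := k1) (k2 := k2) (by rw [hs.hr]; exact hg)
    (by rw [hs.hr, e1]; exact rz) (by rw [hs.hr, e1, e2, hf]; exact hrf) hs.symm.ur' ?_ ?_ ?_ ?_
    ?_ ?_ ?_ ?_
  · rw [e1, e2, hs.hu]
    exact hk
  · rw [v1]; exact a2
  · rw [v2]; exact a1
  · rw [v1, v2]; exact hne.symm
  · intro r hr h1
    rw [hs.hr] at hr
    rw [hs.hv r hr, v1] at h1
    rw [hs.hvα hr, v2]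
    intro h2
    exact hnadj (S.M.α r) (by rw [rα]; exact hr) h2 (by rw [S.M.αα]; exact h1)
  · intro d hd hsd
    rw [hs.hu] at hd
    rw [fu_sim hs]
    rw [hs.sc] at hsd
    have h2 : 2 ≤ fu S d := by
      rcases h.ok.thr d hd with h3 | ⟨y, y', b1, b2, b3, b4, b5, -⟩
      · omega
      · unfold fu
        have hyy : y ≠ y' := fun h0 => b5 (by rw [h0])
        have : (if S.sc.r d y then S.u y else 0) + (if S.sc.r d y' then S.u y' else 0) ≤
            ∑ e, if S.sc.r d e then S.u e else 0 := by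
          rw [← Finset.sum_pair (f := fun e => if S.sc.r d e then S.u e else 0) hyy]
          exact Finset.sum_le_sum_of_subset (Finset.subset_univ _)
        rw [if_pos b1, if_pos b2] at this
        omega
    by_contra hn
    have h3 : fu S d = 2 := by omega
    have h4 : S.sc.r d (S.M.α z) := by
      refine S.sc.iseqv.trans (S.sc.iseqv.symm hsd) fun t ht => ?_
      rw [← hφg, ht.1, ht.1]
    have h5 := h.two_full hΔ h3 h4 a1
    omega
  · rw [v2, wgt_sim hs hW]
    exact s1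
  · rw [v1, wgt_sim hs hW]
    exact s2

/-- the two neighbours of the dart at a gap sector, if all closed curves of length three through
the vertex are facial -/
theorem MC.gap_full (hΔ : Δ ≤ 6) (h : MC Δ S L w) (hS : IsStar S) {z : D}
    (hz : S.real z = true) (hg : S.real (S.M.σ z) = false)
    (fc : ∀ y, S.real y = true → S.M.v y = S.M.v z → Fc3 S y) {k1 k2 : ℕ}
    (hk : k1 + k2 = S.u (S.nxr z))
    (s1 : wgt S w (S.M.v (S.M.α z)) + 1 + k1 ≤ Δ)
    (s2 : wgt S w (S.M.v (S.M.α (S.nxr z))) + 1 + k2 ≤ Δ) : False := by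
  have hW := h.ok.toWf
  have rn := hS.nxr_real hW hz
  have vn : S.M.v (S.nxr z) = S.M.v z := v_nxr z
  have h4 : 4 ≤ S.rdeg (S.M.v z) := h.rdeg4 hΔ (hW.real_A z hz)
  have c1 : S.nxr z ≠ z := hS.nxr_ne hW hz (j := 1) (by omega) (by omega)
  have c2 : S.nxr (S.nxr z) ≠ z := hS.nxr_ne hW hz (j := 2) (by omega) (by omega)
  refine h.gap_slack hΔ hS hz hg hk (fun h0 => c1 (hW.simple _ _ rn hz vn h0.symm)) ?_ s1 s2
  intro r hr h1 h2
  rcases fc _ rn vn z (S.M.α r) vn.symm h2 (by rw [S.M.αα]; exact h1.symm) with ⟨b1, -⟩ | ⟨b1, -⟩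
  · apply c2
    have : S.nxr (S.nxr z) = S.M.σ (S.nxr z) := by
      show (if S.real (S.M.σ (S.nxr z)) = true then _ else _) = _
      rw [if_pos (by rw [← b1]; exact hz)]
    rw [this, ← b1]
  · rw [b1, rn] at hg
    exact absurd hg (by decide)

end Pool.FC7
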