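import Pool.Agent.FC7.GcE

/-! # Moving units: a tie-break among the minimal counterexamples in star form -/

open Finset

namespace Pool.FC7

open Pool.FC6 Pool.FC6.St

variable {D V : Type} [Fintype D] [DecidableEq V] {S : St D V} {L : D → Bool} {w : D → ℕ} {Δ : ℕ}

open Classical in
/-- one unit moved from `y` to `x` -/
noncomputable def mvu (S : St D V) (x y : D) (d : D) : ℕ :=
  if d = x then S.u d + 1 else if d = y then S.u d - 1 else S.u d

open Classical in
/-- a unit of a face with at least three units may be moved to a vertex which is not full -/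
theorem MC.move (hΔ : Δ ≤ 6) (h : MC Δ S L w) {x y : D} (hsc : S.sc.r x y) (hy : S.u y ≠ 0)
    (hx : S.M.v x ∈ S.A) (hxy : x ≠ y) (hsl : wgt S w (S.M.v x) < Δ) :
    MC Δ (wU S (mvu S x y)) L w := by
  have hW := h.ok.toWf
  have h3 : 3 ≤ fu S x := by
    have h2 : 2 ≤ fu S y := by
      rcases h.ok.thr y hy with h3 | ⟨z, z', b1, b2, b3, b4, b5, -⟩
      · omega
      · unfold fu
        have hyy : z ≠ z' := fun h0 => b5 (by rw [h0])
        have : (if S.sc.r y z then S.u z else 0) + (if S.sc.r y z' then S.u z' else 0) ≤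
            ∑ e, if S.sc.r y e then S.u e else 0 := by
          rw [← Finset.sum_pair (f := fun e => if S.sc.r y e then S.u e else 0) hyy]
          exact Finset.sum_le_sum_of_subset (Finset.subset_univ _)
        rw [if_pos b1, if_pos b2] at this
        omega
    rw [fu_congr hsc]
    by_contra hn
    have h4 := h.two_full hΔ (d := y) (e := x) (by omega) (S.sc.iseqv.symm hsc) hx
    omega
  have ux : mvu S x y x = S.u x + 1 := if_pos rfl
  have uy : mvu S x y y = S.u y - 1 := by
    unfold mvu
    rw [if_neg hxy.symm, if_pos rfl]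
  have uo : ∀ d, d ≠ x → d ≠ y → mvu S x y d = S.u d := fun d h1 h2 => by
    unfold mvu
    rw [if_neg h1, if_neg h2]
  have fu' : ∀ d, fu (wU S (mvu S x y)) d = fu S d := by
    intro d
    have key := sum_shift (f := fun e => if S.sc.r d e then mvu S x y e else 0)
      (g := fun e => if S.sc.r d e then S.u e else 0) (x1 := y) (x2 := y) (y1 := x) (y2 := x)
      (y3 := x) (a1 := if S.sc.r d y then 1 else 0) (a2 := 0)
      (c1 := if S.sc.r d x then 1 else 0) (c2 := 0) (c3 := 0) (fun e => by
        show (if S.sc.r d e then mvu S x y e else 0) + _ + _ = (if S.sc.r d e then S.u e else 0) +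
          _ + _ + _
        rw [ite_self, ite_self]
        by_cases c1 : e = x
        · rw [c1, ux, if_neg hxy, if_pos (rfl : x = x)]
          split_ifs <;> omega
        rw [if_neg c1]
        by_cases c2 : e = y
        · rw [c2, uy, if_pos (rfl : y = y)]
          split_ifs <;> omega
        rw [if_neg c2, uo e c1 c2])
    have e1 : S.sc.r d y ↔ S.sc.r d x :=
      ⟨fun h0 => S.sc.iseqv.trans h0 (S.sc.iseqv.symm hsc), fun h0 => S.sc.iseqv.trans h0 hsc⟩
    have e2 : (if S.sc.r d y then 1 else 0) = (if S.sc.r d x then 1 else 0) := if_congr e1 rfl rfl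
    have key2 : fu (wU S (mvu S x y)) d + (if S.sc.r d y then 1 else 0) + 0 =
      fu S d + (if S.sc.r d x then 1 else 0) + 0 + 0 := key
    omega
  have wf : Wf Δ (wU S (mvu S x y)) L w :=
    { real_α := hW.real_α
      real_A := hW.real_A
      real_ne := hW.real_ne
      A_im := hW.A_im
      u_A := fun d hd => by
        have hd : mvu S x y d ≠ 0 := hd
        by_cases c1 : d = x
        · rw [c1]; exact hx
        by_cases c2 : d = y
        · rw [c2]; exact hW.u_A y hy
        · rw [uo d c1 c2] at hd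
          exact hW.u_A d hd
      L_real := hW.L_real
      L_α := hW.L_α
      w_L := hW.w_L
      w_α := hW.w_α
      deg := fun v hv => by
        have h4 := wgt_le hW hv
        have h5 : ∑ d, (if S.M.v d = v then (if S.real d = true then 1 else 0) + mvu S x y d +
            w d else 0) ≤ wgt S w v + (if S.M.v x = v then 1 else 0) := by
          unfold wgt
          rw [← Finset.sum_ite_eq' Finset.univ x (fun _ => if S.M.v x = v then 1 else 0) |>.trans
            (if_pos (Finset.mem_univ _)), ← Finset.sum_add_distrib]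
          refine Finset.sum_le_sum fun d _ => ?_
          by_cases c1 : d = x
          · rw [c1, ux, if_pos (rfl : x = x)]
            split_ifs <;> omega
          by_cases c2 : d = y
          · rw [c2, uy]
            split_ifs <;> omega
          · rw [uo d c1 c2]
            split_ifs <;> omega
        show ∑ d, (if S.M.v d = v then (if S.real d = true then 1 else 0) + mvu S x y d +
            w d else 0) ≤ Δ
        by_cases c1 : S.M.v x = v
        · rw [if_pos c1, ← c1] at h5
          rw [← c1]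
          omega
        · rw [if_neg c1] at h5
          omega
      simple := hW.simple
      ex := hW.ex }
  have hcost : ∑ d, mvu S x y d * cw (fu (wU S (mvu S x y)) d) = ∑ d, S.u d * cw (fu S d) := by
    have hC : cw (fu S y) = cw (fu S x) := by rw [fu_congr hsc]
    have key := sum_shift (f := fun d => mvu S x y d * cw (fu (wU S (mvu S x y)) d))
      (g := fun d => S.u d * cw (fu S d)) (x1 := y) (x2 := y) (y1 := x) (y2 := x)
      (y3 := x) (a1 := cw (fu S x)) (a2 := 0) (c1 := cw (fu S x)) (c2 := 0) (c3 := 0) (fun d => by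
        show mvu S x y d * cw (fu (wU S (mvu S x y)) d) + _ + _ = S.u d * cw (fu S d) + _ + _ + _
        rw [ite_self, ite_self, fu']
        by_cases c1 : d = x
        · rw [c1, ux, if_neg hxy, if_pos (rfl : x = x)]
          ring
        rw [if_neg c1]
        by_cases c2 : d = y
        · rw [c2, uy, if_pos (rfl : y = y), hC]
          obtain ⟨k, hk⟩ : ∃ k, S.u y = k + 1 := ⟨S.u y - 1, by omega⟩
          rw [hk, Nat.add_sub_cancel]
          ring
        rw [if_neg c2, uo d c1 c2])
    have key2 : ∑ d, mvu S x y d * cw (fu (wU S (mvu S x y)) d) + cw (fu S x) + 0 =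
      ∑ d, S.u d * cw (fu S d) + cw (fu S x) + 0 + 0 := key
    omega
  refine h.of_ok h.w1 (ok_of_rc wf (fun s h1 h2 => ?_) fun d hd => ?_) ?_ fun c hc =>
    ⟨c, hc.con, hc.live, fun d hd => ?_, hc.lab⟩
  · exact le_trans (by omega) (h.cut4 hΔ h1 h2)
  · have hd : mvu S x y d ≠ 0 := hd
    rw [fu']
    by_cases c0 : S.sc.r x d
    · left
      rw [← fu_congr c0]
      exact h3
    · have c1 : d ≠ x := fun h0 => c0 (by rw [h0])
      have c2 : d ≠ y := fun h0 => c0 (by rw [h0]; exact hsc)
      rw [uo d c1 c2] at hd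
      rcases h.ok.thr d hd with h4 | ⟨z, z', b1, b2, b3, b4, b5, b6⟩
      · exact Or.inl h4
      · right
        refine ⟨z, z', b1, b2, ?_, ?_, b5, b6⟩
        · show mvu S x y z ≠ 0
          rw [uo z (fun h0 => c0 (by rw [← h0]; exact S.sc.iseqv.symm b1))
            (fun h0 => c0 (S.sc.iseqv.trans hsc (by rw [← h0]; exact S.sc.iseqv.symm b1)))]
          exact b3
        · show mvu S x y z' ≠ 0
          rw [uo z' (fun h0 => c0 (by rw [← h0]; exact S.sc.iseqv.symm b2))
            (fun h0 => c0 (S.sc.iseqv.trans hsc (by rw [← h0]; exact S.sc.iseqv.symm b2)))]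
          exact b4
  · refine le_of_eq ?_
    unfold mu rq
    show toLex (n4 S, toLex ((∑ d, mvu S x y d * cw (fu (wU S (mvu S x y)) d)) + _ + 6120 * n3 S,
      _)) = _
    rw [hcost]
    rfl
  · by_cases c0 : S.sc.r x d
    · refine vi_cl (fun t ht => c0 t ht) (hc.req x ?_)
      show mvu S x y x ≠ 0
      rw [ux]
      omega
    · refine hc.req d ?_
      show mvu S x y d ≠ 0
      rw [uo d (fun h0 => c0 (by rw [h0])) (fun h0 => c0 (by rw [h0]; exact hsc))]
      exact hd

/-- the potential of the tie-break -/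
def tbs (tb : ℕ → ℕ → ℕ) (S : St D V) : ℕ := ∑ d, tb (S.u d) (S.rdeg (S.M.v d))

/-- a minimal counterexample in star form with the smallest value of the tie-break -/
structure MCt (tb : ℕ → ℕ → ℕ) (Δ : ℕ) (S : St D V) (L : D → Bool) (w : D → ℕ) : Prop where
  mc : MC Δ S L w
  st : IsStar S
  mt : ∀ (D' V' : Type) [Fintype D'] [DecidableEq V'] (S' : St D' V') (L' : D' → Bool)
    (w' : D' → ℕ), MC Δ S' L' w' → IsStar S' → tbs tb S ≤ tbs tb S'

theorem MC.exists_mct (hΔ : Δ ≤ 6) (h : MC Δ S L w) (tb : ℕ → ℕ → ℕ) :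
    ∃ (D' V' : Type) (_ : Fintype D') (_ : DecidableEq V') (S' : St D' V') (L' : D' → Bool)
      (w' : D' → ℕ), MCt tb Δ S' L' w' := by
  classical
  let P : ℕ → Prop := fun n => ∃ (D' V' : Type) (_ : Fintype D') (_ : DecidableEq V')
    (S' : St D' V') (L' : D' → Bool) (w' : D' → ℕ), MC Δ S' L' w' ∧ IsStar S' ∧ tbs tb S' = n
  have hP : ∃ n, P n := ⟨_, _, _, _, _, _, _, _, h.star hΔ, star_isStar _, rfl⟩
  obtain ⟨D', V', i1, i2, S', L', w', h1, h2, h3⟩ := Nat.find_spec hP
  refine ⟨D', V', i1, i2, S', L', w', h1, h2, fun D'' V'' j1 j2 S'' L'' w'' k1 k2 => ?_⟩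
  rw [h3]
  exact Nat.find_min' hP ⟨D'', V'', j1, j2, S'', L'', w'', k1, k2, rfl⟩

open Classical in
/-- the tie-break does not decrease if a unit is moved to a vertex which is not full -/
theorem MCt.mv {tb : ℕ → ℕ → ℕ} (hΔ : Δ ≤ 6) (h : MCt tb Δ S L w) {x y : D} (hr : S.real x = true)
    (hsc : S.sc.r x y) (hy : S.u y ≠ 0) (hxy : x ≠ y) (hsl : wgt S w (S.M.v x) < Δ) :
    tb (S.u x) (S.rdeg (S.M.v x)) + tb (S.u y) (S.rdeg (S.M.v y)) ≤
      tb (S.u x + 1) (S.rdeg (S.M.v x)) + tb (S.u y - 1) (S.rdeg (S.M.v y)) := by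
  have hm := h.mc.move hΔ hsc hy (h.mc.ok.real_A x hr) hxy hsl
  have hst : IsStar (wU S (mvu S x y)) :=
    { two := h.st.two
      one := h.st.one
      dead := h.st.dead
      ur := fun d hd => by
        have hd : mvu S x y d ≠ 0 := hd
        unfold mvu at hd
        split_ifs at hd with c1 c2
        · rw [c1]; exact hr
        · rw [c2]; exact h.st.ur y hy
        · exact h.st.ur d hd
      pl3 := h.st.pl3 }
  have h1 := h.mt _ _ _ _ _ hm hst
  have key := sum_shift (f := fun d => tb (S.u d) (S.rdeg (S.M.v d)))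
    (g := fun d => tb (mvu S x y d) (S.rdeg (S.M.v d))) (x1 := x) (x2 := y) (y1 := x) (y2 := y)
    (y3 := x) (a1 := tb (S.u x + 1) (S.rdeg (S.M.v x)))
    (a2 := tb (S.u y - 1) (S.rdeg (S.M.v y))) (c1 := tb (S.u x) (S.rdeg (S.M.v x)))
    (c2 := tb (S.u y) (S.rdeg (S.M.v y))) (c3 := 0) (fun d => by
      show tb (S.u d) (S.rdeg (S.M.v d)) + _ + _ = tb (mvu S x y d) (S.rdeg (S.M.v d)) + _ + _ + _
      unfold mvu
      rw [ite_self]
      by_cases c1 : d = x
      · rw [c1, if_pos (rfl : x = x), if_pos (rfl : x = x), if_pos (rfl : x = x), if_neg hxy,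
          if_neg hxy]
        omega
      rw [if_neg c1, if_neg c1, if_neg c1]
      by_cases c2 : d = y
      · rw [c2, if_pos (rfl : y = y), if_pos (rfl : y = y), if_pos (rfl : y = y)]
        omega
      rw [if_neg c2, if_neg c2, if_neg c2])
  have key2 : tbs tb S + tb (S.u x + 1) (S.rdeg (S.M.v x)) + tb (S.u y - 1) (S.rdeg (S.M.v y)) =
    tbs tb (wU S (mvu S x y)) + tb (S.u x) (S.rdeg (S.M.v x)) +
      tb (S.u y) (S.rdeg (S.M.v y)) + 0 := key
  omega

/-- fewest double corners -/
def tbd (k _ : ℕ) : ℕ := if 2 ≤ k then 1 else 0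

/-- the vertices of a face with a double corner which have no unit there are full -/
theorem MCt.dbl (hΔ : Δ ≤ 6) (h : MCt tbd Δ S L w) {x y : D} (hr : S.real x = true)
    (hsc : S.sc.r x y) (hx : S.u x = 0) (hy : S.u y = 2) : wgt S w (S.M.v x) = Δ := by
  by_contra hn
  have h0 := wgt_le h.mc.ok.toWf (h.mc.ok.real_A x hr)
  have h1 := h.mv hΔ hr hsc (by omega) (fun h2 => by rw [← h2, hx] at hy; omega)
    (lt_of_le_of_ne h0 hn)
  rw [hx, hy] at h1
  simp [tbd] at h1

end Pool.FC7
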