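import Pool.Agent.FC6.GEul
import Pool.Agent.FC6.StarS
import Pool.Agent.FC7.Base

/-! # Real graphs which are connected: first return maps and Euler's formula

The same lemmas as for the minimal counterexamples of FC6, for every state which satisfies `Gd`. -/

open Finset

namespace Pool.FC7

open Pool.FC6 Pool.FC6.St

variable {D V : Type} [Fintype D] [DecidableEq V]

/-- the real graph is connected and contains all alive vertices -/
structure Gd (S : St D V) : Prop where
  real_α : ∀ d, S.real (S.M.α d) = S.real d
  real_A : ∀ d, S.real d = true → S.M.v d ∈ S.A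
  real_ne : ∀ d, S.real d = true → S.M.v d ≠ S.M.v (S.M.α d)
  A_im : ∀ x ∈ S.A, ∃ d, S.M.v d = x
  ne : S.A.Nonempty
  full : S.Full
  gcon : ∀ {X : Type} (K : V → X), (∀ d, S.real d = true → K (S.M.v (S.M.α d)) = K (S.M.v d)) →
    ∀ {x y : V}, x ∈ S.A → y ∈ S.A → K x = K y

variable {S : St D V}

/-- a function invariant under `α` and `nx` is constant on the real darts -/
theorem Gd.kcon (h : Gd S) {X : Type} [Inhabited X] (k : D → X)
    (hα : ∀ d, S.real d = true → k (S.M.α d) = k d)
    (hn : ∀ d, S.real d = true → k (S.nx d) = k d) {a b : D} (ha : S.real a = true)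
    (hb : S.real b = true) : k a = k b := by
  classical
  have hF := h.full
  let g : D → X := fun d => if S.M.v d ∈ S.A then k (S.fr d) else default
  have hg : ∀ d, g (S.M.σ d) = g d := by
    intro d
    by_cases hd : S.M.v d ∈ S.A
    · have hd' : S.M.v (S.M.σ d) ∈ S.A := by rw [S.M.vσ]; exact hd
      simp only [g, if_pos hd, if_pos hd']
      by_cases hr : S.real d = true
      · rw [fr_real hr]
        exact hn d hr
      · rw [fr_virt' hF hd (by simpa using hr)]
    · have hd' : S.M.v (S.M.σ d) ∉ S.A := by rw [S.M.vσ]; exact hd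
      simp only [g, if_neg hd, if_neg hd']
  have hrot : ∀ d e, S.M.v d = S.M.v e → g d = g e := fun d e he =>
    S.M.rot' g (fun d => by
      have := hg (S.M.α (S.M.φ (S.M.φ d)))
      rw [S.M.σρ] at this
      exact this.symm) he
  let K : V → X := fun x => if hx : ∃ d, S.M.v d = x then g hx.choose else default
  have hKv : ∀ d, K (S.M.v d) = g d := by
    intro d
    have hx : ∃ e, S.M.v e = S.M.v d := ⟨d, rfl⟩
    simp only [K, dif_pos hx]
    exact hrot _ _ hx.choose_spec
  have hgr : ∀ d, S.real d = true → g d = k d := by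
    intro d hd
    simp only [g, if_pos (h.real_A d hd), fr_real hd]
  have := h.gcon K (fun d hd => by
    have hd' : S.real (S.M.α d) = true := by rw [h.real_α, hd]
    rw [hKv, hKv, hgr d hd, hgr _ hd', hα d hd]) (h.real_A a ha) (h.real_A b hb)
  rw [hKv, hKv, hgr a ha, hgr b hb] at this
  exact this

/-- sums over the real darts are invariant under `nx` -/
theorem Gd.sum_nx (h : Gd S) (F : D → ℝ) :
    ∑ d, (if S.real d = true then F (S.nx d) else 0) = ∑ d, if S.real d = true then F d else 0 := by
  classical
  rw [← Finset.sum_filter, ← Finset.sum_filter]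
  have hF := h.full
  refine Finset.sum_nbij (fun d => S.nx d) ?_ ?_ ?_ ?_
  · intro d hd
    simp only [Finset.mem_filter, Finset.mem_univ, true_and] at hd ⊢
    exact real_nx hF (h.real_A d hd)
  · intro a ha b hb hab
    simp only [Finset.coe_filter, Finset.mem_univ, true_and, Set.mem_setOf_eq] at ha hb
    exact nx_inj hF ha hb (h.real_A a ha) (h.real_A b hb) hab
  · have hinj : Set.InjOn (fun d => S.nx d)
        ((Finset.univ.filter fun d => S.real d = true : Finset D) : Set D) := by
      intro a ha b hb hab
      simp only [Finset.coe_filter, Finset.mem_univ, true_and, Set.mem_setOf_eq] at ha hb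
      exact nx_inj hF ha hb (h.real_A a ha) (h.real_A b hb) hab
    refine Finset.surjOn_of_injOn_of_card_le _ ?_ hinj le_rfl
    intro d hd
    simp only [Finset.coe_filter, Finset.mem_univ, true_and, Set.mem_setOf_eq] at hd ⊢
    exact real_nx hF (h.real_A d hd)
  · intro d _; rfl

/-- a function on the boundary darts of the faces is a function of the faces -/
theorem Gd.bcon (h : Gd S) (b : D → ℝ) (hb : ∀ d, S.real d = true → b (S.B d) = b d) :
    ∃ H : D → ℝ, S.Cl H ∧ ∀ d, S.real d = true → H d = b d := by
  classical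
  have hF := h.full
  have hra : ∀ d, S.real (S.M.α d) = S.real d := h.real_α
  let w : D → ℝ := fun d => if S.real d = true then b d - b (S.M.α d) else 0
  have hw : ∀ d, w (S.M.α d) = - w d := by
    intro d
    simp only [w, hra, S.M.αα]
    split_ifs <;> ring
  have hnx : ∀ d, S.real d = true → b (S.nx d) = b (S.M.α d) := by
    intro d hd
    have := hb (S.M.α d) (by rw [hra, hd])
    unfold B at this
    rwa [S.M.αα] at this
  obtain ⟨H0, hH1, hH2⟩ := S.M.circ w hw (fun f => by
    have e1 : ∑ d, w d * (f (S.M.v (S.M.α d)) - f (S.M.v d)) =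
        - 2 * ∑ d, w d * f (S.M.v d) := by
      have : ∑ d, w d * f (S.M.v (S.M.α d)) = - ∑ d, w d * f (S.M.v d) := by
        rw [← S.M.sum_α (fun d => w d * f (S.M.v (S.M.α d))), ← Finset.sum_neg_distrib]
        refine Finset.sum_congr rfl fun d _ => ?_
        rw [hw, S.M.αα]; ring
      simp only [mul_sub, Finset.sum_sub_distrib]
      rw [this]; ring
    rw [e1]
    have e2 : ∑ d, w d * f (S.M.v d) = 0 := by
      have a1 : ∑ d, w d * f (S.M.v d) =
          ∑ d, (if S.real d = true then b d * f (S.M.v d) else 0) -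
            ∑ d, (if S.real d = true then b (S.M.α d) * f (S.M.v d) else 0) := by
        rw [← Finset.sum_sub_distrib]
        refine Finset.sum_congr rfl fun d _ => ?_
        simp only [w]
        split_ifs <;> ring
      have a2 : ∑ d, (if S.real d = true then b (S.M.α d) * f (S.M.v d) else 0) =
          ∑ d, (if S.real d = true then b (S.nx d) * f (S.M.v (S.nx d)) else 0) := by
        refine Finset.sum_congr rfl fun d _ => ?_
        by_cases hd : S.real d = true
        · rw [if_pos hd, if_pos hd, hnx d hd, v_nx]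
        · rw [if_neg hd, if_neg hd]
      rw [a1, a2, h.sum_nx (fun d => b d * f (S.M.v d)), sub_self]
    rw [e2, mul_zero])
  have hvirt : ∀ d, S.real d = false → H0 (S.M.α d) = H0 d := by
    intro d hd
    have := hH2 d
    simp only [w, hd] at this
    simp at this
    linarith
  have hC : S.Cl H0 := ⟨hH1, hvirt⟩
  obtain ⟨a0, ha0⟩ : ∃ a, S.real a = true := by
    obtain ⟨x, hx⟩ := h.ne
    obtain ⟨d, rfl⟩ := h.A_im x hx
    obtain ⟨e, _, he⟩ := hF d hx
    exact ⟨e, he⟩
  have hk : ∀ a, S.real a = true → b a - H0 a = b a0 - H0 a0 := by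
    intro a ha
    refine h.kcon (fun d => b d - H0 d) (fun d hd => ?_) (fun d hd => ?_) ha ha0
    · have := hH2 d
      simp only [w, hd, if_true] at this
      show b (S.M.α d) - H0 (S.M.α d) = b d - H0 d
      linarith
    · show b (S.nx d) - H0 (S.nx d) = b d - H0 d
      have h1 := hH2 d
      simp only [w, hd, if_true] at h1
      rw [hnx d hd, cl_nx hF hC (h.real_A d hd)]
      linarith
  refine ⟨fun d => H0 d + (b a0 - H0 a0), ⟨fun d => ?_, fun d hd => ?_⟩, fun d hd => ?_⟩
  · show H0 (S.M.φ d) + _ = H0 d + _
    rw [hH1]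
  · show H0 (S.M.α d) + _ = H0 d + _
    rw [hvirt d hd]
  · have := hk d hd
    show H0 d + (b a0 - H0 a0) = b d
    linarith

theorem Gd.exists_real (h : Gd S) : ∃ a, S.real a = true := by
  obtain ⟨x, hx⟩ := h.ne
  obtain ⟨d, rfl⟩ := h.A_im x hx
  obtain ⟨e, _, he⟩ := h.full d hx
  exact ⟨e, he⟩


theorem Gd.eul_le (h : Gd S) [Fintype (Quotient S.sc)] :
    S.A.card + Fintype.card (Quotient S.sc) ≤ Module.finrank ℝ S.Wm + 2 := by
  classical
  obtain ⟨a0, ha0⟩ := h.exists_real
  have hA0 := h.real_A a0 ha0
  have hra := h.real_α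
  let L : (({x // x ∈ S.A} → ℝ) × (Quotient S.sc → ℝ)) →ₗ[ℝ] (S.Wm × ℝ × ℝ) :=
    { toFun := fun x => (⟨fun d => if S.real d = true then
        (S.ex0 x.1 (S.M.v (S.M.α d)) - S.ex0 x.1 (S.M.v d)) +
        (x.2 (Quotient.mk S.sc d) - x.2 (Quotient.mk S.sc (S.M.α d))) else 0, by
          refine ⟨fun d => ?_, fun d hd => ?_⟩
          · simp only [hra, S.M.αα]
            split_ifs <;> ring
          · simp [hd]⟩, x.1 ⟨S.M.v a0, hA0⟩, x.2 (Quotient.mk S.sc a0))
      map_add' := fun x y => by
        refine Prod.ext (Subtype.ext (funext fun d => ?_)) rfl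
        simp only [ex0, Prod.fst_add, Prod.snd_add, Pi.add_apply, Submodule.coe_add]
        split_ifs <;> ring
      map_smul' := fun c x => by
        refine Prod.ext (Subtype.ext (funext fun d => ?_)) rfl
        simp only [ex0, Prod.smul_fst, Prod.smul_snd, Pi.smul_apply, smul_eq_mul,
          RingHom.id_apply, SetLike.val_smul]
        split_ifs <;> ring }
  have hinj : Function.Injective L := by
    rw [← LinearMap.ker_eq_bot, LinearMap.ker_eq_bot']
    rintro ⟨f, g⟩ h0
    have h1 : ∀ d, S.real d = true → (S.ex0 f (S.M.v (S.M.α d)) - S.ex0 f (S.M.v d)) +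
        (g (Quotient.mk S.sc d) - g (Quotient.mk S.sc (S.M.α d))) = 0 := by
      intro d hd
      have := congrArg (fun x : S.Wm × ℝ × ℝ => x.1.1 d) h0
      have h2 : (if S.real d = true then
        (S.ex0 f (S.M.v (S.M.α d)) - S.ex0 f (S.M.v d)) +
        (g (Quotient.mk S.sc d) - g (Quotient.mk S.sc (S.M.α d))) else 0) = 0 := this
      rwa [if_pos hd] at h2
    have h2 : f ⟨S.M.v a0, hA0⟩ = 0 := congrArg (fun x : S.Wm × ℝ × ℝ => x.2.1) h0
    have h3 : g (Quotient.mk S.sc a0) = 0 := congrArg (fun x : S.Wm × ℝ × ℝ => x.2.2) h0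
    let h' : D → ℝ := fun d => g (Quotient.mk S.sc d)
    have hφ : ∀ d, h' (S.M.φ d) = h' d := fun d => by simp only [h', sc_φ]
    have hv : ∀ d, S.real d = false → h' d - h' (S.M.α d) = 0 := fun d hd => by
      simp only [h', sc_α hd, sub_self]
    have h4 := S.M.orth (S.ex0 f) h' hφ
    have h6 : ∑ d, (h' d - h' (S.M.α d)) ^ 2 = 0 := by
      rw [← neg_eq_zero, ← Finset.sum_neg_distrib, ← h4]
      refine Finset.sum_congr rfl fun d _ => ?_
      by_cases hd : S.real d = true
      · have h5 := h1 d hd
        have : S.ex0 f (S.M.v (S.M.α d)) - S.ex0 f (S.M.v d) = - (h' d - h' (S.M.α d)) := by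
          simp only [h']; linarith
        rw [this]; ring
      · rw [hv d (by simpa using hd)]; ring
    have h7 : ∀ d, h' d - h' (S.M.α d) = 0 := by
      intro d
      have := (Finset.sum_eq_zero_iff_of_nonneg (fun d _ => sq_nonneg _)).1 h6 d
        (Finset.mem_univ _)
      exact pow_eq_zero_iff (two_ne_zero) |>.1 this
    have h8 : ∀ d, h' d = h' a0 := fun d =>
      S.M.conn h' hφ (fun d => by linarith [h7 d]) d a0
    have h9 : ∀ x ∈ S.A, S.ex0 f x = S.ex0 f (S.M.v a0) := fun x hx =>
      h.gcon (S.ex0 f) (fun d hd => by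
        have a := h1 d hd
        have b := h7 d
        simp only [h'] at b
        linarith) hx hA0
    have e0 : S.ex0 f (S.M.v a0) = 0 := by
      unfold ex0; rw [dif_pos hA0, h2]
    refine Prod.ext (funext ?_) (funext ?_)
    · rintro ⟨x, hx⟩
      have := h9 x hx
      rw [e0] at this
      unfold ex0 at this
      rw [dif_pos hx] at this
      exact this
    · intro q
      induction q using Quotient.inductionOn with
      | h d =>
        have := h8 d
        simp only [h'] at this
        show g (Quotient.mk S.sc d) = 0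
        rw [this, h3]
  have hle := LinearMap.finrank_le_finrank_of_injective hinj
  rw [Module.finrank_prod, Module.finrank_prod, Module.finrank_prod, Module.finrank_self,
    Module.finrank_fintype_fun_eq_card, Module.finrank_fintype_fun_eq_card, Fintype.card_coe] at hle
  omega

theorem Gd.eul_ge (h : Gd S) [Fintype (Quotient S.sc)] :
    Module.finrank ℝ S.Wm + 2 ≤ S.A.card + Fintype.card (Quotient S.sc) := by
  classical
  obtain ⟨a0, ha0⟩ := h.exists_real
  have hA0 := h.real_A a0 ha0
  have hra := h.real_α
  -- divergence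
  let Θ : S.Wm →ₗ[ℝ] ({x // x ∈ S.A} → ℝ) :=
    { toFun := fun w x => ∑ d, if S.M.v d = x.1 then w.1 d else 0
      map_add' := fun a b => by
        funext x
        simp only [Submodule.coe_add, Pi.add_apply]
        rw [← Finset.sum_add_distrib]
        refine Finset.sum_congr rfl fun d _ => ?_
        split_ifs <;> ring
      map_smul' := fun c a => by
        funext x
        simp only [SetLike.val_smul, Pi.smul_apply, smul_eq_mul, RingHom.id_apply]
        rw [Finset.mul_sum]
        refine Finset.sum_congr rfl fun d _ => ?_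
        split_ifs <;> ring }
  have hrn := LinearMap.finrank_range_add_finrank_ker Θ
  -- the range
  let sm : ({x // x ∈ S.A} → ℝ) →ₗ[ℝ] ℝ :=
    { toFun := fun g => ∑ x, g x
      map_add' := fun a b => by simp [Finset.sum_add_distrib]
      map_smul' := fun c a => by simp [Finset.mul_sum] }
  have h1 : LinearMap.range Θ ≤ LinearMap.ker sm := by
    rintro g ⟨w, rfl⟩
    rw [LinearMap.mem_ker]
    show ∑ x : {x // x ∈ S.A}, ∑ d, (if S.M.v d = x.1 then w.1 d else 0) = 0
    rw [Finset.sum_comm]
    have : ∀ d, ∑ x : {x // x ∈ S.A}, (if S.M.v d = x.1 then w.1 d else 0) = w.1 d := by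
      intro d
      by_cases hd : S.real d = true
      · rw [Finset.sum_eq_single ⟨S.M.v d, h.real_A d hd⟩]
        · simp
        · intro x _ hx
          rw [if_neg]
          intro h2
          exact hx (Subtype.ext h2.symm)
        · intro h2; exact absurd (Finset.mem_univ _) h2
      · rw [w.2.2 d (by simpa using hd)]
        simp
    simp only [this]
    have h2 : ∑ d, w.1 d = - ∑ d, w.1 d := by
      rw [← Finset.sum_neg_distrib, ← S.M.sum_α (fun d => w.1 d)]
      exact Finset.sum_congr rfl fun d _ => w.2.1 d
    linarith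
  have h2 : Module.finrank ℝ (LinearMap.ker sm) + 1 = S.A.card := by
    have hs := LinearMap.finrank_range_add_finrank_ker sm
    have hsurj : LinearMap.range sm = ⊤ := by
      rw [LinearMap.range_eq_top]
      intro r
      refine ⟨fun x => if x = ⟨S.M.v a0, hA0⟩ then r else 0, ?_⟩
      show ∑ x : {x // x ∈ S.A}, (if x = ⟨S.M.v a0, hA0⟩ then r else 0) = r
      simp
    rw [hsurj, finrank_top, Module.finrank_self, Module.finrank_fintype_fun_eq_card,
      Fintype.card_coe] at hs
    omega
  have h3 := Submodule.finrank_mono h1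
  -- the kernel
  let Γ : (Quotient S.sc → ℝ) →ₗ[ℝ] (D → ℝ) :=
    { toFun := fun g d => if S.real d = true then
        g (Quotient.mk S.sc d) - g (Quotient.mk S.sc (S.M.α d)) else 0
      map_add' := fun a b => by
        funext d
        simp only [Pi.add_apply]
        split_ifs <;> ring
      map_smul' := fun c a => by
        funext d
        simp only [Pi.smul_apply, smul_eq_mul, RingHom.id_apply]
        split_ifs <;> ring }
  have h4 : (LinearMap.ker Θ).map S.Wm.subtype ≤ LinearMap.range Γ := by
    rintro _ ⟨w, hw, rfl⟩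
    have hw' : Θ w = 0 := hw
    obtain ⟨H, hH1, hH2⟩ := S.M.circ w.1 w.2.1 (fun f => by
      have e1 : ∑ d, w.1 d * (f (S.M.v (S.M.α d)) - f (S.M.v d)) =
          - 2 * ∑ d, w.1 d * f (S.M.v d) := by
        have : ∑ d, w.1 d * f (S.M.v (S.M.α d)) = - ∑ d, w.1 d * f (S.M.v d) := by
          rw [← S.M.sum_α (fun d => w.1 d * f (S.M.v (S.M.α d))), ← Finset.sum_neg_distrib]
          refine Finset.sum_congr rfl fun d _ => ?_
          rw [w.2.1, S.M.αα]; ring
        simp only [mul_sub, Finset.sum_sub_distrib]
        rw [this]; ring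
      rw [e1]
      have e2 : ∑ d, w.1 d * f (S.M.v d) =
          ∑ x : {x // x ∈ S.A}, f x.1 * ∑ d, (if S.M.v d = x.1 then w.1 d else 0) := by
        simp only [Finset.mul_sum]
        rw [Finset.sum_comm]
        refine Finset.sum_congr rfl fun d _ => ?_
        by_cases hd : S.real d = true
        · rw [Finset.sum_eq_single ⟨S.M.v d, h.real_A d hd⟩]
          · simp [mul_comm]
          · intro x _ hx
            rw [if_neg, mul_zero]
            intro h2
            exact hx (Subtype.ext h2.symm)
          · intro h2; exact absurd (Finset.mem_univ _) h2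
        · rw [w.2.2 d (by simpa using hd)]
          simp
      rw [e2]
      have e3 : ∀ x : {x // x ∈ S.A}, ∑ d, (if S.M.v d = x.1 then w.1 d else 0) = 0 :=
        fun x => congrFun hw' x
      simp [e3])
    have hHv : ∀ d, S.real d = false → H (S.M.α d) = H d := by
      intro d hd
      have h5 := hH2 d
      rw [w.2.2 d hd] at h5
      linarith
    have hC : S.Cl H := ⟨hH1, hHv⟩
    refine ⟨fun q => H q.out, ?_⟩
    funext d
    show (if S.real d = true then H (Quotient.mk S.sc d).out -
      H (Quotient.mk S.sc (S.M.α d)).out else 0) = w.1 d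
    have e4 : ∀ d, H (Quotient.mk S.sc d).out = H d := fun d =>
      cl_sc hC (Quotient.exact (Quotient.out_eq _))
    by_cases hd : S.real d = true
    · rw [if_pos hd, e4, e4, hH2 d]
    · rw [if_neg hd, w.2.2 d (by simpa using hd)]
  have h5 : Module.finrank ℝ (LinearMap.range Γ) + 1 ≤ Fintype.card (Quotient S.sc) := by
    have hs := LinearMap.finrank_range_add_finrank_ker Γ
    rw [Module.finrank_fintype_fun_eq_card] at hs
    have : 1 ≤ Module.finrank ℝ (LinearMap.ker Γ) := by
      rw [Nat.one_le_iff_ne_zero, Ne, Submodule.finrank_eq_zero]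
      intro hb
      have h6 : (fun _ => (1 : ℝ)) ∈ LinearMap.ker Γ := by
        rw [LinearMap.mem_ker]
        funext d
        show (if S.real d = true then (1 : ℝ) - 1 else 0) = 0
        split_ifs <;> ring
      rw [hb, Submodule.mem_bot] at h6
      have := congrFun h6 (Quotient.mk S.sc a0)
      simp at this
    omega
  have h6 := Submodule.finrank_mono h4
  have h7 : Module.finrank ℝ ((LinearMap.ker Θ).map S.Wm.subtype) =
      Module.finrank ℝ (LinearMap.ker Θ) :=
    Submodule.finrank_map_subtype_eq _ _
  omega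

/-- Euler's formula for the real graph -/
theorem Gd.euler (h : Gd S) [Fintype (Quotient S.sc)] :
    2 * S.A.card + 2 * Fintype.card (Quotient S.sc) =
      (Finset.univ.filter fun d => S.real d = true).card + 4 := by
  have h1 := h.eul_le
  have h2 := h.eul_ge
  have h3 := finrank_Wm h.real_α
  omega

theorem Gd.real_B (h : Gd S) {d : D} (hd : S.real d = true) : S.real (S.B d) = true :=
  real_nx h.full (h.real_A _ (by rw [h.real_α, hd]))

theorem Gd.cl_B (h : Gd S) {X : Type} {t : D → X} (ht : S.Cl t) {d : D}
    (hd : S.real d = true) : t (S.B d) = t d := by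
  unfold B
  rw [cl_nx h.full ht (h.real_A _ (by rw [h.real_α, hd])), S.M.αα]


/-- every class contains a real dart -/
theorem Gd.class_real (h : Gd S) (d : D) :
    ∃ a, S.real a = true ∧ Quotient.mk S.sc a = Quotient.mk S.sc d := by
  classical
  by_contra hc
  push Not at hc
  obtain ⟨a0, ha0⟩ := h.exists_real
  have := S.M.conn (fun e => if Quotient.mk S.sc e = Quotient.mk S.sc d then (1 : ℝ) else 0)
    (fun e => by
      show (if Quotient.mk S.sc (S.M.φ e) = Quotient.mk S.sc d then (1 : ℝ) else 0) =
        if Quotient.mk S.sc e = Quotient.mk S.sc d then (1 : ℝ) else 0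
      rw [sc_φ]) (fun e => by
      show (if Quotient.mk S.sc (S.M.α e) = Quotient.mk S.sc d then (1 : ℝ) else 0) =
        if Quotient.mk S.sc e = Quotient.mk S.sc d then (1 : ℝ) else 0
      by_cases he : S.real e = true
      · rw [if_neg (hc e he), if_neg (hc _ (by rw [h.real_α, he]))]
      · rw [sc_α (by simpa using he)]) a0 d
  rw [if_neg (hc a0 ha0), if_pos rfl] at this
  exact zero_ne_one this


end Pool.FC7
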