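import Pool.Agent.FC7.DlD
import Pool.Agent.FC7.NrA
import Pool.Agent.FC7.FtA

/-! # Two adjacent vertices inside of a closed curve of length four: rotations -/

open Finset

set_option linter.unusedSectionVars false

namespace Pool.FC7

open Pool.FC6 Pool.FC6.St

variable {D V : Type} [Fintype D] [DecidableEq V] {S : St D V} {L : D → Bool} {w : D → ℕ} {Δ : ℕ}

theorem mem_σ4 {z y : D} (hz : S.M.σ (S.M.σ (S.M.σ (S.M.σ z))) = z) (hy : S.M.v y = S.M.v z) :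
    y = z ∨ y = S.M.σ z ∨ y = S.M.σ (S.M.σ z) ∨ y = S.M.σ (S.M.σ (S.M.σ z)) := by
  obtain ⟨k, hk⟩ := S.M.σ_orbit hy.symm
  rw [← hk]
  clear hk hy
  induction k with
  | zero => simp
  | succ k ih =>
    rw [Function.iterate_succ_apply']
    rcases ih with h1 | h1 | h1 | h1
    · right; left; rw [h1]
    · right; right; left; rw [h1]
    · right; right; right; rw [h1]
    · left; rw [h1, hz]

theorem mem_σ5 {z y : D} (hz : S.M.σ (S.M.σ (S.M.σ (S.M.σ (S.M.σ z)))) = z)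
    (hy : S.M.v y = S.M.v z) :
    y = z ∨ y = S.M.σ z ∨ y = S.M.σ (S.M.σ z) ∨ y = S.M.σ (S.M.σ (S.M.σ z)) ∨
      y = S.M.σ (S.M.σ (S.M.σ (S.M.σ z))) := by
  obtain ⟨k, hk⟩ := S.M.σ_orbit hy.symm
  rw [← hk]
  clear hk hy
  induction k with
  | zero => simp
  | succ k ih =>
    rw [Function.iterate_succ_apply']
    rcases ih with h1 | h1 | h1 | h1 | h1
    · right; left; rw [h1]
    · right; right; left; rw [h1]
    · right; right; right; left; rw [h1]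
    · right; right; right; right; rw [h1]
    · left; rw [h1, hz]

/-- a vertex with four real darts, three known sectors and at least five darts -/
theorem fifth (h : Rg S) (hS : IsStar S) (W : Wf Δ S L w) {z z4 : D} (r0 : S.real z = true)
    (r1 : S.real (S.M.σ z) = true) (r2 : S.real (S.M.σ (S.M.σ z)) = true)
    (r4 : S.real z4 = true) (h4 : S.M.σ z4 = z) (hd : S.rdeg (S.M.v z) = 4)
    (hn : 5 ≤ S.nd z) : S.real (S.M.σ (S.M.σ (S.M.σ z))) = false ∧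
      S.M.σ (S.M.σ (S.M.σ (S.M.σ z))) = z4 := by
  have n1 : S.nxr z = S.M.σ z := if_pos r1
  have n2 : S.nxr (S.M.σ z) = S.M.σ (S.M.σ z) := if_pos r2
  have n4 : S.nxr z4 = z := by
    unfold nxr
    rw [if_pos (by rw [h4]; exact r0), h4]
  have v4 : S.M.v z4 = S.M.v z := by rw [← h4, S.M.vσ]
  obtain ⟨i, hi, e⟩ := hS.nxr_surj W r0 r4 v4
  rw [hd] at hi
  have key : ∀ j, 0 < j → j < 4 → S.nxr^[j] z ≠ z := fun j h1 h2 =>
    hS.nxr_ne W r0 h1 (by rw [hd]; exact h2)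
  have i3 : i = 3 := by
    by_contra hne
    have h1 : S.nxr^[i + 1] z = z := by
      rw [Function.iterate_succ_apply', e, n4]
    exact key (i + 1) (by omega) (by omega) h1
  have e2 : S.nxr (S.M.σ (S.M.σ z)) = z4 := by
    rw [← e, i3]
    show _ = S.nxr (S.nxr (S.nxr z))
    rw [n1, n2]
  by_cases c1 : S.real (S.M.σ (S.M.σ (S.M.σ z))) = true
  · exfalso
    have h5 : S.nxr (S.M.σ (S.M.σ z)) = S.M.σ (S.M.σ (S.M.σ z)) := if_pos c1
    have h6 : S.M.σ (S.M.σ (S.M.σ (S.M.σ z))) = z := by rw [← h5, e2, h4]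
    have := h.nd_four hS W h6
    omega
  · refine ⟨by simpa using c1, ?_⟩
    have h5 : S.nxr (S.M.σ (S.M.σ z)) = S.M.σ (S.M.σ (S.M.σ (S.M.σ z))) := if_neg c1
    rw [← h5, e2]

/-- the rotations at the two vertices -/
structure Tw (S : St D V) (x : D) : Prop where
  r0 : S.real x = true
  r1 : S.real (S.M.σ x) = true
  r2 : S.real (S.M.σ (S.M.σ x)) = true
  r3 : S.real (S.M.σ (S.M.σ (S.M.σ x))) = true
  cx : S.M.σ (S.M.σ (S.M.σ (S.M.σ x))) = x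
  s1 : S.real (S.M.σ (S.M.α x)) = true
  s2 : S.real (S.M.σ (S.M.σ (S.M.α x))) = true
  s3 : S.real (S.M.σ (S.M.σ (S.M.σ (S.M.α x)))) = true
  cy : S.M.σ (S.M.σ (S.M.σ (S.M.σ (S.M.α x)))) = S.M.α x

variable {x : D}

theorem Tw.symm (T : Tw S x) (W : Wf Δ S L w) : Tw S (S.M.α x) where
  r0 := by rw [W.real_α]; exact T.r0
  r1 := T.s1
  r2 := T.s2
  r3 := T.s3
  cx := T.cy
  s1 := by rw [S.M.αα]; exact T.r1
  s2 := by rw [S.M.αα]; exact T.r2
  s3 := by rw [S.M.αα]; exact T.r3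
  cy := by rw [S.M.αα]; exact T.cx

/-- the dart at `c2` to the first vertex: `σ` of the dart to the second vertex -/
theorem Tw.z1 (T : Tw S x) : S.M.σ (S.M.α (S.M.σ (S.M.α x))) =
    S.M.α (S.M.σ (S.M.σ (S.M.σ x))) := by
  have e1 : S.M.φ (S.M.α (S.M.σ (S.M.σ (S.M.σ x)))) = x := T.cx
  have e2 : S.M.σ (S.M.α x) = S.M.φ x := by
    show S.M.φ (S.M.α (S.M.α x)) = _
    rw [S.M.αα]
  rw [e2]
  show S.M.φ (S.M.α (S.M.α (S.M.φ x))) = _
  rw [S.M.αα]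
  apply S.M.φinj
  rw [S.M.φ3, e1]

theorem Tw.z2 (_ : Tw S x) : S.M.σ (S.M.α (S.M.σ (S.M.σ (S.M.σ x)))) =
    S.M.φ (S.M.σ (S.M.σ (S.M.σ x))) := by
  show S.M.φ (S.M.α (S.M.α _)) = _
  rw [S.M.αα]

/-- `σ (σ x)` backwards -/
theorem Tw.z2' (_ : Tw S x) : S.M.φ (S.M.φ (S.M.σ (S.M.σ (S.M.σ x)))) =
    S.M.α (S.M.σ (S.M.σ x)) := by
  have e1 : S.M.φ (S.M.α (S.M.σ (S.M.σ x))) = S.M.σ (S.M.σ (S.M.σ x)) := rfl
  rw [← e1, S.M.φ3]

/-- the dart at `c2` to the fourth neighbour of the second vertex -/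
theorem Tw.z4 (_ : Tw S x) : S.M.σ (S.M.α (S.M.φ (S.M.σ (S.M.σ (S.M.α x))))) =
    S.M.α (S.M.σ (S.M.α x)) := by
  have e1 : S.M.φ (S.M.α (S.M.σ (S.M.α x))) = S.M.σ (S.M.σ (S.M.α x)) := rfl
  show S.M.φ (S.M.α (S.M.α _)) = _
  rw [S.M.αα, ← e1, S.M.φ3]

end Pool.FC7
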