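import Pool.Agent.FC7.GdA

/-! # Two adjacent vertices inside of a closed curve of length four: a region with three vertices -/

open Finset

set_option linter.unusedSectionVars false

namespace Pool.FC7

open Pool.FC6 Pool.FC6.St

variable {D V : Type} [Fintype D] [DecidableEq V] {S : St D V} {L : D → Bool} {w : D → ℕ} {Δ : ℕ}

/-- four real darts with different heads which do not leave -/
theorem leave4 {s : V → Bool} {p : V} {d1 d2 d3 d4 : D} (r1 : S.real d1 = true)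
    (r2 : S.real d2 = true) (r3 : S.real d3 = true) (r4 : S.real d4 = true)
    (v1 : S.M.v d1 = p) (v2 : S.M.v d2 = p) (v3 : S.M.v d3 = p) (v4 : S.M.v d4 = p)
    (t1 : s (S.M.v (S.M.α d1)) = true) (t2 : s (S.M.v (S.M.α d2)) = true)
    (t3 : s (S.M.v (S.M.α d3)) = true) (t4 : s (S.M.v (S.M.α d4)) = true)
    (n12 : d1 ≠ d2) (n13 : d1 ≠ d3) (n14 : d1 ≠ d4) (n23 : d2 ≠ d3) (n24 : d2 ≠ d4)
    (n34 : d3 ≠ d4) :
    (∑ d, if S.real d = true ∧ S.M.v d = p ∧ s (S.M.v (S.M.α d)) = false then 1 else 0) + 4 ≤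
      S.rdeg p := by
  classical
  have hc : ({d1, d2, d3, d4} : Finset D).card = 4 := by
    rw [Finset.card_insert_of_notMem (by simp [n12, n13, n14]),
      Finset.card_insert_of_notMem (by simp [n23, n24]),
      Finset.card_insert_of_notMem (by simp [n34]), Finset.card_singleton]
  have h1 : (∑ d, if d ∈ ({d1, d2, d3, d4} : Finset D) then 1 else 0) = 4 := by
    rw [Finset.sum_boole, Finset.filter_mem_eq_inter, Finset.univ_inter, hc]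
    rfl
  rw [← h1, ← Finset.sum_add_distrib]
  unfold St.rdeg
  refine Finset.sum_le_sum fun d _ => ?_
  by_cases c1 : d ∈ ({d1, d2, d3, d4} : Finset D)
  · have c2 : S.M.v d = p ∧ S.real d = true ∧ s (S.M.v (S.M.α d)) = true := by
      simp only [Finset.mem_insert, Finset.mem_singleton] at c1
      rcases c1 with rfl | rfl | rfl | rfl
      · exact ⟨v1, r1, t1⟩
      · exact ⟨v2, r2, t2⟩
      · exact ⟨v3, r3, t3⟩
      · exact ⟨v4, r4, t4⟩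
    have c3 : ¬ (S.real d = true ∧ S.M.v d = p ∧ s (S.M.v (S.M.α d)) = false) := fun h0 => by
      rw [c2.2.2] at h0
      exact absurd h0.2.2 (by decide)
    rw [if_neg c3, if_pos c1, if_pos (⟨c2.1, c2.2.1⟩ : S.M.v d = p ∧ S.real d = true)]
  · rw [if_neg c1]
    by_cases c2 : S.real d = true ∧ S.M.v d = p ∧ s (S.M.v (S.M.α d)) = false
    · rw [if_pos c2, if_pos (⟨c2.2.1, c2.1⟩ : S.M.v d = p ∧ S.real d = true)]
    · rw [if_neg c2]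
      exact Nat.zero_le _

/-- closed curves of length four through the dart `k` -/
def Q4 (S : St D V) (k : D) : Prop :=
  ∀ e e' r, S.M.v e = S.M.v k → S.M.v e' = S.M.v (S.M.α k) → S.M.v r = S.M.v (S.M.α e) →
    S.M.v (S.M.α r) = S.M.v (S.M.α e') → S.M.v (S.M.α e) ≠ S.M.v (S.M.α k) →
    S.M.v (S.M.α e') ≠ S.M.v k → P4 S k e e' ∨ P4 S (S.M.α k) e' e

theorem Q4.symm {k : D} (h : Q4 S k) : Q4 S (S.M.α k) := by
  intro e e' r h1 h2 h3 h4 h5 h6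
  rw [S.M.αα] at h2 h5 ⊢
  exact (h e' e (S.M.α r) h2 h1 h4 (by rw [S.M.αα]; exact h3) h6 h5).symm

/-- the darts at the two vertices and at one of the two common neighbours -/
structure Six (S : St D V) (x0 x1 x2 x3 y0 y1 y2 y3 z0 z1 z2 z3 z4 : D) : Prop where
  sx0 : S.M.σ x0 = x1
  sx1 : S.M.σ x1 = x2
  sx2 : S.M.σ x2 = x3
  sx3 : S.M.σ x3 = x0
  sy0 : S.M.σ y0 = y1
  sy1 : S.M.σ y1 = y2
  sy2 : S.M.σ y2 = y3
  sy3 : S.M.σ y3 = y0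
  sz0 : S.M.σ z0 = z1
  sz1 : S.M.σ z1 = z2
  sz2 : S.M.σ z2 = z3
  sz3 : S.M.σ z3 = z4
  sz4 : S.M.σ z4 = z0
  ax0 : S.M.α x0 = y0
  az0 : S.M.α z0 = y1
  az1 : S.M.α z1 = x3
  sa : S.M.σ (S.M.α z2) = S.M.α x2
  sb : S.M.σ (S.M.α y2) = S.M.α z4
  rx0 : S.real x0 = true
  rx1 : S.real x1 = true
  rx2 : S.real x2 = true
  rx3 : S.real x3 = true
  ry1 : S.real y1 = true
  ry2 : S.real y2 = true
  ry3 : S.real y3 = true
  rz2 : S.real z2 = true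
  rz3 : S.real z3 = false
  rz4 : S.real z4 = true
  hc : S.M.v (S.M.α x1) = S.M.v (S.M.α y3)

/-- the six vertices are different -/
structure Dst (S : St D V) (x0 x1 x2 x3 y0 y1 y2 y3 z0 z1 z2 z3 z4 : D) : Prop where
  A'A : S.M.v (S.M.α x2) ≠ S.M.v x0
  A'C : S.M.v (S.M.α x2) ≠ S.M.v z0
  A'B' : S.M.v (S.M.α x2) ≠ S.M.v (S.M.α y2)
  A'C1 : S.M.v (S.M.α x2) ≠ S.M.v (S.M.α x1)
  B'B : S.M.v (S.M.α y2) ≠ S.M.v y0
  B'C : S.M.v (S.M.α y2) ≠ S.M.v z0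
  B'C1 : S.M.v (S.M.α y2) ≠ S.M.v (S.M.α x1)
  A'B : S.M.v (S.M.α x2) ≠ S.M.v y0
  B'A : S.M.v (S.M.α y2) ≠ S.M.v x0
  C1A : S.M.v (S.M.α x1) ≠ S.M.v x0
  C1B : S.M.v (S.M.α x1) ≠ S.M.v y0
  C1C : S.M.v (S.M.α x1) ≠ S.M.v z0
  AC : S.M.v x0 ≠ S.M.v z0
  BC : S.M.v y0 ≠ S.M.v z0

section

variable {x0 x1 x2 x3 y0 y1 y2 y3 z0 z1 z2 z3 z4 : D}
  (X : Six S x0 x1 x2 x3 y0 y1 y2 y3 z0 z1 z2 z3 z4)
include X

theorem Six.vx (i : D) (h : i = x0 ∨ i = x1 ∨ i = x2 ∨ i = x3) : S.M.v i = S.M.v x0 := by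
  rcases h with rfl | rfl | rfl | rfl
  · rfl
  · rw [← X.sx0, S.M.vσ]
  · rw [← X.sx1, S.M.vσ, ← X.sx0, S.M.vσ]
  · rw [← X.sx2, S.M.vσ, ← X.sx1, S.M.vσ, ← X.sx0, S.M.vσ]

theorem Six.vy (i : D) (h : i = y0 ∨ i = y1 ∨ i = y2 ∨ i = y3) : S.M.v i = S.M.v y0 := by
  rcases h with rfl | rfl | rfl | rfl
  · rfl
  · rw [← X.sy0, S.M.vσ]
  · rw [← X.sy1, S.M.vσ, ← X.sy0, S.M.vσ]
  · rw [← X.sy2, S.M.vσ, ← X.sy1, S.M.vσ, ← X.sy0, S.M.vσ]

theorem Six.vz (i : D) (h : i = z0 ∨ i = z1 ∨ i = z2 ∨ i = z3 ∨ i = z4) :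
    S.M.v i = S.M.v z0 := by
  rcases h with rfl | rfl | rfl | rfl | rfl
  · rfl
  · rw [← X.sz0, S.M.vσ]
  · rw [← X.sz1, S.M.vσ, ← X.sz0, S.M.vσ]
  · rw [← X.sz2, S.M.vσ, ← X.sz1, S.M.vσ, ← X.sz0, S.M.vσ]
  · rw [← X.sz3, S.M.vσ, ← X.sz2, S.M.vσ, ← X.sz1, S.M.vσ, ← X.sz0, S.M.vσ]

theorem Six.FA {y : D} (hy : S.M.v y = S.M.v x0) : y = x0 ∨ y = x1 ∨ y = x2 ∨ y = x3 := by
  have := mem_σ4 (z := x0) (y := y) (by rw [X.sx0, X.sx1, X.sx2, X.sx3]) hy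
  rwa [X.sx0, X.sx1, X.sx2] at this

theorem Six.FB {y : D} (hy : S.M.v y = S.M.v y0) : y = y0 ∨ y = y1 ∨ y = y2 ∨ y = y3 := by
  have := mem_σ4 (z := y0) (y := y) (by rw [X.sy0, X.sy1, X.sy2, X.sy3]) hy
  rwa [X.sy0, X.sy1, X.sy2] at this

theorem Six.FC {y : D} (hy : S.M.v y = S.M.v z0) :
    y = z0 ∨ y = z1 ∨ y = z2 ∨ y = z3 ∨ y = z4 := by
  have := mem_σ5 (z := z0) (y := y) (by rw [X.sz0, X.sz1, X.sz2, X.sz3, X.sz4]) hy
  rwa [X.sz0, X.sz1, X.sz2, X.sz3] at this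

theorem Six.ry0 (W : Wf Δ S L w) : S.real y0 = true := by
  rw [← X.ax0, W.real_α]; exact X.rx0

theorem Six.hx0 : S.M.v (S.M.α x0) = S.M.v y0 := by rw [X.ax0]

theorem Six.hy0 : S.M.v (S.M.α y0) = S.M.v x0 := by rw [← X.ax0, S.M.αα]

theorem Six.hx3 : S.M.v (S.M.α x3) = S.M.v z0 := by
  rw [← X.az1, S.M.αα]; exact X.vz _ (by simp)

theorem Six.hy1 : S.M.v (S.M.α y1) = S.M.v z0 := by rw [← X.az0, S.M.αα]

theorem Six.hz0 : S.M.v (S.M.α z0) = S.M.v y0 := by rw [X.az0]; exact X.vy _ (by simp)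

theorem Six.hz1 : S.M.v (S.M.α z1) = S.M.v x0 := by rw [X.az1]; exact X.vx _ (by simp)

theorem Six.hz2 : S.M.v (S.M.α z2) = S.M.v (S.M.α x2) := by rw [← X.sa, S.M.vσ]

theorem Six.hz4 : S.M.v (S.M.α z4) = S.M.v (S.M.α y2) := by rw [← X.sb, S.M.vσ]

/-- no dart from the first vertex to the last neighbour of the second one -/
theorem Six.noAB (N : Dst S x0 x1 x2 x3 y0 y1 y2 y3 z0 z1 z2 z3 z4) {r : D}
    (h1 : S.M.v r = S.M.v x0) (h2 : S.M.v (S.M.α r) = S.M.v (S.M.α y2)) : False := by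
  rcases X.FA h1 with rfl | rfl | rfl | rfl
  · rw [X.hx0] at h2; exact N.B'B h2.symm
  · exact N.B'C1 h2.symm
  · exact N.A'B' h2
  · rw [X.hx3] at h2; exact N.B'C h2.symm

theorem Six.noBA (N : Dst S x0 x1 x2 x3 y0 y1 y2 y3 z0 z1 z2 z3 z4) {r : D}
    (h1 : S.M.v r = S.M.v y0) (h2 : S.M.v (S.M.α r) = S.M.v (S.M.α x2)) : False := by
  rcases X.FB h1 with rfl | rfl | rfl | rfl
  · rw [X.hy0] at h2; exact N.A'A h2.symm
  · rw [X.hy1] at h2; exact N.A'C h2.symm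
  · exact N.A'B' h2.symm
  · rw [← X.hc] at h2; exact N.A'C1 h2.symm

/-- the heads at the two vertices are alive -/
theorem Six.aA (W : Wf Δ S L w) {r : D} (h1 : S.M.v r = S.M.v x0) :
    S.M.v (S.M.α r) ∈ S.A := by
  have : S.real r = true := by
    rcases X.FA h1 with rfl | rfl | rfl | rfl
    exacts [X.rx0, X.rx1, X.rx2, X.rx3]
  exact W.real_A _ (by rw [W.real_α]; exact this)

theorem Six.aB (W : Wf Δ S L w) {r : D} (h1 : S.M.v r = S.M.v y0) :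
    S.M.v (S.M.α r) ∈ S.A := by
  have : S.real r = true := by
    rcases X.FB h1 with rfl | rfl | rfl | rfl
    exacts [X.ry0 W, X.ry1, X.ry2, X.ry3]
  exact W.real_A _ (by rw [W.real_α]; exact this)

theorem Six.vC (W : Wf Δ S L w) : S.M.v z0 ∈ S.A := by
  rw [← X.hy1]
  exact W.real_A _ (by rw [W.real_α]; exact X.ry1)

theorem Six.dead (hS : IsStar S) (W : Wf Δ S L w) : S.M.v (S.M.α z3) ∉ S.A := by
  have h1 : S.M.v z3 = S.M.v z0 := X.vz _ (by simp)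
  exact hS.vhead W (by rw [h1]; exact X.vC W) X.rz3

/-- closed curves of length three at the common neighbour, first dart -/
theorem Six.fc2 (hS : IsStar S) (W : Wf Δ S L w) (hN : ∀ x ∈ S.A, S.N2 x)
    (N : Dst S x0 x1 x2 x3 y0 y1 y2 y3 z0 z1 z2 z3 z4)
    (hadj : ∀ r, S.M.v r = S.M.v (S.M.α x2) → S.M.v (S.M.α r) ≠ S.M.v (S.M.α y2)) :
    Fc3 S z2 := by
  intro e e' he he' hh
  rw [X.vz z2 (by simp)] at he
  have hA' : S.M.v (S.M.α x2) ∈ S.A := X.aA W (X.vx _ (by simp))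
  rw [X.hz2] at he'
  rcases X.FC he with rfl | rfl | rfl | rfl | rfl
  · exact (X.noBA N (r := S.M.α e') (by rw [← hh, X.hz0]) (by rw [S.M.αα]; exact he')).elim
  · right
    have h1 : S.M.v (S.M.α e') = S.M.v x0 := by rw [← hh, X.hz1]
    have h2 : S.M.α e' = x2 := hN (S.M.v x0) (W.real_A _ X.rx0) _ _ h1 (X.vx _ (by simp))
      (by rw [S.M.αα]; exact he')
    refine ⟨X.sz1, ?_⟩
    rw [X.sa, ← h2, S.M.αα]
  · rw [X.hz2] at hh
    exact (hS.loop W (r := e') (by rw [he']; exact hA') (by rw [← hh, he'])).elim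
  · left
    have e1 : S.M.φ (S.M.α z2) = e := X.sz2
    have e2 : S.M.φ (S.M.φ e) = S.M.α z2 := by rw [← e1, S.M.φ3]
    have h2 : e' = S.M.α (S.M.φ e) := by
      refine hN (S.M.v (S.M.α x2)) hA' _ _ he' ?_ ?_
      · rw [← S.M.vφ, e2, X.hz2]
      · rw [← hh, S.M.αα, S.M.vφ]
    refine ⟨X.sz2.symm, ?_⟩
    rw [h2]
    show S.M.φ (S.M.α (S.M.α (S.M.φ e))) = _
    rw [S.M.αα, e2]
  · exact (hadj e' he' (by rw [← hh, X.hz4])).elim

/-- closed curves of length three at the common neighbour, second dart -/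
theorem Six.fc4 (hS : IsStar S) (W : Wf Δ S L w) (hN : ∀ x ∈ S.A, S.N2 x)
    (N : Dst S x0 x1 x2 x3 y0 y1 y2 y3 z0 z1 z2 z3 z4)
    (hadj : ∀ r, S.M.v r = S.M.v (S.M.α x2) → S.M.v (S.M.α r) ≠ S.M.v (S.M.α y2)) :
    Fc3 S z4 := by
  intro e e' he he' hh
  rw [X.vz z4 (by simp)] at he
  have hB' : S.M.v (S.M.α y2) ∈ S.A := X.aB W (X.vy _ (by simp))
  rw [X.hz4] at he'
  rcases X.FC he with rfl | rfl | rfl | rfl | rfl
  · left
    have h1 : S.M.v (S.M.α e') = S.M.v y0 := by rw [← hh, X.hz0]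
    have h2 : S.M.α e' = y2 := hN (S.M.v y0) (W.real_A _ (X.ry0 W)) _ _ h1 (X.vy _ (by simp))
      (by rw [S.M.αα]; exact he')
    refine ⟨X.sz4.symm, ?_⟩
    rw [← X.sb, ← h2, S.M.αα]
  · exact (X.noAB N (r := S.M.α e') (by rw [← hh, X.hz1]) (by rw [S.M.αα]; exact he')).elim
  · exact (hadj (S.M.α e') (by rw [← hh, X.hz2]) (by rw [S.M.αα]; exact he')).elim
  · right
    have e1 : S.M.φ (S.M.α e) = z4 := X.sz3
    have e2 : S.M.φ (S.M.φ z4) = S.M.α e := by rw [← e1, S.M.φ3]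
    have h2 : e' = S.M.φ z4 := by
      refine hN (S.M.v (S.M.α y2)) hB' _ _ he' ?_ ?_
      · rw [S.M.vφ, X.hz4]
      · rw [← hh, ← e2, S.M.vφ]
    refine ⟨X.sz3, ?_⟩
    rw [h2]
    show _ = S.M.φ (S.M.α (S.M.α z4))
    rw [S.M.αα]
  · rw [X.hz4] at hh
    exact (hS.loop W (r := e') (by rw [he']; exact hB') (by rw [← hh, he'])).elim

end

end Pool.FC7
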