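import Pool.Agent.FC7.GdB

/-! # Two adjacent vertices inside of a closed curve of length four: closed curves of length four -/

open Finset

set_option linter.unusedSectionVars false

namespace Pool.FC7

open Pool.FC6 Pool.FC6.St

variable {D V : Type} [Fintype D] [DecidableEq V] {S : St D V} {L : D → Bool} {w : D → ℕ} {Δ : ℕ}

section

variable {x0 x1 x2 x3 y0 y1 y2 y3 z0 z1 z2 z3 z4 : D}
  (X : Six S x0 x1 x2 x3 y0 y1 y2 y3 z0 z1 z2 z3 z4)
include X

theorem Six.q4x (h : Rg S) (hS : IsStar S) (W : Wf Δ S L w)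
    (N : Dst S x0 x1 x2 x3 y0 y1 y2 y3 z0 z1 z2 z3 z4)
    (hadj : ∀ r, S.M.v r = S.M.v (S.M.α x2) → S.M.v (S.M.α r) ≠ S.M.v (S.M.α y2))
    (hh : ∀ r, S.M.v r = S.M.v (S.M.α x1) → S.M.v (S.M.α r) ≠ S.M.v (S.M.α z3)) :
    Q4 S x3 := by
  intro e e' r he he' hr hr' n1 n2
  rw [X.vx x3 (by simp)] at he n2
  rw [X.hx3] at he' n1
  have aA : S.M.v x0 ∈ S.A := W.real_A _ X.rx0
  have aB : S.M.v y0 ∈ S.A := W.real_A _ (X.ry0 W)
  have aA' : S.M.v (S.M.α x2) ∈ S.A := X.aA W (X.vx _ (by simp))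
  have ndB : S.nd y0 = 4 := h.nd_four hS W (by rw [X.sy0, X.sy1, X.sy2, X.sy3])
  have ax3 : S.M.α x3 = z1 := by rw [← X.az1, S.M.αα]
  rcases X.FA he with rfl | rfl | rfl | rfl
  · -- e = x0
    rw [X.hx0] at hr
    rcases X.FC he' with rfl | rfl | rfl | rfl | rfl
    · rw [X.hz0] at hr'
      exact (hS.loop W (r := r) (by rw [hr]; exact aB) (hr'.trans hr.symm)).elim
    · exact (n2 X.hz1).elim
    · exact (X.noBA N hr (hr'.trans X.hz2)).elim
    · have := X.aB W hr
      rw [hr'] at this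
      exact (X.dead hS W this).elim
    · left; left
      exact ⟨X.sx3.symm, by rw [X.sz4, X.sz0, ax3]⟩
  · -- e = x1
    rcases X.FC he' with rfl | rfl | rfl | rfl | rfl
    · left; right; left
      exact ⟨by rw [X.sx3, X.sx0], by rw [X.sz0, ax3]⟩
    · exact (n2 X.hz1).elim
    · right; left
      exact ⟨by rw [ax3, X.sz1], by rw [X.sx1, X.sx2, S.M.αα]⟩
    · exact (hh r hr hr').elim
    · left; right; right
      exact ⟨by rw [X.sx3, X.sx0], by rw [X.sz4, X.sz0, ax3], by rw [X.sx3, X.ax0]; exact ndB⟩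
  · -- e = x2
    rcases X.FC he' with rfl | rfl | rfl | rfl | rfl
    · exact (X.noBA N (r := S.M.α r) (hr'.trans X.hz0) (by rw [S.M.αα]; exact hr)).elim
    · exact (n2 X.hz1).elim
    · rw [X.hz2] at hr'
      exact (hS.loop W (r := r) (by rw [hr]; exact aA') (hr'.trans hr.symm)).elim
    · right; right; left
      exact ⟨by rw [ax3, X.sz1, X.sz2], by rw [X.sx2, S.M.αα]⟩
    · exact (hadj r hr (hr'.trans X.hz4)).elim
  · exact (n1 X.hx3).elim

theorem Six.q4y (h : Rg S) (hS : IsStar S) (W : Wf Δ S L w)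
    (N : Dst S x0 x1 x2 x3 y0 y1 y2 y3 z0 z1 z2 z3 z4)
    (hadj : ∀ r, S.M.v r = S.M.v (S.M.α x2) → S.M.v (S.M.α r) ≠ S.M.v (S.M.α y2))
    (hh : ∀ r, S.M.v r = S.M.v (S.M.α x1) → S.M.v (S.M.α r) ≠ S.M.v (S.M.α z3)) :
    Q4 S y1 := by
  intro e e' r he he' hr hr' n1 n2
  rw [X.vy y1 (by simp)] at he n2
  rw [X.hy1] at he' n1
  have aA : S.M.v x0 ∈ S.A := W.real_A _ X.rx0
  have aB' : S.M.v (S.M.α y2) ∈ S.A := X.aB W (X.vy _ (by simp))
  have ndA : S.nd x3 = 4 := h.nd_four hS W (by rw [X.sx3, X.sx0, X.sx1, X.sx2])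
  have ay1 : S.M.α y1 = z0 := by rw [← X.az0, S.M.αα]
  rcases X.FB he with rfl | rfl | rfl | rfl
  · -- e = y0
    rw [X.hy0] at hr
    rcases X.FC he' with rfl | rfl | rfl | rfl | rfl
    · exact (n2 X.hz0).elim
    · rw [X.hz1] at hr'
      exact (hS.loop W (r := r) (by rw [hr]; exact aA) (hr'.trans hr.symm)).elim
    · right; right; left
      exact ⟨by rw [ay1, X.sz0, X.sz1], by rw [X.sy0, S.M.αα]⟩
    · have := X.aA W hr
      rw [hr'] at this
      exact (X.dead hS W this).elim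
    · exact (X.noAB N hr (hr'.trans X.hz4)).elim
  · exact (n1 X.hy1).elim
  · -- e = y2
    rcases X.FC he' with rfl | rfl | rfl | rfl | rfl
    · exact (n2 X.hz0).elim
    · exact (X.noAB N (r := S.M.α r) (hr'.trans X.hz1) (by rw [S.M.αα]; exact hr)).elim
    · exact (hadj (S.M.α r) (hr'.trans X.hz2) (by rw [S.M.αα]; exact hr)).elim
    · left; left
      exact ⟨X.sy1.symm, by rw [X.sz3, X.sz4, ay1]⟩
    · rw [X.hz4] at hr'
      exact (hS.loop W (r := r) (by rw [hr]; exact aB') (hr'.trans hr.symm)).elim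
  · -- e = y3
    rw [← X.hc] at hr
    rcases X.FC he' with rfl | rfl | rfl | rfl | rfl
    · exact (n2 X.hz0).elim
    · right; left
      exact ⟨by rw [ay1, X.sz0], by rw [X.sy3, X.sy0, S.M.αα]⟩
    · right; right; right
      refine ⟨by rw [ay1, X.sz0, X.sz1], by rw [X.sy3, X.sy0, S.M.αα], ?_⟩
      rw [ay1, X.sz0, X.az1]
      exact ndA
    · exact (hh r hr hr').elim
    · left; right; left
      exact ⟨by rw [X.sy1, X.sy2], by rw [X.sz4, ay1]⟩

/-- the region with the three vertices -/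
theorem Six.reg (h : Rg S) (hS : IsStar S) (W : Wf Δ S L w) (hN : ∀ x ∈ S.A, S.N2 x)
    (N : Dst S x0 x1 x2 x3 y0 y1 y2 y3 z0 z1 z2 z3 z4)
    (hadj : ∀ r, S.M.v r = S.M.v (S.M.α x2) → S.M.v (S.M.α r) ≠ S.M.v (S.M.α y2))
    (hh : ∀ r, S.M.v r = S.M.v (S.M.α x1) → S.M.v (S.M.α r) ≠ S.M.v (S.M.α z3))
    (fc : ∀ d, S.real d = true → S.M.v d = S.M.v x0 ∨ S.M.v d = S.M.v y0 → Fc3 S d)
    (f4 : Q4 S x0) : Reg S (fun v => v = S.M.v x0 ∨ v = S.M.v y0 ∨ v = S.M.v z0) := by
  have ax3 : S.M.α x3 = z1 := by rw [← X.az1, S.M.αα]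
  have ay1 : S.M.α y1 = z0 := by rw [← X.az0, S.M.αα]
  have hx : S.M.v x1 = S.M.v x0 := X.vx _ (by simp)
  refine ⟨?_, ?_, ?_, ?_⟩
  · rintro v (rfl | rfl | rfl)
    · exact W.real_A _ X.rx0
    · exact W.real_A _ (X.ry0 W)
    · exact X.vC W
  · rintro d hd (h1 | h1 | h1)
    · exact fc d hd (Or.inl h1)
    · exact fc d hd (Or.inr h1)
    · rcases X.FC h1 with rfl | rfl | rfl | rfl | rfl
      · have := (fc y1 X.ry1 (Or.inr (X.vy _ (by simp)))).symm
        rwa [ay1] at this
      · have := (fc x3 X.rx3 (Or.inl (X.vx _ (by simp)))).symm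
        rwa [ax3] at this
      · exact X.fc2 hS W hN N hadj
      · rw [X.rz3] at hd
        exact absurd hd (by decide)
      · exact X.fc4 hS W hN N hadj
  · intro k e e' r hk u1 u2 h1 h2 h3 h4 h5 h6
    have key : Q4 S k := by
      have qx := X.q4x h hS W N hadj hh
      have qy := X.q4y h hS W N hadj hh
      rcases u1 with u1 | u1 | u1
      · rcases X.FA u1 with rfl | rfl | rfl | rfl
        · exact f4
        · exfalso
          rcases u2 with u2 | u2 | u2
          · exact N.C1A u2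
          · exact N.C1B u2
          · exact N.C1C u2
        · exfalso
          rcases u2 with u2 | u2 | u2
          · exact N.A'A u2
          · exact N.A'B u2
          · exact N.A'C u2
        · exact qx
      · rcases X.FB u1 with rfl | rfl | rfl | rfl
        · have := f4.symm
          rwa [X.ax0] at this
        · exact qy
        · exfalso
          rcases u2 with u2 | u2 | u2
          · exact N.B'A u2
          · exact N.B'B u2
          · exact N.B'C u2
        · exfalso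
          rw [← X.hc] at u2
          rcases u2 with u2 | u2 | u2
          · exact N.C1A u2
          · exact N.C1B u2
          · exact N.C1C u2
      · rcases X.FC u1 with rfl | rfl | rfl | rfl | rfl
        · have := qy.symm
          rwa [ay1] at this
        · have := qx.symm
          rwa [ax3] at this
        · exfalso
          rw [X.hz2] at u2
          rcases u2 with u2 | u2 | u2
          · exact N.A'A u2
          · exact N.A'B u2
          · exact N.A'C u2
        · rw [X.rz3] at hk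
          exact absurd hk (by decide)
        · exfalso
          rw [X.hz4] at u2
          rcases u2 with u2 | u2 | u2
          · exact N.B'A u2
          · exact N.B'B u2
          · exact N.B'C u2
    exact key e e' r h1 h2 h3 h4 h5 h6
  · have ndA : S.nd x3 = 4 := h.nd_four hS W (by rw [X.sx3, X.sx0, X.sx1, X.sx2])
    have ndB : S.nd y1 = 4 := h.nd_four hS W (by rw [X.sy1, X.sy2, X.sy3, X.sy0])
    have vx3 : S.M.v x3 = S.M.v x0 := X.vx _ (by simp)
    have vy1 : S.M.v y1 = S.M.v y0 := X.vy _ (by simp)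
    have key : ∀ z, S.M.v z = S.M.v x0 ∨ S.M.v z = S.M.v y0 ∨ S.M.v z = S.M.v z0 →
        S.nd z ≤ 4 ∨ Sp5 S z := by
      rintro z (h1 | h1 | h1)
      · left
        have h2 : S.nd z = S.nd x3 := nd_congr (h1.trans vx3.symm)
        omega
      · left
        have h2 : S.nd z = S.nd y1 := nd_congr (h1.trans vy1.symm)
        omega
      · right
        refine ⟨z0, h1.symm, ?_, ?_, ?_, ?_, ?_⟩
        · rw [← W.real_α, X.az0]; exact X.ry1
        · rw [X.sz0, ← W.real_α, X.az1]; exact X.rx3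
        · rw [X.sz0, X.sz1, X.sz2, X.sz3, X.sz4]
        · rw [X.az0]; exact ndB
        · rw [X.sz0, X.az1]; exact ndA
    intro k e e' k' _
    exact ⟨key k, key _⟩

end

end Pool.FC7
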