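import Pool.Agent.FC7.GdC

/-! # Two adjacent vertices inside of a closed curve of length four: the region exists -/

open Finset

set_option linter.unusedSectionVars false

namespace Pool.FC7

open Pool.FC6 Pool.FC6.St

variable {D V : Type} [Fintype D] [DecidableEq V] {S : St D V} {L : D → Bool} {w : D → ℕ} {Δ : ℕ}
  {x : D}

theorem Tw.six (T : Tw S x) (h : Rg S) (hS : IsStar S) (W : Wf Δ S L w)
    (hc2 : S.rdeg (S.M.v (S.M.α (S.M.σ (S.M.α x)))) = 4)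
    (n2 : 5 ≤ S.nd (S.M.α (S.M.σ (S.M.α x)))) :
    Six S x (S.M.σ x) (S.M.σ (S.M.σ x)) (S.M.σ (S.M.σ (S.M.σ x)))
      (S.M.α x) (S.M.σ (S.M.α x)) (S.M.σ (S.M.σ (S.M.α x))) (S.M.σ (S.M.σ (S.M.σ (S.M.α x))))
      (S.M.α (S.M.σ (S.M.α x))) (S.M.α (S.M.σ (S.M.σ (S.M.σ x))))
      (S.M.φ (S.M.σ (S.M.σ (S.M.σ x)))) (S.M.σ (S.M.φ (S.M.σ (S.M.σ (S.M.σ x)))))
      (S.M.α (S.M.φ (S.M.σ (S.M.σ (S.M.α x))))) := by
  have rα := W.real_α
  have e1 := T.z1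
  have e2 := T.z2
  have e4 := T.z4
  have rz2 : S.real (S.M.φ (S.M.σ (S.M.σ (S.M.σ x)))) = true :=
    hS.two (S.M.α (S.M.σ (S.M.σ x))) (by rw [rα]; exact T.r2) T.r3
  have rz4 : S.real (S.M.φ (S.M.σ (S.M.σ (S.M.α x)))) = true :=
    hS.two (S.M.α (S.M.σ (S.M.α x))) (by rw [rα]; exact T.s1) T.s2
  have hf := fifth h hS W (z := S.M.α (S.M.σ (S.M.α x)))
    (z4 := S.M.α (S.M.φ (S.M.σ (S.M.σ (S.M.α x))))) (by rw [rα]; exact T.s1)
    (by rw [e1, rα]; exact T.r3) (by rw [e1, e2]; exact rz2) (by rw [rα]; exact rz4) e4 hc2 n2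
  rw [e1, e2] at hf
  have hc : S.M.σ (S.M.α (S.M.σ x)) = S.M.α (S.M.σ (S.M.σ (S.M.σ (S.M.α x)))) := by
    have := (T.symm W).z1
    rwa [S.M.αα] at this
  exact
    { sx0 := rfl
      sx1 := rfl
      sx2 := rfl
      sx3 := T.cx
      sy0 := rfl
      sy1 := rfl
      sy2 := rfl
      sy3 := T.cy
      sz0 := e1
      sz1 := e2
      sz2 := rfl
      sz3 := hf.2
      sz4 := e4
      ax0 := rfl
      az0 := S.M.αα _
      az1 := S.M.αα _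
      sa := by
        show S.M.φ (S.M.α (S.M.α _)) = _
        rw [S.M.αα, T.z2']
      sb := by
        show S.M.φ (S.M.α (S.M.α _)) = _
        rw [S.M.αα, S.M.αα]
      rx0 := T.r0
      rx1 := T.r1
      rx2 := T.r2
      rx3 := T.r3
      ry1 := T.s1
      ry2 := T.s2
      ry3 := T.s3
      rz2 := rz2
      rz3 := hf.1
      rz4 := by rw [rα]; exact rz4
      hc := by rw [← S.M.vσ (S.M.α (S.M.σ x)), hc] }

/-- the rotation of a vertex with four real darts -/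
theorem rot_ne (hS : IsStar S) (W : Wf Δ S L w) (h4 : 4 ≤ S.rdeg (S.M.v x))
    (r0 : S.real x = true) (r1 : S.real (S.M.σ x) = true) (r2 : S.real (S.M.σ (S.M.σ x)) = true)
    (r3 : S.real (S.M.σ (S.M.σ (S.M.σ x))) = true) :
    S.M.σ x ≠ x ∧ S.M.σ (S.M.σ x) ≠ x ∧ S.M.σ (S.M.σ (S.M.σ x)) ≠ x := by
  have n1 : S.nxr x = S.M.σ x := if_pos r1
  have n2 : S.nxr (S.M.σ x) = S.M.σ (S.M.σ x) := if_pos r2
  have n3 : S.nxr (S.M.σ (S.M.σ x)) = S.M.σ (S.M.σ (S.M.σ x)) := if_pos r3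
  have a1 := hS.nxr_ne W r0 (j := 1) (by omega) (by omega)
  have a2 := hS.nxr_ne W r0 (j := 2) (by omega) (by omega)
  have a3 := hS.nxr_ne W r0 (j := 3) (by omega) (by omega)
  have e1 : S.nxr^[1] x = S.M.σ x := n1
  have e2 : S.nxr^[2] x = S.M.σ (S.M.σ x) := by
    show S.nxr (S.nxr x) = _
    rw [n1, n2]
  have e3 : S.nxr^[3] x = S.M.σ (S.M.σ (S.M.σ x)) := by
    show S.nxr (S.nxr (S.nxr x)) = _
    rw [n1, n2, n3]
  rw [e1] at a1
  rw [e2] at a2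
  rw [e3] at a3
  exact ⟨a1, a2, a3⟩

section

variable {x0 x1 x2 x3 y0 y1 y2 y3 z0 z1 z2 z3 z4 : D}
  (X : Six S x0 x1 x2 x3 y0 y1 y2 y3 z0 z1 z2 z3 z4)
include X

/-- the six vertices are different -/
theorem Six.dst (hS : IsStar S) (W : Wf Δ S L w) (hr4 : ∀ v ∈ S.A, 4 ≤ S.rdeg v) :
    Dst S x0 x1 x2 x3 y0 y1 y2 y3 z0 z1 z2 z3 z4 := by
  have hs : ∀ {d e : D}, S.real d = true → S.real e = true → S.M.v d = S.M.v e → d ≠ e →
      S.M.v (S.M.α d) ≠ S.M.v (S.M.α e) := fun h1 h2 h3 h4 h5 => h4 (W.simple _ _ h1 h2 h3 h5)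
  obtain ⟨a1, a2, a3⟩ := rot_ne hS W (hr4 _ (W.real_A _ X.rx0)) X.rx0 (by rw [X.sx0]; exact X.rx1)
    (by rw [X.sx0, X.sx1]; exact X.rx2) (by rw [X.sx0, X.sx1, X.sx2]; exact X.rx3)
  obtain ⟨b1, b2, b3⟩ := rot_ne hS W (hr4 _ (W.real_A _ (X.ry0 W))) (X.ry0 W)
    (by rw [X.sy0]; exact X.ry1) (by rw [X.sy0, X.sy1]; exact X.ry2)
    (by rw [X.sy0, X.sy1, X.sy2]; exact X.ry3)
  rw [X.sx0] at a1
  rw [X.sx0, X.sx1] at a2
  rw [X.sx0, X.sx1, X.sx2] at a3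
  rw [X.sy0] at b1
  rw [X.sy0, X.sy1] at b2
  rw [X.sy0, X.sy1, X.sy2] at b3
  have x12 : x2 ≠ x1 := fun h0 => a1 (S.M.σinj (by rw [X.sx1, X.sx0, h0]))
  have x23 : x2 ≠ x3 := fun h0 => x12 (S.M.σinj (by rw [X.sx2, X.sx1, h0])).symm.symm
  have x13 : x1 ≠ x3 := fun h0 => a2 (S.M.σinj (by rw [X.sx2, X.sx0, h0])).symm.symm
  have y12 : y2 ≠ y1 := fun h0 => b1 (S.M.σinj (by rw [X.sy1, X.sy0, h0]))
  have y23 : y2 ≠ y3 := fun h0 => y12 (S.M.σinj (by rw [X.sy2, X.sy1, h0])).symm.symm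
  have v1 := X.vx x1 (by simp)
  have v2 := X.vx x2 (by simp)
  have v3 := X.vx x3 (by simp)
  have w1 := X.vy y1 (by simp)
  have w2 := X.vy y2 (by simp)
  have w3 := X.vy y3 (by simp)
  exact
    { A'A := by rw [← v2]; exact (W.real_ne _ X.rx2).symm
      A'C := by rw [← X.hx3]; exact hs X.rx2 X.rx3 (v2.trans v3.symm) x23
      A'B' := by
        rw [← X.hz2, ← X.hz4]
        refine hs X.rz2 X.rz4 ((X.vz _ (by simp)).trans (X.vz _ (by simp)).symm) fun h0 => ?_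
        have h1 : z3 = z0 := by rw [← X.sz2, h0, X.sz4]
        have h2 := X.rz3
        rw [h1, ← W.real_α, X.az0, X.ry1] at h2
        exact absurd h2 (by decide)
      A'C1 := hs X.rx2 X.rx1 (v2.trans v1.symm) x12
      B'B := by rw [← w2]; exact (W.real_ne _ X.ry2).symm
      B'C := by rw [← X.hy1]; exact hs X.ry2 X.ry1 (w2.trans w1.symm) y12
      B'C1 := by rw [X.hc]; exact hs X.ry2 X.ry3 (w2.trans w3.symm) y23
      A'B := by rw [← X.hx0]; exact hs X.rx2 X.rx0 v2 a2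
      B'A := by rw [← X.hy0]; exact hs X.ry2 (X.ry0 W) w2 b2
      C1A := by rw [← v1]; exact (W.real_ne _ X.rx1).symm
      C1B := by rw [← X.hx0]; exact hs X.rx1 X.rx0 v1 a1
      C1C := by rw [← X.hx3]; exact hs X.rx1 X.rx3 (v1.trans v3.symm) x13
      AC := by rw [← X.hx3, ← v3]; exact W.real_ne _ X.rx3
      BC := by rw [← X.hy1, ← w1]; exact W.real_ne _ X.ry1 }

end

end Pool.FC7
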