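import Pool.Agent.FC7.GdD

/-! # Two adjacent vertices inside of a closed curve of length four: the region exists -/

open Finset

set_option linter.unusedSectionVars false

namespace Pool.FC7

open Pool.FC6 Pool.FC6.St

variable {D V : Type} [Fintype D] [DecidableEq V] {S : St D V} {L : D → Bool} {w : D → ℕ} {Δ : ℕ}

section

variable {x0 x1 x2 x3 y0 y1 y2 y3 z0 z1 z2 z3 z4 w0 w1 w2 w3 w4 : D}
  (X : Six S x0 x1 x2 x3 y0 y1 y2 y3 z0 z1 z2 z3 z4)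
  (Y : Six S y0 y1 y2 y3 x0 x1 x2 x3 w0 w1 w2 w3 w4)
include X Y

/-- the two gap sectors belong to different faces -/
theorem Six.hubs (h : Rg S) (hS : IsStar S) (W : Wf Δ S L w) (hN : ∀ x ∈ S.A, S.N2 x)
    (hr4 : ∀ v ∈ S.A, 4 ≤ S.rdeg v) :
    ∀ r, S.M.v r = S.M.v (S.M.α x1) → S.M.v (S.M.α r) ≠ S.M.v (S.M.α z3) := by
  intro r hr hh
  have hdead := X.dead hS W
  have rα := W.real_α
  have hv : S.M.v r = S.M.v w0 := by rw [hr, Y.hy1]
  have hal : ∀ i, S.real i = true → S.M.v (S.M.α i) ∈ S.A := fun i hi =>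
    W.real_A _ (by rw [rα]; exact hi)
  have hw3 : r = w3 := by
    rcases Y.FC hv with h1 | h1 | h1 | h1 | h1
    · exfalso
      rw [← hh, h1] at hdead
      exact hdead (hal _ (by rw [← rα, Y.az0]; exact Y.ry1))
    · exfalso
      rw [← hh, h1] at hdead
      exact hdead (hal _ (by rw [← rα, Y.az1]; exact Y.rx3))
    · exfalso
      rw [← hh, h1] at hdead
      exact hdead (hal _ Y.rz2)
    · exact h1
    · exfalso
      rw [← hh, h1] at hdead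
      exact hdead (hal _ Y.rz4)
  rw [hw3] at hh
  have hB : S.M.v (S.M.α y2) ∈ S.A := X.aB W (X.vy _ (by simp))
  have f1 : S.M.φ (S.M.α w2) = w3 := Y.sz2
  have f2 : S.M.φ (S.M.φ w3) = S.M.α w2 := by rw [← f1, S.M.φ3]
  have g1 : S.M.φ (S.M.α z3) = z4 := X.sz3
  have g2 : S.M.φ (S.M.φ z4) = S.M.α z3 := by rw [← g1, S.M.φ3]
  have vq : S.M.v (S.M.φ z4) = S.M.v (S.M.α y2) := by rw [S.M.vφ, X.hz4]
  have hq : S.M.φ z4 = S.M.α (S.M.φ w3) := by
    refine hN _ hB _ _ vq ?_ ?_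
    · rw [← S.M.vφ, f2, Y.hz2]
    · rw [S.M.αα, S.M.vφ, ← S.M.vφ (S.M.φ z4), g2, hh]
  have o1 : S.M.σ (S.M.α z4) = S.M.φ z4 := by
    show S.M.φ (S.M.α (S.M.α z4)) = _
    rw [S.M.αα]
  have o2 : S.M.σ (S.M.φ z4) = S.M.α w2 := by
    rw [hq]
    show S.M.φ (S.M.α (S.M.α _)) = _
    rw [S.M.αα, f2]
  have o4 : S.M.σ (S.M.σ (S.M.σ (S.M.σ (S.M.α z4)))) = S.M.α z4 := by
    rw [o1, o2, Y.sa, X.sb]
  have hnd := h.nd_four hS W o4
  have hre := real_of_nd (z' := S.M.φ z4) hnd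
    (by rw [X.hz4]; exact hr4 _ hB) (by rw [vq, X.hz4])
  apply hdead
  rw [← g2, S.M.vφ]
  exact hal _ hre

/-- the two last neighbours are not adjacent -/
theorem Six.nadj (h : Rg S) (hS : IsStar S) (W : Wf Δ S L w)
    (N : Dst S x0 x1 x2 x3 y0 y1 y2 y3 z0 z1 z2 z3 z4)
    (hab : S.rdeg (S.M.v (S.M.α x2)) + S.rdeg (S.M.v (S.M.α y2)) ≤ 11)
    (out : ∃ v ∈ S.A, v ≠ S.M.v x0 ∧ v ≠ S.M.v y0 ∧ v ≠ S.M.v z0 ∧ v ≠ S.M.v (S.M.α x1) ∧
      v ≠ S.M.v (S.M.α x2) ∧ v ≠ S.M.v (S.M.α y2)) :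
    ∀ r, S.M.v r = S.M.v (S.M.α x2) → S.M.v (S.M.α r) ≠ S.M.v (S.M.α y2) := by
  intro r hr hr'
  have rα := W.real_α
  have aA' : S.M.v (S.M.α x2) ∈ S.A := X.aA W (X.vx _ (by simp))
  have aB' : S.M.v (S.M.α y2) ∈ S.A := X.aB W (X.vy _ (by simp))
  have rr : S.real r = true := hS.real_of2 W (by rw [hr]; exact aA') (by rw [hr']; exact aB')
  obtain ⟨s, hs⟩ : ∃ s : V → Bool, s = fun v => decide (v = S.M.v x0 ∨ v = S.M.v y0 ∨
    v = S.M.v z0 ∨ v = S.M.v (S.M.α x1) ∨ v = S.M.v (S.M.α x2) ∨ v = S.M.v (S.M.α y2)) :=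
    ⟨_, rfl⟩
  have st : ∀ v, s v = true ↔ (v = S.M.v x0 ∨ v = S.M.v y0 ∨
    v = S.M.v z0 ∨ v = S.M.v (S.M.α x1) ∨ v = S.M.v (S.M.α x2) ∨ v = S.M.v (S.M.α y2)) := by
    intro v
    rw [hs]
    simp
  have t0 : s (S.M.v x0) = true := (st _).2 (Or.inl rfl)
  have t1 : s (S.M.v y0) = true := (st _).2 (by simp)
  have t2 : s (S.M.v z0) = true := (st _).2 (by simp)
  have t3 : s (S.M.v (S.M.α x1)) = true := (st _).2 (by simp)
  have t4 : s (S.M.v (S.M.α x2)) = true := (st _).2 (by simp)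
  have t5 : s (S.M.v (S.M.α y2)) = true := (st _).2 (by simp)
  have hw0 : S.M.v w0 = S.M.v (S.M.α x1) := Y.hy1.symm
  have h4 : 4 ≤ S.rc s := by
    obtain ⟨v, hv, b1, b2, b3, b4, b5, b6⟩ := out
    refine h.cut4 s ⟨_, W.real_A _ X.rx0, t0⟩ ⟨v, hv, ?_⟩
    by_contra hn
    have h0 : s v = true := by simpa using hn
    rcases (st v).1 h0 with h1 | h1 | h1 | h1 | h1 | h1
    exacts [b1 h1, b2 h1, b3 h1, b4 h1, b5 h1, b6 h1]
  have hle : S.rc s ≤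
      (∑ d, if S.real d = true ∧ S.M.v d = S.M.v (S.M.α x2) ∧ s (S.M.v (S.M.α d)) = false
        then 1 else 0) +
      (∑ d, if S.real d = true ∧ S.M.v d = S.M.v (S.M.α y2) ∧ s (S.M.v (S.M.α d)) = false
        then 1 else 0) := by
    unfold St.rc
    rw [← Finset.sum_add_distrib]
    refine Finset.sum_le_sum fun d _ => ?_
    by_cases c1 : S.real d = true ∧ s (S.M.v d) = true ∧ s (S.M.v (S.M.α d)) = false
    swap
    · rw [if_neg c1]; exact Nat.zero_le _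
    obtain ⟨c2, c3, c4⟩ := c1
    have bad : ∀ v, s v = true → S.M.v (S.M.α d) = v → False := fun v h1 h2 => by
      rw [← h2, c4] at h1
      exact absurd h1 (by decide)
    have fin : S.M.v d = S.M.v (S.M.α x2) ∨ S.M.v d = S.M.v (S.M.α y2) := by
      rcases (st _).1 c3 with h1 | h1 | h1 | h1 | h1 | h1
      · exfalso
        rcases X.FA h1 with h2 | h2 | h2 | h2
        · exact bad _ t1 (by rw [h2, X.hx0])
        · exact bad _ t3 (by rw [h2])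
        · exact bad _ t4 (by rw [h2])
        · exact bad _ t2 (by rw [h2, X.hx3])
      · exfalso
        rcases X.FB h1 with h2 | h2 | h2 | h2
        · exact bad _ t0 (by rw [h2, X.hy0])
        · exact bad _ t2 (by rw [h2, X.hy1])
        · exact bad _ t5 (by rw [h2])
        · exact bad _ t3 (by rw [h2, X.hc])
      · exfalso
        rcases X.FC h1 with h2 | h2 | h2 | h2 | h2
        · exact bad _ t1 (by rw [h2, X.hz0])
        · exact bad _ t0 (by rw [h2, X.hz1])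
        · exact bad _ t4 (by rw [h2, X.hz2])
        · rw [h2, X.rz3] at c2
          exact absurd c2 (by decide)
        · exact bad _ t5 (by rw [h2, X.hz4])
      · exfalso
        rcases Y.FC (h1.trans hw0.symm) with h2 | h2 | h2 | h2 | h2
        · exact bad _ t0 (by rw [h2, Y.hz0])
        · exact bad _ t1 (by rw [h2, Y.hz1])
        · exact bad _ t5 (by rw [h2, Y.hz2])
        · rw [h2, Y.rz3] at c2
          exact absurd c2 (by decide)
        · exact bad _ t4 (by rw [h2, Y.hz4])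
      · exact Or.inl h1
      · exact Or.inr h1
    rw [if_pos ⟨c2, c3, c4⟩]
    rcases fin with h1 | h1
    · rw [if_pos (⟨c2, h1, c4⟩ : S.real d = true ∧ S.M.v d = S.M.v (S.M.α x2) ∧
        s (S.M.v (S.M.α d)) = false)]
      omega
    · rw [if_pos (⟨c2, h1, c4⟩ : S.real d = true ∧ S.M.v d = S.M.v (S.M.α y2) ∧
        s (S.M.v (S.M.α d)) = false)]
      omega
  have ne : ∀ {d e : D}, S.M.v (S.M.α d) ≠ S.M.v (S.M.α e) → d ≠ e := fun h1 h2 =>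
    h1 (by rw [h2])
  have k1 := leave4 (S := S) (s := s) (p := S.M.v (S.M.α x2)) (d1 := S.M.α x2) (d2 := S.M.α z2)
    (d3 := S.M.α w4) (d4 := r) (by rw [rα]; exact X.rx2) (by rw [rα]; exact X.rz2)
    (by rw [rα]; exact Y.rz4) rr rfl X.hz2 Y.hz4 hr
    (by rw [S.M.αα, X.vx x2 (by simp)]; exact t0) (by rw [S.M.αα, X.vz z2 (by simp)]; exact t2)
    (by rw [S.M.αα, Y.vz w4 (by simp), hw0]; exact t3) (by rw [hr']; exact t5)
    (ne (by rw [S.M.αα, S.M.αα, X.vx x2 (by simp), X.vz z2 (by simp)]; exact N.AC))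
    (ne (by rw [S.M.αα, S.M.αα, X.vx x2 (by simp), Y.vz w4 (by simp), hw0]; exact N.C1A.symm))
    (ne (by rw [S.M.αα, X.vx x2 (by simp), hr']; exact N.B'A.symm))
    (ne (by rw [S.M.αα, S.M.αα, X.vz z2 (by simp), Y.vz w4 (by simp), hw0]; exact N.C1C.symm))
    (ne (by rw [S.M.αα, X.vz z2 (by simp), hr']; exact N.B'C.symm))
    (ne (by rw [S.M.αα, Y.vz w4 (by simp), hw0, hr']; exact N.B'C1.symm))
  have k2 := leave4 (S := S) (s := s) (p := S.M.v (S.M.α y2)) (d1 := S.M.α y2) (d2 := S.M.α z4)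
    (d3 := S.M.α w2) (d4 := S.M.α r) (by rw [rα]; exact X.ry2) (by rw [rα]; exact X.rz4)
    (by rw [rα]; exact Y.rz2) (by rw [rα]; exact rr) rfl X.hz4 Y.hz2 hr'
    (by rw [S.M.αα, X.vy y2 (by simp)]; exact t1) (by rw [S.M.αα, X.vz z4 (by simp)]; exact t2)
    (by rw [S.M.αα, Y.vz w2 (by simp), hw0]; exact t3) (by rw [S.M.αα, hr]; exact t4)
    (ne (by rw [S.M.αα, S.M.αα, X.vy y2 (by simp), X.vz z4 (by simp)]; exact N.BC))
    (ne (by rw [S.M.αα, S.M.αα, X.vy y2 (by simp), Y.vz w2 (by simp), hw0]; exact N.C1B.symm))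
    (ne (by rw [S.M.αα, S.M.αα, X.vy y2 (by simp), hr]; exact N.A'B.symm))
    (ne (by rw [S.M.αα, S.M.αα, X.vz z4 (by simp), Y.vz w2 (by simp), hw0]; exact N.C1C.symm))
    (ne (by rw [S.M.αα, S.M.αα, X.vz z4 (by simp), hr]; exact N.A'C.symm))
    (ne (by rw [S.M.αα, S.M.αα, Y.vz w2 (by simp), hw0, hr]; exact N.A'C1.symm))
  omega

end

/-- THE REGION WITH A NULL VERTEX: two adjacent solid vertices of real degree four, whose common
neighbours have real degree four and at least five darts -/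
theorem Tw.reg {x : D} (T : Tw S x) (h : Rg S) (hS : IsStar S) (W : Wf Δ S L w) (hΔ : Δ ≤ 7)
    (hr4 : ∀ v ∈ S.A, 4 ≤ S.rdeg v)
    (c1 : S.rdeg (S.M.v (S.M.α (S.M.σ x))) = 4) (n1 : 5 ≤ S.nd (S.M.α (S.M.σ x)))
    (c2 : S.rdeg (S.M.v (S.M.α (S.M.σ (S.M.α x)))) = 4)
    (n2 : 5 ≤ S.nd (S.M.α (S.M.σ (S.M.α x))))
    (hab : S.rdeg (S.M.v (S.M.α (S.M.σ (S.M.σ x)))) +
      S.rdeg (S.M.v (S.M.α (S.M.σ (S.M.σ (S.M.α x))))) ≤ 11)
    (out : ∃ v ∈ S.A, v ≠ S.M.v x ∧ v ≠ S.M.v (S.M.α x) ∧ v ≠ S.M.v (S.M.α (S.M.σ (S.M.α x))) ∧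
      v ≠ S.M.v (S.M.α (S.M.σ x)) ∧ v ≠ S.M.v (S.M.α (S.M.σ (S.M.σ x))) ∧
      v ≠ S.M.v (S.M.α (S.M.σ (S.M.σ (S.M.α x)))))
    (fc : ∀ d, S.real d = true → S.M.v d = S.M.v x ∨ S.M.v d = S.M.v (S.M.α x) → Fc3 S d)
    (f4 : Q4 S x) :
    Reg S (fun v => v = S.M.v x ∨ v = S.M.v (S.M.α x) ∨
      v = S.M.v (S.M.α (S.M.σ (S.M.α x)))) := by
  have X := T.six h hS W c2 n2
  have Y := (T.symm W).six h hS W (by rw [S.M.αα]; exact c1) (by rw [S.M.αα]; exact n1)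
  simp only [S.M.αα] at Y
  have N := X.dst hS W hr4
  have hN := h.n2 hS W hΔ
  exact X.reg h hS W hN N (X.nadj Y h hS W N hab out) (X.hubs Y h hS W hN hr4) fc f4

end Pool.FC7
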