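import Pool.Agent.FC7.SyL

/-! # Two adjacent vertices of degree four whose other neighbours are outside -/

open Finset

set_option linter.unusedSectionVars false

namespace Pool.FC7

open Pool.FC6 Pool.FC6.St

/-- the word at the common neighbour `c2` is compatible with the pattern `P`; `a2`, `a3`, `b1`: the
letters of its faces at `a`, `a`, `b` -/
def c2k (a2 a3 b1 : ℕ) (P : List ℕ) : Bool :=
  (List.range 27).all fun l0 => !cmp l0 a2 || (List.range 27).all fun l3 => !cmp a3 l3 ||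
    (List.range 27).all fun l2 => !cmp b1 l2 || (List.range 27).all fun l1 =>
      !(glw [l0, l1, l2, l3] && !lsol l1) || llw P [l0, l1, l2, l3]

/-- the same for `c1`; `a0`, `a1`, `b2`: the letters of its faces at `a`, `a`, `b` -/
def c1k (a0 a1 b2 : ℕ) (P : List ℕ) : Bool :=
  (List.range 27).all fun l0 => !cmp l0 a0 || (List.range 27).all fun l3 => !cmp a1 l3 ||
    (List.range 27).all fun l1 => !cmp l1 b2 || (List.range 27).all fun l2 =>
      !(glw [l0, l1, l2, l3] && !lsol l2) || llw P [l0, l1, l2, l3]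

theorem c2k_ok : (c2k 2 0 11 [33, 35, 33, 32] && c2k 14 0 12 [34, 35, 32, 32]) = true := by
  decide +kernel

theorem c1k_ok : (c1k 0 2 12 [32, 33, 35, 33] && c1k 0 13 11 [32, 32, 35, 34]) = true := by
  decide +kernel

theorem glw_range {c : List ℕ} (h : glw c = true) {x : ℕ} (hx : x ∈ c) : x ∈ List.range 27 := by
  unfold glw at h
  simp only [Bool.and_eq_true, decide_eq_true_eq, List.all_eq_true] at h
  have h1 := h.1.1.2 x hx
  unfold lal at h1
  simp only [Bool.and_eq_true, decide_eq_true_eq, Bool.or_eq_true] at h1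
  rw [List.mem_range]
  omega

variable {D V : Type} [Fintype D] [DecidableEq V]
  {S : St D V} {L : D → Bool} {w : D → ℕ} {U : V → Prop} {d e r m r2 m2 x : D}

section mc

variable (h : MC 6 S L w) (hS : IsStar S)

include h hS

/-- four darts at a vertex have at most two units and labels -/
theorem MC.uw4_le {a b c g : D} (ha : S.real a = true) (hb : S.M.v b = S.M.v a)
    (hc : S.M.v c = S.M.v a) (hg : S.M.v g = S.M.v a) (n1 : a ≠ b) (n2 : a ≠ c) (n3 : a ≠ g)
    (n4 : b ≠ c) (n5 : b ≠ g) (n6 : c ≠ g) :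
    (S.u a + w a) + (S.u b + w b) + (S.u c + w c) + (S.u g + w g) ≤ 2 := by
  classical
  refine le_trans ?_ (h.sum_uw hS ha)
  have h1 : ∑ t ∈ {a, b, c, g}, (if S.M.v t = S.M.v a then S.u t + w t else 0) ≤
      ∑ d, (if S.M.v d = S.M.v a then S.u d + w d else 0) :=
    Finset.sum_le_sum_of_subset (Finset.subset_univ _)
  rw [Finset.sum_insert (by
    simp only [Finset.mem_insert, Finset.mem_singleton, not_or]
    exact ⟨n1, n2, n3⟩), Finset.sum_insert (by
    simp only [Finset.mem_insert, Finset.mem_singleton, not_or]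
    exact ⟨n4, n5⟩), Finset.sum_pair n6, if_pos rfl, if_pos hb, if_pos hc, if_pos hg] at h1
  omega

/-- two vertices of degree four: no overload of a common neighbour -/
theorem MC.ov1_ok (hx : S.real x = true) (hs : S.real (S.M.σ x) = true)
    (h1 : S.rdeg (S.M.v x) = 4) (h4 : S.rdeg (S.M.v (S.M.α x)) = 4) :
    ov1 (lwo S L x) (lwo S L (S.M.α x)) = true := by
  have W := h.ok.toWf
  have rα : ∀ {x}, S.real x = true → S.real (S.M.α x) = true := fun hx => by
    rw [W.real_α]; exact hx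
  have hy : S.real (S.M.α x) = true := rα hx
  have hxn := hS.nxr_real W hx
  have hg : S.real (S.M.α (S.nxr x)) = true := rα hxn
  have hgn := hS.nxr_real W hg
  unfold ov1
  rw [decide_eq_true_eq, h.lwo_getD hS hx (by omega), h.lwo_getD hS hx (by omega),
    h.lwo_getD hS hy (by omega)]
  show luy (lto S L x) + ldx (lto S L (S.nxr x)) + ldy (lto S L (S.nxr^[2] (S.M.α x))) +
    (if lnx (lto S L x) = true then 1 else 0) +
    (if lnx (lto S L (S.nxr^[2] (S.M.α x))) = true then 1 else 0) ≤ 2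
  have hy2 : S.real (S.nxr^[2] (S.M.α x)) = true := hS.nxr_iter_real W hy 2
  have hy3 : S.real (S.nxr (S.nxr^[2] (S.M.α x))) = true := hS.nxr_real W hy2
  obtain ⟨q, q1, q2⟩ := h.prv hS hg
  obtain ⟨q', q1', q2'⟩ := h.prv hS (rα hy2)
  have a1 := (h.lux_le hS hx).2
  have a2 := (h.ld_le hS hxn q1 q2).1
  have a3 := (h.ld_le hS hy2 q1' q2').2
  have b1 := h.lnx_le hS hx
  have b2 := h.lnx_le hS hy2
  have hsol : lsol (lto S L x) = true := by rw [h.lsol_iff' hS hx]; exact decide_eq_true hs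
  obtain ⟨r', t1, t2, t3⟩ := h.tri hS hx hsol
  have hp := hS.nxr_rdeg W hy
  rw [h4] at hp
  have hp' : S.nxr (S.nxr (S.nxr^[2] (S.M.α x))) = S.M.α x := hp
  have er : r' = S.nxr (S.nxr^[2] (S.M.α x)) := h.nxr_cancel hS hy3 t1 (t2.trans hp'.symm)
  rw [er] at t3
  rw [t3] at a3 b2
  have h5 := h.rdeg_pos hS hg
  have vq : S.M.v q = S.M.v (S.M.α (S.nxr x)) := by rw [← q2, v_nxr]
  have n1 : S.nxr (S.M.α (S.nxr x)) ≠ S.M.α (S.nxr x) :=
    hS.nxr_ne W hg (j := 1) (by norm_num) (by omega)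
  have n2 : S.nxr (S.nxr (S.M.α (S.nxr x))) ≠ S.M.α (S.nxr x) :=
    hS.nxr_ne W hg (j := 2) (by norm_num) (by omega)
  have n3 : S.nxr (S.nxr (S.M.α (S.nxr x))) ≠ S.nxr (S.M.α (S.nxr x)) :=
    hS.nxr_ne W hgn (j := 1) (by norm_num) (by rw [v_nxr]; omega)
  have m1 : S.nxr q ≠ q := hS.nxr_ne W q1 (j := 1) (by norm_num) (by rw [vq]; omega)
  have m2 : S.nxr (S.nxr q) ≠ q := hS.nxr_ne W q1 (j := 2) (by norm_num) (by rw [vq]; omega)
  have m3 : S.nxr (S.nxr (S.nxr q)) ≠ q :=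
    hS.nxr_ne W q1 (j := 3) (by norm_num) (by rw [vq]; omega)
  rw [q2] at m1 m2 m3
  have a4 := h.uw4_le hS hg (b := S.nxr (S.M.α (S.nxr x))) (c := S.nxr (S.nxr (S.M.α (S.nxr x))))
    (g := q) (v_nxr _) (by rw [v_nxr, v_nxr]) vq (Ne.symm n1) (Ne.symm n2) m1 (Ne.symm n3) m2 m3
  omega

/-- a word of length four -/
theorem MC.lwo4 {z : D} (hz : S.real z = true) (h4 : S.rdeg (S.M.v z) = 4) :
    lwo S L z = [lto S L z, lto S L (S.nxr z), lto S L (S.nxr (S.nxr z)),
      lto S L (S.nxr (S.nxr (S.nxr z)))] := by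
  refine List.ext_getElem (by rw [lwo_length, h4]; rfl) fun i h1 h2 => ?_
  rw [← List.getD_eq_getElem _ 0, h.lwo_getD hS hz (by rwa [lwo_length] at h1)]
  have h3 : i < 4 := h2
  interval_cases i <;> rfl

/-- the word of the common neighbour `c2` -/
theorem MC.c2_pat {z r y : D} (hz : S.real z = true) (h4 : S.rdeg (S.M.v z) = 4)
    (hgap : S.real (S.M.σ (S.nxr z)) = false) (hr : S.real r = true) (hn : S.nxr r = S.M.α z)
    (hy : S.real y = true) (hn1 : S.nxr (S.nxr (S.nxr z)) = S.M.α y) {P : List ℕ}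
    (hk : c2k (lto S L r) (lto S L (S.M.α z)) (lto S L y) P = true) :
    llw P (lwo S L z) = true := by
  have W := h.ok.toWf
  have hzα : S.real (S.M.α z) = true := by rw [W.real_α]; exact hz
  have r1 := hS.nxr_real W hz
  have r2 := hS.nxr_real W r1
  have r3 := hS.nxr_real W r2
  have hp := hS.nxr_rdeg W hz
  rw [h4] at hp
  have hp' : S.nxr (S.nxr (S.nxr (S.nxr z))) = S.M.α (S.M.α z) := by rw [S.M.αα]; exact hp
  have c0 := h.cmp hS hz hr hn
  have c3 := h.cmp hS hzα r3 hp'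
  have c2 := h.cmp hS hy r2 hn1
  have hg := h.lwo_glw hS hz
  have hl := h.lsol_iff' hS r1
  rw [hgap] at hl
  rw [h.lwo4 hS hz h4] at hg ⊢
  unfold c2k at hk
  rw [List.all_eq_true] at hk
  have k0 := hk _ (glw_range hg (by simp : lto S L z ∈ _))
  have c0' : FC7.cmp (lto S L z) (lto S L r) = true := c0
  rw [c0', Bool.not_true, Bool.false_or, List.all_eq_true] at k0
  have k3 := k0 _ (glw_range hg (by simp : lto S L (S.nxr (S.nxr (S.nxr z))) ∈ _))
  rw [c3, Bool.not_true, Bool.false_or, List.all_eq_true] at k3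
  have k2 := k3 _ (glw_range hg (by simp : lto S L (S.nxr (S.nxr z)) ∈ _))
  rw [c2, Bool.not_true, Bool.false_or, List.all_eq_true] at k2
  have k1 := k2 _ (glw_range hg (by simp : lto S L (S.nxr z) ∈ _))
  rw [hg, hl] at k1
  simpa using k1

/-- the word of the common neighbour `c1` -/
theorem MC.c1_pat {z r y : D} (hz : S.real z = true) (h4 : S.rdeg (S.M.v z) = 4)
    (hgap : S.real (S.M.σ (S.nxr (S.nxr z))) = false) (hr : S.real r = true)
    (hn : S.nxr r = S.M.α z) (hy : S.real y = true) (hn1 : S.nxr y = S.M.α (S.nxr z))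
    {P : List ℕ} (hk : c1k (lto S L r) (lto S L (S.M.α z)) (lto S L y) P = true) :
    llw P (lwo S L z) = true := by
  have W := h.ok.toWf
  have hzα : S.real (S.M.α z) = true := by rw [W.real_α]; exact hz
  have r1 := hS.nxr_real W hz
  have r2 := hS.nxr_real W r1
  have r3 := hS.nxr_real W r2
  have hp := hS.nxr_rdeg W hz
  rw [h4] at hp
  have hp' : S.nxr (S.nxr (S.nxr (S.nxr z))) = S.M.α (S.M.α z) := by rw [S.M.αα]; exact hp
  have c0 := h.cmp hS hz hr hn
  have c3 := h.cmp hS hzα r3 hp'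
  have c1 := h.cmp hS r1 hy hn1
  have hg := h.lwo_glw hS hz
  have hl := h.lsol_iff' hS r2
  rw [hgap] at hl
  rw [h.lwo4 hS hz h4] at hg ⊢
  unfold c1k at hk
  rw [List.all_eq_true] at hk
  have k0 := hk _ (glw_range hg (by simp : lto S L z ∈ _))
  rw [c0, Bool.not_true, Bool.false_or, List.all_eq_true] at k0
  have k3 := k0 _ (glw_range hg (by simp : lto S L (S.nxr (S.nxr (S.nxr z))) ∈ _))
  rw [c3, Bool.not_true, Bool.false_or, List.all_eq_true] at k3
  have k1 := k3 _ (glw_range hg (by simp : lto S L (S.nxr z) ∈ _))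
  rw [c1, Bool.not_true, Bool.false_or, List.all_eq_true] at k1
  have k2 := k1 _ (glw_range hg (by simp : lto S L (S.nxr (S.nxr z)) ∈ _))
  rw [hg, hl] at k2
  simpa using k2

/-- the data at the common neighbour `c2` of `a` and `b`; `x : a → b` -/
structure C2 (S : St D V) (x : D) : Prop where
  reg : Reg S fun y => y = S.M.v x ∨ y = S.M.v (S.M.α x) ∨
    y = S.M.v (S.M.α (S.nxr (S.nxr (S.nxr x))))
  n5 : 5 ≤ S.nd (S.M.α (S.nxr x))
  r4 : S.rdeg (S.M.v (S.M.α (S.nxr (S.nxr (S.nxr x))))) = 4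
  gap : S.real (S.M.σ (S.nxr (S.M.α (S.nxr (S.nxr (S.nxr x)))))) = false
  bb : S.nxr (S.nxr (S.nxr (S.M.α (S.nxr (S.nxr (S.nxr x)))))) = S.M.α (S.nxr (S.M.α x))

/-- the data at the common neighbour `c1` of `a` and `b`; `x : a → b` -/
structure C1 (S : St D V) (x : D) : Prop where
  reg : Reg S fun y => y = S.M.v x ∨ y = S.M.v (S.M.α x) ∨ y = S.M.v (S.M.α (S.nxr x))
  n5 : 5 ≤ S.nd (S.M.α (S.nxr (S.nxr (S.nxr x))))
  r4 : S.rdeg (S.M.v (S.M.α (S.nxr x))) = 4
  gap : S.real (S.M.σ (S.nxr (S.nxr (S.M.α (S.nxr x))))) = false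
  bb : S.nxr (S.M.α (S.nxr x)) = S.M.α (S.nxr (S.nxr (S.nxr (S.M.α x))))

/-- a pattern with `a`, `b` and `c2` does not occur -/
theorem MC.noC2 (hC : Can S w) (hx : S.real x = true) (h1 : S.rdeg (S.M.v x) = 4)
    (h4 : S.rdeg (S.M.v (S.M.α x)) = 4) (hc : C2 S x) {a0 a1 a2 a3 b0 b1 b2 b3 : ℕ} {P : List ℕ}
    (hA : lwo S L x = [a0, a1, a2, a3]) (hB : lwo S L (S.M.α x) = [b0, b1, b2, b3])
    (hk : c2k a2 a3 b1 P = true) (hP : P ≠ [])
    (hX : NoL [a0, a1, a2, a3] [(0, [b0, b1, b2, b3]), (1, []), (3, P)]) : False := by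
  have W := h.ok.toWf
  have hy : S.real (S.M.α x) = true := by rw [W.real_α]; exact hx
  have x1 := hS.nxr_real W hx
  have x2 := hS.nxr_real W x1
  have x3 := hS.nxr_real W x2
  have y1 := hS.nxr_real W hy
  have hz : S.real (S.M.α (S.nxr (S.nxr (S.nxr x)))) = true := by rw [W.real_α]; exact x3
  have e1 := h.lwo4 hS hx h1
  rw [hA] at e1
  have e2 := h.lwo4 hS hy h4
  rw [hB] at e2
  injection e1 with i0 e1
  injection e1 with i1 e1
  injection e1 with i2 e1
  injection e1 with i3 e1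
  injection e2 with j0 e2
  injection e2 with j1 e2
  have hp := h.c2_pat hS (P := P) hz hc.r4 hc.gap (r := S.nxr (S.nxr x)) x2
    (S.M.αα _).symm (y := S.nxr (S.M.α x)) y1 hc.bb (by rw [S.M.αα, ← i2, ← i3, ← j1]; exact hk)
  have hsl : ∀ c : List ℕ, llw c c = true := by
    intro c
    rw [llw_iff]
    exact ⟨rfl, fun i _ => lle_refl _⟩
  refine hX D V S L w _ h hS hc.reg hC x ⟨hx, Or.inl rfl, by rw [hA]; exact hsl _,
    fun p hp1 h0 => ?_, fun p hp1 h0 => ?_, fun p hp1 h0 => ?_⟩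
  · simp only [List.mem_cons, List.not_mem_nil, or_false] at hp1
    rcases hp1 with rfl | rfl | rfl
    · exact Or.inr (Or.inl rfl)
    · exact absurd rfl h0
    · exact Or.inr (Or.inr rfl)
  · simp only [List.mem_cons, List.not_mem_nil, or_false] at hp1
    rcases hp1 with rfl | rfl | rfl
    · show llw _ (lwo S L (S.M.α x)) = true
      rw [hB]; exact hsl _
    · exact absurd rfl h0
    · exact hp
  · simp only [List.mem_cons, List.not_mem_nil, or_false] at hp1
    rcases hp1 with rfl | rfl | rfl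
    · exact absurd (show [b0, b1, b2, b3] = [] from h0) (by simp)
    · exact hc.n5
    · exact absurd (show P = [] from h0) hP

/-- a pattern with `a`, `b` and `c1` does not occur -/
theorem MC.noC1 (hC : Can S w) (hx : S.real x = true) (h1 : S.rdeg (S.M.v x) = 4)
    (h4 : S.rdeg (S.M.v (S.M.α x)) = 4) (hc : C1 S x) {a0 a1 a2 a3 b0 b1 b2 b3 : ℕ} {P : List ℕ}
    (hA : lwo S L x = [a0, a1, a2, a3]) (hB : lwo S L (S.M.α x) = [b0, b1, b2, b3])
    (hk : c1k a0 a1 b2 P = true) (hP : P ≠ [])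
    (hX : NoL [a0, a1, a2, a3] [(0, [b0, b1, b2, b3]), (3, []), (1, P)]) : False := by
  have W := h.ok.toWf
  have hy : S.real (S.M.α x) = true := by rw [W.real_α]; exact hx
  have x1 := hS.nxr_real W hx
  have y1 := hS.nxr_real W hy
  have y2 := hS.nxr_real W y1
  have hz : S.real (S.M.α (S.nxr x)) = true := by rw [W.real_α]; exact x1
  have e1 := h.lwo4 hS hx h1
  rw [hA] at e1
  have e2 := h.lwo4 hS hy h4
  rw [hB] at e2
  injection e1 with i0 e1
  injection e1 with i1 e1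
  injection e2 with j0 e2
  injection e2 with j1 e2
  injection e2 with j2 e2
  have hp := h.c1_pat hS (P := P) hz hc.r4 hc.gap (r := x) hx
    (S.M.αα _).symm (y := S.nxr (S.nxr (S.M.α x))) y2 (by rw [hc.bb, S.M.αα])
    (by rw [S.M.αα, ← i0, ← i1, ← j2]; exact hk)
  have hsl : ∀ c : List ℕ, llw c c = true := by
    intro c
    rw [llw_iff]
    exact ⟨rfl, fun i _ => lle_refl _⟩
  refine hX D V S L w _ h hS hc.reg hC x ⟨hx, Or.inl rfl, by rw [hA]; exact hsl _,
    fun p hp1 h0 => ?_, fun p hp1 h0 => ?_, fun p hp1 h0 => ?_⟩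
  · simp only [List.mem_cons, List.not_mem_nil, or_false] at hp1
    rcases hp1 with rfl | rfl | rfl
    · exact Or.inr (Or.inl rfl)
    · exact absurd rfl h0
    · exact Or.inr (Or.inr rfl)
  · simp only [List.mem_cons, List.not_mem_nil, or_false] at hp1
    rcases hp1 with rfl | rfl | rfl
    · show llw _ (lwo S L (S.M.α x)) = true
      rw [hB]; exact hsl _
    · exact absurd rfl h0
    · exact hp
  · simp only [List.mem_cons, List.not_mem_nil, or_false] at hp1
    rcases hp1 with rfl | rfl | rfl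
    · exact absurd (show [b0, b1, b2, b3] = [] from h0) (by simp)
    · exact hc.n5
    · exact absurd (show P = [] from h0) hP

end mc

/-- the fact for the exceptional pair (i) -/
def F1 : Prop := NoL [14, 0, 2, 0] [(0, [0, 11, 0, 15]), (1, []), (3, [33, 35, 33, 32])]

/-- the fact for the exceptional pair (ii) -/
def F2 : Prop := NoL [14, 0, 14, 0] [(0, [0, 12, 0, 15]), (1, []), (3, [34, 35, 32, 32])]

/-- the fact for the exceptional pair with a label -/
def F3 : Prop := NoL [32, 33, 42, 5] [(1, [0, 15, 0, 12])]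

theorem ck_ok : (c1k 0 11 8 [32, 4, 43, 33] && c2k 12 0 8 [33, 42, 5, 32]) = true := by
  decide +kernel

section mc

variable (h : MC 6 S L w) (hS : IsStar S)

include h hS

/-- the exceptional pairs do not occur -/
theorem MC.exc0_ok (hC : Can S w) (f1 : F1) (f2 : F2) (hx : S.real x = true)
    (h1 : S.rdeg (S.M.v x) = 4) (h4 : S.rdeg (S.M.v (S.M.α x)) = 4) (hc2 : C2 S x) :
    exc0 (lwo S L x) (lwo S L (S.M.α x)) = false := by
  by_contra hc
  have hc : exc0 (lwo S L x) (lwo S L (S.M.α x)) = true := by simpa using hc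
  have k := c2k_ok
  rw [Bool.and_eq_true] at k
  unfold exc0 at hc
  simp only [Bool.or_eq_true, Bool.and_eq_true, decide_eq_true_eq] at hc
  rcases hc with ⟨hA, hB⟩ | ⟨hA, hB⟩
  · exact h.noC2 hS hC hx h1 h4 hc2 hA hB k.1 (by simp) f1
  · exact h.noC2 hS hC hx h1 h4 hc2 hA hB k.2 (by simp) f2

/-- the mirror images of the exceptional pairs do not occur -/
theorem MC.exc1_ok (hC : Can S w) (f1 : F1) (f2 : F2) (hx : S.real x = true)
    (h1 : S.rdeg (S.M.v x) = 4) (h4 : S.rdeg (S.M.v (S.M.α x)) = 4) (hc1 : C1 S x) :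
    exc0 (lmw (lwo S L x)) (lmw (lwo S L (S.M.α x))) = false := by
  by_contra hc
  have hc : exc0 (lmw (lwo S L x)) (lmw (lwo S L (S.M.α x))) = true := by simpa using hc
  have k := c1k_ok
  rw [Bool.and_eq_true] at k
  unfold exc0 at hc
  simp only [Bool.or_eq_true, Bool.and_eq_true, decide_eq_true_eq] at hc
  have m1 : NoL [0, 2, 0, 13] [(0, [16, 0, 12, 0]), (3, []), (1, [32, 33, 35, 33])] :=
    NoL.mir f1 (by decide)
  have m2 : NoL [0, 13, 0, 13] [(0, [16, 0, 11, 0]), (3, []), (1, [32, 32, 35, 34])] :=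
    NoL.mir f2 (by decide)
  have inv : ∀ {c t : List ℕ}, lmw c = t → c = lmw t := fun hh => by rw [← hh, lmw_lmw]
  rcases hc with ⟨hA, hB⟩ | ⟨hA, hB⟩
  · have hA := inv hA
    have hB := inv hB
    exact h.noC1 hS hC hx h1 h4 hc1 hA hB k.1 (by simp) m1
  · have hA := inv hA
    have hB := inv hB
    exact h.noC1 hS hC hx h1 h4 hc1 hA hB k.2 (by simp) m2

/-- the exceptional pair with a label does not occur -/
theorem MC.exc2_ok (hC : Can S w) (f3 : F3) (hx : S.real x = true)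
    (h1 : S.rdeg (S.M.v x) = 4) (h4 : S.rdeg (S.M.v (S.M.α x)) = 4) (hc : C1 S x) :
    exc2 (lwo S L x) (lwo S L (S.M.α x)) = false := by
  by_contra hn
  have hn : exc2 (lwo S L x) (lwo S L (S.M.α x)) = true := by simpa using hn
  unfold exc2 at hn
  simp only [Bool.and_eq_true, decide_eq_true_eq] at hn
  obtain ⟨hA, hB⟩ := hn
  have k := ck_ok
  rw [Bool.and_eq_true] at k
  have m3 : NoL [4, 43, 33, 32] [(3, [11, 0, 16, 0])] := NoL.mir f3 (by decide)
  have W := h.ok.toWf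
  have hy : S.real (S.M.α x) = true := by rw [W.real_α]; exact hx
  have x1 := hS.nxr_real W hx
  have y2 := hS.nxr_real W (hS.nxr_real W hy)
  have hz : S.real (S.M.α (S.nxr x)) = true := by rw [W.real_α]; exact x1
  have z1 := hS.nxr_real W hz
  have e1 := h.lwo4 hS hx h1
  have e0 := e1
  rw [hA] at e1
  have e2 := h.lwo4 hS hy h4
  rw [hB] at e2
  injection e1 with i0 e1
  injection e1 with i1 e1
  injection e2 with j0 e2
  injection e2 with j1 e2
  injection e2 with j2 e2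
  have hp := h.c1_pat hS (P := [32, 4, 43, 33]) hz hc.r4 hc.gap (r := x) hx
    (S.M.αα _).symm (y := S.nxr (S.nxr (S.M.α x))) y2 (by rw [hc.bb, S.M.αα])
    (by rw [S.M.αα, ← i0, ← i1, ← j2]; exact k.1)
  have hpz : S.nxr (S.nxr (S.nxr (S.nxr (S.M.α (S.nxr x))))) = S.M.α (S.nxr x) := by
    have hp := hS.nxr_rdeg W hz
    rw [hc.r4] at hp
    exact hp
  have hw1 : lwo S L (S.nxr (S.M.α (S.nxr x))) = (lwo S L (S.M.α (S.nxr x))).rotate 1 :=
    h.lwo_rot hS hz
  have hw2 : lwo S L (S.nxr x) = (lwo S L x).rotate 1 := h.lwo_rot hS hx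
  refine m3 D V S L w _ h hS hc.reg hC (S.nxr (S.M.α (S.nxr x)))
    ⟨z1, Or.inr (Or.inr (v_nxr _)), ?_,
    fun p hp1 h0 => ?_, fun p hp1 h0 => ?_, fun p hp1 h0 => ?_⟩
  · rw [hw1]
    rw [h.lwo4 hS hz hc.r4] at hp ⊢
    have hp' : (lle 32 (lto S L (S.M.α (S.nxr x))) && (lle 4 (lto S L (S.nxr (S.M.α (S.nxr x)))) &&
      (lle 43 (lto S L (S.nxr (S.nxr (S.M.α (S.nxr x))))) &&
      (lle 33 (lto S L (S.nxr (S.nxr (S.nxr (S.M.α (S.nxr x)))))) && true)))) = true := hp
    simp only [Bool.and_eq_true] at hp'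
    obtain ⟨p0, p1, p2, p3, -⟩ := hp'
    show (lle 4 (lto S L (S.nxr (S.M.α (S.nxr x)))) &&
      (lle 43 (lto S L (S.nxr (S.nxr (S.M.α (S.nxr x))))) &&
      (lle 33 (lto S L (S.nxr (S.nxr (S.nxr (S.M.α (S.nxr x)))))) &&
      (lle 32 (lto S L (S.M.α (S.nxr x))) && true)))) = true
    rw [p0, p1, p2, p3]
    rfl
  · simp only [List.mem_cons, List.not_mem_nil, or_false] at hp1
    subst hp1
    show S.M.v (S.M.α (S.nxr^[3] (S.nxr (S.M.α (S.nxr x))))) = _ ∨ _
    left
    show S.M.v (S.M.α (S.nxr (S.nxr (S.nxr (S.nxr (S.M.α (S.nxr x))))))) = _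
    rw [hpz, S.M.αα, v_nxr]
  · simp only [List.mem_cons, List.not_mem_nil, or_false] at hp1
    subst hp1
    show llw [11, 0, 16, 0] (lwo S L (S.M.α (S.nxr (S.nxr (S.nxr (S.nxr (S.M.α (S.nxr x)))))))) =
      true
    rw [hpz, S.M.αα, hw2, hA]
    rfl
  · simp only [List.mem_cons, List.not_mem_nil, or_false] at hp1
    subst hp1
    exact absurd (show [11, 0, 16, 0] = ([] : List ℕ) from h0) (by simp)

/-- the mirror image of the exceptional pair with a label does not occur -/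
theorem MC.exc3_ok (hC : Can S w) (f3 : F3) (hx : S.real x = true)
    (h1 : S.rdeg (S.M.v x) = 4) (h4 : S.rdeg (S.M.v (S.M.α x)) = 4) (hc : C2 S x) :
    exc2 (lmw (lwo S L x)) (lmw (lwo S L (S.M.α x))) = false := by
  by_contra hn
  have hn : exc2 (lmw (lwo S L x)) (lmw (lwo S L (S.M.α x))) = true := by simpa using hn
  unfold exc2 at hn
  simp only [Bool.and_eq_true, decide_eq_true_eq] at hn
  have inv : ∀ {c t : List ℕ}, lmw c = t → c = lmw t := fun hh => by rw [← hh, lmw_lmw]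
  obtain ⟨hA, hB⟩ := hn
  have hA : lwo S L x = [15, 0, 12, 0] := (inv hA).trans (by decide)
  have hB : lwo S L (S.M.α x) = [0, 8, 0, 11] := (inv hB).trans (by decide)
  have k := ck_ok
  rw [Bool.and_eq_true] at k
  have W := h.ok.toWf
  have hy : S.real (S.M.α x) = true := by rw [W.real_α]; exact hx
  have x1 := hS.nxr_real W hx
  have x2 := hS.nxr_real W x1
  have x3 := hS.nxr_real W x2
  have y1 := hS.nxr_real W hy
  have hz : S.real (S.M.α (S.nxr (S.nxr (S.nxr x)))) = true := by rw [W.real_α]; exact x3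
  have z1 := hS.nxr_real W hz
  have z2 := hS.nxr_real W z1
  have z3 := hS.nxr_real W z2
  have e1 := h.lwo4 hS hx h1
  rw [hA] at e1
  have e2 := h.lwo4 hS hy h4
  rw [hB] at e2
  injection e1 with i0 e1
  injection e1 with i1 e1
  injection e1 with i2 e1
  injection e1 with i3 e1
  injection e2 with j0 e2
  injection e2 with j1 e2
  have hp := h.c2_pat hS (P := [33, 42, 5, 32]) hz hc.r4 hc.gap (r := S.nxr (S.nxr x)) x2
    (S.M.αα _).symm (y := S.nxr (S.M.α x)) y1 hc.bb (by rw [S.M.αα, ← i2, ← i3, ← j1]; exact k.2)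
  set z := S.M.α (S.nxr (S.nxr (S.nxr x))) with hzd
  have hpz : S.nxr (S.nxr (S.nxr (S.nxr z))) = z := by
    have hp := hS.nxr_rdeg W hz
    rw [hc.r4] at hp
    exact hp
  have hw0 : lwo S L (S.nxr z) = (lwo S L z).rotate 1 := h.lwo_rot hS hz
  have hw1 : lwo S L (S.nxr (S.nxr z)) = (lwo S L (S.nxr z)).rotate 1 := h.lwo_rot hS z1
  have hw2 : lwo S L (S.nxr (S.nxr (S.nxr z))) = (lwo S L (S.nxr (S.nxr z))).rotate 1 :=
    h.lwo_rot hS z2
  have hx0 : lwo S L (S.nxr x) = (lwo S L x).rotate 1 := h.lwo_rot hS hx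
  have hx1 : lwo S L (S.nxr (S.nxr x)) = (lwo S L (S.nxr x)).rotate 1 := h.lwo_rot hS x1
  have hx2 : lwo S L (S.nxr (S.nxr (S.nxr x))) = (lwo S L (S.nxr (S.nxr x))).rotate 1 :=
    h.lwo_rot hS x2
  refine f3 D V S L w _ h hS hc.reg hC (S.nxr (S.nxr (S.nxr z))) ⟨z3, Or.inr (Or.inr (by
    rw [v_nxr, v_nxr, v_nxr])), ?_, fun p hp1 h0 => ?_, fun p hp1 h0 => ?_, fun p hp1 h0 => ?_⟩
  · rw [hw2, hw1, hw0]
    rw [h.lwo4 hS hz hc.r4] at hp ⊢
    have hp' : (lle 33 (lto S L z) && (lle 42 (lto S L (S.nxr z)) &&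
      (lle 5 (lto S L (S.nxr (S.nxr z))) &&
      (lle 32 (lto S L (S.nxr (S.nxr (S.nxr z)))) && true)))) = true := hp
    simp only [Bool.and_eq_true] at hp'
    obtain ⟨p0, p1, p2, p3, -⟩ := hp'
    show (lle 32 (lto S L (S.nxr (S.nxr (S.nxr z)))) && (lle 33 (lto S L z) &&
      (lle 42 (lto S L (S.nxr z)) && (lle 5 (lto S L (S.nxr (S.nxr z))) && true)))) = true
    rw [p0, p1, p2, p3]
    rfl
  · simp only [List.mem_cons, List.not_mem_nil, or_false] at hp1
    subst hp1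
    left
    show S.M.v (S.M.α (S.nxr (S.nxr (S.nxr (S.nxr z))))) = _
    rw [hpz, hzd, S.M.αα, v_nxr, v_nxr, v_nxr]
  · simp only [List.mem_cons, List.not_mem_nil, or_false] at hp1
    subst hp1
    show llw [0, 15, 0, 12] (lwo S L (S.M.α (S.nxr (S.nxr (S.nxr (S.nxr z)))))) = true
    rw [hpz, hzd, S.M.αα, hx2, hx1, hx0, hA]
    rfl
  · simp only [List.mem_cons, List.not_mem_nil, or_false] at hp1
    subst hp1
    exact absurd (show [0, 15, 0, 12] = ([] : List ℕ) from h0) (by simp)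

end mc

end Pool.FC7
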