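import Pool.Agent.FC7.GdE
import Pool.Agent.FC7.SyO

/-! # The region with two vertices: the data at the two common neighbours -/

open Finset

set_option linter.unusedSectionVars false

namespace Pool.FC7

open Pool.FC6 Pool.FC6.St

variable {D V : Type} [Fintype D] [DecidableEq V] {S : St D V} {L : D → Bool} {w : D → ℕ} {Δ : ℕ}
  {U T : Finset V}

/-- all darts at a vertex of a region with two vertices are real, the rotation has length four -/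
theorem real_all {x : D} (h0 : vdeg S (S.M.v x) = 0) {g : D} (hg : S.M.v g = S.M.v x) :
    S.real g = true := by
  by_contra hr
  unfold vdeg at h0
  have h2 := (Finset.sum_eq_zero_iff.1 h0) g (Finset.mem_univ g)
  rw [if_pos ⟨hg, by simpa using hr⟩] at h2
  exact absurd h2 (by norm_num)

theorem rot4 (hS : IsStar S) (W : Wf Δ S L w) {x : D} (h0 : vdeg S (S.M.v x) = 0)
    (h4 : S.rdeg (S.M.v x) = 4) : S.real x = true ∧ S.real (S.M.σ x) = true ∧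
      S.real (S.M.σ (S.M.σ x)) = true ∧ S.real (S.M.σ (S.M.σ (S.M.σ x))) = true ∧
      S.M.σ (S.M.σ (S.M.σ (S.M.σ x))) = x ∧ S.nxr x = S.M.σ x ∧
      S.nxr (S.nxr x) = S.M.σ (S.M.σ x) ∧ S.nxr (S.nxr (S.nxr x)) = S.M.σ (S.M.σ (S.M.σ x)) := by
  have r0 : S.real x = true := real_all h0 rfl
  have r1 : S.real (S.M.σ x) = true := real_all h0 (S.M.vσ x)
  have r2 : S.real (S.M.σ (S.M.σ x)) = true := real_all h0 (by rw [S.M.vσ, S.M.vσ])
  have r3 : S.real (S.M.σ (S.M.σ (S.M.σ x))) = true :=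
    real_all h0 (by rw [S.M.vσ, S.M.vσ, S.M.vσ])
  have r4 : S.real (S.M.σ (S.M.σ (S.M.σ (S.M.σ x)))) = true :=
    real_all h0 (by rw [S.M.vσ, S.M.vσ, S.M.vσ, S.M.vσ])
  have n0 : S.nxr x = S.M.σ x := if_pos r1
  have n1 : S.nxr (S.M.σ x) = S.M.σ (S.M.σ x) := if_pos r2
  have n2 : S.nxr (S.M.σ (S.M.σ x)) = S.M.σ (S.M.σ (S.M.σ x)) := if_pos r3
  have n3 : S.nxr (S.M.σ (S.M.σ (S.M.σ x))) = S.M.σ (S.M.σ (S.M.σ (S.M.σ x))) := if_pos r4
  have h5 := hS.nxr_rdeg W r0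
  rw [h4] at h5
  have h6 : S.nxr (S.nxr (S.nxr (S.nxr x))) = x := h5
  rw [n0, n1, n2, n3] at h6
  exact ⟨r0, r1, r2, r3, h6, n0, by rw [n0, n1], by rw [n0, n1, n2]⟩

/-- the region with two vertices -/
theorem Dsh.twin (hD : Dsh S U T) (hN : ¬ N1 S U T) (h : Rg S) (hS : IsStar S)
    (W : Wf Δ S L w) (hΔ : Δ ≤ 7) (hr4 : ∀ v ∈ S.A, 4 ≤ S.rdeg v) {x : D}
    (u1 : S.M.v x ∈ U) (u2 : S.M.v (S.M.α x) ∈ U)
    (r1 : S.rdeg (S.M.v (S.M.α (S.nxr x))) = 4)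
    (r2 : S.rdeg (S.M.v (S.M.α (S.nxr (S.nxr (S.nxr x))))) = 4)
    (hab : S.rdeg (S.M.v (S.M.α (S.nxr (S.nxr x)))) +
      S.rdeg (S.M.v (S.M.α (S.nxr (S.nxr (S.M.α x))))) ≤ 11) : C2 S x ∧ C1 S x := by
  classical
  obtain ⟨hc, hf⟩ := hD.n1.resolve_left hN
  obtain ⟨o, o1, o2, o3⟩ := hD.out.resolve_left hN
  have rα := W.real_α
  obtain ⟨a1, a2, -⟩ := hf _ u1
  obtain ⟨b1, b2, -⟩ := hf _ u2
  obtain ⟨rx, rx1, rx2, rx3, cx, nx1, nx2, nx3⟩ := rot4 hS W a2 a1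
  obtain ⟨ry, ry1, ry2, ry3, cy, ny1, ny2, ny3⟩ := rot4 hS W b2 b1
  have T1 : Tw S x := ⟨rx, rx1, rx2, rx3, cx, ry1, ry2, ry3, cy⟩
  have T2 := T1.symm W
  have z1 := T1.z1
  have z1' : S.M.σ (S.M.α (S.M.σ x)) = S.M.α (S.M.σ (S.M.σ (S.M.σ (S.M.α x)))) := by
    have := T2.z1
    rwa [S.M.αα] at this
  rw [nx1] at r1
  rw [nx3] at r2
  rw [nx2, ny2] at hab
  have vc2 : S.M.v (S.M.α (S.M.σ (S.M.α x))) = S.M.v (S.M.α (S.M.σ (S.M.σ (S.M.σ x)))) := by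
    rw [← z1, S.M.vσ]
  have vc1 : S.M.v (S.M.α (S.M.σ x)) =
      S.M.v (S.M.α (S.M.σ (S.M.σ (S.M.σ (S.M.α x))))) := by
    rw [← z1', S.M.vσ]
  obtain ⟨d1, d2, d3⟩ := rot_ne hS W (by rw [a1]) rx rx1 rx2 rx3
  obtain ⟨e1, e2, e3⟩ := rot_ne hS W (by rw [b1]) ry ry1 ry2 ry3
  -- the region consists of the two ends of `x`
  have hU2 : ∀ v ∈ U, v = S.M.v x ∨ v = S.M.v (S.M.α x) := by
    intro v hv
    by_contra hn
    rw [not_or] at hn
    have hne : S.M.v x ≠ S.M.v (S.M.α x) := W.real_ne x rx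
    have : ({S.M.v x, S.M.v (S.M.α x), v} : Finset V) ⊆ U := by
      intro y hy
      simp only [Finset.mem_insert, Finset.mem_singleton] at hy
      rcases hy with rfl | rfl | rfl
      exacts [u1, u2, hv]
    have h3 := Finset.card_le_card this
    rw [Finset.card_insert_of_notMem (by
        simp only [Finset.mem_insert, Finset.mem_singleton, not_or]
        exact ⟨hne, fun h0 => hn.1 h0.symm⟩), Finset.card_insert_of_notMem (by
        simp only [Finset.mem_singleton]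
        exact fun h0 => hn.2 h0.symm), Finset.card_singleton, hc] at h3
    omega
  have inT : ∀ y, S.real y = true → S.M.v y = S.M.v x → y ≠ x → S.M.v (S.M.α y) ∈ T := by
    intro y hy hv hne
    rcases hD.nb y hy (by rw [hv]; exact u1) with h1 | h1
    · exfalso
      rcases hU2 _ h1 with h2 | h2
      · exact W.real_ne y hy (by rw [hv, h2])
      · exact hne (W.simple _ _ hy rx hv h2)
    · exact h1
  have inT' : ∀ y, S.real y = true → S.M.v y = S.M.v (S.M.α x) → y ≠ S.M.α x →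
      S.M.v (S.M.α y) ∈ T := by
    intro y hy hv hne
    rcases hD.nb y hy (by rw [hv]; exact u2) with h1 | h1
    · exfalso
      rcases hU2 _ h1 with h2 | h2
      · exact hne (W.simple _ _ hy ry hv (by rw [h2, S.M.αα]))
      · exact W.real_ne y hy (by rw [hv, h2])
    · exact h1
  have t1 : S.M.v (S.M.α (S.M.σ x)) ∈ T := inT _ rx1 (S.M.vσ x) d1
  have t2 : S.M.v (S.M.α (S.M.σ (S.M.σ x))) ∈ T := inT _ rx2 (by rw [S.M.vσ, S.M.vσ]) d2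
  have t3 : S.M.v (S.M.α (S.M.σ (S.M.σ (S.M.σ x)))) ∈ T :=
    inT _ rx3 (by rw [S.M.vσ, S.M.vσ, S.M.vσ]) d3
  have t4 : S.M.v (S.M.α (S.M.σ (S.M.σ (S.M.α x)))) ∈ T :=
    inT' _ ry2 (by rw [S.M.vσ, S.M.vσ]) e2
  -- five darts at the common neighbours
  have n1 : 5 ≤ S.nd (S.M.α (S.M.σ x)) := by
    refine hD.n5 _ (S.M.α (S.M.σ (S.M.σ (S.M.σ (S.M.α x))))) t1 vc1.symm ?_ ?_ ?_
    · intro h0
      have h1 : S.M.v (S.M.σ x) = S.M.v (S.M.σ (S.M.σ (S.M.σ (S.M.α x)))) := by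
        rw [S.M.αinj h0]
      rw [S.M.vσ, S.M.vσ, S.M.vσ, S.M.vσ] at h1
      exact W.real_ne x rx h1
    · rw [S.M.αα, S.M.vσ]; exact u1
    · rw [S.M.αα, S.M.vσ, S.M.vσ, S.M.vσ]; exact u2
  have n2 : 5 ≤ S.nd (S.M.α (S.M.σ (S.M.α x))) := by
    refine hD.n5 _ (S.M.α (S.M.σ (S.M.σ (S.M.σ x)))) (by rw [vc2]; exact t3) vc2.symm ?_ ?_ ?_
    · intro h0
      have h1 : S.M.v (S.M.σ (S.M.α x)) = S.M.v (S.M.σ (S.M.σ (S.M.σ x))) := by
        rw [S.M.αinj h0]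
      rw [S.M.vσ, S.M.vσ, S.M.vσ, S.M.vσ] at h1
      exact W.real_ne x rx h1.symm
    · rw [S.M.αα, S.M.vσ]; exact u2
    · rw [S.M.αα, S.M.vσ, S.M.vσ, S.M.vσ]; exact u1
  have hne : ∀ v, v ∈ U ∨ v ∈ T → o ≠ v := by
    rintro v (hv | hv) rfl
    · exact o2 hv
    · exact o3 hv
  have fc : ∀ d, S.real d = true → S.M.v d = S.M.v x ∨ S.M.v d = S.M.v (S.M.α x) → Fc3 S d := by
    rintro d hd (h1 | h1)
    · exact hD.fc d hd (by rw [h1]; exact u1)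
    · exact hD.fc d hd (by rw [h1]; exact u2)
  have f4 : Q4 S x := fun e e' r h1 h2 h3 h4 h5 h6 => hD.f4 x e e' r rx u1 u2 h1 h2 h3 h4 h5 h6
  have key1 := T1.reg h hS W hΔ hr4 r1 n1 (by rw [vc2]; exact r2) n2 hab
    ⟨o, o1, hne _ (Or.inl u1), hne _ (Or.inl u2), hne _ (Or.inr (by rw [vc2]; exact t3)),
      hne _ (Or.inr t1), hne _ (Or.inr t2), hne _ (Or.inr t4)⟩ fc f4
  have key2 := T2.reg h hS W hΔ hr4 (by rw [vc2]; exact r2) n2
    (by rw [S.M.αα]; exact r1) (by rw [S.M.αα]; exact n1) (by rw [S.M.αα]; omega)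
    ⟨o, o1, hne _ (Or.inl u2), by rw [S.M.αα]; exact hne _ (Or.inl u1),
      by rw [S.M.αα]; exact hne _ (Or.inr t1), hne _ (Or.inr (by rw [vc2]; exact t3)),
      hne _ (Or.inr t4), by rw [S.M.αα]; exact hne _ (Or.inr t2)⟩
    (fun d hd h1 => fc d hd (by rw [S.M.αα] at h1; exact h1.symm)) f4.symm
  rw [S.M.αα] at key2
  have X := T1.six h hS W (by rw [vc2]; exact r2) n2
  have Y := T2.six h hS W (by rw [S.M.αα]; exact r1) (by rw [S.M.αα]; exact n1)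
  simp only [S.M.αα] at Y
  refine ⟨⟨?_, ?_, ?_, ?_, ?_⟩, ⟨?_, ?_, ?_, ?_, ?_⟩⟩
  · rw [nx3, ← vc2]; exact key1
  · rw [nx1]; exact n1
  · rw [nx3]; exact r2
  · rw [nx3]
    have h1 : S.nxr (S.M.α (S.M.σ (S.M.σ (S.M.σ x)))) = S.M.φ (S.M.σ (S.M.σ (S.M.σ x))) := by
      unfold nxr
      rw [X.sz1, if_pos X.rz2]
    rw [h1]
    exact X.rz3
  · rw [nx3]
    have h1 : S.nxr (S.M.α (S.M.σ (S.M.σ (S.M.σ x)))) = S.M.φ (S.M.σ (S.M.σ (S.M.σ x))) := by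
      unfold nxr
      rw [X.sz1, if_pos X.rz2]
    have h2 : S.nxr (S.M.φ (S.M.σ (S.M.σ (S.M.σ x)))) =
        S.M.α (S.M.φ (S.M.σ (S.M.σ (S.M.α x)))) := by
      unfold nxr
      rw [if_neg (by rw [X.rz3]; decide), X.sz3]
    have h3 : S.nxr (S.M.α (S.M.φ (S.M.σ (S.M.σ (S.M.α x))))) = S.M.α (S.M.σ (S.M.α x)) := by
      unfold nxr
      rw [X.sz4, if_pos (by rw [rα]; exact ry1)]
    rw [h1, h2, h3, ny1]
  · rw [nx1]
    exact ⟨fun v hv => key2.A v (by tauto), fun d hd hv => key2.fc d hd (by tauto),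
      key2.f4.mono fun v hv => by tauto, fun k e e' k' hc =>
        ⟨fun hv => (key2.f1 k e e' k' hc).1 (by tauto),
          fun hv => (key2.f1 k e e' k' hc).2 (by tauto)⟩⟩
  · rw [nx3]
    have : S.nd (S.M.α (S.M.σ (S.M.σ (S.M.σ x)))) = S.nd (S.M.α (S.M.σ (S.M.α x))) := by
      unfold St.nd
      rw [vc2]
    rw [this]; exact n2
  · rw [nx1]; exact r1
  · rw [nx1]
    have h1 : S.nxr (S.M.α (S.M.σ x)) = S.M.α (S.M.σ (S.M.σ (S.M.σ (S.M.α x)))) := by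
      unfold nxr
      rw [Y.sz0, if_pos (by rw [rα]; exact ry3)]
    have h2 : S.nxr (S.M.α (S.M.σ (S.M.σ (S.M.σ (S.M.α x))))) =
        S.M.φ (S.M.σ (S.M.σ (S.M.σ (S.M.α x)))) := by
      unfold nxr
      rw [Y.sz1, if_pos Y.rz2]
    rw [h1, h2]
    exact Y.rz3
  · rw [nx1, ny3]
    unfold nxr
    rw [Y.sz0, if_pos (by rw [rα]; exact ry3)]

end Pool.FC7
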