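import Pool.Agent.FC7.GdF

/-! # The region with two vertices: one common neighbour of real degree four

Only one of the two common neighbours has real degree four, the other one has real degree at most
five. -/

open Finset

set_option linter.unusedSectionVars false

namespace Pool.FC7

open Pool.FC6 Pool.FC6.St

variable {D V : Type} [Fintype D] [DecidableEq V] {S : St D V} {L : D → Bool} {w : D → ℕ} {Δ : ℕ}
  {U T : Finset V}

section

variable {x0 x1 x2 x3 y0 y1 y2 y3 z0 z1 z2 z3 z4 : D}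
  (X : Six S x0 x1 x2 x3 y0 y1 y2 y3 z0 z1 z2 z3 z4)
include X

/-- the two last neighbours are not adjacent: a closed curve of length four through the two
vertices has at most one vertex on one side -/
theorem Six.nadj1 (N : Dst S x0 x1 x2 x3 y0 y1 y2 y3 z0 z1 z2 z3 z4)
    (n1 : 5 ≤ S.nd (S.M.α x1)) (n2 : 5 ≤ S.nd z0) (f4 : Q4 S x0) :
    ∀ r, S.M.v r = S.M.v (S.M.α x2) → S.M.v (S.M.α r) ≠ S.M.v (S.M.α y2) := by
  intro r hr hr'
  have e2 : S.M.v x2 = S.M.v x0 := X.vx _ (by simp)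
  have e3 : S.M.v y2 = S.M.v (S.M.α x0) := by rw [X.hx0]; exact X.vy _ (by simp)
  have d12 : x1 ≠ x2 := fun h0 => N.A'C1 (by rw [h0])
  have d30 : y3 ≠ y0 := fun h0 => N.C1A (by rw [X.hc, h0, X.hy0])
  have d12' : y1 ≠ y2 := fun h0 => N.B'C (by rw [← h0, X.hy1])
  have d30' : x3 ≠ x0 := fun h0 => N.BC (by rw [← X.hx0, ← h0, X.hx3])
  rcases f4 x2 y2 r e2 e3 hr hr' (by rw [X.hx0]; exact N.A'B) N.B'A with h1 | h1
  · rcases h1 with ⟨h1, -⟩ | ⟨-, h1⟩ | ⟨-, -, h1⟩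
    · rw [X.sx0] at h1; exact d12 h1.symm
    · rw [X.sy2, X.ax0] at h1; exact d30 h1
    · rw [X.sx0] at h1; omega
  · rw [X.ax0] at h1
    rcases h1 with ⟨h1, -⟩ | ⟨-, h1⟩ | ⟨-, -, h1⟩
    · rw [X.sy0] at h1; exact d12' h1.symm
    · rw [X.sx2, ← X.ax0, S.M.αα] at h1; exact d30' h1
    · rw [X.sy0] at h1
      have : S.nd (S.M.α y1) = S.nd z0 := by
        unfold St.nd
        rw [X.hy1]
      omega

/-- the set without the second vertex -/
theorem Six.drop (W : Wf Δ S L w) (N : Dst S x0 x1 x2 x3 y0 y1 y2 y3 z0 z1 z2 z3 z4)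
    {t : V → Bool} (tB : t (S.M.v y0) = true) (tA : t (S.M.v x0) = false)
    (tC : t (S.M.v z0) = false) (tC1 : t (S.M.v (S.M.α x1)) = false) :
    S.rc (fun v => t v && decide (v ≠ S.M.v y0)) + 2 ≤ S.rc t := by
  classical
  have rα := W.real_α
  have ry0 := X.ry0 W
  have vy1 : S.M.v y1 = S.M.v y0 := X.vy _ (by simp)
  have vy2 : S.M.v y2 = S.M.v y0 := X.vy _ (by simp)
  have vy3 : S.M.v y3 = S.M.v y0 := X.vy _ (by simp)
  have d01 : y0 ≠ y1 := fun h0 => N.AC (by rw [← X.hy0, h0, X.hy1])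
  have d03 : y0 ≠ y3 := fun h0 => N.C1A (by rw [X.hc, ← h0, X.hy0])
  have d13 : y1 ≠ y3 := fun h0 => N.C1C (by rw [X.hc, ← h0, X.hy1])
  have sone : ∀ i : D, (∑ d, if d = i then 1 else 0) = 1 := fun i => by
    rw [Finset.sum_ite_eq' Finset.univ i]
    simp
  have key : S.rc (fun v => t v && decide (v ≠ S.M.v y0)) + 1 + 1 + 1 ≤ S.rc t + 1 := by
    unfold St.rc
    have h1 : (∑ d, if S.real d = true ∧ (t (S.M.v d) && decide (S.M.v d ≠ S.M.v y0)) = true ∧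
        (t (S.M.v (S.M.α d)) && decide (S.M.v (S.M.α d) ≠ S.M.v y0)) = false then 1 else 0) +
        (∑ d, if d = y0 then 1 else 0) + (∑ d, if d = y1 then 1 else 0) +
        (∑ d, if d = y3 then 1 else 0) ≤
        (∑ d, if S.real d = true ∧ t (S.M.v d) = true ∧ t (S.M.v (S.M.α d)) = false
          then 1 else 0) + (∑ d, if d = S.M.α y2 then 1 else 0) := by
      rw [← Finset.sum_add_distrib, ← Finset.sum_add_distrib, ← Finset.sum_add_distrib,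
        ← Finset.sum_add_distrib]
      refine Finset.sum_le_sum fun d _ => ?_
      by_cases e0 : d = y0
      · subst e0
        rw [if_neg (by simp), if_pos rfl, if_neg d01, if_neg d03,
          if_pos ⟨ry0, tB, by rw [X.hy0]; exact tA⟩]
        omega
      by_cases e1 : d = y1
      · subst e1
        rw [if_neg (by simp [vy1]), if_neg e0, if_pos rfl, if_neg d13,
          if_pos ⟨X.ry1, by rw [vy1]; exact tB, by rw [X.hy1]; exact tC⟩]
        omega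
      by_cases e3 : d = y3
      · subst e3
        rw [if_neg (by simp [vy3]), if_neg e0, if_neg e1, if_pos rfl,
          if_pos ⟨X.ry3, by rw [vy3]; exact tB, by rw [← X.hc]; exact tC1⟩]
        omega
      rw [if_neg e0, if_neg e1, if_neg e3]
      by_cases c1 : S.real d = true ∧ (t (S.M.v d) && decide (S.M.v d ≠ S.M.v y0)) = true ∧
        (t (S.M.v (S.M.α d)) && decide (S.M.v (S.M.α d) ≠ S.M.v y0)) = false
      swap
      · rw [if_neg c1]; omega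
      rw [if_pos c1]
      obtain ⟨c2, c3, c4⟩ := c1
      rw [Bool.and_eq_true, decide_eq_true_eq] at c3
      by_cases c5 : S.M.v (S.M.α d) = S.M.v y0
      · rcases X.FB c5 with h2 | h2 | h2 | h2
        · exfalso
          have h3 : S.M.v d = S.M.v x0 := by rw [← S.M.αα d, h2, X.hy0]
          rw [h3, tA] at c3
          exact absurd c3.1 (by decide)
        · exfalso
          have h3 : S.M.v d = S.M.v z0 := by rw [← S.M.αα d, h2, X.hy1]
          rw [h3, tC] at c3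
          exact absurd c3.1 (by decide)
        · have h3 : d = S.M.α y2 := by rw [← S.M.αα d, h2]
          rw [if_pos h3]; omega
        · exfalso
          have h3 : S.M.v d = S.M.v (S.M.α x1) := by rw [← S.M.αα d, h2, X.hc]
          rw [h3, tC1] at c3
          exact absurd c3.1 (by decide)
      · have h3 : t (S.M.v (S.M.α d)) = false := by
          rw [decide_eq_true c5, Bool.and_true] at c4
          exact c4
        rw [if_pos ⟨c2, c3.1, h3⟩]; omega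
    rw [sone, sone, sone, sone] at h1
    exact h1
  omega

/-- the other common neighbour is not on the face of the gap -/
theorem Six.hubs1 (h : Rg S) (hS : IsStar S) (W : Wf Δ S L w)
    (N : Dst S x0 x1 x2 x3 y0 y1 y2 y3 z0 z1 z2 z3 z4)
    (ra : S.rdeg (S.M.v x0) = 4) (rc : S.rdeg (S.M.v z0) = 4)
    (rc1 : S.rdeg (S.M.v (S.M.α x1)) ≤ 5) :
    ∀ r, S.M.v r = S.M.v (S.M.α x1) → S.M.v (S.M.α r) ≠ S.M.v (S.M.α z3) := by
  classical
  intro r hr hh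
  have rα := W.real_α
  have hdead := X.dead hS W
  have vx1 : S.M.v x1 = S.M.v x0 := X.vx _ (by simp)
  have vx2 : S.M.v x2 = S.M.v x0 := X.vx _ (by simp)
  have vx3 : S.M.v x3 = S.M.v x0 := X.vx _ (by simp)
  have vy2 : S.M.v y2 = S.M.v y0 := X.vy _ (by simp)
  have vz3 : S.M.v z3 = S.M.v z0 := X.vz _ (by simp)
  have aA : S.M.v x0 ∈ S.A := W.real_A _ X.rx0
  have aB : S.M.v y0 ∈ S.A := W.real_A _ (X.ry0 W)
  have aC1 : S.M.v (S.M.α x1) ∈ S.A := X.aA W vx1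
  have aA' : S.M.v (S.M.α x2) ∈ S.A := X.aA W vx2
  have aB' : S.M.v (S.M.α y2) ∈ S.A := X.aB W vy2
  have aC : S.M.v z0 ∈ S.A := X.vC W
  have nd : ∀ v ∈ S.A, v ≠ S.M.v (S.M.α r) := fun v hv h0 => hdead (by rw [← hh, ← h0]; exact hv)
  have hc : S.M.Curve ![x1, r, S.M.α z3, S.M.α x3] :=
    curve4 (vx3.trans vx1.symm) hr (vz3.trans X.hx3.symm) hh (by rw [vx1]; exact N.C1A.symm)
      (by rw [vx1]; exact nd _ aA) (by rw [vx1, X.hx3]; exact N.AC) (nd _ aC1)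
      (by rw [X.hx3]; exact N.C1C) (by rw [X.hx3]; exact (nd _ aC).symm)
  obtain ⟨s, hs⟩ := hc.side
  have off : ∀ {z : D}, S.M.v z ∈ S.A → S.M.v z ≠ S.M.v x0 → S.M.v z ≠ S.M.v (S.M.α x1) →
      S.M.v z ≠ S.M.v z0 → S.Off ![x1, r, S.M.α z3, S.M.α x3] z := by
    intro z h1 h2 h3 h4
    rw [off4 hr hh]
    exact ⟨by rw [vx1]; exact h2, h3, nd _ h1, by rw [X.hx3]; exact h4⟩
  -- the sides of the darts
  have offc : ∀ {z : D}, S.Off ![x1, r, S.M.α z3, S.M.α x3] (S.M.α z) →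
      s (S.M.α z) = s z := by
    intro z hz
    refine hs.o z (fun i h0 => ?_) (fun i h0 => ?_)
    · have : S.M.v (S.M.α z) = S.M.v (![x1, r, S.M.α z3, S.M.α x3] (i + 1)) := by
        rw [h0]
        exact hc.nx i
      exact hz _ this
    · have : S.M.v (S.M.α z) = S.M.v (![x1, r, S.M.α z3, S.M.α x3] i) := by
        rw [h0, S.M.αα]
      exact hz _ this
  have oB : S.Off ![x1, r, S.M.α z3, S.M.α x3] (S.M.α x0) :=
    off (by rw [X.hx0]; exact aB) (by rw [X.hx0]; exact (W.real_ne _ (X.ry0 W)).trans_eq X.hy0)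
      (by rw [X.hx0]; exact N.C1B.symm) (by rw [X.hx0]; exact N.BC)
  have oA' : S.Off ![x1, r, S.M.α z3, S.M.α x3] (S.M.α x2) :=
    off aA' N.A'A N.A'C1 N.A'C
  have oB' : S.Off ![x1, r, S.M.α z3, S.M.α x3] (S.M.α y2) :=
    off aB' N.B'A N.B'C1 N.B'C
  have s2 : s x2 = false := by
    rw [← X.sx1]
    show s (S.M.φ (S.M.α x1)) = false
    rw [hs.φ]
    exact hs.f 0
  have s2' : s (S.M.α x2) = false := by rw [offc oA', s2]
  have s0 : s x0 = true := by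
    rw [← X.sx3]
    show s (S.M.φ (S.M.α x3)) = true
    rw [hs.φ]
    exact hs.t 3
  have s0' : s (S.M.α x0) = true := by rw [offc oB, s0]
  have sx : ∀ {z : D}, S.Off ![x1, r, S.M.α z3, S.M.α x3] z → s (S.M.σ z) = s z := by
    intro z hz
    show s (S.M.φ (S.M.α z)) = _
    rw [hs.φ]
    have h1 := offc (z := S.M.α z) (by rw [S.M.αα]; exact hz)
    rw [S.M.αα] at h1
    exact h1.symm
  have oB0 : S.Off ![x1, r, S.M.α z3, S.M.α x3] y0 := by rw [← X.ax0]; exact oB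
  have oB1 : S.Off ![x1, r, S.M.α z3, S.M.α x3] y1 := fun i => by
    rw [X.vy y1 (by simp)]; exact oB0 i
  have s2y : s y2 = true := by
    rw [← X.sy1, sx oB1, ← X.sy0, sx oB0, ← X.ax0]
    exact s0'
  have s2y' : s (S.M.α y2) = true := by rw [offc oB', s2y]
  have tB : S.sd ![x1, r, S.M.α z3, S.M.α x3] s true (S.M.v y0) = true := by
    rw [← X.ax0]
    exact (sd_off (b := true) hc hs oB).2 s0'
  have tB' : S.sd ![x1, r, S.M.α z3, S.M.α x3] s true (S.M.v (S.M.α y2)) = true :=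
    (sd_off (b := true) hc hs oB').2 s2y'
  have tA' : S.sd ![x1, r, S.M.α z3, S.M.α x3] s true (S.M.v (S.M.α x2)) = false := by
    cases h1 : S.sd ![x1, r, S.M.α z3, S.M.α x3] s true (S.M.v (S.M.α x2))
    · rfl
    · have := (sd_off (b := true) hc hs oA').1 h1
      rw [s2'] at this
      exact absurd this (by decide)
  have on : ∀ (z : D) (b : Bool), ¬ S.Off ![x1, r, S.M.α z3, S.M.α x3] z →
      S.sd ![x1, r, S.M.α z3, S.M.α x3] s b (S.M.v z) = false := by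
    intro z b hz
    unfold St.sd
    rw [decide_eq_false_iff_not]
    rintro ⟨z', h1, h2, -⟩
    exact hz fun i => by rw [← h1]; exact h2 i
  have tA : S.sd ![x1, r, S.M.α z3, S.M.α x3] s true (S.M.v x0) = false :=
    on x0 true fun h0 => h0 0 vx1.symm
  have tC : S.sd ![x1, r, S.M.α z3, S.M.α x3] s true (S.M.v z0) = false :=
    on z0 true fun h0 => h0 3 X.hx3.symm
  have tC1 : S.sd ![x1, r, S.M.α z3, S.M.α x3] s true (S.M.v (S.M.α x1)) = false :=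
    on (S.M.α x1) true fun h0 => h0 1 hr.symm
  have k1 := X.drop W N tB tA tC tC1
  have k2 := h.cut4 (fun v => S.sd ![x1, r, S.M.α z3, S.M.α x3] s true v &&
      decide (v ≠ S.M.v y0)) ⟨_, aB', by
        show (S.sd ![x1, r, S.M.α z3, S.M.α x3] s true (S.M.v (S.M.α y2)) && _) = true
        rw [tB', decide_eq_true N.B'B]; rfl⟩ ⟨_, aA, by
        show (S.sd ![x1, r, S.M.α z3, S.M.α x3] s true (S.M.v x0) && _) = false
        rw [tA]; rfl⟩
  have k3 := h.cut4 (S.sd ![x1, r, S.M.α z3, S.M.α x3] s false)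
    ⟨_, aA', (sd_off (b := false) hc hs oA').2 s2'⟩ ⟨_, aA, on x0 false fun h0 => h0 0 vx1.symm⟩
  have k4 : S.rc (S.sd ![x1, r, S.M.α z3, S.M.α x3] s true) +
      S.rc (S.sd ![x1, r, S.M.α z3, S.M.α x3] s false) ≤ S.out ![x1, r, S.M.α z3, S.M.α x3] :=
    rc_sd_add (S := nou S) W.nou hc hs
  have k5 : S.out ![x1, r, S.M.α z3, S.M.α x3] +
      ∑ i : Fin 4, (if S.real (![x1, r, S.M.α z3, S.M.α x3] i) = true then 2 else 0)
        ≤ ∑ i : Fin 4, S.rdeg (S.M.v (![x1, r, S.M.α z3, S.M.α x3] i)) :=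
    out_le (S := nou S) W.nou hc
  have k6 : 4 ≤ ∑ i : Fin 4, (if S.real (![x1, r, S.M.α z3, S.M.α x3] i) = true
      then 2 else 0) := by
    rw [Fin.sum_univ_four]
    have a0 : (if S.real (![x1, r, S.M.α z3, S.M.α x3] 0) = true then 2 else 0) = 2 :=
      if_pos X.rx1
    have a3 : (if S.real (![x1, r, S.M.α z3, S.M.α x3] 3) = true then 2 else 0) = 2 :=
      if_pos (by
        show S.real (S.M.α x3) = true
        rw [rα]; exact X.rx3)
    rw [a0, a3]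
    omega
  have k7 : ∑ i : Fin 4, S.rdeg (S.M.v (![x1, r, S.M.α z3, S.M.α x3] i)) ≤ 13 := by
    rw [Fin.sum_univ_four]
    have a0 : S.rdeg (S.M.v (![x1, r, S.M.α z3, S.M.α x3] 0)) = 4 := by
      show S.rdeg (S.M.v x1) = 4
      rw [vx1]; exact ra
    have a1 : S.rdeg (S.M.v (![x1, r, S.M.α z3, S.M.α x3] 1)) ≤ 5 := by
      show S.rdeg (S.M.v r) ≤ 5
      rw [hr]; exact rc1
    have a2 : S.rdeg (S.M.v (![x1, r, S.M.α z3, S.M.α x3] 2)) = 0 := rdeg_dead W hdead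
    have a3 : S.rdeg (S.M.v (![x1, r, S.M.α z3, S.M.α x3] 3)) = 4 := by
      show S.rdeg (S.M.v (S.M.α x3)) = 4
      rw [X.hx3]; exact rc
    omega
  omega

end

/-- THE REGION WITH A NULL VERTEX: two adjacent solid vertices of real degree four; one common
neighbour has real degree four, the other one at most five -/
theorem Tw.reg1 {x : D} (T : Tw S x) (h : Rg S) (hS : IsStar S) (W : Wf Δ S L w) (hΔ : Δ ≤ 7)
    (hr4 : ∀ v ∈ S.A, 4 ≤ S.rdeg v) (ra : S.rdeg (S.M.v x) = 4)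
    (c1 : S.rdeg (S.M.v (S.M.α (S.M.σ x))) ≤ 5) (n1 : 5 ≤ S.nd (S.M.α (S.M.σ x)))
    (c2 : S.rdeg (S.M.v (S.M.α (S.M.σ (S.M.α x)))) = 4)
    (n2 : 5 ≤ S.nd (S.M.α (S.M.σ (S.M.α x))))
    (fc : ∀ d, S.real d = true → S.M.v d = S.M.v x ∨ S.M.v d = S.M.v (S.M.α x) → Fc3 S d)
    (f4 : Q4 S x) :
    Reg S (fun v => v = S.M.v x ∨ v = S.M.v (S.M.α x) ∨
      v = S.M.v (S.M.α (S.M.σ (S.M.α x)))) := by
  have X := T.six h hS W c2 n2
  have N := X.dst hS W hr4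
  have hN := h.n2 hS W hΔ
  exact X.reg h hS W hN N (X.nadj1 N n1 n2 f4) (X.hubs1 h hS W N ra c2 c1) fc f4

/-- the facts on a region with two vertices -/
structure Tws (S : St D V) (x : D) : Prop where
  tw : Tw S x
  ra : S.rdeg (S.M.v x) = 4
  rb : S.rdeg (S.M.v (S.M.α x)) = 4
  nx1 : S.nxr x = S.M.σ x
  nx3 : S.nxr (S.nxr (S.nxr x)) = S.M.σ (S.M.σ (S.M.σ x))
  ny1 : S.nxr (S.M.α x) = S.M.σ (S.M.α x)
  ny3 : S.nxr (S.nxr (S.nxr (S.M.α x))) = S.M.σ (S.M.σ (S.M.σ (S.M.α x)))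
  v1 : S.M.v (S.M.α (S.M.σ x)) = S.M.v (S.M.α (S.M.σ (S.M.σ (S.M.σ (S.M.α x)))))
  v2 : S.M.v (S.M.α (S.M.σ (S.M.α x))) = S.M.v (S.M.α (S.M.σ (S.M.σ (S.M.σ x))))
  n1 : 5 ≤ S.nd (S.M.α (S.M.σ x))
  n2 : 5 ≤ S.nd (S.M.α (S.M.σ (S.M.α x)))
  fc : ∀ d, S.real d = true → S.M.v d = S.M.v x ∨ S.M.v d = S.M.v (S.M.α x) → Fc3 S d
  f4 : Q4 S x

theorem Tws.symm {x : D} (T : Tws S x) (W : Wf Δ S L w) : Tws S (S.M.α x) where
  tw := T.tw.symm W
  ra := T.rb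
  rb := by rw [S.M.αα]; exact T.ra
  nx1 := T.ny1
  nx3 := T.ny3
  ny1 := by rw [S.M.αα]; exact T.nx1
  ny3 := by rw [S.M.αα]; exact T.nx3
  v1 := by rw [S.M.αα]; exact T.v2
  v2 := by rw [S.M.αα]; exact T.v1
  n1 := T.n2
  n2 := by rw [S.M.αα]; exact T.n1
  fc d hd h1 := T.fc d hd (by rw [S.M.αα] at h1; exact h1.symm)
  f4 := T.f4.symm

/-- the region with two vertices -/
theorem Dsh.tws (hD : Dsh S U T) (hN : ¬ N1 S U T) (hS : IsStar S)
    (W : Wf Δ S L w) {x : D} (u1 : S.M.v x ∈ U) (u2 : S.M.v (S.M.α x) ∈ U) : Tws S x := by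
  classical
  obtain ⟨hc, hf⟩ := hD.n1.resolve_left hN
  obtain ⟨a1, a2, -⟩ := hf _ u1
  obtain ⟨b1, b2, -⟩ := hf _ u2
  obtain ⟨rx, rx1, rx2, rx3, cx, nx1, nx2, nx3⟩ := rot4 hS W a2 a1
  obtain ⟨ry, ry1, ry2, ry3, cy, ny1, ny2, ny3⟩ := rot4 hS W b2 b1
  have T1 : Tw S x := ⟨rx, rx1, rx2, rx3, cx, ry1, ry2, ry3, cy⟩
  have T2 := T1.symm W
  have z1 := T1.z1
  have z1' : S.M.σ (S.M.α (S.M.σ x)) = S.M.α (S.M.σ (S.M.σ (S.M.σ (S.M.α x)))) := by
    have := T2.z1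
    rwa [S.M.αα] at this
  have vc2 : S.M.v (S.M.α (S.M.σ (S.M.α x))) = S.M.v (S.M.α (S.M.σ (S.M.σ (S.M.σ x)))) := by
    rw [← z1, S.M.vσ]
  have vc1 : S.M.v (S.M.α (S.M.σ x)) =
      S.M.v (S.M.α (S.M.σ (S.M.σ (S.M.σ (S.M.α x))))) := by
    rw [← z1', S.M.vσ]
  obtain ⟨d1, d2, d3⟩ := rot_ne hS W (by rw [a1]) rx rx1 rx2 rx3
  obtain ⟨e1, e2, e3⟩ := rot_ne hS W (by rw [b1]) ry ry1 ry2 ry3
  have hU2 : ∀ v ∈ U, v = S.M.v x ∨ v = S.M.v (S.M.α x) := by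
    intro v hv
    by_contra hn
    rw [not_or] at hn
    have hne : S.M.v x ≠ S.M.v (S.M.α x) := W.real_ne x rx
    have : ({S.M.v x, S.M.v (S.M.α x), v} : Finset V) ⊆ U := by
      intro y hy
      simp only [Finset.mem_insert, Finset.mem_singleton] at hy
      rcases hy with rfl | rfl | rfl
      exacts [u1, u2, hv]
    have h3 := Finset.card_le_card this
    rw [Finset.card_insert_of_notMem (by
        simp only [Finset.mem_insert, Finset.mem_singleton, not_or]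
        exact ⟨hne, fun h0 => hn.1 h0.symm⟩), Finset.card_insert_of_notMem (by
        simp only [Finset.mem_singleton]
        exact fun h0 => hn.2 h0.symm), Finset.card_singleton, hc] at h3
    omega
  have inT : ∀ y, S.real y = true → S.M.v y = S.M.v x → y ≠ x → S.M.v (S.M.α y) ∈ T := by
    intro y hy hv hne
    rcases hD.nb y hy (by rw [hv]; exact u1) with h1 | h1
    · exfalso
      rcases hU2 _ h1 with h2 | h2
      · exact W.real_ne y hy (by rw [hv, h2])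
      · exact hne (W.simple _ _ hy rx hv h2)
    · exact h1
  have t1 : S.M.v (S.M.α (S.M.σ x)) ∈ T := inT _ rx1 (S.M.vσ x) d1
  have t3 : S.M.v (S.M.α (S.M.σ (S.M.σ (S.M.σ x)))) ∈ T :=
    inT _ rx3 (by rw [S.M.vσ, S.M.vσ, S.M.vσ]) d3
  have n1 : 5 ≤ S.nd (S.M.α (S.M.σ x)) := by
    refine hD.n5 _ (S.M.α (S.M.σ (S.M.σ (S.M.σ (S.M.α x))))) t1 vc1.symm ?_ ?_ ?_
    · intro h0
      have h1 : S.M.v (S.M.σ x) = S.M.v (S.M.σ (S.M.σ (S.M.σ (S.M.α x)))) := by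
        rw [S.M.αinj h0]
      rw [S.M.vσ, S.M.vσ, S.M.vσ, S.M.vσ] at h1
      exact W.real_ne x rx h1
    · rw [S.M.αα, S.M.vσ]; exact u1
    · rw [S.M.αα, S.M.vσ, S.M.vσ, S.M.vσ]; exact u2
  have n2 : 5 ≤ S.nd (S.M.α (S.M.σ (S.M.α x))) := by
    refine hD.n5 _ (S.M.α (S.M.σ (S.M.σ (S.M.σ x)))) (by rw [vc2]; exact t3) vc2.symm ?_ ?_ ?_
    · intro h0
      have h1 : S.M.v (S.M.σ (S.M.α x)) = S.M.v (S.M.σ (S.M.σ (S.M.σ x))) := by
        rw [S.M.αinj h0]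
      rw [S.M.vσ, S.M.vσ, S.M.vσ, S.M.vσ] at h1
      exact W.real_ne x rx h1.symm
    · rw [S.M.αα, S.M.vσ]; exact u2
    · rw [S.M.αα, S.M.vσ, S.M.vσ, S.M.vσ]; exact u1
  refine ⟨T1, a1, b1, nx1, nx3, ny1, ny3, vc1, vc2, n1, n2, ?_, ?_⟩
  · rintro d hd (h1 | h1)
    · exact hD.fc d hd (by rw [h1]; exact u1)
    · exact hD.fc d hd (by rw [h1]; exact u2)
  · exact fun e e' r h1 h2 h3 h4 h5 h6 => hD.f4 x e e' r rx u1 u2 h1 h2 h3 h4 h5 h6

/-- the data at the common neighbour `c2` of real degree four -/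
theorem Tws.c2 {x : D} (T : Tws S x) (h : Rg S) (hS : IsStar S) (W : Wf Δ S L w) (hΔ : Δ ≤ 7)
    (hr4 : ∀ v ∈ S.A, 4 ≤ S.rdeg v) (r1 : S.rdeg (S.M.v (S.M.α (S.nxr x))) ≤ 5)
    (r2 : S.rdeg (S.M.v (S.M.α (S.nxr (S.nxr (S.nxr x))))) = 4) : C2 S x := by
  have rα := W.real_α
  have nx1 := T.nx1
  have nx3 := T.nx3
  have vc2 := T.v2
  rw [nx1] at r1
  rw [nx3] at r2
  have X := T.tw.six h hS W (by rw [vc2]; exact r2) T.n2
  have key1 := T.tw.reg1 h hS W hΔ hr4 T.ra r1 T.n1 (by rw [vc2]; exact r2) T.n2 T.fc T.f4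
  refine ⟨?_, ?_, ?_, ?_, ?_⟩
  · rw [nx3, ← vc2]; exact key1
  · rw [nx1]; exact T.n1
  · rw [nx3]; exact r2
  · rw [nx3]
    have h1 : S.nxr (S.M.α (S.M.σ (S.M.σ (S.M.σ x)))) = S.M.φ (S.M.σ (S.M.σ (S.M.σ x))) := by
      unfold nxr
      rw [X.sz1, if_pos X.rz2]
    rw [h1]
    exact X.rz3
  · rw [nx3]
    have h1 : S.nxr (S.M.α (S.M.σ (S.M.σ (S.M.σ x)))) = S.M.φ (S.M.σ (S.M.σ (S.M.σ x))) := by
      unfold nxr
      rw [X.sz1, if_pos X.rz2]
    have h2 : S.nxr (S.M.φ (S.M.σ (S.M.σ (S.M.σ x)))) =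
        S.M.α (S.M.φ (S.M.σ (S.M.σ (S.M.α x)))) := by
      unfold nxr
      rw [if_neg (by rw [X.rz3]; decide), X.sz3]
    have h3 : S.nxr (S.M.α (S.M.φ (S.M.σ (S.M.σ (S.M.α x))))) = S.M.α (S.M.σ (S.M.α x)) := by
      unfold nxr
      rw [X.sz4, if_pos (by rw [rα]; exact T.tw.s1)]
    rw [h1, h2, h3, T.ny1]

/-- the data at the common neighbour `c1` of real degree four -/
theorem Tws.c1 {x : D} (T : Tws S x) (h : Rg S) (hS : IsStar S) (W : Wf Δ S L w) (hΔ : Δ ≤ 7)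
    (hr4 : ∀ v ∈ S.A, 4 ≤ S.rdeg v) (r1 : S.rdeg (S.M.v (S.M.α (S.nxr x))) = 4)
    (r2 : S.rdeg (S.M.v (S.M.α (S.nxr (S.nxr (S.nxr x))))) ≤ 5) : C1 S x := by
  have rα := W.real_α
  have nx1 := T.nx1
  have nx3 := T.nx3
  have vc2 := T.v2
  have T2 := T.symm W
  rw [nx1] at r1
  rw [nx3] at r2
  have Y := T2.tw.six h hS W (by rw [S.M.αα]; exact r1) (by rw [S.M.αα]; exact T.n1)
  have key2 := T2.tw.reg1 h hS W hΔ hr4 T2.ra (by rw [vc2]; exact r2) T2.n1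
    (by rw [S.M.αα]; exact r1) T2.n2 T2.fc T2.f4
  simp only [S.M.αα] at Y
  rw [S.M.αα] at key2
  refine ⟨?_, ?_, ?_, ?_, ?_⟩
  · rw [nx1]
    exact ⟨fun v hv => key2.A v (by tauto), fun d hd hv => key2.fc d hd (by tauto),
      key2.f4.mono fun v hv => by tauto, fun k e e' k' hc =>
        ⟨fun hv => (key2.f1 k e e' k' hc).1 (by tauto),
          fun hv => (key2.f1 k e e' k' hc).2 (by tauto)⟩⟩
  · rw [nx3]
    have : S.nd (S.M.α (S.M.σ (S.M.σ (S.M.σ x)))) = S.nd (S.M.α (S.M.σ (S.M.α x))) := by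
      unfold St.nd
      rw [vc2]
    rw [this]; exact T.n2
  · rw [nx1]; exact r1
  · rw [nx1]
    have h1 : S.nxr (S.M.α (S.M.σ x)) = S.M.α (S.M.σ (S.M.σ (S.M.σ (S.M.α x)))) := by
      unfold nxr
      rw [Y.sz0, if_pos (by rw [rα]; exact T.tw.s3)]
    have h2 : S.nxr (S.M.α (S.M.σ (S.M.σ (S.M.σ (S.M.α x))))) =
        S.M.φ (S.M.σ (S.M.σ (S.M.σ (S.M.α x)))) := by
      unfold nxr
      rw [Y.sz1, if_pos Y.rz2]
    rw [h1, h2]
    exact Y.rz3
  · rw [nx1, T.ny3]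
    unfold nxr
    rw [Y.sz0, if_pos (by rw [rα]; exact T.tw.s3)]

/-- the region with two vertices, one of the common neighbours has real degree four: `c1` -/
theorem Dsh.twin1 (hD : Dsh S U T) (hN : ¬ N1 S U T) (h : Rg S) (hS : IsStar S)
    (W : Wf Δ S L w) (hΔ : Δ ≤ 7) (hr4 : ∀ v ∈ S.A, 4 ≤ S.rdeg v) {x : D}
    (u1 : S.M.v x ∈ U) (u2 : S.M.v (S.M.α x) ∈ U)
    (r1 : S.rdeg (S.M.v (S.M.α (S.nxr x))) = 4)
    (r2 : S.rdeg (S.M.v (S.M.α (S.nxr (S.nxr (S.nxr x))))) ≤ 5) : C1 S x :=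
  (hD.tws hN hS W u1 u2).c1 h hS W hΔ hr4 r1 r2

/-- the region with two vertices, one of the common neighbours has real degree four: `c2` -/
theorem Dsh.twin2 (hD : Dsh S U T) (hN : ¬ N1 S U T) (h : Rg S) (hS : IsStar S)
    (W : Wf Δ S L w) (hΔ : Δ ≤ 7) (hr4 : ∀ v ∈ S.A, 4 ≤ S.rdeg v) {x : D}
    (u1 : S.M.v x ∈ U) (u2 : S.M.v (S.M.α x) ∈ U)
    (r1 : S.rdeg (S.M.v (S.M.α (S.nxr x))) ≤ 5)
    (r2 : S.rdeg (S.M.v (S.M.α (S.nxr (S.nxr (S.nxr x))))) = 4) : C2 S x :=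
  (hD.tws hN hS W u1 u2).c2 h hS W hΔ hr4 r1 r2

end Pool.FC7
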