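import Pool.Agent.FC7.C5S

/-! # The faces along a cut with four real edges next to a gap

`y = v t` is on the side `false`, the heads of `t` and `σ (σ t)` are on the side `true`, `σ t` is
virtual. -/

open Finset

set_option linter.unusedSectionVars false

namespace Pool.FC7

open Pool.FC6 Pool.FC6.St

variable {D V : Type} [Fintype D] [DecidableEq V] {S : St D V} {L : D → Bool} {w : D → ℕ} {Δ : ℕ}
  {U : V → Prop}

/-- the curve in the other direction -/
theorem Cv.symm {k e e' k' : D} (hra : ∀ d, S.real (S.M.α d) = S.real d)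
    (h : Cv S k e e' k') : Cv S k' e' e k where
  hk := h.hk'
  hk' := h.hk
  vk := h.vk.symm
  he := h.he'
  he' := h.he
  re := h.re'
  re' := h.re
  hw := h.hw.symm
  ne := h.ne.symm
  hn r h1 h2 h3 := h.hn (S.M.α r) (by rw [hra]; exact h1) h3 (by rw [S.M.αα]; exact h2)
  ht t h1 h2 := h.ht t (h1.trans h.vk) (h2.trans h.hw.symm)

/-- no closed curve through a face passes through a vertex with a virtual dart -/
theorem MC.nocv (hΔ : Δ ≤ 6) (h : MC Δ S L w) (hR : Reg S U) {t : D} (hU : U (S.M.v t))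
    (rt : S.real t = true) (rg : S.real (S.M.σ t) = false) (hsp : ¬ Sp5 S t) {k e e' k' : D}
    (hc : Cv S k e e' k') :
    S.M.v k ≠ S.M.v t ∧ S.M.v (S.M.α k) ≠ S.M.v t ∧ S.M.v (S.M.α k') ≠ S.M.v t := by
  classical
  have W := h.ok.toWf
  have h5 : 5 ≤ S.nd t := by
    have h1 := h.rdeg4 hΔ (W.real_A _ rt)
    by_contra h0
    have h2 : S.nd t = 4 := by
      have h3 : S.rdeg (S.M.v t) ≤ S.nd t := by
        unfold St.rdeg St.nd
        rw [Finset.card_filter]
        refine Finset.sum_le_sum fun x _ => ?_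
        by_cases h1 : S.M.v x = S.M.v t
        · rw [if_pos h1]
          split_ifs <;> norm_num
        · rw [if_neg h1, if_neg fun h2 => h1 h2.1]
      omega
    have h3 := real_of_nd h2 h1 (z' := S.M.σ t) (S.M.vσ t)
    rw [rg] at h3
    exact absurd h3 (by decide)
  have hsp' : ∀ {z}, S.M.v z = S.M.v t → ¬ Sp5 S z := fun {z} h0 ⟨x, h1, h2⟩ =>
    hsp ⟨x, h1.trans h0, h2⟩
  have key : ∀ {z}, S.M.v z = S.M.v t → ¬ (S.nd z ≤ 4 ∨ Sp5 S z) := by
    rintro z h0 (h1 | h1)
    · rw [nd_congr h0] at h1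
      omega
    · exact hsp' h0 h1
  refine ⟨fun h0 => ?_, fun h0 => ?_, fun h0 => ?_⟩
  · exact key h0 ((hR.f1 _ _ _ _ hc).1 (by rw [h0]; exact hU))
  · exact key h0 ((hR.f1 _ _ _ _ hc).2 (by rw [h0]; exact hU))
  · exact key h0 ((hR.f1 _ _ _ _ (hc.symm W.real_α)).2 (by rw [h0]; exact hU))

/-- both sides of a real edge are different faces -/
theorem MC.nobr (hΔ : Δ ≤ 6) (h : MC Δ S L w) (hS : IsStar S) {d : D} (hd : S.real d = true) :
    ¬ S.sc.r d (S.M.α d) := by
  classical
  have W := h.ok.toWf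
  have rα := W.real_α
  have rA := W.real_A
  have hN := (h.rg hΔ).n2 hS W (by omega)
  intro h0
  cases h1 : S.real (S.M.φ d)
  · -- a face with a centre
    have h2 := hS.dead d hd h1
    have h3 : S.sc.r (S.M.φ (S.M.φ d)) (S.M.α d) :=
      S.sc.iseqv.trans (S.sc.iseqv.symm ((scφ _ _).2 ((scφ _ _).2 (S.sc.iseqv.refl d)))) h0
    rw [hS.sc_star W h2] at h3
    rcases h3 with h4 | h4 | h4
    · rw [← h4] at h2
      exact h2 (rA _ (by rw [rα]; exact hd))
    · rw [← h4, S.M.vφ, S.M.αα] at h2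
      exact h2 (rA _ hd)
    · have h5 := hN _ (rA (S.M.α d) (by rw [rα]; exact hd)) (S.M.φ d)
        (S.M.α (S.M.φ (S.M.φ (S.M.α d)))) (S.M.vφ d) (S.M.vφ2 _) (by
          rw [S.M.αα, ← S.M.vφ, h4])
      have h6 : S.M.σ (S.M.φ d) = S.M.α d := by rw [h5, S.M.σρ]
      refine σσ_ne (S := S) (y := S.M.α d) (h.rdeg4 hΔ (rA _ (by rw [rα]; exact hd))) ?_
      have h7 : S.M.σ (S.M.α d) = S.M.φ d := by
        show S.M.φ (S.M.α (S.M.α d)) = _
        rw [S.M.αα]
      rw [h7, h6]
  · -- a solid triangle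
    have h2 := hS.two d hd h1
    have hr : ∀ e, Fp S d e → S.real e = true := by
      rintro e (rfl | rfl | rfl)
      · exact hd
      · exact h1
      · exact h2
    have hcl : S.Cl fun e => decide (Fp S d e) := ⟨fun e => by
      show decide (Fp S d (S.M.φ e)) = decide (Fp S d e)
      rw [decide_eq_decide]; exact fp_φ, fun e he => by
      show decide (Fp S d (S.M.α e)) = decide (Fp S d e)
      rw [decide_eq_decide]
      constructor
      · intro h3
        have := hr _ h3
        rw [rα, he] at this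
        exact absurd this (by decide)
      · intro h3
        have := hr _ h3
        rw [he] at this
        exact absurd this (by decide)⟩
    have h3 := cl_sc hcl h0
    have h4 : Fp S d (S.M.α d) := by
      have e1 : decide (Fp S d d) = true := decide_eq_true (Or.inl rfl)
      rw [e1] at h3
      exact of_decide_eq_true h3.symm
    exact fp_α W.real_ne hr (Or.inl rfl) h4

/-- the face of a solid triangle -/
theorem fp_of_sc (rα : ∀ d, S.real (S.M.α d) = S.real d) {d e : D}
    (hr : ∀ e, Fp S d e → S.real e = true) (h0 : S.sc.r d e) : Fp S d e := by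
  classical
  have hcl : S.Cl fun e => decide (Fp S d e) := ⟨fun e => by
    show decide (Fp S d (S.M.φ e)) = decide (Fp S d e)
    rw [decide_eq_decide]; exact fp_φ, fun e he => by
    show decide (Fp S d (S.M.α e)) = decide (Fp S d e)
    rw [decide_eq_decide]
    constructor
    · intro h3
      have := hr _ h3
      rw [rα, he] at this
      exact absurd this (by decide)
    · intro h3
      have := hr _ h3
      rw [he] at this
      exact absurd this (by decide)⟩
  have h3 := cl_sc hcl h0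
  have e1 : decide (Fp S d d) = true := decide_eq_true (Or.inl rfl)
  rw [e1] at h3
  exact of_decide_eq_true h3.symm

theorem sc_of_fp {d e : D} (h : Fp S d e) : S.sc.r d e := by
  rcases h with rfl | rfl | rfl
  · exact S.sc.iseqv.refl _
  · exact (scφ _ _).2 (S.sc.iseqv.refl _)
  · exact (scφ _ _).2 ((scφ _ _).2 (S.sc.iseqv.refl _))

/-- not all real darts at a vertex belong to a cut with four edges -/
theorem MC.allcut (hΔ : Δ ≤ 6) (h : MC Δ S L w) {s : V → Bool} (h4 : S.rc s = 4)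
    (h2 : S.Two s false) {t : D} (K1 : S.M.α t ∈ kc S s)
    (hall : ∀ d, S.real d = true → S.M.v d = S.M.v t → s (S.M.v (S.M.α d)) = true) : False := by
  classical
  have W := h.ok.toWf
  have rα := W.real_α
  have rA := W.real_A
  obtain ⟨e1, e2, e3⟩ := mem_kc.1 K1
  rw [S.M.αα] at e3
  obtain ⟨z, hzA, hzy, hzs⟩ : ∃ z ∈ S.A, z ≠ S.M.v t ∧ s z = false := by
    obtain ⟨z1, k1, z2, k2, k3, k4, k5⟩ := h2
    by_cases h0 : z1 = S.M.v t
    · exact ⟨z2, k2, fun h6 => k3 (h0.trans h6.symm), k5⟩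
    · exact ⟨z1, k1, h0, k4⟩
  obtain ⟨s', hs'⟩ : ∃ s' : V → Bool, ∀ x, s' x = if x = S.M.v t then true else s x :=
    ⟨_, fun _ => rfl⟩
  have h5 : 4 ≤ S.rc s' := h.cut4 hΔ ⟨_, rA (S.M.α t) e1, by
    rw [hs']
    split_ifs
    · rfl
    · exact e2⟩ ⟨z, hzA, by rw [hs', if_neg hzy]; exact hzs⟩
  have h6 : kc S s' ⊆ (kc S s).erase (S.M.α t) := by
    intro d hd
    obtain ⟨d1, d2, d3⟩ := mem_kc.1 hd
    have d4 : S.M.v (S.M.α d) ≠ S.M.v t := fun h0 => by
      rw [hs', if_pos h0] at d3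
      exact absurd d3 (by decide)
    rw [hs', if_neg d4] at d3
    have d5 : S.M.v d ≠ S.M.v t := fun h0 => by
      rw [hall d d1 h0] at d3
      exact absurd d3 (by decide)
    rw [hs', if_neg d5] at d2
    refine Finset.mem_erase.2 ⟨fun h0 => ?_, mem_kc.2 ⟨d1, d2, d3⟩⟩
    rw [h0, S.M.αα] at d4
    exact d4 rfl
  have h7 := Finset.card_le_card h6
  rw [Finset.card_erase_of_mem K1, kc_card, kc_card] at h7
  omega

/-- the differences of a function on the faces at a cut -/
theorem fc_id (rα : ∀ d, S.real (S.M.α d) = S.real d) {s : V → Bool} {g : D → ℝ}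
    (hg : S.Cl g) : ∑ k ∈ kc S s, (g k - g (S.M.α k)) = 0 := by
  have h1 := cut_idT (s := s) (c := fun _ => true) rα hg.1 (fun d hd => hg.2 d hd)
    (fun d _ _ h0 => absurd rfl h0) (fun _ => (1 : ℝ))
  simpa using h1

open Classical in
/-- the indicator of a face -/
noncomputable def fci (S : St D V) (d e : D) : ℝ := if S.sc.r d e then 1 else 0

theorem fci_cl (d : D) : S.Cl (fci S d) := by
  classical
  refine ⟨fun e => ?_, fun e he => ?_⟩
  · unfold fci
    exact if_congr (scφ d e) rfl rfl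
  · unfold fci
    exact if_congr (scα he d) rfl rfl

theorem fci_one {d e : D} (h : S.sc.r d e) : fci S d e = 1 := if_pos h

theorem fci_zero {d e : D} (h : ¬ S.sc.r d e) : fci S d e = 0 := if_neg h

theorem rdeg_nd (t : D) : S.rdeg (S.M.v t) ≤ S.nd t := by
  classical
  unfold St.rdeg St.nd
  rw [Finset.card_filter]
  refine Finset.sum_le_sum fun x _ => ?_
  by_cases h1 : S.M.v x = S.M.v t
  · rw [if_pos h1]
    split_ifs <;> norm_num
  · rw [if_neg h1, if_neg fun h2 => h1 h2.1]

/-- at least five darts at a vertex with a virtual dart -/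
theorem MC.nd5 (hΔ : Δ ≤ 6) (h : MC Δ S L w) {t g : D} (rt : S.real t = true)
    (hg : S.M.v g = S.M.v t) (rg : S.real g = false) : 5 ≤ S.nd t := by
  have h1 := h.rdeg4 hΔ (h.ok.toWf.real_A _ rt)
  have h3 := rdeg_nd (S := S) t
  by_contra h0
  have h2 : S.nd t = 4 := by omega
  have h3 := real_of_nd h2 h1 hg
  rw [rg] at h3
  exact absurd h3 (by decide)

/-- at least six darts at a vertex with two virtual darts -/
theorem MC.nd6 (hΔ : Δ ≤ 6) (h : MC Δ S L w) {t g g' : D} (rt : S.real t = true)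
    (hg : S.M.v g = S.M.v t) (rg : S.real g = false) (hg' : S.M.v g' = S.M.v t)
    (rg' : S.real g' = false) (hne : g ≠ g') : 6 ≤ S.nd t := by
  classical
  have h1 := h.rdeg4 hΔ (h.ok.toWf.real_A _ rt)
  have h2 : S.rdeg (S.M.v t) = (Finset.univ.filter fun d => S.M.v d = S.M.v t ∧
      S.real d = true).card := by
    rw [Finset.card_filter]
    rfl
  have h3 : ((Finset.univ.filter fun d => S.M.v d = S.M.v t ∧ S.real d = true) ∪ {g, g'}).card
      ≤ S.nd t := by
    unfold St.nd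
    refine Finset.card_le_card fun d hd => ?_
    rcases Finset.mem_union.1 hd with h4 | h4
    · exact Finset.mem_filter.2 ⟨Finset.mem_univ _, (Finset.mem_filter.1 h4).2.1⟩
    · simp only [Finset.mem_insert, Finset.mem_singleton] at h4
      rcases h4 with rfl | rfl
      · exact Finset.mem_filter.2 ⟨Finset.mem_univ _, hg⟩
      · exact Finset.mem_filter.2 ⟨Finset.mem_univ _, hg'⟩
  rw [Finset.card_union_of_disjoint, Finset.card_pair hne, ← h2] at h3
  · omega
  · rw [Finset.disjoint_left]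
    intro d hd hd'
    have h4 := (Finset.mem_filter.1 hd).2.2
    simp only [Finset.mem_insert, Finset.mem_singleton] at hd'
    rcases hd' with rfl | rfl
    · rw [rg] at h4; exact absurd h4 (by decide)
    · rw [rg'] at h4; exact absurd h4 (by decide)

section faces

variable (hΔ : Δ ≤ 6) (h : MC Δ S L w) (hS : IsStar S) {s : V → Bool} {t k3 k4 : D}
  (rt : S.real t = true) (rg : S.real (S.M.σ t) = false)
  (hF : ∀ d, Fp S (S.M.α (S.M.σ (S.M.σ t))) d → S.real d = true)
  (h4 : S.rc s = 4) (K1 : S.M.α t ∈ kc S s) (K2 : S.M.α (S.M.σ (S.M.σ t)) ∈ kc S s)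
  (K3 : k3 ∈ kc S s) (K4 : k4 ∈ kc S s) (n12 : S.M.α t ≠ S.M.α (S.M.σ (S.M.σ t)))
  (n13 : S.M.α t ≠ k3) (n14 : S.M.α t ≠ k4) (n23 : S.M.α (S.M.σ (S.M.σ t)) ≠ k3)
  (n24 : S.M.α (S.M.σ (S.M.σ t)) ≠ k4) (n34 : k3 ≠ k4)
  (f3 : Fp S (S.M.α (S.M.σ (S.M.σ t))) (S.M.α k3))

include hΔ h hS rt rg hF h4 K1 K2 K3 K4 n12 n13 n14 n23 n24 n34 f3

/-- the faces at the other two edges of the cut -/
theorem MC.geoF : S.sc.r t k4 ∧ S.sc.r k3 (S.M.α k4) ∧ ¬ S.sc.r t k3 := by
  classical
  have W := h.ok.toWf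
  have rα := W.real_α
  obtain ⟨r, hr⟩ : ∃ r, r = S.M.σ (S.M.σ t) := ⟨_, rfl⟩
  rw [← hr] at hF K2 n12 n23 n24 f3
  have hK : kc S s = {S.M.α t, S.M.α r, k3, k4} := by
    symm
    refine Finset.eq_of_subset_of_card_le (fun d hd => ?_) ?_
    · simp only [Finset.mem_insert, Finset.mem_singleton] at hd
      rcases hd with rfl | rfl | rfl | rfl <;> assumption
    · rw [kc_card, h4, Finset.card_insert_of_notMem (by simp [n12, n13, n14]),
        Finset.card_insert_of_notMem (by simp [n23, n24]), Finset.card_pair n34]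
  have hid : ∀ d, (fci S d (S.M.α t) - fci S d t) + (fci S d (S.M.α r) - fci S d r) +
      (fci S d k3 - fci S d (S.M.α k3)) + (fci S d k4 - fci S d (S.M.α k4)) = 0 := by
    intro d
    have h1 := fc_id (s := s) rα (fci_cl (S := S) d)
    rw [sum4 hK n12 n13 n14 n23 n24 n34, S.M.αα, S.M.αα] at h1
    exact h1
  obtain ⟨-, s1, s1'⟩ := mem_kc.1 K1
  obtain ⟨rr', s2, s2'⟩ := mem_kc.1 K2
  obtain ⟨r3, s3, s3'⟩ := mem_kc.1 K3
  obtain ⟨r4, s4, s4'⟩ := mem_kc.1 K4
  rw [S.M.αα] at s1' s2'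
  have rr : S.real r = true := by rw [← rα]; exact rr'
  -- the same face before and after the gap
  have g1 : S.sc.r (S.M.α t) r := by
    have e1 : S.sc.r (S.M.α t) (S.M.σ t) := (scφ _ _).2 (S.sc.iseqv.refl _)
    have e2 := (scα rg (S.M.α t)).2 e1
    rw [hr]
    exact (scφ _ _).2 e2
  have eq1 : ∀ d, fci S d r = fci S d (S.M.α t) := fun d => (cl_sc (fci_cl d) g1).symm
  have eq2 : ∀ d, fci S d (S.M.α k3) = fci S d (S.M.α r) := fun d =>
    (cl_sc (fci_cl d) (sc_of_fp f3)).symm
  have nb := fun {d : D} (hd : S.real d = true) => h.nobr hΔ hS hd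
  have nb' := fun {d : D} (hd : S.real d = true) => fun h0 => h.nobr hΔ hS hd
    (S.sc.iseqv.symm h0)
  have n5 : S.M.σ r ≠ t := by
    intro h0
    have h1 := h.nd5 hΔ rt (S.M.vσ t) rg
    have h2 := σ_inj_lt (S := S) t (i := 3) (j := 0) (by omega) (by omega) (by
      show S.M.σ (S.M.σ (S.M.σ t)) = t
      rw [← hr, h0])
    omega
  -- the face of `t` is not the triangle
  have g2 : ¬ S.sc.r t (S.M.α r) := by
    intro h0
    have h1 := fp_of_sc rα hF (S.sc.iseqv.symm h0)
    rcases h1 with h1 | h1 | h1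
    · rw [h1, s2] at s1'
      exact absurd s1' (by decide)
    · exact n5 h1.symm
    · have h2 := W.real_ne _ (hF _ (Or.inr (Or.inl rfl)))
      apply h2
      rw [← S.M.vφ (S.M.φ (S.M.α r)), ← h1, S.M.vφ, S.M.αα, hr, S.M.vσ, S.M.vσ]
  have c1 := hid t
  rw [fci_zero (nb rt), fci_one (S.sc.iseqv.refl t), eq1, eq2, fci_zero (nb rt),
    fci_zero g2] at c1
  by_cases a3 : S.sc.r t k3
  · exfalso
    rw [fci_one a3] at c1
    by_cases a4 : S.sc.r t k4
    · have a5 : ¬ S.sc.r t (S.M.α k4) := fun h0 => nb r4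
        (S.sc.iseqv.trans (S.sc.iseqv.symm a4) h0)
      rw [fci_one a4, fci_zero a5] at c1
      norm_num at c1
    · have c2 := hid k4
      have a5 : ¬ S.sc.r k4 k3 := fun h0 => a4 (S.sc.iseqv.trans a3 (S.sc.iseqv.symm h0))
      have a6 : ¬ S.sc.r k4 t := fun h0 => a4 (S.sc.iseqv.symm h0)
      rw [fci_zero a6, eq1, eq2, fci_zero a5, fci_one (S.sc.iseqv.refl k4),
        fci_zero (nb r4)] at c2
      linarith
  · rw [fci_zero a3] at c1
    have a4 : S.sc.r t k4 := by
      by_contra a4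
      rw [fci_zero a4] at c1
      by_cases a5 : S.sc.r t (S.M.α k4)
      · rw [fci_one a5] at c1
        linarith
      · rw [fci_zero a5] at c1
        linarith
    refine ⟨a4, ?_, a3⟩
    have c2 := hid k3
    have a6 : ¬ S.sc.r k3 t := fun h0 => a3 (S.sc.iseqv.symm h0)
    have a7 : ¬ S.sc.r k3 k4 := fun h0 => a3 (S.sc.iseqv.trans a4 (S.sc.iseqv.symm h0))
    have a8 : ¬ S.sc.r k3 (S.M.α r) := fun h0 => nb r3
      (S.sc.iseqv.trans h0 (sc_of_fp f3))
    rw [fci_zero a6, eq1, eq2, fci_one (S.sc.iseqv.refl k3), fci_zero a7, fci_zero a8] at c2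
    by_contra a9
    rw [fci_zero a9] at c2
    linarith

end faces

end Pool.FC7
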