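import Pool.Agent.FC7.GeA

/-! # The ends of the cut edges next to a gap

`MC.geo`, `MC.geo'`: the ends `x3`, `p` of the other two edges of the cut on the side of `x1`, `x2` are
different and not adjacent, and they are not `x2`, `x1`. -/

open Finset

set_option linter.unusedSectionVars false

namespace Pool.FC7

open Pool.FC6 Pool.FC6.St

variable {D V : Type} [Fintype D] [DecidableEq V] {S : St D V} {L : D → Bool} {w : D → ℕ} {Δ : ℕ}
  {U : V → Prop}

section faces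

variable (hΔ : Δ ≤ 6) (h : MC Δ S L w) (hS : IsStar S) {s : V → Bool} {t k3 k4 : D}
  (hfc : ∀ d, S.real d = true → S.M.v d = S.M.v t → Fc3 S d)
  (hno : ∀ k e e' k', Cv S k e e' k' → S.M.v k ≠ S.M.v t ∧ S.M.v (S.M.α k) ≠ S.M.v t)
  (rt : S.real t = true) (rg : S.real (S.M.σ t) = false)
  (hF : ∀ d, Fp S (S.M.α (S.M.σ (S.M.σ t))) d → S.real d = true)
  (h4 : S.rc s = 4) (h2 : S.Two s false) (K1 : S.M.α t ∈ kc S s)
  (K2 : S.M.α (S.M.σ (S.M.σ t)) ∈ kc S s)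
  (K3 : k3 ∈ kc S s) (K4 : k4 ∈ kc S s) (n12 : S.M.α t ≠ S.M.α (S.M.σ (S.M.σ t)))
  (n13 : S.M.α t ≠ k3) (n14 : S.M.α t ≠ k4) (n23 : S.M.α (S.M.σ (S.M.σ t)) ≠ k3)
  (n24 : S.M.α (S.M.σ (S.M.σ t)) ≠ k4) (n34 : k3 ≠ k4)
  (f3 : Fp S (S.M.α (S.M.σ (S.M.σ t))) (S.M.α k3))

include hΔ h hS hfc hno rt rg hF h4 h2 K1 K2 K3 K4 n12 n13 n14 n23 n24 n34 f3

theorem MC.geoC : S.M.v k3 ≠ S.M.v k4 ∧
    (∀ r, S.real r = true → S.M.v r = S.M.v k3 → S.M.v (S.M.α r) ≠ S.M.v k4) ∧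
    ¬ (S.M.v k3 = S.M.v (S.M.α (S.M.σ (S.M.σ t))) ∧ S.M.v k4 = S.M.v (S.M.α t)) ∧
    ¬ (S.M.v k3 = S.M.v (S.M.α t) ∧ S.M.v k4 = S.M.v (S.M.α (S.M.σ (S.M.σ t)))) := by
  classical
  have W := h.ok.toWf
  have rα := W.real_α
  have rA := W.real_A
  have rA' : ∀ d, S.real d = true → S.M.v (S.M.α d) ∈ S.A := fun d hd =>
    rA _ (by rw [rα]; exact hd)
  have hN := (h.rg hΔ).n2 hS W (by omega)
  obtain ⟨P1, P2, P3⟩ := h.geoF hΔ hS rt rg hF h4 K1 K2 K3 K4 n12 n13 n14 n23 n24 n34 f3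
  obtain ⟨r, hr⟩ : ∃ r, r = S.M.σ (S.M.σ t) := ⟨_, rfl⟩
  have hr' : S.M.σ (S.M.σ t) = r := hr.symm
  rw [hr'] at hF K2 n12 n23 n24 f3 ⊢
  obtain ⟨-, s1, s1'⟩ := mem_kc.1 K1
  obtain ⟨rr', s2, s2'⟩ := mem_kc.1 K2
  obtain ⟨r3, s3, s3'⟩ := mem_kc.1 K3
  obtain ⟨r4, s4, s4'⟩ := mem_kc.1 K4
  rw [S.M.αα] at s1' s2'
  have rr : S.real r = true := by rw [← rα]; exact rr'
  have vr : S.M.v r = S.M.v t := by rw [hr, S.M.vσ, S.M.vσ]
  have yA := rA _ rt
  have nr' : ∀ d, S.real d = true → S.M.σ t ≠ d := fun d hd h0 => by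
    rw [h0, hd] at rg
    exact absurd rg (by decide)
  have h5 := h.nd5 hΔ rt (S.M.vσ t) rg
  have i5 : ∀ i, 0 < i → i < 5 → S.M.σ^[i] t ≠ t := fun i hi hi' h0 => by
    have := σ_inj_lt (S := S) t (i := i) (j := 0) (by omega) (by omega) h0
    omega
  have e1 : r ≠ t := fun h0 => i5 2 (by norm_num) (by norm_num) (by
    show S.M.σ (S.M.σ t) = t
    rw [hr', h0])
  have e2 : S.M.σ r ≠ t := fun h0 => i5 3 (by norm_num) (by norm_num) (by
    show S.M.σ (S.M.σ (S.M.σ t)) = t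
    rw [hr', h0])
  have e3 : S.M.σ (S.M.σ r) ≠ t := fun h0 => i5 4 (by norm_num) (by norm_num) (by
    show S.M.σ (S.M.σ (S.M.σ (S.M.σ t))) = t
    rw [hr', h0])
  have σr1 : S.M.σ r = S.M.φ (S.M.α r) := rfl
  -- the third edge of the cut
  obtain ⟨m, hm, vm3, f3'⟩ : ∃ m, (m = r ∨ m = S.M.σ r) ∧ S.M.v (S.M.α m) = S.M.v k3 ∧
      ((m = S.M.σ r ∧ S.M.α k3 = S.M.φ (S.M.α r)) ∨
        (m = r ∧ S.M.α k3 = S.M.φ (S.M.φ (S.M.α r)))) := by
    rcases f3 with f3 | f3 | f3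
    · exfalso
      rw [f3, s2] at s3'
      exact absurd s3' (by decide)
    · refine ⟨S.M.σ r, Or.inr rfl, ?_, Or.inl ⟨rfl, f3⟩⟩
      rw [σr1, ← f3, S.M.αα]
    · refine ⟨r, Or.inl rfl, ?_, Or.inr ⟨rfl, f3⟩⟩
      have : k3 = S.M.α (S.M.φ (S.M.φ (S.M.α r))) := by rw [← f3, S.M.αα]
      rw [this, S.M.vφ2]
  have rm : S.real m = true := by
    rcases hm with rfl | rfl
    · exact rr
    · exact hF _ (Or.inr (Or.inl rfl))
  have vm : S.M.v m = S.M.v t := by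
    rcases hm with rfl | rfl
    · exact vr
    · rw [S.M.vσ, vr]
  have m1 : m ≠ t := by
    rcases hm with rfl | rfl
    · exact e1
    · exact e2
  have m2 : S.M.σ m ≠ t := by
    rcases hm with rfl | rfl
    · exact e2
    · exact e3
  have m0 : S.M.σ t ≠ m := nr' m rm
  have hm5 : S.M.σ (S.M.σ m) = t → m = S.M.σ r ∧ S.M.σ^[5] t = t := by
    intro h0
    rcases hm with rfl | rfl
    · exact absurd h0 e3
    · refine ⟨rfl, ?_⟩
      show S.M.σ (S.M.σ (S.M.σ (S.M.σ (S.M.σ t)))) = t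
      rw [hr', h0]
  -- the vertex `x3` is not adjacent to `x1` through `t`
  have noX : ∀ g, S.M.v g = S.M.v (S.M.α t) → S.M.v (S.M.α g) = S.M.v k3 → False := by
    intro g h0 h1
    rcases hfc t rt rfl m g vm h0 (vm3.trans h1.symm) with ⟨a, -⟩ | ⟨a, -⟩
    · exact m0 a.symm
    · exact m2 a
  -- (4)
  have Q4 : ¬ (S.M.v k3 = S.M.v (S.M.α t) ∧ S.M.v k4 = S.M.v (S.M.α r)) := by
    rintro ⟨h0, -⟩
    exact m1 (hN _ yA m t vm rfl (vm3.trans h0))
  -- (3)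
  have Q3 : ¬ (S.M.v k3 = S.M.v (S.M.α r) ∧ S.M.v k4 = S.M.v (S.M.α t)) := by
    rintro ⟨h0, h1⟩
    rcases f3' with ⟨h6, -⟩ | ⟨h6, h7⟩
    · have h8 := hN _ yA m r vm vr (vm3.trans h0)
      rw [h6] at h8
      have h9 : S.M.σ (S.M.σ t) = S.M.σ t := S.M.σinj (by rw [hr', h8])
      exact nr' r rr (by rw [← h9]; exact hr')
    · cases h8 : S.real (S.M.φ k3)
      · have hd := hS.dead k3 r3 h8
        have h9 : S.sc.r (S.M.φ (S.M.φ k3)) (S.M.α k4) :=
          S.sc.iseqv.trans (S.sc.iseqv.symm ((scφ _ _).2 ((scφ _ _).2 (S.sc.iseqv.refl k3)))) P2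
        rw [hS.sc_star W hd] at h9
        have hub : S.M.v (S.M.φ (S.M.φ (S.M.α k4))) = S.M.v (S.M.φ (S.M.φ k3)) := by
          rcases h9 with h9 | h9 | h9
          · rw [← h9] at hd
            exact absurd (rA' _ r4) hd
          · rw [← h9, S.M.vφ, S.M.αα] at hd
            exact absurd (rA _ r4) hd
          · exact h9
        have ve : S.M.v (S.M.σ k4) = S.M.v (S.M.α t) := by rw [S.M.vσ, h1]
        have we : S.M.v (S.M.α (S.M.σ k4)) = S.M.v (S.M.φ (S.M.φ k3)) := by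
          rw [← S.M.vφ]; exact hub
        have ve' : S.M.v (S.M.α (S.M.φ (S.M.φ k3))) = S.M.v (S.M.α r) := by rw [S.M.vφ2, h0]
        have dv : ∀ g, S.M.v (S.M.α g) = S.M.v (S.M.φ (S.M.φ k3)) → S.real g = false :=
          fun g hg => by
            by_contra h10
            exact hd (by rw [← hg]; exact rA' _ (by simpa using h10))
        have hc : Cv S t (S.M.σ k4) (S.M.α (S.M.φ (S.M.φ k3))) r :=
          { hk := rt, hk' := rr, vk := vr, he := ve, he' := ve', re := dv _ we,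
            re' := dv _ (by rw [S.M.αα]), hw := by rw [we, S.M.αα],
            ne := fun h10 => e1 (hN _ yA r t vr rfl h10.symm),
            hn := fun g h10 h11 h12 => noX g h11 (h12.trans h0.symm),
            ht := fun g h10 h11 => by
              rw [we] at h11
              rcases hfc r rr vr g (S.M.α (S.M.φ (S.M.φ k3))) (h10.trans vr.symm) ve'
                (by rw [S.M.αα]; exact h11) with ⟨a, -⟩ | ⟨-, b⟩
              · have h12 := dv g h11
                rw [a, σr1, hF _ (Or.inr (Or.inl rfl))] at h12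
                exact absurd h12 (by decide)
              · have b1 : S.M.σ (S.M.σ (S.M.α r)) = k3 := by rw [← b]; exact S.M.σρ k3
                have b2 : S.M.σ k3 = S.M.α r := by
                  show S.M.φ (S.M.α k3) = _
                  rw [h7, S.M.φ3]
                have b3 := h.rdeg4 hΔ (rA _ rr')
                have b4 := rdeg_nd (S := S) (S.M.α r)
                have b5 := σ_inj_lt (S := S) (S.M.α r) (i := 3) (j := 0) (by omega) (by omega)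
                  (by
                    show S.M.σ (S.M.σ (S.M.σ (S.M.α r))) = S.M.α r
                    rw [b1, b2])
                omega }
        exact (hno _ _ _ _ hc).1 rfl
      · have h9 := hS.two k3 r3 h8
        have hr3 : ∀ e, Fp S k3 e → S.real e = true := by
          rintro e (rfl | rfl | rfl)
          · exact r3
          · exact h8
          · exact h9
        rcases fp_of_sc rα hr3 P2 with h10 | h10 | h10
        · rw [h10, s3] at s4'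
          exact absurd s4' (by decide)
        · refine noX (S.M.φ (S.M.φ k3)) ?_ (S.M.vφ2 k3)
          rw [S.M.vφ, ← h10, S.M.αα, h1]
        · have h11 : S.M.v k4 = S.M.v k3 := by
            rw [← S.M.vφ2 k3, ← h10, S.M.αα]
          exact e1 (hN _ yA r t vr rfl (by rw [← h0, ← h11, h1]))
  -- all real darts at `y` in the cut
  have AC : ∀ n, 0 < n → S.M.σ^[n] t = t → (∀ i < n, S.real (S.M.σ^[i] t) = true →
      s (S.M.v (S.M.α (S.M.σ^[i] t))) = true) → False := by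
    intro n hn h0 h1
    refine h.allcut hΔ h4 h2 K1 fun d hd hv => ?_
    obtain ⟨k, hk⟩ := S.M.σ_orbit hv.symm
    have hk' : S.M.σ^[k % n] t = d := by
      have hp : Function.IsPeriodicPt S.M.σ n t := h0
      rw [hp.iterate_mod_apply]; exact hk
    rw [← hk'] at hd ⊢
    exact h1 _ (Nat.mod_lt _ hn) hd
  have σ2 : S.M.σ^[2] t = r := hr'
  cases h8 : S.real (S.M.φ t)
  · -- the face of `t` has a centre
    have hd := hS.dead t rt h8
    have hub : S.M.v (S.M.φ (S.M.φ k4)) = S.M.v (S.M.φ (S.M.φ t)) := by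
      have h9 : S.sc.r (S.M.φ (S.M.φ t)) k4 :=
        S.sc.iseqv.trans (S.sc.iseqv.symm ((scφ _ _).2 ((scφ _ _).2 (S.sc.iseqv.refl t)))) P1
      rw [hS.sc_star W hd] at h9
      rcases h9 with h9 | h9 | h9
      · rw [← h9] at hd
        exact absurd (rA _ r4) hd
      · rw [← h9, S.M.vφ] at hd
        exact absurd (rA' _ r4) hd
      · exact h9
    have dv : ∀ g, S.M.v (S.M.α g) = S.M.v (S.M.φ (S.M.φ t)) → S.real g = false :=
      fun g hg => by
        by_contra h10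
        exact hd (by rw [← hg]; exact rA' _ (by simpa using h10))
    obtain ⟨y0, hy0⟩ : ∃ y0, y0 = S.M.α (S.M.φ (S.M.φ t)) := ⟨_, rfl⟩
    obtain ⟨p0, hp0⟩ : ∃ p0, p0 = S.M.α (S.M.φ (S.M.φ k4)) := ⟨_, rfl⟩
    have vy0 : S.M.v y0 = S.M.v t := by rw [hy0, S.M.vφ2]
    have vp0 : S.M.v p0 = S.M.v k4 := by rw [hp0, S.M.vφ2]
    have wy0 : S.M.v (S.M.α y0) = S.M.v (S.M.φ (S.M.φ t)) := by rw [hy0, S.M.αα]
    have wp0 : S.M.v (S.M.α p0) = S.M.v (S.M.φ (S.M.φ t)) := by rw [hp0, S.M.αα, hub]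
    have σy0 : S.M.σ y0 = t := by rw [hy0]; exact S.M.σρ t
    have ry0 := dv _ wy0
    have rp0 := dv _ wp0
    have h6 := h.nd6 hΔ rt (S.M.vσ t) rg vy0 ry0 (fun h0 => e1 (by rw [← hr', h0, σy0]))
    have i6 : S.M.σ^[5] t ≠ t := fun h0 => by
      have := σ_inj_lt (S := S) t (i := 5) (j := 0) (by omega) (by omega) h0
      omega
    have B1 : ∀ g, S.M.v g = S.M.v k3 → S.M.v (S.M.α g) = S.M.v (S.M.φ (S.M.φ t)) → False := by
      intro g h0 h1
      rcases hfc m rm vm y0 g (vy0.trans vm.symm) (h0.trans vm3.symm) (wy0.trans h1.symm)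
        with ⟨a, -⟩ | ⟨a, -⟩
      · exact i6 (hm5 (by rw [← a, σy0])).2
      · exact m1 (by rw [← a, σy0])
    refine ⟨fun h0 => B1 p0 (vp0.trans h0.symm) wp0, fun ρ h0 h1 h3 => ?_, Q3, Q4⟩
    have B2 : ∀ g, S.real g = true → S.M.v g = S.M.v t → S.M.v (S.M.α g) ≠ S.M.v k4 := by
      intro g hg h9 h10
      rcases hfc g hg h9 y0 p0 (vy0.trans h9.symm) (vp0.trans h10.symm) (wy0.trans wp0.symm)
        with ⟨a, -⟩ | ⟨a, -⟩
      · rcases hfc g hg h9 m (S.M.α ρ) (vm.trans h9.symm) (h3.trans h10.symm)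
          (by rw [S.M.αα, h1, vm3]) with ⟨b, -⟩ | ⟨b, -⟩
        · rw [b, ← a, ry0] at rm
          exact absurd rm (by decide)
        · rcases hm with hm | hm
          · apply i6
            show S.M.σ (S.M.σ (S.M.σ (S.M.σ (S.M.σ t)))) = t
            rw [hr', ← hm, b, ← a, σy0]
          · refine AC 6 (by norm_num) ?_ fun i hi hi' => ?_
            · show S.M.σ (S.M.σ (S.M.σ (S.M.σ (S.M.σ (S.M.σ t))))) = t
              rw [hr', ← hm, b, ← a, σy0]
            · have hcase : i = 0 ∨ i = 1 ∨ i = 2 ∨ i = 3 ∨ i = 4 ∨ i = 5 := by omega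
              rcases hcase with rfl | rfl | rfl | rfl | rfl | rfl
              · exact s1
              · exact absurd rfl (nr' _ hi')
              · show s (S.M.v (S.M.α (S.M.σ (S.M.σ t)))) = true
                rw [hr']; exact s2
              · show s (S.M.v (S.M.α (S.M.σ (S.M.σ (S.M.σ t))))) = true
                rw [hr', ← hm, vm3]; exact s3
              · show s (S.M.v (S.M.α (S.M.σ (S.M.σ (S.M.σ (S.M.σ t)))))) = true
                rw [hr', ← hm, b, h10]; exact s4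
              · have hi2 : S.real (S.M.σ (S.M.σ (S.M.σ (S.M.σ (S.M.σ t))))) = true := hi'
                rw [hr', ← hm, b, ← a, ry0] at hi2
                exact absurd hi2 (by decide)
      · rw [σy0] at a
        rw [← a] at h10
        exact noX (S.M.α ρ) (h3.trans h10.symm) (by rw [S.M.αα]; exact h1)
    have hc : Cv S (S.M.α m) y0 p0 ρ :=
      { hk := by rw [rα]; exact rm, hk' := h0, vk := h1.trans vm3.symm,
        he := by rw [S.M.αα, vy0, vm], he' := vp0.trans h3.symm, re := ry0, re' := rp0,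
        hw := wy0.trans wp0.symm,
        ne := fun h9 => by
          rw [S.M.αα, vm, h3] at h9
          rw [h9, s4] at s1'
          exact absurd s1' (by decide),
        hn := fun g h9 h10 h11 => B2 g h9 (by rw [h10, S.M.αα, vm]) (h11.trans h3),
        ht := fun g h9 h10 => B1 g (h9.trans vm3) (h10.trans wy0) }
    exact (hno _ _ _ _ hc).2 (by rw [S.M.αα, vm])
  · -- the face of `t` is a triangle
    have h9 := hS.two t rt h8
    have hr3 : ∀ e, Fp S t e → S.real e = true := by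
      rintro e (rfl | rfl | rfl)
      · exact rt
      · exact h8
      · exact h9
    rcases fp_of_sc rα hr3 P1 with h10 | h10 | h10
    · rw [← h10, s4] at s1'
      exact absurd s1' (by decide)
    · have h11 : S.M.v k4 = S.M.v (S.M.α t) := by rw [h10, S.M.vφ]
      refine ⟨fun h0 => m1 (hN _ yA m t vm rfl (vm3.trans (h0.trans h11))),
        fun ρ h0 h1 h3 => ?_, Q3, Q4⟩
      exact noX (S.M.α ρ) (h3.trans h11) (by rw [S.M.αα]; exact h1)
    · obtain ⟨g, hg⟩ : ∃ g, g = S.M.α (S.M.φ (S.M.φ t)) := ⟨_, rfl⟩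
      have vg : S.M.v g = S.M.v t := by rw [hg, S.M.vφ2]
      have wg : S.M.v (S.M.α g) = S.M.v k4 := by rw [hg, S.M.αα, h10]
      have σg : S.M.σ g = t := by rw [hg]; exact S.M.σρ t
      have rg' : S.real g = true := by rw [hg, rα]; exact h9
      refine ⟨fun h0 => m2 ?_, fun ρ h0 h1 h3 => ?_, Q3, Q4⟩
      · rw [hN _ yA m g vm vg (vm3.trans (h0.trans wg.symm)), σg]
      · rcases hfc g rg' vg m (S.M.α ρ) (vm.trans vg.symm) (h3.trans wg.symm)
          (by rw [S.M.αα, h1, vm3]) with ⟨b, -⟩ | ⟨b, -⟩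
        · exact m1 (by rw [b, σg])
        · obtain ⟨c1, c2⟩ := hm5 (by rw [b, σg])
          refine AC 5 (by norm_num) c2 fun i hi hi' => ?_
          have hcase : i = 0 ∨ i = 1 ∨ i = 2 ∨ i = 3 ∨ i = 4 := by omega
          rcases hcase with rfl | rfl | rfl | rfl | rfl
          · exact s1
          · exact absurd rfl (nr' _ hi')
          · show s (S.M.v (S.M.α (S.M.σ (S.M.σ t)))) = true
            rw [hr']; exact s2
          · show s (S.M.v (S.M.α (S.M.σ (S.M.σ (S.M.σ t))))) = true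
            rw [hr', ← c1, vm3]; exact s3
          · show s (S.M.v (S.M.α (S.M.σ (S.M.σ (S.M.σ (S.M.σ t)))))) = true
            rw [hr', ← c1, b, wg]; exact s4

end faces

/-- the ends of the cut edges next to a gap, the triangle after the gap is solid -/
theorem MC.geo (hΔ : Δ ≤ 6) (h : MC Δ S L w) (hS : IsStar S) (hR : Reg S U) {s : V → Bool}
    {t k3 k4 : D} (hU : U (S.M.v t)) (r1 : S.real t = true) (r0 : S.real (S.M.σ t) = false)
    (_r2 : S.real (S.M.σ (S.M.σ t)) = true)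
    (hF : ∀ d, Fp S (S.M.α (S.M.σ (S.M.σ t))) d → S.real d = true)
    (h4 : S.rc s = 4) (h2 : S.Two s false) (K1 : S.M.α t ∈ kc S s)
    (K2 : S.M.α (S.M.σ (S.M.σ t)) ∈ kc S s) (K3 : k3 ∈ kc S s) (K4 : k4 ∈ kc S s)
    (n12 : S.M.α t ≠ S.M.α (S.M.σ (S.M.σ t))) (n13 : S.M.α t ≠ k3) (n14 : S.M.α t ≠ k4)
    (n23 : S.M.α (S.M.σ (S.M.σ t)) ≠ k3) (n24 : S.M.α (S.M.σ (S.M.σ t)) ≠ k4) (n34 : k3 ≠ k4)
    (f3 : Fp S (S.M.α (S.M.σ (S.M.σ t))) (S.M.α k3)) (hsp : ¬ Sp5 S t) :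
    S.M.v k3 ≠ S.M.v k4 ∧
    (∀ r, S.real r = true → S.M.v r = S.M.v k3 → S.M.v (S.M.α r) ≠ S.M.v k4) ∧
    ¬ (S.M.v k3 = S.M.v (S.M.α (S.M.σ (S.M.σ t))) ∧ S.M.v k4 = S.M.v (S.M.α t)) ∧
    ¬ (S.M.v k3 = S.M.v (S.M.α t) ∧ S.M.v k4 = S.M.v (S.M.α (S.M.σ (S.M.σ t)))) :=
  h.geoC hΔ hS (fun d hd hv => hR.fc d hd (by rw [hv]; exact hU))
    (fun _ _ _ _ hc => ⟨(h.nocv hΔ hR hU r1 r0 hsp hc).1, (h.nocv hΔ hR hU r1 r0 hsp hc).2.1⟩)
    r1 r0 hF h4 h2 K1 K2 K3 K4 n12 n13 n14 n23 n24 n34 f3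

/-- the ends of the cut edges next to a gap, the triangle before the gap is solid -/
theorem MC.geo' (hΔ : Δ ≤ 6) (h : MC Δ S L w) (hS : IsStar S) (hR : Reg S U) {s : V → Bool}
    {t k3 k4 : D} (hU : U (S.M.v t)) (r1 : S.real t = true) (r0 : S.real (S.M.σ t) = false)
    (_r2 : S.real (S.M.σ (S.M.σ t)) = true)
    (hF : ∀ d, Fp S t d → S.real d = true)
    (h4 : S.rc s = 4) (h2 : S.Two s false) (K1 : S.M.α t ∈ kc S s)
    (K2 : S.M.α (S.M.σ (S.M.σ t)) ∈ kc S s) (K3 : k3 ∈ kc S s) (K4 : k4 ∈ kc S s)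
    (n12 : S.M.α t ≠ S.M.α (S.M.σ (S.M.σ t))) (n13 : S.M.α t ≠ k3) (n14 : S.M.α t ≠ k4)
    (n23 : S.M.α (S.M.σ (S.M.σ t)) ≠ k3) (n24 : S.M.α (S.M.σ (S.M.σ t)) ≠ k4) (n34 : k3 ≠ k4)
    (f3 : Fp S t k3) (hsp : ¬ Sp5 S t) :
    S.M.v k3 ≠ S.M.v k4 ∧
    (∀ r, S.real r = true → S.M.v r = S.M.v k3 → S.M.v (S.M.α r) ≠ S.M.v k4) ∧
    ¬ (S.M.v k3 = S.M.v (S.M.α (S.M.σ (S.M.σ t))) ∧ S.M.v k4 = S.M.v (S.M.α t)) ∧
    ¬ (S.M.v k3 = S.M.v (S.M.α t) ∧ S.M.v k4 = S.M.v (S.M.α (S.M.σ (S.M.σ t)))) := by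
  have W := h.ok.toWf
  have rα := W.real_α
  have hfp : ∀ a b, Fp (FC7.mir S) a b ↔ Fp S a b := by
    intro a b
    show (b = a ∨ b = S.M.φ (S.M.φ a) ∨ b = S.M.φ (S.M.φ (S.M.φ (S.M.φ a)))) ↔ _
    rw [S.M.φ3]
    unfold Fp
    tauto
  have kcm : ∀ d, d ∈ kc S s → S.M.α d ∈ kc (FC7.mir S) s := by
    intro d hd
    obtain ⟨a1, a2, a3⟩ := mem_kc.1 hd
    refine mem_kc.2 ⟨by show S.real (S.M.α d) = true; rw [rα]; exact a1, ?_, ?_⟩
    · show s (S.M.v (S.M.α (S.M.α d))) = true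
      rw [S.M.αα]; exact a2
    · show s (S.M.v (S.M.α (S.M.α (S.M.α d)))) = false
      rw [S.M.αα]; exact a3
  obtain ⟨r, hr⟩ : ∃ r, S.M.σ (S.M.σ t) = r := ⟨_, rfl⟩
  have σ1 : (FC7.mir S).M.σ (S.M.α r) = S.M.α (S.M.σ t) := by
    rw [mσ_iff, S.M.αα, S.M.αα]; exact hr
  have σ2 : (FC7.mir S).M.σ (S.M.α (S.M.σ t)) = S.M.α t := by
    rw [mσ_iff, S.M.αα, S.M.αα]
  have σ3 : (FC7.mir S).M.σ ((FC7.mir S).M.σ (S.M.α r)) = S.M.α t := by rw [σ1, σ2]
  have σ4 : (FC7.mir S).M.α ((FC7.mir S).M.σ ((FC7.mir S).M.σ (S.M.α r))) = t := by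
    rw [σ3]; exact S.M.αα t
  have vr : S.M.v r = S.M.v t := by rw [← hr, S.M.vσ, S.M.vσ]
  rw [hr] at _r2 K2 n12 n23 n24 ⊢
  have vm : ∀ d, (FC7.mir S).M.v (S.M.α d) = S.M.v d := fun d => by
    show S.M.v (S.M.α (S.M.α d)) = _
    rw [S.M.αα]
  have hmc := h.mir hΔ hS
  have key := hmc.geoC hΔ (hS.mir W) (s := s) (t := S.M.α r) (k3 := S.M.α k3) (k4 := S.M.α k4)
    (fun d hd hv => (hR.mir W).fc d hd (by rw [hv, vm, vr]; exact hU))
    (fun k e e' k' hc => by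
      have hc' := hc.mir rα
      obtain ⟨b1, b2, -⟩ := h.nocv hΔ hR hU r1 r0 hsp hc'
      rw [vm, vr]
      exact ⟨b1, b2⟩)
    (by show S.real (S.M.α r) = true; rw [rα]; exact _r2)
    (by rw [σ1]; show S.real (S.M.α (S.M.σ t)) = false; rw [rα]; exact r0)
    (fun d hd => by
      rw [σ4, hfp] at hd
      exact hF d hd)
    (by rw [mr_rc rα]; exact h4) h2
    (by
      show S.M.α (S.M.α r) ∈ _
      exact kcm _ K2)
    (by
      rw [σ4]
      have := kcm _ K1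
      rwa [S.M.αα] at this)
    (kcm _ K3) (kcm _ K4)
    (by
      rw [σ4]
      show S.M.α (S.M.α r) ≠ t
      exact fun h0 => n12 (S.M.αinj (by rw [h0, S.M.αα])))
    (by
      show S.M.α (S.M.α r) ≠ S.M.α k3
      exact fun h0 => n23 (S.M.αinj h0))
    (by
      show S.M.α (S.M.α r) ≠ S.M.α k4
      exact fun h0 => n24 (S.M.αinj h0))
    (by
      rw [σ4]
      exact fun h0 => n13 (S.M.αinj (by rw [S.M.αα]; exact h0)))
    (by
      rw [σ4]
      exact fun h0 => n14 (S.M.αinj (by rw [S.M.αα]; exact h0)))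
    (fun h0 => n34 (S.M.αinj h0))
    (by
      rw [σ4, hfp]
      show Fp S t (S.M.α (S.M.α k3))
      rw [S.M.αα]; exact f3)
  rw [σ4, vm, vm] at key
  have v4 : (FC7.mir S).M.v t = S.M.v (S.M.α t) := rfl
  have v5 : (FC7.mir S).M.v ((FC7.mir S).M.α (S.M.α r)) = S.M.v (S.M.α r) := by
    show S.M.v (S.M.α (S.M.α (S.M.α r))) = _
    rw [S.M.αα]
  rw [v4, v5] at key
  obtain ⟨a1, a2, a3, a4⟩ := key
  refine ⟨a1, fun d hd h0 => ?_, a4, a3⟩
  have h1 := a2 (S.M.α d) (by show S.real (S.M.α d) = true; rw [rα]; exact hd) (by rw [vm, h0])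
  intro h3
  apply h1
  show S.M.v (S.M.α (S.M.α (S.M.α d))) = S.M.v k4
  rw [S.M.αα]; exact h3

end Pool.FC7
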