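import Pool.Agent.FC7.SyD

/-! # The words of letters in the mirror image; patterns of letters -/

open Finset

set_option linter.unusedSectionVars false

namespace Pool.FC7

open Pool.FC6 Pool.FC6.St

theorem lm_lm (l : ℕ) : lm (lm l) = l := by
  have h1 : ∀ l < 46, lm (lm l) = l := by decide
  by_cases h : l < 46
  · exact h1 l h
  · have h2 : lm l = l := by
      unfold lm
      repeat rw [if_neg (by omega)]
    rw [h2, h2]

theorem lmw_lmw (c : List ℕ) : lmw (lmw c) = c := by
  unfold lmw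
  rw [← List.map_reverse, List.reverse_reverse, List.map_map]
  have : lm ∘ lm = id := funext lm_lm
  rw [this, List.map_id]

theorem lmw_length (c : List ℕ) : (lmw c).length = c.length := by simp [lmw]

theorem lle_lm {g l : ℕ} (h : lle g l = true) : lle (lm g) (lm l) = true := by
  exact lle_all (f := fun g l => lle (lm g) (lm l)) (fun l => lle_refl _) (by decide) h

theorem getD_lmw {c : List ℕ} {i : ℕ} (hi : i < c.length) :
    (lmw c).getD i 0 = lm (c.getD (c.length - 1 - i) 0) := by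
  rw [List.getD_eq_getElem _ _ (by rw [lmw_length]; exact hi)]
  unfold lmw
  rw [List.getElem_map, List.getElem_reverse, ← List.getD_eq_getElem _ 0]

theorem llw_lmw {c t : List ℕ} (h : llw c t = true) : llw (lmw c) (lmw t) = true := by
  have hl := llw_len h
  rw [llw_iff]
  refine ⟨by rw [lmw_length, lmw_length, hl], fun i hi => ?_⟩
  rw [lmw_length] at hi
  rw [getD_lmw hi, getD_lmw (by rw [← hl]; exact hi), ← hl]
  exact lle_lm (llw_getD h (by omega))

def mck (l : ℕ) (s : Bool) : Bool := !glt l s || decide (lett (mlt l s) (lS l) = lm (lett l s))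

theorem mck_all : ∀ l < 1024, mck l true = true ∧ mck l false = true := by decide +kernel

variable {D V : Type} [Fintype D] [DecidableEq V]
  {S : St D V} {L : D → Bool} {w : D → ℕ} {U : V → Prop} {d x : D}

/-- the exact code in the mirror image -/
theorem code_mir (hS : IsStar S) (W : Wf 6 S L w) (hd : S.real d = true)
    (hu : ∀ e, S.u e < 3) :
    code (mir S) L (S.M.α (S.nxr d)) = mlt (code S L d) (L (S.nxr d)) := by
  have hu' : ∀ e, S.u e < 4 := fun e => by have := hu e; omega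
  have hn := mnxr (S := S) W.real_α hd
  have hmn : mnx S (S.M.α d) = S.nxr d := by
    unfold mnx
    rw [if_pos (by rw [W.real_α]; exact hd)]
    rfl
  have hrd : S.real (S.M.α d) = true := by rw [W.real_α]; exact hd
  have a0 : (mir S).u ((mir S).nxr (S.M.α (S.nxr d))) = S.u (S.nxr d) := by
    rw [hn]
    show S.u (mnx S (S.M.α d)) = _
    rw [hmn]
  by_cases hs : S.real (S.M.σ d) = true
  · have r2 : S.nxr d = S.M.σ d := if_pos hs
    have e1 : (mir S).M.σ (S.M.α (S.nxr d)) = S.M.α d := by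
      rw [mσ_iff, S.M.αα, S.M.αα, r2]
    have r3 : S.real (S.M.φ (S.M.σ d)) = true := hS.two (S.M.α d) hrd hs
    have r4 : S.M.φ (S.M.φ (S.M.σ d)) = S.M.α d := S.M.φ3 _
    have e2 : (mir S).M.φ (S.M.α d) = S.M.φ (S.M.σ d) := rfl
    have c1 : code S L d = mkl (S.u (S.nxr d)) (S.u (S.M.α d)) (S.u (S.M.φ (S.M.σ d))) 0 (L d)
        (L (S.M.φ (S.M.σ d))) := if_pos hs
    obtain ⟨q1, q2, q3, q4, q5, q6⟩ := mkl_dec (hu' (S.nxr d)) (hu' (S.M.α d))
      (hu' (S.M.φ (S.M.σ d))) (show (0 : ℕ) < 4 by norm_num) (L d) (L (S.M.φ (S.M.σ d)))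
    have b0 : (mir S).u ((mir S).M.α (S.M.α (S.nxr d))) = S.u (S.M.φ (S.M.σ d)) := by
      show S.u (mnx S (S.M.α (S.M.α (S.nxr d)))) = _
      rw [S.M.αα, r2]
      unfold mnx
      rw [if_pos hs, if_pos r3]
    have c0 : (mir S).u ((mir S).M.φ (S.M.α d)) = S.u (S.M.α d) := by
      rw [e2]
      show S.u (mnx S (S.M.φ (S.M.σ d))) = _
      unfold mnx
      rw [if_pos r3, r4, if_pos hrd]
    have m1 : code (mir S) L (S.M.α (S.nxr d)) = mkl (S.u (S.nxr d)) (S.u (S.M.φ (S.M.σ d)))
        (S.u (S.M.α d)) 0 (L (S.nxr d)) (L (S.M.φ (S.M.σ d))) := by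
      unfold code
      rw [e1]
      rw [if_pos (show (mir S).real (S.M.α d) = true from hrd), a0, b0, c0, e2, W.L_α]
    rw [m1, c1]
    unfold mlt
    rw [q4, if_pos rfl, q1, q2, q3, q6]
  · have hs0 : S.real (S.M.σ d) = false := by simpa using hs
    have r2 : S.nxr d = S.M.σ (S.M.σ d) := if_neg hs
    have e1 : (mir S).M.σ (S.M.α (S.nxr d)) = S.M.α (S.M.σ d) := by
      rw [mσ_iff, S.M.αα, S.M.αα, r2]
    have f1 : fu (mir S) (S.M.α (S.M.σ d)) = fu S (S.M.σ d) := by
      rw [mr_fu hS W.real_α W.real_A, fu_α hs0]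
    have f2 : (mir S).csz (S.M.α (S.M.σ d)) = S.csz (S.M.σ d) := by
      rw [mr_csz]
      exact csz_congr (S.sc.iseqv.symm ((scα hs0 _).2 (S.sc.iseqv.refl _)))
    have c1 : code S L d = mkl (S.u (S.nxr d)) (fcl (fu S (S.M.σ d)))
        (if S.csz (S.M.σ d) = 4 then 1 else 2) 1 (L d) false := if_neg hs
    have hc : (if S.csz (S.M.σ d) = 4 then 1 else 2) < 4 := by split_ifs <;> norm_num
    obtain ⟨q1, q2, q3, q4, q5, q6⟩ := mkl_dec (hu' (S.nxr d)) (fcl_lt (fu S (S.M.σ d))) hc
      (show (1 : ℕ) < 4 by norm_num) (L d) false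
    have m1 : code (mir S) L (S.M.α (S.nxr d)) = mkl (S.u (S.nxr d)) (fcl (fu S (S.M.σ d)))
        (if S.csz (S.M.σ d) = 4 then 1 else 2) 1 (L (S.nxr d)) false := by
      unfold code
      rw [e1]
      rw [if_neg (show ¬ (mir S).real (S.M.α (S.M.σ d)) = true by
        show ¬ S.real (S.M.α (S.M.σ d)) = true
        rw [W.real_α]; exact hs), a0, f1, f2, W.L_α]
    rw [m1, c1]
    unfold mlt
    rw [q4, if_neg (show ¬ (1 : ℕ) = 0 by norm_num), q1, q2, q3]

/-- the word of letters in the mirror image -/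
theorem MC.lwo_mir (h : MC 6 S L w) (hS : IsStar S) (hd : S.real d = true) :
    lwo (FC7.mir S) L (S.M.α d) = lmw (lwo S L d) := by
  have W := h.ok.toWf
  have hm := h.mir (le_refl 6) hS
  have hmS := hS.mir W
  have hrd : (FC7.mir S).real (S.M.α d) = true := by
    show S.real (S.M.α d) = true
    rw [W.real_α]; exact hd
  have hlen : (FC7.mir S).rdeg ((FC7.mir S).M.v (S.M.α d)) = S.rdeg (S.M.v d) := by
    rw [mr_rdeg W.real_α]
    congr 1
    exact TMap.mir_vα S.M d
  refine List.ext_getElem ?_ fun i h1 h2 => ?_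
  · rw [lmw_length, lwo_length, lwo_length, hlen]
  · have h1' := h1
    rw [lwo_length, hlen] at h1'
    have h2' : S.rdeg (S.M.v d) - 1 - i < S.rdeg (S.M.v d) := by omega
    rw [← List.getD_eq_getElem _ 0, hm.lwo_getD hmS hrd (by rw [hlen]; exact h1'),
      mnxr_rot hS W hd h1'.le]
    unfold lmw
    rw [List.getElem_map, List.getElem_reverse, ← List.getD_eq_getElem _ 0]
    have e0 : (lwo S L d).length - 1 - i = S.rdeg (S.M.v d) - 1 - i := by rw [lwo_length]
    rw [e0, h.lwo_getD hS hd h2']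
    generalize hj : S.rdeg (S.M.v d) - 1 - i = j at *
    have e1 : S.rdeg (S.M.v d) - i = j + 1 := by omega
    have hr := hS.nxr_iter_real W hd j
    rw [e1, Function.iterate_succ_apply']
    unfold lto
    have e2 : (FC7.mir S).nxr (S.M.α (S.nxr (S.nxr^[j] d))) = S.M.α (S.nxr^[j] d) :=
      mnxr W.real_α hr
    rw [e2, code_mir hS W hr (h.u_lt (le_refl 6) hS), W.L_α]
    have e3 : L (S.nxr^[j] d) = lS (code S L (S.nxr^[j] d)) :=
      (code_S (h.u_lt (le_refl 6) hS)).symm
    have g := h.glt (le_refl 6) hS hr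
    have h4 := mck_all _ (h.code_lt hS (d := S.nxr^[j] d))
    have h5 : mck (code S L (S.nxr^[j] d)) (L (S.nxr (S.nxr^[j] d))) = true := by
      cases L (S.nxr (S.nxr^[j] d))
      · exact h4.2
      · exact h4.1
    unfold mck at h5
    rw [g, Bool.not_true, Bool.false_or, decide_eq_true_eq] at h5
    rw [e3]
    exact h5

/-! ### Patterns -/

/-- canonical distribution: the vertices without units of a face with two units at one corner are
full -/
def Can (S : St D V) (w : D → ℕ) : Prop :=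
  ∀ g g', S.real g = true → S.real g' = true → S.sc.r g g' → S.u g' = 2 → S.u g = 0 →
    6 ≤ wt S w (S.M.v g)

/-- the weight of a vertex in the mirror image -/
theorem wt_mir (hS : IsStar S) (h : Wf 6 S L w) (x : V) : wt (FC7.mir S) w x = wt S w x := by
  unfold wt
  have e1 : ∀ (F : D → ℕ) (G : D → V), ∑ d, (if G d = x then (if S.real d = true then 1 else 0) +
      F d + w d else 0) = ∑ d, (if G d = x then (if S.real d = true then 1 else 0) + w d else 0) +
      ∑ d, (if G d = x then F d else 0) := by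
    intro F G
    rw [← Finset.sum_add_distrib]
    refine Finset.sum_congr rfl fun d _ => ?_
    by_cases hd : G d = x
    · simp only [if_pos hd]; omega
    · simp only [if_neg hd]
  rw [e1 S.u S.M.v]
  show ∑ d, (if S.M.v (S.M.α d) = x then (if S.real d = true then 1 else 0) +
      S.u (mnx S d) + w d else 0) = _
  rw [e1 (fun d => S.u (mnx S d)) (fun d => S.M.v (S.M.α d))]
  congr 1
  · rw [← sum_α_nat S.M (fun d => if S.M.v d = x then (if S.real d = true then 1 else 0) + w d
      else 0)]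
    refine Finset.sum_congr rfl fun d _ => ?_
    rw [h.real_α, h.w_α]
  · rw [← mnx_sum hS h.real_α h.real_A (fun d => if S.M.v d = x then S.u d else 0)]
    refine Finset.sum_congr rfl fun d _ => ?_
    by_cases hu : S.u (mnx S d) = 0
    · rw [hu, ite_self, ite_self]
    · have h1 : S.real d = true := (mnx_real' hS h.real_α h.real_A).1 (hS.ur _ hu)
      rw [mnx_v h1]

theorem Can.mir (hC : Can S w) (hS : IsStar S) (W : Wf 6 S L w) : Can (FC7.mir S) w := by
  intro g g' hg hg' hsc hu hu'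
  have h1 := mnx_real hS W.real_α W.real_A hg
  have h2 := mnx_real hS W.real_α W.real_A hg'
  have h3 : S.sc.r (mnx S g) (mnx S g') := S.sc.iseqv.trans (mnx_sc g)
    (S.sc.iseqv.trans (mr_sc.1 hsc) (S.sc.iseqv.symm (mnx_sc g')))
  have h4 := hC _ _ h1 h2 h3 hu hu'
  rw [wt_mir hS W]
  show 6 ≤ wt S w (S.M.v (S.M.α g))
  rw [mnx_v (S := S) hg] at h4
  exact h4

/-- the pattern of letters; an entry `(i, [])` means that the neighbour `i` has at least five darts -/
structure HasL (S : St D V) (L : D → Bool) (U : V → Prop) (c : List ℕ)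
    (nb : List (ℕ × List ℕ)) (x : D) : Prop where
  re : S.real x = true
  cU : U (S.M.v x)
  w : llw c (lwo S L x) = true
  nU : ∀ p ∈ nb, p.2 ≠ [] → U (S.M.v (S.M.α (S.nxr^[p.1] x)))
  nw : ∀ p ∈ nb, p.2 ≠ [] → llw p.2 (lwo S L (S.M.α (S.nxr^[p.1] x))) = true
  np : ∀ p ∈ nb, p.2 = [] → 5 ≤ S.nd (S.M.α (S.nxr^[p.1] x))

/-- the pattern of codes, up to the choice of the gaps without units here -/
structure HasC (S : St D V) (L : D → Bool) (U : V → Prop) (w0 : List ℕ)
    (nb : List (ℕ × List ℕ)) (x : D) : Prop where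
  cU : U (S.M.v x)
  w : ∃ w', chc w0 w' = true ∧ IsW S L x w'
  nU : ∀ p ∈ nb, U (S.M.v (S.M.α (S.nxr^[p.1] x)))
  nw : ∀ p ∈ nb, ∃ w', chc p.2 w' = true ∧ IsW S L (S.M.α (S.nxr^[p.1] x)) w'

/-- the pattern of letters does not occur in minimal counterexamples -/
def NoL (c : List ℕ) (nb : List (ℕ × List ℕ)) : Prop :=
  ∀ (D V : Type) [Fintype D] [DecidableEq V] (S : St D V) (L : D → Bool) (w : D → ℕ)
    (U : V → Prop), MC 6 S L w → IsStar S → Reg S U → Can S w → ∀ x, ¬ HasL S L U c nb x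

/-- the pattern of codes does not occur, for all choices of the gaps without units here -/
def NoC (w0 : List ℕ) (nb : List (ℕ × List ℕ)) : Prop :=
  ∀ (D V : Type) [Fintype D] [DecidableEq V] (S : St D V) (L : D → Bool) (w : D → ℕ)
    (U : V → Prop), MC 6 S L w → IsStar S → Reg S U → ∀ x, ¬ HasC S L U w0 nb x

/-- the same if the neighbours in `pl` do not have exactly four darts -/
def NoCp (w0 : List ℕ) (nb : List (ℕ × List ℕ)) (pl : List ℕ) : Prop :=
  ∀ (D V : Type) [Fintype D] [DecidableEq V] (S : St D V) (L : D → Bool) (w : D → ℕ)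
    (U : V → Prop), MC 6 S L w → IsStar S → Reg S U → ∀ x, HasC S L U w0 nb x →
      (∀ i ∈ pl, S.nd (S.M.α (S.nxr^[i] x)) ≠ 4) → False

theorem NoC.noCp {w0 : List ℕ} {nb : List (ℕ × List ℕ)} (h : NoC w0 nb) (pl : List ℕ) :
    NoCp w0 nb pl := fun D V _ _ S L w U hM hS hR x hx _ => h D V S L w U hM hS hR x hx

/-- the neighbours with a given word -/
def tps (nb : List (ℕ × List ℕ)) : List (ℕ × List ℕ) := nb.filter fun p => !p.2.isEmpty

/-- the neighbours with at least five darts -/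
def pls (nb : List (ℕ × List ℕ)) : List ℕ := (nb.filter fun p => p.2.isEmpty).map Prod.fst

theorem mem_tps {nb : List (ℕ × List ℕ)} {p : ℕ × List ℕ} : p ∈ tps nb ↔ p ∈ nb ∧ p.2 ≠ [] := by
  unfold tps
  rw [List.mem_filter]
  simp

theorem mem_pls {nb : List (ℕ × List ℕ)} {i : ℕ} : i ∈ pls nb ↔ (i, []) ∈ nb := by
  unfold pls
  simp only [List.mem_map, List.mem_filter, List.isEmpty_iff]
  constructor
  · rintro ⟨⟨j, w⟩, ⟨h1, rfl⟩, rfl⟩
    exact h1
  · intro h
    exact ⟨(i, []), ⟨h, rfl⟩, rfl⟩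

/-- the number of darts at a vertex of the mirror image -/
theorem mr_nd (z : D) : (FC7.mir S).nd z = S.nd (S.M.α z) := by
  unfold St.nd
  refine Finset.card_bij (fun g _ => S.M.α g) (fun g hg => ?_) (fun g _ g' _ h => ?_)
    (fun g hg => ?_)
  · have h1 := (Finset.mem_filter.1 hg).2
    exact Finset.mem_filter.2 ⟨Finset.mem_univ _, h1⟩
  · exact S.M.αinj h
  · have h1 := (Finset.mem_filter.1 hg).2
    refine ⟨S.M.α g, Finset.mem_filter.2 ⟨Finset.mem_univ _, ?_⟩, S.M.αα g⟩
    show S.M.v (S.M.α (S.M.α g)) = S.M.v (S.M.α z)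
    rw [S.M.αα]; exact h1

theorem lmw_ne {c : List ℕ} (h : c ≠ []) : lmw c ≠ [] := by
  intro h1
  have h2 := lmw_length c
  rw [h1, List.length_nil] at h2
  exact h (List.length_eq_zero_iff.1 h2.symm)

/-- the mirror image of a pattern of letters -/
theorem NoL.mir {c : List ℕ} {nb : List (ℕ × List ℕ)} (h : NoL c nb)
    (hn : (nb.all fun p => decide (p.1 < c.length)) = true) :
    NoL (lmw c) (lnb c.length nb) := by
  intro D V _ _ S L w U hM hS hR hC x hx
  have W := hM.ok.toWf
  rw [List.all_eq_true] at hn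
  have hlen : c.length = S.rdeg (S.M.v x) := by
    rw [← lmw_length c, llw_len hx.w, lwo_length]
  have hre : (FC7.mir S).real (S.M.α x) = true := by
    show S.real (S.M.α x) = true
    rw [W.real_α]; exact hx.re
  have key : ∀ p ∈ nb, (FC7.mir S).M.α ((FC7.mir S).nxr^[p.1] (S.M.α x)) =
      S.nxr^[(c.length - p.1) % c.length] x := by
    intro p hp
    have h1 : p.1 < c.length := by simpa using hn p hp
    show S.M.α ((FC7.mir S).nxr^[p.1] (S.M.α x)) = _
    rw [mnxr_rot hS W hx.re (by omega), S.M.αα, ← hlen]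
    rcases Nat.eq_zero_or_pos p.1 with h0 | h0
    · rw [h0, Nat.sub_zero, Nat.mod_self, hlen]
      exact hS.nxr_rdeg W hx.re
    · rw [Nat.mod_eq_of_lt (by omega)]
  refine h D V (FC7.mir S) L w U (hM.mir (le_refl 6) hS) (hS.mir W) (hR.mir W) (hC.mir hS W) _
    ⟨hre, ?_, ?_, fun p hp h0 => ?_, fun p hp h0 => ?_, fun p hp h0 => ?_⟩
  · show U (S.M.v (S.M.α (S.M.α x)))
    rw [S.M.αα]; exact hx.cU
  · have h1 := llw_lmw hx.w
    rw [lmw_lmw] at h1
    rw [hM.lwo_mir hS hx.re]
    exact h1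
  · rw [key p hp]
    exact hx.nU ((c.length - p.1) % c.length, lmw p.2) (List.mem_map_of_mem hp) (lmw_ne h0)
  · rw [key p hp]
    have h1 := llw_lmw (hx.nw ((c.length - p.1) % c.length, lmw p.2) (List.mem_map_of_mem hp)
      (lmw_ne h0))
    have hr : S.real (S.M.α (S.nxr^[(c.length - p.1) % c.length] x)) = true := by
      rw [W.real_α]; exact hS.nxr_iter_real W hx.re _
    have h2 := hM.lwo_mir hS hr
    rw [S.M.αα] at h2
    rw [h2]
    rw [lmw_lmw] at h1
    exact h1
  · rw [key p hp, mr_nd]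
    have h1 := hx.np ((c.length - p.1) % c.length, lmw p.2) (List.mem_map_of_mem hp) (by
      rw [show (((c.length - p.1) % c.length, lmw p.2) : ℕ × List ℕ).2 = lmw p.2 from rfl, h0]
      rfl)
    exact h1

end Pool.FC7
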