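import Pool.Agent.FC7.StE
import Pool.Agent.FC7.SyE
import Pool.Agent.FCS.Dx

/-! # The facts of the star check: packed lists, null neighbours -/

namespace Pool.FC7

/-- a fact for the star check: the pattern does not occur, the null neighbours are admissible -/
def Gf (X : FCS.Fct) : Prop := NoL X.1 X.2 ∧ okf X = true

/-- all neighbours have a word and a number below `n` -/
def nbq (n : ℕ) (nb : List (ℕ × List ℕ)) : Bool :=
  List.rec (motive := fun _ => Bool) true
    (fun p _ ih => Bool.rec (motive := fun _ => Bool) false
      (List.rec (motive := fun _ => Bool) false (fun _ _ _ => ih) p.2) (Nat.ble (Nat.succ p.1) n)) nb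

/-- `okf`, fast if there is no null neighbour -/
def okq (X : FCS.Fct) : Bool :=
  Bool.rec (motive := fun _ => Bool) (okf X) true
    (List.rec (motive := fun _ => Bool) false
      (fun _ t _ => nbq (Nat.succ (List.rec (motive := fun _ => ℕ) 0 (fun _ _ n => Nat.succ n) t)) X.2) X.1)

theorem rec_len (t : List ℕ) :
    List.rec (motive := fun _ => ℕ) 0 (fun _ _ n => Nat.succ n) t = t.length := by
  induction t with
  | nil => rfl
  | cons a t ih => rw [List.length_cons, ← ih]

theorem nbq_sound {n : ℕ} : ∀ {nb : List (ℕ × List ℕ)}, nbq n nb = true →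
    ∀ p ∈ nb, p.1 < n ∧ p.2 ≠ []
  | [], _, p, hp => absurd hp List.not_mem_nil
  | (i, w) :: nb, h, p, hp => by
    have h' : (Bool.rec (motive := fun _ => Bool) false
      (List.rec (motive := fun _ => Bool) false (fun _ _ _ => nbq n nb) w)
      (Nat.ble (Nat.succ i) n)) = true := h
    cases h1 : Nat.ble (Nat.succ i) n with
    | false => rw [h1] at h'; exact Bool.noConfusion h'
    | true =>
      rw [h1] at h'
      cases w with
      | nil => exact Bool.noConfusion h'
      | cons a w =>
        rcases List.mem_cons.1 hp with rfl | hp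
        · exact ⟨Nat.le_of_ble_eq_true h1, by simp⟩
        · exact nbq_sound (nb := nb) h' p hp

theorem okX_of {X : FCS.Fct} (h1 : X.1 ≠ []) (h : ∀ p ∈ X.2, p.1 < X.1.length ∧ p.2 ≠ []) :
    okX X = true := by
  unfold okX
  rw [Bool.and_eq_true, List.all_eq_true]
  refine ⟨by cases hc : X.1 with
    | nil => exact absurd hc h1
    | cons a t => rfl, fun p hp => ?_⟩
  obtain ⟨a, b⟩ := h p hp
  rw [Bool.and_eq_true, Bool.or_eq_true]
  refine ⟨decide_eq_true a, Or.inl ?_⟩
  cases hc : p.2 with
  | nil => exact absurd hc b
  | cons x t => rfl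

theorem okq_sound {X : FCS.Fct} (h : okq X = true) : okf X = true := by
  unfold okq at h
  cases hc : X.1 with
  | nil =>
    rw [hc] at h
    exact h
  | cons a t =>
    rw [hc] at h
    dsimp only at h
    rw [rec_len] at h
    cases hn : nbq (Nat.succ t.length) X.2 with
    | false => rw [hn] at h; exact h
    | true =>
      have h0 : X.1.length = Nat.succ t.length := by rw [hc]; rfl
      have h1 := nbq_sound hn
      unfold okf
      rw [Bool.and_eq_true]
      refine ⟨okX_of (by rw [hc]; simp) (fun p hp => by rw [h0]; exact h1 p hp),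
        okX_of ?_ fun p hp => ?_⟩
      · show lmw X.1 ≠ []
        unfold lmw
        rw [hc]
        simp
      · have hp' : p ∈ lnb X.1.length X.2 := hp
        unfold lnb at hp'
        obtain ⟨q, hq, rfl⟩ := List.mem_map.1 hp'
        have h2 := h1 q hq
        have h3 : (mirX X).1.length = X.1.length := by
          show (lmw X.1).length = _
          unfold lmw
          rw [List.length_map, List.length_reverse]
        rw [h3]
        refine ⟨Nat.mod_lt _ (by rw [h0]; exact Nat.succ_pos _), ?_⟩
        show lmw q.2 ≠ []
        unfold lmw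
        cases hq2 : q.2 with
        | nil => exact absurd hq2 h2.2
        | cons x t => simp

/-- all facts of the packed list are admissible -/
noncomputable def okN (N : ℕ) : Bool :=
  List.rec (motive := fun _ => Bool) true
    (fun X _ ih => Bool.rec (motive := fun _ => Bool) false ih (okq X)) (FCS.dF N)

theorem okN_sound {N : ℕ} (h : okN N = true) : ∀ X ∈ FCS.dF N, okf X = true := by
  unfold okN at h
  revert h
  generalize FCS.dF N = l
  induction l with
  | nil => intro _ X hX; exact absurd hX List.not_mem_nil
  | cons Y l ih =>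
    intro h X hX
    dsimp only at h
    cases hY : okq Y with
    | false => rw [hY] at h; exact Bool.noConfusion h
    | true =>
      rw [hY] at h
      rcases List.mem_cons.1 hX with rfl | hX
      · exact okq_sound hY
      · exact ih h X hX

/-- THE FACTS OF A PACKED LIST MAY BE USED IN THE STAR CHECK -/
theorem gf_of {N : ℕ} (h : ∀ X ∈ FCS.dF N, NoL X.1 X.2) (ho : okN N = true) :
    ∀ X ∈ FCS.dF N, Gf X := fun X hX => ⟨h X hX, okN_sound ho X hX⟩

end Pool.FC7
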