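import Pool.Agent.FC7.SyK

/-! # The codes of a pattern of letters -/

open Finset

set_option linter.unusedSectionVars false

namespace Pool.FC7

open Pool.FC6 Pool.FC6.St

/-- the word of the neighbour `i` (the empty word if it is not given) -/
def look (nb : List (ℕ × List ℕ)) (i : ℕ) : List ℕ :=
  match nb with
  | [] => []
  | p :: t => if p.1 = i then p.2 else look t i

/-- letters from the end -/
def lst (w : List ℕ) (k : ℕ) : ℕ := w.getD (w.length - 1 - k) 0

/-- the letter `k` from the end of the word of a neighbour, `99` if the word is not given -/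
def lkl (nb : List (ℕ × List ℕ)) (i k : ℕ) : ℕ :=
  if (look nb i).isEmpty = true then 99 else lst (look nb i) k

/-- the letter `k` of the word of a neighbour, `99` if the word is not given -/
def lkh (nb : List (ℕ × List ℕ)) (i k : ℕ) : ℕ :=
  if (look nb i).isEmpty = true then 99 else (look nb i).getD k 0

/-- the vertex has full weight -/
def fulw (c : List ℕ) : Bool := decide (6 ≤ (c.map wl).sum)

/-- the knowledge about the sector `i` of the centre -/
def ctc (c : List ℕ) (nb : List (ℕ × List ℕ)) (i : ℕ) : Ctx :=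
  ⟨fulw c, lkl nb i 0, fulw (look nb i), lkh nb ((i + 1) % c.length) 0,
    fulw (look nb ((i + 1) % c.length)), 99, true⟩

/-- the codes of the centre -/
def cdc (c : List ℕ) (nb : List (ℕ × List ℕ)) : List ℕ :=
  (List.range c.length).map fun i => cdx (c.getD i 0) (ctc c nb i)

/-- the knowledge about the sector `j` of the neighbour `i` with the word `wd`; `i'`: the neighbour
before -/
def ctm (c : List ℕ) (nb : List (ℕ × List ℕ)) (i i' : ℕ) (wd : List ℕ) (j : ℕ) : Ctx :=
  if j = 0 then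
    (if lsol (c.getD i' 0) = true then
      ⟨fulw wd, c.getD i' 0, fulw c, lkl nb i' 0, fulw (look nb i'), 99, true⟩
    else ⟨fulw wd, c.getD i' 0, fulw c, 99, true, lkl nb i' 0, fulw (look nb i')⟩)
  else if j + 1 = wd.length then
    (if lsol (c.getD i 0) = true then
      ⟨fulw wd, lkh nb ((i + 1) % c.length) 0, fulw (look nb ((i + 1) % c.length)),
        c.getD i 0, fulw c, 99, true⟩
    else ⟨fulw wd, 99, true, c.getD i 0, fulw c, lkh nb ((i + 1) % c.length) 0,
        fulw (look nb ((i + 1) % c.length))⟩)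
  else if j = 1 ∧ lsol (c.getD i' 0) = true then
    ⟨fulw wd, lkl nb i' 1, fulw (look nb i'), 99, true, 99, true⟩
  else if j + 2 = wd.length ∧ lsol (c.getD i 0) = true then
    ⟨fulw wd, 99, true, lkh nb ((i + 1) % c.length) 1, fulw (look nb ((i + 1) % c.length)),
      99, true⟩
  else ⟨fulw wd, 99, true, 99, true, 99, true⟩

/-- the codes of the neighbours with a given word -/
def cdn (c : List ℕ) (nb : List (ℕ × List ℕ)) : List (ℕ × List ℕ) :=
  (tps nb).map fun p => (p.1, (List.range p.2.length).map fun j =>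
    cdx (p.2.getD j 0) (ctm c nb p.1 ((p.1 + c.length - 1) % c.length) p.2 j))

theorem look_mem {nb : List (ℕ × List ℕ)} {i : ℕ} (h : look nb i ≠ []) : (i, look nb i) ∈ nb := by
  induction nb with
  | nil => exact absurd rfl h
  | cons p t ih =>
    unfold look at h ⊢
    by_cases h1 : p.1 = i
    · rw [if_pos h1] at h ⊢
      rw [← h1]
      exact List.mem_cons_self
    · rw [if_neg h1] at h ⊢
      exact List.mem_cons_of_mem _ (ih h)

theorem lkl_ne {nb : List (ℕ × List ℕ)} {i k : ℕ} (h : lkl nb i k ≠ 99) :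
    look nb i ≠ [] ∧ lkl nb i k = lst (look nb i) k := by
  unfold lkl at h ⊢
  by_cases h1 : (look nb i).isEmpty = true
  · rw [if_pos h1] at h
    exact absurd rfl h
  · rw [if_neg h1]
    refine ⟨fun h2 => h1 (by rw [h2]; rfl), rfl⟩

theorem lkh_ne {nb : List (ℕ × List ℕ)} {i k : ℕ} (h : lkh nb i k ≠ 99) :
    look nb i ≠ [] ∧ lkh nb i k = (look nb i).getD k 0 := by
  unfold lkh at h ⊢
  by_cases h1 : (look nb i).isEmpty = true
  · rw [if_pos h1] at h
    exact absurd rfl h
  · rw [if_neg h1]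
    refine ⟨fun h2 => h1 (by rw [h2]; rfl), rfl⟩

theorem map_wl {c t : List ℕ} (h : llw c t = true) : (c.map wl).sum = (t.map wl).sum := by
  rw [← sum_getD, ← sum_getD, ← llw_len h]
  exact Finset.sum_congr rfl fun i hi => lle_wl (llw_getD h (Finset.mem_range.1 hi))

variable {D V : Type} [Fintype D] [DecidableEq V]
  {S : St D V} {L : D → Bool} {w : D → ℕ} {U : V → Prop} {d e r x : D}

section mc

variable (h : MC 6 S L w) (hS : IsStar S) (hd : S.real d = true)

include h hS hd

/-- the weight of a word -/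
theorem MC.wt_lwo : ((lwo S L d).map wl).sum = wt S w (S.M.v d) := by
  have W := h.ok.toWf
  have hw := h.isW (le_refl 6) hS hd
  have hA := h.ok.real_A _ hd
  have hlen := word_length (S := S) (L := L) (d := d)
  have hnu : nu3 (word S L d) = true := by
    unfold nu3
    rw [List.all_eq_true]
    intro l hl
    unfold FC7.word at hl
    rw [List.mem_map] at hl
    obtain ⟨i, -, rfl⟩ := hl
    rw [decide_eq_true_eq, code_A (h.u_lt (le_refl 6) hS)]
    have := h.u_lt (le_refl 6) hS (S.nxr (S.nxr^[i] d))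
    omega
  have hdg : wt S w (S.M.v d) = dgw (word S L d) := hw.deg hS W h.w1 hnu
  rw [hdg, ← sum_getD, lwo_length]
  unfold dgw
  rw [← sum_getD, hlen]
  refine Finset.sum_congr rfl fun i hi => ?_
  have hi' := Finset.mem_range.1 hi
  have hr := hS.nxr_iter_real W hd i
  rw [h.lwo_getD hS hd hi', word_getD hi']
  exact (lett_ok (h.glt (le_refl 6) hS hr)).1

theorem MC.fulw_wt {c : List ℕ} (hc : llw c (lwo S L d) = true) (hf : fulw c = false) :
    wt S w (S.M.v d) < 6 := by
  unfold fulw at hf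
  rw [← h.wt_lwo hS hd, ← map_wl hc]
  have := of_decide_eq_false hf
  omega

/-- letters from the end -/
theorem MC.lst_eq {k : ℕ} (hk : k < 4) : ∃ r, S.real r = true ∧ S.nxr^[k + 1] r = d ∧
    lst (lwo S L d) k = lto S L r := by
  have W := h.ok.toWf
  have h4 := h.rdeg_pos hS hd
  refine ⟨S.nxr^[S.rdeg (S.M.v d) - 1 - k] d, hS.nxr_iter_real W hd _, ?_, ?_⟩
  · rw [← Function.iterate_add_apply, show k + 1 + (S.rdeg (S.M.v d) - 1 - k) =
      S.rdeg (S.M.v d) by omega]
    exact hS.nxr_rdeg W hd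
  · unfold lst
    rw [lwo_length, h.lwo_getD hS hd (by omega)]

/-- letters of a pattern from the end -/
theorem MC.llw_lst {c : List ℕ} (hc : llw c (lwo S L d) = true) {k : ℕ} (hk : k < 4) :
    ∃ r, S.real r = true ∧ S.nxr^[k + 1] r = d ∧ lle (lst c k) (lto S L r) = true := by
  obtain ⟨r, r1, r2, r3⟩ := h.lst_eq hS hd hk
  have h4 := h.rdeg_pos hS hd
  have hl := llw_len hc
  rw [lwo_length] at hl
  refine ⟨r, r1, r2, ?_⟩
  rw [← r3]
  unfold lst
  rw [← llw_len hc]
  exact llw_getD hc (by omega)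

/-- letters of a pattern -/
theorem MC.llw_at {c : List ℕ} (hc : llw c (lwo S L d) = true) {k : ℕ}
    (hk : k < S.rdeg (S.M.v d)) : lle (c.getD k 0) (lto S L (S.nxr^[k] d)) = true := by
  have hl := llw_len hc
  rw [lwo_length] at hl
  rw [← h.lwo_getD hS hd hk]
  exact llw_getD hc (by rw [hl]; exact hk)

/-- the real darts at a vertex are determined by the next one -/
theorem MC.nxr_cancel (hr : S.real r = true) (hn : S.nxr r = S.nxr d) : r = d := by
  have W := h.ok.toWf
  have v1 : S.M.v r = S.M.v d := by rw [← v_nxr (S := S) r, ← v_nxr (S := S) d, hn]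
  have a1 := hS.nxr_rdeg W hr
  have a2 := hS.nxr_rdeg W hd
  have h4 := h.rdeg_pos hS hr
  obtain ⟨m, hm⟩ : ∃ m, S.rdeg (S.M.v r) = m + 1 := ⟨S.rdeg (S.M.v r) - 1, by omega⟩
  rw [← v1] at a2
  rw [hm, Function.iterate_succ_apply] at a1 a2
  rw [hn] at a1
  exact a1.symm.trans a2

end mc

/-! ### The knowledge is correct -/

section main

variable {c : List ℕ} {nb : List (ℕ × List ℕ)} (h : MC 6 S L w) (hS : IsStar S)
  (hx : HasL S L U c nb x)

include h hS hx

theorem HasL.len : c.length = S.rdeg (S.M.v x) := by rw [llw_len hx.w, lwo_length]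

theorem HasL.hr (i : ℕ) : S.real (S.nxr^[i] x) = true := hS.nxr_iter_real h.ok.toWf hx.re i

theorem HasL.hrα (i : ℕ) : S.real (S.M.α (S.nxr^[i] x)) = true := by
  rw [h.ok.real_α]; exact hx.hr h hS i

theorem HasL.get {i : ℕ} (hi : i < c.length) :
    lle (c.getD i 0) (lto S L (S.nxr^[i] x)) = true := by
  rw [← h.lwo_getD hS hx.re (by rw [← hx.len h hS]; exact hi)]
  exact llw_getD hx.w hi

/-- the next sector -/
theorem HasL.nxt {i : ℕ} (hi : i < c.length) :
    S.nxr^[(i + 1) % c.length] x = S.nxr (S.nxr^[i] x) := by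
  rw [← Function.iterate_succ_apply' S.nxr]
  by_cases h1 : i + 1 < c.length
  · rw [Nat.mod_eq_of_lt h1]
  · have h2 : i + 1 = c.length := by omega
    rw [h2, Nat.mod_self, Nat.succ_eq_add_one, h2, hx.len h hS, hS.nxr_rdeg h.ok.toWf hx.re]
    rfl

/-- the sector before -/
theorem HasL.pre {i : ℕ} (hi : i < c.length) :
    (i + c.length - 1) % c.length < c.length ∧
      ((i + c.length - 1) % c.length + 1) % c.length = i ∧
      S.nxr (S.nxr^[(i + c.length - 1) % c.length] x) = S.nxr^[i] x := by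
  have h0 : 0 < c.length := by omega
  have h1 : (i + c.length - 1) % c.length < c.length := Nat.mod_lt _ h0
  have h2 : ((i + c.length - 1) % c.length + 1) % c.length = i := by
    rw [Nat.mod_add_mod, show i + c.length - 1 + 1 = i + c.length by omega, Nat.add_mod_right,
      Nat.mod_eq_of_lt hi]
  refine ⟨h1, h2, ?_⟩
  rw [← hx.nxt h hS h1, h2]

/-- the word of a neighbour -/
theorem HasL.look {i : ℕ} (hl : look nb i ≠ []) :
    llw (look nb i) (lwo S L (S.M.α (S.nxr^[i] x))) = true :=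
  hx.nw (i, FC7.look nb i) (look_mem hl) hl

theorem HasL.lk_full {i : ℕ} (hl : FC7.look nb i ≠ []) (hf : fulw (FC7.look nb i) = false) :
    wt S w (S.M.v (S.M.α (S.nxr^[i] x))) < 6 :=
  h.fulw_wt hS (hx.hrα h hS i) (hx.look h hS hl) hf

theorem HasL.cx_full (hf : fulw c = false) (i : ℕ) : wt S w (S.M.v (S.nxr^[i] x)) < 6 := by
  rw [v_nxr_iter]
  exact h.fulw_wt hS hx.re hx.w hf

/-- the sectors of the centre -/
theorem HasL.snd_c {i : ℕ} (hi : i < c.length) : Snd S L w (S.nxr^[i] x) (ctc c nb i) := by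
  refine ⟨fun hf => hx.cx_full h hS hf i, fun hq => ?_, fun hq => ?_, fun hq => absurd rfl hq⟩
  · obtain ⟨h1, h2⟩ := lkl_ne (show lkl nb i 0 ≠ 99 from hq)
    obtain ⟨r, r1, r2, r3⟩ := h.llw_lst hS (hx.hrα h hS i) (hx.look h hS h1) (k := 0)
      (by norm_num)
    refine ⟨r, r1, r2, ?_, fun hf => hx.lk_full h hS h1 hf⟩
    show lle (lkl nb i 0) _ = true
    rw [h2]; exact r3
  · obtain ⟨h1, h2⟩ := lkh_ne (show lkh nb ((i + 1) % c.length) 0 ≠ 99 from hq)
    have h3 := hx.hrα h hS ((i + 1) % c.length)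
    have h4 := h.rdeg_pos hS h3
    have h5 := h.llw_at hS h3 (hx.look h hS h1) (k := 0) (by omega)
    have h6 := fun hf => hx.lk_full h hS h1 hf
    rw [hx.nxt h hS hi] at h5 h6
    refine ⟨?_, h6⟩
    show lle (lkh nb ((i + 1) % c.length) 0) _ = true
    rw [h2]; exact h5

/-- the third side of a solid sector of the centre -/
theorem HasL.side {i : ℕ} (hi : i < c.length) (hs : lsol (c.getD i 0) = true) :
    ∃ r, S.real r = true ∧ S.nxr r = S.M.α (S.nxr^[i] x) ∧
      S.M.α r = S.nxr (S.M.α (S.nxr^[(i + 1) % c.length] x)) := by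
  rw [hx.nxt h hS hi]
  refine h.tri hS (hx.hr h hS i) ?_
  rw [← lle_sol (hx.get h hS hi)]
  exact hs

/-- a gap of the centre -/
theorem HasL.gapc {i : ℕ} (hi : i < c.length) (hs : ¬ lsol (c.getD i 0) = true) :
    ¬ S.real (S.M.σ (S.nxr^[i] x)) = true := by
  rw [lle_sol (hx.get h hS hi), h.lsol_iff' hS (hx.hr h hS i)] at hs
  simpa using hs

/-- the sectors of a neighbour -/
theorem HasL.snd_n {p : ℕ × List ℕ} (hp : p ∈ nb) (hp0 : p.2 ≠ []) (hi : p.1 < c.length) {j : ℕ}
    (hj : j < p.2.length) : Snd S L w (S.nxr^[j] (S.M.α (S.nxr^[p.1] x)))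
      (ctm c nb p.1 ((p.1 + c.length - 1) % c.length) p.2 j) := by
  have W := h.ok.toWf
  obtain ⟨p1, p2, p3⟩ := hx.pre h hS hi
  generalize hi' : (p.1 + c.length - 1) % c.length = i' at *
  have hw := hx.nw p hp hp0
  have hre := hx.hr h hS p.1
  have hrα := hx.hrα h hS p.1
  have hre' := hx.hr h hS i'
  have hrα' := hx.hrα h hS i'
  have hln : p.2.length = S.rdeg (S.M.v (S.M.α (S.nxr^[p.1] x))) := by
    rw [llw_len hw, lwo_length]
  have h4 := h.rdeg_pos hS hrα
  have hrj := hS.nxr_iter_real W hrα j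
  have hne : S.nxr^[i'] x ≠ S.nxr^[p.1] x := by
    rw [← p3]
    exact (h.nxr_ne (le_refl 6) hS hre').1.symm
  have fo : fulw p.2 = false → wt S w (S.M.v (S.nxr^[j] (S.M.α (S.nxr^[p.1] x)))) < 6 := by
    intro hf
    rw [v_nxr_iter]
    exact h.fulw_wt hS hrα hw hf
  have vx : S.M.v (S.M.α (S.nxr^[i'] x)) ≠ S.M.v (S.M.α (S.nxr^[p.1] x)) := fun hc =>
    hne (h.far_inj hS hre (by rw [v_nxr_iter, v_nxr_iter]) hc)
  unfold ctm
  by_cases j0 : j = 0
  · -- the first sector
    rw [if_pos j0]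
    subst j0
    have hb : ∀ K : Ctx, K.qb = c.getD i' 0 → K.fb = fulw c → K.qb ≠ 99 →
        ∃ r, S.real r = true ∧ S.nxr r = S.M.α (S.nxr^[0] (S.M.α (S.nxr^[p.1] x))) ∧
          lle K.qb (lto S L r) = true ∧
          (K.fb = false → wt S w (S.M.v (S.M.α (S.nxr^[0] (S.M.α (S.nxr^[p.1] x))))) < 6) := by
      intro K h1 h2 _
      refine ⟨S.nxr^[i'] x, hre', ?_, by rw [h1]; exact hx.get h hS p1, fun hf => ?_⟩
      · show _ = S.M.α (S.M.α (S.nxr^[p.1] x))
        rw [S.M.αα]; exact p3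
      · show wt S w (S.M.v (S.M.α (S.M.α (S.nxr^[p.1] x)))) < 6
        rw [S.M.αα]
        exact hx.cx_full h hS (by rw [← h2]; exact hf) p.1
    by_cases hs : lsol (c.getD i' 0) = true
    · rw [if_pos hs]
      obtain ⟨r, r1, r2, r3⟩ := hx.side h hS p1 hs
      rw [p2] at r3
      refine ⟨fo, hb _ rfl rfl, fun hq => ?_, fun hq => absurd rfl hq⟩
      obtain ⟨q1, q2⟩ := lkl_ne (show lkl nb i' 0 ≠ 99 from hq)
      obtain ⟨r0, s1, s2, s3⟩ := h.llw_lst hS hrα' (hx.look h hS q1) (k := 0) (by norm_num)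
      have e1 : r0 = r := h.nxr_cancel hS r1 s1 (by rw [r2]; exact s2)
      have e2 : S.M.α (S.nxr (S.nxr^[0] (S.M.α (S.nxr^[p.1] x)))) = r := by
        show S.M.α (S.nxr (S.M.α (S.nxr^[p.1] x))) = r
        rw [← r3, S.M.αα]
      rw [e2]
      refine ⟨?_, fun hf => ?_⟩
      · show lle (lkl nb i' 0) _ = true
        rw [q2, ← e1]; exact s3
      · have h5 := hx.lk_full h hS q1 hf
        rwa [← r2, v_nxr] at h5
    · rw [if_neg hs]
      refine ⟨fo, hb _ rfl rfl, fun hq => absurd rfl hq, fun hq => ?_⟩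
      obtain ⟨q1, q2⟩ := lkl_ne (show lkl nb i' 0 ≠ 99 from hq)
      obtain ⟨r0, s1, s2, s3⟩ := h.llw_lst hS hrα' (hx.look h hS q1) (k := 0) (by norm_num)
      have s2' : S.nxr r0 = S.M.α (S.nxr^[i'] x) := s2
      have hgap := hx.gapc h hS p1 hs
      have hsh := (St.shared (S := nou S) hS.nou W.nou hrα hre' (by
        show S.nxr (S.nxr^[i'] x) = S.M.α (S.M.α (S.nxr^[p.1] x))
        rw [S.M.αα]; exact p3)).1
      have hsh' : S.real (S.M.σ (S.nxr^[i'] x)) = S.real (S.M.σ (S.M.α (S.nxr^[p.1] x))) := hsh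
      refine ⟨fun hc => hgap (by rw [hsh']; exact hc), Or.inr rfl, r0, s1, ?_, fun hc => ?_,
        fun _ hc => ?_, fun hc => absurd rfl hc, ?_, fun hf => ?_⟩
      · have a1 := sc_nxr (S := S) (S.M.α (S.nxr^[p.1] x))
        rw [S.M.αα] at a1
        have a2 := sc_nxr (S := S) (S.nxr^[i'] x)
        rw [p3] at a2
        rw [s2']
        exact S.sc.iseqv.trans (S.sc.iseqv.symm a1) (S.sc.iseqv.symm a2)
      · have h5 : S.nxr r0 = S.nxr (S.M.α (S.nxr^[p.1] x)) := hc
        have := congrArg S.M.v h5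
        rw [s2', v_nxr] at this
        exact vx this
      · have h5 : S.nxr r0 = S.M.α (S.M.α (S.nxr^[p.1] x)) := hc
        rw [s2', S.M.αα] at h5
        have := congrArg S.M.v h5
        rw [v_nxr_iter] at this
        exact W.real_ne _ hre' (by rw [v_nxr_iter]; exact this.symm)
      · show lle (lkl nb i' 0) _ = true
        rw [q2]; exact s3
      · have h5 := hx.lk_full h hS q1 hf
        rwa [← s2', v_nxr] at h5
  rw [if_neg j0]
  have hlast : ∀ r, S.real r = true → S.nxr r = S.M.α (S.nxr^[p.1] x) → j + 1 = p.2.length →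
      S.nxr^[j] (S.M.α (S.nxr^[p.1] x)) = r := by
    intro r hr hn hj1
    refine h.nxr_cancel hS hr hrj ?_
    rw [← Function.iterate_succ_apply' S.nxr, Nat.succ_eq_add_one, hj1, hln, hn]
    exact hS.nxr_rdeg W hrα
  have hnx := hx.nxt h hS hi
  by_cases j1 : j + 1 = p.2.length
  · -- the last sector
    rw [if_pos j1]
    have hend : S.nxr (S.nxr^[j] (S.M.α (S.nxr^[p.1] x))) = S.M.α (S.nxr^[p.1] x) := by
      rw [← Function.iterate_succ_apply' S.nxr, Nat.succ_eq_add_one, j1, hln]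
      exact hS.nxr_rdeg W hrα
    generalize hd : S.nxr^[j] (S.M.α (S.nxr^[p.1] x)) = d at *
    have hcc : ∀ K : Ctx, K.qc = c.getD p.1 0 → K.fc = fulw c → K.qc ≠ 99 →
        lle K.qc (lto S L (S.M.α (S.nxr d))) = true ∧
          (K.fc = false → wt S w (S.M.v (S.M.α (S.nxr d))) < 6) := by
      intro K h1 h2 _
      rw [hend, S.M.αα, h1, h2]
      exact ⟨hx.get h hS hi, fun hf => hx.cx_full h hS hf p.1⟩
    have hg1 := hx.hrα h hS ((p.1 + 1) % c.length)
    have h41 := h.rdeg_pos hS hg1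
    by_cases hs : lsol (c.getD p.1 0) = true
    · rw [if_pos hs]
      obtain ⟨r, r1, r2, r3⟩ := hx.side h hS hi hs
      have e1 : d = r := hlast r r1 r2 j1
      refine ⟨fo, fun hq => ?_, hcc _ rfl rfl, fun hq => absurd rfl hq⟩
      obtain ⟨q1, q2⟩ := lkh_ne (show lkh nb ((p.1 + 1) % c.length) 0 ≠ 99 from hq)
      refine ⟨S.M.α (S.nxr^[(p.1 + 1) % c.length] x), hg1, by rw [e1]; exact r3.symm, ?_,
        fun hf => ?_⟩
      · show lle (lkh nb ((p.1 + 1) % c.length) 0) _ = true
        rw [q2]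
        exact h.llw_at hS hg1 (hx.look h hS q1) (k := 0) (by omega)
      · rw [e1, r3, v_nxr]
        exact hx.lk_full h hS q1 hf
    · rw [if_neg hs]
      refine ⟨fo, fun hq => absurd rfl hq, hcc _ rfl rfl, fun hq => ?_⟩
      obtain ⟨q1, q2⟩ := lkh_ne (show lkh nb ((p.1 + 1) % c.length) 0 ≠ 99 from hq)
      have hgap := hx.gapc h hS hi hs
      have hsh : S.real (S.M.σ d) = S.real (S.M.σ (S.nxr^[p.1] x)) :=
        (St.shared (S := nou S) hS.nou W.nou hre hrj hend).1
      have hne1 : S.nxr^[(p.1 + 1) % c.length] x ≠ S.nxr^[p.1] x := by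
        rw [hnx]
        exact (h.nxr_ne (le_refl 6) hS hre).1
      have hr1 := hx.hr h hS ((p.1 + 1) % c.length)
      refine ⟨fun hc => hgap (by rw [← hsh]; exact hc), Or.inl rfl,
        S.M.α (S.nxr^[(p.1 + 1) % c.length] x), hg1, ?_, fun hc => ?_, fun hc => absurd rfl hc,
        fun _ hc => ?_, ?_, fun hf => ?_⟩
      · rw [hend]
        have a1 := sc_nxr (S := S) (S.nxr^[p.1] x)
        rw [← hnx] at a1
        have a2 := sc_nxr (S := S) (S.M.α (S.nxr^[(p.1 + 1) % c.length] x))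
        rw [S.M.αα] at a2
        exact S.sc.iseqv.trans a1 a2
      · rw [hend] at hc
        have := congrArg S.M.v hc
        rw [v_nxr] at this
        exact hne1 (h.far_inj hS hre (by rw [v_nxr_iter, v_nxr_iter]) this)
      · rw [hend, S.M.αα] at hc
        have := congrArg S.M.v hc
        rw [v_nxr, v_nxr, v_nxr_iter] at this
        exact W.real_ne _ hr1 (by rw [v_nxr_iter]; exact this.symm)
      · show lle (lkh nb ((p.1 + 1) % c.length) 0) _ = true
        rw [q2]
        exact h.llw_at hS hg1 (hx.look h hS q1) (k := 0) (by omega)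
      · exact hx.lk_full h hS q1 hf
  rw [if_neg j1]
  by_cases j2 : j = 1 ∧ lsol (c.getD i' 0) = true
  · -- the second sector
    rw [if_pos j2]
    obtain ⟨rfl, hs⟩ := j2
    obtain ⟨r, r1, r2, r3⟩ := hx.side h hS p1 hs
    rw [p2] at r3
    refine ⟨fo, fun hq => ?_, fun hq => absurd rfl hq, fun hq => absurd rfl hq⟩
    obtain ⟨q1, q2⟩ := lkl_ne (show lkl nb i' 1 ≠ 99 from hq)
    obtain ⟨r0, s1, s2, s3⟩ := h.llw_lst hS hrα' (hx.look h hS q1) (k := 1) (by norm_num)
    have s2' : S.nxr (S.nxr r0) = S.M.α (S.nxr^[i'] x) := s2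
    have e1 : S.nxr r0 = r := h.nxr_cancel hS r1 (hS.nxr_real W s1) (by rw [r2]; exact s2')
    have e2 : S.M.α (S.nxr^[1] (S.M.α (S.nxr^[p.1] x))) = r := by
      show S.M.α (S.nxr (S.M.α (S.nxr^[p.1] x))) = r
      rw [← r3, S.M.αα]
    refine ⟨r0, s1, by rw [e2]; exact e1, ?_, fun hf => ?_⟩
    · show lle (lkl nb i' 1) _ = true
      rw [q2]; exact s3
    · have h5 := hx.lk_full h hS q1 hf
      rw [e2]
      rwa [← r2, v_nxr] at h5
  rw [if_neg j2]
  by_cases j3 : j + 2 = p.2.length ∧ lsol (c.getD p.1 0) = true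
  · -- the last but one sector
    rw [if_pos j3]
    obtain ⟨j3, hs⟩ := j3
    obtain ⟨r, r1, r2, r3⟩ := hx.side h hS hi hs
    refine ⟨fo, fun hq => absurd rfl hq, fun hq => ?_, fun hq => absurd rfl hq⟩
    obtain ⟨q1, q2⟩ := lkh_ne (show lkh nb ((p.1 + 1) % c.length) 1 ≠ 99 from hq)
    have hg1 := hx.hrα h hS ((p.1 + 1) % c.length)
    have h41 := h.rdeg_pos hS hg1
    have e1 : S.nxr (S.nxr^[j] (S.M.α (S.nxr^[p.1] x))) = r := by
      refine h.nxr_cancel hS r1 (hS.nxr_real W hrj) ?_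
      rw [← Function.iterate_succ_apply' S.nxr, ← Function.iterate_succ_apply' S.nxr,
        show j.succ.succ = p.2.length by omega, hln, r2]
      exact hS.nxr_rdeg W hrα
    rw [e1, r3]
    refine ⟨?_, fun hf => ?_⟩
    · show lle (lkh nb ((p.1 + 1) % c.length) 1) _ = true
      rw [q2]
      exact h.llw_at hS hg1 (hx.look h hS q1) (k := 1) (by omega)
    · rw [v_nxr]
      exact hx.lk_full h hS q1 hf
  rw [if_neg j3]
  exact ⟨fo, fun hq => absurd rfl hq, fun hq => absurd rfl hq, fun hq => absurd rfl hq⟩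

end main

/-- FROM CODES TO LETTERS -/
theorem NoG.toL {c : List ℕ} {nb : List (ℕ × List ℕ)} (h : NoG (cdc c nb) (cdn c nb) (pls nb))
    (hn : (nb.all fun p => decide (p.1 < c.length)) = true) : NoL c nb := by
  intro D V _ _ S L w U hM hS hR hC x hx
  rw [List.all_eq_true] at hn
  refine h D V S L w U hM hS hR hC x ⟨hx.cU, ?_, fun p hp => ?_, fun p hp => ?_,
    fun i hi => hx.np (i, []) (mem_pls.1 hi) rfl⟩
  · exact hM.isW_cdx hS hx.re hC hx.w fun i hi => hx.snd_c hM hS (by
      rw [hx.len hM hS]; exact hi)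
  · unfold cdn at hp
    rw [List.mem_map] at hp
    obtain ⟨q, hq, rfl⟩ := hp
    obtain ⟨q1, q2⟩ := mem_tps.1 hq
    exact hx.nU q q1 q2
  · unfold cdn at hp
    rw [List.mem_map] at hp
    obtain ⟨q, hq, rfl⟩ := hp
    obtain ⟨q1, q2⟩ := mem_tps.1 hq
    have hw := hx.nw q q1 q2
    have hqi : q.1 < c.length := by simpa using hn q q1
    exact hM.isW_cdx hS (hx.hrα hM hS q.1) hC hw fun j hj => hx.snd_n hM hS q1 q2 hqi (by
      rw [llw_len hw, lwo_length]; exact hj)

/-- from codes to letters, no unknown faces -/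
theorem NoCp.toL {c : List ℕ} {nb : List (ℕ × List ℕ)} (h : NoCp (cdc c nb) (cdn c nb) (pls nb))
    (hn : (nb.all fun p => decide (p.1 < c.length)) = true)
    (hg : (FC7.noG (cdc c nb) && (cdn c nb).all fun p => FC7.noG p.2) = true) : NoL c nb :=
  (h.noG hg).toL hn

/-- from codes to letters, no unknown faces -/
theorem NoC.toL {c : List ℕ} {nb : List (ℕ × List ℕ)} (h : NoC (cdc c nb) (cdn c nb))
    (hn : (nb.all fun p => decide (p.1 < c.length)) = true)
    (hg : (FC7.noG (cdc c nb) && (cdn c nb).all fun p => FC7.noG p.2) = true) : NoL c nb :=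
  (h.noCp _).toL hn hg

/-- a fact in words of codes without optional gaps -/
theorem NoP.toL {c : List ℕ} {nb : List (ℕ × List ℕ)} (h : NoP 6 (cdc c nb) (cdn c nb))
    (hn : (nb.all fun p => decide (p.1 < c.length)) = true)
    (ho : (noO (cdc c nb) && (cdn c nb).all fun p => noO p.2) = true)
    (hg : (FC7.noG (cdc c nb) && (cdn c nb).all fun p => FC7.noG p.2) = true) : NoL c nb :=
  (h.noC ho).toL hn hg

end Pool.FC7
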