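import Pool.Agent.FC7.KfC
import Pool.Agent.FC7.SyG

/-! # The codes of a pattern of letters, for the kernel

The functions of this file are equal to the functions without `K`; the kernel evaluates them
faster. -/

set_option linter.unusedSectionVars false

namespace Pool.FC7

open Pool.FC6

namespace K

/-! ### Tables -/

theorem shr_zero {T n i : ℕ} (hT : T < 2 ^ n) (hi : n ≤ i) : Nat.shiftRight T i = 0 := by
  show T >>> i = 0
  rw [Nat.shiftRight_eq_div_pow]
  exact Nat.div_eq_of_lt (lt_of_lt_of_le hT (Nat.pow_le_pow_right (by norm_num) hi))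

theorem tbit_zero {T n i : ℕ} (hT : T < 2 ^ n) (hi : n ≤ i) : tbit T i = false := by
  unfold tbit
  rw [shr_zero hT hi]
  rfl

/-- entries of two bits -/
def t2 (T i : ℕ) : ℕ := Nat.land (Nat.shiftRight T (Nat.mul (nat_lit 2) i)) (nat_lit 3)

theorem t2_zero {T n i : ℕ} (hT : T < 2 ^ n) (hi : n ≤ 2 * i) : t2 T i = 0 := by
  unfold t2
  rw [show Nat.mul 2 i = 2 * i from rfl, shr_zero hT hi]
  rfl

noncomputable def wl (l : ℕ) : ℕ :=
  Nat.add (nat_lit 1) (t2 (nat_lit 1326570077523489396452508752) l)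

noncomputable def lown (l : ℕ) : ℕ := t2 (nat_lit 1249198825067871654294585424) l

noncomputable def lsol (l : ℕ) : Bool := tbit (nat_lit 30064900405) l

noncomputable def n2l (l : ℕ) : Bool := tbit (nat_lit 15393196212426) l

noncomputable def is3 (l : ℕ) : Bool := tbit (nat_lit 2199030202376) l

noncomputable def is2 (l : ℕ) : Bool := tbit (nat_lit 52776658798080) l

noncomputable def cod (l : ℕ) : ℕ :=
  Nat.land (Nat.shiftRight (nat_lit 380585729608258169232845049119944005523796597194979704586023608590971622503808439065080498654853684512465998483025843762433341626617948440076531356496292701919429579230115839914107771457843114322099752732867267598745600)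
    (Nat.mul (nat_lit 16) l)) (nat_lit 65535)

theorem wl_eq : wl = FC7.wl := by
  funext l
  by_cases h : l < 46
  · interval_cases l <;> decide +kernel
  · unfold wl FC7.wl
    rw [t2_zero (n := 92) (by norm_num) (by omega), if_neg (by omega), if_neg (by omega)]

theorem lown_eq : lown = FC7.lown := by
  funext l
  by_cases h : l < 46
  · interval_cases l <;> decide +kernel
  · unfold lown FC7.lown
    rw [t2_zero (n := 92) (by norm_num) (by omega), if_neg (by omega), if_neg (by omega)]

theorem lsol_eq : lsol = FC7.lsol := by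
  funext l
  by_cases h : l < 46
  · interval_cases l <;> decide +kernel
  · unfold lsol FC7.lsol
    rw [tbit_zero (n := 46) (by norm_num) (by omega)]
    simp only [show l ≠ 0 by omega, show l ≠ 2 by omega, show l ≠ 4 by omega,
      show l ≠ 5 by omega, show l ≠ 8 by omega, show ¬ l ≤ 16 by omega, show ¬ l ≤ 34 by omega]
    simp

theorem n2l_eq : n2l = FC7.n2l := by
  funext l
  by_cases h : l < 46
  · interval_cases l <;> decide +kernel
  · unfold n2l FC7.n2l
    rw [tbit_zero (n := 46) (by norm_num) (by omega)]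
    simp only [show l ≠ 1 by omega, show l ≠ 3 by omega, show l ≠ 6 by omega,
      show l ≠ 7 by omega, show l ≠ 17 by omega, show l ≠ 18 by omega, show l ≠ 19 by omega,
      show l ≠ 20 by omega, show l ≠ 21 by omega, show l ≠ 22 by omega, show l ≠ 23 by omega,
      show l ≠ 24 by omega, show l ≠ 41 by omega, show l ≠ 42 by omega, show l ≠ 43 by omega]
    simp

theorem is3_eq : is3 = FC7.is3 := by
  funext l
  by_cases h : l < 46
  · interval_cases l <;> decide +kernel
  · unfold is3 FC7.is3
    rw [tbit_zero (n := 46) (by norm_num) (by omega)]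
    simp only [show l ≠ 3 by omega, show l ≠ 17 by omega, show l ≠ 19 by omega,
      show l ≠ 21 by omega, show l ≠ 22 by omega, show l ≠ 41 by omega]
    simp

theorem is2_eq : is2 = FC7.is2 := by
  funext l
  by_cases h : l < 46
  · interval_cases l <;> decide +kernel
  · unfold is2 FC7.is2
    rw [tbit_zero (n := 46) (by norm_num) (by omega)]
    simp only [show l ≠ 9 by omega, show l ≠ 10 by omega, show l ≠ 25 by omega,
      show l ≠ 26 by omega, show l ≠ 44 by omega, show l ≠ 45 by omega]
    simp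

theorem cod_eq : cod = FC7.cod := by
  funext l
  by_cases h : l < 46
  · interval_cases l <;> decide +kernel
  · unfold cod FC7.cod
    rw [show Nat.mul 16 l = 16 * l from rfl, shr_zero (n := 736) (by decide +kernel) (by omega)]
    simp only [show l ≠ 1 by omega, show l ≠ 2 by omega, show l ≠ 3 by omega, show l ≠ 5 by omega,
      show l ≠ 6 by omega, show l ≠ 7 by omega, show l ≠ 8 by omega, show l ≠ 9 by omega,
      show l ≠ 10 by omega, show l ≠ 11 by omega, show l ≠ 12 by omega, show l ≠ 13 by omega,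
      show l ≠ 14 by omega, show l ≠ 15 by omega, show l ≠ 16 by omega, show l ≠ 17 by omega,
      show l ≠ 18 by omega, show l ≠ 19 by omega, show l ≠ 20 by omega, show l ≠ 21 by omega,
      show l ≠ 22 by omega, show l ≠ 23 by omega, show l ≠ 24 by omega, show l ≠ 25 by omega,
      show l ≠ 26 by omega, show l ≠ 41 by omega, show l ≠ 42 by omega, show l ≠ 43 by omega,
      show l ≠ 44 by omega, show l ≠ 45 by omega, if_false]
    rfl

/-! ### Codes of sectors -/

noncomputable def cgp (g : ℕ) (c2 c3 nt : Bool) : ℕ :=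
  Bool.rec (motive := fun _ => ℕ)
    (Bool.rec (motive := fun _ => ℕ)
      (Bool.rec (motive := fun _ => ℕ) (cod g)
        (Nat.add (Bool.rec (motive := fun _ => ℕ) (Bool.rec (motive := fun _ => ℕ) (nat_lit 65)
          (nat_lit 73) (bor c3 nt)) (nat_lit 69) c2) (Nat.mul (nat_lit 16) (Nat.sub g (nat_lit 38))))
        (tbit (nat_lit 1924145348608) g))
      (Nat.add (Bool.rec (motive := fun _ => ℕ) (Bool.rec (motive := fun _ => ℕ)
        (Bool.rec (motive := fun _ => ℕ) (nat_lit 64) (nat_lit 76) nt) (nat_lit 72) c3)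
        (nat_lit 68) c2) (Nat.mul (nat_lit 16) (Nat.sub g (nat_lit 35))))
      (tbit (nat_lit 240518168576) g))
    (Bool.rec (motive := fun _ => ℕ) (cod g) (Nat.sub (cod g) (nat_lit 4)) c3)
    (tbit (nat_lit 1310722) g)

theorem cgp_eq : cgp = FC7.cgp := by
  funext g c2 c3 nt
  unfold cgp FC7.cgp
  rw [cod_eq, bor_eq]
  by_cases h : g < 46
  · interval_cases g <;> cases c2 <;> cases c3 <;> cases nt <;> decide +kernel
  · rw [tbit_zero (n := 46) (by norm_num) (by omega), tbit_zero (n := 46) (by norm_num) (by omega),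
      tbit_zero (n := 46) (by norm_num) (by omega), if_neg (by omega), if_neg (by omega),
      if_neg (by omega)]

/-- the code of a triangle with `u` units at this corner, `a`, `b` at the others -/
def mk3 (u a b : ℕ) : ℕ :=
  Nat.add (Nat.add u (Nat.mul (nat_lit 4) a)) (Nat.mul (nat_lit 16) b)

theorem mk3_eq (u a b : ℕ) : mk3 u a b = mkl u a b 0 false false := by
  unfold mkl
  show u + 4 * a + 16 * b = _
  simp

noncomputable def cds (g : ℕ) (fo : Bool) (qb qc : ℕ) : ℕ :=
  Bool.rec (motive := fun _ => ℕ)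
    (Bool.rec (motive := fun _ => ℕ)
      (Bool.rec (motive := fun _ => ℕ) (cod g)
        (Bool.rec (motive := fun _ => ℕ)
          (mk3 (nat_lit 2) (lown qb) (Nat.sub (nat_lit 1) (lown qb)))
          (Bool.rec (motive := fun _ => ℕ)
            (mk3 (nat_lit 2) (Nat.sub (nat_lit 1) (lown qc)) (lown qc)) (nat_lit 1086)
            (Nat.beq qc (nat_lit 99)))
          (Nat.beq qb (nat_lit 99)))
        (Nat.beq g (nat_lit 34)))
      (Bool.rec (motive := fun _ => ℕ)
        (mk3 (nat_lit 1) (lown qb) (Nat.sub (nat_lit 2) (lown qb)))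
        (Bool.rec (motive := fun _ => ℕ)
          (mk3 (nat_lit 1) (Nat.sub (nat_lit 2) (lown qc)) (lown qc)) (nat_lit 1085)
          (Nat.beq qc (nat_lit 99)))
        (Nat.beq qb (nat_lit 99)))
      (Nat.beq g (nat_lit 33)))
    (Bool.rec (motive := fun _ => ℕ)
      (Bool.rec (motive := fun _ => ℕ)
        (Bool.rec (motive := fun _ => ℕ)
          (Bool.rec (motive := fun _ => ℕ)
            (mk3 (nat_lit 0) (lown qb) (Nat.sub (nat_lit 3) (lown qb))) (nat_lit 0)
            (Nat.beq (lown qb) (nat_lit 0)))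
          (Bool.rec (motive := fun _ => ℕ)
            (mk3 (nat_lit 0) (Nat.sub (nat_lit 3) (lown qc)) (lown qc)) (nat_lit 0)
            (Nat.beq (lown qc) (nat_lit 0)))
          (Nat.beq qb (nat_lit 99)))
        (nat_lit 512) (bor (Nat.beq qb (nat_lit 5)) (Nat.beq qc (nat_lit 4))))
      (Bool.rec (motive := fun _ => ℕ) (nat_lit 0) (nat_lit 6204) fo)
      (band (Nat.beq qb (nat_lit 99)) (Nat.beq qc (nat_lit 99))))
    (Nat.beq g (nat_lit 32))

theorem cds_eq : cds = FC7.cds := by
  funext g fo qb qc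
  unfold cds FC7.cds
  simp only [nbeq_eq, bif_b, band_eq, bor_eq, mk3_eq, lown_eq, cod_eq,
    Bool.and_eq_true, Bool.or_eq_true, decide_eq_true_eq]
  have e1 : ∀ a b : ℕ, Nat.sub a b = a - b := fun _ _ => rfl
  simp only [e1]
  by_cases h32 : g = 32
  · rw [if_pos h32, if_pos h32]
  · rw [if_neg h32, if_neg h32]
    by_cases h33 : g = 33
    · rw [if_pos h33, if_pos h33]
      by_cases hb : qb = 99 <;> by_cases hc : qc = 99 <;> simp [hb, hc]
    · rw [if_neg h33, if_neg h33]
      by_cases h34 : g = 34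
      · rw [if_pos h34, if_pos h34]
        by_cases hb : qb = 99 <;> by_cases hc : qc = 99 <;> simp [hb, hc]
      · rw [if_neg h34, if_neg h34]

/-- the code of a gap -/
noncomputable def cdg (g : ℕ) (fo : Bool) (qb : ℕ) (fb : Bool) (qc : ℕ) (fc : Bool) (qe : ℕ)
    (fe : Bool) : ℕ :=
  cgp g (bor (bor (bor (is2 g) (is2 qb)) (is2 qc)) (is2 qe))
    (bor (bor (bor (bor (bor (is3 g) (is3 qb)) (is3 qc)) (is3 qe))
      (Nat.ble (nat_lit 3) (Nat.add (Nat.add (Nat.add (lown g) (lown qb)) (lown qc)) (lown qe))))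
      (band (Nat.ble (nat_lit 1) (Nat.add (Nat.add (Nat.add (lown g) (lown qb)) (lown qc))
        (lown qe)))
        (bor (bor (bor (bor (bor (bor (bor (bnot fo) (n2l g)) (band (bnot (Nat.beq qb (nat_lit 99)))
          (bnot fb))) (n2l qb)) (band (bnot (Nat.beq qc (nat_lit 99))) (bnot fc))) (n2l qc))
          (band (bnot (Nat.beq qe (nat_lit 99))) (bnot fe))) (n2l qe))))
    (bor (bor (bor (bor (bor (bor (bor (bnot fo) (n2l g)) (band (bnot (Nat.beq qb (nat_lit 99)))
      (bnot fb))) (n2l qb)) (band (bnot (Nat.beq qc (nat_lit 99))) (bnot fc))) (n2l qc))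
      (band (bnot (Nat.beq qe (nat_lit 99))) (bnot fe))) (n2l qe))

noncomputable def cdx (g : ℕ) (fo : Bool) (qb : ℕ) (fb : Bool) (qc : ℕ) (fc : Bool) (qe : ℕ)
    (fe : Bool) : ℕ :=
  Bool.rec (motive := fun _ => ℕ)
    (Bool.rec (motive := fun _ => ℕ) (cod g) (cdg g fo qb fb qc fc qe fe)
      (tbit (nat_lit 2164664827906) g))
    (cds g fo qb qc) (lsol g)

theorem cdx_eq (g : ℕ) (fo : Bool) (qb : ℕ) (fb : Bool) (qc : ℕ) (fc : Bool) (qe : ℕ) (fe : Bool) :
    cdx g fo qb fb qc fc qe fe = FC7.cdx g ⟨fo, qb, fb, qc, fc, qe, fe⟩ := by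
  unfold cdx FC7.cdx
  rw [bif_b, lsol_eq, cds_eq]
  by_cases h : FC7.lsol g = true
  · rw [if_pos h, if_pos h]
  · rw [if_neg h, if_neg h, bif_b]
    by_cases h2 : tbit 2164664827906 g = true
    · rw [if_pos h2]
      unfold cdg Ctx.c2 Ctx.c3 Ctx.nt Ctx.sum
      simp only [cgp_eq, bor_eq, band_eq, bnot_eq, is2_eq, is3_eq, n2l_eq, lown_eq, nbeq_eq,
        nble_eq, decide_not]
      rfl
    · rw [if_neg h2]
      unfold FC7.cgp
      have h1 : ¬ (g = 1 ∨ g = 18 ∨ g = 20) := by
        rintro (rfl | rfl | rfl) <;> exact h2 (by decide +kernel)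
      have h3 : ¬ (g = 35 ∨ g = 36 ∨ g = 37) := by
        rintro (rfl | rfl | rfl) <;> exact h2 (by decide +kernel)
      have h4 : ¬ (g = 38 ∨ g = 39 ∨ g = 40) := by
        rintro (rfl | rfl | rfl) <;> exact h2 (by decide +kernel)
      rw [if_neg h1, if_neg h3, if_neg h4, cod_eq]

end K

end Pool.FC7
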