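import Pool.Agent.FC7.GrA

/-! # Many patterns with the same record -/

set_option linter.unusedSectionVars false

namespace Pool.FC7

open Pool.FC6

namespace K

noncomputable def look (nb : List (ℕ × List ℕ)) (i : ℕ) : List ℕ :=
  List.rec (motive := fun _ => List ℕ) []
    (fun p _ ih => Bool.rec (motive := fun _ => List ℕ) ih (Prod.snd p) (Nat.beq (Prod.fst p) i)) nb

noncomputable def wsum (c : List ℕ) : ℕ :=
  List.rec (motive := fun _ => ℕ) (nat_lit 0) (fun a _ ih => Nat.add (wl a) ih) c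

noncomputable def fulw (c : List ℕ) : Bool := Nat.ble (nat_lit 6) (wsum c)

/-- the last letter -/
noncomputable def ll0 (w : List ℕ) : ℕ :=
  Bool.rec (motive := fun _ => ℕ) (lgetD w (Nat.sub (llen w) (nat_lit 1)) (nat_lit 0)) (nat_lit 99)
    (lemp w)

/-- the last letter but one -/
noncomputable def ll1 (w : List ℕ) : ℕ :=
  Bool.rec (motive := fun _ => ℕ) (lgetD w (Nat.sub (llen w) (nat_lit 2)) (nat_lit 0)) (nat_lit 99)
    (lemp w)

noncomputable def lh0 (w : List ℕ) : ℕ :=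
  Bool.rec (motive := fun _ => ℕ) (lgetD w (nat_lit 0) (nat_lit 0)) (nat_lit 99) (lemp w)

noncomputable def lh1 (w : List ℕ) : ℕ :=
  Bool.rec (motive := fun _ => ℕ) (lgetD w (nat_lit 1) (nat_lit 0)) (nat_lit 99) (lemp w)

/-- the code of the sector `i` of the centre -/
noncomputable def cc (f : Bool) (n : ℕ) (nb : List (ℕ × List ℕ)) (i g : ℕ) : ℕ :=
  cdx g f (ll0 (look nb i)) (fulw (look nb i)) (lh0 (look nb (Nat.mod (Nat.succ i) n)))
    (fulw (look nb (Nat.mod (Nat.succ i) n))) (nat_lit 99) true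

noncomputable def cdc (c : List ℕ) (nb : List (ℕ × List ℕ)) : List ℕ :=
  lmapi (cc (fulw c) (llen c) nb) c

/-- the code of the sector `j` of a neighbour with the word `wd`; `a`, `b`: the letters of the centre
before and after the neighbour, `u`, `v`: the words of the neighbours before and after -/
noncomputable def cn (f : Bool) (a b : ℕ) (u v wd : List ℕ) (j g : ℕ) : ℕ :=
  Bool.rec (motive := fun _ => ℕ)
    (Bool.rec (motive := fun _ => ℕ)
      (Bool.rec (motive := fun _ => ℕ)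
        (Bool.rec (motive := fun _ => ℕ)
          (cdx g (fulw wd) (nat_lit 99) true (nat_lit 99) true (nat_lit 99) true)
          (cdx g (fulw wd) (nat_lit 99) true (lh1 v) (fulw v) (nat_lit 99) true)
          (band (Nat.beq (Nat.succ (Nat.succ j)) (llen wd)) (lsol b)))
        (cdx g (fulw wd) (ll1 u) (fulw u) (nat_lit 99) true (nat_lit 99) true)
        (band (Nat.beq j (nat_lit 1)) (lsol a)))
      (Bool.rec (motive := fun _ => ℕ)
        (cdx g (fulw wd) (nat_lit 99) true b f (lh0 v) (fulw v))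
        (cdx g (fulw wd) (lh0 v) (fulw v) b f (nat_lit 99) true) (lsol b))
      (Nat.beq (Nat.succ j) (llen wd)))
    (Bool.rec (motive := fun _ => ℕ)
      (cdx g (fulw wd) a f (nat_lit 99) true (ll0 u) (fulw u))
      (cdx g (fulw wd) a f (ll0 u) (fulw u) (nat_lit 99) true) (lsol a))
    (Nat.beq j (nat_lit 0))

noncomputable def cdn (c : List ℕ) (nb : List (ℕ × List ℕ)) : List (ℕ × List ℕ) :=
  lmap (fun p => Prod.mk (Prod.fst p)
    (lmapi (cn (fulw c)
      (lgetD c (Nat.mod (Nat.sub (Nat.add (Prod.fst p) (llen c)) (nat_lit 1)) (llen c)) (nat_lit 0))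
      (lgetD c (Prod.fst p) (nat_lit 0))
      (look nb (Nat.mod (Nat.sub (Nat.add (Prod.fst p) (llen c)) (nat_lit 1)) (llen c)))
      (look nb (Nat.mod (Nat.succ (Prod.fst p)) (llen c))) (Prod.snd p)) (Prod.snd p)))
    (lfilter (fun p => bnot (lemp (Prod.snd p))) nb)

noncomputable def pls (nb : List (ℕ × List ℕ)) : List ℕ :=
  lmap Prod.fst (lfilter (fun p => lemp (Prod.snd p)) nb)

/-! ### Equalities -/

theorem look_eq : look = FC7.look := by
  funext nb i
  induction nb with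
  | nil => rfl
  | cons p t ih =>
    have h : look (p :: t) i = Bool.rec (motive := fun _ => List ℕ) (look t i) (Prod.snd p)
      (Nat.beq (Prod.fst p) i) := rfl
    rw [h, nbeq_eq, bif_dec, ih]
    rfl

theorem wsum_eq (c : List ℕ) : wsum c = (c.map FC7.wl).sum := by
  induction c with
  | nil => rfl
  | cons a t ih =>
    rw [List.map_cons, List.sum_cons, ← ih, ← wl_eq]
    rfl

theorem fulw_eq : fulw = FC7.fulw := by
  funext c
  unfold fulw FC7.fulw
  rw [nble_eq, wsum_eq]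

theorem ll0_eq (nb : List (ℕ × List ℕ)) (i : ℕ) : ll0 (FC7.look nb i) = FC7.lkl nb i 0 := by
  unfold ll0 FC7.lkl FC7.lst
  rw [bif_b, lemp_eq, lgetD_eq, llen_eq]
  rfl

theorem ll1_eq (nb : List (ℕ × List ℕ)) (i : ℕ) : ll1 (FC7.look nb i) = FC7.lkl nb i 1 := by
  unfold ll1 FC7.lkl FC7.lst
  rw [bif_b, lemp_eq, lgetD_eq, llen_eq]
  rfl

theorem lh0_eq (nb : List (ℕ × List ℕ)) (i : ℕ) : lh0 (FC7.look nb i) = FC7.lkh nb i 0 := by
  unfold lh0 FC7.lkh
  rw [bif_b, lemp_eq, lgetD_eq]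

theorem lh1_eq (nb : List (ℕ × List ℕ)) (i : ℕ) : lh1 (FC7.look nb i) = FC7.lkh nb i 1 := by
  unfold lh1 FC7.lkh
  rw [bif_b, lemp_eq, lgetD_eq]

theorem mapi_getD {α : Type} (f : ℕ → ℕ → α) (c : List ℕ) :
    c.mapIdx f = (List.range c.length).map fun i => f i (c.getD i 0) := by
  refine List.ext_getElem (by simp) fun i h1 h2 => ?_
  have h3 : i < c.length := by simpa using h1
  rw [List.getElem_mapIdx, List.getElem_map, List.getElem_range, List.getD_eq_getElem c 0 h3]

theorem cdc_eq : cdc = FC7.cdc := by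
  funext c nb
  unfold cdc FC7.cdc
  rw [lmapi_eq, mapi_getD]
  refine List.map_congr_left fun i _ => ?_
  unfold cc ctc
  rw [cdx_eq, look_eq, fulw_eq, ll0_eq, lh0_eq, llen_eq]
  rfl

theorem cn_eq (c : List ℕ) (nb : List (ℕ × List ℕ)) (i i' : ℕ) (wd : List ℕ) (j g : ℕ) :
    cn (FC7.fulw c) (c.getD i' 0) (c.getD i 0) (FC7.look nb i') (FC7.look nb ((i + 1) % c.length)) wd
      j g = FC7.cdx g (ctm c nb i i' wd j) := by
  unfold cn ctm
  simp only [cdx_eq, bif_b, band_eq, nbeq_eq, fulw_eq, ll0_eq, ll1_eq, lh0_eq, lh1_eq, llen_eq,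
    lsol_eq, Bool.and_eq_true, decide_eq_true_eq, Nat.succ_eq_add_one]
  split_ifs <;> rfl

theorem pls_eq : pls = FC7.pls := by
  funext nb
  unfold pls FC7.pls
  rw [lmap_eq, lfilter_eq]
  simp only [lemp_eq]

theorem cdn_eq : cdn = FC7.cdn := by
  funext c nb
  unfold cdn FC7.cdn tps
  rw [lmap_eq, lfilter_eq]
  simp only [lemp_eq, bnot_eq, llen_eq]
  refine List.map_congr_left fun p _ => ?_
  congr 1
  rw [lmapi_eq, mapi_getD]
  refine List.map_congr_left fun j _ => ?_
  rw [lgetD_eq, lgetD_eq, look_eq, fulw_eq]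
  exact cn_eq c nb p.1 ((p.1 + c.length - 1) % c.length) p.2 j _

/-! ### Groups -/

noncomputable def psn (n : ℕ) (nb : List (ℕ × List ℕ)) : Bool :=
  lall nb fun p => Nat.ble (Nat.succ (Prod.fst p)) n

/-- the pattern is a pattern of the record -/
noncomputable def keyG (W : WG) (X : List ℕ × List (ℕ × List ℕ)) : Bool :=
  band (WG_chkCp W (cdc (Prod.fst X) (Prod.snd X)) (cdn (Prod.fst X) (Prod.snd X))
    (pls (Prod.snd X))) (psn (llen (Prod.fst X)) (Prod.snd X))

/-- the pattern is a pattern of the record -/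
noncomputable def keyS (W : WS) (X : List ℕ × List (ℕ × List ℕ)) : Bool :=
  band (WS_chkCp W (cdc (Prod.fst X) (Prod.snd X)) (cdn (Prod.fst X) (Prod.snd X))
    (pls (Prod.snd X))) (psn (llen (Prod.fst X)) (Prod.snd X))

theorem psn_eq (n : ℕ) (nb : List (ℕ × List ℕ)) :
    psn n nb = nb.all fun p => decide (p.1 < n) := by
  unfold psn
  rw [lall_eq]
  simp only [nble_eq, Nat.succ_le_iff]

/-- MANY PATTERNS WITH THE SAME RECORD -/
theorem grpG {W : WG} (hG : K.WG_chkOp W 6 = true) (hE : W.F.One)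
    {l : List (List ℕ × List (ℕ × List ℕ))} (h : K.lall l (keyG W) = true) :
    ∀ X ∈ l, NoL X.1 X.2 := by
  intro X hX
  rw [lall_eq, List.all_eq_true] at h
  have h1 := h X hX
  unfold keyG at h1
  rw [band_eq, Bool.and_eq_true, cdc_eq, cdn_eq, pls_eq, psn_eq, llen_eq] at h1
  exact NoG.toL (K.WG_noG hG hE h1.1) h1.2

/-- MANY PATTERNS WITH THE SAME RECORD -/
theorem grpS {W : WS} (hG : K.WS_chkG W = true) (hE : W.F.One)
    {l : List (List ℕ × List (ℕ × List ℕ))} (h : K.lall l (keyS W) = true) :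
    ∀ X ∈ l, NoL X.1 X.2 := by
  intro X hX
  rw [lall_eq, List.all_eq_true] at h
  have h1 := h X hX
  unfold keyS at h1
  rw [band_eq, Bool.and_eq_true, cdc_eq, cdn_eq, pls_eq, psn_eq, llen_eq] at h1
  exact NoG.toL (K.WS_noG hG hE h1.1) h1.2

end K

end Pool.FC7
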