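import Pool.Agent.FC7.FtD

/-! # Static checks for the kernel: basic functions

The functions of this file are equal to functions of the library or of the files `FC6`, `FC7`; the
kernel evaluates them faster (recursors, no instances). -/

set_option linter.unusedSectionVars false

namespace Pool.FC7

open Pool.FC6

namespace K

noncomputable def band (a b : Bool) : Bool := Bool.rec (motive := fun _ => Bool) false b a

noncomputable def bor (a b : Bool) : Bool := Bool.rec (motive := fun _ => Bool) b true a

noncomputable def bnot (a : Bool) : Bool := Bool.rec (motive := fun _ => Bool) true false a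

noncomputable def beqB (a b : Bool) : Bool :=
  Bool.rec (motive := fun _ => Bool) (Bool.rec (motive := fun _ => Bool) true false b) b a

def tbit (m i : ℕ) : Bool := Nat.beq (Nat.land (Nat.shiftRight m i) (nat_lit 1)) (nat_lit 1)

def tb (T i : ℕ) : ℕ := Nat.land (Nat.shiftRight T (Nat.mul (nat_lit 8) i)) (nat_lit 255)

def tw (T i : ℕ) : ℕ :=
  Nat.land (Nat.shiftRight T (Nat.mul (nat_lit 64) i)) (nat_lit 18446744073709551615)

noncomputable def kmax (a b : ℕ) : ℕ := Bool.rec (motive := fun _ => ℕ) a b (Nat.ble a b)

noncomputable def kmin (a b : ℕ) : ℕ := Bool.rec (motive := fun _ => ℕ) b a (Nat.ble a b)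

noncomputable def lall {α : Type} (l : List α) (p : α → Bool) : Bool :=
  List.rec (motive := fun _ => Bool) true
    (fun a _ ih => Bool.rec (motive := fun _ => Bool) false ih (p a)) l

noncomputable def lany {α : Type} (l : List α) (p : α → Bool) : Bool :=
  List.rec (motive := fun _ => Bool) false
    (fun a _ ih => Bool.rec (motive := fun _ => Bool) ih true (p a)) l

noncomputable def lmap {α β : Type} (f : α → β) (l : List α) : List β :=
  List.rec (motive := fun _ => List β) [] (fun a _ ih => f a :: ih) l

noncomputable def lfilter {α : Type} (p : α → Bool) (l : List α) : List α :=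
  List.rec (motive := fun _ => List α) []
    (fun a _ ih => Bool.rec (motive := fun _ => List α) ih (a :: ih) (p a)) l

noncomputable def llen {α : Type} (l : List α) : ℕ :=
  List.rec (motive := fun _ => ℕ) (nat_lit 0) (fun _ _ ih => Nat.succ ih) l

noncomputable def lemp {α : Type} (l : List α) : Bool :=
  List.rec (motive := fun _ => Bool) true (fun _ _ _ => false) l

noncomputable def lsum (l : List ℕ) : ℕ :=
  List.rec (motive := fun _ => ℕ) (nat_lit 0) (fun a _ ih => Nat.add a ih) l

noncomputable def lgetD {α : Type} (l : List α) (i : ℕ) (d : α) : α :=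
  List.rec (motive := fun _ => ℕ → α) (fun _ => d)
    (fun a _ ih n => Nat.rec (motive := fun _ => α) a (fun m _ => ih m) n) l i

noncomputable def lmem (a : ℕ) (l : List ℕ) : Bool :=
  List.rec (motive := fun _ => Bool) false
    (fun b _ ih => Bool.rec (motive := fun _ => Bool) ih true (Nat.beq a b)) l

noncomputable def nodup (l : List ℕ) : Bool :=
  List.rec (motive := fun _ => Bool) true
    (fun a t ih => Bool.rec (motive := fun _ => Bool) ih false (lmem a t)) l

noncomputable def lrange (n : ℕ) : List ℕ :=
  Nat.rec (motive := fun _ => List ℕ → List ℕ) (fun acc => acc) (fun k ih acc => ih (k :: acc)) n []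

noncomputable def lapp {α : Type} (l r : List α) : List α :=
  List.rec (motive := fun _ => List α) r (fun a _ ih => a :: ih) l

noncomputable def lflat {α : Type} (l : List (List α)) : List α :=
  List.rec (motive := fun _ => List α) [] (fun a _ ih => lapp a ih) l

noncomputable def lfmap {α β : Type} (f : α → List β) (l : List α) : List β :=
  List.rec (motive := fun _ => List β) [] (fun a _ ih => lapp (f a) ih) l

noncomputable def ltake {α : Type} (n : ℕ) (l : List α) : List α :=
  List.rec (motive := fun _ => ℕ → List α) (fun _ => [])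
    (fun a _ ih n => Nat.rec (motive := fun _ => List α) [] (fun m _ => a :: ih m) n) l n

noncomputable def lfoldl {α β : Type} (f : β → α → β) (b : β) (l : List α) : β :=
  List.rec (motive := fun _ => β → β) (fun b => b) (fun a _ ih b => ih (f b a)) l b

/-- equality of lists -/
noncomputable def leqG {α : Type} (e : α → α → Bool) (l r : List α) : Bool :=
  List.rec (motive := fun _ => List α → Bool)
    (fun r => List.rec (motive := fun _ => Bool) true (fun _ _ _ => false) r)
    (fun a _ ih r => List.rec (motive := fun _ => Bool) false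
      (fun b t _ => Bool.rec (motive := fun _ => Bool) false (ih t) (e a b)) r) l r

noncomputable def leq (l r : List ℕ) : Bool := leqG Nat.beq l r

noncomputable def lrev {α : Type} (l : List α) : List α :=
  List.rec (motive := fun _ => List α → List α) (fun acc => acc) (fun a _ ih acc => ih (a :: acc)) l []

noncomputable def lmapi {α β : Type} (f : ℕ → α → β) (l : List α) : List β :=
  List.rec (motive := fun _ => ℕ → List β) (fun _ => []) (fun a _ ih i => f i a :: ih (Nat.succ i)) l
    (nat_lit 0)

/-! ### Equalities -/

theorem nbeq_eq (a b : ℕ) : Nat.beq a b = decide (a = b) := by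
  by_cases h : a = b
  · rw [decide_eq_true h, h]; exact Nat.beq_refl b
  · rw [decide_eq_false h]
    cases h2 : Nat.beq a b
    · rfl
    · exact absurd (Nat.eq_of_beq_eq_true h2) h

theorem nble_eq (a b : ℕ) : Nat.ble a b = decide (a ≤ b) := by
  by_cases h : a ≤ b
  · rw [decide_eq_true h]; exact Nat.ble_eq_true_of_le h
  · rw [decide_eq_false h]
    cases h2 : Nat.ble a b
    · rfl
    · exact absurd (Nat.le_of_ble_eq_true h2) h

theorem band_eq : band = and := by funext a b; cases a <;> rfl

theorem bor_eq : bor = or := by funext a b; cases a <;> rfl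

theorem bnot_eq : bnot = not := by funext a; cases a <;> rfl

theorem beqB_eq (a b : Bool) : beqB a b = decide (a = b) := by cases a <;> cases b <;> rfl

theorem tbit_eq : tbit = Nat.testBit := by
  funext m i
  have h : m.testBit i = decide ((m >>> i) % 2 = 1) := by
    rw [Nat.testBit_eq_decide_div_mod_eq, Nat.shiftRight_eq_div_pow]
  rw [h]
  unfold tbit
  rw [nbeq_eq]
  have h2 : Nat.land (Nat.shiftRight m i) 1 = (m >>> i) % 2 := Nat.and_one_is_mod (m >>> i)
  rw [h2]

theorem tb_eq : tb = FC6.tb := by
  funext T i
  have h2 : Nat.land (Nat.shiftRight T (Nat.mul 8 i)) 255 = (T >>> (8 * i)) % 256 :=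
    Nat.and_two_pow_sub_one_eq_mod (T >>> (8 * i)) 8
  exact h2

theorem kmax_eq (a b : ℕ) : kmax a b = max a b := by
  unfold kmax
  rw [nble_eq]
  by_cases h : a ≤ b
  · rw [decide_eq_true h, max_eq_right h]
  · rw [decide_eq_false h, max_eq_left (by omega)]

theorem kmin_eq (a b : ℕ) : kmin a b = min a b := by
  unfold kmin
  rw [nble_eq]
  by_cases h : a ≤ b
  · rw [decide_eq_true h, min_eq_left h]
  · rw [decide_eq_false h, min_eq_right (by omega)]

theorem bif_dec {α : Type} (p : Prop) [Decidable p] (x y : α) :
    (Bool.rec (motive := fun _ => α) y x (decide p)) = if p then x else y := by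
  by_cases h : p
  · rw [decide_eq_true h, if_pos h]
  · rw [decide_eq_false h, if_neg h]

theorem bif_b {α : Type} (b : Bool) (x y : α) :
    (Bool.rec (motive := fun _ => α) y x b) = if b = true then x else y := by
  cases b <;> rfl

theorem lall_eq {α : Type} (l : List α) (p : α → Bool) : lall l p = l.all p := by
  induction l with
  | nil => rfl
  | cons a l ih =>
    rw [List.all_cons, ← ih]
    show Bool.rec (motive := fun _ => Bool) false (lall l p) (p a) = _
    cases p a <;> rfl

theorem lany_eq {α : Type} (l : List α) (p : α → Bool) : lany l p = l.any p := by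
  induction l with
  | nil => rfl
  | cons a l ih =>
    rw [List.any_cons, ← ih]
    show Bool.rec (motive := fun _ => Bool) (lany l p) true (p a) = _
    cases p a <;> rfl

theorem lmap_eq {α β : Type} (f : α → β) (l : List α) : lmap f l = l.map f := by
  induction l with
  | nil => rfl
  | cons a l ih => rw [List.map_cons, ← ih]; rfl

theorem lfilter_eq {α : Type} (p : α → Bool) (l : List α) : lfilter p l = l.filter p := by
  induction l with
  | nil => rfl
  | cons a l ih =>
    rw [List.filter_cons, ← ih]
    show Bool.rec (motive := fun _ => List α) (lfilter p l) (a :: lfilter p l) (p a) = _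
    cases p a <;> rfl

theorem llen_eq {α : Type} (l : List α) : llen l = l.length := by
  induction l with
  | nil => rfl
  | cons a l ih =>
    rw [List.length_cons, ← ih]; rfl

theorem lemp_eq {α : Type} (l : List α) : lemp l = l.isEmpty := by cases l <;> rfl

theorem lsum_eq (l : List ℕ) : lsum l = l.sum := by
  induction l with
  | nil => rfl
  | cons a l ih => rw [List.sum_cons, ← ih]; rfl

theorem lgetD_eq {α : Type} (l : List α) (i : ℕ) (d : α) : lgetD l i d = l.getD i d := by
  induction l generalizing i with
  | nil => cases i <;> rfl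
  | cons a l ih =>
    cases i with
    | zero => rfl
    | succ i => rw [List.getD_cons_succ, ← ih]; rfl

theorem lmem_eq (a : ℕ) (l : List ℕ) : lmem a l = decide (a ∈ l) := by
  induction l with
  | nil => simp [lmem]
  | cons b l ih =>
    have h : lmem a (b :: l) = Bool.rec (motive := fun _ => Bool) (lmem a l) true (Nat.beq a b) := rfl
    rw [h, nbeq_eq, ih, bif_dec]
    by_cases h1 : a = b
    · rw [if_pos h1]; simp [h1]
    · rw [if_neg h1]; simp [h1]

theorem contains_eq (a : ℕ) (l : List ℕ) : l.contains a = decide (a ∈ l) := by
  rw [Bool.eq_iff_iff, List.contains_iff_mem, decide_eq_true_eq]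

theorem nodup_eq (l : List ℕ) : nodup l = decide l.Nodup := by
  induction l with
  | nil => simp [nodup]
  | cons a l ih =>
    have h : nodup (a :: l) = Bool.rec (motive := fun _ => Bool) (nodup l) false (lmem a l) := rfl
    rw [h, lmem_eq, ih, bif_dec]
    by_cases h1 : a ∈ l
    · rw [if_pos h1]; simp [h1]
    · rw [if_neg h1]; simp [h1]

theorem lrange_eq (n : ℕ) : lrange n = List.range n := by
  have key : ∀ acc : List ℕ, Nat.rec (motive := fun _ => List ℕ → List ℕ) (fun acc => acc)
      (fun k ih acc => ih (k :: acc)) n acc = List.range n ++ acc := by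
    induction n with
    | zero => intro acc; rfl
    | succ n ih =>
      intro acc
      rw [List.range_succ, List.append_assoc]
      exact ih (n :: acc)
  have h := key []
  rw [List.append_nil] at h
  exact h

theorem lapp_eq {α : Type} (l r : List α) : lapp l r = l ++ r := by
  induction l with
  | nil => rfl
  | cons a l ih => rw [List.cons_append, ← ih]; rfl

theorem lflat_eq {α : Type} (l : List (List α)) : lflat l = l.flatten := by
  induction l with
  | nil => rfl
  | cons a l ih => rw [List.flatten_cons, ← ih, ← lapp_eq]; rfl

theorem lfmap_eq {α β : Type} (f : α → List β) (l : List α) : lfmap f l = l.flatMap f := by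
  induction l with
  | nil => rfl
  | cons a l ih => rw [List.flatMap_cons, ← ih, ← lapp_eq]; rfl

theorem ltake_eq {α : Type} (n : ℕ) (l : List α) : ltake n l = l.take n := by
  induction l generalizing n with
  | nil => cases n <;> rfl
  | cons a l ih =>
    cases n with
    | zero => rfl
    | succ n => rw [List.take_succ_cons, ← ih]; rfl

theorem lfoldl_eq {α β : Type} (f : β → α → β) (b : β) (l : List α) :
    lfoldl f b l = l.foldl f b := by
  induction l generalizing b with
  | nil => rfl
  | cons a l ih => rw [List.foldl_cons, ← ih]; rfl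

theorem leqG_eq {α : Type} [DecidableEq α] {e : α → α → Bool} (he : ∀ a b, e a b = decide (a = b))
    (l r : List α) : leqG e l r = decide (l = r) := by
  induction l generalizing r with
  | nil =>
    cases r with
    | nil => simp [leqG]
    | cons b t => simp [leqG]
  | cons a l ih =>
    cases r with
    | nil => simp [leqG]
    | cons b t =>
      have h : leqG e (a :: l) (b :: t) =
        Bool.rec (motive := fun _ => Bool) false (leqG e l t) (e a b) := rfl
      rw [h, he, bif_dec, ih]
      by_cases h1 : a = b
      · rw [if_pos h1]; simp [h1]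
      · rw [if_neg h1]; simp [h1]

theorem leq_eq (l r : List ℕ) : leq l r = decide (l = r) := leqG_eq nbeq_eq l r

theorem lrev_eq {α : Type} (l : List α) : lrev l = l.reverse := by
  have key : ∀ (l acc : List α), List.rec (motive := fun _ => List α → List α) (fun acc => acc)
      (fun a _ ih acc => ih (a :: acc)) l acc = l.reverse ++ acc := by
    intro l
    induction l with
    | nil => intro acc; rfl
    | cons a l ih =>
      intro acc
      rw [List.reverse_cons, List.append_assoc]
      exact ih (a :: acc)
  have h := key l []
  rw [List.append_nil] at h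
  exact h

theorem lmapi_eq {α β : Type} (f : ℕ → α → β) (l : List α) : lmapi f l = l.mapIdx f := by
  have key : ∀ (l : List α) (i : ℕ), List.rec (motive := fun _ => ℕ → List β) (fun _ => [])
      (fun a _ ih i => f i a :: ih (Nat.succ i)) l i = l.mapIdx fun j => f (i + j) := by
    intro l
    induction l with
    | nil => intro i; rfl
    | cons a l ih =>
      intro i
      rw [List.mapIdx_cons]
      have h := ih (Nat.succ i)
      have e : ∀ j, Nat.succ i + j = i + (j + 1) := fun j => by omega
      simp only [e] at h
      exact congrArg (List.cons (f i a)) h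
  have h := key l 0
  simp only [Nat.zero_add] at h
  exact h

/-! ### The recursive functions of `FC6`, `FC7` -/

noncomputable def allN (n : ℕ) (p : ℕ → Bool) : Bool :=
  Nat.rec (motive := fun _ => Bool) true
    (fun k ih => Bool.rec (motive := fun _ => Bool) false ih (p k)) n

theorem allN_eq : allN = FC6.allN := by
  funext n p
  induction n with
  | zero => rfl
  | succ n ih =>
    rw [FC6.allN, ← ih]
    show Bool.rec (motive := fun _ => Bool) false (allN n p) (p n) = _
    cases p n <;> rfl

noncomputable def sumN (n : ℕ) (F : ℕ → ℕ) : ℕ :=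
  Nat.rec (motive := fun _ => ℕ) (nat_lit 0) (fun k ih => Nat.add ih (F k)) n

theorem sumN_eq : sumN = FC6.sumN := by
  funext n p
  induction n with
  | zero => rfl
  | succ n ih => rw [FC6.sumN, ← ih]; rfl

noncomputable def flags (l : List ℕ) : List Bool :=
  List.rec (motive := fun _ => List Bool) []
    (fun a _ ih => Bool.rec (motive := fun _ => List Bool) (true :: false :: ih) (true :: ih)
      (Nat.beq a (nat_lit 0))) l

theorem flags_eq : flags = FC6.flags := by
  funext l
  induction l with
  | nil => rfl
  | cons a l ih =>
    rw [FC6.flags, ← ih]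
    show Bool.rec (motive := fun _ => List Bool) (true :: false :: flags l) (true :: flags l)
      (Nat.beq a 0) = _
    rw [nbeq_eq, bif_dec]

noncomputable def kin (l : List ℕ) : List ℕ :=
  List.rec (motive := fun _ => List ℕ) []
    (fun a _ ih => Bool.rec (motive := fun _ => List ℕ) ((nat_lit 0) :: a :: ih) ((nat_lit 0) :: ih)
      (Nat.beq a (nat_lit 0))) l

theorem kin_eq : kin = FC6.kin := by
  funext l
  induction l with
  | nil => rfl
  | cons a l ih =>
    rw [FC6.kin, ← ih]
    show Bool.rec (motive := fun _ => List ℕ) (0 :: a :: kin l) (0 :: kin l) (Nat.beq a 0) = _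
    rw [nbeq_eq, bif_dec]

noncomputable def Ks (q w : ℕ) : ℕ :=
  Nat.rec (motive := fun _ => ℕ) (nat_lit 0)
    (fun _ ih => Nat.add (nat_lit 1) (Nat.mul (Nat.pow (nat_lit 2) q) ih)) w

theorem Ks_eq : Ks = FC7.Ks := by
  funext q w
  induction w with
  | zero => rfl
  | succ n ih => rw [FC7.Ks, ← ih]; rfl

noncomputable def Is (q w : ℕ) : ℕ :=
  Nat.rec (motive := fun _ => ℕ) (nat_lit 0)
    (fun w ih => Nat.lor ih (Nat.pow (nat_lit 2) (Nat.add (Nat.mul q w) w))) w

theorem Is_eq : Is = FC7.Is := by
  funext q w
  induction w with
  | zero => rfl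
  | succ n ih => rw [FC7.Is, ← ih]; rfl

noncomputable def Fs (q w : ℕ) : ℕ :=
  Nat.rec (motive := fun _ => ℕ) (nat_lit 0)
    (fun _ ih => Nat.add (Nat.sub (Nat.pow (nat_lit 2) (Nat.sub q (nat_lit 1))) (nat_lit 1))
      (Nat.mul (Nat.pow (nat_lit 2) q) ih)) w

theorem Fs_eq : Fs = FC7.Fs := by
  funext q w
  induction w with
  | zero => rfl
  | succ n ih => rw [FC7.Fs, ← ih]; rfl

noncomputable def Tb (q : ℕ) (l : List ℕ) : ℕ :=
  List.rec (motive := fun _ => ℕ) (nat_lit 0)
    (fun m _ ih => Nat.add m (Nat.mul (Nat.pow (nat_lit 2) q) ih)) l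

theorem Tb_eq : Tb = FC7.Tb := by
  funext q l
  induction l with
  | nil => rfl
  | cons a l ih => rw [FC7.Tb, ← ih]; rfl

noncomputable def nd (m : ℕ) (l : List ℕ) : Bool :=
  List.rec (motive := fun _ => ℕ → Bool) (fun _ => true)
    (fun i _ ih m => Bool.rec (motive := fun _ => Bool) (ih (Nat.lor m (Nat.pow (nat_lit 2) i))) false
      (tbit m i)) l m

theorem nd_eq : nd = FC7.nd := by
  funext m l
  induction l generalizing m with
  | nil => rfl
  | cons a l ih =>
    rw [FC7.nd, ← ih]
    show Bool.rec (motive := fun _ => Bool) (nd (Nat.lor m (Nat.pow 2 a)) l) false (tbit m a) = _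
    rw [tbit_eq]
    cases m.testBit a <;> rfl

noncomputable def mg (e : ℕ) (l : List ℕ) : List ℕ :=
  List.rec (motive := fun _ => ℕ → List ℕ) (fun e => [e])
    (fun m _ ih e => Bool.rec (motive := fun _ => List ℕ) (ih (Nat.lor e m)) (m :: ih e)
      (Nat.beq (Nat.land m e) (nat_lit 0))) l e

theorem mg_eq : mg = FC6.mg := by
  funext e l
  induction l generalizing e with
  | nil => rfl
  | cons m l ih =>
    rw [FC6.mg, ← ih, ← ih]
    show Bool.rec (motive := fun _ => List ℕ) (mg (Nat.lor e m) l) (m :: mg e l)
      (Nat.beq (Nat.land m e) 0) = _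
    rw [nbeq_eq, bif_dec]
    rfl

noncomputable def CD_lvc (P P' : Pa) (l : List (List ℕ)) (a : ℕ) : Bool :=
  List.rec (motive := fun _ => ℕ → Bool) (fun _ => true)
    (fun l _ ih a => band (lall l fun i => band (band (band (Nat.ble (Nat.succ i) P.n) (P'.real i))
      (Nat.ble (P'.l i) a)) (Nat.ble (P'.l (P'.φ i)) a)) (ih (Nat.succ a))) l a

theorem CD_lvc_eq : CD_lvc = CD.lvc := by
  funext P P' l a
  induction l generalizing a with
  | nil => rfl
  | cons m l ih =>
    rw [CD.lvc, ← ih]
    show band (lall m fun i => band (band (band (Nat.ble (Nat.succ i) P.n) (P'.real i))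
      (Nat.ble (P'.l i) a)) (Nat.ble (P'.l (P'.φ i)) a)) (CD_lvc P P' l (Nat.succ a)) = _
    simp only [band_eq, lall_eq, nble_eq]
    rfl

end K

end Pool.FC7
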