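import Pool.Agent.FC7.KfA

/-! # Static checks for the kernel: the checks

Every function `K.X` is equal to the function `X` (theorem `K.X_eq`). -/

set_option linter.unusedSectionVars false

namespace Pool.FC7

open Pool.FC6

namespace K

noncomputable def Pa_good (P : FC6.Pa) : Bool :=
  (K.allN (FC6.Pa.n P) (fun (i : ℕ) => (K.band (K.band (K.band (K.band (K.band (Nat.ble (Nat.succ
    (FC6.Pa.φ P i)) (FC6.Pa.n P)) (Nat.ble (Nat.succ (FC6.Pa.α P i)) (FC6.Pa.n P))) (Nat.beq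
    (FC6.Pa.φ P (FC6.Pa.φ P (FC6.Pa.φ P i))) i)) (K.bnot (Nat.beq (FC6.Pa.φ P i) i))) (Nat.beq
    (FC6.Pa.α P (FC6.Pa.α P i)) i)) (K.bor (Nat.beq (FC6.Pa.α P i) i) (Nat.beq (FC6.Pa.l P (FC6.Pa.φ
    P i)) (FC6.Pa.l P (FC6.Pa.α P i)))))))

theorem Pa_good_eq : @K.Pa_good = @FC6.Pa.good := by
  funext P
  simp only [K.Pa_good, FC6.Pa.good, K.band_eq, K.bor_eq, K.bnot_eq, K.beqB_eq, K.tbit_eq,
    K.kmax_eq, K.kmin_eq, K.nbeq_eq, K.nble_eq, K.bif_b, K.lall_eq, K.lany_eq, K.lmap_eq,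
    K.lfilter_eq, K.llen_eq, K.lemp_eq, K.lsum_eq, K.lgetD_eq, K.lmem_eq, K.contains_eq, K.nodup_eq,
    K.lrange_eq, K.lapp_eq, K.lflat_eq, K.lfmap_eq, K.ltake_eq, K.lfoldl_eq, K.leq_eq,
    decide_eq_true_eq, ne_eq, decide_not, Bool.decide_and, Bool.decide_or, Bool.decide_eq_true,
    Bool.decide_eq_false, Nat.succ_eq_add_one, Bool.beq_eq_decide_eq, bne, Bool.not_eq_true',
    Bool.or_eq_true, Bool.and_eq_true, K.allN_eq] <;> rfl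

noncomputable def Sp_step (Q : FC6.Sp) (k : ℕ) (j : ℕ) (k' : ℕ) (j' : ℕ) : Bool :=
  (K.bor (K.bor (K.bor (K.band (Nat.beq k' k) (Nat.beq j' j)) (K.band (K.band (K.band (Nat.beq k
    (nat_lit 1)) (Nat.beq k' (nat_lit 0))) (K.bnot (Nat.beq (FC6.Sp.π Q j) j))) (Nat.beq j'
    (FC6.Sp.π Q j)))) (K.band (K.band (K.band (Nat.beq k (nat_lit 2)) (Nat.beq k' (nat_lit 0)))
    (K.bnot (Nat.beq (FC6.Sp.π Q j) j))) (Nat.beq j' (FC6.Sp.ρ Q (FC6.Sp.π Q j))))) (K.band (K.band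
    (K.band (Nat.beq k (nat_lit 2)) (Nat.beq k' (nat_lit 1))) (K.bnot (Nat.beq (FC6.Sp.π Q
    (FC6.Sp.ρi Q j)) (FC6.Sp.ρi Q j)))) (Nat.beq j' (FC6.Sp.ρi Q (FC6.Sp.π Q (FC6.Sp.ρi Q j))))))

theorem Sp_step_eq : @K.Sp_step = @FC6.Sp.step := by
  funext Q k j k' j'
  simp only [K.Sp_step, FC6.Sp.step, K.band_eq, K.bor_eq, K.bnot_eq, K.beqB_eq, K.tbit_eq,
    K.kmax_eq, K.kmin_eq, K.nbeq_eq, K.nble_eq, K.bif_b, K.lall_eq, K.lany_eq, K.lmap_eq,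
    K.lfilter_eq, K.llen_eq, K.lemp_eq, K.lsum_eq, K.lgetD_eq, K.lmem_eq, K.contains_eq, K.nodup_eq,
    K.lrange_eq, K.lapp_eq, K.lflat_eq, K.lfmap_eq, K.ltake_eq, K.lfoldl_eq, K.leq_eq,
    decide_eq_true_eq, ne_eq, decide_not, Bool.decide_and, Bool.decide_or, Bool.decide_eq_true,
    Bool.decide_eq_false, Nat.succ_eq_add_one, Bool.beq_eq_decide_eq, bne, Bool.not_eq_true',
    Bool.or_eq_true, Bool.and_eq_true] <;> rfl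

noncomputable def Sp_same (Q : FC6.Sp) (k : ℕ) (j : ℕ) (k' : ℕ) (j' : ℕ) : Bool :=
  (K.bor (K.Sp_step Q k j k' j') (K.band (K.band (Nat.beq k (nat_lit 2)) (K.bnot (Nat.beq (FC6.Sp.π
    Q (FC6.Sp.ρi Q j)) (FC6.Sp.ρi Q j)))) (K.Sp_step Q (nat_lit 1) (FC6.Sp.ρi Q (FC6.Sp.π Q
    (FC6.Sp.ρi Q j))) k' j')))

theorem Sp_same_eq : @K.Sp_same = @FC6.Sp.same := by
  funext Q k j k' j'
  simp only [K.Sp_same, FC6.Sp.same, K.band_eq, K.bor_eq, K.bnot_eq, K.beqB_eq, K.tbit_eq,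
    K.kmax_eq, K.kmin_eq, K.nbeq_eq, K.nble_eq, K.bif_b, K.lall_eq, K.lany_eq, K.lmap_eq,
    K.lfilter_eq, K.llen_eq, K.lemp_eq, K.lsum_eq, K.lgetD_eq, K.lmem_eq, K.contains_eq, K.nodup_eq,
    K.lrange_eq, K.lapp_eq, K.lflat_eq, K.lfmap_eq, K.ltake_eq, K.lfoldl_eq, K.leq_eq,
    decide_eq_true_eq, ne_eq, decide_not, Bool.decide_and, Bool.decide_or, Bool.decide_eq_true,
    Bool.decide_eq_false, Nat.succ_eq_add_one, Bool.beq_eq_decide_eq, bne, Bool.not_eq_true',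
    Bool.or_eq_true, Bool.and_eq_true, K.Sp_step_eq] <;> rfl

noncomputable def Sp_chk (Q : FC6.Sp) (P : FC6.Pa) : Bool :=
  (K.band (K.band (K.Pa_good P) (K.allN (FC6.Sp.ns Q) (fun (j : ℕ) => (K.band (K.band (K.band
    (K.band (K.band (K.band (K.band (K.band (K.band (Nat.ble (Nat.succ (FC6.Sp.ρ Q j)) (FC6.Sp.ns
    Q)) (Nat.ble (Nat.succ (FC6.Sp.ρi Q j)) (FC6.Sp.ns Q))) (Nat.beq (FC6.Sp.ρ Q (FC6.Sp.ρi Q j))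
    j)) (Nat.beq (FC6.Sp.ρi Q (FC6.Sp.ρ Q j)) j)) (Nat.ble (Nat.succ (FC6.Sp.π Q j)) (FC6.Sp.ns Q)))
    (Nat.beq (FC6.Sp.π Q (FC6.Sp.π Q j)) j)) (FC6.Sp.cx Q (FC6.Pa.l P (FC6.Sp.nf Q (nat_lit 0) j))))
    (K.bor (K.bnot (Nat.beq (FC6.Sp.π Q j) j)) (K.bnot (FC6.Sp.cx Q (FC6.Pa.l P (FC6.Sp.nf Q
    (nat_lit 1) j)))))) (Nat.beq (FC6.Pa.l P (FC6.Sp.nf Q (nat_lit 0) (FC6.Sp.ρ Q j))) (FC6.Pa.l P
    (FC6.Sp.nf Q (nat_lit 0) j)))) (K.allN (nat_lit 3) (fun (k : ℕ) => (K.band (Nat.ble (Nat.succ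
    (FC6.Sp.nf Q k j)) (FC6.Pa.n P)) (K.Sp_same Q k j (FC6.Sp.rk Q (FC6.Sp.nf Q k j)) (FC6.Sp.rj Q
    (FC6.Sp.nf Q k j)))))))))) (K.allN (FC6.Pa.n P) (fun (i : ℕ) => (K.band (K.band (K.band (K.band
    (K.band (Nat.ble (Nat.succ (FC6.Sp.rj Q i)) (FC6.Sp.ns Q)) (Nat.beq (FC6.Sp.nf Q (FC6.Sp.rk Q i)
    (FC6.Sp.rj Q i)) i)) (Bool.rec (motive := fun _ => Bool) (Bool.rec (motive := fun _ => Bool)
    (K.band (K.band (K.band (K.band (K.band (Nat.beq (FC6.Sp.rk Q i) (nat_lit 2)) (Nat.beq (FC6.Pa.φ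
    P i) (FC6.Sp.nf Q (nat_lit 1) (FC6.Sp.ρi Q (FC6.Sp.rj Q i))))) (Nat.beq (FC6.Pa.α P i) i))
    (Nat.beq (FC6.Sp.π Q (FC6.Sp.rj Q i)) (FC6.Sp.rj Q i))) (Nat.beq (FC6.Sp.π Q (FC6.Sp.ρi Q
    (FC6.Sp.rj Q i))) (FC6.Sp.ρi Q (FC6.Sp.rj Q i)))) (K.beqB (FC6.Pa.real P i) (K.beqB (FC6.Sp.rl Q
    (FC6.Sp.rj Q i)) (FC6.Sp.rl Q (FC6.Sp.ρi Q (FC6.Sp.rj Q i)))))) (K.band (K.band (K.band (K.band
    (Nat.beq (FC6.Pa.φ P i) (FC6.Sp.nf Q (nat_lit 0) (FC6.Sp.ρ Q (FC6.Sp.rj Q i)))) (Nat.beq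
    (FC6.Pa.α P i) (FC6.Sp.nf Q (nat_lit 0) (FC6.Sp.rj Q i)))) (K.bnot (Nat.beq (FC6.Pa.α P i) i)))
    (Nat.beq (FC6.Sp.π Q (FC6.Sp.rj Q i)) (FC6.Sp.rj Q i))) (K.beqB (FC6.Pa.real P i) (FC6.Sp.rl Q
    (FC6.Sp.rj Q i)))) (Nat.beq (FC6.Sp.rk Q i) (nat_lit 1))) (K.band (K.band (K.band (Nat.beq
    (FC6.Pa.φ P i) (FC6.Sp.nf Q (nat_lit 2) (FC6.Sp.rj Q i))) (Nat.beq (FC6.Pa.α P i) (FC6.Sp.nf Q
    (nat_lit 1) (FC6.Sp.rj Q i)))) (K.bnot (Nat.beq (FC6.Pa.α P i) i))) (K.beqB (FC6.Pa.real P i)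
    (FC6.Sp.rl Q (FC6.Sp.rj Q i)))) (Nat.beq (FC6.Sp.rk Q i) (nat_lit 0)))) (K.bor (Nat.beq i
    (FC6.Sp.lr Q (FC6.Pa.l P i))) (K.band (K.band (K.band (Nat.ble (Nat.succ (FC6.Sp.vr Q (FC6.Sp.vp
    Q i))) (FC6.Sp.vr Q i)) (Nat.ble (Nat.succ (FC6.Sp.vp Q i)) (FC6.Pa.n P))) (Nat.beq (FC6.Pa.l P
    (FC6.Sp.vp Q i)) (FC6.Pa.l P i))) (K.bor (K.band (K.bnot (Nat.beq (FC6.Pa.α P i) i)) (Nat.beq
    (FC6.Sp.vp Q i) (FC6.Pa.φ P (FC6.Pa.α P i)))) (K.band (K.bnot (Nat.beq (FC6.Pa.α P (FC6.Pa.φ P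
    (FC6.Pa.φ P i))) (FC6.Pa.φ P (FC6.Pa.φ P i)))) (Nat.beq (FC6.Sp.vp Q i) (FC6.Pa.α P (FC6.Pa.φ P
    (FC6.Pa.φ P i))))))))) (Nat.ble (Nat.succ (FC6.Sp.lr Q (FC6.Pa.l P i))) (FC6.Pa.n P))) (Nat.beq
    (FC6.Pa.l P (FC6.Sp.lr Q (FC6.Pa.l P i))) (FC6.Pa.l P i))))))

theorem Sp_chk_eq : @K.Sp_chk = @FC6.Sp.chk := by
  funext Q P
  simp only [K.Sp_chk, FC6.Sp.chk, K.band_eq, K.bor_eq, K.bnot_eq, K.beqB_eq, K.tbit_eq, K.kmax_eq,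
    K.kmin_eq, K.nbeq_eq, K.nble_eq, K.bif_b, K.lall_eq, K.lany_eq, K.lmap_eq, K.lfilter_eq,
    K.llen_eq, K.lemp_eq, K.lsum_eq, K.lgetD_eq, K.lmem_eq, K.contains_eq, K.nodup_eq, K.lrange_eq,
    K.lapp_eq, K.lflat_eq, K.lfmap_eq, K.ltake_eq, K.lfoldl_eq, K.leq_eq, decide_eq_true_eq, ne_eq,
    decide_not, Bool.decide_and, Bool.decide_or, Bool.decide_eq_true, Bool.decide_eq_false,
    Nat.succ_eq_add_one, Bool.beq_eq_decide_eq, bne, Bool.not_eq_true', Bool.or_eq_true,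
    Bool.and_eq_true, K.Pa_good_eq, K.allN_eq, K.Sp_same_eq] <;> rfl

noncomputable def Stars_cert (Z : FC6.Stars) (j : ℕ) : Bool :=
  (Bool.rec (motive := fun _ => Bool) (Bool.rec (motive := fun _ => Bool) (K.band (K.band (K.band
    (K.band (K.band (K.band (Nat.ble (Nat.succ (Nat.sub (FC6.Stars.pt Z j) (nat_lit 2))) (FC6.Sp.ns
    (FC6.Stars.Q Z))) (Nat.ble (Nat.succ (FC6.Stars.pr Z (Nat.sub (FC6.Stars.pt Z j) (nat_lit 2))))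
    (FC6.Stars.pr Z j))) (Nat.ble (Nat.succ (FC6.Stars.pr Z (FC6.Sp.ρ (FC6.Stars.Q Z) (Nat.sub
    (FC6.Stars.pt Z j) (nat_lit 2))))) (FC6.Stars.pr Z j))) (K.bnot (Nat.beq (FC6.Sp.π (FC6.Stars.Q
    Z) (Nat.sub (FC6.Stars.pt Z j) (nat_lit 2))) (Nat.sub (FC6.Stars.pt Z j) (nat_lit 2))))) (K.bnot
    (Nat.beq (FC6.Sp.π (FC6.Stars.Q Z) (FC6.Sp.ρ (FC6.Stars.Q Z) (Nat.sub (FC6.Stars.pt Z j)
    (nat_lit 2)))) (FC6.Sp.ρ (FC6.Stars.Q Z) (Nat.sub (FC6.Stars.pt Z j) (nat_lit 2)))))) (Nat.beq j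
    (FC6.Sp.ρi (FC6.Stars.Q Z) (FC6.Sp.π (FC6.Stars.Q Z) (Nat.sub (FC6.Stars.pt Z j) (nat_lit
    2)))))) (Nat.beq (FC6.Sp.π (FC6.Stars.Q Z) j) (FC6.Sp.ρ (FC6.Stars.Q Z) (FC6.Sp.π (FC6.Stars.Q
    Z) (FC6.Sp.ρ (FC6.Stars.Q Z) (Nat.sub (FC6.Stars.pt Z j) (nat_lit 2))))))) (Nat.ble (Nat.succ
    (FC6.Stars.pr Z (FC6.Sp.π (FC6.Stars.Q Z) j))) (FC6.Stars.pr Z j)) (Nat.beq (FC6.Stars.pt Z j)
    (nat_lit 1))) (K.band (K.band (K.band (Nat.ble (Nat.succ (nat_lit 0)) (FC6.Stars.ca Z (FC6.Sp.π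
    (FC6.Stars.Q Z) j))) (Nat.ble (Nat.succ (FC6.Stars.ca Z (FC6.Sp.π (FC6.Stars.Q Z) j)))
    (FC6.Stars.nc Z))) (Nat.beq (FC6.Sp.π (FC6.Stars.Q Z) j) (FC6.Stars.off Z (FC6.Stars.ca Z
    (FC6.Sp.π (FC6.Stars.Q Z) j))))) (Nat.beq j (Nat.add (FC6.Stars.off Z (FC6.Stars.pa Z
    (FC6.Stars.ca Z (FC6.Sp.π (FC6.Stars.Q Z) j)))) (FC6.Stars.ja Z (FC6.Stars.ca Z (FC6.Sp.π
    (FC6.Stars.Q Z) j)))))) (Nat.beq (FC6.Stars.pt Z j) (nat_lit 0)))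

theorem Stars_cert_eq : @K.Stars_cert = @FC6.Stars.cert := by
  funext Z j
  simp only [K.Stars_cert, FC6.Stars.cert, K.band_eq, K.bor_eq, K.bnot_eq, K.beqB_eq, K.tbit_eq,
    K.kmax_eq, K.kmin_eq, K.nbeq_eq, K.nble_eq, K.bif_b, K.lall_eq, K.lany_eq, K.lmap_eq,
    K.lfilter_eq, K.llen_eq, K.lemp_eq, K.lsum_eq, K.lgetD_eq, K.lmem_eq, K.contains_eq, K.nodup_eq,
    K.lrange_eq, K.lapp_eq, K.lflat_eq, K.lfmap_eq, K.ltake_eq, K.lfoldl_eq, K.leq_eq,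
    decide_eq_true_eq, ne_eq, decide_not, Bool.decide_and, Bool.decide_or, Bool.decide_eq_true,
    Bool.decide_eq_false, Nat.succ_eq_add_one, Bool.beq_eq_decide_eq, bne, Bool.not_eq_true',
    Bool.or_eq_true, Bool.and_eq_true] <;> rfl

noncomputable def Stars_chk (Z : FC6.Stars) (P : FC6.Pa) : Bool :=
  (K.band (K.band (K.Sp_chk (FC6.Stars.Q Z) P) (K.allN (FC6.Stars.nc Z) (fun (a : ℕ) => (K.band
    (K.band (K.band (Nat.ble (Nat.succ (nat_lit 0)) (FC6.Stars.m Z a)) (Nat.ble (Nat.add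
    (FC6.Stars.off Z a) (FC6.Stars.m Z a)) (FC6.Sp.ns (FC6.Stars.Q Z)))) (K.bor (Nat.beq a (nat_lit
    0)) (K.band (Nat.ble (Nat.succ (FC6.Stars.pa Z a)) a) (Nat.ble (Nat.succ (FC6.Stars.ja Z a))
    (FC6.Stars.m Z (FC6.Stars.pa Z a)))))) (K.allN (FC6.Stars.m Z a) (fun (i : ℕ) => (Nat.beq
    (FC6.Stars.ca Z (Nat.add (FC6.Stars.off Z a) i)) a))))))) (K.allN (FC6.Sp.ns (FC6.Stars.Q Z))
    (fun (j : ℕ) => (K.band (K.band (K.band (K.band (K.band (Nat.ble (Nat.succ (FC6.Stars.ca Z j))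
    (FC6.Stars.nc Z)) (Nat.ble (FC6.Stars.off Z (FC6.Stars.ca Z j)) j)) (Nat.ble (Nat.succ j)
    (Nat.add (FC6.Stars.off Z (FC6.Stars.ca Z j)) (FC6.Stars.m Z (FC6.Stars.ca Z j))))) (Nat.beq
    (FC6.Sp.ρ (FC6.Stars.Q Z) j) (Bool.rec (motive := fun _ => ℕ) (FC6.Stars.off Z (FC6.Stars.ca Z
    j)) (Nat.add j (nat_lit 1)) (Nat.ble (Nat.succ (Nat.add j (nat_lit 1))) (Nat.add (FC6.Stars.off
    Z (FC6.Stars.ca Z j)) (FC6.Stars.m Z (FC6.Stars.ca Z j))))))) (Nat.beq (FC6.Pa.l P (FC6.Sp.nf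
    (FC6.Stars.Q Z) (nat_lit 0) j)) (FC6.Pa.l P (FC6.Sp.nf (FC6.Stars.Q Z) (nat_lit 0)
    (FC6.Stars.off Z (FC6.Stars.ca Z j)))))) (K.bor (Nat.beq (FC6.Sp.π (FC6.Stars.Q Z) j) j)
    (K.Stars_cert Z j))))))

theorem Stars_chk_eq : @K.Stars_chk = @FC6.Stars.chk := by
  funext Z P
  simp only [K.Stars_chk, FC6.Stars.chk, K.band_eq, K.bor_eq, K.bnot_eq, K.beqB_eq, K.tbit_eq,
    K.kmax_eq, K.kmin_eq, K.nbeq_eq, K.nble_eq, K.bif_b, K.lall_eq, K.lany_eq, K.lmap_eq,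
    K.lfilter_eq, K.llen_eq, K.lemp_eq, K.lsum_eq, K.lgetD_eq, K.lmem_eq, K.contains_eq, K.nodup_eq,
    K.lrange_eq, K.lapp_eq, K.lflat_eq, K.lfmap_eq, K.ltake_eq, K.lfoldl_eq, K.leq_eq,
    decide_eq_true_eq, ne_eq, decide_not, Bool.decide_and, Bool.decide_or, Bool.decide_eq_true,
    Bool.decide_eq_false, Nat.succ_eq_add_one, Bool.beq_eq_decide_eq, bne, Bool.not_eq_true',
    Bool.or_eq_true, Bool.and_eq_true, K.Sp_chk_eq, K.allN_eq, K.Stars_cert_eq] <;> rfl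

noncomputable def wk (l : ℕ) : ℕ :=
  (Nat.mod (Nat.div l (nat_lit 64)) (nat_lit 4))

theorem wk_eq : @K.wk = @FC7.wk := by
  funext l
  simp only [K.wk, FC7.wk, K.band_eq, K.bor_eq, K.bnot_eq, K.beqB_eq, K.tbit_eq, K.kmax_eq,
    K.kmin_eq, K.nbeq_eq, K.nble_eq, K.bif_b, K.lall_eq, K.lany_eq, K.lmap_eq, K.lfilter_eq,
    K.llen_eq, K.lemp_eq, K.lsum_eq, K.lgetD_eq, K.lmem_eq, K.contains_eq, K.nodup_eq, K.lrange_eq,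
    K.lapp_eq, K.lflat_eq, K.lfmap_eq, K.ltake_eq, K.lfoldl_eq, K.leq_eq, decide_eq_true_eq, ne_eq,
    decide_not, Bool.decide_and, Bool.decide_or, Bool.decide_eq_true, Bool.decide_eq_false,
    Nat.succ_eq_add_one, Bool.beq_eq_decide_eq, bne, Bool.not_eq_true', Bool.or_eq_true,
    Bool.and_eq_true] <;> rfl

noncomputable def Wt_ok (W : FC7.Wt) : Bool :=
  (K.allN (FC6.Sp.ns (FC6.Stars.Q (FC7.Wt.Z W))) (fun (j : ℕ) => (Bool.rec (motive := fun _ => Bool)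
    (K.band (K.bor (K.bnot (Nat.beq (FC6.Sp.π (FC6.Stars.Q (FC7.Wt.Z W)) j) j)) (K.bnot (Nat.beq
    (FC6.Sp.π (FC6.Stars.Q (FC7.Wt.Z W)) (FC6.Sp.ρi (FC6.Stars.Q (FC7.Wt.Z W)) j)) (FC6.Sp.ρi
    (FC6.Stars.Q (FC7.Wt.Z W)) j)))) (K.bnot (Nat.beq (K.wk (FC7.Wt.lt W j)) (nat_lit 2)))) (K.bor
    (FC6.Sp.rl (FC6.Stars.Q (FC7.Wt.Z W)) j) (K.band (FC6.Sp.rl (FC6.Stars.Q (FC7.Wt.Z W)) (FC6.Sp.ρ
    (FC6.Stars.Q (FC7.Wt.Z W)) j)) (FC6.Sp.rl (FC6.Stars.Q (FC7.Wt.Z W)) (FC6.Sp.ρi (FC6.Stars.Q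
    (FC7.Wt.Z W)) j)))) (FC7.Wt.ac W (FC6.Stars.ca (FC7.Wt.Z W) j)))))

theorem Wt_ok_eq : @K.Wt_ok = @FC7.Wt.ok := by
  funext W
  simp only [K.Wt_ok, FC7.Wt.ok, K.band_eq, K.bor_eq, K.bnot_eq, K.beqB_eq, K.tbit_eq, K.kmax_eq,
    K.kmin_eq, K.nbeq_eq, K.nble_eq, K.bif_b, K.lall_eq, K.lany_eq, K.lmap_eq, K.lfilter_eq,
    K.llen_eq, K.lemp_eq, K.lsum_eq, K.lgetD_eq, K.lmem_eq, K.contains_eq, K.nodup_eq, K.lrange_eq,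
    K.lapp_eq, K.lflat_eq, K.lfmap_eq, K.ltake_eq, K.lfoldl_eq, K.leq_eq, decide_eq_true_eq, ne_eq,
    decide_not, Bool.decide_and, Bool.decide_or, Bool.decide_eq_true, Bool.decide_eq_false,
    Nat.succ_eq_add_one, Bool.beq_eq_decide_eq, bne, Bool.not_eq_true', Bool.or_eq_true,
    Bool.and_eq_true, K.allN_eq, K.wk_eq] <;> rfl

noncomputable def rstr (P' : FC6.Pa) (P : FC6.Pa) : Bool :=
  (K.band (Nat.ble (FC6.Pa.n P') (FC6.Pa.n P)) (K.allN (FC6.Pa.n P') (fun (i : ℕ) => (K.band (K.band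
    (K.band (Nat.beq (FC6.Pa.φ P' i) (FC6.Pa.φ P i)) (K.bor (Nat.beq (FC6.Pa.α P' i) (FC6.Pa.α P i))
    (Nat.beq (FC6.Pa.α P' i) i))) (Nat.beq (FC6.Pa.l P' i) (FC6.Pa.l P i))) (K.beqB (FC6.Pa.real P'
    i) (FC6.Pa.real P i))))))

theorem rstr_eq : @K.rstr = @FC7.rstr := by
  funext P' P
  simp only [K.rstr, FC7.rstr, K.band_eq, K.bor_eq, K.bnot_eq, K.beqB_eq, K.tbit_eq, K.kmax_eq,
    K.kmin_eq, K.nbeq_eq, K.nble_eq, K.bif_b, K.lall_eq, K.lany_eq, K.lmap_eq, K.lfilter_eq,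
    K.llen_eq, K.lemp_eq, K.lsum_eq, K.lgetD_eq, K.lmem_eq, K.contains_eq, K.nodup_eq, K.lrange_eq,
    K.lapp_eq, K.lflat_eq, K.lfmap_eq, K.ltake_eq, K.lfoldl_eq, K.leq_eq, decide_eq_true_eq, ne_eq,
    decide_not, Bool.decide_and, Bool.decide_or, Bool.decide_eq_true, Bool.decide_eq_false,
    Nat.succ_eq_add_one, Bool.beq_eq_decide_eq, bne, Bool.not_eq_true', Bool.or_eq_true,
    Bool.and_eq_true, K.allN_eq] <;> rfl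

noncomputable def WF_hl (W : FC7.WF) (j : ℕ) : ℕ :=
  (FC6.Pa.l (FC7.WF.PT W) (FC6.Sp.nf (FC6.Stars.Q (FC7.Wt.Z (FC7.WF.toWt W))) (nat_lit 1) j))

theorem WF_hl_eq : @K.WF_hl = @FC7.WF.hl := by
  funext W j
  simp only [K.WF_hl, FC7.WF.hl, K.band_eq, K.bor_eq, K.bnot_eq, K.beqB_eq, K.tbit_eq, K.kmax_eq,
    K.kmin_eq, K.nbeq_eq, K.nble_eq, K.bif_b, K.lall_eq, K.lany_eq, K.lmap_eq, K.lfilter_eq,
    K.llen_eq, K.lemp_eq, K.lsum_eq, K.lgetD_eq, K.lmem_eq, K.contains_eq, K.nodup_eq, K.lrange_eq,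
    K.lapp_eq, K.lflat_eq, K.lfmap_eq, K.ltake_eq, K.lfoldl_eq, K.leq_eq, decide_eq_true_eq, ne_eq,
    decide_not, Bool.decide_and, Bool.decide_or, Bool.decide_eq_true, Bool.decide_eq_false,
    Nat.succ_eq_add_one, Bool.beq_eq_decide_eq, bne, Bool.not_eq_true', Bool.or_eq_true,
    Bool.and_eq_true] <;> rfl

noncomputable def Fc_ne (F : FC7.Fc) (a : ℕ) (b : ℕ) : Bool :=
  (K.band (Nat.ble (Nat.succ b) (nat_lit 31)) (K.tbit (FC7.Fc.NM F) (Nat.add (Nat.add (Nat.mul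
    (nat_lit 16) a) b) (Nat.mul (nat_lit 369) (Nat.div (Nat.add b (nat_lit 1)) (nat_lit 16))))))

theorem Fc_ne_eq : @K.Fc_ne = @FC7.Fc.ne := by
  funext F a b
  simp only [K.Fc_ne, FC7.Fc.ne, FC7.lix, K.band_eq, K.bor_eq, K.bnot_eq, K.beqB_eq, K.tbit_eq, K.kmax_eq,
    K.kmin_eq, K.nbeq_eq, K.nble_eq, K.bif_b, K.lall_eq, K.lany_eq, K.lmap_eq, K.lfilter_eq,
    K.llen_eq, K.lemp_eq, K.lsum_eq, K.lgetD_eq, K.lmem_eq, K.contains_eq, K.nodup_eq, K.lrange_eq,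
    K.lapp_eq, K.lflat_eq, K.lfmap_eq, K.ltake_eq, K.lfoldl_eq, K.leq_eq, decide_eq_true_eq, ne_eq,
    decide_not, Bool.decide_and, Bool.decide_or, Bool.decide_eq_true, Bool.decide_eq_false,
    Nat.succ_eq_add_one, Bool.beq_eq_decide_eq, bne, Bool.not_eq_true', Bool.or_eq_true,
    Bool.and_eq_true] <;> rfl

noncomputable def WF_dis (W : FC7.WF) (a : ℕ) (b : ℕ) : Bool :=
  (K.band (K.bnot (Nat.beq a b)) (K.bor (K.bor (K.bor (FC6.Sp.cx (FC6.Stars.Q (FC7.Wt.Z (FC7.WF.toWt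
    W))) a) (FC6.Sp.cx (FC6.Stars.Q (FC7.Wt.Z (FC7.WF.toWt W))) b)) (K.bnot (K.beqB (Nat.ble
    (Nat.succ a) (FC7.OD.m (FC7.Fc.O (FC7.WF.F W)))) (Nat.ble (Nat.succ b) (FC7.OD.m (FC7.Fc.O
    (FC7.WF.F W))))))) (K.lany (FC7.WF.dq W) (fun (q : ℕ × ℕ) => (K.bor (K.band (Nat.beq (K.WF_hl W
    (Prod.fst q)) a) (Nat.beq (K.WF_hl W (Prod.snd q)) b)) (K.band (Nat.beq (K.WF_hl W (Prod.fst q))
    b) (Nat.beq (K.WF_hl W (Prod.snd q)) a)))))))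

theorem WF_dis_eq : @K.WF_dis = @FC7.WF.dis := by
  funext W a b
  simp only [K.WF_dis, FC7.WF.dis, K.band_eq, K.bor_eq, K.bnot_eq, K.beqB_eq, K.tbit_eq, K.kmax_eq,
    K.kmin_eq, K.nbeq_eq, K.nble_eq, K.bif_b, K.lall_eq, K.lany_eq, K.lmap_eq, K.lfilter_eq,
    K.llen_eq, K.lemp_eq, K.lsum_eq, K.lgetD_eq, K.lmem_eq, K.contains_eq, K.nodup_eq, K.lrange_eq,
    K.lapp_eq, K.lflat_eq, K.lfmap_eq, K.ltake_eq, K.lfoldl_eq, K.leq_eq, decide_eq_true_eq, ne_eq,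
    decide_not, Bool.decide_and, Bool.decide_or, Bool.decide_eq_true, Bool.decide_eq_false,
    Nat.succ_eq_add_one, Bool.beq_eq_decide_eq, bne, Bool.not_eq_true', Bool.or_eq_true,
    Bool.and_eq_true, K.WF_hl_eq] <;> rfl

noncomputable def Fc_na (F : FC7.Fc) (a : ℕ) (b : ℕ) : Bool :=
  (K.band (Nat.ble (Nat.succ b) (nat_lit 31)) (K.tbit (FC7.Fc.NA F) (Nat.add (Nat.add (Nat.mul
    (nat_lit 16) a) b) (Nat.mul (nat_lit 369) (Nat.div (Nat.add b (nat_lit 1)) (nat_lit 16))))))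

theorem Fc_na_eq : @K.Fc_na = @FC7.Fc.na := by
  funext F a b
  simp only [K.Fc_na, FC7.Fc.na, FC7.lix, K.band_eq, K.bor_eq, K.bnot_eq, K.beqB_eq, K.tbit_eq, K.kmax_eq,
    K.kmin_eq, K.nbeq_eq, K.nble_eq, K.bif_b, K.lall_eq, K.lany_eq, K.lmap_eq, K.lfilter_eq,
    K.llen_eq, K.lemp_eq, K.lsum_eq, K.lgetD_eq, K.lmem_eq, K.contains_eq, K.nodup_eq, K.lrange_eq,
    K.lapp_eq, K.lflat_eq, K.lfmap_eq, K.ltake_eq, K.lfoldl_eq, K.leq_eq, decide_eq_true_eq, ne_eq,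
    decide_not, Bool.decide_and, Bool.decide_or, Bool.decide_eq_true, Bool.decide_eq_false,
    Nat.succ_eq_add_one, Bool.beq_eq_decide_eq, bne, Bool.not_eq_true', Bool.or_eq_true,
    Bool.and_eq_true] <;> rfl

noncomputable def WF_chkA (W : FC7.WF) : Bool :=
  (K.band (K.band (K.band (K.band (K.band (K.band (K.band (K.band (K.band (K.rstr (FC7.Fc.P
    (FC7.WF.F W)) (FC7.WF.PT W)) (K.allN (FC7.OD.x (FC7.Fc.O (FC7.WF.F W))) (fun (a : ℕ) =>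
    (FC6.Sp.cx (FC6.Stars.Q (FC7.Wt.Z (FC7.WF.toWt W))) a)))) (K.allN (FC6.Pa.n (FC7.WF.PT W)) (fun
    (i : ℕ) => (K.bor (Nat.ble (Nat.succ i) (FC6.Pa.n (FC7.Fc.P (FC7.WF.F W)))) (Nat.ble (FC7.OD.x
    (FC7.Fc.O (FC7.WF.F W))) (FC6.Pa.l (FC7.WF.PT W) i)))))) (K.allN (FC7.Fc.nl (FC7.WF.F W)) (fun
    (a : ℕ) => (Bool.rec (motive := fun _ => Bool) (K.band (K.band (K.band (Nat.ble (Nat.succ
    (FC7.WF.rd W a)) (FC6.Sp.ns (FC6.Stars.Q (FC7.Wt.Z (FC7.WF.toWt W))))) (K.bnot (FC6.Sp.rl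
    (FC6.Stars.Q (FC7.Wt.Z (FC7.WF.toWt W))) (FC7.WF.rd W a)))) (FC7.Wt.ac (FC7.WF.toWt W)
    (FC6.Stars.ca (FC7.Wt.Z (FC7.WF.toWt W)) (FC7.WF.rd W a)))) (Nat.beq (K.WF_hl W (FC7.WF.rd W a))
    a)) (K.band (K.band (Nat.ble (Nat.succ (FC7.WF.rd W a)) (FC6.Pa.n (FC7.Fc.P (FC7.WF.F W))))
    (Nat.beq (FC6.Pa.l (FC7.Fc.P (FC7.WF.F W)) (FC7.WF.rd W a)) a)) (FC6.Pa.real (FC7.Fc.P (FC7.WF.F
    W)) (FC7.WF.rd W a))) (Nat.ble (Nat.succ a) (FC7.OD.m (FC7.Fc.O (FC7.WF.F W)))))))) (Nat.ble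
    (FC7.OD.m (FC7.Fc.O (FC7.WF.F W))) (FC7.Fc.nl (FC7.WF.F W)))) (K.lall (FC7.WF.dq W) (fun (q : ℕ
    × ℕ) => (K.band (Nat.ble (Nat.succ (Prod.fst q)) (FC6.Sp.ns (FC6.Stars.Q (FC7.Wt.Z (FC7.WF.toWt
    W))))) (Nat.ble (Nat.succ (Prod.snd q)) (FC6.Sp.ns (FC6.Stars.Q (FC7.Wt.Z (FC7.WF.toWt
    W))))))))) (K.lall (FC7.WF.nq W) (fun (q : ℕ × ℕ) => (K.band (Nat.ble (Nat.succ (Prod.fst q))
    (FC6.Sp.ns (FC6.Stars.Q (FC7.Wt.Z (FC7.WF.toWt W))))) (Nat.ble (Nat.succ (Prod.snd q))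
    (FC6.Sp.ns (FC6.Stars.Q (FC7.Wt.Z (FC7.WF.toWt W))))))))) (K.lall (FC7.WF.oq W) (fun (q : ℕ × ℕ)
    => (K.band (Nat.ble (Nat.succ (Prod.fst q)) (FC6.Sp.ns (FC6.Stars.Q (FC7.Wt.Z (FC7.WF.toWt
    W))))) (Nat.ble (Nat.succ (Prod.snd q)) (FC6.Sp.ns (FC6.Stars.Q (FC7.Wt.Z (FC7.WF.toWt
    W))))))))) (K.allN (FC7.OD.m (FC7.Fc.O (FC7.WF.F W))) (fun (a : ℕ) => (K.allN (FC7.OD.m
    (FC7.Fc.O (FC7.WF.F W))) (fun (b : ℕ) => (K.bor (K.bnot (K.Fc_ne (FC7.WF.F W) a b)) (K.WF_dis W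
    a b))))))) (K.allN (FC7.OD.m (FC7.Fc.O (FC7.WF.F W))) (fun (a : ℕ) => (K.allN (FC7.OD.m
    (FC7.Fc.O (FC7.WF.F W))) (fun (b : ℕ) => (K.bor (K.bor (K.bor (K.bnot (K.Fc_na (FC7.WF.F W) a
    b)) (Nat.ble (Nat.succ a) (FC7.OD.x (FC7.Fc.O (FC7.WF.F W))))) (Nat.ble (Nat.succ b) (FC7.OD.x
    (FC7.Fc.O (FC7.WF.F W))))) (K.lany (FC7.WF.nq W) (fun (q : ℕ × ℕ) => (K.bor (K.band (Nat.beq
    (K.WF_hl W (Prod.fst q)) a) (Nat.beq (K.WF_hl W (Prod.snd q)) b)) (K.band (Nat.beq (K.WF_hl W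
    (Prod.fst q)) b) (Nat.beq (K.WF_hl W (Prod.snd q)) a)))))))))))

theorem WF_chkA_eq : @K.WF_chkA = @FC7.WF.chkA := by
  funext W
  simp only [K.WF_chkA, FC7.WF.chkA, K.band_eq, K.bor_eq, K.bnot_eq, K.beqB_eq, K.tbit_eq,
    K.kmax_eq, K.kmin_eq, K.nbeq_eq, K.nble_eq, K.bif_b, K.lall_eq, K.lany_eq, K.lmap_eq,
    K.lfilter_eq, K.llen_eq, K.lemp_eq, K.lsum_eq, K.lgetD_eq, K.lmem_eq, K.contains_eq, K.nodup_eq,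
    K.lrange_eq, K.lapp_eq, K.lflat_eq, K.lfmap_eq, K.ltake_eq, K.lfoldl_eq, K.leq_eq,
    decide_eq_true_eq, ne_eq, decide_not, Bool.decide_and, Bool.decide_or, Bool.decide_eq_true,
    Bool.decide_eq_false, Nat.succ_eq_add_one, Bool.beq_eq_decide_eq, bne, Bool.not_eq_true',
    Bool.or_eq_true, Bool.and_eq_true, K.rstr_eq, K.allN_eq, K.WF_hl_eq, K.Fc_ne_eq, K.WF_dis_eq,
    K.Fc_na_eq] <;> rfl

noncomputable def wb (l : ℕ) : ℕ :=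
  (Nat.mod (Nat.div l (nat_lit 4)) (nat_lit 4))

theorem wb_eq : @K.wb = @FC7.wb := by
  funext l
  simp only [K.wb, FC7.wb, K.band_eq, K.bor_eq, K.bnot_eq, K.beqB_eq, K.tbit_eq, K.kmax_eq,
    K.kmin_eq, K.nbeq_eq, K.nble_eq, K.bif_b, K.lall_eq, K.lany_eq, K.lmap_eq, K.lfilter_eq,
    K.llen_eq, K.lemp_eq, K.lsum_eq, K.lgetD_eq, K.lmem_eq, K.contains_eq, K.nodup_eq, K.lrange_eq,
    K.lapp_eq, K.lflat_eq, K.lfmap_eq, K.ltake_eq, K.lfoldl_eq, K.leq_eq, decide_eq_true_eq, ne_eq,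
    decide_not, Bool.decide_and, Bool.decide_or, Bool.decide_eq_true, Bool.decide_eq_false,
    Nat.succ_eq_add_one, Bool.beq_eq_decide_eq, bne, Bool.not_eq_true', Bool.or_eq_true,
    Bool.and_eq_true] <;> rfl

noncomputable def wc (l : ℕ) : ℕ :=
  (Nat.mod (Nat.div l (nat_lit 16)) (nat_lit 4))

theorem wc_eq : @K.wc = @FC7.wc := by
  funext l
  simp only [K.wc, FC7.wc, K.band_eq, K.bor_eq, K.bnot_eq, K.beqB_eq, K.tbit_eq, K.kmax_eq,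
    K.kmin_eq, K.nbeq_eq, K.nble_eq, K.bif_b, K.lall_eq, K.lany_eq, K.lmap_eq, K.lfilter_eq,
    K.llen_eq, K.lemp_eq, K.lsum_eq, K.lgetD_eq, K.lmem_eq, K.contains_eq, K.nodup_eq, K.lrange_eq,
    K.lapp_eq, K.lflat_eq, K.lfmap_eq, K.ltake_eq, K.lfoldl_eq, K.leq_eq, decide_eq_true_eq, ne_eq,
    decide_not, Bool.decide_and, Bool.decide_or, Bool.decide_eq_true, Bool.decide_eq_false,
    Nat.succ_eq_add_one, Bool.beq_eq_decide_eq, bne, Bool.not_eq_true', Bool.or_eq_true,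
    Bool.and_eq_true] <;> rfl

noncomputable def uo (l : ℕ) : Bool :=
  (K.band (Nat.beq (K.wb l) (nat_lit 3)) (Nat.beq (K.wc l) (nat_lit 3)))

theorem uo_eq : @K.uo = @FC7.uo := by
  funext l
  simp only [K.uo, FC7.uo, K.band_eq, K.bor_eq, K.bnot_eq, K.beqB_eq, K.tbit_eq, K.kmax_eq,
    K.kmin_eq, K.nbeq_eq, K.nble_eq, K.bif_b, K.lall_eq, K.lany_eq, K.lmap_eq, K.lfilter_eq,
    K.llen_eq, K.lemp_eq, K.lsum_eq, K.lgetD_eq, K.lmem_eq, K.contains_eq, K.nodup_eq, K.lrange_eq,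
    K.lapp_eq, K.lflat_eq, K.lfmap_eq, K.ltake_eq, K.lfoldl_eq, K.leq_eq, decide_eq_true_eq, ne_eq,
    decide_not, Bool.decide_and, Bool.decide_or, Bool.decide_eq_true, Bool.decide_eq_false,
    Nat.succ_eq_add_one, Bool.beq_eq_decide_eq, bne, Bool.not_eq_true', Bool.or_eq_true,
    Bool.and_eq_true, K.wb_eq, K.wc_eq] <;> rfl

noncomputable def Wt_clk (W : FC7.Wt) (j : ℕ) : Bool :=
  (K.band (K.band (K.band (K.band (K.band (K.band (FC6.Sp.rl (FC6.Stars.Q (FC7.Wt.Z W)) j) (K.bnot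
    (FC6.Sp.rl (FC6.Stars.Q (FC7.Wt.Z W)) (FC6.Sp.ρ (FC6.Stars.Q (FC7.Wt.Z W)) j)))) (K.bnot
    (Nat.beq (FC6.Sp.π (FC6.Stars.Q (FC7.Wt.Z W)) (FC6.Sp.ρ (FC6.Stars.Q (FC7.Wt.Z W)) j)) (FC6.Sp.ρ
    (FC6.Stars.Q (FC7.Wt.Z W)) j)))) (K.bnot (FC7.Wt.ac W (FC6.Stars.ca (FC7.Wt.Z W) (FC6.Sp.π
    (FC6.Stars.Q (FC7.Wt.Z W)) (FC6.Sp.ρ (FC6.Stars.Q (FC7.Wt.Z W)) j)))))) (Nat.beq (FC6.Stars.m
    (FC7.Wt.Z W) (FC6.Stars.ca (FC7.Wt.Z W) (FC6.Sp.π (FC6.Stars.Q (FC7.Wt.Z W)) (FC6.Sp.ρ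
    (FC6.Stars.Q (FC7.Wt.Z W)) j)))) (nat_lit 4))) (K.bnot (Nat.beq (FC6.Sp.π (FC6.Stars.Q (FC7.Wt.Z
    W)) (FC6.Sp.ρi (FC6.Stars.Q (FC7.Wt.Z W)) (FC6.Sp.π (FC6.Stars.Q (FC7.Wt.Z W)) (FC6.Sp.ρ
    (FC6.Stars.Q (FC7.Wt.Z W)) j)))) (FC6.Sp.ρi (FC6.Stars.Q (FC7.Wt.Z W)) (FC6.Sp.π (FC6.Stars.Q
    (FC7.Wt.Z W)) (FC6.Sp.ρ (FC6.Stars.Q (FC7.Wt.Z W)) j)))))) (K.bnot (Nat.beq (FC6.Sp.π
    (FC6.Stars.Q (FC7.Wt.Z W)) (FC6.Sp.ρi (FC6.Stars.Q (FC7.Wt.Z W)) (FC6.Sp.ρi (FC6.Stars.Q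
    (FC7.Wt.Z W)) (FC6.Sp.π (FC6.Stars.Q (FC7.Wt.Z W)) (FC6.Sp.ρ (FC6.Stars.Q (FC7.Wt.Z W)) j)))))
    (FC6.Sp.ρi (FC6.Stars.Q (FC7.Wt.Z W)) (FC6.Sp.ρi (FC6.Stars.Q (FC7.Wt.Z W)) (FC6.Sp.π
    (FC6.Stars.Q (FC7.Wt.Z W)) (FC6.Sp.ρ (FC6.Stars.Q (FC7.Wt.Z W)) j)))))))

theorem Wt_clk_eq : @K.Wt_clk = @FC7.Wt.clk := by
  funext W j
  simp only [K.Wt_clk, FC7.Wt.clk, K.band_eq, K.bor_eq, K.bnot_eq, K.beqB_eq, K.tbit_eq, K.kmax_eq,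
    K.kmin_eq, K.nbeq_eq, K.nble_eq, K.bif_b, K.lall_eq, K.lany_eq, K.lmap_eq, K.lfilter_eq,
    K.llen_eq, K.lemp_eq, K.lsum_eq, K.lgetD_eq, K.lmem_eq, K.contains_eq, K.nodup_eq, K.lrange_eq,
    K.lapp_eq, K.lflat_eq, K.lfmap_eq, K.ltake_eq, K.lfoldl_eq, K.leq_eq, decide_eq_true_eq, ne_eq,
    decide_not, Bool.decide_and, Bool.decide_or, Bool.decide_eq_true, Bool.decide_eq_false,
    Nat.succ_eq_add_one, Bool.beq_eq_decide_eq, bne, Bool.not_eq_true', Bool.or_eq_true,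
    Bool.and_eq_true] <;> rfl

noncomputable def Wt_kn (W : FC7.Wt) (k : ℕ) (j : ℕ) : Bool :=
  (Bool.rec (motive := fun _ => Bool) (K.bor (K.bnot (Nat.beq k (nat_lit 2))) (K.bnot (K.band
    (K.band (FC6.Sp.rl (FC6.Stars.Q (FC7.Wt.Z W)) j) (FC6.Sp.rl (FC6.Stars.Q (FC7.Wt.Z W))
    (FC6.Sp.ρi (FC6.Stars.Q (FC7.Wt.Z W)) j))) (K.uo (FC7.Wt.lt W (FC6.Sp.ρi (FC6.Stars.Q (FC7.Wt.Z
    W)) j)))))) (K.bor (K.bnot (FC6.Sp.rl (FC6.Stars.Q (FC7.Wt.Z W)) j)) (Bool.rec (motive := fun _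
    => Bool) (K.bor (Nat.beq (K.wb (FC7.Wt.lt W j)) (nat_lit 3)) (K.band (K.Wt_clk W j) (K.bnot
    (Nat.beq (K.wb (FC7.Wt.lt W j)) (nat_lit 0))))) (K.bnot (K.uo (FC7.Wt.lt W j))) (FC6.Sp.rl
    (FC6.Stars.Q (FC7.Wt.Z W)) (FC6.Sp.ρ (FC6.Stars.Q (FC7.Wt.Z W)) j)))) (Nat.beq k (nat_lit 1)))

theorem Wt_kn_eq : @K.Wt_kn = @FC7.Wt.kn := by
  funext W k j
  simp only [K.Wt_kn, FC7.Wt.kn, K.band_eq, K.bor_eq, K.bnot_eq, K.beqB_eq, K.tbit_eq, K.kmax_eq,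
    K.kmin_eq, K.nbeq_eq, K.nble_eq, K.bif_b, K.lall_eq, K.lany_eq, K.lmap_eq, K.lfilter_eq,
    K.llen_eq, K.lemp_eq, K.lsum_eq, K.lgetD_eq, K.lmem_eq, K.contains_eq, K.nodup_eq, K.lrange_eq,
    K.lapp_eq, K.lflat_eq, K.lfmap_eq, K.ltake_eq, K.lfoldl_eq, K.leq_eq, decide_eq_true_eq, ne_eq,
    decide_not, Bool.decide_and, Bool.decide_or, Bool.decide_eq_true, Bool.decide_eq_false,
    Nat.succ_eq_add_one, Bool.beq_eq_decide_eq, bne, Bool.not_eq_true', Bool.or_eq_true,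
    Bool.and_eq_true, K.uo_eq, K.wb_eq, K.Wt_clk_eq] <;> rfl

noncomputable def wa (l : ℕ) : ℕ :=
  (Nat.mod l (nat_lit 4))

theorem wa_eq : @K.wa = @FC7.wa := by
  funext l
  simp only [K.wa, FC7.wa, K.band_eq, K.bor_eq, K.bnot_eq, K.beqB_eq, K.tbit_eq, K.kmax_eq,
    K.kmin_eq, K.nbeq_eq, K.nble_eq, K.bif_b, K.lall_eq, K.lany_eq, K.lmap_eq, K.lfilter_eq,
    K.llen_eq, K.lemp_eq, K.lsum_eq, K.lgetD_eq, K.lmem_eq, K.contains_eq, K.nodup_eq, K.lrange_eq,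
    K.lapp_eq, K.lflat_eq, K.lfmap_eq, K.ltake_eq, K.lfoldl_eq, K.leq_eq, decide_eq_true_eq, ne_eq,
    decide_not, Bool.decide_and, Bool.decide_or, Bool.decide_eq_true, Bool.decide_eq_false,
    Nat.succ_eq_add_one, Bool.beq_eq_decide_eq, bne, Bool.not_eq_true', Bool.or_eq_true,
    Bool.and_eq_true] <;> rfl

noncomputable def Wt_prv (W : FC7.Wt) (j : ℕ) : ℕ :=
  (Bool.rec (motive := fun _ => ℕ) (FC6.Sp.ρi (FC6.Stars.Q (FC7.Wt.Z W)) (FC6.Sp.ρi (FC6.Stars.Q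
    (FC7.Wt.Z W)) j)) (FC6.Sp.ρi (FC6.Stars.Q (FC7.Wt.Z W)) j) (FC6.Sp.rl (FC6.Stars.Q (FC7.Wt.Z W))
    (FC6.Sp.ρi (FC6.Stars.Q (FC7.Wt.Z W)) j)))

theorem Wt_prv_eq : @K.Wt_prv = @FC7.Wt.prv := by
  funext W j
  simp only [K.Wt_prv, FC7.Wt.prv, K.band_eq, K.bor_eq, K.bnot_eq, K.beqB_eq, K.tbit_eq, K.kmax_eq,
    K.kmin_eq, K.nbeq_eq, K.nble_eq, K.bif_b, K.lall_eq, K.lany_eq, K.lmap_eq, K.lfilter_eq,
    K.llen_eq, K.lemp_eq, K.lsum_eq, K.lgetD_eq, K.lmem_eq, K.contains_eq, K.nodup_eq, K.lrange_eq,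
    K.lapp_eq, K.lflat_eq, K.lfmap_eq, K.ltake_eq, K.lfoldl_eq, K.leq_eq, decide_eq_true_eq, ne_eq,
    decide_not, Bool.decide_and, Bool.decide_or, Bool.decide_eq_true, Bool.decide_eq_false,
    Nat.succ_eq_add_one, Bool.beq_eq_decide_eq, bne, Bool.not_eq_true', Bool.or_eq_true,
    Bool.and_eq_true] <;> rfl

noncomputable def Wt_cwa (W : FC7.Wt) (t : ℕ) : ℕ :=
  (K.wa (FC7.Wt.lt W (FC6.Sp.ρi (FC6.Stars.Q (FC7.Wt.Z W)) (FC6.Sp.π (FC6.Stars.Q (FC7.Wt.Z W))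
    t))))

theorem Wt_cwa_eq : @K.Wt_cwa = @FC7.Wt.cwa := by
  funext W t
  simp only [K.Wt_cwa, FC7.Wt.cwa, K.band_eq, K.bor_eq, K.bnot_eq, K.beqB_eq, K.tbit_eq, K.kmax_eq,
    K.kmin_eq, K.nbeq_eq, K.nble_eq, K.bif_b, K.lall_eq, K.lany_eq, K.lmap_eq, K.lfilter_eq,
    K.llen_eq, K.lemp_eq, K.lsum_eq, K.lgetD_eq, K.lmem_eq, K.contains_eq, K.nodup_eq, K.lrange_eq,
    K.lapp_eq, K.lflat_eq, K.lfmap_eq, K.ltake_eq, K.lfoldl_eq, K.leq_eq, decide_eq_true_eq, ne_eq,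
    decide_not, Bool.decide_and, Bool.decide_or, Bool.decide_eq_true, Bool.decide_eq_false,
    Nat.succ_eq_add_one, Bool.beq_eq_decide_eq, bne, Bool.not_eq_true', Bool.or_eq_true,
    Bool.and_eq_true, K.wa_eq] <;> rfl

noncomputable def Wt_cun (W : FC7.Wt) (j : ℕ) : ℕ :=
  (Nat.sub (Bool.rec (motive := fun _ => ℕ) (Bool.rec (motive := fun _ => ℕ) (nat_lit 0) (nat_lit 2)
    (Nat.beq (K.wb (FC7.Wt.lt W j)) (nat_lit 1))) (nat_lit 3) (Nat.beq (K.wb (FC7.Wt.lt W j))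
    (nat_lit 2))) (Nat.add (Nat.add (K.Wt_cwa W (FC6.Sp.π (FC6.Stars.Q (FC7.Wt.Z W)) (FC6.Sp.ρ
    (FC6.Stars.Q (FC7.Wt.Z W)) j))) (K.Wt_cwa W (FC6.Sp.ρi (FC6.Stars.Q (FC7.Wt.Z W)) (FC6.Sp.π
    (FC6.Stars.Q (FC7.Wt.Z W)) (FC6.Sp.ρ (FC6.Stars.Q (FC7.Wt.Z W)) j))))) (K.Wt_cwa W (FC6.Sp.ρi
    (FC6.Stars.Q (FC7.Wt.Z W)) (FC6.Sp.ρi (FC6.Stars.Q (FC7.Wt.Z W)) (FC6.Sp.π (FC6.Stars.Q
    (FC7.Wt.Z W)) (FC6.Sp.ρ (FC6.Stars.Q (FC7.Wt.Z W)) j)))))))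

theorem Wt_cun_eq : @K.Wt_cun = @FC7.Wt.cun := by
  funext W j
  simp only [K.Wt_cun, FC7.Wt.cun, K.band_eq, K.bor_eq, K.bnot_eq, K.beqB_eq, K.tbit_eq, K.kmax_eq,
    K.kmin_eq, K.nbeq_eq, K.nble_eq, K.bif_b, K.lall_eq, K.lany_eq, K.lmap_eq, K.lfilter_eq,
    K.llen_eq, K.lemp_eq, K.lsum_eq, K.lgetD_eq, K.lmem_eq, K.contains_eq, K.nodup_eq, K.lrange_eq,
    K.lapp_eq, K.lflat_eq, K.lfmap_eq, K.ltake_eq, K.lfoldl_eq, K.leq_eq, decide_eq_true_eq, ne_eq,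
    decide_not, Bool.decide_and, Bool.decide_or, Bool.decide_eq_true, Bool.decide_eq_false,
    Nat.succ_eq_add_one, Bool.beq_eq_decide_eq, bne, Bool.not_eq_true', Bool.or_eq_true,
    Bool.and_eq_true, K.wb_eq, K.Wt_cwa_eq] <;> rfl

noncomputable def Wt_un (W : FC7.Wt) (k : ℕ) (j : ℕ) : ℕ :=
  (Bool.rec (motive := fun _ => ℕ) (Bool.rec (motive := fun _ => ℕ) (Bool.rec (motive := fun _ => ℕ)
    (nat_lit 0) (K.wc (FC7.Wt.lt W (FC6.Sp.ρi (FC6.Stars.Q (FC7.Wt.Z W)) j))) (K.band (FC6.Sp.rl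
    (FC6.Stars.Q (FC7.Wt.Z W)) j) (FC6.Sp.rl (FC6.Stars.Q (FC7.Wt.Z W)) (FC6.Sp.ρi (FC6.Stars.Q
    (FC7.Wt.Z W)) j)))) (Bool.rec (motive := fun _ => ℕ) (Bool.rec (motive := fun _ => ℕ) (nat_lit
    0) (K.Wt_cun W j) (K.band (K.Wt_clk W j) (K.bnot (Nat.beq (K.wb (FC7.Wt.lt W j)) (nat_lit 3)))))
    (K.wb (FC7.Wt.lt W j)) (K.band (FC6.Sp.rl (FC6.Stars.Q (FC7.Wt.Z W)) j) (FC6.Sp.rl (FC6.Stars.Q
    (FC7.Wt.Z W)) (FC6.Sp.ρ (FC6.Stars.Q (FC7.Wt.Z W)) j)))) (Nat.beq k (nat_lit 1))) (Bool.rec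
    (motive := fun _ => ℕ) (nat_lit 0) (K.wa (FC7.Wt.lt W (K.Wt_prv W j))) (FC6.Sp.rl (FC6.Stars.Q
    (FC7.Wt.Z W)) j)) (Nat.beq k (nat_lit 0)))

theorem Wt_un_eq : @K.Wt_un = @FC7.Wt.un := by
  funext W k j
  simp only [K.Wt_un, FC7.Wt.un, K.band_eq, K.bor_eq, K.bnot_eq, K.beqB_eq, K.tbit_eq, K.kmax_eq,
    K.kmin_eq, K.nbeq_eq, K.nble_eq, K.bif_b, K.lall_eq, K.lany_eq, K.lmap_eq, K.lfilter_eq,
    K.llen_eq, K.lemp_eq, K.lsum_eq, K.lgetD_eq, K.lmem_eq, K.contains_eq, K.nodup_eq, K.lrange_eq,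
    K.lapp_eq, K.lflat_eq, K.lfmap_eq, K.ltake_eq, K.lfoldl_eq, K.leq_eq, decide_eq_true_eq, ne_eq,
    decide_not, Bool.decide_and, Bool.decide_or, Bool.decide_eq_true, Bool.decide_eq_false,
    Nat.succ_eq_add_one, Bool.beq_eq_decide_eq, bne, Bool.not_eq_true', Bool.or_eq_true,
    Bool.and_eq_true, K.wa_eq, K.Wt_prv_eq, K.wb_eq, K.Wt_clk_eq, K.Wt_cun_eq, K.wc_eq] <;> rfl

noncomputable def Wt_lun (W : FC7.Wt) (k : ℕ) (j : ℕ) : Bool :=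
  (K.band (K.band (K.band (Nat.ble (nat_lit 2) k) (FC6.Sp.rl (FC6.Stars.Q (FC7.Wt.Z W)) j))
    (FC6.Sp.rl (FC6.Stars.Q (FC7.Wt.Z W)) (FC6.Sp.ρi (FC6.Stars.Q (FC7.Wt.Z W)) j))) (K.tbit
    (FC7.Wt.lt W (FC6.Sp.ρi (FC6.Stars.Q (FC7.Wt.Z W)) j)) (nat_lit 11)))

theorem Wt_lun_eq : @K.Wt_lun = @FC7.Wt.lun := by
  funext W k j
  simp only [K.Wt_lun, FC7.Wt.lun, K.band_eq, K.bor_eq, K.bnot_eq, K.beqB_eq, K.tbit_eq, K.kmax_eq,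
    K.kmin_eq, K.nbeq_eq, K.nble_eq, K.bif_b, K.lall_eq, K.lany_eq, K.lmap_eq, K.lfilter_eq,
    K.llen_eq, K.lemp_eq, K.lsum_eq, K.lgetD_eq, K.lmem_eq, K.contains_eq, K.nodup_eq, K.lrange_eq,
    K.lapp_eq, K.lflat_eq, K.lfmap_eq, K.ltake_eq, K.lfoldl_eq, K.leq_eq, decide_eq_true_eq, ne_eq,
    decide_not, Bool.decide_and, Bool.decide_or, Bool.decide_eq_true, Bool.decide_eq_false,
    Nat.succ_eq_add_one, Bool.beq_eq_decide_eq, bne, Bool.not_eq_true', Bool.or_eq_true,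
    Bool.and_eq_true] <;> rfl

noncomputable def ws (l : ℕ) : Bool :=
  (Nat.beq (Nat.mod (Nat.div l (nat_lit 256)) (nat_lit 2)) (nat_lit 1))

theorem ws_eq : @K.ws = @FC7.ws := by
  funext l
  simp only [K.ws, FC7.ws, K.band_eq, K.bor_eq, K.bnot_eq, K.beqB_eq, K.tbit_eq, K.kmax_eq,
    K.kmin_eq, K.nbeq_eq, K.nble_eq, K.bif_b, K.lall_eq, K.lany_eq, K.lmap_eq, K.lfilter_eq,
    K.llen_eq, K.lemp_eq, K.lsum_eq, K.lgetD_eq, K.lmem_eq, K.contains_eq, K.nodup_eq, K.lrange_eq,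
    K.lapp_eq, K.lflat_eq, K.lfmap_eq, K.ltake_eq, K.lfoldl_eq, K.leq_eq, decide_eq_true_eq, ne_eq,
    decide_not, Bool.decide_and, Bool.decide_or, Bool.decide_eq_true, Bool.decide_eq_false,
    Nat.succ_eq_add_one, Bool.beq_eq_decide_eq, bne, Bool.not_eq_true', Bool.or_eq_true,
    Bool.and_eq_true] <;> rfl

noncomputable def wo (l : ℕ) : Bool :=
  (Nat.beq (Nat.mod (Nat.div l (nat_lit 512)) (nat_lit 2)) (nat_lit 1))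

theorem wo_eq : @K.wo = @FC7.wo := by
  funext l
  simp only [K.wo, FC7.wo, K.band_eq, K.bor_eq, K.bnot_eq, K.beqB_eq, K.tbit_eq, K.kmax_eq,
    K.kmin_eq, K.nbeq_eq, K.nble_eq, K.bif_b, K.lall_eq, K.lany_eq, K.lmap_eq, K.lfilter_eq,
    K.llen_eq, K.lemp_eq, K.lsum_eq, K.lgetD_eq, K.lmem_eq, K.contains_eq, K.nodup_eq, K.lrange_eq,
    K.lapp_eq, K.lflat_eq, K.lfmap_eq, K.ltake_eq, K.lfoldl_eq, K.leq_eq, decide_eq_true_eq, ne_eq,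
    decide_not, Bool.decide_and, Bool.decide_or, Bool.decide_eq_true, Bool.decide_eq_false,
    Nat.succ_eq_add_one, Bool.beq_eq_decide_eq, bne, Bool.not_eq_true', Bool.or_eq_true,
    Bool.and_eq_true] <;> rfl

noncomputable def Wt_lb (W : FC7.Wt) (k : ℕ) (j : ℕ) : Bool :=
  (Bool.rec (motive := fun _ => Bool) (K.band (K.band (FC6.Sp.rl (FC6.Stars.Q (FC7.Wt.Z W)) j)
    (FC6.Sp.rl (FC6.Stars.Q (FC7.Wt.Z W)) (FC6.Sp.ρi (FC6.Stars.Q (FC7.Wt.Z W)) j))) (K.wo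
    (FC7.Wt.lt W (FC6.Sp.ρi (FC6.Stars.Q (FC7.Wt.Z W)) j)))) (K.band (FC6.Sp.rl (FC6.Stars.Q
    (FC7.Wt.Z W)) j) (K.ws (FC7.Wt.lt W j))) (Nat.ble k (nat_lit 1)))

theorem Wt_lb_eq : @K.Wt_lb = @FC7.Wt.lb := by
  funext W k j
  simp only [K.Wt_lb, FC7.Wt.lb, K.band_eq, K.bor_eq, K.bnot_eq, K.beqB_eq, K.tbit_eq, K.kmax_eq,
    K.kmin_eq, K.nbeq_eq, K.nble_eq, K.bif_b, K.lall_eq, K.lany_eq, K.lmap_eq, K.lfilter_eq,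
    K.llen_eq, K.lemp_eq, K.lsum_eq, K.lgetD_eq, K.lmem_eq, K.contains_eq, K.nodup_eq, K.lrange_eq,
    K.lapp_eq, K.lflat_eq, K.lfmap_eq, K.ltake_eq, K.lfoldl_eq, K.leq_eq, decide_eq_true_eq, ne_eq,
    decide_not, Bool.decide_and, Bool.decide_or, Bool.decide_eq_true, Bool.decide_eq_false,
    Nat.succ_eq_add_one, Bool.beq_eq_decide_eq, bne, Bool.not_eq_true', Bool.or_eq_true,
    Bool.and_eq_true, K.ws_eq, K.wo_eq] <;> rfl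

noncomputable def Wt_sol (W : FC7.Wt) (k : ℕ) (j : ℕ) : Bool :=
  (K.band (FC6.Sp.rl (FC6.Stars.Q (FC7.Wt.Z W)) j) (Bool.rec (motive := fun _ => Bool) (FC6.Sp.rl
    (FC6.Stars.Q (FC7.Wt.Z W)) (FC6.Sp.ρi (FC6.Stars.Q (FC7.Wt.Z W)) j)) (FC6.Sp.rl (FC6.Stars.Q
    (FC7.Wt.Z W)) (FC6.Sp.ρ (FC6.Stars.Q (FC7.Wt.Z W)) j)) (Nat.beq k (nat_lit 1))))

theorem Wt_sol_eq : @K.Wt_sol = @FC7.Wt.sol := by
  funext W k j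
  simp only [K.Wt_sol, FC7.Wt.sol, K.band_eq, K.bor_eq, K.bnot_eq, K.beqB_eq, K.tbit_eq, K.kmax_eq,
    K.kmin_eq, K.nbeq_eq, K.nble_eq, K.bif_b, K.lall_eq, K.lany_eq, K.lmap_eq, K.lfilter_eq,
    K.llen_eq, K.lemp_eq, K.lsum_eq, K.lgetD_eq, K.lmem_eq, K.contains_eq, K.nodup_eq, K.lrange_eq,
    K.lapp_eq, K.lflat_eq, K.lfmap_eq, K.ltake_eq, K.lfoldl_eq, K.leq_eq, decide_eq_true_eq, ne_eq,
    decide_not, Bool.decide_and, Bool.decide_or, Bool.decide_eq_true, Bool.decide_eq_false,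
    Nat.succ_eq_add_one, Bool.beq_eq_decide_eq, bne, Bool.not_eq_true', Bool.or_eq_true,
    Bool.and_eq_true] <;> rfl

noncomputable def Wt_fl (W : FC7.Wt) (k : ℕ) (j : ℕ) : ℕ :=
  (Bool.rec (motive := fun _ => ℕ) (Bool.rec (motive := fun _ => ℕ) (FC7.Wt.lt W (K.Wt_prv W j))
    (Bool.rec (motive := fun _ => ℕ) (FC7.Wt.lt W (FC6.Sp.ρi (FC6.Stars.Q (FC7.Wt.Z W)) j))
    (FC7.Wt.lt W j) (FC6.Sp.rl (FC6.Stars.Q (FC7.Wt.Z W)) j)) (Nat.beq k (nat_lit 1))) (FC7.Wt.lt W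
    j) (K.bnot (FC7.Wt.ac W (FC6.Stars.ca (FC7.Wt.Z W) j))))

theorem Wt_fl_eq : @K.Wt_fl = @FC7.Wt.fl := by
  funext W k j
  simp only [K.Wt_fl, FC7.Wt.fl, K.band_eq, K.bor_eq, K.bnot_eq, K.beqB_eq, K.tbit_eq, K.kmax_eq,
    K.kmin_eq, K.nbeq_eq, K.nble_eq, K.bif_b, K.lall_eq, K.lany_eq, K.lmap_eq, K.lfilter_eq,
    K.llen_eq, K.lemp_eq, K.lsum_eq, K.lgetD_eq, K.lmem_eq, K.contains_eq, K.nodup_eq, K.lrange_eq,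
    K.lapp_eq, K.lflat_eq, K.lfmap_eq, K.ltake_eq, K.lfoldl_eq, K.leq_eq, decide_eq_true_eq, ne_eq,
    decide_not, Bool.decide_and, Bool.decide_or, Bool.decide_eq_true, Bool.decide_eq_false,
    Nat.succ_eq_add_one, Bool.beq_eq_decide_eq, bne, Bool.not_eq_true', Bool.or_eq_true,
    Bool.and_eq_true, K.Wt_prv_eq] <;> rfl

noncomputable def Wt_fc (W : FC7.Wt) (k : ℕ) (j : ℕ) : ℕ :=
  (Bool.rec (motive := fun _ => ℕ) (K.wb (K.Wt_fl W k j)) (Bool.rec (motive := fun _ => ℕ) (Bool.rec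
    (motive := fun _ => ℕ) (Bool.rec (motive := fun _ => ℕ) (nat_lit 2) (nat_lit 1) (Nat.ble
    (Nat.add (Nat.add (K.wa (K.Wt_fl W k j)) (K.wb (K.Wt_fl W k j))) (K.wc (K.Wt_fl W k j)))
    (nat_lit 2))) (nat_lit 3) (Nat.beq (Nat.add (Nat.add (K.wa (K.Wt_fl W k j)) (K.wb (K.Wt_fl W k
    j))) (K.wc (K.Wt_fl W k j))) (nat_lit 0))) (Bool.rec (motive := fun _ => ℕ) (nat_lit 0) (nat_lit
    2) (K.tbit (K.Wt_fl W k j) (nat_lit 10))) (K.uo (K.Wt_fl W k j))) (K.Wt_sol W k j))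

theorem Wt_fc_eq : @K.Wt_fc = @FC7.Wt.fc := by
  funext W k j
  simp only [K.Wt_fc, FC7.Wt.fc, K.band_eq, K.bor_eq, K.bnot_eq, K.beqB_eq, K.tbit_eq, K.kmax_eq,
    K.kmin_eq, K.nbeq_eq, K.nble_eq, K.bif_b, K.lall_eq, K.lany_eq, K.lmap_eq, K.lfilter_eq,
    K.llen_eq, K.lemp_eq, K.lsum_eq, K.lgetD_eq, K.lmem_eq, K.contains_eq, K.nodup_eq, K.lrange_eq,
    K.lapp_eq, K.lflat_eq, K.lfmap_eq, K.ltake_eq, K.lfoldl_eq, K.leq_eq, decide_eq_true_eq, ne_eq,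
    decide_not, Bool.decide_and, Bool.decide_or, Bool.decide_eq_true, Bool.decide_eq_false,
    Nat.succ_eq_add_one, Bool.beq_eq_decide_eq, bne, Bool.not_eq_true', Bool.or_eq_true,
    Bool.and_eq_true, K.Wt_sol_eq, K.uo_eq, K.Wt_fl_eq, K.wa_eq, K.wb_eq, K.wc_eq] <;> rfl

noncomputable def WF_fcl (W : FC7.WF) (i : ℕ) : ℕ :=
  (K.Wt_fc (FC7.WF.toWt W) (FC6.Sp.rk (FC6.Stars.Q (FC7.Wt.Z (FC7.WF.toWt W))) i) (FC6.Sp.rj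
    (FC6.Stars.Q (FC7.Wt.Z (FC7.WF.toWt W))) i))

theorem WF_fcl_eq : @K.WF_fcl = @FC7.WF.fcl := by
  funext W i
  simp only [K.WF_fcl, FC7.WF.fcl, K.band_eq, K.bor_eq, K.bnot_eq, K.beqB_eq, K.tbit_eq, K.kmax_eq,
    K.kmin_eq, K.nbeq_eq, K.nble_eq, K.bif_b, K.lall_eq, K.lany_eq, K.lmap_eq, K.lfilter_eq,
    K.llen_eq, K.lemp_eq, K.lsum_eq, K.lgetD_eq, K.lmem_eq, K.contains_eq, K.nodup_eq, K.lrange_eq,
    K.lapp_eq, K.lflat_eq, K.lfmap_eq, K.ltake_eq, K.lfoldl_eq, K.leq_eq, decide_eq_true_eq, ne_eq,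
    decide_not, Bool.decide_and, Bool.decide_or, Bool.decide_eq_true, Bool.decide_eq_false,
    Nat.succ_eq_add_one, Bool.beq_eq_decide_eq, bne, Bool.not_eq_true', Bool.or_eq_true,
    Bool.and_eq_true, K.Wt_fc_eq] <;> rfl

noncomputable def OD_rg (X : FC7.OD) (P : FC6.Pa) (i : ℕ) : Bool :=
  (K.band (Nat.beq (FC6.Pa.α P i) i) (FC7.OD.ro X i))

theorem OD_rg_eq : @K.OD_rg = @FC7.OD.rg := by
  funext X P i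
  simp only [K.OD_rg, FC7.OD.rg, K.band_eq, K.bor_eq, K.bnot_eq, K.beqB_eq, K.tbit_eq, K.kmax_eq,
    K.kmin_eq, K.nbeq_eq, K.nble_eq, K.bif_b, K.lall_eq, K.lany_eq, K.lmap_eq, K.lfilter_eq,
    K.llen_eq, K.lemp_eq, K.lsum_eq, K.lgetD_eq, K.lmem_eq, K.contains_eq, K.nodup_eq, K.lrange_eq,
    K.lapp_eq, K.lflat_eq, K.lfmap_eq, K.ltake_eq, K.lfoldl_eq, K.leq_eq, decide_eq_true_eq, ne_eq,
    decide_not, Bool.decide_and, Bool.decide_or, Bool.decide_eq_true, Bool.decide_eq_false,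
    Nat.succ_eq_add_one, Bool.beq_eq_decide_eq, bne, Bool.not_eq_true', Bool.or_eq_true,
    Bool.and_eq_true] <;> rfl

noncomputable def WF_chkD (W : FC7.WF) : Bool :=
  (K.allN (FC6.Pa.n (FC7.Fc.P (FC7.WF.F W))) (fun (i : ℕ) => (K.band (K.band (K.band (K.band (K.band
    (K.band (Bool.rec (motive := fun _ => Bool) (K.band (K.Wt_kn (FC7.WF.toWt W) (FC6.Sp.rk
    (FC6.Stars.Q (FC7.Wt.Z (FC7.WF.toWt W))) i) (FC6.Sp.rj (FC6.Stars.Q (FC7.Wt.Z (FC7.WF.toWt W)))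
    i)) (Nat.beq (FC6.Pa.u (FC7.Fc.P (FC7.WF.F W)) i) (K.Wt_un (FC7.WF.toWt W) (FC6.Sp.rk
    (FC6.Stars.Q (FC7.Wt.Z (FC7.WF.toWt W))) i) (FC6.Sp.rj (FC6.Stars.Q (FC7.Wt.Z (FC7.WF.toWt W)))
    i)))) (Nat.beq (FC6.Pa.u (FC7.Fc.P (FC7.WF.F W)) i) (nat_lit 0)) (FC7.Fc.uk (FC7.WF.F W) i))
    (Bool.rec (motive := fun _ => Bool) (K.band (K.bnot (K.Wt_lun (FC7.WF.toWt W) (FC6.Sp.rk
    (FC6.Stars.Q (FC7.Wt.Z (FC7.WF.toWt W))) i) (FC6.Sp.rj (FC6.Stars.Q (FC7.Wt.Z (FC7.WF.toWt W)))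
    i))) (K.beqB (FC7.OD.lb (FC7.Fc.O (FC7.WF.F W)) i) (K.Wt_lb (FC7.WF.toWt W) (FC6.Sp.rk
    (FC6.Stars.Q (FC7.Wt.Z (FC7.WF.toWt W))) i) (FC6.Sp.rj (FC6.Stars.Q (FC7.Wt.Z (FC7.WF.toWt W)))
    i)))) (K.band (K.band (K.bnot (FC7.OD.lb (FC7.Fc.O (FC7.WF.F W)) i)) (K.lmem i (FC7.XE.kd
    (FC7.Fc.X (FC7.WF.F W))))) (K.allN (FC6.Pa.n (FC7.Fc.P (FC7.WF.F W))) (fun (j : ℕ) => (K.bor
    (K.bor (K.bor (K.bnot (FC6.Pa.real (FC7.Fc.P (FC7.WF.F W)) j)) (K.lmem j (FC7.XE.kd (FC7.Fc.X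
    (FC7.WF.F W))))) (K.WF_dis W (FC6.Pa.l (FC7.Fc.P (FC7.WF.F W)) j) (FC6.Pa.l (FC7.Fc.P (FC7.WF.F
    W)) (FC6.Pa.φ (FC7.Fc.P (FC7.WF.F W)) i)))) (K.WF_dis W (FC6.Pa.l (FC7.Fc.P (FC7.WF.F W))
    (FC6.Pa.φ (FC7.Fc.P (FC7.WF.F W)) j)) (FC6.Pa.l (FC7.Fc.P (FC7.WF.F W)) i)))))) (FC7.Fc.lu
    (FC7.WF.F W) i))) (Nat.beq (FC7.OD.wt (FC7.Fc.O (FC7.WF.F W)) i) (Bool.rec (motive := fun _ =>
    ℕ) (nat_lit 0) (nat_lit 1) (FC7.OD.lb (FC7.Fc.O (FC7.WF.F W)) i)))) (K.bor (K.bnot (FC7.Fc.uk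
    (FC7.WF.F W) i)) (K.band (Nat.ble (Nat.succ (FC7.Fc.kr (FC7.WF.F W) i)) (FC6.Pa.n (FC7.Fc.P
    (FC7.WF.F W)))) (Nat.beq (FC7.XE.ce (FC7.Fc.X (FC7.WF.F W)) (FC7.Fc.kr (FC7.WF.F W) i))
    (FC7.XE.ce (FC7.Fc.X (FC7.WF.F W)) i))))) (K.bor (K.bnot (FC7.Fc.op (FC7.WF.F W) i)) (Nat.beq
    (K.WF_fcl W i) (nat_lit 3)))) (K.bor (K.bor (K.bnot (FC7.Fc.tw (FC7.WF.F W) i)) (Nat.beq
    (K.WF_fcl W i) (nat_lit 3))) (Nat.beq (K.WF_fcl W i) (nat_lit 1)))) (K.bor (K.bnot (K.OD_rg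
    (FC7.Fc.O (FC7.WF.F W)) (FC7.Fc.P (FC7.WF.F W)) i)) (K.band (FC6.Pa.real (FC7.Fc.P (FC7.WF.F W))
    i) (K.allN (FC6.Pa.n (FC7.Fc.P (FC7.WF.F W))) (fun (j : ℕ) => (K.bor (K.bor (K.bnot (FC6.Pa.real
    (FC7.Fc.P (FC7.WF.F W)) j)) (K.WF_dis W (FC6.Pa.l (FC7.Fc.P (FC7.WF.F W)) j) (FC6.Pa.l (FC7.Fc.P
    (FC7.WF.F W)) (FC6.Pa.φ (FC7.Fc.P (FC7.WF.F W)) i)))) (K.WF_dis W (FC6.Pa.l (FC7.Fc.P (FC7.WF.F
    W)) (FC6.Pa.φ (FC7.Fc.P (FC7.WF.F W)) j)) (FC6.Pa.l (FC7.Fc.P (FC7.WF.F W)) i))))))))))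

theorem WF_chkD_eq : @K.WF_chkD = @FC7.WF.chkD := by
  funext W
  simp only [K.WF_chkD, FC7.WF.chkD, K.band_eq, K.bor_eq, K.bnot_eq, K.beqB_eq, K.tbit_eq,
    K.kmax_eq, K.kmin_eq, K.nbeq_eq, K.nble_eq, K.bif_b, K.lall_eq, K.lany_eq, K.lmap_eq,
    K.lfilter_eq, K.llen_eq, K.lemp_eq, K.lsum_eq, K.lgetD_eq, K.lmem_eq, K.contains_eq, K.nodup_eq,
    K.lrange_eq, K.lapp_eq, K.lflat_eq, K.lfmap_eq, K.ltake_eq, K.lfoldl_eq, K.leq_eq,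
    decide_eq_true_eq, ne_eq, decide_not, Bool.decide_and, Bool.decide_or, Bool.decide_eq_true,
    Bool.decide_eq_false, Nat.succ_eq_add_one, Bool.beq_eq_decide_eq, bne, Bool.not_eq_true',
    Bool.or_eq_true, Bool.and_eq_true, K.allN_eq, K.Wt_kn_eq, K.Wt_un_eq, K.WF_dis_eq, K.Wt_lun_eq,
    K.Wt_lb_eq, K.WF_fcl_eq, K.OD_rg_eq] <;> rfl

noncomputable def lA (l : ℕ) : ℕ :=
  (Nat.mod l (nat_lit 4))

theorem lA_eq : @K.lA = @FC7.lA := by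
  funext l
  simp only [K.lA, FC7.lA, K.band_eq, K.bor_eq, K.bnot_eq, K.beqB_eq, K.tbit_eq, K.kmax_eq,
    K.kmin_eq, K.nbeq_eq, K.nble_eq, K.bif_b, K.lall_eq, K.lany_eq, K.lmap_eq, K.lfilter_eq,
    K.llen_eq, K.lemp_eq, K.lsum_eq, K.lgetD_eq, K.lmem_eq, K.contains_eq, K.nodup_eq, K.lrange_eq,
    K.lapp_eq, K.lflat_eq, K.lfmap_eq, K.ltake_eq, K.lfoldl_eq, K.leq_eq, decide_eq_true_eq, ne_eq,
    decide_not, Bool.decide_and, Bool.decide_or, Bool.decide_eq_true, Bool.decide_eq_false,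
    Nat.succ_eq_add_one, Bool.beq_eq_decide_eq, bne, Bool.not_eq_true', Bool.or_eq_true,
    Bool.and_eq_true] <;> rfl

noncomputable def nu3 (wd : List ℕ) : Bool :=
  (K.lall wd (fun (l : ℕ) => (K.bnot (Nat.beq (K.lA l) (nat_lit 3)))))

theorem nu3_eq : @K.nu3 = @FC7.nu3 := by
  funext wd
  simp only [K.nu3, FC7.nu3, K.band_eq, K.bor_eq, K.bnot_eq, K.beqB_eq, K.tbit_eq, K.kmax_eq,
    K.kmin_eq, K.nbeq_eq, K.nble_eq, K.bif_b, K.lall_eq, K.lany_eq, K.lmap_eq, K.lfilter_eq,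
    K.llen_eq, K.lemp_eq, K.lsum_eq, K.lgetD_eq, K.lmem_eq, K.contains_eq, K.nodup_eq, K.lrange_eq,
    K.lapp_eq, K.lflat_eq, K.lfmap_eq, K.ltake_eq, K.lfoldl_eq, K.leq_eq, decide_eq_true_eq, ne_eq,
    decide_not, Bool.decide_and, Bool.decide_or, Bool.decide_eq_true, Bool.decide_eq_false,
    Nat.succ_eq_add_one, Bool.beq_eq_decide_eq, bne, Bool.not_eq_true', Bool.or_eq_true,
    Bool.and_eq_true, K.lA_eq] <;> rfl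

noncomputable def lS (l : ℕ) : Bool :=
  (K.tbit l (nat_lit 8))

theorem lS_eq : @K.lS = @FC7.lS := by
  funext l
  simp only [K.lS, FC7.lS, K.band_eq, K.bor_eq, K.bnot_eq, K.beqB_eq, K.tbit_eq, K.kmax_eq,
    K.kmin_eq, K.nbeq_eq, K.nble_eq, K.bif_b, K.lall_eq, K.lany_eq, K.lmap_eq, K.lfilter_eq,
    K.llen_eq, K.lemp_eq, K.lsum_eq, K.lgetD_eq, K.lmem_eq, K.contains_eq, K.nodup_eq, K.lrange_eq,
    K.lapp_eq, K.lflat_eq, K.lfmap_eq, K.ltake_eq, K.lfoldl_eq, K.leq_eq, decide_eq_true_eq, ne_eq,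
    decide_not, Bool.decide_and, Bool.decide_or, Bool.decide_eq_true, Bool.decide_eq_false,
    Nat.succ_eq_add_one, Bool.beq_eq_decide_eq, bne, Bool.not_eq_true', Bool.or_eq_true,
    Bool.and_eq_true] <;> rfl

noncomputable def dgw (wd : List ℕ) : ℕ :=
  (K.lsum (K.lmap (fun (l : ℕ) => (Nat.add (Nat.add (nat_lit 1) (K.lA l)) (Bool.rec (motive := fun _
    => ℕ) (nat_lit 0) (nat_lit 1) (K.lS l)))) wd))

theorem dgw_eq : @K.dgw = @FC7.dgw := by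
  funext wd
  simp only [K.dgw, FC7.dgw, K.band_eq, K.bor_eq, K.bnot_eq, K.beqB_eq, K.tbit_eq, K.kmax_eq,
    K.kmin_eq, K.nbeq_eq, K.nble_eq, K.bif_b, K.lall_eq, K.lany_eq, K.lmap_eq, K.lfilter_eq,
    K.llen_eq, K.lemp_eq, K.lsum_eq, K.lgetD_eq, K.lmem_eq, K.contains_eq, K.nodup_eq, K.lrange_eq,
    K.lapp_eq, K.lflat_eq, K.lfmap_eq, K.ltake_eq, K.lfoldl_eq, K.leq_eq, decide_eq_true_eq, ne_eq,
    decide_not, Bool.decide_and, Bool.decide_or, Bool.decide_eq_true, Bool.decide_eq_false,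
    Nat.succ_eq_add_one, Bool.beq_eq_decide_eq, bne, Bool.not_eq_true', Bool.or_eq_true,
    Bool.and_eq_true, K.lA_eq, K.lS_eq] <;> rfl

noncomputable def WF_chkL (W : FC7.WF) (Δ : ℕ) : Bool :=
  (K.allN (FC7.OD.m (FC7.Fc.O (FC7.WF.F W))) (fun (a : ℕ) => (K.bor (Nat.beq (FC7.OD.sl (FC7.Fc.O
    (FC7.WF.F W)) a) (nat_lit 0)) (K.band (K.band (K.band (Nat.ble (Nat.succ (FC7.WF.sc W a))
    (FC6.Sp.ns (FC6.Stars.Q (FC7.Wt.Z (FC7.WF.toWt W))))) (Nat.beq (K.WF_hl W (FC7.WF.sc W a)) a))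
    (K.nu3 (FC7.WF.sw W a))) (Nat.ble (Nat.add (K.dgw (FC7.WF.sw W a)) (FC7.OD.sl (FC7.Fc.O
    (FC7.WF.F W)) a)) Δ)))))

theorem WF_chkL_eq : @K.WF_chkL = @FC7.WF.chkL := by
  funext W Δ
  simp only [K.WF_chkL, FC7.WF.chkL, K.band_eq, K.bor_eq, K.bnot_eq, K.beqB_eq, K.tbit_eq,
    K.kmax_eq, K.kmin_eq, K.nbeq_eq, K.nble_eq, K.bif_b, K.lall_eq, K.lany_eq, K.lmap_eq,
    K.lfilter_eq, K.llen_eq, K.lemp_eq, K.lsum_eq, K.lgetD_eq, K.lmem_eq, K.contains_eq, K.nodup_eq,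
    K.lrange_eq, K.lapp_eq, K.lflat_eq, K.lfmap_eq, K.ltake_eq, K.lfoldl_eq, K.leq_eq,
    decide_eq_true_eq, ne_eq, decide_not, Bool.decide_and, Bool.decide_or, Bool.decide_eq_true,
    Bool.decide_eq_false, Nat.succ_eq_add_one, Bool.beq_eq_decide_eq, bne, Bool.not_eq_true',
    Bool.or_eq_true, Bool.and_eq_true, K.allN_eq, K.WF_hl_eq, K.nu3_eq, K.dgw_eq] <;> rfl

noncomputable def WF_hub (W : FC7.WF) (b : ℕ) : Bool :=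
  (K.band (K.band (Nat.ble (FC7.OD.m (FC7.Fc.O (FC7.WF.F W))) b) (Nat.ble (Nat.succ b) (FC7.Fc.nl
    (FC7.WF.F W)))) (K.allN (FC7.Fc.nl (FC7.WF.F W)) (fun (a : ℕ) => (K.bor (Nat.beq a b) (K.WF_dis
    W a b)))))

theorem WF_hub_eq : @K.WF_hub = @FC7.WF.hub := by
  funext W b
  simp only [K.WF_hub, FC7.WF.hub, K.band_eq, K.bor_eq, K.bnot_eq, K.beqB_eq, K.tbit_eq, K.kmax_eq,
    K.kmin_eq, K.nbeq_eq, K.nble_eq, K.bif_b, K.lall_eq, K.lany_eq, K.lmap_eq, K.lfilter_eq,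
    K.llen_eq, K.lemp_eq, K.lsum_eq, K.lgetD_eq, K.lmem_eq, K.contains_eq, K.nodup_eq, K.lrange_eq,
    K.lapp_eq, K.lflat_eq, K.lfmap_eq, K.ltake_eq, K.lfoldl_eq, K.leq_eq, decide_eq_true_eq, ne_eq,
    decide_not, Bool.decide_and, Bool.decide_or, Bool.decide_eq_true, Bool.decide_eq_false,
    Nat.succ_eq_add_one, Bool.beq_eq_decide_eq, bne, Bool.not_eq_true', Bool.or_eq_true,
    Bool.and_eq_true, K.allN_eq, K.WF_dis_eq] <;> rfl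

noncomputable def WF_chkP (W : FC7.WF) : Bool :=
  (K.lall (FC7.XE.ar (FC7.Fc.X (FC7.WF.F W))) (fun (p : ℕ × ℕ) => (K.bor (K.bnot (FC7.XE.sp
    (FC7.Fc.X (FC7.WF.F W)) (Prod.fst p))) (K.band (K.band (K.band (Nat.ble (Nat.succ (Prod.fst p))
    (FC6.Pa.n (FC7.Fc.P (FC7.WF.F W)))) (Nat.ble (Nat.succ (Prod.snd p)) (FC6.Pa.n (FC7.Fc.P
    (FC7.WF.F W))))) (Nat.beq (FC6.Pa.α (FC7.Fc.P (FC7.WF.F W)) (Prod.fst p)) (Prod.fst p))) (K.bor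
    (K.band (FC6.Pa.real (FC7.Fc.P (FC7.WF.F W)) (Prod.fst p)) (Nat.beq (Prod.fst p) (Prod.snd p)))
    (K.band (K.band (K.bnot (FC6.Pa.real (FC7.Fc.P (FC7.WF.F W)) (Prod.fst p))) (K.WF_hub W
    (FC6.Pa.l (FC7.Fc.P (FC7.WF.F W)) (FC6.Pa.φ (FC7.Fc.P (FC7.WF.F W)) (Prod.fst p))))) (K.allN
    (FC6.Pa.n (FC7.Fc.P (FC7.WF.F W))) (fun (j : ℕ) => (K.bor (K.bor (K.bnot (Nat.beq (FC6.Pa.α
    (FC7.Fc.P (FC7.WF.F W)) j) j)) (K.bnot (Nat.beq (FC6.Pa.l (FC7.Fc.P (FC7.WF.F W)) j) (FC6.Pa.l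
    (FC7.Fc.P (FC7.WF.F W)) (FC6.Pa.φ (FC7.Fc.P (FC7.WF.F W)) (Prod.fst p)))))) (Nat.beq j (Prod.snd
    p)))))))))))

theorem WF_chkP_eq : @K.WF_chkP = @FC7.WF.chkP := by
  funext W
  simp only [K.WF_chkP, FC7.WF.chkP, K.band_eq, K.bor_eq, K.bnot_eq, K.beqB_eq, K.tbit_eq,
    K.kmax_eq, K.kmin_eq, K.nbeq_eq, K.nble_eq, K.bif_b, K.lall_eq, K.lany_eq, K.lmap_eq,
    K.lfilter_eq, K.llen_eq, K.lemp_eq, K.lsum_eq, K.lgetD_eq, K.lmem_eq, K.contains_eq, K.nodup_eq,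
    K.lrange_eq, K.lapp_eq, K.lflat_eq, K.lfmap_eq, K.ltake_eq, K.lfoldl_eq, K.leq_eq,
    decide_eq_true_eq, ne_eq, decide_not, Bool.decide_and, Bool.decide_or, Bool.decide_eq_true,
    Bool.decide_eq_false, Nat.succ_eq_add_one, Bool.beq_eq_decide_eq, bne, Bool.not_eq_true',
    Bool.or_eq_true, Bool.and_eq_true, K.WF_hub_eq, K.allN_eq] <;> rfl

noncomputable def sld (P : FC6.Pa) (i : ℕ) : Bool :=
  (K.band (K.band (FC6.Pa.real P i) (FC6.Pa.real P (FC6.Pa.φ P i))) (FC6.Pa.real P (FC6.Pa.φ P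
    (FC6.Pa.φ P i))))

theorem sld_eq : @K.sld = @FC7.sld := by
  funext P i
  simp only [K.sld, FC7.sld, K.band_eq, K.bor_eq, K.bnot_eq, K.beqB_eq, K.tbit_eq, K.kmax_eq,
    K.kmin_eq, K.nbeq_eq, K.nble_eq, K.bif_b, K.lall_eq, K.lany_eq, K.lmap_eq, K.lfilter_eq,
    K.llen_eq, K.lemp_eq, K.lsum_eq, K.lgetD_eq, K.lmem_eq, K.contains_eq, K.nodup_eq, K.lrange_eq,
    K.lapp_eq, K.lflat_eq, K.lfmap_eq, K.ltake_eq, K.lfoldl_eq, K.leq_eq, decide_eq_true_eq, ne_eq,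
    decide_not, Bool.decide_and, Bool.decide_or, Bool.decide_eq_true, Bool.decide_eq_false,
    Nat.succ_eq_add_one, Bool.beq_eq_decide_eq, bne, Bool.not_eq_true', Bool.or_eq_true,
    Bool.and_eq_true] <;> rfl

noncomputable def WF_hb (W : FC7.WF) (i : ℕ) : ℕ :=
  (Bool.rec (motive := fun _ => ℕ) (Bool.rec (motive := fun _ => ℕ) (FC6.Pa.l (FC7.Fc.P (FC7.WF.F
    W)) (FC6.Pa.φ (FC7.Fc.P (FC7.WF.F W)) (FC6.Pa.φ (FC7.Fc.P (FC7.WF.F W)) i))) (FC6.Pa.l (FC7.Fc.P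
    (FC7.WF.F W)) (FC6.Pa.φ (FC7.Fc.P (FC7.WF.F W)) i)) (Nat.ble (FC7.OD.m (FC7.Fc.O (FC7.WF.F W)))
    (FC6.Pa.l (FC7.Fc.P (FC7.WF.F W)) (FC6.Pa.φ (FC7.Fc.P (FC7.WF.F W)) i)))) (FC6.Pa.l (FC7.Fc.P
    (FC7.WF.F W)) i) (Nat.ble (FC7.OD.m (FC7.Fc.O (FC7.WF.F W))) (FC6.Pa.l (FC7.Fc.P (FC7.WF.F W))
    i)))

theorem WF_hb_eq : @K.WF_hb = @FC7.WF.hb := by
  funext W i
  simp only [K.WF_hb, FC7.WF.hb, K.band_eq, K.bor_eq, K.bnot_eq, K.beqB_eq, K.tbit_eq, K.kmax_eq,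
    K.kmin_eq, K.nbeq_eq, K.nble_eq, K.bif_b, K.lall_eq, K.lany_eq, K.lmap_eq, K.lfilter_eq,
    K.llen_eq, K.lemp_eq, K.lsum_eq, K.lgetD_eq, K.lmem_eq, K.contains_eq, K.nodup_eq, K.lrange_eq,
    K.lapp_eq, K.lflat_eq, K.lfmap_eq, K.ltake_eq, K.lfoldl_eq, K.leq_eq, decide_eq_true_eq, ne_eq,
    decide_not, Bool.decide_and, Bool.decide_or, Bool.decide_eq_true, Bool.decide_eq_false,
    Nat.succ_eq_add_one, Bool.beq_eq_decide_eq, bne, Bool.not_eq_true', Bool.or_eq_true,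
    Bool.and_eq_true] <;> rfl

noncomputable def inb (P : FC6.Pa) (b : ℕ) (j : ℕ) : Bool :=
  (K.bor (K.bor (Nat.beq (FC6.Pa.l P j) b) (Nat.beq (FC6.Pa.l P (FC6.Pa.φ P j)) b)) (Nat.beq
    (FC6.Pa.l P (FC6.Pa.φ P (FC6.Pa.φ P j))) b))

theorem inb_eq : @K.inb = @FC7.inb := by
  funext P b j
  simp only [K.inb, FC7.inb, K.band_eq, K.bor_eq, K.bnot_eq, K.beqB_eq, K.tbit_eq, K.kmax_eq,
    K.kmin_eq, K.nbeq_eq, K.nble_eq, K.bif_b, K.lall_eq, K.lany_eq, K.lmap_eq, K.lfilter_eq,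
    K.llen_eq, K.lemp_eq, K.lsum_eq, K.lgetD_eq, K.lmem_eq, K.contains_eq, K.nodup_eq, K.lrange_eq,
    K.lapp_eq, K.lflat_eq, K.lfmap_eq, K.ltake_eq, K.lfoldl_eq, K.leq_eq, decide_eq_true_eq, ne_eq,
    decide_not, Bool.decide_and, Bool.decide_or, Bool.decide_eq_true, Bool.decide_eq_false,
    Nat.succ_eq_add_one, Bool.beq_eq_decide_eq, bne, Bool.not_eq_true', Bool.or_eq_true,
    Bool.and_eq_true] <;> rfl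

noncomputable def ifa (P : FC6.Pa) (b : ℕ) (i : ℕ) (k : ℕ) : Bool :=
  (Bool.rec (motive := fun _ => Bool) (K.inb P b k) (K.bor (K.bor (Nat.beq k i) (Nat.beq k (FC6.Pa.φ
    P i))) (Nat.beq k (FC6.Pa.φ P (FC6.Pa.φ P i)))) (K.sld P i))

theorem ifa_eq : @K.ifa = @FC7.ifa := by
  funext P b i k
  simp only [K.ifa, FC7.ifa, K.band_eq, K.bor_eq, K.bnot_eq, K.beqB_eq, K.tbit_eq, K.kmax_eq,
    K.kmin_eq, K.nbeq_eq, K.nble_eq, K.bif_b, K.lall_eq, K.lany_eq, K.lmap_eq, K.lfilter_eq,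
    K.llen_eq, K.lemp_eq, K.lsum_eq, K.lgetD_eq, K.lmem_eq, K.contains_eq, K.nodup_eq, K.lrange_eq,
    K.lapp_eq, K.lflat_eq, K.lfmap_eq, K.ltake_eq, K.lfoldl_eq, K.leq_eq, decide_eq_true_eq, ne_eq,
    decide_not, Bool.decide_and, Bool.decide_or, Bool.decide_eq_true, Bool.decide_eq_false,
    Nat.succ_eq_add_one, Bool.beq_eq_decide_eq, bne, Bool.not_eq_true', Bool.or_eq_true,
    Bool.and_eq_true, K.sld_eq, K.inb_eq] <;> rfl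

noncomputable def WF_fin (W : FC7.WF) (i : ℕ) (k : ℕ) : Bool :=
  (K.ifa (FC7.Fc.P (FC7.WF.F W)) (K.WF_hb W i) i k)

theorem WF_fin_eq : @K.WF_fin = @FC7.WF.fin := by
  funext W i k
  simp only [K.WF_fin, FC7.WF.fin, K.band_eq, K.bor_eq, K.bnot_eq, K.beqB_eq, K.tbit_eq, K.kmax_eq,
    K.kmin_eq, K.nbeq_eq, K.nble_eq, K.bif_b, K.lall_eq, K.lany_eq, K.lmap_eq, K.lfilter_eq,
    K.llen_eq, K.lemp_eq, K.lsum_eq, K.lgetD_eq, K.lmem_eq, K.contains_eq, K.nodup_eq, K.lrange_eq,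
    K.lapp_eq, K.lflat_eq, K.lfmap_eq, K.ltake_eq, K.lfoldl_eq, K.leq_eq, decide_eq_true_eq, ne_eq,
    decide_not, Bool.decide_and, Bool.decide_or, Bool.decide_eq_true, Bool.decide_eq_false,
    Nat.succ_eq_add_one, Bool.beq_eq_decide_eq, bne, Bool.not_eq_true', Bool.or_eq_true,
    Bool.and_eq_true, K.ifa_eq, K.WF_hb_eq] <;> rfl

noncomputable def WF_one (W : FC7.WF) (q : ℕ) (i : ℕ) : Bool :=
  (K.band (K.band (Nat.ble (Nat.succ i) (FC6.Pa.n (FC7.Fc.P (FC7.WF.F W)))) (K.bor (K.sld (FC7.Fc.P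
    (FC7.WF.F W)) i) (K.band (K.WF_hub W (K.WF_hb W i)) (K.inb (FC7.Fc.P (FC7.WF.F W)) (K.WF_hb W i)
    i)))) (K.allN (FC6.Pa.n (FC7.Fc.P (FC7.WF.F W))) (fun (j : ℕ) => (K.bor (K.bnot (K.WF_fin W i
    j)) (K.band (K.bor (K.bor (K.bnot (Nat.beq (FC6.Pa.α (FC7.Fc.P (FC7.WF.F W)) j) j)) (FC6.Pa.real
    (FC7.Fc.P (FC7.WF.F W)) j)) (Nat.beq (FC7.OD.pc (FC7.Fc.O (FC7.WF.F W)) j) q)) (K.bor (K.bnot
    (FC7.Fc.uk (FC7.WF.F W) j)) (Nat.beq (FC7.OD.pc (FC7.Fc.O (FC7.WF.F W)) (FC7.Fc.kp (FC7.WF.F W)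
    j)) q)))))))

theorem WF_one_eq : @K.WF_one = @FC7.WF.one := by
  funext W q i
  simp only [K.WF_one, FC7.WF.one, K.band_eq, K.bor_eq, K.bnot_eq, K.beqB_eq, K.tbit_eq, K.kmax_eq,
    K.kmin_eq, K.nbeq_eq, K.nble_eq, K.bif_b, K.lall_eq, K.lany_eq, K.lmap_eq, K.lfilter_eq,
    K.llen_eq, K.lemp_eq, K.lsum_eq, K.lgetD_eq, K.lmem_eq, K.contains_eq, K.nodup_eq, K.lrange_eq,
    K.lapp_eq, K.lflat_eq, K.lfmap_eq, K.ltake_eq, K.lfoldl_eq, K.leq_eq, decide_eq_true_eq, ne_eq,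
    decide_not, Bool.decide_and, Bool.decide_or, Bool.decide_eq_true, Bool.decide_eq_false,
    Nat.succ_eq_add_one, Bool.beq_eq_decide_eq, bne, Bool.not_eq_true', Bool.or_eq_true,
    Bool.and_eq_true, K.sld_eq, K.WF_hub_eq, K.WF_hb_eq, K.inb_eq, K.allN_eq, K.WF_fin_eq] <;> rfl

noncomputable def WF_clo (W : FC7.WF) (q : ℕ) (i : ℕ) : Bool :=
  (K.allN (FC6.Pa.n (FC7.Fc.P (FC7.WF.F W))) (fun (j : ℕ) => (K.band (K.band (Nat.beq (FC7.OD.pc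
    (FC7.Fc.O (FC7.WF.F W)) (FC6.Pa.φ (FC7.Fc.P' (FC7.WF.F W)) j)) (FC7.OD.pc (FC7.Fc.O (FC7.WF.F
    W)) j)) (K.bor (K.bor (Nat.beq (FC6.Pa.α (FC7.Fc.P (FC7.WF.F W)) j) j) (FC6.Pa.real (FC7.Fc.P'
    (FC7.WF.F W)) j)) (Nat.beq (FC7.OD.pc (FC7.Fc.O (FC7.WF.F W)) (FC6.Pa.α (FC7.Fc.P (FC7.WF.F W))
    j)) (FC7.OD.pc (FC7.Fc.O (FC7.WF.F W)) j)))) (K.bor (K.bor (K.bor (K.bnot (Nat.beq (FC6.Pa.α
    (FC7.Fc.P (FC7.WF.F W)) j) j)) (FC6.Pa.real (FC7.Fc.P (FC7.WF.F W)) j)) (K.bnot (Nat.beq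
    (FC7.OD.pc (FC7.Fc.O (FC7.WF.F W)) j) q))) (K.inb (FC7.Fc.P (FC7.WF.F W)) (K.WF_hb W i) j)))))

theorem WF_clo_eq : @K.WF_clo = @FC7.WF.clo := by
  funext W q i
  simp only [K.WF_clo, FC7.WF.clo, K.band_eq, K.bor_eq, K.bnot_eq, K.beqB_eq, K.tbit_eq, K.kmax_eq,
    K.kmin_eq, K.nbeq_eq, K.nble_eq, K.bif_b, K.lall_eq, K.lany_eq, K.lmap_eq, K.lfilter_eq,
    K.llen_eq, K.lemp_eq, K.lsum_eq, K.lgetD_eq, K.lmem_eq, K.contains_eq, K.nodup_eq, K.lrange_eq,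
    K.lapp_eq, K.lflat_eq, K.lfmap_eq, K.ltake_eq, K.lfoldl_eq, K.leq_eq, decide_eq_true_eq, ne_eq,
    decide_not, Bool.decide_and, Bool.decide_or, Bool.decide_eq_true, Bool.decide_eq_false,
    Nat.succ_eq_add_one, Bool.beq_eq_decide_eq, bne, Bool.not_eq_true', Bool.or_eq_true,
    Bool.and_eq_true, K.allN_eq, K.inb_eq, K.WF_hb_eq] <;> rfl

noncomputable def WF_ku (W : FC7.WF) (i : ℕ) : ℕ :=
  (K.sumN (FC6.Pa.n (FC7.Fc.P (FC7.WF.F W))) (fun (j : ℕ) => (Bool.rec (motive := fun _ => ℕ)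
    (nat_lit 0) (FC6.Pa.u (FC7.Fc.P (FC7.WF.F W)) j) (K.WF_fin W i j))))

theorem WF_ku_eq : @K.WF_ku = @FC7.WF.ku := by
  funext W i
  simp only [K.WF_ku, FC7.WF.ku, K.band_eq, K.bor_eq, K.bnot_eq, K.beqB_eq, K.tbit_eq, K.kmax_eq,
    K.kmin_eq, K.nbeq_eq, K.nble_eq, K.bif_b, K.lall_eq, K.lany_eq, K.lmap_eq, K.lfilter_eq,
    K.llen_eq, K.lemp_eq, K.lsum_eq, K.lgetD_eq, K.lmem_eq, K.contains_eq, K.nodup_eq, K.lrange_eq,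
    K.lapp_eq, K.lflat_eq, K.lfmap_eq, K.ltake_eq, K.lfoldl_eq, K.leq_eq, decide_eq_true_eq, ne_eq,
    decide_not, Bool.decide_and, Bool.decide_or, Bool.decide_eq_true, Bool.decide_eq_false,
    Nat.succ_eq_add_one, Bool.beq_eq_decide_eq, bne, Bool.not_eq_true', Bool.or_eq_true,
    Bool.and_eq_true, K.sumN_eq, K.WF_fin_eq] <;> rfl

noncomputable def Fc_un (F : FC7.Fc) (i : ℕ) : Bool :=
  (K.band (K.band (FC6.Pa.real (FC7.Fc.P F) i) (Nat.beq (FC6.Pa.l (FC7.Fc.P' F) i) (FC6.Pa.l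
    (FC7.Fc.P F) i))) (Nat.beq (FC6.Pa.l (FC7.Fc.P' F) (FC6.Pa.φ (FC7.Fc.P' F) i)) (FC6.Pa.l
    (FC7.Fc.P F) (FC6.Pa.φ (FC7.Fc.P F) i))))

theorem Fc_un_eq : @K.Fc_un = @FC7.Fc.un := by
  funext F i
  simp only [K.Fc_un, FC7.Fc.un, K.band_eq, K.bor_eq, K.bnot_eq, K.beqB_eq, K.tbit_eq, K.kmax_eq,
    K.kmin_eq, K.nbeq_eq, K.nble_eq, K.bif_b, K.lall_eq, K.lany_eq, K.lmap_eq, K.lfilter_eq,
    K.llen_eq, K.lemp_eq, K.lsum_eq, K.lgetD_eq, K.lmem_eq, K.contains_eq, K.nodup_eq, K.lrange_eq,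
    K.lapp_eq, K.lflat_eq, K.lfmap_eq, K.ltake_eq, K.lfoldl_eq, K.leq_eq, decide_eq_true_eq, ne_eq,
    decide_not, Bool.decide_and, Bool.decide_or, Bool.decide_eq_true, Bool.decide_eq_false,
    Nat.succ_eq_add_one, Bool.beq_eq_decide_eq, bne, Bool.not_eq_true', Bool.or_eq_true,
    Bool.and_eq_true] <;> rfl

noncomputable def WF_off (W : FC7.WF) (a : ℕ) (b : ℕ) : Bool :=
  (K.lany (FC7.WF.oq W) (fun (q : ℕ × ℕ) => (K.band (Nat.beq (K.WF_hl W (Prod.fst q)) a) (Nat.beq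
    (K.WF_hl W (Prod.snd q)) b))))

theorem WF_off_eq : @K.WF_off = @FC7.WF.off := by
  funext W a b
  simp only [K.WF_off, FC7.WF.off, K.band_eq, K.bor_eq, K.bnot_eq, K.beqB_eq, K.tbit_eq, K.kmax_eq,
    K.kmin_eq, K.nbeq_eq, K.nble_eq, K.bif_b, K.lall_eq, K.lany_eq, K.lmap_eq, K.lfilter_eq,
    K.llen_eq, K.lemp_eq, K.lsum_eq, K.lgetD_eq, K.lmem_eq, K.contains_eq, K.nodup_eq, K.lrange_eq,
    K.lapp_eq, K.lflat_eq, K.lfmap_eq, K.ltake_eq, K.lfoldl_eq, K.leq_eq, decide_eq_true_eq, ne_eq,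
    decide_not, Bool.decide_and, Bool.decide_or, Bool.decide_eq_true, Bool.decide_eq_false,
    Nat.succ_eq_add_one, Bool.beq_eq_decide_eq, bne, Bool.not_eq_true', Bool.or_eq_true,
    Bool.and_eq_true, K.WF_hl_eq] <;> rfl

noncomputable def WF_t4a (W : FC7.WF) (q : ℕ) (i : ℕ) : Bool :=
  (K.band (Nat.beq (K.WF_ku W i) (nat_lit 0)) (K.allN (FC6.Pa.n (FC7.Fc.P (FC7.WF.F W))) (fun (j :
    ℕ) => (K.bor (K.bor (K.bor (K.bor (K.bor (K.bor (K.bnot (Nat.beq (FC7.OD.pc (FC7.Fc.O (FC7.WF.F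
    W)) j) q)) (K.bnot (FC6.Pa.real (FC7.Fc.P' (FC7.WF.F W)) j))) (Nat.ble (Nat.succ (FC6.Pa.l
    (FC7.Fc.P' (FC7.WF.F W)) j)) (FC7.OD.x (FC7.Fc.O (FC7.WF.F W))))) (Nat.ble (Nat.succ (FC6.Pa.l
    (FC7.Fc.P' (FC7.WF.F W)) (FC6.Pa.φ (FC7.Fc.P' (FC7.WF.F W)) j))) (FC7.OD.x (FC7.Fc.O (FC7.WF.F
    W))))) (K.band (K.Fc_un (FC7.WF.F W) j) (K.inb (FC7.Fc.P (FC7.WF.F W)) (K.WF_hb W i) j)))
    (K.WF_off W (FC6.Pa.l (FC7.Fc.P' (FC7.WF.F W)) j) (K.WF_hb W i))) (K.WF_off W (FC6.Pa.l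
    (FC7.Fc.P' (FC7.WF.F W)) (FC6.Pa.φ (FC7.Fc.P' (FC7.WF.F W)) j)) (K.WF_hb W i))))))

theorem WF_t4a_eq : @K.WF_t4a = @FC7.WF.t4a := by
  funext W q i
  simp only [K.WF_t4a, FC7.WF.t4a, K.band_eq, K.bor_eq, K.bnot_eq, K.beqB_eq, K.tbit_eq, K.kmax_eq,
    K.kmin_eq, K.nbeq_eq, K.nble_eq, K.bif_b, K.lall_eq, K.lany_eq, K.lmap_eq, K.lfilter_eq,
    K.llen_eq, K.lemp_eq, K.lsum_eq, K.lgetD_eq, K.lmem_eq, K.contains_eq, K.nodup_eq, K.lrange_eq,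
    K.lapp_eq, K.lflat_eq, K.lfmap_eq, K.ltake_eq, K.lfoldl_eq, K.leq_eq, decide_eq_true_eq, ne_eq,
    decide_not, Bool.decide_and, Bool.decide_or, Bool.decide_eq_true, Bool.decide_eq_false,
    Nat.succ_eq_add_one, Bool.beq_eq_decide_eq, bne, Bool.not_eq_true', Bool.or_eq_true,
    Bool.and_eq_true, K.WF_ku_eq, K.allN_eq, K.Fc_un_eq, K.inb_eq, K.WF_hb_eq, K.WF_off_eq] <;> rfl

noncomputable def WF_okz (W : FC7.WF) (b : ℕ) (c : ℕ) (z : ℕ) : Bool :=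
  (K.bor (K.bor (Nat.ble (Nat.succ z) (FC7.OD.x (FC7.Fc.O (FC7.WF.F W)))) (K.WF_off W z b)) (K.bnot
    (K.allN (FC6.Pa.n (FC7.Fc.P (FC7.WF.F W))) (fun (t : ℕ) => (K.bnot (K.band (K.band (FC6.Pa.real
    (FC7.Fc.P (FC7.WF.F W)) t) (K.inb (FC7.Fc.P (FC7.WF.F W)) b t)) (K.bor (K.band (Nat.beq
    (FC6.Pa.l (FC7.Fc.P (FC7.WF.F W)) t) (FC6.Pa.l (FC7.Fc.P (FC7.WF.F W)) c)) (Nat.beq (FC6.Pa.l
    (FC7.Fc.P (FC7.WF.F W)) (FC6.Pa.φ (FC7.Fc.P (FC7.WF.F W)) t)) z)) (K.band (Nat.beq (FC6.Pa.l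
    (FC7.Fc.P (FC7.WF.F W)) t) z) (Nat.beq (FC6.Pa.l (FC7.Fc.P (FC7.WF.F W)) (FC6.Pa.φ (FC7.Fc.P
    (FC7.WF.F W)) t)) (FC6.Pa.l (FC7.Fc.P (FC7.WF.F W)) c))))))))))

theorem WF_okz_eq : @K.WF_okz = @FC7.WF.okz := by
  funext W b c z
  simp only [K.WF_okz, FC7.WF.okz, K.band_eq, K.bor_eq, K.bnot_eq, K.beqB_eq, K.tbit_eq, K.kmax_eq,
    K.kmin_eq, K.nbeq_eq, K.nble_eq, K.bif_b, K.lall_eq, K.lany_eq, K.lmap_eq, K.lfilter_eq,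
    K.llen_eq, K.lemp_eq, K.lsum_eq, K.lgetD_eq, K.lmem_eq, K.contains_eq, K.nodup_eq, K.lrange_eq,
    K.lapp_eq, K.lflat_eq, K.lfmap_eq, K.ltake_eq, K.lfoldl_eq, K.leq_eq, decide_eq_true_eq, ne_eq,
    decide_not, Bool.decide_and, Bool.decide_or, Bool.decide_eq_true, Bool.decide_eq_false,
    Nat.succ_eq_add_one, Bool.beq_eq_decide_eq, bne, Bool.not_eq_true', Bool.or_eq_true,
    Bool.and_eq_true, K.WF_off_eq, K.allN_eq, K.inb_eq] <;> rfl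

noncomputable def WF_t4b (W : FC7.WF) (q : ℕ) (i : ℕ) (c : ℕ) (k : ℕ) : Bool :=
  (K.band (K.band (K.band (K.band (K.band (K.band (K.band (K.band (Nat.beq (K.WF_ku W i) (nat_lit
    1)) (Nat.ble (Nat.succ c) (FC6.Pa.n (FC7.Fc.P (FC7.WF.F W))))) (K.inb (FC7.Fc.P (FC7.WF.F W))
    (K.WF_hb W i) c)) (K.bnot (Nat.beq (FC6.Pa.u (FC7.Fc.P (FC7.WF.F W)) c) (nat_lit 0)))) (Nat.ble
    (Nat.succ k) (FC6.Pa.n (FC7.Fc.P (FC7.WF.F W))))) (Nat.beq (FC7.OD.pc (FC7.Fc.O (FC7.WF.F W)) k)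
    q)) (K.bnot (Nat.beq (FC6.Pa.u (FC7.Fc.P' (FC7.WF.F W)) k) (nat_lit 0)))) (K.bor (Nat.ble
    (Nat.succ (FC6.Pa.l (FC7.Fc.P' (FC7.WF.F W)) k)) (FC7.OD.x (FC7.Fc.O (FC7.WF.F W)))) (K.WF_off W
    (FC6.Pa.l (FC7.Fc.P' (FC7.WF.F W)) k) (K.WF_hb W i)))) (K.allN (FC6.Pa.n (FC7.Fc.P (FC7.WF.F
    W))) (fun (j : ℕ) => (K.bor (K.bor (K.bnot (Nat.beq (FC7.OD.pc (FC7.Fc.O (FC7.WF.F W)) j) q))
    (K.bnot (FC6.Pa.real (FC7.Fc.P' (FC7.WF.F W)) j))) (K.band (K.bor (K.WF_dis W (FC6.Pa.l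
    (FC7.Fc.P' (FC7.WF.F W)) j) (FC6.Pa.l (FC7.Fc.P' (FC7.WF.F W)) k)) (K.WF_okz W (K.WF_hb W i) c
    (FC6.Pa.l (FC7.Fc.P' (FC7.WF.F W)) (FC6.Pa.φ (FC7.Fc.P' (FC7.WF.F W)) j)))) (K.bor (K.WF_dis W
    (FC6.Pa.l (FC7.Fc.P' (FC7.WF.F W)) (FC6.Pa.φ (FC7.Fc.P' (FC7.WF.F W)) j)) (FC6.Pa.l (FC7.Fc.P'
    (FC7.WF.F W)) k)) (K.WF_okz W (K.WF_hb W i) c (FC6.Pa.l (FC7.Fc.P' (FC7.WF.F W)) j))))))))

theorem WF_t4b_eq : @K.WF_t4b = @FC7.WF.t4b := by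
  funext W q i c k
  simp only [K.WF_t4b, FC7.WF.t4b, K.band_eq, K.bor_eq, K.bnot_eq, K.beqB_eq, K.tbit_eq, K.kmax_eq,
    K.kmin_eq, K.nbeq_eq, K.nble_eq, K.bif_b, K.lall_eq, K.lany_eq, K.lmap_eq, K.lfilter_eq,
    K.llen_eq, K.lemp_eq, K.lsum_eq, K.lgetD_eq, K.lmem_eq, K.contains_eq, K.nodup_eq, K.lrange_eq,
    K.lapp_eq, K.lflat_eq, K.lfmap_eq, K.ltake_eq, K.lfoldl_eq, K.leq_eq, decide_eq_true_eq, ne_eq,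
    decide_not, Bool.decide_and, Bool.decide_or, Bool.decide_eq_true, Bool.decide_eq_false,
    Nat.succ_eq_add_one, Bool.beq_eq_decide_eq, bne, Bool.not_eq_true', Bool.or_eq_true,
    Bool.and_eq_true, K.WF_ku_eq, K.inb_eq, K.WF_hb_eq, K.WF_off_eq, K.allN_eq, K.WF_dis_eq,
    K.WF_okz_eq] <;> rfl

noncomputable def WF_t4 (W : FC7.WF) (q : ℕ) (i : ℕ) : Bool :=
  (K.band (K.band (K.band (K.WF_one W q i) (K.bnot (K.sld (FC7.Fc.P (FC7.WF.F W)) i))) (K.WF_clo W q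
    i)) (K.bor (K.WF_t4a W q i) (K.WF_t4b W q i (FC7.WF.tu W q) (FC7.Fc.tk (FC7.WF.F W) q))))

theorem WF_t4_eq : @K.WF_t4 = @FC7.WF.t4 := by
  funext W q i
  simp only [K.WF_t4, FC7.WF.t4, K.band_eq, K.bor_eq, K.bnot_eq, K.beqB_eq, K.tbit_eq, K.kmax_eq,
    K.kmin_eq, K.nbeq_eq, K.nble_eq, K.bif_b, K.lall_eq, K.lany_eq, K.lmap_eq, K.lfilter_eq,
    K.llen_eq, K.lemp_eq, K.lsum_eq, K.lgetD_eq, K.lmem_eq, K.contains_eq, K.nodup_eq, K.lrange_eq,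
    K.lapp_eq, K.lflat_eq, K.lfmap_eq, K.ltake_eq, K.lfoldl_eq, K.leq_eq, decide_eq_true_eq, ne_eq,
    decide_not, Bool.decide_and, Bool.decide_or, Bool.decide_eq_true, Bool.decide_eq_false,
    Nat.succ_eq_add_one, Bool.beq_eq_decide_eq, bne, Bool.not_eq_true', Bool.or_eq_true,
    Bool.and_eq_true, K.WF_one_eq, K.sld_eq, K.WF_clo_eq, K.WF_t4a_eq, K.WF_t4b_eq] <;> rfl

noncomputable def Fc_pu (F : FC7.Fc) (q : ℕ) : ℕ :=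
  (K.sumN (FC6.Pa.n (FC7.Fc.P F)) (fun (j : ℕ) => (Bool.rec (motive := fun _ => ℕ) (nat_lit 0)
    (FC6.Pa.u (FC7.Fc.P' F) j) (Nat.beq (FC7.OD.pc (FC7.Fc.O F) j) q))))

theorem Fc_pu_eq : @K.Fc_pu = @FC7.Fc.pu := by
  funext F q
  simp only [K.Fc_pu, FC7.Fc.pu, K.band_eq, K.bor_eq, K.bnot_eq, K.beqB_eq, K.tbit_eq, K.kmax_eq,
    K.kmin_eq, K.nbeq_eq, K.nble_eq, K.bif_b, K.lall_eq, K.lany_eq, K.lmap_eq, K.lfilter_eq,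
    K.llen_eq, K.lemp_eq, K.lsum_eq, K.lgetD_eq, K.lmem_eq, K.contains_eq, K.nodup_eq, K.lrange_eq,
    K.lapp_eq, K.lflat_eq, K.lfmap_eq, K.ltake_eq, K.lfoldl_eq, K.leq_eq, decide_eq_true_eq, ne_eq,
    decide_not, Bool.decide_and, Bool.decide_or, Bool.decide_eq_true, Bool.decide_eq_false,
    Nat.succ_eq_add_one, Bool.beq_eq_decide_eq, bne, Bool.not_eq_true', Bool.or_eq_true,
    Bool.and_eq_true, K.sumN_eq] <;> rfl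

noncomputable def WF_hbs (W : FC7.WF) (q : ℕ) (T : List ℕ) : Bool :=
  (K.band (K.band (K.lall T (K.WF_one W q)) (K.nodup T)) (K.lall T (fun (i : ℕ) => (K.lall T (fun (j
    : ℕ) => (K.bor (Nat.beq i j) (K.bnot (K.WF_fin W i j))))))))

theorem WF_hbs_eq : @K.WF_hbs = @FC7.WF.hbs := by
  funext W q T
  simp only [K.WF_hbs, FC7.WF.hbs, K.band_eq, K.bor_eq, K.bnot_eq, K.beqB_eq, K.tbit_eq, K.kmax_eq,
    K.kmin_eq, K.nbeq_eq, K.nble_eq, K.bif_b, K.lall_eq, K.lany_eq, K.lmap_eq, K.lfilter_eq,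
    K.llen_eq, K.lemp_eq, K.lsum_eq, K.lgetD_eq, K.lmem_eq, K.contains_eq, K.nodup_eq, K.lrange_eq,
    K.lapp_eq, K.lflat_eq, K.lfmap_eq, K.ltake_eq, K.lfoldl_eq, K.leq_eq, decide_eq_true_eq, ne_eq,
    decide_not, Bool.decide_and, Bool.decide_or, Bool.decide_eq_true, Bool.decide_eq_false,
    Nat.succ_eq_add_one, Bool.beq_eq_decide_eq, bne, Bool.not_eq_true', Bool.or_eq_true,
    Bool.and_eq_true, K.WF_one_eq, K.WF_fin_eq] <;> rfl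

noncomputable def WF_lw (c : ℕ) : ℕ :=
  (Bool.rec (motive := fun _ => ℕ) (Bool.rec (motive := fun _ => ℕ) (nat_lit 0) (nat_lit 2) (Nat.beq
    c (nat_lit 1))) (nat_lit 3) (Nat.beq c (nat_lit 2)))

theorem WF_lw_eq : @K.WF_lw = @FC7.WF.lw := by
  funext c
  simp only [K.WF_lw, FC7.WF.lw, K.band_eq, K.bor_eq, K.bnot_eq, K.beqB_eq, K.tbit_eq, K.kmax_eq,
    K.kmin_eq, K.nbeq_eq, K.nble_eq, K.bif_b, K.lall_eq, K.lany_eq, K.lmap_eq, K.lfilter_eq,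
    K.llen_eq, K.lemp_eq, K.lsum_eq, K.lgetD_eq, K.lmem_eq, K.contains_eq, K.nodup_eq, K.lrange_eq,
    K.lapp_eq, K.lflat_eq, K.lfmap_eq, K.ltake_eq, K.lfoldl_eq, K.leq_eq, decide_eq_true_eq, ne_eq,
    decide_not, Bool.decide_and, Bool.decide_or, Bool.decide_eq_true, Bool.decide_eq_false,
    Nat.succ_eq_add_one, Bool.beq_eq_decide_eq, bne, Bool.not_eq_true', Bool.or_eq_true,
    Bool.and_eq_true] <;> rfl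

noncomputable def WF_lwk (W : FC7.WF) (i : ℕ) : ℕ :=
  (K.kmax (K.WF_lw (K.WF_fcl W i)) (Bool.rec (motive := fun _ => ℕ) (nat_lit 2) (nat_lit 0) (Nat.beq
    (K.WF_ku W i) (nat_lit 0))))

theorem WF_lwk_eq : @K.WF_lwk = @FC7.WF.lwk := by
  funext W i
  simp only [K.WF_lwk, FC7.WF.lwk, K.band_eq, K.bor_eq, K.bnot_eq, K.beqB_eq, K.tbit_eq, K.kmax_eq,
    K.kmin_eq, K.nbeq_eq, K.nble_eq, K.bif_b, K.lall_eq, K.lany_eq, K.lmap_eq, K.lfilter_eq,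
    K.llen_eq, K.lemp_eq, K.lsum_eq, K.lgetD_eq, K.lmem_eq, K.contains_eq, K.nodup_eq, K.lrange_eq,
    K.lapp_eq, K.lflat_eq, K.lfmap_eq, K.ltake_eq, K.lfoldl_eq, K.leq_eq, decide_eq_true_eq, ne_eq,
    decide_not, Bool.decide_and, Bool.decide_or, Bool.decide_eq_true, Bool.decide_eq_false,
    Nat.succ_eq_add_one, Bool.beq_eq_decide_eq, bne, Bool.not_eq_true', Bool.or_eq_true,
    Bool.and_eq_true, K.WF_lw_eq, K.WF_fcl_eq, K.WF_ku_eq] <;> rfl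

noncomputable def WF_chkO (W : FC7.WF) : Bool :=
  (K.band (K.allN (FC7.OD.p (FC7.Fc.O (FC7.WF.F W))) (fun (q : ℕ) => (K.band (K.bor (K.bnot (Nat.beq
    (FC7.Fc.ty (FC7.WF.F W) q) (nat_lit 4))) (K.band (K.WF_t4 W q (FC7.Fc.tj (FC7.WF.F W) q)) (K.bor
    (Nat.beq (K.WF_fcl W (FC7.Fc.tj (FC7.WF.F W) q)) (nat_lit 1)) (K.band (K.bnot (Nat.beq (K.WF_ku
    W (FC7.Fc.tj (FC7.WF.F W) q)) (nat_lit 0))) (Nat.ble (K.WF_ku W (FC7.Fc.tj (FC7.WF.F W) q))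
    (K.Fc_pu (FC7.WF.F W) q)))))) (K.bor (K.bnot (Nat.beq (FC7.Fc.ty (FC7.WF.F W) q) (nat_lit 3)))
    (K.band (K.WF_hbs W q (FC7.WF.tl W q)) (Nat.ble (Nat.add (nat_lit 3) (K.lsum (K.lmap (K.WF_ku W)
    (FC7.WF.tl W q)))) (Nat.add (K.lsum (K.lmap (K.WF_lwk W) (FC7.WF.tl W q))) (K.Fc_pu (FC7.WF.F W)
    q)))))))) (K.allN (FC6.Pa.n (FC7.Fc.P (FC7.WF.F W))) (fun (i : ℕ) => (K.bor (K.bnot (FC7.Fc.ou
    (FC7.WF.F W) i)) (K.band (K.WF_one W (FC7.OD.pc (FC7.Fc.O (FC7.WF.F W)) i) i) (Nat.ble (Nat.succ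
    (K.WF_ku W i)) (K.WF_lwk W i)))))))

theorem WF_chkO_eq : @K.WF_chkO = @FC7.WF.chkO := by
  funext W
  simp only [K.WF_chkO, FC7.WF.chkO, K.band_eq, K.bor_eq, K.bnot_eq, K.beqB_eq, K.tbit_eq,
    K.kmax_eq, K.kmin_eq, K.nbeq_eq, K.nble_eq, K.bif_b, K.lall_eq, K.lany_eq, K.lmap_eq,
    K.lfilter_eq, K.llen_eq, K.lemp_eq, K.lsum_eq, K.lgetD_eq, K.lmem_eq, K.contains_eq, K.nodup_eq,
    K.lrange_eq, K.lapp_eq, K.lflat_eq, K.lfmap_eq, K.ltake_eq, K.lfoldl_eq, K.leq_eq,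
    decide_eq_true_eq, ne_eq, decide_not, Bool.decide_and, Bool.decide_or, Bool.decide_eq_true,
    Bool.decide_eq_false, Nat.succ_eq_add_one, Bool.beq_eq_decide_eq, bne, Bool.not_eq_true',
    Bool.or_eq_true, Bool.and_eq_true, K.allN_eq, K.WF_t4_eq, K.WF_fcl_eq, K.WF_ku_eq, K.Fc_pu_eq,
    K.WF_hbs_eq, K.WF_lwk_eq, K.WF_one_eq] <;> rfl

noncomputable def WF_okw (W : FC7.WF) (i : ℕ) (j : ℕ) : Bool :=
  (K.bor (K.bor (FC7.Fc.ou (FC7.WF.F W) j) (K.band (FC7.Fc.uk (FC7.WF.F W) i) (Nat.beq (FC7.OD.pc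
    (FC7.Fc.O (FC7.WF.F W)) (FC7.Fc.kp (FC7.WF.F W) i)) (FC7.OD.pc (FC7.Fc.O (FC7.WF.F W)) j))))
    (K.bnot (Nat.beq (K.Fc_pu (FC7.WF.F W) (FC7.OD.pc (FC7.Fc.O (FC7.WF.F W)) j)) (nat_lit 0))))

theorem WF_okw_eq : @K.WF_okw = @FC7.WF.okw := by
  funext W i j
  simp only [K.WF_okw, FC7.WF.okw, K.band_eq, K.bor_eq, K.bnot_eq, K.beqB_eq, K.tbit_eq, K.kmax_eq,
    K.kmin_eq, K.nbeq_eq, K.nble_eq, K.bif_b, K.lall_eq, K.lany_eq, K.lmap_eq, K.lfilter_eq,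
    K.llen_eq, K.lemp_eq, K.lsum_eq, K.lgetD_eq, K.lmem_eq, K.contains_eq, K.nodup_eq, K.lrange_eq,
    K.lapp_eq, K.lflat_eq, K.lfmap_eq, K.ltake_eq, K.lfoldl_eq, K.leq_eq, decide_eq_true_eq, ne_eq,
    decide_not, Bool.decide_and, Bool.decide_or, Bool.decide_eq_true, Bool.decide_eq_false,
    Nat.succ_eq_add_one, Bool.beq_eq_decide_eq, bne, Bool.not_eq_true', Bool.or_eq_true,
    Bool.and_eq_true, K.Fc_pu_eq] <;> rfl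

noncomputable def WF_okv (W : FC7.WF) (i : ℕ) : Bool :=
  (K.bor (K.bor (K.lany (FC7.XE.dj (FC7.Fc.X (FC7.WF.F W))) (fun (z : ℕ) => (K.allN (FC6.Pa.n
    (FC7.Fc.P (FC7.WF.F W))) (fun (j : ℕ) => (K.bor (K.bnot (K.tbit z (FC7.XE.ce (FC7.Fc.X (FC7.WF.F
    W)) j))) (Nat.beq (FC7.XE.ce (FC7.Fc.X (FC7.WF.F W)) j) (FC7.XE.ce (FC7.Fc.X (FC7.WF.F W))
    i))))))) (K.lany (FC7.XE.kd (FC7.Fc.X (FC7.WF.F W))) (fun (j : ℕ) => (K.band (Nat.beq (FC7.XE.ce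
    (FC7.Fc.X (FC7.WF.F W)) j) (FC7.XE.ce (FC7.Fc.X (FC7.WF.F W)) i)) (K.WF_okw W i j))))) (K.bnot
    (K.allN (FC6.Pa.n (FC7.Fc.P (FC7.WF.F W))) (fun (j : ℕ) => (K.bnot (K.band (K.band (K.band
    (Nat.beq (FC6.Pa.α (FC7.Fc.P (FC7.WF.F W)) j) j) (K.bnot (FC6.Pa.real (FC7.Fc.P (FC7.WF.F W))
    j))) (Nat.beq (FC7.XE.ce (FC7.Fc.X (FC7.WF.F W)) j) (FC7.XE.ce (FC7.Fc.X (FC7.WF.F W)) i)))
    (K.WF_okw W i j)))))))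

theorem WF_okv_eq : @K.WF_okv = @FC7.WF.okv := by
  funext W i
  simp only [K.WF_okv, FC7.WF.okv, K.band_eq, K.bor_eq, K.bnot_eq, K.beqB_eq, K.tbit_eq, K.kmax_eq,
    K.kmin_eq, K.nbeq_eq, K.nble_eq, K.bif_b, K.lall_eq, K.lany_eq, K.lmap_eq, K.lfilter_eq,
    K.llen_eq, K.lemp_eq, K.lsum_eq, K.lgetD_eq, K.lmem_eq, K.contains_eq, K.nodup_eq, K.lrange_eq,
    K.lapp_eq, K.lflat_eq, K.lfmap_eq, K.ltake_eq, K.lfoldl_eq, K.leq_eq, decide_eq_true_eq, ne_eq,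
    decide_not, Bool.decide_and, Bool.decide_or, Bool.decide_eq_true, Bool.decide_eq_false,
    Nat.succ_eq_add_one, Bool.beq_eq_decide_eq, bne, Bool.not_eq_true', Bool.or_eq_true,
    Bool.and_eq_true, K.allN_eq, K.WF_okw_eq] <;> rfl

noncomputable def WF_chkV (W : FC7.WF) : Bool :=
  (K.allN (FC6.Pa.n (FC7.Fc.P (FC7.WF.F W))) (fun (i : ℕ) => (K.bor (K.band (Nat.beq (FC6.Pa.u
    (FC7.Fc.P (FC7.WF.F W)) i) (nat_lit 0)) (K.bnot (FC7.Fc.uk (FC7.WF.F W) i))) (K.WF_okv W i))))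

theorem WF_chkV_eq : @K.WF_chkV = @FC7.WF.chkV := by
  funext W
  simp only [K.WF_chkV, FC7.WF.chkV, K.band_eq, K.bor_eq, K.bnot_eq, K.beqB_eq, K.tbit_eq,
    K.kmax_eq, K.kmin_eq, K.nbeq_eq, K.nble_eq, K.bif_b, K.lall_eq, K.lany_eq, K.lmap_eq,
    K.lfilter_eq, K.llen_eq, K.lemp_eq, K.lsum_eq, K.lgetD_eq, K.lmem_eq, K.contains_eq, K.nodup_eq,
    K.lrange_eq, K.lapp_eq, K.lflat_eq, K.lfmap_eq, K.ltake_eq, K.lfoldl_eq, K.leq_eq,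
    decide_eq_true_eq, ne_eq, decide_not, Bool.decide_and, Bool.decide_or, Bool.decide_eq_true,
    Bool.decide_eq_false, Nat.succ_eq_add_one, Bool.beq_eq_decide_eq, bne, Bool.not_eq_true',
    Bool.or_eq_true, Bool.and_eq_true, K.allN_eq, K.WF_okv_eq] <;> rfl

noncomputable def Wt_oc (W : FC7.Wt) (k : ℕ) (j : ℕ) : Bool :=
  (Bool.rec (motive := fun _ => Bool) (Nat.beq (K.wk (K.Wt_fl W k j)) (nat_lit 2)) (K.band (K.uo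
    (K.Wt_fl W k j)) (K.tbit (K.Wt_fl W k j) (nat_lit 12))) (K.Wt_sol W k j))

theorem Wt_oc_eq : @K.Wt_oc = @FC7.Wt.oc := by
  funext W k j
  simp only [K.Wt_oc, FC7.Wt.oc, K.band_eq, K.bor_eq, K.bnot_eq, K.beqB_eq, K.tbit_eq, K.kmax_eq,
    K.kmin_eq, K.nbeq_eq, K.nble_eq, K.bif_b, K.lall_eq, K.lany_eq, K.lmap_eq, K.lfilter_eq,
    K.llen_eq, K.lemp_eq, K.lsum_eq, K.lgetD_eq, K.lmem_eq, K.contains_eq, K.nodup_eq, K.lrange_eq,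
    K.lapp_eq, K.lflat_eq, K.lfmap_eq, K.ltake_eq, K.lfoldl_eq, K.leq_eq, decide_eq_true_eq, ne_eq,
    decide_not, Bool.decide_and, Bool.decide_or, Bool.decide_eq_true, Bool.decide_eq_false,
    Nat.succ_eq_add_one, Bool.beq_eq_decide_eq, bne, Bool.not_eq_true', Bool.or_eq_true,
    Bool.and_eq_true, K.Wt_sol_eq, K.uo_eq, K.Wt_fl_eq, K.wk_eq] <;> rfl

noncomputable def WF_ocl (W : FC7.WF) (i : ℕ) : Bool :=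
  (K.Wt_oc (FC7.WF.toWt W) (FC6.Sp.rk (FC6.Stars.Q (FC7.Wt.Z (FC7.WF.toWt W))) i) (FC6.Sp.rj
    (FC6.Stars.Q (FC7.Wt.Z (FC7.WF.toWt W))) i))

theorem WF_ocl_eq : @K.WF_ocl = @FC7.WF.ocl := by
  funext W i
  simp only [K.WF_ocl, FC7.WF.ocl, K.band_eq, K.bor_eq, K.bnot_eq, K.beqB_eq, K.tbit_eq, K.kmax_eq,
    K.kmin_eq, K.nbeq_eq, K.nble_eq, K.bif_b, K.lall_eq, K.lany_eq, K.lmap_eq, K.lfilter_eq,
    K.llen_eq, K.lemp_eq, K.lsum_eq, K.lgetD_eq, K.lmem_eq, K.contains_eq, K.nodup_eq, K.lrange_eq,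
    K.lapp_eq, K.lflat_eq, K.lfmap_eq, K.ltake_eq, K.lfoldl_eq, K.leq_eq, decide_eq_true_eq, ne_eq,
    decide_not, Bool.decide_and, Bool.decide_or, Bool.decide_eq_true, Bool.decide_eq_false,
    Nat.succ_eq_add_one, Bool.beq_eq_decide_eq, bne, Bool.not_eq_true', Bool.or_eq_true,
    Bool.and_eq_true, K.Wt_oc_eq] <;> rfl

noncomputable def WF_chkZ (W : FC7.WF) : Bool :=
  (K.allN (FC6.Pa.n (FC7.Fc.P (FC7.WF.F W))) (fun (i : ℕ) => (K.bor (K.bor (K.bnot (FC7.Fc.oz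
    (FC7.WF.F W) i)) (Nat.beq (K.WF_fcl W i) (nat_lit 3))) (K.band (K.band (K.WF_one W (FC7.OD.pc
    (FC7.Fc.O (FC7.WF.F W)) i) i) (Nat.ble (K.WF_ku W i) (K.Fc_pu (FC7.WF.F W) (FC7.OD.pc (FC7.Fc.O
    (FC7.WF.F W)) i)))) (K.bor (K.bor (K.bor (K.WF_ocl W i) (Nat.beq (K.WF_fcl W i) (nat_lit 2)))
    (Nat.ble (Nat.succ (K.WF_ku W i)) (K.Fc_pu (FC7.WF.F W) (FC7.OD.pc (FC7.Fc.O (FC7.WF.F W)) i))))
    (K.WF_t4 W (FC7.OD.pc (FC7.Fc.O (FC7.WF.F W)) i) i))))))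

theorem WF_chkZ_eq : @K.WF_chkZ = @FC7.WF.chkZ := by
  funext W
  simp only [K.WF_chkZ, FC7.WF.chkZ, K.band_eq, K.bor_eq, K.bnot_eq, K.beqB_eq, K.tbit_eq,
    K.kmax_eq, K.kmin_eq, K.nbeq_eq, K.nble_eq, K.bif_b, K.lall_eq, K.lany_eq, K.lmap_eq,
    K.lfilter_eq, K.llen_eq, K.lemp_eq, K.lsum_eq, K.lgetD_eq, K.lmem_eq, K.contains_eq, K.nodup_eq,
    K.lrange_eq, K.lapp_eq, K.lflat_eq, K.lfmap_eq, K.ltake_eq, K.lfoldl_eq, K.leq_eq,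
    decide_eq_true_eq, ne_eq, decide_not, Bool.decide_and, Bool.decide_or, Bool.decide_eq_true,
    Bool.decide_eq_false, Nat.succ_eq_add_one, Bool.beq_eq_decide_eq, bne, Bool.not_eq_true',
    Bool.or_eq_true, Bool.and_eq_true, K.allN_eq, K.WF_fcl_eq, K.WF_one_eq, K.WF_ku_eq, K.Fc_pu_eq,
    K.WF_ocl_eq, K.WF_t4_eq] <;> rfl

noncomputable def WF_chk (W : FC7.WF) (Δ : ℕ) : Bool :=
  (K.band (K.band (K.band (K.band (K.band (K.band (K.band (K.band (K.Stars_chk (FC7.Wt.Z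
    (FC7.WF.toWt W)) (FC7.WF.PT W)) (K.Wt_ok (FC7.WF.toWt W))) (K.WF_chkA W)) (K.WF_chkD W))
    (K.WF_chkL W Δ)) (K.WF_chkP W)) (K.WF_chkO W)) (K.WF_chkV W)) (K.WF_chkZ W))

theorem WF_chk_eq : @K.WF_chk = @FC7.WF.chk := by
  funext W Δ
  simp only [K.WF_chk, FC7.WF.chk, K.band_eq, K.bor_eq, K.bnot_eq, K.beqB_eq, K.tbit_eq, K.kmax_eq,
    K.kmin_eq, K.nbeq_eq, K.nble_eq, K.bif_b, K.lall_eq, K.lany_eq, K.lmap_eq, K.lfilter_eq,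
    K.llen_eq, K.lemp_eq, K.lsum_eq, K.lgetD_eq, K.lmem_eq, K.contains_eq, K.nodup_eq, K.lrange_eq,
    K.lapp_eq, K.lflat_eq, K.lfmap_eq, K.ltake_eq, K.lfoldl_eq, K.leq_eq, decide_eq_true_eq, ne_eq,
    decide_not, Bool.decide_and, Bool.decide_or, Bool.decide_eq_true, Bool.decide_eq_false,
    Nat.succ_eq_add_one, Bool.beq_eq_decide_eq, bne, Bool.not_eq_true', Bool.or_eq_true,
    Bool.and_eq_true, K.Stars_chk_eq, K.Wt_ok_eq, K.WF_chkA_eq, K.WF_chkD_eq, K.WF_chkL_eq,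
    K.WF_chkP_eq, K.WF_chkO_eq, K.WF_chkV_eq, K.WF_chkZ_eq] <;> rfl

noncomputable def Cf_csok (F : FC7.Cf) (b : ℕ) : Bool :=
  (K.band (K.band (K.band (Nat.ble (Nat.succ (FC7.Cf.cs F b)) (FC6.Sp.ns (FC6.Stars.Q (FC7.Cf.Z
    F)))) (K.bnot (Nat.beq (FC6.Sp.π (FC6.Stars.Q (FC7.Cf.Z F)) (FC7.Cf.cs F b)) (FC7.Cf.cs F b))))
    (Nat.beq (FC6.Stars.ca (FC7.Cf.Z F) (FC6.Sp.π (FC6.Stars.Q (FC7.Cf.Z F)) (FC7.Cf.cs F b))) b))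
    (FC7.Cf.ac F (FC6.Stars.ca (FC7.Cf.Z F) (FC7.Cf.cs F b))))

theorem Cf_csok_eq : @K.Cf_csok = @FC7.Cf.csok := by
  funext F b
  simp only [K.Cf_csok, FC7.Cf.csok, K.band_eq, K.bor_eq, K.bnot_eq, K.beqB_eq, K.tbit_eq,
    K.kmax_eq, K.kmin_eq, K.nbeq_eq, K.nble_eq, K.bif_b, K.lall_eq, K.lany_eq, K.lmap_eq,
    K.lfilter_eq, K.llen_eq, K.lemp_eq, K.lsum_eq, K.lgetD_eq, K.lmem_eq, K.contains_eq, K.nodup_eq,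
    K.lrange_eq, K.lapp_eq, K.lflat_eq, K.lfmap_eq, K.ltake_eq, K.lfoldl_eq, K.leq_eq,
    decide_eq_true_eq, ne_eq, decide_not, Bool.decide_and, Bool.decide_or, Bool.decide_eq_true,
    Bool.decide_eq_false, Nat.succ_eq_add_one, Bool.beq_eq_decide_eq, bne, Bool.not_eq_true',
    Bool.or_eq_true, Bool.and_eq_true] <;> rfl

noncomputable def Cf_sd (F : FC7.Cf) (j : ℕ) (j' : ℕ) : Bool :=
  (K.band (K.band (K.band (K.band (Nat.ble (Nat.succ j) (FC6.Sp.ns (FC6.Stars.Q (FC7.Cf.Z F))))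
    (Nat.ble (Nat.succ j') (FC6.Sp.ns (FC6.Stars.Q (FC7.Cf.Z F))))) (FC7.Cf.ac F (FC6.Stars.ca
    (FC7.Cf.Z F) j))) (FC7.Cf.ac F (FC6.Stars.ca (FC7.Cf.Z F) j'))) (K.bor (K.bnot (K.beqB
    (FC6.Sp.rl (FC6.Stars.Q (FC7.Cf.Z F)) j) (FC6.Sp.rl (FC6.Stars.Q (FC7.Cf.Z F)) j'))) (FC7.Cf.SD
    F j j')))

theorem Cf_sd_eq : @K.Cf_sd = @FC7.Cf.sd := by
  funext F j j'
  simp only [K.Cf_sd, FC7.Cf.sd, K.band_eq, K.bor_eq, K.bnot_eq, K.beqB_eq, K.tbit_eq, K.kmax_eq,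
    K.kmin_eq, K.nbeq_eq, K.nble_eq, K.bif_b, K.lall_eq, K.lany_eq, K.lmap_eq, K.lfilter_eq,
    K.llen_eq, K.lemp_eq, K.lsum_eq, K.lgetD_eq, K.lmem_eq, K.contains_eq, K.nodup_eq, K.lrange_eq,
    K.lapp_eq, K.lflat_eq, K.lfmap_eq, K.ltake_eq, K.lfoldl_eq, K.leq_eq, decide_eq_true_eq, ne_eq,
    decide_not, Bool.decide_and, Bool.decide_or, Bool.decide_eq_true, Bool.decide_eq_false,
    Nat.succ_eq_add_one, Bool.beq_eq_decide_eq, bne, Bool.not_eq_true', Bool.or_eq_true,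
    Bool.and_eq_true] <;> rfl

noncomputable def Cf_hal (F : FC7.Cf) (j : ℕ) : Bool :=
  (Bool.rec (motive := fun _ => Bool) true (FC6.Sp.rl (FC6.Stars.Q (FC7.Cf.Z F)) j) (FC7.Cf.ac F
    (FC6.Stars.ca (FC7.Cf.Z F) j)))

theorem Cf_hal_eq : @K.Cf_hal = @FC7.Cf.hal := by
  funext F j
  simp only [K.Cf_hal, FC7.Cf.hal, K.band_eq, K.bor_eq, K.bnot_eq, K.beqB_eq, K.tbit_eq, K.kmax_eq,
    K.kmin_eq, K.nbeq_eq, K.nble_eq, K.bif_b, K.lall_eq, K.lany_eq, K.lmap_eq, K.lfilter_eq,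
    K.llen_eq, K.lemp_eq, K.lsum_eq, K.lgetD_eq, K.lmem_eq, K.contains_eq, K.nodup_eq, K.lrange_eq,
    K.lapp_eq, K.lflat_eq, K.lfmap_eq, K.ltake_eq, K.lfoldl_eq, K.leq_eq, decide_eq_true_eq, ne_eq,
    decide_not, Bool.decide_and, Bool.decide_or, Bool.decide_eq_true, Bool.decide_eq_false,
    Nat.succ_eq_add_one, Bool.beq_eq_decide_eq, bne, Bool.not_eq_true', Bool.or_eq_true,
    Bool.and_eq_true] <;> rfl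

noncomputable def Cf_chkS (F : FC7.Cf) : Bool :=
  (K.band (K.allN (FC6.Stars.nc (FC7.Cf.Z F)) (fun (a : ℕ) => (K.allN (FC6.Stars.nc (FC7.Cf.Z F))
    (fun (b : ℕ) => (K.band (K.bor (Nat.beq (FC7.Cf.ad F a b) (nat_lit 0)) (K.band (K.band (K.band
    (K.band (K.band (K.band (FC7.Cf.ac F a) (FC7.Cf.ac F b)) (Nat.ble (Nat.succ (Nat.sub (FC7.Cf.ad
    F a b) (nat_lit 1))) (FC6.Sp.ns (FC6.Stars.Q (FC7.Cf.Z F))))) (Nat.beq (FC6.Stars.ca (FC7.Cf.Z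
    F) (Nat.sub (FC7.Cf.ad F a b) (nat_lit 1))) a)) (Nat.beq (FC6.Stars.ca (FC7.Cf.Z F) (FC6.Sp.π
    (FC6.Stars.Q (FC7.Cf.Z F)) (Nat.sub (FC7.Cf.ad F a b) (nat_lit 1)))) b)) (K.bnot (Nat.beq
    (FC6.Sp.π (FC6.Stars.Q (FC7.Cf.Z F)) (Nat.sub (FC7.Cf.ad F a b) (nat_lit 1))) (Nat.sub
    (FC7.Cf.ad F a b) (nat_lit 1))))) (FC6.Sp.rl (FC6.Stars.Q (FC7.Cf.Z F)) (Nat.sub (FC7.Cf.ad F a
    b) (nat_lit 1))))) (K.bor (K.bor (K.bor (Nat.beq a b) (K.bnot (K.beqB (FC7.Cf.ac F a) (FC7.Cf.ac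
    F b)))) (K.bnot (Nat.beq (FC7.Cf.ad F a b) (nat_lit 0)))) (K.band (K.band (K.Cf_csok F a)
    (K.Cf_csok F b)) (K.Cf_sd F (FC7.Cf.cs F a) (FC7.Cf.cs F b))))))))) (K.allN (FC6.Sp.ns
    (FC6.Stars.Q (FC7.Cf.Z F))) (fun (j : ℕ) => (K.bor (K.bnot (Nat.beq (FC6.Sp.π (FC6.Stars.Q
    (FC7.Cf.Z F)) j) j)) (K.band (K.band (K.band (Nat.ble (Nat.succ (FC7.Cf.al F j)) (FC6.Sp.ns
    (FC6.Stars.Q (FC7.Cf.Z F)))) (FC7.Cf.ac F (FC6.Stars.ca (FC7.Cf.Z F) (FC7.Cf.al F j)))) (K.bor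
    (K.bor (Nat.beq (FC7.Cf.al F j) j) (K.band (K.bnot (Nat.beq (FC6.Sp.π (FC6.Stars.Q (FC7.Cf.Z F))
    (FC6.Sp.ρi (FC6.Stars.Q (FC7.Cf.Z F)) j)) (FC6.Sp.ρi (FC6.Stars.Q (FC7.Cf.Z F)) j))) (Nat.beq
    (FC7.Cf.al F j) (FC6.Sp.ρi (FC6.Stars.Q (FC7.Cf.Z F)) (FC6.Sp.π (FC6.Stars.Q (FC7.Cf.Z F))
    (FC6.Sp.ρi (FC6.Stars.Q (FC7.Cf.Z F)) j)))))) (K.band (K.bnot (Nat.beq (FC6.Sp.π (FC6.Stars.Q
    (FC7.Cf.Z F)) (FC6.Sp.ρ (FC6.Stars.Q (FC7.Cf.Z F)) j)) (FC6.Sp.ρ (FC6.Stars.Q (FC7.Cf.Z F)) j)))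
    (Nat.beq (FC7.Cf.al F j) (FC6.Sp.ρ (FC6.Stars.Q (FC7.Cf.Z F)) (FC6.Sp.π (FC6.Stars.Q (FC7.Cf.Z
    F)) (FC6.Sp.ρ (FC6.Stars.Q (FC7.Cf.Z F)) j))))))) (K.allN (FC6.Stars.nc (FC7.Cf.Z F)) (fun (b :
    ℕ) => (K.bor (K.bor (K.bnot (K.beqB (K.Cf_hal F j) (FC7.Cf.ac F b))) (K.band (Nat.beq
    (FC6.Stars.ca (FC7.Cf.Z F) (FC7.Cf.al F j)) b) (FC6.Sp.rl (FC6.Stars.Q (FC7.Cf.Z F)) (FC7.Cf.al
    F j)))) (K.band (K.Cf_csok F b) (K.Cf_sd F (FC7.Cf.al F j) (FC7.Cf.cs F b)))))))))))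

theorem Cf_chkS_eq : @K.Cf_chkS = @FC7.Cf.chkS := by
  funext F
  simp only [K.Cf_chkS, FC7.Cf.chkS, K.band_eq, K.bor_eq, K.bnot_eq, K.beqB_eq, K.tbit_eq,
    K.kmax_eq, K.kmin_eq, K.nbeq_eq, K.nble_eq, K.bif_b, K.lall_eq, K.lany_eq, K.lmap_eq,
    K.lfilter_eq, K.llen_eq, K.lemp_eq, K.lsum_eq, K.lgetD_eq, K.lmem_eq, K.contains_eq, K.nodup_eq,
    K.lrange_eq, K.lapp_eq, K.lflat_eq, K.lfmap_eq, K.ltake_eq, K.lfoldl_eq, K.leq_eq,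
    decide_eq_true_eq, ne_eq, decide_not, Bool.decide_and, Bool.decide_or, Bool.decide_eq_true,
    Bool.decide_eq_false, Nat.succ_eq_add_one, Bool.beq_eq_decide_eq, bne, Bool.not_eq_true',
    Bool.or_eq_true, Bool.and_eq_true, K.allN_eq, K.Cf_csok_eq, K.Cf_sd_eq, K.Cf_hal_eq] <;> rfl

noncomputable def lK (l : ℕ) : ℕ :=
  (Nat.mod (Nat.div l (nat_lit 64)) (nat_lit 4))

theorem lK_eq : @K.lK = @FC7.lK := by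
  funext l
  simp only [K.lK, FC7.lK, K.band_eq, K.bor_eq, K.bnot_eq, K.beqB_eq, K.tbit_eq, K.kmax_eq,
    K.kmin_eq, K.nbeq_eq, K.nble_eq, K.bif_b, K.lall_eq, K.lany_eq, K.lmap_eq, K.lfilter_eq,
    K.llen_eq, K.lemp_eq, K.lsum_eq, K.lgetD_eq, K.lmem_eq, K.contains_eq, K.nodup_eq, K.lrange_eq,
    K.lapp_eq, K.lflat_eq, K.lfmap_eq, K.ltake_eq, K.lfoldl_eq, K.leq_eq, decide_eq_true_eq, ne_eq,
    decide_not, Bool.decide_and, Bool.decide_or, Bool.decide_eq_true, Bool.decide_eq_false,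
    Nat.succ_eq_add_one, Bool.beq_eq_decide_eq, bne, Bool.not_eq_true', Bool.or_eq_true,
    Bool.and_eq_true] <;> rfl

noncomputable def lC (l : ℕ) : ℕ :=
  (Nat.mod (Nat.div l (nat_lit 16)) (nat_lit 4))

theorem lC_eq : @K.lC = @FC7.lC := by
  funext l
  simp only [K.lC, FC7.lC, K.band_eq, K.bor_eq, K.bnot_eq, K.beqB_eq, K.tbit_eq, K.kmax_eq,
    K.kmin_eq, K.nbeq_eq, K.nble_eq, K.bif_b, K.lall_eq, K.lany_eq, K.lmap_eq, K.lfilter_eq,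
    K.llen_eq, K.lemp_eq, K.lsum_eq, K.lgetD_eq, K.lmem_eq, K.contains_eq, K.nodup_eq, K.lrange_eq,
    K.lapp_eq, K.lflat_eq, K.lfmap_eq, K.ltake_eq, K.lfoldl_eq, K.leq_eq, decide_eq_true_eq, ne_eq,
    decide_not, Bool.decide_and, Bool.decide_or, Bool.decide_eq_true, Bool.decide_eq_false,
    Nat.succ_eq_add_one, Bool.beq_eq_decide_eq, bne, Bool.not_eq_true', Bool.or_eq_true,
    Bool.and_eq_true] <;> rfl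

noncomputable def sk (l : ℕ) : ℕ :=
  (Bool.rec (motive := fun _ => ℕ) (Bool.rec (motive := fun _ => ℕ) (Bool.rec (motive := fun _ => ℕ)
    (nat_lit 5) (nat_lit 4) (Nat.beq (K.lC l) (nat_lit 1))) (nat_lit 1) (Nat.beq (K.lC l) (nat_lit
    0))) (nat_lit 0) (Nat.beq (K.lK l) (nat_lit 0)))

theorem sk_eq : @K.sk = @FC7.sk := by
  funext l
  simp only [K.sk, FC7.sk, K.band_eq, K.bor_eq, K.bnot_eq, K.beqB_eq, K.tbit_eq, K.kmax_eq,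
    K.kmin_eq, K.nbeq_eq, K.nble_eq, K.bif_b, K.lall_eq, K.lany_eq, K.lmap_eq, K.lfilter_eq,
    K.llen_eq, K.lemp_eq, K.lsum_eq, K.lgetD_eq, K.lmem_eq, K.contains_eq, K.nodup_eq, K.lrange_eq,
    K.lapp_eq, K.lflat_eq, K.lfmap_eq, K.ltake_eq, K.lfoldl_eq, K.leq_eq, decide_eq_true_eq, ne_eq,
    decide_not, Bool.decide_and, Bool.decide_or, Bool.decide_eq_true, Bool.decide_eq_false,
    Nat.succ_eq_add_one, Bool.beq_eq_decide_eq, bne, Bool.not_eq_true', Bool.or_eq_true,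
    Bool.and_eq_true, K.lK_eq, K.lC_eq] <;> rfl

noncomputable def fl (wd : List ℕ) : List Bool :=
  (K.flags (K.lmap K.sk wd))

theorem fl_eq : @K.fl = @FC7.fl := by
  funext wd
  simp only [K.fl, FC7.fl, K.band_eq, K.bor_eq, K.bnot_eq, K.beqB_eq, K.tbit_eq, K.kmax_eq,
    K.kmin_eq, K.nbeq_eq, K.nble_eq, K.bif_b, K.lall_eq, K.lany_eq, K.lmap_eq, K.lfilter_eq,
    K.llen_eq, K.lemp_eq, K.lsum_eq, K.lgetD_eq, K.lmem_eq, K.contains_eq, K.nodup_eq, K.lrange_eq,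
    K.lapp_eq, K.lflat_eq, K.lfmap_eq, K.ltake_eq, K.lfoldl_eq, K.leq_eq, decide_eq_true_eq, ne_eq,
    decide_not, Bool.decide_and, Bool.decide_or, Bool.decide_eq_true, Bool.decide_eq_false,
    Nat.succ_eq_add_one, Bool.beq_eq_decide_eq, bne, Bool.not_eq_true', Bool.or_eq_true,
    Bool.and_eq_true, K.flags_eq, K.sk_eq] <;> rfl

noncomputable def Sd_ubl (l : ℕ) : ℕ :=
  (Bool.rec (motive := fun _ => ℕ) (Bool.rec (motive := fun _ => ℕ) (Bool.rec (motive := fun _ => ℕ)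
    (nat_lit 1000) (nat_lit 4) (Nat.beq l (nat_lit 4))) (nat_lit 2) (Nat.beq l (nat_lit 3)))
    (nat_lit 3) (Nat.beq l (nat_lit 2)))

theorem Sd_ubl_eq : @K.Sd_ubl = @FC6.Sd.ubl := by
  funext l
  simp only [K.Sd_ubl, FC6.Sd.ubl, K.band_eq, K.bor_eq, K.bnot_eq, K.beqB_eq, K.tbit_eq, K.kmax_eq,
    K.kmin_eq, K.nbeq_eq, K.nble_eq, K.bif_b, K.lall_eq, K.lany_eq, K.lmap_eq, K.lfilter_eq,
    K.llen_eq, K.lemp_eq, K.lsum_eq, K.lgetD_eq, K.lmem_eq, K.contains_eq, K.nodup_eq, K.lrange_eq,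
    K.lapp_eq, K.lflat_eq, K.lfmap_eq, K.ltake_eq, K.lfoldl_eq, K.leq_eq, decide_eq_true_eq, ne_eq,
    decide_not, Bool.decide_and, Bool.decide_or, Bool.decide_eq_true, Bool.decide_eq_false,
    Nat.succ_eq_add_one, Bool.beq_eq_decide_eq, bne, Bool.not_eq_true', Bool.or_eq_true,
    Bool.and_eq_true] <;> rfl

noncomputable def Cf_chkW (F : FC7.Cf) : Bool :=
  (K.allN (FC6.Stars.nc (FC7.Cf.Z F)) (fun (a : ℕ) => (Bool.rec (motive := fun _ => Bool) (K.band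
    (K.band (K.band (K.band (K.band (K.bnot (Nat.beq a (nat_lit 0))) (FC7.Cf.ac F (FC6.Stars.pa
    (FC7.Cf.Z F) a))) (K.bnot (FC6.Sp.rl (FC6.Stars.Q (FC7.Cf.Z F)) (Nat.add (FC6.Stars.off
    (FC7.Cf.Z F) (FC6.Stars.pa (FC7.Cf.Z F) a)) (FC6.Stars.ja (FC7.Cf.Z F) a))))) (Nat.beq
    (FC6.Stars.m (FC7.Cf.Z F) a) (K.Sd_ubl (K.lgetD (K.kin (K.lmap K.sk (FC7.Cf.wd F (FC6.Stars.pa
    (FC7.Cf.Z F) a)))) (FC6.Stars.ja (FC7.Cf.Z F) a) (nat_lit 0))))) (Nat.ble (FC6.Stars.m (FC7.Cf.Z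
    F) a) (nat_lit 4))) (K.allN (FC6.Stars.m (FC7.Cf.Z F) a) (fun (j : ℕ) => (K.bnot (FC6.Sp.rl
    (FC6.Stars.Q (FC7.Cf.Z F)) (Nat.add (FC6.Stars.off (FC7.Cf.Z F) a) j)))))) (K.band (Nat.beq
    (FC6.Stars.m (FC7.Cf.Z F) a) (K.llen (K.fl (FC7.Cf.wd F a)))) (K.allN (FC6.Stars.m (FC7.Cf.Z F)
    a) (fun (j : ℕ) => (K.beqB (FC6.Sp.rl (FC6.Stars.Q (FC7.Cf.Z F)) (Nat.add (FC6.Stars.off
    (FC7.Cf.Z F) a) j)) (K.lgetD (K.fl (FC7.Cf.wd F a)) j false))))) (FC7.Cf.ac F a))))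

theorem Cf_chkW_eq : @K.Cf_chkW = @FC7.Cf.chkW := by
  funext F
  simp only [K.Cf_chkW, FC7.Cf.chkW, K.band_eq, K.bor_eq, K.bnot_eq, K.beqB_eq, K.tbit_eq,
    K.kmax_eq, K.kmin_eq, K.nbeq_eq, K.nble_eq, K.bif_b, K.lall_eq, K.lany_eq, K.lmap_eq,
    K.lfilter_eq, K.llen_eq, K.lemp_eq, K.lsum_eq, K.lgetD_eq, K.lmem_eq, K.contains_eq, K.nodup_eq,
    K.lrange_eq, K.lapp_eq, K.lflat_eq, K.lfmap_eq, K.ltake_eq, K.lfoldl_eq, K.leq_eq,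
    decide_eq_true_eq, ne_eq, decide_not, Bool.decide_and, Bool.decide_or, Bool.decide_eq_true,
    Bool.decide_eq_false, Nat.succ_eq_add_one, Bool.beq_eq_decide_eq, bne, Bool.not_eq_true',
    Bool.or_eq_true, Bool.and_eq_true, K.allN_eq, K.fl_eq, K.Sd_ubl_eq, K.kin_eq, K.sk_eq] <;> rfl

noncomputable def pos (wd : List ℕ) (i : ℕ) : ℕ :=
  (K.llen (K.fl (K.ltake i wd)))

theorem pos_eq : @K.pos = @FC7.pos := by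
  funext wd i
  simp only [K.pos, FC7.pos, K.band_eq, K.bor_eq, K.bnot_eq, K.beqB_eq, K.tbit_eq, K.kmax_eq,
    K.kmin_eq, K.nbeq_eq, K.nble_eq, K.bif_b, K.lall_eq, K.lany_eq, K.lmap_eq, K.lfilter_eq,
    K.llen_eq, K.lemp_eq, K.lsum_eq, K.lgetD_eq, K.lmem_eq, K.contains_eq, K.nodup_eq, K.lrange_eq,
    K.lapp_eq, K.lflat_eq, K.lfmap_eq, K.ltake_eq, K.lfoldl_eq, K.leq_eq, decide_eq_true_eq, ne_eq,
    decide_not, Bool.decide_and, Bool.decide_or, Bool.decide_eq_true, Bool.decide_eq_false,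
    Nat.succ_eq_add_one, Bool.beq_eq_decide_eq, bne, Bool.not_eq_true', Bool.or_eq_true,
    Bool.and_eq_true, K.fl_eq] <;> rfl

noncomputable def Cf_chkT (F : FC7.Cf) : Bool :=
  (K.allN (FC6.Stars.nc (FC7.Cf.Z F)) (fun (a : ℕ) => (K.bor (Nat.beq a (nat_lit 0)) (K.band (K.band
    (FC7.Cf.ac F (FC6.Stars.pa (FC7.Cf.Z F) a)) (Nat.ble (FC7.Cf.ra F a) (K.llen (FC7.Cf.wd F
    (FC6.Stars.pa (FC7.Cf.Z F) a))))) (Bool.rec (motive := fun _ => Bool) (Nat.beq (FC6.Stars.ja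
    (FC7.Cf.Z F) a) (Nat.add (K.pos (FC7.Cf.wd F (FC6.Stars.pa (FC7.Cf.Z F) a)) (FC7.Cf.ra F a))
    (nat_lit 1))) (Nat.beq (FC6.Stars.ja (FC7.Cf.Z F) a) (K.pos (FC7.Cf.wd F (FC6.Stars.pa (FC7.Cf.Z
    F) a)) (FC7.Cf.ra F a))) (FC7.Cf.ac F a))))))

theorem Cf_chkT_eq : @K.Cf_chkT = @FC7.Cf.chkT := by
  funext F
  simp only [K.Cf_chkT, FC7.Cf.chkT, K.band_eq, K.bor_eq, K.bnot_eq, K.beqB_eq, K.tbit_eq,
    K.kmax_eq, K.kmin_eq, K.nbeq_eq, K.nble_eq, K.bif_b, K.lall_eq, K.lany_eq, K.lmap_eq,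
    K.lfilter_eq, K.llen_eq, K.lemp_eq, K.lsum_eq, K.lgetD_eq, K.lmem_eq, K.contains_eq, K.nodup_eq,
    K.lrange_eq, K.lapp_eq, K.lflat_eq, K.lfmap_eq, K.ltake_eq, K.lfoldl_eq, K.leq_eq,
    decide_eq_true_eq, ne_eq, decide_not, Bool.decide_and, Bool.decide_or, Bool.decide_eq_true,
    Bool.decide_eq_false, Nat.succ_eq_add_one, Bool.beq_eq_decide_eq, bne, Bool.not_eq_true',
    Bool.or_eq_true, Bool.and_eq_true, K.allN_eq, K.pos_eq] <;> rfl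

noncomputable def Cf_chk (F : FC7.Cf) : Bool :=
  (K.band (K.band (K.band (K.Stars_chk (FC7.Cf.Z F) (FC7.Cf.P F)) (K.Cf_chkS F)) (K.Cf_chkW F))
    (K.Cf_chkT F))

theorem Cf_chk_eq : @K.Cf_chk = @FC7.Cf.chk := by
  funext F
  simp only [K.Cf_chk, FC7.Cf.chk, K.band_eq, K.bor_eq, K.bnot_eq, K.beqB_eq, K.tbit_eq, K.kmax_eq,
    K.kmin_eq, K.nbeq_eq, K.nble_eq, K.bif_b, K.lall_eq, K.lany_eq, K.lmap_eq, K.lfilter_eq,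
    K.llen_eq, K.lemp_eq, K.lsum_eq, K.lgetD_eq, K.lmem_eq, K.contains_eq, K.nodup_eq, K.lrange_eq,
    K.lapp_eq, K.lflat_eq, K.lfmap_eq, K.ltake_eq, K.lfoldl_eq, K.leq_eq, decide_eq_true_eq, ne_eq,
    decide_not, Bool.decide_and, Bool.decide_or, Bool.decide_eq_true, Bool.decide_eq_false,
    Nat.succ_eq_add_one, Bool.beq_eq_decide_eq, bne, Bool.not_eq_true', Bool.or_eq_true,
    Bool.and_eq_true, K.Stars_chk_eq, K.Cf_chkS_eq, K.Cf_chkW_eq, K.Cf_chkT_eq] <;> rfl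

noncomputable def WG_cf (W : FC7.WG) : FC7.Cf :=
  (FC7.Cf.mk (FC7.Wt.Z (FC7.WF.toWt (FC7.WG.toWF W))) (FC7.WF.PT (FC7.WG.toWF W)) (FC7.Wt.ac
    (FC7.WF.toWt (FC7.WG.toWF W))) (FC7.WG.wd W) (FC7.WG.ra W) (FC7.WG.ad W) (FC7.WG.al W)
    (FC7.WG.cs W) (FC7.WG.SD W))

theorem WG_cf_eq : @K.WG_cf = @FC7.WG.cf := by
  funext W
  simp only [K.WG_cf, FC7.WG.cf, K.band_eq, K.bor_eq, K.bnot_eq, K.beqB_eq, K.tbit_eq, K.kmax_eq,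
    K.kmin_eq, K.nbeq_eq, K.nble_eq, K.bif_b, K.lall_eq, K.lany_eq, K.lmap_eq, K.lfilter_eq,
    K.llen_eq, K.lemp_eq, K.lsum_eq, K.lgetD_eq, K.lmem_eq, K.contains_eq, K.nodup_eq, K.lrange_eq,
    K.lapp_eq, K.lflat_eq, K.lfmap_eq, K.ltake_eq, K.lfoldl_eq, K.leq_eq, decide_eq_true_eq, ne_eq,
    decide_not, Bool.decide_and, Bool.decide_or, Bool.decide_eq_true, Bool.decide_eq_false,
    Nat.succ_eq_add_one, Bool.beq_eq_decide_eq, bne, Bool.not_eq_true', Bool.or_eq_true,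
    Bool.and_eq_true] <;> rfl

noncomputable def Cf_rs (F : FC7.Cf) (a : ℕ) (i : ℕ) : ℕ :=
  (Nat.add (FC6.Stars.off (FC7.Cf.Z F) a) (K.pos (FC7.Cf.wd F a) i))

theorem Cf_rs_eq : @K.Cf_rs = @FC7.Cf.rs := by
  funext F a i
  simp only [K.Cf_rs, FC7.Cf.rs, K.band_eq, K.bor_eq, K.bnot_eq, K.beqB_eq, K.tbit_eq, K.kmax_eq,
    K.kmin_eq, K.nbeq_eq, K.nble_eq, K.bif_b, K.lall_eq, K.lany_eq, K.lmap_eq, K.lfilter_eq,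
    K.llen_eq, K.lemp_eq, K.lsum_eq, K.lgetD_eq, K.lmem_eq, K.contains_eq, K.nodup_eq, K.lrange_eq,
    K.lapp_eq, K.lflat_eq, K.lfmap_eq, K.ltake_eq, K.lfoldl_eq, K.leq_eq, decide_eq_true_eq, ne_eq,
    decide_not, Bool.decide_and, Bool.decide_or, Bool.decide_eq_true, Bool.decide_eq_false,
    Nat.succ_eq_add_one, Bool.beq_eq_decide_eq, bne, Bool.not_eq_true', Bool.or_eq_true,
    Bool.and_eq_true, K.pos_eq] <;> rfl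

noncomputable def lB (l : ℕ) : ℕ :=
  (Nat.mod (Nat.div l (nat_lit 4)) (nat_lit 4))

theorem lB_eq : @K.lB = @FC7.lB := by
  funext l
  simp only [K.lB, FC7.lB, K.band_eq, K.bor_eq, K.bnot_eq, K.beqB_eq, K.tbit_eq, K.kmax_eq,
    K.kmin_eq, K.nbeq_eq, K.nble_eq, K.bif_b, K.lall_eq, K.lany_eq, K.lmap_eq, K.lfilter_eq,
    K.llen_eq, K.lemp_eq, K.lsum_eq, K.lgetD_eq, K.lmem_eq, K.contains_eq, K.nodup_eq, K.lrange_eq,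
    K.lapp_eq, K.lflat_eq, K.lfmap_eq, K.ltake_eq, K.lfoldl_eq, K.leq_eq, decide_eq_true_eq, ne_eq,
    decide_not, Bool.decide_and, Bool.decide_or, Bool.decide_eq_true, Bool.decide_eq_false,
    Nat.succ_eq_add_one, Bool.beq_eq_decide_eq, bne, Bool.not_eq_true', Bool.or_eq_true,
    Bool.and_eq_true] <;> rfl

noncomputable def no3 (l : ℕ) : Bool :=
  (K.band (K.bnot (Nat.beq (K.lA l) (nat_lit 3))) (K.bor (K.bor (K.bnot (Nat.beq (K.lK l) (nat_lit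
    0))) (K.band (K.bnot (Nat.beq (K.lB l) (nat_lit 3))) (K.bnot (Nat.beq (K.lC l) (nat_lit 3)))))
    (K.uo l)))

theorem no3_eq : @K.no3 = @FC7.no3 := by
  funext l
  simp only [K.no3, FC7.no3, K.band_eq, K.bor_eq, K.bnot_eq, K.beqB_eq, K.tbit_eq, K.kmax_eq,
    K.kmin_eq, K.nbeq_eq, K.nble_eq, K.bif_b, K.lall_eq, K.lany_eq, K.lmap_eq, K.lfilter_eq,
    K.llen_eq, K.lemp_eq, K.lsum_eq, K.lgetD_eq, K.lmem_eq, K.contains_eq, K.nodup_eq, K.lrange_eq,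
    K.lapp_eq, K.lflat_eq, K.lfmap_eq, K.ltake_eq, K.lfoldl_eq, K.leq_eq, decide_eq_true_eq, ne_eq,
    decide_not, Bool.decide_and, Bool.decide_or, Bool.decide_eq_true, Bool.decide_eq_false,
    Nat.succ_eq_add_one, Bool.beq_eq_decide_eq, bne, Bool.not_eq_true', Bool.or_eq_true,
    Bool.and_eq_true, K.lA_eq, K.lK_eq, K.lB_eq, K.lC_eq, K.uo_eq] <;> rfl

noncomputable def Cf_chkL (F : FC7.Cf) (lt : ℕ → ℕ) : Bool :=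
  (K.allN (FC6.Stars.nc (FC7.Cf.Z F)) (fun (a : ℕ) => (Bool.rec (motive := fun _ => Bool) (K.band
    (Nat.ble (Nat.succ (FC7.Cf.ra F a)) (K.llen (FC7.Cf.wd F (FC6.Stars.pa (FC7.Cf.Z F) a))))
    (K.allN (FC6.Stars.m (FC7.Cf.Z F) a) (fun (i : ℕ) => (Nat.beq (K.wb (lt (Nat.add (FC6.Stars.off
    (FC7.Cf.Z F) a) i))) (K.wb (K.lgetD (FC7.Cf.wd F (FC6.Stars.pa (FC7.Cf.Z F) a)) (FC7.Cf.ra F a)
    (nat_lit 0))))))) (K.allN (K.llen (FC7.Cf.wd F a)) (fun (i : ℕ) => (K.band (Nat.beq (lt (K.Cf_rs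
    F a i)) (K.lgetD (FC7.Cf.wd F a) i (nat_lit 0))) (K.no3 (K.lgetD (FC7.Cf.wd F a) i (nat_lit
    0)))))) (FC7.Cf.ac F a))))

theorem Cf_chkL_eq : @K.Cf_chkL = @FC7.Cf.chkL := by
  funext F lt
  simp only [K.Cf_chkL, FC7.Cf.chkL, K.band_eq, K.bor_eq, K.bnot_eq, K.beqB_eq, K.tbit_eq,
    K.kmax_eq, K.kmin_eq, K.nbeq_eq, K.nble_eq, K.bif_b, K.lall_eq, K.lany_eq, K.lmap_eq,
    K.lfilter_eq, K.llen_eq, K.lemp_eq, K.lsum_eq, K.lgetD_eq, K.lmem_eq, K.contains_eq, K.nodup_eq,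
    K.lrange_eq, K.lapp_eq, K.lflat_eq, K.lfmap_eq, K.ltake_eq, K.lfoldl_eq, K.leq_eq,
    decide_eq_true_eq, ne_eq, decide_not, Bool.decide_and, Bool.decide_or, Bool.decide_eq_true,
    Bool.decide_eq_false, Nat.succ_eq_add_one, Bool.beq_eq_decide_eq, bne, Bool.not_eq_true',
    Bool.or_eq_true, Bool.and_eq_true, K.allN_eq, K.Cf_rs_eq, K.no3_eq, K.wb_eq] <;> rfl

noncomputable def Cf_exa (F : FC7.Cf) (k : ℕ) (j : ℕ) (j' : ℕ) : Bool :=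
  (K.bor (K.band (Nat.beq j (FC6.Sp.ρ (FC6.Stars.Q (FC7.Cf.Z F)) k)) (Nat.beq (FC6.Sp.ρ (FC6.Stars.Q
    (FC7.Cf.Z F)) j') (FC6.Sp.π (FC6.Stars.Q (FC7.Cf.Z F)) k))) (K.band (Nat.beq (FC6.Sp.ρ
    (FC6.Stars.Q (FC7.Cf.Z F)) j) k) (Nat.beq j' (FC6.Sp.ρ (FC6.Stars.Q (FC7.Cf.Z F)) (FC6.Sp.π
    (FC6.Stars.Q (FC7.Cf.Z F)) k)))))

theorem Cf_exa_eq : @K.Cf_exa = @FC7.Cf.exa := by
  funext F k j j'
  simp only [K.Cf_exa, FC7.Cf.exa, K.band_eq, K.bor_eq, K.bnot_eq, K.beqB_eq, K.tbit_eq, K.kmax_eq,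
    K.kmin_eq, K.nbeq_eq, K.nble_eq, K.bif_b, K.lall_eq, K.lany_eq, K.lmap_eq, K.lfilter_eq,
    K.llen_eq, K.lemp_eq, K.lsum_eq, K.lgetD_eq, K.lmem_eq, K.contains_eq, K.nodup_eq, K.lrange_eq,
    K.lapp_eq, K.lflat_eq, K.lfmap_eq, K.ltake_eq, K.lfoldl_eq, K.leq_eq, decide_eq_true_eq, ne_eq,
    decide_not, Bool.decide_and, Bool.decide_or, Bool.decide_eq_true, Bool.decide_eq_false,
    Nat.succ_eq_add_one, Bool.beq_eq_decide_eq, bne, Bool.not_eq_true', Bool.or_eq_true,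
    Bool.and_eq_true] <;> rfl

noncomputable def Cf_nco (F : FC7.Cf) (k : ℕ) (k' : ℕ) : Bool :=
  (K.band (K.bnot (Nat.beq (FC6.Sp.ρ (FC6.Stars.Q (FC7.Cf.Z F)) k) k')) (K.bnot (Nat.beq (FC6.Sp.ρ
    (FC6.Stars.Q (FC7.Cf.Z F)) k') k)))

theorem Cf_nco_eq : @K.Cf_nco = @FC7.Cf.nco := by
  funext F k k'
  simp only [K.Cf_nco, FC7.Cf.nco, K.band_eq, K.bor_eq, K.bnot_eq, K.beqB_eq, K.tbit_eq, K.kmax_eq,
    K.kmin_eq, K.nbeq_eq, K.nble_eq, K.bif_b, K.lall_eq, K.lany_eq, K.lmap_eq, K.lfilter_eq,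
    K.llen_eq, K.lemp_eq, K.lsum_eq, K.lgetD_eq, K.lmem_eq, K.contains_eq, K.nodup_eq, K.lrange_eq,
    K.lapp_eq, K.lflat_eq, K.lfmap_eq, K.ltake_eq, K.lfoldl_eq, K.leq_eq, decide_eq_true_eq, ne_eq,
    decide_not, Bool.decide_and, Bool.decide_or, Bool.decide_eq_true, Bool.decide_eq_false,
    Nat.succ_eq_add_one, Bool.beq_eq_decide_eq, bne, Bool.not_eq_true', Bool.or_eq_true,
    Bool.and_eq_true] <;> rfl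

noncomputable def Cf_ex22 (F : FC7.Cf) (bg : ℕ → Bool) (k : ℕ) (k' : ℕ) (j : ℕ) (j' : ℕ) : Bool :=
  (K.band (Nat.beq (FC6.Sp.ρ (FC6.Stars.Q (FC7.Cf.Z F)) (FC6.Sp.ρ (FC6.Stars.Q (FC7.Cf.Z F)) k)) k')
    (K.bor (K.band (Nat.beq (FC6.Sp.ρ (FC6.Stars.Q (FC7.Cf.Z F)) j) (FC6.Sp.π (FC6.Stars.Q (FC7.Cf.Z
    F)) k)) (Nat.beq j' (FC6.Sp.ρ (FC6.Stars.Q (FC7.Cf.Z F)) (FC6.Sp.π (FC6.Stars.Q (FC7.Cf.Z F))
    k')))) (K.band (K.band (K.band (FC6.Sp.rl (FC6.Stars.Q (FC7.Cf.Z F)) j) (K.bnot (bg (FC6.Sp.ρ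
    (FC6.Stars.Q (FC7.Cf.Z F)) k)))) (Nat.beq (FC6.Sp.ρ (FC6.Stars.Q (FC7.Cf.Z F)) (FC6.Sp.ρ
    (FC6.Stars.Q (FC7.Cf.Z F)) j)) (FC6.Sp.π (FC6.Stars.Q (FC7.Cf.Z F)) k))) (Nat.beq j' (FC6.Sp.ρ
    (FC6.Stars.Q (FC7.Cf.Z F)) (FC6.Sp.ρ (FC6.Stars.Q (FC7.Cf.Z F)) (FC6.Sp.π (FC6.Stars.Q (FC7.Cf.Z
    F)) k')))))))

theorem Cf_ex22_eq : @K.Cf_ex22 = @FC7.Cf.ex22 := by
  funext F bg k k' j j'
  simp only [K.Cf_ex22, FC7.Cf.ex22, K.band_eq, K.bor_eq, K.bnot_eq, K.beqB_eq, K.tbit_eq,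
    K.kmax_eq, K.kmin_eq, K.nbeq_eq, K.nble_eq, K.bif_b, K.lall_eq, K.lany_eq, K.lmap_eq,
    K.lfilter_eq, K.llen_eq, K.lemp_eq, K.lsum_eq, K.lgetD_eq, K.lmem_eq, K.contains_eq, K.nodup_eq,
    K.lrange_eq, K.lapp_eq, K.lflat_eq, K.lfmap_eq, K.ltake_eq, K.lfoldl_eq, K.leq_eq,
    decide_eq_true_eq, ne_eq, decide_not, Bool.decide_and, Bool.decide_or, Bool.decide_eq_true,
    Bool.decide_eq_false, Nat.succ_eq_add_one, Bool.beq_eq_decide_eq, bne, Bool.not_eq_true',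
    Bool.or_eq_true, Bool.and_eq_true] <;> rfl

noncomputable def Cf_exc (F : FC7.Cf) (bg : ℕ → Bool) (k : ℕ) (k' : ℕ) (j : ℕ) (j' : ℕ) : Bool :=
  (K.bor (K.bor (K.band (Nat.beq j (FC6.Sp.π (FC6.Stars.Q (FC7.Cf.Z F)) k)) (Nat.beq j' (FC6.Sp.π
    (FC6.Stars.Q (FC7.Cf.Z F)) k'))) (K.Cf_ex22 F bg k k' j j')) (K.Cf_ex22 F bg k' k j' j))

theorem Cf_exc_eq : @K.Cf_exc = @FC7.Cf.exc := by
  funext F bg k k' j j'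
  simp only [K.Cf_exc, FC7.Cf.exc, K.band_eq, K.bor_eq, K.bnot_eq, K.beqB_eq, K.tbit_eq, K.kmax_eq,
    K.kmin_eq, K.nbeq_eq, K.nble_eq, K.bif_b, K.lall_eq, K.lany_eq, K.lmap_eq, K.lfilter_eq,
    K.llen_eq, K.lemp_eq, K.lsum_eq, K.lgetD_eq, K.lmem_eq, K.contains_eq, K.nodup_eq, K.lrange_eq,
    K.lapp_eq, K.lflat_eq, K.lfmap_eq, K.ltake_eq, K.lfoldl_eq, K.leq_eq, decide_eq_true_eq, ne_eq,
    decide_not, Bool.decide_and, Bool.decide_or, Bool.decide_eq_true, Bool.decide_eq_false,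
    Nat.succ_eq_add_one, Bool.beq_eq_decide_eq, bne, Bool.not_eq_true', Bool.or_eq_true,
    Bool.and_eq_true, K.Cf_ex22_eq] <;> rfl

noncomputable def Cf_rule4 (F : FC7.Cf) (bg : ℕ → Bool) (j : ℕ) (j' : ℕ) : Bool :=
  (K.bor (K.band (Nat.beq (FC6.Stars.ca (FC7.Cf.Z F) j) (FC6.Stars.ca (FC7.Cf.Z F) j')) (K.bnot
    (Nat.beq j j'))) (K.band (K.beqB (FC6.Sp.rl (FC6.Stars.Q (FC7.Cf.Z F)) j) (FC6.Sp.rl
    (FC6.Stars.Q (FC7.Cf.Z F)) j')) (K.bor (K.band (K.bnot (Nat.beq (FC7.Cf.ad F (FC6.Stars.ca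
    (FC7.Cf.Z F) j) (FC6.Stars.ca (FC7.Cf.Z F) j')) (nat_lit 0))) (K.bnot (K.Cf_exa F (Nat.sub
    (FC7.Cf.ad F (FC6.Stars.ca (FC7.Cf.Z F) j) (FC6.Stars.ca (FC7.Cf.Z F) j')) (nat_lit 1)) j j')))
    (K.lany (K.lrange (FC6.Stars.nc (FC7.Cf.Z F))) (fun (m : ℕ) => (K.band (K.band (K.band (K.band
    (K.bnot (Nat.beq (FC7.Cf.ad F m (FC6.Stars.ca (FC7.Cf.Z F) j)) (nat_lit 0))) (K.bnot (Nat.beq
    (FC7.Cf.ad F m (FC6.Stars.ca (FC7.Cf.Z F) j')) (nat_lit 0)))) (K.bnot (Nat.beq (FC6.Stars.ca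
    (FC7.Cf.Z F) j) (FC6.Stars.ca (FC7.Cf.Z F) j')))) (K.Cf_nco F (Nat.sub (FC7.Cf.ad F m
    (FC6.Stars.ca (FC7.Cf.Z F) j)) (nat_lit 1)) (Nat.sub (FC7.Cf.ad F m (FC6.Stars.ca (FC7.Cf.Z F)
    j')) (nat_lit 1)))) (K.bnot (K.Cf_exc F bg (Nat.sub (FC7.Cf.ad F m (FC6.Stars.ca (FC7.Cf.Z F)
    j)) (nat_lit 1)) (Nat.sub (FC7.Cf.ad F m (FC6.Stars.ca (FC7.Cf.Z F) j')) (nat_lit 1)) j
    j'))))))))

theorem Cf_rule4_eq : @K.Cf_rule4 = @FC7.Cf.rule4 := by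
  funext F bg j j'
  simp only [K.Cf_rule4, FC7.Cf.rule4, K.band_eq, K.bor_eq, K.bnot_eq, K.beqB_eq, K.tbit_eq,
    K.kmax_eq, K.kmin_eq, K.nbeq_eq, K.nble_eq, K.bif_b, K.lall_eq, K.lany_eq, K.lmap_eq,
    K.lfilter_eq, K.llen_eq, K.lemp_eq, K.lsum_eq, K.lgetD_eq, K.lmem_eq, K.contains_eq, K.nodup_eq,
    K.lrange_eq, K.lapp_eq, K.lflat_eq, K.lfmap_eq, K.ltake_eq, K.lfoldl_eq, K.leq_eq,
    decide_eq_true_eq, ne_eq, decide_not, Bool.decide_and, Bool.decide_or, Bool.decide_eq_true,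
    Bool.decide_eq_false, Nat.succ_eq_add_one, Bool.beq_eq_decide_eq, bne, Bool.not_eq_true',
    Bool.or_eq_true, Bool.and_eq_true, K.Cf_exa_eq, K.Cf_nco_eq, K.Cf_exc_eq] <;> rfl

noncomputable def Cf_chk4 (F : FC7.Cf) (bg : ℕ → Bool) : Bool :=
  (K.allN (FC6.Sp.ns (FC6.Stars.Q (FC7.Cf.Z F))) (fun (j : ℕ) => (K.allN (FC6.Sp.ns (FC6.Stars.Q
    (FC7.Cf.Z F))) (fun (j' : ℕ) => (K.bor (K.bnot (FC7.Cf.SD F j j')) (K.Cf_rule4 F bg j j'))))))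

theorem Cf_chk4_eq : @K.Cf_chk4 = @FC7.Cf.chk4 := by
  funext F bg
  simp only [K.Cf_chk4, FC7.Cf.chk4, K.band_eq, K.bor_eq, K.bnot_eq, K.beqB_eq, K.tbit_eq,
    K.kmax_eq, K.kmin_eq, K.nbeq_eq, K.nble_eq, K.bif_b, K.lall_eq, K.lany_eq, K.lmap_eq,
    K.lfilter_eq, K.llen_eq, K.lemp_eq, K.lsum_eq, K.lgetD_eq, K.lmem_eq, K.contains_eq, K.nodup_eq,
    K.lrange_eq, K.lapp_eq, K.lflat_eq, K.lfmap_eq, K.ltake_eq, K.lfoldl_eq, K.leq_eq,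
    decide_eq_true_eq, ne_eq, decide_not, Bool.decide_and, Bool.decide_or, Bool.decide_eq_true,
    Bool.decide_eq_false, Nat.succ_eq_add_one, Bool.beq_eq_decide_eq, bne, Bool.not_eq_true',
    Bool.or_eq_true, Bool.and_eq_true, K.allN_eq, K.Cf_rule4_eq] <;> rfl

noncomputable def Cf_bgx (F : FC7.Cf) (bg : ℕ → Bool) (i : ℕ) : Bool :=
  (K.bor (K.bor (bg i) (K.band (K.bnot (Nat.beq (FC6.Sp.π (FC6.Stars.Q (FC7.Cf.Z F)) (FC6.Sp.ρi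
    (FC6.Stars.Q (FC7.Cf.Z F)) i)) (FC6.Sp.ρi (FC6.Stars.Q (FC7.Cf.Z F)) i))) (bg (FC6.Sp.ρi
    (FC6.Stars.Q (FC7.Cf.Z F)) (FC6.Sp.π (FC6.Stars.Q (FC7.Cf.Z F)) (FC6.Sp.ρi (FC6.Stars.Q
    (FC7.Cf.Z F)) i)))))) (K.band (K.bnot (Nat.beq (FC6.Sp.π (FC6.Stars.Q (FC7.Cf.Z F)) (FC6.Sp.ρ
    (FC6.Stars.Q (FC7.Cf.Z F)) i)) (FC6.Sp.ρ (FC6.Stars.Q (FC7.Cf.Z F)) i))) (bg (FC6.Sp.ρ
    (FC6.Stars.Q (FC7.Cf.Z F)) (FC6.Sp.π (FC6.Stars.Q (FC7.Cf.Z F)) (FC6.Sp.ρ (FC6.Stars.Q (FC7.Cf.Z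
    F)) i))))))

theorem Cf_bgx_eq : @K.Cf_bgx = @FC7.Cf.bgx := by
  funext F bg i
  simp only [K.Cf_bgx, FC7.Cf.bgx, K.band_eq, K.bor_eq, K.bnot_eq, K.beqB_eq, K.tbit_eq, K.kmax_eq,
    K.kmin_eq, K.nbeq_eq, K.nble_eq, K.bif_b, K.lall_eq, K.lany_eq, K.lmap_eq, K.lfilter_eq,
    K.llen_eq, K.lemp_eq, K.lsum_eq, K.lgetD_eq, K.lmem_eq, K.contains_eq, K.nodup_eq, K.lrange_eq,
    K.lapp_eq, K.lflat_eq, K.lfmap_eq, K.ltake_eq, K.lfoldl_eq, K.leq_eq, decide_eq_true_eq, ne_eq,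
    decide_not, Bool.decide_and, Bool.decide_or, Bool.decide_eq_true, Bool.decide_eq_false,
    Nat.succ_eq_add_one, Bool.beq_eq_decide_eq, bne, Bool.not_eq_true', Bool.or_eq_true,
    Bool.and_eq_true] <;> rfl

noncomputable def Cf_big (F : FC7.Cf) (i : ℕ) : Bool :=
  (K.bor (K.band (K.bnot (Nat.beq (FC6.Sp.π (FC6.Stars.Q (FC7.Cf.Z F)) i) i)) (K.bnot (Nat.beq
    (FC6.Stars.m (FC7.Cf.Z F) (FC6.Stars.ca (FC7.Cf.Z F) (FC6.Sp.π (FC6.Stars.Q (FC7.Cf.Z F)) i)))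
    (nat_lit 4)))) (K.band (K.band (FC7.Cf.ac F (FC6.Stars.ca (FC7.Cf.Z F) i)) (K.bnot (FC6.Sp.rl
    (FC6.Stars.Q (FC7.Cf.Z F)) i))) (Nat.ble (nat_lit 5) (K.lgetD (K.kin (K.lmap K.sk (FC7.Cf.wd F
    (FC6.Stars.ca (FC7.Cf.Z F) i)))) (Nat.sub i (FC6.Stars.off (FC7.Cf.Z F) (FC6.Stars.ca (FC7.Cf.Z
    F) i))) (nat_lit 0)))))

theorem Cf_big_eq : @K.Cf_big = @FC7.Cf.big := by
  funext F i
  simp only [K.Cf_big, FC7.Cf.big, K.band_eq, K.bor_eq, K.bnot_eq, K.beqB_eq, K.tbit_eq, K.kmax_eq,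
    K.kmin_eq, K.nbeq_eq, K.nble_eq, K.bif_b, K.lall_eq, K.lany_eq, K.lmap_eq, K.lfilter_eq,
    K.llen_eq, K.lemp_eq, K.lsum_eq, K.lgetD_eq, K.lmem_eq, K.contains_eq, K.nodup_eq, K.lrange_eq,
    K.lapp_eq, K.lflat_eq, K.lfmap_eq, K.ltake_eq, K.lfoldl_eq, K.leq_eq, decide_eq_true_eq, ne_eq,
    decide_not, Bool.decide_and, Bool.decide_or, Bool.decide_eq_true, Bool.decide_eq_false,
    Nat.succ_eq_add_one, Bool.beq_eq_decide_eq, bne, Bool.not_eq_true', Bool.or_eq_true,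
    Bool.and_eq_true, K.kin_eq, K.sk_eq] <;> rfl

noncomputable def WG_bg0 (W : FC7.WG) (i : ℕ) : Bool :=
  (K.bor (K.bor (K.Cf_big (K.WG_cf W) i) (K.band (K.bnot (K.lemp (FC7.WG.bw W i))) (K.bnot (Nat.beq
    (K.llen (K.fl (FC7.WG.bw W i))) (nat_lit 4))))) (K.lmem i (FC7.WG.pl W)))

theorem WG_bg0_eq : @K.WG_bg0 = @FC7.WG.bg0 := by
  funext W i
  simp only [K.WG_bg0, FC7.WG.bg0, K.band_eq, K.bor_eq, K.bnot_eq, K.beqB_eq, K.tbit_eq, K.kmax_eq,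
    K.kmin_eq, K.nbeq_eq, K.nble_eq, K.bif_b, K.lall_eq, K.lany_eq, K.lmap_eq, K.lfilter_eq,
    K.llen_eq, K.lemp_eq, K.lsum_eq, K.lgetD_eq, K.lmem_eq, K.contains_eq, K.nodup_eq, K.lrange_eq,
    K.lapp_eq, K.lflat_eq, K.lfmap_eq, K.ltake_eq, K.lfoldl_eq, K.leq_eq, decide_eq_true_eq, ne_eq,
    decide_not, Bool.decide_and, Bool.decide_or, Bool.decide_eq_true, Bool.decide_eq_false,
    Nat.succ_eq_add_one, Bool.beq_eq_decide_eq, bne, Bool.not_eq_true', Bool.or_eq_true,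
    Bool.and_eq_true, K.Cf_big_eq, K.WG_cf_eq, K.fl_eq] <;> rfl

noncomputable def WG_bg (W : FC7.WG) (i : ℕ) : Bool :=
  (K.Cf_bgx (K.WG_cf W) (K.WG_bg0 W) i)

theorem WG_bg_eq : @K.WG_bg = @FC7.WG.bg := by
  funext W i
  simp only [K.WG_bg, FC7.WG.bg, K.band_eq, K.bor_eq, K.bnot_eq, K.beqB_eq, K.tbit_eq, K.kmax_eq,
    K.kmin_eq, K.nbeq_eq, K.nble_eq, K.bif_b, K.lall_eq, K.lany_eq, K.lmap_eq, K.lfilter_eq,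
    K.llen_eq, K.lemp_eq, K.lsum_eq, K.lgetD_eq, K.lmem_eq, K.contains_eq, K.nodup_eq, K.lrange_eq,
    K.lapp_eq, K.lflat_eq, K.lfmap_eq, K.ltake_eq, K.lfoldl_eq, K.leq_eq, decide_eq_true_eq, ne_eq,
    decide_not, Bool.decide_and, Bool.decide_or, Bool.decide_eq_true, Bool.decide_eq_false,
    Nat.succ_eq_add_one, Bool.beq_eq_decide_eq, bne, Bool.not_eq_true', Bool.or_eq_true,
    Bool.and_eq_true, K.Cf_bgx_eq, K.WG_cf_eq, K.WG_bg0_eq] <;> rfl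

noncomputable def Cf_p4 (F : FC7.Cf) (bg : ℕ → Bool) (k : ℕ) (j : ℕ) (j' : ℕ) : Bool :=
  (K.bor (K.bor (K.band (Nat.beq j (FC6.Sp.ρ (FC6.Stars.Q (FC7.Cf.Z F)) k)) (Nat.beq (FC6.Sp.ρ
    (FC6.Stars.Q (FC7.Cf.Z F)) (FC6.Sp.ρ (FC6.Stars.Q (FC7.Cf.Z F)) j')) (FC6.Sp.π (FC6.Stars.Q
    (FC7.Cf.Z F)) k))) (K.band (Nat.beq j (FC6.Sp.ρ (FC6.Stars.Q (FC7.Cf.Z F)) (FC6.Sp.ρ
    (FC6.Stars.Q (FC7.Cf.Z F)) k))) (Nat.beq (FC6.Sp.ρ (FC6.Stars.Q (FC7.Cf.Z F)) j') (FC6.Sp.π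
    (FC6.Stars.Q (FC7.Cf.Z F)) k)))) (K.band (K.band (K.band (K.band (FC6.Sp.rl (FC6.Stars.Q
    (FC7.Cf.Z F)) j) (FC6.Sp.rl (FC6.Stars.Q (FC7.Cf.Z F)) j')) (K.bnot (bg (FC6.Sp.ρ (FC6.Stars.Q
    (FC7.Cf.Z F)) k)))) (Nat.beq j (FC6.Sp.ρ (FC6.Stars.Q (FC7.Cf.Z F)) (FC6.Sp.ρ (FC6.Stars.Q
    (FC7.Cf.Z F)) k)))) (Nat.beq (FC6.Sp.ρ (FC6.Stars.Q (FC7.Cf.Z F)) (FC6.Sp.ρ (FC6.Stars.Q
    (FC7.Cf.Z F)) j')) (FC6.Sp.π (FC6.Stars.Q (FC7.Cf.Z F)) k))))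

theorem Cf_p4_eq : @K.Cf_p4 = @FC7.Cf.p4 := by
  funext F bg k j j'
  simp only [K.Cf_p4, FC7.Cf.p4, K.band_eq, K.bor_eq, K.bnot_eq, K.beqB_eq, K.tbit_eq, K.kmax_eq,
    K.kmin_eq, K.nbeq_eq, K.nble_eq, K.bif_b, K.lall_eq, K.lany_eq, K.lmap_eq, K.lfilter_eq,
    K.llen_eq, K.lemp_eq, K.lsum_eq, K.lgetD_eq, K.lmem_eq, K.contains_eq, K.nodup_eq, K.lrange_eq,
    K.lapp_eq, K.lflat_eq, K.lfmap_eq, K.ltake_eq, K.lfoldl_eq, K.leq_eq, decide_eq_true_eq, ne_eq,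
    decide_not, Bool.decide_and, Bool.decide_or, Bool.decide_eq_true, Bool.decide_eq_false,
    Nat.succ_eq_add_one, Bool.beq_eq_decide_eq, bne, Bool.not_eq_true', Bool.or_eq_true,
    Bool.and_eq_true] <;> rfl

noncomputable def Cf_nadj (F : FC7.Cf) (bg : ℕ → Bool) (j : ℕ) (j' : ℕ) : Bool :=
  (K.band (K.band (K.band (K.band (K.bnot (Nat.beq (FC7.Cf.ad F (FC6.Stars.ca (FC7.Cf.Z F) j)
    (FC6.Stars.ca (FC7.Cf.Z F) j')) (nat_lit 0))) (K.bnot (Nat.beq j (Nat.sub (FC7.Cf.ad F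
    (FC6.Stars.ca (FC7.Cf.Z F) j) (FC6.Stars.ca (FC7.Cf.Z F) j')) (nat_lit 1))))) (K.bnot (Nat.beq
    j' (FC6.Sp.π (FC6.Stars.Q (FC7.Cf.Z F)) (Nat.sub (FC7.Cf.ad F (FC6.Stars.ca (FC7.Cf.Z F) j)
    (FC6.Stars.ca (FC7.Cf.Z F) j')) (nat_lit 1)))))) (K.bnot (K.Cf_p4 F bg (Nat.sub (FC7.Cf.ad F
    (FC6.Stars.ca (FC7.Cf.Z F) j) (FC6.Stars.ca (FC7.Cf.Z F) j')) (nat_lit 1)) j j'))) (K.bnot
    (K.Cf_p4 F bg (FC6.Sp.π (FC6.Stars.Q (FC7.Cf.Z F)) (Nat.sub (FC7.Cf.ad F (FC6.Stars.ca (FC7.Cf.Z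
    F) j) (FC6.Stars.ca (FC7.Cf.Z F) j')) (nat_lit 1))) j' j)))

theorem Cf_nadj_eq : @K.Cf_nadj = @FC7.Cf.nadj := by
  funext F bg j j'
  simp only [K.Cf_nadj, FC7.Cf.nadj, K.band_eq, K.bor_eq, K.bnot_eq, K.beqB_eq, K.tbit_eq,
    K.kmax_eq, K.kmin_eq, K.nbeq_eq, K.nble_eq, K.bif_b, K.lall_eq, K.lany_eq, K.lmap_eq,
    K.lfilter_eq, K.llen_eq, K.lemp_eq, K.lsum_eq, K.lgetD_eq, K.lmem_eq, K.contains_eq, K.nodup_eq,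
    K.lrange_eq, K.lapp_eq, K.lflat_eq, K.lfmap_eq, K.ltake_eq, K.lfoldl_eq, K.leq_eq,
    decide_eq_true_eq, ne_eq, decide_not, Bool.decide_and, Bool.decide_or, Bool.decide_eq_true,
    Bool.decide_eq_false, Nat.succ_eq_add_one, Bool.beq_eq_decide_eq, bne, Bool.not_eq_true',
    Bool.or_eq_true, Bool.and_eq_true, K.Cf_p4_eq] <;> rfl

noncomputable def WG_nqc (W : FC7.WG) (q : ℕ × ℕ) : Bool :=
  (K.band (K.band (FC6.Sp.rl (FC6.Stars.Q (FC7.Wt.Z (FC7.WF.toWt (FC7.WG.toWF W)))) (Prod.fst q))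
    (FC6.Sp.rl (FC6.Stars.Q (FC7.Wt.Z (FC7.WF.toWt (FC7.WG.toWF W)))) (Prod.snd q))) (K.bor (K.band
    (K.band (Nat.beq (FC6.Stars.ca (FC7.Wt.Z (FC7.WF.toWt (FC7.WG.toWF W))) (Prod.fst q))
    (FC6.Stars.ca (FC7.Wt.Z (FC7.WF.toWt (FC7.WG.toWF W))) (Prod.snd q))) (K.bnot (Nat.beq (FC6.Sp.ρ
    (FC6.Stars.Q (FC7.Wt.Z (FC7.WF.toWt (FC7.WG.toWF W)))) (Prod.fst q)) (Prod.snd q)))) (K.bnot
    (Nat.beq (FC6.Sp.ρ (FC6.Stars.Q (FC7.Wt.Z (FC7.WF.toWt (FC7.WG.toWF W)))) (Prod.snd q))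
    (Prod.fst q)))) (K.Cf_nadj (K.WG_cf W) (K.WG_bg W) (Prod.fst q) (Prod.snd q))))

theorem WG_nqc_eq : @K.WG_nqc = @FC7.WG.nqc := by
  funext W q
  simp only [K.WG_nqc, FC7.WG.nqc, K.band_eq, K.bor_eq, K.bnot_eq, K.beqB_eq, K.tbit_eq, K.kmax_eq,
    K.kmin_eq, K.nbeq_eq, K.nble_eq, K.bif_b, K.lall_eq, K.lany_eq, K.lmap_eq, K.lfilter_eq,
    K.llen_eq, K.lemp_eq, K.lsum_eq, K.lgetD_eq, K.lmem_eq, K.contains_eq, K.nodup_eq, K.lrange_eq,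
    K.lapp_eq, K.lflat_eq, K.lfmap_eq, K.ltake_eq, K.lfoldl_eq, K.leq_eq, decide_eq_true_eq, ne_eq,
    decide_not, Bool.decide_and, Bool.decide_or, Bool.decide_eq_true, Bool.decide_eq_false,
    Nat.succ_eq_add_one, Bool.beq_eq_decide_eq, bne, Bool.not_eq_true', Bool.or_eq_true,
    Bool.and_eq_true, K.Cf_nadj_eq, K.WG_cf_eq, K.WG_bg_eq] <;> rfl

noncomputable def WG_oqc (W : FC7.WG) (q : ℕ × ℕ) : Bool :=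
  (K.band (K.band (FC6.Sp.rl (FC6.Stars.Q (FC7.Wt.Z (FC7.WF.toWt (FC7.WG.toWF W)))) (Prod.fst q))
    (K.bnot (FC6.Sp.rl (FC6.Stars.Q (FC7.Wt.Z (FC7.WF.toWt (FC7.WG.toWF W)))) (Prod.snd q)))) (K.bor
    (K.band (K.band (Nat.beq (FC6.Stars.ca (FC7.Wt.Z (FC7.WF.toWt (FC7.WG.toWF W))) (Prod.fst q))
    (FC6.Stars.ca (FC7.Wt.Z (FC7.WF.toWt (FC7.WG.toWF W))) (Prod.snd q))) (K.bnot (Nat.beq (FC6.Sp.ρ
    (FC6.Stars.Q (FC7.Wt.Z (FC7.WF.toWt (FC7.WG.toWF W)))) (Prod.fst q)) (Prod.snd q)))) (K.bnot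
    (Nat.beq (FC6.Sp.ρ (FC6.Stars.Q (FC7.Wt.Z (FC7.WF.toWt (FC7.WG.toWF W)))) (Prod.snd q))
    (Prod.fst q)))) (K.Cf_nadj (K.WG_cf W) (K.WG_bg W) (Prod.fst q) (Prod.snd q))))

theorem WG_oqc_eq : @K.WG_oqc = @FC7.WG.oqc := by
  funext W q
  simp only [K.WG_oqc, FC7.WG.oqc, K.band_eq, K.bor_eq, K.bnot_eq, K.beqB_eq, K.tbit_eq, K.kmax_eq,
    K.kmin_eq, K.nbeq_eq, K.nble_eq, K.bif_b, K.lall_eq, K.lany_eq, K.lmap_eq, K.lfilter_eq,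
    K.llen_eq, K.lemp_eq, K.lsum_eq, K.lgetD_eq, K.lmem_eq, K.contains_eq, K.nodup_eq, K.lrange_eq,
    K.lapp_eq, K.lflat_eq, K.lfmap_eq, K.ltake_eq, K.lfoldl_eq, K.leq_eq, decide_eq_true_eq, ne_eq,
    decide_not, Bool.decide_and, Bool.decide_or, Bool.decide_eq_true, Bool.decide_eq_false,
    Nat.succ_eq_add_one, Bool.beq_eq_decide_eq, bne, Bool.not_eq_true', Bool.or_eq_true,
    Bool.and_eq_true, K.Cf_nadj_eq, K.WG_cf_eq, K.WG_bg_eq] <;> rfl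

noncomputable def gchk (T : List (ℕ × ℕ × ℕ)) (P : FC6.Pa) (x : ℕ) (m : ℕ) (ex : ℕ → ℕ → Bool) :
  Bool :=
  (K.band (K.lall T (fun (p : ℕ × ℕ × ℕ) => (K.band (K.band (K.band (K.band (K.band (K.band (K.band
    (K.band (Nat.ble (Nat.succ (Prod.fst p)) (FC6.Pa.n P)) (Nat.ble (Nat.succ (Prod.fst (Prod.snd
    p))) (FC6.Pa.n P))) (Nat.beq (FC6.Pa.α P (Prod.fst p)) (Prod.fst p))) (K.allN (FC6.Pa.n P) (fun
    (j : ℕ) => (K.bor (K.bor (K.bnot (Nat.beq (FC6.Pa.α P j) j)) (K.bnot (Nat.beq (FC6.Pa.l P j)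
    (FC6.Pa.l P (FC6.Pa.φ P (Prod.fst p)))))) (Nat.beq j (Prod.fst (Prod.snd p))))))) (Nat.ble x
    (FC6.Pa.l P (Prod.fst p)))) (Nat.ble (Nat.succ (FC6.Pa.l P (Prod.fst p))) m)) (Nat.ble x
    (FC6.Pa.l P (FC6.Pa.φ P (Prod.fst (Prod.snd p)))))) (Nat.ble (Nat.succ (FC6.Pa.l P (FC6.Pa.φ P
    (Prod.fst (Prod.snd p))))) m)) (K.allN (FC6.Pa.n P) (fun (j : ℕ) => (K.bor (K.bor (K.bor (K.bor
    (K.bnot (Nat.beq (FC6.Pa.α P j) j)) (K.bnot (FC6.Pa.real P j))) (K.tbit (Prod.snd (Prod.snd p))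
    j)) (ex (FC6.Pa.l P j) (FC6.Pa.l P (FC6.Pa.φ P (Prod.fst p))))) (ex (FC6.Pa.l P (FC6.Pa.φ P j))
    (FC6.Pa.l P (FC6.Pa.φ P (Prod.fst p)))))))))) (K.nodup (K.lmap (fun (p : ℕ × ℕ × ℕ) => (FC6.Pa.l
    P (FC6.Pa.φ P (Prod.fst p)))) T)))

theorem gchk_eq : @K.gchk = @FC7.gchk := by
  funext T P x m ex
  simp only [K.gchk, FC7.gchk, K.band_eq, K.bor_eq, K.bnot_eq, K.beqB_eq, K.tbit_eq, K.kmax_eq,
    K.kmin_eq, K.nbeq_eq, K.nble_eq, K.bif_b, K.lall_eq, K.lany_eq, K.lmap_eq, K.lfilter_eq,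
    K.llen_eq, K.lemp_eq, K.lsum_eq, K.lgetD_eq, K.lmem_eq, K.contains_eq, K.nodup_eq, K.lrange_eq,
    K.lapp_eq, K.lflat_eq, K.lfmap_eq, K.ltake_eq, K.lfoldl_eq, K.leq_eq, decide_eq_true_eq, ne_eq,
    decide_not, Bool.decide_and, Bool.decide_or, Bool.decide_eq_true, Bool.decide_eq_false,
    Nat.succ_eq_add_one, Bool.beq_eq_decide_eq, bne, Bool.not_eq_true', Bool.or_eq_true,
    Bool.and_eq_true, K.allN_eq] <;> rfl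

noncomputable def cl5 (E : List (List (ℕ × ℕ × Bool))) (a : ℕ) (b : ℕ) : Bool :=
  (K.lany E (fun (C : List (ℕ × ℕ × Bool)) => (K.lall C (fun (t : ℕ × ℕ × Bool) => (K.band (Prod.snd
    (Prod.snd t)) (K.bor (K.band (Nat.beq (Prod.fst t) a) (Nat.beq (Prod.fst (Prod.snd t)) b))
    (K.band (Nat.beq (Prod.fst t) b) (Nat.beq (Prod.fst (Prod.snd t)) a))))))))

theorem cl5_eq : @K.cl5 = @FC7.cl5 := by
  funext E a b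
  simp only [K.cl5, FC7.cl5, K.band_eq, K.bor_eq, K.bnot_eq, K.beqB_eq, K.tbit_eq, K.kmax_eq,
    K.kmin_eq, K.nbeq_eq, K.nble_eq, K.bif_b, K.lall_eq, K.lany_eq, K.lmap_eq, K.lfilter_eq,
    K.llen_eq, K.lemp_eq, K.lsum_eq, K.lgetD_eq, K.lmem_eq, K.contains_eq, K.nodup_eq, K.lrange_eq,
    K.lapp_eq, K.lflat_eq, K.lfmap_eq, K.ltake_eq, K.lfoldl_eq, K.leq_eq, decide_eq_true_eq, ne_eq,
    decide_not, Bool.decide_and, Bool.decide_or, Bool.decide_eq_true, Bool.decide_eq_false,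
    Nat.succ_eq_add_one, Bool.beq_eq_decide_eq, bne, Bool.not_eq_true', Bool.or_eq_true,
    Bool.and_eq_true] <;> rfl

noncomputable def WF_pd5 (W : FC7.WF) (E : List (List (ℕ × ℕ × Bool))) (j : ℕ) : Bool :=
  (K.band (K.band (K.band (FC6.Pa.real (FC7.Fc.P (FC7.WF.F W)) j) (Nat.beq (FC6.Pa.u (FC7.Fc.P
    (FC7.WF.F W)) j) (nat_lit 0))) (K.bnot (FC7.Fc.uk (FC7.WF.F W) j))) (K.bor (K.band (K.bnot
    (FC7.OD.lb (FC7.Fc.O (FC7.WF.F W)) j)) (K.bnot (FC7.Fc.lu (FC7.WF.F W) j))) (K.cl5 E (FC6.Pa.l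
    (FC7.Fc.P (FC7.WF.F W)) j) (FC6.Pa.l (FC7.Fc.P (FC7.WF.F W)) (FC6.Pa.φ (FC7.Fc.P (FC7.WF.F W))
    j)))))

theorem WF_pd5_eq : @K.WF_pd5 = @FC7.WF.pd5 := by
  funext W E j
  simp only [K.WF_pd5, FC7.WF.pd5, K.band_eq, K.bor_eq, K.bnot_eq, K.beqB_eq, K.tbit_eq, K.kmax_eq,
    K.kmin_eq, K.nbeq_eq, K.nble_eq, K.bif_b, K.lall_eq, K.lany_eq, K.lmap_eq, K.lfilter_eq,
    K.llen_eq, K.lemp_eq, K.lsum_eq, K.lgetD_eq, K.lmem_eq, K.contains_eq, K.nodup_eq, K.lrange_eq,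
    K.lapp_eq, K.lflat_eq, K.lfmap_eq, K.ltake_eq, K.lfoldl_eq, K.leq_eq, decide_eq_true_eq, ne_eq,
    decide_not, Bool.decide_and, Bool.decide_or, Bool.decide_eq_true, Bool.decide_eq_false,
    Nat.succ_eq_add_one, Bool.beq_eq_decide_eq, bne, Bool.not_eq_true', Bool.or_eq_true,
    Bool.and_eq_true, K.cl5_eq] <;> rfl

noncomputable def ce5 (E : List (List (ℕ × ℕ × Bool))) (a : ℕ) (b : ℕ) : Bool :=
  (K.bor (Nat.beq a b) (K.lany E (fun (C : List (ℕ × ℕ × Bool)) => (K.lall C (fun (t : ℕ × ℕ ×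
    Bool) => (K.band (K.bnot (Prod.snd (Prod.snd t))) (K.bor (K.band (Nat.beq (Prod.fst t) a)
    (Nat.beq (Prod.fst (Prod.snd t)) b)) (K.band (Nat.beq (Prod.fst t) b) (Nat.beq (Prod.fst
    (Prod.snd t)) a)))))))))

theorem ce5_eq : @K.ce5 = @FC7.ce5 := by
  funext E a b
  simp only [K.ce5, FC7.ce5, K.band_eq, K.bor_eq, K.bnot_eq, K.beqB_eq, K.tbit_eq, K.kmax_eq,
    K.kmin_eq, K.nbeq_eq, K.nble_eq, K.bif_b, K.lall_eq, K.lany_eq, K.lmap_eq, K.lfilter_eq,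
    K.llen_eq, K.lemp_eq, K.lsum_eq, K.lgetD_eq, K.lmem_eq, K.contains_eq, K.nodup_eq, K.lrange_eq,
    K.lapp_eq, K.lflat_eq, K.lfmap_eq, K.ltake_eq, K.lfoldl_eq, K.leq_eq, decide_eq_true_eq, ne_eq,
    decide_not, Bool.decide_and, Bool.decide_or, Bool.decide_eq_true, Bool.decide_eq_false,
    Nat.succ_eq_add_one, Bool.beq_eq_decide_eq, bne, Bool.not_eq_true', Bool.or_eq_true,
    Bool.and_eq_true] <;> rfl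

noncomputable def WF_pt5 (W : FC7.WF) (E : List (List (ℕ × ℕ × Bool))) (j : ℕ) : Bool :=
  (K.band (K.band (K.WF_pd5 W E j) (K.WF_pd5 W E (FC6.Pa.φ (FC7.Fc.P (FC7.WF.F W)) j))) (K.WF_pd5 W
    E (FC6.Pa.φ (FC7.Fc.P (FC7.WF.F W)) (FC6.Pa.φ (FC7.Fc.P (FC7.WF.F W)) j))))

theorem WF_pt5_eq : @K.WF_pt5 = @FC7.WF.pt5 := by
  funext W E j
  simp only [K.WF_pt5, FC7.WF.pt5, K.band_eq, K.bor_eq, K.bnot_eq, K.beqB_eq, K.tbit_eq, K.kmax_eq,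
    K.kmin_eq, K.nbeq_eq, K.nble_eq, K.bif_b, K.lall_eq, K.lany_eq, K.lmap_eq, K.lfilter_eq,
    K.llen_eq, K.lemp_eq, K.lsum_eq, K.lgetD_eq, K.lmem_eq, K.contains_eq, K.nodup_eq, K.lrange_eq,
    K.lapp_eq, K.lflat_eq, K.lfmap_eq, K.ltake_eq, K.lfoldl_eq, K.leq_eq, decide_eq_true_eq, ne_eq,
    decide_not, Bool.decide_and, Bool.decide_or, Bool.decide_eq_true, Bool.decide_eq_false,
    Nat.succ_eq_add_one, Bool.beq_eq_decide_eq, bne, Bool.not_eq_true', Bool.or_eq_true,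
    Bool.and_eq_true, K.WF_pd5_eq] <;> rfl

noncomputable def WF_nu5 (W : FC7.WF) (j : ℕ) : Bool :=
  (K.band (Nat.beq (FC6.Pa.u (FC7.Fc.P (FC7.WF.F W)) j) (nat_lit 0)) (K.bnot (FC7.Fc.uk (FC7.WF.F
    W) j)))

theorem WF_nu5_eq : @K.WF_nu5 = @FC7.WF.nu5 := by
  funext W j
  simp only [K.WF_nu5, FC7.WF.nu5, K.band_eq, K.bor_eq, K.bnot_eq, K.beqB_eq, K.tbit_eq, K.kmax_eq,
    K.kmin_eq, K.nbeq_eq, K.nble_eq, K.bif_b, K.lall_eq, K.lany_eq, K.lmap_eq, K.lfilter_eq,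
    K.llen_eq, K.lemp_eq, K.lsum_eq, K.lgetD_eq, K.lmem_eq, K.contains_eq, K.nodup_eq, K.lrange_eq,
    K.lapp_eq, K.lflat_eq, K.lfmap_eq, K.ltake_eq, K.lfoldl_eq, K.leq_eq, decide_eq_true_eq, ne_eq,
    decide_not, Bool.decide_and, Bool.decide_or, Bool.decide_eq_true, Bool.decide_eq_false,
    Nat.succ_eq_add_one, Bool.beq_eq_decide_eq, bne, Bool.not_eq_true', Bool.or_eq_true,
    Bool.and_eq_true] <;> rfl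

noncomputable def WF_gc5 (W : FC7.WF) (i : ℕ) (j : ℕ) (k : ℕ) : Bool :=
  (K.band (K.band (K.band (K.band (K.band (K.band (K.band (FC6.Pa.real (FC7.Fc.P (FC7.WF.F W)) i)
    (K.bnot (Nat.beq (FC6.Pa.α (FC7.Fc.P (FC7.WF.F W)) i) i))) (K.bnot (FC6.Pa.real (FC7.Fc.P
    (FC7.WF.F W)) j))) (K.bnot (Nat.beq (FC6.Pa.α (FC7.Fc.P (FC7.WF.F W)) j) j))) (FC6.Pa.real
    (FC7.Fc.P (FC7.WF.F W)) k)) (K.bnot (Nat.beq (FC6.Pa.α (FC7.Fc.P (FC7.WF.F W)) k) k)))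
    (K.WF_nu5 W k)) (K.bor (K.bor (K.bor (K.bor (Nat.beq (K.WF_fcl W k) (nat_lit 2)) (Nat.beq (K.WF_fcl W
    k) (nat_lit 3))) (K.WF_ocl W k)) (K.WF_nu5 W (FC6.Pa.α (FC7.Fc.P (FC7.WF.F W)) i))) (K.band (K.bnot (Nat.beq
    (FC6.Pa.α (FC7.Fc.P (FC7.WF.F W)) (FC6.Pa.φ (FC7.Fc.P (FC7.WF.F W)) k)) (FC6.Pa.φ (FC7.Fc.P
    (FC7.WF.F W)) k))) (K.WF_nu5 W (FC6.Pa.φ (FC7.Fc.P (FC7.WF.F W)) (FC6.Pa.α (FC7.Fc.P (FC7.WF.F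
    W)) (FC6.Pa.φ (FC7.Fc.P (FC7.WF.F W)) k)))))))

theorem WF_gc5_eq : @K.WF_gc5 = @FC7.WF.gc5 := by
  funext W i j k
  simp only [K.WF_gc5, FC7.WF.gc5, K.band_eq, K.bor_eq, K.bnot_eq, K.beqB_eq, K.tbit_eq, K.kmax_eq,
    K.kmin_eq, K.nbeq_eq, K.nble_eq, K.bif_b, K.lall_eq, K.lany_eq, K.lmap_eq, K.lfilter_eq,
    K.llen_eq, K.lemp_eq, K.lsum_eq, K.lgetD_eq, K.lmem_eq, K.contains_eq, K.nodup_eq, K.lrange_eq,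
    K.lapp_eq, K.lflat_eq, K.lfmap_eq, K.ltake_eq, K.lfoldl_eq, K.leq_eq, decide_eq_true_eq, ne_eq,
    decide_not, Bool.decide_and, Bool.decide_or, Bool.decide_eq_true, Bool.decide_eq_false,
    Nat.succ_eq_add_one, Bool.beq_eq_decide_eq, bne, Bool.not_eq_true', Bool.or_eq_true,
    Bool.and_eq_true, K.WF_nu5_eq, K.WF_fcl_eq,
    K.WF_ocl_eq] <;> rfl

noncomputable def WF_ot5 (W : FC7.WF) (E : List (List (ℕ × ℕ × Bool))) (i : ℕ) (k : ℕ) : Bool :=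
  (K.band (K.band (K.band (Nat.ble (Nat.succ (FC6.Pa.l (FC7.Fc.P (FC7.WF.F W)) i)) (FC7.OD.x
    (FC7.Fc.O (FC7.WF.F W)))) (Nat.beq (K.sumN (FC6.Pa.n (FC7.Fc.P (FC7.WF.F W))) (fun (e : ℕ) =>
    (Bool.rec (motive := fun _ => ℕ) (nat_lit 0) (nat_lit 1) (K.band (FC6.Pa.real (FC7.Fc.P
    (FC7.WF.F W)) e) (Nat.beq (FC6.Pa.l (FC7.Fc.P (FC7.WF.F W)) e) (FC6.Pa.l (FC7.Fc.P (FC7.WF.F
    W)) i)))))) (nat_lit 4))) (K.ce5 E (FC6.Pa.l (FC7.Fc.P (FC7.WF.F W)) (FC6.Pa.φ (FC7.Fc.P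
    (FC7.WF.F W)) k)) (FC6.Pa.l (FC7.Fc.P (FC7.WF.F W)) (FC6.Pa.φ (FC7.Fc.P (FC7.WF.F W)) i))))
    (K.allN (FC6.Pa.n (FC7.Fc.P (FC7.WF.F W))) (fun (e : ℕ) => (K.bor (K.bor (K.bor (K.bor (K.bnot
    (FC6.Pa.real (FC7.Fc.P (FC7.WF.F W)) e)) (K.bnot (Nat.beq (FC6.Pa.l (FC7.Fc.P (FC7.WF.F W)) e)
    (FC6.Pa.l (FC7.Fc.P (FC7.WF.F W)) i)))) (Nat.beq e i)) (Nat.beq e k)) (K.cl5 E (FC6.Pa.l
    (FC7.Fc.P (FC7.WF.F W)) (FC6.Pa.φ (FC7.Fc.P (FC7.WF.F W)) e)) (FC6.Pa.l (FC7.Fc.P (FC7.WF.F W))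
    (FC6.Pa.φ (FC7.Fc.P (FC7.WF.F W)) i)))))))

theorem WF_ot5_eq : @K.WF_ot5 = @FC7.WF.ot5 := by
  funext W E i k
  simp only [K.WF_ot5, FC7.WF.ot5, K.band_eq, K.bor_eq, K.bnot_eq, K.beqB_eq, K.tbit_eq, K.kmax_eq,
    K.kmin_eq, K.nbeq_eq, K.nble_eq, K.bif_b, K.lall_eq, K.lany_eq, K.lmap_eq, K.lfilter_eq,
    K.llen_eq, K.lemp_eq, K.lsum_eq, K.lgetD_eq, K.lmem_eq, K.contains_eq, K.nodup_eq, K.lrange_eq,
    K.lapp_eq, K.lflat_eq, K.lfmap_eq, K.ltake_eq, K.lfoldl_eq, K.leq_eq, decide_eq_true_eq, ne_eq,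
    decide_not, Bool.decide_and, Bool.decide_or, Bool.decide_eq_true, Bool.decide_eq_false,
    Nat.succ_eq_add_one, Bool.beq_eq_decide_eq, bne, Bool.not_eq_true', Bool.or_eq_true,
    Bool.and_eq_true, K.allN_eq, K.sumN_eq, K.ce5_eq, K.cl5_eq] <;> rfl

noncomputable def WF_k05 (W : FC7.WF) (E : List (List (ℕ × ℕ × Bool))) (i : ℕ) : Bool :=
  (K.band (K.band (K.band (K.band (Nat.ble (Nat.succ i) (FC6.Pa.n (FC7.Fc.P (FC7.WF.F W)))) (K.bnot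
    (Nat.beq (FC6.Pa.α (FC7.Fc.P (FC7.WF.F W)) i) i))) (K.cl5 E (FC6.Pa.l (FC7.Fc.P (FC7.WF.F W))
    i) (FC6.Pa.l (FC7.Fc.P (FC7.WF.F W)) (FC6.Pa.φ (FC7.Fc.P (FC7.WF.F W)) i)))) (K.WF_pt5 W E i))
    (K.WF_pt5 W E (FC6.Pa.α (FC7.Fc.P (FC7.WF.F W)) i)))

theorem WF_k05_eq : @K.WF_k05 = @FC7.WF.k05 := by
  funext W E i
  simp only [K.WF_k05, FC7.WF.k05, K.band_eq, K.bor_eq, K.bnot_eq, K.beqB_eq, K.tbit_eq, K.kmax_eq,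
    K.kmin_eq, K.nbeq_eq, K.nble_eq, K.bif_b, K.lall_eq, K.lany_eq, K.lmap_eq, K.lfilter_eq,
    K.llen_eq, K.lemp_eq, K.lsum_eq, K.lgetD_eq, K.lmem_eq, K.contains_eq, K.nodup_eq, K.lrange_eq,
    K.lapp_eq, K.lflat_eq, K.lfmap_eq, K.ltake_eq, K.lfoldl_eq, K.leq_eq, decide_eq_true_eq, ne_eq,
    decide_not, Bool.decide_and, Bool.decide_or, Bool.decide_eq_true, Bool.decide_eq_false,
    Nat.succ_eq_add_one, Bool.beq_eq_decide_eq, bne, Bool.not_eq_true', Bool.or_eq_true,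
    Bool.and_eq_true, K.cl5_eq, K.WF_pt5_eq] <;> rfl

noncomputable def WF_ln5 (W : FC7.WF) (j : ℕ) : Bool :=
  (K.band (K.bnot (FC7.OD.lb (FC7.Fc.O (FC7.WF.F W)) j)) (K.bnot (FC7.Fc.lu (FC7.WF.F W) j)))

theorem WF_ln5_eq : @K.WF_ln5 = @FC7.WF.ln5 := by
  funext W j
  simp only [K.WF_ln5, FC7.WF.ln5, K.band_eq, K.bor_eq, K.bnot_eq, K.beqB_eq, K.tbit_eq, K.kmax_eq,
    K.kmin_eq, K.nbeq_eq, K.nble_eq, K.bif_b, K.lall_eq, K.lany_eq, K.lmap_eq, K.lfilter_eq,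
    K.llen_eq, K.lemp_eq, K.lsum_eq, K.lgetD_eq, K.lmem_eq, K.contains_eq, K.nodup_eq, K.lrange_eq,
    K.lapp_eq, K.lflat_eq, K.lfmap_eq, K.ltake_eq, K.lfoldl_eq, K.leq_eq, decide_eq_true_eq, ne_eq,
    decide_not, Bool.decide_and, Bool.decide_or, Bool.decide_eq_true, Bool.decide_eq_false,
    Nat.succ_eq_add_one, Bool.beq_eq_decide_eq, bne, Bool.not_eq_true', Bool.or_eq_true,
    Bool.and_eq_true] <;> rfl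

noncomputable def WF_k15 (W : FC7.WF) (E : List (List (ℕ × ℕ × Bool))) (i : ℕ) (j : ℕ) (k : ℕ) : Bool :=
  (K.band (K.band (K.band (K.WF_gc5 W i j k) (K.cl5 E (FC6.Pa.l (FC7.Fc.P (FC7.WF.F W)) i)
    (FC6.Pa.l (FC7.Fc.P (FC7.WF.F W)) (FC6.Pa.φ (FC7.Fc.P (FC7.WF.F W)) i)))) (K.cl5 E (FC6.Pa.l
    (FC7.Fc.P (FC7.WF.F W)) i) (FC6.Pa.l (FC7.Fc.P (FC7.WF.F W)) (FC6.Pa.φ (FC7.Fc.P (FC7.WF.F W))
    k)))) (K.bor (K.band (K.WF_pt5 W E i) (K.WF_ln5 W (FC6.Pa.φ (FC7.Fc.P (FC7.WF.F W)) (FC6.Pa.φ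
    (FC7.Fc.P (FC7.WF.F W)) i)))) (K.band (K.WF_pt5 W E (FC6.Pa.α (FC7.Fc.P (FC7.WF.F W)) k))
    (K.WF_ln5 W (FC6.Pa.φ (FC7.Fc.P (FC7.WF.F W)) (FC6.Pa.α (FC7.Fc.P (FC7.WF.F W)) k))))))

theorem WF_k15_eq : @K.WF_k15 = @FC7.WF.k15 := by
  funext W E i j k
  simp only [K.WF_k15, FC7.WF.k15, K.band_eq, K.bor_eq, K.bnot_eq, K.beqB_eq, K.tbit_eq, K.kmax_eq,
    K.kmin_eq, K.nbeq_eq, K.nble_eq, K.bif_b, K.lall_eq, K.lany_eq, K.lmap_eq, K.lfilter_eq,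
    K.llen_eq, K.lemp_eq, K.lsum_eq, K.lgetD_eq, K.lmem_eq, K.contains_eq, K.nodup_eq, K.lrange_eq,
    K.lapp_eq, K.lflat_eq, K.lfmap_eq, K.ltake_eq, K.lfoldl_eq, K.leq_eq, decide_eq_true_eq, ne_eq,
    decide_not, Bool.decide_and, Bool.decide_or, Bool.decide_eq_true, Bool.decide_eq_false,
    Nat.succ_eq_add_one, Bool.beq_eq_decide_eq, bne, Bool.not_eq_true', Bool.or_eq_true,
    Bool.and_eq_true, K.cl5_eq, K.WF_pt5_eq, K.WF_gc5_eq, K.WF_ln5_eq] <;> rfl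

noncomputable def WF_k25 (W : FC7.WF) (E : List (List (ℕ × ℕ × Bool))) (i : ℕ) (k : ℕ) : Bool :=
  (K.band (K.band (K.band (K.band (K.band (K.band (K.band (K.band (K.band (FC6.Pa.real (FC7.Fc.P
    (FC7.WF.F W)) i) (K.bnot (Nat.beq (FC6.Pa.α (FC7.Fc.P (FC7.WF.F W)) i) i))) (FC6.Pa.real
    (FC7.Fc.P (FC7.WF.F W)) k)) (FC6.Pa.real (FC7.Fc.P (FC7.WF.F W)) (FC6.Pa.φ (FC7.Fc.P (FC7.WF.F
    W)) k))) (K.WF_nu5 W k)) (K.WF_nu5 W (FC6.Pa.φ (FC7.Fc.P (FC7.WF.F W)) k))) (K.WF_nu5 W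
    (FC6.Pa.α (FC7.Fc.P (FC7.WF.F W)) i))) (K.bnot (FC7.OD.lb (FC7.Fc.O (FC7.WF.F W)) (FC6.Pa.φ
    (FC7.Fc.P (FC7.WF.F W)) k)))) (K.bnot (FC7.Fc.lu (FC7.WF.F W) (FC6.Pa.φ (FC7.Fc.P (FC7.WF.F W))
    k)))) (K.WF_ot5 W E i k))

theorem WF_k25_eq : @K.WF_k25 = @FC7.WF.k25 := by
  funext W E i k
  simp only [K.WF_k25, FC7.WF.k25, K.band_eq, K.bor_eq, K.bnot_eq, K.beqB_eq, K.tbit_eq, K.kmax_eq,
    K.kmin_eq, K.nbeq_eq, K.nble_eq, K.bif_b, K.lall_eq, K.lany_eq, K.lmap_eq, K.lfilter_eq,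
    K.llen_eq, K.lemp_eq, K.lsum_eq, K.lgetD_eq, K.lmem_eq, K.contains_eq, K.nodup_eq, K.lrange_eq,
    K.lapp_eq, K.lflat_eq, K.lfmap_eq, K.ltake_eq, K.lfoldl_eq, K.leq_eq, decide_eq_true_eq, ne_eq,
    decide_not, Bool.decide_and, Bool.decide_or, Bool.decide_eq_true, Bool.decide_eq_false,
    Nat.succ_eq_add_one, Bool.beq_eq_decide_eq, bne, Bool.not_eq_true', Bool.or_eq_true,
    Bool.and_eq_true, K.WF_nu5_eq, K.WF_ot5_eq] <;> rfl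

noncomputable def WF_k35 (W : FC7.WF) (E : List (List (ℕ × ℕ × Bool))) (i : ℕ) (j : ℕ) (k : ℕ) : Bool :=
  (K.band (K.band (K.WF_gc5 W i j k) (K.WF_ot5 W E i k)) (K.bor (FC6.Pa.real (FC7.Fc.P (FC7.WF.F
    W)) (FC6.Pa.φ (FC7.Fc.P (FC7.WF.F W)) (FC6.Pa.α (FC7.Fc.P (FC7.WF.F W)) k))) (FC6.Pa.real
    (FC7.Fc.P (FC7.WF.F W)) (FC6.Pa.φ (FC7.Fc.P (FC7.WF.F W)) (FC6.Pa.φ (FC7.Fc.P (FC7.WF.F W))
    i)))))

theorem WF_k35_eq : @K.WF_k35 = @FC7.WF.k35 := by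
  funext W E i j k
  simp only [K.WF_k35, FC7.WF.k35, K.band_eq, K.bor_eq, K.bnot_eq, K.beqB_eq, K.tbit_eq, K.kmax_eq,
    K.kmin_eq, K.nbeq_eq, K.nble_eq, K.bif_b, K.lall_eq, K.lany_eq, K.lmap_eq, K.lfilter_eq,
    K.llen_eq, K.lemp_eq, K.lsum_eq, K.lgetD_eq, K.lmem_eq, K.contains_eq, K.nodup_eq, K.lrange_eq,
    K.lapp_eq, K.lflat_eq, K.lfmap_eq, K.ltake_eq, K.lfoldl_eq, K.leq_eq, decide_eq_true_eq, ne_eq,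
    decide_not, Bool.decide_and, Bool.decide_or, Bool.decide_eq_true, Bool.decide_eq_false,
    Nat.succ_eq_add_one, Bool.beq_eq_decide_eq, bne, Bool.not_eq_true', Bool.or_eq_true,
    Bool.and_eq_true, K.WF_gc5_eq, K.WF_ot5_eq] <;> rfl

noncomputable def WF_k45 (W : FC7.WF) (E : List (List (ℕ × ℕ × Bool))) (i : ℕ) (j : ℕ) (k : ℕ) : Bool :=
  (K.band (K.band (K.band (K.band (K.band (K.band (K.band (K.band (K.band (K.band (FC6.Pa.real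
    (FC7.Fc.P (FC7.WF.F W)) i) (K.bnot (Nat.beq (FC6.Pa.α (FC7.Fc.P (FC7.WF.F W)) i) i))) (K.bnot
    (FC6.Pa.real (FC7.Fc.P (FC7.WF.F W)) j))) (K.bnot (Nat.beq (FC6.Pa.α (FC7.Fc.P (FC7.WF.F W))
    j) j))) (FC6.Pa.real (FC7.Fc.P (FC7.WF.F W)) k)) (K.bnot (Nat.beq (FC6.Pa.α (FC7.Fc.P
    (FC7.WF.F W)) k) k))) (FC6.Pa.real (FC7.Fc.P (FC7.WF.F W)) (FC6.Pa.φ (FC7.Fc.P (FC7.WF.F W))
    (FC6.Pa.α (FC7.Fc.P (FC7.WF.F W)) k)))) (FC6.Pa.real (FC7.Fc.P (FC7.WF.F W)) (FC6.Pa.φ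
    (FC7.Fc.P (FC7.WF.F W)) (FC6.Pa.φ (FC7.Fc.P (FC7.WF.F W)) i)))) (K.cl5 E (FC6.Pa.l (FC7.Fc.P
    (FC7.WF.F W)) i) (FC6.Pa.l (FC7.Fc.P (FC7.WF.F W)) (FC6.Pa.φ (FC7.Fc.P (FC7.WF.F W)) i))))
    (K.cl5 E (FC6.Pa.l (FC7.Fc.P (FC7.WF.F W)) i) (FC6.Pa.l (FC7.Fc.P (FC7.WF.F W)) (FC6.Pa.φ
    (FC7.Fc.P (FC7.WF.F W)) k)))) (K.bor (K.band (K.ce5 E (FC6.Pa.l (FC7.Fc.P (FC7.WF.F W))
    (FC6.Pa.φ (FC7.Fc.P (FC7.WF.F W)) (FC6.Pa.φ (FC7.Fc.P (FC7.WF.F W)) (FC6.Pa.α (FC7.Fc.P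
    (FC7.WF.F W)) k)))) (FC6.Pa.l (FC7.Fc.P (FC7.WF.F W)) i)) (K.ce5 E (FC6.Pa.l (FC7.Fc.P
    (FC7.WF.F W)) (FC6.Pa.φ (FC7.Fc.P (FC7.WF.F W)) (FC6.Pa.φ (FC7.Fc.P (FC7.WF.F W)) i)))
    (FC6.Pa.l (FC7.Fc.P (FC7.WF.F W)) i))) (K.band (Nat.ble (Nat.succ (FC6.Pa.l (FC7.Fc.P
    (FC7.WF.F W)) i)) (FC7.OD.x (FC7.Fc.O (FC7.WF.F W)))) (Nat.ble (K.sumN (FC6.Pa.n (FC7.Fc.P
    (FC7.WF.F W))) (fun (e : ℕ) => (Bool.rec (motive := fun _ => ℕ) (nat_lit 0) (nat_lit 1)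
    (K.band (FC6.Pa.real (FC7.Fc.P (FC7.WF.F W)) e) (Nat.beq (FC6.Pa.l (FC7.Fc.P (FC7.WF.F W)) e)
    (FC6.Pa.l (FC7.Fc.P (FC7.WF.F W)) i)))))) (nat_lit 5)))))

theorem WF_k45_eq : @K.WF_k45 = @FC7.WF.k45 := by
  funext W E i j k
  simp only [K.WF_k45, FC7.WF.k45, K.band_eq, K.bor_eq, K.bnot_eq, K.beqB_eq, K.tbit_eq, K.kmax_eq,
    K.kmin_eq, K.nbeq_eq, K.nble_eq, K.bif_b, K.lall_eq, K.lany_eq, K.lmap_eq, K.lfilter_eq,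
    K.llen_eq, K.lemp_eq, K.lsum_eq, K.lgetD_eq, K.lmem_eq, K.contains_eq, K.nodup_eq, K.lrange_eq,
    K.lapp_eq, K.lflat_eq, K.lfmap_eq, K.ltake_eq, K.lfoldl_eq, K.leq_eq, decide_eq_true_eq, ne_eq,
    decide_not, Bool.decide_and, Bool.decide_or, Bool.decide_eq_true, Bool.decide_eq_false,
    Nat.succ_eq_add_one, Bool.beq_eq_decide_eq, bne, Bool.not_eq_true', Bool.or_eq_true,
    Bool.and_eq_true, K.sumN_eq, K.ce5_eq, K.cl5_eq] <;> rfl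

noncomputable def WF_ku5 (W : FC7.WF) (j : ℕ) : Bool :=
  (K.band (K.bnot (Nat.beq (FC6.Pa.u (FC7.Fc.P (FC7.WF.F W)) j) (nat_lit 0))) (K.bnot (FC7.Fc.uk
    (FC7.WF.F W) j)))

theorem WF_ku5_eq : @K.WF_ku5 = @FC7.WF.ku5 := by
  funext W j
  simp only [K.WF_ku5, FC7.WF.ku5, K.band_eq, K.bor_eq, K.bnot_eq, K.beqB_eq, K.tbit_eq, K.kmax_eq,
    K.kmin_eq, K.nbeq_eq, K.nble_eq, K.bif_b, K.lall_eq, K.lany_eq, K.lmap_eq, K.lfilter_eq,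
    K.llen_eq, K.lemp_eq, K.lsum_eq, K.lgetD_eq, K.lmem_eq, K.contains_eq, K.nodup_eq, K.lrange_eq,
    K.lapp_eq, K.lflat_eq, K.lfmap_eq, K.ltake_eq, K.lfoldl_eq, K.leq_eq, decide_eq_true_eq, ne_eq,
    decide_not, Bool.decide_and, Bool.decide_or, Bool.decide_eq_true, Bool.decide_eq_false,
    Nat.succ_eq_add_one, Bool.beq_eq_decide_eq, bne, Bool.not_eq_true', Bool.or_eq_true,
    Bool.and_eq_true] <;> rfl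

noncomputable def WF_fn5 (W : FC7.WF) (i : ℕ) : Bool :=
  (K.bor (K.bor (K.bor (K.bor (K.bor (Nat.beq (K.WF_fcl W i) (nat_lit 1)) (Nat.beq (K.WF_fcl W i)
    (nat_lit 2))) (K.WF_ku5 W i)) (K.WF_ku5 W (FC6.Pa.φ (FC7.Fc.P (FC7.WF.F W)) i))) (K.WF_ku5 W
    (FC6.Pa.φ (FC7.Fc.P (FC7.WF.F W)) (FC6.Pa.φ (FC7.Fc.P (FC7.WF.F W)) i)))) (K.band (K.band
    (FC6.Pa.real (FC7.Fc.P (FC7.WF.F W)) i) (K.bnot (FC6.Pa.real (FC7.Fc.P (FC7.WF.F W)) (FC6.Pa.φ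
    (FC7.Fc.P (FC7.WF.F W)) i)))) (K.bnot (K.allN (FC6.Pa.n (FC7.Fc.P (FC7.WF.F W))) (fun (e : ℕ) =>
    (K.bnot (K.band (Nat.beq (FC6.Pa.l (FC7.Fc.P (FC7.WF.F W)) (FC6.Pa.φ (FC7.Fc.P (FC7.WF.F W))
    (FC6.Pa.φ (FC7.Fc.P (FC7.WF.F W)) e))) (FC6.Pa.l (FC7.Fc.P (FC7.WF.F W)) (FC6.Pa.φ (FC7.Fc.P
    (FC7.WF.F W)) (FC6.Pa.φ (FC7.Fc.P (FC7.WF.F W)) i)))) (K.WF_ku5 W e))))))))

theorem WF_fn5_eq : @K.WF_fn5 = @FC7.WF.fn5 := by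
  funext W i
  simp only [K.WF_fn5, FC7.WF.fn5, K.band_eq, K.bor_eq, K.bnot_eq, K.beqB_eq, K.tbit_eq, K.kmax_eq,
    K.kmin_eq, K.nbeq_eq, K.nble_eq, K.bif_b, K.lall_eq, K.lany_eq, K.lmap_eq, K.lfilter_eq,
    K.llen_eq, K.lemp_eq, K.lsum_eq, K.lgetD_eq, K.lmem_eq, K.contains_eq, K.nodup_eq, K.lrange_eq,
    K.lapp_eq, K.lflat_eq, K.lfmap_eq, K.ltake_eq, K.lfoldl_eq, K.leq_eq, decide_eq_true_eq, ne_eq,
    decide_not, Bool.decide_and, Bool.decide_or, Bool.decide_eq_true, Bool.decide_eq_false,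
    Nat.succ_eq_add_one, Bool.beq_eq_decide_eq, bne, Bool.not_eq_true', Bool.or_eq_true,
    Bool.and_eq_true, K.allN_eq, K.WF_fcl_eq, K.WF_ku5_eq] <;> rfl

noncomputable def WF_o55 (W : FC7.WF) (E : List (List (ℕ × ℕ × Bool))) (i : ℕ) (k : ℕ) : Bool :=
  (K.band (K.band (K.band (K.band (FC6.Pa.real (FC7.Fc.P (FC7.WF.F W)) k) (K.bnot (Nat.beq (FC6.Pa.α
    (FC7.Fc.P (FC7.WF.F W)) k) k))) (K.cl5 E (FC6.Pa.l (FC7.Fc.P (FC7.WF.F W)) i) (FC6.Pa.l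
    (FC7.Fc.P (FC7.WF.F W)) (FC6.Pa.φ (FC7.Fc.P (FC7.WF.F W)) i)))) (K.cl5 E (FC6.Pa.l (FC7.Fc.P
    (FC7.WF.F W)) i) (FC6.Pa.l (FC7.Fc.P (FC7.WF.F W)) (FC6.Pa.φ (FC7.Fc.P (FC7.WF.F W)) k))))
    (K.bor (K.band (K.WF_pt5 W E (FC6.Pa.α (FC7.Fc.P (FC7.WF.F W)) k)) (K.WF_fn5 W i)) (K.band
    (K.WF_pt5 W E i) (K.WF_fn5 W (FC6.Pa.α (FC7.Fc.P (FC7.WF.F W)) k)))))

theorem WF_o55_eq : @K.WF_o55 = @FC7.WF.o55 := by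
  funext W E i k
  simp only [K.WF_o55, FC7.WF.o55, K.band_eq, K.bor_eq, K.bnot_eq, K.beqB_eq, K.tbit_eq, K.kmax_eq,
    K.kmin_eq, K.nbeq_eq, K.nble_eq, K.bif_b, K.lall_eq, K.lany_eq, K.lmap_eq, K.lfilter_eq,
    K.llen_eq, K.lemp_eq, K.lsum_eq, K.lgetD_eq, K.lmem_eq, K.contains_eq, K.nodup_eq, K.lrange_eq,
    K.lapp_eq, K.lflat_eq, K.lfmap_eq, K.ltake_eq, K.lfoldl_eq, K.leq_eq, decide_eq_true_eq, ne_eq,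
    decide_not, Bool.decide_and, Bool.decide_or, Bool.decide_eq_true, Bool.decide_eq_false,
    Nat.succ_eq_add_one, Bool.beq_eq_decide_eq, bne, Bool.not_eq_true', Bool.or_eq_true,
    Bool.and_eq_true, K.cl5_eq, K.WF_pt5_eq, K.WF_fn5_eq] <;> rfl

noncomputable def WF_k55 (W : FC7.WF) (E : List (List (ℕ × ℕ × Bool))) (i : ℕ) : Bool :=
  (K.band (K.band (K.band (Nat.ble (Nat.succ i) (FC6.Pa.n (FC7.Fc.P (FC7.WF.F W)))) (FC6.Pa.real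
    (FC7.Fc.P (FC7.WF.F W)) i)) (K.bnot (Nat.beq (FC6.Pa.α (FC7.Fc.P (FC7.WF.F W)) i) i))) (K.bor
    (K.WF_o55 W E i (FC6.Pa.φ (FC7.Fc.P (FC7.WF.F W)) (FC6.Pa.α (FC7.Fc.P (FC7.WF.F W)) i))) (K.band
    (K.band (K.bnot (FC6.Pa.real (FC7.Fc.P (FC7.WF.F W)) (FC6.Pa.φ (FC7.Fc.P (FC7.WF.F W)) (FC6.Pa.α
    (FC7.Fc.P (FC7.WF.F W)) i)))) (K.bnot (Nat.beq (FC6.Pa.α (FC7.Fc.P (FC7.WF.F W)) (FC6.Pa.φ
    (FC7.Fc.P (FC7.WF.F W)) (FC6.Pa.α (FC7.Fc.P (FC7.WF.F W)) i))) (FC6.Pa.φ (FC7.Fc.P (FC7.WF.F W))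
    (FC6.Pa.α (FC7.Fc.P (FC7.WF.F W)) i))))) (K.WF_o55 W E i (FC6.Pa.φ (FC7.Fc.P (FC7.WF.F W))
    (FC6.Pa.α (FC7.Fc.P (FC7.WF.F W)) (FC6.Pa.φ (FC7.Fc.P (FC7.WF.F W)) (FC6.Pa.α (FC7.Fc.P
    (FC7.WF.F W)) i))))))))

theorem WF_k55_eq : @K.WF_k55 = @FC7.WF.k55 := by
  funext W E i
  simp only [K.WF_k55, FC7.WF.k55, K.band_eq, K.bor_eq, K.bnot_eq, K.beqB_eq, K.tbit_eq, K.kmax_eq,
    K.kmin_eq, K.nbeq_eq, K.nble_eq, K.bif_b, K.lall_eq, K.lany_eq, K.lmap_eq, K.lfilter_eq,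
    K.llen_eq, K.lemp_eq, K.lsum_eq, K.lgetD_eq, K.lmem_eq, K.contains_eq, K.nodup_eq, K.lrange_eq,
    K.lapp_eq, K.lflat_eq, K.lfmap_eq, K.ltake_eq, K.lfoldl_eq, K.leq_eq, decide_eq_true_eq, ne_eq,
    decide_not, Bool.decide_and, Bool.decide_or, Bool.decide_eq_true, Bool.decide_eq_false,
    Nat.succ_eq_add_one, Bool.beq_eq_decide_eq, bne, Bool.not_eq_true', Bool.or_eq_true,
    Bool.and_eq_true, K.WF_o55_eq] <;> rfl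

noncomputable def WF_k65 (W : FC7.WF) (E : List (List (ℕ × ℕ × Bool))) (i : ℕ) : Bool :=
  (K.band (K.band (K.band (K.band (Nat.ble (Nat.succ i) (FC6.Pa.n (FC7.Fc.P (FC7.WF.F W))))
    (FC6.Pa.real (FC7.Fc.P (FC7.WF.F W)) i)) (FC7.OD.lb (FC7.Fc.O (FC7.WF.F W)) i)) (K.bnot
    (FC7.Fc.lu (FC7.WF.F W) i))) (K.cl5 E (FC6.Pa.l (FC7.Fc.P (FC7.WF.F W)) i) (FC6.Pa.l (FC7.Fc.P
    (FC7.WF.F W)) (FC6.Pa.φ (FC7.Fc.P (FC7.WF.F W)) i))))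

theorem WF_k65_eq : @K.WF_k65 = @FC7.WF.k65 := by
  funext W E i
  simp only [K.WF_k65, FC7.WF.k65, K.band_eq, K.bor_eq, K.bnot_eq, K.beqB_eq, K.tbit_eq, K.kmax_eq,
    K.kmin_eq, K.nbeq_eq, K.nble_eq, K.bif_b, K.lall_eq, K.lany_eq, K.lmap_eq, K.lfilter_eq,
    K.llen_eq, K.lemp_eq, K.lsum_eq, K.lgetD_eq, K.lmem_eq, K.contains_eq, K.nodup_eq, K.lrange_eq,
    K.lapp_eq, K.lflat_eq, K.lfmap_eq, K.ltake_eq, K.lfoldl_eq, K.leq_eq, decide_eq_true_eq, ne_eq,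
    decide_not, Bool.decide_and, Bool.decide_or, Bool.decide_eq_true, Bool.decide_eq_false,
    Nat.succ_eq_add_one, Bool.beq_eq_decide_eq, bne, Bool.not_eq_true', Bool.or_eq_true,
    Bool.and_eq_true, K.cl5_eq] <;> rfl

noncomputable def WF_nx5 (W : FC7.WF) (i : ℕ) : ℕ :=
  (Bool.rec (motive := fun _ => ℕ) (FC6.Pa.φ (FC7.Fc.P (FC7.WF.F W)) (FC6.Pa.α (FC7.Fc.P (FC7.WF.F
    W)) (FC6.Pa.φ (FC7.Fc.P (FC7.WF.F W)) (FC6.Pa.α (FC7.Fc.P (FC7.WF.F W)) i)))) (FC6.Pa.φ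
    (FC7.Fc.P (FC7.WF.F W)) (FC6.Pa.α (FC7.Fc.P (FC7.WF.F W)) i)) (FC6.Pa.real (FC7.Fc.P (FC7.WF.F
    W)) (FC6.Pa.φ (FC7.Fc.P (FC7.WF.F W)) (FC6.Pa.α (FC7.Fc.P (FC7.WF.F W)) i))))

theorem WF_nx5_eq : @K.WF_nx5 = @FC7.WF.nx5 := by
  funext W i
  simp only [K.WF_nx5, FC7.WF.nx5, K.band_eq, K.bor_eq, K.bnot_eq, K.beqB_eq, K.tbit_eq, K.kmax_eq,
    K.kmin_eq, K.nbeq_eq, K.nble_eq, K.bif_b, K.lall_eq, K.lany_eq, K.lmap_eq, K.lfilter_eq,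
    K.llen_eq, K.lemp_eq, K.lsum_eq, K.lgetD_eq, K.lmem_eq, K.contains_eq, K.nodup_eq, K.lrange_eq,
    K.lapp_eq, K.lflat_eq, K.lfmap_eq, K.ltake_eq, K.lfoldl_eq, K.leq_eq, decide_eq_true_eq, ne_eq,
    decide_not, Bool.decide_and, Bool.decide_or, Bool.decide_eq_true, Bool.decide_eq_false,
    Nat.succ_eq_add_one, Bool.beq_eq_decide_eq, bne, Bool.not_eq_true', Bool.or_eq_true,
    Bool.and_eq_true] <;> rfl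

noncomputable def WF_nq5 (W : FC7.WF) (i : ℕ) : Bool :=
  (K.band (K.bnot (Nat.beq (FC6.Pa.α (FC7.Fc.P (FC7.WF.F W)) i) i)) (K.bor (FC6.Pa.real (FC7.Fc.P
    (FC7.WF.F W)) (FC6.Pa.φ (FC7.Fc.P (FC7.WF.F W)) (FC6.Pa.α (FC7.Fc.P (FC7.WF.F W)) i))) (K.band
    (K.bnot (Nat.beq (FC6.Pa.α (FC7.Fc.P (FC7.WF.F W)) (FC6.Pa.φ (FC7.Fc.P (FC7.WF.F W)) (FC6.Pa.α
    (FC7.Fc.P (FC7.WF.F W)) i))) (FC6.Pa.φ (FC7.Fc.P (FC7.WF.F W)) (FC6.Pa.α (FC7.Fc.P (FC7.WF.F W))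
    i)))) (FC6.Pa.real (FC7.Fc.P (FC7.WF.F W)) (FC6.Pa.φ (FC7.Fc.P (FC7.WF.F W)) (FC6.Pa.α (FC7.Fc.P
    (FC7.WF.F W)) (FC6.Pa.φ (FC7.Fc.P (FC7.WF.F W)) (FC6.Pa.α (FC7.Fc.P (FC7.WF.F W)) i))))))))

theorem WF_nq5_eq : @K.WF_nq5 = @FC7.WF.nq5 := by
  funext W i
  simp only [K.WF_nq5, FC7.WF.nq5, K.band_eq, K.bor_eq, K.bnot_eq, K.beqB_eq, K.tbit_eq, K.kmax_eq,
    K.kmin_eq, K.nbeq_eq, K.nble_eq, K.bif_b, K.lall_eq, K.lany_eq, K.lmap_eq, K.lfilter_eq,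
    K.llen_eq, K.lemp_eq, K.lsum_eq, K.lgetD_eq, K.lmem_eq, K.contains_eq, K.nodup_eq, K.lrange_eq,
    K.lapp_eq, K.lflat_eq, K.lfmap_eq, K.ltake_eq, K.lfoldl_eq, K.leq_eq, decide_eq_true_eq, ne_eq,
    decide_not, Bool.decide_and, Bool.decide_or, Bool.decide_eq_true, Bool.decide_eq_false,
    Nat.succ_eq_add_one, Bool.beq_eq_decide_eq, bne, Bool.not_eq_true', Bool.or_eq_true,
    Bool.and_eq_true] <;> rfl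

noncomputable def WF_cy5 (W : FC7.WF) (i : ℕ) : Bool :=
  (K.band (K.band (K.band (K.band (K.bnot (Nat.beq (FC6.Pa.α (FC7.Fc.P (FC7.WF.F W)) i) i)) (K.bnot
    (Nat.beq (FC6.Pa.α (FC7.Fc.P (FC7.WF.F W)) (FC6.Pa.φ (FC7.Fc.P (FC7.WF.F W)) (FC6.Pa.α (FC7.Fc.P
    (FC7.WF.F W)) i))) (FC6.Pa.φ (FC7.Fc.P (FC7.WF.F W)) (FC6.Pa.α (FC7.Fc.P (FC7.WF.F W)) i)))))
    (K.bnot (Nat.beq (FC6.Pa.α (FC7.Fc.P (FC7.WF.F W)) (FC6.Pa.φ (FC7.Fc.P (FC7.WF.F W)) (FC6.Pa.α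
    (FC7.Fc.P (FC7.WF.F W)) (FC6.Pa.φ (FC7.Fc.P (FC7.WF.F W)) (FC6.Pa.α (FC7.Fc.P (FC7.WF.F W))
    i))))) (FC6.Pa.φ (FC7.Fc.P (FC7.WF.F W)) (FC6.Pa.α (FC7.Fc.P (FC7.WF.F W)) (FC6.Pa.φ (FC7.Fc.P
    (FC7.WF.F W)) (FC6.Pa.α (FC7.Fc.P (FC7.WF.F W)) i))))))) (K.bnot (Nat.beq (FC6.Pa.α (FC7.Fc.P
    (FC7.WF.F W)) (FC6.Pa.φ (FC7.Fc.P (FC7.WF.F W)) (FC6.Pa.α (FC7.Fc.P (FC7.WF.F W)) (FC6.Pa.φ
    (FC7.Fc.P (FC7.WF.F W)) (FC6.Pa.α (FC7.Fc.P (FC7.WF.F W)) (FC6.Pa.φ (FC7.Fc.P (FC7.WF.F W))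
    (FC6.Pa.α (FC7.Fc.P (FC7.WF.F W)) i))))))) (FC6.Pa.φ (FC7.Fc.P (FC7.WF.F W)) (FC6.Pa.α (FC7.Fc.P
    (FC7.WF.F W)) (FC6.Pa.φ (FC7.Fc.P (FC7.WF.F W)) (FC6.Pa.α (FC7.Fc.P (FC7.WF.F W)) (FC6.Pa.φ
    (FC7.Fc.P (FC7.WF.F W)) (FC6.Pa.α (FC7.Fc.P (FC7.WF.F W)) i))))))))) (Nat.beq (FC6.Pa.φ
    (FC7.Fc.P (FC7.WF.F W)) (FC6.Pa.α (FC7.Fc.P (FC7.WF.F W)) (FC6.Pa.φ (FC7.Fc.P (FC7.WF.F W))
    (FC6.Pa.α (FC7.Fc.P (FC7.WF.F W)) (FC6.Pa.φ (FC7.Fc.P (FC7.WF.F W)) (FC6.Pa.α (FC7.Fc.P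
    (FC7.WF.F W)) (FC6.Pa.φ (FC7.Fc.P (FC7.WF.F W)) (FC6.Pa.α (FC7.Fc.P (FC7.WF.F W)) i)))))))) i))

theorem WF_cy5_eq : @K.WF_cy5 = @FC7.WF.cy5 := by
  funext W i
  simp only [K.WF_cy5, FC7.WF.cy5, K.band_eq, K.bor_eq, K.bnot_eq, K.beqB_eq, K.tbit_eq, K.kmax_eq,
    K.kmin_eq, K.nbeq_eq, K.nble_eq, K.bif_b, K.lall_eq, K.lany_eq, K.lmap_eq, K.lfilter_eq,
    K.llen_eq, K.lemp_eq, K.lsum_eq, K.lgetD_eq, K.lmem_eq, K.contains_eq, K.nodup_eq, K.lrange_eq,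
    K.lapp_eq, K.lflat_eq, K.lfmap_eq, K.ltake_eq, K.lfoldl_eq, K.leq_eq, decide_eq_true_eq, ne_eq,
    decide_not, Bool.decide_and, Bool.decide_or, Bool.decide_eq_true, Bool.decide_eq_false,
    Nat.succ_eq_add_one, Bool.beq_eq_decide_eq, bne, Bool.not_eq_true', Bool.or_eq_true,
    Bool.and_eq_true] <;> rfl

noncomputable def WF_k75 (W : FC7.WF) (E : List (List (ℕ × ℕ × Bool))) (i : ℕ) (r : ℕ) (m : ℕ) : Bool :=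
  (K.band (K.band (K.band (K.band (K.band (K.band (FC6.Pa.real (FC7.Fc.P (FC7.WF.F W)) i) (K.WF_nq5
    W i)) (K.WF_nq5 W r)) (K.cl5 E (FC6.Pa.l (FC7.Fc.P (FC7.WF.F W)) i) (FC6.Pa.l (FC7.Fc.P
    (FC7.WF.F W)) (FC6.Pa.φ (FC7.Fc.P (FC7.WF.F W)) i)))) (K.cl5 E (FC6.Pa.l (FC7.Fc.P (FC7.WF.F W))
    i) (FC6.Pa.l (FC7.Fc.P (FC7.WF.F W)) (FC6.Pa.φ (FC7.Fc.P (FC7.WF.F W)) r)))) (K.cl5 E (FC6.Pa.l
    (FC7.Fc.P (FC7.WF.F W)) i) (FC6.Pa.l (FC7.Fc.P (FC7.WF.F W)) (FC6.Pa.φ (FC7.Fc.P (FC7.WF.F W))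
    m)))) (K.bor (K.bor (FC6.Pa.real (FC7.Fc.P (FC7.WF.F W)) (FC6.Pa.φ (FC7.Fc.P (FC7.WF.F W)) i))
    (K.WF_cy5 W (FC6.Pa.φ (FC7.Fc.P (FC7.WF.F W)) (FC6.Pa.φ (FC7.Fc.P (FC7.WF.F W)) i)))) (K.band
    (K.bnot (Nat.beq (FC6.Pa.α (FC7.Fc.P (FC7.WF.F W)) m) m)) (K.bor (FC6.Pa.real (FC7.Fc.P
    (FC7.WF.F W)) (FC6.Pa.φ (FC7.Fc.P (FC7.WF.F W)) (FC6.Pa.α (FC7.Fc.P (FC7.WF.F W)) m))) (K.band
    (K.bnot (Nat.beq (FC6.Pa.α (FC7.Fc.P (FC7.WF.F W)) (FC6.Pa.φ (FC7.Fc.P (FC7.WF.F W)) (FC6.Pa.α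
    (FC7.Fc.P (FC7.WF.F W)) m))) (FC6.Pa.φ (FC7.Fc.P (FC7.WF.F W)) (FC6.Pa.α (FC7.Fc.P (FC7.WF.F W))
    m)))) (K.WF_cy5 W (FC6.Pa.α (FC7.Fc.P (FC7.WF.F W)) (FC6.Pa.φ (FC7.Fc.P (FC7.WF.F W)) (FC6.Pa.α
    (FC7.Fc.P (FC7.WF.F W)) m)))))))))

theorem WF_k75_eq : @K.WF_k75 = @FC7.WF.k75 := by
  funext W E i r m
  simp only [K.WF_k75, FC7.WF.k75, K.band_eq, K.bor_eq, K.bnot_eq, K.beqB_eq, K.tbit_eq, K.kmax_eq,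
    K.kmin_eq, K.nbeq_eq, K.nble_eq, K.bif_b, K.lall_eq, K.lany_eq, K.lmap_eq, K.lfilter_eq,
    K.llen_eq, K.lemp_eq, K.lsum_eq, K.lgetD_eq, K.lmem_eq, K.contains_eq, K.nodup_eq, K.lrange_eq,
    K.lapp_eq, K.lflat_eq, K.lfmap_eq, K.ltake_eq, K.lfoldl_eq, K.leq_eq, decide_eq_true_eq, ne_eq,
    decide_not, Bool.decide_and, Bool.decide_or, Bool.decide_eq_true, Bool.decide_eq_false,
    Nat.succ_eq_add_one, Bool.beq_eq_decide_eq, bne, Bool.not_eq_true', Bool.or_eq_true,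
    Bool.and_eq_true, K.WF_nq5_eq, K.WF_cy5_eq, K.cl5_eq] <;> rfl

noncomputable def bad5 (c1 : Bool) (c2 : Bool) (c3 : Bool) (c4 : Bool) (p1 : Bool) (p2 : Bool) (p3 : Bool) (p4 : Bool) (n1 : Bool) (n2 : Bool) (n3 : Bool) (n4 : Bool) : Bool :=
  (K.bnot (K.band (K.band (K.bor (K.band (K.band (K.band (K.bnot c2) (K.bnot c4)) (K.bnot p1))
    (K.bnot p3)) (K.band (K.band (K.band (K.bnot c3) (K.bnot c1)) (K.bnot p2)) (K.bnot p4))) (K.bor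
    (K.bnot (K.bor n1 n3)) (K.band (K.band (K.band (K.bnot c2) (K.bnot c4)) (K.bnot p1)) (K.bnot
    p3)))) (K.bor (K.bnot (K.bor n2 n4)) (K.band (K.band (K.band (K.bnot c3) (K.bnot c1)) (K.bnot
    p2)) (K.bnot p4)))))

theorem bad5_eq : @K.bad5 = @FC7.bad5 := by
  funext c1 c2 c3 c4 p1 p2 p3 p4 n1 n2 n3 n4
  simp only [K.bad5, FC7.bad5, K.band_eq, K.bor_eq, K.bnot_eq, K.beqB_eq, K.tbit_eq, K.kmax_eq,
    K.kmin_eq, K.nbeq_eq, K.nble_eq, K.bif_b, K.lall_eq, K.lany_eq, K.lmap_eq, K.lfilter_eq,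
    K.llen_eq, K.lemp_eq, K.lsum_eq, K.lgetD_eq, K.lmem_eq, K.contains_eq, K.nodup_eq, K.lrange_eq,
    K.lapp_eq, K.lflat_eq, K.lfmap_eq, K.ltake_eq, K.lfoldl_eq, K.leq_eq, decide_eq_true_eq, ne_eq,
    decide_not, Bool.decide_and, Bool.decide_or, Bool.decide_eq_true, Bool.decide_eq_false,
    Nat.succ_eq_add_one, Bool.beq_eq_decide_eq, bne, Bool.not_eq_true', Bool.or_eq_true,
    Bool.and_eq_true] <;> rfl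

noncomputable def WF_sf5 (W : FC7.WF) (i : ℕ) (j : ℕ) : Bool :=
  (K.bor (K.bor (K.bor (Nat.beq j i) (Nat.beq j (FC6.Pa.φ (FC7.Fc.P (FC7.WF.F W)) i))) (Nat.beq j
    (FC6.Pa.φ (FC7.Fc.P (FC7.WF.F W)) (FC6.Pa.φ (FC7.Fc.P (FC7.WF.F W)) i)))) (K.band (K.bnot
    (FC6.Pa.real (FC7.Fc.P (FC7.WF.F W)) (FC6.Pa.φ (FC7.Fc.P (FC7.WF.F W)) i))) (Nat.beq (FC6.Pa.l
    (FC7.Fc.P (FC7.WF.F W)) (FC6.Pa.φ (FC7.Fc.P (FC7.WF.F W)) (FC6.Pa.φ (FC7.Fc.P (FC7.WF.F W)) j)))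
    (FC6.Pa.l (FC7.Fc.P (FC7.WF.F W)) (FC6.Pa.φ (FC7.Fc.P (FC7.WF.F W)) (FC6.Pa.φ (FC7.Fc.P
    (FC7.WF.F W)) i))))))

theorem WF_sf5_eq : @K.WF_sf5 = @FC7.WF.sf5 := by
  funext W i j
  simp only [K.WF_sf5, FC7.WF.sf5, K.band_eq, K.bor_eq, K.bnot_eq, K.beqB_eq, K.tbit_eq, K.kmax_eq,
    K.kmin_eq, K.nbeq_eq, K.nble_eq, K.bif_b, K.lall_eq, K.lany_eq, K.lmap_eq, K.lfilter_eq,
    K.llen_eq, K.lemp_eq, K.lsum_eq, K.lgetD_eq, K.lmem_eq, K.contains_eq, K.nodup_eq, K.lrange_eq,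
    K.lapp_eq, K.lflat_eq, K.lfmap_eq, K.ltake_eq, K.lfoldl_eq, K.leq_eq, decide_eq_true_eq, ne_eq,
    decide_not, Bool.decide_and, Bool.decide_or, Bool.decide_eq_true, Bool.decide_eq_false,
    Nat.succ_eq_add_one, Bool.beq_eq_decide_eq, bne, Bool.not_eq_true', Bool.or_eq_true,
    Bool.and_eq_true] <;> rfl

noncomputable def WF_so5 (W : FC7.WF) (i : ℕ) : Bool :=
  (K.band (K.band (FC6.Pa.real (FC7.Fc.P (FC7.WF.F W)) i) (FC6.Pa.real (FC7.Fc.P (FC7.WF.F W))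
    (FC6.Pa.φ (FC7.Fc.P (FC7.WF.F W)) i))) (FC6.Pa.real (FC7.Fc.P (FC7.WF.F W)) (FC6.Pa.φ (FC7.Fc.P
    (FC7.WF.F W)) (FC6.Pa.φ (FC7.Fc.P (FC7.WF.F W)) i))))

theorem WF_so5_eq : @K.WF_so5 = @FC7.WF.so5 := by
  funext W i
  simp only [K.WF_so5, FC7.WF.so5, K.band_eq, K.bor_eq, K.bnot_eq, K.beqB_eq, K.tbit_eq, K.kmax_eq,
    K.kmin_eq, K.nbeq_eq, K.nble_eq, K.bif_b, K.lall_eq, K.lany_eq, K.lmap_eq, K.lfilter_eq,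
    K.llen_eq, K.lemp_eq, K.lsum_eq, K.lgetD_eq, K.lmem_eq, K.contains_eq, K.nodup_eq, K.lrange_eq,
    K.lapp_eq, K.lflat_eq, K.lfmap_eq, K.ltake_eq, K.lfoldl_eq, K.leq_eq, decide_eq_true_eq, ne_eq,
    decide_not, Bool.decide_and, Bool.decide_or, Bool.decide_eq_true, Bool.decide_eq_false,
    Nat.succ_eq_add_one, Bool.beq_eq_decide_eq, bne, Bool.not_eq_true', Bool.or_eq_true,
    Bool.and_eq_true] <;> rfl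

noncomputable def sm5 (E : List (List (ℕ × ℕ × Bool))) (a : ℕ) (b : ℕ) (c : ℕ) (d : ℕ) : Bool :=
  (K.bor (K.bor (K.bor (K.ce5 E a c) (K.ce5 E b d)) (K.cl5 E a d)) (K.cl5 E b c))

theorem sm5_eq : @K.sm5 = @FC7.sm5 := by
  funext E a b c d
  simp only [K.sm5, FC7.sm5, K.band_eq, K.bor_eq, K.bnot_eq, K.beqB_eq, K.tbit_eq, K.kmax_eq,
    K.kmin_eq, K.nbeq_eq, K.nble_eq, K.bif_b, K.lall_eq, K.lany_eq, K.lmap_eq, K.lfilter_eq,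
    K.llen_eq, K.lemp_eq, K.lsum_eq, K.lgetD_eq, K.lmem_eq, K.contains_eq, K.nodup_eq, K.lrange_eq,
    K.lapp_eq, K.lflat_eq, K.lfmap_eq, K.ltake_eq, K.lfoldl_eq, K.leq_eq, decide_eq_true_eq, ne_eq,
    decide_not, Bool.decide_and, Bool.decide_or, Bool.decide_eq_true, Bool.decide_eq_false,
    Nat.succ_eq_add_one, Bool.beq_eq_decide_eq, bne, Bool.not_eq_true', Bool.or_eq_true,
    Bool.and_eq_true, K.ce5_eq, K.cl5_eq] <;> rfl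

noncomputable def sx5 (E : List (List (ℕ × ℕ × Bool))) (a : ℕ) (x : ℕ) (x' : ℕ) (x'' : ℕ) (y : ℕ) (y' : ℕ) (y'' : ℕ) : Bool :=
  (K.bor (K.bor (K.bor (K.bor (K.bor (K.ce5 E a x) (K.ce5 E a x')) (K.ce5 E a x'')) (K.cl5 E a y))
    (K.cl5 E a y')) (K.cl5 E a y''))

theorem sx5_eq : @K.sx5 = @FC7.sx5 := by
  funext E a x x' x'' y y' y''
  simp only [K.sx5, FC7.sx5, K.band_eq, K.bor_eq, K.bnot_eq, K.beqB_eq, K.tbit_eq, K.kmax_eq,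
    K.kmin_eq, K.nbeq_eq, K.nble_eq, K.bif_b, K.lall_eq, K.lany_eq, K.lmap_eq, K.lfilter_eq,
    K.llen_eq, K.lemp_eq, K.lsum_eq, K.lgetD_eq, K.lmem_eq, K.contains_eq, K.nodup_eq, K.lrange_eq,
    K.lapp_eq, K.lflat_eq, K.lfmap_eq, K.ltake_eq, K.lfoldl_eq, K.leq_eq, decide_eq_true_eq, ne_eq,
    decide_not, Bool.decide_and, Bool.decide_or, Bool.decide_eq_true, Bool.decide_eq_false,
    Nat.succ_eq_add_one, Bool.beq_eq_decide_eq, bne, Bool.not_eq_true', Bool.or_eq_true,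
    Bool.and_eq_true, K.ce5_eq, K.cl5_eq] <;> rfl

noncomputable def WF_kf5 (W : FC7.WF) (e : ℕ) (i : ℕ) (j : ℕ) (b1 : Bool) (b3 : Bool) (X4 : Bool) (Y4 : Bool) (X3 : Bool) (Y3 : Bool) (p1 : Bool) (p2 : Bool) (p3 : Bool) (p4 : Bool) (n1 : Bool) (n2 : Bool) (n3 : Bool) (n4 : Bool) : Bool :=
  (K.band (K.bad5 (Nat.beq (FC6.Pa.l (FC7.Fc.P (FC7.WF.F W)) (FC6.Pa.φ (FC7.Fc.P (FC7.WF.F W)) e))
    (FC6.Pa.l (FC7.Fc.P (FC7.WF.F W)) i)) (Nat.beq (FC6.Pa.l (FC7.Fc.P (FC7.WF.F W)) i) (FC6.Pa.l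
    (FC7.Fc.P (FC7.WF.F W)) j)) (K.band b3 X3) (K.band b1 X4) p1 p2 (K.band b3 p3) (K.band b1 p4) n1
    n2 (K.band b3 n3) (K.band b1 n4)) (K.bad5 (Nat.beq (FC6.Pa.l (FC7.Fc.P (FC7.WF.F W)) e)
    (FC6.Pa.l (FC7.Fc.P (FC7.WF.F W)) (FC6.Pa.φ (FC7.Fc.P (FC7.WF.F W)) i))) (Nat.beq (FC6.Pa.l
    (FC7.Fc.P (FC7.WF.F W)) (FC6.Pa.φ (FC7.Fc.P (FC7.WF.F W)) i)) (FC6.Pa.l (FC7.Fc.P (FC7.WF.F W))
    (FC6.Pa.φ (FC7.Fc.P (FC7.WF.F W)) j))) (K.band b3 Y3) (K.band b1 Y4) p1 p2 (K.band b3 p3)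
    (K.band b1 p4) n1 n2 (K.band b3 n3) (K.band b1 n4)))

theorem WF_kf5_eq : @K.WF_kf5 = @FC7.WF.kf5 := by
  funext W e i j b1 b3 X4 Y4 X3 Y3 p1 p2 p3 p4 n1 n2 n3 n4
  simp only [K.WF_kf5, FC7.WF.kf5, K.band_eq, K.bor_eq, K.bnot_eq, K.beqB_eq, K.tbit_eq, K.kmax_eq,
    K.kmin_eq, K.nbeq_eq, K.nble_eq, K.bif_b, K.lall_eq, K.lany_eq, K.lmap_eq, K.lfilter_eq,
    K.llen_eq, K.lemp_eq, K.lsum_eq, K.lgetD_eq, K.lmem_eq, K.contains_eq, K.nodup_eq, K.lrange_eq,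
    K.lapp_eq, K.lflat_eq, K.lfmap_eq, K.ltake_eq, K.lfoldl_eq, K.leq_eq, decide_eq_true_eq, ne_eq,
    decide_not, Bool.decide_and, Bool.decide_or, Bool.decide_eq_true, Bool.decide_eq_false,
    Nat.succ_eq_add_one, Bool.beq_eq_decide_eq, bne, Bool.not_eq_true', Bool.or_eq_true,
    Bool.and_eq_true, K.bad5_eq] <;> rfl

noncomputable def WF_k85 (W : FC7.WF) (E : List (List (ℕ × ℕ × Bool))) (e : ℕ) (i : ℕ) (j : ℕ) : Bool :=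
  (K.band (K.band (K.band (K.band (K.band (K.band (K.band (K.band (K.band (K.band (K.band (K.band
    (K.band (K.band (K.band (K.band (K.band (Nat.ble (Nat.succ e) (FC6.Pa.n (FC7.Fc.P (FC7.WF.F
    W)))) (Nat.ble (Nat.succ i) (FC6.Pa.n (FC7.Fc.P (FC7.WF.F W))))) (Nat.ble (Nat.succ j) (FC6.Pa.n
    (FC7.Fc.P (FC7.WF.F W))))) (FC6.Pa.real (FC7.Fc.P (FC7.WF.F W)) e)) (FC6.Pa.real (FC7.Fc.P
    (FC7.WF.F W)) i)) (FC6.Pa.real (FC7.Fc.P (FC7.WF.F W)) j)) (K.bnot (Nat.beq (FC6.Pa.α (FC7.Fc.P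
    (FC7.WF.F W)) i) i))) (K.cl5 E (FC6.Pa.l (FC7.Fc.P (FC7.WF.F W)) e) (FC6.Pa.l (FC7.Fc.P
    (FC7.WF.F W)) (FC6.Pa.φ (FC7.Fc.P (FC7.WF.F W)) e)))) (K.cl5 E (FC6.Pa.l (FC7.Fc.P (FC7.WF.F W))
    i) (FC6.Pa.l (FC7.Fc.P (FC7.WF.F W)) (FC6.Pa.φ (FC7.Fc.P (FC7.WF.F W)) i)))) (K.cl5 E (FC6.Pa.l
    (FC7.Fc.P (FC7.WF.F W)) j) (FC6.Pa.l (FC7.Fc.P (FC7.WF.F W)) (FC6.Pa.φ (FC7.Fc.P (FC7.WF.F W))
    j)))) (K.sm5 E (FC6.Pa.l (FC7.Fc.P (FC7.WF.F W)) i) (FC6.Pa.l (FC7.Fc.P (FC7.WF.F W)) (FC6.Pa.φ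
    (FC7.Fc.P (FC7.WF.F W)) i)) (FC6.Pa.l (FC7.Fc.P (FC7.WF.F W)) (FC6.Pa.φ (FC7.Fc.P (FC7.WF.F W))
    e)) (FC6.Pa.l (FC7.Fc.P (FC7.WF.F W)) e))) (K.bor (K.sm5 E (FC6.Pa.l (FC7.Fc.P (FC7.WF.F W)) j)
    (FC6.Pa.l (FC7.Fc.P (FC7.WF.F W)) (FC6.Pa.φ (FC7.Fc.P (FC7.WF.F W)) j)) (FC6.Pa.l (FC7.Fc.P
    (FC7.WF.F W)) (FC6.Pa.φ (FC7.Fc.P (FC7.WF.F W)) e)) (FC6.Pa.l (FC7.Fc.P (FC7.WF.F W)) e)) (K.sm5
    E (FC6.Pa.l (FC7.Fc.P (FC7.WF.F W)) j) (FC6.Pa.l (FC7.Fc.P (FC7.WF.F W)) (FC6.Pa.φ (FC7.Fc.P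
    (FC7.WF.F W)) j)) (FC6.Pa.l (FC7.Fc.P (FC7.WF.F W)) i) (FC6.Pa.l (FC7.Fc.P (FC7.WF.F W))
    (FC6.Pa.φ (FC7.Fc.P (FC7.WF.F W)) i))))) (K.bnot (Nat.beq e (FC6.Pa.α (FC7.Fc.P (FC7.WF.F W))
    i)))) (K.bnot (Nat.beq i j))) (K.bor (K.bor (K.bor (K.band (K.bnot (Nat.beq (FC6.Pa.α (FC7.Fc.P
    (FC7.WF.F W)) e) e)) (K.bnot (Nat.beq (FC6.Pa.α (FC7.Fc.P (FC7.WF.F W)) e) j))) (K.band (K.bnot
    (Nat.beq (FC6.Pa.α (FC7.Fc.P (FC7.WF.F W)) j) j)) (K.bnot (Nat.beq (FC6.Pa.α (FC7.Fc.P (FC7.WF.F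
    W)) j) e)))) (K.Fc_ne (FC7.WF.F W) (FC6.Pa.l (FC7.Fc.P (FC7.WF.F W)) (FC6.Pa.φ (FC7.Fc.P
    (FC7.WF.F W)) e)) (FC6.Pa.l (FC7.Fc.P (FC7.WF.F W)) j))) (K.Fc_ne (FC7.WF.F W) (FC6.Pa.l
    (FC7.Fc.P (FC7.WF.F W)) e) (FC6.Pa.l (FC7.Fc.P (FC7.WF.F W)) (FC6.Pa.φ (FC7.Fc.P (FC7.WF.F W))
    j))))) (K.WF_sf5 W e i)) (K.WF_sf5 W (FC6.Pa.α (FC7.Fc.P (FC7.WF.F W)) i) j)) (K.WF_kf5 W e i j
    (K.bnot (Nat.beq (FC6.Pa.α (FC7.Fc.P (FC7.WF.F W)) e) e)) (K.bnot (Nat.beq (FC6.Pa.α (FC7.Fc.P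
    (FC7.WF.F W)) j) j)) (K.band (K.WF_so5 W (FC6.Pa.α (FC7.Fc.P (FC7.WF.F W)) e)) (K.sx5 E
    (FC6.Pa.l (FC7.Fc.P (FC7.WF.F W)) (FC6.Pa.φ (FC7.Fc.P (FC7.WF.F W)) (FC6.Pa.φ (FC7.Fc.P
    (FC7.WF.F W)) (FC6.Pa.α (FC7.Fc.P (FC7.WF.F W)) e)))) (FC6.Pa.l (FC7.Fc.P (FC7.WF.F W)) e)
    (FC6.Pa.l (FC7.Fc.P (FC7.WF.F W)) (FC6.Pa.φ (FC7.Fc.P (FC7.WF.F W)) i)) (FC6.Pa.l (FC7.Fc.P
    (FC7.WF.F W)) (FC6.Pa.φ (FC7.Fc.P (FC7.WF.F W)) j)) (FC6.Pa.l (FC7.Fc.P (FC7.WF.F W)) (FC6.Pa.φ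
    (FC7.Fc.P (FC7.WF.F W)) e)) (FC6.Pa.l (FC7.Fc.P (FC7.WF.F W)) i) (FC6.Pa.l (FC7.Fc.P (FC7.WF.F
    W)) j))) (K.band (K.WF_so5 W (FC6.Pa.α (FC7.Fc.P (FC7.WF.F W)) e)) (K.sx5 E (FC6.Pa.l (FC7.Fc.P
    (FC7.WF.F W)) (FC6.Pa.φ (FC7.Fc.P (FC7.WF.F W)) (FC6.Pa.φ (FC7.Fc.P (FC7.WF.F W)) (FC6.Pa.α
    (FC7.Fc.P (FC7.WF.F W)) e)))) (FC6.Pa.l (FC7.Fc.P (FC7.WF.F W)) (FC6.Pa.φ (FC7.Fc.P (FC7.WF.F
    W)) e)) (FC6.Pa.l (FC7.Fc.P (FC7.WF.F W)) i) (FC6.Pa.l (FC7.Fc.P (FC7.WF.F W)) j) (FC6.Pa.l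
    (FC7.Fc.P (FC7.WF.F W)) e) (FC6.Pa.l (FC7.Fc.P (FC7.WF.F W)) (FC6.Pa.φ (FC7.Fc.P (FC7.WF.F W))
    i)) (FC6.Pa.l (FC7.Fc.P (FC7.WF.F W)) (FC6.Pa.φ (FC7.Fc.P (FC7.WF.F W)) j)))) (K.band (K.WF_so5
    W (FC6.Pa.α (FC7.Fc.P (FC7.WF.F W)) j)) (K.sx5 E (FC6.Pa.l (FC7.Fc.P (FC7.WF.F W)) (FC6.Pa.φ
    (FC7.Fc.P (FC7.WF.F W)) (FC6.Pa.φ (FC7.Fc.P (FC7.WF.F W)) (FC6.Pa.α (FC7.Fc.P (FC7.WF.F W))
    j)))) (FC6.Pa.l (FC7.Fc.P (FC7.WF.F W)) e) (FC6.Pa.l (FC7.Fc.P (FC7.WF.F W)) (FC6.Pa.φ (FC7.Fc.P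
    (FC7.WF.F W)) i)) (FC6.Pa.l (FC7.Fc.P (FC7.WF.F W)) (FC6.Pa.φ (FC7.Fc.P (FC7.WF.F W)) j))
    (FC6.Pa.l (FC7.Fc.P (FC7.WF.F W)) (FC6.Pa.φ (FC7.Fc.P (FC7.WF.F W)) e)) (FC6.Pa.l (FC7.Fc.P
    (FC7.WF.F W)) i) (FC6.Pa.l (FC7.Fc.P (FC7.WF.F W)) j))) (K.band (K.WF_so5 W (FC6.Pa.α (FC7.Fc.P
    (FC7.WF.F W)) j)) (K.sx5 E (FC6.Pa.l (FC7.Fc.P (FC7.WF.F W)) (FC6.Pa.φ (FC7.Fc.P (FC7.WF.F W))
    (FC6.Pa.φ (FC7.Fc.P (FC7.WF.F W)) (FC6.Pa.α (FC7.Fc.P (FC7.WF.F W)) j)))) (FC6.Pa.l (FC7.Fc.P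
    (FC7.WF.F W)) (FC6.Pa.φ (FC7.Fc.P (FC7.WF.F W)) e)) (FC6.Pa.l (FC7.Fc.P (FC7.WF.F W)) i)
    (FC6.Pa.l (FC7.Fc.P (FC7.WF.F W)) j) (FC6.Pa.l (FC7.Fc.P (FC7.WF.F W)) e) (FC6.Pa.l (FC7.Fc.P
    (FC7.WF.F W)) (FC6.Pa.φ (FC7.Fc.P (FC7.WF.F W)) i)) (FC6.Pa.l (FC7.Fc.P (FC7.WF.F W)) (FC6.Pa.φ
    (FC7.Fc.P (FC7.WF.F W)) j)))) (K.WF_pt5 W E i) (K.WF_pt5 W E j) (K.WF_pt5 W E (FC6.Pa.α
    (FC7.Fc.P (FC7.WF.F W)) j)) (K.WF_pt5 W E (FC6.Pa.α (FC7.Fc.P (FC7.WF.F W)) e)) (K.WF_fn5 W i)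
    (K.WF_fn5 W j) (K.WF_fn5 W (FC6.Pa.α (FC7.Fc.P (FC7.WF.F W)) j)) (K.WF_fn5 W (FC6.Pa.α (FC7.Fc.P
    (FC7.WF.F W)) e))))

theorem WF_k85_eq : @K.WF_k85 = @FC7.WF.k85 := by
  funext W E e i j
  simp only [K.WF_k85, FC7.WF.k85, K.band_eq, K.bor_eq, K.bnot_eq, K.beqB_eq, K.tbit_eq, K.kmax_eq,
    K.kmin_eq, K.nbeq_eq, K.nble_eq, K.bif_b, K.lall_eq, K.lany_eq, K.lmap_eq, K.lfilter_eq,
    K.llen_eq, K.lemp_eq, K.lsum_eq, K.lgetD_eq, K.lmem_eq, K.contains_eq, K.nodup_eq, K.lrange_eq,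
    K.lapp_eq, K.lflat_eq, K.lfmap_eq, K.ltake_eq, K.lfoldl_eq, K.leq_eq, decide_eq_true_eq, ne_eq,
    decide_not, Bool.decide_and, Bool.decide_or, Bool.decide_eq_true, Bool.decide_eq_false,
    Nat.succ_eq_add_one, Bool.beq_eq_decide_eq, bne, Bool.not_eq_true', Bool.or_eq_true,
    Bool.and_eq_true, K.WF_sf5_eq, K.WF_so5_eq, K.WF_kf5_eq, K.WF_pt5_eq, K.WF_fn5_eq, K.cl5_eq,
    K.sm5_eq, K.sx5_eq, K.Fc_ne_eq] <;> rfl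

noncomputable def WF_k95 (W : FC7.WF) (E : List (List (ℕ × ℕ × Bool))) (i0 : ℕ) (i1 : ℕ) (i2 : ℕ) (i3 : ℕ) (i4 : ℕ) (i5 : ℕ) : Bool :=
  (K.band (K.band (K.band (K.band (K.band (K.band (K.band (K.band (K.band (K.band (K.band (K.band
    (K.band (K.band (K.band (K.band (K.band (Nat.ble (Nat.succ i0) (FC6.Pa.n (FC7.Fc.P (FC7.WF.F
    W)))) (FC6.Pa.real (FC7.Fc.P (FC7.WF.F W)) i0)) (K.bnot (FC6.Pa.real (FC7.Fc.P (FC7.WF.F W))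
    (FC6.Pa.φ (FC7.Fc.P (FC7.WF.F W)) (FC6.Pa.α (FC7.Fc.P (FC7.WF.F W)) i0))))) (K.WF_nq5 W i0))
    (K.WF_nq5 W i1)) (K.WF_nq5 W i2)) (K.WF_nq5 W i3)) (K.WF_nq5 W i4)) (K.WF_nq5 W i5)) (Nat.beq
    (K.WF_nx5 W i5) i0)) (K.WF_fn5 W i1)) (K.WF_pt5 W E (FC6.Pa.α (FC7.Fc.P (FC7.WF.F W)) i1)))
    (K.WF_pt5 W E i0)) (K.ce5 E (FC6.Pa.l (FC7.Fc.P (FC7.WF.F W)) (FC6.Pa.φ (FC7.Fc.P (FC7.WF.F W))
    i2)) (FC6.Pa.l (FC7.Fc.P (FC7.WF.F W)) (FC6.Pa.φ (FC7.Fc.P (FC7.WF.F W)) i1)))) (K.ce5 E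
    (FC6.Pa.l (FC7.Fc.P (FC7.WF.F W)) (FC6.Pa.φ (FC7.Fc.P (FC7.WF.F W)) i3)) (FC6.Pa.l (FC7.Fc.P
    (FC7.WF.F W)) (FC6.Pa.φ (FC7.Fc.P (FC7.WF.F W)) i1)))) (K.cl5 E (FC6.Pa.l (FC7.Fc.P (FC7.WF.F
    W)) (FC6.Pa.φ (FC7.Fc.P (FC7.WF.F W)) i4)) (FC6.Pa.l (FC7.Fc.P (FC7.WF.F W)) (FC6.Pa.φ (FC7.Fc.P
    (FC7.WF.F W)) i1)))) (K.cl5 E (FC6.Pa.l (FC7.Fc.P (FC7.WF.F W)) (FC6.Pa.φ (FC7.Fc.P (FC7.WF.F
    W)) i5)) (FC6.Pa.l (FC7.Fc.P (FC7.WF.F W)) (FC6.Pa.φ (FC7.Fc.P (FC7.WF.F W)) i1)))) (K.cl5 E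
    (FC6.Pa.l (FC7.Fc.P (FC7.WF.F W)) (FC6.Pa.φ (FC7.Fc.P (FC7.WF.F W)) i0)) (FC6.Pa.l (FC7.Fc.P
    (FC7.WF.F W)) (FC6.Pa.φ (FC7.Fc.P (FC7.WF.F W)) i1))))

theorem WF_k95_eq : @K.WF_k95 = @FC7.WF.k95 := by
  funext W E i0 i1 i2 i3 i4 i5
  simp only [K.WF_k95, FC7.WF.k95, K.band_eq, K.bor_eq, K.bnot_eq, K.beqB_eq, K.tbit_eq, K.kmax_eq,
    K.kmin_eq, K.nbeq_eq, K.nble_eq, K.bif_b, K.lall_eq, K.lany_eq, K.lmap_eq, K.lfilter_eq,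
    K.llen_eq, K.lemp_eq, K.lsum_eq, K.lgetD_eq, K.lmem_eq, K.contains_eq, K.nodup_eq, K.lrange_eq,
    K.lapp_eq, K.lflat_eq, K.lfmap_eq, K.ltake_eq, K.lfoldl_eq, K.leq_eq, decide_eq_true_eq, ne_eq,
    decide_not, Bool.decide_and, Bool.decide_or, Bool.decide_eq_true, Bool.decide_eq_false,
    Nat.succ_eq_add_one, Bool.beq_eq_decide_eq, bne, Bool.not_eq_true', Bool.or_eq_true,
    Bool.and_eq_true, K.WF_nq5_eq, K.WF_nx5_eq, K.WF_fn5_eq, K.WF_pt5_eq, K.ce5_eq, K.cl5_eq] <;>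
    rfl

noncomputable def WF_kn5 (W : FC7.WF) (E : List (List (ℕ × ℕ × Bool))) (i : ℕ) : Bool :=
  (K.WF_k95 W E i (K.WF_nx5 W i) (K.WF_nx5 W (K.WF_nx5 W i)) (K.WF_nx5 W (K.WF_nx5 W (K.WF_nx5 W
    i))) (K.WF_nx5 W (K.WF_nx5 W (K.WF_nx5 W (K.WF_nx5 W i)))) (K.WF_nx5 W (K.WF_nx5 W (K.WF_nx5 W
    (K.WF_nx5 W (K.WF_nx5 W i))))))

theorem WF_kn5_eq : @K.WF_kn5 = @FC7.WF.kn5 := by
  funext W E i
  simp only [K.WF_kn5, FC7.WF.kn5, K.band_eq, K.bor_eq, K.bnot_eq, K.beqB_eq, K.tbit_eq, K.kmax_eq,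
    K.kmin_eq, K.nbeq_eq, K.nble_eq, K.bif_b, K.lall_eq, K.lany_eq, K.lmap_eq, K.lfilter_eq,
    K.llen_eq, K.lemp_eq, K.lsum_eq, K.lgetD_eq, K.lmem_eq, K.contains_eq, K.nodup_eq, K.lrange_eq,
    K.lapp_eq, K.lflat_eq, K.lfmap_eq, K.ltake_eq, K.lfoldl_eq, K.leq_eq, decide_eq_true_eq, ne_eq,
    decide_not, Bool.decide_and, Bool.decide_or, Bool.decide_eq_true, Bool.decide_eq_false,
    Nat.succ_eq_add_one, Bool.beq_eq_decide_eq, bne, Bool.not_eq_true', Bool.or_eq_true,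
    Bool.and_eq_true, K.WF_k95_eq, K.WF_nx5_eq] <;> rfl

noncomputable def WF_kt5 (W : FC7.WF) (E : List (List (ℕ × ℕ × Bool))) (a1 : ℕ) (a2 : ℕ) (a3 : ℕ) (a4 : ℕ) (b : ℕ) (c : ℕ) : Bool :=
  (K.band (K.band (K.band (K.band (K.band (K.band (K.band (K.band (K.band (K.band (K.band (K.band
    (K.band (K.band (K.band (K.band (K.band (K.band (K.band (K.band (K.band (K.band (K.band (Nat.ble
    (Nat.succ a4) (FC6.Pa.n (FC7.Fc.P (FC7.WF.F W)))) (FC6.Pa.real (FC7.Fc.P (FC7.WF.F W)) a4))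
    (K.bnot (FC6.Pa.real (FC7.Fc.P (FC7.WF.F W)) (FC6.Pa.φ (FC7.Fc.P (FC7.WF.F W)) (FC6.Pa.α
    (FC7.Fc.P (FC7.WF.F W)) a4))))) (K.WF_nq5 W a4)) (K.WF_nq5 W a1)) (K.WF_nq5 W a2)) (K.WF_nq5 W
    a3)) (Nat.beq (K.WF_nx5 W a3) a4)) (K.WF_pt5 W E a2)) (K.WF_pt5 W E a4)) (FC6.Pa.real (FC7.Fc.P
    (FC7.WF.F W)) (FC6.Pa.φ (FC7.Fc.P (FC7.WF.F W)) a3))) (K.WF_nq5 W (FC6.Pa.φ (FC7.Fc.P (FC7.WF.F
    W)) a2))) (K.WF_nq5 W b)) (Nat.beq (K.WF_nx5 W b) (FC6.Pa.α (FC7.Fc.P (FC7.WF.F W)) (FC6.Pa.φ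
    (FC7.Fc.P (FC7.WF.F W)) a3)))) (K.WF_nq5 W (FC6.Pa.φ (FC7.Fc.P (FC7.WF.F W)) a3))) (K.WF_nq5 W
    c)) (Nat.beq (K.WF_nx5 W c) (FC6.Pa.α (FC7.Fc.P (FC7.WF.F W)) (FC6.Pa.φ (FC7.Fc.P (FC7.WF.F W))
    a4)))) (K.bnot (Nat.beq (FC6.Pa.α (FC7.Fc.P (FC7.WF.F W)) (FC6.Pa.φ (FC7.Fc.P (FC7.WF.F W)) a4))
    (FC6.Pa.φ (FC7.Fc.P (FC7.WF.F W)) a4)))) (K.ce5 E (FC6.Pa.l (FC7.Fc.P (FC7.WF.F W)) (FC6.Pa.φ
    (FC7.Fc.P (FC7.WF.F W)) a1)) (FC6.Pa.l (FC7.Fc.P (FC7.WF.F W)) a4))) (K.ce5 E (FC6.Pa.l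
    (FC7.Fc.P (FC7.WF.F W)) (FC6.Pa.φ (FC7.Fc.P (FC7.WF.F W)) a2)) (FC6.Pa.l (FC7.Fc.P (FC7.WF.F W))
    a4))) (K.ce5 E (FC6.Pa.l (FC7.Fc.P (FC7.WF.F W)) (FC6.Pa.φ (FC7.Fc.P (FC7.WF.F W)) a3))
    (FC6.Pa.l (FC7.Fc.P (FC7.WF.F W)) a4))) (K.ce5 E (FC6.Pa.l (FC7.Fc.P (FC7.WF.F W)) (FC6.Pa.φ
    (FC7.Fc.P (FC7.WF.F W)) a4)) (FC6.Pa.l (FC7.Fc.P (FC7.WF.F W)) a4))) (K.cl5 E (FC6.Pa.l
    (FC7.Fc.P (FC7.WF.F W)) (FC6.Pa.φ (FC7.Fc.P (FC7.WF.F W)) b)) (FC6.Pa.l (FC7.Fc.P (FC7.WF.F W))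
    a4))) (K.cl5 E (FC6.Pa.l (FC7.Fc.P (FC7.WF.F W)) (FC6.Pa.φ (FC7.Fc.P (FC7.WF.F W)) c)) (FC6.Pa.l
    (FC7.Fc.P (FC7.WF.F W)) a4)))

theorem WF_kt5_eq : @K.WF_kt5 = @FC7.WF.kt5 := by
  funext W E a1 a2 a3 a4 b c
  simp only [K.WF_kt5, FC7.WF.kt5, K.band_eq, K.bor_eq, K.bnot_eq, K.beqB_eq, K.tbit_eq, K.kmax_eq,
    K.kmin_eq, K.nbeq_eq, K.nble_eq, K.bif_b, K.lall_eq, K.lany_eq, K.lmap_eq, K.lfilter_eq,
    K.llen_eq, K.lemp_eq, K.lsum_eq, K.lgetD_eq, K.lmem_eq, K.contains_eq, K.nodup_eq, K.lrange_eq,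
    K.lapp_eq, K.lflat_eq, K.lfmap_eq, K.ltake_eq, K.lfoldl_eq, K.leq_eq, decide_eq_true_eq, ne_eq,
    decide_not, Bool.decide_and, Bool.decide_or, Bool.decide_eq_true, Bool.decide_eq_false,
    Nat.succ_eq_add_one, Bool.beq_eq_decide_eq, bne, Bool.not_eq_true', Bool.or_eq_true,
    Bool.and_eq_true, K.WF_nq5_eq, K.WF_nx5_eq, K.WF_pt5_eq, K.ce5_eq, K.cl5_eq] <;> rfl

noncomputable def WF_kz5 (W : FC7.WF) (E : List (List (ℕ × ℕ × Bool))) (i : ℕ) : Bool :=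
  (K.WF_kt5 W E (K.WF_nx5 W i) (K.WF_nx5 W (K.WF_nx5 W i)) (K.WF_nx5 W (K.WF_nx5 W (K.WF_nx5 W i)))
    i (K.WF_nx5 W (FC6.Pa.φ (FC7.Fc.P (FC7.WF.F W)) (K.WF_nx5 W (K.WF_nx5 W i)))) (K.WF_nx5 W
    (FC6.Pa.φ (FC7.Fc.P (FC7.WF.F W)) (K.WF_nx5 W (K.WF_nx5 W (K.WF_nx5 W i))))))

theorem WF_kz5_eq : @K.WF_kz5 = @FC7.WF.kz5 := by
  funext W E i
  simp only [K.WF_kz5, FC7.WF.kz5, K.band_eq, K.bor_eq, K.bnot_eq, K.beqB_eq, K.tbit_eq, K.kmax_eq,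
    K.kmin_eq, K.nbeq_eq, K.nble_eq, K.bif_b, K.lall_eq, K.lany_eq, K.lmap_eq, K.lfilter_eq,
    K.llen_eq, K.lemp_eq, K.lsum_eq, K.lgetD_eq, K.lmem_eq, K.contains_eq, K.nodup_eq, K.lrange_eq,
    K.lapp_eq, K.lflat_eq, K.lfmap_eq, K.ltake_eq, K.lfoldl_eq, K.leq_eq, decide_eq_true_eq, ne_eq,
    decide_not, Bool.decide_and, Bool.decide_or, Bool.decide_eq_true, Bool.decide_eq_false,
    Nat.succ_eq_add_one, Bool.beq_eq_decide_eq, bne, Bool.not_eq_true', Bool.or_eq_true,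
    Bool.and_eq_true, K.WF_kt5_eq, K.WF_nx5_eq] <;> rfl

noncomputable def WF_ka5 (W : FC7.WF) (q : List ℕ) (E : List (List (ℕ × ℕ × Bool))) : Bool :=
  (K.bor (K.bor (K.bor (K.bor (K.bor (K.band (Nat.beq (K.lgetD q (nat_lit 0) (nat_lit 0)) (nat_lit
    0)) (K.WF_k05 W E (K.lgetD q (nat_lit 1) (nat_lit 0)))) (K.band (Nat.beq (K.lgetD q (nat_lit 0)
    (nat_lit 0)) (nat_lit 5)) (K.WF_k55 W E (K.lgetD q (nat_lit 1) (nat_lit 0))))) (K.band (Nat.beq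
    (K.lgetD q (nat_lit 0) (nat_lit 0)) (nat_lit 6)) (K.WF_k65 W E (K.lgetD q (nat_lit 1) (nat_lit
    0))))) (K.band (Nat.beq (K.lgetD q (nat_lit 0) (nat_lit 0)) (nat_lit 8)) (K.WF_k85 W E (Nat.mod
    (K.lgetD q (nat_lit 1) (nat_lit 0)) (nat_lit 256)) (Nat.mod (Nat.div (K.lgetD q (nat_lit 1)
    (nat_lit 0)) (nat_lit 256)) (nat_lit 256)) (Nat.mod (Nat.div (K.lgetD q (nat_lit 1) (nat_lit 0))
    (nat_lit 65536)) (nat_lit 256))))) (K.band (Nat.beq (K.lgetD q (nat_lit 0) (nat_lit 0)) (nat_lit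
    9)) (K.WF_kn5 W E (K.lgetD q (nat_lit 1) (nat_lit 0))))) (K.band (Nat.beq (K.lgetD q (nat_lit 0)
    (nat_lit 0)) (nat_lit 10)) (K.WF_kz5 W E (K.lgetD q (nat_lit 1) (nat_lit 0)))))

theorem WF_ka5_eq : @K.WF_ka5 = @FC7.WF.ka5 := by
  funext W q E
  simp only [K.WF_ka5, FC7.WF.ka5, K.band_eq, K.bor_eq, K.bnot_eq, K.beqB_eq, K.tbit_eq, K.kmax_eq,
    K.kmin_eq, K.nbeq_eq, K.nble_eq, K.bif_b, K.lall_eq, K.lany_eq, K.lmap_eq, K.lfilter_eq,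
    K.llen_eq, K.lemp_eq, K.lsum_eq, K.lgetD_eq, K.lmem_eq, K.contains_eq, K.nodup_eq, K.lrange_eq,
    K.lapp_eq, K.lflat_eq, K.lfmap_eq, K.ltake_eq, K.lfoldl_eq, K.leq_eq, decide_eq_true_eq, ne_eq,
    decide_not, Bool.decide_and, Bool.decide_or, Bool.decide_eq_true, Bool.decide_eq_false,
    Nat.succ_eq_add_one, Bool.beq_eq_decide_eq, bne, Bool.not_eq_true', Bool.or_eq_true,
    Bool.and_eq_true, K.WF_k05_eq, K.WF_k55_eq, K.WF_k65_eq, K.WF_k85_eq, K.WF_kn5_eq, K.WF_kz5_eq]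
    <;> rfl

noncomputable def WF_kk5 (W : FC7.WF) (t : ℕ) (E : List (List (ℕ × ℕ × Bool))) (i : ℕ) (j : ℕ) : Bool :=
  (K.bor (K.bor (K.bor (K.bor (K.band (Nat.beq t (nat_lit 1)) (K.WF_k15 W E i j (FC6.Pa.φ (FC7.Fc.P
    (FC7.WF.F W)) (FC6.Pa.α (FC7.Fc.P (FC7.WF.F W)) j)))) (K.band (Nat.beq t (nat_lit 2)) (K.WF_k25
    W E i j))) (K.band (Nat.beq t (nat_lit 3)) (K.WF_k35 W E i j (FC6.Pa.φ (FC7.Fc.P (FC7.WF.F W))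
    (FC6.Pa.α (FC7.Fc.P (FC7.WF.F W)) j))))) (K.band (Nat.beq t (nat_lit 4)) (K.WF_k45 W E i j
    (FC6.Pa.φ (FC7.Fc.P (FC7.WF.F W)) (FC6.Pa.α (FC7.Fc.P (FC7.WF.F W)) j))))) (K.band (Nat.beq t
    (nat_lit 7)) (K.WF_k75 W E i (K.WF_nx5 W i) (K.WF_nx5 W (K.WF_nx5 W i)))))

theorem WF_kk5_eq : @K.WF_kk5 = @FC7.WF.kk5 := by
  funext W t E i j
  simp only [K.WF_kk5, FC7.WF.kk5, K.band_eq, K.bor_eq, K.bnot_eq, K.beqB_eq, K.tbit_eq, K.kmax_eq,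
    K.kmin_eq, K.nbeq_eq, K.nble_eq, K.bif_b, K.lall_eq, K.lany_eq, K.lmap_eq, K.lfilter_eq,
    K.llen_eq, K.lemp_eq, K.lsum_eq, K.lgetD_eq, K.lmem_eq, K.contains_eq, K.nodup_eq, K.lrange_eq,
    K.lapp_eq, K.lflat_eq, K.lfmap_eq, K.ltake_eq, K.lfoldl_eq, K.leq_eq, decide_eq_true_eq, ne_eq,
    decide_not, Bool.decide_and, Bool.decide_or, Bool.decide_eq_true, Bool.decide_eq_false,
    Nat.succ_eq_add_one, Bool.beq_eq_decide_eq, bne, Bool.not_eq_true', Bool.or_eq_true,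
    Bool.and_eq_true, K.WF_k15_eq, K.WF_k25_eq, K.WF_k35_eq, K.WF_k45_eq, K.WF_k75_eq, K.WF_nx5_eq]
    <;> rfl

noncomputable def WF_ok5 (W : FC7.WF) (E : List ℕ × List (List (ℕ × ℕ × Bool))) : Bool :=
  (K.bor (K.WF_ka5 W (Prod.fst E) (Prod.snd E)) (K.band (K.band (K.band (Nat.ble (Nat.succ (K.lgetD
    (Prod.fst E) (nat_lit 1) (nat_lit 0))) (FC6.Sp.ns (FC6.Stars.Q (FC7.Wt.Z (FC7.WF.toWt W)))))
    (FC7.Wt.ac (FC7.WF.toWt W) (FC6.Stars.ca (FC7.Wt.Z (FC7.WF.toWt W)) (K.lgetD (Prod.fst E)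
    (nat_lit 1) (nat_lit 0))))) (Nat.ble (Nat.succ (FC6.Sp.nf (FC6.Stars.Q (FC7.Wt.Z (FC7.WF.toWt
    W))) (nat_lit 0) (K.lgetD (Prod.fst E) (nat_lit 1) (nat_lit 0)))) (FC6.Pa.n (FC7.Fc.P (FC7.WF.F
    W))))) (K.WF_kk5 W (K.lgetD (Prod.fst E) (nat_lit 0) (nat_lit 0)) (Prod.snd E) (FC6.Sp.nf
    (FC6.Stars.Q (FC7.Wt.Z (FC7.WF.toWt W))) (nat_lit 0) (K.lgetD (Prod.fst E) (nat_lit 1) (nat_lit
    0))) (FC6.Pa.φ (FC7.Fc.P (FC7.WF.F W)) (FC6.Pa.α (FC7.Fc.P (FC7.WF.F W)) (FC6.Sp.nf (FC6.Stars.Q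
    (FC7.Wt.Z (FC7.WF.toWt W))) (nat_lit 0) (K.lgetD (Prod.fst E) (nat_lit 1) (nat_lit 0))))))))

theorem WF_ok5_eq : @K.WF_ok5 = @FC7.WF.ok5 := by
  funext W E
  simp only [K.WF_ok5, FC7.WF.ok5, K.band_eq, K.bor_eq, K.bnot_eq, K.beqB_eq, K.tbit_eq, K.kmax_eq,
    K.kmin_eq, K.nbeq_eq, K.nble_eq, K.bif_b, K.lall_eq, K.lany_eq, K.lmap_eq, K.lfilter_eq,
    K.llen_eq, K.lemp_eq, K.lsum_eq, K.lgetD_eq, K.lmem_eq, K.contains_eq, K.nodup_eq, K.lrange_eq,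
    K.lapp_eq, K.lflat_eq, K.lfmap_eq, K.ltake_eq, K.lfoldl_eq, K.leq_eq, decide_eq_true_eq, ne_eq,
    decide_not, Bool.decide_and, Bool.decide_or, Bool.decide_eq_true, Bool.decide_eq_false,
    Nat.succ_eq_add_one, Bool.beq_eq_decide_eq, bne, Bool.not_eq_true', Bool.or_eq_true,
    Bool.and_eq_true, K.WF_ka5_eq, K.WF_kk5_eq] <;> rfl

noncomputable def WF_di5 (W : FC7.WF) (D : List ℕ) : Bool :=
  (K.allN (K.llen D) (fun (i : ℕ) => (K.band (Nat.ble (Nat.succ (K.lgetD D i (nat_lit 0))) (FC7.OD.m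
    (FC7.Fc.O (FC7.WF.F W)))) (K.allN i (fun (j : ℕ) => (K.Fc_ne (FC7.WF.F W) (K.lgetD D j (nat_lit
    0)) (K.lgetD D i (nat_lit 0))))))))

theorem WF_di5_eq : @K.WF_di5 = @FC7.WF.di5 := by
  funext W D
  simp only [K.WF_di5, FC7.WF.di5, K.band_eq, K.bor_eq, K.bnot_eq, K.beqB_eq, K.tbit_eq, K.kmax_eq,
    K.kmin_eq, K.nbeq_eq, K.nble_eq, K.bif_b, K.lall_eq, K.lany_eq, K.lmap_eq, K.lfilter_eq,
    K.llen_eq, K.lemp_eq, K.lsum_eq, K.lgetD_eq, K.lmem_eq, K.contains_eq, K.nodup_eq, K.lrange_eq,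
    K.lapp_eq, K.lflat_eq, K.lfmap_eq, K.ltake_eq, K.lfoldl_eq, K.leq_eq, decide_eq_true_eq, ne_eq,
    decide_not, Bool.decide_and, Bool.decide_or, Bool.decide_eq_true, Bool.decide_eq_false,
    Nat.succ_eq_add_one, Bool.beq_eq_decide_eq, bne, Bool.not_eq_true', Bool.or_eq_true,
    Bool.and_eq_true, K.allN_eq, K.Fc_ne_eq] <;> rfl

noncomputable def WF_chkB (W : FC7.WF) : Bool :=
  (K.band (K.band (K.gchk (FC7.Fc.gt (FC7.WF.F W)) (FC7.Fc.P (FC7.WF.F W)) (FC7.OD.x (FC7.Fc.O (FC7.WF.F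
    W))) (FC7.OD.m (FC7.Fc.O (FC7.WF.F W))) (K.WF_off W)) (K.lall (FC7.Fc.gt (FC7.WF.F W)) (fun (p :
    ℕ × ℕ × ℕ) => (K.WF_hub W (FC6.Pa.l (FC7.Fc.P (FC7.WF.F W)) (FC6.Pa.φ (FC7.Fc.P (FC7.WF.F W))
    (Prod.fst p))))))) (K.band (K.lall (FC7.Fc.D5 (FC7.WF.F W)) (K.WF_di5 W)) (K.lall (FC7.Fc.p5
    (FC7.WF.F W)) (K.WF_ok5 W))))

theorem WF_chkB_eq : @K.WF_chkB = @FC7.WF.chkB := by
  funext W
  simp only [K.WF_chkB, FC7.WF.chkB, K.band_eq, K.bor_eq, K.bnot_eq, K.beqB_eq, K.tbit_eq,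
    K.kmax_eq, K.kmin_eq, K.nbeq_eq, K.nble_eq, K.bif_b, K.lall_eq, K.lany_eq, K.lmap_eq,
    K.lfilter_eq, K.llen_eq, K.lemp_eq, K.lsum_eq, K.lgetD_eq, K.lmem_eq, K.contains_eq, K.nodup_eq,
    K.lrange_eq, K.lapp_eq, K.lflat_eq, K.lfmap_eq, K.ltake_eq, K.lfoldl_eq, K.leq_eq,
    decide_eq_true_eq, ne_eq, decide_not, Bool.decide_and, Bool.decide_or, Bool.decide_eq_true,
    Bool.decide_eq_false, Nat.succ_eq_add_one, Bool.beq_eq_decide_eq, bne, Bool.not_eq_true',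
    Bool.or_eq_true, Bool.and_eq_true, K.gchk_eq, K.WF_off_eq, K.WF_hub_eq,
    K.WF_di5_eq, K.WF_ok5_eq] <;> rfl

noncomputable def Pa_flOk (P : FC6.Pa) (a : ℕ) : Bool :=
  (K.band (K.band (K.band (Nat.ble (Nat.succ a) (FC6.Pa.n P)) (K.bnot (Nat.beq (FC6.Pa.α P a) a)))
    (K.bnot (Nat.beq (FC6.Pa.α P a) (FC6.Pa.φ P a)))) (K.bnot (Nat.beq (FC6.Pa.α P a) (FC6.Pa.φ P
    (FC6.Pa.φ P a)))))

theorem Pa_flOk_eq : @K.Pa_flOk = @FC6.Pa.flOk := by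
  funext P a
  simp only [K.Pa_flOk, FC6.Pa.flOk, K.band_eq, K.bor_eq, K.bnot_eq, K.beqB_eq, K.tbit_eq,
    K.kmax_eq, K.kmin_eq, K.nbeq_eq, K.nble_eq, K.bif_b, K.lall_eq, K.lany_eq, K.lmap_eq,
    K.lfilter_eq, K.llen_eq, K.lemp_eq, K.lsum_eq, K.lgetD_eq, K.lmem_eq, K.contains_eq, K.nodup_eq,
    K.lrange_eq, K.lapp_eq, K.lflat_eq, K.lfmap_eq, K.ltake_eq, K.lfoldl_eq, K.leq_eq,
    decide_eq_true_eq, ne_eq, decide_not, Bool.decide_and, Bool.decide_or, Bool.decide_eq_true,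
    Bool.decide_eq_false, Nat.succ_eq_add_one, Bool.beq_eq_decide_eq, bne, Bool.not_eq_true',
    Bool.or_eq_true, Bool.and_eq_true] <;> rfl

noncomputable def flφ (φ : ℕ → ℕ) (a b x : ℕ) : ℕ :=
  Bool.rec (motive := fun _ => ℕ) (Bool.rec (motive := fun _ => ℕ) (Bool.rec (motive := fun _ => ℕ)
    (Bool.rec (motive := fun _ => ℕ) (Bool.rec (motive := fun _ => ℕ) (Bool.rec (motive := fun _ =>
    ℕ) (φ x) (b) (Nat.beq x (φ a))) (φ a) (Nat.beq x (φ (φ b)))) (φ (φ b)) (Nat.beq x b)) (a)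
    (Nat.beq x (φ b))) (φ b) (Nat.beq x (φ (φ a)))) (φ (φ a)) (Nat.beq x a)

theorem flφ_eq : @K.flφ = @FC6.flφ ℕ _ := by
  funext φ a b x
  simp only [K.flφ, FC6.flφ, K.nbeq_eq, K.bif_dec]

noncomputable def Pa_fl (P : FC6.Pa) (a : ℕ) : FC6.Pa :=
  (FC6.Pa.mk (FC6.Pa.n P) (K.flφ (FC6.Pa.φ P) a (FC6.Pa.α P a)) (FC6.Pa.α P) (fun (x : ℕ) =>
    (Bool.rec (motive := fun _ => ℕ) (Bool.rec (motive := fun _ => ℕ) (FC6.Pa.l P x) (FC6.Pa.l P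
    (FC6.Pa.φ P (FC6.Pa.φ P a))) (Nat.beq x (FC6.Pa.α P a))) (FC6.Pa.l P (FC6.Pa.φ P (FC6.Pa.φ P
    (FC6.Pa.α P a)))) (Nat.beq x a))) (FC6.Pa.real P) (FC6.Pa.u P))

theorem Pa_fl_eq : @K.Pa_fl = @FC6.Pa.fl := by
  funext P a
  simp only [K.Pa_fl, FC6.Pa.fl, K.band_eq, K.bor_eq, K.bnot_eq, K.beqB_eq, K.tbit_eq, K.kmax_eq,
    K.kmin_eq, K.nbeq_eq, K.nble_eq, K.bif_b, K.lall_eq, K.lany_eq, K.lmap_eq, K.lfilter_eq,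
    K.llen_eq, K.lemp_eq, K.lsum_eq, K.lgetD_eq, K.lmem_eq, K.contains_eq, K.nodup_eq, K.lrange_eq,
    K.lapp_eq, K.lflat_eq, K.lfmap_eq, K.ltake_eq, K.lfoldl_eq, K.leq_eq, decide_eq_true_eq, ne_eq,
    decide_not, Bool.decide_and, Bool.decide_or, Bool.decide_eq_true, Bool.decide_eq_false,
    Nat.succ_eq_add_one, Bool.beq_eq_decide_eq, bne, Bool.not_eq_true', Bool.or_eq_true,
    Bool.and_eq_true, K.flφ_eq] <;> rfl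

noncomputable def Pa_flips (P' : Pa) (P : Pa) (L : List ℕ) : Bool :=
  List.rec (motive := fun _ => Pa → Bool)
    (fun P => K.band (Nat.beq P'.n P.n) (K.allN P.n fun i => K.band (K.band (Nat.beq (P'.φ i) (P.φ
      i))
      (Nat.beq (P'.α i) (P.α i))) (Nat.beq (P'.l i) (P.l i))))
    (fun a _ ih P => K.band (K.Pa_flOk P a) (ih (K.Pa_fl P a))) L P

theorem Pa_flips_eq : Pa_flips = Pa.flips := by
  funext P' P L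
  induction L generalizing P with
  | nil =>
    show K.band (Nat.beq P'.n P.n) (K.allN P.n fun i => K.band (K.band (Nat.beq (P'.φ i) (P.φ i))
      (Nat.beq (P'.α i) (P.α i))) (Nat.beq (P'.l i) (P.l i))) = _
    rw [Pa.flips]
    simp only [K.band_eq, K.nbeq_eq, K.allN_eq]
  | cons a l ih =>
    rw [Pa.flips, ← ih]
    show K.band (K.Pa_flOk P a) (Pa_flips P' (K.Pa_fl P a) l) = _
    rw [K.band_eq, K.Pa_flOk_eq, K.Pa_fl_eq]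

noncomputable def ad (p : ℕ × ℕ) : List ℕ :=
  (Bool.rec (motive := fun _ => List ℕ) (List.cons (Prod.fst p) (List.cons (Prod.snd p) ([] : List
    (ℕ)))) (List.cons (Prod.fst p) ([] : List (ℕ))) (Nat.beq (Prod.fst p) (Prod.snd p)))

theorem ad_eq : @K.ad = @FC7.ad := by
  funext p
  simp only [K.ad, FC7.ad, K.band_eq, K.bor_eq, K.bnot_eq, K.beqB_eq, K.tbit_eq, K.kmax_eq,
    K.kmin_eq, K.nbeq_eq, K.nble_eq, K.bif_b, K.lall_eq, K.lany_eq, K.lmap_eq, K.lfilter_eq,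
    K.llen_eq, K.lemp_eq, K.lsum_eq, K.lgetD_eq, K.lmem_eq, K.contains_eq, K.nodup_eq, K.lrange_eq,
    K.lapp_eq, K.lflat_eq, K.lfmap_eq, K.ltake_eq, K.lfoldl_eq, K.leq_eq, decide_eq_true_eq, ne_eq,
    decide_not, Bool.decide_and, Bool.decide_or, Bool.decide_eq_true, Bool.decide_eq_false,
    Nat.succ_eq_add_one, Bool.beq_eq_decide_eq, bne, Bool.not_eq_true', Bool.or_eq_true,
    Bool.and_eq_true] <;> rfl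

noncomputable def XE_stat (X : FC7.XE) (P : FC6.Pa) (P' : FC6.Pa) : Bool :=
  (K.band (K.band (K.band (K.band (K.band (K.band (K.allN (FC6.Pa.n P) (fun (i : ℕ) => (K.band
    (K.band (K.band (K.band (K.band (K.band (K.band (K.band (K.band (K.band (K.band (K.band (K.band
    (K.bor (K.bnot (FC6.Pa.real P i)) (K.band (Nat.ble (Nat.succ (FC6.Pa.l P i)) (Nat.add (FC7.XE.x
    X) (FC7.XE.k X))) (Nat.ble (Nat.succ (FC6.Pa.l P (FC6.Pa.φ P i))) (Nat.add (FC7.XE.x X)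
    (FC7.XE.k X))))) (K.bor (K.bnot (FC6.Pa.real P' i)) (K.band (Nat.ble (Nat.succ (FC6.Pa.l P' i))
    (Nat.add (FC7.XE.x X) (FC7.XE.k X))) (Nat.ble (Nat.succ (FC6.Pa.l P' (FC6.Pa.φ P' i))) (Nat.add
    (FC7.XE.x X) (FC7.XE.k X)))))) (K.beqB (FC6.Pa.real P (FC6.Pa.α P i)) (FC6.Pa.real P i)))
    (K.beqB (FC6.Pa.real P' (FC6.Pa.α P i)) (FC6.Pa.real P' i))) (Nat.beq (FC7.XE.ce X (FC6.Pa.φ P
    i)) (FC7.XE.ce X i))) (Nat.beq (FC7.XE.ce' X (FC6.Pa.φ P' i)) (FC7.XE.ce' X i))) (K.bor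
    (FC6.Pa.real P i) (Nat.beq (FC7.XE.ce X (FC6.Pa.α P i)) (FC7.XE.ce X i)))) (K.bor (FC6.Pa.real
    P' i) (Nat.beq (FC7.XE.ce' X (FC6.Pa.α P i)) (FC7.XE.ce' X i)))) (K.tbit (FC7.XE.st' X (FC6.Pa.l
    P' i)) (FC7.XE.ce' X i))) (Nat.ble (Nat.succ (FC7.XE.cr X (FC7.XE.ce X i))) (FC6.Pa.n P)))
    (K.bor (Nat.beq i (FC7.XE.cr X (FC7.XE.ce X i))) (K.band (K.band (K.band (Nat.ble (Nat.succ
    (FC7.XE.pk X (FC7.XE.pa X i))) (FC7.XE.pk X i)) (Nat.ble (Nat.succ (FC7.XE.pa X i)) (FC6.Pa.n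
    P))) (Nat.beq (FC7.XE.ce X (FC7.XE.pa X i)) (FC7.XE.ce X i))) (K.bor (Nat.beq (FC7.XE.pa X i)
    (FC6.Pa.φ P i)) (K.band (K.band (K.bnot (Nat.beq (FC6.Pa.α P i) i)) (K.bnot (FC6.Pa.real P i)))
    (Nat.beq (FC7.XE.pa X i) (FC6.Pa.α P i))))))) (Nat.ble (Nat.succ (FC7.XE.cr' X (FC7.XE.ce' X
    i))) (FC6.Pa.n P))) (K.bor (Nat.beq i (FC7.XE.cr' X (FC7.XE.ce' X i))) (K.band (K.band (K.band
    (Nat.ble (Nat.succ (FC7.XE.pk' X (FC7.XE.pa' X i))) (FC7.XE.pk' X i)) (Nat.ble (Nat.succ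
    (FC7.XE.pa' X i)) (FC6.Pa.n P))) (Nat.beq (FC7.XE.ce' X (FC7.XE.pa' X i)) (FC7.XE.ce' X i)))
    (K.bor (Nat.beq (FC7.XE.pa' X i) (FC6.Pa.φ P' i)) (K.band (K.band (K.bnot (Nat.beq (FC6.Pa.α P
    i) i)) (K.bnot (FC6.Pa.real P' i))) (Nat.beq (FC7.XE.pa' X i) (FC6.Pa.α P i))))))) (Bool.rec
    (motive := fun _ => Bool) (K.band (K.bor (K.bor (K.bnot (FC6.Pa.real P i)) (K.lmem i (FC7.XE.es
    X))) (K.lmem (FC6.Pa.α P i) (FC7.XE.es X))) (K.bor (K.bor (K.bnot (FC6.Pa.real P' i)) (K.lmem i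
    (FC7.XE.es' X))) (K.lmem (FC6.Pa.α P i) (FC7.XE.es' X)))) (K.band (K.band (K.band (K.band
    (K.band (K.lmem i (FC7.XE.rs X)) (K.beqB (FC6.Pa.real P' i) (FC6.Pa.real P i))) (Nat.beq
    (FC6.Pa.l P' i) (FC6.Pa.l P i))) (Nat.beq (FC6.Pa.l P' (FC6.Pa.φ P' i)) (FC6.Pa.l P (FC6.Pa.φ P
    i)))) (Nat.ble (FC7.XE.x X) (FC6.Pa.l P i))) (Nat.ble (FC7.XE.x X) (FC6.Pa.l P (FC6.Pa.φ P i))))
    (Nat.beq (FC6.Pa.α P i) i))))) (K.lall (FC7.XE.es X) (fun (i : ℕ) => (K.band (Nat.ble (Nat.succ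
    i) (FC6.Pa.n P)) (K.bnot (Nat.beq (FC6.Pa.α P i) i)))))) (K.lall (FC7.XE.es' X) (fun (i : ℕ) =>
    (K.band (Nat.ble (Nat.succ i) (FC6.Pa.n P)) (K.bnot (Nat.beq (FC6.Pa.α P i) i)))))) (K.lall
    (FC7.XE.rs X) (fun (i : ℕ) => (K.band (Nat.ble (Nat.succ i) (FC6.Pa.n P)) (Nat.beq (FC6.Pa.α P
    i) i))))) (K.allN (Nat.add (FC7.XE.x X) (FC7.XE.k X)) (fun (a : ℕ) => (Nat.beq (FC7.XE.st X a)
    (K.lfoldl (fun (m : ℕ) => (fun (i : ℕ) => (Bool.rec (motive := fun _ => ℕ) m (Nat.lor m (Nat.pow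
    (nat_lit 2) (FC7.XE.ce X i))) (Nat.beq (FC6.Pa.l P i) a)))) (nat_lit 0) (K.lrange (FC6.Pa.n
    P))))))) (K.leq (FC7.XE.rs X) (K.lfmap K.ad (FC7.XE.ar X)))) (K.lall (FC7.XE.ar X) (fun (p : ℕ ×
    ℕ) => (K.band (K.band (K.bor (Nat.beq (Prod.fst p) (Prod.snd p)) (K.band (K.band (K.band (K.band
    (K.bnot (FC6.Pa.real P (Prod.fst p))) (K.bnot (FC6.Pa.real P (Prod.snd p)))) (Nat.beq (FC6.Pa.l
    P (FC6.Pa.φ P (Prod.fst p))) (FC6.Pa.l P (Prod.snd p)))) (Nat.beq (FC7.XE.ce X (Prod.fst p))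
    (FC7.XE.ce X (Prod.snd p)))) (Nat.beq (FC7.XE.ce' X (Prod.fst p)) (FC7.XE.ce' X (Prod.snd p)))))
    (Nat.ble (Nat.succ (FC6.Pa.l P (Prod.fst p))) (Nat.add (FC7.XE.x X) (FC7.XE.k X)))) (Nat.ble
    (Nat.succ (FC6.Pa.l P (FC6.Pa.φ P (Prod.snd p)))) (Nat.add (FC7.XE.x X) (FC7.XE.k X)))))))

theorem XE_stat_eq : @K.XE_stat = @FC7.XE.stat := by
  funext X P P'
  simp only [K.XE_stat, FC7.XE.stat, K.band_eq, K.bor_eq, K.bnot_eq, K.beqB_eq, K.tbit_eq,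
    K.kmax_eq, K.kmin_eq, K.nbeq_eq, K.nble_eq, K.bif_b, K.lall_eq, K.lany_eq, K.lmap_eq,
    K.lfilter_eq, K.llen_eq, K.lemp_eq, K.lsum_eq, K.lgetD_eq, K.lmem_eq, K.contains_eq, K.nodup_eq,
    K.lrange_eq, K.lapp_eq, K.lflat_eq, K.lfmap_eq, K.ltake_eq, K.lfoldl_eq, K.leq_eq,
    decide_eq_true_eq, ne_eq, decide_not, Bool.decide_and, Bool.decide_or, Bool.decide_eq_true,
    Bool.decide_eq_false, Nat.succ_eq_add_one, Bool.beq_eq_decide_eq, bne, Bool.not_eq_true',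
    Bool.or_eq_true, Bool.and_eq_true, K.allN_eq, K.ad_eq] <;> rfl

noncomputable def XE_as (X : FC7.XE) : List ℕ :=
  (K.lmap (Prod.fst) (FC7.XE.ar X))

theorem XE_as_eq : @K.XE_as = @FC7.XE.as := by
  funext X
  simp only [K.XE_as, FC7.XE.as, K.band_eq, K.bor_eq, K.bnot_eq, K.beqB_eq, K.tbit_eq, K.kmax_eq,
    K.kmin_eq, K.nbeq_eq, K.nble_eq, K.bif_b, K.lall_eq, K.lany_eq, K.lmap_eq, K.lfilter_eq,
    K.llen_eq, K.lemp_eq, K.lsum_eq, K.lgetD_eq, K.lmem_eq, K.contains_eq, K.nodup_eq, K.lrange_eq,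
    K.lapp_eq, K.lflat_eq, K.lfmap_eq, K.ltake_eq, K.lfoldl_eq, K.leq_eq, decide_eq_true_eq, ne_eq,
    decide_not, Bool.decide_and, Bool.decide_or, Bool.decide_eq_true, Bool.decide_eq_false,
    Nat.succ_eq_add_one, Bool.beq_eq_decide_eq, bne, Bool.not_eq_true', Bool.or_eq_true,
    Bool.and_eq_true] <;> rfl

noncomputable def XE_sta (X : FC7.XE) (P : FC6.Pa) (P' : FC6.Pa) : Bool :=
  (K.band (K.band (K.XE_stat X P P') (Nat.ble (FC7.XE.lo X) (FC7.XE.x X))) (K.lall (FC7.XE.lr X)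
    (fun (q : ℕ × Bool × Bool) => (K.band (K.lmem (Prod.fst q) (K.XE_as X)) (FC6.Pa.real P (Prod.fst
    q))))))

theorem XE_sta_eq : @K.XE_sta = @FC7.XE.sta := by
  funext X P P'
  simp only [K.XE_sta, FC7.XE.sta, K.band_eq, K.bor_eq, K.bnot_eq, K.beqB_eq, K.tbit_eq, K.kmax_eq,
    K.kmin_eq, K.nbeq_eq, K.nble_eq, K.bif_b, K.lall_eq, K.lany_eq, K.lmap_eq, K.lfilter_eq,
    K.llen_eq, K.lemp_eq, K.lsum_eq, K.lgetD_eq, K.lmem_eq, K.contains_eq, K.nodup_eq, K.lrange_eq,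
    K.lapp_eq, K.lflat_eq, K.lfmap_eq, K.ltake_eq, K.lfoldl_eq, K.leq_eq, decide_eq_true_eq, ne_eq,
    decide_not, Bool.decide_and, Bool.decide_or, Bool.decide_eq_true, Bool.decide_eq_false,
    Nat.succ_eq_add_one, Bool.beq_eq_decide_eq, bne, Bool.not_eq_true', Bool.or_eq_true,
    Bool.and_eq_true, K.XE_stat_eq, K.XE_as_eq] <;> rfl

noncomputable def Fc_XX (F : FC7.Fc) : FC7.XE :=
  (FC7.XE.mk (FC7.XE.x (FC7.Fc.X F)) (FC7.XE.k (FC7.Fc.X F)) (FC7.XE.lo (FC7.Fc.X F)) (FC7.XE.nc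
    (FC7.Fc.X F)) (FC7.XE.par (FC7.Fc.X F)) (fun (m : ℕ) => (K.bnot (K.tbit m (FC7.OD.x (FC7.Fc.O
    F))))) (FC7.XE.ce (FC7.Fc.X F)) (FC7.XE.ce' (FC7.Fc.X F)) (FC7.XE.cr (FC7.Fc.X F)) (FC7.XE.pa
    (FC7.Fc.X F)) (FC7.XE.pk (FC7.Fc.X F)) (FC7.XE.cr' (FC7.Fc.X F)) (FC7.XE.pa' (FC7.Fc.X F))
    (FC7.XE.pk' (FC7.Fc.X F)) (FC7.XE.st (FC7.Fc.X F)) (FC7.XE.st' (FC7.Fc.X F)) (FC7.XE.es
    (FC7.Fc.X F)) (FC7.XE.es' (FC7.Fc.X F)) (FC7.XE.rs (FC7.Fc.X F)) (FC7.XE.ar (FC7.Fc.X F))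
    (FC7.XE.sp (FC7.Fc.X F)) (FC7.XE.dj (FC7.Fc.X F)) (FC7.XE.dj' (FC7.Fc.X F)) (FC7.XE.lr (FC7.Fc.X
    F)) (FC7.XE.kd (FC7.Fc.X F)))

theorem Fc_XX_eq : @K.Fc_XX = @FC7.Fc.XX := by
  funext F
  simp only [K.Fc_XX, FC7.Fc.XX, K.band_eq, K.bor_eq, K.bnot_eq, K.beqB_eq, K.tbit_eq, K.kmax_eq,
    K.kmin_eq, K.nbeq_eq, K.nble_eq, K.bif_b, K.lall_eq, K.lany_eq, K.lmap_eq, K.lfilter_eq,
    K.llen_eq, K.lemp_eq, K.lsum_eq, K.lgetD_eq, K.lmem_eq, K.contains_eq, K.nodup_eq, K.lrange_eq,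
    K.lapp_eq, K.lflat_eq, K.lfmap_eq, K.ltake_eq, K.lfoldl_eq, K.leq_eq, decide_eq_true_eq, ne_eq,
    decide_not, Bool.decide_and, Bool.decide_or, Bool.decide_eq_true, Bool.decide_eq_false,
    Nat.succ_eq_add_one, Bool.beq_eq_decide_eq, bne, Bool.not_eq_true', Bool.or_eq_true,
    Bool.and_eq_true] <;> rfl

noncomputable def mkE (q : ℕ) (Q : FC6.Pa) (ce : ℕ → ℕ) (i : ℕ) : FC7.FE :=
  (FC7.FE.mk (Nat.lor (Nat.pow (nat_lit 2) (FC6.Pa.l Q i)) (Nat.pow (nat_lit 2) (FC6.Pa.l Q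
    (FC6.Pa.φ Q i)))) (ce i) (ce (FC6.Pa.α Q i)) (Nat.mul q (ce i)) (Nat.mul q (ce (FC6.Pa.α Q i)))
    (Nat.lor (Nat.pow (nat_lit 2) (ce i)) (Nat.pow (nat_lit 2) (ce (FC6.Pa.α Q i)))))

theorem mkE_eq : @K.mkE = @FC7.mkE := by
  funext q Q ce i
  simp only [K.mkE, FC7.mkE, K.band_eq, K.bor_eq, K.bnot_eq, K.beqB_eq, K.tbit_eq, K.kmax_eq,
    K.kmin_eq, K.nbeq_eq, K.nble_eq, K.bif_b, K.lall_eq, K.lany_eq, K.lmap_eq, K.lfilter_eq,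
    K.llen_eq, K.lemp_eq, K.lsum_eq, K.lgetD_eq, K.lmem_eq, K.contains_eq, K.nodup_eq, K.lrange_eq,
    K.lapp_eq, K.lflat_eq, K.lfmap_eq, K.ltake_eq, K.lfoldl_eq, K.leq_eq, decide_eq_true_eq, ne_eq,
    decide_not, Bool.decide_and, Bool.decide_or, Bool.decide_eq_true, Bool.decide_eq_false,
    Nat.succ_eq_add_one, Bool.beq_eq_decide_eq, bne, Bool.not_eq_true', Bool.or_eq_true,
    Bool.and_eq_true] <;> rfl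

noncomputable def mkA (q : ℕ) (X : FC7.XE) (P : FC6.Pa) (t : ℕ) (p : ℕ × ℕ) : FC7.FA :=
  (FC7.FA.mk (Nat.lor (Nat.pow (nat_lit 2) (FC6.Pa.l P (Prod.fst p))) (Nat.pow (nat_lit 2) (FC6.Pa.l
    P (FC6.Pa.φ P (Prod.snd p))))) (FC6.Pa.real P (Prod.fst p)) (FC7.XE.sp X (Prod.fst p)) t
    (Nat.mul q t) (Nat.pow (nat_lit 2) t) (Nat.pow (nat_lit 2) (Nat.mul q t)) (FC7.XE.ce X (Prod.fst
    p)) (Nat.mul q (FC7.XE.ce X (Prod.fst p))) (Nat.pow (nat_lit 2) (FC7.XE.ce X (Prod.fst p)))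
    (FC7.XE.ce' X (Prod.fst p)) (Nat.mul q (FC7.XE.ce' X (Prod.fst p))) (Nat.pow (nat_lit 2)
    (FC7.XE.ce' X (Prod.fst p))) (Nat.pow (nat_lit 2) (Nat.add (Nat.mul q (Nat.add (FC7.XE.k X) t))
    (Nat.sub q (nat_lit 1)))))

theorem mkA_eq : @K.mkA = @FC7.mkA := by
  funext q X P t p
  simp only [K.mkA, FC7.mkA, K.band_eq, K.bor_eq, K.bnot_eq, K.beqB_eq, K.tbit_eq, K.kmax_eq,
    K.kmin_eq, K.nbeq_eq, K.nble_eq, K.bif_b, K.lall_eq, K.lany_eq, K.lmap_eq, K.lfilter_eq,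
    K.llen_eq, K.lemp_eq, K.lsum_eq, K.lgetD_eq, K.lmem_eq, K.contains_eq, K.nodup_eq, K.lrange_eq,
    K.lapp_eq, K.lflat_eq, K.lfmap_eq, K.ltake_eq, K.lfoldl_eq, K.leq_eq, decide_eq_true_eq, ne_eq,
    decide_not, Bool.decide_and, Bool.decide_or, Bool.decide_eq_true, Bool.decide_eq_false,
    Nat.succ_eq_add_one, Bool.beq_eq_decide_eq, bne, Bool.not_eq_true', Bool.or_eq_true,
    Bool.and_eq_true] <;> rfl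

noncomputable def ps (q : ℕ) (w : ℕ) (m : ℕ) : List ℕ :=
  (K.lmap (fun (x : ℕ) => (Nat.mul q x)) (K.lfilter (fun (t : ℕ) => (K.tbit m t)) (K.lrange w)))

theorem ps_eq : @K.ps = @FC7.ps := by
  funext q w m
  simp only [K.ps, FC7.ps, K.band_eq, K.bor_eq, K.bnot_eq, K.beqB_eq, K.tbit_eq, K.kmax_eq,
    K.kmin_eq, K.nbeq_eq, K.nble_eq, K.bif_b, K.lall_eq, K.lany_eq, K.lmap_eq, K.lfilter_eq,
    K.llen_eq, K.lemp_eq, K.lsum_eq, K.lgetD_eq, K.lmem_eq, K.contains_eq, K.nodup_eq, K.lrange_eq,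
    K.lapp_eq, K.lflat_eq, K.lfmap_eq, K.ltake_eq, K.lfoldl_eq, K.leq_eq, decide_eq_true_eq, ne_eq,
    decide_not, Bool.decide_and, Bool.decide_or, Bool.decide_eq_true, Bool.decide_eq_false,
    Nat.succ_eq_add_one, Bool.beq_eq_decide_eq, bne, Bool.not_eq_true', Bool.or_eq_true,
    Bool.and_eq_true] <;> rfl

noncomputable def fst (X : FC7.XE) : List ℕ :=
  (K.lapp (K.lapp (K.lmap (fun (a : ℕ) => (FC7.XE.st X (Nat.add (FC7.XE.x X) a))) (K.lrange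
    (FC7.XE.k X))) (K.lmap (fun (p : ℕ × ℕ) => (Nat.pow (nat_lit 2) (FC7.XE.ce X (Prod.fst p))))
    (FC7.XE.ar X))) (K.lmap (fun (i : ℕ) => (Nat.pow (nat_lit 2) (FC7.XE.ce X i))) (FC7.XE.kd X)))

theorem fst_eq : @K.fst = @FC7.fst := by
  funext X
  simp only [K.fst, FC7.fst, K.band_eq, K.bor_eq, K.bnot_eq, K.beqB_eq, K.tbit_eq, K.kmax_eq,
    K.kmin_eq, K.nbeq_eq, K.nble_eq, K.bif_b, K.lall_eq, K.lany_eq, K.lmap_eq, K.lfilter_eq,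
    K.llen_eq, K.lemp_eq, K.lsum_eq, K.lgetD_eq, K.lmem_eq, K.contains_eq, K.nodup_eq, K.lrange_eq,
    K.lapp_eq, K.lflat_eq, K.lfmap_eq, K.ltake_eq, K.lfoldl_eq, K.leq_eq, decide_eq_true_eq, ne_eq,
    decide_not, Bool.decide_and, Bool.decide_or, Bool.decide_eq_true, Bool.decide_eq_false,
    Nat.succ_eq_add_one, Bool.beq_eq_decide_eq, bne, Bool.not_eq_true', Bool.or_eq_true,
    Bool.and_eq_true] <;> rfl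

noncomputable def fstp (X : FC7.XE) : List ℕ :=
  (K.lapp (K.lapp (K.lmap (fun (a : ℕ) => (FC7.XE.st' X (Nat.add (FC7.XE.x X) a))) (K.lrange
    (FC7.XE.k X))) (K.lmap (fun (p : ℕ × ℕ) => (Nat.pow (nat_lit 2) (FC7.XE.ce' X (Prod.fst p))))
    (FC7.XE.ar X))) (K.lmap (fun (i : ℕ) => (Nat.pow (nat_lit 2) (FC7.XE.ce' X i))) (FC7.XE.kd X)))

theorem fstp_eq : @K.fstp = @FC7.fst' := by
  funext X
  simp only [K.fstp, FC7.fst', K.band_eq, K.bor_eq, K.bnot_eq, K.beqB_eq, K.tbit_eq, K.kmax_eq,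
    K.kmin_eq, K.nbeq_eq, K.nble_eq, K.bif_b, K.lall_eq, K.lany_eq, K.lmap_eq, K.lfilter_eq,
    K.llen_eq, K.lemp_eq, K.lsum_eq, K.lgetD_eq, K.lmem_eq, K.contains_eq, K.nodup_eq, K.lrange_eq,
    K.lapp_eq, K.lflat_eq, K.lfmap_eq, K.ltake_eq, K.lfoldl_eq, K.leq_eq, decide_eq_true_eq, ne_eq,
    decide_not, Bool.decide_and, Bool.decide_or, Bool.decide_eq_true, Bool.decide_eq_false,
    Nat.succ_eq_add_one, Bool.beq_eq_decide_eq, bne, Bool.not_eq_true', Bool.or_eq_true,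
    Bool.and_eq_true] <;> rfl

noncomputable def hlk (q : ℕ) (X : FC7.XE) : ℕ :=
  (Nat.add (Nat.mul (Nat.pow (nat_lit 2) (Nat.sub q (nat_lit 1))) (K.Ks q (FC7.XE.k X))) (Nat.mul
    (Nat.pow (nat_lit 2) (Nat.mul q (Nat.add (FC7.XE.k X) (K.llen (FC7.XE.ar X))))) (Nat.mul
    (Nat.pow (nat_lit 2) (Nat.sub q (nat_lit 1))) (K.Ks q (K.llen (FC7.XE.kd X))))))

theorem hlk_eq : @K.hlk = @FC7.hlk := by
  funext q X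
  simp only [K.hlk, FC7.hlk, K.band_eq, K.bor_eq, K.bnot_eq, K.beqB_eq, K.tbit_eq, K.kmax_eq,
    K.kmin_eq, K.nbeq_eq, K.nble_eq, K.bif_b, K.lall_eq, K.lany_eq, K.lmap_eq, K.lfilter_eq,
    K.llen_eq, K.lemp_eq, K.lsum_eq, K.lgetD_eq, K.lmem_eq, K.contains_eq, K.nodup_eq, K.lrange_eq,
    K.lapp_eq, K.lflat_eq, K.lfmap_eq, K.ltake_eq, K.lfoldl_eq, K.leq_eq, decide_eq_true_eq, ne_eq,
    decide_not, Bool.decide_and, Bool.decide_or, Bool.decide_eq_true, Bool.decide_eq_false,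
    Nat.succ_eq_add_one, Bool.beq_eq_decide_eq, bne, Bool.not_eq_true', Bool.or_eq_true,
    Bool.and_eq_true, K.Ks_eq] <;> rfl

noncomputable def mkL (q : ℕ) (X : FC7.XE) (P : FC6.Pa) (z : ℕ × Bool × Bool) : FC7.FL :=
  (FC7.FL.mk (Nat.lor (Nat.pow (nat_lit 2) (FC6.Pa.l P (Prod.fst z))) (Nat.pow (nat_lit 2) (FC6.Pa.l
    P (FC6.Pa.φ P (Prod.fst z))))) (Nat.pow (nat_lit 2) (FC7.XE.ce X (Prod.fst z))) (Nat.pow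
    (nat_lit 2) (FC7.XE.ce' X (Prod.fst z))) (Nat.mul q (FC7.XE.ce' X (Prod.fst z))) (Prod.fst
    (Prod.snd z)) (Prod.snd (Prod.snd z)))

theorem mkL_eq : @K.mkL = @FC7.mkL := by
  funext q X P z
  simp only [K.mkL, FC7.mkL, K.band_eq, K.bor_eq, K.bnot_eq, K.beqB_eq, K.tbit_eq, K.kmax_eq,
    K.kmin_eq, K.nbeq_eq, K.nble_eq, K.bif_b, K.lall_eq, K.lany_eq, K.lmap_eq, K.lfilter_eq,
    K.llen_eq, K.lemp_eq, K.lsum_eq, K.lgetD_eq, K.lmem_eq, K.contains_eq, K.nodup_eq, K.lrange_eq,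
    K.lapp_eq, K.lflat_eq, K.lfmap_eq, K.ltake_eq, K.lfoldl_eq, K.leq_eq, decide_eq_true_eq, ne_eq,
    decide_not, Bool.decide_and, Bool.decide_or, Bool.decide_eq_true, Bool.decide_eq_false,
    Nat.succ_eq_add_one, Bool.beq_eq_decide_eq, bne, Bool.not_eq_true', Bool.or_eq_true,
    Bool.and_eq_true] <;> rfl

noncomputable def XD_chn (P : Pa) (l : List ℕ) : Bool :=
  List.rec (motive := fun _ => Bool) true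
    (fun a t ih => List.rec (motive := fun _ => Bool) true
      (fun b _ _ => K.band (Nat.beq (P.l (P.φ a)) (P.l b)) ih) t) l

theorem XD_chn_eq : XD_chn = XD.chn := by
  funext P l
  induction l with
  | nil => rfl
  | cons a t ih =>
    cases t with
    | nil => rfl
    | cons b t =>
      rw [XD.chn, ← ih]
      show K.band (Nat.beq (P.l (P.φ a)) (P.l b)) (XD_chn P (b :: t)) = _
      rw [K.band_eq, K.nbeq_eq]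

noncomputable def XE_ringOk (X : FC7.XE) (P : FC6.Pa) : Bool :=
  (K.band (K.band (K.nodup (FC7.XE.rs X)) (K.XD_chn P (FC7.XE.rs X))) (Nat.ble (K.llen (K.lfoldl
    (fun (L : List ℕ) => (fun (i : ℕ) => (K.mg (Nat.pow (nat_lit 2) (FC7.XE.ce X i)) L))) (K.lfoldl
    (fun (L : List ℕ) => (fun (i : ℕ) => (K.mg (Nat.lor (Nat.pow (nat_lit 2) (FC7.XE.ce X i))
    (Nat.pow (nat_lit 2) (FC7.XE.ce X (FC6.Pa.α P i)))) L))) ([] : List (ℕ)) (FC7.XE.es X))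
    (FC7.XE.rs X))) (nat_lit 1)))

theorem XE_ringOk_eq : @K.XE_ringOk = @FC7.XE.ringOk := by
  funext X P
  simp only [K.XE_ringOk, FC7.XE.ringOk, K.band_eq, K.bor_eq, K.bnot_eq, K.beqB_eq, K.tbit_eq,
    K.kmax_eq, K.kmin_eq, K.nbeq_eq, K.nble_eq, K.bif_b, K.lall_eq, K.lany_eq, K.lmap_eq,
    K.lfilter_eq, K.llen_eq, K.lemp_eq, K.lsum_eq, K.lgetD_eq, K.lmem_eq, K.contains_eq, K.nodup_eq,
    K.lrange_eq, K.lapp_eq, K.lflat_eq, K.lfmap_eq, K.ltake_eq, K.lfoldl_eq, K.leq_eq,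
    decide_eq_true_eq, ne_eq, decide_not, Bool.decide_and, Bool.decide_or, Bool.decide_eq_true,
    Bool.decide_eq_false, Nat.succ_eq_add_one, Bool.beq_eq_decide_eq, bne, Bool.not_eq_true',
    Bool.or_eq_true, Bool.and_eq_true, K.XD_chn_eq, K.mg_eq] <;> rfl

noncomputable def feq (a b : FE) : Bool :=
  K.band (Nat.beq a.lm b.lm) (K.band (Nat.beq a.i b.i) (K.band (Nat.beq a.j b.j)
    (K.band (Nat.beq a.qi b.qi) (K.band (Nat.beq a.qj b.qj) (Nat.beq a.bm b.bm)))))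

noncomputable def faq (a b : FA) : Bool :=
  K.band (Nat.beq a.lm b.lm) (K.band (K.beqB a.r b.r) (K.band (K.beqB a.sp b.sp)
    (K.band (Nat.beq a.t b.t) (K.band (Nat.beq a.qt b.qt) (K.band (Nat.beq a.bt b.bt)
    (K.band (Nat.beq a.bq b.bq) (K.band (Nat.beq a.i b.i) (K.band (Nat.beq a.qi b.qi)
    (K.band (Nat.beq a.bi b.bi) (K.band (Nat.beq a.i' b.i') (K.band (Nat.beq a.qi' b.qi')
    (K.band (Nat.beq a.bi' b.bi') (Nat.beq a.hb b.hb)))))))))))))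

noncomputable def flq (a b : FL) : Bool :=
  K.band (Nat.beq a.lm b.lm) (K.band (Nat.beq a.bi b.bi) (K.band (Nat.beq a.bi' b.bi')
    (K.band (Nat.beq a.qi' b.qi') (K.band (K.beqB a.s b.s) (K.beqB a.s' b.s')))))

noncomputable def prq (a b : ℕ × List ℕ) : Bool :=
  K.band (Nat.beq a.1 b.1) (K.leq a.2 b.2)

theorem feq_eq (a b : FE) : feq a b = decide (a = b) := by
  unfold feq
  simp only [K.band_eq, K.nbeq_eq, ← Bool.decide_and]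
  congr 1
  obtain ⟨a1, a2, a3, a4, a5, a6⟩ := a
  obtain ⟨b1, b2, b3, b4, b5, b6⟩ := b
  simp only [FE.mk.injEq]

theorem faq_eq (a b : FA) : faq a b = decide (a = b) := by
  unfold faq
  simp only [K.band_eq, K.nbeq_eq, K.beqB_eq, ← Bool.decide_and]
  congr 1
  obtain ⟨a1, a2, a3, a4, a5, a6, a7, a8, a9, a10, a11, a12, a13, a14⟩ := a
  obtain ⟨b1, b2, b3, b4, b5, b6, b7, b8, b9, b10, b11, b12, b13, b14⟩ := b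
  simp only [FA.mk.injEq]

theorem flq_eq (a b : FL) : flq a b = decide (a = b) := by
  unfold flq
  simp only [K.band_eq, K.nbeq_eq, K.beqB_eq, ← Bool.decide_and]
  congr 1
  obtain ⟨a1, a2, a3, a4, a5, a6⟩ := a
  obtain ⟨b1, b2, b3, b4, b5, b6⟩ := b
  simp only [FL.mk.injEq]

theorem prq_eq (a b : ℕ × List ℕ) : prq a b = decide (a = b) := by
  unfold prq
  simp only [K.band_eq, K.nbeq_eq, K.leq_eq, ← Bool.decide_and]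
  congr 1
  rw [Prod.ext_iff]

noncomputable def XF_ok (F : XF) (X : XE) (P P' : Pa) : Bool :=
  K.band (K.band (K.band (K.band (K.band (K.band (K.band (K.band (K.band (K.band (K.band (K.band
  (K.band (K.band (K.band (K.band (K.band (K.band (K.band (K.band (K.band (K.band (K.band (K.band
  (K.band (K.band (K.band (K.band (K.band (K.band (K.band
  (Nat.ble (Nat.succ F.w) F.q) (Nat.beq F.K (K.Ks F.q F.w)))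
  (Nat.beq F.F (Nat.sub (Nat.pow (nat_lit 2) F.q) (nat_lit 1))))
  (Nat.beq F.I (K.Is F.q F.w))) (Nat.beq F.O (K.Ks F.q F.N))) (Nat.beq F.FK (K.Fs F.q F.N)))
  (Nat.beq F.x X.x)) (K.leqG feq F.es (K.lmap (K.mkE F.q P X.ce) X.es)))
  (K.leqG feq F.es' (K.lmap (K.mkE F.q P' X.ce') X.es')))
  (K.leqG faq F.ars (K.lrev (K.lmapi (K.mkA F.q X P) X.ar)))) (Nat.ble (K.llen X.ar) F.w))
  (K.allN P.n fun i => K.band (Nat.ble (Nat.succ (X.ce i)) F.w) (Nat.ble (Nat.succ (X.ce' i)) F.w)))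
  (K.lall X.dj fun m => Nat.ble (Nat.succ m) (Nat.pow (nat_lit 2) (Nat.sub F.q (nat_lit 1)))))
  (Nat.ble (K.llen X.dj) F.N)) (Nat.beq F.tj (K.Tb F.q X.dj)))
  (Nat.beq F.hj (Nat.mul (Nat.pow (nat_lit 2) (Nat.sub F.q (nat_lit 1))) (K.Ks F.q (K.llen X.dj)))))
  (K.lall X.dj' fun m => Nat.ble (Nat.succ m) (Nat.pow (nat_lit 2) (Nat.sub F.q (nat_lit 1)))))
  (Nat.ble (K.llen X.dj') F.N)) (Nat.beq F.tj' (K.Tb F.q X.dj')))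
  (Nat.beq F.hj' (Nat.mul (Nat.pow (nat_lit 2) (Nat.sub F.q (nat_lit 1)))
    (K.Ks F.q (K.llen X.dj')))))
  (K.leqG prq F.rq (K.lmap (fun m => (m, K.ps F.q F.w m)) X.dj')))
  (K.lall (K.fst X) fun m => Nat.ble (Nat.succ m) (Nat.pow (nat_lit 2) (Nat.sub F.q (nat_lit 1)))))
  (K.lall (K.fstp X) fun m => Nat.ble (Nat.succ m) (Nat.pow (nat_lit 2) (Nat.sub F.q (nat_lit 1)))))
  (Nat.ble (Nat.add (Nat.add X.k (K.llen X.ar)) (K.llen X.kd)) F.N))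
  (K.lall X.kd fun i => Nat.ble (Nat.succ i) P.n)) (Nat.beq F.tt (K.Tb F.q (K.fst X))))
  (Nat.beq F.tt' (K.Tb F.q (K.fstp X)))) (Nat.beq F.hl (K.hlk F.q X)))
  (K.leqG flq F.lr (K.lmap (K.mkL F.q X P) X.lr))) (K.XE_ringOk X P))
  (K.lall X.es fun i => P.real i)) (K.lall X.es' fun i => P'.real i)

theorem XF_ok_eq : XF_ok = XF.ok := by
  funext F X P P'
  unfold XF_ok XF.ok
  simp only [K.band_eq, K.nbeq_eq, K.nble_eq, K.leqG_eq feq_eq, K.leqG_eq faq_eq, K.leqG_eq flq_eq,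
    K.leqG_eq prq_eq, K.Ks_eq, K.Is_eq, K.Fs_eq, K.Tb_eq, K.lmap_eq, K.mkE_eq, K.mkA_eq, K.mkL_eq,
    K.lrev_eq, K.lmapi_eq, K.llen_eq, K.allN_eq, K.lall_eq, K.ps_eq, K.fst_eq, K.fstp_eq, K.hlk_eq,
    K.XE_ringOk_eq]
  rfl

noncomputable def OD_dgp (X : FC7.OD) (P : FC6.Pa) (P' : FC6.Pa) (a : ℕ) : ℕ :=
  (K.sumN (FC6.Pa.n P) (fun (i : ℕ) => (Nat.add (Bool.rec (motive := fun _ => ℕ) (nat_lit 0)
    (Nat.add (Nat.add (Bool.rec (motive := fun _ => ℕ) (nat_lit 0) (nat_lit 1) (FC6.Pa.real P' i))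
    (FC6.Pa.u P' i)) (FC7.OD.wt' X i)) (Nat.beq (FC6.Pa.l P' i) a)) (Bool.rec (motive := fun _ => ℕ)
    (nat_lit 0) (FC7.OD.wt' X i) (K.band (K.OD_rg X P i) (Nat.beq (FC6.Pa.l P' (FC6.Pa.φ P' i))
    a))))))

theorem OD_dgp_eq : @K.OD_dgp = @FC7.OD.dg' := by
  funext X P P' a
  simp only [K.OD_dgp, FC7.OD.dg', K.band_eq, K.bor_eq, K.bnot_eq, K.beqB_eq, K.tbit_eq, K.kmax_eq,
    K.kmin_eq, K.nbeq_eq, K.nble_eq, K.bif_b, K.lall_eq, K.lany_eq, K.lmap_eq, K.lfilter_eq,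
    K.llen_eq, K.lemp_eq, K.lsum_eq, K.lgetD_eq, K.lmem_eq, K.contains_eq, K.nodup_eq, K.lrange_eq,
    K.lapp_eq, K.lflat_eq, K.lfmap_eq, K.ltake_eq, K.lfoldl_eq, K.leq_eq, decide_eq_true_eq, ne_eq,
    decide_not, Bool.decide_and, Bool.decide_or, Bool.decide_eq_true, Bool.decide_eq_false,
    Nat.succ_eq_add_one, Bool.beq_eq_decide_eq, bne, Bool.not_eq_true', Bool.or_eq_true,
    Bool.and_eq_true, K.sumN_eq, K.OD_rg_eq] <;> rfl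

noncomputable def OD_dg (X : FC7.OD) (P : FC6.Pa) (a : ℕ) : ℕ :=
  (K.sumN (FC6.Pa.n P) (fun (i : ℕ) => (Nat.add (Bool.rec (motive := fun _ => ℕ) (nat_lit 0)
    (Nat.add (Nat.add (Bool.rec (motive := fun _ => ℕ) (nat_lit 0) (nat_lit 1) (FC6.Pa.real P i))
    (FC6.Pa.u P i)) (FC7.OD.wt X i)) (Nat.beq (FC6.Pa.l P i) a)) (Bool.rec (motive := fun _ => ℕ)
    (nat_lit 0) (FC7.OD.wt X i) (K.band (K.OD_rg X P i) (Nat.beq (FC6.Pa.l P (FC6.Pa.φ P i)) a))))))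

theorem OD_dg_eq : @K.OD_dg = @FC7.OD.dg := by
  funext X P a
  simp only [K.OD_dg, FC7.OD.dg, K.band_eq, K.bor_eq, K.bnot_eq, K.beqB_eq, K.tbit_eq, K.kmax_eq,
    K.kmin_eq, K.nbeq_eq, K.nble_eq, K.bif_b, K.lall_eq, K.lany_eq, K.lmap_eq, K.lfilter_eq,
    K.llen_eq, K.lemp_eq, K.lsum_eq, K.lgetD_eq, K.lmem_eq, K.contains_eq, K.nodup_eq, K.lrange_eq,
    K.lapp_eq, K.lflat_eq, K.lfmap_eq, K.ltake_eq, K.lfoldl_eq, K.leq_eq, decide_eq_true_eq, ne_eq,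
    decide_not, Bool.decide_and, Bool.decide_or, Bool.decide_eq_true, Bool.decide_eq_false,
    Nat.succ_eq_add_one, Bool.beq_eq_decide_eq, bne, Bool.not_eq_true', Bool.or_eq_true,
    Bool.and_eq_true, K.sumN_eq, K.OD_rg_eq] <;> rfl

noncomputable def OD_stat (X : FC7.OD) (P : FC6.Pa) (P' : FC6.Pa) : Bool :=
  (K.band (K.band (K.band (K.allN (FC6.Pa.n P) (fun (i : ℕ) => (K.band (K.band (K.band (K.band
    (K.band (K.band (K.band (K.band (K.band (K.band (K.bor (K.bnot (FC6.Pa.real P i)) (K.band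
    (Nat.ble (Nat.succ (FC6.Pa.l P i)) (FC7.OD.m X)) (Nat.ble (Nat.succ (FC6.Pa.l P (FC6.Pa.φ P i)))
    (FC7.OD.m X)))) (K.bor (K.bnot (FC6.Pa.real P' i)) (K.band (K.band (K.band (Nat.ble (FC7.OD.lo
    X) (FC6.Pa.l P' i)) (Nat.ble (Nat.succ (FC6.Pa.l P' i)) (FC7.OD.m X))) (Nat.ble (FC7.OD.lo X)
    (FC6.Pa.l P' (FC6.Pa.φ P' i)))) (Nat.ble (Nat.succ (FC6.Pa.l P' (FC6.Pa.φ P' i))) (FC7.OD.m
    X))))) (K.beqB (FC6.Pa.real P' (FC6.Pa.α P i)) (FC6.Pa.real P' i))) (K.bor (K.bnot (Nat.beq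
    (FC6.Pa.α P i) i)) (K.band (K.band (K.band (K.band (K.band (K.beqB (FC6.Pa.real P' i)
    (FC6.Pa.real P i)) (Nat.beq (FC6.Pa.l P' i) (FC6.Pa.l P i))) (Nat.beq (FC6.Pa.l P' (FC6.Pa.φ P'
    i)) (FC6.Pa.l P (FC6.Pa.φ P i)))) (Nat.ble (FC7.OD.x X) (FC6.Pa.l P i))) (Nat.ble (FC7.OD.x X)
    (FC6.Pa.l P (FC6.Pa.φ P i)))) (K.bor (FC7.OD.ro X i) (K.band (K.beqB (FC7.OD.lb' X i) (FC7.OD.lb
    X i)) (Nat.beq (FC7.OD.wt' X i) (FC7.OD.wt X i))))))) (K.bor (Nat.beq (FC6.Pa.u P' i) (nat_lit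
    0)) (K.band (Nat.ble (FC7.OD.lo X) (FC6.Pa.l P' i)) (Nat.ble (Nat.succ (FC6.Pa.l P' i))
    (FC7.OD.m X))))) (K.bor (K.bnot (FC7.OD.lb' X i)) (FC6.Pa.real P' i))) (K.beqB (FC7.OD.lb' X
    (FC6.Pa.α P i)) (FC7.OD.lb' X i))) (Nat.beq (FC7.OD.wt' X (FC6.Pa.α P i)) (FC7.OD.wt' X i)))
    (K.bor (Nat.beq (FC7.OD.wt' X i) (nat_lit 0)) (FC7.OD.lb' X i))) (Nat.ble (Nat.succ (FC7.OD.pc X
    i)) (FC7.OD.p X))) (K.bor (Nat.beq i (FC7.OD.rt X (FC7.OD.pc X i))) (K.band (K.band (K.band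
    (Nat.ble (Nat.succ (FC7.OD.prk X (FC7.OD.par X i))) (FC7.OD.prk X i)) (Nat.ble (Nat.succ
    (FC7.OD.par X i)) (FC6.Pa.n P))) (Nat.beq (FC7.OD.pc X (FC7.OD.par X i)) (FC7.OD.pc X i)))
    (K.bor (Nat.beq (FC7.OD.par X i) (FC6.Pa.φ P' i)) (K.band (K.band (K.bnot (Nat.beq (FC6.Pa.α P
    i) i)) (K.bnot (FC6.Pa.real P' i))) (Nat.beq (FC7.OD.par X i) (FC6.Pa.α P i))))))))) (K.allN
    (FC7.OD.m X) (fun (a : ℕ) => (K.bor (Nat.ble (Nat.succ a) (FC7.OD.lo X)) (K.band (K.bnot (K.allN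
    (FC6.Pa.n P) (fun (i : ℕ) => (K.bnot (Nat.beq (FC6.Pa.l P' i) a))))) (Nat.ble (K.OD_dgp X P P'
    a) (Bool.rec (motive := fun _ => ℕ) (Nat.add (K.OD_dg X P a) (FC7.OD.sl X a)) (FC7.OD.Δ X)
    (Nat.ble (Nat.succ a) (FC7.OD.x X))))))))) (Nat.ble (FC7.OD.lo X) (FC7.OD.x X))) (Nat.ble
    (FC7.OD.x X) (FC7.OD.m X)))

theorem OD_stat_eq : @K.OD_stat = @FC7.OD.stat := by
  funext X P P'
  simp only [K.OD_stat, FC7.OD.stat, K.band_eq, K.bor_eq, K.bnot_eq, K.beqB_eq, K.tbit_eq,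
    K.kmax_eq, K.kmin_eq, K.nbeq_eq, K.nble_eq, K.bif_b, K.lall_eq, K.lany_eq, K.lmap_eq,
    K.lfilter_eq, K.llen_eq, K.lemp_eq, K.lsum_eq, K.lgetD_eq, K.lmem_eq, K.contains_eq, K.nodup_eq,
    K.lrange_eq, K.lapp_eq, K.lflat_eq, K.lfmap_eq, K.ltake_eq, K.lfoldl_eq, K.leq_eq,
    decide_eq_true_eq, ne_eq, decide_not, Bool.decide_and, Bool.decide_or, Bool.decide_eq_true,
    Bool.decide_eq_false, Nat.succ_eq_add_one, Bool.beq_eq_decide_eq, bne, Bool.not_eq_true',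
    Bool.or_eq_true, Bool.and_eq_true, K.allN_eq, K.OD_dgp_eq, K.OD_dg_eq] <;> rfl

noncomputable def CD_us (P' : Pa) (b : Bool) (c : ℕ) (l : List ℕ) : ℕ :=
  List.rec (motive := fun _ => ℕ) (nat_lit 0)
    (fun i _ ih => Nat.add (Bool.rec (motive := fun _ => ℕ) (nat_lit 0) (P'.u i)
      (K.beqB (K.tbit c (P'.l i)) b)) ih) l

theorem CD_us_eq : CD_us = CD.us := by
  funext P' b c l
  induction l with
  | nil => rfl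
  | cons i l ih =>
    rw [CD.us, ← ih]
    show Nat.add (Bool.rec (motive := fun _ => ℕ) (nat_lit 0) (P'.u i)
      (K.beqB (K.tbit c (P'.l i)) b)) (CD_us P' b c l) = _
    rw [K.tbit_eq]
    cases c.testBit (P'.l i) <;> cases b <;> rfl

noncomputable def CD_un (P' : Pa) (c : ℕ) (l : List (List ℕ)) : ℕ :=
  List.rec (motive := fun _ => ℕ) (nat_lit 0)
    (fun l _ ih => Nat.add (K.kmin (K.CD_us P' true c l) (K.CD_us P' false c l)) ih) l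

theorem CD_un_eq : CD_un = CD.un := by
  funext P' c l
  induction l with
  | nil => rfl
  | cons i l ih =>
    rw [CD.un, ← ih]
    show Nat.add (K.kmin (K.CD_us P' true c i) (K.CD_us P' false c i)) (CD_un P' c l) = _
    rw [K.kmin_eq, K.CD_us_eq]
    rfl

noncomputable def OD_inS (P : FC6.Pa) (c : ℕ) : ℕ :=
  (K.sumN (FC6.Pa.n P) (fun (i : ℕ) => (Bool.rec (motive := fun _ => ℕ) (nat_lit 0) (nat_lit 1)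
    (K.band (FC6.Pa.real P i) (K.bnot (K.beqB (K.tbit c (FC6.Pa.l P i)) (K.tbit c (FC6.Pa.l P
    (FC6.Pa.φ P i)))))))))

theorem OD_inS_eq : @K.OD_inS = @FC6.OD.inS := by
  funext P c
  simp only [K.OD_inS, FC6.OD.inS, K.band_eq, K.bor_eq, K.bnot_eq, K.beqB_eq, K.tbit_eq, K.kmax_eq,
    K.kmin_eq, K.nbeq_eq, K.nble_eq, K.bif_b, K.lall_eq, K.lany_eq, K.lmap_eq, K.lfilter_eq,
    K.llen_eq, K.lemp_eq, K.lsum_eq, K.lgetD_eq, K.lmem_eq, K.contains_eq, K.nodup_eq, K.lrange_eq,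
    K.lapp_eq, K.lflat_eq, K.lfmap_eq, K.ltake_eq, K.lfoldl_eq, K.leq_eq, decide_eq_true_eq, ne_eq,
    decide_not, Bool.decide_and, Bool.decide_or, Bool.decide_eq_true, Bool.decide_eq_false,
    Nat.succ_eq_add_one, Bool.beq_eq_decide_eq, bne, Bool.not_eq_true', Bool.or_eq_true,
    Bool.and_eq_true, K.sumN_eq] <;> rfl

noncomputable def CD_leaf (C : FC7.CD) (O : FC7.OD) (P : FC6.Pa) (P' : FC6.Pa) (bf : ℕ → ℕ) (gb : ℕ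
  → ℕ) (c : ℕ) (sA : ℕ) (sB : ℕ) : Bool :=
  (K.bor (Nat.ble (nat_lit 6) (Nat.add sA (Nat.mul (nat_lit 2) (K.CD_un P' c (FC7.CD.ul C)))))
    (K.band (K.bor (K.bnot (Nat.beq (Nat.shiftRight c (FC7.OD.x O)) (nat_lit 0))) (Nat.beq
    (Nat.shiftRight c (FC7.OD.lo O)) (nat_lit 0))) (K.bor (K.bnot (K.allN (Nat.pow (nat_lit 2)
    (FC7.OD.x O)) (fun (ξ : ℕ) => (K.bnot (Nat.ble (Nat.add (nat_lit 6) (K.OD_inS P (Nat.add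
    (Nat.mul (Nat.pow (nat_lit 2) (FC7.OD.x O)) (Nat.shiftRight c (FC7.OD.x O))) ξ))) (Nat.add
    (Nat.mul (nat_lit 2) (bf (Nat.add (Nat.mul (Nat.pow (nat_lit 2) (FC7.OD.x O)) (Nat.shiftRight c
    (FC7.OD.x O))) ξ))) (Nat.add sB (Nat.mul (nat_lit 2) (K.CD_un P' c (FC7.CD.ul C))))))))))
    (K.bnot (K.allN (Nat.pow (nat_lit 2) (FC7.OD.x O)) (fun (ξ : ℕ) => (K.bnot (Nat.ble (nat_lit 6)
    (Nat.add (gb (Nat.add (Nat.mul (Nat.pow (nat_lit 2) (FC7.OD.x O)) (Nat.shiftRight c (FC7.OD.x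
    O))) ξ)) (Nat.add sB (Nat.mul (nat_lit 2) (K.CD_un P' c (FC7.CD.ul C)))))))))))))

theorem CD_leaf_eq : @K.CD_leaf = @FC7.CD.leaf := by
  funext C O P P' bf gb c sA sB
  simp only [K.CD_leaf, FC7.CD.leaf, K.band_eq, K.bor_eq, K.bnot_eq, K.beqB_eq, K.tbit_eq,
    K.kmax_eq, K.kmin_eq, K.nbeq_eq, K.nble_eq, K.bif_b, K.lall_eq, K.lany_eq, K.lmap_eq,
    K.lfilter_eq, K.llen_eq, K.lemp_eq, K.lsum_eq, K.lgetD_eq, K.lmem_eq, K.contains_eq, K.nodup_eq,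
    K.lrange_eq, K.lapp_eq, K.lflat_eq, K.lfmap_eq, K.ltake_eq, K.lfoldl_eq, K.leq_eq,
    decide_eq_true_eq, ne_eq, decide_not, Bool.decide_and, Bool.decide_or, Bool.decide_eq_true,
    Bool.decide_eq_false, Nat.succ_eq_add_one, Bool.beq_eq_decide_eq, bne, Bool.not_eq_true',
    Bool.or_eq_true, Bool.and_eq_true, K.CD_un_eq, K.allN_eq, K.OD_inS_eq] <;> rfl

noncomputable def OD_crs (Q : FC6.Pa) (c : ℕ) (i : ℕ) : Bool :=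
  (K.bnot (K.beqB (K.tbit c (FC6.Pa.l Q i)) (K.tbit c (FC6.Pa.l Q (FC6.Pa.φ Q i)))))

theorem OD_crs_eq : @K.OD_crs = @FC7.OD.crs := by
  funext Q c i
  simp only [K.OD_crs, FC7.OD.crs, K.band_eq, K.bor_eq, K.bnot_eq, K.beqB_eq, K.tbit_eq, K.kmax_eq,
    K.kmin_eq, K.nbeq_eq, K.nble_eq, K.bif_b, K.lall_eq, K.lany_eq, K.lmap_eq, K.lfilter_eq,
    K.llen_eq, K.lemp_eq, K.lsum_eq, K.lgetD_eq, K.lmem_eq, K.contains_eq, K.nodup_eq, K.lrange_eq,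
    K.lapp_eq, K.lflat_eq, K.lfmap_eq, K.ltake_eq, K.lfoldl_eq, K.leq_eq, decide_eq_true_eq, ne_eq,
    decide_not, Bool.decide_and, Bool.decide_or, Bool.decide_eq_true, Bool.decide_eq_false,
    Nat.succ_eq_add_one, Bool.beq_eq_decide_eq, bne, Bool.not_eq_true', Bool.or_eq_true,
    Bool.and_eq_true] <;> rfl

noncomputable def CD_sm (P' : Pa) (wg : ℕ → ℕ) (c : ℕ) (l : List ℕ) : ℕ :=
  List.rec (motive := fun _ => ℕ) (nat_lit 0)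
    (fun i _ ih => Nat.add (Bool.rec (motive := fun _ => ℕ) (nat_lit 0) (wg i)
      (K.OD_crs P' c i)) ih) l

theorem CD_sm_eq : CD_sm = CD.sm := by
  funext P' wg c l
  induction l with
  | nil => rfl
  | cons i l ih =>
    rw [CD.sm, ← ih]
    show Nat.add (Bool.rec (motive := fun _ => ℕ) (nat_lit 0) (wg i)
      (K.OD_crs P' c i)) (CD_sm P' wg c l) = _
    rw [K.OD_crs_eq]
    cases OD.crs P' c i <;> rfl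

noncomputable def CD_wA (O : FC7.OD) (P : FC6.Pa) (i : ℕ) : ℕ :=
  (Bool.rec (motive := fun _ => ℕ) (Nat.mul (nat_lit 2) (Nat.add (nat_lit 1) (FC7.OD.wt' O i)))
    (Nat.mul (Bool.rec (motive := fun _ => ℕ) (nat_lit 1) (nat_lit 2) (FC7.OD.ro O i)) (Nat.add
    (nat_lit 1) (FC7.OD.wt' O i))) (Nat.beq (FC6.Pa.α P i) i))

theorem CD_wA_eq : @K.CD_wA = @FC7.CD.wA := by
  funext O P i
  simp only [K.CD_wA, FC7.CD.wA, K.band_eq, K.bor_eq, K.bnot_eq, K.beqB_eq, K.tbit_eq, K.kmax_eq,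
    K.kmin_eq, K.nbeq_eq, K.nble_eq, K.bif_b, K.lall_eq, K.lany_eq, K.lmap_eq, K.lfilter_eq,
    K.llen_eq, K.lemp_eq, K.lsum_eq, K.lgetD_eq, K.lmem_eq, K.contains_eq, K.nodup_eq, K.lrange_eq,
    K.lapp_eq, K.lflat_eq, K.lfmap_eq, K.ltake_eq, K.lfoldl_eq, K.leq_eq, decide_eq_true_eq, ne_eq,
    decide_not, Bool.decide_and, Bool.decide_or, Bool.decide_eq_true, Bool.decide_eq_false,
    Nat.succ_eq_add_one, Bool.beq_eq_decide_eq, bne, Bool.not_eq_true', Bool.or_eq_true,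
    Bool.and_eq_true] <;> rfl

noncomputable def CD_wB (O : FC7.OD) (P : FC6.Pa) (i : ℕ) : ℕ :=
  (Bool.rec (motive := fun _ => ℕ) (Nat.mul (nat_lit 2) (Nat.add (nat_lit 1) (FC7.OD.wt' O i)))
    (Nat.add (nat_lit 1) (FC7.OD.wt' O i)) (Nat.beq (FC6.Pa.α P i) i))

theorem CD_wB_eq : @K.CD_wB = @FC7.CD.wB := by
  funext O P i
  simp only [K.CD_wB, FC7.CD.wB, K.band_eq, K.bor_eq, K.bnot_eq, K.beqB_eq, K.tbit_eq, K.kmax_eq,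
    K.kmin_eq, K.nbeq_eq, K.nble_eq, K.bif_b, K.lall_eq, K.lany_eq, K.lmap_eq, K.lfilter_eq,
    K.llen_eq, K.lemp_eq, K.lsum_eq, K.lgetD_eq, K.lmem_eq, K.contains_eq, K.nodup_eq, K.lrange_eq,
    K.lapp_eq, K.lflat_eq, K.lfmap_eq, K.ltake_eq, K.lfoldl_eq, K.leq_eq, decide_eq_true_eq, ne_eq,
    decide_not, Bool.decide_and, Bool.decide_or, Bool.decide_eq_true, Bool.decide_eq_false,
    Nat.succ_eq_add_one, Bool.beq_eq_decide_eq, bne, Bool.not_eq_true', Bool.or_eq_true,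
    Bool.and_eq_true] <;> rfl

noncomputable def CD_dfs (C : CD) (O : OD) (P P' : Pa) (bf gb : ℕ → ℕ) (L : List (List ℕ))
    (a c sA sB : ℕ) : Bool :=
  List.rec (motive := fun _ => ℕ → ℕ → ℕ → ℕ → Bool)
    (fun _ c sA sB => K.CD_leaf C O P P' bf gb c sA sB)
    (fun l _ ih a c sA sB =>
      K.band (K.bor (Nat.ble (nat_lit 6) (Nat.add sA (K.CD_sm P' (K.CD_wA O P) c l)))
        (ih (Nat.succ a) c (Nat.add sA (K.CD_sm P' (K.CD_wA O P) c l))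
          (Nat.add sB (K.CD_sm P' (K.CD_wB O P) c l))))
      (K.bor (Nat.beq a O.x) (K.bor (Nat.ble (nat_lit 6)
          (Nat.add sA (K.CD_sm P' (K.CD_wA O P) (Nat.add c (Nat.pow (nat_lit 2) a)) l)))
        (ih (Nat.succ a) (Nat.add c (Nat.pow (nat_lit 2) a))
          (Nat.add sA (K.CD_sm P' (K.CD_wA O P) (Nat.add c (Nat.pow (nat_lit 2) a)) l))
          (Nat.add sB (K.CD_sm P' (K.CD_wB O P) (Nat.add c (Nat.pow (nat_lit 2) a)) l)))))) L a c sA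
            sB

theorem CD_dfs_eq : CD_dfs = CD.dfs := by
  funext C O P P' bf gb L
  induction L with
  | nil =>
    funext a c sA sB
    rw [CD.dfs, ← K.CD_leaf_eq]
    rfl
  | cons l L ih =>
    funext a c sA sB
    rw [CD.dfs, ← ih]
    show K.band (K.bor (Nat.ble (nat_lit 6) (Nat.add sA (K.CD_sm P' (K.CD_wA O P) c l)))
        (CD_dfs C O P P' bf gb L (Nat.succ a) c (Nat.add sA (K.CD_sm P' (K.CD_wA O P) c l))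
          (Nat.add sB (K.CD_sm P' (K.CD_wB O P) c l))))
      (K.bor (Nat.beq a O.x) (K.bor (Nat.ble (nat_lit 6)
          (Nat.add sA (K.CD_sm P' (K.CD_wA O P) (Nat.add c (Nat.pow (nat_lit 2) a)) l)))
        (CD_dfs C O P P' bf gb L (Nat.succ a) (Nat.add c (Nat.pow (nat_lit 2) a))
          (Nat.add sA (K.CD_sm P' (K.CD_wA O P) (Nat.add c (Nat.pow (nat_lit 2) a)) l))
          (Nat.add sB (K.CD_sm P' (K.CD_wB O P) (Nat.add c (Nat.pow (nat_lit 2) a)) l))))) = _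
    simp only [K.band_eq, K.bor_eq, K.nble_eq, K.nbeq_eq, K.CD_sm_eq, K.CD_wA_eq, K.CD_wB_eq]
    rfl

noncomputable def CD_chk (C : FC7.CD) (O : FC7.OD) (P : FC6.Pa) (P' : FC6.Pa) (bf : ℕ → ℕ) (gb : ℕ →
  ℕ) : Bool :=
  (K.band (K.band (K.band (K.band (K.band (Nat.beq (K.llen (FC7.CD.lv C)) (Nat.sub (FC7.OD.m O)
    (FC7.OD.lo O))) (K.CD_lvc P P' (FC7.CD.lv C) (FC7.OD.lo O))) (K.nd (nat_lit 0) (K.lapp (K.lflat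
    (FC7.CD.lv C)) (K.lmap (FC6.Pa.α P) (K.lfilter (fun (i : ℕ) => (K.bnot (Nat.beq (FC6.Pa.α P i)
    i))) (K.lflat (FC7.CD.lv C))))))) (K.nd (nat_lit 0) (K.lflat (FC7.CD.ul C)))) (K.lall (FC7.CD.ul
    C) (fun (l : List ℕ) => (K.lall l (fun (i : ℕ) => (K.band (Nat.ble (Nat.succ i) (FC6.Pa.n P))
    (K.lall l (fun (j : ℕ) => (Nat.beq (FC7.OD.pc O i) (FC7.OD.pc O j)))))))))) (K.CD_dfs C O P P'
    bf gb (FC7.CD.lv C) (FC7.OD.lo O) (nat_lit 0) (nat_lit 0) (nat_lit 0)))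

theorem CD_chk_eq : @K.CD_chk = @FC7.CD.chk := by
  funext C O P P' bf gb
  simp only [K.CD_chk, FC7.CD.chk, K.band_eq, K.bor_eq, K.bnot_eq, K.beqB_eq, K.tbit_eq, K.kmax_eq,
    K.kmin_eq, K.nbeq_eq, K.nble_eq, K.bif_b, K.lall_eq, K.lany_eq, K.lmap_eq, K.lfilter_eq,
    K.llen_eq, K.lemp_eq, K.lsum_eq, K.lgetD_eq, K.lmem_eq, K.contains_eq, K.nodup_eq, K.lrange_eq,
    K.lapp_eq, K.lflat_eq, K.lfmap_eq, K.ltake_eq, K.lfoldl_eq, K.leq_eq, decide_eq_true_eq, ne_eq,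
    decide_not, Bool.decide_and, Bool.decide_or, Bool.decide_eq_true, Bool.decide_eq_false,
    Nat.succ_eq_add_one, Bool.beq_eq_decide_eq, bne, Bool.not_eq_true', Bool.or_eq_true,
    Bool.and_eq_true, K.CD_lvc_eq, K.nd_eq, K.CD_dfs_eq] <;> rfl

noncomputable def two1 (t : ℕ) : Bool :=
  (K.bnot (Nat.beq (Nat.land t (Nat.sub t (nat_lit 1))) (nat_lit 0)))

theorem two1_eq : @K.two1 = @FC7.two1 := by
  funext t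
  simp only [K.two1, FC7.two1, K.band_eq, K.bor_eq, K.bnot_eq, K.beqB_eq, K.tbit_eq, K.kmax_eq,
    K.kmin_eq, K.nbeq_eq, K.nble_eq, K.bif_b, K.lall_eq, K.lany_eq, K.lmap_eq, K.lfilter_eq,
    K.llen_eq, K.lemp_eq, K.lsum_eq, K.lgetD_eq, K.lmem_eq, K.contains_eq, K.nodup_eq, K.lrange_eq,
    K.lapp_eq, K.lflat_eq, K.lfmap_eq, K.ltake_eq, K.lfoldl_eq, K.leq_eq, decide_eq_true_eq, ne_eq,
    decide_not, Bool.decide_and, Bool.decide_or, Bool.decide_eq_true, Bool.decide_eq_false,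
    Nat.succ_eq_add_one, Bool.beq_eq_decide_eq, bne, Bool.not_eq_true', Bool.or_eq_true,
    Bool.and_eq_true] <;> rfl

noncomputable def two2 (cq : List ℕ) (t : ℕ) : Bool :=
  (K.lany cq (fun (q : ℕ) => (K.two1 (Nat.land t q))))

theorem two2_eq : @K.two2 = @FC7.two2 := by
  funext cq t
  simp only [K.two2, FC7.two2, K.band_eq, K.bor_eq, K.bnot_eq, K.beqB_eq, K.tbit_eq, K.kmax_eq,
    K.kmin_eq, K.nbeq_eq, K.nble_eq, K.bif_b, K.lall_eq, K.lany_eq, K.lmap_eq, K.lfilter_eq,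
    K.llen_eq, K.lemp_eq, K.lsum_eq, K.lgetD_eq, K.lmem_eq, K.contains_eq, K.nodup_eq, K.lrange_eq,
    K.lapp_eq, K.lflat_eq, K.lfmap_eq, K.ltake_eq, K.lfoldl_eq, K.leq_eq, decide_eq_true_eq, ne_eq,
    decide_not, Bool.decide_and, Bool.decide_or, Bool.decide_eq_true, Bool.decide_eq_false,
    Nat.succ_eq_add_one, Bool.beq_eq_decide_eq, bne, Bool.not_eq_true', Bool.or_eq_true,
    Bool.and_eq_true, K.two1_eq] <;> rfl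

noncomputable def bfq (cq : List ℕ) (sm : ℕ) (f : ℕ) (c : ℕ) : ℕ :=
  (Bool.rec (motive := fun _ => ℕ) (nat_lit 4) (Bool.rec (motive := fun _ => ℕ) (nat_lit 5) (nat_lit
    6) (K.band (K.two2 cq (Nat.land c sm)) (K.two2 cq (Nat.land (Nat.xor f c) sm)))) (K.band (K.band
    (K.band (K.bnot (Nat.beq (Nat.land c sm) (nat_lit 0))) (K.bnot (Nat.beq (Nat.land (Nat.xor f c)
    sm) (nat_lit 0)))) (K.two2 cq c)) (K.two2 cq (Nat.xor f c))))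

theorem bfq_eq : @K.bfq = @FC7.bfq := by
  funext cq sm f c
  simp only [K.bfq, FC7.bfq, K.band_eq, K.bor_eq, K.bnot_eq, K.beqB_eq, K.tbit_eq, K.kmax_eq,
    K.kmin_eq, K.nbeq_eq, K.nble_eq, K.bif_b, K.lall_eq, K.lany_eq, K.lmap_eq, K.lfilter_eq,
    K.llen_eq, K.lemp_eq, K.lsum_eq, K.lgetD_eq, K.lmem_eq, K.contains_eq, K.nodup_eq, K.lrange_eq,
    K.lapp_eq, K.lflat_eq, K.lfmap_eq, K.ltake_eq, K.lfoldl_eq, K.leq_eq, decide_eq_true_eq, ne_eq,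
    decide_not, Bool.decide_and, Bool.decide_or, Bool.decide_eq_true, Bool.decide_eq_false,
    Nat.succ_eq_add_one, Bool.beq_eq_decide_eq, bne, Bool.not_eq_true', Bool.or_eq_true,
    Bool.and_eq_true, K.two2_eq] <;> rfl

noncomputable def bf3 (cq : List ℕ) (sm : ℕ) (f : ℕ) (c : ℕ) : ℕ :=
  (Bool.rec (motive := fun _ => ℕ) (K.bfq cq sm f c) (nat_lit 3) (K.bor (Nat.beq (Nat.land c f)
    (nat_lit 0)) (Nat.beq (Nat.land c f) f)))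

theorem bf3_eq : @K.bf3 = @FC7.bf3 := by
  funext cq sm f c
  simp only [K.bf3, FC7.bf3, K.band_eq, K.bor_eq, K.bnot_eq, K.beqB_eq, K.tbit_eq, K.kmax_eq,
    K.kmin_eq, K.nbeq_eq, K.nble_eq, K.bif_b, K.lall_eq, K.lany_eq, K.lmap_eq, K.lfilter_eq,
    K.llen_eq, K.lemp_eq, K.lsum_eq, K.lgetD_eq, K.lmem_eq, K.contains_eq, K.nodup_eq, K.lrange_eq,
    K.lapp_eq, K.lflat_eq, K.lfmap_eq, K.ltake_eq, K.lfoldl_eq, K.leq_eq, decide_eq_true_eq, ne_eq,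
    decide_not, Bool.decide_and, Bool.decide_or, Bool.decide_eq_true, Bool.decide_eq_false,
    Nat.succ_eq_add_one, Bool.beq_eq_decide_eq, bne, Bool.not_eq_true', Bool.or_eq_true,
    Bool.and_eq_true, K.bfq_eq] <;> rfl

noncomputable def o5 (E : List ℕ × List (List (ℕ × ℕ × Bool))) : Bool :=
  (K.bor (K.bor (Nat.beq (K.lgetD (Prod.fst E) (nat_lit 0) (nat_lit 0)) (nat_lit 5)) (Nat.beq
    (K.lgetD (Prod.fst E) (nat_lit 0) (nat_lit 0)) (nat_lit 6))) (Nat.beq (K.lgetD (Prod.fst E)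
    (nat_lit 0) (nat_lit 0)) (nat_lit 9)))

theorem o5_eq : @K.o5 = @FC7.o5 := by
  funext E
  simp only [K.o5, FC7.o5, K.band_eq, K.bor_eq, K.bnot_eq, K.beqB_eq, K.tbit_eq, K.kmax_eq,
    K.kmin_eq, K.nbeq_eq, K.nble_eq, K.bif_b, K.lall_eq, K.lany_eq, K.lmap_eq, K.lfilter_eq,
    K.llen_eq, K.lemp_eq, K.lsum_eq, K.lgetD_eq, K.lmem_eq, K.contains_eq, K.nodup_eq, K.lrange_eq,
    K.lapp_eq, K.lflat_eq, K.lfmap_eq, K.ltake_eq, K.lfoldl_eq, K.leq_eq, decide_eq_true_eq, ne_eq,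
    decide_not, Bool.decide_and, Bool.decide_or, Bool.decide_eq_true, Bool.decide_eq_false,
    Nat.succ_eq_add_one, Bool.beq_eq_decide_eq, bne, Bool.not_eq_true', Bool.or_eq_true,
    Bool.and_eq_true] <;> rfl

noncomputable def b5 (D5 : List (List ℕ)) (p5 : List (List ℕ × List (List (ℕ × ℕ × Bool))))
    (β : ℕ → Bool) : Bool :=
  (K.bor (K.band (K.band (K.lany D5 (fun (D : List ℕ) => (Nat.ble (nat_lit 2) (K.llen (K.lfilter β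
    D))))) (K.lany D5 (fun (D : List ℕ) => (Nat.ble (Nat.add (K.llen (K.lfilter β D)) (nat_lit 2))
    (K.llen D))))) (K.lany p5 (fun (E : List ℕ × List (List (ℕ × ℕ × Bool))) => (K.lall (Prod.snd E)
    (fun (C : List (ℕ × ℕ × Bool)) => (K.lany C (fun (t : ℕ × ℕ × Bool) => (K.beqB (K.bnot (K.beqB (β
    (Prod.fst t)) (β (Prod.fst (Prod.snd t))))) (Prod.snd (Prod.snd t)))))))))) (K.lany p5 (fun (E :
    List ℕ × List (List (ℕ × ℕ × Bool))) => (K.band (K.o5 E) (K.lall (Prod.snd E) (fun (C : List (ℕ ×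
    ℕ × Bool)) => (K.lany C (fun (t : ℕ × ℕ × Bool) => (K.beqB (K.bnot (K.beqB (β (Prod.fst t)) (β
    (Prod.fst (Prod.snd t))))) (Prod.snd (Prod.snd t)))))))))))

theorem b5_eq : @K.b5 = @FC7.b5 := by
  funext D5 p5 β
  simp only [K.b5, FC7.b5, K.band_eq, K.bor_eq, K.bnot_eq, K.beqB_eq, K.tbit_eq, K.kmax_eq,
    K.kmin_eq, K.nbeq_eq, K.nble_eq, K.bif_b, K.lall_eq, K.lany_eq, K.lmap_eq, K.lfilter_eq,
    K.llen_eq, K.lemp_eq, K.lsum_eq, K.lgetD_eq, K.lmem_eq, K.contains_eq, K.nodup_eq, K.lrange_eq,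
    K.lapp_eq, K.lflat_eq, K.lfmap_eq, K.ltake_eq, K.lfoldl_eq, K.leq_eq, decide_eq_true_eq, ne_eq,
    decide_not, Bool.decide_and, Bool.decide_or, Bool.decide_eq_true, Bool.decide_eq_false,
    Nat.succ_eq_add_one, Bool.beq_eq_decide_eq, bne, Bool.not_eq_true', Bool.or_eq_true,
    Bool.and_eq_true, K.o5_eq] <;> rfl

noncomputable def bf5 (cq : List ℕ) (sm : ℕ) (D5 : List (List ℕ))
    (p5 : List (List ℕ × List (List (ℕ × ℕ × Bool)))) (f : ℕ) (c : ℕ) : ℕ :=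
  (Bool.rec (motive := fun _ => ℕ) (Bool.rec (motive := fun _ => ℕ) (K.bfq cq sm f c) (nat_lit 5)
    (K.b5 D5 p5 (K.tbit c))) (nat_lit 3) (K.bor (Nat.beq (Nat.land c f) (nat_lit 0)) (Nat.beq
    (Nat.land c f) f)))

theorem bf5_eq : @K.bf5 = @FC7.bf5 := by
  funext cq sm D5 p5 f c
  simp only [K.bf5, FC7.bf5, K.band_eq, K.bor_eq, K.bnot_eq, K.beqB_eq, K.tbit_eq, K.kmax_eq,
    K.kmin_eq, K.nbeq_eq, K.nble_eq, K.bif_b, K.lall_eq, K.lany_eq, K.lmap_eq, K.lfilter_eq,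
    K.llen_eq, K.lemp_eq, K.lsum_eq, K.lgetD_eq, K.lmem_eq, K.contains_eq, K.nodup_eq, K.lrange_eq,
    K.lapp_eq, K.lflat_eq, K.lfmap_eq, K.ltake_eq, K.lfoldl_eq, K.leq_eq, decide_eq_true_eq, ne_eq,
    decide_not, Bool.decide_and, Bool.decide_or, Bool.decide_eq_true, Bool.decide_eq_false,
    Nat.succ_eq_add_one, Bool.beq_eq_decide_eq, bne, Bool.not_eq_true', Bool.or_eq_true,
    Bool.and_eq_true, K.bfq_eq, K.b5_eq] <;> rfl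

noncomputable def Fc_bf (F : FC7.Fc) (c : ℕ) : ℕ :=
  (K.bf5 (FC7.Fc.cq F) (FC7.Fc.sm F) (FC7.Fc.D5 F) (FC7.Fc.p5 F) (Nat.sub (Nat.pow (nat_lit 2)
    (FC7.OD.m (FC7.Fc.O F))) (nat_lit 1)) c)

theorem Fc_bf_eq : @K.Fc_bf = @FC7.Fc.bf := by
  funext F c
  simp only [K.Fc_bf, FC7.Fc.bf, K.band_eq, K.bor_eq, K.bnot_eq, K.beqB_eq, K.tbit_eq, K.kmax_eq,
    K.kmin_eq, K.nbeq_eq, K.nble_eq, K.bif_b, K.lall_eq, K.lany_eq, K.lmap_eq, K.lfilter_eq,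
    K.llen_eq, K.lemp_eq, K.lsum_eq, K.lgetD_eq, K.lmem_eq, K.contains_eq, K.nodup_eq, K.lrange_eq,
    K.lapp_eq, K.lflat_eq, K.lfmap_eq, K.ltake_eq, K.lfoldl_eq, K.leq_eq, decide_eq_true_eq, ne_eq,
    decide_not, Bool.decide_and, Bool.decide_or, Bool.decide_eq_true, Bool.decide_eq_false,
    Nat.succ_eq_add_one, Bool.beq_eq_decide_eq, bne, Bool.not_eq_true', Bool.or_eq_true,
    Bool.and_eq_true, K.bf5_eq] <;> rfl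

noncomputable def gcr (P : FC6.Pa) (c : ℕ) (p : ℕ × ℕ × ℕ) : Bool :=
  (K.bnot (K.beqB (K.tbit c (FC6.Pa.l P (Prod.fst p))) (K.tbit c (FC6.Pa.l P (FC6.Pa.φ P (Prod.fst
    (Prod.snd p)))))))

theorem gcr_eq : @K.gcr = @FC7.gcr := by
  funext P c p
  simp only [K.gcr, FC7.gcr, K.band_eq, K.bor_eq, K.bnot_eq, K.beqB_eq, K.tbit_eq, K.kmax_eq,
    K.kmin_eq, K.nbeq_eq, K.nble_eq, K.bif_b, K.lall_eq, K.lany_eq, K.lmap_eq, K.lfilter_eq,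
    K.llen_eq, K.lemp_eq, K.lsum_eq, K.lgetD_eq, K.lmem_eq, K.contains_eq, K.nodup_eq, K.lrange_eq,
    K.lapp_eq, K.lflat_eq, K.lfmap_eq, K.ltake_eq, K.lfoldl_eq, K.leq_eq, decide_eq_true_eq, ne_eq,
    decide_not, Bool.decide_and, Bool.decide_or, Bool.decide_eq_true, Bool.decide_eq_false,
    Nat.succ_eq_add_one, Bool.beq_eq_decide_eq, bne, Bool.not_eq_true', Bool.or_eq_true,
    Bool.and_eq_true] <;> rfl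

noncomputable def gnum (P : Pa) (c : ℕ) (T : List (ℕ × ℕ × ℕ)) : ℕ :=
  List.rec (motive := fun _ => ℕ) (nat_lit 0)
    (fun p _ ih => Nat.add (Bool.rec (motive := fun _ => ℕ) (nat_lit 0) (nat_lit 1)
      (K.gcr P c p)) ih) T

theorem gnum_eq : gnum = FC7.gnum := by
  funext P c T
  induction T with
  | nil => rfl
  | cons p T ih =>
    rw [FC7.gnum, ← ih]
    show Nat.add (Bool.rec (motive := fun _ => ℕ) (nat_lit 0) (nat_lit 1)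
      (K.gcr P c p)) (gnum P c T) = _
    rw [K.gcr_eq]
    cases FC7.gcr P c p <;> rfl

noncomputable def gex (P : FC6.Pa) (c : ℕ) (M : ℕ) : Bool :=
  (K.bnot (K.bor (Nat.beq M (nat_lit 0)) (K.allN (FC6.Pa.n P) (fun (j : ℕ) => (K.bnot (K.band
    (K.tbit M j) (K.OD_crs P c j)))))))

theorem gex_eq : @K.gex = @FC7.gex := by
  funext P c M
  simp only [K.gex, FC7.gex, K.band_eq, K.bor_eq, K.bnot_eq, K.beqB_eq, K.tbit_eq, K.kmax_eq,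
    K.kmin_eq, K.nbeq_eq, K.nble_eq, K.bif_b, K.lall_eq, K.lany_eq, K.lmap_eq, K.lfilter_eq,
    K.llen_eq, K.lemp_eq, K.lsum_eq, K.lgetD_eq, K.lmem_eq, K.contains_eq, K.nodup_eq, K.lrange_eq,
    K.lapp_eq, K.lflat_eq, K.lfmap_eq, K.ltake_eq, K.lfoldl_eq, K.leq_eq, decide_eq_true_eq, ne_eq,
    decide_not, Bool.decide_and, Bool.decide_or, Bool.decide_eq_true, Bool.decide_eq_false,
    Nat.succ_eq_add_one, Bool.beq_eq_decide_eq, bne, Bool.not_eq_true', Bool.or_eq_true,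
    Bool.and_eq_true, K.allN_eq, K.OD_crs_eq] <;> rfl

noncomputable def gnum1 (P : Pa) (c : ℕ) (T : List (ℕ × ℕ × ℕ)) : ℕ :=
  List.rec (motive := fun _ => ℕ) (nat_lit 0)
    (fun p _ ih => Nat.add (Bool.rec (motive := fun _ => ℕ) (nat_lit 0) (nat_lit 1)
      (K.band (K.gcr P c p) (K.gex P c p.2.2))) ih) T

theorem gnum1_eq : gnum1 = FC7.gnum1 := by
  funext P c T
  induction T with
  | nil => rfl
  | cons p T ih =>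
    rw [FC7.gnum1, ← ih]
    show Nat.add (Bool.rec (motive := fun _ => ℕ) (nat_lit 0) (nat_lit 1)
      (K.band (K.gcr P c p) (K.gex P c p.2.2))) (gnum1 P c T) = _
    rw [K.gcr_eq, K.gex_eq, K.band_eq]
    cases FC7.gcr P c p <;> cases FC7.gex P c p.2.2 <;> rfl

noncomputable def gnr (P : FC6.Pa) (c : ℕ) (M : ℕ) : ℕ :=
  (Bool.rec (motive := fun _ => ℕ) (K.sumN (FC6.Pa.n P) (fun (j : ℕ) => (Bool.rec (motive := fun _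
    => ℕ) (nat_lit 0) (nat_lit 1) (K.band (K.tbit M j) (K.OD_crs P c j))))) (nat_lit 0) (Nat.beq M
    (nat_lit 0)))

theorem gnr_eq : @K.gnr = @FC7.gnr := by
  funext P c M
  simp only [K.gnr, FC7.gnr, K.band_eq, K.bor_eq, K.bnot_eq, K.beqB_eq, K.tbit_eq, K.kmax_eq,
    K.kmin_eq, K.nbeq_eq, K.nble_eq, K.bif_b, K.lall_eq, K.lany_eq, K.lmap_eq, K.lfilter_eq,
    K.llen_eq, K.lemp_eq, K.lsum_eq, K.lgetD_eq, K.lmem_eq, K.contains_eq, K.nodup_eq, K.lrange_eq,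
    K.lapp_eq, K.lflat_eq, K.lfmap_eq, K.ltake_eq, K.lfoldl_eq, K.leq_eq, decide_eq_true_eq, ne_eq,
    decide_not, Bool.decide_and, Bool.decide_or, Bool.decide_eq_true, Bool.decide_eq_false,
    Nat.succ_eq_add_one, Bool.beq_eq_decide_eq, bne, Bool.not_eq_true', Bool.or_eq_true,
    Bool.and_eq_true, K.sumN_eq, K.OD_crs_eq] <;> rfl

noncomputable def gmsk (P : Pa) (c : ℕ) (T : List (ℕ × ℕ × ℕ)) : ℕ :=
  List.rec (motive := fun _ => ℕ) (nat_lit 0)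
    (fun p _ ih => Nat.lor (Bool.rec (motive := fun _ => ℕ) (nat_lit 0) p.2.2
      (K.gcr P c p)) ih) T

theorem gmsk_eq : gmsk = FC7.gmsk := by
  funext P c T
  induction T with
  | nil => rfl
  | cons p T ih =>
    rw [FC7.gmsk, ← ih]
    show Nat.lor (Bool.rec (motive := fun _ => ℕ) (nat_lit 0) p.2.2
      (K.gcr P c p)) (gmsk P c T) = _
    rw [K.gcr_eq]
    cases FC7.gcr P c p <;> rfl

noncomputable def gbon (P : FC6.Pa) (c : ℕ) (T : List (ℕ × ℕ × ℕ)) : ℕ :=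
  (Nat.mul (nat_lit 2) (Nat.div (Nat.add (Nat.sub (K.gnum P c T) (Bool.rec (motive := fun _ => ℕ)
    (K.kmin (K.gnum1 P c T) (K.gnr P c (K.gmsk P c T))) (nat_lit 0) (Nat.beq (K.gnum1 P c T)
    (nat_lit 0)))) (nat_lit 1)) (nat_lit 2)))

theorem gbon_eq : @K.gbon = @FC7.gbon := by
  funext P c T
  simp only [K.gbon, FC7.gbon, K.band_eq, K.bor_eq, K.bnot_eq, K.beqB_eq, K.tbit_eq, K.kmax_eq,
    K.kmin_eq, K.nbeq_eq, K.nble_eq, K.bif_b, K.lall_eq, K.lany_eq, K.lmap_eq, K.lfilter_eq,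
    K.llen_eq, K.lemp_eq, K.lsum_eq, K.lgetD_eq, K.lmem_eq, K.contains_eq, K.nodup_eq, K.lrange_eq,
    K.lapp_eq, K.lflat_eq, K.lfmap_eq, K.ltake_eq, K.lfoldl_eq, K.leq_eq, decide_eq_true_eq, ne_eq,
    decide_not, Bool.decide_and, Bool.decide_or, Bool.decide_eq_true, Bool.decide_eq_false,
    Nat.succ_eq_add_one, Bool.beq_eq_decide_eq, bne, Bool.not_eq_true', Bool.or_eq_true,
    Bool.and_eq_true, K.gnum_eq, K.gnum1_eq, K.gnr_eq, K.gmsk_eq] <;> rfl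

noncomputable def OD_rr (X : FC7.OD) (P : FC6.Pa) (c : ℕ) : ℕ :=
  (K.sumN (FC6.Pa.n P) (fun (i : ℕ) => (Bool.rec (motive := fun _ => ℕ) (nat_lit 0) (nat_lit 1)
    (K.band (K.band (K.OD_rg X P i) (FC6.Pa.real P i)) (K.OD_crs P c i)))))

theorem OD_rr_eq : @K.OD_rr = @FC7.OD.rr := by
  funext X P c
  simp only [K.OD_rr, FC7.OD.rr, K.band_eq, K.bor_eq, K.bnot_eq, K.beqB_eq, K.tbit_eq, K.kmax_eq,
    K.kmin_eq, K.nbeq_eq, K.nble_eq, K.bif_b, K.lall_eq, K.lany_eq, K.lmap_eq, K.lfilter_eq,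
    K.llen_eq, K.lemp_eq, K.lsum_eq, K.lgetD_eq, K.lmem_eq, K.contains_eq, K.nodup_eq, K.lrange_eq,
    K.lapp_eq, K.lflat_eq, K.lfmap_eq, K.ltake_eq, K.lfoldl_eq, K.leq_eq, decide_eq_true_eq, ne_eq,
    decide_not, Bool.decide_and, Bool.decide_or, Bool.decide_eq_true, Bool.decide_eq_false,
    Nat.succ_eq_add_one, Bool.beq_eq_decide_eq, bne, Bool.not_eq_true', Bool.or_eq_true,
    Bool.and_eq_true, K.sumN_eq, K.OD_rg_eq, K.OD_crs_eq] <;> rfl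

noncomputable def gbn (P : FC6.Pa) (O : FC7.OD) (T : List (ℕ × ℕ × ℕ)) (c : ℕ) : ℕ :=
  (Bool.rec (motive := fun _ => ℕ) (Nat.add (K.OD_rr O P c) (K.gbon P c T)) (nat_lit 0) (Nat.beq
    (K.gbon P c T) (nat_lit 0)))

theorem gbn_eq : @K.gbn = @FC7.gbn := by
  funext P O T c
  simp only [K.gbn, FC7.gbn, K.band_eq, K.bor_eq, K.bnot_eq, K.beqB_eq, K.tbit_eq, K.kmax_eq,
    K.kmin_eq, K.nbeq_eq, K.nble_eq, K.bif_b, K.lall_eq, K.lany_eq, K.lmap_eq, K.lfilter_eq,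
    K.llen_eq, K.lemp_eq, K.lsum_eq, K.lgetD_eq, K.lmem_eq, K.contains_eq, K.nodup_eq, K.lrange_eq,
    K.lapp_eq, K.lflat_eq, K.lfmap_eq, K.ltake_eq, K.lfoldl_eq, K.leq_eq, decide_eq_true_eq, ne_eq,
    decide_not, Bool.decide_and, Bool.decide_or, Bool.decide_eq_true, Bool.decide_eq_false,
    Nat.succ_eq_add_one, Bool.beq_eq_decide_eq, bne, Bool.not_eq_true', Bool.or_eq_true,
    Bool.and_eq_true, K.gbon_eq, K.OD_rr_eq] <;> rfl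

noncomputable def Fc_gb (F : FC7.Fc) (c : ℕ) : ℕ :=
  (K.gbn (FC7.Fc.P F) (FC7.Fc.O F) (FC7.Fc.gt F) c)

theorem Fc_gb_eq : @K.Fc_gb = @FC7.Fc.gb := by
  funext F c
  simp only [K.Fc_gb, FC7.Fc.gb, K.band_eq, K.bor_eq, K.bnot_eq, K.beqB_eq, K.tbit_eq, K.kmax_eq,
    K.kmin_eq, K.nbeq_eq, K.nble_eq, K.bif_b, K.lall_eq, K.lany_eq, K.lmap_eq, K.lfilter_eq,
    K.llen_eq, K.lemp_eq, K.lsum_eq, K.lgetD_eq, K.lmem_eq, K.contains_eq, K.nodup_eq, K.lrange_eq,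
    K.lapp_eq, K.lflat_eq, K.lfmap_eq, K.ltake_eq, K.lfoldl_eq, K.leq_eq, decide_eq_true_eq, ne_eq,
    decide_not, Bool.decide_and, Bool.decide_or, Bool.decide_eq_true, Bool.decide_eq_false,
    Nat.succ_eq_add_one, Bool.beq_eq_decide_eq, bne, Bool.not_eq_true', Bool.or_eq_true,
    Bool.and_eq_true, K.gbn_eq] <;> rfl

noncomputable def djs (X : FC7.XE) (O : FC7.OD) (P : FC6.Pa) (P' : FC6.Pa) (la : List ℕ) (ou : ℕ →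
  Bool) (lu : ℕ → Bool) : Bool :=
  (K.band (K.band (K.band (K.band (K.band (K.lall (FC7.XE.dj' X) (fun (m : ℕ) => (K.bor (K.bor
    (K.bnot (K.allN (FC6.Pa.n P) (fun (i : ℕ) => (K.bnot (K.band (K.bor (K.bnot (Nat.beq (FC6.Pa.u
    P' i) (nat_lit 0))) (ou i)) (K.tbit m (FC7.XE.ce' X i))))))) (K.bnot (K.allN (FC6.Pa.n P) (fun
    (i : ℕ) => (K.bnot (K.band (K.band (K.band (FC7.OD.lb' O i) (K.bnot (Nat.beq (FC6.Pa.α P i) i)))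
    (K.tbit m (FC7.XE.ce' X i))) (K.tbit m (FC7.XE.ce' X (FC6.Pa.α P i))))))))) (K.bnot (K.allN
    (FC7.OD.x O) (fun (a : ℕ) => (K.bnot (K.band (Nat.ble (FC7.OD.lo O) a) (K.allN (FC6.Pa.n P) (fun
    (i : ℕ) => (K.bor (K.bnot (Nat.beq (FC6.Pa.l P' i) a)) (K.tbit m (FC7.XE.ce' X i)))))))))))))
    (K.allN (FC6.Pa.n P) (fun (i : ℕ) => (K.bor (K.bor (Nat.beq (FC6.Pa.α P i) i) (K.bnot (FC7.OD.lb
    O i))) (K.lany (FC7.XE.dj X) (fun (z : ℕ) => (K.allN (FC6.Pa.n P) (fun (j : ℕ) => (K.bor (K.bor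
    (K.bnot (K.tbit z (FC7.XE.ce X j))) (Nat.beq (FC7.XE.ce X j) (FC7.XE.ce X i))) (Nat.beq
    (FC7.XE.ce X j) (FC7.XE.ce X (FC6.Pa.α P i)))))))))))) (K.lall la (fun (a : ℕ) => (K.band
    (Nat.ble (Nat.succ a) (FC7.OD.x O)) (K.lmem (FC7.XE.st X a) (FC7.XE.dj X)))))) (K.nodup la))
    (K.lall (FC7.XE.rs X) (fun (i : ℕ) => (K.bor (K.bor (K.bnot (FC7.OD.lb O i)) (lu i)) (K.band
    (K.OD_rg O P i) (K.bor (K.lany (FC7.XE.lr X) (fun (q : ℕ × Bool × Bool) => (K.band (Nat.beq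
    (Prod.fst q) i) (Prod.fst (Prod.snd q))))) (K.band (FC7.OD.lb' O i) (K.lmem i (FC7.XE.kd
    X))))))))) (K.lall (FC7.XE.lr X) (fun (q : ℕ × Bool × Bool) => (K.bor (K.bnot (Prod.snd
    (Prod.snd q))) (K.band (Nat.ble (Nat.succ (Prod.fst q)) (FC6.Pa.n P)) (FC7.OD.lb' O (Prod.fst
    q)))))))

theorem djs_eq : @K.djs = @FC7.djs := by
  funext X O P P' la ou lu
  simp only [K.djs, FC7.djs, K.band_eq, K.bor_eq, K.bnot_eq, K.beqB_eq, K.tbit_eq, K.kmax_eq,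
    K.kmin_eq, K.nbeq_eq, K.nble_eq, K.bif_b, K.lall_eq, K.lany_eq, K.lmap_eq, K.lfilter_eq,
    K.llen_eq, K.lemp_eq, K.lsum_eq, K.lgetD_eq, K.lmem_eq, K.contains_eq, K.nodup_eq, K.lrange_eq,
    K.lapp_eq, K.lflat_eq, K.lfmap_eq, K.ltake_eq, K.lfoldl_eq, K.leq_eq, decide_eq_true_eq, ne_eq,
    decide_not, Bool.decide_and, Bool.decide_or, Bool.decide_eq_true, Bool.decide_eq_false,
    Nat.succ_eq_add_one, Bool.beq_eq_decide_eq, bne, Bool.not_eq_true', Bool.or_eq_true,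
    Bool.and_eq_true, K.allN_eq, K.OD_rg_eq] <;> rfl

noncomputable def cqc (ne : ℕ → ℕ → Bool) (m : ℕ) (cq : List ℕ) : Bool :=
  (K.lall cq (fun (q : ℕ) => (K.band (Nat.ble (Nat.succ q) (Nat.pow (nat_lit 2) m)) (K.allN m (fun
    (a : ℕ) => (K.bor (K.bnot (K.tbit q a)) (K.allN m (fun (b : ℕ) => (K.bor (K.bor (Nat.beq a b)
    (K.bnot (K.tbit q b))) (ne a b))))))))))

theorem cqc_eq : @K.cqc = @FC7.cqc := by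
  funext ne m cq
  simp only [K.cqc, FC7.cqc, K.band_eq, K.bor_eq, K.bnot_eq, K.beqB_eq, K.tbit_eq, K.kmax_eq,
    K.kmin_eq, K.nbeq_eq, K.nble_eq, K.bif_b, K.lall_eq, K.lany_eq, K.lmap_eq, K.lfilter_eq,
    K.llen_eq, K.lemp_eq, K.lsum_eq, K.lgetD_eq, K.lmem_eq, K.contains_eq, K.nodup_eq, K.lrange_eq,
    K.lapp_eq, K.lflat_eq, K.lfmap_eq, K.ltake_eq, K.lfoldl_eq, K.leq_eq, decide_eq_true_eq, ne_eq,
    decide_not, Bool.decide_and, Bool.decide_or, Bool.decide_eq_true, Bool.decide_eq_false,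
    Nat.succ_eq_add_one, Bool.beq_eq_decide_eq, bne, Bool.not_eq_true', Bool.or_eq_true,
    Bool.and_eq_true, K.allN_eq] <;> rfl

noncomputable def Fc_chkS (F : FC7.Fc) : Bool :=
  (K.band (K.allN (FC7.OD.x (FC7.Fc.O F)) (fun (a : ℕ) => (K.allN (FC7.OD.m (FC7.Fc.O F)) (fun (b :
    ℕ) => (K.bor (Nat.beq a b) (K.band (K.Fc_ne F a b) (K.Fc_ne F b a))))))) (K.allN (FC6.Pa.n
    (FC7.Fc.P F)) (fun (i : ℕ) => (K.band (K.band (K.band (Nat.ble (Nat.succ (FC6.Pa.l (FC7.Fc.P F)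
    i)) (FC7.Fc.nl F)) (Nat.ble (Nat.succ (FC6.Pa.l (FC7.Fc.P' F) i)) (FC7.Fc.nl F))) (K.bor (K.bor
    (K.bnot (FC6.Pa.real (FC7.Fc.P' F) i)) (K.Fc_un F i)) (K.band (K.Fc_ne F (FC6.Pa.l (FC7.Fc.P' F)
    i) (FC6.Pa.l (FC7.Fc.P' F) (FC6.Pa.φ (FC7.Fc.P' F) i))) (K.bor (K.bor (K.Fc_na F (FC6.Pa.l
    (FC7.Fc.P' F) i) (FC6.Pa.l (FC7.Fc.P' F) (FC6.Pa.φ (FC7.Fc.P' F) i))) (Nat.ble (Nat.succ
    (FC6.Pa.l (FC7.Fc.P' F) i)) (FC7.OD.x (FC7.Fc.O F)))) (Nat.ble (Nat.succ (FC6.Pa.l (FC7.Fc.P' F)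
    (FC6.Pa.φ (FC7.Fc.P' F) i))) (FC7.OD.x (FC7.Fc.O F))))))) (K.allN i (fun (j : ℕ) => (K.bor
    (K.bor (K.bor (K.bor (K.bnot (FC6.Pa.real (FC7.Fc.P' F) i)) (K.bnot (FC6.Pa.real (FC7.Fc.P' F)
    j))) (K.Fc_ne F (FC6.Pa.l (FC7.Fc.P' F) i) (FC6.Pa.l (FC7.Fc.P' F) j))) (K.Fc_ne F (FC6.Pa.l
    (FC7.Fc.P' F) (FC6.Pa.φ (FC7.Fc.P' F) i)) (FC6.Pa.l (FC7.Fc.P' F) (FC6.Pa.φ (FC7.Fc.P' F) j))))
    (K.band (K.Fc_un F i) (K.Fc_un F j)))))))))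

theorem Fc_chkS_eq : @K.Fc_chkS = @FC7.Fc.chkS := by
  funext F
  simp only [K.Fc_chkS, FC7.Fc.chkS, K.band_eq, K.bor_eq, K.bnot_eq, K.beqB_eq, K.tbit_eq,
    K.kmax_eq, K.kmin_eq, K.nbeq_eq, K.nble_eq, K.bif_b, K.lall_eq, K.lany_eq, K.lmap_eq,
    K.lfilter_eq, K.llen_eq, K.lemp_eq, K.lsum_eq, K.lgetD_eq, K.lmem_eq, K.contains_eq, K.nodup_eq,
    K.lrange_eq, K.lapp_eq, K.lflat_eq, K.lfmap_eq, K.ltake_eq, K.lfoldl_eq, K.leq_eq,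
    decide_eq_true_eq, ne_eq, decide_not, Bool.decide_and, Bool.decide_or, Bool.decide_eq_true,
    Bool.decide_eq_false, Nat.succ_eq_add_one, Bool.beq_eq_decide_eq, bne, Bool.not_eq_true',
    Bool.or_eq_true, Bool.and_eq_true, K.allN_eq, K.Fc_ne_eq, K.Fc_un_eq, K.Fc_na_eq] <;> rfl

noncomputable def Fc_chkL (F : FC7.Fc) : Bool :=
  (K.allN (FC7.OD.m (FC7.Fc.O F)) (fun (a : ℕ) => (K.allN (FC7.OD.m (FC7.Fc.O F)) (fun (b : ℕ) =>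
    (K.bor (K.bor (K.bor (Nat.beq (FC7.OD.sl (FC7.Fc.O F) a) (nat_lit 0)) (Nat.beq (FC7.OD.sl
    (FC7.Fc.O F) b) (nat_lit 0))) (Nat.beq a b)) (K.Fc_ne F a b))))))

theorem Fc_chkL_eq : @K.Fc_chkL = @FC7.Fc.chkL := by
  funext F
  simp only [K.Fc_chkL, FC7.Fc.chkL, K.band_eq, K.bor_eq, K.bnot_eq, K.beqB_eq, K.tbit_eq,
    K.kmax_eq, K.kmin_eq, K.nbeq_eq, K.nble_eq, K.bif_b, K.lall_eq, K.lany_eq, K.lmap_eq,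
    K.lfilter_eq, K.llen_eq, K.lemp_eq, K.lsum_eq, K.lgetD_eq, K.lmem_eq, K.contains_eq, K.nodup_eq,
    K.lrange_eq, K.lapp_eq, K.lflat_eq, K.lfmap_eq, K.ltake_eq, K.lfoldl_eq, K.leq_eq,
    decide_eq_true_eq, ne_eq, decide_not, Bool.decide_and, Bool.decide_or, Bool.decide_eq_true,
    Bool.decide_eq_false, Nat.succ_eq_add_one, Bool.beq_eq_decide_eq, bne, Bool.not_eq_true',
    Bool.or_eq_true, Bool.and_eq_true, K.allN_eq, K.Fc_ne_eq] <;> rfl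

noncomputable def Fc_chkQ (F : FC7.Fc) : Bool :=
  (K.band (K.allN (FC7.OD.p (FC7.Fc.O F)) (fun (q : ℕ) => (K.bor (K.bor (K.bor (K.bor (K.band
    (Nat.beq (FC7.Fc.ty F q) (nat_lit 0)) (Nat.ble (nat_lit 3) (K.Fc_pu F q))) (Nat.beq (FC7.Fc.ty F
    q) (nat_lit 1))) (Nat.beq (FC7.Fc.ty F q) (nat_lit 3))) (Nat.beq (FC7.Fc.ty F q) (nat_lit 4)))
    (K.band (K.band (K.band (K.band (K.band (K.band (K.band (K.band (K.band (K.band (K.band (K.band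
    (Nat.beq (FC7.Fc.ty F q) (nat_lit 2)) (Nat.ble (Nat.succ (FC7.Fc.tj F q)) (FC6.Pa.n (FC7.Fc.P
    F)))) (Nat.ble (Nat.succ (FC7.Fc.tk F q)) (FC6.Pa.n (FC7.Fc.P F)))) (Nat.beq (FC7.OD.pc
    (FC7.Fc.O F) (FC7.Fc.tj F q)) q)) (Nat.beq (FC7.OD.pc (FC7.Fc.O F) (FC7.Fc.tk F q)) q)) (K.bnot
    (Nat.beq (FC6.Pa.u (FC7.Fc.P' F) (FC7.Fc.tj F q)) (nat_lit 0)))) (K.bnot (Nat.beq (FC6.Pa.u
    (FC7.Fc.P' F) (FC7.Fc.tk F q)) (nat_lit 0)))) (Nat.ble (Nat.succ (FC6.Pa.l (FC7.Fc.P' F)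
    (FC7.Fc.tj F q))) (FC7.OD.m (FC7.Fc.O F)))) (Nat.ble (Nat.succ (FC6.Pa.l (FC7.Fc.P' F)
    (FC7.Fc.tk F q))) (FC7.OD.m (FC7.Fc.O F)))) (K.Fc_ne F (FC6.Pa.l (FC7.Fc.P' F) (FC7.Fc.tj F q))
    (FC6.Pa.l (FC7.Fc.P' F) (FC7.Fc.tk F q)))) (K.Fc_na F (FC6.Pa.l (FC7.Fc.P' F) (FC7.Fc.tj F q))
    (FC6.Pa.l (FC7.Fc.P' F) (FC7.Fc.tk F q)))) (K.Fc_na F (FC6.Pa.l (FC7.Fc.P' F) (FC7.Fc.tk F q))
    (FC6.Pa.l (FC7.Fc.P' F) (FC7.Fc.tj F q)))) (K.allN (FC6.Pa.n (FC7.Fc.P F)) (fun (r : ℕ) =>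
    (K.bor (K.bnot (FC6.Pa.real (FC7.Fc.P' F) r)) (K.band (K.bor (K.Fc_ne F (FC6.Pa.l (FC7.Fc.P' F)
    r) (FC6.Pa.l (FC7.Fc.P' F) (FC7.Fc.tj F q))) (K.Fc_ne F (FC6.Pa.l (FC7.Fc.P' F) (FC6.Pa.φ
    (FC7.Fc.P' F) r)) (FC6.Pa.l (FC7.Fc.P' F) (FC7.Fc.tk F q)))) (K.bor (K.Fc_ne F (FC6.Pa.l
    (FC7.Fc.P' F) r) (FC6.Pa.l (FC7.Fc.P' F) (FC7.Fc.tk F q))) (K.Fc_ne F (FC6.Pa.l (FC7.Fc.P' F)
    (FC6.Pa.φ (FC7.Fc.P' F) r)) (FC6.Pa.l (FC7.Fc.P' F) (FC7.Fc.tj F q)))))))))))) (K.allN (FC6.Pa.n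
    (FC7.Fc.P F)) (fun (i : ℕ) => (K.bor (K.bnot (Nat.beq (FC7.Fc.ty F (FC7.OD.pc (FC7.Fc.O F) i))
    (nat_lit 1))) (K.band (Nat.beq (FC6.Pa.u (FC7.Fc.P' F) i) (nat_lit 0)) (K.bor (K.bor (K.bor
    (K.bnot (Nat.beq (FC6.Pa.α (FC7.Fc.P F) i) i)) (FC6.Pa.real (FC7.Fc.P F) i)) (FC7.Fc.op F i))
    (FC7.Fc.oz F i)))))))

theorem Fc_chkQ_eq : @K.Fc_chkQ = @FC7.Fc.chkQ := by
  funext F
  simp only [K.Fc_chkQ, FC7.Fc.chkQ, K.band_eq, K.bor_eq, K.bnot_eq, K.beqB_eq, K.tbit_eq,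
    K.kmax_eq, K.kmin_eq, K.nbeq_eq, K.nble_eq, K.bif_b, K.lall_eq, K.lany_eq, K.lmap_eq,
    K.lfilter_eq, K.llen_eq, K.lemp_eq, K.lsum_eq, K.lgetD_eq, K.lmem_eq, K.contains_eq, K.nodup_eq,
    K.lrange_eq, K.lapp_eq, K.lflat_eq, K.lfmap_eq, K.ltake_eq, K.lfoldl_eq, K.leq_eq,
    decide_eq_true_eq, ne_eq, decide_not, Bool.decide_and, Bool.decide_or, Bool.decide_eq_true,
    Bool.decide_eq_false, Nat.succ_eq_add_one, Bool.beq_eq_decide_eq, bne, Bool.not_eq_true',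
    Bool.or_eq_true, Bool.and_eq_true, K.allN_eq, K.Fc_pu_eq, K.Fc_ne_eq, K.Fc_na_eq] <;> rfl

noncomputable def Fc_chkK (F : FC7.Fc) : Bool :=
  (K.band (K.allN (FC6.Pa.n (FC7.Fc.P F)) (fun (i : ℕ) => (K.bor (K.bnot (FC7.Fc.uk F i)) (K.band
    (K.band (K.band (K.band (K.band (Nat.ble (Nat.succ (FC7.Fc.kp F i)) (FC6.Pa.n (FC7.Fc.P F)))
    (Nat.ble (Nat.succ (FC7.Fc.kr F i)) (FC6.Pa.n (FC7.Fc.P F)))) (Nat.beq (FC6.Pa.l (FC7.Fc.P' F)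
    (FC7.Fc.kp F i)) (FC6.Pa.l (FC7.Fc.P F) i))) (Nat.ble (FC7.OD.x (FC7.Fc.O F)) (FC6.Pa.l
    (FC7.Fc.P F) i))) (Nat.ble (Nat.succ (FC6.Pa.l (FC7.Fc.P F) i)) (FC7.OD.m (FC7.Fc.O F)))) (K.bor
    (K.bnot (Nat.beq (FC7.Fc.ty F (FC7.OD.pc (FC7.Fc.O F) (FC7.Fc.kp F i))) (nat_lit 1))) (K.band
    (FC7.Fc.oz F (FC7.Fc.kr F i)) (Nat.beq (FC7.OD.pc (FC7.Fc.O F) (FC7.Fc.kr F i)) (FC7.OD.pc
    (FC7.Fc.O F) (FC7.Fc.kp F i))))))))) (K.allN (FC6.Pa.n (FC7.Fc.P F)) (fun (i : ℕ) => (K.bor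
    (K.bnot (FC7.Fc.lu F i)) (K.band (K.band (K.band (K.band (Nat.beq (FC6.Pa.α (FC7.Fc.P F) i) i)
    (FC6.Pa.real (FC7.Fc.P F) i)) (K.bnot (FC7.OD.lb (FC7.Fc.O F) i))) (K.bnot (FC7.OD.lb' (FC7.Fc.O
    F) i))) (Nat.beq (FC7.OD.wt (FC7.Fc.O F) i) (nat_lit 0)))))))

theorem Fc_chkK_eq : @K.Fc_chkK = @FC7.Fc.chkK := by
  funext F
  simp only [K.Fc_chkK, FC7.Fc.chkK, K.band_eq, K.bor_eq, K.bnot_eq, K.beqB_eq, K.tbit_eq,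
    K.kmax_eq, K.kmin_eq, K.nbeq_eq, K.nble_eq, K.bif_b, K.lall_eq, K.lany_eq, K.lmap_eq,
    K.lfilter_eq, K.llen_eq, K.lemp_eq, K.lsum_eq, K.lgetD_eq, K.lmem_eq, K.contains_eq, K.nodup_eq,
    K.lrange_eq, K.lapp_eq, K.lflat_eq, K.lfmap_eq, K.ltake_eq, K.lfoldl_eq, K.leq_eq,
    decide_eq_true_eq, ne_eq, decide_not, Bool.decide_and, Bool.decide_or, Bool.decide_eq_true,
    Bool.decide_eq_false, Nat.succ_eq_add_one, Bool.beq_eq_decide_eq, bne, Bool.not_eq_true',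
    Bool.or_eq_true, Bool.and_eq_true, K.allN_eq] <;> rfl

noncomputable def Fc_chkR (F : FC7.Fc) : Bool :=
  (K.bor (K.bnot (K.allN (FC6.Pa.n (FC7.Fc.P F)) (fun (i : ℕ) => (K.bnot (FC6.Pa.real (FC7.Fc.P' F)
    i))))) (Nat.ble (Nat.succ (K.sumN (FC6.Pa.n (FC7.Fc.P F)) (fun (i : ℕ) => (Bool.rec (motive :=
    fun _ => ℕ) (nat_lit 0) (nat_lit 1) (FC6.Pa.real (FC7.Fc.P F) i))))) (nat_lit 20)))

theorem Fc_chkR_eq : @K.Fc_chkR = @FC7.Fc.chkR := by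
  funext F
  simp only [K.Fc_chkR, FC7.Fc.chkR, K.band_eq, K.bor_eq, K.bnot_eq, K.beqB_eq, K.tbit_eq,
    K.kmax_eq, K.kmin_eq, K.nbeq_eq, K.nble_eq, K.bif_b, K.lall_eq, K.lany_eq, K.lmap_eq,
    K.lfilter_eq, K.llen_eq, K.lemp_eq, K.lsum_eq, K.lgetD_eq, K.lmem_eq, K.contains_eq, K.nodup_eq,
    K.lrange_eq, K.lapp_eq, K.lflat_eq, K.lfmap_eq, K.ltake_eq, K.lfoldl_eq, K.leq_eq,
    decide_eq_true_eq, ne_eq, decide_not, Bool.decide_and, Bool.decide_or, Bool.decide_eq_true,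
    Bool.decide_eq_false, Nat.succ_eq_add_one, Bool.beq_eq_decide_eq, bne, Bool.not_eq_true',
    Bool.or_eq_true, Bool.and_eq_true, K.allN_eq, K.sumN_eq] <;> rfl

noncomputable def Fc_chk (F : FC7.Fc) (Δ : ℕ) : Bool :=
  (K.band (K.band (K.band (K.band (K.band (K.band (K.band (K.band (K.band (K.band (K.band (K.band
    (K.band (K.band (K.band (K.band (K.band (K.band (K.band (K.Pa_good (FC7.Fc.P F)) (K.Pa_good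
    (FC7.Fc.P' F))) (K.Pa_flips (FC7.Fc.P' F) (FC7.Fc.P F) (FC7.Fc.fl F))) (K.band (K.XE_sta
    (K.Fc_XX F) (FC7.Fc.P F) (FC7.Fc.P' F)) (K.XE_ringOk (K.Fc_XX F) (FC7.Fc.P F)))) (K.OD_stat (FC7.Fc.O F) (FC7.Fc.P F) (FC7.Fc.P' F))) (K.CD_chk (FC7.Fc.C F)
    (FC7.Fc.O F) (FC7.Fc.P F) (FC7.Fc.P' F) (K.Fc_bf F) (K.Fc_gb F))) (K.djs (K.Fc_XX F) (FC7.Fc.O
    F) (FC7.Fc.P F) (FC7.Fc.P' F) (K.lrange (FC7.OD.x (FC7.Fc.O F))) (FC7.Fc.ou F) (FC7.Fc.lu F)))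
    (Nat.beq (FC7.XE.x (FC7.Fc.X F)) (FC7.OD.x (FC7.Fc.O F)))) (Nat.beq (Nat.add (FC7.XE.x (FC7.Fc.X
    F)) (FC7.XE.k (FC7.Fc.X F))) (FC7.OD.m (FC7.Fc.O F)))) (Nat.beq (FC7.OD.Δ (FC7.Fc.O F)) Δ))
    (Nat.beq (FC7.XE.lo (FC7.Fc.X F)) (FC7.OD.lo (FC7.Fc.O F)))) (Nat.ble (Nat.succ (FC7.OD.x
    (FC7.Fc.O F))) (FC7.OD.m (FC7.Fc.O F)))) (Nat.ble (Nat.succ (FC7.Fc.sm F)) (Nat.pow (nat_lit 2)
    (FC7.OD.m (FC7.Fc.O F))))) (K.cqc (K.Fc_ne F) (FC7.OD.m (FC7.Fc.O F)) (FC7.Fc.cq F))) (K.Fc_chkS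
    F)) (K.Fc_chkL F)) (K.Fc_chkQ F)) (K.Fc_chkK F)) (K.Fc_chkR F)) (K.allN (FC6.Pa.n (FC7.Fc.P F))
    (fun (i : ℕ) => (Nat.beq (FC7.OD.wt' (FC7.Fc.O F) i) (Bool.rec (motive := fun _ => ℕ) (nat_lit
    0) (nat_lit 1) (FC7.OD.lb' (FC7.Fc.O F) i))))))

theorem Fc_chk_eq : @K.Fc_chk = @FC7.Fc.chk := by
  funext F Δ
  simp only [K.Fc_chk, FC7.Fc.chk, K.band_eq, K.bor_eq, K.bnot_eq, K.beqB_eq, K.tbit_eq, K.kmax_eq,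
    K.kmin_eq, K.nbeq_eq, K.nble_eq, K.bif_b, K.lall_eq, K.lany_eq, K.lmap_eq, K.lfilter_eq,
    K.llen_eq, K.lemp_eq, K.lsum_eq, K.lgetD_eq, K.lmem_eq, K.contains_eq, K.nodup_eq, K.lrange_eq,
    K.lapp_eq, K.lflat_eq, K.lfmap_eq, K.ltake_eq, K.lfoldl_eq, K.leq_eq, decide_eq_true_eq, ne_eq,
    decide_not, Bool.decide_and, Bool.decide_or, Bool.decide_eq_true, Bool.decide_eq_false,
    Nat.succ_eq_add_one, Bool.beq_eq_decide_eq, bne, Bool.not_eq_true', Bool.or_eq_true,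
    Bool.and_eq_true, K.Pa_good_eq, K.Pa_flips_eq, K.XE_sta_eq, K.Fc_XX_eq, K.XE_ringOk_eq,
    K.OD_stat_eq, K.CD_chk_eq, K.Fc_bf_eq, K.Fc_gb_eq, K.djs_eq, K.cqc_eq, K.Fc_ne_eq, K.Fc_chkS_eq,
    K.Fc_chkL_eq, K.Fc_chkQ_eq, K.Fc_chkK_eq, K.Fc_chkR_eq, K.allN_eq] <;> rfl

noncomputable def WG_chkH (W : FC7.WG) (Δ : ℕ) : Bool :=
  (K.band (K.band (K.band (K.band (K.band (K.band (K.band (K.band (K.band (K.WF_chk (FC7.WG.toWF W)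
    Δ) (K.Cf_chk (K.WG_cf W))) (K.Cf_chkL (K.WG_cf W) (FC7.Wt.lt (FC7.WF.toWt (FC7.WG.toWF W)))))
    (K.Cf_chk4 (K.WG_cf W) (K.WG_bg W))) (K.lall (FC7.WF.dq (FC7.WG.toWF W)) (fun (q : ℕ × ℕ) =>
    (K.Cf_sd (K.WG_cf W) (Prod.fst q) (Prod.snd q))))) (K.lall (FC7.WF.nq (FC7.WG.toWF W)) (K.WG_nqc
    W))) (K.lall (FC7.WF.oq (FC7.WG.toWF W)) (K.WG_oqc W))) (Nat.beq (FC7.Fc.sm (FC7.WF.F
    (FC7.WG.toWF W))) (nat_lit 0))) (K.WF_chkB (FC7.WG.toWF W))) (K.Fc_chk (FC7.WF.F (FC7.WG.toWF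
    W)) Δ))

theorem WG_chkH_eq : @K.WG_chkH = @FC7.WG.chkH := by
  funext W Δ
  simp only [K.WG_chkH, FC7.WG.chkH, K.band_eq, K.bor_eq, K.bnot_eq, K.beqB_eq, K.tbit_eq,
    K.kmax_eq, K.kmin_eq, K.nbeq_eq, K.nble_eq, K.bif_b, K.lall_eq, K.lany_eq, K.lmap_eq,
    K.lfilter_eq, K.llen_eq, K.lemp_eq, K.lsum_eq, K.lgetD_eq, K.lmem_eq, K.contains_eq, K.nodup_eq,
    K.lrange_eq, K.lapp_eq, K.lflat_eq, K.lfmap_eq, K.ltake_eq, K.lfoldl_eq, K.leq_eq,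
    decide_eq_true_eq, ne_eq, decide_not, Bool.decide_and, Bool.decide_or, Bool.decide_eq_true,
    Bool.decide_eq_false, Nat.succ_eq_add_one, Bool.beq_eq_decide_eq, bne, Bool.not_eq_true',
    Bool.or_eq_true, Bool.and_eq_true, K.WF_chk_eq, K.Cf_chk_eq, K.WG_cf_eq, K.Cf_chkL_eq,
    K.Cf_chk4_eq, K.WG_bg_eq, K.Cf_sd_eq, K.WG_nqc_eq, K.WG_oqc_eq, K.WF_chkB_eq, K.Fc_chk_eq] <;>
    rfl

noncomputable def OD_rdp (P : FC6.Pa) (P' : FC6.Pa) (a : ℕ) : ℕ :=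
  (K.sumN (FC6.Pa.n P) (fun (i : ℕ) => (Bool.rec (motive := fun _ => ℕ) (nat_lit 0) (nat_lit 1)
    (K.band (FC6.Pa.real P' i) (Nat.beq (FC6.Pa.l P' i) a)))))

theorem OD_rdp_eq : @K.OD_rdp = @FC7.OD.rd' := by
  funext P P' a
  simp only [K.OD_rdp, FC7.OD.rd', K.band_eq, K.bor_eq, K.bnot_eq, K.beqB_eq, K.tbit_eq, K.kmax_eq,
    K.kmin_eq, K.nbeq_eq, K.nble_eq, K.bif_b, K.lall_eq, K.lany_eq, K.lmap_eq, K.lfilter_eq,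
    K.llen_eq, K.lemp_eq, K.lsum_eq, K.lgetD_eq, K.lmem_eq, K.contains_eq, K.nodup_eq, K.lrange_eq,
    K.lapp_eq, K.lflat_eq, K.lfmap_eq, K.ltake_eq, K.lfoldl_eq, K.leq_eq, decide_eq_true_eq, ne_eq,
    decide_not, Bool.decide_and, Bool.decide_or, Bool.decide_eq_true, Bool.decide_eq_false,
    Nat.succ_eq_add_one, Bool.beq_eq_decide_eq, bne, Bool.not_eq_true', Bool.or_eq_true,
    Bool.and_eq_true, K.sumN_eq] <;> rfl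

noncomputable def OD_nbp (X : FC7.OD) (P : FC6.Pa) (P' : FC6.Pa) : ℕ :=
  (K.sumN (FC7.OD.x X) (fun (a : ℕ) => (Bool.rec (motive := fun _ => ℕ) (nat_lit 0) (nat_lit 1)
    (K.band (Nat.ble (FC7.OD.lo X) a) (Nat.ble (nat_lit 4) (K.OD_rdp P P' a))))))

theorem OD_nbp_eq : @K.OD_nbp = @FC7.OD.nb' := by
  funext X P P'
  simp only [K.OD_nbp, FC7.OD.nb', K.band_eq, K.bor_eq, K.bnot_eq, K.beqB_eq, K.tbit_eq, K.kmax_eq,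
    K.kmin_eq, K.nbeq_eq, K.nble_eq, K.bif_b, K.lall_eq, K.lany_eq, K.lmap_eq, K.lfilter_eq,
    K.llen_eq, K.lemp_eq, K.lsum_eq, K.lgetD_eq, K.lmem_eq, K.contains_eq, K.nodup_eq, K.lrange_eq,
    K.lapp_eq, K.lflat_eq, K.lfmap_eq, K.ltake_eq, K.lfoldl_eq, K.leq_eq, decide_eq_true_eq, ne_eq,
    decide_not, Bool.decide_and, Bool.decide_or, Bool.decide_eq_true, Bool.decide_eq_false,
    Nat.succ_eq_add_one, Bool.beq_eq_decide_eq, bne, Bool.not_eq_true', Bool.or_eq_true,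
    Bool.and_eq_true, K.sumN_eq, K.OD_rdp_eq] <;> rfl

noncomputable def Fc_chkC (F : FC7.Fc) : Bool :=
  (K.band (K.allN (FC6.Pa.n (FC7.Fc.P F)) (fun (j : ℕ) => (K.bor (K.bor (K.bor (K.bor (K.bor (K.bor
    (K.bnot (Nat.beq (FC6.Pa.α (FC7.Fc.P F) j) j)) (FC6.Pa.real (FC7.Fc.P F) j)) (Nat.beq (FC7.Fc.ty
    F (FC7.OD.pc (FC7.Fc.O F) j)) (nat_lit 0))) (Nat.beq (FC7.Fc.ty F (FC7.OD.pc (FC7.Fc.O F) j))
    (nat_lit 3))) (FC7.Fc.op F j)) (FC7.Fc.tw F j)) (FC7.Fc.oz F j)))) (K.allN (FC6.Pa.n (FC7.Fc.P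
    F)) (fun (i : ℕ) => (K.bor (K.bor (K.bor (K.bor (K.bnot (FC7.Fc.uk F i)) (Nat.beq (FC7.Fc.ty F
    (FC7.OD.pc (FC7.Fc.O F) (FC7.Fc.kp F i))) (nat_lit 0))) (Nat.beq (FC7.Fc.ty F (FC7.OD.pc
    (FC7.Fc.O F) (FC7.Fc.kp F i))) (nat_lit 3))) (FC7.Fc.tw F i)) (K.band (FC7.Fc.oz F (FC7.Fc.kr F
    i)) (Nat.beq (FC7.OD.pc (FC7.Fc.O F) (FC7.Fc.kr F i)) (FC7.OD.pc (FC7.Fc.O F) (FC7.Fc.kp F
    i))))))))

theorem Fc_chkC_eq : @K.Fc_chkC = @FC7.Fc.chkC := by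
  funext F
  simp only [K.Fc_chkC, FC7.Fc.chkC, K.band_eq, K.bor_eq, K.bnot_eq, K.beqB_eq, K.tbit_eq,
    K.kmax_eq, K.kmin_eq, K.nbeq_eq, K.nble_eq, K.bif_b, K.lall_eq, K.lany_eq, K.lmap_eq,
    K.lfilter_eq, K.llen_eq, K.lemp_eq, K.lsum_eq, K.lgetD_eq, K.lmem_eq, K.contains_eq, K.nodup_eq,
    K.lrange_eq, K.lapp_eq, K.lflat_eq, K.lfmap_eq, K.ltake_eq, K.lfoldl_eq, K.leq_eq,
    decide_eq_true_eq, ne_eq, decide_not, Bool.decide_and, Bool.decide_or, Bool.decide_eq_true,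
    Bool.decide_eq_false, Nat.succ_eq_add_one, Bool.beq_eq_decide_eq, bne, Bool.not_eq_true',
    Bool.or_eq_true, Bool.and_eq_true, K.allN_eq] <;> rfl

noncomputable def OD_nlbp (X : FC7.OD) (P : FC6.Pa) : ℕ :=
  (K.sumN (FC6.Pa.n P) (fun (i : ℕ) => (Bool.rec (motive := fun _ => ℕ) (nat_lit 0) (Bool.rec
    (motive := fun _ => ℕ) (nat_lit 1) (nat_lit 2) (K.OD_rg X P i)) (FC7.OD.lb' X i))))

theorem OD_nlbp_eq : @K.OD_nlbp = @FC7.OD.nlb' := by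
  funext X P
  simp only [K.OD_nlbp, FC7.OD.nlb', K.band_eq, K.bor_eq, K.bnot_eq, K.beqB_eq, K.tbit_eq,
    K.kmax_eq, K.kmin_eq, K.nbeq_eq, K.nble_eq, K.bif_b, K.lall_eq, K.lany_eq, K.lmap_eq,
    K.lfilter_eq, K.llen_eq, K.lemp_eq, K.lsum_eq, K.lgetD_eq, K.lmem_eq, K.contains_eq, K.nodup_eq,
    K.lrange_eq, K.lapp_eq, K.lflat_eq, K.lfmap_eq, K.ltake_eq, K.lfoldl_eq, K.leq_eq,
    decide_eq_true_eq, ne_eq, decide_not, Bool.decide_and, Bool.decide_or, Bool.decide_eq_true,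
    Bool.decide_eq_false, Nat.succ_eq_add_one, Bool.beq_eq_decide_eq, bne, Bool.not_eq_true',
    Bool.or_eq_true, Bool.and_eq_true, K.sumN_eq, K.OD_rg_eq] <;> rfl

noncomputable def OD_nsp (X : FC7.OD) (P : FC6.Pa) (P' : FC6.Pa) : ℕ :=
  (K.sumN (FC7.OD.x X) (fun (a : ℕ) => (Bool.rec (motive := fun _ => ℕ) (nat_lit 0) (nat_lit 1)
    (K.band (Nat.ble (FC7.OD.lo X) a) (Nat.ble (Nat.succ (K.OD_rdp P P' a)) (nat_lit 4))))))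

theorem OD_nsp_eq : @K.OD_nsp = @FC7.OD.ns' := by
  funext X P P'
  simp only [K.OD_nsp, FC7.OD.ns', K.band_eq, K.bor_eq, K.bnot_eq, K.beqB_eq, K.tbit_eq, K.kmax_eq,
    K.kmin_eq, K.nbeq_eq, K.nble_eq, K.bif_b, K.lall_eq, K.lany_eq, K.lmap_eq, K.lfilter_eq,
    K.llen_eq, K.lemp_eq, K.lsum_eq, K.lgetD_eq, K.lmem_eq, K.contains_eq, K.nodup_eq, K.lrange_eq,
    K.lapp_eq, K.lflat_eq, K.lfmap_eq, K.ltake_eq, K.lfoldl_eq, K.leq_eq, decide_eq_true_eq, ne_eq,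
    decide_not, Bool.decide_and, Bool.decide_or, Bool.decide_eq_true, Bool.decide_eq_false,
    Nat.succ_eq_add_one, Bool.beq_eq_decide_eq, bne, Bool.not_eq_true', Bool.or_eq_true,
    Bool.and_eq_true, K.sumN_eq, K.OD_rdp_eq] <;> rfl

noncomputable def Fc_cop (F : FC7.Fc) : ℕ :=
  (Nat.add (Nat.add (K.sumN (FC6.Pa.n (FC7.Fc.P F)) (fun (i : ℕ) => (Nat.mul (FC6.Pa.u (FC7.Fc.P' F)
    i) (Bool.rec (motive := fun _ => ℕ) (nat_lit 3054) (nat_lit 2024) (K.bor (Nat.beq (FC7.Fc.ty F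
    (FC7.OD.pc (FC7.Fc.O F) i)) (nat_lit 0)) (Nat.beq (FC7.Fc.ty F (FC7.OD.pc (FC7.Fc.O F) i))
    (nat_lit 3))))))) (Nat.mul (nat_lit 3054) (K.OD_nlbp (FC7.Fc.O F) (FC7.Fc.P F)))) (Nat.mul
    (nat_lit 6120) (K.OD_nsp (FC7.Fc.O F) (FC7.Fc.P F) (FC7.Fc.P' F))))

theorem Fc_cop_eq : @K.Fc_cop = @FC7.Fc.co' := by
  funext F
  simp only [K.Fc_cop, FC7.Fc.co', K.band_eq, K.bor_eq, K.bnot_eq, K.beqB_eq, K.tbit_eq, K.kmax_eq,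
    K.kmin_eq, K.nbeq_eq, K.nble_eq, K.bif_b, K.lall_eq, K.lany_eq, K.lmap_eq, K.lfilter_eq,
    K.llen_eq, K.lemp_eq, K.lsum_eq, K.lgetD_eq, K.lmem_eq, K.contains_eq, K.nodup_eq, K.lrange_eq,
    K.lapp_eq, K.lflat_eq, K.lfmap_eq, K.ltake_eq, K.lfoldl_eq, K.leq_eq, decide_eq_true_eq, ne_eq,
    decide_not, Bool.decide_and, Bool.decide_or, Bool.decide_eq_true, Bool.decide_eq_false,
    Nat.succ_eq_add_one, Bool.beq_eq_decide_eq, bne, Bool.not_eq_true', Bool.or_eq_true,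
    Bool.and_eq_true, K.sumN_eq, K.OD_nlbp_eq, K.OD_nsp_eq] <;> rfl

noncomputable def OD_nlb (X : FC7.OD) (P : FC6.Pa) : ℕ :=
  (K.sumN (FC6.Pa.n P) (fun (i : ℕ) => (Bool.rec (motive := fun _ => ℕ) (nat_lit 0) (Bool.rec
    (motive := fun _ => ℕ) (nat_lit 1) (nat_lit 2) (K.OD_rg X P i)) (FC7.OD.lb X i))))

theorem OD_nlb_eq : @K.OD_nlb = @FC7.OD.nlb := by
  funext X P
  simp only [K.OD_nlb, FC7.OD.nlb, K.band_eq, K.bor_eq, K.bnot_eq, K.beqB_eq, K.tbit_eq, K.kmax_eq,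
    K.kmin_eq, K.nbeq_eq, K.nble_eq, K.bif_b, K.lall_eq, K.lany_eq, K.lmap_eq, K.lfilter_eq,
    K.llen_eq, K.lemp_eq, K.lsum_eq, K.lgetD_eq, K.lmem_eq, K.contains_eq, K.nodup_eq, K.lrange_eq,
    K.lapp_eq, K.lflat_eq, K.lfmap_eq, K.ltake_eq, K.lfoldl_eq, K.leq_eq, decide_eq_true_eq, ne_eq,
    decide_not, Bool.decide_and, Bool.decide_or, Bool.decide_eq_true, Bool.decide_eq_false,
    Nat.succ_eq_add_one, Bool.beq_eq_decide_eq, bne, Bool.not_eq_true', Bool.or_eq_true,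
    Bool.and_eq_true, K.sumN_eq, K.OD_rg_eq] <;> rfl

noncomputable def Fc_co (F : FC7.Fc) : ℕ :=
  (Nat.add (K.sumN (FC6.Pa.n (FC7.Fc.P F)) (fun (i : ℕ) => (Nat.mul (FC6.Pa.u (FC7.Fc.P F) i)
    (Bool.rec (motive := fun _ => ℕ) (nat_lit 2024) (nat_lit 3054) (FC7.Fc.tw F i))))) (Nat.mul
    (nat_lit 3054) (K.OD_nlb (FC7.Fc.O F) (FC7.Fc.P F))))

theorem Fc_co_eq : @K.Fc_co = @FC7.Fc.co := by
  funext F
  simp only [K.Fc_co, FC7.Fc.co, K.band_eq, K.bor_eq, K.bnot_eq, K.beqB_eq, K.tbit_eq, K.kmax_eq,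
    K.kmin_eq, K.nbeq_eq, K.nble_eq, K.bif_b, K.lall_eq, K.lany_eq, K.lmap_eq, K.lfilter_eq,
    K.llen_eq, K.lemp_eq, K.lsum_eq, K.lgetD_eq, K.lmem_eq, K.contains_eq, K.nodup_eq, K.lrange_eq,
    K.lapp_eq, K.lflat_eq, K.lfmap_eq, K.ltake_eq, K.lfoldl_eq, K.leq_eq, decide_eq_true_eq, ne_eq,
    decide_not, Bool.decide_and, Bool.decide_or, Bool.decide_eq_true, Bool.decide_eq_false,
    Nat.succ_eq_add_one, Bool.beq_eq_decide_eq, bne, Bool.not_eq_true', Bool.or_eq_true,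
    Bool.and_eq_true, K.sumN_eq, K.OD_nlb_eq] <;> rfl

noncomputable def Fc_chkM (F : FC7.Fc) (e : ℕ) : Bool :=
  (K.bor (Nat.ble (Nat.succ (K.OD_nbp (FC7.Fc.O F) (FC7.Fc.P F) (FC7.Fc.P' F))) (FC7.OD.x (FC7.Fc.O
    F))) (K.band (K.band (Nat.ble (K.OD_nbp (FC7.Fc.O F) (FC7.Fc.P F) (FC7.Fc.P' F)) (FC7.OD.x
    (FC7.Fc.O F))) (K.Fc_chkC F)) (Nat.ble (Nat.succ (Nat.add (K.Fc_cop F) e)) (K.Fc_co F))))

theorem Fc_chkM_eq : @K.Fc_chkM = @FC7.Fc.chkM := by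
  funext F e
  simp only [K.Fc_chkM, FC7.Fc.chkM, K.band_eq, K.bor_eq, K.bnot_eq, K.beqB_eq, K.tbit_eq,
    K.kmax_eq, K.kmin_eq, K.nbeq_eq, K.nble_eq, K.bif_b, K.lall_eq, K.lany_eq, K.lmap_eq,
    K.lfilter_eq, K.llen_eq, K.lemp_eq, K.lsum_eq, K.lgetD_eq, K.lmem_eq, K.contains_eq, K.nodup_eq,
    K.lrange_eq, K.lapp_eq, K.lflat_eq, K.lfmap_eq, K.ltake_eq, K.lfoldl_eq, K.leq_eq,
    decide_eq_true_eq, ne_eq, decide_not, Bool.decide_and, Bool.decide_or, Bool.decide_eq_true,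
    Bool.decide_eq_false, Nat.succ_eq_add_one, Bool.beq_eq_decide_eq, bne, Bool.not_eq_true',
    Bool.or_eq_true, Bool.and_eq_true, K.OD_nbp_eq, K.Fc_chkC_eq, K.Fc_cop_eq, K.Fc_co_eq] <;> rfl

noncomputable def Fc_chkN (F : FC7.Fc) : Bool :=
  (K.band (K.band (K.band (Nat.ble (K.OD_nbp (FC7.Fc.O F) (FC7.Fc.P F) (FC7.Fc.P' F)) (FC7.OD.x
    (FC7.Fc.O F))) (K.Fc_chkC F)) (Nat.ble (K.Fc_cop F) (K.Fc_co F))) (Nat.ble (Nat.succ (K.sumN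
    (FC6.Pa.n (FC7.Fc.P F)) (fun (i : ℕ) => (Bool.rec (motive := fun _ => ℕ) (nat_lit 0) (nat_lit 1)
    (FC6.Pa.real (FC7.Fc.P F) i))))) (K.sumN (FC6.Pa.n (FC7.Fc.P F)) (fun (i : ℕ) => (Bool.rec
    (motive := fun _ => ℕ) (nat_lit 0) (nat_lit 1) (FC6.Pa.real (FC7.Fc.P' F) i))))))

theorem Fc_chkN_eq : @K.Fc_chkN = @FC7.Fc.chkN := by
  funext F
  simp only [K.Fc_chkN, FC7.Fc.chkN, K.band_eq, K.bor_eq, K.bnot_eq, K.beqB_eq, K.tbit_eq,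
    K.kmax_eq, K.kmin_eq, K.nbeq_eq, K.nble_eq, K.bif_b, K.lall_eq, K.lany_eq, K.lmap_eq,
    K.lfilter_eq, K.llen_eq, K.lemp_eq, K.lsum_eq, K.lgetD_eq, K.lmem_eq, K.contains_eq, K.nodup_eq,
    K.lrange_eq, K.lapp_eq, K.lflat_eq, K.lfmap_eq, K.ltake_eq, K.lfoldl_eq, K.leq_eq,
    decide_eq_true_eq, ne_eq, decide_not, Bool.decide_and, Bool.decide_or, Bool.decide_eq_true,
    Bool.decide_eq_false, Nat.succ_eq_add_one, Bool.beq_eq_decide_eq, bne, Bool.not_eq_true',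
    Bool.or_eq_true, Bool.and_eq_true, K.OD_nbp_eq, K.Fc_chkC_eq, K.Fc_cop_eq, K.Fc_co_eq,
    K.sumN_eq] <;> rfl

noncomputable def WG_chkOp (W : FC7.WG) (Δ : ℕ) : Bool :=
  (K.band (K.WG_chkH W Δ) (K.bor (K.Fc_chkM (FC7.WF.F (FC7.WG.toWF W)) (nat_lit 0)) (K.Fc_chkN
    (FC7.WF.F (FC7.WG.toWF W)))))

theorem WG_chkOp_eq : @K.WG_chkOp = @FC7.WG.chkO' := by
  funext W Δ
  simp only [K.WG_chkOp, FC7.WG.chkO', K.band_eq, K.bor_eq, K.bnot_eq, K.beqB_eq, K.tbit_eq,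
    K.kmax_eq, K.kmin_eq, K.nbeq_eq, K.nble_eq, K.bif_b, K.lall_eq, K.lany_eq, K.lmap_eq,
    K.lfilter_eq, K.llen_eq, K.lemp_eq, K.lsum_eq, K.lgetD_eq, K.lmem_eq, K.contains_eq, K.nodup_eq,
    K.lrange_eq, K.lapp_eq, K.lflat_eq, K.lfmap_eq, K.ltake_eq, K.lfoldl_eq, K.leq_eq,
    decide_eq_true_eq, ne_eq, decide_not, Bool.decide_and, Bool.decide_or, Bool.decide_eq_true,
    Bool.decide_eq_false, Nat.succ_eq_add_one, Bool.beq_eq_decide_eq, bne, Bool.not_eq_true',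
    Bool.or_eq_true, Bool.and_eq_true, K.WG_chkH_eq, K.Fc_chkM_eq, K.Fc_chkN_eq] <;> rfl

noncomputable def isO (l : ℕ) : Bool :=
  (K.bor (K.bor (Nat.beq (Nat.mod l (nat_lit 256)) (nat_lit 76)) (Nat.beq (Nat.mod l (nat_lit 256))
    (nat_lit 92))) (Nat.beq (Nat.mod l (nat_lit 256)) (nat_lit 108)))

theorem isO_eq : @K.isO = @FC7.isO := by
  funext l
  simp only [K.isO, FC7.isO, K.band_eq, K.bor_eq, K.bnot_eq, K.beqB_eq, K.tbit_eq, K.kmax_eq,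
    K.kmin_eq, K.nbeq_eq, K.nble_eq, K.bif_b, K.lall_eq, K.lany_eq, K.lmap_eq, K.lfilter_eq,
    K.llen_eq, K.lemp_eq, K.lsum_eq, K.lgetD_eq, K.lmem_eq, K.contains_eq, K.nodup_eq, K.lrange_eq,
    K.lapp_eq, K.lflat_eq, K.lfmap_eq, K.ltake_eq, K.lfoldl_eq, K.leq_eq, decide_eq_true_eq, ne_eq,
    decide_not, Bool.decide_and, Bool.decide_or, Bool.decide_eq_true, Bool.decide_eq_false,
    Nat.succ_eq_add_one, Bool.beq_eq_decide_eq, bne, Bool.not_eq_true', Bool.or_eq_true,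
    Bool.and_eq_true] <;> rfl

noncomputable def o2 (l : ℕ) : ℕ :=
  (Bool.rec (motive := fun _ => ℕ) l (Nat.add l (nat_lit 52)) (K.isO l))

theorem o2_eq : @K.o2 = @FC7.o2 := by
  funext l
  simp only [K.o2, FC7.o2, K.band_eq, K.bor_eq, K.bnot_eq, K.beqB_eq, K.tbit_eq, K.kmax_eq,
    K.kmin_eq, K.nbeq_eq, K.nble_eq, K.bif_b, K.lall_eq, K.lany_eq, K.lmap_eq, K.lfilter_eq,
    K.llen_eq, K.lemp_eq, K.lsum_eq, K.lgetD_eq, K.lmem_eq, K.contains_eq, K.nodup_eq, K.lrange_eq,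
    K.lapp_eq, K.lflat_eq, K.lfmap_eq, K.ltake_eq, K.lfoldl_eq, K.leq_eq, decide_eq_true_eq, ne_eq,
    decide_not, Bool.decide_and, Bool.decide_or, Bool.decide_eq_true, Bool.decide_eq_false,
    Nat.succ_eq_add_one, Bool.beq_eq_decide_eq, bne, Bool.not_eq_true', Bool.or_eq_true,
    Bool.and_eq_true, K.isO_eq] <;> rfl

noncomputable def is4 (l : ℕ) : Bool :=
  (K.bor (K.bor (K.bor (Nat.beq l (nat_lit 92)) (Nat.beq l (nat_lit 348))) (Nat.beq l (nat_lit 80)))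
    (Nat.beq l (nat_lit 336)))

theorem is4_eq : @K.is4 = @FC7.is4 := by
  funext l
  simp only [K.is4, FC7.is4, K.band_eq, K.bor_eq, K.bnot_eq, K.beqB_eq, K.tbit_eq, K.kmax_eq,
    K.kmin_eq, K.nbeq_eq, K.nble_eq, K.bif_b, K.lall_eq, K.lany_eq, K.lmap_eq, K.lfilter_eq,
    K.llen_eq, K.lemp_eq, K.lsum_eq, K.lgetD_eq, K.lmem_eq, K.contains_eq, K.nodup_eq, K.lrange_eq,
    K.lapp_eq, K.lflat_eq, K.lfmap_eq, K.ltake_eq, K.lfoldl_eq, K.leq_eq, decide_eq_true_eq, ne_eq,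
    decide_not, Bool.decide_and, Bool.decide_or, Bool.decide_eq_true, Bool.decide_eq_false,
    Nat.succ_eq_add_one, Bool.beq_eq_decide_eq, bne, Bool.not_eq_true', Bool.or_eq_true,
    Bool.and_eq_true] <;> rfl

noncomputable def isz (l : ℕ) : Bool :=
  (K.bor (K.bor (K.bor (K.bor (K.is4 l) (Nat.beq l (nat_lit 76))) (Nat.beq l (nat_lit 332)))
    (Nat.beq l (nat_lit 64))) (Nat.beq l (nat_lit 320)))

theorem isz_eq : @K.isz = @FC7.isz := by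
  funext l
  simp only [K.isz, FC7.isz, K.band_eq, K.bor_eq, K.bnot_eq, K.beqB_eq, K.tbit_eq, K.kmax_eq,
    K.kmin_eq, K.nbeq_eq, K.nble_eq, K.bif_b, K.lall_eq, K.lany_eq, K.lmap_eq, K.lfilter_eq,
    K.llen_eq, K.lemp_eq, K.lsum_eq, K.lgetD_eq, K.lmem_eq, K.contains_eq, K.nodup_eq, K.lrange_eq,
    K.lapp_eq, K.lflat_eq, K.lfmap_eq, K.ltake_eq, K.lfoldl_eq, K.leq_eq, decide_eq_true_eq, ne_eq,
    decide_not, Bool.decide_and, Bool.decide_or, Bool.decide_eq_true, Bool.decide_eq_false,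
    Nat.succ_eq_add_one, Bool.beq_eq_decide_eq, bne, Bool.not_eq_true', Bool.or_eq_true,
    Bool.and_eq_true, K.is4_eq] <;> rfl

noncomputable def rc4 (l : ℕ) : ℕ :=
  (Bool.rec (motive := fun _ => ℕ) (Nat.add l (nat_lit 12)) l (K.bor (Nat.beq (Nat.mod l (nat_lit
    256)) (nat_lit 92)) (Nat.beq (Nat.mod l (nat_lit 256)) (nat_lit 76))))

theorem rc4_eq : @K.rc4 = @FC7.rc4 := by
  funext l
  simp only [K.rc4, FC7.rc4, K.band_eq, K.bor_eq, K.bnot_eq, K.beqB_eq, K.tbit_eq, K.kmax_eq,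
    K.kmin_eq, K.nbeq_eq, K.nble_eq, K.bif_b, K.lall_eq, K.lany_eq, K.lmap_eq, K.lfilter_eq,
    K.llen_eq, K.lemp_eq, K.lsum_eq, K.lgetD_eq, K.lmem_eq, K.contains_eq, K.nodup_eq, K.lrange_eq,
    K.lapp_eq, K.lflat_eq, K.lfmap_eq, K.ltake_eq, K.lfoldl_eq, K.leq_eq, decide_eq_true_eq, ne_eq,
    decide_not, Bool.decide_and, Bool.decide_or, Bool.decide_eq_true, Bool.decide_eq_false,
    Nat.succ_eq_add_one, Bool.beq_eq_decide_eq, bne, Bool.not_eq_true', Bool.or_eq_true,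
    Bool.and_eq_true] <;> rfl

noncomputable def relw (z : ℕ → Bool) (wd : List ℕ) (rc : List ℕ) : Bool :=
  (K.band (Nat.beq (K.llen rc) (K.llen wd)) (K.lall (K.lrange (K.llen wd)) (fun (i : ℕ) => (K.bor
    (Nat.beq (K.lgetD rc i (nat_lit 0)) (K.o2 (K.lgetD wd i (nat_lit 0)))) (K.band (K.band (z i)
    (K.isz (K.lgetD wd i (nat_lit 0)))) (Nat.beq (K.lgetD rc i (nat_lit 0)) (K.rc4 (K.lgetD wd i
    (nat_lit 0)))))))))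

theorem relw_eq : @K.relw = @FC7.relw := by
  funext z wd rc
  simp only [K.relw, FC7.relw, K.band_eq, K.bor_eq, K.bnot_eq, K.beqB_eq, K.tbit_eq, K.kmax_eq,
    K.kmin_eq, K.nbeq_eq, K.nble_eq, K.bif_b, K.lall_eq, K.lany_eq, K.lmap_eq, K.lfilter_eq,
    K.llen_eq, K.lemp_eq, K.lsum_eq, K.lgetD_eq, K.lmem_eq, K.contains_eq, K.nodup_eq, K.lrange_eq,
    K.lapp_eq, K.lflat_eq, K.lfmap_eq, K.ltake_eq, K.lfoldl_eq, K.leq_eq, decide_eq_true_eq, ne_eq,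
    decide_not, Bool.decide_and, Bool.decide_or, Bool.decide_eq_true, Bool.decide_eq_false,
    Nat.succ_eq_add_one, Bool.beq_eq_decide_eq, bne, Bool.not_eq_true', Bool.or_eq_true,
    Bool.and_eq_true, K.o2_eq, K.isz_eq, K.rc4_eq] <;> rfl

noncomputable def cz (w0 : List ℕ) (nb : List (ℕ × List ℕ)) (i : ℕ) : Bool :=
  (K.band (K.band (K.is4 (K.lgetD w0 i (nat_lit 0))) (K.lany nb (fun (p : ℕ × List ℕ) => (K.band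
    (Nat.beq (Prod.fst p) i) (K.isz (K.lgetD (Prod.snd p) (Nat.sub (K.llen (Prod.snd p)) (nat_lit
    1)) (nat_lit 0))))))) (K.lany nb (fun (p : ℕ × List ℕ) => (K.band (Nat.beq (Prod.fst p) (Nat.mod
    (Nat.add i (nat_lit 1)) (K.llen w0))) (K.isz (K.lgetD (Prod.snd p) (nat_lit 0) (nat_lit 0)))))))

theorem cz_eq : @K.cz = @FC7.cz := by
  funext w0 nb i
  simp only [K.cz, FC7.cz, K.band_eq, K.bor_eq, K.bnot_eq, K.beqB_eq, K.tbit_eq, K.kmax_eq,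
    K.kmin_eq, K.nbeq_eq, K.nble_eq, K.bif_b, K.lall_eq, K.lany_eq, K.lmap_eq, K.lfilter_eq,
    K.llen_eq, K.lemp_eq, K.lsum_eq, K.lgetD_eq, K.lmem_eq, K.contains_eq, K.nodup_eq, K.lrange_eq,
    K.lapp_eq, K.lflat_eq, K.lfmap_eq, K.ltake_eq, K.lfoldl_eq, K.leq_eq, decide_eq_true_eq, ne_eq,
    decide_not, Bool.decide_and, Bool.decide_or, Bool.decide_eq_true, Bool.decide_eq_false,
    Nat.succ_eq_add_one, Bool.beq_eq_decide_eq, bne, Bool.not_eq_true', Bool.or_eq_true,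
    Bool.and_eq_true, K.is4_eq, K.isz_eq] <;> rfl

noncomputable def chp : List (ℕ × ℕ) :=
  (List.cons (Prod.mk (nat_lit 64) (nat_lit 68)) (List.cons (Prod.mk (nat_lit 64) (nat_lit 72))
    (List.cons (Prod.mk (nat_lit 64) (nat_lit 76)) (List.cons (Prod.mk (nat_lit 80) (nat_lit 84))
    (List.cons (Prod.mk (nat_lit 80) (nat_lit 88)) (List.cons (Prod.mk (nat_lit 80) (nat_lit 92))
    (List.cons (Prod.mk (nat_lit 96) (nat_lit 100)) (List.cons (Prod.mk (nat_lit 96) (nat_lit 104))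
    (List.cons (Prod.mk (nat_lit 96) (nat_lit 108)) (List.cons (Prod.mk (nat_lit 65) (nat_lit 69))
    (List.cons (Prod.mk (nat_lit 65) (nat_lit 73)) (List.cons (Prod.mk (nat_lit 81) (nat_lit 85))
    (List.cons (Prod.mk (nat_lit 81) (nat_lit 89)) (List.cons (Prod.mk (nat_lit 97) (nat_lit 101))
    (List.cons (Prod.mk (nat_lit 97) (nat_lit 105)) (List.cons (Prod.mk (nat_lit 1085) (nat_lit 21))
    (List.cons (Prod.mk (nat_lit 1085) (nat_lit 9)) (List.cons (Prod.mk (nat_lit 1085) (nat_lit 33))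
    (List.cons (Prod.mk (nat_lit 1086) (nat_lit 6)) (List.cons (Prod.mk (nat_lit 1086) (nat_lit 18))
    (List.cons (Prod.mk (nat_lit 4156) (nat_lit 0)) (List.cons (Prod.mk (nat_lit 4156) (nat_lit 24))
    (List.cons (Prod.mk (nat_lit 4156) (nat_lit 36)) (List.cons (Prod.mk (nat_lit 6204) (nat_lit 0))
    (List.cons (Prod.mk (nat_lit 6204) (nat_lit 24)) (List.cons (Prod.mk (nat_lit 6204) (nat_lit
    36)) (List.cons (Prod.mk (nat_lit 6204) (nat_lit 512)) ([] : List (ℕ ×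
    ℕ)))))))))))))))))))))))))))))

theorem chp_eq : @K.chp = @FC7.chp := by
  simp only [K.chp, FC7.chp, K.band_eq, K.bor_eq, K.bnot_eq, K.beqB_eq, K.tbit_eq, K.kmax_eq,
    K.kmin_eq, K.nbeq_eq, K.nble_eq, K.bif_b, K.lall_eq, K.lany_eq, K.lmap_eq, K.lfilter_eq,
    K.llen_eq, K.lemp_eq, K.lsum_eq, K.lgetD_eq, K.lmem_eq, K.contains_eq, K.nodup_eq, K.lrange_eq,
    K.lapp_eq, K.lflat_eq, K.lfmap_eq, K.ltake_eq, K.lfoldl_eq, K.leq_eq, decide_eq_true_eq, ne_eq,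
    decide_not, Bool.decide_and, Bool.decide_or, Bool.decide_eq_true, Bool.decide_eq_false,
    Nat.succ_eq_add_one, Bool.beq_eq_decide_eq, bne, Bool.not_eq_true', Bool.or_eq_true,
    Bool.and_eq_true] <;> rfl

noncomputable def nkl (l : ℕ) : Bool :=
  (K.bor (K.band (K.band (Nat.ble (Nat.succ l) (nat_lit 1024)) (K.bnot (Nat.beq (K.wk l) (nat_lit
    2)))) (K.bor (K.bnot (K.uo l)) (K.bnot (Nat.beq (K.lK l) (nat_lit 0))))) (K.lany K.chp (fun (p :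
    ℕ × ℕ) => (Nat.beq (Prod.fst p) l))))

theorem nkl_eq : @K.nkl = @FC7.nkl := by
  funext l
  simp only [K.nkl, FC7.nkl, K.band_eq, K.bor_eq, K.bnot_eq, K.beqB_eq, K.tbit_eq, K.kmax_eq,
    K.kmin_eq, K.nbeq_eq, K.nble_eq, K.bif_b, K.lall_eq, K.lany_eq, K.lmap_eq, K.lfilter_eq,
    K.llen_eq, K.lemp_eq, K.lsum_eq, K.lgetD_eq, K.lmem_eq, K.contains_eq, K.nodup_eq, K.lrange_eq,
    K.lapp_eq, K.lflat_eq, K.lfmap_eq, K.ltake_eq, K.lfoldl_eq, K.leq_eq, decide_eq_true_eq, ne_eq,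
    decide_not, Bool.decide_and, Bool.decide_or, Bool.decide_eq_true, Bool.decide_eq_false,
    Nat.succ_eq_add_one, Bool.beq_eq_decide_eq, bne, Bool.not_eq_true', Bool.or_eq_true,
    Bool.and_eq_true, K.wk_eq, K.uo_eq, K.lK_eq, K.chp_eq] <;> rfl

noncomputable def nk2 (wd : List ℕ) : Bool :=
  (K.lall wd K.nkl)

theorem nk2_eq : @K.nk2 = @FC7.nk2 := by
  funext wd
  simp only [K.nk2, FC7.nk2, K.band_eq, K.bor_eq, K.bnot_eq, K.beqB_eq, K.tbit_eq, K.kmax_eq,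
    K.kmin_eq, K.nbeq_eq, K.nble_eq, K.bif_b, K.lall_eq, K.lany_eq, K.lmap_eq, K.lfilter_eq,
    K.llen_eq, K.lemp_eq, K.lsum_eq, K.lgetD_eq, K.lmem_eq, K.contains_eq, K.nodup_eq, K.lrange_eq,
    K.lapp_eq, K.lflat_eq, K.lfmap_eq, K.ltake_eq, K.lfoldl_eq, K.leq_eq, decide_eq_true_eq, ne_eq,
    decide_not, Bool.decide_and, Bool.decide_or, Bool.decide_eq_true, Bool.decide_eq_false,
    Nat.succ_eq_add_one, Bool.beq_eq_decide_eq, bne, Bool.not_eq_true', Bool.or_eq_true,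
    Bool.and_eq_true, K.nkl_eq] <;> rfl

noncomputable def zn (w0 : List ℕ) (nb : List (ℕ × List ℕ)) (p : ℕ × List ℕ) (j : ℕ) : Bool :=
  (K.bor (K.band (Nat.beq (Nat.add j (nat_lit 1)) (K.llen (Prod.snd p))) (K.cz w0 nb (Prod.fst p)))
    (K.band (Nat.beq j (nat_lit 0)) (K.cz w0 nb (Nat.mod (Nat.sub (Nat.add (Prod.fst p) (K.llen w0))
    (nat_lit 1)) (K.llen w0)))))

theorem zn_eq : @K.zn = @FC7.zn := by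
  funext w0 nb p j
  simp only [K.zn, FC7.zn, K.band_eq, K.bor_eq, K.bnot_eq, K.beqB_eq, K.tbit_eq, K.kmax_eq,
    K.kmin_eq, K.nbeq_eq, K.nble_eq, K.bif_b, K.lall_eq, K.lany_eq, K.lmap_eq, K.lfilter_eq,
    K.llen_eq, K.lemp_eq, K.lsum_eq, K.lgetD_eq, K.lmem_eq, K.contains_eq, K.nodup_eq, K.lrange_eq,
    K.lapp_eq, K.lflat_eq, K.lfmap_eq, K.ltake_eq, K.lfoldl_eq, K.leq_eq, decide_eq_true_eq, ne_eq,
    decide_not, Bool.decide_and, Bool.decide_or, Bool.decide_eq_true, Bool.decide_eq_false,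
    Nat.succ_eq_add_one, Bool.beq_eq_decide_eq, bne, Bool.not_eq_true', Bool.or_eq_true,
    Bool.and_eq_true, K.cz_eq] <;> rfl

noncomputable def hasz (w0 : List ℕ) (nb : List (ℕ × List ℕ)) (i : ℕ) (wd : List ℕ) : Bool :=
  (K.lany nb (fun (p : ℕ × List ℕ) => (K.band (K.band (Nat.beq (Prod.fst p) i) (Nat.ble (Nat.succ
    (Prod.fst p)) (K.llen w0))) (K.relw (K.zn w0 nb p) (Prod.snd p) wd))))

theorem hasz_eq : @K.hasz = @FC7.hasz := by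
  funext w0 nb i wd
  simp only [K.hasz, FC7.hasz, K.band_eq, K.bor_eq, K.bnot_eq, K.beqB_eq, K.tbit_eq, K.kmax_eq,
    K.kmin_eq, K.nbeq_eq, K.nble_eq, K.bif_b, K.lall_eq, K.lany_eq, K.lmap_eq, K.lfilter_eq,
    K.llen_eq, K.lemp_eq, K.lsum_eq, K.lgetD_eq, K.lmem_eq, K.contains_eq, K.nodup_eq, K.lrange_eq,
    K.lapp_eq, K.lflat_eq, K.lfmap_eq, K.ltake_eq, K.lfoldl_eq, K.leq_eq, decide_eq_true_eq, ne_eq,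
    decide_not, Bool.decide_and, Bool.decide_or, Bool.decide_eq_true, Bool.decide_eq_false,
    Nat.succ_eq_add_one, Bool.beq_eq_decide_eq, bne, Bool.not_eq_true', Bool.or_eq_true,
    Bool.and_eq_true, K.relw_eq, K.zn_eq] <;> rfl

noncomputable def haso (nb : List (ℕ × List ℕ)) (i : ℕ) (wd : List ℕ) : Bool :=
  (K.lany nb (fun (p : ℕ × List ℕ) => (K.band (Nat.beq (Prod.fst p) i) (K.leq (K.lmap K.o2 (Prod.snd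
    p)) wd))))

theorem haso_eq : @K.haso = @FC7.haso := by
  funext nb i wd
  simp only [K.haso, FC7.haso, K.band_eq, K.bor_eq, K.bnot_eq, K.beqB_eq, K.tbit_eq, K.kmax_eq,
    K.kmin_eq, K.nbeq_eq, K.nble_eq, K.bif_b, K.lall_eq, K.lany_eq, K.lmap_eq, K.lfilter_eq,
    K.llen_eq, K.lemp_eq, K.lsum_eq, K.lgetD_eq, K.lmem_eq, K.contains_eq, K.nodup_eq, K.lrange_eq,
    K.lapp_eq, K.lflat_eq, K.lfmap_eq, K.ltake_eq, K.lfoldl_eq, K.leq_eq, decide_eq_true_eq, ne_eq,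
    decide_not, Bool.decide_and, Bool.decide_or, Bool.decide_eq_true, Bool.decide_eq_false,
    Nat.succ_eq_add_one, Bool.beq_eq_decide_eq, bne, Bool.not_eq_true', Bool.or_eq_true,
    Bool.and_eq_true, K.o2_eq] <;> rfl

noncomputable def WG_chkK (W : FC7.WG) (w0 : List ℕ) (nb : List (ℕ × List ℕ)) (kb : List (ℕ × List
  ℕ)) (pl : List ℕ) : Bool :=
  (K.band (K.band (K.band (K.band (K.band (K.band (K.band (K.band (Nat.ble (Nat.succ (nat_lit 0))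
    (FC6.Stars.nc (FC7.Wt.Z (FC7.WF.toWt (FC7.WG.toWF W))))) (FC7.Wt.ac (FC7.WF.toWt (FC7.WG.toWF
    W)) (nat_lit 0))) (K.relw (K.cz w0 nb) w0 (FC7.WG.wd W (nat_lit 0)))) (K.nk2 w0)) (K.lall
    (K.lapp nb kb) (fun (p : ℕ × List ℕ) => (K.nk2 (Prod.snd p))))) (K.allN (FC6.Stars.nc (FC7.Wt.Z
    (FC7.WF.toWt (FC7.WG.toWF W)))) (fun (a : ℕ) => (K.bor (Nat.beq a (nat_lit 0)) (K.band (Nat.beq
    (FC6.Stars.pa (FC7.Wt.Z (FC7.WF.toWt (FC7.WG.toWF W))) a) (nat_lit 0)) (K.bor (K.bnot (FC7.Wt.ac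
    (FC7.WF.toWt (FC7.WG.toWF W)) a)) (K.hasz w0 nb (FC7.WG.ra W a) (FC7.WG.wd W a)))))))) (K.allN
    (FC7.OD.m (FC7.Fc.O (FC7.WF.F (FC7.WG.toWF W)))) (fun (a : ℕ) => (K.bor (Nat.beq (FC7.OD.sl
    (FC7.Fc.O (FC7.WF.F (FC7.WG.toWF W))) a) (nat_lit 0)) (K.lany (K.lrange (K.llen w0)) (fun (r :
    ℕ) => (K.band (Nat.beq (FC7.WF.sc (FC7.WG.toWF W) a) (Nat.add (FC6.Stars.off (FC7.Wt.Z
    (FC7.WF.toWt (FC7.WG.toWF W))) (nat_lit 0)) (K.pos (FC7.WG.wd W (nat_lit 0)) r))) (K.haso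
    (K.lapp nb kb) r (FC7.WF.sw (FC7.WG.toWF W) a))))))))) (K.allN (FC6.Sp.ns (FC6.Stars.Q (FC7.Wt.Z
    (FC7.WF.toWt (FC7.WG.toWF W))))) (fun (i : ℕ) => (K.bor (K.lemp (FC7.WG.bw W i)) (K.lany
    (K.lrange (K.llen w0)) (fun (r : ℕ) => (K.band (Nat.beq i (Nat.add (FC6.Stars.off (FC7.Wt.Z
    (FC7.WF.toWt (FC7.WG.toWF W))) (nat_lit 0)) (K.pos (FC7.WG.wd W (nat_lit 0)) r))) (K.haso
    (K.lapp nb kb) r (FC7.WG.bw W i))))))))) (K.lall (FC7.WG.pl W) (fun (i : ℕ) => (K.lany (K.lrange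
    (K.llen w0)) (fun (r : ℕ) => (K.band (Nat.beq i (Nat.add (FC6.Stars.off (FC7.Wt.Z (FC7.WF.toWt
    (FC7.WG.toWF W))) (nat_lit 0)) (K.pos (FC7.WG.wd W (nat_lit 0)) r))) (K.lmem r pl)))))))

theorem WG_chkK_eq : @K.WG_chkK = @FC7.WG.chkK := by
  funext W w0 nb kb pl
  simp only [K.WG_chkK, FC7.WG.chkK, K.band_eq, K.bor_eq, K.bnot_eq, K.beqB_eq, K.tbit_eq,
    K.kmax_eq, K.kmin_eq, K.nbeq_eq, K.nble_eq, K.bif_b, K.lall_eq, K.lany_eq, K.lmap_eq,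
    K.lfilter_eq, K.llen_eq, K.lemp_eq, K.lsum_eq, K.lgetD_eq, K.lmem_eq, K.contains_eq, K.nodup_eq,
    K.lrange_eq, K.lapp_eq, K.lflat_eq, K.lfmap_eq, K.ltake_eq, K.lfoldl_eq, K.leq_eq,
    decide_eq_true_eq, ne_eq, decide_not, Bool.decide_and, Bool.decide_or, Bool.decide_eq_true,
    Bool.decide_eq_false, Nat.succ_eq_add_one, Bool.beq_eq_decide_eq, bne, Bool.not_eq_true',
    Bool.or_eq_true, Bool.and_eq_true, K.relw_eq, K.cz_eq, K.nk2_eq, K.allN_eq, K.hasz_eq, K.pos_eq,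
    K.haso_eq] <;> rfl

noncomputable def WG_chkCp (W : FC7.WG) (w0 : List ℕ) (nb : List (ℕ × List ℕ)) (pl : List ℕ) : Bool
  :=
  (K.WG_chkK W w0 nb ([] : List (ℕ × List ℕ)) pl)

theorem WG_chkCp_eq : @K.WG_chkCp = @FC7.WG.chkCp := by
  funext W w0 nb pl
  simp only [K.WG_chkCp, FC7.WG.chkCp, K.band_eq, K.bor_eq, K.bnot_eq, K.beqB_eq, K.tbit_eq,
    K.kmax_eq, K.kmin_eq, K.nbeq_eq, K.nble_eq, K.bif_b, K.lall_eq, K.lany_eq, K.lmap_eq,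
    K.lfilter_eq, K.llen_eq, K.lemp_eq, K.lsum_eq, K.lgetD_eq, K.lmem_eq, K.contains_eq, K.nodup_eq,
    K.lrange_eq, K.lapp_eq, K.lflat_eq, K.lfmap_eq, K.ltake_eq, K.lfoldl_eq, K.leq_eq,
    decide_eq_true_eq, ne_eq, decide_not, Bool.decide_and, Bool.decide_or, Bool.decide_eq_true,
    Bool.decide_eq_false, Nat.succ_eq_add_one, Bool.beq_eq_decide_eq, bne, Bool.not_eq_true',
    Bool.or_eq_true, Bool.and_eq_true, K.WG_chkK_eq] <;> rfl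

noncomputable def WR_m (W : FC7.WR) : ℕ :=
  (Nat.add (FC7.XE.x (FC7.Fr.X (FC7.WR.F W))) (FC7.XE.k (FC7.Fr.X (FC7.WR.F W))))

theorem WR_m_eq : @K.WR_m = @FC7.WR.m := by
  funext W
  simp only [K.WR_m, FC7.WR.m, K.band_eq, K.bor_eq, K.bnot_eq, K.beqB_eq, K.tbit_eq, K.kmax_eq,
    K.kmin_eq, K.nbeq_eq, K.nble_eq, K.bif_b, K.lall_eq, K.lany_eq, K.lmap_eq, K.lfilter_eq,
    K.llen_eq, K.lemp_eq, K.lsum_eq, K.lgetD_eq, K.lmem_eq, K.contains_eq, K.nodup_eq, K.lrange_eq,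
    K.lapp_eq, K.lflat_eq, K.lfmap_eq, K.ltake_eq, K.lfoldl_eq, K.leq_eq, decide_eq_true_eq, ne_eq,
    decide_not, Bool.decide_and, Bool.decide_or, Bool.decide_eq_true, Bool.decide_eq_false,
    Nat.succ_eq_add_one, Bool.beq_eq_decide_eq, bne, Bool.not_eq_true', Bool.or_eq_true,
    Bool.and_eq_true] <;> rfl

noncomputable def WR_hl (W : FC7.WR) (j : ℕ) : ℕ :=
  (FC6.Pa.l (FC7.WR.PT W) (FC6.Sp.nf (FC6.Stars.Q (FC7.Wt.Z (FC7.WR.toWt W))) (nat_lit 1) j))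

theorem WR_hl_eq : @K.WR_hl = @FC7.WR.hl := by
  funext W j
  simp only [K.WR_hl, FC7.WR.hl, K.band_eq, K.bor_eq, K.bnot_eq, K.beqB_eq, K.tbit_eq, K.kmax_eq,
    K.kmin_eq, K.nbeq_eq, K.nble_eq, K.bif_b, K.lall_eq, K.lany_eq, K.lmap_eq, K.lfilter_eq,
    K.llen_eq, K.lemp_eq, K.lsum_eq, K.lgetD_eq, K.lmem_eq, K.contains_eq, K.nodup_eq, K.lrange_eq,
    K.lapp_eq, K.lflat_eq, K.lfmap_eq, K.ltake_eq, K.lfoldl_eq, K.leq_eq, decide_eq_true_eq, ne_eq,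
    decide_not, Bool.decide_and, Bool.decide_or, Bool.decide_eq_true, Bool.decide_eq_false,
    Nat.succ_eq_add_one, Bool.beq_eq_decide_eq, bne, Bool.not_eq_true', Bool.or_eq_true,
    Bool.and_eq_true] <;> rfl

noncomputable def Fr_ne (F : FC7.Fr) (a : ℕ) (b : ℕ) : Bool :=
  (K.band (Nat.ble (Nat.succ b) (nat_lit 31)) (K.tbit (FC7.Fr.NM F) (Nat.add (Nat.add (Nat.mul
    (nat_lit 16) a) b) (Nat.mul (nat_lit 369) (Nat.div (Nat.add b (nat_lit 1)) (nat_lit 16))))))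

theorem Fr_ne_eq : @K.Fr_ne = @FC7.Fr.ne := by
  funext F a b
  simp only [K.Fr_ne, FC7.Fr.ne, FC7.lix, K.band_eq, K.bor_eq, K.bnot_eq, K.beqB_eq, K.tbit_eq, K.kmax_eq,
    K.kmin_eq, K.nbeq_eq, K.nble_eq, K.bif_b, K.lall_eq, K.lany_eq, K.lmap_eq, K.lfilter_eq,
    K.llen_eq, K.lemp_eq, K.lsum_eq, K.lgetD_eq, K.lmem_eq, K.contains_eq, K.nodup_eq, K.lrange_eq,
    K.lapp_eq, K.lflat_eq, K.lfmap_eq, K.ltake_eq, K.lfoldl_eq, K.leq_eq, decide_eq_true_eq, ne_eq,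
    decide_not, Bool.decide_and, Bool.decide_or, Bool.decide_eq_true, Bool.decide_eq_false,
    Nat.succ_eq_add_one, Bool.beq_eq_decide_eq, bne, Bool.not_eq_true', Bool.or_eq_true,
    Bool.and_eq_true] <;> rfl

noncomputable def WR_dis (W : FC7.WR) (a : ℕ) (b : ℕ) : Bool :=
  (K.band (K.bnot (Nat.beq a b)) (K.bor (K.bor (K.bor (FC6.Sp.cx (FC6.Stars.Q (FC7.Wt.Z (FC7.WR.toWt
    W))) a) (FC6.Sp.cx (FC6.Stars.Q (FC7.Wt.Z (FC7.WR.toWt W))) b)) (K.bnot (K.beqB (Nat.ble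
    (Nat.succ a) (K.WR_m W)) (Nat.ble (Nat.succ b) (K.WR_m W))))) (K.lany (FC7.WR.dq W) (fun (q : ℕ
    × ℕ) => (K.bor (K.band (Nat.beq (K.WR_hl W (Prod.fst q)) a) (Nat.beq (K.WR_hl W (Prod.snd q))
    b)) (K.band (Nat.beq (K.WR_hl W (Prod.fst q)) b) (Nat.beq (K.WR_hl W (Prod.snd q)) a)))))))

theorem WR_dis_eq : @K.WR_dis = @FC7.WR.dis := by
  funext W a b
  simp only [K.WR_dis, FC7.WR.dis, K.band_eq, K.bor_eq, K.bnot_eq, K.beqB_eq, K.tbit_eq, K.kmax_eq,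
    K.kmin_eq, K.nbeq_eq, K.nble_eq, K.bif_b, K.lall_eq, K.lany_eq, K.lmap_eq, K.lfilter_eq,
    K.llen_eq, K.lemp_eq, K.lsum_eq, K.lgetD_eq, K.lmem_eq, K.contains_eq, K.nodup_eq, K.lrange_eq,
    K.lapp_eq, K.lflat_eq, K.lfmap_eq, K.ltake_eq, K.lfoldl_eq, K.leq_eq, decide_eq_true_eq, ne_eq,
    decide_not, Bool.decide_and, Bool.decide_or, Bool.decide_eq_true, Bool.decide_eq_false,
    Nat.succ_eq_add_one, Bool.beq_eq_decide_eq, bne, Bool.not_eq_true', Bool.or_eq_true,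
    Bool.and_eq_true, K.WR_m_eq, K.WR_hl_eq] <;> rfl

noncomputable def WR_chkA (W : FC7.WR) : Bool :=
  (K.band (K.band (K.band (K.band (K.band (K.band (K.band (K.band (K.rstr (FC7.Fr.P (FC7.WR.F W))
    (FC7.WR.PT W)) (K.allN (FC7.XE.x (FC7.Fr.X (FC7.WR.F W))) (fun (a : ℕ) => (FC6.Sp.cx
    (FC6.Stars.Q (FC7.Wt.Z (FC7.WR.toWt W))) a)))) (K.allN (FC6.Pa.n (FC7.WR.PT W)) (fun (i : ℕ) =>
    (K.bor (Nat.ble (Nat.succ i) (FC6.Pa.n (FC7.Fr.P (FC7.WR.F W)))) (Nat.ble (FC7.XE.x (FC7.Fr.X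
    (FC7.WR.F W))) (FC6.Pa.l (FC7.WR.PT W) i)))))) (K.allN (FC7.Fr.nl (FC7.WR.F W)) (fun (a : ℕ) =>
    (Bool.rec (motive := fun _ => Bool) (K.band (K.band (K.band (Nat.ble (Nat.succ (FC7.WR.rd W a))
    (FC6.Sp.ns (FC6.Stars.Q (FC7.Wt.Z (FC7.WR.toWt W))))) (K.bnot (FC6.Sp.rl (FC6.Stars.Q (FC7.Wt.Z
    (FC7.WR.toWt W))) (FC7.WR.rd W a)))) (FC7.Wt.ac (FC7.WR.toWt W) (FC6.Stars.ca (FC7.Wt.Z
    (FC7.WR.toWt W)) (FC7.WR.rd W a)))) (Nat.beq (K.WR_hl W (FC7.WR.rd W a)) a)) (K.band (K.band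
    (Nat.ble (Nat.succ (FC7.WR.rd W a)) (FC6.Pa.n (FC7.Fr.P (FC7.WR.F W)))) (Nat.beq (FC6.Pa.l
    (FC7.Fr.P (FC7.WR.F W)) (FC7.WR.rd W a)) a)) (FC6.Pa.real (FC7.Fr.P (FC7.WR.F W)) (FC7.WR.rd W
    a))) (Nat.ble (Nat.succ a) (K.WR_m W)))))) (Nat.ble (K.WR_m W) (FC7.Fr.nl (FC7.WR.F W))))
    (K.Pa_good (FC7.Fr.P (FC7.WR.F W)))) (K.lall (FC7.WR.dq W) (fun (q : ℕ × ℕ) => (K.band (Nat.ble
    (Nat.succ (Prod.fst q)) (FC6.Sp.ns (FC6.Stars.Q (FC7.Wt.Z (FC7.WR.toWt W))))) (Nat.ble (Nat.succ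
    (Prod.snd q)) (FC6.Sp.ns (FC6.Stars.Q (FC7.Wt.Z (FC7.WR.toWt W))))))))) (K.allN (FC6.Pa.n
    (FC7.Fr.P (FC7.WR.F W))) (fun (i : ℕ) => (Nat.ble (Nat.succ (FC6.Pa.l (FC7.Fr.P (FC7.WR.F W))
    i)) (FC7.Fr.nl (FC7.WR.F W)))))) (K.allN (K.WR_m W) (fun (a : ℕ) => (K.allN (K.WR_m W) (fun (b :
    ℕ) => (K.bor (K.bnot (K.Fr_ne (FC7.WR.F W) a b)) (K.WR_dis W a b)))))))

theorem WR_chkA_eq : @K.WR_chkA = @FC7.WR.chkA := by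
  funext W
  simp only [K.WR_chkA, FC7.WR.chkA, K.band_eq, K.bor_eq, K.bnot_eq, K.beqB_eq, K.tbit_eq,
    K.kmax_eq, K.kmin_eq, K.nbeq_eq, K.nble_eq, K.bif_b, K.lall_eq, K.lany_eq, K.lmap_eq,
    K.lfilter_eq, K.llen_eq, K.lemp_eq, K.lsum_eq, K.lgetD_eq, K.lmem_eq, K.contains_eq, K.nodup_eq,
    K.lrange_eq, K.lapp_eq, K.lflat_eq, K.lfmap_eq, K.ltake_eq, K.lfoldl_eq, K.leq_eq,
    decide_eq_true_eq, ne_eq, decide_not, Bool.decide_and, Bool.decide_or, Bool.decide_eq_true,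
    Bool.decide_eq_false, Nat.succ_eq_add_one, Bool.beq_eq_decide_eq, bne, Bool.not_eq_true',
    Bool.or_eq_true, Bool.and_eq_true, K.rstr_eq, K.allN_eq, K.WR_m_eq, K.WR_hl_eq, K.Pa_good_eq,
    K.Fr_ne_eq, K.WR_dis_eq] <;> rfl

noncomputable def WR_fcl (W : FC7.WR) (i : ℕ) : ℕ :=
  (K.Wt_fc (FC7.WR.toWt W) (FC6.Sp.rk (FC6.Stars.Q (FC7.Wt.Z (FC7.WR.toWt W))) i) (FC6.Sp.rj
    (FC6.Stars.Q (FC7.Wt.Z (FC7.WR.toWt W))) i))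

theorem WR_fcl_eq : @K.WR_fcl = @FC7.WR.fcl := by
  funext W i
  simp only [K.WR_fcl, FC7.WR.fcl, K.band_eq, K.bor_eq, K.bnot_eq, K.beqB_eq, K.tbit_eq, K.kmax_eq,
    K.kmin_eq, K.nbeq_eq, K.nble_eq, K.bif_b, K.lall_eq, K.lany_eq, K.lmap_eq, K.lfilter_eq,
    K.llen_eq, K.lemp_eq, K.lsum_eq, K.lgetD_eq, K.lmem_eq, K.contains_eq, K.nodup_eq, K.lrange_eq,
    K.lapp_eq, K.lflat_eq, K.lfmap_eq, K.ltake_eq, K.lfoldl_eq, K.leq_eq, decide_eq_true_eq, ne_eq,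
    decide_not, Bool.decide_and, Bool.decide_or, Bool.decide_eq_true, Bool.decide_eq_false,
    Nat.succ_eq_add_one, Bool.beq_eq_decide_eq, bne, Bool.not_eq_true', Bool.or_eq_true,
    Bool.and_eq_true, K.Wt_fc_eq] <;> rfl

noncomputable def WR_rqf (W : FC7.WR) (i : ℕ) : Bool :=
  (K.bor (K.bor (Nat.beq (K.WR_fcl W i) (nat_lit 1)) (Nat.beq (K.WR_fcl W i) (nat_lit 2))) (K.band
    (FC7.Wt.ac (FC7.WR.toWt W) (FC6.Stars.ca (FC7.Wt.Z (FC7.WR.toWt W)) (FC6.Sp.rj (FC6.Stars.Q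
    (FC7.Wt.Z (FC7.WR.toWt W))) i))) (K.bnot (Nat.beq (K.wa (K.Wt_fl (FC7.WR.toWt W) (FC6.Sp.rk
    (FC6.Stars.Q (FC7.Wt.Z (FC7.WR.toWt W))) i) (FC6.Sp.rj (FC6.Stars.Q (FC7.Wt.Z (FC7.WR.toWt W)))
    i))) (nat_lit 0)))))

theorem WR_rqf_eq : @K.WR_rqf = @FC7.WR.rqf := by
  funext W i
  simp only [K.WR_rqf, FC7.WR.rqf, K.band_eq, K.bor_eq, K.bnot_eq, K.beqB_eq, K.tbit_eq, K.kmax_eq,
    K.kmin_eq, K.nbeq_eq, K.nble_eq, K.bif_b, K.lall_eq, K.lany_eq, K.lmap_eq, K.lfilter_eq,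
    K.llen_eq, K.lemp_eq, K.lsum_eq, K.lgetD_eq, K.lmem_eq, K.contains_eq, K.nodup_eq, K.lrange_eq,
    K.lapp_eq, K.lflat_eq, K.lfmap_eq, K.ltake_eq, K.lfoldl_eq, K.leq_eq, decide_eq_true_eq, ne_eq,
    decide_not, Bool.decide_and, Bool.decide_or, Bool.decide_eq_true, Bool.decide_eq_false,
    Nat.succ_eq_add_one, Bool.beq_eq_decide_eq, bne, Bool.not_eq_true', Bool.or_eq_true,
    Bool.and_eq_true, K.WR_fcl_eq, K.wa_eq, K.Wt_fl_eq] <;> rfl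

noncomputable def WR_fd1 (W : FC7.WR) (i : ℕ) (j : ℕ) : Bool :=
  (K.band (K.band (K.band (K.band (K.band (FC6.Pa.real (FC7.Fr.P (FC7.WR.F W)) i) (FC6.Pa.real
    (FC7.Fr.P (FC7.WR.F W)) (FC6.Pa.φ (FC7.Fr.P (FC7.WR.F W)) i))) (FC6.Pa.real (FC7.Fr.P (FC7.WR.F
    W)) j)) (K.bnot (Nat.beq j i))) (K.bnot (Nat.beq j (FC6.Pa.φ (FC7.Fr.P (FC7.WR.F W)) i))))
    (K.bnot (Nat.beq j (FC6.Pa.φ (FC7.Fr.P (FC7.WR.F W)) (FC6.Pa.φ (FC7.Fr.P (FC7.WR.F W)) i)))))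

theorem WR_fd1_eq : @K.WR_fd1 = @FC7.WR.fd1 := by
  funext W i j
  simp only [K.WR_fd1, FC7.WR.fd1, K.band_eq, K.bor_eq, K.bnot_eq, K.beqB_eq, K.tbit_eq, K.kmax_eq,
    K.kmin_eq, K.nbeq_eq, K.nble_eq, K.bif_b, K.lall_eq, K.lany_eq, K.lmap_eq, K.lfilter_eq,
    K.llen_eq, K.lemp_eq, K.lsum_eq, K.lgetD_eq, K.lmem_eq, K.contains_eq, K.nodup_eq, K.lrange_eq,
    K.lapp_eq, K.lflat_eq, K.lfmap_eq, K.ltake_eq, K.lfoldl_eq, K.leq_eq, decide_eq_true_eq, ne_eq,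
    decide_not, Bool.decide_and, Bool.decide_or, Bool.decide_eq_true, Bool.decide_eq_false,
    Nat.succ_eq_add_one, Bool.beq_eq_decide_eq, bne, Bool.not_eq_true', Bool.or_eq_true,
    Bool.and_eq_true] <;> rfl

noncomputable def WR_hd (W : FC7.WR) (i : ℕ) : ℕ :=
  (Bool.rec (motive := fun _ => ℕ) (Bool.rec (motive := fun _ => ℕ) (FC6.Pa.l (FC7.Fr.P (FC7.WR.F
    W)) (FC6.Pa.φ (FC7.Fr.P (FC7.WR.F W)) (FC6.Pa.φ (FC7.Fr.P (FC7.WR.F W)) i))) (FC6.Pa.l (FC7.Fr.P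
    (FC7.WR.F W)) (FC6.Pa.φ (FC7.Fr.P (FC7.WR.F W)) i)) (Nat.ble (K.WR_m W) (FC6.Pa.l (FC7.Fr.P
    (FC7.WR.F W)) (FC6.Pa.φ (FC7.Fr.P (FC7.WR.F W)) i)))) (FC6.Pa.l (FC7.Fr.P (FC7.WR.F W)) i)
    (Nat.ble (K.WR_m W) (FC6.Pa.l (FC7.Fr.P (FC7.WR.F W)) i)))

theorem WR_hd_eq : @K.WR_hd = @FC7.WR.hd := by
  funext W i
  simp only [K.WR_hd, FC7.WR.hd, K.band_eq, K.bor_eq, K.bnot_eq, K.beqB_eq, K.tbit_eq, K.kmax_eq,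
    K.kmin_eq, K.nbeq_eq, K.nble_eq, K.bif_b, K.lall_eq, K.lany_eq, K.lmap_eq, K.lfilter_eq,
    K.llen_eq, K.lemp_eq, K.lsum_eq, K.lgetD_eq, K.lmem_eq, K.contains_eq, K.nodup_eq, K.lrange_eq,
    K.lapp_eq, K.lflat_eq, K.lfmap_eq, K.ltake_eq, K.lfoldl_eq, K.leq_eq, decide_eq_true_eq, ne_eq,
    decide_not, Bool.decide_and, Bool.decide_or, Bool.decide_eq_true, Bool.decide_eq_false,
    Nat.succ_eq_add_one, Bool.beq_eq_decide_eq, bne, Bool.not_eq_true', Bool.or_eq_true,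
    Bool.and_eq_true, K.WR_m_eq] <;> rfl

noncomputable def WR_fd (W : FC7.WR) (i : ℕ) (j : ℕ) : Bool :=
  (K.bor (K.bor (K.WR_fd1 W i j) (K.WR_fd1 W j i)) (K.band (K.band (Nat.ble (K.WR_m W) (K.WR_hd W
    i)) (Nat.ble (K.WR_m W) (K.WR_hd W j))) (K.WR_dis W (K.WR_hd W i) (K.WR_hd W j))))

theorem WR_fd_eq : @K.WR_fd = @FC7.WR.fd := by
  funext W i j
  simp only [K.WR_fd, FC7.WR.fd, K.band_eq, K.bor_eq, K.bnot_eq, K.beqB_eq, K.tbit_eq, K.kmax_eq,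
    K.kmin_eq, K.nbeq_eq, K.nble_eq, K.bif_b, K.lall_eq, K.lany_eq, K.lmap_eq, K.lfilter_eq,
    K.llen_eq, K.lemp_eq, K.lsum_eq, K.lgetD_eq, K.lmem_eq, K.contains_eq, K.nodup_eq, K.lrange_eq,
    K.lapp_eq, K.lflat_eq, K.lfmap_eq, K.ltake_eq, K.lfoldl_eq, K.leq_eq, decide_eq_true_eq, ne_eq,
    decide_not, Bool.decide_and, Bool.decide_or, Bool.decide_eq_true, Bool.decide_eq_false,
    Nat.succ_eq_add_one, Bool.beq_eq_decide_eq, bne, Bool.not_eq_true', Bool.or_eq_true,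
    Bool.and_eq_true, K.WR_fd1_eq, K.WR_m_eq, K.WR_hd_eq, K.WR_dis_eq] <;> rfl

noncomputable def WR_chkD (W : FC7.WR) : Bool :=
  (K.allN (FC6.Pa.n (FC7.Fr.P (FC7.WR.F W))) (fun (i : ℕ) => (K.band (K.band (K.band (K.bor
    (FC7.Fr.lu (FC7.WR.F W) i) (K.band (K.bnot (K.Wt_lun (FC7.WR.toWt W) (FC6.Sp.rk (FC6.Stars.Q
    (FC7.Wt.Z (FC7.WR.toWt W))) i) (FC6.Sp.rj (FC6.Stars.Q (FC7.Wt.Z (FC7.WR.toWt W))) i))) (K.beqB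
    (FC7.Fr.lb (FC7.WR.F W) i) (K.Wt_lb (FC7.WR.toWt W) (FC6.Sp.rk (FC6.Stars.Q (FC7.Wt.Z
    (FC7.WR.toWt W))) i) (FC6.Sp.rj (FC6.Stars.Q (FC7.Wt.Z (FC7.WR.toWt W))) i))))) (K.bor (K.bnot
    (FC7.Fr.nu (FC7.WR.F W) i)) (K.band (K.Wt_kn (FC7.WR.toWt W) (FC6.Sp.rk (FC6.Stars.Q (FC7.Wt.Z
    (FC7.WR.toWt W))) i) (FC6.Sp.rj (FC6.Stars.Q (FC7.Wt.Z (FC7.WR.toWt W))) i)) (Nat.beq (K.Wt_un
    (FC7.WR.toWt W) (FC6.Sp.rk (FC6.Stars.Q (FC7.Wt.Z (FC7.WR.toWt W))) i) (FC6.Sp.rj (FC6.Stars.Q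
    (FC7.Wt.Z (FC7.WR.toWt W))) i)) (nat_lit 0))))) (K.bor (K.bnot (FC7.Fr.rq (FC7.WR.F W) i))
    (K.band (K.WR_rqf W i) (K.bor (FC7.Fr.lab (FC7.WR.F W)) (K.WR_fd W (FC7.Fr.dr (FC7.WR.F W))
    i))))) (K.bor (K.bor (K.bor (K.bnot (Nat.beq (FC6.Pa.α (FC7.Fr.P (FC7.WR.F W)) i) i)) (K.bnot
    (FC7.Fr.lb (FC7.WR.F W) i))) (FC7.Fr.lu (FC7.WR.F W) i)) (K.allN (FC6.Pa.n (FC7.Fr.P (FC7.WR.F
    W))) (fun (j : ℕ) => (K.bor (K.bor (K.bnot (FC6.Pa.real (FC7.Fr.P (FC7.WR.F W)) j)) (K.WR_dis W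
    (FC6.Pa.l (FC7.Fr.P (FC7.WR.F W)) j) (FC6.Pa.l (FC7.Fr.P (FC7.WR.F W)) (FC6.Pa.φ (FC7.Fr.P
    (FC7.WR.F W)) i)))) (K.WR_dis W (FC6.Pa.l (FC7.Fr.P (FC7.WR.F W)) (FC6.Pa.φ (FC7.Fr.P (FC7.WR.F
    W)) j)) (FC6.Pa.l (FC7.Fr.P (FC7.WR.F W)) i)))))))))

theorem WR_chkD_eq : @K.WR_chkD = @FC7.WR.chkD := by
  funext W
  simp only [K.WR_chkD, FC7.WR.chkD, K.band_eq, K.bor_eq, K.bnot_eq, K.beqB_eq, K.tbit_eq,
    K.kmax_eq, K.kmin_eq, K.nbeq_eq, K.nble_eq, K.bif_b, K.lall_eq, K.lany_eq, K.lmap_eq,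
    K.lfilter_eq, K.llen_eq, K.lemp_eq, K.lsum_eq, K.lgetD_eq, K.lmem_eq, K.contains_eq, K.nodup_eq,
    K.lrange_eq, K.lapp_eq, K.lflat_eq, K.lfmap_eq, K.ltake_eq, K.lfoldl_eq, K.leq_eq,
    decide_eq_true_eq, ne_eq, decide_not, Bool.decide_and, Bool.decide_or, Bool.decide_eq_true,
    Bool.decide_eq_false, Nat.succ_eq_add_one, Bool.beq_eq_decide_eq, bne, Bool.not_eq_true',
    Bool.or_eq_true, Bool.and_eq_true, K.allN_eq, K.Wt_lun_eq, K.Wt_lb_eq, K.Wt_kn_eq, K.Wt_un_eq,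
    K.WR_rqf_eq, K.WR_fd_eq, K.WR_dis_eq] <;> rfl

noncomputable def WR_chkF (W : FC7.WR) : Bool :=
  (K.band (Nat.ble (Nat.succ (FC7.Fr.dr (FC7.WR.F W))) (FC6.Pa.n (FC7.Fr.P (FC7.WR.F W)))) (Bool.rec
    (motive := fun _ => Bool) (K.WR_rqf W (FC7.Fr.dr (FC7.WR.F W))) (K.band (FC7.Fr.lb (FC7.WR.F W)
    (FC7.Fr.dr (FC7.WR.F W))) (K.bnot (FC7.Fr.lu (FC7.WR.F W) (FC7.Fr.dr (FC7.WR.F W)))))
    (FC7.Fr.lab (FC7.WR.F W))))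

theorem WR_chkF_eq : @K.WR_chkF = @FC7.WR.chkF := by
  funext W
  simp only [K.WR_chkF, FC7.WR.chkF, K.band_eq, K.bor_eq, K.bnot_eq, K.beqB_eq, K.tbit_eq,
    K.kmax_eq, K.kmin_eq, K.nbeq_eq, K.nble_eq, K.bif_b, K.lall_eq, K.lany_eq, K.lmap_eq,
    K.lfilter_eq, K.llen_eq, K.lemp_eq, K.lsum_eq, K.lgetD_eq, K.lmem_eq, K.contains_eq, K.nodup_eq,
    K.lrange_eq, K.lapp_eq, K.lflat_eq, K.lfmap_eq, K.ltake_eq, K.lfoldl_eq, K.leq_eq,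
    decide_eq_true_eq, ne_eq, decide_not, Bool.decide_and, Bool.decide_or, Bool.decide_eq_true,
    Bool.decide_eq_false, Nat.succ_eq_add_one, Bool.beq_eq_decide_eq, bne, Bool.not_eq_true',
    Bool.or_eq_true, Bool.and_eq_true, K.WR_rqf_eq] <;> rfl

noncomputable def WR_hub (W : FC7.WR) (b : ℕ) : Bool :=
  (K.band (K.band (Nat.ble (K.WR_m W) b) (Nat.ble (Nat.succ b) (FC7.Fr.nl (FC7.WR.F W)))) (K.allN
    (FC7.Fr.nl (FC7.WR.F W)) (fun (a : ℕ) => (K.bor (Nat.beq a b) (K.WR_dis W a b)))))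

theorem WR_hub_eq : @K.WR_hub = @FC7.WR.hub := by
  funext W b
  simp only [K.WR_hub, FC7.WR.hub, K.band_eq, K.bor_eq, K.bnot_eq, K.beqB_eq, K.tbit_eq, K.kmax_eq,
    K.kmin_eq, K.nbeq_eq, K.nble_eq, K.bif_b, K.lall_eq, K.lany_eq, K.lmap_eq, K.lfilter_eq,
    K.llen_eq, K.lemp_eq, K.lsum_eq, K.lgetD_eq, K.lmem_eq, K.contains_eq, K.nodup_eq, K.lrange_eq,
    K.lapp_eq, K.lflat_eq, K.lfmap_eq, K.ltake_eq, K.lfoldl_eq, K.leq_eq, decide_eq_true_eq, ne_eq,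
    decide_not, Bool.decide_and, Bool.decide_or, Bool.decide_eq_true, Bool.decide_eq_false,
    Nat.succ_eq_add_one, Bool.beq_eq_decide_eq, bne, Bool.not_eq_true', Bool.or_eq_true,
    Bool.and_eq_true, K.WR_m_eq, K.allN_eq, K.WR_dis_eq] <;> rfl

noncomputable def WR_chkP (W : FC7.WR) : Bool :=
  (K.lall (FC7.XE.ar (FC7.Fr.X (FC7.WR.F W))) (fun (p : ℕ × ℕ) => (K.bor (K.bnot (FC7.XE.sp
    (FC7.Fr.X (FC7.WR.F W)) (Prod.fst p))) (K.band (K.band (K.band (Nat.ble (Nat.succ (Prod.fst p))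
    (FC6.Pa.n (FC7.Fr.P (FC7.WR.F W)))) (Nat.ble (Nat.succ (Prod.snd p)) (FC6.Pa.n (FC7.Fr.P
    (FC7.WR.F W))))) (Nat.beq (FC6.Pa.α (FC7.Fr.P (FC7.WR.F W)) (Prod.fst p)) (Prod.fst p))) (K.bor
    (K.band (FC6.Pa.real (FC7.Fr.P (FC7.WR.F W)) (Prod.fst p)) (Nat.beq (Prod.fst p) (Prod.snd p)))
    (K.band (K.band (K.bnot (FC6.Pa.real (FC7.Fr.P (FC7.WR.F W)) (Prod.fst p))) (K.WR_hub W
    (FC6.Pa.l (FC7.Fr.P (FC7.WR.F W)) (FC6.Pa.φ (FC7.Fr.P (FC7.WR.F W)) (Prod.fst p))))) (K.allN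
    (FC6.Pa.n (FC7.Fr.P (FC7.WR.F W))) (fun (j : ℕ) => (K.bor (K.bor (K.bnot (Nat.beq (FC6.Pa.α
    (FC7.Fr.P (FC7.WR.F W)) j) j)) (K.bnot (Nat.beq (FC6.Pa.l (FC7.Fr.P (FC7.WR.F W)) j) (FC6.Pa.l
    (FC7.Fr.P (FC7.WR.F W)) (FC6.Pa.φ (FC7.Fr.P (FC7.WR.F W)) (Prod.fst p)))))) (Nat.beq j (Prod.snd
    p)))))))))))

theorem WR_chkP_eq : @K.WR_chkP = @FC7.WR.chkP := by
  funext W
  simp only [K.WR_chkP, FC7.WR.chkP, K.band_eq, K.bor_eq, K.bnot_eq, K.beqB_eq, K.tbit_eq,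
    K.kmax_eq, K.kmin_eq, K.nbeq_eq, K.nble_eq, K.bif_b, K.lall_eq, K.lany_eq, K.lmap_eq,
    K.lfilter_eq, K.llen_eq, K.lemp_eq, K.lsum_eq, K.lgetD_eq, K.lmem_eq, K.contains_eq, K.nodup_eq,
    K.lrange_eq, K.lapp_eq, K.lflat_eq, K.lfmap_eq, K.ltake_eq, K.lfoldl_eq, K.leq_eq,
    decide_eq_true_eq, ne_eq, decide_not, Bool.decide_and, Bool.decide_or, Bool.decide_eq_true,
    Bool.decide_eq_false, Nat.succ_eq_add_one, Bool.beq_eq_decide_eq, bne, Bool.not_eq_true',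
    Bool.or_eq_true, Bool.and_eq_true, K.WR_hub_eq, K.allN_eq] <;> rfl

noncomputable def WR_chk (W : FC7.WR) : Bool :=
  (K.band (K.band (K.band (K.band (K.band (K.Stars_chk (FC7.Wt.Z (FC7.WR.toWt W)) (FC7.WR.PT W))
    (K.Wt_ok (FC7.WR.toWt W))) (K.WR_chkA W)) (K.WR_chkD W)) (K.WR_chkF W)) (K.WR_chkP W))

theorem WR_chk_eq : @K.WR_chk = @FC7.WR.chk := by
  funext W
  simp only [K.WR_chk, FC7.WR.chk, K.band_eq, K.bor_eq, K.bnot_eq, K.beqB_eq, K.tbit_eq, K.kmax_eq,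
    K.kmin_eq, K.nbeq_eq, K.nble_eq, K.bif_b, K.lall_eq, K.lany_eq, K.lmap_eq, K.lfilter_eq,
    K.llen_eq, K.lemp_eq, K.lsum_eq, K.lgetD_eq, K.lmem_eq, K.contains_eq, K.nodup_eq, K.lrange_eq,
    K.lapp_eq, K.lflat_eq, K.lfmap_eq, K.ltake_eq, K.lfoldl_eq, K.leq_eq, decide_eq_true_eq, ne_eq,
    decide_not, Bool.decide_and, Bool.decide_or, Bool.decide_eq_true, Bool.decide_eq_false,
    Nat.succ_eq_add_one, Bool.beq_eq_decide_eq, bne, Bool.not_eq_true', Bool.or_eq_true,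
    Bool.and_eq_true, K.Stars_chk_eq, K.Wt_ok_eq, K.WR_chkA_eq, K.WR_chkD_eq, K.WR_chkF_eq,
    K.WR_chkP_eq] <;> rfl

noncomputable def WS_cf (W : FC7.WS) : FC7.Cf :=
  (FC7.Cf.mk (FC7.Wt.Z (FC7.WR.toWt (FC7.WS.toWR W))) (FC7.WR.PT (FC7.WS.toWR W)) (FC7.Wt.ac
    (FC7.WR.toWt (FC7.WS.toWR W))) (FC7.WS.wd W) (FC7.WS.ra W) (FC7.WS.ad W) (FC7.WS.al W)
    (FC7.WS.cs W) (FC7.WS.SD W))

theorem WS_cf_eq : @K.WS_cf = @FC7.WS.cf := by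
  funext W
  simp only [K.WS_cf, FC7.WS.cf, K.band_eq, K.bor_eq, K.bnot_eq, K.beqB_eq, K.tbit_eq, K.kmax_eq,
    K.kmin_eq, K.nbeq_eq, K.nble_eq, K.bif_b, K.lall_eq, K.lany_eq, K.lmap_eq, K.lfilter_eq,
    K.llen_eq, K.lemp_eq, K.lsum_eq, K.lgetD_eq, K.lmem_eq, K.contains_eq, K.nodup_eq, K.lrange_eq,
    K.lapp_eq, K.lflat_eq, K.lfmap_eq, K.ltake_eq, K.lfoldl_eq, K.leq_eq, decide_eq_true_eq, ne_eq,
    decide_not, Bool.decide_and, Bool.decide_or, Bool.decide_eq_true, Bool.decide_eq_false,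
    Nat.succ_eq_add_one, Bool.beq_eq_decide_eq, bne, Bool.not_eq_true', Bool.or_eq_true,
    Bool.and_eq_true] <;> rfl

noncomputable def WS_bg0 (W : FC7.WS) (i : ℕ) : Bool :=
  (K.bor (K.Cf_big (K.WS_cf W) i) (K.lmem i (FC7.WS.pl W)))

theorem WS_bg0_eq : @K.WS_bg0 = @FC7.WS.bg0 := by
  funext W i
  simp only [K.WS_bg0, FC7.WS.bg0, K.band_eq, K.bor_eq, K.bnot_eq, K.beqB_eq, K.tbit_eq, K.kmax_eq,
    K.kmin_eq, K.nbeq_eq, K.nble_eq, K.bif_b, K.lall_eq, K.lany_eq, K.lmap_eq, K.lfilter_eq,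
    K.llen_eq, K.lemp_eq, K.lsum_eq, K.lgetD_eq, K.lmem_eq, K.contains_eq, K.nodup_eq, K.lrange_eq,
    K.lapp_eq, K.lflat_eq, K.lfmap_eq, K.ltake_eq, K.lfoldl_eq, K.leq_eq, decide_eq_true_eq, ne_eq,
    decide_not, Bool.decide_and, Bool.decide_or, Bool.decide_eq_true, Bool.decide_eq_false,
    Nat.succ_eq_add_one, Bool.beq_eq_decide_eq, bne, Bool.not_eq_true', Bool.or_eq_true,
    Bool.and_eq_true, K.Cf_big_eq, K.WS_cf_eq] <;> rfl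

noncomputable def WS_bg (W : FC7.WS) (i : ℕ) : Bool :=
  (K.Cf_bgx (K.WS_cf W) (K.WS_bg0 W) i)

theorem WS_bg_eq : @K.WS_bg = @FC7.WS.bg := by
  funext W i
  simp only [K.WS_bg, FC7.WS.bg, K.band_eq, K.bor_eq, K.bnot_eq, K.beqB_eq, K.tbit_eq, K.kmax_eq,
    K.kmin_eq, K.nbeq_eq, K.nble_eq, K.bif_b, K.lall_eq, K.lany_eq, K.lmap_eq, K.lfilter_eq,
    K.llen_eq, K.lemp_eq, K.lsum_eq, K.lgetD_eq, K.lmem_eq, K.contains_eq, K.nodup_eq, K.lrange_eq,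
    K.lapp_eq, K.lflat_eq, K.lfmap_eq, K.ltake_eq, K.lfoldl_eq, K.leq_eq, decide_eq_true_eq, ne_eq,
    decide_not, Bool.decide_and, Bool.decide_or, Bool.decide_eq_true, Bool.decide_eq_false,
    Nat.succ_eq_add_one, Bool.beq_eq_decide_eq, bne, Bool.not_eq_true', Bool.or_eq_true,
    Bool.and_eq_true, K.Cf_bgx_eq, K.WS_cf_eq, K.WS_bg0_eq] <;> rfl

noncomputable def Fr_XX (F : FC7.Fr) : FC7.XE :=
  (FC7.XE.mk (FC7.XE.x (FC7.Fr.X F)) (FC7.XE.k (FC7.Fr.X F)) (FC7.XE.lo (FC7.Fr.X F)) (FC7.XE.nc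
    (FC7.Fr.X F)) (FC7.XE.par (FC7.Fr.X F)) (fun (m : ℕ) => (K.bnot (K.tbit m (FC7.XE.x (FC7.Fr.X
    F))))) (FC7.XE.ce (FC7.Fr.X F)) (FC7.XE.ce' (FC7.Fr.X F)) (FC7.XE.cr (FC7.Fr.X F)) (FC7.XE.pa
    (FC7.Fr.X F)) (FC7.XE.pk (FC7.Fr.X F)) (FC7.XE.cr' (FC7.Fr.X F)) (FC7.XE.pa' (FC7.Fr.X F))
    (FC7.XE.pk' (FC7.Fr.X F)) (FC7.XE.st (FC7.Fr.X F)) (FC7.XE.st' (FC7.Fr.X F)) (FC7.XE.es
    (FC7.Fr.X F)) (FC7.XE.es' (FC7.Fr.X F)) (FC7.XE.rs (FC7.Fr.X F)) (FC7.XE.ar (FC7.Fr.X F))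
    (FC7.XE.sp (FC7.Fr.X F)) (FC7.XE.dj (FC7.Fr.X F)) (FC7.XE.dj' (FC7.Fr.X F)) (FC7.XE.lr (FC7.Fr.X
    F)) (FC7.XE.kd (FC7.Fr.X F)))

theorem Fr_XX_eq : @K.Fr_XX = @FC7.Fr.XX := by
  funext F
  simp only [K.Fr_XX, FC7.Fr.XX, K.band_eq, K.bor_eq, K.bnot_eq, K.beqB_eq, K.tbit_eq, K.kmax_eq,
    K.kmin_eq, K.nbeq_eq, K.nble_eq, K.bif_b, K.lall_eq, K.lany_eq, K.lmap_eq, K.lfilter_eq,
    K.llen_eq, K.lemp_eq, K.lsum_eq, K.lgetD_eq, K.lmem_eq, K.contains_eq, K.nodup_eq, K.lrange_eq,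
    K.lapp_eq, K.lflat_eq, K.lfmap_eq, K.ltake_eq, K.lfoldl_eq, K.leq_eq, decide_eq_true_eq, ne_eq,
    decide_not, Bool.decide_and, Bool.decide_or, Bool.decide_eq_true, Bool.decide_eq_false,
    Nat.succ_eq_add_one, Bool.beq_eq_decide_eq, bne, Bool.not_eq_true', Bool.or_eq_true,
    Bool.and_eq_true] <;> rfl

noncomputable def Fr_cel (F : FC7.Fr) (z : ℕ) (i : ℕ) : Bool :=
  (K.allN (FC6.Pa.n (FC7.Fr.P F)) (fun (j : ℕ) => (K.bor (K.bnot (K.tbit z (FC7.XE.ce (FC7.Fr.X F)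
    j))) (Nat.beq (FC7.XE.ce (FC7.Fr.X F) j) (FC7.XE.ce (FC7.Fr.X F) i)))))

theorem Fr_cel_eq : @K.Fr_cel = @FC7.Fr.cel := by
  funext F z i
  simp only [K.Fr_cel, FC7.Fr.cel, K.band_eq, K.bor_eq, K.bnot_eq, K.beqB_eq, K.tbit_eq, K.kmax_eq,
    K.kmin_eq, K.nbeq_eq, K.nble_eq, K.bif_b, K.lall_eq, K.lany_eq, K.lmap_eq, K.lfilter_eq,
    K.llen_eq, K.lemp_eq, K.lsum_eq, K.lgetD_eq, K.lmem_eq, K.contains_eq, K.nodup_eq, K.lrange_eq,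
    K.lapp_eq, K.lflat_eq, K.lfmap_eq, K.ltake_eq, K.lfoldl_eq, K.leq_eq, decide_eq_true_eq, ne_eq,
    decide_not, Bool.decide_and, Bool.decide_or, Bool.decide_eq_true, Bool.decide_eq_false,
    Nat.succ_eq_add_one, Bool.beq_eq_decide_eq, bne, Bool.not_eq_true', Bool.or_eq_true,
    Bool.and_eq_true, K.allN_eq] <;> rfl

noncomputable def Fr_hv (F : FC7.Fr) (i : ℕ) : Bool :=
  (K.bnot (K.allN (FC6.Pa.n (FC7.Fr.P F)) (fun (j : ℕ) => (K.bnot (K.band (K.band (Nat.beq (FC6.Pa.α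
    (FC7.Fr.P F) j) j) (K.bnot (FC6.Pa.real (FC7.Fr.P F) j))) (Nat.beq (FC7.XE.ce (FC7.Fr.X F) j)
    (FC7.XE.ce (FC7.Fr.X F) i)))))))

theorem Fr_hv_eq : @K.Fr_hv = @FC7.Fr.hv := by
  funext F i
  simp only [K.Fr_hv, FC7.Fr.hv, K.band_eq, K.bor_eq, K.bnot_eq, K.beqB_eq, K.tbit_eq, K.kmax_eq,
    K.kmin_eq, K.nbeq_eq, K.nble_eq, K.bif_b, K.lall_eq, K.lany_eq, K.lmap_eq, K.lfilter_eq,
    K.llen_eq, K.lemp_eq, K.lsum_eq, K.lgetD_eq, K.lmem_eq, K.contains_eq, K.nodup_eq, K.lrange_eq,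
    K.lapp_eq, K.lflat_eq, K.lfmap_eq, K.ltake_eq, K.lfoldl_eq, K.leq_eq, decide_eq_true_eq, ne_eq,
    decide_not, Bool.decide_and, Bool.decide_or, Bool.decide_eq_true, Bool.decide_eq_false,
    Nat.succ_eq_add_one, Bool.beq_eq_decide_eq, bne, Bool.not_eq_true', Bool.or_eq_true,
    Bool.and_eq_true, K.allN_eq] <;> rfl

noncomputable def Fr_hk (F : FC7.Fr) (i : ℕ) : Bool :=
  (K.lany (FC7.XE.kd (FC7.Fr.X F)) (fun (j : ℕ) => (Nat.beq (FC7.XE.ce (FC7.Fr.X F) j) (FC7.XE.ce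
    (FC7.Fr.X F) i))))

theorem Fr_hk_eq : @K.Fr_hk = @FC7.Fr.hk := by
  funext F i
  simp only [K.Fr_hk, FC7.Fr.hk, K.band_eq, K.bor_eq, K.bnot_eq, K.beqB_eq, K.tbit_eq, K.kmax_eq,
    K.kmin_eq, K.nbeq_eq, K.nble_eq, K.bif_b, K.lall_eq, K.lany_eq, K.lmap_eq, K.lfilter_eq,
    K.llen_eq, K.lemp_eq, K.lsum_eq, K.lgetD_eq, K.lmem_eq, K.contains_eq, K.nodup_eq, K.lrange_eq,
    K.lapp_eq, K.lflat_eq, K.lfmap_eq, K.ltake_eq, K.lfoldl_eq, K.leq_eq, decide_eq_true_eq, ne_eq,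
    decide_not, Bool.decide_and, Bool.decide_or, Bool.decide_eq_true, Bool.decide_eq_false,
    Nat.succ_eq_add_one, Bool.beq_eq_decide_eq, bne, Bool.not_eq_true', Bool.or_eq_true,
    Bool.and_eq_true] <;> rfl

noncomputable def Fr_lk (F : FC7.Fr) (i : ℕ) : Bool :=
  (K.band (K.band (FC7.Fr.lb F i) (K.bnot (FC7.Fr.lu F i))) (K.bnot (K.band (FC7.Fr.lab F) (K.bor
    (Nat.beq i (FC7.Fr.dr F)) (Nat.beq i (FC6.Pa.α (FC7.Fr.P F) (FC7.Fr.dr F)))))))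

theorem Fr_lk_eq : @K.Fr_lk = @FC7.Fr.lk := by
  funext F i
  simp only [K.Fr_lk, FC7.Fr.lk, K.band_eq, K.bor_eq, K.bnot_eq, K.beqB_eq, K.tbit_eq, K.kmax_eq,
    K.kmin_eq, K.nbeq_eq, K.nble_eq, K.bif_b, K.lall_eq, K.lany_eq, K.lmap_eq, K.lfilter_eq,
    K.llen_eq, K.lemp_eq, K.lsum_eq, K.lgetD_eq, K.lmem_eq, K.contains_eq, K.nodup_eq, K.lrange_eq,
    K.lapp_eq, K.lflat_eq, K.lfmap_eq, K.ltake_eq, K.lfoldl_eq, K.leq_eq, decide_eq_true_eq, ne_eq,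
    decide_not, Bool.decide_and, Bool.decide_or, Bool.decide_eq_true, Bool.decide_eq_false,
    Nat.succ_eq_add_one, Bool.beq_eq_decide_eq, bne, Bool.not_eq_true', Bool.or_eq_true,
    Bool.and_eq_true] <;> rfl

noncomputable def Fr_chk (F : FC7.Fr) : Bool :=
  (K.band (K.band (K.band (K.band (K.band (K.band (K.band (K.band (K.band (K.band (K.band (K.band
    (K.band (K.band (K.Pa_good (FC7.Fr.P F)) (K.band (K.XE_sta (K.Fr_XX F) (FC7.Fr.P F) (FC7.Fr.P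
    F)) (K.XE_ringOk (K.Fr_XX F) (FC7.Fr.P F)))) (Nat.beq (FC7.XE.lo (FC7.Fr.X
    F)) (nat_lit 0))) (Nat.ble (Nat.succ (FC7.XE.x (FC7.Fr.X F))) (Nat.add (FC7.XE.x (FC7.Fr.X F))
    (FC7.XE.k (FC7.Fr.X F))))) (Nat.ble (Nat.succ (FC7.Fr.dr F)) (FC6.Pa.n (FC7.Fr.P F)))) (K.allN
    (FC6.Pa.n (FC7.Fr.P F)) (fun (i : ℕ) => (Nat.ble (Nat.succ (FC6.Pa.l (FC7.Fr.P F) i)) (FC7.Fr.nl
    F))))) (K.allN (FC7.XE.x (FC7.Fr.X F)) (fun (a : ℕ) => (K.allN (Nat.add (FC7.XE.x (FC7.Fr.X F))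
    (FC7.XE.k (FC7.Fr.X F))) (fun (b : ℕ) => (K.bor (Nat.beq a b) (K.band (K.Fr_ne F a b) (K.Fr_ne F
    b a)))))))) (K.allN (FC6.Pa.n (FC7.Fr.P F)) (fun (i : ℕ) => (K.bor (K.bor (K.bor (FC7.Fr.nu F i)
    (K.lany (FC7.XE.dj (FC7.Fr.X F)) (fun (z : ℕ) => (K.Fr_cel F z i)))) (K.Fr_hv F i)) (K.Fr_hk F
    i))))) (K.bor (FC7.Fr.lab F) (K.lany (FC7.XE.dj (FC7.Fr.X F)) (fun (z : ℕ) => (K.Fr_cel F z
    (FC7.Fr.dr F)))))) (K.allN (FC6.Pa.n (FC7.Fr.P F)) (fun (i : ℕ) => (K.bor (K.bor (Nat.beq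
    (FC6.Pa.α (FC7.Fr.P F) i) i) (K.bnot (FC7.Fr.lb F i))) (K.lany (FC7.XE.dj (FC7.Fr.X F)) (fun (z
    : ℕ) => (K.allN (FC6.Pa.n (FC7.Fr.P F)) (fun (j : ℕ) => (K.bor (K.bor (K.bnot (K.tbit z
    (FC7.XE.ce (FC7.Fr.X F) j))) (Nat.beq (FC7.XE.ce (FC7.Fr.X F) j) (FC7.XE.ce (FC7.Fr.X F) i)))
    (Nat.beq (FC7.XE.ce (FC7.Fr.X F) j) (FC7.XE.ce (FC7.Fr.X F) (FC6.Pa.α (FC7.Fr.P F) i))))))))))))
    (K.allN (FC7.XE.x (FC7.Fr.X F)) (fun (a : ℕ) => (K.lmem (FC7.XE.st (FC7.Fr.X F) a) (FC7.XE.dj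
    (FC7.Fr.X F)))))) (K.lall (FC7.XE.rs (FC7.Fr.X F)) (fun (i : ℕ) => (Bool.rec (motive := fun _ =>
    Bool) (K.bor (K.bnot (FC7.Fr.lb F i)) (K.lany (FC7.XE.lr (FC7.Fr.X F)) (fun (q : ℕ × Bool ×
    Bool) => (K.band (Nat.beq (Prod.fst q) i) (Prod.fst (Prod.snd q)))))) (K.lmem i (FC7.XE.kd
    (FC7.Fr.X F))) (FC7.Fr.lu F i))))) (K.allN (FC6.Pa.n (FC7.Fr.P F)) (fun (i : ℕ) => (K.bor
    (K.bnot (FC7.Fr.lu F i)) (Nat.beq (FC6.Pa.α (FC7.Fr.P F) i) i))))) (K.lall (FC7.XE.lr (FC7.Fr.X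
    F)) (fun (q : ℕ × Bool × Bool) => (K.bor (K.bnot (Prod.snd (Prod.snd q))) (K.Fr_lk F (Prod.fst
    q)))))) (K.lall (FC7.XE.dj' (FC7.Fr.X F)) (fun (m : ℕ) => (K.bor (K.bor (K.bnot (K.allN
    (FC6.Pa.n (FC7.Fr.P F)) (fun (i : ℕ) => (K.bnot (K.band (FC7.Fr.rq F i) (K.tbit m (FC7.XE.ce'
    (FC7.Fr.X F) i))))))) (K.bnot (K.allN (FC6.Pa.n (FC7.Fr.P F)) (fun (i : ℕ) => (K.bnot (K.band
    (K.band (K.band (K.Fr_lk F i) (K.bnot (Nat.beq (FC6.Pa.α (FC7.Fr.P F) i) i))) (K.tbit m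
    (FC7.XE.ce' (FC7.Fr.X F) i))) (K.tbit m (FC7.XE.ce' (FC7.Fr.X F) (FC6.Pa.α (FC7.Fr.P F)
    i))))))))) (K.bnot (K.allN (FC7.XE.x (FC7.Fr.X F)) (fun (a : ℕ) => (K.bnot (K.allN (FC6.Pa.n
    (FC7.Fr.P F)) (fun (i : ℕ) => (K.bor (K.bnot (Nat.beq (FC6.Pa.l (FC7.Fr.P F) i) a)) (K.tbit m
    (FC7.XE.ce' (FC7.Fr.X F) i)))))))))))))

theorem Fr_chk_eq : @K.Fr_chk = @FC7.Fr.chk := by
  funext F
  simp only [K.Fr_chk, FC7.Fr.chk, K.band_eq, K.bor_eq, K.bnot_eq, K.beqB_eq, K.tbit_eq, K.kmax_eq,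
    K.kmin_eq, K.nbeq_eq, K.nble_eq, K.bif_b, K.lall_eq, K.lany_eq, K.lmap_eq, K.lfilter_eq,
    K.llen_eq, K.lemp_eq, K.lsum_eq, K.lgetD_eq, K.lmem_eq, K.contains_eq, K.nodup_eq, K.lrange_eq,
    K.lapp_eq, K.lflat_eq, K.lfmap_eq, K.ltake_eq, K.lfoldl_eq, K.leq_eq, decide_eq_true_eq, ne_eq,
    decide_not, Bool.decide_and, Bool.decide_or, Bool.decide_eq_true, Bool.decide_eq_false,
    Nat.succ_eq_add_one, Bool.beq_eq_decide_eq, bne, Bool.not_eq_true', Bool.or_eq_true,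
    Bool.and_eq_true, K.Pa_good_eq, K.XE_sta_eq, K.Fr_XX_eq, K.XE_ringOk_eq, K.allN_eq, K.Fr_ne_eq,
    K.Fr_cel_eq, K.Fr_hv_eq, K.Fr_hk_eq, K.Fr_lk_eq] <;> rfl

noncomputable def WS_chkG (W : FC7.WS) : Bool :=
  (K.band (K.band (K.band (K.band (K.band (K.WR_chk (FC7.WS.toWR W)) (K.Cf_chk (K.WS_cf W)))
    (K.Cf_chkL (K.WS_cf W) (FC7.Wt.lt (FC7.WR.toWt (FC7.WS.toWR W))))) (K.Cf_chk4 (K.WS_cf W)
    (K.WS_bg W))) (K.lall (FC7.WR.dq (FC7.WS.toWR W)) (fun (q : ℕ × ℕ) => (K.Cf_sd (K.WS_cf W)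
    (Prod.fst q) (Prod.snd q))))) (K.Fr_chk (FC7.WR.F (FC7.WS.toWR W))))

theorem WS_chkG_eq : @K.WS_chkG = @FC7.WS.chkG := by
  funext W
  simp only [K.WS_chkG, FC7.WS.chkG, K.band_eq, K.bor_eq, K.bnot_eq, K.beqB_eq, K.tbit_eq,
    K.kmax_eq, K.kmin_eq, K.nbeq_eq, K.nble_eq, K.bif_b, K.lall_eq, K.lany_eq, K.lmap_eq,
    K.lfilter_eq, K.llen_eq, K.lemp_eq, K.lsum_eq, K.lgetD_eq, K.lmem_eq, K.contains_eq, K.nodup_eq,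
    K.lrange_eq, K.lapp_eq, K.lflat_eq, K.lfmap_eq, K.ltake_eq, K.lfoldl_eq, K.leq_eq,
    decide_eq_true_eq, ne_eq, decide_not, Bool.decide_and, Bool.decide_or, Bool.decide_eq_true,
    Bool.decide_eq_false, Nat.succ_eq_add_one, Bool.beq_eq_decide_eq, bne, Bool.not_eq_true',
    Bool.or_eq_true, Bool.and_eq_true, K.WR_chk_eq, K.Cf_chk_eq, K.WS_cf_eq, K.Cf_chkL_eq,
    K.Cf_chk4_eq, K.WS_bg_eq, K.Cf_sd_eq, K.Fr_chk_eq] <;> rfl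

noncomputable def WS_chkCp (W : FC7.WS) (w0 : List ℕ) (nb : List (ℕ × List ℕ)) (pl : List ℕ) : Bool
  :=
  (K.band (K.band (K.band (K.band (K.band (K.band (Nat.ble (Nat.succ (nat_lit 0)) (FC6.Stars.nc
    (FC7.Wt.Z (FC7.WR.toWt (FC7.WS.toWR W))))) (FC7.Wt.ac (FC7.WR.toWt (FC7.WS.toWR W)) (nat_lit
    0))) (K.relw (K.cz w0 nb) w0 (FC7.WS.wd W (nat_lit 0)))) (K.nk2 w0)) (K.lall nb (fun (p : ℕ ×
    List ℕ) => (K.nk2 (Prod.snd p))))) (K.allN (FC6.Stars.nc (FC7.Wt.Z (FC7.WR.toWt (FC7.WS.toWR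
    W)))) (fun (a : ℕ) => (K.bor (Nat.beq a (nat_lit 0)) (K.band (Nat.beq (FC6.Stars.pa (FC7.Wt.Z
    (FC7.WR.toWt (FC7.WS.toWR W))) a) (nat_lit 0)) (K.bor (K.bnot (FC7.Wt.ac (FC7.WR.toWt
    (FC7.WS.toWR W)) a)) (K.hasz w0 nb (FC7.WS.ra W a) (FC7.WS.wd W a)))))))) (K.lall (FC7.WS.pl W)
    (fun (i : ℕ) => (K.lany (K.lrange (K.llen w0)) (fun (r : ℕ) => (K.band (Nat.beq i (Nat.add
    (FC6.Stars.off (FC7.Wt.Z (FC7.WR.toWt (FC7.WS.toWR W))) (nat_lit 0)) (K.pos (FC7.WS.wd W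
    (nat_lit 0)) r))) (K.lmem r pl)))))))

theorem WS_chkCp_eq : @K.WS_chkCp = @FC7.WS.chkCp := by
  funext W w0 nb pl
  simp only [K.WS_chkCp, FC7.WS.chkCp, K.band_eq, K.bor_eq, K.bnot_eq, K.beqB_eq, K.tbit_eq,
    K.kmax_eq, K.kmin_eq, K.nbeq_eq, K.nble_eq, K.bif_b, K.lall_eq, K.lany_eq, K.lmap_eq,
    K.lfilter_eq, K.llen_eq, K.lemp_eq, K.lsum_eq, K.lgetD_eq, K.lmem_eq, K.contains_eq, K.nodup_eq,
    K.lrange_eq, K.lapp_eq, K.lflat_eq, K.lfmap_eq, K.ltake_eq, K.lfoldl_eq, K.leq_eq,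
    decide_eq_true_eq, ne_eq, decide_not, Bool.decide_and, Bool.decide_or, Bool.decide_eq_true,
    Bool.decide_eq_false, Nat.succ_eq_add_one, Bool.beq_eq_decide_eq, bne, Bool.not_eq_true',
    Bool.or_eq_true, Bool.and_eq_true, K.relw_eq, K.cz_eq, K.nk2_eq, K.allN_eq, K.hasz_eq, K.pos_eq]
    <;> rfl


end K

end Pool.FC7
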