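import Pool.Agent.FC7.KfB

/-! # Facts with the fast static checks -/

set_option linter.unusedSectionVars false

namespace Pool.FC7

open Pool.FC6

namespace K

/-- A FACT FOR A PATTERN OF CODES -/
theorem WG_noG {W : WG} (hG : K.WG_chkOp W 6 = true) (hE : W.F.One) {w0 : List ℕ}
    {nb : List (ℕ × List ℕ)} {pl : List ℕ} (hU : K.WG_chkCp W w0 nb pl = true) : NoG w0 nb pl := by
  rw [K.WG_chkOp_eq] at hG
  rw [K.WG_chkCp_eq] at hU
  exact WG.noG hG hE hU

/-- A FACT WITHOUT REPLACEMENT FOR A PATTERN OF CODES -/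
theorem WS_noG {W : WS} (hG : K.WS_chkG W = true) (hE : W.F.One) {w0 : List ℕ}
    {nb : List (ℕ × List ℕ)} {pl : List ℕ} (hU : K.WS_chkCp W w0 nb pl = true) : NoG w0 nb pl := by
  rw [K.WS_chkG_eq] at hG
  rw [K.WS_chkCp_eq] at hU
  exact WS.noG hG hE hU

end K

end Pool.FC7
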