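import Pool.Agent.FC7.Vr

/-! # Records from shared constants, long numbers in parts -/

set_option linter.unusedSectionVars false

namespace Pool.FC7

open Pool.FC6

namespace K

/-- a number in two parts, the lower one has 3072 bits -/
noncomputable def j (a b : ℕ) : ℕ := Nat.lor (Nat.shiftLeft a (nat_lit 3072)) b

end K

namespace Vs

namespace VR

/-- A record, every array is one number; `h`: bytes -/
noncomputable def mk4 (h a0 a1 a2 a3 a4 a5 a6 a7 a8 a9 a10 a11 a12 a13 a14 a15 a16 a17 a18 a19 a20 a21 a22 a23 a24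
    a25 a26 a27 a28 st stp lt dj djp s1 s2 s3 fa nm na fl lv ul gt D5 p5 sw tl wd bw pl tz t4 bg : ℕ) : VR :=
  VR.mk (K.tb h (nat_lit 0)) (K.tb h (nat_lit 1)) (K.tb h (nat_lit 2)) (K.tb h (nat_lit 3))
    (K.tb h (nat_lit 4)) (K.tb h (nat_lit 5)) (K.tb h (nat_lit 6)) (K.tb h (nat_lit 7))
    (K.tb h (nat_lit 8)) (K.tb h (nat_lit 9)) (K.tb h (nat_lit 10)) (K.tb h (nat_lit 11))
    (K.tb h (nat_lit 12)) (K.tb h (nat_lit 13)) (K.tb h (nat_lit 14)) (K.tb h (nat_lit 15))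
    (K.tb h (nat_lit 16)) (K.tb h (nat_lit 17)) (K.tb h (nat_lit 18))
    a0 a1 a2 a3 a4 a5 a6 a7 a8 a9 a10 a11 a12 a13 a14 a15 a16 a17 a18 a19 a20 a21 a22 a23 a24 a25
    a26 a27 a28 st stp lt dj djp s1 s2 s3 fa nm na K.T0 (K.dl fl) ⟨K.dll lv, K.dll ul⟩
    (Nat.beq (K.tb h (nat_lit 19)) (nat_lit 1)) (K.dt gt) (K.dll D5) (K.d5 p5) (K.dlh sw)
    (K.dll tl) (K.dlh wd) (K.dlh bw) (K.dl pl) (K.dl tz) (K.dl t4) (K.dl bg)

end VR

end Vs

end Pool.FC7
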