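import Pool.Agent.FC7.Tj
import Pool.Agent.FC7.Vj
import Pool.Agent.FC7.Gf

/-! # Records which are produced by programs

A record is a list of numbers (fields), packed in one number `X` (digits of four bits); the lengths of
the fields come first. `lz` produces `X` by copying pieces of another record and of `X` itself. The
records are checked after this, so nothing has to be known about `lz`. The programs are given by
words of 63 bits. -/

set_option linter.unusedSectionVars false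

namespace Pool.FC7

open Pool.FC6 Pool.FC7.Vs

namespace K

/-- sixteen words -/
structure S16 where
  a0 : ℕ
  a1 : ℕ
  a2 : ℕ
  a3 : ℕ
  a4 : ℕ
  a5 : ℕ
  a6 : ℕ
  a7 : ℕ
  a8 : ℕ
  a9 : ℕ
  a10 : ℕ
  a11 : ℕ
  a12 : ℕ
  a13 : ℕ
  a14 : ℕ
  a15 : ℕ

/-- four words -/
structure S4 where
  a0 : ℕ
  a1 : ℕ
  a2 : ℕ
  a3 : ℕ

/-- a word of 63 bits in front of a number -/
noncomputable def cw (a r : ℕ) : ℕ := Nat.lor (Nat.shiftLeft r (nat_lit 63)) a

/-- sixteen words in front of a number -/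
noncomputable def c (b : S16) (r : ℕ) : ℕ :=
  S16.rec (motive := fun _ => ℕ) (fun a0 a1 a2 a3 a4 a5 a6 a7 a8 a9 a10 a11 a12 a13 a14 a15 =>
    cw a0 (cw a1 (cw a2 (cw a3 (cw a4 (cw a5 (cw a6 (cw a7 (cw a8 (cw a9 (cw a10 (cw a11 (cw a12
      (cw a13 (cw a14 (cw a15 r)))))))))))))))) b

/-- four words in front of a number -/
noncomputable def d (b : S4) (r : ℕ) : ℕ :=
  S4.rec (motive := fun _ => ℕ) (fun a0 a1 a2 a3 => cw a0 (cw a1 (cw a2 (cw a3 r)))) b

/-- the decoder: `n` steps, program `P`, pointer `p`, output `O` with `L` bits -/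
noncomputable def lz (n : ℕ) : ℕ → ℕ → ℕ → ℕ → ℕ :=
  Nat.rec (motive := fun _ => ℕ → ℕ → ℕ → ℕ → ℕ) (fun _ _ O _ => O)
    (fun _ ih P p O L =>
      (fun a m =>
        (fun st => Nat.rec (motive := fun _ => ℕ) (st (Nat.shiftRight P (nat_lit 18)) (Nat.add p a))
            (fun t _ => Nat.rec (motive := fun _ => ℕ)
              (st (Nat.shiftRight P (nat_lit 38))
                (Nat.add (Nat.land (Nat.shiftRight P (nat_lit 16)) (nat_lit 4194300)) a))
              (fun _ _ => st (Nat.shiftRight P (nat_lit 26)) (Nat.sub (Nat.add (Nat.add p a)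
                (Nat.land (Nat.shiftRight P (nat_lit 16)) (nat_lit 1020))) (nat_lit 512))) t)
            (Nat.land P (nat_lit 3)))
        (fun R s => ih (Nat.shiftRight R a) (Nat.add s m)
          (Nat.lor O (Nat.shiftLeft (Nat.lor (Nat.land R (Nat.sub (Nat.shiftLeft (nat_lit 1) a) (nat_lit 1)))
            (Nat.shiftLeft (Nat.land (Nat.shiftRight O s) (Nat.sub (Nat.shiftLeft (nat_lit 1) m) (nat_lit 1))) a)) L))
          (Nat.add L (Nat.add a m))))
      (Nat.land P (nat_lit 508)) (Nat.land (Nat.shiftRight P (nat_lit 7)) (nat_lit 2044)))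
    n

/-- a record from another record `X` of `L` bits -/
noncomputable def y (n P X L : ℕ) : ℕ := Nat.shiftRight (lz n P (nat_lit 0) X L) L

/-- lanes of 16 bits -/
noncomputable def tx (T i : ℕ) : ℕ := Nat.land (Nat.shiftRight T (Nat.mul (nat_lit 16) i)) (nat_lit 65535)

/-- prefix sums of the lanes of 16 bits -/
noncomputable def pfx (T : ℕ) : ℕ := Nat.land (Nat.mul (Nat.shiftLeft T (nat_lit 16)) (nat_lit 148703959890135028310877887966356730157568121730296902828532943575386414751910064888465935238910662382319446345180570201929643242011186298109071294671742632479305374226847837489445176706951303095335310803070395649251325214395283054028326293056671482609716011339044442619696781719568385)) (nat_lit 9745314011399999080353382387875188310876226857595007526867906457212948690766426102465615065882010259225304916231408668183459169865203094046577987296312653419531277699956473029870789655490053648352799593479218378873685597925394874945746363615468965612827738803104277547081828589991914110975)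

/-- field `i` -/
noncomputable def gf (X T S i : ℕ) : ℕ :=
  Nat.land (Nat.shiftRight X (Nat.mul (nat_lit 4) (Nat.add (nat_lit 240) (tx S i))))
    (Nat.sub (Nat.shiftLeft (nat_lit 1) (Nat.mul (nat_lit 4) (tx T i))) (nat_lit 1))

/-- the fields of a record -/
noncomputable def g (X i : ℕ) : ℕ := gf X (Nat.land X (nat_lit 9745314011399999080353382387875188310876226857595007526867906457212948690766426102465615065882010259225304916231408668183459169865203094046577987296312653419531277699956473029870789655490053648352799593479218378873685597925394874945746363615468965612827738803104277547081828589991914110975)) (pfx (Nat.land X (nat_lit 9745314011399999080353382387875188310876226857595007526867906457212948690766426102465615065882010259225304916231408668183459169865203094046577987296312653419531277699956473029870789655490053648352799593479218378873685597925394874945746363615468965612827738803104277547081828589991914110975))) i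

noncomputable def rv (X : ℕ) : VR :=
  VR.mk4 (g X 0) (g X 1) (g X 2) (g X 3) (g X 4) (g X 5) (g X 6) (g X 7) (g X 8) (g X 9) (g X 10) (g X 11) (g X 12) (g X 13) (g X 14) (g X 15) (g X 16) (g X 17) (g X 18) (g X 19) (g X 20) (g X 21) (g X 22) (g X 23) (g X 24) (g X 25) (g X 26) (g X 27) (g X 28) (g X 29) (g X 30) (g X 31) (g X 32) (g X 33) (g X 34) (g X 35) (g X 36) (g X 37) (g X 38) (g X 39) (g X 40) (g X 41) (g X 42) (g X 43) (g X 44) (g X 45) (g X 46) (g X 47) (g X 48) (g X 49) (g X 50) (g X 51) (g X 52) (g X 53) (g X 54)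

noncomputable def pv (X : ℕ) : PK :=
  PK.mk2 (g X 0) (g X 1) (g X 2) (g X 3) (g X 4) (g X 5) (g X 6) (g X 7) (g X 8) (g X 9) (g X 10) (g X 11) (g X 12) (g X 13) (g X 14) (g X 15) (g X 16) (g X 17) (g X 18) (g X 19) (g X 20) (g X 21) (g X 22) (g X 23) (g X 24) (g X 25) (g X 26) (g X 27) (g X 28) (g X 29) (g X 30) (g X 31) (g X 32) (g X 33) (g X 34) (g X 35) (g X 36) (g X 37) (g X 38)

theorem inl {l r : List FCS.Fct} (h : ∀ Y ∈ lapp l r, NoL Y.1 Y.2) : ∀ Y ∈ l, NoL Y.1 Y.2 :=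
  fun Y hY => h Y (by rw [lapp_eq]; exact List.mem_append_left _ hY)

theorem inr {l r : List FCS.Fct} (h : ∀ Y ∈ lapp l r, NoL Y.1 Y.2) : ∀ Y ∈ r, NoL Y.1 Y.2 :=
  fun Y hY => h Y (by rw [lapp_eq]; exact List.mem_append_right _ hY)

/-! ### The checks -/

noncomputable def oVG (X : ℕ) : Bool := (fun C => okVG (rv X) (tx C 0) (tx C 1) (tx C 2) (tx C 3) (tx C 4) (tx C 5) (tx C 6) (tx C 7) (tx C 8) (g X 56) (tx C 9) (tx C 10) (tx C 11) (g X 57)) (g X 55)
noncomputable def oVS (X : ℕ) : Bool := (fun C => okVS (rv X) (tx C 0) (tx C 1) (tx C 2) (tx C 3) (tx C 4) (tx C 5) (tx C 6) (tx C 7) (tx C 8) (g X 56) (tx C 9) (tx C 10) (tx C 11) (g X 57)) (g X 55)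
noncomputable def oVQ (X : ℕ) : Bool := (fun C => okVQ (rv X) (g X 58) (tx C 0) (tx C 1) (tx C 2) (tx C 3) (tx C 4) (tx C 5) (tx C 6) (tx C 7) (tx C 8) (g X 56) (tx C 9) (tx C 10) (tx C 11) (g X 57)) (g X 55)
noncomputable def oG (X : ℕ) : Bool := (fun C => okG (pv X) (tx C 0) (tx C 1) (tx C 2) (tx C 3) (tx C 4) (tx C 5) (tx C 6) (tx C 7) (tx C 8) (g X 56) (tx C 9) (tx C 10) (tx C 11) (g X 57)) (g X 55)
noncomputable def oS (X : ℕ) : Bool := (fun C => okS (pv X) (tx C 0) (tx C 1) (tx C 2) (tx C 3) (tx C 4) (tx C 5) (tx C 6) (tx C 7) (tx C 8) (g X 56) (tx C 9) (tx C 10) (tx C 11) (g X 57)) (g X 55)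
noncomputable def oQ (X : ℕ) : Bool := (fun C => okGQ (pv X) (g X 58) (tx C 0) (tx C 1) (tx C 2) (tx C 3) (tx C 4) (tx C 5) (tx C 6) (tx C 7) (tx C 8) (g X 56) (tx C 9) (tx C 10) (tx C 11) (g X 57)) (g X 55)
noncomputable def oVT (X : ℕ) (TL : List (ℕ × ℕ)) : Bool := (fun C => okVT (rv X) TL (g X 58) (tx C 0) (tx C 1) (tx C 2) (tx C 3) (tx C 4) (tx C 5) (tx C 6) (tx C 7) (tx C 8) (g X 56) (tx C 9) (tx C 10) (tx C 11) (g X 57)) (g X 55)
noncomputable def oGT (X : ℕ) (TL : List (ℕ × ℕ)) : Bool := (fun C => okGT (pv X) TL (g X 58) (tx C 0) (tx C 1) (tx C 2) (tx C 3) (tx C 4) (tx C 5) (tx C 6) (tx C 7) (tx C 8) (g X 56) (tx C 9) (tx C 10) (tx C 11) (g X 57)) (g X 55)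

noncomputable def fVG (X : ℕ) (l : List FCS.Fct) : Bool := band (oVG X) (lall l (keyG (VR.W (rv X))))
noncomputable def fVS (X : ℕ) (l : List FCS.Fct) : Bool := band (oVS X) (lall l (keyS (VR.WS (rv X))))
noncomputable def fVQ (X : ℕ) (l : List FCS.Fct) : Bool := band (oVQ X) (lall l (keyG (VR.W (rv X))))
noncomputable def fG (X : ℕ) (l : List FCS.Fct) : Bool := band (oG X) (lall l (keyG (PK.G (pv X))))
noncomputable def fS (X : ℕ) (l : List FCS.Fct) : Bool := band (oS X) (lall l (keyS (PK.S (pv X))))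
noncomputable def fQ (X : ℕ) (l : List FCS.Fct) : Bool := band (oQ X) (lall l (keyG (PK.G (pv X))))
/-- the record of a fact with branching -/
noncomputable def fVT (X : ℕ) (TL : List (ℕ × ℕ)) (l : List FCS.Fct) : Bool :=
  band (oVT X TL) (lall l (keyG (VR.W (rv X))))
noncomputable def fGT (X : ℕ) (TL : List (ℕ × ℕ)) (l : List FCS.Fct) : Bool :=
  band (oGT X TL) (lall l (keyG (PK.G (pv X))))
/-- a member of a fact with branching, `Z`: the record of the fact -/
noncomputable def mVT (Z X : ℕ) (TL : List (ℕ × ℕ)) (l : List FCS.Fct) : Bool :=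
  band (VR.sim (rv Z) (rv X)) (fVT X TL l)
noncomputable def mGT (Z X : ℕ) (TL : List (ℕ × ℕ)) (l : List FCS.Fct) : Bool :=
  band (simG (pv Z) (pv X)) (fGT X TL l)

theorem b1 {a b : Bool} (h : band a b = true) : a = true := by
  rw [band_eq, Bool.and_eq_true] at h
  exact h.1

theorem b2 {a b : Bool} (h : band a b = true) : b = true := by
  rw [band_eq, Bool.and_eq_true] at h
  exact h.2

theorem rVG {X : ℕ} {l : List FCS.Fct} (h : fVG X l = true) : ∀ Y ∈ l, NoL Y.1 Y.2 :=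
  recVG (b1 h) (b2 h)

theorem rVS {X : ℕ} {l : List FCS.Fct} (h : fVS X l = true) : ∀ Y ∈ l, NoL Y.1 Y.2 :=
  recVS (b1 h) (b2 h)

theorem rVQ {X : ℕ} {l : List FCS.Fct} (h : fVQ X l = true) : ∀ Y ∈ l, NoL Y.1 Y.2 :=
  recVQ rlOf (b1 h) (b2 h)

theorem rG {X : ℕ} {l : List FCS.Fct} (h : fG X l = true) : ∀ Y ∈ l, NoL Y.1 Y.2 :=
  recG (b1 h) (b2 h)

theorem rS {X : ℕ} {l : List FCS.Fct} (h : fS X l = true) : ∀ Y ∈ l, NoL Y.1 Y.2 :=
  recS (b1 h) (b2 h)

theorem rQ {X : ℕ} {l : List FCS.Fct} (h : fQ X l = true) : ∀ Y ∈ l, NoL Y.1 Y.2 :=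
  recGQ (b1 h) (b2 h)

theorem mV {Z X : ℕ} {TL : List (ℕ × ℕ)} {l : List FCS.Fct} (h : mVT Z X TL l = true) :
    (VR.W (rv Z)).Mb l (Tb.tbl TL) := mbV (b1 (b2 h)) (b1 h) (b2 (b2 h))

theorem mG {Z X : ℕ} {TL : List (ℕ × ℕ)} {l : List FCS.Fct} (h : mGT Z X TL l = true) :
    (PK.G (pv Z)).Mb l (Tb.tbl TL) := mbG (b1 (b2 h)) (b1 h) (b2 (b2 h))

theorem m2V {Z : ℕ} {TLr : List (ℕ × ℕ)} {l : List FCS.Fct} (h : fVT Z TLr l = true)
    {TL TL0 : List (ℕ × ℕ)} {C : List (ℕ × List (ℕ × ℕ))}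
    (h0 : (VR.W (rv Z)).Mb l (Tb.tbl TL0)) (hC : ∀ q ∈ C, (VR.W (rv Z)).Mb l (Tb.tbl q.2))
    (hc : crt2 (rv Z) TL TL0 C = true) : (VR.W (rv Z)).Mb l (Tb.tbl TL) := mb2V (b1 h) h0 hC hc

theorem m2G {Z : ℕ} {TLr : List (ℕ × ℕ)} {l : List FCS.Fct} (h : fGT Z TLr l = true)
    {TL TL0 : List (ℕ × ℕ)} {C : List (ℕ × List (ℕ × ℕ))}
    (h0 : (PK.G (pv Z)).Mb l (Tb.tbl TL0)) (hC : ∀ q ∈ C, (PK.G (pv Z)).Mb l (Tb.tbl q.2))
    (hc : crt2G (pv Z) TL TL0 C = true) : (PK.G (pv Z)).Mb l (Tb.tbl TL) := mb2G (b1 h) h0 hC hc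

theorem rBV {Z : ℕ} {TL : List (ℕ × ℕ)} {l : List FCS.Fct} (h : fVT Z TL l = true)
    {C : List (ℕ × List (ℕ × ℕ))} (hC : ∀ q ∈ C, (VR.W (rv Z)).Mb l (Tb.tbl q.2))
    (hc : crt (rv Z) TL C = true) : ∀ Y ∈ l, NoL Y.1 Y.2 := recBR (b1 h) (b2 h) hC hc

theorem rBG {Z : ℕ} {TL : List (ℕ × ℕ)} {l : List FCS.Fct} (h : fGT Z TL l = true)
    {C : List (ℕ × List (ℕ × ℕ))} (hC : ∀ q ∈ C, (PK.G (pv Z)).Mb l (Tb.tbl q.2))
    (hc : crtG (pv Z) TL C = true) : ∀ Y ∈ l, NoL Y.1 Y.2 := recBG (b1 h) (b2 h) hC hc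

end K

end Pool.FC7
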