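import Pool.Agent.FC7.Lz

namespace Pool.FC7

namespace K

/-- a word of 512 bits in front of a number -/
noncomputable def w5 (a r : ℕ) : ℕ := Nat.lor (Nat.shiftLeft r (nat_lit 512)) a

/-- four words of 512 bits in front of a number -/
noncomputable def e5 (b : S4) (r : ℕ) : ℕ :=
  S4.rec (motive := fun _ => ℕ) (fun a0 a1 a2 a3 => w5 a0 (w5 a1 (w5 a2 (w5 a3 r)))) b

end K

end Pool.FC7
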