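import Pool.Agent.FC7.Cls
import Pool.Agent.FC7.Flp

/-! # Minimal counterexamples have no real cuts with at most three edges -/

open Finset

namespace Pool.FC7

open Pool.FC6 Pool.FC6.St

variable {D V : Type} [Fintype D] [DecidableEq V] {S : St D V} {L : D → Bool} {w : D → ℕ} {Δ : ℕ}

/-- all labels have weight one -/
def W1 {D : Type} (L : D → Bool) (w : D → ℕ) : Prop := ∀ d, w d = if L d = true then 1 else 0

/-- a minimal counterexample -/
structure MC (Δ : ℕ) (S : St D V) (L : D → Bool) (w : D → ℕ) : Prop where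
  w1 : W1 L w
  ok : Ok Δ S L w
  no : ¬ ∃ c, Sol S L c
  min : ∀ (D' V' : Type) [Fintype D'] [DecidableEq V'] (S' : St D' V') (L' : D' → Bool)
    (w' : D' → ℕ), W1 L' w' → Ok Δ S' L' w' → mu Δ S' L' < mu Δ S L → ∃ c, Sol S' L' c

theorem W1.dl (h : W1 L w) (X : Finset V) : W1 (dL S L X) (dw S w X) := by
  intro d
  show (if (S.del X).real d = true then w d else 0) =
    if (L d && (S.del X).real d) = true then 1 else 0
  rw [h d]
  cases L d <;> cases (S.del X).real d <;> rfl

theorem dl_rdeg_le (X : Finset V) (y : V) : (dl S w X).rdeg y ≤ S.rdeg y := by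
  unfold St.rdeg
  refine Finset.sum_le_sum fun d _ => ?_
  by_cases h1 : S.M.v d = y ∧ (S.del X).real d = true
  · have := (del_real.1 h1.2).1
    rw [if_pos (show S.M.v d = y ∧ S.real d = true from ⟨h1.1, this⟩)]
    split_ifs <;> omega
  · rw [if_neg (show ¬ ((dl S w X).M.v d = y ∧ (dl S w X).real d = true) from h1)]
    exact Nat.zero_le _

theorem cw_ge (k : ℕ) : 2024 ≤ cw k := by unfold cw; split_ifs <;> omega

/-- the deletion of alive vertices decreases the potential -/
theorem mu_dl (h : Ok Δ S L w) (hΔ : Δ ≤ 6) {X : Finset V} (hX : X ⊆ S.A) (hne : X.Nonempty)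
    (hex : ∃ d, (S.del X).real d = true) : mu Δ (dl S w X) (dL S L X) < mu Δ S L := by
  classical
  have A' : (dl S w X).A = S.A \ X := rfl
  have hsub : ((dl S w X).A.filter fun x => 4 ≤ (dl S w X).rdeg x) ⊆
      S.A.filter fun x => 4 ≤ S.rdeg x := by
    intro y hy
    rw [Finset.mem_filter, A', Finset.mem_sdiff] at hy
    exact Finset.mem_filter.2 ⟨hy.1.1, le_trans hy.2 (dl_rdeg_le X y)⟩
  by_cases c1 : (∃ x ∈ X, 4 ≤ S.rdeg x) ∨ ∃ y ∈ S.A \ X, 4 ≤ S.rdeg y ∧ ¬ 4 ≤ (dl S w X).rdeg y
  · refine mu_lt_n4 (Finset.card_lt_card ⟨hsub, fun hs => ?_⟩)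
    rcases c1 with ⟨x, hx, hx4⟩ | ⟨y, hy, hy4, hy5⟩
    · have := hs (Finset.mem_filter.2 ⟨hX hx, hx4⟩)
      rw [Finset.mem_filter, A', Finset.mem_sdiff] at this
      exact this.1.2 hx
    · have := hs (Finset.mem_filter.2 ⟨(Finset.mem_sdiff.1 hy).1, hy4⟩)
      exact hy5 (Finset.mem_filter.1 this).2
  push Not at c1
  obtain ⟨c1, c2⟩ := c1
  refine mu_lt_rq (Finset.card_le_card hsub) ?_
  have W := h.toWf
  -- the number of small vertices
  have h3 : n3 (dl S w X) + X.card ≤ n3 S := by
    unfold n3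
    rw [← Finset.card_union_of_disjoint]
    · refine Finset.card_le_card fun y hy => ?_
      rcases Finset.mem_union.1 hy with hy | hy
      · rw [Finset.mem_filter, A'] at hy
        refine Finset.mem_filter.2 ⟨(Finset.mem_sdiff.1 hy.1).1, fun h4 => hy.2 (c2 y hy.1 h4)⟩
      · exact Finset.mem_filter.2 ⟨hX hy, by have := c1 y hy; omega⟩
    · rw [Finset.disjoint_left]
      intro y hy hy'
      rw [Finset.mem_filter, A', Finset.mem_sdiff] at hy
      exact hy.1.2 hy'
  -- the darts
  have hper : ∀ d, (dl S w X).u d * cw (fu (dl S w X) d) +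
      3054 * (if dL S L X d = true then 1 else 0) +
      3054 * (if L d = true ∧ (S.M.v d ∈ X ∨ S.M.v (S.M.α d) ∈ X) then 1 else 0) ≤
      S.u d * cw (fu S d) + 3054 * (if L d = true then 1 else 0) +
      2024 * (if S.real d = true ∧ S.M.v d ∉ X ∧ S.M.v (S.M.α d) ∈ X then 1 + w d else 0) := by
    intro d
    have l1 : (if dL S L X d = true then 1 else 0) +
        (if L d = true ∧ (S.M.v d ∈ X ∨ S.M.v (S.M.α d) ∈ X) then 1 else 0) =
        (if L d = true then 1 else 0) := by
      have e1 : dL S L X d = true ↔ L d = true ∧ S.M.v d ∉ X ∧ S.M.v (S.M.α d) ∉ X := by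
        show (L d && (S.del X).real d) = true ↔ _
        rw [Bool.and_eq_true, del_real]
        constructor
        · rintro ⟨a1, a2, a3, a4⟩; exact ⟨a1, a3, a4⟩
        · rintro ⟨a1, a3, a4⟩; exact ⟨a1, W.L_real d a1, a3, a4⟩
      simp only [e1]
      by_cases a1 : L d = true <;> by_cases a2 : S.M.v d ∈ X <;>
        by_cases a3 : S.M.v (S.M.α d) ∈ X <;> simp [a1, a2, a3]
    have l2 : (dl S w X).u d * cw (fu (dl S w X) d) ≤ S.u d * cw (fu S d) +
        2024 * (if S.real d = true ∧ S.M.v d ∉ X ∧ S.M.v (S.M.α d) ∈ X then 1 + w d else 0) := by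
      have e0 : (dl S w X).u d = if S.M.v d ∈ X then 0 else
        S.u d + (if S.real d = true ∧ S.M.v (S.M.α d) ∈ X then 1 + w d else 0) := rfl
      by_cases a1 : S.M.v d ∈ X
      · rw [e0, if_pos a1, zero_mul]; exact Nat.zero_le _
      · by_cases a2 : S.real d = true ∧ S.M.v (S.M.α d) ∈ X
        · have k1 : 3 ≤ fu (dl S w X) d := h.dl_fu hex ⟨S.M.φ d,
            (scφ d d).2 ((S.del X).sc.iseqv.refl d), by rw [S.M.vφ]; exact a2.2,
            by rw [S.M.vφ]; exact W.real_A _ (by rw [W.real_α]; exact a2.1)⟩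
          rw [e0, if_neg a1, if_pos a2, if_pos ⟨a2.1, a1, a2.2⟩, cw3 k1]
          have := Nat.mul_le_mul_left (S.u d) (cw_ge (fu S d))
          rw [Nat.add_mul]
          linarith
        · rw [e0, if_neg a1, if_neg a2, if_neg (fun h5 => a2 ⟨h5.1, h5.2.2⟩), add_zero, mul_zero,
            add_zero]
          by_cases hc : ∃ e, (S.del X).sc.r d e ∧ S.M.v e ∈ X ∧ S.M.v e ∈ S.A
          · rw [cw3 (h.dl_fu hex hc)]
            exact Nat.mul_le_mul_left _ (cw_ge _)
          · obtain ⟨u1, sc1⟩ := h.dl_un hc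
            refine le_of_eq ?_
            congr 2
            unfold fu
            refine Finset.sum_congr rfl fun e _ => ?_
            by_cases h2 : S.sc.r d e
            · have h3 := (sc1 e).1 h2
              rw [if_pos h2, if_pos (show (FC7.dl S w X).sc.r d e from h3), u1 e h3]
            · rw [if_neg h2, if_neg (show ¬ (FC7.dl S w X).sc.r d e from
                fun h3 => h2 ((sc1 e).2 h3))]
    omega
  have hsum := Finset.sum_le_sum (s := Finset.univ) fun d _ => hper d
  simp only [Finset.sum_add_distrib, ← Finset.mul_sum] at hsum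
  -- the created units
  let cc : V → ℕ := fun x => ∑ d, if S.M.v d = x ∧ S.real d = true ∧ S.M.v (S.M.α d) ∉ X then
    1 + w d else 0
  let lb : V → ℕ := fun x => ∑ d, if S.M.v d = x ∧ L d = true ∧ S.M.v (S.M.α d) ∉ X then 1 else 0
  have hC : (∑ d, if S.real d = true ∧ S.M.v d ∉ X ∧ S.M.v (S.M.α d) ∈ X then 1 + w d else 0) =
      ∑ x ∈ X, cc x := by
    rw [← sum_α_nat S.M (fun d => if S.real d = true ∧ S.M.v d ∉ X ∧ S.M.v (S.M.α d) ∈ X then
      1 + w d else 0), Finset.sum_comm]
    refine Finset.sum_congr rfl fun d _ => ?_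
    rw [S.M.αα, W.real_α, W.w_α]
    by_cases a1 : S.M.v d ∈ X
    · rw [Finset.sum_eq_single_of_mem _ a1 (fun y _ hy => if_neg (fun h5 => hy h5.1.symm))]
      simp [a1]
    · rw [Finset.sum_eq_zero (fun y hy => if_neg (fun h5 => a1 (by rw [h5.1]; exact hy)))]
      simp [a1]
  have hT : 2 * ∑ x ∈ X, lb x ≤
      ∑ d, if L d = true ∧ (S.M.v d ∈ X ∨ S.M.v (S.M.α d) ∈ X) then 1 else 0 := by
    have e1 : ∑ x ∈ X, lb x = ∑ d, if L d = true ∧ S.M.v d ∈ X ∧ S.M.v (S.M.α d) ∉ X then 1
        else 0 := by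
      rw [Finset.sum_comm]
      refine Finset.sum_congr rfl fun d _ => ?_
      by_cases a1 : S.M.v d ∈ X
      · rw [Finset.sum_eq_single_of_mem _ a1 (fun y _ hy => if_neg (fun h5 => hy h5.1.symm))]
        simp [a1]
      · rw [Finset.sum_eq_zero (fun y hy => if_neg (fun h5 => a1 (by rw [h5.1]; exact hy)))]
        simp [a1]
    have e2 : ∑ x ∈ X, lb x = ∑ d, if L d = true ∧ S.M.v (S.M.α d) ∈ X ∧ S.M.v d ∉ X then 1
        else 0 := by
      rw [e1, ← sum_α_nat S.M (fun d => if L d = true ∧ S.M.v d ∈ X ∧ S.M.v (S.M.α d) ∉ X then 1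
        else 0)]
      refine Finset.sum_congr rfl fun d _ => ?_
      rw [S.M.αα, W.L_α]
    rw [two_mul]
    nth_rewrite 1 [e1]
    rw [e2, ← Finset.sum_add_distrib]
    refine Finset.sum_le_sum fun d _ => ?_
    by_cases a1 : L d = true <;> by_cases a2 : S.M.v d ∈ X <;>
      by_cases a3 : S.M.v (S.M.α d) ∈ X <;> simp [a1, a2, a3]
  have hx : ∀ x ∈ X, 2024 * cc x + 1 ≤ 6120 + 6108 * lb x := by
    intro x hx
    have r3 := c1 x hx
    have dg := W.deg x (hX hx)
    have k1 : cc x ≤ Δ := by
      refine le_trans (Finset.sum_le_sum fun d _ => ?_) dg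
      by_cases a1 : S.M.v d = x ∧ S.real d = true ∧ S.M.v (S.M.α d) ∉ X
      · rw [if_pos a1, if_pos a1.1, if_pos a1.2.1]; omega
      · rw [if_neg a1]; exact Nat.zero_le _
    by_cases hl : lb x = 0
    · have k2 : cc x ≤ S.rdeg x := by
        unfold St.rdeg
        refine Finset.sum_le_sum fun d _ => ?_
        by_cases a1 : S.M.v d = x ∧ S.real d = true ∧ S.M.v (S.M.α d) ∉ X
        · have : w d = 0 := by
            by_contra h5
            have h6 := (Finset.sum_eq_zero_iff.1 hl) d (Finset.mem_univ _)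
            rw [if_pos ⟨a1.1, W.w_L d h5, a1.2.2⟩] at h6
            exact one_ne_zero h6
          rw [if_pos a1, if_pos ⟨a1.1, a1.2.1⟩, this]
        · rw [if_neg a1]; exact Nat.zero_le _
      omega
    · omega
  have hxs := Finset.sum_le_sum hx
  rw [Finset.sum_add_distrib, Finset.sum_add_distrib, ← Finset.mul_sum, ← Finset.mul_sum,
    Finset.sum_const, Finset.sum_const, smul_eq_mul, smul_eq_mul] at hxs
  have hcard := hne.card_pos
  rw [hC] at hsum
  unfold rq
  omega

/-- no smaller state is at least as hard -/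
theorem MC.lt (h : MC Δ S L w) {D' V' : Type} [Fintype D'] [DecidableEq V'] {S' : St D' V'}
    {L' : D' → Bool} {w' : D' → ℕ} (w1 : W1 L' w') (ok : Ok Δ S' L' w')
    (hmu : mu Δ S' L' < mu Δ S L) (hs : ∀ c, Sol S' L' c → ∃ c, Sol S L c) : False := by
  obtain ⟨c, hc⟩ := h.min _ _ _ _ _ w1 ok hmu
  exact h.no (hs c hc)

/-- at most one monochromatic cut dart -/
theorem oneMono_of_maj {s c : V → Bool} (h3 : S.rc s ≤ 3)
    (hm : (Finset.univ.filter fun d => (S.real d = true ∧ s (S.M.v d) = true ∧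
      s (S.M.v (S.M.α d)) = false) ∧ c (S.M.v d) = c (S.M.v (S.M.α d))).card ≤
      (Finset.univ.filter fun d => (S.real d = true ∧ s (S.M.v d) = true ∧
      s (S.M.v (S.M.α d)) = false) ∧ ¬ c (S.M.v d) = c (S.M.v (S.M.α d))).card) :
    OneMono S s c := by
  classical
  set P := Finset.univ.filter fun d => (S.real d = true ∧ s (S.M.v d) = true ∧
      s (S.M.v (S.M.α d)) = false) ∧ c (S.M.v d) = c (S.M.v (S.M.α d)) with hP
  set Q := Finset.univ.filter fun d => (S.real d = true ∧ s (S.M.v d) = true ∧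
      s (S.M.v (S.M.α d)) = false) ∧ ¬ c (S.M.v d) = c (S.M.v (S.M.α d)) with hQ
  have hPQ : P.card + Q.card = S.rc s := by
    have e1 := Finset.card_filter_add_card_filter_not (s := Finset.univ.filter fun d =>
      S.real d = true ∧ s (S.M.v d) = true ∧ s (S.M.v (S.M.α d)) = false)
      (p := fun d => c (S.M.v d) = c (S.M.v (S.M.α d)))
    rw [Finset.filter_filter, Finset.filter_filter] at e1
    rw [hP, hQ, e1]
    unfold St.rc
    rw [Finset.card_filter]
  have hP1 : P.card ≤ 1 := by omega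
  intro d d' r r' t t' f f' m m'
  exact Finset.card_le_one.1 hP1 d (by simp [hP, r, t, f, m]) d' (by simp [hP, r', t', f', m'])

/-- the hole of a side is visited -/
theorem hole_vi (h : Ok Δ S L w) {s : V → Bool} (hT : ConS S.M s true) (hF : ConS S.M s false)
    (h1 : ∃ x ∈ S.A, s x = true) (h2 : ∃ x ∈ S.A, s x = false)
    {d0 : D} (hd0 : s (S.M.v d0) ≠ s (S.M.v (S.M.α d0))) {b : Bool} {cb : V → Bool}
    (hs : Sol (sd S w s b) (sdL S L s b) cb) : Vi (sd S w s b) cb d0 := by
  classical
  have rA := h.real_A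
  have rα := h.real_α
  have inv : ∀ f : D → ℝ, (sd S w s b).Cl f → ∀ d, s (S.M.v d) ≠ s (S.M.v (S.M.α d)) →
      f d = f d0 := by
    intro f hf d hd
    exact cut_const S.M hT hF hf.1 (fun e he => hf.2 e (sd_virt rA rα he)) hd hd0
  have tcl : ∀ f : D → ℝ, (sd S w s b).Test cb f → (sd S w s b).Cl f := fun f hf =>
    ⟨hf.1, fun d hd => hf.2 d (Or.inl hd)⟩
  by_cases hc : ∃ d, S.real d = true ∧ s (S.M.v d) ≠ s (S.M.v (S.M.α d))
  · obtain ⟨d, hd, hds⟩ := hc
    obtain ⟨e, he, heb, heb'⟩ : ∃ e, S.real e = true ∧ s (S.M.v e) = b ∧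
        s (S.M.v (S.M.α e)) ≠ b := by
      by_cases h3 : s (S.M.v d) = b
      · exact ⟨d, hd, h3, fun h4 => hds (h3.trans h4.symm)⟩
      · refine ⟨S.M.α d, by rw [rα, hd], ?_, by rw [S.M.αα]; exact h3⟩
        cases b <;> cases h5 : s (S.M.v d) <;> cases h6 : s (S.M.v (S.M.α d)) <;> simp_all
    have hu : (sd S w s b).u e ≠ 0 := by
      show (if S.M.v e ∈ (S.A.filter fun x => s x ≠ b) then 0 else S.u e +
        (if S.real e = true ∧ S.M.v (S.M.α e) ∈ (S.A.filter fun x => s x ≠ b) then
          1 + w e else 0)) ≠ 0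
      rw [if_neg (by simp [heb]), if_pos ⟨he, Finset.mem_filter.2
        ⟨rA _ (by rw [rα, he]), heb'⟩⟩]
      omega
    exact (hs.req e hu).eq fun f hf => inv f (tcl f hf) e (by
      rw [heb]; exact fun h5 => heb' h5.symm)
  · push Not at hc
    -- no real cut edges: units of the mixed face
    let t : D → Bool := fun d => if ∃ e, S.sc.r d e ∧ s (S.M.v e) = !b then !b else b
    have ht : S.Cl t := by
      have key : ∀ d d', (∀ e, S.sc.r d e ↔ S.sc.r d' e) → t d = t d' := by
        intro d d' h3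
        simp only [t, h3]
      refine ⟨fun d => key _ _ fun e => ?_, fun d hd => key _ _ fun e => ?_⟩
      · exact ⟨fun h3 => S.sc.iseqv.trans ((scφ d d).2 (S.sc.iseqv.refl d)) h3,
          fun h3 => S.sc.iseqv.trans (S.sc.iseqv.symm ((scφ d d).2 (S.sc.iseqv.refl d))) h3⟩
      · exact ⟨fun h3 => S.sc.iseqv.trans ((scα hd d).2 (S.sc.iseqv.refl d)) h3,
          fun h3 => S.sc.iseqv.trans (S.sc.iseqv.symm ((scα hd d).2 (S.sc.iseqv.refl d))) h3⟩
    have k := h.ec s t ht h1 h2
    have hex : ∃ d ∈ Finset.univ, 0 < cfw S w s t d := by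
      by_contra hn
      push Not at hn
      have : ∑ d, cfw S w s t d = 0 := Finset.sum_eq_zero fun d hd => by
        have := hn d hd
        omega
      omega
    obtain ⟨d, _, hd⟩ := hex
    have hw0 : s (S.M.v d) ≠ s (S.M.v (S.M.α d)) → w d = 0 := by
      intro h3
      by_contra h4
      exact h3 (hc d (h.L_real d (h.w_L d h4)))
    have hd' : s (S.M.v d) ≠ t d ∧ S.u d ≠ 0 := by
      unfold cfw St.cf at hd
      by_contra hn
      have a1 : (if S.real d = true ∧ s (S.M.v d) ≠ s (S.M.v (S.M.α d)) then 1 else 0) = 0 := by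
        rw [if_neg]
        rintro ⟨h3, h4⟩
        exact h4 (hc d h3)
      have a2 : (if s (S.M.v d) ≠ s (S.M.v (S.M.α d)) then w d else 0) = 0 := by
        split_ifs with h3
        · exact hw0 h3
        · rfl
      have a3 : (if s (S.M.v d) ≠ t d then S.u d else 0) = 0 := by
        split_ifs with h3
        · by_contra h4; exact hn ⟨h3, h4⟩
        · rfl
      rw [a1, a2, a3] at hd
      omega
    -- `d` is on the side `b` and its face meets the other side
    have hmix : s (S.M.v d) = b ∧ ∃ e, S.sc.r d e ∧ s (S.M.v e) = !b := by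
      by_cases h3 : ∃ e, S.sc.r d e ∧ s (S.M.v e) = !b
      · refine ⟨?_, h3⟩
        have h4 := hd'.1
        simp only [t, if_pos h3] at h4
        cases b <;> cases h5 : s (S.M.v d) <;> simp_all
      · exfalso
        have h4 := hd'.1
        simp only [t, if_neg h3] at h4
        apply h3
        refine ⟨d, S.sc.iseqv.refl d, ?_⟩
        cases b <;> cases h5 : s (S.M.v d) <;> simp_all
    obtain ⟨hdb, e, he, heb⟩ := hmix
    have hu : (sd S w s b).u d ≠ 0 := by
      show (if S.M.v d ∈ (S.A.filter fun x => s x ≠ b) then 0 else S.u d +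
        (if S.real d = true ∧ S.M.v (S.M.α d) ∈ (S.A.filter fun x => s x ≠ b) then
          1 + w d else 0)) ≠ 0
      rw [if_neg (by simp [hdb])]
      have := hd'.2
      omega
    refine (hs.req d hu).eq fun f hf => ?_
    refine hole_mix rA rα hT hF (tcl f hf) hd0 he ?_
    rw [hdb, heb]
    cases b <;> simp

/-- every real cut of a minimal counterexample has at least four edges -/
theorem MC.cut4 (hΔ : Δ ≤ 6) (h : MC Δ S L w) {s : V → Bool}
    (h1 : ∃ x ∈ S.A, s x = true) (h2 : ∃ x ∈ S.A, s x = false) : 4 ≤ S.rc s := by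
  classical
  by_contra hc
  have hc : S.rc s ≤ 3 := by omega
  let P : ℕ → Prop := fun n => ∃ s : V → Bool, S.rc s ≤ 3 ∧ (∃ x ∈ S.A, s x = true) ∧
    (∃ x ∈ S.A, s x = false) ∧ mc S.M s = n
  have hP : ∃ n, P n := ⟨_, s, hc, h1, h2, rfl⟩
  obtain ⟨s0, a1, a2, a3, a4⟩ := Nat.find_spec hP
  have hmin : ∀ s' : V → Bool, S.rc s' ≤ 3 → (∃ x ∈ S.A, s' x = true) →
      (∃ x ∈ S.A, s' x = false) → mc S.M s0 ≤ mc S.M s' := by
    intro s' b1 b2 b3
    rw [a4]
    exact Nat.find_min' hP ⟨s', b1, b2, b3, rfl⟩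
  have hT : ConS S.M s0 true := con_of_min a1 a2 a3 hmin
  have hF' : ConS S.M (fun x => !s0 x) true := by
    refine con_of_min (by rw [rc_neg h.ok.real_α]; exact a1) (by simpa using a3)
      (by simpa using a2) fun s' b1 b2 b3 => ?_
    rw [mc_neg]
    exact hmin s' b1 b2 b3
  have hF : ConS S.M s0 false := by
    intro f hf d d' hd hd'
    refine hF' f (fun e h3 h4 => hf e (by simpa using h3) (by simpa using h4)) d d' ?_ ?_
    · simpa using hd
    · simpa using hd'
  clear a4 hmin
  have rA := h.ok.real_A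
  have rα := h.ok.real_α
  obtain ⟨x, hx, hx'⟩ := a2
  obtain ⟨y, hy, hy'⟩ := a3
  obtain ⟨dx, rfl⟩ := h.ok.A_im x hx
  obtain ⟨dy, rfl⟩ := h.ok.A_im y hy
  obtain ⟨d0, he1, he2⟩ := exists_cut S.M hx' hy'
  have hd0 : s0 (S.M.v d0) ≠ s0 (S.M.v (S.M.α d0)) := by rw [he1, he2]; simp
  -- a side with a real edge has a solution
  have hsol : ∀ b : Bool, (∃ d, S.real d = true ∧ s0 (S.M.v d) = b ∧ s0 (S.M.v (S.M.α d)) = b) →
      ∃ cb, Sol (sd S w s0 b) (sdL S L s0 b) cb ∧ Vi (sd S w s0 b) cb d0 := by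
    rintro b ⟨d, hd⟩
    have hne : ∃ d, (S.del (S.A.filter fun x => s0 x ≠ b)).real d = true :=
      ⟨d, (sd_real (w := w) rA rα).2 hd⟩
    obtain ⟨z, hz, hzb⟩ : ∃ z ∈ S.A, s0 z ≠ b := by
      cases b
      · exact ⟨_, hx, by rw [hx']; simp⟩
      · exact ⟨_, hy, by rw [hy']; simp⟩
    obtain ⟨cb, hcb⟩ := h.min D V _ _ _ (h.w1.dl _) (h.ok.dl hne) (mu_dl h.ok hΔ
      (Finset.filter_subset _ _) ⟨z, Finset.mem_filter.2 ⟨hz, hzb⟩⟩ hne)
    exact ⟨cb, hcb, hole_vi h.ok hT hF ⟨_, hx, hx'⟩ ⟨_, hy, hy'⟩ hd0 hcb⟩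
  have brs : ∀ b cb, Vi (sd S w s0 b) cb d0 → ∀ c, (∀ x, s0 x = b → c x = cb x) →
      ∃ e, Br S c e := by
    intro b cb hv c hcc
    obtain ⟨e, e1, _⟩ := hv
    exact ⟨e, ((sd_br rA rα hcc).1 e1).1⟩
  -- a trivial side
  have htriv : ∀ b : Bool, (∀ d, S.real d = true → s0 (S.M.v d) = b → s0 (S.M.v (S.M.α d)) ≠ b) →
      ∀ cb : V → Bool, ∃ c : V → Bool, (∀ x, s0 x = !b → c x = cb x) ∧ OneMono S s0 c := by
    intro b _ cb
    -- darts from `x` (side `b`) to the other side
    let N : Bool → V → Finset D := fun k x => Finset.univ.filter fun d => S.real d = true ∧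
      S.M.v d = x ∧ s0 (S.M.v (S.M.α d)) = !b ∧ cb (S.M.v (S.M.α d)) = k
    let c : V → Bool := fun x => if s0 x = !b then cb x else
      decide ((N true x).card ≤ (N false x).card)
    have hc1 : ∀ x, s0 x = !b → c x = cb x := fun x hx => by simp [c, hx]
    refine ⟨c, hc1, oneMono_of_maj a1 ?_⟩
    -- endpoint on the side b
    let en : D → V := fun d => if b = true then S.M.v d else S.M.v (S.M.α d)
    set P := Finset.univ.filter fun d => (S.real d = true ∧ s0 (S.M.v d) = true ∧
      s0 (S.M.v (S.M.α d)) = false) ∧ c (S.M.v d) = c (S.M.v (S.M.α d)) with hPd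
    set Q := Finset.univ.filter fun d => (S.real d = true ∧ s0 (S.M.v d) = true ∧
      s0 (S.M.v (S.M.α d)) = false) ∧ ¬ c (S.M.v d) = c (S.M.v (S.M.α d)) with hQd
    have hfib : ∀ x, (P.filter fun d => en d = x).card ≤ (Q.filter fun d => en d = x).card := by
      intro x
      by_cases hxb : s0 x = b
      · have hcx : c x = decide ((N true x).card ≤ (N false x).card) := by
          have : ¬ s0 x = !b := by rw [hxb]; cases b <;> simp
          simp only [c, if_neg this]
        have eP : (P.filter fun d => en d = x).card = (N (c x) x).card := by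
          cases b
          · refine Finset.card_bij (fun d _ => S.M.α d) ?_ ?_ ?_
            · intro d hd
              simp only [hPd, en, N, Finset.mem_filter, Finset.mem_univ, true_and,
                Bool.not_false] at hd ⊢
              obtain ⟨⟨⟨r1, r2, r3⟩, r4⟩, r5⟩ := hd
              simp only [Bool.false_eq_true, if_false] at r5
              refine ⟨by rw [rα, r1], r5, by rw [S.M.αα]; exact r2, ?_⟩
              rw [S.M.αα, ← hc1 _ (by rw [r2]; rfl), r4, r5]
            · intro a _ a' _ haa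
              exact S.M.αinj haa
            · intro d hd
              simp only [N, Finset.mem_filter, Finset.mem_univ, true_and, Bool.not_false] at hd
              obtain ⟨r1, r2, r3, r4⟩ := hd
              refine ⟨S.M.α d, ?_, S.M.αα d⟩
              simp only [hPd, en, Finset.mem_filter, Finset.mem_univ, true_and,
                Bool.false_eq_true, if_false, S.M.αα]
              refine ⟨⟨⟨by rw [rα, r1], r3, by rw [r2, hxb]⟩, ?_⟩, r2⟩
              rw [hc1 _ (by rw [r3]; rfl), r4, r2]
          · congr 1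
            ext d
            simp only [hPd, en, N, Finset.mem_filter, Finset.mem_univ, true_and, if_true,
              Bool.not_true]
            constructor
            · rintro ⟨⟨⟨r1, r2, r3⟩, r4⟩, r5⟩
              refine ⟨r1, r5, r3, ?_⟩
              rw [← hc1 _ (by rw [r3]; rfl), ← r4, r5]
            · rintro ⟨r1, r2, r3, r4⟩
              refine ⟨⟨⟨r1, by rw [r2, hxb], r3⟩, ?_⟩, r2⟩
              rw [hc1 (S.M.v (S.M.α d)) (by rw [r3]; rfl), r4, r2]
        have eQ : (Q.filter fun d => en d = x).card = (N (!c x) x).card := by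
          cases b
          · refine Finset.card_bij (fun d _ => S.M.α d) ?_ ?_ ?_
            · intro d hd
              simp only [hQd, en, N, Finset.mem_filter, Finset.mem_univ, true_and,
                Bool.not_false] at hd ⊢
              obtain ⟨⟨⟨r1, r2, r3⟩, r4⟩, r5⟩ := hd
              simp only [Bool.false_eq_true, if_false] at r5
              refine ⟨by rw [rα, r1], r5, by rw [S.M.αα]; exact r2, ?_⟩
              rw [S.M.αα, ← hc1 _ (by rw [r2]; rfl)]
              rw [r5] at r4
              cases k1 : c (S.M.v d) <;> cases k2 : c x <;> simp_all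
            · intro a _ a' _ haa
              exact S.M.αinj haa
            · intro d hd
              simp only [N, Finset.mem_filter, Finset.mem_univ, true_and, Bool.not_false] at hd
              obtain ⟨r1, r2, r3, r4⟩ := hd
              refine ⟨S.M.α d, ?_, S.M.αα d⟩
              simp only [hQd, en, Finset.mem_filter, Finset.mem_univ, true_and,
                Bool.false_eq_true, if_false, S.M.αα]
              refine ⟨⟨⟨by rw [rα, r1], r3, by rw [r2, hxb]⟩, ?_⟩, r2⟩
              rw [hc1 _ (by rw [r3]; rfl), r4, r2]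
              simp
          · congr 1
            ext d
            simp only [hQd, en, N, Finset.mem_filter, Finset.mem_univ, true_and, if_true,
              Bool.not_true]
            constructor
            · rintro ⟨⟨⟨r1, r2, r3⟩, r4⟩, r5⟩
              refine ⟨r1, r5, r3, ?_⟩
              rw [← hc1 _ (by rw [r3]; rfl)]
              rw [r5] at r4
              cases k1 : c (S.M.v (S.M.α d)) <;> cases k2 : c x <;> simp_all
            · rintro ⟨r1, r2, r3, r4⟩
              refine ⟨⟨⟨r1, by rw [r2, hxb], r3⟩, ?_⟩, r2⟩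
              rw [hc1 (S.M.v (S.M.α d)) (by rw [r3]; rfl), r4, r2]
              simp
        rw [eP, eQ, hcx]
        by_cases hle : (N true x).card ≤ (N false x).card
        · rw [decide_eq_true hle]; exact hle
        · rw [decide_eq_false hle]
          show (N false x).card ≤ (N true x).card
          omega
      · have : (P.filter fun d => en d = x) = ∅ := by
          rw [Finset.filter_eq_empty_iff]
          intro d hd hdx
          simp only [hPd, Finset.mem_filter, Finset.mem_univ, true_and] at hd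
          obtain ⟨⟨r1, r2, r3⟩, r4⟩ := hd
          apply hxb
          rw [← hdx]
          cases b
          · simp only [en, Bool.false_eq_true, if_false]; exact r3
          · simp only [en, if_true]; exact r2
        rw [this]; simp
    have hP1 : P.card = ∑ x ∈ (P ∪ Q).image en, (P.filter fun d => en d = x).card :=
      Finset.card_eq_sum_card_fiberwise fun d hd =>
        Finset.mem_coe.2 (Finset.mem_image_of_mem _ (Finset.mem_union_left _ hd))
    have hQ1 : Q.card = ∑ x ∈ (P ∪ Q).image en, (Q.filter fun d => en d = x).card :=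
      Finset.card_eq_sum_card_fiberwise fun d hd =>
        Finset.mem_coe.2 (Finset.mem_image_of_mem _ (Finset.mem_union_right _ hd))
    rw [hP1, hQ1]
    exact Finset.sum_le_sum fun x _ => hfib x
  have fin : ∀ c : V → Bool, OneMono S s0 c → (∃ e, Br S c e) →
      (∀ b, (∃ cb : V → Bool, (∀ x, s0 x = b → c x = cb x) ∧
      Sol (sd S w s0 b) (sdL S L s0 b) cb ∧ Vi (sd S w s0 b) cb d0) ∨
      (∀ d, S.real d = true → s0 (S.M.v d) = b → s0 (S.M.v (S.M.α d)) ≠ b)) → False := by
    intro c hM hB hs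
    exact h.no ⟨c, glue7 rA rα h.ok.u_A h.ok.A_im h.ok.L_real hT hF hM hd0 hB hs⟩
  have one_side : ∀ b : Bool, (∃ d, S.real d = true ∧ s0 (S.M.v d) = b ∧
      s0 (S.M.v (S.M.α d)) = b) → (∀ d, S.real d = true → s0 (S.M.v d) = !b →
        s0 (S.M.v (S.M.α d)) ≠ !b) → False := by
    intro b hb hb'
    obtain ⟨cb, k1, k2⟩ := hsol b hb
    obtain ⟨c, k3, k4⟩ := htriv (!b) hb' cb
    rw [Bool.not_not] at k3
    refine fin c k4 (brs b cb k2 c k3) fun b' => ?_
    by_cases hbb : b' = b
    · subst hbb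
      exact Or.inl ⟨cb, k3, k1, k2⟩
    · have : b' = !b := by cases b <;> cases b' <;> simp_all
      subst this
      exact Or.inr hb'
  by_cases hTr : ∃ d, S.real d = true ∧ s0 (S.M.v d) = true ∧ s0 (S.M.v (S.M.α d)) = true
  · by_cases hFr : ∃ d, S.real d = true ∧ s0 (S.M.v d) = false ∧ s0 (S.M.v (S.M.α d)) = false
    · -- two solutions
      obtain ⟨c1, k1, k2⟩ := hsol true hTr
      obtain ⟨c2, k3, k4⟩ := hsol false hFr
      have red : ∀ c2' : V → Bool, Sol (sd S w s0 false) (sdL S L s0 false) c2' →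
          Vi (sd S w s0 false) c2' d0 →
          (Finset.univ.filter fun d => (S.real d = true ∧ s0 (S.M.v d) = true ∧
            s0 (S.M.v (S.M.α d)) = false) ∧ c1 (S.M.v d) = c2' (S.M.v (S.M.α d))).card ≤
          (Finset.univ.filter fun d => (S.real d = true ∧ s0 (S.M.v d) = true ∧
            s0 (S.M.v (S.M.α d)) = false) ∧ ¬ c1 (S.M.v d) = c2' (S.M.v (S.M.α d))).card →
          False := by
        intro c2' k3' k4' hcard
        let c : V → Bool := fun x => if s0 x = true then c1 x else c2' x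
        have e1 : ∀ x, s0 x = true → c x = c1 x := fun x hx => by simp [c, hx]
        have e2 : ∀ x, s0 x = false → c x = c2' x := fun x hx => by simp [c, hx]
        refine fin c (oneMono_of_maj a1 ?_) (brs true c1 k2 c e1) fun b => ?_
        · refine le_trans (le_of_eq ?_) (le_trans hcard (le_of_eq ?_))
          · congr 1
            refine Finset.filter_congr fun d _ => and_congr_right fun hd => ?_
            rw [e1 _ hd.2.1, e2 _ hd.2.2]
          · congr 1
            refine Finset.filter_congr fun d _ => and_congr_right fun hd => ?_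
            rw [e1 _ hd.2.1, e2 _ hd.2.2]
        · cases b
          · exact Or.inl ⟨c2', e2, k3', k4'⟩
          · exact Or.inl ⟨c1, e1, k1, k2⟩
      rcases le_total (Finset.univ.filter fun d => (S.real d = true ∧ s0 (S.M.v d) = true ∧
            s0 (S.M.v (S.M.α d)) = false) ∧ c1 (S.M.v d) = c2 (S.M.v (S.M.α d))).card
          (Finset.univ.filter fun d => (S.real d = true ∧ s0 (S.M.v d) = true ∧
            s0 (S.M.v (S.M.α d)) = false) ∧ ¬ c1 (S.M.v d) = c2 (S.M.v (S.M.α d))).card
        with hle | hle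
      · exact red c2 k3 k4 hle
      · refine red (fun x => !c2 x) k3.neg ((vi_neg d0).2 k4) ?_
        refine le_trans (le_of_eq ?_) (le_trans hle (le_of_eq ?_))
        · congr 1
          refine Finset.filter_congr fun d _ => and_congr_right fun _ => ?_
          cases c1 (S.M.v d) <;> cases c2 (S.M.v (S.M.α d)) <;> simp
        · congr 1
          refine Finset.filter_congr fun d _ => and_congr_right fun _ => ?_
          cases c1 (S.M.v d) <;> cases c2 (S.M.v (S.M.α d)) <;> simp
    · push Not at hFr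
      exact one_side true hTr fun d k1 k2 k3 => hFr d k1 k2 k3
  · push Not at hTr
    by_cases hFr : ∃ d, S.real d = true ∧ s0 (S.M.v d) = false ∧ s0 (S.M.v (S.M.α d)) = false
    · exact one_side false hFr fun d k1 k2 k3 => hTr d k1 k2 k3
    · push Not at hFr
      obtain ⟨e, he⟩ := h.ok.ex
      have hcut : ∀ e, S.real e = true → s0 (S.M.v e) ≠ s0 (S.M.v (S.M.α e)) := by
        intro e he h5
        cases h6 : s0 (S.M.v e)
        · exact hFr e he h6 (by rw [← h5, h6])
        · exact hTr e he h6 (by rw [← h5, h6])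
      refine fin s0 ?_ ⟨e, he, hcut e he⟩ fun b => Or.inr ?_
      · intro d d' r _ _ _ _ _ m _
        exact absurd m (hcut d r)
      · intro d hd k1 k2
        exact hcut d hd (k1.trans k2.symm)

/-- a counterexample leads to a minimal counterexample -/
theorem exists_mc {Δ : ℕ} {D V : Type} [Fintype D] [DecidableEq V] {S : St D V} {L : D → Bool}
    {w : D → ℕ} (w1 : W1 L w) (ok : Ok Δ S L w) (no : ¬ ∃ c, Sol S L c) :
    ∃ (D V : Type) (_ : Fintype D) (_ : DecidableEq V) (S : St D V) (L : D → Bool) (w : D → ℕ),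
      MC Δ S L w := by
  classical
  let P : ℕ ×ₗ ℕ ×ₗ ℕ → Prop := fun n => ∃ (D V : Type) (_ : Fintype D) (_ : DecidableEq V)
    (S : St D V) (L : D → Bool) (w : D → ℕ), W1 L w ∧ Ok Δ S L w ∧ (¬ ∃ c, Sol S L c) ∧
      mu Δ S L = n
  have wf : WellFounded ((· < ·) : ℕ ×ₗ ℕ ×ₗ ℕ → ℕ ×ₗ ℕ ×ₗ ℕ → Prop) := wellFounded_lt
  have hP : ∃ n, P n := ⟨_, D, V, _, _, S, L, w, w1, ok, no, rfl⟩
  obtain ⟨n, ⟨D, V, i1, i2, S, L, w, w1, ok, no, hn⟩, hmin⟩ := wf.has_min {n | P n} hP
  refine ⟨D, V, i1, i2, S, L, w, w1, ok, no, fun D' V' _ _ S' L' w' w1' ok' hlt => ?_⟩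
  by_contra hno
  exact hmin _ ⟨D', V', _, _, S', L', w', w1', ok', hno, rfl⟩ (by rw [← hn]; exact hlt)

end Pool.FC7
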