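import Pool.Agent.FC7.Spl

/-! # Overloaded neighbours

A vertex has at most two units and labels. The letters of the centre and of its neighbours bound the
units and labels of a neighbour of the centre from below; patterns for which this bound is larger than
two do not occur. -/

open Finset

set_option linter.unusedSectionVars false

namespace Pool.FC7

open Pool.FC6 Pool.FC6.St

/-- the smallest value of a function at the letters which have the letter `g` of a pattern -/
def mnl (f : ℕ → ℕ) (g : ℕ) : ℕ := (lts g).foldr (fun l m => min (f l) m) 9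

theorem foldr_le {f : ℕ → ℕ} : ∀ {s : List ℕ} {l : ℕ}, l ∈ s →
    s.foldr (fun l m => min (f l) m) 9 ≤ f l
  | a :: s, l, hl => by
    rw [List.foldr_cons]
    rcases List.mem_cons.1 hl with rfl | h1
    · exact min_le_left _ _
    · exact le_trans (min_le_right _ _) (foldr_le h1)

theorem mnl_le {f : ℕ → ℕ} {g l : ℕ} (h : lle g l = true) (hl : lal l = true) : mnl f g ≤ f l :=
  foldr_le (mem_lts h hl)

/-- the units of the end of the first spoke -/
def lvx (l : ℕ) : ℕ := if l = 8 then 0 else ldx l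

/-- the units of the end of the next spoke -/
def lvy (l : ℕ) : ℕ := if l = 8 then 0 else ldy l

/-- the load of the end of the next spoke and the label of this spoke -/
def lny (l : ℕ) : ℕ := ldy l + if lnx l = true then 1 else 0

/-- more than two units and labels at the neighbour `i`; `b`: the bound from the letters of the
centre; `R`, `T`: the words of the next and of the previous neighbour -/
def ov2 (b : ℕ) (R T : List (List ℕ)) : Bool :=
  decide (2 < b) || (R.any fun q => decide (2 < b + mnl ldx (q.getD 1 0))) ||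
  (T.any fun p => decide (2 < b + mnl ldy (p.getD (p.length - 2) 0))) ||
  R.any fun q => T.any fun p =>
    decide (2 < b + mnl ldx (q.getD 1 0) + mnl lvy (p.getD (p.length - 2) 0)) ||
    decide (2 < b + mnl lvx (q.getD 1 0) + mnl ldy (p.getD (p.length - 2) 0))

/-- the words of the pattern at the spoke `i` -/
def wrd (X : FCS.Fct) (i : ℕ) : List (List ℕ) :=
  X.2.filterMap fun q => if Nat.beq q.1 i && !q.2.isEmpty then some q.2 else none

/-- some neighbour of the centre has too many units and labels -/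
def ovA (X : FCS.Fct) : Bool :=
  (List.range X.1.length).any fun i =>
    ov2 (mnl lny (X.1.getD ((i + X.1.length - 1) % X.1.length) 0) + mnl ldx (X.1.getD i 0))
      (if lsol (X.1.getD i 0) = true then wrd X ((i + 1) % X.1.length) else [])
      (if lsol (X.1.getD ((i + X.1.length - 1) % X.1.length) 0) = true then
        wrd X ((i + X.1.length - 1) % X.1.length) else [])

theorem mem_wrd {X : FCS.Fct} {i : ℕ} {c : List ℕ} (hc : c ∈ wrd X i) :
    (i, c) ∈ X.2 ∧ c ≠ [] := by
  unfold wrd at hc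
  rw [List.mem_filterMap] at hc
  obtain ⟨q, h1, h2⟩ := hc
  split_ifs at h2 with h3
  rw [Bool.and_eq_true, Bool.not_eq_true'] at h3
  rw [Option.some.injEq] at h2
  have h4 := Nat.eq_of_beq_eq_true h3.1
  refine ⟨by rw [← h4, ← h2]; exact h1, fun h0 => ?_⟩
  rw [h2, h0] at h3
  exact absurd h3.2 (by simp)

section

variable {D V : Type} [Fintype D] [DecidableEq V]
  {S : St D V} {L : D → Bool} {w : D → ℕ} {U : V → Prop} {x d : D}
  (h : MC 6 S L w) (hS : IsStar S)

include h hS

/-- five darts at a vertex have at most two units and labels -/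
theorem MC.uw5_le {a b c g k : D} (ha : S.real a = true) (hb : S.M.v b = S.M.v a)
    (hc : S.M.v c = S.M.v a) (hg : S.M.v g = S.M.v a) (hk : S.M.v k = S.M.v a)
    (n1 : a ≠ b) (n2 : a ≠ c) (n3 : a ≠ g) (n4 : b ≠ c) (n5 : b ≠ g) (n6 : c ≠ g)
    (m1 : k ≠ a) (m2 : k ≠ b) (m3 : k ≠ c) (m4 : k ≠ g) :
    (S.u k + w k) + ((S.u a + w a) + ((S.u b + w b) + ((S.u c + w c) + (S.u g + w g)))) ≤ 2 := by
  classical
  refine le_trans ?_ (h.sum_uw hS ha)
  have h1 : ∑ t ∈ {k, a, b, c, g}, (if S.M.v t = S.M.v a then S.u t + w t else 0) ≤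
      ∑ d, (if S.M.v d = S.M.v a then S.u d + w d else 0) :=
    Finset.sum_le_sum_of_subset (Finset.subset_univ _)
  rw [Finset.sum_insert (by
    simp only [Finset.mem_insert, Finset.mem_singleton, not_or]
    exact ⟨m1, m2, m3, m4⟩), Finset.sum_insert (by
    simp only [Finset.mem_insert, Finset.mem_singleton, not_or]
    exact ⟨n1, n2, n3⟩), Finset.sum_insert (by
    simp only [Finset.mem_insert, Finset.mem_singleton, not_or]
    exact ⟨n4, n5⟩), Finset.sum_pair n6, if_pos rfl, if_pos hb, if_pos hc, if_pos hg,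
    if_pos hk] at h1
  exact h1

/-- the units of a sector at the ends of the spokes -/
theorem MC.lv_le (hd : S.real d = true) :
    lvx (lto S L d) ≤ S.u (S.M.α d) ∧
      lvy (lto S L d) ≤ S.u (S.nxr (S.M.α (S.nxr d))) := by
  have W := h.ok.toWf
  unfold lvx lvy ldx ldy
  by_cases h8 : lto S L d = 8
  · rw [if_pos h8, if_pos h8]
    exact ⟨Nat.zero_le _, Nat.zero_le _⟩
  · rw [if_neg h8, if_neg h8]
    by_cases h9 : lto S L d = 9
    · rw [if_pos (Or.inr h9), if_pos (Or.inr h9)]
      have hs0 : S.real (S.M.σ d) = false := by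
        have hl := h.lsol_iff' hS hd
        rw [h9] at hl
        have h5 : decide (S.real (S.M.σ d) = true) = false := by rw [← hl]; rfl
        simpa using h5
      have e2 : S.csz (S.nxr d) = S.csz (S.M.σ d) :=
        (csz_congr (sc_nxr d)).symm.trans (csz_congr (sc_sec1 d))
      have h4 := h.ev4 hS hd (by rw [h9]; rfl)
      rw [e2] at h4
      obtain ⟨b1, b2⟩ := h.two4 hS hd hs0 h4 ((h.ev hS hd).2.2 (by rw [h9]; rfl)) (by
        rw [← h.lown_eq hS hd, h9]; rfl)
      omega
    · rw [if_neg (by tauto), if_neg (by tauto)]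
      exact h.lux_le hS hd

/-- the units and labels at the end of the spoke `nxr d`, `e = nxr d`: `p` the dart before the dart
from the previous neighbour to this vertex -/
theorem MC.ov_le (hd : S.real d = true) {p : D} (hp : S.real p = true)
    (hpn : S.nxr (S.nxr p) = S.M.α d) :
    lny (lto S L d) + ldx (lto S L (S.nxr d)) ≤ 2 ∧
    (lsol (lto S L (S.nxr d)) = true →
      lny (lto S L d) + ldx (lto S L (S.nxr d)) +
        ldx (lto S L (S.nxr (S.M.α (S.nxr (S.nxr d))))) ≤ 2) ∧
    (lsol (lto S L d) = true →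
      lny (lto S L d) + ldx (lto S L (S.nxr d)) + ldy (lto S L p) ≤ 2) ∧
    (lsol (lto S L (S.nxr d)) = true → lsol (lto S L d) = true →
      lny (lto S L d) + ldx (lto S L (S.nxr d)) +
        ldx (lto S L (S.nxr (S.M.α (S.nxr (S.nxr d))))) + lvy (lto S L p) ≤ 2 ∧
      lny (lto S L d) + ldx (lto S L (S.nxr d)) +
        lvx (lto S L (S.nxr (S.M.α (S.nxr (S.nxr d))))) + ldy (lto S L p) ≤ 2) := by
  have W := h.ok.toWf
  have rα : ∀ {y}, S.real y = true → S.real (S.M.α y) = true := fun hy => by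
    rw [W.real_α]; exact hy
  have he := hS.nxr_real W hd
  have hg := rα he
  obtain ⟨r, r1, r2⟩ := h.prv hS hg
  obtain ⟨r', r3, r4⟩ := h.prv hS r1
  obtain ⟨q, q1, q2⟩ := h.prv hS (rα hd)
  have hn1 := hS.nxr_real W hg
  have hn2 := hS.nxr_real W hn1
  have h5 := h.rdeg_pos hS hg
  -- the bounds
  have a1 := (h.ld_le hS hd q1 q2).2
  have a2 := h.lnx_le hS hd
  have a3 := (h.ld_le hS he r1 r2).1
  have hny : lny (lto S L d) = ldy (lto S L d) + if lnx (lto S L d) = true then 1 else 0 := rfl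
  -- different darts
  have vr : S.M.v r = S.M.v (S.M.α (S.nxr d)) := by rw [← r2, v_nxr]
  have vr' : S.M.v r' = S.M.v (S.M.α (S.nxr d)) := by rw [← vr, ← r4, v_nxr]
  have n1 : S.nxr (S.M.α (S.nxr d)) ≠ S.M.α (S.nxr d) :=
    hS.nxr_ne W hg (j := 1) (by norm_num) (by omega)
  have n2 : S.nxr (S.nxr (S.M.α (S.nxr d))) ≠ S.M.α (S.nxr d) :=
    hS.nxr_ne W hg (j := 2) (by norm_num) (by omega)
  have n3 : S.nxr (S.nxr (S.M.α (S.nxr d))) ≠ S.nxr (S.M.α (S.nxr d)) :=
    hS.nxr_ne W hn1 (j := 1) (by norm_num) (by rw [v_nxr]; omega)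
  have m1 : S.nxr r ≠ r := hS.nxr_ne W r1 (j := 1) (by norm_num) (by rw [vr]; omega)
  have m2 : S.nxr (S.nxr r) ≠ r := hS.nxr_ne W r1 (j := 2) (by norm_num) (by rw [vr]; omega)
  have m3 : S.nxr (S.nxr (S.nxr r)) ≠ r :=
    hS.nxr_ne W r1 (j := 3) (by norm_num) (by rw [vr]; omega)
  rw [r2] at m1 m2 m3
  have k1 : S.nxr r' ≠ r' := hS.nxr_ne W r3 (j := 1) (by norm_num) (by rw [vr']; omega)
  have k2 : S.nxr (S.nxr r') ≠ r' := hS.nxr_ne W r3 (j := 2) (by norm_num) (by rw [vr']; omega)
  have k3 : S.nxr (S.nxr (S.nxr r')) ≠ r' :=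
    hS.nxr_ne W r3 (j := 3) (by norm_num) (by rw [vr']; omega)
  rw [r4] at k1 k2 k3
  rw [r2] at k2 k3
  have vn2 : S.M.v (S.nxr (S.nxr (S.M.α (S.nxr d)))) = S.M.v (S.M.α (S.nxr d)) := by
    rw [v_nxr, v_nxr]
  have s4 := h.uw4_le hS hg (b := S.nxr (S.M.α (S.nxr d)))
    (c := S.nxr (S.nxr (S.M.α (S.nxr d)))) (g := r) (v_nxr _) vn2 vr (Ne.symm n1) (Ne.symm n2) m1
    (Ne.symm n3) m2 m3
  have s5 : r' ≠ S.nxr (S.nxr (S.M.α (S.nxr d))) → (S.u r' + w r') +
      ((S.u (S.M.α (S.nxr d)) + w (S.M.α (S.nxr d))) + ((S.u (S.nxr (S.M.α (S.nxr d))) +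
      w (S.nxr (S.M.α (S.nxr d)))) + ((S.u (S.nxr (S.nxr (S.M.α (S.nxr d)))) +
      w (S.nxr (S.nxr (S.M.α (S.nxr d))))) + (S.u r + w r)))) ≤ 2 := fun hne =>
    h.uw5_le hS hg (v_nxr _) vn2 vr vr' (Ne.symm n1) (Ne.symm n2) m1 (Ne.symm n3) m2 m3
      (Ne.symm k2) (Ne.symm k3) hne (Ne.symm k1)
  -- the next neighbour
  have R : lsol (lto S L (S.nxr d)) = true →
      ldx (lto S L (S.nxr (S.M.α (S.nxr (S.nxr d))))) ≤ S.u r + w r' ∧
        lvx (lto S L (S.nxr (S.M.α (S.nxr (S.nxr d))))) ≤ S.u r := by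
    intro hs
    obtain ⟨r0, t1, t2, t3⟩ := h.tri hS he hs
    have er : r0 = r := h.nxr_cancel hS r1 t1 (t2.trans r2.symm)
    subst er
    rw [← t3]
    have hr' : S.nxr r' = S.M.α (S.M.α r0) := by rw [S.M.αα]; exact r4
    have b1 := (h.ld_le hS (rα r1) r3 hr').1
    have b2 := (h.lv_le hS (rα r1)).1
    rw [S.M.αα] at b1 b2
    exact ⟨b1, b2⟩
  -- the previous neighbour
  have T : lsol (lto S L d) = true →
      ldy (lto S L p) ≤ S.u (S.nxr (S.nxr (S.M.α (S.nxr d)))) +
        w (S.nxr (S.nxr (S.M.α (S.nxr d)))) ∧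
      lvy (lto S L p) ≤ S.u (S.nxr (S.nxr (S.M.α (S.nxr d)))) := by
    intro hs
    obtain ⟨r0, t1, t2, t3⟩ := h.tri hS hd hs
    have hpr := hS.nxr_real W hp
    have er : r0 = S.nxr p := h.nxr_cancel hS hpr t1 (t2.trans hpn.symm)
    subst er
    obtain ⟨q', q1', q2'⟩ := h.prv hS (rα hp)
    have b1 := (h.ld_le hS hp q1' q2').2
    have b2 := (h.lv_le hS hp).2
    rw [t3] at b1 b2
    exact ⟨b1, b2⟩
  refine ⟨by omega, fun hs => ?_, fun hs => ?_, fun hs hs' => ?_⟩
  · obtain ⟨b1, b2⟩ := R hs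
    by_cases hne : r' = S.nxr (S.nxr (S.M.α (S.nxr d)))
    · rw [hne] at b1
      omega
    · have := s5 hne
      omega
  · obtain ⟨b1, b2⟩ := T hs
    omega
  · obtain ⟨b1, b2⟩ := R hs
    obtain ⟨c1, c2⟩ := T hs'
    by_cases hne : r' = S.nxr (S.nxr (S.M.α (S.nxr d)))
    · rw [hne] at b1
      omega
    · have := s5 hne
      omega

/-- a pattern which occurs has no overloaded neighbour -/
theorem ovA_sound {X : FCS.Fct} (hx : HasL S L U X.1 X.2 x) : ovA X = false := by
  have W := h.ok.toWf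
  have re : ∀ i, S.real (S.nxr^[i] x) = true := fun i => hS.nxr_iter_real W hx.re i
  have rα : ∀ {y}, S.real y = true → S.real (S.M.α y) = true := fun hy => by
    rw [W.real_α]; exact hy
  have hln := llw_len hx.w
  have hn : X.1.length = S.rdeg (S.M.v x) := by rw [← lwo_length (S := S) (L := L), ← hln]
  have h4 := h.rdeg_pos hS hx.re
  have hper : ∀ i, S.nxr^[i % X.1.length] x = S.nxr^[i] x := fun i => by
    rw [hn]; exact nxr_mod hS W hx.re i
  have lal' : ∀ {y}, S.real y = true → lal (lto S L y) = true := by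
    intro y hy
    have h5 := h.rdeg_pos hS hy
    have h6 := h.lwo_getD hS hy (i := 0) (by omega)
    have h7 : lto S L y ∈ lwo S L y := by
      show lto S L (S.nxr^[0] y) ∈ _
      rw [← h6]
      exact getD_mem (by rw [lwo_length]; omega)
    exact h.lwo_lal hS hy _ h7
  have lett : ∀ i < X.1.length, lle (X.1.getD i 0) (lto S L (S.nxr^[i] x)) = true := by
    intro i hi
    have h3 := llw_getD hx.w hi
    rwa [h.lwo_getD hS hx.re (by rw [← hn]; exact hi)] at h3
  unfold ovA
  rw [List.any_eq_false]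
  intro i hi hb
  rw [List.mem_range] at hi
  have hi' : (i + X.1.length - 1) % X.1.length < X.1.length := Nat.mod_lt _ (by omega)
  have e1 : S.nxr (S.nxr^[(i + X.1.length - 1) % X.1.length] x) = S.nxr^[i] x := by
    rw [hper, ← Function.iterate_succ_apply' S.nxr,
      show (i + X.1.length - 1).succ = i + X.1.length by omega, ← hper, Nat.add_mod_right, hper]
  have e2 : S.nxr (S.nxr^[i] x) = S.nxr^[(i + 1) % X.1.length] x := by
    rw [← Function.iterate_succ_apply' S.nxr, hper]
  have l1 := lett _ hi'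
  have l2 := lett _ hi
  have hd := re ((i + X.1.length - 1) % X.1.length)
  -- the dart before the dart from the previous neighbour to this vertex
  have hk := rα hd
  have hk4 := h.rdeg_pos hS hk
  obtain ⟨p, hp, hpn, hpe⟩ : ∃ p, S.real p = true ∧
      S.nxr (S.nxr p) = S.M.α (S.nxr^[(i + X.1.length - 1) % X.1.length] x) ∧
      p = S.nxr^[S.rdeg (S.M.v (S.M.α (S.nxr^[(i + X.1.length - 1) % X.1.length] x))) - 2]
        (S.M.α (S.nxr^[(i + X.1.length - 1) % X.1.length] x)) := by
    refine ⟨_, hS.nxr_iter_real W hk _, ?_, rfl⟩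
    rw [← Function.iterate_succ_apply' S.nxr, ← Function.iterate_succ_apply' S.nxr,
      show (S.rdeg (S.M.v (S.M.α (S.nxr^[(i + X.1.length - 1) % X.1.length] x))) - 2).succ.succ =
        S.rdeg (S.M.v (S.M.α (S.nxr^[(i + X.1.length - 1) % X.1.length] x))) by omega]
    exact hS.nxr_rdeg W hk
  obtain ⟨B0, B1, B2, B3⟩ := h.ov_le hS hd hp hpn
  rw [e1] at B0 B1 B2 B3
  rw [e2] at B1 B3
  have b1 := mnl_le (f := lny) l1 (lal' hd)
  have b2 := mnl_le (f := ldx) l2 (lal' (re i))
  -- the word of the next neighbour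
  have R : ∀ q ∈ wrd X ((i + 1) % X.1.length),
      lle (q.getD 1 0) (lto S L (S.nxr (S.M.α (S.nxr^[(i + 1) % X.1.length] x)))) = true := by
    intro q hq
    obtain ⟨m1, m2⟩ := mem_wrd hq
    have hw : llw q (lwo S L (S.M.α (S.nxr^[(i + 1) % X.1.length] x))) = true := hx.nw _ m1 m2
    have hr := rα (re ((i + 1) % X.1.length))
    have h5 := h.rdeg_pos hS hr
    have h7 := llw_len hw
    rw [lwo_length] at h7
    have h6 := llw_getD hw (i := 1) (by omega)
    rw [h.lwo_getD hS hr (by omega)] at h6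
    exact h6
  have T : ∀ q ∈ wrd X ((i + X.1.length - 1) % X.1.length),
      lle (q.getD (q.length - 2) 0) (lto S L p) = true := by
    intro q hq
    obtain ⟨m1, m2⟩ := mem_wrd hq
    have hw : llw q (lwo S L (S.M.α (S.nxr^[(i + X.1.length - 1) % X.1.length] x))) = true :=
      hx.nw _ m1 m2
    have h7 := llw_len hw
    rw [lwo_length] at h7
    have h6 := llw_getD hw (i := q.length - 2) (by omega)
    rw [h.lwo_getD hS hk (by omega)] at h6
    rw [hpe, ← h7]
    exact h6
  have hR : ∀ q ∈ (if lsol (X.1.getD i 0) = true then wrd X ((i + 1) % X.1.length) else []),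
      lsol (lto S L (S.nxr^[i] x)) = true ∧
        lle (q.getD 1 0) (lto S L (S.nxr (S.M.α (S.nxr^[(i + 1) % X.1.length] x)))) = true := by
    intro q hq
    split_ifs at hq with hs
    · exact ⟨by rw [← lle_sol l2]; exact hs, R q hq⟩
    · exact absurd hq (by simp)
  have hT : ∀ q ∈ (if lsol (X.1.getD ((i + X.1.length - 1) % X.1.length) 0) = true then
        wrd X ((i + X.1.length - 1) % X.1.length) else []),
      lsol (lto S L (S.nxr^[(i + X.1.length - 1) % X.1.length] x)) = true ∧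
        lle (q.getD (q.length - 2) 0) (lto S L p) = true := by
    intro q hq
    split_ifs at hq with hs
    · exact ⟨by rw [← lle_sol l1]; exact hs, T q hq⟩
    · exact absurd hq (by simp)
  have lp := lal' hp
  have lr := lal' (hS.nxr_real W (rα (re ((i + 1) % X.1.length))))
  unfold ov2 at hb
  rw [Bool.or_eq_true, Bool.or_eq_true, Bool.or_eq_true, decide_eq_true_eq, List.any_eq_true,
    List.any_eq_true, List.any_eq_true] at hb
  rcases hb with ((hb | ⟨q, hq, hb⟩) | ⟨q, hq, hb⟩) | ⟨q, hq, hb⟩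
  · omega
  · rw [decide_eq_true_eq] at hb
    obtain ⟨s1, s2⟩ := hR q hq
    have b3 := mnl_le (f := ldx) s2 lr
    have := B1 s1
    omega
  · rw [decide_eq_true_eq] at hb
    obtain ⟨s1, s2⟩ := hT q hq
    have b3 := mnl_le (f := ldy) s2 lp
    have := B2 s1
    omega
  · rw [List.any_eq_true] at hb
    obtain ⟨t, ht, hb⟩ := hb
    obtain ⟨s1, s2⟩ := hR q hq
    obtain ⟨s3, s4⟩ := hT t ht
    obtain ⟨c1, c2⟩ := B3 s1 s3
    have b3 := mnl_le (f := ldx) s2 lr
    have b4 := mnl_le (f := lvx) s2 lr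
    have b5 := mnl_le (f := ldy) s4 lp
    have b6 := mnl_le (f := lvy) s4 lp
    rw [Bool.or_eq_true, decide_eq_true_eq, decide_eq_true_eq] at hb
    rcases hb with hb | hb <;> omega

end

/-- the pattern cannot occur: letters which do not fit, or an overloaded vertex; also seen from the
neighbours -/
def bdv (X : FCS.Fct) : Bool :=
  fbad X || ovA X || X.2.any fun p => !p.2.isEmpty && decide (p.1 < X.1.length) &&
    (fbad (vwX X p) || ovA (vwX X p))

/-- the case distinction at the letters of the list -/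
def spo (Ys : List FCS.Fct) : List (ℕ × ℕ) → FCS.Fct → Bool
  | [], X => spa Ys X
  | q :: P, X => spa Ys X || (vld X q.1 q.2 &&
      (lts (gtL X q.1 q.2)).all fun l => bdv (stL X q.1 q.2 l) || spo Ys P (stL X q.1 q.2 l))

section

variable {D V : Type} [Fintype D] [DecidableEq V]
  {S : St D V} {L : D → Bool} {w : D → ℕ} {U : V → Prop} {x : D}
  (h : MC 6 S L w) (hS : IsStar S) (hC : Can S w)

include h hS hC

theorem bdv_sound {X : FCS.Fct} (hx : HasL S L U X.1 X.2 x) : bdv X = false := by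
  unfold bdv
  rw [Bool.or_eq_false_iff, Bool.or_eq_false_iff, List.any_eq_false]
  refine ⟨⟨fbad_sound h hS hC hx, ovA_sound h hS hx⟩, fun p hp hb => ?_⟩
  rw [Bool.and_eq_true, Bool.and_eq_true, Bool.not_eq_true', decide_eq_true_eq,
    Bool.or_eq_true] at hb
  obtain ⟨⟨h3, h4⟩, h5⟩ := hb
  have hv := vwX_sound h hS hp (fun h6 => by
    rw [h6] at h3
    exact absurd h3 (by simp)) h4 hx
  rcases h5 with h5 | h5
  · rw [fbad_sound h hS hC hv] at h5
    exact absurd h5 (by decide)
  · rw [ovA_sound h hS hv] at h5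
    exact absurd h5 (by decide)

theorem spo_sound {Ys : List FCS.Fct} (hY : ∀ Y ∈ Ys, ∀ x, ¬ HasL S L U Y.1 Y.2 x) :
    ∀ (P : List (ℕ × ℕ)) (X : FCS.Fct), spo Ys P X = true → ¬ HasL S L U X.1 X.2 x := by
  have key : ∀ X : FCS.Fct, spa Ys X = true → ¬ HasL S L U X.1 X.2 x := fun X h1 =>
    spc_sound h hS hC hY [] X h1
  intro P
  induction P with
  | nil => exact fun X hs => key X hs
  | cons q P ih =>
    intro X hs hx
    rw [show spo Ys (q :: P) X = (spa Ys X || (vld X q.1 q.2 &&
      (lts (gtL X q.1 q.2)).all fun l => bdv (stL X q.1 q.2 l) || spo Ys P (stL X q.1 q.2 l)))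
      from rfl, Bool.or_eq_true, Bool.and_eq_true, List.all_eq_true] at hs
    rcases hs with h1 | ⟨h1, h2⟩
    · exact key X h1 hx
    · obtain ⟨l, hl, hx'⟩ := stL_sound h hS h1 hx
      have h3 := h2 l hl
      rw [bdv_sound h hS hC hx', Bool.false_or] at h3
      exact ih _ h3 hx'

end

/-- AN IMPOSSIBLE PATTERN -/
theorem NoL.imp {X : FCS.Fct} (hs : bdv X = true) : NoL X.1 X.2 := by
  intro D V _ _ S L w U hM hS hR hC x hx
  rw [bdv_sound hM hS hC hx] at hs
  exact absurd hs (by decide)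

/-- A CASE DISTINCTION, with overloaded vertices: all refinements of the pattern at the letters of
`P` are impossible or instances of patterns which do not occur -/
theorem NoL.splo {Ys : List FCS.Fct} (hY : ∀ Y ∈ Ys, NoL Y.1 Y.2) (P : List (ℕ × ℕ))
    {X : FCS.Fct} (hs : spo Ys P X = true) : NoL X.1 X.2 := by
  intro D V _ _ S L w U hM hS hR hC x
  exact spo_sound hM hS hC (fun Y h1 => hY Y h1 D V S L w U hM hS hR hC) P X hs

end Pool.FC7
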