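import Pool.Agent.FC7.Ovl

/-! # Case distinctions with the letters of one face at two vertices

The letter of a sector is restricted by the letter of the same face at the neighbour and by the
weights of the words. The sets of letters are bit masks. -/

open Finset

set_option linter.unusedSectionVars false

namespace Pool.FC7.Lc

open Pool.FC7 Pool.FC6 Pool.FC6.St

/-- the word has full weight -/
def flq (c : List ℕ) : Bool := Nat.beq (c.map wl).sum 6

/-- the letter occurs only in words with full weight -/
def lfq (l : ℕ) : Bool := lfu l || decide (l = 15) || decide (l = 16)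

/-- the letters which have the letter `g` of a pattern; `f`: the word is full -/
def ltf (g : ℕ) (f : Bool) : List ℕ := (lts g).filter fun l => f || !lfq l

/-- the letters of one face at the two ends of an edge; `9`: both neighbours have units -/
def cmq (l m : ℕ) : Bool := cmpf l m && !(Nat.beq l 9 && Nat.beq m 9)

/-- entry of a table of bit masks -/
def tbl (T g : ℕ) : ℕ := Nat.mod (Nat.shiftRight T (Nat.mul 32 g)) 4294967296

/-- the mask of the letters of `g` -/
def mkL (g : ℕ) (f : Bool) : ℕ := tbl (cond f 2041645191574231180412090423953892269157807898426232278153310495976904216297550761360741587966671840083601421747188609630526440150941309946687542228053290299517620059017851844987372953772892150658399173009457993157278159984558398788590972049347018102637010116986151295132972398494621680609395090152227621175342582486395139552997885952570263704794399905777972687288894079420991657634701840802323831674765284078525232140613074558881133265682433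
  386703566328014312729891752560177929874091565380787034980502059933807666621605165159686892173773126796458899924328764237837304766381255015701557260973348769284059822476965262353779046410570825644953203136162343850022441440687835339578397061835965805320498481369214814933159947650938865460554935363587596808784027284785753090033418996165267673113137632931078441933910854774172780529486467335482805059585) g

/-- the letters at an edge for which the end of the edge has a letter of `g` in this face -/
def mkA (g : ℕ) (f : Bool) : ℕ := tbl (cond f 1020822596381308918572228358475531644897078275270693050262038743480229767203778782991793167110331474058301559886438258090278036963508138858720214593290639672754395266846734608412190382402656135306623927756740947976546197078290875379901866793063047333079275247358399412694545553084411669542033125739771149480272439989194917940024229261843528799609773063096496754396685704637527388942474457150136863218947811026231264237026650714707474549571585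
  70310633468628191030576360290971405016610186368638420219871443601439452919351616845893493674386648009313101644433774147981587110371485414770287953833170522775578561565336446813195959727343279613504971213653558041509448555753525730288270259244532355714662318443618200099043392016603595121483559925102722138139321210584235678923195586532422550626840729440547180169861081223822324031267444439212902842369) g

/-- the letters before an edge for which the end of the edge has a letter of `g` in this face -/
def mkB (g : ℕ) (f : Bool) : ℕ := tbl (cond f 1020822596381308918585630646982030098492683054794096534084662516033649051954049256434207461313966654167674557270289797267203244837322383035582762894513239084300910166122957468444451591854173080795888075382262136319029619127403569966111621562997110560170814885667932987215414600256981384869122515046458533827226691661225408085643775730494591352491656445349237899056928423531579298019683058080365356881566381883480305760038258923151680155418625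
  70310633468628191030576360290971405018814151739055800214132505602419951807491332157813886598592196882070395188118471034687314403230760447976873515853022411002418490288821296171888660135708380011850403355156995011635197706944098875663865548660125652128691152155363374099037481714096162416069216569224915807442273011324486032133323665492700260901522969878796879430335514083740721411354479013408828030977) g

theorem lts_big {g : ℕ} (h : 46 ≤ g) : lts g = [] := by
  unfold lts lal lgen
  have h1 : ¬ g ≤ 19 := by omega
  have h2 : ¬ g ≤ 26 := by omega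
  simp only [h1, h2, decide_false, Bool.and_false, Bool.or_false, Bool.false_eq_true, if_false]
  repeat rw [if_neg (by omega)]
  rfl

theorem ltf_lt {g l : ℕ} {f : Bool} (h : l ∈ ltf g f) : g < 46 := by
  by_contra h1
  unfold ltf at h
  rw [lts_big (by omega)] at h
  exact absurd h (by simp)

theorem mkL_all : ((List.range 46).all fun g => [true, false].all fun f =>
    (ltf g f).all fun l => (mkL g f).testBit l) = true := by decide +kernel

theorem mkA_all : ((List.range 46).all fun g => [true, false].all fun f =>
    (ltf g f).all fun m => (List.range 27).all fun l =>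
      !cmq l m || (mkA g f).testBit l) = true := by decide +kernel

theorem mkB_all : ((List.range 46).all fun g => [true, false].all fun f =>
    (ltf g f).all fun m => (List.range 27).all fun l =>
      !cmq m l || (mkB g f).testBit l) = true := by decide +kernel

theorem mem_tf (f : Bool) : f ∈ [true, false] := by cases f <;> simp

theorem mkL_mem {g l : ℕ} {f : Bool} (h : l ∈ ltf g f) : (mkL g f).testBit l = true :=
  List.all_eq_true.1 (List.all_eq_true.1 (List.all_eq_true.1 mkL_all g
    (List.mem_range.2 (ltf_lt h))) f (mem_tf f)) l h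

theorem cmq_lt {l m : ℕ} (h : cmq l m = true) : l < 27 ∧ m < 27 := by
  unfold cmq cmpf at h
  rw [Bool.and_eq_true, Bool.and_eq_true, Bool.and_eq_true] at h
  exact ⟨lal_lt h.1.1.1, lal_lt h.1.1.2⟩

theorem mkA_mem {g l m : ℕ} {f : Bool} (h : m ∈ ltf g f) (hc : cmq l m = true) :
    (mkA g f).testBit l = true := by
  have h1 := List.all_eq_true.1 (List.all_eq_true.1 (List.all_eq_true.1 (List.all_eq_true.1
    mkA_all g (List.mem_range.2 (ltf_lt h))) f (mem_tf f)) m h) l (List.mem_range.2 (cmq_lt hc).1)
  rwa [hc, Bool.not_true, Bool.false_or] at h1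

theorem mkB_mem {g l m : ℕ} {f : Bool} (h : m ∈ ltf g f) (hc : cmq m l = true) :
    (mkB g f).testBit l = true := by
  have h1 := List.all_eq_true.1 (List.all_eq_true.1 (List.all_eq_true.1 (List.all_eq_true.1
    mkB_all g (List.mem_range.2 (ltf_lt h))) f (mem_tf f)) m h) l (List.mem_range.2 (cmq_lt hc).2)
  rwa [hc, Bool.not_true, Bool.false_or] at h1

/-- the mask of the possible letters of the centre at `i` -/
def cnm (X : FCS.Fct) (i : ℕ) : ℕ :=
  (wrd X ((i + 1) % X.1.length)).foldr (fun c m => Nat.land (mkB (c.getD 0 0) (flq c)) m)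
    ((wrd X i).foldr (fun c m => Nat.land (mkA (c.getD (c.length - 1) 0) (flq c)) m)
      (mkL (X.1.getD i 0) (flq X.1)))

theorem foldr_land {s : List (List ℕ)} {F : List ℕ → ℕ} {b l : ℕ} (hb : b.testBit l = true)
    (h : ∀ c ∈ s, (F c).testBit l = true) :
    (s.foldr (fun c m => Nat.land (F c) m) b).testBit l = true := by
  induction s with
  | nil => exact hb
  | cons c s ih =>
    rw [List.foldr_cons]
    show (F c &&& _).testBit l = true
    rw [Nat.testBit_and, h c (List.mem_cons_self ..), ih fun c hc => h c (List.mem_cons_of_mem _ hc)]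
    rfl

/-- the smallest value for a mask; `F0`, `F1`: the masks of the values `0`, `1` -/
def mnb (F0 F1 m : ℕ) : ℕ :=
  if Nat.beq (Nat.land m F0) 0 = false then 0
  else if Nat.beq (Nat.land m F1) 0 = false then 1 else if Nat.beq m 0 = true then 9 else 2

theorem land_ne {m F l : ℕ} (h : m.testBit l = true) (h' : F.testBit l = true) :
    Nat.beq (Nat.land m F) 0 = false := by
  by_contra hn
  rw [Bool.not_eq_false] at hn
  have h1 : (m &&& F).testBit l = true := by rw [Nat.testBit_and, h, h']; rfl
  have h2 : m &&& F = 0 := Nat.eq_of_beq_eq_true hn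
  rw [h2] at h1
  exact absurd h1 (by simp)

/-- the masks of the function -/
def MsF (f : ℕ → ℕ) (F0 F1 : ℕ) : Bool :=
  (List.range 27).all fun l => (!Nat.beq (f l) 0 || F0.testBit l) &&
    (!Nat.beq (f l) 1 || F1.testBit l)

theorem mnb_le {f : ℕ → ℕ} {F0 F1 m l : ℕ} (hf : MsF f F0 F1 = true) (hm : m.testBit l = true)
    (hl : l < 27) : mnb F0 F1 m ≤ f l := by
  have h1 := List.all_eq_true.1 hf l (List.mem_range.2 hl)
  rw [Bool.and_eq_true, Bool.or_eq_true, Bool.or_eq_true, Bool.not_eq_true',
    Bool.not_eq_true'] at h1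
  unfold mnb
  by_cases a0 : f l = 0
  · have h2 : F0.testBit l = true := by
      rcases h1.1 with h3 | h3
      · rw [a0] at h3; exact absurd h3 (by decide)
      · exact h3
    rw [if_pos (land_ne hm h2)]
    exact Nat.zero_le _
  · split_ifs with b0 b1 b2
    · exact Nat.zero_le _
    · omega
    · exfalso
      rw [Nat.eq_of_beq_eq_true b2] at hm
      exact absurd hm (by simp)
    · by_cases a1 : f l = 1
      · exfalso
        have h2 : F1.testBit l = true := by
          rcases h1.2 with h3 | h3
          · rw [a1] at h3; exact absurd h3 (by decide)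
          · exact h3
        exact b1 (land_ne hm h2)
      · omega

/-- the smallest values of `lny`, `ldx`, `ldy`, `lvx`, `lvy` -/
def mq1 (m : ℕ) : ℕ := mnb 125709483 8426324 m
def mq2 (m : ℕ) : ℕ := mnb 134108411 68356 m
def mq3 (m : ℕ) : ℕ := mnb 134098171 37636 m
def mq4 (m : ℕ) : ℕ := mnb 134108667 68100 m
def mq5 (m : ℕ) : ℕ := mnb 134098427 37380 m

theorem mq1_le {m l : ℕ} (hm : m.testBit l = true) (hl : l < 27) : mq1 m ≤ lny l :=
  mnb_le (by decide +kernel) hm hl
theorem mq2_le {m l : ℕ} (hm : m.testBit l = true) (hl : l < 27) : mq2 m ≤ ldx l :=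
  mnb_le (by decide +kernel) hm hl
theorem mq3_le {m l : ℕ} (hm : m.testBit l = true) (hl : l < 27) : mq3 m ≤ ldy l :=
  mnb_le (by decide +kernel) hm hl
theorem mq4_le {m l : ℕ} (hm : m.testBit l = true) (hl : l < 27) : mq4 m ≤ lvx l :=
  mnb_le (by decide +kernel) hm hl
theorem mq5_le {m l : ℕ} (hm : m.testBit l = true) (hl : l < 27) : mq5 m ≤ lvy l :=
  mnb_le (by decide +kernel) hm hl

/-- `2 < a` -/
def gt2 (a : ℕ) : Bool := Nat.ble 3 a

theorem gt2_iff {a : ℕ} : gt2 a = true ↔ 2 < a := by
  unfold gt2
  rw [Nat.ble_eq]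
  exact Iff.rfl

/-- more than two units and labels at the neighbour `i` -/
def ov4 (b : ℕ) (R T : List (List ℕ)) : Bool :=
  gt2 b || (R.any fun q => gt2 (b + mq2 (mkL (q.getD 1 0) (flq q)))) ||
  (T.any fun p => gt2 (b + mq3 (mkL (p.getD (p.length - 2) 0) (flq p)))) ||
  R.any fun q => T.any fun p =>
    gt2 (b + mq2 (mkL (q.getD 1 0) (flq q)) + mq5 (mkL (p.getD (p.length - 2) 0) (flq p))) ||
    gt2 (b + mq4 (mkL (q.getD 1 0) (flq q)) + mq3 (mkL (p.getD (p.length - 2) 0) (flq p)))

/-- some neighbour of the centre has too many units and labels -/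
def ovB (X : FCS.Fct) : Bool :=
  (List.range X.1.length).any fun i =>
    ov4 (mq1 (cnm X ((i + X.1.length - 1) % X.1.length)) + mq2 (cnm X i))
      (if lsol (X.1.getD i 0) = true then wrd X ((i + 1) % X.1.length) else [])
      (if lsol (X.1.getD ((i + X.1.length - 1) % X.1.length) 0) = true then
        wrd X ((i + X.1.length - 1) % X.1.length) else [])

/-- the words of letters which do not occur -/
def glbq (X : FCS.Fct) : Bool :=
  (X.2.any fun p => !p.2.isEmpty && decide (p.1 < X.1.length) && p.2.all lal && !glf p.2) ||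
    (X.1.all lal && !glf X.1)

/-- the pattern cannot occur -/
def bd2 (X : FCS.Fct) : Bool :=
  ((List.range X.1.length).any fun i => Nat.beq (cnm X i) 0) || ovB X || glbq X

/-- the pattern cannot occur; also seen from the neighbours -/
def bdw (X : FCS.Fct) : Bool :=
  bd2 X || X.2.any fun p => !p.2.isEmpty && decide (p.1 < X.1.length) && bd2 (vwX X p)

/-- the case distinction at the letters of the list -/
def spw (Ys : List FCS.Fct) : List (ℕ × ℕ) → FCS.Fct → Bool
  | [], X => spa Ys X
  | q :: P, X => spa Ys X || (vld X q.1 q.2 &&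
      (lts (gtL X q.1 q.2)).all fun l => bdw (stL X q.1 q.2 l) || spw Ys P (stL X q.1 q.2 l))

section

variable {D V : Type} [Fintype D] [DecidableEq V]
  {S : St D V} {L : D → Bool} {w : D → ℕ} {U : V → Prop} {x d : D}
  (h : MC 6 S L w) (hS : IsStar S)

include h hS

theorem lal_lto (hd : S.real d = true) : lal (lto S L d) = true := by
  have h5 := h.rdeg_pos hS hd
  have h6 := h.lwo_getD hS hd (i := 0) (by omega)
  have h7 : lto S L d ∈ lwo S L d := by
    show lto S L (S.nxr^[0] d) ∈ _
    rw [← h6]
    exact getD_mem (by rw [lwo_length]; omega)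
  exact h.lwo_lal hS hd _ h7

/-- the letters of one sector at the two ends of an edge -/
theorem cmq_edge (hd : S.real d = true) :
    cmq (lto S L d) (lto S L (S.nxr^[S.rdeg (S.M.v (S.M.α d)) - 1] (S.M.α d))) = true := by
  have W := h.ok.toWf
  have rα : S.real (S.M.α d) = true := by rw [W.real_α]; exact hd
  have h5 := h.rdeg_pos hS hd
  have h6 := h.rdeg_pos hS rα
  have e1 := h.cmp_edge hS hd
  rw [lwo_length, h.lwo_getD hS hd (by omega), h.lwo_getD hS rα (by omega)] at e1
  have e1' : cmpf (lto S L d) (lto S L (S.nxr^[S.rdeg (S.M.v (S.M.α d)) - 1] (S.M.α d))) = true := e1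
  unfold cmq
  rw [e1', Bool.true_and, Bool.not_eq_true', Bool.and_eq_false_iff]
  by_contra hcc
  push Not at hcc
  obtain ⟨n1, n2⟩ := hcc
  have h9 : lto S L d = 9 := Nat.eq_of_beq_eq_true (by simpa using n1)
  have h9' : lto S L (S.nxr^[S.rdeg (S.M.v (S.M.α d)) - 1] (S.M.α d)) = 9 :=
    Nat.eq_of_beq_eq_true (by simpa using n2)
  have hs0 : S.real (S.M.σ d) = false := by
    have hl := h.lsol_iff' hS hd
    rw [h9] at hl
    have h5 : decide (S.real (S.M.σ d) = true) = false := by rw [← hl]; rfl
    simpa using h5
  have e2 : S.csz (S.nxr d) = S.csz (S.M.σ d) :=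
    (csz_congr (sc_nxr d)).symm.trans (csz_congr (sc_sec1 d))
  have h4 := h.ev4 hS hd (by rw [h9]; rfl)
  rw [e2] at h4
  obtain ⟨b1, -⟩ := h.two4 hS hd hs0 h4 ((h.ev hS hd).2.2 (by rw [h9]; rfl)) (by
    rw [← h.lown_eq hS hd, h9]; rfl)
  have hr := hS.nxr_iter_real W rα (S.rdeg (S.M.v (S.M.α d)) - 1)
  have e3 : S.nxr (S.nxr^[S.rdeg (S.M.v (S.M.α d)) - 1] (S.M.α d)) = S.M.α d := by
    rw [← Function.iterate_succ_apply' S.nxr,
      show (S.rdeg (S.M.v (S.M.α d)) - 1).succ = S.rdeg (S.M.v (S.M.α d)) by omega]
    exact hS.nxr_rdeg W rα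
  have h7 := h.lown_eq hS hr
  rw [h9', e3] at h7
  rw [← h7] at b1
  exact absurd b1 (by decide)

include hS in
theorem mem_ltf (hC : Can S w) {c : List ℕ} (hd : S.real d = true)
    (hw : llw c (lwo S L d) = true) {i : ℕ} (hi : i < c.length) :
    lto S L (S.nxr^[i] d) ∈ ltf (c.getD i 0) (flq c) := by
  have W := h.ok.toWf
  have hln := llw_len hw
  have h1 := hln
  rw [lwo_length] at h1
  have l1 := llw_getD hw hi
  rw [h.lwo_getD hS hd (by omega)] at l1
  have hl := lal_lto h hS (hS.nxr_iter_real W hd i)
  unfold ltf
  rw [List.mem_filter]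
  refine ⟨mem_lts l1 hl, ?_⟩
  cases hf : flq c
  · have h6 : ¬ (c.map wl).sum = 6 := by
      intro h6
      unfold flq at hf
      rw [h6] at hf
      exact absurd hf (by decide)
    rw [map_wl hw] at h6
    have hg := h.lwo_glf hS hC hd
    unfold glf glw at hg
    simp only [Bool.and_eq_true, Bool.or_eq_true, decide_eq_true_eq, h6, false_or] at hg
    obtain ⟨⟨⟨-, g1⟩, g2⟩, -⟩ := hg
    have hm : lto S L (S.nxr^[i] d) ∈ lwo S L d := by
      rw [← h.lwo_getD hS hd (i := i) (by omega)]
      exact getD_mem (by rw [lwo_length]; omega)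
    have g3 := List.all_eq_true.1 g1 _ hm
    have g4 := List.all_eq_true.1 g2 _ hm
    rw [Bool.not_eq_true'] at g3
    rw [Bool.and_eq_true, Bool.not_eq_true', Bool.not_eq_true'] at g4
    unfold lfq
    rw [g3, g4.1, g4.2]
    rfl
  · rfl

include hS in
/-- the letter of the centre has the mask -/
theorem cnm_mem (hC : Can S w) {X : FCS.Fct} (hx : HasL S L U X.1 X.2 x) {i : ℕ}
    (hi : i < X.1.length) : (cnm X i).testBit (lto S L (S.nxr^[i] x)) = true := by
  have W := h.ok.toWf
  have re : ∀ i, S.real (S.nxr^[i] x) = true := fun i => hS.nxr_iter_real W hx.re i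
  have rα : ∀ {y}, S.real y = true → S.real (S.M.α y) = true := fun hy => by
    rw [W.real_α]; exact hy
  have hln := llw_len hx.w
  have hn : X.1.length = S.rdeg (S.M.v x) := by rw [← lwo_length (S := S) (L := L), ← hln]
  have hper : ∀ i, S.nxr^[i % X.1.length] x = S.nxr^[i] x := fun i => by
    rw [hn]; exact nxr_mod hS W hx.re i
  unfold cnm
  refine foldr_land (foldr_land (mkL_mem (mem_ltf h hS hC hx.re hx.w hi)) fun c hc => ?_)
    fun c hc => ?_
  · obtain ⟨m1, m2⟩ := mem_wrd hc
    have hw : llw c (lwo S L (S.M.α (S.nxr^[i] x))) = true := hx.nw _ m1 m2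
    have hc0 : 0 < c.length := List.length_pos_of_ne_nil m2
    have h1 := mem_ltf h hS hC (rα (re i)) hw (i := c.length - 1) (by omega)
    have h2 := cmq_edge h hS (re i)
    have h3 := llw_len hw
    rw [lwo_length] at h3
    rw [← h3] at h2
    exact mkA_mem h1 h2
  · obtain ⟨m1, m2⟩ := mem_wrd hc
    have hw : llw c (lwo S L (S.M.α (S.nxr^[(i + 1) % X.1.length] x))) = true := hx.nw _ m1 m2
    have hc0 : 0 < c.length := List.length_pos_of_ne_nil m2
    have h1 := mem_ltf h hS hC (rα (re ((i + 1) % X.1.length))) hw (i := 0) hc0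
    have h2 := cmq_edge h hS (rα (re ((i + 1) % X.1.length)))
    have h4 : S.nxr^[S.rdeg (S.M.v (S.nxr^[(i + 1) % X.1.length] x)) - 1]
        (S.nxr^[(i + 1) % X.1.length] x) = S.nxr^[i] x := by
      have e0 : S.M.v (S.nxr^[(i + 1) % X.1.length] x) = S.M.v x := by rw [v_nxr_iter]
      have h4 := h.rdeg_pos hS hx.re
      rw [e0, hper, ← Function.iterate_add_apply, hn.symm, ← hper,
        show X.1.length - 1 + (i + 1) = i + X.1.length by omega, Nat.add_mod_right, hper]
    rw [S.M.αα, h4] at h2
    exact mkB_mem h1 h2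

include hS in
theorem ovB_sound (hC : Can S w) {X : FCS.Fct} (hx : HasL S L U X.1 X.2 x) : ovB X = false := by
  have W := h.ok.toWf
  have re : ∀ i, S.real (S.nxr^[i] x) = true := fun i => hS.nxr_iter_real W hx.re i
  have rα : ∀ {y}, S.real y = true → S.real (S.M.α y) = true := fun hy => by
    rw [W.real_α]; exact hy
  have hln := llw_len hx.w
  have hn : X.1.length = S.rdeg (S.M.v x) := by rw [← lwo_length (S := S) (L := L), ← hln]
  have h4 := h.rdeg_pos hS hx.re
  have hper : ∀ i, S.nxr^[i % X.1.length] x = S.nxr^[i] x := fun i => by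
    rw [hn]; exact nxr_mod hS W hx.re i
  have lal' : ∀ {y}, S.real y = true → lto S L y < 27 := fun hy => lal_lt (lal_lto h hS hy)
  have lett : ∀ i < X.1.length, lle (X.1.getD i 0) (lto S L (S.nxr^[i] x)) = true := by
    intro i hi
    have h3 := llw_getD hx.w hi
    rwa [h.lwo_getD hS hx.re (by rw [← hn]; exact hi)] at h3
  unfold ovB
  rw [List.any_eq_false]
  intro i hi hb
  rw [List.mem_range] at hi
  have hi' : (i + X.1.length - 1) % X.1.length < X.1.length := Nat.mod_lt _ (by omega)
  have e1 : S.nxr (S.nxr^[(i + X.1.length - 1) % X.1.length] x) = S.nxr^[i] x := by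
    rw [hper, ← Function.iterate_succ_apply' S.nxr,
      show (i + X.1.length - 1).succ = i + X.1.length by omega, ← hper, Nat.add_mod_right, hper]
  have e2 : S.nxr (S.nxr^[i] x) = S.nxr^[(i + 1) % X.1.length] x := by
    rw [← Function.iterate_succ_apply' S.nxr, hper]
  have l1 := lett _ hi'
  have l2 := lett _ hi
  have hd := re ((i + X.1.length - 1) % X.1.length)
  have hk := rα hd
  have hk4 := h.rdeg_pos hS hk
  obtain ⟨p, hp, hpn, hpe⟩ : ∃ p, S.real p = true ∧
      S.nxr (S.nxr p) = S.M.α (S.nxr^[(i + X.1.length - 1) % X.1.length] x) ∧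
      p = S.nxr^[S.rdeg (S.M.v (S.M.α (S.nxr^[(i + X.1.length - 1) % X.1.length] x))) - 2]
        (S.M.α (S.nxr^[(i + X.1.length - 1) % X.1.length] x)) := by
    refine ⟨_, hS.nxr_iter_real W hk _, ?_, rfl⟩
    rw [← Function.iterate_succ_apply' S.nxr, ← Function.iterate_succ_apply' S.nxr,
      show (S.rdeg (S.M.v (S.M.α (S.nxr^[(i + X.1.length - 1) % X.1.length] x))) - 2).succ.succ =
        S.rdeg (S.M.v (S.M.α (S.nxr^[(i + X.1.length - 1) % X.1.length] x))) by omega]
    exact hS.nxr_rdeg W hk
  obtain ⟨B0, B1, B2, B3⟩ := h.ov_le hS hd hp hpn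
  rw [e1] at B0 B1 B2 B3
  rw [e2] at B1 B3
  have b1 := mq1_le (cnm_mem h hS hC hx hi') (lal' hd)
  have b2 := mq2_le (cnm_mem h hS hC hx hi) (lal' (re i))
  have R : ∀ q ∈ wrd X ((i + 1) % X.1.length),
      lto S L (S.nxr (S.M.α (S.nxr^[(i + 1) % X.1.length] x))) ∈
        ltf (q.getD 1 0) (flq q) := by
    intro q hq
    obtain ⟨m1, m2⟩ := mem_wrd hq
    have hw : llw q (lwo S L (S.M.α (S.nxr^[(i + 1) % X.1.length] x))) = true := hx.nw _ m1 m2
    have hr := rα (re ((i + 1) % X.1.length))
    have h5 := h.rdeg_pos hS hr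
    have h7 := llw_len hw
    rw [lwo_length] at h7
    exact mem_ltf h hS hC hr hw (i := 1) (by omega)
  have T : ∀ q ∈ wrd X ((i + X.1.length - 1) % X.1.length),
      lto S L p ∈ ltf (q.getD (q.length - 2) 0) (flq q) := by
    intro q hq
    obtain ⟨m1, m2⟩ := mem_wrd hq
    have hw : llw q (lwo S L (S.M.α (S.nxr^[(i + X.1.length - 1) % X.1.length] x))) = true :=
      hx.nw _ m1 m2
    have h7 := llw_len hw
    rw [lwo_length] at h7
    have h6 := mem_ltf h hS hC hk hw (i := q.length - 2) (by omega)
    rw [hpe, ← h7]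
    exact h6
  have hR : ∀ q ∈ (if lsol (X.1.getD i 0) = true then wrd X ((i + 1) % X.1.length) else []),
      lsol (lto S L (S.nxr^[i] x)) = true ∧
        lto S L (S.nxr (S.M.α (S.nxr^[(i + 1) % X.1.length] x))) ∈
          ltf (q.getD 1 0) (flq q) := by
    intro q hq
    split_ifs at hq with hs
    · exact ⟨by rw [← lle_sol l2]; exact hs, R q hq⟩
    · exact absurd hq (by simp)
  have hT : ∀ q ∈ (if lsol (X.1.getD ((i + X.1.length - 1) % X.1.length) 0) = true then
        wrd X ((i + X.1.length - 1) % X.1.length) else []),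
      lsol (lto S L (S.nxr^[(i + X.1.length - 1) % X.1.length] x)) = true ∧
        lto S L p ∈ ltf (q.getD (q.length - 2) 0) (flq q) := by
    intro q hq
    split_ifs at hq with hs
    · exact ⟨by rw [← lle_sol l1]; exact hs, T q hq⟩
    · exact absurd hq (by simp)
  have lp := lal' hp
  have lr := lal' (hS.nxr_real W (rα (re ((i + 1) % X.1.length))))
  unfold ov4 at hb
  rw [Bool.or_eq_true, Bool.or_eq_true, Bool.or_eq_true, gt2_iff, List.any_eq_true,
    List.any_eq_true, List.any_eq_true] at hb
  rcases hb with ((hb | ⟨q, hq, hb⟩) | ⟨q, hq, hb⟩) | ⟨q, hq, hb⟩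
  · omega
  · rw [gt2_iff] at hb
    obtain ⟨s1, s2⟩ := hR q hq
    have b3 := mq2_le (mkL_mem s2) lr
    have := B1 s1
    omega
  · rw [gt2_iff] at hb
    obtain ⟨s1, s2⟩ := hT q hq
    have b3 := mq3_le (mkL_mem s2) lp
    have := B2 s1
    omega
  · rw [List.any_eq_true] at hb
    obtain ⟨t, ht, hb⟩ := hb
    obtain ⟨s1, s2⟩ := hR q hq
    obtain ⟨s3, s4⟩ := hT t ht
    obtain ⟨c1, c2⟩ := B3 s1 s3
    have b3 := mq2_le (mkL_mem s2) lr
    have b4 := mq4_le (mkL_mem s2) lr
    have b5 := mq3_le (mkL_mem s4) lp
    have b6 := mq5_le (mkL_mem s4) lp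
    rw [Bool.or_eq_true, gt2_iff, gt2_iff] at hb
    rcases hb with hb | hb <;> omega

include hS in
theorem bd2_sound (hC : Can S w) {X : FCS.Fct} (hx : HasL S L U X.1 X.2 x) : bd2 X = false := by
  unfold bd2
  rw [Bool.or_eq_false_iff, Bool.or_eq_false_iff]
  refine ⟨⟨?_, ovB_sound h hS hC hx⟩, ?_⟩
  · rw [List.any_eq_false]
    intro i hi hb
    have h1 := cnm_mem h hS hC hx (List.mem_range.1 hi)
    rw [Nat.eq_of_beq_eq_true hb] at h1
    exact absurd h1 (by simp)
  · have h1 := fbad_sound h hS hC hx
    unfold fbad at h1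
    unfold glbq
    rw [Bool.or_eq_false_iff] at h1 ⊢
    refine ⟨?_, h1.2⟩
    have h2 := h1.1
    rw [List.any_eq_false] at h2 ⊢
    intro p hp hb
    refine h2 p hp ?_
    rw [Bool.and_eq_true, Bool.and_eq_true] at hb
    rw [Bool.and_eq_true]
    refine ⟨hb.1.1, ?_⟩
    rw [Bool.or_eq_true]
    right
    rw [Bool.and_eq_true]
    exact ⟨hb.1.2, hb.2⟩

include hS in
theorem bdw_sound (hC : Can S w) {X : FCS.Fct} (hx : HasL S L U X.1 X.2 x) : bdw X = false := by
  unfold bdw
  rw [Bool.or_eq_false_iff, List.any_eq_false]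
  refine ⟨bd2_sound h hS hC hx, fun p hp hb => ?_⟩
  rw [Bool.and_eq_true, Bool.and_eq_true, Bool.not_eq_true', decide_eq_true_eq] at hb
  obtain ⟨⟨h3, h4⟩, h5⟩ := hb
  have hv := vwX_sound h hS hp (fun h6 => by
    rw [h6] at h3
    exact absurd h3 (by simp)) h4 hx
  rw [bd2_sound h hS hC hv] at h5
  exact absurd h5 (by decide)

include hS in
theorem spw_sound (hC : Can S w) {Ys : List FCS.Fct}
    (hY : ∀ Y ∈ Ys, ∀ x, ¬ HasL S L U Y.1 Y.2 x) :
    ∀ (P : List (ℕ × ℕ)) (X : FCS.Fct), spw Ys P X = true → ¬ HasL S L U X.1 X.2 x := by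
  have key : ∀ X : FCS.Fct, spa Ys X = true → ¬ HasL S L U X.1 X.2 x := fun X h1 =>
    spc_sound h hS hC hY [] X h1
  intro P
  induction P with
  | nil => exact fun X hs => key X hs
  | cons q P ih =>
    intro X hs hx
    rw [show spw Ys (q :: P) X = (spa Ys X || (vld X q.1 q.2 &&
      (lts (gtL X q.1 q.2)).all fun l => bdw (stL X q.1 q.2 l) || spw Ys P (stL X q.1 q.2 l)))
      from rfl, Bool.or_eq_true, Bool.and_eq_true, List.all_eq_true] at hs
    rcases hs with h1 | ⟨h1, h2⟩
    · exact key X h1 hx
    · obtain ⟨l, hl, hx'⟩ := stL_sound h hS h1 hx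
      have h3 := h2 l hl
      rw [bdw_sound h hS hC hx', Bool.false_or] at h3
      exact ih _ h3 hx'

end

/-- AN IMPOSSIBLE PATTERN -/
theorem impw {X : FCS.Fct} (hs : bdw X = true) : NoL X.1 X.2 := by
  intro D V _ _ S L w U hM hS hR hC x hx
  rw [bdw_sound hM hS hC hx] at hs
  exact absurd hs (by decide)

/-- A CASE DISTINCTION: all refinements of the pattern at the letters of `P` are impossible or
instances of patterns which do not occur -/
theorem splw {Ys : List FCS.Fct} (hY : ∀ Y ∈ Ys, NoL Y.1 Y.2) (P : List (ℕ × ℕ))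
    {X : FCS.Fct} (hs : spw Ys P X = true) : NoL X.1 X.2 := by
  intro D V _ _ S L w U hM hS hR hC x
  exact spw_sound hM hS hC (fun Y h1 => hY Y h1 D V S L w U hM hS hR hC) P X hs

end Pool.FC7.Lc
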