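import Pool.Agent.FC7.GrC

/-! # Packed records

A record of tables is given by few numbers: the tables are the blocks of `S` bits of these numbers, a
list is a number whose digits are the entries. -/

set_option linter.unusedSectionVars false

namespace Pool.FC7

open Pool.FC6

namespace K

/-- the block `k` of `S` bits -/
def ex (S c k : ℕ) : ℕ :=
  Nat.land (Nat.shiftRight c (Nat.mul S k)) (Nat.sub (Nat.pow (nat_lit 2) S) (nat_lit 1))

/-- entries of 16 bits -/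
def t16 (T i : ℕ) : ℕ := Nat.land (Nat.shiftRight T (Nat.mul (nat_lit 16) i)) (nat_lit 65535)

/-- entries of 32 bits, the higher halves are `n` entries of 16 bits after the `n` lower ones -/
def t16w (n T i : ℕ) : ℕ :=
  Nat.add (t16 T i) (Nat.mul (nat_lit 65536) (t16 T (Nat.add n i)))

/-- the number of a Boolean -/
noncomputable def bn (b : Bool) : ℕ := Bool.rec (motive := fun _ => ℕ) (nat_lit 0) (nat_lit 1) b

/-- the bytes `0, 1, .., n - 1` -/
def idn (n : ℕ) : ℕ :=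
  Nat.sub (Nat.mod (Nat.pow (Nat.div (Nat.sub (Nat.pow (nat_lit 2) (Nat.mul (nat_lit 8) n)) (nat_lit 1))
    (nat_lit 255)) (nat_lit 2)) (Nat.pow (nat_lit 2) (Nat.mul (nat_lit 8) n)))
    (Nat.div (Nat.sub (Nat.pow (nat_lit 2) (Nat.mul (nat_lit 8) n)) (nat_lit 1)) (nat_lit 255))

/-- `n` bytes with a one in every third byte -/
def th1 (n : ℕ) : ℕ :=
  Nat.div (Nat.sub (Nat.pow (nat_lit 2) (Nat.mul (nat_lit 8) n)) (nat_lit 1)) (nat_lit 16777215)

/-- the bytes `1, 2, 0, 4, 5, 3, ..` -/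
def phn (n : ℕ) : ℕ :=
  Nat.add (Nat.mul (nat_lit 197379) (Nat.sub (Nat.mod (Nat.pow (th1 n) (nat_lit 2))
    (Nat.pow (nat_lit 2) (Nat.mul (nat_lit 8) n))) (th1 n))) (Nat.mul (nat_lit 513) (th1 n))

/-- blocks of `s` ones and `s` zeros -/
def msk (s : ℕ) : ℕ :=
  Nat.mul (Nat.sub (Nat.pow (nat_lit 2) s) (nat_lit 1))
    (Nat.div (Nat.sub (Nat.pow (nat_lit 2) (nat_lit 8192)) (nat_lit 1))
      (Nat.sub (Nat.pow (nat_lit 2) (Nat.mul (nat_lit 2) s)) (nat_lit 1)))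

def wst (x s : ℕ) : ℕ := Nat.land (Nat.lor x (Nat.shiftLeft x s)) (msk s)

/-- bytes from half bytes -/
def wid (x : ℕ) : ℕ :=
  wst (wst (wst (wst (wst (wst (wst (wst (wst (wst x (nat_lit 2048)) (nat_lit 1024)) (nat_lit 512)) (nat_lit 256))
    (nat_lit 128)) (nat_lit 64)) (nat_lit 32)) (nat_lit 16)) (nat_lit 8)) (nat_lit 4)

/-- `n` digits of `s` bits; `m = 2 ^ s - 1` -/
noncomputable def dgs (s m n N : ℕ) : List ℕ :=
  Nat.rec (motive := fun _ => ℕ → List ℕ) (fun _ => [])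
    (fun _ ih N => Nat.land N m :: ih (Nat.shiftRight N s)) n N

/-- a list of bytes, the first byte is the length -/
noncomputable def dl (N : ℕ) : List ℕ :=
  dgs (nat_lit 8) (nat_lit 255) (Nat.land N (nat_lit 255)) (Nat.shiftRight N (nat_lit 8))

/-- a list of numbers of 16 bits -/
noncomputable def dh (N : ℕ) : List ℕ :=
  dgs (nat_lit 16) (nat_lit 65535) (Nat.land N (nat_lit 255)) (Nat.shiftRight N (nat_lit 8))

/-- a list of numbers of 32 bits -/
noncomputable def dw (N : ℕ) : List ℕ :=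
  dgs (nat_lit 32) (nat_lit 4294967295) (Nat.land N (nat_lit 255)) (Nat.shiftRight N (nat_lit 8))

/-- a list of pairs of bytes -/
noncomputable def dp (N : ℕ) : List (ℕ × ℕ) :=
  lmap (fun v => Prod.mk (Nat.land v (nat_lit 255)) (Nat.shiftRight v (nat_lit 8))) (dh N)

/-- the parts of a list, every part ends with `z` -/
noncomputable def spl (z : ℕ) (l : List ℕ) : List (List ℕ) :=
  List.rec (motive := fun _ => List (List ℕ)) []
    (fun a _ ih => Bool.rec (motive := fun _ => List (List ℕ))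
      (List.rec (motive := fun _ => List (List ℕ)) [] (fun h t _ => (a :: h) :: t) ih)
      ([] :: ih) (Nat.beq a z)) l

/-- a list of lists of bytes `≠ 255` -/
noncomputable def dll (N : ℕ) : List (List ℕ) := spl (nat_lit 255) (dl N)

/-- a list of lists of numbers of 16 bits, not `65535` -/
noncomputable def dlh (N : ℕ) : List (List ℕ) := spl (nat_lit 65535) (dh N)

/-- a list of lists of numbers of 32 bits -/
noncomputable def dlw (N : ℕ) : List (List ℕ) := spl (nat_lit 4294967295) (dw N)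

/-- a list of pairs with a mask of 112 bits -/
noncomputable def dt (N : ℕ) : List (ℕ × ℕ × ℕ) :=
  lmap (fun v => Prod.mk (Nat.land v (nat_lit 255)) (Prod.mk (Nat.land (Nat.shiftRight v (nat_lit 8))
    (nat_lit 255)) (Nat.shiftRight v (nat_lit 16))))
    (dgs (nat_lit 128) (nat_lit 340282366920938463463374607431768211455) (Nat.land N (nat_lit 255))
      (Nat.shiftRight N (nat_lit 8)))

/-- a list of bytes with two flags -/
noncomputable def df (N : ℕ) : List (ℕ × Bool × Bool) :=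
  lmap (fun v => Prod.mk (Nat.land v (nat_lit 255)) (Prod.mk (tbit v (nat_lit 8)) (tbit v (nat_lit 9))))
    (dh N)

/-- the entries of the bound 5: the first number of a list is the certificate, the others are the
clauses -/
noncomputable def d5 (N : ℕ) : List (List ℕ × List (List (ℕ × ℕ × Bool))) :=
  lmap (fun l => List.rec (motive := fun _ => List ℕ × List (List (ℕ × ℕ × Bool))) (Prod.mk [] [])
    (fun c t _ => Prod.mk [Nat.land c (nat_lit 255), Nat.shiftRight c (nat_lit 8)]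
      (lmap (fun v => [Prod.mk (Nat.land v (nat_lit 255)) (Prod.mk (Nat.land (Nat.shiftRight v
        (nat_lit 8)) (nat_lit 255)) (tbit v (nat_lit 16)))]) t)) l) (dlw N)

/-- the table of the identity with some changes -/
noncomputable def dlt (n l : ℕ) : ℕ :=
  Nat.xor (idn n) (lsum (lmap (fun v => Nat.shiftLeft (Nat.shiftRight v (nat_lit 8))
    (Nat.mul (nat_lit 8) (Nat.land v (nat_lit 255)))) (dh l)))

/-- the table `T`, or the identity if there is none -/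
noncomputable def idt (T i : ℕ) : ℕ := Bool.rec (motive := fun _ => ℕ) (tb T i) i (Nat.beq T (nat_lit 0))

/-- the default value of `tl` -/
noncomputable def tlt (N tj q : ℕ) : List ℕ :=
  Bool.rec (motive := fun _ => List ℕ) (lgetD (dll N) q []) [tb tj q] (Nat.beq N (nat_lit 0))

/-- no search tables -/
noncomputable def T0 : XF where
  q := nat_lit 0
  w := nat_lit 0
  N := nat_lit 0
  K := nat_lit 0
  F := nat_lit 0
  I := nat_lit 0
  O := nat_lit 0
  FK := nat_lit 0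
  x := nat_lit 0
  es := []
  es' := []
  ars := []
  tj := nat_lit 0
  hj := nat_lit 0
  tj' := nat_lit 0
  hj' := nat_lit 0
  rq := []
  tt := nat_lit 0
  tt' := nat_lit 0
  hl := nat_lit 0
  lr := []
  hi := fun _ => []

end K

/-- a packed record -/
structure PK where
  n : ℕ
  x : ℕ
  k : ℕ
  lo : ℕ
  p : ℕ
  nl : ℕ
  ns : ℕ
  nc : ℕ
  na : ℕ
  φ : ℕ
  α : ℕ
  l : ℕ
  u : ℕ
  φ' : ℕ
  l' : ℕ
  u' : ℕ
  ce : ℕ
  pa : ℕ
  pk : ℕ
  ce' : ℕ
  pa' : ℕ
  pk' : ℕ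
  kp : ℕ
  kr : ℕ
  rk : ℕ
  rj : ℕ
  vp : ℕ
  vr : ℕ
  ρ : ℕ
  ρi : ℕ
  π : ℕ
  ca : ℕ
  pr : ℕ
  pt : ℕ
  al : ℕ
  nf : ℕ
  ad : ℕ
  SD : ℕ
  NM : ℕ
  NA : ℕ
  m : ℕ
  off : ℕ
  zp : ℕ
  zj : ℕ
  ra : ℕ
  cs : ℕ
  cr : ℕ
  cr' : ℕ
  lr : ℕ
  sl : ℕ
  ty : ℕ
  tj : ℕ
  tk : ℕ
  tu : ℕ
  sc : ℕ
  rd : ℕ
  real : ℕ
  real' : ℕ
  sp : ℕ
  lb : ℕ
  lb' : ℕ
  ro : ℕ
  ou : ℕ
  op : ℕ
  tw : ℕ
  uk : ℕ
  oz : ℕ
  lu : ℕ
  cx : ℕ
  rl : ℕ
  st : ℕ
  st' : ℕ
  lt : ℕ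
  fl : ℕ
  es : ℕ
  es' : ℕ
  rs : ℕ
  ar : ℕ
  dj : ℕ
  dj' : ℕ
  xl : ℕ
  kd : ℕ
  lv : ℕ
  ul : ℕ
  gt : ℕ
  D5 : ℕ
  p5 : ℕ
  dq : ℕ
  nq : ℕ
  oq : ℕ
  sw : ℕ
  tl : ℕ
  wd : ℕ
  bw : ℕ
  pl : ℕ

namespace PK

noncomputable def P (R : PK) : Pa where
  n := R.n
  φ := K.tb R.φ
  α := K.tb R.α
  l := K.tb R.l
  real := K.tbit R.real
  u := K.tb R.u

noncomputable def P' (R : PK) : Pa where
  n := R.n
  φ := K.tb R.φ'
  α := K.tb R.α
  l := K.tb R.l'
  real := K.tbit R.real'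
  u := K.tb R.u'

noncomputable def X (R : PK) : XE where
  x := R.x
  k := R.k
  lo := R.lo
  nc := true
  par := true
  flt := fun _ => true
  ce := K.tb R.ce
  ce' := K.tb R.ce'
  cr := K.tb R.cr
  pa := K.tb R.pa
  pk := K.tb R.pk
  cr' := K.tb R.cr'
  pa' := K.tb R.pa'
  pk' := K.tb R.pk'
  st := K.t16w R.n R.st
  st' := K.t16w R.n R.st'
  es := K.dl R.es
  es' := K.dl R.es'
  rs := K.dl R.rs
  ar := K.dp R.ar
  sp := K.tbit R.sp
  dj := K.dw R.dj
  dj' := K.dw R.dj'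
  lr := K.df R.xl
  kd := K.dl R.kd

noncomputable def O (R : PK) : OD where
  Δ := nat_lit 6
  lo := R.lo
  x := R.x
  m := Nat.add R.x R.k
  p := R.p
  pc := K.tb R.ce'
  rt := K.tb R.cr'
  par := K.tb R.pa'
  prk := K.tb R.pk'
  lb := K.tbit R.lb
  wt := fun i => K.bn (K.tbit R.lb i)
  lb' := K.tbit R.lb'
  wt' := fun i => K.bn (K.tbit R.lb' i)
  ro := K.tbit R.ro
  sl := K.tb R.sl

noncomputable def F (R : PK) : Fc where
  P := R.P
  P' := R.P'
  fl := K.dl R.fl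
  X := R.X
  T := K.T0
  O := R.O
  C := ⟨K.dll R.lv, K.dll R.ul⟩
  nl := R.nl
  NM := R.NM
  NA := R.NA
  cq := []
  sm := nat_lit 0
  ou := K.tbit R.ou
  op := K.tbit R.op
  ty := K.tb R.ty
  tj := K.tb R.tj
  tk := K.tb R.tk
  tw := K.tbit R.tw
  uk := K.tbit R.uk
  oz := K.tbit R.oz
  gt := K.dt R.gt
  kp := K.idt R.kp
  kr := K.idt R.kr
  lu := K.tbit R.lu
  D5 := K.dll R.D5
  p5 := K.d5 R.p5

noncomputable def Z (R : PK) : Stars where
  Q := {
    ns := R.ns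
    cx := K.tbit R.cx
    ρ := K.tb R.ρ
    ρi := K.tb R.ρi
    π := K.tb R.π
    rl := K.tbit R.rl
    rk := K.tb R.rk
    rj := K.tb R.rj
    nf := fun k j => K.tb R.nf (Nat.add (Nat.mul (nat_lit 3) j) k)
    vp := K.tb R.vp
    vr := K.tb R.vr
    lr := K.tb R.lr }
  nc := R.nc
  m := K.tb R.m
  off := K.tb R.off
  ca := K.tb R.ca
  pa := K.tb R.zp
  ja := K.tb R.zj
  pr := K.tb R.pr
  pt := K.tb R.pt

noncomputable def G (R : PK) : WG where
  Z := R.Z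
  lt := K.t16 R.lt
  ac := fun a => Nat.ble (Nat.succ a) R.na
  F := R.F
  PT := R.P
  rd := K.tb R.rd
  dq := K.dp R.dq
  nq := K.dp R.nq
  sc := K.tb R.sc
  sw := fun a => K.lgetD (K.dlh R.sw) a []
  oq := K.dp R.oq
  tu := K.tb R.tu
  tl := K.tlt R.tl R.tj
  wd := fun a => K.lgetD (K.dlh R.wd) a []
  ra := K.tb R.ra
  ad := fun a b => K.tb R.ad (Nat.add (Nat.mul (nat_lit 16) a) b)
  al := K.idt R.al
  cs := K.tb R.cs
  SD := fun i j => K.tbit R.SD (Nat.add (Nat.mul R.ns i) j)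
  bw := fun a => K.lgetD (K.dlh R.bw) a []
  pl := K.dl R.pl

/-- the patch of a fact without replacement -/
noncomputable def Fs (R : PK) : Fr where
  P := R.P
  X := R.X
  T := K.T0
  nl := R.nl
  NM := R.NM
  lab := Nat.beq R.p (nat_lit 1)
  dr := R.NA
  nu := K.tbit R.ou
  rq := K.tbit R.op
  lb := K.tbit R.lb
  lu := K.tbit R.lu

/-- a fact without replacement -/
noncomputable def S (R : PK) : WS where
  Z := R.Z
  lt := K.t16 R.lt
  ac := fun a => Nat.ble (Nat.succ a) R.na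
  F := R.Fs
  PT := R.P
  rd := K.tb R.rd
  dq := K.dp R.dq
  wd := fun a => K.lgetD (K.dlh R.wd) a []
  ra := K.tb R.ra
  ad := fun a b => K.tb R.ad (Nat.add (Nat.mul (nat_lit 16) a) b)
  al := K.idt R.al
  cs := K.tb R.cs
  SD := fun i j => K.tbit R.SD (Nat.add (Nat.mul R.ns i) j)
  pl := K.dl R.pl

/-- blocks of `n` bytes -/
noncomputable def eA (h A k : ℕ) : ℕ := K.ex (Nat.mul (nat_lit 8) (K.tb h (nat_lit 0))) A k

noncomputable def eB (h A k : ℕ) : ℕ := K.ex (Nat.mul (nat_lit 8) (K.tb h (nat_lit 9))) A k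

noncomputable def eC (h A k : ℕ) : ℕ := K.ex (Nat.mul (nat_lit 8) (K.tb h (nat_lit 10))) A k

noncomputable def eD (h A k : ℕ) : ℕ := K.ex (Nat.mul (nat_lit 8) (K.tb h (nat_lit 12))) A k

/-- blocks of `n` bits -/
noncomputable def eE (h A k : ℕ) : ℕ := K.ex (K.tb h (nat_lit 0)) A k

noncomputable def eW (h A k : ℕ) : ℕ := K.ex (Nat.mul (nat_lit 16) (K.tb h (nat_lit 11))) A k

/-- the record from few numbers: `h`: bytes; `A`: blocks of `n` bytes, `N`: blocks of `n` half bytes, `px`: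
the other half bytes of `pk'`; `B`, `C`, `D`: blocks of the numbers of bytes given in `h`, `M`: blocks of
half bytes; `E`: blocks of `n` bits; `w`: blocks of words of 16 bits -/
noncomputable def mk2 (h A N px B M C D E w nf ad SD NM NA kp kr fl es es' rs ar dj dj' xl kd lv ul gt D5
    p5 dq nq oq sw tl wd bw pl : ℕ) : PK :=
  PK.mk (K.tb h (nat_lit 0)) (K.tb h (nat_lit 1)) (K.tb h (nat_lit 2)) (K.tb h (nat_lit 3))
    (K.tb h (nat_lit 4)) (K.tb h (nat_lit 5)) (K.tb h (nat_lit 6)) (K.tb h (nat_lit 7))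
    (K.tb h (nat_lit 8)) (K.phn (K.tb h (nat_lit 0))) (eA h A (nat_lit 0)) (eA h A (nat_lit 1))
    (eA h (K.wid N) (nat_lit 0)) (eA h A (nat_lit 2)) (eA h A (nat_lit 3))
    (eA h (K.wid N) (nat_lit 1)) (eA h (K.wid N) (nat_lit 2)) (eA h A (nat_lit 4))
    (eA h (K.wid N) (nat_lit 3)) (eA h (K.wid N) (nat_lit 4)) (eA h A (nat_lit 5))
    (Nat.lor (eA h (K.wid N) (nat_lit 5)) px) (K.dlt (K.tb h (nat_lit 0)) kp) (K.dlt (K.tb h (nat_lit 0)) kr)
    (eA h (K.wid N) (nat_lit 6)) (eA h A (nat_lit 6)) (eA h A (nat_lit 7))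
    (eA h (K.wid N) (nat_lit 7)) (eB h B (nat_lit 0)) (eB h B (nat_lit 1)) (eB h B (nat_lit 2))
    (eB h (K.wid M) (nat_lit 0)) (eB h B (nat_lit 3)) (eB h (K.wid M) (nat_lit 1))
    (eB h B (nat_lit 4)) nf ad SD NM NA (eD h D (nat_lit 0)) (eD h D (nat_lit 1))
    (eD h D (nat_lit 2)) (eD h D (nat_lit 3)) (eD h D (nat_lit 4)) (eD h D (nat_lit 5))
    (eC h C (nat_lit 0)) (eC h C (nat_lit 1)) (eC h C (nat_lit 2)) (eD h D (nat_lit 6))
    (eD h D (nat_lit 7)) (eD h D (nat_lit 8)) (eD h D (nat_lit 9)) (eD h D (nat_lit 10))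
    (eD h D (nat_lit 11)) (eC h C (nat_lit 3)) (eE h E (nat_lit 0)) (eE h E (nat_lit 1))
    (eE h E (nat_lit 2)) (eE h E (nat_lit 3)) (eE h E (nat_lit 4)) (eE h E (nat_lit 5))
    (eE h E (nat_lit 6)) (eE h E (nat_lit 7)) (eE h E (nat_lit 8)) (eE h E (nat_lit 9))
    (eE h E (nat_lit 10)) (eE h E (nat_lit 11)) (eE h E (nat_lit 12)) (eE h E (nat_lit 13))
    (eW h w (nat_lit 0)) (eW h w (nat_lit 1)) (eW h w (nat_lit 2)) fl es es' rs ar dj dj' xl kd lv
    ul gt D5 p5 dq nq oq sw tl wd bw pl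

end PK

end Pool.FC7
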