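import Pool.Agent.FC7.Min

/-! # Gluing along a cut with four real edges: the tools

`cut_id`: for a test function the differences at the cut edges, weighted with a function of the
colours on one side, have the sum zero.  `glue8`: the solutions of the two sides can be glued, if all
mixed darts outside of an unvisited face `Q` belong to one class. -/

open Finset

namespace Pool.FC7

open Pool.FC6 Pool.FC6.St

variable {D V : Type} [Fintype D] [DecidableEq V] {S : St D V} {L : D → Bool} {w : D → ℕ}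

/-- the differences of a test function at the cut, weighted with the colours of one side -/
theorem cut_id (rα : ∀ d, S.real (S.M.α d) = S.real d) {s c : V → Bool} {β : Bool} {g : D → ℝ}
    (hφ : ∀ d, g (S.M.φ d) = g d) (hv : ∀ d, S.real d = false → g (S.M.α d) = g d)
    (hb : ∀ d, s (S.M.v d) = β → s (S.M.v (S.M.α d)) = β → c (S.M.v d) ≠ c (S.M.v (S.M.α d)) →
      g (S.M.α d) = g d) (F : Bool → ℝ) :
    ∑ d, (if S.real d = true ∧ s (S.M.v d) = β ∧ s (S.M.v (S.M.α d)) ≠ β then
      (g d - g (S.M.α d)) * F (c (S.M.v d)) else 0) = 0 := by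
  have ho := S.M.orth (fun x => if s x = β then F (c x) else 0) g hφ
  let K : D → ℝ := fun d => if S.real d = true ∧ s (S.M.v d) = β ∧ s (S.M.v (S.M.α d)) ≠ β then
      (g d - g (S.M.α d)) * F (c (S.M.v d)) else 0
  have hT : ∀ d, ((if s (S.M.v (S.M.α d)) = β then F (c (S.M.v (S.M.α d))) else 0) -
      (if s (S.M.v d) = β then F (c (S.M.v d)) else 0)) * (g d - g (S.M.α d)) =
      - K d - K (S.M.α d) := by
    intro d
    show _ = - (if S.real d = true ∧ s (S.M.v d) = β ∧ s (S.M.v (S.M.α d)) ≠ β then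
      (g d - g (S.M.α d)) * F (c (S.M.v d)) else 0) -
      (if S.real (S.M.α d) = true ∧ s (S.M.v (S.M.α d)) = β ∧ s (S.M.v (S.M.α (S.M.α d))) ≠ β then
      (g (S.M.α d) - g (S.M.α (S.M.α d))) * F (c (S.M.v (S.M.α d))) else 0)
    rw [S.M.αα, rα]
    cases hr : S.real d
    · rw [if_neg (c := false = true ∧ _) (by simp), if_neg (c := false = true ∧ _) (by simp),
        hv d hr]
      ring
    · by_cases h1 : s (S.M.v d) = β
      · by_cases h2 : s (S.M.v (S.M.α d)) = β
        · rw [if_neg (c := _ ∧ _ ∧ s (S.M.v (S.M.α d)) ≠ β) (fun h => h.2.2 h2),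
            if_neg (c := _ ∧ _ ∧ s (S.M.v d) ≠ β) (fun h => h.2.2 h1), if_pos h1, if_pos h2]
          by_cases h3 : c (S.M.v d) = c (S.M.v (S.M.α d))
          · rw [h3]; ring
          · rw [hb d h1 h2 h3]; ring
        · rw [if_pos (c := _ ∧ _ ∧ s (S.M.v (S.M.α d)) ≠ β) ⟨rfl, h1, h2⟩,
            if_neg (c := _ ∧ _ ∧ s (S.M.v d) ≠ β) (fun h => h.2.2 h1), if_pos h1, if_neg h2]
          ring
      · by_cases h2 : s (S.M.v (S.M.α d)) = β
        · rw [if_neg (c := _ ∧ _ ∧ s (S.M.v (S.M.α d)) ≠ β) (fun h => h.2.2 h2),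
            if_pos (c := _ ∧ _ ∧ s (S.M.v d) ≠ β) ⟨rfl, h2, h1⟩, if_neg h1, if_pos h2]
          ring
        · rw [if_neg (c := _ ∧ _ ∧ s (S.M.v (S.M.α d)) ≠ β) (fun h => h1 h.2.1),
            if_neg (c := _ ∧ _ ∧ s (S.M.v d) ≠ β) (fun h => h2 h.2.1), if_neg h1, if_neg h2]
          ring
  have h2 : ∑ d, (- K d - K (S.M.α d)) = 0 := by
    rw [← ho]
    exact Finset.sum_congr rfl fun d _ => (hT d).symm
  rw [Finset.sum_sub_distrib, Finset.sum_neg_distrib, S.M.sum_α K] at h2
  show ∑ d, K d = 0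
  linarith

/-- the real darts of the cut -/
noncomputable def kc (S : St D V) (s : V → Bool) : Finset D :=
  open Classical in Finset.univ.filter fun d => S.real d = true ∧ s (S.M.v d) = true ∧
    s (S.M.v (S.M.α d)) = false

theorem mem_kc {s : V → Bool} {d : D} : d ∈ kc S s ↔ S.real d = true ∧ s (S.M.v d) = true ∧
    s (S.M.v (S.M.α d)) = false := by
  classical
  unfold kc
  rw [Finset.mem_filter]
  simp

theorem kc_card (s : V → Bool) : (kc S s).card = S.rc s := by
  classical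
  unfold kc St.rc
  rw [Finset.card_filter]

/-- the identity with the colours of the side `true` -/
theorem cut_idT (rα : ∀ d, S.real (S.M.α d) = S.real d) {s c : V → Bool} {g : D → ℝ}
    (hφ : ∀ d, g (S.M.φ d) = g d) (hv : ∀ d, S.real d = false → g (S.M.α d) = g d)
    (hb : ∀ d, s (S.M.v d) = true → s (S.M.v (S.M.α d)) = true →
      c (S.M.v d) ≠ c (S.M.v (S.M.α d)) → g (S.M.α d) = g d) (F : Bool → ℝ) :
    ∑ d ∈ kc S s, (g d - g (S.M.α d)) * F (c (S.M.v d)) = 0 := by
  classical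
  rw [← cut_id rα hφ hv hb F, ← Finset.sum_filter]
  refine Finset.sum_congr ?_ fun _ _ => rfl
  ext d
  rw [mem_kc, Finset.mem_filter]
  simp

/-- the identity with the colours of the side `false` -/
theorem cut_idF (rα : ∀ d, S.real (S.M.α d) = S.real d) {s c : V → Bool} {g : D → ℝ}
    (hφ : ∀ d, g (S.M.φ d) = g d) (hv : ∀ d, S.real d = false → g (S.M.α d) = g d)
    (hb : ∀ d, s (S.M.v d) = false → s (S.M.v (S.M.α d)) = false →
      c (S.M.v d) ≠ c (S.M.v (S.M.α d)) → g (S.M.α d) = g d) (F : Bool → ℝ) :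
    ∑ d ∈ kc S s, (g d - g (S.M.α d)) * F (c (S.M.v (S.M.α d))) = 0 := by
  classical
  have h1 := cut_id rα hφ hv hb F
  rw [← S.M.sum_α (fun d => if S.real d = true ∧ s (S.M.v d) = false ∧
    s (S.M.v (S.M.α d)) ≠ false then (g d - g (S.M.α d)) * F (c (S.M.v d)) else 0)] at h1
  have h2 : ∑ d ∈ kc S s, (g (S.M.α d) - g d) * F (c (S.M.v (S.M.α d))) = 0 := by
    rw [← h1, Finset.sum_congr rfl fun d _ => if_congr (by rw [S.M.αα, rα]) rfl rfl,
      ← Finset.sum_filter]
    refine Finset.sum_congr ?_ fun d _ => by rw [S.M.αα]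
    ext d
    rw [mem_kc, Finset.mem_filter]
    cases s (S.M.v d) <;> cases s (S.M.v (S.M.α d)) <;> simp
  have h3 : ∑ d ∈ kc S s, (g d - g (S.M.α d)) * F (c (S.M.v (S.M.α d))) =
      - ∑ d ∈ kc S s, (g (S.M.α d) - g d) * F (c (S.M.v (S.M.α d))) := by
    rw [← Finset.sum_neg_distrib]
    exact Finset.sum_congr rfl fun d _ => by ring
  rw [h3, h2, neg_zero]

/-- a cut with at most seven edges has connected sides, if it is minimal for its alive vertices -/
theorem con_of_fix {s : V → Bool} (c4 : ∀ s : V → Bool, (∃ x ∈ S.A, s x = true) →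
      (∃ x ∈ S.A, s x = false) → 4 ≤ S.rc s) (h7 : S.rc s ≤ 7)
    (hy : ∃ x ∈ S.A, s x = false)
    (hmin : ∀ s' : V → Bool, (∀ x ∈ S.A, s' x = s x) → mc S.M s ≤ mc S.M s') :
    ConS S.M s true := by
  classical
  intro f hf d d' hd hd'
  by_contra hne
  let s1 : V → Bool := fun x => s x && decide (f x = f (S.M.v d))
  let s2 : V → Bool := fun x => s x && !decide (f x = f (S.M.v d))
  have hpt : ∀ e, (if s1 (S.M.v e) = true ∧ s1 (S.M.v (S.M.α e)) = false then 1 else 0) +
      (if s2 (S.M.v e) = true ∧ s2 (S.M.v (S.M.α e)) = false then 1 else 0) =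
      (if s (S.M.v e) = true ∧ s (S.M.v (S.M.α e)) = false then 1 else 0) := by
    intro e
    simp only [s1, s2]
    have hfe := hf e
    generalize S.M.v (S.M.α e) = y at *
    generalize S.M.v e = x at *
    by_cases h1 : s x = true
    · by_cases h2 : s y = true
      · have h5 := hfe h1 h2
        by_cases h4 : f x = f (S.M.v d) <;> simp [h1, h2, h5, h4]
      · have h2' : s y = false := by simpa using h2
        by_cases h4 : f x = f (S.M.v d) <;> simp [h1, h2', h4]
    · have h1' : s x = false := by simpa using h1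
      simp [h1']
  have hsum : mc S.M s1 + mc S.M s2 = mc S.M s := by
    unfold mc
    rw [← Finset.sum_add_distrib]
    exact Finset.sum_congr rfl fun e _ => hpt e
  have hrc : S.rc s1 + S.rc s2 = S.rc s := by
    unfold rc
    rw [← Finset.sum_add_distrib]
    refine Finset.sum_congr rfl fun e _ => ?_
    have := hpt e
    by_cases h4 : S.real e = true
    · simp only [h4, true_and]
      exact this
    · simp [h4]
  have s1d : s1 (S.M.v d) = true := by simp [s1, hd]
  have s1d' : s1 (S.M.v d') = false := by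
    simp only [s1, hd', Bool.true_and]
    exact decide_eq_false (fun h => hne h.symm)
  have s2d : s2 (S.M.v d) = false := by simp [s2]
  have s2d' : s2 (S.M.v d') = true := by
    simp only [s2, hd', Bool.true_and]
    rw [decide_eq_false (fun h => hne h.symm)]
    rfl
  have h5 := mc_pos S.M s2d' s2d
  have h5' := mc_pos S.M s1d s1d'
  obtain ⟨y, hy, hy'⟩ := hy
  by_cases a1 : ∃ x ∈ S.A, s1 x = true
  · by_cases a2 : ∃ x ∈ S.A, s2 x = true
    · have b1 := c4 s1 a1 ⟨y, hy, by simp [s1, hy']⟩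
      have b2 := c4 s2 a2 ⟨y, hy, by simp [s2, hy']⟩
      omega
    · push Not at a2
      have h6 := hmin s1 fun x hx => by
        have := a2 x hx
        cases h8 : s x
        · simp [s1, h8]
        · simp only [s2, h8, Bool.true_and] at this
          simp only [s1, h8, Bool.true_and]
          simpa using this
      omega
  · push Not at a1
    have h6 := hmin s2 fun x hx => by
      have := a1 x hx
      cases h8 : s x
      · simp [s2, h8]
      · simp only [s1, h8, Bool.true_and] at this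
        simp only [s2, h8, Bool.true_and]
        simpa using this
    omega

/-- gluing along a cut: all mixed darts outside of the unvisited face `Q` belong to one class -/
theorem glue8 (rA : ∀ d, S.real d = true → S.M.v d ∈ S.A)
    (rα : ∀ d, S.real (S.M.α d) = S.real d) (uA : ∀ d, S.u d ≠ 0 → S.M.v d ∈ S.A)
    (Lr : ∀ d, L d = true → S.real d = true) {s c : V → Bool} {Q : D → Prop}
    (Qφ : ∀ d, Q (S.M.φ d) ↔ Q d) (Qo : ∀ d, S.Op c d → ¬ Q d ∧ ¬ Q (S.M.α d))
    {d0 : D} (hd0 : s (S.M.v d0) ≠ s (S.M.v (S.M.α d0))) (hQ0 : ¬ Q d0)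
    (inv : ∀ h : D → ℝ, S.Test c h → (∀ d, Q d → h d = h d0) →
      ∀ d, s (S.M.v d) ≠ s (S.M.v (S.M.α d)) → h d = h d0)
    (hB : ∃ e, Br S c e)
    (hs : ∀ b, ∃ cb : V → Bool, (∀ x, s x = b → c x = cb x) ∧
      Sol (sd S w s b) (sdL S L s b) cb ∧ Vi (sd S w s b) cb d0)
    (Qv : ∀ d, Q d → ∃ d', S.M.v d' = S.M.v d ∧ ¬ Q d' ∧
      (s (S.M.v d') ≠ s (S.M.v (S.M.α d')) ∨
        s (S.M.v (S.M.φ (S.M.φ d'))) ≠ s (S.M.v (S.M.α (S.M.φ (S.M.φ d'))))))
    (Qu : ∀ d, Q d → S.u d = 0)
    (QL : ∀ d, Q d → s (S.M.v d) = s (S.M.v (S.M.α d)) → L d = false)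
    (Lα : ∀ d, L (S.M.α d) = L d)
    (Qm : ∀ d, s (S.M.v d) ≠ s (S.M.v (S.M.α d)) → ¬ Q d ∨ ¬ Q (S.M.α d)) : Sol S L c := by
  classical
  -- the modified test function
  let hm : (D → ℝ) → D → ℝ := fun h d => if Q d then h d0 else h d
  have hmn : ∀ (h : D → ℝ) d, ¬ Q d → hm h d = h d := fun h d hd => if_neg hd
  have hmq : ∀ (h : D → ℝ) d, Q d → hm h d = h d0 := fun h d hd => if_pos hd
  have hmt : ∀ h : D → ℝ, S.Test c h → S.Test c (hm h) := by
    intro h ht
    refine ⟨fun d => ?_, fun d ho => ?_⟩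
    · show (if Q (S.M.φ d) then h d0 else h (S.M.φ d)) = if Q d then h d0 else h d
      by_cases h1 : Q d
      · rw [if_pos h1, if_pos ((Qφ d).2 h1)]
      · rw [if_neg h1, if_neg (fun h2 => h1 ((Qφ d).1 h2)), ht.1]
    · obtain ⟨h1, h2⟩ := Qo d ho
      rw [hmn h _ h1, hmn h _ h2]
      exact ht.2 d ho
  have hmi : ∀ h : D → ℝ, S.Test c h → ∀ d, s (S.M.v d) ≠ s (S.M.v (S.M.α d)) →
      hm h d = h d0 := by
    intro h ht d hd
    rw [inv _ (hmt h ht) (fun d hd => by rw [hmq h _ hd, hmn h _ hQ0]) d hd, hmn h _ hQ0]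
  have brn : ∀ d, Br S c d → ¬ Q d := fun d hd => (Qo d hd.op).1
  have hN0 : ∀ b, NF S.M s b d0 := by
    intro b
    by_cases h2 : s (S.M.v d0) = b
    · right; left
      rw [S.M.vφ]
      exact fun h3 => hd0 (h2.trans h3.symm)
    · left; exact h2
  have one : ∀ b, ∀ d, Br S c d → s (S.M.v d) = b → s (S.M.v (S.M.α d)) = b →
      ∀ h : D → ℝ, S.Test c h → h d = h d0 := by
    intro b d hd h1 h2 h ht
    obtain ⟨cb, hc, hS, hv⟩ := hs b
    have hT1 := hh_test (b := b) (w := w) rA rα hc (hmt h ht) (hmi h ht)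
    have hd' : Br (sd S w s b) cb d := (sd_br rA rα hc).2 ⟨hd, h1, h2⟩
    obtain ⟨e, e1, e2⟩ := hv
    have k1 := hS.con _ hT1 d e hd' e1
    have k2 := e2 _ hT1
    rw [hh_eq (hmt h ht) (hmi h ht) h1, hmn h _ (brn d hd)] at k1
    rw [hh_nf (hN0 b)] at k2
    rw [k1, k2]
  have brc : ∀ d, Br S c d → ∀ h : D → ℝ, S.Test c h → h d = h d0 := by
    intro d hd h ht
    by_cases h1 : s (S.M.v d) = s (S.M.v (S.M.α d))
    · exact one _ d hd rfl h1.symm h ht
    · have := hmi h ht d h1
      rwa [hmn h _ (brn d hd)] at this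
  -- the mixed darts are visited
  have v0 : Vi S c d0 := by
    obtain ⟨e, e1⟩ := hB
    exact ⟨e, e1, brc e e1⟩
  have vm : ∀ d, s (S.M.v d) ≠ s (S.M.v (S.M.α d)) → ¬ Q d → Vi S c d := fun d hd hq =>
    v0.eq fun h ht => by
      have := hmi h ht d hd
      rw [hmn h _ hq] at this
      exact this.symm
  have tr : ∀ b cb, (∀ x, s x = b → c x = cb x) → ∀ d, s (S.M.v d) = b → ¬ Q d →
      Vi (sd S w s b) cb d → Vi S c d := by
    intro b cb hc d hd hq hvd
    obtain ⟨e, e1, e2⟩ := hvd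
    obtain ⟨f1, f2, f3⟩ := (sd_br rA rα hc).1 e1
    refine ⟨e, f1, fun h ht => ?_⟩
    have hT1 := hh_test (b := b) (w := w) rA rα hc (hmt h ht) (hmi h ht)
    have := e2 _ hT1
    rwa [hh_eq (hmt h ht) (hmi h ht) f2, hh_eq (hmt h ht) (hmi h ht) hd, hmn h _ (brn e f1),
      hmn h _ hq] at this
  refine ⟨fun h ht d d' hd hd' => ?_, fun x hx => ?_, fun d hd => ?_, fun d hd => ?_⟩
  · rw [brc d hd h ht, brc d' hd' h ht]
  · obtain ⟨cb, hc, hS, hv⟩ := hs (s x)
    obtain ⟨d, hd, hvd⟩ := hS.live x (by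
      show x ∈ S.A \ (S.A.filter fun y => s y ≠ s x)
      simp [hx])
    have hd' : S.M.v d = x := hd
    by_cases hq : Q d
    · obtain ⟨d', e1, e2, e3⟩ := Qv d hq
      refine ⟨d', e1.trans hd', ?_⟩
      rcases e3 with e3 | e3
      · exact vm d' e3 e2
      · have := (vm _ e3 (fun h4 => e2 ((Qφ _).1 ((Qφ _).1 h4)))).φ
        rwa [S.M.φ3] at this
    · exact ⟨d, hd', tr (s x) cb hc d (by rw [hd']) hq hvd⟩
  · have hA := uA d hd
    obtain ⟨cb, hc, hS, hv⟩ := hs (s (S.M.v d))
    refine tr (s (S.M.v d)) cb hc d rfl (fun hq => hd (Qu d hq)) (hS.req d ?_)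
    show (if S.M.v d ∈ (S.A.filter fun y => s y ≠ s (S.M.v d)) then 0 else S.u d +
      (if S.real d = true ∧ S.M.v (S.M.α d) ∈ (S.A.filter fun y => s y ≠ s (S.M.v d)) then
        1 + w d else 0)) ≠ 0
    rw [if_neg (by simp)]
    omega
  · have hr := Lr d hd
    by_cases h1 : s (S.M.v d) = s (S.M.v (S.M.α d))
    · have q1 : ¬ Q d := fun hq => by
        rw [QL d hq h1] at hd
        exact absurd hd (by decide)
      have q2 : ¬ Q (S.M.α d) := fun hq => by
        have := QL _ hq (by rw [S.M.αα]; exact h1.symm)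
        rw [Lα, hd] at this
        exact absurd this (by decide)
      obtain ⟨cb, hc, hS, hv⟩ := hs (s (S.M.v d))
      have hl : sdL S L s (s (S.M.v d)) d = true := by
        show (L d && (sd S w s (s (S.M.v d))).real d) = true
        rw [hd, (sd_real rA rα).2 ⟨hr, rfl, h1.symm⟩]; rfl
      rcases hS.lab d hl with h2 | h2
      · exact Or.inl (tr _ cb hc d rfl q1 h2)
      · exact Or.inr (tr _ cb hc _ h1.symm q2 h2)
    · rcases Qm d h1 with h2 | h2
      · exact Or.inl (vm d h1 h2)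
      · exact Or.inr (vm _ (by rw [S.M.αα]; exact fun h3 => h1 h3.symm) h2)

/-- the change of a test function on an unvisited face -/
theorem test_mod {c : V → Bool} {Q : D → Prop} [DecidablePred Q] (Qφ : ∀ d, Q (S.M.φ d) ↔ Q d)
    (Qo : ∀ d, S.Op c d → ¬ Q d ∧ ¬ Q (S.M.α d)) {h : D → ℝ} (ht : S.Test c h) (m : ℝ) :
    S.Test c (fun d => if Q d then m else h d) := by
  refine ⟨fun d => ?_, fun d ho => ?_⟩
  · show (if Q (S.M.φ d) then m else h (S.M.φ d)) = if Q d then m else h d
    by_cases h1 : Q d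
    · rw [if_pos h1, if_pos ((Qφ d).2 h1)]
    · rw [if_neg h1, if_neg (fun h2 => h1 ((Qφ d).1 h2)), ht.1]
  · obtain ⟨h1, h2⟩ := Qo d ho
    show (if Q (S.M.α d) then m else h (S.M.α d)) = if Q d then m else h d
    rw [if_neg h1, if_neg h2]
    exact ht.2 d ho

/-- a test function which is constant across the real cut edges is constant on the mixed darts -/
theorem inv_of (rα : ∀ d, S.real (S.M.α d) = S.real d) {s c : V → Bool} (hT : ConS S.M s true)
    (hF : ConS S.M s false) {h : D → ℝ} (ht : S.Test c h)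
    (hK : ∀ k ∈ kc S s, h (S.M.α k) = h k) {d d' : D} (hd : s (S.M.v d) ≠ s (S.M.v (S.M.α d)))
    (hd' : s (S.M.v d') ≠ s (S.M.v (S.M.α d'))) : h d = h d' := by
  refine cut_const S.M hT hF ht.1 (fun e he => ?_) hd hd'
  cases hr : S.real e
  · exact ht.2 e (Or.inl hr)
  · cases h1 : s (S.M.v e)
    · have h2 : s (S.M.v (S.M.α e)) = true := by
        cases h3 : s (S.M.v (S.M.α e))
        · exact absurd (h1.trans h3.symm) he
        · rfl
      have := hK (S.M.α e) (mem_kc.2 ⟨by rw [rα]; exact hr, h2, by rw [S.M.αα]; exact h1⟩)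
      rw [S.M.αα] at this
      exact this.symm
    · have h2 : s (S.M.v (S.M.α e)) = false := by
        cases h3 : s (S.M.v (S.M.α e))
        · rfl
        · exact absurd (h1.trans h3.symm) he
      exact hK e (mem_kc.2 ⟨hr, h1, h2⟩)

end Pool.FC7
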