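import Pool.Agent.FC7.Q4A
import Pool.Agent.FC7.Mcs

/-! # Cuts with four real edges next to two plain triangles

`MC.cut5p`: in a minimal counterexample a cut with at least two alive vertices on both sides which
contains a real edge between two solid triangles without units, whose other uncut edges are not
labelled, has at least five real edges. -/

open Finset

namespace Pool.FC7

open Pool.FC6 Pool.FC6.St

variable {D V : Type} [Fintype D] [DecidableEq V] {S : St D V} {L : D → Bool} {w : D → ℕ} {Δ : ℕ}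

/-- the darts of the triangle of `t` -/
def Fp (S : St D V) (t d : D) : Prop := d = t ∨ d = S.M.φ t ∨ d = S.M.φ (S.M.φ t)

theorem fp_φ {t d : D} : Fp S t (S.M.φ d) ↔ Fp S t d := by
  unfold Fp
  constructor
  · rintro (h | h | h)
    · right; right
      rw [← h, S.M.φ3]
    · exact Or.inl (S.M.φinj h)
    · exact Or.inr (Or.inl (S.M.φinj h))
  · rintro (h | h | h)
    · right; left; rw [h]
    · right; right; rw [h]
    · left; rw [h, S.M.φ3]

theorem fp_eq {t d : D} (h : Fp S t d) {g : D → ℝ} (hg : ∀ d, g (S.M.φ d) = g d) : g d = g t := by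
  rcases h with rfl | rfl | rfl
  · rfl
  · exact hg t
  · rw [hg, hg]

theorem fp_trans {t d e : D} (h1 : Fp S t d) (h2 : Fp S t e) : Fp S d e := by
  rcases h1 with rfl | rfl | rfl
  · exact h2
  · rcases h2 with rfl | rfl | rfl
    · right; right; rw [S.M.φ3]
    · left; rfl
    · right; left; rfl
  · rcases h2 with rfl | rfl | rfl
    · right; left; rw [S.M.φ3]
    · right; right; rw [S.M.φ3]
    · left; rfl

/-- the triangle of `t` is solid without units, its uncut edges are not labelled -/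
structure Pt (S : St D V) (L : D → Bool) (s : V → Bool) (t : D) : Prop where
  real : ∀ d, Fp S t d → S.real d = true
  u : ∀ d, Fp S t d → S.u d = 0
  lab : ∀ d, Fp S t d → s (S.M.v d) = s (S.M.v (S.M.α d)) → L d = false

/-- both darts of an edge are not in one real triangle -/
theorem fp_α (ne : ∀ d, S.real d = true → S.M.v d ≠ S.M.v (S.M.α d)) {t d : D}
    (hr : ∀ d, Fp S t d → S.real d = true) (h1 : Fp S t d) : ¬ Fp S t (S.M.α d) := by
  intro h2
  have h3 := fp_trans h1 h2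
  rcases h3 with h3 | h3 | h3
  · exact S.M.αne d h3
  · have r := hr (S.M.φ (S.M.φ d)) (fp_φ.2 (fp_φ.2 h1))
    apply ne _ r
    rw [← S.M.vφ (S.M.φ (S.M.φ d)), S.M.φ3, S.M.vφ (S.M.φ d), ← h3, S.M.αα]
  · have r := hr (S.M.φ d) (fp_φ.2 h1)
    apply ne _ r
    rw [← S.M.vφ (S.M.φ d), ← h3, S.M.vφ]

/-- solutions of both sides -/
def Sides (S : St D V) (L : D → Bool) (w : D → ℕ) (s c : V → Bool) : Prop :=
  ∀ d0, s (S.M.v d0) ≠ s (S.M.v (S.M.α d0)) → ∀ b, ∃ cb : V → Bool, (∀ x, s x = b → c x = cb x) ∧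
    Sol (sd S w s b) (sdL S L s b) cb ∧ Vi (sd S w s b) cb d0

theorem Sides.br (W : Wf Δ S L w) {s c : V → Bool} (hs : Sides S L w s c) {d0 : D}
    (hd0 : s (S.M.v d0) ≠ s (S.M.v (S.M.α d0))) : ∃ e, Br S c e := by
  obtain ⟨cb, hc, -, e, e1, -⟩ := hs d0 hd0 true
  exact ⟨e, ((sd_br W.real_A W.real_α hc).1 e1).1⟩

omit [Fintype D] in
/-- a sum over four cut edges -/
theorem sum4 {K : Finset D} {k1 k2 k3 k4 : D} [DecidableEq D] (hK : K = {k1, k2, k3, k4})
    (h12 : k1 ≠ k2) (h13 : k1 ≠ k3) (h14 : k1 ≠ k4) (h23 : k2 ≠ k3) (h24 : k2 ≠ k4)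
    (h34 : k3 ≠ k4) (f : D → ℝ) : ∑ k ∈ K, f k = f k1 + f k2 + f k3 + f k4 := by
  rw [hK, Finset.sum_insert (by simp [h12, h13, h14]), Finset.sum_insert (by simp [h23, h24]),
    Finset.sum_pair h34]
  ring

theorem mix_kc {s : V → Bool} {k : D} (hk : k ∈ kc S s) :
    s (S.M.v k) ≠ s (S.M.v (S.M.α k)) := by
  have := mem_kc.1 hk
  rw [this.2.1, this.2.2]
  decide

section

variable {s : V → Bool} (W : Wf Δ S L w) (hT : ConS S.M s true) (hF : ConS S.M s false)

include W hT hF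

/-- all differences at the cut vanish -/
theorem sol_of_inv {c : V → Bool} (hs : Sides S L w s c) {k0 : D} (hk0 : k0 ∈ kc S s)
    (hinv : ∀ h : D → ℝ, S.Test c h → ∀ k ∈ kc S s, h (S.M.α k) = h k) : Sol S L c := by
  have m0 := mix_kc hk0
  refine glue8 (Q := fun _ => False) W.real_A W.real_α W.u_A W.L_real (fun _ => Iff.rfl)
    (fun _ _ => ⟨id, id⟩) m0 id (fun h ht _ d hd => inv_of W.real_α hT hF ht (hinv h ht) hd m0)
    (hs.br W m0) (hs k0 m0) (fun _ h => h.elim) (fun _ h => h.elim) (fun _ h => h.elim) W.L_α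
    (fun _ _ => Or.inl id)

/-- monochromatic cut edges of different colours -/
theorem sol_of_diff {c : V → Bool} (hs : Sides S L w s c) {k0 : D} (hk0 : k0 ∈ kc S s)
    (hd : ∀ k ∈ kc S s, ∀ k' ∈ kc S s, c (S.M.v k) = c (S.M.v (S.M.α k)) →
      c (S.M.v k') = c (S.M.v (S.M.α k')) → c (S.M.v k) = c (S.M.v k') → k = k') :
    Sol S L c := by
  classical
  refine sol_of_inv W hT hF hs hk0 fun h ht k hk => ?_
  by_cases m : c (S.M.v k) = c (S.M.v (S.M.α k))
  · have h1 := cut_idT (s := s) W.real_α ht.1 (fun d hd => ht.2 d (Or.inl hd))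
      (fun d _ _ hd => ht.2 d (Or.inr hd)) (fun x => if x = c (S.M.v k) then (1 : ℝ) else 0)
    rw [Finset.sum_eq_single_of_mem k hk] at h1
    · rw [if_pos rfl, mul_one] at h1
      linarith
    · intro k' hk' hne
      by_cases m' : c (S.M.v k') = c (S.M.v (S.M.α k'))
      · rw [if_neg fun h2 => hne (hd k' hk' k hk m' m h2), mul_zero]
      · rw [ht.2 k' (Or.inr m'), sub_self, zero_mul]
  · exact ht.2 k (Or.inr m)

/-- two monochromatic cut edges of one plain triangle -/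
theorem sol_of_face {c : V → Bool} (hs : Sides S L w s c) {i j k0 : D} (hi : i ∈ kc S s)
    (hj : j ∈ kc S s) (hk0 : k0 ∈ kc S s) (hij : i ≠ j) (h0i : k0 ≠ i) (h0j : k0 ≠ j)
    (hP : Pt S L s i) (hf : Fp S i (S.M.α j)) (mi : c (S.M.v i) = c (S.M.v (S.M.α i)))
    (mj : c (S.M.v j) = c (S.M.v (S.M.α j))) (me : c (S.M.v i) = c (S.M.v j))
    (hb : ∀ k ∈ kc S s, k ≠ i → k ≠ j → c (S.M.v k) ≠ c (S.M.v (S.M.α k))) : Sol S L c := by
  classical
  have m0 := mix_kc hk0
  have mki := mix_kc hi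
  have mkj := mix_kc hj
  have Qi : Fp S i i := Or.inl rfl
  have nQi : ¬ Fp S i (S.M.α i) := fp_α W.real_ne hP.real Qi
  have nQj : ¬ Fp S i j := by
    have := fp_α W.real_ne hP.real hf
    rwa [S.M.αα] at this
  -- the third vertex
  have h3 : (S.M.α j = S.M.φ i ∧ S.M.v (S.M.φ (S.M.φ i)) = S.M.v j) ∨
      (S.M.α j = S.M.φ (S.M.φ i) ∧ S.M.v (S.M.φ (S.M.φ i)) = S.M.v (S.M.α j)) := by
    rcases hf with h | h | h
    · exfalso
      have a1 := (mem_kc.1 hi).2.1
      have a2 := (mem_kc.1 hj).2.2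
      rw [h, a1] at a2
      exact absurd a2 (by decide)
    · left
      refine ⟨h, ?_⟩
      rw [S.M.vφ, ← h, S.M.αα]
    · right
      exact ⟨h, by rw [h]⟩
  have hcol : ∀ d, Fp S i d → c (S.M.v d) = c (S.M.v i) := by
    rintro d (rfl | rfl | rfl)
    · rfl
    · rw [S.M.vφ]; exact mi.symm
    · rcases h3 with ⟨-, h⟩ | ⟨-, h⟩
      · rw [h]; exact me.symm
      · rw [h, ← mj]; exact me.symm
  have hmono : ∀ d, Fp S i d → ¬ S.Op c d := by
    rintro d hd (h | h)
    · rw [hP.real d hd] at h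
      exact absurd h (by decide)
    · apply h
      rw [← S.M.vφ, hcol d hd, hcol _ (fp_φ.2 hd)]
  have opα : ∀ d, S.Op c d → S.Op c (S.M.α d) := by
    rintro d (h | h)
    · left; rw [W.real_α]; exact h
    · right; rw [S.M.αα]; exact h.symm
  have Qo : ∀ d, S.Op c d → ¬ Fp S i d ∧ ¬ Fp S i (S.M.α d) := fun d ho =>
    ⟨fun h => hmono d h ho, fun h => hmono _ h (opα d ho)⟩
  have hcross : ∀ h : D → ℝ, S.Test c h → h (S.M.α i) = h i → h (S.M.α j) = h j →
      ∀ k ∈ kc S s, h (S.M.α k) = h k := by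
    intro h ht h1 h2 k hk
    by_cases e1 : k = i
    · rw [e1]; exact h1
    · by_cases e2 : k = j
      · rw [e2]; exact h2
      · exact ht.2 k (Or.inr (hb k hk e1 e2))
  refine glue8 (Q := Fp S i) W.real_A W.real_α W.u_A W.L_real (fun _ => fp_φ) Qo m0
    (Qo k0 (Or.inr (hb k0 hk0 h0i h0j))).1 (fun h ht hq d hd => ?_) (hs.br W m0) (hs k0 m0)
    (fun d hd => ?_) hP.u hP.lab W.L_α (fun d _ => ?_)
  · have h1 := cut_idT (s := s) (c := c) W.real_α ht.1 (fun d hd => ht.2 d (Or.inl hd))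
      (fun d _ _ hd => ht.2 d (Or.inr hd)) (fun _ => (1 : ℝ))
    rw [← Finset.sum_subset (s₁ := {i, j}) (by
        intro k hk
        rcases Finset.mem_insert.1 hk with rfl | hk
        · exact hi
        · rw [Finset.mem_singleton.1 hk]; exact hj) (fun k hk hk' => by
        simp only [Finset.mem_insert, Finset.mem_singleton, not_or] at hk'
        rw [ht.2 k (Or.inr (hb k hk hk'.1 hk'.2)), sub_self, zero_mul]),
      Finset.sum_pair hij] at h1
    have e1 := hq i Qi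
    have e2 := hq _ hf
    have e3 : h (S.M.α i) = h j := by linarith
    -- change the value on the triangle
    have ht' := test_mod (fun _ => fp_φ) Qo ht (h j)
    have e4 := inv_of W.real_α hT hF ht' (hcross _ ht' (by
      show (if Fp S i (S.M.α i) then h j else h (S.M.α i)) = if Fp S i i then h j else h i
      rw [if_neg nQi, if_pos Qi, e3]) (by
      show (if Fp S i (S.M.α j) then h j else h (S.M.α j)) = if Fp S i j then h j else h j
      rw [if_pos hf, if_neg nQj])) mkj m0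
    have e5 : h j = h k0 := by
      have e6 : (if Fp S i j then h j else h j) = if Fp S i k0 then h j else h k0 := e4
      rwa [if_neg nQj, if_neg (Qo k0 (Or.inr (hb k0 hk0 h0i h0j))).1] at e6
    exact inv_of W.real_α hT hF ht (hcross h ht (by rw [e3, e1, e5]) (by rw [e2, e5])) hd m0
  · rcases hd with rfl | rfl | rfl
    · refine ⟨S.M.φ (S.M.α d), by rw [S.M.vφ, S.M.αα], fun h => nQi (fp_φ.1 h), Or.inr ?_⟩
      rw [S.M.φ3, S.M.αα]
      exact mki.symm
    · refine ⟨S.M.α i, (S.M.vφ i).symm, nQi, Or.inl ?_⟩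
      rw [S.M.αα]
      exact mki.symm
    · rcases h3 with ⟨-, h⟩ | ⟨-, h⟩
      · exact ⟨j, h.symm, nQj, Or.inl mkj⟩
      · refine ⟨S.M.φ j, by rw [S.M.vφ]; exact h.symm, fun h => nQj (fp_φ.1 h), Or.inr ?_⟩
        rw [S.M.φ3]
        exact mkj
  · by_cases h : Fp S i d
    · exact Or.inr (fp_α W.real_ne hP.real h)
    · exact Or.inl h

omit hT hF in
/-- opposite cut edges: one of the two colourings connects everything -/
theorem no_two [DecidableEq D] {c1 c2 : V → Bool} (hx : ∀ x, s x = true → c1 x = c2 x)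
    (hy : ∀ x, s x = false → c1 x = !c2 x) {k1 k2 k3 k4 : D}
    (hK : kc S s = {k1, k2, k3, k4})
    (h12 : k1 ≠ k2) (h13 : k1 ≠ k3) (h14 : k1 ≠ k4) (h23 : k2 ≠ k3) (h24 : k2 ≠ k4)
    (h34 : k3 ≠ k4)
    (m1 : c1 (S.M.v k1) = c1 (S.M.v (S.M.α k1))) (m3 : c1 (S.M.v k3) = c1 (S.M.v (S.M.α k3)))
    (m13 : c1 (S.M.v k1) = c1 (S.M.v k3)) (m2 : c2 (S.M.v k2) = c2 (S.M.v (S.M.α k2)))
    (m4 : c2 (S.M.v k4) = c2 (S.M.v (S.M.α k4))) (m24 : c2 (S.M.v k2) = c2 (S.M.v k4))
    (f1 : Fp S k2 (S.M.α k1)) (f2 : Fp S k3 (S.M.α k2)) {h1 h2 : D → ℝ} (t1 : S.Test c1 h1)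
    (t2 : S.Test c2 h2) :
    (∀ k ∈ kc S s, h1 (S.M.α k) = h1 k) ∨ ∀ k ∈ kc S s, h2 (S.M.α k) = h2 k := by
  have hin : ∀ k ∈ kc S s, s (S.M.v k) = true ∧ s (S.M.v (S.M.α k)) = false := fun k hk =>
    (mem_kc.1 hk).2
  have i1 := hin k1 (by rw [hK]; simp)
  have i2 := hin k2 (by rw [hK]; simp)
  have i3 := hin k3 (by rw [hK]; simp)
  have i4 := hin k4 (by rw [hK]; simp)
  -- bichromatic edges
  have b2 : h1 (S.M.α k2) = h1 k2 := t1.2 k2 (Or.inr (by
    rw [hx _ i2.1, hy _ i2.2, m2]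
    cases c2 (S.M.v (S.M.α k2)) <;> decide))
  have b4 : h1 (S.M.α k4) = h1 k4 := t1.2 k4 (Or.inr (by
    rw [hx _ i4.1, hy _ i4.2, m4]
    cases c2 (S.M.v (S.M.α k4)) <;> decide))
  have b1 : h2 (S.M.α k1) = h2 k1 := t2.2 k1 (Or.inr (by
    rw [← hx _ i1.1, m1, hy _ i1.2]
    cases c2 (S.M.v (S.M.α k1)) <;> decide))
  have b3 : h2 (S.M.α k3) = h2 k3 := t2.2 k3 (Or.inr (by
    rw [← hx _ i3.1, m3, hy _ i3.2]
    cases c2 (S.M.v (S.M.α k3)) <;> decide))
  have s1 := cut_idT (s := s) (c := c1) W.real_α t1.1 (fun d hd => t1.2 d (Or.inl hd))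
      (fun d _ _ hd => t1.2 d (Or.inr hd)) (fun _ => (1 : ℝ))
  have s2 := cut_idT (s := s) (c := c2) W.real_α t2.1 (fun d hd => t2.2 d (Or.inl hd))
      (fun d _ _ hd => t2.2 d (Or.inr hd)) (fun _ => (1 : ℝ))
  rw [sum4 hK h12 h13 h14 h23 h24 h34] at s1 s2
  -- the product
  have pφ : ∀ d, h1 (S.M.φ d) * h2 (S.M.φ d) = h1 d * h2 d := fun d => by rw [t1.1, t2.1]
  have pv : ∀ d, S.real d = false → h1 (S.M.α d) * h2 (S.M.α d) = h1 d * h2 d := fun d hd => by
    rw [t1.2 d (Or.inl hd), t2.2 d (Or.inl hd)]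
  have sG : (h1 k1 * h2 k1 - h1 (S.M.α k1) * h2 (S.M.α k1)) +
      (h1 k3 * h2 k3 - h1 (S.M.α k3) * h2 (S.M.α k3)) = 0 := by
    by_cases hg : c1 (S.M.v k2) = c1 (S.M.v k1)
    · have g := cut_idF (s := s) (c := c1) (g := fun d => h1 d * h2 d) W.real_α pφ pv
        (fun d d1 d2 hd => by
          show h1 (S.M.α d) * h2 (S.M.α d) = h1 d * h2 d
          rw [t1.2 d (Or.inr hd), t2.2 d (Or.inr (by
            rw [hy _ d1, hy _ d2] at hd
            exact fun h0 => hd (by rw [h0])))])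
        (fun x => if x = c1 (S.M.v k1) then (1 : ℝ) else 0)
      rw [sum4 hK h12 h13 h14 h23 h24 h34, if_pos m1.symm, if_pos (m3.symm.trans m13.symm),
        if_neg (c := c1 (S.M.v (S.M.α k2)) = c1 (S.M.v k1)) (by
          rw [← hg, hx _ i2.1, hy _ i2.2, m2]
          cases c2 (S.M.v (S.M.α k2)) <;> decide),
        if_neg (c := c1 (S.M.v (S.M.α k4)) = c1 (S.M.v k1)) (by
          rw [← hg, hx _ i2.1, m24, hy _ i4.2, m4]
          cases c2 (S.M.v (S.M.α k4)) <;> decide)] at g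
      linarith
    · have g := cut_idT (s := s) (c := c1) (g := fun d => h1 d * h2 d) W.real_α pφ pv
        (fun d d1 d2 hd => by
          show h1 (S.M.α d) * h2 (S.M.α d) = h1 d * h2 d
          rw [t1.2 d (Or.inr hd), t2.2 d (Or.inr (by
            rw [hx _ d1, hx _ d2] at hd
            exact hd))])
        (fun x => if x = c1 (S.M.v k1) then (1 : ℝ) else 0)
      rw [sum4 hK h12 h13 h14 h23 h24 h34, if_pos rfl, if_pos m13.symm,
        if_neg (c := c1 (S.M.v k2) = c1 (S.M.v k1)) hg,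
        if_neg (c := c1 (S.M.v k4) = c1 (S.M.v k1)) (by
          rw [hx _ i4.1, ← m24, ← hx _ i2.1]
          exact hg)] at g
      linarith
  rw [b1, b3] at sG
  have e13 : h1 k3 - h1 (S.M.α k3) = - (h1 k1 - h1 (S.M.α k1)) := by
    rw [b2, b4] at s1
    linarith
  have key : (h1 k1 - h1 (S.M.α k1)) * (h2 k1 - h2 k3) = 0 := by
    have e4 : h1 k1 * h2 k1 - h1 (S.M.α k1) * h2 k1 = (h1 k1 - h1 (S.M.α k1)) * h2 k1 := by ring
    have e5 : h1 k3 * h2 k3 - h1 (S.M.α k3) * h2 k3 = (h1 k3 - h1 (S.M.α k3)) * h2 k3 := by ring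
    rw [e4, e5, e13] at sG
    linarith
  rcases mul_eq_zero.1 key with h0 | h0
  · left
    intro k hk
    rw [hK] at hk
    simp only [Finset.mem_insert, Finset.mem_singleton] at hk
    rcases hk with rfl | rfl | rfl | rfl
    · linarith
    · exact b2
    · linarith
    · exact b4
  · right
    have e6 : h2 (S.M.α k1) = h2 k2 := fp_eq f1 t2.1
    have e7 : h2 (S.M.α k2) = h2 k3 := fp_eq f2 t2.1
    intro k hk
    rw [hK] at hk
    simp only [Finset.mem_insert, Finset.mem_singleton] at hk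
    rcases hk with rfl | rfl | rfl | rfl
    · exact b1
    · linarith
    · exact b3
    · rw [b1, b3] at s2
      linarith

end

end Pool.FC7
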