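import Pool.Agent.FC7.Q4C

/-! # Parts of a solution

`side_main`: a solution of a state on one side of a cut is a part of a solution, if all mixed darts
outside of the face `Q` have the same value for every test function.  `sol_join`: the union of the
parts. -/

open Finset

namespace Pool.FC7

open Pool.FC6 Pool.FC6.St

variable {D V : Type} [Fintype D] [DecidableEq V] {S : St D V} {L : D → Bool} {w : D → ℕ} {Δ : ℕ}

theorem hh_eq' {s : V → Bool} {b : Bool} {h : D → ℝ} {lam : ℝ} (hφ : ∀ d, h (S.M.φ d) = h d)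
    (hlam : ∀ d, s (S.M.v d) ≠ s (S.M.v (S.M.α d)) → h d = lam) {d : D} (hd : s (S.M.v d) = b) :
    hh S s b h lam d = h d := by
  unfold hh
  by_cases hN : NF S.M s b d
  · rw [if_pos hN]
    obtain ⟨e, e1, e2⟩ := cut_face S.M s b hN hd
    rw [← inv3 hφ e1]
    exact (hlam e e2).symm
  · rw [if_neg hN]

/-- the test function of a state on the side `b` -/
theorem hhT {s : V → Bool} {b : Bool} {h : D → ℝ} {lam : ℝ} {A' : Finset V} {r : D → Bool}
    {u' : D → ℕ} {c1 : V → Bool} (hφ : ∀ d, h (S.M.φ d) = h d)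
    (hlam : ∀ d, s (S.M.v d) ≠ s (S.M.v (S.M.α d)) → h d = lam)
    (hin : ∀ d, (r d = false ∨ c1 (S.M.v d) ≠ c1 (S.M.v (S.M.α d))) → s (S.M.v d) = b →
      s (S.M.v (S.M.α d)) = b → h (S.M.α d) = h d) :
    (⟨S.M, A', r, u'⟩ : St D V).Test c1 (hh S s b h lam) := by
  classical
  refine ⟨fun d => ?_, fun d hd => ?_⟩
  · show (if NF S.M s b (S.M.φ d) then lam else h (S.M.φ d)) = if NF S.M s b d then lam else h d
    by_cases h2 : NF S.M s b d
    · rw [if_pos h2, if_pos ((NF_φ _ _ _ _).2 h2)]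
    · rw [if_neg h2, if_neg (fun h3 => h2 ((NF_φ _ _ _ _).1 h3)), hφ]
  · show hh S s b h lam (S.M.α d) = hh S s b h lam d
    by_cases h1 : s (S.M.v d) = b
    · by_cases h2 : s (S.M.v (S.M.α d)) = b
      · rw [hh_eq' hφ hlam h1, hh_eq' hφ hlam h2]
        exact hin d hd h1 h2
      · rw [hh_nf (Or.inl h2), hh_nf (Or.inr (Or.inl (by rw [S.M.vφ]; exact h2)))]
    · rw [hh_nf (d := d) (Or.inl h1), hh_nf (Or.inr (Or.inl (by rw [S.M.vφ, S.M.αα]; exact h1)))]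

/-- all test functions have the same value at `d` and `d0` -/
def Sv (S : St D V) (c : V → Bool) (d0 d : D) : Prop := ∀ h : D → ℝ, S.Test c h → h d = h d0

theorem Sv.vi {c : V → Bool} {d0 d : D} (h : Sv S c d0 d) (hv : Vi S c d0) : Vi S c d :=
  hv.eq fun t ht => (h t ht).symm

theorem Sv.φ {c : V → Bool} {d0 d : D} (h : Sv S c d0 d) : Sv S c d0 (S.M.φ d) := fun t ht =>
  (ht.1 d).trans (h t ht)

/-- a solution of one side -/
theorem side_main {s c cb : V → Bool} {b : Bool} {A' : Finset V} {r : D → Bool} {u' : D → ℕ}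
    {Q : D → Prop} (Qφ : ∀ d, Q (S.M.φ d) ↔ Q d) {d0 : D}
    (m0 : s (S.M.v d0) ≠ s (S.M.v (S.M.α d0)))
    (inv : ∀ d, s (S.M.v d) ≠ s (S.M.v (S.M.α d)) → ¬ Q d → Sv S c d0 d)
    (hin : ∀ d, (r d = false ∨ cb (S.M.v d) ≠ cb (S.M.v (S.M.α d))) → s (S.M.v d) = b →
      s (S.M.v (S.M.α d)) = b → S.Op c d ∧ ¬ Q d ∧ ¬ Q (S.M.α d))
    (hbr : ∀ d, Br (⟨S.M, A', r, u'⟩ : St D V) cb d → Br S c d ∧ s (S.M.v d) = b ∧ ¬ Q d)
    (hbr' : ∀ d, Br S c d → s (S.M.v d) = b → s (S.M.v (S.M.α d)) = b →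
      Br (⟨S.M, A', r, u'⟩ : St D V) cb d) {L' : D → Bool}
    (hS : Sol (⟨S.M, A', r, u'⟩ : St D V) L' cb) (hv : Vi (⟨S.M, A', r, u'⟩ : St D V) cb d0) :
    (∀ d, Br S c d → s (S.M.v d) = b → s (S.M.v (S.M.α d)) = b → Sv S c d0 d) ∧
    (∀ d, s (S.M.v d) = b → ¬ Q d → Vi (⟨S.M, A', r, u'⟩ : St D V) cb d → Vi S c d) ∧
    Vi S c d0 := by
  classical
  -- the modified test function
  let hm : (D → ℝ) → D → ℝ := fun h d => if Q d then h d0 else h d
  have hmn : ∀ (h : D → ℝ) d, ¬ Q d → hm h d = h d := fun h d hd => if_neg hd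
  have hmφ : ∀ h : D → ℝ, S.Test c h → ∀ d, hm h (S.M.φ d) = hm h d := by
    intro h ht d
    show (if Q (S.M.φ d) then h d0 else h (S.M.φ d)) = if Q d then h d0 else h d
    by_cases h1 : Q d
    · rw [if_pos h1, if_pos ((Qφ d).2 h1)]
    · rw [if_neg h1, if_neg (fun h2 => h1 ((Qφ d).1 h2)), ht.1]
  have hmi : ∀ h : D → ℝ, S.Test c h → ∀ d, s (S.M.v d) ≠ s (S.M.v (S.M.α d)) →
      hm h d = h d0 := by
    intro h ht d hd
    by_cases h1 : Q d
    · exact if_pos h1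
    · rw [hmn h _ h1]
      exact inv d hd h1 h ht
  have hN0 : NF S.M s b d0 := by
    by_cases h2 : s (S.M.v d0) = b
    · right; left
      rw [S.M.vφ]
      exact fun h3 => m0 (h2.trans h3.symm)
    · left; exact h2
  have hT : ∀ h : D → ℝ, S.Test c h →
      (⟨S.M, A', r, u'⟩ : St D V).Test cb (hh S s b (hm h) (h d0)) := by
    intro h ht
    refine hhT (hmφ h ht) (hmi h ht) fun d hd h1 h2 => ?_
    obtain ⟨k1, k2, k3⟩ := hin d hd h1 h2
    rw [hmn h _ k2, hmn h _ k3]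
    exact ht.2 d k1
  refine ⟨fun d hd h1 h2 h ht => ?_, fun d hd hq hvd => ?_, ?_⟩
  · have hd' := hbr' d hd h1 h2
    have hq := (hbr d hd').2.2
    obtain ⟨e, e1, e2⟩ := hv
    have k1 := hS.con _ (hT h ht) d e hd' e1
    have k2 := e2 _ (hT h ht)
    rw [hh_eq' (hmφ h ht) (hmi h ht) h1, hmn h _ hq] at k1
    rw [hh_nf hN0] at k2
    rw [k1, k2]
  · obtain ⟨e, e1, e2⟩ := hvd
    obtain ⟨f1, f2, f3⟩ := hbr e e1
    refine ⟨e, f1, fun h ht => ?_⟩
    have := e2 _ (hT h ht)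
    rwa [hh_eq' (hmφ h ht) (hmi h ht) f2, hh_eq' (hmφ h ht) (hmi h ht) hd, hmn h _ f3,
      hmn h _ hq] at this
  · obtain ⟨e, e1, e2⟩ := hv
    obtain ⟨f1, f2, f3⟩ := hbr e e1
    refine ⟨e, f1, fun h ht => ?_⟩
    have := e2 _ (hT h ht)
    rwa [hh_eq' (hmφ h ht) (hmi h ht) f2, hh_nf hN0, hmn h _ f3] at this

/-- a part of a solution -/
structure Prt (S : St D V) (L : D → Bool) (c : V → Bool) (d0 : D) (P : V → Prop) : Prop where
  con : ∀ d, Br S c d → P (S.M.v d) → P (S.M.v (S.M.α d)) → Sv S c d0 d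
  live : ∀ x ∈ S.A, P x → ∃ d, S.M.v d = x ∧ Vi S c d
  req : ∀ d, P (S.M.v d) → S.u d ≠ 0 → Vi S c d
  lab : ∀ d, P (S.M.v d) → P (S.M.v (S.M.α d)) → L d = true → Vi S c d ∨ Vi S c (S.M.α d)

/-- the union of the parts -/
theorem sol_join {c : V → Bool} {d0 : D} {ι : Type} (P : ι → V → Prop)
    (W : Wf Δ S L w) (hcov : ∀ x ∈ S.A, ∃ i, P i x) (hP : ∀ i, Prt S L c d0 (P i))
    (hx : ∀ d, S.real d = true → (∃ i, P i (S.M.v d) ∧ P i (S.M.v (S.M.α d))) ∨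
      ((Br S c d → Sv S c d0 d) ∧ (L d = true → Vi S c d ∨ Vi S c (S.M.α d)))) : Sol S L c := by
  have key : ∀ d, Br S c d → Sv S c d0 d := by
    intro d hd
    rcases hx d hd.1 with ⟨i, h1, h2⟩ | h1
    · exact (hP i).con d hd h1 h2
    · exact h1.1 hd
  refine ⟨fun h ht d d' hd hd' => ?_, fun x hx => ?_, fun d hd => ?_, fun d hd => ?_⟩
  · rw [key d hd h ht, key d' hd' h ht]
  · obtain ⟨i, hi⟩ := hcov x hx
    exact (hP i).live x hx hi
  · obtain ⟨i, hi⟩ := hcov _ (W.u_A d hd)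
    exact (hP i).req d hi hd
  · rcases hx d (W.L_real d hd) with ⟨i, h1, h2⟩ | h1
    · exact (hP i).lab d h1 h2 hd
    · exact h1.2 hd

/-- the side `b` of a cut is a part of a solution -/
theorem prt_sd {s c cb : V → Bool} {b : Bool} (W : Wf Δ S L w)
    {Q : D → Prop} (Qφ : ∀ d, Q (S.M.φ d) ↔ Q d) {d0 : D}
    (m0 : s (S.M.v d0) ≠ s (S.M.v (S.M.α d0)))
    (inv : ∀ d, s (S.M.v d) ≠ s (S.M.v (S.M.α d)) → ¬ Q d → Sv S c d0 d)
    (hc : ∀ x ∈ S.A, s x = b → c x = cb x)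
    (hQ : ∀ d, s (S.M.v d) = b → s (S.M.v (S.M.α d)) = b → ¬ Q d)
    (hS : Sol (sd S w s b) (sdL S L s b) cb) (hv : Vi (sd S w s b) cb d0)
    (Ql : ∀ d, Q d → s (S.M.v d) = b → S.M.v d ∈ S.A → ∃ d', S.M.v d' = S.M.v d ∧ Vi S c d')
    (Qu : ∀ d, Q d → s (S.M.v d) = b → S.u d ≠ 0 → Vi S c d) :
    Prt S L c d0 (fun x => s x = b) := by
  have rA := W.real_A
  have rα := W.real_α
  have hrd : ∀ d, (sd S w s b).real d = true ↔ S.real d = true ∧ s (S.M.v d) = b ∧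
      s (S.M.v (S.M.α d)) = b := fun d => sd_real rA rα
  obtain ⟨g1, g2, -⟩ := side_main (S := S) (A' := (sd S w s b).A) (r := (sd S w s b).real)
    (u' := (sd S w s b).u) (s := s) (c := c) (cb := cb) (b := b) Qφ m0 inv
    (fun d hd h1 h2 => by
      refine ⟨?_, hQ d h1 h2, hQ _ h2 (by rw [S.M.αα]; exact h1)⟩
      cases hr : S.real d
      · exact Or.inl hr
      · right
        rw [hc _ (rA d hr) h1, hc _ (rA _ (by rw [rα]; exact hr)) h2]
        rcases hd with hd | hd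
        · rw [(hrd d).2 ⟨hr, h1, h2⟩] at hd
          exact absurd hd (by decide)
        · exact hd)
    (fun d hd => by
      obtain ⟨h1, h2, h3⟩ := (hrd d).1 hd.1
      refine ⟨⟨h1, ?_⟩, h2, hQ d h2 h3⟩
      rw [hc _ (rA d h1) h2, hc _ (rA _ (by rw [rα]; exact h1)) h3]
      exact hd.2)
    (fun d hd h1 h2 => ⟨(hrd d).2 ⟨hd.1, h1, h2⟩, by
      show cb (S.M.v d) ≠ cb (S.M.v (S.M.α d))
      rw [← hc _ (rA d hd.1) h1, ← hc _ (rA _ (by rw [rα]; exact hd.1)) h2]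
      exact hd.2⟩) (L' := sdL S L s b) hS hv
  refine ⟨g1, fun x hx hb => ?_, fun d hb hd => ?_, fun d h1 h2 hd => ?_⟩
  · obtain ⟨d, hd, hvd⟩ := hS.live x (by
      show x ∈ S.A \ (S.A.filter fun y => s y ≠ b)
      simp [hx, hb])
    have hd' : S.M.v d = x := hd
    by_cases hq : Q d
    · obtain ⟨d', e1, e2⟩ := Ql d hq (by rw [hd']; exact hb) (by rw [hd']; exact hx)
      exact ⟨d', e1.trans hd', e2⟩
    · exact ⟨d, hd', g2 d (by rw [hd']; exact hb) hq hvd⟩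
  · by_cases hq : Q d
    · exact Qu d hq hb hd
    · refine g2 d hb hq (hS.req d ?_)
      show (if S.M.v d ∈ (S.A.filter fun y => s y ≠ b) then 0 else S.u d +
        (if S.real d = true ∧ S.M.v (S.M.α d) ∈ (S.A.filter fun y => s y ≠ b) then
          1 + w d else 0)) ≠ 0
      rw [if_neg (by simp [hb])]
      omega
  · have hr := W.L_real d hd
    have hl : sdL S L s b d = true := by
      show (L d && (sd S w s b).real d) = true
      rw [hd, (hrd d).2 ⟨hr, h1, h2⟩]; rfl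
    rcases hS.lab d hl with h3 | h3
    · exact Or.inl (g2 d h1 (hQ d h1 h2) h3)
    · exact Or.inr (g2 _ h2 (hQ _ h2 (by rw [S.M.αα]; exact h1)) h3)

end Pool.FC7
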