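import Pool.Agent.FC7.Q5A

/-! # Gluing along a cut with four edges, abstract form -/

open Finset

namespace Pool.FC7

open Pool.FC6 Pool.FC6.St

variable {D V : Type} [Fintype D] [DecidableEq V] {S : St D V} {L : D → Bool} {w : D → ℕ} {Δ : ℕ}

section

variable {s : V → Bool} (W : Wf Δ S L w) (hT : ConS S.M s true) (hF : ConS S.M s false)

include W hT hF

omit hT hF in
/-- opposite cut edges: one of the two colourings connects everything -/
theorem no_two' [DecidableEq D] {c1 c2 : V → Bool} (hx : ∀ x, s x = true → c1 x = c2 x)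
    (hy : ∀ x, s x = false → c1 x = !c2 x) {k1 k2 k3 k4 : D}
    (hK : kc S s = {k1, k2, k3, k4})
    (h12 : k1 ≠ k2) (h13 : k1 ≠ k3) (h14 : k1 ≠ k4) (h23 : k2 ≠ k3) (h24 : k2 ≠ k4)
    (h34 : k3 ≠ k4)
    (m1 : c1 (S.M.v k1) = c1 (S.M.v (S.M.α k1))) (m3 : c1 (S.M.v k3) = c1 (S.M.v (S.M.α k3)))
    (m13 : c1 (S.M.v k1) = c1 (S.M.v k3)) (m2 : c2 (S.M.v k2) = c2 (S.M.v (S.M.α k2)))
    (m4 : c2 (S.M.v k4) = c2 (S.M.v (S.M.α k4))) (m24 : c2 (S.M.v k2) = c2 (S.M.v k4))
    (f1 : S.sc.r (S.M.α k1) k2) (f2 : S.sc.r (S.M.α k2) k3) {h1 h2 : D → ℝ} (t1 : S.Test c1 h1)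
    (t2 : S.Test c2 h2) :
    (∀ k ∈ kc S s, h1 (S.M.α k) = h1 k) ∨ ∀ k ∈ kc S s, h2 (S.M.α k) = h2 k := by
  have hin : ∀ k ∈ kc S s, s (S.M.v k) = true ∧ s (S.M.v (S.M.α k)) = false := fun k hk =>
    (mem_kc.1 hk).2
  have i1 := hin k1 (by rw [hK]; simp)
  have i2 := hin k2 (by rw [hK]; simp)
  have i3 := hin k3 (by rw [hK]; simp)
  have i4 := hin k4 (by rw [hK]; simp)
  -- bichromatic edges
  have b2 : h1 (S.M.α k2) = h1 k2 := t1.2 k2 (Or.inr (by
    rw [hx _ i2.1, hy _ i2.2, m2]
    cases c2 (S.M.v (S.M.α k2)) <;> decide))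
  have b4 : h1 (S.M.α k4) = h1 k4 := t1.2 k4 (Or.inr (by
    rw [hx _ i4.1, hy _ i4.2, m4]
    cases c2 (S.M.v (S.M.α k4)) <;> decide))
  have b1 : h2 (S.M.α k1) = h2 k1 := t2.2 k1 (Or.inr (by
    rw [← hx _ i1.1, m1, hy _ i1.2]
    cases c2 (S.M.v (S.M.α k1)) <;> decide))
  have b3 : h2 (S.M.α k3) = h2 k3 := t2.2 k3 (Or.inr (by
    rw [← hx _ i3.1, m3, hy _ i3.2]
    cases c2 (S.M.v (S.M.α k3)) <;> decide))
  have s1 := cut_idT (s := s) (c := c1) W.real_α t1.1 (fun d hd => t1.2 d (Or.inl hd))
      (fun d _ _ hd => t1.2 d (Or.inr hd)) (fun _ => (1 : ℝ))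
  have s2 := cut_idT (s := s) (c := c2) W.real_α t2.1 (fun d hd => t2.2 d (Or.inl hd))
      (fun d _ _ hd => t2.2 d (Or.inr hd)) (fun _ => (1 : ℝ))
  rw [sum4 hK h12 h13 h14 h23 h24 h34] at s1 s2
  -- the product
  have pφ : ∀ d, h1 (S.M.φ d) * h2 (S.M.φ d) = h1 d * h2 d := fun d => by rw [t1.1, t2.1]
  have pv : ∀ d, S.real d = false → h1 (S.M.α d) * h2 (S.M.α d) = h1 d * h2 d := fun d hd => by
    rw [t1.2 d (Or.inl hd), t2.2 d (Or.inl hd)]
  have sG : (h1 k1 * h2 k1 - h1 (S.M.α k1) * h2 (S.M.α k1)) +
      (h1 k3 * h2 k3 - h1 (S.M.α k3) * h2 (S.M.α k3)) = 0 := by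
    by_cases hg : c1 (S.M.v k2) = c1 (S.M.v k1)
    · have g := cut_idF (s := s) (c := c1) (g := fun d => h1 d * h2 d) W.real_α pφ pv
        (fun d d1 d2 hd => by
          show h1 (S.M.α d) * h2 (S.M.α d) = h1 d * h2 d
          rw [t1.2 d (Or.inr hd), t2.2 d (Or.inr (by
            rw [hy _ d1, hy _ d2] at hd
            exact fun h0 => hd (by rw [h0])))])
        (fun x => if x = c1 (S.M.v k1) then (1 : ℝ) else 0)
      rw [sum4 hK h12 h13 h14 h23 h24 h34, if_pos m1.symm, if_pos (m3.symm.trans m13.symm),
        if_neg (c := c1 (S.M.v (S.M.α k2)) = c1 (S.M.v k1)) (by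
          rw [← hg, hx _ i2.1, hy _ i2.2, m2]
          cases c2 (S.M.v (S.M.α k2)) <;> decide),
        if_neg (c := c1 (S.M.v (S.M.α k4)) = c1 (S.M.v k1)) (by
          rw [← hg, hx _ i2.1, m24, hy _ i4.2, m4]
          cases c2 (S.M.v (S.M.α k4)) <;> decide)] at g
      linarith
    · have g := cut_idT (s := s) (c := c1) (g := fun d => h1 d * h2 d) W.real_α pφ pv
        (fun d d1 d2 hd => by
          show h1 (S.M.α d) * h2 (S.M.α d) = h1 d * h2 d
          rw [t1.2 d (Or.inr hd), t2.2 d (Or.inr (by
            rw [hx _ d1, hx _ d2] at hd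
            exact hd))])
        (fun x => if x = c1 (S.M.v k1) then (1 : ℝ) else 0)
      rw [sum4 hK h12 h13 h14 h23 h24 h34, if_pos rfl, if_pos m13.symm,
        if_neg (c := c1 (S.M.v k2) = c1 (S.M.v k1)) hg,
        if_neg (c := c1 (S.M.v k4) = c1 (S.M.v k1)) (by
          rw [hx _ i4.1, ← m24, ← hx _ i2.1]
          exact hg)] at g
      linarith
  rw [b1, b3] at sG
  have e13 : h1 k3 - h1 (S.M.α k3) = - (h1 k1 - h1 (S.M.α k1)) := by
    rw [b2, b4] at s1
    linarith
  have key : (h1 k1 - h1 (S.M.α k1)) * (h2 k1 - h2 k3) = 0 := by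
    have e4 : h1 k1 * h2 k1 - h1 (S.M.α k1) * h2 k1 = (h1 k1 - h1 (S.M.α k1)) * h2 k1 := by ring
    have e5 : h1 k3 * h2 k3 - h1 (S.M.α k3) * h2 k3 = (h1 k3 - h1 (S.M.α k3)) * h2 k3 := by ring
    rw [e4, e5, e13] at sG
    linarith
  rcases mul_eq_zero.1 key with h0 | h0
  · left
    intro k hk
    rw [hK] at hk
    simp only [Finset.mem_insert, Finset.mem_singleton] at hk
    rcases hk with rfl | rfl | rfl | rfl
    · linarith
    · exact b2
    · linarith
    · exact b4
  · right
    have e6 : h2 (S.M.α k1) = h2 k2 := cl_sc ⟨t2.1, fun d hd => t2.2 d (Or.inl hd)⟩ f1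
    have e7 : h2 (S.M.α k2) = h2 k3 := cl_sc ⟨t2.1, fun d hd => t2.2 d (Or.inl hd)⟩ f2
    intro k hk
    rw [hK] at hk
    simp only [Finset.mem_insert, Finset.mem_singleton] at hk
    rcases hk with rfl | rfl | rfl | rfl
    · exact b1
    · linarith
    · exact b3
    · rw [b1, b3] at s2
      linarith


/-- the gluing, the middle edge is monochromatic for `c1` -/
theorem core5 [DecidableEq D] {c1 c2 : V → Bool} (hx : ∀ x, s x = true → c1 x = c2 x)
    (hy : ∀ x, s x = false → c1 x = !c2 x) (S1 : Sides S L w s c1) (S2 : Sides S L w s c2)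
    {k1 k2 k3 k4 : D} (hK : kc S s = {k1, k2, k3, k4})
    (h12 : k1 ≠ k2) (h13 : k1 ≠ k3) (h14 : k1 ≠ k4) (h23 : k2 ≠ k3) (h24 : k2 ≠ k4)
    (h34 : k3 ≠ k4) (f1 : S.sc.r (S.M.α k1) k2) (f2 : S.sc.r (S.M.α k2) k3)
    (H12 : c1 (S.M.v k1) = c1 (S.M.v (S.M.α k1)) → c1 (S.M.v k2) = c1 (S.M.v (S.M.α k2)) →
      c1 (S.M.v k2) = c1 (S.M.v k1) → c1 (S.M.v k3) ≠ c1 (S.M.v (S.M.α k3)) →
      c1 (S.M.v k4) ≠ c1 (S.M.v (S.M.α k4)) → ∃ c, Sol S L c)
    (H23 : c1 (S.M.v k2) = c1 (S.M.v (S.M.α k2)) → c1 (S.M.v k3) = c1 (S.M.v (S.M.α k3)) →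
      c1 (S.M.v k3) = c1 (S.M.v k2) → c1 (S.M.v k1) ≠ c1 (S.M.v (S.M.α k1)) →
      c1 (S.M.v k4) ≠ c1 (S.M.v (S.M.α k4)) → ∃ c, Sol S L c)
    (m2 : c1 (S.M.v k2) = c1 (S.M.v (S.M.α k2))) : ∃ c, Sol S L c := by
  have K1 : k1 ∈ kc S s := by rw [hK]; simp
  have K2 : k2 ∈ kc S s := by rw [hK]; simp
  have K3 : k3 ∈ kc S s := by rw [hK]; simp
  have K4 : k4 ∈ kc S s := by rw [hK]; simp
  have mem : ∀ {k}, k ∈ kc S s → k = k1 ∨ k = k2 ∨ k = k3 ∨ k = k4 := fun {k} hk => by
    rw [hK] at hk
    simpa using hk
  -- an edge is monochromatic for exactly one of the two colourings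
  have ex : ∀ k ∈ kc S s, (c1 (S.M.v k) = c1 (S.M.v (S.M.α k)) ∧
      ¬ c2 (S.M.v k) = c2 (S.M.v (S.M.α k))) ∨ (¬ c1 (S.M.v k) = c1 (S.M.v (S.M.α k)) ∧
      c2 (S.M.v k) = c2 (S.M.v (S.M.α k))) := by
    intro k hk
    obtain ⟨-, a1, a2⟩ := mem_kc.1 hk
    rw [hx _ a1, hy _ a2]
    cases c2 (S.M.v k) <;> cases c2 (S.M.v (S.M.α k)) <;> simp
  have n2 : ¬ c2 (S.M.v k2) = c2 (S.M.v (S.M.α k2)) := by
    rcases ex k2 K2 with h | h
    · exact h.2
    · exact absurd m2 h.1
  have D1 := fun hd => (⟨c1, sol_of_diff W hT hF S1 K2 hd⟩ : ∃ c, Sol S L c)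
  have D2 := fun hd => (⟨c2, sol_of_diff W hT hF S2 K2 hd⟩ : ∃ c, Sol S L c)
  rcases ex k1 K1 with ⟨m1, n1⟩ | ⟨n1, m1⟩
  · rcases ex k3 K3 with ⟨m3, n3⟩ | ⟨n3, m3⟩
    · refine D2 fun k hk k' hk' a b _ => ?_
      rcases mem hk with e | e | e | e
      · rw [e] at a; exact absurd a n1
      · rw [e] at a; exact absurd a n2
      · rw [e] at a; exact absurd a n3
      · rcases mem hk' with e' | e' | e' | e'
        · rw [e'] at b; exact absurd b n1
        · rw [e'] at b; exact absurd b n2
        · rw [e'] at b; exact absurd b n3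
        · rw [e, e']
    · rcases ex k4 K4 with ⟨m4, n4⟩ | ⟨n4, m4⟩
      · refine D2 fun k hk k' hk' a b _ => ?_
        rcases mem hk with e | e | e | e
        · rw [e] at a; exact absurd a n1
        · rw [e] at a; exact absurd a n2
        · rcases mem hk' with e' | e' | e' | e'
          · rw [e'] at b; exact absurd b n1
          · rw [e'] at b; exact absurd b n2
          · rw [e, e']
          · rw [e'] at b; exact absurd b n4
        · rw [e] at a; exact absurd a n4
      · -- `k1, k2` and `k3, k4`
        by_cases e12 : c1 (S.M.v k2) = c1 (S.M.v k1)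
        · by_cases e34 : c2 (S.M.v k3) = c2 (S.M.v k4)
          · exact H12 m1 m2 e12 n3 n4
          · refine D2 fun k hk k' hk' a b c => ?_
            rcases mem hk with e | e | e | e
            · rw [e] at a; exact absurd a n1
            · rw [e] at a; exact absurd a n2
            · rcases mem hk' with e' | e' | e' | e'
              · rw [e'] at b; exact absurd b n1
              · rw [e'] at b; exact absurd b n2
              · rw [e, e']
              · rw [e, e'] at c; exact absurd c e34
            · rcases mem hk' with e' | e' | e' | e'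
              · rw [e'] at b; exact absurd b n1
              · rw [e'] at b; exact absurd b n2
              · rw [e, e'] at c; exact absurd c.symm e34
              · rw [e, e']
        · refine D1 fun k hk k' hk' a b c => ?_
          rcases mem hk with e | e | e | e
          · rcases mem hk' with e' | e' | e' | e'
            · rw [e, e']
            · rw [e, e'] at c; exact absurd c.symm e12
            · rw [e'] at b; exact absurd b n3
            · rw [e'] at b; exact absurd b n4
          · rcases mem hk' with e' | e' | e' | e'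
            · rw [e, e'] at c; exact absurd c e12
            · rw [e, e']
            · rw [e'] at b; exact absurd b n3
            · rw [e'] at b; exact absurd b n4
          · rw [e] at a; exact absurd a n3
          · rw [e] at a; exact absurd a n4
  · rcases ex k3 K3 with ⟨m3, n3⟩ | ⟨n3, m3⟩
    · rcases ex k4 K4 with ⟨m4, n4⟩ | ⟨n4, m4⟩
      · refine D2 fun k hk k' hk' a b _ => ?_
        rcases mem hk with e | e | e | e
        · rcases mem hk' with e' | e' | e' | e'
          · rw [e, e']
          · rw [e'] at b; exact absurd b n2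
          · rw [e'] at b; exact absurd b n3
          · rw [e'] at b; exact absurd b n4
        · rw [e] at a; exact absurd a n2
        · rw [e] at a; exact absurd a n3
        · rw [e] at a; exact absurd a n4
      · -- `k2, k3` and `k1, k4`
        by_cases e23 : c1 (S.M.v k3) = c1 (S.M.v k2)
        · by_cases e14 : c2 (S.M.v k1) = c2 (S.M.v k4)
          · exact H23 m2 m3 e23 n1 n4
          · refine D2 fun k hk k' hk' a b c => ?_
            rcases mem hk with e | e | e | e
            · rcases mem hk' with e' | e' | e' | e'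
              · rw [e, e']
              · rw [e'] at b; exact absurd b n2
              · rw [e'] at b; exact absurd b n3
              · rw [e, e'] at c; exact absurd c e14
            · rw [e] at a; exact absurd a n2
            · rw [e] at a; exact absurd a n3
            · rcases mem hk' with e' | e' | e' | e'
              · rw [e, e'] at c; exact absurd c.symm e14
              · rw [e'] at b; exact absurd b n2
              · rw [e'] at b; exact absurd b n3
              · rw [e, e']
        · refine D1 fun k hk k' hk' a b c => ?_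
          rcases mem hk with e | e | e | e
          · rw [e] at a; exact absurd a n1
          · rcases mem hk' with e' | e' | e' | e'
            · rw [e'] at b; exact absurd b n1
            · rw [e, e']
            · rw [e, e'] at c; exact absurd c.symm e23
            · rw [e'] at b; exact absurd b n4
          · rcases mem hk' with e' | e' | e' | e'
            · rw [e'] at b; exact absurd b n1
            · rw [e, e'] at c; exact absurd c e23
            · rw [e, e']
            · rw [e'] at b; exact absurd b n4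
          · rw [e] at a; exact absurd a n4
    · rcases ex k4 K4 with ⟨m4, n4⟩ | ⟨n4, m4⟩
      · -- `k2, k4` and `k1, k3`
        by_cases e24 : c1 (S.M.v k2) = c1 (S.M.v k4)
        · by_cases e13 : c2 (S.M.v k1) = c2 (S.M.v k3)
          · have hx' : ∀ x, s x = true → c2 x = c1 x := fun x h => (hx x h).symm
            have hy' : ∀ x, s x = false → c2 x = !c1 x := fun x h => by
              rw [hy x h, Bool.not_not]
            by_cases hi : ∀ h2 : D → ℝ, S.Test c2 h2 → ∀ k ∈ kc S s, h2 (S.M.α k) = h2 k
            · exact ⟨c2, sol_of_inv W hT hF S2 K2 hi⟩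
            · push Not at hi
              obtain ⟨h2, t2, k, hk, hne⟩ := hi
              refine ⟨c1, sol_of_inv W hT hF S1 K2 fun h1 t1 => ?_⟩
              rcases no_two' W hx' hy' hK h12 h13 h14 h23 h24 h34 m1 m3 e13 m2 m4 e24 f1 f2 t2 t1
                with h | h
              · exact absurd (h k hk) hne
              · exact h
          · refine D2 fun k hk k' hk' a b c => ?_
            rcases mem hk with e | e | e | e
            · rcases mem hk' with e' | e' | e' | e'
              · rw [e, e']
              · rw [e'] at b; exact absurd b n2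
              · rw [e, e'] at c; exact absurd c e13
              · rw [e'] at b; exact absurd b n4
            · rw [e] at a; exact absurd a n2
            · rcases mem hk' with e' | e' | e' | e'
              · rw [e, e'] at c; exact absurd c.symm e13
              · rw [e'] at b; exact absurd b n2
              · rw [e, e']
              · rw [e'] at b; exact absurd b n4
            · rw [e] at a; exact absurd a n4
        · refine D1 fun k hk k' hk' a b c => ?_
          rcases mem hk with e | e | e | e
          · rw [e] at a; exact absurd a n1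
          · rcases mem hk' with e' | e' | e' | e'
            · rw [e'] at b; exact absurd b n1
            · rw [e, e']
            · rw [e'] at b; exact absurd b n3
            · rw [e, e'] at c; exact absurd c e24
          · rw [e] at a; exact absurd a n3
          · rcases mem hk' with e' | e' | e' | e'
            · rw [e'] at b; exact absurd b n1
            · rw [e, e'] at c; exact absurd c.symm e24
            · rw [e'] at b; exact absurd b n3
            · rw [e, e']
      · refine D1 fun k hk k' hk' a b _ => ?_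
        rcases mem hk with e | e | e | e
        · rw [e] at a; exact absurd a n1
        · rcases mem hk' with e' | e' | e' | e'
          · rw [e'] at b; exact absurd b n1
          · rw [e, e']
          · rw [e'] at b; exact absurd b n3
          · rw [e'] at b; exact absurd b n4
        · rw [e] at a; exact absurd a n3
        · rw [e] at a; exact absurd a n4

end

end Pool.FC7
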