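import Pool.Agent.FC7.Q5B
import Pool.Agent.FC7.GcA

/-! # The chord state of one side of a cut and the gluing

The virtual dart `a` has both ends on the side `true`, the corner `v (φ (φ a))` is on the side `false`.
The chord state: the side `true` with the real edge `a`. -/

open Finset

set_option linter.unusedSectionVars false

namespace Pool.FC7

open Pool.FC6 Pool.FC6.St

variable {D V : Type} [Fintype D] [DecidableEq V] {S : St D V} {L : D → Bool} {w : D → ℕ} {Δ : ℕ}

open Classical in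
/-- the units of the chord state -/
noncomputable def chu (S : St D V) (w : D → ℕ) (s : V → Bool) (a d : D) : ℕ :=
  if d = S.M.α a then S.u (S.M.φ a) else if d = S.M.φ a then 0 else
    if d = S.M.α (S.M.φ (S.M.φ a)) then 0 else (sd S w s true).u d

/-- the chord state -/
noncomputable def Ch (S : St D V) (w : D → ℕ) (s : V → Bool) (a : D) : St D V :=
  wE (sd S w s true) a (chu S w s a)

/-- the position of the chord -/
structure Cp (S : St D V) (s : V → Bool) (a : D) : Prop where
  ra : S.real a = false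
  rb : S.real (S.M.φ a) = true
  rb' : S.real (S.M.φ (S.M.φ a)) = true
  sa : s (S.M.v a) = true
  sa' : s (S.M.v (S.M.α a)) = true
  sy : s (S.M.v (S.M.φ (S.M.φ a))) = false
  ne : S.M.v a ≠ S.M.v (S.M.α a)

section

variable {s : V → Bool} {a : D} (W : Wf Δ S L w) (C : Cp S s a)

include W C

theorem Cp.k1 : S.M.φ a ∈ kc S s := mem_kc.2 ⟨C.rb, by rw [S.M.vφ]; exact C.sa', by
  rw [← S.M.vφ]; exact C.sy⟩

theorem Cp.k2 : S.M.α (S.M.φ (S.M.φ a)) ∈ kc S s := mem_kc.2 ⟨by rw [W.real_α]; exact C.rb', by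
  rw [S.M.vφ2]; exact C.sa, by rw [S.M.αα]; exact C.sy⟩

theorem Cp.nα : ∀ {d}, Fp S a d → ¬ Fp S a (S.M.α d) := by
  have ra' : S.real (S.M.α a) = false := by rw [W.real_α]; exact C.ra
  have e1 : S.M.α a ≠ S.M.φ a := fun h0 => by rw [h0, C.rb] at ra'; exact absurd ra' (by decide)
  have e2 : S.M.α a ≠ S.M.φ (S.M.φ a) := fun h0 => by
    rw [h0, C.rb'] at ra'; exact absurd ra' (by decide)
  have e3 : S.M.α (S.M.φ a) ≠ S.M.φ (S.M.φ a) := fun h0 => C.ne (by
    rw [← S.M.vφ2 a, ← h0, S.M.αα, S.M.vφ])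
  rintro d (rfl | rfl | rfl)
  · rintro (h | h | h)
    · exact S.M.αne _ h
    · exact e1 h
    · exact e2 h
  · rintro (h | h | h)
    · exact e1 (S.M.αof h).symm
    · exact S.M.αne _ h
    · exact e3 h
  · rintro (h | h | h)
    · exact e2 (S.M.αof h).symm
    · exact e3 (S.M.αof h).symm
    · exact S.M.αne _ h

theorem Cp.in_true {d : D} (h : Fp S a d) (h1 : s (S.M.v d) = true)
    (h2 : s (S.M.v (S.M.α d)) = true) : d = a := by
  rcases h with h | h | h
  · exact h
  · rw [h, ← S.M.vφ, C.sy] at h2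
    exact absurd h2 (by decide)
  · rw [h, C.sy] at h1
    exact absurd h1 (by decide)

theorem Cp.in_false {d : D} (h : Fp S a d) (h1 : s (S.M.v d) = false) : d = S.M.φ (S.M.φ a) := by
  rcases h with h | h | h
  · rw [h, C.sa] at h1
    exact absurd h1 (by decide)
  · rw [h, S.M.vφ, C.sa'] at h1
    exact absurd h1 (by decide)
  · exact h

/-- all mixed darts outside of the triangle of the chord have the same value -/
theorem Cp.inv (hT : ConS S.M s true) (hF : ConS S.M s false) {c : V → Bool}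
    (hb : ∀ k ∈ kc S s, k ≠ S.M.φ a → k ≠ S.M.α (S.M.φ (S.M.φ a)) →
      c (S.M.v k) ≠ c (S.M.v (S.M.α k))) :
    ∀ d, s (S.M.v d) ≠ s (S.M.v (S.M.α d)) → ¬ Fp S a d →
      Sv S c (S.M.α (S.M.φ (S.M.φ a))) d := by
  classical
  intro d hd hq h ht
  have rα := W.real_α
  obtain ⟨k1, hk1⟩ : ∃ k1, k1 = S.M.φ a := ⟨_, rfl⟩
  obtain ⟨k2, hk2⟩ : ∃ k2, k2 = S.M.α (S.M.φ (S.M.φ a)) := ⟨_, rfl⟩
  have K1 := C.k1 W
  have K2 := C.k2 W
  have q1 : Fp S a k1 := by rw [hk1]; exact Or.inr (Or.inl rfl)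
  have q2 : Fp S a (S.M.α k2) := by rw [hk2, S.M.αα]; exact Or.inr (Or.inr rfl)
  have n1 := C.nα W q1
  have n2 := C.nα W q2
  rw [S.M.αα] at n2
  rw [← hk2] at K2 ⊢ hb
  rw [← hk1] at K1 hb
  have h12 : k1 ≠ k2 := fun h0 => n2 (by rw [← h0]; exact q1)
  have e1 : h k1 = h a := by rw [hk1, ht.1]
  have e2 : h (S.M.α k2) = h a := by rw [hk2, S.M.αα, ht.1, ht.1]
  have hs := cut_idT (s := s) (c := c) rα ht.1 (fun d hd => ht.2 d (Or.inl hd))
      (fun d _ _ hd => ht.2 d (Or.inr hd)) (fun _ => (1 : ℝ))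
  rw [← Finset.sum_subset (s₁ := {k1, k2}) (by
      intro k hk
      rcases Finset.mem_insert.1 hk with rfl | hk
      · exact K1
      · rw [Finset.mem_singleton.1 hk]; exact K2) (fun k hk hk' => by
      simp only [Finset.mem_insert, Finset.mem_singleton, not_or] at hk'
      rw [ht.2 k (Or.inr (hb k hk hk'.1 hk'.2)), sub_self, zero_mul]),
    Finset.sum_pair h12] at hs
  have e3 : h (S.M.α k1) = h k2 := by linarith
  -- the modified function
  let h' : D → ℝ := fun d => if Fp S a d then h k2 else h d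
  have hp : ∀ d, Fp S a d → h' d = h k2 := fun d hd => if_pos hd
  have hn : ∀ d, ¬ Fp S a d → h' d = h d := fun d hd => if_neg hd
  have hφ : ∀ d, h' (S.M.φ d) = h' d := by
    intro d
    by_cases h1 : Fp S a d
    · rw [hp _ h1, hp _ (fp_φ.2 h1)]
    · rw [hn _ h1, hn _ (fun h2 => h1 (fp_φ.1 h2)), ht.1]
  have hK : ∀ k ∈ kc S s, h' (S.M.α k) = h' k := by
    intro k hk
    by_cases c1 : k = k1
    · rw [c1, hp _ q1, hn _ n1, e3]
    · by_cases c2 : k = k2
      · rw [c2, hp _ q2, hn _ n2]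
      · have m := mem_kc.1 hk
        have a1 : ¬ Fp S a k := by
          rintro (h0 | h0 | h0)
          · rw [h0, C.ra] at m
            exact absurd m.1 (by decide)
          · exact c1 (h0.trans hk1.symm)
          · have := m.2.1
            rw [h0, C.sy] at this
            exact absurd this (by decide)
        have a2 : ¬ Fp S a (S.M.α k) := by
          rintro (h0 | h0 | h0)
          · have := m.2.2
            rw [h0, C.sa] at this
            exact absurd this (by decide)
          · have := m.2.2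
            rw [h0, S.M.vφ, C.sa'] at this
            exact absurd this (by decide)
          · exact c2 (by rw [hk2, ← h0, S.M.αα])
        rw [hn _ a1, hn _ a2]
        exact ht.2 k (Or.inr (hb k hk c1 c2))
  have mk2 := mix_kc K2
  have key := cut_const S.M hT hF (h := h') hφ (fun e he => by
      cases hr : S.real e
      · have a1 : ¬ Fp S a e := by
          rintro (h0 | h0 | h0)
          · rw [h0, C.sa, C.sa'] at he
            exact he rfl
          · rw [h0, C.rb] at hr
            exact absurd hr (by decide)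
          · rw [h0, C.rb'] at hr
            exact absurd hr (by decide)
        have a2 : ¬ Fp S a (S.M.α e) := by
          rintro (h0 | h0 | h0)
          · have h1 : e = S.M.α a := by rw [← h0, S.M.αα]
            rw [h1, S.M.αα, C.sa, C.sa'] at he
            exact he rfl
          · rw [← rα, h0, C.rb] at hr
            exact absurd hr (by decide)
          · rw [← rα, h0, C.rb'] at hr
            exact absurd hr (by decide)
        rw [hn _ a1, hn _ a2]
        exact ht.2 e (Or.inl hr)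
      · cases h1 : s (S.M.v e)
        · have h2 : s (S.M.v (S.M.α e)) = true := by
            cases h3 : s (S.M.v (S.M.α e))
            · exact absurd (h1.trans h3.symm) he
            · rfl
          have := hK (S.M.α e) (mem_kc.2 ⟨by rw [rα]; exact hr, h2, by rw [S.M.αα]; exact h1⟩)
          rw [S.M.αα] at this
          exact this.symm
        · have h2 : s (S.M.v (S.M.α e)) = false := by
            cases h3 : s (S.M.v (S.M.α e))
            · rfl
            · exact absurd (h1.trans h3.symm) he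
          exact hK e (mem_kc.2 ⟨hr, h1, h2⟩)) hd mk2
  rw [hn _ hq, hn _ n2] at key
  exact key

theorem Ch_real {d : D} : (Ch S w s a).real d = true ↔
    (S.real d = true ∧ s (S.M.v d) = true ∧ s (S.M.v (S.M.α d)) = true) ∨ d = a ∨ d = S.M.α a := by
  unfold Ch
  rw [wE_real, sd_real W.real_A W.real_α]
  exact Iff.rfl

/-- the chord state as a part of a solution -/
theorem Cp.prt {c cb : V → Bool} (ur : ∀ d, S.u d ≠ 0 → S.real d = true)
    (hc : ∀ x ∈ S.A, s x = true → c x = cb x) (hm : cb (S.M.v a) = cb (S.M.v (S.M.α a)))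
    (inv : ∀ d, s (S.M.v d) ≠ s (S.M.v (S.M.α d)) → ¬ Fp S a d →
      Sv S c (S.M.α (S.M.φ (S.M.φ a))) d)
    (hS : Sol (Ch S w s a) (sdL S L s true) cb)
    (hv : Vi (Ch S w s a) cb (S.M.α (S.M.φ (S.M.φ a)))) :
    Prt S L c (S.M.α (S.M.φ (S.M.φ a))) (fun x => s x = true) ∧
      Vi S c (S.M.α (S.M.φ (S.M.φ a))) := by
  classical
  have rA := W.real_A
  have rα := W.real_α
  have K1 := C.k1 W
  have K2 := C.k2 W
  have q1 : Fp S a (S.M.φ a) := Or.inr (Or.inl rfl)
  have q2 : Fp S a (S.M.φ (S.M.φ a)) := Or.inr (Or.inr rfl)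
  have n1 := C.nα W q1
  have n2 := C.nα W q2
  have n0 := C.nα W (Or.inl rfl)
  have mono : ∀ d, d = a ∨ d = S.M.α a → cb (S.M.v d) = cb (S.M.v (S.M.α d)) := by
    rintro d (rfl | rfl)
    · exact hm
    · rw [S.M.αα]; exact hm.symm
  have hrd := fun d => Ch_real (w := w) W C (d := d)
  have hrt : ∀ d, d = a ∨ d = S.M.α a → (Ch S w s a).real d = true := fun d hd =>
    (hrd d).2 (Or.inr hd)
  have hin : ∀ d, ((Ch S w s a).real d = false ∨ cb (S.M.v d) ≠ cb (S.M.v (S.M.α d))) →
      s (S.M.v d) = true → s (S.M.v (S.M.α d)) = true →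
      S.Op c d ∧ ¬ Fp S a d ∧ ¬ Fp S a (S.M.α d) := by
    intro d hd h1 h2
    have hna : ¬ (d = a ∨ d = S.M.α a) := by
      intro h0
      rcases hd with hd | hd
      · rw [hrt d h0] at hd
        exact absurd hd (by decide)
      · exact hd (mono d h0)
    refine ⟨?_, fun h0 => hna (Or.inl (C.in_true W h0 h1 h2)), fun h0 => hna (Or.inr ?_)⟩
    · cases hr : S.real d
      · exact Or.inl hr
      · right
        rw [hc _ (rA d hr) h1, hc _ (rA _ (by rw [rα]; exact hr)) h2]
        rcases hd with hd | hd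
        · rw [(hrd d).2 (Or.inl ⟨hr, h1, h2⟩)] at hd
          exact absurd hd (by decide)
        · exact hd
    · have := C.in_true W h0 h2 (by rw [S.M.αα]; exact h1)
      rw [← this, S.M.αα]
  have hqr : ∀ d, S.real d = true → s (S.M.v d) = true → s (S.M.v (S.M.α d)) = true →
      ¬ Fp S a d := fun d hr h1 h2 h0 => by
    rw [C.in_true W h0 h1 h2, C.ra] at hr
    exact absurd hr (by decide)
  obtain ⟨g1, g2, g3⟩ := side_main (S := S) (A' := (Ch S w s a).A) (r := (Ch S w s a).real)
    (u' := (Ch S w s a).u) (s := s) (c := c) (cb := cb) (b := true) (Q := Fp S a)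
    (fun _ => fp_φ) (mix_kc K2) inv hin
    (fun d hd => by
      rcases (hrd d).1 hd.1 with h1 | h1
      · refine ⟨⟨h1.1, ?_⟩, h1.2.1, hqr d h1.1 h1.2.1 h1.2.2⟩
        rw [hc _ (rA d h1.1) h1.2.1, hc _ (rA _ (by rw [rα]; exact h1.1)) h1.2.2]
        exact hd.2
      · exact absurd (mono d h1) hd.2)
    (fun d hd h1 h2 => ⟨(hrd d).2 (Or.inl ⟨hd.1, h1, h2⟩), by
      show cb (S.M.v d) ≠ cb (S.M.v (S.M.α d))
      rw [← hc _ (rA d hd.1) h1, ← hc _ (rA _ (by rw [rα]; exact hd.1)) h2]
      exact hd.2⟩) (L' := sdL S L s true) hS hv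
  have vim : ∀ d, s (S.M.v d) ≠ s (S.M.v (S.M.α d)) → ¬ Fp S a d → Vi S c d := fun d h1 h2 =>
    (inv d h1 h2).vi g3
  have u0 : ∀ d, S.real d = false → S.u d = 0 := fun d hd => by
    by_contra hn
    rw [ur d hn] at hd
    exact absurd hd (by decide)
  have ra' : S.real (S.M.α a) = false := by rw [rα]; exact C.ra
  refine ⟨⟨g1, fun x hx hb => ?_, fun d hb hd => ?_, fun d h1 h2 hd => ?_⟩, g3⟩
  · obtain ⟨d, hd, hvd⟩ := hS.live x (by
      show x ∈ S.A \ (S.A.filter fun y => s y ≠ true)
      simp [hx, hb])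
    have hd' : S.M.v d = x := hd
    by_cases hq : Fp S a d
    · rcases hq with h0 | h0 | h0
      · exact ⟨_, by rw [S.M.vφ2, ← hd', h0], g3⟩
      · refine ⟨S.M.φ (S.M.α (S.M.φ a)), by rw [S.M.vφ, S.M.αα, ← hd', h0], Vi.φ ?_⟩
        exact vim _ (by rw [S.M.αα]; exact (mix_kc K1).symm) n1
      · have h1 : s (S.M.v d) = false := by rw [h0]; exact C.sy
        rw [hd', hb] at h1
        exact absurd h1 (by decide)
    · exact ⟨d, hd', g2 d (by rw [hd']; exact hb) hq hvd⟩
  · by_cases c1 : d = S.M.φ a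
    · have h1 : (Ch S w s a).u (S.M.α a) ≠ 0 := by
        show chu S w s a (S.M.α a) ≠ 0
        unfold chu
        rw [if_pos rfl, ← c1]
        exact hd
      have h2 := g2 _ C.sa' n0 (hS.req _ h1)
      have h3 := h2.α (Or.inl ra')
      rw [S.M.αα] at h3
      rw [c1]
      exact h3.φ
    · by_cases c2 : d = S.M.α (S.M.φ (S.M.φ a))
      · rw [c2]; exact g3
      · have c3 : d ≠ S.M.α a := fun h0 => hd (by rw [h0]; exact u0 _ ra')
        have c4 : d ≠ a := fun h0 => hd (by rw [h0]; exact u0 _ C.ra)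
        have h1 : (Ch S w s a).u d ≠ 0 := by
          show chu S w s a d ≠ 0
          unfold chu
          rw [if_neg c3, if_neg c1, if_neg c2]
          show (if S.M.v d ∈ (S.A.filter fun y => s y ≠ true) then 0 else S.u d +
            (if S.real d = true ∧ S.M.v (S.M.α d) ∈ (S.A.filter fun y => s y ≠ true) then
              1 + w d else 0)) ≠ 0
          rw [if_neg (by simp [hb])]
          omega
        refine g2 d hb ?_ (hS.req d h1)
        rintro (h0 | h0 | h0)
        · exact c4 h0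
        · exact c1 h0
        · rw [h0, C.sy] at hb
          exact absurd hb (by decide)
  · have hr := W.L_real d hd
    have hl : sdL S L s true d = true := by
      show (L d && (sd S w s true).real d) = true
      rw [hd, (sd_real rA rα).2 ⟨hr, h1, h2⟩]; rfl
    rcases hS.lab d hl with h3 | h3
    · exact Or.inl (g2 d h1 (hqr d hr h1 h2) h3)
    · exact Or.inr (g2 _ h2 (hqr _ (by rw [rα]; exact hr) h2 (by rw [S.M.αα]; exact h1)) h3)

/-- the gluing of the chord state and the other side, if only the two edges next to the chord are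
monochromatic -/
theorem Cp.sol {c cb cf : V → Bool} (hT : ConS S.M s true) (hF : ConS S.M s false)
    (ur : ∀ d, S.u d ≠ 0 → S.real d = true) (uy : S.u (S.M.φ (S.M.φ a)) = 0)
    (hc : ∀ x ∈ S.A, s x = true → c x = cb x) (hc' : ∀ x ∈ S.A, s x = false → c x = cf x)
    (m1 : c (S.M.v (S.M.φ a)) = c (S.M.v (S.M.α (S.M.φ a))))
    (m2 : c (S.M.v (S.M.φ (S.M.φ a))) = c (S.M.v (S.M.α (S.M.φ (S.M.φ a)))))
    (hb : ∀ k ∈ kc S s, k ≠ S.M.φ a → k ≠ S.M.α (S.M.φ (S.M.φ a)) →
      c (S.M.v k) ≠ c (S.M.v (S.M.α k)))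
    (hS : Sol (Ch S w s a) (sdL S L s true) cb)
    (hv : Vi (Ch S w s a) cb (S.M.α (S.M.φ (S.M.φ a))))
    (hS' : Sol (sd S w s false) (sdL S L s false) cf)
    (hv' : Vi (sd S w s false) cf (S.M.α (S.M.φ (S.M.φ a)))) : Sol S L c := by
  classical
  have K1 := C.k1 W
  have K2 := C.k2 W
  have q1 : Fp S a (S.M.φ a) := Or.inr (Or.inl rfl)
  have q2 : Fp S a (S.M.φ (S.M.φ a)) := Or.inr (Or.inr rfl)
  have n1 := C.nα W q1
  have n2 := C.nα W q2
  have inv := C.inv W hT hF hb
  have hm : cb (S.M.v a) = cb (S.M.v (S.M.α a)) := by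
    have m1' : c (S.M.v (S.M.α a)) = c (S.M.v (S.M.φ (S.M.φ a))) := by
      rw [← S.M.vφ a, m1, ← S.M.vφ (S.M.φ a)]
    have vA : S.M.v a ∈ S.A := by
      rw [← S.M.vφ2 a]
      exact W.real_A _ (by rw [W.real_α]; exact C.rb')
    have vA' : S.M.v (S.M.α a) ∈ S.A := by
      rw [← S.M.vφ a]
      exact W.real_A _ C.rb
    rw [← hc _ vA C.sa, ← hc _ vA' C.sa', m1', m2, S.M.vφ2]
  obtain ⟨p1, v0⟩ := C.prt W ur hc hm inv hS hv
  have p2 := prt_sd W (Q := Fp S a) (fun _ => fp_φ) (mix_kc K2) inv hc' (fun d h1 h2 h0 => by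
      rw [C.in_false W h0 h1] at h2
      have : s (S.M.v (S.M.α (S.M.φ (S.M.φ a)))) = true := by rw [S.M.vφ2]; exact C.sa
      rw [h2] at this
      exact absurd this (by decide)) hS' hv' (fun d h0 h1 _ => by
      refine ⟨S.M.φ (S.M.α (S.M.φ (S.M.φ a))), ?_, Vi.φ v0⟩
      rw [C.in_false W h0 h1, S.M.vφ, S.M.αα]) (fun d h0 h1 h2 => by
      rw [C.in_false W h0 h1] at h2
      exact absurd uy h2)
  refine sol_join (d0 := S.M.α (S.M.φ (S.M.φ a))) (fun (b : Bool) x => s x = b) W
    (fun x _ => ⟨s x, rfl⟩) (fun b => ?_) fun d hr => ?_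
  · cases b
    · exact p2
    · exact p1
  · by_cases h1 : s (S.M.v d) = s (S.M.v (S.M.α d))
    · exact Or.inl ⟨_, rfl, h1.symm⟩
    · right
      refine ⟨fun hd => inv d h1 fun h0 => ?_, fun _ => ?_⟩
      · rcases h0 with h0 | h0 | h0
        · rw [h0, C.ra] at hr
          exact absurd hr (by decide)
        · rw [h0] at hd
          exact hd.2 m1
        · rw [h0] at hd
          exact hd.2 m2
      · by_cases h0 : Fp S a d
        · exact Or.inr ((inv _ (by rw [S.M.αα]; exact fun h => h1 h.symm) (C.nα W h0)).vi v0)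
        · exact Or.inl ((inv d h1 h0).vi v0)

end

end Pool.FC7
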