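import Pool.Agent.FC7.Q5C

/-! # The chord state belongs to the class -/

open Finset

set_option linter.unusedSectionVars false

namespace Pool.FC7

open Pool.FC6 Pool.FC6.St

variable {D V : Type} [Fintype D] [DecidableEq V] {S : St D V} {L : D → Bool} {w : D → ℕ} {Δ : ℕ}

section

variable {s : V → Bool} {a : D} (W : Wf Δ S L w) (C : Cp S s a)

/-- the side `true` is cut into two parts -/
theorem rc_split (rα : ∀ d, S.real (S.M.α d) = S.real d) (s T : V → Bool) :
    S.rc (fun x => s x && T x) + S.rc (fun x => s x && !T x) =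
      S.rc s + 2 * ∑ d, (if S.real d = true ∧ s (S.M.v d) = true ∧ s (S.M.v (S.M.α d)) = true ∧
        T (S.M.v d) = true ∧ T (S.M.v (S.M.α d)) = false then 1 else 0) := by
  classical
  obtain ⟨I, hI⟩ : ∃ I : D → ℕ, I = fun d => if S.real d = true ∧ s (S.M.v d) = true ∧
      s (S.M.v (S.M.α d)) = true ∧ T (S.M.v d) = true ∧ T (S.M.v (S.M.α d)) = false then 1
      else 0 := ⟨_, rfl⟩
  have h1 : ∑ d, I (S.M.α d) = ∑ d, I d := sum_α_nat S.M I
  have h2 : ∀ d, (if S.real d = true ∧ (s (S.M.v d) && T (S.M.v d)) = true ∧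
        (s (S.M.v (S.M.α d)) && T (S.M.v (S.M.α d))) = false then 1 else 0) +
      (if S.real d = true ∧ (s (S.M.v d) && !T (S.M.v d)) = true ∧
        (s (S.M.v (S.M.α d)) && !T (S.M.v (S.M.α d))) = false then 1 else 0) =
      (if S.real d = true ∧ s (S.M.v d) = true ∧ s (S.M.v (S.M.α d)) = false then 1 else 0) +
        I d + I (S.M.α d) := by
    intro d
    rw [hI]
    beta_reduce
    rw [S.M.αα, rα]
    cases S.real d <;> cases s (S.M.v d) <;> cases s (S.M.v (S.M.α d)) <;>
      cases T (S.M.v d) <;> cases T (S.M.v (S.M.α d)) <;> rfl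
  have h3 := Finset.sum_congr (rfl : (Finset.univ : Finset D) = Finset.univ) fun d _ => h2 d
  simp only [Finset.sum_add_distrib] at h3
  have h4 : S.rc (fun x => s x && T x) + S.rc (fun x => s x && !T x) =
    S.rc s + ∑ d, I d + ∑ d, I (S.M.α d) := h3
  rw [h4, h1, hI]
  ring

include W C

theorem Cp.ne_a : S.M.φ a ≠ S.M.α a ∧ S.M.φ (S.M.φ a) ≠ S.M.α a ∧
    S.M.α (S.M.φ (S.M.φ a)) ≠ a ∧ S.M.α (S.M.φ (S.M.φ a)) ≠ S.M.α a ∧
    S.M.α (S.M.φ (S.M.φ a)) ≠ S.M.φ a ∧ S.M.α (S.M.φ (S.M.φ a)) ≠ S.M.φ (S.M.φ a) := by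
  have n0 := C.nα W (Or.inl rfl)
  have n2 := C.nα W (Or.inr (Or.inr rfl))
  refine ⟨fun h => n0 (Or.inr (Or.inl h.symm)), fun h => n0 (Or.inr (Or.inr h.symm)),
    fun h => n2 (Or.inl h), fun h => S.M.φφne a (S.M.αinj h), fun h => n2 (Or.inr (Or.inl h)),
    fun h => n2 (Or.inr (Or.inr h))⟩

omit C in
/-- the units of a side -/
theorem sd_u {d : D} {b : Bool} (hd : s (S.M.v d) = b) : (sd S w s b).u d = S.u d +
    (if S.real d = true ∧ s (S.M.v (S.M.α d)) ≠ b then 1 + w d else 0) := by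
  show (if S.M.v d ∈ (S.A.filter fun y => s y ≠ b) then 0 else S.u d +
    (if S.real d = true ∧ S.M.v (S.M.α d) ∈ (S.A.filter fun y => s y ≠ b) then 1 + w d else 0)) = _
  rw [if_neg (by simp [hd])]
  congr 1
  by_cases h1 : S.real d = true ∧ s (S.M.v (S.M.α d)) ≠ b
  · rw [if_pos h1, if_pos ⟨h1.1, Finset.mem_filter.2 ⟨W.real_A _ (by rw [W.real_α]; exact h1.1),
      h1.2⟩⟩]
  · rw [if_neg h1, if_neg]
    rintro ⟨h2, h3⟩
    have h4 := Finset.mem_filter.1 h3
    exact h1 ⟨h2, h4.2⟩

omit W C in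
theorem sd_A {x : V} {b : Bool} : x ∈ (sd S w s b).A ↔ x ∈ S.A ∧ s x = b := by
  show x ∈ S.A \ (S.A.filter fun y => s y ≠ b) ↔ _
  rw [Finset.mem_sdiff, Finset.mem_filter]
  constructor
  · rintro ⟨h1, h2⟩
    refine ⟨h1, ?_⟩
    by_contra h3
    exact h2 ⟨h1, h3⟩
  · rintro ⟨h1, h2⟩
    exact ⟨h1, fun h3 => h3.2 h2⟩

theorem Cp.chu_α : chu S w s a (S.M.α a) = S.u (S.M.φ a) := by
  unfold chu
  rw [if_pos rfl]

theorem Cp.chu_1 : chu S w s a (S.M.φ a) = 0 := by
  unfold chu
  rw [if_neg (C.ne_a W).1, if_pos rfl]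

theorem Cp.chu_2 : chu S w s a (S.M.α (S.M.φ (S.M.φ a))) = 0 := by
  have h := C.ne_a W
  unfold chu
  rw [if_neg h.2.2.2.1, if_neg h.2.2.2.2.1, if_pos rfl]

theorem Cp.chu_o {d : D} (h1 : d ≠ S.M.α a) (h2 : d ≠ S.M.φ a)
    (h3 : d ≠ S.M.α (S.M.φ (S.M.φ a))) : chu S w s a d = (sd S w s true).u d := by
  unfold chu
  rw [if_neg h1, if_neg h2, if_neg h3]

/-- real cuts of the chord state -/
theorem Cp.rc_ge (hΔ : Δ ≤ 6) (h : MC Δ S L w) (h4 : S.rc s = 4)
    (hmin : ∀ T : V → Bool, (∀ x, T x = true → s x = true) → T (S.M.v a) = true →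
      T (S.M.v (S.M.α a)) = true → (∃ x ∈ S.A, s x = true ∧ T x = false) → 5 ≤ S.rc T)
    {T : V → Bool} (h1 : ∃ x ∈ S.A, s x = true ∧ T x = true)
    (h2 : ∃ x ∈ S.A, s x = true ∧ T x = false) :
    3 ≤ (Ch S w s a).rc T ∧ 1 ≤ (sd S w s true).rc T := by
  classical
  have rA := W.real_A
  have rα := W.real_α
  obtain ⟨x, xA, xs, xT⟩ := h1
  obtain ⟨y, yA, ys, yT⟩ := h2
  have hyA : S.M.v (S.M.φ (S.M.φ a)) ∈ S.A := rA _ C.rb'
  have k1 : 4 ≤ S.rc (fun x => s x && T x) := h.cut4 hΔ ⟨x, xA, by simp [xs, xT]⟩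
    ⟨y, yA, by simp [yT]⟩
  have k2 : 4 ≤ S.rc (fun x => s x && !T x) := h.cut4 hΔ ⟨y, yA, by simp [ys, yT]⟩
    ⟨x, xA, by simp [xT]⟩
  have hsp := rc_split rα s T
  obtain ⟨n, hn⟩ : ∃ n, n = ∑ d, (if S.real d = true ∧ s (S.M.v d) = true ∧
    s (S.M.v (S.M.α d)) = true ∧ T (S.M.v d) = true ∧ T (S.M.v (S.M.α d)) = false then 1
    else 0) := ⟨_, rfl⟩
  rw [← hn, h4] at hsp
  have e1 : (sd S w s true).rc T = n := by
    rw [hn]
    unfold St.rc
    refine Finset.sum_congr rfl fun d _ => ?_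
    have := sd_real (w := w) rA rα (s := s) (b := true) (d := d)
    by_cases c1 : (sd S w s true).real d = true
    · obtain ⟨c2, c3, c4⟩ := this.1 c1
      simp only [c1, c2, c3, c4, true_and]
      rfl
    · rw [if_neg (fun c2 => c1 c2.1), if_neg (fun c2 => c1 (this.2 ⟨c2.1, c2.2.1, c2.2.2.1⟩))]
  refine ⟨?_, by rw [e1]; omega⟩
  have e2 : n ≤ (Ch S w s a).rc T := by
    rw [← e1]
    unfold St.rc
    refine Finset.sum_le_sum fun d _ => ?_
    by_cases c1 : (sd S w s true).real d = true ∧ T ((sd S w s true).M.v d) = true ∧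
      T ((sd S w s true).M.v ((sd S w s true).M.α d)) = false
    · rw [if_pos c1, if_pos]
      exact ⟨wE_of c1.1, c1.2⟩
    · rw [if_neg c1]; exact Nat.zero_le _
  by_cases c1 : T (S.M.v a) = T (S.M.v (S.M.α a))
  · have k3 : 9 ≤ S.rc (fun x => s x && T x) + S.rc (fun x => s x && !T x) := by
      cases c2 : T (S.M.v a)
      · have := hmin (fun x => s x && !T x) (fun x hx => by
          simp only [Bool.and_eq_true] at hx
          exact hx.1) (by simp [C.sa, c2]) (by simp [C.sa', ← c1, c2]) ⟨x, xA, xs, by simp [xT]⟩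
        omega
      · have := hmin (fun x => s x && T x) (fun x hx => by
          simp only [Bool.and_eq_true] at hx
          exact hx.1) (by simp [C.sa, c2]) (by simp [C.sa', ← c1, c2]) ⟨y, yA, ys, by simp [yT]⟩
        omega
    omega
  · have k3 : n + 1 ≤ (Ch S w s a).rc T := by
      have : ∃ e, (e = a ∨ e = S.M.α a) ∧ T (S.M.v e) = true ∧ T (S.M.v (S.M.α e)) = false := by
        cases c2 : T (S.M.v a)
        · refine ⟨S.M.α a, Or.inr rfl, ?_, by rw [S.M.αα]; exact c2⟩
          cases c3 : T (S.M.v (S.M.α a))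
          · exact absurd (c2.trans c3.symm) c1
          · rfl
        · refine ⟨a, Or.inl rfl, c2, ?_⟩
          cases c3 : T (S.M.v (S.M.α a))
          · rfl
          · exact absurd (c2.trans c3.symm) c1
      obtain ⟨e, e3, e4, e5⟩ := this
      rw [← e1]
      unfold St.rc
      refine Nat.succ_le_of_lt (Finset.sum_lt_sum (fun d _ => ?_) ⟨e, Finset.mem_univ _, ?_⟩)
      · by_cases c1 : (sd S w s true).real d = true ∧ T ((sd S w s true).M.v d) = true ∧
          T ((sd S w s true).M.v ((sd S w s true).M.α d)) = false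
        · rw [if_pos c1, if_pos]
          exact ⟨wE_of c1.1, c1.2⟩
        · rw [if_neg c1]; exact Nat.zero_le _
      · have r1 : ¬ (sd S w s true).real e = true := by
          intro h0
          have := ((sd_real (w := w) rA rα).1 h0).1
          rcases e3 with rfl | rfl
          · rw [C.ra] at this
            exact absurd this (by decide)
          · rw [rα, C.ra] at this
            exact absurd this (by decide)
        rw [if_neg (fun h0 => r1 h0.1), if_pos]
        · omega
        · exact ⟨wE_real.2 (Or.inr e3), e4, e5⟩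
    omega

/-- the degrees in the chord state -/
theorem Cp.deg (ur : ∀ d, S.u d ≠ 0 → S.real d = true) {x : V} (hx : x ∈ (Ch S w s a).A) :
    ∑ d, (if S.M.v d = x then (if (Ch S w s a).real d = true then 1 else 0) + chu S w s a d +
      dw S w (S.A.filter fun y => s y ≠ true) d else 0) ≤ Δ := by
  classical
  have rA := W.real_A
  have rα := W.real_α
  obtain ⟨w', hw'⟩ : ∃ w', w' = dw S w (S.A.filter fun y => s y ≠ true) := ⟨_, rfl⟩
  rw [← hw']
  have hwf := W.dl (X := S.A.filter fun y => s y ≠ true)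
  have hN := C.ne_a W
  obtain ⟨k1, hk1⟩ : ∃ k1, k1 = S.M.φ a := ⟨_, rfl⟩
  obtain ⟨k2, hk2⟩ : ∃ k2, k2 = S.M.α (S.M.φ (S.M.φ a)) := ⟨_, rfl⟩
  have u0 : ∀ d, S.real d = false → S.u d = 0 := fun d hd => by
    by_contra hn
    rw [ur d hn] at hd
    exact absurd hd (by decide)
  have ra' : S.real (S.M.α a) = false := by rw [rα]; exact C.ra
  have dr : ∀ d, (S.del (S.A.filter fun y => s y ≠ true)).real d = true ↔
      S.real d = true ∧ s (S.M.v d) = true ∧ s (S.M.v (S.M.α d)) = true := fun d =>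
    sd_real (w := w) rA rα
  have w0 : ∀ d, ¬ (S.real d = true ∧ s (S.M.v d) = true ∧ s (S.M.v (S.M.α d)) = true) →
      w' d = 0 := fun d hd => by
    rw [hw']
    unfold dw
    rw [if_neg fun h0 => hd ((dr d).1 h0)]
  -- the comparison with the side
  let f : D → ℕ := fun d => (if (Ch S w s a).real d = true then 1 else 0) + chu S w s a d + w' d
  let g : D → ℕ := fun d => (if (sd S w s true).real d = true then 1 else 0) +
    (sd S w s true).u d + w' d
  let π : Equiv.Perm D := (Equiv.swap a k2) * (Equiv.swap (S.M.α a) k1)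
  have ne1 : a ≠ S.M.α a := fun h0 => S.M.αne a h0.symm
  have ne2 : a ≠ k1 := fun h0 => S.M.φne a (by rw [← hk1, ← h0])
  have ne3 : k2 ≠ S.M.α a := by rw [hk2]; exact hN.2.2.2.1
  have ne4 : k2 ≠ k1 := by rw [hk2, hk1]; exact hN.2.2.2.2.1
  have ne5 : k1 ≠ S.M.α a := by rw [hk1]; exact hN.1
  have ne6 : k2 ≠ a := by rw [hk2]; exact hN.2.2.1
  have πa : π a = k2 := by
    show Equiv.swap a k2 (Equiv.swap (S.M.α a) k1 a) = k2
    rw [Equiv.swap_apply_of_ne_of_ne ne1 ne2, Equiv.swap_apply_left]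
  have πk2 : π k2 = a := by
    show Equiv.swap a k2 (Equiv.swap (S.M.α a) k1 k2) = a
    rw [Equiv.swap_apply_of_ne_of_ne ne3 ne4, Equiv.swap_apply_right]
  have πα : π (S.M.α a) = k1 := by
    show Equiv.swap a k2 (Equiv.swap (S.M.α a) k1 (S.M.α a)) = k1
    rw [Equiv.swap_apply_left, Equiv.swap_apply_of_ne_of_ne ne2.symm ne4.symm]
  have πk1 : π k1 = S.M.α a := by
    show Equiv.swap a k2 (Equiv.swap (S.M.α a) k1 k1) = S.M.α a
    rw [Equiv.swap_apply_right, Equiv.swap_apply_of_ne_of_ne ne1.symm ne3.symm]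
  have πo : ∀ d, d ≠ a → d ≠ k2 → d ≠ S.M.α a → d ≠ k1 → π d = d := by
    intro d a1 a2 a3 a4
    show Equiv.swap a k2 (Equiv.swap (S.M.α a) k1 d) = d
    rw [Equiv.swap_apply_of_ne_of_ne a3 a4, Equiv.swap_apply_of_ne_of_ne a1 a2]
  have vk1 : S.M.v k1 = S.M.v (S.M.α a) := by rw [hk1, S.M.vφ]
  have vk2 : S.M.v k2 = S.M.v a := by rw [hk2, S.M.vφ2]
  have hfg : ∀ d, S.M.v (π d) = S.M.v d ∧ f d ≤ g (π d) := by
    intro d
    by_cases c1 : d = a
    · rw [c1, πa]
      refine ⟨vk2, ?_⟩
      have e1 : f a = 1 := by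
        show (if (Ch S w s a).real a = true then 1 else 0) + chu S w s a a + w' a = 1
        rw [if_pos ((Ch_real W C).2 (Or.inr (Or.inl rfl))), C.chu_o W ne1 (by rw [← hk1]; exact ne2)
          (by rw [← hk2]; exact ne6.symm), sd_u W C.sa, u0 a C.ra, if_neg (fun h0 => by
            rw [C.ra] at h0; exact absurd h0.1 (by decide)), w0 a (fun h0 => by
            rw [C.ra] at h0; exact absurd h0.1 (by decide))]
      have e2 : 1 ≤ g k2 := by
        show 1 ≤ (if (sd S w s true).real k2 = true then 1 else 0) + (sd S w s true).u k2 + w' k2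
        have m2 := mem_kc.1 (C.k2 W)
        rw [← hk2] at m2
        rw [sd_u W m2.2.1, if_pos (c := S.real k2 = true ∧ _) ⟨m2.1, by rw [m2.2.2]; decide⟩]
        omega
      omega
    by_cases c2 : d = k2
    · rw [c2, πk2]
      refine ⟨vk2.symm, ?_⟩
      have m2 := mem_kc.1 (C.k2 W)
      rw [← hk2] at m2
      have e1 : f k2 = 0 := by
        show (if (Ch S w s a).real k2 = true then 1 else 0) + chu S w s a k2 + w' k2 = 0
        rw [if_neg, w0 k2 (fun h0 => by
            rw [m2.2.2] at h0; exact absurd h0.2.2 (by decide))]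
        · have := C.chu_2 (w := w) W
          rw [← hk2] at this
          rw [this]
        · intro h0
          rcases (Ch_real W C).1 h0 with h1 | h1 | h1
          · rw [m2.2.2] at h1; exact absurd h1.2.2 (by decide)
          · exact ne6 h1
          · exact ne3 h1
      omega
    by_cases c3 : d = S.M.α a
    · rw [c3, πα]
      refine ⟨vk1, ?_⟩
      have m1 := mem_kc.1 (C.k1 W)
      rw [← hk1] at m1
      have e1 : f (S.M.α a) = 1 + S.u k1 := by
        show (if (Ch S w s a).real (S.M.α a) = true then 1 else 0) + chu S w s a (S.M.α a) +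
          w' (S.M.α a) = _
        rw [if_pos ((Ch_real W C).2 (Or.inr (Or.inr rfl))), C.chu_α W, w0 _ (fun h0 => by
            rw [ra'] at h0; exact absurd h0.1 (by decide)), ← hk1]
        omega
      have e2 : 1 + S.u k1 ≤ g k1 := by
        show 1 + S.u k1 ≤ (if (sd S w s true).real k1 = true then 1 else 0) +
          (sd S w s true).u k1 + w' k1
        rw [sd_u W m1.2.1, if_pos (c := S.real k1 = true ∧ _) ⟨m1.1, by rw [m1.2.2]; decide⟩]
        omega
      omega
    by_cases c4 : d = k1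
    · rw [c4, πk1]
      refine ⟨vk1.symm, ?_⟩
      have m1 := mem_kc.1 (C.k1 W)
      rw [← hk1] at m1
      have e1 : f k1 = 0 := by
        show (if (Ch S w s a).real k1 = true then 1 else 0) + chu S w s a k1 + w' k1 = 0
        rw [if_neg, w0 k1 (fun h0 => by
            rw [m1.2.2] at h0; exact absurd h0.2.2 (by decide))]
        · have := C.chu_1 (w := w) W
          rw [← hk1] at this
          rw [this]
        · intro h0
          rcases (Ch_real W C).1 h0 with h1 | h1 | h1
          · rw [m1.2.2] at h1; exact absurd h1.2.2 (by decide)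
          · exact ne2 h1.symm
          · exact ne5 h1
      omega
    · rw [πo d c1 c2 c3 c4]
      refine ⟨rfl, le_of_eq ?_⟩
      show (if (Ch S w s a).real d = true then 1 else 0) + chu S w s a d + w' d =
        (if (sd S w s true).real d = true then 1 else 0) + (sd S w s true).u d + w' d
      rw [C.chu_o W c3 (by rw [← hk1]; exact c4) (by rw [← hk2]; exact c2)]
      have : (Ch S w s a).real d = true ↔ (sd S w s true).real d = true := by
        unfold Ch
        rw [wE_real]
        exact ⟨fun h0 => h0.resolve_right (fun h1 => h1.elim c1 c3), Or.inl⟩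
      simp only [this]
  have hx' : x ∈ S.A \ (S.A.filter fun y => s y ≠ true) := hx
  refine le_trans (Finset.sum_le_sum (g := fun d => if S.M.v (π d) = x then g (π d) else 0)
    fun d _ => ?_) ?_
  · obtain ⟨h1, h2⟩ := hfg d
    rw [h1]
    by_cases c1 : S.M.v d = x
    · rw [if_pos c1, if_pos c1]
      exact h2
    · rw [if_neg c1, if_neg c1]
  · rw [Equiv.sum_comp π (fun d => if S.M.v d = x then g d else 0)]
    by_cases hex : ∃ d, (S.del (S.A.filter fun y => s y ≠ true)).real d = true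
    · have := (hwf hex).deg x hx'
      rw [← hw'] at this
      exact this
    · -- no real edge inside
      refine le_trans (Finset.sum_le_sum fun d _ => ?_) (W.deg x (Finset.mem_sdiff.1 hx').1)
      by_cases c1 : S.M.v d = x
      · rw [if_pos c1, if_pos c1]
        have sx : s (S.M.v d) = true := by
          rw [c1]
          by_contra h0
          exact (Finset.mem_sdiff.1 hx').2 (Finset.mem_filter.2 ⟨(Finset.mem_sdiff.1 hx').1, h0⟩)
        show (if (sd S w s true).real d = true then 1 else 0) + (sd S w s true).u d + w' d ≤ _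
        have hr0 : ¬ (sd S w s true).real d = true := fun h0 => hex ⟨d, h0⟩
        rw [if_neg hr0, w0 d (fun h0 => hex ⟨d, (dr d).2 h0⟩), sd_u W sx]
        by_cases c2 : S.real d = true ∧ s (S.M.v (S.M.α d)) ≠ true
        · rw [if_pos c2, if_pos c2.1]; omega
        · rw [if_neg c2]; omega
      · rw [if_neg c1, if_neg c1]

end

end Pool.FC7
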