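import Pool.Agent.FC7.Q5D

/-! # The faces of the chord state -/

open Finset

set_option linter.unusedSectionVars false

namespace Pool.FC7

open Pool.FC6 Pool.FC6.St

variable {D V : Type} [Fintype D] [DecidableEq V] {S : St D V} {L : D → Bool} {w : D → ℕ} {Δ : ℕ}

section

variable {s : V → Bool} {a : D} (W : Wf Δ S L w) (C : Cp S s a) (hT : ConS S.M s true)
  (hF : ConS S.M s false)

include W C hT hF

/-- the mixed darts and the darts at the side `false` are in one face of the chord state -/
theorem Cp.hole {k : D} (hk : s (S.M.v k) ≠ s (S.M.v (S.M.α k))) {d : D}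
    (hd : s (S.M.v d) ≠ s (S.M.v (S.M.α d)) ∨ s (S.M.v d) = false) : (Ch S w s a).sc.r k d := by
  classical
  intro t ht
  have hr : ∀ e, s (S.M.v e) = false ∨ s (S.M.v (S.M.α e)) = false →
      (Ch S w s a).real e = false := by
    intro e he
    by_contra h0
    rcases (Ch_real W C).1 (by simpa using h0) with h1 | h1 | h1
    · rcases he with he | he
      · rw [h1.2.1] at he; exact absurd he (by decide)
      · rw [h1.2.2] at he; exact absurd he (by decide)
    · rcases he with he | he
      · rw [h1, C.sa] at he; exact absurd he (by decide)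
      · rw [h1, C.sa'] at he; exact absurd he (by decide)
    · rcases he with he | he
      · rw [h1, C.sa'] at he; exact absurd he (by decide)
      · rw [h1, S.M.αα, C.sa] at he; exact absurd he (by decide)
  have hmx : ∀ e, s (S.M.v e) ≠ s (S.M.v (S.M.α e)) → s (S.M.v e) = false ∨
      s (S.M.v (S.M.α e)) = false := by
    intro e he
    cases h1 : s (S.M.v e)
    · exact Or.inl rfl
    · cases h2 : s (S.M.v (S.M.α e))
      · exact Or.inr rfl
      · exact absurd (h1.trans h2.symm) he
  let g : D → ℝ := fun e => if t e = t k then 1 else 0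
  have gφ : ∀ e, g (S.M.φ e) = g e := fun e => by
    show (if t (S.M.φ e) = t k then (1 : ℝ) else 0) = if t e = t k then 1 else 0
    have := ht.1 e
    rw [show t (S.M.φ e) = t e from this]
  have gα : ∀ e, (Ch S w s a).real e = false → g (S.M.α e) = g e := fun e he => by
    show (if t (S.M.α e) = t k then (1 : ℝ) else 0) = if t e = t k then 1 else 0
    have := ht.2 e he
    rw [show t (S.M.α e) = t e from this]
  have gk : g k = 1 := if_pos rfl
  have mix : ∀ e, s (S.M.v e) ≠ s (S.M.v (S.M.α e)) → g e = 1 := fun e he => by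
    rw [← gk]
    exact cut_const S.M hT hF gφ (fun e he => gα e (hr e (hmx e he))) he hk
  have key : g d = 1 := by
    rcases hd with hd | hd
    · exact mix d hd
    · exact triv_side (S := Ch S w s a) (s := s) (b := false) (fun e h1 h2 => by
        rw [hr e (Or.inl h2)] at h1
        exact absurd h1 (by decide)) ⟨gφ, gα⟩ mix hk hd
  by_contra hn
  have : g d = 0 := if_neg fun h0 => hn h0.symm
  rw [this] at key
  exact zero_ne_one key

/-- the corners of the other faces are on the side `true` -/
theorem Cp.off {k : D} (hk : s (S.M.v k) ≠ s (S.M.v (S.M.α k))) {d e : D}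
    (hd : ¬ (Ch S w s a).sc.r k d) (he : (Ch S w s a).sc.r d e) :
    s (S.M.v e) = true ∧ s (S.M.v (S.M.α e)) = true ∧ ¬ Fp S a e ∧
      e ≠ S.M.α (S.M.φ (S.M.φ a)) := by
  have h1 : ¬ (Ch S w s a).sc.r k e := fun h0 => hd ((Ch S w s a).sc.iseqv.trans h0
    ((Ch S w s a).sc.iseqv.symm he))
  have h2 : s (S.M.v e) = true := by
    cases h3 : s (S.M.v e)
    · exact absurd (C.hole W hT hF hk (Or.inr h3)) h1
    · rfl
  refine ⟨h2, ?_, fun h0 => ?_, fun h0 => ?_⟩
  · cases h3 : s (S.M.v (S.M.α e))
    · exact absurd (C.hole W hT hF hk (Or.inl (by rw [h2, h3]; decide))) h1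
    · rfl
  · have h3 : (Ch S w s a).sc.r k (S.M.φ (S.M.φ a)) := C.hole W hT hF hk (Or.inr C.sy)
    have h4 : (Ch S w s a).sc.r e (S.M.φ (S.M.φ a)) := by
      intro t ht
      have e1 : ∀ d, t (S.M.φ d) = t d := ht.1
      rcases h0 with rfl | rfl | rfl
      · rw [e1, e1]
      · exact (e1 _).symm
      · rfl
    exact h1 ((Ch S w s a).sc.iseqv.trans h3 ((Ch S w s a).sc.iseqv.symm h4))
  · have h3 := mix_kc (C.k2 W)
    rw [← h0] at h3
    exact h1 (C.hole W hT hF hk (Or.inl h3))

/-- the faces without the chord -/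
theorem Cp.face1 {k : D} (hk : s (S.M.v k) ≠ s (S.M.v (S.M.α k))) {d : D}
    (hd : ¬ (Ch S w s a).sc.r k d) (hda : ¬ (Ch S w s a).sc.r d (S.M.α a)) :
    (∀ e, (Ch S w s a).sc.r d e → chu S w s a e = S.u e) ∧
    (∀ e, (Ch S w s a).sc.r d e → ((Ch S w s a).real e = true ↔ S.real e = true)) ∧
    ∀ e, S.sc.r d e ↔ (Ch S w s a).sc.r d e := by
  classical
  have off := fun e he => C.off W hT hF hk (d := d) (e := e) hd he
  have nea : ∀ e, (Ch S w s a).sc.r d e → e ≠ a ∧ e ≠ S.M.α a := fun e he =>
    ⟨fun h0 => (off e he).2.2.1 (Or.inl h0), fun h0 => hda (by rw [← h0]; exact he)⟩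
  have hr : ∀ e, (Ch S w s a).sc.r d e → ((Ch S w s a).real e = true ↔ S.real e = true) := by
    intro e he
    obtain ⟨n1, n2⟩ := nea e he
    obtain ⟨o1, o2, -, -⟩ := off e he
    constructor
    · intro h1
      rcases (Ch_real W C).1 h1 with h1 | h1 | h1
      · exact h1.1
      · exact absurd h1 n1
      · exact absurd h1 n2
    · intro h1
      exact (Ch_real W C).2 (Or.inl ⟨h1, o1, o2⟩)
  refine ⟨fun e he => ?_, hr, fun e => ⟨fun h1 => ?_, fun h1 => ?_⟩⟩
  · obtain ⟨n1, n2⟩ := nea e he
    obtain ⟨o1, o2, o3, o4⟩ := off e he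
    rw [C.chu_o W n2 (fun h0 => o3 (Or.inr (Or.inl h0))) o4, sd_u W o1, if_neg, add_zero]
    rintro ⟨-, h0⟩
    exact h0 o2
  · -- a face of `S` is contained in the face of the chord state
    have key : S.Cl (fun e => decide ((Ch S w s a).sc.r d e)) := by
      refine ⟨fun e => decide_eq_decide.2 (scφ (S := Ch S w s a) d e), fun e he => ?_⟩
      refine decide_eq_decide.2 ?_
      have fwd : ∀ e, S.real e = false → (Ch S w s a).sc.r d e →
          (Ch S w s a).sc.r d (S.M.α e) := fun e he h2 => by
        refine (scα (S := Ch S w s a) ?_ d).2 h2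
        by_contra h3
        have := (hr e h2).1 (by simpa using h3)
        rw [he] at this
        exact absurd this (by decide)
      refine ⟨fun h2 => ?_, fwd e he⟩
      have := fwd (S.M.α e) (by rw [W.real_α]; exact he) h2
      rwa [S.M.αα] at this
    have h2 := h1 _ key
    beta_reduce at h2
    rw [decide_eq_true ((Ch S w s a).sc.iseqv.refl d)] at h2
    exact of_decide_eq_true h2.symm
  · have key : (Ch S w s a).Cl (fun e => decide ((Ch S w s a).sc.r d e) && decide (S.sc.r d e)) := by
      refine ⟨fun e => ?_, fun e he => ?_⟩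
      · beta_reduce
        congr 1
        · exact decide_eq_decide.2 (scφ (S := Ch S w s a) d e)
        · exact decide_eq_decide.2 (scφ d e)
      · beta_reduce
        have a1 : decide ((Ch S w s a).sc.r d (S.M.α e)) = decide ((Ch S w s a).sc.r d e) :=
          decide_eq_decide.2 (scα (S := Ch S w s a) he d)
        show (decide ((Ch S w s a).sc.r d (S.M.α e)) && _) = _
        rw [a1]
        by_cases h2 : (Ch S w s a).sc.r d e
        · congr 1
          refine decide_eq_decide.2 (scα ?_ d)
          by_contra h3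
          have := (hr e h2).2 (by simpa using h3)
          rw [he] at this
          exact absurd this (by decide)
        · rw [decide_eq_false h2]; rfl
    have h3 := h1 _ key
    beta_reduce at h3
    rw [decide_eq_true ((Ch S w s a).sc.iseqv.refl d), decide_eq_true (S.sc.iseqv.refl d)] at h3
    have h4 : (decide ((Ch S w s a).sc.r d e) && decide (S.sc.r d e)) = true := h3.symm
    rw [Bool.and_eq_true] at h4
    exact of_decide_eq_true h4.2

/-- the face of the chord -/
theorem Cp.face2 {k : D} (hk : s (S.M.v k) ≠ s (S.M.v (S.M.α k)))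
    (hd : ¬ (Ch S w s a).sc.r k (S.M.α a)) :
    (∀ e, (Ch S w s a).sc.r (S.M.α a) e → e ≠ S.M.α a → chu S w s a e = S.u e) ∧
    (∀ e, (Ch S w s a).sc.r (S.M.α a) e → e ≠ S.M.α a →
      ((Ch S w s a).real e = true ↔ S.real e = true)) ∧
    ∀ e, ¬ Fp S a e → (S.sc.r a e ↔ (Ch S w s a).sc.r (S.M.α a) e) := by
  classical
  have ra' : S.real (S.M.α a) = false := by rw [W.real_α]; exact C.ra
  have off := fun e he => C.off W hT hF hk (d := S.M.α a) (e := e) hd he
  have nea : ∀ e, (Ch S w s a).sc.r (S.M.α a) e → e ≠ a := fun e he h0 =>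
    (off e he).2.2.1 (Or.inl h0)
  have hr : ∀ e, (Ch S w s a).sc.r (S.M.α a) e → e ≠ S.M.α a →
      ((Ch S w s a).real e = true ↔ S.real e = true) := by
    intro e he n2
    have n1 := nea e he
    obtain ⟨o1, o2, -, -⟩ := off e he
    constructor
    · intro h1
      rcases (Ch_real W C).1 h1 with h1 | h1 | h1
      · exact h1.1
      · exact absurd h1 n1
      · exact absurd h1 n2
    · intro h1
      exact (Ch_real W C).2 (Or.inl ⟨h1, o1, o2⟩)
  refine ⟨fun e he n2 => ?_, hr, fun e hq => ⟨fun h1 => ?_, fun h1 => ?_⟩⟩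
  · obtain ⟨o1, o2, o3, o4⟩ := off e he
    rw [C.chu_o W n2 (fun h0 => o3 (Or.inr (Or.inl h0))) o4, sd_u W o1, if_neg, add_zero]
    rintro ⟨-, h0⟩
    exact h0 o2
  · have key : S.Cl (fun e => decide (Fp S a e) || decide ((Ch S w s a).sc.r (S.M.α a) e)) := by
      refine ⟨fun e => ?_, fun e he => ?_⟩
      · beta_reduce
        congr 1
        · exact decide_eq_decide.2 fp_φ
        · exact decide_eq_decide.2 (scφ (S := Ch S w s a) _ e)
      · have fwd : ∀ e, S.real e = false → (Fp S a e ∨ (Ch S w s a).sc.r (S.M.α a) e) →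
            (Fp S a (S.M.α e) ∨ (Ch S w s a).sc.r (S.M.α a) (S.M.α e)) := by
          intro e he h2
          rcases h2 with (h2 | h2 | h2) | h2
          · rw [h2]; exact Or.inr ((Ch S w s a).sc.iseqv.refl _)
          · rw [h2, C.rb] at he; exact absurd he (by decide)
          · rw [h2, C.rb'] at he; exact absurd he (by decide)
          · by_cases h3 : e = S.M.α a
            · rw [h3, S.M.αα]; exact Or.inl (Or.inl rfl)
            · right
              refine (scα (S := Ch S w s a) ?_ _).2 h2
              by_contra h4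
              have := (hr e h2 h3).1 (by simpa using h4)
              rw [he] at this
              exact absurd this (by decide)
        have h3 : (Fp S a (S.M.α e) ∨ (Ch S w s a).sc.r (S.M.α a) (S.M.α e)) ↔
            (Fp S a e ∨ (Ch S w s a).sc.r (S.M.α a) e) := by
          refine ⟨fun h4 => ?_, fwd e he⟩
          have := fwd (S.M.α e) (by rw [W.real_α]; exact he) h4
          rwa [S.M.αα] at this
        beta_reduce
        rw [← Bool.decide_or, ← Bool.decide_or]
        exact decide_eq_decide.2 h3
    have h2 := h1 _ key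
    beta_reduce at h2
    rw [decide_eq_true (show Fp S a a from Or.inl rfl), decide_eq_false hq] at h2
    simpa using h2.symm
  · have key : (Ch S w s a).Cl (fun e => decide ((Ch S w s a).sc.r (S.M.α a) e) &&
        decide (S.sc.r a e)) := by
      refine ⟨fun e => ?_, fun e he => ?_⟩
      · beta_reduce
        congr 1
        · exact decide_eq_decide.2 (scφ (S := Ch S w s a) _ e)
        · exact decide_eq_decide.2 (scφ a e)
      · beta_reduce
        have a1 : decide ((Ch S w s a).sc.r (S.M.α a) (S.M.α e)) =
            decide ((Ch S w s a).sc.r (S.M.α a) e) :=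
          decide_eq_decide.2 (scα (S := Ch S w s a) he _)
        show (decide ((Ch S w s a).sc.r (S.M.α a) (S.M.α e)) && _) = _
        rw [a1]
        by_cases h2 : (Ch S w s a).sc.r (S.M.α a) e
        · congr 1
          refine decide_eq_decide.2 (scα ?_ a)
          by_cases h3 : e = S.M.α a
          · rw [h3]; exact ra'
          · by_contra h4
            have := (hr e h2 h3).2 (by simpa using h4)
            rw [he] at this
            exact absurd this (by decide)
        · rw [decide_eq_false h2]; rfl
    have h3 := h1 _ key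
    beta_reduce at h3
    rw [decide_eq_true ((Ch S w s a).sc.iseqv.refl _),
      decide_eq_true ((scα C.ra a).2 (S.sc.iseqv.refl a))] at h3
    have h4 : (decide ((Ch S w s a).sc.r (S.M.α a) e) && decide (S.sc.r a e)) = true := h3.symm
    rw [Bool.and_eq_true] at h4
    exact of_decide_eq_true h4.2

end

end Pool.FC7
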