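import Pool.Agent.FC7.Q5E

/-! # The chord state has a solution -/

open Finset

set_option linter.unusedSectionVars false

namespace Pool.FC7

open Pool.FC6 Pool.FC6.St

variable {D V : Type} [Fintype D] [DecidableEq V] {S : St D V} {L : D → Bool} {w : D → ℕ} {Δ : ℕ}

/-- the hypotheses on the chord -/
structure Chy (S : St D V) (s : V → Bool) (a k3 k4 : D) : Prop extends Cp S s a where
  ur : ∀ d, S.u d ≠ 0 → S.real d = true
  uy : S.u (S.M.φ (S.M.φ a)) = 0
  h4 : S.rc s = 4
  hT : ConS S.M s true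
  hF : ConS S.M s false
  hn : ∀ r, S.real r = true → S.M.v r = S.M.v a → S.M.v (S.M.α r) ≠ S.M.v (S.M.α a)
  hmin : ∀ T : V → Bool, (∀ x, T x = true → s x = true) → T (S.M.v a) = true →
    T (S.M.v (S.M.α a)) = true → (∃ x ∈ S.A, s x = true ∧ T x = false) → 5 ≤ S.rc T
  htw : 3 ≤ fu S a ∨ ∀ e e', S.sc.r a e → S.sc.r a e' → S.M.v e = S.M.v (S.M.α a) →
    S.M.v e' = S.M.v a → S.u e ≠ 0 → S.u e' ≠ 0 → False
  K3 : k3 ∈ kc S s
  K4 : k4 ∈ kc S s
  n31 : k3 ≠ S.M.φ a
  n32 : k3 ≠ S.M.α (S.M.φ (S.M.φ a))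
  n41 : k4 ≠ S.M.φ a
  n42 : k4 ≠ S.M.α (S.M.φ (S.M.φ a))
  n34 : S.M.v k3 ≠ S.M.v k4
  a34 : ∀ r, S.real r = true → S.M.v r = S.M.v k3 → S.M.v (S.M.α r) ≠ S.M.v k4
  c34 : ¬ (S.M.v k3 = S.M.v a ∧ S.M.v k4 = S.M.v (S.M.α a))
  c43 : ¬ (S.M.v k3 = S.M.v (S.M.α a) ∧ S.M.v k4 = S.M.v a)

section

variable {s : V → Bool} {a k3 k4 : D} (W : Wf Δ S L w) (H : Chy S s a k3 k4)

include W H

theorem Chy.vaA : S.M.v a ∈ S.A ∧ S.M.v (S.M.α a) ∈ S.A := by
  refine ⟨?_, ?_⟩
  · rw [← S.M.vφ2 a]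
    exact W.real_A _ (by rw [W.real_α]; exact H.rb')
  · rw [← S.M.vφ a]
    exact W.real_A _ H.rb

/-- a unit of the hole -/
theorem Chy.uk {k : D} (hk : k ∈ kc S s) (n1 : k ≠ S.M.φ a) (n2 : k ≠ S.M.α (S.M.φ (S.M.φ a))) :
    chu S w s a k ≠ 0 := by
  have C := H.toCp
  obtain ⟨m1, m2, m3⟩ := mem_kc.1 hk
  have n3 : k ≠ S.M.α a := fun h0 => by
    rw [h0, W.real_α, C.ra] at m1; exact absurd m1 (by decide)
  rw [C.chu_o W n3 n1 n2, sd_u W m2, if_pos ⟨m1, by rw [m3]; decide⟩]
  omega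

/-- the chord state is well formed -/
theorem Chy.wf (hex : ∃ d, (S.del (S.A.filter fun y => s y ≠ true)).real d = true) :
    Wf Δ (Ch S w s a) (sdL S L s true) (dw S w (S.A.filter fun y => s y ≠ true)) := by
  classical
  have C := H.toCp
  have W1 := W.dl hex
  obtain ⟨vA, vA'⟩ := H.vaA W
  have hrd := fun d => Ch_real (w := w) W C (d := d)
  have sdW : ∀ d, (sd S w s true).real d = true → (Ch S w s a).real d = true := fun d h => wE_of h
  exact
    { real_α := fun d => by
        have : (Ch S w s a).real (S.M.α d) = true ↔ (Ch S w s a).real d = true := by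
          rw [hrd, hrd, W.real_α, S.M.αα]
          constructor
          · rintro (h1 | h1 | h1)
            · exact Or.inl ⟨h1.1, h1.2.2, h1.2.1⟩
            · exact Or.inr (Or.inr (by rw [← h1, S.M.αα]))
            · exact Or.inr (Or.inl (S.M.αinj h1))
          · rintro (h1 | h1 | h1)
            · exact Or.inl ⟨h1.1, h1.2.2, h1.2.1⟩
            · exact Or.inr (Or.inr (by rw [h1]))
            · exact Or.inr (Or.inl (by rw [h1, S.M.αα]))
        show (Ch S w s a).real (S.M.α d) = (Ch S w s a).real d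
        cases h1 : (Ch S w s a).real d
        · cases h2 : (Ch S w s a).real (S.M.α d)
          · rfl
          · rw [this.1 h2] at h1
            exact absurd h1 (by decide)
        · exact this.2 h1
      real_A := fun d hd => by
        show S.M.v d ∈ (sd S w s true).A
        rcases (hrd d).1 hd with h1 | h1 | h1
        · exact sd_A.2 ⟨W.real_A d h1.1, h1.2.1⟩
        · rw [h1]; exact sd_A.2 ⟨vA, C.sa⟩
        · rw [h1]; exact sd_A.2 ⟨vA', C.sa'⟩
      real_ne := fun d hd => by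
        show S.M.v d ≠ S.M.v (S.M.α d)
        rcases (hrd d).1 hd with h1 | h1 | h1
        · exact W.real_ne d h1.1
        · rw [h1]; exact C.ne
        · rw [h1, S.M.αα]; exact C.ne.symm
      A_im := W1.A_im
      u_A := fun d hd => by
        have hd : chu S w s a d ≠ 0 := hd
        show S.M.v d ∈ (sd S w s true).A
        by_cases c1 : d = S.M.α a
        · rw [c1]; exact sd_A.2 ⟨vA', C.sa'⟩
        by_cases c2 : d = S.M.φ a
        · rw [c2, C.chu_1 W] at hd
          exact absurd rfl hd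
        by_cases c3 : d = S.M.α (S.M.φ (S.M.φ a))
        · rw [c3, C.chu_2 W] at hd
          exact absurd rfl hd
        rw [C.chu_o W c1 c2 c3] at hd
        exact W1.u_A d hd
      L_real := fun d hd => sdW d (W1.L_real d hd)
      L_α := W1.L_α
      w_L := W1.w_L
      w_α := W1.w_α
      deg := fun x hx => C.deg W H.ur hx
      simple := fun d e hd he h1 h2 => by
        have h1 : S.M.v d = S.M.v e := h1
        have h2 : S.M.v (S.M.α d) = S.M.v (S.M.α e) := h2
        have key : ∀ {d e}, S.real d = true → (e = a ∨ e = S.M.α a) → S.M.v d = S.M.v e →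
            S.M.v (S.M.α d) = S.M.v (S.M.α e) → False := by
          rintro d e h3 (rfl | rfl) h4 h5
          · exact H.hn d h3 h4 h5
          · rw [S.M.αα] at h5
            exact H.hn (S.M.α d) (by rw [W.real_α]; exact h3) h5 (by rw [S.M.αα]; exact h4)
        rcases (hrd d).1 hd with h3 | h3
        · rcases (hrd e).1 he with h4 | h4
          · exact W.simple d e h3.1 h4.1 h1 h2
          · exact absurd (key h3.1 h4 h1 h2) id
        · rcases (hrd e).1 he with h4 | h4
          · exact absurd (key h4.1 h3 h1.symm h2.symm) id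
          · rcases h3 with rfl | rfl <;> rcases h4 with rfl | rfl
            · rfl
            · exact absurd h1 C.ne
            · exact absurd h1.symm C.ne
            · rfl
      ex := by
        obtain ⟨d, hd⟩ := hex
        exact ⟨d, sdW d hd⟩ }

/-- the units of the face of the chord -/
theorem Chy.fu2 (hd : ¬ (Ch S w s a).sc.r k3 (S.M.α a)) : fu (Ch S w s a) (S.M.α a) = fu S a := by
  classical
  have C := H.toCp
  have ra' : S.real (S.M.α a) = false := by rw [W.real_α]; exact C.ra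
  have u0 : ∀ d, S.real d = false → S.u d = 0 := fun d hd => by
    by_contra hn
    rw [H.ur d hn] at hd
    exact absurd hd (by decide)
  obtain ⟨F1, F2, F3⟩ := C.face2 W H.hT H.hF (mix_kc H.K3) hd
  have hN := C.ne_a W
  have off := fun e he => C.off W H.hT H.hF (mix_kc H.K3) (d := S.M.α a) (e := e) hd he
  have q0 : ¬ Fp S a (S.M.α a) := C.nα W (Or.inl rfl)
  unfold fu
  rw [← Equiv.sum_comp (Equiv.swap (S.M.α a) (S.M.φ a)) (fun e => if S.sc.r a e then S.u e else 0)]
  refine Finset.sum_congr rfl fun e _ => ?_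
  show (if (Ch S w s a).sc.r (S.M.α a) e then chu S w s a e else 0) = _
  by_cases c1 : e = S.M.α a
  · rw [c1, Equiv.swap_apply_left, if_pos ((Ch S w s a).sc.iseqv.refl _), C.chu_α W,
      if_pos ((scφ a a).2 (S.sc.iseqv.refl a))]
  by_cases c2 : e = S.M.φ a
  · rw [c2, Equiv.swap_apply_right, C.chu_1 W, ite_self, u0 _ ra', ite_self]
  · rw [Equiv.swap_apply_of_ne_of_ne c1 c2]
    by_cases c3 : e = a
    · rw [c3, if_neg fun h0 => (off _ h0).2.2.1 (Or.inl rfl), u0 a C.ra, ite_self]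
    by_cases c4 : e = S.M.φ (S.M.φ a)
    · rw [c4, if_neg fun h0 => (off _ h0).2.2.1 (Or.inr (Or.inr rfl)), H.uy, ite_self]
    have hq : ¬ Fp S a e := by
      rintro (h0 | h0 | h0)
      · exact c3 h0
      · exact c2 h0
      · exact c4 h0
    by_cases c5 : (Ch S w s a).sc.r (S.M.α a) e
    · rw [if_pos c5, if_pos ((F3 e hq).2 c5), F1 e c5 c1]
    · rw [if_neg c5, if_neg fun h0 => c5 ((F3 e hq).1 h0)]

/-- the faces with units -/
theorem Chy.thr (thr : ∀ d, S.u d ≠ 0 → 3 ≤ fu S d ∨ Two S d) (d : D)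
    (hu : (Ch S w s a).u d ≠ 0) : 3 ≤ fu (Ch S w s a) d ∨ Two (Ch S w s a) d := by
  classical
  have C := H.toCp
  have ra' : S.real (S.M.α a) = false := by rw [W.real_α]; exact C.ra
  have u0 : ∀ d, S.real d = false → S.u d = 0 := fun d hd => by
    by_contra hn
    rw [H.ur d hn] at hd
    exact absurd hd (by decide)
  have hu : chu S w s a d ≠ 0 := hu
  by_cases c1 : (Ch S w s a).sc.r k3 d
  · -- the hole
    right
    have hT2 : Two (Ch S w s a) k3 := by
      refine ⟨k3, k4, (Ch S w s a).sc.iseqv.refl _, C.hole W H.hT H.hF (mix_kc H.K3)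
        (Or.inl (mix_kc H.K4)), H.uk W H.K3 H.n31 H.n32, H.uk W H.K4 H.n41 H.n42, H.n34,
        fun r hr _ => ?_⟩
      rcases (Ch_real W C).1 hr with h1 | h1 | h1
      · refine ⟨fun h2 => H.a34 r h1.1 h2.1 h2.2, fun h2 => H.a34 (S.M.α r)
          (by rw [W.real_α]; exact h1.1) h2.2 ?_⟩
        rw [S.M.αα]; exact h2.1
      · rw [h1]
        refine ⟨fun h2 => H.c34 ⟨h2.1.symm, h2.2.symm⟩, fun h2 => H.c43 ⟨h2.2.symm, h2.1.symm⟩⟩
      · rw [h1]
        have e1 : S.M.v (S.M.α (S.M.α a)) = S.M.v a := by rw [S.M.αα]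
        exact ⟨fun h2 => H.c43 ⟨h2.1.symm,
            (show S.M.v (S.M.α (S.M.α a)) = S.M.v k4 from h2.2).symm.trans e1⟩,
          fun h2 => H.c34 ⟨(show S.M.v (S.M.α (S.M.α a)) = S.M.v k3 from h2.2).symm.trans e1,
            h2.1.symm⟩⟩
    exact hT2.congr c1
  by_cases c2 : (Ch S w s a).sc.r d (S.M.α a)
  · -- the face of the chord
    have c3 : ¬ (Ch S w s a).sc.r k3 (S.M.α a) := fun h0 => c1 ((Ch S w s a).sc.iseqv.trans h0
      ((Ch S w s a).sc.iseqv.symm c2))
    have c2' := (Ch S w s a).sc.iseqv.symm c2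
    obtain ⟨F1, F2, F3⟩ := C.face2 W H.hT H.hF (mix_kc H.K3) c3
    have off := fun e he => C.off W H.hT H.hF (mix_kc H.K3) (d := S.M.α a) (e := e) c3 he
    rw [← fu_congr c2', H.fu2 W c3]
    have hq : ¬ Fp S a d := (off d c2').2.2.1
    -- the face has units in `S`
    have hS : 3 ≤ fu S a ∨ Two S a := by
      by_cases c4 : d = S.M.α a
      · rw [c4, C.chu_α W] at hu
        have h1 : S.sc.r (S.M.φ a) a := S.sc.iseqv.symm ((scφ a a).2 (S.sc.iseqv.refl a))
        rcases thr _ hu with h2 | h2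
        · left; rw [← fu_congr h1]; exact h2
        · exact Or.inr (h2.congr h1)
      · rw [F1 d c2' c4] at hu
        have h1 := S.sc.iseqv.symm ((F3 d hq).2 c2')
        rcases thr _ hu with h2 | h2
        · left; rw [← fu_congr h1]; exact h2
        · exact Or.inr (h2.congr h1)
    rcases hS with hS | hS
    · exact Or.inl hS
    by_cases c5 : 3 ≤ fu S a
    · exact Or.inl c5
    right
    obtain ⟨e, e', h1, h2, h3, h4, h5, h6⟩ := hS
    have htw := H.htw.resolve_left c5
    -- the dart which carries the unit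
    have car : ∀ e, S.sc.r a e → S.u e ≠ 0 → ∃ f, (Ch S w s a).sc.r (S.M.α a) f ∧
        chu S w s a f ≠ 0 ∧ S.M.v f = S.M.v e := by
      intro e he hu
      by_cases k1 : e = S.M.φ a
      · refine ⟨S.M.α a, (Ch S w s a).sc.iseqv.refl _, ?_, by rw [k1, S.M.vφ]⟩
        rw [C.chu_α W, ← k1]; exact hu
      · have k2 : ¬ Fp S a e := by
          rintro (h0 | h0 | h0)
          · rw [h0] at hu; exact hu (u0 a C.ra)
          · exact k1 h0
          · rw [h0] at hu; exact hu H.uy
        have k3 := (F3 e k2).1 he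
        refine ⟨e, k3, ?_, rfl⟩
        rw [F1 e k3 (fun h0 => hu (by rw [h0]; exact u0 _ ra'))]
        exact hu
    obtain ⟨f, f1, f2, f3⟩ := car e h1 h3
    obtain ⟨f', f1', f2', f3'⟩ := car e' h2 h4
    have key : Two (Ch S w s a) (S.M.α a) := by
      refine ⟨f, f', f1, f1', f2, f2', ?_, fun r hr hs => ?_⟩
      · show S.M.v f ≠ S.M.v f'
        rw [f3, f3']; exact h5
      · show ¬ (S.M.v r = S.M.v f ∧ S.M.v (S.M.α r) = S.M.v f') ∧
          ¬ (S.M.v r = S.M.v f' ∧ S.M.v (S.M.α r) = S.M.v f)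
        rw [f3, f3']
        by_cases k1 : r = S.M.α a
        · rw [k1, S.M.αα]
          exact ⟨fun h0 => htw e e' h1 h2 h0.1.symm h0.2.symm h3 h4,
            fun h0 => htw e' e h2 h1 h0.1.symm h0.2.symm h4 h3⟩
        · exact h6 r ((F2 r hs k1).1 hr) ((F3 r (off r hs).2.2.1).2 hs)
    exact key.congr c2'
  · -- the other faces
    obtain ⟨F1, F2, F3⟩ := C.face1 W H.hT H.hF (mix_kc H.K3) c1 c2
    rw [F1 d ((Ch S w s a).sc.iseqv.refl d)] at hu
    rcases thr d hu with h1 | ⟨e, e', h1, h2, h3, h4, h5, h6⟩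
    · left
      refine le_trans h1 (le_of_eq ?_)
      unfold fu
      refine Finset.sum_congr rfl fun e _ => ?_
      by_cases h2 : S.sc.r d e
      · rw [if_pos h2, if_pos ((F3 e).1 h2)]
        exact (F1 e ((F3 e).1 h2)).symm
      · rw [if_neg h2, if_neg (fun h3 => h2 ((F3 e).2 h3))]
    · right
      refine ⟨e, e', (F3 e).1 h1, (F3 e').1 h2, ?_, ?_, h5, fun r hr hs => ?_⟩
      · show chu S w s a e ≠ 0
        rw [F1 e ((F3 e).1 h1)]; exact h3
      · show chu S w s a e' ≠ 0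
        rw [F1 e' ((F3 e').1 h2)]; exact h4
      · exact h6 r ((F2 r hs).1 hr) ((F3 r).2 hs)

/-- the chord state has a solution -/
theorem Chy.ex (hΔ : Δ ≤ 6) (h : MC Δ S L w) (h2 : S.Two s true) :
    ∃ cb, Sol (Ch S w s a) (sdL S L s true) cb ∧
      Vi (Ch S w s a) cb (S.M.α (S.M.φ (S.M.φ a))) ∧
      Sol (sd S w s true) (sdL S L s true) cb := by
  classical
  have C := H.toCp
  have rA := W.real_A
  have rα := W.real_α
  obtain ⟨vA, vA'⟩ := H.vaA W
  have hyA : S.M.v (S.M.φ (S.M.φ a)) ∈ S.A := rA _ C.rb'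
  have hex : ∃ d, (S.del (S.A.filter fun y => s y ≠ true)).real d = true := by
    obtain ⟨d, hd⟩ := h.inner hΔ (by rw [H.h4]; omega) h2
    exact ⟨d, (sd_real (w := w) rA rα).2 hd⟩
  have wf := H.wf W hex
  have hcut : ∀ T : V → Bool, (∃ x ∈ (Ch S w s a).A, T x = true) →
      (∃ x ∈ (Ch S w s a).A, T x = false) → 3 ≤ (Ch S w s a).rc T ∧ 1 ≤ (sd S w s true).rc T := by
    rintro T ⟨x, hx, hxT⟩ ⟨y, hy, hyT⟩
    have hx' := (sd_A (w := w)).1 hx
    have hy' := (sd_A (w := w)).1 hy
    exact C.rc_ge W hΔ h H.h4 H.hmin ⟨x, hx'.1, hx'.2, hxT⟩ ⟨y, hy'.1, hy'.2, hyT⟩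
  have ok : Ok Δ (Ch S w s a) (sdL S L s true) (dw S w (S.A.filter fun y => s y ≠ true)) :=
    ok_of_rc wf (fun T h1 h2 => (hcut T h1 h2).1) (H.thr W h.ok.thr)
  have hmu : mu Δ (Ch S w s a) (sdL S L s true) < mu Δ S L := by
    apply mu_lt_n4
    have e1 : n4 S = S.A.card := by
      unfold n4
      rw [Finset.filter_true_of_mem fun x hx => h.rdeg4 hΔ hx]
    rw [e1]
    refine lt_of_le_of_lt (Finset.card_le_card (Finset.filter_subset _ _))
      (Finset.card_lt_card ⟨fun x hx => ((sd_A (w := w)).1 hx).1, fun hs => ?_⟩)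
    have := ((sd_A (w := w)).1 (hs hyA)).2
    rw [C.sy] at this
    exact absurd this (by decide)
  obtain ⟨cb, hcb⟩ := h.min D V _ _ _ (h.w1.dl _) ok hmu
  have hvi : Vi (Ch S w s a) cb (S.M.α (S.M.φ (S.M.φ a))) := by
    have h1 := hcb.req k3 (H.uk W H.K3 H.n31 H.n32)
    exact h1.sc (C.hole W H.hT H.hF (mix_kc H.K3) (Or.inl (mix_kc (C.k2 W))))
  refine ⟨cb, hcb, hvi, ?_⟩
  refine wE_sol (S := sd S w s true) (a := a) (u' := chu S w s a) hcb (fun d => ?_)
    (sd_A.2 ⟨vA, C.sa⟩) (sd_A.2 ⟨vA', C.sa'⟩) (fun T h1 h2 => (hcut T h1 h2).2) fun d hd => ?_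
  · exact del_real_α rα _ d
  · -- the units
    have hsd : s (S.M.v d) = true := by
      have hd' : (if S.M.v d ∈ (S.A.filter fun y => s y ≠ true) then 0 else S.u d +
        (if S.real d = true ∧ S.M.v (S.M.α d) ∈ (S.A.filter fun y => s y ≠ true) then
          1 + w d else 0)) ≠ 0 := hd
      by_cases h1 : S.M.v d ∈ S.A.filter fun y => s y ≠ true
      · rw [if_pos h1] at hd'; exact absurd rfl hd'
      · rw [if_neg h1] at hd'
        have hA : S.M.v d ∈ S.A := by
          by_cases h2 : S.u d = 0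
          · by_cases h3 : S.real d = true
            · exact rA d h3
            · rw [h2, if_neg (fun h4 => h3 h4.1)] at hd'
              exact absurd rfl hd'
          · exact W.u_A d h2
        by_contra h2
        exact h1 (Finset.mem_filter.2 ⟨hA, h2⟩)
    have hmx : ∀ e, s (S.M.v e) ≠ s (S.M.v (S.M.α e)) → (sd S w s true).sc.r k3 e := by
      intro e he t ht
      have hr : ∀ e, s (S.M.v e) ≠ s (S.M.v (S.M.α e)) → (sd S w s true).real e = false :=
        fun e he => sd_virt rA rα he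
      let g : D → ℝ := fun e => if t e = t k3 then 1 else 0
      have gφ : ∀ e, g (S.M.φ e) = g e := fun e => by
        show (if t (S.M.φ e) = t k3 then (1 : ℝ) else 0) = if t e = t k3 then 1 else 0
        rw [show t (S.M.φ e) = t e from ht.1 e]
      have gα : ∀ e, (sd S w s true).real e = false → g (S.M.α e) = g e := fun e he => by
        show (if t (S.M.α e) = t k3 then (1 : ℝ) else 0) = if t e = t k3 then 1 else 0
        rw [show t (S.M.α e) = t e from ht.2 e he]
      have k1 := cut_const S.M H.hT H.hF gφ (fun e he => gα e (hr e he)) he (mix_kc H.K3)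
      by_contra hn
      have a1 : g e = 0 := if_neg fun h0 => hn h0.symm
      have a2 : g k3 = 1 := if_pos rfl
      rw [a1, a2] at k1
      exact zero_ne_one k1
    by_cases c1 : d = S.M.φ a
    · exact ⟨k3, H.uk W H.K3 H.n31 H.n32, by rw [c1]; exact hmx _ (mix_kc (C.k1 W))⟩
    by_cases c2 : d = S.M.α (S.M.φ (S.M.φ a))
    · exact ⟨k3, H.uk W H.K3 H.n31 H.n32, by rw [c2]; exact hmx _ (mix_kc (C.k2 W))⟩
    have c3 : d ≠ S.M.α a := fun h0 => by
      have ra' : S.real (S.M.α a) = false := by rw [rα]; exact C.ra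
      apply hd
      rw [sd_u W hsd, h0, if_neg (fun h1 => by rw [ra'] at h1; exact absurd h1.1 (by decide))]
      by_contra hn
      have : S.u (S.M.α a) ≠ 0 := by omega
      rw [H.ur _ this] at ra'
      exact absurd ra' (by decide)
    refine ⟨d, ?_, (sd S w s true).sc.iseqv.refl d⟩
    rw [C.chu_o W c3 c1 c2]
    exact hd

end

end Pool.FC7
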