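import Pool.Agent.FC7.Q5H
import Pool.Agent.FC7.FtA

/-! # The chord in the star form -/

open Finset

set_option linter.unusedSectionVars false

namespace Pool.FC7

open Pool.FC6 Pool.FC6.St

variable {D V : Type} [Fintype D] [DecidableEq V] {S : St D V} {L : D → Bool} {w : D → ℕ} {Δ : ℕ}
  {U : V → Prop}

/-- the gap corner at `v t` between `t` and `σ (σ t)` -/
structure Gco (S : St D V) (t : D) : Prop where
  r : S.real t = true
  h : S.real (S.M.σ t) = false
  r2 : S.real (S.M.σ (S.M.σ t)) = true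
  u : S.u (S.M.σ (S.M.σ t)) = 0
  two : ¬ (fu S (S.M.σ (S.M.σ t)) = 2 ∧ S.u (S.M.α t) ≠ 0 ∧
    S.u (S.M.σ (S.M.σ (S.M.α (S.M.σ (S.M.σ t))))) ≠ 0)

/-- a bound for the real degree -/
theorem rdeg_le_iter {n : ℕ} (hn : 0 < n) {y : D} (h : S.M.σ^[n] y = y) :
    S.rdeg (S.M.v y) ≤ ((Finset.range n).filter fun i => S.real (S.M.σ^[i] y) = true).card := by
  classical
  have h2 : S.rdeg (S.M.v y) = (Finset.univ.filter fun d => S.M.v d = S.M.v y ∧
      S.real d = true).card := by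
    rw [Finset.card_filter]
    rfl
  rw [h2]
  refine le_trans (Finset.card_le_card (t := ((Finset.range n).filter fun i =>
    S.real (S.M.σ^[i] y) = true).image fun i => S.M.σ^[i] y) fun d hd => ?_)
    Finset.card_image_le
  obtain ⟨hd1, hd2⟩ := (Finset.mem_filter.1 hd).2
  obtain ⟨m, hm⟩ := S.M.σ_orbit hd1.symm
  have h3 : S.M.σ^[m % n] y = d := by
    rw [← hm]
    conv_rhs => rw [← Nat.mod_add_div m n, Function.iterate_add_apply]
    congr 1
    rw [Function.iterate_mul]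
    exact (Function.iterate_fixed h _).symm
  rw [Finset.mem_image]
  refine ⟨m % n, Finset.mem_filter.2 ⟨Finset.mem_range.2 (Nat.mod_lt _ hn), ?_⟩, h3⟩
  rw [h3]; exact hd2

/-- the darts at a gap corner -/
theorem MC.gco (hΔ : Δ ≤ 6) (h : MC Δ S L w) (hS : IsStar S) {t : D} (hf : Fc3 S t)
    (G : Gco S t) :
    S.M.σ (S.M.σ t) ≠ t ∧ S.M.σ (S.M.σ (S.M.σ t)) ≠ t ∧
    S.M.v (S.M.α (S.M.σ (S.M.σ t))) ≠ S.M.v (S.M.α t) ∧
    ∀ r, S.real r = true → S.M.v r = S.M.v (S.M.α (S.M.σ (S.M.σ t))) →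
      S.M.v (S.M.α r) ≠ S.M.v (S.M.α t) := by
  classical
  have W := h.ok.toWf
  have hA : S.M.v t ∈ S.A := W.real_A _ G.r
  have h4 := h.rdeg4 hΔ hA
  have n2 : S.M.σ (S.M.σ t) ≠ t := σσ_ne h4
  have n3 : S.M.σ (S.M.σ (S.M.σ t)) ≠ t := by
    intro h0
    have h1 := rdeg_le_iter (S := S) (n := 3) (by norm_num) (y := t) h0
    have h2 := le_trans h1 (Finset.card_filter_le _ _)
    rw [Finset.card_range] at h2
    omega
  have hN := (h.rg hΔ).n2 hS W (by omega) _ hA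
  refine ⟨n2, n3, fun h0 => n2 (hN _ _ (by rw [S.M.vσ, S.M.vσ]) rfl h0), fun r hr h1 h2 => ?_⟩
  have h5 := hf (S.M.σ (S.M.σ t)) (S.M.α r) (by rw [S.M.vσ, S.M.vσ]) h2 (by
    rw [S.M.αα]; exact h1.symm)
  rcases h5 with ⟨h6, -⟩ | ⟨h6, -⟩
  · have := G.h
    rw [← h6, G.r2] at this
    exact absurd this (by decide)
  · exact n3 h6

/-- the dart of the triangle after `σ (σ t)` or before `t` -/
def Fd (S : St D V) (t : D) (b : Bool) : D := if b then S.M.α (S.M.σ (S.M.σ t)) else t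

/-- the exceptional positions of the two other cut edges -/
def GeoP (S : St D V) (t : D) (b : Bool) : Prop :=
  ∀ (s : V → Bool) (k3 k4 : D), S.rc s = 4 → S.Two s false → S.M.α t ∈ kc S s →
    S.M.α (S.M.σ (S.M.σ t)) ∈ kc S s → k3 ∈ kc S s → k4 ∈ kc S s →
    S.M.α t ≠ S.M.α (S.M.σ (S.M.σ t)) → k3 ≠ S.M.α t → k3 ≠ S.M.α (S.M.σ (S.M.σ t)) →
    k4 ≠ S.M.α t → k4 ≠ S.M.α (S.M.σ (S.M.σ t)) → k3 ≠ k4 →
    Fp S (Fd S t b) (if b then S.M.α k3 else k3) →
    S.M.v k3 ≠ S.M.v k4 ∧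
    (∀ r, S.real r = true → S.M.v r = S.M.v k3 → S.M.v (S.M.α r) ≠ S.M.v k4) ∧
    ¬ (S.M.v k3 = S.M.v (S.M.α (S.M.σ (S.M.σ t))) ∧ S.M.v k4 = S.M.v (S.M.α t)) ∧
    ¬ (S.M.v k3 = S.M.v (S.M.α t) ∧ S.M.v k4 = S.M.v (S.M.α (S.M.σ (S.M.σ t))))

/-- the two neighbours of the gap corner are on the side `true`, `v t` on the side `false` -/
structure Sid (S : St D V) (s : V → Bool) (t : D) : Prop where
  h4 : S.rc s = 4
  h2 : S.Two s false
  s1 : s (S.M.v (S.M.α t)) = true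
  s2 : s (S.M.v (S.M.α (S.M.σ (S.M.σ t)))) = true
  sy : s (S.M.v t) = false

/-- the third cut edge, in the triangle after `σ (σ t)` (`b = true`) or in the triangle before `t` -/
structure Thr (S : St D V) (s : V → Bool) (t k3 : D) (b : Bool) : Prop where
  k : k3 ∈ kc S s
  n1 : k3 ≠ S.M.α t
  n2 : k3 ≠ S.M.α (S.M.σ (S.M.σ t))
  f : Fp S (Fd S t b) (if b then S.M.α k3 else k3)

/-- the third cut edge exists -/
theorem thr_ex (W : Wf Δ S L w) {s : V → Bool} {t : D} (X : Sid S s t)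
    (n3 : S.M.σ (S.M.σ (S.M.σ t)) ≠ t)
    (n12 : S.M.v (S.M.α (S.M.σ (S.M.σ t))) ≠ S.M.v (S.M.α t)) {b : Bool}
    (F : ∀ d, Fp S (Fd S t b) d → S.real d = true) : ∃ k3, Thr S s t k3 b := by
  classical
  have rα := W.real_α
  cases b
  · have hd : ∀ d, Fp S t d → S.real d = true := F
    have na := fp_α W.real_ne (t := t) (d := t) hd (Or.inl rfl)
    cases hz : s (S.M.v (S.M.φ (S.M.φ t)))
    · refine ⟨S.M.φ t, mem_kc.2 ⟨?_, ?_, ?_⟩, fun h0 => ?_, fun h0 => ?_, Or.inr (Or.inl rfl)⟩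
      · exact hd _ (Or.inr (Or.inl rfl))
      · rw [S.M.vφ]; exact X.s1
      · rw [← S.M.vφ]; exact hz
      · exact na (Or.inr (Or.inl h0.symm))
      · apply n12
        rw [← h0, S.M.vφ]
    · refine ⟨S.M.φ (S.M.φ t), mem_kc.2 ⟨?_, ?_, ?_⟩, fun h0 => ?_, fun h0 => ?_,
        Or.inr (Or.inr rfl)⟩
      · exact hd _ (Or.inr (Or.inr rfl))
      · exact hz
      · rw [S.M.vφ2]; exact X.sy
      · exact na (Or.inr (Or.inr h0.symm))
      · apply n3
        have h1 : S.M.α (S.M.φ (S.M.φ t)) = S.M.σ (S.M.σ t) := by rw [h0, S.M.αα]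
        rw [← h1]
        exact S.M.σρ t
  · obtain ⟨k2, hk2⟩ : ∃ k2, k2 = S.M.α (S.M.σ (S.M.σ t)) := ⟨_, rfl⟩
    have hc : ∀ d, Fp S k2 d → S.real d = true := by rw [hk2]; exact F
    have hα2 : S.M.α k2 = S.M.σ (S.M.σ t) := by rw [hk2, S.M.αα]
    have hφ2 : S.M.φ k2 = S.M.σ (S.M.σ (S.M.σ t)) := by rw [hk2]; rfl
    have vk2 : s (S.M.v k2) = true := by rw [hk2]; exact X.s2
    have vy : s (S.M.v (S.M.α k2)) = false := by rw [hα2, S.M.vσ, S.M.vσ]; exact X.sy
    have key : ∃ k3, k3 ∈ kc S s ∧ k3 ≠ S.M.α t ∧ k3 ≠ k2 ∧ Fp S k2 (S.M.α k3) := by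
      have na := fp_α W.real_ne (t := k2) (d := k2) hc (Or.inl rfl)
      cases hz : s (S.M.v (S.M.φ (S.M.φ k2)))
      · refine ⟨S.M.α (S.M.φ (S.M.φ k2)), mem_kc.2 ⟨?_, ?_, ?_⟩, fun h0 => ?_, fun h0 => ?_, ?_⟩
        · rw [rα]; exact hc _ (Or.inr (Or.inr rfl))
        · rw [S.M.vφ2]; exact vk2
        · rw [S.M.αα]; exact hz
        · apply n12
          rw [← hk2, ← S.M.vφ2 k2, h0]
        · exact na (Or.inr (Or.inr (S.M.αof h0).symm))
        · rw [S.M.αα]; exact Or.inr (Or.inr rfl)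
      · refine ⟨S.M.α (S.M.φ k2), mem_kc.2 ⟨?_, ?_, ?_⟩, fun h0 => ?_, fun h0 => ?_, ?_⟩
        · rw [rα]; exact hc _ (Or.inr (Or.inl rfl))
        · rw [← S.M.vφ]; exact hz
        · rw [S.M.αα, S.M.vφ]; exact vy
        · apply n3
          rw [← hφ2]
          exact S.M.αinj h0
        · exact na (Or.inr (Or.inl (S.M.αof h0).symm))
        · rw [S.M.αα]; exact Or.inr (Or.inl rfl)
    obtain ⟨k3, a1, a2, a3, a4⟩ := key
    rw [hk2] at a3 a4
    exact ⟨k3, a1, a2, a3, a4⟩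

theorem kc_sim {S' : St D V} (hs : Sim S S') (s : V → Bool) : kc S' s = kc S s := by
  ext d
  rw [mem_kc, mem_kc, hs.hr]
  constructor
  · rintro ⟨h1, h2, h3⟩
    rw [hs.hv d h1] at h2
    rw [hs.hvα h1] at h3
    exact ⟨h1, h2, h3⟩
  · rintro ⟨h1, h2, h3⟩
    rw [← hs.hv d h1] at h2
    rw [← hs.hvα h1] at h3
    exact ⟨h1, h2, h3⟩

/-- the chord in the flipped state -/
theorem MC.to_chy (hΔ : Δ ≤ 6) (h : MC Δ S L w) (hS : IsStar S) {t : D} (hf : Fc3 S t)
    (G : Gco S t) {b : Bool} (hg : GeoP S t b) {s : V → Bool} (X : Sid S s t)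
    (F : ∀ d, Fp S (Fd S t b) d → S.real d = true) :
    ∃ (S' : St D V) (s0 : V → Bool) (k3 k4 : D), Sim S S' ∧ MC Δ S' L w ∧
      S'.M.φ (S.M.σ t) = S.M.α t ∧ S'.M.φ (S.M.α t) = S.M.σ (S.M.σ t) ∧
      (∀ d, (∀ e, Fp S d e → S.real e = true) → S'.M.φ d = S.M.φ d) ∧
      Chy S' s0 (S.M.σ t) k3 k4 ∧ k3 ≠ k4 ∧ S'.Two s0 true ∧ S'.Two s0 false ∧
      (∀ x ∈ S.A, s0 x = true → s x = true) ∧ Sid S s0 t ∧ Thr S s0 t k3 b := by
  classical
  have W := h.ok.toWf
  have rα := W.real_α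
  have rA := W.real_A
  obtain ⟨n2, n3, n12, nadj⟩ := h.gco hΔ hS hf G
  obtain ⟨S', hs, p1, p2, q1, q2, pφ⟩ := flip_ex hS W G.r G.h
  have h' := h.sim hΔ hs
  have Ay : S.M.v t ∈ S.A := rA _ G.r
  have A1 : S.M.v (S.M.α t) ∈ S.A := rA _ (by rw [rα]; exact G.r)
  have A2 : S.M.v (S.M.α (S.M.σ (S.M.σ t))) ∈ S.A := rA _ (by rw [rα]; exact G.r2)
  have hAA : S'.A = S.A := hs.hA
  obtain ⟨s0, a1, a2, a3, a4, a5, a6, a7, a8⟩ := h'.pick hΔ (s := s) (by rw [hs.rc]; exact X.h4)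
    (x1 := S.M.v (S.M.α t)) (x2 := S.M.v (S.M.α (S.M.σ (S.M.σ t)))) (y := S.M.v t)
    (by rw [hAA]; exact A1) (by rw [hAA]; exact Ay) X.s1 X.s2 X.sy (by rw [hAA]; exact A2)
  rw [hAA] at a1
  have X0 : Sid S s0 t := by
    refine ⟨by rw [← hs.rc]; exact a2, ?_, a3, a4, a5⟩
    obtain ⟨x, hx, y, hy, hxy, sx, sy⟩ := X.h2
    refine ⟨x, hx, y, hy, hxy, ?_, ?_⟩
    · cases h0 : s0 x
      · rfl
      · rw [a1 x hx h0] at sx; exact absurd sx (by decide)
    · cases h0 : s0 y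
      · rfl
      · rw [a1 y hy h0] at sy; exact absurd sy (by decide)
  obtain ⟨k3, T3⟩ := thr_ex W X0 n3 n12 F
  obtain ⟨k1, hk1⟩ : ∃ k1, k1 = S.M.α t := ⟨_, rfl⟩
  obtain ⟨k2, hk2⟩ : ∃ k2, k2 = S.M.α (S.M.σ (S.M.σ t)) := ⟨_, rfl⟩
  have K1 : k1 ∈ kc S s0 := by
    rw [hk1]
    exact mem_kc.2 ⟨by rw [rα]; exact G.r, a3, by rw [S.M.αα]; exact a5⟩
  have K2 : k2 ∈ kc S s0 := by
    rw [hk2]
    exact mem_kc.2 ⟨by rw [rα]; exact G.r2, a4, by rw [S.M.αα, S.M.vσ, S.M.vσ]; exact a5⟩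
  have n12' : k1 ≠ k2 := fun h0 => n12 (by rw [← hk1, ← hk2, h0])
  have n31 : k3 ≠ k1 := by rw [hk1]; exact T3.n1
  have n32 : k3 ≠ k2 := by rw [hk2]; exact T3.n2
  -- the fourth edge
  have hc : (kc S s0).card = 4 := by rw [kc_card, X0.h4]
  have hsub : ({k1, k2, k3} : Finset D) ⊆ kc S s0 := by
    intro x hx
    simp only [Finset.mem_insert, Finset.mem_singleton] at hx
    rcases hx with rfl | rfl | rfl
    exacts [K1, K2, T3.k]
  have c3 : ({k1, k2, k3} : Finset D).card = 3 := by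
    rw [Finset.card_insert_of_notMem (by simp [n12', n31.symm]), Finset.card_pair n32.symm]
  have c1 : (kc S s0 \ {k1, k2, k3}).card = 1 := by
    rw [Finset.card_sdiff_of_subset hsub, hc, c3]
  obtain ⟨k4, hk4⟩ := Finset.card_eq_one.1 c1
  have m4 : k4 ∈ kc S s0 \ {k1, k2, k3} := by rw [hk4]; simp
  rw [Finset.mem_sdiff] at m4
  have nm := m4.2
  simp only [Finset.mem_insert, Finset.mem_singleton, not_or] at nm
  obtain ⟨g1, g2, g3, g4⟩ := hg s0 k3 k4 X0.h4 X0.h2 (by rw [← hk1]; exact K1)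
    (by rw [← hk2]; exact K2) T3.k m4.1 (by rw [← hk1, ← hk2]; exact n12') T3.n1 T3.n2
    (by rw [← hk1]; exact nm.1) (by rw [← hk2]; exact nm.2.1) (Ne.symm nm.2.2) T3.f
  have rK3 := (mem_kc.1 T3.k).1
  have rK4 := (mem_kc.1 m4.1).1
  have hkc := kc_sim hs s0
  have φφ : S'.M.φ (S'.M.φ (S.M.σ t)) = S.M.σ (S.M.σ t) := by rw [p1, p2]
  have hαS : ∀ d, S'.M.α d = S.M.α d := hs.hα
  refine ⟨S', s0, k3, k4, hs, h', p1, p2, pφ, ?_, Ne.symm nm.2.2, ?_, ?_, a1, X0, T3⟩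
  · exact
      { ra := by rw [hs.hr]; exact G.h
        rb := by rw [p1, hs.hr, rα]; exact G.r
        rb' := by rw [φφ, hs.hr]; exact G.r2
        sa := by rw [q1]; exact a4
        sa' := by rw [hαS, q2]; exact a3
        sy := by rw [φφ, hs.hv _ G.r2, S.M.vσ, S.M.vσ]; exact a5
        ne := by rw [q1, hαS, q2]; exact n12
        ur := fun d hd => by
          rw [hs.hu] at hd
          rw [hs.hr]
          exact hS.ur d hd
        uy := by rw [φφ, hs.hu]; exact G.u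
        h4 := a2
        hT := a6
        hF := a7
        hn := fun r hr h1 => by
          rw [hs.hr] at hr
          rw [hs.hv r hr, q1] at h1
          rw [hs.hvα hr, hαS, q2]
          exact nadj r hr h1
        hmin := fun T t1 t2 t3 t4 => by
          rw [q1] at t2
          rw [hαS, q2] at t3
          exact a8 T t1 t3 t2 t4
        htw := by
          have e1 : S.sc.r (S.M.σ t) (S.M.σ (S.M.σ t)) := by
            have h1 : S.sc.r (S.M.σ t) (S.M.α (S.M.σ t)) := (scα G.h _).2 (S.sc.iseqv.refl _)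
            exact S.sc.iseqv.trans h1 ((scφ _ _).2 (S.sc.iseqv.refl _))
          have e2 : fu S' (S.M.σ t) = fu S (S.M.σ (S.M.σ t)) := by
            rw [hs.fu]; exact fu_congr e1
          rw [e2]
          by_cases h3 : 3 ≤ fu S (S.M.σ (S.M.σ t))
          · exact Or.inl h3
          right
          intro e e' h1 h2 v1 v2 u1 u2
          rw [hs.sc] at h1 h2
          rw [hs.hu] at u1 u2
          have r1 := hS.ur e u1
          have r2' := hS.ur e' u2
          rw [hs.hv e r1, hαS, q2] at v1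
          rw [hs.hv e' r2', q1] at v2
          have hN1 := (h.rg hΔ).n2 hS W (by omega) _ A1
          have hN2 := (h.rg hΔ).n2 hS W (by omega) _ A2
          -- the dart of `x1`
          have f1 : S.M.φ (S.M.α t) = S.M.σ t := rfl
          have g1 : S.M.α t = e := real_uniq hS W hN1 (by rw [rα]; exact G.r) r1
            (by rw [f1]; exact G.h) v1 (S.sc.iseqv.trans (by
              exact S.sc.iseqv.symm ((scφ _ _).2 (S.sc.iseqv.refl (S.M.α t))) |> fun h0 =>
                S.sc.iseqv.symm h0) h1)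
          -- the dart of `x2`
          obtain ⟨z, hz⟩ : ∃ z, z = S.M.σ (S.M.σ (S.M.α (S.M.σ (S.M.σ t)))) := ⟨_, rfl⟩
          have z1 : S.M.σ (S.M.α (S.M.σ (S.M.σ t))) = S.M.φ (S.M.σ (S.M.σ t)) := by
            show S.M.φ (S.M.α (S.M.α _)) = _
            rw [S.M.αα]
          have hφ0 : S.real (S.M.φ (S.M.σ (S.M.σ t))) = false := by
            -- the triangle of `σ (σ t)` contains the virtual dart `α (σ t)`
            have h5 : S.M.φ (S.M.φ (S.M.σ (S.M.σ t))) = S.M.α (S.M.σ t) := S.M.φ3 _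
            by_contra h6
            have h7 := hS.two _ G.r2 (by simpa using h6)
            rw [h5, rα, G.h] at h7
            exact absurd h7 (by decide)
          have hz2 : z = S.M.φ (S.M.α (S.M.φ (S.M.σ (S.M.σ t)))) := by rw [hz, z1]; rfl
          have zA : S.M.v (S.M.φ (S.M.σ (S.M.σ t))) ∈ S.A := by
            rw [S.M.vφ]; exact A2
          have rz : S.real z = true := by
            rw [hz2]
            exact (hS.σvirt W hφ0 zA).1
          have vz : S.M.v z = S.M.v (S.M.α (S.M.σ (S.M.σ t))) := by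
            rw [hz, S.M.vσ, S.M.vσ]
          have sz : S.sc.r z (S.M.σ t) := by
            have s1 : S.sc.r (S.M.α (S.M.φ (S.M.σ (S.M.σ t)))) z := by
              rw [hz2]
              exact (scφ _ _).2 (S.sc.iseqv.refl _)
            have s2 : S.sc.r (S.M.φ (S.M.σ (S.M.σ t))) (S.M.α (S.M.φ (S.M.σ (S.M.σ t)))) :=
              (scα hφ0 _).2 (S.sc.iseqv.refl _)
            have s3 : S.sc.r (S.M.σ (S.M.σ t)) (S.M.φ (S.M.σ (S.M.σ t))) :=
              (scφ _ _).2 (S.sc.iseqv.refl _)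
            exact S.sc.iseqv.symm (S.sc.iseqv.trans e1 (S.sc.iseqv.trans s3
              (S.sc.iseqv.trans s2 s1)))
          have rfz : S.real (S.M.φ z) = false := by
            by_contra h6
            have h7 := hS.two z rz (by simpa using h6)
            have h8 : S.M.φ (S.M.φ z) = S.M.α (S.M.φ (S.M.σ (S.M.σ t))) := by
              rw [hz2]; exact S.M.φ3 _
            rw [h8, rα, hφ0] at h7
            exact absurd h7 (by decide)
          have g2 : z = e' := real_uniq hS W (by rw [vz]; exact hN2) rz r2' rfz (v2.trans vz.symm)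
            (S.sc.iseqv.trans sz h2)
          apply G.two
          refine ⟨?_, by rw [g1]; exact u1, by rw [← hz, g2]; exact u2⟩
          -- two units
          have hne : e ≠ e' := fun h0 => n12 (by rw [← v1, ← v2, h0])
          have h9 : 2 ≤ fu S (S.M.σ (S.M.σ t)) := by
            have s1 := S.sc.iseqv.trans (S.sc.iseqv.symm e1) h1
            have s2 := S.sc.iseqv.trans (S.sc.iseqv.symm e1) h2
            unfold fu
            refine le_trans ?_ (Finset.sum_le_sum_of_subset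
              (Finset.subset_univ ({e, e'} : Finset D)))
            rw [Finset.sum_pair hne, if_pos s1, if_pos s2]
            omega
          omega
        K3 := by rw [hkc]; exact T3.k
        K4 := by rw [hkc]; exact m4.1
        n31 := by rw [p1]; exact T3.n1
        n32 := by rw [φφ, hαS]; exact T3.n2
        n41 := by rw [p1, ← hk1]; exact nm.1
        n42 := by rw [φφ, hαS, ← hk2]; exact nm.2.1
        n34 := by rw [hs.hv _ rK3, hs.hv _ rK4]; exact g1
        a34 := fun r hr h1 => by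
          rw [hs.hr] at hr
          rw [hs.hv r hr, hs.hv _ rK3] at h1
          rw [hs.hvα hr, hs.hv _ rK4]
          exact g2 r hr h1
        c34 := by
          rw [hs.hv _ rK3, hs.hv _ rK4, q1, hαS, q2]
          exact g3
        c43 := by
          rw [hs.hv _ rK3, hs.hv _ rK4, q1, hαS, q2]
          exact g4 }
  · refine ⟨_, by rw [hAA]; exact A1, _, by rw [hAA]; exact A2, n12.symm, a3, a4⟩
  · obtain ⟨x, hx, y, hy, hxy, sx, sy⟩ := X0.h2
    exact ⟨x, by rw [hAA]; exact hx, y, by rw [hAA]; exact hy, hxy, sx, sy⟩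

end Pool.FC7
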