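import Pool.Agent.FC7.R5C

/-! # A cut next to a vertex of real degree four with a plain triangle on one side -/

open Finset

namespace Pool.FC7

open Pool.FC6 Pool.FC6.St

variable {D V : Type} [Fintype D] [DecidableEq V] {S : St D V} {L : D → Bool} {w : D → ℕ} {Δ : ℕ}

section

variable {p1 p2 : V → Bool} {x0 : V} {t1 t2 t3 t4 e3 e4 : D}

/-- the triangle between the two edges to the first part is monochromatic and plain -/
theorem Rs.sol_tri (X : Rs S p1 p2 x0 t1 t2 t3 t4 e3 e4) (W : Wf Δ S L w) {s1 s2 : V → Bool}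
    (Y : Rf S p1 p2 s1 s2) {a b c : V → Bool} (Z : Rv S L w s1 s2 a b) (C : Rc S p1 p2 a b c)
    (hσ : S.M.σ t1 = t2) (r5 : S.real (S.M.φ t2) = true) (u1 : S.u (S.M.α t1) = 0)
    (u2 : S.u t2 = 0) (u3 : S.u (S.M.φ t2) = 0) (hL : L (S.M.φ t2) = false)
    (m1 : c (S.M.v (S.M.α t1)) = c x0) (m2 : c (S.M.v (S.M.α t2)) = c x0)
    (m3 : c (S.M.v (S.M.α t3)) ≠ c x0) (m4 : c (S.M.v (S.M.α t4)) ≠ c x0)
    (m5 : c (S.M.v e3) ≠ c (S.M.v (S.M.α e3))) (m6 : c (S.M.v e4) ≠ c (S.M.v (S.M.α e4))) :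
    Sol S L c := by
  classical
  have rα := W.real_α
  have rA := W.real_A
  have rA' : ∀ d, S.real d = true → S.M.v (S.M.α d) ∈ S.A := fun d hd =>
    rA _ (by rw [rα]; exact hd)
  have q2 : S.M.φ (S.M.α t1) = t2 := hσ
  -- the triangle
  have Q1 : Fp S (S.M.α t1) (S.M.α t1) := Or.inl rfl
  have Q2 : Fp S (S.M.α t1) t2 := by
    rw [← q2]; exact fp_φ.2 Q1
  have Q3 : Fp S (S.M.α t1) (S.M.φ t2) := fp_φ.2 Q2
  have Qc : ∀ d, Fp S (S.M.α t1) d → d = S.M.α t1 ∨ d = t2 ∨ d = S.M.φ t2 := by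
    rintro d (h | h | h)
    · exact Or.inl h
    · exact Or.inr (Or.inl (by rw [h, q2]))
    · exact Or.inr (Or.inr (by rw [h, q2]))
  have Qr : ∀ d, Fp S (S.M.α t1) d → S.real d = true := by
    intro d hd
    rcases Qc d hd with rfl | rfl | rfl
    · rw [rα]; exact X.r1
    · exact X.r2
    · exact r5
  have n1 : ¬ Fp S (S.M.α t1) t1 := by
    have := fp_α W.real_ne Qr Q1
    rwa [S.M.αα] at this
  have n2 : ¬ Fp S (S.M.α t1) (S.M.α t2) := fp_α W.real_ne Qr Q2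
  have v5 : S.M.v (S.M.φ t2) = S.M.v (S.M.α t2) := S.M.vφ _
  have v6 : S.M.v (S.M.α (S.M.φ t2)) = S.M.v (S.M.α t1) := by
    rw [← S.M.vφ (S.M.φ t2), ← q2, S.M.φ3]
  have hmono : ∀ d, Fp S (S.M.α t1) d → ¬ S.Op c d := by
    rintro d hd (h | h)
    · rw [Qr d hd] at h
      exact absurd h (by decide)
    · apply h
      rcases Qc d hd with rfl | rfl | rfl
      · rw [S.M.αα, X.v1, m1]
      · rw [X.v2, m2]
      · rw [v6, v5, m1, m2]
  have opα : ∀ d, S.Op c d → S.Op c (S.M.α d) := by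
    rintro d (h | h)
    · left; rw [rα]; exact h
    · right; rw [S.M.αα]; exact h.symm
  have Qo : ∀ d, S.Op c d → ¬ Fp S (S.M.α t1) d ∧ ¬ Fp S (S.M.α t1) (S.M.α d) := fun d ho =>
    ⟨fun h => hmono d h ho, fun h => hmono _ h (opα d ho)⟩
  have nE : ¬ Fp S (S.M.α t1) e3 := (Qo e3 (Or.inr m5)).1
  -- the mixed darts
  have z1 : s1 x0 = false := by rw [Y.h1 _ X.xA]; exact X.z1
  have s11 : s1 (S.M.v (S.M.α t1)) = true := by rw [Y.h1 _ (rA' _ X.r1)]; exact X.a1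
  have s12 : s1 (S.M.v (S.M.α t2)) = true := by rw [Y.h1 _ (rA' _ X.r2)]; exact X.a2
  have x1 : s1 (S.M.v t1) ≠ s1 (S.M.v (S.M.α t1)) := by rw [X.v1, z1, s11]; decide
  have x2 : s1 (S.M.v t2) ≠ s1 (S.M.v (S.M.α t2)) := by rw [X.v2, z1, s12]; decide
  have mt1 : Mx S (ppr s1 s2) t1 := Or.inl ⟨true, x1⟩
  have mt1' : Mx S (ppr s1 s2) (S.M.α t1) := Or.inl ⟨true, by
    rw [S.M.αα]; exact x1.symm⟩
  have mt2 : Mx S (ppr s1 s2) t2 := Or.inl ⟨true, x2⟩
  have mt2' : Mx S (ppr s1 s2) (S.M.α t2) := Or.inl ⟨true, by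
    rw [S.M.αα]; exact x2.symm⟩
  have k1 : s1 (S.M.v e3) ≠ s1 (S.M.v (S.M.α e3)) := by
    rw [Y.h1 _ (rA _ X.g3), Y.h1 _ (rA' _ X.g3), X.b3, X.p1_of (rA' _ X.g3) X.c3]
    decide
  have k2 : s2 (S.M.v e3) ≠ s2 (S.M.v (S.M.α e3)) := by
    rw [Y.h2 _ (rA _ X.g3), Y.h2 _ (rA' _ X.g3), X.c3, X.p2_of (rA _ X.g3) X.b3]
    decide
  -- no mixed dart of the second kind in the triangle
  have mx3 : ¬ Mx S (ppr s1 s2) (S.M.φ t2) ∨ Mx S (ppr s1 s2) (S.M.α (S.M.φ t2)) := by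
    by_cases h0 : Mx S (ppr s1 s2) (S.M.φ t2)
    · right
      rcases h0 with ⟨i, hi⟩ | ⟨-, h8⟩
      · exact Or.inl ⟨i, by rw [S.M.αα]; exact hi.symm⟩
      · have : s1 (S.M.v (S.M.φ t2)) = false := h8 true
        rw [v5, s12] at this
        exact absurd this (by decide)
    · exact Or.inl h0
  refine glueP (p := ppr s1 s2) (Q := Fp S (S.M.α t1)) (d0 := e3) (w := w) rA rα W.u_A W.L_real
    (fun _ => fp_φ) Qo (fun i => ?_) nE (fun h ht hq d hd => ?_) (X.brs W Y Z C) (fun i => ?_)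
    (fun d hd => ?_) (fun x hx h0 => ?_) (fun d hd => ?_) (fun d hd hn => ?_) W.L_α
    (fun d hd hr => ?_)
  · cases i
    · exact k2
    · exact k1
  · -- the invariance
    have h1 := X.sum1 W ht (fun _ => (1 : ℝ))
    have g3 := ht.2 e3 (Or.inr m5)
    have g4 := ht.2 e4 (Or.inr m6)
    have g1 : h t2 = h (S.M.α t1) := by rw [← q2]; exact ht.1 _
    have e1 : h (S.M.α t2) = h t1 := by linarith
    have ht' := test_mod (fun _ => fp_φ) Qo ht (h t1)
    have K1 : ∀ k ∈ kc S s1, (if Fp S (S.M.α t1) (S.M.α k) then h t1 else h (S.M.α k)) =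
        if Fp S (S.M.α t1) k then h t1 else h k := by
      intro k hk
      rw [X.kc1 W Y.h1] at hk
      simp only [Finset.mem_insert, Finset.mem_singleton] at hk
      rcases hk with rfl | rfl | rfl | rfl
      · rw [S.M.αα, if_neg n1, if_pos Q1]
      · rw [S.M.αα, if_pos Q2, if_neg n2, e1]
      · rw [if_neg nE, if_neg (Qo _ (Or.inr m5)).2, g3]
      · rw [if_neg (Qo _ (Or.inr m6)).1, if_neg (Qo _ (Or.inr m6)).2, g4]
    have e2 := inv_of rα Y.T1 Y.F1 ht' K1 x1 k1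
    have e3' : h t1 = h e3 := by
      have : (if Fp S (S.M.α t1) t1 then h t1 else h t1) =
        if Fp S (S.M.α t1) e3 then h t1 else h e3 := e2
      rwa [if_neg n1, if_neg nE] at this
    have e4' := hq _ Q1
    refine X.inv_all W Y ht ⟨?_, ?_, ?_, ?_, ?_, ?_⟩ hd
    · rw [e4', e3']
    · rw [e1, g1, e4', e3']
    · exact ht.2 t3 (Or.inr (by rw [X.v3]; exact m3.symm))
    · exact ht.2 t4 (Or.inr (by rw [X.v4]; exact m4.symm))
    · exact g3
    · exact g4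
  · cases i
    · exact ⟨b, fun x hx h1 => C.cb x hx (by rw [← Y.h2 x hx]; exact h1), Z.Sb, Z.Vb e3 k2⟩
    · exact ⟨a, fun x hx h1 => C.ca x hx (by rw [← Y.h1 x hx]; exact h1), Z.Sa, Z.Va e3 k1⟩
  · rcases Qc d hd with rfl | rfl | rfl
    · refine ⟨S.M.φ t1, S.M.vφ _, fun h0 => n1 (fp_φ.1 h0), Or.inr ?_⟩
      rw [S.M.φ3]; exact mt1
    · exact ⟨t1, X.v1.trans X.v2.symm, n1, Or.inl mt1⟩
    · exact ⟨S.M.α t2, v5.symm, n2, Or.inl mt2'⟩
  · refine ⟨t1, ?_, n1⟩
    rw [X.v1]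
    by_contra hn
    rcases X.part _ hx (fun h0 => hn h0.symm) with h9 | h9
    · have : s1 x = false := h0 true
      rw [Y.h1 _ hx, h9.1] at this
      exact absurd this (by decide)
    · have : s2 x = false := h0 false
      rw [Y.h2 _ hx, h9.2] at this
      exact absurd this (by decide)
  · rcases Qc d hd with rfl | rfl | rfl
    exacts [u1, u2, u3]
  · rcases Qc d hd with rfl | rfl | rfl
    · exact absurd mt1' hn
    · exact absurd mt2 hn
    · exact hL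
  · by_cases h0 : Fp S (S.M.α t1) d
    · right
      refine ⟨fp_α W.real_ne Qr h0, ?_⟩
      rcases Qc d h0 with rfl | rfl | rfl
      · rw [S.M.αα]; exact mt1
      · exact mt2'
      · exact mx3.resolve_left (not_not.2 hd)
    · exact Or.inl h0

/-- the adjusted cut functions and the solutions of the parts -/
theorem MC.rs (hΔ : Δ ≤ 6) (h : MC Δ S L w) (X : Rs S p1 p2 x0 t1 t2 t3 t4 e3 e4) :
    ∃ s1 s2 a b, Rf S p1 p2 s1 s2 ∧ Rv S L w s1 s2 a b := by
  classical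
  have W := h.ok.toWf
  have rα := W.real_α
  have rA := W.real_A
  have rA' : ∀ d, S.real d = true → S.M.v (S.M.α d) ∈ S.A := fun d hd =>
    rA _ (by rw [rα]; exact hd)
  have X' := X.symm rα
  have key : ∀ {p1 p2 : V → Bool} {t1 t2 t3 t4 e3 e4 : D}, Rs S p1 p2 x0 t1 t2 t3 t4 e3 e4 →
      ∃ s1 : V → Bool, (∀ x ∈ S.A, s1 x = p1 x) ∧ ConS S.M s1 true ∧ ConS S.M s1 false ∧
        ∃ cb, Sol (sd S w s1 true) (sdL S L s1 true) cb ∧
          ∀ d0, s1 (S.M.v d0) ≠ s1 (S.M.v (S.M.α d0)) → Vi (sd S w s1 true) cb d0 := by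
    intro p1 p2 t1 t2 t3 t4 e3 e4 X
    have h7 : S.rc p1 ≤ 7 := by
      rw [← kc_card, X.kc1 W fun _ _ => rfl]
      exact Finset.card_le_four.trans (by norm_num)
    obtain ⟨s1, b1, b2, b3⟩ := h.fix hΔ h7 ⟨_, rA' _ X.r1, X.a1⟩ ⟨_, X.xA, X.z1⟩
    obtain ⟨cb, c1, c2⟩ := h.part hΔ b2 b3 (by rw [rc_congr W b1]; exact h7)
      ⟨_, rA' _ X.r1, _, rA' _ X.r2, fun h0 => X.n12 (W.simple _ _ X.r1 X.r2
        (X.v1.trans X.v2.symm) h0), by rw [b1 _ (rA' _ X.r1)]; exact X.a1, by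
        rw [b1 _ (rA' _ X.r2)]; exact X.a2⟩ ⟨x0, X.xA, by rw [b1 _ X.xA]; exact X.z1⟩
    exact ⟨s1, b1, b2, b3, cb, c1, c2 cb c1⟩
  obtain ⟨s1, a1, a2, a3, a, a4, a5⟩ := key X
  obtain ⟨s2, b1, b2, b3, b, b4, b5⟩ := key X'
  exact ⟨s1, s2, a, b, ⟨a1, b1, a2, a3, b2, b3⟩, ⟨a4, a5, b4, b5⟩⟩

end

/-- the three parts of a cut with four real edges at a vertex of real degree four -/
theorem MC.to_rs (hΔ : Δ ≤ 6) (h : MC Δ S L w) {s : V → Bool} (h4 : S.rc s = 4) {t t2 : D}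
    (hd : S.rdeg (S.M.v t) = 4) (rt : S.real t = true) (r2 : S.real t2 = true)
    (v2 : S.M.v t2 = S.M.v t) (hne : t2 ≠ t) (s1 : s (S.M.v (S.M.α t)) = true)
    (s2 : s (S.M.v (S.M.α t2)) = true)
    (c2 : ∀ e, S.real e = true → S.M.v e = S.M.v t → e ≠ t → e ≠ t2 →
      s (S.M.v (S.M.α e)) = false) :
    ∃ t3 t4 e3 e4, Rs S (fun x => s x && decide (x ≠ S.M.v t))
      (fun x => !s x && decide (x ≠ S.M.v t)) (S.M.v t) t t2 t3 t4 e3 e4 := by
  classical
  have W := h.ok.toWf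
  have rα := W.real_α
  have rA := W.real_A
  have rA' : ∀ d, S.real d = true → S.M.v (S.M.α d) ∈ S.A := fun d hd =>
    rA _ (by rw [rα]; exact hd)
  obtain ⟨R, hR⟩ : ∃ R : Finset D, R = Finset.univ.filter fun d => S.M.v d = S.M.v t ∧
      S.real d = true := ⟨_, rfl⟩
  have mR : ∀ d, d ∈ R ↔ S.M.v d = S.M.v t ∧ S.real d = true := fun d => by
    rw [hR, Finset.mem_filter]; simp
  have cR : R.card = 4 := by
    rw [← hd, hR, Finset.card_filter]
    rfl
  have tR : t ∈ R := (mR t).2 ⟨rfl, rt⟩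
  have t2R : t2 ∈ R := (mR t2).2 ⟨v2, r2⟩
  have hsub : ({t, t2} : Finset D) ⊆ R := by
    intro x hx
    rcases Finset.mem_insert.1 hx with rfl | hx
    · exact tR
    · rw [Finset.mem_singleton.1 hx]; exact t2R
  have hc2 : (R \ {t, t2}).card = 2 := by
    rw [Finset.card_sdiff_of_subset hsub, cR, Finset.card_pair (Ne.symm hne)]
  obtain ⟨t3, t4, n34, h34⟩ := Finset.card_eq_two.1 hc2
  have m3 : t3 ∈ R \ {t, t2} := by rw [h34]; simp
  have m4 : t4 ∈ R \ {t, t2} := by rw [h34]; simp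
  rw [Finset.mem_sdiff] at m3 m4
  obtain ⟨v3, r3⟩ := (mR t3).1 m3.1
  obtain ⟨v4, r4⟩ := (mR t4).1 m4.1
  have q3 := m3.2
  have q4 := m4.2
  simp only [Finset.mem_insert, Finset.mem_singleton, not_or] at q3 q4
  have hRall : ∀ d, S.real d = true → S.M.v d = S.M.v t → d = t ∨ d = t2 ∨ d = t3 ∨ d = t4 := by
    intro d h1 h2
    by_cases h3 : d ∈ ({t, t2} : Finset D)
    · rcases Finset.mem_insert.1 h3 with h3 | h3
      · exact Or.inl h3
      · exact Or.inr (Or.inl (Finset.mem_singleton.1 h3))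
    · have : d ∈ R \ {t, t2} := Finset.mem_sdiff.2 ⟨(mR d).2 ⟨h2, h1⟩, h3⟩
      rw [h34] at this
      rcases Finset.mem_insert.1 this with h3 | h3
      · exact Or.inr (Or.inr (Or.inl h3))
      · exact Or.inr (Or.inr (Or.inr (Finset.mem_singleton.1 h3)))
  have s3 := c2 t3 r3 v3 q3.1 q3.2
  have s4 := c2 t4 r4 v4 q4.1 q4.2
  -- the other edges
  obtain ⟨E, hE⟩ : ∃ E : Finset D, E = Finset.univ.filter fun d => S.real d = true ∧
      (s (S.M.v d) = true ∧ S.M.v d ≠ S.M.v t) ∧ (s (S.M.v (S.M.α d)) = false ∧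
        S.M.v (S.M.α d) ≠ S.M.v t) := ⟨_, rfl⟩
  have mE : ∀ d, d ∈ E ↔ S.real d = true ∧ (s (S.M.v d) = true ∧ S.M.v d ≠ S.M.v t) ∧
      (s (S.M.v (S.M.α d)) = false ∧ S.M.v (S.M.α d) ≠ S.M.v t) := fun d => by
    rw [hE, Finset.mem_filter]; simp
  have cK : (kc S s).card = 4 := by rw [kc_card, h4]
  have ne_t : ∀ {d}, S.real d = true → S.M.v d = S.M.v t → S.M.v (S.M.α d) ≠ S.M.v t :=
    fun {d} h1 h2 h3 => W.real_ne d h1 (h2.trans h3.symm)
  have cE : E.card = 2 := by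
    cases h0 : s (S.M.v t)
    · have hK : kc S s = {S.M.α t, S.M.α t2} ∪ E := by
        ext d
        rw [mem_kc, Finset.mem_union, mE]
        simp only [Finset.mem_insert, Finset.mem_singleton]
        constructor
        · rintro ⟨h1, h2, h3⟩
          by_cases h5 : S.M.v (S.M.α d) = S.M.v t
          · left
            rcases hRall (S.M.α d) (by rw [rα]; exact h1) h5 with h6 | h6 | h6 | h6
            · left; rw [← h6, S.M.αα]
            · right; rw [← h6, S.M.αα]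
            · rw [← h6, S.M.αα, h2] at s3
              exact absurd s3 (by decide)
            · rw [← h6, S.M.αα, h2] at s4
              exact absurd s4 (by decide)
          · right
            exact ⟨h1, ⟨h2, fun h6 => by rw [h6, h0] at h2; exact absurd h2 (by decide)⟩, h3, h5⟩
        · rintro ((rfl | rfl) | ⟨h1, ⟨h2, -⟩, h3, -⟩)
          · exact ⟨by rw [rα]; exact rt, s1, by rw [S.M.αα]; exact h0⟩
          · exact ⟨by rw [rα]; exact r2, s2, by rw [S.M.αα, v2]; exact h0⟩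
          · exact ⟨h1, h2, h3⟩
      have hdis : Disjoint ({S.M.α t, S.M.α t2} : Finset D) E := by
        rw [Finset.disjoint_left]
        intro x hx hx'
        have h1 := ((mE x).1 hx').2.2.2
        rcases Finset.mem_insert.1 hx with rfl | hx
        · rw [S.M.αα] at h1
          exact h1 rfl
        · rw [Finset.mem_singleton.1 hx, S.M.αα] at h1
          exact h1 v2
      rw [hK, Finset.card_union_of_disjoint hdis,
        Finset.card_pair (fun h1 => hne (S.M.αinj h1).symm)] at cK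
      omega
    · have hK : kc S s = {t3, t4} ∪ E := by
        ext d
        rw [mem_kc, Finset.mem_union, mE]
        simp only [Finset.mem_insert, Finset.mem_singleton]
        constructor
        · rintro ⟨h1, h2, h3⟩
          by_cases h5 : S.M.v d = S.M.v t
          · left
            rcases hRall d h1 h5 with h6 | h6 | h6 | h6
            · rw [h6, s1] at h3
              exact absurd h3 (by decide)
            · rw [h6, s2] at h3
              exact absurd h3 (by decide)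
            · exact Or.inl h6
            · exact Or.inr h6
          · right
            exact ⟨h1, ⟨h2, h5⟩, h3, fun h6 => by
              rw [h6, h0] at h3; exact absurd h3 (by decide)⟩
        · rintro ((rfl | rfl) | ⟨h1, ⟨h2, -⟩, h3, -⟩)
          · exact ⟨r3, by rw [v3]; exact h0, s3⟩
          · exact ⟨r4, by rw [v4]; exact h0, s4⟩
          · exact ⟨h1, h2, h3⟩
      have hdis : Disjoint ({t3, t4} : Finset D) E := by
        rw [Finset.disjoint_left]
        intro x hx hx'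
        have h1 := ((mE x).1 hx').2.1.2
        rcases Finset.mem_insert.1 hx with rfl | hx
        · exact h1 v3
        · rw [Finset.mem_singleton.1 hx] at h1
          exact h1 v4
      rw [hK, Finset.card_union_of_disjoint hdis, Finset.card_pair n34] at cK
      omega
  obtain ⟨e3, e4, ne, hE2⟩ := Finset.card_eq_two.1 cE
  have w3 : e3 ∈ E := by rw [hE2]; simp
  have w4 : e4 ∈ E := by rw [hE2]; simp
  obtain ⟨g3, ⟨b3, b3'⟩, c3, c3'⟩ := (mE e3).1 w3
  obtain ⟨g4, ⟨b4, b4'⟩, c4, c4'⟩ := (mE e4).1 w4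
  have P1 : ∀ {x}, s x = true → x ≠ S.M.v t → (s x && decide (x ≠ S.M.v t)) = true := by
    intro x h1 h2
    rw [h1, Bool.true_and]
    exact decide_eq_true h2
  have P2 : ∀ {x}, s x = false → x ≠ S.M.v t → (!s x && decide (x ≠ S.M.v t)) = true := by
    intro x h1 h2
    rw [h1, Bool.not_false, Bool.true_and]
    exact decide_eq_true h2
  refine ⟨t3, t4, e3, e4, ?_⟩
  exact
    { xA := rA t rt, r1 := rt, r2 := r2, r3 := r3, r4 := r4, g3 := g3, g4 := g4, v1 := rfl,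
      v2 := v2, v3 := v3, v4 := v4, a1 := P1 s1 (ne_t rt rfl), a2 := P1 s2 (ne_t r2 v2),
      a3 := P2 s3 (ne_t r3 v3), a4 := P2 s4 (ne_t r4 v4), b3 := P1 b3 b3', b4 := P1 b4 b4',
      c3 := P2 c3 c3', c4 := P2 c4 c4', R := hRall, E := fun d h1 h2 h3 => by
        have h2 : (s (S.M.v d) && decide (S.M.v d ≠ S.M.v t)) = true := h2
        have h3 : (!s (S.M.v (S.M.α d)) && decide (S.M.v (S.M.α d) ≠ S.M.v t)) = true := h3
        rw [Bool.and_eq_true, decide_eq_true_eq] at h2 h3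
        have : d ∈ E := (mE d).2 ⟨h1, h2, by simpa using h3.1, h3.2⟩
        rw [hE2] at this
        simpa using this,
      n12 := Ne.symm hne, n34 := n34, ne := ne, part := fun x _ hn => by
        cases h1 : s x
        · right
          simp [hn]
        · left
          simp [hn],
      z1 := by simp, z2 := by simp }

/-- a plain triangle at a vertex of real degree four with both other edges in the cut, one side -/
theorem MC.r5a_aux (hΔ : Δ ≤ 6) (h : MC Δ S L w) {s : V → Bool} (h4 : S.rc s = 4) {t : D}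
    (hd : S.rdeg (S.M.v t) = 4) (rt : S.real t = true) (rs : S.real (S.M.σ t) = true)
    (rp : S.real (S.M.φ (S.M.σ t)) = true) (u1 : S.u (S.M.σ t) = 0)
    (u2 : S.u (S.M.φ (S.M.σ t)) = 0) (u3 : S.u (S.M.α t) = 0) (hL : L (S.M.φ (S.M.σ t)) = false)
    (s1 : s (S.M.v (S.M.α t)) = true) (s2 : s (S.M.v (S.M.α (S.M.σ t))) = true)
    (c2 : ∀ e, S.real e = true → S.M.v e = S.M.v t → e ≠ t → e ≠ S.M.σ t →
      s (S.M.v (S.M.α e)) = false) : False := by
  classical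
  have W := h.ok.toWf
  have rα := W.real_α
  have rA := W.real_A
  have rA' : ∀ d, S.real d = true → S.M.v (S.M.α d) ∈ S.A := fun d hd =>
    rA _ (by rw [rα]; exact hd)
  have hne : S.M.σ t ≠ t := fun h0 => σσ_ne (S := S) (y := t) (by omega) (by rw [h0, h0])
  obtain ⟨t3, t4, e3, e4, X⟩ := h.to_rs hΔ h4 hd rt rs (S.M.vσ t) hne s1 s2 c2
  obtain ⟨q1, q2, a, b, Y, Z⟩ := h.rs hΔ X
  apply h.no
  rcases X.main W Y Z with h0 | ⟨e1, e2, e3', e4', e5⟩
  · exact h0
  obtain ⟨r, hr⟩ : ∃ r : Bool, r = (a (S.M.v e3) == b (S.M.v (S.M.α e3))) := ⟨_, rfl⟩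
  obtain ⟨c, hc⟩ : ∃ c : V → Bool, ∀ x, c x = if (s x && decide (x ≠ S.M.v t)) = true then a x else
    if (!s x && decide (x ≠ S.M.v t)) = true then xor (b x) r else a (S.M.v (S.M.α t)) :=
    ⟨_, fun _ => rfl⟩
  have ca : ∀ x ∈ S.A, (s x && decide (x ≠ S.M.v t)) = true → c x = a x := fun x _ h1 => by
    rw [hc, if_pos h1]
  have cb : ∀ x ∈ S.A, (!s x && decide (x ≠ S.M.v t)) = true → c x = xor (b x) r :=
    fun x hx h1 => by
      have h2 : (s x && decide (x ≠ S.M.v t)) = false := X.p1_of hx h1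
      rw [hc, if_neg (by rw [h2]; decide), if_pos h1]
  have c0 : c (S.M.v t) = a (S.M.v (S.M.α t)) := by
    rw [hc, if_neg (by simp), if_neg (by simp)]
  have Z' : Rv S L w q1 q2 a (fun x => xor (b x) r) := by
    cases r
    · simpa using Z
    · refine ⟨Z.Sa, Z.Va, by simpa using Z.Sb.neg, fun d0 hd0 => ?_⟩
      have := (vi_neg (S := sd S w q2 true) (c := b) d0).2 (Z.Vb d0 hd0)
      simpa using this
  have f1 := ca _ (rA' _ X.r1) X.a1
  have f2 := ca _ (rA' _ X.r2) X.a2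
  have f3 := cb _ (rA' _ X.r3) X.a3
  have f4 := cb _ (rA' _ X.r4) X.a4
  have g3 := ca _ (rA _ X.g3) X.b3
  have g4 := ca _ (rA _ X.g4) X.b4
  have g3' := cb _ (rA' _ X.g3) X.c3
  have g4' := cb _ (rA' _ X.g4) X.c4
  have key : ∀ {p1 q1 p2 q2 r : Bool}, r = (p2 == q2) → (p2 = p1 ↔ q2 = q1) →
      xor q1 r ≠ p1 ∧ p2 ≠ xor q2 r := by
    intro p1 q1 p2 q2 r h1 h2
    subst h1
    revert h2
    cases p1 <;> cases q1 <;> cases p2 <;> cases q2 <;> simp
  obtain ⟨k1, k2⟩ := key hr e5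
  refine ⟨c, X.sol_tri W Y Z' ⟨ca, cb⟩ rfl rp u3 u1 u2 hL (by rw [f1, c0]) ?_ ?_ ?_ ?_ ?_⟩
  · rw [f2, c0, e1]
  · rw [f3, c0]; exact k1
  · rw [f4, c0, ← e2]; exact k1
  · rw [g3, g3']; exact k2
  · rw [g4, g4', ← e3', ← e4']; exact k2

/-- R(a): a cut whose edges at a vertex of real degree four surround a plain triangle -/
theorem MC.r5a (hΔ : Δ ≤ 6) (h : MC Δ S L w) {s : V → Bool} (h1 : S.Two s true)
    (h2 : S.Two s false) {t : D}
    (hd : S.rdeg (S.M.v t) = 4) (rt : S.real t = true) (rs : S.real (S.M.σ t) = true)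
    (rp : S.real (S.M.φ (S.M.σ t)) = true) (u1 : S.u (S.M.σ t) = 0)
    (u2 : S.u (S.M.φ (S.M.σ t)) = 0) (u3 : S.u (S.M.α t) = 0) (hL : L (S.M.φ (S.M.σ t)) = false)
    (c1 : s (S.M.v (S.M.α (S.M.σ t))) = s (S.M.v (S.M.α t)))
    (c2 : ∀ e, S.real e = true → S.M.v e = S.M.v t → e ≠ t → e ≠ S.M.σ t →
      s (S.M.v (S.M.α e)) ≠ s (S.M.v (S.M.α t))) : 5 ≤ S.rc s := by
  by_contra hlt
  have hA1 : ∃ x ∈ S.A, s x = true := by
    obtain ⟨x, hx, -, -, -, sx, -⟩ := h1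
    exact ⟨x, hx, sx⟩
  have hA2 : ∃ x ∈ S.A, s x = false := by
    obtain ⟨x, hx, -, -, -, sx, -⟩ := h2
    exact ⟨x, hx, sx⟩
  have h4 : S.rc s = 4 := by
    have := h.cut4 hΔ hA1 hA2
    omega
  cases h0 : s (S.M.v (S.M.α t))
  · refine h.r5a_aux hΔ (s := fun x => !s x) (by rw [rc_neg h.ok.toWf.real_α]; exact h4) hd rt rs
      rp u1 u2 u3 hL ?_ ?_ fun e e1 e2 e3 e4 => ?_
    · show (!s (S.M.v (S.M.α t))) = true
      rw [h0]; rfl
    · show (!s (S.M.v (S.M.α (S.M.σ t)))) = true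
      rw [c1, h0]; rfl
    · have := c2 e e1 e2 e3 e4
      rw [h0] at this
      show (!s (S.M.v (S.M.α e))) = false
      simpa using this
  · refine h.r5a_aux hΔ h4 hd rt rs rp u1 u2 u3 hL h0 (by rw [c1, h0]) fun e e1 e2 e3 e4 => ?_
    have := c2 e e1 e2 e3 e4
    rw [h0] at this
    simpa using this

end Pool.FC7
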