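import Pool.Agent.FC7.Q5I
import Pool.Agent.FC7.R5D

/-! # The chord state at a vertex of real degree four: three parts -/

open Finset

set_option linter.unusedSectionVars false

namespace Pool.FC7

open Pool.FC6 Pool.FC6.St

variable {D V : Type} [Fintype D] [DecidableEq V] {S : St D V} {L : D → Bool} {w : D → ℕ} {Δ : ℕ}
  {s : V → Bool} {a k3 k4 : D} {p1 p2 : V → Bool} {x0 : V} {t3 t4 e3 e4 : D}

/-- the three parts -/
def P3s (s s2 : V → Bool) (x0 : V) : Option Bool → V → Prop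
  | none, x => x = x0
  | some true, x => s x = true
  | some false, x => s2 x = true

/-- the gluing of the chord state, the other side without `x0`, and `x0` -/
theorem Cp.glue3 (W : Wf Δ S L w) (C : Cp S s a) (hx0 : S.M.v (S.M.φ (S.M.φ a)) = x0)
    (X : Rs S p1 p2 x0 (S.M.α (S.M.φ a)) (S.M.φ (S.M.φ a)) t3 t4 e3 e4) {s2 : V → Bool}
    (Y : Rf S p1 p2 s s2) {cb b c : V → Bool} (R : Rc S p1 p2 cb b c)
    (ur : ∀ d, S.u d ≠ 0 → S.real d = true) (uy : S.u (S.M.φ (S.M.φ a)) = 0)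
    (m1 : c (S.M.v (S.M.φ a)) = c x0) (m2 : c (S.M.v a) = c x0)
    (m3 : c (S.M.v (S.M.α t3)) ≠ c x0) (m4 : c (S.M.v (S.M.α t4)) ≠ c x0)
    (m5 : c (S.M.v e3) ≠ c (S.M.v (S.M.α e3))) (m6 : c (S.M.v e4) ≠ c (S.M.v (S.M.α e4)))
    (hS : Sol (Ch S w s a) (sdL S L s true) cb)
    (hv : Vi (Ch S w s a) cb (S.M.α (S.M.φ (S.M.φ a))))
    (Sb : Sol (sd S w s2 true) (sdL S L s2 true) b)
    (Vb : ∀ d0, s2 (S.M.v d0) ≠ s2 (S.M.v (S.M.α d0)) → Vi (sd S w s2 true) b d0) :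
    Sol S L c := by
  classical
  have rA := W.real_A
  have rα := W.real_α
  have rA' : ∀ d, S.real d = true → S.M.v (S.M.α d) ∈ S.A := fun d hd =>
    rA _ (by rw [rα]; exact hd)
  have vy : S.M.v (S.M.α (S.M.φ a)) = x0 := by rw [← S.M.vφ]; exact hx0
  have hK := X.kc1 W Y.h1
  have hα1 : S.M.α (S.M.α (S.M.φ a)) = S.M.φ a := S.M.αα _
  have hb : ∀ k ∈ kc S s, k ≠ S.M.φ a → k ≠ S.M.α (S.M.φ (S.M.φ a)) →
      c (S.M.v k) ≠ c (S.M.v (S.M.α k)) := by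
    intro k hk n1 n2
    rw [hK, hα1] at hk
    simp only [Finset.mem_insert, Finset.mem_singleton] at hk
    rcases hk with e | e | e | e
    · exact absurd e n1
    · exact absurd e n2
    · rw [e]; exact m5
    · rw [e]; exact m6
  have inv := C.inv W Y.T1 Y.F1 hb
  obtain ⟨k2, hk2⟩ : ∃ k2, k2 = S.M.α (S.M.φ (S.M.φ a)) := ⟨_, rfl⟩
  -- the side of the chord
  have a1 : s (S.M.v a) = true := C.sa
  have a2 : s (S.M.v (S.M.α a)) = true := C.sa'
  have vA : S.M.v a ∈ S.A := by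
    rw [← S.M.vφ2 a]
    exact rA _ (by rw [rα]; exact C.rb')
  have vA' : S.M.v (S.M.α a) ∈ S.A := by
    rw [← S.M.vφ a]
    exact rA _ C.rb
  have hc : ∀ x ∈ S.A, s x = true → c x = cb x := fun x hx h1 => R.ca x hx (by
    rw [← Y.h1 x hx]; exact h1)
  have hm : cb (S.M.v a) = cb (S.M.v (S.M.α a)) := by
    rw [← hc _ vA C.sa, ← hc _ vA' C.sa', m2, ← m1, S.M.vφ]
  obtain ⟨P1, v0⟩ := C.prt W ur hc hm inv hS hv
  rw [← hk2] at inv P1 v0
  have q1 : Fp S a (S.M.φ a) := Or.inr (Or.inl rfl)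
  have q2 : Fp S a (S.M.φ (S.M.φ a)) := Or.inr (Or.inr rfl)
  have nq : ∀ {d}, Fp S a d → ¬ Fp S a (S.M.α d) := C.nα W
  -- the edge `e3`
  have f1 : s (S.M.v e3) = true := by rw [Y.h1 _ (rA _ X.g3)]; exact X.b3
  have f2 : s (S.M.v (S.M.α e3)) = false := by
    rw [Y.h1 _ (rA' _ X.g3)]; exact X.p1_of (rA' _ X.g3) X.c3
  have mx1 : s (S.M.v e3) ≠ s (S.M.v (S.M.α e3)) := by rw [f1, f2]; decide
  have nq3 : ¬ Fp S a e3 := by
    rintro (h0 | h0 | h0)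
    · rw [h0, a2] at f2
      exact absurd f2 (by decide)
    · have h1 := X.c3
      rw [h0, vy, X.z2] at h1
      exact absurd h1 (by decide)
    · rw [h0, hx0, Y.h1 _ X.xA, X.z1] at f1
      exact absurd f1 (by decide)
  have sv3 : Sv S c k2 e3 := inv e3 mx1 nq3
  -- the other part
  have mx2 : s2 (S.M.v e3) ≠ s2 (S.M.v (S.M.α e3)) := by
    rw [Y.h2 _ (rA _ X.g3), Y.h2 _ (rA' _ X.g3), X.c3, X.p2_of (rA _ X.g3) X.b3]
    decide
  have inv2 : ∀ d, s2 (S.M.v d) ≠ s2 (S.M.v (S.M.α d)) → Sv S c e3 d := by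
    intro d hd h ht
    refine inv_of rα Y.T2 Y.F2 ht (fun k hk => ?_) hd mx2
    rw [(X.symm rα).kc1 W Y.h2] at hk
    simp only [Finset.mem_insert, Finset.mem_singleton] at hk
    rcases hk with rfl | rfl | rfl | rfl
    · rw [S.M.αα]
      exact (ht.2 t3 (Or.inr (by rw [X.v3]; exact m3.symm))).symm
    · rw [S.M.αα]
      exact (ht.2 t4 (Or.inr (by rw [X.v4]; exact m4.symm))).symm
    · rw [S.M.αα]
      exact (ht.2 e3 (Or.inr m5)).symm
    · rw [S.M.αα]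
      exact (ht.2 e4 (Or.inr m6)).symm
  have tr2 : ∀ {d}, Sv S c e3 d → Sv S c k2 d := fun {d} h1 h ht => (h1 h ht).trans (sv3 h ht)
  have P2' := prt_sd (d0 := e3) W (s := s2) (b := true) (c := c) (cb := b) (Q := fun _ => False)
    (fun _ => Iff.rfl) mx2 (fun d hd _ => inv2 d hd)
    (fun x hx h1 => R.cb x hx (by rw [← Y.h2 x hx]; exact h1)) (fun _ _ _ => id) Sb (Vb e3 mx2)
    (fun _ h => h.elim) (fun _ h => h.elim)
  have P2 : Prt S L c k2 (fun x => s2 x = true) :=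
    ⟨fun d h1 h2 h3 => tr2 (P2'.con d h1 h2 h3), P2'.live, P2'.req, P2'.lab⟩
  have vim : ∀ d, s (S.M.v d) ≠ s (S.M.v (S.M.α d)) → ¬ Fp S a d → Vi S c d := fun d h1 h2 =>
    (inv d h1 h2).vi v0
  have vi3 : Vi S c t3 := ⟨t3, ⟨X.r3, by rw [X.v3]; exact m3.symm⟩, fun _ _ => rfl⟩
  have vi4 : Vi S c t4 := ⟨t4, ⟨X.r4, by rw [X.v4]; exact m4.symm⟩, fun _ _ => rfl⟩
  have z1 : s x0 = false := by rw [Y.h1 _ X.xA]; exact X.z1
  have P3 : Prt S L c k2 (fun x => x = x0) := by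
    refine ⟨fun d h1 h2 h3 => absurd (h2.trans h3.symm) (W.real_ne d h1.1), fun x _ h1 =>
      ⟨t3, by rw [h1]; exact X.v3, vi3⟩, fun d h1 h2 => ?_, fun d h1 h2 h3 =>
      absurd (h1.trans h2.symm) (W.real_ne d (W.L_real d h3))⟩
    rcases X.R d (ur d h2) h1 with e | e | e | e
    · rw [e]
      refine vim _ ?_ (nq q1)
      rw [S.M.αα, vy, z1, S.M.vφ, a2]; decide
    · rw [e, uy] at h2
      exact absurd rfl h2
    · rw [e]; exact vi3
    · rw [e]; exact vi4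
  refine sol_join (d0 := k2) (P3s s s2 x0) W (fun x hx => ?_) (fun i => ?_) fun d hr => ?_
  · by_cases h0 : x = x0
    · exact ⟨none, h0⟩
    · rcases X.part x hx h0 with h1 | h1
      · exact ⟨some true, (Y.h1 x hx).trans h1.1⟩
      · exact ⟨some false, (Y.h2 x hx).trans h1.2⟩
  · rcases i with _ | i
    · exact P3
    · cases i
      · exact P2
      · exact P1
  · have hA := rA d hr
    have hA' := rA' d hr
    by_cases h1 : s (S.M.v d) = s (S.M.v (S.M.α d))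
    · by_cases h2 : s2 (S.M.v d) = s2 (S.M.v (S.M.α d))
      · left
        cases h3 : s (S.M.v d)
        · cases h4 : s2 (S.M.v d)
          · -- both ends at `x0`
            exfalso
            have key : ∀ x ∈ S.A, s x = false → s2 x = false → x = x0 := by
              intro x hx h5 h6
              by_contra h7
              rcases X.part x hx h7 with h8 | h8
              · rw [Y.h1 x hx, h8.1] at h5
                exact absurd h5 (by decide)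
              · rw [Y.h2 x hx, h8.2] at h6
                exact absurd h6 (by decide)
            exact W.real_ne d hr ((key _ hA h3 h4).trans (key _ hA' (h1.symm.trans h3)
              (h2.symm.trans h4)).symm)
          · exact ⟨some false, h4, h2.symm.trans h4⟩
        · exact ⟨some true, h3, h1.symm.trans h3⟩
      · right
        have h3 := tr2 (inv2 d h2)
        exact ⟨fun _ => h3, fun _ => Or.inl (h3.vi v0)⟩
    · right
      refine ⟨fun hd => inv d h1 fun h0 => ?_, fun _ => ?_⟩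
      · rcases h0 with h0 | h0 | h0
        · rw [h0, C.ra] at hr
          exact absurd hr (by decide)
        · rw [h0] at hd
          exact hd.2 (by rw [m1, vy])
        · rw [h0] at hd
          exact hd.2 (by rw [hx0, S.M.vφ2, m2])
      · by_cases h0 : Fp S a d
        · exact Or.inr (vim _ (by rw [S.M.αα]; exact fun h => h1 h.symm) (nq h0))
        · exact Or.inl (vim d h1 h0)

/-- R(b) in the state with the chord -/
theorem Chy.r5b (hΔ : Δ ≤ 6) (h : MC Δ S L w) (H : Chy S s a k3 k4)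
    (h1 : S.Two s true) (hd : S.rdeg (S.M.v (S.M.φ (S.M.φ a))) = 4)
    (c2 : ∀ e, S.real e = true → S.M.v e = S.M.v (S.M.φ (S.M.φ a)) → e ≠ S.M.α (S.M.φ a) →
      e ≠ S.M.φ (S.M.φ a) → s (S.M.v (S.M.α e)) = false) : False := by
  classical
  have W := h.ok.toWf
  have rα := W.real_α
  have rA := W.real_A
  have C := H.toCp
  have rA' : ∀ d, S.real d = true → S.M.v (S.M.α d) ∈ S.A := fun d hd =>
    rA _ (by rw [rα]; exact hd)
  have vy : S.M.v (S.M.α (S.M.φ a)) = S.M.v (S.M.φ (S.M.φ a)) := (S.M.vφ _).symm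
  obtain ⟨vA, vA'⟩ := H.vaA W
  have hyA : S.M.v (S.M.φ (S.M.φ a)) ∈ S.A := rA _ C.rb'
  obtain ⟨cb, g1, g2, g3⟩ := H.ex W hΔ h h1
  have hne : S.M.φ (S.M.φ a) ≠ S.M.α (S.M.φ a) := by
    intro h0
    apply C.ne
    rw [← S.M.vφ2 a, h0, S.M.αα, S.M.vφ]
  obtain ⟨t3, t4, e3, e4, X⟩ := h.to_rs hΔ H.h4 (t := S.M.α (S.M.φ a)) (t2 := S.M.φ (S.M.φ a))
    (by rw [vy]; exact hd) (by rw [rα]; exact C.rb) C.rb' vy.symm hne
    (by rw [S.M.αα, S.M.vφ]; exact C.sa') (by rw [S.M.vφ2]; exact C.sa)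
    (fun e e1 e2 e3 e4 => c2 e e1 (e2.trans vy) e3 e4)
  obtain ⟨x0, hx0⟩ : ∃ x0, x0 = S.M.v (S.M.α (S.M.φ a)) := ⟨_, rfl⟩
  rw [← hx0] at X
  obtain ⟨p1, hp1⟩ : ∃ p1 : V → Bool, p1 = fun x => s x && decide (x ≠ x0) := ⟨_, rfl⟩
  obtain ⟨p2, hp2⟩ : ∃ p2 : V → Bool, p2 = fun x => !s x && decide (x ≠ x0) := ⟨_, rfl⟩
  rw [← hp1, ← hp2] at X
  have hx0' : S.M.v (S.M.φ (S.M.φ a)) = x0 := by rw [hx0, vy]
  have sx0 : s x0 = false := by rw [← hx0']; exact C.sy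
  have sp : ∀ x, s x = p1 x := by
    intro x
    rw [hp1]
    show s x = (s x && decide (x ≠ x0))
    by_cases h0 : x = x0
    · rw [h0, sx0]; rfl
    · rw [decide_eq_true h0, Bool.and_true]
  have X' := X.symm rα
  have h7 : S.rc p2 ≤ 7 := by
    rw [← kc_card, X'.kc1 W fun _ _ => rfl]
    exact Finset.card_le_four.trans (by norm_num)
  obtain ⟨s2, b1, b2, b3⟩ := h.fix hΔ h7 ⟨_, rA' _ X.r3, X.a3⟩ ⟨_, X.xA, X.z2⟩
  obtain ⟨b, d1, d2⟩ := h.part hΔ b2 b3 (by rw [rc_congr W b1]; exact h7)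
    ⟨_, rA' _ X.r3, _, rA' _ X.r4, fun h0 => X.n34 (W.simple _ _ X.r3 X.r4
      (X.v3.trans X.v4.symm) h0), by rw [b1 _ (rA' _ X.r3)]; exact X.a3, by
      rw [b1 _ (rA' _ X.r4)]; exact X.a4⟩ ⟨x0, X.xA, by rw [b1 _ X.xA]; exact X.z2⟩
  have Y : Rf S p1 p2 s s2 := ⟨fun x _ => sp x, b1, H.hT, H.hF, b2, b3⟩
  have Z : Rv S L w s s2 cb b := ⟨g3, fun d0 hd0 => hole_vi h.ok H.hT H.hF ⟨_, vA, C.sa⟩
    ⟨_, hyA, C.sy⟩ hd0 g3, d1, d2 b d1⟩
  apply h.no
  rcases X.main W Y Z with h0 | ⟨e1, e2, e3', e4', e5⟩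
  · exact h0
  rw [S.M.αα] at e1 e5
  obtain ⟨r, hr⟩ : ∃ r : Bool, r = (cb (S.M.v e3) == b (S.M.v (S.M.α e3))) := ⟨_, rfl⟩
  obtain ⟨c, hc⟩ : ∃ c : V → Bool, ∀ x, c x = if p1 x = true then cb x else
    if p2 x = true then xor (b x) r else cb (S.M.v (S.M.φ a)) :=
    ⟨_, fun _ => rfl⟩
  have ca : ∀ x ∈ S.A, p1 x = true → c x = cb x := fun x _ h1 => by rw [hc, if_pos h1]
  have cb' : ∀ x ∈ S.A, p2 x = true → c x = xor (b x) r := fun x hx h1 => by
    rw [hc, if_neg (by rw [X.p1_of hx h1]; decide), if_pos h1]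
  have c0 : c x0 = cb (S.M.v (S.M.φ a)) := by
    rw [hc, if_neg (by rw [X.z1]; decide), if_neg (by rw [X.z2]; decide)]
  have Sb : Sol (sd S w s2 true) (sdL S L s2 true) (fun x => xor (b x) r) := by
    cases r
    · simpa using d1
    · simpa using d1.neg
  have f1 := ca _ (rA' _ X.r1) X.a1
  have f2 := ca _ (rA' _ X.r2) X.a2
  have f3 := cb' _ (rA' _ X.r3) X.a3
  have f4 := cb' _ (rA' _ X.r4) X.a4
  have g3' := ca _ (rA _ X.g3) X.b3
  have g4' := ca _ (rA _ X.g4) X.b4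
  have g5' := cb' _ (rA' _ X.g3) X.c3
  have g6' := cb' _ (rA' _ X.g4) X.c4
  rw [S.M.αα] at f1
  rw [S.M.vφ2] at f2 e1
  have key : ∀ {p1 q1 p2 q2 r : Bool}, r = (p2 == q2) → (p2 = p1 ↔ q2 = q1) →
      xor q1 r ≠ p1 ∧ p2 ≠ xor q2 r := by
    intro p1 q1 p2 q2 r h1 h2
    subst h1
    revert h2
    cases p1 <;> cases q1 <;> cases p2 <;> cases q2 <;> simp
  obtain ⟨k1, k2⟩ := key hr e5
  refine ⟨c, C.glue3 W hx0' X Y (b := fun x => xor (b x) r) ⟨ca, cb'⟩ H.ur H.uy ?_ ?_ ?_ ?_ ?_ ?_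
    g1 g2 Sb (d2 _ Sb)⟩
  · rw [f1, c0]
  · rw [f2, c0, e1]
  · rw [f3, c0]; exact k1
  · rw [f4, c0, ← e2]; exact k1
  · rw [g3', g5']; exact k2
  · rw [g4', g6', ← e3', ← e4']; exact k2

end Pool.FC7
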