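import Pool.Agent.FC7.Q5J

/-! # The bound 5 next to a gap corner -/

open Finset

set_option linter.unusedSectionVars false

namespace Pool.FC7

open Pool.FC6 Pool.FC6.St

variable {D V : Type} [Fintype D] [DecidableEq V] {S : St D V} {L : D → Bool} {w : D → ℕ} {Δ : ℕ}
  {U : V → Prop}

/-- a plain triangle in the flipped state -/
theorem Pt.flip {S' : St D V} (hs : Sim S S')
    (hφ : ∀ d, (∀ e, Fp S d e → S.real e = true) → S'.M.φ d = S.M.φ d) {s s0 : V → Bool} {k : D}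
    (P : Pt S L s k) (hl : ∀ d, Fp S k d → s0 (S.M.v d) = s0 (S.M.v (S.M.α d)) → L d = false) :
    Pt S' L s0 k := by
  have solid : ∀ {d}, Fp S k d → ∀ e, Fp S d e → S.real e = true := fun {d} hd e he => by
    have h1 : Fp S d k := fp_symm hd
    exact P.real e (fp_trans h1 he)
  have e1 : S'.M.φ k = S.M.φ k := hφ k (solid (Or.inl rfl))
  have e2 : S'.M.φ (S.M.φ k) = S.M.φ (S.M.φ k) := hφ _ (solid (Or.inr (Or.inl rfl)))
  have hfp : ∀ {d}, Fp S' k d → Fp S k d := by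
    rintro d (h | h | h)
    · exact Or.inl h
    · exact Or.inr (Or.inl (by rw [h, e1]))
    · exact Or.inr (Or.inr (by rw [h, e1, e2]))
  refine ⟨fun d hd => by rw [hs.hr]; exact P.real d (hfp hd),
    fun d hd => by rw [hs.hu]; exact P.u d (hfp hd), fun d hd h1 => ?_⟩
  have r := P.real d (hfp hd)
  refine hl d (hfp hd) ?_
  rw [hs.hv d r, hs.hvα r] at h1
  exact h1

theorem Pt.of_fp {s : V → Bool} {t k : D} (P : Pt S L s t) (h : Fp S t k) : Pt S L s k :=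
  ⟨fun d hd => P.real d (fp_trans (fp_symm h) hd), fun d hd => P.u d (fp_trans (fp_symm h) hd),
    fun d hd => P.lab d (fp_trans (fp_symm h) hd)⟩

/-- S1, if the exceptional positions do not occur -/
theorem MC.s1x (hΔ : Δ ≤ 6) (h : MC Δ S L w) (hS : IsStar S) {t : D} (hf : Fc3 S t)
    (G : Gco S t) {b : Bool} (hg : GeoP S t b) {s : V → Bool} (X : Sid S s t)
    (P : Pt S L s (Fd S t b)) (hL : L (if b then S.M.σ (S.M.σ (S.M.σ t)) else S.M.φ (S.M.φ t)) =
      false) : False := by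
  classical
  have W := h.ok.toWf
  obtain ⟨S', s0, k3, k4, hs, h', p1, p2, pφ, H, h34, t1, t2, hle, X0, T⟩ :=
    h.to_chy hΔ hS hf G hg X P.real
  have rA := W.real_A
  have rα := W.real_α
  have e2 : S'.M.φ (S'.M.φ (S.M.σ t)) = S.M.σ (S.M.σ t) := by rw [p1, p2]
  have hα : ∀ d, S'.M.α d = S.M.α d := hs.hα
  -- the labels
  have hl : ∀ d, Fp S (Fd S t b) d → s0 (S.M.v d) = s0 (S.M.v (S.M.α d)) → L d = false := by
    intro d hd h1
    by_cases h2 : s (S.M.v d) = s (S.M.v (S.M.α d))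
    · exact P.lab d hd h2
    have rd := P.real d hd
    have dA := rA d rd
    have dA' : S.M.v (S.M.α d) ∈ S.A := rA _ (by rw [rα]; exact rd)
    cases b
    · have hd : Fp S t d := hd
      rcases hd with e | e | e
      · rw [e, X0.s1, X0.sy] at h1
        exact absurd h1 (by decide)
      · have h3 : s0 (S.M.v d) = true := by rw [e, S.M.vφ]; exact X0.s1
        rw [h3] at h1
        apply absurd _ h2
        rw [hle _ dA h3, hle _ dA' h1.symm]
      · rw [e]; exact hL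
    · have hd : Fp S (S.M.α (S.M.σ (S.M.σ t))) d := hd
      rcases hd with e | e | e
      · rw [e, S.M.αα, S.M.vσ, S.M.vσ, X0.s2, X0.sy] at h1
        exact absurd h1 (by decide)
      · rw [e]; exact hL
      · have h3 : s0 (S.M.v (S.M.α d)) = true := by rw [e, S.M.vφ2]; exact X0.s2
        rw [h3] at h1
        apply absurd _ h2
        rw [hle _ dA h1, hle _ dA' h3]
  have P' := P.flip hs pφ hl
  -- the triangle
  have solid : ∀ {d}, Fp S (Fd S t b) d → ∀ e, Fp S d e → S.real e = true := fun {d} hd e he =>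
    P.real e (fp_trans (fp_symm hd) he)
  have hfp : ∀ {d}, Fp S (Fd S t b) d → Fp S' (Fd S t b) d := by
    intro d hd
    have e1 : S'.M.φ (Fd S t b) = S.M.φ (Fd S t b) := pφ _ (solid (Or.inl rfl))
    have e2 : S'.M.φ (S.M.φ (Fd S t b)) = S.M.φ (S.M.φ (Fd S t b)) :=
      pφ _ (solid (Or.inr (Or.inl rfl)))
    rcases hd with h | h | h
    · exact Or.inl h
    · exact Or.inr (Or.inl (by rw [h, e1]))
    · exact Or.inr (Or.inr (by rw [h, e1, e2]))
  have hf3 := hfp T.f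
  refine H.no hΔ h' h34 t1 t2 ?_
  cases b
  · right
    have hf3 : Fp S' t k3 := hf3
    have P' : Pt S' L s0 t := P'
    rw [p1, hα, S.M.αα]
    exact ⟨P'.of_fp hf3, fp_symm hf3⟩
  · left
    have hf3 : Fp S' (S.M.α (S.M.σ (S.M.σ t))) (S.M.α k3) := hf3
    have P' : Pt S' L s0 (S.M.α (S.M.σ (S.M.σ t))) := P'
    rw [e2, hα, hα]
    exact ⟨P', hf3⟩

/-- R(b), if the exceptional positions do not occur -/
theorem MC.r5bx (hΔ : Δ ≤ 6) (h : MC Δ S L w) (hS : IsStar S) {t : D} (hf : Fc3 S t)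
    (G : Gco S t) {b : Bool} (hg : GeoP S t b) {s : V → Bool} (X : Sid S s t)
    (F : ∀ d, Fp S (Fd S t b) d → S.real d = true) (hd : S.rdeg (S.M.v t) = 4)
    (c2 : ∀ e, S.real e = true → S.M.v e = S.M.v t → e ≠ t → e ≠ S.M.σ (S.M.σ t) →
      s (S.M.v (S.M.α e)) = false) : False := by
  classical
  have W := h.ok.toWf
  obtain ⟨S', s0, k3, k4, hs, h', p1, p2, pφ, H, h34, t1, t2, hle, X0, T⟩ :=
    h.to_chy hΔ hS hf G hg X F
  have rA := W.real_A
  have rα := W.real_α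
  have e2 : S'.M.φ (S'.M.φ (S.M.σ t)) = S.M.σ (S.M.σ t) := by rw [p1, p2]
  have hα : ∀ d, S'.M.α d = S.M.α d := hs.hα
  have v2 : S'.M.v (S.M.σ (S.M.σ t)) = S.M.v t := by rw [hs.hv _ G.r2, S.M.vσ, S.M.vσ]
  refine H.r5b hΔ h' t1 (by rw [e2, v2, hs.rdeg]; exact hd) fun e h1 h2 h3 h4 => ?_
  rw [hs.hr] at h1
  rw [e2, v2, hs.hv e h1] at h2
  rw [p1, hα, S.M.αα] at h3
  rw [e2] at h4
  rw [hs.hvα h1]
  have h5 := c2 e h1 h2 h3 h4
  cases h6 : s0 (S.M.v (S.M.α e))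
  · rfl
  · rw [hle _ (rA _ (by rw [rα]; exact h1)) h6] at h5
    exact absurd h5 (by decide)

/-- what is known about a gap corner with the exceptional case -/
structure Gx (S : St D V) (t : D) : Prop where
  geo : ¬ Sp5 S t → ∀ b, (∀ d, Fp S (Fd S t b) d → S.real d = true) → GeoP S t b
  sp : Sp5 S t → ∀ s : V → Bool, S.Two s true → S.Two s false → s (S.M.v t) ≠ s (S.M.v (S.M.α t)) →
    s (S.M.v t) ≠ s (S.M.v (S.M.α (S.M.σ (S.M.σ t)))) → 5 ≤ S.rc s

theorem two_neg5 {s : V → Bool} {b : Bool} (h : S.Two s b) : S.Two (fun x => !s x) (!b) := by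
  obtain ⟨x, hx, y, hy, hxy, sx, sy⟩ := h
  exact ⟨x, hx, y, hy, hxy, by simp [sx], by simp [sy]⟩

theorem Pt.neg {s : V → Bool} {t : D} (P : Pt S L s t) : Pt S L (fun x => !s x) t :=
  ⟨P.real, P.u, fun d hd h1 => P.lab d hd (by simpa using h1)⟩

/-- S1 -/
theorem MC.s1 (hΔ : Δ ≤ 6) (h : MC Δ S L w) (hS : IsStar S) {t : D} (hf : Fc3 S t)
    (G : Gco S t) (gx : Gx S t) {s : V → Bool} (h1 : S.Two s true) (h2 : S.Two s false)
    (c1 : s (S.M.v t) ≠ s (S.M.v (S.M.α t)))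
    (c2 : s (S.M.v t) ≠ s (S.M.v (S.M.α (S.M.σ (S.M.σ t)))))
    (P : (Pt S L s t ∧ L (S.M.φ (S.M.φ t)) = false) ∨
      (Pt S L s (S.M.α (S.M.σ (S.M.σ t))) ∧ L (S.M.σ (S.M.σ (S.M.σ t))) = false)) :
    5 ≤ S.rc s := by
  classical
  have W := h.ok.toWf
  have rα := W.real_α
  by_cases hsp : Sp5 S t
  · exact gx.sp hsp s h1 h2 c1 c2
  have hg := gx.geo hsp
  by_contra hlt
  have hA : ∀ {b}, S.Two s b → ∃ x ∈ S.A, s x = b := by
    rintro b ⟨x, hx, -, -, -, sx, -⟩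
    exact ⟨x, hx, sx⟩
  have h4 : S.rc s = 4 := by
    have := h.cut4 hΔ (hA h1) (hA h2)
    omega
  have key : ∀ s : V → Bool, S.rc s = 4 → S.Two s true → S.Two s false → s (S.M.v t) = false →
      s (S.M.v t) ≠ s (S.M.v (S.M.α t)) → s (S.M.v t) ≠ s (S.M.v (S.M.α (S.M.σ (S.M.σ t)))) →
      ((Pt S L s t ∧ L (S.M.φ (S.M.φ t)) = false) ∨
      (Pt S L s (S.M.α (S.M.σ (S.M.σ t))) ∧ L (S.M.σ (S.M.σ (S.M.σ t))) = false)) → False := by
    intro s h4 h1 h2 sy c1 c2 P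
    rw [sy] at c1 c2
    have X : Sid S s t := ⟨h4, h2, by simpa using c1.symm, by simpa using c2.symm, sy⟩
    rcases P with ⟨P, hL⟩ | ⟨P, hL⟩
    · exact h.s1x hΔ hS hf G (b := false) (hg false P.real) X P hL
    · exact h.s1x hΔ hS hf G (b := true) (hg true P.real) X P hL
  cases sy : s (S.M.v t)
  · exact key s h4 h1 h2 sy c1 c2 P
  · refine key (fun x => !s x) (by rw [rc_neg rα]; exact h4) (two_neg5 h2) (two_neg5 h1)
      (by simp [sy]) ?_ ?_ (P.imp (And.imp_left Pt.neg) (And.imp_left Pt.neg))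
    · simpa using c1
    · simpa using c2

/-- R(b) -/
theorem MC.r5b (hΔ : Δ ≤ 6) (h : MC Δ S L w) (hS : IsStar S) {t : D} (hf : Fc3 S t)
    (G : Gco S t) (gx : Gx S t) {s : V → Bool} (h1 : S.Two s true) (h2 : S.Two s false)
    (hd : S.rdeg (S.M.v t) = 4)
    (c1 : s (S.M.v (S.M.α (S.M.σ (S.M.σ t)))) = s (S.M.v (S.M.α t)))
    (c2 : ∀ e, S.M.v e = S.M.v t → S.real e = true → e ≠ t → e ≠ S.M.σ (S.M.σ t) →
      s (S.M.v (S.M.α e)) ≠ s (S.M.v (S.M.α t)))
    (F : S.real (S.M.σ (S.M.σ (S.M.σ t))) = true ∨ S.real (S.M.φ (S.M.φ t)) = true) :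
    5 ≤ S.rc s := by
  classical
  have W := h.ok.toWf
  have rα := W.real_α
  have rA := W.real_A
  have rA' : ∀ d, S.real d = true → S.M.v (S.M.α d) ∈ S.A := fun d hd =>
    rA _ (by rw [rα]; exact hd)
  by_contra hlt
  have hA : ∀ {b}, S.Two s b → ∃ x ∈ S.A, s x = b := by
    rintro b ⟨x, hx, -, -, -, sx, -⟩
    exact ⟨x, hx, sx⟩
  have h4 : S.rc s = 4 := by
    have := h.cut4 hΔ (hA h1) (hA h2)
    omega
  -- a solid triangle
  obtain ⟨b, hb⟩ : ∃ b, ∀ d, Fp S (Fd S t b) d → S.real d = true := by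
    rcases F with F | F
    · refine ⟨true, ?_⟩
      have r1 : S.real (S.M.α (S.M.σ (S.M.σ t))) = true := by rw [rα]; exact G.r2
      have r2 : S.real (S.M.φ (S.M.α (S.M.σ (S.M.σ t)))) = true := F
      rintro d (e | e | e)
      · rw [e]; exact r1
      · rw [e]; exact r2
      · rw [e]; exact hS.two _ r1 r2
    · refine ⟨false, ?_⟩
      have r3 : S.real (S.M.φ t) = true := by
        have := hS.two _ F (by rw [S.M.φ3]; exact G.r)
        rwa [S.M.φ3] at this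
      rintro d (e | e | e)
      · rw [e]; exact G.r
      · rw [e]; exact r3
      · rw [e]; exact F
  have key : ∀ s : V → Bool, S.rc s = 4 → s (S.M.v (S.M.α t)) = true →
      s (S.M.v (S.M.α (S.M.σ (S.M.σ t)))) = true →
      (∀ e, S.real e = true → S.M.v e = S.M.v t → e ≠ t → e ≠ S.M.σ (S.M.σ t) →
      s (S.M.v (S.M.α e)) = false) → False := by
    intro s h4 s1 s2 c2
    have v2 : S.M.v (S.M.σ (S.M.σ t)) = S.M.v t := by rw [S.M.vσ, S.M.vσ]
    obtain ⟨n2, -, n12, -⟩ := h.gco hΔ hS hf G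
    obtain ⟨t3, t4, e3, e4, X⟩ := h.to_rs hΔ h4 hd G.r G.r2 v2 n2 s1 s2 c2
    obtain ⟨p1, hp1⟩ : ∃ p1 : V → Bool, p1 = fun x => s x && decide (x ≠ S.M.v t) := ⟨_, rfl⟩
    obtain ⟨p2, hp2⟩ : ∃ p2 : V → Bool, p2 = fun x => !s x && decide (x ≠ S.M.v t) := ⟨_, rfl⟩
    rw [← hp1, ← hp2] at X
    have t3f : p1 (S.M.v (S.M.α t3)) = false := X.p1_of (rA' _ X.r3) X.a3
    have hk : S.rc p1 = 4 := by
      have k1 : S.rc p1 ≤ 4 := by
        rw [← kc_card, X.kc1 W fun _ _ => rfl]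
        exact Finset.card_le_four
      have k2 := h.cut4 hΔ (s := p1) ⟨_, rA' _ X.r1, X.a1⟩ ⟨_, X.xA, X.z1⟩
      omega
    have T1 : S.Two p1 true := ⟨_, rA' _ X.r1, _, rA' _ X.r2, fun h0 => n12 h0.symm, X.a1, X.a2⟩
    have T2 : S.Two p1 false := ⟨_, X.xA, _, rA' _ X.r3, fun h0 => by
      have := W.real_ne t3 X.r3
      rw [X.v3] at this
      exact this h0, X.z1, t3f⟩
    by_cases hsp : Sp5 S t
    · have := gx.sp hsp p1 T1 T2 (by rw [X.z1, X.a1]; decide) (by rw [X.z1, X.a2]; decide)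
      omega
    have Y : Sid S p1 t := ⟨hk, T2, X.a1, X.a2, X.z1⟩
    refine h.r5bx hΔ hS hf G (gx.geo hsp b hb) Y hb hd fun e h1 h2 h3 h4 => ?_
    have h5 := c2 e h1 h2 h3 h4
    rw [hp1]
    show (s (S.M.v (S.M.α e)) && _) = false
    rw [h5]; rfl
  cases h0 : s (S.M.v (S.M.α t))
  · refine key (fun x => !s x) (by rw [rc_neg rα]; exact h4) (by simp [h0])
      (by simp [c1, h0]) fun e h1 h2 h3 h4 => ?_
    have := c2 e h2 h1 h3 h4
    rw [h0] at this
    simpa using this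
  · refine key s h4 h0 (by rw [c1, h0]) fun e h1 h2 h3 h4 => ?_
    have := c2 e h2 h1 h3 h4
    rw [h0] at this
    simpa using this

end Pool.FC7
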