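import Pool.Agent.FC7.Q5K
import Pool.Agent.FC7.GeB

/-! # The gap corners of a region -/

open Finset

set_option linter.unusedSectionVars false

namespace Pool.FC7

open Pool.FC6 Pool.FC6.St

variable {D V : Type} [Fintype D] [DecidableEq V] {S : St D V} {L : D → Bool} {w : D → ℕ} {Δ : ℕ}
  {U : V → Prop}

/-- the geometry of a gap corner in the region -/
theorem MC.gx (hΔ : Δ ≤ 6) (h : MC Δ S L w) (hS : IsStar S) (hR : Reg S U) {t : D}
    (hU : U (S.M.v t)) (G : Gco S t) : Gx S t where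
  geo hsp b hF s k3 k4 h4 h2 K1 K2 K3 K4 n12 n31 n32 n41 n42 n34 f3 := by
    cases b
    · exact h.geo' hΔ hS hR hU G.r G.h G.r2 hF h4 h2 K1 K2 K3 K4 n12 n31.symm n41.symm
        n32.symm n42.symm n34 f3 hsp
    · exact h.geo hΔ hS hR hU G.r G.h G.r2 hF h4 h2 K1 K2 K3 K4 n12 n31.symm n41.symm
        n32.symm n42.symm n34 f3 hsp
  sp hsp _ h1 h2 c1 c2 := h.c5s hΔ hS h1 h2 G.r G.h hsp (Or.inl ⟨c1, c2⟩)

end Pool.FC7
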