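import Pool.Agent.FC7.Q5M

/-! # A gap corner between two solid triangles -/

open Finset

set_option linter.unusedSectionVars false

namespace Pool.FC7

open Pool.FC6 Pool.FC6.St

variable {D V : Type} [Fintype D] [DecidableEq V] {S : St D V} {L : D → Bool} {w : D → ℕ} {Δ : ℕ}
  {U : V → Prop}

/-- a gap corner between two solid triangles: the vertex and the third vertices of the two triangles
against the two neighbours of the gap -/
theorem MC.rN (hΔ : Δ ≤ 6) (h : MC Δ S L w) (hS : IsStar S) (hR : Reg S U) {t : D}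
    (hU : U (S.M.v t)) (rt : S.real t = true) (rg : S.real (S.M.σ t) = false)
    (rs : S.real (S.M.σ (S.M.σ t)) = true)
    (f2 : S.real (S.M.σ (S.M.σ (S.M.σ t))) = true) (f4 : S.real (S.M.φ (S.M.φ t)) = true)
    {s : V → Bool} (h1 : S.Two s true) (h2 : S.Two s false)
    (c1 : s (S.M.v t) ≠ s (S.M.v (S.M.α t)))
    (c2 : s (S.M.v t) ≠ s (S.M.v (S.M.α (S.M.σ (S.M.σ t)))))
    (c3 : s (S.M.v (S.M.α (S.M.σ (S.M.σ (S.M.σ t))))) = s (S.M.v t))
    (c4 : s (S.M.v (S.M.φ (S.M.φ t))) = s (S.M.v t)) : 5 ≤ S.rc s := by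
  classical
  have W := h.ok.toWf
  have rα := W.real_α
  have rA := W.real_A
  have rA' : ∀ d, S.real d = true → S.M.v (S.M.α d) ∈ S.A := fun d hd =>
    rA _ (by rw [rα]; exact hd)
  by_cases hsp : Sp5 S t
  · exact h.c5s hΔ hS h1 h2 rt rg hsp (Or.inl ⟨c1, c2⟩)
  by_contra hlt
  have hA : ∀ {b}, S.Two s b → ∃ x ∈ S.A, s x = b := by
    rintro b ⟨x, hx, -, -, -, sx, -⟩
    exact ⟨x, hx, sx⟩
  have h4 : S.rc s = 4 := by
    have := h.cut4 hΔ (hA h1) (hA h2)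
    omega
  -- the two triangles
  have q1 : S.real (S.M.α (S.M.σ (S.M.σ t))) = true := by rw [rα]; exact rs
  have q2 : S.real (S.M.φ (S.M.α (S.M.σ (S.M.σ t)))) = true := f2
  have q3 : S.real (S.M.φ (S.M.φ (S.M.α (S.M.σ (S.M.σ t))))) = true := hS.two _ q1 q2
  have q4 : S.real (S.M.φ t) = true := by
    have := hS.two _ f4 (by rw [S.M.φ3]; exact rt)
    rwa [S.M.φ3] at this
  have hF : ∀ d, Fp S (S.M.α (S.M.σ (S.M.σ t))) d → S.real d = true := by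
    rintro d (e | e | e)
    · rw [e]; exact q1
    · rw [e]; exact q2
    · rw [e]; exact q3
  have v2 : S.M.v (S.M.σ (S.M.σ t)) = S.M.v t := by rw [S.M.vσ, S.M.vσ]
  have v3 : S.M.v (S.M.σ (S.M.σ (S.M.σ t))) = S.M.v t := by rw [S.M.vσ, v2]
  have nt : S.M.σ (S.M.σ t) ≠ t := σσ_ne (h.rdeg4 hΔ (rA _ rt))
  have n12 : S.M.v (S.M.α t) ≠ S.M.v (S.M.α (S.M.σ (S.M.σ t))) := fun h0 =>
    nt (W.simple _ _ rs rt v2 h0.symm)
  -- the third vertices
  obtain ⟨k3, hk3⟩ : ∃ k3, k3 = S.M.α (S.M.φ (S.M.φ (S.M.α (S.M.σ (S.M.σ t))))) := ⟨_, rfl⟩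
  have ak3 : S.M.α k3 = S.M.φ (S.M.φ (S.M.α (S.M.σ (S.M.σ t)))) := by rw [hk3, S.M.αα]
  have vk3 : S.M.v k3 = S.M.v (S.M.α (S.M.σ (S.M.σ t))) := by
    rw [hk3, ← S.M.vφ, S.M.φ3]
  have vak3 : S.M.v (S.M.α k3) = S.M.v (S.M.α (S.M.σ (S.M.σ (S.M.σ t)))) := by
    rw [ak3, S.M.vφ]; rfl
  have vk4 : S.M.v (S.M.φ t) = S.M.v (S.M.α t) := S.M.vφ t
  have vak4 : S.M.v (S.M.α (S.M.φ t)) = S.M.v (S.M.φ (S.M.φ t)) := (S.M.vφ (S.M.φ t)).symm
  have rk3 : S.real k3 = true := by rw [hk3, rα]; exact q3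
  have key : ∀ s : V → Bool, S.rc s = 4 → S.Two s false → s (S.M.v t) = false →
      s (S.M.v (S.M.α t)) = true → s (S.M.v (S.M.α (S.M.σ (S.M.σ t)))) = true →
      s (S.M.v (S.M.α (S.M.σ (S.M.σ (S.M.σ t))))) = false →
      s (S.M.v (S.M.φ (S.M.φ t))) = false → False := by
    intro s h4 h2 sy s1 s2 s3 s4
    have K1 : S.M.α t ∈ kc S s := mem_kc.2 ⟨by rw [rα]; exact rt, s1, by rw [S.M.αα]; exact sy⟩
    have K2 : S.M.α (S.M.σ (S.M.σ t)) ∈ kc S s := mem_kc.2 ⟨q1, s2, by rw [S.M.αα, v2]; exact sy⟩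
    have K3 : k3 ∈ kc S s := mem_kc.2 ⟨rk3, by rw [vk3]; exact s2, by rw [vak3]; exact s3⟩
    have K4 : S.M.φ t ∈ kc S s := mem_kc.2 ⟨q4, by rw [vk4]; exact s1, by rw [vak4]; exact s4⟩
    -- the heads
    have ny3 : S.M.v (S.M.α (S.M.σ (S.M.σ (S.M.σ t)))) ≠ S.M.v t := fun h0 =>
      W.real_ne _ f2 (by rw [h0, v3])
    have ny4 : S.M.v (S.M.φ (S.M.φ t)) ≠ S.M.v t := fun h0 => by
      have := W.real_ne _ f4
      rw [h0, ← S.M.vφ, S.M.φ3] at this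
      exact this rfl
    have m12 : S.M.α t ≠ S.M.α (S.M.σ (S.M.σ t)) := fun h0 => n12 (by rw [h0])
    have m13 : S.M.α t ≠ k3 := fun h0 => ny3 (by rw [← vak3, ← h0, S.M.αα])
    have m23 : S.M.α (S.M.σ (S.M.σ t)) ≠ k3 := fun h0 => ny3 (by rw [← vak3, ← h0, S.M.αα, v2])
    have m14 : S.M.α t ≠ S.M.φ t := fun h0 => ny4 (by rw [← vak4, ← h0, S.M.αα])
    have m24 : S.M.α (S.M.σ (S.M.σ t)) ≠ S.M.φ t := fun h0 =>
      ny4 (by rw [← vak4, ← h0, S.M.αα, v2])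
    have m34 : k3 ≠ S.M.φ t := fun h0 => n12 (by rw [← vk4, ← h0, vk3])
    exact (h.geo hΔ hS hR hU rt rg rs hF h4 h2 K1 K2 K3 K4 m12 m13 m14 m23 m24 m34
      (Or.inr (Or.inr ak3)) hsp).2.2.1 ⟨vk3, vk4⟩
  cases sy : s (S.M.v t)
  · rw [sy] at c1 c2 c3 c4
    exact key s h4 h2 sy (by simpa using c1.symm) (by simpa using c2.symm) c3 c4
  · rw [sy] at c1 c2 c3 c4
    exact key (fun x => !s x) (by rw [rc_neg rα]; exact h4) (two_neg5 h1) (by simp [sy])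
      (by simpa using c1.symm) (by simpa using c2.symm) (by simp [c3]) (by simp [c4])

/-- at most half of the real darts of a vertex leave its side of a smallest cut -/
theorem MC.lv2 (hΔ : Δ ≤ 6) (h : MC Δ S L w) {s : V → Bool} (h4 : S.rc s = 4) {y : V}
    (hy : y ∈ S.A) (h2 : S.Two s (s y)) (h1 : ∃ x ∈ S.A, s x ≠ s y) {a b c : D}
    (va : S.M.v a = y) (vb : S.M.v b = y) (vc : S.M.v c = y) (ra : S.real a = true)
    (rb : S.real b = true) (rc : S.real c = true) (hd : S.rdeg y ≤ 5) (nab : a ≠ b) (nac : a ≠ c)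
    (nbc : b ≠ c) (sa : s (S.M.v (S.M.α a)) ≠ s y) (sb : s (S.M.v (S.M.α b)) ≠ s y) :
    s (S.M.v (S.M.α c)) = s y := by
  classical
  have W := h.ok.toWf
  have rα := W.real_α
  have rA := W.real_A
  by_contra sc
  obtain ⟨sg, hsg⟩ : ∃ sg : Finset V, sg = S.A.filter fun x => s x = s y := ⟨_, rfl⟩
  have hys : y ∈ sg := by rw [hsg]; exact Finset.mem_filter.2 ⟨hy, rfl⟩
  have e1 := rc_erase rα W.real_ne hys
  have e2 : S.rc (ind sg) = 4 := by
    have e3 : S.rc (ind sg) = S.rc (fun x => decide (s x = s y)) := by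
      refine FC6.St.rc_congr rA rα fun x hx => ?_
      rw [hsg]
      unfold ind
      by_cases h0 : s x = s y
      · simp [h0, hx]
      · simp [h0]
    rw [e3, ← h4]
    cases sy : s y
    · rw [← rc_neg rα s]
      congr 1
      funext x
      cases s x <;> rfl
    · congr 1
      funext x
      cases s x <;> rfl
  have e3 : 4 ≤ S.rc (ind (sg.erase y)) := by
    obtain ⟨p, hp, q, hq, hpq, sp, sq⟩ := h2
    obtain ⟨x, hx, hxs⟩ := h1
    refine h.cut4 hΔ ?_ ⟨x, hx, ind_false.2 fun h0 => ?_⟩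
    · by_cases hpy : p = y
      · refine ⟨q, hq, ind_true.2 (Finset.mem_erase.2 ⟨fun h0 => hpq (hpy.trans h0.symm), ?_⟩)⟩
        rw [hsg]; exact Finset.mem_filter.2 ⟨hq, sq⟩
      · refine ⟨p, hp, ind_true.2 (Finset.mem_erase.2 ⟨hpy, ?_⟩)⟩
        rw [hsg]; exact Finset.mem_filter.2 ⟨hp, sp⟩
    · have := Finset.mem_of_mem_erase h0
      rw [hsg] at this
      exact hxs (Finset.mem_filter.1 this).2
  have e4 : 3 ≤ S.lv sg y := by
    unfold lv
    rw [← Finset.card_filter]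
    have m : ∀ d, S.M.v d = y → S.real d = true → s (S.M.v (S.M.α d)) ≠ s y →
        d ∈ Finset.univ.filter fun d => S.M.v d = y ∧ S.real d = true ∧ S.M.v (S.M.α d) ∉ sg := by
      intro d d1 d2 d3
      refine Finset.mem_filter.2 ⟨Finset.mem_univ _, d1, d2, fun h0 => ?_⟩
      rw [hsg] at h0
      exact d3 (Finset.mem_filter.1 h0).2
    have hsub : ({a, b, c} : Finset D) ⊆ Finset.univ.filter fun d => S.M.v d = y ∧
        S.real d = true ∧ S.M.v (S.M.α d) ∉ sg := by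
      intro d hd
      simp only [Finset.mem_insert, Finset.mem_singleton] at hd
      rcases hd with e | e | e
      · rw [e]; exact m a va ra sa
      · rw [e]; exact m b vb rb sb
      · rw [e]; exact m c vc rc sc
    have hc : ({a, b, c} : Finset D).card = 3 := by
      rw [Finset.card_insert_of_notMem, Finset.card_pair nbc]
      simp only [Finset.mem_insert, Finset.mem_singleton, not_or]
      exact ⟨nab, nac⟩
    rw [← hc]
    exact Finset.card_le_card hsub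
  omega

/-- a gap corner between two solid triangles, real degree at most five -/
theorem MC.rN5 (hΔ : Δ ≤ 6) (h : MC Δ S L w) (hS : IsStar S) (hR : Reg S U) {t : D}
    (hU : U (S.M.v t)) (rt : S.real t = true) (rg : S.real (S.M.σ t) = false)
    (rs : S.real (S.M.σ (S.M.σ t)) = true)
    (f2 : S.real (S.M.σ (S.M.σ (S.M.σ t))) = true) (f4 : S.real (S.M.φ (S.M.φ t)) = true)
    {s : V → Bool} (h1 : S.Two s true) (h2 : S.Two s false)
    (c1 : s (S.M.v t) ≠ s (S.M.v (S.M.α t)))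
    (c2 : s (S.M.v t) ≠ s (S.M.v (S.M.α (S.M.σ (S.M.σ t)))))
    (hc : (s (S.M.v (S.M.α (S.M.σ (S.M.σ (S.M.σ t))))) = s (S.M.v t) ∧
      s (S.M.v (S.M.φ (S.M.φ t))) = s (S.M.v t)) ∨ S.rdeg (S.M.v t) ≤ 5) : 5 ≤ S.rc s := by
  classical
  have W := h.ok.toWf
  have rα := W.real_α
  have rA := W.real_A
  rcases hc with ⟨c3, c4⟩ | hd
  · exact h.rN hΔ hS hR hU rt rg rs f2 f4 h1 h2 c1 c2 c3 c4
  by_contra hlt
  have hA : ∀ {b}, S.Two s b → ∃ x ∈ S.A, s x = b := by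
    rintro b ⟨x, hx, -, -, -, sx, -⟩
    exact ⟨x, hx, sx⟩
  have h4 : S.rc s = 4 := by
    have := h.cut4 hΔ (hA h1) (hA h2)
    omega
  apply hlt
  have v2 : S.M.v (S.M.σ (S.M.σ t)) = S.M.v t := by rw [S.M.vσ, S.M.vσ]
  have v3 : S.M.v (S.M.σ (S.M.σ (S.M.σ t))) = S.M.v t := by rw [S.M.vσ, v2]
  have v4 : S.M.v (S.M.α (S.M.φ (S.M.φ t))) = S.M.v t := by rw [← S.M.vφ, S.M.φ3]
  have nt : S.M.σ (S.M.σ t) ≠ t := σσ_ne (h.rdeg4 hΔ (rA _ rt))
  have hT : S.Two s (s (S.M.v t)) := by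
    cases s (S.M.v t)
    · exact h2
    · exact h1
  have hx : ∃ x ∈ S.A, s x ≠ s (S.M.v t) :=
    ⟨_, rA (S.M.α t) (by rw [rα]; exact rt), fun h0 => c1 h0.symm⟩
  have hne : ∀ a b, s (S.M.v (S.M.α a)) ≠ s (S.M.v t) → s (S.M.v (S.M.α b)) = s (S.M.v t) →
      a ≠ b := fun a b h1 h2 h0 => h1 (by rw [h0]; exact h2)
  have h8 := h.rdeg4 hΔ (rA _ rt)
  have n3 : S.M.σ (S.M.σ (S.M.σ t)) ≠ t := fun h5 => by
    have h7 := rdeg_le_iter (S := S) (n := 3) (by norm_num) (y := t) h5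
    have h9 := Finset.card_filter_le (Finset.range 3) fun i => S.real (S.M.σ^[i] t) = true
    rw [Finset.card_range] at h9
    omega
  have n1 : S.M.σ (S.M.σ t) ≠ S.M.σ (S.M.σ (S.M.σ t)) := fun h5 => by
    have h7 := rdeg_le_iter (S := S) (n := 1) (by norm_num) (y := S.M.σ (S.M.σ t)) h5.symm
    have h9 := Finset.card_filter_le (Finset.range 1) fun i =>
      S.real (S.M.σ^[i] (S.M.σ (S.M.σ t))) = true
    rw [Finset.card_range] at h9
    rw [v2] at h7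
    omega
  have c3 : s (S.M.v (S.M.α (S.M.σ (S.M.σ (S.M.σ t))))) = s (S.M.v t) := by
    by_contra h0
    exact h0 (h.lv2 hΔ h4 (rA _ rt) hT hx rfl v2 v3 rt rs f2 hd nt.symm n3.symm n1 c1.symm
      c2.symm)
  have c4 : s (S.M.v (S.M.φ (S.M.φ t))) = s (S.M.v t) := by
    by_contra h0
    have r4 : S.real (S.M.α (S.M.φ (S.M.φ t))) = true := by rw [rα]; exact f4
    have q4 : S.real (S.M.φ t) = true := by
      have := hS.two _ f4 (by rw [S.M.φ3]; exact rt)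
      rwa [S.M.φ3] at this
    have m1 : t ≠ S.M.α (S.M.φ (S.M.φ t)) := fun h5 => by
      have h6 := W.real_ne _ q4
      rw [S.M.vφ, ← S.M.vφ (S.M.φ t)] at h6
      apply h6
      conv_lhs => rw [h5]
      rw [S.M.αα]
    have m2 : S.M.σ (S.M.σ t) ≠ S.M.α (S.M.φ (S.M.φ t)) := fun h5 => by
      apply n3
      rw [h5]
      show S.M.φ (S.M.α (S.M.α (S.M.φ (S.M.φ t)))) = t
      rw [S.M.αα, S.M.φ3]
    have h6 := h.lv2 hΔ h4 (rA _ rt) hT hx rfl v2 v4 rt rs r4 hd nt.symm m1 m2 c1.symm c2.symm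
    rw [S.M.αα] at h6
    exact h0 h6
  exact h.rN hΔ hS hR hU rt rg rs f2 f4 h1 h2 c1 c2 c3 c4

end Pool.FC7
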