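import Pool.Agent.FC7.Q5O
import Pool.Agent.FC7.GeA

/-! # Cuts with four real edges: the types of the solutions of the two sides

On one side of a cut with four edges every solution gives one colour to the four ends (the constant
side); on the other side every solution splits the four ends into two neighbouring pairs. -/

open Finset

set_option linter.unusedSectionVars false

namespace Pool.FC7

open Pool.FC6 Pool.FC6.St

variable {D V : Type} [Fintype D] [DecidableEq V] {S : St D V} {L : D → Bool} {w : D → ℕ} {Δ : ℕ}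
  {U : V → Prop}

/-- the end of a cut edge on the side `b` -/
def kEnd (S : St D V) (b : Bool) (k : D) : V := cond b (S.M.v k) (S.M.v (S.M.α k))

/-- the face of `d` carries a unit or a labelled edge -/
def Nd (S : St D V) (L : D → Bool) (d : D) : Prop :=
  ∃ e, S.sc.r d e ∧ (S.u e ≠ 0 ∨ L e = true)

/-- the ring of a cut with four edges -/
structure Rk (S : St D V) (s : V → Bool) (k1 k2 k3 k4 : D) : Prop where
  mem : ∀ k, k ∈ kc S s ↔ k = k1 ∨ k = k2 ∨ k = k3 ∨ k = k4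
  n12 : k1 ≠ k2
  n13 : k1 ≠ k3
  n14 : k1 ≠ k4
  n23 : k2 ≠ k3
  n24 : k2 ≠ k4
  n34 : k3 ≠ k4
  f1 : S.sc.r (S.M.α k1) k2
  f2 : S.sc.r (S.M.α k2) k3
  f3 : S.sc.r (S.M.α k3) k4
  f4 : S.sc.r (S.M.α k4) k1

/-- the colouring splits the ends of `k1, k2` and of `k3, k4` -/
def Spl (S : St D V) (b : Bool) (c : V → Bool) (k1 k2 k3 k4 : D) : Prop :=
  c (kEnd S b k1) = c (kEnd S b k2) ∧ c (kEnd S b k3) = c (kEnd S b k4) ∧
    c (kEnd S b k1) ≠ c (kEnd S b k3)

/-- one colour at the four ends -/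
def Cst (S : St D V) (b : Bool) (c : V → Bool) (k1 k2 k3 k4 : D) : Prop :=
  c (kEnd S b k1) = c (kEnd S b k2) ∧ c (kEnd S b k2) = c (kEnd S b k3) ∧
    c (kEnd S b k3) = c (kEnd S b k4)

/-- what a split of the ends of `k1, k2` and of `k3, k4` on the side `b` needs -/
def O4 (S : St D V) (L : D → Bool) (s : V → Bool) (b : Bool) (k1 k2 k3 k4 : D) : Prop :=
  kEnd S b k2 ≠ kEnd S b k3 ∧ kEnd S b k4 ≠ kEnd S b k1 ∧ ¬ Pt S L s k2 ∧ ¬ Pt S L s k4

theorem Rk.rot {s : V → Bool} {k1 k2 k3 k4 : D} (R : Rk S s k1 k2 k3 k4) : Rk S s k2 k3 k4 k1 where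
  mem k := by rw [R.mem]; tauto
  n12 := R.n23
  n13 := R.n24
  n14 := R.n12.symm
  n23 := R.n34
  n24 := R.n13.symm
  n34 := R.n14.symm
  f1 := R.f2
  f2 := R.f3
  f3 := R.f4
  f4 := R.f1

theorem Spl.not_cst {b : Bool} {c : V → Bool} {k1 k2 k3 k4 : D} (h : Spl S b c k1 k2 k3 k4) :
    ¬ Cst S b c k1 k2 k3 k4 := fun h' => h.2.2 (h'.1.trans h'.2.1)

theorem Spl.not_cst' {b : Bool} {c : V → Bool} {k1 k2 k3 k4 : D} (h : Spl S b c k2 k3 k4 k1) :
    ¬ Cst S b c k1 k2 k3 k4 := fun h' => h.2.2 (h'.2.1.trans h'.2.2)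

/-- the test functions of a side on the mixed darts -/
theorem sd_mix (W : Wf Δ S L w) {s : V → Bool} (hT : ConS S.M s true) (hF : ConS S.M s false)
    {b : Bool} {c : V → Bool} {g : D → ℝ} (hg : (sd S w s b).Test c g) {d d' : D}
    (hd : s (S.M.v d) ≠ s (S.M.v (S.M.α d))) (hd' : s (S.M.v d') ≠ s (S.M.v (S.M.α d'))) :
    g d = g d' :=
  cut_const S.M hT hF hg.1 (fun _ he => hg.2 _ (Or.inl (sd_virt W.real_A W.real_α he))) hd hd'

/-- the restriction of a colouring to a side with a bichromatic edge -/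
theorem Nso.side (W : Wf Δ S L w) {s : V → Bool} (hT : ConS S.M s true) (hF : ConS S.M s false)
    {a : V → Bool} (ha : Nso S a) {b : Bool} {e0 : D} (he0 : Br S a e0) (h1 : s (S.M.v e0) = b)
    (h2 : s (S.M.v (S.M.α e0)) = b) {k0 : D} (m0 : s (S.M.v k0) ≠ s (S.M.v (S.M.α k0)))
    (hv0 : Vi S a k0) {k1 : D} (m1 : s (S.M.v k1) ≠ s (S.M.v (S.M.α k1)))
    (req : ∀ d, S.u d ≠ 0 → Vi S a d ∨ S.sc.r k1 d)
    (lab : ∀ d, L d = true → (Vi S a d ∨ Vi S a (S.M.α d)) ∨ S.sc.r k1 d ∨ S.sc.r k1 (S.M.α d)) :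
    Sol (sd S w s b) (sdL S L s b) a := by
  have rA := W.real_A
  have rα := W.real_α
  have T : ∀ g : D → ℝ, (sd S w s b).Test a g → S.Test a g := fun g hg =>
    ⟨hg.1, fun d hd => hg.2 d (by
      rcases hd with hd | hd
      · left
        by_contra hc
        have h3 := ((sd_real (w := w) (s := s) (b := b) rA rα).1 (by simpa using hc)).1
        rw [hd] at h3
        exact absurd h3 (by decide)
      · exact Or.inr hd)⟩
  have E0 : Br (sd S w s b) a e0 := ⟨(sd_real rA rα).2 ⟨he0.1, h1, h2⟩, he0.2⟩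
  have tr : ∀ d, Vi S a d → Vi (sd S w s b) a d := by
    rintro d ⟨e, e1, e2⟩
    refine ⟨e0, E0, fun g hg => ?_⟩
    rw [← e2 g (T g hg)]
    exact ha.con g (T g hg) e0 e he0 e1
  have mx : ∀ d, s (S.M.v d) ≠ s (S.M.v (S.M.α d)) → Vi (sd S w s b) a d := fun d hd =>
    (tr k0 hv0).eq fun g hg => sd_mix W hT hF hg m0 hd
  have scv : ∀ d, S.sc.r k1 d → Vi (sd S w s b) a d := fun d hd =>
    (mx k1 m1).eq fun g hg => S.cl_sc ⟨hg.1, fun e he => (T g hg).2 e (Or.inl he)⟩ hd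
  have q : ∀ d, Br (sd S w s b) a d → Br S a d := fun d hd => ⟨((sd_real rA rα).1 hd.1).1, hd.2⟩
  refine ⟨fun g hg d d' hd hd' => ?_, fun x hx => ?_, fun d hd => ?_, fun d hd => ?_⟩
  · exact ha.con g (T g hg) d d' (q d hd) (q d' hd')
  · obtain ⟨d, e1, e2⟩ := ha.live x (Finset.mem_sdiff.1 hx).1
    exact ⟨d, e1, tr d e2⟩
  · change (if S.M.v d ∈ (S.A.filter fun y => s y ≠ b) then 0 else S.u d +
        (if S.real d = true ∧ S.M.v (S.M.α d) ∈ (S.A.filter fun y => s y ≠ b) then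
          1 + w d else 0)) ≠ 0 at hd
    by_cases h3 : S.M.v d ∈ (S.A.filter fun y => s y ≠ b)
    · rw [if_pos h3] at hd
      exact absurd rfl hd
    · rw [if_neg h3] at hd
      by_cases h4 : S.real d = true ∧ S.M.v (S.M.α d) ∈ (S.A.filter fun y => s y ≠ b)
      · refine mx d fun h5 => ?_
        have h6 := (Finset.mem_filter.1 h4.2).2
        have h7 : s (S.M.v d) = b := by
          by_contra h8
          exact h3 (Finset.mem_filter.2 ⟨rA d h4.1, h8⟩)
        exact h6 (h5.symm.trans h7)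
      · rw [if_neg h4, Nat.add_zero] at hd
        rcases req d hd with h5 | h5
        · exact tr d h5
        · exact scv d h5
  · have hl : L d = true := by
      have h3 : (L d && (sd S w s b).real d) = true := hd
      rw [Bool.and_eq_true] at h3
      exact h3.1
    rcases lab d hl with (h5 | h5) | h5 | h5
    · exact Or.inl (tr d h5)
    · exact Or.inr (tr _ h5)
    · exact Or.inl (scv d h5)
    · exact Or.inr (scv _ h5)

/-- the side `b` has a solution -/
theorem MC.sds (hΔ : Δ ≤ 6) (h : MC Δ S L w) {s : V → Bool} {b : Bool} (hz : ∃ z ∈ S.A, s z ≠ b)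
    (n : ∃ d, S.real d = true ∧ s (S.M.v d) = b ∧ s (S.M.v (S.M.α d)) = b) :
    ∃ cb, Sol (sd S w s b) (sdL S L s b) cb := by
  obtain ⟨d, hd⟩ := n
  have hne : ∃ d, (S.del (S.A.filter fun x => s x ≠ b)).real d = true :=
    ⟨d, (sd_real (w := w) h.ok.real_A h.ok.real_α).2 hd⟩
  obtain ⟨z, hz, hzb⟩ := hz
  exact h.min D V _ _ _ (h.w1.dl _) (h.ok.dl hne) (mu_dl h.ok hΔ
    (Finset.filter_subset _ _) ⟨z, Finset.mem_filter.2 ⟨hz, hzb⟩⟩ hne)

/-- a pair of solutions of the two sides -/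
theorem MC.prS (h : MC Δ S L w) {s : V → Bool} (hT : ConS S.M s true) (hF : ConS S.M s false)
    (hx : ∃ x ∈ S.A, s x = true) (hy : ∃ x ∈ S.A, s x = false) {a b : V → Bool}
    (ha : Sol (sd S w s true) (sdL S L s true) a) (hb : Sol (sd S w s false) (sdL S L s false) b) :
    Sides S L w s (fun x => if s x = true then a x else b x) := by
  intro d0 hd0 β
  cases β
  · exact ⟨b, fun x hx => if_neg (by rw [hx]; decide), hb, hole_vi h.ok hT hF hx hy hd0 hb⟩
  · exact ⟨a, fun x hx => if_pos hx, ha, hole_vi h.ok hT hF hx hy hd0 ha⟩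

section

variable {s : V → Bool} {k1 k2 k3 k4 : D} (R : Rk S s k1 k2 k3 k4)

include R

theorem Rk.K1 : k1 ∈ kc S s := (R.mem _).2 (Or.inl rfl)

theorem Rk.K2 : k2 ∈ kc S s := (R.mem _).2 (Or.inr (Or.inl rfl))

theorem Rk.K3 : k3 ∈ kc S s := (R.mem _).2 (Or.inr (Or.inr (Or.inl rfl)))

theorem Rk.K4 : k4 ∈ kc S s := (R.mem _).2 (Or.inr (Or.inr (Or.inr rfl)))

variable (W : Wf Δ S L w) (hT : ConS S.M s true) (hF : ConS S.M s false)

include W hT hF

/-- two bichromatic edges, the other two ends have different colours -/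
theorem Rk.diff {c : V → Bool} (hs : Sides S L w s c)
    (n1 : c (S.M.v k1) ≠ c (S.M.v (S.M.α k1))) (n2 : c (S.M.v k2) ≠ c (S.M.v (S.M.α k2)))
    (d : c (S.M.v k3) ≠ c (S.M.v k4)) : Sol S L c := by
  refine sol_of_diff W hT hF hs R.K1 fun k hk k' hk' a b e => ?_
  rcases (R.mem k).1 hk with g | g | g | g
  · rw [g] at a; exact absurd a n1
  · rw [g] at a; exact absurd a n2
  · rcases (R.mem k').1 hk' with g' | g' | g' | g'
    · rw [g'] at b; exact absurd b n1
    · rw [g'] at b; exact absurd b n2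
    · rw [g, g']
    · rw [g, g'] at e; exact absurd e d
  · rcases (R.mem k').1 hk' with g' | g' | g' | g'
    · rw [g'] at b; exact absurd b n1
    · rw [g'] at b; exact absurd b n2
    · rw [g, g'] at e; exact absurd e.symm d
    · rw [g, g']

/-- a plain triangle between the two monochromatic edges -/
theorem Rk.np {c : V → Bool} (hs : Sides S L w s c) (hno : ¬ ∃ c, Sol S L c)
    (m1 : c (S.M.v k1) = c (S.M.v (S.M.α k1))) (m2 : c (S.M.v k2) = c (S.M.v (S.M.α k2)))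
    (e : c (S.M.v k2) = c (S.M.v k1)) (n3 : c (S.M.v k3) ≠ c (S.M.v (S.M.α k3)))
    (n4 : c (S.M.v k4) ≠ c (S.M.v (S.M.α k4))) : ¬ Pt S L s k2 := fun P => by
  refine hno ⟨c, sol_of_face W hT hF hs R.K2 R.K1 R.K3 R.n12.symm R.n23.symm R.n13.symm P
    (sc_fp W.real_α P.real (S.sc.iseqv.symm R.f1)) m2 m1 e fun k hk g1 g2 => ?_⟩
  rcases (R.mem k).1 hk with g | g | g | g
  · exact absurd g g2
  · exact absurd g g1
  · rw [g]; exact n3
  · rw [g]; exact n4

/-- the type of a pair of solutions, the second edge is monochromatic -/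
theorem Rk.typ1 (hno : ¬ ∃ c, Sol S L c) {c1 c2 : V → Bool}
    (hx : ∀ x, s x = true → c1 x = c2 x) (hy : ∀ x, s x = false → c1 x = !c2 x)
    (S1 : Sides S L w s c1) (S2 : Sides S L w s c2)
    (m2 : c1 (S.M.v k2) = c1 (S.M.v (S.M.α k2))) :
    (c1 (S.M.v k1) = c1 (S.M.v (S.M.α k1)) ∧ c1 (S.M.v k3) ≠ c1 (S.M.v (S.M.α k3)) ∧
      c1 (S.M.v k4) ≠ c1 (S.M.v (S.M.α k4)) ∧ c1 (S.M.v k2) = c1 (S.M.v k1) ∧
      c1 (S.M.v k3) = c1 (S.M.v k4)) ∨
    (c1 (S.M.v k3) = c1 (S.M.v (S.M.α k3)) ∧ c1 (S.M.v k4) ≠ c1 (S.M.v (S.M.α k4)) ∧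
      c1 (S.M.v k1) ≠ c1 (S.M.v (S.M.α k1)) ∧ c1 (S.M.v k3) = c1 (S.M.v k2) ∧
      c1 (S.M.v k4) = c1 (S.M.v k1)) := by
  classical
  have hK : kc S s = {k1, k2, k3, k4} := by
    ext k
    rw [R.mem]
    simp only [Finset.mem_insert, Finset.mem_singleton]
  have bi : ∀ k ∈ kc S s, c1 (S.M.v k) = c1 (S.M.v (S.M.α k)) →
      c2 (S.M.v k) ≠ c2 (S.M.v (S.M.α k)) := by
    intro k hk h0
    obtain ⟨-, a1, a2⟩ := mem_kc.1 hk
    rw [hx _ a1, hy _ a2] at h0
    rw [h0]
    cases c2 (S.M.v (S.M.α k)) <;> decide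
  have v : ∀ k ∈ kc S s, c1 (S.M.v k) = c2 (S.M.v k) := fun k hk => hx _ (mem_kc.1 hk).2.1
  by_contra hg
  apply hno
  refine core5 W hT hF hx hy S1 S2 hK R.n12 R.n13 R.n14 R.n23 R.n24 R.n34 R.f1 R.f2
    (fun a1 a2 e n3 n4 => ?_) (fun a2 a3 e n1 n4 => ?_) m2
  · refine ⟨c2, R.diff W hT hF S2 (bi _ R.K1 a1) (bi _ R.K2 a2) fun h0 => hg (Or.inl
      ⟨a1, n3, n4, e, ?_⟩)⟩
    rw [v _ R.K3, v _ R.K4, h0]
  · refine ⟨c2, R.rot.diff W hT hF S2 (bi _ R.K2 a2) (bi _ R.K3 a3) fun h0 => hg (Or.inr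
      ⟨a3, n4, n1, e, ?_⟩)⟩
    rw [v _ R.K4, v _ R.K1, h0]

/-- the type of a pair of colourings: one is constant, the other one is split -/
theorem Rk.pair (hno : ¬ ∃ c, Sol S L c) {a b : V → Bool}
    (S1 : Sides S L w s (fun x => if s x = true then a x else b x))
    (S2 : Sides S L w s (fun x => if s x = true then a x else !b x)) :
    (Cst S true a k1 k2 k3 k4 ∧ (Spl S false b k1 k2 k3 k4 ∨ Spl S false b k2 k3 k4 k1)) ∨
    (Cst S false b k1 k2 k3 k4 ∧ (Spl S true a k1 k2 k3 k4 ∨ Spl S true a k2 k3 k4 k1)) := by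
  have hx : ∀ x, s x = true → (if s x = true then a x else b x) =
      (if s x = true then a x else !b x) := fun x h => by rw [if_pos h, if_pos h]
  have hy : ∀ x, s x = false → (if s x = true then a x else b x) =
      !(if s x = true then a x else !b x) := fun x h => by
    rw [if_neg (by rw [h]; decide), if_neg (by rw [h]; decide), Bool.not_not]
  have hx' := fun x h => (hx x h).symm
  have hy' : ∀ x, s x = false → (if s x = true then a x else !b x) =
      !(if s x = true then a x else b x) := fun x h => by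
    rw [hy x h, Bool.not_not]
  have ea : ∀ {k}, k ∈ kc S s → ∀ f : V → Bool, (if s (S.M.v k) = true then a (S.M.v k) else
      f (S.M.v k)) = a (S.M.v k) := fun hk f => if_pos (mem_kc.1 hk).2.1
  have eb : ∀ {k}, k ∈ kc S s → ∀ f : V → Bool, (if s (S.M.v (S.M.α k)) = true then
      a (S.M.v (S.M.α k)) else f (S.M.v (S.M.α k))) = f (S.M.v (S.M.α k)) := fun hk f =>
    if_neg (by rw [(mem_kc.1 hk).2.2]; decide)
  have g1 := ea R.K1
  have g2 := ea R.K2
  have g3 := ea R.K3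
  have g4 := ea R.K4
  have l1 := eb R.K1
  have l2 := eb R.K2
  have l3 := eb R.K3
  have l4 := eb R.K4
  unfold Cst Spl kEnd
  simp only [cond_true, cond_false]
  by_cases m2 : a (S.M.v k2) = b (S.M.v (S.M.α k2))
  · have t := R.typ1 W hT hF hno hx hy S1 S2 (by rw [g2 b, l2 b]; exact m2)
    rw [g1 b, g2 b, g3 b, g4 b, l1 b, l3 b, l4 b] at t
    clear g1 g2 g3 g4 l1 l2 l3 l4 S1 S2
    generalize a (S.M.v k1) = x1 at *
    generalize a (S.M.v k2) = x2 at *
    generalize a (S.M.v k3) = x3 at *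
    generalize a (S.M.v k4) = x4 at *
    generalize b (S.M.v (S.M.α k1)) = y1 at *
    generalize b (S.M.v (S.M.α k2)) = y2 at *
    generalize b (S.M.v (S.M.α k3)) = y3 at *
    generalize b (S.M.v (S.M.α k4)) = y4 at *
    clear hx hy hx' hy' ea eb
    cases x1 <;> cases x2 <;> cases x3 <;> cases x4 <;> cases y1 <;> cases y2 <;> cases y3 <;>
      cases y4 <;> simp at *
  · have m2' : a (S.M.v k2) = !b (S.M.v (S.M.α k2)) := by
      revert m2
      cases a (S.M.v k2) <;> cases b (S.M.v (S.M.α k2)) <;> decide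
    have t := R.typ1 W hT hF hno hx' hy' S2 S1 (by
      rw [g2 (fun x => !b x), l2 (fun x => !b x)]; exact m2')
    rw [g1 (fun x => !b x), g2 (fun x => !b x), g3 (fun x => !b x), g4 (fun x => !b x),
      l1 (fun x => !b x), l3 (fun x => !b x), l4 (fun x => !b x)] at t
    clear g1 g2 g3 g4 l1 l2 l3 l4 S1 S2 m2
    generalize a (S.M.v k1) = x1 at *
    generalize a (S.M.v k2) = x2 at *
    generalize a (S.M.v k3) = x3 at *
    generalize a (S.M.v k4) = x4 at *
    generalize b (S.M.v (S.M.α k1)) = y1 at *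
    generalize b (S.M.v (S.M.α k2)) = y2 at *
    generalize b (S.M.v (S.M.α k3)) = y3 at *
    generalize b (S.M.v (S.M.α k4)) = y4 at *
    clear hx hy hx' hy' ea eb
    cases x1 <;> cases x2 <;> cases x3 <;> cases x4 <;> cases y1 <;> cases y2 <;> cases y3 <;>
      cases y4 <;> simp at *

end

end Pool.FC7
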