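import Pool.Agent.FC7.Q5T

/-! # Cuts with four real edges: the rule of types -/

open Finset

set_option linter.unusedSectionVars false

namespace Pool.FC7

open Pool.FC6 Pool.FC6.St

variable {D V : Type} [Fintype D] [DecidableEq V] {S : St D V} {L : D → Bool} {w : D → ℕ} {Δ : ℕ}
  {U : V → Prop}

/-- the face of `d1` is not visited, all other requirements are satisfied -/
structure Unv (S : St D V) (L : D → Bool) (a : V → Bool) (d1 : D) : Prop where
  nso : Nso S a
  nv : ∀ d, S.sc.r d1 d → ¬ Vi S a d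
  req : ∀ d, S.u d ≠ 0 → Vi S a d ∨ S.sc.r d1 d
  lab : ∀ d, L d = true → (Vi S a d ∨ Vi S a (S.M.α d)) ∨ S.sc.r d1 d ∨ S.sc.r d1 (S.M.α d)

theorem MC.unv (hΔ : Δ ≤ 6) (h : MC Δ S L w) {d1 : D} (hn : Nd S L d1) : ∃ a, Unv S L a d1 := by
  classical
  obtain ⟨e, he, hu⟩ := hn
  by_cases hu0 : S.u e ≠ 0
  · obtain ⟨a, h1, h2, h3, h4⟩ := h.unm hΔ he hu0
    refine ⟨a, h1, h2, fun d hd => ?_, fun d hd => Or.inl (h4 d hd)⟩
    by_cases h5 : S.sc.r d1 d
    · exact Or.inr h5
    · exact Or.inl (h3 d hd h5)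
  · have hL : L e = true := hu.resolve_left hu0
    obtain ⟨a, h1, h2, h3, h4, h5⟩ := h.unl hΔ hL
    refine ⟨a, h1, fun d hd hv => h2 (hv.sc (S.sc.iseqv.trans (S.sc.iseqv.symm hd) he)),
      fun d hd => Or.inl (h4 d hd), fun d hd => ?_⟩
    rcases h5 d hd with (h6 | h6) | h6
    · exact Or.inr (Or.inl (by rw [h6]; exact he))
    · exact Or.inr (Or.inr (by rw [h6, S.M.αα]; exact he))
    · exact Or.inl h6

/-- a side without bichromatic edges has one colour -/
theorem MC.onec (hΔ : Δ ≤ 6) (h : MC Δ S L w) {s : V → Bool} (h4 : S.rc s = 4) {b : Bool}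
    (hz : ∃ z ∈ S.A, s z ≠ b) {a : V → Bool}
    (hn : ∀ d, S.real d = true → s (S.M.v d) = b → s (S.M.v (S.M.α d)) = b →
      a (S.M.v d) = a (S.M.v (S.M.α d))) {x y : V} (hx : x ∈ S.A) (hy : y ∈ S.A)
    (sx : s x = b) (sy : s y = b) : a x = a y := by
  classical
  have W := h.ok.toWf
  have rα := W.real_α
  by_contra hne
  obtain ⟨z, hzA, hzb⟩ := hz
  obtain ⟨s0, hs0⟩ : ∃ s0 : V → Bool, ∀ x, s0 x = decide (s x = b) := ⟨_, fun _ => rfl⟩
  have r0 : S.rc s0 = 4 := by
    cases b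
    · have : s0 = fun x => !s x := by
        funext x
        rw [hs0]
        cases s x <;> decide
      rw [this, rc_neg rα, h4]
    · have : s0 = s := by
        funext x
        rw [hs0]
        cases s x <;> decide
      rw [this, h4]
  obtain ⟨s1, hs1⟩ : ∃ s1 : V → Bool, ∀ z, s1 z = (s0 z && decide (a z = a x)) := ⟨_, fun _ => rfl⟩
  obtain ⟨s2, hs2⟩ : ∃ s2 : V → Bool, ∀ z, s2 z = (s0 z && !decide (a z = a x)) := ⟨_, fun _ => rfl⟩
  have z0 : s0 z = false := by rw [hs0]; exact decide_eq_false hzb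
  have x0 : s0 x = true := by rw [hs0]; exact decide_eq_true sx
  have y0 : s0 y = true := by rw [hs0]; exact decide_eq_true sy
  have c1 := h.cut4 hΔ (s := s1) ⟨x, hx, by rw [hs1, x0, decide_eq_true rfl]; rfl⟩
    ⟨z, hzA, by rw [hs1, z0]; rfl⟩
  have c2 := h.cut4 hΔ (s := s2) ⟨y, hy, by
      rw [hs2, y0, decide_eq_false fun h0 => hne h0.symm]; rfl⟩
    ⟨z, hzA, by rw [hs2, z0]; rfl⟩
  have hsum : S.rc s1 + S.rc s2 ≤ S.rc s0 := by
    unfold St.rc
    rw [← Finset.sum_add_distrib]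
    refine Finset.sum_le_sum fun d _ => ?_
    by_cases hr : S.real d = true
    · rw [hs1, hs1, hs2, hs2]
      have key : s0 (S.M.v d) = true → s0 (S.M.v (S.M.α d)) = true →
          a (S.M.v d) = a (S.M.v (S.M.α d)) := fun g1 g2 => hn d hr (by
        rw [hs0] at g1; exact of_decide_eq_true g1) (by
        rw [hs0] at g2; exact of_decide_eq_true g2)
      generalize s0 (S.M.v d) = p at *
      generalize s0 (S.M.v (S.M.α d)) = q at *
      cases p
      · simp
      · cases q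
        · by_cases h5 : a (S.M.v d) = a x <;> simp [h5, hr]
        · have h6 := key rfl rfl
          rw [← h6]
          by_cases h5 : a (S.M.v d) = a x <;> simp [h5, hr]
    · simp [hr]
  omega

section

variable {s : V → Bool} {k1 k2 k3 k4 : D} (R : Rk S s k1 k2 k3 k4)

theorem rk_end (W : Wf Δ S L w) {k : D} (hk : k ∈ kc S s) (b : Bool) :
    kEnd S b k ∈ S.A ∧ s (kEnd S b k) = b := by
  obtain ⟨r, g1, g2⟩ := mem_kc.1 hk
  cases b
  · exact ⟨W.real_A _ (by rw [W.real_α]; exact r), g2⟩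
  · exact ⟨W.real_A _ r, g1⟩

include R

/-- the unvisited face between two edges of the cut: the other two edges are bichromatic -/
theorem MC.flip1 (h : MC Δ S L w) (hT : ConS S.M s true) (hF : ConS S.M s false)
    {a : V → Bool} (N : Unv S L a k2) (m1 : a (S.M.v k1) = a (S.M.v (S.M.α k1)))
    (m2 : a (S.M.v k2) = a (S.M.v (S.M.α k2)))
    (m : a (S.M.v k3) = a (S.M.v (S.M.α k3)) ∨ a (S.M.v k4) = a (S.M.v (S.M.α k4))) : False := by
  classical
  have W := h.ok.toWf
  have rα := W.real_α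
  have rA := W.real_A
  obtain ⟨c, hc⟩ : ∃ c : V → Bool, ∀ x, c x = if s x = true then !a x else a x := ⟨_, fun _ => rfl⟩
  have cT : ∀ {x}, s x = true → c x = !a x := fun hx => by rw [hc, if_pos hx]
  have cF : ∀ {x}, s x = false → c x = a x := fun hx => by
    rw [hc, if_neg (by rw [hx]; decide)]
  have hcc : ∀ x y, s x = s y → (a x ≠ a y ↔ c x ≠ c y) := by
    intro x y hxy
    cases hy : s y
    · rw [cF hy, cF (hxy.trans hy)]
    · rw [cT hy, cT (hxy.trans hy)]
      simp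
  have hcr : ∀ k ∈ kc S s, a (S.M.v k) = a (S.M.v (S.M.α k)) →
      c (S.M.v k) ≠ c (S.M.v (S.M.α k)) := by
    intro k hk h0
    have := mem_kc.1 hk
    rw [cT this.2.1, cF this.2.2, h0]
    cases a (S.M.v (S.M.α k)) <;> decide
  have hK : kc S s = {k1, k2, k3, k4} := by
    ext k
    rw [R.mem]
    simp only [Finset.mem_insert, Finset.mem_singleton]
  have hs1 : ∀ h' : D → ℝ, S.Test c h' → (h' k1 - h' (S.M.α k1)) + (h' k2 - h' (S.M.α k2)) +
      (h' k3 - h' (S.M.α k3)) + (h' k4 - h' (S.M.α k4)) = 0 := by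
    intro h' ht
    have := cut_idT (s := s) (c := c) rα ht.1 (fun d hd => ht.2 d (Or.inl hd))
      (fun d _ _ hd => ht.2 d (Or.inr hd)) (fun _ => (1 : ℝ))
    rw [sum4 hK R.n12 R.n13 R.n14 R.n23 R.n24 R.n34] at this
    linarith
  have m0 := mem_kc.1 R.K1
  have h2 : ∀ b, ∃ x ∈ S.A, s x = b := by
    intro b
    cases b
    · exact ⟨_, rA _ (by rw [rα]; exact m0.1), m0.2.2⟩
    · exact ⟨_, rA _ m0.1, m0.2.1⟩
  have B2 : Br S c k2 := ⟨(mem_kc.1 R.K2).1, hcr _ R.K2 m2⟩
  have vk : ∀ d, S.sc.r k2 d → Vi S c d := fun d hd => B2.vi.sc hd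
  have hinv : ∀ h' : D → ℝ, S.Test c h' → ∀ k ∈ kc S s, h' (S.M.α k) = h' k := by
    intro h' ht k hk
    have t1 := ht.2 k1 (Or.inr (hcr _ R.K1 m1))
    have t2 := ht.2 k2 (Or.inr (hcr _ R.K2 m2))
    have t0 := hs1 h' ht
    rcases m with m | m
    · have t3 := ht.2 k3 (Or.inr (hcr _ R.K3 m))
      rcases (R.mem k).1 hk with g | g | g | g <;> rw [g] <;> linarith
    · have t3 := ht.2 k4 (Or.inr (hcr _ R.K4 m))
      rcases (R.mem k).1 hk with g | g | g | g <;> rw [g] <;> linarith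
  refine h.no ⟨c, ?_⟩
  refine N.nso.glue W h2 hcc (Q := fun _ => False) (fun _ => Iff.rfl) (fun _ _ => ⟨id, id⟩) B2
    (fun h' ht _ d hd => inv_of rα hT hF ht (hinv h' ht) hd (mix_kc R.K2))
    (fun _ h => h.elim) (fun _ h => h.elim) (fun _ h => h.elim) (fun _ _ => Or.inl id)
    (fun d hd => ?_) (fun d hd => ?_)
  · exact (N.req d hd).imp id (vk d)
  · exact (N.lab d hd).imp id (Or.imp (vk d) (vk _))

/-- a needed face: one side has a solution of this type -/
theorem MC.needc (hΔ : Δ ≤ 6) (h : MC Δ S L w) (hT : ConS S.M s true) (hF : ConS S.M s false)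
    (h4 : S.rc s = 4) (hN : Nd S L k2) :
    ∃ (b : Bool) (a : V → Bool), Sol (sd S w s b) (sdL S L s b) a ∧ Spl S b a k1 k2 k3 k4 := by
  classical
  have W := h.ok.toWf
  have rα := W.real_α
  have rA := W.real_A
  obtain ⟨a, N⟩ := h.unv hΔ hN
  have e1 := mem_kc.1 R.K1
  have e2 := mem_kc.1 R.K2
  have e3 := mem_kc.1 R.K3
  have e4 := mem_kc.1 R.K4
  have m1 : a (S.M.v k1) = a (S.M.v (S.M.α k1)) := by
    have := mono_unv (N.nv _ (S.sc.iseqv.symm R.f1)) (by rw [rα]; exact e1.1)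
    rw [S.M.αα] at this
    exact this.symm
  have m2 : a (S.M.v k2) = a (S.M.v (S.M.α k2)) := mono_unv (N.nv _ (S.sc.iseqv.refl _)) e2.1
  have n3 : a (S.M.v k3) ≠ a (S.M.v (S.M.α k3)) := fun h0 =>
    h.flip1 R hT hF N m1 m2 (Or.inl h0)
  have n4 : a (S.M.v k4) ≠ a (S.M.v (S.M.α k4)) := fun h0 =>
    h.flip1 R hT hF N m1 m2 (Or.inr h0)
  have B3 : Br S a k3 := ⟨e3.1, n3⟩
  have hxx : ∃ x ∈ S.A, s x = true := ⟨_, rA _ e1.1, e1.2.1⟩
  have hyy : ∃ x ∈ S.A, s x = false := ⟨_, rA _ (by rw [rα]; exact e1.1), e1.2.2⟩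
  have hz : ∀ b : Bool, ∃ z ∈ S.A, s z ≠ b := by
    intro b
    cases b
    · obtain ⟨z, h1, h2⟩ := hxx
      exact ⟨z, h1, by rw [h2]; decide⟩
    · obtain ⟨z, h1, h2⟩ := hyy
      exact ⟨z, h1, by rw [h2]; decide⟩
  have side : ∀ b : Bool, (∃ e, Br S a e ∧ s (S.M.v e) = b ∧ s (S.M.v (S.M.α e)) = b) →
      Sol (sd S w s b) (sdL S L s b) a := by
    rintro b ⟨e, g1, g2, g3⟩
    exact N.nso.side W hT hF g1 g2 g3 (mix_kc R.K3) B3.vi (mix_kc R.K2) N.req N.lab
  have alt : ∀ b : Bool, (¬ ∃ e, Br S a e ∧ s (S.M.v e) = b ∧ s (S.M.v (S.M.α e)) = b) →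
      ∀ k ∈ kc S s, ∀ k' ∈ kc S s, a (kEnd S b k) = a (kEnd S b k') := by
    intro b hno k hk k' hk'
    obtain ⟨g1, g2⟩ := rk_end W hk b
    obtain ⟨g3, g4⟩ := rk_end W hk' b
    refine h.onec hΔ h4 (hz b) (fun d hr g5 g6 => ?_) g1 g3 g2 g4
    by_contra g7
    exact hno ⟨d, ⟨hr, g7⟩, g5, g6⟩
  by_cases iT : ∃ e, Br S a e ∧ s (S.M.v e) = true ∧ s (S.M.v (S.M.α e)) = true
  · have sT := side true iT
    by_cases iF : ∃ e, Br S a e ∧ s (S.M.v e) = false ∧ s (S.M.v (S.M.α e)) = false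
    · have sF := side false iF
      have P := R.pair W hT hF h.no (h.prS hT hF hxx hyy sT sF) (h.prS hT hF hxx hyy sT sF.neg)
      have q : (Cst S true a k1 k2 k3 k4 ∧ Spl S false a k1 k2 k3 k4) ∨
          (Cst S false a k1 k2 k3 k4 ∧ Spl S true a k1 k2 k3 k4) := by
        clear alt side hz N
        unfold Cst Spl kEnd at P ⊢
        simp only [cond_true, cond_false] at P ⊢
        revert m1 m2 n3 n4 P
        generalize a (S.M.v k1) = x1
        generalize a (S.M.v k2) = x2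
        generalize a (S.M.v k3) = x3
        generalize a (S.M.v k4) = x4
        generalize a (S.M.v (S.M.α k1)) = y1
        generalize a (S.M.v (S.M.α k2)) = y2
        generalize a (S.M.v (S.M.α k3)) = y3
        generalize a (S.M.v (S.M.α k4)) = y4
        intro m1 m2 n3 n4 P
        cases x1 <;> cases x2 <;> cases x3 <;> cases x4 <;> cases y1 <;> cases y2 <;>
          cases y3 <;> cases y4 <;> simp at *
      rcases q with ⟨-, q⟩ | ⟨-, q⟩
      · exact ⟨false, a, sF, q⟩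
      · exact ⟨true, a, sT, q⟩
    · have g := alt false iF
      have g12 := g _ R.K1 _ R.K2
      have g23 := g _ R.K2 _ R.K3
      have g34 := g _ R.K3 _ R.K4
      refine ⟨true, a, sT, ?_⟩
      unfold Spl
      unfold kEnd at g12 g23 g34 ⊢
      simp only [cond_true, cond_false] at g12 g23 g34 ⊢
      clear alt side hz N g
      revert m1 m2 n3 n4 g12 g23 g34
      generalize a (S.M.v k1) = x1
      generalize a (S.M.v k2) = x2
      generalize a (S.M.v k3) = x3
      generalize a (S.M.v k4) = x4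
      generalize a (S.M.v (S.M.α k1)) = y1
      generalize a (S.M.v (S.M.α k2)) = y2
      generalize a (S.M.v (S.M.α k3)) = y3
      generalize a (S.M.v (S.M.α k4)) = y4
      intro m1 m2 n3 n4 g12 g23 g34
      cases x1 <;> cases x2 <;> cases x3 <;> cases x4 <;> cases y1 <;> cases y2 <;>
        cases y3 <;> cases y4 <;> simp at *
  · have g := alt true iT
    have g12 := g _ R.K1 _ R.K2
    have g23 := g _ R.K2 _ R.K3
    have g34 := g _ R.K3 _ R.K4
    have iF : ∃ e, Br S a e ∧ s (S.M.v e) = false ∧ s (S.M.v (S.M.α e)) = false := by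
      by_contra iF
      have g' := alt false iF
      have g23' := g' _ R.K2 _ R.K3
      unfold kEnd at g23 g23'
      simp only [cond_true, cond_false] at g23 g23'
      exact n3 (by rw [← g23, ← g23', m2])
    refine ⟨false, a, side false iF, ?_⟩
    unfold Spl
    unfold kEnd at g12 g23 g34 ⊢
    simp only [cond_true, cond_false] at g12 g23 g34 ⊢
    clear alt side hz N g iF
    revert m1 m2 n3 n4 g12 g23 g34
    generalize a (S.M.v k1) = x1
    generalize a (S.M.v k2) = x2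
    generalize a (S.M.v k3) = x3
    generalize a (S.M.v k4) = x4
    generalize a (S.M.v (S.M.α k1)) = y1
    generalize a (S.M.v (S.M.α k2)) = y2
    generalize a (S.M.v (S.M.α k3)) = y3
    generalize a (S.M.v (S.M.α k4)) = y4
    intro m1 m2 n3 n4 g12 g23 g34
    cases x1 <;> cases x2 <;> cases x3 <;> cases x4 <;> cases y1 <;> cases y2 <;>
      cases y3 <;> cases y4 <;> simp at *

end

end Pool.FC7
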