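import Pool.Agent.FC7.Q6A

/-! # The ear state has a solution -/

open Finset

set_option linter.unusedSectionVars false

namespace Pool.FC7

open Pool.FC6 Pool.FC6.St

variable {D V : Type} [Fintype D] [DecidableEq V] {S : St D V} {L : D → Bool} {w : D → ℕ} {Δ : ℕ}
  {U : D → ℕ}

section

variable {s : V → Bool} {k a : D} {y : V} (W : Wf Δ S L w) (H : Erp S w s k a y U)

include W H

theorem Erp.vA : S.M.v a ∈ S.A ∧ S.M.v (S.M.α a) ∈ S.A := by
  refine ⟨?_, ?_⟩
  · rw [← S.M.vφ2 a]
    exact W.real_A _ (by rw [W.real_α]; exact H.r2)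
  · rw [← S.M.vφ a]
    exact W.real_A _ H.r1

theorem Erp.yA : y ∈ S.A ∧ s y = true := by
  obtain ⟨h1, h2⟩ := H.vA W
  rcases H.e with ⟨q1, q2, -, -⟩ | ⟨q1, q2, -, -⟩
  · exact ⟨by rw [← q2]; exact h2, by rw [← q2]; exact H.s1⟩
  · exact ⟨by rw [← q1]; exact h1, by rw [← q1]; exact H.s0⟩

theorem Erp.rα (d : D) : (Er S w s k a U).real (S.M.α d) = (Er S w s k a U).real d := by
  have hrd := fun d => H.rd W (d := d)
  have : (Er S w s k a U).real (S.M.α d) = true ↔ (Er S w s k a U).real d = true := by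
    rw [hrd, hrd, W.real_α, S.M.αα]
    constructor
    · rintro (h1 | h1 | h1)
      · exact Or.inl ⟨h1.1, h1.2.2, h1.2.1⟩
      · exact Or.inr (Or.inr (by rw [← h1, S.M.αα]))
      · exact Or.inr (Or.inl (S.M.αinj h1))
    · rintro (h1 | h1 | h1)
      · exact Or.inl ⟨h1.1, h1.2.2, h1.2.1⟩
      · exact Or.inr (Or.inr (by rw [h1]))
      · exact Or.inr (Or.inl (by rw [h1, S.M.αα]))
  cases h1 : (Er S w s k a U).real d
  · cases h2 : (Er S w s k a U).real (S.M.α d)
    · rfl
    · rw [this.1 h2] at h1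
      exact absurd h1 (by decide)
  · exact this.2 h1

/-- the cuts of the ear state which do not contain `y` -/
theorem Erp.rc0 (hΔ : Δ ≤ 6) (h : MC Δ S L w) {T : V → Bool} (hy : T y = false)
    (hx : ∃ x ∈ S.A, s x = true ∧ T x = true) : 4 ≤ (Er S w s k a U).rc T := by
  classical
  obtain ⟨x, hxA, sx, tx⟩ := hx
  obtain ⟨yA, -⟩ := H.yA W
  obtain ⟨T', hT'⟩ : ∃ T' : V → Bool, ∀ z, T' z = (T z && s z) := ⟨_, fun _ => rfl⟩
  have h1 := h.cut4 hΔ (s := T') ⟨x, hxA, by rw [hT', tx, sx]; rfl⟩
    ⟨y, yA, by rw [hT', hy]; rfl⟩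
  obtain ⟨b, hb, hb1, hb2⟩ : ∃ b, (b = a ∨ b = S.M.α a) ∧ S.M.v b = S.M.v k ∧
      S.M.v (S.M.α b) = y := by
    rcases H.e with ⟨q1, q2, -, -⟩ | ⟨q1, q2, -, -⟩
    · exact ⟨a, Or.inl rfl, q1, q2⟩
    · exact ⟨S.M.α a, Or.inr rfl, q2, by rw [S.M.αα]; exact q1⟩
  have rb : S.real b = false := by
    rcases hb with rfl | rfl
    · exact H.ra
    · rw [W.real_α]; exact H.ra
  have erb : (Er S w s k a U).real b = true := (H.rd W).2 (Or.inr hb)
  refine h1.trans ?_
  unfold St.rc
  have pt : ∀ d, (if S.real d = true ∧ T' (S.M.v d) = true ∧ T' (S.M.v (S.M.α d)) = false then 1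
      else 0) + (if d = b then (if T (S.M.v k) = true then 1 else 0) else 0) ≤
      (if (Er S w s k a U).real d = true ∧ T (S.M.v d) = true ∧ T (S.M.v (S.M.α d)) = false then 1
        else 0) + (if d = k then (if T (S.M.v k) = true then 1 else 0) else 0) := by
    intro d
    by_cases hd : d = b
    · rw [hd, if_pos (c := b = b) rfl, if_neg (c := S.real b = true ∧ _) (fun h0 => by
        rw [rb] at h0; exact absurd h0.1 (by decide)), hb1, hb2]
      by_cases h2 : T (S.M.v k) = true
      · rw [if_pos h2, if_pos ⟨erb, h2, hy⟩]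
        omega
      · rw [if_neg h2]
        omega
    · rw [if_neg hd]
      by_cases h2 : S.real d = true ∧ T' (S.M.v d) = true ∧ T' (S.M.v (S.M.α d)) = false
      · obtain ⟨g1, g2, g3⟩ := h2
        rw [hT', Bool.and_eq_true] at g2
        rw [hT'] at g3
        rw [if_pos ⟨g1, by rw [hT', Bool.and_eq_true]; exact g2, by rw [hT']; exact g3⟩]
        cases h3 : s (S.M.v (S.M.α d))
        · have hk : d ∈ kc S s := mem_kc.2 ⟨g1, g2.2, h3⟩
          rcases H.ky d hk with h4 | h4
          · rw [h4] at g2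
            rw [if_pos (c := d = k) h4, if_pos g2.1]
            omega
          · rw [h4, hy] at g2
            exact absurd g2.1 (by decide)
        · rw [h3, Bool.and_true] at g3
          have h5 : (Er S w s k a U).real d = true := (H.rd W).2 (Or.inl ⟨g1, g2.2, h3⟩)
          rw [if_pos ⟨h5, g2.1, g3⟩]
          omega
      · rw [if_neg h2]
        exact Nat.zero_le _
  have h3 := Finset.sum_le_sum fun d (_ : d ∈ (Finset.univ : Finset D)) => pt d
  rw [Finset.sum_add_distrib, Finset.sum_add_distrib] at h3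
  simp only [Finset.sum_ite_eq', Finset.mem_univ, if_true] at h3
  exact Nat.le_of_add_le_add_right h3

/-- the cuts of the ear state -/
theorem Erp.rc4 (hΔ : Δ ≤ 6) (h : MC Δ S L w) {T : V → Bool}
    (h1 : ∃ x ∈ (Er S w s k a U).A, T x = true) (h2 : ∃ x ∈ (Er S w s k a U).A, T x = false) :
    4 ≤ (Er S w s k a U).rc T := by
  cases hy : T y
  · obtain ⟨x, hx, tx⟩ := h1
    have := (sd_A (w := w)).1 hx
    exact H.rc0 W hΔ h hy ⟨x, this.1, this.2, tx⟩
  · obtain ⟨x, hx, tx⟩ := h2
    have := (sd_A (w := w)).1 hx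
    rw [← rc_neg (S := Er S w s k a U) (fun d => H.rα W d) T]
    refine H.rc0 W hΔ h (T := fun z => !T z) ?_ ⟨x, this.1, this.2, ?_⟩
    · show (!T y) = false
      rw [hy]; rfl
    · show (!T x) = true
      rw [tx]; rfl

/-- the cuts of the side -/
theorem Erp.rc1 (hΔ : Δ ≤ 6) (h : MC Δ S L w) {T : V → Bool}
    (h1 : ∃ x ∈ (Er S w s k a U).A, T x = true) (h2 : ∃ x ∈ (Er S w s k a U).A, T x = false) :
    1 ≤ (sd S w s true).rc T := by
  classical
  have h3 := H.rc4 W hΔ h h1 h2
  have h4 : (Er S w s k a U).rc T ≤ (sd S w s true).rc T + 2 := by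
    unfold St.rc
    have pt : ∀ d, (if (Er S w s k a U).real d = true ∧ T (S.M.v d) = true ∧
        T (S.M.v (S.M.α d)) = false then 1 else 0) ≤
        (if (sd S w s true).real d = true ∧ T (S.M.v d) = true ∧
        T (S.M.v (S.M.α d)) = false then 1 else 0) + ((if d = a then 1 else 0) +
        (if d = S.M.α a then 1 else 0)) := by
      intro d
      by_cases h5 : (Er S w s k a U).real d = true ∧ T (S.M.v d) = true ∧
        T (S.M.v (S.M.α d)) = false
      · rw [if_pos h5]
        rcases (H.rd W).1 h5.1 with h6 | h6 | h6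
        · have h7 : (sd S w s true).real d = true := (sd_real W.real_A W.real_α).2 h6
          rw [if_pos ⟨h7, h5.2⟩]
          omega
        · rw [if_pos h6]; omega
        · rw [if_pos (c := d = S.M.α a) h6]; omega
      · rw [if_neg h5]; exact Nat.zero_le _
    have h5 := Finset.sum_le_sum fun d (_ : d ∈ (Finset.univ : Finset D)) => pt d
    rw [Finset.sum_add_distrib, Finset.sum_add_distrib] at h5
    simp only [Finset.sum_ite_eq', Finset.mem_univ, if_true] at h5
    exact h5
  omega

/-- the ear state is well formed -/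
theorem Erp.wf (hex : ∃ d, (S.del (S.A.filter fun y => s y ≠ true)).real d = true) :
    Wf Δ (Er S w s k a U) (sdL S L s true) (dw S w (S.A.filter fun y => s y ≠ true)) := by
  classical
  have W1 := W.dl hex
  obtain ⟨vA, vA'⟩ := H.vA W
  have hrd := fun d => H.rd W (d := d)
  have sdW : ∀ d, (sd S w s true).real d = true → (Er S w s k a U).real d = true :=
    fun d h => wE_of h
  have hn : ∀ r, S.real r = true → S.M.v r = S.M.v a → S.M.v (S.M.α r) ≠ S.M.v (S.M.α a) := by
    intro r hr h1 h2
    rcases H.e with ⟨q1, q2, -, -⟩ | ⟨q1, q2, -, -⟩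
    · exact H.np (S.M.α r) (by rw [W.real_α]; exact hr) (by rw [h2, q2])
        (by rw [S.M.αα, h1, q1])
    · exact H.np r hr (by rw [h1, q1]) (by rw [h2, q2])
  exact
    { real_α := fun d => H.rα W d
      real_A := fun d hd => by
        show S.M.v d ∈ (sd S w s true).A
        rcases (hrd d).1 hd with h1 | h1 | h1
        · exact sd_A.2 ⟨W.real_A d h1.1, h1.2.1⟩
        · rw [h1]; exact sd_A.2 ⟨vA, H.s0⟩
        · rw [h1]; exact sd_A.2 ⟨vA', H.s1⟩
      real_ne := fun d hd => by
        show S.M.v d ≠ S.M.v (S.M.α d)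
        rcases (hrd d).1 hd with h1 | h1 | h1
        · exact W.real_ne d h1.1
        · rw [h1]; exact H.ne W
        · rw [h1, S.M.αα]; exact (H.ne W).symm
      A_im := W1.A_im
      u_A := fun d hd => by
        have hd : eru S w s k a U d ≠ 0 := hd
        show S.M.v d ∈ (sd S w s true).A
        by_cases c1 : Fp S a d
        · refine sd_A.2 ⟨?_, (H.fpv W c1).1⟩
          rcases c1 with h1 | h1 | h1
          · rw [h1]; exact vA
          · rw [h1]; exact W.real_A _ H.r1
          · rw [h1]; exact W.real_A _ H.r2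
        by_cases c2 : (sd S w s true).sc.r k d
        · rw [H.u_h W c1 c2] at hd
          exact absurd rfl hd
        · rw [H.u_o W c2] at hd
          exact W1.u_A d hd
      L_real := fun d hd => sdW d (W1.L_real d hd)
      L_α := W1.L_α
      w_L := W1.w_L
      w_α := W1.w_α
      deg := fun x hx => H.deg W hx
      simple := fun d e hd he h1 h2 => by
        have h1 : S.M.v d = S.M.v e := h1
        have h2 : S.M.v (S.M.α d) = S.M.v (S.M.α e) := h2
        have key : ∀ {d e}, S.real d = true → (e = a ∨ e = S.M.α a) → S.M.v d = S.M.v e →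
            S.M.v (S.M.α d) = S.M.v (S.M.α e) → False := by
          rintro d e h3 (rfl | rfl) h4 h5
          · exact hn d h3 h4 h5
          · rw [S.M.αα] at h5
            exact hn (S.M.α d) (by rw [W.real_α]; exact h3) h5 (by rw [S.M.αα]; exact h4)
        rcases (hrd d).1 hd with h3 | h3
        · rcases (hrd e).1 he with h4 | h4
          · exact W.simple d e h3.1 h4.1 h1 h2
          · exact absurd (key h3.1 h4 h1 h2) id
        · rcases (hrd e).1 he with h4 | h4
          · exact absurd (key h4.1 h3 h1.symm h2.symm) id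
          · have hne := H.ne W
            rcases h3 with g3 | g3 <;> rcases h4 with g4 | g4
            · rw [g3, g4]
            · rw [g3, g4] at h1
              exact absurd h1 hne
            · rw [g3, g4] at h1
              exact absurd h1.symm hne
            · rw [g3, g4]
      ex := by
        obtain ⟨d, hd⟩ := hex
        exact ⟨d, sdW d hd⟩ }

theorem Erp.er_real {d : D} (hd : Fp (Er S w s k a U) a d) : (Er S w s k a U).real d = true := by
  rcases hd with h1 | h1 | h1
  · exact (H.rd W).2 (Or.inr (Or.inl h1))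
  · rw [h1]; exact wE_of (H.sr1 W)
  · rw [h1]; exact wE_of (H.sr2 W)

/-- the faces off the hole -/
theorem Erp.fc {d : D} (hd : ¬ (sd S w s true).sc.r k d) (e : D) :
    (Er S w s k a U).sc.r d e ↔ (sd S w s true).sc.r d e := by
  classical
  have off : ∀ {e}, ¬ Fp S a e → e ≠ a ∧ e ≠ S.M.φ a ∧ e ≠ S.M.φ (S.M.φ a) := fun h0 =>
    ⟨fun h => h0 (Or.inl h), fun h => h0 (Or.inr (Or.inl h)), fun h => h0 (Or.inr (Or.inr h))⟩
  have hf : ¬ Fp S a d := fun h0 => hd (H.hfp W h0)
  by_cases he : Fp S a e
  · constructor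
    · intro h0
      have h1 : Fp (Er S w s k a U) a e := he
      have h2 : (Er S w s k a U).sc.r a d := (Er S w s k a U).sc.iseqv.trans
        (sc_of_fp (S := Er S w s k a U) h1) ((Er S w s k a U).sc.iseqv.symm h0)
      have h3 := fp_of_sc (S := Er S w s k a U) (fun d => H.rα W d)
        (fun e he => H.er_real W he) h2
      exact absurd h3 hf
    · intro h0
      exact absurd ((sd S w s true).sc.iseqv.trans (H.hfp W he)
        ((sd S w s true).sc.iseqv.symm h0)) hd
  · exact wE_sc (S := sd S w s true) (H.sr1 W) (H.sr2 W)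
      (fun d => del_real_α W.real_α _ d) (H.sra W) (off hf) (off he)

/-- the faces with units -/
theorem Erp.thr (thr : ∀ d, (sd S w s true).u d ≠ 0 → 3 ≤ fu (sd S w s true) d ∨
    Two (sd S w s true) d) (d : D) (hu : (Er S w s k a U).u d ≠ 0) :
    3 ≤ fu (Er S w s k a U) d ∨ Two (Er S w s k a U) d := by
  classical
  have hu : eru S w s k a U d ≠ 0 := hu
  by_cases c1 : Fp S a d
  · left
    have c1' : Fp (Er S w s k a U) a d := c1
    rw [← fu_congr (sc_of_fp (S := Er S w s k a U) c1')]
    have f0 : Fp S a a := Or.inl rfl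
    have f1 : Fp S a (S.M.φ a) := Or.inr (Or.inl rfl)
    have f2 : Fp S a (S.M.φ (S.M.φ a)) := Or.inr (Or.inr rfl)
    have n2 : a ≠ S.M.φ a := fun h0 => S.M.φne a h0.symm
    have n3 : a ≠ S.M.φ (S.M.φ a) := fun h0 => by
      have := congrArg S.M.φ h0
      rw [S.M.φ3] at this
      exact S.M.φne a this
    have n6 : S.M.φ a ≠ S.M.φ (S.M.φ a) := fun h0 => n2 (S.M.φinj h0)
    have h3 := H.U3
    refine h3.trans ?_
    unfold fu
    refine le_trans (le_of_eq ?_) (Finset.sum_le_sum_of_subset (Finset.subset_univ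
      ({a, S.M.φ a, S.M.φ (S.M.φ a)} : Finset D)))
    rw [Finset.sum_insert (by simp [n2, n3]), Finset.sum_pair n6,
      if_pos (sc_of_fp (S := Er S w s k a U) (show Fp (Er S w s k a U) a a from f0)),
      if_pos (sc_of_fp (S := Er S w s k a U) (show Fp (Er S w s k a U) a (S.M.φ a) from f1)),
      if_pos (sc_of_fp (S := Er S w s k a U)
        (show Fp (Er S w s k a U) a (S.M.φ (S.M.φ a)) from f2))]
    show _ = eru S w s k a U a + (eru S w s k a U (S.M.φ a) +
      eru S w s k a U (S.M.φ (S.M.φ a)))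
    rw [H.u_in W f0, H.u_in W f1, H.u_in W f2]
    omega
  · have c2 : ¬ (sd S w s true).sc.r k d := fun h0 => hu (H.u_h W c1 h0)
    have cc : ∀ e, (sd S w s true).sc.r d e → ¬ (sd S w s true).sc.r k e := fun e he h0 =>
      c2 ((sd S w s true).sc.iseqv.trans h0 ((sd S w s true).sc.iseqv.symm he))
    have F := H.fc W c2
    rw [H.u_o W c2] at hu
    rcases thr d hu with h1 | ⟨e, e', h1, h2, h3, h4, h5, h6⟩
    · left
      refine le_trans h1 (le_of_eq ?_)
      unfold fu
      refine Finset.sum_congr rfl fun e _ => ?_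
      by_cases h2 : (sd S w s true).sc.r d e
      · rw [if_pos h2, if_pos ((F e).2 h2)]
        exact (H.u_o W (cc e h2)).symm
      · rw [if_neg h2, if_neg (fun h3 => h2 ((F e).1 h3))]
    · right
      refine ⟨e, e', (F e).2 h1, (F e').2 h2, ?_, ?_, h5, fun r hr hs => ?_⟩
      · show eru S w s k a U e ≠ 0
        rw [H.u_o W (cc e h1)]; exact h3
      · show eru S w s k a U e' ≠ 0
        rw [H.u_o W (cc e' h2)]; exact h4
      · have hs' := (F r).1 hs
        refine h6 r ?_ hs'
        rcases (H.rd W).1 hr with h7 | h7 | h7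
        · exact (sd_real W.real_A W.real_α).2 h7
        · exact absurd (by rw [h7]; exact H.hol) (cc r hs')
        · exact absurd (by rw [h7]; exact H.hαa W) (cc r hs')

/-- the ear state has a solution -/
theorem Erp.ex (hΔ : Δ ≤ 6) (h : MC Δ S L w) (h2 : S.Two s true) :
    ∃ c, Sol (sd S w s true) (sdL S L s true) c ∧
      ¬ (c (S.M.v a) = c (S.M.v (S.M.α a)) ∧ c (S.M.v (S.M.φ (S.M.φ a))) = c (S.M.v a)) := by
  classical
  have rA := W.real_A
  have rα := W.real_α
  obtain ⟨vA, vA'⟩ := H.vA W
  have hex : ∃ d, (S.del (S.A.filter fun y => s y ≠ true)).real d = true := by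
    obtain ⟨d, hd⟩ := h.inner hΔ (by rw [H.h4]; omega) h2
    exact ⟨d, (sd_real (w := w) rA rα).2 hd⟩
  have ok0 : Ok Δ (sd S w s true) (sdL S L s true) (dw S w (S.A.filter fun y => s y ≠ true)) :=
    h.ok.dl hex
  have ok : Ok Δ (Er S w s k a U) (sdL S L s true) (dw S w (S.A.filter fun y => s y ≠ true)) :=
    ok_of_rc (H.wf W hex) (fun T h1 h2 => by
      have := H.rc4 W hΔ h h1 h2
      omega) (H.thr W ok0.thr)
  have hmu : mu Δ (Er S w s k a U) (sdL S L s true) < mu Δ S L := by
    apply mu_lt_n4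
    have e1 : n4 S = S.A.card := by
      unfold n4
      rw [Finset.filter_true_of_mem fun x hx => h.rdeg4 hΔ hx]
    rw [e1]
    refine lt_of_le_of_lt (Finset.card_le_card (Finset.filter_subset _ _))
      (Finset.card_lt_card ⟨fun x hx => ((sd_A (w := w)).1 hx).1, fun hs => ?_⟩)
    have m := mem_kc.1 H.K
    have := ((sd_A (w := w)).1 (hs (rA (S.M.α k) (by rw [rα]; exact m.1)))).2
    rw [m.2.2] at this
    exact absurd this (by decide)
  obtain ⟨c, hc⟩ := h.min D V _ _ _ (h.w1.dl _) ok hmu
  refine ⟨c, ?_, ?_⟩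
  · refine wE_sol (S := sd S w s true) (a := a) (u' := eru S w s k a U) hc (fun d => ?_)
      (sd_A.2 ⟨vA, H.s0⟩) (sd_A.2 ⟨vA', H.s1⟩) (fun T h1 h2 => H.rc1 W hΔ h h1 h2) fun d hd => ?_
    · exact del_real_α rα _ d
    · by_cases c1 : (sd S w s true).sc.r k d
      · have h3 := H.U3
        have key : ∀ e, Fp S a e → U e ≠ 0 → ∃ e, eru S w s k a U e ≠ 0 ∧
            (sd S w s true).sc.r e d := fun e he hu => ⟨e, by rw [H.u_in W he]; exact hu,
          (sd S w s true).sc.iseqv.trans ((sd S w s true).sc.iseqv.symm (H.hfp W he)) c1⟩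
        by_cases q0 : U a = 0
        · by_cases q1 : U (S.M.φ a) = 0
          · exact key _ (Or.inr (Or.inr rfl)) (by omega)
          · exact key _ (Or.inr (Or.inl rfl)) q1
        · exact key _ (Or.inl rfl) q0
      · exact ⟨d, by rw [H.u_o W c1]; exact hd, (sd S w s true).sc.iseqv.refl d⟩
  · rintro ⟨m1, m2⟩
    -- the triangle is visited
    have hcol : ∀ d, Fp S a d → c (S.M.v d) = c (S.M.v a) := by
      rintro d (h1 | h1 | h1)
      · rw [h1]
      · rw [h1, S.M.vφ]; exact m1.symm
      · rw [h1]; exact m2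
    have hvis : Vi (Er S w s k a U) c a := by
      have h3 := H.U3
      have key : ∀ e, Fp S a e → U e ≠ 0 → Vi (Er S w s k a U) c a := fun e he hu => by
        have h4 : Fp (Er S w s k a U) a e := he
        exact (hc.req e (by
          show eru S w s k a U e ≠ 0
          rw [H.u_in W he]; exact hu)).sc ((Er S w s k a U).sc.iseqv.symm
            (sc_of_fp (S := Er S w s k a U) h4))
      by_cases q0 : U a = 0
      · by_cases q1 : U (S.M.φ a) = 0
        · exact key _ (Or.inr (Or.inr rfl)) (by omega)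
        · exact key _ (Or.inr (Or.inl rfl)) q1
      · exact key _ (Or.inl rfl) q0
    obtain ⟨e, he, hh⟩ := hvis
    have ht : (Er S w s k a U).Test c (fun d => if Fp S a d then (1 : ℝ) else 0) := by
      refine ⟨fun d => ?_, fun d hd => ?_⟩
      · show (if Fp S a (S.M.φ d) then (1 : ℝ) else 0) = if Fp S a d then 1 else 0
        exact if_congr fp_φ rfl rfl
      · show (if Fp S a (S.M.α d) then (1 : ℝ) else 0) = if Fp S a d then 1 else 0
        have key : ∀ d, (Er S w s k a U).Op c d → ¬ Fp S a d := by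
          rintro d (h1 | h1) h2
          · have h3 : Fp (Er S w s k a U) a d := h2
            rw [H.er_real W h3] at h1
            exact absurd h1 (by decide)
          · apply h1
            show c (S.M.v d) = c (S.M.v (S.M.α d))
            rw [← S.M.vφ, hcol d h2, hcol _ (fp_φ.2 h2)]
        have key2 : (Er S w s k a U).Op c (S.M.α d) := by
          rcases hd with h1 | h1
          · left
            rw [H.rα W]; exact h1
          · right
            show c (S.M.v (S.M.α d)) ≠ c (S.M.v (S.M.α (S.M.α d)))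
            rw [S.M.αα]
            exact fun h2 => h1 h2.symm
        rw [if_neg (key _ hd), if_neg (key _ key2)]
    have h5 := hh _ ht
    beta_reduce at h5
    rw [if_pos (show Fp S a a from Or.inl rfl)] at h5
    have h6 : Fp S a e := by
      by_contra h0
      rw [if_neg h0] at h5
      norm_num at h5
    apply he.2
    show c (S.M.v e) = c (S.M.v (S.M.α e))
    rw [← S.M.vφ, hcol e h6, hcol _ (fp_φ.2 h6)]

end

end Pool.FC7
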