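import Pool.Agent.FC7.Q6S

/-! # The rule R1, the opposite corner of the gap is on the side of the first three neighbours -/

open Finset

set_option linter.unusedSectionVars false

namespace Pool.FC7

open Pool.FC6 Pool.FC6.St

variable {D V : Type} [Fintype D] [DecidableEq V] {S : St D V} {L : D → Bool} {w : D → ℕ} {Δ : ℕ}

/-- the next real dart of a gap is in the same face -/
theorem sc_step {d : D} (p : S.real (S.M.φ d) = false) : S.sc.r d (S.M.σ (S.M.φ d)) := by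
  intro t ht
  have h1 : t (S.M.φ d) = t d := ht.1 d
  have h2 : t (S.M.α (S.M.φ d)) = t (S.M.φ d) := ht.2 _ p
  have h3 : t (S.M.φ (S.M.α (S.M.φ d))) = t (S.M.α (S.M.φ d)) := ht.1 _
  exact (h3.trans (h2.trans h1)).symm

section

variable {t0 t1 t2 t3 t4 t5 e f : D} (R : R6 S t0 t1 t2 t3 t4 t5 e f)

include R

/-- the darts of the gap belong to one face -/
theorem R6.te : S.sc.r t1 e := by
  have := sc_step R.p1
  rwa [← R.ee] at this

/-- six real edges -/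
theorem R6.rd6 : 6 ≤ S.rdeg (S.M.v t0) := by
  classical
  have h1 : S.rdeg (S.M.v t0) =
      (Finset.univ.filter fun d => S.M.v d = S.M.v t0 ∧ S.real d = true).card := by
    unfold St.rdeg
    rw [Finset.card_filter]
  have h2 : ([t0, t1, t2, t3, t4, t5].toFinset).card = 6 := List.toFinset_card_of_nodup R.nd
  rw [h1, ← h2]
  refine Finset.card_le_card fun d hd => ?_
  rw [List.mem_toFinset] at hd
  simp only [List.mem_cons, List.not_mem_nil, or_false] at hd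
  rw [Finset.mem_filter]
  refine ⟨Finset.mem_univ _, ?_⟩
  rcases hd with h0 | h0 | h0 | h0 | h0 | h0 <;> rw [h0]
  · exact ⟨rfl, R.r0⟩
  · exact ⟨R.v1, R.r1⟩
  · exact ⟨R.v2, R.r2⟩
  · exact ⟨R.v3, R.r3⟩
  · exact ⟨R.v4, R.r4⟩
  · exact ⟨R.v5, R.r5⟩

theorem R6.ef : S.sc.r e f := by
  have := sc_step R.pe
  rwa [← R.ff] at this

theorem R6.tf : S.sc.r t1 f := S.sc.iseqv.trans R.te R.ef

theorem R6.ta : S.sc.r t1 (S.M.α t0) := S.sc.iseqv.symm R.s0

/-- the opposite corner of the gap is not the vertex of the six darts -/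
theorem R6.fy (W : Wf Δ S L w) (hΔ : Δ ≤ 6) (h : MC Δ S L w) (hS : IsStar S) :
    S.M.v f ≠ S.M.v t0 := by
  intro h0
  have h1 : f = t0 := W.simple f t0 R.rf R.r0 h0 R.vf'
  apply h.nobr hΔ hS R.r0
  have := S.sc.iseqv.trans (S.sc.iseqv.symm R.tf) R.ta
  rwa [h1] at this

end

/-- RULE R1, the first orientation -/
theorem MC.r1a (hΔ : Δ ≤ 6) (h : MC Δ S L w) (hS : IsStar S) {t0 t1 t2 t3 t4 t5 e f : D}
    (R : R6 S t0 t1 t2 t3 t4 t5 e f) (hu : fu S t1 ≠ 0) {s : V → Bool}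
    (P1 : Pt S L s (S.M.α t1)) (sy : s (S.M.v t0) = true) (s1 : s (S.M.v (S.M.α t1)) = true)
    (s2 : s (S.M.v (S.M.α t2)) = true) (s3 : s (S.M.v (S.M.α t3)) = true)
    (sx : s (S.M.v f) = true) (s4 : s (S.M.v (S.M.α t4)) = false)
    (s5 : s (S.M.v (S.M.α t5)) = false) (s0 : s (S.M.v (S.M.α t0)) = false)
    (h4 : S.rc s = 4) (T2 : S.Two s true) (F2 : S.Two s false) : False := by
  classical
  have W := h.ok.toWf
  have rA := W.real_A
  have rα := W.real_α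
  have rA' : ∀ {d}, S.real d = true → S.M.v (S.M.α d) ∈ S.A := fun hd =>
    rA _ (by rw [rα]; exact hd)
  have fy := R.fy W hΔ h hS
  obtain ⟨y, hy⟩ : ∃ y, S.M.v t0 = y := ⟨_, rfl⟩
  have v1 := R.v1
  have v2 := R.v2
  have v3 := R.v3
  have v4 := R.v4
  have v5 := R.v5
  have all := R.all
  rw [hy] at v1 v2 v3 v4 v5 sy fy all
  have nd := R.nd
  simp only [List.nodup_cons, List.mem_cons, List.not_mem_nil, or_false, not_or,
    List.nodup_nil, not_false_eq_true, and_true] at nd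
  -- the ring of the cut
  have K4 : t4 ∈ kc S s := mem_kc.2 ⟨R.r4, by rw [v4]; exact sy, s4⟩
  have K5 : t5 ∈ kc S s := mem_kc.2 ⟨R.r5, by rw [v5]; exact sy, s5⟩
  have K0 : t0 ∈ kc S s := mem_kc.2 ⟨R.r0, by rw [hy]; exact sy, s0⟩
  have Kf : f ∈ kc S s := mem_kc.2 ⟨R.rf, sx, by rw [R.vf']; exact s0⟩
  have n45 : t4 ≠ t5 := by tauto
  have n40 : t4 ≠ t0 := by tauto
  have n50 : t5 ≠ t0 := by tauto
  obtain ⟨k4, R0⟩ := h.ring hΔ hS h4 K4 K5 K0 n45 n40 n50 R.s4 R.s5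
  have hf : f = k4 := by
    rcases (R0.mem f).1 Kf with h0 | h0 | h0 | h0
    · exact absurd (by rw [h0]; exact v4) fy
    · exact absurd (by rw [h0]; exact v5) fy
    · exact absurd (by rw [h0]; exact hy) fy
    · exact h0
  rw [← hf] at R0
  -- the ring of the cut with `y` on the other side
  have e1 : ∀ {d}, S.real d = true → S.real (S.M.α d) = true := fun hd => by rw [rα]; exact hd
  have R02 : Rk S (fun z => if z = y then false else s z) (S.M.α t3) (S.M.α t2) (S.M.α t1) f := by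
    refine R0.mv W (fun z _ => rfl) sy v4 v5 hy fy (e1 R.r3) (e1 R.r2) (e1 R.r1)
      (by rw [S.M.αα]; exact v3) (by rw [S.M.αα]; exact v2) (by rw [S.M.αα]; exact v1) s3 s2 s1
      (fun d hd hv hsd => ?_) (fun h0 => ?_) (fun h0 => ?_) (fun h0 => ?_) ?_ ?_ ?_ ?_
    · rcases all d hd hv with h0 | h0 | h0 | h0 | h0 | h0
      · rw [h0, s0] at hsd; exact absurd hsd (by decide)
      · exact Or.inr (Or.inr (by rw [h0, S.M.αα]))
      · exact Or.inr (Or.inl (by rw [h0, S.M.αα]))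
      · exact Or.inl (by rw [h0, S.M.αα])
      · rw [h0, s4] at hsd; exact absurd hsd (by decide)
      · rw [h0, s5] at hsd; exact absurd hsd (by decide)
    · have := S.M.αinj h0; tauto
    · have := S.M.αinj h0; tauto
    · have := S.M.αinj h0; tauto
    · rw [S.M.αα]; exact S.sc.iseqv.symm R.s2
    · rw [S.M.αα]; exact S.sc.iseqv.symm R.s1
    · rw [S.M.αα]; exact R.tf
    · exact S.sc.iseqv.trans R0.f4 (S.sc.iseqv.symm R.s3)
  -- the flip
  have eσ : S.M.σ (S.M.α t1) = S.M.φ t1 := by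
    show S.M.φ (S.M.α (S.M.α t1)) = _
    rw [S.M.αα]
  obtain ⟨S', hs, p1, p2, u1, u2, pφ⟩ := flip_ex hS W (t := S.M.α t1) (e1 R.r1)
    (by rw [eσ]; exact R.p1)
  rw [eσ, S.M.αα] at p1
  rw [eσ, S.M.αα, ← R.ee] at p2
  rw [eσ, ← R.ee] at u1
  rw [eσ, S.M.αα, v1] at u2
  have h' := h.sim hΔ hs
  have W' := h'.ok.toWf
  have A' := hs.hA
  have yA : y ∈ S.A := by rw [← hy]; exact rA _ R.r0
  have p3 : S'.M.φ (S'.M.φ (S.M.φ t1)) = e := by rw [p1, p2]
  obtain ⟨q1, a1, a2, hT, hF⟩ := h'.ext hΔ (s := s) (by rw [hs.rc, h4]; omega)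
    ⟨y, by rw [A']; exact yA, sy⟩ ⟨_, by rw [A']; exact rA' R.r0, s0⟩
  obtain ⟨q2, b1, b2, hT2, hF2⟩ := h'.ext hΔ (s := fun z => if z = y then false else s z)
    (by rw [hs.rc, R02.rc4]; omega)
    ⟨S.M.v f, by rw [A']; exact rA _ R.rf, by rw [if_neg fy]; exact sx⟩
    ⟨y, by rw [A']; exact yA, by rw [if_pos rfl]⟩
  have a2 : S'.rc q1 = 4 := a2.trans ((hs.rc _).trans h4)
  have b2 : S'.rc q2 = 4 := b2.trans ((hs.rc _).trans R02.rc4)
  have RR : Rk S' q1 t4 t5 t0 f := (R0.sim hs).congr W' a1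
  have RR2 : Rk S' q2 (S.M.α t3) (S.M.α t2) (S.M.α t1) f := (R02.sim hs).congr W' b1
  rw [A'] at a1 b1
  have rr : ∀ {d}, S.real d = true → S'.real d = true := fun hd => by rw [hs.hr]; exact hd
  have hy' : S'.M.v t0 = y := by rw [hs.hv _ R.r0]; exact hy
  have w4 : S'.M.v t4 = y := by rw [hs.hv _ R.r4]; exact v4
  have w5 : S'.M.v t5 = y := by rw [hs.hv _ R.r5]; exact v5
  have wf : S'.M.v f = S.M.v f := hs.hv _ R.rf
  have P2 : Pt S L s t2 := P1.of_fp (Or.inr (Or.inl R.e2.symm))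
  have F2' : Fp S t2 (S.M.α t1) := fp_symm (Or.inr (Or.inl R.e2.symm))
  have hl : ∀ d, Fp S t2 d → q1 (S.M.v d) = q1 (S.M.v (S.M.α d)) → L d = false := by
    intro d hd h1
    have hr := P2.real d hd
    rw [a1 _ (rA _ hr), a1 _ (rA' hr)] at h1
    exact P2.lab d hd h1
  have P2' : Pt S' L q1 t2 := P2.flip hs pφ hl
  have two : ∀ b, S.Two s b → S'.Two q1 b := by
    rintro b ⟨x, hx, z, hz, hxz, sx, sz⟩
    exact ⟨x, by rw [A']; exact hx, z, by rw [A']; exact hz, hxz, by rw [a1 x hx, sx],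
      by rw [a1 z hz, sz]⟩
  have i2 : ∃ d, S'.real d = true ∧ q1 (S'.M.v d) = false ∧ q1 (S'.M.v (S'.M.α d)) = false := by
    obtain ⟨d, d1, d2, d3⟩ := h'.inner hΔ (s := fun x => !q1 x)
      (by rw [rc_neg W'.real_α]; omega) (by
      obtain ⟨x, hx, z, hz, hxz, sx, sz⟩ := two _ F2
      exact ⟨x, hx, z, hz, hxz, by simp [sx], by simp [sz]⟩)
    exact ⟨d, d1, by simpa using d2, by simpa using d3⟩
  have sc' : ∀ {d d'}, S.sc.r d d' → S'.sc.r d d' := fun h0 => (hs.sc _ _).2 h0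
  -- units
  have ny : e ≠ t1 := fun h0 => W.real_ne _ R.r1 (by rw [← R.ve, h0])
  have ne : e ≠ S.M.φ t1 := fun h0 => by
    have := R.p1
    rw [← h0, R.re] at this
    exact absurd this (by decide)
  have nt : t1 ≠ S.M.φ t1 := fun h0 => by
    have := R.p1
    rw [← h0, R.r1] at this
    exact absurd this (by decide)
  have uy : S.u t1 = 0 := h.u6 hΔ R.r1 (by rw [R.v1]; exact R.rd6)
  have hun : 1 ≤ S.u e + S.u f := by
    obtain ⟨d, g1, g2, g3⟩ := h.unit2 hΔ hS (r := S.M.α t0) hu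
    rcases R.gap d (hS.ur d g2) g1 with h0 | h0 | h0 | h0
    · rw [h0] at g2; exact absurd uy g2
    · rw [h0] at g2; omega
    · rw [h0] at g2; omega
    · exact absurd h0 g3
  obtain ⟨U, hU⟩ : ∃ U : D → ℕ, ∀ d, U d = if d = S.M.φ t1 then S.u f else if d = t1 then
      3 - (S.u e + S.u f) else S.u e := ⟨_, fun _ => rfl⟩
  have U1 : U (S.M.φ t1) = S.u f := by rw [hU, if_pos rfl]
  have U2 : U t1 = 3 - (S.u e + S.u f) := by rw [hU, if_neg nt, if_pos rfl]
  have U3 : U e = S.u e := by rw [hU, if_neg ne, if_neg ny]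
  have xf : S'.M.v (S.M.φ t1) = S.M.v f := by rw [u1, R.vf]
  refine h'.r1c hΔ (s := q1) (s2 := q2) (y := y) (k := f) (a := S.M.φ t1) (U := U)
    (fun np => ?_) ?_ (by rw [wf]; exact fy) hT hF a2 (two _ T2) (fun z hz => ?_) hT2 hF2 b2 i2
    RR w4 w5 hy' RR2 ?_ ?_ ?_ (Or.inl ⟨?_, ?_, ?_, ?_⟩)
  · -- the ear
    refine ⟨by rw [hs.hr]; exact R.p1, by rw [p1]; exact rr R.r1, by rw [p3]; exact rr R.re, ?_, ?_,
      ?_, hT, hF, a2, RR.K4, fun k' hk' => ?_, Or.inl ⟨?_, ?_, ?_, ?_⟩, ?_, ?_, np, ?_, ?_⟩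
    · rw [xf, a1 _ (rA _ R.rf)]; exact sx
    · rw [hs.hα, u2, a1 _ yA]; exact sy
    · rw [p3, hs.hv _ R.re, R.ve, a1 _ (rA' R.r1)]; exact s1
    · rcases (RR.mem k').1 hk' with h0 | h0 | h0 | h0
      · exact Or.inr (by rw [h0]; exact w4)
      · exact Or.inr (by rw [h0]; exact w5)
      · exact Or.inr (by rw [h0]; exact hy')
      · exact Or.inl h0
    · rw [xf, wf]
    · rw [hs.hα]; exact u2
    · rw [U1, hs.hu]
    · rw [p1, U2]; omega
    · rw [p3, U3, hs.hu]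
    · rw [wf]; exact fy
    · intro t ht
      have hcl : S'.Cl t := ⟨ht.1, fun d hd => ht.2 d (by
        by_contra h0
        have := ((sd_real (w := w) W'.real_A W'.real_α).1 (by simpa using h0)).1
        rw [hd] at this
        exact absurd this (by decide))⟩
      have h1 : S'.sc.r f (S.M.φ t1) := sc' (S.sc.iseqv.trans (S.sc.iseqv.symm R.tf) (fun t ht =>
        (ht.1 t1).symm))
      exact h1 t hcl
    · rw [p1, p2, U1, U2, U3]; omega
  · rw [p3, hs.hv _ R.re, wf, R.vf]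
    exact W.real_ne _ R.re
  · rw [A'] at hz
    rw [b1 z hz, a1 z hz]
  · rw [hs.hvα (e1 R.r3), S.M.αα]; exact v3
  · rw [hs.hvα (e1 R.r2), S.M.αα]; exact v2
  · rw [hs.hvα (e1 R.r1), S.M.αα]; exact v1
  · rw [hs.hα, S.M.αα]; exact P2'
  · rw [hs.hα, S.M.αα]; exact F2'.flip pφ P2.real
  · rw [p3, hs.hv _ R.re, hs.hv _ (e1 R.r1)]; exact R.ve
  · rw [hs.hv _ (e1 R.r1), hs.hv _ (e1 R.r2)]
    intro h0
    have := W.simple t1 t2 R.r1 R.r2 (by rw [v1, v2]) h0
    tauto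

end Pool.FC7
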