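import Pool.Agent.FC7.Q6D

/-! # A cut with three of the six real edges at a vertex, a gap with four edges and two plain triangles -/

open Finset

set_option linter.unusedSectionVars false

namespace Pool.FC7

open Pool.FC6 Pool.FC6.St

variable {D V : Type} [Fintype D] [DecidableEq V] {S : St D V} {L : D → Bool} {w : D → ℕ} {Δ : ℕ}

/-- a vertex with three edges to both sides of a cut with four edges is moved -/
theorem rc_mv (W : Wf Δ S L w) {s : V → Bool} (h4 : S.rc s = 4) {y : V} {p1 p2 p3 q1 q2 q3 : D}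
    (all : ∀ d, S.real d = true → S.M.v d = y → d = p1 ∨ d = p2 ∨ d = p3 ∨ d = q1 ∨ d = q2 ∨ d = q3)
    (r1 : S.real p1 = true) (r2 : S.real p2 = true) (r3 : S.real p3 = true)
    (v1 : S.M.v p1 = y) (v2 : S.M.v p2 = y) (v3 : S.M.v p3 = y)
    (s1 : s (S.M.v (S.M.α p1)) = true) (s2 : s (S.M.v (S.M.α p2)) = true)
    (s3 : s (S.M.v (S.M.α p3)) = true) (n12 : p1 ≠ p2) (n13 : p1 ≠ p3) (n23 : p2 ≠ p3) :
    S.rc (fun z => if z = y then true else s z) ≤ 4 := by
  classical
  have rα := W.real_α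
  cases sy : s y
  swap
  · have : (fun z => if z = y then true else s z) = s := by
      funext z
      by_cases hz : z = y
      · rw [if_pos hz, hz, sy]
      · rw [if_neg hz]
    rw [this, h4]
  set s' : V → Bool := fun z => if z = y then true else s z with hs'
  have e' : ∀ z, s' z = if z = y then true else s z := fun _ => rfl
  have hne : ∀ {d}, S.real d = true → S.M.v d = y → S.M.v (S.M.α d) ≠ y := fun hd hv h0 =>
    W.real_ne _ hd (by rw [hv, h0])
  have kp : ∀ {p}, S.real p = true → S.M.v p = y → s (S.M.v (S.M.α p)) = true →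
      S.M.α p ∈ kc S s := fun hr hv hs => mem_kc.2 ⟨by rw [rα]; exact hr, hs, by
        rw [S.M.αα, hv]; exact sy⟩
  have hsub : ({S.M.α p1, S.M.α p2, S.M.α p3} : Finset D) ⊆ kc S s := by
    intro x hx
    simp only [Finset.mem_insert, Finset.mem_singleton] at hx
    rcases hx with rfl | rfl | rfl
    · exact kp r1 v1 s1
    · exact kp r2 v2 s2
    · exact kp r3 v3 s3
  have h3 : ({S.M.α p1, S.M.α p2, S.M.α p3} : Finset D).card = 3 := Finset.card_eq_three.2
    ⟨_, _, _, fun h => n12 (S.M.αinj h), fun h => n13 (S.M.αinj h), fun h => n23 (S.M.αinj h), rfl⟩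
  have hK : kc S s' ⊆ (kc S s \ {S.M.α p1, S.M.α p2, S.M.α p3}) ∪ {q1, q2, q3} := by
    intro d hd
    obtain ⟨a1, a2, a3⟩ := mem_kc.1 hd
    have b3 : S.M.v (S.M.α d) ≠ y ∧ s (S.M.v (S.M.α d)) = false := by
      rw [e'] at a3
      by_cases h0 : S.M.v (S.M.α d) = y
      · rw [if_pos h0] at a3
        exact absurd a3 (by decide)
      · rw [if_neg h0] at a3
        exact ⟨h0, a3⟩
    rw [Finset.mem_union]
    by_cases h0 : S.M.v d = y
    · right
      simp only [Finset.mem_insert, Finset.mem_singleton]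
      rcases all d a1 h0 with h | h | h | h | h | h
      · rw [h, s1] at b3
        exact absurd b3.2 (by decide)
      · rw [h, s2] at b3
        exact absurd b3.2 (by decide)
      · rw [h, s3] at b3
        exact absurd b3.2 (by decide)
      · exact Or.inl h
      · exact Or.inr (Or.inl h)
      · exact Or.inr (Or.inr h)
    · left
      rw [e', if_neg h0] at a2
      rw [Finset.mem_sdiff]
      refine ⟨mem_kc.2 ⟨a1, a2, b3.2⟩, fun h => ?_⟩
      simp only [Finset.mem_insert, Finset.mem_singleton] at h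
      rcases h with h | h | h <;> rw [h, S.M.αα] at b3
      · exact b3.1 v1
      · exact b3.1 v2
      · exact b3.1 v3
  rw [← kc_card]
  refine (Finset.card_le_card hK).trans ((Finset.card_union_le _ _).trans ?_)
  rw [Finset.card_sdiff_of_subset hsub, kc_card, h4, h3]
  have : ({q1, q2, q3} : Finset D).card ≤ 3 := Finset.card_le_three
  omega

/-- the first orientation -/
def R1A (Δ : ℕ) (S : St D V) (L : D → Bool) (w : D → ℕ) : Prop :=
  MC Δ S L w → IsStar S → ∀ {t0 t1 t2 t3 t4 t5 e f : D}, R6 S t0 t1 t2 t3 t4 t5 e f → fu S t1 ≠ 0 →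
    ∀ {s : V → Bool}, Pt S L s (S.M.α t1) → s (S.M.v t0) = true → s (S.M.v (S.M.α t1)) = true →
    s (S.M.v (S.M.α t2)) = true → s (S.M.v (S.M.α t3)) = true → s (S.M.v f) = true →
    s (S.M.v (S.M.α t4)) = false → s (S.M.v (S.M.α t5)) = false → s (S.M.v (S.M.α t0)) = false →
    S.rc s = 4 → S.Two s true → S.Two s false → False

/-- the second orientation -/
def R1B (Δ : ℕ) (S : St D V) (L : D → Bool) (w : D → ℕ) : Prop :=
  MC Δ S L w → IsStar S → ∀ {t0 t1 t2 t3 t4 t5 e f : D}, R6 S t0 t1 t2 t3 t4 t5 e f → fu S t1 ≠ 0 →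
    ∀ {s : V → Bool}, Pt S L s t0 → s (S.M.v t0) = true → s (S.M.v (S.M.α t1)) = false →
    s (S.M.v (S.M.α t2)) = false → s (S.M.v (S.M.α t3)) = false → s (S.M.v f) = true →
    s (S.M.v (S.M.α t4)) = true → s (S.M.v (S.M.α t5)) = true → s (S.M.v (S.M.α t0)) = true →
    S.rc s = 4 → S.Two s true → S.Two s false → False

theorem MC.r1p (hΔ : Δ ≤ 6) (h : MC Δ S L w) (hS : IsStar S) (hA : R1A Δ S L w) (hB : R1B Δ S L w)
    {s : V → Bool} {t0 t1 t2 t3 t4 t5 : D} (G : G65 S L s t0 t1 t2 t3 t4 t5) : 5 ≤ S.rc s := by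
  classical
  have W := h.ok.toWf
  have rα := W.real_α
  have rA := W.real_A
  have rA' : ∀ d, S.real d = true → S.M.v (S.M.α d) ∈ S.A := fun d hd =>
    rA _ (by rw [rα]; exact hd)
  by_contra hlt
  have bne : ∀ {x z : Bool}, x ≠ z → x = !z := by decide
  have c4 := bne G.c4
  have c5 := bne G.c5
  have c0 := bne G.c0
  have hx : ∀ b, ∃ x ∈ S.A, s x = b := by
    intro b
    by_cases h0 : s (S.M.v (S.M.α t1)) = b
    · exact ⟨_, rA' _ G.x1.1, h0⟩
    · refine ⟨_, rA' _ G.x4.1, ?_⟩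
      rw [c4]
      exact (bne (fun h1 => h0 h1.symm)).symm
  have h4 : S.rc s = 4 := by
    have := h.cut4 hΔ (hx true) (hx false)
    omega
  have f1 : S.real (S.M.σ t1) = true := by
    have := G.P1.real (S.M.φ (S.M.α t1)) (Or.inr (Or.inl rfl))
    exact this
  have f5 : S.real (S.M.φ (S.M.φ t0)) = true := G.P5.real _ (Or.inr (Or.inr rfl))
  have R := R6.of W hS G.r0 G.g0 G.x1 G.x2 G.x3 G.x4 G.x5 G.x0 f1 f5 G.h4 (s := s)
    (b := s (S.M.v (S.M.α t1))) rfl G.c2 G.c3 c4 c5 c0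
  obtain ⟨e, he⟩ : ∃ e, e = S.M.σ (S.M.φ t1) := ⟨_, rfl⟩
  rw [← he] at R
  obtain ⟨f, hf⟩ : ∃ f, f = S.M.σ (S.M.φ e) := ⟨_, rfl⟩
  rw [← hf] at R
  -- the triangles have no labels
  have pl : ∀ {t} {s' : V → Bool}, Pt S L s t → Pt S L s' t := fun {t s'} P =>
    ⟨P.real, P.u, fun d hd _ => by
      by_cases h0 : s (S.M.v d) = s (S.M.v (S.M.α d))
      · exact P.lab d hd h0
      · by_contra hL
        have := h.lab5 hΔ (k := d) (by simpa using hL) h0
        omega⟩
  have nd := R.nd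
  simp only [List.nodup_cons, List.mem_cons, List.not_mem_nil, or_false, not_or, not_false_iff,
    List.nodup_nil, and_true] at nd
  obtain ⟨⟨n01, n02, n03, n04, n05⟩, ⟨n12, n13, n14, n15⟩, ⟨n23, n24, n25⟩, ⟨n34, n35⟩, n45⟩ := nd
  have yne : ∀ {d}, S.real d = true → S.M.v d = S.M.v t0 → S.M.v (S.M.α d) ≠ S.M.v t0 :=
    fun hd hv h0 => W.real_ne _ hd (by rw [hv, h0])
  have dif : ∀ {a b}, S.real a = true → S.real b = true → S.M.v a = S.M.v t0 →
      S.M.v b = S.M.v t0 → a ≠ b → S.M.v (S.M.α a) ≠ S.M.v (S.M.α b) := fun ra rb va vb hab h0 =>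
    hab (W.simple _ _ ra rb (va.trans vb.symm) h0)
  have key : ∀ s : V → Bool, (∀ {t}, Pt S L s t → ∀ s', Pt S L s' t) → Pt S L s (S.M.α t1) →
      Pt S L s t0 → S.rc s = 4 → s (S.M.v (S.M.α t1)) = true → s (S.M.v (S.M.α t2)) = true →
      s (S.M.v (S.M.α t3)) = true → s (S.M.v (S.M.α t4)) = false →
      s (S.M.v (S.M.α t5)) = false → s (S.M.v (S.M.α t0)) = false → False := by
    intro s pl P1 P5 h4 s1 s2 s3 s4 s5 s0
    have m : ∀ {s : V → Bool} {d}, S.real d = true → S.M.v d = S.M.v t0 →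
        (fun z => if z = S.M.v t0 then true else s z) (S.M.v (S.M.α d)) = s (S.M.v (S.M.α d)) :=
      fun {s d} hd hv => if_neg (yne hd hv)
    cases sx : s (S.M.v f)
    · -- the second orientation
      have h4n : S.rc (fun z => !s z) = 4 := by rw [rc_neg rα]; exact h4
      obtain ⟨s', hs'⟩ : ∃ s' : V → Bool, s' = fun z => if z = S.M.v t0 then true else !s z :=
        ⟨_, rfl⟩
      have hm : ∀ {d}, S.real d = true → S.M.v d = S.M.v t0 → s' (S.M.v (S.M.α d)) =
          !s (S.M.v (S.M.α d)) := fun {d} hd hv => by rw [hs']; exact if_neg (yne hd hv)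
      have hle : S.rc s' ≤ 4 := by
        rw [hs']
        refine rc_mv W h4n (p1 := t4) (p2 := t5) (p3 := t0) (q1 := t1) (q2 := t2) (q3 := t3)
          (fun d hd hv => ?_) R.r4 R.r5 R.r0 R.v4 R.v5 rfl (by simp [s4]) (by simp [s5])
          (by simp [s0]) n45 (Ne.symm n04) (Ne.symm n05)
        rcases R.all d hd hv with h | h | h | h | h | h <;> simp [h]
      have a1 : s' (S.M.v (S.M.α t1)) = false := by rw [hm R.r1 R.v1, s1]; rfl
      have a2 : s' (S.M.v (S.M.α t2)) = false := by rw [hm R.r2 R.v2, s2]; rfl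
      have a3 : s' (S.M.v (S.M.α t3)) = false := by rw [hm R.r3 R.v3, s3]; rfl
      have a4 : s' (S.M.v (S.M.α t4)) = true := by rw [hm R.r4 R.v4, s4]; rfl
      have a5 : s' (S.M.v (S.M.α t5)) = true := by rw [hm R.r5 R.v5, s5]; rfl
      have a0 : s' (S.M.v (S.M.α t0)) = true := by rw [hm R.r0 rfl, s0]; rfl
      have ax : s' (S.M.v f) = true := by
        rw [hs']
        show (if S.M.v f = S.M.v t0 then true else !s (S.M.v f)) = true
        split_ifs
        · rfl
        · rw [sx]; rfl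
      have ay : s' (S.M.v t0) = true := by rw [hs']; exact if_pos rfl
      have h4' : S.rc s' = 4 := by
        have := h.cut4 hΔ (s := s') ⟨_, rA _ R.r0, ay⟩ ⟨_, rA' _ R.r1, a1⟩
        omega
      refine hB h hS R G.u (s := s') (pl P5 _) ay a1 a2 a3 ax a4 a5 a0 h4' ?_ ?_
      · exact ⟨_, rA' _ R.r4, _, rA' _ R.r5, dif R.r4 R.r5 R.v4 R.v5 n45, a4, a5⟩
      · exact ⟨_, rA' _ R.r1, _, rA' _ R.r2, dif R.r1 R.r2 R.v1 R.v2 n12, a1, a2⟩
    · obtain ⟨s', hs'⟩ : ∃ s' : V → Bool, s' = fun z => if z = S.M.v t0 then true else s z :=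
        ⟨_, rfl⟩
      have hm : ∀ {d}, S.real d = true → S.M.v d = S.M.v t0 → s' (S.M.v (S.M.α d)) =
          s (S.M.v (S.M.α d)) := fun {d} hd hv => by rw [hs']; exact if_neg (yne hd hv)
      have hle : S.rc s' ≤ 4 := by
        rw [hs']
        refine rc_mv W h4 (p1 := t1) (p2 := t2) (p3 := t3) (q1 := t4) (q2 := t5) (q3 := t0)
          (fun d hd hv => ?_) R.r1 R.r2 R.r3 R.v1 R.v2 R.v3 s1 s2 s3 n12 n13 n23
        rcases R.all d hd hv with h | h | h | h | h | h <;> simp [h]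
      have a1 : s' (S.M.v (S.M.α t1)) = true := by rw [hm R.r1 R.v1, s1]
      have a2 : s' (S.M.v (S.M.α t2)) = true := by rw [hm R.r2 R.v2, s2]
      have a3 : s' (S.M.v (S.M.α t3)) = true := by rw [hm R.r3 R.v3, s3]
      have a4 : s' (S.M.v (S.M.α t4)) = false := by rw [hm R.r4 R.v4, s4]
      have a5 : s' (S.M.v (S.M.α t5)) = false := by rw [hm R.r5 R.v5, s5]
      have a0 : s' (S.M.v (S.M.α t0)) = false := by rw [hm R.r0 rfl, s0]
      have ax : s' (S.M.v f) = true := by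
        rw [hs']
        show (if S.M.v f = S.M.v t0 then true else s (S.M.v f)) = true
        split_ifs
        · rfl
        · exact sx
      have ay : s' (S.M.v t0) = true := by rw [hs']; exact if_pos rfl
      have h4' : S.rc s' = 4 := by
        have := h.cut4 hΔ (s := s') ⟨_, rA _ R.r0, ay⟩ ⟨_, rA' _ R.r4, a4⟩
        omega
      refine hA h hS R G.u (s := s') (pl P1 _) ay a1 a2 a3 ax a4 a5 a0 h4' ?_ ?_
      · exact ⟨_, rA' _ R.r1, _, rA' _ R.r2, dif R.r1 R.r2 R.v1 R.v2 n12, a1, a2⟩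
      · exact ⟨_, rA' _ R.r4, _, rA' _ R.r5, dif R.r4 R.r5 R.v4 R.v5 n45, a4, a5⟩
  cases s1 : s (S.M.v (S.M.α t1))
  · rw [s1] at c4 c5 c0
    have c2 := G.c2.trans s1
    have c3 := G.c3.trans s1
    refine key (fun z => !s z) (fun P s' => pl (s' := s') (by simpa using P.neg)) G.P1.neg
      G.P5.neg (by rw [rc_neg rα]; exact h4) ?_ ?_ ?_ ?_ ?_ ?_
    · simp [s1]
    · simp [c2]
    · simp [c3]
    · simp [c4]
    · simp [c5]
    · simp [c0]
  · rw [s1] at c4 c5 c0
    exact key s (fun P s' => pl P) G.P1 G.P5 h4 s1 (G.c2.trans s1) (G.c3.trans s1) c4 c5 c0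

end Pool.FC7
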