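import Pool.Agent.FC7.Q6C
import Pool.Agent.FC7.Q6D
import Pool.Agent.FC7.Q5K
import Pool.Agent.FC7.ClA

/-! # Tools for the rule R1 -/

open Finset

set_option linter.unusedSectionVars false

namespace Pool.FC7

open Pool.FC6 Pool.FC6.St

variable {D V : Type} [Fintype D] [DecidableEq V] {S : St D V} {L : D → Bool} {w : D → ℕ} {Δ : ℕ}

/-- the cut edges of two cuts which agree on the alive vertices -/
theorem kc_congr (W : Wf Δ S L w) {s s1 : V → Bool} (a1 : ∀ x ∈ S.A, s1 x = s x) (k : D) :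
    k ∈ kc S s1 ↔ k ∈ kc S s := by
  have rA := W.real_A
  have rA' : ∀ d, S.real d = true → S.M.v (S.M.α d) ∈ S.A := fun d hd =>
    rA _ (by rw [W.real_α]; exact hd)
  rw [mem_kc, mem_kc]
  constructor
  · rintro ⟨r, g1, g2⟩
    exact ⟨r, by rw [← a1 _ (rA _ r)]; exact g1, by rw [← a1 _ (rA' _ r)]; exact g2⟩
  · rintro ⟨r, g1, g2⟩
    exact ⟨r, by rw [a1 _ (rA _ r)]; exact g1, by rw [a1 _ (rA' _ r)]; exact g2⟩

/-- the ring in a state with flipped virtual edges -/
theorem Rk.sim {S' : St D V} (hs : Sim S S') {s : V → Bool} {k1 k2 k3 k4 : D}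
    (R : Rk S s k1 k2 k3 k4) : Rk S' s k1 k2 k3 k4 where
  mem k := by
    rw [← R.mem k, mem_kc, mem_kc, hs.hr]
    constructor
    · rintro ⟨r, g1, g2⟩
      exact ⟨r, by rw [← hs.hv _ r]; exact g1, by rw [← hs.hvα r]; exact g2⟩
    · rintro ⟨r, g1, g2⟩
      exact ⟨r, by rw [hs.hv _ r]; exact g1, by rw [hs.hvα r]; exact g2⟩
  n12 := R.n12
  n13 := R.n13
  n14 := R.n14
  n23 := R.n23
  n24 := R.n24
  n34 := R.n34
  f1 := by rw [hs.sc, hs.hα]; exact R.f1
  f2 := by rw [hs.sc, hs.hα]; exact R.f2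
  f3 := by rw [hs.sc, hs.hα]; exact R.f3
  f4 := by rw [hs.sc, hs.hα]; exact R.f4

/-- the ring of a cut which agrees on the alive vertices -/
theorem Rk.congr (W : Wf Δ S L w) {s s1 : V → Bool} (a1 : ∀ x ∈ S.A, s1 x = s x)
    {k1 k2 k3 k4 : D} (R : Rk S s k1 k2 k3 k4) : Rk S s1 k1 k2 k3 k4 :=
  ⟨fun k => (kc_congr W a1 k).trans (R.mem k), R.n12, R.n13, R.n14, R.n23, R.n24, R.n34, R.f1,
    R.f2, R.f3, R.f4⟩

theorem Rk.rc4 {s : V → Bool} {k1 k2 k3 k4 : D} (R : Rk S s k1 k2 k3 k4) : S.rc s = 4 := by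
  classical
  have e : kc S s = {k1, k2, k3, k4} := by
    ext k
    rw [R.mem]
    simp only [Finset.mem_insert, Finset.mem_singleton]
  rw [← kc_card, e, Finset.card_insert_of_notMem (by simp [R.n12, R.n13, R.n14]),
    Finset.card_insert_of_notMem (by simp [R.n23, R.n24]),
    Finset.card_insert_of_notMem (by simp [R.n34]), Finset.card_singleton]

/-- the ring of the cut with `y` on the other side -/
theorem Rk.mv (W : Wf Δ S L w) {s s2 : V → Bool} {y : V}
    (hs2 : ∀ z ∈ S.A, s2 z = if z = y then false else s z) (sy : s y = true)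
    {k1 k2 k3 k : D} (R : Rk S s k1 k2 k3 k) (v1 : S.M.v k1 = y) (v2 : S.M.v k2 = y)
    (v3 : S.M.v k3 = y) (vk : S.M.v k ≠ y) {j1 j2 j3 : D} (r1 : S.real j1 = true)
    (r2 : S.real j2 = true) (r3 : S.real j3 = true) (w1 : S.M.v (S.M.α j1) = y)
    (w2 : S.M.v (S.M.α j2) = y) (w3 : S.M.v (S.M.α j3) = y) (s1 : s (S.M.v j1) = true)
    (s2' : s (S.M.v j2) = true) (s3 : s (S.M.v j3) = true)
    (on : ∀ d, S.real d = true → S.M.v d = y → s (S.M.v (S.M.α d)) = true →
      d = S.M.α j1 ∨ d = S.M.α j2 ∨ d = S.M.α j3) (n12 : j1 ≠ j2) (n13 : j1 ≠ j3)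
    (n23 : j2 ≠ j3) (f1 : S.sc.r (S.M.α j1) j2) (f2 : S.sc.r (S.M.α j2) j3)
    (f3 : S.sc.r (S.M.α j3) k) (f4 : S.sc.r (S.M.α k) j1) : Rk S s2 j1 j2 j3 k := by
  have rA := W.real_A
  have rα := W.real_α
  have mk := mem_kc.1 R.K4
  have Ay : y ∈ S.A := by rw [← v1]; exact rA _ (mem_kc.1 R.K1).1
  have s2y : s2 y = false := by rw [hs2 _ Ay, if_pos rfl]
  have key : ∀ {j}, S.real j = true → S.M.v (S.M.α j) = y → s (S.M.v j) = true →
      j ∈ kc S s2 ∧ j ≠ k := by
    intro j r hw hs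
    have hne : S.M.v j ≠ y := fun h0 => W.real_ne _ r (by rw [h0, hw])
    refine ⟨mem_kc.2 ⟨r, by rw [hs2 _ (rA _ r), if_neg hne]; exact hs, by rw [hw]; exact s2y⟩,
      fun h0 => ?_⟩
    have h5 := mk.2.2
    rw [← h0, hw, sy] at h5
    exact absurd h5 (by decide)
  refine ⟨fun d => ⟨fun hd => ?_, fun hd => ?_⟩, n12, n13, (key r1 w1 s1).2, n23,
    (key r2 w2 s2').2, (key r3 w3 s3).2, f1, f2, f3, f4⟩
  · obtain ⟨r, g1, g2⟩ := mem_kc.1 hd
    have dA := rA _ r
    have rd : S.real (S.M.α d) = true := by rw [rα]; exact r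
    have dA' := rA _ rd
    have hne : S.M.v d ≠ y := fun h0 => by
      rw [h0, s2y] at g1
      exact absurd g1 (by decide)
    have h1 : s (S.M.v d) = true := by
      have := hs2 _ dA
      rw [if_neg hne] at this
      rw [← this, g1]
    by_cases hy : S.M.v (S.M.α d) = y
    · rcases on _ rd hy (by rw [S.M.αα]; exact h1) with h0 | h0 | h0
      · exact Or.inl (S.M.αinj h0)
      · exact Or.inr (Or.inl (S.M.αinj h0))
      · exact Or.inr (Or.inr (Or.inl (S.M.αinj h0)))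
    · have h2 : s (S.M.v (S.M.α d)) = false := by
        have := hs2 _ dA'
        rw [if_neg hy] at this
        rw [← this, g2]
      rcases (R.mem _).1 (mem_kc.2 ⟨r, h1, h2⟩) with h0 | h0 | h0 | h0
      · exact absurd (by rw [h0, v1]) hne
      · exact absurd (by rw [h0, v2]) hne
      · exact absurd (by rw [h0, v3]) hne
      · exact Or.inr (Or.inr (Or.inr h0))
  · rcases hd with h0 | h0 | h0 | h0
    · rw [h0]; exact (key r1 w1 s1).1
    · rw [h0]; exact (key r2 w2 s2').1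
    · rw [h0]; exact (key r3 w3 s3).1
    · rw [h0]
      have hy : S.M.v (S.M.α k) ≠ y := fun h5 => by
        have h6 := mk.2.2
        rw [h5, sy] at h6
        exact absurd h6 (by decide)
      exact mem_kc.2 ⟨mk.1, by rw [hs2 _ (rA _ mk.1), if_neg vk]; exact mk.2.1, by
        rw [hs2 _ (rA _ (by rw [rα]; exact mk.1)), if_neg hy]; exact mk.2.2⟩

/-- the face of `d` has a unit which is not at the vertex of `r` -/
theorem MC.unit2 (hΔ : Δ ≤ 6) (h : MC Δ S L w) (hS : IsStar S) {d r : D} (hu : fu S d ≠ 0) :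
    ∃ e, S.sc.r d e ∧ S.u e ≠ 0 ∧ e ≠ r := by
  classical
  by_contra hno
  push Not at hno
  have e1 : fu S d = if S.sc.r d r then S.u r else 0 := by
    unfold fu
    refine (Finset.sum_eq_single r (fun b _ hb => ?_) fun h0 => absurd (Finset.mem_univ _) h0)
    split_ifs with h1
    · by_contra h2
      exact hb (hno b h1 h2)
    · rfl
  have h1 : S.sc.r d r := by
    by_contra h0
    rw [if_neg h0] at e1
    exact hu e1
  rw [if_pos h1] at e1
  have h2 := h.u_lt hΔ hS r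
  rcases h.ok.thr r (by omega) with h3 | ⟨e, e', g1, g2, g3, g4, g5, -⟩
  · rw [fu_congr h1] at e1
    omega
  · apply g5
    rw [hno e (S.sc.iseqv.trans h1 g1) g3, hno e' (S.sc.iseqv.trans h1 g2) g4]

/-- a solid triangle in the flipped state -/
theorem Fp.flip {S' : St D V} (hφ : ∀ d, (∀ e, Fp S d e → S.real e = true) → S'.M.φ d = S.M.φ d)
    {k d : D} (P : ∀ e, Fp S k e → S.real e = true) (hd : Fp S k d) : Fp S' k d := by
  have solid : ∀ {d}, Fp S k d → ∀ e, Fp S d e → S.real e = true := fun {d} hd e he =>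
    P e (fp_trans (fp_symm hd) he)
  have e1 : S'.M.φ k = S.M.φ k := hφ k (solid (Or.inl rfl))
  have e2 : S'.M.φ (S.M.φ k) = S.M.φ (S.M.φ k) := hφ _ (solid (Or.inr (Or.inl rfl)))
  rcases hd with h | h | h
  · exact Or.inl h
  · exact Or.inr (Or.inl (by rw [h, e1]))
  · exact Or.inr (Or.inr (by rw [h, e1, e2]))

/-- no units at a vertex with six real edges -/
theorem MC.u6 (hΔ : Δ ≤ 6) (h : MC Δ S L w) {d : D} (hd : S.real d = true)
    (h6 : 6 ≤ S.rdeg (S.M.v d)) : S.u d = 0 := by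
  have h1 := rdeg_u_le S w d
  have h2 : wt S w (S.M.v d) ≤ Δ := h.ok.deg _ (h.ok.real_A _ hd)
  omega

end Pool.FC7
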