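import Pool.Agent.FC7.Q6H
import Pool.Agent.FC7.Q6S

/-! # The rule R1: the vertex opposite in the gap is on the side of the last neighbour -/

open Finset

set_option linter.unusedSectionVars false

namespace Pool.FC7

open Pool.FC6 Pool.FC6.St

variable {D V : Type} [Fintype D] [DecidableEq V] {S : St D V} {L : D → Bool} {w : D → ℕ} {Δ : ℕ}
  {t0 t1 t2 t3 t4 t5 e f : D}

/-- classes of a side contain the classes of the state -/
theorem sd_sc (W : Wf Δ S L w) {s : V → Bool} {b : Bool} {d d' : D} (h : S.sc.r d d') :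
    (sd S w s b).sc.r d d' := fun t ht => h t ⟨fun z => ht.1 z, fun z hz => ht.2 z (by
  by_contra h0
  have := ((sd_real (w := w) W.real_A W.real_α).1 (by simpa using h0)).1
  rw [hz] at this
  exact absurd this (by decide))⟩

theorem MC.r1b (hΔ : Δ ≤ 6) (h : MC Δ S L w) (hS : IsStar S) (R : R6 S t0 t1 t2 t3 t4 t5 e f)
    (hu : fu S t1 ≠ 0) {s : V → Bool} (P5 : Pt S L s t0) (sy : s (S.M.v t0) = true)
    (s1 : s (S.M.v (S.M.α t1)) = false) (s2 : s (S.M.v (S.M.α t2)) = false)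
    (s3 : s (S.M.v (S.M.α t3)) = false) (sx : s (S.M.v f) = true)
    (s4 : s (S.M.v (S.M.α t4)) = true) (s5 : s (S.M.v (S.M.α t5)) = true)
    (s0 : s (S.M.v (S.M.α t0)) = true) (h4 : S.rc s = 4) (T2 : S.Two s true)
    (F2 : S.Two s false) : False := by
  classical
  have W := h.ok.toWf
  have rA := W.real_A
  have rα := W.real_α
  have rA' : ∀ d, S.real d = true → S.M.v (S.M.α d) ∈ S.A := fun d hd =>
    rA _ (by rw [rα]; exact hd)
  obtain ⟨u1, -⟩ := R.units hΔ h hS hu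
  have nd := R.nd
  simp only [List.nodup_cons, List.mem_cons, List.not_mem_nil, or_false, not_or,
    List.nodup_nil, and_true, not_false_eq_true] at nd
  obtain ⟨⟨n01, n02, n03, n04, n05⟩, ⟨n12, n13, n14, n15⟩, ⟨n23, n24, n25⟩, ⟨n34, n35⟩, n45⟩ := nd
  have rf' : S.real (S.M.α f) = true := by rw [rα]; exact R.rf
  have re' : S.real (S.M.α e) = true := by rw [rα]; exact R.re
  -- the vertex opposite is not `y`
  have yk : S.M.v f ≠ S.M.v t0 := by
    intro h0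
    have h1 := W.simple f t0 R.rf R.r0 h0 R.vf'
    have h2 := P5.real (S.M.φ t0) (Or.inr (Or.inl rfl))
    rw [← h1, R.pf] at h2
    exact absurd h2 (by decide)
  -- the ring
  have K1 : t1 ∈ kc S s := mem_kc.2 ⟨R.r1, by rw [R.v1]; exact sy, s1⟩
  have K2 : t2 ∈ kc S s := mem_kc.2 ⟨R.r2, by rw [R.v2]; exact sy, s2⟩
  have K3 : t3 ∈ kc S s := mem_kc.2 ⟨R.r3, by rw [R.v3]; exact sy, s3⟩
  have K4 : S.M.α e ∈ kc S s := mem_kc.2 ⟨re', by rw [← R.vf]; exact sx, by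
    rw [S.M.αα, R.ve]; exact s1⟩
  obtain ⟨k4, Rs⟩ := h.ring hΔ hS h4 K1 K2 K3 n12 n13 n23 R.s1 R.s2
  have hk4 : S.M.α e = k4 := by
    have ne : ∀ {t}, S.M.v t = S.M.v t0 → S.M.α e ≠ t := fun ht h0 => yk (by
      rw [R.vf, h0, ht])
    rcases (Rs.mem _).1 K4 with h0 | h0 | h0 | h0
    · exact absurd h0 (ne R.v1)
    · exact absurd h0 (ne R.v2)
    · exact absurd h0 (ne R.v3)
    · exact h0
  rw [← hk4] at Rs
  -- the flipped state
  have σf : S.M.σ (S.M.α f) = S.M.φ f := by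
    show S.M.φ (S.M.α (S.M.α f)) = S.M.φ f
    rw [S.M.αα]
  have σg : S.M.σ (S.M.φ f) = S.M.α t0 := by
    show S.M.φ (S.M.α (S.M.φ f)) = S.M.α t0
    rw [R.hf]
    exact S.M.φ3 (S.M.α t0)
  obtain ⟨S', hs, p1, p2, q1, q2, pφ⟩ := flip_ex hS W (t := S.M.α f) rf' (by rw [σf]; exact R.pf)
  rw [σf, S.M.αα] at p1 p2
  rw [σf, σg, S.M.αα] at q1
  rw [σf, S.M.αα] at q2
  rw [σg] at p2
  have h' := h.sim hΔ hs
  have W' := h'.ok.toWf
  have hαS : ∀ d, S'.M.α d = S.M.α d := hs.hα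
  have hAA : S'.A = S.A := hs.hA
  -- the two cuts
  have Ay : S.M.v t0 ∈ S.A := rA _ R.r0
  have hx : ∀ b, ∃ x ∈ S.A, s x = b := by
    rintro (_ | _)
    · exact ⟨_, rA' _ R.r1, s1⟩
    · exact ⟨_, Ay, sy⟩
  obtain ⟨a, a1, a2, aT, aF⟩ := h'.ext hΔ (s := s) (by rw [hs.rc, h4]; omega)
    (by rw [hAA]; exact hx true) (by rw [hAA]; exact hx false)
  rw [hAA] at a1
  have on : ∀ d, S.real d = true → S.M.v d = S.M.v t0 → s (S.M.v (S.M.α d)) = true →
      d = S.M.α (S.M.α t0) ∨ d = S.M.α (S.M.α t5) ∨ d = S.M.α (S.M.α t4) := by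
    intro d hd hv hsd
    rw [S.M.αα, S.M.αα, S.M.αα]
    rcases R.all d hd hv with h0 | h0 | h0 | h0 | h0 | h0
    · exact Or.inl h0
    · rw [h0, s1] at hsd; exact absurd hsd (by decide)
    · rw [h0, s2] at hsd; exact absurd hsd (by decide)
    · rw [h0, s3] at hsd; exact absurd hsd (by decide)
    · exact Or.inr (Or.inr h0)
    · exact Or.inr (Or.inl h0)
  have vk : S.M.v (S.M.α e) ≠ S.M.v t0 := by rw [← R.vf]; exact yk
  have R2 : Rk S (fun z => if z = S.M.v t0 then false else s z) (S.M.α t0) (S.M.α t5) (S.M.α t4)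
      (S.M.α e) := by
    refine Rs.mv W (y := S.M.v t0) (fun _ _ => rfl) sy R.v1 R.v2 R.v3 vk (by rw [rα]; exact R.r0)
      (by rw [rα]; exact R.r5) (by rw [rα]; exact R.r4) (by rw [S.M.αα])
      (by rw [S.M.αα]; exact R.v5) (by rw [S.M.αα]; exact R.v4) s0 s5 s4 on
      (fun h0 => n05 (S.M.αinj h0)) (fun h0 => n04 (S.M.αinj h0))
      (fun h0 => n45 (S.M.αinj h0).symm) ?_ ?_ ?_ ?_
    · rw [S.M.αα]; exact S.sc.iseqv.symm R.s5
    · rw [S.M.αα]; exact S.sc.iseqv.symm R.s4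
    · rw [S.M.αα]; exact S.sc.iseqv.trans (S.sc.iseqv.symm R.s3) Rs.f3
    · rw [S.M.αα]; exact S.sc.iseqv.trans (S.sc.iseqv.symm R.sc_e) R.sc_0
  have h42 := R2.rc4
  have n05v : S.M.v (S.M.α t0) ≠ S.M.v t0 := fun h0 => W.real_ne _ R.r0 h0.symm
  obtain ⟨a', b1, b2, bT, bF⟩ := h'.ext hΔ (s := fun z => if z = S.M.v t0 then false else s z)
    (by rw [hs.rc, h42]; omega)
    (by rw [hAA]; exact ⟨_, rA' _ R.r0, by rw [if_neg n05v]; exact s0⟩)
    (by rw [hAA]; exact ⟨_, Ay, if_pos rfl⟩)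
  rw [hAA] at b1
  have two : ∀ b, S.Two s b → S'.Two a b := by
    rintro b ⟨x, hx, y, hy, hxy, sx, sy⟩
    exact ⟨x, by rw [hAA]; exact hx, y, by rw [hAA]; exact hy, hxy, by rw [a1 x hx, sx],
      by rw [a1 y hy, sy]⟩
  have a4 : S'.rc a = 4 := by rw [a2, hs.rc, h4]
  have i2 : ∃ d, S'.real d = true ∧ a (S'.M.v d) = false ∧ a (S'.M.v (S'.M.α d)) = false := by
    obtain ⟨d, d1, d2, d3⟩ := h'.inner hΔ (s := fun x => !a x) (by
      rw [rc_neg W'.real_α]; omega) (by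
      obtain ⟨x, hx, y, hy, hxy, sx, sy⟩ := two _ F2
      exact ⟨x, hx, y, hy, hxy, by simp [sx], by simp [sy]⟩)
    exact ⟨d, d1, by simpa using d2, by simpa using d3⟩
  have Ra : Rk S' a t1 t2 t3 (S.M.α e) := by
    refine (Rs.sim hs).congr W' (fun x hx => ?_)
    rw [hAA] at hx
    exact a1 x hx
  have Rb : Rk S' a' (S.M.α t0) (S.M.α t5) (S.M.α t4) (S.M.α e) := by
    refine (R2.sim hs).congr W' (fun x hx => ?_)
    rw [hAA] at hx
    exact b1 x hx
  -- the ear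
  have e5 : S.M.φ (S.M.α t5) = t0 := R.e0
  have q5 : Fp S (S.M.α t5) t0 := Or.inr (Or.inl e5.symm)
  have f5 : S'.M.φ (S.M.α t5) = t0 := by
    rw [pφ _ fun z hz => P5.real z (fp_trans q5 hz), e5]
  have f0 : S'.M.φ t0 = S.M.φ t0 := pφ _ P5.real
  have P' : Pt S' L a (S.M.α t5) := by
    have tr : ∀ d, Fp S' (S.M.α t5) d → Fp S t0 d := by
      rintro d (h0 | h0 | h0)
      · rw [h0]; exact fp_trans q5 (Or.inl rfl)
      · rw [h0, f5]; exact Or.inl rfl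
      · rw [h0, f5, f0]; exact Or.inr (Or.inl rfl)
    refine ⟨fun d hd => by rw [hs.hr]; exact P5.real d (tr d hd), fun d hd => by
      rw [hs.hu]; exact P5.u d (tr d hd), fun d hd h5 => P5.lab d (tr d hd) ?_⟩
    have hr := P5.real d (tr d hd)
    rw [hs.hv d hr, hs.hvα hr, a1 _ (rA _ hr), a1 _ (rA' _ hr)] at h5
    exact h5
  let U : D → ℕ := fun d => if d = S.M.φ f then 3 - (S.u f + S.u (S.M.α t0)) else S.u d
  have Ug : U (S.M.φ f) = 3 - (S.u f + S.u (S.M.α t0)) := if_pos rfl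
  have Uf : U f = S.u f := if_neg fun h0 => S.M.φne f h0.symm
  have r0' : S.real (S.M.α t0) = true := by rw [rα]; exact R.r0
  have U0 : U (S.M.α t0) = S.u (S.M.α t0) := if_neg fun h0 => by
    rw [h0, R.pf] at r0'
    exact absurd r0' (by decide)
  have φφ : S'.M.φ (S'.M.φ (S.M.φ f)) = S.M.α t0 := by rw [p1, p2]
  have vk' : S'.M.v (S.M.α e) = S.M.v f := by rw [hs.hv _ re', R.vf]
  have v0' : S'.M.v (S.M.α t0) = S.M.v (S.M.α t0) := hs.hv _ r0'
  refine h'.r1c hΔ (s := a) (s2 := a') (y := S.M.v t0) (k := S.M.α e) (a := S.M.φ f) (U := U)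
    (fun np => ?_) ?_ ?_ aT aF a4 (two _ T2) ?_ bT bF (by rw [b2, hs.rc, h42]) i2 Ra ?_ ?_ ?_ Rb
    ?_ ?_ ?_ (Or.inr ⟨P', ?_, ?_, ?_⟩)
  · refine
      { ra := by rw [hs.hr]; exact R.pf
        r1 := by rw [p1, hs.hr]; exact R.rf
        r2 := by rw [φφ, hs.hr]; exact r0'
        s0 := by rw [q1, a1 _ Ay]; exact sy
        s1 := by rw [hαS, q2, a1 _ (rA _ R.rf)]; exact sx
        s2 := by rw [φφ, v0', a1 _ (rA _ r0')]; exact s0
        hT := aT
        hF := aF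
        h4 := a4
        K := Ra.K4
        ky := fun k' hk' => ?_
        e := Or.inr ⟨q1, by rw [hαS, q2, vk'], by rw [Ug]; omega, by
          rw [p1, Uf, hs.hu]⟩
        un := by rw [φφ, U0, hs.hu]
        nky := by rw [vk']; exact yk
        np := np
        hol := ?_
        U3 := by rw [φφ, p1, Ug, Uf, U0]; omega }
    · rcases (Ra.mem _).1 hk' with h0 | h0 | h0 | h0
      · exact Or.inr (by rw [h0, hs.hv _ R.r1, R.v1])
      · exact Or.inr (by rw [h0, hs.hv _ R.r2, R.v2])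
      · exact Or.inr (by rw [h0, hs.hv _ R.r3, R.v3])
      · exact Or.inl h0
    · have g1 : (sd S' w a true).real (S.M.α e) = false :=
        sd_virt W'.real_A W'.real_α (mix_kc Ra.K4)
      have g2 : (sd S' w a true).sc.r (S.M.α e) (S'.M.α (S.M.α e)) :=
        (scα (S := sd S' w a true) g1 _).2 ((sd S' w a true).sc.iseqv.refl _)
      rw [hαS, S.M.αα] at g2
      refine (sd S' w a true).sc.iseqv.trans g2 (sd_sc W' ((hs.sc _ _).2 ?_))
      exact (scφ _ _).2 (S.sc.iseqv.trans (S.sc.iseqv.symm R.sc_e) R.sc_f)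
  · rw [φφ, v0', vk', ← R.vf']
    exact (W.real_ne _ R.rf).symm
  · rw [vk']; exact yk
  · intro z hz
    rw [hAA] at hz
    rw [b1 z hz, a1 z hz]
  · rw [hs.hv _ R.r1, R.v1]
  · rw [hs.hv _ R.r2, R.v2]
  · rw [hs.hv _ R.r3, R.v3]
  · rw [hαS, S.M.αα, hs.hv _ R.r0]
  · rw [hαS, S.M.αα, hs.hv _ R.r5, R.v5]
  · rw [hαS, S.M.αα, hs.hv _ R.r4, R.v4]
  · rw [hαS, S.M.αα]
    exact Or.inr (Or.inl f5.symm)
  · rw [φφ]
  · rw [v0', hs.hv _ (show S.real (S.M.α t5) = true by rw [rα]; exact R.r5)]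
    intro h0
    exact n05 (W.simple t0 t5 R.r0 R.r5 R.v5.symm h0)

end Pool.FC7
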