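import Pool.Agent.FC7.Q6D

/-! # The units of a gap with four edges at a vertex with six real darts -/

open Finset

set_option linter.unusedSectionVars false

namespace Pool.FC7

open Pool.FC6 Pool.FC6.St

variable {D V : Type} [Fintype D] [DecidableEq V] {S : St D V} {L : D → Bool} {w : D → ℕ} {Δ : ℕ}

/-- at most two units at a vertex -/
theorem MC.u_le2 (hΔ : Δ ≤ 6) (h : MC Δ S L w) (d : D) : S.u d ≤ 2 := by
  classical
  have W := h.ok.toWf
  by_contra hd
  have hA := W.u_A d (by omega)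
  have h1 := h.rdeg4 hΔ hA
  have h2 := W.deg _ hA
  have h3 : S.rdeg (S.M.v d) + S.u d ≤
      ∑ d', (if S.M.v d' = S.M.v d then (if S.real d' = true then 1 else 0) + S.u d' + w d'
        else 0) := by
    have h4 : S.u d ≤ ∑ d', (if S.M.v d' = S.M.v d then S.u d' else 0) := by
      refine le_trans (le_of_eq ?_) (Finset.single_le_sum (f := fun d' =>
        if S.M.v d' = S.M.v d then S.u d' else 0) (fun _ _ => Nat.zero_le _) (Finset.mem_univ d))
      show _ = if S.M.v d = S.M.v d then S.u d else 0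
      rw [if_pos rfl]
    refine le_trans (Nat.add_le_add_left h4 _) ?_
    unfold rdeg
    rw [← Finset.sum_add_distrib]
    refine Finset.sum_le_sum fun d' _ => ?_
    by_cases q : S.M.v d' = S.M.v d
    · by_cases q2 : S.real d' = true
      · rw [if_pos ⟨q, q2⟩, if_pos q, if_pos q, if_pos q2]
        omega
      · rw [if_neg (fun hh => q2 hh.2), if_pos q, if_pos q, if_neg q2]
        omega
    · rw [if_neg (fun hh => q hh.1), if_neg q, if_neg q]
  omega

section

variable {t0 t1 t2 t3 t4 t5 e f : D}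

/-- the classes of the darts of the gap -/
theorem R6.sc_e (R : R6 S t0 t1 t2 t3 t4 t5 e f) : S.sc.r t1 e := by
  have h1 : S.sc.r t1 (S.M.φ t1) := (scφ _ _).2 (S.sc.iseqv.refl _)
  have h2 : S.sc.r t1 (S.M.α (S.M.φ t1)) := (scα R.p1 _).2 h1
  rw [R.ee]
  exact (scφ t1 (S.M.α (S.M.φ t1))).2 h2

theorem R6.sc_f (R : R6 S t0 t1 t2 t3 t4 t5 e f) : S.sc.r t1 f := by
  have h1 : S.sc.r t1 (S.M.φ e) := (scφ _ _).2 R.sc_e
  have h2 : S.sc.r t1 (S.M.α (S.M.φ e)) := (scα R.pe _).2 h1
  rw [R.ff]
  exact (scφ t1 (S.M.α (S.M.φ e))).2 h2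

theorem R6.sc_0 (R : R6 S t0 t1 t2 t3 t4 t5 e f) : S.sc.r t1 (S.M.α t0) := by
  have h1 : S.sc.r (S.M.α t0) (S.M.σ t0) := (scφ _ _).2 (S.sc.iseqv.refl _)
  have h2 : S.sc.r (S.M.α t0) (S.M.α (S.M.σ t0)) := (scα R.g0 _).2 h1
  have h3 : S.sc.r (S.M.α t0) (S.M.σ (S.M.σ t0)) := (scφ _ _).2 h2
  rw [R.e1] at h3
  exact S.sc.iseqv.symm h3

/-- the units of the gap -/
theorem R6.units (hΔ : Δ ≤ 6) (h : MC Δ S L w) (hS : IsStar S) (R : R6 S t0 t1 t2 t3 t4 t5 e f)
    (hu : fu S t1 ≠ 0) : 1 ≤ S.u f + S.u (S.M.α t0) ∧ 1 ≤ S.u e + S.u f := by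
  classical
  have W := h.ok.toWf
  have rA := W.real_A
  -- no units at the vertex
  have u1 : S.u t1 = 0 := by
    have h2 := W.deg _ (rA _ R.r0)
    have h3 : ∑ d ∈ ([t0, t1, t2, t3, t4, t5] : List D).toFinset,
        (if S.M.v d = S.M.v t0 then (if S.real d = true then 1 else 0) + S.u d + w d else 0) ≤
        ∑ d, (if S.M.v d = S.M.v t0 then (if S.real d = true then 1 else 0) + S.u d + w d
          else 0) := Finset.sum_le_sum_of_subset (Finset.subset_univ _)
    rw [List.sum_toFinset _ R.nd] at h3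
    simp only [List.map_cons, List.map_nil, List.sum_cons, List.sum_nil, R.v1, R.v2, R.v3, R.v4,
      R.v5, R.r0, R.r1, R.r2, R.r3, R.r4, R.r5, if_true] at h3
    omega
  have n1e : t1 ≠ e := fun h0 => W.real_ne _ R.r1 (by rw [← R.ve, ← h0])
  have hne : e ≠ f := fun h0 => W.real_ne _ R.re (by rw [← R.vf, ← h0])
  have hnf : f ≠ S.M.α t0 := fun h0 => W.real_ne _ R.rf (by rw [R.vf', ← h0])
  -- the sum
  have sum : fu S t1 ≤ S.u e + S.u f + S.u (S.M.α t0) := by
    unfold fu
    have h1 : ∑ d, (if S.sc.r t1 d then S.u d else 0) ≤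
        ∑ d, ((if d = e then S.u e else 0) + (if d = f then S.u f else 0) +
          (if d = S.M.α t0 then S.u (S.M.α t0) else 0)) := by
      refine Finset.sum_le_sum fun d _ => ?_
      by_cases h2 : S.sc.r t1 d
      · rw [if_pos h2]
        by_cases h3 : S.u d = 0
        · rw [h3]; exact Nat.zero_le _
        · rcases R.gap d (hS.ur d h3) h2 with h4 | h4 | h4 | h4
          · exact absurd (by rw [h4]; exact u1) h3
          · rw [if_pos h4, h4]; omega
          · rw [if_pos (c := d = f) h4, h4]; omega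
          · rw [if_pos (c := d = S.M.α t0) h4, h4]; omega
      · rw [if_neg h2]; exact Nat.zero_le _
    rw [Finset.sum_add_distrib, Finset.sum_add_distrib, Finset.sum_ite_eq' Finset.univ e,
      Finset.sum_ite_eq' Finset.univ f, Finset.sum_ite_eq' Finset.univ (S.M.α t0),
      if_pos (Finset.mem_univ _), if_pos (Finset.mem_univ _), if_pos (Finset.mem_univ _)] at h1
    exact h1
  obtain ⟨d, d1, d2⟩ : ∃ d, S.sc.r t1 d ∧ S.u d ≠ 0 := by
    by_contra hn
    push Not at hn
    apply hu
    unfold fu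
    refine Finset.sum_eq_zero fun d _ => ?_
    split_ifs with h1
    · exact hn d h1
    · rfl
  have l1 := h.u_le2 hΔ e
  have l2 := h.u_le2 hΔ f
  have l3 := h.u_le2 hΔ (S.M.α t0)
  rcases h.ok.thr d d2 with h3 | h3
  · rw [← fu_congr d1] at h3
    omega
  · obtain ⟨a, b, a1, a2, a3, a4, a5, -⟩ := Two.congr (S.sc.iseqv.symm d1) h3
    have ga := R.gap a (hS.ur a a3) a1
    have gb := R.gap b (hS.ur b a4) a2
    have na : a ≠ t1 := fun h0 => a3 (by rw [h0]; exact u1)
    have nb : b ≠ t1 := fun h0 => a4 (by rw [h0]; exact u1)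
    have hab : a ≠ b := fun h0 => a5 (by rw [h0])
    have pos : ∀ z, z = a ∨ z = b → 1 ≤ S.u z := by
      rintro z (rfl | rfl) <;> omega
    rcases ga with q | q | q | q
    · exact absurd q na
    · have e1 := pos e (Or.inl q.symm)
      rcases gb with p | p | p | p
      · exact absurd p nb
      · exact absurd (q.trans p.symm) hab
      · have := pos f (Or.inr p.symm); omega
      · have := pos (S.M.α t0) (Or.inr p.symm); omega
    · have := pos f (Or.inl q.symm)
      omega
    · have e1 := pos (S.M.α t0) (Or.inl q.symm)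
      rcases gb with p | p | p | p
      · exact absurd p nb
      · have := pos e (Or.inr p.symm); omega
      · have := pos f (Or.inr p.symm); omega
      · exact absurd (q.trans p.symm) hab

end

end Pool.FC7
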