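import Pool.Agent.FC7.Q5H

/-! # A fan of flips at a vertex in a gap

`t` is a real dart at `y` with a gap on its side.  The darts of the gap after `t` are `fgw S t n`.  After the
flips of the virtual darts at the ends of `fgw 0, …, fgw n` the virtual dart `φ (fgw n)` connects the end of
`fgw (n + 1)` with `y`. -/

open Finset

set_option linter.unusedSectionVars false

namespace Pool.FC7

open Pool.FC6 Pool.FC6.St

variable {D V : Type} [Fintype D] [DecidableEq V] {S S' : St D V} {L : D → Bool} {w : D → ℕ} {Δ : ℕ}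
  {t : D} {n : ℕ}

/-- the real darts of a gap -/
def fgw (S : St D V) (t : D) : ℕ → D
  | 0 => t
  | n + 1 => S.M.σ (S.M.φ (fgw S t n))

theorem gw_succ (n : ℕ) : fgw S t (n + 1) = S.M.φ (S.M.α (S.M.φ (fgw S t n))) := rfl

theorem gw_φφ (n : ℕ) : S.M.φ (S.M.φ (fgw S t (n + 1))) = S.M.α (S.M.φ (fgw S t n)) := by
  rw [gw_succ, S.M.φ3]

theorem gw_real (hS : IsStar S) (W : Wf Δ S L w) (rt : S.real t = true)
    (rf : S.real (S.M.φ t) = false) (n : ℕ) :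
    S.real (fgw S t n) = true ∧ S.real (S.M.φ (fgw S t n)) = false := by
  induction n with
  | zero => exact ⟨rt, rf⟩
  | succ n ih =>
    obtain ⟨h1, h2⟩ := ih
    have hA : S.M.v (S.M.φ (fgw S t n)) ∈ S.A := by
      rw [S.M.vφ]; exact W.real_A _ (by rw [W.real_α]; exact h1)
    have h3 : S.real (fgw S t (n + 1)) = true := (hS.σvirt W h2 hA).1
    refine ⟨h3, ?_⟩
    by_contra h4
    have h5 := hS.two _ h3 (by simpa using h4)
    rw [gw_φφ, W.real_α, h2] at h5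
    exact absurd h5 (by decide)

theorem gw_v (n : ℕ) : S.M.v (fgw S t (n + 1)) = S.M.v (S.M.α (fgw S t n)) := by
  show S.M.v (S.M.σ (S.M.φ (fgw S t n))) = _
  rw [S.M.vσ, S.M.vφ]

theorem gw_sc (hS : IsStar S) (W : Wf Δ S L w) (rt : S.real t = true)
    (rf : S.real (S.M.φ t) = false) (n : ℕ) : S.sc.r t (fgw S t n) := by
  induction n with
  | zero => exact S.sc.iseqv.refl _
  | succ n ih =>
    have h1 : S.sc.r t (S.M.φ (fgw S t n)) := (scφ _ _).2 ih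
    have h2 : S.sc.r t (S.M.α (S.M.φ (fgw S t n))) := (scα (gw_real hS W rt rf n).2 _).2 h1
    exact (scφ _ _).2 h2

theorem gw_alive (hS : IsStar S) (W : Wf Δ S L w) (rt : S.real t = true)
    (rf : S.real (S.M.φ t) = false) (n : ℕ) : S.M.v (S.M.φ (fgw S t n)) ∈ S.A := by
  rw [S.M.vφ]; exact W.real_A _ (by rw [W.real_α]; exact (gw_real hS W rt rf n).1)

theorem gw_dead (hS : IsStar S) (W : Wf Δ S L w) (rt : S.real t = true)
    (rf : S.real (S.M.φ t) = false) (n : ℕ) : S.M.v (S.M.α (S.M.φ (fgw S t n))) ∉ S.A := by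
  have h1 := gw_real hS W rt rf n
  rw [← S.M.vφ]
  exact hS.dead _ h1.1 h1.2

theorem gw_z {m : ℕ} (h : S.M.v (S.M.α (fgw S t m)) ≠ S.M.v t) :
    S.M.α (S.M.φ (fgw S t m)) ≠ S.M.φ (S.M.φ t) := by
  intro h0
  apply h
  have h1 : S.M.φ (fgw S t m) = S.M.α (S.M.φ (S.M.φ t)) := by rw [← h0, S.M.αα]
  rw [← S.M.vφ, h1, S.M.vφ2]

theorem gw_inj (hd : ∀ i ≤ n, S.M.v (S.M.α (fgw S t i)) ≠ S.M.v t) :
    ∀ i k, i < k → k ≤ n + 1 → fgw S t i ≠ fgw S t k := by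
  intro i
  induction i with
  | zero =>
    intro k h1 h2 h3
    obtain ⟨m, rfl⟩ : ∃ m, k = m + 1 := ⟨k - 1, by omega⟩
    refine gw_z (hd m (by omega)) (S.M.φinj ?_)
    rw [S.M.φ3, ← gw_succ, ← h3]
    rfl
  | succ i ih =>
    intro k h1 h2 h3
    obtain ⟨m, rfl⟩ : ∃ m, k = m + 1 := ⟨k - 1, by omega⟩
    refine ih m (by omega) (by omega) ?_
    rw [gw_succ, gw_succ] at h3
    exact S.M.φinj (S.M.αinj (S.M.φinj h3))

theorem gw_ne (hd : ∀ i ≤ n, S.M.v (S.M.α (fgw S t i)) ≠ S.M.v t) {i k : ℕ} (h : i ≠ k)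
    (hi : i ≤ n + 1) (hk : k ≤ n + 1) : fgw S t i ≠ fgw S t k := by
  rcases Nat.lt_or_gt_of_ne h with h1 | h1
  · exact gw_inj hd i k h1 hk
  · exact (gw_inj hd k i h1 hi).symm

/-- the state after `n + 1` flips -/
structure Fn (S S' : St D V) (t : D) (n : ℕ) : Prop where
  sim : Sim S S'
  a0 : S'.M.φ (fgw S t 0) = fgw S t 1
  a1 : S'.M.φ (fgw S t 1) = S.M.φ (fgw S t 0)
  a2 : S'.M.φ (S.M.φ (fgw S t 0)) = fgw S t 0
  b0 : ∀ i < n, S'.M.φ (S.M.φ (fgw S t (i + 1))) = S.M.α (S.M.φ (fgw S t i))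
  b1 : ∀ i < n, S'.M.φ (S.M.α (S.M.φ (fgw S t i))) = fgw S t (i + 2)
  b2 : ∀ i < n, S'.M.φ (fgw S t (i + 2)) = S.M.φ (fgw S t (i + 1))
  c0 : S'.M.φ (S.M.α (S.M.φ (fgw S t n))) = S.M.φ (fgw S t (n + 1))
  c1 : S'.M.φ (S.M.φ (fgw S t (n + 1))) = S.M.φ (S.M.φ t)
  c2 : S'.M.φ (S.M.φ (S.M.φ t)) = S.M.α (S.M.φ (fgw S t n))
  off : ∀ d, (∀ i ≤ n + 1, d ≠ fgw S t i) → (∀ i ≤ n + 1, d ≠ S.M.φ (fgw S t i)) →
    (∀ i ≤ n, d ≠ S.M.α (S.M.φ (fgw S t i))) → d ≠ S.M.φ (S.M.φ t) → S'.M.φ d = S.M.φ d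
  v0 : ∀ i ≤ n, S'.M.v (S.M.φ (fgw S t i)) = S.M.v (S.M.α (fgw S t (i + 1)))
  v1 : ∀ i ≤ n, S'.M.v (S.M.α (S.M.φ (fgw S t i))) = S.M.v t
  voff : ∀ d, (∀ i ≤ n, d ≠ S.M.φ (fgw S t i)) → (∀ i ≤ n, d ≠ S.M.α (S.M.φ (fgw S t i))) →
    S'.M.v d = S.M.v d

/-- one flip with named darts -/
theorem flip_gen {a p q a' p' q' : D} (ra : S.real a = false)
    (ur : ∀ d, S.u d ≠ 0 → S.real d = true) (rα : ∀ d, S.real (S.M.α d) = S.real d)
    (hp : S.M.φ a = p) (hq : S.M.φ p = q) (hα : S.M.α a = a') (hp' : S.M.φ a' = p')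
    (hq' : S.M.φ p' = q') (h1 : a' ≠ p) (h2 : a' ≠ q) :
    ∃ S' : St D V, Sim S S' ∧ S'.M.φ a = q ∧ S'.M.φ q = p' ∧ S'.M.φ p' = a ∧ S'.M.φ a' = q' ∧
      S'.M.φ q' = p ∧ S'.M.φ p = a' ∧
      (∀ d, d ≠ a → d ≠ p → d ≠ q → d ≠ a' → d ≠ p' → d ≠ q' → S'.M.φ d = S.M.φ d) ∧
      S'.M.v a = S.M.v q' ∧ S'.M.v a' = S.M.v q ∧
      ∀ d, d ≠ a → d ≠ a' → S'.M.v d = S.M.v d := by
  classical
  subst hp hq hα hp' hq'
  have s := S.M.six h1 h2
  refine ⟨wM S (S.M.flip a h1 h2), sim_flip h1 h2 ra ur rα, ?_, ?_, ?_, ?_, ?_, ?_, ?_, ?_, ?_, ?_⟩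
  · exact TMap.flφ_a
  · exact TMap.flφ_c s
  · exact TMap.flφ_b' s
  · exact TMap.flφ_a' s
  · exact TMap.flφ_c' s
  · exact TMap.flφ_b s
  · exact fun d k1 k2 k3 k4 k5 k6 => TMap.flφ_off ⟨k1, k2, k3, k4, k5, k6⟩
  · exact S.M.flv_a
  · exact S.M.flv_a'
  · exact fun d k1 k2 => S.M.flv_off k1 k2

theorem fn_zero (hS : IsStar S) (W : Wf Δ S L w) (rt : S.real t = true)
    (rf : S.real (S.M.φ t) = false) (hd : S.M.v (S.M.α t) ≠ S.M.v t) : ∃ S', Fn S S' t 0 := by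
  have rα := W.real_α
  have h2 : S.M.α (S.M.φ t) ≠ t := by
    intro h0
    have h3 : S.real (S.M.α (S.M.φ t)) = false := by rw [rα]; exact rf
    rw [h0, rt] at h3
    exact absurd h3 (by decide)
  obtain ⟨S', hs, g1, g2, g3, g4, g5, g6, go, v1, v2, vo⟩ := flip_gen (S := S) (a := S.M.φ t)
    (p := S.M.φ (S.M.φ t)) (q := t) (a' := S.M.α (S.M.φ t)) (p' := fgw S t 1)
    (q' := S.M.φ (fgw S t 1)) rf hS.ur rα rfl (S.M.φ3 _) rfl rfl rfl (gw_z (m := 0) hd) h2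
  have v3 : S.M.v (S.M.φ (fgw S t 1)) = S.M.v (S.M.α (fgw S t 1)) := S.M.vφ _
  exact ⟨S',
    { sim := hs
      a0 := g2, a1 := g3, a2 := g1
      b0 := fun i hi => absurd hi (Nat.not_lt_zero _)
      b1 := fun i hi => absurd hi (Nat.not_lt_zero _)
      b2 := fun i hi => absurd hi (Nat.not_lt_zero _)
      c0 := g4, c1 := g5, c2 := g6
      off := fun d k1 k2 k3 k4 => go d (k2 0 (by omega)) k4 (k1 0 (by omega)) (k3 0 le_rfl)
        (k1 1 le_rfl) (k2 1 le_rfl)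
      v0 := fun i hi => by
        obtain rfl : i = 0 := by omega
        exact v1.trans v3
      v1 := fun i hi => by
        obtain rfl : i = 0 := by omega
        exact v2
      voff := fun d k1 k2 => vo d (k1 0 le_rfl) (k2 0 le_rfl) }⟩

theorem fn_succ (hS : IsStar S) (W : Wf Δ S L w) (rt : S.real t = true)
    (rf : S.real (S.M.φ t) = false) (hd : ∀ i ≤ n + 1, S.M.v (S.M.α (fgw S t i)) ≠ S.M.v t)
    (F : Fn S S' t n) : ∃ S'', Fn S S'' t (n + 1) := by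
  have rα := W.real_α
  have hs := F.sim
  have hα : ∀ d, S'.M.α d = S.M.α d := hs.hα
  have R := gw_real hS W rt rf
  have al := gw_alive hS W rt rf
  have de := gw_dead hS W rt rf
  have dz : S.M.v (S.M.φ (S.M.φ t)) ∉ S.A := hS.dead t rt rf
  have inj : ∀ {i k}, i ≠ k → i ≤ n + 2 → k ≤ n + 2 → fgw S t i ≠ fgw S t k := fun h h1 h2 =>
    gw_ne hd h h1 h2
  have injg : ∀ {i k}, i ≠ k → i ≤ n + 2 → k ≤ n + 2 → S.M.φ (fgw S t i) ≠ S.M.φ (fgw S t k) :=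
    fun h h1 h2 h0 => inj h h1 h2 (S.M.φinj h0)
  have injα : ∀ {i k}, i ≠ k → i ≤ n + 2 → k ≤ n + 2 →
      S.M.α (S.M.φ (fgw S t i)) ≠ S.M.α (S.M.φ (fgw S t k)) :=
    fun h h1 h2 h0 => injg h h1 h2 (S.M.αinj h0)
  -- real against virtual
  have rv : ∀ i k, fgw S t i ≠ S.M.φ (fgw S t k) := fun i k h0 => by
    have h1 := (R i).1
    rw [h0, (R k).2] at h1
    exact absurd h1 (by decide)
  have rvα : ∀ i k, fgw S t i ≠ S.M.α (S.M.φ (fgw S t k)) := fun i k h0 => by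
    have h1 := (R i).1
    rw [h0, rα, (R k).2] at h1
    exact absurd h1 (by decide)
  have rz : ∀ i, fgw S t i ≠ S.M.φ (S.M.φ t) := fun i h0 => by
    have h1 := W.real_A _ (R i).1
    rw [h0] at h1
    exact dz h1
  -- alive against dead
  have ad : ∀ i k, S.M.φ (fgw S t i) ≠ S.M.α (S.M.φ (fgw S t k)) := fun i k h0 => by
    have h1 := al i
    rw [h0] at h1
    exact de k h1
  have az : ∀ i, S.M.φ (fgw S t i) ≠ S.M.φ (S.M.φ t) := fun i h0 => by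
    have h1 := al i
    rw [h0] at h1
    exact dz h1
  have zz : ∀ i ≤ n + 1, S.M.α (S.M.φ (fgw S t i)) ≠ S.M.φ (S.M.φ t) := fun i hi => gw_z (hd i hi)
  -- the second triangle
  have p1 : S'.M.φ (S.M.α (S.M.φ (fgw S t (n + 1)))) = fgw S t (n + 2) := by
    rw [F.off _ (fun i _ => (rvα i _).symm) (fun i _ => (ad i _).symm)
      (fun i hi => injα (by omega) (by omega) (by omega)) (zz _ le_rfl)]
    rfl
  have p2 : S'.M.φ (fgw S t (n + 2)) = S.M.φ (fgw S t (n + 2)) :=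
    F.off _ (fun i hi => inj (by omega) (by omega) (by omega)) (fun i _ => rv _ _)
      (fun i _ => rvα _ _) (rz _)
  obtain ⟨S'', hs', g1, g2, g3, g4, g5, g6, go, v1, v2, vo⟩ := flip_gen (S := S')
    (a := S.M.φ (fgw S t (n + 1))) (p := S.M.φ (S.M.φ t)) (q := S.M.α (S.M.φ (fgw S t n)))
    (a' := S.M.α (S.M.φ (fgw S t (n + 1)))) (p' := fgw S t (n + 2))
    (q' := S.M.φ (fgw S t (n + 2))) (by rw [hs.hr]; exact (R _).2)
    (fun d h0 => by rw [hs.hr]; rw [hs.hu] at h0; exact hS.ur d h0)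
    (fun d => by rw [hs.hr, hs.hr, hα]; exact rα d) F.c1 F.c2 (hα _) p1 p2 (zz _ le_rfl)
    (injα (by omega) (by omega) (by omega))
  refine ⟨S'',
    { sim := hs.trans hs'
      a0 := ?_, a1 := ?_, a2 := ?_, b0 := ?_, b1 := ?_, b2 := ?_
      c0 := g4, c1 := g5, c2 := g6, off := ?_, v0 := ?_, v1 := ?_, voff := ?_ }⟩
  · rw [go _ (rv _ _) (rz _) (rvα _ _) (rvα _ _) (inj (by omega) (by omega) (by omega)) (rv _ _)]
    exact F.a0
  · rw [go _ (rv _ _) (rz _) (rvα _ _) (rvα _ _) (inj (by omega) (by omega) (by omega)) (rv _ _)]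
    exact F.a1
  · rw [go _ (injg (by omega) (by omega) (by omega)) (az _) (ad _ _) (ad _ _) (rv _ _).symm
      (injg (by omega) (by omega) (by omega))]
    exact F.a2
  · intro i hi
    rcases Nat.lt_succ_iff_lt_or_eq.1 hi with h0 | rfl
    · rw [go _ (injg (by omega) (by omega) (by omega)) (az _) (ad _ _) (ad _ _) (rv _ _).symm
        (injg (by omega) (by omega) (by omega))]
      exact F.b0 i h0
    · exact g1
  · intro i hi
    rcases Nat.lt_succ_iff_lt_or_eq.1 hi with h0 | rfl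
    · rw [go _ (ad _ _).symm (zz _ (by omega)) (injα (by omega) (by omega) (by omega))
        (injα (by omega) (by omega) (by omega)) (rvα _ _).symm (ad _ _).symm]
      exact F.b1 i h0
    · exact g2
  · intro i hi
    rcases Nat.lt_succ_iff_lt_or_eq.1 hi with h0 | rfl
    · rw [go _ (rv _ _) (rz _) (rvα _ _) (rvα _ _) (inj (by omega) (by omega) (by omega)) (rv _ _)]
      exact F.b2 i h0
    · exact g3
  · intro d k1 k2 k3 k4
    rw [go d (k2 _ (by omega)) k4 (k3 _ (by omega)) (k3 _ le_rfl) (k1 _ le_rfl) (k2 _ le_rfl)]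
    exact F.off d (fun i hi => k1 i (by omega)) (fun i hi => k2 i (by omega))
      (fun i hi => k3 i (by omega)) k4
  · intro i hi
    rcases Nat.le_succ_iff.1 hi with h0 | rfl
    · rw [vo _ (injg (by omega) (by omega) (by omega)) (ad _ _)]
      exact F.v0 i h0
    · rw [v1, F.voff _ (fun i hi => injg (by omega) (by omega) (by omega)) (fun i _ => ad _ _),
        S.M.vφ]
  · intro i hi
    rcases Nat.le_succ_iff.1 hi with h0 | rfl
    · rw [vo _ (ad _ _).symm (injα (by omega) (by omega) (by omega))]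
      exact F.v1 i h0
    · rw [v2]
      exact F.v1 n le_rfl
  · intro d k1 k2
    rw [vo d (k1 _ le_rfl) (k2 _ le_rfl)]
    exact F.voff d (fun i hi => k1 i (by omega)) (fun i hi => k2 i (by omega))

theorem fn_ex (hS : IsStar S) (W : Wf Δ S L w) (rt : S.real t = true)
    (rf : S.real (S.M.φ t) = false) (n : ℕ)
    (hd : ∀ i ≤ n, S.M.v (S.M.α (fgw S t i)) ≠ S.M.v t) : ∃ S', Fn S S' t n := by
  induction n with
  | zero => exact fn_zero hS W rt rf (hd 0 le_rfl)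
  | succ n ih =>
    obtain ⟨S', F⟩ := ih fun i hi => hd i (by omega)
    exact fn_succ hS W rt rf hd F

/-- the darts of the triangles of the fan -/
def FF (S : St D V) (t : D) (n : ℕ) (d : D) : Prop :=
  (∃ i ≤ n + 1, d = fgw S t i) ∨ (∃ i ≤ n, d = S.M.φ (fgw S t i)) ∨
    ∃ i < n, d = S.M.α (S.M.φ (fgw S t i))

/-- the facts about the fan: `a = φ (fgw n)`, `F = FF S t n` -/
structure Fnf (S S' : St D V) (t a : D) (n : ℕ) (F : D → Prop) : Prop where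
  va : S'.M.v a = S.M.v (S.M.α (fgw S t (n + 1)))
  vα : S'.M.v (S'.M.α a) = S.M.v t
  ra : S'.real a = false
  Fa : F a
  Fα : ¬ F (S'.M.α a)
  Fφ : ∀ d, F (S'.M.φ d) ↔ F d
  Fv : ∀ d, S'.real d = false → d ≠ a → d ≠ S'.M.α a → (F (S'.M.α d) ↔ F d)
  Fc : ∀ u : D → ℝ, (∀ d, F d → u (S'.M.φ d) = u d) →
    (∀ d, F d → F (S'.M.α d) → S'.real d = false → u (S'.M.α d) = u d) → ∀ d, F d → u d = u a
  Fr : ∀ d, S.real d = true → (F d ↔ ∃ i ≤ n + 1, d = fgw S t i)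
  Fs : ∀ d, F d → S'.M.v d = S.M.v t ∨ ∃ i ≤ n + 1, S'.M.v d = S.M.v (S.M.α (fgw S t i))
  Fsc : ∀ d, F d → S.sc.r t d
  so : ∀ d, (∀ e, Fp S d e → S.real e = true) → S'.M.φ d = S.M.φ d

theorem Fn.facts (hS : IsStar S) (W : Wf Δ S L w) (rt : S.real t = true)
    (rf : S.real (S.M.φ t) = false) (hd : ∀ i ≤ n, S.M.v (S.M.α (fgw S t i)) ≠ S.M.v t)
    (F : Fn S S' t n) : Fnf S S' t (S.M.φ (fgw S t n)) n (FF S t n) := by
  have rα := W.real_α
  have hs := F.sim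
  have hα : ∀ d, S'.M.α d = S.M.α d := hs.hα
  have R := gw_real hS W rt rf
  have al := gw_alive hS W rt rf
  have de := gw_dead hS W rt rf
  have injα : ∀ {i k}, i ≠ k → i ≤ n + 1 → k ≤ n + 1 →
      S.M.α (S.M.φ (fgw S t i)) ≠ S.M.α (S.M.φ (fgw S t k)) :=
    fun h h1 h2 h0 => gw_ne hd h h1 h2 (S.M.φinj (S.M.αinj h0))
  have rvα : ∀ i k, fgw S t i ≠ S.M.α (S.M.φ (fgw S t k)) := fun i k h0 => by
    have h1 := (R i).1
    rw [h0, rα, (R k).2] at h1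
    exact absurd h1 (by decide)
  have ad : ∀ i k, S.M.φ (fgw S t i) ≠ S.M.α (S.M.φ (fgw S t k)) := fun i k h0 => by
    have h1 := al i
    rw [h0] at h1
    exact de k h1
  have fwd : ∀ d, FF S t n d → FF S t n (S'.M.φ d) := by
    rintro d (⟨i, hi, rfl⟩ | ⟨i, hi, rfl⟩ | ⟨i, hi, rfl⟩)
    · rcases i with _ | _ | i
      · rw [F.a0]; exact Or.inl ⟨1, by omega, rfl⟩
      · rw [F.a1]; exact Or.inr (Or.inl ⟨0, by omega, rfl⟩)
      · rw [F.b2 i (by omega)]; exact Or.inr (Or.inl ⟨i + 1, by omega, rfl⟩)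
    · rcases i with _ | i
      · rw [F.a2]; exact Or.inl ⟨0, by omega, rfl⟩
      · rw [F.b0 i (by omega)]; exact Or.inr (Or.inr ⟨i, by omega, rfl⟩)
    · rw [F.b1 i hi]; exact Or.inl ⟨i + 2, by omega, rfl⟩
  have Fv1 : ∀ d, S.real d = false → d ≠ S.M.φ (fgw S t n) → FF S t n d → FF S t n (S.M.α d) := by
    rintro d hr h1 (⟨i, hi, rfl⟩ | ⟨i, hi, rfl⟩ | ⟨i, hi, rfl⟩)
    · rw [(R i).1] at hr; exact absurd hr (by decide)
    · have h2 : i ≠ n := fun h0 => h1 (by rw [h0])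
      exact Or.inr (Or.inr ⟨i, by omega, rfl⟩)
    · rw [S.M.αα]; exact Or.inr (Or.inl ⟨i, by omega, rfl⟩)
  refine
    { va := F.v0 n le_rfl
      vα := by rw [hα]; exact F.v1 n le_rfl
      ra := by rw [hs.hr]; exact (R n).2
      Fa := Or.inr (Or.inl ⟨n, le_rfl, rfl⟩)
      Fα := ?_
      Fφ := fun d => ⟨fun h => ?_, fwd d⟩
      Fv := ?_, Fc := ?_, Fr := ?_, Fs := ?_, Fsc := ?_, so := ?_ }
  · rw [hα]
    rintro (⟨i, hi, h0⟩ | ⟨i, hi, h0⟩ | ⟨i, hi, h0⟩)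
    · exact rvα _ _ h0.symm
    · exact ad _ _ h0.symm
    · exact injα (by omega) (by omega) (by omega) h0
  · have h1 := fwd _ (fwd _ h)
    rwa [S'.M.φ3] at h1
  · intro d hr h1 h2
    rw [hs.hr] at hr
    rw [hα] at h2 ⊢
    refine ⟨fun h3 => ?_, Fv1 d hr h1⟩
    have h4 := Fv1 (S.M.α d) (by rw [rα]; exact hr) (fun h0 => h2 (by rw [← h0, S.M.αα])) h3
    rwa [S.M.αα] at h4
  · intro u h1 h2
    have k0 : ∀ i ≤ n, u (S.M.φ (fgw S t i)) = u (S.M.φ (fgw S t 0)) := by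
      intro i
      induction i with
      | zero => intro _; rfl
      | succ i ih =>
        intro hi
        have e1 := h1 _ (Or.inr (Or.inl ⟨i + 1, hi, rfl⟩))
        rw [F.b0 i (by omega)] at e1
        have e2 := h2 (S.M.φ (fgw S t i)) (Or.inr (Or.inl ⟨i, by omega, rfl⟩)) (by
          rw [hα]; exact Or.inr (Or.inr ⟨i, by omega, rfl⟩)) (by rw [hs.hr]; exact (R i).2)
        rw [hα] at e2
        rw [← e1, e2, ih (by omega)]
    rintro d (⟨i, hi, rfl⟩ | ⟨i, hi, rfl⟩ | ⟨i, hi, rfl⟩)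
    · rw [k0 n le_rfl]
      rcases i with _ | _ | i
      · have e1 := h1 _ (Or.inr (Or.inl ⟨0, by omega, rfl⟩))
        rw [F.a2] at e1
        exact e1
      · have e1 := h1 _ (Or.inl ⟨1, by omega, rfl⟩)
        rw [F.a1] at e1
        exact e1.symm
      · have e1 := h1 _ (Or.inl ⟨i + 2, hi, rfl⟩)
        rw [F.b2 i (by omega)] at e1
        rw [← e1]
        exact k0 _ (by omega)
    · rw [k0 n le_rfl, k0 i hi]
    · have e1 := h1 _ (Or.inr (Or.inl ⟨i + 1, by omega, rfl⟩))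
      rw [F.b0 i hi] at e1
      rw [e1, k0 n le_rfl, k0 _ (by omega)]
  · intro d hr
    refine ⟨?_, fun h => Or.inl h⟩
    rintro (h | ⟨i, hi, rfl⟩ | ⟨i, hi, rfl⟩)
    · exact h
    · rw [(R i).2] at hr; exact absurd hr (by decide)
    · rw [rα, (R i).2] at hr; exact absurd hr (by decide)
  · rintro d (⟨i, hi, rfl⟩ | ⟨i, hi, rfl⟩ | ⟨i, hi, rfl⟩)
    · rw [hs.hv _ (R i).1]
      rcases i with _ | i
      · exact Or.inl rfl
      · exact Or.inr ⟨i, by omega, gw_v i⟩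
    · exact Or.inr ⟨i + 1, by omega, F.v0 i hi⟩
    · exact Or.inl (F.v1 i (by omega))
  · rintro d (⟨i, hi, rfl⟩ | ⟨i, hi, rfl⟩ | ⟨i, hi, rfl⟩)
    · exact gw_sc hS W rt rf i
    · exact (scφ _ _).2 (gw_sc hS W rt rf i)
    · exact (scα (R i).2 _).2 ((scφ _ _).2 (gw_sc hS W rt rf i))
  · intro d hd
    have hr := hd d (Or.inl rfl)
    have hf := hd (S.M.φ d) (Or.inr (Or.inl rfl))
    refine F.off d (fun i _ h0 => ?_) (fun i _ h0 => ?_) (fun i _ h0 => ?_) (fun h0 => ?_)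
    · rw [h0, (R i).2] at hf; exact absurd hf (by decide)
    · rw [h0, (R i).2] at hr; exact absurd hr (by decide)
    · rw [h0, rα, (R i).2] at hr; exact absurd hr (by decide)
    · have h1 := W.real_A _ hr
      rw [h0] at h1
      exact hS.dead t rt rf h1

/-- THE FAN: a virtual dart between the end of `fgw (n + 1)` and the vertex of `t` -/
theorem fan_ex (hS : IsStar S) (W : Wf Δ S L w) (rt : S.real t = true)
    (rf : S.real (S.M.φ t) = false) (n : ℕ)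
    (hd : ∀ i ≤ n, S.M.v (S.M.α (fgw S t i)) ≠ S.M.v t) :
    ∃ S' : St D V, Sim S S' ∧ Fnf S S' t (S.M.φ (fgw S t n)) n (FF S t n) := by
  obtain ⟨S', F⟩ := fn_ex hS W rt rf n hd
  exact ⟨S', F.sim, F.facts hS W rt rf hd⟩

end Pool.FC7
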