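import Pool.Agent.FC7.Q6B

/-! # The ear state of one side of a cut, the new face is any gap

As in `Q6A`, but the face `F` of the virtual dart `a` which is cut off by the ear is the class of `a`,
not only a triangle. -/

open Finset

set_option linter.unusedSectionVars false

namespace Pool.FC7

open Pool.FC6 Pool.FC6.St

variable {D V : Type} [Fintype D] [DecidableEq V] {S : St D V} {L : D → Bool} {w : D → ℕ} {Δ : ℕ}
  {U : D → ℕ}

/-- the units of the ear state -/
noncomputable def erq (S : St D V) (w : D → ℕ) (s : V → Bool) (k : D) (F : D → Prop) (U : D → ℕ)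
    (d : D) : ℕ :=
  open Classical in
  if F d then U d else if (sd S w s true).sc.r k d then 0 else (sd S w s true).u d

/-- the ear state -/
noncomputable def Eq' (S : St D V) (w : D → ℕ) (s : V → Bool) (k a : D) (F : D → Prop)
    (U : D → ℕ) : St D V :=
  wE (sd S w s true) a (erq S w s k F U)

/-- the hypotheses on the ear -/
structure Erq (S : St D V) (w : D → ℕ) (s : V → Bool) (k a dx dy : D) (y : V) (F : D → Prop)
    (U : D → ℕ) : Prop where
  ra : S.real a = false
  Fa : F a
  Fα : ¬ F (S.M.α a)
  Fφ : ∀ d, F (S.M.φ d) ↔ F d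
  Fv : ∀ d, S.real d = false → d ≠ a → d ≠ S.M.α a → (F (S.M.α d) ↔ F d)
  Fc : ∀ t : D → ℝ, (∀ d, F d → t (S.M.φ d) = t d) →
    (∀ d, F d → F (S.M.α d) → S.real d = false → t (S.M.α d) = t d) → ∀ d, F d → t d = t a
  Fs : ∀ d, F d → s (S.M.v d) = true ∧ S.M.v d ∈ S.A
  hT : ConS S.M s true
  hF : ConS S.M s false
  h4 : S.rc s = 4
  K : k ∈ kc S s
  ky : ∀ k' ∈ kc S s, k' = k ∨ S.M.v k' = y
  e : (S.M.v a = S.M.v k ∧ S.M.v (S.M.α a) = y) ∨ (S.M.v a = y ∧ S.M.v (S.M.α a) = S.M.v k)
  nky : S.M.v k ≠ y
  np : ∀ r, S.real r = true → S.M.v r = y → S.M.v (S.M.α r) ≠ S.M.v k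
  hol : (sd S w s true).sc.r k a
  vx : S.M.v dx = S.M.v k
  ux : U dx ≤ S.u dx + S.u k
  vy : S.M.v dy = y
  uy : U dy ≤ 2
  un : ∀ d, F d → d ≠ dx → d ≠ dy → U d ≤ S.u d
  U3 : 3 ≤ ∑ d, (open Classical in if F d then U d else 0)

section

variable {s : V → Bool} {k a dx dy : D} {y : V} {F : D → Prop} (W : Wf Δ S L w)
  (H : Erq S w s k a dx dy y F U)

include W H

theorem Erq.ne : S.M.v a ≠ S.M.v (S.M.α a) := by
  rcases H.e with ⟨h1, h2⟩ | ⟨h1, h2⟩
  · rw [h1, h2]; exact H.nky
  · rw [h1, h2]; exact H.nky.symm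

theorem Erq.fpv {d : D} (hd : F d) : s (S.M.v d) = true ∧ s (S.M.v (S.M.α d)) = true :=
  ⟨(H.Fs d hd).1, by rw [← S.M.vφ]; exact (H.Fs _ ((H.Fφ d).2 hd)).1⟩

theorem Erq.vA : (S.M.v a ∈ S.A ∧ s (S.M.v a) = true) ∧
    S.M.v (S.M.α a) ∈ S.A ∧ s (S.M.v (S.M.α a)) = true := by
  refine ⟨⟨(H.Fs a H.Fa).2, (H.Fs a H.Fa).1⟩, ?_, (H.fpv W H.Fa).2⟩
  rw [← S.M.vφ a]
  exact (H.Fs _ ((H.Fφ a).2 H.Fa)).2

theorem Erq.yA : y ∈ S.A ∧ s y = true := by
  obtain ⟨h1, h2⟩ := H.vA W
  rcases H.e with ⟨q1, q2⟩ | ⟨q1, q2⟩
  · rw [q2] at h2; exact h2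
  · rw [q1] at h1; exact h1

theorem Erq.sra : (sd S w s true).real a = false := by
  by_contra h0
  have := ((sd_real (w := w) W.real_A W.real_α).1 (by simpa using h0)).1
  rw [H.ra] at this
  exact absurd this (by decide)

theorem Erq.rd {d : D} : (Eq' S w s k a F U).real d = true ↔ (S.real d = true ∧
    s (S.M.v d) = true ∧ s (S.M.v (S.M.α d)) = true) ∨ d = a ∨ d = S.M.α a := by
  unfold Eq'
  rw [wE_real, sd_real W.real_A W.real_α]
  exact Iff.rfl

theorem Erq.rα (d : D) : (Eq' S w s k a F U).real (S.M.α d) = (Eq' S w s k a F U).real d := by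
  have hrd := fun d => H.rd W (d := d)
  have : (Eq' S w s k a F U).real (S.M.α d) = true ↔ (Eq' S w s k a F U).real d = true := by
    rw [hrd, hrd, W.real_α, S.M.αα]
    constructor
    · rintro (h1 | h1 | h1)
      · exact Or.inl ⟨h1.1, h1.2.2, h1.2.1⟩
      · exact Or.inr (Or.inr (by rw [← h1, S.M.αα]))
      · exact Or.inr (Or.inl (S.M.αinj h1))
    · rintro (h1 | h1 | h1)
      · exact Or.inl ⟨h1.1, h1.2.2, h1.2.1⟩
      · exact Or.inr (Or.inr (by rw [h1]))
      · exact Or.inr (Or.inl (by rw [h1, S.M.αα]))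
  cases h1 : (Eq' S w s k a F U).real d
  · cases h2 : (Eq' S w s k a F U).real (S.M.α d)
    · rfl
    · rw [this.1 h2] at h1
      exact absurd h1 (by decide)
  · exact this.2 h1

/-- classes of the ear state are contained in classes of the side -/
theorem Erq.cl {t : D → ℝ} (ht : (sd S w s true).Cl t) : (Eq' S w s k a F U).Cl t := by
  refine ⟨ht.1, fun d hd => ht.2 d ?_⟩
  by_contra h0
  have h1 : (sd S w s true).real d = true := by simpa using h0
  have : (Eq' S w s k a F U).real d = true := wE_of h1
  rw [this] at hd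
  exact absurd hd (by decide)

theorem Erq.sc {d e : D} (h : (Eq' S w s k a F U).sc.r d e) : (sd S w s true).sc.r d e := by
  classical
  by_contra h0
  have hcl : (sd S w s true).Cl fun x => if (sd S w s true).sc.r d x then (1 : ℝ) else 0 := by
    refine ⟨fun x => if_congr ?_ rfl rfl, fun x hx => if_congr ?_ rfl rfl⟩
    · exact scφ (S := sd S w s true) _ _
    · exact scα (S := sd S w s true) hx _
  have h1 := Pool.FC6.St.cl_sc (S := Eq' S w s k a F U) (H.cl W hcl) h
  beta_reduce at h1
  rw [if_pos ((sd S w s true).sc.iseqv.refl d), if_neg h0] at h1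
  exact one_ne_zero h1

/-- the class of `a` in the ear state -/
theorem Erq.scF (d : D) : (Eq' S w s k a F U).sc.r a d ↔ F d := by
  classical
  constructor
  · intro h
    by_contra h0
    have hcl : (Eq' S w s k a F U).Cl fun x => if F x then (1 : ℝ) else 0 := by
      refine ⟨fun x => if_congr (H.Fφ x) rfl rfl, fun x hx => if_congr ?_ rfl rfl⟩
      show F (S.M.α x) ↔ F x
      have h1 : ¬ (Eq' S w s k a F U).real x = true := by rw [hx]; decide
      rw [H.rd W] at h1
      push Not at h1
      obtain ⟨h1, h2, h3⟩ := h1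
      by_cases hr : S.real x = true
      · constructor
        · intro h4
          obtain ⟨h5, h6⟩ := H.fpv W h4
          rw [S.M.αα] at h6
          exact absurd h5 (h1 hr h6)
        · intro h4
          obtain ⟨h5, h6⟩ := H.fpv W h4
          exact absurd h6 (h1 hr h5)
      · exact H.Fv x (by simpa using hr) h2 h3
    have h1 := Pool.FC6.St.cl_sc (S := Eq' S w s k a F U) hcl h
    beta_reduce at h1
    rw [if_pos H.Fa, if_neg h0] at h1
    exact one_ne_zero h1
  · intro h
    by_contra h0
    have hcl : (Eq' S w s k a F U).Cl fun x => if (Eq' S w s k a F U).sc.r a x then (1 : ℝ)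
        else 0 := by
      refine ⟨fun x => if_congr ?_ rfl rfl, fun x hx => if_congr ?_ rfl rfl⟩
      · exact scφ (S := Eq' S w s k a F U) _ _
      · exact scα (S := Eq' S w s k a F U) hx _
    have h1 := H.Fc (fun x => if (Eq' S w s k a F U).sc.r a x then (1 : ℝ) else 0)
      (fun d _ => hcl.1 d) (fun d h2 h3 h4 => hcl.2 d (by
        by_contra h5
        rcases (H.rd W).1 (show (Eq' S w s k a F U).real d = true by simpa using h5) with
          h6 | h6 | h6
        · rw [h4] at h6; exact absurd h6.1 (by decide)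
        · rw [h6] at h3; exact H.Fα h3
        · rw [h6] at h2; exact H.Fα h2)) d h
    beta_reduce at h1
    rw [if_neg h0, if_pos ((Eq' S w s k a F U).sc.iseqv.refl a)] at h1
    exact zero_ne_one h1

theorem Erq.hfp {d : D} (hd : F d) : (sd S w s true).sc.r k d :=
  (sd S w s true).sc.iseqv.trans H.hol (H.sc W ((H.scF W d).2 hd))

theorem Erq.hmx {d : D} (hd : s (S.M.v d) ≠ s (S.M.v (S.M.α d))) : (sd S w s true).sc.r k d :=
  sd_hole W H.hT H.hF (mix_kc H.K) hd

theorem Erq.hαa : (sd S w s true).sc.r k (S.M.α a) :=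
  (scα (S := sd S w s true) (H.sra W) _).2 H.hol

theorem Erq.u_in {d : D} (hd : F d) : erq S w s k F U d = U d := if_pos hd

theorem Erq.u_h {d : D} (hd : ¬ F d) (h : (sd S w s true).sc.r k d) :
    erq S w s k F U d = 0 := by
  unfold erq
  rw [if_neg hd, if_pos h]

theorem Erq.u_o {d : D} (h : ¬ (sd S w s true).sc.r k d) :
    erq S w s k F U d = (sd S w s true).u d := by
  unfold erq
  rw [if_neg fun h0 => h (H.hfp W h0), if_neg h]

/-- units off the hole -/
theorem Erq.sdu {d : D} (hd : s (S.M.v d) = true) (h : ¬ (sd S w s true).sc.r k d) :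
    (sd S w s true).u d = S.u d := by
  rw [sd_u W hd, if_neg]
  · rfl
  · rintro ⟨-, h2⟩
    exact h (H.hmx W (by rw [hd]; exact fun h3 => h2 h3.symm))

theorem Erq.u_le {d : D} (hd : s (S.M.v d) = true) (hf : ¬ F d) :
    erq S w s k F U d ≤ S.u d := by
  by_cases h : (sd S w s true).sc.r k d
  · rw [H.u_h W hf h]; exact Nat.zero_le _
  · rw [H.u_o W h, H.sdu W hd h]

open Classical in
/-- at least three cut edges at `y` -/
theorem Erq.k3 : 3 ≤ ∑ d, (if S.M.v d = y ∧ d ∈ kc S s then 1 else 0) := by
  classical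
  have h1 : (kc S s).card = 4 := by rw [kc_card, H.h4]
  have h2 : ((kc S s).erase k).card = 3 := by rw [Finset.card_erase_of_mem H.K, h1]
  have h3 : ∑ d, (if S.M.v d = y ∧ d ∈ kc S s then 1 else 0) =
      (Finset.univ.filter fun d => S.M.v d = y ∧ d ∈ kc S s).card := by
    rw [Finset.card_filter]
  rw [h3, ← h2]
  refine Finset.card_le_card fun d hd => ?_
  obtain ⟨d1, d2⟩ := Finset.mem_erase.1 hd
  exact Finset.mem_filter.2 ⟨Finset.mem_univ _, (H.ky d d2).resolve_left d1, d2⟩

/-- the degrees in the ear state -/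
theorem Erq.deg {x : V} (hx : x ∈ (Eq' S w s k a F U).A) :
    ∑ d, (if S.M.v d = x then (if (Eq' S w s k a F U).real d = true then 1 else 0) +
      erq S w s k F U d + dw S w (S.A.filter fun y => s y ≠ true) d else 0) ≤ Δ := by
  classical
  have hx' : x ∈ S.A ∧ s x = true := (sd_A (w := w)).1 hx
  have rA := W.real_A
  have rα := W.real_α
  obtain ⟨w', hw'⟩ : ∃ w', w' = dw S w (S.A.filter fun y => s y ≠ true) := ⟨_, rfl⟩
  rw [← hw']
  have dr : ∀ d, (S.del (S.A.filter fun y => s y ≠ true)).real d = true ↔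
      S.real d = true ∧ s (S.M.v d) = true ∧ s (S.M.v (S.M.α d)) = true := fun d =>
    sd_real (w := w) rA rα
  have w0 : ∀ d, w' d ≤ (if S.real d = true ∧ s (S.M.v d) = true ∧ s (S.M.v (S.M.α d)) = true
      then w d else 0) := fun d => by
    rw [hw']
    unfold dw
    by_cases h0 : (S.del (S.A.filter fun y => s y ≠ true)).real d = true
    · rw [if_pos h0, if_pos ((dr d).1 h0)]
    · rw [if_neg h0]; exact Nat.zero_le _
  -- gains and losses
  let G : D → ℕ := fun d => if S.M.v d = x then (if d = a ∨ d = S.M.α a then 1 else 0) +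
    (if F d then U d - S.u d else 0) else 0
  let Ls : D → ℕ := fun d => if S.M.v d = x ∧ d ∈ kc S s then 1 + S.u d else 0
  have pt : ∀ d, (if S.M.v d = x then (if (Eq' S w s k a F U).real d = true then 1 else 0) +
      erq S w s k F U d + w' d else 0) + Ls d ≤
      (if S.M.v d = x then (if S.real d = true then 1 else 0) + S.u d + w d else 0) + G d := by
    intro d
    show _ + (if S.M.v d = x ∧ d ∈ kc S s then 1 + S.u d else 0) ≤ _ +
      (if S.M.v d = x then (if d = a ∨ d = S.M.α a then 1 else 0) +
        (if F d then U d - S.u d else 0) else 0)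
    by_cases hv : S.M.v d = x
    · rw [if_pos hv, if_pos hv, if_pos hv]
      have hs : s (S.M.v d) = true := by rw [hv]; exact hx'.2
      by_cases hk : d ∈ kc S s
      · obtain ⟨q1, q2, q3⟩ := mem_kc.1 hk
        have hnf : ¬ F d := fun h0 => by
          rw [(H.fpv W h0).2] at q3
          exact absurd q3 (by decide)
        have e1 : ¬ (Eq' S w s k a F U).real d = true := by
          rw [H.rd W]
          rintro (h0 | h0 | h0)
          · rw [q3] at h0; exact absurd h0.2.2 (by decide)
          · rw [h0, H.ra] at q1; exact absurd q1 (by decide)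
          · rw [h0, rα, H.ra] at q1; exact absurd q1 (by decide)
        have e2 := w0 d
        rw [if_neg (c := S.real d = true ∧ s (S.M.v d) = true ∧ s (S.M.v (S.M.α d)) = true)
          (fun h0 => by rw [q3] at h0; exact absurd h0.2.2 (by decide))] at e2
        rw [if_pos (c := S.M.v d = x ∧ d ∈ kc S s) ⟨hv, hk⟩,
          if_neg (c := (Eq' S w s k a F U).real d = true) e1,
          H.u_h W hnf (H.hmx W (by rw [q2, q3]; decide)), if_pos (c := S.real d = true) q1]
        omega
      · rw [if_neg (c := S.M.v d = x ∧ d ∈ kc S s) fun h0 => hk h0.2]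
        have e2 : w' d ≤ w d := by
          refine (w0 d).trans ?_
          split_ifs
          · exact le_rfl
          · exact Nat.zero_le _
        have e1 : (if (Eq' S w s k a F U).real d = true then 1 else 0) ≤
            (if S.real d = true then 1 else 0) + (if d = a ∨ d = S.M.α a then 1 else 0) := by
          by_cases h0 : (Eq' S w s k a F U).real d = true
          · rw [if_pos h0]
            rcases (H.rd W).1 h0 with h5 | h5
            · rw [if_pos h5.1]; omega
            · rw [if_pos h5]; omega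
          · rw [if_neg h0]; exact Nat.zero_le _
        by_cases hf : F d
        · rw [H.u_in W hf, if_pos hf]
          omega
        · rw [if_neg hf]
          have := H.u_le W hs hf
          omega
    · rw [if_neg hv, if_neg hv, if_neg hv, if_neg fun h0 => hv h0.1]
  have hsum := Finset.sum_le_sum fun d (_ : d ∈ (Finset.univ : Finset D)) => pt d
  rw [Finset.sum_add_distrib, Finset.sum_add_distrib] at hsum
  have hdeg := W.deg x hx'.1
  -- the gain is concentrated on four darts
  have hG : ∑ d, G d ≤ ((if S.M.v a = x then 1 else 0) + (if S.M.v (S.M.α a) = x then 1 else 0)) +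
      ((if S.M.v dx = x then U dx - S.u dx else 0) +
        (if S.M.v dy = x then U dy - S.u dy else 0)) := by
    have pt : ∀ d, G d ≤ ((if d = a then (if S.M.v a = x then 1 else 0) else 0) +
        (if d = S.M.α a then (if S.M.v (S.M.α a) = x then 1 else 0) else 0)) +
        ((if d = dx then (if S.M.v dx = x then U dx - S.u dx else 0) else 0) +
          (if d = dy then (if S.M.v dy = x then U dy - S.u dy else 0) else 0)) := by
      intro d
      show (if S.M.v d = x then (if d = a ∨ d = S.M.α a then 1 else 0) +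
        (if F d then U d - S.u d else 0) else 0) ≤ _
      by_cases hv : S.M.v d = x
      · rw [if_pos hv]
        have h1 : (if d = a ∨ d = S.M.α a then 1 else 0) ≤
            (if d = a then (if S.M.v a = x then 1 else 0) else 0) +
            (if d = S.M.α a then (if S.M.v (S.M.α a) = x then 1 else 0) else 0) := by
          by_cases c1 : d = a
          · rw [if_pos (Or.inl c1), if_pos c1, if_pos (c1 ▸ hv)]; omega
          · by_cases c2 : d = S.M.α a
            · rw [if_pos (Or.inr c2), if_neg c1, if_pos c2, if_pos (c2 ▸ hv)]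
            · rw [if_neg (by tauto)]; exact Nat.zero_le _
        have h2 : (if F d then U d - S.u d else 0) ≤
            (if d = dx then (if S.M.v dx = x then U dx - S.u dx else 0) else 0) +
            (if d = dy then (if S.M.v dy = x then U dy - S.u dy else 0) else 0) := by
          by_cases hf : F d
          · rw [if_pos hf]
            by_cases c1 : d = dx
            · rw [if_pos c1, if_pos (c1 ▸ hv), c1]; omega
            · by_cases c2 : d = dy
              · rw [if_neg c1, if_pos c2, if_pos (c2 ▸ hv), c2]; omega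
              · have := H.un d hf c1 c2
                omega
          · rw [if_neg hf]; exact Nat.zero_le _
        omega
      · rw [if_neg hv]; exact Nat.zero_le _
    have h3 := Finset.sum_le_sum fun d (_ : d ∈ (Finset.univ : Finset D)) => pt d
    rw [Finset.sum_add_distrib, Finset.sum_add_distrib, Finset.sum_add_distrib] at h3
    simp only [Finset.sum_ite_eq', Finset.mem_univ, if_true] at h3
    exact h3
  have lk : ∀ d, d ∈ kc S s → S.M.v d = x → 1 + S.u d ≤ ∑ d, Ls d := by
    intro d hd hv
    refine le_trans (le_of_eq ?_) (Finset.single_le_sum (f := Ls) (fun _ _ => Nat.zero_le _)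
      (Finset.mem_univ d))
    show _ = (if S.M.v d = x ∧ d ∈ kc S s then 1 + S.u d else 0)
    rw [if_pos ⟨hv, hd⟩]
  have vx := H.vx
  have vy := H.vy
  have ux := H.ux
  have uy := H.uy
  have nky := H.nky
  have gl : ∑ d, G d ≤ ∑ d, Ls d := by
    by_cases hy : x = y
    · have h3 : 3 ≤ ∑ d, Ls d := by
        refine le_trans (H.k3 W) (Finset.sum_le_sum fun d _ => ?_)
        show _ ≤ (if S.M.v d = x ∧ d ∈ kc S s then 1 + S.u d else 0)
        rw [hy]
        split_ifs <;> omega
      rw [if_neg (c := S.M.v dx = x) (by rw [vx, hy]; exact nky)] at hG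
      rcases H.e with ⟨q1, q2⟩ | ⟨q1, q2⟩
      · rw [if_neg (c := S.M.v a = x) (by rw [q1, hy]; exact nky)] at hG
        split_ifs at hG <;> omega
      · rw [if_neg (c := S.M.v (S.M.α a) = x) (by rw [q2, hy]; exact nky)] at hG
        split_ifs at hG <;> omega
    · rw [if_neg (c := S.M.v dy = x) (by rw [vy]; exact fun h0 => hy h0.symm)] at hG
      by_cases hk : x = S.M.v k
      · have h3 := lk k H.K hk.symm
        rcases H.e with ⟨q1, q2⟩ | ⟨q1, q2⟩
        · rw [if_neg (c := S.M.v (S.M.α a) = x) (by rw [q2]; exact fun h0 => hy h0.symm)] at hG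
          split_ifs at hG <;> omega
        · rw [if_neg (c := S.M.v a = x) (by rw [q1]; exact fun h0 => hy h0.symm)] at hG
          split_ifs at hG <;> omega
      · rw [if_neg (c := S.M.v dx = x) (by rw [vx]; exact fun h0 => hk h0.symm)] at hG
        rcases H.e with ⟨q1, q2⟩ | ⟨q1, q2⟩
        · rw [if_neg (c := S.M.v a = x) (by rw [q1]; exact fun h0 => hk h0.symm),
            if_neg (c := S.M.v (S.M.α a) = x) (by rw [q2]; exact fun h0 => hy h0.symm)] at hG
          omega
        · rw [if_neg (c := S.M.v a = x) (by rw [q1]; exact fun h0 => hy h0.symm),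
            if_neg (c := S.M.v (S.M.α a) = x) (by rw [q2]; exact fun h0 => hk h0.symm)] at hG
          omega
  omega

end

end Pool.FC7
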