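import Pool.Agent.FC7.Q6Q
import Pool.Agent.FC7.Q6C

/-! # A solution of the ear state and a solution of the other side are glued -/

open Finset

set_option linter.unusedSectionVars false

namespace Pool.FC7

open Pool.FC6 Pool.FC6.St

variable {D V : Type} [Fintype D] [DecidableEq V] {S : St D V} {L : D → Bool} {w : D → ℕ} {Δ : ℕ}
  {U : D → ℕ}

/-- the ear state does not have a solution which connects the ear with the third face -/
theorem MC.glueE (h : MC Δ S L w) {s : V → Bool} {k a dx dy : D} {y : V} {F : D → Prop}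
    (H : Erq S w s k a dx dy y F U) {k1 k2 k3 : D} (R : Rk S s k1 k2 k3 k)
    (nobr : ∀ e, S.real e = true → ¬ S.sc.r e (S.M.α e))
    (Fk : ∀ e, F e → S.sc.r k e)
    (FR : ∀ e, S.real e = true → s (S.M.v e) = true → s (S.M.v (S.M.α e)) = true →
      S.sc.r k e → F e) {c b : V → Bool}
    (hcE : Sol (Eq' S w s k a F U) (sdL S L s true) c)
    (hc : Sol (sd S w s true) (sdL S L s true) c) (hv : Vi (Eq' S w s k a F U) c a)
    (ce : c (S.M.v a) = c (S.M.v (S.M.α a)))
    (hb : Sol (sd S w s false) (sdL S L s false) b)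
    (b1 : c (S.M.v k1) ≠ b (S.M.v (S.M.α k1))) (b2 : c (S.M.v k2) ≠ b (S.M.v (S.M.α k2)))
    {t : D} (rt : S.real t = true) (st : s (S.M.v t) = true)
    (st' : s (S.M.v (S.M.α t)) = true) (bt : c (S.M.v t) ≠ c (S.M.v (S.M.α t)))
    (tk : S.sc.r t (S.M.α k)) : False := by
  classical
  have W := h.ok.toWf
  have rA := W.real_A
  have rα := W.real_α
  have K1 := mem_kc.1 R.K1
  have K2 := mem_kc.1 R.K2
  have K4 := mem_kc.1 R.K4
  have hx : ∃ x ∈ S.A, s x = true := ⟨_, rA _ K4.1, K4.2.1⟩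
  have hy : ∃ x ∈ S.A, s x = false := ⟨_, rA _ (by rw [rα]; exact K4.1), K4.2.2⟩
  obtain ⟨g, hg⟩ : ∃ g : V → Bool, g = fun x => if s x = true then c x else b x := ⟨_, rfl⟩
  have gA : ∀ {x}, s x = true → g x = c x := fun hx => by rw [hg]; exact if_pos hx
  have gB : ∀ {x}, s x = false → g x = b x := fun hx => by
    rw [hg]; exact if_neg (by rw [hx]; decide)
  have hS : Sides S L w s g := by
    rw [hg]
    exact h.prS H.hT H.hF hx hy hc hb
  have br1 : g (S.M.v k1) ≠ g (S.M.v (S.M.α k1)) := by rw [gA K1.2.1, gB K1.2.2]; exact b1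
  have br2 : g (S.M.v k2) ≠ g (S.M.v (S.M.α k2)) := by rw [gA K2.2.1, gB K2.2.2]; exact b2
  refine h.no ⟨g, sol_of_inv W H.hT H.hF hS R.K4 fun f ht => ?_⟩
  have hcl : S.Cl f := ⟨ht.1, fun e he => ht.2 e (Or.inl he)⟩
  -- the values on the faces at the cut
  have q1 : f (S.M.α k) = f k1 := S.cl_sc hcl R.f4
  have q2 : f (S.M.α k1) = f k2 := S.cl_sc hcl R.f1
  have q3 : f (S.M.α k2) = f k3 := S.cl_sc hcl R.f2
  have q4 : f (S.M.α k3) = f k := S.cl_sc hcl R.f3
  have p1 : f (S.M.α k1) = f k1 := ht.2 k1 (Or.inr br1)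
  have p2 : f (S.M.α k2) = f k2 := ht.2 k2 (Or.inr br2)
  obtain ⟨X, hX⟩ : ∃ X, X = f (S.M.α k) := ⟨_, rfl⟩
  have e1 : f k1 = X := by rw [hX, q1]
  have e2 : f k2 = X := by rw [← q2, p1, e1]
  have e3 : f k3 = X := by rw [← q3, p2, e2]
  -- the modified function
  obtain ⟨f2, hf2⟩ : ∃ f2 : D → ℝ, ∀ d, f2 d = if S.sc.r k d then X else f d := ⟨_, fun _ => rfl⟩
  have f2k : ∀ {d}, S.sc.r k d → f2 d = X := fun hd => by rw [hf2, if_pos hd]
  have f2n : ∀ {d}, ¬ S.sc.r k d → f2 d = f d := fun hd => by rw [hf2, if_neg hd]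
  have f2X : ∀ {d}, f d = X → f2 d = X := fun hd => by
    rw [hf2]
    split_ifs
    · rfl
    · exact hd
  have f2φ : ∀ d, f2 (S.M.φ d) = f2 d := fun d => by
    by_cases h1 : S.sc.r k d
    · rw [f2k h1, f2k ((scφ _ _).2 h1)]
    · rw [f2n h1, f2n fun h2 => h1 ((scφ _ _).1 h2)]
      exact ht.1 d
  have f2α : ∀ d, S.real d = false → f2 (S.M.α d) = f2 d := fun d hd => by
    by_cases h1 : S.sc.r k d
    · rw [f2k h1, f2k ((scα hd _).2 h1)]
    · rw [f2n h1, f2n fun h2 => h1 ((scα hd _).1 h2)]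
      exact hcl.2 d hd
  have f2K : ∀ d, d ∈ kc S s → f2 d = X ∧ f2 (S.M.α d) = X := by
    intro d hd
    rcases (R.mem d).1 hd with h0 | h0 | h0 | h0 <;> rw [h0]
    · exact ⟨f2X e1, f2X (by rw [p1, e1])⟩
    · exact ⟨f2X e2, f2X (by rw [p2, e2])⟩
    · exact ⟨f2X e3, f2k (S.sc.iseqv.symm R.f3)⟩
    · exact ⟨f2k (S.sc.iseqv.refl _), f2X hX.symm⟩
  have mix : ∀ d, s (S.M.v d) ≠ s (S.M.v (S.M.α d)) → f2 d = X := by
    intro d hd
    rw [← (f2K k R.K4).1]
    refine cut_const S.M H.hT H.hF f2φ (fun e he => ?_) hd (mix_kc R.K4)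
    cases hr : S.real e
    · exact f2α e hr
    · cases h1 : s (S.M.v e)
      · have h2 : s (S.M.v (S.M.α e)) = true := by
          cases h3 : s (S.M.v (S.M.α e))
          · exact absurd (h1.trans h3.symm) he
          · rfl
        have := f2K (S.M.α e) (mem_kc.2 ⟨by rw [rα]; exact hr, h2, by rw [S.M.αα]; exact h1⟩)
        rw [S.M.αα] at this
        rw [this.1, this.2]
      · have h2 : s (S.M.v (S.M.α e)) = false := by
          cases h3 : s (S.M.v (S.M.α e))
          · rfl
          · exact absurd (h1.trans h3.symm) he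
        have := f2K e (mem_kc.2 ⟨hr, h1, h2⟩)
        rw [this.1, this.2]
  -- triangles which meet the other side
  have nf : ∀ d, s (S.M.v d) = true → s (S.M.v (S.M.α d)) = true → NF S.M s true d →
      f2 d = X := by
    intro d h1 h2 hd
    rw [← S.M.vφ] at h2
    have h3 : s (S.M.v (S.M.φ (S.M.φ d))) ≠ true := by
      rcases hd with h0 | h0 | h0
      · exact absurd h1 h0
      · exact absurd h2 h0
      · exact h0
    rw [← f2φ d]
    refine mix _ ?_
    rw [h2, ← S.M.vφ]
    exact fun h4 => h3 h4.symm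
  -- the test function of the ear state
  obtain ⟨Y, hY⟩ : ∃ Y, Y = f k := ⟨_, rfl⟩
  have fF : ∀ {d}, F d → f d = Y := fun hd => by rw [hY]; exact (S.cl_sc hcl (Fk _ hd)).symm
  by_cases hXY : Y = X
  · -- all differences vanish
    intro k' hk'
    rcases (R.mem k').1 hk' with h0 | h0 | h0 | h0 <;> rw [h0]
    · exact p1
    · exact p2
    · rw [q4, ← hY, hXY, e3]
    · rw [← hX, ← hY, hXY]
  exfalso
  apply hXY
  obtain ⟨f3, hf3⟩ : ∃ f3 : D → ℝ, ∀ d, f3 d = if F d then Y else if NF S.M s true d then X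
      else f2 d := ⟨_, fun _ => rfl⟩
  have f3F : ∀ {d}, F d → f3 d = Y := fun hd => by rw [hf3, if_pos hd]
  have f3N : ∀ {d}, ¬ F d → NF S.M s true d → f3 d = X := fun h1 h2 => by
    rw [hf3, if_neg h1, if_pos h2]
  have f3O : ∀ {d}, ¬ F d → ¬ NF S.M s true d → f3 d = f2 d := fun h1 h2 => by
    rw [hf3, if_neg h1, if_neg h2]
  -- off the new face, for darts on the side
  have f32 : ∀ {d}, ¬ F d → s (S.M.v d) = true → s (S.M.v (S.M.α d)) = true → f3 d = f2 d := by
    intro d h1 h2 h3
    by_cases h4 : NF S.M s true d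
    · rw [f3N h1 h4, nf d h2 h3 h4]
    · exact f3O h1 h4
  have key : ∀ {d}, S.real d = true → s (S.M.v d) = true → s (S.M.v (S.M.α d)) = true →
      f (S.M.α d) = f d → F d → ¬ F (S.M.α d) → f3 (S.M.α d) = f3 d := by
    intro d hr h1 h2 h3 h4 h5
    rw [f3F h4, f32 h5 h2 (by rw [S.M.αα]; exact h1), f2n, h3, fF h4]
    intro h6
    exact nobr d hr (S.sc.iseqv.trans (S.sc.iseqv.symm (Fk d h4)) h6)
  have ht3 : (Eq' S w s k a F U).Test c f3 := by
    refine ⟨fun d => ?_, fun d hd => ?_⟩
    · show f3 (S.M.φ d) = f3 d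
      by_cases h1 : F d
      · rw [f3F h1, f3F ((H.Fφ d).2 h1)]
      · have h2 : ¬ F (S.M.φ d) := fun h2 => h1 ((H.Fφ d).1 h2)
        by_cases h3 : NF S.M s true d
        · rw [f3N h1 h3, f3N h2 ((NF_φ _ _ _ _).2 h3)]
        · rw [f3O h1 h3, f3O h2 (fun h4 => h3 ((NF_φ _ _ _ _).1 h4))]
          exact f2φ d
    · show f3 (S.M.α d) = f3 d
      have hd : (Eq' S w s k a F U).real d = false ∨ c (S.M.v d) ≠ c (S.M.v (S.M.α d)) := hd
      by_cases hP : s (S.M.v d) = true ∧ s (S.M.v (S.M.α d)) = true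
      swap
      · -- an end on the other side
        have n1 : NF S.M s true d := by
          by_contra h0
          apply hP
          unfold NF at h0
          push Not at h0
          exact ⟨h0.1, by rw [← S.M.vφ]; exact h0.2.1⟩
        have n2 : NF S.M s true (S.M.α d) := by
          by_contra h0
          apply hP
          unfold NF at h0
          push Not at h0
          refine ⟨?_, h0.1⟩
          have := h0.2.1
          rwa [S.M.vφ, S.M.αα] at this
        have m1 : ¬ F d := fun h0 => hP (H.fpv W h0)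
        have m2 : ¬ F (S.M.α d) := fun h0 => by
          have := H.fpv W h0
          rw [S.M.αα] at this
          exact hP ⟨this.2, this.1⟩
        rw [f3N m1 n1, f3N m2 n2]
      obtain ⟨P1, P2⟩ := hP
      have P1' : s (S.M.v (S.M.α (S.M.α d))) = true := by rw [S.M.αα]; exact P1
      cases hr : S.real d
      · -- virtual
        have na : d ≠ a ∧ d ≠ S.M.α a := by
          have hE : ∀ e, (e = a ∨ e = S.M.α a) → ¬ ((Eq' S w s k a F U).real e = false ∨
              c (S.M.v e) ≠ c (S.M.v (S.M.α e))) := by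
            rintro e he (h0 | h0)
            · have := (H.rd W (d := e)).2 (Or.inr he)
              rw [h0] at this
              exact absurd this (by decide)
            · rcases he with he | he
              · rw [he] at h0; exact h0 ce
              · rw [he, S.M.αα] at h0; exact h0 ce.symm
          exact ⟨fun h0 => hE d (Or.inl h0) hd, fun h0 => hE d (Or.inr h0) hd⟩
        have hF := H.Fv d hr na.1 na.2
        by_cases h1 : F d
        · rw [f3F h1, f3F (hF.2 h1)]
        · have h2 : ¬ F (S.M.α d) := fun h2 => h1 (hF.1 h2)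
          rw [f32 h1 P1 P2, f32 h2 P2 P1']
          exact f2α d hr
      · -- real: bichromatic
        have hbc : c (S.M.v d) ≠ c (S.M.v (S.M.α d)) := by
          rcases hd with h0 | h0
          · have := (H.rd W (d := d)).2 (Or.inl ⟨hr, P1, P2⟩)
            rw [h0] at this
            exact absurd this (by decide)
          · exact h0
        have hfa : f (S.M.α d) = f d := ht.2 d (Or.inr (by rw [gA P1, gA P2]; exact hbc))
        by_cases h1 : F d
        · by_cases h2 : F (S.M.α d)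
          · rw [f3F h1, f3F h2]
          · exact key hr P1 P2 hfa h1 h2
        · by_cases h2 : F (S.M.α d)
          · have := key (d := S.M.α d) (by rw [rα]; exact hr) P2 P1' (by
              rw [S.M.αα]; exact hfa.symm) h2 (by rw [S.M.αα]; exact h1)
            rw [S.M.αα] at this
            exact this.symm
          · have n1 : ¬ S.sc.r k d := fun h0 => h1 (FR d hr P1 P2 h0)
            have n2 : ¬ S.sc.r k (S.M.α d) := fun h0 =>
              h2 (FR _ (by rw [rα]; exact hr) P2 P1' h0)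
            rw [f32 h1 P1 P2, f32 h2 P2 P1', f2n n1, f2n n2]
            exact hfa
  -- the ear is connected with the third face
  obtain ⟨e, he, hve⟩ := hv
  have hbt : Br (Eq' S w s k a F U) c t := ⟨(H.rd W).2 (Or.inl ⟨rt, st, st'⟩), bt⟩
  have h1 := hcE.con f3 ht3 e t he hbt
  have h2 := hve f3 ht3
  rw [f3F H.Fa] at h2
  have nt : ¬ S.sc.r k t := fun h0 => nobr k K4.1 (S.sc.iseqv.trans h0 tk)
  have nFt : ¬ F t := fun h0 => nt (Fk t h0)
  rw [f32 nFt st st', f2n nt, S.cl_sc hcl tk, ← hX] at h1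
  exact h2.symm.trans h1

end Pool.FC7
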