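import Pool.Agent.FC7.Q6R

/-! # The rule R1 with a gap: the contradiction

`s` is a cut with four edges, three of which start at `y`; `s2` is the cut with `y` on the other side,
also with four edges; `a` is a virtual dart between `y` and the end `x` of the fourth edge `k`, it
cuts a part `F` off the face of `k`. -/

open Finset

set_option linter.unusedSectionVars false

namespace Pool.FC7

open Pool.FC6 Pool.FC6.St

variable {D V : Type} [Fintype D] [DecidableEq V] {S : St D V} {L : D → Bool} {w : D → ℕ} {Δ : ℕ}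
  {U : D → ℕ}

/-- the configuration of the rule R1 with a gap does not exist -/
theorem MC.r1g (hΔ : Δ ≤ 6) (h : MC Δ S L w) {s s2 : V → Bool} {y : V} {k a dx dy : D}
    {F : D → Prop}
    (H : (∀ r, S.real r = true → S.M.v r = y → S.M.v (S.M.α r) ≠ S.M.v k) →
      Erq S w s k a dx dy y F U)
    (nobr : ∀ e, S.real e = true → ¬ S.sc.r e (S.M.α e))
    (Fk : ∀ e, F e → S.sc.r k e)
    (FR : ∀ e, S.real e = true → s (S.M.v e) = true → s (S.M.v (S.M.α e)) = true →
      S.sc.r k e → F e)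
    (yk : S.M.v k ≠ y)
    (hT : ConS S.M s true) (hF : ConS S.M s false) (h4 : S.rc s = 4) (h2 : S.Two s true)
    (hs2 : ∀ z ∈ S.A, s2 z = if z = y then false else s z) (hT2 : ConS S.M s2 true)
    (hF2 : ConS S.M s2 false) (h42 : S.rc s2 = 4)
    (i2 : ∃ d, S.real d = true ∧ s (S.M.v d) = false ∧ s (S.M.v (S.M.α d)) = false)
    {k1 k2 k3 : D} (R : Rk S s k1 k2 k3 k) (v1 : S.M.v k1 = y) (v2 : S.M.v k2 = y)
    (v3 : S.M.v k3 = y) {j1 j2 j3 : D} (R2 : Rk S s2 j1 j2 j3 k)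
    (w1 : S.M.v (S.M.α j1) = y) (w2 : S.M.v (S.M.α j2) = y) (w3 : S.M.v (S.M.α j3) = y)
    (P1 : Pt S L s (S.M.α j2)) (G : Fp S (S.M.α j2) j3) (o3 : S.M.v j3 ≠ S.M.v j2)
    (o4 : S.M.v j3 ≠ S.M.v k) (P5 : Pt S L s k3) : False := by
  classical
  have W := h.ok.toWf
  have rA := W.real_A
  have rα := W.real_α
  have mk := mem_kc.1 R.K4
  have m1 := mem_kc.1 R.K1
  have sy : s y = true := by rw [← v1]; exact m1.2.1
  have Ay : y ∈ S.A := by rw [← v1]; exact rA _ m1.1
  have s2y : s2 y = false := by rw [hs2 _ Ay, if_pos rfl]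
  have q1 := mem_kc.1 R2.K1
  have q2 := mem_kc.1 R2.K2
  have q3 := mem_kc.1 R2.K3
  have qk := mem_kc.1 R2.K4
  -- an alive vertex of the smaller side is on the larger side
  have hle : ∀ z ∈ S.A, s2 z = true → s z = true ∧ z ≠ y := fun z hA hz => by
    have h0 : z ≠ y := fun h0 => by
      rw [h0, s2y] at hz
      exact absurd hz (by decide)
    refine ⟨?_, h0⟩
    have := hs2 _ hA
    rw [if_neg h0] at this
    rw [← this, hz]
  have i1 := h.inner hΔ (s := s) (by rw [h4]; omega) h2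
  -- the type of the cut
  have Y : Tp S L w s false k1 k2 k3 k := by
    obtain ⟨b, hb⟩ := h.tp R hΔ hT hF i1 i2
    cases b
    · exact hb
    · exfalso
      obtain ⟨d, d1, d2, d3⟩ := i2
      obtain ⟨c, hc⟩ := h.sds hΔ (s := s) (b := true) ⟨_, rA _ d1, by rw [d2]; decide⟩ i1
      rcases hb.sp c hc with h5 | h5
      · obtain ⟨a1, a2, a3⟩ := h5
        unfold kEnd at a1 a2 a3
        simp only [cond_true] at a1 a2 a3
        rw [v1, v3] at a3
        exact a3 rfl
      · obtain ⟨a1, a2, a3⟩ := h5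
        unfold kEnd at a1 a2 a3
        simp only [cond_true] at a1 a2 a3
        rw [v1, ← v2] at a2
        exact a3 a2.symm
  -- the constant type: all solutions of the larger side give `y` and `x` one colour
  have C : ∀ c, Sol (sd S w s true) (sdL S L s true) c → c y = c (S.M.v k) := by
    intro c hc
    have := Y.cs c hc
    have h5 := this.2.2
    unfold kEnd at h5
    simp only [Bool.not_false, cond_true] at h5
    rw [← v3]; exact h5
  -- the split type of the smaller side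
  have B1 : S.M.v j1 ∈ S.A := rA _ q1.1
  have B2 : S.M.v j2 ∈ S.A := rA _ q2.1
  have B3 : S.M.v j3 ∈ S.A := rA _ q3.1
  have i3 : ∃ d, S.real d = true ∧ s2 (S.M.v d) = true ∧ s2 (S.M.v (S.M.α d)) = true :=
    h.inner hΔ (by rw [h42]; omega) ⟨_, B3, _, B2, o3, q3.2.1, q2.2.1⟩
  have i4 : ∃ d, S.real d = true ∧ s2 (S.M.v d) = false ∧ s2 (S.M.v (S.M.α d)) = false := by
    obtain ⟨d, d1, d2, d3⟩ := i2
    have hd : ∀ z ∈ S.A, s z = false → s2 z = false := fun z hA hz => by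
      rw [hs2 _ hA]
      split_ifs
      · rfl
      · exact hz
    exact ⟨d, d1, hd _ (rA _ d1) d2, hd _ (rA _ (by rw [rα]; exact d1)) d3⟩
  have Sp : ∀ c, Sol (sd S w s2 true) (sdL S L s2 true) c →
      Spl S true c j1 j2 j3 k ∨ Spl S true c j2 j3 k j1 := by
    obtain ⟨b, hb⟩ := h.tp R2 hΔ hT2 hF2 i3 i4
    cases b
    · exfalso
      obtain ⟨c, hc⟩ := h.sds hΔ (s := s2) (b := false) ⟨_, B1, by rw [q1.2.1]; decide⟩ i4
      rcases hb.sp c hc with h5 | h5
      · obtain ⟨a1, a2, a3⟩ := h5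
        unfold kEnd at a1 a2 a3
        simp only [cond_false] at a1 a2 a3
        rw [w1, w3] at a3
        exact a3 rfl
      · obtain ⟨a1, a2, a3⟩ := h5
        unfold kEnd at a1 a2 a3
        simp only [cond_false] at a1 a2 a3
        rw [w1, ← w2] at a2
        exact a3 a2.symm
    · exact hb.sp
  have Sp' : ∀ c, Sol (sd S w s2 true) (sdL S L s2 true) c →
      (c (S.M.v j1) = c (S.M.v j2) ∧ c (S.M.v j3) = c (S.M.v k) ∧
        c (S.M.v j1) ≠ c (S.M.v j3)) ∨
      (c (S.M.v j2) = c (S.M.v j3) ∧ c (S.M.v k) = c (S.M.v j1) ∧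
        c (S.M.v j2) ≠ c (S.M.v k)) := fun c hc => by
    have := Sp c hc
    unfold Spl kEnd at this
    simpa only [cond_true] using this
  -- the real darts at `y` on the larger side
  have on : ∀ d, S.real d = true → S.M.v d = y → s (S.M.v (S.M.α d)) = true →
      d = S.M.α j1 ∨ d = S.M.α j2 ∨ d = S.M.α j3 := by
    intro d hd hy hs
    have ne : S.M.v (S.M.α d) ≠ y := fun h0 => W.real_ne _ hd (by rw [hy, h0])
    have hk : S.M.α d ∈ kc S s2 := mem_kc.2 ⟨by rw [rα]; exact hd, by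
      rw [hs2 _ (rA _ (by rw [rα]; exact hd)), if_neg ne]; exact hs, by
      rw [S.M.αα, hy]; exact s2y⟩
    rcases (R2.mem _).1 hk with e | e | e | e
    · exact Or.inl (by rw [← e, S.M.αα])
    · exact Or.inr (Or.inl (by rw [← e, S.M.αα]))
    · exact Or.inr (Or.inr (by rw [← e, S.M.αα]))
    · exfalso
      have h5 := mk.2.2
      rw [← e, S.M.αα, hy, sy] at h5
      exact absurd h5 (by decide)
  have S1 := (hle _ B1 q1.2.1).1
  have S2 := (hle _ B2 q2.2.1).1
  have S3 := (hle _ B3 q3.2.1).1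
  have mx : s (S.M.v k) ≠ s (S.M.v (S.M.α k)) := by rw [mk.2.1, mk.2.2]; decide
  have mx' : s (S.M.v (S.M.α k)) ≠ s (S.M.v (S.M.α (S.M.α k))) := by
    rw [S.M.αα]; exact mx.symm
  have r1 := q1.1
  have r2 := q2.1
  have r3 := q3.1
  have r1' : S.real (S.M.α j1) = true := by rw [rα]; exact r1
  have r2' : S.real (S.M.α j2) = true := by rw [rα]; exact r2
  have r3' : S.real (S.M.α j3) = true := by rw [rα]; exact r3
  -- one colour at `y`, `x` and the first neighbour
  have fin : ∀ c, Sol (sd S w s true) (sdL S L s true) c →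
      c (S.M.v j3) = c y ∧ c (S.M.v k) = c y ∧ c (S.M.v j2) = c (S.M.v j1) ∧
      c (S.M.v j3) ≠ c (S.M.v j2) := by
    refine h.nest5 (d1 := S.M.α j3) (d2 := S.M.α j2) (d3 := S.M.α j1) (n2 := S.M.v j2)
        (n3 := S.M.v j1) (Or.inl ⟨w3, by rw [S.M.αα]⟩) (Or.inl ⟨w2, by rw [S.M.αα]⟩)
        (Or.inl ⟨w1, by rw [S.M.αα]⟩) o3 sy S3 S2 S1 (fun d hd hy hs => ?_) r3' r2' r1'
        ⟨k, R2.f3, mx⟩ P1 (by rw [S.M.αα]; exact G) (by rw [S.M.αα]; exact S.sc.iseqv.symm R2.f1)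
        ⟨S.M.α k, by rw [S.M.αα]; exact S.sc.iseqv.symm R2.f4, mx'⟩ hΔ hT hF hs2 hT2 hF2 h42
        mk.1 mk.2.2 yk mk.2.1 rfl C fun c hc => ?_
    · rcases on d hd hy hs with e | e | e
      · exact Or.inr (Or.inr (Or.inr (Or.inr (Or.inl e))))
      · exact Or.inr (Or.inr (Or.inl e))
      · exact Or.inl e
    · rcases Sp' c hc with ⟨a1, a2, a3⟩ | ⟨a1, a2, a3⟩
      · exact Or.inr ⟨a2, a1.symm, fun h0 => a3 (by rw [a1, h0])⟩
      · exact Or.inl ⟨a1.symm, a2.symm, fun h0 => a3 (by rw [a1, h0, a2])⟩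
  -- `x` is not a neighbour of `y`
  have np : ∀ r, S.real r = true → S.M.v r = y → S.M.v (S.M.α r) ≠ S.M.v k := by
    intro r hr hy he
    obtain ⟨d, d1, d2, d3⟩ := i2
    obtain ⟨c, hc⟩ := h.sds hΔ (s := s) (b := true) ⟨_, rA _ d1, by rw [d2]; decide⟩ i1
    obtain ⟨f1, f2, f3, f4⟩ := fin c hc
    rcases on r hr hy (by rw [he]; exact mk.2.1) with h0 | h0 | h0
    · rw [h0, S.M.αα] at he
      rw [f3, he] at f4
      exact f4 (f1.trans f2.symm)
    · rw [h0, S.M.αα] at he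
      rw [he] at f4
      exact f4 (f1.trans f2.symm)
    · rw [h0, S.M.αα] at he
      exact o4 he
  have H := H np
  obtain ⟨c, hcE, hc, hv⟩ := H.ex W hΔ h h2
  obtain ⟨f1, f2, f3, f4⟩ := fin c hc
  have ce : c (S.M.v a) = c (S.M.v (S.M.α a)) := by
    rcases H.e with ⟨e1, e2⟩ | ⟨e1, e2⟩
    · rw [e1, e2]; exact f2
    · rw [e1, e2]; exact f2.symm
  -- a solution of the other side
  obtain ⟨b, hb⟩ := h.sds hΔ (s := s) (b := false) ⟨y, Ay, by rw [sy]; decide⟩ i2
  have sp : Spl S false b k1 k2 k3 k := by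
    rcases Y.sp b hb with h5 | h5
    · exact h5
    · exact absurd P5 (h.o4p R.rot hΔ hT hF hb hc h5 (Y.cs c hc).rot)
  obtain ⟨a1, a2, a3⟩ := sp
  unfold kEnd at a1 a2 a3
  simp only [cond_false] at a1 a2 a3
  have bt : c (S.M.v j1) ≠ c (S.M.v (S.M.α j1)) := by
    rw [w1, ← f3, ← f1]
    exact f4.symm
  have st' : s (S.M.v (S.M.α j1)) = true := by rw [w1]; exact sy
  by_cases h5 : c y = b (S.M.v (S.M.α k1))
  · refine h.glueE H R nobr Fk FR hcE hc hv ce hb.neg ?_ ?_ r1 S1 st' bt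
      (S.sc.iseqv.symm R2.f4)
    · show c (S.M.v k1) ≠ !b (S.M.v (S.M.α k1))
      rw [v1, h5]
      cases b (S.M.v (S.M.α k1)) <;> decide
    · show c (S.M.v k2) ≠ !b (S.M.v (S.M.α k2))
      rw [v2, h5, a1]
      cases b (S.M.v (S.M.α k2)) <;> decide
  · refine h.glueE H R nobr Fk FR hcE hc hv ce hb ?_ ?_ r1 S1 st' bt
      (S.sc.iseqv.symm R2.f4)
    · rw [v1]; exact h5
    · rw [v2, ← a1]; exact h5

end Pool.FC7
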