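import Pool.Agent.FC7.Q6S
import Pool.Agent.FC7.Q6N

/-! # The real darts of a gap in their order -/

open Finset

set_option linter.unusedSectionVars false

namespace Pool.FC7

open Pool.FC6 Pool.FC6.St

variable {D V : Type} [Fintype D] [DecidableEq V] {S : St D V} {L : D → Bool} {w : D → ℕ} {Δ : ℕ}

theorem gw_zero (t : D) : fgw S t 0 = t := rfl

theorem gw_add (t : D) (i : ℕ) : ∀ j, fgw S t (i + j) = fgw S (fgw S t i) j := by
  intro j
  induction j with
  | zero => rfl
  | succ j ih => rw [← Nat.add_assoc, gw_succ, gw_succ, ih]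

theorem gw_all (hS : IsStar S) (W : Wf Δ S L w) {t d : D} (r : S.real t = true)
    (p : S.real (S.M.φ t) = false) (hr : S.real d = true) (hd : S.sc.r t d) :
    ∃ i, d = fgw S t i := by
  have dz := hS.dead _ r p
  have h1 : S.sc.r (S.M.φ (S.M.φ t)) d := by
    refine S.sc.iseqv.trans (S.sc.iseqv.symm ?_) hd
    exact (scφ _ _).2 ((scφ _ _).2 (S.sc.iseqv.refl _))
  have h2 : S.M.v (S.M.φ (S.M.φ d)) = S.M.v (S.M.φ (S.M.φ t)) := by
    rcases (hS.sc_star W dz d).1 h1 with h3 | h3 | h3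
    · exact absurd (h3 ▸ W.real_A d hr) dz
    · rw [S.M.vφ d] at h3
      exact absurd (h3 ▸ W.real_A _ (by rw [W.real_α]; exact hr)) dz
    · exact h3
  obtain ⟨n, hn⟩ := S.M.σ_orbit h2
  have key : ∀ n, S.M.σ^[n] (S.M.φ (S.M.φ (fgw S t n))) = S.M.φ (S.M.φ t) := by
    intro n
    induction n with
    | zero => rfl
    | succ n ih =>
      rw [Function.iterate_succ_apply]
      have : S.M.σ (S.M.φ (S.M.φ (fgw S t (n + 1)))) = S.M.φ (S.M.φ (fgw S t n)) := by
        rw [gw_φφ]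
        show S.M.φ (S.M.α (S.M.α (S.M.φ (fgw S t n)))) = _
        rw [S.M.αα]
      rw [this, ih]
  refine ⟨n, S.M.φinj (S.M.φinj ?_)⟩
  exact (S.M.σinj.iterate n) (hn.trans (key n).symm)

/-- the darts of the gap between `t0` and `t1` at a vertex of the side `true`: the first `n` vertices
are on the side `true`, the others on the side `false` -/
structure Gq (S : St D V) (s : V → Bool) (t0 t1 : D) (n m : ℕ) : Prop where
  n0 : 1 ≤ n
  nm : n < m
  last : fgw S t1 m = S.M.α t0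
  per : fgw S t1 (m + 1) = t1
  ne : ∀ i, 0 < i → i ≤ m → fgw S t1 i ≠ t1
  tv : ∀ i ≤ n, s (S.M.v (fgw S t1 i)) = true
  fv : ∀ i, n < i → i ≤ m → s (S.M.v (fgw S t1 i)) = false
  all : ∀ d, S.real d = true → S.sc.r t1 d → ∃ i ≤ m, d = fgw S t1 i
  uv : ∀ i, 0 < i → i ≤ m → S.M.v (fgw S t1 i) ≠ S.M.v t1

theorem MC.gq (hΔ : Δ ≤ 6) (h : MC Δ S L w) (hS : IsStar S) {t0 t1 k : D} (r0 : S.real t0 = true)
    (r1 : S.real t1 = true) (p : S.real (S.M.φ t1) = false) (e1 : S.M.σ (S.M.σ t0) = t1)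
    (s0' : S.sc.r t1 (S.M.α t0)) {s : V → Bool} (sy : s (S.M.v t1) = true)
    (s1 : s (S.M.v (S.M.α t1)) = true) (s0 : s (S.M.v (S.M.α t0)) = false)
    (ky : ∀ k' ∈ kc S s, k' = k ∨ S.M.v k' = S.M.v t1) :
    ∃ n m, Gq S s t0 t1 n m ∧ fgw S t1 n = k := by
  classical
  have W := h.ok.toWf
  have rA := W.real_A
  have rα := W.real_α
  have GR := gw_real hS W r1 p
  have GS := gw_sc hS W r1 p
  have hN : S.N2 (S.M.v t1) := h.n2 hΔ hS (rA _ r1)
  -- the end
  have ex : ∃ m, fgw S t1 m = S.M.α t0 := by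
    obtain ⟨m, hm⟩ := gw_all hS W r1 p (by rw [rα]; exact r0) s0'
    exact ⟨m, hm.symm⟩
  obtain ⟨m, hm, hmin⟩ : ∃ m, fgw S t1 m = S.M.α t0 ∧ ∀ i < m, fgw S t1 i ≠ S.M.α t0 :=
    ⟨Nat.find ex, Nat.find_spec ex, fun i hi => Nat.find_min ex hi⟩
  have per : fgw S t1 (m + 1) = t1 := by
    rw [gw_succ, hm]
    exact e1
  have ne : ∀ i, 0 < i → i ≤ m → fgw S t1 i ≠ t1 := by
    intro i h0 h1 h2
    obtain ⟨j, rfl⟩ : ∃ j, m = i + j := ⟨m - i, by omega⟩
    rw [gw_add, h2] at hm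
    exact hmin j (by omega) hm
  have red : ∀ i, ∃ i' ≤ m, fgw S t1 i = fgw S t1 i' := by
    intro i
    induction i using Nat.strong_induction_on with
    | _ i ih =>
      by_cases h1 : i ≤ m
      · exact ⟨i, h1, rfl⟩
      · obtain ⟨j, rfl⟩ : ∃ j, i = (m + 1) + j := ⟨i - (m + 1), by omega⟩
        obtain ⟨i', h2, h3⟩ := ih j (by omega)
        exact ⟨i', h2, by rw [gw_add, per]; exact h3⟩
  have all : ∀ d, S.real d = true → S.sc.r t1 d → ∃ i ≤ m, d = fgw S t1 i := by
    intro d hd hc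
    obtain ⟨i, hi⟩ := gw_all hS W r1 p hd hc
    obtain ⟨i', h1, h2⟩ := red i
    exact ⟨i', h1, hi.trans h2⟩
  have m0 : 0 < m := by
    rcases Nat.eq_zero_or_pos m with h0 | h0
    · rw [h0] at hm
      have hm : t1 = S.M.α t0 := hm
      rw [← hm, sy] at s0
      exact absurd s0 (by decide)
    · exact h0
  -- the first dart with the head on the other side
  have exn : ∃ n, s (S.M.v (S.M.α (fgw S t1 n))) = false := by
    refine ⟨m - 1, ?_⟩
    rw [← gw_v, show m - 1 + 1 = m by omega, hm]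
    exact s0
  obtain ⟨n, hn, nmin⟩ : ∃ n, s (S.M.v (S.M.α (fgw S t1 n))) = false ∧
      ∀ i < n, s (S.M.v (S.M.α (fgw S t1 i))) = true :=
    ⟨Nat.find exn, Nat.find_spec exn, fun i hi => by simpa using Nat.find_min exn hi⟩
  have n0 : 1 ≤ n := by
    by_contra hn0
    have hz : n = 0 := by omega
    rw [hz, gw_zero, s1] at hn
    exact absurd hn (by decide)
  have nm : n < m := by
    by_contra hnm
    have := nmin (m - 1) (by omega)
    rw [← gw_v, show m - 1 + 1 = m by omega, hm, s0] at this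
    exact absurd this (by decide)
  have tv : ∀ i ≤ n, s (S.M.v (fgw S t1 i)) = true := by
    intro i hi
    rcases Nat.eq_zero_or_pos i with h0 | h0
    · rw [h0]; exact sy
    · obtain ⟨j, rfl⟩ : ∃ j, i = j + 1 := ⟨i - 1, by omega⟩
      rw [gw_v]
      exact nmin j (by omega)
  have uq : ∀ i, 0 < i → i ≤ m → S.M.v (fgw S t1 i) ≠ S.M.v t1 := by
    intro i h0 h1 h2
    exact ne i h0 h1 (real_uniq hS W hN r1 (GR i).1 p h2 (GS i)).symm
  have Kn : fgw S t1 n ∈ kc S s := mem_kc.2 ⟨(GR n).1, tv n le_rfl, hn⟩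
  have kn : fgw S t1 n = k := (ky _ Kn).resolve_right (uq n n0 nm.le)
  have fv : ∀ i, n < i → i ≤ m → s (S.M.v (fgw S t1 i)) = false := by
    intro i h0 h1
    induction i with
    | zero => omega
    | succ i ih =>
      rw [gw_v]
      rcases Nat.lt_or_ge n i with h2 | h2
      · have h3 := ih h2 (by omega)
        by_contra hc
        have hc : s (S.M.v (S.M.α (fgw S t1 i))) = true := by simpa using hc
        have Ki : S.M.α (fgw S t1 i) ∈ kc S s := mem_kc.2 ⟨by rw [rα]; exact (GR i).1, hc, by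
          rw [S.M.αα]; exact h3⟩
        rcases ky _ Ki with h4 | h4
        · apply h.nobr hΔ hS (GR i).1
          rw [h4, ← kn]
          exact S.sc.iseqv.trans (S.sc.iseqv.symm (GS i)) (GS n)
        · rw [← gw_v] at h4
          exact uq _ (by omega) h1 h4
      · have h3 : i = n := by omega
        rw [h3]; exact hn
  exact ⟨n, m, ⟨n0, nm, hm, per, ne, tv, fv, all, uq⟩, kn⟩

section

variable {s : V → Bool} {t0 t1 : D} {n m : ℕ} (G : Gq S s t0 t1 n m)

include G

/-- the real darts of the gap on the side `true` -/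
theorem Gq.sideT {d : D} (hd : S.real d = true) (hc : S.sc.r t1 d) (h1 : s (S.M.v d) = true)
    (h2 : s (S.M.v (S.M.α d)) = true) : ∃ i < n, d = fgw S t1 i := by
  obtain ⟨i, hi, rfl⟩ := G.all d hd hc
  refine ⟨i, ?_, rfl⟩
  by_contra hlt
  rcases Nat.lt_or_ge n i with h3 | h3
  · rw [G.fv i h3 hi] at h1
    exact absurd h1 (by decide)
  · have h4 : i = n := by omega
    have := G.fv (i + 1) (by omega) (by have := G.nm; omega)
    rw [gw_v, h2] at this
    exact absurd this (by decide)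

/-- the real darts of the gap with the origin on the side `true` -/
theorem Gq.origT {d : D} (hd : S.real d = true) (hc : S.sc.r t1 d) (h1 : s (S.M.v d) = true) :
    ∃ i ≤ n, d = fgw S t1 i := by
  obtain ⟨i, hi, rfl⟩ := G.all d hd hc
  refine ⟨i, ?_, rfl⟩
  by_contra hlt
  rw [G.fv i (by omega) hi] at h1
  exact absurd h1 (by decide)

/-- the real darts of the gap with the origin on the side `false` -/
theorem Gq.origF {d : D} (hd : S.real d = true) (hc : S.sc.r t1 d) (h1 : s (S.M.v d) = false) :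
    ∃ i, n < i ∧ i ≤ m ∧ d = fgw S t1 i := by
  obtain ⟨i, hi, rfl⟩ := G.all d hd hc
  refine ⟨i, ?_, hi, rfl⟩
  by_contra hlt
  rw [G.tv i (by omega)] at h1
  exact absurd h1 (by decide)

end

/-- one of the sides has units of the gap and at least two of its corners -/
theorem MC.gside (hΔ : Δ ≤ 6) (h : MC Δ S L w) (hS : IsStar S) {t0 t1 : D}
    (r1 : S.real t1 = true) (p : S.real (S.M.φ t1) = false) (hu : fu S t1 ≠ 0)
    (u1 : S.u t1 = 0) {s : V → Bool} {n m : ℕ} (G : Gq S s t0 t1 n m) :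
    (2 ≤ n ∧ ∃ i, 1 ≤ i ∧ i ≤ n ∧ S.u (fgw S t1 i) ≠ 0) ∨
      (n + 1 < m ∧ ∃ i, n < i ∧ i ≤ m ∧ S.u (fgw S t1 i) ≠ 0) := by
  classical
  have W := h.ok.toWf
  have n0 := G.n0
  have nm := G.nm
  -- at least four real darts
  have m3 : 3 ≤ m := by
    by_contra hlt
    have hm : m = 2 := by omega
    have hc := hS.csz_ne3 W p
    apply hc
    have e1 : S.csz (S.M.φ t1) = (Finset.univ.filter fun r => S.real r = true ∧
        S.sc.r (S.M.φ t1) r).card := by
      unfold csz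
      rw [Finset.card_filter]
    have GR := gw_real hS W r1 p
    have GS := gw_sc hS W r1 p
    have g0 : S.sc.r t1 (S.M.φ t1) := (scφ _ _).2 (S.sc.iseqv.refl _)
    have e2 : (Finset.univ.filter fun r => S.real r = true ∧ S.sc.r (S.M.φ t1) r) =
        {fgw S t1 0, fgw S t1 1, fgw S t1 2} := by
      ext r
      simp only [Finset.mem_filter, Finset.mem_univ, true_and, Finset.mem_insert,
        Finset.mem_singleton]
      constructor
      · rintro ⟨h1, h2⟩
        obtain ⟨i, hi, hr⟩ := G.all r h1 (S.sc.iseqv.trans g0 h2)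
        have : i = 0 ∨ i = 1 ∨ i = 2 := by omega
        rcases this with rfl | rfl | rfl
        · exact Or.inl hr
        · exact Or.inr (Or.inl hr)
        · exact Or.inr (Or.inr hr)
      · have key : ∀ i, S.real (fgw S t1 i) = true ∧ S.sc.r (S.M.φ t1) (fgw S t1 i) := fun i =>
          ⟨(GR i).1, S.sc.iseqv.trans (S.sc.iseqv.symm g0) (GS i)⟩
        rintro (h1 | h1 | h1) <;> rw [h1]
        · exact key 0
        · exact key 1
        · exact key 2
    rw [e1, e2]
    have d01 : fgw S t1 0 ≠ fgw S t1 1 := fun h0 => G.ne 1 (by omega) (by omega) h0.symm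
    have d02 : fgw S t1 0 ≠ fgw S t1 2 := fun h0 => G.ne 2 (by omega) (by omega) h0.symm
    have d12 : fgw S t1 1 ≠ fgw S t1 2 := fun h0 => by
      have h2 := gw_v (S := S) (t := t1) 1
      rw [← h0] at h2
      exact W.real_ne _ (GR 1).1 h2
    exact Finset.card_eq_three.2 ⟨_, _, _, d01, d02, d12, rfl⟩
  have un : ∀ r, ∃ i, 1 ≤ i ∧ i ≤ m ∧ S.u (fgw S t1 i) ≠ 0 ∧ fgw S t1 i ≠ r := by
    intro r
    obtain ⟨e, g1, g2, g3⟩ := h.unit2 hΔ hS (r := r) hu
    obtain ⟨i, hi, rfl⟩ := G.all e (hS.ur _ g2) g1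
    refine ⟨i, ?_, hi, g2, g3⟩
    by_contra hlt
    have h0 : i = 0 := by omega
    rw [h0, gw_zero] at g2
    exact g2 u1
  by_cases h2 : 2 ≤ n
  · by_cases hA : ∃ i, 1 ≤ i ∧ i ≤ n ∧ S.u (fgw S t1 i) ≠ 0
    · exact Or.inl ⟨h2, hA⟩
    · right
      obtain ⟨i, a1, a2, a3, a4⟩ := un (fgw S t1 m)
      have a5 : n < i := by
        by_contra hlt
        exact hA ⟨i, a1, by omega, a3⟩
      have a6 : i ≠ m := fun h0 => a4 (by rw [h0])
      exact ⟨by omega, i, a5, a2, a3⟩
  · right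
    have hn : n = 1 := by omega
    refine ⟨by omega, ?_⟩
    obtain ⟨i, a1, a2, a3, a4⟩ := un (fgw S t1 1)
    have a6 : i ≠ 1 := fun h0 => a4 (by rw [h0])
    exact ⟨i, by omega, a2, a3⟩

end Pool.FC7
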