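import Pool.Agent.FC7.Q7A

/-! # A vertex with six real darts at a gap -/

open Finset

set_option linter.unusedSectionVars false

namespace Pool.FC7

open Pool.FC6 Pool.FC6.St

variable {D V : Type} [Fintype D] [DecidableEq V] {S : St D V} {L : D → Bool} {w : D → ℕ} {Δ : ℕ}

/-- the six real darts `t0, …, t5` at a vertex in the rotation; a gap between `t0` and `t1`, solid
triangles between `t1, t2` and between `t5, t0` -/
structure R7 (S : St D V) (t0 t1 t2 t3 t4 t5 : D) : Prop where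
  r0 : S.real t0 = true
  r1 : S.real t1 = true
  r2 : S.real t2 = true
  r3 : S.real t3 = true
  r4 : S.real t4 = true
  r5 : S.real t5 = true
  g0 : S.real (S.M.σ t0) = false
  e1 : S.M.σ (S.M.σ t0) = t1
  e2 : S.M.σ t1 = t2
  e0 : S.M.σ t5 = t0
  v1 : S.M.v t1 = S.M.v t0
  v2 : S.M.v t2 = S.M.v t0
  v3 : S.M.v t3 = S.M.v t0
  v4 : S.M.v t4 = S.M.v t0
  v5 : S.M.v t5 = S.M.v t0
  s0 : S.sc.r (S.M.α t0) t1
  s1 : S.sc.r (S.M.α t1) t2
  s2 : S.sc.r (S.M.α t2) t3
  s3 : S.sc.r (S.M.α t3) t4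
  s4 : S.sc.r (S.M.α t4) t5
  s5 : S.sc.r (S.M.α t5) t0
  p1 : S.real (S.M.φ t1) = false
  all : ∀ d, S.real d = true → S.M.v d = S.M.v t0 → d = t0 ∨ d = t1 ∨ d = t2 ∨ d = t3 ∨ d = t4 ∨
    d = t5
  nd : [t0, t1, t2, t3, t4, t5].Nodup

theorem R7.of (W : Wf Δ S L w) (hS : IsStar S) {t0 t1 t2 t3 t4 t5 : D}
    (r0 : S.real t0 = true) (g0 : S.real (S.M.σ t0) = false) (x1 : Nx S t0 t1) (x2 : Nx S t1 t2)
    (x3 : Nx S t2 t3) (x4 : Nx S t3 t4) (x5 : Nx S t4 t5) (x0 : Nx S t5 t0)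
    (f1 : S.real (S.M.σ t1) = true) (f5 : S.real (S.M.φ (S.M.φ t0)) = true)
    {s : V → Bool} {b : Bool} (c1 : s (S.M.v (S.M.α t1)) = b) (c2 : s (S.M.v (S.M.α t2)) = b)
    (c3 : s (S.M.v (S.M.α t3)) = b) (c4 : s (S.M.v (S.M.α t4)) = !b)
    (c5 : s (S.M.v (S.M.α t5)) = !b) (c0 : s (S.M.v (S.M.α t0)) = !b) :
    R7 S t0 t1 t2 t3 t4 t5 := by
  classical
  have rα := W.real_α
  have rA := W.real_A
  have rA' : ∀ d, S.real d = true → S.M.v (S.M.α d) ∈ S.A := fun d hd =>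
    rA _ (by rw [rα]; exact hd)
  have nb : ∀ {x : Bool}, x = b → x = (!b) → False := by
    intro x h1 h2
    rw [h1] at h2
    cases b <;> exact absurd h2 (by decide)
  have ne : ∀ {x y : D}, s (S.M.v (S.M.α x)) = b → s (S.M.v (S.M.α y)) = (!b) → x ≠ y :=
    fun h1 h2 h3 => nb h1 (by rw [h3]; exact h2)
  -- the darts are different
  have n12 : t1 ≠ t2 := fun h => by
    rw [h] at x2
    have a := Nx.uniq x2 x3
    rw [← a] at x4
    exact ne c2 c4 (Nx.uniq x2 x4)
  have n23 : t2 ≠ t3 := fun h => by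
    rw [h] at x3
    exact ne c3 c4 (Nx.uniq x3 x4)
  have n13 : t1 ≠ t3 := fun h => by
    rw [h] at x2
    exact ne c2 c4 (Nx.uniq x2 x4)
  have n50 : t5 ≠ t0 := fun h => by
    rw [h] at x0
    exact ne c1 c0 (Nx.uniq x0 x1).symm
  have n45 : t4 ≠ t5 := fun h => by
    rw [h] at x5
    exact n50 (Nx.uniq x5 x0)
  have n40 : t4 ≠ t0 := fun h => by
    rw [h] at x5
    exact ne c1 c5 (Nx.uniq x5 x1).symm
  have v1 := x1.v
  have v2 := x2.v.trans v1
  have v3 := x3.v.trans v2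
  have v4 := x4.v.trans v3
  have v5 := x5.v.trans v4
  -- the triangles
  have e1 : S.M.σ (S.M.σ t0) = t1 := by
    rcases x1.2 with h | ⟨h, -⟩
    · rw [← h, x1.1] at g0
      exact absurd g0 (by decide)
    · exact h.symm
  have e2 : S.M.σ t1 = t2 := by
    rcases x2.2 with h | ⟨-, h⟩
    · exact h.symm
    · rw [f1] at h
      exact absurd h (by decide)
  have e0 : S.M.σ t5 = t0 := by
    rcases x0.2 with h | ⟨h, h3⟩
    · exact h.symm
    · have h5 : S.M.φ (S.M.φ t0) = S.M.α (S.M.σ t5) := by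
        rw [h]
        show S.M.φ (S.M.φ (S.M.φ (S.M.α (S.M.σ t5)))) = _
        rw [S.M.φ3]
      rw [h5, rα, h3] at f5
      exact absurd f5 (by decide)
  -- the gap
  obtain ⟨z, hz⟩ : ∃ z, z = S.M.α (S.M.σ t0) := ⟨_, rfl⟩
  have rz : S.real z = false := by rw [hz, rα]; exact g0
  have zt : S.M.φ z = t1 := by rw [hz]; exact e1
  have z2 : S.M.φ (S.M.φ t1) = z := by rw [← zt, S.M.φ3]
  have p1 : S.real (S.M.φ t1) = false := by
    by_contra h
    have := hS.two t1 x1.1 (by simpa using h)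
    rw [z2, rz] at this
    exact absurd this (by decide)
  refine
    { r0 := r0, r1 := x1.1, r2 := x2.1, r3 := x3.1, r4 := x4.1, r5 := x5.1, g0 := g0, e1 := e1,
      e2 := e2, e0 := e0, v1 := v1, v2 := v2, v3 := v3, v4 := v4, v5 := v5, s0 := x1.sc,
      s1 := x2.sc, s2 := x3.sc, s3 := x4.sc, s4 := x5.sc, s5 := x0.sc, p1 := p1, all := ?_,
      nd := ?_ }
  · -- all real darts at the vertex
    intro d rd hd
    obtain ⟨m, hm⟩ := S.M.σ_orbit hd.symm
    have key : ∀ m, ∃ t ∈ [t0, t1, t2, t3, t4, t5], S.M.σ^[m] t0 = t ∨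
        (S.M.σ^[m] t0 = S.M.σ t ∧ S.real (S.M.σ^[m] t0) = false) := by
      intro m
      induction m with
      | zero => exact ⟨t0, by simp, Or.inl rfl⟩
      | succ m ih =>
        obtain ⟨t, ht, h1⟩ := ih
        rw [Function.iterate_succ_apply']
        have go : ∀ a, Nx S t a → a ∈ [t0, t1, t2, t3, t4, t5] →
            ∃ t ∈ [t0, t1, t2, t3, t4, t5], S.M.σ (S.M.σ^[m] t0) = t ∨
              (S.M.σ (S.M.σ^[m] t0) = S.M.σ t ∧ S.real (S.M.σ (S.M.σ^[m] t0)) = false) := by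
          intro a ha hm
          rcases ha.step h1 with h2 | h2
          · exact ⟨a, hm, Or.inl h2⟩
          · exact ⟨t, ht, Or.inr h2⟩
        simp only [List.mem_cons, List.not_mem_nil, or_false] at ht
        rcases ht with ht | ht | ht | ht | ht | ht <;> rw [ht] at go
        · exact go _ x1 (by simp)
        · exact go _ x2 (by simp)
        · exact go _ x3 (by simp)
        · exact go _ x4 (by simp)
        · exact go _ x5 (by simp)
        · exact go _ x0 (by simp)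
    obtain ⟨t, ht, h1⟩ := key m
    rw [hm] at h1
    rcases h1 with h1 | ⟨-, h1⟩
    · rw [h1]
      simpa using ht
    · rw [rd] at h1
      exact absurd h1 (by decide)
  · have m10 := ne c1 c0
    have m14 := ne c1 c4
    have m15 := ne c1 c5
    have m20 := ne c2 c0
    have m24 := ne c2 c4
    have m25 := ne c2 c5
    have m30 := ne c3 c0
    have m34 := ne c3 c4
    have m35 := ne c3 c5
    simp only [List.nodup_cons, List.mem_cons, List.not_mem_nil, or_false, not_or, not_false_iff,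
      List.nodup_nil, and_true]
    exact ⟨⟨m10.symm, m20.symm, m30.symm, n40.symm, n50.symm⟩, ⟨n12, n13, m14, m15⟩,
      ⟨n23, m24, m25⟩, ⟨m34, m35⟩, n45⟩

section

variable {t0 t1 t2 t3 t4 t5 : D} (R : R7 S t0 t1 t2 t3 t4 t5)

include R

/-- six real edges -/
theorem R7.rd6 : 6 ≤ S.rdeg (S.M.v t0) := by
  classical
  have h1 : S.rdeg (S.M.v t0) =
      (Finset.univ.filter fun d => S.M.v d = S.M.v t0 ∧ S.real d = true).card := by
    unfold St.rdeg
    rw [Finset.card_filter]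
  have h2 : ([t0, t1, t2, t3, t4, t5].toFinset).card = 6 := List.toFinset_card_of_nodup R.nd
  rw [h1, ← h2]
  refine Finset.card_le_card fun d hd => ?_
  rw [List.mem_toFinset] at hd
  simp only [List.mem_cons, List.not_mem_nil, or_false] at hd
  rw [Finset.mem_filter]
  refine ⟨Finset.mem_univ _, ?_⟩
  rcases hd with h0 | h0 | h0 | h0 | h0 | h0 <;> rw [h0]
  · exact ⟨rfl, R.r0⟩
  · exact ⟨R.v1, R.r1⟩
  · exact ⟨R.v2, R.r2⟩
  · exact ⟨R.v3, R.r3⟩
  · exact ⟨R.v4, R.r4⟩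
  · exact ⟨R.v5, R.r5⟩

end

end Pool.FC7
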