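import Pool.Agent.FC7.Q7B
import Pool.Agent.FC7.Q6T

/-! # A cut with three of the six real edges at a vertex, a gap and two plain triangles: the side of the
first three neighbours has a unit of the gap and at least two of its corners -/

open Finset

set_option linter.unusedSectionVars false

namespace Pool.FC7

open Pool.FC6 Pool.FC6.St

variable {D V : Type} [Fintype D] [DecidableEq V] {S : St D V} {L : D → Bool} {w : D → ℕ} {Δ : ℕ}

/-- RULE R1 -/
theorem MC.r1A (hΔ : Δ ≤ 6) (h : MC Δ S L w) (hS : IsStar S) {t0 t1 t2 t3 t4 t5 : D}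
    (R : R7 S t0 t1 t2 t3 t4 t5) {s : V → Bool} (P1 : Pt S L s (S.M.α t1)) (P5 : Pt S L s t0)
    (sy : s (S.M.v t0) = true) (s1 : s (S.M.v (S.M.α t1)) = true)
    (s2 : s (S.M.v (S.M.α t2)) = true) (s3 : s (S.M.v (S.M.α t3)) = true)
    (s4 : s (S.M.v (S.M.α t4)) = false) (s5 : s (S.M.v (S.M.α t5)) = false)
    (s0 : s (S.M.v (S.M.α t0)) = false) (h4 : S.rc s = 4) (T2 : S.Two s true)
    (F2 : S.Two s false) (NA : s (S.M.v (fgw S t1 2)) = true)
    (UA : ∃ d, S.sc.r t1 d ∧ S.u d ≠ 0 ∧ s (S.M.v d) = true) : False := by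
  classical
  have W := h.ok.toWf
  have rA := W.real_A
  have rα := W.real_α
  have rA' : ∀ {d}, S.real d = true → S.M.v (S.M.α d) ∈ S.A := fun hd =>
    rA _ (by rw [rα]; exact hd)
  obtain ⟨y, hy⟩ : ∃ y, S.M.v t0 = y := ⟨_, rfl⟩
  have v1 := R.v1
  have v2 := R.v2
  have v3 := R.v3
  have v4 := R.v4
  have v5 := R.v5
  have all := R.all
  rw [hy] at v1 v2 v3 v4 v5 sy all
  have nd := R.nd
  simp only [List.nodup_cons, List.mem_cons, List.not_mem_nil, or_false, not_or,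
    List.nodup_nil, not_false_eq_true, and_true] at nd
  -- the ring of the cut
  have K4 : t4 ∈ kc S s := mem_kc.2 ⟨R.r4, by rw [v4]; exact sy, s4⟩
  have K5 : t5 ∈ kc S s := mem_kc.2 ⟨R.r5, by rw [v5]; exact sy, s5⟩
  have K0 : t0 ∈ kc S s := mem_kc.2 ⟨R.r0, by rw [hy]; exact sy, s0⟩
  have n45 : t4 ≠ t5 := by tauto
  have n40 : t4 ≠ t0 := by tauto
  have n50 : t5 ≠ t0 := by tauto
  obtain ⟨k, R0⟩ := h.ring hΔ hS h4 K4 K5 K0 n45 n40 n50 R.s4 R.s5
  obtain ⟨n, m, Gn, kn⟩ := h.gq hΔ hS (k := k) R.r0 R.r1 R.p1 R.e1 (S.sc.iseqv.symm R.s0)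
    (s := s) (by rw [v1]; exact sy) s1 s0 fun k' hk' => by
    rcases (R0.mem k').1 hk' with h0 | h0 | h0 | h0
    · right; rw [h0, v4, v1]
    · right; rw [h0, v5, v1]
    · right; rw [h0, hy, v1]
    · exact Or.inl h0
  have nm := Gn.nm
  have n1 := Gn.n0
  have GR := gw_real hS W R.r1 R.p1
  have GS := gw_sc hS W R.r1 R.p1
  have n2 : 2 ≤ n := by
    by_contra hlt
    rw [Gn.fv 2 (by omega) (by omega)] at NA
    exact absurd NA (by decide)
  obtain ⟨N, hN⟩ : ∃ N, n = N + 2 := ⟨n - 2, by omega⟩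
  have mk := mem_kc.1 R0.K4
  have fy : S.M.v k ≠ y := by
    rw [← kn, ← v1]
    exact Gn.uv n (by omega) nm.le
  have tk : S.sc.r t1 k := by rw [← kn]; exact GS n
  -- the ring of the cut with `y` on the other side
  have e1 : ∀ {d}, S.real d = true → S.real (S.M.α d) = true := fun hd => by rw [rα]; exact hd
  have R02 : Rk S (fun z => if z = y then false else s z) (S.M.α t3) (S.M.α t2) (S.M.α t1) k := by
    refine R0.mv W (fun z _ => rfl) sy v4 v5 hy fy (e1 R.r3) (e1 R.r2) (e1 R.r1)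
      (by rw [S.M.αα]; exact v3) (by rw [S.M.αα]; exact v2) (by rw [S.M.αα]; exact v1) s3 s2 s1
      (fun d hd hv hsd => ?_) (fun h0 => ?_) (fun h0 => ?_) (fun h0 => ?_) ?_ ?_ ?_ ?_
    · rcases all d hd hv with h0 | h0 | h0 | h0 | h0 | h0
      · rw [h0, s0] at hsd; exact absurd hsd (by decide)
      · exact Or.inr (Or.inr (by rw [h0, S.M.αα]))
      · exact Or.inr (Or.inl (by rw [h0, S.M.αα]))
      · exact Or.inl (by rw [h0, S.M.αα])
      · rw [h0, s4] at hsd; exact absurd hsd (by decide)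
      · rw [h0, s5] at hsd; exact absurd hsd (by decide)
    · have := S.M.αinj h0; tauto
    · have := S.M.αinj h0; tauto
    · have := S.M.αinj h0; tauto
    · rw [S.M.αα]; exact S.sc.iseqv.symm R.s2
    · rw [S.M.αα]; exact S.sc.iseqv.symm R.s1
    · rw [S.M.αα]; exact tk
    · exact S.sc.iseqv.trans R0.f4 (S.sc.iseqv.symm R.s3)
  -- the fan
  obtain ⟨S', hs, Fn⟩ := fan_ex hS W R.r1 R.p1 N fun i hi => by
    rw [← gw_v]
    exact Gn.uv (i + 1) (by omega) (by omega)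
  obtain ⟨a, ha⟩ : ∃ a, a = S.M.φ (fgw S t1 N) := ⟨_, rfl⟩
  obtain ⟨F, hF0⟩ : ∃ F : D → Prop, F = FF S t1 N := ⟨_, rfl⟩
  rw [← ha, ← hF0] at Fn
  have h' := h.sim hΔ hs
  have W' := h'.ok.toWf
  have A' := hs.hA
  have yA : y ∈ S.A := by rw [← hy]; exact rA _ R.r0
  obtain ⟨q1, a1, a2, hT, hF⟩ := h'.ext hΔ (s := s) (by rw [hs.rc, h4]; omega)
    ⟨y, by rw [A']; exact yA, sy⟩ ⟨_, by rw [A']; exact rA' R.r0, s0⟩
  obtain ⟨q2, b1, b2, hT2, hF2⟩ := h'.ext hΔ (s := fun z => if z = y then false else s z)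
    (by rw [hs.rc, R02.rc4]; omega)
    ⟨S.M.v k, by rw [A']; exact rA _ mk.1, by rw [if_neg fy]; exact mk.2.1⟩
    ⟨y, by rw [A']; exact yA, by rw [if_pos rfl]⟩
  have a2 : S'.rc q1 = 4 := a2.trans ((hs.rc _).trans h4)
  have b2 : S'.rc q2 = 4 := b2.trans ((hs.rc _).trans R02.rc4)
  have RR : Rk S' q1 t4 t5 t0 k := (R0.sim hs).congr W' a1
  have RR2 : Rk S' q2 (S.M.α t3) (S.M.α t2) (S.M.α t1) k := (R02.sim hs).congr W' b1
  rw [A'] at a1 b1
  have rr : ∀ {d}, S.real d = true → S'.real d = true := fun hd => by rw [hs.hr]; exact hd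
  have hy' : S'.M.v t0 = y := by rw [hs.hv _ R.r0]; exact hy
  have w4 : S'.M.v t4 = y := by rw [hs.hv _ R.r4]; exact v4
  have w5 : S'.M.v t5 = y := by rw [hs.hv _ R.r5]; exact v5
  have w1 : S'.M.v t1 = y := by rw [hs.hv _ R.r1]; exact v1
  have wk : S'.M.v k = S.M.v k := hs.hv _ mk.1
  have pφ := Fn.so
  have P2 : Pt S L s t2 := P1.of_fp (Or.inr (Or.inl R.e2.symm))
  have F2' : Fp S t2 (S.M.α t1) := fp_symm (Or.inr (Or.inl R.e2.symm))
  have hl : ∀ {t}, Pt S L s t → ∀ d, Fp S t d → q1 (S.M.v d) = q1 (S.M.v (S.M.α d)) →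
      L d = false := by
    intro t P d hd h1
    have hr := P.real d hd
    rw [a1 _ (rA _ hr), a1 _ (rA' hr)] at h1
    exact P.lab d hd h1
  have P2' : Pt S' L q1 t2 := P2.flip hs pφ (hl P2)
  have P5' : Pt S' L q1 t0 := P5.flip hs pφ (hl P5)
  have two : ∀ b, S.Two s b → S'.Two q1 b := by
    rintro b ⟨x, hx, z, hz, hxz, sx, sz⟩
    exact ⟨x, by rw [A']; exact hx, z, by rw [A']; exact hz, hxz, by rw [a1 x hx, sx],
      by rw [a1 z hz, sz]⟩
  have i2 : ∃ d, S'.real d = true ∧ q1 (S'.M.v d) = false ∧ q1 (S'.M.v (S'.M.α d)) = false := by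
    obtain ⟨d, d1, d2, d3⟩ := h'.inner hΔ (s := fun x => !q1 x)
      (by rw [rc_neg W'.real_α]; omega) (by
      obtain ⟨x, hx, z, hz, hxz, sx, sz⟩ := two _ F2
      exact ⟨x, hx, z, hz, hxz, by simp [sx], by simp [sz]⟩)
    exact ⟨d, d1, by simpa using d2, by simpa using d3⟩
  have sc' : ∀ {d d'}, S.sc.r d d' → S'.sc.r d d' := fun h0 => (hs.sc _ _).2 h0
  -- the chord
  have na : a ≠ t1 := fun h0 => by
    have := Fn.ra
    rw [h0, rr R.r1] at this
    exact absurd this (by decide)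
  have hk : fgw S t1 (N + 2) = k := by rw [← hN]; exact kn
  have va : S'.M.v a = S.M.v k := by rw [Fn.va, ← gw_v, hk]
  have ka : S.sc.r k a := S.sc.iseqv.trans (S.sc.iseqv.symm tk) (Fn.Fsc a Fn.Fa)
  have Fside : ∀ d, F d → q1 (S'.M.v d) = true ∧ S'.M.v d ∈ S'.A := by
    intro d hd
    rcases Fn.Fs d hd with h0 | ⟨i, hi, h0⟩
    · rw [h0, A', a1 _ (rA _ R.r1), v1]
      exact ⟨sy, yA⟩
    · rw [h0, ← gw_v, A', a1 _ (rA _ (GR _).1)]
      exact ⟨Gn.tv _ (by omega), rA _ (GR _).1⟩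
  -- units
  have uy : S.u t1 = 0 := h.u6 hΔ R.r1 (by rw [R.v1]; exact R.rd6)
  obtain ⟨U, hU⟩ : ∃ U : D → ℕ, ∀ d, U d = if d = a then S.u k else if d = t1 then 2 else S.u d :=
    ⟨_, fun _ => rfl⟩
  have Ua : U a = S.u k := by rw [hU, if_pos rfl]
  have U1 : U t1 = 2 := by rw [hU, if_neg (Ne.symm na), if_pos rfl]
  have F1 : F t1 := (Fn.Fr t1 R.r1).2 ⟨0, by omega, rfl⟩
  have U3 : 3 ≤ ∑ d, (if F d then U d else 0) := by
    obtain ⟨z, z1, z2, z3⟩ : ∃ z, F z ∧ z ≠ t1 ∧ 1 ≤ U z := by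
      obtain ⟨d, d1, d2, d3⟩ := UA
      have hd := hS.ur d d2
      obtain ⟨i, hi, hdi⟩ := Gn.origT hd d1 d3
      rcases Nat.eq_or_lt_of_le hi with h0 | h0
      · refine ⟨a, Fn.Fa, na, ?_⟩
        rw [Ua, ← kn, ← h0, ← hdi]
        omega
      · have hne : d ≠ t1 := fun h1 => d2 (by rw [h1]; exact uy)
        have hna : d ≠ a := fun h1 => by
          have := Fn.ra
          rw [← h1, rr hd] at this
          exact absurd this (by decide)
        refine ⟨d, (Fn.Fr d hd).2 ⟨i, by omega, hdi⟩, hne, ?_⟩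
        rw [hU, if_neg hna, if_neg hne]
        omega
    have h1 : ∑ d ∈ ({t1, z} : Finset D), (if F d then U d else 0) ≤
        ∑ d, (if F d then U d else 0) :=
      Finset.sum_le_sum_of_subset (Finset.subset_univ _)
    rw [Finset.sum_pair (Ne.symm z2), if_pos F1, if_pos z1, U1] at h1
    omega
  refine h'.r1g hΔ (s := q1) (s2 := q2) (y := y) (k := k) (a := a) (dx := a) (dy := t1) (F := F)
    (U := U) (fun np => ?_) (fun e he h0 => ?_) (fun e he => ?_) (fun e he g1 g2 g3 => ?_)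
    (by rw [wk]; exact fy) hT hF a2 (two _ T2) (fun z hz => ?_) hT2 hF2 b2 i2 RR w4 w5 hy' RR2
    ?_ ?_ ?_ ?_ ?_ ?_ ?_ P5'
  · -- the ear
    exact
      { ra := Fn.ra
        Fa := Fn.Fa
        Fα := Fn.Fα
        Fφ := Fn.Fφ
        Fv := Fn.Fv
        Fc := Fn.Fc
        Fs := Fside
        hT := hT
        hF := hF
        h4 := a2
        K := RR.K4
        ky := fun k' hk' => by
          rcases (RR.mem k').1 hk' with h0 | h0 | h0 | h0
          · exact Or.inr (by rw [h0]; exact w4)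
          · exact Or.inr (by rw [h0]; exact w5)
          · exact Or.inr (by rw [h0]; exact hy')
          · exact Or.inl h0
        e := Or.inl ⟨va.trans wk.symm, by rw [Fn.vα]; exact v1⟩
        nky := by rw [wk]; exact fy
        np := np
        hol := by
          intro t ht
          have hcl : S'.Cl t := ⟨ht.1, fun d hd => ht.2 d (by
            by_contra h0
            have := ((sd_real (w := w) W'.real_A W'.real_α).1 (by simpa using h0)).1
            rw [hd] at this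
            exact absurd this (by decide))⟩
          exact sc' ka t hcl
        vx := va.trans wk.symm
        ux := by rw [Ua, hs.hu k]; exact Nat.le_add_left _ _
        vy := w1
        uy := by rw [U1]
        un := fun d _ g1 g2 => by rw [hU, if_neg g1, if_neg g2, hs.hu]
        U3 := U3 }
  · rw [hs.hα] at h0
    exact h.nobr hΔ hS (by rw [← hs.hr]; exact he) ((hs.sc _ _).1 h0)
  · exact sc' (S.sc.iseqv.trans (S.sc.iseqv.symm tk) (Fn.Fsc e he))
  · have he' : S.real e = true := by rw [← hs.hr]; exact he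
    rw [hs.hv _ he', a1 _ (rA _ he')] at g1
    rw [hs.hvα he', a1 _ (rA' he')] at g2
    obtain ⟨i, hi, h0⟩ := Gn.sideT he' (S.sc.iseqv.trans tk ((hs.sc _ _).1 g3)) g1 g2
    exact (Fn.Fr e he').2 ⟨i, by omega, h0⟩
  · rw [A'] at hz
    rw [b1 z hz, a1 z hz]
  · rw [hs.hvα (e1 R.r3), S.M.αα]; exact v3
  · rw [hs.hvα (e1 R.r2), S.M.αα]; exact v2
  · rw [hs.hvα (e1 R.r1), S.M.αα]; exact v1
  · rw [hs.hα, S.M.αα]; exact P2'
  · rw [hs.hα, S.M.αα]; exact F2'.flip pφ P2.real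
  · rw [hs.hv _ (e1 R.r1), hs.hv _ (e1 R.r2)]
    intro h0
    have := W.simple t1 t2 R.r1 R.r2 (by rw [v1, v2]) h0
    tauto
  · rw [hs.hv _ (e1 R.r1), wk]
    intro h0
    have h5 : S.M.v (fgw S t1 1) = S.M.v (fgw S t1 n) := by
      rw [kn, gw_v]; exact h0
    have h6 : fgw S t1 1 = fgw S t1 n := by
      refine real_uniq hS W (h.n2 hΔ hS (rA _ (GR 1).1)) (GR 1).1 (GR n).1 (GR 1).2 h5.symm ?_
      exact S.sc.iseqv.trans (S.sc.iseqv.symm (GS 1)) (GS n)
    obtain ⟨j, hj⟩ : ∃ j, n = j + 1 := ⟨n - 1, by omega⟩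
    rw [hj] at h6
    have h7 : S.M.σ (S.M.φ (fgw S t1 0)) = S.M.σ (S.M.φ (fgw S t1 j)) := h6
    have h8 := S.M.φinj (S.M.σinj h7)
    exact Gn.ne j (by omega) (by omega) h8.symm

end Pool.FC7
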