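import Pool.Agent.FC7.RokG

/-! # Relaxed condition for the cuts: the conditions for a reduction -/

open Finset

set_option linter.unusedSectionVars false

namespace Pool.FC7

open Pool.FC6 Pool.FC6.St

namespace OD

variable (X : OD) (P P' : Pa)

/-- the piece `q` has a label of colour `t` -/
def hsc (c : ℕ) (t : Bool) (q : ℕ) : Bool :=
  !allN P.n fun j => !(decide (X.pc j = q) && decide (X.lo ≤ P'.l j) && decide (P'.l j < X.m) &&
    (c.testBit (P'.l j) == t))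

/-- the units at labels of the other colour in the pieces with a label of colour `t` -/
def oneS (c : ℕ) (t : Bool) : ℕ :=
  sumN P.n fun i => if (X.hsc P P' c t (X.pc i) && (c.testBit (P'.l i) != t)) = true then P'.u i else 0

/-- the contribution of the darts of `P'` to the hole at the labels of colour `t` -/
def inQ (c : ℕ) (t : Bool) : ℕ :=
  (sumN P.n fun i => if (P'.real i && crs P' c i) = true then 1 + X.wt' i else 0) +
    2 * X.oneS P P' c t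

/-- every hole has at least three units: by the darts of `P'` and `rb`, or by the lower bound `Bf` for
the real cuts of `S` -/
def CutsQ (Bf rb : ℕ → ℕ) : Prop :=
  ∀ r < 2 ^ (X.m - X.x), r.testBit 0 = false → ∀ q < 2 ^ (X.x - X.lo), ∀ t : Bool,
    6 ≤ X.inQ P P' (2 ^ X.lo * (2 ^ (X.x - X.lo) * r + q)) t +
      rb (2 ^ X.lo * (2 ^ (X.x - X.lo) * r + q)) ∨
    ((∃ ξ < 2 ^ X.x, 6 + FC6.OD.inS P (2 ^ X.x * r + ξ) ≤ 2 * Bf (2 ^ X.x * r + ξ) +
        X.inQ P P' (2 ^ X.lo * (2 ^ (X.x - X.lo) * r + q)) t) ∧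
      (r ≠ 0 ∨ q = 0))

end OD

/-- other units of the new patch -/
def Fc.su (F : Fc) (us : ℕ → ℕ) : Fc := { F with P' := { F.P' with u := us } }

/-- the static conditions without the condition for the cuts: `P'` has all units (strong and weak
ones), `us` are the strong units -/
structure Fc.ChkW (F : Fc) (us : ℕ → ℕ) (Δ : ℕ) : Prop where
  g : F.P.good = true
  g' : F.P'.good = true
  fl : Pa.flips F.P' F.P F.fl = true
  X : F.XX.Ck F.P F.P'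
  st : F.O.stat F.P F.P' = true
  dj : djs F.XX F.O F.P (F.su us).P' (List.range F.O.x) F.ou F.lu = true
  c1 : F.X.x = F.O.x
  c2 : F.X.x + F.X.k = F.O.m
  c3 : F.O.Δ = Δ
  c4 : F.X.lo = F.O.lo
  c5 : F.O.x < F.O.m
  s1 : ∀ a < F.O.x, ∀ b < F.O.m, a ≠ b → F.ne a b = true ∧ F.ne b a = true
  s2 : ∀ i < F.P.n, F.P.l i < F.nl ∧ F.P'.l i < F.nl
  s3 : ∀ i < F.P.n, F.P'.real i = true → F.un i = true ∨
      (F.ne (F.P'.l i) (F.P'.l (F.P'.φ i)) = true ∧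
        (F.na (F.P'.l i) (F.P'.l (F.P'.φ i)) = true ∨ F.P'.l i < F.O.x ∨
          F.P'.l (F.P'.φ i) < F.O.x))
  s4 : ∀ i < F.P.n, ∀ j < i, F.P'.real i = true → F.P'.real j = true →
      F.ne (F.P'.l i) (F.P'.l j) = true ∨ F.ne (F.P'.l (F.P'.φ i)) (F.P'.l (F.P'.φ j)) = true ∨
      (F.un i = true ∧ F.un j = true)
  sl : ∀ a < F.O.m, ∀ b < F.O.m, F.O.sl a = 0 ∨ F.O.sl b = 0 ∨ a = b ∨ F.ne a b = true
  q1 : ∀ q < F.O.p, (F.ty q = 0 ∧ 3 ≤ F.pu q) ∨ F.ty q = 1 ∨ F.ty q = 3 ∨ F.ty q = 4 ∨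
    (F.ty q = 2 ∧ F.tj q < F.P.n ∧ F.tk q < F.P.n ∧ F.O.pc (F.tj q) = q ∧
      F.O.pc (F.tk q) = q ∧ F.P'.u (F.tj q) ≠ 0 ∧ F.P'.u (F.tk q) ≠ 0 ∧
      F.P'.l (F.tj q) < F.O.m ∧ F.P'.l (F.tk q) < F.O.m ∧
      F.ne (F.P'.l (F.tj q)) (F.P'.l (F.tk q)) = true ∧
      F.na (F.P'.l (F.tj q)) (F.P'.l (F.tk q)) = true ∧
      F.na (F.P'.l (F.tk q)) (F.P'.l (F.tj q)) = true ∧
      ∀ r < F.P.n, F.P'.real r = true →
        (F.ne (F.P'.l r) (F.P'.l (F.tj q)) = true ∨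
          F.ne (F.P'.l (F.P'.φ r)) (F.P'.l (F.tk q)) = true) ∧
        (F.ne (F.P'.l r) (F.P'.l (F.tk q)) = true ∨
          F.ne (F.P'.l (F.P'.φ r)) (F.P'.l (F.tj q)) = true))
  q2 : ∀ i < F.P.n, F.ty (F.O.pc i) = 1 →
    (us i = 0 ∨ ∃ e < F.P.n, F.uk e = true ∧ F.P.u e ≠ 0 ∧ F.kr e < F.P.n ∧
      F.oz (F.kr e) = true ∧ F.O.pc (F.kr e) = F.O.pc i) ∧ F.ou i = false ∧
    (F.P.α i ≠ i ∨ F.P.real i = true ∨ F.op i = true ∨ F.oz i = true)
  us : ∀ i < F.P.n, us i ≤ F.P'.u i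
  r : (∃ i < F.P.n, F.P'.real i = true) ∨
    sumN F.P.n (fun i => if F.P.real i then 1 else 0) < 20
  w : ∀ i < F.P.n, F.O.wt' i = if F.O.lb' i = true then 1 else 0

/-- the static conditions -/
structure Fc.ChkQ (F : Fc) (us : ℕ → ℕ) (Δ : ℕ) : Prop extends F.ChkW us Δ where
  cu : F.O.CutsQ F.P F.P' F.bg (fun c => F.O.rr F.P c + F.O.wr F.P c)

end Pool.FC7
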