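import Pool.Agent.FC7.VcE
import Pool.Agent.FC7.Qa

/-! # The relaxed condition for the cuts with vectors over all colourings -/

open Finset

set_option linter.unusedSectionVars false

namespace Pool.FC7

open Pool.FC6 Pool.FC6.St

namespace Vc

section

variable (C : CD) (O : OD) (P P' : Pa) (G : List (ℕ × ℕ × ℕ)) (D5 : List (List ℕ))
  (p5 : List (List ℕ × List (List (ℕ × ℕ × Bool)))) (k1 j : ℕ)

/-- the lanes in which the label of the dart has the colour 1 -/
noncomputable def xq (i : ℕ) : ℕ := K.lgetD (xt k1 j) (Nat.sub (P'.l i) O.lo) 0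

/-- units at labels of colour 0, if a label has the colour 1 -/
noncomputable def ut (u : List ℕ) : ℕ :=
  Nat.land (Nat.mul 65535 (lor (xq O P' k1 j) u))
    (Nat.sub (Nat.mul (lsm P'.u (fun _ => 1) u) (on (Nat.add k1 j))) (lsm P'.u (xq O P' k1 j) u))

/-- units at labels of colour 1, if a label has the colour 0 -/
noncomputable def uf (u : List ℕ) : ℕ :=
  Nat.land (Nat.mul 65535 (lor (fun i => Nat.sub (on (Nat.add k1 j)) (xq O P' k1 j i)) u))
    (lsm P'.u (xq O P' k1 j) u)

noncomputable def vUq : ℕ := Nat.mul 2 (vmin (Nat.mul 32768 (on (Nat.add k1 j)))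
  (lls (ut O P' k1 j) C.ul) (lls (uf O P' k1 j) C.ul))

noncomputable def vAq : ℕ :=
  Nat.add (lls (fun l => lsm (K.CD_wA O P) (cx P' (xt k1 j) O.lo) l) C.lv) (vUq C O P' k1 j)

noncomputable def vBq : ℕ :=
  Nat.add (lls (fun l => lsm (K.CD_wB O P) (cx P' (xt k1 j) O.lo) l) C.lv) (vUq C O P' k1 j)

noncomputable def vmainq : Bool :=
  Nat.beq (Nat.lor (geM (Nat.mul 32768 (on (Nat.add k1 j))) (vAq C O P P' k1 j)
      (Nat.mul 6 (on (Nat.add k1 j))))
    (geM (Nat.mul 32768 (on (Nat.add k1 j))) (vBq C O P P' k1 j) (nex O P G D5 p5 k1 j)))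
    (Nat.mul 32768 (on (Nat.add k1 j)))

end

/-- the check of the relaxed condition -/
noncomputable def vchkq (C : CD) (O : OD) (P P' : Pa) (G : List (ℕ × ℕ × ℕ)) (D5 : List (List ℕ))
    (p5 : List (List ℕ × List (List (ℕ × ℕ × Bool)))) : Bool :=
  K.band (vst C O P P') (K.band (Nat.ble O.lo O.x) (K.band (Nat.ble (Nat.succ O.x) O.m)
    (K.band (Nat.ble (tot C O P P') 16000) (K.band (Nat.ble P.n 10000)
      (K.band (Nat.ble (K.llen G) 1000) (K.band (K.lall D5 fun D => Nat.ble (K.llen D) 1000)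
        (K.band (K.lall C.ul fun u => K.lall u fun i => K.band (Nat.ble O.lo (P'.l i))
          (Nat.ble (Nat.succ (P'.l i)) O.m))
        (vmainq C O P P' G D5 p5 (Nat.pred (Nat.sub O.m O.x)) (Nat.sub O.x O.lo)))))))))

/-- one side of a piece -/
def oS (P' : Pa) (t : Bool) (c : ℕ) (l : List ℕ) : ℕ :=
  if (l.any fun i => c.testBit (P'.l i) == t) = true then CD.us P' (!t) c l else 0

/-- the smaller side -/
noncomputable def unq (P' : Pa) (c : ℕ) (ls : List (List ℕ)) : ℕ := min (lls (oS P' true c) ls) (lls (oS P' false c) ls)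

variable {C : CD} {O : OD} {P P' : Pa} {G : List (ℕ × ℕ × ℕ)} {D5 : List (List ℕ)}
  {p5 : List (List ℕ × List (List (ℕ × ℕ × Bool)))} {k1 j : ℕ}

theorem msk_land {n : ℕ} {β : ℕ → Bool} {f : ℕ → ℕ} (hf : ∀ L < n, f L < 65536) :
    Nat.land (Nat.mul 65535 (vec n fun L => if β L = true then 1 else 0)) (vec n f) =
      vec n fun L => if β L = true then f L else 0 := by
  have e1 : Nat.mul 65535 (vec n fun L => if β L = true then 1 else 0) =
      vec n fun L => if β L = true then 65535 else 0 := by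
    show 65535 * vec n _ = _
    rw [vec_mul]
    exact vec_congr fun L _ => by split_ifs <;> rfl
  rw [e1]
  change (vec n _) &&& (vec n _) = _
  rw [vec_and (fun L _ => by split_ifs <;> norm_num) hf]
  refine vec_congr fun L hL => ?_
  split_ifs
  · have h := hf L hL
    have e : (65535 : ℕ) = 2 ^ 16 - 1 := by norm_num
    rw [Nat.and_comm, e, Nat.and_two_pow_sub_one_eq_mod, Nat.mod_eq_of_lt (by omega)]
  · exact Nat.zero_and _

theorem xq_sem (i : ℕ) : xq O P' k1 j i = vec (2 ^ (k1 + j)) fun L =>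
    if bt k1 j (P'.l i - O.lo) L = true then 1 else 0 := by
  unfold xq
  rw [K.lgetD_eq, xt_sem]
  rfl

theorem xn_sem (i : ℕ) : Nat.sub (on (Nat.add k1 j)) (xq O P' k1 j i) = vec (2 ^ (k1 + j)) fun L =>
    if (!bt k1 j (P'.l i - O.lo) L) = true then 1 else 0 := by
  have e1 : on (Nat.add k1 j) = vec (2 ^ (k1 + j)) fun _ => 1 := on_eq _
  rw [e1, xq_sem]
  show (vec _ _) - (vec _ _) = _
  rw [vec_sub fun L _ => by split_ifs <;> omega]
  exact vec_congr fun L _ => by cases bt k1 j (P'.l i - O.lo) L <;> rfl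

theorem lx_sem (u : List ℕ) : lsm P'.u (xq O P' k1 j) u = vec (2 ^ (k1 + j)) fun L =>
    lsm P'.u (fun i => if bt k1 j (P'.l i - O.lo) L = true then 1 else 0) u :=
  lsm_sem (γ := fun i L => if bt k1 j (P'.l i - O.lo) L = true then 1 else 0) fun i _ => xq_sem i

theorem ut_sem {u : List ℕ} (hb : lsm P'.u (fun _ => 1) u < 32768) :
    ut O P' k1 j u = vec (2 ^ (k1 + j)) fun L =>
      if (u.any fun i => bt k1 j (P'.l i - O.lo) L) = true then lsm P'.u (fun _ => 1) u -
        lsm P'.u (fun i => if bt k1 j (P'.l i - O.lo) L = true then 1 else 0) u else 0 := by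
  have hle : ∀ L, lsm P'.u (fun i => if bt k1 j (P'.l i - O.lo) L = true then 1 else 0) u ≤
      lsm P'.u (fun _ => 1) u := fun L => lsm_le fun i _ => by split_ifs <;> omega
  unfold ut
  have e1 : lor (xq O P' k1 j) u = vec (2 ^ (k1 + j)) fun L =>
      if (u.any fun i => bt k1 j (P'.l i - O.lo) L) = true then 1 else 0 :=
    lor_sem (by norm_num) fun i _ => xq_sem i
  have e2 : Nat.sub (Nat.mul (lsm P'.u (fun _ => 1) u) (on (Nat.add k1 j)))
      (lsm P'.u (xq O P' k1 j) u) = vec (2 ^ (k1 + j)) fun L => lsm P'.u (fun _ => 1) u -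
          lsm P'.u (fun i => if bt k1 j (P'.l i - O.lo) L = true then 1 else 0) u := by
    show (lsm P'.u (fun _ => 1) u) * on (k1 + j) - _ = _
    rw [on_k, lx_sem, vec_sub fun L _ => hle L]
  rw [e1, e2]
  exact msk_land fun L _ => by
    have := hle L
    omega

theorem uf_sem {u : List ℕ} (hb : lsm P'.u (fun _ => 1) u < 32768) :
    uf O P' k1 j u = vec (2 ^ (k1 + j)) fun L =>
      if (u.any fun i => !bt k1 j (P'.l i - O.lo) L) = true then
        lsm P'.u (fun i => if bt k1 j (P'.l i - O.lo) L = true then 1 else 0) u else 0 := by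
  have hle : ∀ L, lsm P'.u (fun i => if bt k1 j (P'.l i - O.lo) L = true then 1 else 0) u ≤
      lsm P'.u (fun _ => 1) u := fun L => lsm_le fun i _ => by split_ifs <;> omega
  unfold uf
  have e1 : lor (fun i => Nat.sub (on (Nat.add k1 j)) (xq O P' k1 j i)) u =
      vec (2 ^ (k1 + j)) fun L =>
      if (u.any fun i => !bt k1 j (P'.l i - O.lo) L) = true then 1 else 0 :=
    lor_sem (by norm_num) fun i _ => xn_sem i
  rw [e1, lx_sem]
  exact msk_land fun L _ => by
    have := hle L
    omega

theorem lls_congr {α : Type} {g g' : α → ℕ} : ∀ {l : List α}, (∀ a ∈ l, g a = g' a) →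
    lls g l = lls g' l
  | [], _ => rfl
  | a :: l, h => by
    rw [lls_cons, lls_cons, h a (by simp), lls_congr fun b hb => h b (List.mem_cons_of_mem _ hb)]

theorem oS_le (t : Bool) (c : ℕ) (l : List ℕ) : oS P' t c l ≤ lsm P'.u (fun _ => 1) l := by
  have h := us_add (P' := P') (c := c) l
  unfold oS
  cases t
  · split_ifs
    · show CD.us P' true c l ≤ _
      omega
    · exact Nat.zero_le _
  · split_ifs
    · show CD.us P' false c l ≤ _
      omega
    · exact Nat.zero_le _

/-- one lane -/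
theorem lane_q {c L : ℕ} (hL : ∀ a, O.lo ≤ a → bt k1 j (a - O.lo) L = c.testBit a) {l : List ℕ}
    (h : ∀ i ∈ l, O.lo ≤ P'.l i) :
    (if (l.any fun i => bt k1 j (P'.l i - O.lo) L) = true then lsm P'.u (fun _ => 1) l -
        lsm P'.u (fun i => if bt k1 j (P'.l i - O.lo) L = true then 1 else 0) l else 0) =
      oS P' true c l ∧
    (if (l.any fun i => !bt k1 j (P'.l i - O.lo) L) = true then
        lsm P'.u (fun i => if bt k1 j (P'.l i - O.lo) L = true then 1 else 0) l else 0) =
      oS P' false c l := by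
  have e1 : (l.any fun i => bt k1 j (P'.l i - O.lo) L) = l.any fun i => c.testBit (P'.l i) == true := by
    induction l with
    | nil => rfl
    | cons i l ih =>
      rw [List.any_cons, List.any_cons, ih fun i hi => h i (List.mem_cons_of_mem _ hi),
        hL _ (h i (by simp))]
      congr 1
      cases c.testBit (P'.l i) <;> rfl
  have e2 : (l.any fun i => !bt k1 j (P'.l i - O.lo) L) = l.any fun i => c.testBit (P'.l i) == false := by
    clear e1
    induction l with
    | nil => rfl
    | cons i l ih =>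
      rw [List.any_cons, List.any_cons, ih fun i hi => h i (List.mem_cons_of_mem _ hi),
        hL _ (h i (by simp))]
      congr 1
      cases c.testBit (P'.l i) <;> rfl
  have e3 := us_true (O := O) (P' := P') (k1 := k1) (j := j) (c := c) (l := l)
    (fun i hi _ => h i hi) (L := L) hL
  have e4 := us_add (P' := P') (c := c) l
  rw [e1, e2, e3]
  unfold oS
  constructor
  · split_ifs
    · show _ = CD.us P' false c l
      omega
    · rfl
  · rfl

end Vc

end Pool.FC7
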