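import Pool.Agent.FC7.Qb

/-! # The relaxed condition for the cuts with vectors: soundness -/

open Finset

set_option linter.unusedSectionVars false

namespace Pool.FC7

open Pool.FC6 Pool.FC6.St

namespace Vc

variable {C : CD} {O : OD} {P P' : Pa} {G : List (ℕ × ℕ × ℕ)} {D5 : List (List ℕ)}
  {p5 : List (List ℕ × List (List (ℕ × ℕ × Bool)))} {k1 j : ℕ}

/-- the static part of the check -/
theorem vchkq_vst (h : vchkq C O P P' G D5 p5 = true) : vst C O P P' = true := by
  unfold vchkq at h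
  rw [K.band_eq, Bool.and_eq_true] at h
  exact h.1

/-- the check of the relaxed condition: all colourings -/
theorem vchkq_leaf (hs : O.stat P P' = true) (h : vchkq C O P P' G D5 p5 = true) {c : ℕ}
    (c1' : c < 2 ^ O.m) (c3' : c.testBit O.x = false) :
    6 ≤ CD.sm P' (CD.wA O P) c C.lv.flatten + 2 * unq P' c C.ul ∨
    ((c >>> O.x ≠ 0 ∨ c >>> O.lo = 0) ∧ ∃ ξ < 2 ^ O.x,
      (6 + FC6.OD.inS P (2 ^ O.x * (c >>> O.x) + ξ) ≤
        2 * bf5 [] 0 D5 p5 (2 ^ O.m - 1) (2 ^ O.x * (c >>> O.x) + ξ) +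
          (CD.sm P' (CD.wB O P) c C.lv.flatten + 2 * unq P' c C.ul) ∨
      6 ≤ gbn P O G (2 ^ O.x * (c >>> O.x) + ξ) +
        (CD.sm P' (CD.wB O P) c C.lv.flatten + 2 * unq P' c C.ul))) := by
  unfold vchkq at h
  simp only [K.band_eq, K.nble_eq, Bool.and_eq_true, decide_eq_true_eq, K.llen_eq, K.lall_eq,
    List.all_eq_true] at h
  obtain ⟨h1, h2, h3, h4, h5, h6, h6d, h6u, h7⟩ := h
  have h3 : O.x + 1 ≤ O.m := h3
  set k1 := Nat.pred (Nat.sub O.m O.x) with hk1
  set j := Nat.sub O.x O.lo with hj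
  have ek : O.m = k1 + O.x + 1 := by
    have : k1 = O.m - O.x - 1 := rfl
    omega
  have ej : j + O.lo = O.x := by
    have : j = O.x - O.lo := rfl
    omega
  have hst := h1
  unfold vst at hst
  simp only [K.band_eq, Bool.and_eq_true, K.nbeq_eq, K.llen_eq, K.CD_lvc_eq, decide_eq_true_eq,
    K.lall_eq, List.all_eq_true, K.nble_eq] at hst
  obtain ⟨⟨⟨⟨s1, s2⟩, -⟩, -⟩, s5⟩ := hst
  have hfl := CD.lvc_sound _ _ s2
  -- the vectors
  unfold vmainq at h7
  rw [K.nbeq_eq, decide_eq_true_eq] at h7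
  have eH : Nat.mul 32768 (on (Nat.add k1 j)) = vec (2 ^ (k1 + j)) fun _ => 32768 := on_k _ _
  have e6 : Nat.mul 6 (on (Nat.add k1 j)) = vec (2 ^ (k1 + j)) fun _ => 6 := on_k _ _
  have ht : lls (fun l => lsm (K.CD_wA O P) (fun _ => 1) l) C.lv +
      lls (fun l => lsm (K.CD_wB O P) (fun _ => 1) l) C.lv +
      2 * lls (fun l => lsm P'.u (fun _ => 1) l) C.ul ≤ 16000 := h4
  have hW : ∀ wg : ℕ → ℕ, ∀ L, lls (fun l => lsm wg (fun i => cl P' k1 j O.lo i L) l) C.lv ≤
      lls (fun l => lsm wg (fun _ => 1) l) C.lv := fun wg L =>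
    lls_le fun l _ => lsm_le fun i _ => cl_le
  let f1 : ℕ → List ℕ → ℕ := fun L u =>
    if (u.any fun i => bt k1 j (P'.l i - O.lo) L) = true then lsm P'.u (fun _ => 1) u -
        lsm P'.u (fun i => if bt k1 j (P'.l i - O.lo) L = true then 1 else 0) u else 0
  let f0 : ℕ → List ℕ → ℕ := fun L u =>
    if (u.any fun i => !bt k1 j (P'.l i - O.lo) L) = true then
        lsm P'.u (fun i => if bt k1 j (P'.l i - O.lo) L = true then 1 else 0) u else 0
  have hle : ∀ (L : ℕ) (u : List ℕ), lsm P'.u (fun i => if bt k1 j (P'.l i - O.lo) L = true then 1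
      else 0) u ≤ lsm P'.u (fun _ => 1) u := fun L u => lsm_le fun i _ => by split_ifs <;> omega
  have hU1 : ∀ L, lls (f1 L) C.ul ≤ lls (fun l => lsm P'.u (fun _ => 1) l) C.ul := fun L =>
    lls_le fun l _ => by
      show (if _ then _ else _) ≤ _
      split_ifs
      · exact Nat.sub_le _ _
      · exact Nat.zero_le _
  have hU0 : ∀ L, lls (f0 L) C.ul ≤ lls (fun l => lsm P'.u (fun _ => 1) l) C.ul := fun L =>
    lls_le fun l _ => by
      show (if _ then _ else _) ≤ _
      split_ifs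
      · exact hle L l
      · exact Nat.zero_le _
  have hU : ∀ L, min (lls (f1 L) C.ul) (lls (f0 L) C.ul) ≤
      lls (fun l => lsm P'.u (fun _ => 1) l) C.ul := fun L => (min_le_left _ _).trans (hU1 L)
  have eU : vUq C O P' k1 j = vec (2 ^ (k1 + j)) fun L => 2 * min (lls (f1 L) C.ul)
      (lls (f0 L) C.ul) := by
    have hub : ∀ u ∈ C.ul, lsm P'.u (fun _ => 1) u < 32768 := by
      intro u hu
      have := lls_mem (g := fun l => lsm P'.u (fun _ => 1) l) hu
      omega
    unfold vUq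
    rw [lls_sem (γ := fun u L => f1 L u) fun u hu => ut_sem (hub u hu),
      lls_sem (γ := fun u L => f0 L u) fun u hu => uf_sem (hub u hu)]
    show 2 * vmin (32768 * on (k1 + j)) _ _ = _
    rw [on_k, vmin_eq (fun L _ => lt_of_le_of_lt (hU1 L) (by omega))
      (fun L _ => lt_of_le_of_lt (hU0 L) (by omega))]
    exact vec_mul _ _ _
  have eV : ∀ wg : ℕ → ℕ, Nat.add (lls (fun l => lsm wg (cx P' (xt k1 j) O.lo) l) C.lv)
      (vUq C O P' k1 j) = vec (2 ^ (k1 + j)) fun L =>
        lls (fun l => lsm wg (fun i => cl P' k1 j O.lo i L) l) C.lv + 2 * min (lls (f1 L) C.ul)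
          (lls (f0 L) C.ul) := by
    intro wg
    rw [eU, lls_sem (γ := fun l L => lsm wg (fun i => cl P' k1 j O.lo i L) l)]
    · exact vec_add _ _ _
    · intro l _
      exact lsm_sem (γ := fun i L => cl P' k1 j O.lo i L) fun i _ => cx_sem _ _ _ _ _
  obtain ⟨g, g1, g2, g3⟩ := nex_sem (j := j) (O := O) (P := P) (G := G) (k1 := k1) (p5 := p5)
    (by omega) h6 h6d
  have bA := hW (K.CD_wA O P)
  have bB := hW (K.CD_wB O P)
  have hlt : ∀ L < 2 ^ (k1 + j), (if L = 0 then g 0 else g (L % 2 ^ k1) +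
      if L % 2 ^ k1 = 0 then 16384 else 0) < 32768 := by
    intro L _
    have a1 := g1 (L % 2 ^ k1) (Nat.mod_lt _ (by positivity))
    have a2 := g1 0 (by positivity)
    split_ifs <;> omega
  unfold vAq vBq at h7
  rw [eV, eV, g3, eH, e6, geM_eq (fun L _ => by have := bA L; have := hU L; omega)
    (fun _ _ => by norm_num), geM_eq (fun L _ => by have := bB L; have := hU L; omega) hlt] at h7
  change (vec (2 ^ (k1 + j)) _) ||| (vec (2 ^ (k1 + j)) _) = _ at h7
  rw [vec_or (fun L _ => by split_ifs <;> norm_num) (fun L _ => by split_ifs <;> norm_num)] at h7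
  have key := vec_inj (fun L _ => Nat.or_lt_two_pow (n := 16) (by split_ifs <;> norm_num)
    (by split_ifs <;> norm_num)) (fun _ _ => by norm_num) h7
  obtain ⟨L, l1, l2⟩ := lane_of ek ej c1' c3'
  have hk := key L l1
  have hdart : ∀ i ∈ C.lv.flatten, cl P' k1 j O.lo i L = if OD.crs P' c i = true then 1 else 0 := by
    intro i hi
    obtain ⟨a1, a2⟩ := hfl i hi
    have a3 := (OD.stat1 hs a1).r' a2
    exact cl_crs l2 a3.1 a3.2.2.1
  have hsm : ∀ wg : ℕ → ℕ, lls (fun l => lsm wg (fun i => cl P' k1 j O.lo i L) l) C.lv =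
      CD.sm P' wg c C.lv.flatten := by
    intro wg
    rw [← lls_flat]
    have : ∀ ls : List (List ℕ), (∀ l ∈ ls, ∀ i ∈ l, i ∈ C.lv.flatten) →
        lls (fun l => lsm wg (fun i => cl P' k1 j O.lo i L) l) ls =
          lls (fun l => CD.sm P' wg c l) ls := by
      intro ls
      induction ls with
      | nil => intro _; rfl
      | cons l ls ih =>
        intro hls
        rw [lls_cons, lls_cons, ih fun l' hl' => hls l' (List.mem_cons_of_mem _ hl'),
          lsm_eq fun i hi => hdart i (hls l (by simp) i hi)]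
    exact this C.lv fun l hl i hi => List.mem_flatten.2 ⟨l, hl, hi⟩
  have hun : min (lls (f1 L) C.ul) (lls (f0 L) C.ul) = unq P' c C.ul := by
    have a1 : lls (f1 L) C.ul = lls (oS P' true c) C.ul :=
      lls_congr fun l hl => (lane_q l2 fun i hi => (h6u l hl i hi).1).1
    have a2 : lls (f0 L) C.ul = lls (oS P' false c) C.ul :=
      lls_congr fun l hl => (lane_q l2 fun i hi => (h6u l hl i hi).1).2
    rw [a1, a2, unq]
  rw [hsm, hsm, hun, K.CD_wA_eq, K.CD_wB_eq] at hk
  by_cases hA : 6 ≤ CD.sm P' (CD.wA O P) c C.lv.flatten + 2 * unq P' c C.ul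
  · exact Or.inl hA
  right
  rw [if_neg hA, Nat.zero_or] at hk
  have hB : (if L = 0 then g 0 else g (L % 2 ^ k1) + if L % 2 ^ k1 = 0 then 16384 else 0) ≤
      CD.sm P' (CD.wB O P) c C.lv.flatten + 2 * unq P' c C.ul := by
    by_contra hcon
    rw [if_neg hcon] at hk
    norm_num at hk
  have hBlt : CD.sm P' (CD.wB O P) c C.lv.flatten + 2 * unq P' c C.ul < 16384 := by
    have a1 := bB L
    have a2 := hU L
    rw [hsm, K.CD_wB_eq] at a1
    rw [hun] at a2
    rw [K.CD_wB_eq] at ht
    omega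
  have hout : g (L % 2 ^ k1) ≤ CD.sm P' (CD.wB O P) c C.lv.flatten + 2 * unq P' c C.ul := by
    split_ifs at hB with q1 q2
    · rw [q1, Nat.zero_mod]; exact hB
    · omega
    · omega
  constructor
  · -- the outer part
    by_contra hcon
    push Not at hcon
    obtain ⟨d1, d2⟩ := hcon
    -- all outer bits are 0
    have hz : L % 2 ^ k1 = 0 := by
      apply Nat.eq_of_testBit_eq
      intro t
      rw [Nat.testBit_mod_two_pow, Nat.zero_testBit]
      by_cases ht : t < k1
      · rw [decide_eq_true ht, Bool.true_and]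
        have h9 := l2 (O.m - 1 - t) (by omega)
        have h10 : c.testBit (O.m - 1 - t) = false := by
          have : (c >>> O.x).testBit (O.m - 1 - t - O.x) = false := by rw [d1, Nat.zero_testBit]
          have e : O.x + (O.m - 1 - t - O.x) = O.m - 1 - t := by omega
          rw [Nat.testBit_shiftRight, e] at this
          exact this
        rw [h10] at h9
        unfold bt at h9
        rw [if_neg (by omega), decide_eq_true (by omega : j < O.m - 1 - t - O.lo),
          decide_eq_true (by omega : O.m - 1 - t - O.lo ≤ j + k1), Bool.true_and, Bool.true_and,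
          Nat.testBit_mod_two_pow] at h9
        have e9 : k1 + j - (O.m - 1 - t - O.lo) = t := by omega
        rw [e9, decide_eq_true ht, Bool.true_and] at h9
        exact h9
      · rw [decide_eq_false ht, Bool.false_and]
    split_ifs at hB with q1 q2
    · -- `L = 0`
      apply d2
      apply Nat.eq_of_testBit_eq
      intro t
      rw [Nat.testBit_shiftRight, Nat.zero_testBit, ← l2 (O.lo + t) (by omega), q1]
      unfold bt
      split_ifs
      · exact Nat.zero_testBit _
      · rw [Nat.zero_mod, Nat.zero_testBit, Bool.and_false]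
    · omega
  · -- an inner colouring
    obtain ⟨q, q1, q2⟩ := g2 (L % 2 ^ k1) (Nat.mod_lt _ (by positivity))
    have hmod : (L % 2 ^ k1 + 2 ^ k1 * q) % 2 ^ k1 = L % 2 ^ k1 := by
      rw [Nat.add_mul_mod_self_left, Nat.mod_mod]
    obtain ⟨ξ, x1, -, x3⟩ := lane_xi ek ej c3' l2 hmod
    rw [q2] at hout
    unfold nl at hout
    rw [inS_lane x3, rr_lane x3] at hout
    have e5 : (fun a => bt k1 O.x a (L % 2 ^ k1 + 2 ^ k1 * q)) =
        (2 ^ O.x * (c >>> O.x) + ξ).testBit := funext x3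
    rw [e5] at hout
    refine ⟨ξ, x1, ?_⟩
    have first : FC6.OD.inS P (2 ^ O.x * (c >>> O.x) + ξ) -
        2 * (1 + bl5 D5 p5 (2 ^ O.x * (c >>> O.x) + ξ).testBit) ≤
        CD.sm P' (CD.wB O P) c C.lv.flatten + 2 * unq P' c C.ul →
        6 + FC6.OD.inS P (2 ^ O.x * (c >>> O.x) + ξ) ≤
          2 * bf5 [] 0 D5 p5 (2 ^ O.m - 1) (2 ^ O.x * (c >>> O.x) + ξ) +
            (CD.sm P' (CD.wB O P) c C.lv.flatten + 2 * unq P' c C.ul) := by
      intro h9
      rw [bf5_eq]
      unfold bl5 at h9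
      by_cases h10 : (2 ^ O.x * (c >>> O.x) + ξ) &&& (2 ^ O.m - 1) = 0 ∨
          (2 ^ O.x * (c >>> O.x) + ξ) &&& (2 ^ O.m - 1) = 2 ^ O.m - 1
      · rw [if_pos h10, inS_mono (fun i hi hr => (OD.stat1 hs hi).r hr) h10]
        omega
      · rw [if_neg h10]
        split_ifs at h9 ⊢ with h11
        · omega
        · omega
    have second : 6 - gbl (O.rr P (2 ^ O.x * (c >>> O.x) + ξ))
          (lls (fun p => gl P O.x k1 p (L % 2 ^ k1 + 2 ^ k1 * q)) G) ≤
        CD.sm P' (CD.wB O P) c C.lv.flatten + 2 * unq P' c C.ul →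
        6 ≤ gbn P O G (2 ^ O.x * (c >>> O.x) + ξ) +
            (CD.sm P' (CD.wB O P) c C.lv.flatten + 2 * unq P' c C.ul) := by
      intro h9
      have := gbl_le (P := P) (G := G) x3
      omega
    split_ifs at hout with h11
    · exact Or.inl (first hout)
    · rcases min_le_iff.1 hout with h12 | h12
      · exact Or.inl (first h12)
      · exact Or.inr (second h12)

end Vc

end Pool.FC7
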