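import Pool.Agent.FC7.Qc

/-! # The relaxed condition for the cuts from the vector check -/

open Finset

set_option linter.unusedSectionVars false

namespace Pool.FC7

open Pool.FC6 Pool.FC6.St

namespace Vc

variable {C : CD} {O : OD} {P P' : Pa} {G : List (ℕ × ℕ × ℕ)} {D5 : List (List ℕ)}
  {p5 : List (List ℕ × List (List (ℕ × ℕ × Bool)))} {k1 j : ℕ}

theorem unq_le {c : ℕ} {ls : List (List ℕ)} (t : Bool) : unq P' c ls ≤ lls (oS P' t c) ls := by
  unfold unq
  cases t
  · exact min_le_right _ _
  · exact min_le_left _ _

theorem oS_sum (t : Bool) (c : ℕ) : ∀ (ls : List (List ℕ)),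
    (∀ l ∈ ls, ∀ i ∈ l, i < P.n ∧ (O.lo ≤ P'.l i ∧ P'.l i < O.m) ∧ ∀ j ∈ l, O.pc i = O.pc j) →
    lls (oS P' t c) ls ≤ (ls.flatten.map fun i => if (O.hsc P P' c t (O.pc i) &&
      (c.testBit (P'.l i) != t)) = true then P'.u i else 0).sum := by
  intro ls
  induction ls with
  | nil => intro _; exact Nat.zero_le _
  | cons l ls ih =>
    intro h
    rw [List.flatten_cons, List.map_append, List.sum_append, lls_cons]
    refine Nat.add_le_add ?_ (ih fun l' hl' => h l' (List.mem_cons_of_mem _ hl'))
    unfold oS
    split_ifs with h1
    · rw [List.any_eq_true] at h1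
      obtain ⟨k, hk, h2⟩ := h1
      rw [beq_iff_eq] at h2
      obtain ⟨k1, ⟨k2, k3⟩, k4⟩ := h l (by simp) k hk
      rw [CD.us_eq]
      refine List.sum_le_sum fun i hi => ?_
      have h3 : O.hsc P P' c t (O.pc i) = true := by
        unfold OD.hsc
        rw [Bool.not_eq_true', Bool.eq_false_iff]
        intro h4
        rw [allN_iff] at h4
        have h5 := h4 k k1
        rw [decide_eq_true (k4 i hi), decide_eq_true k2, decide_eq_true k3, h2] at h5
        simp at h5
      rw [h3, Bool.true_and]
      cases c.testBit (P'.l i) <;> cases t <;> simp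
    · exact Nat.zero_le _

/-- THE RELAXED CONDITION -/
theorem vchkq_cuts (G' : P'.Good) (hn : P'.n = P.n) (hα : ∀ i < P.n, P'.α i = P.α i)
    (hs : O.stat P P' = true) (h : vchkq C O P P' G D5 p5 = true) :
    O.CutsQ P P' (fun c => max (bf5 [] 0 D5 p5 (2 ^ O.m - 1) c)
      ((FC6.OD.inS P c + gbn P O G c + 1) / 2)) (fun c => O.rr P c + O.wr P c) := by
  have hst := vchkq_vst h
  have hul : ∀ l ∈ C.ul, ∀ i ∈ l, O.lo ≤ P'.l i ∧ P'.l i < O.m := by
    unfold vchkq at h
    simp only [K.band_eq, K.nble_eq, Bool.and_eq_true, decide_eq_true_eq, K.llen_eq, K.lall_eq,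
      List.all_eq_true] at h
    exact h.2.2.2.2.2.2.2.1
  unfold vst at hst
  simp only [K.band_eq, Bool.and_eq_true, K.nbeq_eq, K.llen_eq, K.CD_lvc_eq, decide_eq_true_eq,
    K.lall_eq, List.all_eq_true, K.nble_eq, K.nd_eq, K.lapp_eq, K.lflat_eq, K.lmap_eq,
    K.lfilter_eq, K.bnot_eq] at hst
  obtain ⟨⟨⟨⟨h1, h2⟩, h3⟩, h4⟩, h5⟩ := hst
  have h1 : C.lv.length = O.m - O.lo := h1
  have h3 : nd 0 (C.lv.flatten ++ (C.lv.flatten.filter fun i => decide (P.α i ≠ i)).map P.α) =
      true := by
    simp only [ne_eq, decide_not]
    exact h3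
  have hfl := CD.lvc_sound _ _ h2
  have hnd := (nd_sound _ _ h3).1
  have hnu := (nd_sound _ _ h4).1
  have s3 := OD.stat3 hs
  intro r hr hr0 q hq t
  set c := 2 ^ O.lo * (2 ^ (O.x - O.lo) * r + q) with hc
  have hlen' : c < 2 ^ (O.lo + C.lv.length) := by
    rw [h1, pow_add]
    refine Nat.mul_lt_mul_of_pos_left ?_ (by positivity)
    have e : O.m - O.lo = (O.x - O.lo) + (O.m - O.x) := by omega
    rw [e, pow_add]
    calc 2 ^ (O.x - O.lo) * r + q < 2 ^ (O.x - O.lo) * r + 2 ^ (O.x - O.lo) := by omega
      _ = 2 ^ (O.x - O.lo) * (r + 1) := by ring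
      _ ≤ _ := Nat.mul_le_mul_left _ hr
  have cbit : ∀ a, c.testBit a = if a < O.lo then false else
      if a < O.x then q.testBit (a - O.lo) else r.testBit (a - O.x) := by
    intro a
    have := Nat.testBit_two_pow_mul_add (2 ^ (O.x - O.lo) * r + q) (b := 0) (i := O.lo)
      (by positivity) a
    rw [add_zero] at this
    rw [hc, this, Nat.testBit_two_pow_mul_add _ hq, Nat.zero_testBit]
    by_cases c1 : a < O.lo
    · rw [if_pos c1, if_pos c1]
    · rw [if_neg c1, if_neg c1]
      by_cases c2 : a < O.x
      · rw [if_pos c2, if_pos (by omega)]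
      · rw [if_neg c2, if_neg (by omega)]
        congr 1; omega
  have hcx : c.testBit O.x = false := by
    rw [cbit, if_neg (by omega), if_neg (by omega), Nat.sub_self]
    exact hr0
  have hcr : c >>> O.x = r := by
    apply Nat.eq_of_testBit_eq
    intro b
    rw [Nat.testBit_shiftRight, cbit, if_neg (by omega), if_neg (by omega)]
    congr 1; omega
  have hlen : c < 2 ^ O.m := by
    rw [h1, Nat.add_sub_cancel' (by omega)] at hlen'
    exact hlen'
  have key := vchkq_leaf hs h hlen hcx
  -- the sums
  let Gf : ℕ → ℕ := fun i => if P'.real i && OD.crs P' c i then 1 + O.wt' i else 0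
  have hin : O.inQ P P' c t = (∑ i ∈ Finset.range P.n, Gf i) + 2 * O.oneS P P' c t := by
    unfold OD.inQ
    rw [sumN_eq]
  have hU : unq P' c C.ul ≤ O.oneS P P' c t := by
    refine le_trans (unq_le t) ?_
    unfold OD.oneS
    rw [sumN_eq]
    refine le_trans (oS_sum (O := O) (P := P) t c C.ul fun l hl i hi => ⟨(h5 l hl i hi).1, hul l hl i hi,
      fun j hj => (h5 l hl i hi).2 j hj⟩) ?_
    refine list_le_sum hnu (fun i hi => ?_) _
    obtain ⟨l, hl, hil⟩ := List.mem_flatten.1 hi
    exact (h5 l hl i hil).1
  have hB : CD.sm P' (CD.wB O P) c C.lv.flatten ≤ ∑ i ∈ Finset.range P.n, Gf i := by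
    have e1 := list_le_sum (n := P.n) hnd (fun i hi => by
      rw [List.mem_append, List.mem_map] at hi
      rcases hi with hi | ⟨j, hj, rfl⟩
      · exact (hfl i hi).1
      · have := (hfl j (List.mem_filter.1 hj).1).1
        have := G'.αlt j (by rw [hn]; exact this)
        rw [hn, hα j (hfl j (List.mem_filter.1 hj).1).1] at this
        exact this) Gf
    refine le_trans ?_ e1
    rw [List.map_append, List.sum_append, CD.sm_eq]
    -- induction on the list
    have ind : ∀ T : List ℕ, (∀ i ∈ T, i < P.n ∧ P'.real i = true) →
        (T.map fun i => if OD.crs P' c i then CD.wB O P i else 0).sum ≤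
        (T.map Gf).sum + (((T.filter fun i => decide (P.α i ≠ i)).map P.α).map Gf).sum := by
      intro T
      induction T with
      | nil => intro _; simp
      | cons i T ih =>
        intro hT
        have ih' := ih fun j hj => hT j (List.mem_cons_of_mem _ hj)
        obtain ⟨hi, hr⟩ := hT i (by simp)
        have s1 := OD.stat1 hs hi
        rw [List.map_cons, List.sum_cons, List.map_cons, List.sum_cons]
        by_cases ha : P.α i = i
        · rw [List.filter_cons_of_neg (by simp [ha])]
          have : (if OD.crs P' c i then CD.wB O P i else 0) ≤ Gf i := by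
            simp only [Gf, hr, Bool.true_and]
            unfold CD.wB
            rw [if_pos ha]
          omega
        · rw [List.filter_cons_of_pos (by simpa using ha), List.map_cons, List.map_cons,
            List.sum_cons]
          have e2 : Gf (P.α i) = Gf i := by
            have hi' : i < P'.n := by rw [hn]; exact hi
            have k1 := G'.lφ i hi' (by rw [hα i hi]; exact ha)
            have hai := G'.αlt i hi'
            rw [hα i hi] at hai k1
            have k2 := G'.αα i hi'
            have hai' : P.α i < P.n := by rw [← hn]; exact hai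
            rw [hα i hi, hα _ hai'] at k2
            have k3 := G'.lφ (P.α i) hai (by
              rw [hα _ hai', k2]
              exact fun h => ha h.symm)
            rw [hα _ hai', k2] at k3
            simp only [Gf]
            rw [s1.rα, s1.wα]
            congr 2
            unfold OD.crs
            rw [k3, ← k1]
            cases c.testBit (P'.l (P'.φ i)) <;> cases c.testBit (P'.l i) <;> rfl
          have : (if OD.crs P' c i then CD.wB O P i else 0) ≤ Gf i + Gf (P.α i) := by
            rw [e2]
            simp only [Gf, hr, Bool.true_and]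
            unfold CD.wB
            rw [if_neg ha]
            split_ifs <;> omega
          omega
    exact ind _ hfl
  have hA : CD.sm P' (CD.wA O P) c C.lv.flatten ≤ CD.sm P' (CD.wB O P) c C.lv.flatten +
      (O.rr P c + O.wr P c) := by
    let H : ℕ → ℕ := fun i => if O.rg P i && P.real i && OD.crs P c i then 1 + O.wt' i else 0
    have e1 : O.rr P c + O.wr P c = ∑ i ∈ Finset.range P.n, H i := by
      unfold OD.rr OD.wr
      rw [sumN_eq, sumN_eq, ← Finset.sum_add_distrib]
      refine Finset.sum_congr rfl fun i _ => ?_
      simp only [H]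
      split_ifs <;> omega
    rw [e1]
    have hnf : C.lv.flatten.Nodup := (List.nodup_append.1 hnd).1
    refine le_trans ?_ (Nat.add_le_add_left (list_le_sum hnf (fun i hi => (hfl i hi).1) H) _)
    rw [CD.sm_eq, CD.sm_eq]
    have ind : ∀ T : List ℕ, (∀ i ∈ T, i < P.n ∧ P'.real i = true) →
        (T.map fun i => if OD.crs P' c i then CD.wA O P i else 0).sum ≤
        (T.map fun i => if OD.crs P' c i then CD.wB O P i else 0).sum + (T.map H).sum := by
      intro T
      induction T with
      | nil => intro _; simp
      | cons i T ih =>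
        intro hT
        have ih' := ih fun j hj => hT j (List.mem_cons_of_mem _ hj)
        obtain ⟨hi, hr⟩ := hT i (by simp)
        have s1 := OD.stat1 hs hi
        rw [List.map_cons, List.sum_cons, List.map_cons, List.sum_cons, List.map_cons,
          List.sum_cons]
        have : (if OD.crs P' c i then CD.wA O P i else 0) ≤
            (if OD.crs P' c i then CD.wB O P i else 0) + H i := by
          by_cases hcr : OD.crs P' c i = true
          · rw [if_pos hcr, if_pos hcr]
            unfold CD.wA CD.wB
            by_cases ha : P.α i = i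
            · rw [if_pos ha, if_pos ha]
              by_cases hro : O.ro i = true
              · have r1 := s1.ring ha
                have e3 : H i = 1 + O.wt' i := by
                  simp only [H]
                  have e4 : O.rg P i = true := by
                    unfold OD.rg
                    rw [decide_eq_true ha, hro]; rfl
                  have e5 : OD.crs P c i = true := by
                    unfold OD.crs at hcr ⊢
                    rw [← r1.2.1, ← r1.2.2.1]; exact hcr
                  rw [e4, ← r1.1, hr, e5]
                  rfl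
                rw [if_pos hro, e3]
                omega
              · rw [if_neg hro]; omega
            · rw [if_neg ha, if_neg ha]; omega
          · rw [if_neg hcr]; exact Nat.zero_le _
        omega
    exact ind _ hfl
  rw [hin]
  rw [hcr] at key
  rcases key with key | ⟨k1, ξ, hξ, k2⟩
  · left
    beta_reduce
    omega
  · right
    refine ⟨⟨ξ, hξ, ?_⟩, ?_⟩
    · beta_reduce
      rcases k2 with k2 | k2
      · have := le_max_left (bf5 [] 0 D5 p5 (2 ^ O.m - 1) (2 ^ O.x * r + ξ))
          ((FC6.OD.inS P (2 ^ O.x * r + ξ) + gbn P O G (2 ^ O.x * r + ξ) + 1) / 2)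
        omega
      · have := le_max_right (bf5 [] 0 D5 p5 (2 ^ O.m - 1) (2 ^ O.x * r + ξ))
          ((FC6.OD.inS P (2 ^ O.x * r + ξ) + gbn P O G (2 ^ O.x * r + ξ) + 1) / 2)
        omega
    · rcases k1 with k1 | k1
      · exact Or.inl k1
      · right
        apply Nat.eq_of_testBit_eq
        intro b
        rw [Nat.zero_testBit]
        by_cases hb : b < O.x - O.lo
        · have e := cbit (O.lo + b)
          rw [if_neg (by omega), if_pos (by omega)] at e
          have e2 : (c >>> O.lo).testBit b = false := by rw [k1, Nat.zero_testBit]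
          rw [Nat.testBit_shiftRight, e] at e2
          rw [← e2]
          congr 1; omega
        · exact Nat.testBit_lt_two_pow (lt_of_lt_of_le hq (Nat.pow_le_pow_right (by omega)
            (by omega)))

end Vc

end Pool.FC7
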