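import Pool.Agent.FC7.Rly
import Pool.Agent.FC7.Qa

/-! # Relaxed condition for the cuts: the reduction -/

open Finset

set_option linter.unusedSectionVars false

namespace Pool.FC7

open Pool.FC6 Pool.FC6.St

variable {D V : Type} [Fintype D] [DecidableEq V]

namespace RH

variable {Δ : ℕ} {S S' : St D V} {L L' : D → Bool} {w w' : D → ℕ} {P P' : Pa} {f : ℕ → D}
  {g : ℕ → V} {X : OD}

variable (h : RH Δ S S' L L' w w' P P' f g X)

include h

/-- the faces with units are strong, except the weak units of the patch -/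
theorem thrQ {us : ℕ → ℕ} (ht : ∀ d, S.u d ≠ 0 → 3 ≤ fu S d ∨ Two S d)
    (hq : ∀ i < P.n, 3 ≤ fu S' (f i) ∨ Two S' (f i) ∨ (us i = 0 ∧
      (P.α i = i → P.real i = false → ∀ d, S.sc.r (f i) d → S.u d = 0)))
    (d : D) (hd : S'.u d ≠ 0) : Str S' d ∨ ∃ j < P.n, f j = d ∧ us j = 0 := by
  by_cases hT : h.Tch d
  · obtain ⟨i, hi, hs⟩ := hT
    have tr : ∀ j < P.n, S'.sc.r d (f j) → (3 ≤ fu S' (f j) ∨ Two S' (f j)) → Str S' d := by
      intro j _ h1 h2
      rcases h2 with h2 | h2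
      · left; rw [fu_congr h1]; exact h2
      · right; exact h2.congr (S'.sc.iseqv.symm h1)
    by_cases ho : ∀ j < P.n, f j ≠ d
    · obtain ⟨j, hj, a1, a2, a3, a4⟩ := h.class_out hi ho (S'.sc.iseqv.symm hs)
      rcases hq j hj with h1 | h1 | ⟨_, h1⟩
      · exact Or.inl (tr j hj (S'.sc.iseqv.trans hs a4) (Or.inl h1))
      · exact Or.inl (tr j hj (S'.sc.iseqv.trans hs a4) (Or.inr h1))
      · exact absurd (h1 a1 a2 d a3) (by rw [← h.rep.uo d ho]; exact hd)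
    · push Not at ho
      obtain ⟨j, hj, rfl⟩ := ho
      rcases hq j hj with h1 | h1 | ⟨h1, _⟩
      · exact Or.inl (Or.inl h1)
      · exact Or.inl (Or.inr h1)
      · exact Or.inr ⟨j, hj, rfl, h1⟩
  · have ho := h.out_of_un hT (S'.sc.iseqv.refl d)
    rw [h.rep.uo d ho] at hd
    rcases ht d hd with h1 | h1
    · left; left; rw [h.fu_un hT]; exact h1
    · left; right; exact h.two_un hT h1

end RH

/-- THE REDUCTION THEOREM, relaxed condition for the cuts -/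
theorem redQ {Δ : ℕ} {S : St D V} {L : D → Bool} {w : D → ℕ} (ok : Ok Δ S L w) (w1 : W1 L w)
    (no : ¬ ∃ c, Sol S L c) {P P' : Pa} {f : ℕ → D} {g : ℕ → V}
    (e : Em P S f g) (hP : P.good = true) (hP' : P'.good = true) {fl : List ℕ}
    (hfl : Pa.flips P' P fl = true) (X : XE) (hX : X.Ck P P') (O : OD)
    (hs : O.stat P P' = true) {us : ℕ → ℕ} (hus : ∀ i < P.n, us i ≤ P'.u i)
    {la : List ℕ} {ou lu : ℕ → Bool} (hdj : djs X O P { P' with u := us } la ou lu = true)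
    (hlu : ∀ i ∈ X.rs, lu i = true → L (f i) = true → i ∈ X.kd ∧ O.lb' i = true ∧
      (OU P f (S.M.α (f i)) ∨ ∃ j ∈ X.kd, f j = S.M.α (f i)))
    (c1 : X.x = O.x) (c2 : X.x + X.k = O.m) (c3 : O.Δ = Δ) (c4 : X.lo = O.lo)
    (c5 : ∀ m, m.testBit O.x = false → X.flt m = true) (c6 : O.x < O.m)
    (hstar : ∀ a < O.x, ∀ d, S.M.v d = g a → ∃ i < P.n, f i = d)
    (hgA : ∀ a, O.x ≤ a → a < O.m → g a ∈ S.A)
    (hgF : ∀ i < P.n, O.m ≤ P.l i → g (P.l i) ∈ S.A → ∃ d, (∀ j < P.n, f j ≠ d) ∧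
      S.M.v d = g (P.l i))
    (hgF' : ∀ i < P.n, O.m ≤ P'.l i → g (P'.l i) ∈ S.A → ∃ d, (∀ j < P.n, f j ≠ d) ∧
      S.M.v d = g (P'.l i))
    (hgf : ∀ i < P.n, O.m ≤ P'.l i → ∀ a < O.m, g a ≠ g (P'.l i))
    (hgd : ∀ a < O.x, ∀ b, O.x ≤ b → b < O.m → g b ≠ g a)
    (hgd' : ∀ a < O.x, ∀ i < P.n, P.l i ≠ a → g (P.l i) ≠ g a)
    (hgi : ∀ a < O.x, ∀ b < O.x, g a = g b → a = b)
    (hla : ∀ a < O.x, g a ∈ S.A ↔ a ∈ la)
    (hu : ∀ i < P.n, S.u (f i) = P.u i) (hLb : ∀ i < P.n, L (f i) = O.lb i)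
    (hw : ∀ i < P.n, w (f i) = O.wt i)
    (hw1 : ∀ i < P.n, O.wt' i = if O.lb' i = true then 1 else 0)
    (hro : ∀ i < P.n, O.rg P i = true → ∀ j < P.n, f j ≠ S.M.α (f i))
    (hsl : ∀ y ∈ S.A, (∑ d, if S.M.v d = y then (if S.real d = true then 1 else 0) + S.u d + w d
      else 0) + ∑ a ∈ (Finset.range O.m).filter (fun a => O.x ≤ a ∧ g a = y), O.sl a ≤ Δ)
    (hne : ∀ i < P.n, P'.real i = true → g (P'.l i) ≠ g (P'.l (P'.φ i)))
    (hsi : ∀ i < P.n, ∀ j < P.n, P'.real i = true → P'.real j = true → g (P'.l i) = g (P'.l j) →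
      g (P'.l (P'.φ i)) = g (P'.l (P'.φ j)) → i = j)
    (hso : ∀ i < P.n, P'.real i = true → ∀ e, (∀ j < P.n, f j ≠ e) → S.real e = true →
      S.M.v e = g (P'.l i) → S.M.v (S.M.α e) = g (P'.l (P'.φ i)) → False)
    (hex : (∃ i < P.n, P'.real i = true) ∨ ∃ d, (∀ i < P.n, f i ≠ d) ∧ S.real d = true)
    (hrl : ∀ (S' : St D V) (L' : D → Bool) (w' : D → ℕ), RH Δ S S' L L' w w' P P' f g O →
      Rlc Δ S' L' w')
    (hsp : ∀ c' : V → Bool, ∀ p ∈ X.ar, X.sp p.1 = true →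
      c' (g (P.l p.1)) ≠ c' (g (P.l (P.φ p.2))) → Act S P f c' (f p.1) ∨ Act S P f c' (f p.2))
    (hcv : ∀ (S' : St D V) (L' : D → Bool) (w' : D → ℕ), RH Δ S S' L L' w w' P P' f g O →
      ∀ i < P.n, S.u (f i) ≠ 0 →
      (∃ k < P.n, S.sc.r (f i) (f k) ∧ ∃ z ∈ X.dj, Cell P X z k) ∨
      (∃ j < P.n, P.α j = j ∧ P.real j = false ∧ S.sc.r (f i) (f j) ∧
        ∃ d, S'.sc.r (f j) d ∧ (st S').u d ≠ 0) ∨
      ∃ j ∈ X.kd, S.sc.r (f i) (f j) ∧ ∃ d, S'.sc.r (f j) d ∧ (st S').u d ≠ 0)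
    (hou : ∀ (S' : St D V) (L' : D → Bool) (w' : D → ℕ), RH Δ S S' L L' w w' P P' f g O →
      ∀ i < P.n, ou i = true → ∃ d, S'.sc.r (f i) d ∧ (st S').u d ≠ 0)
    (hq : ∀ (S' : St D V) (L' : D → Bool) (w' : D → ℕ), RH Δ S S' L L' w w' P P' f g O →
      ∀ i < P.n, 3 ≤ fu S' (f i) ∨ Two S' (f i) ∨ (us i = 0 ∧
      (P.α i = i → P.real i = false → ∀ d, S.sc.r (f i) d → S.u d = 0))) :
    ∃ (S' : St D V) (L' : D → Bool) (w' : D → ℕ), RH Δ S S' L L' w w' P P' f g O ∧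
      W1 L' w' ∧ Rlc Δ S' L' w' ∧ ¬ ∃ c, Sol (st S') L' c := by
  classical
  have G := Pa.good_iff.1 hP
  have G' := Pa.good_iff.1 hP'
  obtain ⟨S', L', w', R⟩ := exists_rh ok.toWf e G G' hfl hs c3 hgA hgF hgd hgi hstar
    (fun i hi => le_of_eq (hu i hi).symm) hLb hw hro hsl hne hsi hso hex
  have hok : Rlc Δ S' L' w' := hrl S' L' w' R
  have hthr := R.thrQ ok.thr (hq S' L' w' R)
  have hw1' : W1 L' w' := by
    intro d
    by_cases hd : ∀ i < P.n, f i ≠ d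
    · rcases R.L_out hd with ⟨k1, k2⟩ | ⟨i, hi, k1, k2, k3, k4⟩
      · rw [k1, k2, w1 d]
      · rw [k3, k4, hw1 i hi]
    · push Not at hd
      obtain ⟨i, hi, rfl⟩ := hd
      rw [R.hL' i hi, R.hw' i hi, hw1 i hi]
  refine ⟨S', L', w', R, hw1', hok, ?_⟩
  rintro ⟨c0, hc0⟩
  -- normalise
  obtain ⟨c', hc', hcx⟩ : ∃ c', Sol (st S') L' c' ∧ c' (g O.x) = false := by
    by_cases h0 : c0 (g O.x) = false
    · exact ⟨c0, hc0, h0⟩
    · exact ⟨fun x => !c0 x, hc0.neg, by simpa using h0⟩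
  unfold djs at hdj
  simp only [Bool.and_eq_true, List.all_eq_true, allN_iff, decide_eq_true_eq] at hdj
  obtain ⟨⟨⟨⟨⟨d1, d2⟩, d3⟩, d4⟩, d5⟩, d6⟩ := hdj
  have hrs : ∀ i ∈ X.rs, i < P.n := fun i hi => ((XE.stat_of hX.st).rs i hi).1
  have hAm : ∀ a < O.x, ∀ i < P.n, O.m ≤ P'.l i → g (P'.l i) ≠ g a := fun a ha i hi hl h9 =>
    hgf i hi hl a (by omega) h9.symm
  have rpl : Rpl S (st S') P P' f g := ⟨R.rep.e, ⟨R.rep.e'.inj, R.rep.e'.hφ, R.rep.e'.hα,
    R.rep.e'.hl, R.rep.e'.hr⟩, R.rep.G, R.rep.G', R.rep.hn, R.rep.hα, R.rep.αo, R.rep.φo, R.rep.vo,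
    R.rep.ro⟩
  apply no
  refine ext_solF rpl ok.real_α hok.real_α hok.real_A X hX (by rw [c1]; exact hstar)
    (by rw [c1]; exact hgd') (by rw [c1]; exact hgi) (fun y hy => ?_) (fun a ha => ?_)
    (fun i hi hl hA => ?_) ok.L_α (fun a ha haA => ?_) (fun i hi hui => ?_)
    (fun i hi hα hl => ?_) (fun i hi hl => ?_) (fun q hq hs => ?_) (fun d hd hud => Or.inl ?_)
    (fun d hd hd' hl => ?_) hc' (fun c' hc' m hm => ?_)
    (fun c' _ => hsp c') (fun m _ hm => ?_)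
  · show y ∈ S'.A ∨ _
    rw [R.hA, c1]
    by_cases h1 : ∀ a < O.x, g a ≠ y
    · exact Or.inl (Or.inr ⟨hy, h1⟩)
    · push Not at h1
      obtain ⟨a, ha, ha'⟩ := h1
      exact Or.inr ⟨a, ha, ha'.symm⟩
  · rw [c4] at ha
    have s3 := (OD.stat3 hs).1
    show g a ∉ S'.A
    rw [R.hA]
    rintro (⟨b, hb1, hb2, hb3⟩ | h1)
    · have := hgi b hb1 a (by omega) hb3
      omega
    · exact h1.2 a (by omega) rfl
  · rw [c2] at hl
    refine R.free hi (hgf i hi hl) (hgF' i hi hl ?_)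
    have hA : g (P'.l i) ∈ S'.A := hA
    rw [R.hA] at hA
    rcases hA with ⟨a, ha, ha', haz⟩ | h1
    · exact absurd haz.symm (hAm a ha i hi hl)
    · exact h1.1
  · rw [c1] at ha
    have := d3 a ((hla a ha).1 haA)
    exact this.2
  · exact hcv S' L' w' R i hi hui
  · have h1 := d2 i hi
    rw [hLb i hi] at hl
    rw [Bool.or_eq_true, Bool.or_eq_true, decide_eq_true_eq, List.any_eq_true, hl] at h1
    rcases h1 with (h1 | h1) | ⟨z, hz, h1⟩
    · exact absurd h1 hα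
    · exact absurd h1 (by simp)
    · refine ⟨z, hz, fun j hj hb => ?_⟩
      rw [allN_iff] at h1
      have := h1 j hj
      rw [Bool.or_eq_true, Bool.or_eq_true, hb, decide_eq_true_eq, decide_eq_true_eq] at this
      rcases this with (h2 | h2) | h2
      · exact absurd h2 (by simp)
      · exact Or.inl h2
      · exact Or.inr h2
  · have h1 := d5 i hi
    have hl0 := hl
    rw [hLb i (hrs i hi)] at hl
    rw [hl, Bool.or_eq_true, Bool.or_eq_true, Bool.and_eq_true, Bool.or_eq_true,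
      List.any_eq_true, Bool.and_eq_true] at h1
    rcases h1 with (h1 | h1) | ⟨hg, ⟨q, hq, h1⟩ | h1⟩
    · exact absurd h1 (by simp)
    · obtain ⟨g1, g2, g3⟩ := hlu i hi h1 hl0
      exact Or.inr ⟨g1, by rw [R.hL' i (hrs i hi)]; exact g2, g3⟩
    · rw [Bool.and_eq_true, decide_eq_true_eq] at h1
      obtain ⟨q1, q2, q3⟩ := q
      simp only at h1
      obtain ⟨rfl, h1⟩ := h1
      rw [h1] at hq
      exact Or.inl ⟨⟨q3, hq⟩, hro _ (hrs _ hi) hg⟩
    · exact Or.inr ⟨by simpa using h1.2, by rw [R.hL' i (hrs i hi)]; exact h1.1,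
        Or.inl (hro i (hrs i hi) hg)⟩
  · have h1 := d6 q hq
    rw [hs, Bool.or_eq_true, Bool.and_eq_true, decide_eq_true_eq] at h1
    rcases h1 with h1 | h1
    · exact absurd h1 (by simp)
    · rw [R.hL' _ h1.1]; exact h1.2
  · have h9 : S'.u d ≠ 0 := by rw [R.rep.uo d hd]; exact hud
    rcases hthr d h9 with h10 | ⟨i, hi, h10, -⟩
    · rw [st_u h10]; exact h9
    · exact absurd h10 (hd i hi)
  · rw [(R.Lo d hd fun i hi hr hh => hd' i hi (by rw [← hh, S.M.αα])).1]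
    exact hl
  · -- the requirements of `S'`
    have h1 := d1 m hm
    rw [Bool.or_eq_true, Bool.or_eq_true] at h1
    have nall : ∀ (n : ℕ) (p : ℕ → Bool), (!allN n fun i => !p i) = true →
        ∃ i < n, p i = true := by
      intro n p hp
      by_contra hcon
      push Not at hcon
      have : allN n (fun i => !p i) = true := by
        rw [allN_iff]
        intro i hi
        have := hcon i hi
        simpa using this
      rw [this] at hp
      exact absurd hp (by simp)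
    rcases h1 with (h1 | h1) | h1
    · obtain ⟨i, hi, h2⟩ := nall _ _ h1
      rw [Bool.and_eq_true, Bool.or_eq_true, decide_eq_true_eq] at h2
      refine ⟨i, hi, h2.2, ?_⟩
      rcases h2.1 with h3 | h3
      · have h3 : us i ≠ 0 := h3
        have h9 : S'.u (f i) ≠ 0 := by
          rw [R.rep.hu' i hi]
          have := hus i hi
          omega
        refine hc'.req _ ?_
        rcases hthr _ h9 with h10 | ⟨k, hk, h10, h11⟩
        · rw [st_u h10]; exact h9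
        · rw [e.inj k hk i hi h10] at h11
          exact absurd h11 h3
      · obtain ⟨d, hd1, hd2⟩ := hou S' L' w' R i hi h3
        exact (hc'.req d hd2).sc (S'.sc.iseqv.symm hd1)
    · obtain ⟨i, hi, h2⟩ := nall _ _ h1
      rw [Bool.and_eq_true, Bool.and_eq_true, Bool.and_eq_true, decide_eq_true_eq] at h2
      obtain ⟨⟨⟨h3, h4⟩, h5⟩, h6⟩ := h2
      rcases hc'.lab (f i) (by rw [R.hL' i hi]; exact h3) with h7 | h7
      · exact ⟨i, hi, h5, h7⟩
      · refine ⟨P.α i, G.αlt i hi, h6, ?_⟩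
        have h7 : Vi (st S') c' (S'.M.α (f i)) := h7
        rwa [R.rep.αo, e.hα i hi h4] at h7
    · obtain ⟨a, ha, h2⟩ := nall _ _ h1
      rw [Bool.and_eq_true, decide_eq_true_eq, allN_iff] at h2
      obtain ⟨d, hd1, hd2⟩ := hc'.live (g a) ((R.hA _).2 (Or.inl ⟨a, ha, h2.1, rfl⟩))
      have hd1 : S'.M.v d = g a := hd1
      by_cases ho : ∀ i < P.n, f i ≠ d
      · rw [R.rep.vo d ho] at hd1
        exact absurd hd1 (R.out_X ho ha)
      · push Not at ho
        obtain ⟨i, hi, rfl⟩ := ho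
        refine ⟨i, hi, ?_, hd2⟩
        have h3 := h2.2 i hi
        rw [Bool.or_eq_true, decide_eq_true_eq] at h3
        rcases h3 with h3 | h3
        · exfalso
          rw [R.v' hi] at hd1
          apply h3
          -- the label of `i` is `a`
          by_cases h7 : P'.l i < O.x
          · exact hgi _ h7 _ ha hd1
          · by_cases h8 : P'.l i < O.m
            · exact absurd hd1 (hgd a ha _ (by omega) h8)
            · exact absurd hd1 (hAm a ha i hi (by omega))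
        · exact h3
  · refine c5 m ?_
    rw [hm O.x (by omega), hcx, Bool.and_false]

end Pool.FC7
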