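import Pool.Agent.FC7.RokI
import Pool.Agent.FC7.Qa

/-! # Relaxed condition for the cuts: additional units -/

open Finset

set_option linter.unusedSectionVars false

namespace Pool.FC7

open Pool.FC6 Pool.FC6.St

namespace Fc

variable {F : Fc} {Δ : ℕ} {κ : ℕ → ℕ} {l : ℕ → Bool}

theorem cutsQ_kap {Bf : ℕ → ℕ}
    (h : F.O.CutsQ F.P F.P' Bf (fun c => F.O.rr F.P c + F.O.wr F.P c)) :
    (kO F.O l).CutsQ (kP F.P κ) (kP F.P' (kq F.P.n F.kp κ)) Bf
      (fun c => (kO F.O l).rr (kP F.P κ) c + (kO F.O l).wr (kP F.P κ) c) := by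
  intro r hr hr0 q hq t
  have h1 := h r hr hr0 q hq t
  have mono : ∀ c, F.O.inQ F.P F.P' c t ≤
      (kO F.O l).inQ (kP F.P κ) (kP F.P' (kq F.P.n F.kp κ)) c t := by
    intro c
    unfold OD.inQ
    refine Nat.add_le_add (sumN_mono fun i _ => ?_) (Nat.mul_le_mul_left _ ?_)
    · show (if (F.P'.real i && OD.crs F.P' c i) = true then 1 + F.O.wt' i else 0) ≤
        if (F.P'.real i && OD.crs F.P' c i) = true then
          1 + (F.O.wt' i + if l i = true then 1 else 0) else 0
      split_ifs <;> omega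
    · unfold OD.oneS
      refine sumN_mono fun i _ => ?_
      show (if (F.O.hsc F.P F.P' c t (F.O.pc i) && (c.testBit (F.P'.l i) != t)) = true then F.P'.u i
          else 0) ≤
        if (F.O.hsc F.P F.P' c t (F.O.pc i) && (c.testBit (F.P'.l i) != t)) = true then
          F.P'.u i + kq F.P.n F.kp κ i else 0
      split_ifs <;> omega
  have m1 := mono (2 ^ F.O.lo * (2 ^ (F.O.x - F.O.lo) * r + q))
  have m2 : ∀ c, F.O.wr F.P c ≤ (kO F.O l).wr (kP F.P κ) c := by
    intro c
    unfold OD.wr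
    refine sumN_mono fun i _ => ?_
    show (if (F.O.rg F.P i && F.P.real i && OD.crs F.P c i) = true then F.O.wt' i else 0) ≤
      if (F.O.rg F.P i && F.P.real i && OD.crs F.P c i) = true then
        F.O.wt' i + (if l i = true then 1 else 0) else 0
    split_ifs <;> omega
  have m2 := m2 (2 ^ F.O.lo * (2 ^ (F.O.x - F.O.lo) * r + q))
  rcases h1 with h1 | ⟨⟨ξ, hξ, h1⟩, h2⟩
  · left
    exact le_trans h1 (Nat.add_le_add m1 (Nat.add_le_add (le_refl _) m2))
  · right
    refine ⟨⟨ξ, hξ, ?_⟩, h2⟩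
    exact le_trans h1 (Nat.add_le_add_left m1 _)

theorem dj_kapQ {us : ℕ → ℕ} (hk : F.Kap κ l)
    (h : djs F.XX F.O F.P (F.su us).P' (List.range F.O.x) F.ou F.lu = true) :
    djs F.XX (kO F.O l) (kP F.P κ) (kP (F.su us).P' (kq F.P.n F.kp κ)) (List.range F.O.x) F.ou
      F.lu = true := by
  unfold djs at h ⊢
  simp only [Bool.and_eq_true, List.all_eq_true, allN_iff] at h ⊢
  obtain ⟨⟨⟨⟨⟨d1, d2⟩, d3⟩, d4⟩, d5⟩, d6⟩ := h
  refine ⟨⟨⟨⟨⟨fun m hm => ?_, fun i hi => ?_⟩, d3⟩, d4⟩, fun i hi => ?_⟩, fun q hq => ?_⟩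
  · have h1 := d1 m hm
    rw [Bool.or_eq_true, Bool.or_eq_true] at h1 ⊢
    rcases h1 with (h1 | h1) | h1
    · left; left
      obtain ⟨i, hi, h2⟩ := nall h1
      rw [Bool.not_eq_true', Bool.eq_false_iff]
      intro h3
      rw [allN_iff] at h3
      have := h3 i hi
      rw [Bool.not_eq_true', Bool.eq_false_iff] at this
      apply this
      rw [Bool.and_eq_true, Bool.or_eq_true, decide_eq_true_eq] at h2 ⊢
      refine ⟨?_, h2.2⟩
      rcases h2.1 with h4 | h4
      · left
        have h4 : us i ≠ 0 := h4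
        show us i + kq F.P.n F.kp κ i ≠ 0
        omega
      · exact Or.inr h4
    · left; right
      obtain ⟨i, hi, h2⟩ := nall h1
      rw [Bool.not_eq_true', Bool.eq_false_iff]
      intro h3
      rw [allN_iff] at h3
      have := h3 i hi
      rw [Bool.not_eq_true', Bool.eq_false_iff] at this
      apply this
      rw [Bool.and_eq_true, Bool.and_eq_true, Bool.and_eq_true] at h2 ⊢
      refine ⟨⟨⟨?_, h2.1.1.2⟩, h2.1.2⟩, h2.2⟩
      show (F.O.lb' i || l i) = true
      rw [h2.1.1.1]; rfl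
    · exact Or.inr h1
  · have h1 := d2 i hi
    by_cases hl : l i = true
    · have h2 := (hk.l i hi hl).1
      show (decide (F.P.α i = i) || !(F.O.lb i || l i) || _) = true
      rw [decide_eq_true h2]; rfl
    · have hl : l i = false := by simpa using hl
      show (decide (F.P.α i = i) || !(F.O.lb i || l i) || _) = true
      rw [hl, Bool.or_false]
      exact h1
  · have h1 := d5 i hi
    show (!(F.O.lb i || l i) || F.lu i || (F.O.rg F.P i && ((F.XX.lr.any fun q =>
      decide (q.1 = i) && q.2.1) || ((F.O.lb' i || l i) && F.XX.kd.contains i)))) = true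
    by_cases hl : l i = true
    · rw [hk.lu i hl]; simp
    · have hl : l i = false := by simpa using hl
      rw [hl, Bool.or_false, Bool.or_false]
      exact h1
  · have h1 := d6 q hq
    rw [Bool.or_eq_true, Bool.and_eq_true] at h1 ⊢
    rcases h1 with h1 | ⟨h1, h2⟩
    · exact Or.inl h1
    · refine Or.inr ⟨h1, ?_⟩
      show (F.O.lb' q.1 || l q.1) = true
      rw [h2]; rfl

/-- the static conditions with additional units -/
theorem ChkW.kap {us : ℕ → ℕ} (h : F.ChkW us Δ) (hk : F.Kap κ l) :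
    (F.kap κ l).ChkW (fun i => us i + kq F.P.n F.kp κ i) Δ where
  g := h.g
  g' := h.g'
  fl := by
    rw [kap_P, kap_P', kap_fl, flips_kP]
    exact h.fl
  X := by
    rw [kap_P, kap_P', kap_XX]
    exact ck_kP h.X
  st := by
    rw [kap_P, kap_P', kap_O]
    exact stat_kap (Pa.good_iff.1 h.g) h.st hk
  dj := by
    have := dj_kapQ hk h.dj
    exact this
  c1 := h.c1
  c2 := h.c2
  c3 := h.c3
  c4 := h.c4
  c5 := h.c5
  s1 := h.s1
  s2 := h.s2
  s3 := h.s3
  s4 := h.s4
  sl := h.sl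
  q1 q hq := by
    rcases h.q1 q hq with h1 | h1 | h1 | h1 | h1
    · left
      refine ⟨h1.1, le_trans h1.2 ?_⟩
      unfold pu
      refine sumN_mono fun j _ => ?_
      show (if F.O.pc j = q then F.P'.u j else 0) ≤
        if F.O.pc j = q then F.P'.u j + kq F.P.n F.kp κ j else 0
      split_ifs <;> omega
    · exact Or.inr (Or.inl h1)
    · exact Or.inr (Or.inr (Or.inl h1))
    · exact Or.inr (Or.inr (Or.inr (Or.inl h1)))
    · right; right; right; right
      obtain ⟨c0, c1, c2, c3, c4, c5, c6, c7⟩ := h1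
      refine ⟨c0, c1, c2, c3, c4, ?_, ?_, c7⟩
      · show F.P'.u (F.tj q) + kq F.P.n F.kp κ (F.tj q) ≠ 0
        omega
      · show F.P'.u (F.tk q) + kq F.P.n F.kp κ (F.tk q) ≠ 0
        omega
  q2 i hi ht := by
    have h1 := h.q2 i hi ht
    refine ⟨?_, h1.2⟩
    show us i + kq F.P.n F.kp κ i = 0 ∨ ∃ e < F.P.n, F.uk e = true ∧ F.P.u e + κ e ≠ 0 ∧
      F.kr e < F.P.n ∧ F.oz (F.kr e) = true ∧ F.O.pc (F.kr e) = F.O.pc i
    by_cases h0 : kq F.P.n F.kp κ i = 0
    · rw [h0, Nat.add_zero]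
      rcases h1.1 with h2 | ⟨e, h2, h3, h4, h5⟩
      · exact Or.inl h2
      · exact Or.inr ⟨e, h2, h3, fun h => h4 (Nat.eq_zero_of_add_eq_zero_right h), h5⟩
    · obtain ⟨e, he, hke, h2⟩ := kq_ne h0
      subst hke
      obtain ⟨a1, a2, a3, a4, a5, a6⟩ := hk.k e he h2
      rcases a6 with a6 | ⟨a6, a7⟩
      · exact absurd ht a6
      · exact Or.inr ⟨e, he, hk.uk e h2, fun h => h2 (Nat.eq_zero_of_add_eq_zero_left h),
          a2, a6, a7⟩
  us i hi := by
    show us i + kq F.P.n F.kp κ i ≤ F.P'.u i + kq F.P.n F.kp κ i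
    exact Nat.add_le_add_right (h.us i hi) _
  r := h.r
  w i hi := by
    show (F.O.wt' i + if l i = true then 1 else 0) = if (F.O.lb' i || l i) = true then 1 else 0
    have h1 := h.w i hi
    by_cases hl : l i = true
    · obtain ⟨-, -, -, h2, -⟩ := hk.l i hi hl
      rw [h1, h2, hl]
      simp
    · have hl : l i = false := by simpa using hl
      rw [hl, h1]
      simp

/-- the static conditions with additional units -/
theorem ChkQ.kap {us : ℕ → ℕ} (h : F.ChkQ us Δ) (hk : F.Kap κ l) :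
    (F.kap κ l).ChkQ (fun i => us i + kq F.P.n F.kp κ i) Δ :=
  ⟨h.toChkW.kap hk, by
    rw [kap_O, kap_P, kap_P', kap_bg]
    exact cutsQ_kap h.cu⟩

end Fc

end Pool.FC7
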