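import Pool.Agent.FC7.RokJ
import Pool.Agent.FC7.Qe
import Pool.Agent.FC7.Qf

/-! # Relaxed condition for the cuts: the facts -/

open Finset

set_option linter.unusedSectionVars false

namespace Pool.FC7

open Pool.FC6 Pool.FC6.St

variable {D V : Type} [Fintype D] [DecidableEq V]

/-- the configuration occurs in the state; the units which are kept -/
structure EmbQ (F : Fc) (Δ : ℕ) (S : St D V) (L : D → Bool) (w : D → ℕ) (f : ℕ → D) (g : ℕ → V) :
    Prop where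
  e : Em F.P S f g
  hstar : ∀ a < F.O.x, ∀ d, S.M.v d = g a → ∃ i < F.P.n, f i = d
  hA : ∀ a < F.O.m, g a ∈ S.A
  r4 : ∀ a < F.O.m, 4 ≤ S.rdeg (g a)
  nf : ∀ a < F.O.m, ∀ b, F.O.m ≤ b → b < F.nl → g a ≠ g b
  fA : ∀ b, F.O.m ≤ b → b < F.nl → g b ∈ S.A → ∃ d, (∀ i < F.P.n, f i ≠ d) ∧ S.M.v d = g b
  ne : ∀ a < F.O.m, ∀ b < F.O.m, F.ne a b = true → g a ≠ g b
  na : ∀ a < F.O.m, ∀ b < F.O.m, F.na a b = true → ∀ r, (∀ i < F.P.n, f i ≠ r) →
    S.real r = true → ¬ (S.M.v r = g a ∧ S.M.v (S.M.α r) = g b)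
  hu : ∀ i < F.P.n, S.u (f i) = F.P.u i
  hL : ∀ i < F.P.n, L (f i) = F.O.lb i
  hw : ∀ i < F.P.n, w (f i) = F.O.wt i
  hro : ∀ i < F.P.n, F.O.rg F.P i = true → ∀ j < F.P.n, f j ≠ S.M.α (f i)
  hB : ∀ (s : V → Bool) (c : ℕ), (∀ a < F.O.m, c.testBit a = s (g a)) →
      (∃ y ∈ S.A, s y = true) → (∃ y ∈ S.A, s y = false) → F.bg c ≤ S.rc s
  sl : ∀ a, F.O.x ≤ a → a < F.O.m → (∑ d, if S.M.v d = g a then
    (if S.real d = true then 1 else 0) + S.u d + w d else 0) + F.O.sl a ≤ Δ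
  op : ∀ i < F.P.n, F.op i = true → ∀ d, S.sc.r (f i) d → S.u d = 0
  tw : ∀ i < F.P.n, F.tw i = true → fu S (f i) ≤ 2
  sp : ∀ c' : V → Bool, ∀ p ∈ F.X.ar, F.X.sp p.1 = true →
    c' (g (F.P.l p.1)) ≠ c' (g (F.P.l (F.P.φ p.2))) →
      Act S F.P f c' (f p.1) ∨ Act S F.P f c' (f p.2)
  ou : ∀ (S' : St D V) (L' : D → Bool) (w' : D → ℕ), RH Δ S S' L L' w w' F.P F.P' f g F.O →
      ∀ i < F.P.n, F.ou i = true → ∃ d, S'.sc.r (f i) d ∧ (st S').u d ≠ 0
  cv : ∀ (S' : St D V) (L' : D → Bool) (w' : D → ℕ), RH Δ S S' L L' w w' F.P F.P' f g F.O →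
      ∀ i < F.P.n, S.u (f i) ≠ 0 →
        (∃ k < F.P.n, S.sc.r (f i) (f k) ∧ ∃ z ∈ F.X.dj, Cell F.P F.X z k) ∨
        (∃ j < F.P.n, F.P.α j = j ∧ F.P.real j = false ∧ S.sc.r (f i) (f j) ∧
          ∃ d, S'.sc.r (f j) d ∧ (st S').u d ≠ 0) ∨
        ∃ j ∈ F.X.kd, S.sc.r (f i) (f j) ∧ ∃ d, S'.sc.r (f j) d ∧ (st S').u d ≠ 0
  oz : ∀ (S' : St D V) (L' : D → Bool) (w' : D → ℕ), RH Δ S S' L L' w w' F.P F.P' f g F.O →
      ∀ i < F.P.n, F.oz i = true → 3 ≤ fu S' (f i) ∨ (Two S' (f i) ∧ fu S (f i) ≤ 2) ∨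
        ∀ d, S.sc.r (f i) d → S.u d = 0
  kr : ∀ e < F.P.n, F.uk e = true → S.sc.r (f e) (f (F.kr e))
  hlu : ∀ i ∈ F.X.rs, F.lu i = true → L (f i) = true → i ∈ F.X.kd ∧ F.O.lb' i = true ∧
      (OU F.P f (S.M.α (f i)) ∨ ∃ j ∈ F.X.kd, f j = S.M.α (f i))
  t3 : ∀ (S' : St D V) (L' : D → Bool) (w' : D → ℕ), RH Δ S S' L L' w w' F.P F.P' f g F.O →
      ∀ i < F.P.n, F.ty (F.O.pc i) = 3 → 3 ≤ fu S' (f i)
  t4 : ∀ (S' : St D V) (L' : D → Bool) (w' : D → ℕ), RH Δ S S' L L' w w' F.P F.P' f g F.O →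
      ∀ i < F.P.n, F.ty (F.O.pc i) = 4 → 3 ≤ fu S' (f i) ∨ Two S' (f i)

variable {F : Fc} {Δ : ℕ} {S : St D V} {L : D → Bool} {w : D → ℕ} {f : ℕ → D} {g : ℕ → V}

/-- pieces with at least three units -/
theorem Fc.ChkW.ty0 {us : ℕ → ℕ} (C : F.ChkW us Δ) (E : EmbQ F Δ S L w f g) {S' : St D V} {L' : D → Bool} {w' : D → ℕ}
    (R : RH Δ S S' L L' w w' F.P F.P' f g F.O) {i : ℕ} (hi : i < F.P.n)
    (ht : F.ty (F.O.pc i) = 0 ∨ F.ty (F.O.pc i) = 3) : 3 ≤ fu S' (f i) := by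
  rcases ht with ht | ht
  · have h3 : 3 ≤ F.pu (F.O.pc i) := by
      rcases C.q1 _ (OD.stat1 C.st hi).pc with h1 | h1 | h1 | h1 | h1
      · exact h1.2
      · omega
      · omega
      · omega
      · omega
    refine le_trans h3 (le_trans (le_of_eq ?_) (R.fu_piece hi))
    unfold Fc.pu
    rw [sumN_eq]
  · exact E.t3 S' L' w' R i hi ht

/-- the replaced state belongs to the class and has no solution -/
theorem Fc.ChkW.step {us : ℕ → ℕ} (C : F.ChkW us Δ) (ok : Ok Δ S L w) (w1 : W1 L w)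
    (no : ¬ ∃ c, Sol S L c) (hnr : 20 ≤ nr S) (E : EmbQ F Δ S L w f g)
    (hrl : ∀ (S' : St D V) (L' : D → Bool) (w' : D → ℕ), RH Δ S S' L L' w w' F.P F.P' f g F.O →
      Rlc Δ S' L' w') :
    ∃ (S' : St D V) (L' : D → Bool) (w' : D → ℕ), RH Δ S S' L L' w w' F.P F.P' f g F.O ∧
      W1 L' w' ∧ Rlc Δ S' L' w' ∧ ¬ ∃ c, Sol (FC7.st S') L' c := by
  classical
  have W := ok.toWf
  have G := Pa.good_iff.1 C.g
  have G' := Pa.good_iff.1 C.g'
  obtain ⟨S0, hR0, _⟩ := exists_rep E.e G G' C.fl ∅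
  have hn := hR0.hn
  have φlt' : ∀ i < F.P.n, F.P'.φ i < F.P.n := by
    intro i hi
    have := G'.φlt i (by rw [hn]; exact hi)
    rwa [hn] at this
  have hxm := C.c5
  have nex : ∀ a < F.O.x, ∀ b < F.O.m, a ≠ b → g a ≠ g b ∧ g b ≠ g a := by
    intro a ha b hb hab
    obtain ⟨h1, h2⟩ := C.s1 a ha b hb hab
    exact ⟨E.ne a (by omega) b hb h1, E.ne b hb a (by omega) h2⟩
  have nexf : ∀ a < F.O.x, ∀ b < F.nl, a ≠ b → g a ≠ g b ∧ g b ≠ g a := by
    intro a ha b hb hab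
    by_cases hm : b < F.O.m
    · exact nex a ha b hm hab
    · have := E.nf a (by omega) b (by omega) hb
      exact ⟨this, this.symm⟩
  have rl' : ∀ i < F.P.n, F.P'.real i = true → F.P'.l i < F.O.m ∧ F.P'.l (F.P'.φ i) < F.O.m := by
    intro i hi hr
    have := (OD.stat1 C.st hi).r' hr
    exact ⟨this.2.1, this.2.2.2⟩
  have unS : ∀ i < F.P.n, F.un i = true → S.real (f i) = true ∧ S.M.v (f i) = g (F.P'.l i) ∧
      S.M.v (S.M.α (f i)) = g (F.P'.l (F.P'.φ i)) := by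
    intro i hi hu
    unfold Fc.un at hu
    rw [Bool.and_eq_true, Bool.and_eq_true, decide_eq_true_eq, decide_eq_true_eq] at hu
    refine ⟨by rw [E.e.hr i hi]; exact hu.1.1, by rw [E.e.hl i hi, hu.1.2], ?_⟩
    rw [← S.M.vφ, E.e.hφ i hi, E.e.hl _ (G.φlt i hi), hu.2]
  -- new edges
  have hne : ∀ i < F.P.n, F.P'.real i = true → g (F.P'.l i) ≠ g (F.P'.l (F.P'.φ i)) := by
    intro i hi hr
    rcases C.s3 i hi hr with h1 | ⟨h1, _⟩
    · obtain ⟨a1, a2, a3⟩ := unS i hi h1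
      rw [← a2, ← a3]
      exact W.real_ne _ a1
    · exact E.ne _ (rl' i hi hr).1 _ (rl' i hi hr).2 h1
  have hso : ∀ i < F.P.n, F.P'.real i = true → ∀ e, (∀ j < F.P.n, f j ≠ e) → S.real e = true →
      S.M.v e = g (F.P'.l i) → S.M.v (S.M.α e) = g (F.P'.l (F.P'.φ i)) → False := by
    intro i hi hr e he hre h1 h2
    rcases C.s3 i hi hr with h3 | ⟨_, h3 | h3 | h3⟩
    · obtain ⟨a1, a2, a3⟩ := unS i hi h3
      exact he i hi (W.simple _ _ a1 hre (a2.trans h1.symm) (a3.trans h2.symm))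
    · exact E.na _ (rl' i hi hr).1 _ (rl' i hi hr).2 h3 e he hre ⟨h1, h2⟩
    · obtain ⟨j, hj, hj'⟩ := E.hstar _ h3 e h1
      exact he j hj hj'
    · obtain ⟨j, hj, hj'⟩ := E.hstar _ h3 _ h2
      have ha : F.P.α j = j := by
        by_contra hcon
        have h4 := E.e.hα j hj hcon
        rw [hj', S.M.αα] at h4
        exact he _ (G.αlt j hj) h4.symm
      have r1 := (OD.stat1 C.st hj).ring ha
      have h4 : g (F.P.l j) = g (F.P'.l (F.P'.φ i)) := by
        rw [← E.e.hl j hj, hj']; exact h2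
      exact (nexf _ h3 _ (C.s2 j hj).1 (by omega)).2 h4
  have hsi : ∀ i < F.P.n, ∀ j < F.P.n, F.P'.real i = true → F.P'.real j = true →
      g (F.P'.l i) = g (F.P'.l j) → g (F.P'.l (F.P'.φ i)) = g (F.P'.l (F.P'.φ j)) → i = j := by
    have key : ∀ i < F.P.n, ∀ j < i, F.P'.real i = true → F.P'.real j = true →
        g (F.P'.l i) = g (F.P'.l j) → g (F.P'.l (F.P'.φ i)) = g (F.P'.l (F.P'.φ j)) → False := by
      intro i hi j hji hr hr' h1 h2
      have hj : j < F.P.n := by omega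
      rcases C.s4 i hi j hji hr hr' with h3 | h3 | ⟨h3, h4⟩
      · exact E.ne _ (rl' i hi hr).1 _ (rl' j hj hr').1 h3 h1
      · exact E.ne _ (rl' i hi hr).2 _ (rl' j hj hr').2 h3 h2
      · obtain ⟨a1, a2, a3⟩ := unS i hi h3
        obtain ⟨b1, b2, b3⟩ := unS j hj h4
        have h5 := W.simple _ _ a1 b1 (by rw [a2, b2, h1]) (by rw [a3, b3, h2])
        have := E.e.inj i hi j hj h5
        omega
    intro i hi j hj hr hr' h1 h2
    rcases lt_trichotomy i j with h3 | h3 | h3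
    · exact absurd (key j hj i h3 hr' hr h1.symm h2.symm) (by simp)
    · exact h3
    · exact absurd (key i hi j h3 hr hr' h1 h2) (by simp)
  -- a real edge remains
  have hex : (∃ i < F.P.n, F.P'.real i = true) ∨
      ∃ d, (∀ i < F.P.n, f i ≠ d) ∧ S.real d = true := by
    rcases C.r with kR | kR
    · exact Or.inl kR
    · right
      by_contra hcon
      push Not at hcon
      have h2 : nr S ≤ sumN F.P.n (fun i => if F.P.real i then 1 else 0) := by
        unfold nr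
        rw [sumN_eq, FC6.RH.split E.e.inj, Finset.sum_eq_zero, zero_add]
        · refine Finset.sum_le_sum fun i hi => ?_
          rw [E.e.hr i (Finset.mem_range.1 hi)]
        · intro d _
          by_cases hd : ∃ i < F.P.n, f i = d
          · rw [if_pos hd]
          · rw [if_neg hd]
            push Not at hd
            rw [if_neg (hcon d hd)]
      omega
  have hsl : ∀ y ∈ S.A, (∑ d, if S.M.v d = y then (if S.real d = true then 1 else 0) + S.u d + w d
      else 0) + ∑ a ∈ (Finset.range F.O.m).filter (fun a => F.O.x ≤ a ∧ g a = y), F.O.sl a ≤ Δ := by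
    intro y hy
    by_cases hc : ∃ a < F.O.m, F.O.x ≤ a ∧ g a = y ∧ F.O.sl a ≠ 0
    · obtain ⟨a, ha, hxa, rfl, ha0⟩ := hc
      have e1 : ∑ b ∈ (Finset.range F.O.m).filter (fun b => F.O.x ≤ b ∧ g b = g a), F.O.sl b =
          F.O.sl a := by
        refine Finset.sum_eq_single_of_mem a (Finset.mem_filter.2 ⟨Finset.mem_range.2 ha, hxa, rfl⟩)
          fun b hb hba => ?_
        rw [Finset.mem_filter, Finset.mem_range] at hb
        rcases C.sl b hb.1 a ha with h1 | h1 | h1 | h1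
        · exact h1
        · exact absurd h1 ha0
        · exact absurd h1 hba
        · exact absurd hb.2.2 (E.ne b hb.1 a ha h1)
      rw [e1]
      exact E.sl a hxa ha
    · push Not at hc
      rw [Finset.sum_eq_zero (s := (Finset.range F.O.m).filter _), Nat.add_zero]
      · exact W.deg y hy
      · intro b hb
        rw [Finset.mem_filter, Finset.mem_range] at hb
        exact hc b hb.1 hb.2.1 hb.2.2
  refine redQ ok w1 no E.e C.g C.g' C.fl F.XX C.X F.O C.st C.us C.dj E.hlu C.c1 C.c2 C.c3 C.c4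
    (fun m hm => ?_) C.c5 E.hstar (fun a _ ha => E.hA a ha)
    (fun i hi hl hA => E.fA _ hl (C.s2 i hi).1 hA) (fun i hi hl hA => E.fA _ hl (C.s2 i hi).2 hA)
    (fun i hi hl a ha => E.nf a ha _ hl (C.s2 i hi).2)
    (fun a ha b hb hb' => (nex a ha b hb' (by omega)).2)
    (fun a ha i hi hl => (nexf a ha _ (C.s2 i hi).1 (Ne.symm hl)).2) (fun a ha b hb hab => ?_)
    (fun a ha => ?_) E.hu E.hL E.hw C.w E.hro hsl hne hsi hso hex
    hrl E.sp E.cv E.ou (fun S' L' w' R i hi => ?_)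
  · show (!m.testBit F.O.x) = true
    rw [hm]; rfl
  · by_contra hcon
    exact (nex a ha b (by omega) hcon).1 hab
  · rw [List.mem_range]
    exact ⟨fun _ => ha, fun _ => E.hA a (by omega)⟩
  · -- the thresholds
    have s1i := OD.stat1 C.st hi
    rcases C.q1 _ s1i.pc with c1 | c1 | c1 | c1 | c1
    · exact Or.inl (C.ty0 E R hi (Or.inl c1.1))
    · have c2 := C.q2 i hi c1
      rcases c2.1 with c3 | ⟨e, e1, e2, e3, e4, e5, e6⟩
      · by_cases hz : F.oz i = true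
        · rcases E.oz S' L' w' R i hi hz with h1 | h1 | h1
          · exact Or.inl h1
          · exact Or.inr (Or.inl h1.1)
          · exact Or.inr (Or.inr ⟨c3, fun _ _ => h1⟩)
        · right; right
          refine ⟨c3, fun ha hr => ?_⟩
          rcases c2.2.2 with c4 | c4 | c4 | c4
          · exact absurd ha c4
          · rw [hr] at c4; exact absurd c4 (by simp)
          · exact E.op i hi c4
          · exact absurd c4 hz
      · have h3 := R.sc_piece e4 hi e6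
        rcases E.oz S' L' w' R _ e4 e5 with h1 | h1 | h1
        · exact Or.inl (by rw [← fu_congr h3]; exact h1)
        · exact Or.inr (Or.inl (h1.1.congr h3))
        · exfalso
          have h2 := h1 _ (S.sc.iseqv.symm (E.kr e e1 e2))
          rw [E.hu e e1] at h2
          exact e3 h2
    · exact Or.inl (C.ty0 E R hi (Or.inr c1))
    · rcases E.t4 S' L' w' R i hi c1 with h1 | h1
      · exact Or.inl h1
      · exact Or.inr (Or.inl h1)
    · right; left
      obtain ⟨c0, c1, c2, c3, c4, c5, c6, c6a, c6b, c7, c8, c9, c10⟩ := c1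
      refine R.two_piece hi c1 c2 c3.symm c4.symm c5 c6 (E.ne _ c6a _ c6b c7)
        (fun r hr hreal => ?_) (fun r hr hreal => ⟨E.na _ c6a _ c6b c8 r hr hreal,
          E.na _ c6b _ c6a c9 r hr hreal⟩)
      have := c10 r hr hreal
      refine ⟨fun h5 => ?_, fun h5 => ?_⟩
      · rcases this.1 with h6 | h6
        · exact E.ne _ (rl' r hr hreal).1 _ c6a h6 h5.1
        · exact E.ne _ (rl' r hr hreal).2 _ c6b h6 h5.2
      · rcases this.2 with h6 | h6
        · exact E.ne _ (rl' r hr hreal).1 _ c6b h6 h5.1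
        · exact E.ne _ (rl' r hr hreal).2 _ c6a h6 h5.2

/-- the contribution of the outer darts -/
theorem Fc.ChkW.hrr {us : ℕ → ℕ} (C : F.ChkW us Δ) (ok : Ok Δ S L w) (E : EmbQ F Δ S L w f g) :
    ∀ (s : V → Bool) (c : ℕ),
      (∀ a, F.O.x ≤ a → a < F.O.m → c.testBit a = s (g a)) → F.O.rr F.P c ≤ oc S F.P f s := by
  have W := ok.toWf
  have G := Pa.good_iff.1 C.g
  refine oc_rr W.real_α E.e G E.hro fun i hi ha hr => ?_
  have s1 := OD.stat1 C.st hi
  have r1 := s1.ring ha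
  exact ⟨r1.2.2.2.1, (s1.r hr).1, r1.2.2.2.2, (s1.r hr).2⟩

/-- A FACT for minimal counterexamples, relaxed condition for the cuts -/
theorem MC.factR {us : ℕ → ℕ} (hΔ : Δ ≤ 6) (h : MC Δ S L w) {κ : ℕ → ℕ} {l : ℕ → Bool}
    (C : (F.kap κ l).ChkW us Δ) (hM : F.O.nb' F.P F.P' < F.O.x)
    (E : EmbQ (F.kap κ l) Δ S L w f g)
    (hrl : ∀ (S' : St D V) (L' : D → Bool) (w' : D → ℕ), RH Δ S S' L L' w w' (F.kap κ l).P
      (F.kap κ l).P' f g (F.kap κ l).O → Rlc Δ S' L' w') : False := by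
  obtain ⟨S', L', w', R, h1, h2, h3⟩ := C.step h.ok h.w1 h.no (h.nr20 hΔ) E hrl
  have hxm := C.c5
  have k := R.n4_le (fun a _ ha => E.r4 a ha) (List.range F.O.x) List.nodup_range
    (fun a ha => ⟨List.mem_range.1 ha, E.hA a (by
      have := List.mem_range.1 ha
      have : F.O.x < F.O.m := hxm
      show a < F.O.m
      omega), E.r4 a (by
      have := List.mem_range.1 ha
      have : F.O.x < F.O.m := hxm
      show a < F.O.m
      omega)⟩)
  rw [List.length_range] at k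
  have k1 : n4 S' + F.O.x ≤ n4 S + F.O.nb' F.P F.P' := k.1
  exact h3 (h.relax _ D V S' L' w' (le_refl _) h1 h2 (by omega))

end Pool.FC7
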