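import Pool.Agent.FC7.WfF
import Pool.Agent.FC7.Qg

/-! # Facts given by words, relaxed condition for the cuts: labels, units, arcs -/

open Finset

set_option linter.unusedSectionVars false

namespace Pool.FC7

open Pool.FC6 Pool.FC6.St

variable {D V : Type} [Fintype D] [DecidableEq V] {Δ N R e : ℕ} {S : St D V} {L : D → Bool}
  {w : D → ℕ} {W : WF} {d f : ℕ → D} {g : ℕ → V} {us : ℕ → ℕ}

/-- other units of the new patch -/
def WF.su (W : WF) (us : ℕ → ℕ) : WF := { W with F := W.F.su us }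

/-- everything which is known -/
structure WF.CxQ (W : WF) (us : ℕ → ℕ) (Δ : ℕ) (S : St D V) (L : D → Bool) (w : D → ℕ)
    (d f : ℕ → D) (g : ℕ → V) : Prop where
  hS : IsStar S
  ok : Ok Δ S L w
  w1 : W1 L w
  C : W.Ck Δ
  v : ∀ i < W.F.P.n, (W.F.P.u i = 0 ∧ W.F.uk i = false) ∨ (W.su us).okv i = true
  F : W.F.ChkW us Δ
  K : ∀ (κ : ℕ → ℕ) (l : ℕ → Bool), (∀ i, κ i ≠ 0 → W.F.uk i = true) →
    (∀ i, l i = true → W.F.lu i = true) → W.F.Kap κ l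
  H : W.Hy S L d f g

namespace WF.CxQ

variable (X : W.CxQ us Δ S L w d f g)

include X

theorem ρ {j : ℕ} (hj : j < W.Z.Q.ns) : S.M.σ (W.Z.io S d j) = W.Z.io S d (W.Z.Q.ρ j) :=
  Stars.io_ρ X.C.Z X.H.m hj

theorem G : W.F.P.Good := Pa.good_iff.1 X.F.g

theorem eP : Em W.F.P S f g := Em.restrict X.H.em X.C.rs

theorem nP : W.F.P.n ≤ W.PT.n := by
  have := X.C.rs
  simp only [rstr, Bool.and_eq_true, decide_eq_true_eq] at this
  exact this.1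

theorem lP {i : ℕ} (hi : i < W.F.P.n) : W.F.P.l i = W.PT.l i := by
  have := X.C.rs
  simp only [rstr, Bool.and_eq_true, decide_eq_true_eq, allN_iff, Bool.or_eq_true,
    beq_iff_eq] at this
  exact (this.2 i hi).1.2

/-- the names of the darts -/
theorem nm {i : ℕ} (hi : i < W.F.P.n) : W.Z.Q.rk i < 3 ∧ W.Z.Q.rj i < W.Z.Q.ns ∧
    f i = nmS S (W.Z.io S d) (W.Z.Q.rk i) (W.Z.Q.rj i) := by
  have h := X.nP
  have hC := X.C.Z.Q
  have h1 := hC.k3 i (by omega)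
  have h2 := hC.rjlt i (by omega)
  refine ⟨h1, h2, ?_⟩
  rw [← X.H.nm _ h2 _ h1, hC.nfr i (by omega)]

theorem hh {j : ℕ} (hj : j < W.Z.Q.ns) : g (W.hl j) = S.M.v (S.M.α (W.Z.io S d j)) := by
  unfold WF.hl
  rw [← X.H.em.hl _ (X.C.Z.Q.nflt j hj 1 (by norm_num)), X.H.nm j hj 1 (by norm_num)]
  rfl

theorem occ {a : ℕ} (ha : a < W.F.nl) : ∃ i < W.PT.n, W.PT.l i = a := by
  by_cases h : a < W.F.O.m
  · obtain ⟨h1, h2, h3⟩ := X.C.r1 a h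
    have := X.nP
    exact ⟨W.rd a, by omega, by rw [← X.lP h1]; exact h2⟩
  · obtain ⟨h1, h2, h4, h3⟩ := X.C.r2 a (by omega) ha
    exact ⟨_, X.C.Z.Q.nflt _ h1 1 (by norm_num), h3⟩

theorem alive {a : ℕ} (ha : a < W.F.O.m) : g a ∈ S.A := by
  obtain ⟨h1, h2, h3⟩ := X.C.r1 a ha
  have h4 := X.eP.hl _ h1
  rw [h2] at h4
  rw [← h4]
  exact X.ok.real_A _ (by rw [X.eP.hr _ h1]; exact h3)

theorem dead {a : ℕ} (ha : W.F.O.m ≤ a) (hb : a < W.F.nl) : g a ∉ S.A := by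
  obtain ⟨h1, h2, h4, h3⟩ := X.C.r2 a ha hb
  rw [← h3, X.hh h1]
  rcases X.hS.virt X.ok.toWf (by rw [X.H.inf.rl _ h1]; exact h2) with ⟨_, _, k, _⟩ | ⟨_, _, k, _⟩
  · exact absurd (X.H.inf.al _ h1 h4) k
  · exact k

theorem cenx {a b : ℕ} (hc : W.Z.Q.cx a = true) (ha : a < W.F.nl) (hb : b < W.F.nl)
    (hab : b ≠ a) : g b ≠ g a := by
  obtain ⟨i, h1, h2⟩ := X.occ ha
  obtain ⟨i', h3, h4⟩ := X.occ hb
  have := X.H.dif i h1 (by rw [h2]; exact hc) i' h3 (by rw [h2, h4]; exact hab)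
  rwa [h2, h4] at this

theorem cen {a b : ℕ} (ha : a < W.F.O.x) (hb : b < W.F.nl) (hab : b ≠ a) : g b ≠ g a :=
  X.cenx (X.C.cx a ha) (by have := X.F.c5; have := X.C.ml; omega) hb hab

theorem dis {a b : ℕ} (ha : a < W.F.nl) (hb : b < W.F.nl) (h : W.dis a b = true) : g a ≠ g b := by
  unfold WF.dis at h
  simp only [Bool.and_eq_true, Bool.or_eq_true, decide_eq_true_eq, List.any_eq_true,
    bne_iff_ne] at h
  obtain ⟨h0, ((h | h) | h) | ⟨q, hq, h⟩⟩ := h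
  · exact (X.cenx h ha hb (Ne.symm h0)).symm
  · exact X.cenx h hb ha h0
  · intro he
    by_cases h1 : a < W.F.O.m
    · have h2 : ¬ b < W.F.O.m := fun h2 => h (by simp [h1, h2])
      exact X.dead (not_lt.1 h2) hb (he ▸ X.alive h1)
    · have h2 : b < W.F.O.m := by
        by_contra h2
        exact h (by simp [h1, h2])
      exact X.dead (not_lt.1 h1) ha (he ▸ X.alive h2)
  · have hl := X.C.dl q hq
    have := X.H.dq q hq
    rw [← X.hh hl.1, ← X.hh hl.2] at this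
    rcases h with ⟨h1, h2⟩ | ⟨h1, h2⟩
    · rwa [h1, h2] at this
    · rw [h1, h2] at this
      exact this.symm

theorem lnl {i : ℕ} (hi : i < W.F.P.n) : W.F.P.l i < W.F.nl := (X.F.s2 i hi).1

theorem hub {b : ℕ} (h : W.hub b = true) : g b ∉ S.A ∧ ∀ j < W.F.P.n, g (W.F.P.l j) = g b →
    W.F.P.l j = b := by
  unfold WF.hub at h
  simp only [Bool.and_eq_true, Bool.or_eq_true, decide_eq_true_eq, allN_iff] at h
  refine ⟨X.dead h.1.1 h.1.2, fun j hj hg => ?_⟩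
  rcases h.2 _ (X.lnl hj) with h1 | h1
  · exact h1
  · exact absurd hg (X.dis (X.lnl hj) h.1.2 h1)

theorem nm2 {i : ℕ} (hi : i < W.F.P.n) (h : W.Z.Q.rk i = 2) :
    W.ac (W.Z.ca (W.Z.Q.rj i)) = true := by
  have hn := X.nP
  exact Wt.nm2 X.hS X.ok.toWf X.C.Z X.C.ok (fun j hj => X.ρ hj) X.H.inf
    (show i < W.PT.n by omega) h

/-- the units -/
theorem un {i : ℕ} (hi : i < W.F.P.n) (hu : W.F.uk i = false) : S.u (f i) = W.F.P.u i := by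
  obtain ⟨h1, h2, h3⟩ := X.nm hi
  obtain ⟨h4, h5⟩ := X.C.dk i hi hu
  rw [h3, h5]
  exact Wt.u_nm X.hS X.ok.toWf X.C.Z X.C.ok (fun j hj => X.ρ hj) X.H.inf X.H.cu h2 h1
    (X.nm2 hi) h4

theorem fc {i : ℕ} (hi : i < W.F.P.n) : FB (fu S (f i)) (W.fcl i) := by
  obtain ⟨h1, h2, h3⟩ := X.nm hi
  rw [h3]
  exact Wt.f_nm X.hS X.ok.toWf X.C.Z X.C.ok (fun j hj => X.ρ hj) X.H.inf X.H.oo h2 h1

theorem oc {i : ℕ} (hi : i < W.F.P.n) (h : W.ocl i = true) : OZ (fu S (f i)) := by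
  obtain ⟨h1, h2, h3⟩ := X.nm hi
  rw [h3]
  exact Wt.o_nm X.hS X.ok.toWf X.C.Z X.C.ok (fun j hj => X.ρ hj) X.H.inf X.H.oo h2 h1 h

theorem lb {i : ℕ} (hi : i < W.F.P.n) (hl : W.F.lu i = false) : L (f i) = W.F.O.lb i := by
  obtain ⟨h1, h2, h3⟩ := X.nm hi
  obtain ⟨h4, h5⟩ := X.C.lb i hi hl
  rw [h3, h5]
  exact Wt.l_nm X.hS X.ok.toWf X.C.Z X.C.ok (fun j hj => X.ρ hj) X.H.inf h2 h1 (X.nm2 hi) h4

theorem star {a : ℕ} (ha : a < W.F.O.x) {x : D} (hx : S.M.v x = g a) : ∃ i < W.F.P.n, f i = x := by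
  obtain ⟨i, h1, h2⟩ := X.occ (a := a) (by have := X.F.c5; have := X.C.ml; omega)
  obtain ⟨i', h3, h4⟩ := X.H.all i h1 (by rw [h2]; exact X.C.cx a ha) x (by rw [h2]; exact hx)
  rcases X.C.ce i' h3 with h5 | h5
  · exact ⟨i', h5, h4⟩
  · exfalso
    have h6 := X.H.dif i h1 (by rw [h2]; exact X.C.cx a ha) i' h3 (by rw [h2]; omega)
    apply h6
    rw [h2, ← hx, ← h4, X.H.em.hl i' h3]

theorem off {a b : ℕ} (h : W.off a b = true) : Off S (g a) (g b) := by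
  unfold WF.off at h
  rw [List.any_eq_true] at h
  obtain ⟨q, hq, h⟩ := h
  simp only [Bool.and_eq_true, decide_eq_true_eq] at h
  have h1 := X.C.ol q hq
  have h2 := X.H.oq q hq
  rwa [← X.hh h1.1, ← X.hh h1.2, h.1, h.2] at h2

end WF.CxQ

/-- the bound for the cuts -/
theorem WF.CxQ.gb {W : WF} {d : ℕ → D} (X : W.CxQ us Δ S L w d f g) (hb : W.chkB = true)
    (s : V → Bool) (c : ℕ) (hc : ∀ a < W.F.O.m, c.testBit a = s (g a)) :
    FC6.OD.inS W.F.P c + gbn W.F.P W.F.O W.F.gt c ≤ 2 * S.rc s := by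
  have G := X.G
  have wf := X.ok.toWf
  unfold WF.chkB at hb
  rw [Bool.and_eq_true, Bool.and_eq_true, List.all_eq_true] at hb
  replace hb := hb.1
  rw [← inS_oc X.eP G wf (m := W.F.O.m) (fun i hi hr => by
    have h1 := (OD.stat1 X.F.st hi).r hr
    exact ⟨h1.1, h1.2⟩) s c hc]
  refine Nat.add_le_add_left ?_ _
  unfold gbn
  split_ifs with h0
  · exact Nat.zero_le _
  refine oc_gap X.eP G X.hS wf (ex := W.off) ?_ (fun i hi ha hr => ?_) hb.1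
    (fun p hp => X.hub (hb.2 p hp)) (fun p hp j hj ha hr => ⟨fun h => X.off h, fun h => X.off h⟩) s c
    (fun a _ ha => hc a ha)
  · intro i hi hr j hj hj'
    obtain ⟨h1, h2⟩ := X.C.rg i hi hr
    have e := X.eP
    have hrj : W.F.P.real j = true := by
      rw [← e.hr j hj, hj', X.ok.real_α, e.hr i hi]; exact h1
    rcases h2 j hj with h3 | h3 | h3
    · rw [hrj] at h3; exact absurd h3 (by simp)
    · refine X.dis (X.lnl hj) (X.lnl (G.φlt i hi)) h3 ?_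
      rw [← e.hl j hj, ← e.hl _ (G.φlt i hi), hj', ← e.hφ i hi, S.M.vφ]
    · refine X.dis (X.lnl (G.φlt j hj)) (X.lnl hi) h3 ?_
      rw [← e.hl i hi, ← e.hl _ (G.φlt j hj), ← e.hφ j hj, S.M.vφ, hj', S.M.αα]
  · have s1 := OD.stat1 X.F.st hi
    have r1 := s1.ring ha
    have r2 := s1.r hr
    exact ⟨r1.2.2.2.1, r2.1, r1.2.2.2.2, r2.2⟩

namespace WF.CxQ

variable (X : W.CxQ us Δ S L w d f g)

include X

theorem pd5 {E : List (List (ℕ × ℕ × Bool))} {j : ℕ} (hj : j < W.F.P.n) (h : W.pd5 E j = true)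
    {s : V → Bool} {c : ℕ} (hc : ∀ a < W.F.O.m, c.testBit a = s (g a)) (he : en5 E c.testBit) :
    S.real (f j) = true ∧ S.u (f j) = 0 ∧ (s (S.M.v (f j)) = s (S.M.v (S.M.α (f j))) →
      L (f j) = false) := by
  unfold WF.pd5 at h
  simp only [Bool.and_eq_true, Bool.or_eq_true, decide_eq_true_eq, Bool.not_eq_true'] at h
  obtain ⟨⟨⟨h1, h2⟩, h3⟩, h4⟩ := h
  have e := X.eP
  refine ⟨by rw [e.hr j hj]; exact h1, by rw [X.un hj h3, h2], fun hs => ?_⟩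
  rcases h4 with ⟨h4, h5⟩ | h4
  · rw [X.lb hj h5, h4]
  · exfalso
    have h5 := cl5_ne h4 he
    obtain ⟨l1, l2⟩ := (OD.stat1 X.F.st hj).r h1
    rw [hc _ l1, hc _ l2] at h5
    apply h5
    rw [← e.hl j hj, ← e.hl _ (X.G.φlt j hj), hs, ← e.hφ j hj, S.M.vφ]

theorem pt5 {E : List (List (ℕ × ℕ × Bool))} {j : ℕ} (hj : j < W.F.P.n) (h : W.pt5 E j = true)
    {s : V → Bool} {c : ℕ} (hc : ∀ a < W.F.O.m, c.testBit a = s (g a)) (he : en5 E c.testBit) :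
    Pt S L s (f j) := by
  unfold WF.pt5 at h
  simp only [Bool.and_eq_true] at h
  obtain ⟨⟨h1, h2⟩, h3⟩ := h
  have G := X.G
  have e := X.eP
  have k1 := X.pd5 hj h1 hc he
  have k2 := X.pd5 (G.φlt j hj) h2 hc he
  have k3 := X.pd5 (G.φlt _ (G.φlt j hj)) h3 hc he
  rw [← e.hφ j hj] at k2
  rw [← e.hφ _ (G.φlt j hj), ← e.hφ j hj] at k3
  constructor
  · rintro t (rfl | rfl | rfl)
    · exact k1.1
    · exact k2.1
    · exact k3.1
  · rintro t (rfl | rfl | rfl)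
    · exact k1.2.1
    · exact k2.2.1
    · exact k3.2.1
  · rintro t (rfl | rfl | rfl)
    · exact k1.2.2
    · exact k2.2.2
    · exact k3.2.2

theorem di5 {D5 : List ℕ} (h : W.di5 D5 = true) :
    (∀ a ∈ D5, g a ∈ S.A ∧ a < W.F.O.m) ∧ D5.Pairwise fun a b => g a ≠ g b := by
  unfold WF.di5 at h
  rw [allN_iff] at h
  have key : ∀ i (hi : i < D5.length), D5.getD i 0 = D5[i] := fun i hi => by
    rw [List.getD_eq_getElem?_getD, List.getElem?_eq_getElem hi]; rfl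
  constructor
  · intro a ha
    obtain ⟨i, hi, rfl⟩ := List.getElem_of_mem ha
    have h1 := h i hi
    rw [Bool.and_eq_true, decide_eq_true_eq, key i hi] at h1
    exact ⟨X.alive h1.1, h1.1⟩
  · rw [List.pairwise_iff_getElem]
    intro i j hi hj hij
    have h1 := h j hj
    rw [Bool.and_eq_true, decide_eq_true_eq, key j hj, allN_iff] at h1
    have h2 := h1.2 i hij
    have h3 := h i hi
    rw [key i hi] at h2
    rw [Bool.and_eq_true, decide_eq_true_eq, key i hi] at h3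
    have := X.C.ml
    exact X.dis (by omega) (by omega) (X.C.ne _ h3.1 _ h1.1 h2)

theorem two5 {D5 : List ℕ} (h : W.di5 D5 = true) {s : V → Bool} {b : Bool} {p : ℕ → Bool}
    (hp : ∀ a ∈ D5, p a = true → s (g a) = b) (h2 : 2 ≤ (D5.filter p).length) : S.Two s b := by
  obtain ⟨h3, h4⟩ := X.di5 h
  have h5 := h4.filter p
  have h6 : ∀ a ∈ D5.filter p, a ∈ D5 ∧ p a = true := fun a ha => List.mem_filter.1 ha
  match hl : D5.filter p, h2 with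
  | a :: a' :: t, _ =>
    rw [hl] at h5 h6
    have m1 := h6 a (by simp)
    have m2 := h6 a' (by simp)
    refine ⟨g a, (h3 a m1.1).1, g a', (h3 a' m2.1).1, ?_, hp a m1.1 m1.2, hp a' m2.1 m2.2⟩
    exact (List.pairwise_cons.1 h5).1 a' (by simp)

theorem nu5 {j : ℕ} (hj : j < W.F.P.n) (h : W.nu5 j = true) : S.u (f j) = 0 := by
  unfold WF.nu5 at h
  simp only [Bool.and_eq_true, decide_eq_true_eq, Bool.not_eq_true'] at h
  rw [X.un hj h.2, h.1]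

theorem ln5 {j : ℕ} (hj : j < W.F.P.n) (h : W.ln5 j = true) : L (f j) = false := by
  unfold WF.ln5 at h
  simp only [Bool.and_eq_true, Bool.not_eq_true'] at h
  rw [X.lb hj h.2, h.1]

/-- the next dart at the vertex -/
theorem σ5 {i : ℕ} (hi : i < W.F.P.n) (ha : W.F.P.α i ≠ i) :
    S.M.σ (f i) = f (W.F.P.φ (W.F.P.α i)) := by
  have h1 : S.M.σ (f i) = S.M.φ (S.M.α (f i)) := by
    apply S.M.φinj
    apply S.M.φinj
    rw [S.M.φ3]
    have h2 : S.M.α (S.M.φ (S.M.φ (S.M.σ (f i)))) = f i := by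
      show S.M.α (S.M.φ (S.M.φ (S.M.φ (S.M.α (f i))))) = f i
      rw [S.M.φ3, S.M.αα]
    rw [← h2, S.M.αα, h2]
  rw [h1, X.eP.hα i hi ha, X.eP.hφ _ (X.G.αlt i hi)]

/-- the two values of the colouring at the ends of a real dart -/
theorem sl5 {i : ℕ} (hi : i < W.F.P.n) (hr : W.F.P.real i = true) {s : V → Bool} {c : ℕ}
    (hc : ∀ a < W.F.O.m, c.testBit a = s (g a)) :
    s (S.M.v (f i)) = c.testBit (W.F.P.l i) ∧
      s (S.M.v (S.M.α (f i))) = c.testBit (W.F.P.l (W.F.P.φ i)) := by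
  obtain ⟨l1, l2⟩ := (OD.stat1 X.F.st hi).r hr
  have e := X.eP
  rw [hc _ l1, hc _ l2, e.hl i hi, ← S.M.vφ, e.hφ i hi, e.hl _ (X.G.φlt i hi)]
  exact ⟨rfl, rfl⟩

theorem gc5 {i k : ℕ} (hi : i < W.F.P.n) (hk : k = W.F.P.φ (W.F.P.α (W.F.P.φ (W.F.P.α i))))
    (h : W.gc5 i (W.F.P.φ (W.F.P.α i)) k = true) : Gc S (f i) ∧ k < W.F.P.n ∧
      S.M.σ (S.M.σ (f i)) = f k ∧ W.F.P.real i = true ∧ W.F.P.real k = true ∧ W.F.P.α k ≠ k := by
  unfold WF.gc5 at h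
  simp only [Bool.and_eq_true, Bool.or_eq_true, decide_eq_true_eq, Bool.not_eq_true'] at h
  obtain ⟨⟨⟨⟨⟨⟨⟨h1, h2⟩, h3⟩, h4⟩, h5⟩, h6⟩, h7⟩, h8⟩ := h
  have e := X.eP
  have G := X.G
  have j1 : W.F.P.φ (W.F.P.α i) < W.F.P.n := G.φlt _ (G.αlt _ hi)
  have k1 : k < W.F.P.n := by rw [hk]; exact G.φlt _ (G.αlt _ j1)
  have s1 := X.σ5 hi h2
  have s2 : S.M.σ (S.M.σ (f i)) = f k := by rw [s1, X.σ5 j1 h4, hk]
  refine ⟨⟨by rw [e.hr i hi]; exact h1, by rw [s1, e.hr _ j1]; exact h3,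
    by rw [s2, e.hr k k1]; exact h5, by rw [s2]; exact X.nu5 k1 h7, ?_⟩, k1, s2, h1, h5, h6⟩
  rintro ⟨a1, a2, a3⟩
  rw [s2] at a1 a3
  have hf := X.fc k1
  rcases h8 with (((h8 | h8) | h8) | h8) | h8
  · have := hf.2.1 h8
    omega
  · have := hf.2.2 h8
    omega
  · have h9 := X.oc k1 h8
    unfold OZ at h9
    omega
  · apply a2
    rw [e.hα i hi h2]
    exact X.nu5 (G.αlt i hi) h8
  · apply a3
    have b1 : W.F.P.φ (W.F.P.φ k) < W.F.P.n := G.φlt _ (G.φlt _ k1)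
    have b2 : S.M.σ (S.M.α (f k)) = f (W.F.P.φ k) := by
      have := X.σ5 (G.αlt k k1) (by rw [G.αα k k1]; exact fun h => h6 h.symm)
      rw [G.αα k k1] at this
      rw [e.hα k k1 h6]
      exact this
    rw [b2, X.σ5 (G.φlt k k1) h8.1]
    exact X.nu5 (G.φlt _ (G.αlt _ (G.φlt k k1))) h8.2

/-- the darts at a centre -/
theorem at5 {i : ℕ} (hi : i < W.F.P.n) (hl : W.F.P.l i < W.F.O.x) {x : D}
    (hx : S.M.v x = S.M.v (f i)) : ∃ i' < W.F.P.n, f i' = x ∧ W.F.P.l i' = W.F.P.l i := by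
  have e := X.eP
  rw [e.hl i hi] at hx
  obtain ⟨i', h1, h2⟩ := X.star hl hx
  refine ⟨i', h1, h2, ?_⟩
  by_contra hne
  refine X.cen hl (X.lnl h1) hne ?_
  rw [← e.hl i' h1, h2, hx]

theorem rdeg5 {i : ℕ} (hi : i < W.F.P.n) (hl : W.F.P.l i < W.F.O.x) :
    S.rdeg (S.M.v (f i)) =
      sumN W.F.P.n (fun e => if W.F.P.real e && decide (W.F.P.l e = W.F.P.l i) then 1 else 0) := by
  classical
  have e := X.eP
  unfold St.rdeg
  rw [sumN_eq, ← Finset.sum_filter, ← Finset.sum_filter, ← Finset.card_eq_sum_ones,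
    ← Finset.card_eq_sum_ones]
  symm
  refine Finset.card_bij (fun j _ => f j) (fun j hj => ?_) (fun j hj j' hj' h => ?_) fun x hx => ?_
  · rw [Finset.mem_filter, Finset.mem_range, Bool.and_eq_true, decide_eq_true_eq] at hj
    rw [Finset.mem_filter]
    refine ⟨Finset.mem_univ _, ?_, by rw [e.hr j hj.1]; exact hj.2.1⟩
    rw [e.hl j hj.1, e.hl i hi, hj.2.2]
  · rw [Finset.mem_filter, Finset.mem_range] at hj hj'
    exact e.inj j hj.1 j' hj'.1 h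
  · rw [Finset.mem_filter] at hx
    obtain ⟨i', h1, h2, h3⟩ := X.at5 hi hl hx.2.1
    refine ⟨i', ?_, h2⟩
    rw [Finset.mem_filter, Finset.mem_range, Bool.and_eq_true, decide_eq_true_eq]
    refine ⟨h1, ?_, h3⟩
    rw [← e.hr i' h1, h2]
    exact hx.2.2

theorem ot5 {E : List (List (ℕ × ℕ × Bool))} {i k : ℕ} (hi : i < W.F.P.n) (hk : k < W.F.P.n)
    (ri : W.F.P.real i = true) (rk : W.F.P.real k = true)
    (h : W.ot5 E i k = true) {s : V → Bool} {c : ℕ} (hc : ∀ a < W.F.O.m, c.testBit a = s (g a))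
    (he : en5 E c.testBit) : Oth S s (f i) (f k) := by
  unfold WF.ot5 at h
  simp only [Bool.and_eq_true, Bool.or_eq_true, decide_eq_true_eq, Bool.not_eq_true', allN_iff,
    decide_eq_false_iff_not] at h
  obtain ⟨⟨⟨h1, h2⟩, h3⟩, h4⟩ := h
  have e := X.eP
  obtain ⟨-, a2⟩ := X.sl5 hi ri hc
  obtain ⟨-, b2⟩ := X.sl5 hk rk hc
  refine ⟨?_, by rw [a2, b2]; exact ce5_eq h3 he, fun x hx hr n1 n2 => ?_⟩
  · rw [X.rdeg5 hi h1]
    simpa only [Bool.and_eq_true, decide_eq_true_eq] using h2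
  · obtain ⟨i', c1, c2, c3⟩ := X.at5 hi h1 hx
    have c4 : W.F.P.real i' = true := by rw [← e.hr i' c1, c2]; exact hr
    rcases h4 i' c1 with (((h5 | h5) | h5) | h5) | h5
    · rw [c4] at h5; exact absurd h5 (by simp)
    · exact absurd c3 h5
    · exact absurd (by rw [← c2, h5]) n1
    · exact absurd (by rw [← c2, h5]) n2
    · rw [a2, ← c2, (X.sl5 c1 c4 hc).2]
      exact cl5_ne h5 he

theorem ku5 {j : ℕ} (hj : j < W.F.P.n) (h : W.ku5 j = true) : S.u (f j) ≠ 0 := by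
  unfold WF.ku5 at h
  simp only [Bool.and_eq_true, Bool.not_eq_true', decide_eq_false_iff_not] at h
  rw [X.un hj h.2]
  exact h.1

/-- the face has units -/
theorem fn5 {i : ℕ} (hi : i < W.F.P.n) (h : W.fn5 i = true) : fu S (f i) ≠ 0 := by
  have e := X.eP
  have G := X.G
  have wf := X.ok.toWf
  have key : ∀ j < W.F.P.n, W.ku5 j = true → S.sc.r (f i) (f j) → fu S (f i) ≠ 0 := by
    intro j hj h1 h2
    have h3 := ule_fu h2
    have h4 := X.ku5 hj h1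
    omega
  have hf := X.fc hi
  have a1 : S.sc.r (f i) (f (W.F.P.φ i)) := by
    rw [← e.hφ i hi]
    exact (scφ _ _).2 (S.sc.iseqv.refl _)
  have a2 : S.sc.r (f i) (f (W.F.P.φ (W.F.P.φ i))) := by
    rw [← e.hφ _ (G.φlt i hi)]
    exact (scφ _ _).2 a1
  unfold WF.fn5 at h
  simp only [Bool.or_eq_true, decide_eq_true_eq] at h
  rcases h with ((((h | h) | h) | h) | h) | h
  · have := (hf.1 h).1
    omega
  · have := hf.2.1 h
    omega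
  · exact key i hi h (S.sc.iseqv.refl _)
  · exact key _ (G.φlt i hi) h a1
  · exact key _ (G.φlt _ (G.φlt i hi)) h a2
  · simp only [Bool.and_eq_true, Bool.not_eq_true'] at h
    obtain ⟨⟨h1, h2⟩, h3⟩ := h
    have h4 : ¬ allN W.F.P.n (fun e =>
      !(decide (W.F.P.l (W.F.P.φ (W.F.P.φ e)) = W.F.P.l (W.F.P.φ (W.F.P.φ i))) && W.ku5 e)) =
        true := by rw [h3]; decide
    rw [allN_iff] at h4
    push Not at h4
    obtain ⟨j, hj, h5⟩ := h4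
    rw [ne_eq, Bool.not_eq_true', Bool.not_eq_false, Bool.and_eq_true, decide_eq_true_eq] at h5
    refine key j hj h5.2 ?_
    have b1 : S.real (f i) = true := by rw [e.hr i hi]; exact h1
    have b2 : S.real (S.M.φ (f i)) = false := by rw [e.hφ i hi, e.hr _ (G.φlt i hi)]; exact h2
    have hd := X.hS.dead _ b1 b2
    have b3 : S.M.v (S.M.φ (S.M.φ (f j))) = S.M.v (S.M.φ (S.M.φ (f i))) := by
      rw [e.hφ i hi, e.hφ _ (G.φlt i hi), e.hφ j hj, e.hφ _ (G.φlt j hj),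
        e.hl _ (G.φlt _ (G.φlt i hi)), e.hl _ (G.φlt _ (G.φlt j hj)), h5.1]
    have b4 : S.sc.r (S.M.φ (S.M.φ (f i))) (f j) :=
      (X.hS.sc_star wf hd _).2 (Or.inr (Or.inr b3))
    refine S.sc.iseqv.trans ?_ b4
    exact (scφ _ _).2 ((scφ _ _).2 (S.sc.iseqv.refl _))

theorem o55 {E : List (List (ℕ × ℕ × Bool))} {i k : ℕ} (hi : i < W.F.P.n) (hk : k < W.F.P.n)
    (ri : W.F.P.real i = true) (h : W.o55 E i k = true) {s : V → Bool} {c : ℕ}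
    (hc : ∀ a < W.F.O.m, c.testBit a = s (g a)) (he : en5 E c.testBit) :
    S.real (f k) = true ∧ Op5 S L s (f i) (f k) := by
  have e := X.eP
  have G := X.G
  unfold WF.o55 at h
  simp only [Bool.and_eq_true, Bool.or_eq_true, decide_eq_true_eq] at h
  obtain ⟨⟨⟨⟨h1, h2⟩, h3⟩, h4⟩, h5⟩ := h
  obtain ⟨a1, a2⟩ := X.sl5 hi ri hc
  obtain ⟨b1, b2⟩ := X.sl5 hk h1 hc
  refine ⟨by rw [e.hr k hk]; exact h1, by rw [a1, a2]; exact cl5_ne h3 he,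
    by rw [a1, b2]; exact cl5_ne h4 he, ?_⟩
  rcases h5 with ⟨h5, h6⟩ | ⟨h5, h6⟩
  · left
    refine ⟨?_, X.fn5 hi h6⟩
    rw [e.hα k hk h2]
    exact X.pt5 (G.αlt k hk) h5 hc he
  · right
    refine ⟨X.pt5 hi h5 hc he, ?_⟩
    rw [e.hα k hk h2]
    exact X.fn5 (G.αlt k hk) h6

theorem k55 {E : List (List (ℕ × ℕ × Bool))} {i : ℕ} (h : W.k55 E i = true) {s : V → Bool}
    {c : ℕ} (hc : ∀ a < W.F.O.m, c.testBit a = s (g a)) (he : en5 E c.testBit) :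
    ∃ t t', S.real t = true ∧ Nx S t t' ∧ Op5 S L s t t' := by
  have e := X.eP
  have G := X.G
  unfold WF.k55 at h
  simp only [Bool.and_eq_true, Bool.or_eq_true, decide_eq_true_eq, Bool.not_eq_true'] at h
  obtain ⟨⟨⟨h1, h2⟩, h3⟩, h4⟩ := h
  have j1 : W.F.P.φ (W.F.P.α i) < W.F.P.n := G.φlt _ (G.αlt _ h1)
  have s1 := X.σ5 h1 h3
  rcases h4 with h4 | ⟨⟨h4, h5⟩, h6⟩
  · obtain ⟨b1, b2⟩ := X.o55 h1 j1 h2 h4 hc he
    exact ⟨f i, _, by rw [e.hr i h1]; exact h2, ⟨b1, Or.inl s1.symm⟩, b2⟩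
  · have k1 : W.F.P.φ (W.F.P.α (W.F.P.φ (W.F.P.α i))) < W.F.P.n := G.φlt _ (G.αlt _ j1)
    obtain ⟨b1, b2⟩ := X.o55 h1 k1 h2 h6 hc he
    refine ⟨f i, _, by rw [e.hr i h1]; exact h2, ⟨b1, Or.inr ⟨?_, ?_⟩⟩, b2⟩
    · rw [s1, X.σ5 j1 h5]
    · rw [s1, e.hr _ j1]; exact h4

theorem k65 {E : List (List (ℕ × ℕ × Bool))} {i : ℕ} (h : W.k65 E i = true) {s : V → Bool}
    {c : ℕ} (hc : ∀ a < W.F.O.m, c.testBit a = s (g a)) (he : en5 E c.testBit) :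
    ∃ t, L t = true ∧ s (S.M.v t) ≠ s (S.M.v (S.M.α t)) := by
  unfold WF.k65 at h
  simp only [Bool.and_eq_true, decide_eq_true_eq, Bool.not_eq_true'] at h
  obtain ⟨⟨⟨⟨h1, h2⟩, h3⟩, h4⟩, h5⟩ := h
  obtain ⟨a1, a2⟩ := X.sl5 h1 h2 hc
  exact ⟨f i, by rw [X.lb h1 h4]; exact h3, by rw [a1, a2]; exact cl5_ne h5 he⟩

theorem nx5 {i : ℕ} (hi : i < W.F.P.n) (h : W.nq5 i = true) : W.nx5 i < W.F.P.n ∧
    W.F.P.real (W.nx5 i) = true ∧ Nx S (f i) (f (W.nx5 i)) := by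
  have e := X.eP
  have G := X.G
  unfold WF.nq5 at h
  simp only [Bool.and_eq_true, Bool.or_eq_true, decide_eq_true_eq] at h
  obtain ⟨h1, h2⟩ := h
  have j1 : W.F.P.φ (W.F.P.α i) < W.F.P.n := G.φlt _ (G.αlt _ hi)
  have k1 : W.F.P.φ (W.F.P.α (W.F.P.φ (W.F.P.α i))) < W.F.P.n := G.φlt _ (G.αlt _ j1)
  have s1 := X.σ5 hi h1
  unfold WF.nx5
  by_cases h3 : W.F.P.real (W.F.P.φ (W.F.P.α i)) = true
  · rw [if_pos h3]
    exact ⟨j1, h3, by rw [e.hr _ j1]; exact h3, Or.inl s1.symm⟩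
  · rw [if_neg h3]
    obtain ⟨h4, h5⟩ := h2.resolve_left h3
    refine ⟨k1, h5, by rw [e.hr _ k1]; exact h5, Or.inr ⟨?_, ?_⟩⟩
    · rw [s1, X.σ5 j1 h4]
    · rw [s1, e.hr _ j1]
      simpa using h3

theorem cy5 {i : ℕ} (hi : i < W.F.P.n) (h : W.cy5 i = true) : S.M.σ^[4] (f i) = f i := by
  have G := X.G
  unfold WF.cy5 at h
  simp only [Bool.and_eq_true, decide_eq_true_eq] at h
  obtain ⟨⟨⟨⟨h1, h2⟩, h3⟩, h4⟩, h5⟩ := h
  have i1 : W.F.P.φ (W.F.P.α i) < W.F.P.n := G.φlt _ (G.αlt _ hi)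
  have i2 := G.φlt _ (G.αlt _ i1)
  have i3 := G.φlt _ (G.αlt _ i2)
  have s1 := X.σ5 hi h1
  have s2 := X.σ5 i1 h2
  have s3 := X.σ5 i2 h3
  have s4 := X.σ5 i3 h4
  show S.M.σ (S.M.σ (S.M.σ (S.M.σ (f i)))) = f i
  rw [s1, s2, s3, s4, h5]

theorem k75 {E : List (List (ℕ × ℕ × Bool))} {i : ℕ} (hi : i < W.F.P.n)
    (h : W.k75 E i (W.nx5 i) (W.nx5 (W.nx5 i)) = true) {s : V → Bool} {c : ℕ}
    (hc : ∀ a < W.F.O.m, c.testBit a = s (g a)) (he : en5 E c.testBit) :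
    ∃ r m, S.real (f i) = true ∧ Nx S (f i) r ∧ Nx S r m ∧ C35 S s (f i) r m := by
  have e := X.eP
  have G := X.G
  unfold WF.k75 at h
  simp only [Bool.and_eq_true, Bool.or_eq_true, decide_eq_true_eq] at h
  obtain ⟨⟨⟨⟨⟨⟨h1, h2⟩, h3⟩, h4⟩, h5⟩, h6⟩, h7⟩ := h
  obtain ⟨r1, r2, r3⟩ := X.nx5 hi h2
  obtain ⟨m1, m2, m3⟩ := X.nx5 r1 h3
  obtain ⟨a1, a2⟩ := X.sl5 hi h1 hc
  obtain ⟨-, b2⟩ := X.sl5 r1 r2 hc
  obtain ⟨-, c2⟩ := X.sl5 m1 m2 hc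
  refine ⟨_, _, by rw [e.hr i hi]; exact h1, r3, m3, by rw [a1, a2]; exact cl5_ne h4 he,
    by rw [a1, b2]; exact cl5_ne h5 he, by rw [a1, c2]; exact cl5_ne h6 he, ?_⟩
  have p1 := G.φlt i hi
  have p2 := G.φlt _ p1
  rcases h7 with (h7 | h7) | ⟨h7, h8⟩
  · left
    rw [e.hφ i hi, e.hr _ p1]
    exact h7
  · right; left
    rw [e.hφ i hi, e.hφ _ p1]
    exact X.cy5 p2 h7
  · have q1 : W.F.P.φ (W.F.P.α (W.nx5 (W.nx5 i))) < W.F.P.n := G.φlt _ (G.αlt _ m1)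
    right; right
    rw [X.σ5 m1 h7]
    rcases h8 with h8 | ⟨h8, h9⟩
    · left
      rw [e.hr _ q1]
      exact h8
    · right
      rw [e.hα _ q1 h8]
      exact X.cy5 (G.αlt _ q1) h9

theorem sf5 {i j : ℕ} (hi : i < W.F.P.n) (hj : j < W.F.P.n) (ri : W.F.P.real i = true)
    (h : W.sf5 i j = true) : S.sc.r (f i) (f j) := by
  have e := X.eP
  have G := X.G
  have wf := X.ok.toWf
  have a1 : S.sc.r (f i) (f (W.F.P.φ i)) := by
    rw [← e.hφ i hi]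
    exact (scφ _ _).2 (S.sc.iseqv.refl _)
  have a2 : S.sc.r (f i) (f (W.F.P.φ (W.F.P.φ i))) := by
    rw [← e.hφ _ (G.φlt i hi)]
    exact (scφ _ _).2 a1
  unfold WF.sf5 at h
  simp only [Bool.and_eq_true, Bool.or_eq_true, decide_eq_true_eq, Bool.not_eq_true'] at h
  rcases h with ((h | h) | h) | ⟨h2, h5⟩
  · subst h; exact S.sc.iseqv.refl _
  · rw [h]; exact a1
  · rw [h]; exact a2
  · have b1 : S.real (f i) = true := by rw [e.hr i hi]; exact ri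
    have b2 : S.real (S.M.φ (f i)) = false := by rw [e.hφ i hi, e.hr _ (G.φlt i hi)]; exact h2
    have hd := X.hS.dead _ b1 b2
    have b3 : S.M.v (S.M.φ (S.M.φ (f j))) = S.M.v (S.M.φ (S.M.φ (f i))) := by
      rw [e.hφ i hi, e.hφ _ (G.φlt i hi), e.hφ j hj, e.hφ _ (G.φlt j hj),
        e.hl _ (G.φlt _ (G.φlt i hi)), e.hl _ (G.φlt _ (G.φlt j hj)), h5]
    have b4 : S.sc.r (S.M.φ (S.M.φ (f i))) (f j) :=
      (X.hS.sc_star wf hd _).2 (Or.inr (Or.inr b3))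
    refine S.sc.iseqv.trans ?_ b4
    exact (scφ _ _).2 ((scφ _ _).2 (S.sc.iseqv.refl _))

theorem so5 {i : ℕ} (hi : i < W.F.P.n) (h : W.so5 i = true) :
    ∀ d, Fp S (f i) d → S.real d = true := by
  have e := X.eP
  have G := X.G
  unfold WF.so5 at h
  simp only [Bool.and_eq_true] at h
  obtain ⟨⟨h1, h2⟩, h3⟩ := h
  rintro d (h0 | h0 | h0)
  · rw [h0, e.hr i hi]; exact h1
  · rw [h0, e.hφ i hi, e.hr _ (G.φlt i hi)]; exact h2
  · rw [h0, e.hφ i hi, e.hφ _ (G.φlt i hi), e.hr _ (G.φlt _ (G.φlt i hi))]; exact h3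

theorem k85 {E : List (List (ℕ × ℕ × Bool))} {a i j : ℕ} (h : W.k85 E a i j = true)
    {s : V → Bool} {c : ℕ} (hc : ∀ a < W.F.O.m, c.testBit a = s (g a)) (he : en5 E c.testBit) :
    ∃ k1 k2 k3, Ty5 S L s k1 k2 k3 := by
  have e := X.eP
  have G := X.G
  have rα := X.ok.toWf.real_α
  unfold WF.k85 at h
  simp only [Bool.and_eq_true, Bool.or_eq_true, decide_eq_true_eq] at h
  obtain ⟨⟨⟨⟨⟨⟨⟨⟨⟨⟨⟨⟨⟨⟨⟨⟨⟨q1, q2⟩, q3⟩, q4⟩, q5⟩, q6⟩, q7⟩, q8⟩, q9⟩, q10⟩, q11⟩, q12⟩, q13⟩, q14⟩,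
    q15⟩, q16⟩, q17⟩, q18⟩ := h
  obtain ⟨u1, u2⟩ := X.sl5 q1 q4 hc
  obtain ⟨v1, v2⟩ := X.sl5 q2 q5 hc
  obtain ⟨w1, w2⟩ := X.sl5 q3 q6 hc
  have d1 := cl5_ne q8 he
  have d2 := cl5_ne q9 he
  have d3 := cl5_ne q10 he
  have hsm : ∀ {a b c' d : ℕ}, sm5 E a b c' d = true → c.testBit a ≠ c.testBit b →
      c.testBit c' ≠ c.testBit d → c.testBit a = c.testBit c' ∧ c.testBit b = c.testBit d := by
    intro a b c' d h0 h1 h2
    unfold sm5 at h0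
    simp only [Bool.or_eq_true] at h0
    have h3 : c.testBit a = c.testBit c' ∨ c.testBit b = c.testBit d ∨
        c.testBit a ≠ c.testBit d ∨ c.testBit b ≠ c.testBit c' := by
      rcases h0 with ((h0 | h0) | h0) | h0
      · exact Or.inl (ce5_eq h0 he)
      · exact Or.inr (Or.inl (ce5_eq h0 he))
      · exact Or.inr (Or.inr (Or.inl (cl5_ne h0 he)))
      · exact Or.inr (Or.inr (Or.inr (cl5_ne h0 he)))
    revert h1 h2 h3
    cases c.testBit a <;> cases c.testBit b <;> cases c.testBit c' <;> cases c.testBit d <;> decide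
  obtain ⟨s2, s2'⟩ := hsm q11 d2 d1.symm
  have s3 : c.testBit (W.F.P.l j) = c.testBit (W.F.P.l (W.F.P.φ a)) ∧
      c.testBit (W.F.P.l (W.F.P.φ j)) = c.testBit (W.F.P.l a) := by
    rcases q12 with h0 | h0
    · exact hsm h0 d3 d1.symm
    · obtain ⟨h1, h2⟩ := hsm h0 d3 d2
      exact ⟨h1.trans s2, h2.trans s2'⟩
  obtain ⟨s3, s3'⟩ := s3
  have va : S.M.v (S.M.α (f a)) = S.M.v (f (W.F.P.φ a)) := by rw [← S.M.vφ, e.hφ a q1]
  have vi : S.M.v (S.M.α (f i)) = S.M.v (f (W.F.P.φ i)) := by rw [← S.M.vφ, e.hφ i q2]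
  have vj : S.M.v (S.M.α (f j)) = S.M.v (f (W.F.P.φ j)) := by rw [← S.M.vφ, e.hφ j q3]
  have gl : ∀ {x y : ℕ}, x < W.F.P.n → y < W.F.P.n → W.F.P.l x = W.F.P.l y →
      S.M.v (f x) = S.M.v (f y) := fun {x y} hx hy h0 => by rw [e.hl x hx, e.hl y hy, h0]
  have n13 : S.M.α (f a) ≠ f j := by
    intro h0
    have hml := X.C.ml
    rcases q15 with ((⟨h1, h2⟩ | ⟨h1, h2⟩) | h1) | h1
    · rw [e.hα a q1 h1] at h0
      exact h2 (e.inj _ (G.αlt a q1) _ q3 h0)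
    · have h3 : S.M.α (f j) = f a := by rw [← h0, S.M.αα]
      rw [e.hα j q3 h1] at h3
      exact h2 (e.inj _ (G.αlt j q3) _ q1 h3)
    · obtain ⟨l1, l2⟩ := (OD.stat1 X.F.st q1).r q4
      obtain ⟨l3, l4⟩ := (OD.stat1 X.F.st q3).r q6
      refine X.dis (by omega) (by omega) (X.C.ne _ l2 _ l3 h1) ?_
      rw [← e.hl _ (G.φlt a q1), ← e.hl j q3, ← va, h0]
    · obtain ⟨l1, l2⟩ := (OD.stat1 X.F.st q1).r q4
      obtain ⟨l3, l4⟩ := (OD.stat1 X.F.st q3).r q6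
      refine X.dis (by omega) (by omega) (X.C.ne _ l1 _ l4 h1) ?_
      rw [← e.hl a q1, ← e.hl _ (G.φlt j q3), ← vj, ← h0, S.M.αα]
  -- the colours of the third vertices
  have hsx : ∀ {z x x' x'' y y' y'' : ℕ}, sx5 E z x x' x'' y y' y'' = true →
      c.testBit x' = c.testBit x → c.testBit x'' = c.testBit x → c.testBit y ≠ c.testBit x →
      c.testBit y' = c.testBit y → c.testBit y'' = c.testBit y → c.testBit z = c.testBit x := by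
    intro z x x' x'' y y' y'' h0 h1 h2 h3 h4 h5
    unfold sx5 at h0
    simp only [Bool.or_eq_true] at h0
    have hb : c.testBit z ≠ c.testBit y → c.testBit z = c.testBit x := by
      revert h3
      cases c.testBit z <;> cases c.testBit x <;> cases c.testBit y <;> decide
    rcases h0 with ((((h0 | h0) | h0) | h0) | h0) | h0
    · exact ce5_eq h0 he
    · exact (ce5_eq h0 he).trans h1
    · exact (ce5_eq h0 he).trans h2
    · exact hb (cl5_ne h0 he)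
    · exact hb (by rw [← h4]; exact cl5_ne h0 he)
    · exact hb (by rw [← h5]; exact cl5_ne h0 he)
  have third : ∀ {x : ℕ}, x < W.F.P.n → W.so5 x = true →
      s (S.M.v (S.M.φ (S.M.φ (f x)))) = c.testBit (W.F.P.l (W.F.P.φ (W.F.P.φ x))) := by
    intro x hx h0
    unfold WF.so5 at h0
    simp only [Bool.and_eq_true] at h0
    rw [e.hφ x hx, e.hφ _ (G.φlt x hx)]
    exact (X.sl5 (G.φlt _ (G.φlt x hx)) h0.2 hc).1
  unfold WF.kf5 at q18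
  rw [Bool.and_eq_true] at q18
  have band : ∀ {p q : Bool}, (p && q) = true → p = true ∧ q = true := fun h0 =>
    (Bool.and_eq_true _ _).mp h0
  refine ⟨S.M.α (f a), f i, f j, ?_⟩
  refine
    { r1 := by rw [rα, e.hr a q1]; exact q4
      r2 := by rw [e.hr i q2]; exact q5
      r3 := by rw [e.hr j q3]; exact q6
      c1 := by rw [S.M.αα, u1, u2]; exact d1.symm
      a2 := by rw [v1, u2]; exact s2
      b2 := by rw [S.M.αα, v2, u1]; exact s2'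
      a3 := by rw [w1, u2]; exact s3
      b3 := by rw [S.M.αα, w2, u1]; exact s3'
      n12 := fun h0 => by
        have h1 : f a = S.M.α (f i) := by rw [← h0, S.M.αα]
        rw [e.hα i q2 q7] at h1
        exact q13 (e.inj _ q1 _ (G.αlt i q2) h1)
      n13 := n13
      n23 := fun h0 => q14 (e.inj _ q2 _ q3 h0)
      f1 := by rw [S.M.αα]; exact X.sf5 q1 q2 q4 q16
      f2 := by
        rw [e.hα i q2 q7]
        refine X.sf5 (G.αlt i q2) q3 ?_ q17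
        rw [← e.hr _ (G.αlt i q2), ← e.hα i q2 q7, rα, e.hr i q2]
        exact q5
      fl := ⟨_, _, _, _, _, _, _, _, _, _, _, _, _, _, _, _, ⟨fun h0 => ?_, fun h0 => ?_,
        fun h0 => ?_, fun h0 => ?_⟩, ⟨fun h0 => ?_, fun h0 => ?_, fun h0 => ?_, fun h0 => ?_⟩,
        ⟨fun h0 => ?_, fun h0 => ?_, fun h0 => ?_, fun h0 => ?_⟩,
        ⟨fun h0 => ?_, fun h0 => ?_, fun h0 => ?_, fun h0 => ?_⟩, q18.1, q18.2⟩ }
  · exact X.pt5 q2 h0 hc he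
  · exact X.pt5 q3 h0 hc he
  · obtain ⟨h1, h2⟩ := band h0
    rw [e.hα j q3 (of_decide_eq_true h1)]
    exact X.pt5 (G.αlt j q3) h2 hc he
  · obtain ⟨h1, h2⟩ := band h0
    rw [e.hα a q1 (of_decide_eq_true h1)]
    exact X.pt5 (G.αlt a q1) h2 hc he
  · exact X.fn5 q2 h0
  · exact X.fn5 q3 h0
  · obtain ⟨h1, h2⟩ := band h0
    rw [e.hα j q3 (of_decide_eq_true h1)]
    exact X.fn5 (G.αlt j q3) h2
  · obtain ⟨h1, h2⟩ := band h0
    rw [e.hα a q1 (of_decide_eq_true h1)]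
    exact X.fn5 (G.αlt a q1) h2
  · rw [va]
    exact gl (G.φlt a q1) q2 (of_decide_eq_true h0)
  · exact gl q2 q3 (of_decide_eq_true h0)
  · obtain ⟨h1, h2⟩ := band h0
    obtain ⟨h2, h3⟩ := band h2
    rw [e.hα j q3 (of_decide_eq_true h1)]
    refine ⟨X.so5 (G.αlt j q3) h2, ?_⟩
    rw [third (G.αlt j q3) h2, S.M.αα, u1]
    exact hsx h3 s2' s3' d1.symm s2 s3
  · obtain ⟨h1, h2⟩ := band h0
    obtain ⟨h2, h3⟩ := band h2
    rw [S.M.αα, e.hα a q1 (of_decide_eq_true h1)]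
    refine ⟨X.so5 (G.αlt a q1) h2, ?_⟩
    rw [third (G.αlt a q1) h2, u1]
    exact hsx h3 s2' s3' d1.symm s2 s3
  · rw [S.M.αα, vi]
    exact gl q1 (G.φlt i q2) (of_decide_eq_true h0)
  · rw [vi, vj]
    exact gl (G.φlt i q2) (G.φlt j q3) (of_decide_eq_true h0)
  · obtain ⟨h1, h2⟩ := band h0
    obtain ⟨h2, h3⟩ := band h2
    rw [e.hα j q3 (of_decide_eq_true h1)]
    refine ⟨X.so5 (G.αlt j q3) h2, ?_⟩
    rw [third (G.αlt j q3) h2, u2]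
    exact hsx h3 s2 s3 d1 s2' s3'
  · obtain ⟨h1, h2⟩ := band h0
    obtain ⟨h2, h3⟩ := band h2
    rw [e.hα a q1 (of_decide_eq_true h1)]
    refine ⟨X.so5 (G.αlt a q1) h2, ?_⟩
    rw [third (G.αlt a q1) h2, ← e.hα a q1 (of_decide_eq_true h1), u2]
    exact hsx h3 s2 s3 d1 s2' s3'

theorem k95 {E : List (List (ℕ × ℕ × Bool))} {i : ℕ} (h : W.kn5 E i = true) {s : V → Bool}
    {c : ℕ} (hc : ∀ a < W.F.O.m, c.testBit a = s (g a)) (he : en5 E c.testBit) :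
    ∃ t0 t1 t2 t3 t4 t5, G65 S L s t0 t1 t2 t3 t4 t5 := by
  have e := X.eP
  have G := X.G
  unfold WF.kn5 WF.k95 at h
  simp only [Bool.and_eq_true, decide_eq_true_eq, Bool.not_eq_true'] at h
  obtain ⟨⟨⟨⟨⟨⟨⟨⟨⟨⟨⟨⟨⟨⟨⟨⟨⟨q1, q2⟩, q3⟩, a0⟩, a1⟩, a2⟩, a3⟩, a4⟩, a5⟩, q4⟩, q6⟩, q7⟩, q8⟩,
    d2⟩, d3⟩, d4⟩, d5⟩, d0⟩ := h
  obtain ⟨b1, c1, x1⟩ := X.nx5 q1 a0
  obtain ⟨b2, c2, x2⟩ := X.nx5 b1 a1
  obtain ⟨b3, c3, x3⟩ := X.nx5 b2 a2
  obtain ⟨b4, c4, x4⟩ := X.nx5 b3 a3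
  obtain ⟨b5, c5, x5⟩ := X.nx5 b4 a4
  obtain ⟨b0, c0, x0⟩ := X.nx5 b5 a5
  rw [q4] at x0
  obtain ⟨-, w0⟩ := X.sl5 q1 q2 hc
  obtain ⟨-, w1⟩ := X.sl5 b1 c1 hc
  obtain ⟨-, w2⟩ := X.sl5 b2 c2 hc
  obtain ⟨-, w3⟩ := X.sl5 b3 c3 hc
  obtain ⟨-, w4⟩ := X.sl5 b4 c4 hc
  obtain ⟨-, w5⟩ := X.sl5 b5 c5 hc
  have n0 : W.F.P.α i ≠ i := by
    unfold WF.nq5 at a0
    simp only [Bool.and_eq_true, decide_eq_true_eq] at a0
    exact a0.1
  have n1 : W.F.P.α (W.nx5 i) ≠ W.nx5 i := by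
    unfold WF.nq5 at a1
    simp only [Bool.and_eq_true, decide_eq_true_eq] at a1
    exact a1.1
  have j1 : W.F.P.φ (W.F.P.α i) < W.F.P.n := G.φlt _ (G.αlt _ q1)
  have s1 := X.σ5 q1 n0
  refine ⟨f i, _, _, _, _, _,
    { r0 := by rw [e.hr i q1]; exact q2
      g0 := by rw [s1, e.hr _ j1]; exact q3
      x1 := x1
      x2 := x2
      x3 := x3
      x4 := x4
      x5 := x5
      x0 := x0
      u := X.fn5 b1 q6
      P1 := by
        rw [e.hα _ b1 n1]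
        exact X.pt5 (G.αlt _ b1) q7 hc he
      P5 := X.pt5 q1 q8 hc he
      c2 := by rw [w2, w1]; exact ce5_eq d2 he
      c3 := by rw [w3, w1]; exact ce5_eq d3 he
      c4 := by rw [w4, w1]; exact cl5_ne d4 he
      c5 := by rw [w5, w1]; exact cl5_ne d5 he
      c0 := by rw [w0, w1]; exact cl5_ne d0 he }⟩

theorem k105 {E : List (List (ℕ × ℕ × Bool))} {i : ℕ} (h : W.kz5 E i = true) {s : V → Bool}
    {c : ℕ} (hc : ∀ a < W.F.O.m, c.testBit a = s (g a)) (he : en5 E c.testBit) :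
    ∃ a1 a2 a3 a4 b c, Tr3 S L s a1 a2 a3 a4 b c := by
  have e := X.eP
  have G := X.G
  unfold WF.kz5 WF.kt5 at h
  simp only [Bool.and_eq_true, decide_eq_true_eq, Bool.not_eq_true'] at h
  obtain ⟨⟨⟨⟨⟨⟨⟨⟨⟨⟨⟨⟨⟨⟨⟨⟨⟨⟨⟨⟨⟨⟨⟨q1, q2⟩, q3⟩, m4⟩, m1⟩, m2⟩, m3⟩, q4⟩, q5⟩, q6⟩, q7⟩,
    n2⟩, nb⟩, q8⟩, n3⟩, nc⟩, q9⟩, q10⟩, d1⟩, d2⟩, d3⟩, d4⟩, db⟩, dc⟩ := h
  obtain ⟨b1, c1, x1⟩ := X.nx5 q1 m4
  obtain ⟨b2, c2, x2⟩ := X.nx5 b1 m1
  obtain ⟨b3, c3, x3⟩ := X.nx5 b2 m2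
  obtain ⟨b4, c4, x4⟩ := X.nx5 b3 m3
  rw [q4] at x4
  have f2 := G.φlt _ b2
  have f3 := G.φlt _ b3
  have f4 := G.φlt _ q1
  obtain ⟨b5, c5, x5⟩ := X.nx5 f2 n2
  obtain ⟨b6, c6, x6⟩ := X.nx5 b5 nb
  obtain ⟨b7, c7, x7⟩ := X.nx5 f3 n3
  obtain ⟨b8, c8, x8⟩ := X.nx5 b7 nc
  rw [q8] at x6
  rw [q9] at x8
  obtain ⟨u4, w4⟩ := X.sl5 q1 q2 hc
  obtain ⟨-, w1⟩ := X.sl5 b1 c1 hc
  obtain ⟨-, w2⟩ := X.sl5 b2 c2 hc
  obtain ⟨-, w3⟩ := X.sl5 b3 c3 hc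
  obtain ⟨-, w5⟩ := X.sl5 b5 c5 hc
  obtain ⟨-, w7⟩ := X.sl5 b7 c7 hc
  have n0 : W.F.P.α i ≠ i := by
    unfold WF.nq5 at m4
    simp only [Bool.and_eq_true, decide_eq_true_eq] at m4
    exact m4.1
  have n1 : W.F.P.α (W.F.P.φ (W.nx5 (W.nx5 (W.nx5 i)))) ≠ W.F.P.φ (W.nx5 (W.nx5 (W.nx5 i))) := by
    unfold WF.nq5 at n3
    simp only [Bool.and_eq_true, decide_eq_true_eq] at n3
    exact n3.1
  have j1 : W.F.P.φ (W.F.P.α i) < W.F.P.n := G.φlt _ (G.αlt _ q1)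
  have s1 := X.σ5 q1 n0
  refine ⟨_, _, _, f i, _, _,
    { r4 := by rw [e.hr i q1]; exact q2
      g := by rw [s1, e.hr _ j1]; exact q3
      x1 := x1
      x2 := x2
      x3 := x3
      x4 := x4
      Pw := X.pt5 b2 q5 hc he
      Py := X.pt5 q1 q6 hc he
      rt := by rw [e.hφ _ b3, e.hr _ f3]; exact q7
      b1 := by rw [e.hφ _ b2]; exact x5
      b2 := by rw [e.hφ _ b3, e.hα _ f3 n1]; exact x6
      c1 := by rw [e.hφ _ b3]; exact x7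
      c2 := by rw [e.hφ _ q1, e.hα _ f4 q10]; exact x8
      s1 := by rw [w1, u4]; exact ce5_eq d1 he
      s2 := by rw [w2, u4]; exact ce5_eq d2 he
      s3 := by rw [w3, u4]; exact ce5_eq d3 he
      s4 := by rw [w4, u4]; exact ce5_eq d4 he
      sb := by rw [w5, u4]; exact cl5_ne db he
      sc := by rw [w7, u4]; exact cl5_ne dc he }⟩

/-- the entries of the bound 5 -/
theorem c5 {E : List ℕ × List (List (ℕ × ℕ × Bool))} (h : W.ok5 E = true) {s : V → Bool} {c : ℕ}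
    (hc : ∀ a < W.F.O.m, c.testBit a = s (g a)) (he : en5 E.2 c.testBit) :
    C5 S L (fun x => ∃ a < W.Z.nc, W.ac a = true ∧ x = S.M.v (d a)) s := by
  have e := X.eP
  have G := X.G
  unfold WF.ok5 at h
  rw [Bool.or_eq_true] at h
  rcases h with h | h
  · unfold WF.ka5 at h
    simp only [Bool.and_eq_true, Bool.or_eq_true] at h
    rcases h with ((((⟨-, h⟩ | ⟨-, h⟩) | ⟨-, h⟩) | ⟨-, h⟩) | ⟨-, h⟩) | ⟨-, h⟩
    rotate_left
    · exact Or.inr (Or.inr (Or.inr (Or.inr (Or.inr (Or.inl (X.k55 h hc he))))))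
    · exact Or.inr (Or.inr (Or.inr (Or.inr (Or.inr (Or.inr (Or.inl (X.k65 h hc he)))))))
    · exact Or.inr (Or.inr (Or.inr (Or.inr (Or.inr (Or.inr (Or.inr (Or.inr
        (Or.inl (X.k85 h hc he)))))))))
    · exact Or.inr (Or.inr (Or.inr (Or.inr (Or.inr (Or.inr (Or.inr (Or.inr
        (Or.inr (Or.inl (X.k95 h hc he))))))))))
    · exact Or.inr (Or.inr (Or.inr (Or.inr (Or.inr (Or.inr (Or.inr (Or.inr
        (Or.inr (Or.inr (X.k105 h hc he))))))))))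
    left
    generalize E.1.getD 1 0 = i at h
    unfold WF.k05 at h
    simp only [Bool.and_eq_true, decide_eq_true_eq] at h
    obtain ⟨⟨⟨⟨k1, k2⟩, k3⟩, k4⟩, k5⟩ := h
    have P1 := X.pt5 k1 k4 hc he
    have hr : W.F.P.real i = true := by
      rw [← e.hr i k1]; exact P1.real _ (Or.inl rfl)
    obtain ⟨a1, a2⟩ := X.sl5 k1 hr hc
    refine ⟨f i, by rw [a1, a2]; exact cl5_ne k3 he, P1, ?_⟩
    rw [e.hα i k1 k2]
    exact X.pt5 (G.αlt i k1) k5 hc he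
  · right
    generalize E.1.getD 1 0 = j at h
    simp only [Bool.and_eq_true, decide_eq_true_eq] at h
    obtain ⟨⟨⟨j1, j2⟩, j3⟩, h⟩ := h
    have fi : f (W.Z.Q.nf 0 j) = W.Z.io S d j := X.H.nm j j1 0 (by norm_num)
    generalize W.Z.Q.nf 0 j = i at h j3 fi
    have hK : ∃ a < W.Z.nc, W.ac a = true ∧ S.M.v (f i) = S.M.v (d a) :=
      ⟨_, X.C.Z.calt j j1, j2, by rw [fi, W.Z.v_io]⟩
    unfold WF.kk5 at h
    simp only [Bool.and_eq_true, Bool.or_eq_true] at h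
    rcases h with (((⟨-, h⟩ | ⟨-, h⟩) | ⟨-, h⟩) | ⟨-, h⟩) | ⟨-, h⟩
    rotate_left 4
    · obtain ⟨r, m, b1, b2, b3, b4⟩ := X.k75 j3 h hc he
      exact Or.inr (Or.inr (Or.inr (Or.inr (Or.inr (Or.inr (Or.inl
        ⟨f i, r, m, hK, b1, b2, b3, b4⟩))))))
    · left
      unfold WF.k15 at h
      simp only [Bool.and_eq_true, Bool.or_eq_true] at h
      obtain ⟨⟨⟨h1, h2⟩, h3⟩, h4⟩ := h
      obtain ⟨g1, g2, g3, g4, g5, g6⟩ := X.gc5 j3 rfl h1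
      obtain ⟨a1, a2⟩ := X.sl5 j3 g4 hc
      obtain ⟨b1, b2⟩ := X.sl5 g2 g5 hc
      have b3 : S.M.v (S.M.σ (S.M.σ (f i))) = S.M.v (f i) := by rw [S.M.vσ, S.M.vσ]
      have b4 : s (S.M.v (f i)) ≠ s (S.M.v (S.M.α (S.M.σ (S.M.σ (f i))))) := by
        rw [g3, b2, a1]
        exact cl5_ne h3 he
      refine ⟨f i, hK, g1, by rw [a1, a2]; exact cl5_ne h2 he, b4, ?_⟩
      rcases h4 with ⟨h4, h5⟩ | ⟨h4, h5⟩
      · left
        refine ⟨X.pt5 j3 h4 hc he, ?_⟩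
        rw [e.hφ i j3, e.hφ _ (G.φlt i j3)]
        exact X.ln5 (G.φlt _ (G.φlt i j3)) h5
      · right
        refine ⟨?_, ?_⟩
        · rw [g3, e.hα _ g2 g6]
          exact X.pt5 (G.αlt _ g2) h4 hc he
        · rw [g3, X.σ5 g2 g6]
          exact X.ln5 (G.φlt _ (G.αlt _ g2)) h5
    · right; left
      unfold WF.k25 at h
      simp only [Bool.and_eq_true, decide_eq_true_eq, Bool.not_eq_true'] at h
      obtain ⟨⟨⟨⟨⟨⟨⟨⟨⟨h1, h2⟩, h3⟩, h4⟩, h5⟩, h6⟩, h7⟩, h8⟩, h9⟩, h10⟩ := h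
      have k1 : W.F.P.φ (W.F.P.α i) < W.F.P.n := G.φlt _ (G.αlt _ j3)
      have k2 := G.φlt _ k1
      have s1 := X.σ5 j3 h2
      refine ⟨f i, hK, by rw [e.hr i j3]; exact h1, by rw [s1, e.hr _ k1]; exact h3, ?_, ?_, ?_, ?_,
        ?_, ?_⟩
      · rw [s1, e.hφ _ k1, e.hr _ k2]; exact h4
      · rw [s1]; exact X.nu5 k1 h5
      · rw [s1, e.hφ _ k1]; exact X.nu5 k2 h6
      · rw [e.hα i j3 h2]; exact X.nu5 (G.αlt i j3) h7
      · rw [s1, e.hφ _ k1, X.lb k2 h9, h8]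
      · rw [s1]; exact X.ot5 j3 k1 h1 h3 h10 hc he
    · right; right; left
      unfold WF.k35 at h
      simp only [Bool.and_eq_true, Bool.or_eq_true] at h
      obtain ⟨⟨h1, h2⟩, h3⟩ := h
      obtain ⟨g1, g2, g3, g4, g5, g6⟩ := X.gc5 j3 rfl h1
      refine ⟨f i, hK, g1, ?_, ?_⟩
      · rw [g3]; exact X.ot5 j3 g2 g4 g5 h2 hc he
      · rcases h3 with h3 | h3
        · left
          rw [g3, X.σ5 g2 g6, e.hr _ (G.φlt _ (G.αlt _ g2))]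
          exact h3
        · right
          rw [e.hφ i j3, e.hφ _ (G.φlt i j3), e.hr _ (G.φlt _ (G.φlt i j3))]
          exact h3
    · right; right; right; left
      unfold WF.k45 at h
      simp only [Bool.and_eq_true, Bool.or_eq_true, decide_eq_true_eq, Bool.not_eq_true'] at h
      obtain ⟨⟨⟨⟨⟨⟨⟨⟨⟨⟨h1, h2⟩, h3⟩, h4⟩, h5⟩, h6⟩, h7⟩, h8⟩, h9⟩, h10⟩, h11⟩ := h
      obtain ⟨j, hj⟩ : ∃ j, j = W.F.P.φ (W.F.P.α i) := ⟨_, rfl⟩
      obtain ⟨k, hk⟩ : ∃ k, k = W.F.P.φ (W.F.P.α j) := ⟨_, rfl⟩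
      rw [← hj] at h3 h4 h5 h6 h7 h10 h11
      rw [← hk] at h5 h6 h7 h10 h11
      have i1 : j < W.F.P.n := by rw [hj]; exact G.φlt _ (G.αlt _ j3)
      have k1 : k < W.F.P.n := by rw [hk]; exact G.φlt _ (G.αlt _ i1)
      have m1 : W.F.P.φ (W.F.P.α k) < W.F.P.n := G.φlt _ (G.αlt _ k1)
      have p1 : W.F.P.φ (W.F.P.φ i) < W.F.P.n := G.φlt _ (G.φlt i j3)
      have s1 : S.M.σ (f i) = f j := by rw [X.σ5 j3 h2, hj]
      have s2 : S.M.σ (S.M.σ (f i)) = f k := by rw [s1, X.σ5 i1 h4, hk]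
      have s3 : S.M.σ (S.M.σ (S.M.σ (f i))) = f (W.F.P.φ (W.F.P.α k)) := by rw [s2, X.σ5 k1 h6]
      have s4 : S.M.φ (S.M.φ (f i)) = f (W.F.P.φ (W.F.P.φ i)) := by
        rw [e.hφ i j3, e.hφ _ (G.φlt i j3)]
      obtain ⟨a1, a2⟩ := X.sl5 j3 h1 hc
      obtain ⟨b1, b2⟩ := X.sl5 k1 h5 hc
      obtain ⟨c1, c2⟩ := X.sl5 m1 h7 hc
      obtain ⟨d1, d2⟩ := X.sl5 p1 h8 hc
      refine ⟨f i, hK, ⟨by rw [e.hr i j3]; exact h1, by rw [s1, e.hr j i1]; exact h3,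
        by rw [s2, e.hr k k1]; exact h5, by rw [s3, e.hr _ m1]; exact h7,
        by rw [s4, e.hr _ p1]; exact h8⟩, by rw [a1, a2]; exact cl5_ne h9 he,
        by rw [s2, a1, b2]; exact cl5_ne h10 he, ?_⟩
      rcases h11 with ⟨g1, g2⟩ | ⟨g1, g2⟩
      · left
        refine ⟨?_, ?_⟩
        · rw [s3, c2, a1]; exact ce5_eq g1 he
        · rw [s4, d1, a1]; exact ce5_eq g2 he
      · right
        rw [X.rdeg5 j3 g1]
        simpa only [Bool.and_eq_true, decide_eq_true_eq] using g2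

/-- the entries of the kinds 5, 6, 9 -/
theorem c5o {E : List ℕ × List (List (ℕ × ℕ × Bool))} (h : W.ok5 E = true) (ho : o5 E = true)
    {s : V → Bool} {c : ℕ} (hc : ∀ a < W.F.O.m, c.testBit a = s (g a))
    (he : en5 E.2 c.testBit) : C5o S L s := by
  unfold o5 at ho
  simp only [Bool.or_eq_true, decide_eq_true_eq] at ho
  unfold WF.ok5 at h
  rw [Bool.or_eq_true] at h
  rcases h with h | h
  · unfold WF.ka5 at h
    simp only [Bool.and_eq_true, Bool.or_eq_true, decide_eq_true_eq] at h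
    rcases h with ((((⟨h0, h⟩ | ⟨h0, h⟩) | ⟨h0, h⟩) | ⟨h0, h⟩) | ⟨h0, h⟩) | ⟨h0, h⟩
    · omega
    · exact Or.inl (X.k55 h hc he)
    · exact Or.inr (Or.inl (X.k65 h hc he))
    · omega
    · exact Or.inr (Or.inr (X.k95 h hc he))
    · omega
  · exfalso
    rw [Bool.and_eq_true] at h
    have h := h.2
    unfold WF.kk5 at h
    simp only [Bool.and_eq_true, Bool.or_eq_true, decide_eq_true_eq] at h
    rcases h with (((⟨h0, -⟩ | ⟨h0, -⟩) | ⟨h0, -⟩) | ⟨h0, -⟩) | ⟨h0, -⟩ <;> omega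

/-- the bound 5 -/
theorem le5 (hb : W.chkB = true) {s : V → Bool} {c : ℕ} (hc : ∀ a < W.F.O.m, c.testBit a = s (g a))
    (h : b5 W.F.D5 W.F.p5 c.testBit = true) : 5 ≤ S.rc s := by
  unfold WF.chkB at hb
  rw [Bool.and_eq_true] at hb
  replace hb := hb.2
  rw [Bool.and_eq_true, List.all_eq_true, List.all_eq_true] at hb
  obtain ⟨hD, hp⟩ := hb
  obtain ⟨⟨D1, m1, t1⟩, ⟨D2, m2, t2⟩, ⟨E, mE, tE⟩⟩ | ⟨E, mE, oE, tE⟩ := b5_iff h
  swap
  · exact (X.H.h5 s).1 (X.c5o (hp E mE) oE hc tE)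
  have T : S.Two s true := X.two5 (hD D1 m1) (p := c.testBit) (fun a ha h1 => by
    rw [← hc a ((X.di5 (hD D1 m1)).1 a ha).2]; exact h1) t1
  have F : S.Two s false := X.two5 (hD D2 m2) (p := fun a => !c.testBit a) (fun a ha h1 => by
    rw [← hc a ((X.di5 (hD D2 m2)).1 a ha).2]; simpa using h1) (by
      have := List.length_eq_length_filter_add (l := D2) c.testBit
      omega)
  exact (X.H.h5 s).2 T F (X.c5 (hp E mE) hc tE)

end WF.CxQ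

end Pool.FC7
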