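import Pool.Agent.FC7.Qh

/-! # Facts given by words, relaxed condition for the cuts: the embedding -/

open Finset

set_option linter.unusedSectionVars false

namespace Pool.FC7

open Pool.FC6 Pool.FC6.St

variable {D V : Type} [Fintype D] [DecidableEq V] {Δ N R e : ℕ} {S : St D V} {L : D → Bool}
  {w : D → ℕ} {W : WF} {d f : ℕ → D} {g : ℕ → V} {us : ℕ → ℕ}

namespace WF.CxQ

variable (X : W.CxQ us Δ S L w d f g)

include X

theorem hu {i : ℕ} (hi : i < W.F.P.n) : S.u (f i) = W.F.P.u i + W.ka S f i := by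
  unfold WF.ka
  by_cases h : W.F.uk i = true
  · rw [if_pos ⟨hi, h⟩, X.C.du i hi h, Nat.zero_add]
  · rw [if_neg (fun h2 => h h2.2), X.un hi (by simpa using h), Nat.add_zero]

theorem hL {i : ℕ} (hi : i < W.F.P.n) : L (f i) = (W.F.O.lb i || W.la L f i) := by
  unfold WF.la
  cases h : W.F.lu i
  · rw [X.lb hi h, Bool.and_false, Bool.false_and, Bool.or_false]
  · rw [(X.C.lu i hi h).1, decide_eq_true hi]
    simp

theorem hw {i : ℕ} (hi : i < W.F.P.n) :
    w (f i) = W.F.O.wt i + (if W.la L f i = true then 1 else 0) := by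
  rw [X.w1, X.hL hi, X.C.wt i hi]
  cases h : W.F.lu i
  · have h1 : W.la L f i = false := by
      unfold WF.la
      rw [h]
      simp
    rw [h1, Bool.or_false, if_neg (by simp : ¬ (false = true)), Nat.add_zero]
  · rw [(X.C.lu i hi h).1, Bool.false_or, if_neg (by simp : ¬ (false = true)), Nat.zero_add]

theorem ka_uk {j : ℕ} (h : W.ka S f j ≠ 0) : W.F.uk j = true := by
  unfold WF.ka at h
  by_contra h2
  exact h (if_neg fun h3 => h2 h3.2)

theorem la_lu {j : ℕ} (h : W.la L f j = true) : W.F.lu j = true := by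
  unfold WF.la at h
  rw [Bool.and_eq_true, Bool.and_eq_true] at h
  exact h.1.2

theorem kp : W.F.Kap (W.ka S f) (W.la L f) :=
  X.K _ _ (fun _ h => X.ka_uk h) fun _ h => X.la_lu h

/-- the outer part of one face -/
theorem one {q i : ℕ} (h : W.one q i = true) : i < W.F.P.n ∧ (sld W.F.P i = false →
    g (W.hb i) ∉ S.A ∧ (∀ j < W.F.P.n, g (W.F.P.l j) = g (W.hb i) → W.F.P.l j = W.hb i) ∧
    inb W.F.P (W.hb i) i = true ∧
    (∀ j < W.F.P.n, W.F.P.α j = j → W.F.P.real j = false → inb W.F.P (W.hb i) j = true →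
      W.F.O.pc j = q)) ∧
    (∀ j < W.F.P.n, W.F.uk j = true → W.fin i j = true → W.F.O.pc (W.F.kp j) = q) := by
  unfold WF.one at h
  simp only [Bool.and_eq_true, Bool.or_eq_true, decide_eq_true_eq, allN_iff,
    Bool.not_eq_true'] at h
  obtain ⟨⟨h1, h2⟩, h4⟩ := h
  refine ⟨h1, fun hs => ?_, fun j hj k1 k2 => ?_⟩
  · rcases h2 with h2 | ⟨h2, h3⟩
    · rw [hs] at h2; exact absurd h2 (by simp)
    obtain ⟨a1, a2⟩ := X.hub h2
    refine ⟨a1, a2, h3, fun j hj k1 k2 k3 => ?_⟩
    have k4 : W.fin i j = true := by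
      unfold WF.fin ifa
      rw [if_neg (by rw [hs]; simp)]
      exact k3
    rcases h4 j hj with h5 | h5
    · rw [k4] at h5; exact absurd h5 (by simp)
    · rcases h5.1 with (h6 | h6) | h6
      · exact absurd k1 h6
      · rw [k2] at h6; exact absurd h6 (by simp)
      · exact h6
  · rcases h4 j hj with h5 | h5
    · rw [k2] at h5; exact absurd h5 (by simp)
    · rcases h5.2 with h6 | h6
      · rw [k1] at h6; exact absurd h6 (by simp)
      · exact h6

/-- the darts of the face -/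
theorem fin_iff {q i : ℕ} (h : W.one q i = true) {k : ℕ} (hk : k < W.F.P.n) :
    S.sc.r (f i) (f k) ↔ W.fin i k = true := by
  obtain ⟨h1, h2, h3⟩ := X.one h
  have e := X.eP
  have G := X.G
  unfold WF.fin ifa
  by_cases hs : sld W.F.P i = true
  · rw [if_pos hs, sld_iff e G X.ok.real_α h1 hs, Bool.or_eq_true, Bool.or_eq_true,
      decide_eq_true_eq, decide_eq_true_eq, decide_eq_true_eq, or_assoc]
    have a1 := G.φlt i h1
    have a2 := G.φlt _ a1
    constructor
    · rintro (h4 | h4 | h4)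
      · exact Or.inl (e.inj k hk i h1 h4)
      · exact Or.inr (Or.inl (e.inj k hk _ a1 h4))
      · exact Or.inr (Or.inr (e.inj k hk _ a2 h4))
    · rintro (h4 | h4 | h4)
      · exact Or.inl (by rw [h4])
      · exact Or.inr (Or.inl (by rw [h4]))
      · exact Or.inr (Or.inr (by rw [h4]))
  · obtain ⟨a1, a2, a3, a4⟩ := h2 (by simpa using hs)
    rw [if_neg hs, ← inb_iff e G a2 hk]
    constructor
    · intro h4
      rw [← sc_inC X.hS X.ok.toWf a1 h4]
      exact (inb_iff e G a2 h1).2 a3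
    · intro h4
      exact inC_sc X.hS X.ok.toWf a1 ((inb_iff e G a2 h1).2 a3) h4

/-- the outer part of the face is in the new face -/
theorem out {S' : St D V} {L' : D → Bool} {w' : D → ℕ}
    (R : RH Δ S S' L L' w w' (W.F.kap (W.ka S f) (W.la L f)).P
      (W.F.kap (W.ka S f) (W.la L f)).P' f g (W.F.kap (W.ka S f) (W.la L f)).O) {q i i0 : ℕ}
    (h : W.one q i = true) (hi0 : i0 < W.F.P.n) (hq : W.F.O.pc i0 = q) {e : D}
    (ho : ∀ j < W.F.P.n, f j ≠ e) (he : S.sc.r (f i) e) :
    S'.sc.r (f i0) e := by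
  obtain ⟨h1, h2, h3⟩ := X.one h
  by_cases hs : sld W.F.P i = true
  · exfalso
    have a1 := X.G.φlt i h1
    have a2 := X.G.φlt _ a1
    rcases (sld_iff X.eP X.G X.ok.real_α h1 hs e).1 he with h4 | h4 | h4
    · exact ho i h1 h4.symm
    · exact ho _ a1 h4.symm
    · exact ho _ a2 h4.symm
  · obtain ⟨a1, a2, a3, a4⟩ := h2 (by simpa using hs)
    exact R.outer_y h1 (RH.hub_K R X.hS a1 a2 h1 a3 hi0
      (fun j hj b1 b2 b3 => (a4 j hj b1 b2 b3).trans hq.symm)) ho he

/-- units of the pieces -/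
theorem fuL {S' : St D V} {L' : D → Bool} {w' : D → ℕ}
    (R : RH Δ S S' L L' w w' (W.F.kap (W.ka S f) (W.la L f)).P
      (W.F.kap (W.ka S f) (W.la L f)).P' f g (W.F.kap (W.ka S f) (W.la L f)).O)
    {q : ℕ} {T : List ℕ} (h : W.hbs q T = true) {i0 : ℕ}
    (hi0 : i0 < W.F.P.n) (hq : W.F.O.pc i0 = q) :
    (T.map fun i => fu S (f i)).sum + W.F.pu q ≤ fu S' (f i0) + (T.map W.ku).sum := by
  classical
  unfold WF.hbs at h
  simp only [Bool.and_eq_true, Bool.or_eq_true, List.all_eq_true, decide_eq_true_eq,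
    Bool.not_eq_true'] at h
  obtain ⟨⟨h1, h2⟩, h3⟩ := h
  have hK := X.kp
  have key := R.faces_fu (T := T) h2 (I := W.fin) (q := q) hi0 hq (fun i hi =>
      ⟨(X.one (h1 i hi)).1, fun k hk => X.fin_iff (h1 i hi) hk,
        fun e ho he => X.out R (h1 i hi) hi0 hq ho he⟩) (fun i hi j hj hij => by
      rcases h3 i hi j hj with h4 | h4
      · exact h4
      · rw [hij] at h4; exact absurd h4 (by simp)) W.F.P.u (W.ka S f)
    (fun k hk => X.hu hk) (U := W.F.pu q) (by
      have e1 : (∑ j ∈ Finset.range W.F.P.n, if W.F.O.pc j = q then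
          W.F.P'.u j + kq W.F.P.n W.F.kp (W.ka S f) j else 0) = W.F.pu q +
          ∑ e ∈ Finset.range W.F.P.n, W.ka S f e * (if W.F.O.pc (W.F.kp e) = q then 1 else 0) := by
        rw [← sum_kq (fun e he h0 => (hK.k e he h0).1) (fun j => if W.F.O.pc j = q then 1 else 0)]
        unfold Fc.pu
        rw [sumN_eq, ← Finset.sum_add_distrib]
        refine Finset.sum_congr rfl fun j _ => ?_
        split_ifs <;> omega
      have e2 : (∑ k ∈ Finset.range (W.F.kap (W.ka S f) (W.la L f)).P.n,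
          if (W.F.kap (W.ka S f) (W.la L f)).O.pc k = q then
            (W.F.kap (W.ka S f) (W.la L f)).P'.u k else 0) =
          ∑ j ∈ Finset.range W.F.P.n, if W.F.O.pc j = q then
            W.F.P'.u j + kq W.F.P.n W.F.kp (W.ka S f) j else 0 := rfl
      rw [e2, e1]
      refine Nat.add_le_add_left (Finset.sum_le_sum fun k hk => ?_) _
      rw [Finset.mem_range] at hk
      have hk : k < W.F.P.n := hk
      by_cases h4 : (T.any fun i => W.fin i k) = true
      · rw [if_pos h4]
        by_cases h0 : W.ka S f k = 0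
        · rw [h0]; exact Nat.zero_le _
        · rw [List.any_eq_true] at h4
          obtain ⟨i, hi, h5⟩ := h4
          have h6 := (X.one (h1 i hi)).2.2 k hk (X.ka_uk h0) h5
          rw [if_pos h6, Nat.mul_one]
      · rw [if_neg h4]; exact Nat.zero_le _)
  refine key.trans (le_of_eq ?_)
  congr 2
  refine List.map_congr_left fun i _ => ?_
  unfold WF.ku
  rw [sumN_eq]
  rfl

theorem fuI {S' : St D V} {L' : D → Bool} {w' : D → ℕ}
    (R : RH Δ S S' L L' w w' (W.F.kap (W.ka S f) (W.la L f)).P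
      (W.F.kap (W.ka S f) (W.la L f)).P' f g (W.F.kap (W.ka S f) (W.la L f)).O)
    {q i i0 : ℕ} (h : W.one q i = true) (hi0 : i0 < W.F.P.n) (hq : W.F.O.pc i0 = q) :
    fu S (f i) + W.F.pu q ≤ fu S' (f i0) + W.ku i := by
  have h1 : W.hbs q [i] = true := by
    unfold WF.hbs
    simp [h]
  have h2 := X.fuL R h1 hi0 hq
  simpa using h2

/-- the known units of a face -/
theorem ku_fu {q i : ℕ} (h : W.one q i = true) : W.ku i ≤ fu S (f i) := by
  classical
  have e1 : fu S (f i) = (∑ d, if ∃ k < W.F.P.n, f k = d then 0 else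
      if S.sc.r (f i) d then S.u d else 0) +
      ∑ k ∈ Finset.range W.F.P.n, if S.sc.r (f i) (f k) then S.u (f k) else 0 := by
    unfold fu
    rw [FC6.RH.split X.eP.inj]
  have e2 : W.ku i ≤ ∑ k ∈ Finset.range W.F.P.n, if S.sc.r (f i) (f k) then S.u (f k) else 0 := by
    unfold WF.ku
    rw [sumN_eq]
    refine Finset.sum_le_sum fun k hk => ?_
    have hk := Finset.mem_range.1 hk
    by_cases h1 : W.fin i k = true
    · rw [if_pos h1, if_pos ((X.fin_iff h hk).2 h1), X.hu hk]
      omega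
    · rw [if_neg h1]; exact Nat.zero_le _
  omega

theorem lwk_le {q i : ℕ} (h : W.one q i = true) : W.lwk i ≤ fu S (f i) := by
  have h1 := X.ku_fu h
  have h2 := lw_le X.ok.thr (X.fc (X.one h).1)
  unfold WF.lwk
  refine max_le h2 ?_
  split_ifs with h3
  · exact Nat.zero_le _
  · exact two_le_fu X.ok.thr (by omega)

/-- outer units -/
theorem ou1 {S' : St D V} {L' : D → Bool} {w' : D → ℕ}
    (R : RH Δ S S' L L' w w' (W.F.kap (W.ka S f) (W.la L f)).P
      (W.F.kap (W.ka S f) (W.la L f)).P' f g (W.F.kap (W.ka S f) (W.la L f)).O)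
    {i : ℕ} (h : W.one (W.F.O.pc i) i = true) (hl : W.ku i < W.lwk i) :
    ∃ x, S'.sc.r (f i) x ∧ S'.u x ≠ 0 := by
  have h0 := X.fuI R h (X.one h).1 rfl
  have h1 := X.lwk_le h
  exact fu_posx (by omega)

/-- the units of the patch at the hub -/
theorem ku_le {i : ℕ} {j : ℕ} (hj : j < W.F.P.n) (hjb : W.fin i j = true) :
    W.F.P.u j ≤ W.ku i := by
  unfold WF.ku
  rw [sumN_eq]
  have := Finset.single_le_sum (f := fun j => if W.fin i j = true then W.F.P.u j else 0)
    (fun _ _ => Nat.zero_le _) (Finset.mem_range.2 hj)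
  rw [if_pos hjb] at this
  exact this

theorem ku_le2 {i : ℕ} {j c : ℕ} (hj : j < W.F.P.n) (hc : c < W.F.P.n) (hne : j ≠ c)
    (hjb : W.fin i j = true) (hcb : W.fin i c = true) :
    W.F.P.u j + W.F.P.u c ≤ W.ku i := by
  unfold WF.ku
  rw [sumN_eq]
  have : ∑ t ∈ ({j, c} : Finset ℕ), (if W.fin i t = true then W.F.P.u t else 0) ≤
      ∑ t ∈ Finset.range W.F.P.n, if W.fin i t = true then W.F.P.u t else 0 :=
    Finset.sum_le_sum_of_subset (by
      intro x hx
      rw [Finset.mem_insert, Finset.mem_singleton] at hx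
      rw [Finset.mem_range]
      rcases hx with rfl | rfl
      · exact hj
      · exact hc)
  rw [Finset.sum_pair hne, if_pos hjb, if_pos hcb] at this
  exact this

/-- two kept corners, or one kept corner and a new one -/
theorem two4 {S' : St D V} {L' : D → Bool} {w' : D → ℕ}
    (R : RH Δ S S' L L' w w' (W.F.kap (W.ka S f) (W.la L f)).P
      (W.F.kap (W.ka S f) (W.la L f)).P' f g (W.F.kap (W.ka S f) (W.la L f)).O)
    {q i i0 : ℕ} (hi0 : i0 < W.F.P.n) (hq : W.F.O.pc i0 = q) (ht : W.t4 q i = true)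
    (hfu1 : 1 ≤ fu S (f i)) (hfu : fu S (f i) ≤ 2) : Two S' (f i0) := by
  classical
  unfold WF.t4 at ht
  rw [Bool.and_eq_true, Bool.and_eq_true, Bool.and_eq_true, Bool.or_eq_true,
    Bool.not_eq_true'] at ht
  obtain ⟨⟨⟨c1, c3⟩, c4⟩, c5⟩ := ht
  obtain ⟨h1, h2, h6⟩ := X.one c1
  obtain ⟨h2, h3, h4, h5⟩ := h2 c3
  have h5 : ∀ j < W.F.P.n, W.F.P.α j = j → W.F.P.real j = false →
      inb W.F.P (W.hb i) j = true → W.F.O.pc j = W.F.O.pc i0 :=
    fun j hj b1 b2 b3 => (h5 j hj b1 b2 b3).trans hq.symm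
  have hfin : ∀ j, W.fin i j = inb W.F.P (W.hb i) j := by
    intro j
    unfold WF.fin ifa
    rw [if_neg (by rw [c3]; simp)]
  have e := X.eP
  have hT : Two S (f i) := by
    obtain ⟨y, h7, h8⟩ := fu_posx hfu1
    rcases X.ok.thr y h8 with h9 | h9
    · rw [← fu_congr h7] at h9; omega
    · exact h9.congr (S.sc.iseqv.symm h7)
  unfold WF.clo at c4
  rw [allN_iff] at c4
  simp only [Bool.and_eq_true, Bool.or_eq_true, decide_eq_true_eq] at c4
  have hK2 : ∀ j < (W.F.kap (W.ka S f) (W.la L f)).P.n,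
      (W.F.kap (W.ka S f) (W.la L f)).P.α j = j →
      (W.F.kap (W.ka S f) (W.la L f)).P.real j = false →
      (W.F.kap (W.ka S f) (W.la L f)).O.pc j = (W.F.kap (W.ka S f) (W.la L f)).O.pc i0 →
      inb (W.F.kap (W.ka S f) (W.la L f)).P (W.hb i) j = true := by
    intro j hj ha hr hp
    rcases (c4 j hj).2 with ((h7 | h7) | h7) | h7
    · exact absurd ha h7
    · rw [show W.F.P.real j = false from hr] at h7; exact absurd h7 (by simp)
    · exact absurd (hp.trans hq) h7
    · exact h7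
  have hcφ : ∀ j < (W.F.kap (W.ka S f) (W.la L f)).P.n, (W.F.kap (W.ka S f) (W.la L f)).O.pc
      ((W.F.kap (W.ka S f) (W.la L f)).P'.φ j) = (W.F.kap (W.ka S f) (W.la L f)).O.pc j :=
    fun j hj => (c4 j hj).1.1
  have hcα : ∀ j < (W.F.kap (W.ka S f) (W.la L f)).P.n,
      (W.F.kap (W.ka S f) (W.la L f)).P.α j ≠ j →
      (W.F.kap (W.ka S f) (W.la L f)).P'.real j = false →
      (W.F.kap (W.ka S f) (W.la L f)).O.pc ((W.F.kap (W.ka S f) (W.la L f)).P.α j) =
        (W.F.kap (W.ka S f) (W.la L f)).O.pc j := by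
    intro j hj ha hr
    rcases (c4 j hj).1.2 with (h7 | h7) | h7
    · exact absurd h7 ha
    · rw [show W.F.P'.real j = false from hr] at h7; exact absurd h7 (by simp)
    · exact h7
  have hkk : ∀ j < W.F.P.n, inb W.F.P (W.hb i) j = true → W.F.P.u j = 0 →
      S.u (f j) ≠ 0 → ∃ k < W.F.P.n, W.F.O.pc k = W.F.O.pc i0 ∧
        W.F.P'.u k + kq W.F.P.n W.F.kp (W.ka S f) k ≠ 0 ∧
        W.F.P'.l k = W.F.P.l j ∧ W.F.O.x ≤ W.F.P.l j := by
    intro j hj hjb hu0 hu
    rw [X.hu hj, hu0, Nat.zero_add] at hu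
    have hk := X.ka_uk hu
    obtain ⟨a1, a2, a3, a4, a5, a6⟩ := X.kp.k j hj hu
    have a7 := le_kq (kp := W.F.kp) (κ := W.ka S f) hj
    exact ⟨W.F.kp j, a1, (h6 j hj hk (by rw [hfin]; exact hjb)).trans hq.symm, by omega, a3,
      a4⟩
  rcases c5 with c5 | c5
  · -- two kept corners
    unfold WF.t4a at c5
    rw [Bool.and_eq_true, allN_iff, decide_eq_true_eq] at c5
    obtain ⟨c5, c6⟩ := c5
    refine RH.two_t R X.hS h2 h3 h1 h4 hi0 h5 hK2 hcφ hcα hT (fun j hj hjb hu => ?_)
      (fun j hj hp hr => ?_)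
    · exact hkk j hj hjb (by
        have := X.ku_le hj (i := i) (by rw [hfin]; exact hjb)
        omega) hu
    · have h7 := c6 j hj
      have hr : W.F.P'.real j = true := hr
      have hp : W.F.O.pc j = q := hp.trans hq
      simp only [Bool.or_eq_true, Bool.and_eq_true, decide_eq_true_eq, hr, Bool.not_true] at h7
      rcases h7 with (((((h7 | h7) | h7) | h7) | h7) | h7) | h7
      · exact absurd hp h7
      · exact absurd h7 (by simp)
      · exact Or.inl h7
      · exact Or.inr (Or.inl h7)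
      · have h8 := h7.1
        unfold Fc.un at h8
        simp only [Bool.and_eq_true, decide_eq_true_eq] at h8
        exact Or.inr (Or.inr (Or.inl ⟨h8.1.1, h8.1.2, h8.2, h7.2⟩))
      · exact Or.inr (Or.inr (Or.inr (Or.inl (X.off h7))))
      · exact Or.inr (Or.inr (Or.inr (Or.inr (X.off h7))))
  · -- one kept corner
    generalize W.tu q = c at c5
    generalize W.F.tk q = kk at c5
    unfold WF.t4b at c5
    simp only [Bool.and_eq_true, Bool.or_eq_true, decide_eq_true_eq, allN_iff] at c5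
    obtain ⟨⟨⟨⟨⟨⟨⟨⟨d1, d2⟩, d3⟩, d4⟩, d5⟩, d6⟩, d7⟩, d8⟩, d9⟩ := c5
    have hcu : S.u (f c) ≠ 0 := by
      rw [X.hu d2]; omega
    have oz : ∀ z, W.okz (W.hb i) c z = true → z < W.F.O.x ∨ Off S (g z) (g (W.hb i)) ∨
        ∃ t, S.real t = true ∧ S.sc.r (f i) t ∧
          ((S.M.v t = S.M.v (f c) ∧ S.M.v (S.M.α t) = g z) ∨
          (S.M.v t = g z ∧ S.M.v (S.M.α t) = S.M.v (f c))) := by
      intro z hz
      unfold WF.okz at hz
      rw [Bool.or_eq_true, Bool.or_eq_true, decide_eq_true_eq] at hz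
      rcases hz with (hz | hz) | hz
      · exact Or.inl hz
      · exact Or.inr (Or.inl (X.off hz))
      · obtain ⟨t, ht, hz⟩ := nall hz
        simp only [Bool.and_eq_true, Bool.or_eq_true, decide_eq_true_eq] at hz
        obtain ⟨⟨z1, z2⟩, z3⟩ := hz
        refine Or.inr (Or.inr ⟨f t, by rw [e.hr t ht]; exact z1,
          (RH.hub_sc R X.hS h2 h3 h1 h4 ht).2 z2, ?_⟩)
        have v1 : S.M.v (S.M.α (f t)) = g (W.F.P.l (W.F.P.φ t)) := by
          rw [← S.M.vφ, e.hφ t ht, e.hl _ (X.G.φlt t ht)]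
        rw [v1, e.hl t ht, e.hl _ d2]
        rcases z3 with z3 | z3
        · exact Or.inl ⟨by rw [z3.1], by rw [z3.2]⟩
        · exact Or.inr ⟨by rw [z3.1], by rw [z3.2]⟩
    have hky : W.F.P'.l kk < W.F.O.x ∨ Off S (g (W.F.P'.l kk)) (g (W.hb i)) := by
      rcases d8 with d8 | d8
      · exact Or.inl d8
      · exact Or.inr (X.off d8)
    have hlk : W.F.P'.l kk < W.F.nl := (X.F.s2 _ d5).2
    refine RH.two_T R X.hS h2 h3 h1 h4 hi0 h5 hK2 hcφ hcα hT hfu d2 d3 hcu d5
      (d6.trans hq.symm)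
      (show W.F.P'.u kk + kq W.F.P.n W.F.kp (W.ka S f) kk ≠ 0 by omega) hky
      (fun j hj hjb hjc hu => ?_) (fun j hj hp hr y hy z hz hyk hyz => ?_)
    · have := X.ku_le2 hj d2 hjc (i := i) (by rw [hfin]; exact hjb) (by rw [hfin]; exact d3)
      exact hkk j hj hjb (by omega) hu
    · have hr : W.F.P'.real j = true := hr
      have hp : W.F.O.pc j = q := hp.trans hq
      rcases d9 j hj with (h7 | h7) | h7
      · exact absurd hp h7
      · rw [hr] at h7; exact absurd h7 (by simp)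
      · rw [Finset.mem_insert, Finset.mem_singleton] at hy hz
        have l1 : W.F.P'.l j < W.F.nl := (X.F.s2 _ hj).2
        have l2 : W.F.P'.l (W.F.P'.φ j) < W.F.nl := (X.F.s2 _ (R.φlt' hj)).2
        rcases hy with rfl | rfl
        · rcases hz with rfl | rfl
          · exact absurd rfl hyz
          · rcases h7.1 with h8 | h8
            · exact absurd hyk (X.dis l1 hlk h8)
            · exact oz _ h8
        · rcases hz with rfl | rfl
          · rcases h7.2 with h8 | h8
            · exact absurd hyk (X.dis l2 hlk h8)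
            · exact oz _ h8
          · exact absurd rfl hyz

/-- THE EMBEDDING -/
theorem emb (hb : W.chkB = true) :
    Emb (W.F.kap (W.ka S f) (W.la L f)) Δ S L w f g where
  e := em_kP X.eP
  hstar a ha x hx := X.star ha hx
  hA a ha := X.alive ha
  r4 a ha := by
    obtain ⟨h1, h2, h3⟩ := X.C.r1 a ha
    have := X.H.r4 _ h1 h3
    rwa [X.eP.hl _ h1, h2] at this
  nf a ha b hb hb' he := X.dead hb hb' (he ▸ X.alive ha)
  fA b hb hb' hA := absurd hA (X.dead hb hb')
  ne a ha b hb h := by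
    have h1 : a < W.F.O.m := ha
    have h2 : b < W.F.O.m := hb
    have := X.C.ml
    exact X.dis (by omega) (by omega) (X.C.ne a h1 b h2 h)
  na a ha b hb h r hr hr' := by
    rintro ⟨h1, h2⟩
    rcases X.C.na a ha b hb h with h3 | h3 | ⟨q, hq, h3⟩
    · obtain ⟨i, hi, hi'⟩ := X.star h3 h1
      exact hr i hi hi'
    · obtain ⟨i, hi, hi'⟩ := X.star h3 h2
      have hne : W.F.P.α i ≠ i := by
        intro ha
        have s1 := ((OD.stat1 X.F.st hi).ring ha).2.2.2.1
        have h4 := X.eP.hl i hi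
        rw [hi', h2] at h4
        have h5 : W.F.P.l i ≠ b := by omega
        exact X.cen h3 (X.lnl hi) h5 h4.symm
      have h4 := X.eP.hα i hi hne
      rw [hi', S.M.αα] at h4
      exact hr _ (X.G.αlt i hi) h4.symm
    · have hl := X.C.nl q hq
      have h4 := X.H.nq q hq
      rw [← X.hh hl.1, ← X.hh hl.2] at h4
      rcases h3 with ⟨h5, h6⟩ | ⟨h5, h6⟩
      · rw [h5, h6] at h4
        exact h4 r hr' ⟨h1, h2⟩
      · rw [h5, h6] at h4
        exact h4 (S.M.α r) (by rw [X.ok.real_α]; exact hr') ⟨h2, by rw [S.M.αα]; exact h1⟩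
  hu i hi := X.hu hi
  hL i hi := X.hL hi
  hw i hi := X.hw hi
  hro i hi hr j hj hj' := by
    obtain ⟨h1, h2⟩ := X.C.rg i hi hr
    have hi : i < W.F.P.n := hi
    have hj : j < W.F.P.n := hj
    have e := X.eP
    have G := X.G
    have hrj : W.F.P.real j = true := by
      rw [← e.hr j hj, hj', X.ok.real_α, e.hr i hi]; exact h1
    rcases h2 j hj with h3 | h3 | h3
    · rw [hrj] at h3; exact absurd h3 (by simp)
    · refine X.dis (X.lnl hj) (X.lnl (G.φlt i hi)) h3 ?_
      rw [← e.hl j hj, ← e.hl _ (G.φlt i hi), hj', ← e.hφ i hi, S.M.vφ]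
    · refine X.dis (X.lnl (G.φlt j hj)) (X.lnl hi) h3 ?_
      rw [← e.hl i hi, ← e.hl _ (G.φlt j hj), ← e.hφ j hj, S.M.vφ, hj', S.M.αα]
  hB s c hc h1 h2 := by
    have h3 := X.gb hb s c hc
    have h4 : (FC6.OD.inS W.F.P c + W.F.gb c + 1) / 2 ≤ S.rc s := by
      have h5 : W.F.gb c = gbn W.F.P W.F.O W.F.gt c := rfl
      omega
    have h6 : W.F.bf c ≤ S.rc s := by
      have h7 := X.H.hB s c hc h1 h2
      unfold Fc.bf4 bf3 at h7
      unfold Fc.bf bf5
      split_ifs at h7 ⊢ with h8 h9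
      · exact h7
      · exact X.le5 hb hc h9
      · exact h7
    rw [Fc.kap_bg]
    exact max_le h6 h4
  sl a hxa ha := by
    have h1 : a < W.F.O.m := ha
    rcases X.C.sl a h1 with h2 | ⟨h2, h3, h4, h5⟩
    · have h5 : (W.F.kap (W.ka S f) (W.la L f)).O.sl a = 0 := h2
      rw [h5, Nat.add_zero]
      exact X.ok.deg _ (X.alive h1)
    · have h6 : g a = S.M.v (S.M.α (W.Z.io S d (W.sc a))) := by
        have h9 := X.hh h2
        rw [h3] at h9
        exact h9
      by_cases h7 : W.F.O.sl a = 0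
      · rw [show (W.F.kap (W.ka S f) (W.la L f)).O.sl a = 0 from h7, Nat.add_zero]
        exact X.ok.deg _ (X.alive h1)
      · have h8 := (X.H.sw a h1 h7).deg X.hS X.ok.toWf X.w1 h4
        rw [← h6] at h8
        rw [h8]
        exact h5
  op i hi ho x hx := by
    classical
    have h1 := (X.fc hi).2.2 (X.C.op i hi ho)
    unfold fu at h1
    have h2 := (Finset.sum_eq_zero_iff.1 h1) x (Finset.mem_univ _)
    rwa [if_pos hx] at h2
  tw i hi ho := by
    have h1 := X.fc hi
    rcases X.C.tw i hi ho with h2 | h2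
    · have := h1.2.2 h2; omega
    · exact (h1.1 h2).2
  sp c' p hp hs hc := by
    obtain ⟨h1, h2, h3, h4⟩ := X.C.sp p hp hs
    have e := X.eP
    have G := X.G
    left
    have hc' : c' (S.M.v (f p.1)) ≠ c' (S.M.v (S.M.α (f p.2))) := by
      rw [e.hl _ h1, ← S.M.vφ, e.hφ _ h2, e.hl _ (G.φlt _ h2)]
      exact hc
    rcases h4 with ⟨h4, h5⟩ | ⟨h4, h5, h6⟩
    · refine ⟨f p.1, ORel.refl _, fun j hj hne hj' => ?_, by rw [e.hr _ h1]; exact h4, ?_⟩
      · have hj : j < W.F.P.n := hj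
        rw [e.inj j hj _ h1 hj'] at hne
        exact hne h3
      · rw [← h5] at hc'
        exact hc'
    · obtain ⟨a1, a2⟩ := X.hub h5
      have hv : S.M.v (S.M.α (f p.1)) = g (W.F.P.l (W.F.P.φ p.1)) := by
        rw [← S.M.vφ, e.hφ _ h1, e.hl _ (G.φlt _ h1)]
      refine act_arc (P := (W.F.kap (W.ka S f) (W.la L f)).P) (em_kP e) (good_kP G) X.hS X.ok.toWf h1 h3 h4
        (by rw [hv]; exact a1) (fun j hj hα hj' => ?_) hc'
      have hj : j < W.F.P.n := hj
      exact h6 j hj hα (a2 j hj (by rw [← e.hl j hj, hj', hv]))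
  ou S' L' w' R i hi ho := by
    obtain ⟨h1, h2⟩ := X.C.ou i hi ho
    exact X.ou1 R h1 h2
  cv S' L' w' R i hi hu := by
    have hi : i < W.F.P.n := hi
    have hst := XE.stat_of X.F.X.st
    -- units in the new face
    have key : ∀ j < W.F.P.n, W.okw i j = true → ∃ d, S'.sc.r (f j) d ∧ S'.u d ≠ 0 := by
      intro j hj a4
      unfold WF.okw at a4
      rw [Bool.or_eq_true, Bool.or_eq_true, Bool.and_eq_true, decide_eq_true_eq,
        decide_eq_true_eq] at a4
      rcases a4 with (a4 | a4) | a4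
      · obtain ⟨b1, b2⟩ := X.C.ou j hj a4
        exact X.ou1 R b1 b2
      · have h3 := X.hu hi
        have h4 := X.C.du i hi a4.1
        have h5 : W.ka S f i ≠ 0 := by omega
        have h6 := (X.kp.k i hi h5).1
        have h7 := le_kq (kp := W.F.kp) (κ := W.ka S f) hi
        refine ⟨f (W.F.kp i), R.sc_piece hj h6 a4.2.symm, ?_⟩
        rw [R.rep.hu' _ h6]
        show W.F.P'.u (W.F.kp i) + kq W.F.P.n W.F.kp (W.ka S f) (W.F.kp i) ≠ 0
        omega
      · have h5 : ∃ k < W.F.P.n, W.F.O.pc k = W.F.O.pc j ∧ W.F.P'.u k ≠ 0 := by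
          by_contra hno
          push Not at hno
          apply a4
          unfold Fc.pu
          rw [sumN_eq]
          refine Finset.sum_eq_zero fun k hk => ?_
          by_cases h6 : W.F.O.pc k = W.F.O.pc j
          · rw [if_pos h6]; exact hno k (Finset.mem_range.1 hk) h6
          · rw [if_neg h6]
        obtain ⟨k, hk, h6, h7⟩ := h5
        refine ⟨f k, R.sc_piece hj hk h6.symm, ?_⟩
        rw [R.rep.hu' k hk]
        show W.F.P'.u k + kq W.F.P.n W.F.kp (W.ka S f) k ≠ 0
        omega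
    rcases X.C.v i hi with h1 | h1
    · exfalso
      apply hu
      rw [X.hu hi, h1.1]
      unfold WF.ka
      rw [if_neg (fun h2 => by rw [h1.2] at h2; exact absurd h2.2 (by simp))]
    · unfold WF.okv at h1
      rw [Bool.or_eq_true, Bool.or_eq_true, List.any_eq_true, List.any_eq_true] at h1
      rcases h1 with (⟨z, hz, h1⟩ | ⟨j, hj, h1⟩) | h1
      · left
        refine ⟨i, hi, S.sc.iseqv.refl _, z, hz, fun j hj hb => ?_⟩
        rw [allN_iff] at h1
        have h2 := h1 j hj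
        have hb' : z.testBit (W.F.X.ce j) = true := hb
        rw [hb', Bool.or_eq_true, decide_eq_true_eq] at h2
        rcases h2 with h2 | h2
        · exact absurd h2 (by simp)
        · exact h2
      · right; right
        rw [Bool.and_eq_true, decide_eq_true_eq] at h1
        have hj' : j < W.F.P.n := X.F.X.kd j hj
        exact ⟨j, hj, sc_ce hst X.eP hi hj' h1.1.symm, key j hj' h1.2⟩
      · right; left
        obtain ⟨j, hj, h2⟩ := nall h1
        simp only [Bool.and_eq_true, decide_eq_true_eq, Bool.not_eq_true'] at h2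
        obtain ⟨⟨⟨a1, a2⟩, a3⟩, a4⟩ := h2
        have hsc : S.sc.r (f i) (f j) := sc_ce hst X.eP hi hj a3.symm
        exact ⟨j, hj, a1, a2, hsc, key j hj a4⟩
  oz S' L' w' R i hi hz := by
    classical
    have hi : i < W.F.P.n := hi
    have h0 : fu S (f i) = 0 → ∀ x, S.sc.r (f i) x → S.u x = 0 := by
      intro h1 x hx
      unfold fu at h1
      have h2 := (Finset.sum_eq_zero_iff.1 h1) x (Finset.mem_univ _)
      rwa [if_pos hx] at h2
    rcases X.C.oz i hi hz with h1 | ⟨h1, h2, h3⟩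
    · exact Or.inr (Or.inr (h0 ((X.fc hi).2.2 h1)))
    · have h4 := X.fuI R h1 hi rfl
      by_cases h5 : fu S (f i) = 0
      · exact Or.inr (Or.inr (h0 h5))
      by_cases h6 : 3 ≤ fu S (f i)
      · left; omega
      have h7 := two_le_fu X.ok.thr (d := f i) (by omega)
      rcases h3 with h3 | h3 | h3 | h3
      · rcases X.oc hi h3 with h8 | h8
        · exact absurd h8 h5
        · exact absurd h8 h6
      · exact absurd ((X.fc hi).2.1 h3) h6
      · left; omega
      · exact Or.inr (Or.inl ⟨X.two4 R hi rfl h3 (by omega) (by omega), by omega⟩)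
  kr i hi h := by
    obtain ⟨h1, h2⟩ := X.C.uk i hi h
    exact sc_ce (XE.stat_of X.F.X.st) X.eP hi h1 h2.symm
  hlu i hi hl hLi := by
    have hst := XE.stat_of X.F.X.st
    have hi' : i < W.F.P.n := (hst.rs i hi).1
    obtain ⟨h1, h2, h3⟩ := X.C.lu i hi' hl
    refine ⟨h2, ?_, ?_⟩
    · show (W.F.O.lb' i || W.la L f i) = true
      unfold WF.la
      rw [decide_eq_true hi', show W.F.lu i = true from hl, hLi]
      simp
    · by_cases hO : OU (W.F.kap (W.ka S f) (W.la L f)).P f (S.M.α (f i))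
      · exact Or.inl hO
      · right
        have e := X.eP
        have G := X.G
        have : ∃ j < W.F.P.n, f j = S.M.α (f i) := by
          unfold OU at hO
          push Not at hO
          exact hO
        obtain ⟨j, j1, j2⟩ := this
        have hrj : W.F.P.real j = true := by
          rw [← e.hr j j1, j2, X.ok.real_α]; exact X.ok.L_real _ hLi
        rcases h3 j j1 with h4 | h4 | h4 | h4
        · rw [hrj] at h4; exact absurd h4 (by simp)
        · exact ⟨j, h4, j2⟩
        · refine absurd ?_ (X.dis (X.lnl j1) (X.lnl (G.φlt i hi')) h4)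
          rw [← e.hl j j1, ← e.hl _ (G.φlt i hi'), j2, ← e.hφ i hi', S.M.vφ]
        · refine absurd ?_ (X.dis (X.lnl (G.φlt j j1)) (X.lnl hi') h4)
          rw [← e.hl i hi', ← e.hl _ (G.φlt j j1), ← e.hφ j j1, S.M.vφ, j2, S.M.αα]
  t3 S' L' w' R i hi ht := by
    have hpc := (OD.stat1 X.F.st hi).pc
    obtain ⟨h1, h2⟩ := X.C.o3 _ hpc ht
    have h4 := X.fuL R h1 hi rfl
    have h5 : ((W.tl (W.F.O.pc i)).map W.lwk).sum ≤
        ((W.tl (W.F.O.pc i)).map fun i => fu S (f i)).sum := by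
      refine List.sum_le_sum fun j hj => ?_
      have h6 := h1
      unfold WF.hbs at h6
      simp only [Bool.and_eq_true, List.all_eq_true, decide_eq_true_eq] at h6
      exact X.lwk_le (h6.1.1 j hj)
    omega
  t4 S' L' w' R i hi ht := by
    have hi : i < W.F.P.n := hi
    have hpc := (OD.stat1 X.F.st hi).pc
    obtain ⟨c2, c3⟩ := X.C.o4 _ hpc ht
    have c4 : W.one (W.F.O.pc i) (W.F.tj (W.F.O.pc i)) = true := by
      unfold WF.t4 at c2
      simp only [Bool.and_eq_true] at c2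
      exact c2.1.1.1
    have hj := (X.one c4).1
    have h1 : 1 ≤ fu S (f (W.F.tj (W.F.O.pc i))) := by
      rcases c3 with c3 | c3
      · exact ((X.fc hj).1 c3).1
      · have := X.ku_fu c4
        omega
    by_cases h2 : fu S (f (W.F.tj (W.F.O.pc i))) ≤ 2
    · exact Or.inr (X.two4 R hi rfl c2 h1 h2)
    · left
      rcases c3 with c3 | c3
      · exact absurd ((X.fc hj).1 c3).2 h2
      · have h3 := X.fuI R c4 hi rfl
        have h3 : fu S (f (W.F.tj (W.F.O.pc i))) + W.F.pu (W.F.O.pc i) ≤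
            fu S' (f i) + W.ku (W.F.tj (W.F.O.pc i)) := h3
        have c5 : W.ku (W.F.tj (W.F.O.pc i)) ≤ W.F.pu (W.F.O.pc i) := c3.2
        omega

end WF.CxQ

end Pool.FC7
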