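import Pool.Agent.FC7.Qi

/-! # Facts given by words, relaxed condition for the cuts: the kept units -/

open Finset

set_option linter.unusedSectionVars false

namespace Pool.FC7

open Pool.FC6 Pool.FC6.St

variable {D V : Type} [Fintype D] [DecidableEq V]

section

variable {F : Fc} {Δ : ℕ} {S : St D V} {L : D → Bool} {w : D → ℕ} {f : ℕ → D} {g : ℕ → V}

/-- pieces with at least three units -/
theorem Fc.ChkW.ty1 {us : ℕ → ℕ} (C : F.ChkW us Δ) (E : Emb F Δ S L w f g) {S' : St D V} {L' : D → Bool} {w' : D → ℕ}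
    (R : RH Δ S S' L L' w w' F.P F.P' f g F.O) {i : ℕ} (hi : i < F.P.n)
    (ht : F.ty (F.O.pc i) = 0 ∨ F.ty (F.O.pc i) = 3) : 3 ≤ fu S' (f i) := by
  rcases ht with ht | ht
  · have h3 : 3 ≤ F.pu (F.O.pc i) := by
      rcases C.q1 _ (OD.stat1 C.st hi).pc with h1 | h1 | h1 | h1 | h1
      · exact h1.2
      · omega
      · omega
      · omega
      · omega
    refine le_trans h3 (le_trans (le_of_eq ?_) (R.fu_piece hi))
    unfold Fc.pu
    rw [sumN_eq]
  · exact E.t3 S' L' w' R i hi ht

/-- the thresholds -/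
theorem Fc.ChkW.thr {us : ℕ → ℕ} (C : F.ChkW us Δ) (E : Emb F Δ S L w f g) {S' : St D V}
    {L' : D → Bool} {w' : D → ℕ} (R : RH Δ S S' L L' w w' F.P F.P' f g F.O) {i : ℕ}
    (hi : i < F.P.n) : 3 ≤ fu S' (f i) ∨ Two S' (f i) ∨ (us i = 0 ∧ F.ou i = false ∧
      (F.P.α i = i → F.P.real i = false → ∀ d, S.sc.r (f i) d → S.u d = 0)) := by
  have rl' : ∀ i < F.P.n, F.P'.real i = true → F.P'.l i < F.O.m ∧ F.P'.l (F.P'.φ i) < F.O.m := by
    intro i hi hr
    have := (OD.stat1 C.st hi).r' hr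
    exact ⟨this.2.1, this.2.2.2⟩
  have s1i := OD.stat1 C.st hi
  rcases C.q1 _ s1i.pc with c1 | c1 | c1 | c1 | c1
  · exact Or.inl (C.ty1 E R hi (Or.inl c1.1))
  · have c2 := C.q2 i hi c1
    rcases c2.1 with c3 | ⟨e, e1, e2, e3, e4, e5, e6⟩
    · by_cases hz : F.oz i = true
      · rcases E.oz S' L' w' R i hi hz with h1 | h1 | h1
        · exact Or.inl h1
        · exact Or.inr (Or.inl h1.1)
        · exact Or.inr (Or.inr ⟨c3, c2.2.1, fun _ _ => h1⟩)
      · right; right
        refine ⟨c3, c2.2.1, fun ha hr => ?_⟩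
        rcases c2.2.2 with c4 | c4 | c4 | c4
        · exact absurd ha c4
        · rw [hr] at c4; exact absurd c4 (by simp)
        · exact E.op i hi c4
        · exact absurd c4 hz
    · have h3 := R.sc_piece e4 hi e6
      rcases E.oz S' L' w' R _ e4 e5 with h1 | h1 | h1
      · exact Or.inl (by rw [← fu_congr h3]; exact h1)
      · exact Or.inr (Or.inl (h1.1.congr h3))
      · exfalso
        have h2 := h1 _ (S.sc.iseqv.symm (E.kr e e1 e2))
        rw [E.hu e e1] at h2
        exact e3 h2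
  · exact Or.inl (C.ty1 E R hi (Or.inr c1))
  · rcases E.t4 S' L' w' R i hi c1 with h1 | h1
    · exact Or.inl h1
    · exact Or.inr (Or.inl h1)
  · right; left
    obtain ⟨c0, c1, c2, c3, c4, c5, c6, c6a, c6b, c7, c8, c9, c10⟩ := c1
    refine R.two_piece hi c1 c2 c3.symm c4.symm c5 c6 (E.ne _ c6a _ c6b c7)
      (fun r hr hreal => ?_) (fun r hr hreal => ⟨E.na _ c6a _ c6b c8 r hr hreal,
        E.na _ c6b _ c6a c9 r hr hreal⟩)
    have := c10 r hr hreal
    refine ⟨fun h5 => ?_, fun h5 => ?_⟩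
    · rcases this.1 with h6 | h6
      · exact E.ne _ (rl' r hr hreal).1 _ c6a h6 h5.1
      · exact E.ne _ (rl' r hr hreal).2 _ c6b h6 h5.2
    · rcases this.2 with h6 | h6
      · exact E.ne _ (rl' r hr hreal).1 _ c6b h6 h5.1
      · exact E.ne _ (rl' r hr hreal).2 _ c6a h6 h5.2

end

variable {Δ N R e : ℕ} {S : St D V} {L : D → Bool} {w : D → ℕ} {W : WF} {d f : ℕ → D} {g : ℕ → V}
  {us : ℕ → ℕ}

/-- THE EMBEDDING, with the kept units -/
theorem WF.CxQ.embQ (X : W.CxQ us Δ S L w d f g) (hb : W.chkB = true) :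
    EmbQ (W.F.kap (W.ka S f) (W.la L f)) Δ S L w f g := by
  have E := X.emb hb
  have C := X.F.kap X.kp
  refine ⟨E.e, E.hstar, E.hA, E.r4, E.nf, E.fA, E.ne, E.na, E.hu, E.hL, E.hw, E.hro, E.hB, E.sl,
    E.op, E.tw, E.sp, fun S' L' w' R i hi ho => ?_, fun S' L' w' R i hi hu => ?_, E.oz, E.kr, E.hlu,
    E.t3, E.t4⟩
  · obtain ⟨x, x1, x2⟩ := E.ou S' L' w' R i hi ho
    refine ⟨x, x1, ?_⟩
    have h1 : Str S' (f i) := by
      rcases C.thr E R hi with h2 | h2 | ⟨h2, h3, -⟩
      · exact Or.inl h2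
      · exact Or.inr h2
      · rw [ho] at h3
        exact absurd h3 (by simp)
    rw [st_u (h1.cg x1)]
    exact x2
  · have hi : i < W.F.P.n := hi
    have hst := XE.stat_of X.F.X.st
    -- strong faces
    have tst : ∀ j < W.F.P.n, us j + kq W.F.P.n W.F.kp (W.ka S f) j ≠ 0 ∨ W.F.ou j = true →
        Str S' (f j) := by
      intro j hj h1
      rcases C.thr E R hj with h2 | h2 | ⟨h2, h3, -⟩
      · exact Or.inl h2
      · exact Or.inr h2
      · exfalso
        rcases h1 with h1 | h1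
        · exact h1 h2
        · have h3 : W.F.ou j = false := h3
          rw [h1] at h3
          exact absurd h3 (by simp)
    have kst : ∀ {a b : D}, S'.sc.r a b → Str S' a → S'.u b ≠ 0 → (st S').u b ≠ 0 := by
      intro a b h1 h2 h3
      rw [st_u (h2.cg h1)]
      exact h3
    -- units in the new face
    have key : ∀ j < W.F.P.n, (W.su us).okw i j = true → ∃ d, S'.sc.r (f j) d ∧ (st S').u d ≠ 0 := by
      intro j hj a4
      unfold WF.okw at a4
      rw [Bool.or_eq_true, Bool.or_eq_true, Bool.and_eq_true, decide_eq_true_eq,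
        decide_eq_true_eq] at a4
      rcases a4 with (a4 | a4) | a4
      · have a4 : W.F.ou j = true := a4
        obtain ⟨b1, b2⟩ := X.C.ou j hj a4
        obtain ⟨x, x1, x2⟩ := X.ou1 R b1 b2
        refine ⟨x, x1, kst x1 (tst j hj (Or.inr a4)) x2⟩
      · have h3 := X.hu hi
        have h4 := X.C.du i hi a4.1
        have h5 : W.ka S f i ≠ 0 := by omega
        have h6 := (X.kp.k i hi h5).1
        have h7 := le_kq (kp := W.F.kp) (κ := W.ka S f) hi
        refine ⟨f (W.F.kp i), R.sc_piece hj h6 a4.2.symm, kst (S'.sc.iseqv.refl _) (tst _ h6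
          (Or.inl (by omega))) ?_⟩
        rw [R.rep.hu' _ h6]
        show W.F.P'.u (W.F.kp i) + kq W.F.P.n W.F.kp (W.ka S f) (W.F.kp i) ≠ 0
        omega
      · have h5 : ∃ k < W.F.P.n, W.F.O.pc k = W.F.O.pc j ∧ us k ≠ 0 := by
          by_contra hno
          push Not at hno
          apply a4
          unfold Fc.pu
          rw [sumN_eq]
          refine Finset.sum_eq_zero fun k hk => ?_
          show (if W.F.O.pc k = W.F.O.pc j then us k else 0) = 0
          by_cases h6 : W.F.O.pc k = W.F.O.pc j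
          · rw [if_pos h6]; exact hno k (Finset.mem_range.1 hk) h6
          · rw [if_neg h6]
        obtain ⟨k, hk, h6, h7⟩ := h5
        refine ⟨f k, R.sc_piece hj hk h6.symm, kst (S'.sc.iseqv.refl _) (tst _ hk
          (Or.inl (by omega))) ?_⟩
        rw [R.rep.hu' k hk]
        have h8 := X.F.us k hk
        show W.F.P'.u k + kq W.F.P.n W.F.kp (W.ka S f) k ≠ 0
        omega
    rcases X.v i hi with h1 | h1
    · exfalso
      apply hu
      rw [X.hu hi, h1.1]
      unfold WF.ka
      rw [if_neg (fun h2 => by rw [h1.2] at h2; exact absurd h2.2 (by simp))]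
    · unfold WF.okv at h1
      rw [Bool.or_eq_true, Bool.or_eq_true, List.any_eq_true, List.any_eq_true] at h1
      rcases h1 with (⟨z, hz, h1⟩ | ⟨j, hj, h1⟩) | h1
      · left
        refine ⟨i, hi, S.sc.iseqv.refl _, z, hz, fun j hj hb => ?_⟩
        rw [allN_iff] at h1
        have h2 : (!z.testBit (W.F.X.ce j) || decide (W.F.X.ce j = W.F.X.ce i)) = true := h1 j hj
        have hb' : z.testBit (W.F.X.ce j) = true := hb
        rw [hb', Bool.or_eq_true, decide_eq_true_eq] at h2
        rcases h2 with h2 | h2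
        · exact absurd h2 (by simp)
        · exact h2
      · right; right
        rw [Bool.and_eq_true, decide_eq_true_eq] at h1
        have hj' : j < W.F.P.n := X.F.X.kd j hj
        exact ⟨j, hj, sc_ce hst X.eP hi hj' h1.1.symm, key j hj' h1.2⟩
      · right; left
        obtain ⟨j, hj, h2⟩ := nall h1
        simp only [Bool.and_eq_true, decide_eq_true_eq, Bool.not_eq_true'] at h2
        obtain ⟨⟨⟨a1, a2⟩, a3⟩, a4⟩ := h2
        have hsc : S.sc.r (f i) (f j) := sc_ce hst X.eP hi hj a3.symm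
        exact ⟨j, hj, a1, a2, hsc, key j hj a4⟩

end Pool.FC7
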