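import Pool.Agent.FC7.FtC
import Pool.Agent.FC7.Qj

/-! # Facts given by words, relaxed condition for the cuts: minimal counterexamples -/

open Finset

set_option linter.unusedSectionVars false

namespace Pool.FC7

open Pool.FC6 Pool.FC6.St

open Classical in
/-- the relaxed class from the condition for the cuts -/
def RlOf : Prop := ∀ (D V : Type) [Fintype D] [DecidableEq V] (Δ : ℕ) (S S' : St D V)
  (L L' : D → Bool) (w w' : D → ℕ) (P P' : Pa) (f : ℕ → D) (g : ℕ → V) (X : OD) (Bf rb : ℕ → ℕ),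
  Ok Δ S L w → RH Δ S S' L L' w w' P P' f g X → X.CutsQ P P' Bf rb → X.x < X.m →
  (∀ (s : V → Bool) (c : ℕ), (∀ a < X.m, c.testBit a = s (g a)) →
      (∃ y ∈ S.A, s y = true) → (∃ y ∈ S.A, s y = false) → Bf c ≤ S.rc s) →
  (∀ (s : V → Bool) (t : D → Bool) (c : ℕ),
      (∀ a, X.x ≤ a → a < X.m → c.testBit a = s (g a)) →
      rb c ≤ ∑ d, if ∃ i < P.n, f i = d then 0 else cfw S' w' s t d) →
  Rlc Δ S' L' w'

/-- the checks of a fact without the condition for the cuts -/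
structure WG.QW (W : WG) (us : ℕ → ℕ) : Prop where
  ck : W.toWF.Ck 6
  cf : W.cf.chk = true
  cL : W.cf.chkL W.lt = true
  c4 : W.cf.chk4 W.bg = true
  dq : W.dq.all (fun q => W.cf.sd q.1 q.2) = true
  nq : W.nq.all W.nqc = true
  oq : W.oq.all W.oqc = true
  sm : W.F.sm = 0
  cB : W.chkB = true
  v : ∀ i < W.F.P.n, (W.F.P.u i = 0 ∧ W.F.uk i = false) ∨ (W.toWF.su us).okv i = true
  F : W.F.ChkW us 6
  K : ∀ (κ : ℕ → ℕ) (l : ℕ → Bool), (∀ i, κ i ≠ 0 → W.F.uk i = true) →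
    (∀ i, l i = true → W.F.lu i = true) → W.F.Kap κ l
  nb : W.F.O.nb' W.F.P W.F.P' < W.F.O.x

/-- the checks of a fact with the relaxed condition -/
structure WG.QH (W : WG) (us : ℕ → ℕ) : Prop extends W.QW us where
  cu : W.F.O.CutsQ W.F.P W.F.P' W.F.bg (fun c => W.F.O.rr W.F.P c + W.F.O.wr W.F.P c)

variable {D V : Type} [Fintype D] [DecidableEq V] {S : St D V} {L : D → Bool}
  {w : D → ℕ} {W : WG} {d : ℕ → D} {us : ℕ → ℕ}

/-- the words give the input of the fact -/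
theorem WG.QW.hy (Q : W.QW us) (W0 : Wf 6 S L w) (hS : IsStar S)
    (B : W.cf.Base0 S L d) {Old : V → Prop} (X : W.Ctx S L d Old) :
    ∃ f g, W.toWF.Hy S L d f g := by
  have c2 := Q.cf
  have c3 := Q.cL
  have c4 := Q.c4
  have c5 := Q.dq
  have c6 := Q.nq
  have c6o := Q.oq
  have c7 := Q.sm
  rw [List.all_eq_true] at c5 c6 c6o
  have H := B.hy c2 hS W0
  have hbg := WG.bg_ne c2 hS W0 B X.bw X.pl
  have r4 : ∀ a < W.cf.Z.nc, W.cf.ac a = true → ∀ k, S.real k = true → S.M.v k = S.M.v (d a) →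
      4 ≤ S.rdeg (S.M.v (S.M.α k)) := fun a ha _ k hk hv => X.r4 _ (X.od a ha k hk hv).2
  have hac : ∀ a < W.Z.nc, ∀ k, S.real k = true → S.M.v k = S.M.v (d a) → W.ac a = true :=
    fun a ha k hk hv => (H.hac a ha).1 (hv ▸ W0.real_A _ hk)
  have B1 : W.cf.Base S L d := B.base4 c2 hS W0 hbg X.n2 X.f4 r4 X.fr X.fh c4
  have nad : ∀ j < W.Z.Q.ns, ∀ j' < W.Z.Q.ns, W.cf.nadj W.bg j j' = true → ∀ r,
      ¬ (S.M.v r = S.M.v (S.M.α (W.Z.io S d j)) ∧ S.M.v (S.M.α r) =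
        S.M.v (S.M.α (W.Z.io S d j'))) := fun j hj j' hj' h r =>
    Cf.nadj_no c2 hS W0 B hbg X.n2 X.f4 r4 hj hj' h r
  obtain ⟨f, g, e1, e2, e3, e4, -, -⟩ := B1.emb c2 hS W0
  have C := Q.ck
  have eP := Em.restrict e1 C.rs
  have inf : Info W.Z W.ac S L d W.lt := B1.info c2 hS W0 c3
  have hρ : ∀ j < W.Z.Q.ns, S.M.σ (W.Z.io S d j) = W.Z.io S d (W.Z.Q.ρ j) :=
    fun j hj => H.ioρ hj
  have cu := Wt.cu_of hS W0 C.Z C.ok hρ inf (fun j hj hp => H.ioπ hj hp)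
    (fun j hj => by rw [W.Z.v_io]; exact H.hac _ (C.Z.calt j hj))
    (fun j hj h => by rw [nd_v (W.Z.v_io S d j)]; exact (H.nd _ (C.Z.calt j hj)).trans h) X.f3
  -- the vertices of real darts of the patch
  have old : ∀ i < W.F.P.n, W.F.P.real i = true → Old (S.M.v (f i)) := by
    intro i hi hr
    have hn : W.F.P.n ≤ W.PT.n := by
      have := C.rs
      simp only [rstr, Bool.and_eq_true, decide_eq_true_eq] at this
      exact this.1
    have h1 := C.Z.Q.k3 i (by omega)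
    have h2 := C.Z.Q.rjlt i (by omega)
    have h3 : f i = nmS S (W.Z.io S d) (W.Z.Q.rk i) (W.Z.Q.rj i) := by
      have h4 : f (W.Z.Q.nf (W.Z.Q.rk i) (W.Z.Q.rj i)) =
          nmS S (W.Z.io S d) (W.Z.Q.rk i) (W.Z.Q.rj i) := e2 _ h2 _ h1
      rwa [C.Z.Q.nfr i (by omega)] at h4
    have hre : S.real (f i) = true := by rw [eP.hr i hi]; exact hr
    have hvi : S.M.v (W.Z.io S d (W.Z.Q.rj i)) = S.M.v (d (W.Z.ca (W.Z.Q.rj i))) := W.Z.v_io S d _
    have hca := C.Z.calt _ h2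
    have k3 : W.Z.Q.rk i = 0 ∨ W.Z.Q.rk i = 1 ∨ W.Z.Q.rk i = 2 := by omega
    -- the centre is alive
    have hacj : W.ac (W.Z.ca (W.Z.Q.rj i)) = true := by
      rcases k3 with k | k | k
      · rw [k] at h3
        have h3 : f i = W.Z.io S d (W.Z.Q.rj i) := h3
        rw [h3] at hre
        exact hac _ hca _ hre hvi
      · rw [k] at h3
        have h3 : f i = S.M.α (W.Z.io S d (W.Z.Q.rj i)) := h3
        rw [h3, W0.real_α] at hre
        exact hac _ hca _ hre hvi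
      · exact Wt.nm2 hS W0 C.Z C.ok hρ inf (show i < W.PT.n by omega) k
    have hal := inf.al _ h2 hacj
    -- the spoke is real if its head is alive
    have hs : S.M.v (S.M.α (W.Z.io S d (W.Z.Q.rj i))) ∈ S.A →
        Old (S.M.v (S.M.α (W.Z.io S d (W.Z.Q.rj i)))) := by
      intro hA
      have hr2 : S.real (W.Z.io S d (W.Z.Q.rj i)) = true := hS.real_of W0 hal hA
      exact (X.od _ hca _ hr2 hvi).2
    rcases k3 with k | k | k
    · rw [k] at h3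
      have h3 : f i = W.Z.io S d (W.Z.Q.rj i) := h3
      rw [h3] at hre ⊢
      exact (X.od _ hca _ hre hvi).1
    · rw [k] at h3
      have h3 : f i = S.M.α (W.Z.io S d (W.Z.Q.rj i)) := h3
      rw [h3] at hre ⊢
      exact hs (W0.real_A _ hre)
    · rw [k] at h3
      have h3 : f i = S.M.φ (W.Z.io S d (W.Z.Q.rj i)) := h3
      rw [h3] at hre ⊢
      have h4 := W0.real_A _ hre
      rw [S.M.vφ] at h4 ⊢
      exact hs h4
  refine ⟨f, g, H.hm, inf, cu, X.oo, e1, e2, e3, e4, fun q hq => B1.sd_ne c2 hS W0 (c5 q hq),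
    fun q hq => ?_, fun q hq => ?_, X.sw, fun i hi hr => X.r4 _ (old i hi hr),
    fun s c hc h1 h2 => ?_, X.h5⟩
  · obtain ⟨l1, l2⟩ := C.nl q hq
    exact nq_of H l1 l2 (c6 q hq) (fun k hk hv => X.fr _ (C.Z.calt _ l1)
      (hac _ (C.Z.calt _ l1) k hk hv) k hk hv) (nad _ l1 _ l2)
  · obtain ⟨l1, l2⟩ := C.ol q hq
    exact oq_of H l1 l2 (c6o q hq) (fun k hk hv => X.fh _ (C.Z.calt _ l1)
      (hac _ (C.Z.calt _ l1) k hk hv) k hk hv) (nad _ l1 _ l2)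
  · have lab : ∀ a < W.F.O.m, Old (g a) := by
      intro a ha
      obtain ⟨r1, r2, r3⟩ := C.r1 a ha
      have := old _ r1 r3
      rwa [eP.hl _ r1, r2] at this
    by_cases ht : ∃ a < W.F.O.m, s (g a) = true
    · by_cases hf : ∃ a < W.F.O.m, s (g a) = false
      · obtain ⟨a, ha, ha'⟩ := ht
        obtain ⟨b, hb, hb'⟩ := hf
        exact (bf_le c7 c).trans (X.c4 s ⟨_, lab a ha, ha'⟩ ⟨_, lab b hb, hb'⟩)
      · push Not at hf
        refine le_trans (bf_le3 (b := true) fun a ha => ?_) (X.c3 s h1 h2)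
        rw [hc a ha]
        simpa using hf a ha
    · push Not at ht
      refine le_trans (bf_le3 (b := false) fun a ha => ?_) (X.c3 s h1 h2)
      rw [hc a ha]
      simpa using ht a ha

/-- the embedding with the kept units -/
theorem WG.QW.embQ (Q : W.QW us) {f : ℕ → D} {g : ℕ → V} (h : MC 6 S L w)
    (hS : IsStar S) (Hy : W.toWF.Hy S L d f g) :
    EmbQ (W.F.kap (W.toWF.ka S f) (W.toWF.la L f)) 6 S L w f g ∧
      W.F.Kap (W.toWF.ka S f) (W.toWF.la L f) := by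
  have CX : W.toWF.CxQ us 6 S L w d f g := ⟨hS, h.ok, h.w1, Q.ck, Q.v, Q.F, Q.K, Hy⟩
  exact ⟨CX.embQ Q.cB, CX.kp⟩

/-- THE FACT with any lower bound for the real cuts -/
theorem WG.QW.noB (h87 : RlOf) (Q : W.QW us) {f : ℕ → D} {g : ℕ → V} (h : MC 6 S L w)
    (hS : IsStar S) (Hy : W.toWF.Hy S L d f g) {Bf : ℕ → ℕ}
    (cu : W.F.O.CutsQ W.F.P W.F.P' Bf (fun c => W.F.O.rr W.F.P c + W.F.O.wr W.F.P c))
    (hB : ∀ (s : V → Bool) (c : ℕ), (∀ a < W.F.O.m, c.testBit a = s (g a)) →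
      (∃ y ∈ S.A, s y = true) → (∃ y ∈ S.A, s y = false) → Bf c ≤ S.rc s) : False := by
  have hΔ : 6 ≤ 6 := le_refl 6
  obtain ⟨E, kp⟩ := Q.embQ h hS Hy
  have C := Q.F.kap kp
  refine h.factR hΔ C Q.nb E fun S' L' w' R => ?_
  exact h87 D V 6 S S' L L' w w' _ _ f g _ _ _ h.ok R (Fc.cutsQ_kap cu) C.c5 hB
    (R.rb2 (C.hrr h.ok E))

/-- the lower bound of the fact -/
theorem WG.QW.hbg (Q : W.QW us) {f : ℕ → D} {g : ℕ → V} (h : MC 6 S L w)
    (hS : IsStar S) (Hy : W.toWF.Hy S L d f g) (s : V → Bool) (c : ℕ)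
    (hc : ∀ a < W.F.O.m, c.testBit a = s (g a)) (h1 : ∃ y ∈ S.A, s y = true)
    (h2 : ∃ y ∈ S.A, s y = false) : W.F.bg c ≤ S.rc s := by
  have h3 := (Q.embQ h hS Hy).1.hB s c hc h1 h2
  rw [Fc.kap_bg] at h3
  exact h3

/-- the context of the words -/
theorem WG.QW.ctx (h : MC 6 S L w)
    (n2 : ∀ a < W.Z.nc, W.ac a = true → S.N2 (S.M.v (d a)))
    (fr : ∀ a < W.Z.nc, W.ac a = true → ∀ k, S.real k = true → S.M.v k = S.M.v (d a) → FcR S k)
    (fh : ∀ a < W.Z.nc, W.ac a = true → ∀ k, S.real k = true → S.M.v k = S.M.v (d a) → FcH S k)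
    (f4 : F4 S fun x => ∃ a < W.Z.nc, W.ac a = true ∧ x = S.M.v (d a))
    (h5 : H5 S L fun x => ∃ a < W.Z.nc, W.ac a = true ∧ x = S.M.v (d a))
    (hpl : ∀ i < W.Z.Q.ns, i ∈ W.pl → S.nd (S.M.α (W.Z.io S d i)) ≠ 4)
    (hbw : ∀ i < W.Z.Q.ns, W.bw i ≠ [] → IsW S L (S.M.α (W.Z.io S d i)) (W.bw i))
    (hsw : ∀ a < W.F.O.m, W.F.O.sl a ≠ 0 → IsW S L (S.M.α (W.Z.io S d (W.sc a))) (W.sw a))
    (hoo : ∀ j < W.Z.Q.ns, W.Z.Q.rl j = true →
      Oo (fu S (W.Z.io S d (W.Z.Q.ρ j))) (W.Z.Q.rl (W.Z.Q.ρ j)) (W.lt j)) :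
    W.Ctx S L d (fun x => x ∈ S.A) := by
  have W0 := h.ok.toWf
  have hΔ : 6 ≤ 6 := le_refl 6
  refine ⟨h.fu023 hΔ, n2, fr, fh, f4, hpl, hbw, hsw, hoo, fun a _ k hk _ => ⟨W0.real_A k hk, W0.real_A _ ?_⟩,
    fun x hx => h.rdeg4 hΔ hx, fun s h1 h2 => ?_, fun s h1 h2 => h.cut4 hΔ h1 h2, h5⟩
  · rw [W0.real_α]; exact hk
  · have := h.cut4 hΔ h1 h2
    omega

/-- THE FACT, relaxed condition for the cuts -/
theorem WG.QH.noO (h87 : RlOf) (Q : W.QH us) (h : MC 6 S L w)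
    (hS : IsStar S) (B : W.cf.Base0 S L d)
    (n2 : ∀ a < W.Z.nc, W.ac a = true → S.N2 (S.M.v (d a)))
    (fr : ∀ a < W.Z.nc, W.ac a = true → ∀ k, S.real k = true → S.M.v k = S.M.v (d a) → FcR S k)
    (fh : ∀ a < W.Z.nc, W.ac a = true → ∀ k, S.real k = true → S.M.v k = S.M.v (d a) → FcH S k)
    (f4 : F4 S fun x => ∃ a < W.Z.nc, W.ac a = true ∧ x = S.M.v (d a))
    (h5 : H5 S L fun x => ∃ a < W.Z.nc, W.ac a = true ∧ x = S.M.v (d a))
    (hpl : ∀ i < W.Z.Q.ns, i ∈ W.pl → S.nd (S.M.α (W.Z.io S d i)) ≠ 4)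
    (hbw : ∀ i < W.Z.Q.ns, W.bw i ≠ [] → IsW S L (S.M.α (W.Z.io S d i)) (W.bw i))
    (hsw : ∀ a < W.F.O.m, W.F.O.sl a ≠ 0 → IsW S L (S.M.α (W.Z.io S d (W.sc a))) (W.sw a))
    (hoo : ∀ j < W.Z.Q.ns, W.Z.Q.rl j = true →
      Oo (fu S (W.Z.io S d (W.Z.Q.ρ j))) (W.Z.Q.rl (W.Z.Q.ρ j)) (W.lt j)) : False := by
  obtain ⟨f, g, Hy⟩ := Q.hy h.ok.toWf hS B (WG.QW.ctx h n2 fr fh f4 h5 hpl hbw hsw hoo)
  exact Q.noB h87 h hS Hy Q.cu (Q.hbg h hS Hy)

/-- the base darts with the rules -/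
theorem WG.QW.bas {W : WG} {d : ℕ → D} (Q : W.QW us) (W0 : Wf 6 S L w) (hS : IsStar S)
    (B : W.cf.Base0 S L d)
    (n2 : ∀ a < W.Z.nc, W.ac a = true → S.N2 (S.M.v (d a)))
    (fr : ∀ a < W.Z.nc, W.ac a = true → ∀ k, S.real k = true → S.M.v k = S.M.v (d a) → FcR S k)
    (fh : ∀ a < W.Z.nc, W.ac a = true → ∀ k, S.real k = true → S.M.v k = S.M.v (d a) → FcH S k)
    (f4 : F4 S fun x => ∃ a < W.Z.nc, W.ac a = true ∧ x = S.M.v (d a))
    (hbw : ∀ i < W.Z.Q.ns, W.bw i ≠ [] → IsW S L (S.M.α (W.Z.io S d i)) (W.bw i))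
    (hpl : ∀ i < W.Z.Q.ns, i ∈ W.pl → S.nd (S.M.α (W.Z.io S d i)) ≠ 4)
    (r4 : ∀ a < W.Z.nc, W.ac a = true → ∀ k, S.real k = true → S.M.v k = S.M.v (d a) →
      4 ≤ S.rdeg (S.M.v (S.M.α k))) :
    W.cf.Base S L d := by
  exact B.base4 Q.cf hS W0 (WG.bg_ne Q.cf hS W0 B hbw hpl) n2 f4 r4 fr fh Q.c4

/-- THE EMBEDDING FOR A PATTERN OF CODES -/
theorem WG.QW.hyK {W : WG} (Q : W.QW us)
    {w0 : List ℕ} {nb kb : List (ℕ × List ℕ)} {pl : List ℕ} (hU : W.chkK w0 nb kb pl = true)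
    {U : V → Prop} (hM : MC 6 S L w) (hS : IsStar S) (hR : Reg S U) {x : D}
    (hP : HasK S L U w0 nb kb x) (hQ : ∀ i ∈ pl, S.nd (S.M.α (S.nxr^[i] x)) ≠ 4) :
    ∃ f g, W.toWF.Hy S L (bd S W.ac W.ra x) f g := by
  unfold WG.chkK at hU
  simp only [Bool.and_eq_true, Bool.or_eq_true, decide_eq_true_eq, allN_iff, List.any_eq_true,
    List.mem_range, List.all_eq_true, Bool.not_eq_true'] at hU
  obtain ⟨⟨⟨⟨⟨⟨⟨⟨u1, ua⟩, u2⟩, n1⟩, n3⟩, u3⟩, u4⟩, u5⟩, u6⟩ := hU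
  have hcf : W.cf.chk = true := Q.cf
  have W0 := hM.ok.toWf
  have hPW : HasW S L w0 nb x := ⟨hP.w, fun p hp => hP.nw p (List.mem_append_left _ hp)⟩
  -- the words of the centres
  have hw : ∀ a < W.Z.nc, W.ac a = true → ∃ z wa w', relw z wa (W.wd a) = true ∧ nk2 wa = true ∧
      chgc wa w' = true ∧ IsW S L (bd S W.ac W.ra x a) w' ∧
      IsW S L (bd S W.ac W.ra x a) (W.wd a) ∧ U (S.M.v (bd S W.ac W.ra x a)) := by
    intro a ha hac
    unfold bd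
    by_cases h0 : a = 0
    · rw [if_pos h0, h0]
      obtain ⟨w', h1, h2⟩ := hP.w
      exact ⟨_, w0, w', u2, n1, h1, h2, isW_rel h2 h1 n1 u2 fun i hi hz _ =>
        (hPW.cz (le_refl 6) hM hS hi hz).2, hP.cU⟩
    · have h3 := ((u3 a ha).resolve_left h0).2.resolve_left (by rw [hac]; decide)
      unfold hasz at h3
      simp only [List.any_eq_true, Bool.and_eq_true, decide_eq_true_eq] at h3
      obtain ⟨p, p1, ⟨p2, p3⟩, p4⟩ := h3
      obtain ⟨w', h1, h2⟩ := hP.nw p (List.mem_append_left _ p1)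
      have h4 := hP.nU p p1
      rw [if_neg h0, if_pos hac, ← p2]
      have n4 := n3 p (List.mem_append_left _ p1)
      exact ⟨_, p.2, w', p4, n4, h1, h2, isW_rel h2 h1 n4 p4 fun i hi hz hv =>
        hPW.zn hM hS p3 h1 h2 hi hz hv, h4⟩
  have B : W.cf.Base0 S L (bd S W.ac W.ra x) := by
    refine ⟨fun a ha h0 => ?_, fun a ha hac => ?_⟩
    · have ha : a < W.Z.nc := ha
      have h1 := ((u3 a ha).resolve_left (by omega)).1
      have h2 : W.cf.Z.pa a = 0 := h1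
      rw [h2]
      unfold bd
      rw [if_neg (by omega), if_pos rfl]
      rfl
    · obtain ⟨z, wa, w', h1, h2, h3, h4, h5, h6⟩ := hw a ha hac
      exact h5
  have H := B.hy hcf hS W0
  have hUa : ∀ a < W.Z.nc, W.ac a = true → U (S.M.v (bd S W.ac W.ra x a)) := by
    intro a ha hac
    obtain ⟨z, wa, w', h1, h2, h3, h4, h5, h6⟩ := hw a ha hac
    exact h6
  have hv : ∀ a < W.Z.nc, W.ac a = true → ∀ k, S.real k = true →
      S.M.v k = S.M.v (bd S W.ac W.ra x a) → Fc3 S k := by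
    intro a ha hac k hk hv
    exact hR.fc k hk (by rw [hv]; exact hUa a ha hac)
  have n2 : ∀ a < W.Z.nc, W.ac a = true → S.N2 (S.M.v (bd S W.ac W.ra x a)) := fun a ha hac =>
    (hM.rg (le_refl 6)).n2 hS W0 (by omega) _ (hR.A _ (hUa a ha hac))
  have fr : ∀ a < W.Z.nc, W.ac a = true → ∀ k, S.real k = true →
      S.M.v k = S.M.v (bd S W.ac W.ra x a) → FcR S k :=
    fun a ha hac k hk hv' e e' r r' => hv a ha hac k hk hv' e e'
  have fh : ∀ a < W.Z.nc, W.ac a = true → ∀ k, S.real k = true →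
      S.M.v k = S.M.v (bd S W.ac W.ra x a) → FcH S k :=
    fun a ha hac k hk hv' e e' r r' => hv a ha hac k hk hv' e e'
  have f4 : F4 S fun y => ∃ a < W.Z.nc, W.ac a = true ∧ y = S.M.v (bd S W.ac W.ra x a) :=
    hR.f4.mono fun y hy => by
      obtain ⟨a, ha, hac, rfl⟩ := hy
      exact hUa a ha hac
  -- the spokes of the centre
  have hx : IsW S L x (W.wd 0) := by
    have h4 := B.w 0 u1 ua
    unfold bd at h4
    rw [if_pos rfl] at h4
    exact h4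
  have hlen : (W.wd 0).length = w0.length := by
    unfold relw at u2
    rw [Bool.and_eq_true, decide_eq_true_eq] at u2
    exact u2.1
  have spk : ∀ r < w0.length,
      W.Z.io S (bd S W.ac W.ra x) (W.Z.off 0 + pos (W.wd 0) r) = S.nxr^[r] x := by
    intro r h1
    have h4 : pos (W.wd 0) r < W.Z.m 0 := by
      have h5 := (Cf.chk_iff hcf).2.2.1
      unfold Cf.chkW at h5
      rw [allN_iff] at h5
      have h6 := h5 0 u1
      have h7 : W.cf.ac 0 = true := ua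
      rw [if_pos h7, Bool.and_eq_true, decide_eq_true_eq] at h6
      have h8 : W.Z.m 0 = (fl (W.wd 0)).length := h6.1
      rw [h8, ← pos_length]
      exact pos_lt (by rw [hlen]; exact h1) (le_refl _)
    rw [nxr_pos hx (by rw [hlen]; exact h1.le)]
    exact Stars.io_off H.hC S (bd S W.ac W.ra x) u1 h4
  have wsp : ∀ r < w0.length, ∀ wd, haso (nb ++ kb) r wd = true →
      IsW S L (S.M.α (S.nxr^[r] x)) wd := by
    intro r _ wd h3
    obtain ⟨p, p1, p2, p3⟩ := haso_iff h3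
    obtain ⟨w', q1, q2⟩ := hP.nw p p1
    have q3 := isW_o2 q2 q1 (n3 p p1)
    rw [p2, p3] at q3
    exact q3
  have hbw : ∀ i < W.Z.Q.ns, W.bw i ≠ [] →
      IsW S L (S.M.α (W.Z.io S (bd S W.ac W.ra x) i)) (W.bw i) := by
    intro i hi hb
    obtain ⟨r, h1, h2, h3⟩ := (u5 i hi).resolve_left (by simpa using hb)
    have h4 : W.Z.io S (bd S W.ac W.ra x) i = S.nxr^[r] x := by rw [h2]; exact spk r h1
    rw [h4]
    exact wsp r h1 _ h3
  have hpl : ∀ i < W.Z.Q.ns, i ∈ W.pl →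
      S.nd (S.M.α (W.Z.io S (bd S W.ac W.ra x) i)) ≠ 4 := by
    intro i _ hi
    obtain ⟨r, h1, h2, h3⟩ := u6 i hi
    rw [h2, spk r h1]
    exact hQ r (by simpa using h3)
  have B1 := Q.bas W0 hS B n2 fr fh f4 hbw hpl
    (fun _ _ _ k hk _ => hM.rdeg4 (le_refl 6) (W0.real_A _ (by rw [W0.real_α]; exact hk)))
  have h5 : H5 S L fun y => ∃ a < W.Z.nc, W.ac a = true ∧ y = S.M.v (bd S W.ac W.ra x a) :=
    (hM.h5 (le_refl 6) hS hR).mono fun y hy => by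
      obtain ⟨a, ha, hac, rfl⟩ := hy
      exact hUa a ha hac
  refine Q.hy W0 hS B (WG.QW.ctx hM n2 fr fh f4 h5 hpl hbw (fun a ha hsl => ?_)
    (fun j hj hr => ?_))
  · obtain ⟨r, h1, h2, h3⟩ := (u4 a ha).resolve_left hsl
    rw [h2, spk r h1]
    exact wsp r h1 _ h3
  · have hL : W.cf.chkL W.lt = true := Q.cL
    refine Cf.hoo hcf hL hS W0 H B1 (fun a ha hac => ?_) j hj hr
    obtain ⟨z, wa, w', k1, k2, k3, k4, k5, k6⟩ := hw a ha hac
    exact ⟨z, wa, w', k1, k2, k3, k4⟩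

/-- A FACT FOR A PATTERN OF CODES, for all choices -/
theorem WG.QH.noK {W : WG} (h87 : RlOf) (Q : W.QH us)
    {w0 : List ℕ} {nb kb : List (ℕ × List ℕ)} {pl : List ℕ} (hU : W.chkK w0 nb kb pl = true) :
    NoK w0 nb kb pl := by
  intro D V _ _ S L w U hM hS hR x hP hQ
  obtain ⟨f, g, Hy⟩ := Q.hyK hU hM hS hR hP hQ
  exact Q.noB h87 hM hS Hy Q.cu (Q.hbg hM hS Hy)

/-- A FACT FOR A PATTERN OF CODES, relaxed condition for the cuts -/
theorem WG.QH.noG {W : WG} (h87 : RlOf) (Q : W.QH us)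
    {w0 : List ℕ} {nb : List (ℕ × List ℕ)} {pl : List ℕ} (hU : W.chkCp w0 nb pl = true) :
    NoG w0 nb pl := (WG.QH.noK h87 Q hU).noG

end Pool.FC7
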