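import Pool.Agent.FC7.Qk
import Pool.Agent.FC7.Qd
import Pool.Agent.FC7.VcF
import Pool.Agent.FC7.GrB

/-! # Facts with the relaxed condition for the cuts: the static checks in several parts -/

open Finset

set_option linter.unusedSectionVars false

namespace Pool.FC7

open Pool.FC6 Pool.FC6.St

section

variable {W : WF} {us : ℕ → ℕ}

theorem WF.pu_su (hu : ∀ i < W.F.P.n, us i ≤ W.F.P'.u i) (q : ℕ) :
    (W.su us).F.pu q ≤ W.F.pu q := by
  unfold Fc.pu
  refine sumN_mono fun j hj => ?_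
  show (if W.F.O.pc j = q then us j else 0) ≤ if W.F.O.pc j = q then W.F.P'.u j else 0
  split_ifs
  · exact hu j hj
  · exact le_refl _

theorem WF.okw_su (hu : ∀ i < W.F.P.n, us i ≤ W.F.P'.u i) {i j : ℕ}
    (h : (W.su us).okw i j = true) : W.okw i j = true := by
  unfold WF.okw at h ⊢
  rw [Bool.or_eq_true, decide_eq_true_eq] at h ⊢
  rcases h with h | h
  · exact Or.inl h
  · refine Or.inr fun h0 => h ?_
    have h1 := WF.pu_su hu (W.F.O.pc j)
    have h2 : (W.su us).F.pu (W.F.O.pc j) = 0 := by omega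
    exact h2

theorem WF.okv_su (hu : ∀ i < W.F.P.n, us i ≤ W.F.P'.u i) {i : ℕ}
    (h : (W.su us).okv i = true) : W.okv i = true := by
  unfold WF.okv at h ⊢
  rw [Bool.or_eq_true, Bool.or_eq_true, List.any_eq_true, List.any_eq_true] at h ⊢
  rcases h with (h | ⟨j, hj, h⟩) | h
  · exact Or.inl (Or.inl h)
  · refine Or.inl (Or.inr ⟨j, hj, ?_⟩)
    rw [Bool.and_eq_true] at h ⊢
    exact ⟨h.1, WF.okw_su hu h.2⟩
  · refine Or.inr ?_
    obtain ⟨j, hj, h1⟩ := nall h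
    rw [Bool.not_eq_true', Bool.eq_false_iff]
    intro h2
    rw [allN_iff] at h2
    have h3 := h2 j hj
    rw [Bool.and_eq_true] at h1
    have h4 := WF.okw_su hu h1.2
    have h5 : (decide (W.F.P.α j = j) && !W.F.P.real j && decide (W.F.X.ce j = W.F.X.ce i) &&
        W.okw i j) = true := by
      rw [Bool.and_eq_true]
      exact ⟨h1.1, h4⟩
    rw [h5] at h3
    exact absurd h3 (by simp)

theorem WF.chkV_su (hu : ∀ i < W.F.P.n, us i ≤ W.F.P'.u i) (h : (W.su us).chkV = true) :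
    W.chkV = true ∧
      ∀ i < W.F.P.n, (W.F.P.u i = 0 ∧ W.F.uk i = false) ∨ (W.su us).okv i = true := by
  unfold WF.chkV at h ⊢
  rw [allN_iff] at h ⊢
  refine ⟨fun i hi => ?_, fun i hi => ?_⟩
  · have h1 := h i hi
    rw [Bool.or_eq_true] at h1 ⊢
    exact h1.imp id (WF.okv_su hu)
  · have h1 := h i hi
    rw [Bool.or_eq_true, Bool.and_eq_true, decide_eq_true_eq, Bool.not_eq_true'] at h1
    exact h1

end

/-- the static conditions from the parts of the check -/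
theorem Fc.ChkW.of {F : Fc} {us : ℕ → ℕ} {Δ : ℕ} (hu : ∀ i < F.P.n, us i ≤ F.P'.u i)
    (k1 : F.P.good = true) (k2 : F.P'.good = true) (k3 : Pa.flips F.P' F.P F.fl = true)
    (k4 : F.XX.sta F.P F.P' = true ∧ F.XX.ringOk F.P = true) (k5 : F.O.stat F.P F.P' = true)
    (k7 : djs F.XX F.O F.P (F.su us).P' (List.range F.O.x) F.ou F.lu = true)
    (k8 : F.X.x = F.O.x) (k9 : F.X.x + F.X.k = F.O.m) (k10 : F.O.Δ = Δ) (k11 : F.X.lo = F.O.lo)
    (k12 : F.O.x < F.O.m) (kS : F.chkS = true) (kL : F.chkL = true) (kQ : (F.su us).chkQ = true)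
    (ko : ∀ i < F.P.n, F.ty (F.O.pc i) = 1 → F.ou i = false)
    (kK : F.chkK = true) (kR : F.chkR = true)
    (kw : ∀ i < F.P.n, F.O.wt' i = if F.O.lb' i = true then 1 else 0) (hE : F.One) :
    F.ChkW us Δ ∧ ∀ (κ : ℕ → ℕ) (l : ℕ → Bool), (∀ i, κ i ≠ 0 → F.uk i = true) →
        (∀ i, l i = true → F.lu i = true) → F.Kap κ l := by
  unfold Fc.chkS at kS
  rw [Bool.and_eq_true, allN_iff, allN_iff] at kS
  obtain ⟨s1, s2⟩ := kS
  unfold Fc.chkL at kL
  unfold Fc.chkQ at kQ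
  rw [Bool.and_eq_true, allN_iff, allN_iff] at kQ
  obtain ⟨q1, q2⟩ := kQ
  unfold Fc.chkK at kK
  rw [Bool.and_eq_true, allN_iff, allN_iff] at kK
  obtain ⟨kK, kLu⟩ := kK
  unfold Fc.chkR at kR
  have k4' : F.XX.Ck F.P F.P' := by
    refine XE.Ck.of k4.1 k4.2 (fun m hm => ?_) (hE.imp (fun h => ⟨F.T, h.1, fun r hr hf => ?_⟩) id)
    · have h2 : (!m.testBit F.O.x) = true := hm
      rw [Bool.not_eq_true', ← k8] at h2
      exact h2
    · refine (h.2 r hr).imp (fun h1 => ?_) id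
      unfold Fc.okE at h1
      rw [Bool.or_eq_true] at h1
      refine h1.resolve_left ?_
      have h2 : (!(r <<< F.X.lo).testBit F.O.x) = true := hf
      rw [Bool.not_eq_true'] at h2
      rw [h2]; simp
  have hpu : ∀ q, (F.su us).pu q ≤ F.pu q := by
    intro q
    unfold Fc.pu
    refine sumN_mono fun j hj => ?_
    show (if F.O.pc j = q then us j else 0) ≤ if F.O.pc j = q then F.P'.u j else 0
    split_ifs
    · exact hu j hj
    · exact le_refl _
  refine ⟨⟨k1, k2, k3, k4', k5, k7, k8, k9, k10, k11, k12,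
    fun a ha b hb hab => ?_, fun i hi => ?_, fun i hi hr => ?_, fun i hi j hj hr hr' => ?_,
    fun a ha b hb => ?_, fun q hq => ?_, fun i hi ht => ?_, hu, ?_, kw⟩,
    fun κ l hκ hl => ⟨hκ, hl, fun i hi h0 => ?_, fun i hi h0 => ?_⟩⟩
  · have := s1 a ha
    rw [allN_iff] at this
    have := this b hb
    rw [Bool.or_eq_true, decide_eq_true_eq, Bool.and_eq_true] at this
    exact this.resolve_left hab
  · have := s2 i hi
    rw [Bool.and_eq_true, Bool.and_eq_true, Bool.and_eq_true, decide_eq_true_eq,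
      decide_eq_true_eq] at this
    exact this.1.1
  · have := s2 i hi
    simp only [Bool.and_eq_true, Bool.or_eq_true, decide_eq_true_eq, hr, Bool.not_true,
      Bool.false_eq_true, false_or] at this
    rcases this.1.2 with h1 | h1
    · exact Or.inl h1
    · exact Or.inr ⟨h1.1, by tauto⟩
  · have := s2 i hi
    rw [Bool.and_eq_true, allN_iff] at this
    have := this.2 j hj
    rw [Bool.or_eq_true, Bool.or_eq_true, Bool.or_eq_true, Bool.or_eq_true, hr, hr',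
      Bool.and_eq_true] at this
    rcases this with (((h3 | h3) | h3) | h3) | h3
    · exact absurd h3 (by simp)
    · exact absurd h3 (by simp)
    · exact Or.inl h3
    · exact Or.inr (Or.inl h3)
    · exact Or.inr (Or.inr h3)
  · rw [allN_iff] at kL
    have := kL a ha
    rw [allN_iff] at this
    have := this b hb
    simp only [Bool.or_eq_true, decide_eq_true_eq] at this
    tauto
  · have hq : q < (F.su us).O.p := hq
    have c1 := q1 q hq
    simp only [Bool.or_eq_true, Bool.and_eq_true, decide_eq_true_eq, allN_iff] at c1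
    rcases c1 with (((c1 | c1) | c1) | c1) | c1
    · exact Or.inl ⟨c1.1, le_trans c1.2 (hpu q)⟩
    · exact Or.inr (Or.inl c1)
    · exact Or.inr (Or.inr (Or.inl c1))
    · exact Or.inr (Or.inr (Or.inr (Or.inl c1)))
    · right; right; right; right
      obtain ⟨⟨⟨⟨⟨⟨⟨⟨⟨⟨⟨⟨c0, c1⟩, c2⟩, c3⟩, c4⟩, c5⟩, c6⟩, c6a⟩, c6b⟩, c7⟩, c8⟩, c9⟩, c10⟩ := c1
      have c1' : F.tj q < F.P.n := c1
      have c2' : F.tk q < F.P.n := c2
      have c5' : us (F.tj q) ≠ 0 := c5
      have c6' : us (F.tk q) ≠ 0 := c6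
      have u1 := hu _ c1'
      have u2 := hu _ c2'
      refine ⟨c0, c1, c2, c3, c4, by omega, by omega, c6a, c6b, c7, c8, c9, fun r hr hreal => ?_⟩
      have := c10 r hr
      have hreal : (F.su us).P'.real r = true := hreal
      rw [hreal] at this
      simp only [Bool.not_true, Bool.false_eq_true, false_or] at this
      exact this
  · have c2 := q2 i hi
    simp only [Bool.or_eq_true, Bool.and_eq_true, decide_eq_true_eq] at c2
    rcases c2 with c2 | c2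
    · exact absurd ht c2
    · exact ⟨Or.inl c2.1, ko i hi ht, by
        rcases c2.2 with ((c3 | c3) | c3) | c3
        · exact Or.inl c3
        · exact Or.inr (Or.inl c3)
        · exact Or.inr (Or.inr (Or.inl c3))
        · exact Or.inr (Or.inr (Or.inr c3))⟩
  · rw [Bool.or_eq_true, decide_eq_true_eq] at kR
    rcases kR with kR | kR
    · exact Or.inl (nall kR)
    · exact Or.inr kR
  · have := kK i hi
    rw [hκ i h0] at this
    simp only [Bool.not_true, Bool.false_or, Bool.and_eq_true, decide_eq_true_eq,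
      Bool.or_eq_true] at this
    obtain ⟨⟨⟨⟨⟨a1, a2⟩, a3⟩, a4⟩, a5⟩, a6⟩ := this
    exact ⟨a1, a2, a3, a4, a5, a6⟩
  · have := kLu i hi
    rw [hl i h0] at this
    simp only [Bool.not_true, Bool.false_or, Bool.and_eq_true, decide_eq_true_eq,
      Bool.not_eq_true'] at this
    obtain ⟨⟨⟨⟨a1, a2⟩, a3⟩, a4⟩, a5⟩ := this
    exact ⟨a1, a2, a3, a4, a5⟩

/-- the darts of the new patch -/
theorem Fc.hn {F : Fc} (k3 : Pa.flips F.P' F.P F.fl = true) :
    F.P'.n = F.P.n ∧ ∀ i < F.P.n, F.P'.α i = F.P.α i := by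
  have key : ∀ (l : List ℕ) (P : Pa), Pa.flips F.P' P l = true →
      F.P'.n = P.n ∧ ∀ i < P.n, F.P'.α i = P.α i := by
    intro l
    induction l with
    | nil =>
      intro P h
      unfold Pa.flips at h
      simp only [Bool.and_eq_true, decide_eq_true_eq, allN_iff] at h
      exact ⟨h.1, fun i hi => (h.2 i hi).1.2⟩
    | cons a l ih =>
      intro P h
      unfold Pa.flips at h
      rw [Bool.and_eq_true] at h
      exact ih (P.fl a) h.2
  exact key _ _ k3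

/-- the condition for the cuts from the vector check -/
theorem Fc.cutsQ_of {F : Fc} (k2 : F.P'.good = true) (k3 : Pa.flips F.P' F.P F.fl = true)
    (k5 : F.O.stat F.P F.P' = true) (sm : F.sm = 0) (cq : F.cq = [])
    (k6 : Vc.vchkq F.C F.O F.P F.P' F.gt F.D5 F.p5 = true) :
    F.O.CutsQ F.P F.P' F.bg (fun c => F.O.rr F.P c + F.O.wr F.P c) := by
  have h := Vc.vchkq_cuts (Pa.good_iff.1 k2) (Fc.hn k3).1 (Fc.hn k3).2 k5 k6
  have e : F.bg = fun c => max (bf5 [] 0 F.D5 F.p5 (2 ^ F.O.m - 1) c)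
      ((FC6.OD.inS F.P c + gbn F.P F.O F.gt c + 1) / 2) := by
    funext c
    show max (bf5 F.cq F.sm F.D5 F.p5 (2 ^ F.O.m - 1) c) _ = _
    rw [sm, cq]
    rfl
  rw [e]
  exact h

namespace K

/-- the parts of the check of the new patch without the condition for the cuts; `us` are the strong
units -/
structure FW (F : Fc) (us : ℕ → ℕ) : Prop where
  k1 : K.f1 F = true
  st : K.OD_stat (FC7.Fc.O F) (FC7.Fc.P F) (FC7.Fc.P' F) = true
  dj : K.djs (K.Fc_XX F) (FC7.Fc.O F) (FC7.Fc.P F) (FC7.Fc.P' (F.su us))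
        (K.lrange (FC7.OD.x (FC7.Fc.O F))) (FC7.Fc.ou F) (FC7.Fc.lu F) = true
  c1 : F.X.x = F.O.x
  c2 : F.X.x + F.X.k = F.O.m
  c3 : F.O.Δ = 6
  c4 : F.X.lo = F.O.lo
  c5 : F.O.x < F.O.m
  sm : F.sm = 0
  cq : F.cq = []
  k3 : K.f3 F = true
  hL : K.Fc_chkL F = true
  hQ : K.Fc_chkQ (F.su us) = true
  hK : K.Fc_chkK F = true
  hR : K.Fc_chkR F = true
  w : ∀ i < F.P.n, F.O.wt' i = if F.O.lb' i = true then 1 else 0
  o : ∀ i < F.P.n, F.ty (F.O.pc i) = 1 → F.ou i = false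
  u : ∀ i < F.P.n, us i ≤ F.P'.u i
  nb : K.OD_nbp F.O F.P F.P' < F.O.x
  E : F.One

/-- the parts of the check of the new patch; `us` are the strong units -/
structure FQ (F : Fc) (us : ℕ → ℕ) : Prop extends FW F us where
  cu : Vc.vchkq F.C F.O F.P F.P' F.gt F.D5 F.p5 = true

theorem FW.chk {F : Fc} {us : ℕ → ℕ} (h : FW F us) : F.ChkW us 6 ∧
    ∀ (κ : ℕ → ℕ) (l : ℕ → Bool), (∀ i, κ i ≠ 0 → F.uk i = true) →
      (∀ i, l i = true → F.lu i = true) → F.Kap κ l := by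
  have b1 := h.k1
  unfold K.f1 at b1
  rw [K.band_eq] at b1
  simp only [Bool.and_eq_true] at b1
  obtain ⟨p1, p2, p3, p4, p5⟩ := b1
  have hS := h.k3
  unfold K.f3 at hS
  have st := h.st
  have dj := h.dj
  have hL := h.hL
  have hQ := h.hQ
  have hK := h.hK
  have hR := h.hR
  rw [K.Pa_good_eq] at p1 p2
  rw [K.Pa_flips_eq] at p3
  rw [K.XE_sta_eq, K.Fc_XX_eq] at p4
  rw [K.XE_ringOk_eq, K.Fc_XX_eq] at p5
  rw [K.OD_stat_eq] at st
  rw [K.djs_eq, K.Fc_XX_eq, K.lrange_eq] at dj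
  rw [K.Fc_chkS_eq] at hS
  rw [K.Fc_chkL_eq] at hL
  rw [K.Fc_chkQ_eq] at hQ
  rw [K.Fc_chkK_eq] at hK
  rw [K.Fc_chkR_eq] at hR
  exact Fc.ChkW.of h.u p1 p2 p3 ⟨p4, p5⟩ st dj h.c1 h.c2 h.c3 h.c4 h.c5 hS hL hQ
    h.o hK hR h.w h.E

/-- the facts used for the condition for the cuts -/
theorem FW.cp {F : Fc} {us : ℕ → ℕ} (h : FW F us) : F.P'.good = true ∧
    Pa.flips F.P' F.P F.fl = true ∧ F.O.stat F.P F.P' = true := by
  have C := h.chk.1
  exact ⟨C.g', C.fl, C.st⟩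

/-- THE CHECKS OF A FACT WITHOUT THE CONDITION FOR THE CUTS -/
theorem QW_of {W : WG} {us : ℕ → ℕ} (h1 : K.g1 W = true) (h2 : K.g2 W = true) (h3 : K.g3 W = true)
    (h4 : K.WF_chkL (FC7.WG.toWF W) 6 = true) (h4' : K.WF_chkP (FC7.WG.toWF W) = true)
    (hV : K.WF_chkV ((FC7.WG.toWF W).su us) = true) (h5 : K.g5 W = true) (h6 : K.g6 W = true)
    (h7 : K.g7 W = true) (h8 : K.g8 W = true) (hF : FW W.F us) : W.QW us := by
  have b1 := h1
  have b8 := h8
  unfold K.g1 at b1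
  unfold K.g8 at b8
  unfold K.g2 at h2
  unfold K.g3 at h3
  unfold K.g5 at h5
  unfold K.g6 at h6
  unfold K.g7 at h7
  rw [K.band_eq] at b1 b8
  simp only [Bool.and_eq_true] at b1 b8
  obtain ⟨p1, p2, p3, p4, p5⟩ := b1
  obtain ⟨r1, r2, r3, r4, r5⟩ := b8
  have hc : W.cf.chk = true := by
    have h : K.Cf_chk (K.WG_cf W) = true := by
      unfold K.Cf_chk
      rw [K.band_eq]
      simp only [Bool.and_eq_true]
      exact ⟨⟨⟨p1, p3⟩, p4⟩, p5⟩
    rw [K.Cf_chk_eq, K.WG_cf_eq] at h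
    exact h
  rw [K.WF_chkV_eq] at hV
  obtain ⟨v1, v2⟩ := WF.chkV_su hF.u hV
  have hw : W.toWF.chk 6 = true := by
    rw [K.Stars_chk_eq] at p1
    rw [K.Wt_ok_eq] at p2
    rw [K.WF_chkA_eq] at h2
    rw [K.WF_chkD_eq] at h3
    rw [K.WF_chkL_eq] at h4
    rw [K.WF_chkP_eq] at h4'
    rw [K.WF_chkO_eq] at h5
    rw [K.WF_chkZ_eq] at h6
    unfold FC7.WF.chk
    simp only [Bool.and_eq_true]
    exact ⟨⟨⟨⟨⟨⟨⟨⟨p1, p2⟩, h2⟩, h3⟩, h4⟩, h4'⟩, h5⟩, v1⟩, h6⟩
  rw [K.Cf_chkL_eq, K.WG_cf_eq] at r1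
  rw [K.Cf_chk4_eq, K.WG_cf_eq, K.WG_bg_eq] at h7
  rw [K.lall_eq, K.Cf_sd_eq, K.WG_cf_eq] at r2
  rw [K.lall_eq, K.WG_nqc_eq] at r3
  rw [K.lall_eq, K.WG_oqc_eq] at r4
  rw [K.WF_chkB_eq] at r5
  obtain ⟨C, Kp⟩ := hF.chk
  have nb := hF.nb
  rw [K.OD_nbp_eq] at nb
  exact ⟨WF.ck hw, hc, r1, h7, r2, r3, r4, hF.sm, r5, v2, C, Kp, nb⟩

/-- THE CHECKS OF A FACT WITH THE RELAXED CONDITION -/
theorem QH_of {W : WG} {us : ℕ → ℕ} (h1 : K.g1 W = true) (h2 : K.g2 W = true) (h3 : K.g3 W = true)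
    (h4 : K.WF_chkL (FC7.WG.toWF W) 6 = true) (h4' : K.WF_chkP (FC7.WG.toWF W) = true)
    (hV : K.WF_chkV ((FC7.WG.toWF W).su us) = true) (h5 : K.g5 W = true) (h6 : K.g6 W = true)
    (h7 : K.g7 W = true) (h8 : K.g8 W = true) (hF : FQ W.F us) : W.QH us := by
  obtain ⟨c1, c2, c3⟩ := hF.toFW.cp
  exact ⟨QW_of h1 h2 h3 h4 h4' hV h5 h6 h7 h8 hF.toFW, Fc.cutsQ_of c1 c2 c3 hF.sm hF.cq hF.cu⟩

/-- MANY PATTERNS WITH THE SAME RECORD, relaxed condition for the cuts -/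
theorem grpQ (h87 : RlOf) {W : WG} {us : ℕ → ℕ} (Q : W.QH us)
    {l : List (List ℕ × List (ℕ × List ℕ))} (h : K.lall l (keyG W) = true) :
    ∀ X ∈ l, NoL X.1 X.2 := by
  intro X hX
  rw [lall_eq, List.all_eq_true] at h
  have h0 := h X hX
  unfold keyG at h0
  rw [band_eq, Bool.and_eq_true, cdc_eq, cdn_eq, pls_eq, psn_eq, llen_eq] at h0
  refine NoG.toL (WG.QH.noG h87 Q ?_) h0.2
  have h1 := h0.1
  rw [K.WG_chkCp_eq] at h1
  exact h1

end K

end Pool.FC7
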