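import Pool.Agent.FC7.VuA

/-! # Vector form of the static checks: the lists `djs`, `chkS`, `chkL`, `chkB` -/

open Finset

set_option linter.unusedSectionVars false

namespace Pool.FC7

open Pool.FC6

namespace Vs

/-! ### Labels -/

theorem V2.fchkS_ok {R : VR} (h : V2.fchkS R = true) : K.Fc_chkS (VR.F R) = true := by
  unfold V2.fchkS at h
  rw [ua_band] at h
  unfold K.Fc_chkS
  rw [ua_band]
  refine ⟨?_, h.2⟩
  have h1 := h.1
  rw [ua_all] at h1 ⊢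
  intro a ha
  have g := h1 a ha
  rw [ua_all] at g ⊢
  intro b hb
  have g2 := g b hb
  have hx : a < 15 := ha.trans_le (VR.x_b R)
  have hm : b < 30 := hb.trans_le (ua_m R)
  rw [V2.ne_eq R a b (by omega), V2.ne_eq R b a (by omega)] at g2
  exact g2

theorem V2.fchkL_ok {R : VR} (h : V2.fchkL R = true) : K.Fc_chkL (VR.F R) = true := by
  unfold V2.fchkL at h
  unfold K.Fc_chkL
  rw [ua_all] at h ⊢
  intro a ha
  have g := h a ha
  rw [ua_all] at g ⊢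
  intro b hb
  have g2 := g b hb
  have hm : b < 30 := hb.trans_le (ua_m R)
  rw [V2.ne_eq R a b (by omega)] at g2
  exact g2

/-! ### The bound with new cells -/

theorem land_127 {a : ℕ} (h : a < 127) : Nat.land a (nat_lit 127) = a := by
  show a &&& (2 ^ 7 - 1) = a
  rw [Nat.and_two_pow_sub_one_eq_mod]
  exact Nat.mod_eq_of_lt (by omega)

theorem V2.chkB_ok {R : VR} (h1 : V2.chkB1 R = true) (h2 : V2.chkB2 R = true) :
    K.WF_chkB (VR.WF R) = true := by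
  unfold V2.chkB1 at h1
  unfold V2.chkB2 at h2
  rw [ua_band] at h2
  rw [ua_lall] at h1
  unfold K.WF_chkB
  rw [ua_band, ua_band]
  refine ⟨⟨?_, ?_⟩, h2.2⟩
  · unfold K.gchk
    rw [ua_band]
    refine ⟨?_, h2.1⟩
    rw [ua_lall]
    intro q hq
    have g := h1 q hq
    rw [ua_band, ua_band, ua_band, ua_band, ua_band, ua_band, ua_band, ua_band, ua_band] at g
    obtain ⟨⟨⟨⟨⟨⟨⟨⟨⟨g1, g2⟩, g3⟩, g4⟩, g5⟩, g6⟩, g7⟩, g8⟩, g9⟩, _⟩ := g
    rw [ua_band, ua_band, ua_band, ua_band, ua_band, ua_band, ua_band, ua_band]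
    refine ⟨⟨⟨⟨⟨⟨⟨⟨g1, g2⟩, g3⟩, ?_⟩, g5⟩, g6⟩, g7⟩, g8⟩, g9⟩
    have hq : q.2.1 < 127 := by
      rw [ua_ble] at g2
      have h3 : q.2.1 < VR.n R := g2
      exact h3.trans_le (VR.n_b R)
    rw [land_127 hq] at g4
    exact g4
  · rw [ua_lall]
    intro q hq
    have g := h1 q hq
    rw [ua_band] at g
    exact g.2

/-! ### Disjointness -/

theorem V2.spm_bit {R : VR} {a m : ℕ} (h : Nat.land (tx (VR.SPMT R) a) m = tx (VR.SPMT R) a)
    {i : ℕ} (hi : i < VR.n R) (hl : FC6.Pa.l (VR.P' R) i = a) :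
    K.tbit m (FC7.XE.ce' (VR.X R) i) = true := by
  rw [K.tbit_eq]
  have h1 : (tx (VR.SPMT R) a).testBit (FC7.XE.ce' (VR.X R) i) = true := by
    rw [SPM_eq, V2.spm, orN_bit]
    refine ⟨i, hi, ?_⟩
    have e : Nat.beq (tx (VR.lpT R) i) a = true := ua_beq.2 hl
    rw [e]
    show (tx (VR.pw1T R) (tx (VR.cepT R) i)).testBit (tx (VR.cepT R) i) = true
    have e1 : tx (VR.pw1T R) (tx (VR.cepT R) i) = 2 ^ (tx (VR.cepT R) i) :=
      pw_small (VR.cep_le R i)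
    rw [e1]
    exact Nat.testBit_two_pow_self
  rw [← h] at h1
  have h2 : (tx (VR.SPMT R) a &&& m).testBit (FC7.XE.ce' (VR.X R) i) = true := h1
  rw [Nat.testBit_and, Bool.and_eq_true] at h2
  exact h2.2

theorem V2.djs_ok {R : VR} (h : V2.djs R = true) :
    K.djs (VR.X R) (VR.O R) (VR.P R) (VR.P' R) (K.lrange (FC7.OD.x (VR.O R)))
      (FC7.Fc.ou (VR.F R)) (FC7.Fc.lu (VR.F R)) = true := by
  unfold V2.djs at h
  rw [ua_band, ua_band, ua_band, ua_band, ua_band] at h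
  obtain ⟨⟨⟨⟨⟨h1, h2⟩, h3⟩, _⟩, h5⟩, h6⟩ := h
  unfold K.djs
  rw [ua_band, ua_band, ua_band, ua_band, ua_band]
  refine ⟨⟨⟨⟨⟨?_, ?_⟩, h3⟩, nodup_lrange _⟩, h5⟩, h6⟩
  · rw [ua_lall] at h1 ⊢
    intro m hm
    have g := h1 m hm
    rw [ua_bor] at g ⊢
    refine g.imp id fun g => ?_
    rw [ua_bnot, ua_all] at g ⊢
    intro g2
    apply g
    intro a ha
    have g3 := g2 a ha
    rw [ua_bnot, ua_band] at g3 ⊢
    rintro ⟨g4, g5⟩
    apply g3
    refine ⟨g4, ?_⟩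
    rw [ua_all]
    intro i hi
    rw [ua_bor, ua_bnot]
    by_cases hl : Nat.beq (FC6.Pa.l (VR.P' R) i) a = true
    · right
      exact V2.spm_bit (ua_beq.1 g5) hi (ua_beq.1 hl)
    · left; exact hl
  · rw [ua_all] at h2 ⊢
    intro i hi
    have g := h2 i hi
    rw [ua_bor] at g ⊢
    refine g.imp id fun g => ?_
    rw [ua_lany] at g ⊢
    obtain ⟨z, hz, g⟩ := g
    refine ⟨z, hz, ?_⟩
    rw [ua_all]
    intro j _
    rw [ua_bor, ua_bor, ua_bnot, ua_beq, ua_beq]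
    by_contra hc
    push Not at hc
    obtain ⟨⟨g2, g3⟩, g4⟩ := hc
    rw [ua_beq] at g
    have e1 : tx (VR.pw1T R) (FC7.XE.ce (VR.X R) i) = 2 ^ (FC7.XE.ce (VR.X R) i) :=
      pw_small (VR.ce_le R i)
    have e2 : tx (VR.pw1T R) (FC7.XE.ce (VR.X R) (FC6.Pa.α (VR.P R) i)) =
        2 ^ (FC7.XE.ce (VR.X R) (FC6.Pa.α (VR.P R) i)) :=
      pw_small (VR.ce_le R _)
    rw [e1, e2] at g
    have h4 : z.testBit (FC7.XE.ce (VR.X R) j) = true := by
      rw [K.tbit_eq] at g2; exact g2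
    have h5 : (2 ^ (FC7.XE.ce (VR.X R) i) ||| 2 ^ (FC7.XE.ce (VR.X R) (FC6.Pa.α (VR.P R) i))
        : ℕ).testBit (FC7.XE.ce (VR.X R) j) = true := by
      have g5 : (2 ^ (FC7.XE.ce (VR.X R) i) ||| 2 ^ (FC7.XE.ce (VR.X R) (FC6.Pa.α (VR.P R) i))
        : ℕ) = z ||| (2 ^ (FC7.XE.ce (VR.X R) i) |||
          2 ^ (FC7.XE.ce (VR.X R) (FC6.Pa.α (VR.P R) i)) : ℕ) := g.symm
      rw [g5, Nat.testBit_or, h4, Bool.true_or]
    rw [Nat.testBit_or, Nat.testBit_two_pow, Nat.testBit_two_pow, Bool.or_eq_true,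
      decide_eq_true_eq, decide_eq_true_eq] at h5
    rcases h5 with h5 | h5
    · exact g3 h5.symm
    · exact g4 h5.symm

end Vs

end Pool.FC7
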