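import Pool.Agent.FC7.VuA
import Pool.Agent.FC7.VcF

/-! # Vector form of the static checks: the counts, the expansion without labels -/

open Finset

set_option linter.unusedSectionVars false

namespace Pool.FC7

open Pool.FC6

namespace Vs

/-- two prices -/
theorem ua_sum2 (n a b : ℕ) (u : ℕ → ℕ) (c : ℕ → Bool) :
    K.sumN n (fun (i : ℕ) => (Nat.mul (u i) (Bool.rec (motive := fun _ => ℕ) b a (c i)))) =
      Nat.add (Nat.mul a (K.sumN n (fun (i : ℕ) =>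
        (Bool.rec (motive := fun _ => ℕ) (nat_lit 0) (u i) (c i)))))
        (Nat.mul b (K.sumN n (fun (i : ℕ) =>
          (Bool.rec (motive := fun _ => ℕ) (u i) (nat_lit 0) (c i))))) := by
  rw [sumN_sum, sumN_sum, sumN_sum]
  show _ = a * _ + b * _
  rw [Finset.mul_sum, Finset.mul_sum, ← Finset.sum_add_distrib]
  refine Finset.sum_congr rfl fun i _ => ?_
  cases c i
  · show u i * b = a * 0 + b * u i
    ring
  · show u i * a = a * u i + b * 0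
    ring

theorem V2.cop_eq (R : VR) : V2.cop R = K.Fc_cop (VR.F R) := by
  have h := ua_sum2 (FC6.Pa.n (VR.P R)) 2024 3054 (FC6.Pa.u (VR.P' R)) (fun i => (K.bor (Nat.beq
    (FC7.Fc.ty (VR.F R) (FC7.OD.pc (VR.O R) i)) (nat_lit 0)) (Nat.beq (FC7.Fc.ty (VR.F R)
    (FC7.OD.pc (VR.O R) i)) (nat_lit 3))))
  have e : K.Fc_cop (VR.F R) = (Nat.add (Nat.add (K.sumN (FC6.Pa.n (VR.P R)) (fun (i : ℕ) =>
    (Nat.mul (FC6.Pa.u (VR.P' R) i) (Bool.rec (motive := fun _ => ℕ) 3054 2024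
    (K.bor (Nat.beq (FC7.Fc.ty (VR.F R) (FC7.OD.pc (VR.O R) i)) (nat_lit 0)) (Nat.beq (FC7.Fc.ty
    (VR.F R) (FC7.OD.pc (VR.O R) i)) (nat_lit 3))))))) (Nat.mul (nat_lit 3054) (K.OD_nlbp
    (VR.O R) (VR.P R)))) (Nat.mul (nat_lit 6120) (K.OD_nsp (VR.O R) (VR.P R) (VR.P' R)))) := rfl
  rw [e, h]
  rfl

theorem V2.co_eq (R : VR) : V2.co R = K.Fc_co (VR.F R) := by
  have h := ua_sum2 (FC6.Pa.n (VR.P R)) 3054 2024 (FC6.Pa.u (VR.P R)) (FC7.Fc.tw (VR.F R))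
  have e : K.Fc_co (VR.F R) = (Nat.add (K.sumN (FC6.Pa.n (VR.P R)) (fun (i : ℕ) =>
    (Nat.mul (FC6.Pa.u (VR.P R) i) (Bool.rec (motive := fun _ => ℕ) 2024 3054
    (FC7.Fc.tw (VR.F R) i))))) (Nat.mul (nat_lit 3054) (K.OD_nlb (VR.O R) (VR.P R)))) := rfl
  rw [e, h]
  rfl

theorem V2.chkM_eq (R : VR) : V2.chkM R = K.Fc_chkM (VR.F R) (nat_lit 0) := by
  unfold V2.chkM
  rw [V2.cop_eq, V2.co_eq]
  rfl

theorem V2.chkN_eq (R : VR) : V2.chkN R = K.Fc_chkN (VR.F R) := by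
  unfold V2.chkN
  rw [V2.cop_eq, V2.co_eq]
  rfl

theorem V2.chkMN_ok {R : VR} (h : (K.bor (V2.chkM R) (V2.chkN R)) = true) :
    (K.bor (K.Fc_chkM (VR.F R) (nat_lit 0)) (K.Fc_chkN (VR.F R))) = true := by
  rw [← V2.chkM_eq, ← V2.chkN_eq]; exact h

/-- the expansion of the reduction, the filter is not used by the static checks -/
theorem ua_sta (R : VR) : K.XE_sta (K.Fc_XX (VR.F R)) (VR.P R) (VR.P' R) =
    K.XE_sta (VR.X R) (VR.P R) (VR.P' R) := rfl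

theorem ua_djs (R : VR) (l : List ℕ) (ou lu : ℕ → Bool) :
    K.djs (K.Fc_XX (VR.F R)) (VR.O R) (VR.P R) (VR.P' R) l ou lu =
    K.djs (VR.X R) (VR.O R) (VR.P R) (VR.P' R) l ou lu := rfl

end Vs

end Pool.FC7
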