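import Pool.Agent.FC7.VsF

/-! # Vector form of the static checks: the flips -/

open Finset

set_option linter.unusedSectionVars false

namespace Pool.FC7

open Pool.FC6

namespace Vs

/-- the table `V` with the value `v` at `i` -/
def put (V i v : ℕ) : ℕ :=
  Nat.xor V (Nat.shiftLeft (Nat.xor (tx V i) v) (Nat.mul (nat_lit 16) i))

theorem tx_put {V i v : ℕ} (hv : v < 65536) (j : ℕ) :
    tx (put V i v) j = if j = i then v else tx V j := by
  apply Nat.eq_of_testBit_eq
  intro k
  have e : put V i v = V ^^^ ((tx V i ^^^ v) <<< (16 * i)) := rfl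
  rw [tx_bit, e, Nat.testBit_xor, Nat.testBit_shiftLeft, Nat.testBit_xor, tx_bit]
  by_cases hk : k < 16
  · by_cases hj : j = i
    · subst hj
      rw [if_pos rfl, decide_eq_true hk, decide_eq_true (by omega : 16 * j + k ≥ 16 * j)]
      have e1 : 16 * j + k - 16 * j = k := by omega
      rw [e1, decide_eq_true hk]
      cases V.testBit (16 * j + k) <;> cases v.testBit k <;> rfl
    · rw [if_neg hj, tx_bit, decide_eq_true hk]
      by_cases h1 : 16 * j + k ≥ 16 * i
      · have h2 : 16 ≤ 16 * j + k - 16 * i := by omega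
        have h3 : v.testBit (16 * j + k - 16 * i) = false := by
          apply Nat.testBit_lt_two_pow
          calc v < 2 ^ 16 := hv
            _ ≤ 2 ^ (16 * j + k - 16 * i) := Nat.pow_le_pow_right (by norm_num) h2
        rw [h3, decide_eq_false (by omega : ¬ 16 * j + k - 16 * i < 16)]
        simp
      · rw [decide_eq_false h1]
        simp
  · rw [decide_eq_false hk, Bool.false_and]
    have hv2 : v.testBit k = false := by
      apply Nat.testBit_lt_two_pow
      calc v < 2 ^ 16 := hv
        _ ≤ 2 ^ k := Nat.pow_le_pow_right (by norm_num) (by omega)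
    split_ifs
    · exact hv2.symm
    · rw [tx_bit, decide_eq_false hk, Bool.false_and]

/-- the table `φ` after the flip of the edge `{a, b}` -/
def flf (f a b : ℕ) : ℕ :=
  put (put (put (put (put (put f (tx f a) b) (tx f (tx f b)) (tx f a)) b (tx f (tx f b)))
    (tx f b) a) (tx f (tx f a)) (tx f b)) a (tx f (tx f a))

/-- the labels after the flip of the edge `{a, b}` -/
def fll (f l a b : ℕ) : ℕ :=
  put (put l b (tx l (tx f (tx f a)))) a (tx l (tx f (tx f b)))

theorem brec {p : Bool} {x y : ℕ} :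
    (Bool.rec (motive := fun _ => ℕ) x y p : ℕ) = if p = true then y else x := by
  cases p <;> rfl

theorem flf_eq {f a b : ℕ} (ha : a < 65536) (hb : b < 65536) :
    tx (flf f a b) = K.flφ (tx f) a b := by
  funext x
  unfold flf K.flφ
  rw [tx_put (tx_lt _ _), tx_put (tx_lt _ _), tx_put ha, tx_put (tx_lt _ _), tx_put (tx_lt _ _),
    tx_put hb]
  simp only [brec, K.nbeq_eq, decide_eq_true_eq]

theorem fll_eq {f l a b : ℕ} : tx (fll f l a b) = fun (x : ℕ) =>
    (Bool.rec (motive := fun _ => ℕ) (Bool.rec (motive := fun _ => ℕ) (tx l x)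
      (tx l (tx f (tx f a))) (Nat.beq x b)) (tx l (tx f (tx f b))) (Nat.beq x a)) := by
  funext x
  unfold fll
  rw [tx_put (tx_lt _ _), tx_put (tx_lt _ _)]
  simp only [brec, K.nbeq_eq, decide_eq_true_eq]

/-- the flips of a list -/
noncomputable def flps (R : VR) (L : List ℕ) (f l : ℕ) : Bool :=
  List.rec (motive := fun _ => ℕ → ℕ → Bool)
    (fun f l => K.band (Nat.beq f (VR.phpT R)) (Nat.beq l (VR.lpT R)))
    (fun a _ ih f l => K.band (K.band (K.band (K.band (Nat.ble (Nat.succ a) (VR.n R))
      (K.bnot (Nat.beq (tx (VR.alT R) a) a))) (K.bnot (Nat.beq (tx (VR.alT R) a) (tx f a))))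
        (K.bnot (Nat.beq (tx (VR.alT R) a) (tx f (tx f a)))))
          (ih (flf f a (tx (VR.alT R) a)) (fll f l a (tx (VR.alT R) a)))) L f l

/-- the check of the flips -/
noncomputable def V2.flips (R : VR) : Bool := flps R (VR.fl R) (VR.phiT R) (VR.lT R)

/-- a patch with the tables `f` and `l` -/
noncomputable def pfl (R : VR) (f l : ℕ) : Pa where
  n := VR.n R
  φ := tx f
  α := tx (VR.alT R)
  l := tx l
  real := tf (VR.realT R)
  u := tx (VR.uT R)

theorem flps_ok (R : VR) (L : List ℕ) : ∀ f l, flps R L f l = true →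
    K.Pa_flips (VR.P' R) (pfl R f l) L = true := by
  induction L with
  | nil =>
    intro f l h
    have h1 : K.band (Nat.beq f (VR.phpT R)) (Nat.beq l (VR.lpT R)) = true := h
    rw [K.band_eq, Bool.and_eq_true, K.nbeq_eq, K.nbeq_eq, decide_eq_true_eq,
      decide_eq_true_eq] at h1
    obtain ⟨h2, h3⟩ := h1
    subst h2 h3
    show K.band (Nat.beq (VR.n R) (VR.n R)) (K.allN (VR.n R) fun i => K.band (K.band (Nat.beq
      (tx (VR.phpT R) i) (tx (VR.phpT R) i)) (Nat.beq (tx (VR.alT R) i) (tx (VR.alT R) i)))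
        (Nat.beq (tx (VR.lpT R) i) (tx (VR.lpT R) i))) = true
    have e : ∀ a, Nat.beq a a = true := fun a => by rw [K.nbeq_eq, decide_eq_true_eq]
    rw [e, K.band_eq, Bool.true_and, allN_dec, decide_eq_true_eq]
    intro i _
    rw [e, e, e]
    rfl
  | cons a L ih =>
    intro f l h
    have h1 : K.band (K.band (K.band (K.band (Nat.ble (Nat.succ a) (VR.n R))
      (K.bnot (Nat.beq (tx (VR.alT R) a) a))) (K.bnot (Nat.beq (tx (VR.alT R) a) (tx f a))))
        (K.bnot (Nat.beq (tx (VR.alT R) a) (tx f (tx f a)))))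
          (flps R L (flf f a (tx (VR.alT R) a)) (fll f l a (tx (VR.alT R) a))) = true := h
    rw [K.band_eq, Bool.and_eq_true, ← K.band_eq] at h1
    obtain ⟨h2, h3⟩ := h1
    have h4 := ih _ _ h3
    have ha : a < 65536 := by
      have h5 := h2
      rw [K.band_eq] at h5
      simp only [Bool.and_eq_true] at h5
      have h6 := h5.1.1.1
      rw [K.nble_eq, decide_eq_true_eq] at h6
      have h7 := VR.n_b R
      omega
    have e : K.Pa_fl (pfl R f l) a = pfl R (flf f a (tx (VR.alT R) a))
        (fll f l a (tx (VR.alT R) a)) := by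
      unfold pfl
      rw [flf_eq ha (tx_lt _ _), fll_eq]
      rfl
    show K.band (K.Pa_flOk (pfl R f l) a) (K.Pa_flips (VR.P' R) (K.Pa_fl (pfl R f l) a) L) = true
    rw [e, h4, K.band_eq, Bool.and_true]
    exact h2

theorem flips_ok {R : VR} (h : V2.flips R = true) :
    K.Pa_flips (VR.P' R) (VR.P R) (VR.fl R) = true := flps_ok R _ _ _ h

end Vs

end Pool.FC7
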