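import Pool.Agent.FC7.VuA

/-! # Vector form of the static checks: the words -/

open Finset

set_option linter.unusedSectionVars false

namespace Pool.FC7

open Pool.FC6

namespace Vs

open Vc (vec vec_congr vec_add vec_mul vec_lt vec_and pow16)

/-- steps of the letters below 8192: two bits for each letter, sixteen times: 1 for a plain letter,
2 for a gap, 0 for a letter which is not allowed -/
def wtab : ℕ :=
  nat_lit 0x2a2a2a2a2a2a2a2a2a2a2a2a2a2a2a2a2a2a2a2a2a2a2a2a2a2a2a2a2a2a2a2a2a2a2a2a2a2a2a2a2a2a2a2a2a2a2a2a150000000015151500151515001515152a2a2a2a2a2a2a2a2a2a2a2a2a2a2a2a2a2a2a2a2a2a2a2a2a2a2a2a2a2a2a2a2a2a2a2a2a2a2a2a2a2a2a2a2a2a2a2a150000000015151500151515001515152a2a2a2a2a2a2a2a2a2a2a2a2a2a2a2a2a2a2a2a2a2a2a2a2a2a2a2a2a2a2a2a2a2a2a2a2a2a2a2a2a2a2a2a2a2a2a2a150000000015151500151515001515152a2a2a2a2a2a2a2a2a2a2a2a2a2a2a2a2a2a2a2a2a2a2a2a2a2a2a2a2a2a2a2a2a2a2a2a2a2a2a2a2a2a2a2a2a2a2a2a150000000015151500151515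001515152a2a2a2a2a2a2a2a2a2a2a2a2a2a2a2a2a2a2a2a2a2a2a2a2a2a2a2a2a2a2a2a2a2a2a2a2a2a2a2a2a2a2a2a2a2a2a2a150000000015151500151515001515152a2a2a2a2a2a2a2a2a2a2a2a2a2a2a2a2a2a2a2a2a2a2a2a2a2a2a2a2a2a2a2a2a2a2a2a2a2a2a2a2a2a2a2a2a2a2a2a150000000015151500151515001515152a2a2a2a2a2a2a2a2a2a2a2a2a2a2a2a2a2a2a2a2a2a2a2a2a2a2a2a2a2a2a2a2a2a2a2a2a2a2a2a2a2a2a2a2a2a2a2a150000000015151500151515001515152a2a2a2a2a2a2a2a2a2a2a2a2a2a2a2a2a2a2a2a2a2a2a2a2a2a2a2a2a2a2a2a2a2a2a2a2a2a2a2a2a2a2a2a2a2a2a2a150000000015151500151515001515152a2a2a2a2a2a2a2a2a2a2a2a2a2a2a2a2a2a2a2a2a2a2a2a2a2a2a2a2a2a2a2a2a2a2a2a2a2a2a2a2a2a2a2a2a2a2a2a150000000015151500151515001515152a2a2a2a2a2a2a2a2a2a2a2a2a2a2a2a2a2a2a2a2a2a2a2a2a2a2a2a2a2a2a2a2a2a2a2a2a2a2a2a2a2a2a2a2a2a2a2a150000000015151500151515001515152a2a2a2a2a2a2a2a2a2a2a2a2a2a2a2a2a2a2a2a2a2a2a2a2a2a2a2a2a2a2a2a2a2a2a2a2a2a2a2a2a2a2a2a2a2a2a2a150000000015151500151515001515152a2a2a2a2a2a2a2a2a2a2a2a2a2a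2a2a2a2a2a2a2a2a2a2a2a2a2a2a2a2a2a2a2a2a2a2a2a2a2a2a2a2a2a2a2a2a2a2a150000000015151500151515001515152a2a2a2a2a2a2a2a2a2a2a2a2a2a2a2a2a2a2a2a2a2a2a2a2a2a2a2a2a2a2a2a2a2a2a2a2a2a2a2a2a2a2a2a2a2a2a2a150000000015151500151515001515152a2a2a2a2a2a2a2a2a2a2a2a2a2a2a2a2a2a2a2a2a2a2a2a2a2a2a2a2a2a2a2a2a2a2a2a2a2a2a2a2a2a2a2a2a2a2a2a150000000015151500151515001515152a2a2a2a2a2a2a2a2a2a2a2a2a2a2a2a2a2a2a2a2a2a2a2a2a2a2a2a2a2a2a2a2a2a2a2a2a2a2a2a2a2a2a2a2a2a2a2a150000000015151500151515001515152a2a2a2a2a2a2a2a2a2a2a2a2a2a2a2a2a2a2a2a2a2a2a2a2a2a2a2a2a2a2a2a2a2a2a2a2a2a2a2a2a2a2a2a2a2a2a2a150000000015151500151515001515152a2a2a2a2a2a2a2a2a2a2a2a2a2a2a2a2a2a2a2a2a2a2a2a2a2a2a2a2a2a2a2a2a2a2a2a2a2a2a2a2a2a2a2a2a2a2a2a150000000015151500151515001515152a2a2a2a2a2a2a2a2a2a2a2a2a2a2a2a2a2a2a2a2a2a2a2a2a2a2a2a2a2a2a2a2a2a2a2a2a2a2a2a2a2a2a2a2a2a2a2a150000000015151500151515001515152a2a2a2a2a2a2a2a2a2a2a2a2a2a2a2a2a2a2a2a2a2a2a2a2a2a2a2a2a2a2a2a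2a2a2a2a2a2a2a2a2a2a2a2a2a2a2a2a150000000015151500151515001515152a2a2a2a2a2a2a2a2a2a2a2a2a2a2a2a2a2a2a2a2a2a2a2a2a2a2a2a2a2a2a2a2a2a2a2a2a2a2a2a2a2a2a2a2a2a2a2a150000000015151500151515001515152a2a2a2a2a2a2a2a2a2a2a2a2a2a2a2a2a2a2a2a2a2a2a2a2a2a2a2a2a2a2a2a2a2a2a2a2a2a2a2a2a2a2a2a2a2a2a2a150000000015151500151515001515152a2a2a2a2a2a2a2a2a2a2a2a2a2a2a2a2a2a2a2a2a2a2a2a2a2a2a2a2a2a2a2a2a2a2a2a2a2a2a2a2a2a2a2a2a2a2a2a150000000015151500151515001515152a2a2a2a2a2a2a2a2a2a2a2a2a2a2a2a2a2a2a2a2a2a2a2a2a2a2a2a2a2a2a2a2a2a2a2a2a2a2a2a2a2a2a2a2a2a2a2a150000000015151500151515001515152a2a2a2a2a2a2a2a2a2a2a2a2a2a2a2a2a2a2a2a2a2a2a2a2a2a2a2a2a2a2a2a2a2a2a2a2a2a2a2a2a2a2a2a2a2a2a2a150000000015151500151515001515152a2a2a2a2a2a2a2a2a2a2a2a2a2a2a2a2a2a2a2a2a2a2a2a2a2a2a2a2a2a2a2a2a2a2a2a2a2a2a2a2a2a2a2a2a2a2a2a150000000015151500151515001515152a2a2a2a2a2a2a2a2a2a2a2a2a2a2a2a2a2a2a2a2a2a2a2a2a2a2a2a2a2a2a2a2a2a2a2a2a2a2a2a2a2a2a2a2a2a2a2a1500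00000015151500151515001515152a2a2a2a2a2a2a2a2a2a2a2a2a2a2a2a2a2a2a2a2a2a2a2a2a2a2a2a2a2a2a2a2a2a2a2a2a2a2a2a2a2a2a2a2a2a2a2a150000000015151500151515001515152a2a2a2a2a2a2a2a2a2a2a2a2a2a2a2a2a2a2a2a2a2a2a2a2a2a2a2a2a2a2a2a2a2a2a2a2a2a2a2a2a2a2a2a2a2a2a2a150000000015151500151515001515152a2a2a2a2a2a2a2a2a2a2a2a2a2a2a2a2a2a2a2a2a2a2a2a2a2a2a2a2a2a2a2a2a2a2a2a2a2a2a2a2a2a2a2a2a2a2a2a150000000015151500151515001515152a2a2a2a2a2a2a2a2a2a2a2a2a2a2a2a2a2a2a2a2a2a2a2a2a2a2a2a2a2a2a2a2a2a2a2a2a2a2a2a2a2a2a2a2a2a2a2a150000000015151500151515001515152a2a2a2a2a2a2a2a2a2a2a2a2a2a2a2a2a2a2a2a2a2a2a2a2a2a2a2a2a2a2a2a2a2a2a2a2a2a2a2a2a2a2a2a2a2a2a2a150000000015151500151515001515152a2a2a2a2a2a2a2a2a2a2a2a2a2a2a2a2a2a2a2a2a2a2a2a2a2a2a2a2a2a2a2a2a2a2a2a2a2a2a2a2a2a2a2a2a2a2a2a150000000015151500151515001515150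

/-- sixteen times the number of positions of a letter, 0 for a letter which is not allowed -/
def wf (c : ℕ) : ℕ := Nat.land (Nat.shiftRight wtab (Nat.mul (nat_lit 2) c)) (nat_lit 48)

/-- the word as a number -/
noncomputable def wn (l : List ℕ) : ℕ :=
  List.rec (motive := fun _ => ℕ) (nat_lit 65535)
    (fun c _ ih => (fun t => Bool.rec (motive := fun _ => ℕ)
      (Nat.add (Nat.succ c) (Nat.shiftLeft ih t)) (nat_lit 0) (Nat.beq t (nat_lit 0))) (wf c)) l

/-- sixteen times the position of a letter -/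
noncomputable def wpos (l : List ℕ) (i : ℕ) : ℕ :=
  List.rec (motive := fun _ => ℕ → ℕ)
    (fun i => Nat.rec (motive := fun _ => ℕ) (nat_lit 0) (fun _ _ => nat_lit 16000) i)
    (fun c _ ih i => Nat.rec (motive := fun _ => ℕ) (nat_lit 0)
      (fun j _ => Nat.add (wf c) (ih j)) i) l i

/-- the letters plus one at the real spokes, 0 at the others -/
def wU (R : VR) : ℕ :=
  Nat.land (Nat.add (VR.ltT R) (VR.on R)) (Nat.mul (VR.rlT R) (nat_lit 65535))

/-- the check of the word of an alive centre -/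
noncomputable def V2.wa (R : VR) (a : ℕ) : Bool :=
  K.band ((fun P => Nat.beq (wn (K.lgetD (VR.wd R) a []))
      (Nat.add (Nat.mod (Nat.shiftRight (wU R) (Nat.mul (nat_lit 16) (tx (VR.offT R) a))) P)
        (Nat.mul (nat_lit 65535) P))) (Nat.pow (nat_lit 65536) (tx (VR.zmT R) a)))
    (K.bor (Nat.beq a (nat_lit 0))
      (Nat.beq (wpos (K.lgetD (VR.wd R) (tx (VR.zpaT R) a) []) (tx (VR.raT R) a))
        (Nat.mul (nat_lit 16) (tx (VR.jaT R) a))))

/-- the check of a dead centre -/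
noncomputable def V2.wi (R : VR) (a : ℕ) : Bool :=
  K.band (Nat.ble (Nat.succ (tx (VR.zpaT R) a)) (VR.x R))
  ((fun l => (fun c => K.band (Nat.beq (wf c) (nat_lit 32)) (K.band
      (Nat.beq (Nat.land c (nat_lit 48)) (nat_lit 16)) (K.band
      (Nat.beq (tx (VR.zmT R) a) (nat_lit 4)) (K.band
      (Nat.beq (Nat.add (wpos l (tx (VR.raT R) a)) (nat_lit 16))
        (Nat.mul (nat_lit 16) (tx (VR.jaT R) a)))
      ((fun s => K.band
        (Nat.beq (Nat.land (Nat.shiftRight (VR.rlT R) s) (nat_lit 0xffffffffffffffff)) (nat_lit 0))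
        (Nat.beq (Nat.land (Nat.shiftRight (VR.ltT R) s) (nat_lit 0x000c000c000c000c))
          (Nat.mul (Nat.land c (nat_lit 12)) (nat_lit 0x0001000100010001))))
        (Nat.mul (nat_lit 16) (tx (VR.offT R) a)))))))
    (K.lgetD l (tx (VR.raT R) a) (nat_lit 8192)))
    (K.lgetD (VR.wd R) (tx (VR.zpaT R) a) []))

/-- the check of the words -/
noncomputable def V2.words (R : VR) : Bool :=
  K.allN (VR.nc R) (fun a => Bool.rec (motive := fun _ => Bool) (V2.wi R a) (V2.wa R a)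
    (Nat.ble (Nat.succ a) (VR.x R)))

/-! ### The letters -/

theorem wtab_low : K.allN 32 (fun i => K.allN 256 (fun j => (fun c => (fun t =>
    Bool.rec (motive := fun _ => Bool)
      (Nat.beq t 0) (Bool.rec (motive := fun _ => Bool) (Nat.beq t 32) (Nat.beq t 16)
        (Nat.beq (K.lK c) 0)) (K.no3 c)) (wf c)) (Nat.add (Nat.mul 256 i) j))) = true := by
  decide +kernel

theorem wtab_hi : wtab < 2 ^ (16384 + 4) := by
  decide +kernel

theorem wshr {W N c : ℕ} (h : W < 2 ^ (N + 4)) (hc : N ≤ 2 * c) : W >>> (2 * c) < 16 := by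
  rw [Nat.shiftRight_eq_div_pow, Nat.div_lt_iff_lt_mul (by positivity)]
  have e3 : (16 : ℕ) = 2 ^ 4 := rfl
  rw [e3, ← pow_add]
  exact lt_of_lt_of_le h (Nat.pow_le_pow_right (by norm_num) (by omega))

theorem wf_hi {c : ℕ} (hc : 8192 ≤ c) : wf c = 0 := by
  have e : wf c = (wtab >>> (2 * c)) &&& 48 := rfl
  rw [e]
  have h1 : wtab >>> (2 * c) < 16 := wshr wtab_hi (by omega)
  generalize wtab >>> (2 * c) = z at h1
  interval_cases z <;> rfl

theorem wf_cases (c : ℕ) : wf c = 0 ∨ (c < 8192 ∧ no3 c = true ∧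
    ((wf c = 16 ∧ lK c = 0) ∨ (wf c = 32 ∧ lK c ≠ 0))) := by
  by_cases hc : 8192 ≤ c
  · exact Or.inl (wf_hi hc)
  · have h1 := wtab_low
    rw [ua_all] at h1
    have h2 := h1 (c / 256) (by omega)
    rw [ua_all] at h2
    have h3 := h2 (c % 256) (Nat.mod_lt _ (by norm_num))
    have e : Nat.add (Nat.mul 256 (c / 256)) (c % 256) = c := Nat.div_add_mod c 256
    rw [e] at h3
    rw [K.lK_eq, K.no3_eq] at h3
    have h4 : Bool.rec (motive := fun _ => Bool)
      (Nat.beq (wf c) 0) (Bool.rec (motive := fun _ => Bool) (Nat.beq (wf c) 32) (Nat.beq (wf c) 16)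
        (Nat.beq (lK c) 0)) (no3 c) = true := h3
    cases hn : no3 c
    · rw [hn] at h4
      exact Or.inl (ua_beq.1 h4)
    · rw [hn] at h4
      cases hk : Nat.beq (lK c) 0
      · rw [hk] at h4
        refine Or.inr ⟨by omega, rfl, Or.inr ⟨ua_beq.1 h4, fun h => ?_⟩⟩
        rw [ua_beq.2 h] at hk
        exact absurd hk (by decide)
      · rw [hk] at h4
        exact Or.inr ⟨by omega, rfl, Or.inl ⟨ua_beq.1 h4, ua_beq.1 hk⟩⟩

/-! ### Words -/

theorem fl_cons0 {c : ℕ} (l : List ℕ) (h : lK c = 0) : fl (c :: l) = true :: fl l := by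
  unfold fl
  rw [List.map_cons, sk_zero.2 h, flags_zero]

theorem fl_cons1 {c : ℕ} (l : List ℕ) (h : lK c ≠ 0) : fl (c :: l) = true :: false :: fl l := by
  unfold fl
  rw [List.map_cons, flags_pos (fun h1 => h (sk_zero.1 h1))]

theorem wpos0 (c : ℕ) (l : List ℕ) : pos (c :: l) 0 = 0 := rfl

theorem wpos_s0 {c : ℕ} (l : List ℕ) (i : ℕ) (h : lK c = 0) :
    pos (c :: l) (i + 1) = pos l i + 1 := by
  unfold pos
  rw [List.take_succ_cons, fl_cons0 _ h, List.length_cons]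

theorem wpos_s1 {c : ℕ} (l : List ℕ) (i : ℕ) (h : lK c ≠ 0) :
    pos (c :: l) (i + 1) = pos l i + 2 := by
  unfold pos
  rw [List.take_succ_cons, fl_cons1 _ h, List.length_cons, List.length_cons]

/-- the next lanes, with a mark at the end -/
def wX (R : VR) (s m : ℕ) : ℕ := (wU R >>> (16 * s)) % 65536 ^ m + 65535 * 65536 ^ m

theorem wX_zero (R : VR) (s : ℕ) : wX R s 0 = 65535 := by
  unfold wX
  rw [pow_zero, Nat.mod_one]
  norm_num

theorem wX_mod (R : VR) (s m : ℕ) : wX R s (m + 1) % 65536 = tx (wU R) s := by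
  unfold wX
  rw [tx_eq, pow_succ', ← mul_assoc, mul_comm 65535 65536, mul_assoc, Nat.add_mul_mod_self_left,
    Nat.mod_mul_right_mod]

theorem wX_div (R : VR) (s m : ℕ) : wX R s (m + 1) / 65536 = wX R (s + 1) m := by
  unfold wX
  rw [pow_succ', ← mul_assoc, mul_comm 65535 65536, mul_assoc, Nat.add_mul_div_left _ _ (by norm_num),
    Nat.mod_mul_right_div_self]
  have e : wU R >>> (16 * (s + 1)) = wU R >>> (16 * s) / 65536 := by
    rw [mul_add, mul_one, Nat.shiftRight_add, Nat.shiftRight_eq_div_pow _ 16]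
  rw [e]

theorem wU_tx (R : VR) (s : ℕ) : tx (wU R) s = if tf (VR.rlT R) s = true then
    tx (VR.ltT R) s + 1 else 0 := by
  have e0 : wU R = Nat.land (Nat.add (VR.ltT R) (VR.on R)) (65535 * VR.rlT R) := by
    unfold wU
    congr 1
    exact Nat.mul_comm _ _
  rw [e0, tx_land]
  have hl := vec_tx (VR.lt_lt R)
  have h1 : tx (Nat.add (VR.ltT R) (VR.on R)) s = if s < VR.N R then tx (VR.ltT R) s + 1 else 0 := by
    have e1 : Nat.add (VR.ltT R) (VR.on R) = vec (VR.N R) fun i => tx (VR.ltT R) i + 1 := by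
      show VR.ltT R + VR.on R = _
      conv_lhs => rw [hl]
      show vec (VR.N R) (tx (VR.ltT R)) + oM (VR.N R) = _
      rw [oM_eq, vec_add]
    rw [e1, tx_vec]
    intro i _
    have := VR.lt_le R i
    omega
  have hf : ∀ i, tx (VR.rlT R) i = bt (tf (VR.rlT R) i) := fun i => tf_eq i (flg_le _ _)
  have h2 : tx (65535 * VR.rlT R) s = if tf (VR.rlT R) s = true then 65535 else 0 := by
    have hr := vec_tx (VR.rl_lt R)
    have e1 : 65535 * VR.rlT R = vec (VR.N R) fun i => 65535 * bt (tf (VR.rlT R) i) := by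
      conv_lhs => rw [hr]
      rw [vec_mul]
      exact vec_congr fun i _ => by rw [hf]
    rw [e1, tx_vec]
    · by_cases hs : s < VR.N R
      · rw [if_pos hs]
        cases tf (VR.rlT R) s <;> rfl
      · rw [if_neg hs]
        have h3 := tx_hi (VR.rl_lt R) (not_lt.1 hs)
        rw [hf] at h3
        cases h4 : tf (VR.rlT R) s
        · rfl
        · rw [h4] at h3; exact absurd h3 (by decide)
    · intro i _
      have := bt_le (tf (VR.rlT R) i)
      omega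
  rw [h1, h2]
  by_cases h3 : tf (VR.rlT R) s = true
  · rw [if_pos h3, if_pos h3]
    have hs : s < VR.N R := by
      by_contra h4
      have h5 := tx_hi (VR.rl_lt R) (not_lt.1 h4)
      rw [hf, h3] at h5
      exact absurd h5 (by decide)
    rw [if_pos hs]
    have e2 : (65535 : ℕ) = 2 ^ 16 - 1 := rfl
    rw [e2, Nat.and_two_pow_sub_one_eq_mod, Nat.mod_eq_of_lt]
    have := VR.lt_le R s
    omega
  · rw [if_neg h3, if_neg h3, Nat.and_zero]

theorem wn_nil : wn [] = 65535 := rfl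

theorem wn_cons (c : ℕ) (l : List ℕ) : wn (c :: l) = if wf c = 0 then 0 else
    c + 1 + wn l * 2 ^ wf c := by
  have e : wn (c :: l) = Bool.rec (motive := fun _ => ℕ) (Nat.add (Nat.succ c)
      (Nat.shiftLeft (wn l) (wf c))) 0 (Nat.beq (wf c) 0) := rfl
  rw [e]
  by_cases h : wf c = 0
  · rw [if_pos h, h]; rfl
  · rw [if_neg h]
    have h1 : Nat.beq (wf c) 0 = false := by
      rw [K.nbeq_eq, decide_eq_false h]
    rw [h1]
    show c + 1 + (wn l) <<< (wf c) = _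
    rw [Nat.shiftLeft_eq]

theorem wX_pos (R : VR) (s m : ℕ) : 65535 ≤ wX R s m := by
  unfold wX
  have : 1 ≤ 65536 ^ m := Nat.one_le_pow _ _ (by norm_num)
  omega

/-- the word agrees with the lanes -/
theorem wn_ok (R : VR) : ∀ (l : List ℕ) (s m : ℕ), wn l = wX R s m →
    m = (fl l).length ∧ (∀ j < m, tf (VR.rlT R) (s + j) = (fl l).getD j false) ∧
      ∀ i < l.length, tx (VR.ltT R) (s + pos l i) = l.getD i 0 ∧ wf (l.getD i 0) ≠ 0 := by
  intro l
  induction l with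
  | nil =>
    intro s m h
    rw [wn_nil] at h
    have hm : m = 0 := by
      rcases m with _ | m
      · rfl
      · have h1 := wX_div R s m
        rw [← h] at h1
        have h2 := wX_pos R (s + 1) m
        omega
    subst hm
    refine ⟨rfl, fun j hj => absurd hj (by omega), fun i hi => absurd hi ?_⟩
    rw [List.length_nil]; omega
  | cons c l ih =>
    intro s m h
    rw [wn_cons] at h
    have hp := wX_pos R s m
    have hne : wf c ≠ 0 := by
      intro h0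
      rw [if_pos h0] at h
      omega
    rw [if_neg hne] at h
    rcases wf_cases c with h0 | ⟨hc, hn, h1⟩
    · exact absurd h0 hne
    have key : ∀ z : ℕ, c + 1 + z * 65536 = wX R s m → ∃ m', m = m' + 1 ∧ tx (wU R) s = c + 1 ∧
        z = wX R (s + 1) m' := by
      intro z hz
      rcases m with _ | m'
      · rw [wX_zero] at hz
        omega
      · refine ⟨m', rfl, ?_, ?_⟩
        · rw [← wX_mod R s m', ← hz]
          omega
        · rw [← wX_div R s m', ← hz]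
          omega
    have real : tx (wU R) s = c + 1 → tf (VR.rlT R) s = true ∧ tx (VR.ltT R) s = c := by
      intro h2
      rw [wU_tx] at h2
      split_ifs at h2 with h3
      exact ⟨h3, by omega⟩
    rcases h1 with ⟨h1, hk⟩ | ⟨h1, hk⟩
    · rw [h1] at h
      obtain ⟨m', rfl, h2, h3⟩ := key (wn l) h
      obtain ⟨i1, i2, i3⟩ := ih _ _ h3
      obtain ⟨r1, r2⟩ := real h2
      refine ⟨?_, ?_, ?_⟩
      · rw [fl_cons0 _ hk, List.length_cons, ← i1]
      · intro j hj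
        rw [fl_cons0 _ hk]
        rcases j with _ | j
        · exact r1
        · rw [List.getD_cons_succ, ← i2 j (by omega)]
          congr 1; omega
      · intro i hi
        rcases i with _ | i
        · exact ⟨r2, hne⟩
        · rw [List.length_cons] at hi
          rw [List.getD_cons_succ, wpos_s0 _ _ hk]
          obtain ⟨j1, j2⟩ := i3 i (by omega)
          refine ⟨?_, j2⟩
          rw [← j1]
          congr 1; omega
    · rw [h1] at h
      have e1 : wn l * 2 ^ 32 = wn l * 65536 * 65536 := by ring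
      rw [e1] at h
      obtain ⟨m', rfl, h2, h3⟩ := key _ h
      obtain ⟨r1, r2⟩ := real h2
      obtain ⟨m'', rfl, h4, h5⟩ : ∃ m'', m' = m'' + 1 ∧ tx (wU R) (s + 1) = 0 ∧
          wn l = wX R (s + 1 + 1) m'' := by
        rcases m' with _ | m''
        · rw [wX_zero] at h3
          omega
        · refine ⟨m'', rfl, ?_, ?_⟩
          · rw [← wX_mod R (s + 1) m'', ← h3]
            omega
          · rw [← wX_div R (s + 1) m'', ← h3]
            omega
      obtain ⟨i1, i2, i3⟩ := ih _ _ h5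
      have r3 : tf (VR.rlT R) (s + 1) = false := by
        rw [wU_tx] at h4
        cases h6 : tf (VR.rlT R) (s + 1)
        · rfl
        · rw [h6, if_pos rfl] at h4
          omega
      refine ⟨?_, ?_, ?_⟩
      · rw [fl_cons1 _ hk, List.length_cons, List.length_cons, ← i1]
      · intro j hj
        rw [fl_cons1 _ hk]
        rcases j with _ | _ | j
        · exact r1
        · exact r3
        · rw [List.getD_cons_succ, List.getD_cons_succ, ← i2 j (by omega)]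
          congr 1; omega
      · intro i hi
        rcases i with _ | i
        · exact ⟨r2, hne⟩
        · rw [List.length_cons] at hi
          rw [List.getD_cons_succ, wpos_s1 _ _ hk]
          obtain ⟨j1, j2⟩ := i3 i (by omega)
          refine ⟨?_, j2⟩
          rw [← j1]
          congr 1; omega

theorem wpos_ok : ∀ (l : List ℕ) (i : ℕ), (∀ k < l.length, wf (l.getD k 0) ≠ 0) →
    (i ≤ l.length ∧ wpos l i = 16 * pos l i) ∨ 16000 ≤ wpos l i := by
  intro l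
  induction l with
  | nil =>
    intro i _
    rcases i with _ | i
    · exact Or.inl ⟨le_refl _, rfl⟩
    · exact Or.inr (le_refl _)
  | cons c l ih =>
    intro i h
    rcases i with _ | i
    · exact Or.inl ⟨Nat.zero_le _, rfl⟩
    · have e : wpos (c :: l) (i + 1) = wf c + wpos l i := rfl
      have h0 : wf c ≠ 0 := h 0 (by rw [List.length_cons]; omega)
      have h1 : ∀ k < l.length, wf (l.getD k 0) ≠ 0 := by
        intro k hk
        have := h (k + 1) (by rw [List.length_cons]; omega)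
        rwa [List.getD_cons_succ] at this
      rcases ih i h1 with ⟨h2, h3⟩ | h2
      · left
        refine ⟨by rw [List.length_cons]; omega, ?_⟩
        rw [e, h3]
        rcases wf_cases c with h4 | ⟨_, _, ⟨h4, h5⟩ | ⟨h4, h5⟩⟩
        · exact absurd h4 h0
        · rw [h4, wpos_s0 _ _ h5]; ring
        · rw [h4, wpos_s1 _ _ h5]; ring
      · right
        rw [e]; omega

/-! ### Gaps -/

theorem wgap : ∀ (l : List ℕ) (i : ℕ), i < l.length → lK (l.getD i 0) ≠ 0 →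
    (fl l).getD (pos l i + 1) false = false ∧
      (kin (l.map sk)).getD (pos l i + 1) 0 = sk (l.getD i 0) := by
  intro l
  induction l with
  | nil => intro i hi; rw [List.length_nil] at hi; omega
  | cons c l ih =>
    intro i hi hk
    rcases i with _ | i
    · have hk' : lK c ≠ 0 := hk
      have hs : sk c ≠ 0 := fun h1 => hk' (sk_zero.1 h1)
      rw [fl_cons1 _ hk', List.map_cons, kin_pos hs]
      exact ⟨rfl, rfl⟩
    · rw [List.getD_cons_succ] at hk ⊢
      rw [List.length_cons] at hi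
      obtain ⟨h1, h2⟩ := ih i (by omega) hk
      by_cases h3 : lK c = 0
      · rw [wpos_s0 _ _ h3, fl_cons0 _ h3, List.map_cons, sk_zero.2 h3, kin_zero]
        exact ⟨h1, h2⟩
      · rw [wpos_s1 _ _ h3, fl_cons1 _ h3, List.map_cons, kin_pos (fun h4 => h3 (sk_zero.1 h4))]
        exact ⟨h1, h2⟩

/-- four lanes -/
theorem w4_rl {T s : ℕ} (h : Nat.land (Nat.shiftRight T (16 * s)) 0xffffffffffffffff = 0) (j : ℕ)
    (hj : j < 4) : tf T (s + j) = false := by
  have e : tf T (s + j) = T.testBit (16 * (s + j)) := by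
    show K.tbit T _ = _
    rw [K.tbit_eq]; rfl
  rw [e]
  have h1 : ((T >>> (16 * s)) &&& (2 ^ 64 - 1)).testBit (16 * j) = false := by
    have h2 : (T >>> (16 * s)) &&& (2 ^ 64 - 1) = 0 := h
    rw [h2, Nat.zero_testBit]
  rw [Nat.and_two_pow_sub_one_eq_mod, Nat.testBit_mod_two_pow, decide_eq_true (by omega),
    Bool.true_and, Nat.testBit_shiftRight] at h1
  rw [← h1]
  congr 1; ring

theorem w4_lt {T s c : ℕ} (h : Nat.land (Nat.shiftRight T (16 * s)) 0x000c000c000c000c =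
    Nat.mul (Nat.land c 12) 0x0001000100010001) (j : ℕ) (hj : j < 4) :
    tx T (s + j) / 4 % 4 = c / 4 % 4 := by
  have e12 : ∀ x : ℕ, x &&& 12 = 4 * (x / 4 % 4) := by
    intro x
    apply Nat.eq_of_testBit_eq
    intro i
    have e4 : (4 : ℕ) * (x / 4 % 4) = 2 ^ 2 * (x / 2 ^ 2 % 2 ^ 2) := rfl
    rw [Nat.testBit_and, e4, Nat.testBit_two_pow_mul, Nat.testBit_mod_two_pow,
      Nat.testBit_div_two_pow]
    have h12 : (12 : ℕ).testBit i = (decide (2 ≤ i) && decide (i < 4)) := by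
      by_cases hi : i < 4
      · interval_cases i <;> rfl
      · rw [Nat.testBit_lt_two_pow (lt_of_lt_of_le (by norm_num : (12 : ℕ) < 2 ^ 4)
          (Nat.pow_le_pow_right (by norm_num) (not_lt.1 hi))), decide_eq_false hi, Bool.and_false]
    rw [h12]
    by_cases h2 : 2 ≤ i
    · have e5 : i - 2 + 2 = i := by omega
      have e6 : decide (i - 2 < 2) = decide (i < 4) := by
        rw [decide_eq_decide]; omega
      rw [e5, e6, decide_eq_true h2]
      cases decide (i < 4) <;> cases x.testBit i <;> rfl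
    · rw [decide_eq_false h2]
      cases x.testBit i <;> rfl
  have h1 := congrArg (fun z => tx z j) h
  have e1 : tx (Nat.land (Nat.shiftRight T (16 * s)) 0x000c000c000c000c) j = tx T (s + j) &&& 12 := by
    rw [tx_land]
    congr 1
    · rw [tx_eq, tx_eq]
      show (T >>> (16 * s)) >>> (16 * j) % 65536 = _
      rw [← Nat.shiftRight_add, mul_add]
    · interval_cases j <;> rfl
  have e2 : tx (Nat.mul (Nat.land c 12) 0x0001000100010001) j = c &&& 12 := by
    have e3 : Nat.mul (Nat.land c 12) 0x0001000100010001 = vec 4 fun _ => c &&& 12 := by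
      show (c &&& 12) * 0x0001000100010001 = _
      unfold Vc.vec
      rw [Finset.sum_range_succ, Finset.sum_range_succ, Finset.sum_range_succ,
        Finset.sum_range_succ, Finset.sum_range_zero]
      ring
    rw [e3, tx_vec, if_pos hj]
    intro i _
    exact lt_of_le_of_lt Nat.and_le_right (by norm_num)
  have h2 : tx T (s + j) &&& 12 = c &&& 12 := by
    rw [← e1, ← e2]; exact h1
  rw [e12, e12] at h2
  omega

theorem wlC {c : ℕ} (h : Nat.land c 48 = 16) : lC c = 1 := by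
  have h1 : (c &&& 48) / 16 = 1 := by
    have h2 : c &&& 48 = 16 := h
    rw [h2]
  have h3 : (c &&& 48) / 2 ^ 4 = c / 2 ^ 4 &&& 48 / 2 ^ 4 := Nat.and_div_two_pow
  have h4 : c / 16 &&& 3 = 1 := by
    have e : c / 2 ^ 4 &&& 48 / 2 ^ 4 = c / 16 &&& 3 := rfl
    rw [← e, ← h3]
    exact h1
  have e3 : (3 : ℕ) = 2 ^ 2 - 1 := rfl
  rw [e3, Nat.and_two_pow_sub_one_eq_mod] at h4
  exact h4

/-- the check of the words is correct -/
theorem V2.words_ok {R : VR} (hz : K.Stars_chk (VR.Z R) (VR.P R) = true)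
    (h : V2.words R = true) : K.Cf_chkW (VR.Cf R) = true ∧ K.Cf_chkT (VR.Cf R) = true ∧
      K.Cf_chkL (VR.Cf R) (tx (VR.ltT R)) = true := by
  rw [K.Stars_chk_eq] at hz
  have hC := Stars.chk_ck hz
  have hpa : ∀ a < VR.nc R, 0 < a → tx (VR.zpaT R) a < a := hC.palt
  unfold V2.words at h
  rw [ua_all] at h
  have hac : ∀ a, (VR.Cf R).ac a = Nat.ble (Nat.succ a) (VR.x R) := fun _ => rfl
  have hac1 : ∀ a, (VR.Cf R).ac a = true ↔ a < VR.x R := fun a => by rw [hac, ua_ble]; rfl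
  obtain ⟨W, hW⟩ : ∃ W : ℕ → List ℕ, W = fun a => K.lgetD (VR.wd R) a [] := ⟨_, rfl⟩
  have act0 : ∀ a < VR.nc R, a < VR.x R → V2.wa R a = true := by
    intro a ha hx
    have h1 := h a ha
    have h2 : Nat.ble (Nat.succ a) (VR.x R) = true := ua_ble.2 hx
    rw [h2] at h1
    exact h1
  have act : ∀ a < VR.nc R, a < VR.x R → tx (VR.zmT R) a = (fl (W a)).length ∧
      (∀ j < tx (VR.zmT R) a, tf (VR.rlT R) (tx (VR.offT R) a + j) = (fl (W a)).getD j false) ∧
        ∀ i < (W a).length, tx (VR.ltT R) (tx (VR.offT R) a + pos (W a) i) = (W a).getD i 0 ∧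
          wf ((W a).getD i 0) ≠ 0 := by
    intro a ha hx
    have h1 := act0 a ha hx
    unfold V2.wa at h1
    rw [ua_band] at h1
    have h2 := ua_beq.1 h1.1
    exact wn_ok R (W a) _ _ (by rw [hW]; exact h2)
  have actp : ∀ a < VR.nc R, a < VR.x R → 0 < a → tx (VR.raT R) a ≤ (W (tx (VR.zpaT R) a)).length ∧
      tx (VR.jaT R) a = pos (W (tx (VR.zpaT R) a)) (tx (VR.raT R) a) := by
    intro a ha hx h0
    have h1 := act0 a ha hx
    unfold V2.wa at h1
    rw [ua_band, ua_bor] at h1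
    have hp := hpa a ha h0
    obtain ⟨-, -, h4⟩ := act _ (by omega) (show tx (VR.zpaT R) a < VR.x R by omega)
    have h2 : wpos (W (tx (VR.zpaT R) a)) (tx (VR.raT R) a) = 16 * tx (VR.jaT R) a := by
      rw [hW]
      exact ua_beq.1 (h1.2.resolve_left fun h9 => Nat.ne_of_gt h0 (ua_beq.1 h9))
    have h3 := VR.ja_le R a
    rcases wpos_ok _ (tx (VR.raT R) a) (fun k hk => (h4 k hk).2) with ⟨h5, h6⟩ | h5
    · exact ⟨h5, by omega⟩
    · omega
  have ina : ∀ a < VR.nc R, ¬ a < VR.x R → 0 < a ∧ tx (VR.zpaT R) a < VR.x R ∧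
      tx (VR.raT R) a < (W (tx (VR.zpaT R) a)).length ∧
      lK ((W (tx (VR.zpaT R) a)).getD (tx (VR.raT R) a) 0) ≠ 0 ∧
      lC ((W (tx (VR.zpaT R) a)).getD (tx (VR.raT R) a) 0) = 1 ∧ tx (VR.zmT R) a = 4 ∧
      tx (VR.jaT R) a = pos (W (tx (VR.zpaT R) a)) (tx (VR.raT R) a) + 1 ∧
      (∀ j < 4, tf (VR.rlT R) (tx (VR.offT R) a + j) = false) ∧
      ∀ j < 4, tx (VR.ltT R) (tx (VR.offT R) a + j) / 4 % 4 =
        (W (tx (VR.zpaT R) a)).getD (tx (VR.raT R) a) 0 / 4 % 4 := by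
    intro a ha hx
    have h1 := h a ha
    have h2 : Nat.ble (Nat.succ a) (VR.x R) = false := by
      cases h3 : Nat.ble (Nat.succ a) (VR.x R)
      · rfl
      · exact absurd (ua_ble.1 h3) hx
    rw [h2] at h1
    change V2.wi R a = true at h1
    unfold V2.wi at h1
    simp only [ua_band, ua_beq, ua_ble] at h1
    obtain ⟨q1, q2, q3, q4, q5, q6, q7⟩ := h1
    have q1' : tx (VR.zpaT R) a < VR.x R := q1
    have h0 : 0 < a := by omega
    have hp := hpa a ha h0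
    have eW : K.lgetD (VR.wd R) (tx (VR.zpaT R) a) [] = W (tx (VR.zpaT R) a) := by rw [hW]
    rw [eW] at q2 q3 q5 q7
    rw [K.lgetD_eq] at q2 q3 q7
    have hr : tx (VR.raT R) a < (W (tx (VR.zpaT R) a)).length := by
      by_contra h4
      rw [List.getD_eq_default _ _ (not_lt.1 h4)] at q2
      exact absurd q2 (by decide +kernel)
    have e1 : (W (tx (VR.zpaT R) a)).getD (tx (VR.raT R) a) 8192 =
        (W (tx (VR.zpaT R) a)).getD (tx (VR.raT R) a) 0 := by
      rw [List.getD_eq_getElem _ _ hr, List.getD_eq_getElem _ _ hr]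
    have e1' : (W (tx (VR.zpaT R) a)).getD (tx (VR.raT R) a) (nat_lit 8192) =
        (W (tx (VR.zpaT R) a)).getD (tx (VR.raT R) a) 0 := e1
    rw [e1'] at q2 q3 q7
    obtain ⟨-, -, h4⟩ := act _ (by omega) q1'
    have h5 : lK ((W (tx (VR.zpaT R) a)).getD (tx (VR.raT R) a) 0) ≠ 0 := by
      rcases wf_cases ((W (tx (VR.zpaT R) a)).getD (tx (VR.raT R) a) 0) with
        h6 | ⟨_, _, ⟨h6, _⟩ | ⟨_, h6⟩⟩
      · rw [h6] at q2; exact absurd q2 (by decide)
      · rw [h6] at q2; exact absurd q2 (by decide)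
      · exact h6
    have h6 : tx (VR.jaT R) a = pos (W (tx (VR.zpaT R) a)) (tx (VR.raT R) a) + 1 := by
      have h7 := VR.ja_le R a
      have q5' : wpos (W (tx (VR.zpaT R) a)) (tx (VR.raT R) a) + 16 = 16 * tx (VR.jaT R) a := q5
      rcases wpos_ok _ (tx (VR.raT R) a) (fun k hk => (h4 k hk).2) with ⟨_, h9⟩ | h9
      · omega
      · omega
    refine ⟨h0, q1', hr, h5, ?_, q4, h6, fun j hj => w4_rl q6 j hj, fun j hj => w4_lt q7 j hj⟩
    exact wlC q3
  refine ⟨?_, ?_, ?_⟩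
  · rw [K.Cf_chkW_eq]
    unfold FC7.Cf.chkW
    rw [FC6.allN_iff]
    intro a ha
    by_cases hx : (VR.Cf R).ac a = true
    · rw [if_pos hx]
      obtain ⟨h1, h2, -⟩ := act a ha ((hac1 a).1 hx)
      rw [Bool.and_eq_true, decide_eq_true_eq, FC6.allN_iff]
      rw [hW] at h1 h2
      refine ⟨h1, fun j hj => ?_⟩
      rw [beq_iff_eq]
      exact h2 j hj
    · rw [if_neg hx]
      obtain ⟨h0, h1, h2, h3, h4, h5, h6, h7, -⟩ := ina a ha (fun h => hx ((hac1 a).2 h))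
      have hp := hpa a ha h0
      obtain ⟨g1, g2, g3⟩ := act _ (lt_trans hp ha) h1
      obtain ⟨g4, g5⟩ := wgap _ _ h2 h3
      have hs : sk ((W (tx (VR.zpaT R) a)).getD (tx (VR.raT R) a) 0) = 4 := by
        unfold sk
        rw [if_neg h3, h4]; rfl
      rw [← h6] at g4 g5
      simp only [Bool.and_eq_true, decide_eq_true_eq, Bool.not_eq_true', FC6.allN_iff]
      rw [hW] at g4 g5 hs g2 g1
      have hm : (VR.Cf R).Z.m a = 4 := h5
      refine ⟨⟨⟨⟨⟨by omega, (hac1 _).2 h1⟩, ?_⟩, ?_⟩, by omega⟩, ?_⟩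
      · have hlt : tx (VR.jaT R) a < tx (VR.zmT R) (tx (VR.zpaT R) a) := hC.jalt a ha h0
        exact (g2 _ hlt).trans g4
      · rw [hm]
        refine Eq.symm ?_
        refine (congrArg Sd.ubl (g5.trans hs)).trans ?_
        rfl
      · rw [hm]
        intro j hj
        exact h7 j hj
  · rw [K.Cf_chkT_eq]
    unfold FC7.Cf.chkT
    rw [FC6.allN_iff]
    intro a ha
    rw [Bool.or_eq_true, decide_eq_true_eq]
    by_cases h0 : a = 0
    · exact Or.inl h0
    · right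
      simp only [Bool.and_eq_true, decide_eq_true_eq]
      have hp := hpa a ha (by omega)
      by_cases hx : (VR.Cf R).ac a = true
      · have hx' := (hac1 a).1 hx
        obtain ⟨h1, h2⟩ := actp a ha hx' (by omega)
        rw [hW] at h1 h2
        rw [if_pos hx]
        exact ⟨⟨(hac1 _).2 (show tx (VR.zpaT R) a < VR.x R by omega), h1⟩, decide_eq_true h2⟩
      · obtain ⟨-, h1, h2, h3, h4, h5, h6, h7, -⟩ := ina a ha (fun h => hx ((hac1 a).2 h))
        rw [hW] at h2 h6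
        rw [if_neg hx]
        exact ⟨⟨(hac1 _).2 h1, h2.le⟩, decide_eq_true h6⟩
  · rw [K.Cf_chkL_eq]
    unfold FC7.Cf.chkL
    rw [FC6.allN_iff]
    intro a ha
    by_cases hx : (VR.Cf R).ac a = true
    · rw [if_pos hx, FC6.allN_iff]
      obtain ⟨-, -, h1⟩ := act a ha ((hac1 a).1 hx)
      rw [hW] at h1
      intro i hi
      obtain ⟨h2, h3⟩ := h1 i hi
      rw [Bool.and_eq_true, decide_eq_true_eq]
      refine ⟨h2, ?_⟩
      rcases wf_cases ((K.lgetD (VR.wd R) a []).getD i 0) with h4 | ⟨_, h4, _⟩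
      · exact absurd h4 h3
      · exact h4
    · rw [if_neg hx]
      obtain ⟨h0, h1, h2, h3, h4, h5, h6, h7, h8⟩ := ina a ha (fun h => hx ((hac1 a).2 h))
      have hm : (VR.Cf R).Z.m a = 4 := h5
      rw [Bool.and_eq_true, decide_eq_true_eq, FC6.allN_iff, hm]
      rw [hW] at h2 h8
      refine ⟨h2, fun j hj => decide_eq_true ?_⟩
      exact h8 j hj

end Vs

end Pool.FC7
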