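import Pool.Agent.FC7.VwA
import Pool.Agent.FC7.VwB
import Pool.Agent.FC7.VwC
import Pool.Agent.FC7.VuD
import Pool.Agent.FC7.VuB

/-! # Vector form of the static checks: the checks of a record -/

open Finset

set_option linter.unusedSectionVars false

namespace Pool.FC7

open Pool.FC6

namespace Vs

variable (R : VR)

/-- the stars and the words -/
noncomputable def VR.v1 : Bool :=
  K.band (c_stars R) (K.band (c_wtok R) (K.band (c_cfS1 R) (K.band (c_cfS2 R)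
    (K.band (V2.words R) (K.band (c_chk4 R) (c_gooq R))))))

/-- the facts with a reduction -/
noncomputable def VR.v2 : Bool :=
  K.band (c_chkA R) (K.band (c_chkD R) (K.band (c_chkP R) (K.band (c_chkV R)
    (K.band (K.WF_chkL (VR.WF R) (nat_lit 6)) (K.band (c_o4 R) (K.band (V2.o4b R)
      (K.band (c_o3 R) (K.band (V2.o3b R) (K.band (c_ou R) (K.band (c_chkZ R)
        (K.band (V2.z4b R) (K.band (V2.bgl R) (K.band (c_g8a R) (K.band (c_chkB1 R)
          (V2.chkB2 R)))))))))))))))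

/-- the ring condition -/
noncomputable def VR.ring : Bool :=
  K.XE_ringOk (K.Fc_XX (VR.F R)) (VR.P R)

/-- the reduction -/
noncomputable def VR.v3 : Bool :=
  K.band (c_goodp R) (K.band (V2.flips R) (K.band (c_sta R) (K.band (VR.ring R)
    (K.band (c_odst R) (K.band (c_djs R) (K.band (Nat.ble (Nat.succ (VR.x R))
      (Nat.add (VR.x R) (VR.k R))) (K.band (c_fchkS R) (K.band (c_fchkL R) (K.band (c_fchkQ R)
        (K.band (c_fchkK R) (K.band (c_fchkR R) (K.bor (c_chkM R) (c_chkN R)))))))))))))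

/-- the static check of a fact -/
noncomputable def VR.vG : Bool := K.band (VR.v1 R) (K.band (VR.v2 R) (VR.v3 R))

variable {R}

theorem beqr (a : ℕ) : Nat.beq a a = true := by
  rw [K.nbeq_eq, decide_eq_true_eq]

theorem v1_ok (h : VR.v1 R = true) : K.Stars_chk (VR.Z R) (VR.P R) = true ∧
    K.Wt_ok (FC7.WF.toWt (VR.WF R)) = true ∧ K.Cf_chkS (VR.Cf R) = true ∧
      K.Cf_chkW (VR.Cf R) = true ∧ K.Cf_chkT (VR.Cf R) = true ∧
        K.Cf_chkL (VR.Cf R) (tx (VR.ltT R)) = true ∧ V2.chk4 R = true ∧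
          K.Pa_good (VR.P R) = true := by
  unfold VR.v1 at h
  rw [K.band_eq] at h
  simp only [Bool.and_eq_true] at h
  obtain ⟨h1, h2, h3, h4, h5, h8, h9⟩ := h
  rw [c_stars_eq] at h1
  rw [c_wtok_eq] at h2
  rw [c_cfS1_eq] at h3
  rw [c_cfS2_eq] at h4
  rw [c_chk4_eq] at h8
  rw [c_gooq_eq] at h9
  obtain ⟨r1, r2, r3⟩ := V2.words_ok (V2.stars_ok h1) h5
  exact ⟨V2.stars_ok h1, h2, cfS_ok h3 h4, r1, r2, r3, h8, h9⟩

theorem v2_ok (h1 : VR.v1 R = true) (h : VR.v2 R = true) : K.g1 (VR.W R) = true ∧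
    K.g2 (VR.W R) = true ∧ K.g3 (VR.W R) = true ∧ K.g4 (VR.W R) = true ∧ K.g5 (VR.W R) = true ∧
      K.g6 (VR.W R) = true ∧ K.g7 (VR.W R) = true ∧ K.g8 (VR.W R) = true := by
  obtain ⟨p1, p2, p3, p4, p5, p6, p7, _⟩ := v1_ok h1
  unfold VR.v2 at h
  rw [K.band_eq] at h
  simp only [Bool.and_eq_true] at h
  obtain ⟨q1, q2, q3, q4, q5, q6, q7, q8, q9, q10, q11, q12, q13, q14, q15, q16⟩ := h
  rw [c_chkA_eq] at q1
  rw [c_chkD_eq] at q2
  rw [c_chkP_eq] at q3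
  rw [c_chkV_eq] at q4
  rw [c_o4_eq] at q6
  rw [c_o3_eq] at q8
  rw [c_ou_eq] at q10
  rw [c_chkZ_eq] at q11
  rw [c_g8a_eq] at q14
  rw [c_chkB1_eq] at q15
  obtain ⟨r1, r2, r3⟩ := g8_ok q13 q14
  have b : ∀ {a c : Bool}, a = true → c = true → K.band a c = true := by
    rintro _ _ rfl rfl; rfl
  refine ⟨b p1 (b p2 (b p3 (b p4 p5))), V2.chkA_ok q1, q2, b q5 (b q3 (V2.chkV_ok q4)),
    V2.chkO_ok q6 q7 q8 q9 q10, V2.chkZ_ok q11 q12, chk4_ok (bgW q13) p7,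
    b p6 (b r1 (b r2 (b r3 (V2.chkB_ok q15 q16))))⟩

theorem v3_ok (h0 : VR.v1 R = true) (h : VR.v3 R = true) : K.f1 (VR.F R) = true ∧
    K.f2 (VR.F R) = true ∧ K.f3 (VR.F R) = true ∧ K.f4 (VR.F R) = true := by
  obtain ⟨_, _, _, _, _, _, _, h1⟩ := v1_ok h0
  unfold VR.v3 at h
  rw [K.band_eq] at h
  simp only [Bool.and_eq_true] at h
  obtain ⟨q1, q2, q3, q4, q5, q6, q7, q8, q9, q10, q11, q12, q13⟩ := h
  rw [c_goodp_eq] at q1
  rw [c_sta_eq] at q3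
  rw [c_odst_eq] at q5
  rw [c_djs_eq] at q6
  rw [c_fchkS_eq] at q8
  rw [c_fchkL_eq] at q9
  rw [c_fchkQ_eq] at q10
  rw [c_fchkK_eq] at q11
  rw [c_fchkR_eq] at q12
  rw [c_chkM_eq, c_chkN_eq] at q13
  have b : ∀ {a c : Bool}, a = true → c = true → K.band a c = true := by
    rintro _ _ rfl rfl; rfl
  refine ⟨b h1 (b q1 (b (flips_ok q2) (b q3 q4))), ?_, V2.fchkS_ok q8,
    b (V2.fchkL_ok q9) (b q10 (b q11 (b q12 (b ?_ (V2.chkMN_ok q13)))))⟩
  · exact b q5 (b (V2.djs_ok q6) (b (beqr _) (b (beqr _) (b rfl (b (beqr _) (b q7 (b rfl rfl)))))))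
  · rw [allN_dec, decide_eq_true_eq]
    intro i _
    exact beqr _

/-- THE STATIC CHECK OF A FACT WITH A REDUCTION -/
theorem vG_ok (h : VR.vG R = true) : (K.g1 (VR.W R) = true ∧
    K.g2 (VR.W R) = true ∧ K.g3 (VR.W R) = true ∧ K.g4 (VR.W R) = true ∧ K.g5 (VR.W R) = true ∧
      K.g6 (VR.W R) = true ∧ K.g7 (VR.W R) = true ∧ K.g8 (VR.W R) = true) ∧ K.f1 (VR.F R) = true ∧
        K.f2 (VR.F R) = true ∧ K.f3 (VR.F R) = true ∧ K.f4 (VR.F R) = true := by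
  unfold VR.vG at h
  rw [K.band_eq] at h
  simp only [Bool.and_eq_true] at h
  exact ⟨v2_ok h.1 h.2.1, v3_ok h.1 h.2.2⟩

/-- the ring condition without a reduction -/
noncomputable def VR.ringS (R : VR) : Bool :=
  K.XE_ringOk (K.Fr_XX (VR.Fr R)) (VR.P R)

/-- the static check of a fact without a reduction -/
noncomputable def VR.vS (R : VR) : Bool :=
  K.band (VR.v1 R) (K.band (c_rA R) (K.band (c_rD R) (K.band (c_rF R) (K.band (c_rP R)
    (K.band (c_g8d R) (K.band (V2.bgr R) (K.band (c_rsta R) (K.band (c_rfr R)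
      (K.band (Nat.beq (VR.lpT R) (VR.lT R)) (VR.ringS R))))))))))

/-- THE STATIC CHECK OF A FACT WITHOUT A REDUCTION -/
theorem vS_ok (h : VR.vS R = true) : K.WS_chkG (VR.WS R) = true := by
  unfold VR.vS at h
  rw [K.band_eq] at h
  simp only [Bool.and_eq_true] at h
  obtain ⟨h0, q1, q2, q3, q4, q5, q6, q7, q8, q9, q10⟩ := h
  obtain ⟨p1, p2, p3, p4, p5, p6, p7, p8⟩ := v1_ok h0
  rw [c_rA_eq] at q1
  rw [c_rD_eq] at q2
  rw [c_rF_eq] at q3
  rw [c_rP_eq] at q4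
  rw [c_g8d_eq] at q5
  rw [c_rsta_eq] at q7
  rw [c_rfr_eq] at q8
  rw [beq_iff] at q9
  have b : ∀ {a c : Bool}, a = true → c = true → K.band a c = true := by
    rintro _ _ rfl rfl; rfl
  exact b (b (b (b (b (b (b (b (b (b p1 p2) (rA_ok q1)) q2) q3) q4) (b (b (b p1 p3) p4) p5)) p6)
    (chk4_ok (bgS q6) p7)) q5) (rfr_ok q8 q7 q10 q9)

end Vs

end Pool.FC7
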