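import Pool.Agent.FC7.VsC
import Pool.Agent.FC7.Pk

/-! # Vector form of the static checks: records from few numbers -/

set_option linter.unusedSectionVars false

namespace Pool.FC7

open Pool.FC6

namespace Vs

namespace VR

/-- blocks of `n` words of 16 bits -/
noncomputable def bA (h A k : ℕ) : ℕ := K.ex (Nat.mul (nat_lit 16) (K.tb h (nat_lit 20))) A k

/-- blocks of `ns` words of 16 bits -/
noncomputable def bB (h A k : ℕ) : ℕ := K.ex (Nat.mul (nat_lit 16) (K.tb h (nat_lit 21))) A k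

/-- A record from few numbers: `h`: bytes; `A`: blocks of `n` words, `B`: blocks of `ns` words -/
noncomputable def mk2 (h A B a2 a13 a15 a17 a18 a19 a20 a21 a22 a23 a24 a25 a26 a27 a28 st stp dj
    djp s3 nm na fl lv ul gt D5 p5 sw tl wd bw pl tz t4 bg : ℕ) : VR :=
  VR.mk (K.tb h (nat_lit 0)) (K.tb h (nat_lit 1)) (K.tb h (nat_lit 2)) (K.tb h (nat_lit 3))
    (K.tb h (nat_lit 4)) (K.tb h (nat_lit 5)) (K.tb h (nat_lit 6)) (K.tb h (nat_lit 7))
    (K.tb h (nat_lit 8)) (K.tb h (nat_lit 9)) (K.tb h (nat_lit 10)) (K.tb h (nat_lit 11))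
    (K.tb h (nat_lit 12)) (K.tb h (nat_lit 13)) (K.tb h (nat_lit 14)) (K.tb h (nat_lit 15))
    (K.tb h (nat_lit 16)) (K.tb h (nat_lit 17)) (K.tb h (nat_lit 18))
    (bA h A (nat_lit 0)) (bA h A (nat_lit 1)) a2 (bA h A (nat_lit 2)) (bA h A (nat_lit 3))
    (bA h A (nat_lit 4)) (bA h A (nat_lit 5)) (bA h A (nat_lit 6)) (bB h B (nat_lit 0))
    (bA h A (nat_lit 7)) (bA h A (nat_lit 8)) (bB h B (nat_lit 1)) (bA h A (nat_lit 9)) a13
    (bB h B (nat_lit 2)) a15 (bB h B (nat_lit 3)) a17 a18 a19 a20 a21 a22 a23 a24 a25 a26 a27 a28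
    st stp (bB h B (nat_lit 4)) dj djp (bB h B (nat_lit 5)) (bB h B (nat_lit 6)) s3
    (bA h A (nat_lit 10)) nm na K.T0 (K.dl fl) ⟨K.dll lv, K.dll ul⟩
    (Nat.beq (K.tb h (nat_lit 19)) (nat_lit 1)) (K.dt gt) (K.dll D5) (K.d5 p5) (K.dlh sw)
    (K.dll tl) (K.dlh wd) (K.dlh bw) (K.dl pl) (K.dl tz) (K.dl t4) (K.dl bg)

end VR

end Vs

end Pool.FC7
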