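import Pool.Agent.FC7.Vr0
import Pool.Agent.FC7.VwF
import Pool.Agent.FC7.VwG
import Pool.Agent.FC7.Gf

/-! # The complete check of a packed record (vector form) -/

set_option linter.unusedSectionVars false

namespace Pool.FC7

open Pool.FC6 Pool.FC7.Vs

namespace K

/-- the check of a packed record -/
noncomputable def okVG (R : VR) (q s x m lo NB A w v XI nr nt nc N : ℕ) : Bool :=
  K.band (VR.vG R) (K.band (K.f5 (VR.F R)) (K.ev (VR.F R) q s x m lo NB A w v XI nr nt nc N))

/-- the check of a packed record without replacement -/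
noncomputable def okVS (R : VR) (q s x m lo NB A w v XI nr nt nc N : ℕ) : Bool :=
  K.band (VR.vS R) (K.evS (VR.Fr R) q s x m lo NB A w v XI nr nt nc N)

theorem recVG {R : VR} {q s x m lo NB A w v XI nr nt nc N : ℕ}
    (h : okVG R q s x m lo NB A w v XI nr nt nc N = true) {l : List FCS.Fct}
    (hl : K.lall l (K.keyG (VR.W R)) = true) : ∀ X ∈ l, NoL X.1 X.2 := by
  unfold okVG at h
  simp only [band_eq, Bool.and_eq_true] at h
  obtain ⟨h0, k5, hE⟩ := h
  obtain ⟨⟨h1, h2, h3, h4, h5, h6, h7, h8⟩, k1, k2, k3, k4⟩ := vG_ok h0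
  exact K.grpGs h1 h2 h3 h4 h5 h6 h7 h8 k1 k2 k3 k4 k5 (K.ev_one hE) hl

theorem recVS {R : VR} {q s x m lo NB A w v XI nr nt nc N : ℕ}
    (h : okVS R q s x m lo NB A w v XI nr nt nc N = true) {l : List FCS.Fct}
    (hl : K.lall l (K.keyS (VR.WS R)) = true) : ∀ X ∈ l, NoL X.1 X.2 := by
  unfold okVS at h
  rw [band_eq, Bool.and_eq_true] at h
  exact K.grpS (vS_ok h.1) (K.evS_one h.2) hl

end K

end Pool.FC7
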