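import Pool.Agent.FC7.Ql
import Pool.Agent.FC7.VwF
import Pool.Agent.FC7.VwG
import Pool.Agent.FC7.EvS
import Pool.Agent.FC7.Vr

/-! # Packed records with the relaxed condition for the cuts (vector form)

The numeral `b` has the units of the new patch which are strong; it replaces the numeral `a2` of the
record. -/

open Finset

set_option linter.unusedSectionVars false

namespace Pool.FC7

open Pool.FC6

namespace Vs

/-- the record with other units -/
noncomputable def VR.qr (R : VR) (b : ℕ) : VR := { R with a2 := b }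

variable (R : VR) (b : ℕ)

/-- the strong units are units of the new patch -/
noncomputable def VR.qle : Bool :=
  K.allN (VR.n R) fun i => Nat.ble (tx (VR.upT (VR.qr R b)) i) (tx (VR.upT R) i)

/-- no surely visited ring darts in the pieces without strong units -/
noncomputable def VR.qou : Bool :=
  K.allN (VR.n R) fun i => K.bor (K.bnot (Nat.beq (tx (VR.tyT R) (tx (VR.cepT R) i)) (nat_lit 1)))
    (K.bnot (tf (VR.ouT R) i))

/-- the facts with a reduction -/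
noncomputable def VR.v2q : Bool :=
  K.band (c_chkA R) (K.band (c_chkD R) (K.band (c_chkP R) (K.band (c_chkV (VR.qr R b))
    (K.band (K.WF_chkL (VR.WF R) (nat_lit 6)) (K.band (c_o4 R) (K.band (V2.o4b R)
      (K.band (c_o3 R) (K.band (V2.o3b R) (K.band (c_ou R) (K.band (c_chkZ R)
        (K.band (V2.z4b R) (K.band (V2.bgl R) (K.band (c_g8a R) (K.band (c_chkB1 R)
          (V2.chkB2 R)))))))))))))))

/-- the reduction -/
noncomputable def VR.v3q : Bool :=
  K.band (c_goodp R) (K.band (V2.flips R) (K.band (c_sta R) (K.band (VR.ring R)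
    (K.band (c_odst R) (K.band (c_djs (VR.qr R b)) (K.band (Nat.ble (Nat.succ (VR.x R))
      (Nat.add (VR.x R) (VR.k R))) (K.band (c_fchkS R) (K.band (c_fchkL R)
        (K.band (c_fchkQ (VR.qr R b)) (K.band (c_fchkK R) (K.band (c_fchkR R) (v4042 R))))))))))))

/-- the static check of a fact -/
noncomputable def VR.vQ : Bool :=
  K.band (Nat.beq (VR.uT (VR.qr R b)) (VR.uT R)) (K.band (VR.qle R b) (K.band (VR.qou R)
    (K.band (VR.v1 R) (K.band (VR.v2q R b) (VR.v3q R b)))))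

variable {R b}

theorem qr_P (h : VR.uT (VR.qr R b) = VR.uT R) : VR.P (VR.qr R b) = VR.P R :=
  congrArg (fun t => ({ VR.P R with u := tx t } : Pa)) h

theorem qr_F (h : VR.uT (VR.qr R b) = VR.uT R) :
    VR.F (VR.qr R b) = (VR.F R).su (tx (VR.upT (VR.qr R b))) :=
  congrArg (fun t => ({ VR.F (VR.qr R b) with P := { VR.P R with u := tx t } } : Fc)) h

theorem qr_WF (h : VR.uT (VR.qr R b) = VR.uT R) :
    VR.WF (VR.qr R b) = (VR.WF R).su (tx (VR.upT (VR.qr R b))) :=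
  congrArg (fun t => ({ VR.WF (VR.qr R b) with
    PT := { VR.P R with u := tx t }
    F := { VR.F (VR.qr R b) with P := { VR.P R with u := tx t } } } : FC7.WF)) h

theorem v2q_ok (h0 : VR.uT (VR.qr R b) = VR.uT R) (h1 : VR.v1 R = true)
    (h : VR.v2q R b = true) : K.g1 (VR.W R) = true ∧
    K.g2 (VR.W R) = true ∧ K.g3 (VR.W R) = true ∧
      K.WF_chkL (FC7.WG.toWF (VR.W R)) 6 = true ∧ K.WF_chkP (FC7.WG.toWF (VR.W R)) = true ∧
      K.WF_chkV ((FC7.WG.toWF (VR.W R)).su (tx (VR.upT (VR.qr R b)))) = true ∧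
      K.g5 (VR.W R) = true ∧ K.g6 (VR.W R) = true ∧ K.g7 (VR.W R) = true ∧
        K.g8 (VR.W R) = true := by
  obtain ⟨p1, p2, p3, p4, p5, p6, p7, _⟩ := v1_ok h1
  unfold VR.v2q at h
  rw [K.band_eq] at h
  simp only [Bool.and_eq_true] at h
  obtain ⟨q1, q2, q3, q4, q5, q6, q7, q8, q9, q10, q11, q12, q13, q14, q15, q16⟩ := h
  rw [c_chkA_eq] at q1
  rw [c_chkD_eq] at q2
  rw [c_chkP_eq] at q3
  rw [c_chkV_eq] at q4
  rw [c_o4_eq] at q6
  rw [c_o3_eq] at q8
  rw [c_ou_eq] at q10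
  rw [c_chkZ_eq] at q11
  rw [c_g8a_eq] at q14
  rw [c_chkB1_eq] at q15
  obtain ⟨r1, r2, r3⟩ := g8_ok q13 q14
  have b : ∀ {a c : Bool}, a = true → c = true → K.band a c = true := by
    rintro _ _ rfl rfl; rfl
  have hv := V2.chkV_ok q4
  rw [qr_WF h0] at hv
  exact ⟨b p1 (b p2 (b p3 (b p4 p5))), V2.chkA_ok q1, q2, q5, q3, hv,
    V2.chkO_ok q6 q7 q8 q9 q10, V2.chkZ_ok q11 q12, chk4_ok (bgW q13) p7,
    b p6 (b r1 (b r2 (b r3 (V2.chkB_ok q15 q16))))⟩

theorem v3q_ok (h0 : VR.uT (VR.qr R b) = VR.uT R) (h1 : VR.v1 R = true)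
    (hle : VR.qle R b = true) (hou : VR.qou R = true) (h : VR.v3q R b = true)
    (hE : (VR.F R).One) : K.FW (VR.F R) (tx (VR.upT (VR.qr R b))) := by
  obtain ⟨_, _, _, _, _, _, _, h1⟩ := v1_ok h1
  unfold VR.v3q at h
  rw [K.band_eq] at h
  simp only [Bool.and_eq_true] at h
  obtain ⟨q1, q2, q3, q4, q5, q6, q7, q8, q9, q10, q11, q12, q13⟩ := h
  rw [c_goodp_eq] at q1
  rw [c_sta_eq] at q3
  rw [c_odst_eq] at q5
  rw [c_djs_eq] at q6
  rw [c_fchkS_eq] at q8
  rw [c_fchkL_eq] at q9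
  rw [c_fchkQ_eq] at q10
  rw [c_fchkK_eq] at q11
  rw [c_fchkR_eq] at q12
  rw [e4042] at q13
  have b : ∀ {a c : Bool}, a = true → c = true → K.band a c = true := by
    rintro _ _ rfl rfl; rfl
  have dj := V2.djs_ok q6
  rw [qr_F h0] at q10 dj
  have q7' : VR.x R < VR.x R + VR.k R := by
    have h2 : (decide (Nat.succ (VR.x R) ≤ Nat.add (VR.x R) (VR.k R))) = true := by
      rw [← K.nble_eq]; exact q7
    exact of_decide_eq_true h2
  have q13' : K.OD_nbp (VR.O R) (VR.P R) (VR.P' R) < VR.x R := by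
    have h2 : (decide (Nat.succ (K.OD_nbp (VR.O R) (VR.P R) (VR.P' R)) ≤ VR.x R)) = true := by
      rw [← K.nble_eq]; exact q13
    exact of_decide_eq_true h2
  unfold VR.qle at hle
  rw [allN_dec, decide_eq_true_eq] at hle
  unfold VR.qou at hou
  rw [allN_dec, decide_eq_true_eq] at hou
  refine ⟨b h1 (b q1 (b (flips_ok q2) (b q3 q4))), q5, dj, rfl, rfl, rfl, rfl, q7', rfl, rfl,
    V2.fchkS_ok q8, V2.fchkL_ok q9, q10, q11, q12, fun i _ => ?_, fun i hi ht => ?_,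
    fun i hi => ?_, q13', hE⟩
  · show bt (tf (VR.lbpT R) i) = if tf (VR.lbpT R) i = true then 1 else 0
    cases tf (VR.lbpT R) i <;> rfl
  · have h2 := hou i hi
    have h3 : tx (VR.tyT R) (tx (VR.cepT R) i) = 1 := ht
    rw [h3] at h2
    show tf (VR.ouT R) i = false
    cases h4 : tf (VR.ouT R) i
    · rfl
    · rw [h4] at h2
      exact absurd h2 (by decide)
  · have h2 := hle i hi
    rw [K.nble_eq, decide_eq_true_eq] at h2
    exact h2

/-- THE STATIC CHECK OF A FACT without the condition for the cuts -/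
theorem vW_ok (h : VR.vQ R b = true) (hE : (VR.F R).One) :
    (VR.W R).QW (tx (VR.upT (VR.qr R b))) ∧ K.FW (VR.F R) (tx (VR.upT (VR.qr R b))) := by
  unfold VR.vQ at h
  rw [K.band_eq] at h
  simp only [Bool.and_eq_true] at h
  obtain ⟨h0, h1, h2, h3, h4, h5⟩ := h
  rw [beq_iff] at h0
  obtain ⟨g1, g2, g3, g4, g4', gV, g5, g6, g7, g8⟩ := v2q_ok h0 h3 h4
  have hF := v3q_ok h0 h3 h1 h2 h5 hE
  exact ⟨K.QW_of g1 g2 g3 g4 g4' gV g5 g6 g7 g8 hF, hF⟩

/-- THE STATIC CHECK OF A FACT, relaxed condition for the cuts -/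
theorem vQ_ok (h : VR.vQ R b = true)
    (hc : Vc.vchkq (FC7.Fc.C (VR.F R)) (FC7.Fc.O (VR.F R)) (FC7.Fc.P (VR.F R))
      (FC7.Fc.P' (VR.F R)) (FC7.Fc.gt (VR.F R)) (FC7.Fc.D5 (VR.F R)) (FC7.Fc.p5 (VR.F R)) = true)
    (hE : (VR.F R).One) : (VR.W R).QH (tx (VR.upT (VR.qr R b))) := by
  obtain ⟨h1, h2⟩ := vW_ok h hE
  obtain ⟨c1, c2, c3⟩ := h2.cp
  exact ⟨h1, Fc.cutsQ_of c1 c2 c3 h2.sm h2.cq hc⟩

end Vs

namespace K

open Vs

/-- the check of a packed record, relaxed condition for the cuts; `b`: the strong units -/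
noncomputable def okVQ (R : VR) (b q s x m lo NB A w v XI nr nt nc N : ℕ) : Bool :=
  K.band (VR.vQ R b) (K.band (Vc.vchkq (FC7.Fc.C (VR.F R)) (FC7.Fc.O (VR.F R)) (FC7.Fc.P (VR.F R))
      (FC7.Fc.P' (VR.F R)) (FC7.Fc.gt (VR.F R)) (FC7.Fc.D5 (VR.F R)) (FC7.Fc.p5 (VR.F R)))
    (K.ev (VR.F R) q s x m lo NB A w v XI nr nt nc N))

theorem recVQ (h87 : RlOf) {R : VR} {b q s x m lo NB A w v XI nr nt nc N : ℕ}
    (h : okVQ R b q s x m lo NB A w v XI nr nt nc N = true) {l : List FCS.Fct}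
    (hl : K.lall l (K.keyG (VR.W R)) = true) : ∀ X ∈ l, NoL X.1 X.2 := by
  unfold okVQ at h
  simp only [band_eq, Bool.and_eq_true] at h
  obtain ⟨h0, h1, hE⟩ := h
  exact K.grpQ h87 (vQ_ok h0 h1 (K.ev_one hE)) hl

end K

end Pool.FC7
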