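import Pool.Agent.FC7.Min

/-! # Relaxed condition for the cuts

The class `Ok` asks for `ec`: three edges in every cut, where each face may be put on either side.
Here we only ask that every hole of every deletion has at least three units (`Rlc`).  Faces with fewer
than three units (and without `Two`) are not required to be visited.  Every such state which is
smaller than a minimal counterexample has a solution. -/

open Finset

namespace Pool.FC7

open Pool.FC6 Pool.FC6.St

variable {D V : Type} [Fintype D] [DecidableEq V] {S : St D V} {L : D → Bool} {w : D → ℕ} {Δ : ℕ}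

/-- the units are replaced -/
def uU (S : St D V) (u' : D → ℕ) : St D V := { S with u := u' }

/-- the face of `d` is strong -/
def Str (S : St D V) (d : D) : Prop := 3 ≤ fu S d ∨ Two S d

/-- only the units of the strong faces are kept -/
noncomputable def st (S : St D V) : St D V :=
  uU S fun d => open Classical in if Str S d then S.u d else 0

/-- the relaxed class -/
structure Rlc (Δ : ℕ) (S : St D V) (L : D → Bool) (w : D → ℕ) : Prop extends Wf Δ S L w where
  hol : ∀ X : Finset V, (∃ d, (S.del X).real d = true) → ∀ d,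
    (∃ e, (S.del X).sc.r d e ∧ S.M.v e ∈ X ∧ S.M.v e ∈ S.A) → 3 ≤ fu (dl S w X) d

theorem dl_dl (X Y : Finset V) : dl (dl S w X) (dw S w X) Y = dl S w (X ∪ Y) := by
  have hr : ∀ d, ((dl S w X).del Y).real d = (S.del (X ∪ Y)).real d := by
    intro d
    show ((S.real d && decide (S.M.v d ∉ X) && decide (S.M.v (S.M.α d) ∉ X)) &&
      decide (S.M.v d ∉ Y) && decide (S.M.v (S.M.α d) ∉ Y)) =
      (S.real d && decide (S.M.v d ∉ X ∪ Y) && decide (S.M.v (S.M.α d) ∉ X ∪ Y))
    cases S.real d <;> by_cases h1 : S.M.v d ∈ X <;> by_cases h2 : S.M.v (S.M.α d) ∈ X <;>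
      by_cases h3 : S.M.v d ∈ Y <;> by_cases h4 : S.M.v (S.M.α d) ∈ Y <;> simp [h1, h2, h3, h4]
  have hu : ∀ d, (dl (dl S w X) (dw S w X) Y).u d = (dl S w (X ∪ Y)).u d := by
    intro d
    show (if S.M.v d ∈ Y then 0 else (if S.M.v d ∈ X then 0 else
      S.u d + (if S.real d = true ∧ S.M.v (S.M.α d) ∈ X then 1 + w d else 0)) +
      (if (S.real d && decide (S.M.v d ∉ X) && decide (S.M.v (S.M.α d) ∉ X)) = true ∧
        S.M.v (S.M.α d) ∈ Y then 1 + (if (S.real d && decide (S.M.v d ∉ X) &&
          decide (S.M.v (S.M.α d) ∉ X)) = true then w d else 0) else 0)) =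
      if S.M.v d ∈ X ∪ Y then 0 else
      S.u d + (if S.real d = true ∧ S.M.v (S.M.α d) ∈ X ∪ Y then 1 + w d else 0)
    cases S.real d <;> by_cases h1 : S.M.v d ∈ X <;> by_cases h2 : S.M.v (S.M.α d) ∈ X <;>
      by_cases h3 : S.M.v d ∈ Y <;> by_cases h4 : S.M.v (S.M.α d) ∈ Y <;> simp [h1, h2, h3, h4]
  have hA : (S.A \ X) \ Y = S.A \ (X ∪ Y) := by
    ext x; simp only [Finset.mem_sdiff, Finset.mem_union]; tauto
  have e1 : dl (dl S w X) (dw S w X) Y = ⟨S.M, (S.A \ X) \ Y, ((dl S w X).del Y).real,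
    (dl (dl S w X) (dw S w X) Y).u⟩ := rfl
  have e2 : dl S w (X ∪ Y) = ⟨S.M, S.A \ (X ∪ Y), (S.del (X ∪ Y)).real, (dl S w (X ∪ Y)).u⟩ := rfl
  rw [e1, e2, hA, funext hr, funext hu]

theorem Wf.dl_un (h : Wf Δ S L w) {X : Finset V} {d : D}
    (hc : ¬ ∃ e, (S.del X).sc.r d e ∧ S.M.v e ∈ X ∧ S.M.v e ∈ S.A) :
    (∀ e, (S.del X).sc.r d e → (FC7.dl S w X).u e = S.u e) ∧
    (∀ e, S.sc.r d e ↔ (S.del X).sc.r d e) := by
  classical
  push Not at hc
  let t : D → Bool := fun e => decide ((S.del X).sc.r d e)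
  have ht : (S.del X).Cl t := by
    refine ⟨fun e => ?_, fun e he => ?_⟩
    · exact decide_eq_decide.2 (scφ d e)
    · exact decide_eq_decide.2 (scα he d)
  have htd : t d = true := decide_eq_true ((S.del X).sc.iseqv.refl d)
  have tt : ∀ e, t e = true → (S.del X).sc.r d e := fun e he => of_decide_eq_true he
  have r1 : ∀ e, t e = true → (S.del X).real e = S.real e := by
    intro e he
    by_cases hr : S.real e = true
    · rw [hr, del_real]
      refine ⟨hr, fun h3 => hc e (tt e he) h3 (h.real_A e hr), fun h3 => ?_⟩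
      have h4 : (S.del X).real e = false := del_real_f.2 (Or.inr (Or.inr h3))
      have h5 : t (S.M.α e) = true := (ht.2 e h4).trans he
      exact hc _ (tt _ h5) h3 (h.real_A _ (by rw [h.real_α, hr]))
    · have hr' : S.real e = false := by simpa using hr
      rw [hr', del_real_f]; exact Or.inl hr'
  have u1 : ∀ e, t e = true → (FC7.dl S w X).u e = S.u e := by
    intro e he
    show (if S.M.v e ∈ X then 0 else
      S.u e + (if S.real e = true ∧ S.M.v (S.M.α e) ∈ X then 1 + w e else 0)) = S.u e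
    by_cases h3 : S.M.v e ∈ X
    · rw [if_pos h3]
      by_contra h4
      exact hc e (tt e he) h3 (h.u_A e (fun h5 => h4 h5.symm))
    · rw [if_neg h3, if_neg, add_zero]
      rintro ⟨h4, h5⟩
      have h6 := r1 e he
      rw [h4, del_real] at h6
      exact h6.2.2 h5
  refine ⟨fun e he => u1 e (decide_eq_true he), fun e => ⟨fun h1 => del_sc h1, fun h1 => ?_⟩⟩
  have key : (S.del X).Cl (fun e => t e && decide (S.sc.r d e)) := by
    refine ⟨fun e => ?_, fun e he => ?_⟩
    · beta_reduce
      rw [ht.1 e]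
      congr 1
      exact decide_eq_decide.2 (scφ d e)
    · beta_reduce
      rw [ht.2 e he]
      by_cases h2 : t e = true
      · rw [h2]
        congr 1
        rw [r1 e h2] at he
        exact decide_eq_decide.2 (scα he d)
      · have h2' : t e = false := by simpa using h2
        rw [h2']; rfl
  have h3 := h1 _ key
  beta_reduce at h3
  rw [htd, decide_eq_true (S.sc.iseqv.refl d)] at h3
  have h4 : (t e && decide (S.sc.r d e)) = true := h3.symm
  rw [Bool.and_eq_true] at h4
  exact of_decide_eq_true h4.2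

/-- the relaxed class is closed under deletion -/
theorem Rlc.dl (h : Rlc Δ S L w) {X : Finset V} (hX : ∃ d, (S.del X).real d = true) :
    Rlc Δ (FC7.dl S w X) (dL S L X) (dw S w X) where
  toWf := h.toWf.dl hX
  hol Y hY d hd := by
    rw [dl_dl]
    have hr : ∀ d, ((FC7.dl S w X).del Y).real d = (S.del (X ∪ Y)).real d := fun d => by
      have := congrArg (fun T : St D V => T.real d) (dl_dl (S := S) (w := w) X Y)
      exact this
    have hs : ∀ d e, ((FC7.dl S w X).del Y).sc.r d e ↔ (S.del (X ∪ Y)).sc.r d e := by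
      intro d e
      have hc : ∀ t : D → Bool, ((FC7.dl S w X).del Y).Cl t ↔ (S.del (X ∪ Y)).Cl t := by
        intro t
        unfold St.Cl
        refine and_congr Iff.rfl (forall_congr' fun e => ?_)
        rw [hr]; exact Iff.rfl
      exact forall_congr' fun t => by rw [hc]
    obtain ⟨d1, h1⟩ := hY
    obtain ⟨e, e1, e2, e3⟩ := hd
    refine h.hol (X ∪ Y) ⟨d1, by rw [← hr]; exact h1⟩ d ⟨e, (hs d e).1 e1, ?_, ?_⟩
    · exact Finset.mem_union_right _ e2
    · exact (Finset.mem_sdiff.1 e3).1

/-- a solution depends on the units only by the requirements -/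
theorem Sol.uU {u1 u2 : D → ℕ} {c : V → Bool} (h : Sol (FC7.uU S u1) L c)
    (hu : ∀ d, u2 d ≠ 0 → Vi S c d) : Sol (FC7.uU S u2) L c :=
  ⟨h.con, h.live, hu, h.lab⟩

theorem n4_dl (X : Finset V) : n4 (dl S w X) ≤ n4 S := by
  classical
  refine Finset.card_le_card fun y hy => ?_
  rw [Finset.mem_filter] at hy
  exact Finset.mem_filter.2 ⟨(Finset.mem_sdiff.1 hy.1).1, le_trans hy.2 (dl_rdeg_le X y)⟩

theorem fu_exu {d : D} (h : 3 ≤ fu S d) : ∃ e, S.sc.r d e ∧ S.u e ≠ 0 := by
  classical
  by_contra hn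
  push Not at hn
  have : fu S d = 0 := by
    unfold fu
    refine Finset.sum_eq_zero fun e _ => ?_
    split_ifs with h1
    · exact hn e h1
    · rfl
  omega

theorem fu_cg {d e : D} (h : S.sc.r d e) : fu S d = fu S e := by
  classical
  unfold fu
  refine Finset.sum_congr rfl fun x _ => ?_
  by_cases h1 : S.sc.r d x
  · rw [if_pos h1, if_pos (S.sc.iseqv.trans (S.sc.iseqv.symm h) h1)]
  · rw [if_neg h1, if_neg (fun h2 => h1 (S.sc.iseqv.trans h h2))]

theorem Str.cg {d e : D} (h : S.sc.r d e) (hd : Str S d) : Str S e := by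
  rcases hd with h1 | ⟨a, a', h2, h3, h4, h5, h6, h7⟩
  · exact Or.inl (by rw [← fu_cg h]; exact h1)
  · exact Or.inr ⟨a, a', S.sc.iseqv.trans (S.sc.iseqv.symm h) h2,
      S.sc.iseqv.trans (S.sc.iseqv.symm h) h3, h4, h5, h6, fun r hr hs => h7 r hr
        (S.sc.iseqv.trans h hs)⟩

theorem st_u {d : D} (h : Str S d) : (st S).u d = S.u d := if_pos h

theorem st_u' {d : D} (h : (st S).u d ≠ 0) : Str S d := by
  by_contra hn
  exact h (if_neg hn)

theorem Wf.st (h : Wf Δ S L w) : Wf Δ (FC7.st S) L w where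
  real_α := h.real_α
  real_A := h.real_A
  real_ne := h.real_ne
  A_im := h.A_im
  u_A d hd := h.u_A d (by
    have h1 := st_u' hd
    rw [st_u h1] at hd; exact hd)
  L_real := h.L_real
  L_α := h.L_α
  w_L := h.w_L
  w_α := h.w_α
  deg x hx := by
    refine le_trans (Finset.sum_le_sum fun d _ => ?_) (h.deg x hx)
    show (if S.M.v d = x then (if S.real d = true then 1 else 0) + (FC7.st S).u d + w d else 0) ≤ _
    have : (FC7.st S).u d ≤ S.u d := by
      by_cases h1 : Str S d
      · rw [st_u h1]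
      · have : (FC7.st S).u d = 0 := if_neg h1
        omega
    split_ifs <;> omega
  simple := h.simple
  ex := h.ex

/-- the strong faces of `st S` -/
theorem st_str {d : D} (h : Str S d) : 3 ≤ fu (st S) d ∨ Two (st S) d := by
  classical
  have hu : ∀ e, S.sc.r d e → (st S).u e = S.u e := fun e he => st_u (h.cg he)
  rcases h with h1 | ⟨a, a', h2, h3, h4, h5, h6, h7⟩
  · left
    refine le_trans h1 (le_of_eq ?_)
    unfold fu
    refine Finset.sum_congr rfl fun e _ => ?_
    by_cases h2 : S.sc.r d e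
    · rw [if_pos h2, if_pos (show (st S).sc.r d e from h2), hu e h2]
    · rw [if_neg h2, if_neg (show ¬ (st S).sc.r d e from h2)]
  · exact Or.inr ⟨a, a', h2, h3, by rw [hu a h2]; exact h4, by rw [hu a' h3]; exact h5, h6, h7⟩

/-- if all real cuts have at least four edges, then only the strong faces matter -/
theorem Wf.st_ok (h : Wf Δ S L w) (h4 : ∀ s : V → Bool, (∃ x ∈ S.A, s x = true) →
    (∃ x ∈ S.A, s x = false) → 4 ≤ S.rc s) : Ok Δ (FC7.st S) L w where
  toWf := h.st
  ec s t _ h1 h2 := by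
    have h3 := h4 s h1 h2
    have h5 := rc_two h.real_α s
    have h6 : ∑ d, (if S.real d = true ∧ s (S.M.v d) ≠ s (S.M.v (S.M.α d)) then 1 else 0) ≤
        ∑ d, cfw (FC7.st S) w s t d := Finset.sum_le_sum fun d _ => by
      unfold cfw St.cf
      show _ ≤ (if S.real d = true ∧ s (S.M.v d) ≠ s (S.M.v (S.M.α d)) then 1 else 0) + _ + _
      omega
    omega
  thr d hd := st_str (st_u' hd)

/-- the solutions of a side -/
theorem Rlc.side (h : Rlc Δ S L w) {X : Finset V} (hX : ∃ d, (S.del X).real d = true)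
    {c : V → Bool} (hs : Sol (FC7.st (FC7.dl S w X)) (dL S L X) c) :
    Sol (FC7.dl (FC7.st S) w X) (dL (FC7.st S) L X) c := by
  classical
  refine Sol.uU (S := FC7.dl S w X) hs fun d hd => ?_
  have hd1 : (if S.M.v d ∈ X then 0 else (FC7.st S).u d +
    (if S.real d = true ∧ S.M.v (S.M.α d) ∈ X then 1 + w d else 0)) ≠ 0 := hd
  have hu : (FC7.dl S w X).u d ≠ 0 := by
    show (if S.M.v d ∈ X then 0 else
      S.u d + (if S.real d = true ∧ S.M.v (S.M.α d) ∈ X then 1 + w d else 0)) ≠ 0
    by_cases h1 : S.M.v d ∈ X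
    · rw [if_pos h1] at hd1; exact absurd rfl hd1
    · rw [if_neg h1] at hd1 ⊢
      by_cases h2 : Str S d
      · rw [st_u h2] at hd1; exact hd1
      · have : (FC7.st S).u d = 0 := if_neg h2
        omega
  have hS : Str (FC7.dl S w X) d := by
    by_cases hc : ∃ e, (S.del X).sc.r d e ∧ S.M.v e ∈ X ∧ S.M.v e ∈ S.A
    · exact Or.inl (h.hol X hX d hc)
    · obtain ⟨u1, sc1⟩ := h.toWf.dl_un hc
      obtain ⟨u2, _⟩ := h.toWf.st.dl_un (X := X) (d := d) hc
      have k1 : (FC7.st S).u d ≠ 0 := by
        rw [← u2 d ((S.del X).sc.iseqv.refl d)]; exact hd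
      rcases st_u' k1 with h1 | ⟨e, e', h2, h3, h4, h5, h6, h7⟩
      · left
        refine le_trans h1 (le_of_eq ?_)
        unfold fu
        refine Finset.sum_congr rfl fun e _ => ?_
        by_cases h2 : S.sc.r d e
        · have h3 := (sc1 e).1 h2
          rw [if_pos h2, if_pos (show (FC7.dl S w X).sc.r d e from h3), u1 e h3]
        · rw [if_neg h2, if_neg (show ¬ (FC7.dl S w X).sc.r d e from
            fun h3 => h2 ((sc1 e).2 h3))]
      · right
        refine ⟨e, e', (sc1 e).1 h2, (sc1 e').1 h3, ?_, ?_, h6, fun r hr hs => ?_⟩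
        · rw [u1 e ((sc1 e).1 h2)]; exact h4
        · rw [u1 e' ((sc1 e').1 h3)]; exact h5
        · have hr' : (S.del X).real r = true := hr
          rw [del_real] at hr'
          exact h7 r hr'.1 ((sc1 r).2 hs)
  have k2 : (FC7.st (FC7.dl S w X)).u d ≠ 0 := by rw [st_u hS]; exact hu
  exact hs.req d k2

/-- all darts on the other side of a cut with connected sides are in the hole -/
theorem side_hole (rA : ∀ d, S.real d = true → S.M.v d ∈ S.A)
    (rα : ∀ d, S.real (S.M.α d) = S.real d) {s : V → Bool} {b : Bool}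
    (hT : ConS S.M s true) (hF : ConS S.M s false)
    {d0 : D} (hd0 : s (S.M.v d0) ≠ s (S.M.v (S.M.α d0))) {dx : D} (hx : s (S.M.v dx) ≠ b) :
    (S.del (S.A.filter fun x => s x ≠ b)).sc.r d0 dx := by
  classical
  intro t ht
  -- the darts at the vertices of the other side are not real
  have hr1 : ∀ e, s (S.M.v e) ≠ b → (S.del (S.A.filter fun x => s x ≠ b)).real e = false := by
    intro e he
    by_cases hr : S.real e = true
    · exact del_real_f.2 (Or.inr (Or.inl (Finset.mem_filter.2 ⟨rA e hr, he⟩)))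
    · exact del_real_f.2 (Or.inl (by simpa using hr))
  have key : ∀ e d, s (S.M.v d) ≠ b → S.M.v e = S.M.v d → t e = t d := by
    intro e d hd he
    have := S.M.rot' (fun e => if s (S.M.v e) ≠ b then t e else false) (fun e => by
      show (if s (S.M.v (S.M.α (S.M.φ (S.M.φ e)))) ≠ b then t (S.M.α (S.M.φ (S.M.φ e))) else false) =
        if s (S.M.v e) ≠ b then t e else false
      rw [S.M.vφ2]
      by_cases h1 : s (S.M.v e) ≠ b
      · rw [if_pos h1, if_pos h1]
        have h2 : t (S.M.α (S.M.φ (S.M.φ e))) = t (S.M.φ (S.M.φ e)) := by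
          have h3 : t (S.M.α (S.M.α (S.M.φ (S.M.φ e)))) = t (S.M.α (S.M.φ (S.M.φ e))) :=
            ht.2 _ (hr1 _ (by rw [S.M.vφ2]; exact h1))
          rw [S.M.αα] at h3
          exact h3.symm
        rw [h2]
        exact (ht.1 (S.M.φ e)).trans (ht.1 e)
      · rw [if_neg h1, if_neg h1]) he
    simp only [he, hd, ne_eq, not_false_eq_true, if_true] at this
    exact this
  let f : V → ℝ := fun y => if ∃ d, S.M.v d = y ∧ t d = true then 1 else 0
  have hf : ∀ d, s (S.M.v d) ≠ b → f (S.M.v d) = if t d = true then 1 else 0 := by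
    intro d hd
    by_cases h1 : t d = true
    · rw [if_pos h1]
      exact if_pos ⟨d, rfl, h1⟩
    · rw [if_neg h1]
      refine if_neg ?_
      rintro ⟨e, he, h2⟩
      rw [key e d hd he] at h2
      exact h1 h2
  have hcon : ConS S.M s (!b) := by cases b <;> assumption
  have hb : ∀ x : Bool, x = (!b) ↔ x ≠ b := by intro x; cases x <;> cases b <;> simp
  have hall : ∀ d d', s (S.M.v d) ≠ b → s (S.M.v d') ≠ b → t d = t d' := by
    intro d d' hd hd'
    have h1 := hcon f (fun e h1 h2 => by
      rw [hb] at h1 h2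
      have h3 : t (S.M.α e) = t e := ht.2 e (hr1 e h1)
      rw [hf _ h1, hf _ h2, h3]) d d' ((hb _).2 hd) ((hb _).2 hd')
    rw [hf _ hd, hf _ hd'] at h1
    by_cases h2 : t d = true
    · by_cases h3 : t d' = true
      · rw [h2, h3]
      · rw [if_pos h2, if_neg h3] at h1
        exact absurd h1 one_ne_zero
    · by_cases h3 : t d' = true
      · rw [if_neg h2, if_pos h3] at h1
        exact absurd h1.symm one_ne_zero
      · have h2' : t d = false := by simpa using h2
        have h3' : t d' = false := by simpa using h3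
        rw [h2', h3']
  by_cases h1 : s (S.M.v d0) ≠ b
  · exact hall _ _ h1 hx
  · have h2 : s (S.M.v (S.M.α d0)) ≠ b := by
      intro h2
      have h3 : s (S.M.v d0) = b := by simpa using h1
      exact hd0 (h3.trans h2.symm)
    have h3 : t (S.M.α (S.M.α d0)) = t (S.M.α d0) := ht.2 _ (hr1 _ h2)
    rw [S.M.αα] at h3
    rw [h3]
    exact hall _ _ h2 hx

end Pool.FC7
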