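import Pool.Agent.FC7.Qa
import Pool.Agent.FC7.Rlh

/-! # Relaxed condition for the cuts: the replaced state is in the relaxed class -/

open Finset

set_option linter.unusedSectionVars false

namespace Pool.FC7

open Pool.FC6 Pool.FC6.St

namespace OD

variable (X : OD) (P P' : Pa)

/-- the pieces with a label of colour `b` are on the side `b` -/
theorem inQ_le {c : ℕ} {b : Bool} {τ : ℕ → Bool}
    (h : ∀ i < P.n, X.lo ≤ P'.l i → P'.l i < X.m → c.testBit (P'.l i) = b → τ (X.pc i) = b) :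
    X.inQ P P' c b ≤ X.inS' P P' c τ := by
  unfold inQ oneS inS'
  rw [sumN_eq, sumN_eq, Finset.sum_add_distrib, ← Finset.mul_sum]
  refine Nat.add_le_add_left (Nat.mul_le_mul_left _ (Finset.sum_le_sum fun i hi => ?_)) _
  by_cases h1 : (X.hsc P P' c b (X.pc i) && (c.testBit (P'.l i) != b)) = true
  · rw [if_pos h1]
    rw [Bool.and_eq_true] at h1
    obtain ⟨h2, h3⟩ := h1
    have h4 : τ (X.pc i) = b := by
      by_contra h5
      have h6 : FC6.allN P.n (fun j => !(decide (X.pc j = X.pc i) && decide (X.lo ≤ P'.l j) &&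
          decide (P'.l j < X.m) && (c.testBit (P'.l j) == b))) = true := by
        rw [FC6.allN_iff]
        intro j hj
        rw [Bool.not_eq_true']
        by_contra h7
        rw [Bool.not_eq_false, Bool.and_eq_true, Bool.and_eq_true, Bool.and_eq_true,
          decide_eq_true_eq, decide_eq_true_eq, decide_eq_true_eq, beq_iff_eq] at h7
        obtain ⟨⟨⟨e1, e2⟩, e3⟩, e4⟩ := h7
        exact h5 (by rw [← e1]; exact h j hj e2 e3 e4)
      unfold hsc at h2
      rw [h6] at h2
      exact absurd h2 (by simp)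
    rw [if_pos (by rw [h4]; exact h3)]
  · rw [if_neg h1]; exact Nat.zero_le _

end OD

variable {D V : Type} [Fintype D] [DecidableEq V]

namespace RH

variable {Δ : ℕ} {S S' : St D V} {L L' : D → Bool} {w w' : D → ℕ} {P P' : Pa} {f : ℕ → D}
  {g : ℕ → V} {X : OD}

open Classical in
/-- THE REPLACED STATE BELONGS TO THE RELAXED CLASS -/
theorem rl (h : RH Δ S S' L L' w w' P P' f g X) {Bf rb : ℕ → ℕ} (hcuts : X.CutsQ P P' Bf rb)
    (hxm : X.x < X.m)
    (hB : ∀ (s : V → Bool) (c : ℕ), (∀ a < X.m, c.testBit a = s (g a)) →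
      (∃ y ∈ S.A, s y = true) → (∃ y ∈ S.A, s y = false) → Bf c ≤ S.rc s)
    (hrb : ∀ (s : V → Bool) (t : D → Bool) (c : ℕ),
      (∀ a, X.x ≤ a → a < X.m → c.testBit a = s (g a)) →
      rb c ≤ ∑ d, if ∃ i < P.n, f i = d then 0 else cfw S' w' s t d) :
    Rlc Δ S' L' w' := by
  refine h.wf.rl fun s t ht hst h1 h2 =>
    h.ec_ones hxm hB hrb (fun r hr hr0 q hq b τ hτ => ?_) s t ht hst h1 h2
  have h3 := X.inQ_le P P' hτ
  rcases hcuts r hr hr0 q hq b with h4 | ⟨⟨ξ, h4, h5⟩, h6⟩
  · left; omega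
  · right
    exact ⟨⟨ξ, h4, by omega⟩, h6⟩

end RH

end Pool.FC7
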