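import Pool.Agent.FC7.Qm
import Pool.Agent.FC7.Qr

/-! # Packed records with the relaxed condition for the cuts: the complete check -/

set_option linter.unusedSectionVars false

namespace Pool.FC7

open Pool.FC6 Pool.FC6.St Pool.FC7.Vs

/-- the replaced state belongs to the relaxed class -/
theorem rlOf : RlOf := by
  intro D V _ _ Δ S S' L L' w w' P P' f g X Bf rb ok h hc hx hB hrb
  exact h.rl hc hx hB hrb

/-- A GROUP OF FACTS WITH THE RELAXED CONDITION FOR THE CUTS -/
theorem K.recQ {R : VR} {b q s x m lo NB A w v XI nr nt nc N : ℕ}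
    (h : K.okVQ R b q s x m lo NB A w v XI nr nt nc N = true) {l : List FCS.Fct}
    (hl : K.lall l (K.keyG (VR.W R)) = true) : ∀ X ∈ l, NoL X.1 X.2 := K.recVQ rlOf h hl

end Pool.FC7
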