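import Pool.Agent.FC7.Pl
import Pool.Agent.FC7.EvS
import Pool.Agent.FC7.VcF

/-! # The complete check of a packed record -/

set_option linter.unusedSectionVars false

namespace Pool.FC7

open Pool.FC6

namespace K

/-- the check of a packed record -/
noncomputable def okG (R : PK) (q s x m lo NB A w v XI nr nt nc N : ℕ) : Bool :=
  K.band (K.g1 (PK.G R)) (K.band (K.g2 (PK.G R)) (K.band (K.g3 (PK.G R)) (K.band (K.g4 (PK.G R))
    (K.band (K.g5 (PK.G R)) (K.band (K.g6 (PK.G R)) (K.band (K.g7 (PK.G R)) (K.band (K.g8 (PK.G R))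
    (K.band (K.f1 (PK.F R)) (K.band (K.f2 (PK.F R)) (K.band (K.f3 (PK.F R)) (K.band (K.f4 (PK.F R))
    (K.band (K.f5 (PK.F R)) (K.ev (PK.F R) q s x m lo NB A w v XI nr nt nc N)))))))))))))

/-- the check of a packed record without replacement -/
noncomputable def okS (R : PK) (q s x m lo NB A w v XI nr nt nc N : ℕ) : Bool :=
  K.band (K.WS_chkG (PK.S R)) (K.evS (PK.Fs R) q s x m lo NB A w v XI nr nt nc N)

theorem recG {R : PK} {q s x m lo NB A w v XI nr nt nc N : ℕ}
    (h : okG R q s x m lo NB A w v XI nr nt nc N = true) {l : List FCS.Fct}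
    (hl : K.lall l (K.keyG (PK.G R)) = true) : ∀ X ∈ l, NoL X.1 X.2 := by
  unfold okG at h
  simp only [band_eq, Bool.and_eq_true] at h
  obtain ⟨h1, h2, h3, h4, h5, h6, h7, h8, k1, k2, k3, k4, k5, hE⟩ := h
  exact K.grpGs h1 h2 h3 h4 h5 h6 h7 h8 k1 k2 k3 k4 k5 (K.ev_one hE) hl

theorem recS {R : PK} {q s x m lo NB A w v XI nr nt nc N : ℕ}
    (h : okS R q s x m lo NB A w v XI nr nt nc N = true) {l : List FCS.Fct}
    (hl : K.lall l (K.keyS (PK.S R)) = true) : ∀ X ∈ l, NoL X.1 X.2 := by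
  unfold okS at h
  rw [band_eq, Bool.and_eq_true] at h
  exact K.grpS h.1 (K.evS_one h.2) hl

end K

end Pool.FC7
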