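import Pool.Agent.FC7.Qn
import Pool.Agent.FC7.Vr0

/-! # Packed records with the relaxed condition for the cuts (records of bytes) -/

open Finset

set_option linter.unusedSectionVars false

namespace Pool.FC7

open Pool.FC6

namespace K

/-- the static check of the new patch without the cuts; `us` are the strong units -/
noncomputable def fW (F : Fc) (us : ℕ → ℕ) : Bool :=
  K.band (K.f1 F) (K.band (K.OD_stat (FC7.Fc.O F) (FC7.Fc.P F) (FC7.Fc.P' F))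
    (K.band (K.djs (K.Fc_XX F) (FC7.Fc.O F) (FC7.Fc.P F) (FC7.Fc.P' (FC7.Fc.su F us))
        (K.lrange (FC7.OD.x (FC7.Fc.O F))) (FC7.Fc.ou F) (FC7.Fc.lu F))
      (K.band (Nat.beq (FC7.XE.x (FC7.Fc.X F)) (FC7.OD.x (FC7.Fc.O F)))
        (K.band (Nat.beq (Nat.add (FC7.XE.x (FC7.Fc.X F)) (FC7.XE.k (FC7.Fc.X F)))
            (FC7.OD.m (FC7.Fc.O F)))
          (K.band (Nat.beq (FC7.OD.Δ (FC7.Fc.O F)) (nat_lit 6))
            (K.band (Nat.beq (FC7.XE.lo (FC7.Fc.X F)) (FC7.OD.lo (FC7.Fc.O F)))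
              (K.band (Nat.ble (Nat.succ (FC7.OD.x (FC7.Fc.O F))) (FC7.OD.m (FC7.Fc.O F)))
                (K.band (Nat.beq (FC7.Fc.sm F) (nat_lit 0)) (K.band (K.lemp (FC7.Fc.cq F))
    (K.band (K.f3 F) (K.band (K.Fc_chkL F) (K.band (K.Fc_chkQ (FC7.Fc.su F us))
      (K.band (K.Fc_chkK F) (K.band (K.Fc_chkR F)
      (K.band (K.allN (FC6.Pa.n (FC7.Fc.P F)) (fun (i : ℕ) => (Nat.beq (FC7.OD.wt' (FC7.Fc.O F) i)
        (Bool.rec (motive := fun _ => ℕ) (nat_lit 0) (nat_lit 1) (FC7.OD.lb' (FC7.Fc.O F) i)))))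
      (K.band (K.allN (FC6.Pa.n (FC7.Fc.P F)) (fun (i : ℕ) => (K.bor
          (K.bnot (Nat.beq (FC7.Fc.ty F (FC7.OD.pc (FC7.Fc.O F) i)) (nat_lit 1)))
          (K.bnot (FC7.Fc.ou F i)))))
      (K.band (K.allN (FC6.Pa.n (FC7.Fc.P F)) (fun (i : ℕ) => (Nat.ble (us i)
          (FC6.Pa.u (FC7.Fc.P' F) i))))
      (Nat.ble (Nat.succ (K.OD_nbp (FC7.Fc.O F) (FC7.Fc.P F) (FC7.Fc.P' F)))
          (FC7.OD.x (FC7.Fc.O F))))))))))))))))))))

/-- the static check of a fact without the cuts; `us` are the strong units -/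
noncomputable def gW (W : WG) (us : ℕ → ℕ) : Bool :=
  K.band (K.g1 W) (K.band (K.g2 W) (K.band (K.g3 W) (K.band (K.WF_chkL (FC7.WG.toWF W) (nat_lit 6))
    (K.band (K.WF_chkP (FC7.WG.toWF W)) (K.band (K.WF_chkV (FC7.WF.su (FC7.WG.toWF W) us))
      (K.band (K.g5 W) (K.band (K.g6 W) (K.band (K.g7 W) (K.band (K.g8 W)
        (fW (FC7.WF.F (FC7.WG.toWF W)) us))))))))))

theorem fW_ok {F : Fc} {us : ℕ → ℕ} (h : fW F us = true) (hE : F.One) : FW F us := by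
  unfold fW at h
  rw [K.band_eq] at h
  simp only [Bool.and_eq_true] at h
  obtain ⟨k1, st, dj, c1, c2, c3, c4, c5, sm, cq, k3, hL, hQ, hK, hR, w, o, u, nb⟩ := h
  rw [K.nbeq_eq, decide_eq_true_eq] at c1 c2 c3 c4 sm
  rw [K.nble_eq, decide_eq_true_eq] at c5 nb
  rw [K.lemp_eq] at cq
  rw [K.allN_eq, FC6.allN_iff] at w o u
  refine ⟨k1, st, dj, c1, c2, c3, c4, c5, sm, List.isEmpty_iff.1 cq, k3, hL, hQ, hK, hR,
    fun i hi => ?_, fun i hi ht => ?_, fun i hi => ?_, nb, hE⟩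
  · have h1 := w i hi
    rw [K.nbeq_eq, decide_eq_true_eq] at h1
    rw [h1]
    cases F.O.lb' i <;> rfl
  · have h1 := o i hi
    rw [ht] at h1
    cases h4 : F.ou i
    · rfl
    · rw [h4] at h1
      exact absurd h1 (by decide)
  · have h1 := u i hi
    rw [K.nble_eq, decide_eq_true_eq] at h1
    exact h1

theorem gW_ok {W : WG} {us : ℕ → ℕ} (h : gW W us = true) (hE : W.F.One) :
    W.QW us ∧ FW W.F us := by
  unfold gW at h
  rw [K.band_eq] at h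
  simp only [Bool.and_eq_true] at h
  obtain ⟨g1, g2, g3, g4, g4', gV, g5, g6, g7, g8, hF⟩ := h
  exact ⟨K.QW_of g1 g2 g3 g4 g4' gV g5 g6 g7 g8 (fW_ok hF hE), fW_ok hF hE⟩

/-- the check of a packed record, relaxed condition for the cuts; `b`: the bytes are the strong
units -/
noncomputable def okGQ (R : PK) (b q s x m lo NB A w v XI nr nt nc N : ℕ) : Bool :=
  K.band (K.gW (PK.G R) (K.tb b)) (K.band (Vc.vchkq (FC7.Fc.C (PK.F R)) (FC7.Fc.O (PK.F R))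
      (FC7.Fc.P (PK.F R)) (FC7.Fc.P' (PK.F R)) (FC7.Fc.gt (PK.F R)) (FC7.Fc.D5 (PK.F R))
      (FC7.Fc.p5 (PK.F R)))
    (K.ev (PK.F R) q s x m lo NB A w v XI nr nt nc N))

/-- A GROUP OF FACTS WITH THE RELAXED CONDITION FOR THE CUTS -/
theorem recGQ {R : PK} {b q s x m lo NB A w v XI nr nt nc N : ℕ}
    (h : okGQ R b q s x m lo NB A w v XI nr nt nc N = true) {l : List FCS.Fct}
    (hl : K.lall l (K.keyG (PK.G R)) = true) : ∀ X ∈ l, NoL X.1 X.2 := by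
  unfold okGQ at h
  simp only [band_eq, Bool.and_eq_true] at h
  obtain ⟨h0, h1, hE⟩ := h
  obtain ⟨h2, h3⟩ := gW_ok h0 (K.ev_one hE)
  obtain ⟨c1, c2, c3⟩ := h3.cp
  exact K.grpQ rlOf ⟨h2, Fc.cutsQ_of c1 c2 c3 h3.sm h3.cq h1⟩ hl

end K

end Pool.FC7
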