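import Pool.Agent.FC7.RokJ

/-! # Bounds for the cuts: the outer part, tight traces

`outs` is the doubled number of the crossed real edges outside of the patch; it depends only on the
colours of the vertices which are not interior, is symmetric and submodular.  A table `T` gives lower
bounds for `outs` by the ring trace. -/

open Finset

set_option linter.unusedSectionVars false

namespace Pool.FC7

open Pool.FC6 Pool.FC6.St

variable {D V : Type} [Fintype D] [DecidableEq V]

open Classical in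
/-- the real darts outside of the patch with different colours at the ends -/
noncomputable def outs (n : ℕ) (S : St D V) (f : ℕ → D) (s : V → Bool) : ℕ :=
  ∑ d, if ∃ i < n, f i = d then 0 else
    if S.real d = true ∧ s (S.M.v d) ≠ s (S.M.v (S.M.α d)) then 1 else 0

theorem outs_neg (n : ℕ) (S : St D V) (f : ℕ → D) (s : V → Bool) :
    outs n S f (fun y => !s y) = outs n S f s := by
  have k : ∀ a b : Bool, ((!a) ≠ (!b)) ↔ (a ≠ b) := by decide
  unfold outs
  simp only [k]

theorem outs_sub (n : ℕ) (S : St D V) (f : ℕ → D) (s t : V → Bool) :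
    outs n S f (fun y => s y && t y) + outs n S f (fun y => s y || t y) ≤
      outs n S f s + outs n S f t := by
  classical
  unfold outs
  rw [← Finset.sum_add_distrib, ← Finset.sum_add_distrib]
  refine Finset.sum_le_sum fun d _ => ?_
  by_cases hd : ∃ i < n, f i = d
  · rw [if_pos hd, if_pos hd, if_pos hd, if_pos hd]
  · rw [if_neg hd, if_neg hd, if_neg hd, if_neg hd]
    by_cases hr : S.real d = true
    · have key : ∀ a b a' b' : Bool, (if (true = true ∧ (a && a') ≠ (b && b')) then 1 else 0) +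
          (if (true = true ∧ (a || a') ≠ (b || b')) then 1 else 0) ≤
          (if (true = true ∧ a ≠ b) then 1 else 0) + (if (true = true ∧ a' ≠ b') then 1 else 0) := by
        decide
      rw [hr]
      exact key _ _ _ _
    · have hn : ∀ p : Prop, ¬ (S.real d = true ∧ p) := fun p hp => hr hp.1
      rw [if_neg (hn _), if_neg (hn _), if_neg (hn _), if_neg (hn _)]

theorem outs_const (n : ℕ) (S : St D V) (f : ℕ → D) (b : Bool) : outs n S f (fun _ => b) = 0 := by
  classical
  unfold outs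
  refine Finset.sum_eq_zero fun d _ => ?_
  by_cases hd : ∃ i < n, f i = d
  · rw [if_pos hd]
  · rw [if_neg hd, if_neg (fun h => h.2 rfl)]

/-- the ring trace -/
def trc (x m : ℕ) (g : ℕ → V) (s : V → Bool) : ℕ := msk (m - x) (fun b => s (g (x + b)))

theorem trc_lt (x m : ℕ) (g : ℕ → V) (s : V → Bool) : trc x m g s < 2 ^ (m - x) := msk_lt _ _

theorem testBit_trc {x m : ℕ} (g : ℕ → V) (s : V → Bool) {b : ℕ} (hb : b < m - x) :
    (trc x m g s).testBit b = s (g (x + b)) := testBit_msk _ _ hb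

theorem trc_ge {x m : ℕ} (g : ℕ → V) (s : V → Bool) {b : ℕ} (hb : ¬ b < m - x) :
    (trc x m g s).testBit b = false :=
  Nat.testBit_lt_two_pow (lt_of_lt_of_le (trc_lt x m g s) (Nat.pow_le_pow_right (by omega)
    (by omega)))

theorem trc_and (x m : ℕ) (g : ℕ → V) (s t : V → Bool) :
    trc x m g (fun y => s y && t y) = trc x m g s &&& trc x m g t := by
  apply Nat.eq_of_testBit_eq
  intro b
  rw [Nat.testBit_and]
  by_cases hb : b < m - x
  · rw [testBit_trc g _ hb, testBit_trc g _ hb, testBit_trc g _ hb]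
  · rw [trc_ge g _ hb, trc_ge g _ hb]; rfl

theorem trc_or (x m : ℕ) (g : ℕ → V) (s t : V → Bool) :
    trc x m g (fun y => s y || t y) = trc x m g s ||| trc x m g t := by
  apply Nat.eq_of_testBit_eq
  intro b
  rw [Nat.testBit_or]
  by_cases hb : b < m - x
  · rw [testBit_trc g _ hb, testBit_trc g _ hb, testBit_trc g _ hb]
  · rw [trc_ge g _ hb, trc_ge g _ hb, trc_ge g _ hb]; rfl

theorem trc_neg (x m : ℕ) (g : ℕ → V) (s : V → Bool) :
    trc x m g (fun y => !s y) = (2 ^ (m - x) - 1) ^^^ trc x m g s := by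
  apply Nat.eq_of_testBit_eq
  intro b
  rw [Nat.testBit_xor, Nat.testBit_two_pow_sub_one]
  by_cases hb : b < m - x
  · rw [testBit_trc g _ hb, testBit_trc g _ hb, decide_eq_true hb, Bool.true_xor]
  · rw [trc_ge g _ hb, trc_ge g _ hb, decide_eq_false hb]; rfl

/-- the patch in the state: the outer part of the cuts -/
structure Ptc (P : Pa) (x m : ℕ) (S : St D V) (f : ℕ → D) (g : ℕ → V) : Prop where
  rc : ∀ (s : V → Bool) (c : ℕ), (∀ a < m, c.testBit a = s (g a)) →
    2 * S.rc s = FC6.OD.inS P c + outs P.n S f s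
  oc : ∀ s s' : V → Bool, (∀ y, (∀ a < x, g a ≠ y) → s y = s' y) →
    outs P.n S f s = outs P.n S f s'
  gi : ∀ a < x, ∀ b < x, g a = g b → a = b
  gd : ∀ a < x, ∀ b, x ≤ b → b < m → g b ≠ g a
  gA : ∀ b, x ≤ b → b < m → g b ∈ S.A

/-- the table gives lower bounds -/
def Vt (n x m : ℕ) (S : St D V) (f : ℕ → D) (g : ℕ → V) (T : ℕ → ℕ) : Prop :=
  ∀ s : V → Bool, T (trc x m g s) ≤ outs n S f s

/-- the bound for the real cuts from a table -/
def bT (P : Pa) (x m : ℕ) (T : ℕ → ℕ) (c : ℕ) : ℕ :=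
  (FC6.OD.inS P c + T (c / 2 ^ x % 2 ^ (m - x)) + 1) / 2

/-- the bound for the real cuts of a fact with a table -/
def Fc.bgT (F : Fc) (T : ℕ → ℕ) (c : ℕ) : ℕ := max (F.bg c) (bT F.P F.O.x F.O.m T c)

theorem trc_of {x m : ℕ} {g : ℕ → V} {s : V → Bool} {c : ℕ}
    (hc : ∀ a, x ≤ a → a < m → c.testBit a = s (g a)) : c / 2 ^ x % 2 ^ (m - x) = trc x m g s := by
  apply Nat.eq_of_testBit_eq
  intro b
  rw [Nat.testBit_mod_two_pow, Nat.testBit_div_two_pow]
  by_cases hb : b < m - x
  · rw [testBit_trc g _ hb, decide_eq_true hb, Bool.true_and, Nat.add_comm, hc _ (by omega)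
      (by omega)]
  · rw [trc_ge g _ hb, decide_eq_false hb, Bool.false_and]

namespace Ptc

variable {P : Pa} {x m : ℕ} {S : St D V} {f : ℕ → D} {g : ℕ → V} {T T' : ℕ → ℕ}

/-- a table gives bounds for the real cuts -/
theorem hB (h : Ptc P x m S f g) (hT : Vt P.n x m S f g T) {Bf : ℕ → ℕ}
    (hB : ∀ (s : V → Bool) (c : ℕ), (∀ a < m, c.testBit a = s (g a)) →
      (∃ y ∈ S.A, s y = true) → (∃ y ∈ S.A, s y = false) → Bf c ≤ S.rc s)
    (s : V → Bool) (c : ℕ) (hc : ∀ a < m, c.testBit a = s (g a))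
    (h1 : ∃ y ∈ S.A, s y = true) (h0 : ∃ y ∈ S.A, s y = false) :
    max (Bf c) (bT P x m T c) ≤ S.rc s := by
  refine max_le (hB s c hc h1 h0) ?_
  have e1 := h.rc s c hc
  have e2 := hT s
  rw [← trc_of (c := c) (fun a _ ha => hc a ha)] at e2
  unfold bT
  omega

/-- a colouring with given colours at the interior labels -/
theorem core (h : Ptc P x m S f g) (s : V → Bool) {ξ : ℕ} (hξ : ξ < 2 ^ x) (hxm : x ≤ m) :
    ∃ s2 : V → Bool, (∀ a < m, (2 ^ x * trc x m g s + ξ).testBit a = s2 (g a)) ∧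
      (∀ y, (∀ a < x, g a ≠ y) → s2 y = s y) := by
  classical
  let s2 : V → Bool := fun y => if hy : ∃ a < x, g a = y then ξ.testBit hy.choose else s y
  have s2X : ∀ a < x, s2 (g a) = ξ.testBit a := by
    intro a ha
    have hex : ∃ b < x, g b = g a := ⟨a, ha, rfl⟩
    have : hex.choose = a := h.gi _ hex.choose_spec.1 _ ha hex.choose_spec.2
    show (if hy : ∃ b < x, g b = g a then ξ.testBit hy.choose else s (g a)) = _
    rw [dif_pos hex, this]
  have s2N : ∀ y, (∀ a < x, g a ≠ y) → s2 y = s y := by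
    intro y hy
    show (if hy : ∃ b < x, g b = y then ξ.testBit hy.choose else s y) = _
    rw [dif_neg]
    rintro ⟨a, ha, h3⟩
    exact hy a ha h3
  refine ⟨s2, fun a ha => ?_, s2N⟩
  rw [Nat.testBit_two_pow_mul_add _ hξ]
  by_cases h3 : a < x
  · rw [if_pos h3, s2X a h3]
  · rw [if_neg h3, s2N _ (fun b hb h4 => h.gd b hb a (by omega) ha h4.symm),
      testBit_trc g _ (by omega)]
    congr 2; omega

/-- the table from bounds for the real cuts -/
theorem base (h : Ptc P x m S f g) (hxm : x ≤ m) {Bf : ℕ → ℕ}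
    (hB : ∀ (s : V → Bool) (c : ℕ), (∀ a < m, c.testBit a = s (g a)) →
      (∃ y ∈ S.A, s y = true) → (∃ y ∈ S.A, s y = false) → Bf c ≤ S.rc s)
    (hT : ∀ r < 2 ^ (m - x), T r = 0 ∨ (r ≠ 0 ∧ r ≠ 2 ^ (m - x) - 1 ∧ ∃ ξ < 2 ^ x,
      T r + FC6.OD.inS P (2 ^ x * r + ξ) ≤ 2 * Bf (2 ^ x * r + ξ))) :
    Vt P.n x m S f g T := by
  intro s
  rcases hT _ (trc_lt x m g s) with h0 | ⟨r0, r1, ξ, hξ, h2⟩
  · omega
  obtain ⟨s2, k1, k2⟩ := h.core s hξ hxm
  have e1 := h.rc s2 _ k1
  have e2 := h.oc s2 s k2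
  have x1 : ∃ y ∈ S.A, s2 y = true := by
    by_contra hc
    push Not at hc
    apply r0
    apply Nat.eq_of_testBit_eq
    intro b
    rw [Nat.zero_testBit]
    by_cases hb : b < m - x
    · rw [testBit_trc g _ hb, ← k2 _ (fun a ha h4 => h.gd a ha (x + b) (by omega) (by omega)
        h4.symm)]
      have := hc _ (h.gA (x + b) (by omega) (by omega))
      simpa using this
    · exact trc_ge g _ hb
  have x0 : ∃ y ∈ S.A, s2 y = false := by
    by_contra hc
    push Not at hc
    apply r1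
    apply Nat.eq_of_testBit_eq
    intro b
    rw [Nat.testBit_two_pow_sub_one]
    by_cases hb : b < m - x
    · rw [testBit_trc g _ hb, ← k2 _ (fun a ha h4 => h.gd a ha (x + b) (by omega) (by omega)
        h4.symm), decide_eq_true hb]
      have := hc _ (h.gA (x + b) (by omega) (by omega))
      simpa using this
    · rw [trc_ge g _ hb, decide_eq_false hb]
  have e3 := hB s2 _ k1 x1 x0
  omega

/-- the values at the constant traces -/
theorem _root_.Pool.FC7.Vt.zero (hT : Vt P.n x m S f g T) : T 0 = 0 := by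
  have h1 := hT fun _ => false
  rw [outs_const] at h1
  have h2 : trc x m g (fun _ => false) = 0 := by
    apply Nat.eq_of_testBit_eq
    intro b
    rw [Nat.zero_testBit]
    by_cases hb : b < m - x
    · rw [testBit_trc g _ hb]
    · exact trc_ge g _ hb
  rw [h2] at h1
  omega

/-- the bounds for a tight trace -/
theorem _root_.Pool.FC7.Vt.sub (hT : Vt P.n x m S f g T) {p u : ℕ} {s0 : V → Bool}
    (hp : trc x m g s0 = p) (hu : outs P.n S f s0 ≤ u)
    (hT' : ∀ q < 2 ^ (m - x), T' q ≤ T q ∨ T' q + u ≤ T (p &&& q) + T (p ||| q) ∨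
      T' q + u ≤ T (p &&& ((2 ^ (m - x) - 1) ^^^ q)) + T (p ||| ((2 ^ (m - x) - 1) ^^^ q))) :
    Vt P.n x m S f g T' := by
  intro s
  rcases hT' _ (trc_lt x m g s) with h1 | h1 | h1
  · exact h1.trans (hT s)
  · have e1 := outs_sub P.n S f s0 s
    have e2 := hT fun y => s0 y && s y
    have e3 := hT fun y => s0 y || s y
    rw [trc_and, hp] at e2
    rw [trc_or, hp] at e3
    omega
  · have e1 := outs_sub P.n S f s0 (fun y => !s y)
    have e2 := hT fun y => s0 y && !s y
    have e3 := hT fun y => s0 y || !s y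
    rw [trc_and (t := fun y => !s y), hp, trc_neg] at e2
    rw [trc_or (t := fun y => !s y), hp, trc_neg] at e3
    rw [outs_neg] at e1
    omega

/-- the bounds if a trace is not tight -/
theorem upd (h : Ptc P x m S f g) (hxm : x ≤ m) (hT : Vt P.n x m S f g T) {p u : ℕ}
    (hp : ¬ ∃ s0 : V → Bool, trc x m g s0 = p ∧ outs P.n S f s0 ≤ u)
    (hpar : FC6.OD.inS P (2 ^ x * p) % 2 = u % 2)
    (hT' : ∀ q < 2 ^ (m - x), T' q ≤ T q ∨
      ((q = p ∨ q = (2 ^ (m - x) - 1) ^^^ p) ∧ T' q ≤ u + 2)) :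
    Vt P.n x m S f g T' := by
  have key : ∀ s : V → Bool, trc x m g s = p → u + 2 ≤ outs P.n S f s := by
    intro s hs
    have h1 : u < outs P.n S f s := by
      by_contra hc
      exact hp ⟨s, hs, by omega⟩
    obtain ⟨s2, k1, k2⟩ := h.core s (ξ := 0) (by positivity) hxm
    have e1 := h.rc s2 _ k1
    have e2 := h.oc s2 s k2
    rw [hs, Nat.add_zero] at e1
    omega
  intro s
  rcases hT' _ (trc_lt x m g s) with h1 | ⟨h1 | h1, h2⟩
  · exact h1.trans (hT s)
  · exact h2.trans (key s h1)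
  · have h3 : trc x m g (fun y => !s y) = p := by
      rw [trc_neg, h1]
      rw [← Nat.xor_assoc, Nat.xor_self, Nat.zero_xor]
    have h4 := key _ h3
    rw [outs_neg] at h4
    exact h2.trans h4

end Ptc

end Pool.FC7
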