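import Pool.Agent.FC7.Qd
import Pool.Agent.FC7.Tc

/-! # The relaxed condition for the cuts with a table for the outer part -/

open Finset

set_option linter.unusedSectionVars false

namespace Pool.FC7

open Pool.FC6 Pool.FC6.St

/-- the table of a list: the entry at `r` -/
noncomputable def tbl (TL : List (ℕ × ℕ)) (r : ℕ) : ℕ := Vc.lls (fun p => if p.1 = r then p.2 else 0) TL

namespace Vc

/-- the lane of a trace: the bits `k1, ..., 1` in reversed order -/
noncomputable def rv (k1 q : ℕ) : ℕ :=
  Nat.rec (motive := fun _ => ℕ) 0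
    (fun t ih => Nat.add (Nat.mul 2 ih) (Nat.mod (Nat.shiftRight q (Nat.succ t)) 2)) k1

/-- the vector of the table -/
noncomputable def tvec (TL : List (ℕ × ℕ)) (k1 : ℕ) : ℕ :=
  lls (fun p => Nat.shiftLeft p.2 (Nat.mul 16 (rv k1 p.1))) TL

/-- the keys are even, not 0 and small -/
noncomputable def tok (TL : List (ℕ × ℕ)) (k1 : ℕ) : Bool :=
  K.band (Nat.ble (lls (fun p => p.2) TL) 16000) (K.lall TL fun p =>
    K.band (Nat.beq (Nat.mod p.1 2) 0) (K.band (Nat.ble 1 p.1)
      (Nat.ble (Nat.succ p.1) (Nat.pow 2 (Nat.succ k1)))))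

section

variable (C : CD) (O : OD) (P P' : Pa) (G : List (ℕ × ℕ × ℕ)) (D5 : List (List ℕ))
  (p5 : List (List ℕ × List (List (ℕ × ℕ × Bool)))) (TL : List (ℕ × ℕ)) (k1 j : ℕ)

noncomputable def vmaint : Bool :=
  Nat.beq (Nat.lor (Nat.lor (geM (Nat.mul 32768 (on (Nat.add k1 j))) (vAq C O P P' k1 j)
      (Nat.mul 6 (on (Nat.add k1 j))))
    (geM (Nat.mul 32768 (on (Nat.add k1 j))) (vBq C O P P' k1 j) (nex O P G D5 p5 k1 j)))
    (geM (Nat.mul 32768 (on (Nat.add k1 j))) (Nat.add (vBq C O P P' k1 j) (rep k1 j (tvec TL k1)))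
      (Nat.mul 6 (on (Nat.add k1 j)))))
    (Nat.mul 32768 (on (Nat.add k1 j)))

end

/-- the check of the relaxed condition with a table -/
noncomputable def vchkt (C : CD) (O : OD) (P P' : Pa) (G : List (ℕ × ℕ × ℕ)) (D5 : List (List ℕ))
    (p5 : List (List ℕ × List (List (ℕ × ℕ × Bool)))) (TL : List (ℕ × ℕ)) : Bool :=
  K.band (vst C O P P') (K.band (Nat.ble O.lo O.x) (K.band (Nat.ble (Nat.succ O.x) O.m)
    (K.band (Nat.ble (tot C O P P') 16000) (K.band (Nat.ble P.n 10000)
      (K.band (Nat.ble (K.llen G) 1000) (K.band (K.lall D5 fun D => Nat.ble (K.llen D) 1000)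
        (K.band (K.lall C.ul fun u => K.lall u fun i => K.band (Nat.ble O.lo (P'.l i))
          (Nat.ble (Nat.succ (P'.l i)) O.m))
        (K.band (tok TL (Nat.pred (Nat.sub O.m O.x)))
          (vmaint C O P P' G D5 p5 TL (Nat.pred (Nat.sub O.m O.x)) (Nat.sub O.x O.lo))))))))))

variable {C : CD} {O : OD} {P P' : Pa} {G : List (ℕ × ℕ × ℕ)} {D5 : List (List ℕ)}
  {p5 : List (List ℕ × List (List (ℕ × ℕ × Bool)))} {TL : List (ℕ × ℕ)} {k1 j : ℕ}

theorem rv_succ (k q : ℕ) : rv (k + 1) q = 2 * rv k q + (q >>> (k + 1)) % 2 := rfl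

theorem rv_bit : ∀ (k q t : ℕ), (rv k q).testBit t = (decide (t < k) && q.testBit (k - t))
  | 0, q, t => by
    have : rv 0 q = 0 := rfl
    rw [this, Nat.zero_testBit]
    simp
  | k + 1, q, t => by
    have hb : (q >>> (k + 1)) % 2 = if q.testBit (k + 1) = true then 1 else 0 := by
      rw [Nat.testBit_eq_decide_div_mod_eq, Nat.shiftRight_eq_div_pow]
      have := Nat.mod_lt (q / 2 ^ (k + 1)) (show 0 < 2 by norm_num)
      by_cases h : q / 2 ^ (k + 1) % 2 = 1
      · rw [decide_eq_true h, h]; rfl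
      · rw [decide_eq_false h]
        simp only [Bool.false_eq_true, if_false]
        omega
    rw [rv_succ, hb]
    have e : 2 * rv k q + (if q.testBit (k + 1) = true then 1 else 0) =
        2 ^ 1 * rv k q + (if q.testBit (k + 1) = true then 1 else 0) := by rw [pow_one]
    rw [e, Nat.testBit_two_pow_mul_add _ (by split_ifs <;> norm_num)]
    by_cases h1 : t < 1
    · rw [if_pos h1]
      have : t = 0 := by omega
      rw [this, Nat.sub_zero, decide_eq_true (Nat.succ_pos k), Bool.true_and]
      cases q.testBit (k + 1) <;> rfl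
    · rw [if_neg h1, rv_bit k q (t - 1)]
      have e1 : k - (t - 1) = k + 1 - t := by omega
      rw [e1]
      congr 1
      rw [decide_eq_decide]
      omega

theorem rv_lt (k q : ℕ) : rv k q < 2 ^ k := by
  apply Nat.lt_pow_two_of_testBit
  intro t ht
  rw [rv_bit, decide_eq_false (by omega), Bool.false_and]

/-- one entry of the table -/
theorem one_vec {n a v : ℕ} (ha : a < n) :
    Nat.shiftLeft v (Nat.mul 16 a) = vec n fun L => if L = a then v else 0 := by
  have e : Nat.shiftLeft v (Nat.mul 16 a) = v <<< (16 * a) := rfl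
  rw [e, Nat.shiftLeft_eq, ← pow16]
  unfold vec
  rw [Finset.sum_eq_single a]
  · beta_reduce
    rw [if_pos rfl]
  · intro b _ hb
    beta_reduce
    rw [if_neg hb, zero_mul]
  · intro h
    exact absurd (Finset.mem_range.2 ha) h

theorem tvec_sem : tvec TL k1 = vec (2 ^ k1) fun L =>
    lls (fun p => if L = rv k1 p.1 then p.2 else 0) TL := by
  unfold tvec
  exact lls_sem (γ := fun (p : ℕ × ℕ) L => if L = rv k1 p.1 then p.2 else 0)
    fun p _ => one_vec (rv_lt _ _)

theorem tok_ok (h : tok TL k1 = true) : lls (fun p => p.2) TL ≤ 16000 ∧ ∀ p ∈ TL,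
    p.1 % 2 = 0 ∧ 1 ≤ p.1 ∧ p.1 < 2 ^ (k1 + 1) := by
  unfold tok at h
  simp only [K.band_eq, K.nble_eq, K.nbeq_eq, Bool.and_eq_true, decide_eq_true_eq, K.lall_eq,
    List.all_eq_true] at h
  exact ⟨h.1, fun p hp => h.2 p hp⟩

theorem tlane_le (L : ℕ) : ∀ TL : List (ℕ × ℕ), lls (fun p => if L = rv k1 p.1 then p.2 else 0) TL ≤
    lls (fun p => p.2) TL := fun TL => lls_le fun p _ => by split_ifs <;> omega

/-- the lane of a colouring with the outer part `r` -/
theorem tlane {r L : ℕ} (hL : L % 2 ^ k1 = rv k1 r) (hr : r < 2 ^ (k1 + 1))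
    (hr0 : r.testBit 0 = false) (h : tok TL k1 = true) :
    lls (fun p => if L % 2 ^ k1 = rv k1 p.1 then p.2 else 0) TL = tbl TL r := by
  obtain ⟨_, h⟩ := tok_ok h
  unfold tbl
  refine lls_congr fun p hp => ?_
  obtain ⟨h1, h2, h3⟩ := h p hp
  have key : L % 2 ^ k1 = rv k1 p.1 ↔ p.1 = r := by
    rw [hL]
    constructor
    · intro h4
      apply Nat.eq_of_testBit_eq
      intro t
      by_cases t0 : t = 0
      · rw [t0, hr0, Nat.testBit_zero]
        simp [h1]
      · by_cases tk : t ≤ k1
        · have h5 := congrArg (fun z => Nat.testBit z (k1 - t)) h4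
          simp only [rv_bit] at h5
          have e : k1 - (k1 - t) = t := by omega
          rw [e, decide_eq_true (by omega : k1 - t < k1), Bool.true_and, Bool.true_and] at h5
          exact h5.symm
        · rw [Nat.testBit_lt_two_pow (lt_of_lt_of_le h3 (Nat.pow_le_pow_right (by norm_num)
            (by omega))), Nat.testBit_lt_two_pow (lt_of_lt_of_le hr (Nat.pow_le_pow_right
            (by norm_num) (by omega)))]
    · intro h4
      rw [h4]
  by_cases h4 : p.1 = r
  · rw [if_pos (key.2 h4), if_pos h4]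
  · rw [if_neg fun h5 => h4 (key.1 h5), if_neg h4]

theorem tbl_zero (h : tok TL k1 = true) : tbl TL 0 = 0 := by
  obtain ⟨_, h⟩ := tok_ok h
  unfold tbl
  have : ∀ l : List (ℕ × ℕ), (∀ p ∈ l, 1 ≤ p.1) → lls (fun p => if p.1 = 0 then p.2 else 0) l = 0 := by
    intro l
    induction l with
    | nil => intro _; rfl
    | cons p l ih =>
      intro hl
      rw [lls_cons, ih fun q hq => hl q (List.mem_cons_of_mem _ hq), if_neg]
      have := hl p (by simp)
      omega
  exact this TL fun p hp => (h p hp).2.1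

/-- the check of the relaxed condition with a table: all colourings -/
theorem vchkt_leaf (hs : O.stat P P' = true) (h : vchkt C O P P' G D5 p5 TL = true) {c : ℕ}
    (c1' : c < 2 ^ O.m) (c3' : c.testBit O.x = false) :
    6 ≤ CD.sm P' (CD.wA O P) c C.lv.flatten + 2 * unq P' c C.ul ∨
    6 ≤ CD.sm P' (CD.wB O P) c C.lv.flatten + 2 * unq P' c C.ul + tbl TL (c >>> O.x) ∨
    ((c >>> O.x ≠ 0 ∨ c >>> O.lo = 0) ∧ ∃ ξ < 2 ^ O.x,
      (6 + FC6.OD.inS P (2 ^ O.x * (c >>> O.x) + ξ) ≤
        2 * bf5 [] 0 D5 p5 (2 ^ O.m - 1) (2 ^ O.x * (c >>> O.x) + ξ) +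
          (CD.sm P' (CD.wB O P) c C.lv.flatten + 2 * unq P' c C.ul) ∨
      6 ≤ gbn P O G (2 ^ O.x * (c >>> O.x) + ξ) +
        (CD.sm P' (CD.wB O P) c C.lv.flatten + 2 * unq P' c C.ul))) := by
  unfold vchkt at h
  simp only [K.band_eq, K.nble_eq, Bool.and_eq_true, decide_eq_true_eq, K.llen_eq, K.lall_eq,
    List.all_eq_true] at h
  obtain ⟨h1, h2, h3, h4, h5, h6, h6d, h6u, h6t, h7⟩ := h
  have h3 : O.x + 1 ≤ O.m := h3
  set k1 := Nat.pred (Nat.sub O.m O.x) with hk1
  set j := Nat.sub O.x O.lo with hj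
  have ek : O.m = k1 + O.x + 1 := by
    have : k1 = O.m - O.x - 1 := rfl
    omega
  have ej : j + O.lo = O.x := by
    have : j = O.x - O.lo := rfl
    omega
  have hst := h1
  unfold vst at hst
  simp only [K.band_eq, Bool.and_eq_true, K.nbeq_eq, K.llen_eq, K.CD_lvc_eq, decide_eq_true_eq,
    K.lall_eq, List.all_eq_true, K.nble_eq] at hst
  obtain ⟨⟨⟨⟨s1, s2⟩, -⟩, -⟩, s5⟩ := hst
  have hfl := CD.lvc_sound _ _ s2
  -- the vectors
  unfold vmaint at h7
  rw [K.nbeq_eq, decide_eq_true_eq] at h7
  have eH : Nat.mul 32768 (on (Nat.add k1 j)) = vec (2 ^ (k1 + j)) fun _ => 32768 := on_k _ _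
  have e6 : Nat.mul 6 (on (Nat.add k1 j)) = vec (2 ^ (k1 + j)) fun _ => 6 := on_k _ _
  have ht : lls (fun l => lsm (K.CD_wA O P) (fun _ => 1) l) C.lv +
      lls (fun l => lsm (K.CD_wB O P) (fun _ => 1) l) C.lv +
      2 * lls (fun l => lsm P'.u (fun _ => 1) l) C.ul ≤ 16000 := h4
  have hW : ∀ wg : ℕ → ℕ, ∀ L, lls (fun l => lsm wg (fun i => cl P' k1 j O.lo i L) l) C.lv ≤
      lls (fun l => lsm wg (fun _ => 1) l) C.lv := fun wg L =>
    lls_le fun l _ => lsm_le fun i _ => cl_le
  let f1 : ℕ → List ℕ → ℕ := fun L u =>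
    if (u.any fun i => bt k1 j (P'.l i - O.lo) L) = true then lsm P'.u (fun _ => 1) u -
        lsm P'.u (fun i => if bt k1 j (P'.l i - O.lo) L = true then 1 else 0) u else 0
  let f0 : ℕ → List ℕ → ℕ := fun L u =>
    if (u.any fun i => !bt k1 j (P'.l i - O.lo) L) = true then
        lsm P'.u (fun i => if bt k1 j (P'.l i - O.lo) L = true then 1 else 0) u else 0
  have hle : ∀ (L : ℕ) (u : List ℕ), lsm P'.u (fun i => if bt k1 j (P'.l i - O.lo) L = true then 1
      else 0) u ≤ lsm P'.u (fun _ => 1) u := fun L u => lsm_le fun i _ => by split_ifs <;> omega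
  have hU1 : ∀ L, lls (f1 L) C.ul ≤ lls (fun l => lsm P'.u (fun _ => 1) l) C.ul := fun L =>
    lls_le fun l _ => by
      show (if _ then _ else _) ≤ _
      split_ifs
      · exact Nat.sub_le _ _
      · exact Nat.zero_le _
  have hU0 : ∀ L, lls (f0 L) C.ul ≤ lls (fun l => lsm P'.u (fun _ => 1) l) C.ul := fun L =>
    lls_le fun l _ => by
      show (if _ then _ else _) ≤ _
      split_ifs
      · exact hle L l
      · exact Nat.zero_le _
  have hU : ∀ L, min (lls (f1 L) C.ul) (lls (f0 L) C.ul) ≤
      lls (fun l => lsm P'.u (fun _ => 1) l) C.ul := fun L => (min_le_left _ _).trans (hU1 L)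
  have eU : vUq C O P' k1 j = vec (2 ^ (k1 + j)) fun L => 2 * min (lls (f1 L) C.ul)
      (lls (f0 L) C.ul) := by
    have hub : ∀ u ∈ C.ul, lsm P'.u (fun _ => 1) u < 32768 := by
      intro u hu
      have := lls_mem (g := fun l => lsm P'.u (fun _ => 1) l) hu
      omega
    unfold vUq
    rw [lls_sem (γ := fun u L => f1 L u) fun u hu => ut_sem (hub u hu),
      lls_sem (γ := fun u L => f0 L u) fun u hu => uf_sem (hub u hu)]
    show 2 * vmin (32768 * on (k1 + j)) _ _ = _
    rw [on_k, vmin_eq (fun L _ => lt_of_le_of_lt (hU1 L) (by omega))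
      (fun L _ => lt_of_le_of_lt (hU0 L) (by omega))]
    exact vec_mul _ _ _
  have eV : ∀ wg : ℕ → ℕ, Nat.add (lls (fun l => lsm wg (cx P' (xt k1 j) O.lo) l) C.lv)
      (vUq C O P' k1 j) = vec (2 ^ (k1 + j)) fun L =>
        lls (fun l => lsm wg (fun i => cl P' k1 j O.lo i L) l) C.lv + 2 * min (lls (f1 L) C.ul)
          (lls (f0 L) C.ul) := by
    intro wg
    rw [eU, lls_sem (γ := fun l L => lsm wg (fun i => cl P' k1 j O.lo i L) l)]
    · exact vec_add _ _ _
    · intro l _
      exact lsm_sem (γ := fun i L => cl P' k1 j O.lo i L) fun i _ => cx_sem _ _ _ _ _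
  obtain ⟨g, g1, g2, g3⟩ := nex_sem (j := j) (O := O) (P := P) (G := G) (k1 := k1) (p5 := p5)
    (by omega) h6 h6d
  have bA := hW (K.CD_wA O P)
  have bB := hW (K.CD_wB O P)
  have hlt : ∀ L < 2 ^ (k1 + j), (if L = 0 then g 0 else g (L % 2 ^ k1) +
      if L % 2 ^ k1 = 0 then 16384 else 0) < 32768 := by
    intro L _
    have a1 := g1 (L % 2 ^ k1) (Nat.mod_lt _ (by positivity))
    have a2 := g1 0 (by positivity)
    split_ifs <;> omega
  have eT : rep k1 j (tvec TL k1) = vec (2 ^ (k1 + j)) fun L =>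
      lls (fun p => if L % 2 ^ k1 = rv k1 p.1 then p.2 else 0) TL := by
    rw [tvec_sem, rep_sem]
  have tb := (tok_ok h6t).1
  have tL : ∀ L, lls (fun p : ℕ × ℕ => if L % 2 ^ k1 = rv k1 p.1 then p.2 else 0) TL ≤ 16000 :=
    fun L => (tlane_le _ TL).trans tb
  have eC : Nat.add (vec (2 ^ (k1 + j)) fun L =>
        lls (fun l => lsm (K.CD_wB O P) (fun i => cl P' k1 j O.lo i L) l) C.lv +
          2 * min (lls (f1 L) C.ul) (lls (f0 L) C.ul)) (rep k1 j (tvec TL k1)) =
      vec (2 ^ (k1 + j)) fun L =>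
        lls (fun l => lsm (K.CD_wB O P) (fun i => cl P' k1 j O.lo i L) l) C.lv +
          2 * min (lls (f1 L) C.ul) (lls (f0 L) C.ul) +
        lls (fun p => if L % 2 ^ k1 = rv k1 p.1 then p.2 else 0) TL := by
    rw [eT]
    exact vec_add _ _ _
  unfold vAq vBq at h7
  rw [eV, eV, eC, g3, eH, e6, geM_eq (fun L _ => by have := bA L; have := hU L; omega)
    (fun _ _ => by norm_num), geM_eq (fun L _ => by have := bB L; have := hU L; omega) hlt,
    geM_eq (fun L _ => by have := bB L; have := hU L; have := tL L; omega)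
    (fun _ _ => by norm_num)] at h7
  change ((vec (2 ^ (k1 + j)) _) ||| (vec (2 ^ (k1 + j)) _)) ||| (vec (2 ^ (k1 + j)) _) = _ at h7
  rw [vec_or (fun L _ => by split_ifs <;> norm_num) (fun L _ => by split_ifs <;> norm_num),
    vec_or (fun L _ => Nat.or_lt_two_pow (n := 16) (by split_ifs <;> norm_num)
    (by split_ifs <;> norm_num)) (fun L _ => by split_ifs <;> norm_num)] at h7
  have key := vec_inj (fun L _ => Nat.or_lt_two_pow (n := 16) (Nat.or_lt_two_pow (n := 16)
    (by split_ifs <;> norm_num) (by split_ifs <;> norm_num)) (by split_ifs <;> norm_num))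
    (fun _ _ => by norm_num) h7
  obtain ⟨L, l1, l2⟩ := lane_of ek ej c1' c3'
  have hk := key L l1
  have hdart : ∀ i ∈ C.lv.flatten, cl P' k1 j O.lo i L = if OD.crs P' c i = true then 1 else 0 := by
    intro i hi
    obtain ⟨a1, a2⟩ := hfl i hi
    have a3 := (OD.stat1 hs a1).r' a2
    exact cl_crs l2 a3.1 a3.2.2.1
  have hsm : ∀ wg : ℕ → ℕ, lls (fun l => lsm wg (fun i => cl P' k1 j O.lo i L) l) C.lv =
      CD.sm P' wg c C.lv.flatten := by
    intro wg
    rw [← lls_flat]
    have : ∀ ls : List (List ℕ), (∀ l ∈ ls, ∀ i ∈ l, i ∈ C.lv.flatten) →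
        lls (fun l => lsm wg (fun i => cl P' k1 j O.lo i L) l) ls =
          lls (fun l => CD.sm P' wg c l) ls := by
      intro ls
      induction ls with
      | nil => intro _; rfl
      | cons l ls ih =>
        intro hls
        rw [lls_cons, lls_cons, ih fun l' hl' => hls l' (List.mem_cons_of_mem _ hl'),
          lsm_eq fun i hi => hdart i (hls l (by simp) i hi)]
    exact this C.lv fun l hl i hi => List.mem_flatten.2 ⟨l, hl, hi⟩
  have hun : min (lls (f1 L) C.ul) (lls (f0 L) C.ul) = unq P' c C.ul := by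
    have a1 : lls (f1 L) C.ul = lls (oS P' true c) C.ul :=
      lls_congr fun l hl => (lane_q l2 fun i hi => (h6u l hl i hi).1).1
    have a2 : lls (f0 L) C.ul = lls (oS P' false c) C.ul :=
      lls_congr fun l hl => (lane_q l2 fun i hi => (h6u l hl i hi).1).2
    rw [a1, a2, unq]
  rw [hsm, hsm, hun, K.CD_wA_eq, K.CD_wB_eq] at hk
  by_cases hA : 6 ≤ CD.sm P' (CD.wA O P) c C.lv.flatten + 2 * unq P' c C.ul
  · exact Or.inl hA
  right
  -- the outer part of the lane
  have hrv : L % 2 ^ k1 = rv k1 (c >>> O.x) := by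
    apply Nat.eq_of_testBit_eq
    intro t
    rw [Nat.testBit_mod_two_pow, rv_bit]
    by_cases ht : t < k1
    · rw [decide_eq_true ht, Bool.true_and, Bool.true_and, Nat.testBit_shiftRight]
      have h9 := l2 (O.m - 1 - t) (by omega)
      unfold bt at h9
      rw [if_neg (by omega), decide_eq_true (by omega : j < O.m - 1 - t - O.lo),
        decide_eq_true (by omega : O.m - 1 - t - O.lo ≤ j + k1), Bool.true_and, Bool.true_and,
        Nat.testBit_mod_two_pow] at h9
      have e9 : k1 + j - (O.m - 1 - t - O.lo) = t := by omega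
      rw [e9, decide_eq_true ht, Bool.true_and] at h9
      have e8 : O.x + (k1 - t) = O.m - 1 - t := by omega
      rw [h9, e8]
    · rw [decide_eq_false ht, Bool.false_and, Bool.false_and]
  have hcr : c >>> O.x < 2 ^ (k1 + 1) := by
    have e : k1 + 1 + O.x = O.m := by omega
    rw [Nat.shiftRight_eq_div_pow, Nat.div_lt_iff_lt_mul (Nat.pow_pos (by norm_num)), ← pow_add, e]
    exact c1'
  have hc0 : (c >>> O.x).testBit 0 = false := by
    rw [Nat.testBit_shiftRight, Nat.add_zero]
    exact c3'
  rw [tlane hrv hcr hc0 h6t] at hk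
  by_cases hC : 6 ≤ CD.sm P' (CD.wB O P) c C.lv.flatten + 2 * unq P' c C.ul + tbl TL (c >>> O.x)
  · exact Or.inl hC
  right
  rw [if_neg hA, if_neg hC, Nat.zero_or, Nat.or_zero] at hk
  have hB : (if L = 0 then g 0 else g (L % 2 ^ k1) + if L % 2 ^ k1 = 0 then 16384 else 0) ≤
      CD.sm P' (CD.wB O P) c C.lv.flatten + 2 * unq P' c C.ul := by
    by_contra hcon
    rw [if_neg hcon] at hk
    norm_num at hk
  have hBlt : CD.sm P' (CD.wB O P) c C.lv.flatten + 2 * unq P' c C.ul < 16384 := by
    have a1 := bB L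
    have a2 := hU L
    rw [hsm, K.CD_wB_eq] at a1
    rw [hun] at a2
    rw [K.CD_wB_eq] at ht
    omega
  have hout : g (L % 2 ^ k1) ≤ CD.sm P' (CD.wB O P) c C.lv.flatten + 2 * unq P' c C.ul := by
    split_ifs at hB with q1 q2
    · rw [q1, Nat.zero_mod]; exact hB
    · omega
    · omega
  constructor
  · -- the outer part
    by_contra hcon
    push Not at hcon
    obtain ⟨d1, d2⟩ := hcon
    -- all outer bits are 0
    have hz : L % 2 ^ k1 = 0 := by
      apply Nat.eq_of_testBit_eq
      intro t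
      rw [Nat.testBit_mod_two_pow, Nat.zero_testBit]
      by_cases ht : t < k1
      · rw [decide_eq_true ht, Bool.true_and]
        have h9 := l2 (O.m - 1 - t) (by omega)
        have h10 : c.testBit (O.m - 1 - t) = false := by
          have : (c >>> O.x).testBit (O.m - 1 - t - O.x) = false := by rw [d1, Nat.zero_testBit]
          have e : O.x + (O.m - 1 - t - O.x) = O.m - 1 - t := by omega
          rw [Nat.testBit_shiftRight, e] at this
          exact this
        rw [h10] at h9
        unfold bt at h9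
        rw [if_neg (by omega), decide_eq_true (by omega : j < O.m - 1 - t - O.lo),
          decide_eq_true (by omega : O.m - 1 - t - O.lo ≤ j + k1), Bool.true_and, Bool.true_and,
          Nat.testBit_mod_two_pow] at h9
        have e9 : k1 + j - (O.m - 1 - t - O.lo) = t := by omega
        rw [e9, decide_eq_true ht, Bool.true_and] at h9
        exact h9
      · rw [decide_eq_false ht, Bool.false_and]
    split_ifs at hB with q1 q2
    · -- `L = 0`
      apply d2
      apply Nat.eq_of_testBit_eq
      intro t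
      rw [Nat.testBit_shiftRight, Nat.zero_testBit, ← l2 (O.lo + t) (by omega), q1]
      unfold bt
      split_ifs
      · exact Nat.zero_testBit _
      · rw [Nat.zero_mod, Nat.zero_testBit, Bool.and_false]
    · omega
  · -- an inner colouring
    obtain ⟨q, q1, q2⟩ := g2 (L % 2 ^ k1) (Nat.mod_lt _ (by positivity))
    have hmod : (L % 2 ^ k1 + 2 ^ k1 * q) % 2 ^ k1 = L % 2 ^ k1 := by
      rw [Nat.add_mul_mod_self_left, Nat.mod_mod]
    obtain ⟨ξ, x1, -, x3⟩ := lane_xi ek ej c3' l2 hmod
    rw [q2] at hout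
    unfold nl at hout
    rw [inS_lane x3, rr_lane x3] at hout
    have e5 : (fun a => bt k1 O.x a (L % 2 ^ k1 + 2 ^ k1 * q)) =
        (2 ^ O.x * (c >>> O.x) + ξ).testBit := funext x3
    rw [e5] at hout
    refine ⟨ξ, x1, ?_⟩
    have first : FC6.OD.inS P (2 ^ O.x * (c >>> O.x) + ξ) -
        2 * (1 + bl5 D5 p5 (2 ^ O.x * (c >>> O.x) + ξ).testBit) ≤
        CD.sm P' (CD.wB O P) c C.lv.flatten + 2 * unq P' c C.ul →
        6 + FC6.OD.inS P (2 ^ O.x * (c >>> O.x) + ξ) ≤
          2 * bf5 [] 0 D5 p5 (2 ^ O.m - 1) (2 ^ O.x * (c >>> O.x) + ξ) +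
            (CD.sm P' (CD.wB O P) c C.lv.flatten + 2 * unq P' c C.ul) := by
      intro h9
      rw [bf5_eq]
      unfold bl5 at h9
      by_cases h10 : (2 ^ O.x * (c >>> O.x) + ξ) &&& (2 ^ O.m - 1) = 0 ∨
          (2 ^ O.x * (c >>> O.x) + ξ) &&& (2 ^ O.m - 1) = 2 ^ O.m - 1
      · rw [if_pos h10, inS_mono (fun i hi hr => (OD.stat1 hs hi).r hr) h10]
        omega
      · rw [if_neg h10]
        split_ifs at h9 ⊢ with h11
        · omega
        · omega
    have second : 6 - gbl (O.rr P (2 ^ O.x * (c >>> O.x) + ξ))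
          (lls (fun p => gl P O.x k1 p (L % 2 ^ k1 + 2 ^ k1 * q)) G) ≤
        CD.sm P' (CD.wB O P) c C.lv.flatten + 2 * unq P' c C.ul →
        6 ≤ gbn P O G (2 ^ O.x * (c >>> O.x) + ξ) +
            (CD.sm P' (CD.wB O P) c C.lv.flatten + 2 * unq P' c C.ul) := by
      intro h9
      have := gbl_le (P := P) (G := G) x3
      omega
    split_ifs at hout with h11
    · exact Or.inl (first hout)
    · rcases min_le_iff.1 hout with h12 | h12
      · exact Or.inl (first h12)
      · exact Or.inr (second h12)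

/-- the static part of the check -/
theorem vchkt_vst (h : vchkt C O P P' G D5 p5 TL = true) : vst C O P P' = true := by
  unfold vchkt at h
  rw [K.band_eq, Bool.and_eq_true] at h
  exact h.1

/-- THE RELAXED CONDITION with a table -/
theorem vchkt_cuts (G' : P'.Good) (hn : P'.n = P.n) (hα : ∀ i < P.n, P'.α i = P.α i)
    (hs : O.stat P P' = true) (h : vchkt C O P P' G D5 p5 TL = true) :
    O.CutsQ P P' (fun c => max (max (bf5 [] 0 D5 p5 (2 ^ O.m - 1) c)
      ((FC6.OD.inS P c + gbn P O G c + 1) / 2)) (bT P O.x O.m (tbl TL) c))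
      (fun c => O.rr P c + O.wr P c) := by
  have hst := vchkt_vst h
  have hul : ∀ l ∈ C.ul, ∀ i ∈ l, O.lo ≤ P'.l i ∧ P'.l i < O.m := by
    unfold vchkt at h
    simp only [K.band_eq, K.nble_eq, Bool.and_eq_true, decide_eq_true_eq, K.llen_eq, K.lall_eq,
      List.all_eq_true] at h
    exact h.2.2.2.2.2.2.2.1
  have htok : tbl TL 0 = 0 := by
    unfold vchkt at h
    simp only [K.band_eq, Bool.and_eq_true] at h
    exact tbl_zero h.2.2.2.2.2.2.2.2.1
  unfold vst at hst
  simp only [K.band_eq, Bool.and_eq_true, K.nbeq_eq, K.llen_eq, K.CD_lvc_eq, decide_eq_true_eq,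
    K.lall_eq, List.all_eq_true, K.nble_eq, K.nd_eq, K.lapp_eq, K.lflat_eq, K.lmap_eq,
    K.lfilter_eq, K.bnot_eq] at hst
  obtain ⟨⟨⟨⟨h1, h2⟩, h3⟩, h4⟩, h5⟩ := hst
  have h1 : C.lv.length = O.m - O.lo := h1
  have h3 : nd 0 (C.lv.flatten ++ (C.lv.flatten.filter fun i => decide (P.α i ≠ i)).map P.α) =
      true := by
    simp only [ne_eq, decide_not]
    exact h3
  have hfl := CD.lvc_sound _ _ h2
  have hnd := (nd_sound _ _ h3).1
  have hnu := (nd_sound _ _ h4).1
  have s3 := OD.stat3 hs
  intro r hr hr0 q hq t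
  set c := 2 ^ O.lo * (2 ^ (O.x - O.lo) * r + q) with hc
  have hlen' : c < 2 ^ (O.lo + C.lv.length) := by
    rw [h1, pow_add]
    refine Nat.mul_lt_mul_of_pos_left ?_ (by positivity)
    have e : O.m - O.lo = (O.x - O.lo) + (O.m - O.x) := by omega
    rw [e, pow_add]
    calc 2 ^ (O.x - O.lo) * r + q < 2 ^ (O.x - O.lo) * r + 2 ^ (O.x - O.lo) := by omega
      _ = 2 ^ (O.x - O.lo) * (r + 1) := by ring
      _ ≤ _ := Nat.mul_le_mul_left _ hr
  have cbit : ∀ a, c.testBit a = if a < O.lo then false else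
      if a < O.x then q.testBit (a - O.lo) else r.testBit (a - O.x) := by
    intro a
    have := Nat.testBit_two_pow_mul_add (2 ^ (O.x - O.lo) * r + q) (b := 0) (i := O.lo)
      (by positivity) a
    rw [add_zero] at this
    rw [hc, this, Nat.testBit_two_pow_mul_add _ hq, Nat.zero_testBit]
    by_cases c1 : a < O.lo
    · rw [if_pos c1, if_pos c1]
    · rw [if_neg c1, if_neg c1]
      by_cases c2 : a < O.x
      · rw [if_pos c2, if_pos (by omega)]
      · rw [if_neg c2, if_neg (by omega)]
        congr 1; omega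
  have hcx : c.testBit O.x = false := by
    rw [cbit, if_neg (by omega), if_neg (by omega), Nat.sub_self]
    exact hr0
  have hcr : c >>> O.x = r := by
    apply Nat.eq_of_testBit_eq
    intro b
    rw [Nat.testBit_shiftRight, cbit, if_neg (by omega), if_neg (by omega)]
    congr 1; omega
  have hlen : c < 2 ^ O.m := by
    rw [h1, Nat.add_sub_cancel' (by omega)] at hlen'
    exact hlen'
  have key := vchkt_leaf hs h hlen hcx
  -- the sums
  let Gf : ℕ → ℕ := fun i => if P'.real i && OD.crs P' c i then 1 + O.wt' i else 0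
  have hin : O.inQ P P' c t = (∑ i ∈ Finset.range P.n, Gf i) + 2 * O.oneS P P' c t := by
    unfold OD.inQ
    rw [sumN_eq]
  have hU : unq P' c C.ul ≤ O.oneS P P' c t := by
    refine le_trans (unq_le t) ?_
    unfold OD.oneS
    rw [sumN_eq]
    refine le_trans (oS_sum (O := O) (P := P) t c C.ul fun l hl i hi => ⟨(h5 l hl i hi).1, hul l hl i hi,
      fun j hj => (h5 l hl i hi).2 j hj⟩) ?_
    refine list_le_sum hnu (fun i hi => ?_) _
    obtain ⟨l, hl, hil⟩ := List.mem_flatten.1 hi
    exact (h5 l hl i hil).1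
  have hB : CD.sm P' (CD.wB O P) c C.lv.flatten ≤ ∑ i ∈ Finset.range P.n, Gf i := by
    have e1 := list_le_sum (n := P.n) hnd (fun i hi => by
      rw [List.mem_append, List.mem_map] at hi
      rcases hi with hi | ⟨j, hj, rfl⟩
      · exact (hfl i hi).1
      · have := (hfl j (List.mem_filter.1 hj).1).1
        have := G'.αlt j (by rw [hn]; exact this)
        rw [hn, hα j (hfl j (List.mem_filter.1 hj).1).1] at this
        exact this) Gf
    refine le_trans ?_ e1
    rw [List.map_append, List.sum_append, CD.sm_eq]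
    -- induction on the list
    have ind : ∀ T : List ℕ, (∀ i ∈ T, i < P.n ∧ P'.real i = true) →
        (T.map fun i => if OD.crs P' c i then CD.wB O P i else 0).sum ≤
        (T.map Gf).sum + (((T.filter fun i => decide (P.α i ≠ i)).map P.α).map Gf).sum := by
      intro T
      induction T with
      | nil => intro _; simp
      | cons i T ih =>
        intro hT
        have ih' := ih fun j hj => hT j (List.mem_cons_of_mem _ hj)
        obtain ⟨hi, hr⟩ := hT i (by simp)
        have s1 := OD.stat1 hs hi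
        rw [List.map_cons, List.sum_cons, List.map_cons, List.sum_cons]
        by_cases ha : P.α i = i
        · rw [List.filter_cons_of_neg (by simp [ha])]
          have : (if OD.crs P' c i then CD.wB O P i else 0) ≤ Gf i := by
            simp only [Gf, hr, Bool.true_and]
            unfold CD.wB
            rw [if_pos ha]
          omega
        · rw [List.filter_cons_of_pos (by simpa using ha), List.map_cons, List.map_cons,
            List.sum_cons]
          have e2 : Gf (P.α i) = Gf i := by
            have hi' : i < P'.n := by rw [hn]; exact hi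
            have k1 := G'.lφ i hi' (by rw [hα i hi]; exact ha)
            have hai := G'.αlt i hi'
            rw [hα i hi] at hai k1
            have k2 := G'.αα i hi'
            have hai' : P.α i < P.n := by rw [← hn]; exact hai
            rw [hα i hi, hα _ hai'] at k2
            have k3 := G'.lφ (P.α i) hai (by
              rw [hα _ hai', k2]
              exact fun h => ha h.symm)
            rw [hα _ hai', k2] at k3
            simp only [Gf]
            rw [s1.rα, s1.wα]
            congr 2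
            unfold OD.crs
            rw [k3, ← k1]
            cases c.testBit (P'.l (P'.φ i)) <;> cases c.testBit (P'.l i) <;> rfl
          have : (if OD.crs P' c i then CD.wB O P i else 0) ≤ Gf i + Gf (P.α i) := by
            rw [e2]
            simp only [Gf, hr, Bool.true_and]
            unfold CD.wB
            rw [if_neg ha]
            split_ifs <;> omega
          omega
    exact ind _ hfl
  have hA : CD.sm P' (CD.wA O P) c C.lv.flatten ≤ CD.sm P' (CD.wB O P) c C.lv.flatten +
      (O.rr P c + O.wr P c) := by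
    let H : ℕ → ℕ := fun i => if O.rg P i && P.real i && OD.crs P c i then 1 + O.wt' i else 0
    have e1 : O.rr P c + O.wr P c = ∑ i ∈ Finset.range P.n, H i := by
      unfold OD.rr OD.wr
      rw [sumN_eq, sumN_eq, ← Finset.sum_add_distrib]
      refine Finset.sum_congr rfl fun i _ => ?_
      simp only [H]
      split_ifs <;> omega
    rw [e1]
    have hnf : C.lv.flatten.Nodup := (List.nodup_append.1 hnd).1
    refine le_trans ?_ (Nat.add_le_add_left (list_le_sum hnf (fun i hi => (hfl i hi).1) H) _)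
    rw [CD.sm_eq, CD.sm_eq]
    have ind : ∀ T : List ℕ, (∀ i ∈ T, i < P.n ∧ P'.real i = true) →
        (T.map fun i => if OD.crs P' c i then CD.wA O P i else 0).sum ≤
        (T.map fun i => if OD.crs P' c i then CD.wB O P i else 0).sum + (T.map H).sum := by
      intro T
      induction T with
      | nil => intro _; simp
      | cons i T ih =>
        intro hT
        have ih' := ih fun j hj => hT j (List.mem_cons_of_mem _ hj)
        obtain ⟨hi, hr⟩ := hT i (by simp)
        have s1 := OD.stat1 hs hi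
        rw [List.map_cons, List.sum_cons, List.map_cons, List.sum_cons, List.map_cons,
          List.sum_cons]
        have : (if OD.crs P' c i then CD.wA O P i else 0) ≤
            (if OD.crs P' c i then CD.wB O P i else 0) + H i := by
          by_cases hcr : OD.crs P' c i = true
          · rw [if_pos hcr, if_pos hcr]
            unfold CD.wA CD.wB
            by_cases ha : P.α i = i
            · rw [if_pos ha, if_pos ha]
              by_cases hro : O.ro i = true
              · have r1 := s1.ring ha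
                have e3 : H i = 1 + O.wt' i := by
                  simp only [H]
                  have e4 : O.rg P i = true := by
                    unfold OD.rg
                    rw [decide_eq_true ha, hro]; rfl
                  have e5 : OD.crs P c i = true := by
                    unfold OD.crs at hcr ⊢
                    rw [← r1.2.1, ← r1.2.2.1]; exact hcr
                  rw [e4, ← r1.1, hr, e5]
                  rfl
                rw [if_pos hro, e3]
                omega
              · rw [if_neg hro]; omega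
            · rw [if_neg ha, if_neg ha]; omega
          · rw [if_neg hcr]; exact Nat.zero_le _
        omega
    exact ind _ hfl
  rw [hin]
  rw [hcr] at key
  rcases key with key | key | ⟨k1, ξ, hξ, k2⟩
  · left
    beta_reduce
    omega
  · by_cases h0 : r = 0
    · left
      beta_reduce
      rw [h0, htok] at key
      omega
    · right
      refine ⟨⟨0, by positivity, ?_⟩, Or.inl h0⟩
      beta_reduce
      have e1 : (2 ^ O.x * r + 0) / 2 ^ O.x = r := by
        rw [Nat.add_zero, Nat.mul_div_cancel_left _ (by positivity)]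
      have h9 := le_max_right (max (bf5 [] 0 D5 p5 (2 ^ O.m - 1) (2 ^ O.x * r + 0))
        ((FC6.OD.inS P (2 ^ O.x * r + 0) + gbn P O G (2 ^ O.x * r + 0) + 1) / 2))
        (bT P O.x O.m (tbl TL) (2 ^ O.x * r + 0))
      have e3 : bT P O.x O.m (tbl TL) (2 ^ O.x * r + 0) =
          (FC6.OD.inS P (2 ^ O.x * r + 0) + tbl TL r + 1) / 2 := by
        unfold bT
        rw [e1, Nat.mod_eq_of_lt hr]
      omega
  · right
    refine ⟨⟨ξ, hξ, ?_⟩, ?_⟩
    · beta_reduce
      rcases k2 with k2 | k2
      · have := le_max_left (bf5 [] 0 D5 p5 (2 ^ O.m - 1) (2 ^ O.x * r + ξ))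
          ((FC6.OD.inS P (2 ^ O.x * r + ξ) + gbn P O G (2 ^ O.x * r + ξ) + 1) / 2)
        have := le_max_left (max (bf5 [] 0 D5 p5 (2 ^ O.m - 1) (2 ^ O.x * r + ξ))
          ((FC6.OD.inS P (2 ^ O.x * r + ξ) + gbn P O G (2 ^ O.x * r + ξ) + 1) / 2))
          (bT P O.x O.m (tbl TL) (2 ^ O.x * r + ξ))
        omega
      · have := le_max_right (bf5 [] 0 D5 p5 (2 ^ O.m - 1) (2 ^ O.x * r + ξ))
          ((FC6.OD.inS P (2 ^ O.x * r + ξ) + gbn P O G (2 ^ O.x * r + ξ) + 1) / 2)
        have := le_max_left (max (bf5 [] 0 D5 p5 (2 ^ O.m - 1) (2 ^ O.x * r + ξ))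
          ((FC6.OD.inS P (2 ^ O.x * r + ξ) + gbn P O G (2 ^ O.x * r + ξ) + 1) / 2))
          (bT P O.x O.m (tbl TL) (2 ^ O.x * r + ξ))
        omega
    · rcases k1 with k1 | k1
      · exact Or.inl k1
      · right
        apply Nat.eq_of_testBit_eq
        intro b
        rw [Nat.zero_testBit]
        by_cases hb : b < O.x - O.lo
        · have e := cbit (O.lo + b)
          rw [if_neg (by omega), if_pos (by omega)] at e
          have e2 : (c >>> O.lo).testBit b = false := by rw [k1, Nat.zero_testBit]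
          rw [Nat.testBit_shiftRight, e] at e2
          rw [← e2]
          congr 1; omega
        · exact Nat.testBit_lt_two_pow (lt_of_lt_of_le hq (Nat.pow_le_pow_right (by omega)
            (by omega)))

end Vc

end Pool.FC7
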