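import Pool.Agent.FC7.Tc

/-! # Bounds for the cuts: the outer part of the cuts for an embedded patch -/

open Finset

set_option linter.unusedSectionVars false

namespace Pool.FC7

open Pool.FC6 Pool.FC6.St

variable {D V : Type} [Fintype D] [DecidableEq V]

/-- the outer part of the cuts -/
theorem ptc_of {X : OD} {P P' : Pa} {S : St D V} {f : ℕ → D} {g : ℕ → V} {Δ : ℕ} {L : D → Bool}
    {w : D → ℕ} (W : Wf Δ S L w) (e : Em P S f g) (hg : P.good = true)
    (st : X.stat P P' = true) (hX : ∀ a < X.x, ∀ d, S.M.v d = g a → ∃ i < P.n, f i = d)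
    (gi : ∀ a < X.x, ∀ b < X.x, g a = g b → a = b)
    (gd : ∀ a < X.x, ∀ b, X.x ≤ b → b < X.m → g b ≠ g a)
    (gA : ∀ b, X.x ≤ b → b < X.m → g b ∈ S.A) : Ptc P X.x X.m S f g := by
  classical
  have G := Pa.good_iff.1 hg
  have v_α : ∀ i < P.n, S.M.v (S.M.α (f i)) = g (P.l (P.φ i)) := fun i hi => by
    rw [← S.M.vφ, e.hφ i hi, e.hl _ (G.φlt i hi)]
  have out_X : ∀ d, (∀ i < P.n, f i ≠ d) → ∀ a < X.x, S.M.v d ≠ g a := by
    intro d hd a ha h1
    obtain ⟨i, hi, h2⟩ := hX a ha d h1
    exact hd i hi h2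
  have out_α : ∀ d, (∀ i < P.n, f i ≠ d) → (∀ i < P.n, f i ≠ S.M.α d) ∨
      ∃ j < P.n, f j = S.M.α d ∧ P.α j = j := by
    intro d hd
    by_cases hc : ∀ i < P.n, f i ≠ S.M.α d
    · exact Or.inl hc
    · push Not at hc
      obtain ⟨j, hj, hj'⟩ := hc
      refine Or.inr ⟨j, hj, hj', ?_⟩
      by_contra hne
      have := e.hα j hj hne
      rw [hj', S.M.αα] at this
      exact hd _ (G.αlt j hj) this.symm
  refine ⟨fun s c hc => ?_, fun s s' hs => ?_, gi, gd, gA⟩
  · have htwo := St.rc_two W.real_α s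
    rw [FC6.RH.split e.inj] at htwo
    have k1 : ∑ i ∈ Finset.range P.n, (if S.real (f i) = true ∧
        s (S.M.v (f i)) ≠ s (S.M.v (S.M.α (f i))) then 1 else 0) = FC6.OD.inS P c := by
      unfold FC6.OD.inS
      rw [sumN_eq]
      refine Finset.sum_congr rfl fun i hi => ?_
      have hi := Finset.mem_range.1 hi
      rw [e.hr i hi, e.hl i hi, v_α i hi]
      by_cases hr : P.real i = true
      · have s1 := (OD.stat1 st hi).r hr
        rw [← hc _ s1.1, ← hc _ s1.2, hr]
        simp [bne_iff_ne]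
      · simp [hr]
    rw [k1] at htwo
    unfold outs
    omega
  · unfold outs
    refine Finset.sum_congr rfl fun d _ => ?_
    by_cases hd : ∃ i < P.n, f i = d
    · rw [if_pos hd, if_pos hd]
    · rw [if_neg hd, if_neg hd]
      push Not at hd
      by_cases hr : S.real d = true
      · have e4 : s (S.M.v d) = s' (S.M.v d) :=
          hs _ (fun a ha h4 => out_X d hd a ha h4.symm)
        have e5 : s (S.M.v (S.M.α d)) = s' (S.M.v (S.M.α d)) := by
          refine hs _ (fun a ha h4 => ?_)
          rcases out_α d hd with h5 | ⟨j, hj, h5, h6⟩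
          · exact out_X _ h5 a ha h4.symm
          · have s1 := OD.stat1 st hj
            have rj : P.real j = true := by
              rw [← e.hr j hj, h5, W.real_α]; exact hr
            rw [← h5, e.hl j hj] at h4
            exact gd a ha _ (s1.ring h6).2.2.2.1 (s1.r rj).1 h4.symm
        rw [e4, e5]
      · simp [hr]

end Pool.FC7
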