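import Pool.Agent.FC7.Qk
import Pool.Agent.FC7.Qp
import Pool.Agent.FC7.Td

/-! # Facts with a table for the outer part of the cuts

`WG.Rf W w0 nb kb pl T`: the table `T` is not possible for the pattern; the names are those of the
record `W`. -/

open Finset

set_option linter.unusedSectionVars false

namespace Pool.FC7

open Pool.FC6 Pool.FC6.St

/-- the checks of a fact with a table -/
structure WG.QT (W : WG) (us T : ℕ → ℕ) : Prop extends W.QW us where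
  cu : W.F.O.CutsQ W.F.P W.F.P' (W.F.bgT T) (fun c => W.F.O.rr W.F.P c + W.F.O.wr W.F.P c)

/-- the table `T` is not possible -/
def WG.Rf (W : WG) (w0 : List ℕ) (nb kb : List (ℕ × List ℕ)) (pl : List ℕ) (T : ℕ → ℕ) : Prop :=
  ∀ (D V : Type) [Fintype D] [DecidableEq V] (S : St D V) (L : D → Bool) (w : D → ℕ)
    (U : V → Prop), MC 6 S L w → IsStar S → Reg S U → ∀ x, HasK S L U w0 nb kb x →
      (∀ i ∈ pl, S.nd (S.M.α (S.nxr^[i] x)) ≠ 4) →
      ∀ (f : ℕ → D) (g : ℕ → V), W.toWF.Hy S L (bd S W.ac W.ra x) f g →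
        Vt W.F.P.n W.F.O.x W.F.O.m S f g T → False

/-- two records of the same star with the same names -/
structure WG.Sim (W W' : WG) : Prop where
  Z : W'.Z = W.Z
  n : W'.PT.n = W.PT.n
  l : ∀ i < W.PT.n, W'.PT.l i = W.PT.l i
  ac : W'.ac = W.ac
  ra : W'.ra = W.ra
  pn : W'.F.P.n = W.F.P.n
  x : W'.F.O.x = W.F.O.x
  m : W'.F.O.m = W.F.O.m

theorem WG.Sim.rfl (W : WG) : W.Sim W :=
  ⟨Eq.refl _, Eq.refl _, fun _ _ => Eq.refl _, Eq.refl _, Eq.refl _, Eq.refl _, Eq.refl _,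
    Eq.refl _⟩

variable {D V : Type} [Fintype D] [DecidableEq V] {S : St D V} {L : D → Bool}
  {w : D → ℕ} {W W' : WG} {d : ℕ → D} {us T : ℕ → ℕ} {f f' : ℕ → D} {g g' : ℕ → V}

theorem rstr_l {P' P : Pa} (h : rstr P' P = true) :
    P'.n ≤ P.n ∧ ∀ i < P'.n, P'.l i = P.l i := by
  simp only [rstr, Bool.and_eq_true, decide_eq_true_eq, allN_iff, Bool.or_eq_true,
    beq_iff_eq] at h
  exact ⟨h.1, fun i hi => (h.2 i hi).1.2⟩

/-- the names are the same -/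
theorem WG.Sim.fg (h : W.Sim W') (C : W'.toWF.Ck 6) (H : W.toWF.Hy S L d f g)
    (H' : W'.toWF.Hy S L d f' g') :
    (∀ i < W.PT.n, f' i = f i) ∧ ∀ a < W.F.O.m, g' a = g a := by
  have hf : ∀ i < W.PT.n, f' i = f i := by
    intro i hi
    have hi' : i < W'.PT.n := by rw [h.n]; exact hi
    have h1 := C.Z.Q.k3 i hi'
    have h2 := C.Z.Q.rjlt i hi'
    have h3 := C.Z.Q.nfr i hi'
    have e1 := H'.nm _ h2 _ h1
    rw [h3] at e1
    rw [h.Z] at h2 h3 e1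
    have e2 := H.nm _ h2 _ (by rw [h.Z] at h1; exact h1)
    rw [h3] at e2
    rw [e1, e2]
  refine ⟨hf, fun a ha => ?_⟩
  obtain ⟨r1, r2, -⟩ := C.r1 a (by rw [h.m]; exact ha)
  obtain ⟨p1, p2⟩ := rstr_l C.rs
  have hi : W'.rd a < W'.PT.n := by omega
  have hi2 : W'.rd a < W.PT.n := by rw [← h.n]; exact hi
  have e1 := H'.em.hl _ hi
  have e2 := H.em.hl _ hi2
  rw [← h.l _ hi2, ← p2 _ r1, r2] at e2
  rw [← p2 _ r1, r2] at e1
  rw [← e1, ← e2, hf _ hi2]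

theorem outs_congr {n : ℕ} (h : ∀ i < n, f' i = f i) (s : V → Bool) :
    outs n S f' s = outs n S f s := by
  classical
  unfold outs
  refine Finset.sum_congr rfl fun x _ => ?_
  have e : (∃ i < n, f' i = x) ↔ ∃ i < n, f i = x := by
    constructor
    · rintro ⟨i, hi, h1⟩
      exact ⟨i, hi, by rw [← h i hi]; exact h1⟩
    · rintro ⟨i, hi, h1⟩
      exact ⟨i, hi, by rw [h i hi]; exact h1⟩
  by_cases h1 : ∃ i < n, f i = x
  · rw [if_pos h1, if_pos (e.2 h1)]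
  · rw [if_neg h1, if_neg fun h2 => h1 (e.1 h2)]

theorem trc_congr {x m : ℕ} (h : ∀ a < m, g' a = g a) (s : V → Bool) :
    trc x m g' s = trc x m g s := by
  apply Nat.eq_of_testBit_eq
  intro b
  by_cases hb : b < m - x
  · rw [testBit_trc g' _ hb, testBit_trc g _ hb, h _ (by omega)]
  · rw [trc_ge g' _ hb, trc_ge g _ hb]

theorem Vt.congr {n x m : ℕ} (hT : Vt n x m S f g T) (h1 : ∀ i < n, f' i = f i)
    (h2 : ∀ a < m, g' a = g a) : Vt n x m S f' g' T := by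
  intro s
  rw [outs_congr h1, trc_congr h2]
  exact hT s

/-- THE FACT WITH A TABLE -/
theorem WG.QW.ptc (Q : W.QW us) (h : MC 6 S L w) (hS : IsStar S)
    (Hy : W.toWF.Hy S L d f g) : Ptc W.F.P W.F.O.x W.F.O.m S f g := by
  obtain ⟨E, kp⟩ := Q.embQ h hS Hy
  have C := Q.F.kap kp
  have hxm : W.F.O.x < W.F.O.m := Q.F.c5
  have nex : ∀ a < W.F.O.x, ∀ b < W.F.O.m, a ≠ b → g a ≠ g b ∧ g b ≠ g a := by
    intro a ha b hb hab
    obtain ⟨h1, h2⟩ := C.s1 a ha b hb hab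
    exact ⟨E.ne a (by show a < W.F.O.m; omega) b hb h1,
      E.ne b hb a (by show a < W.F.O.m; omega) h2⟩
  have h1 := ptc_of h.ok.toWf E.e C.g C.st E.hstar (fun a ha b hb hab => ?_)
    (fun a ha b hb hb' => ?_) (fun b hb hb' => E.hA b hb')
  · exact ⟨h1.rc, h1.oc, h1.gi, h1.gd, h1.gA⟩
  · have ha : a < W.F.O.x := ha
    have hb : b < W.F.O.x := hb
    by_contra hcon
    exact (nex a ha b (by omega) hcon).1 hab
  · have ha : a < W.F.O.x := ha
    have hb : W.F.O.x ≤ b := hb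
    exact (nex a ha b hb' (by omega)).2

/-- the table is refuted -/
theorem WG.QT.noT (h87 : RlOf) (Q : W.QT us T) (h : MC 6 S L w) (hS : IsStar S)
    (Hy : W.toWF.Hy S L d f g) (hT : Vt W.F.P.n W.F.O.x W.F.O.m S f g T) : False :=
  Q.noB h87 h hS Hy Q.cu fun s c hc h1 h0 =>
    (Q.ptc h hS Hy).hB hT (Q.hbg h hS Hy) s c hc h1 h0

/-- A RECORD OF THE FAMILY refutes its table -/
theorem WG.QT.rf (h87 : RlOf) (Q : W'.QT us T) (h : W.Sim W') {w0 : List ℕ}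
    {nb kb : List (ℕ × List ℕ)} {pl : List ℕ} (hU : W'.chkK w0 nb kb pl = true) :
    W.Rf w0 nb kb pl T := by
  intro D V _ _ S L w U hM hS hR x hP hQ f g Hy hT
  obtain ⟨f', g', Hy'⟩ := Q.hyK hU hM hS hR hP hQ
  rw [h.ac, h.ra] at Hy'
  obtain ⟨a1, a2⟩ := h.fg Q.ck Hy Hy'
  refine Q.noT h87 hM hS Hy' ?_
  rw [h.pn, h.x, h.m]
  refine hT.congr (fun i hi => a1 i ?_) a2
  have h1 := (rstr_l Q.ck.rs).1
  rw [h.n, h.pn] at h1
  omega

/-- THE START: a table below the bounds of the record -/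
theorem WG.QW.noR (Q : W.QW us) {w0 : List ℕ}
    {nb kb : List (ℕ × List ℕ)} {pl : List ℕ} (hU : W.chkK w0 nb kb pl = true)
    (hT : ∀ r < 2 ^ (W.F.O.m - W.F.O.x), T r = 0 ∨ (r ≠ 0 ∧ r ≠ 2 ^ (W.F.O.m - W.F.O.x) - 1 ∧
      ∃ ξ < 2 ^ W.F.O.x, T r + FC6.OD.inS W.F.P (2 ^ W.F.O.x * r + ξ) ≤
        2 * W.F.bg (2 ^ W.F.O.x * r + ξ)))
    (h : W.Rf w0 nb kb pl T) : NoK w0 nb kb pl := by
  intro D V _ _ S L w U hM hS hR x hP hQ
  obtain ⟨f, g, Hy⟩ := Q.hyK hU hM hS hR hP hQ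
  exact h D V S L w U hM hS hR x hP hQ f g Hy
    ((Q.ptc hM hS Hy).base (le_of_lt Q.F.c5) (Q.hbg hM hS Hy) hT)

end Pool.FC7
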