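import Pool.Agent.FC7.Td
import Pool.Agent.FC7.KfA

/-! # Bounds for the cuts: the certificate with tight traces

A certificate is a list of traces `p` with tables: the reducer of `p` works if `p` is tight, the last
reducer works if all traces `p` are not tight. -/

open Finset

set_option linter.unusedSectionVars false

namespace Pool.FC7

open Pool.FC6 Pool.FC6.St

namespace Tb

/-- the sum of the values of a key -/
def tbl (l : List (ℕ × ℕ)) (r : ℕ) : ℕ :=
  List.rec (motive := fun _ => ℕ) (nat_lit 0)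
    (fun q _ ih => Prod.rec (motive := fun _ => ℕ) (fun a v =>
      Bool.rec (motive := fun _ => ℕ) ih (Nat.add v ih) (Nat.beq a r)) q) l

/-- the first value of a key, or the default -/
def fst (l : List (ℕ × ℕ)) (d : ℕ → ℕ) (r : ℕ) : ℕ :=
  List.rec (motive := fun _ => ℕ) (d r)
    (fun q _ ih => Prod.rec (motive := fun _ => ℕ) (fun a v =>
      Bool.rec (motive := fun _ => ℕ) ih v (Nat.beq a r)) q) l

/-- the normal form of a trace, `F` the trace with all bits -/
def nf (F r : ℕ) : ℕ :=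
  Bool.rec (motive := fun _ => ℕ) (Nat.xor F r) r (Nat.beq (Nat.mod r (nat_lit 2)) (nat_lit 0))

/-- the value of a trace -/
def val (F : ℕ) (E : List (ℕ × ℕ)) (d : ℕ → ℕ) (r : ℕ) : ℕ := fst E d (nf F r)

noncomputable section

/-- the entry `q`, `v` of a table is correct if `p` is tight -/
def ok1 (F : ℕ) (E : List (ℕ × ℕ)) (d : ℕ → ℕ) (p u q v : ℕ) : Bool :=
  K.bor (Nat.ble v (val F E d q)) (K.bor
    (Nat.ble (Nat.add v u) (Nat.add (val F E d (Nat.land p q)) (val F E d (Nat.lor p q))))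
    (Nat.ble (Nat.add v u) (Nat.add (val F E d (Nat.land p (Nat.xor F q)))
      (val F E d (Nat.lor p (Nat.xor F q))))))

/-- the table is correct if `p` is tight -/
def okt (F : ℕ) (E : List (ℕ × ℕ)) (d : ℕ → ℕ) (p u : ℕ) (TL l : List (ℕ × ℕ)) : Bool :=
  List.rec (motive := fun _ => Bool) true
    (fun q _ ih => Bool.rec (motive := fun _ => Bool) false ih (ok1 F E d p u q.1 (tbl TL q.1))) l

/-- the table is correct -/
def ok0 (F : ℕ) (E : List (ℕ × ℕ)) (d : ℕ → ℕ) (TL l : List (ℕ × ℕ)) : Bool :=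
  List.rec (motive := fun _ => Bool) true
    (fun q _ ih => Bool.rec (motive := fun _ => Bool) false ih
      (Nat.ble (tbl TL q.1) (val F E d q.1))) l

/-- the certificate: traces with tables, last table; `par` the parities -/
def cert (F : ℕ) (d par : ℕ → ℕ) (TL0 : List (ℕ × ℕ)) (l : List (ℕ × List (ℕ × ℕ))) :
    List (ℕ × ℕ) → Bool :=
  List.rec (motive := fun _ => List (ℕ × ℕ) → Bool) (fun E => ok0 F E d TL0 TL0)
    (fun q _ ih E => Bool.rec (motive := fun _ => Bool) false
      (Bool.rec (motive := fun _ => Bool) false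
        (ih ((nf F q.1, Nat.add (val F E d q.1) (nat_lit 2)) :: E))
        (Nat.beq (Nat.mod (par q.1) (nat_lit 2)) (Nat.mod (val F E d q.1) (nat_lit 2))))
      (okt F E d q.1 (val F E d q.1) q.2 q.2)) l

end

theorem tbl_zero {l : List (ℕ × ℕ)} {r : ℕ} (h : ∀ q ∈ l, q.1 ≠ r) : tbl l r = 0 := by
  induction l with
  | nil => rfl
  | cons q l ih =>
    have e : tbl (q :: l) r = Bool.rec (motive := fun _ => ℕ) (tbl l r) (q.2 + tbl l r)
      (Nat.beq q.1 r) := rfl
    have h1 : Nat.beq q.1 r = false := by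
      rw [← Bool.not_eq_true]
      intro h2
      exact h q (List.mem_cons_self ..) (Nat.eq_of_beq_eq_true h2)
    rw [e, h1]
    exact ih fun q hq => h q (List.mem_cons_of_mem _ hq)

theorem fst_cons (q : ℕ × ℕ) (l : List (ℕ × ℕ)) (d : ℕ → ℕ) (r : ℕ) :
    fst (q :: l) d r = if q.1 = r then q.2 else fst l d r := by
  have e : fst (q :: l) d r = Bool.rec (motive := fun _ => ℕ) (fst l d r) q.2 (Nat.beq q.1 r) := rfl
  rw [e]
  by_cases h : q.1 = r
  · rw [if_pos h, h, Nat.beq_refl]
  · rw [if_neg h]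
    have h1 : Nat.beq q.1 r = false := by
      rw [← Bool.not_eq_true]
      intro h2
      exact h (Nat.eq_of_beq_eq_true h2)
    rw [h1]

theorem nf_eq (F r : ℕ) : nf F r = if r % 2 = 0 then r else F ^^^ r := by
  have e : nf F r = Bool.rec (motive := fun _ => ℕ) (F ^^^ r) r (Nat.beq (r % 2) 0) := rfl
  rw [e]
  by_cases h : r % 2 = 0
  · rw [if_pos h, h]; rfl
  · rw [if_neg h]
    have h1 : Nat.beq (r % 2) 0 = false := by
      rw [← Bool.not_eq_true]
      intro h2
      exact h (Nat.eq_of_beq_eq_true h2)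
    rw [h1]

theorem okt_iff {F : ℕ} {E : List (ℕ × ℕ)} {d : ℕ → ℕ} {p u : ℕ} {TL : List (ℕ × ℕ)} :
    ∀ {l : List (ℕ × ℕ)}, okt F E d p u TL l = true →
      ∀ q ∈ l, ok1 F E d p u q.1 (tbl TL q.1) = true
  | [], _, _, h => absurd h List.not_mem_nil
  | a :: l, h, q, hq => by
    have e : okt F E d p u TL (a :: l) = Bool.rec (motive := fun _ => Bool) false
      (okt F E d p u TL l) (ok1 F E d p u a.1 (tbl TL a.1)) := rfl
    rw [e] at h
    cases h1 : ok1 F E d p u a.1 (tbl TL a.1) with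
    | false => rw [h1] at h; exact Bool.noConfusion (show false = true from h)
    | true =>
      rw [h1] at h
      rcases List.mem_cons.1 hq with rfl | hq
      · exact h1
      · exact okt_iff (show okt F E d p u TL l = true from h) q hq

theorem ok0_iff {F : ℕ} {E : List (ℕ × ℕ)} {d : ℕ → ℕ} {TL : List (ℕ × ℕ)} :
    ∀ {l : List (ℕ × ℕ)}, ok0 F E d TL l = true → ∀ q ∈ l, tbl TL q.1 ≤ val F E d q.1
  | [], _, _, h => absurd h List.not_mem_nil
  | a :: l, h, q, hq => by
    have e : ok0 F E d TL (a :: l) = Bool.rec (motive := fun _ => Bool) false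
      (ok0 F E d TL l) (Nat.ble (tbl TL a.1) (val F E d a.1)) := rfl
    rw [e] at h
    cases h1 : Nat.ble (tbl TL a.1) (val F E d a.1) with
    | false => rw [h1] at h; exact Bool.noConfusion (show false = true from h)
    | true =>
      rw [h1] at h
      rcases List.mem_cons.1 hq with rfl | hq
      · exact Nat.le_of_ble_eq_true h1
      · exact ok0_iff (show ok0 F E d TL l = true from h) q hq

end Tb

open Tb

variable {D V : Type} [Fintype D] [DecidableEq V]

variable {P : Pa} {x m : ℕ} {S : St D V} {f : ℕ → D} {g : ℕ → V}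

theorem xor_lt {k r : ℕ} (hr : r < 2 ^ k) : (2 ^ k - 1) ^^^ r < 2 ^ k :=
  Nat.xor_lt_two_pow (by have := Nat.two_pow_pos k; omega) hr

/-- the complement has the same bounds -/
theorem Vt.val {d : ℕ → ℕ} {E : List (ℕ × ℕ)} (hT : Vt P.n x m S f g (Tb.val (2 ^ (m - x) - 1) E d)) :
    ∀ s : V → Bool, ∀ r, (r = trc x m g s ∨ r = (2 ^ (m - x) - 1) ^^^ trc x m g s) →
      Tb.val (2 ^ (m - x) - 1) E d r ≤ outs P.n S f s := by
  intro s r hr
  rcases hr with rfl | rfl
  · exact hT s
  · have h1 := hT fun y => !s y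
    rw [trc_neg, outs_neg] at h1
    exact h1

/-- the value in the normal form -/
theorem val_nf {F : ℕ} {E : List (ℕ × ℕ)} {d : ℕ → ℕ} {q : ℕ} (hq : q % 2 = 0) :
    Tb.val F E d q = Tb.fst E d q := by
  unfold Tb.val
  rw [nf_eq, if_pos hq]

/-- the table of the even traces from bounds for the real cuts -/
theorem Ptc.baseE (h : Ptc P x m S f g) (hxm : x < m) {Bf d : ℕ → ℕ}
    (hB : ∀ (s : V → Bool) (c : ℕ), (∀ a < m, c.testBit a = s (g a)) →
      (∃ y ∈ S.A, s y = true) → (∃ y ∈ S.A, s y = false) → Bf c ≤ S.rc s)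
    (hd : ∀ r < 2 ^ (m - x), r % 2 = 0 → d r = 0 ∨ (r ≠ 0 ∧ ∃ ξ < 2 ^ x,
      d r + FC6.OD.inS P (2 ^ x * r + ξ) ≤ 2 * Bf (2 ^ x * r + ξ))) :
    Vt P.n x m S f g (Tb.val (2 ^ (m - x) - 1) [] d) := by
  have hodd : (2 ^ (m - x) - 1) % 2 = 1 := by
    have h1 : 2 ^ (m - x) = 2 * 2 ^ (m - x - 1) := by
      rw [← pow_succ']; congr 1; omega
    have := Nat.two_pow_pos (m - x - 1)
    omega
  have h1 : Vt P.n x m S f g fun r => if r % 2 = 0 then d r else 0 := by
    refine h.base hxm.le hB fun r hr => ?_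
    by_cases h2 : r % 2 = 0
    · rcases hd r hr h2 with h3 | ⟨h3, ξ, h4, h5⟩
      · left; rw [if_pos h2, h3]
      · refine Or.inr ⟨h3, ?_, ξ, h4, ?_⟩
        · rintro rfl
          omega
        · rw [if_pos h2]; exact h5
    · left; rw [if_neg h2]
  have bx : ∀ r : ℕ, ((2 ^ (m - x) - 1) ^^^ r) % 2 = (if r % 2 = 0 then 1 else 0) := by
    intro r
    have k1 : ((2 ^ (m - x) - 1) ^^^ r).testBit 0 = ((2 ^ (m - x) - 1).testBit 0 ^^ r.testBit 0) :=
      Nat.testBit_xor ..
    rw [Nat.testBit_zero, Nat.testBit_zero, Nat.testBit_zero, hodd] at k1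
    by_cases h2 : r % 2 = 0
    · rw [if_pos h2]
      rw [h2] at k1
      simpa using k1
    · rw [if_neg h2]
      have h3 : r % 2 = 1 := by omega
      rw [h3] at k1
      have : ¬ ((2 ^ (m - x) - 1) ^^^ r) % 2 = 1 := by simpa using k1
      omega
  intro s
  unfold Tb.val
  rw [nf_eq]
  by_cases h2 : trc x m g s % 2 = 0
  · rw [if_pos h2]
    have h3 := h1 s
    simp only [if_pos h2] at h3
    exact h3
  · rw [if_neg h2]
    have h3 := h1 fun y => !s y
    rw [trc_neg, outs_neg] at h3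
    have h4 : ((2 ^ (m - x) - 1) ^^^ trc x m g s) % 2 = 0 := by
      have := bx (2 ^ (m - x) - 1 ^^^ trc x m g s)
      rw [← Nat.xor_assoc, Nat.xor_self, Nat.zero_xor] at this
      by_contra h5
      rw [if_neg h5] at this
      omega
    simp only [if_pos h4] at h3
    exact h3

/-- the theorem of the certificate -/
theorem Ptc.cert (h : Ptc P x m S f g) (hxm : x ≤ m) {d par : ℕ → ℕ} {TL0 : List (ℕ × ℕ)}
    (hpar : ∀ p, par p % 2 = FC6.OD.inS P (2 ^ x * p) % 2)
    (h0 : Vt P.n x m S f g (tbl TL0) → False) :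
    ∀ (l : List (ℕ × List (ℕ × ℕ))) (E : List (ℕ × ℕ)),
      (∀ q ∈ l, Vt P.n x m S f g (tbl q.2) → False) →
      Vt P.n x m S f g (Tb.val (2 ^ (m - x) - 1) E d) →
      Tb.cert (2 ^ (m - x) - 1) d par TL0 l E = true → False
  | [], E, _, hT, hc => by
    have hc' : ok0 (2 ^ (m - x) - 1) E d TL0 TL0 = true := hc
    refine h0 fun s => ?_
    by_cases hq : ∃ q ∈ TL0, q.1 = trc x m g s
    · obtain ⟨q, hq, e⟩ := hq
      have h1 := ok0_iff hc' q hq
      rw [e] at h1
      exact h1.trans (hT s)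
    · push Not at hq
      rw [tbl_zero hq]
      exact Nat.zero_le _
  | (p, TL) :: l, E, hl, hT, hc => by
    have e : Tb.cert (2 ^ (m - x) - 1) d par TL0 ((p, TL) :: l) E =
      Bool.rec (motive := fun _ => Bool) false
      (Bool.rec (motive := fun _ => Bool) false
        (Tb.cert (2 ^ (m - x) - 1) d par TL0 l
          ((nf (2 ^ (m - x) - 1) p, Tb.val (2 ^ (m - x) - 1) E d p + 2) :: E))
        (Nat.beq (par p % 2) (Tb.val (2 ^ (m - x) - 1) E d p % 2)))
      (okt (2 ^ (m - x) - 1) E d p (Tb.val (2 ^ (m - x) - 1) E d p) TL TL) := rfl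
    rw [e] at hc
    clear e
    cases h1 : okt (2 ^ (m - x) - 1) E d p (Tb.val (2 ^ (m - x) - 1) E d p) TL TL with
    | false => rw [h1] at hc; exact Bool.noConfusion (show false = true from hc)
    | true =>
    rw [h1] at hc
    cases h2 : Nat.beq (par p % 2) (Tb.val (2 ^ (m - x) - 1) E d p % 2) with
    | false => rw [h2] at hc; exact Bool.noConfusion (show false = true from hc)
    | true =>
    rw [h2] at hc
    have hc : Tb.cert (2 ^ (m - x) - 1) d par TL0 l
          ((nf (2 ^ (m - x) - 1) p, Tb.val (2 ^ (m - x) - 1) E d p + 2) :: E) = true := hc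
    have h2 := Nat.eq_of_beq_eq_true h2
    rw [hpar p] at h2
    -- `p` is not tight
    have ht : ¬ ∃ s0 : V → Bool, trc x m g s0 = p ∧
        outs P.n S f s0 ≤ Tb.val (2 ^ (m - x) - 1) E d p := by
      rintro ⟨s0, hp, hu⟩
      refine hl (p, TL) (List.mem_cons_self ..) (hT.sub hp hu fun q _ => ?_)
      by_cases hq : ∃ q' ∈ TL, q'.1 = q
      · obtain ⟨q', hq', e⟩ := hq
        have h3 := okt_iff h1 q' hq'
        rw [e] at h3
        unfold ok1 at h3
        simp only [K.bor_eq, Bool.or_eq_true] at h3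
        rcases h3 with h3 | h3 | h3
        · exact Or.inl (Nat.le_of_ble_eq_true h3)
        · exact Or.inr (Or.inl (Nat.le_of_ble_eq_true h3))
        · exact Or.inr (Or.inr (Nat.le_of_ble_eq_true h3))
      · push Not at hq
        left
        rw [show tbl (p, TL).2 q = tbl TL q from rfl, tbl_zero hq]
        exact Nat.zero_le _
    refine Ptc.cert h hxm hpar h0 l _ (fun q hq => hl q (List.mem_cons_of_mem _ hq)) ?_ hc
    refine h.upd hxm hT ht h2 fun q hq => ?_
    unfold Tb.val
    rw [fst_cons]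
    by_cases h3 : nf (2 ^ (m - x) - 1) p = nf (2 ^ (m - x) - 1) q
    · right
      rw [if_pos h3]
      refine ⟨?_, le_refl _⟩
      rw [nf_eq, nf_eq] at h3
      have xx : ∀ a b : ℕ, a ^^^ (a ^^^ b) = b := fun a b => by
        rw [← Nat.xor_assoc, Nat.xor_self, Nat.zero_xor]
      split_ifs at h3 with a1 a2 a2
      · exact Or.inl h3.symm
      · right
        rw [h3, xx]
      · exact Or.inr h3.symm
      · left
        have h4 := congrArg (fun z => (2 ^ (m - x) - 1) ^^^ z) h3
        simp only [xx] at h4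
        exact h4.symm
    · left
      rw [if_neg h3]

end Pool.FC7
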