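import Pool.Agent.FC7.Qp
import Pool.Agent.FC7.Te

/-! # The base table for the outer part of the cuts as a vector -/

open Finset

set_option linter.unusedSectionVars false

namespace Pool.FC7

open Pool.FC6 Pool.FC6.St

theorem tbl_eq (TL : List (ℕ × ℕ)) : Tb.tbl TL = tbl TL := by
  funext r
  induction TL with
  | nil => rfl
  | cons q l ih =>
    have e : Tb.tbl (q :: l) r = Bool.rec (motive := fun _ => ℕ) (Tb.tbl l r) (q.2 + Tb.tbl l r)
      (Nat.beq q.1 r) := rfl
    have e2 : tbl (q :: l) r = (if q.1 = r then q.2 else 0) + tbl l r := rfl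
    rw [e, e2, ih]
    by_cases h : q.1 = r
    · rw [if_pos h, h, Nat.beq_refl]
    · rw [if_neg h, Nat.zero_add]
      have h1 : Nat.beq q.1 r = false := by
        rw [← Bool.not_eq_true]
        intro h2
        exact h (Nat.eq_of_beq_eq_true h2)
      rw [h1]

namespace Vc

section

variable (O : OD) (P : Pa) (G : List (ℕ × ℕ × ℕ)) (D5 : List (List ℕ))
  (p5 : List (List ℕ × List (List (ℕ × ℕ × Bool)))) (k1 : ℕ)

/-- 20 minus the bound for the outer part -/
noncomputable def dvn : ℕ :=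
  Bool.rec (motive := fun _ => ℕ)
    (vmin (Nat.mul 32768 (on (Nat.add k1 O.x)))
      (Nat.sub (Nat.add (vS O P k1) (Nat.mul 14 (on (Nat.add k1 O.x)))) (tw5 O D5 p5 k1))
      (ssub (Nat.mul 32768 (on (Nat.add k1 O.x))) (Nat.mul 20 (on (Nat.add k1 O.x)))
        (gb2 O P G k1)))
    (Nat.sub (Nat.add (vS O P k1) (Nat.mul 14 (on (Nat.add k1 O.x)))) (tw5 O D5 p5 k1))
    (K.lemp G)

/-- the same for the outer colourings -/
noncomputable def dvec : ℕ := fold k1 O.x (dvn O P G D5 p5 k1)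

end

/-- the bound for the trace `r` from the vector -/
noncomputable def dT (k1 V r : ℕ) : ℕ :=
  Bool.rec (motive := fun _ => ℕ)
    (Nat.sub 20 (Nat.land (Nat.shiftRight V (Nat.mul 16 (rv k1 r))) 65535)) 0 (Nat.beq r 0)

/-- the check of the sizes -/
noncomputable def dok (O : OD) (P : Pa) (G : List (ℕ × ℕ × ℕ)) (D5 : List (List ℕ)) : Bool :=
  K.band (Nat.ble (Nat.succ O.x) O.m) (K.band (Nat.ble P.n 10000)
    (K.band (Nat.ble (K.llen G) 1000) (K.lall D5 fun D => Nat.ble (K.llen D) 1000)))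

variable {O : OD} {P : Pa} {G : List (ℕ × ℕ × ℕ)} {D5 : List (List ℕ)}
  {p5 : List (List ℕ × List (List (ℕ × ℕ × Bool)))} {k1 : ℕ}

theorem lane_get {n L : ℕ} {f : ℕ → ℕ} (hf : ∀ i < n, f i < 65536) (hL : L < n) :
    Nat.land (Nat.shiftRight (vec n f) (Nat.mul 16 L)) 65535 = f L := by
  have e : Nat.land (Nat.shiftRight (vec n f) (Nat.mul 16 L)) 65535 =
      (vec n f >>> (16 * L)) &&& (2 ^ 16 - 1) := rfl
  rw [e]
  apply Nat.eq_of_testBit_eq
  intro t
  rw [Nat.testBit_and, Nat.testBit_shiftRight, vec_bit hf, Nat.testBit_two_pow_sub_one]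
  by_cases ht : t < 16
  · have e1 : (16 * L + t) / 16 = L := by omega
    have e2 : (16 * L + t) % 16 = t := by omega
    rw [e1, e2, decide_eq_true hL, decide_eq_true ht, Bool.true_and, Bool.and_true]
  · rw [decide_eq_false ht, Bool.and_false, testBit_hi (hf L hL) (by omega)]

/-- one lane -/
noncomputable def ndl (O : OD) (P : Pa) (G : List (ℕ × ℕ × ℕ)) (D5 : List (List ℕ))
    (p5 : List (List ℕ × List (List (ℕ × ℕ × Bool)))) (k1 : ℕ) (L : ℕ) : ℕ :=
  if G = [] then (FC6.sumN P.n fun i => if P.real i = true then cl P k1 O.x 0 i L else 0) + 14 -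
    2 * (1 + bl5 D5 p5 fun a => bt k1 O.x a L)
  else min ((FC6.sumN P.n fun i => if P.real i = true then cl P k1 O.x 0 i L else 0) + 14 -
      2 * (1 + bl5 D5 p5 fun a => bt k1 O.x a L))
    (20 - gbl (FC6.sumN P.n fun i => if (O.rg P i && P.real i) = true then cl P k1 O.x 0 i L else 0)
        (lls (fun p => gl P O.x k1 p L) G))

theorem dvn_sem (hn : P.n ≤ 10000) (hG : G.length ≤ 1000) (hD : ∀ D ∈ D5, D.length ≤ 1000) :
    dvn O P G D5 p5 k1 = vec (2 ^ (k1 + O.x)) (ndl O P G D5 p5 k1) := by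
  have eH : Nat.mul 32768 (on (Nat.add k1 O.x)) = vec (2 ^ (k1 + O.x)) fun _ => 32768 := on_k _ _
  have e14 : Nat.mul 14 (on (Nat.add k1 O.x)) = vec (2 ^ (k1 + O.x)) fun _ => 14 := on_k _ _
  have e20 : Nat.mul 20 (on (Nat.add k1 O.x)) = vec (2 ^ (k1 + O.x)) fun _ => 20 := on_k _ _
  have hS : ∀ L, (FC6.sumN P.n fun i => if P.real i = true then cl P k1 O.x 0 i L else 0) ≤ 10000 :=
    fun L => sumN_cl_le hn
  have hR : ∀ L, (FC6.sumN P.n fun i => if (O.rg P i && P.real i) = true then cl P k1 O.x 0 i L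
      else 0) ≤ 10000 := fun L => sumN_cl_le (p := fun i => O.rg P i && P.real i) hn
  have hg : ∀ L, lls (fun p => gl P O.x k1 p L) G ≤ 1000 := fun L =>
    (lls_le_len (fun _ => gl_le) G).trans hG
  have hb : ∀ L, gbl (FC6.sumN P.n fun i => if (O.rg P i && P.real i) = true then
      cl P k1 O.x 0 i L else 0) (lls (fun p => gl P O.x k1 p L) G) ≤ 11001 := by
    intro L
    have h1 := hR L
    have h2 := hg L
    unfold gbl
    split_ifs <;> omega
  have e3 : Nat.sub (Nat.add (vec (2 ^ (k1 + O.x)) fun L =>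
      FC6.sumN P.n fun i => if P.real i = true then cl P k1 O.x 0 i L else 0)
      (vec (2 ^ (k1 + O.x)) fun _ => 14))
      (vec (2 ^ (k1 + O.x)) fun L => 2 * (1 + bl5 D5 p5 fun a => bt k1 O.x a L)) =
      vec (2 ^ (k1 + O.x)) fun L =>
      (FC6.sumN P.n fun i => if P.real i = true then cl P k1 O.x 0 i L else 0) + 14 -
        2 * (1 + bl5 D5 p5 fun a => bt k1 O.x a L) := by
    show (vec _ _ + vec _ _) - vec _ _ = _
    rw [vec_add, vec_sub fun L _ => ?_]
    have := bl5_le (D5 := D5) (p5 := p5) (β := fun a => bt k1 O.x a L)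
    omega
  unfold dvn
  rw [eH, tw5_sem hD, e14, e20, vS_sem, e3, gb2_sem hn hG, ssub_eq (fun _ _ => by norm_num)
    (fun L _ => by have := hb L; omega), vmin_eq (fun L _ => by have := hS L; omega)
    (fun L _ => by omega), K.lemp_eq]
  cases G with
  | nil => exact vec_congr fun L _ => by rw [ndl, if_pos rfl]
  | cons p G => exact vec_congr fun L _ => by rw [ndl, if_neg (by simp)]

theorem ndl_lt (hn : P.n ≤ 10000) (L : ℕ) : ndl O P G D5 p5 k1 L < 16384 := by
  have h := sumN_cl_le (P := P) (k1 := k1) (p := P.real) (x := O.x) (L := L) hn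
  unfold ndl
  split_ifs
  · omega
  · have := min_le_left ((FC6.sumN P.n fun i => if P.real i = true then cl P k1 O.x 0 i L else 0) +
        14 - 2 * (1 + bl5 D5 p5 fun a => bt k1 O.x a L))
      (20 - gbl (FC6.sumN P.n fun i => if (O.rg P i && P.real i) = true then cl P k1 O.x 0 i L
        else 0) (lls (fun p => gl P O.x k1 p L) G))
    omega

/-- THE BASE TABLE -/
theorem dT_ok (hk : k1 = Nat.pred (Nat.sub O.m O.x)) (h : dok O P G D5 = true) {r : ℕ}
    (hr : r < 2 ^ (O.m - O.x)) (h2 : r % 2 = 0) :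
    dT k1 (dvec O P G D5 p5 k1) r = 0 ∨ (r ≠ 0 ∧ ∃ ξ < 2 ^ O.x,
      dT k1 (dvec O P G D5 p5 k1) r + FC6.OD.inS P (2 ^ O.x * r + ξ) ≤
        2 * max (bf5 [] 0 D5 p5 (2 ^ O.m - 1) (2 ^ O.x * r + ξ))
          ((FC6.OD.inS P (2 ^ O.x * r + ξ) + gbn P O G (2 ^ O.x * r + ξ) + 1) / 2)) := by
  unfold dok at h
  simp only [K.band_eq, K.nble_eq, Bool.and_eq_true, decide_eq_true_eq, K.llen_eq, K.lall_eq,
    List.all_eq_true] at h
  obtain ⟨hm, hn, hG, hD⟩ := h
  have hm : O.x + 1 ≤ O.m := hm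
  have ek : O.m = k1 + O.x + 1 := by
    have : k1 = O.m - O.x - 1 := hk
    omega
  by_cases h0 : r = 0
  · left
    rw [h0]
    rfl
  by_cases hd : dT k1 (dvec O P G D5 p5 k1) r = 0
  · exact Or.inl hd
  refine Or.inr ⟨h0, ?_⟩
  have hr' : r < 2 ^ (k1 + 1) := by
    have e : k1 + 1 = O.m - O.x := by omega
    rw [e]; exact hr
  obtain ⟨g, g1, g2, g3⟩ := fold_sem' k1 O.x (ndl O P G D5 p5 k1) (c := 16384)
    (fun L _ => ndl_lt hn L) (by norm_num)
  have e1 : dvec O P G D5 p5 k1 = vec (2 ^ k1) g := by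
    unfold dvec
    rw [dvn_sem hn hG hD, g1]
  have hL0 := rv_lt k1 r
  have eb : Nat.beq r 0 = false := by
    rw [← Bool.not_eq_true]
    intro h3
    exact h0 (Nat.eq_of_beq_eq_true h3)
  have ed : dT k1 (dvec O P G D5 p5 k1) r = 20 - g (rv k1 r) := by
    have e2 : dT k1 (dvec O P G D5 p5 k1) r = Bool.rec (motive := fun _ => ℕ)
      (20 - Nat.land (Nat.shiftRight (dvec O P G D5 p5 k1) (Nat.mul 16 (rv k1 r))) 65535) 0
        (Nat.beq r 0) := rfl
    rw [e2, eb, e1, lane_get (fun i hi => by have := g2 i hi; omega) hL0]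
  obtain ⟨q, q1, q2⟩ := g3 _ hL0
  -- the colouring
  have hb0 : r.testBit 0 = false := by
    rw [Nat.testBit_zero]
    simp [h2]
  have hcx : (2 ^ O.x * r).testBit O.x = false := by
    have := Nat.testBit_two_pow_mul_add r (b := 0) (i := O.x) (by positivity) O.x
    rw [Nat.add_zero] at this
    rw [this, if_neg (lt_irrefl _), Nat.sub_self, hb0]
  have hcs : (2 ^ O.x * r) >>> O.x = r := by
    rw [Nat.shiftRight_eq_div_pow, Nat.mul_div_cancel_left _ (by positivity)]
  have hL' : ∀ a, O.x ≤ a → bt k1 0 (a - O.x) (rv k1 r) = (2 ^ O.x * r).testBit a := by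
    intro a ha
    have e3 := Nat.testBit_two_pow_mul_add r (b := 0) (i := O.x) (by positivity) a
    rw [Nat.add_zero, if_neg (by omega)] at e3
    rw [e3]
    unfold bt
    rw [if_neg (by omega), Nat.mod_eq_of_lt hL0, rv_bit]
    by_cases a0 : a - O.x = 0
    · rw [a0, hb0, decide_eq_false (lt_irrefl 0), Bool.false_and, Bool.false_and]
    · by_cases a1 : a - O.x ≤ k1
      · rw [decide_eq_true (by omega : 0 < a - O.x), decide_eq_true (by omega : a - O.x ≤ 0 + k1),
          decide_eq_true (by omega : k1 + 0 - (a - O.x) < k1), Bool.true_and, Bool.true_and,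
          Bool.true_and]
        congr 1; omega
      · rw [decide_eq_false (by omega : ¬ a - O.x ≤ 0 + k1), Bool.and_false, Bool.false_and]
        symm
        exact Nat.testBit_lt_two_pow (lt_of_lt_of_le hr' (Nat.pow_le_pow_right (by norm_num)
          (by omega)))
  have hmod : (rv k1 r + 2 ^ k1 * q) % 2 ^ k1 = rv k1 r % 2 ^ k1 := by
    rw [Nat.add_mul_mod_self_left]
  obtain ⟨ξ, x1, x2, x3⟩ := lane_xi (lo := O.x) (j := 0) ek (Nat.zero_add _) hcx hL' hmod
  rw [hcs] at x2 x3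
  refine ⟨ξ, x1, ?_⟩
  rw [q2] at ed
  unfold ndl at ed
  rw [inS_lane x3, rr_lane x3] at ed
  have e5 : (fun a => bt k1 O.x a (rv k1 r + 2 ^ k1 * q)) = (2 ^ O.x * r + ξ).testBit := funext x3
  rw [e5] at ed
  have cb : ∀ a, (2 ^ O.x * r + ξ).testBit a = if a < O.x then ξ.testBit a else
      r.testBit (a - O.x) := fun a => Nat.testBit_two_pow_mul_add _ x1 a
  -- the colouring is not constant
  have nc : ¬ ((2 ^ O.x * r + ξ) &&& (2 ^ O.m - 1) = 0 ∨
      (2 ^ O.x * r + ξ) &&& (2 ^ O.m - 1) = 2 ^ O.m - 1) := by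
    rintro (h3 | h3)
    · apply h0
      apply Nat.eq_of_testBit_eq
      intro t
      rw [Nat.zero_testBit]
      by_cases ht : t < O.m - O.x
      · have h4 := congrArg (fun z => Nat.testBit z (O.x + t)) h3
        simp only [Nat.testBit_and, Nat.testBit_two_pow_sub_one, Nat.zero_testBit] at h4
        rw [cb, if_neg (by omega), decide_eq_true (by omega : O.x + t < O.m), Bool.and_true] at h4
        rw [← h4]
        congr 1; omega
      · exact Nat.testBit_lt_two_pow (lt_of_lt_of_le hr (Nat.pow_le_pow_right (by norm_num)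
          (by omega)))
    · have h4 := congrArg (fun z => Nat.testBit z O.x) h3
      simp only [Nat.testBit_and, Nat.testBit_two_pow_sub_one] at h4
      rw [x2, decide_eq_true (by omega : O.x < O.m)] at h4
      exact absurd h4 (by simp)
  have eb5 : bf5 [] 0 D5 p5 (2 ^ O.m - 1) (2 ^ O.x * r + ξ) =
      4 + bl5 D5 p5 (2 ^ O.x * r + ξ).testBit := by
    rw [bf5_eq, if_neg nc]
    unfold bl5
    split_ifs <;> rfl
  have first : 20 - (FC6.OD.inS P (2 ^ O.x * r + ξ) + 14 -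
        2 * (1 + bl5 D5 p5 (2 ^ O.x * r + ξ).testBit)) ≠ 0 →
      20 - (FC6.OD.inS P (2 ^ O.x * r + ξ) + 14 -
        2 * (1 + bl5 D5 p5 (2 ^ O.x * r + ξ).testBit)) + FC6.OD.inS P (2 ^ O.x * r + ξ) ≤
        2 * max (bf5 [] 0 D5 p5 (2 ^ O.m - 1) (2 ^ O.x * r + ξ))
          ((FC6.OD.inS P (2 ^ O.x * r + ξ) + gbn P O G (2 ^ O.x * r + ξ) + 1) / 2) := by
    intro h9
    have h10 := le_max_left (bf5 [] 0 D5 p5 (2 ^ O.m - 1) (2 ^ O.x * r + ξ))
      ((FC6.OD.inS P (2 ^ O.x * r + ξ) + gbn P O G (2 ^ O.x * r + ξ) + 1) / 2)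
    have h11 := bl5_le (D5 := D5) (p5 := p5) (β := (2 ^ O.x * r + ξ).testBit)
    omega
  rw [ed] at hd ⊢
  split_ifs at hd ⊢ with h6
  · exact first hd
  · rcases min_choice (FC6.OD.inS P (2 ^ O.x * r + ξ) + 14 -
        2 * (1 + bl5 D5 p5 (2 ^ O.x * r + ξ).testBit))
      (20 - gbl (O.rr P (2 ^ O.x * r + ξ)) (lls (fun p => gl P O.x k1 p
        (rv k1 r + 2 ^ k1 * q)) G)) with h7 | h7
    · rw [h7] at hd ⊢
      exact first hd
    · rw [h7] at hd ⊢
      have h10 := le_max_right (bf5 [] 0 D5 p5 (2 ^ O.m - 1) (2 ^ O.x * r + ξ))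
        ((FC6.OD.inS P (2 ^ O.x * r + ξ) + gbn P O G (2 ^ O.x * r + ξ) + 1) / 2)
      have h11 := gbl_le (P := P) (G := G) x3
      omega

end Vc

end Pool.FC7
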