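import Pool.Agent.FC7.Qn
import Pool.Agent.FC7.Qs
import Pool.Agent.FC7.Qt

/-! # Packed records with a table for the outer part of the cuts (vector form) -/

open Finset

set_option linter.unusedSectionVars false

namespace Pool.FC7

open Pool.FC6 Pool.FC7.Vs

/-- the condition for the cuts from the vector check with a table -/
theorem Fc.cutsT_of {F : Fc} {TL : List (ℕ × ℕ)} (k2 : F.P'.good = true)
    (k3 : Pa.flips F.P' F.P F.fl = true) (k5 : F.O.stat F.P F.P' = true) (sm : F.sm = 0)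
    (cq : F.cq = []) (k6 : Vc.vchkt F.C F.O F.P F.P' F.gt F.D5 F.p5 TL = true) :
    F.O.CutsQ F.P F.P' (F.bgT (Tb.tbl TL)) (fun c => F.O.rr F.P c + F.O.wr F.P c) := by
  have h := Vc.vchkt_cuts (Pa.good_iff.1 k2) (Fc.hn k3).1 (Fc.hn k3).2 k5 k6
  rw [tbl_eq]
  have e : F.bgT (tbl TL) = fun c => max (max (bf5 [] 0 F.D5 F.p5 (2 ^ F.O.m - 1) c)
      ((FC6.OD.inS F.P c + gbn F.P F.O F.gt c + 1) / 2)) (bT F.P F.O.x F.O.m (tbl TL) c) := by
    funext c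
    show max (max (bf5 F.cq F.sm F.D5 F.p5 (2 ^ F.O.m - 1) c) _) _ = _
    rw [sm, cq]
    rfl
  rw [e]
  exact h

/-- the bounds of the record for the base table -/
theorem Fc.bg_eq {F : Fc} (sm : F.sm = 0) (cq : F.cq = []) (c : ℕ) :
    F.bg c = max (bf5 [] 0 F.D5 F.p5 (2 ^ F.O.m - 1) c)
      ((FC6.OD.inS F.P c + gbn F.P F.O F.gt c + 1) / 2) := by
  show max (bf5 F.cq F.sm F.D5 F.p5 (2 ^ F.O.m - 1) c) _ = _
  rw [sm, cq]
  rfl

/-- the base table of a record -/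
noncomputable def Fc.dTb (F : Fc) : ℕ → ℕ :=
  Vc.dT (Nat.pred (Nat.sub (FC7.OD.m (FC7.Fc.O F)) (FC7.OD.x (FC7.Fc.O F))))
    (Vc.dvec (FC7.Fc.O F) (FC7.Fc.P F) (FC7.Fc.gt F) (FC7.Fc.D5 F) (FC7.Fc.p5 F)
      (Nat.pred (Nat.sub (FC7.OD.m (FC7.Fc.O F)) (FC7.OD.x (FC7.Fc.O F)))))

/-- the parity of the number of crossing darts -/
noncomputable def Fc.par (F : Fc) (p : ℕ) : ℕ :=
  K.OD_inS (FC7.Fc.P F) (Nat.mul (Nat.pow 2 (FC7.OD.x (FC7.Fc.O F))) p)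

theorem Fc.par_eq (F : Fc) (p : ℕ) : F.par p % 2 = FC6.OD.inS F.P (2 ^ F.O.x * p) % 2 := by
  unfold Fc.par
  rw [K.OD_inS_eq]
  rfl

theorem Vc.vchkt_dok {C : CD} {O : OD} {P P' : Pa} {G : List (ℕ × ℕ × ℕ)} {D5 : List (List ℕ)}
    {p5 : List (List ℕ × List (List (ℕ × ℕ × Bool)))} {TL : List (ℕ × ℕ)}
    (h : Vc.vchkt C O P P' G D5 p5 TL = true) : Vc.dok O P G D5 = true := by
  unfold Vc.vchkt at h
  simp only [K.band_eq, Bool.and_eq_true] at h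
  unfold Vc.dok
  simp only [K.band_eq, Bool.and_eq_true]
  exact ⟨h.2.2.1, h.2.2.2.2.1, h.2.2.2.2.2.1, h.2.2.2.2.2.2.1⟩

/-- THE BASE TABLE OF A RECORD -/
theorem Fc.dTb_ok {F : Fc} (sm : F.sm = 0) (cq : F.cq = []) (h : Vc.dok F.O F.P F.gt F.D5 = true)
    (r : ℕ) (hr : r < 2 ^ (F.O.m - F.O.x)) (h2 : r % 2 = 0) :
    F.dTb r = 0 ∨ (r ≠ 0 ∧ ∃ ξ < 2 ^ F.O.x,
      F.dTb r + FC6.OD.inS F.P (2 ^ F.O.x * r + ξ) ≤ 2 * F.bg (2 ^ F.O.x * r + ξ)) := by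
  rcases Vc.dT_ok (p5 := F.p5) (Eq.refl _) h hr h2 with h3 | ⟨h3, ξ, h4, h5⟩
  · exact Or.inl h3
  · refine Or.inr ⟨h3, ξ, h4, ?_⟩
    rw [Fc.bg_eq sm cq]
    exact h5

namespace Vs

/-- two records of the same star with the same names -/
noncomputable def VR.sim (R R' : VR) : Bool :=
  K.band (Nat.beq (VR.N0 R') (VR.N0 R)) (K.band (Nat.beq (VR.n0 R') (VR.n0 R))
    (K.band (Nat.beq (VR.ns0 R') (VR.ns0 R)) (K.band (Nat.beq (VR.nc0 R') (VR.nc0 R))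
    (K.band (Nat.beq (VR.x0 R') (VR.x0 R)) (K.band (Nat.beq (VR.k0 R') (VR.k0 R))
    (K.band (Nat.beq (VR.a8 R') (VR.a8 R)) (K.band (Nat.beq (VR.a9 R') (VR.a9 R))
    (K.band (Nat.beq (VR.a10 R') (VR.a10 R)) (K.band (Nat.beq (VR.a11 R') (VR.a11 R))
    (K.band (Nat.beq (VR.a12 R') (VR.a12 R)) (K.band (Nat.beq (VR.a13 R') (VR.a13 R))
    (K.band (Nat.beq (VR.a14 R') (VR.a14 R)) (K.band (Nat.beq (VR.a15 R') (VR.a15 R))
    (K.band (Nat.beq (VR.a16 R') (VR.a16 R)) (K.band (Nat.beq (VR.raT R') (VR.raT R))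
    (K.band (Nat.beq (VR.lT R') (VR.lT R)) (K.band (Nat.beq (VR.cxT R') (VR.cxT R))
      (Nat.beq (VR.rlT R') (VR.rlT R)))))))))))))))))))

theorem VR.sim_ok {R R' : VR} (h : VR.sim R R' = true) : WG.Sim (VR.W R) (VR.W R') := by
  unfold VR.sim at h
  rw [K.band_eq] at h
  simp only [Bool.and_eq_true, beq_iff] at h
  obtain ⟨h1, h2, h3, h4, h5, h6, h7, h8, h9, h10, h11, h12, h13, h14, h15, h16, h17, h18, h19⟩ := h
  have eN : VR.N R' = VR.N R := by unfold VR.N; rw [h1]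
  have eo : VR.on R' = VR.on R := by unfold VR.on; rw [eN]
  have en : VR.n R' = VR.n R := by unfold VR.n; rw [h2, eN]
  have ens : VR.ns R' = VR.ns R := by unfold VR.ns; rw [h3, eN]
  have es8 : VR.st8 R' = VR.st8 R := by unfold VR.st8; rw [h1]
  have enc : VR.nc R' = VR.nc R := by unfold VR.nc; rw [h4, eN, es8]
  have ex : VR.x R' = VR.x R := by unfold VR.x; rw [h5]
  have ek : VR.k R' = VR.k R := by unfold VR.k; rw [h6]
  have e1 : VR.rhoT R' = VR.rhoT R := by unfold VR.rhoT; rw [h7, eo]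
  have e2 : VR.rhiT R' = VR.rhiT R := by unfold VR.rhiT; rw [h7, eo]
  have e3 : VR.piT R' = VR.piT R := by unfold VR.piT; rw [h8, eo]
  have e4 : VR.rkT R' = VR.rkT R := by unfold VR.rkT; rw [h8, eo]
  have e5 : VR.rjT R' = VR.rjT R := by unfold VR.rjT; rw [h9, eo]
  have e6 : VR.nf0T R' = VR.nf0T R := by unfold VR.nf0T; rw [h9, eo]
  have e7 : VR.nf1T R' = VR.nf1T R := by unfold VR.nf1T; rw [h10, eo]
  have e8 : VR.nf2T R' = VR.nf2T R := by unfold VR.nf2T; rw [h10, eo]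
  have e9 : VR.vpT R' = VR.vpT R := by unfold VR.vpT; rw [h11, eo]
  have e10 : VR.vrT R' = VR.vrT R := by unfold VR.vrT; rw [h11, eo]
  have e11 : VR.lrT R' = VR.lrT R := by unfold VR.lrT; rw [h12, eo]
  have e12 : VR.zmT R' = VR.zmT R := by unfold VR.zmT; rw [h12, eo]
  have e13 : VR.offT R' = VR.offT R := by unfold VR.offT; rw [h13, eo]
  have e14 : VR.caT R' = VR.caT R := by unfold VR.caT; rw [h13, eo]
  have e15 : VR.zpaT R' = VR.zpaT R := by unfold VR.zpaT; rw [h14, eo]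
  have e16 : VR.jaT R' = VR.jaT R := by unfold VR.jaT; rw [h14, eo]
  have e17 : VR.prT R' = VR.prT R := by unfold VR.prT; rw [h15, eo]
  have e18 : VR.ptT R' = VR.ptT R := by unfold VR.ptT; rw [h15, eo]
  refine ⟨?_, en, fun i _ => ?_, ?_, ?_, en, ex, ?_⟩
  · show VR.Z R' = VR.Z R
    unfold VR.Z VR.Q
    rw [ens, enc, e1, e2, e3, e4, e5, e6, e7, e8, e9, e10, e11, e12, e13, e14, e15, e16, e17, e18,
      h18, h19]
  · show tx (VR.lT R') i = tx (VR.lT R) i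
    rw [h17]
  · show (fun a => Nat.ble (Nat.succ a) (VR.x R')) = fun a => Nat.ble (Nat.succ a) (VR.x R)
    rw [ex]
  · show tx (VR.raT R') = tx (VR.raT R)
    rw [h16]
  · show VR.x R' + VR.k R' = VR.x R + VR.k R
    rw [ex, ek]

end Vs

namespace K

/-- the check of a packed record with the table `TL`; `b`: the strong units -/
noncomputable def okVT (R : VR) (TL : List (ℕ × ℕ)) (b q s x m lo NB A w v XI nr nt nc N : ℕ) :
    Bool :=
  K.band (VR.vQ R b) (K.band (Vc.vchkt (FC7.Fc.C (VR.F R)) (FC7.Fc.O (VR.F R)) (FC7.Fc.P (VR.F R))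
      (FC7.Fc.P' (VR.F R)) (FC7.Fc.gt (VR.F R)) (FC7.Fc.D5 (VR.F R)) (FC7.Fc.p5 (VR.F R)) TL)
    (K.ev (VR.F R) q s x m lo NB A w v XI nr nt nc N))

theorem okVT_ok {R : VR} {TL : List (ℕ × ℕ)} {b q s x m lo NB A w v XI nr nt nc N : ℕ}
    (h : okVT R TL b q s x m lo NB A w v XI nr nt nc N = true) :
    (VR.W R).QT (tx (VR.upT (VR.qr R b))) (Tb.tbl TL) := by
  unfold okVT at h
  simp only [band_eq, Bool.and_eq_true] at h
  obtain ⟨h0, h1, hE⟩ := h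
  obtain ⟨h2, h3⟩ := vW_ok h0 (K.ev_one hE)
  obtain ⟨c1, c2, c3⟩ := h3.cp
  exact ⟨h2, Fc.cutsT_of c1 c2 c3 h3.sm h3.cq h1⟩

end K

end Pool.FC7
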