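import Pool.Agent.FC7.Qo
import Pool.Agent.FC7.Qu

/-! # Packed records with a table for the outer part of the cuts (records of bytes) -/

open Finset

set_option linter.unusedSectionVars false

namespace Pool.FC7

open Pool.FC6 Pool.FC7.Vs

namespace K

/-- two records of the same star with the same names -/
noncomputable def simG (R R' : PK) : Bool :=
  K.band (Nat.beq (PK.n R') (PK.n R)) (K.band (Nat.beq (PK.ns R') (PK.ns R))
    (K.band (Nat.beq (PK.nc R') (PK.nc R)) (K.band (Nat.beq (PK.na R') (PK.na R))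
    (K.band (Nat.beq (PK.x R') (PK.x R)) (K.band (Nat.beq (PK.k R') (PK.k R))
    (K.band (Nat.beq (PK.l R') (PK.l R)) (K.band (Nat.beq (PK.ra R') (PK.ra R))
    (K.band (Nat.beq (PK.cx R') (PK.cx R)) (K.band (Nat.beq (PK.ρ R') (PK.ρ R))
    (K.band (Nat.beq (PK.ρi R') (PK.ρi R)) (K.band (Nat.beq (PK.π R') (PK.π R))
    (K.band (Nat.beq (PK.rl R') (PK.rl R)) (K.band (Nat.beq (PK.rk R') (PK.rk R))
    (K.band (Nat.beq (PK.rj R') (PK.rj R)) (K.band (Nat.beq (PK.nf R') (PK.nf R))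
    (K.band (Nat.beq (PK.vp R') (PK.vp R)) (K.band (Nat.beq (PK.vr R') (PK.vr R))
    (K.band (Nat.beq (PK.lr R') (PK.lr R)) (K.band (Nat.beq (PK.m R') (PK.m R))
    (K.band (Nat.beq (PK.off R') (PK.off R)) (K.band (Nat.beq (PK.ca R') (PK.ca R))
    (K.band (Nat.beq (PK.zp R') (PK.zp R)) (K.band (Nat.beq (PK.zj R') (PK.zj R))
    (K.band (Nat.beq (PK.pr R') (PK.pr R)) (Nat.beq (PK.pt R') (PK.pt R))))))))))))))))))))))))))

theorem simG_ok {R R' : PK} (h : simG R R' = true) : WG.Sim (PK.G R) (PK.G R') := by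
  unfold simG at h
  rw [K.band_eq] at h
  simp only [Bool.and_eq_true, beq_iff] at h
  obtain ⟨h1, h2, h3, h4, h5, h6, h7, h8, h9, h10, h11, h12, h13, h14, h15, h16, h17, h18, h19,
    h20, h21, h22, h23, h24, h25, h26⟩ := h
  refine ⟨?_, h1, fun i _ => ?_, ?_, ?_, h1, h5, ?_⟩
  · show PK.Z R' = PK.Z R
    unfold PK.Z
    rw [h2, h3, h9, h10, h11, h12, h13, h14, h15, h16, h17, h18, h19, h20, h21, h22, h23, h24, h25,
      h26]
  · show K.tb (PK.l R') i = K.tb (PK.l R) i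
    rw [h7]
  · show (fun a => Nat.ble (Nat.succ a) (PK.na R')) = fun a => Nat.ble (Nat.succ a) (PK.na R)
    rw [h4]
  · show K.tb (PK.ra R') = K.tb (PK.ra R)
    rw [h8]
  · show PK.x R' + PK.k R' = PK.x R + PK.k R
    rw [h5, h6]

/-- the check of a packed record with the table `TL`; `b`: the bytes are the strong units -/
noncomputable def okGT (R : PK) (TL : List (ℕ × ℕ)) (b q s x m lo NB A w v XI nr nt nc N : ℕ) :
    Bool :=
  K.band (K.gW (PK.G R) (K.tb b)) (K.band (Vc.vchkt (FC7.Fc.C (PK.F R)) (FC7.Fc.O (PK.F R))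
      (FC7.Fc.P (PK.F R)) (FC7.Fc.P' (PK.F R)) (FC7.Fc.gt (PK.F R)) (FC7.Fc.D5 (PK.F R))
      (FC7.Fc.p5 (PK.F R)) TL)
    (K.ev (PK.F R) q s x m lo NB A w v XI nr nt nc N))

theorem okGT_ok {R : PK} {TL : List (ℕ × ℕ)} {b q s x m lo NB A w v XI nr nt nc N : ℕ}
    (h : okGT R TL b q s x m lo NB A w v XI nr nt nc N = true) :
    (PK.G R).QT (K.tb b) (Tb.tbl TL) := by
  unfold okGT at h
  simp only [band_eq, Bool.and_eq_true] at h
  obtain ⟨h0, h1, hE⟩ := h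
  obtain ⟨h2, h3⟩ := gW_ok h0 (K.ev_one hE)
  obtain ⟨c1, c2, c3⟩ := h3.cp
  exact ⟨h2, Fc.cutsT_of c1 c2 c3 h3.sm h3.cq h1⟩

end K

end Pool.FC7
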