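import Pool.Agent.FC7.Q4C

/-! # Gluing of several parts

The tools for cuts with four real edges next to a vertex of degree four: the solutions of the two
large parts are glued, the vertex in the middle gets any colour. -/

open Finset

namespace Pool.FC7

open Pool.FC6 Pool.FC6.St

variable {D V : Type} [Fintype D] [DecidableEq V] {S : St D V} {L : D → Bool} {w : D → ℕ} {Δ : ℕ}

/-- two darts on a curve between a part and its complement, or at an alive vertex in no part -/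
def Mx {ι : Type} (S : St D V) (p : ι → V → Bool) (d : D) : Prop :=
  (∃ i, p i (S.M.v d) ≠ p i (S.M.v (S.M.α d))) ∨ (S.M.v d ∈ S.A ∧ ∀ i, p i (S.M.v d) = false)

/-- gluing of several parts: all mixed darts outside of an unvisited face `Q` belong to one class -/
theorem glueP {ι : Type} (rA : ∀ d, S.real d = true → S.M.v d ∈ S.A)
    (rα : ∀ d, S.real (S.M.α d) = S.real d) (uA : ∀ d, S.u d ≠ 0 → S.M.v d ∈ S.A)
    (Lr : ∀ d, L d = true → S.real d = true) {p : ι → V → Bool} {c : V → Bool} {Q : D → Prop}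
    (Qφ : ∀ d, Q (S.M.φ d) ↔ Q d) (Qo : ∀ d, S.Op c d → ¬ Q d ∧ ¬ Q (S.M.α d))
    {d0 : D} (hd0 : ∀ i, p i (S.M.v d0) ≠ p i (S.M.v (S.M.α d0))) (hQ0 : ¬ Q d0)
    (inv : ∀ h : D → ℝ, S.Test c h → (∀ d, Q d → h d = h d0) → ∀ d, Mx S p d → h d = h d0)
    (hB : ∃ e, Br S c e)
    (hs : ∀ i, ∃ cb : V → Bool, (∀ x ∈ S.A, p i x = true → c x = cb x) ∧
      Sol (sd S w (p i) true) (sdL S L (p i) true) cb ∧ Vi (sd S w (p i) true) cb d0)
    (Qv : ∀ d, Q d → ∃ d', S.M.v d' = S.M.v d ∧ ¬ Q d' ∧ (Mx S p d' ∨ Mx S p (S.M.φ (S.M.φ d'))))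
    (hm : ∀ x ∈ S.A, (∀ i, p i x = false) → ∃ d, S.M.v d = x ∧ ¬ Q d)
    (Qu : ∀ d, Q d → S.u d = 0)
    (QL : ∀ d, Q d → ¬ Mx S p d → L d = false)
    (Lα : ∀ d, L (S.M.α d) = L d)
    (Qm : ∀ d, Mx S p d → S.real d = true → ¬ Q d ∨ (¬ Q (S.M.α d) ∧ Mx S p (S.M.α d))) :
    Sol S L c := by
  classical
  -- the parts: colourings which agree everywhere
  have hs' : ∀ i, ∃ cb : V → Bool, (∀ x, p i x = true → c x = cb x) ∧
      Sol (sd S w (p i) true) (sdL S L (p i) true) cb ∧ Vi (sd S w (p i) true) cb d0 := by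
    intro i
    obtain ⟨cb, h1, h2, h3⟩ := hs i
    have rA' : ∀ d, (sd S w (p i) true).real d = true → (sd S w (p i) true).M.v d ∈
        (sd S w (p i) true).A := by
      intro d hd
      obtain ⟨a1, a2, a3⟩ := (sd_real rA rα).1 hd
      show S.M.v d ∈ S.A \ (S.A.filter fun y => p i y ≠ true)
      rw [Finset.mem_sdiff, Finset.mem_filter]
      exact ⟨rA d a1, fun h0 => h0.2 a2⟩
    have rα' : ∀ d, (sd S w (p i) true).real ((sd S w (p i) true).M.α d) =
        (sd S w (p i) true).real d := by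
      intro d
      rw [Bool.eq_iff_iff, sd_real rA rα, show (sd S w (p i) true).M.α d = S.M.α d from rfl,
        sd_real rA rα, rα, S.M.αα]
      tauto
    have hc' : ∀ x ∈ (sd S w (p i) true).A, (if x ∈ S.A then cb x else c x) = cb x := by
      intro x hx
      have hx : x ∈ S.A \ (S.A.filter fun y => p i y ≠ true) := hx
      rw [if_pos (Finset.mem_sdiff.1 hx).1]
    refine ⟨fun x => if x ∈ S.A then cb x else c x, fun x hx => ?_, h2.congr rα' rA' hc',
      (vi_congr rα' rA' hc' _).2 h3⟩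
    show c x = if x ∈ S.A then cb x else c x
    by_cases hA : x ∈ S.A
    · rw [if_pos hA]; exact h1 x hA hx
    · rw [if_neg hA]
  -- the modified test function
  let hm' : (D → ℝ) → D → ℝ := fun h d => if Q d then h d0 else h d
  have hmn : ∀ (h : D → ℝ) d, ¬ Q d → hm' h d = h d := fun h d hd => if_neg hd
  have hmq : ∀ (h : D → ℝ) d, Q d → hm' h d = h d0 := fun h d hd => if_pos hd
  have hmt : ∀ h : D → ℝ, S.Test c h → S.Test c (hm' h) := by
    intro h ht
    refine ⟨fun d => ?_, fun d ho => ?_⟩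
    · show (if Q (S.M.φ d) then h d0 else h (S.M.φ d)) = if Q d then h d0 else h d
      by_cases h1 : Q d
      · rw [if_pos h1, if_pos ((Qφ d).2 h1)]
      · rw [if_neg h1, if_neg (fun h2 => h1 ((Qφ d).1 h2)), ht.1]
    · obtain ⟨h1, h2⟩ := Qo d ho
      rw [hmn h _ h1, hmn h _ h2]
      exact ht.2 d ho
  have hmi : ∀ h : D → ℝ, S.Test c h → ∀ d, Mx S p d → hm' h d = h d0 := by
    intro h ht d hd
    rw [inv _ (hmt h ht) (fun d hd => by rw [hmq h _ hd, hmn h _ hQ0]) d hd, hmn h _ hQ0]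
  have hmi' : ∀ i, ∀ h : D → ℝ, S.Test c h → ∀ d, p i (S.M.v d) ≠ p i (S.M.v (S.M.α d)) →
      hm' h d = h d0 := fun i h ht d hd => hmi h ht d (Or.inl ⟨i, hd⟩)
  have brn : ∀ d, Br S c d → ¬ Q d := fun d hd => (Qo d hd.op).1
  have hN0 : ∀ i, NF S.M (p i) true d0 := by
    intro i
    by_cases h2 : p i (S.M.v d0) = true
    · right; left
      rw [S.M.vφ]
      exact fun h3 => hd0 i (h2.trans h3.symm)
    · left; exact h2
  have one : ∀ i, ∀ d, Br S c d → p i (S.M.v d) = true → p i (S.M.v (S.M.α d)) = true →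
      ∀ h : D → ℝ, S.Test c h → h d = h d0 := by
    intro i d hd h1 h2 h ht
    obtain ⟨cb, hc, hS, hv⟩ := hs' i
    have hT1 := hh_test (b := true) (w := w) rA rα hc (hmt h ht) (hmi' i h ht)
    have hd' : Br (sd S w (p i) true) cb d := (sd_br rA rα hc).2 ⟨hd, h1, h2⟩
    obtain ⟨e, e1, e2⟩ := hv
    have k1 := hS.con _ hT1 d e hd' e1
    have k2 := e2 _ hT1
    rw [hh_eq (hmt h ht) (hmi' i h ht) h1, hmn h _ (brn d hd)] at k1
    rw [hh_nf (hN0 i)] at k2
    rw [k1, k2]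
  -- the position of a dart
  have cas : ∀ d, S.M.v d ∈ S.A → Mx S p d ∨ ∃ i, p i (S.M.v d) = true ∧
      p i (S.M.v (S.M.α d)) = true := by
    intro d hA
    by_cases h1 : ∃ i, p i (S.M.v d) = true
    · obtain ⟨i, hi⟩ := h1
      by_cases h2 : p i (S.M.v (S.M.α d)) = true
      · exact Or.inr ⟨i, hi, h2⟩
      · exact Or.inl (Or.inl ⟨i, fun h3 => h2 (h3.symm.trans hi)⟩)
    · push Not at h1
      exact Or.inl (Or.inr ⟨hA, fun i => by simpa using h1 i⟩)
  have brc : ∀ d, Br S c d → ∀ h : D → ℝ, S.Test c h → h d = h d0 := by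
    intro d hd h ht
    rcases cas d (rA d hd.1) with h1 | ⟨i, h1, h2⟩
    · have := hmi h ht d h1
      rwa [hmn h _ (brn d hd)] at this
    · exact one i d hd h1 h2 h ht
  -- the mixed darts are visited
  have v0 : Vi S c d0 := by
    obtain ⟨e, e1⟩ := hB
    exact ⟨e, e1, brc e e1⟩
  have vm : ∀ d, Mx S p d → ¬ Q d → Vi S c d := fun d hd hq =>
    v0.eq fun h ht => by
      have := hmi h ht d hd
      rw [hmn h _ hq] at this
      exact this.symm
  have tr : ∀ i cb, (∀ x, p i x = true → c x = cb x) → ∀ d, p i (S.M.v d) = true → ¬ Q d →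
      Vi (sd S w (p i) true) cb d → Vi S c d := by
    intro i cb hc d hd hq hvd
    obtain ⟨e, e1, e2⟩ := hvd
    obtain ⟨f1, f2, f3⟩ := (sd_br rA rα hc).1 e1
    refine ⟨e, f1, fun h ht => ?_⟩
    have hT1 := hh_test (b := true) (w := w) rA rα hc (hmt h ht) (hmi' i h ht)
    have := e2 _ hT1
    rwa [hh_eq (hmt h ht) (hmi' i h ht) f2, hh_eq (hmt h ht) (hmi' i h ht) hd,
      hmn h _ (brn e f1), hmn h _ hq] at this
  refine ⟨fun h ht d d' hd hd' => ?_, fun x hx => ?_, fun d hd => ?_, fun d hd => ?_⟩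
  · rw [brc d hd h ht, brc d' hd' h ht]
  · by_cases hp : ∃ i, p i x = true
    · obtain ⟨i, hi⟩ := hp
      obtain ⟨cb, hc, hS, hv⟩ := hs' i
      obtain ⟨d, hd, hvd⟩ := hS.live x (by
        show x ∈ S.A \ (S.A.filter fun y => p i y ≠ true)
        simp [hx, hi])
      have hd' : S.M.v d = x := hd
      by_cases hq : Q d
      · obtain ⟨d', e1, e2, e3⟩ := Qv d hq
        refine ⟨d', e1.trans hd', ?_⟩
        rcases e3 with e3 | e3
        · exact vm d' e3 e2
        · have := (vm _ e3 (fun h4 => e2 ((Qφ _).1 ((Qφ _).1 h4)))).φ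
          rwa [S.M.φ3] at this
      · exact ⟨d, hd', tr i cb hc d (by rw [hd']; exact hi) hq hvd⟩
    · push Not at hp
      obtain ⟨d, h1, h2⟩ := hm x hx fun i => by simpa using hp i
      exact ⟨d, h1, vm d (Or.inr ⟨by rw [h1]; exact hx, fun i => by
        rw [h1]; simpa using hp i⟩) h2⟩
  · have hA := uA d hd
    have hq : ¬ Q d := fun hq => hd (Qu d hq)
    by_cases hp : ∃ i, p i (S.M.v d) = true
    · obtain ⟨i, hi⟩ := hp
      obtain ⟨cb, hc, hS, hv⟩ := hs' i
      refine tr i cb hc d hi hq (hS.req d ?_)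
      show (if S.M.v d ∈ (S.A.filter fun y => p i y ≠ true) then 0 else S.u d +
        (if S.real d = true ∧ S.M.v (S.M.α d) ∈ (S.A.filter fun y => p i y ≠ true) then
          1 + w d else 0)) ≠ 0
      rw [if_neg (by simp [hi])]
      omega
    · push Not at hp
      exact vm d (Or.inr ⟨hA, fun i => by simpa using hp i⟩) hq
  · have hr := Lr d hd
    rcases cas d (rA d hr) with h1 | ⟨i, h1, h2⟩
    · rcases Qm d h1 hr with h2 | ⟨h2, h3⟩
      · exact Or.inl (vm d h1 h2)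
      · exact Or.inr (vm _ h3 h2)
    · obtain ⟨cb, hc, hS, hv⟩ := hs' i
      have hl : sdL S L (p i) true d = true := by
        show (L d && (sd S w (p i) true).real d) = true
        rw [hd, (sd_real rA rα).2 ⟨hr, h1, h2⟩]; rfl
      by_cases hmx : Mx S p d
      · rcases Qm d hmx hr with h3 | ⟨h3, h4⟩
        · exact Or.inl (vm d hmx h3)
        · exact Or.inr (vm _ h4 h3)
      · have q1 : ¬ Q d := fun hq => by
          rw [QL d hq hmx] at hd
          exact absurd hd (by decide)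
        rcases hS.lab d hl with h3 | h3
        · exact Or.inl (tr i cb hc d h1 q1 h3)
        · by_cases q2 : Q (S.M.α d)
          · by_cases hmx' : Mx S p (S.M.α d)
            · rcases Qm _ hmx' (by rw [rα]; exact hr) with h4 | ⟨-, h4⟩
              · exact absurd q2 h4
              · rw [S.M.αα] at h4
                exact absurd h4 hmx
            · have := QL _ q2 hmx'
              rw [Lα, hd] at this
              exact absurd this (by decide)
          · exact Or.inr (tr i cb hc _ h2 q2 h3)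

/-- cuts which agree on the alive vertices -/
theorem rc_congr (W : Wf Δ S L w) {s s' : V → Bool} (h : ∀ x ∈ S.A, s' x = s x) :
    S.rc s' = S.rc s := by
  unfold St.rc
  refine Finset.sum_congr rfl fun d _ => ?_
  by_cases hr : S.real d = true
  · rw [h _ (W.real_A d hr), h _ (W.real_A _ (by rw [W.real_α]; exact hr))]
  · rw [if_neg (fun h5 => hr h5.1), if_neg (fun h5 => hr h5.1)]

/-- the choice of the sides of the faces -/
theorem MC.fix (hΔ : Δ ≤ 6) (h : MC Δ S L w) {s : V → Bool} (h7 : S.rc s ≤ 7)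
    (hA1 : ∃ x ∈ S.A, s x = true) (hA2 : ∃ x ∈ S.A, s x = false) :
    ∃ s0 : V → Bool, (∀ x ∈ S.A, s0 x = s x) ∧ ConS S.M s0 true ∧ ConS S.M s0 false := by
  classical
  have W := h.ok.toWf
  let P : ℕ → Prop := fun n => ∃ s' : V → Bool, (∀ x ∈ S.A, s' x = s x) ∧ mc S.M s' = n
  have hP : ∃ n, P n := ⟨_, s, fun _ _ => rfl, rfl⟩
  obtain ⟨s0, a1, a2⟩ := Nat.find_spec hP
  have hmin : ∀ s' : V → Bool, (∀ x ∈ S.A, s' x = s0 x) → mc S.M s0 ≤ mc S.M s' := by
    intro s' b1
    rw [a2]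
    exact Nat.find_min' hP ⟨s', fun x hx => (b1 x hx).trans (a1 x hx), rfl⟩
  have h7' : S.rc s0 ≤ 7 := by rw [rc_congr W a1]; exact h7
  have one : ∀ b, (∃ x ∈ S.A, s x = b) → ∃ x ∈ S.A, s0 x = b := by
    rintro b ⟨x, hx, sx⟩
    exact ⟨x, hx, by rw [a1 x hx, sx]⟩
  have c4 : ∀ s : V → Bool, (∃ x ∈ S.A, s x = true) → (∃ x ∈ S.A, s x = false) → 4 ≤ S.rc s :=
    fun _ k1 k2 => h.cut4 hΔ k1 k2
  have hT : ConS S.M s0 true := con_of_fix c4 h7' (one _ hA2) hmin
  have hF' : ConS S.M (fun x => !s0 x) true := by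
    refine con_of_fix c4 (by rw [rc_neg W.real_α]; exact h7') ?_ fun s' b1 => ?_
    · obtain ⟨x, hx, sx⟩ := one _ hA1
      exact ⟨x, hx, by rw [sx]; rfl⟩
    · rw [mc_neg, ← mc_neg S.M s']
      exact hmin _ fun x hx => by
        show (!s' x) = s0 x
        rw [b1 x hx, Bool.not_not]
  refine ⟨s0, a1, hT, ?_⟩
  intro f hf d d' hd hd'
  refine hF' f (fun e h3 h4 => hf e (by simpa using h3) (by simpa using h4)) d d' ?_ ?_
  · simpa using hd
  · simpa using hd'

/-- the solution of one side -/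
theorem MC.part (hΔ : Δ ≤ 6) (h : MC Δ S L w) {s : V → Bool} (hT : ConS S.M s true)
    (hF : ConS S.M s false) (h7 : S.rc s ≤ 7) (h2 : S.Two s true)
    (hA2 : ∃ x ∈ S.A, s x = false) :
    ∃ cb, Sol (sd S w s true) (sdL S L s true) cb ∧ ∀ cb, Sol (sd S w s true) (sdL S L s true) cb →
      ∀ d0, s (S.M.v d0) ≠ s (S.M.v (S.M.α d0)) → Vi (sd S w s true) cb d0 := by
  classical
  have W := h.ok.toWf
  have hA1 : ∃ x ∈ S.A, s x = true := by
    obtain ⟨x, hx, -, -, -, sx, -⟩ := h2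
    exact ⟨x, hx, sx⟩
  obtain ⟨d, hd⟩ := h.inner hΔ h7 h2
  have hne : ∃ d, (S.del (S.A.filter fun x => s x ≠ true)).real d = true :=
    ⟨d, (sd_real (w := w) W.real_A W.real_α).2 hd⟩
  obtain ⟨z, hz, hzb⟩ := hA2
  obtain ⟨cb, hcb⟩ := h.min D V _ _ _ (h.w1.dl _) (h.ok.dl hne) (mu_dl h.ok hΔ
    (Finset.filter_subset _ _) ⟨z, Finset.mem_filter.2 ⟨hz, by rw [hzb]; decide⟩⟩ hne)
  exact ⟨cb, hcb, fun cb hcb d0 hd0 => hole_vi h.ok hT hF hA1 ⟨z, hz, hzb⟩ hd0 hcb⟩

end Pool.FC7
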