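import Pool.Agent.FC7.R5A

/-! # Cuts with four real edges next to a vertex of real degree four: the three parts -/

open Finset

namespace Pool.FC7

open Pool.FC6 Pool.FC6.St

variable {D V : Type} [Fintype D] [DecidableEq V] {S : St D V} {L : D → Bool} {w : D → ℕ} {Δ : ℕ}

/-- two parts `p1`, `p2` and a vertex `x0` of real degree four, two of its edges to each part, and two
real edges between the parts -/
structure Rs (S : St D V) (p1 p2 : V → Bool) (x0 : V) (t1 t2 t3 t4 e3 e4 : D) : Prop where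
  xA : x0 ∈ S.A
  r1 : S.real t1 = true
  r2 : S.real t2 = true
  r3 : S.real t3 = true
  r4 : S.real t4 = true
  g3 : S.real e3 = true
  g4 : S.real e4 = true
  v1 : S.M.v t1 = x0
  v2 : S.M.v t2 = x0
  v3 : S.M.v t3 = x0
  v4 : S.M.v t4 = x0
  a1 : p1 (S.M.v (S.M.α t1)) = true
  a2 : p1 (S.M.v (S.M.α t2)) = true
  a3 : p2 (S.M.v (S.M.α t3)) = true
  a4 : p2 (S.M.v (S.M.α t4)) = true
  b3 : p1 (S.M.v e3) = true
  b4 : p1 (S.M.v e4) = true
  c3 : p2 (S.M.v (S.M.α e3)) = true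
  c4 : p2 (S.M.v (S.M.α e4)) = true
  R : ∀ d, S.real d = true → S.M.v d = x0 → d = t1 ∨ d = t2 ∨ d = t3 ∨ d = t4
  E : ∀ d, S.real d = true → p1 (S.M.v d) = true → p2 (S.M.v (S.M.α d)) = true → d = e3 ∨ d = e4
  n12 : t1 ≠ t2
  n34 : t3 ≠ t4
  ne : e3 ≠ e4
  part : ∀ x ∈ S.A, x ≠ x0 → (p1 x = true ∧ p2 x = false) ∨ (p1 x = false ∧ p2 x = true)
  z1 : p1 x0 = false
  z2 : p2 x0 = false

section

variable {p1 p2 : V → Bool} {x0 : V} {t1 t2 t3 t4 e3 e4 : D}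

theorem Rs.symm (X : Rs S p1 p2 x0 t1 t2 t3 t4 e3 e4) (rα : ∀ d, S.real (S.M.α d) = S.real d) :
    Rs S p2 p1 x0 t3 t4 t1 t2 (S.M.α e3) (S.M.α e4) where
  xA := X.xA
  r1 := X.r3
  r2 := X.r4
  r3 := X.r1
  r4 := X.r2
  g3 := by rw [rα]; exact X.g3
  g4 := by rw [rα]; exact X.g4
  v1 := X.v3
  v2 := X.v4
  v3 := X.v1
  v4 := X.v2
  a1 := X.a3
  a2 := X.a4
  a3 := X.a1
  a4 := X.a2
  b3 := X.c3
  b4 := X.c4
  c3 := by rw [S.M.αα]; exact X.b3
  c4 := by rw [S.M.αα]; exact X.b4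
  R d h1 h2 := by
    rcases X.R d h1 h2 with h | h | h | h
    · exact Or.inr (Or.inr (Or.inl h))
    · exact Or.inr (Or.inr (Or.inr h))
    · exact Or.inl h
    · exact Or.inr (Or.inl h)
  E d h1 h2 h3 := by
    rcases X.E (S.M.α d) (by rw [rα]; exact h1) h3 (by rw [S.M.αα]; exact h2) with h | h
    · left; rw [← h, S.M.αα]
    · right; rw [← h, S.M.αα]
  n12 := X.n34
  n34 := X.n12
  ne := fun h => X.ne (S.M.αinj h)
  part x hx hn := (X.part x hx hn).symm.imp And.symm And.symm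
  z1 := X.z2
  z2 := X.z1

/-- the parts are disjoint -/
theorem Rs.p2_of (X : Rs S p1 p2 x0 t1 t2 t3 t4 e3 e4) {x : V} (hx : x ∈ S.A)
    (h : p1 x = true) : p2 x = false := by
  have hn : x ≠ x0 := fun h0 => by
    rw [h0, X.z1] at h
    exact absurd h (by decide)
  rcases X.part x hx hn with h1 | h1
  · exact h1.2
  · rw [h] at h1
    exact absurd h1.1 (by decide)

theorem Rs.p1_of (X : Rs S p1 p2 x0 t1 t2 t3 t4 e3 e4) {x : V} (hx : x ∈ S.A)
    (h : p2 x = true) : p1 x = false := by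
  have hn : x ≠ x0 := fun h0 => by
    rw [h0, X.z2] at h
    exact absurd h (by decide)
  rcases X.part x hx hn with h1 | h1
  · rw [h] at h1
    exact absurd h1.2 (by decide)
  · exact h1.1

/-- the cut of the first part -/
theorem Rs.kc1 [DecidableEq D] (X : Rs S p1 p2 x0 t1 t2 t3 t4 e3 e4) (W : Wf Δ S L w)
    {s : V → Bool} (hs : ∀ x ∈ S.A, s x = p1 x) :
    kc S s = {S.M.α t1, S.M.α t2, e3, e4} := by
  have rα := W.real_α
  have rA := W.real_A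
  have rA' : ∀ d, S.real d = true → S.M.v (S.M.α d) ∈ S.A := fun d hd =>
    rA _ (by rw [rα]; exact hd)
  ext d
  rw [mem_kc]
  simp only [Finset.mem_insert, Finset.mem_singleton]
  constructor
  · rintro ⟨h1, h2, h3⟩
    rw [hs _ (rA d h1)] at h2
    rw [hs _ (rA' d h1)] at h3
    by_cases h0 : S.M.v (S.M.α d) = x0
    · rcases X.R (S.M.α d) (by rw [rα]; exact h1) h0 with h | h | h | h
      · left; rw [← h, S.M.αα]
      · right; left; rw [← h, S.M.αα]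
      · exfalso
        have h4 := X.a3
        rw [← h, S.M.αα] at h4
        rw [X.p1_of (rA d h1) h4] at h2
        exact absurd h2 (by decide)
      · exfalso
        have h4 := X.a4
        rw [← h, S.M.αα] at h4
        rw [X.p1_of (rA d h1) h4] at h2
        exact absurd h2 (by decide)
    · right; right
      rcases X.part _ (rA' d h1) h0 with h4 | h4
      · rw [h4.1] at h3
        exact absurd h3 (by decide)
      · exact X.E d h1 h2 h4.2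
  · rintro (rfl | rfl | rfl | rfl)
    · refine ⟨by rw [rα]; exact X.r1, ?_, ?_⟩
      · rw [hs _ (rA' _ X.r1)]; exact X.a1
      · rw [S.M.αα, X.v1, hs _ X.xA]; exact X.z1
    · refine ⟨by rw [rα]; exact X.r2, ?_, ?_⟩
      · rw [hs _ (rA' _ X.r2)]; exact X.a2
      · rw [S.M.αα, X.v2, hs _ X.xA]; exact X.z1
    · refine ⟨X.g3, ?_, ?_⟩
      · rw [hs _ (rA _ X.g3)]; exact X.b3
      · rw [hs _ (rA' _ X.g3)]; exact X.p1_of (rA' _ X.g3) X.c3
    · refine ⟨X.g4, ?_, ?_⟩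
      · rw [hs _ (rA _ X.g4)]; exact X.b4
      · rw [hs _ (rA' _ X.g4)]; exact X.p1_of (rA' _ X.g4) X.c4

theorem Rs.ne13 (X : Rs S p1 p2 x0 t1 t2 t3 t4 e3 e4) (W : Wf Δ S L w) : t1 ≠ t3 := by
  intro h
  have h1 := X.p2_of (W.real_A _ (by rw [W.real_α]; exact X.r1)) X.a1
  rw [h, X.a3] at h1
  exact absurd h1 (by decide)

theorem Rs.ne14 (X : Rs S p1 p2 x0 t1 t2 t3 t4 e3 e4) (W : Wf Δ S L w) : t1 ≠ t4 := by
  intro h
  have h1 := X.p2_of (W.real_A _ (by rw [W.real_α]; exact X.r1)) X.a1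
  rw [h, X.a4] at h1
  exact absurd h1 (by decide)

theorem Rs.ne23 (X : Rs S p1 p2 x0 t1 t2 t3 t4 e3 e4) (W : Wf Δ S L w) : t2 ≠ t3 := by
  intro h
  have h1 := X.p2_of (W.real_A _ (by rw [W.real_α]; exact X.r2)) X.a2
  rw [h, X.a3] at h1
  exact absurd h1 (by decide)

theorem Rs.ne24 (X : Rs S p1 p2 x0 t1 t2 t3 t4 e3 e4) (W : Wf Δ S L w) : t2 ≠ t4 := by
  intro h
  have h1 := X.p2_of (W.real_A _ (by rw [W.real_α]; exact X.r2)) X.a2
  rw [h, X.a4] at h1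
  exact absurd h1 (by decide)

theorem Rs.neE (X : Rs S p1 p2 x0 t1 t2 t3 t4 e3 e4) {e : D} (he : p2 (S.M.v (S.M.α e)) = true)
    {t : D} (ht : S.M.v t = x0) : S.M.α t ≠ e := by
  intro h
  rw [← h, S.M.αα, ht, X.z2] at he
  exact absurd he (by decide)

/-- the sum over the edges at `x0` -/
theorem Rs.sum0 (X : Rs S p1 p2 x0 t1 t2 t3 t4 e3 e4) (W : Wf Δ S L w) {c : V → Bool} {h : D → ℝ}
    (ht : S.Test c h) : (h t1 - h (S.M.α t1)) + (h t2 - h (S.M.α t2)) +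
      (h t3 - h (S.M.α t3)) + (h t4 - h (S.M.α t4)) = 0 := by
  classical
  have h1 := cut_idT (s := fun x => decide (x = x0)) (c := c) W.real_α ht.1
    (fun d hd => ht.2 d (Or.inl hd)) (fun d _ _ hd => ht.2 d (Or.inr hd)) (fun _ => (1 : ℝ))
  have hK : kc S (fun x => decide (x = x0)) = {t1, t2, t3, t4} := by
    ext d
    rw [mem_kc]
    simp only [Finset.mem_insert, Finset.mem_singleton, decide_eq_true_eq, decide_eq_false_iff_not]
    constructor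
    · rintro ⟨h1, h2, -⟩
      exact X.R d h1 h2
    · rintro (rfl | rfl | rfl | rfl)
      · exact ⟨X.r1, X.v1, fun h0 => W.real_ne _ X.r1 (X.v1.trans h0.symm)⟩
      · exact ⟨X.r2, X.v2, fun h0 => W.real_ne _ X.r2 (X.v2.trans h0.symm)⟩
      · exact ⟨X.r3, X.v3, fun h0 => W.real_ne _ X.r3 (X.v3.trans h0.symm)⟩
      · exact ⟨X.r4, X.v4, fun h0 => W.real_ne _ X.r4 (X.v4.trans h0.symm)⟩
  rw [sum4 hK X.n12 (X.ne13 W) (X.ne14 W) (X.ne23 W) (X.ne24 W) X.n34] at h1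
  linarith

/-- the sum over the cut of the first part -/
theorem Rs.sum1 (X : Rs S p1 p2 x0 t1 t2 t3 t4 e3 e4) (W : Wf Δ S L w) {c : V → Bool} {h : D → ℝ}
    (ht : S.Test c h) (F : Bool → ℝ) :
    (h (S.M.α t1) - h t1) * F (c (S.M.v (S.M.α t1))) +
      (h (S.M.α t2) - h t2) * F (c (S.M.v (S.M.α t2))) +
      (h e3 - h (S.M.α e3)) * F (c (S.M.v e3)) + (h e4 - h (S.M.α e4)) * F (c (S.M.v e4)) = 0 := by
  classical
  have h1 := cut_idT (s := p1) (c := c) W.real_α ht.1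
    (fun d hd => ht.2 d (Or.inl hd)) (fun d _ _ hd => ht.2 d (Or.inr hd)) F
  rw [sum4 (X.kc1 W fun _ _ => rfl) (fun h0 => X.n12 (S.M.αinj h0)) (X.neE X.c3 X.v1)
    (X.neE X.c4 X.v1) (X.neE X.c3 X.v2) (X.neE X.c4 X.v2) X.ne, S.M.αα, S.M.αα] at h1
  exact h1

/-- the differences at the six edges vanish -/
def Six0 (S : St D V) (h : D → ℝ) (t1 t2 t3 t4 e3 e4 : D) : Prop :=
  h (S.M.α t1) = h t1 ∧ h (S.M.α t2) = h t2 ∧ h (S.M.α t3) = h t3 ∧ h (S.M.α t4) = h t4 ∧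
    h (S.M.α e3) = h e3 ∧ h (S.M.α e4) = h e4

theorem Six0.symm {h : D → ℝ} (h0 : Six0 S h t1 t2 t3 t4 e3 e4) :
    Six0 S h t3 t4 t1 t2 (S.M.α e3) (S.M.α e4) := by
  obtain ⟨h1, h2, h3, h4, h5, h6⟩ := h0
  refine ⟨h3, h4, h1, h2, ?_, ?_⟩
  · rw [S.M.αα]; exact h5.symm
  · rw [S.M.αα]; exact h6.symm

/-- four edges: monochromatic ones have different colours -/
def P4d (a1 a2 a3 a4 b1 b2 b3 b4 : Bool) : Bool :=
  !(a1 == b1 && a2 == b2 && a1 == a2) && !(a1 == b1 && a3 == b3 && a1 == a3) &&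
    !(a1 == b1 && a4 == b4 && a1 == a4) && !(a2 == b2 && a3 == b3 && a2 == a3) &&
    !(a2 == b2 && a4 == b4 && a2 == a4) && !(a3 == b3 && a4 == b4 && a3 == a4)

omit [Fintype D] [DecidableEq V] in
/-- four numbers -/
theorem four0 {x1 x2 x3 x4 : ℝ} {a1 a2 a3 a4 b1 b2 b3 b4 : Bool}
    (hs : ∀ F : Bool → ℝ, x1 * F a1 + x2 * F a2 + x3 * F a3 + x4 * F a4 = 0)
    (h1 : a1 ≠ b1 → x1 = 0) (h2 : a2 ≠ b2 → x2 = 0) (h3 : a3 ≠ b3 → x3 = 0)
    (h4 : a4 ≠ b4 → x4 = 0) (hp : P4d a1 a2 a3 a4 b1 b2 b3 b4 = true) :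
    x1 = 0 ∧ x2 = 0 ∧ x3 = 0 ∧ x4 = 0 := by
  have hT := hs (fun b => if b then 1 else 0)
  have hF := hs (fun b => if b then 0 else 1)
  unfold P4d at hp
  revert hT hF h1 h2 h3 h4 hp
  cases a1 <;> cases a2 <;> cases a3 <;> cases a4 <;> cases b1 <;> cases b2 <;> cases b3 <;>
    cases b4 <;> simp <;> intros <;> (try subst_vars) <;> (try simp_all) <;> (try linarith)

end

end Pool.FC7
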