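import Pool.Agent.FC7.R5B

/-! # Cuts with four real edges next to a vertex of real degree four: the case analysis -/

open Finset

namespace Pool.FC7

open Pool.FC6 Pool.FC6.St

variable {D V : Type} [Fintype D] [DecidableEq V] {S : St D V} {L : D → Bool} {w : D → ℕ} {Δ : ℕ}

section

variable {p1 p2 : V → Bool} {x0 : V} {t1 t2 t3 t4 e3 e4 : D}

/-- all differences vanish, if the monochromatic edges at the first part have different colours -/
theorem Rs.six_of (X : Rs S p1 p2 x0 t1 t2 t3 t4 e3 e4) (W : Wf Δ S L w) {c : V → Bool} {h : D → ℝ}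
    (ht : S.Test c h)
    (hp : P4d (c (S.M.v (S.M.α t1))) (c (S.M.v (S.M.α t2))) (c (S.M.v e3)) (c (S.M.v e4)) (c x0)
      (c x0) (c (S.M.v (S.M.α e3))) (c (S.M.v (S.M.α e4))) = true)
    (hm : c (S.M.v (S.M.α t3)) ≠ c x0 ∨ c (S.M.v (S.M.α t4)) ≠ c x0) :
    Six0 S h t1 t2 t3 t4 e3 e4 := by
  have h1 := four0 (fun F => X.sum1 W ht F) (fun hn => by
      have := ht.2 t1 (Or.inr (by rw [X.v1]; exact hn.symm))
      linarith) (fun hn => by
      have := ht.2 t2 (Or.inr (by rw [X.v2]; exact hn.symm))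
      linarith) (fun hn => by
      have := ht.2 e3 (Or.inr hn)
      linarith) (fun hn => by
      have := ht.2 e4 (Or.inr hn)
      linarith) hp
  obtain ⟨k1, k2, k3, k4⟩ := h1
  have h2 := X.sum0 W ht
  rcases hm with h3 | h3
  · have h4 := ht.2 t3 (Or.inr (by rw [X.v3]; exact h3.symm))
    exact ⟨by linarith, by linarith, by linarith, by linarith, by linarith, by linarith⟩
  · have h4 := ht.2 t4 (Or.inr (by rw [X.v4]; exact h3.symm))
    exact ⟨by linarith, by linarith, by linarith, by linarith, by linarith, by linarith⟩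

/-- the value at the darts of a vertex -/
theorem mid_const (W : Wf Δ S L w) {c : V → Bool} {h : D → ℝ} (ht : S.Test c h) {x : V} {m : ℝ}
    (hr : ∀ d, S.real d = true → S.M.v d = x → h d = m) {t : D} (rt : S.real t = true)
    (vt : S.M.v t = x) : ∀ d, S.M.v d = x → h d = m := by
  intro d hd
  obtain ⟨n, hn⟩ := S.M.σ_orbit (hd.trans vt.symm)
  induction n generalizing d with
  | zero =>
    have hn : d = t := hn
    exact hr d (by rw [hn]; exact rt) hd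
  | succ n ih =>
    cases hr' : S.real d
    · rw [Function.iterate_succ_apply] at hn
      have h1 := ih (S.M.σ d) (by rw [S.M.vσ]; exact hd) hn
      have h2 : h (S.M.σ d) = h (S.M.α d) := ht.1 (S.M.α d)
      rw [← h1, h2]
      exact (ht.2 d (Or.inl hr')).symm
    · exact hr d hr' hd

/-- the two cut functions, adjusted at the faces -/
structure Rf (S : St D V) (p1 p2 s1 s2 : V → Bool) : Prop where
  h1 : ∀ x ∈ S.A, s1 x = p1 x
  h2 : ∀ x ∈ S.A, s2 x = p2 x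
  T1 : ConS S.M s1 true
  F1 : ConS S.M s1 false
  T2 : ConS S.M s2 true
  F2 : ConS S.M s2 false

theorem Rf.symm {s1 s2 : V → Bool} (h : Rf S p1 p2 s1 s2) : Rf S p2 p1 s2 s1 :=
  ⟨h.h2, h.h1, h.T2, h.F2, h.T1, h.F1⟩

/-- the parts as a family -/
def ppr (s1 s2 : V → Bool) (b : Bool) : V → Bool := if b then s1 else s2

/-- a test function with vanishing differences is constant on the mixed darts -/
theorem Rs.inv_all (X : Rs S p1 p2 x0 t1 t2 t3 t4 e3 e4) (W : Wf Δ S L w) {s1 s2 : V → Bool}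
    (Y : Rf S p1 p2 s1 s2) {c : V → Bool} {h : D → ℝ} (ht : S.Test c h)
    (h6 : Six0 S h t1 t2 t3 t4 e3 e4) {d : D} (hd : Mx S (ppr s1 s2) d) : h d = h e3 := by
  classical
  have rα := W.real_α
  have rA := W.real_A
  have rA' : ∀ d, S.real d = true → S.M.v (S.M.α d) ∈ S.A := fun d hd =>
    rA _ (by rw [rα]; exact hd)
  obtain ⟨k1, k2, k3, k4, k5, k6⟩ := h6
  have m1 : s1 (S.M.v e3) ≠ s1 (S.M.v (S.M.α e3)) := by
    rw [Y.h1 _ (rA _ X.g3), Y.h1 _ (rA' _ X.g3), X.b3, X.p1_of (rA' _ X.g3) X.c3]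
    decide
  have m2 : s2 (S.M.v e3) ≠ s2 (S.M.v (S.M.α e3)) := by
    rw [Y.h2 _ (rA _ X.g3), Y.h2 _ (rA' _ X.g3), X.c3, X.p2_of (rA _ X.g3) X.b3]
    decide
  have K1 : ∀ k ∈ kc S s1, h (S.M.α k) = h k := by
    intro k hk
    rw [X.kc1 W Y.h1] at hk
    simp only [Finset.mem_insert, Finset.mem_singleton] at hk
    rcases hk with rfl | rfl | rfl | rfl
    · rw [S.M.αα]; exact k1.symm
    · rw [S.M.αα]; exact k2.symm
    · exact k5
    · exact k6
  have K2 : ∀ k ∈ kc S s2, h (S.M.α k) = h k := by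
    intro k hk
    rw [(X.symm rα).kc1 W Y.h2] at hk
    simp only [Finset.mem_insert, Finset.mem_singleton] at hk
    rcases hk with rfl | rfl | rfl | rfl
    · rw [S.M.αα]; exact k3.symm
    · rw [S.M.αα]; exact k4.symm
    · rw [S.M.αα]; exact k5.symm
    · rw [S.M.αα]; exact k6.symm
  have i1 : ∀ d, s1 (S.M.v d) ≠ s1 (S.M.v (S.M.α d)) → h d = h e3 := fun d hd =>
    inv_of rα Y.T1 Y.F1 ht K1 hd m1
  have i2 : ∀ d, s2 (S.M.v d) ≠ s2 (S.M.v (S.M.α d)) → h d = h e3 := fun d hd =>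
    inv_of rα Y.T2 Y.F2 ht K2 hd m2
  rcases hd with ⟨i, hi⟩ | ⟨h7, h8⟩
  · cases i
    · exact i2 d hi
    · exact i1 d hi
  · have e1 : s1 (S.M.v d) = false := h8 true
    have e2 : s2 (S.M.v d) = false := h8 false
    have e0 : S.M.v d = x0 := by
      by_contra hn
      rcases X.part _ h7 hn with h9 | h9
      · rw [Y.h1 _ h7, h9.1] at e1
        exact absurd e1 (by decide)
      · rw [Y.h2 _ h7, h9.2] at e2
        exact absurd e2 (by decide)
    refine mid_const W ht (fun t rt vt => ?_) X.r1 X.v1 d e0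
    have z1 : s1 x0 = false := by rw [Y.h1 _ X.xA]; exact X.z1
    have z2 : s2 x0 = false := by rw [Y.h2 _ X.xA]; exact X.z2
    rcases X.R t rt vt with rfl | rfl | rfl | rfl
    · refine i1 _ ?_
      rw [vt, z1, Y.h1 _ (rA' _ rt), X.a1]; decide
    · refine i1 _ ?_
      rw [vt, z1, Y.h1 _ (rA' _ rt), X.a2]; decide
    · refine i2 _ ?_
      rw [vt, z2, Y.h2 _ (rA' _ rt), X.a3]; decide
    · refine i2 _ ?_
      rw [vt, z2, Y.h2 _ (rA' _ rt), X.a4]; decide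

/-- the solutions of the two parts -/
structure Rv (S : St D V) (L : D → Bool) (w : D → ℕ) (s1 s2 : V → Bool) (a b : V → Bool) : Prop where
  Sa : Sol (sd S w s1 true) (sdL S L s1 true) a
  Va : ∀ d0, s1 (S.M.v d0) ≠ s1 (S.M.v (S.M.α d0)) → Vi (sd S w s1 true) a d0
  Sb : Sol (sd S w s2 true) (sdL S L s2 true) b
  Vb : ∀ d0, s2 (S.M.v d0) ≠ s2 (S.M.v (S.M.α d0)) → Vi (sd S w s2 true) b d0

/-- the colouring of the whole from the colourings of the parts and a colour for `x0` -/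
structure Rc (S : St D V) (p1 p2 : V → Bool) (a b c : V → Bool) : Prop where
  ca : ∀ x ∈ S.A, p1 x = true → c x = a x
  cb : ∀ x ∈ S.A, p2 x = true → c x = b x

theorem Rs.brs (X : Rs S p1 p2 x0 t1 t2 t3 t4 e3 e4) (W : Wf Δ S L w) {s1 s2 : V → Bool}
    (Y : Rf S p1 p2 s1 s2) {a b c : V → Bool} (Z : Rv S L w s1 s2 a b) (C : Rc S p1 p2 a b c) :
    ∃ e, Br S c e := by
  have rα := W.real_α
  have rA := W.real_A
  have rA' : ∀ d, S.real d = true → S.M.v (S.M.α d) ∈ S.A := fun d hd =>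
    rA _ (by rw [rα]; exact hd)
  have m1 : s1 (S.M.v e3) ≠ s1 (S.M.v (S.M.α e3)) := by
    rw [Y.h1 _ (rA _ X.g3), Y.h1 _ (rA' _ X.g3), X.b3, X.p1_of (rA' _ X.g3) X.c3]
    decide
  obtain ⟨e, ⟨e1, e2⟩, -⟩ := Z.Va e3 m1
  obtain ⟨f1, f2, f3⟩ := (sd_real rA rα).1 e1
  refine ⟨e, f1, ?_⟩
  rw [C.ca _ (rA e f1) (by rw [← Y.h1 _ (rA e f1)]; exact f2),
    C.ca _ (rA' e f1) (by rw [← Y.h1 _ (rA' e f1)]; exact f3)]
  exact e2

/-- the solution, if all differences vanish -/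
theorem Rs.sol_of_six (X : Rs S p1 p2 x0 t1 t2 t3 t4 e3 e4) (W : Wf Δ S L w) {s1 s2 : V → Bool}
    (Y : Rf S p1 p2 s1 s2) {a b c : V → Bool} (Z : Rv S L w s1 s2 a b) (C : Rc S p1 p2 a b c)
    (h6 : ∀ h : D → ℝ, S.Test c h → Six0 S h t1 t2 t3 t4 e3 e4) : Sol S L c := by
  have rα := W.real_α
  have rA := W.real_A
  have rA' : ∀ d, S.real d = true → S.M.v (S.M.α d) ∈ S.A := fun d hd =>
    rA _ (by rw [rα]; exact hd)
  have m1 : s1 (S.M.v e3) ≠ s1 (S.M.v (S.M.α e3)) := by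
    rw [Y.h1 _ (rA _ X.g3), Y.h1 _ (rA' _ X.g3), X.b3, X.p1_of (rA' _ X.g3) X.c3]
    decide
  have m2 : s2 (S.M.v e3) ≠ s2 (S.M.v (S.M.α e3)) := by
    rw [Y.h2 _ (rA _ X.g3), Y.h2 _ (rA' _ X.g3), X.c3, X.p2_of (rA _ X.g3) X.b3]
    decide
  refine glueP (p := ppr s1 s2) (Q := fun _ => False) (d0 := e3) (w := w) rA rα W.u_A W.L_real
    (fun _ => Iff.rfl) (fun _ _ => ⟨id, id⟩) (fun i => ?_) id
    (fun h ht _ d hd => X.inv_all W Y ht (h6 h ht) hd) (X.brs W Y Z C) (fun i => ?_)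
    (fun _ h => h.elim) (fun x hx h0 => ?_) (fun _ h => h.elim) (fun _ h => h.elim) W.L_α
    (fun _ _ _ => Or.inl id)
  · cases i
    · exact m2
    · exact m1
  · cases i
    · exact ⟨b, fun x hx h1 => C.cb x hx (by rw [← Y.h2 x hx]; exact h1), Z.Sb, Z.Vb e3 m2⟩
    · exact ⟨a, fun x hx h1 => C.ca x hx (by rw [← Y.h1 x hx]; exact h1), Z.Sa, Z.Va e3 m1⟩
  · obtain ⟨d, hd⟩ := W.A_im x hx
    exact ⟨d, hd, id⟩

/-- one of the two conditions for the colour `g` of `x0` and the change `r` of the second part -/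
def bck (A1 A2 A3 A4 B1 B2 B3 B4 g r : Bool) : Bool :=
  (P4d A1 A2 A3 A4 g g (xor B3 r) (xor B4 r) && (xor B1 r != g || xor B2 r != g)) ||
    (P4d (xor B1 r) (xor B2 r) (xor B3 r) (xor B4 r) g g A3 A4 && (A1 != g || A2 != g))

def bca (A1 A2 A3 A4 B1 B2 B3 B4 : Bool) : Bool :=
  bck A1 A2 A3 A4 B1 B2 B3 B4 false false || bck A1 A2 A3 A4 B1 B2 B3 B4 false true ||
    bck A1 A2 A3 A4 B1 B2 B3 B4 true false || bck A1 A2 A3 A4 B1 B2 B3 B4 true true ||
    (A1 == A2 && B1 == B2 && A3 == A4 && B3 == B4 && ((A3 == A1) == (B3 == B1)))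

theorem bca_true (A1 A2 A3 A4 B1 B2 B3 B4 : Bool) : bca A1 A2 A3 A4 B1 B2 B3 B4 = true := by
  cases A1 <;> cases A2 <;> cases A3 <;> cases A4 <;> cases B1 <;> cases B2 <;> cases B3 <;>
    cases B4 <;> rfl

/-- one of the four colourings works, or all edges are monochromatic -/
theorem bool_cases (A1 A2 A3 A4 B1 B2 B3 B4 : Bool) :
    (∃ g r : Bool, (P4d A1 A2 A3 A4 g g (xor B3 r) (xor B4 r) = true ∧
        (xor B1 r ≠ g ∨ xor B2 r ≠ g)) ∨
      (P4d (xor B1 r) (xor B2 r) (xor B3 r) (xor B4 r) g g A3 A4 = true ∧ (A1 ≠ g ∨ A2 ≠ g))) ∨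
    (A1 = A2 ∧ B1 = B2 ∧ A3 = A4 ∧ B3 = B4 ∧ (A3 = A1 ↔ B3 = B1)) := by
  have key : ∀ g r, bck A1 A2 A3 A4 B1 B2 B3 B4 g r = true →
      ∃ g r : Bool, (P4d A1 A2 A3 A4 g g (xor B3 r) (xor B4 r) = true ∧
        (xor B1 r ≠ g ∨ xor B2 r ≠ g)) ∨
      (P4d (xor B1 r) (xor B2 r) (xor B3 r) (xor B4 r) g g A3 A4 = true ∧ (A1 ≠ g ∨ A2 ≠ g)) := by
    intro g r h
    unfold bck at h
    rw [Bool.or_eq_true, Bool.and_eq_true, Bool.and_eq_true, Bool.or_eq_true, Bool.or_eq_true,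
      bne_iff_ne, bne_iff_ne, bne_iff_ne, bne_iff_ne] at h
    exact ⟨g, r, h⟩
  have h := bca_true A1 A2 A3 A4 B1 B2 B3 B4
  unfold bca at h
  simp only [Bool.or_eq_true, Bool.and_eq_true, beq_iff_eq] at h
  rcases h with (((h | h) | h) | h) | ⟨⟨⟨⟨h1, h2⟩, h3⟩, h4⟩, h5⟩
  · exact Or.inl (key _ _ h)
  · exact Or.inl (key _ _ h)
  · exact Or.inl (key _ _ h)
  · exact Or.inl (key _ _ h)
  · refine Or.inr ⟨h1, h2, h3, h4, ?_⟩
    rw [← beq_iff_eq (a := A3), ← beq_iff_eq (a := B3), h5]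

/-- THE CASE ANALYSIS: a solution exists, or all edges at `x0` to a part have the same colour and the
two other edges look the same -/
theorem Rs.main (X : Rs S p1 p2 x0 t1 t2 t3 t4 e3 e4) (W : Wf Δ S L w) {s1 s2 : V → Bool}
    (Y : Rf S p1 p2 s1 s2) {a b : V → Bool} (Z : Rv S L w s1 s2 a b) : (∃ c, Sol S L c) ∨
      (a (S.M.v (S.M.α t1)) = a (S.M.v (S.M.α t2)) ∧ b (S.M.v (S.M.α t3)) = b (S.M.v (S.M.α t4)) ∧
        a (S.M.v e3) = a (S.M.v e4) ∧ b (S.M.v (S.M.α e3)) = b (S.M.v (S.M.α e4)) ∧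
        (a (S.M.v e3) = a (S.M.v (S.M.α t1)) ↔ b (S.M.v (S.M.α e3)) = b (S.M.v (S.M.α t3)))) := by
  have rα := W.real_α
  have rA := W.real_A
  have rA' : ∀ d, S.real d = true → S.M.v (S.M.α d) ∈ S.A := fun d hd =>
    rA _ (by rw [rα]; exact hd)
  rcases bool_cases (a (S.M.v (S.M.α t1))) (a (S.M.v (S.M.α t2))) (a (S.M.v e3)) (a (S.M.v e4))
    (b (S.M.v (S.M.α t3))) (b (S.M.v (S.M.α t4))) (b (S.M.v (S.M.α e3)))
    (b (S.M.v (S.M.α e4))) with ⟨g, r, h0⟩ | h0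
  swap
  · exact Or.inr h0
  left
  obtain ⟨c, hc⟩ : ∃ c : V → Bool, ∀ x, c x = if p1 x = true then a x else if p2 x = true then
    xor (b x) r else g := ⟨_, fun _ => rfl⟩
  have ca : ∀ x ∈ S.A, p1 x = true → c x = a x := fun x _ h1 => by rw [hc, if_pos h1]
  have cb : ∀ x ∈ S.A, p2 x = true → c x = xor (b x) r := fun x hx h1 => by
    rw [hc, if_neg (by rw [X.p1_of hx h1]; decide), if_pos h1]
  have c0 : c x0 = g := by
    rw [hc, if_neg (by rw [X.z1]; decide), if_neg (by rw [X.z2]; decide)]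
  have Z' : Rv S L w s1 s2 a (fun x => xor (b x) r) := by
    cases r
    · simpa using Z
    · refine ⟨Z.Sa, Z.Va, by simpa using Z.Sb.neg, fun d0 hd0 => ?_⟩
      have := (vi_neg (S := sd S w s2 true) (c := b) d0).2 (Z.Vb d0 hd0)
      simpa using this
  have C : Rc S p1 p2 a (fun x => xor (b x) r) c := ⟨ca, cb⟩
  have C' : Rc S p2 p1 (fun x => xor (b x) r) a c := ⟨cb, ca⟩
  have e1 := ca _ (rA' _ X.r1) X.a1
  have e2 := ca _ (rA' _ X.r2) X.a2
  have e3' := ca _ (rA _ X.g3) X.b3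
  have e4' := ca _ (rA _ X.g4) X.b4
  have f1 := cb _ (rA' _ X.r3) X.a3
  have f2 := cb _ (rA' _ X.r4) X.a4
  have f3 := cb _ (rA' _ X.g3) X.c3
  have f4 := cb _ (rA' _ X.g4) X.c4
  refine ⟨c, ?_⟩
  rcases h0 with ⟨h1, h2⟩ | ⟨h1, h2⟩
  · refine X.sol_of_six W Y Z' C fun h ht => X.six_of W ht ?_ ?_
    · rw [e1, e2, e3', e4', f3, f4, c0]; exact h1
    · rw [f1, f2, c0]; exact h2
  · refine X.sol_of_six W Y Z' C fun h ht => ?_
    have := (X.symm rα).six_of W ht (by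
      rw [f1, f2, f3, f4, c0, S.M.αα, S.M.αα, e3', e4']; exact h1) (by
      rw [e1, e2, c0]; exact h2)
    have := this.symm
    rwa [S.M.αα, S.M.αα] at this

end

end Pool.FC7
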