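import Pool.Agent.FC7.Rlx

/-! # Relaxed condition for the cuts: the theorem -/

open Finset

namespace Pool.FC7

open Pool.FC6 Pool.FC6.St

/-- a state of the relaxed class with fewer vertices of degree at least four than a minimal
counterexample has a solution in which all strong faces are visited -/
theorem MC.relax {D1 V1 : Type} [Fintype D1] [DecidableEq V1] {S1 : St D1 V1} {L1 : D1 → Bool}
    {w1 : D1 → ℕ} {Δ : ℕ} (hmc : MC Δ S1 L1 w1) : ∀ (n : ℕ) (D V : Type) [Fintype D]
    [DecidableEq V] (S : St D V) (L : D → Bool) (w : D → ℕ), S.A.card ≤ n → W1 L w →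
    Rlc Δ S L w → n4 S < n4 S1 → ∃ c, Sol (st S) L c := by
  classical
  intro n
  induction n with
  | zero =>
    intro D V _ _ S L w hn _ h _
    obtain ⟨d, hd⟩ := h.ex
    have := h.real_A d hd
    rw [Finset.card_eq_zero.1 (Nat.le_zero.1 hn)] at this
    exact absurd this (Finset.notMem_empty _)
  | succ n ih =>
  intro D V _ _ S L w hn hw1 h hn4
  by_cases hbig : ∀ s : V → Bool, (∃ x ∈ S.A, s x = true) → (∃ x ∈ S.A, s x = false) → 4 ≤ S.rc s
  · exact hmc.min D V (st S) L w hw1 (h.toWf.st_ok hbig) (mu_lt_n4 hn4)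
  push Not at hbig
  obtain ⟨s, h1, h2, hc⟩ := hbig
  have hc : S.rc s ≤ 3 := by omega
  let P : ℕ → Prop := fun n => ∃ s : V → Bool, S.rc s ≤ 3 ∧ (∃ x ∈ S.A, s x = true) ∧
    (∃ x ∈ S.A, s x = false) ∧ mc S.M s = n
  have hP : ∃ n, P n := ⟨_, s, hc, h1, h2, rfl⟩
  obtain ⟨s0, a1, a2, a3, a4⟩ := Nat.find_spec hP
  have hmin : ∀ s' : V → Bool, S.rc s' ≤ 3 → (∃ x ∈ S.A, s' x = true) →
      (∃ x ∈ S.A, s' x = false) → mc S.M s0 ≤ mc S.M s' := by
    intro s' b1 b2 b3
    rw [a4]
    exact Nat.find_min' hP ⟨s', b1, b2, b3, rfl⟩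
  have hT : ConS S.M s0 true := con_of_min a1 a2 a3 hmin
  have hF' : ConS S.M (fun x => !s0 x) true := by
    refine con_of_min (by rw [rc_neg h.real_α]; exact a1) (by simpa using a3)
      (by simpa using a2) fun s' b1 b2 b3 => ?_
    rw [mc_neg]
    exact hmin s' b1 b2 b3
  have hF : ConS S.M s0 false := by
    intro f hf d d' hd hd'
    refine hF' f (fun e h3 h4 => hf e (by simpa using h3) (by simpa using h4)) d d' ?_ ?_
    · simpa using hd
    · simpa using hd'
  clear a4 hmin
  have rA := h.real_A
  have rα := h.real_α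
  obtain ⟨x, hx, hx'⟩ := a2
  obtain ⟨y, hy, hy'⟩ := a3
  obtain ⟨dx, rfl⟩ := h.A_im x hx
  obtain ⟨dy, rfl⟩ := h.A_im y hy
  obtain ⟨d0, he1, he2⟩ := exists_cut S.M hx' hy'
  have hd0 : s0 (S.M.v d0) ≠ s0 (S.M.v (S.M.α d0)) := by rw [he1, he2]; simp
  -- a side with a real edge has a solution
  have hsol : ∀ b : Bool, (∃ d, S.real d = true ∧ s0 (S.M.v d) = b ∧ s0 (S.M.v (S.M.α d)) = b) →
      ∃ cb, Sol (sd (st S) w s0 b) (sdL (st S) L s0 b) cb ∧ Vi (sd (st S) w s0 b) cb d0 := by
    rintro b ⟨d, hd⟩
    have hne : ∃ d, (S.del (S.A.filter fun x => s0 x ≠ b)).real d = true :=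
      ⟨d, (sd_real (w := w) rA rα).2 hd⟩
    obtain ⟨z, hz, hzb⟩ : ∃ z, S.M.v z ∈ S.A ∧ s0 (S.M.v z) ≠ b := by
      cases b
      · exact ⟨_, hx, by rw [hx']; simp⟩
      · exact ⟨_, hy, by rw [hy']; simp⟩
    have hcard : (dl S w (S.A.filter fun x => s0 x ≠ b)).A.card ≤ n := by
      have h5 : S.A \ (S.A.filter fun x => s0 x ≠ b) ⊂ S.A := by
        refine ⟨Finset.sdiff_subset, fun h6 => ?_⟩
        exact (Finset.mem_sdiff.1 (h6 hz)).2 (Finset.mem_filter.2 ⟨hz, hzb⟩)
      have h6 := Finset.card_lt_card h5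
      show (S.A \ (S.A.filter fun x => s0 x ≠ b)).card ≤ n
      omega
    obtain ⟨cb, hcb⟩ := ih D V (dl S w (S.A.filter fun x => s0 x ≠ b))
      (dL S L (S.A.filter fun x => s0 x ≠ b)) (dw S w (S.A.filter fun x => s0 x ≠ b)) hcard
      (hw1.dl _) (h.dl hne) (lt_of_le_of_lt (n4_dl _) hn4)
    refine ⟨cb, h.side hne hcb, ?_⟩
    have h7 := h.hol _ hne d0 ⟨z, side_hole rA rα hT hF hd0 hzb,
      Finset.mem_filter.2 ⟨hz, hzb⟩, hz⟩
    obtain ⟨e, e1, e2⟩ := fu_exu h7
    have h8 : Str (dl S w (S.A.filter fun x => s0 x ≠ b)) e := Str.cg e1 (Or.inl h7)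
    have h9 : Vi (st (dl S w (S.A.filter fun x => s0 x ≠ b))) cb e :=
      hcb.req e (by rw [st_u h8]; exact e2)
    obtain ⟨p, p1, p2⟩ := h9
    exact ⟨p, p1, fun g hg => (p2 g hg).trans
      (cl_sc (S := dl S w (S.A.filter fun x => s0 x ≠ b)) ⟨hg.1, fun q hq => hg.2 q (Or.inl hq)⟩
        e1).symm⟩
  have brs : ∀ b cb, Vi (sd (st S) w s0 b) cb d0 → ∀ c, (∀ x, s0 x = b → c x = cb x) →
      ∃ e, Br (st S) c e := by
    intro b cb hv c hcc
    obtain ⟨e, e1, _⟩ := hv
    exact ⟨e, ((sd_br (S := st S) (w := w) rA rα hcc).1 e1).1⟩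
  -- a trivial side
  have htriv : ∀ b : Bool, (∀ d, S.real d = true → s0 (S.M.v d) = b → s0 (S.M.v (S.M.α d)) ≠ b) →
      ∀ cb : V → Bool, ∃ c : V → Bool, (∀ x, s0 x = !b → c x = cb x) ∧ OneMono S s0 c := by
    intro b _ cb
    -- darts from `x` (side `b`) to the other side
    let N : Bool → V → Finset D := fun k x => Finset.univ.filter fun d => S.real d = true ∧
      S.M.v d = x ∧ s0 (S.M.v (S.M.α d)) = !b ∧ cb (S.M.v (S.M.α d)) = k
    let c : V → Bool := fun x => if s0 x = !b then cb x else
      decide ((N true x).card ≤ (N false x).card)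
    have hc1 : ∀ x, s0 x = !b → c x = cb x := fun x hx => by simp [c, hx]
    refine ⟨c, hc1, oneMono_of_maj a1 ?_⟩
    -- endpoint on the side b
    let en : D → V := fun d => if b = true then S.M.v d else S.M.v (S.M.α d)
    set P := Finset.univ.filter fun d => (S.real d = true ∧ s0 (S.M.v d) = true ∧
      s0 (S.M.v (S.M.α d)) = false) ∧ c (S.M.v d) = c (S.M.v (S.M.α d)) with hPd
    set Q := Finset.univ.filter fun d => (S.real d = true ∧ s0 (S.M.v d) = true ∧
      s0 (S.M.v (S.M.α d)) = false) ∧ ¬ c (S.M.v d) = c (S.M.v (S.M.α d)) with hQd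
    have hfib : ∀ x, (P.filter fun d => en d = x).card ≤ (Q.filter fun d => en d = x).card := by
      intro x
      by_cases hxb : s0 x = b
      · have hcx : c x = decide ((N true x).card ≤ (N false x).card) := by
          have : ¬ s0 x = !b := by rw [hxb]; cases b <;> simp
          simp only [c, if_neg this]
        have eP : (P.filter fun d => en d = x).card = (N (c x) x).card := by
          cases b
          · refine Finset.card_bij (fun d _ => S.M.α d) ?_ ?_ ?_
            · intro d hd
              simp only [hPd, en, N, Finset.mem_filter, Finset.mem_univ, true_and,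
                Bool.not_false] at hd ⊢
              obtain ⟨⟨⟨r1, r2, r3⟩, r4⟩, r5⟩ := hd
              simp only [Bool.false_eq_true, if_false] at r5
              refine ⟨by rw [rα, r1], r5, by rw [S.M.αα]; exact r2, ?_⟩
              rw [S.M.αα, ← hc1 _ (by rw [r2]; rfl), r4, r5]
            · intro a _ a' _ haa
              exact S.M.αinj haa
            · intro d hd
              simp only [N, Finset.mem_filter, Finset.mem_univ, true_and, Bool.not_false] at hd
              obtain ⟨r1, r2, r3, r4⟩ := hd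
              refine ⟨S.M.α d, ?_, S.M.αα d⟩
              simp only [hPd, en, Finset.mem_filter, Finset.mem_univ, true_and,
                Bool.false_eq_true, if_false, S.M.αα]
              refine ⟨⟨⟨by rw [rα, r1], r3, by rw [r2, hxb]⟩, ?_⟩, r2⟩
              rw [hc1 _ (by rw [r3]; rfl), r4, r2]
          · congr 1
            ext d
            simp only [hPd, en, N, Finset.mem_filter, Finset.mem_univ, true_and, if_true,
              Bool.not_true]
            constructor
            · rintro ⟨⟨⟨r1, r2, r3⟩, r4⟩, r5⟩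
              refine ⟨r1, r5, r3, ?_⟩
              rw [← hc1 _ (by rw [r3]; rfl), ← r4, r5]
            · rintro ⟨r1, r2, r3, r4⟩
              refine ⟨⟨⟨r1, by rw [r2, hxb], r3⟩, ?_⟩, r2⟩
              rw [hc1 (S.M.v (S.M.α d)) (by rw [r3]; rfl), r4, r2]
        have eQ : (Q.filter fun d => en d = x).card = (N (!c x) x).card := by
          cases b
          · refine Finset.card_bij (fun d _ => S.M.α d) ?_ ?_ ?_
            · intro d hd
              simp only [hQd, en, N, Finset.mem_filter, Finset.mem_univ, true_and,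
                Bool.not_false] at hd ⊢
              obtain ⟨⟨⟨r1, r2, r3⟩, r4⟩, r5⟩ := hd
              simp only [Bool.false_eq_true, if_false] at r5
              refine ⟨by rw [rα, r1], r5, by rw [S.M.αα]; exact r2, ?_⟩
              rw [S.M.αα, ← hc1 _ (by rw [r2]; rfl)]
              rw [r5] at r4
              cases k1 : c (S.M.v d) <;> cases k2 : c x <;> simp_all
            · intro a _ a' _ haa
              exact S.M.αinj haa
            · intro d hd
              simp only [N, Finset.mem_filter, Finset.mem_univ, true_and, Bool.not_false] at hd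
              obtain ⟨r1, r2, r3, r4⟩ := hd
              refine ⟨S.M.α d, ?_, S.M.αα d⟩
              simp only [hQd, en, Finset.mem_filter, Finset.mem_univ, true_and,
                Bool.false_eq_true, if_false, S.M.αα]
              refine ⟨⟨⟨by rw [rα, r1], r3, by rw [r2, hxb]⟩, ?_⟩, r2⟩
              rw [hc1 _ (by rw [r3]; rfl), r4, r2]
              simp
          · congr 1
            ext d
            simp only [hQd, en, N, Finset.mem_filter, Finset.mem_univ, true_and, if_true,
              Bool.not_true]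
            constructor
            · rintro ⟨⟨⟨r1, r2, r3⟩, r4⟩, r5⟩
              refine ⟨r1, r5, r3, ?_⟩
              rw [← hc1 _ (by rw [r3]; rfl)]
              rw [r5] at r4
              cases k1 : c (S.M.v (S.M.α d)) <;> cases k2 : c x <;> simp_all
            · rintro ⟨r1, r2, r3, r4⟩
              refine ⟨⟨⟨r1, by rw [r2, hxb], r3⟩, ?_⟩, r2⟩
              rw [hc1 (S.M.v (S.M.α d)) (by rw [r3]; rfl), r4, r2]
              simp
        rw [eP, eQ, hcx]
        by_cases hle : (N true x).card ≤ (N false x).card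
        · rw [decide_eq_true hle]; exact hle
        · rw [decide_eq_false hle]
          show (N false x).card ≤ (N true x).card
          omega
      · have : (P.filter fun d => en d = x) = ∅ := by
          rw [Finset.filter_eq_empty_iff]
          intro d hd hdx
          simp only [hPd, Finset.mem_filter, Finset.mem_univ, true_and] at hd
          obtain ⟨⟨r1, r2, r3⟩, r4⟩ := hd
          apply hxb
          rw [← hdx]
          cases b
          · simp only [en, Bool.false_eq_true, if_false]; exact r3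
          · simp only [en, if_true]; exact r2
        rw [this]; simp
    have hP1 : P.card = ∑ x ∈ (P ∪ Q).image en, (P.filter fun d => en d = x).card :=
      Finset.card_eq_sum_card_fiberwise fun d hd =>
        Finset.mem_coe.2 (Finset.mem_image_of_mem _ (Finset.mem_union_left _ hd))
    have hQ1 : Q.card = ∑ x ∈ (P ∪ Q).image en, (Q.filter fun d => en d = x).card :=
      Finset.card_eq_sum_card_fiberwise fun d hd =>
        Finset.mem_coe.2 (Finset.mem_image_of_mem _ (Finset.mem_union_right _ hd))
    rw [hP1, hQ1]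
    exact Finset.sum_le_sum fun x _ => hfib x
  have fin : ∀ c : V → Bool, OneMono S s0 c → (∃ e, Br (st S) c e) →
      (∀ b, (∃ cb : V → Bool, (∀ x, s0 x = b → c x = cb x) ∧
      Sol (sd (st S) w s0 b) (sdL (st S) L s0 b) cb ∧ Vi (sd (st S) w s0 b) cb d0) ∨
      (∀ d, S.real d = true → s0 (S.M.v d) = b → s0 (S.M.v (S.M.α d)) ≠ b)) →
      ∃ c, Sol (st S) L c := by
    intro c hM hB hs
    exact ⟨c, glue7 (S := st S) (w := w) rA rα h.toWf.st.u_A h.A_im h.L_real hT hF hM hd0 hB hs⟩
  have one_side : ∀ b : Bool, (∃ d, S.real d = true ∧ s0 (S.M.v d) = b ∧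
      s0 (S.M.v (S.M.α d)) = b) → (∀ d, S.real d = true → s0 (S.M.v d) = !b →
        s0 (S.M.v (S.M.α d)) ≠ !b) → ∃ c, Sol (st S) L c := by
    intro b hb hb'
    obtain ⟨cb, k1, k2⟩ := hsol b hb
    obtain ⟨c, k3, k4⟩ := htriv (!b) hb' cb
    rw [Bool.not_not] at k3
    refine fin c k4 (brs b cb k2 c k3) fun b' => ?_
    by_cases hbb : b' = b
    · subst hbb
      exact Or.inl ⟨cb, k3, k1, k2⟩
    · have : b' = !b := by cases b <;> cases b' <;> simp_all
      subst this
      exact Or.inr hb'
  by_cases hTr : ∃ d, S.real d = true ∧ s0 (S.M.v d) = true ∧ s0 (S.M.v (S.M.α d)) = true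
  · by_cases hFr : ∃ d, S.real d = true ∧ s0 (S.M.v d) = false ∧ s0 (S.M.v (S.M.α d)) = false
    · -- two solutions
      obtain ⟨c1, k1, k2⟩ := hsol true hTr
      obtain ⟨c2, k3, k4⟩ := hsol false hFr
      have red : ∀ c2' : V → Bool, Sol (sd (st S) w s0 false) (sdL (st S) L s0 false) c2' →
          Vi (sd (st S) w s0 false) c2' d0 →
          (Finset.univ.filter fun d => (S.real d = true ∧ s0 (S.M.v d) = true ∧
            s0 (S.M.v (S.M.α d)) = false) ∧ c1 (S.M.v d) = c2' (S.M.v (S.M.α d))).card ≤
          (Finset.univ.filter fun d => (S.real d = true ∧ s0 (S.M.v d) = true ∧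
            s0 (S.M.v (S.M.α d)) = false) ∧ ¬ c1 (S.M.v d) = c2' (S.M.v (S.M.α d))).card →
          ∃ c, Sol (st S) L c := by
        intro c2' k3' k4' hcard
        let c : V → Bool := fun x => if s0 x = true then c1 x else c2' x
        have e1 : ∀ x, s0 x = true → c x = c1 x := fun x hx => by simp [c, hx]
        have e2 : ∀ x, s0 x = false → c x = c2' x := fun x hx => by simp [c, hx]
        refine fin c (oneMono_of_maj a1 ?_) (brs true c1 k2 c e1) fun b => ?_
        · refine le_trans (le_of_eq ?_) (le_trans hcard (le_of_eq ?_))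
          · congr 1
            refine Finset.filter_congr fun d _ => and_congr_right fun hd => ?_
            rw [e1 _ hd.2.1, e2 _ hd.2.2]
          · congr 1
            refine Finset.filter_congr fun d _ => and_congr_right fun hd => ?_
            rw [e1 _ hd.2.1, e2 _ hd.2.2]
        · cases b
          · exact Or.inl ⟨c2', e2, k3', k4'⟩
          · exact Or.inl ⟨c1, e1, k1, k2⟩
      rcases le_total (Finset.univ.filter fun d => (S.real d = true ∧ s0 (S.M.v d) = true ∧
            s0 (S.M.v (S.M.α d)) = false) ∧ c1 (S.M.v d) = c2 (S.M.v (S.M.α d))).card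
          (Finset.univ.filter fun d => (S.real d = true ∧ s0 (S.M.v d) = true ∧
            s0 (S.M.v (S.M.α d)) = false) ∧ ¬ c1 (S.M.v d) = c2 (S.M.v (S.M.α d))).card
        with hle | hle
      · exact red c2 k3 k4 hle
      · refine red (fun x => !c2 x) k3.neg ((vi_neg d0).2 k4) ?_
        refine le_trans (le_of_eq ?_) (le_trans hle (le_of_eq ?_))
        · congr 1
          refine Finset.filter_congr fun d _ => and_congr_right fun _ => ?_
          cases c1 (S.M.v d) <;> cases c2 (S.M.v (S.M.α d)) <;> simp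
        · congr 1
          refine Finset.filter_congr fun d _ => and_congr_right fun _ => ?_
          cases c1 (S.M.v d) <;> cases c2 (S.M.v (S.M.α d)) <;> simp
    · push Not at hFr
      exact one_side true hTr fun d k1 k2 k3 => hFr d k1 k2 k3
  · push Not at hTr
    by_cases hFr : ∃ d, S.real d = true ∧ s0 (S.M.v d) = false ∧ s0 (S.M.v (S.M.α d)) = false
    · exact one_side false hFr fun d k1 k2 k3 => hTr d k1 k2 k3
    · push Not at hFr
      obtain ⟨e, he⟩ := h.ex
      have hcut : ∀ e, S.real e = true → s0 (S.M.v e) ≠ s0 (S.M.v (S.M.α e)) := by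
        intro e he h5
        cases h6 : s0 (S.M.v e)
        · exact hFr e he h6 (by rw [← h5, h6])
        · exact hTr e he h6 (by rw [← h5, h6])
      refine fin s0 ?_ ⟨e, he, hcut e he⟩ fun b => Or.inr ?_
      · intro d d' r _ _ _ _ _ m _
        exact absurd m (hcut d r)
      · intro d hd k1 k2
        exact hcut d hd (k1.trans k2.symm)


end Pool.FC7
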