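import Pool.Agent.FC7.Mcs
import Pool.Agent.FC7.ExE
import Pool.Agent.FC6.RepOk

/-! # The replaced state belongs to the class: well-formedness and pieces -/

open Finset

set_option linter.unusedSectionVars false

namespace Pool.FC7

open Pool.FC6 Pool.FC6.St

/-- data of the check: labels `< x` are interior, those `< lo` are dead in `S'`, the other ones alive;
the labels `x, .., m-1` are alive labels of the ring, the others are free (no real dart and no unit of
the patches); pieces: `pc i < p` is the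
piece of `i`, `rt q` a dart of the piece `q`, `par i` is joined to `i` inside of the piece and has
smaller rank `prk`; `lb`, `wt` labels and weights of `P`, `lb'`, `wt'` of `P'`; `ro` = ring darts
whose reversal is surely outside of the patch; `sl a` = surely unused part of the degree bound at the
ring label `a` -/
structure OD where
  Δ : ℕ
  lo : ℕ
  x : ℕ
  m : ℕ
  p : ℕ
  pc : ℕ → ℕ
  rt : ℕ → ℕ
  par : ℕ → ℕ
  prk : ℕ → ℕ
  lb : ℕ → Bool
  wt : ℕ → ℕ
  lb' : ℕ → Bool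
  wt' : ℕ → ℕ
  ro : ℕ → Bool
  sl : ℕ → ℕ

namespace OD

variable (X : OD) (P P' : Pa)

/-- ring darts with a surely outside reversal -/
def rg (i : ℕ) : Bool := decide (P.α i = i) && X.ro i

/-- the part of the degree of the label `a` in `P` -/
def dg (a : ℕ) : ℕ :=
  sumN P.n fun i => (if P.l i = a then (if P.real i then 1 else 0) + P.u i + X.wt i else 0) +
    (if X.rg P i && decide (P.l (P.φ i) = a) then X.wt i else 0)

/-- the part of the degree of the label `a` in `P'` -/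
def dg' (a : ℕ) : ℕ :=
  sumN P.n fun i => (if P'.l i = a then (if P'.real i then 1 else 0) + P'.u i + X.wt' i else 0) +
    (if X.rg P i && decide (P'.l (P'.φ i) = a) then X.wt' i else 0)

/-- the static part of the check -/
def stat : Bool :=
  allN P.n (fun i =>
    (!P.real i || (decide (P.l i < X.m) && decide (P.l (P.φ i) < X.m))) &&
    (!P'.real i || (decide (X.lo ≤ P'.l i) && decide (P'.l i < X.m) &&
      decide (X.lo ≤ P'.l (P'.φ i)) && decide (P'.l (P'.φ i) < X.m))) &&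
    (P'.real (P.α i) == P'.real i) &&
    (decide (P.α i ≠ i) || ((P'.real i == P.real i) && decide (P'.l i = P.l i) &&
      decide (P'.l (P'.φ i) = P.l (P.φ i)) && decide (X.x ≤ P.l i) &&
      decide (X.x ≤ P.l (P.φ i)) &&
      (X.ro i || ((X.lb' i == X.lb i) && decide (X.wt' i = X.wt i))))) &&
    (decide (P'.u i = 0) || (decide (X.lo ≤ P'.l i) && decide (P'.l i < X.m))) &&
    (!X.lb' i || P'.real i) && (X.lb' (P.α i) == X.lb' i) &&
    decide (X.wt' (P.α i) = X.wt' i) && (decide (X.wt' i = 0) || X.lb' i) &&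
    decide (X.pc i < X.p) &&
    (decide (i = X.rt (X.pc i)) || (decide (X.prk (X.par i) < X.prk i) &&
      decide (X.par i < P.n) && decide (X.pc (X.par i) = X.pc i) &&
      (decide (X.par i = P'.φ i) ||
        (decide (P.α i ≠ i) && !P'.real i && decide (X.par i = P.α i)))))) &&
  allN X.m (fun a => decide (a < X.lo) ||
    (!(allN P.n fun i => decide (P'.l i ≠ a)) &&
      decide (X.dg' P P' a ≤ if a < X.x then X.Δ else X.dg P a + X.sl a))) &&
  decide (X.lo ≤ X.x) && decide (X.x ≤ X.m)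

/-- the static conditions of one dart -/
structure S1 (i : ℕ) : Prop where
  r : P.real i = true → P.l i < X.m ∧ P.l (P.φ i) < X.m
  r' : P'.real i = true → X.lo ≤ P'.l i ∧ P'.l i < X.m ∧ X.lo ≤ P'.l (P'.φ i) ∧
      P'.l (P'.φ i) < X.m
  rα : P'.real (P.α i) = P'.real i
  ring : P.α i = i → P'.real i = P.real i ∧ P'.l i = P.l i ∧ P'.l (P'.φ i) = P.l (P.φ i) ∧
      X.x ≤ P.l i ∧ X.x ≤ P.l (P.φ i)
  ro : P.α i = i → X.ro i = true ∨ (X.lb' i = X.lb i ∧ X.wt' i = X.wt i)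
  u : P'.u i ≠ 0 → X.lo ≤ P'.l i ∧ P'.l i < X.m
  lr : X.lb' i = true → P'.real i = true
  lα : X.lb' (P.α i) = X.lb' i
  wα : X.wt' (P.α i) = X.wt' i
  wl : X.wt' i ≠ 0 → X.lb' i = true
  pc : X.pc i < X.p
  tr : i = X.rt (X.pc i) ∨ (X.prk (X.par i) < X.prk i ∧ X.par i < P.n ∧ X.pc (X.par i) = X.pc i ∧
      (X.par i = P'.φ i ∨ (P.α i ≠ i ∧ P'.real i = false ∧ X.par i = P.α i)))

variable {X P P'}

theorem stat1 (h : X.stat P P' = true) {i : ℕ} (hi : i < P.n) : S1 X P P' i := by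
  unfold stat at h
  rw [Bool.and_eq_true, Bool.and_eq_true, Bool.and_eq_true, allN_iff] at h
  have := h.1.1.1 i hi
  simp only [Bool.and_eq_true, Bool.or_eq_true, decide_eq_true_eq, Bool.not_eq_true',
    beq_iff_eq] at this
  obtain ⟨⟨⟨⟨⟨⟨⟨⟨⟨⟨h1, h2⟩, h3⟩, h4⟩, h5⟩, h6⟩, h7⟩, h8⟩, h9⟩, h10⟩, h11⟩ := this
  refine ⟨fun a => ?_, fun a => ?_, h3, fun a => ?_, fun a => ?_, fun a => ?_, fun a => ?_, h7, h8,
    fun a => ?_, h10, ?_⟩
  · rcases h1 with h1 | h1
    · rw [a] at h1; exact absurd h1 (by simp)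
    · exact h1
  · rcases h2 with h2 | h2
    · rw [a] at h2; exact absurd h2 (by simp)
    · exact ⟨h2.1.1.1, h2.1.1.2, h2.1.2, h2.2⟩
  · rcases h4 with h4 | h4
    · exact absurd a h4
    · exact ⟨h4.1.1.1.1.1, h4.1.1.1.1.2, h4.1.1.1.2, h4.1.1.2, h4.1.2⟩
  · rcases h4 with h4 | h4
    · exact absurd a h4
    · exact h4.2
  · rcases h5 with h5 | h5
    · exact absurd h5 a
    · exact h5
  · rcases h6 with h6 | h6
    · rw [a] at h6; exact absurd h6 (by simp)
    · exact h6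
  · rcases h9 with h9 | h9
    · exact absurd h9 a
    · exact h9
  · rcases h11 with h11 | h11
    · exact Or.inl h11
    · refine Or.inr ⟨h11.1.1.1, h11.1.1.2, h11.1.2, ?_⟩
      rcases h11.2 with h12 | h12
      · exact Or.inl h12
      · exact Or.inr ⟨h12.1.1, h12.1.2, h12.2⟩

theorem stat2 (h : X.stat P P' = true) {a : ℕ} (ha : X.lo ≤ a) (ha' : a < X.m) :
    (∃ i < P.n, P'.l i = a) ∧ X.dg' P P' a ≤ if a < X.x then X.Δ else X.dg P a + X.sl a := by
  unfold stat at h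
  rw [Bool.and_eq_true, Bool.and_eq_true, Bool.and_eq_true, allN_iff (n := X.m)] at h
  have := h.1.1.2 a ha'
  simp only [Bool.or_eq_true, Bool.and_eq_true, decide_eq_true_eq, Bool.not_eq_true'] at this
  rcases this with h1 | ⟨h1, h2⟩
  · omega
  · refine ⟨?_, h2⟩
    by_contra hc
    have : allN P.n (fun i => decide (P'.l i ≠ a)) = true := by
      rw [allN_iff]
      intro i hi
      simp only [decide_eq_true_eq]
      exact fun h3 => hc ⟨i, hi, h3⟩
    rw [this] at h1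
    exact absurd h1 (by simp)

theorem stat3 (h : X.stat P P' = true) : X.lo ≤ X.x ∧ X.x ≤ X.m := by
  unfold stat at h
  rw [Bool.and_eq_true, Bool.and_eq_true] at h
  simp only [decide_eq_true_eq] at h
  exact ⟨h.1.2, h.2⟩

end OD

variable {D V : Type} [Fintype D] [DecidableEq V]

/-- the hypotheses of the replacement theorem -/
structure RH (Δ : ℕ) (S S' : St D V) (L L' : D → Bool) (w w' : D → ℕ) (P P' : Pa) (f : ℕ → D)
    (g : ℕ → V) (X : OD) : Prop where
  rep : Rep S S' P P' f g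
  hW : Wf Δ S L w
  stat : X.stat P P' = true
  hΔ : X.Δ = Δ
  hA : ∀ y, y ∈ S'.A ↔ (∃ a < X.x, X.lo ≤ a ∧ g a = y) ∨ (y ∈ S.A ∧ ∀ a < X.x, g a ≠ y)
  hgA : ∀ a, X.x ≤ a → a < X.m → g a ∈ S.A
  hgF : ∀ i < P.n, X.m ≤ P.l i → g (P.l i) ∈ S.A → ∃ d, (∀ j < P.n, f j ≠ d) ∧
    S.M.v d = g (P.l i)
  hgd : ∀ a < X.x, ∀ b, X.x ≤ b → b < X.m → g b ≠ g a
  hgi : ∀ a < X.x, ∀ b < X.x, g a = g b → a = b
  hX : ∀ a < X.x, ∀ d, S.M.v d = g a → ∃ i < P.n, f i = d
  hu : ∀ i < P.n, P.u i ≤ S.u (f i)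
  hL : ∀ i < P.n, L (f i) = X.lb i
  hw : ∀ i < P.n, w (f i) = X.wt i
  hL' : ∀ i < P.n, L' (f i) = X.lb' i
  hw' : ∀ i < P.n, w' (f i) = X.wt' i
  Lo : ∀ d, (∀ i < P.n, f i ≠ d) → (∀ i < P.n, X.rg P i = true → S.M.α (f i) ≠ d) →
    L' d = L d ∧ w' d = w d
  Lr : ∀ i < P.n, X.rg P i = true → L' (S.M.α (f i)) = X.lb' i ∧ w' (S.M.α (f i)) = X.wt' i
  hro : ∀ i < P.n, X.rg P i = true → ∀ j < P.n, f j ≠ S.M.α (f i)
  hsl : ∀ y ∈ S.A, (∑ d, if S.M.v d = y then (if S.real d = true then 1 else 0) + S.u d + w d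
    else 0) + ∑ a ∈ (Finset.range X.m).filter (fun a => X.x ≤ a ∧ g a = y), X.sl a ≤ Δ
  hne : ∀ i < P.n, P'.real i = true → g (P'.l i) ≠ g (P'.l (P'.φ i))
  hsi : ∀ i < P.n, ∀ j < P.n, P'.real i = true → P'.real j = true → g (P'.l i) = g (P'.l j) →
    g (P'.l (P'.φ i)) = g (P'.l (P'.φ j)) → i = j
  hso : ∀ i < P.n, P'.real i = true → ∀ e, (∀ j < P.n, f j ≠ e) → S.real e = true →
    S.M.v e = g (P'.l i) → S.M.v (S.M.α e) = g (P'.l (P'.φ i)) → False
  ex : ∃ d, S'.real d = true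

namespace RH

variable {Δ : ℕ} {S S' : St D V} {L L' : D → Bool} {w w' : D → ℕ} {P P' : Pa} {f : ℕ → D}
  {g : ℕ → V} {X : OD}

open Pool.FC6.RH (split)

variable (h : RH Δ S S' L L' w w' P P' f g X)

include h

/-- either an outside dart or a dart of the patch -/
theorem out_α {d : D} (hd : ∀ i < P.n, f i ≠ d) : (∀ i < P.n, f i ≠ S.M.α d) ∨
    ∃ j < P.n, f j = S.M.α d ∧ P.α j = j := by
  by_cases hc : ∀ i < P.n, f i ≠ S.M.α d
  · exact Or.inl hc
  · push Not at hc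
    obtain ⟨j, hj, hj'⟩ := hc
    refine Or.inr ⟨j, hj, hj', ?_⟩
    by_contra hne
    have := h.rep.e.hα j hj hne
    rw [hj', S.M.αα] at this
    exact hd _ (h.rep.G.αlt j hj) this.symm

theorem out_φ {d : D} (hd : ∀ i < P.n, f i ≠ d) : ∀ i < P.n, f i ≠ S.M.φ d := by
  intro i hi h1
  have h2 := h.rep.e.hφ i hi
  have h3 := h.rep.e.hφ _ (h.rep.G.φlt i hi)
  rw [← h2, h1, S.M.φ3] at h3
  exact hd _ (h.rep.G.φlt _ (h.rep.G.φlt i hi)) h3.symm

theorem v_α {i : ℕ} (hi : i < P.n) : S.M.v (S.M.α (f i)) = g (P.l (P.φ i)) := by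
  rw [← S.M.vφ, h.rep.e.hφ i hi, h.rep.e.hl _ (h.rep.G.φlt i hi)]

theorem v_α' {i : ℕ} (hi : i < P.n) : S'.M.v (S'.M.α (f i)) = g (P'.l (P'.φ i)) := by
  have hi' : i < P'.n := by rw [h.rep.hn]; exact hi
  have := h.rep.G'.φlt i hi'
  rw [← S'.M.vφ, h.rep.e'.hφ i hi', h.rep.e'.hl _ this]

theorem v' {i : ℕ} (hi : i < P.n) : S'.M.v (f i) = g (P'.l i) :=
  h.rep.e'.hl i (by rw [h.rep.hn]; exact hi)

theorem φ' {i : ℕ} (hi : i < P.n) : S'.M.φ (f i) = f (P'.φ i) :=
  h.rep.e'.hφ i (by rw [h.rep.hn]; exact hi)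

theorem φlt' {i : ℕ} (hi : i < P.n) : P'.φ i < P.n := by
  have := h.rep.G'.φlt i (by rw [h.rep.hn]; exact hi)
  rwa [h.rep.hn] at this

theorem real' {i : ℕ} (hi : i < P.n) : S'.real (f i) = P'.real i :=
  h.rep.e'.hr i (by rw [h.rep.hn]; exact hi)

/-- origins of the reversals of outside darts are not changed -/
theorem out_vα {d : D} (hd : ∀ i < P.n, f i ≠ d) :
    S'.M.v (S'.M.α d) = S.M.v (S.M.α d) := by
  rw [h.rep.αo]
  rcases h.out_α hd with h1 | ⟨j, hj, h1, h2⟩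
  · exact h.rep.vo _ h1
  · rw [← h1, h.v' hj, h.rep.e.hl j hj, ((OD.stat1 h.stat hj).ring h2).2.1]

theorem out_X {d : D} (hd : ∀ i < P.n, f i ≠ d) {a : ℕ} (ha : a < X.x) : S.M.v d ≠ g a := by
  intro h1
  obtain ⟨i, hi, h2⟩ := h.hX a ha d h1
  exact hd i hi h2

theorem rα' (d : D) : S'.real (S'.M.α d) = S'.real d := by
  have W := h.hW
  rw [h.rep.αo]
  by_cases hd : ∀ i < P.n, f i ≠ d
  · rw [h.rep.ro d hd]
    rcases h.out_α hd with h1 | ⟨j, hj, h1, h2⟩
    · rw [h.rep.ro _ h1, W.real_α]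
    · rw [← h1, h.real' hj, ((OD.stat1 h.stat hj).ring h2).1, ← h.rep.e.hr j hj, h1, W.real_α]
  · push Not at hd
    obtain ⟨i, hi, rfl⟩ := hd
    have s1 := OD.stat1 h.stat hi
    by_cases ha : P.α i = i
    · by_cases hc : ∀ j < P.n, f j ≠ S.M.α (f i)
      · rw [h.rep.ro _ hc, W.real_α, h.rep.e.hr i hi, h.real' hi, (s1.ring ha).1]
      · push Not at hc
        obtain ⟨j, hj, hj'⟩ := hc
        have haj : P.α j = j := by
          by_contra hne
          have h2 := h.rep.e.hα j hj hne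
          rw [hj', S.M.αα] at h2
          have h3 := h.rep.e.inj i hi _ (h.rep.G.αlt j hj) h2
          have h4 := h.rep.G.αα j hj
          rw [← h3, ha] at h4
          rw [← h4, ha] at hne
          exact hne rfl
        rw [← hj', h.real' hj, h.real' hi, ((OD.stat1 h.stat hj).ring haj).1,
          (s1.ring ha).1, ← h.rep.e.hr j hj, hj', W.real_α, h.rep.e.hr i hi]
    · rw [h.rep.e.hα i hi ha, h.real' (h.rep.G.αlt i hi), h.real' hi, s1.rα]

theorem real_A' {d : D} (hd : S'.real d = true) : S'.M.v d ∈ S'.A := by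
  have W := h.hW
  rw [h.hA]
  by_cases hd' : ∀ i < P.n, f i ≠ d
  · rw [h.rep.vo d hd']
    rw [h.rep.ro d hd'] at hd
    exact Or.inr ⟨W.real_A d hd, fun a ha h1 => h.out_X hd' ha h1.symm⟩
  · push Not at hd'
    obtain ⟨i, hi, rfl⟩ := hd'
    rw [h.real' hi] at hd
    have s1 := (OD.stat1 h.stat hi).r' hd
    rw [h.v' hi]
    by_cases c : P'.l i < X.x
    · exact Or.inl ⟨_, c, s1.1, rfl⟩
    · exact Or.inr ⟨h.hgA _ (by omega) s1.2.1,
        fun a ha h1 => h.hgd a ha _ (by omega) s1.2.1 h1.symm⟩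

/-- ring darts: the reversal -/
theorem ring_flag {i : ℕ} (hi : i < P.n) (ha : P.α i = i) :
    (X.rg P i = true ∧ ∀ j < P.n, f j ≠ S.M.α (f i)) ∨
    (X.rg P i = false ∧ L' (f i) = L (f i) ∧ w' (f i) = w (f i)) := by
  by_cases h1 : X.rg P i = true
  · exact Or.inl ⟨h1, h.hro i hi h1⟩
  · have h2 : X.rg P i = false := by simpa using h1
    refine Or.inr ⟨h2, ?_⟩
    unfold OD.rg at h2
    rw [decide_eq_true ha, Bool.true_and] at h2
    rcases (OD.stat1 h.stat hi).ro ha with h3 | h3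
    · rw [h2] at h3; exact absurd h3 (by simp)
    · rw [h.hL' i hi, h.hL i hi, h.hw' i hi, h.hw i hi]; exact h3

/-- labels and weights of reversals -/
theorem Lα' (d : D) : L' (S.M.α d) = L' d ∧ w' (S.M.α d) = w' d := by
  have W := h.hW
  -- a ring dart
  have ring : ∀ i < P.n, P.α i = i → L' (S.M.α (f i)) = L' (f i) ∧ w' (S.M.α (f i)) = w' (f i) := by
    intro i hi ha
    rcases h.ring_flag hi ha with ⟨h1, h2⟩ | ⟨h1, h2, h3⟩
    · rw [(h.Lr i hi h1).1, (h.Lr i hi h1).2, h.hL' i hi, h.hw' i hi]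
      exact ⟨rfl, rfl⟩
    · rw [h2, h3, ← W.L_α, ← W.w_α]
      by_cases hc : ∀ j < P.n, f j ≠ S.M.α (f i)
      · refine h.Lo _ hc fun j hj hr hjj => ?_
        have := S.M.αinj hjj
        have := h.rep.e.inj _ hj _ hi this
        rw [this, h1] at hr
        exact absurd hr (by simp)
      · push Not at hc
        obtain ⟨j, hj, hj'⟩ := hc
        have haj : P.α j = j := by
          by_contra hne
          have h2 := h.rep.e.hα j hj hne
          rw [hj', S.M.αα] at h2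
          have h3 := h.rep.e.inj i hi _ (h.rep.G.αlt j hj) h2
          have h4 := h.rep.G.αα j hj
          rw [← h3, ha] at h4
          rw [← h4, ha] at hne
          exact hne rfl
        rw [← hj']
        rcases h.ring_flag hj haj with ⟨q1, q2⟩ | ⟨q1, q2, q3⟩
        · exfalso
          refine q2 i hi ?_
          rw [hj', S.M.αα]
        · exact ⟨q2, q3⟩
  by_cases hd : ∀ i < P.n, f i ≠ d
  · by_cases h1 : ∀ i < P.n, f i ≠ S.M.α d
    · by_cases h2 : ∀ i < P.n, X.rg P i = true → S.M.α (f i) ≠ d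
      · rw [(h.Lo d hd h2).1, (h.Lo d hd h2).2]
        by_cases h3 : ∀ i < P.n, X.rg P i = true → S.M.α (f i) ≠ S.M.α d
        · rw [(h.Lo _ h1 h3).1, (h.Lo _ h1 h3).2, W.L_α, W.w_α]
          exact ⟨rfl, rfl⟩
        · push Not at h3
          obtain ⟨i, hi, _, h4⟩ := h3
          exact absurd (S.M.αinj h4) (hd i hi)
      · push Not at h2
        obtain ⟨i, hi, _, h4⟩ := h2
        refine absurd ?_ (h1 i hi)
        rw [← h4, S.M.αα]
    · push Not at h1
      obtain ⟨i, hi, h2⟩ := h1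
      have ha : P.α i = i := by
        rcases h.out_α hd with h3 | ⟨j, hj, h3, h4⟩
        · exact absurd h2 (h3 i hi)
        · rw [h.rep.e.inj i hi j hj (h2.trans h3.symm)]; exact h4
      have h3 := ring i hi ha
      rw [h2, S.M.αα] at h3
      exact ⟨h3.1.symm, h3.2.symm⟩
  · push Not at hd
    obtain ⟨i, hi, rfl⟩ := hd
    by_cases ha : P.α i = i
    · exact ring i hi ha
    · have s1 := OD.stat1 h.stat hi
      have h2 := h.rep.G.αlt i hi
      rw [h.rep.e.hα i hi ha, h.hL' _ h2, h.hL' i hi, h.hw' _ h2, h.hw' i hi]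
      exact ⟨s1.lα, s1.wα⟩

/-- the labels outside are labels of the ring or of `S` -/
theorem L_out {d : D} (hd : ∀ i < P.n, f i ≠ d) :
    (L' d = L d ∧ w' d = w d) ∨ ∃ i < P.n, X.rg P i = true ∧ S.M.α (f i) = d ∧
      L' d = X.lb' i ∧ w' d = X.wt' i := by
  by_cases h2 : ∀ i < P.n, X.rg P i = true → S.M.α (f i) ≠ d
  · exact Or.inl (h.Lo d hd h2)
  · push Not at h2
    obtain ⟨i, hi, h3, h4⟩ := h2
    refine Or.inr ⟨i, hi, h3, h4, ?_⟩
    rw [← h4]
    exact h.Lr i hi h3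

end RH

end Pool.FC7
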