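import Pool.Agent.FC7.Rok

/-! # The replaced state is well-formed -/

open Finset

set_option linter.unusedSectionVars false

namespace Pool.FC7

open Pool.FC6 Pool.FC6.St

variable {D V : Type} [Fintype D] [DecidableEq V]

namespace RH

variable {Δ : ℕ} {S S' : St D V} {L L' : D → Bool} {w w' : D → ℕ} {P P' : Pa} {f : ℕ → D}
  {g : ℕ → V} {X : OD}

open Pool.FC6.RH (split)

variable (h : RH Δ S S' L L' w w' P P' f g X)

include h

open Classical in
/-- the weights outside -/
theorem outw (y : V) : (∑ d, if ∃ i < P.n, f i = d then 0 else if S.M.v d = y then w' d else 0) +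
    ∑ i ∈ Finset.range P.n, (if X.rg P i = true ∧ g (P.l (P.φ i)) = y then X.wt i else 0) =
    (∑ d, if ∃ i < P.n, f i = d then 0 else if S.M.v d = y then w d else 0) +
    ∑ i ∈ Finset.range P.n, (if X.rg P i = true ∧ g (P.l (P.φ i)) = y then X.wt' i else 0) := by
  have e1 : ∀ F : ℕ → ℕ, ∑ i ∈ Finset.range P.n,
      (if X.rg P i = true ∧ g (P.l (P.φ i)) = y then F i else 0) =
      ∑ d, ∑ i ∈ Finset.range P.n,
        (if S.M.α (f i) = d then (if X.rg P i = true ∧ S.M.v d = y then F i else 0) else 0) := by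
    intro F
    rw [Finset.sum_comm]
    refine Finset.sum_congr rfl fun i hi => ?_
    rw [Finset.sum_ite_eq, if_pos (Finset.mem_univ _), h.v_α (Finset.mem_range.1 hi)]
  rw [e1, e1, ← Finset.sum_add_distrib, ← Finset.sum_add_distrib]
  refine Finset.sum_congr rfl fun d _ => ?_
  by_cases hy : S.M.v d = y
  · by_cases hd : ∃ i < P.n, f i = d
    · have e2 : ∀ F : ℕ → ℕ, ∑ i ∈ Finset.range P.n,
          (if S.M.α (f i) = d then (if X.rg P i = true ∧ S.M.v d = y then F i else 0) else 0)
          = 0 := by
        intro F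
        refine Finset.sum_eq_zero fun i hi => ?_
        split_ifs with h1 h2
        · exfalso
          obtain ⟨j, hj, hj'⟩ := hd
          exact h.hro i (Finset.mem_range.1 hi) h2.1 j hj (hj'.trans h1.symm)
        · rfl
        · rfl
      rw [if_pos hd, if_pos hd, e2, e2]
    · rw [if_neg hd, if_neg hd, if_pos hy, if_pos hy]
      push Not at hd
      by_cases h2 : ∀ i < P.n, X.rg P i = true → S.M.α (f i) ≠ d
      · have e2 : ∀ F : ℕ → ℕ, ∑ i ∈ Finset.range P.n,
            (if S.M.α (f i) = d then (if X.rg P i = true ∧ S.M.v d = y then F i else 0) else 0)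
            = 0 := by
          intro F
          refine Finset.sum_eq_zero fun i hi => ?_
          split_ifs with h3 h4
          · exact absurd h3 (h2 i (Finset.mem_range.1 hi) h4.1)
          · rfl
          · rfl
        rw [e2, e2, (h.Lo d hd h2).2]
      · push Not at h2
        obtain ⟨i, hi, h3, h4⟩ := h2
        have e2 : ∀ F : ℕ → ℕ, ∑ j ∈ Finset.range P.n,
            (if S.M.α (f j) = d then (if X.rg P j = true ∧ S.M.v d = y then F j else 0) else 0)
            = F i := by
          intro F
          rw [Finset.sum_eq_single_of_mem i (Finset.mem_range.2 hi), if_pos h4, if_pos ⟨h3, hy⟩]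
          intro j hj hji
          rw [if_neg]
          intro h5
          exact hji (h.rep.e.inj j (Finset.mem_range.1 hj) i hi (S.M.αinj (h5.trans h4.symm)))
        have e3 : w' d = X.wt' i := by rw [← h4]; exact (h.Lr i hi h3).2
        have e4 : w d = X.wt i := by rw [← h4, h.hW.w_α]; exact h.hw i hi
        rw [e2, e2, e3, e4]
        omega
  · have e2 : ∀ F : ℕ → ℕ, ∑ i ∈ Finset.range P.n,
        (if S.M.α (f i) = d then (if X.rg P i = true ∧ S.M.v d = y then F i else 0) else 0)
        = 0 := by
      intro F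
      refine Finset.sum_eq_zero fun i hi => ?_
      rw [if_neg (c := X.rg P i = true ∧ S.M.v d = y) (fun h3 => hy h3.2)]
      split_ifs <;> rfl
    rw [e2, e2]
    simp only [if_neg hy]

theorem real_ne' {d : D} (hd : S'.real d = true) : S'.M.v d ≠ S'.M.v (S'.M.α d) := by
  by_cases hd' : ∀ i < P.n, f i ≠ d
  · rw [h.rep.vo d hd', h.out_vα hd']
    rw [h.rep.ro d hd'] at hd
    exact h.hW.real_ne d hd
  · push Not at hd'
    obtain ⟨i, hi, rfl⟩ := hd'
    rw [h.real' hi] at hd
    rw [h.v' hi, h.v_α' hi]
    exact h.hne i hi hd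

theorem A_im' {y : V} (hy : y ∈ S'.A) : ∃ d, S'.M.v d = y := by
  have s3 := OD.stat3 h.stat
  rw [h.hA] at hy
  rcases hy with ⟨a, ha, ha', rfl⟩ | hy
  · obtain ⟨j, hj, hj'⟩ := (OD.stat2 h.stat ha' (by omega)).1
    exact ⟨f j, by rw [h.v' hj, hj']⟩
  obtain ⟨d, rfl⟩ := h.hW.A_im y hy.1
  by_cases hd' : ∀ i < P.n, f i ≠ d
  · exact ⟨d, h.rep.vo d hd'⟩
  · push Not at hd'
    obtain ⟨i, hi, rfl⟩ := hd'
    rw [h.rep.e.hl i hi] at hy
    have h1 : X.lo ≤ P.l i := by
      by_contra hc
      exact hy.2 _ (by omega) rfl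
    by_cases h2 : P.l i < X.m
    · obtain ⟨j, hj, hj'⟩ := (OD.stat2 h.stat h1 h2).1
      exact ⟨f j, by rw [h.v' hj, hj', h.rep.e.hl i hi]⟩
    · obtain ⟨d, hd, hd'⟩ := h.hgF i hi (by omega) hy.1
      exact ⟨d, by rw [h.rep.vo d hd, hd', h.rep.e.hl i hi]⟩

theorem u_A' {d : D} (hd : S'.u d ≠ 0) : S'.M.v d ∈ S'.A := by
  rw [h.hA]
  by_cases hd' : ∀ i < P.n, f i ≠ d
  · rw [h.rep.vo d hd']
    rw [h.rep.uo d hd'] at hd
    exact Or.inr ⟨h.hW.u_A d hd, fun a ha h1 => h.out_X hd' ha h1.symm⟩
  · push Not at hd'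
    obtain ⟨i, hi, rfl⟩ := hd'
    rw [h.rep.hu' i hi] at hd
    have s1 := (OD.stat1 h.stat hi).u hd
    rw [h.v' hi]
    by_cases c : P'.l i < X.x
    · exact Or.inl ⟨_, c, s1.1, rfl⟩
    · exact Or.inr ⟨h.hgA _ (by omega) s1.2,
        fun a ha h1 => h.hgd a ha _ (by omega) s1.2 h1.symm⟩

theorem L_real' {d : D} (hd : L' d = true) : S'.real d = true := by
  by_cases hd' : ∀ i < P.n, f i ≠ d
  · rcases h.L_out hd' with ⟨h1, _⟩ | ⟨i, hi, h1, h2, h3, _⟩
    · rw [h1] at hd
      rw [h.rep.ro d hd']
      exact h.hW.L_real d hd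
    · rw [h3] at hd
      rw [← h2, ← h.rep.αo, h.rα', h.real' hi]
      exact (OD.stat1 h.stat hi).lr hd
  · push Not at hd'
    obtain ⟨i, hi, rfl⟩ := hd'
    rw [h.hL' i hi] at hd
    rw [h.real' hi]
    exact (OD.stat1 h.stat hi).lr hd

theorem w_L' {d : D} (hd : w' d ≠ 0) : L' d = true := by
  by_cases hd' : ∀ i < P.n, f i ≠ d
  · rcases h.L_out hd' with ⟨h1, h2⟩ | ⟨i, hi, h1, h2, h3, h4⟩
    · rw [h2] at hd
      rw [h1]
      exact h.hW.w_L d hd
    · rw [h4] at hd
      rw [h3]
      exact (OD.stat1 h.stat hi).wl hd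
  · push Not at hd'
    obtain ⟨i, hi, rfl⟩ := hd'
    rw [h.hw' i hi] at hd
    rw [h.hL' i hi]
    exact (OD.stat1 h.stat hi).wl hd

theorem deg' {y : V} (hy : y ∈ S'.A) : ∑ d, (if S'.M.v d = y then
    (if S'.real d = true then 1 else 0) + S'.u d + w' d else 0) ≤ Δ := by
  classical
  have W := h.hW
  have s3 := OD.stat3 h.stat
  rw [h.hA] at hy
  rcases hy with ⟨a, ha, ha', rfl⟩ | hy
  · rw [split h.rep.e.inj, Finset.sum_eq_zero, zero_add]
    · have h2 := (OD.stat2 h.stat ha' (by omega)).2
      rw [if_pos ha, h.hΔ] at h2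
      unfold OD.dg' at h2
      rw [sumN_eq] at h2
      refine le_trans (Finset.sum_le_sum fun i hi => ?_) h2
      have hi := Finset.mem_range.1 hi
      refine le_trans ?_ (Nat.le_add_right _ _)
      rw [h.v' hi, h.real' hi, h.rep.hu' i hi, h.hw' i hi]
      have s1 := OD.stat1 h.stat hi
      by_cases hw : (if P'.real i = true then 1 else 0) + P'.u i + X.wt' i = 0
      · rw [hw]; split_ifs <;> omega
      · have h3 : X.lo ≤ P'.l i ∧ P'.l i < X.m := by
          by_cases hr : P'.real i = true
          · exact ⟨(s1.r' hr).1, (s1.r' hr).2.1⟩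
          · refine s1.u fun h4 => hw ?_
            have h5 : X.wt' i = 0 := by
              by_contra h6; exact hr (s1.lr (s1.wl h6))
            rw [if_neg hr, h4, h5]
        by_cases h5 : g (P'.l i) = g a
        · have h6 : P'.l i = a := by
            by_cases h7 : P'.l i < X.x
            · exact h.hgi _ h7 _ ha h5
            · exact absurd h5 (h.hgd a ha _ (by omega) h3.2)
          rw [if_pos h5, if_pos h6]
        · rw [if_neg h5]; exact Nat.zero_le _
    · intro d _
      by_cases hd : ∃ i < P.n, f i = d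
      · rw [if_pos hd]
      · rw [if_neg hd]
        push Not at hd
        rw [h.rep.vo d hd, if_neg (h.out_X hd ha)]
  · refine le_trans ?_ (h.hsl y hy.1)
    rw [split h.rep.e.inj, split h.rep.e.inj (fun d => if S.M.v d = y then
      (if S.real d = true then 1 else 0) + S.u d + w d else 0)]
    -- outer parts
    have o1 : (∑ d, if ∃ i < P.n, f i = d then 0 else (if S'.M.v d = y then
        (if S'.real d = true then 1 else 0) + S'.u d + w' d else 0)) =
        (∑ d, if ∃ i < P.n, f i = d then 0 else (if S.M.v d = y then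
        (if S.real d = true then 1 else 0) + S.u d else 0)) +
        ∑ d, if ∃ i < P.n, f i = d then 0 else if S.M.v d = y then w' d else 0 := by
      rw [← Finset.sum_add_distrib]
      refine Finset.sum_congr rfl fun d _ => ?_
      by_cases hd : ∃ i < P.n, f i = d
      · rw [if_pos hd, if_pos hd, if_pos hd]
      · rw [if_neg hd, if_neg hd, if_neg hd]
        push Not at hd
        rw [h.rep.vo d hd, h.rep.ro d hd, h.rep.uo d hd]
        split_ifs <;> omega
    have o2 : (∑ d, if ∃ i < P.n, f i = d then 0 else (if S.M.v d = y then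
        (if S.real d = true then 1 else 0) + S.u d + w d else 0)) =
        (∑ d, if ∃ i < P.n, f i = d then 0 else (if S.M.v d = y then
        (if S.real d = true then 1 else 0) + S.u d else 0)) +
        ∑ d, if ∃ i < P.n, f i = d then 0 else if S.M.v d = y then w d else 0 := by
      rw [← Finset.sum_add_distrib]
      refine Finset.sum_congr rfl fun d _ => ?_
      split_ifs <;> omega
    have o3 := h.outw y
    -- inner parts
    let T : Finset ℕ := (Finset.range X.m).filter (fun a => X.x ≤ a ∧ g a = y)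
    have key : ∀ i ∈ Finset.range P.n, (if S'.M.v (f i) = y then
        (if S'.real (f i) = true then 1 else 0) + S'.u (f i) + w' (f i) else 0) +
        (if X.rg P i = true ∧ g (P.l (P.φ i)) = y then X.wt' i else 0) =
        ∑ a ∈ T, ((if P'.l i = a then (if P'.real i then 1 else 0) + P'.u i + X.wt' i else 0) +
          (if X.rg P i && decide (P'.l (P'.φ i) = a) then X.wt' i else 0)) := by
      intro i hi
      have hi := Finset.mem_range.1 hi
      rw [h.v' hi, h.real' hi, h.rep.hu' i hi, h.hw' i hi, Finset.sum_add_distrib,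
        Finset.sum_ite_eq]
      have s1 := OD.stat1 h.stat hi
      congr 1
      · by_cases hw : (if P'.real i = true then 1 else 0) + P'.u i + X.wt' i = 0
        · rw [hw]; split_ifs <;> rfl
        · have h3 : X.lo ≤ P'.l i ∧ P'.l i < X.m := by
            by_cases hr : P'.real i = true
            · exact ⟨(s1.r' hr).1, (s1.r' hr).2.1⟩
            · refine s1.u fun h4 => hw ?_
              have h5 : X.wt' i = 0 := by
                by_contra h6; exact hr (s1.lr (s1.wl h6))
              rw [if_neg hr, h4, h5]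
          by_cases h4 : P'.l i < X.x
          · rw [if_neg (hy.2 _ h4), if_neg]
            intro h5
            have := (Finset.mem_filter.1 h5).2.1
            omega
          · simp only [T, Finset.mem_filter, Finset.mem_range, not_lt.1 h4, h3.2, true_and]
      · by_cases hr : X.rg P i = true
        · have ha : P.α i = i := by
            unfold OD.rg at hr
            rw [Bool.and_eq_true] at hr
            exact of_decide_eq_true hr.1
          have r1 := s1.ring ha
          by_cases hw : X.wt' i = 0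
          · rw [hw]; simp
          · have r2 := s1.r' (s1.lr (s1.wl hw))
            simp only [hr, true_and, Bool.true_and, decide_eq_true_eq]
            rw [Finset.sum_ite_eq, r1.2.2.1]
            rw [r1.2.2.1] at r2
            by_cases h5 : g (P.l (P.φ i)) = y
            · rw [if_pos h5, if_pos (by
                simp only [T, Finset.mem_filter, Finset.mem_range]
                exact ⟨r2.2.2.2, r1.2.2.2.2, h5⟩)]
            · rw [if_neg h5, if_neg (by
                simp only [T, Finset.mem_filter, Finset.mem_range]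
                exact fun h6 => h5 h6.2.2)]
        · simp [hr]
    have k1 : (∑ i ∈ Finset.range P.n, (if S'.M.v (f i) = y then
        (if S'.real (f i) = true then 1 else 0) + S'.u (f i) + w' (f i) else 0)) +
        ∑ i ∈ Finset.range P.n, (if X.rg P i = true ∧ g (P.l (P.φ i)) = y then X.wt' i else 0) =
        ∑ a ∈ T, X.dg' P P' a := by
      rw [← Finset.sum_add_distrib, Finset.sum_congr rfl key, Finset.sum_comm]
      refine Finset.sum_congr rfl fun a _ => ?_
      unfold OD.dg'
      rw [sumN_eq]
    have k2 : ∑ a ∈ T, X.dg' P P' a ≤ ∑ a ∈ T, X.dg P a + ∑ a ∈ T, X.sl a := by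
      rw [← Finset.sum_add_distrib]
      refine Finset.sum_le_sum fun a ha => ?_
      simp only [T, Finset.mem_filter, Finset.mem_range] at ha
      have h2 := (OD.stat2 h.stat (a := a) (by omega) ha.1).2
      rwa [if_neg (by omega)] at h2
    have k3 : ∑ a ∈ T, X.dg P a ≤ (∑ i ∈ Finset.range P.n, (if S.M.v (f i) = y then
        (if S.real (f i) = true then 1 else 0) + S.u (f i) + w (f i) else 0)) +
        ∑ i ∈ Finset.range P.n, (if X.rg P i = true ∧ g (P.l (P.φ i)) = y then X.wt i else 0) := by
      unfold OD.dg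
      simp only [sumN_eq]
      rw [Finset.sum_comm, ← Finset.sum_add_distrib]
      refine Finset.sum_le_sum fun i hi => ?_
      have hi := Finset.mem_range.1 hi
      rw [Finset.sum_add_distrib, Finset.sum_ite_eq, h.rep.e.hl i hi, h.rep.e.hr i hi,
        h.hw i hi]
      have h5 := h.hu i hi
      refine Nat.add_le_add ?_ ?_
      · by_cases c1 : P.l i ∈ T
        · rw [if_pos c1, if_pos (Finset.mem_filter.1 c1).2.2]
          omega
        · rw [if_neg c1]
          exact Nat.zero_le _
      · by_cases hr : X.rg P i = true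
        · simp only [hr, true_and, Bool.true_and, decide_eq_true_eq]
          rw [Finset.sum_ite_eq]
          by_cases c1 : P.l (P.φ i) ∈ T
          · rw [if_pos c1, if_pos (Finset.mem_filter.1 c1).2.2]
          · rw [if_neg c1]; exact Nat.zero_le _
        · simp [hr]
    rw [o1, o2]
    have k4 : ∑ a ∈ T, X.sl a =
      ∑ a ∈ (Finset.range X.m).filter (fun a => X.x ≤ a ∧ g a = y), X.sl a := rfl
    rw [← k4]
    omega

theorem simple' (d e : D) (hd : S'.real d = true) (he : S'.real e = true)
    (h1 : S'.M.v d = S'.M.v e) (h2 : S'.M.v (S'.M.α d) = S'.M.v (S'.M.α e)) : d = e := by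
  by_cases hd' : ∀ i < P.n, f i ≠ d
  · by_cases he' : ∀ i < P.n, f i ≠ e
    · rw [h.rep.vo d hd', h.rep.vo e he'] at h1
      rw [h.out_vα hd', h.out_vα he'] at h2
      rw [h.rep.ro d hd'] at hd
      rw [h.rep.ro e he'] at he
      exact h.hW.simple d e hd he h1 h2
    · push Not at he'
      obtain ⟨i, hi, rfl⟩ := he'
      exfalso
      rw [h.rep.ro d hd'] at hd
      rw [h.real' hi] at he
      rw [h.rep.vo d hd', h.v' hi] at h1
      rw [h.out_vα hd', h.v_α' hi] at h2
      exact h.hso i hi he d hd' hd h1 h2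
  · push Not at hd'
    obtain ⟨i, hi, rfl⟩ := hd'
    rw [h.real' hi] at hd
    rw [h.v' hi] at h1
    rw [h.v_α' hi] at h2
    by_cases he' : ∀ i < P.n, f i ≠ e
    · exfalso
      rw [h.rep.ro e he'] at he
      rw [h.rep.vo e he'] at h1
      rw [h.out_vα he'] at h2
      exact h.hso i hi hd e he' he h1.symm h2.symm
    · push Not at he'
      obtain ⟨j, hj, rfl⟩ := he'
      rw [h.real' hj] at he
      rw [h.v' hj] at h1
      rw [h.v_α' hj] at h2
      rw [h.hsi i hi j hj hd he h1 h2]

/-- the replaced state is well-formed -/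
theorem wf : Wf Δ S' L' w' where
  real_α := h.rα'
  real_A _ hd := h.real_A' hd
  real_ne _ hd := h.real_ne' hd
  A_im _ hy := h.A_im' hy
  u_A _ hd := h.u_A' hd
  L_real _ hd := h.L_real' hd
  L_α d := by rw [h.rep.αo]; exact (h.Lα' d).1
  w_L _ hd := h.w_L' hd
  w_α d := by rw [h.rep.αo]; exact (h.Lα' d).2
  deg _ hy := h.deg' hy
  simple := h.simple'
  ex := h.ex

/-- class functions are constant on the pieces -/
theorem piece {t : D → Bool} (ht : S'.Cl t) {i : ℕ} (hi : i < P.n) :
    t (f i) = t (f (X.rt (X.pc i))) := by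
  have key : ∀ r, ∀ i < P.n, X.prk i = r → t (f i) = t (f (X.rt (X.pc i))) := by
    intro r
    induction r using Nat.strong_induction_on with
    | _ r ih =>
      intro i hi hr
      rcases (OD.stat1 h.stat hi).tr with h1 | ⟨h1, h2, h3, h4⟩
      · rw [← h1]
      · have h5 := ih _ (hr ▸ h1) _ h2 rfl
        rw [h3] at h5
        rw [← h5]
        rcases h4 with h4 | ⟨h4, h6, h7⟩
        · rw [h4, ← h.φ' hi, ht.1]
        · rw [h7, ← h.rep.e.hα i hi h4, ← h.rep.αo, ht.2 _ (by rw [h.real' hi]; exact h6)]
  exact key _ i hi rfl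

theorem sc_piece {i j : ℕ} (hi : i < P.n) (hj : j < P.n) (hij : X.pc i = X.pc j) :
    S'.sc.r (f i) (f j) := fun t ht => by
  rw [h.piece ht hi, h.piece ht hj, hij]

end RH

end Pool.FC7
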