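import Pool.Agent.FC7.RokA

/-! # The cuts of the replaced state -/

open Finset

set_option linter.unusedSectionVars false

namespace Pool.FC7

open Pool.FC6 Pool.FC6.St

namespace OD

variable (X : OD) (P P' : Pa)

/-- the colours at the ends of a dart are different -/
def crs (Q : Pa) (c i : ℕ) : Bool := c.testBit (Q.l i) != c.testBit (Q.l (Q.φ i))

/-- the contribution of the darts of `P'` -/
def inS' (c : ℕ) (τ : ℕ → Bool) : ℕ :=
  ∑ i ∈ Finset.range P.n, ((if P'.real i && crs P' c i then 1 + X.wt' i else 0) +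
    2 * (if c.testBit (P'.l i) != τ (X.pc i) then P'.u i else 0))

/-- every cut is large: by the darts of `P'` and `rb`, or by the lower bound `Bf` for the real cuts
of `S` -/
def Cuts (Bf rb : ℕ → ℕ) : Prop :=
  ∀ r < 2 ^ (X.m - X.x), r.testBit 0 = false → ∀ q < 2 ^ (X.x - X.lo), ∀ τ : ℕ → Bool,
    6 ≤ X.inS' P P' (2 ^ X.lo * (2 ^ (X.x - X.lo) * r + q)) τ +
      rb (2 ^ X.lo * (2 ^ (X.x - X.lo) * r + q)) ∨
    ((∃ ξ < 2 ^ X.x, 6 + FC6.OD.inS P (2 ^ X.x * r + ξ) ≤ 2 * Bf (2 ^ X.x * r + ξ) +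
        X.inS' P P' (2 ^ X.lo * (2 ^ (X.x - X.lo) * r + q)) τ) ∧
      (r ≠ 0 ∨ q = 0))

end OD

variable {D V : Type} [Fintype D] [DecidableEq V]

namespace RH

variable {Δ : ℕ} {S S' : St D V} {L L' : D → Bool} {w w' : D → ℕ} {P P' : Pa} {f : ℕ → D}
  {g : ℕ → V} {X : OD}

open Pool.FC6.RH (split)

variable (h : RH Δ S S' L L' w w' P P' f g X)

include h

open Classical in
theorem ec_aux {Bf rb : ℕ → ℕ} (hcuts : X.Cuts P P' Bf rb) (hxm : X.x < X.m)
    (hB : ∀ (s : V → Bool) (c : ℕ), (∀ a < X.m, c.testBit a = s (g a)) →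
      (∃ y ∈ S.A, s y = true) → (∃ y ∈ S.A, s y = false) → Bf c ≤ S.rc s)
    (hrb : ∀ (s : V → Bool) (t : D → Bool) (c : ℕ),
      (∀ a, X.x ≤ a → a < X.m → c.testBit a = s (g a)) →
      rb c ≤ ∑ d, if ∃ i < P.n, f i = d then 0 else cfw S' w' s t d)
    (s : V → Bool) (t : D → Bool) (ht : S'.Cl t) (h1 : ∃ y ∈ S'.A, s y = true)
    (h0 : s (g X.x) = false) : 6 ≤ ∑ d, cfw S' w' s t d := by
  have W := h.hW
  obtain ⟨l1, l2⟩ := OD.stat3 h.stat
  -- the masks
  let r := msk (X.m - X.x) (fun b => s (g (X.x + b)))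
  let q := msk (X.x - X.lo) (fun b => s (g (X.lo + b)))
  let τ : ℕ → Bool := fun q => t (f (X.rt q))
  let c0 := 2 ^ X.lo * (2 ^ (X.x - X.lo) * r + q)
  have hr : r < 2 ^ (X.m - X.x) := msk_lt _ _
  have hq : q < 2 ^ (X.x - X.lo) := msk_lt _ _
  have hr0 : r.testBit 0 = false := by
    rw [testBit_msk _ _ (by omega)]
    exact h0
  have c3 : 6 ≤ X.inS' P P' c0 τ + rb c0 ∨
      ((∃ ξ < 2 ^ X.x, 6 + FC6.OD.inS P (2 ^ X.x * r + ξ) ≤ 2 * Bf (2 ^ X.x * r + ξ) +
        X.inS' P P' c0 τ) ∧ (r ≠ 0 ∨ q = 0)) := hcuts r hr hr0 q hq τ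
  -- the bits
  have b0 : ∀ a, X.lo ≤ a → a < X.m → c0.testBit a = s (g a) := by
    intro a ha ha'
    have := Nat.testBit_two_pow_mul_add (2 ^ (X.x - X.lo) * r + q) (b := 0) (i := X.lo)
      (by positivity) a
    rw [add_zero] at this
    show (2 ^ X.lo * (2 ^ (X.x - X.lo) * r + q)).testBit a = _
    rw [this, if_neg (by omega), Nat.testBit_two_pow_mul_add _ hq]
    by_cases h3 : a - X.lo < X.x - X.lo
    · rw [if_pos h3, testBit_msk _ _ h3]
      congr 2; omega
    · rw [if_neg h3, testBit_msk _ _ (by omega)]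
      congr 2; omega
  -- the inner part of `S'`
  have k2 : ∑ i ∈ Finset.range P.n, cfw S' w' s t (f i) = X.inS' P P' c0 τ := by
    unfold OD.inS'
    refine Finset.sum_congr rfl fun i hi => ?_
    have hi := Finset.mem_range.1 hi
    have s1 := OD.stat1 h.stat hi
    show (if S'.real (f i) = true ∧ s (S'.M.v (f i)) ≠ s (S'.M.v (S'.M.α (f i))) then 1 else 0) +
      2 * (if s (S'.M.v (f i)) ≠ t (f i) then S'.u (f i) else 0) +
      (if s (S'.M.v (f i)) ≠ s (S'.M.v (S'.M.α (f i))) then w' (f i) else 0) = _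
    rw [h.real' hi, h.v' hi, h.v_α' hi, h.rep.hu' i hi, h.piece ht hi, h.hw' i hi]
    have e1 : (if P'.real i = true ∧ s (g (P'.l i)) ≠ s (g (P'.l (P'.φ i))) then 1 else 0) +
        (if s (g (P'.l i)) ≠ s (g (P'.l (P'.φ i))) then X.wt' i else 0) =
        if (P'.real i && OD.crs P' c0 i) = true then 1 + X.wt' i else 0 := by
      unfold OD.crs
      by_cases hr : P'.real i = true
      · have s3 := s1.r' hr
        rw [b0 _ s3.1 s3.2.1, b0 _ s3.2.2.1 s3.2.2.2, hr]
        by_cases h4 : s (g (P'.l i)) = s (g (P'.l (P'.φ i)))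
        · simp [h4]
        · simp [h4]
      · have hw0 : X.wt' i = 0 := by
          by_contra h6; exact hr (s1.lr (s1.wl h6))
        simp [hr, hw0]
    have e2 : (if s (g (P'.l i)) ≠ t (f (X.rt (X.pc i))) then P'.u i else 0) =
        if (c0.testBit (P'.l i) != τ (X.pc i)) = true then P'.u i else 0 := by
      by_cases hu : P'.u i = 0
      · rw [hu]; simp
      · have s3 := s1.u hu
        rw [b0 _ s3.1 s3.2]
        simp only [bne_iff_ne, ne_eq, τ]
    rw [← e1, e2]
    omega
  rw [split h.rep.e.inj (fun d => cfw S' w' s t d), k2]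
  rcases c3 with c3 | ⟨⟨ξ, hξ, c5⟩, c6⟩
  · have := hrb s t c0 (fun a h1 h2 => b0 a (by omega) h2)
    omega
  let s2 : V → Bool := fun y => if hy : ∃ a < X.x, g a = y then ξ.testBit hy.choose else s y
  have s2X : ∀ a < X.x, s2 (g a) = ξ.testBit a := by
    intro a ha
    have hex : ∃ b < X.x, g b = g a := ⟨a, ha, rfl⟩
    have : hex.choose = a := h.hgi _ hex.choose_spec.1 _ ha hex.choose_spec.2
    show (if hy : ∃ b < X.x, g b = g a then ξ.testBit hy.choose else s (g a)) = _
    rw [dif_pos hex, this]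
  have s2N : ∀ y, (∀ a < X.x, g a ≠ y) → s2 y = s y := by
    intro y hy
    show (if hy : ∃ b < X.x, g b = y then ξ.testBit hy.choose else s y) = _
    rw [dif_neg]
    rintro ⟨a, ha, h3⟩
    exact hy a ha h3
  have b1 : ∀ a < X.m, (2 ^ X.x * r + ξ).testBit a = s2 (g a) := by
    intro a ha
    rw [Nat.testBit_two_pow_mul_add r hξ]
    by_cases h3 : a < X.x
    · rw [if_pos h3, s2X a h3]
    · rw [if_neg h3, s2N _ (fun b hb h4 => h.hgd b hb a (by omega) ha h4.symm),
        testBit_msk _ _ (by omega)]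
      congr 2; omega
  have gx : ∀ a < X.x, g a ≠ g X.x := fun a ha h3 => h.hgd a ha _ le_rfl hxm h3.symm
  have hgx : g X.x ∈ S.A := h.hgA _ le_rfl hxm
  by_cases hc : ∃ y ∈ S.A, (∀ a < X.x, g a ≠ y) ∧ s y = true
  · obtain ⟨y1, y2, y3, y4⟩ := hc
    have hrc := hB s2 _ b1 ⟨y1, y2, by rw [s2N _ y3, y4]⟩ ⟨_, hgx, by rw [s2N _ gx, h0]⟩
    have htwo := St.rc_two W.real_α s2
    rw [split h.rep.e.inj] at htwo
    -- the inner part of `S`
    have k1 : ∑ i ∈ Finset.range P.n, (if S.real (f i) = true ∧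
        s2 (S.M.v (f i)) ≠ s2 (S.M.v (S.M.α (f i))) then 1 else 0) =
        FC6.OD.inS P (2 ^ X.x * r + ξ) := by
      unfold FC6.OD.inS
      rw [sumN_eq]
      refine Finset.sum_congr rfl fun i hi => ?_
      have hi := Finset.mem_range.1 hi
      rw [h.rep.e.hr i hi, h.rep.e.hl i hi, h.v_α hi]
      by_cases hr : P.real i = true
      · have s1 := (OD.stat1 h.stat hi).r hr
        rw [b1 _ s1.1, b1 _ s1.2, hr]
        simp [bne_iff_ne]
      · simp [hr]
    rw [k1] at htwo
    -- the outer part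
    have k3 : (∑ d, if ∃ i < P.n, f i = d then 0 else (if S.real d = true ∧
        s2 (S.M.v d) ≠ s2 (S.M.v (S.M.α d)) then 1 else 0)) ≤
        ∑ d, if ∃ i < P.n, f i = d then 0 else cfw S' w' s t d := by
      refine Finset.sum_le_sum fun d _ => ?_
      by_cases hd : ∃ i < P.n, f i = d
      · rw [if_pos hd, if_pos hd]
      · rw [if_neg hd, if_neg hd]
        push Not at hd
        have e3 : (if S.real d = true ∧ s (S.M.v d) ≠ s (S.M.v (S.M.α d)) then 1
            else 0) ≤ cfw S' w' s t d := by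
          have e4 : cfw S' w' s t d = (if S'.real d = true ∧ s (S'.M.v d) ≠ s (S'.M.v (S'.M.α d))
            then 1 else 0) + 2 * (if s (S'.M.v d) ≠ t d then S'.u d else 0) +
            (if s (S'.M.v d) ≠ s (S'.M.v (S'.M.α d)) then w' d else 0) := rfl
          rw [e4, h.rep.ro d hd, h.rep.vo d hd, h.out_vα hd]
          omega
        refine le_trans ?_ e3
        by_cases hr : S.real d = true
        · have e4 : s2 (S.M.v d) = s (S.M.v d) := s2N _ (fun a ha h4 => h.out_X hd ha h4.symm)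
          have e5 : s2 (S.M.v (S.M.α d)) = s (S.M.v (S.M.α d)) := by
            refine s2N _ (fun a ha h4 => ?_)
            rcases h.out_α hd with h5 | ⟨j, hj, h5, h6⟩
            · exact h.out_X h5 ha h4.symm
            · have s1 := OD.stat1 h.stat hj
              have rj : P.real j = true := by
                rw [← h.rep.e.hr j hj, h5, W.real_α]; exact hr
              rw [← h5, h.rep.e.hl j hj] at h4
              exact h.hgd a ha _ (s1.ring h6).2.2.2.1 (s1.r rj).1 h4.symm
          rw [e4, e5]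
        · simp [hr]
    omega
  · -- `s` is constant away from the interior labels
    exfalso
    have hf : ∀ y ∈ S.A, (∀ a < X.x, g a ≠ y) → s y = false := by
      intro y hy hy'
      by_contra h3
      exact hc ⟨y, hy, hy', by simpa using h3⟩
    have r0 : r = 0 := by
      apply Nat.eq_of_testBit_eq
      intro b
      rw [Nat.zero_testBit]
      by_cases hb : b < X.m - X.x
      · rw [testBit_msk _ _ hb]
        exact hf _ (h.hgA _ (by omega) (by omega))
          (fun a ha h3 => h.hgd a ha (X.x + b) (by omega) (by omega) h3.symm)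
      · exact Nat.testBit_lt_two_pow (lt_of_lt_of_le hr (Nat.pow_le_pow_right (by omega)
          (by omega)))
    have q0 : q = 0 := by
      rcases c6 with c6 | c6
      · exact absurd r0 c6
      · exact c6
    obtain ⟨y, hy, hy'⟩ := h1
    rw [h.hA] at hy
    rcases hy with ⟨a, ha, ha', rfl⟩ | hy
    · have := testBit_msk (X.x - X.lo) (fun b => s (g (X.lo + b))) (a := a - X.lo) (by omega)
      rw [show msk (X.x - X.lo) (fun b => s (g (X.lo + b))) = 0 from q0,
        Nat.zero_testBit] at this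
      rw [show X.lo + (a - X.lo) = a by omega, hy'] at this
      exact absurd this (by simp)
    · rw [hf y hy.1 hy.2] at hy'
      exact absurd hy' (by simp)

omit h in
theorem cfw_neg (S : St D V) (w : D → ℕ) (s : V → Bool) (t : D → Bool) (d : D) :
    cfw S w (fun x => !s x) (fun e => !t e) d = cfw S w s t d := by
  have k : ∀ a b : Bool, ((!a) ≠ (!b)) ↔ (a ≠ b) := by decide
  unfold cfw St.cf
  simp only [k]

open Classical in
theorem ec {Bf rb : ℕ → ℕ} (hcuts : X.Cuts P P' Bf rb) (hxm : X.x < X.m)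
    (hB : ∀ (s : V → Bool) (c : ℕ), (∀ a < X.m, c.testBit a = s (g a)) →
      (∃ y ∈ S.A, s y = true) → (∃ y ∈ S.A, s y = false) → Bf c ≤ S.rc s)
    (hrb : ∀ (s : V → Bool) (t : D → Bool) (c : ℕ),
      (∀ a, X.x ≤ a → a < X.m → c.testBit a = s (g a)) →
      rb c ≤ ∑ d, if ∃ i < P.n, f i = d then 0 else cfw S' w' s t d)
    (s : V → Bool) (t : D → Bool) (ht : S'.Cl t) (h1 : ∃ y ∈ S'.A, s y = true)
    (h2 : ∃ y ∈ S'.A, s y = false) : 6 ≤ ∑ d, cfw S' w' s t d := by
  by_cases h0 : s (g X.x) = false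
  · exact h.ec_aux hcuts hxm hB hrb s t ht h1 h0
  · have h0' : s (g X.x) = true := by simpa using h0
    have := h.ec_aux hcuts hxm hB hrb (fun x => !s x) (fun e => !t e)
      ⟨fun d => by simp only [ht.1], fun d hd => by simp only [ht.2 d hd]⟩
      (by obtain ⟨y, hy, hy'⟩ := h2; exact ⟨y, hy, by simp [hy']⟩) (by simp [h0'])
    simpa only [cfw_neg] using this

/-- the real ring darts with surely outside reversal -/
theorem rb1 (s : V → Bool) (t : D → Bool) (c : ℕ)
    (hc : ∀ a, X.x ≤ a → a < X.m → c.testBit a = s (g a)) :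
    (∑ i ∈ Finset.range P.n, if X.rg P i && P.real i && OD.crs P c i then 1 + X.wt' i else 0) ≤
      open Classical in ∑ d, if ∃ i < P.n, f i = d then 0 else cfw S' w' s t d := by
  classical
  rw [← Finset.sum_filter]
  set R := (Finset.range P.n).filter fun i => (X.rg P i && P.real i && OD.crs P c i) = true with hR
  have e1 : ∀ i ∈ R, 1 + X.wt' i ≤ (if ∃ j < P.n, f j = S.M.α (f i) then 0
      else cfw S' w' s t (S.M.α (f i))) := by
    intro i hi
    rw [hR, Finset.mem_filter, Finset.mem_range, Bool.and_eq_true, Bool.and_eq_true] at hi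
    obtain ⟨hi, ⟨h1, h2⟩, h3⟩ := hi
    have ho := h.hro i hi h1
    rw [if_neg (by push Not; exact ho)]
    have ha : P.α i = i := by
      unfold OD.rg at h1
      rw [Bool.and_eq_true] at h1
      exact of_decide_eq_true h1.1
    have s1 := OD.stat1 h.stat hi
    have r1 := s1.ring ha
    have r2 := s1.r h2
    have e4 : cfw S' w' s t (S.M.α (f i)) = (if S'.real (S.M.α (f i)) = true ∧
        s (S'.M.v (S.M.α (f i))) ≠ s (S'.M.v (S'.M.α (S.M.α (f i)))) then 1 else 0) +
        2 * (if s (S'.M.v (S.M.α (f i))) ≠ t (S.M.α (f i)) then S'.u (S.M.α (f i)) else 0) +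
        (if s (S'.M.v (S.M.α (f i))) ≠ s (S'.M.v (S'.M.α (S.M.α (f i)))) then
          w' (S.M.α (f i)) else 0) := rfl
    have e5 : S'.real (S.M.α (f i)) = true := by
      rw [← h.rep.αo, h.rα', h.real' hi, r1.1, h2]
    have e6 : S'.M.v (S'.M.α (S.M.α (f i))) = g (P.l i) := by
      rw [h.out_vα ho, S.M.αα, h.rep.e.hl i hi]
    have e7 : S'.M.v (S.M.α (f i)) = g (P.l (P.φ i)) := by
      rw [h.rep.vo _ ho, h.v_α hi]
    have e8 : s (g (P.l (P.φ i))) ≠ s (g (P.l i)) := by
      unfold OD.crs at h3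
      rw [hc _ r1.2.2.2.1 r2.1, hc _ r1.2.2.2.2 r2.2] at h3
      rw [bne_iff_ne] at h3
      exact fun h9 => h3 h9.symm
    rw [e4, e5, e6, e7, if_pos ⟨rfl, e8⟩, if_pos e8, (h.Lr i hi h1).2]
    omega
  refine le_trans (Finset.sum_le_sum e1) ?_
  have e2 := Finset.sum_image (s := R) (g := fun i => S.M.α (f i))
    (f := fun d => if ∃ j < P.n, f j = d then 0 else cfw S' w' s t d) (fun i hi j hj hij => by
      rw [hR] at hi hj
      simp only [Finset.coe_filter, Finset.mem_range, Set.mem_ofPred_eq] at hi hj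
      exact h.rep.e.inj i hi.1 j hj.1 (S.M.αinj hij))
  rw [← e2]
  exact Finset.sum_le_sum_of_subset (Finset.subset_univ _)

end RH

end Pool.FC7
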