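import Pool.Agent.FC7.RokB

/-! # The faces of the replaced state -/

open Finset

set_option linter.unusedSectionVars false

namespace Pool.FC7

open Pool.FC6 Pool.FC6.St

variable {D V : Type} [Fintype D] [DecidableEq V]

namespace RH

variable {Δ : ℕ} {S S' : St D V} {L L' : D → Bool} {w w' : D → ℕ} {P P' : Pa} {f : ℕ → D}
  {g : ℕ → V} {X : OD}

open Pool.FC6.RH (split)

variable (h : RH Δ S S' L L' w w' P P' f g X)

include h

/-- the face of `d` touches the patch -/
def Tch (_ : RH Δ S S' L L' w w' P P' f g X) (d : D) : Prop := ∃ i < P.n, S'.sc.r d (f i)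

/-- the untouched classes -/
theorem cl0 {t : D → Bool} (ht : S'.Cl t) (h0 : ∀ i < P.n, t (f i) = false) : S.Cl t := by
  classical
  refine ⟨fun d => ?_, fun d hd => ?_⟩
  · by_cases hd' : ∀ i < P.n, f i ≠ d
    · rw [← h.rep.φo d hd', ht.1]
    · push Not at hd'
      obtain ⟨i, hi, rfl⟩ := hd'
      rw [h.rep.e.hφ i hi, h0 i hi, h0 _ (h.rep.G.φlt i hi)]
  · by_cases hd' : ∀ i < P.n, f i ≠ d
    · rw [← h.rep.αo, ht.2 d (by rw [h.rep.ro d hd']; exact hd)]
    · push Not at hd'
      obtain ⟨i, hi, rfl⟩ := hd'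
      by_cases ha : P.α i = i
      · have s1 := (OD.stat1 h.stat hi).ring ha
        rw [← h.rep.αo, ht.2 _ (by rw [h.real' hi, s1.1, ← h.rep.e.hr i hi]; exact hd)]
      · rw [h.rep.e.hα i hi ha, h0 i hi, h0 _ (h.rep.G.αlt i hi)]

/-- the untouched faces are not changed -/
theorem sc_un {d : D} (hd : ¬ h.Tch d) {e : D} : S'.sc.r d e ↔ S.sc.r d e := by
  classical
  have c : ∀ e, S'.sc.r d e → ∀ i < P.n, f i ≠ e := fun e he i hi h2 => hd ⟨i, hi, h2 ▸ he⟩
  constructor
  · intro h1
    have key : S'.Cl (fun e => decide (S.sc.r d e ∧ S'.sc.r d e)) := by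
      refine ⟨fun e => ?_, fun e he => ?_⟩
      · show decide (_ ∧ _) = decide (_ ∧ _)
        rw [decide_eq_decide, scφ]
        constructor
        · rintro ⟨a1, a2⟩
          refine ⟨?_, a2⟩
          rw [h.rep.φo _ (c e a2), scφ] at a1
          exact a1
        · rintro ⟨a1, a2⟩
          refine ⟨?_, a2⟩
          rw [h.rep.φo _ (c e a2), scφ]
          exact a1
      · show decide (_ ∧ _) = decide (_ ∧ _)
        rw [decide_eq_decide, scα he]
        constructor
        · rintro ⟨a1, a2⟩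
          refine ⟨?_, a2⟩
          rw [h.rep.αo, scα (by rw [← h.rep.ro _ (c e a2)]; exact he)] at a1
          exact a1
        · rintro ⟨a1, a2⟩
          refine ⟨?_, a2⟩
          rw [h.rep.αo, scα (by rw [← h.rep.ro _ (c e a2)]; exact he)]
          exact a1
    have h2 := h1 _ key
    have h3 : decide (S.sc.r d d ∧ S'.sc.r d d) = true :=
      decide_eq_true ⟨S.sc.iseqv.refl d, S'.sc.iseqv.refl d⟩
    rw [h3] at h2
    exact (of_decide_eq_true h2.symm).1
  · intro h1
    have k1 := h.cl0 (t := fun e => decide (S'.sc.r d e)) ⟨fun e => by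
      show decide (S'.sc.r d _) = decide (S'.sc.r d _)
      rw [decide_eq_decide, scφ], fun e he => by
      show decide (S'.sc.r d _) = decide (S'.sc.r d _)
      rw [decide_eq_decide, scα he]⟩ (fun i hi => by
      show decide (S'.sc.r d (f i)) = false
      rw [decide_eq_false_iff_not]
      exact fun h2 => hd ⟨i, hi, h2⟩)
    have h2 := h1 _ k1
    have h3 : decide (S'.sc.r d d) = true := decide_eq_true (S'.sc.iseqv.refl d)
    rw [h3] at h2
    exact of_decide_eq_true h2.symm

theorem out_of_un {d : D} (hd : ¬ h.Tch d) {e : D} (he : S'.sc.r d e) : ∀ i < P.n, f i ≠ e :=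
  fun i hi h2 => hd ⟨i, hi, h2 ▸ he⟩

theorem fu_un {d : D} (hd : ¬ h.Tch d) : fu S' d = fu S d := by
  classical
  unfold fu
  refine Finset.sum_congr rfl fun e _ => ?_
  by_cases hc : S'.sc.r d e
  · rw [if_pos hc, if_pos ((h.sc_un hd).1 hc), h.rep.uo e (h.out_of_un hd hc)]
  · rw [if_neg hc, if_neg (fun h2 => hc ((h.sc_un hd).2 h2))]

theorem two_un {d : D} (hd : ¬ h.Tch d) (hT : Two S d) : Two S' d := by
  obtain ⟨e, e', a1, a2, a3, a4, a5, a6⟩ := hT
  have b1 := (h.sc_un hd).2 a1
  have b2 := (h.sc_un hd).2 a2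
  have o1 := h.out_of_un hd b1
  have o2 := h.out_of_un hd b2
  refine ⟨e, e', b1, b2, by rw [h.rep.uo e o1]; exact a3, by rw [h.rep.uo e' o2]; exact a4, by
    rw [h.rep.vo e o1, h.rep.vo e' o2]; exact a5, fun r hr hs => ?_⟩
  have o3 := h.out_of_un hd hs
  rw [h.rep.vo e o1, h.rep.vo e' o2, h.rep.vo r o3, h.out_vα o3]
  exact a6 r (by rw [← h.rep.ro r o3]; exact hr) ((h.sc_un hd).1 hs)

/-- the outer darts of a touched face -/
theorem class_out {i : ℕ} (_ : i < P.n) {d : D} (hd : ∀ j < P.n, f j ≠ d)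
    (hs : S'.sc.r (f i) d) : ∃ j < P.n, P.α j = j ∧ P.real j = false ∧ S.sc.r (f j) d ∧
      S'.sc.r (f i) (f j) := by
  classical
  let Q : D → Prop := fun d => S'.sc.r (f i) d → (∀ j < P.n, f j ≠ d) →
    ∃ j < P.n, P.α j = j ∧ P.real j = false ∧ S.sc.r (f j) d ∧ S'.sc.r (f i) (f j)
  have hcl : S'.Cl (fun e => decide (Q e)) := by
    refine ⟨fun e => ?_, fun e he => ?_⟩
    · show decide (Q _) = decide (Q _)
      rw [decide_eq_decide]
      by_cases ho : ∀ j < P.n, f j ≠ e
      · have ho' := h.out_φ ho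
        simp only [Q]
        rw [scφ, h.rep.φo e ho]
        simp only [scφ]
        exact ⟨fun h1 h2 _ => h1 h2 ho', fun h1 h2 _ => h1 h2 ho⟩
      · constructor
        · intro _ _ h3; exact absurd h3 ho
        · intro _ _ h3
          push Not at ho
          obtain ⟨j, hj, rfl⟩ := ho
          exact absurd (h.φ' hj).symm (h3 _ (h.φlt' hj))
    · show decide (Q _) = decide (Q _)
      rw [decide_eq_decide]
      have step : ∀ e, S'.real e = false → Q e → Q (S.M.α e) := by
        intro e he hq h1 h2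
        have h1' : S'.sc.r (f i) e := by
          rw [← h.rep.αo] at h1
          exact (scα he _).1 h1
        by_cases ho : ∀ j < P.n, f j ≠ e
        · obtain ⟨j, hj, a1, a2, a3, a4⟩ := hq h1' ho
          refine ⟨j, hj, a1, a2, ?_, a4⟩
          exact (scα (by rw [← h.rep.ro e ho]; exact he) _).2 a3
        · push Not at ho
          obtain ⟨j, hj, rfl⟩ := ho
          have ha : P.α j = j := by
            by_contra hne
            have := h.rep.e.hα j hj hne
            exact h2 _ (h.rep.G.αlt j hj) this.symm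
          have hr : P.real j = false := by
            rw [← ((OD.stat1 h.stat hj).ring ha).1, ← h.real' hj]; exact he
          refine ⟨j, hj, ha, hr, ?_, h1'⟩
          exact (scα (by rw [h.rep.e.hr j hj]; exact hr) _).2 (S.sc.iseqv.refl _)
      rw [h.rep.αo]
      refine ⟨fun h1 => ?_, step e he⟩
      have := step (S.M.α e) (by rw [← h.rep.αo, h.rα']; exact he) h1
      rwa [S.M.αα] at this
  have h1 := hs _ hcl
  have h2 : decide (Q (f i)) = true :=
    decide_eq_true (fun _ h3 => absurd rfl (h3 i (by assumption)))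
  rw [h2] at h1
  exact (of_decide_eq_true h1.symm) hs hd

/-- outer parts of a face of `S` which stay in one face -/
theorem outer_sc {i : ℕ} (hi : i < P.n)
    (hK : ∀ j < P.n, P.α j = j → P.real j = false → S.sc.r (f i) (f j) → S'.sc.r (f i) (f j))
    {d : D} (hd : ∀ j < P.n, f j ≠ d) (hs : S.sc.r (f i) d) : S'.sc.r (f i) d := by
  classical
  let Q : D → Prop := fun d => S.sc.r (f i) d → (∀ j < P.n, f j ≠ d) → S'.sc.r (f i) d
  have hcl : S.Cl (fun e => decide (Q e)) := by
    refine ⟨fun e => ?_, fun e he => ?_⟩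
    · show decide (Q _) = decide (Q _)
      rw [decide_eq_decide]
      by_cases ho : ∀ j < P.n, f j ≠ e
      · have ho' := h.out_φ ho
        simp only [Q]
        rw [scφ, ← h.rep.φo e ho, scφ, h.rep.φo e ho]
        exact ⟨fun h1 h2 _ => h1 h2 ho', fun h1 h2 _ => h1 h2 ho⟩
      · constructor
        · intro _ _ h3; exact absurd h3 ho
        · intro _ _ h3
          push Not at ho
          obtain ⟨j, hj, rfl⟩ := ho
          exact absurd (h.rep.e.hφ j hj).symm (h3 _ (h.rep.G.φlt j hj))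
    · show decide (Q _) = decide (Q _)
      rw [decide_eq_decide]
      have step : ∀ e, S.real e = false → Q e → Q (S.M.α e) := by
        intro e he hq h1 h2
        have h1' : S.sc.r (f i) e := (scα he _).1 h1
        by_cases ho : ∀ j < P.n, f j ≠ e
        · rw [← h.rep.αo]
          exact (scα (by rw [h.rep.ro e ho]; exact he) _).2 (hq h1' ho)
        · push Not at ho
          obtain ⟨j, hj, rfl⟩ := ho
          have ha : P.α j = j := by
            by_contra hne
            have := h.rep.e.hα j hj hne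
            exact h2 _ (h.rep.G.αlt j hj) this.symm
          have hr : P.real j = false := by rw [← h.rep.e.hr j hj]; exact he
          have hr' : S'.real (f j) = false := by
            rw [h.real' hj, ((OD.stat1 h.stat hj).ring ha).1]; exact hr
          rw [← h.rep.αo]
          exact (scα hr' _).2 (hK j hj ha hr h1')
      refine ⟨fun h1 => ?_, step e he⟩
      have := step (S.M.α e) (by rw [h.hW.real_α]; exact he) h1
      rwa [S.M.αα] at this
  have h1 := hs _ hcl
  have h2 : decide (Q (f i)) = true :=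
    decide_eq_true (fun _ h3 => absurd rfl (h3 i hi))
  rw [h2] at h1
  exact (of_decide_eq_true h1.symm) hs hd

/-- the units of a piece -/
theorem fu_piece {i : ℕ} (hi : i < P.n) :
    (∑ j ∈ Finset.range P.n, if X.pc j = X.pc i then P'.u j else 0) ≤ fu S' (f i) := by
  classical
  unfold fu
  rw [split h.rep.e.inj]
  refine le_trans (Finset.sum_le_sum fun j hj => ?_) (Nat.le_add_left _ _)
  have hj := Finset.mem_range.1 hj
  by_cases h1 : X.pc j = X.pc i
  · rw [if_pos h1, if_pos (h.sc_piece hi hj h1.symm), h.rep.hu' j hj]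
  · rw [if_neg h1]; exact Nat.zero_le _

open Classical in
/-- the units of a piece together with an outer part -/
theorem fu_outer {i : ℕ} (hi : i < P.n)
    (hK : ∀ j < P.n, P.α j = j → P.real j = false → S.sc.r (f i) (f j) → S'.sc.r (f i) (f j)) :
    fu S (f i) + (∑ j ∈ Finset.range P.n, if X.pc j = X.pc i then P'.u j else 0) ≤
      fu S' (f i) + ∑ j ∈ Finset.range P.n, if S.sc.r (f i) (f j) then S.u (f j) else 0 := by
  unfold fu
  rw [split h.rep.e.inj, split h.rep.e.inj (fun e => if S'.sc.r (f i) e then S'.u e else 0)]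
  have e1 : (∑ d, if ∃ j < P.n, f j = d then 0 else if S.sc.r (f i) d then S.u d else 0) ≤
      ∑ d, if ∃ j < P.n, f j = d then 0 else if S'.sc.r (f i) d then S'.u d else 0 := by
    refine Finset.sum_le_sum fun d _ => ?_
    by_cases hd : ∃ j < P.n, f j = d
    · rw [if_pos hd, if_pos hd]
    · rw [if_neg hd, if_neg hd]
      push Not at hd
      by_cases h1 : S.sc.r (f i) d
      · rw [if_pos h1, if_pos (h.outer_sc hi hK hd h1), h.rep.uo d hd]
      · rw [if_neg h1]; exact Nat.zero_le _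
  have e2 : (∑ j ∈ Finset.range P.n, if X.pc j = X.pc i then P'.u j else 0) ≤
      ∑ j ∈ Finset.range P.n, if S'.sc.r (f i) (f j) then S'.u (f j) else 0 := by
    refine Finset.sum_le_sum fun j hj => ?_
    have hj := Finset.mem_range.1 hj
    by_cases h1 : X.pc j = X.pc i
    · rw [if_pos h1, if_pos (h.sc_piece hi hj h1.symm), h.rep.hu' j hj]
    · rw [if_neg h1]; exact Nat.zero_le _
  omega

/-- two nonadjacent unit corners of a piece -/
theorem two_piece {i j k : ℕ} (hi : i < P.n) (hj : j < P.n) (hk : k < P.n)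
    (hij : X.pc i = X.pc j) (hik : X.pc i = X.pc k) (uj : P'.u j ≠ 0) (uk : P'.u k ≠ 0)
    (hne : g (P'.l j) ≠ g (P'.l k))
    (hin : ∀ r < P.n, P'.real r = true → ¬ (g (P'.l r) = g (P'.l j) ∧
      g (P'.l (P'.φ r)) = g (P'.l k)) ∧ ¬ (g (P'.l r) = g (P'.l k) ∧
      g (P'.l (P'.φ r)) = g (P'.l j)))
    (hout : ∀ r, (∀ j < P.n, f j ≠ r) → S.real r = true → ¬ (S.M.v r = g (P'.l j) ∧
      S.M.v (S.M.α r) = g (P'.l k)) ∧ ¬ (S.M.v r = g (P'.l k) ∧
      S.M.v (S.M.α r) = g (P'.l j))) : Two S' (f i) := by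
  refine ⟨f j, f k, h.sc_piece hi hj hij, h.sc_piece hi hk hik, by rw [h.rep.hu' j hj]; exact uj,
    by rw [h.rep.hu' k hk]; exact uk, by rw [h.v' hj, h.v' hk]; exact hne, fun r hr _ => ?_⟩
  rw [h.v' hj, h.v' hk]
  by_cases hd : ∀ j < P.n, f j ≠ r
  · rw [h.rep.vo r hd, h.out_vα hd]
    exact hout r hd (by rw [← h.rep.ro r hd]; exact hr)
  · push Not at hd
    obtain ⟨m, hm, rfl⟩ := hd
    rw [h.v' hm, h.v_α' hm]
    exact hin m hm (by rw [← h.real' hm]; exact hr)

/-- the thresholds of the faces of the replaced state -/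
theorem thr (ht : ∀ d, S.u d ≠ 0 → 3 ≤ fu S d ∨ Two S d)
    (hq : ∀ i < P.n, 3 ≤ fu S' (f i) ∨ Two S' (f i) ∨ (P'.u i = 0 ∧
      (P.α i = i → P.real i = false → ∀ d, S.sc.r (f i) d → S.u d = 0)))
    (d : D) (hd : S'.u d ≠ 0) : 3 ≤ fu S' d ∨ Two S' d := by
  by_cases hT : h.Tch d
  · obtain ⟨i, hi, hs⟩ := hT
    have tr : ∀ j < P.n, S'.sc.r d (f j) → (3 ≤ fu S' (f j) ∨ Two S' (f j)) →
        3 ≤ fu S' d ∨ Two S' d := by
      intro j _ h1 h2
      rcases h2 with h2 | h2
      · left; rw [fu_congr h1]; exact h2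
      · right; exact h2.congr (S'.sc.iseqv.symm h1)
    by_cases ho : ∀ j < P.n, f j ≠ d
    · obtain ⟨j, hj, a1, a2, a3, a4⟩ := h.class_out hi ho (S'.sc.iseqv.symm hs)
      rcases hq j hj with h1 | h1 | ⟨_, h1⟩
      · exact tr j hj (S'.sc.iseqv.trans hs a4) (Or.inl h1)
      · exact tr j hj (S'.sc.iseqv.trans hs a4) (Or.inr h1)
      · exact absurd (h1 a1 a2 d a3) (by rw [← h.rep.uo d ho]; exact hd)
    · push Not at ho
      obtain ⟨j, hj, rfl⟩ := ho
      rcases hq j hj with h1 | h1 | ⟨h1, _⟩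
      · exact Or.inl h1
      · exact Or.inr h1
      · rw [h.rep.hu' j hj] at hd
        exact absurd h1 hd
  · have ho := h.out_of_un hT (S'.sc.iseqv.refl d)
    rw [h.rep.uo d ho] at hd
    rcases ht d hd with h1 | h1
    · left; rw [h.fu_un hT]; exact h1
    · right; exact h.two_un hT h1

open Classical in
/-- THE REPLACED STATE BELONGS TO THE CLASS -/
theorem ok (ht : ∀ d, S.u d ≠ 0 → 3 ≤ fu S d ∨ Two S d) {Bf rb : ℕ → ℕ}
    (hcuts : X.Cuts P P' Bf rb) (hxm : X.x < X.m)
    (hB : ∀ (s : V → Bool) (c : ℕ), (∀ a < X.m, c.testBit a = s (g a)) →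
      (∃ y ∈ S.A, s y = true) → (∃ y ∈ S.A, s y = false) → Bf c ≤ S.rc s)
    (hrb : ∀ (s : V → Bool) (t : D → Bool) (c : ℕ),
      (∀ a, X.x ≤ a → a < X.m → c.testBit a = s (g a)) →
      rb c ≤ ∑ d, if ∃ i < P.n, f i = d then 0 else cfw S' w' s t d)
    (hq : ∀ i < P.n, 3 ≤ fu S' (f i) ∨ Two S' (f i) ∨ (P'.u i = 0 ∧
      (P.α i = i → P.real i = false → ∀ d, S.sc.r (f i) d → S.u d = 0))) : Ok Δ S' L' w' where
  toWf := h.wf
  ec := h.ec hcuts hxm hB hrb
  thr := h.thr ht hq

end RH

end Pool.FC7
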