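import Pool.Agent.FC7.RokC

/-! # The potential of the replaced state -/

open Finset

set_option linter.unusedSectionVars false

namespace Pool.FC7

open Pool.FC6 Pool.FC6.St

namespace OD

variable (X : OD) (P P' : Pa)

/-- the real degree of the label `a` in `P'` -/
def rd' (a : ℕ) : ℕ := sumN P.n fun i => if P'.real i && decide (P'.l i = a) then 1 else 0

/-- the number of labels -/
def nlb : ℕ := sumN P.n fun i => if X.lb i then (if X.rg P i then 2 else 1) else 0

/-- the number of new labels -/
def nlb' : ℕ := sumN P.n fun i => if X.lb' i then (if X.rg P i then 2 else 1) else 0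

/-- the number of new vertices with at most three real edges -/
def ns' : ℕ := sumN X.x fun a => if decide (X.lo ≤ a) && decide (rd' P P' a < 4) then 1 else 0

/-- the number of new vertices with at least four real edges -/
def nb' : ℕ := sumN X.x fun a => if decide (X.lo ≤ a) && decide (4 ≤ rd' P P' a) then 1 else 0

end OD

variable {D V : Type} [Fintype D] [DecidableEq V]

namespace RH

variable {Δ : ℕ} {S S' : St D V} {L L' : D → Bool} {w w' : D → ℕ} {P P' : Pa} {f : ℕ → D}
  {g : ℕ → V} {X : OD}

open Pool.FC6.RH (split)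

variable (h : RH Δ S S' L L' w w' P P' f g X)

include h

/-- the real degree of a new vertex -/
theorem rdeg_new {a : ℕ} (ha' : a < X.x) : S'.rdeg (g a) = OD.rd' P P' a := by
  classical
  have s3 := OD.stat3 h.stat
  unfold St.rdeg OD.rd'
  rw [split h.rep.e.inj, Finset.sum_eq_zero, zero_add, sumN_eq]
  · refine Finset.sum_congr rfl fun i hi => ?_
    have hi := Finset.mem_range.1 hi
    rw [h.v' hi, h.real' hi]
    by_cases hr : P'.real i = true
    · have s1 := (OD.stat1 h.stat hi).r' hr
      have e : g (P'.l i) = g a ↔ P'.l i = a := by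
        constructor
        · intro h5
          by_cases h7 : P'.l i < X.x
          · exact h.hgi _ h7 _ ha' h5
          · exact absurd h5 (h.hgd a ha' _ (by omega) s1.2.1)
        · intro h5; rw [h5]
      by_cases h6 : P'.l i = a
      · rw [if_pos ⟨e.2 h6, hr⟩, hr, decide_eq_true h6]; rfl
      · rw [if_neg (fun h7 => h6 (e.1 h7.1)), decide_eq_false h6, Bool.and_false]; rfl
    · rw [if_neg (fun h7 => hr h7.2)]
      simp [hr]
  · intro d _
    by_cases hd : ∃ i < P.n, f i = d
    · rw [if_pos hd]
    · rw [if_neg hd]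
      push Not at hd
      rw [h.rep.vo d hd, if_neg (fun h5 => h.out_X hd ha' h5.1)]

/-- the vertices of `S` away from the interior labels -/
def Ao (_ : RH Δ S S' L L' w w' P P' f g X) : Finset V :=
  open Classical in S.A.filter fun y => ∀ a < X.x, g a ≠ y

theorem card_A (la : List ℕ) (hn : la.Nodup) (hla : ∀ a ∈ la, a < X.x ∧ g a ∈ S.A) :
    h.Ao.card + la.length ≤ S.A.card := by
  classical
  rw [← List.toFinset_card_of_nodup hn]
  have e1 : (la.toFinset.image g).card = la.toFinset.card := by
    refine Finset.card_image_of_injOn fun a ha b hb hab => ?_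
    simp only [List.coe_toFinset, Set.mem_ofPred_eq] at ha hb
    exact h.hgi a (hla a ha).1 b (hla b hb).1 hab
  rw [← e1, ← Finset.card_union_of_disjoint]
  · refine Finset.card_le_card fun y hy => ?_
    rcases Finset.mem_union.1 hy with hy | hy
    · exact (Finset.mem_filter.1 hy).1
    · obtain ⟨a, ha, rfl⟩ := Finset.mem_image.1 hy
      exact (hla a (List.mem_toFinset.1 ha)).2
  · rw [Finset.disjoint_left]
    intro y hy hy'
    obtain ⟨a, ha, rfl⟩ := Finset.mem_image.1 hy'
    exact (Finset.mem_filter.1 hy).2 a (hla a (List.mem_toFinset.1 ha)).1 rfl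

theorem cnt_new (p : ℕ → Prop) [DecidablePred p] :
    (S'.A.filter fun x => p (S'.rdeg x)).card ≤
      (h.Ao.filter fun x => p (S'.rdeg x)).card +
      sumN X.x (fun a => if decide (X.lo ≤ a) && decide (p (OD.rd' P P' a)) then 1 else 0) := by
  classical
  have e1 : sumN X.x (fun a => if decide (X.lo ≤ a) && decide (p (OD.rd' P P' a)) then 1 else 0) =
      ((Finset.range X.x).filter fun a => X.lo ≤ a ∧ p (OD.rd' P P' a)).card := by
    rw [sumN_eq, Finset.card_filter]
    refine Finset.sum_congr rfl fun a _ => ?_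
    by_cases h1 : X.lo ≤ a <;> by_cases h2 : p (OD.rd' P P' a) <;> simp [h1, h2]
  rw [e1]
  refine le_trans (Finset.card_le_card (t := (h.Ao.filter fun x => p (S'.rdeg x)) ∪
    ((Finset.range X.x).filter fun a => X.lo ≤ a ∧ p (OD.rd' P P' a)).image g) fun y hy => ?_)
    (le_trans (Finset.card_union_le _ _) (Nat.add_le_add_left Finset.card_image_le _))
  rw [Finset.mem_filter, h.hA] at hy
  obtain ⟨hy1, hy2⟩ := hy
  rcases hy1 with ⟨a, ha, ha', rfl⟩ | hy1
  · refine Finset.mem_union_right _ (Finset.mem_image_of_mem _ ?_)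
    rw [Finset.mem_filter, Finset.mem_range]
    rw [h.rdeg_new ha] at hy2
    exact ⟨ha, ha', hy2⟩
  · refine Finset.mem_union_left _ (Finset.mem_filter.2 ⟨?_, hy2⟩)
    exact Finset.mem_filter.2 hy1

/-- the real degree of a vertex which is not a label -/
theorem rdeg_out {y : V} (hy : ∀ a < X.m, g a ≠ y) : S'.rdeg y = S.rdeg y := by
  classical
  unfold St.rdeg
  rw [split h.rep.e.inj, split h.rep.e.inj (fun d => if S.M.v d = y ∧ S.real d = true then 1 else 0)]
  have e1 : (∑ d, if ∃ i < P.n, f i = d then 0 else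
      if S'.M.v d = y ∧ S'.real d = true then 1 else 0) =
      ∑ d, if ∃ i < P.n, f i = d then 0 else if S.M.v d = y ∧ S.real d = true then 1 else 0 := by
    refine Finset.sum_congr rfl fun d _ => ?_
    by_cases hd : ∃ i < P.n, f i = d
    · rw [if_pos hd, if_pos hd]
    · rw [if_neg hd, if_neg hd]
      push Not at hd
      rw [h.rep.vo d hd, h.rep.ro d hd]
  have e2 : (∑ i ∈ Finset.range P.n, if S'.M.v (f i) = y ∧ S'.real (f i) = true then 1 else 0) =
      ∑ i ∈ Finset.range P.n, if S.M.v (f i) = y ∧ S.real (f i) = true then 1 else 0 := by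
    refine Finset.sum_congr rfl fun i hi => ?_
    have hi := Finset.mem_range.1 hi
    have s1 := OD.stat1 h.stat hi
    rw [if_neg, if_neg]
    · rintro ⟨h1, h2⟩
      rw [h.rep.e.hr i hi] at h2
      rw [h.rep.e.hl i hi] at h1
      exact hy _ (s1.r h2).1 h1
    · rintro ⟨h1, h2⟩
      rw [h.real' hi] at h2
      rw [h.v' hi] at h1
      exact hy _ (s1.r' h2).2.1 h1
  rw [e1, e2]

/-- vertices of `Ao` with a changed degree -/
theorem rdeg_lt (hx4 : ∀ a, X.x ≤ a → a < X.m → 4 ≤ S.rdeg (g a)) {y : V} (hy : y ∈ h.Ao)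
    (h4 : 4 ≤ S'.rdeg y) : 4 ≤ S.rdeg y := by
  by_cases hc : ∀ a < X.m, g a ≠ y
  · rw [← h.rdeg_out hc]; exact h4
  · push Not at hc
    obtain ⟨a, ha, rfl⟩ := hc
    by_cases hax : a < X.x
    · exact absurd rfl ((Finset.mem_filter.1 hy).2 a hax)
    · exact hx4 a (by omega) ha

/-- the first component -/
theorem n4_le (hx4 : ∀ a, X.x ≤ a → a < X.m → 4 ≤ S.rdeg (g a)) (la : List ℕ) (hn : la.Nodup)
    (hla : ∀ a ∈ la, a < X.x ∧ g a ∈ S.A ∧ 4 ≤ S.rdeg (g a)) :
    n4 S' + la.length ≤ n4 S + X.nb' P P' ∧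
      ((∃ y ∈ h.Ao, 4 ≤ S.rdeg y ∧ ¬ 4 ≤ S'.rdeg y) →
        n4 S' + la.length < n4 S + X.nb' P P') := by
  classical
  have e3 := h.cnt_new (fun k => 4 ≤ k)
  have e4 : n4 S' = (S'.A.filter fun x => 4 ≤ S'.rdeg x).card := rfl
  have e5 : X.nb' P P' = sumN X.x (fun a => if decide (X.lo ≤ a) && decide (4 ≤ OD.rd' P P' a)
    then 1 else 0) := rfl
  -- vertices with at least four edges
  have e2 : (h.Ao.filter fun x => 4 ≤ S.rdeg x).card + la.length ≤ n4 S := by
    unfold n4
    rw [← List.toFinset_card_of_nodup hn]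
    have e1 : (la.toFinset.image g).card = la.toFinset.card := by
      refine Finset.card_image_of_injOn fun a ha b hb hab => ?_
      simp only [List.coe_toFinset, Set.mem_ofPred_eq] at ha hb
      exact h.hgi a (hla a ha).1 b (hla b hb).1 hab
    rw [← e1, ← Finset.card_union_of_disjoint]
    · refine Finset.card_le_card fun y hy => ?_
      rw [Finset.mem_filter]
      rcases Finset.mem_union.1 hy with hy | hy
      · rw [Finset.mem_filter] at hy
        exact ⟨(Finset.mem_filter.1 hy.1).1, hy.2⟩
      · obtain ⟨a, ha, rfl⟩ := Finset.mem_image.1 hy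
        exact (hla a (List.mem_toFinset.1 ha)).2
    · rw [Finset.disjoint_left]
      intro y hy hy'
      obtain ⟨a, ha, rfl⟩ := Finset.mem_image.1 hy'
      exact (Finset.mem_filter.1 (Finset.mem_filter.1 hy).1).2 a (hla a (List.mem_toFinset.1 ha)).1
        rfl
  have sub : (h.Ao.filter fun x => 4 ≤ S'.rdeg x) ⊆ h.Ao.filter fun x => 4 ≤ S.rdeg x := by
    intro y hy
    rw [Finset.mem_filter] at hy ⊢
    exact ⟨hy.1, h.rdeg_lt hx4 hy.1 hy.2⟩
  rw [e4, e5]
  refine ⟨?_, ?_⟩
  · have := Finset.card_le_card sub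
    omega
  · rintro ⟨y, hy, hy1, hy4⟩
    have : (h.Ao.filter fun x => 4 ≤ S'.rdeg x) ⊂ h.Ao.filter fun x => 4 ≤ S.rdeg x := by
      refine Finset.ssubset_iff_subset_ne.2 ⟨sub, fun he => ?_⟩
      have h1 : y ∈ h.Ao.filter fun x => 4 ≤ S.rdeg x := Finset.mem_filter.2 ⟨hy, hy1⟩
      rw [← he, Finset.mem_filter] at h1
      exact hy4 h1.2
    have := Finset.card_lt_card this
    omega

open Classical in
/-- sums over the outer darts -/
theorem outg {F F' : D → ℕ} {c c' : ℕ → ℕ}
    (ho : ∀ d, (∀ i < P.n, f i ≠ d) → (∀ i < P.n, X.rg P i = true → S.M.α (f i) ≠ d) →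
      F' d = F d) (hF : ∀ i < P.n, X.rg P i = true → F (S.M.α (f i)) = c i)
    (hF' : ∀ i < P.n, X.rg P i = true → F' (S.M.α (f i)) = c' i) :
    (∑ d, if ∃ i < P.n, f i = d then 0 else F' d) +
      ∑ i ∈ Finset.range P.n, (if X.rg P i = true then c i else 0) =
    (∑ d, if ∃ i < P.n, f i = d then 0 else F d) +
      ∑ i ∈ Finset.range P.n, (if X.rg P i = true then c' i else 0) := by
  have e1 : ∀ F : ℕ → ℕ, ∑ i ∈ Finset.range P.n, (if X.rg P i = true then F i else 0) =
      ∑ d, ∑ i ∈ Finset.range P.n,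
        (if S.M.α (f i) = d then (if X.rg P i = true then F i else 0) else 0) := by
    intro F
    rw [Finset.sum_comm]
    refine Finset.sum_congr rfl fun i hi => ?_
    rw [Finset.sum_ite_eq, if_pos (Finset.mem_univ _)]
  rw [e1, e1, ← Finset.sum_add_distrib, ← Finset.sum_add_distrib]
  refine Finset.sum_congr rfl fun d _ => ?_
  by_cases hd : ∃ i < P.n, f i = d
  · have e2 : ∀ F : ℕ → ℕ, ∑ i ∈ Finset.range P.n,
        (if S.M.α (f i) = d then (if X.rg P i = true then F i else 0) else 0) = 0 := by
      intro F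
      refine Finset.sum_eq_zero fun i hi => ?_
      split_ifs with h1 h2
      · exfalso
        obtain ⟨j, hj, hj'⟩ := hd
        exact h.hro i (Finset.mem_range.1 hi) h2 j hj (hj'.trans h1.symm)
      · rfl
      · rfl
    rw [if_pos hd, if_pos hd, e2, e2]
  · rw [if_neg hd, if_neg hd]
    push Not at hd
    by_cases h2 : ∀ i < P.n, X.rg P i = true → S.M.α (f i) ≠ d
    · have e2 : ∀ F : ℕ → ℕ, ∑ i ∈ Finset.range P.n,
          (if S.M.α (f i) = d then (if X.rg P i = true then F i else 0) else 0) = 0 := by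
        intro F
        refine Finset.sum_eq_zero fun i hi => ?_
        split_ifs with h3 h4
        · exact absurd h3 (h2 i (Finset.mem_range.1 hi) h4)
        · rfl
        · rfl
      rw [e2, e2, ho d hd h2]
    · push Not at h2
      obtain ⟨i, hi, h3, h4⟩ := h2
      have e2 : ∀ F : ℕ → ℕ, ∑ j ∈ Finset.range P.n,
          (if S.M.α (f j) = d then (if X.rg P j = true then F j else 0) else 0) = F i := by
        intro F
        rw [Finset.sum_eq_single_of_mem i (Finset.mem_range.2 hi), if_pos h4, if_pos h3]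
        intro j hj hji
        rw [if_neg]
        intro h5
        exact hji (h.rep.e.inj j (Finset.mem_range.1 hj) i hi (S.M.αinj (h5.trans h4.symm)))
      rw [e2, e2, ← h4, hF i hi h3, hF' i hi h3]
      omega

/-- the labels -/
theorem lab_eq : (∑ d, if L' d = true then 1 else 0) + X.nlb P =
    (∑ d, if L d = true then 1 else 0) + X.nlb' P := by
  classical
  rw [split h.rep.e.inj, split h.rep.e.inj (fun d => if L d = true then 1 else 0)]
  have e1 := h.outg (F := fun d => if L d = true then 1 else 0)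
    (F' := fun d => if L' d = true then 1 else 0) (c := fun i => if X.lb i = true then 1 else 0)
    (c' := fun i => if X.lb' i = true then 1 else 0)
    (fun d h1 h2 => by simp only [(h.Lo d h1 h2).1])
    (fun i hi _ => by simp only [h.hW.L_α, h.hL i hi])
    (fun i hi hr => by simp only [(h.Lr i hi hr).1])
  have e2 : X.nlb P = (∑ i ∈ Finset.range P.n, if L (f i) = true then 1 else 0) +
      ∑ i ∈ Finset.range P.n, (if X.rg P i = true then (if X.lb i = true then 1 else 0)
        else 0) := by
    unfold OD.nlb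
    rw [sumN_eq, ← Finset.sum_add_distrib]
    refine Finset.sum_congr rfl fun i hi => ?_
    rw [h.hL i (Finset.mem_range.1 hi)]
    cases X.lb i <;> cases X.rg P i <;> simp
  have e3 : X.nlb' P = (∑ i ∈ Finset.range P.n, if L' (f i) = true then 1 else 0) +
      ∑ i ∈ Finset.range P.n, (if X.rg P i = true then (if X.lb' i = true then 1 else 0)
        else 0) := by
    unfold OD.nlb'
    rw [sumN_eq, ← Finset.sum_add_distrib]
    refine Finset.sum_congr rfl fun i hi => ?_
    rw [h.hL' i (Finset.mem_range.1 hi)]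
    cases X.lb' i <;> cases X.rg P i <;> simp
  rw [e2, e3]
  omega

/-- the second component: `c` = lower bounds for the costs of units in `P`, `c'` = upper bounds in
`P'` -/
theorem rq_le (hdr : ∀ y ∈ h.Ao, 4 ≤ S.rdeg y → 4 ≤ S'.rdeg y)
    (c c' : ℕ → ℕ) (hc : ∀ i < P.n, c i ≤ cw (fu S (f i)))
    (hc' : ∀ i < P.n, P'.u i ≠ 0 → cw (fu S' (f i)) ≤ c' i)
    (hk : ∀ j < P.n, P.α j = j → P.real j = false → 3 ≤ fu S' (f j) ∨ fu S (f j) ≤ 2 ∨
      ∀ d, S.sc.r (f j) d → S.u d = 0) :
    rq S' L' + sumN P.n (fun i => P.u i * c i) + 3054 * X.nlb P ≤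
      rq S L + sumN P.n (fun i => P'.u i * c' i) + 3054 * X.nlb' P + 6120 * X.ns' P P' := by
  classical
  have e1 : n3 S' ≤ n3 S + X.ns' P P' := by
    refine le_trans (h.cnt_new (fun k => ¬ 4 ≤ k)) ?_
    refine Nat.add_le_add (Finset.card_le_card fun y hy => ?_) ?_
    · rw [Finset.mem_filter] at hy ⊢
      exact ⟨(Finset.mem_filter.1 hy.1).1, fun h4 => hy.2 (hdr y hy.1 h4)⟩
    · unfold OD.ns'
      rw [sumN_eq, sumN_eq]
      refine Finset.sum_le_sum fun a _ => ?_
      simp only [not_le]
      exact le_refl _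
  have e2 := h.lab_eq
  have cw_le : ∀ k, cw k ≤ 3054 := by
    intro k
    unfold cw
    split_ifs <;> omega
  have e3 : (∑ d, S'.u d * cw (fu S' d)) + sumN P.n (fun i => P.u i * c i) ≤
      (∑ d, S.u d * cw (fu S d)) + sumN P.n (fun i => P'.u i * c' i) := by
    rw [split h.rep.e.inj, split h.rep.e.inj (fun d => S.u d * cw (fu S d)), sumN_eq, sumN_eq]
    have k1 : (∑ d, if ∃ i < P.n, f i = d then 0 else S'.u d * cw (fu S' d)) ≤
        ∑ d, if ∃ i < P.n, f i = d then 0 else S.u d * cw (fu S d) := by
      refine Finset.sum_le_sum fun d _ => ?_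
      by_cases hd : ∃ i < P.n, f i = d
      · rw [if_pos hd, if_pos hd]
      · rw [if_neg hd, if_neg hd]
        push Not at hd
        rw [h.rep.uo d hd]
        by_cases hu : S.u d = 0
        · rw [hu]; simp
        · refine Nat.mul_le_mul_left _ ?_
          by_cases hT : h.Tch d
          · obtain ⟨i, hi, hs⟩ := hT
            obtain ⟨j, hj, a1, a2, a3, a4⟩ := h.class_out hi hd (S'.sc.iseqv.symm hs)
            rcases hk j hj a1 a2 with h1 | h1 | h1
            · rw [fu_congr (S'.sc.iseqv.trans hs a4), cw3 h1]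
              exact cw_ge _
            · rw [← fu_congr a3]
              refine le_trans (cw_le _) ?_
              unfold cw
              rw [if_pos h1]
            · exact absurd (h1 d a3) hu
          · rw [h.fu_un hT]
    have k2 : ∑ i ∈ Finset.range P.n, S'.u (f i) * cw (fu S' (f i)) ≤
        ∑ i ∈ Finset.range P.n, P'.u i * c' i := by
      refine Finset.sum_le_sum fun i hi => ?_
      have hi := Finset.mem_range.1 hi
      rw [h.rep.hu' i hi]
      by_cases hu : P'.u i = 0
      · rw [hu]; simp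
      · exact Nat.mul_le_mul_left _ (hc' i hi hu)
    have k3 : ∑ i ∈ Finset.range P.n, P.u i * c i ≤
        ∑ i ∈ Finset.range P.n, S.u (f i) * cw (fu S (f i)) := by
      refine Finset.sum_le_sum fun i hi => ?_
      have hi := Finset.mem_range.1 hi
      exact Nat.mul_le_mul (h.hu i hi) (hc i hi)
    omega
  unfold rq
  omega

/-- the number of real darts -/
theorem nr_eq : nr S' + sumN P.n (fun i => if P.real i then 1 else 0) =
    nr S + sumN P.n (fun i => if P'.real i then 1 else 0) := by
  classical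
  unfold nr
  rw [split h.rep.e.inj, split h.rep.e.inj (fun d => if S.real d = true then 1 else 0), sumN_eq,
    sumN_eq]
  have e1 : (∑ d, if ∃ i < P.n, f i = d then 0 else if S'.real d = true then 1 else 0) =
      ∑ d, if ∃ i < P.n, f i = d then 0 else if S.real d = true then 1 else 0 := by
    refine Finset.sum_congr rfl fun d _ => ?_
    by_cases hd : ∃ i < P.n, f i = d
    · rw [if_pos hd, if_pos hd]
    · rw [if_neg hd, if_neg hd]
      push Not at hd
      rw [h.rep.ro d hd]
  have e2 : (∑ i ∈ Finset.range P.n, if S'.real (f i) = true then 1 else 0) =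
      ∑ i ∈ Finset.range P.n, if P'.real i = true then 1 else 0 := by
    refine Finset.sum_congr rfl fun i hi => ?_
    rw [h.real' (Finset.mem_range.1 hi)]
  have e3 : (∑ i ∈ Finset.range P.n, if S.real (f i) = true then 1 else 0) =
      ∑ i ∈ Finset.range P.n, if P.real i = true then 1 else 0 := by
    refine Finset.sum_congr rfl fun i hi => ?_
    rw [h.rep.e.hr i (Finset.mem_range.1 hi)]
  rw [e1, e2, e3]
  omega

/-- the number of alive vertices -/
theorem cardA_le (hla : ∀ a < X.x, g a ∈ S.A) : S'.A.card ≤ S.A.card := by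
  classical
  have e1 := h.card_A (List.range X.x) List.nodup_range (fun a ha =>
    ⟨List.mem_range.1 ha, hla a (List.mem_range.1 ha)⟩)
  rw [List.length_range] at e1
  have e2 : S'.A ⊆ h.Ao ∪ (Finset.range X.x).image g := by
    intro y hy
    rw [h.hA] at hy
    rcases hy with ⟨a, ha, ha', rfl⟩ | hy
    · exact Finset.mem_union_right _ (Finset.mem_image_of_mem _ (Finset.mem_range.2 ha))
    · exact Finset.mem_union_left _ (Finset.mem_filter.2 hy)
  have e3 := Finset.card_le_card e2
  have e4 := Finset.card_union_le h.Ao ((Finset.range X.x).image g)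
  have e5 : ((Finset.range X.x).image g).card ≤ X.x := by
    have := Finset.card_image_le (s := Finset.range X.x) (f := g)
    rwa [Finset.card_range] at this
  omega

end RH

end Pool.FC7
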