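import Pool.Agent.FC7.XMe
import Pool.Agent.FC7.Ex
import Pool.Agent.FC7.EvR

/-! # The extension theorem with the fast check -/

open Finset

set_option linter.unusedSectionVars false

namespace Pool.FC7

open Pool.FC6

/-- the static conditions of an extension check -/
def XE.sta (X : XE) (P P' : Pa) : Bool :=
  X.stat P P' && decide (X.lo ≤ X.x) && X.lr.all (fun q => decide (q.1 ∈ X.as) && P.real q.1)

/-- the extension check is correct -/
structure XE.Ck (X : XE) (P P' : Pa) : Prop where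
  st : X.stat P P' = true
  lo : X.lo ≤ X.x
  lr : ∀ q ∈ X.lr, q.1 ∈ X.as ∧ P.real q.1 = true
  kd : ∀ i ∈ X.kd, i < P.n
  one : (∃ F, Lk F X P P' ∧ ∀ r < 2 ^ (X.x + X.k - X.lo), X.flt (r <<< X.lo) = true →
      F.one (r <<< X.lo) = true ∨ F.OneM (r <<< X.lo)) ∨
    ((∃ E G, EvLv E X P P' (fun _ => false) ∧ 0 < X.k ∧ E.ars ≠ [] ∧ EV.chn E.x E.ars E.x = true ∧
      E.run G = true) ∧ ∀ m, X.flt m = true → m.testBit X.x = false)

theorem XE.Ck.of {X : XE} {P P' : Pa} (h : X.sta P P' = true) (hr : X.ringOk P = true)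
    (hf : ∀ m, X.flt m = true → m.testBit X.x = false)
    (hE : (∃ F : XF, F.ok X P P' = true ∧ ∀ r < 2 ^ (X.x + X.k - X.lo), X.flt (r <<< X.lo) = true →
      F.one (r <<< X.lo) = true ∨ F.OneM (r <<< X.lo)) ∨ X.VOk P P') :
    X.Ck P P' := by
  unfold XE.sta at h
  rw [Bool.and_eq_true, Bool.and_eq_true, decide_eq_true_eq, List.all_eq_true] at h
  refine ⟨h.1.1, h.1.2, fun q hq => ?_, fun i hi => ?_, ?_⟩
  · have := h.2 q hq
    rwa [Bool.and_eq_true, decide_eq_true_eq] at this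
  · rcases hE with ⟨F, h1, -⟩ | h1
    · exact (XF.ok_lk h1).kd i hi
    · exact h1.kd i hi
  · rcases hE with ⟨F, h1, h2⟩ | h1
    · exact Or.inl ⟨F, XF.ok_lk h1, h2⟩
    · exact Or.inr ⟨h1.run hr, hf⟩

variable {D V : Type} [Fintype D] [DecidableEq V]
variable {S S' : St D V} {P P' : Pa} {f : ℕ → D} {g : ℕ → V} {X : XE}

/-- EXTENSION THEOREM -/
theorem ext_solF (h : Rpl S S' P P' f g) (rα : ∀ d, S.real (S.M.α d) = S.real d)
    (rα' : ∀ d, S'.real (S'.M.α d) = S'.real d) (hrA : ∀ d, S'.real d = true → S'.M.v d ∈ S'.A)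
    (X : XE) (hchk : X.Ck P P')
    (hX : ∀ a < X.x, ∀ d, S.M.v d = g a → ∃ i < P.n, f i = d)
    (hg : ∀ a < X.x, ∀ i < P.n, P.l i ≠ a → g (P.l i) ≠ g a)
    (hgx : ∀ a < X.x, ∀ b < X.x, g a = g b → a = b)
    (hA : ∀ y ∈ S.A, y ∈ S'.A ∨ ∃ a < X.x, y = g a)
    (hA' : ∀ a < X.lo, g a ∉ S'.A)
    (hfr : ∀ i < P.n, X.x + X.k ≤ P'.l i → g (P'.l i) ∈ S'.A →
      ∃ d, OU P f d ∧ S.M.v d = g (P'.l i) ∧ S'.sc.r (f i) d)
    {L L' : D → Bool} (hL : ∀ d, L (S.M.α d) = L d)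
    (hal : ∀ a < X.x, g a ∈ S.A → X.st a ∈ X.dj)
    (hu : ∀ i < P.n, S.u (f i) ≠ 0 →
      (∃ k < P.n, S.sc.r (f i) (f k) ∧ ∃ z ∈ X.dj, Cell P X z k) ∨
      (∃ j < P.n, P.α j = j ∧ P.real j = false ∧ S.sc.r (f i) (f j) ∧
        ∃ d, S'.sc.r (f j) d ∧ S'.u d ≠ 0) ∨
      ∃ j ∈ X.kd, S.sc.r (f i) (f j) ∧ ∃ d, S'.sc.r (f j) d ∧ S'.u d ≠ 0)
    (hui : ∀ i < P.n, P.α i ≠ i → L (f i) = true → ∃ z ∈ X.dj, ∀ j < P.n,
      z.testBit (X.ce j) = true → X.ce j = X.ce i ∨ X.ce j = X.ce (P.α i))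
    (hlr : ∀ i ∈ X.rs, L (f i) = true → ((∃ s, (i, true, s) ∈ X.lr) ∧ OU P f (S.M.α (f i))) ∨
      (i ∈ X.kd ∧ L' (f i) = true ∧ (OU P f (S.M.α (f i)) ∨ ∃ j ∈ X.kd, f j = S.M.α (f i))))
    (hlr' : ∀ q ∈ X.lr, q.2.2 = true → L' (f q.1) = true)
    (huo : ∀ d, OU P f d → S.u d ≠ 0 → S'.u d ≠ 0 ∨ ∃ i < P.n, S.sc.r (f i) d ∧
      ∃ z ∈ X.dj, Cell P X z i)
    (hlo : ∀ d, OU P f d → OU P f (S.M.α d) → L d = true → L' d = true)
    {c' : V → Bool} (hc' : Sol S' L' c')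
    (hdj : ∀ c', Sol S' L' c' → Dj S' P f X.ce' c' X.dj')
    (hsp : ∀ c', Sol S' L' c' → ∀ p ∈ X.ar, X.sp p.1 = true →
      c' (g (P.l p.1)) ≠ c' (g (P.l (P.φ p.2))) → Act S P f c' (f p.1) ∨ Act S P f c' (f p.2))
    (hflt : ∀ m < 2 ^ (X.x + X.k), (∀ a < X.x + X.k, m.testBit a = (decide (g a ∈ S'.A) && c' (g a))) →
      X.flt m = true) : ∃ c, Sol S L c := by
  classical
  obtain ⟨h1, hlo', hlc, -, h3⟩ := hchk
  have hst := XE.stat_of h1
  -- normalise the colouring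
  let c : V → Bool := fun y => if y ∈ S'.A then c' y else false
  have hc : Sol S' L' c := hc'.congr rα' hrA (fun y hy => by simp only [c, if_pos hy])
  have cD : ∀ y, y ∉ S'.A → c y = false := fun y hy => by simp only [c, if_neg hy]
  obtain ⟨c0, m1, m2⟩ := exists_mask (X.x + X.k) (fun a => c (g a))
  have C : Cx S S' P P' f g X c c0 := by
    exact ⟨h, rα, rα', hst, hX, hg, hc.con, fun a ha => (m2 a ha).symm⟩
  have hflt0 : X.flt c0 = true := hflt c0 m1 fun a ha => by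
    rw [m2 a ha]
    simp only [c]
    by_cases hy : g a ∈ S'.A
    · rw [if_pos hy]; simp [hy]
    · rw [if_neg hy]; simp [hy]
  have hlrn : ∀ q ∈ X.lr, q.1 < P.n := fun q hq => (hst.rs _ (hst.asm (hlc q hq).1)).1
  have hLr : ∀ q ∈ X.lr, q.1 < P.n ∧ P.real q.1 = true ∧
      (q.2.2 = true → Vi S' c (f q.1) ∨ Vi S' c (S.M.α (f q.1))) := by
    intro q hq
    refine ⟨hlrn q hq, (hlc q hq).2, fun hs => ?_⟩
    have := hc.lab _ (hlr' q hq hs)
    rwa [h.αo] at this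
  have hspR : ∀ p ∈ X.ar, X.sp p.1 = true → c (g (P.l p.1)) ≠ c (g (P.l (P.φ p.2))) →
      ActR S P f X c p.1 := by
    intro p hp h5 h6
    rcases hsp c hc p hp h5 h6 with h7 | h7
    · exact ⟨p.1, C.rr_equiv.refl _, h7⟩
    · exact ⟨p.2, C.rr_arc hp, h7⟩
  have hSm : EvSm S S' P P' f g X c c0 := by
    rcases h3 with ⟨T, hT, h3⟩ | ⟨⟨E, G, hL, g1, g2, g3, g4⟩, g5⟩
    · have hone : T.one c0 = true ∨ T.OneM c0 := by
        have e : c0 = (c0 >>> X.lo) <<< X.lo := by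
          apply Nat.eq_of_testBit_eq
          intro t
          have := mask_bit (c0 := c0) (x := X.lo) (ξ := 0) (Nat.two_pow_pos _) t
          rw [Nat.add_zero] at this
          rw [this]
          split_ifs with ht
          · rw [m2 t (by omega), cD _ (hA' t ht), Nat.zero_testBit]
          · rfl
        have h4 := h3 (c0 >>> X.lo) (by
          rw [Nat.shiftRight_eq_div_pow]
          apply Nat.div_lt_of_lt_mul
          rw [← pow_add, Nat.add_sub_cancel' (by omega)]; exact m1)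
        rw [← e] at h4
        exact h4 hflt0
      exact hone.elim (oneF_sound C hgx hT hspR hLr (hdj c hc)) (oneM_sound C hgx hT hspR hLr (hdj c hc))
    · refine ev_run_sound C hL hspR hgx (fun q hq => ?_) (hdj c hc) (g5 c0 hflt0) g1 g2 g3 g4
      obtain ⟨r1, r2⟩ := hst.rl _ (hlrn q hq) (hlc q hq).2
      exact ⟨hlrn q hq, (hlc q hq).2, r1, r2⟩
  obtain ⟨ex, cn, p3, q1, q2, q3, q4, q6, q5⟩ := hSm
  have q3' := q3
  replace q3 : ∀ d, OU P f d → Vi S' c d → Vi S cn d := fun d hd hv => q3' d (Or.inl hd) hv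
  -- singletons and pairs of cells
  have hcell : ∀ i < P.n, (∃ z ∈ X.dj, Cell P X z i) → Vi S cn (f i) := by
    rintro i hi ⟨z, z1, z2⟩
    obtain ⟨j, j1, j2, j3⟩ := q5 z (List.mem_append_left _ z1)
    exact C.cell_vi hi z2 j1 j2 j3
  refine ⟨cn, q2, fun y hy => ?_, fun d hd => ?_, fun d hd => ?_⟩
  · by_cases hx : ∃ a < X.x, y = g a
    · obtain ⟨a, ha, rfl⟩ := hx
      obtain ⟨j, j1, j2, j3⟩ := q5 _ (List.mem_append_left _ (hal a ha hy))
      obtain ⟨i, i1, i2, i3⟩ := hst.stb a (by omega) _ j2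
      refine ⟨f i, by rw [h.e.hl i i1, i2], ?_⟩
      exact C.cell_vi i1 (z := 2 ^ X.ce i) (fun j hj hb => (bit1.1 hb).symm) j1
        (bit1.2 i3) j3
    · have hy' : y ∈ S'.A := (hA y hy).resolve_right hx
      obtain ⟨d, hd, hv⟩ := hc.live y hy'
      by_cases hO : OU P f d
      · exact ⟨d, by rw [← h.vo d hO]; exact hd, q3 d hO hv⟩
      · obtain ⟨i, hi, rfl⟩ := C.exi hO
        have hi' : i < P'.n := by rw [h.hn]; exact hi
        have hl := h.e'.hl i hi'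
        rw [hd] at hl
        have n1 : X.x ≤ P'.l i := by
          by_contra hcon
          exact hx ⟨P'.l i, by omega, hl⟩
        by_cases n2 : P'.l i < X.x + X.k
        · obtain ⟨e, e1, e2⟩ := q4 i hi hv n1 n2
          exact ⟨e, by rw [e1, hl], e2⟩
        · obtain ⟨e, e1, e2, e3⟩ := hfr i hi (by omega) (by rw [← hl]; exact hy')
          exact ⟨e, by rw [e2, hl], q3 e e1 (hv.sc e3)⟩
  · by_cases hO : OU P f d
    · rcases huo d hO hd with h5 | ⟨i, hi, h5, h6⟩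
      · exact q3 d hO (hc.req d h5)
      · exact (hcell i hi h6).sc h5
    · obtain ⟨i, hi, rfl⟩ := C.exi hO
      rcases hu i hi hd with ⟨k, hk, h5, h6⟩ | ⟨j, hj, h5, h6, h7, e, h8, h9⟩ |
        ⟨j, hj, h7, e, h8, h9⟩
      · exact (hcell k hk h6).sc (S.sc.iseqv.symm h5)
      · exact (q3' _ (Or.inr ⟨j, hj, h5, h6, rfl⟩)
          ((hc.req e h9).sc (S'.sc.iseqv.symm h8))).sc (S.sc.iseqv.symm h7)
      · exact (q6 j hj ((hc.req e h9).sc (S'.sc.iseqv.symm h8))).sc (S.sc.iseqv.symm h7)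
  · -- ring darts
    have ring : ∀ i ∈ X.rs, L (f i) = true → Vi S cn (f i) ∨ Vi S cn (S.M.α (f i)) := by
      intro i hi hl
      obtain ⟨k1, k2⟩ := hst.rs i hi
      rcases hlr i hi hl with ⟨⟨s, hs⟩, hou⟩ | ⟨g1, g2, g3⟩
      swap
      · rcases hc.lab (f i) g2 with h5 | h5
        · exact Or.inl (q6 i g1 h5)
        · rw [h.αo] at h5
          rcases g3 with g3 | ⟨j, j1, j2⟩
          · exact Or.inr (q3 _ g3 h5)
          · rw [← j2] at h5 ⊢
            exact Or.inr (q6 j j1 h5)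
      have hO := C.pe.ringOR k1 k2
      have hreal : P.real i = true := (hlc _ hs).2
      rcases p3 _ hs rfl with h5 | h5 | h5
      · left
        refine Br.vi ?_
        rw [C.brO q1 hO, ← C.brO ag_refl hO]
        refine ⟨by rw [h.e.hr i k1]; exact hreal, ?_⟩
        obtain ⟨r4, r5⟩ := hst.rl i k1 hreal
        rw [h.e.hl i k1, em_end h.e h.G k1, C.hm _ r4, C.hm _ r5]
        unfold Pa.op at h5
        simp only [hreal] at h5
        simpa using h5
      · left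
        obtain ⟨j, j1, j2, j3⟩ := q5 _ (List.mem_append_right _ h5)
        exact C.cell_vi k1 (fun j hj hb => (bit1.1 hb).symm) j1 j2 j3
      · right
        exact q3 _ hou h5
    by_cases hO : OU P f d
    · by_cases hO' : OU P f (S.M.α d)
      · rcases hc.lab d (hlo d hO hO' hd) with h5 | h5
        · exact Or.inl (q3 d hO h5)
        · rw [h.αo] at h5
          exact Or.inr (q3 _ hO' h5)
      · obtain ⟨i, hi, hi'⟩ := C.exi hO'
        have hα : P.α i = i := by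
          by_contra hcon
          exact C.pe.orα hO.or i hi hcon hi'
        have := ring i (hst.ring i hi hα).1 (by rw [hi', hL]; exact hd)
        rw [hi', S.M.αα] at this
        exact this.symm
    · obtain ⟨i, hi, rfl⟩ := C.exi hO
      by_cases hα : P.α i = i
      · exact ring i (hst.ring i hi hα).1 hd
      · obtain ⟨z, z1, z2⟩ := hui i hi hα hd
        obtain ⟨j, j1, j2, j3⟩ := q5 z (List.mem_append_left _ z1)
        rcases z2 j j1 j2 with h5 | h5
        · left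
          exact C.cell_vi hi (z := 2 ^ X.ce i) (fun j hj hb => (bit1.1 hb).symm) j1
            (bit1.2 h5.symm) j3
        · right
          rw [h.e.hα i hi hα]
          exact C.cell_vi (h.G.αlt i hi) (z := 2 ^ X.ce (P.α i)) (fun j hj hb => (bit1.1 hb).symm) j1
            (bit1.2 h5.symm) j3

end Pool.FC7
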