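import Pool.Agent.FC7.RokD
import Pool.Agent.FC7.XFg

/-! # The reduction theorem for the class with optional faces -/

open Finset

set_option linter.unusedSectionVars false

namespace Pool.FC7

open Pool.FC6 Pool.FC6.St

namespace OD

variable (X : OD) (P P' : Pa)

/-- the weights of the real ring darts with surely outside reversal -/
def wr (c : ℕ) : ℕ :=
  sumN P.n fun i => if X.rg P i && P.real i && crs P c i then X.wt' i else 0

/-- the real ring darts with surely outside reversal -/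
def rr (c : ℕ) : ℕ :=
  sumN P.n fun i => if X.rg P i && P.real i && crs P c i then 1 else 0

end OD

variable {D V : Type} [Fintype D] [DecidableEq V]

open Classical in
/-- the number of real darts outside of the patch which are cut by `s` -/
noncomputable def oc (S : St D V) (P : Pa) (f : ℕ → D) (s : V → Bool) : ℕ :=
  ∑ d, if ∃ i < P.n, f i = d then 0 else
    (if S.real d = true ∧ s (S.M.v d) ≠ s (S.M.v (S.M.α d)) then 1 else 0)

namespace RH

variable {Δ : ℕ} {S S' : St D V} {L L' : D → Bool} {w w' : D → ℕ} {P P' : Pa} {f : ℕ → D}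
  {g : ℕ → V} {X : OD}

open Pool.FC6.RH (split)

variable (h : RH Δ S S' L L' w w' P P' f g X)

include h

theorem rg_α {i : ℕ} (h1 : X.rg P i = true) : P.α i = i := by
  unfold OD.rg at h1
  rw [Bool.and_eq_true] at h1
  exact of_decide_eq_true h1.1

/-- the ring bonus -/
theorem rb2 {rbr : ℕ → ℕ} (hrb : ∀ (s : V → Bool) (c : ℕ),
      (∀ a, X.x ≤ a → a < X.m → c.testBit a = s (g a)) → rbr c ≤ oc S P f s)
    (s : V → Bool) (t : D → Bool) (c : ℕ)
    (hc : ∀ a, X.x ≤ a → a < X.m → c.testBit a = s (g a)) :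
    rbr c + X.wr P c ≤ open Classical in ∑ d, if ∃ i < P.n, f i = d then 0 else
      cfw S' w' s t d := by
  classical
  -- the darts
  have e1 : ∀ d, (if ∃ i < P.n, f i = d then 0 else
      (if S.real d = true ∧ s (S.M.v d) ≠ s (S.M.v (S.M.α d)) then 1 else 0)) +
      (∑ i ∈ Finset.range P.n, (if S.M.α (f i) = d then
        (if (X.rg P i && P.real i && OD.crs P c i) = true then X.wt' i else 0) else 0)) ≤
      if ∃ i < P.n, f i = d then 0 else cfw S' w' s t d := by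
    intro d
    by_cases hd : ∃ i < P.n, f i = d
    · rw [if_pos hd, if_pos hd, zero_add, Finset.sum_eq_zero]
      intro i hi
      by_cases h1 : S.M.α (f i) = d
      · rw [if_pos h1, if_neg]
        intro h2
        rw [Bool.and_eq_true, Bool.and_eq_true] at h2
        obtain ⟨j, hj, hj'⟩ := hd
        exact h.hro i (Finset.mem_range.1 hi) h2.1.1 j hj (hj'.trans h1.symm)
      · rw [if_neg h1]
    · rw [if_neg hd, if_neg hd]
      push Not at hd
      have e4 : cfw S' w' s t d = (if S'.real d = true ∧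
          s (S'.M.v d) ≠ s (S'.M.v (S'.M.α d)) then 1 else 0) +
          2 * (if s (S'.M.v d) ≠ t d then S'.u d else 0) +
          (if s (S'.M.v d) ≠ s (S'.M.v (S'.M.α d)) then w' d else 0) := rfl
      rw [e4, h.rep.ro d hd, h.rep.vo d hd, h.out_vα hd]
      have e5 : (∑ i ∈ Finset.range P.n, (if S.M.α (f i) = d then
          (if (X.rg P i && P.real i && OD.crs P c i) = true then X.wt' i else 0) else 0)) ≤
          (if s (S.M.v d) ≠ s (S.M.v (S.M.α d)) then w' d else 0) := by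
        by_cases hex : ∃ i < P.n, S.M.α (f i) = d
        · obtain ⟨i, hi, h4⟩ := hex
          rw [Finset.sum_eq_single_of_mem i (Finset.mem_range.2 hi), if_pos h4]
          · by_cases h2 : (X.rg P i && P.real i && OD.crs P c i) = true
            · rw [if_pos h2]
              rw [Bool.and_eq_true, Bool.and_eq_true] at h2
              obtain ⟨⟨k1, k2⟩, k3⟩ := h2
              have s1 := OD.stat1 h.stat hi
              have r1 := s1.ring (h.rg_α k1)
              have r2 := s1.r k2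
              rw [← h4, S.M.αα, h.v_α hi, h.rep.e.hl i hi, (h.Lr i hi k1).2]
              unfold OD.crs at k3
              rw [hc _ r1.2.2.2.1 r2.1, hc _ r1.2.2.2.2 r2.2, bne_iff_ne] at k3
              rw [if_pos (fun h9 => k3 h9.symm)]
            · rw [if_neg h2]; exact Nat.zero_le _
          · intro j hj hji
            rw [if_neg]
            intro h5
            exact hji (h.rep.e.inj j (Finset.mem_range.1 hj) i hi (S.M.αinj (h5.trans h4.symm)))
        · push Not at hex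
          rw [Finset.sum_eq_zero]
          · exact Nat.zero_le _
          · intro i hi
            rw [if_neg (hex i (Finset.mem_range.1 hi))]
      omega
  have e2 := Finset.sum_le_sum (s := Finset.univ) fun d _ => e1 d
  rw [Finset.sum_add_distrib] at e2
  have e3 : X.wr P c = ∑ d, ∑ i ∈ Finset.range P.n, (if S.M.α (f i) = d then
      (if (X.rg P i && P.real i && OD.crs P c i) = true then X.wt' i else 0) else 0) := by
    unfold OD.wr
    rw [sumN_eq, Finset.sum_comm]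
    refine Finset.sum_congr rfl fun i _ => ?_
    rw [Finset.sum_ite_eq, if_pos (Finset.mem_univ _)]
  rw [e3]
  exact le_trans (Nat.add_le_add_right (hrb s c hc) _) e2

end RH

/-- the real ring darts with surely outside reversal -/
theorem oc_rr {S : St D V} (rα : ∀ d, S.real (S.M.α d) = S.real d) {P : Pa} {f : ℕ → D} {g : ℕ → V}
    (e : Em P S f g) (G : P.Good) {X : OD}
    (hro : ∀ i < P.n, X.rg P i = true → ∀ j < P.n, f j ≠ S.M.α (f i))
    (hr : ∀ i < P.n, P.α i = i → P.real i = true → X.x ≤ P.l i ∧ P.l i < X.m ∧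
      X.x ≤ P.l (P.φ i) ∧ P.l (P.φ i) < X.m)
    (s : V → Bool) (c : ℕ) (hc : ∀ a, X.x ≤ a → a < X.m → c.testBit a = s (g a)) :
    X.rr P c ≤ oc S P f s := by
  classical
  unfold OD.rr oc
  rw [sumN_eq]
  set R := (Finset.range P.n).filter fun i => (X.rg P i && P.real i && OD.crs P c i) = true with hR
  rw [← Finset.sum_filter]
  have e1 : ∀ i ∈ R, 1 ≤ (if ∃ j < P.n, f j = S.M.α (f i) then 0
      else (if S.real (S.M.α (f i)) = true ∧ s (S.M.v (S.M.α (f i))) ≠
        s (S.M.v (S.M.α (S.M.α (f i)))) then 1 else 0)) := by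
    intro i hi
    rw [hR, Finset.mem_filter, Finset.mem_range, Bool.and_eq_true, Bool.and_eq_true] at hi
    obtain ⟨hi, ⟨h1, h2⟩, h3⟩ := hi
    have ha : P.α i = i := by
      unfold OD.rg at h1
      rw [Bool.and_eq_true] at h1
      exact of_decide_eq_true h1.1
    have r1 := hr i hi ha h2
    have ho := hro i hi h1
    rw [if_neg (by push Not; exact ho), if_pos]
    refine ⟨by rw [rα, e.hr i hi]; exact h2, ?_⟩
    rw [S.M.αα, e.hl i hi, ← S.M.vφ, e.hφ i hi, e.hl _ (G.φlt i hi)]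
    unfold OD.crs at h3
    rw [hc _ r1.1 r1.2.1, hc _ r1.2.2.1 r1.2.2.2, bne_iff_ne] at h3
    exact fun h9 => h3 h9.symm
  refine le_trans (Finset.sum_le_sum e1) ?_
  have e2 := Finset.sum_image (s := R) (g := fun i => S.M.α (f i))
    (f := fun d => if ∃ j < P.n, f j = d then 0 else (if S.real d = true ∧ s (S.M.v d) ≠
        s (S.M.v (S.M.α d)) then 1 else 0)) (fun i hi j hj hij => by
      rw [hR] at hi hj
      simp only [Finset.coe_filter, Finset.mem_range, Set.mem_ofPred_eq] at hi hj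
      exact e.inj i hi.1 j hj.1 (S.M.αinj hij))
  rw [← e2]
  exact Finset.sum_le_sum_of_subset (Finset.subset_univ _)

/-- existence of the replaced state with its labels -/
theorem exists_rh {Δ : ℕ} {S : St D V} {L : D → Bool} {w : D → ℕ} {P P' : Pa} {f : ℕ → D}
    {g : ℕ → V} {X : OD} (W : Wf Δ S L w) (e : Em P S f g) (G : P.Good) (G' : P'.Good)
    {fl : List ℕ} (hL : Pa.flips P' P fl = true) (hs : X.stat P P' = true) (c3 : X.Δ = Δ)
    (hgA : ∀ a, X.x ≤ a → a < X.m → g a ∈ S.A)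
    (hgF : ∀ i < P.n, X.m ≤ P.l i → g (P.l i) ∈ S.A → ∃ d, (∀ j < P.n, f j ≠ d) ∧
      S.M.v d = g (P.l i))
    (hgd : ∀ a < X.x, ∀ b, X.x ≤ b → b < X.m → g b ≠ g a)
    (hgi : ∀ a < X.x, ∀ b < X.x, g a = g b → a = b)
    (hstar : ∀ a < X.x, ∀ d, S.M.v d = g a → ∃ i < P.n, f i = d)
    (hu : ∀ i < P.n, P.u i ≤ S.u (f i)) (hLb : ∀ i < P.n, L (f i) = X.lb i)
    (hw : ∀ i < P.n, w (f i) = X.wt i)
    (hro : ∀ i < P.n, X.rg P i = true → ∀ j < P.n, f j ≠ S.M.α (f i))
    (hsl : ∀ y ∈ S.A, (∑ d, if S.M.v d = y then (if S.real d = true then 1 else 0) + S.u d + w d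
      else 0) + ∑ a ∈ (Finset.range X.m).filter (fun a => X.x ≤ a ∧ g a = y), X.sl a ≤ Δ)
    (hne : ∀ i < P.n, P'.real i = true → g (P'.l i) ≠ g (P'.l (P'.φ i)))
    (hsi : ∀ i < P.n, ∀ j < P.n, P'.real i = true → P'.real j = true → g (P'.l i) = g (P'.l j) →
      g (P'.l (P'.φ i)) = g (P'.l (P'.φ j)) → i = j)
    (hso : ∀ i < P.n, P'.real i = true → ∀ e, (∀ j < P.n, f j ≠ e) → S.real e = true →
      S.M.v e = g (P'.l i) → S.M.v (S.M.α e) = g (P'.l (P'.φ i)) → False)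
    (hex : (∃ i < P.n, P'.real i = true) ∨ ∃ d, (∀ i < P.n, f i ≠ d) ∧ S.real d = true) :
    ∃ (S' : St D V) (L' : D → Bool) (w' : D → ℕ), RH Δ S S' L L' w w' P P' f g X := by
  classical
  obtain ⟨S', hR, hA'⟩ := exists_rep e G G' hL
    ((S.A.filter fun y => ∀ a < X.x, g a ≠ y) ∪ (Finset.Ico X.lo X.x).image g)
  let L' : D → Bool := fun d => if h : ∃ i, i < P.n ∧ f i = d then X.lb' h.choose else
    if h : ∃ i, (i < P.n ∧ X.rg P i = true) ∧ S.M.α (f i) = d then X.lb' h.choose else L d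
  let w' : D → ℕ := fun d => if h : ∃ i, i < P.n ∧ f i = d then X.wt' h.choose else
    if h : ∃ i, (i < P.n ∧ X.rg P i = true) ∧ S.M.α (f i) = d then X.wt' h.choose else w d
  have ch : ∀ i < P.n, ∀ h : ∃ j, j < P.n ∧ f j = f i, h.choose = i := fun i hi h =>
    e.inj _ h.choose_spec.1 _ hi h.choose_spec.2
  have ch2 : ∀ i < P.n, ∀ h : ∃ j, (j < P.n ∧ X.rg P j = true) ∧ S.M.α (f j) = S.M.α (f i),
      h.choose = i := fun i hi h =>
    e.inj _ h.choose_spec.1.1 _ hi (S.M.αinj h.choose_spec.2)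
  refine ⟨S', L', w', ⟨hR, W, hs, c3, fun y => ?_, hgA, hgF, hgd, hgi, hstar, hu, hLb, hw,
    fun i hi => ?_, fun i hi => ?_, fun d h1 h2 => ?_, fun i hi hr => ?_, hro, hsl, hne, hsi, hso,
    ?_⟩⟩
  · rw [hA', Finset.mem_union, Finset.mem_filter, Finset.mem_image, or_comm]
    refine or_congr ?_ Iff.rfl
    constructor
    · rintro ⟨a, ha, rfl⟩
      exact ⟨a, (Finset.mem_Ico.1 ha).2, (Finset.mem_Ico.1 ha).1, rfl⟩
    · rintro ⟨a, ha, ha', rfl⟩
      exact ⟨a, Finset.mem_Ico.2 ⟨ha', ha⟩, rfl⟩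
  · have hex : ∃ j, j < P.n ∧ f j = f i := ⟨i, hi, rfl⟩
    show (if h : ∃ j, j < P.n ∧ f j = f i then X.lb' h.choose else _) = _
    rw [dif_pos hex, ch i hi hex]
  · have hex : ∃ j, j < P.n ∧ f j = f i := ⟨i, hi, rfl⟩
    show (if h : ∃ j, j < P.n ∧ f j = f i then X.wt' h.choose else _) = _
    rw [dif_pos hex, ch i hi hex]
  · have n1 : ¬ ∃ i, i < P.n ∧ f i = d := by
      rintro ⟨i, hi, h3⟩
      exact h1 i hi h3
    have n2 : ¬ ∃ i, (i < P.n ∧ X.rg P i = true) ∧ S.M.α (f i) = d := by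
      rintro ⟨i, ⟨hi, hr⟩, h3⟩
      exact h2 i hi hr h3
    show (if h : ∃ i, i < P.n ∧ f i = d then X.lb' h.choose else
      if h : ∃ i, (i < P.n ∧ X.rg P i = true) ∧ S.M.α (f i) = d then X.lb' h.choose else L d) = _ ∧
      (if h : ∃ i, i < P.n ∧ f i = d then X.wt' h.choose else
      if h : ∃ i, (i < P.n ∧ X.rg P i = true) ∧ S.M.α (f i) = d then X.wt' h.choose else w d) = _
    rw [dif_neg n1, dif_neg n2, dif_neg n1, dif_neg n2]
    exact ⟨rfl, rfl⟩
  · have n1 : ¬ ∃ j, j < P.n ∧ f j = S.M.α (f i) := by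
      rintro ⟨j, hj, h3⟩
      exact hro i hi hr j hj h3
    have n2 : ∃ j, (j < P.n ∧ X.rg P j = true) ∧ S.M.α (f j) = S.M.α (f i) :=
      ⟨i, ⟨hi, hr⟩, rfl⟩
    show (if h : ∃ j, j < P.n ∧ f j = S.M.α (f i) then X.lb' h.choose else
      if h : ∃ j, (j < P.n ∧ X.rg P j = true) ∧ S.M.α (f j) = S.M.α (f i) then X.lb' h.choose
        else _) = _ ∧
      (if h : ∃ j, j < P.n ∧ f j = S.M.α (f i) then X.wt' h.choose else
      if h : ∃ j, (j < P.n ∧ X.rg P j = true) ∧ S.M.α (f j) = S.M.α (f i) then X.wt' h.choose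
        else _) = _
    rw [dif_neg n1, dif_pos n2, dif_neg n1, dif_pos n2, ch2 i hi n2]
    exact ⟨rfl, rfl⟩
  · rcases hex with ⟨i, hi, h1⟩ | ⟨d, h1, h2⟩
    · exact ⟨f i, by rw [hR.e'.hr i (by rw [hR.hn]; exact hi)]; exact h1⟩
    · exact ⟨d, by rw [hR.ro d h1]; exact h2⟩

/-- the checks for the requirements: `ou` = ring darts whose outer part surely carries units, `lu` =
ring darts with unknown labels -/
def djs (X : XE) (O : OD) (P P' : Pa) (la : List ℕ) (ou lu : ℕ → Bool) : Bool :=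
  X.dj'.all (fun m =>
    (!allN P.n fun i => !((decide (P'.u i ≠ 0) || ou i) && m.testBit (X.ce' i))) ||
    (!allN P.n fun i => !(O.lb' i && decide (P.α i ≠ i) && m.testBit (X.ce' i) &&
      m.testBit (X.ce' (P.α i)))) ||
    (!allN O.x fun a => !(decide (O.lo ≤ a) &&
      allN P.n fun i => decide (P'.l i ≠ a) || m.testBit (X.ce' i)))) &&
  allN P.n (fun i => decide (P.α i = i) || !O.lb i ||
      X.dj.any fun z => allN P.n fun j => !z.testBit (X.ce j) || decide (X.ce j = X.ce i) ||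
        decide (X.ce j = X.ce (P.α i))) &&
  la.all (fun a => decide (a < O.x) && decide (X.st a ∈ X.dj)) && decide la.Nodup &&
  X.rs.all (fun i => !O.lb i || lu i ||
    (O.rg P i && ((X.lr.any fun q => decide (q.1 = i) && q.2.1) ||
      (O.lb' i && X.kd.contains i)))) &&
  X.lr.all (fun q => !q.2.2 || (decide (q.1 < P.n) && O.lb' q.1))

/-- a visited patch dart at a free label: the label has an outer dart of the same face -/
theorem RH.free {Δ : ℕ} {S S' : St D V} {L L' : D → Bool} {w w' : D → ℕ} {P P' : Pa} {f : ℕ → D}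
    {g : ℕ → V} {X : OD} (h : RH Δ S S' L L' w w' P P' f g X) {i : ℕ} (hi : i < P.n)
    (hm : ∀ a < X.m, g a ≠ g (P'.l i)) (hd : ∃ d, OU P f d ∧ S.M.v d = g (P'.l i)) :
    ∃ d, OU P f d ∧ S.M.v d = g (P'.l i) ∧ S'.sc.r (f i) d := by
  classical
  by_contra hno
  push Not at hno
  obtain ⟨d0, hd0, hv0⟩ := hd
  have hn := h.rep.hn
  -- darts of the patch at the label are virtual, also their reversals
  have key : ∀ j < P.n, g (P'.l j) = g (P'.l i) → P'.real j = false ∧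
      P'.real (P'.φ (P'.φ j)) = false := by
    intro j hj hv
    have hj' : j < P'.n := by rw [hn]; exact hj
    have k1 := h.rep.G'.φlt j hj'
    have k2 := h.rep.G'.φlt _ k1
    constructor
    · by_contra hc
      have := (OD.stat1 h.stat hj).r' (by simpa using hc)
      exact hm _ this.2.1 hv
    · by_contra hc
      have := (OD.stat1 h.stat (by rw [hn] at k2; exact k2)).r' (by simpa using hc)
      refine hm _ this.2.2.2 ?_
      rw [h.rep.G'.φ3 j hj']
      exact hv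
  let G : D → Prop := fun d => S'.M.v d = g (P'.l i) ∧ S'.sc.r (f i) d
  have hG : ∀ d, G d → ∃ j < P.n, f j = d ∧ g (P'.l j) = g (P'.l i) := by
    rintro d ⟨h1, h2⟩
    by_cases ho : OU P f d
    · rw [h.rep.vo d ho] at h1
      exact absurd h2 (hno d ho h1)
    · unfold OU at ho
      push Not at ho
      obtain ⟨j, hj, rfl⟩ := ho
      rw [h.v' hj] at h1
      exact ⟨j, hj, rfl, h1⟩
  have step : ∀ d, decide (G (S'.M.α (S'.M.φ (S'.M.φ d)))) = decide (G d) := by
    intro d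
    rw [decide_eq_decide]
    constructor
    · intro h1
      obtain ⟨j, hj, h2, h3⟩ := hG _ h1
      have hr := (key j hj h3).1
      have h4 : S'.M.φ (S'.M.φ d) = S'.M.α (f j) := by rw [h2, S'.M.αα]
      refine ⟨?_, ?_⟩
      · rw [← S'.M.vφ2 d]; exact h1.1
      · have h5 : S'.sc.r (f i) (S'.M.φ (S'.M.φ d)) := by
          rw [h4]
          refine (scα (by rw [h.real' hj]; exact hr) _).2 ?_
          rw [h2]; exact h1.2
        rw [scφ, scφ] at h5
        exact h5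
    · intro h1
      obtain ⟨j, hj, rfl, h3⟩ := hG _ h1
      have hj' : j < P'.n := by rw [hn]; exact hj
      have k1 := h.rep.G'.φlt j hj'
      have k2 := h.rep.G'.φlt _ k1
      rw [hn] at k1 k2
      have hr := (key j hj h3).2
      refine ⟨by rw [S'.M.vφ2]; exact h1.1, ?_⟩
      refine (scα ?_ _).2 ?_
      · rw [h.φ' hj, h.φ' k1, h.real' k2]; exact hr
      · rw [scφ, scφ]; exact h1.2
  have h1 := S'.M.rot' (fun d => decide (G d)) step (d := f i) (d' := d0) (by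
    rw [h.v' hi, h.rep.vo d0 hd0, hv0])
  have h2 : decide (G (f i)) = true :=
    decide_eq_true ⟨h.v' hi, S'.sc.iseqv.refl _⟩
  rw [h2] at h1
  obtain ⟨h3, h4⟩ := of_decide_eq_true h1.symm
  exact hno d0 hd0 hv0 h4

/-- THE REDUCTION THEOREM -/
theorem red {Δ : ℕ} {S : St D V} {L : D → Bool} {w : D → ℕ} (ok : Ok Δ S L w) (w1 : W1 L w)
    (no : ¬ ∃ c, Sol S L c) {P P' : Pa} {f : ℕ → D} {g : ℕ → V}
    (e : Em P S f g) (hP : P.good = true) (hP' : P'.good = true) {fl : List ℕ}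
    (hfl : Pa.flips P' P fl = true) (X : XE) (hX : X.Ck P P') (O : OD)
    (hs : O.stat P P' = true) {Bf rbr : ℕ → ℕ}
    (hc : O.Cuts P P' Bf (fun c => rbr c + O.wr P c)) {la : List ℕ} {ou lu : ℕ → Bool}
    (hdj : djs X O P P' la ou lu = true)
    (hlu : ∀ i ∈ X.rs, lu i = true → L (f i) = true → i ∈ X.kd ∧ O.lb' i = true ∧
      (OU P f (S.M.α (f i)) ∨ ∃ j ∈ X.kd, f j = S.M.α (f i)))
    (c1 : X.x = O.x) (c2 : X.x + X.k = O.m) (c3 : O.Δ = Δ) (c4 : X.lo = O.lo)
    (c5 : ∀ m, m.testBit O.x = false → X.flt m = true) (c6 : O.x < O.m)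
    (hstar : ∀ a < O.x, ∀ d, S.M.v d = g a → ∃ i < P.n, f i = d)
    (hgA : ∀ a, O.x ≤ a → a < O.m → g a ∈ S.A)
    (hgF : ∀ i < P.n, O.m ≤ P.l i → g (P.l i) ∈ S.A → ∃ d, (∀ j < P.n, f j ≠ d) ∧
      S.M.v d = g (P.l i))
    (hgF' : ∀ i < P.n, O.m ≤ P'.l i → g (P'.l i) ∈ S.A → ∃ d, (∀ j < P.n, f j ≠ d) ∧
      S.M.v d = g (P'.l i))
    (hgf : ∀ i < P.n, O.m ≤ P'.l i → ∀ a < O.m, g a ≠ g (P'.l i))
    (hgd : ∀ a < O.x, ∀ b, O.x ≤ b → b < O.m → g b ≠ g a)
    (hgd' : ∀ a < O.x, ∀ i < P.n, P.l i ≠ a → g (P.l i) ≠ g a)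
    (hgi : ∀ a < O.x, ∀ b < O.x, g a = g b → a = b)
    (hla : ∀ a < O.x, g a ∈ S.A ↔ a ∈ la)
    (hu : ∀ i < P.n, S.u (f i) = P.u i) (hLb : ∀ i < P.n, L (f i) = O.lb i)
    (hw : ∀ i < P.n, w (f i) = O.wt i)
    (hw1 : ∀ i < P.n, O.wt' i = if O.lb' i = true then 1 else 0)
    (hro : ∀ i < P.n, O.rg P i = true → ∀ j < P.n, f j ≠ S.M.α (f i))
    (hsl : ∀ y ∈ S.A, (∑ d, if S.M.v d = y then (if S.real d = true then 1 else 0) + S.u d + w d
      else 0) + ∑ a ∈ (Finset.range O.m).filter (fun a => O.x ≤ a ∧ g a = y), O.sl a ≤ Δ)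
    (hne : ∀ i < P.n, P'.real i = true → g (P'.l i) ≠ g (P'.l (P'.φ i)))
    (hsi : ∀ i < P.n, ∀ j < P.n, P'.real i = true → P'.real j = true → g (P'.l i) = g (P'.l j) →
      g (P'.l (P'.φ i)) = g (P'.l (P'.φ j)) → i = j)
    (hso : ∀ i < P.n, P'.real i = true → ∀ e, (∀ j < P.n, f j ≠ e) → S.real e = true →
      S.M.v e = g (P'.l i) → S.M.v (S.M.α e) = g (P'.l (P'.φ i)) → False)
    (hex : (∃ i < P.n, P'.real i = true) ∨ ∃ d, (∀ i < P.n, f i ≠ d) ∧ S.real d = true)
    (hB : ∀ (s : V → Bool) (c : ℕ), (∀ a < O.m, c.testBit a = s (g a)) →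
      (∃ y ∈ S.A, s y = true) → (∃ y ∈ S.A, s y = false) → Bf c ≤ S.rc s)
    (hrb : ∀ (s : V → Bool) (c : ℕ),
      (∀ a, O.x ≤ a → a < O.m → c.testBit a = s (g a)) → rbr c ≤ oc S P f s)
    (hsp : ∀ c' : V → Bool, ∀ p ∈ X.ar, X.sp p.1 = true →
      c' (g (P.l p.1)) ≠ c' (g (P.l (P.φ p.2))) → Act S P f c' (f p.1) ∨ Act S P f c' (f p.2))
    (hcv : ∀ (S' : St D V) (L' : D → Bool) (w' : D → ℕ), RH Δ S S' L L' w w' P P' f g O →
      ∀ i < P.n, S.u (f i) ≠ 0 →
      (∃ k < P.n, S.sc.r (f i) (f k) ∧ ∃ z ∈ X.dj, Cell P X z k) ∨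
      (∃ j < P.n, P.α j = j ∧ P.real j = false ∧ S.sc.r (f i) (f j) ∧
        ∃ d, S'.sc.r (f j) d ∧ S'.u d ≠ 0) ∨
      ∃ j ∈ X.kd, S.sc.r (f i) (f j) ∧ ∃ d, S'.sc.r (f j) d ∧ S'.u d ≠ 0)
    (hou : ∀ (S' : St D V) (L' : D → Bool) (w' : D → ℕ), RH Δ S S' L L' w w' P P' f g O →
      ∀ i < P.n, ou i = true → ∃ d, S'.sc.r (f i) d ∧ S'.u d ≠ 0)
    (hq : ∀ (S' : St D V) (L' : D → Bool) (w' : D → ℕ), RH Δ S S' L L' w w' P P' f g O →
      ∀ i < P.n, 3 ≤ fu S' (f i) ∨ Two S' (f i) ∨ (P'.u i = 0 ∧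
      (P.α i = i → P.real i = false → ∀ d, S.sc.r (f i) d → S.u d = 0))) :
    ∃ (S' : St D V) (L' : D → Bool) (w' : D → ℕ), RH Δ S S' L L' w w' P P' f g O ∧
      W1 L' w' ∧ Ok Δ S' L' w' ∧ ¬ ∃ c, Sol S' L' c := by
  classical
  have G := Pa.good_iff.1 hP
  have G' := Pa.good_iff.1 hP'
  obtain ⟨S', L', w', R⟩ := exists_rh ok.toWf e G G' hfl hs c3 hgA hgF hgd hgi hstar
    (fun i hi => le_of_eq (hu i hi).symm) hLb hw hro hsl hne hsi hso hex
  have hok : Ok Δ S' L' w' := R.ok ok.thr hc c6 hB (R.rb2 hrb) (hq S' L' w' R)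
  have hw1' : W1 L' w' := by
    intro d
    by_cases hd : ∀ i < P.n, f i ≠ d
    · rcases R.L_out hd with ⟨k1, k2⟩ | ⟨i, hi, k1, k2, k3, k4⟩
      · rw [k1, k2, w1 d]
      · rw [k3, k4, hw1 i hi]
    · push Not at hd
      obtain ⟨i, hi, rfl⟩ := hd
      rw [R.hL' i hi, R.hw' i hi, hw1 i hi]
  refine ⟨S', L', w', R, hw1', hok, ?_⟩
  rintro ⟨c0, hc0⟩
  -- normalise
  obtain ⟨c', hc', hcx⟩ : ∃ c', Sol S' L' c' ∧ c' (g O.x) = false := by
    by_cases h0 : c0 (g O.x) = false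
    · exact ⟨c0, hc0, h0⟩
    · exact ⟨fun x => !c0 x, hc0.neg, by simpa using h0⟩
  unfold djs at hdj
  simp only [Bool.and_eq_true, List.all_eq_true, allN_iff, decide_eq_true_eq] at hdj
  obtain ⟨⟨⟨⟨⟨d1, d2⟩, d3⟩, d4⟩, d5⟩, d6⟩ := hdj
  have hrs : ∀ i ∈ X.rs, i < P.n := fun i hi => ((XE.stat_of hX.st).rs i hi).1
  have hAm : ∀ a < O.x, ∀ i < P.n, O.m ≤ P'.l i → g (P'.l i) ≠ g a := fun a ha i hi hl h9 =>
    hgf i hi hl a (by omega) h9.symm
  apply no
  refine ext_solF R.rep.rpl ok.real_α hok.real_α hok.real_A X hX (by rw [c1]; exact hstar)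
    (by rw [c1]; exact hgd') (by rw [c1]; exact hgi) (fun y hy => ?_) (fun a ha => ?_)
    (fun i hi hl hA => ?_) ok.L_α (fun a ha haA => ?_) (fun i hi hui => ?_)
    (fun i hi hα hl => ?_) (fun i hi hl => ?_) (fun q hq hs => ?_) (fun d hd hud => Or.inl ?_)
    (fun d hd hd' hl => ?_) hc' (fun c' hc' m hm => ?_)
    (fun c' _ => hsp c') (fun m _ hm => ?_)
  · rw [R.hA, c1]
    by_cases h1 : ∀ a < O.x, g a ≠ y
    · exact Or.inl (Or.inr ⟨hy, h1⟩)
    · push Not at h1
      obtain ⟨a, ha, ha'⟩ := h1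
      exact Or.inr ⟨a, ha, ha'.symm⟩
  · rw [c4] at ha
    have s3 := (OD.stat3 hs).1
    rw [R.hA]
    rintro (⟨b, hb1, hb2, hb3⟩ | h1)
    · have := hgi b hb1 a (by omega) hb3
      omega
    · exact h1.2 a (by omega) rfl
  · rw [c2] at hl
    refine R.free hi (hgf i hi hl) (hgF' i hi hl ?_)
    rw [R.hA] at hA
    rcases hA with ⟨a, ha, ha', haz⟩ | h1
    · exact absurd haz.symm (hAm a ha i hi hl)
    · exact h1.1
  · rw [c1] at ha
    have := d3 a ((hla a ha).1 haA)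
    exact this.2
  · exact hcv S' L' w' R i hi hui
  · have h1 := d2 i hi
    rw [hLb i hi] at hl
    rw [Bool.or_eq_true, Bool.or_eq_true, decide_eq_true_eq, List.any_eq_true, hl] at h1
    rcases h1 with (h1 | h1) | ⟨z, hz, h1⟩
    · exact absurd h1 hα
    · exact absurd h1 (by simp)
    · refine ⟨z, hz, fun j hj hb => ?_⟩
      rw [allN_iff] at h1
      have := h1 j hj
      rw [Bool.or_eq_true, Bool.or_eq_true, hb, decide_eq_true_eq, decide_eq_true_eq] at this
      rcases this with (h2 | h2) | h2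
      · exact absurd h2 (by simp)
      · exact Or.inl h2
      · exact Or.inr h2
  · have h1 := d5 i hi
    have hl0 := hl
    rw [hLb i (hrs i hi)] at hl
    rw [hl, Bool.or_eq_true, Bool.or_eq_true, Bool.and_eq_true, Bool.or_eq_true,
      List.any_eq_true, Bool.and_eq_true] at h1
    rcases h1 with (h1 | h1) | ⟨hg, ⟨q, hq, h1⟩ | h1⟩
    · exact absurd h1 (by simp)
    · obtain ⟨g1, g2, g3⟩ := hlu i hi h1 hl0
      exact Or.inr ⟨g1, by rw [R.hL' i (hrs i hi)]; exact g2, g3⟩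
    · rw [Bool.and_eq_true, decide_eq_true_eq] at h1
      obtain ⟨q1, q2, q3⟩ := q
      simp only at h1
      obtain ⟨rfl, h1⟩ := h1
      rw [h1] at hq
      exact Or.inl ⟨⟨q3, hq⟩, hro _ (hrs _ hi) hg⟩
    · exact Or.inr ⟨by simpa using h1.2, by rw [R.hL' i (hrs i hi)]; exact h1.1,
        Or.inl (hro i (hrs i hi) hg)⟩
  · have h1 := d6 q hq
    rw [hs, Bool.or_eq_true, Bool.and_eq_true, decide_eq_true_eq] at h1
    rcases h1 with h1 | h1
    · exact absurd h1 (by simp)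
    · rw [R.hL' _ h1.1]; exact h1.2
  · rw [R.rep.uo d hd]; exact hud
  · rw [(R.Lo d hd fun i hi hr hh => hd' i hi (by rw [← hh, S.M.αα])).1]
    exact hl
  · -- the requirements of `S'`
    have h1 := d1 m hm
    rw [Bool.or_eq_true, Bool.or_eq_true] at h1
    have nall : ∀ (n : ℕ) (p : ℕ → Bool), (!allN n fun i => !p i) = true →
        ∃ i < n, p i = true := by
      intro n p hp
      by_contra hcon
      push Not at hcon
      have : allN n (fun i => !p i) = true := by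
        rw [allN_iff]
        intro i hi
        have := hcon i hi
        simpa using this
      rw [this] at hp
      exact absurd hp (by simp)
    rcases h1 with (h1 | h1) | h1
    · obtain ⟨i, hi, h2⟩ := nall _ _ h1
      rw [Bool.and_eq_true, Bool.or_eq_true, decide_eq_true_eq] at h2
      refine ⟨i, hi, h2.2, ?_⟩
      rcases h2.1 with h3 | h3
      · exact hc'.req _ (by rw [R.rep.hu' i hi]; exact h3)
      · obtain ⟨d, hd1, hd2⟩ := hou S' L' w' R i hi h3
        exact (hc'.req d hd2).sc (S'.sc.iseqv.symm hd1)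
    · obtain ⟨i, hi, h2⟩ := nall _ _ h1
      rw [Bool.and_eq_true, Bool.and_eq_true, Bool.and_eq_true, decide_eq_true_eq] at h2
      obtain ⟨⟨⟨h3, h4⟩, h5⟩, h6⟩ := h2
      rcases hc'.lab (f i) (by rw [R.hL' i hi]; exact h3) with h7 | h7
      · exact ⟨i, hi, h5, h7⟩
      · refine ⟨P.α i, G.αlt i hi, h6, ?_⟩
        rwa [R.rep.αo, e.hα i hi h4] at h7
    · obtain ⟨a, ha, h2⟩ := nall _ _ h1
      rw [Bool.and_eq_true, decide_eq_true_eq, allN_iff] at h2
      obtain ⟨d, hd1, hd2⟩ := hc'.live (g a) ((R.hA _).2 (Or.inl ⟨a, ha, h2.1, rfl⟩))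
      by_cases ho : ∀ i < P.n, f i ≠ d
      · rw [R.rep.vo d ho] at hd1
        exact absurd hd1 (R.out_X ho ha)
      · push Not at ho
        obtain ⟨i, hi, rfl⟩ := ho
        refine ⟨i, hi, ?_, hd2⟩
        have h3 := h2.2 i hi
        rw [Bool.or_eq_true, decide_eq_true_eq] at h3
        rcases h3 with h3 | h3
        · exfalso
          rw [R.v' hi] at hd1
          apply h3
          -- the label of `i` is `a`
          by_cases h7 : P'.l i < O.x
          · exact hgi _ h7 _ ha hd1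
          · by_cases h8 : P'.l i < O.m
            · exact absurd hd1 (hgd a ha _ (by omega) h8)
            · exact absurd hd1 (hAm a ha i hi (by omega))
        · exact h3
  · refine c5 m ?_
    rw [hm O.x (by omega), hcx, Bool.and_false]

end Pool.FC7
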