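import Pool.Agent.FC7.RokE
import Pool.Agent.FC7.GbA

/-! # An efficient check for the cuts -/

open Finset

set_option linter.unusedSectionVars false

namespace Pool.FC7

open Pool.FC6 Pool.FC6.St

/-- the elements of the list are different and not in the mask `m` -/
def nd : ℕ → List ℕ → Bool
  | _, [] => true
  | m, i :: l => !m.testBit i && nd (m ||| 2 ^ i) l

theorem nd_sound : ∀ (l : List ℕ) (m : ℕ), nd m l = true →
    l.Nodup ∧ ∀ i ∈ l, m.testBit i = false := by
  intro l
  induction l with
  | nil => intro m _; exact ⟨List.nodup_nil, fun i hi => absurd hi (by simp)⟩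
  | cons i l ih =>
    intro m h
    unfold nd at h
    rw [Bool.and_eq_true, Bool.not_eq_true'] at h
    obtain ⟨h1, h2⟩ := ih _ h.2
    refine ⟨List.nodup_cons.2 ⟨fun hi => ?_, h1⟩, fun j hj => ?_⟩
    · have := h2 i hi
      rw [Nat.testBit_or, Nat.testBit_two_pow_self, Bool.or_true] at this
      exact absurd this (by simp)
    · rcases List.mem_cons.1 hj with rfl | hj
      · exact h.1
      · have := h2 j hj
        rw [Nat.testBit_or, Bool.or_eq_false_iff] at this
        exact this.1

theorem list_le_sum {T : List ℕ} {n : ℕ} (hT : T.Nodup) (hn : ∀ i ∈ T, i < n) (G : ℕ → ℕ) :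
    (T.map G).sum ≤ ∑ i ∈ Finset.range n, G i := by
  rw [← List.sum_toFinset _ hT]
  refine Finset.sum_le_sum_of_subset fun i hi => ?_
  exact Finset.mem_range.2 (hn i (List.mem_toFinset.1 hi))

/-- data of the cut check: `lv` = for the labels `lo, .., m-1` the real darts of `P'` (one for each
edge) whose larger label is this label; `ul` = the darts with units, for each piece -/
structure CD where
  lv : List (List ℕ)
  ul : List (List ℕ)

namespace CD

variable (C : CD) (O : OD) (P P' : Pa) (bf gb : ℕ → ℕ)

def wA (i : ℕ) : ℕ :=
  if P.α i = i then (if O.ro i then 2 else 1) * (1 + O.wt' i) else 2 * (1 + O.wt' i)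

def wB (i : ℕ) : ℕ := if P.α i = i then 1 + O.wt' i else 2 * (1 + O.wt' i)

def sm (wg : ℕ → ℕ) (c : ℕ) : List ℕ → ℕ
  | [] => 0
  | i :: l => (if OD.crs P' c i then wg i else 0) + sm wg c l

def us (b : Bool) (c : ℕ) : List ℕ → ℕ
  | [] => 0
  | i :: l => (if c.testBit (P'.l i) == b then P'.u i else 0) + us b c l

def un (c : ℕ) : List (List ℕ) → ℕ
  | [] => 0
  | l :: ls => min (us P' true c l) (us P' false c l) + un c ls

def leaf (c sA sB : ℕ) : Bool :=
  decide (6 ≤ sA + 2 * un P' c C.ul) ||
    ((decide (c >>> O.x ≠ 0) || decide (c >>> O.lo = 0)) &&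
      ((!allN (2 ^ O.x) fun ξ => !decide (6 + FC6.OD.inS P (2 ^ O.x * (c >>> O.x) + ξ) ≤
        2 * bf (2 ^ O.x * (c >>> O.x) + ξ) + (sB + 2 * un P' c C.ul))) ||
      !allN (2 ^ O.x) fun ξ => !decide (6 ≤
        gb (2 ^ O.x * (c >>> O.x) + ξ) + (sB + 2 * un P' c C.ul))))

def dfs : List (List ℕ) → ℕ → ℕ → ℕ → ℕ → Bool
  | [], _, c, sA, sB => C.leaf O P P' bf gb c sA sB
  | l :: ls, a, c, sA, sB =>
    (decide (6 ≤ sA + sm P' (wA O P) c l) ||
      dfs ls (a + 1) c (sA + sm P' (wA O P) c l) (sB + sm P' (wB O P) c l)) &&
    (decide (a = O.x) || (decide (6 ≤ sA + sm P' (wA O P) (c + 2 ^ a) l) ||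
      dfs ls (a + 1) (c + 2 ^ a) (sA + sm P' (wA O P) (c + 2 ^ a) l)
        (sB + sm P' (wB O P) (c + 2 ^ a) l)))

def lvc : List (List ℕ) → ℕ → Bool
  | [], _ => true
  | l :: ls, a => l.all (fun i => decide (i < P.n) && P'.real i && decide (P'.l i ≤ a) &&
      decide (P'.l (P'.φ i) ≤ a)) && lvc ls (a + 1)

def chk : Bool :=
  decide (C.lv.length = O.m - O.lo) && lvc P P' C.lv O.lo &&
  nd 0 (C.lv.flatten ++ (C.lv.flatten.filter fun i => decide (P.α i ≠ i)).map P.α) &&
  nd 0 C.ul.flatten && C.ul.all (fun l => l.all fun i => decide (i < P.n) &&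
    l.all fun j => decide (O.pc i = O.pc j)) &&
  C.dfs O P P' bf gb C.lv O.lo 0 0 0

variable {C O P P' bf gb}

theorem sm_eq (wg : ℕ → ℕ) (c : ℕ) (l : List ℕ) :
    sm P' wg c l = (l.map fun i => if OD.crs P' c i then wg i else 0).sum := by
  induction l with
  | nil => rfl
  | cons i l ih => rw [sm, List.map_cons, List.sum_cons, ih]

theorem us_eq (b : Bool) (c : ℕ) (l : List ℕ) :
    us P' b c l = (l.map fun i => if c.testBit (P'.l i) == b then P'.u i else 0).sum := by
  induction l with
  | nil => rfl
  | cons i l ih => rw [us, List.map_cons, List.sum_cons, ih]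

theorem lvc_sound : ∀ (ls : List (List ℕ)) (a : ℕ), lvc P P' ls a = true →
    ∀ i ∈ ls.flatten, i < P.n ∧ P'.real i = true := by
  intro ls
  induction ls with
  | nil => intro a _ i hi; exact absurd hi (by simp)
  | cons l ls ih =>
    intro a h i hi
    unfold lvc at h
    rw [Bool.and_eq_true, List.all_eq_true] at h
    rw [List.flatten_cons, List.mem_append] at hi
    rcases hi with hi | hi
    · have := h.1 i hi
      rw [Bool.and_eq_true, Bool.and_eq_true, Bool.and_eq_true, decide_eq_true_eq] at this
      exact this.1.1
    · exact ih _ h.2 i hi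

theorem mod_succ (c a : ℕ) : c % 2 ^ (a + 1) = c % 2 ^ a + if c.testBit a = true then 2 ^ a
    else 0 := by
  rw [Nat.mod_pow_succ, Nat.testBit_eq_decide_div_mod_eq]
  rcases Nat.mod_two_eq_zero_or_one (c / 2 ^ a) with h | h
  · rw [h]; simp
  · rw [h]; simp

/-- the search visits every colouring -/
theorem dfs_sound (c : ℕ) (hx : c.testBit O.x = false) : ∀ (ls : List (List ℕ)) (a sA sB : ℕ),
    lvc P P' ls a = true → c < 2 ^ (a + ls.length) →
    C.dfs O P P' bf gb ls a (c % 2 ^ a) sA sB = true →
    6 ≤ sA + sm P' (wA O P) c ls.flatten ∨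
      C.leaf O P P' bf gb c (sA + sm P' (wA O P) c ls.flatten)
        (sB + sm P' (wB O P) c ls.flatten) = true := by
  intro ls
  induction ls with
  | nil =>
    intro a sA sB _ hc h
    rw [List.length_nil, add_zero] at hc
    rw [Nat.mod_eq_of_lt hc] at h
    right
    exact h
  | cons l ls ih =>
    intro a sA sB hl hc h
    unfold lvc at hl
    rw [Bool.and_eq_true, List.all_eq_true] at hl
    have hcong : ∀ wg, sm P' wg (c % 2 ^ (a + 1)) l = sm P' wg c l := by
      intro wg
      rw [sm_eq, sm_eq]
      congr 1
      refine List.map_congr_left fun i hi => ?_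
      have := hl.1 i hi
      rw [Bool.and_eq_true, Bool.and_eq_true, decide_eq_true_eq, decide_eq_true_eq] at this
      have e : OD.crs P' (c % 2 ^ (a + 1)) i = OD.crs P' c i := by
        unfold OD.crs
        rw [Nat.testBit_mod_two_pow, Nat.testBit_mod_two_pow,
          decide_eq_true (show P'.l i < a + 1 by omega),
          decide_eq_true (show P'.l (P'.φ i) < a + 1 by omega), Bool.true_and, Bool.true_and]
      rw [e]
    have step : (decide (6 ≤ sA + sm P' (wA O P) (c % 2 ^ (a + 1)) l) ||
        C.dfs O P P' bf gb ls (a + 1) (c % 2 ^ (a + 1)) (sA + sm P' (wA O P) (c % 2 ^ (a + 1)) l)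
          (sB + sm P' (wB O P) (c % 2 ^ (a + 1)) l)) = true := by
      unfold dfs at h
      rw [Bool.and_eq_true] at h
      by_cases hb : c.testBit a = true
      · have hax : a ≠ O.x := by
          rintro rfl
          rw [hx] at hb; exact absurd hb (by simp)
        have e : c % 2 ^ (a + 1) = c % 2 ^ a + 2 ^ a := by
          rw [mod_succ, if_pos hb]
        rw [e]
        have h2 := h.2
        rw [decide_eq_false hax, Bool.false_or] at h2
        exact h2
      · have e : c % 2 ^ (a + 1) = c % 2 ^ a := by
          rw [mod_succ, if_neg hb, add_zero]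
        rw [e]
        exact h.1
    rw [hcong, hcong] at step
    rw [Bool.or_eq_true, decide_eq_true_eq] at step
    have esm : ∀ wg, sm P' wg c (l :: ls).flatten = sm P' wg c l + sm P' wg c ls.flatten := by
      intro wg
      rw [sm_eq, sm_eq, sm_eq, List.flatten_cons, List.map_append, List.sum_append]
    rw [esm, esm, ← add_assoc, ← add_assoc]
    rcases step with h1 | h1
    · left; omega
    · exact ih (a + 1) _ _ hl.2 (by
        rw [List.length_cons] at hc
        rw [show a + 1 + ls.length = a + (ls.length + 1) by omega]
        exact hc) h1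

/-- units -/
theorem un_le (c : ℕ) (τ : ℕ → Bool) : ∀ (ls : List (List ℕ)),
    (∀ l ∈ ls, ∀ i ∈ l, ∀ j ∈ l, O.pc i = O.pc j) →
    un P' c ls ≤ (ls.flatten.map fun i => if c.testBit (P'.l i) != τ (O.pc i) then P'.u i
      else 0).sum := by
  intro ls
  induction ls with
  | nil => intro _; exact Nat.zero_le _
  | cons l ls ih =>
    intro h
    rw [List.flatten_cons, List.map_append, List.sum_append, un]
    refine Nat.add_le_add ?_ (ih fun l' hl' => h l' (List.mem_cons_of_mem _ hl'))
    rcases l with _ | ⟨i, l⟩
    · simp [us]
    · have hp : ∀ j ∈ i :: l, O.pc j = O.pc i := fun j hj => h _ (by simp) j hj i (by simp)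
      have key : us P' (!τ (O.pc i)) c (i :: l) = ((i :: l).map fun i =>
          if c.testBit (P'.l i) != τ (O.pc i) then P'.u i else 0).sum := by
        rw [us_eq]
        congr 1
        refine List.map_congr_left fun j hj => ?_
        rw [hp j hj]
        cases c.testBit (P'.l j) <;> cases τ (O.pc i) <;> rfl
      rw [← key]
      cases τ (O.pc i)
      · exact min_le_left _ _
      · exact min_le_right _ _

theorem chk_cuts (G' : P'.Good) (hn : P'.n = P.n) (hα : ∀ i < P.n, P'.α i = P.α i)
    (hs : O.stat P P' = true) (h : C.chk O P P' bf gb = true) :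
    O.Cuts P P' (fun c => max (bf c) ((FC6.OD.inS P c + gb c + 1) / 2))
      (fun c => O.rr P c + O.wr P c) := by
  unfold chk at h
  rw [Bool.and_eq_true, Bool.and_eq_true, Bool.and_eq_true, Bool.and_eq_true, Bool.and_eq_true,
    decide_eq_true_eq] at h
  obtain ⟨⟨⟨⟨⟨h1, h2⟩, h3⟩, h4⟩, h5⟩, h6⟩ := h
  have hfl := lvc_sound _ _ h2
  have hnd := (nd_sound _ _ h3).1
  have hnu := (nd_sound _ _ h4).1
  simp only [List.all_eq_true, Bool.and_eq_true, decide_eq_true_eq] at h5
  have s3 := OD.stat3 hs
  intro r hr hr0 q hq τ
  set c := 2 ^ O.lo * (2 ^ (O.x - O.lo) * r + q) with hc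
  have hlen : c < 2 ^ (O.lo + C.lv.length) := by
    rw [h1, pow_add]
    refine Nat.mul_lt_mul_of_pos_left ?_ (by positivity)
    have e : O.m - O.lo = (O.x - O.lo) + (O.m - O.x) := by omega
    rw [e, pow_add]
    calc 2 ^ (O.x - O.lo) * r + q < 2 ^ (O.x - O.lo) * r + 2 ^ (O.x - O.lo) := by omega
      _ = 2 ^ (O.x - O.lo) * (r + 1) := by ring
      _ ≤ _ := Nat.mul_le_mul_left _ hr
  have cbit : ∀ a, c.testBit a = if a < O.lo then false else
      if a < O.x then q.testBit (a - O.lo) else r.testBit (a - O.x) := by
    intro a
    have := Nat.testBit_two_pow_mul_add (2 ^ (O.x - O.lo) * r + q) (b := 0) (i := O.lo)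
      (by positivity) a
    rw [add_zero] at this
    rw [hc, this, Nat.testBit_two_pow_mul_add _ hq, Nat.zero_testBit]
    by_cases c1 : a < O.lo
    · rw [if_pos c1, if_pos c1]
    · rw [if_neg c1, if_neg c1]
      by_cases c2 : a < O.x
      · rw [if_pos c2, if_pos (by omega)]
      · rw [if_neg c2, if_neg (by omega)]
        congr 1; omega
  have hcx : c.testBit O.x = false := by
    rw [cbit, if_neg (by omega), if_neg (by omega), Nat.sub_self]
    exact hr0
  have hcr : c >>> O.x = r := by
    apply Nat.eq_of_testBit_eq
    intro b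
    rw [Nat.testBit_shiftRight, cbit, if_neg (by omega), if_neg (by omega)]
    congr 1; omega
  have hclo : c % 2 ^ O.lo = 0 := by
    apply Nat.eq_of_testBit_eq
    intro b
    rw [Nat.testBit_mod_two_pow, cbit, Nat.zero_testBit]
    by_cases hb : b < O.lo
    · rw [if_pos hb, Bool.and_false]
    · rw [decide_eq_false hb, Bool.false_and]
  have key := dfs_sound (C := C) (O := O) (P := P) (P' := P') (bf := bf) (gb := gb) c hcx C.lv
    O.lo 0 0 h2 hlen (by rw [hclo]; exact h6)
  rw [zero_add, zero_add] at key
  -- the sums
  let G : ℕ → ℕ := fun i => if P'.real i && OD.crs P' c i then 1 + O.wt' i else 0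
  have hin : O.inS' P P' c τ = (∑ i ∈ Finset.range P.n, G i) +
      2 * ∑ i ∈ Finset.range P.n, (if c.testBit (P'.l i) != τ (O.pc i) then P'.u i else 0) := by
    unfold OD.inS'
    rw [Finset.sum_add_distrib, Finset.mul_sum]
  have hU : un P' c C.ul ≤ ∑ i ∈ Finset.range P.n,
      (if c.testBit (P'.l i) != τ (O.pc i) then P'.u i else 0) := by
    refine le_trans (un_le (O := O) c τ C.ul fun l hl i hi j hj => (h5 l hl i hi).2 j hj) ?_
    refine list_le_sum hnu (fun i hi => ?_) _
    obtain ⟨l, hl, hil⟩ := List.mem_flatten.1 hi
    exact (h5 l hl i hil).1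
  have hB : sm P' (wB O P) c C.lv.flatten ≤ ∑ i ∈ Finset.range P.n, G i := by
    have e1 := list_le_sum (n := P.n) hnd (fun i hi => by
      rw [List.mem_append, List.mem_map] at hi
      rcases hi with hi | ⟨j, hj, rfl⟩
      · exact (hfl i hi).1
      · have := (hfl j (List.mem_filter.1 hj).1).1
        have := G'.αlt j (by rw [hn]; exact this)
        rw [hn, hα j (hfl j (List.mem_filter.1 hj).1).1] at this
        exact this) G
    refine le_trans ?_ e1
    rw [List.map_append, List.sum_append, sm_eq]
    -- induction on the list
    have ind : ∀ T : List ℕ, (∀ i ∈ T, i < P.n ∧ P'.real i = true) →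
        (T.map fun i => if OD.crs P' c i then wB O P i else 0).sum ≤
        (T.map G).sum + (((T.filter fun i => decide (P.α i ≠ i)).map P.α).map G).sum := by
      intro T
      induction T with
      | nil => intro _; simp
      | cons i T ih =>
        intro hT
        have ih' := ih fun j hj => hT j (List.mem_cons_of_mem _ hj)
        obtain ⟨hi, hr⟩ := hT i (by simp)
        have s1 := OD.stat1 hs hi
        rw [List.map_cons, List.sum_cons, List.map_cons, List.sum_cons]
        by_cases ha : P.α i = i
        · rw [List.filter_cons_of_neg (by simp [ha])]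
          have : (if OD.crs P' c i then wB O P i else 0) ≤ G i := by
            simp only [G, hr, Bool.true_and]
            unfold wB
            rw [if_pos ha]
          omega
        · rw [List.filter_cons_of_pos (by simpa using ha), List.map_cons, List.map_cons,
            List.sum_cons]
          have e2 : G (P.α i) = G i := by
            have hi' : i < P'.n := by rw [hn]; exact hi
            have k1 := G'.lφ i hi' (by rw [hα i hi]; exact ha)
            have hai := G'.αlt i hi'
            rw [hα i hi] at hai k1
            have k2 := G'.αα i hi'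
            have hai' : P.α i < P.n := by rw [← hn]; exact hai
            rw [hα i hi, hα _ hai'] at k2
            have k3 := G'.lφ (P.α i) hai (by
              rw [hα _ hai', k2]
              exact fun h => ha h.symm)
            rw [hα _ hai', k2] at k3
            simp only [G]
            rw [s1.rα, s1.wα]
            congr 2
            unfold OD.crs
            rw [k3, ← k1]
            cases c.testBit (P'.l (P'.φ i)) <;> cases c.testBit (P'.l i) <;> rfl
          have : (if OD.crs P' c i then wB O P i else 0) ≤ G i + G (P.α i) := by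
            rw [e2]
            simp only [G, hr, Bool.true_and]
            unfold wB
            rw [if_neg ha]
            split_ifs <;> omega
          omega
    exact ind _ hfl
  have hA : sm P' (wA O P) c C.lv.flatten ≤ sm P' (wB O P) c C.lv.flatten +
      (O.rr P c + O.wr P c) := by
    let H : ℕ → ℕ := fun i => if O.rg P i && P.real i && OD.crs P c i then 1 + O.wt' i else 0
    have e1 : O.rr P c + O.wr P c = ∑ i ∈ Finset.range P.n, H i := by
      unfold OD.rr OD.wr
      rw [sumN_eq, sumN_eq, ← Finset.sum_add_distrib]
      refine Finset.sum_congr rfl fun i _ => ?_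
      simp only [H]
      split_ifs <;> omega
    rw [e1]
    have hnf : C.lv.flatten.Nodup := (List.nodup_append.1 hnd).1
    refine le_trans ?_ (Nat.add_le_add_left (list_le_sum hnf (fun i hi => (hfl i hi).1) H) _)
    rw [sm_eq, sm_eq]
    have ind : ∀ T : List ℕ, (∀ i ∈ T, i < P.n ∧ P'.real i = true) →
        (T.map fun i => if OD.crs P' c i then wA O P i else 0).sum ≤
        (T.map fun i => if OD.crs P' c i then wB O P i else 0).sum + (T.map H).sum := by
      intro T
      induction T with
      | nil => intro _; simp
      | cons i T ih =>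
        intro hT
        have ih' := ih fun j hj => hT j (List.mem_cons_of_mem _ hj)
        obtain ⟨hi, hr⟩ := hT i (by simp)
        have s1 := OD.stat1 hs hi
        rw [List.map_cons, List.sum_cons, List.map_cons, List.sum_cons, List.map_cons,
          List.sum_cons]
        have : (if OD.crs P' c i then wA O P i else 0) ≤
            (if OD.crs P' c i then wB O P i else 0) + H i := by
          by_cases hcr : OD.crs P' c i = true
          · rw [if_pos hcr, if_pos hcr]
            unfold wA wB
            by_cases ha : P.α i = i
            · rw [if_pos ha, if_pos ha]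
              by_cases hro : O.ro i = true
              · have r1 := s1.ring ha
                have e3 : H i = 1 + O.wt' i := by
                  simp only [H]
                  have e4 : O.rg P i = true := by
                    unfold OD.rg
                    rw [decide_eq_true ha, hro]; rfl
                  have e5 : OD.crs P c i = true := by
                    unfold OD.crs at hcr ⊢
                    rw [← r1.2.1, ← r1.2.2.1]; exact hcr
                  rw [e4, ← r1.1, hr, e5]
                  rfl
                rw [if_pos hro, e3]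
                omega
              · rw [if_neg hro]; omega
            · rw [if_neg ha, if_neg ha]; omega
          · rw [if_neg hcr]; exact Nat.zero_le _
        omega
    exact ind _ hfl
  rw [hin]
  rcases key with key | key
  · left
    beta_reduce
    omega
  · unfold leaf at key
    rw [Bool.or_eq_true, decide_eq_true_eq, Bool.and_eq_true, Bool.or_eq_true,
      decide_eq_true_eq, decide_eq_true_eq, hcr] at key
    rcases key with key | ⟨k1, k2⟩
    · left
      beta_reduce
      omega
    · right
      refine ⟨?_, ?_⟩
      · by_contra hcon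
        push Not at hcon
        have e1 : allN (2 ^ O.x) (fun ξ => !decide (6 + FC6.OD.inS P (2 ^ O.x * r + ξ) ≤
          2 * bf (2 ^ O.x * r + ξ) + (sm P' (wB O P) c C.lv.flatten +
            2 * un P' c C.ul))) = true := by
          rw [allN_iff]
          intro ξ hξ
          simp only [Bool.not_eq_true', decide_eq_false_iff_not, not_le]
          have := hcon ξ hξ
          have := le_max_left (bf (2 ^ O.x * r + ξ))
            ((FC6.OD.inS P (2 ^ O.x * r + ξ) + gb (2 ^ O.x * r + ξ) + 1) / 2)
          omega
        have e2 : allN (2 ^ O.x) (fun ξ => !decide (6 ≤ gb (2 ^ O.x * r + ξ) +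
          (sm P' (wB O P) c C.lv.flatten + 2 * un P' c C.ul))) = true := by
          rw [allN_iff]
          intro ξ hξ
          simp only [Bool.not_eq_true', decide_eq_false_iff_not, not_le]
          have := hcon ξ hξ
          have := le_max_right (bf (2 ^ O.x * r + ξ))
            ((FC6.OD.inS P (2 ^ O.x * r + ξ) + gb (2 ^ O.x * r + ξ) + 1) / 2)
          omega
        rw [e1, e2] at k2
        exact absurd k2 (by simp)
      · rcases k1 with k1 | k1
        · exact Or.inl k1
        · right
          apply Nat.eq_of_testBit_eq
          intro b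
          rw [Nat.zero_testBit]
          by_cases hb : b < O.x - O.lo
          · have e := cbit (O.lo + b)
            rw [if_neg (by omega), if_pos (by omega)] at e
            have e2 : (c >>> O.lo).testBit b = false := by rw [k1, Nat.zero_testBit]
            rw [Nat.testBit_shiftRight, e] at e2
            rw [← e2]
            congr 1; omega
          · exact Nat.testBit_lt_two_pow (lt_of_lt_of_le hq (Nat.pow_le_pow_right (by omega)
              (by omega)))

end CD

end Pool.FC7
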