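import Pool.Agent.FC7.RokF
import Pool.Agent.FC7.RokH

/-! # Facts for the class with optional faces: static checks -/

open Finset

set_option linter.unusedSectionVars false

namespace Pool.FC7

open Pool.FC6 Pool.FC6.St

/-- bounds for real cuts: only cuts with labels on both sides are surely large -/
def bf3 (cq : List ℕ) (sm f c : ℕ) : ℕ :=
  if c &&& f = 0 ∨ c &&& f = f then 3 else bfq cq sm f c

/-- the entries of the kinds 5, 6, 9: they need no lists of labels -/
def o5 (E : List ℕ × List (List (ℕ × ℕ × Bool))) : Bool :=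
  decide (E.1.getD 0 0 = 5) || decide (E.1.getD 0 0 = 6) || decide (E.1.getD 0 0 = 9)

/-- the bound 5: two labels of a list of surely different labels on both sides, and an entry, or an
entry of the kinds 5, 6, 9.  An entry has a certificate and clauses; the literal `(a, b, q)`: the
colours of `a` and `b` are different (`q`) or equal -/
def b5 (D5 : List (List ℕ)) (p5 : List (List ℕ × List (List (ℕ × ℕ × Bool)))) (β : ℕ → Bool) : Bool :=
  (D5.any (fun D => decide (2 ≤ (D.filter β).length)) &&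
    D5.any (fun D => decide ((D.filter β).length + 2 ≤ D.length)) &&
    p5.any fun E => E.2.all fun C => C.any fun t => (β t.1 != β t.2.1) == t.2.2) ||
    p5.any fun E => o5 E && E.2.all fun C => C.any fun t => (β t.1 != β t.2.1) == t.2.2

/-- bounds for real cuts with the entries for the bound 5 -/
def bf5 (cq : List ℕ) (sm : ℕ) (D5 : List (List ℕ)) (p5 : List (List ℕ × List (List (ℕ × ℕ × Bool))))
    (f c : ℕ) : ℕ :=
  if c &&& f = 0 ∨ c &&& f = f then 3 else if b5 D5 p5 c.testBit = true then 5 else bfq cq sm f c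

/-- a fact: the configuration `P` is replaced by `P'`.  `nl`: number of labels; `NM`: bit `16 a + b` =
the labels `a`, `b` are surely different; `NA`: bit `16 a + b` = no real edge outside of the patch leads
from `a` to `b`; `cq`: cliques of labels which are surely different; `sm`: mask of labels of the
significant set; `ou`: ring darts whose outer part surely carries units; `op`: ring darts whose face of
`S` has no units; `ty q`: type of the piece `q` of `P'` (0 three units in the patch, 1 no units,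
2 two nonadjacent corners `tj q`, `tk q`, 3 three units by the outer part, 4 three units or two
nonadjacent corners by the outer part); `tw`: darts whose face of `S` has at most two units; `uk`: darts
which may carry additional units; `oz`: darts whose face of `S` has no units or whose face of the new
state has at least three units; `gt`: the arcs at gaps for the bonus in the bounds of the cuts; `kp e`: the
dart of `P'` with the additional units of the dart `e`, `kr e`: a dart of the face of `e` in `S` and of the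
piece of `kp e`; `lu`: ring darts with unknown labels; `D5`, `p5`: the entries of the bound 5 -/
structure Fc where
  P : Pa
  P' : Pa
  fl : List ℕ
  X : XE
  T : XF
  O : OD
  C : CD
  nl : ℕ
  NM : ℕ
  NA : ℕ
  cq : List ℕ
  sm : ℕ
  ou : ℕ → Bool
  op : ℕ → Bool
  ty : ℕ → ℕ
  tj : ℕ → ℕ
  tk : ℕ → ℕ
  tw : ℕ → Bool
  uk : ℕ → Bool
  oz : ℕ → Bool := fun _ => false
  gt : List (ℕ × ℕ × ℕ) := []
  kp : ℕ → ℕ := fun i => i
  kr : ℕ → ℕ := fun i => i
  lu : ℕ → Bool := fun _ => false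
  D5 : List (List ℕ) := []
  p5 : List (List ℕ × List (List (ℕ × ℕ × Bool))) := []

/-- additional units -/
def kP (P : Pa) (κ : ℕ → ℕ) : Pa := { P with u := fun i => P.u i + κ i }

/-- the additional units of the new patch: those of the dart `e` are at the dart `kp e` -/
def kq (n : ℕ) (kp κ : ℕ → ℕ) (j : ℕ) : ℕ := sumN n fun e => if kp e = j then κ e else 0

/-- additional labels -/
def kO (O : OD) (l : ℕ → Bool) : OD := { O with
  lb := fun i => O.lb i || l i
  wt := fun i => O.wt i + if l i then 1 else 0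
  lb' := fun i => O.lb' i || l i
  wt' := fun i => O.wt' i + if l i then 1 else 0 }

/-- the index of the pair `a`, `b` of labels: the labels `≥ 15` are in the rows `a + 24` -/
def lix (a b : ℕ) : ℕ := 16 * a + b + 369 * ((b + 1) / 16)

namespace Fc

variable (F : Fc)

def ne (a b : ℕ) : Bool := decide (b < 31) && F.NM.testBit (lix a b)

def na (a b : ℕ) : Bool := decide (b < 31) && F.NA.testBit (lix a b)

/-- the lower bound without the entries of the bound 5 -/
def bf4 (c : ℕ) : ℕ := bf3 F.cq F.sm (2 ^ F.O.m - 1) c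

def bf (c : ℕ) : ℕ := bf5 F.cq F.sm F.D5 F.p5 (2 ^ F.O.m - 1) c

def gb (c : ℕ) : ℕ := gbn F.P F.O F.gt c

/-- the lower bound for a real cut -/
def bg (c : ℕ) : ℕ := max (F.bf c) ((FC6.OD.inS F.P c + F.gb c + 1) / 2)

/-- the dart is a real edge of `P` and of `P'` -/
def un (i : ℕ) : Bool :=
  F.P.real i && decide (F.P'.l i = F.P.l i) && decide (F.P'.l (F.P'.φ i) = F.P.l (F.P.φ i))

/-- distinct labels, no parallel real edges -/
def chkS : Bool :=
  allN F.O.x (fun a => allN F.O.m fun b => decide (a = b) || (F.ne a b && F.ne b a)) &&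
  allN F.P.n (fun i => decide (F.P.l i < F.nl) && decide (F.P'.l i < F.nl) &&
    (!F.P'.real i || F.un i ||
      (F.ne (F.P'.l i) (F.P'.l (F.P'.φ i)) &&
        (F.na (F.P'.l i) (F.P'.l (F.P'.φ i)) || decide (F.P'.l i < F.O.x) ||
          decide (F.P'.l (F.P'.φ i) < F.O.x)))) &&
    allN i fun j => !F.P'.real i || !F.P'.real j || F.ne (F.P'.l i) (F.P'.l j) ||
      F.ne (F.P'.l (F.P'.φ i)) (F.P'.l (F.P'.φ j)) || (F.un i && F.un j))

/-- the slack is used only once -/
def chkL : Bool :=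
  allN F.O.m fun a => allN F.O.m fun b => decide (F.O.sl a = 0) || decide (F.O.sl b = 0) ||
    decide (a = b) || F.ne a b

/-- the units of a piece -/
def pu (q : ℕ) : ℕ := sumN F.P.n fun j => if F.O.pc j = q then F.P'.u j else 0

/-- the types of the pieces -/
def chkQ : Bool :=
  allN F.O.p (fun q => (decide (F.ty q = 0) && decide (3 ≤ F.pu q)) || decide (F.ty q = 1) ||
    decide (F.ty q = 3) || decide (F.ty q = 4) ||
    (decide (F.ty q = 2) && decide (F.tj q < F.P.n) && decide (F.tk q < F.P.n) &&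
      decide (F.O.pc (F.tj q) = q) && decide (F.O.pc (F.tk q) = q) &&
      decide (F.P'.u (F.tj q) ≠ 0) && decide (F.P'.u (F.tk q) ≠ 0) &&
      decide (F.P'.l (F.tj q) < F.O.m) && decide (F.P'.l (F.tk q) < F.O.m) &&
      F.ne (F.P'.l (F.tj q)) (F.P'.l (F.tk q)) &&
      F.na (F.P'.l (F.tj q)) (F.P'.l (F.tk q)) && F.na (F.P'.l (F.tk q)) (F.P'.l (F.tj q)) &&
      allN F.P.n fun r => !F.P'.real r ||
        ((F.ne (F.P'.l r) (F.P'.l (F.tj q)) ||
          F.ne (F.P'.l (F.P'.φ r)) (F.P'.l (F.tk q))) &&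
        (F.ne (F.P'.l r) (F.P'.l (F.tk q)) ||
          F.ne (F.P'.l (F.P'.φ r)) (F.P'.l (F.tj q)))))) &&
  allN F.P.n (fun i => decide (F.ty (F.O.pc i) ≠ 1) || (decide (F.P'.u i = 0) &&
    (decide (F.P.α i ≠ i) || F.P.real i || F.op i || F.oz i)))

/-- additional units are allowed -/
def chkK : Bool :=
  allN F.P.n (fun i => !F.uk i || (decide (F.kp i < F.P.n) && decide (F.kr i < F.P.n) &&
    decide (F.P'.l (F.kp i) = F.P.l i) && decide (F.O.x ≤ F.P.l i) && decide (F.P.l i < F.O.m) &&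
    (decide (F.ty (F.O.pc (F.kp i)) ≠ 1) ||
      (F.oz (F.kr i) && decide (F.O.pc (F.kr i) = F.O.pc (F.kp i)))))) &&
  allN F.P.n fun i => !F.lu i || (decide (F.P.α i = i) && F.P.real i && !F.O.lb i && !F.O.lb' i &&
    decide (F.O.wt i = 0))

/-- a real edge remains -/
def chkR : Bool :=
  (!allN F.P.n fun i => !F.P'.real i) || decide (sumN F.P.n (fun i => if F.P.real i then 1 else 0) < 20)

/-- the costs do not increase outside of the patch -/
def chkC : Bool :=
  allN F.P.n (fun j => decide (F.P.α j ≠ j) || F.P.real j || decide (F.ty (F.O.pc j) = 0) ||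
      decide (F.ty (F.O.pc j) = 3) || F.op j || F.tw j || F.oz j) &&
    allN F.P.n (fun i => !F.uk i || decide (F.ty (F.O.pc (F.kp i)) = 0) ||
      decide (F.ty (F.O.pc (F.kp i)) = 3) ||
      F.tw i || (F.oz (F.kr i) && decide (F.O.pc (F.kr i) = F.O.pc (F.kp i))))

/-- the costs of the new requirements -/
def co' : ℕ := sumN F.P.n (fun i => F.P'.u i *
      (if F.ty (F.O.pc i) = 0 ∨ F.ty (F.O.pc i) = 3 then 2024 else 3054)) +
      3054 * F.O.nlb' F.P + 6120 * F.O.ns' F.P F.P'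

/-- the costs of the old requirements -/
def co : ℕ := sumN F.P.n (fun i => F.P.u i * (if F.tw i then 3054 else 2024)) +
      3054 * F.O.nlb F.P

/-- the potential -/
def chkM (e : ℕ) : Bool :=
  decide (F.O.nb' F.P F.P' < F.O.x) ||
  (decide (F.O.nb' F.P F.P' ≤ F.O.x) && F.chkC && decide (F.co' + e < F.co))

/-- the potential: more real edges -/
def chkN : Bool :=
  decide (F.O.nb' F.P F.P' ≤ F.O.x) && F.chkC && decide (F.co' ≤ F.co) &&
    decide (sumN F.P.n (fun i => if F.P.real i then 1 else 0) <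
      sumN F.P.n (fun i => if F.P'.real i then 1 else 0))

/-- the extension check is done for half of the colourings -/
def XX : XE := { F.X with flt := fun m => !m.testBit F.O.x }

/-- the extension check for one colouring -/
noncomputable def okE (r : ℕ) : Bool :=
  (r <<< F.X.lo).testBit F.O.x || F.T.one (r <<< F.X.lo)

/-- the extension check for all colourings: one by one with the tables `T`, or the vector check -/
def One : Prop := (F.T.ok F.XX F.P F.P' = true ∧ ∀ r < 2 ^ (F.X.x + F.X.k - F.X.lo),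
    F.okE r = true ∨ F.T.OneM (r <<< F.X.lo)) ∨ F.XX.VOk F.P F.P'

theorem One.of {F : Fc} (hT : F.T.ok F.XX F.P F.P' = true)
    (h : ∀ r < 2 ^ (F.X.x + F.X.k - F.X.lo), F.okE r = true) : F.One :=
  Or.inl ⟨hT, fun r hr => Or.inl (h r hr)⟩

/-- the guided check for all colourings -/
theorem oneM {F : Fc} (G : GT) {t : ℕ} (hT : F.T.ok F.XX F.P F.P' = true) (hx : F.T.x = F.O.x)
    (hn : F.X.x + F.X.k = G.s + t)
    (h1 : F.T.ars = aI G.its) (h2 : F.T.es = pI G.its) (h3 : F.T.es' = eI G.its G.ll)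
    (h4 : F.T.lr = lI G.its) (hok : G.ok F.O.x F.X.lo = true)
    (hrun : ∀ i < 2 ^ t, G.run F.T i = true) : F.One := Or.inl ⟨hT, fun r hr =>
  (GT.all hx hn h1 h2 h3 h4 hok hrun r hr).imp
    (fun h => by unfold okE; rw [h, Bool.true_or]) id⟩

/-- the vector check -/
theorem oneV {F : Fc} {q s x m lo NB A : ℕ} {G : EK}
    (h : EV.ev F.XX F.P F.P' q s x m lo NB A G = true) : F.One := Or.inr (EV.ev_ok h)

/-- the check without the potential and without the colourings -/
noncomputable def chk (Δ : ℕ) : Bool :=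
  F.P.good && F.P'.good && Pa.flips F.P' F.P F.fl && (F.XX.sta F.P F.P' && F.XX.ringOk F.P) &&
  F.O.stat F.P F.P' &&
  F.C.chk F.O F.P F.P' F.bf F.gb && djs F.XX F.O F.P F.P' (List.range F.O.x) F.ou F.lu &&
  decide (F.X.x = F.O.x) && decide (F.X.x + F.X.k = F.O.m) && decide (F.O.Δ = Δ) &&
  decide (F.X.lo = F.O.lo) && decide (F.O.x < F.O.m) && decide (F.sm < 2 ^ F.O.m) &&
  cqc F.ne F.O.m F.cq && F.chkS && F.chkL && F.chkQ && F.chkK && F.chkR &&
  allN F.P.n (fun i => decide (F.O.wt' i = if F.O.lb' i then 1 else 0))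

/-- the additional units and labels -/
def kap (κ : ℕ → ℕ) (l : ℕ → Bool) : Fc :=
  { F with P := kP F.P κ, P' := kP F.P' (kq F.P.n F.kp κ), O := kO F.O l }

end Fc

/-! ### The static facts -/

/-- the static conditions -/
structure Fc.Chk (F : Fc) (Δ : ℕ) : Prop where
  g : F.P.good = true
  g' : F.P'.good = true
  fl : Pa.flips F.P' F.P F.fl = true
  X : F.XX.Ck F.P F.P'
  st : F.O.stat F.P F.P' = true
  cu : F.O.Cuts F.P F.P' F.bg (fun c => F.O.rr F.P c + F.O.wr F.P c)
  dj : djs F.XX F.O F.P F.P' (List.range F.O.x) F.ou F.lu = true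
  c1 : F.X.x = F.O.x
  c2 : F.X.x + F.X.k = F.O.m
  c3 : F.O.Δ = Δ
  c4 : F.X.lo = F.O.lo
  c5 : F.O.x < F.O.m
  s1 : ∀ a < F.O.x, ∀ b < F.O.m, a ≠ b → F.ne a b = true ∧ F.ne b a = true
  s2 : ∀ i < F.P.n, F.P.l i < F.nl ∧ F.P'.l i < F.nl
  s3 : ∀ i < F.P.n, F.P'.real i = true → F.un i = true ∨
      (F.ne (F.P'.l i) (F.P'.l (F.P'.φ i)) = true ∧
        (F.na (F.P'.l i) (F.P'.l (F.P'.φ i)) = true ∨ F.P'.l i < F.O.x ∨
          F.P'.l (F.P'.φ i) < F.O.x))
  s4 : ∀ i < F.P.n, ∀ j < i, F.P'.real i = true → F.P'.real j = true →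
      F.ne (F.P'.l i) (F.P'.l j) = true ∨ F.ne (F.P'.l (F.P'.φ i)) (F.P'.l (F.P'.φ j)) = true ∨
      (F.un i = true ∧ F.un j = true)
  sl : ∀ a < F.O.m, ∀ b < F.O.m, F.O.sl a = 0 ∨ F.O.sl b = 0 ∨ a = b ∨ F.ne a b = true
  q1 : ∀ q < F.O.p, (F.ty q = 0 ∧ 3 ≤ F.pu q) ∨ F.ty q = 1 ∨ F.ty q = 3 ∨ F.ty q = 4 ∨
    (F.ty q = 2 ∧ F.tj q < F.P.n ∧ F.tk q < F.P.n ∧ F.O.pc (F.tj q) = q ∧
      F.O.pc (F.tk q) = q ∧ F.P'.u (F.tj q) ≠ 0 ∧ F.P'.u (F.tk q) ≠ 0 ∧
      F.P'.l (F.tj q) < F.O.m ∧ F.P'.l (F.tk q) < F.O.m ∧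
      F.ne (F.P'.l (F.tj q)) (F.P'.l (F.tk q)) = true ∧
      F.na (F.P'.l (F.tj q)) (F.P'.l (F.tk q)) = true ∧
      F.na (F.P'.l (F.tk q)) (F.P'.l (F.tj q)) = true ∧
      ∀ r < F.P.n, F.P'.real r = true →
        (F.ne (F.P'.l r) (F.P'.l (F.tj q)) = true ∨
          F.ne (F.P'.l (F.P'.φ r)) (F.P'.l (F.tk q)) = true) ∧
        (F.ne (F.P'.l r) (F.P'.l (F.tk q)) = true ∨
          F.ne (F.P'.l (F.P'.φ r)) (F.P'.l (F.tj q)) = true))
  q2 : ∀ i < F.P.n, F.ty (F.O.pc i) = 1 →
    (F.P'.u i = 0 ∨ ∃ e < F.P.n, F.uk e = true ∧ F.P.u e ≠ 0 ∧ F.kr e < F.P.n ∧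
      F.oz (F.kr e) = true ∧ F.O.pc (F.kr e) = F.O.pc i) ∧
    (F.P.α i ≠ i ∨ F.P.real i = true ∨ F.op i = true ∨ F.oz i = true)
  r : (∃ i < F.P.n, F.P'.real i = true) ∨
    sumN F.P.n (fun i => if F.P.real i then 1 else 0) < 20
  w : ∀ i < F.P.n, F.O.wt' i = if F.O.lb' i = true then 1 else 0

/-- additional units and labels are allowed -/
structure Fc.Kap (F : Fc) (κ : ℕ → ℕ) (l : ℕ → Bool) : Prop where
  uk : ∀ i, κ i ≠ 0 → F.uk i = true
  lu : ∀ i, l i = true → F.lu i = true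
  k : ∀ i < F.P.n, κ i ≠ 0 → F.kp i < F.P.n ∧ F.kr i < F.P.n ∧ F.P'.l (F.kp i) = F.P.l i ∧
    F.O.x ≤ F.P.l i ∧ F.P.l i < F.O.m ∧
    (F.ty (F.O.pc (F.kp i)) ≠ 1 ∨ (F.oz (F.kr i) = true ∧ F.O.pc (F.kr i) = F.O.pc (F.kp i)))
  l : ∀ i < F.P.n, l i = true → F.P.α i = i ∧ F.P.real i = true ∧ F.O.lb i = false ∧
    F.O.lb' i = false ∧ F.O.wt i = 0

theorem nall {n : ℕ} {p : ℕ → Bool} (hp : (!allN n fun i => !p i) = true) :
    ∃ i < n, p i = true := by
  by_contra hcon
  push Not at hcon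
  have : allN n (fun i => !p i) = true := by
    rw [allN_iff]
    intro i hi
    have := hcon i hi
    simpa using this
  rw [this] at hp
  exact absurd hp (by simp)

theorem Fc.chk_iff {F : Fc} {Δ : ℕ} (h : F.chk Δ = true) (hE : F.One) :
    F.Chk Δ ∧ F.sm < 2 ^ F.O.m ∧ cqc F.ne F.O.m F.cq = true ∧
      ∀ (κ : ℕ → ℕ) (l : ℕ → Bool), (∀ i, κ i ≠ 0 → F.uk i = true) →
        (∀ i, l i = true → F.lu i = true) → F.Kap κ l := by
  unfold Fc.chk at h
  simp only [Bool.and_eq_true, decide_eq_true_eq, allN_iff] at h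
  obtain ⟨⟨⟨⟨⟨⟨⟨⟨⟨⟨⟨⟨⟨⟨⟨⟨⟨⟨⟨k1, k2⟩, k3⟩, k4⟩, k5⟩, k6⟩, k7⟩, k8⟩, k9⟩, k10⟩, k11⟩, k12⟩, k13⟩,
    k14⟩, kS⟩, kL⟩, kQ⟩, kK⟩, kR⟩, kw⟩ := h
  unfold Fc.chkS at kS
  rw [Bool.and_eq_true, allN_iff, allN_iff] at kS
  obtain ⟨s1, s2⟩ := kS
  unfold Fc.chkL at kL
  unfold Fc.chkQ at kQ
  rw [Bool.and_eq_true, allN_iff, allN_iff] at kQ
  obtain ⟨q1, q2⟩ := kQ
  unfold Fc.chkK at kK
  rw [Bool.and_eq_true, allN_iff, allN_iff] at kK
  obtain ⟨kK, kLu⟩ := kK
  unfold Fc.chkR at kR
  have G' := Pa.good_iff.1 k2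
  have hn : F.P'.n = F.P.n ∧ ∀ i < F.P.n, F.P'.α i = F.P.α i := by
    clear * - k3
    have key : ∀ (l : List ℕ) (P : Pa), Pa.flips F.P' P l = true →
        F.P'.n = P.n ∧ ∀ i < P.n, F.P'.α i = P.α i := by
      intro l
      induction l with
      | nil =>
        intro P h
        unfold Pa.flips at h
        simp only [Bool.and_eq_true, decide_eq_true_eq, allN_iff] at h
        exact ⟨h.1, fun i hi => (h.2 i hi).1.2⟩
      | cons a l ih =>
        intro P h
        unfold Pa.flips at h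
        rw [Bool.and_eq_true] at h
        exact ih (P.fl a) h.2
    exact key _ _ k3
  have k4' : F.XX.Ck F.P F.P' := by
    refine XE.Ck.of k4.1 k4.2 (fun m hm => ?_) (hE.imp (fun h => ⟨F.T, h.1, fun r hr hf => ?_⟩) id)
    · have h2 : (!m.testBit F.O.x) = true := hm
      rw [Bool.not_eq_true', ← k8] at h2
      exact h2
    · refine (h.2 r hr).imp (fun h1 => ?_) id
      unfold Fc.okE at h1
      rw [Bool.or_eq_true] at h1
      refine h1.resolve_left ?_
      have h2 : (!(r <<< F.X.lo).testBit F.O.x) = true := hf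
      rw [Bool.not_eq_true'] at h2
      rw [h2]; simp
  refine ⟨⟨k1, k2, k3, k4', k5, CD.chk_cuts G' hn.1 hn.2 k5 k6, k7, k8, k9, k10, k11, k12,
    fun a ha b hb hab => ?_, fun i hi => ?_, fun i hi hr => ?_, fun i hi j hj hr hr' => ?_,
    fun a ha b hb => ?_, fun q hq => ?_, fun i hi ht => ?_, ?_, kw⟩, k13, k14,
    fun κ l hκ hl => ⟨hκ, hl, fun i hi h0 => ?_, fun i hi h0 => ?_⟩⟩
  · have := s1 a ha
    rw [allN_iff] at this
    have := this b hb
    rw [Bool.or_eq_true, decide_eq_true_eq, Bool.and_eq_true] at this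
    exact this.resolve_left hab
  · have := s2 i hi
    rw [Bool.and_eq_true, Bool.and_eq_true, Bool.and_eq_true, decide_eq_true_eq,
      decide_eq_true_eq] at this
    exact this.1.1
  · have := s2 i hi
    simp only [Bool.and_eq_true, Bool.or_eq_true, decide_eq_true_eq, hr, Bool.not_true,
      Bool.false_eq_true, false_or] at this
    rcases this.1.2 with h1 | h1
    · exact Or.inl h1
    · exact Or.inr ⟨h1.1, by tauto⟩
  · have := s2 i hi
    rw [Bool.and_eq_true, allN_iff] at this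
    have := this.2 j hj
    rw [Bool.or_eq_true, Bool.or_eq_true, Bool.or_eq_true, Bool.or_eq_true, hr, hr',
      Bool.and_eq_true] at this
    rcases this with (((h3 | h3) | h3) | h3) | h3
    · exact absurd h3 (by simp)
    · exact absurd h3 (by simp)
    · exact Or.inl h3
    · exact Or.inr (Or.inl h3)
    · exact Or.inr (Or.inr h3)
  · rw [allN_iff] at kL
    have := kL a ha
    rw [allN_iff] at this
    have := this b hb
    simp only [Bool.or_eq_true, decide_eq_true_eq] at this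
    tauto
  · have c1 := q1 q hq
    simp only [Bool.or_eq_true, Bool.and_eq_true, decide_eq_true_eq, allN_iff] at c1
    rcases c1 with (((c1 | c1) | c1) | c1) | c1
    · exact Or.inl c1
    · exact Or.inr (Or.inl c1)
    · exact Or.inr (Or.inr (Or.inl c1))
    · exact Or.inr (Or.inr (Or.inr (Or.inl c1)))
    · right; right; right; right
      obtain ⟨⟨⟨⟨⟨⟨⟨⟨⟨⟨⟨⟨c0, c1⟩, c2⟩, c3⟩, c4⟩, c5⟩, c6⟩, c6a⟩, c6b⟩, c7⟩, c8⟩, c9⟩, c10⟩ := c1
      refine ⟨c0, c1, c2, c3, c4, c5, c6, c6a, c6b, c7, c8, c9, fun r hr hreal => ?_⟩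
      have := c10 r hr
      rw [hreal] at this
      simpa using this
  · have c2 := q2 i hi
    simp only [Bool.or_eq_true, Bool.and_eq_true, decide_eq_true_eq] at c2
    rcases c2 with c2 | c2
    · exact absurd ht c2
    · exact ⟨Or.inl c2.1, by tauto⟩
  · rw [Bool.or_eq_true, decide_eq_true_eq] at kR
    rcases kR with kR | kR
    · exact Or.inl (nall kR)
    · exact Or.inr kR
  · have := kK i hi
    rw [hκ i h0] at this
    simp only [Bool.not_true, Bool.false_or, Bool.and_eq_true, decide_eq_true_eq,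
      Bool.or_eq_true] at this
    obtain ⟨⟨⟨⟨⟨a1, a2⟩, a3⟩, a4⟩, a5⟩, a6⟩ := this
    exact ⟨a1, a2, a3, a4, a5, a6⟩
  · have := kLu i hi
    rw [hl i h0] at this
    simp only [Bool.not_true, Bool.false_or, Bool.and_eq_true, decide_eq_true_eq,
      Bool.not_eq_true'] at this
    obtain ⟨⟨⟨⟨a1, a2⟩, a3⟩, a4⟩, a5⟩ := this
    exact ⟨a1, a2, a3, a4, a5⟩

end Pool.FC7
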