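import Pool.Agent.FC7.RokG

/-! # Facts: additional units and labels -/

open Finset

set_option linter.unusedSectionVars false

namespace Pool.FC7

open Pool.FC6 Pool.FC6.St

section uP

variable (X : XE) (P P' : Pa) (κ : ℕ → ℕ)

theorem chn_kP : ∀ l, XD.chn (kP P κ) l = XD.chn P l
  | [] => rfl
  | [_] => rfl
  | a :: b :: l => by
    unfold XD.chn
    rw [chn_kP (b :: l)]
    rfl

theorem ck_kP {X : XE} {P P' : Pa} {κ κ' : ℕ → ℕ} (h : X.Ck P P') : X.Ck (kP P κ) (kP P' κ') := by
  have rg : X.ringOk P = true → X.ringOk (kP P κ) = true := by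
    intro h5
    unfold XE.ringOk at h5 ⊢
    rw [chn_kP]
    exact h5
  obtain ⟨h1, h2, h3, hk, h⟩ := h
  refine ⟨h1, h2, h3, hk, ?_⟩
  rcases h with ⟨F, L, h4⟩ | ⟨⟨E, G, L, h4⟩, h5⟩
  · exact Or.inl ⟨F, ⟨L.hw, L.hK, L.hF, L.hI, L.hO, L.hFK, L.hx, L.es, L.es', L.ars, L.al, L.ce,
      L.dj, L.djn, L.tj, L.hj, L.dj', L.djn', L.tj', L.hj', L.rq, L.st, L.st', L.kn, L.kd, L.tt, L.tt',
      L.hl, L.lr, rg L.ring, L.er, L.er'⟩, h4⟩
  · exact Or.inr ⟨⟨E, G, ⟨L.w, L.x, L.m, L.A, L.es, L.es', L.ars, L.y1, L.y2, L.y3, L.y4, L.y5, L.rq,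
      rg L.ring, L.er, L.er'⟩, h4⟩, h5⟩

theorem flips_kP {κ κ' : ℕ → ℕ} : ∀ (fl : List ℕ) (P : Pa),
    Pa.flips (kP P' κ') (kP P κ) fl = Pa.flips P' P fl
  | [], _ => rfl
  | a :: l, P => by
    show (_ && _) = (_ && _)
    exact congrArg₂ _ rfl (flips_kP l (P.fl a))

end uP

theorem sumN_mono {n : ℕ} {a b : ℕ → ℕ} (h : ∀ i < n, a i ≤ b i) : sumN n a ≤ sumN n b := by
  rw [sumN_eq, sumN_eq]
  exact Finset.sum_le_sum fun i hi => h i (Finset.mem_range.1 hi)

/-- sums over the additional units of the new patch -/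
theorem sum_kq {n : ℕ} {kp κ : ℕ → ℕ} (h : ∀ e < n, κ e ≠ 0 → kp e < n) (G : ℕ → ℕ) :
    ∑ j ∈ Finset.range n, kq n kp κ j * G j = ∑ e ∈ Finset.range n, κ e * G (kp e) := by
  have e1 : ∀ j, kq n kp κ j * G j = ∑ e ∈ Finset.range n, (if kp e = j then κ e else 0) * G j := by
    intro j
    unfold kq
    rw [sumN_eq, Finset.sum_mul]
  rw [Finset.sum_congr rfl fun j _ => e1 j, Finset.sum_comm]
  refine Finset.sum_congr rfl fun e he => ?_
  by_cases h0 : κ e = 0
  · rw [h0, Nat.zero_mul]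
    refine Finset.sum_eq_zero fun j _ => ?_
    split_ifs <;> simp
  · rw [Finset.sum_eq_single_of_mem (kp e) (Finset.mem_range.2 (h e (Finset.mem_range.1 he) h0))]
    · rw [if_pos rfl]
    · intro j _ hj
      rw [if_neg (fun h => hj h.symm), Nat.zero_mul]

theorem kq_ne {n : ℕ} {kp κ : ℕ → ℕ} {j : ℕ} (h : kq n kp κ j ≠ 0) :
    ∃ e < n, kp e = j ∧ κ e ≠ 0 := by
  by_contra hno
  push Not at hno
  apply h
  unfold kq
  rw [sumN_eq]
  refine Finset.sum_eq_zero fun e he => ?_
  by_cases h1 : kp e = j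
  · rw [if_pos h1]; exact hno e (Finset.mem_range.1 he) h1
  · rw [if_neg h1]

theorem le_kq {n : ℕ} {kp κ : ℕ → ℕ} {e : ℕ} (h : e < n) : κ e ≤ kq n kp κ (kp e) := by
  unfold kq
  rw [sumN_eq]
  have := Finset.single_le_sum (f := fun e' => if kp e' = kp e then κ e' else 0)
    (fun _ _ => Nat.zero_le _) (Finset.mem_range.2 h)
  simpa using this

theorem deg_aux (A B l : Prop) [Decidable A] [Decidable B] [Decidable l] (r u k w : ℕ) :
    (if A then r + (u + k) + (w + if l then 1 else 0) else 0) +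
      (if B then (w + if l then 1 else 0) else 0) =
    ((if A then r + u + w else 0) + (if B then w else 0)) + k * (if A then 1 else 0) +
      (if l then ((if A then 1 else 0) + if B then 1 else 0) else 0) := by
  by_cases hA : A <;> by_cases hB : B <;> by_cases hl : l <;>
    simp only [hA, hB, hl, if_true, if_false, Nat.mul_one, Nat.mul_zero] <;> omega

namespace Fc

variable {F : Fc} {Δ : ℕ} {κ : ℕ → ℕ} {l : ℕ → Bool}

theorem stat_kap (G : F.P.Good) (h : F.O.stat F.P F.P' = true) (hk : F.Kap κ l) :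
    (kO F.O l).stat (kP F.P κ) (kP F.P' (kq F.P.n F.kp κ)) = true := by
  have hst := h
  unfold OD.stat at h ⊢
  simp only [Bool.and_eq_true, allN_iff] at h ⊢
  -- labels of inner darts
  have lin : ∀ i < F.P.n, F.P.α i ≠ i → l i = false := by
    intro i hi hne
    by_contra hl
    exact hne (hk.l i hi (by simpa using hl)).1
  have lα : ∀ i < F.P.n, l (F.P.α i) = l i := by
    intro i hi
    by_cases ha : F.P.α i = i
    · rw [ha]
    · rw [lin i hi ha, lin _ (G.αlt i hi)]
      rw [G.αα i hi]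
      exact fun h => ha h.symm
  refine ⟨⟨⟨fun i hi => ?_, fun a ha => ?_⟩, h.1.2⟩, h.2⟩
  · obtain ⟨⟨⟨⟨⟨⟨⟨⟨⟨⟨h1, h2⟩, h3⟩, h4⟩, h5⟩, h6⟩, h7⟩, h8⟩, h9⟩, h10⟩, h11⟩ := h.1.1.1 i hi
    have s1 := OD.stat1 hst hi
    refine ⟨⟨⟨⟨⟨⟨⟨⟨⟨⟨h1, h2⟩, h3⟩, ?_⟩, ?_⟩, ?_⟩, ?_⟩, ?_⟩, ?_⟩, h10⟩, h11⟩
    · rw [Bool.or_eq_true, Bool.and_eq_true] at h4 ⊢
      rcases h4 with h4 | ⟨h4, h4'⟩
      · exact Or.inl h4
      · refine Or.inr ⟨h4, ?_⟩
        rw [Bool.or_eq_true, Bool.and_eq_true, beq_iff_eq, decide_eq_true_eq] at h4' ⊢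
        rcases h4' with h4' | ⟨h5', h6'⟩
        · exact Or.inl h4'
        · refine Or.inr ⟨?_, ?_⟩
          · show (F.O.lb' i || l i) = (F.O.lb i || l i)
            rw [h5']
          · show (F.O.wt' i + if l i = true then 1 else 0) = F.O.wt i + if l i = true then 1 else 0
            rw [h6']
    · rw [Bool.or_eq_true, Bool.and_eq_true, decide_eq_true_eq, decide_eq_true_eq,
        decide_eq_true_eq] at h5 ⊢
      show F.P'.u i + kq F.P.n F.kp κ i = 0 ∨ F.O.lo ≤ F.P'.l i ∧ F.P'.l i < F.O.m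
      by_cases h0 : kq F.P.n F.kp κ i = 0
      · rw [h0, Nat.add_zero]; exact h5
      · obtain ⟨e, he, hke, hκe⟩ := kq_ne h0
        subst hke
        obtain ⟨a1, a2, a3, a4, a5, -⟩ := hk.k e he hκe
        have l1 : F.O.lo ≤ F.O.x := by
          have := h.1.2
          simpa using this
        right
        rw [a3]
        omega
    · show (!(F.O.lb' i || l i) || F.P'.real i) = true
      by_cases hl : l i = true
      · obtain ⟨b1, b2, -⟩ := hk.l i hi hl
        rw [(s1.ring b1).1, b2, Bool.or_true]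
      · have hl : l i = false := by simpa using hl
        rw [hl, Bool.or_false]; exact h6
    · show ((F.O.lb' (F.P.α i) || l (F.P.α i)) == (F.O.lb' i || l i)) = true
      rw [lα i hi, s1.lα]
      simp
    · rw [decide_eq_true_eq]
      show (F.O.wt' (F.P.α i) + if l (F.P.α i) = true then 1 else 0) =
        F.O.wt' i + if l i = true then 1 else 0
      rw [lα i hi, s1.wα]
    · show (decide ((F.O.wt' i + if l i = true then 1 else 0) = 0) || (F.O.lb' i || l i)) = true
      cases hl : l i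
      · simpa using h9
      · simp
  · have h5 := h.1.1.2 a ha
    simp only [Bool.or_eq_true, Bool.and_eq_true, decide_eq_true_eq] at h5 ⊢
    rcases h5 with h5 | ⟨h5, h6⟩
    · exact Or.inl h5
    · refine Or.inr ⟨h5, ?_⟩
      -- the degrees
      have e1 : (kO F.O l).dg' (kP F.P κ) (kP F.P' (kq F.P.n F.kp κ)) a = F.O.dg' F.P F.P' a +
          (∑ i ∈ Finset.range F.P.n, kq F.P.n F.kp κ i * (if F.P'.l i = a then 1 else 0)) +
          ∑ i ∈ Finset.range F.P.n, (if l i = true then ((if F.P'.l i = a then 1 else 0) +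
            if F.O.rg F.P i && decide (F.P'.l (F.P'.φ i) = a) then 1 else 0) else 0) := by
        unfold OD.dg'
        rw [sumN_eq, sumN_eq, ← Finset.sum_add_distrib, ← Finset.sum_add_distrib]
        refine Finset.sum_congr rfl fun i _ => ?_
        show (if F.P'.l i = a then (if F.P'.real i then 1 else 0) +
            (F.P'.u i + kq F.P.n F.kp κ i) + (F.O.wt' i + if l i = true then 1 else 0)
          else 0) + (if F.O.rg F.P i && decide (F.P'.l (F.P'.φ i) = a) then
            (F.O.wt' i + if l i = true then 1 else 0) else 0) = _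
        exact deg_aux _ _ _ _ _ _ _
      have e2 : (kO F.O l).dg (kP F.P κ) a = F.O.dg F.P a +
          (∑ i ∈ Finset.range F.P.n, κ i * (if F.P.l i = a then 1 else 0)) +
          ∑ i ∈ Finset.range F.P.n, (if l i = true then ((if F.P.l i = a then 1 else 0) +
            if F.O.rg F.P i && decide (F.P.l (F.P.φ i) = a) then 1 else 0) else 0) := by
        unfold OD.dg
        rw [sumN_eq, sumN_eq, ← Finset.sum_add_distrib, ← Finset.sum_add_distrib]
        refine Finset.sum_congr rfl fun i _ => ?_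
        show (if F.P.l i = a then (if F.P.real i then 1 else 0) +
            (F.P.u i + κ i) + (F.O.wt i + if l i = true then 1 else 0)
          else 0) + (if F.O.rg F.P i && decide (F.P.l (F.P.φ i) = a) then
            (F.O.wt i + if l i = true then 1 else 0) else 0) = _
        exact deg_aux _ _ _ _ _ _ _
      have e3 : (∑ i ∈ Finset.range F.P.n, kq F.P.n F.kp κ i * (if F.P'.l i = a then 1 else 0)) =
          ∑ i ∈ Finset.range F.P.n, κ i * (if F.P'.l (F.kp i) = a then 1 else 0) :=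
        sum_kq (fun e he h0 => (hk.k e he h0).1) _
      show (kO F.O l).dg' (kP F.P κ) (kP F.P' (kq F.P.n F.kp κ)) a ≤
        if a < F.O.x then F.O.Δ else (kO F.O l).dg (kP F.P κ) a + F.O.sl a
      rw [e1, e2, e3]
      by_cases hax : a < F.O.x
      · rw [if_pos hax] at h6 ⊢
        have e4 : (∑ i ∈ Finset.range F.P.n, κ i * (if F.P'.l (F.kp i) = a then 1 else 0)) = 0 := by
          refine Finset.sum_eq_zero fun i hi => ?_
          by_cases h0 : κ i = 0
          · rw [h0]; simp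
          · obtain ⟨a1, a2, a3, a4, -⟩ := hk.k i (Finset.mem_range.1 hi) h0
            rw [if_neg (by omega), Nat.mul_zero]
        have e5 : (∑ i ∈ Finset.range F.P.n, (if l i = true then ((if F.P'.l i = a then 1 else 0) +
            if F.O.rg F.P i && decide (F.P'.l (F.P'.φ i) = a) then 1 else 0) else 0)) = 0 := by
          refine Finset.sum_eq_zero fun i hi => ?_
          by_cases h0 : l i = true
          · obtain ⟨b1, b2, -⟩ := hk.l i (Finset.mem_range.1 hi) h0
            obtain ⟨c1, c2, c3, c4, c5⟩ := (OD.stat1 hst (Finset.mem_range.1 hi)).ring b1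
            have hh : ¬ (F.O.rg F.P i && decide (F.P'.l (F.P'.φ i) = a)) = true := by
              rw [c3]
              simp only [Bool.and_eq_true, decide_eq_true_eq, not_and]
              intro _
              omega
            have hg : ¬ F.P'.l i = a := by omega
            rw [if_pos h0, if_neg hg, if_neg hh, Nat.add_zero]
          · rw [if_neg h0]
        rw [e4, e5]
        simpa using h6
      · rw [if_neg hax] at h6 ⊢
        have e4 : (∑ i ∈ Finset.range F.P.n, κ i * (if F.P'.l (F.kp i) = a then 1 else 0)) =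
            ∑ i ∈ Finset.range F.P.n, κ i * (if F.P.l i = a then 1 else 0) := by
          refine Finset.sum_congr rfl fun i hi => ?_
          by_cases h0 : κ i = 0
          · rw [h0, Nat.zero_mul, Nat.zero_mul]
          · rw [(hk.k i (Finset.mem_range.1 hi) h0).2.2.1]
        have e5 : (∑ i ∈ Finset.range F.P.n, (if l i = true then ((if F.P'.l i = a then 1 else 0) +
            if F.O.rg F.P i && decide (F.P'.l (F.P'.φ i) = a) then 1 else 0) else 0)) =
            ∑ i ∈ Finset.range F.P.n, (if l i = true then ((if F.P.l i = a then 1 else 0) +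
            if F.O.rg F.P i && decide (F.P.l (F.P.φ i) = a) then 1 else 0) else 0) := by
          refine Finset.sum_congr rfl fun i hi => ?_
          by_cases h0 : l i = true
          · obtain ⟨b1, b2, -⟩ := hk.l i (Finset.mem_range.1 hi) h0
            obtain ⟨c1, c2, c3, c4, c5⟩ := (OD.stat1 hst (Finset.mem_range.1 hi)).ring b1
            rw [c2, c3]
          · rw [if_neg h0, if_neg h0]
        rw [e4, e5]
        omega

theorem cuts_kap (h : F.O.Cuts F.P F.P' F.bg (fun c => F.O.rr F.P c + F.O.wr F.P c)) :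
    (kO F.O l).Cuts (kP F.P κ) (kP F.P' (kq F.P.n F.kp κ)) F.bg
      (fun c => (kO F.O l).rr (kP F.P κ) c + (kO F.O l).wr (kP F.P κ) c) := by
  intro r hr hr0 q hq τ
  have h1 := h r hr hr0 q hq τ
  have mono : ∀ c, F.O.inS' F.P F.P' c τ ≤
      (kO F.O l).inS' (kP F.P κ) (kP F.P' (kq F.P.n F.kp κ)) c τ := by
    intro c
    unfold OD.inS'
    refine Finset.sum_le_sum fun i _ => ?_
    refine Nat.add_le_add ?_ (Nat.mul_le_mul_left _ ?_)
    · show (if (F.P'.real i && OD.crs F.P' c i) = true then 1 + F.O.wt' i else 0) ≤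
        if (F.P'.real i && OD.crs F.P' c i) = true then
          1 + (F.O.wt' i + if l i = true then 1 else 0) else 0
      split_ifs <;> omega
    · show (if c.testBit (F.P'.l i) != τ (F.O.pc i) then F.P'.u i else 0) ≤
        if c.testBit (F.P'.l i) != τ (F.O.pc i) then F.P'.u i + kq F.P.n F.kp κ i else 0
      split_ifs <;> omega
  have m1 := mono (2 ^ F.O.lo * (2 ^ (F.O.x - F.O.lo) * r + q))
  have m2 : ∀ c, F.O.wr F.P c ≤ (kO F.O l).wr (kP F.P κ) c := by
    intro c
    unfold OD.wr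
    refine sumN_mono fun i _ => ?_
    show (if (F.O.rg F.P i && F.P.real i && OD.crs F.P c i) = true then F.O.wt' i else 0) ≤
      if (F.O.rg F.P i && F.P.real i && OD.crs F.P c i) = true then
        F.O.wt' i + (if l i = true then 1 else 0) else 0
    split_ifs <;> omega
  have m2 := m2 (2 ^ F.O.lo * (2 ^ (F.O.x - F.O.lo) * r + q))
  rcases h1 with h1 | ⟨⟨ξ, hξ, h1⟩, h2⟩
  · left
    exact le_trans h1 (Nat.add_le_add m1 (Nat.add_le_add (le_refl _) m2))
  · right
    refine ⟨⟨ξ, hξ, ?_⟩, h2⟩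
    exact le_trans h1 (Nat.add_le_add_left m1 _)

theorem dj_kap (hst : F.O.stat F.P F.P' = true) (hk : F.Kap κ l)
    (h : djs F.XX F.O F.P F.P' (List.range F.O.x) F.ou F.lu = true) :
    djs F.XX (kO F.O l) (kP F.P κ) (kP F.P' (kq F.P.n F.kp κ)) (List.range F.O.x) F.ou F.lu =
      true := by
  unfold djs at h ⊢
  simp only [Bool.and_eq_true, List.all_eq_true, allN_iff] at h ⊢
  obtain ⟨⟨⟨⟨⟨d1, d2⟩, d3⟩, d4⟩, d5⟩, d6⟩ := h
  refine ⟨⟨⟨⟨⟨fun m hm => ?_, fun i hi => ?_⟩, d3⟩, d4⟩, fun i hi => ?_⟩, fun q hq => ?_⟩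
  · have h1 := d1 m hm
    rw [Bool.or_eq_true, Bool.or_eq_true] at h1 ⊢
    rcases h1 with (h1 | h1) | h1
    · left; left
      obtain ⟨i, hi, h2⟩ := nall h1
      rw [Bool.not_eq_true', Bool.eq_false_iff]
      intro h3
      rw [allN_iff] at h3
      have := h3 i hi
      rw [Bool.not_eq_true', Bool.eq_false_iff] at this
      apply this
      rw [Bool.and_eq_true, Bool.or_eq_true, decide_eq_true_eq] at h2 ⊢
      refine ⟨?_, h2.2⟩
      rcases h2.1 with h4 | h4
      · left
        show F.P'.u i + kq F.P.n F.kp κ i ≠ 0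
        omega
      · exact Or.inr h4
    · left; right
      obtain ⟨i, hi, h2⟩ := nall h1
      rw [Bool.not_eq_true', Bool.eq_false_iff]
      intro h3
      rw [allN_iff] at h3
      have := h3 i hi
      rw [Bool.not_eq_true', Bool.eq_false_iff] at this
      apply this
      rw [Bool.and_eq_true, Bool.and_eq_true, Bool.and_eq_true] at h2 ⊢
      refine ⟨⟨⟨?_, h2.1.1.2⟩, h2.1.2⟩, h2.2⟩
      show (F.O.lb' i || l i) = true
      rw [h2.1.1.1]; rfl
    · exact Or.inr h1
  · have h1 := d2 i hi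
    by_cases hl : l i = true
    · have h2 := (hk.l i hi hl).1
      show (decide (F.P.α i = i) || !(F.O.lb i || l i) || _) = true
      rw [decide_eq_true h2]; rfl
    · have hl : l i = false := by simpa using hl
      show (decide (F.P.α i = i) || !(F.O.lb i || l i) || _) = true
      rw [hl, Bool.or_false]
      exact h1
  · have h1 := d5 i hi
    show (!(F.O.lb i || l i) || F.lu i || (F.O.rg F.P i && ((F.XX.lr.any fun q =>
      decide (q.1 = i) && q.2.1) || ((F.O.lb' i || l i) && F.XX.kd.contains i)))) = true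
    by_cases hl : l i = true
    · rw [hk.lu i hl]; simp
    · have hl : l i = false := by simpa using hl
      rw [hl, Bool.or_false, Bool.or_false]
      exact h1
  · have h1 := d6 q hq
    rw [Bool.or_eq_true, Bool.and_eq_true] at h1 ⊢
    rcases h1 with h1 | ⟨h1, h2⟩
    · exact Or.inl h1
    · refine Or.inr ⟨h1, ?_⟩
      show (F.O.lb' q.1 || l q.1) = true
      rw [h2]; rfl

theorem kap_O : (F.kap κ l).O = kO F.O l := rfl
theorem kap_P : (F.kap κ l).P = kP F.P κ := rfl
theorem kap_P' : (F.kap κ l).P' = kP F.P' (kq F.P.n F.kp κ) := rfl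
theorem gnum_kP (P : Pa) (κ : ℕ → ℕ) (c : ℕ) (T : List (ℕ × ℕ × ℕ)) :
    gnum (kP P κ) c T = gnum P c T := by
  induction T with
  | nil => rfl
  | cons p T ih => rw [gnum, gnum, ih]; rfl

theorem gnum1_kP (P : Pa) (κ : ℕ → ℕ) (c : ℕ) (T : List (ℕ × ℕ × ℕ)) :
    gnum1 (kP P κ) c T = gnum1 P c T := by
  induction T with
  | nil => rfl
  | cons p T ih => rw [gnum1, gnum1, ih]; rfl

theorem gmsk_kP (P : Pa) (κ : ℕ → ℕ) (c : ℕ) (T : List (ℕ × ℕ × ℕ)) :
    gmsk (kP P κ) c T = gmsk P c T := by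
  induction T with
  | nil => rfl
  | cons p T ih => rw [gmsk, gmsk, ih]; rfl

theorem gbn_kP (P : Pa) (κ : ℕ → ℕ) (l : ℕ → Bool) (O : OD) (c : ℕ) (T : List (ℕ × ℕ × ℕ)) :
    gbn (kP P κ) (kO O l) T c = gbn P O T c := by
  have h : gbon (kP P κ) c T = gbon P c T := by
    unfold gbon
    rw [gnum_kP, gnum1_kP, gmsk_kP]
    rfl
  unfold gbn
  rw [h]
  rfl

theorem kap_bg : (F.kap κ l).bg = F.bg := by
  funext c
  have h : (F.kap κ l).gb c = F.gb c := gbn_kP F.P κ l F.O c F.gt
  show max (F.bf c) ((FC6.OD.inS F.P c + (F.kap κ l).gb c + 1) / 2) = F.bg c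
  rw [h]
  rfl
theorem kap_fl : (F.kap κ l).fl = F.fl := rfl
theorem kap_XX : (F.kap κ l).XX = F.XX := rfl
theorem kap_ou : (F.kap κ l).ou = F.ou := rfl
theorem kap_lu : (F.kap κ l).lu = F.lu := rfl

/-- the static conditions with additional units -/
theorem Chk.kap (h : F.Chk Δ) (hk : F.Kap κ l) : (F.kap κ l).Chk Δ where
  g := h.g
  g' := h.g'
  fl := by
    rw [kap_P, kap_P', kap_fl, flips_kP]
    exact h.fl
  X := by
    rw [kap_P, kap_P', kap_XX]
    exact ck_kP h.X
  st := by
    rw [kap_P, kap_P', kap_O]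
    exact stat_kap (Pa.good_iff.1 h.g) h.st hk
  cu := by
    rw [kap_O, kap_P, kap_P', kap_bg]
    exact cuts_kap h.cu
  dj := by
    rw [kap_P, kap_P', kap_XX, kap_O, kap_ou, kap_lu]
    exact dj_kap h.st hk h.dj
  c1 := h.c1
  c2 := h.c2
  c3 := h.c3
  c4 := h.c4
  c5 := h.c5
  s1 := h.s1
  s2 := h.s2
  s3 := h.s3
  s4 := h.s4
  sl := h.sl
  q1 q hq := by
    rcases h.q1 q hq with h1 | h1 | h1 | h1 | h1
    · left
      refine ⟨h1.1, le_trans h1.2 ?_⟩
      unfold pu
      refine sumN_mono fun j _ => ?_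
      show (if F.O.pc j = q then F.P'.u j else 0) ≤
        if F.O.pc j = q then F.P'.u j + kq F.P.n F.kp κ j else 0
      split_ifs <;> omega
    · exact Or.inr (Or.inl h1)
    · exact Or.inr (Or.inr (Or.inl h1))
    · exact Or.inr (Or.inr (Or.inr (Or.inl h1)))
    · right; right; right; right
      obtain ⟨c0, c1, c2, c3, c4, c5, c6, c7⟩ := h1
      refine ⟨c0, c1, c2, c3, c4, ?_, ?_, c7⟩
      · show F.P'.u (F.tj q) + kq F.P.n F.kp κ (F.tj q) ≠ 0
        omega
      · show F.P'.u (F.tk q) + kq F.P.n F.kp κ (F.tk q) ≠ 0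
        omega
  q2 i hi ht := by
    have h1 := h.q2 i hi ht
    refine ⟨?_, h1.2⟩
    show F.P'.u i + kq F.P.n F.kp κ i = 0 ∨ ∃ e < F.P.n, F.uk e = true ∧ F.P.u e + κ e ≠ 0 ∧
      F.kr e < F.P.n ∧ F.oz (F.kr e) = true ∧ F.O.pc (F.kr e) = F.O.pc i
    by_cases h0 : kq F.P.n F.kp κ i = 0
    · rw [h0, Nat.add_zero]
      rcases h1.1 with h2 | ⟨e, h2, h3, h4, h5⟩
      · exact Or.inl h2
      · exact Or.inr ⟨e, h2, h3, fun h => h4 (Nat.eq_zero_of_add_eq_zero_right h), h5⟩
    · obtain ⟨e, he, hke, h2⟩ := kq_ne h0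
      subst hke
      obtain ⟨a1, a2, a3, a4, a5, a6⟩ := hk.k e he h2
      rcases a6 with a6 | ⟨a6, a7⟩
      · exact absurd ht a6
      · exact Or.inr ⟨e, he, hk.uk e h2, fun h => h2 (Nat.eq_zero_of_add_eq_zero_left h),
          a2, a6, a7⟩
  r := h.r
  w i hi := by
    show (F.O.wt' i + if l i = true then 1 else 0) = if (F.O.lb' i || l i) = true then 1 else 0
    have h1 := h.w i hi
    by_cases hl : l i = true
    · obtain ⟨-, -, -, h2, -⟩ := hk.l i hi hl
      rw [h1, h2, hl]
      simp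
    · have hl : l i = false := by simpa using hl
      rw [hl, h1]
      simp

end Fc

end Pool.FC7
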