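import Pool.Agent.FC7.RokI
import Pool.Agent.FC7.MM

/-! # Facts: the theorems -/

open Finset

set_option linter.unusedSectionVars false

namespace Pool.FC7

open Pool.FC6 Pool.FC6.St

variable {D V : Type} [Fintype D] [DecidableEq V]

/-- the configuration occurs in the state -/
structure Emb (F : Fc) (Δ : ℕ) (S : St D V) (L : D → Bool) (w : D → ℕ) (f : ℕ → D) (g : ℕ → V) :
    Prop where
  e : Em F.P S f g
  hstar : ∀ a < F.O.x, ∀ d, S.M.v d = g a → ∃ i < F.P.n, f i = d
  hA : ∀ a < F.O.m, g a ∈ S.A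
  r4 : ∀ a < F.O.m, 4 ≤ S.rdeg (g a)
  nf : ∀ a < F.O.m, ∀ b, F.O.m ≤ b → b < F.nl → g a ≠ g b
  fA : ∀ b, F.O.m ≤ b → b < F.nl → g b ∈ S.A → ∃ d, (∀ i < F.P.n, f i ≠ d) ∧ S.M.v d = g b
  ne : ∀ a < F.O.m, ∀ b < F.O.m, F.ne a b = true → g a ≠ g b
  na : ∀ a < F.O.m, ∀ b < F.O.m, F.na a b = true → ∀ r, (∀ i < F.P.n, f i ≠ r) →
    S.real r = true → ¬ (S.M.v r = g a ∧ S.M.v (S.M.α r) = g b)
  hu : ∀ i < F.P.n, S.u (f i) = F.P.u i
  hL : ∀ i < F.P.n, L (f i) = F.O.lb i
  hw : ∀ i < F.P.n, w (f i) = F.O.wt i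
  hro : ∀ i < F.P.n, F.O.rg F.P i = true → ∀ j < F.P.n, f j ≠ S.M.α (f i)
  hB : ∀ (s : V → Bool) (c : ℕ), (∀ a < F.O.m, c.testBit a = s (g a)) →
      (∃ y ∈ S.A, s y = true) → (∃ y ∈ S.A, s y = false) → F.bg c ≤ S.rc s
  sl : ∀ a, F.O.x ≤ a → a < F.O.m → (∑ d, if S.M.v d = g a then
    (if S.real d = true then 1 else 0) + S.u d + w d else 0) + F.O.sl a ≤ Δ
  op : ∀ i < F.P.n, F.op i = true → ∀ d, S.sc.r (f i) d → S.u d = 0
  tw : ∀ i < F.P.n, F.tw i = true → fu S (f i) ≤ 2
  sp : ∀ c' : V → Bool, ∀ p ∈ F.X.ar, F.X.sp p.1 = true →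
    c' (g (F.P.l p.1)) ≠ c' (g (F.P.l (F.P.φ p.2))) →
      Act S F.P f c' (f p.1) ∨ Act S F.P f c' (f p.2)
  ou : ∀ (S' : St D V) (L' : D → Bool) (w' : D → ℕ), RH Δ S S' L L' w w' F.P F.P' f g F.O →
      ∀ i < F.P.n, F.ou i = true → ∃ d, S'.sc.r (f i) d ∧ S'.u d ≠ 0
  cv : ∀ (S' : St D V) (L' : D → Bool) (w' : D → ℕ), RH Δ S S' L L' w w' F.P F.P' f g F.O →
      ∀ i < F.P.n, S.u (f i) ≠ 0 →
        (∃ k < F.P.n, S.sc.r (f i) (f k) ∧ ∃ z ∈ F.X.dj, Cell F.P F.X z k) ∨
        (∃ j < F.P.n, F.P.α j = j ∧ F.P.real j = false ∧ S.sc.r (f i) (f j) ∧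
          ∃ d, S'.sc.r (f j) d ∧ S'.u d ≠ 0) ∨
        ∃ j ∈ F.X.kd, S.sc.r (f i) (f j) ∧ ∃ d, S'.sc.r (f j) d ∧ S'.u d ≠ 0
  oz : ∀ (S' : St D V) (L' : D → Bool) (w' : D → ℕ), RH Δ S S' L L' w w' F.P F.P' f g F.O →
      ∀ i < F.P.n, F.oz i = true → 3 ≤ fu S' (f i) ∨ (Two S' (f i) ∧ fu S (f i) ≤ 2) ∨
        ∀ d, S.sc.r (f i) d → S.u d = 0
  kr : ∀ e < F.P.n, F.uk e = true → S.sc.r (f e) (f (F.kr e))
  hlu : ∀ i ∈ F.X.rs, F.lu i = true → L (f i) = true → i ∈ F.X.kd ∧ F.O.lb' i = true ∧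
      (OU F.P f (S.M.α (f i)) ∨ ∃ j ∈ F.X.kd, f j = S.M.α (f i))
  t3 : ∀ (S' : St D V) (L' : D → Bool) (w' : D → ℕ), RH Δ S S' L L' w w' F.P F.P' f g F.O →
      ∀ i < F.P.n, F.ty (F.O.pc i) = 3 → 3 ≤ fu S' (f i)
  t4 : ∀ (S' : St D V) (L' : D → Bool) (w' : D → ℕ), RH Δ S S' L L' w w' F.P F.P' f g F.O →
      ∀ i < F.P.n, F.ty (F.O.pc i) = 4 → 3 ≤ fu S' (f i) ∨ Two S' (f i)

variable {F : Fc} {Δ : ℕ} {S : St D V} {L : D → Bool} {w : D → ℕ} {f : ℕ → D} {g : ℕ → V}

/-- pieces with at least three units -/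
theorem Fc.Chk.ty0 (C : F.Chk Δ) (E : Emb F Δ S L w f g) {S' : St D V} {L' : D → Bool} {w' : D → ℕ}
    (R : RH Δ S S' L L' w w' F.P F.P' f g F.O) {i : ℕ} (hi : i < F.P.n)
    (ht : F.ty (F.O.pc i) = 0 ∨ F.ty (F.O.pc i) = 3) : 3 ≤ fu S' (f i) := by
  rcases ht with ht | ht
  · have h3 : 3 ≤ F.pu (F.O.pc i) := by
      rcases C.q1 _ (OD.stat1 C.st hi).pc with h1 | h1 | h1 | h1 | h1
      · exact h1.2
      · omega
      · omega
      · omega
      · omega
    refine le_trans h3 (le_trans (le_of_eq ?_) (R.fu_piece hi))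
    unfold Fc.pu
    rw [sumN_eq]
  · exact E.t3 S' L' w' R i hi ht

/-- the replaced state belongs to the class and has no solution -/
theorem Fc.Chk.step (C : F.Chk Δ) (ok : Ok Δ S L w) (w1 : W1 L w) (no : ¬ ∃ c, Sol S L c)
    (hnr : 20 ≤ nr S) (E : Emb F Δ S L w f g) :
    ∃ (S' : St D V) (L' : D → Bool) (w' : D → ℕ), RH Δ S S' L L' w w' F.P F.P' f g F.O ∧
      W1 L' w' ∧ Ok Δ S' L' w' ∧ ¬ ∃ c, Sol S' L' c := by
  classical
  have W := ok.toWf
  have G := Pa.good_iff.1 C.g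
  have G' := Pa.good_iff.1 C.g'
  obtain ⟨S0, hR0, _⟩ := exists_rep E.e G G' C.fl ∅
  have hn := hR0.hn
  have φlt' : ∀ i < F.P.n, F.P'.φ i < F.P.n := by
    intro i hi
    have := G'.φlt i (by rw [hn]; exact hi)
    rwa [hn] at this
  have hxm := C.c5
  have nex : ∀ a < F.O.x, ∀ b < F.O.m, a ≠ b → g a ≠ g b ∧ g b ≠ g a := by
    intro a ha b hb hab
    obtain ⟨h1, h2⟩ := C.s1 a ha b hb hab
    exact ⟨E.ne a (by omega) b hb h1, E.ne b hb a (by omega) h2⟩
  have nexf : ∀ a < F.O.x, ∀ b < F.nl, a ≠ b → g a ≠ g b ∧ g b ≠ g a := by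
    intro a ha b hb hab
    by_cases hm : b < F.O.m
    · exact nex a ha b hm hab
    · have := E.nf a (by omega) b (by omega) hb
      exact ⟨this, this.symm⟩
  have rl' : ∀ i < F.P.n, F.P'.real i = true → F.P'.l i < F.O.m ∧ F.P'.l (F.P'.φ i) < F.O.m := by
    intro i hi hr
    have := (OD.stat1 C.st hi).r' hr
    exact ⟨this.2.1, this.2.2.2⟩
  have unS : ∀ i < F.P.n, F.un i = true → S.real (f i) = true ∧ S.M.v (f i) = g (F.P'.l i) ∧
      S.M.v (S.M.α (f i)) = g (F.P'.l (F.P'.φ i)) := by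
    intro i hi hu
    unfold Fc.un at hu
    rw [Bool.and_eq_true, Bool.and_eq_true, decide_eq_true_eq, decide_eq_true_eq] at hu
    refine ⟨by rw [E.e.hr i hi]; exact hu.1.1, by rw [E.e.hl i hi, hu.1.2], ?_⟩
    rw [← S.M.vφ, E.e.hφ i hi, E.e.hl _ (G.φlt i hi), hu.2]
  -- new edges
  have hne : ∀ i < F.P.n, F.P'.real i = true → g (F.P'.l i) ≠ g (F.P'.l (F.P'.φ i)) := by
    intro i hi hr
    rcases C.s3 i hi hr with h1 | ⟨h1, _⟩
    · obtain ⟨a1, a2, a3⟩ := unS i hi h1
      rw [← a2, ← a3]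
      exact W.real_ne _ a1
    · exact E.ne _ (rl' i hi hr).1 _ (rl' i hi hr).2 h1
  have hso : ∀ i < F.P.n, F.P'.real i = true → ∀ e, (∀ j < F.P.n, f j ≠ e) → S.real e = true →
      S.M.v e = g (F.P'.l i) → S.M.v (S.M.α e) = g (F.P'.l (F.P'.φ i)) → False := by
    intro i hi hr e he hre h1 h2
    rcases C.s3 i hi hr with h3 | ⟨_, h3 | h3 | h3⟩
    · obtain ⟨a1, a2, a3⟩ := unS i hi h3
      exact he i hi (W.simple _ _ a1 hre (a2.trans h1.symm) (a3.trans h2.symm))
    · exact E.na _ (rl' i hi hr).1 _ (rl' i hi hr).2 h3 e he hre ⟨h1, h2⟩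
    · obtain ⟨j, hj, hj'⟩ := E.hstar _ h3 e h1
      exact he j hj hj'
    · obtain ⟨j, hj, hj'⟩ := E.hstar _ h3 _ h2
      have ha : F.P.α j = j := by
        by_contra hcon
        have h4 := E.e.hα j hj hcon
        rw [hj', S.M.αα] at h4
        exact he _ (G.αlt j hj) h4.symm
      have r1 := (OD.stat1 C.st hj).ring ha
      have h4 : g (F.P.l j) = g (F.P'.l (F.P'.φ i)) := by
        rw [← E.e.hl j hj, hj']; exact h2
      exact (nexf _ h3 _ (C.s2 j hj).1 (by omega)).2 h4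
  have hsi : ∀ i < F.P.n, ∀ j < F.P.n, F.P'.real i = true → F.P'.real j = true →
      g (F.P'.l i) = g (F.P'.l j) → g (F.P'.l (F.P'.φ i)) = g (F.P'.l (F.P'.φ j)) → i = j := by
    have key : ∀ i < F.P.n, ∀ j < i, F.P'.real i = true → F.P'.real j = true →
        g (F.P'.l i) = g (F.P'.l j) → g (F.P'.l (F.P'.φ i)) = g (F.P'.l (F.P'.φ j)) → False := by
      intro i hi j hji hr hr' h1 h2
      have hj : j < F.P.n := by omega
      rcases C.s4 i hi j hji hr hr' with h3 | h3 | ⟨h3, h4⟩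
      · exact E.ne _ (rl' i hi hr).1 _ (rl' j hj hr').1 h3 h1
      · exact E.ne _ (rl' i hi hr).2 _ (rl' j hj hr').2 h3 h2
      · obtain ⟨a1, a2, a3⟩ := unS i hi h3
        obtain ⟨b1, b2, b3⟩ := unS j hj h4
        have h5 := W.simple _ _ a1 b1 (by rw [a2, b2, h1]) (by rw [a3, b3, h2])
        have := E.e.inj i hi j hj h5
        omega
    intro i hi j hj hr hr' h1 h2
    rcases lt_trichotomy i j with h3 | h3 | h3
    · exact absurd (key j hj i h3 hr' hr h1.symm h2.symm) (by simp)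
    · exact h3
    · exact absurd (key i hi j h3 hr hr' h1 h2) (by simp)
  -- a real edge remains
  have hex : (∃ i < F.P.n, F.P'.real i = true) ∨
      ∃ d, (∀ i < F.P.n, f i ≠ d) ∧ S.real d = true := by
    rcases C.r with kR | kR
    · exact Or.inl kR
    · right
      by_contra hcon
      push Not at hcon
      have h2 : nr S ≤ sumN F.P.n (fun i => if F.P.real i then 1 else 0) := by
        unfold nr
        rw [sumN_eq, FC6.RH.split E.e.inj, Finset.sum_eq_zero, zero_add]
        · refine Finset.sum_le_sum fun i hi => ?_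
          rw [E.e.hr i (Finset.mem_range.1 hi)]
        · intro d _
          by_cases hd : ∃ i < F.P.n, f i = d
          · rw [if_pos hd]
          · rw [if_neg hd]
            push Not at hd
            rw [if_neg (hcon d hd)]
      omega
  have hrr : ∀ (s : V → Bool) (c : ℕ),
      (∀ a, F.O.x ≤ a → a < F.O.m → c.testBit a = s (g a)) → F.O.rr F.P c ≤ oc S F.P f s := by
    refine oc_rr W.real_α E.e G E.hro fun i hi ha hr => ?_
    have s1 := OD.stat1 C.st hi
    have r1 := s1.ring ha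
    exact ⟨r1.2.2.2.1, (s1.r hr).1, r1.2.2.2.2, (s1.r hr).2⟩
  have hsl : ∀ y ∈ S.A, (∑ d, if S.M.v d = y then (if S.real d = true then 1 else 0) + S.u d + w d
      else 0) + ∑ a ∈ (Finset.range F.O.m).filter (fun a => F.O.x ≤ a ∧ g a = y), F.O.sl a ≤ Δ := by
    intro y hy
    by_cases hc : ∃ a < F.O.m, F.O.x ≤ a ∧ g a = y ∧ F.O.sl a ≠ 0
    · obtain ⟨a, ha, hxa, rfl, ha0⟩ := hc
      have e1 : ∑ b ∈ (Finset.range F.O.m).filter (fun b => F.O.x ≤ b ∧ g b = g a), F.O.sl b =
          F.O.sl a := by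
        refine Finset.sum_eq_single_of_mem a (Finset.mem_filter.2 ⟨Finset.mem_range.2 ha, hxa, rfl⟩)
          fun b hb hba => ?_
        rw [Finset.mem_filter, Finset.mem_range] at hb
        rcases C.sl b hb.1 a ha with h1 | h1 | h1 | h1
        · exact h1
        · exact absurd h1 ha0
        · exact absurd h1 hba
        · exact absurd hb.2.2 (E.ne b hb.1 a ha h1)
      rw [e1]
      exact E.sl a hxa ha
    · push Not at hc
      rw [Finset.sum_eq_zero (s := (Finset.range F.O.m).filter _), Nat.add_zero]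
      · exact W.deg y hy
      · intro b hb
        rw [Finset.mem_filter, Finset.mem_range] at hb
        exact hc b hb.1 hb.2.1 hb.2.2
  refine red ok w1 no E.e C.g C.g' C.fl F.XX C.X F.O C.st C.cu C.dj E.hlu C.c1 C.c2 C.c3 C.c4
    (fun m hm => ?_) C.c5 E.hstar (fun a _ ha => E.hA a ha)
    (fun i hi hl hA => E.fA _ hl (C.s2 i hi).1 hA) (fun i hi hl hA => E.fA _ hl (C.s2 i hi).2 hA)
    (fun i hi hl a ha => E.nf a ha _ hl (C.s2 i hi).2)
    (fun a ha b hb hb' => (nex a ha b hb' (by omega)).2)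
    (fun a ha i hi hl => (nexf a ha _ (C.s2 i hi).1 (Ne.symm hl)).2) (fun a ha b hb hab => ?_)
    (fun a ha => ?_) E.hu E.hL E.hw C.w E.hro hsl hne hsi hso hex
    E.hB hrr E.sp E.cv E.ou (fun S' L' w' R i hi => ?_)
  · show (!m.testBit F.O.x) = true
    rw [hm]; rfl
  · by_contra hcon
    exact (nex a ha b (by omega) hcon).1 hab
  · rw [List.mem_range]
    exact ⟨fun _ => ha, fun _ => E.hA a (by omega)⟩
  · -- the thresholds
    have s1i := OD.stat1 C.st hi
    rcases C.q1 _ s1i.pc with c1 | c1 | c1 | c1 | c1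
    · exact Or.inl (C.ty0 E R hi (Or.inl c1.1))
    · have c2 := C.q2 i hi c1
      rcases c2.1 with c3 | ⟨e, e1, e2, e3, e4, e5, e6⟩
      · by_cases hz : F.oz i = true
        · rcases E.oz S' L' w' R i hi hz with h1 | h1 | h1
          · exact Or.inl h1
          · exact Or.inr (Or.inl h1.1)
          · exact Or.inr (Or.inr ⟨c3, fun _ _ => h1⟩)
        · right; right
          refine ⟨c3, fun ha hr => ?_⟩
          rcases c2.2 with c4 | c4 | c4 | c4
          · exact absurd ha c4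
          · rw [hr] at c4; exact absurd c4 (by simp)
          · exact E.op i hi c4
          · exact absurd c4 hz
      · have h3 := R.sc_piece e4 hi e6
        rcases E.oz S' L' w' R _ e4 e5 with h1 | h1 | h1
        · exact Or.inl (by rw [← fu_congr h3]; exact h1)
        · exact Or.inr (Or.inl (h1.1.congr h3))
        · exfalso
          have h2 := h1 _ (S.sc.iseqv.symm (E.kr e e1 e2))
          rw [E.hu e e1] at h2
          exact e3 h2
    · exact Or.inl (C.ty0 E R hi (Or.inr c1))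
    · rcases E.t4 S' L' w' R i hi c1 with h1 | h1
      · exact Or.inl h1
      · exact Or.inr (Or.inl h1)
    · right; left
      obtain ⟨c0, c1, c2, c3, c4, c5, c6, c6a, c6b, c7, c8, c9, c10⟩ := c1
      refine R.two_piece hi c1 c2 c3.symm c4.symm c5 c6 (E.ne _ c6a _ c6b c7)
        (fun r hr hreal => ?_) (fun r hr hreal => ⟨E.na _ c6a _ c6b c8 r hr hreal,
          E.na _ c6b _ c6a c9 r hr hreal⟩)
      have := c10 r hr hreal
      refine ⟨fun h5 => ?_, fun h5 => ?_⟩
      · rcases this.1 with h6 | h6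
        · exact E.ne _ (rl' r hr hreal).1 _ c6a h6 h5.1
        · exact E.ne _ (rl' r hr hreal).2 _ c6b h6 h5.2
      · rcases this.2 with h6 | h6
        · exact E.ne _ (rl' r hr hreal).1 _ c6b h6 h5.1
        · exact E.ne _ (rl' r hr hreal).2 _ c6a h6 h5.2

/-- the potential of the replaced state -/
theorem Fc.Chk.pot (C : F.Chk Δ) (E : Emb F Δ S L w f g) {S' : St D V} {L' : D → Bool}
    {w' : D → ℕ} (R : RH Δ S S' L L' w w' F.P F.P' f g F.O) {c cc : ℕ → ℕ}
    (hcs : ∀ i < F.P.n, c i ≤ cw (fu S (f i)))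
    (hcc : ∀ i < F.P.n, F.P'.u i ≠ 0 → cw (fu S' (f i)) ≤ cc i) :
    n4 S' + F.O.x ≤ n4 S + F.O.nb' F.P F.P' ∧
      ((∀ j < F.P.n, F.P.α j = j → F.P.real j = false → F.ty (F.O.pc j) = 0 ∨
        F.ty (F.O.pc j) = 3 ∨ F.op j = true ∨ F.tw j = true ∨ F.oz j = true) →
        n4 S' + F.O.x < n4 S + F.O.nb' F.P F.P' ∨
        rq S' L' + sumN F.P.n (fun i => F.P.u i * c i) + 3054 * F.O.nlb F.P ≤ rq S L +
          sumN F.P.n (fun i => F.P'.u i * cc i) + 3054 * F.O.nlb' F.P +
            6120 * F.O.ns' F.P F.P') := by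
  have hxm := C.c5
  have k := R.n4_le (fun a _ ha => E.r4 a ha) (List.range F.O.x) List.nodup_range
    (fun a ha => ⟨List.mem_range.1 ha, E.hA a (by have := List.mem_range.1 ha; omega),
      E.r4 a (by have := List.mem_range.1 ha; omega)⟩)
  rw [List.length_range] at k
  refine ⟨k.1, fun hc => ?_⟩
  by_cases hd : ∃ y ∈ R.Ao, 4 ≤ S.rdeg y ∧ ¬ 4 ≤ S'.rdeg y
  · exact Or.inl (k.2 hd)
  · right
    push Not at hd
    refine R.rq_le (fun y hy h4 => hd y hy h4) c cc hcs hcc (fun j hj ha hr => ?_)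
    rcases hc j hj ha hr with h1 | h1 | h1 | h1 | h1
    · exact Or.inl (C.ty0 E R hj (Or.inl h1))
    · exact Or.inl (C.ty0 E R hj (Or.inr h1))
    · exact Or.inr (Or.inr (E.op j hj h1))
    · exact Or.inr (Or.inl (E.tw j hj h1))
    · rcases E.oz S' L' w' R j hj h1 with h2 | h2 | h2
      · exact Or.inl h2
      · exact Or.inr (Or.inl h2.2)
      · exact Or.inr (Or.inr h2)

/-- the numbers of labels with additional labels -/
theorem nlb_kO {O : OD} {P : Pa} {l : ℕ → Bool} (h : ∀ i < P.n, l i = true → O.lb i = false ∧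
    O.lb' i = false) : (kO O l).nlb P + O.nlb' P = O.nlb P + (kO O l).nlb' P := by
  unfold OD.nlb OD.nlb'
  rw [sumN_eq, sumN_eq, sumN_eq, sumN_eq, ← Finset.sum_add_distrib, ← Finset.sum_add_distrib]
  refine Finset.sum_congr rfl fun i hi => ?_
  show (if (O.lb i || l i) = true then (if O.rg P i = true then 2 else 1) else 0) +
      (if O.lb' i = true then (if O.rg P i = true then 2 else 1) else 0) =
    (if O.lb i = true then (if O.rg P i = true then 2 else 1) else 0) +
      (if (O.lb' i || l i) = true then (if O.rg P i = true then 2 else 1) else 0)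
  by_cases hl : l i = true
  · obtain ⟨h1, h2⟩ := h i (Finset.mem_range.1 hi) hl
    rw [h1, h2, hl]
    simp
  · have hl : l i = false := by simpa using hl
    rw [hl, Bool.or_false, Bool.or_false]

/-- the potential with additional units and labels -/
theorem Fc.Chk.potk {κ : ℕ → ℕ} {l : ℕ → Bool} (C : (F.kap κ l).Chk Δ) (hk : F.Kap κ l)
    (E : Emb (F.kap κ l) Δ S L w f g) {S' : St D V} {L' : D → Bool} {w' : D → ℕ}
    (R : RH Δ S S' L L' w w' (F.kap κ l).P (F.kap κ l).P' f g (F.kap κ l).O) :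
    n4 S' + F.O.x ≤ n4 S + F.O.nb' F.P F.P' ∧
      (F.chkC = true → n4 S' + F.O.x < n4 S + F.O.nb' F.P F.P' ∨
        rq S' L' + F.co ≤ rq S L + F.co') := by
  classical
  have cw_le : ∀ k, cw k ≤ 3054 := by
    intro k
    unfold cw
    split_ifs <;> omega
  have hst : ∀ i < F.P.n, (if F.tw i = true then 3054 else 2024) ≤ cw (fu S (f i)) := by
    intro i hi
    by_cases ht : F.tw i = true
    · rw [if_pos ht]
      have := E.tw i hi ht
      unfold cw
      rw [if_pos this]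
    · rw [if_neg ht]; exact cw_ge _
  have hp := C.pot E R (c := fun i => if F.uk i = true then cw (fu S (f i)) else
      if F.tw i = true then 3054 else 2024) (cc := fun i => cw (fu S' (f i))) (fun i hi => by
      show (if F.uk i = true then cw (fu S (f i)) else if F.tw i = true then 3054 else 2024) ≤ _
      by_cases hu : F.uk i = true
      · rw [if_pos hu]
      · rw [if_neg hu]; exact hst i hi) (fun i _ _ => le_refl _)
  refine ⟨hp.1, fun hC => ?_⟩
  unfold Fc.chkC at hC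
  rw [Bool.and_eq_true, allN_iff, allN_iff] at hC
  have hcond : ∀ j < (F.kap κ l).P.n, (F.kap κ l).P.α j = j → (F.kap κ l).P.real j = false →
      (F.kap κ l).ty ((F.kap κ l).O.pc j) = 0 ∨ (F.kap κ l).ty ((F.kap κ l).O.pc j) = 3 ∨
      (F.kap κ l).op j = true ∨ (F.kap κ l).tw j = true ∨ (F.kap κ l).oz j = true := by
    intro j hj ha hr
    have := hC.1 j hj
    simp only [Bool.or_eq_true, decide_eq_true_eq] at this
    rcases this with (((((h1 | h1) | h1) | h1) | h1) | h1) | h1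
    · exact absurd ha h1
    · have hr' : F.P.real j = false := hr
      rw [hr'] at h1; exact absurd h1 (by simp)
    · exact Or.inl h1
    · exact Or.inr (Or.inl h1)
    · exact Or.inr (Or.inr (Or.inl h1))
    · exact Or.inr (Or.inr (Or.inr (Or.inl h1)))
    · exact Or.inr (Or.inr (Or.inr (Or.inr h1)))
  rcases hp.2 hcond with h1 | h1
  · exact Or.inl h1
  · right
    -- the old costs
    have e1 : sumN F.P.n (fun i => F.P.u i * (if F.tw i then 3054 else 2024)) +
        (∑ i ∈ Finset.range F.P.n, κ i * cw (fu S (f i))) ≤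
        sumN F.P.n (fun i => (F.P.u i + κ i) * (if F.uk i = true then cw (fu S (f i)) else
          if F.tw i = true then 3054 else 2024)) := by
      rw [sumN_eq, sumN_eq, ← Finset.sum_add_distrib]
      refine Finset.sum_le_sum fun i hi => ?_
      have h2 := hst i (Finset.mem_range.1 hi)
      by_cases hu : F.uk i = true
      · rw [if_pos hu, Nat.add_mul]
        exact Nat.add_le_add_right (Nat.mul_le_mul_left _ h2) _
      · rw [if_neg hu]
        have h0 : κ i = 0 := by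
          by_contra h0
          exact hu (hk.uk i h0)
        rw [h0, Nat.zero_mul, Nat.add_zero, Nat.add_zero]
    -- the new costs
    have e2 : sumN F.P.n (fun i => (F.P'.u i + kq F.P.n F.kp κ i) * cw (fu S' (f i))) ≤
        sumN F.P.n (fun i => F.P'.u i *
          (if F.ty (F.O.pc i) = 0 ∨ F.ty (F.O.pc i) = 3 then 2024 else 3054)) +
        ∑ i ∈ Finset.range F.P.n, κ i * cw (fu S (f i)) := by
      have e3 : sumN F.P.n (fun i => (F.P'.u i + kq F.P.n F.kp κ i) * cw (fu S' (f i))) =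
          (∑ i ∈ Finset.range F.P.n, F.P'.u i * cw (fu S' (f i))) +
          ∑ i ∈ Finset.range F.P.n, κ i * cw (fu S' (f (F.kp i))) := by
        rw [sumN_eq, ← sum_kq (fun e he h0 => (hk.k e he h0).1) (fun i => cw (fu S' (f i))),
          ← Finset.sum_add_distrib]
        exact Finset.sum_congr rfl fun i _ => Nat.add_mul _ _ _
      rw [e3, sumN_eq]
      refine Nat.add_le_add (Finset.sum_le_sum fun i hi => Nat.mul_le_mul_left _ ?_)
        (Finset.sum_le_sum fun e he => ?_)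
      · have hi := Finset.mem_range.1 hi
        by_cases ht : F.ty (F.O.pc i) = 0 ∨ F.ty (F.O.pc i) = 3
        · rw [if_pos ht, cw3 (C.ty0 E R hi ht)]
        · rw [if_neg ht]; exact cw_le _
      · have he := Finset.mem_range.1 he
        by_cases h0 : κ e = 0
        · rw [h0, Nat.zero_mul, Nat.zero_mul]
        · refine Nat.mul_le_mul_left _ ?_
          obtain ⟨a1, a2, -⟩ := hk.k e he h0
          have := hC.2 e he
          rw [hk.uk e h0] at this
          simp only [Bool.not_true, Bool.false_or, Bool.or_eq_true, Bool.and_eq_true,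
            decide_eq_true_eq] at this
          rcases this with ((h2 | h2) | h2) | ⟨h2, h3⟩
          · rw [cw3 (C.ty0 E R a1 (Or.inl h2))]; exact cw_ge _
          · rw [cw3 (C.ty0 E R a1 (Or.inr h2))]; exact cw_ge _
          · have := hst e he
            rw [if_pos h2] at this
            exact le_trans (cw_le _) this
          · have h4 := R.sc_piece a2 a1 h3
            have hkr := E.kr e he (hk.uk e h0)
            rw [← fu_congr h4]
            rcases E.oz S' L' w' R _ a2 h2 with h5 | h5 | h5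
            · rw [cw3 h5]; exact cw_ge _
            · have h6 : fu S (f e) ≤ 2 := by
                rw [fu_congr hkr]; exact h5.2
              have h7 : cw (fu S (f e)) = 3054 := by
                unfold cw
                rw [if_pos h6]
              rw [h7]; exact cw_le _
            · exfalso
              have h6 := h5 _ (S.sc.iseqv.symm hkr)
              rw [E.hu e he] at h6
              exact h0 (Nat.eq_zero_of_add_eq_zero_left h6)
    have e4 := nlb_kO (O := F.O) (P := F.P) (l := l) fun i hi hl =>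
      ⟨(hk.l i hi hl).2.2.1, (hk.l i hi hl).2.2.2.1⟩
    have e5 : F.co = sumN F.P.n (fun i => F.P.u i * (if F.tw i then 3054 else 2024)) +
        3054 * F.O.nlb F.P := rfl
    have e6 : F.co' = sumN F.P.n (fun i => F.P'.u i *
          (if F.ty (F.O.pc i) = 0 ∨ F.ty (F.O.pc i) = 3 then 2024 else 3054)) +
        3054 * F.O.nlb' F.P + 6120 * F.O.ns' F.P F.P' := rfl
    have h2 : rq S' L' + sumN F.P.n (fun i => (F.P.u i + κ i) * (if F.uk i = true then
        cw (fu S (f i)) else if F.tw i = true then 3054 else 2024)) +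
        3054 * (kO F.O l).nlb F.P ≤ rq S L +
        sumN F.P.n (fun i => (F.P'.u i + kq F.P.n F.kp κ i) * cw (fu S' (f i))) +
        3054 * (kO F.O l).nlb' F.P + 6120 * F.O.ns' F.P F.P' := h1
    rw [e5, e6]
    omega

theorem Wf.nr_le (h : Wf Δ S L w) : FC7.nr S ≤ Δ * S.A.card := by
  classical
  have e1 : ∑ x ∈ S.A, ∑ d, (if S.M.v d = x then (if S.real d = true then 1 else 0) + S.u d + w d
      else 0) ≤ S.A.card * Δ := by
    rw [← smul_eq_mul, ← Finset.sum_const]
    exact Finset.sum_le_sum fun x hx => h.deg x hx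
  have e2 : FC7.nr S ≤ ∑ x ∈ S.A, ∑ d, (if S.M.v d = x then (if S.real d = true then 1 else 0) +
      S.u d + w d else 0) := by
    rw [Finset.sum_comm]
    refine Finset.sum_le_sum fun d _ => ?_
    by_cases hd : S.real d = true
    · refine le_trans ?_ (Finset.single_le_sum (f := fun x => if S.M.v d = x then
        (if S.real d = true then 1 else 0) + S.u d + w d else 0) (fun _ _ => Nat.zero_le _)
        (h.real_A d hd))
      rw [if_pos rfl, if_pos hd]
      omega
    · rw [if_neg hd]; exact Nat.zero_le _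
  rw [Nat.mul_comm]
  exact le_trans e2 e1

/-- A FACT: the configuration does not occur next to a minimal counterexample -/
theorem MM.fact {N R e : ℕ} (h : MM Δ N R e S L w) (hF : F.chk Δ = true) (hE : F.One) (hM : F.chkM e = true)
    {κ : ℕ → ℕ} {l : ℕ → Bool} (hκ : ∀ i, κ i ≠ 0 → F.uk i = true)
    (hl : ∀ i, l i = true → F.lu i = true) (E : Emb (F.kap κ l) Δ S L w f g) : False := by
  obtain ⟨C0, -, -, hK⟩ := Fc.chk_iff hF hE
  have C := C0.kap (hK κ l hκ hl)
  obtain ⟨S', L', w', R', h1, h2, h3⟩ := C.step h.ok h.w1 h.no h.nr E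
  have hp := Fc.Chk.potk C (hK κ l hκ hl) E R'
  have k1 := h.n4
  have k2 := h.rq
  refine h3 (h.min D V S' L' w' h1 h2 ?_)
  unfold Fc.chkM at hM
  rw [Bool.or_eq_true, Bool.and_eq_true, Bool.and_eq_true, decide_eq_true_eq, decide_eq_true_eq,
    decide_eq_true_eq] at hM
  rcases hM with hM | ⟨⟨m1, m2⟩, m3⟩
  · left
    omega
  · rcases hp.2 m2 with h4 | h4
    · left; omega
    · by_cases h5 : FC7.n4 S' < N
      · exact Or.inl h5
      · right
        refine ⟨by omega, by omega⟩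

/-- A FACT for minimal counterexamples -/
theorem MC.fact (hΔ : Δ ≤ 6) (h : MC Δ S L w) (hF : F.chk Δ = true) (hE : F.One) (hM : F.chkM 0 = true)
    {κ : ℕ → ℕ} {l : ℕ → Bool} (hκ : ∀ i, κ i ≠ 0 → F.uk i = true)
    (hl : ∀ i, l i = true → F.lu i = true) (E : Emb (F.kap κ l) Δ S L w f g) : False :=
  (h.mm hΔ).fact hF hE hM hκ hl E

/-- A FACT for minimal counterexamples: more real edges -/
theorem MC.factN (hΔ : Δ ≤ 6) (h : MC Δ S L w) (hF : F.chk Δ = true) (hE : F.One) (hN : F.chkN = true)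
    {κ : ℕ → ℕ} {l : ℕ → Bool} (hκ : ∀ i, κ i ≠ 0 → F.uk i = true)
    (hl : ∀ i, l i = true → F.lu i = true) (E : Emb (F.kap κ l) Δ S L w f g) : False := by
  obtain ⟨C0, -, -, hK⟩ := Fc.chk_iff hF hE
  have C := C0.kap (hK κ l hκ hl)
  obtain ⟨S', L', w', R', h1, h2, h3⟩ := C.step h.ok h.w1 h.no (h.nr20 hΔ) E
  have hp := Fc.Chk.potk C (hK κ l hκ hl) E R'
  have hm := C0.c5
  refine h3 (h.min D V S' L' w' h1 h2 ?_)
  unfold Fc.chkN at hN
  rw [Bool.and_eq_true, Bool.and_eq_true, Bool.and_eq_true, decide_eq_true_eq, decide_eq_true_eq,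
    decide_eq_true_eq] at hN
  obtain ⟨⟨⟨m1, m2⟩, m3⟩, m4⟩ := hN
  rcases hp.2 m2 with h4 | h4
  · exact mu_lt_n4 (by omega)
  · refine mu_lt_nr (by omega) (by omega) ?_ ?_ (R'.cardA_le fun a ha => E.hA a ?_)
    · have := R'.nr_eq
      have e1 : sumN (F.kap κ l).P.n (fun i => if (F.kap κ l).P.real i then 1 else 0) =
          sumN F.P.n (fun i => if F.P.real i then 1 else 0) := rfl
      have e2 : sumN (F.kap κ l).P.n (fun i => if (F.kap κ l).P'.real i then 1 else 0) =
          sumN F.P.n (fun i => if F.P'.real i then 1 else 0) := rfl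
      rw [e1, e2] at this
      omega
    · exact h2.toWf.nr_le
    · show a < F.O.m
      have : a < F.O.x := ha
      omega

end Pool.FC7
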