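import Pool.Agent.FC7.RokJ
import Pool.Agent.FC7.CtA

/-! # Facts without replacement: one requirement is dropped -/

open Finset

set_option linter.unusedSectionVars false

namespace Pool.FC7

open Pool.FC6 Pool.FC6.St

variable {D V : Type} [Fintype D] [DecidableEq V]

/-- fewer units and labels -/
theorem Wf.sub {Δ : ℕ} {S : St D V} {L L' : D → Bool} {w w' : D → ℕ} {u' : D → ℕ}
    (hW : Wf Δ S L w) (w1 : W1 L w) (w1' : W1 L' w') (hu : ∀ d, u' d ≤ S.u d)
    (hL : ∀ d, L' d = true → L d = true) (hLα : ∀ d, L' (S.M.α d) = L' d) :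
    Wf Δ (wU S u') L' w' where
  real_α := hW.real_α
  real_A := hW.real_A
  real_ne := hW.real_ne
  A_im := hW.A_im
  u_A := fun d hd => hW.u_A d (fun h1 => hd (by have := hu d; show u' d = 0; omega))
  L_real := fun d hd => hW.L_real d (hL d hd)
  L_α := hLα
  w_L := fun d hd => by
    rw [w1' d] at hd
    by_contra h
    rw [if_neg h] at hd
    exact hd rfl
  w_α := fun d => by
    rw [w1', w1']
    show (if L' (S.M.α d) = true then 1 else 0) = _
    rw [hLα]
  deg := fun x hx => le_trans (Finset.sum_le_sum fun d _ => by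
    show (if S.M.v d = x then (if S.real d = true then 1 else 0) + u' d + w' d else 0) ≤ _
    have h1 := hu d
    have h2 : w' d ≤ w d := by
      rw [w1', w1]
      by_cases h3 : L' d = true
      · rw [if_pos h3, if_pos (hL d h3)]
      · rw [if_neg h3]; exact Nat.zero_le _
    split_ifs <;> omega) (hW.deg x hx)
  simple := hW.simple
  ex := hW.ex

/-- a fact without replacement.  `lab`: the label of the dart `dr` is dropped, otherwise the units of
the face of the dart `dr`; `nu`: darts without units; `rq`: darts whose face is required and not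
dropped; `lb`: labelled darts; `lu`: ring darts with unknown labels -/
structure Fr where
  P : Pa
  X : XE
  T : XF
  nl : ℕ
  NM : ℕ
  lab : Bool
  dr : ℕ
  nu : ℕ → Bool
  rq : ℕ → Bool
  lb : ℕ → Bool
  lu : ℕ → Bool := fun _ => false

namespace Fr

variable (F : Fr)

def ne (a b : ℕ) : Bool := decide (b < 31) && F.NM.testBit (lix a b)

/-- the mask `z` contains at most the cell of `i` -/
def cel (z i : ℕ) : Bool := allN F.P.n fun j => !z.testBit (F.X.ce j) ||
  decide (F.X.ce j = F.X.ce i)

/-- the cell of the dart has a virtual ring dart -/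
def hv (i : ℕ) : Bool := !allN F.P.n fun j => !(decide (F.P.α j = j) && !F.P.real j &&
  decide (F.X.ce j = F.X.ce i))

/-- the cell of the dart has a kept dart -/
def hk (i : ℕ) : Bool := F.X.kd.any fun j => decide (F.X.ce j = F.X.ce i)

/-- the label of the dart is kept -/
def lk (i : ℕ) : Bool := F.lb i && !F.lu i &&
  !(F.lab && (decide (i = F.dr) || decide (i = F.P.α F.dr)))

def XX : XE := { F.X with flt := fun m => !m.testBit F.X.x }

/-- the extension check for one colouring -/
noncomputable def okE (r : ℕ) : Bool :=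
  (r <<< F.X.lo).testBit F.X.x || F.T.one (r <<< F.X.lo)

/-- the extension check for all colourings: one by one with the tables `T`, or the vector check -/
def One : Prop := (F.T.ok F.XX F.P F.P = true ∧ ∀ r < 2 ^ (F.X.x + F.X.k - F.X.lo),
    F.okE r = true ∨ F.T.OneM (r <<< F.X.lo)) ∨ F.XX.VOk F.P F.P

theorem One.of {F : Fr} (hT : F.T.ok F.XX F.P F.P = true)
    (h : ∀ r < 2 ^ (F.X.x + F.X.k - F.X.lo), F.okE r = true) : F.One :=
  Or.inl ⟨hT, fun r hr => Or.inl (h r hr)⟩

/-- the guided check for all colourings -/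
theorem oneM {F : Fr} (G : GT) {t : ℕ} (hT : F.T.ok F.XX F.P F.P = true) (hx : F.T.x = F.X.x)
    (hn : F.X.x + F.X.k = G.s + t)
    (h1 : F.T.ars = aI G.its) (h2 : F.T.es = pI G.its) (h3 : F.T.es' = eI G.its G.ll)
    (h4 : F.T.lr = lI G.its) (hok : G.ok F.X.x F.X.lo = true)
    (hrun : ∀ i < 2 ^ t, G.run F.T i = true) : F.One := Or.inl ⟨hT, fun r hr =>
  (GT.all hx hn h1 h2 h3 h4 hok hrun r hr).imp
    (fun h => by unfold okE; rw [h, Bool.true_or]) id⟩

/-- the vector check -/
theorem oneV {F : Fr} {q s x m lo NB A : ℕ} {G : EK}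
    (h : EV.ev F.XX F.P F.P q s x m lo NB A G = true) : F.One := Or.inr (EV.ev_ok h)

noncomputable def chk : Bool :=
  F.P.good && (F.XX.sta F.P F.P && F.XX.ringOk F.P) && decide (F.X.lo = 0) && decide (F.X.x < F.X.x + F.X.k) &&
  decide (F.dr < F.P.n) &&
  allN F.P.n (fun i => decide (F.P.l i < F.nl)) &&
  allN F.X.x (fun a => allN (F.X.x + F.X.k) fun b => decide (a = b) ||
    (F.ne a b && F.ne b a)) &&
  -- the requirements of `S`
  allN F.P.n (fun i => F.nu i || (F.X.dj.any fun z => F.cel z i) || F.hv i || F.hk i) &&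
  (F.lab || F.X.dj.any fun z => F.cel z F.dr) &&
  allN F.P.n (fun i => decide (F.P.α i = i) || !F.lb i || F.X.dj.any fun z => allN F.P.n fun j =>
    !z.testBit (F.X.ce j) || decide (F.X.ce j = F.X.ce i) || decide (F.X.ce j = F.X.ce (F.P.α i))) &&
  allN F.X.x (fun a => decide (F.X.st a ∈ F.X.dj)) &&
  F.X.rs.all (fun i => if F.lu i then F.X.kd.contains i else
    !F.lb i || F.X.lr.any fun q => decide (q.1 = i) && q.2.1) &&
  allN F.P.n (fun i => !F.lu i || decide (F.P.α i = i)) &&
  -- the requirements of `S'`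
  F.X.lr.all (fun q => !q.2.2 || F.lk q.1) &&
  F.X.dj'.all (fun m =>
    (!allN F.P.n fun i => !(F.rq i && m.testBit (F.X.ce' i))) ||
    (!allN F.P.n fun i => !(F.lk i && decide (F.P.α i ≠ i) && m.testBit (F.X.ce' i) &&
      m.testBit (F.X.ce' (F.P.α i)))) ||
    (!allN F.X.x fun a => !(allN F.P.n fun i => decide (F.P.l i ≠ a) ||
      m.testBit (F.X.ce' i))))

end Fr

/-- the configuration occurs in the state -/
structure EmbR (F : Fr) (S : St D V) (L : D → Bool) (f : ℕ → D) (g : ℕ → V) : Prop where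
  e : Em F.P S f g
  hstar : ∀ a < F.X.x, ∀ d, S.M.v d = g a → ∃ i < F.P.n, f i = d
  hA : ∀ a < F.X.x, g a ∈ S.A
  nf : ∀ a < F.X.x, ∀ b, F.X.x + F.X.k ≤ b → b < F.nl → g a ≠ g b
  fA : ∀ b, F.X.x + F.X.k ≤ b → b < F.nl → g b ∉ S.A
  ne : ∀ a < F.X.x + F.X.k, ∀ b < F.X.x + F.X.k, F.ne a b = true → g a ≠ g b
  nu : ∀ i < F.P.n, F.nu i = true → S.u (f i) = 0
  hL : ∀ i < F.P.n, F.lu i = false → L (f i) = F.lb i
  dF : F.lab = false → ∃ d, S.sc.r (f F.dr) d ∧ S.u d ≠ 0
  dL : F.lab = true → F.lb F.dr = true ∧ F.lu F.dr = false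
  rq : ∀ i < F.P.n, F.rq i = true → (∃ d, S.sc.r (f i) d ∧ S.u d ≠ 0) ∧
    (F.lab = false → ¬ S.sc.r (f F.dr) (f i))
  ho : ∀ i < F.P.n, F.P.α i = i → F.lb i = true → F.lu i = false → ∀ j < F.P.n, f j ≠ S.M.α (f i)
  sp : ∀ c' : V → Bool, ∀ p ∈ F.X.ar, F.X.sp p.1 = true →
    c' (g (F.P.l p.1)) ≠ c' (g (F.P.l (F.P.φ p.2))) →
      Act S F.P f c' (f p.1) ∨ Act S F.P f c' (f p.2)

variable {F : Fr} {Δ N R e : ℕ} {S : St D V} {L : D → Bool} {w : D → ℕ} {f : ℕ → D} {g : ℕ → V}

/-- costs of a required face -/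
theorem cost_face (ok : Ok Δ S L w) {d0 : D} (h : ∃ d, S.sc.r d0 d ∧ S.u d ≠ 0) :
    6072 ≤ fu S d0 * cw (fu S d0) := by
  classical
  obtain ⟨d, h1, h2⟩ := h
  have h3 : 2 ≤ fu S d0 := by
    rcases ok.thr d h2 with h4 | ⟨e, e', a1, a2, a3, a4, a5, a6⟩
    · rw [fu_congr h1]; omega
    · have hne : e ≠ e' := fun h => a5 (by rw [h])
      have b1 : S.sc.r d0 e := S.sc.iseqv.trans h1 a1
      have b2 : S.sc.r d0 e' := S.sc.iseqv.trans h1 a2
      unfold fu
      have : ∑ x ∈ ({e, e'} : Finset D), (if S.sc.r d0 x then S.u x else 0) ≤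
          ∑ x, if S.sc.r d0 x then S.u x else 0 :=
        Finset.sum_le_sum_of_subset (Finset.subset_univ _)
      rw [Finset.sum_pair hne, if_pos b1, if_pos b2] at this
      omega
  unfold cw
  split_ifs with h4
  · have : fu S d0 = 2 := by omega
    rw [this]; omega
  · have : 3 * 2024 ≤ fu S d0 * 2024 := Nat.mul_le_mul_right _ (by omega)
    omega

/-- A FACT without replacement -/
theorem MM.r0 (h : MM Δ N R e S L w) (he : e < 6072) (hF : F.chk = true) (hO : F.One) (E : EmbR F S L f g) :
    False := by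
  classical
  have W := h.ok.toWf
  unfold Fr.chk at hF
  simp only [Bool.and_eq_true, decide_eq_true_eq, allN_iff, List.all_eq_true] at hF
  obtain ⟨⟨⟨⟨⟨⟨⟨⟨⟨⟨⟨⟨⟨⟨k1, k2⟩, k3⟩, k4⟩, k5⟩, k6⟩, k7⟩, k8⟩, k9⟩, k10⟩, k11⟩, k12⟩, k15⟩, k13⟩, k14⟩ := hF
  have G := Pa.good_iff.1 k1
  let u' : D → ℕ := fun d => if F.lab = false ∧ S.sc.r (f F.dr) d then 0 else S.u d
  let L' : D → Bool := fun d => L d && !(F.lab && (decide (d = f F.dr) ||
    decide (d = S.M.α (f F.dr))))
  let w' : D → ℕ := fun d => if L' d = true then 1 else 0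
  have hu : ∀ d, u' d ≤ S.u d := by
    intro d
    simp only [u']
    split_ifs <;> omega
  have hLL : ∀ d, L' d = true → L d = true := by
    intro d hd
    simp only [L', Bool.and_eq_true] at hd
    exact hd.1
  have hLα : ∀ d, L' (S.M.α d) = L' d := by
    intro d
    simp only [L', W.L_α]
    congr 2
    have e1 : decide (S.M.α d = f F.dr) = decide (d = S.M.α (f F.dr)) := by
      rw [decide_eq_decide]
      constructor
      · intro h1; rw [← h1, S.M.αα]
      · intro h1; rw [h1, S.M.αα]
    have e2 : decide (S.M.α d = S.M.α (f F.dr)) = decide (d = f F.dr) := by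
      rw [decide_eq_decide]
      exact ⟨fun h1 => S.M.αinj h1, fun h1 => by rw [h1]⟩
    rw [e1, e2, Bool.or_comm]
  have w1' : W1 L' w' := fun d => rfl
  have wf := W.sub h.w1 w1' hu hLL hLα
  -- the number of units of the kept faces
  have hfu : ∀ d, u' d ≠ 0 → fu (wU S u') d = fu S d ∧ ∀ e, S.sc.r d e → u' e = S.u e := by
    intro d hd
    have key : ∀ e, S.sc.r d e → u' e = S.u e := by
      intro e he'
      simp only [u']
      rw [if_neg]
      rintro ⟨h1, h2⟩
      apply hd
      simp only [u']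
      rw [if_pos ⟨h1, S.sc.iseqv.trans h2 (S.sc.iseqv.symm he')⟩]
    refine ⟨?_, key⟩
    unfold fu
    refine Finset.sum_congr rfl fun e _ => ?_
    show (if S.sc.r d e then u' e else 0) = if S.sc.r d e then S.u e else 0
    split_ifs with h1
    · exact key e h1
    · rfl
  have ok' : Ok Δ (wU S u') L' w' := by
    refine ok_of_rc wf (fun s h1 h2 => h.rc3 s h1 h2) fun d hd => ?_
    obtain ⟨e1, e2⟩ := hfu d hd
    have hSd : S.u d ≠ 0 := by
      intro h1
      have := hu d
      exact hd (by show u' d = 0; omega)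
    rcases h.ok.thr d hSd with h1 | ⟨e, e', a1, a2, a3, a4, a5, a6⟩
    · left; rw [e1]; exact h1
    · right
      refine ⟨e, e', a1, a2, ?_, ?_, a5, a6⟩
      · show u' e ≠ 0
        rw [e2 e a1]; exact a3
      · show u' e' ≠ 0
        rw [e2 e' a2]; exact a4
  -- the potential
  have hpot : FC7.rq (wU S u') L' + 6072 ≤ FC7.rq S L := by
    have n1 : n3 (wU S u') = n3 S := rfl
    have c1 : ∀ d, (wU S u').u d * cw (fu (wU S u') d) ≤ S.u d * cw (fu S d) := by
      intro d
      show u' d * cw (fu (wU S u') d) ≤ _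
      by_cases h0 : u' d = 0
      · rw [h0]; simp
      · rw [(hfu d h0).1]
        exact Nat.mul_le_mul_right _ (hu d)
    have c2 : ∀ d, (if L' d = true then 1 else 0) ≤ (if L d = true then 1 else 0) := by
      intro d
      by_cases h1 : L' d = true
      · rw [if_pos h1, if_pos (hLL d h1)]
      · rw [if_neg h1]; exact Nat.zero_le _
    have c3 := Finset.sum_le_sum (s := Finset.univ) fun d _ => c1 d
    have c4 := Finset.sum_le_sum (s := Finset.univ) fun d _ => c2 d
    unfold FC7.rq
    rw [n1]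
    cases hlab : F.lab
    · -- a face
      have c5 : (∑ d, (wU S u').u d * cw (fu (wU S u') d)) + fu S (f F.dr) * cw (fu S (f F.dr)) ≤
          ∑ d, S.u d * cw (fu S d) := by
        have e1 : fu S (f F.dr) * cw (fu S (f F.dr)) =
            ∑ d, if S.sc.r (f F.dr) d then S.u d * cw (fu S d) else 0 := by
          conv_lhs => unfold fu
          rw [Finset.sum_mul]
          refine Finset.sum_congr rfl fun d _ => ?_
          by_cases h1 : S.sc.r (f F.dr) d
          · rw [if_pos h1, if_pos h1]
            have := fu_congr h1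
            unfold fu at this ⊢
            rw [this]
          · rw [if_neg h1, if_neg h1, Nat.zero_mul]
        rw [e1, ← Finset.sum_add_distrib]
        refine Finset.sum_le_sum fun d _ => ?_
        by_cases h1 : S.sc.r (f F.dr) d
        · rw [if_pos h1]
          have : (wU S u').u d = 0 := by
            show u' d = 0
            simp only [u']
            rw [if_pos ⟨hlab, h1⟩]
          rw [this, Nat.zero_mul, Nat.zero_add]
        · rw [if_neg h1, Nat.add_zero]
          exact c1 d
      have c6 := cost_face h.ok (E.dF hlab)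
      omega
    · -- a label
      have hd0 := E.dL hlab
      have hl1 : L (f F.dr) = true := by rw [E.hL _ k5 hd0.2]; exact hd0.1
      have hl2 : L (S.M.α (f F.dr)) = true := by rw [W.L_α]; exact hl1
      have c5 : (∑ d, if L' d = true then 1 else 0) + 2 ≤ ∑ d, if L d = true then 1 else 0 := by
        have hne : f F.dr ≠ S.M.α (f F.dr) := (S.M.αne _).symm
        have e1 : 2 = ∑ d, ((if d = f F.dr then 1 else 0) + (if d = S.M.α (f F.dr) then 1 else 0)) := by
          rw [Finset.sum_add_distrib, Finset.sum_ite_eq', Finset.sum_ite_eq', if_pos (Finset.mem_univ _),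
            if_pos (Finset.mem_univ _)]
        rw [e1, ← Finset.sum_add_distrib]
        refine Finset.sum_le_sum fun d _ => ?_
        by_cases h1 : d = f F.dr
        · subst h1
          rw [if_pos rfl, if_neg hne, if_pos hl1, if_neg]
          simp [L', hlab]
        · by_cases h2 : d = S.M.α (f F.dr)
          · subst h2
            rw [if_neg h1, if_pos rfl, if_pos hl2, if_neg]
            simp [L', hlab]
          · rw [if_neg h1, if_neg h2]
            exact c2 d
      omega
  obtain ⟨c0, hc0⟩ := h.min D V (wU S u') L' w' w1' ok' (by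
    right
    have n1 : FC7.n4 (wU S u') = FC7.n4 S := rfl
    have := h.rq
    refine ⟨by rw [n1]; exact h.n4, by omega⟩)
  -- normalise
  obtain ⟨c', hc', hcx⟩ : ∃ c', Sol (wU S u') L' c' ∧ c' (g F.X.x) = false := by
    by_cases h0 : c0 (g F.X.x) = false
    · exact ⟨c0, hc0, h0⟩
    · exact ⟨fun x => !c0 x, hc0.neg, by simpa using h0⟩
  have k2 : F.XX.Ck F.P F.P := by
    refine XE.Ck.of k2.1 k2.2 (fun m hm => ?_) (hO.imp (fun h => ⟨F.T, h.1, fun r hr hf => ?_⟩) id)
    · have h2 : (!m.testBit F.X.x) = true := hm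
      rw [Bool.not_eq_true'] at h2
      exact h2
    · refine (h.2 r hr).imp (fun h1 => ?_) id
      unfold Fr.okE at h1
      rw [Bool.or_eq_true] at h1
      refine h1.resolve_left ?_
      have h2 : (!(r <<< F.X.lo).testBit F.X.x) = true := hf
      rw [Bool.not_eq_true'] at h2
      rw [h2]; simp
  have hst := XE.stat_of k2.st
  have hkd : ∀ j ∈ F.X.kd, j < F.P.n := k2.kd
  have nex : ∀ a < F.X.x, ∀ b < F.nl, a ≠ b → g b ≠ g a := by
    intro a ha b hb hab
    by_cases hm : b < F.X.x + F.X.k
    · have := k7 a ha b hm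
      rw [Bool.or_eq_true, decide_eq_true_eq, Bool.and_eq_true] at this
      exact E.ne b hm a (by omega) (this.resolve_left hab).2
    · exact (E.nf a ha b (by omega) hb).symm
  have hlk : ∀ i < F.P.n, F.lk i = true → L' (f i) = true := by
    intro i hi hl
    unfold Fr.lk at hl
    rw [Bool.and_eq_true, Bool.and_eq_true] at hl
    obtain ⟨⟨hl1, hl2⟩, hl3⟩ := hl
    simp only [L', Bool.and_eq_true]
    refine ⟨by rw [E.hL i hi (by simpa using hl2)]; exact hl1, ?_⟩
    rw [Bool.not_eq_true', Bool.eq_false_iff] at hl3 ⊢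
    intro h1
    apply hl3
    rw [Bool.and_eq_true, Bool.or_eq_true, decide_eq_true_eq, decide_eq_true_eq] at h1 ⊢
    refine ⟨h1.1, ?_⟩
    rcases h1.2 with h2 | h2
    · exact Or.inl (E.e.inj i hi _ k5 h2)
    · by_cases hα : F.P.α F.dr = F.dr
      · exact absurd h2 (E.ho _ k5 hα (E.dL h1.1).1 (E.dL h1.1).2 i hi)
      · rw [E.e.hα _ k5 hα] at h2
        exact Or.inr (E.e.inj i hi _ (G.αlt _ k5) h2)
  have Rp : Rpl S (wU S u') F.P F.P f g := ⟨E.e, ⟨E.e.inj, E.e.hφ, E.e.hα, E.e.hl, E.e.hr⟩, G, G, rfl,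
    fun _ _ => rfl, fun _ => rfl, fun _ _ => rfl, fun _ _ => rfl, fun _ _ => rfl⟩
  have hcel : ∀ z i, F.cel z i = true → Cell F.P F.XX z i := by
    intro z i hz j hj hb
    unfold Fr.cel at hz
    rw [allN_iff] at hz
    have h1 := hz j hj
    rw [Bool.or_eq_true, decide_eq_true_eq] at h1
    rcases h1 with h1 | h1
    · have h2 : z.testBit (F.X.ce j) = true := hb
      rw [h2] at h1; exact absurd h1 (by simp)
    · exact h1
  apply h.no
  refine ext_solF Rp W.real_α W.real_α W.real_A F.XX k2 E.hstar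
    (fun a ha i hi hl => nex a ha _ (k6 i hi) (Ne.symm hl)) (fun a ha b hb hab => ?_)
    (fun y hy => Or.inl hy) (fun a ha => ?_) (fun i hi hl hA => ?_) W.L_α (fun a ha _ => k11 a ha)
    (fun i hi hui => ?_) (fun i hi hα hl => ?_) (fun i hi hl => ?_) (fun q hq hs => ?_)
    (fun d hd hud => ?_) (fun d hd hd' hl => ?_) hc' (fun c' hc' m hm => ?_)
    (fun c' _ => E.sp c') (fun m _ hm => ?_)
  · by_contra hcon
    have hb' : b < F.X.x := hb
    have h3 := k7 a ha b (by omega)
    rw [Bool.or_eq_true, decide_eq_true_eq, Bool.and_eq_true] at h3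
    have ha' : a < F.X.x := ha
    exact E.ne a (by omega) b (by omega) (h3.resolve_left hcon).1 hab
  · exact absurd ha (by rw [show F.XX.lo = F.X.lo from rfl, k3]; omega)
  · exact absurd hA (E.fA _ hl (k6 i hi))
  · have h1 := k8 i hi
    rw [Bool.or_eq_true, Bool.or_eq_true, Bool.or_eq_true, List.any_eq_true] at h1
    rcases h1 with ((h1 | ⟨z, hz, h1⟩) | h1) | h1
    · exact absurd (E.nu i hi h1) hui
    · exact Or.inl ⟨i, hi, S.sc.iseqv.refl _, z, hz, hcel z i h1⟩
    · unfold Fr.hv at h1
      obtain ⟨j, hj, h2⟩ := nall h1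
      simp only [Bool.and_eq_true, decide_eq_true_eq, Bool.not_eq_true'] at h2
      have h3 : S.sc.r (f i) (f j) := sc_ce hst E.e hi hj h2.2.symm
      by_cases h4 : F.lab = false ∧ S.sc.r (f F.dr) (f i)
      · left
        rw [Bool.or_eq_true, List.any_eq_true, h4.1] at k9
        rcases k9 with k9 | ⟨z, hz, k9⟩
        · exact absurd k9 (by simp)
        · exact ⟨F.dr, k5, S.sc.iseqv.symm h4.2, z, hz, hcel z _ k9⟩
      · right; left
        refine ⟨j, hj, h2.1.1, h2.1.2, h3, f i, S.sc.iseqv.symm h3, ?_⟩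
        show u' (f i) ≠ 0
        simp only [u']
        rw [if_neg h4]
        exact hui
    · unfold Fr.hk at h1
      rw [List.any_eq_true] at h1
      obtain ⟨j, hj, h2⟩ := h1
      rw [decide_eq_true_eq] at h2
      have hj' := hkd j hj
      have h3 : S.sc.r (f i) (f j) := sc_ce hst E.e hi hj' h2.symm
      by_cases h4 : F.lab = false ∧ S.sc.r (f F.dr) (f i)
      · left
        rw [Bool.or_eq_true, List.any_eq_true, h4.1] at k9
        rcases k9 with k9 | ⟨z, hz, k9⟩
        · exact absurd k9 (by simp)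
        · exact ⟨F.dr, k5, S.sc.iseqv.symm h4.2, z, hz, hcel z _ k9⟩
      · right; right
        refine ⟨j, hj, h3, f i, S.sc.iseqv.symm h3, ?_⟩
        show u' (f i) ≠ 0
        simp only [u']
        rw [if_neg h4]
        exact hui
  · have h1 := k10 i hi
    have hlu : F.lu i = false := by
      by_contra h2
      have h3 := k15 i hi
      rw [Bool.not_eq_false] at h2
      rw [h2] at h3
      exact hα (by simpa using h3)
    rw [E.hL i hi hlu] at hl
    rw [Bool.or_eq_true, Bool.or_eq_true, decide_eq_true_eq, hl, List.any_eq_true] at h1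
    rcases h1 with (h1 | h1) | ⟨z, hz, h1⟩
    · exact absurd h1 hα
    · exact absurd h1 (by simp)
    · refine ⟨z, hz, fun j hj hb => ?_⟩
      rw [allN_iff] at h1
      have h2 := h1 j hj
      have hb' : z.testBit (F.X.ce j) = true := hb
      rw [Bool.or_eq_true, Bool.or_eq_true, hb', decide_eq_true_eq, decide_eq_true_eq] at h2
      rcases h2 with (h2 | h2) | h2
      · exact absurd h2 (by simp)
      · exact Or.inl h2
      · exact Or.inr h2
  · have h1 := k12 i hi
    obtain ⟨r1, r2⟩ := hst.rs i hi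
    cases hlu : F.lu i
    · rw [hlu] at h1
      rw [E.hL i r1 hlu] at hl
      left
      refine ⟨?_, E.ho i r1 r2 hl hlu⟩
      rw [if_neg (by simp), hl, Bool.or_eq_true, List.any_eq_true] at h1
      rcases h1 with h1 | ⟨q, hq, h1⟩
      · exact absurd h1 (by simp)
      · rw [Bool.and_eq_true, decide_eq_true_eq] at h1
        obtain ⟨q1, q2, q3⟩ := q
        simp only at h1
        obtain ⟨rfl, h1⟩ := h1
        rw [h1] at hq
        exact ⟨q3, hq⟩
    · right
      rw [if_pos hlu, List.contains_iff_mem] at h1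
      refine ⟨h1, ?_, ?_⟩
      · simp only [L', hl, Bool.true_and]
        rw [Bool.not_eq_true', Bool.eq_false_iff]
        intro h2
        rw [Bool.and_eq_true, Bool.or_eq_true, decide_eq_true_eq, decide_eq_true_eq] at h2
        obtain ⟨h2, h3⟩ := h2
        have h4 := E.dL h2
        rcases h3 with h3 | h3
        · rw [← E.e.inj i r1 _ k5 h3, hlu] at h4
          exact absurd h4.2 (by simp)
        · by_cases hα : F.P.α F.dr = F.dr
          · exact absurd h3 (E.ho _ k5 hα h4.1 h4.2 i r1)
          · rw [E.e.hα _ k5 hα] at h3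
            have h5 := E.e.inj i r1 _ (G.αlt _ k5) h3
            apply hα
            rw [h5, G.αα _ k5] at r2
            exact r2.symm
      · by_cases hO : OU F.P f (S.M.α (f i))
        · exact Or.inl hO
        · right
          have : ∃ j < F.P.n, f j = S.M.α (f i) := by
            unfold OU at hO
            push Not at hO
            exact hO
          obtain ⟨j, j1, j2⟩ := this
          have hαj : F.P.α j = j := by
            by_contra hcon
            have h3 := E.e.hα j j1 hcon
            rw [j2, S.M.αα] at h3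
            have h4 := E.e.inj i r1 _ (G.αlt j j1) h3
            have h5 : F.P.α i = j := by rw [h4, G.αα j j1]
            rw [r2] at h5
            exact hcon (by rw [← h5]; exact r2)
          have hlj : L (f j) = true := by rw [j2, W.L_α]; exact hl
          cases hluj : F.lu j
          · exact absurd (by rw [j2, S.M.αα]) (E.ho j j1 hαj (by rw [← E.hL j j1 hluj]; exact hlj) hluj i r1)
          · have h5 := k12 j (hst.ring j j1 hαj).1
            rw [if_pos hluj, List.contains_iff_mem] at h5
            exact ⟨j, h5, j2⟩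
  · have h1 := k13 q hq
    rw [hs, Bool.or_eq_true] at h1
    rcases h1 with h1 | h1
    · exact absurd h1 (by simp)
    · refine hlk q.1 (hst.rs _ (hst.asm ?_)).1 h1
      exact (k2.lr q hq).1
  · by_cases h1 : F.lab = false ∧ S.sc.r (f F.dr) d
    · right
      refine ⟨F.dr, k5, h1.2, ?_⟩
      rw [Bool.or_eq_true, List.any_eq_true, h1.1] at k9
      rcases k9 with k9 | ⟨z, hz, k9⟩
      · exact absurd k9 (by simp)
      · exact ⟨z, hz, hcel z _ k9⟩
    · left
      show u' d ≠ 0
      simp only [u']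
      rw [if_neg h1]
      exact hud
  · simp only [L', Bool.and_eq_true]
    refine ⟨hl, ?_⟩
    rw [Bool.not_eq_true', Bool.eq_false_iff]
    intro h1
    rw [Bool.and_eq_true, Bool.or_eq_true, decide_eq_true_eq, decide_eq_true_eq] at h1
    rcases h1.2 with h2 | h2
    · exact hd _ k5 h2.symm
    · refine hd' _ k5 ?_
      rw [h2, S.M.αα]
  · -- the requirements
    have h1 := k14 m hm
    rw [Bool.or_eq_true, Bool.or_eq_true] at h1
    rcases h1 with (h1 | h1) | h1
    · obtain ⟨i, hi, h2⟩ := nall h1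
      rw [Bool.and_eq_true] at h2
      obtain ⟨⟨d, d1, d2⟩, h3⟩ := E.rq i hi h2.1
      refine ⟨i, hi, h2.2, ?_⟩
      have h4 : u' d ≠ 0 := by
        simp only [u']
        rw [if_neg]
        · exact d2
        · rintro ⟨a1, a2⟩
          exact h3 a1 (S.sc.iseqv.trans a2 (S.sc.iseqv.symm d1))
      exact (hc'.req d h4).sc (S.sc.iseqv.symm d1)
    · obtain ⟨i, hi, h2⟩ := nall h1
      rw [Bool.and_eq_true, Bool.and_eq_true, Bool.and_eq_true, decide_eq_true_eq] at h2
      obtain ⟨⟨⟨h3, h4⟩, h5⟩, h6⟩ := h2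
      rcases hc'.lab (f i) (hlk i hi h3) with h7 | h7
      · exact ⟨i, hi, h5, h7⟩
      · refine ⟨F.P.α i, G.αlt i hi, h6, ?_⟩
        have h8 : (wU S u').M.α (f i) = f (F.P.α i) := E.e.hα i hi h4
        rwa [h8] at h7
    · obtain ⟨a, ha, h2⟩ := nall h1
      rw [allN_iff] at h2
      obtain ⟨d, hd1, hd2⟩ := hc'.live (g a) (E.hA a ha)
      obtain ⟨i, hi, rfl⟩ := E.hstar a ha d hd1
      refine ⟨i, hi, ?_, hd2⟩
      have h3 := h2 i hi
      rw [Bool.or_eq_true, decide_eq_true_eq] at h3
      rcases h3 with h3 | h3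
      · exfalso
        have h4 : g (F.P.l i) = g a := by rw [← E.e.hl i hi]; exact hd1
        exact nex a ha _ (k6 i hi) (Ne.symm h3) h4
      · exact h3
  · show (!m.testBit F.X.x) = true
    have h1 := hm F.X.x (by show F.X.x < F.X.x + F.X.k; omega)
    rw [h1, hcx, Bool.and_false]
    rfl

end Pool.FC7
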