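import Pool.Agent.FC6.SigA
import Pool.Agent.FC7.Gd

/-! # Maximum degree 6: the set sigma

`Rg S`: the real graph is simple and all its cuts have at least four edges.  `Sg S sg`: `sg` is an
inclusion-minimal set with at most five leaving edges (or everything); every cut which splits `sg`
into two parts with at least two vertices has at least six edges. -/

open Finset

namespace Pool.FC7

open Pool.FC6 Pool.FC6.St

variable {D V : Type} [Fintype D] [DecidableEq V]

/-- the hypotheses on the real graph -/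
structure Rg (S : St D V) : Prop extends Gd S where
  sim : ∀ d e, S.real d = true → S.real e = true → S.M.v d = S.M.v e →
    S.M.v (S.M.α d) = S.M.v (S.M.α e) → d = e
  cut4 : ∀ s : V → Bool, (∃ x ∈ S.A, s x = true) → (∃ y ∈ S.A, s y = false) → 4 ≤ S.rc s

/-- two vertices of `T` with `s = b` -/
def TwoIn (T : Finset V) (s : V → Bool) (b : Bool) : Prop :=
  ∃ x ∈ T, ∃ y ∈ T, x ≠ y ∧ s x = b ∧ s y = b

/-- the set `sg` of the sigma argument for maximum degree 6 -/
structure Sg (S : St D V) (sg : Finset V) : Prop where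
  sub : sg ⊆ S.A
  ne : sg.Nonempty
  inn : ∀ s : V → Bool, (∀ x ∈ S.A, s x = true → x ∈ sg) → (∃ x ∈ sg, s x = false) →
    S.Two s true → S.Two s false → 6 ≤ S.rc s
  cut6 : ∀ s : V → Bool, TwoIn sg s true → TwoIn sg s false → 6 ≤ S.rc s
  out : sg = S.A ∨ ((S.rc (ind sg) = 4 ∨ S.rc (ind sg) = 5) ∧ 4 ≤ sg.card ∧ S.Two (ind sg) false)

variable {S : St D V}

/-- the parity formula -/
theorem rc_xor (hr : ∀ d, S.real (S.M.α d) = S.real d) (s t : V → Bool) :
    ∃ e, S.rc s + S.rc t = S.rc (fun x => xor (s x) (t x)) + 2 * e ∧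
      e = ∑ d, if S.real d = true ∧ (s (S.M.v d) = true ∧ s (S.M.v (S.M.α d)) = false) ∧
        t (S.M.v d) ≠ t (S.M.v (S.M.α d)) then 1 else 0 := by
  classical
  refine ⟨_, ?_, rfl⟩
  -- twice the number of edges of a cut
  have key : ∀ u : V → Bool, 2 * S.rc u =
      ∑ d, if S.real d = true ∧ u (S.M.v d) ≠ u (S.M.v (S.M.α d)) then 1 else 0 := by
    intro u
    have h1 : S.rc u = ∑ d, if S.real d = true ∧ u (S.M.v (S.M.α d)) = true ∧
        u (S.M.v d) = false then 1 else 0 := by
      unfold rc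
      rw [← sum_α_nat S.M (fun d => if S.real d = true ∧ u (S.M.v d) = true ∧
        u (S.M.v (S.M.α d)) = false then 1 else 0)]
      refine Finset.sum_congr rfl fun d _ => ?_
      rw [S.M.αα, hr]
    have h2 : 2 * S.rc u = S.rc u + S.rc u := by ring
    rw [h2]
    nth_rewrite 2 [h1]
    unfold rc
    rw [← Finset.sum_add_distrib]
    refine Finset.sum_congr rfl fun d _ => ?_
    generalize u (S.M.v d) = a
    generalize u (S.M.v (S.M.α d)) = b
    cases S.real d <;> cases a <;> cases b <;> simp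
  have h3 : (∑ d, if S.real d = true ∧ s (S.M.v d) ≠ s (S.M.v (S.M.α d)) ∧
      t (S.M.v d) ≠ t (S.M.v (S.M.α d)) then 1 else 0) =
      2 * ∑ d, if S.real d = true ∧ (s (S.M.v d) = true ∧ s (S.M.v (S.M.α d)) = false) ∧
        t (S.M.v d) ≠ t (S.M.v (S.M.α d)) then 1 else 0 := by
    have h4 : (∑ d, if S.real d = true ∧ (s (S.M.v d) = true ∧ s (S.M.v (S.M.α d)) = false) ∧
        t (S.M.v d) ≠ t (S.M.v (S.M.α d)) then 1 else 0) =
        ∑ d, if S.real d = true ∧ (s (S.M.v (S.M.α d)) = true ∧ s (S.M.v d) = false) ∧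
        t (S.M.v d) ≠ t (S.M.v (S.M.α d)) then 1 else 0 := by
      rw [← sum_α_nat S.M (fun d => if S.real d = true ∧ (s (S.M.v d) = true ∧
        s (S.M.v (S.M.α d)) = false) ∧ t (S.M.v d) ≠ t (S.M.v (S.M.α d)) then 1 else 0)]
      refine Finset.sum_congr rfl fun d _ => ?_
      rw [S.M.αα, hr]
      generalize s (S.M.v d) = a
      generalize s (S.M.v (S.M.α d)) = b
      generalize t (S.M.v d) = a'
      generalize t (S.M.v (S.M.α d)) = b'
      cases S.real d <;> cases a <;> cases b <;> cases a' <;> cases b' <;> simp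
    rw [two_mul]
    nth_rewrite 2 [h4]
    rw [← Finset.sum_add_distrib]
    refine Finset.sum_congr rfl fun d _ => ?_
    generalize s (S.M.v d) = a
    generalize s (S.M.v (S.M.α d)) = b
    generalize t (S.M.v d) = a'
    generalize t (S.M.v (S.M.α d)) = b'
    cases S.real d <;> cases a <;> cases b <;> cases a' <;> cases b' <;> simp
  have k1 := key s
  have k2 := key t
  have k3 := key (fun x => xor (s x) (t x))
  have h5 : (∑ d, if S.real d = true ∧ s (S.M.v d) ≠ s (S.M.v (S.M.α d)) then 1 else 0) +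
      (∑ d, if S.real d = true ∧ t (S.M.v d) ≠ t (S.M.v (S.M.α d)) then 1 else 0) =
      (∑ d, if S.real d = true ∧ (fun x => xor (s x) (t x)) (S.M.v d) ≠
        (fun x => xor (s x) (t x)) (S.M.v (S.M.α d)) then 1 else 0) +
      2 * ∑ d, if S.real d = true ∧ s (S.M.v d) ≠ s (S.M.v (S.M.α d)) ∧
        t (S.M.v d) ≠ t (S.M.v (S.M.α d)) then 1 else 0 := by
    rw [two_mul, ← Finset.sum_add_distrib, ← Finset.sum_add_distrib, ← Finset.sum_add_distrib]
    refine Finset.sum_congr rfl fun d _ => ?_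
    beta_reduce
    generalize s (S.M.v d) = a
    generalize s (S.M.v (S.M.α d)) = b
    generalize t (S.M.v d) = a'
    generalize t (S.M.v (S.M.α d)) = b'
    cases S.real d <;> cases a <;> cases b <;> cases a' <;> cases b' <;> simp
  rw [← k1, ← k2, ← k3, h3] at h5
  omega

end Pool.FC7
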