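import Pool.Agent.FC7.SgA

/-! # Maximum degree 6: existence of the set sigma -/

open Finset

namespace Pool.FC7

open Pool.FC6 Pool.FC6.St

variable {D V : Type} [Fintype D] [DecidableEq V] {S : St D V}

theorem sum_rdeg_in (T : Finset V) : ∑ x ∈ T, S.rdeg x = S.rc (ind T) +
    (Finset.univ.filter fun d => S.real d = true ∧ S.M.v d ∈ T ∧ S.M.v (S.M.α d) ∈ T).card := by
  classical
  unfold rdeg rc
  rw [Finset.sum_comm, Finset.card_filter, ← Finset.sum_add_distrib]
  refine Finset.sum_congr rfl fun d _ => ?_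
  by_cases hd : S.real d = true
  · by_cases h1 : S.M.v d ∈ T
    · have h2 : (∑ x ∈ T, if S.M.v d = x ∧ S.real d = true then 1 else 0) = 1 := by
        rw [Finset.sum_eq_single (S.M.v d)]
        · simp [hd]
        · intro b _ hb
          rw [if_neg]
          exact fun hh => hb hh.1.symm
        · exact fun hh => absurd h1 hh
      by_cases h3 : S.M.v (S.M.α d) ∈ T
      · simp [hd, h1, h3, ind]
      · simp [hd, h1, h3, ind]
    · have h2 : (∑ x ∈ T, if S.M.v d = x ∧ S.real d = true then 1 else 0) = 0 := by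
        refine Finset.sum_eq_zero fun x hx => ?_
        rw [if_neg]
        rintro ⟨rfl, _⟩
        exact h1 hx
      simp [hd, h1, ind]
  · simp [hd]

theorem inner_card (h : Rg S) (T : Finset V) :
    (Finset.univ.filter fun d => S.real d = true ∧ S.M.v d ∈ T ∧ S.M.v (S.M.α d) ∈ T).card ≤
      T.card * T.card - T.card := by
  classical
  rw [← Finset.offDiag_card]
  refine Finset.card_le_card_of_injOn (fun d => (S.M.v d, S.M.v (S.M.α d))) ?_ ?_
  · intro d hd
    simp only [Finset.coe_filter, Finset.mem_univ, true_and, Set.mem_setOf_eq] at hd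
    simp only [Finset.coe_offDiag, Set.mem_offDiag, Finset.mem_coe]
    exact ⟨hd.2.1, hd.2.2, h.real_ne d hd.1⟩
  · intro d hd e he hde
    simp only [Finset.coe_filter, Finset.mem_univ, true_and, Set.mem_setOf_eq] at hd he
    simp only [Prod.mk.injEq] at hde
    exact h.sim d e hd.1 he.1 hde.1 hde.2

/-- all degrees are at least four if there are two vertices -/
theorem Rg.deg4 (h : Rg S) {x : V} (hx : x ∈ S.A) (hy : ∃ y ∈ S.A, y ≠ x) : 4 ≤ S.rdeg x := by
  classical
  have h1 := sum_rdeg_in (S := S) {x}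
  rw [Finset.sum_singleton] at h1
  obtain ⟨y, hy, hyx⟩ := hy
  have h2 : 4 ≤ S.rc (ind {x}) := h.cut4 _ ⟨x, hx, ind_true.2 (by simp)⟩
    ⟨y, hy, ind_false.2 (by simp [hyx])⟩
  omega

/-- small sets have many leaving edges -/
theorem Rg.small (h : Rg S) {T : Finset V} (hT : T ⊆ S.A) (h2 : 2 ≤ T.card) (h3 : T.card ≤ 3) :
    6 ≤ S.rc (ind T) := by
  classical
  have h1 := sum_rdeg_in (S := S) T
  have h4 := inner_card h T
  have h5 : 4 * T.card ≤ ∑ x ∈ T, S.rdeg x := by
    rw [mul_comm, ← smul_eq_mul]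
    refine Finset.card_nsmul_le_sum _ _ _ fun x hx => ?_
    refine h.deg4 (hT hx) ?_
    obtain ⟨a, ha, b, hb, hab⟩ := Finset.one_lt_card.1 (by omega : 1 < T.card)
    by_cases e : a = x
    · exact ⟨b, hT hb, fun e' => hab (e.trans e'.symm)⟩
    · exact ⟨a, hT ha, e⟩
  have h6 : T.card = 2 ∨ T.card = 3 := by omega
  rcases h6 with h6 | h6 <;> rw [h6] at h4 h5 <;> omega

/-- the set sigma -/
theorem exists_sg (h : Rg S) : ∃ sg : Finset V, Sg S sg := by
  classical
  have hr := h.real_α
  let Fam : Finset (Finset V) := S.A.powerset.filter fun T =>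
    S.rc (ind T) ≤ 5 ∧ 2 ≤ T.card ∧ S.Two (ind T) false
  have mem : ∀ s : V → Bool, S.rc s ≤ 5 → S.Two s true → S.Two s false →
      (S.A.filter fun x => s x = true) ∈ Fam := by
    intro s k4 k1 k2
    have e1 : ∀ x ∈ S.A, ind (S.A.filter fun x => s x = true) x = s x := by
      intro x hx
      cases hs : s x
      · exact ind_false.2 (by simp [hs])
      · exact ind_true.2 (by simp [hs, hx])
    simp only [Fam, Finset.mem_filter, Finset.mem_powerset]
    refine ⟨fun x hx => (Finset.mem_filter.1 hx).1, ?_, ?_, ?_⟩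
    · rw [rc_congr h.real_A hr e1]; exact k4
    · obtain ⟨x, hx, z, hz, hxz, hx', hz'⟩ := k1
      exact Finset.one_lt_card.2 ⟨x, by simp [hx, hx'], z, by simp [hz, hz'], hxz⟩
    · obtain ⟨x, hx, z, hz, hxz, hx', hz'⟩ := k2
      exact ⟨x, hx, z, hz, hxz, by rw [e1 x hx, hx'], by rw [e1 z hz, hz']⟩
  by_cases hF : Fam.Nonempty
  · obtain ⟨sg, hsg, hmin⟩ := Finset.exists_min_image Fam Finset.card hF
    simp only [Fam, Finset.mem_filter, Finset.mem_powerset] at hsg
    obtain ⟨hsub, h5, h2, hout⟩ := hsg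
    have inn : ∀ s : V → Bool, (∀ x ∈ S.A, s x = true → x ∈ sg) → (∃ x ∈ sg, s x = false) →
        S.Two s true → S.Two s false → 6 ≤ S.rc s := by
      intro s k1 k2 k3 k4
      by_contra hc
      have hm := hmin _ (mem s (by omega) k3 k4)
      obtain ⟨y, hy, hy'⟩ := k2
      have hlt : (S.A.filter fun x => s x = true).card < sg.card := by
        refine Finset.card_lt_card ⟨fun x hx => ?_, fun hh => ?_⟩
        · rw [Finset.mem_filter] at hx
          exact k1 x hx.1 hx.2
        · have := hh hy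
          simp [hy'] at this
      omega
    obtain ⟨o, ho, o2, ho2, hoo, ho', ho2'⟩ := id hout
    have k4 : 4 ≤ S.rc (ind sg) := by
      obtain ⟨x, hx⟩ := Finset.card_pos.1 (lt_of_lt_of_le (by omega : 0 < 2) h2)
      exact h.cut4 _ ⟨x, hsub hx, ind_true.2 hx⟩ ⟨o, ho, ho'⟩
    refine ⟨sg, hsub, Finset.card_pos.1 (by omega), inn, ?_, Or.inr ⟨by omega, ?_, hout⟩⟩
    · intro s a1 a2
      obtain ⟨x, hx, x2, hx2, hxx, hx', hx2'⟩ := a1
      obtain ⟨y, hy, y2, hy2, hyy, hy', hy2'⟩ := a2
      by_contra hc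
      have hc : S.rc s ≤ 5 := by omega
      have ha : 6 ≤ S.rc (fun p => s p && ind sg p) := by
        refine inn _ (fun p _ hp => ?_) ⟨y, hy, by simp [hy']⟩
          ⟨x, hsub hx, x2, hsub hx2, hxx, by simp [hx', ind_true.2 hx], by simp [hx2', ind_true.2 hx2]⟩
          ⟨y, hsub hy, y2, hsub hy2, hyy, by simp [hy'], by simp [hy2']⟩
        simp only [Bool.and_eq_true] at hp
        exact ind_true.1 hp.2
      have hb : 6 ≤ S.rc (fun p => ind sg p && !s p) := by
        refine inn _ (fun p _ hp => ?_) ⟨x, hx, by simp [hx']⟩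
          ⟨y, hsub hy, y2, hsub hy2, hyy, by simp [hy', ind_true.2 hy], by simp [hy2', ind_true.2 hy2]⟩
          ⟨x, hsub hx, x2, hsub hx2, hxx, by simp [hx'], by simp [hx2']⟩
        simp only [Bool.and_eq_true] at hp
        exact ind_true.1 hp.1
      by_cases hz : ∃ z ∈ S.A, s z = false ∧ z ∉ sg
      · obtain ⟨z, hz, hz', hzs⟩ := hz
        have b3 : 4 ≤ S.rc (fun p => s p || ind sg p) :=
          h.cut4 _ ⟨x, hsub hx, by simp [hx']⟩ ⟨z, hz, by simp [hz', ind_false.2 hzs]⟩
        by_cases hw : ∃ w ∈ S.A, s w = true ∧ w ∉ sg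
        · obtain ⟨w, hw, hw', hws⟩ := hw
          have c2 : 4 ≤ S.rc (fun p => s p && !ind sg p) :=
            h.cut4 _ ⟨w, hw, by simp [hw', ind_false.2 hws]⟩ ⟨z, hz, by simp [hz']⟩
          have b1 := rc_sub (S := S) s (ind sg)
          have c1 := rc_sub' hr s (ind sg)
          have e3 : S.rc (fun p => !(s p || ind sg p)) = S.rc (fun p => s p || ind sg p) := rc_neg hr _
          obtain ⟨e, he, _⟩ := rc_xor hr (fun p => !(s p || ind sg p)) (fun p => s p && !ind sg p)
          have e4 : S.rc (fun p => xor ((fun p => !(s p || ind sg p)) p)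
              ((fun p => s p && !ind sg p) p)) = S.rc (ind sg) := by
            rw [← rc_neg hr (ind sg)]
            congr 1
            funext p
            beta_reduce
            cases s p <;> cases ind sg p <;> rfl
          rw [e4, e3] at he
          omega
        · push Not at hw
          have := inn s (fun p hp hp' => hw p hp hp') ⟨y, hy, hy'⟩
            ⟨x, hsub hx, x2, hsub hx2, hxx, hx', hx2'⟩ ⟨y, hsub hy, y2, hsub hy2, hyy, hy', hy2'⟩
          omega
      · push Not at hz
        have := inn (fun p => !s p) (fun p hp hp' => hz p hp (by simpa using hp'))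
          ⟨x, hx, by simp [hx']⟩
          ⟨y, hsub hy, y2, hsub hy2, hyy, by simp [hy'], by simp [hy2']⟩
          ⟨x, hsub hx, x2, hsub hx2, hxx, by simp [hx'], by simp [hx2']⟩
        rw [rc_neg hr] at this
        omega
    · by_contra hc
      have := h.small hsub h2 (by omega)
      omega
  · have key : ∀ s : V → Bool, S.Two s true → S.Two s false → 6 ≤ S.rc s := by
      intro s a1 a2
      by_contra hc
      exact hF ⟨_, mem s (by omega) a1 a2⟩
    refine ⟨S.A, Finset.Subset.refl _, h.ne, fun s _ _ a1 a2 => key s a1 a2, ?_, Or.inl rfl⟩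
    rintro s ⟨x, hx, x2, hx2, hxx, hx', hx2'⟩ ⟨y, hy, y2, hy2, hyy, hy', hy2'⟩
    exact key s ⟨x, hx, x2, hx2, hxx, hx', hx2'⟩ ⟨y, hy, y2, hy2, hyy, hy', hy2'⟩

end Pool.FC7
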