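import Pool.Agent.FC6.SigD
import Pool.Agent.FC7.SgC

/-! # Euler's formula on the set sigma, maximum degree 6 -/

open Finset

namespace Pool.FC7

open Pool.FC6 Pool.FC6.St

variable {D V : Type} [Fintype D] [DecidableEq V] {S : St D V}

/-- the outside of `sg` is connected -/
theorem Sg.con (h : Rg S) {sg : Finset V} (h4 : S.rc (ind sg) ≤ 7) (hne : sg.Nonempty)
    (hsub : sg ⊆ S.A) {X : Type} (K : V → X)
    (hK : ∀ d, S.real d = true → S.M.v d ∉ sg → S.M.v (S.M.α d) ∉ sg →
      K (S.M.v (S.M.α d)) = K (S.M.v d)) {x y : V} (hx : x ∈ S.A) (hx' : x ∉ sg)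
    (hy : y ∈ S.A) (hy' : y ∉ sg) : K x = K y := by
  classical
  by_contra hxy
  obtain ⟨z, hz⟩ := hne
  have a1 := h.cut4 (fun w => decide (w ∉ sg ∧ K w = K x)) ⟨x, hx, by simp [hx']⟩
    ⟨z, hsub hz, by simp [hz]⟩
  have a2 := h.cut4 (fun w => decide (w ∉ sg ∧ ¬ K w = K x)) ⟨y, hy, by
    simp only [decide_eq_true_eq]; exact ⟨hy', fun e => hxy e.symm⟩⟩ ⟨z, hsub hz, by simp [hz]⟩
  have a3 : S.rc (fun w => decide (w ∉ sg ∧ K w = K x)) +
      S.rc (fun w => decide (w ∉ sg ∧ ¬ K w = K x)) ≤ S.rc (fun w => !ind sg w) := by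
    unfold rc
    rw [← Finset.sum_add_distrib]
    refine Finset.sum_le_sum fun d _ => ?_
    by_cases hd : S.real d = true
    · have := hK d hd
      simp only [hd, true_and]
      generalize S.M.v d = p at *
      generalize S.M.v (S.M.α d) = q at *
      by_cases h1 : p ∈ sg
      · simp [h1]
      · by_cases h2 : q ∈ sg
        · have e1 : ind sg p = false := ind_false.2 h1
          have e2 : ind sg q = true := ind_true.2 h2
          by_cases h3 : K p = K x <;> simp [h1, h2, h3, e1, e2]
        · have h5 := this h1 h2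
          have e1 : ind sg p = false := ind_false.2 h1
          have e2 : ind sg q = false := ind_false.2 h2
          by_cases h3 : K p = K x <;> simp [h1, h2, h3, h5, e1, e2]
    · simp [hd]
  rw [rc_neg h.real_α] at a3
  omega

open Classical in
theorem Sg.euler_out (h : Rg S) {sg : Finset V} (h4 : S.rc (ind sg) ≤ 7)
    (hne : sg.Nonempty) (hsub : sg ⊆ S.A) (hout : ∃ x ∈ S.A, x ∉ sg) [Fintype (Quotient S.sc)] :
    2 * (S.A \ sg).card + 2 * (Finset.univ.filter fun q : Quotient S.sc => S.Po sg q).card ≤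
      (Finset.univ.filter fun d => S.real d = true ∧ S.M.v d ∉ sg ∧ S.M.v (S.M.α d) ∉ sg).card
        + 2 := by
  have h40 := h4
  obtain ⟨x0, hx0, hx0'⟩ := hout
  let T := S.outSt sg
  have hra := h.real_α
  have hrT : ∀ d, T.real (T.M.α d) = T.real d := by
    intro d
    show (S.real (S.M.α d) && decide (S.M.v (S.M.α d) ∉ sg) &&
      decide (S.M.v (S.M.α (S.M.α d)) ∉ sg)) =
      (S.real d && decide (S.M.v d ∉ sg) && decide (S.M.v (S.M.α d) ∉ sg))
    rw [S.M.αα, hra, Bool.and_assoc, Bool.and_assoc, Bool.and_comm (decide (S.M.v d ∉ sg))]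
  let exf : ({x // x ∈ S.A \ sg} → ℝ) → V → ℝ := fun f x => if hx : x ∈ S.A \ sg then f ⟨x, hx⟩
    else 0
  let exg : ({q : Quotient S.sc // q ∈ Finset.univ.filter fun q => S.Po sg q} → ℝ) →
    Quotient S.sc → ℝ := fun g q => if hq : q ∈ Finset.univ.filter fun q => S.Po sg q then
      g ⟨q, hq⟩ else 0
  have hx00 : x0 ∈ S.A \ sg := Finset.mem_sdiff.2 ⟨hx0, hx0'⟩
  let L : (({x // x ∈ S.A \ sg} → ℝ) ×
      ({q : Quotient S.sc // q ∈ Finset.univ.filter fun q => S.Po sg q} → ℝ)) →ₗ[ℝ]
      (T.Wm × ℝ) :=
    { toFun := fun x => (⟨fun d => if T.real d = true then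
        (exf x.1 (S.M.v (S.M.α d)) - exf x.1 (S.M.v d)) +
        (exg x.2 (Quotient.mk S.sc d) - exg x.2 (Quotient.mk S.sc (S.M.α d))) else 0, by
          refine ⟨fun d => ?_, fun d hd => ?_⟩
          · show (if T.real (T.M.α d) = true then
              (exf x.1 (S.M.v (S.M.α (S.M.α d))) - exf x.1 (S.M.v (S.M.α d))) +
              (exg x.2 (Quotient.mk S.sc (S.M.α d)) -
                exg x.2 (Quotient.mk S.sc (S.M.α (S.M.α d)))) else 0) =
              - (if T.real d = true then
              (exf x.1 (S.M.v (S.M.α d)) - exf x.1 (S.M.v d)) +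
              (exg x.2 (Quotient.mk S.sc d) - exg x.2 (Quotient.mk S.sc (S.M.α d))) else 0)
            rw [hrT, S.M.αα]
            by_cases hd : T.real d = true
            · rw [if_pos hd, if_pos hd]; ring
            · rw [if_neg hd, if_neg hd]; ring
          · simp [hd]⟩, x.1 ⟨x0, hx00⟩)
      map_add' := fun x y => by
        refine Prod.ext (Subtype.ext (funext fun d => ?_)) rfl
        simp only [exf, exg, Prod.fst_add, Prod.snd_add, Pi.add_apply, Submodule.coe_add]
        split_ifs <;> ring
      map_smul' := fun c x => by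
        refine Prod.ext (Subtype.ext (funext fun d => ?_)) rfl
        simp only [exf, exg, Prod.smul_fst, Prod.smul_snd, Pi.smul_apply, smul_eq_mul,
          RingHom.id_apply, SetLike.val_smul]
        split_ifs <;> ring }
  have hinj : Function.Injective L := by
    rw [← LinearMap.ker_eq_bot, LinearMap.ker_eq_bot']
    rintro ⟨f, g⟩ h0
    have h1 : ∀ d, T.real d = true → (exf f (S.M.v (S.M.α d)) - exf f (S.M.v d)) +
        (exg g (Quotient.mk S.sc d) - exg g (Quotient.mk S.sc (S.M.α d))) = 0 := by
      intro d hd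
      have := congrArg (fun x : T.Wm × ℝ => x.1.1 d) h0
      have h2 : (if T.real d = true then
        (exf f (S.M.v (S.M.α d)) - exf f (S.M.v d)) +
        (exg g (Quotient.mk S.sc d) - exg g (Quotient.mk S.sc (S.M.α d))) else 0) = 0 := this
      rwa [if_pos hd] at h2
    have h2 : f ⟨x0, hx00⟩ = 0 := congrArg (fun x : T.Wm × ℝ => x.2) h0
    let h' : D → ℝ := fun d => exg g (Quotient.mk S.sc d)
    have hφ : ∀ d, h' (S.M.φ d) = h' d := fun d => by simp only [h', sc_φ]
    have hz : ∀ d, S.real d = true → S.M.v d ∈ sg → h' d = 0 := by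
      intro d hd hv
      show exg g (Quotient.mk S.sc d) = 0
      simp only [exg]
      rw [dif_neg]
      intro hq
      exact (Finset.mem_filter.1 hq).2 d hd rfl hv
    have hz' : ∀ d, S.real d = true → S.M.v d ∈ sg → h' (S.M.α d) = 0 := by
      intro d hd hv
      have hvA := h.real_A d hd
      have e1 : Quotient.mk S.sc (S.nx d) = Quotient.mk S.sc (S.M.α d) :=
        cl_nx h.full cl_mk hvA
      have e2 := hz (S.nx d) (real_nx h.full hvA) (by rw [v_nx]; exact hv)
      show exg g (Quotient.mk S.sc (S.M.α d)) = 0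
      rw [← e1]; exact e2
    have hv : ∀ d, T.real d = false → h' d - h' (S.M.α d) = 0 := by
      intro d hd
      by_cases hd2 : S.real d = true
      · have h3 := outSt_real_f hd
        by_cases h4 : S.M.v d ∈ sg
        · rw [hz d hd2 h4, hz' d hd2 h4, sub_self]
        · have h5 : S.M.v (S.M.α d) ∈ sg := by
            by_contra h5
            exact h3 ⟨hd2, h4, h5⟩
          have h6 : S.real (S.M.α d) = true := by rw [hra, hd2]
          have h7 := hz' _ h6 h5
          rw [S.M.αα] at h7
          rw [hz _ h6 h5, h7, sub_self]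
      · simp only [h', sc_α (by simpa using hd2 : S.real d = false), sub_self]
    have h4 := S.M.orth (exf f) h' hφ
    have h6 : ∑ d, (h' d - h' (S.M.α d)) ^ 2 = 0 := by
      rw [← neg_eq_zero, ← Finset.sum_neg_distrib, ← h4]
      refine Finset.sum_congr rfl fun d _ => ?_
      by_cases hd : T.real d = true
      · have h5 := h1 d hd
        have : exf f (S.M.v (S.M.α d)) - exf f (S.M.v d) = - (h' d - h' (S.M.α d)) := by
          simp only [h']; linarith
        rw [this]; ring
      · rw [hv d (by simpa using hd)]; ring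
    have h7 : ∀ d, h' d - h' (S.M.α d) = 0 := by
      intro d
      have := (Finset.sum_eq_zero_iff_of_nonneg (fun d _ => sq_nonneg _)).1 h6 d
        (Finset.mem_univ _)
      exact pow_eq_zero_iff (two_ne_zero) |>.1 this
    obtain ⟨z, hz0⟩ := hne
    obtain ⟨a0, ha0, ha0'⟩ : ∃ a, S.real a = true ∧ S.M.v a = z := by
      obtain ⟨d, hd⟩ := h.A_im z (hsub hz0)
      obtain ⟨e, he, he'⟩ := h.full d (by rw [hd]; exact hsub hz0)
      exact ⟨e, he', he.trans hd⟩
    have h8 : ∀ d, h' d = 0 := fun d => by
      rw [S.M.conn h' hφ (fun d => by linarith [h7 d]) d a0]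
      exact hz a0 ha0 (by rw [ha0']; exact hz0)
    have h9 : ∀ x ∈ S.A, x ∉ sg → exf f x = exf f x0 := fun x hx hx' =>
      Sg.con h h40 ⟨z, hz0⟩ hsub (exf f) (fun d hd e1 e2 => by
        have a := h1 d (outSt_real.2 ⟨hd, e1, e2⟩)
        have b := h7 d
        simp only [h'] at b
        linarith) hx hx' hx0 hx0'
    have e0 : exf f x0 = 0 := by
      simp only [exf]; rw [dif_pos hx00, h2]
    refine Prod.ext (funext ?_) (funext ?_)
    · rintro ⟨x, hx⟩
      have := h9 x (Finset.mem_sdiff.1 hx).1 (Finset.mem_sdiff.1 hx).2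
      rw [e0] at this
      simp only [exf] at this
      rw [dif_pos hx] at this
      exact this
    · rintro ⟨q, hq⟩
      induction q using Quotient.inductionOn with
      | h d =>
        have := h8 d
        simp only [h', exg] at this
        rw [dif_pos hq] at this
        exact this
  have hle := LinearMap.finrank_le_finrank_of_injective hinj
  rw [Module.finrank_prod, Module.finrank_prod, Module.finrank_self,
    Module.finrank_fintype_fun_eq_card, Module.finrank_fintype_fun_eq_card, Fintype.card_coe,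
    Fintype.card_coe] at hle
  have hW := finrank_Wm hrT
  have hc : (Finset.univ.filter fun d => T.real d = true) =
      Finset.univ.filter fun d => S.real d = true ∧ S.M.v d ∉ sg ∧ S.M.v (S.M.α d) ∉ sg := by
    ext d
    simp only [Finset.mem_filter, Finset.mem_univ, true_and]
    exact outSt_real
  rw [hc] at hW
  omega

end Pool.FC7
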