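import Pool.Agent.FC7.SgD

/-! # The charge inequality on the set sigma, maximum degree 6 -/

open Finset

namespace Pool.FC7

open Pool.FC6 Pool.FC6.St

variable {D V : Type} [Fintype D] [DecidableEq V] {S : St D V}

theorem Gd.mk_B (h : Gd S) {d : D} (hd : S.real d = true) :
    Quotient.mk S.sc (S.B d) = Quotient.mk S.sc d := by
  have hA : S.M.v (S.M.α d) ∈ S.A := h.real_A _ (by rw [h.real_α, hd])
  have := cl_nx h.full (cl_mk (S := S)) hA
  rw [S.M.αα] at this
  exact this

theorem Gd.B_real (h : Gd S) {d : D} (hd : S.real d = true) : S.real (S.B d) = true :=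
  real_nx h.full (h.real_A _ (by rw [h.real_α, hd]))

theorem Gd.sum_B (h : Gd S) (F : D → ℝ) :
    ∑ d, (if S.real d = true then F (S.B d) else 0) = ∑ d, if S.real d = true then F d else 0 := by
  rw [← h.sum_nx F, ← S.M.sum_α (fun d => if S.real d = true then F (S.nx d) else 0)]
  refine Finset.sum_congr rfl fun d _ => ?_
  rw [h.real_α]
  rfl

/-- a face with corners on both sides has a real dart leaving `sg` -/
theorem Gd.exists_leave (h : Gd S) {sg : Finset V} {q : Quotient S.sc}
    (h1 : ∃ d, S.real d = true ∧ Quotient.mk S.sc d = q ∧ S.M.v d ∈ sg)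
    (h2 : ∃ d, S.real d = true ∧ Quotient.mk S.sc d = q ∧ S.M.v d ∉ sg) :
    ∃ d, S.real d = true ∧ Quotient.mk S.sc d = q ∧ S.M.v d ∈ sg ∧ S.M.v (S.M.α d) ∉ sg := by
  classical
  by_contra hc
  push Not at hc
  let b : D → ℝ := fun d => if Quotient.mk S.sc d = q ∧ S.M.v d ∈ sg then 1 else 0
  have hle : ∀ d, S.real d = true → b d ≤ b (S.B d) := by
    intro d hd
    simp only [b, h.mk_B hd, v_B]
    by_cases hq : Quotient.mk S.sc d = q
    · by_cases hv : S.M.v d ∈ sg
      · have := hc d hd hq hv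
        simp [hq, hv, this]
      · rw [if_neg (by simp [hv])]
        split_ifs <;> simp
    · simp [hq]
  have hsum : ∑ d, ((if S.real d = true then b (S.B d) else 0) -
      (if S.real d = true then b d else 0)) = 0 := by
    rw [Finset.sum_sub_distrib, h.sum_B, sub_self]
  have heq : ∀ d, S.real d = true → b (S.B d) = b d := by
    intro d hd
    have := (Finset.sum_eq_zero_iff_of_nonneg (fun d _ => by
      by_cases hd : S.real d = true
      · rw [if_pos hd, if_pos hd]; linarith [hle d hd]
      · rw [if_neg hd, if_neg hd]; simp)).1 hsum d (Finset.mem_univ _)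
    rw [if_pos hd, if_pos hd] at this
    linarith
  obtain ⟨H, hH, hHb⟩ := h.bcon b heq
  obtain ⟨d1, r1, q1, v1⟩ := h1
  obtain ⟨d2, r2, q2, v2⟩ := h2
  have e1 : H d1 = H d2 := cl_sc hH (Quotient.exact (q1.trans q2.symm))
  rw [hHb d1 r1, hHb d2 r2] at e1
  simp [b, q1, v1, q2, v2] at e1

open Classical in
/-- the sum of `1 / length` over the corners of some faces is the number of these faces -/
theorem Gd.sum_inv (h : Gd S) [Fintype (Quotient S.sc)] (P : Quotient S.sc → Prop) :
    ∑ d, (if S.real d = true ∧ P (Quotient.mk S.sc d) then (1 : ℝ) / S.csz d else 0) =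
      (Finset.univ.filter fun q => P q).card := by
  rw [← Finset.sum_filter, ← Finset.sum_fiberwise_of_maps_to
    (t := Finset.univ.filter fun q => P q) (g := fun d => Quotient.mk S.sc d)
    (fun d hd => by
      simp only [Finset.mem_filter, Finset.mem_univ, true_and] at hd ⊢
      exact hd.2)]
  rw [Finset.sum_congr rfl (g := fun _ => (1 : ℝ)) ?_]
  · simp
  · intro q hq
    simp only [Finset.mem_filter, Finset.mem_univ, true_and] at hq
    obtain ⟨d0, rfl⟩ := Quotient.exists_rep q
    obtain ⟨a, ha, hq2⟩ := h.class_real d0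
    change P (Quotient.mk S.sc d0) at hq
    have e1 : ((Finset.univ.filter fun d => S.real d = true ∧ P (Quotient.mk S.sc d)).filter
        fun d => Quotient.mk S.sc d = Quotient.mk S.sc d0) =
        Finset.univ.filter fun e => S.real e = true ∧
          Quotient.mk S.sc e = Quotient.mk S.sc a := by
      ext e
      simp only [Finset.mem_filter, Finset.mem_univ, true_and, hq2]
      constructor
      · rintro ⟨⟨h1, _⟩, h3⟩; exact ⟨h1, h3⟩
      · rintro ⟨h1, h3⟩; exact ⟨⟨h1, by rw [h3]; exact hq⟩, h3⟩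
    have e2 : ∀ e ∈ Finset.univ.filter fun e => S.real e = true ∧
          Quotient.mk S.sc e = Quotient.mk S.sc a, (1 : ℝ) / S.csz e = 1 / S.csz a := by
      intro e he
      simp only [Finset.mem_filter, Finset.mem_univ, true_and] at he
      rw [csz_card e, csz_card a, he.2]
    show ∑ d ∈ ((Finset.univ.filter fun d => S.real d = true ∧ P (Quotient.mk S.sc d)).filter
        fun d => Quotient.mk S.sc d = Quotient.mk S.sc d0), (1 : ℝ) / S.csz d = 1
    rw [e1, Finset.sum_congr rfl e2, Finset.sum_const, ← csz_card a, nsmul_eq_mul]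
    have : (S.csz a : ℝ) ≠ 0 := by
      rw [csz_card]
      have : 0 < (Finset.univ.filter fun e => S.real e = true ∧
          Quotient.mk S.sc e = Quotient.mk S.sc a).card :=
        Finset.card_pos.2 ⟨a, by simp [ha]⟩
      exact_mod_cast this.ne'
    field_simp

open Classical in
/-- Euler's formula on sigma: the charge of sigma -/
theorem Sg.charge (h : Rg S) {sg : Finset V} {k : ℕ} (h4 : S.rc (ind sg) = k) (hk : k ≤ 7)
    (hne : sg.Nonempty) (hsub : sg ⊆ S.A) (hout : ∃ x ∈ S.A, x ∉ sg) :
    6 - 3 * (k : ℝ) +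
      2 * ((Finset.univ.filter fun d => S.real d = true ∧ S.M.v d ∈ sg ∧ S.Ou sg d).card : ℝ) ≤
      ∑ x ∈ sg, (6 - (S.rdeg x : ℝ)) +
      ∑ d, (if S.real d = true ∧ S.M.v d ∈ sg ∧ ¬ S.Ou sg d then 6 / (S.csz d : ℝ) - 2 else 0) := by
  let _ : Fintype (Quotient S.sc) := Fintype.ofFinite _
  have hra := h.real_α
  have E := h.euler
  have Eo := Sg.euler_out h (h4.trans_le hk) hne hsub hout
  -- the darts
  let R : Finset D := Finset.univ.filter fun d => S.real d = true
  let Rs : Finset D := Finset.univ.filter fun d => S.real d = true ∧ S.M.v d ∈ sg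
  let Rss : Finset D := Finset.univ.filter fun d => S.real d = true ∧ S.M.v d ∈ sg ∧
    S.M.v (S.M.α d) ∈ sg
  let Rst : Finset D := Finset.univ.filter fun d => S.real d = true ∧ S.M.v d ∈ sg ∧
    S.M.v (S.M.α d) ∉ sg
  let Rts : Finset D := Finset.univ.filter fun d => S.real d = true ∧ S.M.v d ∉ sg ∧
    S.M.v (S.M.α d) ∈ sg
  let Rtt : Finset D := Finset.univ.filter fun d => S.real d = true ∧ S.M.v d ∉ sg ∧
    S.M.v (S.M.α d) ∉ sg
  let O : Finset D := Finset.univ.filter fun d => S.real d = true ∧ S.M.v d ∈ sg ∧ S.Ou sg d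
  let I : Finset D := Finset.univ.filter fun d => S.real d = true ∧ S.M.v d ∈ sg ∧ ¬ S.Ou sg d
  have c1 : R.card = Rss.card + Rst.card + Rts.card + Rtt.card := by
    simp only [R, Rss, Rst, Rts, Rtt, Finset.card_filter]
    rw [← Finset.sum_add_distrib, ← Finset.sum_add_distrib, ← Finset.sum_add_distrib]
    refine Finset.sum_congr rfl fun d _ => ?_
    by_cases a1 : S.real d = true <;> by_cases a2 : S.M.v d ∈ sg <;>
      by_cases a3 : S.M.v (S.M.α d) ∈ sg <;> simp [a1, a2, a3]
  have c2 : Rst.card = k := by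
    rw [← h4]
    simp only [Rst, Finset.card_filter]
    unfold rc
    refine Finset.sum_congr rfl fun d _ => ?_
    simp only [ind_true, ind_false]
  have c3 : Rts.card = k := by
    rw [← c2]
    simp only [Rst, Rts, Finset.card_filter]
    rw [← sum_α_nat S.M (fun d => if S.real d = true ∧ S.M.v d ∈ sg ∧ S.M.v (S.M.α d) ∉ sg
      then 1 else 0)]
    refine Finset.sum_congr rfl fun d _ => ?_
    rw [hra, S.M.αα]
    by_cases a1 : S.real d = true <;> by_cases a2 : S.M.v d ∈ sg <;>
      by_cases a3 : S.M.v (S.M.α d) ∈ sg <;> simp [a1, a2, a3]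
  have c4 : Rs.card = Rss.card + Rst.card := by
    simp only [Rs, Rss, Rst, Finset.card_filter]
    rw [← Finset.sum_add_distrib]
    refine Finset.sum_congr rfl fun d _ => ?_
    by_cases a1 : S.real d = true <;> by_cases a2 : S.M.v d ∈ sg <;>
      by_cases a3 : S.M.v (S.M.α d) ∈ sg <;> simp [a1, a2, a3]
  have c5 : Rs.card = O.card + I.card := by
    simp only [Rs, O, I, Finset.card_filter]
    rw [← Finset.sum_add_distrib]
    refine Finset.sum_congr rfl fun d _ => ?_
    by_cases a1 : S.real d = true <;> by_cases a2 : S.M.v d ∈ sg <;>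
      by_cases a3 : S.Ou sg d <;> simp [a1, a2, a3]
  -- the faces
  let Qs : Finset (Quotient S.sc) := Finset.univ.filter fun q => S.Pin sg q
  let Qo : Finset (Quotient S.sc) := Finset.univ.filter fun q => S.Po sg q
  have f1 : Fintype.card (Quotient S.sc) ≤ Qs.card + Qo.card +
      (Rst.image fun d => Quotient.mk S.sc d).card := by
    rw [← Finset.card_univ]
    refine le_trans (Finset.card_le_card (t := Qs ∪ Qo ∪ Rst.image fun d => Quotient.mk S.sc d) ?_)
      (le_trans (Finset.card_union_le _ _) (Nat.add_le_add_right (Finset.card_union_le _ _) _))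
    intro q _
    by_cases a1 : q ∈ Qs
    · exact Finset.mem_union_left _ (Finset.mem_union_left _ a1)
    by_cases a2 : q ∈ Qo
    · exact Finset.mem_union_left _ (Finset.mem_union_right _ a2)
    refine Finset.mem_union_right _ ?_
    simp only [Qs, Qo, Finset.mem_filter, Finset.mem_univ, true_and, Po, Pin] at a1 a2
    push Not at a1 a2
    obtain ⟨d, d1, d2, d3, d4⟩ := h.toGd.exists_leave a2 a1
    exact Finset.mem_image.2 ⟨d, by simp [Rst, d1, d3, d4], d2⟩
  have f2 : (Rst.image fun d => Quotient.mk S.sc d).card ≤ k := by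
    rw [← c2]; exact Finset.card_image_le
  have a1 : S.A.card = sg.card + (S.A \ sg).card := by
    rw [Finset.card_sdiff_of_subset hsub]
    have := Finset.card_le_card hsub
    omega
  -- the sum over the inner corners
  have hI : ∀ d, (S.real d = true ∧ S.M.v d ∈ sg ∧ ¬ S.Ou sg d) ↔ (S.real d = true ∧
      S.Pin sg (Quotient.mk S.sc d)) := by
    intro d
    constructor
    · rintro ⟨r, _, o⟩
      refine ⟨r, fun e he hq => ?_⟩
      by_contra hv
      exact o ⟨e, he, Quotient.exact hq.symm, hv⟩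
    · rintro ⟨r, hh⟩
      refine ⟨r, hh d r rfl, ?_⟩
      rintro ⟨e, he, hs, hv⟩
      exact hv (hh e he (Quotient.sound hs).symm)
  have s1 := h.toGd.sum_inv (S.Pin sg)
  have s2 : ∑ d, (if S.real d = true ∧ S.M.v d ∈ sg ∧ ¬ S.Ou sg d then 6 / (S.csz d : ℝ) - 2
      else 0) = 6 * (Qs.card : ℝ) - 2 * (I.card : ℝ) := by
    have e1 : (I.card : ℝ) = ∑ d, if S.real d = true ∧ S.M.v d ∈ sg ∧ ¬ S.Ou sg d then (1 : ℝ)
        else 0 := by
      simp [I]
    rw [e1, show (Qs.card : ℝ) = _ from s1.symm, Finset.mul_sum, Finset.mul_sum,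
      ← Finset.sum_sub_distrib]
    refine Finset.sum_congr rfl fun d _ => ?_
    by_cases hd : S.real d = true ∧ S.M.v d ∈ sg ∧ ¬ S.Ou sg d
    · rw [if_pos hd, if_pos ((hI d).1 hd), if_pos hd]; ring
    · rw [if_neg hd, if_neg (fun hh => hd ((hI d).2 hh)), if_neg hd]; ring
  have s3 : ∑ x ∈ sg, (6 - (S.rdeg x : ℝ)) = 6 * (sg.card : ℝ) - (Rs.card : ℝ) := by
    rw [Finset.sum_sub_distrib, Finset.sum_const, nsmul_eq_mul, mul_comm]
    congr 1
    rw [← Nat.cast_sum, sum_rdeg]
  rw [s2, s3]
  have E' : 2 * S.A.card + 2 * Fintype.card (Quotient S.sc) = R.card + 4 := E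
  have Eo' : 2 * (S.A \ sg).card + 2 * Qo.card ≤ Rtt.card + 2 := Eo
  have key : 3 * Rss.card + 6 ≤ 6 * sg.card + 6 * Qs.card := by omega
  have key' : (3 : ℝ) * Rss.card + 6 ≤ 6 * sg.card + 6 * Qs.card := by exact_mod_cast key
  have c4' : (Rs.card : ℝ) = Rss.card + k := by rw [c4, c2]; push_cast; ring
  have c5' : (Rs.card : ℝ) = O.card + I.card := by rw [c5]; push_cast; ring
  show 6 - 3 * (k : ℝ) + 2 * (O.card : ℝ) ≤ _
  linarith

end Pool.FC7
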