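import Pool.Agent.FC7.SgE

/-! # The discharging principle on the set sigma, maximum degree 6 -/

open Finset

namespace Pool.FC7

open Pool.FC6 Pool.FC6.St

variable {D V : Type} [Fintype D] [DecidableEq V] {S : St D V}

open Classical in
/-- the final charge (minus the budget) of a vertex: an outer corner costs 2, an inner corner costs
`2 - 6 / length`, a leaving edge gives `9 / 5`, `F d` = what `v d` gets through the dart `d` -/
noncomputable def cv (S : St D V) (sg : Finset V) (F : D → ℝ) (x : V) : ℝ :=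
  6 - S.rdeg x + 9 / 5 * S.lv sg x +
    ∑ d, if S.M.v d = x ∧ S.real d = true then
      ((if S.Ou sg d then (-2 : ℝ) else 6 / S.csz d - 2) +
        if S.M.v (S.M.α d) ∈ sg then F d else 0) else 0

theorem Sg.sum_cv (h : Rg S) {sg : Finset V} (hs : Sg S sg) {F : D → ℝ}
    (hF : ∀ d, S.real d = true → S.M.v d ∈ sg → S.M.v (S.M.α d) ∈ sg → F (S.M.α d) = - F d) :
    0 ≤ ∑ x ∈ sg, cv S sg F x ∧ (sg = S.A → 12 ≤ ∑ x ∈ sg, cv S sg F x) := by
  classical
  have hra := h.real_α
  have e0 : ∑ x ∈ sg, cv S sg F x = ∑ x ∈ sg, (6 - (S.rdeg x : ℝ)) +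
      9 / 5 * ∑ x ∈ sg, (S.lv sg x : ℝ) +
      ∑ d, (if S.real d = true ∧ S.M.v d ∈ sg then
        (if S.Ou sg d then (-2 : ℝ) else 6 / S.csz d - 2) else 0) := by
    unfold cv
    rw [Finset.sum_add_distrib, Finset.sum_add_distrib, ← Finset.mul_sum, sum_split]
    congr 1
    have e1 : ∀ d, (if S.real d = true ∧ S.M.v d ∈ sg then
        ((if S.Ou sg d then (-2 : ℝ) else 6 / S.csz d - 2) +
          if S.M.v (S.M.α d) ∈ sg then F d else 0) else 0) =
        (if S.real d = true ∧ S.M.v d ∈ sg then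
          (if S.Ou sg d then (-2 : ℝ) else 6 / S.csz d - 2) else 0) +
        (if S.real d = true ∧ S.M.v d ∈ sg then
          (if S.M.v (S.M.α d) ∈ sg then F d else 0) else 0) := by
      intro d
      by_cases a : S.real d = true ∧ S.M.v d ∈ sg
      · rw [if_pos a, if_pos a, if_pos a]
      · rw [if_neg a, if_neg a, if_neg a]; ring
    rw [Finset.sum_congr rfl fun d _ => e1 d, Finset.sum_add_distrib, sum_flow hra hF, add_zero]
  have e1 : ∑ x ∈ sg, (S.lv sg x : ℝ) = (S.rc (ind sg) : ℝ) := by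
    rw [← Nat.cast_sum, sum_lv]
  rw [e0, e1]
  have part2 : sg = S.A → 12 ≤ ∑ x ∈ sg, (6 - (S.rdeg x : ℝ)) + 9 / 5 * (S.rc (ind sg) : ℝ) +
      ∑ d, (if S.real d = true ∧ S.M.v d ∈ sg then
        (if S.Ou sg d then (-2 : ℝ) else 6 / S.csz d - 2) else 0) := by
    intro hA
    let _ : Fintype (Quotient S.sc) := Fintype.ofFinite _
    have E := h.euler
    have s1 : ∑ d, (if S.real d = true then (1 : ℝ) / S.csz d else 0) =
        (Fintype.card (Quotient S.sc) : ℝ) := by
      have := h.toGd.sum_inv (fun _ => True)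
      simpa using this
    have e2 : ∑ d, (if S.real d = true ∧ S.M.v d ∈ sg then
        (if S.Ou sg d then (-2 : ℝ) else 6 / S.csz d - 2) else 0) =
        6 * (Fintype.card (Quotient S.sc) : ℝ) -
          2 * ((Finset.univ.filter fun d => S.real d = true).card : ℝ) := by
      have e3 : ((Finset.univ.filter fun d => S.real d = true).card : ℝ) =
          ∑ d, if S.real d = true then (1 : ℝ) else 0 := by simp
      have e4 : (Fintype.card (Quotient S.sc) : ℝ) =
          ∑ d, if S.real d = true then (1 : ℝ) / S.csz d else 0 := by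
        rw [s1]
      rw [e3, e4, Finset.mul_sum, Finset.mul_sum, ← Finset.sum_sub_distrib]
      refine Finset.sum_congr rfl fun d _ => ?_
      by_cases hd : S.real d = true
      · have hv : S.M.v d ∈ sg := by rw [hA]; exact h.real_A d hd
        have ho : ¬ S.Ou sg d := by
          rintro ⟨e, he, _, hv'⟩
          exact hv' (by rw [hA]; exact h.real_A e he)
        rw [if_pos ⟨hd, hv⟩, if_neg ho, if_pos hd, if_pos hd]
        ring
      · rw [if_neg (fun hh => hd hh.1), if_neg hd, if_neg hd]; ring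
    have e5 : ∑ x ∈ sg, (6 - (S.rdeg x : ℝ)) = 6 * (S.A.card : ℝ) -
        ((Finset.univ.filter fun d => S.real d = true).card : ℝ) := by
      rw [Finset.sum_sub_distrib, Finset.sum_const, nsmul_eq_mul, mul_comm]
      rw [← hA]
      congr 1
      rw [← Nat.cast_sum, sum_rdeg]
      congr 2
      ext d
      simp only [Finset.mem_filter, Finset.mem_univ, true_and]
      exact ⟨fun hh => hh.1, fun hh => ⟨hh, by rw [hA]; exact h.real_A d hh⟩⟩
    rw [e2, e5]
    have E' : (2 : ℝ) * S.A.card + 2 * (Fintype.card (Quotient S.sc) : ℝ) =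
        ((Finset.univ.filter fun d => S.real d = true).card : ℝ) + 4 := by exact_mod_cast E
    have : (0 : ℝ) ≤ (S.rc (ind sg) : ℝ) := Nat.cast_nonneg _
    linarith
  refine ⟨?_, part2⟩
  rcases hs.out with hA | ⟨h4, _, y, hy, _, _, _, hy', _⟩
  · linarith [part2 hA]
  · have hk7 : S.rc (ind sg) ≤ 7 := by omega
    have hk5 : (S.rc (ind sg) : ℝ) ≤ 5 := by
      have : S.rc (ind sg) ≤ 5 := by omega
      exact_mod_cast this
    have C := Sg.charge h rfl hk7 hs.ne hs.sub ⟨y, hy, ind_false.1 hy'⟩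
    have e2 : ∑ d, (if S.real d = true ∧ S.M.v d ∈ sg then
        (if S.Ou sg d then (-2 : ℝ) else 6 / S.csz d - 2) else 0) =
        ∑ d, (if S.real d = true ∧ S.M.v d ∈ sg ∧ ¬ S.Ou sg d then 6 / (S.csz d : ℝ) - 2 else 0) -
        2 * ((Finset.univ.filter fun d => S.real d = true ∧ S.M.v d ∈ sg ∧ S.Ou sg d).card : ℝ) := by
      have e3 : ((Finset.univ.filter fun d => S.real d = true ∧ S.M.v d ∈ sg ∧
          S.Ou sg d).card : ℝ) =
          ∑ d, if S.real d = true ∧ S.M.v d ∈ sg ∧ S.Ou sg d then (1 : ℝ) else 0 := by simp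
      rw [e3, Finset.mul_sum, ← Finset.sum_sub_distrib]
      refine Finset.sum_congr rfl fun d _ => ?_
      by_cases a1 : S.real d = true ∧ S.M.v d ∈ sg
      · by_cases a2 : S.Ou sg d
        · simp [a1, a2]
        · simp [a1, a2]
      · have a2 : ¬ (S.real d = true ∧ S.M.v d ∈ sg ∧ ¬ S.Ou sg d) := fun hh => a1 ⟨hh.1, hh.2.1⟩
        have a3 : ¬ (S.real d = true ∧ S.M.v d ∈ sg ∧ S.Ou sg d) := fun hh => a1 ⟨hh.1, hh.2.1⟩
        rw [if_neg a1, if_neg a2, if_neg a3]; ring
    rw [e2]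
    linarith

/-- DISCHARGING: some vertex keeps a positive charge, or a flagged vertex a nonnegative one -/
theorem Sg.discharge (h : Rg S) {sg : Finset V} (hs : Sg S sg) (F : D → ℝ)
    (hF : ∀ d, S.real d = true → S.M.v d ∈ sg → S.M.v (S.M.α d) ∈ sg → F (S.M.α d) = - F d) :
    ∃ x ∈ sg, 0 < cv S sg F x ∨ (0 < S.lv sg x ∧ 0 ≤ cv S sg F x) := by
  classical
  by_contra hc
  push Not at hc
  obtain ⟨h1, h2⟩ := Sg.sum_cv h hs hF
  have h3 : ∑ x ∈ sg, cv S sg F x ≤ 0 := Finset.sum_nonpos fun x hx => (hc x hx).1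
  rcases hs.out with hA | ⟨h4, _, _⟩
  · linarith [h2 hA]
  · have : 0 < ∑ x ∈ sg, S.lv sg x := by rw [sum_lv]; omega
    obtain ⟨x, hx, hx'⟩ := Finset.exists_ne_zero_of_sum_ne_zero this.ne'
    have h5 := (hc x hx).2 (Nat.pos_of_ne_zero hx')
    have h6 : ∑ x ∈ sg, cv S sg F x < 0 := by
      rw [← Finset.add_sum_erase _ _ hx]
      have : ∑ y ∈ sg.erase x, cv S sg F y ≤ 0 := Finset.sum_nonpos fun y hy =>
        (hc y (Finset.mem_of_mem_erase hy)).1
      linarith
    linarith

end Pool.FC7
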