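import Pool.Agent.FC7.AsC

/-! # Case distinctions on the letters of a pattern

A pattern with general letters does not occur if all its refinements, which satisfy the
compatibility conditions, are instances of patterns which do not occur. -/

open Finset

set_option linter.unusedSectionVars false

namespace Pool.FC7

open Pool.FC6 Pool.FC6.St

/-- the letters which occur and have the letter `g` of a pattern -/
def lts (g : ℕ) : List ℕ := if lal g = true then [g] else (lgen g).filter lal

theorem lgen_lal {g : ℕ} (h : lal g = true) : lgen g = [] := by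
  have h1 : ∀ g < 27, lal g = true → lgen g = [] := by decide
  exact h1 g (lal_lt h) h

theorem lle_lal {g l : ℕ} (h : lle g l = true) (hg : lal g = true) : g = l := by
  unfold lle at h
  rw [lgen_lal hg] at h
  simpa using h

theorem mem_lts {g l : ℕ} (h : lle g l = true) (hl : lal l = true) : l ∈ lts g := by
  unfold lts
  by_cases hg : lal g = true
  · rw [if_pos hg, lle_lal h hg]
    exact List.mem_singleton.2 rfl
  · rw [if_neg hg, List.mem_filter]
    refine ⟨?_, hl⟩
    unfold lle at h
    rw [Bool.or_eq_true, decide_eq_true_eq, List.any_eq_true] at h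
    rcases h with h | ⟨x, hx, hx'⟩
    · rw [h] at hg
      exact absurd hl hg
    · rw [decide_eq_true_eq] at hx'
      rw [← hx']; exact hx

/-- the letter `a` of a pattern is more general than the letter `b` -/
def llg (a b : ℕ) : Bool := Nat.beq a b || (lts b).all fun l => lle a l

theorem llg_sound {a b l : ℕ} (h : llg a b = true) (h1 : lle b l = true) (h2 : lal l = true) :
    lle a l = true := by
  unfold llg at h
  rw [Bool.or_eq_true, List.all_eq_true] at h
  rcases h with h | h
  · rw [Nat.eq_of_beq_eq_true h]; exact h1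
  · exact h l (mem_lts h1 h2)

/-- letterwise -/
def wlg : List ℕ → List ℕ → Bool
  | [], [] => true
  | a :: c, b :: t => llg a b && wlg c t
  | _, _ => false

theorem wlg_sound : ∀ {c t u : List ℕ}, wlg c t = true → llw t u = true →
    (∀ l ∈ u, lal l = true) → llw c u = true
  | [], [], [], _, _, _ => rfl
  | [], [], _ :: _, _, h, _ => by exact absurd h (by simp [llw])
  | a :: c, b :: t, [], _, h, _ => by exact absurd h (by simp [llw])
  | a :: c, b :: t, l :: u, h, h', hu => by
    rw [show wlg (a :: c) (b :: t) = (llg a b && wlg c t) from rfl, Bool.and_eq_true] at h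
    rw [show llw (b :: t) (l :: u) = (lle b l && llw t u) from rfl, Bool.and_eq_true] at h'
    rw [show llw (a :: c) (l :: u) = (lle a l && llw c u) from rfl, Bool.and_eq_true]
    exact ⟨llg_sound h.1 h'.1 (hu l (List.mem_cons_self ..)),
      wlg_sound h.2 h'.2 fun x hx => hu x (List.mem_cons_of_mem _ hx)⟩
  | [], _ :: _, _, h, _, _ => by exact absurd h (by simp [wlg])
  | _ :: _, [], _, h, _, _ => by exact absurd h (by simp [wlg])

/-- the pattern `Y` is more general than `X` -/
def fgn (Y X : FCS.Fct) : Bool :=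
  wlg Y.1 X.1 && Y.2.all fun q => X.2.any fun p => Nat.beq p.1 q.1 &&
    (if q.2.isEmpty then p.2.isEmpty else !p.2.isEmpty && wlg q.2 p.2)

/-- two letters of one sector which are not compatible -/
def lbad (a b : ℕ) : Bool := lal a && lal b && !cmpf a b

/-- the pattern cannot occur -/
def fbad (X : FCS.Fct) : Bool :=
  (X.2.any fun p => !p.2.isEmpty && decide (p.1 < X.1.length) &&
    (lbad (X.1.getD p.1 0) (p.2.getD (p.2.length - 1) 0) ||
      lbad (p.2.getD 0 0) (X.1.getD ((p.1 + X.1.length - 1) % X.1.length) 0) ||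
      (p.2.all lal && !glf p.2))) || (X.1.all lal && !glf X.1)

/-- the letter `j` of the word `s` (`0`: the centre) -/
def gtL (X : FCS.Fct) (s j : ℕ) : ℕ :=
  match s with
  | 0 => X.1.getD j 0
  | k + 1 => (X.2.getD k (0, [])).2.getD j 0

/-- the letter exists -/
def vld (X : FCS.Fct) (s j : ℕ) : Bool :=
  match s with
  | 0 => decide (j < X.1.length)
  | k + 1 => decide (k < X.2.length) && decide (j < (X.2.getD k (0, [])).2.length)

/-- change of a letter -/
def stL (X : FCS.Fct) (s j l : ℕ) : FCS.Fct :=
  match s with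
  | 0 => (X.1.set j l, X.2)
  | k + 1 => (X.1, X.2.set k ((X.2.getD k (0, [])).1, (X.2.getD k (0, [])).2.set j l))

/-- the pattern seen from the neighbour `p` -/
def vwX (X : FCS.Fct) (p : ℕ × List ℕ) : FCS.Fct :=
  (p.2, (0, X.1.rotate p.1) :: X.2.flatMap fun q =>
    (if Nat.beq q.1 ((p.1 + X.1.length - 1) % X.1.length) &&
        lsol (X.1.getD ((p.1 + X.1.length - 1) % X.1.length) 0) then
      [(1, q.2.rotate (q.2.length - 1))] else []) ++
    (if Nat.beq q.1 ((p.1 + 1) % X.1.length) && lsol (X.1.getD p.1 0) then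
      [(p.2.length - 1, q.2.rotate 1)] else []))

/-- some pattern of the list is more general than `X`, possibly seen from a neighbour -/
def spa (Ys : List FCS.Fct) (X : FCS.Fct) : Bool :=
  (Ys.any fun Y => fgn Y X) || X.2.any fun p => !p.2.isEmpty && decide (p.1 < X.1.length) &&
    Ys.any fun Y => fgn Y (vwX X p)

/-- the case distinction at the letters of the list -/
def spc (Ys : List FCS.Fct) : List (ℕ × ℕ) → FCS.Fct → Bool
  | [], X => spa Ys X
  | q :: P, X => spa Ys X || (vld X q.1 q.2 &&
      (lts (gtL X q.1 q.2)).all fun l => fbad (stL X q.1 q.2 l) || spc Ys P (stL X q.1 q.2 l))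

section

variable {D V : Type} [Fintype D] [DecidableEq V]
  {S : St D V} {L : D → Bool} {w : D → ℕ} {U : V → Prop} {x : D}
  (h : MC 6 S L w) (hS : IsStar S) (hC : Can S w)

include h hS

theorem MC.lwo_lal (hd : S.real x = true) : ∀ l ∈ lwo S L x, lal l = true :=
  glw_lal (h.lwo_glw hS hd)

theorem fgn_sound {X Y : FCS.Fct} (hf : fgn Y X = true) (hx : HasL S L U X.1 X.2 x) :
    HasL S L U Y.1 Y.2 x := by
  have W := h.ok.toWf
  unfold fgn at hf
  rw [Bool.and_eq_true, List.all_eq_true] at hf
  have key : ∀ q ∈ Y.2, ∃ p ∈ X.2, p.1 = q.1 ∧ ((q.2 = [] ∧ p.2 = []) ∨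
      (q.2 ≠ [] ∧ p.2 ≠ [] ∧ wlg q.2 p.2 = true)) := by
    intro q hq
    have h1 := hf.2 q hq
    rw [List.any_eq_true] at h1
    obtain ⟨p, hp, h2⟩ := h1
    rw [Bool.and_eq_true] at h2
    refine ⟨p, hp, Nat.eq_of_beq_eq_true h2.1, ?_⟩
    have h3 := h2.2
    by_cases h4 : q.2.isEmpty = true
    · rw [if_pos h4, List.isEmpty_iff] at h3
      exact Or.inl ⟨List.isEmpty_iff.1 h4, h3⟩
    · rw [if_neg h4, Bool.and_eq_true, Bool.not_eq_true'] at h3
      refine Or.inr ⟨fun h0 => h4 (by rw [h0]; rfl), fun h0 => ?_, h3.2⟩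
      rw [h0] at h3
      exact absurd h3.1 (by simp)
  have real : ∀ i, S.real (S.M.α (S.nxr^[i] x)) = true := fun i => by
    rw [W.real_α]; exact hS.nxr_iter_real W hx.re i
  refine ⟨hx.re, hx.cU, wlg_sound hf.1 hx.w (h.lwo_lal hS hx.re), fun q hq h0 => ?_,
    fun q hq h0 => ?_, fun q hq h0 => ?_⟩
  · obtain ⟨p, hp, e, h2 | h2⟩ := key q hq
    · exact absurd h2.1 h0
    · rw [← e]; exact hx.nU p hp h2.2.1
  · obtain ⟨p, hp, e, h2 | h2⟩ := key q hq
    · exact absurd h2.1 h0
    · rw [← e]
      exact wlg_sound h2.2.2 (hx.nw p hp h2.2.1) (h.lwo_lal hS (real p.1))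
  · obtain ⟨p, hp, e, h2 | h2⟩ := key q hq
    · rw [← e]; exact hx.np p hp h2.2
    · exact absurd h0 h2.1

theorem vwX_sound {X : FCS.Fct} {p : ℕ × List ℕ} (hp : p ∈ X.2) (h0 : p.2 ≠ [])
    (hd : p.1 < X.1.length) (hx : HasL S L U X.1 X.2 x) :
    HasL S L U (vwX X p).1 (vwX X p).2 (S.M.α (S.nxr^[p.1] x)) := by
  have W := h.ok.toWf
  have re : ∀ i, S.real (S.nxr^[i] x) = true := fun i => hS.nxr_iter_real W hx.re i
  have rα : ∀ {y}, S.real y = true → S.real (S.M.α y) = true := fun hy => by
    rw [W.real_α]; exact hy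
  have hln := llw_len hx.w
  have hn : X.1.length = S.rdeg (S.M.v x) := by rw [← lwo_length (S := S) (L := L), ← hln]
  have hper : ∀ i, S.nxr^[i % X.1.length] x = S.nxr^[i] x := fun i => by
    rw [hn]; exact nxr_mod hS W hx.re i
  have sol : ∀ i < X.1.length, lsol (X.1.getD i 0) = true →
      lsol (lto S L (S.nxr^[i] x)) = true := by
    intro i hi h1
    have h3 := llw_getD hx.w hi
    rw [h.lwo_getD hS hx.re (by rw [← hn]; exact hi)] at h3
    rw [← lle_sol h3]; exact h1
  have hz := rα (re p.1)
  have wz := hx.nw p hp h0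
  have hlp : p.2.length = S.rdeg (S.M.v (S.M.α (S.nxr^[p.1] x))) := by
    rw [llw_len wz, lwo_length]
  have hlp0 : 0 < p.2.length := List.length_pos_iff.2 h0
  -- the vertices at the entries
  have key : ∀ q ∈ (vwX X p).2,
      (q.2 ≠ [] → U (S.M.v (S.M.α (S.nxr^[q.1] (S.M.α (S.nxr^[p.1] x))))) ∧
        llw q.2 (lwo S L (S.M.α (S.nxr^[q.1] (S.M.α (S.nxr^[p.1] x))))) = true) ∧
      (q.2 = [] → 5 ≤ S.nd (S.M.α (S.nxr^[q.1] (S.M.α (S.nxr^[p.1] x))))) := by
    intro q hq
    unfold vwX at hq
    rw [List.mem_cons, List.mem_flatMap] at hq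
    rcases hq with rfl | ⟨u, hu, hq⟩
    · refine ⟨fun _ => ⟨?_, ?_⟩, fun h1 => ?_⟩
      · show U (S.M.v (S.M.α (S.M.α (S.nxr^[p.1] x))))
        rw [S.M.αα, v_nxr_iter]; exact hx.cU
      · show llw (X.1.rotate p.1) (lwo S L (S.M.α (S.M.α (S.nxr^[p.1] x)))) = true
        rw [S.M.αα, h.lwo_rots hS hx.re]
        exact llw_rotate hx.w p.1
      · exact absurd (List.rotate_eq_nil_iff.1 h1) (hx.ne h hS)
    · rw [List.mem_append] at hq
      rcases hq with hq | hq
      · split_ifs at hq with hc
        · rw [Bool.and_eq_true] at hc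
          obtain ⟨c1, c2⟩ := hc
          have c1 := Nat.eq_of_beq_eq_true c1
          rw [List.mem_singleton] at hq
          subst hq
          have hi' : (p.1 + X.1.length - 1) % X.1.length < X.1.length := Nat.mod_lt _ (by omega)
          have hs := sol _ hi' c2
          obtain ⟨r, a1, a2, a3⟩ := h.tri hS (re _) hs
          have e1 : S.nxr (S.nxr^[(p.1 + X.1.length - 1) % X.1.length] x) = S.nxr^[p.1] x := by
            rw [hper, ← Function.iterate_succ_apply' S.nxr,
              show (p.1 + X.1.length - 1).succ = p.1 + X.1.length by omega, ← hper,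
              Nat.add_mod_right, hper]
          rw [e1] at a3
          have e2 : S.M.α (S.nxr^[1] (S.M.α (S.nxr^[p.1] x))) = r := by
            show S.M.α (S.nxr (S.M.α (S.nxr^[p.1] x))) = r
            rw [← a3, S.M.αα]
          rw [← c1] at a2
          refine ⟨fun h1 => ?_, fun h1 => ?_⟩
          · have h2 : u.2 ≠ [] := fun h3 => h1 (by
              show u.2.rotate (u.2.length - 1) = []
              rw [h3]; rfl)
            refine ⟨?_, ?_⟩
            · rw [e2, ← v_nxr, a2]; exact hx.nU u hu h2
            · rw [e2]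
              show llw (u.2.rotate (u.2.length - 1)) _ = true
              have h3 := hx.nw u hu h2
              rw [← a2, h.lwo_rot hS a1] at h3
              have h4 := llw_len h3
              have h5 := llw_rotate h3 (u.2.length - 1)
              rw [List.length_rotate] at h4
              rw [List.rotate_rotate, show 1 + (u.2.length - 1) = (lwo S L r).length by
                have := List.length_pos_iff.2 h2
                omega, List.rotate_length] at h5
              exact h5
          · have h2 : u.2 = [] := List.rotate_eq_nil_iff.1 h1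
            rw [e2, ← nd_cgr (v_nxr r), a2]
            exact hx.np u hu h2
        · exact absurd hq (by simp)
      · split_ifs at hq with hc
        · rw [Bool.and_eq_true] at hc
          obtain ⟨c1, c2⟩ := hc
          have c1 := Nat.eq_of_beq_eq_true c1
          rw [List.mem_singleton] at hq
          subst hq
          have hs := sol _ hd c2
          obtain ⟨r, a1, a2, a3⟩ := h.tri hS (re _) hs
          have e1 : S.nxr (S.nxr^[p.1] x) = S.nxr^[u.1] x := by
            rw [← Function.iterate_succ_apply' S.nxr, c1, hper]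
          rw [e1] at a3
          have e3 : S.nxr^[p.2.length - 1] (S.M.α (S.nxr^[p.1] x)) = r := by
            refine nxr_inj hS W (hS.nxr_iter_real W hz _) a1 ?_
            rw [a2, ← Function.iterate_succ_apply' S.nxr,
              show (p.2.length - 1).succ = p.2.length by omega, hlp]
            exact hS.nxr_rdeg W hz
          have hru := rα (re u.1)
          refine ⟨fun h1 => ?_, fun h1 => ?_⟩
          · have h2 : u.2 ≠ [] := fun h3 => h1 (by
              show u.2.rotate 1 = []
              rw [h3]; rfl)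
            refine ⟨?_, ?_⟩
            · rw [e3, a3, v_nxr]; exact hx.nU u hu h2
            · rw [e3, a3, h.lwo_rot hS hru]
              exact llw_rotate (hx.nw u hu h2) 1
          · have h2 : u.2 = [] := List.rotate_eq_nil_iff.1 h1
            rw [e3, a3, nd_cgr (v_nxr _)]
            exact hx.np u hu h2
        · exact absurd hq (by simp)
  exact ⟨hz, hx.nU p hp h0, wz, fun q hq h1 => ((key q hq).1 h1).1,
    fun q hq h1 => ((key q hq).1 h1).2, fun q hq h1 => (key q hq).2 h1⟩

theorem stL_sound {X : FCS.Fct} {s j : ℕ} (hv : vld X s j = true) (hx : HasL S L U X.1 X.2 x) :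
    ∃ l ∈ lts (gtL X s j), HasL S L U (stL X s j l).1 (stL X s j l).2 x := by
  have W := h.ok.toWf
  have real : ∀ i, S.real (S.M.α (S.nxr^[i] x)) = true := fun i => by
    rw [W.real_α]; exact hS.nxr_iter_real W hx.re i
  have key : ∀ {c u : List ℕ} {j : ℕ}, llw c u = true → (∀ l ∈ u, lal l = true) → j < c.length →
      (u.getD j 0) ∈ lts (c.getD j 0) ∧ llw (c.set j (u.getD j 0)) u = true := by
    intro c u j h1 h2 h3
    have h4 := llw_iff.1 h1
    have h5 : j < u.length := by omega
    refine ⟨mem_lts (h4.2 j h3) (h2 _ (getD_mem h5)), llw_iff.2 ⟨by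
      rw [List.length_set]; exact h4.1, fun i hi => ?_⟩⟩
    rw [List.length_set] at hi
    by_cases h6 : j = i
    · subst h6
      rw [List.getD_eq_getElem _ _ (by rw [List.length_set]; exact hi), List.getElem_set_self]
      exact lle_refl _
    · rw [List.getD_eq_getElem _ _ (by rw [List.length_set]; exact hi), List.getElem_set_ne h6,
        ← List.getD_eq_getElem _ 0]
      exact h4.2 i hi
  cases s with
  | zero =>
    have hv' : j < X.1.length := by
      unfold vld at hv
      simpa using hv
    obtain ⟨k1, k2⟩ := key hx.w (h.lwo_lal hS hx.re) hv'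
    exact ⟨_, k1, hx.re, hx.cU, k2, hx.nU, hx.nw, hx.np⟩
  | succ k =>
    have hv' : k < X.2.length ∧ j < (X.2.getD k (0, [])).2.length := by
      unfold vld at hv
      simpa using hv
    have hm : X.2.getD k (0, []) ∈ X.2 := by
      rw [List.getD_eq_getElem _ _ hv'.1]
      exact List.getElem_mem _
    have hne : (X.2.getD k (0, [])).2 ≠ [] := by
      intro h0
      have := hv'.2
      rw [h0] at this
      exact absurd this (by simp)
    obtain ⟨k1, k2⟩ := key (hx.nw _ hm hne) (h.lwo_lal hS (real _)) hv'.2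
    have hne' : ∀ l, (X.2.getD k (0, [])).2.set j l ≠ [] := by
      intro l h0
      have := congrArg List.length h0
      rw [List.length_set, List.length_nil] at this
      omega
    refine ⟨_, k1, hx.re, hx.cU, hx.w, fun p hp h0 => ?_, fun p hp h0 => ?_, fun p hp h0 => ?_⟩
    · rcases List.mem_or_eq_of_mem_set hp with h1 | h1
      · exact hx.nU p h1 h0
      · rw [h1]; exact hx.nU (X.2.getD k (0, [])) hm hne
    · rcases List.mem_or_eq_of_mem_set hp with h1 | h1
      · exact hx.nw p h1 h0
      · rw [h1]; exact k2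
    · rcases List.mem_or_eq_of_mem_set hp with h1 | h1
      · exact hx.np p h1 h0
      · rw [h1] at h0
        exact absurd h0 (hne' _)

/-- the letters of one sector at the two ends of an edge -/
theorem MC.cmp_edge (hd : S.real x = true) : cmpf ((lwo S L x).getD 0 0)
    ((lwo S L (S.M.α x)).getD ((lwo S L (S.M.α x)).length - 1) 0) = true := by
  have W := h.ok.toWf
  have hd' : S.real (S.M.α x) = true := by rw [W.real_α]; exact hd
  have ok := h.wsy_ok hS (U := fun _ => True)
  have e1 : (wsy S L fun _ => True).W x = lwo S L x := by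
    refine wsy_lwo ?_
    rw [h.wsy_ne hS hd]
    trivial
  have e2 : (wsy S L fun _ => True).W (S.M.α x) = lwo S L (S.M.α x) := by
    refine wsy_lwo ?_
    rw [h.wsy_ne hS hd']
    trivial
  have h1 := ok.cmp x (by rw [e1]; exact h.lwo_ne hS hd)
    (by rw [wsy_al hd, e2]; exact h.lwo_ne hS hd')
  rw [wsy_al hd, e1, e2] at h1
  exact h1

theorem llw_all {c u : List ℕ} (hc : llw c u = true) (hl : ∀ l ∈ c, lal l = true) : c = u := by
  obtain ⟨h1, h2⟩ := llw_iff.1 hc
  refine List.ext_getElem h1 fun i h3 h4 => ?_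
  have h5 := h2 i h3
  rw [List.getD_eq_getElem _ _ h3, List.getD_eq_getElem _ _ h4] at h5
  exact lle_lal h5 (hl _ (List.getElem_mem _))

include hC

theorem fbad_sound {X : FCS.Fct} (hx : HasL S L U X.1 X.2 x) : fbad X = false := by
  have W := h.ok.toWf
  have real : ∀ i, S.real (S.M.α (S.nxr^[i] x)) = true := fun i => by
    rw [W.real_α]; exact hS.nxr_iter_real W hx.re i
  have hln := llw_len hx.w
  have ne : X.1.length ≠ 0 := by
    rw [hln]
    intro h0
    exact h.lwo_ne hS hx.re (List.length_eq_zero_iff.1 h0)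
  have lb : ∀ {a b l m : ℕ}, lle a l = true → lle b m = true → cmpf l m = true →
      lbad a b = false := by
    intro a b l m h1 h2 h3
    by_contra hn
    have h4 : lbad a b = true := by simpa using hn
    unfold lbad at h4
    rw [Bool.and_eq_true, Bool.and_eq_true, Bool.not_eq_true'] at h4
    rw [lle_lal h1 h4.1.1, lle_lal h2 h4.1.2, h3] at h4
    exact absurd h4.2 (by decide)
  unfold fbad
  rw [Bool.or_eq_false_iff]
  constructor
  · rw [List.any_eq_false]
    intro p hp hb
    rw [Bool.and_eq_true, Bool.and_eq_true, Bool.not_eq_true', decide_eq_true_eq] at hb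
    obtain ⟨⟨b1, b2⟩, b3⟩ := hb
    have hne : p.2 ≠ [] := by
      intro h0
      rw [h0] at b1
      exact absurd b1 (by simp)
    have hw := hx.nw p hp hne
    have hl2 := llw_len hw
    have hp0 : 0 < p.2.length := List.length_pos_of_ne_nil hne
    have e1 := h.cmp_edge hS (hS.nxr_iter_real W hx.re p.1)
    have e2 := h.cmp_edge hS (real p.1)
    rw [S.M.αα] at e2
    rw [h.lwo_rots hS hx.re] at e1 e2
    rw [getD_rotate (by omega)] at e1
    rw [List.length_rotate, getD_rotate (by omega)] at e2
    have f1 : lle (X.1.getD p.1 0) ((lwo S L x).getD ((0 + p.1) % (lwo S L x).length) 0) = true := by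
      rw [Nat.zero_add, ← hln, Nat.mod_eq_of_lt b2]
      exact llw_getD hx.w b2
    have f2 : lle (X.1.getD ((p.1 + X.1.length - 1) % X.1.length) 0)
        ((lwo S L x).getD (((lwo S L x).length - 1 + p.1) % (lwo S L x).length) 0) = true := by
      rw [← hln, show X.1.length - 1 + p.1 = p.1 + X.1.length - 1 by omega]
      exact llw_getD hx.w (Nat.mod_lt _ (by omega))
    have g1 : lle (p.2.getD (p.2.length - 1) 0)
        ((lwo S L (S.M.α (S.nxr^[p.1] x))).getD
          ((lwo S L (S.M.α (S.nxr^[p.1] x))).length - 1) 0) = true := by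
      rw [← hl2]
      exact llw_getD hw (by omega)
    have g2 := llw_getD hw hp0
    rw [lb f1 g1 e1, lb g2 f2 e2, Bool.false_or, Bool.false_or, Bool.and_eq_true,
      List.all_eq_true, Bool.not_eq_true'] at b3
    rw [llw_all h hS hw b3.1, h.lwo_glf hS hC (real p.1)] at b3
    exact absurd b3.2 (by decide)
  · by_contra hn
    have h1 : (X.1.all lal && !glf X.1) = true := by simpa using hn
    rw [Bool.and_eq_true, List.all_eq_true, Bool.not_eq_true'] at h1
    rw [llw_all h hS hx.w h1.1, h.lwo_glf hS hC hx.re] at h1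
    exact absurd h1.2 (by decide)

theorem spc_sound {Ys : List FCS.Fct} (hY : ∀ Y ∈ Ys, ∀ x, ¬ HasL S L U Y.1 Y.2 x) :
    ∀ (P : List (ℕ × ℕ)) (X : FCS.Fct), spc Ys P X = true → ¬ HasL S L U X.1 X.2 x := by
  have key : ∀ X : FCS.Fct, spa Ys X = true → ¬ HasL S L U X.1 X.2 x := by
    intro X h1 hx
    unfold spa at h1
    rw [Bool.or_eq_true, List.any_eq_true, List.any_eq_true] at h1
    rcases h1 with ⟨Y, hY', h2⟩ | ⟨p, hp, h1⟩
    · exact hY Y hY' _ (fgn_sound h hS h2 hx)
    · rw [Bool.and_eq_true, Bool.and_eq_true, Bool.not_eq_true', decide_eq_true_eq,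
        List.any_eq_true] at h1
      obtain ⟨⟨h3, h4⟩, Y, hY', h5⟩ := h1
      exact hY Y hY' _ (fgn_sound h hS h5 (vwX_sound h hS hp (fun h6 => by
        rw [h6] at h3
        exact absurd h3 (by simp)) h4 hx))
  intro P
  induction P with
  | nil => exact fun X hs => key X hs
  | cons q P ih =>
    intro X hs hx
    rw [show spc Ys (q :: P) X = (spa Ys X || (vld X q.1 q.2 &&
      (lts (gtL X q.1 q.2)).all fun l => fbad (stL X q.1 q.2 l) || spc Ys P (stL X q.1 q.2 l)))
      from rfl, Bool.or_eq_true, Bool.and_eq_true, List.all_eq_true] at hs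
    rcases hs with h1 | ⟨h1, h2⟩
    · exact key X h1 hx
    · obtain ⟨l, hl, hx'⟩ := stL_sound h hS h1 hx
      have h3 := h2 l hl
      rw [fbad_sound h hS hC hx', Bool.false_or] at h3
      exact ih _ h3 hx'

end

/-- A CASE DISTINCTION: all refinements of the pattern at the letters of `P` are instances of
patterns which do not occur -/
theorem NoL.split {Ys : List FCS.Fct} (hY : ∀ Y ∈ Ys, NoL Y.1 Y.2) (P : List (ℕ × ℕ))
    {X : FCS.Fct} (hs : spc Ys P X = true) : NoL X.1 X.2 := by
  intro D V _ _ S L w U hM hS hR hC x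
  exact spc_sound hM hS hC (fun Y h1 => hY Y h1 D V S L w U hM hS hR hC) P X hs

end Pool.FC7
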