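import Pool.Agent.FTL.TopW
import Pool.Agent.FC7.GcF

/-! # Maximum degree 6: from the nonexistence of minimal counterexamples in star form with fewest
double corners to free sets -/

open Finset

namespace FTL

open Pool.FC6 Pool.FC1 FREE

/-- there is no minimal counterexample in star form with fewest double corners -/
def NoMCt6 : Prop := ∀ (D V : Type) [Fintype D] [DecidableEq V] (S : St D V) (L : D → Bool)
  (w : D → ℕ), Pool.FC7.MCt Pool.FC7.tbd 6 S L w → False

theorem bbw_of_noMCt (h : NoMCt6) : BBW 6 := by
  intro D V _ _ S L hok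
  by_contra hno
  obtain ⟨D', V', _, _, S', L', w', hm⟩ := Pool.FC7.exists_mc (fun _ => rfl) hok hno
  obtain ⟨D'', V'', _, _, S'', L'', w'', ht⟩ := hm.exists_mct le_rfl Pool.FC7.tbd
  exact h _ _ _ _ _ ht

end FTL
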