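import Pool.Agent.FC7.AsE
import Pool.Agent.FC7.StF

/-! # Maximum degree 6 with flows on the solid triangles: what has to be proved -/

open Finset

set_option linter.unusedSectionVars false

namespace Pool.FC7

open Pool.FC6 Pool.FC6.St

/-- the charge of every star is at most zero, with flows `T` between the corners of the triangles -/
def StarOkT (den nl nu dl : ℕ) (h : ℕ → ℕ) (F : List ℕ → List ℕ → ℕ)
    (T : List ℕ → List ℕ → List ℕ → ℕ) : Prop :=
  ∀ (D : Type) (Y : FCS.Sys D), SyG Y → ∀ e, Y.W e ≠ [] →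
    chvt lsol lng den nl nu dl h F T Y e ≤ 0

/-- THE STAR INEQUALITY AND THE FACTS: there is no minimal counterexample in canonical form -/
theorem noMCt_of_starT {D V : Type} [Fintype D] [DecidableEq V] {S : St D V} {L : D → Bool}
    {w : D → ℕ} {den nl nu dl hg hl : ℕ} {F : List ℕ → List ℕ → ℕ}
    {tr : List ℕ → List ℕ → List ℕ → ℕ} (hden : 0 < den)
    (hnl : 5 * nl ≤ 8 * den) (hnu : 2 * nu < 3 * den) (hdl : nu + dl < 2 * den)
    (hhg : 2 * hg ≤ den) (hhl : 5 * hl ≤ 4 * den)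
    (hstar : StarOkT den nl nu dl (hgf hg hl) F tr)
    {fsp : List FCS.Fct} (hfsp : ∀ X ∈ fsp, NoL X.1 X.2) (hoks : fsp.all okf = true)
    (f1 : F1) (f2 : F2) (f3 : F3) (hsp : NoSp fsp)
    (hM : MCt tbd 6 S L w) : False := by
  rw [List.all_eq_true] at hoks
  have h := hM.mc
  have hS := hM.st
  have hC : Can S w := fun g g' h1 _ h3 h4 h5 => by
    have := hM.dbl (le_refl 6) h1 h3 h5 h4
    rw [wt_wgt] at this
    omega
  rcases h.assemble3 hS hden hnl hnu hdl hhg hhl F tr with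
    ⟨U, T, hD, hN⟩ | ⟨U, e, hR, hN, hN1, hr, hU, hx⟩
  · obtain ⟨x, hx⟩ := hD.sp2 hN h hS hC f1 f2 f3
    exact hsp D _ (h.wsy_ok hS) (fun e he => by rw [wsy_lwo he]; exact h.lwo_glf hS hC (wsy_real he))
      (fun X hX => h.nox hS hD.reg hC (hD.nu5 h.ok.real_α) (hfsp X hX) (hoks X hX)) x hx
  · have he : (wsy S L U).W e ≠ [] := (h.wsy_ne hS hr).2 hU
    have hg := hstar D (wsy S L U) ⟨h.wsy_ok hS,
      fun e he => by rw [wsy_lwo he]; exact h.lwo_glf hS hC (wsy_real he),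
      fun X hX => h.nox hS hR hC hN hX.1 hX.2,
      fun e he => h.nr hS hN1 he,
      fun e he ha => h.wsy_g2 hS hC he ha,
      fun e he ha hb => h.wsy_g4 hS hC hR he ha hb⟩ e he
    omega

/-- THE FINAL ASSEMBLY: the star inequality and the facts of the table exclude minimal counterexamples -/
theorem noMCt6_ofT {den nl nu dl hg hl : ℕ} {F : List ℕ → List ℕ → ℕ}
    {tr : List ℕ → List ℕ → List ℕ → ℕ} (hden : 0 < den)
    (hnl : 5 * nl ≤ 8 * den) (hnu : 2 * nu < 3 * den) (hdl : nu + dl < 2 * den)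
    (hhg : 2 * hg ≤ den) (hhl : 5 * hl ≤ 4 * den)
    (hstar : StarOkT den nl nu dl (hgf hg hl) F tr)
    {fsp : List FCS.Fct} (hfsp : ∀ X ∈ fsp, NoL X.1 X.2) (hoks : fsp.all okf = true)
    (f1 : F1) (f2 : F2) (f3 : F3) (hsp : NoSp fsp) : FTL.NoMCt6 :=
  fun _ _ _ _ _ _ _ hM => noMCt_of_starT hden hnl hnu hdl hhg hhl hstar hfsp hoks f1 f2 f3 hsp hM

/-- without triangle flows -/
theorem starOkT_zero {den nl nu dl : ℕ} {h : ℕ → ℕ} {F : List ℕ → List ℕ → ℕ}
    (hs : StarOk3 den nl nu dl h F) : StarOkT den nl nu dl h F fun _ _ _ => 0 := by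
  intro D Y hY e he
  unfold chvt
  rw [Finset.sum_eq_zero fun i _ => ?_, add_zero]
  · exact hs D Y hY e he
  · unfold FCS.tgn
    split_ifs <;> simp

end Pool.FC7
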