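import Pool.Agent.FC7.StH
import Pool.Agent.FCS.Yc

/-! # Maximum degree 6 with gains of triangles and kites: what has to be proved -/

open Finset

set_option linter.unusedSectionVars false

namespace Pool.FC7

open Pool.FC6 Pool.FC6.St

/-- the charge of every star is at most zero, with gains `X` of the corners of the triangles and
gains `y` of the edges with their two common neighbours -/
def StarOkK (den nl nu dl : ℕ) (h : ℕ → ℕ) (F : List ℕ → List ℕ → ℕ)
    (X : List ℕ → List ℕ → List ℕ → ℤ) (y : List ℕ → List ℕ → List ℕ → List ℕ → ℤ) : Prop :=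
  StarOkE den nl nu dl h F fun _ Y d => FCS.tgx lsol X Y d + FCS.kgx lsol y Y d

/-- the gains have zero sum -/
theorem zeroE_kgx {X : List ℕ → List ℕ → List ℕ → ℤ}
    {y : List ℕ → List ℕ → List ℕ → List ℕ → ℤ}
    (hX : ∀ a b c, X a b c + X b c a + X c a b = 0)
    (hy : ∀ a b c d, y a b c d + y b a d c = 0) :
    ZeroE fun _ Y d => FCS.tgx lsol X Y d + FCS.kgx lsol y Y d := by
  intro D _ Y hY
  have h1 := FCS.sum_tgx hY (fun _ _ => cmpf_sol) hX
  have h2 := FCS.sum_kgx hY hy
  have h3 : ∀ d, (if Y.W d ≠ [] then FCS.tgx lsol X Y d + FCS.kgx lsol y Y d else 0) =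
      (if Y.W d ≠ [] then FCS.tgx lsol X Y d else 0) +
        (if Y.W d ≠ [] then FCS.kgx lsol y Y d else 0) := by
    intro d
    by_cases h : Y.W d ≠ []
    · rw [if_pos h, if_pos h, if_pos h]
    · rw [if_neg h, if_neg h, if_neg h, add_zero]
  rw [Finset.sum_congr rfl fun d _ => h3 d, Finset.sum_add_distrib, h1, h2, add_zero]

end Pool.FC7
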