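import Mathlib.Data.List.Basic

/-! # The letters of the star check: definitions

Sector between the real darts `e : v → x` and `nxr e : v → y` at the vertex `v`.

* solid: `0` P; `2` M = units (1,1,1); `4` e = label at `v y`; `5` f = label at `v x`; `8` L = label at
  `x y`; units of `v`, `x`, `y`: `11` A (2,1,0), `12` B (2,0,1), `13` C (1,2,0), `14` D (1,0,2),
  `15` E (0,2,1), `16` F (0,1,2).
* gap of length 4 / at least 5: `1` / `18` O = no unit here, none or three units in the face, no label
  at the two edges; `3` / `19` S = one unit here, three units; `17` / `22` Z = two units here, three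
  units; `6` / `23` g = label at `v y`; `7` / `24` h = label at `v x`; `9` / `25` t = two units, none
  here; `10` / `26` T = two units, one here.
* only in patterns: `20`, `21` and `32`, ..., `45`, see `lgen`. -/

namespace Pool.FC7

/-- the weight of a letter -/
def wl (l : ℕ) : ℕ :=
  if l = 11 ∨ l = 12 ∨ l = 17 ∨ l = 22 ∨ l = 34 ∨ l = 41 then 3
  else if l = 2 ∨ l = 3 ∨ l = 5 ∨ l = 7 ∨ l = 10 ∨ l = 13 ∨ l = 14 ∨ l = 19 ∨ l = 21 ∨ l = 24 ∨
    l = 26 ∨ l = 33 ∨ l = 38 ∨ l = 39 ∨ l = 40 ∨ l = 43 ∨ l = 45 then 2 else 1

/-- the letter is followed by a labelled spoke -/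
def lnx (l : ℕ) : Bool := decide (l = 4) || decide (l = 6) || decide (l = 23)

/-- the first spoke of the letter is labelled -/
def lpv (l : ℕ) : Bool := decide (l = 5) || decide (l = 7) || decide (l = 24)

/-- the letter occurs only at vertices with full weight -/
def lfu (l : ℕ) : Bool :=
  (decide (4 ≤ l) && decide (l ≤ 10)) || (decide (23 ≤ l) && decide (l ≤ 26))

/-- the letters of the words -/
def lal (l : ℕ) : Bool := decide (l ≤ 19) || (decide (22 ≤ l) && decide (l ≤ 26))

/-- the words of letters which occur -/
def glw (wd : List ℕ) : Bool :=
  decide (4 ≤ wd.length) && decide ((wd.map wl).sum ≤ 6) &&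
  wd.all lal &&
  ((List.range wd.length).all fun i => lnx (wd.getD i 0) ==
    lpv (wd.getD ((i + 1) % wd.length) 0)) &&
  (decide ((wd.map wl).sum = 6) || wd.all fun l => !lfu l)

/-- the letters of one solid triangle, or of a gap with a label, at the two ends of an edge -/
def cmt (l : ℕ) : ℕ :=
  if l = 4 then 8 else if l = 5 then 4
  else if l = 8 then 5 else if l = 11 then 14 else if l = 12 then 16 else if l = 13 then 12
  else if l = 14 then 15 else if l = 15 then 11 else if l = 16 then 13 else l

/-- `l`: the letter of the sector after `e : v → x`; `l'`: the letter of the same face at `x` -/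
def cmp (l l' : ℕ) : Bool :=
  if l = 1 then decide (l' = 1) || decide (l' = 7) || decide (l' = 3) || decide (l' = 17)
  else if l = 3 then decide (l' = 1) || decide (l' = 3) || decide (l' = 17)
  else if l = 18 then decide (l' = 18) || decide (l' = 24) || decide (l' = 19) || decide (l' = 22)
  else if l = 19 then decide (l' = 18) || decide (l' = 19) || decide (l' = 22)
  else if l = 17 then decide (l' = 1) || decide (l' = 3)
  else if l = 22 then decide (l' = 18) || decide (l' = 19)
  else if l = 6 then decide (l' = 1)
  else if l = 23 then decide (l' = 18)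
  else if l = 7 then decide (l' = 6)
  else if l = 24 then decide (l' = 23)
  else if l = 9 then decide (l' = 9) || decide (l' = 10)
  else if l = 10 then decide (l' = 9)
  else if l = 25 then decide (l' = 25) || decide (l' = 26)
  else if l = 26 then decide (l' = 25)
  else decide (l' = cmt l)

/-- the letter of a solid triangle -/
def lsol (l : ℕ) : Bool :=
  decide (l = 0) || decide (l = 2) || decide (l = 4) || decide (l = 5) || decide (l = 8) ||
  (decide (11 ≤ l) && decide (l ≤ 16)) || (decide (32 ≤ l) && decide (l ≤ 34))

/-- the letters of a generic letter of a pattern: `20`, `21` gap own 0, 1 of any length; `32`, `33`,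
`34` solid, own 0, 1, 2; `35` gap own 0, `t` included, `36`, `37` of length 4, at least 5; `38`, `39`,
`40` the same for own 1, `T` included; `41`, ..., `45`: `17`, `6`, `7`, `9`, `10` of any length -/
def lgen (g : ℕ) : List ℕ :=
  if g = 20 then [1, 18] else if g = 21 then [3, 19]
  else if g = 32 then [0, 8, 15, 16] else if g = 33 then [2, 13, 14] else if g = 34 then [11, 12]
  else if g = 35 then [1, 9, 18, 25] else if g = 36 then [1, 9] else if g = 37 then [18, 25]
  else if g = 38 then [3, 10, 19, 26] else if g = 39 then [3, 10] else if g = 40 then [19, 26]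
  else if g = 41 then [17, 22] else if g = 42 then [6, 23] else if g = 43 then [7, 24]
  else if g = 44 then [9, 25] else if g = 45 then [10, 26] else []

/-- the letter `l` of a word has the letter `g` of a pattern -/
def lle (g l : ℕ) : Bool := decide (g = l) || (lgen g).any fun x => decide (x = l)

/-- letterwise `lle` -/
def llw : List ℕ → List ℕ → Bool
  | [], [] => true
  | g :: c, l :: t => lle g l && llw c t
  | _, _ => false

/-- the own units of a letter -/
def lown (l : ℕ) : ℕ :=
  if l = 11 ∨ l = 12 ∨ l = 17 ∨ l = 22 ∨ l = 34 ∨ l = 41 then 2
  else if l = 2 ∨ l = 3 ∨ l = 10 ∨ l = 13 ∨ l = 14 ∨ l = 19 ∨ l = 21 ∨ l = 26 ∨ l = 33 ∨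
    l = 38 ∨ l = 39 ∨ l = 40 ∨ l = 45 then 1 else 0

/-- the letter of a face which has not exactly two units -/
def n2l (q : ℕ) : Bool :=
  decide (q = 1) || decide (q = 3) || decide (q = 6) || decide (q = 7) || decide (q = 17) ||
  decide (q = 18) || decide (q = 19) || decide (q = 20) || decide (q = 21) || decide (q = 22) ||
  decide (q = 23) || decide (q = 24) || decide (q = 41) || decide (q = 42) || decide (q = 43)

/-- the letter of a gap with three units -/
def is3 (q : ℕ) : Bool :=
  decide (q = 3) || decide (q = 17) || decide (q = 19) || decide (q = 21) || decide (q = 22) ||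
  decide (q = 41)

/-- the letter of a gap with two units -/
def is2 (q : ℕ) : Bool :=
  decide (q = 9) || decide (q = 10) || decide (q = 25) || decide (q = 26) || decide (q = 44) ||
  decide (q = 45)

/-- the letter of a gap with a label: the face has no units -/
def is0 (q : ℕ) : Bool :=
  decide (q = 6) || decide (q = 7) || decide (q = 23) || decide (q = 24) || decide (q = 42) ||
  decide (q = 43)

/-- the letter of a gap of length four -/
def ln4 (q : ℕ) : Bool :=
  decide (q = 1) || decide (q = 3) || decide (q = 6) || decide (q = 7) || decide (q = 9) ||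
  decide (q = 10) || decide (q = 17) || decide (q = 36) || decide (q = 39)

/-- the mirror image of a letter -/
def lm (l : ℕ) : ℕ :=
  if l = 4 then 5 else if l = 5 then 4 else if l = 6 then 7 else if l = 7 then 6
  else if l = 11 then 12 else if l = 12 then 11 else if l = 13 then 14 else if l = 14 then 13
  else if l = 15 then 16 else if l = 16 then 15 else if l = 23 then 24 else if l = 24 then 23
  else if l = 42 then 43 else if l = 43 then 42 else l

/-- the mirror image of a word of letters -/
def lmw (c : List ℕ) : List ℕ := c.reverse.map lm

/-- the mirror image of a pattern at a vertex of degree `n` -/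
def lnb (n : ℕ) (nb : List (ℕ × List ℕ)) : List (ℕ × List ℕ) :=
  nb.map fun p => ((n - p.1) % n, lmw p.2)

/-- the units of the end of the first spoke, for the exact letter of a solid triangle -/
def lux (l : ℕ) : ℕ :=
  if l = 13 ∨ l = 15 then 2 else if l = 2 ∨ l = 11 ∨ l = 16 then 1 else 0

/-- the units of the end of the next spoke, for the exact letter of a solid triangle -/
def luy (l : ℕ) : ℕ :=
  if l = 14 ∨ l = 16 then 2 else if l = 2 ∨ l = 12 ∨ l = 15 then 1 else 0

/-- the load of the end of the first spoke in the face: units (`t` in a face of length four: one unit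
at both neighbours), and the label of the opposite edge -/
def ldx (l : ℕ) : ℕ := if l = 8 ∨ l = 9 then 1 else lux l

/-- the load of the end of the next spoke in the face -/
def ldy (l : ℕ) : ℕ := if l = 8 ∨ l = 9 then 1 else luy l

/-- no neighbour has a load of more than two units and labels in the two faces of its spoke and at
its spoke -/
def ovw (c : List ℕ) : Bool :=
  (List.range c.length).all fun i =>
    decide (ldy (c.getD i 0) + ldx (c.getD ((i + 1) % c.length) 0) +
      (if lnx (c.getD i 0) = true then 1 else 0) ≤ 2)

/-- the corners without units are full; `k`, `m`, `n`: the weights, `l`, `x`, `y`: the letters -/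
def zfl (k l m n x y : ℕ) : Bool :=
  (!decide (lown l = 0) || decide (k = 6)) && (!decide (lown x = 0) || decide (m = 6)) &&
    (!decide (lown y = 0) || decide (n = 6))

/-- three vertices on a gap; `k`, `m`, `n`: the weights of the centre and of the neighbours at the
first and at the second dart of the sector; `l`, `x`, `y`: their letters at this face (fine
letters) -/
def g4 (k l m n x y : ℕ) : Bool :=
  lsol l ||
  (decide (lown l + lown x + lown y ≤ 3) &&
    (if lown l = 0 then decide (m = 6) || decide (n = 6)
      else if lown l = 1 then !(decide (m ≤ 4) && decide (n ≤ 5)) &&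
        !(decide (m ≤ 5) && decide (n ≤ 4))
      else !(decide (m ≤ 4) && decide (n ≤ 4))) &&
    (!(is0 l || is0 x || is0 y) || (decide (lown l + lown x + lown y = 0) &&
      zfl k l m n x y)) &&
    (!(decide (lown l = 2) || decide (lown x = 2) || decide (lown y = 2)) ||
      zfl k l m n x y) &&
    (!(ln4 l && decide (lown l + lown x + lown y = 1)) || zfl k l m n x y) &&
    (!decide (l = 9) || (decide (lown x = 1) && decide (lown y = 1))))

/-- two vertices on a gap; `k`, `m`: the weights of the centre and of the neighbour at the first dart
of the sector; `l`, `x`: their letters at this face (fine letters) -/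
def g2 (k l m x : ℕ) : Bool :=
  lsol l ||
  ((!(is0 l || is0 x) || (decide (k = 6) && decide (m = 6))) &&
    (!(decide (lown l = 2) && decide (lown x = 0)) || decide (m = 6)) &&
    (!(decide (lown x = 2) && decide (lown l = 0)) || decide (k = 6)))

/-- the words of letters with a canonical distribution of the units and without overload -/
def glf (c : List ℕ) : Bool :=
  glw c && (decide ((c.map wl).sum = 6) || c.all fun l => !decide (l = 15) && !decide (l = 16)) &&
    ovw c

/-- the long gaps -/
def lng (l : ℕ) : Bool := decide (l = 18) || decide (l = 19) || (decide (22 ≤ l) && decide (l ≤ 26))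

/-- the letters of one face at the two ends of an edge, for letters of the words only -/
def cmpf (x y : ℕ) : Bool := lal x && lal y && cmp x y

/-- no overload of the common neighbour `c1` of `a` and `b` (units and labels); `A`, `B`: the words
at `a → b` and at `b → a` -/
def ov1 (A B : List ℕ) : Bool :=
  decide (luy (A.getD 0 0) + ldx (A.getD 1 0) + ldy (B.getD 2 0) +
    (if lnx (A.getD 0 0) = true then 1 else 0) + (if lnx (B.getD 2 0) = true then 1 else 0) ≤ 2)

/-- the two exceptional pairs -/
def exc0 (A B : List ℕ) : Bool :=
  (decide (A = [14, 0, 2, 0]) && decide (B = [0, 11, 0, 15])) ||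
    (decide (A = [14, 0, 14, 0]) && decide (B = [0, 12, 0, 15]))

/-- the exceptional pair with a label -/
def exc2 (A B : List ℕ) : Bool := decide (A = [0, 11, 0, 16]) && decide (B = [12, 0, 8, 0])

/-- the exceptional pairs and their images -/
def exc (A B : List ℕ) : Bool :=
  (exc0 A B || exc0 B A || exc0 (lmw A) (lmw B) || exc0 (lmw B) (lmw A)) ||
    (exc2 A B || exc2 B A || exc2 (lmw A) (lmw B) || exc2 (lmw B) (lmw A))

/-- the words of two adjacent vertices whose other neighbours are outside -/
def sp2 (A B : List ℕ) : Bool := ov1 A B && ov1 B A && !exc A B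

end Pool.FC7
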