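import Pool.Agent.FC7.StD

/-! # The region with two vertices: the definition of the check of the table -/

namespace Pool.FC7

/-- the fact occurs, turned by `r`, at an edge with the words `A`, `B` whose other neighbours are
outside -/
def spq (X : FCS.Fct) (A B : List ℕ) (r : ℕ) : Bool :=
  FCS.lew lle X.1 (A.rotate r) && X.2.all fun p =>
    if (p.1 + r) % 4 = 0 then !p.2.isEmpty && FCS.lew lle p.2 B else p.2.isEmpty

/-- the fact or its mirror image occurs at the edge or at the reverse edge -/
def sph (X : FCS.Fct) (A B : List ℕ) (v r : ℕ) : Bool :=
  if v = 0 then spq X A B r else if v = 1 then spq (mirX X) A B r else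
    if v = 2 then spq X B A r else spq (mirX X) B A r

/-- the letters of the solid triangles -/
def solL : List ℕ := [0, 2, 4, 5, 8, 11, 12, 13, 14, 15, 16]

/-- the pair of words may occur -/
def sprel (A B : List ℕ) : Bool :=
  Nat.beq (B.getD 3 0) (cmt (A.getD 0 0)) && (Nat.beq (A.getD 3 0) (cmt (B.getD 0 0)) && sp2 A B)

/-- all solid words of length four are in the table -/
def spw (T : List (List ℕ × List (List ℕ × ℕ))) : Bool :=
  solL.all fun a => solL.all fun b => solL.all fun c => solL.all fun d =>
    !glf [a, b, c, d] || T.any fun p => decide (p.1 = [a, b, c, d])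

/-- all pairs are in the table `T`: for each word the second words with the number of the fact, the
variant and the rotation -/
def spt (F : List FCS.Fct) (T : List (List ℕ × List (List ℕ × ℕ))) : Bool :=
  T.all fun p => T.all fun b => !sprel p.1 b.1 ||
    p.2.any fun q => decide (q.1 = b.1) &&
      sph (F.getD (q.2 / 16) ([], [])) p.1 b.1 (q.2 / 4 % 4) (q.2 % 4)

end Pool.FC7
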