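import Pool.Agent.FC7.ClB
import Pool.Agent.FC7.StL

/-! # The letters of the star check

Sector between the real darts `e : v → x` and `nxr e : v → y` at the vertex `v`.

* solid: `0` P; `2` M = units (1,1,1); `4` e = label at `v y`; `5` f = label at `v x`; `8` L = label at
  `x y`; units of `v`, `x`, `y`: `11` A (2,1,0), `12` B (2,0,1), `13` C (1,2,0), `14` D (1,0,2),
  `15` E (0,2,1), `16` F (0,1,2).
* gap of length 4 / at least 5: `1` / `18` O = no unit here, none or three units in the face, no label
  at the two edges; `3` / `19` S = one unit here, three units; `17` / `22` Z = two units here, three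
  units; `6` / `23` g = label at `v y`; `7` / `24` h = label at `v x`; `9` / `25` t = two units, none
  here; `10` / `26` T = two units, one here.
* only in patterns: `20`, `21` and `32`, ..., `45`, see `lgen`. -/

open Finset

set_option linter.unusedSectionVars false

namespace Pool.FC7

open Pool.FC6 Pool.FC6.St

/-- the letter of a code; `s`: the label of the next spoke -/
def lett (l : ℕ) (s : Bool) : ℕ :=
  if lK l = 0 then
    (if lA l + lB l + lC l = 0 then
      (if lS l = true then 5 else if s = true then 4 else if lO l = true then 8 else 0)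
    else if lA l = 1 ∧ lB l = 1 then 2
    else if lA l = 2 then (if lB l = 1 then 11 else 12)
    else if lA l = 1 then (if lB l = 2 then 13 else 14)
    else (if lB l = 2 then 15 else 16))
  else if lB l = 3 then (if lS l = true then (if lC l = 2 then 24 else 7)
    else if s = true then (if lC l = 2 then 23 else 6)
    else if lC l = 2 then 18 else 1)
  else if lB l = 1 then (if lA l = 0 then (if lC l = 2 then 25 else 9)
    else (if lC l = 2 then 26 else 10))
  else (if lA l = 0 then (if lC l = 2 then 18 else 1)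
    else if lA l = 1 then (if lC l = 2 then 19 else 3) else (if lC l = 2 then 22 else 17))

/-- the word of letters of a word of codes -/
def lwd (wd : List ℕ) : List ℕ :=
  (List.range wd.length).map fun i => lett (wd.getD i 0) (lS (wd.getD ((i + 1) % wd.length) 0))

theorem lwd_length (wd : List ℕ) : (lwd wd).length = wd.length := by simp [lwd]

theorem lwd_getD {wd : List ℕ} {i : ℕ} (hi : i < wd.length) :
    (lwd wd).getD i 0 = lett (wd.getD i 0) (lS (wd.getD ((i + 1) % wd.length) 0)) := by
  unfold lwd
  rw [List.getD_eq_getElem _ _ (by simpa using hi)]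
  simp

theorem parts_mod (l : ℕ) : lA (l % 1024) = lA l ∧ lB (l % 1024) = lB l ∧
    lC (l % 1024) = lC l ∧ lK (l % 1024) = lK l ∧ lS (l % 1024) = lS l ∧ lO (l % 1024) = lO l := by
  have h : (1024 : ℕ) = 2 ^ 10 := by norm_num
  refine ⟨?_, ?_, ?_, ?_, ?_, ?_⟩
  · unfold lA; omega
  · unfold lB; omega
  · unfold lC; omega
  · unfold lK; omega
  · unfold lS; rw [h, Nat.testBit_mod_two_pow]; simp
  · unfold lO; rw [h, Nat.testBit_mod_two_pow]; simp

/-- the properties of a letter -/
def lok (l : ℕ) (s : Bool) : Bool :=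
  !glt l s || (decide (wl (lett l s) = 1 + lA l + (if lS l = true then 1 else 0)) &&
    lal (lett l s) && (lnx (lett l s) == s) && (lpv (lett l s) == lS l) &&
    (ful l s || !lfu (lett l s)) && (lsol (lett l s) == decide (lK l = 0)))

theorem lok_all : ∀ l < 1024, lok l true = true ∧ lok l false = true := by decide +kernel

/-- the letters of a sector -/
theorem lett_ok {l : ℕ} {s : Bool} (h : glt l s = true) :
    wl (lett l s) = 1 + lA l + (if lS l = true then 1 else 0) ∧ lal (lett l s) = true ∧
      lnx (lett l s) = s ∧ lpv (lett l s) = lS l ∧ (ful l s = false → lfu (lett l s) = false) ∧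
      lsol (lett l s) = decide (lK l = 0) := by
  obtain ⟨m1, m2, m3, m4, m5, m6⟩ := parts_mod l
  have e1 : lok (l % 1024) s = lok l s := by
    unfold lok glt ful lett
    rw [m1, m2, m3, m4, m5, m6]
  have h1 : lok l s = true := by
    rw [← e1]
    have := lok_all (l % 1024) (Nat.mod_lt _ (by norm_num))
    cases s
    · exact this.2
    · exact this.1
  unfold lok at h1
  rw [h] at h1
  simp only [Bool.not_true, Bool.false_or, Bool.and_eq_true, decide_eq_true_eq, beq_iff_eq,
    Bool.or_eq_true, Bool.not_eq_true'] at h1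
  obtain ⟨⟨⟨⟨⟨h1, h2⟩, h3⟩, h4⟩, h5⟩, h6⟩ := h1
  exact ⟨h1, h2, h3, h4, fun hf => h5.resolve_left (by rw [hf]; decide), h6⟩

/-- the words of letters of good words -/
theorem glw_of {wd : List ℕ} (h : goodw 6 wd = true) : glw (lwd wd) = true := by
  unfold goodw at h
  simp only [Bool.and_eq_true, Bool.or_eq_true, decide_eq_true_eq, List.all_eq_true,
    List.mem_range, Bool.not_eq_true'] at h
  obtain ⟨⟨⟨⟨h1, h2⟩, h3⟩, h4⟩, h5⟩ := h
  have hl : ∀ i < wd.length, ∃ l s, (lwd wd).getD i 0 = lett l s ∧ glt l s = true ∧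
      l = wd.getD i 0 ∧ s = lS (wd.getD ((i + 1) % wd.length) 0) := fun i hi =>
    ⟨_, _, lwd_getD hi, h4 i hi, rfl, rfl⟩
  have hmem : ∀ x ∈ lwd wd, ∃ i < wd.length, x = (lwd wd).getD i 0 := by
    intro x hx
    obtain ⟨i, hi, rfl⟩ := List.mem_iff_getElem.1 hx
    rw [lwd_length] at hi
    exact ⟨i, hi, by rw [List.getD_eq_getElem _ _ (by rw [lwd_length]; exact hi)]⟩
  have hsum : ((lwd wd).map wl).sum = dgw wd := by
    rw [← sum_getD, lwd_length]
    unfold dgw
    rw [← sum_getD]
    refine Finset.sum_congr rfl fun i hi => ?_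
    obtain ⟨l, s, e1, e2, e3, e4⟩ := hl i (Finset.mem_range.1 hi)
    rw [e1, (lett_ok e2).1, ← e3]
  unfold glw
  simp only [Bool.and_eq_true, Bool.or_eq_true, decide_eq_true_eq, List.all_eq_true,
    List.mem_range, Bool.not_eq_true', beq_iff_eq]
  refine ⟨⟨⟨⟨by rw [lwd_length]; exact h1, by omega⟩, fun x hx => ?_⟩, fun i hi => ?_⟩, ?_⟩
  · obtain ⟨i, hi, rfl⟩ := hmem x hx
    obtain ⟨l, s, e1, e2, e3, e4⟩ := hl i hi
    rw [e1]; exact (lett_ok e2).2.1
  · rw [lwd_length] at hi
    obtain ⟨l, s, e1, e2, e3, e4⟩ := hl i hi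
    have hm : (i + 1) % wd.length < wd.length := Nat.mod_lt _ (by omega)
    obtain ⟨l', s', f1, f2, f3, f4⟩ := hl _ hm
    rw [lwd_length, e1, f1, (lett_ok e2).2.2.1, (lett_ok f2).2.2.2.1, e4, f3]
  · rcases h5 with h5 | h5
    · left; omega
    · right
      intro x hx
      obtain ⟨i, hi, rfl⟩ := hmem x hx
      obtain ⟨l, s, e1, e2, e3, e4⟩ := hl i hi
      rw [e1]
      refine (lett_ok e2).2.2.2.2.1 ?_
      rw [e3, e4]; exact h5 i hi

end Pool.FC7
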