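import Pool.Agent.FC7.SyA

/-! # The words of letters in a minimal counterexample -/

open Finset

set_option linter.unusedSectionVars false

namespace Pool.FC7

open Pool.FC6 Pool.FC6.St

variable {D V : Type} [Fintype D] [DecidableEq V]

/-- the word of letters at a real dart -/
noncomputable def lwo (S : St D V) (L : D → Bool) (d : D) : List ℕ := lwd (word S L d)

/-- the letter of the sector after a real dart -/
noncomputable def lto (S : St D V) (L : D → Bool) (d : D) : ℕ := lett (code S L d) (L (S.nxr d))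

variable {S : St D V} {L : D → Bool} {w : D → ℕ} {d e : D}

theorem lwo_length : (lwo S L d).length = S.rdeg (S.M.v d) := by
  unfold lwo
  rw [lwd_length, word_length]

section mc

variable (h : MC 6 S L w) (hS : IsStar S) (hd : S.real d = true)

include h hS hd

theorem MC.lwo_getD {i : ℕ} (hi : i < S.rdeg (S.M.v d)) :
    (lwo S L d).getD i 0 = lto S L (S.nxr^[i] d) := by
  have W := h.ok.toWf
  have hlen := word_length (S := S) (L := L) (d := d)
  unfold lwo lto
  rw [lwd_getD (by rw [hlen]; exact hi), word_getD hi, ← Function.iterate_succ_apply' S.nxr, hlen]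
  congr 1
  by_cases h1 : i + 1 < S.rdeg (S.M.v d)
  · rw [Nat.mod_eq_of_lt h1, word_getD h1, code_S (h.u_lt (le_refl 6) hS)]
  · have h2 : i + 1 = S.rdeg (S.M.v d) := by omega
    rw [h2, Nat.mod_self, word_getD (by omega), code_S (h.u_lt (le_refl 6) hS)]
    have h3 : S.nxr^[i.succ] d = d := by
      rw [Nat.succ_eq_add_one, h2]
      exact hS.nxr_rdeg W hd
    rw [h3]
    rfl

theorem MC.rdeg_pos : 4 ≤ S.rdeg (S.M.v d) := h.rdeg4 (le_refl 6) (h.ok.real_A _ hd)

theorem MC.lwo_ne : lwo S L d ≠ [] := by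
  intro h1
  have h2 := lwo_length (S := S) (L := L) (d := d)
  have h3 := h.rdeg_pos hS hd
  rw [h1, List.length_nil] at h2
  omega

/-- (h1) the word at the next real dart -/
theorem MC.lwo_rot : lwo S L (S.nxr d) = (lwo S L d).rotate 1 := by
  have W := h.ok.toWf
  have h4 := h.rdeg_pos hS hd
  refine List.ext_getElem ?_ fun i h1 h2 => ?_
  · rw [List.length_rotate, lwo_length, lwo_length, v_nxr]
  · have h1' := h1
    rw [lwo_length, v_nxr] at h1'
    rw [List.getElem_rotate, ← List.getD_eq_getElem _ 0, ← List.getD_eq_getElem _ 0,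
      h.lwo_getD hS (hS.nxr_real W hd) (by rw [v_nxr]; exact h1'), lwo_length,
      h.lwo_getD hS hd (Nat.mod_lt _ (by omega)), ← Function.iterate_succ_apply]
    by_cases h5 : i + 1 < S.rdeg (S.M.v d)
    · rw [Nat.mod_eq_of_lt h5]
    · have h6 : i + 1 = S.rdeg (S.M.v d) := by omega
      rw [h6, Nat.mod_self, Nat.succ_eq_add_one, h6, hS.nxr_rdeg W hd]
      rfl

/-- (h5) the words which occur -/
theorem MC.lwo_glw : glw (lwo S L d) = true := glw_of (h.good (le_refl 6) hS hd)

/-- the real dart before -/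
theorem MC.prv : ∃ r, S.real r = true ∧ S.nxr r = d := by
  have W := h.ok.toWf
  have h4 := h.rdeg_pos hS hd
  refine ⟨S.nxr^[S.rdeg (S.M.v d) - 1] d, hS.nxr_iter_real W hd _, ?_⟩
  rw [← Function.iterate_succ_apply' S.nxr, Nat.succ_eq_add_one, Nat.sub_add_cancel (by omega)]
  exact hS.nxr_rdeg W hd

/-- (h4) the third side of a solid triangle -/
theorem MC.tri (hs : lsol (lto S L d) = true) :
    ∃ r, S.real r = true ∧ S.nxr r = S.M.α d ∧ S.M.α r = S.nxr (S.M.α (S.nxr d)) := by
  have W := h.ok.toWf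
  have hrα : S.real (S.M.α d) = true := by rw [W.real_α]; exact hd
  obtain ⟨r, h1, h2⟩ := h.prv hS hrα
  have h3 := h.glt (le_refl 6) hS hd
  have h4 := (lett_ok h3).2.2.2.2.2
  have h5 : lK (code S L d) = 0 := by
    unfold lto at hs
    rw [hs] at h4
    exact of_decide_eq_true h4.symm
  have h6 := isL_code hS W (h.u_lt (le_refl 6) hS) (h.csz3 (le_refl 6) hS) (d := d) (L := L)
  exact ⟨r, h1, h2, (h6.tri hS W h5 hd h1 h2).symm⟩

end mc

end Pool.FC7
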