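import Pool.Agent.FC7.SyB

/-! # The words of letters in a minimal counterexample: the two ends of an edge -/

open Finset

set_option linter.unusedSectionVars false

namespace Pool.FC7

open Pool.FC6 Pool.FC6.St

theorem cmp_solid : ∀ a < 3, ∀ b < 3, ∀ c < 3, ∀ s o s1 : Bool,
    glt (mkl a b c 0 s o) s1 = true →
      cmp (lett (mkl a b c 0 s o) s1) (lett (mkl b c a 0 o s1) s) = true := by decide +kernel

/-- the conditions for the units and labels of a gap -/
def gpc (n a a' : ℕ) (s s1 s2 : Bool) : Bool :=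
  (decide (n = 0) && decide (a = 0) && decide (a' = 0) && !(s && s1) && !(s && s2) && !(s1 && s2)) ||
  (decide (n = 2) && decide (a + a' < 2) && !s && !s1 && !s2) ||
  (decide (n = 3) && decide (a + a' < 4) && !s && !s1 && !s2)

theorem cmp_gap_all : (allN 4 fun n => allN 3 fun a => allN 3 fun a' => allN 3 fun c =>
    [false, true].all fun s => [false, true].all fun s1 =>
      [false, true].all fun s2 => !gpc n a a' s s1 s2 ||
        cmp (lett (mkl a (fcl n) c 1 s false) s1) (lett (mkl a' (fcl n) c 1 s2 false) s)) =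
          true := by decide +kernel

theorem cmp_gap {n a a' c : ℕ} (hn : n < 4) (ha : a < 3) (ha' : a' < 3) (hc : c < 3)
    {s s1 s2 : Bool} (h : gpc n a a' s s1 s2 = true) :
    cmp (lett (mkl a (fcl n) c 1 s false) s1) (lett (mkl a' (fcl n) c 1 s2 false) s) =
      true := by
  have h1 := cmp_gap_all
  simp only [allN_iff, List.all_eq_true] at h1
  have h2 := h1 n hn a ha a' ha' c hc s (by cases s <;> simp) s1 (by cases s1 <;> simp) s2
    (by cases s2 <;> simp)
  rw [h, Bool.not_true, Bool.false_or] at h2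
  exact h2

variable {D V : Type} [Fintype D] [DecidableEq V]
  {S : St D V} {L : D → Bool} {w : D → ℕ} {d e r : D}

/-- two different corners have together at most the units of the face -/
theorem u2_le_fu {x y : D} (hx : S.sc.r e x) (hy : S.sc.r e y) (hne : x ≠ y) :
    S.u x + S.u y ≤ fu S e := by
  classical
  have h1 : ∑ t ∈ {x, y}, (if S.sc.r e t then S.u t else 0) ≤ fu S e :=
    Finset.sum_le_sum_of_subset (Finset.subset_univ _)
  rw [Finset.sum_pair hne, if_pos hx, if_pos hy] at h1
  exact h1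

/-- three different corners have together at most the units of the face -/
theorem u3_le_fu {x y z : D} (hx : S.sc.r e x) (hy : S.sc.r e y) (hz : S.sc.r e z)
    (h1 : x ≠ y) (h2 : x ≠ z) (h3 : y ≠ z) : S.u x + S.u y + S.u z ≤ fu S e := by
  classical
  have h4 : ∑ t ∈ {x, y, z}, (if S.sc.r e t then S.u t else 0) ≤ fu S e :=
    Finset.sum_le_sum_of_subset (Finset.subset_univ _)
  rw [Finset.sum_insert, Finset.sum_pair h3, if_pos hx, if_pos hy, if_pos hz] at h4
  · omega
  · rw [Finset.mem_insert, Finset.mem_singleton]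
    push Not
    exact ⟨h1, h2⟩

section mc

variable (h : MC 6 S L w) (hS : IsStar S) (hd : S.real d = true)

include h hS hd

/-- the codes of one face at the two ends of an edge -/
theorem MC.ends (hr : S.real r = true) (hn : S.nxr r = S.M.α d) :
    (S.real (S.M.σ d) = true ∧
      code S L d = mkl (S.u (S.nxr d)) (S.u (S.M.α d)) (S.u (S.M.α r)) 0 (L d) (L r) ∧
      code S L r = mkl (S.u (S.M.α d)) (S.u (S.M.α r)) (S.u (S.nxr d)) 0 (L r) (L (S.nxr d)) ∧
      L (S.nxr r) = L d ∧ S.M.φ (S.M.σ d) = S.M.α r) ∨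
    (¬ S.real (S.M.σ d) = true ∧
      code S L d = mkl (S.u (S.nxr d)) (fcl (fu S (S.M.α d)))
        (if S.csz (S.M.σ d) = 4 then 1 else 2) 1 (L d) false ∧
      code S L r = mkl (S.u (S.M.α d)) (fcl (fu S (S.M.α d)))
        (if S.csz (S.M.σ d) = 4 then 1 else 2) 1 (L r) false ∧
      L (S.nxr r) = L d ∧ fu S (S.M.α d) < 4 ∧
      gpc (fu S (S.M.α d)) (S.u (S.nxr d)) (S.u (S.M.α d)) (L d) (L (S.nxr d)) (L r) = true) := by
  have W := h.ok.toWf
  have ub := fun x => h.u_lt (le_refl 6) hS x
  have g1 := h.glt (le_refl 6) hS hd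
  obtain ⟨s1, s2⟩ := St.shared (S := nou S) hS.nou W.nou hd hr hn
  have s1' : S.real (S.M.σ r) = S.real (S.M.σ d) := s1
  have lr : L (S.nxr r) = L d := by rw [hn]; exact W.L_α d
  have hrd : S.real (S.M.α d) = true := by rw [W.real_α]; exact hd
  by_cases hs : S.real (S.M.σ d) = true
  · have hs' : S.real (S.M.σ r) = true := by rw [s1']; exact hs
    have e1 : S.M.σ r = S.M.α d := by rw [← hn]; exact (if_pos hs').symm
    have e2 : S.M.φ (S.M.σ d) = S.M.α r := by
      have e3 : S.M.φ (S.M.α r) = S.M.α d := e1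
      show S.M.φ (S.M.φ (S.M.α d)) = S.M.α r
      rw [← e3, S.M.φ3]
    have e4 : S.nxr d = S.M.σ d := if_pos hs
    have e5 : S.M.φ (S.M.σ r) = S.nxr d := by rw [e1, e4]; rfl
    have c1 : code S L d = mkl (S.u (S.nxr d)) (S.u (S.M.α d)) (S.u (S.M.α r)) 0 (L d) (L r) := by
      unfold code
      rw [if_pos hs, e2, W.L_α]
    have c2 : code S L r = mkl (S.u (S.M.α d)) (S.u (S.M.α r)) (S.u (S.nxr d)) 0 (L r)
        (L (S.nxr d)) := by
      unfold code
      rw [if_pos hs', e5, hn]
    exact Or.inl ⟨hs, c1, c2, lr, e2⟩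
  · have hs0 : S.real (S.M.σ d) = false := by simpa using hs
    have hs' : ¬ S.real (S.M.σ r) = true := by rw [s1']; exact hs
    have hs0' : S.real (S.M.σ r) = false := by simpa using hs'
    -- the face
    have f0 : fu S (S.M.σ d) = fu S (S.M.α d) := (fu_congr (sc_sec1 d)).symm
    have k1 : S.sc.r (S.M.α r) (S.M.α d) := by rw [← hn]; exact sc_nxr r
    have k2 : S.sc.r (S.M.α d) (S.M.α r) := S.sc.iseqv.symm k1
    have f1 : fu S (S.M.σ r) = fu S (S.M.α d) := by
      rw [← fu_congr (sc_sec1 r), fu_congr k1]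
    have c1 : code S L d = mkl (S.u (S.nxr d)) (fcl (fu S (S.M.α d)))
        (if S.csz (S.M.σ d) = 4 then 1 else 2) 1 (L d) false := by
      unfold code
      rw [if_neg hs, f0]
    have z1 : S.csz (S.M.σ r) = S.csz (S.M.σ d) := by
      rw [← csz_congr (sc_sec1 r), csz_congr k1, csz_congr (sc_sec1 d)]
    have c2 : code S L r = mkl (S.u (S.M.α d)) (fcl (fu S (S.M.α d)))
        (if S.csz (S.M.σ d) = 4 then 1 else 2) 1 (L r) false := by
      unfold code
      rw [if_neg hs', f1, hn, z1]
    have hne : S.nxr d ≠ S.M.α d := (h.nxr_ne (le_refl 6) hS hd).2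
    have hlt : fu S (S.M.α d) < 4 := by rcases h.fu023 (le_refl 6) (S.M.α d) with q | q | q <;> omega
    refine Or.inr ⟨hs, c1, c2, lr, hlt, ?_⟩
    have l1 := h.lab_sn (le_refl 6) hS hd
    have l2 : (L d && L r) = false := by
      have := h.lab_sn (le_refl 6) hS hr
      rw [lr] at this
      rw [Bool.and_comm]; exact this
    have l3 : (L (S.nxr d) && L r) = false := by
      rw [Bool.and_eq_false_iff]
      by_contra hc
      push Not at hc
      have h1 : L (S.nxr d) = true := by simpa using hc.1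
      have hr' : L (S.M.α r) = true := by rw [W.L_α]; simpa using hc.2
      rcases h.lab_one (le_refl 6) h1 hr'
        (S.sc.iseqv.trans (S.sc.iseqv.symm (sc_nxr d)) k2) with h2 | h2
      · -- `α r = nxr d`: then `r` is a dart from the head of `d` to `v d`
        have h3 : S.M.v (S.M.α r) = S.M.v (S.M.α (S.M.α d)) := by rw [h2, v_nxr, S.M.αα]
        have h4 : S.M.v r = S.M.v (S.M.α d) := by rw [← hn, v_nxr]
        have h5 : r = S.M.α d := W.simple _ _ hr hrd h4 h3
        exact (h.nxr_ne (le_refl 6) hS hr).1 (by rw [hn, h5])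
      · have h3 : S.M.v r = S.M.v (S.nxr d) := by
          have := congrArg S.M.α h2
          rw [S.M.αα, S.M.αα] at this
          rw [this]
        have h4 : S.M.v r = S.M.v (S.M.α d) := by rw [← hn, v_nxr]
        rw [h3, v_nxr] at h4
        exact W.real_ne _ hd h4
    have l0 := h.lab_s (le_refl 6) hS hd
    have n0 := h.lab_n (le_refl 6) hS hd
    have r0 : L r = true → fu S (S.M.α d) = 0 := fun hl => by
      rw [← fu_congr k1]; exact h.lab_s (le_refl 6) hS hr hl
    have nl : fu S (S.M.α d) ≠ 0 → L d = false ∧ L (S.nxr d) = false ∧ L r = false := by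
      intro hne
      refine ⟨?_, ?_, ?_⟩
      · by_contra hc; exact hne (l0 (by simpa using hc))
      · by_contra hc; exact hne (n0 (by simpa using hc))
      · by_contra hc; exact hne (r0 (by simpa using hc))
    have hsum := u2_le_fu (sc_nxr d) (S.sc.iseqv.refl (S.M.α d)) hne
    unfold gpc
    simp only [Bool.or_eq_true, Bool.and_eq_true, decide_eq_true_eq, Bool.not_eq_true']
    rcases h.fu023 (le_refl 6) (S.M.α d) with q | q | q
    · left; left
      exact ⟨⟨⟨⟨⟨q, by omega⟩, by omega⟩, l1⟩, l2⟩, l3⟩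
    · left; right
      obtain ⟨n1, n2, n3⟩ := nl (by omega)
      refine ⟨⟨⟨⟨q, ?_⟩, n1⟩, n2⟩, n3⟩
      have t1 := (h.two_u q (sc_nxr d) (sc_nxr d)).1
      have t2 := (h.two_u q (S.sc.iseqv.refl _) (S.sc.iseqv.refl _)).1
      by_contra hc
      have t3 := (h.two_u q (S.sc.iseqv.refl _) (sc_nxr d)).2 (Ne.symm hne) (by omega) (by omega)
        (S.M.α d) hrd (S.sc.iseqv.refl _)
      exact t3 ⟨rfl, by rw [S.M.αα, v_nxr]⟩
    · right
      obtain ⟨n1, n2, n3⟩ := nl (by omega)
      exact ⟨⟨⟨⟨q, by omega⟩, n1⟩, n2⟩, n3⟩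

/-- (h3) the letters of one face at the two ends of an edge -/
theorem MC.cmp (hr : S.real r = true) (hn : S.nxr r = S.M.α d) :
    cmp (lto S L d) (lto S L r) = true := by
  have W := h.ok.toWf
  have ub := fun x => h.u_lt (le_refl 6) hS x
  have g1 := h.glt (le_refl 6) hS hd
  obtain ⟨s1, s2⟩ := St.shared (S := nou S) hS.nou W.nou hd hr hn
  have s1' : S.real (S.M.σ r) = S.real (S.M.σ d) := s1
  have lr : L (S.nxr r) = L d := by rw [hn]; exact W.L_α d
  have hrd : S.real (S.M.α d) = true := by rw [W.real_α]; exact hd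
  unfold lto
  by_cases hs : S.real (S.M.σ d) = true
  · have hs' : S.real (S.M.σ r) = true := by rw [s1']; exact hs
    have e1 : S.M.σ r = S.M.α d := by rw [← hn]; exact (if_pos hs').symm
    have e2 : S.M.φ (S.M.σ d) = S.M.α r := by
      have e3 : S.M.φ (S.M.α r) = S.M.α d := e1
      show S.M.φ (S.M.φ (S.M.α d)) = S.M.α r
      rw [← e3, S.M.φ3]
    have e4 : S.nxr d = S.M.σ d := if_pos hs
    have e5 : S.M.φ (S.M.σ r) = S.nxr d := by rw [e1, e4]; rfl
    have c1 : code S L d = mkl (S.u (S.nxr d)) (S.u (S.M.α d)) (S.u (S.M.α r)) 0 (L d) (L r) := by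
      unfold code
      rw [if_pos hs, e2, W.L_α]
    have c2 : code S L r = mkl (S.u (S.M.α d)) (S.u (S.M.α r)) (S.u (S.nxr d)) 0 (L r)
        (L (S.nxr d)) := by
      unfold code
      rw [if_pos hs', e5, hn]
    rw [c1] at g1
    rw [c1, c2, lr]
    exact cmp_solid _ (ub _) _ (ub _) _ (ub _) _ _ _ g1
  · have hs0 : S.real (S.M.σ d) = false := by simpa using hs
    have hs' : ¬ S.real (S.M.σ r) = true := by rw [s1']; exact hs
    have hs0' : S.real (S.M.σ r) = false := by simpa using hs'
    -- the face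
    have f0 : fu S (S.M.σ d) = fu S (S.M.α d) := (fu_congr (sc_sec1 d)).symm
    have k1 : S.sc.r (S.M.α r) (S.M.α d) := by rw [← hn]; exact sc_nxr r
    have k2 : S.sc.r (S.M.α d) (S.M.α r) := S.sc.iseqv.symm k1
    have f1 : fu S (S.M.σ r) = fu S (S.M.α d) := by
      rw [← fu_congr (sc_sec1 r), fu_congr k1]
    have c1 : code S L d = mkl (S.u (S.nxr d)) (fcl (fu S (S.M.α d)))
        (if S.csz (S.M.σ d) = 4 then 1 else 2) 1 (L d) false := by
      unfold code
      rw [if_neg hs, f0]
    have z1 : S.csz (S.M.σ r) = S.csz (S.M.σ d) := by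
      rw [← csz_congr (sc_sec1 r), csz_congr k1, csz_congr (sc_sec1 d)]
    have c2 : code S L r = mkl (S.u (S.M.α d)) (fcl (fu S (S.M.α d)))
        (if S.csz (S.M.σ d) = 4 then 1 else 2) 1 (L r) false := by
      unfold code
      rw [if_neg hs', f1, hn, z1]
    rw [c1, c2, lr]
    have hne : S.nxr d ≠ S.M.α d := (h.nxr_ne (le_refl 6) hS hd).2
    have hlt : fu S (S.M.α d) < 4 := by rcases h.fu023 (le_refl 6) (S.M.α d) with q | q | q <;> omega
    refine cmp_gap hlt (ub _) (ub _) (by split_ifs <;> norm_num) ?_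
    have l1 := h.lab_sn (le_refl 6) hS hd
    have l2 : (L d && L r) = false := by
      have := h.lab_sn (le_refl 6) hS hr
      rw [lr] at this
      rw [Bool.and_comm]; exact this
    have l3 : (L (S.nxr d) && L r) = false := by
      rw [Bool.and_eq_false_iff]
      by_contra hc
      push Not at hc
      have h1 : L (S.nxr d) = true := by simpa using hc.1
      have hr' : L (S.M.α r) = true := by rw [W.L_α]; simpa using hc.2
      rcases h.lab_one (le_refl 6) h1 hr'
        (S.sc.iseqv.trans (S.sc.iseqv.symm (sc_nxr d)) k2) with h2 | h2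
      · -- `α r = nxr d`: then `r` is a dart from the head of `d` to `v d`
        have h3 : S.M.v (S.M.α r) = S.M.v (S.M.α (S.M.α d)) := by rw [h2, v_nxr, S.M.αα]
        have h4 : S.M.v r = S.M.v (S.M.α d) := by rw [← hn, v_nxr]
        have h5 : r = S.M.α d := W.simple _ _ hr hrd h4 h3
        exact (h.nxr_ne (le_refl 6) hS hr).1 (by rw [hn, h5])
      · have h3 : S.M.v r = S.M.v (S.nxr d) := by
          have := congrArg S.M.α h2
          rw [S.M.αα, S.M.αα] at this
          rw [this]
        have h4 : S.M.v r = S.M.v (S.M.α d) := by rw [← hn, v_nxr]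
        rw [h3, v_nxr] at h4
        exact W.real_ne _ hd h4
    have l0 := h.lab_s (le_refl 6) hS hd
    have n0 := h.lab_n (le_refl 6) hS hd
    have r0 : L r = true → fu S (S.M.α d) = 0 := fun hl => by
      rw [← fu_congr k1]; exact h.lab_s (le_refl 6) hS hr hl
    have nl : fu S (S.M.α d) ≠ 0 → L d = false ∧ L (S.nxr d) = false ∧ L r = false := by
      intro hne
      refine ⟨?_, ?_, ?_⟩
      · by_contra hc; exact hne (l0 (by simpa using hc))
      · by_contra hc; exact hne (n0 (by simpa using hc))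
      · by_contra hc; exact hne (r0 (by simpa using hc))
    have hsum := u2_le_fu (sc_nxr d) (S.sc.iseqv.refl (S.M.α d)) hne
    unfold gpc
    simp only [Bool.or_eq_true, Bool.and_eq_true, decide_eq_true_eq, Bool.not_eq_true']
    rcases h.fu023 (le_refl 6) (S.M.α d) with q | q | q
    · left; left
      exact ⟨⟨⟨⟨⟨q, by omega⟩, by omega⟩, l1⟩, l2⟩, l3⟩
    · left; right
      obtain ⟨n1, n2, n3⟩ := nl (by omega)
      refine ⟨⟨⟨⟨q, ?_⟩, n1⟩, n2⟩, n3⟩
      have t1 := (h.two_u q (sc_nxr d) (sc_nxr d)).1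
      have t2 := (h.two_u q (S.sc.iseqv.refl _) (S.sc.iseqv.refl _)).1
      by_contra hc
      have t3 := (h.two_u q (S.sc.iseqv.refl _) (sc_nxr d)).2 (Ne.symm hne) (by omega) (by omega)
        (S.M.α d) hrd (S.sc.iseqv.refl _)
      exact t3 ⟨rfl, by rw [S.M.αα, v_nxr]⟩
    · right
      obtain ⟨n1, n2, n3⟩ := nl (by omega)
      exact ⟨⟨⟨⟨q, by omega⟩, n1⟩, n2⟩, n3⟩

/-- (h3) for the words -/
theorem MC.cmpw : FC7.cmp ((lwo S L d).getD 0 0)
    ((lwo S L (S.M.α d)).getD ((lwo S L (S.M.α d)).length - 1) 0) = true := by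
  have W := h.ok.toWf
  have hrd : S.real (S.M.α d) = true := by rw [W.real_α]; exact hd
  have h4 := h.rdeg_pos hS hd
  have h4' := h.rdeg_pos hS hrd
  rw [lwo_length, h.lwo_getD hS hd (by omega), h.lwo_getD hS hrd (by omega)]
  refine h.cmp hS hd (hS.nxr_iter_real W hrd _) ?_
  rw [← Function.iterate_succ_apply' S.nxr, Nat.succ_eq_add_one, Nat.sub_add_cancel (by omega)]
  exact hS.nxr_rdeg W hrd

end mc

end Pool.FC7
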