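import Pool.Agent.FC7.SyC
import Pool.Agent.FC7.FtA

/-! # From the words of letters to words of codes -/

open Finset

set_option linter.unusedSectionVars false

namespace Pool.FC7

open Pool.FC6 Pool.FC6.St

theorem lle_refl (l : ℕ) : lle l l = true := by simp [lle]

theorem llw_refl (c : List ℕ) : llw c c = true := by
  induction c with
  | nil => rfl
  | cons x t ih =>
    show (lle x x && llw t t) = true
    rw [lle_refl, ih]; rfl

theorem llw_iff {c t : List ℕ} : llw c t = true ↔
    c.length = t.length ∧ ∀ i < c.length, lle (c.getD i 0) (t.getD i 0) = true := by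
  induction c generalizing t with
  | nil =>
    cases t with
    | nil => simp [llw]
    | cons y t => simp [llw]
  | cons x c ih =>
    cases t with
    | nil => simp [llw]
    | cons y t =>
      rw [show llw (x :: c) (y :: t) = (lle x y && llw c t) from rfl, Bool.and_eq_true, ih]
      simp only [List.length_cons, Nat.add_right_cancel_iff]
      constructor
      · rintro ⟨h1, h2, h3⟩
        refine ⟨h2, fun i hi => ?_⟩
        cases i with
        | zero => exact h1
        | succ i => exact h3 i (by omega)
      · rintro ⟨h1, h2⟩
        exact ⟨h2 0 (by omega), h1, fun i hi => h2 (i + 1) (by omega)⟩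

theorem llw_len {c t : List ℕ} (h : llw c t = true) : c.length = t.length := (llw_iff.1 h).1

theorem llw_getD {c t : List ℕ} (h : llw c t = true) {i : ℕ} (hi : i < c.length) :
    lle (c.getD i 0) (t.getD i 0) = true := (llw_iff.1 h).2 i hi

theorem getD_rotate {c : List ℕ} {i k : ℕ} (hi : i < c.length) :
    (c.rotate k).getD i 0 = c.getD ((i + k) % c.length) 0 := by
  rw [List.getD_eq_getElem _ _ (by rw [List.length_rotate]; exact hi), List.getElem_rotate,
    ← List.getD_eq_getElem _ 0]

theorem llw_rotate {c t : List ℕ} (h : llw c t = true) (k : ℕ) :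
    llw (c.rotate k) (t.rotate k) = true := by
  have hl := llw_len h
  rw [llw_iff]
  refine ⟨by rw [List.length_rotate, List.length_rotate, hl], fun i hi => ?_⟩
  rw [List.length_rotate] at hi
  rw [getD_rotate hi, getD_rotate (by rw [← hl]; exact hi), ← hl]
  exact llw_getD h (Nat.mod_lt _ (by omega))

theorem lle_iff {g l : ℕ} : lle g l = true ↔ g = l ∨ l ∈ lgen g := by
  unfold lle
  rw [Bool.or_eq_true, decide_eq_true_eq, List.any_eq_true]
  constructor
  · rintro (h | ⟨x, h1, h2⟩)
    · exact Or.inl h
    · rw [decide_eq_true_eq] at h2
      subst h2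
      exact Or.inr h1
  · rintro (h | h)
    · exact Or.inl h
    · exact Or.inr ⟨l, h, decide_eq_true rfl⟩

theorem lgen_big {g : ℕ} (h : 46 ≤ g) : lgen g = [] := by
  unfold lgen
  repeat rw [if_neg (by omega)]

/-- a relation for all letters of all generic letters -/
theorem lle_all {f : ℕ → ℕ → Bool} (h0 : ∀ l, f l l = true)
    (h1 : ((List.range 46).all fun g => (lgen g).all fun l => f g l) = true) {g l : ℕ}
    (h : lle g l = true) : f g l = true := by
  rcases lle_iff.1 h with rfl | h2
  · exact h0 _
  · by_cases h3 : g < 46
    · rw [List.all_eq_true] at h1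
      have h4 := h1 g (List.mem_range.2 h3)
      rw [List.all_eq_true] at h4
      exact h4 l h2
    · rw [lgen_big (by omega)] at h2
      simp at h2

theorem lle_sol {g l : ℕ} (h : lle g l = true) : lsol g = lsol l := by
  have := lle_all (f := fun g l => lsol g == lsol l) (fun l => by simp) (by decide) h
  simpa using this

theorem lle_own {g l : ℕ} (h : lle g l = true) : lown g = lown l := by
  have := lle_all (f := fun g l => decide (lown g = lown l)) (fun l => by simp) (by decide) h
  simpa using this

theorem lle_wl {g l : ℕ} (h : lle g l = true) : wl g = wl l := by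
  have := lle_all (f := fun g l => decide (wl g = wl l)) (fun l => by simp) (by decide) h
  simpa using this

/-- the letter of a gap with a given length -/
def lnn (g : ℕ) : Bool :=
  decide (g = 1) || decide (g = 3) || decide (g = 6) || decide (g = 7) || decide (g = 9) ||
  decide (g = 10) || decide (g = 17) || decide (g = 18) || decide (g = 19) || decide (g = 22) ||
  decide (g = 23) || decide (g = 24) || decide (g = 25) || decide (g = 26) || decide (g = 36) ||
  decide (g = 37) || decide (g = 39) || decide (g = 40)

theorem lle_n2l {g l : ℕ} (h : lle g l = true) (hg : n2l g = true) : n2l l = true := by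
  have := lle_all (f := fun g l => !n2l g || n2l l) (fun l => by cases n2l l <;> rfl)
    (by decide) h
  rw [hg] at this
  simpa using this

theorem lle_is3 {g l : ℕ} (h : lle g l = true) (hg : is3 g = true) : is3 l = true := by
  have := lle_all (f := fun g l => !is3 g || is3 l) (fun l => by cases is3 l <;> rfl)
    (by decide) h
  rw [hg] at this
  simpa using this

theorem lle_is2 {g l : ℕ} (h : lle g l = true) (hg : is2 g = true) : is2 l = true := by
  have := lle_all (f := fun g l => !is2 g || is2 l) (fun l => by cases is2 l <;> rfl)
    (by decide) h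
  rw [hg] at this
  simpa using this

theorem lle_is0 {g l : ℕ} (h : lle g l = true) (hg : is0 g = true) : is0 l = true := by
  have := lle_all (f := fun g l => !is0 g || is0 l) (fun l => by cases is0 l <;> rfl)
    (by decide) h
  rw [hg] at this
  simpa using this

theorem lle_ln4 {g l : ℕ} (h : lle g l = true) (hg : ln4 g = true) : ln4 l = true := by
  have := lle_all (f := fun g l => !ln4 g || ln4 l) (fun l => by cases ln4 l <;> rfl)
    (by decide) h
  rw [hg] at this
  simpa using this

/-- the code of an exact letter -/
def cod (l : ℕ) : ℕ :=
  if l = 2 then 21 else if l = 5 then 256 else if l = 8 then 512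
  else if l = 11 then 6 else if l = 12 then 18 else if l = 13 then 9 else if l = 14 then 33
  else if l = 15 then 24 else if l = 16 then 36
  else if l = 1 then 92 else if l = 18 then 108 else if l = 20 then 76
  else if l = 3 then 89 else if l = 19 then 105 else if l = 21 then 73
  else if l = 17 then 90 else if l = 22 then 106 else if l = 41 then 74
  else if l = 6 then 92 else if l = 23 then 108 else if l = 42 then 76
  else if l = 7 then 348 else if l = 24 then 364 else if l = 43 then 332
  else if l = 9 then 84 else if l = 25 then 100 else if l = 44 then 68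
  else if l = 10 then 85 else if l = 26 then 101 else if l = 45 then 69
  else 0

/-- the code of a gap; `c2`, `c3`, `nt`: the face has surely two, three, not two units -/
def cgp (g : ℕ) (c2 c3 nt : Bool) : ℕ :=
  if g = 1 ∨ g = 18 ∨ g = 20 then (if c3 = true then cod g - 4 else cod g)
  else if g = 35 ∨ g = 36 ∨ g = 37 then
    (if c2 = true then 68 else if c3 = true then 72 else if nt = true then 76 else 64) +
      16 * (g - 35)
  else if g = 38 ∨ g = 39 ∨ g = 40 then
    (if c2 = true then 69 else if c3 = true ∨ nt = true then 73 else 65) + 16 * (g - 38)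
  else cod g

/-- the code of a solid sector; `fo`: the vertex is full; `qb`, `qc`: the letters of the two other
corners (`99`: unknown) -/
def cds (g : ℕ) (fo : Bool) (qb qc : ℕ) : ℕ :=
  if g = 32 then
    (if qb = 99 ∧ qc = 99 then (if fo = true then 6204 else 0)
    else if qb = 5 ∨ qc = 4 then 512
    else if qb = 99 then (if lown qc = 0 then 0 else mkl 0 (3 - lown qc) (lown qc) 0 false false)
    else (if lown qb = 0 then 0 else mkl 0 (lown qb) (3 - lown qb) 0 false false))
  else if g = 33 then
    (if qb = 99 ∧ qc = 99 then 1085
    else if qb = 99 then mkl 1 (2 - lown qc) (lown qc) 0 false false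
    else mkl 1 (lown qb) (2 - lown qb) 0 false false)
  else if g = 34 then
    (if qb = 99 ∧ qc = 99 then 1086
    else if qb = 99 then mkl 2 (1 - lown qc) (lown qc) 0 false false
    else mkl 2 (lown qb) (1 - lown qb) 0 false false)
  else cod g

/-- the code is the code of a gap without units here and in the face, and without label -/
def isO (l : ℕ) : Bool := decide (l % 256 = 76) || decide (l % 256 = 92) || decide (l % 256 = 108)

/-- `l'` is `l`, or `l` is a gap without units here and in the face, and `l'` has three units in the
face -/
def chl (l l' : ℕ) : Bool := decide (l' = l) || (isO l && decide (l' + 4 = l))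

/-- letterwise `chl` -/
def chc (wd wd' : List ℕ) : Bool :=
  decide (wd'.length = wd.length) &&
    (List.range wd.length).all fun i => chl (wd.getD i 0) (wd'.getD i 0)

/-- `chl`, and the codes of the unknown faces: gap `64`, `65` (own 0, 1; the class of the face is
unknown), solid `1085`, `1086` (own 1, 2), `6204` (own 0), `4156` (own 0, no label at the opposite
edge) -/
def chg (g l' : ℕ) : Bool :=
  if g = 64 ∨ g = 80 ∨ g = 96 then decide (l' = g + 4) || decide (l' = g + 8) || decide (l' = g + 12)
  else if g = 65 ∨ g = 81 ∨ g = 97 then decide (l' = g + 4) || decide (l' = g + 8)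
  else if g = 1085 then decide (l' = 21) || decide (l' = 9) || decide (l' = 33)
  else if g = 1086 then decide (l' = 6) || decide (l' = 18)
  else if g = 4156 then decide (l' = 0) || decide (l' = 24) || decide (l' = 36)
  else if g = 6204 then decide (l' = 0) || decide (l' = 24) || decide (l' = 36) ||
    decide (l' = 512)
  else chl g l'

/-- letterwise `chg` -/
def chgc (wd wd' : List ℕ) : Bool :=
  decide (wd'.length = wd.length) &&
    (List.range wd.length).all fun i => chg (wd.getD i 0) (wd'.getD i 0)

/-- the code without the length of the face if the letter `g` of the pattern has no length -/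
def dlg (g l : ℕ) : ℕ :=
  if lK l = 0 then l
  else mkl (lA l) (lB l) (if lnn g = true then lC l else 0) (lK l) (lS l) false

/-- the letters of the patterns which contain a letter -/
def lup (l : ℕ) : List ℕ := (List.range 46).filter fun g => lle g l

theorem mem_lup {g l : ℕ} (hl : l < 46) (h : lle g l = true) : g ∈ lup l := by
  unfold lup
  rw [List.mem_filter]
  refine ⟨List.mem_range.2 ?_, h⟩
  rcases lle_iff.1 h with rfl | h2
  · exact hl
  · by_contra hg
    rw [lgen_big (by omega)] at h2
    simp at h2

/-- the table of the solid sectors -/
def tabS : Bool :=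
  allN 3 fun a => allN 3 fun b => allN 3 fun c => [false, true].all fun s =>
    [false, true].all fun o => [false, true].all fun s1 => !glt (mkl a b c 0 s o) s1 ||
      (lup (lett (mkl a b c 0 s o) s1)).all fun g => [false, true].all fun fo =>
        !(fo || (!o && !(decide (a = 0) && (decide (b = 2) || decide (c = 2))))) ||
        (99 :: lup (lett (mkl b c a 0 o s1) s)).all fun qb =>
          (99 :: lup (lett (mkl c a b 0 s1 s) o)).all fun qc =>
            chg (cds g fo qb qc) (mkl a b c 0 s o)

theorem tabS_true : tabS = true := by decide +kernel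

/-- the table of the gaps -/
def tabG : Bool :=
  [0, 2, 3].all fun n => allN 3 fun a => [1, 2].all fun c => [false, true].all fun s =>
    [false, true].all fun s1 => !glt (mkl a (fcl n) c 1 s false) s1 ||
      (lup (lett (mkl a (fcl n) c 1 s false) s1)).all fun g => [false, true].all fun c2 =>
        [false, true].all fun c3 => [false, true].all fun nt =>
          (c2 && decide (n ≠ 2)) || (c3 && decide (n ≠ 3)) || (nt && decide (n = 2)) ||
            chg (cgp g c2 c3 nt) (dlg g (mkl a (fcl n) c 1 s false))

theorem tabG_true : tabG = true := by decide +kernel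

theorem mkl_lt {a b c k : ℕ} (ha : a < 4) (hb : b < 4) (hc : c < 4) (hk : k < 4) (s o : Bool) :
    mkl a b c k s o < 1024 := by
  unfold mkl
  split_ifs <;> omega

variable {D V : Type} [Fintype D] [DecidableEq V]
  {S : St D V} {L : D → Bool} {w : D → ℕ} {d : D}

theorem IsL.drop {g l : ℕ} (h : IsL S L d l) : IsL S L d (dlg g l) := by
  unfold dlg
  by_cases hk : lK l = 0
  · rw [if_pos hk]; exact h
  · rw [if_neg hk]
    have hc : (if lnn g = true then lC l else 0) < 4 := by
      split_ifs
      · exact lC_lt l
      · norm_num
    obtain ⟨a1, a2, a3, a4, a5, a6⟩ := mkl_dec (lA_lt l) (lB_lt l) hc (lK_lt l) (lS l) false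
    generalize hm : mkl (lA l) (lB l) (if lnn g = true then lC l else 0) (lK l)
      (lS l) false = m at *
    have hk' : lK m ≠ 0 := by rw [a4]; exact hk
    refine ⟨?_, by rw [a1]; exact h.a, by rw [a5]; exact h.s, fun h => absurd h hk',
      fun h => absurd h hk', fun h => absurd h hk', fun _ => by rw [a2]; exact h.f hk⟩
    split_ifs at a3 with hg
    · have e1 : FC7.sk m = FC7.sk l := by
        unfold FC7.sk
        rw [if_neg hk', if_neg hk, a3]
      rw [e1]; exact h.k
    · obtain ⟨g1, g2, g3⟩ := h.gap hk
      unfold FC7.sk
      rw [if_neg hk', a3, if_pos rfl]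
      exact ⟨g1, g2⟩

theorem MC.code_lt (h : MC 6 S L w) (hS : IsStar S) : code S L d < 1024 := by
  have ub : ∀ x, S.u x < 4 := fun x => by have := h.u_lt (le_refl 6) hS x; omega
  unfold code
  split_ifs
  · exact mkl_lt (ub _) (ub _) (ub _) (by norm_num) _ _
  · exact mkl_lt (ub _) (fcl_lt _) (by norm_num) (by norm_num) _ _
  · exact mkl_lt (ub _) (fcl_lt _) (by norm_num) (by norm_num) _ _

end Pool.FC7
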