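import Pool.Agent.FC7.SyF
import Pool.Agent.FC7.NrA

/-! # What is known about the face of a sector -/

open Finset

set_option linter.unusedSectionVars false

namespace Pool.FC7

open Pool.FC6 Pool.FC6.St

/-- what is known about the face of the sector after `d`: the letters at the other end of `d`, at the
other end of the next spoke and at another corner (`99`: unknown), and which vertices are full -/
structure Ctx where
  fo : Bool
  qb : ℕ
  fb : Bool
  qc : ℕ
  fc : Bool
  qe : ℕ
  fe : Bool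

/-- the known units -/
def Ctx.sum (K : Ctx) (g : ℕ) : ℕ := lown g + lown K.qb + lown K.qc + lown K.qe

/-- surely not two units -/
def Ctx.nt (K : Ctx) (g : ℕ) : Bool :=
  !K.fo || n2l g || (decide (K.qb ≠ 99) && !K.fb) || n2l K.qb ||
    (decide (K.qc ≠ 99) && !K.fc) || n2l K.qc || (decide (K.qe ≠ 99) && !K.fe) || n2l K.qe

/-- surely three units -/
def Ctx.c3 (K : Ctx) (g : ℕ) : Bool :=
  is3 g || is3 K.qb || is3 K.qc || is3 K.qe || decide (3 ≤ K.sum g) ||
    (decide (1 ≤ K.sum g) && K.nt g)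

/-- surely two units -/
def Ctx.c2 (K : Ctx) (g : ℕ) : Bool := is2 g || is2 K.qb || is2 K.qc || is2 K.qe

/-- the code of a sector -/
def cdx (g : ℕ) (K : Ctx) : ℕ :=
  if lsol g = true then cds g K.fo K.qb K.qc else cgp g (K.c2 g) (K.c3 g) (K.nt g)

variable {D V : Type} [Fintype D] [DecidableEq V]

/-- the knowledge is correct -/
structure Snd (S : St D V) (L : D → Bool) (w : D → ℕ) (d : D) (K : Ctx) : Prop where
  fo : K.fo = false → wt S w (S.M.v d) < 6
  b : K.qb ≠ 99 → ∃ r, S.real r = true ∧ S.nxr r = S.M.α d ∧ lle K.qb (lto S L r) = true ∧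
    (K.fb = false → wt S w (S.M.v (S.M.α d)) < 6)
  c : K.qc ≠ 99 → lle K.qc (lto S L (S.M.α (S.nxr d))) = true ∧
    (K.fc = false → wt S w (S.M.v (S.M.α (S.nxr d))) < 6)
  e : K.qe ≠ 99 → ¬ S.real (S.M.σ d) = true ∧ (K.qb = 99 ∨ K.qc = 99) ∧
    ∃ r, S.real r = true ∧ S.sc.r (S.nxr d) (S.nxr r) ∧ S.nxr r ≠ S.nxr d ∧
      (K.qb ≠ 99 → S.nxr r ≠ S.M.α d) ∧
      (K.qc ≠ 99 → S.nxr r ≠ S.nxr (S.M.α (S.nxr d))) ∧
      lle K.qe (lto S L r) = true ∧ (K.fe = false → wt S w (S.M.v r) < 6)

/-- the units of a face seen from a letter -/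
def evk (l : ℕ) (s : Bool) : Bool :=
  !glt l s || ((!n2l (lett l s) || (decide (lK l ≠ 0) && decide (lB l ≠ 1))) &&
    (!is3 (lett l s) || (decide (lK l ≠ 0) && decide (lB l = 2))) &&
    (!is2 (lett l s) || (decide (lK l ≠ 0) && decide (lB l = 1))) &&
    (!is0 (lett l s) || (decide (lK l ≠ 0) && (lS l || s))) &&
    (!ln4 (lett l s) || (decide (lK l ≠ 0) && decide (lC l = 1))) &&
    decide (lown (lett l s) = lA l) && decide (lett l s < 46))

theorem evk_all : ∀ l < 1024, evk l true = true ∧ evk l false = true := by decide +kernel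

variable {S : St D V} {L : D → Bool} {w : D → ℕ} {d e r : D}

section mc

variable (h : MC 6 S L w) (hS : IsStar S) (hd : S.real d = true)

include h hS hd

theorem MC.evk_at : evk (code S L d) (L (S.nxr d)) = true := by
  have h4 := evk_all _ (h.code_lt hS (d := d))
  cases L (S.nxr d)
  · exact h4.2
  · exact h4.1

theorem MC.lto_lt : lto S L d < 46 := by
  have h5 := h.evk_at hS hd
  unfold evk at h5
  rw [h.glt (le_refl 6) hS hd, Bool.not_true, Bool.false_or] at h5
  simp only [Bool.and_eq_true, decide_eq_true_eq] at h5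
  exact h5.2

/-- the own units of a sector -/
theorem MC.lown_eq : lown (lto S L d) = S.u (S.nxr d) := by
  have h5 := h.evk_at hS hd
  unfold evk at h5
  rw [h.glt (le_refl 6) hS hd, Bool.not_true, Bool.false_or] at h5
  simp only [Bool.and_eq_true, decide_eq_true_eq] at h5
  unfold lto
  rw [h5.1.2, code_A (h.u_lt (le_refl 6) hS)]

/-- the units of the face of a sector -/
theorem MC.ev : (n2l (lto S L d) = true → fu S (S.nxr d) ≠ 2) ∧
    (is3 (lto S L d) = true → fu S (S.nxr d) = 3) ∧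
    (is2 (lto S L d) = true → fu S (S.nxr d) = 2) := by
  have ub : ∀ x, S.u x < 4 := fun x => by have := h.u_lt (le_refl 6) hS x; omega
  have h5 := h.evk_at hS hd
  unfold evk at h5
  rw [h.glt (le_refl 6) hS hd, Bool.not_true, Bool.false_or] at h5
  simp only [Bool.and_eq_true, decide_eq_true_eq, Bool.or_eq_true, Bool.not_eq_true'] at h5
  obtain ⟨⟨⟨⟨⟨⟨h6, h7⟩, h8⟩, -⟩, -⟩, -⟩, -⟩ := h5
  have f0 : fu S (S.M.σ d) = fu S (S.nxr d) :=
    (fu_congr (sc_sec1 d)).symm.trans (fu_congr (sc_nxr d))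
  have hB : lK (code S L d) ≠ 0 → lB (code S L d) = fcl (fu S (S.nxr d)) := by
    intro hk
    by_cases hs : S.real (S.M.σ d) = true
    · exfalso
      apply hk
      unfold code
      rw [if_pos hs]
      exact (mkl_dec (ub _) (ub _) (ub _) (by norm_num) _ _).2.2.2.1
    · have hc : (if S.csz (S.M.σ d) = 4 then 1 else 2) < 4 := by split_ifs <;> norm_num
      unfold code
      rw [if_neg hs, f0]
      exact (mkl_dec (ub _) (fcl_lt _) hc (by norm_num) _ _).2.1
  unfold lto
  refine ⟨fun hc => ?_, fun hc => ?_, fun hc => ?_⟩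
  · rcases h6 with h6 | ⟨h6, h9⟩
    · rw [hc] at h6; exact absurd h6 (by decide)
    · rw [hB h6] at h9
      intro hf
      rw [hf] at h9
      exact h9 rfl
  · rcases h7 with h7 | ⟨h7, h9⟩
    · rw [hc] at h7; exact absurd h7 (by decide)
    · rw [hB h7] at h9
      rcases h.fu023 (le_refl 6) (S.nxr d) with q | q | q
      · rw [q] at h9; exact absurd h9 (by decide)
      · rw [q] at h9; exact absurd h9 (by decide)
      · exact q
  · rcases h8 with h8 | ⟨h8, h9⟩
    · rw [hc] at h8; exact absurd h8 (by decide)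
    · rw [hB h8] at h9
      rcases h.fu023 (le_refl 6) (S.nxr d) with q | q | q
      · rw [q] at h9; exact absurd h9 (by decide)
      · exact q
      · rw [q] at h9; exact absurd h9 (by decide)

/-- the face of a gap with a label has no units -/
theorem MC.ev0 (hz : is0 (lto S L d) = true) : fu S (S.nxr d) = 0 := by
  have ub : ∀ x, S.u x < 4 := fun x => by have := h.u_lt (le_refl 6) hS x; omega
  have W := h.ok.toWf
  have h5 := h.evk_at hS hd
  unfold evk at h5
  rw [h.glt (le_refl 6) hS hd, Bool.not_true, Bool.false_or] at h5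
  simp only [Bool.and_eq_true, decide_eq_true_eq, Bool.or_eq_true, Bool.not_eq_true'] at h5
  have h6 := h5.1.1.1.2
  unfold lto at hz
  rcases h6 with h6 | ⟨h6, h7⟩
  · rw [hz] at h6; exact absurd h6 (by decide)
  have hrd : S.real (S.M.α d) = true := by rw [W.real_α]; exact hd
  obtain ⟨r, r1, r2⟩ := h.prv hS hrd
  rcases h.ends hS hd r1 r2 with ⟨-, c1, -⟩ | ⟨-, c1, -, -, -, g⟩
  · exfalso
    apply h6
    rw [c1]
    exact (mkl_dec (ub _) (ub _) (ub _) (by norm_num) _ _).2.2.2.1
  · have e0 : fu S (S.nxr d) = fu S (S.M.α d) := (fu_congr (sc_nxr d)).symm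
    have hc : (if S.csz (S.M.σ d) = 4 then 1 else 2) < 4 := by split_ifs <;> norm_num
    have e1 : lS (code S L d) = L d := by
      rw [c1]
      exact (mkl_dec (ub _) (fcl_lt _) hc (by norm_num) _ _).2.2.2.2.1
    rw [e1] at h7
    rw [e0]
    unfold gpc at g
    simp only [Bool.or_eq_true, Bool.and_eq_true, decide_eq_true_eq, Bool.not_eq_true'] at g
    rcases g with (g | g) | g
    · exact g.1.1.1.1.1
    · exfalso
      rcases h7 with h7 | h7
      · rw [h7] at g; exact absurd g.1.1.2 (by decide)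
      · rw [h7] at g; exact absurd g.1.2 (by decide)
    · exfalso
      rcases h7 with h7 | h7
      · rw [h7] at g; exact absurd g.1.1.2 (by decide)
      · rw [h7] at g; exact absurd g.1.2 (by decide)

/-- the length of a gap with a letter of length four -/
theorem MC.ev4 (hz : ln4 (lto S L d) = true) : S.csz (S.nxr d) = 4 := by
  have ub : ∀ x, S.u x < 4 := fun x => by have := h.u_lt (le_refl 6) hS x; omega
  have W := h.ok.toWf
  have h5 := h.evk_at hS hd
  unfold evk at h5
  rw [h.glt (le_refl 6) hS hd, Bool.not_true, Bool.false_or] at h5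
  simp only [Bool.and_eq_true, decide_eq_true_eq, Bool.or_eq_true, Bool.not_eq_true'] at h5
  have h6 := h5.1.1.2
  unfold lto at hz
  rcases h6 with h6 | ⟨h6, h7⟩
  · rw [hz] at h6; exact absurd h6 (by decide)
  have hrd : S.real (S.M.α d) = true := by rw [W.real_α]; exact hd
  obtain ⟨r, r1, r2⟩ := h.prv hS hrd
  rcases h.ends hS hd r1 r2 with ⟨-, c1, -⟩ | ⟨-, c1, -⟩
  · exfalso
    apply h6
    rw [c1]
    exact (mkl_dec (ub _) (ub _) (ub _) (by norm_num) _ _).2.2.2.1
  · have hc : (if S.csz (S.M.σ d) = 4 then 1 else 2) < 4 := by split_ifs <;> norm_num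
    have e1 : lC (code S L d) = if S.csz (S.M.σ d) = 4 then 1 else 2 := by
      rw [c1]
      exact (mkl_dec (ub _) (fcl_lt _) hc (by norm_num) _ _).2.2.1
    rw [e1] at h7
    have e2 : S.csz (S.nxr d) = S.csz (S.M.σ d) :=
      (csz_congr (sc_nxr d)).symm.trans (csz_congr (sc_sec1 d))
    rw [e2]
    by_contra hne
    rw [if_neg hne] at h7
    exact absurd h7 (by decide)

/-- two real darts at a vertex with the same far end -/
theorem MC.far_inj (hv : S.M.v r = S.M.v d)
    (hf : S.M.v (S.M.α r) = S.M.v (S.M.α d)) : r = d :=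
  (h.rg (le_refl 6)).n2 hS h.ok.toWf (by norm_num) _ (h.ok.real_A _ hd) _ _ hv rfl hf

/-- the three corners at a sector are different -/
theorem MC.corners : S.sc.r (S.nxr d) (S.M.α d) ∧
    S.sc.r (S.nxr d) (S.nxr (S.M.α (S.nxr d))) ∧ S.nxr d ≠ S.M.α d ∧
    S.nxr d ≠ S.nxr (S.M.α (S.nxr d)) ∧ S.M.α d ≠ S.nxr (S.M.α (S.nxr d)) := by
  have W := h.ok.toWf
  have hrn := hS.nxr_real W hd
  have c3 : S.sc.r (S.nxr d) (S.nxr (S.M.α (S.nxr d))) := by
    have := sc_nxr (S := S) (S.M.α (S.nxr d))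
    rwa [S.M.αα] at this
  have v1 : S.M.v (S.nxr d) = S.M.v d := v_nxr _
  have v3 : S.M.v (S.nxr (S.M.α (S.nxr d))) = S.M.v (S.M.α (S.nxr d)) := v_nxr _
  refine ⟨S.sc.iseqv.symm (sc_nxr d), c3, fun hc => ?_, fun hc => ?_, fun hc => ?_⟩
  · have := congrArg S.M.v hc
    rw [v1] at this
    exact W.real_ne _ hd this
  · have := congrArg S.M.v hc
    rw [v3] at this
    exact W.real_ne _ hrn this
  · have h1 := congrArg S.M.v hc
    rw [v3] at h1
    exact (h.nxr_ne (le_refl 6) hS hd).1 (h.far_inj hS hd v1 h1.symm)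

/-- three corners of a face -/
theorem MC.own3 (hr : S.real r = true) (hn : S.nxr r = S.M.α d) :
    lown (lto S L d) + lown (lto S L r) + lown (lto S L (S.M.α (S.nxr d))) ≤ 3 := by
  have W := h.ok.toWf
  have hrn := hS.nxr_real W hd
  have hrm : S.real (S.M.α (S.nxr d)) = true := by rw [W.real_α]; exact hrn
  rw [h.lown_eq hS hd, h.lown_eq hS hr, h.lown_eq hS hrm, hn]
  obtain ⟨c2, c3, n1, n2, n3⟩ := h.corners hS hd
  refine (u3_le_fu (S.sc.iseqv.refl _) c2 c3 n1 n2 n3).trans ?_
  rcases h.fu023 (le_refl 6) (S.nxr d) with h1 | h1 | h1 <;> omega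

omit hd in
/-- a face of length four with three corners without units has no units -/
theorem MC.no_units {x y z : D} (hc : S.csz e = 4) (hx : S.sc.r e x) (hy : S.sc.r e y)
    (hz : S.sc.r e z) (rx : S.real x = true) (ry : S.real y = true) (rz : S.real z = true)
    (n1 : x ≠ y) (n2 : x ≠ z) (n3 : y ≠ z) (ux : S.u x = 0) (uy : S.u y = 0) (uz : S.u z = 0) :
    fu S e = 0 := by
  classical
  have uniq : ∀ a b, S.sc.r e a → S.sc.r e b → S.u a ≠ 0 → S.u b ≠ 0 → a = b := by
    intro a b ha hb ua ub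
    by_contra hne
    have ra := hS.ur a ua
    have rb := hS.ur b ub
    have m1 : a ≠ x := fun q => ua (by rw [q]; exact ux)
    have m2 : a ≠ y := fun q => ua (by rw [q]; exact uy)
    have m3 : a ≠ z := fun q => ua (by rw [q]; exact uz)
    have k1 : b ≠ x := fun q => ub (by rw [q]; exact ux)
    have k2 : b ≠ y := fun q => ub (by rw [q]; exact uy)
    have k3 : b ≠ z := fun q => ub (by rw [q]; exact uz)
    have h1 : ∑ t ∈ {a, b, x, y, z}, (if S.real t = true ∧ S.sc.r e t then 1 else 0) ≤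
        S.csz e := by
      unfold St.csz
      have := Finset.sum_le_sum_of_subset (f := fun t => if S.real t = true ∧ S.sc.r e t then 1
        else 0) (Finset.subset_univ ({a, b, x, y, z} : Finset D))
      convert this
    rw [Finset.sum_insert (by
        simp only [Finset.mem_insert, Finset.mem_singleton, not_or]
        exact ⟨hne, m1, m2, m3⟩), Finset.sum_insert (by
        simp only [Finset.mem_insert, Finset.mem_singleton, not_or]
        exact ⟨k1, k2, k3⟩), Finset.sum_insert (by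
        simp only [Finset.mem_insert, Finset.mem_singleton, not_or]
        exact ⟨n1, n2⟩), Finset.sum_pair n3, if_pos ⟨ra, ha⟩, if_pos ⟨rb, hb⟩, if_pos ⟨rx, hx⟩,
      if_pos ⟨ry, hy⟩, if_pos ⟨rz, hz⟩] at h1
    omega
  rcases h.fu023 (le_refl 6) e with q | q | q
  · exact q
  · exfalso
    obtain ⟨a, b, a1, a2, a3, a4, a5, -⟩ := h.two q
    exact a5 (by rw [uniq a b a1 a2 a3 a4])
  · exfalso
    have h1 : ∃ a, S.sc.r e a ∧ S.u a ≠ 0 := by
      by_contra hno
      push Not at hno
      unfold fu at q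
      rw [Finset.sum_eq_zero] at q
      · omega
      · intro a _
        by_cases hs : S.sc.r e a
        · rw [if_pos hs]; exact hno a hs
        · rw [if_neg hs]
    obtain ⟨a, a1, a2⟩ := h1
    have h2 : fu S e = S.u a := by
      unfold fu
      rw [Finset.sum_eq_single a]
      · rw [if_pos a1]
      · intro b _ hb
        by_cases hs : S.sc.r e b
        · rw [if_pos hs]
          by_contra hu
          exact hb (uniq b a hs a1 hu a2)
        · rw [if_neg hs]
      · intro hh
        exact absurd (Finset.mem_univ _) hh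
    have := h.u_lt (le_refl 6) hS a
    omega

/-- the units of the face -/
theorem MC.snd_fu {g : ℕ} (hg : lle g (lto S L d) = true) {K : Ctx} (hK : Snd S L w d K) :
    (K.c2 g = true → fu S (S.nxr d) = 2) ∧ (K.c3 g = true → fu S (S.nxr d) = 3) ∧
      (K.nt g = true → fu S (S.nxr d) ≠ 2) := by
  have W := h.ok.toWf
  have hrn := hS.nxr_real W hd
  have hrα : S.real (S.M.α (S.nxr d)) = true := by rw [W.real_α]; exact hrn
  have hrd : S.real (S.M.α d) = true := by rw [W.real_α]; exact hd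
  obtain ⟨s2, s3, n1, n2, n3⟩ := h.corners hS hd
  have s1 : S.sc.r (S.nxr d) (S.nxr d) := S.sc.iseqv.refl _
  -- the units at the known corners
  have ug : lown g = S.u (S.nxr d) := by rw [lle_own hg, h.lown_eq hS hd]
  have ub : K.qb ≠ 99 → lown K.qb = S.u (S.M.α d) ∧
      (n2l K.qb = true → fu S (S.nxr d) ≠ 2) ∧ (is3 K.qb = true → fu S (S.nxr d) = 3) ∧
      (is2 K.qb = true → fu S (S.nxr d) = 2) ∧ (K.fb = false → fu S (S.nxr d) ≠ 2) := by
    intro hq
    obtain ⟨r, r1, r2, r3, r4⟩ := hK.b hq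
    have f1 : fu S (S.nxr r) = fu S (S.nxr d) := by rw [r2]; exact (fu_congr s2).symm
    obtain ⟨e1, e2, e3⟩ := h.ev hS r1
    rw [f1] at e1 e2 e3
    exact ⟨by rw [lle_own r3, h.lown_eq hS r1, r2], fun q => e1 (lle_n2l r3 q),
      fun q => e2 (lle_is3 r3 q), fun q => e3 (lle_is2 r3 q), fun q hf => by
        have := h.full2 (le_refl 6) hf s2 (h.ok.real_A _ hrd)
        have := r4 q
        omega⟩
  have uc : K.qc ≠ 99 → lown K.qc = S.u (S.nxr (S.M.α (S.nxr d))) ∧
      (n2l K.qc = true → fu S (S.nxr d) ≠ 2) ∧ (is3 K.qc = true → fu S (S.nxr d) = 3) ∧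
      (is2 K.qc = true → fu S (S.nxr d) = 2) ∧ (K.fc = false → fu S (S.nxr d) ≠ 2) := by
    intro hq
    obtain ⟨r3, r4⟩ := hK.c hq
    have f1 : fu S (S.nxr (S.M.α (S.nxr d))) = fu S (S.nxr d) := (fu_congr s3).symm
    obtain ⟨e1, e2, e3⟩ := h.ev hS hrα
    rw [f1] at e1 e2 e3
    exact ⟨by rw [lle_own r3, h.lown_eq hS hrα], fun q => e1 (lle_n2l r3 q),
      fun q => e2 (lle_is3 r3 q), fun q => e3 (lle_is2 r3 q), fun q hf => by
        have := h.full2 (le_refl 6) hf s3 (h.ok.real_A _ (hS.nxr_real W hrα))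
        rw [v_nxr] at this
        have := r4 q
        omega⟩
  have ue : K.qe ≠ 99 → (K.qb = 99 ∨ K.qc = 99) ∧ ∃ z, S.sc.r (S.nxr d) z ∧ z ≠ S.nxr d ∧
      (K.qb ≠ 99 → z ≠ S.M.α d) ∧ (K.qc ≠ 99 → z ≠ S.nxr (S.M.α (S.nxr d))) ∧
      lown K.qe = S.u z ∧
      (n2l K.qe = true → fu S (S.nxr d) ≠ 2) ∧ (is3 K.qe = true → fu S (S.nxr d) = 3) ∧
      (is2 K.qe = true → fu S (S.nxr d) = 2) ∧ (K.fe = false → fu S (S.nxr d) ≠ 2) := by
    intro hq
    obtain ⟨-, h0, r, r1, r2, r3, r4, r5, r6, r7⟩ := hK.e hq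
    have f1 : fu S (S.nxr r) = fu S (S.nxr d) := (fu_congr r2).symm
    obtain ⟨e1, e2, e3⟩ := h.ev hS r1
    rw [f1] at e1 e2 e3
    exact ⟨h0, S.nxr r, r2, r3, r4, r5, by rw [lle_own r6, h.lown_eq hS r1],
      fun q => e1 (lle_n2l r6 q), fun q => e2 (lle_is3 r6 q), fun q => e3 (lle_is2 r6 q),
      fun q hf => by
        have := h.full2 (le_refl 6) hf r2 (h.ok.real_A _ (hS.nxr_real W r1))
        rw [v_nxr] at this
        have := r7 q
        omega⟩
  have k0 : ∀ {f : ℕ → Bool}, f 99 = false → ∀ {q : ℕ}, f q = true → q ≠ 99 := by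
    intro f hf q hq h1
    rw [h1, hf] at hq
    exact absurd hq (by decide)
  obtain ⟨e1, e2, e3⟩ := h.ev hS hd
  have hnt : K.nt g = true → fu S (S.nxr d) ≠ 2 := by
    intro hc
    unfold Ctx.nt at hc
    simp only [Bool.or_eq_true, Bool.and_eq_true, decide_eq_true_eq, Bool.not_eq_true'] at hc
    rcases hc with ((((((hc | hc) | hc) | hc) | hc) | hc) | hc) | hc
    · intro hf
      have := h.full2 (le_refl 6) hf s1 (h.ok.real_A _ hrn)
      rw [v_nxr] at this
      have := hK.fo hc
      omega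
    · exact e1 (lle_n2l hg hc)
    · exact (ub hc.1).2.2.2.2 hc.2
    · exact (ub (k0 (f := n2l) rfl hc)).2.1 hc
    · exact (uc hc.1).2.2.2.2 hc.2
    · exact (uc (k0 (f := n2l) rfl hc)).2.1 hc
    · obtain ⟨-, z, -, -, -, -, -, -, -, -, u1⟩ := ue hc.1
      exact u1 hc.2
    · obtain ⟨-, z, -, -, -, -, -, u1, -⟩ := ue (k0 (f := n2l) rfl hc)
      exact u1 hc
  -- the sum of the known units
  have hsum : K.sum g ≤ fu S (S.nxr d) := by
    unfold Ctx.sum
    rw [ug]
    have z99 : lown 99 = 0 := rfl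
    have b1 : lown K.qb ≤ S.u (S.M.α d) := by
      by_cases hq : K.qb = 99
      · rw [hq, z99]; exact Nat.zero_le _
      · rw [(ub hq).1]
    have c1 : lown K.qc ≤ S.u (S.nxr (S.M.α (S.nxr d))) := by
      by_cases hq : K.qc = 99
      · rw [hq, z99]; exact Nat.zero_le _
      · rw [(uc hq).1]
    by_cases hq : K.qe = 99
    · rw [hq, z99]
      have := u3_le_fu s1 s2 s3 n1 n2 n3
      omega
    · obtain ⟨h0, z, z1, z2, z3, z4, z5, -⟩ := ue hq
      rw [z5]
      by_cases hb : K.qb = 99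
      · by_cases hc : K.qc = 99
        · rw [hb, hc, z99]
          have := u2_le_fu s1 z1 z2.symm
          omega
        · rw [hb, z99]
          have := u3_le_fu s1 s3 z1 n2 z2.symm (z4 hc).symm
          omega
      · have hc := h0.resolve_left hb
        rw [hc, z99]
        have := u3_le_fu s1 s2 z1 n1 z2.symm (z3 hb).symm
        omega
  refine ⟨fun hc => ?_, fun hc => ?_, hnt⟩
  · unfold Ctx.c2 at hc
    simp only [Bool.or_eq_true] at hc
    rcases hc with ((hc | hc) | hc) | hc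
    · exact e3 (lle_is2 hg hc)
    · exact (ub (k0 (f := is2) rfl hc)).2.2.2.1 hc
    · exact (uc (k0 (f := is2) rfl hc)).2.2.2.1 hc
    · obtain ⟨-, z, -, -, -, -, -, -, -, u1, -⟩ := ue (k0 (f := is2) rfl hc)
      exact u1 hc
  · unfold Ctx.c3 at hc
    simp only [Bool.or_eq_true, Bool.and_eq_true, decide_eq_true_eq] at hc
    rcases hc with ((((hc | hc) | hc) | hc) | hc) | hc
    · exact e2 (lle_is3 hg hc)
    · exact (ub (k0 (f := is3) rfl hc)).2.2.1 hc
    · exact (uc (k0 (f := is3) rfl hc)).2.2.1 hc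
    · obtain ⟨-, z, -, -, -, -, -, -, u1, -⟩ := ue (k0 (f := is3) rfl hc)
      exact u1 hc
    · rcases h.fu023 (le_refl 6) (S.nxr d) with q | q | q <;> omega
    · have := hnt hc.2
      rcases h.fu023 (le_refl 6) (S.nxr d) with q | q | q <;> omega

end mc

end Pool.FC7
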