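import Pool.Agent.FC7.SyJ

/-! # The code of a sector of a pattern -/

open Finset

set_option linter.unusedSectionVars false

namespace Pool.FC7

open Pool.FC6 Pool.FC6.St

theorem tabS_use {a b c : ℕ} (ha : a < 3) (hb : b < 3) (hc : c < 3) {s o s1 : Bool}
    (hg : glt (mkl a b c 0 s o) s1 = true) {g : ℕ} (h1 : lle g (lett (mkl a b c 0 s o) s1) = true)
    (l1 : lett (mkl a b c 0 s o) s1 < 46)
    {fo : Bool} (hf : fo = false → o = false ∧ ¬ (a = 0 ∧ (b = 2 ∨ c = 2)))
    {qb qc : ℕ} (h2 : qb = 99 ∨ lle qb (lett (mkl b c a 0 o s1) s) = true)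
    (l2 : lett (mkl b c a 0 o s1) s < 46)
    (h3 : qc = 99 ∨ lle qc (lett (mkl c a b 0 s1 s) o) = true)
    (l3 : lett (mkl c a b 0 s1 s) o < 46) :
    chg (cds g fo qb qc) (mkl a b c 0 s o) = true := by
  have bo : ∀ x : Bool, x ∈ [false, true] := fun x => by cases x <;> simp
  have t := tabS_true
  unfold tabS at t
  simp only [allN_iff, List.all_eq_true] at t
  have t1 := t a ha b hb c hc s (bo s) o (bo o) s1 (bo s1)
  rw [hg, Bool.not_true, Bool.false_or, List.all_eq_true] at t1
  have t2 := t1 g (mem_lup l1 h1)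
  rw [List.all_eq_true] at t2
  have t3 := t2 fo (bo fo)
  have k : (fo || (!o && !(decide (a = 0) && (decide (b = 2) || decide (c = 2))))) = true := by
    cases fo
    · obtain ⟨k1, k2⟩ := hf rfl
      rw [k1]
      by_contra hc
      apply k2
      have h5 : a = 0 ∧ (¬ b = 2 → c = 2) := by simpa using hc
      refine ⟨h5.1, ?_⟩
      by_cases h6 : b = 2
      · exact Or.inl h6
      · exact Or.inr (h5.2 h6)
    · rfl
  rw [k, Bool.not_true, Bool.false_or, List.all_eq_true] at t3
  have t4 := t3 qb (by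
    rcases h2 with rfl | h2
    · exact List.mem_cons_self
    · exact List.mem_cons_of_mem _ (mem_lup l2 h2))
  rw [List.all_eq_true] at t4
  exact t4 qc (by
    rcases h3 with rfl | h3
    · exact List.mem_cons_self
    · exact List.mem_cons_of_mem _ (mem_lup l3 h3))

theorem tabG_use {n a c : ℕ} (hn : n = 0 ∨ n = 2 ∨ n = 3) (ha : a < 3) (hc : c = 1 ∨ c = 2)
    {s s1 : Bool} (hg : glt (mkl a (fcl n) c 1 s false) s1 = true) {g : ℕ}
    (h1 : lle g (lett (mkl a (fcl n) c 1 s false) s1) = true)
    (l1 : lett (mkl a (fcl n) c 1 s false) s1 < 46) {c2 c3 nt : Bool}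
    (k2 : c2 = true → n = 2) (k3 : c3 = true → n = 3) (kt : nt = true → n ≠ 2) :
    chg (cgp g c2 c3 nt) (dlg g (mkl a (fcl n) c 1 s false)) = true := by
  have bo : ∀ x : Bool, x ∈ [false, true] := fun x => by cases x <;> simp
  have t := tabG_true
  unfold tabG at t
  simp only [allN_iff, List.all_eq_true] at t
  have t1 := t n (by rcases hn with rfl | rfl | rfl <;> simp) a ha c
    (by rcases hc with rfl | rfl <;> simp) s (bo s) s1 (bo s1)
  rw [hg, Bool.not_true, Bool.false_or, List.all_eq_true] at t1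
  have t2 := t1 g (mem_lup l1 h1)
  rw [List.all_eq_true] at t2
  have t3 := t2 c2 (bo c2)
  rw [List.all_eq_true] at t3
  have t4 := t3 c3 (bo c3)
  rw [List.all_eq_true] at t4
  have t5 := t4 nt (bo nt)
  simp only [Bool.or_eq_true, Bool.and_eq_true, decide_eq_true_eq] at t5
  rcases t5 with ((t5 | t5) | t5) | t5
  · exact absurd (k2 t5.1) t5.2
  · exact absurd (k3 t5.1) t5.2
  · exact absurd t5.2 (kt t5.1)
  · exact t5

variable {D V : Type} [Fintype D] [DecidableEq V]
  {S : St D V} {L : D → Bool} {w : D → ℕ} {d e r : D}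

section mc

variable (h : MC 6 S L w) (hS : IsStar S) (hd : S.real d = true)

include h hS hd

theorem MC.lsol_iff' : lsol (lto S L d) = decide (S.real (S.M.σ d) = true) := by
  have ub : ∀ x, S.u x < 4 := fun x => by have := h.u_lt (le_refl 6) hS x; omega
  have g := h.glt (le_refl 6) hS hd
  have h1 := (lett_ok g).2.2.2.2.2
  unfold lto
  rw [h1]
  unfold code
  by_cases hs : S.real (S.M.σ d) = true
  · rw [if_pos hs, (mkl_dec (ub _) (ub _) (ub _) (by norm_num) _ _).2.2.2.1]
    simp [hs]
  · have hc : (if S.csz (S.M.σ d) = 4 then 1 else 2) < 4 := by split_ifs <;> norm_num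
    rw [if_neg hs, (mkl_dec (ub _) (fcl_lt _) hc (by norm_num) _ _).2.2.2.1]
    simp [hs]

/-- THE CODE OF A SECTOR -/
theorem MC.chg_cdx (hC : Can S w) {g : ℕ} (hg : lle g (lto S L d) = true) {K : Ctx}
    (hK : Snd S L w d K) : chg (cdx g K) (dlg g (code S L d)) = true := by
  have W := h.ok.toWf
  have ub := fun x => h.u_lt (le_refl 6) hS x
  have g0 := h.glt (le_refl 6) hS hd
  have hl := h.lto_lt hS hd
  have hs0 := h.lsol_iff' hS hd
  have hgs := lle_sol hg
  have hrd : S.real (S.M.α d) = true := by rw [W.real_α]; exact hd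
  obtain ⟨r, r1, r2⟩ := h.prv hS hrd
  have e1 := h.ends hS hd r1 r2
  unfold cdx
  rw [hgs, hs0]
  rcases e1 with ⟨hs, c1, c2, lr, p2⟩ | ⟨hs, c1, c2, lr, hlt, hgp⟩
  · -- solid
    rw [decide_eq_true hs, if_pos rfl]
    -- the third corner
    have hsol : lsol (lto S L d) = true := by rw [hs0]; exact decide_eq_true hs
    obtain ⟨r', t1, t2, t3⟩ := h.tri hS hd hsol
    have er : r' = r := by
      have v1 : S.M.v r' = S.M.v r := by rw [← v_nxr (S := S) r', ← v_nxr (S := S) r, t2, r2]
      have a1 := hS.nxr_rdeg W t1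
      have a2 := hS.nxr_rdeg W r1
      have h4 := h.rdeg_pos hS t1
      obtain ⟨m, hm⟩ : ∃ m, S.rdeg (S.M.v r') = m + 1 := ⟨S.rdeg (S.M.v r') - 1, by omega⟩
      rw [← v1] at a2
      rw [hm, Function.iterate_succ_apply] at a1 a2
      rw [t2] at a1
      rw [r2] at a2
      exact a1.symm.trans a2
    subst er
    have hrn := hS.nxr_real W hd
    have hrz : S.real (S.M.α (S.nxr d)) = true := by rw [W.real_α]; exact hrn
    have hrr : S.real (S.M.α r') = true := by rw [W.real_α]; exact t1
    have lz : L (S.M.α (S.nxr d)) = L (S.nxr d) := W.L_α _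
    have c3 : code S L (S.M.α (S.nxr d)) =
        mkl (S.u (S.M.α r')) (S.u (S.nxr d)) (S.u (S.M.α d)) 0 (L (S.nxr d)) (L d) := by
      rcases h.ends hS t1 hrz t3.symm with ⟨q0, q1, q2, q3, q4⟩ | ⟨q0, -⟩
      · rw [q2, S.M.αα, lr, r2, lz]
      · exfalso
        apply q0
        have := (St.shared (S := nou S) hS.nou W.nou hd t1 r2).1
        have s1' : S.real (S.M.σ r') = S.real (S.M.σ d) := this
        rw [s1']; exact hs
    have n3 : L (S.nxr (S.M.α (S.nxr d))) = L r' := by rw [← t3, W.L_α]
    unfold lto at hg hl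
    have hl2 := h.lto_lt hS t1
    have hl3 := h.lto_lt hS hrz
    unfold lto at hl2 hl3
    rw [c1] at hg hl g0 ⊢
    rw [c2, lr] at hl2
    rw [c3, n3] at hl3
    have hdl : dlg g (mkl (S.u (S.nxr d)) (S.u (S.M.α d)) (S.u (S.M.α r')) 0 (L d) (L r')) =
        mkl (S.u (S.nxr d)) (S.u (S.M.α d)) (S.u (S.M.α r')) 0 (L d) (L r') := by
      unfold dlg
      rw [if_pos]
      have ub4 : ∀ x, S.u x < 4 := fun x => by have := ub x; omega
      exact (mkl_dec (ub4 _) (ub4 _) (ub4 _) (by norm_num) _ _).2.2.2.1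
    rw [hdl]
    obtain ⟨s2, s3, -⟩ := h.corners hS hd
    refine tabS_use (ub _) (ub _) (ub _) g0 hg hl (fun hf => ?_) ?_ hl2 ?_ hl3
    · have hw := hK.fo hf
      refine ⟨?_, ?_⟩
      · by_contra hL
        have hL' : L (S.M.α r') = true := by
          rw [W.L_α]
          cases hq : L r'
          · exact absurd hq hL
          · rfl
        have h5 := h.full_lab (le_refl 6) hL' (e := S.nxr d) (by
          rw [t3]
          exact S.sc.iseqv.symm s3) (by rw [v_nxr]; exact h.ok.real_A _ hd)
        rw [v_nxr] at h5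
        omega
      · rintro ⟨k1, k2⟩
        have h6 : 6 ≤ wt S w (S.M.v (S.nxr d)) := by
          rcases k2 with k2 | k2
          · exact hC _ _ hrn hrd s2 k2 k1
          · refine hC _ _ hrn hrr ?_ k2 k1
            rw [t3]; exact s3
        rw [v_nxr] at h6
        omega
    · by_cases hq : K.qb = 99
      · exact Or.inl hq
      · right
        obtain ⟨r2', b1, b2, b3, -⟩ := hK.b hq
        have e5 : r2' = r' := by
          have v1 : S.M.v r2' = S.M.v r' := by
            rw [← v_nxr (S := S) r2', ← v_nxr (S := S) r', t2, b2]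
          have a1 := hS.nxr_rdeg W b1
          have a2 := hS.nxr_rdeg W t1
          have h4 := h.rdeg_pos hS b1
          obtain ⟨m, hm⟩ : ∃ m, S.rdeg (S.M.v r2') = m + 1 := ⟨S.rdeg (S.M.v r2') - 1, by omega⟩
          rw [← v1] at a2
          rw [hm, Function.iterate_succ_apply] at a1 a2
          rw [b2] at a1
          rw [t2] at a2
          exact a1.symm.trans a2
        rw [e5] at b3
        unfold lto at b3
        rwa [c2, lr] at b3
    · by_cases hq : K.qc = 99
      · exact Or.inl hq
      · right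
        have b3 := (hK.c hq).1
        unfold lto at b3
        rwa [c3, n3] at b3
  · -- gap
    rw [decide_eq_false hs, if_neg (by decide)]
    obtain ⟨f1, f2, f3⟩ := h.snd_fu hS hd hg hK
    have e0 : fu S (S.nxr d) = fu S (S.M.α d) := (fu_congr (sc_nxr d)).symm
    rw [e0] at f1 f2 f3
    unfold lto at hg hl
    rw [c1] at hg hl g0 ⊢
    exact tabG_use (h.fu023 (le_refl 6) _) (ub _) (by split_ifs <;> simp) g0 hg hl f1 f2 f3

/-- the word with choices -/
theorem MC.isW_cdx (hC : Can S w) {c : List ℕ} (hc : llw c (lwo S L d) = true) {K : ℕ → Ctx}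
    (hK : ∀ i < S.rdeg (S.M.v d), Snd S L w (S.nxr^[i] d) (K i)) :
    ∃ wd, chgc ((List.range c.length).map fun i => cdx (c.getD i 0) (K i)) wd = true ∧
      IsW S L d wd := by
  have W := h.ok.toWf
  have hw := h.isW (le_refl 6) hS hd
  have hlen := word_length (S := S) (L := L) (d := d)
  have hcl : c.length = S.rdeg (S.M.v d) := by rw [llw_len hc, lwo_length]
  have gd : ∀ i < c.length, ((List.range c.length).map fun i =>
      dlg (c.getD i 0) (code S L (S.nxr^[i] d))).getD i 0 =
      dlg (c.getD i 0) (code S L (S.nxr^[i] d)) := by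
    intro i hi
    rw [List.getD_eq_getElem _ _ (by simpa using hi), List.getElem_map, List.getElem_range]
  refine ⟨(List.range c.length).map fun i => dlg (c.getD i 0) (code S L (S.nxr^[i] d)), ?_, ?_⟩
  · unfold chgc
    simp only [Bool.and_eq_true, decide_eq_true_eq, List.all_eq_true, List.mem_range,
      List.length_map, List.length_range]
    refine ⟨trivial, fun i hi => ?_⟩
    rw [gd i hi]
    have e1 : ((List.range c.length).map fun i => cdx (c.getD i 0) (K i)).getD i 0 =
        cdx (c.getD i 0) (K i) := by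
      rw [List.getD_eq_getElem _ _ (by simpa using hi), List.getElem_map, List.getElem_range]
    rw [e1]
    have hi' : i < S.rdeg (S.M.v d) := by rw [← hcl]; exact hi
    have h2 := llw_getD hc hi
    rw [h.lwo_getD hS hd hi'] at h2
    exact h.chg_cdx hS (hS.nxr_iter_real W hd i) hC h2 (hK i hi')
  · refine hw.mono (by rw [List.length_map, List.length_range, hcl, hlen]) fun i hi hl => ?_
    have hi' : i < c.length := by
      rw [hcl]
      rwa [hlen] at hi
    rw [gd i hi']
    have h3 := hl.drop (g := c.getD i 0)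
    rwa [word_getD (by rw [← hcl]; exact hi')] at h3

end mc

end Pool.FC7
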