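import Pool.Agent.FC7.SyN

/-! # The words of three vertices on a gap -/

open Finset

set_option linter.unusedSectionVars false

namespace Pool.FC7

open Pool.FC6 Pool.FC6.St

theorem ef_all : ∀ l < 1024, ∀ s : Bool, glt l s = true → (lett l s = 15 ∨ lett l s = 16) →
    lK l = 0 ∧ lA l = 0 ∧ (lB l = 2 ∨ lC l = 2) := by
  have t0 : (List.range 1024).all (fun l => [false, true].all fun s =>
      !(glt l s && (decide (lett l s = 15) || decide (lett l s = 16))) ||
        (decide (lK l = 0) && decide (lA l = 0) && (decide (lB l = 2) || decide (lC l = 2))))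
        = true := by decide +kernel
  intro l hl s h1 h2
  rw [List.all_eq_true] at t0
  have h3 := t0 l (List.mem_range.2 hl)
  rw [List.all_eq_true] at h3
  have h4 := h3 s (by cases s <;> simp)
  have h5 : (decide (lett l s = 15) || decide (lett l s = 16)) = true := by
    simpa using h2
  rw [h1, h5] at h4
  simp only [Bool.and_true, Bool.not_true, Bool.false_or, Bool.and_eq_true,
    decide_eq_true_eq, Bool.or_eq_true] at h4
  exact ⟨h4.1.1, h4.1.2, h4.2⟩

variable {D V : Type} [Fintype D] [DecidableEq V]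
  {S : St D V} {L : D → Bool} {w : D → ℕ} {U : V → Prop} {d e r x : D}

theorem wt_wgt (y : V) : wgt S w y = wt S w y := rfl

section mc

variable (h : MC 6 S L w) (hS : IsStar S)

include h hS

/-- the units at the fourth corner of a face of length four -/
theorem MC.fourth {x y z : D} (hc : S.csz e = 4) (hx : S.sc.r e x) (hy : S.sc.r e y)
    (hz : S.sc.r e z) (rx : S.real x = true) (ry : S.real y = true) (rz : S.real z = true)
    (n1 : x ≠ y) (n2 : x ≠ z) (n3 : y ≠ z) :
    ∃ k, fu S e = S.u x + S.u y + S.u z + k ∧ (k = 0 ∨ ∃ g, S.sc.r e g ∧ S.real g = true ∧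
      g ≠ x ∧ g ≠ y ∧ g ≠ z ∧ S.u g = k) := by
  classical
  by_cases hg : ∃ g, S.sc.r e g ∧ g ≠ x ∧ g ≠ y ∧ g ≠ z ∧ S.u g ≠ 0
  · obtain ⟨g, g1, g2, g3, g4, g5⟩ := hg
    have rg := hS.ur g g5
    refine ⟨S.u g, ?_, Or.inr ⟨g, g1, rg, g2, g3, g4, rfl⟩⟩
    have hu : ∀ b, S.sc.r e b → b ≠ x → b ≠ y → b ≠ z → b ≠ g → S.u b = 0 := by
      intro b b1 b2 b3 b4 b5
      by_contra ub
      have rb := hS.ur b ub
      have h1 : ∑ t ∈ {g, b, x, y, z}, (if S.real t = true ∧ S.sc.r e t then 1 else 0) ≤
          S.csz e := by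
        unfold St.csz
        have := Finset.sum_le_sum_of_subset (f := fun t => if S.real t = true ∧ S.sc.r e t then 1
          else 0) (Finset.subset_univ ({g, b, x, y, z} : Finset D))
        convert this
      rw [Finset.sum_insert (by
          simp only [Finset.mem_insert, Finset.mem_singleton, not_or]
          exact ⟨b5.symm, g2, g3, g4⟩), Finset.sum_insert (by
          simp only [Finset.mem_insert, Finset.mem_singleton, not_or]
          exact ⟨b2, b3, b4⟩), Finset.sum_insert (by
          simp only [Finset.mem_insert, Finset.mem_singleton, not_or]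
          exact ⟨n1, n2⟩), Finset.sum_pair n3, if_pos ⟨rg, g1⟩, if_pos ⟨rb, b1⟩,
        if_pos ⟨rx, hx⟩, if_pos ⟨ry, hy⟩, if_pos ⟨rz, hz⟩] at h1
      omega
    have h2 : fu S e = ∑ t ∈ {x, y, z, g}, (if S.sc.r e t then S.u t else 0) := by
      unfold fu
      symm
      refine Finset.sum_subset (Finset.subset_univ _) fun b _ hb => ?_
      simp only [Finset.mem_insert, Finset.mem_singleton, not_or] at hb
      by_cases hs : S.sc.r e b
      · rw [if_pos hs]; exact hu b hs hb.1 hb.2.1 hb.2.2.1 hb.2.2.2
      · rw [if_neg hs]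
    rw [h2, Finset.sum_insert (by
        simp only [Finset.mem_insert, Finset.mem_singleton, not_or]
        exact ⟨n1, n2, g2.symm⟩), Finset.sum_insert (by
        simp only [Finset.mem_insert, Finset.mem_singleton, not_or]
        exact ⟨n3, g3.symm⟩), Finset.sum_pair g4.symm, if_pos hx, if_pos hy, if_pos hz, if_pos g1]
    ring
  · push Not at hg
    refine ⟨0, ?_, Or.inl rfl⟩
    have h2 : fu S e = ∑ t ∈ {x, y, z}, (if S.sc.r e t then S.u t else 0) := by
      unfold fu
      symm
      refine Finset.sum_subset (Finset.subset_univ _) fun b _ hb => ?_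
      simp only [Finset.mem_insert, Finset.mem_singleton, not_or] at hb
      by_cases hs : S.sc.r e b
      · rw [if_pos hs]; exact hg b hs hb.1 hb.2.1 hb.2.2
      · rw [if_neg hs]
    rw [h2, Finset.sum_insert (by
        simp only [Finset.mem_insert, Finset.mem_singleton, not_or]
        exact ⟨n1, n2⟩), Finset.sum_pair n3, if_pos hx, if_pos hy, if_pos hz]
    ring

/-- the words with a canonical distribution -/
theorem MC.lwo_glf (hC : Can S w) (hd : S.real d = true) : glf (lwo S L d) = true := by
  have W := h.ok.toWf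
  unfold glf
  rw [h.lwo_glw hS hd, h.lwo_ovw hS hd, Bool.true_and, Bool.and_true, Bool.or_eq_true,
    decide_eq_true_eq, h.wt_lwo hS hd]
  by_cases h6 : wt S w (S.M.v d) = 6
  · exact Or.inl h6
  · right
    have hle : wt S w (S.M.v d) ≤ 6 := wgt_le W (h.ok.real_A _ hd)
    rw [List.all_eq_true]
    intro l hl
    obtain ⟨i, hi, rfl⟩ := List.getElem_of_mem hl
    rw [lwo_length] at hi
    rw [← List.getD_eq_getElem _ 0, h.lwo_getD hS hd hi]
    have hr := hS.nxr_iter_real W hd i
    have hv : S.M.v (S.nxr^[i] d) = S.M.v d := v_nxr_iter i d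
    set z := S.nxr^[i] d with hz
    rw [← hv] at h6 hle
    clear_value z
    -- the letters 15, 16: a face with units 0, 2, 1
    have hrz : S.real (S.M.α z) = true := by rw [W.real_α]; exact hr
    obtain ⟨r, r1, r2⟩ := h.prv hS hrz
    have ub : ∀ x, S.u x < 4 := fun x => by have := h.u_lt (le_refl 6) hS x; omega
    have key : ¬ (lto S L z = 15 ∨ lto S L z = 16) := by
      intro hq
      obtain ⟨k1, k2, k3⟩ := ef_all _ (h.code_lt hS (d := z)) _ (h.glt (le_refl 6) hS hr) hq
      obtain ⟨s2, s3, -⟩ := h.corners hS hr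
      have hrn := hS.nxr_real W hr
      rcases h.ends hS hr r1 r2 with ⟨q0, c1, -, -, c4⟩ | ⟨q0, c1, -⟩
      · rw [c1] at k2 k3
        have m := mkl_dec (ub (S.nxr z)) (ub (S.M.α z)) (ub (S.M.α r)) (show (0 : ℕ) < 4 by norm_num)
          (L z) (L r)
        rw [m.1] at k2
        rw [m.2.1, m.2.2.1] at k3
        have hw : 6 ≤ wt S w (S.M.v (S.nxr z)) := by
          rcases k3 with k3 | k3
          · exact hC _ _ hrn hrz s2 k3 k2
          · refine hC _ (S.M.α r) hrn (by rw [W.real_α]; exact r1) ?_ k3 k2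
            -- the third corner
            have e4 : S.nxr z = S.M.σ z := if_pos q0
            have e5 : S.M.α r = S.M.φ (S.nxr z) := by rw [e4]; exact c4.symm
            rw [e5]
            exact (scφ (S.nxr z) (S.nxr z)).2 (S.sc.iseqv.refl _)
        rw [v_nxr] at hw
        omega
      · rw [c1] at k1
        have hc : (if S.csz (S.M.σ z) = 4 then 1 else 2) < 4 := by split_ifs <;> norm_num
        rw [(mkl_dec (ub _) (fcl_lt _) hc (by norm_num) _ _).2.2.2.1] at k1
        exact absurd k1 (by norm_num)
    simp only [Bool.and_eq_true, Bool.not_eq_true', decide_eq_false_iff_not]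
    exact ⟨fun q => key (Or.inl q), fun q => key (Or.inr q)⟩

/-- a gap with a label has a labelled edge -/
theorem MC.ev0L (hd : S.real d = true) (hz : is0 (lto S L d) = true) :
    ∃ g, L g = true ∧ S.sc.r g (S.nxr d) := by
  have W := h.ok.toWf
  have h5 := h.evk_at hS hd
  unfold evk at h5
  rw [h.glt (le_refl 6) hS hd, Bool.not_true, Bool.false_or] at h5
  simp only [Bool.and_eq_true, decide_eq_true_eq, Bool.or_eq_true, Bool.not_eq_true'] at h5
  have h6 := h5.1.1.1.2
  unfold lto at hz
  rcases h6 with h6 | ⟨h6, h7⟩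
  · rw [hz] at h6; exact absurd h6 (by decide)
  rcases h7 with h7 | h7
  · refine ⟨S.M.α d, ?_, sc_nxr d⟩
    rw [W.L_α]
    have ub : ∀ x, S.u x < 4 := fun x => by have := h.u_lt (le_refl 6) hS x; omega
    have e1 : lS (code S L d) = L d := by
      unfold code
      split_ifs
      · exact (mkl_dec (ub _) (ub _) (ub _) (by norm_num) _ _).2.2.2.2.1
      · exact (mkl_dec (ub _) (fcl_lt _) (by norm_num) (by norm_num) _ _).2.2.2.2.1
      · exact (mkl_dec (ub _) (fcl_lt _) (by norm_num) (by norm_num) _ _).2.2.2.2.1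
    rw [e1] at h7
    exact h7
  · exact ⟨S.nxr d, h7, S.sc.iseqv.refl _⟩

/-- THREE VERTICES ON A GAP -/
theorem MC.g4_ok (hC : Can S w) (hR : Reg S U) (hd : S.real d = true) (hU : U (S.M.v d))
    (hr : S.real r = true) (hn : S.nxr r = S.M.α d) :
    g4 (wt S w (S.M.v d)) (lto S L d) (wt S w (S.M.v (S.M.α d)))
      (wt S w (S.M.v (S.M.α (S.nxr d)))) (lto S L r) (lto S L (S.M.α (S.nxr d))) = true := by
  have W := h.ok.toWf
  have hrn := hS.nxr_real W hd
  have hrd : S.real (S.M.α d) = true := by rw [W.real_α]; exact hd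
  have hrm : S.real (S.M.α (S.nxr d)) = true := by rw [W.real_α]; exact hrn
  have rc : S.real (S.nxr (S.M.α (S.nxr d))) = true := hS.nxr_real W hrm
  obtain ⟨s2, s3, n1, n2, n3⟩ := h.corners hS hd
  have s1 : S.sc.r (S.nxr d) (S.nxr d) := S.sc.iseqv.refl _
  have h3 := h.own3 hS hd hr hn
  have a1 := h.lown_eq hS hd
  have a2 := h.lown_eq hS hr
  have a3 := h.lown_eq hS hrm
  rw [hn] at a2
  -- the corners are in the graph
  have A1 : S.M.v (S.nxr d) ∈ S.A := h.ok.real_A _ hrn
  have A2 : S.M.v (S.M.α d) ∈ S.A := h.ok.real_A _ hrd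
  have A3 : S.M.v (S.nxr (S.M.α (S.nxr d))) ∈ S.A := h.ok.real_A _ rc
  have v1 : S.M.v (S.nxr d) = S.M.v d := v_nxr _
  have v3 : S.M.v (S.nxr (S.M.α (S.nxr d))) = S.M.v (S.M.α (S.nxr d)) := v_nxr _
  have hle : ∀ {y}, y ∈ S.A → wt S w y ≤ 6 := fun hy => wgt_le W hy
  -- full corners
  have zf : (∀ g, S.sc.r (S.nxr d) g → S.real g = true → S.u g = 0 → 6 ≤ wt S w (S.M.v g)) →
      zfl (wt S w (S.M.v d)) (lto S L d) (wt S w (S.M.v (S.M.α d)))
      (wt S w (S.M.v (S.M.α (S.nxr d)))) (lto S L r) (lto S L (S.M.α (S.nxr d))) = true := by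
    intro hf
    unfold zfl
    simp only [Bool.and_eq_true, Bool.or_eq_true, Bool.not_eq_true', decide_eq_false_iff_not,
      decide_eq_true_eq]
    refine ⟨⟨?_, ?_⟩, ?_⟩
    · by_cases q : lown (lto S L d) = 0
      · right
        have := hf _ s1 hrn (by rw [← a1]; exact q)
        have := hle A1
        rw [v1] at *
        omega
      · exact Or.inl q
    · by_cases q : lown (lto S L r) = 0
      · right
        have := hf _ s2 hrd (by rw [← a2]; exact q)
        have := hle A2
        omega
      · exact Or.inl q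
    · by_cases q : lown (lto S L (S.M.α (S.nxr d))) = 0
      · right
        have := hf _ s3 rc (by rw [← a3]; exact q)
        have := hle A3
        rw [v3] at *
        omega
      · exact Or.inl q
  -- a label
  have lab : ∀ z, S.real z = true → S.sc.r (S.nxr z) (S.nxr d) → is0 (lto S L z) = true →
      fu S (S.nxr d) = 0 ∧ ∀ g, S.sc.r (S.nxr d) g → S.real g = true → S.u g = 0 →
        6 ≤ wt S w (S.M.v g) := by
    intro z hz hsc h0
    have f0 := h.ev0 hS hz h0
    rw [fu_congr hsc] at f0
    obtain ⟨g, g1, g2⟩ := h.ev0L hS hz h0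
    refine ⟨f0, fun g' g3 g4 _ => ?_⟩
    have := h.lab_full (le_refl 6) g1 (S.sc.iseqv.trans g2 (S.sc.iseqv.trans hsc g3))
      (h.ok.real_A _ g4)
    rw [wt_wgt] at this
    omega
  unfold g4
  rw [h.lsol_iff' hS hd]
  by_cases hs : S.real (S.M.σ d) = true
  · rw [decide_eq_true hs]
    rfl
  · rw [decide_eq_false hs, Bool.false_or]
    have hs0 : S.real (S.M.σ d) = false := by simpa using hs
    have gf := fun k1 k2 => h.gap_full (le_refl 6) hS hd hs0 (k1 := k1) (k2 := k2)
      (fun y y1 y2 => hR.fc y y1 (by rw [y2]; exact hU))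
    simp only [wt_wgt] at gf
    have fu3 := u3_le_fu s1 s2 s3 n1 n2 n3
    simp only [Bool.and_eq_true]
    refine ⟨⟨⟨⟨⟨decide_eq_true h3, ?_⟩, ?_⟩, ?_⟩, ?_⟩, ?_⟩
    · -- the chord
      have hl2 : lown (lto S L d) ≤ 2 := by
        have := h.u_lt (le_refl 6) hS (S.nxr d)
        omega
      have m6 := hle A2
      have n6 := hle A3
      rw [v3] at n6
      split_ifs with q1 q2
      · rw [Bool.or_eq_true, decide_eq_true_eq, decide_eq_true_eq]
        by_contra hc
        push Not at hc
        exact gf 0 0 (by omega) (by omega) (by omega)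
      · simp only [Bool.and_eq_true, Bool.not_eq_true', Bool.and_eq_false_iff,
          decide_eq_false_iff_not]
        constructor
        · by_contra hc
          push Not at hc
          exact gf 1 0 (by omega) (by omega) (by omega)
        · by_contra hc
          push Not at hc
          exact gf 0 1 (by omega) (by omega) (by omega)
      · simp only [Bool.not_eq_true', Bool.and_eq_false_iff, decide_eq_false_iff_not]
        by_contra hc
        push Not at hc
        exact gf 1 1 (by omega) (by omega) (by omega)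
    · -- a label
      by_cases q : (is0 (lto S L d) || is0 (lto S L r) || is0 (lto S L (S.M.α (S.nxr d)))) = true
      · rw [q, Bool.not_true, Bool.false_or, Bool.and_eq_true, decide_eq_true_eq]
        obtain ⟨f0, f1⟩ : fu S (S.nxr d) = 0 ∧ ∀ g, S.sc.r (S.nxr d) g → S.real g = true →
            S.u g = 0 → 6 ≤ wt S w (S.M.v g) := by
          simp only [Bool.or_eq_true] at q
          rcases q with (q | q) | q
          · exact lab _ hd s1 q
          · exact lab _ hr (by rw [hn]; exact S.sc.iseqv.symm s2) q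
          · exact lab _ hrm (S.sc.iseqv.symm s3) q
        exact ⟨by omega, zf f1⟩
      · rw [Bool.eq_false_iff.2 q]
        rfl
    · -- two units at a corner
      by_cases q : (decide (lown (lto S L d) = 2) || decide (lown (lto S L r) = 2) ||
          decide (lown (lto S L (S.M.α (S.nxr d))) = 2)) = true
      · rw [q, Bool.not_true, Bool.false_or]
        refine zf fun g g1 g2 g3 => ?_
        simp only [Bool.or_eq_true, decide_eq_true_eq] at q
        rcases q with (q | q) | q
        · exact hC g _ g2 hrn (S.sc.iseqv.symm g1) (by rw [← a1]; exact q) g3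
        · exact hC g _ g2 hrd (S.sc.iseqv.trans (S.sc.iseqv.symm g1) s2)
            (by rw [← a2]; exact q) g3
        · exact hC g _ g2 rc (S.sc.iseqv.trans (S.sc.iseqv.symm g1) s3)
            (by rw [← a3]; exact q) g3
      · rw [Bool.eq_false_iff.2 q]
        rfl
    · -- a face of length four
      by_cases q : (ln4 (lto S L d) && decide (lown (lto S L d) + lown (lto S L r) +
          lown (lto S L (S.M.α (S.nxr d))) = 1)) = true
      · rw [q, Bool.not_true, Bool.false_or]
        rw [Bool.and_eq_true, decide_eq_true_eq] at q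
        obtain ⟨q1, q2⟩ := q
        obtain ⟨k, k1, k2⟩ := h.fourth hS (h.ev4 hS hd q1) s1 s2 s3 hrn hrd rc n1 n2 n3
        refine zf fun g g1 g2 g3 => ?_
        rcases h.fu023 (le_refl 6) (S.nxr d) with f | f | f
        · omega
        · have := h.two_full (le_refl 6) f g1 (h.ok.real_A _ g2)
          rw [wt_wgt] at this
          omega
        · have e2 : k = 2 := by omega
          rcases k2 with k2 | ⟨g', b1, b2, -, -, -, b3⟩
          · omega
          · exact hC g g' g2 b2 (S.sc.iseqv.trans (S.sc.iseqv.symm g1) b1)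
              (by rw [b3]; exact e2) g3
      · rw [Bool.eq_false_iff.2 q]
        rfl
    · -- two units in a face of length four
      by_cases q : lto S L d = 9
      · rw [decide_eq_true q, Bool.not_true, Bool.false_or]
        have e2 : S.csz (S.nxr d) = S.csz (S.M.σ d) :=
          (csz_congr (sc_nxr d)).symm.trans (csz_congr (sc_sec1 d))
        have h4 := h.ev4 hS hd (by rw [q]; rfl)
        rw [e2] at h4
        obtain ⟨b1, b2⟩ := h.two4 hS hd hs0 h4 ((h.ev hS hd).2.2 (by rw [q]; rfl)) (by
          rw [← a1, q]; rfl)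
        rw [a2, a3, b1, b2]
        rfl
      · rw [decide_eq_false q]
        rfl

/-- TWO VERTICES ON A GAP -/
theorem MC.g2_ok (hC : Can S w) (hd : S.real d = true) (hr : S.real r = true)
    (hn : S.nxr r = S.M.α d) :
    g2 (wt S w (S.M.v d)) (lto S L d) (wt S w (S.M.v (S.M.α d))) (lto S L r) = true := by
  have W := h.ok.toWf
  have hrn := hS.nxr_real W hd
  have hrd : S.real (S.M.α d) = true := by rw [W.real_α]; exact hd
  obtain ⟨s2, -, -, -, -⟩ := h.corners hS hd
  have s1 : S.sc.r (S.nxr d) (S.nxr d) := S.sc.iseqv.refl _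
  have a1 := h.lown_eq hS hd
  have a2 := h.lown_eq hS hr
  rw [hn] at a2
  have v1 : S.M.v (S.nxr d) = S.M.v d := v_nxr _
  have k6 : wt S w (S.M.v d) ≤ 6 := wgt_le W (h.ok.real_A _ hd)
  have m6 : wt S w (S.M.v (S.M.α d)) ≤ 6 := wgt_le W (h.ok.real_A _ hrd)
  unfold g2
  rw [h.lsol_iff' hS hd]
  by_cases hs : S.real (S.M.σ d) = true
  · rw [decide_eq_true hs]
    rfl
  · rw [decide_eq_false hs, Bool.false_or, Bool.and_eq_true, Bool.and_eq_true]
    refine ⟨⟨?_, ?_⟩, ?_⟩
    · by_cases q : (is0 (lto S L d) || is0 (lto S L r)) = true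
      · rw [q, Bool.not_true, Bool.false_or, Bool.and_eq_true, decide_eq_true_eq,
          decide_eq_true_eq]
        obtain ⟨g, g1, g2⟩ : ∃ g, L g = true ∧ S.sc.r g (S.nxr d) := by
          rw [Bool.or_eq_true] at q
          rcases q with q | q
          · exact h.ev0L hS hd q
          · obtain ⟨g, g1, g2⟩ := h.ev0L hS hr q
            rw [hn] at g2
            exact ⟨g, g1, S.sc.iseqv.trans g2 (S.sc.iseqv.symm s2)⟩
        have b1 := h.lab_full (le_refl 6) g1 g2 (h.ok.real_A _ hrn)
        have b2 := h.lab_full (le_refl 6) g1 (S.sc.iseqv.trans g2 s2) (h.ok.real_A _ hrd)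
        rw [wt_wgt, v1] at b1
        rw [wt_wgt] at b2
        exact ⟨b1, b2⟩
      · rw [Bool.eq_false_iff.2 q]
        rfl
    · by_cases q : (decide (lown (lto S L d) = 2) && decide (lown (lto S L r) = 0)) = true
      · rw [q, Bool.not_true, Bool.false_or, decide_eq_true_eq]
        rw [Bool.and_eq_true, decide_eq_true_eq, decide_eq_true_eq] at q
        have := hC _ _ hrd hrn (S.sc.iseqv.symm s2) (by rw [← a1]; exact q.1)
          (by rw [← a2]; exact q.2)
        omega
      · rw [Bool.eq_false_iff.2 q]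
        rfl
    · by_cases q : (decide (lown (lto S L r) = 2) && decide (lown (lto S L d) = 0)) = true
      · rw [q, Bool.not_true, Bool.false_or, decide_eq_true_eq]
        rw [Bool.and_eq_true, decide_eq_true_eq, decide_eq_true_eq] at q
        have := hC _ _ hrn hrd s2 (by rw [← a2]; exact q.1) (by rw [← a1]; exact q.2)
        rw [v1] at this
        omega
      · rw [Bool.eq_false_iff.2 q]
        rfl

end mc

end Pool.FC7
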