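import Pool.Agent.FC7.SyG
import Pool.Agent.FC7.GcF

/-! # Faces of length four -/

open Finset

set_option linter.unusedSectionVars false

namespace Pool.FC7

open Pool.FC6 Pool.FC6.St

variable {D V : Type} [Fintype D] [DecidableEq V]
  {S : St D V} {L : D → Bool} {w : D → ℕ} {U : V → Prop} {d e r m r2 m2 x : D}

section mc

variable (h : MC 6 S L w) (hS : IsStar S)

include h hS

/-- the two ends of an edge are in the same gap -/
theorem MC.shr (hd : S.real d = true) (hr : S.real r = true) (hn : S.nxr r = S.M.α d) :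
    S.real (S.M.σ r) = S.real (S.M.σ d) :=
  (St.shared (S := nou S) hS.nou h.ok.toWf.nou hd hr hn).1

/-- the spokes of the centre of a gap -/
theorem MC.hub_next (hd : S.real d = true) (hr : S.real r = true) (hn : S.nxr r = S.M.α d)
    (hv : S.real (S.M.σ d) = false) : S.M.α (S.M.σ r) = S.M.σ (S.M.α (S.M.σ d)) := by
  have h1 : S.real (S.M.σ r) = false := by rw [h.shr hS hd hr hn]; exact hv
  have h2 : S.nxr r = S.M.σ (S.M.σ r) := if_neg (by rw [h1]; decide)
  have h3 : S.M.φ (S.M.α (S.M.σ r)) = S.M.α d := by rw [← hn, h2]; rfl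
  have h4 : S.M.φ (S.M.φ (S.M.φ (S.M.α (S.M.σ r)))) = S.M.α (S.M.σ r) := S.M.φ3 _
  rw [h3] at h4
  show _ = S.M.φ (S.M.α (S.M.α (S.M.σ d)))
  rw [S.M.αα]
  exact h4.symm

/-- a face of length four: `r2`, `m2` are the darts at the fourth vertex before the face -/
theorem MC.quad (hd : S.real d = true) (hv : S.real (S.M.σ d) = false)
    (hc : S.csz (S.M.σ d) = 4) (hr : S.real r = true) (hn : S.nxr r = S.M.α d)
    (hr2 : S.real r2 = true) (hn2 : S.nxr r2 = S.M.α r) :
    S.nxr (S.M.α (S.nxr d)) = S.M.α r2 := by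
  have W := h.ok.toWf
  have hrn := hS.nxr_real W hd
  have hrm : S.real (S.M.α (S.nxr d)) = true := by rw [W.real_α]; exact hrn
  have hg : S.real (S.nxr (S.M.α (S.nxr d))) = true := hS.nxr_real W hrm
  have hgα : S.real (S.M.α (S.nxr (S.M.α (S.nxr d)))) = true := by rw [W.real_α]; exact hg
  have e1 := h.hub_next hS hd hr hn hv
  have v1 : S.real (S.M.σ r) = false := by rw [h.shr hS hd hr hn]; exact hv
  have e2 := h.hub_next hS hr hr2 hn2 v1
  -- the other side
  have n3 : S.nxr d = S.M.α (S.M.α (S.nxr d)) := (S.M.αα _).symm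
  have v3 : S.real (S.M.σ (S.M.α (S.nxr d))) = false := by
    rw [← h.shr hS hrm hd n3]; exact hv
  have e3 := h.hub_next hS hrm hd n3 v3
  have n4 : S.nxr (S.M.α (S.nxr d)) = S.M.α (S.M.α (S.nxr (S.M.α (S.nxr d)))) :=
    (S.M.αα _).symm
  have v4 : S.real (S.M.σ (S.M.α (S.nxr (S.M.α (S.nxr d))))) = false := by
    rw [← h.shr hS hgα hrm n4]; exact v3
  have e4 := h.hub_next hS hgα hrm n4 v4
  have hA := h.ok.real_A _ hd
  have hp := hS.csz_iter W hv (by rw [S.M.vσ]; exact hA)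
  rw [hc] at hp
  have hp' : S.M.σ (S.M.σ (S.M.σ (S.M.σ (S.M.α (S.M.σ d))))) = S.M.α (S.M.σ d) := hp
  rw [← e1, ← e2] at hp'
  have h5 : S.M.σ (S.M.σ (S.M.α (S.M.σ r2))) =
      S.M.σ (S.M.σ (S.M.α (S.M.σ (S.M.α (S.nxr (S.M.α (S.nxr d))))))) := by
    rw [hp', ← e4, ← e3]
  have h6 := S.M.αinj (S.M.σinj (S.M.σinj h5))
  have h7 := S.M.σinj h6
  rw [h7, S.M.αα]

/-- the corners of a face of length four -/
theorem MC.quad_ne (hd : S.real d = true) (hv : S.real (S.M.σ d) = false)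
    (hr : S.real r = true) (hn : S.nxr r = S.M.α d) :
    S.M.α r ≠ S.nxr d ∧ S.M.α r ≠ S.M.α d ∧ S.M.α r ≠ S.nxr (S.M.α (S.nxr d)) := by
  have W := h.ok.toWf
  have hrn := hS.nxr_real W hd
  have hrm : S.real (S.M.α (S.nxr d)) = true := by rw [W.real_α]; exact hrn
  have vr : S.M.v r = S.M.v (S.M.α d) := by rw [← hn, v_nxr]
  refine ⟨fun hq => ?_, fun hq => ?_, fun hq => ?_⟩
  · have h1 : r = S.M.α (S.nxr d) := by rw [← hq, S.M.αα]
    rw [h1] at vr
    exact (h.nxr_ne (le_refl 6) hS hd).1 (h.far_inj hS hd (v_nxr _) vr)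
  · have h1 : r = d := S.M.αinj hq
    rw [h1] at vr
    exact W.real_ne _ hd vr
  · -- a triangle
    have e1 := h.hub_next hS hd hr hn hv
    have n2 : S.nxr (S.M.α (S.nxr d)) = S.M.α r := hq.symm
    have v1 : S.real (S.M.σ r) = false := by rw [h.shr hS hd hr hn]; exact hv
    have e2 := h.hub_next hS hr hrm n2 v1
    have v2 : S.real (S.M.σ (S.M.α (S.nxr d))) = false := by rw [h.shr hS hr hrm n2]; exact v1
    have n3 : S.nxr d = S.M.α (S.M.α (S.nxr d)) := (S.M.αα _).symm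
    have e3 := h.hub_next hS hrm hd n3 v2
    have hA := h.ok.real_A _ hd
    have h3 := h.csz3 (le_refl 6) hS (S.M.σ d)
    have h4 := hS.csz_ne3 W hv
    refine hS.csz_iter_ne W hv (by rw [S.M.vσ]; exact hA) (j := 3) (by norm_num) (by omega) ?_
    show S.M.σ (S.M.σ (S.M.σ (S.M.α (S.M.σ d)))) = _
    rw [← e1, ← e2, ← e3]

/-- a face of length four with two units: a corner without units has units at the two neighbours -/
theorem MC.two4 (hd : S.real d = true) (hv : S.real (S.M.σ d) = false)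
    (hc : S.csz (S.M.σ d) = 4) (hf : fu S (S.nxr d) = 2) (hu : S.u (S.nxr d) = 0) :
    S.u (S.M.α d) = 1 ∧ S.u (S.nxr (S.M.α (S.nxr d))) = 1 := by
  classical
  have W := h.ok.toWf
  have hrn := hS.nxr_real W hd
  have hrd : S.real (S.M.α d) = true := by rw [W.real_α]; exact hd
  have hrm : S.real (S.M.α (S.nxr d)) = true := by rw [W.real_α]; exact hrn
  have hg : S.real (S.nxr (S.M.α (S.nxr d))) = true := hS.nxr_real W hrm
  obtain ⟨r, hr, hn⟩ := h.prv hS hrd
  have hrr : S.real (S.M.α r) = true := by rw [W.real_α]; exact hr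
  obtain ⟨r2, hr2, hn2⟩ := h.prv hS hrr
  have q1 := h.quad hS hd hv hc hr hn hr2 hn2
  obtain ⟨k1, k2, k3⟩ := h.quad_ne hS hd hv hr hn
  obtain ⟨s2, s3, n1, n2, n3⟩ := h.corners hS hd
  have s4 : S.sc.r (S.nxr d) (S.M.α r) := by
    have := sc_nxr (S := S) r
    rw [hn] at this
    exact S.sc.iseqv.trans s2 (S.sc.iseqv.symm this)
  have s1 : S.sc.r (S.nxr d) (S.nxr d) := S.sc.iseqv.refl _
  have hc' : S.csz (S.nxr d) = 4 := by
    rw [← hc]
    exact (csz_congr (sc_nxr d)).symm.trans (csz_congr (sc_sec1 d))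
  have all4 : ∀ b, S.sc.r (S.nxr d) b → S.real b = true → b = S.nxr d ∨ b = S.M.α d ∨
      b = S.nxr (S.M.α (S.nxr d)) ∨ b = S.M.α r := by
    intro b hb rb
    by_contra hcc
    push Not at hcc
    obtain ⟨b1, b2, b3, b4⟩ := hcc
    have h1 : ∑ t ∈ {b, S.M.α r, S.nxr d, S.M.α d, S.nxr (S.M.α (S.nxr d))},
        (if S.real t = true ∧ S.sc.r (S.nxr d) t then 1 else 0) ≤ S.csz (S.nxr d) := by
      unfold St.csz
      have := Finset.sum_le_sum_of_subset (f := fun t => if S.real t = true ∧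
        S.sc.r (S.nxr d) t then 1 else 0) (Finset.subset_univ
          ({b, S.M.α r, S.nxr d, S.M.α d, S.nxr (S.M.α (S.nxr d))} : Finset D))
      convert this
    rw [Finset.sum_insert (by
        simp only [Finset.mem_insert, Finset.mem_singleton, not_or]
        exact ⟨b4, b1, b2, b3⟩), Finset.sum_insert (by
        simp only [Finset.mem_insert, Finset.mem_singleton, not_or]
        exact ⟨k1, k2, k3⟩), Finset.sum_insert (by
        simp only [Finset.mem_insert, Finset.mem_singleton, not_or]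
        exact ⟨n1, n2⟩), Finset.sum_pair n3, if_pos ⟨rb, hb⟩, if_pos ⟨hrr, s4⟩,
      if_pos ⟨hrn, s1⟩, if_pos ⟨hrd, s2⟩, if_pos ⟨hg, s3⟩] at h1
    omega
  -- the two unit corners
  obtain ⟨a, b, a1, b1, a2, b2, hab, had⟩ := h.two hf
  have ne0 : ∀ {c}, S.u c ≠ 0 → c ≠ S.nxr d := fun hc hq => hc (by rw [hq]; exact hu)
  have va := all4 a a1 (hS.ur a a2)
  have vb := all4 b b1 (hS.ur b b2)
  have va := va.resolve_left (ne0 a2)
  have vb := vb.resolve_left (ne0 b2)
  -- the vertices of the fourth corner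
  have w1 : S.M.v (S.M.α (S.M.α r)) = S.M.v (S.M.α d) := by rw [S.M.αα, ← hn, v_nxr]
  have w2 : S.M.v (S.M.α (S.nxr (S.M.α (S.nxr d)))) = S.M.v (S.M.α r) := by
    rw [q1, S.M.αα, ← hn2, v_nxr]
  have key : ∀ c c' : D, S.sc.r (S.nxr d) c → S.sc.r (S.nxr d) c' → S.u c ≠ 0 → S.u c' ≠ 0 →
      S.M.v c ≠ S.M.v c' → (∀ r, S.real r = true → S.sc.r (S.nxr d) r →
        ¬ (S.M.v r = S.M.v c ∧ S.M.v (S.M.α r) = S.M.v c') ∧
        ¬ (S.M.v r = S.M.v c' ∧ S.M.v (S.M.α r) = S.M.v c)) → c = S.M.α r → False := by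
    intro c c' c1 c2 c3 c4 c5 c6 hq
    have vc := (all4 c' c2 (hS.ur c' c4)).resolve_left (ne0 c4)
    rw [hq] at c5 c6
    rcases vc with vc | vc | vc
    · rw [vc] at c6
      exact (c6 (S.M.α r) hrr s4).1 ⟨rfl, w1⟩
    · rw [vc] at c6
      exact (c6 _ hg s3).2 ⟨rfl, w2⟩
    · rw [vc] at c5
      exact c5 rfl
  have ha : a ≠ S.M.α r := fun hq => key a b a1 b1 a2 b2 hab had hq
  have hb : b ≠ S.M.α r := fun hq => key b a b1 a1 b2 a2 (Ne.symm hab)
    (fun r h1 h2 => ⟨(had r h1 h2).2, (had r h1 h2).1⟩) hq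
  have u1 := (h.two_u hf s2 s3).1
  have u2 := (h.two_u hf s3 s2).1
  rcases va with va | va | va
  · rcases vb with vb | vb | vb
    · exact absurd (by rw [va, vb]) hab
    · rw [va] at a2; rw [vb] at b2
      omega
    · exact absurd vb hb
  · rcases vb with vb | vb | vb
    · rw [va] at a2; rw [vb] at b2
      omega
    · exact absurd (by rw [va, vb]) hab
    · exact absurd vb hb
  · exact absurd va ha

end mc

end Pool.FC7
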