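import Pool.Agent.FC7.SyM

/-! # The units of a neighbour -/

open Finset

set_option linter.unusedSectionVars false

namespace Pool.FC7

open Pool.FC6 Pool.FC6.St

/-- the test of one code -/
def uxk (l : ℕ) (s : Bool) : Bool :=
  !glt l s || (if lK l = 0 then decide (lux (lett l s) = lB l) && decide (luy (lett l s) = lC l)
    else decide (lux (lett l s) = 0) && decide (luy (lett l s) = 0))

theorem uxk_all : ∀ l < 1024, uxk l true = true ∧ uxk l false = true := by decide +kernel

theorem let8 : ∀ a < 3, ∀ b < 3, ∀ c < 3, ∀ s o s1 : Bool,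
    glt (mkl a b c 0 s o) s1 = true → lett (mkl a b c 0 s o) s1 = 8 → o = true := by
  decide +kernel

variable {D V : Type} [Fintype D] [DecidableEq V]
  {S : St D V} {L : D → Bool} {w : D → ℕ} {U : V → Prop} {d e r m r2 m2 x : D}

section mc

variable (h : MC 6 S L w) (hS : IsStar S)

include h hS

/-- all units at a vertex -/
theorem MC.sum_u {a : D} (ha : S.real a = true) :
    ∑ d, (if S.M.v d = S.M.v a then S.u d else 0) ≤ 2 := by
  have W := h.ok.toWf
  have hA := h.ok.real_A _ ha
  have h1 := h.rdeg4 (le_refl 6) hA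
  have h2 := W.deg _ hA
  have h3 : S.rdeg (S.M.v a) + ∑ d, (if S.M.v d = S.M.v a then S.u d else 0) ≤
      ∑ d, (if S.M.v d = S.M.v a then (if S.real d = true then 1 else 0) + S.u d + w d
        else 0) := by
    unfold rdeg
    rw [← Finset.sum_add_distrib]
    refine Finset.sum_le_sum fun d _ => ?_
    by_cases q : S.M.v d = S.M.v a
    · by_cases q2 : S.real d = true
      · rw [if_pos ⟨q, q2⟩, if_pos q, if_pos q, if_pos q2]
        omega
      · rw [if_neg (fun hh => q2 hh.2), if_pos q, if_pos q, if_neg q2]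
        omega
    · rw [if_neg (fun hh => q hh.1), if_neg q, if_neg q]
  omega

/-- two darts at a vertex have at most two units -/
theorem MC.u2_le {a b : D} (ha : S.real a = true) (hb : S.M.v b = S.M.v a) (hn : a ≠ b) :
    S.u a + S.u b ≤ 2 := by
  classical
  refine le_trans ?_ (h.sum_u hS ha)
  have h1 : ∑ t ∈ {a, b}, (if S.M.v t = S.M.v a then S.u t else 0) ≤
      ∑ d, (if S.M.v d = S.M.v a then S.u d else 0) :=
    Finset.sum_le_sum_of_subset (Finset.subset_univ _)
  rw [Finset.sum_pair hn, if_pos rfl, if_pos hb] at h1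
  exact h1

/-- three darts at a vertex have at most two units -/
theorem MC.u3_le {a b c : D} (ha : S.real a = true) (hb : S.M.v b = S.M.v a)
    (hc : S.M.v c = S.M.v a) (n1 : a ≠ b) (n2 : a ≠ c) (n3 : b ≠ c) :
    S.u a + S.u b + S.u c ≤ 2 := by
  classical
  refine le_trans ?_ (h.sum_u hS ha)
  have h1 : ∑ t ∈ {a, b, c}, (if S.M.v t = S.M.v a then S.u t else 0) ≤
      ∑ d, (if S.M.v d = S.M.v a then S.u d else 0) :=
    Finset.sum_le_sum_of_subset (Finset.subset_univ _)
  rw [Finset.sum_insert (by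
    simp only [Finset.mem_insert, Finset.mem_singleton, not_or]
    exact ⟨n1, n2⟩), Finset.sum_pair n3, if_pos rfl, if_pos hb, if_pos hc] at h1
  omega

/-- the units of the two other corners of a solid triangle; `nxr (α (nxr d))` is the corner at the
end of the next spoke -/
theorem MC.lux_eq (hd : S.real d = true) :
    (S.real (S.M.σ d) = true → lux (lto S L d) = S.u (S.M.α d) ∧
      luy (lto S L d) = S.u (S.nxr (S.M.α (S.nxr d)))) ∧
    (¬ S.real (S.M.σ d) = true → lux (lto S L d) = 0 ∧ luy (lto S L d) = 0) := by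
  have W := h.ok.toWf
  have ub : ∀ x, S.u x < 4 := fun x => by have := h.u_lt (le_refl 6) hS x; omega
  have hrd : S.real (S.M.α d) = true := by rw [W.real_α]; exact hd
  have hrn := hS.nxr_real W hd
  have hrm : S.real (S.M.α (S.nxr d)) = true := by rw [W.real_α]; exact hrn
  have h4 : uxk (code S L d) (L (S.nxr d)) = true := by
    have h5 := uxk_all _ (h.code_lt hS (d := d))
    cases L (S.nxr d)
    · exact h5.2
    · exact h5.1
  unfold uxk at h4
  rw [h.glt (le_refl 6) hS hd, Bool.not_true, Bool.false_or] at h4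
  obtain ⟨r, r1, r2⟩ := h.prv hS hrd
  rcases h.ends hS hd r1 r2 with ⟨hs, c1, -, -, p2⟩ | ⟨hs, c1, -⟩
  · refine ⟨fun _ => ?_, fun q => absurd hs q⟩
    have k := mkl_dec (ub (S.nxr d)) (ub (S.M.α d)) (ub (S.M.α r)) (show (0 : ℕ) < 4 by norm_num)
      (L d) (L r)
    rw [← c1] at k
    rw [if_pos k.2.2.2.1, Bool.and_eq_true, decide_eq_true_eq, decide_eq_true_eq, k.2.1,
      k.2.2.1] at h4
    -- the third corner
    have hsol : lsol (lto S L d) = true := by rw [h.lsol_iff' hS hd]; exact decide_eq_true hs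
    obtain ⟨r', t1, t2, t3⟩ := h.tri hS hd hsol
    have er : r' = r := h.nxr_cancel hS r1 t1 (t2.trans r2.symm)
    subst er
    rw [← t3]
    exact h4
  · refine ⟨fun q => absurd q hs, fun _ => ?_⟩
    have hc : (if S.csz (S.M.σ d) = 4 then 1 else 2) < 4 := by split_ifs <;> norm_num
    have k : lK (code S L d) = 1 := by
      rw [c1]
      exact (mkl_dec (ub _) (fcl_lt _) hc (by norm_num) _ _).2.2.2.1
    rw [if_neg (by rw [k]; norm_num), Bool.and_eq_true, decide_eq_true_eq,
      decide_eq_true_eq] at h4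
    exact h4

theorem MC.lux_le (hd : S.real d = true) : lux (lto S L d) ≤ S.u (S.M.α d) ∧
    luy (lto S L d) ≤ S.u (S.nxr (S.M.α (S.nxr d))) := by
  obtain ⟨h1, h2⟩ := h.lux_eq hS hd
  by_cases hs : S.real (S.M.σ d) = true
  · obtain ⟨a, b⟩ := h1 hs
    omega
  · obtain ⟨a, b⟩ := h2 hs
    omega

/-- all units and labels at a vertex -/
theorem MC.sum_uw {a : D} (ha : S.real a = true) :
    ∑ d, (if S.M.v d = S.M.v a then S.u d + w d else 0) ≤ 2 := by
  have W := h.ok.toWf
  have hA := h.ok.real_A _ ha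
  have h1 := h.rdeg4 (le_refl 6) hA
  have h2 := W.deg _ hA
  have h3 : S.rdeg (S.M.v a) + ∑ d, (if S.M.v d = S.M.v a then S.u d + w d else 0) ≤
      ∑ d, (if S.M.v d = S.M.v a then (if S.real d = true then 1 else 0) + S.u d + w d
        else 0) := by
    unfold rdeg
    rw [← Finset.sum_add_distrib]
    refine Finset.sum_le_sum fun d _ => ?_
    by_cases q : S.M.v d = S.M.v a
    · by_cases q2 : S.real d = true
      · rw [if_pos ⟨q, q2⟩, if_pos q, if_pos q, if_pos q2]
        omega
      · rw [if_neg (fun hh => q2 hh.2), if_pos q, if_pos q, if_neg q2]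
        omega
    · rw [if_neg (fun hh => q hh.1), if_neg q, if_neg q]
  omega

/-- three darts at a vertex have at most two units and labels -/
theorem MC.uw3_le {a b c : D} (ha : S.real a = true) (hb : S.M.v b = S.M.v a)
    (hc : S.M.v c = S.M.v a) (n1 : a ≠ b) (n2 : a ≠ c) (n3 : b ≠ c) :
    (S.u a + w a) + (S.u b + w b) + (S.u c + w c) ≤ 2 := by
  classical
  refine le_trans ?_ (h.sum_uw hS ha)
  have h1 : ∑ t ∈ {a, b, c}, (if S.M.v t = S.M.v a then S.u t + w t else 0) ≤
      ∑ d, (if S.M.v d = S.M.v a then S.u d + w d else 0) :=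
    Finset.sum_le_sum_of_subset (Finset.subset_univ _)
  rw [Finset.sum_insert (by
    simp only [Finset.mem_insert, Finset.mem_singleton, not_or]
    exact ⟨n1, n2⟩), Finset.sum_pair n3, if_pos rfl, if_pos hb, if_pos hc] at h1
  omega

/-- the loads of a sector: `r` is the dart at the end of the first spoke before the face -/
theorem MC.ld_le (hd : S.real d = true) (hr : S.real r = true) (hn : S.nxr r = S.M.α d) :
    ldx (lto S L d) ≤ S.u (S.M.α d) + w r ∧
      ldy (lto S L d) ≤ S.u (S.nxr (S.M.α (S.nxr d))) + w (S.nxr (S.M.α (S.nxr d))) := by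
  have W := h.ok.toWf
  have ub : ∀ x, S.u x < 4 := fun x => by have := h.u_lt (le_refl 6) hS x; omega
  unfold ldx ldy
  by_cases h8 : lto S L d = 8
  · rw [if_pos (Or.inl h8), if_pos (Or.inl h8)]
    have hsol : lsol (lto S L d) = true := by rw [h8]; rfl
    obtain ⟨r', t1, t2, t3⟩ := h.tri hS hd hsol
    have er : r' = r := h.nxr_cancel hS hr t1 (t2.trans hn.symm)
    subst er
    have hl : L r' = true := by
      rcases h.ends hS hd hr hn with ⟨hs, c1, -, -, -⟩ | ⟨hs, -⟩
      · have h4 := h.glt (le_refl 6) hS hd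
        unfold lto at h8
        rw [c1] at h4 h8
        exact let8 _ (h.u_lt (le_refl 6) hS _) _ (h.u_lt (le_refl 6) hS _) _
          (h.u_lt (le_refl 6) hS _) _ _ _ h4 h8
      · exfalso
        rw [h.lsol_iff' hS hd] at hsol
        exact hs (of_decide_eq_true hsol)
    have w1 : w r' = 1 := by rw [h.w1 r', if_pos hl]
    have w2 : w (S.M.α r') = 1 := by rw [W.w_α]; exact w1
    rw [← t3]
    omega
  · by_cases h9 : lto S L d = 9
    · rw [if_pos (Or.inr h9), if_pos (Or.inr h9)]
      have hs0 : S.real (S.M.σ d) = false := by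
        have hl := h.lsol_iff' hS hd
        rw [h9] at hl
        have h5 : decide (S.real (S.M.σ d) = true) = false := by rw [← hl]; rfl
        simpa using h5
      have e2 : S.csz (S.nxr d) = S.csz (S.M.σ d) :=
        (csz_congr (sc_nxr d)).symm.trans (csz_congr (sc_sec1 d))
      have h4 := h.ev4 hS hd (by rw [h9]; rfl)
      rw [e2] at h4
      obtain ⟨b1, b2⟩ := h.two4 hS hd hs0 h4 ((h.ev hS hd).2.2 (by rw [h9]; rfl)) (by
        rw [← h.lown_eq hS hd, h9]; rfl)
      omega
    · rw [if_neg (by tauto), if_neg (by tauto)]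
      have := h.lux_le hS hd
      omega

/-- a labelled spoke -/
theorem MC.lnx_le (hd : S.real d = true) :
    (if lnx (lto S L d) = true then 1 else 0) ≤ w (S.M.α (S.nxr d)) := by
  have W := h.ok.toWf
  have hg := h.glt (le_refl 6) hS hd
  have h1 := (lett_ok hg).2.2.1
  split_ifs with hl
  · unfold lto at hl
    rw [h1] at hl
    rw [W.w_α, h.w1, if_pos hl]
  · exact Nat.zero_le _

/-- the words without overload -/
theorem MC.lwo_ovw (hd : S.real d = true) : ovw (lwo S L d) = true := by
  have W := h.ok.toWf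
  unfold ovw
  rw [List.all_eq_true]
  intro i hi
  rw [List.mem_range, lwo_length] at hi
  rw [decide_eq_true_eq, lwo_length]
  have h4 := h.rdeg_pos hS hd
  have hm : (i + 1) % S.rdeg (S.M.v d) < S.rdeg (S.M.v d) := Nat.mod_lt _ (by omega)
  have hp : Function.IsPeriodicPt S.nxr (S.rdeg (S.M.v d)) d := hS.nxr_rdeg W hd
  have e1 : S.nxr^[(i + 1) % S.rdeg (S.M.v d)] d = S.nxr (S.nxr^[i] d) := by
    rw [hp.iterate_mod_apply, Function.iterate_succ_apply']
  rw [h.lwo_getD hS hd hi, h.lwo_getD hS hd hm, e1]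
  have hr := hS.nxr_iter_real W hd i
  generalize S.nxr^[i] d = z at hr
  have hrn := hS.nxr_real W hr
  have hrm : S.real (S.M.α (S.nxr z)) = true := by rw [W.real_α]; exact hrn
  have hrz : S.real (S.M.α z) = true := by rw [W.real_α]; exact hr
  obtain ⟨r0, r1, r2⟩ := h.prv hS hrz
  obtain ⟨q, q1, q2⟩ := h.prv hS hrm
  have a1 := (h.ld_le hS hr r1 r2).2
  have a2 := (h.ld_le hS hrn q1 q2).1
  have a3 := h.lnx_le hS hr
  -- three different darts
  have vq : S.M.v q = S.M.v (S.M.α (S.nxr z)) := by rw [← q2, v_nxr]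
  have h5 := h.rdeg_pos hS q1
  have n1 : S.nxr q ≠ q := hS.nxr_ne W q1 (j := 1) (by norm_num) (by omega)
  have n2 : S.nxr (S.nxr q) ≠ q := hS.nxr_ne W q1 (j := 2) (by norm_num) (by omega)
  have n3 := (h.nxr_ne (le_refl 6) hS hrm).1
  rw [q2] at n1 n2
  have a4 := h.uw3_le hS (w := w) hrm (b := S.nxr (S.M.α (S.nxr z))) (c := q) (v_nxr _) vq
    (Ne.symm n3) n1 n2
  omega

end mc

end Pool.FC7
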