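import Pool.Agent.FC7.SyO
import Pool.Agent.FC7.GdG

/-! # The region with two vertices: the words at its two vertices -/

open Finset

set_option linter.unusedSectionVars false

namespace Pool.FC7

open Pool.FC6 Pool.FC6.St

variable {D V : Type} [Fintype D] [DecidableEq V]
  {S : St D V} {L : D → Bool} {w : D → ℕ} {U T : Finset V} {d e r x : D}

section mc

variable (h : MC 6 S L w) (hS : IsStar S)

include h hS

/-- the degree and the units of a vertex -/
theorem MC.rdeg_su {a : D} (ha : S.real a = true) :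
    S.rdeg (S.M.v a) + ∑ d, (if S.M.v d = S.M.v a then S.u d else 0) ≤ 6 := by
  have W := h.ok.toWf
  have hA := h.ok.real_A _ ha
  have h2 := W.deg _ hA
  have h3 : S.rdeg (S.M.v a) + ∑ d, (if S.M.v d = S.M.v a then S.u d else 0) ≤
      ∑ d, (if S.M.v d = S.M.v a then (if S.real d = true then 1 else 0) + S.u d + w d
        else 0) := by
    unfold rdeg
    rw [← Finset.sum_add_distrib]
    refine Finset.sum_le_sum fun d _ => ?_
    by_cases q : S.M.v d = S.M.v a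
    · by_cases q2 : S.real d = true
      · rw [if_pos ⟨q, q2⟩, if_pos q, if_pos q, if_pos q2]
        omega
      · rw [if_neg (fun hh => q2 hh.2), if_pos q, if_pos q, if_neg q2]
        omega
    · rw [if_neg (fun hh => q hh.1), if_neg q, if_neg q]
  omega

theorem MC.ru1 {a b : D} (ha : S.real a = true) (hb : S.M.v b = S.M.v a) :
    S.rdeg (S.M.v a) + S.u b ≤ 6 := by
  classical
  refine le_trans (Nat.add_le_add_left ?_ _) (h.rdeg_su hS ha)
  have h1 : ∑ t ∈ {b}, (if S.M.v t = S.M.v a then S.u t else 0) ≤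
      ∑ d, (if S.M.v d = S.M.v a then S.u d else 0) :=
    Finset.sum_le_sum_of_subset (Finset.subset_univ _)
  rw [Finset.sum_singleton, if_pos hb] at h1
  exact h1

theorem MC.ru2 {a b c : D} (ha : S.real a = true) (hb : S.M.v b = S.M.v a)
    (hc : S.M.v c = S.M.v a) (hn : b ≠ c) :
    S.rdeg (S.M.v a) + (S.u b + S.u c) ≤ 6 := by
  classical
  refine le_trans (Nat.add_le_add_left ?_ _) (h.rdeg_su hS ha)
  have h1 : ∑ t ∈ {b, c}, (if S.M.v t = S.M.v a then S.u t else 0) ≤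
      ∑ d, (if S.M.v d = S.M.v a then S.u d else 0) :=
    Finset.sum_le_sum_of_subset (Finset.subset_univ _)
  rw [Finset.sum_pair hn, if_pos hb, if_pos hc] at h1
  exact h1

/-- the letters of a word of length four -/
theorem MC.let4 {z : D} (hz : S.real z = true) (h4 : S.rdeg (S.M.v z) = 4) {a0 a1 a2 a3 : ℕ}
    (hA : lwo S L z = [a0, a1, a2, a3]) : lto S L z = a0 ∧ lto S L (S.nxr z) = a1 ∧
      lto S L (S.nxr (S.nxr z)) = a2 ∧ lto S L (S.nxr (S.nxr (S.nxr z))) = a3 := by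
  rw [h.lwo4 hS hz h4] at hA
  injection hA with i0 hA
  injection hA with i1 hA
  injection hA with i2 hA
  injection hA with i3 hA
  exact ⟨i0, i1, i2, i3⟩

/-- the degrees around an exceptional pair -/
theorem MC.exc_deg (hx : S.real x = true) (h1 : S.rdeg (S.M.v x) = 4)
    (h4 : S.rdeg (S.M.v (S.M.α x)) = 4) (hc : exc0 (lwo S L x) (lwo S L (S.M.α x)) = true ∨
      exc0 (lmw (lwo S L x)) (lmw (lwo S L (S.M.α x))) = true) :
    S.rdeg (S.M.v (S.M.α (S.nxr x))) = 4 ∧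
    S.rdeg (S.M.v (S.M.α (S.nxr (S.nxr (S.nxr x))))) = 4 ∧
    S.rdeg (S.M.v (S.M.α (S.nxr (S.nxr x)))) +
      S.rdeg (S.M.v (S.M.α (S.nxr (S.nxr (S.M.α x))))) ≤ 11 := by
  have W := h.ok.toWf
  have rα : ∀ {x}, S.real x = true → S.real (S.M.α x) = true := fun hx => by
    rw [W.real_α]; exact hx
  have rn : ∀ {x}, S.real x = true → S.real (S.nxr x) = true := fun hx => hS.nxr_real W hx
  have hy := rα hx
  have x1 := rn hx
  have x2 := rn x1
  have x3 := rn x2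
  have y1 := rn hy
  have y2 := rn y1
  have y3 := rn y2
  have k1 := h.rdeg_pos hS (rα x1)
  have k3 := h.rdeg_pos hS (rα x3)
  have b2 := h.ru1 hS (rα x2) (b := S.M.α (S.nxr (S.nxr x))) rfl
  have b2' := h.ru1 hS (rα x2) (b := S.nxr (S.M.α (S.nxr (S.nxr x)))) (v_nxr _)
  have c2 := h.ru1 hS (rα y2) (b := S.M.α (S.nxr (S.nxr (S.M.α x)))) rfl
  have c2' := h.ru1 hS (rα y2) (b := S.nxr (S.M.α (S.nxr (S.nxr (S.M.α x))))) (v_nxr _)
  have px : S.nxr (S.nxr (S.nxr (S.nxr x))) = x := by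
    have hp := hS.nxr_rdeg W hx
    rw [h1] at hp
    exact hp
  have py : S.nxr (S.nxr (S.nxr (S.nxr (S.M.α x)))) = S.M.α x := by
    have hp := hS.nxr_rdeg W hy
    rw [h4] at hp
    exact hp
  have inv : ∀ {c t : List ℕ}, lmw c = t → c = lmw t := fun hh => by rw [← hh, lmw_lmw]
  -- the units
  obtain ⟨l0, l0'⟩ := h.lux_le hS hx
  obtain ⟨l1, l1'⟩ := h.lux_le hS x1
  obtain ⟨l2, l2'⟩ := h.lux_le hS x2
  obtain ⟨l3, l3'⟩ := h.lux_le hS x3
  obtain ⟨m1, m1'⟩ := h.lux_le hS y1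
  obtain ⟨m2, m2'⟩ := h.lux_le hS y2
  have q1 := h.ru1 hS (rα x1) (b := S.nxr (S.M.α (S.nxr x))) (v_nxr _)
  have q1' := h.ru1 hS (rα x1) (b := S.M.α (S.nxr x)) rfl
  have q3 := h.ru1 hS (rα x3) (b := S.nxr (S.M.α (S.nxr (S.nxr (S.nxr x))))) (v_nxr _)
  have q3' := h.ru1 hS (rα x3) (b := S.M.α (S.nxr (S.nxr (S.nxr x)))) rfl
  -- the two units at `c2`
  have t2 : lsol (lto S L (S.nxr (S.nxr (S.nxr x)))) = true →
      S.rdeg (S.M.v (S.M.α (S.nxr (S.nxr (S.nxr x))))) +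
        (S.u (S.M.α (S.nxr (S.M.α x))) + S.u (S.nxr (S.M.α (S.nxr (S.nxr (S.nxr x)))))) ≤ 6 := by
    intro hsol
    obtain ⟨r', t1, t2, t3⟩ := h.tri hS x3 hsol
    rw [px] at t3
    have er : S.M.α (S.nxr (S.M.α x)) = r' := by rw [← t3, S.M.αα]
    have hv : S.M.v r' = S.M.v (S.M.α (S.nxr (S.nxr (S.nxr x)))) := by rw [← t2, v_nxr]
    rw [er]
    refine h.ru2 hS (rα x3) hv (v_nxr _) ?_
    rw [← t2]
    exact (hS.nxr_ne W t1 (j := 2) (by norm_num) (by rw [hv]; omega)).symm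
  -- the two units at `c1`
  have t1 : lsol (lto S L x) = true →
      S.rdeg (S.M.v (S.M.α (S.nxr x))) + (S.u (S.M.α (S.nxr x)) +
        S.u (S.nxr (S.M.α (S.nxr (S.nxr (S.nxr (S.M.α x))))))) ≤ 6 := by
    intro hsol
    obtain ⟨r', t1, t2, t3⟩ := h.tri hS hx hsol
    have er : r' = S.nxr (S.nxr (S.nxr (S.M.α x))) := h.nxr_cancel hS y3 t1 (t2.trans py.symm)
    rw [er] at t3
    rw [t3]
    refine h.ru2 hS (rα x1) rfl (by rw [v_nxr, v_nxr]) ?_
    exact (hS.nxr_ne W (rα x1) (j := 2) (by norm_num) (by omega)).symm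
  unfold exc0 at hc
  simp only [Bool.or_eq_true, Bool.and_eq_true, decide_eq_true_eq] at hc
  rcases hc with (⟨hA, hB⟩ | ⟨hA, hB⟩) | (⟨hA, hB⟩ | ⟨hA, hB⟩)
  · obtain ⟨a0, a1, a2, a3⟩ := h.let4 hS hx h1 hA
    obtain ⟨-, e1, e2, -⟩ := h.let4 hS hy h4 hB
    have t2 := t2 (by rw [a3]; decide)
    rw [a0] at l0 l0'
    rw [a2] at l2 l2'
    rw [e1] at m1 m1'
    simp only [lux, luy] at l0 l0' l2 l2' m1 m1'
    norm_num at l0 l0' l2 l2' m1 m1'
    refine ⟨by omega, by omega, by omega⟩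
  · obtain ⟨a0, a1, a2, a3⟩ := h.let4 hS hx h1 hA
    obtain ⟨-, e1, e2, -⟩ := h.let4 hS hy h4 hB
    rw [a0] at l0 l0'
    rw [a2] at l2 l2'
    rw [e1] at m1 m1'
    simp only [lux, luy] at l0 l0' l2 l2' m1 m1'
    norm_num at l0 l0' l2 l2' m1 m1'
    refine ⟨by omega, by omega, by omega⟩
  · have hA := inv hA
    have hB := inv hB
    obtain ⟨a0, a1, a2, a3⟩ := h.let4 hS hx h1 (hA.trans (show lmw [14, 0, 2, 0] = [0, 2, 0, 13] by decide))
    obtain ⟨-, e1, e2, -⟩ := h.let4 hS hy h4 (hB.trans (show lmw [0, 11, 0, 15] = [16, 0, 12, 0] by decide))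
    have t1 := t1 (by rw [a0]; decide)
    rw [a1] at l1 l1'
    rw [a3] at l3 l3'
    rw [e2] at m2 m2'
    simp only [lux, luy] at l1 l1' l3 l3' m2 m2'
    norm_num at l1 l1' l3 l3' m2 m2'
    refine ⟨by omega, by omega, by omega⟩
  · have hA := inv hA
    have hB := inv hB
    obtain ⟨a0, a1, a2, a3⟩ := h.let4 hS hx h1 (hA.trans (show lmw [14, 0, 14, 0] = [0, 13, 0, 13] by decide))
    obtain ⟨-, e1, e2, -⟩ := h.let4 hS hy h4 (hB.trans (show lmw [0, 12, 0, 15] = [16, 0, 11, 0] by decide))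
    rw [a1] at l1 l1'
    rw [a3] at l3 l3'
    rw [e2] at m2 m2'
    simp only [lux, luy] at l1 l1' l3 l3' m2 m2'
    norm_num at l1 l1' l3 l3' m2 m2'
    refine ⟨by omega, by omega, by omega⟩

/-- the degree, the units and the labels of two darts of a vertex -/
theorem MC.ruw2 {a b c : D} (ha : S.real a = true) (hb : S.M.v b = S.M.v a)
    (hc : S.M.v c = S.M.v a) (hn : b ≠ c) :
    S.rdeg (S.M.v a) + ((S.u b + w b) + (S.u c + w c)) ≤ 6 := by
  classical
  have W := h.ok.toWf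
  have hA := h.ok.real_A _ ha
  have h2 := W.deg _ hA
  have h3 : S.rdeg (S.M.v a) + ∑ d, (if S.M.v d = S.M.v a then S.u d + w d else 0) ≤
      ∑ d, (if S.M.v d = S.M.v a then (if S.real d = true then 1 else 0) + S.u d + w d
        else 0) := by
    unfold rdeg
    rw [← Finset.sum_add_distrib]
    refine Finset.sum_le_sum fun d _ => ?_
    by_cases q : S.M.v d = S.M.v a
    · by_cases q2 : S.real d = true
      · rw [if_pos ⟨q, q2⟩, if_pos q, if_pos q, if_pos q2]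
        omega
      · rw [if_neg (fun hh => q2 hh.2), if_pos q, if_pos q, if_neg q2]
        omega
    · rw [if_neg (fun hh => q hh.1), if_neg q, if_neg q]
  have h1 : ∑ t ∈ {b, c}, (if S.M.v t = S.M.v a then S.u t + w t else 0) ≤
      ∑ d, (if S.M.v d = S.M.v a then S.u d + w d else 0) :=
    Finset.sum_le_sum_of_subset (Finset.subset_univ _)
  rw [Finset.sum_pair hn, if_pos hb, if_pos hc] at h1
  omega

/-- the degree, the units and the labels of three darts of a vertex -/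
theorem MC.ruw3 {a b c g : D} (ha : S.real a = true) (hb : S.M.v b = S.M.v a)
    (hc : S.M.v c = S.M.v a) (hg : S.M.v g = S.M.v a) (n1 : b ≠ c) (n2 : b ≠ g) (n3 : c ≠ g) :
    S.rdeg (S.M.v a) + ((S.u b + w b) + (S.u c + w c) + (S.u g + w g)) ≤ 6 := by
  classical
  have W := h.ok.toWf
  have hA := h.ok.real_A _ ha
  have h2 := W.deg _ hA
  have h3 : S.rdeg (S.M.v a) + ∑ d, (if S.M.v d = S.M.v a then S.u d + w d else 0) ≤
      ∑ d, (if S.M.v d = S.M.v a then (if S.real d = true then 1 else 0) + S.u d + w d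
        else 0) := by
    unfold rdeg
    rw [← Finset.sum_add_distrib]
    refine Finset.sum_le_sum fun d _ => ?_
    by_cases q : S.M.v d = S.M.v a
    · by_cases q2 : S.real d = true
      · rw [if_pos ⟨q, q2⟩, if_pos q, if_pos q, if_pos q2]
        omega
      · rw [if_neg (fun hh => q2 hh.2), if_pos q, if_pos q, if_neg q2]
        omega
    · rw [if_neg (fun hh => q hh.1), if_neg q, if_neg q]
  have h1 : ∑ t ∈ {b, c, g}, (if S.M.v t = S.M.v a then S.u t + w t else 0) ≤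
      ∑ d, (if S.M.v d = S.M.v a then S.u d + w d else 0) :=
    Finset.sum_le_sum_of_subset (Finset.subset_univ _)
  rw [Finset.sum_insert (by
    simp only [Finset.mem_insert, Finset.mem_singleton, not_or]
    exact ⟨n1, n2⟩), Finset.sum_pair n3, if_pos hb, if_pos hc, if_pos hg] at h1
  omega

/-- the degrees around the exceptional pair with a label -/
theorem MC.exc2_deg (hx : S.real x = true) (h1 : S.rdeg (S.M.v x) = 4)
    (h4 : S.rdeg (S.M.v (S.M.α x)) = 4) (hc : exc2 (lwo S L x) (lwo S L (S.M.α x)) = true) :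
    S.rdeg (S.M.v (S.M.α (S.nxr x))) = 4 ∧
    S.rdeg (S.M.v (S.M.α (S.nxr (S.nxr (S.nxr x))))) ≤ 5 := by
  have W := h.ok.toWf
  have rα : ∀ {x}, S.real x = true → S.real (S.M.α x) = true := fun hx => by
    rw [W.real_α]; exact hx
  have rn : ∀ {x}, S.real x = true → S.real (S.nxr x) = true := fun hx => hS.nxr_real W hx
  have hy := rα hx
  have x1 := rn hx
  have x3 := rn (rn x1)
  have y1 := rn hy
  have y2 := rn y1
  have y3 := rn y2
  have k1 := h.rdeg_pos hS (rα x1)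
  have py : S.nxr (S.nxr (S.nxr (S.nxr (S.M.α x)))) = S.M.α x := by
    have hp := hS.nxr_rdeg W hy
    rw [h4] at hp
    exact hp
  unfold exc2 at hc
  simp only [Bool.and_eq_true, decide_eq_true_eq] at hc
  obtain ⟨hA, hB⟩ := hc
  obtain ⟨a0, a1, a2, a3⟩ := h.let4 hS hx h1 hA
  obtain ⟨-, -, e2, -⟩ := h.let4 hS hy h4 hB
  have hsol : lsol (lto S L x) = true := by rw [a0]; rfl
  obtain ⟨r', t1, t2, t3⟩ := h.tri hS hx hsol
  have er : r' = S.nxr (S.nxr (S.nxr (S.M.α x))) := h.nxr_cancel hS y3 t1 (t2.trans py.symm)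
  rw [er] at t3
  -- `t3`: the dart from `c1` to `b` is the next dart after the dart from `c1` to `a`
  obtain ⟨q, q1, q2⟩ := h.prv hS (rα y2)
  have m2' := (h.ld_le hS y2 q1 q2).2
  have l1 := (h.lux_le hS x1).1
  have l3 := (h.lux_le hS x3).1
  rw [a1] at l1
  rw [a3] at l3
  rw [e2] at m2'
  rw [t3] at m2'
  have s1 : lux 11 = 1 := rfl
  have s2 : lux 16 = 1 := rfl
  have s3 : ldy 8 = 1 := rfl
  rw [s1] at l1
  rw [s2] at l3
  rw [s3] at m2'
  have c1 := h.ru1 hS (rα x3) (b := S.M.α (S.nxr (S.nxr (S.nxr x)))) rfl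
  have c2 := h.ruw2 hS (rα x1) (b := S.M.α (S.nxr x)) (c := S.nxr (S.nxr (S.M.α (S.nxr x))))
    rfl (by rw [v_nxr, v_nxr]) (hS.nxr_ne W (rα x1) (j := 2) (by norm_num) (by omega)).symm
  refine ⟨by omega, by omega⟩

/-- the degrees around the mirror image of the exceptional pair with a label -/
theorem MC.exc3_deg (hx : S.real x = true) (h1 : S.rdeg (S.M.v x) = 4)
    (h4 : S.rdeg (S.M.v (S.M.α x)) = 4)
    (hc : exc2 (lmw (lwo S L x)) (lmw (lwo S L (S.M.α x))) = true) :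
    S.rdeg (S.M.v (S.M.α (S.nxr x))) ≤ 5 ∧
    S.rdeg (S.M.v (S.M.α (S.nxr (S.nxr (S.nxr x))))) = 4 := by
  have W := h.ok.toWf
  have rα : ∀ {x}, S.real x = true → S.real (S.M.α x) = true := fun hx => by
    rw [W.real_α]; exact hx
  have rn : ∀ {x}, S.real x = true → S.real (S.nxr x) = true := fun hx => hS.nxr_real W hx
  have hy := rα hx
  have x1 := rn hx
  have x2 := rn x1
  have x3 := rn x2
  have y1 := rn hy
  have k3 := h.rdeg_pos hS (rα x3)
  have px : S.nxr (S.nxr (S.nxr (S.nxr x))) = x := by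
    have hp := hS.nxr_rdeg W hx
    rw [h1] at hp
    exact hp
  have inv : ∀ {c t : List ℕ}, lmw c = t → c = lmw t := fun hh => by rw [← hh, lmw_lmw]
  unfold exc2 at hc
  simp only [Bool.and_eq_true, decide_eq_true_eq] at hc
  obtain ⟨hA, hB⟩ := hc
  have hA : lwo S L x = [15, 0, 12, 0] := (inv hA).trans (by decide)
  have hB : lwo S L (S.M.α x) = [0, 8, 0, 11] := (inv hB).trans (by decide)
  obtain ⟨a0, a1, a2, a3⟩ := h.let4 hS hx h1 hA
  obtain ⟨-, e1, -, -⟩ := h.let4 hS hy h4 hB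
  have hsol : lsol (lto S L (S.nxr (S.nxr (S.nxr x)))) = true := by rw [a3]; rfl
  obtain ⟨r', t1, t2, t3⟩ := h.tri hS x3 hsol
  rw [px] at t3
  have er : S.M.α (S.nxr (S.M.α x)) = r' := by rw [← t3, S.M.αα]
  have hv : S.M.v r' = S.M.v (S.M.α (S.nxr (S.nxr (S.nxr x)))) := by rw [← t2, v_nxr]
  -- the dart before the face `c2 b' b` at `c2`
  obtain ⟨q, q1, q2⟩ := h.prv hS (rα y1)
  have m1 := (h.ld_le hS y1 q1 q2).1
  have l0 := (h.lux_le hS hx).2
  have l2 := (h.lux_le hS x2).2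
  rw [a0] at l0
  rw [a2] at l2
  rw [e1] at m1
  have s0 : luy 15 = 1 := rfl
  have s1 : luy 12 = 1 := rfl
  have s2 : ldx 8 = 1 := rfl
  rw [s0] at l0
  rw [s1] at l2
  rw [s2] at m1
  rw [er] at m1 q2
  have vq : S.M.v q = S.M.v (S.M.α (S.nxr (S.nxr (S.nxr x)))) := by rw [← hv, ← q2, v_nxr]
  have n1 : r' ≠ q := by
    rw [← q2]
    exact hS.nxr_ne W q1 (j := 1) (by norm_num) (by rw [vq]; omega)
  have n2 : r' ≠ S.nxr (S.M.α (S.nxr (S.nxr (S.nxr x)))) := by
    rw [← t2]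
    exact (hS.nxr_ne W t1 (j := 2) (by norm_num) (by rw [hv]; omega)).symm
  have n3 : q ≠ S.nxr (S.M.α (S.nxr (S.nxr (S.nxr x)))) := by
    rw [← t2, ← q2]
    exact (hS.nxr_ne W q1 (j := 3) (by norm_num) (by rw [vq]; omega)).symm
  have c1 := h.ru1 hS (rα x1) (b := S.nxr (S.M.α (S.nxr x))) (v_nxr _)
  have c2 := h.ruw3 hS (rα x3) (b := r') (c := q) (g := S.nxr (S.M.α (S.nxr (S.nxr (S.nxr x)))))
    hv vq (v_nxr _) n1 n2 n3
  refine ⟨by omega, by omega⟩

/-- the words of a region with two vertices -/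
theorem MC.sp2_ok (hC : Can S w) (f1 : F1) (f2 : F2) (f3 : F3) (hD : Dsh S U T)
    (hN : ¬ N1 S U T) (hx : S.real x = true) (u1 : S.M.v x ∈ U) (u2 : S.M.v (S.M.α x) ∈ U) :
    sp2 (lwo S L x) (lwo S L (S.M.α x)) = true := by
  have W := h.ok.toWf
  obtain ⟨-, hf⟩ := hD.n1.resolve_left hN
  obtain ⟨a1, a2, -⟩ := hf _ u1
  obtain ⟨b1, b2, -⟩ := hf _ u2
  have hy : S.real (S.M.α x) = true := by rw [W.real_α]; exact hx
  have hs1 : S.real (S.M.σ x) = true := real_all a2 (S.M.vσ x)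
  have hs2 : S.real (S.M.σ (S.M.α x)) = true := real_all b2 (S.M.vσ _)
  have hr4 : ∀ v ∈ S.A, 4 ≤ S.rdeg v := fun v hv => h.rdeg4 (le_refl 6) hv
  have key : ∀ y, S.real y = true → S.M.v y ∈ U → S.M.v (S.M.α y) ∈ U →
      S.rdeg (S.M.v y) = 4 → S.rdeg (S.M.v (S.M.α y)) = 4 →
      (exc0 (lwo S L y) (lwo S L (S.M.α y)) = false ∧
      exc0 (lmw (lwo S L y)) (lmw (lwo S L (S.M.α y))) = false) ∧
      exc2 (lwo S L y) (lwo S L (S.M.α y)) = false ∧
      exc2 (lmw (lwo S L y)) (lmw (lwo S L (S.M.α y))) = false := by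
    intro y y0 y1 y2 y3 y4
    refine ⟨⟨?_, ?_⟩, ?_, ?_⟩
    · by_contra hc
      have hc : exc0 (lwo S L y) (lwo S L (S.M.α y)) = true := by simpa using hc
      obtain ⟨c1, c2, c3⟩ := h.exc_deg hS y0 y3 y4 (Or.inl hc)
      have := hD.twin hN (h.rg (le_refl 6)) hS W (by norm_num) hr4 y1 y2 c1 c2 c3
      rw [h.exc0_ok hS hC f1 f2 y0 y3 y4 this.1] at hc
      exact absurd hc (by decide)
    · by_contra hc
      have hc : exc0 (lmw (lwo S L y)) (lmw (lwo S L (S.M.α y))) = true := by simpa using hc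
      obtain ⟨c1, c2, c3⟩ := h.exc_deg hS y0 y3 y4 (Or.inr hc)
      have := hD.twin hN (h.rg (le_refl 6)) hS W (by norm_num) hr4 y1 y2 c1 c2 c3
      rw [h.exc1_ok hS hC f1 f2 y0 y3 y4 this.2] at hc
      exact absurd hc (by decide)
    · by_contra hc
      have hc : exc2 (lwo S L y) (lwo S L (S.M.α y)) = true := by simpa using hc
      obtain ⟨c1, c2⟩ := h.exc2_deg hS y0 y3 y4 hc
      rw [h.exc2_ok hS hC f3 y0 y3 y4
        (hD.twin1 hN (h.rg (le_refl 6)) hS W (by norm_num) hr4 y1 y2 c1 c2)] at hc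
      exact absurd hc (by decide)
    · by_contra hc
      have hc : exc2 (lmw (lwo S L y)) (lmw (lwo S L (S.M.α y))) = true := by simpa using hc
      obtain ⟨c1, c2⟩ := h.exc3_deg hS y0 y3 y4 hc
      rw [h.exc3_ok hS hC f3 y0 y3 y4
        (hD.twin2 hN (h.rg (le_refl 6)) hS W (by norm_num) hr4 y1 y2 c1 c2)] at hc
      exact absurd hc (by decide)
  obtain ⟨⟨k1, k2⟩, k5, k6⟩ := key x hx u1 u2 a1 b1
  obtain ⟨⟨k3, k4⟩, k7, k8⟩ :=
    key (S.M.α x) hy u2 (by rw [S.M.αα]; exact u1) b1 (by rw [S.M.αα]; exact a1)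
  rw [S.M.αα] at k3 k4 k7 k8
  unfold sp2 exc
  rw [k1, k2, k3, k4, k5, k6, k7, k8, h.ov1_ok hS hx hs1 a1 b1]
  have := h.ov1_ok hS hy hs2 b1 (by rw [S.M.αα]; exact a1)
  rw [S.M.αα] at this
  rw [this]
  rfl

end mc

end Pool.FC7
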