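import Pool.Agent.FC7.AsB
import Pool.Agent.FC7.StS

/-! # The region with two vertices: the check of the table of the facts -/

open Finset

set_option linter.unusedSectionVars false

namespace Pool.FC7

open Pool.FC6 Pool.FC6.St

theorem mem_solL {l : ℕ} (h : l < 27) (h2 : lsol l = true) : l ∈ solL := by
  have h3 : ((List.range 27).all fun l => !lsol l || decide (l ∈ solL)) = true := by
    decide +kernel
  rw [List.all_eq_true] at h3
  have h4 := h3 l (List.mem_range.2 h)
  rw [h2] at h4
  simpa using h4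

theorem cmpf_cmt {x y : ℕ} (h : cmpf x y = true) (hx : lsol x = true) : y = cmt x := by
  have h3 : ((List.range 27).all fun x => (List.range 27).all fun y =>
      !cmpf x y || (!lsol x || decide (y = cmt x))) = true := by decide +kernel
  have := cmpf_all (f := fun x y => !lsol x || decide (y = cmt x)) h3 h
  simpa [hx] using this

variable {D : Type} {Y : FCS.Sys D} {x : D}

/-- soundness of the test of one fact; the null neighbours are the neighbours outside -/
theorem spq_sound (hY : Y.Ok cmpf lsol) {X : FCS.Fct} {r : ℕ} (h4 : (Y.W x).length = 4)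
    (hn : ∀ j, 1 ≤ j → j < 4 → Y.W (Y.al (Y.nx^[j] x)) = [])
    (h : spq X (Y.W x) (Y.W (Y.al x)) r = true) : FCS.Mtn lle lsol Y X (Y.nx^[r] x) := by
  have hne : Y.W x ≠ [] := by
    intro h0
    rw [h0] at h4
    exact absurd h4 (by decide)
  have hp : Function.IsPeriodicPt Y.nx 4 x := by
    have := hY.per x hne
    rw [h4] at this
    exact this
  unfold spq at h
  rw [Bool.and_eq_true, List.all_eq_true] at h
  have hrot : Y.W (Y.nx^[r] x) = (Y.W x).rotate r := hY.W_iter hne r
  refine ⟨by rw [hrot]; exact h.1, fun p hp1 => ?_⟩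
  have h1 := h.2 p hp1
  have e1 : Y.nx^[p.1] (Y.nx^[r] x) = Y.nx^[(p.1 + r) % 4] x := by
    rw [← Function.iterate_add_apply]
    exact (hp.iterate_mod_apply _).symm
  rw [e1]
  by_cases h0 : (p.1 + r) % 4 = 0
  · rw [if_pos h0, Bool.and_eq_true] at h1
    rw [h0]
    refine ⟨fun h2 => ?_, fun _ => h1.2⟩
    rw [h2] at h1
    exact absurd h1.1 (by decide)
  · rw [if_neg h0] at h1
    have h2 : p.2 = [] := List.isEmpty_iff.1 h1
    exact ⟨fun _ => Or.inl (hn _ (by omega) (Nat.mod_lt _ (by norm_num))), fun h3 => absurd h2 h3⟩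

theorem getD_fact {F : List FCS.Fct} {n : ℕ} (h : (F.getD n ([], [])).1 ≠ []) :
    F.getD n ([], []) ∈ F := by
  by_cases h1 : n < F.length
  · rw [List.getD_eq_getElem _ _ h1]
    exact List.getElem_mem _
  · exfalso
    apply h
    rw [List.getD_eq_default _ _ (by omega)]

theorem lew_ne {c t : List ℕ} (h : FCS.lew lle c t = true) (ht : t ≠ []) : c ≠ [] := by
  rintro rfl
  cases t with
  | nil => exact ht rfl
  | cons y t => exact absurd h (by simp [FCS.lew])

theorem word_mem {T : List (List ℕ × List (List ℕ × ℕ))} (hW : spw T = true) {c : List ℕ}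
    (h1 : c.length = 4) (h2 : ∀ l ∈ c, lsol l = true) (h3 : glf c = true) :
    ∃ p ∈ T, p.1 = c := by
  have h4 : ∀ l ∈ c, l ∈ solL := by
    intro l hl
    refine mem_solL ?_ (h2 l hl)
    have h5 : glw c = true := by
      unfold glf at h3
      rw [Bool.and_eq_true, Bool.and_eq_true] at h3
      exact h3.1.1
    have := glw_sm h5 l hl
    omega
  obtain ⟨a, b, e, d, rfl⟩ : ∃ a b e d, c = [a, b, e, d] := by
    match c, h1 with
    | [a, b, e, d], _ => exact ⟨a, b, e, d, rfl⟩
  unfold spw at hW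
  rw [List.all_eq_true] at hW
  have k1 := hW a (h4 a (by simp))
  rw [List.all_eq_true] at k1
  have k2 := k1 b (h4 b (by simp))
  rw [List.all_eq_true] at k2
  have k3 := k2 e (h4 e (by simp))
  rw [List.all_eq_true] at k3
  have k4 := k3 d (h4 d (by simp))
  rw [h3] at k4
  simp only [Bool.not_true, Bool.false_or, List.any_eq_true, decide_eq_true_eq] at k4
  exact k4

/-- THE TABLE: two solid words of length four whose other neighbours are outside do not occur -/
theorem noSp_of {F : List FCS.Fct} {T : List (List ℕ × List (List ℕ × ℕ))}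
    (hW : spw T = true) (hT : spt F T = true) : NoSp F := by
  intro D Y hY hg hF x hx
  have ne1 : Y.W x ≠ [] := by
    intro h0
    have := hx.l1
    rw [h0] at this
    exact absurd this (by decide)
  have ne2 : Y.W (Y.al x) ≠ [] := by
    intro h0
    have := hx.l2
    rw [h0] at this
    exact absurd this (by decide)
  obtain ⟨p, hp, hp1⟩ := word_mem hW hx.l1 hx.s1 (hg _ ne1)
  obtain ⟨b, hb, hb1⟩ := word_mem hW hx.l2 hx.s2 (hg _ ne2)
  have hr : sprel (Y.W x) (Y.W (Y.al x)) = true := by
    have c1 := hY.cmp x ne1 ne2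
    have c2 := hY.cmp (Y.al x) ne2 (by rw [hY.alal]; exact ne1)
    rw [hx.l2] at c1
    rw [hY.alal, hx.l1] at c2
    have d1 := cmpf_cmt c1 (hx.s1 _ (getD_mem (by rw [hx.l1]; norm_num)))
    have d2 := cmpf_cmt c2 (hx.s2 _ (getD_mem (by rw [hx.l2]; norm_num)))
    unfold sprel
    rw [show (4 : ℕ) - 1 = 3 from rfl] at d1 d2
    rw [d1, d2, Nat.beq_refl, Nat.beq_refl, hx.sp]
    rfl
  unfold spt at hT
  rw [List.all_eq_true] at hT
  have h1 := hT _ hp
  rw [List.all_eq_true] at h1
  have h2 := h1 _ hb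
  rw [hp1, hb1, hr] at h2
  simp only [Bool.not_true, Bool.false_or, List.any_eq_true, Bool.and_eq_true,
    decide_eq_true_eq] at h2
  obtain ⟨q, -, -, h4⟩ := h2
  have n1 : ∀ j, 1 ≤ j → j < 4 → Y.W (Y.al (Y.nx^[j] x)) = [] := by
    intro j j1 j2
    have := hx.n1 j j1 j2
    by_contra h3
    exact enc_ne h3 this
  have n2 : ∀ j, 1 ≤ j → j < 4 → Y.W (Y.al (Y.nx^[j] (Y.al x))) = [] := by
    intro j j1 j2
    have := hx.n2 j j1 j2
    by_contra h3
    exact enc_ne h3 this
  set X := F.getD (q.2 / 16) ([], []) with hXd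
  have hne : X.1 ≠ [] := by
    intro h0
    have hm : (mirX X).1 = [] := by
      unfold mirX
      rw [h0]
      rfl
    have key : ∀ (A B : List ℕ) (r : ℕ) (Z : FCS.Fct), Z.1 = [] → A ≠ [] →
        spq Z A B r = false := by
      intro A B r Z hZ hA
      unfold spq
      rw [hZ]
      have e1 : FCS.lew lle [] (A.rotate r) = false := by
        cases h5 : FCS.lew lle [] (A.rotate r)
        · rfl
        · exact absurd rfl (lew_ne h5 fun h6 => hA (List.rotate_eq_nil_iff.1 h6))
      rw [e1]
      rfl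
    unfold sph at h4
    rw [key _ _ _ X h0 ne1, key _ _ _ X h0 ne2, key _ _ _ _ hm ne1, key _ _ _ _ hm ne2] at h4
    split_ifs at h4
  have hX := hF X (getD_fact hne)
  unfold sph at h4
  split_ifs at h4
  · exact hX.1 _ (spq_sound hY hx.l1 n1 h4)
  · have := hX.2 (Y.nx^[q.2 % 4] x)
    rw [mirX_eq] at this
    exact this (spq_sound hY hx.l1 n1 h4)
  · have h5 : spq X (Y.W (Y.al x)) (Y.W (Y.al (Y.al x))) (q.2 % 4) = true := by
      rw [hY.alal]; exact h4
    exact hX.1 _ (spq_sound hY hx.l2 n2 h5)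
  · have h5 : spq (mirX X) (Y.W (Y.al x)) (Y.W (Y.al (Y.al x))) (q.2 % 4) = true := by
      rw [hY.alal]; exact h4
    have := hX.2 (Y.nx^[q.2 % 4] (Y.al x))
    rw [mirX_eq] at this
    exact this (spq_sound hY hx.l2 n2 h5)

end Pool.FC7
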