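import Pool.Agent.FC7.Te
import Pool.Agent.FC7.Qu

/-! # Groups of facts with branching on tight traces

`(VR.W R).Mb T l`: the table `T` is refuted for all patterns of the group `l`; the names are those of
the record `R`. -/

open Finset

set_option linter.unusedSectionVars false

namespace Pool.FC7

open Pool.FC6 Pool.FC6.St Pool.FC7.Vs

/-- the table is refuted for all patterns of the group -/
def WG.Mb (W : WG) (l : List FCS.Fct) (T : ℕ → ℕ) : Prop :=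
  ∀ X ∈ l, W.Rf (cdc X.1 X.2) (cdn X.1 X.2) [] (pls X.2) T

/-- no members -/
theorem WG.Mb.nil {W : WG} {l : List FCS.Fct} :
    ∀ q ∈ ([] : List (ℕ × List (ℕ × ℕ))), W.Mb l (Tb.tbl q.2) :=
  fun _ h => absurd h List.not_mem_nil

/-- one more member -/
theorem WG.Mb.cons {W : WG} {l : List FCS.Fct} {p : ℕ} {TL : List (ℕ × ℕ)}
    {C : List (ℕ × List (ℕ × ℕ))} (h : W.Mb l (Tb.tbl TL)) (hC : ∀ q ∈ C, W.Mb l (Tb.tbl q.2)) :
    ∀ q ∈ (p, TL) :: C, W.Mb l (Tb.tbl q.2) := by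
  intro q hq
  rcases List.mem_cons.1 hq with rfl | hq
  · exact h
  · exact hC q hq

/-- the values are rounded up to the parity -/
def Tb.rnd (d par : ℕ → ℕ) (r : ℕ) : ℕ :=
  Nat.add (d r) (Nat.mod (Nat.add (d r) (par r)) (nat_lit 2))

theorem Ptc.rnd {D V : Type} [Fintype D] [DecidableEq V] {P : Pa} {x m : ℕ} {S : St D V}
    {f : ℕ → D} {g : ℕ → V} (h : Ptc P x m S f g) (hxm : x ≤ m) {d par : ℕ → ℕ}
    (hpar : ∀ p, par p % 2 = FC6.OD.inS P (2 ^ x * p) % 2)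
    (hT : Vt P.n x m S f g (Tb.val (2 ^ (m - x) - 1) [] d)) :
    Vt P.n x m S f g (Tb.val (2 ^ (m - x) - 1) [] (Tb.rnd d par)) := by
  have key : ∀ s : V → Bool, (outs P.n S f s + par (trc x m g s)) % 2 = 0 := by
    intro s
    obtain ⟨s2, k1, k2⟩ := h.core s (ξ := 0) (by positivity) hxm
    have e1 := h.rc s2 _ k1
    have e2 := h.oc s2 s k2
    have e3 := hpar (trc x m g s)
    rw [Nat.add_zero] at e1
    omega
  have xx : ∀ a b : ℕ, a ^^^ (a ^^^ b) = b := fun a b => by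
    rw [← Nat.xor_assoc, Nat.xor_self, Nat.zero_xor]
  intro s
  have h1 := hT s
  show d (Tb.nf _ _) + (d (Tb.nf _ _) + par (Tb.nf _ _)) % 2 ≤ _
  have h2 : d (Tb.nf (2 ^ (m - x) - 1) (trc x m g s)) ≤ outs P.n S f s := h1
  have h3 : (outs P.n S f s + par (Tb.nf (2 ^ (m - x) - 1) (trc x m g s))) % 2 = 0 := by
    rw [Tb.nf_eq]
    split_ifs with h4
    · exact key s
    · have h5 := key fun y => !s y
      rw [trc_neg, outs_neg] at h5
      exact h5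
  omega

/-- the certificate -/
theorem WG.QW.cert {W : WG} {us : ℕ → ℕ} (Q : W.QW us) {w0 : List ℕ} {nb kb : List (ℕ × List ℕ)}
    {pl : List ℕ} (hU : W.chkK w0 nb kb pl = true) {d par : ℕ → ℕ} {TL0 : List (ℕ × ℕ)}
    {C : List (ℕ × List (ℕ × ℕ))}
    (hpar : ∀ p, par p % 2 = FC6.OD.inS W.F.P (2 ^ W.F.O.x * p) % 2)
    (hd : ∀ r < 2 ^ (W.F.O.m - W.F.O.x), r % 2 = 0 → d r = 0 ∨ (r ≠ 0 ∧ ∃ ξ < 2 ^ W.F.O.x,
      d r + FC6.OD.inS W.F.P (2 ^ W.F.O.x * r + ξ) ≤ 2 * W.F.bg (2 ^ W.F.O.x * r + ξ)))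
    (h0 : W.Rf w0 nb kb pl (Tb.tbl TL0)) (hC : ∀ q ∈ C, W.Rf w0 nb kb pl (Tb.tbl q.2))
    (hc : Tb.cert (2 ^ (W.F.O.m - W.F.O.x) - 1) (Tb.rnd d par) par TL0 C [] = true) :
    NoK w0 nb kb pl := by
  intro D V _ _ S L w U hM hS hR x hP hQ
  obtain ⟨f, g, Hy⟩ := Q.hyK hU hM hS hR hP hQ
  have hp := Q.ptc hM hS Hy
  exact hp.cert (le_of_lt Q.F.c5) hpar
    (fun hT => h0 D V S L w U hM hS hR x hP hQ f g Hy hT) C []
    (fun q hq hT => hC q hq D V S L w U hM hS hR x hP hQ f g Hy hT)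
    (hp.rnd (le_of_lt Q.F.c5) hpar (hp.baseE Q.F.c5 (Q.hbg hM hS Hy) hd)) hc

namespace K

/-- the certificate of a packed record -/
noncomputable def crt (R : VR) (TL0 : List (ℕ × ℕ)) (C : List (ℕ × List (ℕ × ℕ))) : Bool :=
  Tb.cert (Nat.pred (Nat.pow 2 (VR.k R))) (Tb.rnd (Fc.dTb (VR.F R)) (Fc.par (VR.F R)))
    (Fc.par (VR.F R)) TL0 C []

/-- A MEMBER OF A FACT WITH BRANCHING -/
theorem mbV {R R' : VR} {TL : List (ℕ × ℕ)} {b q s x m lo NB A w v XI nr nt nc N : ℕ}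
    (h : okVT R' TL b q s x m lo NB A w v XI nr nt nc N = true) (hs : VR.sim R R' = true)
    {l : List FCS.Fct} (hl : K.lall l (K.keyG (VR.W R')) = true) :
    (VR.W R).Mb l (Tb.tbl TL) := by
  intro X hX
  rw [lall_eq, List.all_eq_true] at hl
  have h0 := hl X hX
  unfold keyG at h0
  rw [band_eq, Bool.and_eq_true, cdc_eq, cdn_eq, pls_eq, psn_eq, llen_eq] at h0
  have h1 := h0.1
  rw [K.WG_chkCp_eq] at h1
  exact (okVT_ok h).rf rlOf (VR.sim_ok hs) h1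

/-- A GROUP OF FACTS WITH BRANCHING -/
theorem recBR {R : VR} {TL : List (ℕ × ℕ)} {b q s x m lo NB A w v XI nr nt nc N : ℕ}
    (h : okVT R TL b q s x m lo NB A w v XI nr nt nc N = true)
    {l : List FCS.Fct} (hl : K.lall l (K.keyG (VR.W R)) = true)
    {C : List (ℕ × List (ℕ × ℕ))} (hC : ∀ q ∈ C, (VR.W R).Mb l (Tb.tbl q.2))
    (hc : crt R TL C = true) : ∀ X ∈ l, NoL X.1 X.2 := by
  intro X hX
  rw [lall_eq, List.all_eq_true] at hl
  have h0 := hl X hX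
  unfold keyG at h0
  rw [band_eq, Bool.and_eq_true, cdc_eq, cdn_eq, pls_eq, psn_eq, llen_eq] at h0
  have h1 := h0.1
  rw [K.WG_chkCp_eq] at h1
  have Q := okVT_ok h
  have hk : okVT R TL b q s x m lo NB A w v XI nr nt nc N = true := h
  unfold okVT at hk
  simp only [band_eq, Bool.and_eq_true] at hk
  obtain ⟨k0, k1, hE⟩ := hk
  obtain ⟨k2, k3⟩ := vW_ok k0 (K.ev_one hE)
  have hm : (VR.W R).F.O.m - (VR.W R).F.O.x = VR.k R := by
    show VR.x R + VR.k R - VR.x R = VR.k R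
    omega
  refine NoG.toL ((NoK.noG (WG.QW.cert Q.toQW h1 (d := Fc.dTb (VR.F R)) (par := Fc.par (VR.F R))
    (fun p => Fc.par_eq _ p)
    (fun r hr h2 => Fc.dTb_ok k3.sm k3.cq (Vc.vchkt_dok k1) r hr h2)
    ((Q.rf rlOf (WG.Sim.rfl _) h1)) (fun q hq => hC q hq X hX) ?_))) h0.2
  rw [hm]
  exact hc

end K

end Pool.FC7
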