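import Pool.Agent.FC7.Qv
import Pool.Agent.FC7.Tf

/-! # Groups of facts with branching on tight traces (records of bytes) -/

open Finset

set_option linter.unusedSectionVars false

namespace Pool.FC7

open Pool.FC6 Pool.FC6.St Pool.FC7.Vs

namespace K

/-- the certificate of a packed record -/
noncomputable def crtG (R : PK) (TL0 : List (ℕ × ℕ)) (C : List (ℕ × List (ℕ × ℕ))) : Bool :=
  Tb.cert (Nat.pred (Nat.pow 2 (PK.k R))) (Tb.rnd (Fc.dTb (PK.F R)) (Fc.par (PK.F R)))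
    (Fc.par (PK.F R)) TL0 C []

/-- A MEMBER OF A FACT WITH BRANCHING -/
theorem mbG {R R' : PK} {TL : List (ℕ × ℕ)} {b q s x m lo NB A w v XI nr nt nc N : ℕ}
    (h : okGT R' TL b q s x m lo NB A w v XI nr nt nc N = true) (hs : simG R R' = true)
    {l : List FCS.Fct} (hl : K.lall l (K.keyG (PK.G R')) = true) :
    (PK.G R).Mb l (Tb.tbl TL) := by
  intro X hX
  rw [lall_eq, List.all_eq_true] at hl
  have h0 := hl X hX
  unfold keyG at h0
  rw [band_eq, Bool.and_eq_true, cdc_eq, cdn_eq, pls_eq, psn_eq, llen_eq] at h0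
  have h1 := h0.1
  rw [K.WG_chkCp_eq] at h1
  exact (okGT_ok h).rf rlOf (simG_ok hs) h1

/-- A GROUP OF FACTS WITH BRANCHING -/
theorem recBG {R : PK} {TL : List (ℕ × ℕ)} {b q s x m lo NB A w v XI nr nt nc N : ℕ}
    (h : okGT R TL b q s x m lo NB A w v XI nr nt nc N = true)
    {l : List FCS.Fct} (hl : K.lall l (K.keyG (PK.G R)) = true)
    {C : List (ℕ × List (ℕ × ℕ))} (hC : ∀ q ∈ C, (PK.G R).Mb l (Tb.tbl q.2))
    (hc : crtG R TL C = true) : ∀ X ∈ l, NoL X.1 X.2 := by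
  intro X hX
  rw [lall_eq, List.all_eq_true] at hl
  have h0 := hl X hX
  unfold keyG at h0
  rw [band_eq, Bool.and_eq_true, cdc_eq, cdn_eq, pls_eq, psn_eq, llen_eq] at h0
  have h1 := h0.1
  rw [K.WG_chkCp_eq] at h1
  have Q := okGT_ok h
  have hk : okGT R TL b q s x m lo NB A w v XI nr nt nc N = true := h
  unfold okGT at hk
  simp only [band_eq, Bool.and_eq_true] at hk
  obtain ⟨k0, k1, hE⟩ := hk
  obtain ⟨k2, k3⟩ := gW_ok k0 (K.ev_one hE)
  have hm : (PK.G R).F.O.m - (PK.G R).F.O.x = PK.k R := by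
    show PK.x R + PK.k R - PK.x R = PK.k R
    omega
  refine NoG.toL ((NoK.noG (WG.QW.cert Q.toQW h1 (d := Fc.dTb (PK.F R)) (par := Fc.par (PK.F R))
    (fun p => Fc.par_eq _ p)
    (fun r hr h2 => Fc.dTb_ok k3.sm k3.cq (Vc.vchkt_dok k1) r hr h2)
    ((Q.rf rlOf (WG.Sim.rfl _) h1)) (fun q hq => hC q hq X hX) ?_))) h0.2
  rw [hm]
  exact hc

end K

end Pool.FC7
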