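import Pool.Agent.FC7.Th

/-! # Certificates with nested tight traces

The tree: a leaf has the table of a reducer; `dv` adds bounds which follow from the tight traces of
the branch; `br` is a case distinction, the trace is tight or not. -/

open Finset

set_option linter.unusedSectionVars false

namespace Pool.FC7

open Pool.FC6 Pool.FC6.St Pool.FC7.Vs

/-- Trees. -/
inductive Tr where
  | lf : List (ℕ × ℕ) → Tr
  | dv : List (ℕ × ℕ) → Tr → Tr
  | br : ℕ → Tr → Tr → Tr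

namespace Tr

noncomputable section

/-- the entry `q`, `v` is correct for one of the tight traces `l` -/
def ok2 (F : ℕ) (E : List (ℕ × ℕ)) (d : ℕ → ℕ) (q v : ℕ) (l : List (ℕ × ℕ)) : Bool :=
  List.rec (motive := fun _ => Bool) false
    (fun g _ ih => Bool.rec (motive := fun _ => Bool) ih true (Tb.ok1 F E d g.1 g.2 q v)) l

/-- the entries are correct -/
def ok3 (F : ℕ) (E : List (ℕ × ℕ)) (d : ℕ → ℕ) (l SL : List (ℕ × ℕ)) : Bool :=
  List.rec (motive := fun _ => Bool) true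
    (fun q _ ih => Bool.rec (motive := fun _ => Bool) false ih (ok2 F E d q.1 q.2 l)) SL

/-- the entries in the normal form before `E` -/
def app (F : ℕ) (SL E : List (ℕ × ℕ)) : List (ℕ × ℕ) :=
  List.rec (motive := fun _ => List (ℕ × ℕ)) E (fun q _ ih => (Tb.nf F q.1, q.2) :: ih) SL

/-- the check of a tree -/
def chk (F : ℕ) (d par : ℕ → ℕ) (t : Tr) : List (ℕ × ℕ) → List (ℕ × ℕ) → Bool :=
  Tr.rec (motive := fun _ => List (ℕ × ℕ) → List (ℕ × ℕ) → Bool)
    (fun TL _ E => Tb.ok0 F E d TL TL)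
    (fun SL _ ih l E => Bool.rec (motive := fun _ => Bool) false (ih l (app F SL E))
      (ok3 F E d l SL))
    (fun p _ _ iha ihb l E => (fun u : ℕ => Bool.rec (motive := fun _ => Bool) false
      (Bool.rec (motive := fun _ => Bool) false (ihb l ((Tb.nf F p, Nat.add u (nat_lit 2)) :: E))
        (iha ((p, u) :: l) E))
      (Nat.beq (Nat.mod (par p) (nat_lit 2)) (Nat.mod u (nat_lit 2)))) (Tb.val F E d p)) t

end

/-- the tables of the leaves -/
def lvs : Tr → List (List (ℕ × ℕ))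
  | lf TL => [TL]
  | dv _ t => t.lvs
  | br _ a b => a.lvs ++ b.lvs

end Tr

open Tb

theorem Tr.ok2_iff {F : ℕ} {E : List (ℕ × ℕ)} {d : ℕ → ℕ} {q v : ℕ} :
    ∀ {l : List (ℕ × ℕ)}, Tr.ok2 F E d q v l = true → ∃ g ∈ l, Tb.ok1 F E d g.1 g.2 q v = true
  | [], h => Bool.noConfusion (show false = true from h)
  | g :: l, h => by
    have e : Tr.ok2 F E d q v (g :: l) = Bool.rec (motive := fun _ => Bool)
      (Tr.ok2 F E d q v l) true (Tb.ok1 F E d g.1 g.2 q v) := rfl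
    rw [e] at h
    cases h1 : Tb.ok1 F E d g.1 g.2 q v with
    | true => exact ⟨g, List.mem_cons_self .., h1⟩
    | false =>
      rw [h1] at h
      obtain ⟨g', h2, h3⟩ := Tr.ok2_iff (show Tr.ok2 F E d q v l = true from h)
      exact ⟨g', List.mem_cons_of_mem _ h2, h3⟩

theorem Tr.ok3_iff {F : ℕ} {E : List (ℕ × ℕ)} {d : ℕ → ℕ} {l : List (ℕ × ℕ)} :
    ∀ {SL : List (ℕ × ℕ)}, Tr.ok3 F E d l SL = true →
      ∀ q ∈ SL, ∃ g ∈ l, Tb.ok1 F E d g.1 g.2 q.1 q.2 = true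
  | [], _, _, h => absurd h List.not_mem_nil
  | a :: SL, h, q, hq => by
    have e : Tr.ok3 F E d l (a :: SL) = Bool.rec (motive := fun _ => Bool) false
      (Tr.ok3 F E d l SL) (Tr.ok2 F E d a.1 a.2 l) := rfl
    rw [e] at h
    cases h1 : Tr.ok2 F E d a.1 a.2 l with
    | false => rw [h1] at h; exact Bool.noConfusion (show false = true from h)
    | true =>
      rw [h1] at h
      rcases List.mem_cons.1 hq with rfl | hq
      · exact Tr.ok2_iff h1
      · exact Tr.ok3_iff (show Tr.ok3 F E d l SL = true from h) q hq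

variable {D V : Type} [Fintype D] [DecidableEq V]

variable {P : Pa} {x m : ℕ} {S : St D V} {f : ℕ → D} {g : ℕ → V}

theorem nf_cases {F a b : ℕ} (h : nf F a = nf F b) : b = a ∨ b = F ^^^ a := by
  have xx : ∀ a b : ℕ, a ^^^ (a ^^^ b) = b := fun a b => by
    rw [← Nat.xor_assoc, Nat.xor_self, Nat.zero_xor]
  rw [nf_eq, nf_eq] at h
  split_ifs at h with a1 a2 a2
  · exact Or.inl h.symm
  · right
    rw [h, xx]
  · exact Or.inr h.symm
  · left
    have h4 := congrArg (fun z => F ^^^ z) h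
    simp only [xx] at h4
    exact h4.symm

/-- one entry is added -/
theorem Vt.ent {d : ℕ → ℕ} {E : List (ℕ × ℕ)} {q v : ℕ}
    (hT : Vt P.n x m S f g (Tb.val (2 ^ (m - x) - 1) E d))
    (h : ∀ s : V → Bool, trc x m g s = q → v ≤ outs P.n S f s) :
    Vt P.n x m S f g (Tb.val (2 ^ (m - x) - 1) ((nf (2 ^ (m - x) - 1) q, v) :: E) d) := by
  have xx : ∀ a b : ℕ, a ^^^ (a ^^^ b) = b := fun a b => by
    rw [← Nat.xor_assoc, Nat.xor_self, Nat.zero_xor]
  intro s
  unfold Tb.val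
  rw [fst_cons]
  by_cases h3 : nf (2 ^ (m - x) - 1) q = nf (2 ^ (m - x) - 1) (trc x m g s)
  · rw [if_pos h3]
    rcases nf_cases h3 with h4 | h4
    · exact h s h4
    · have h5 : trc x m g (fun y => !s y) = q := by
        rw [trc_neg, h4, xx]
      have h6 := h _ h5
      rw [outs_neg] at h6
      exact h6
  · rw [if_neg h3]
    exact hT s

/-- a value which follows from a tight trace -/
theorem Vt.ok1 {d : ℕ → ℕ} {E : List (ℕ × ℕ)} {p u q v : ℕ}
    (hT : Vt P.n x m S f g (Tb.val (2 ^ (m - x) - 1) E d)) {s0 : V → Bool}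
    (hp : trc x m g s0 = p) (hu : outs P.n S f s0 ≤ u)
    (h : Tb.ok1 (2 ^ (m - x) - 1) E d p u q v = true) (s : V → Bool) (hs : trc x m g s = q) :
    v ≤ outs P.n S f s := by
  unfold Tb.ok1 at h
  simp only [K.bor_eq, Bool.or_eq_true] at h
  rcases h with h | h | h
  · have h1 := Nat.le_of_ble_eq_true h
    have h2 := hT s
    rw [hs] at h2
    exact h1.trans h2
  · have h1 : v + u ≤ Tb.val _ E d (p &&& q) + Tb.val _ E d (p ||| q) := Nat.le_of_ble_eq_true h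
    have e1 := outs_sub P.n S f s0 s
    have e2 := hT fun y => s0 y && s y
    have e3 := hT fun y => s0 y || s y
    rw [trc_and, hp, hs] at e2
    rw [trc_or, hp, hs] at e3
    omega
  · have h1 : v + u ≤ Tb.val _ E d (p &&& ((2 ^ (m - x) - 1) ^^^ q)) +
        Tb.val _ E d (p ||| ((2 ^ (m - x) - 1) ^^^ q)) := Nat.le_of_ble_eq_true h
    have e1 := outs_sub P.n S f s0 (fun y => !s y)
    have e2 := hT fun y => s0 y && !s y
    have e3 := hT fun y => s0 y || !s y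
    rw [trc_and (t := fun y => !s y), hp, trc_neg, hs] at e2
    rw [trc_or (t := fun y => !s y), hp, trc_neg, hs] at e3
    rw [outs_neg] at e1
    omega

/-- many entries -/
theorem Vt.app {d : ℕ → ℕ} {E l : List (ℕ × ℕ)}
    (hT : Vt P.n x m S f g (Tb.val (2 ^ (m - x) - 1) E d))
    (hl : ∀ q ∈ l, ∃ s0 : V → Bool, trc x m g s0 = q.1 ∧ outs P.n S f s0 ≤ q.2) :
    ∀ SL : List (ℕ × ℕ), (∀ q ∈ SL, ∃ a ∈ l, Tb.ok1 (2 ^ (m - x) - 1) E d a.1 a.2 q.1 q.2 = true) →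
      Vt P.n x m S f g (Tb.val (2 ^ (m - x) - 1) (Tr.app (2 ^ (m - x) - 1) SL E) d)
  | [], _ => hT
  | q :: SL, h => by
    have e : Tr.app (2 ^ (m - x) - 1) (q :: SL) E =
      (nf (2 ^ (m - x) - 1) q.1, q.2) :: Tr.app (2 ^ (m - x) - 1) SL E := rfl
    rw [e]
    refine (Vt.app hT hl SL fun a ha => h a (List.mem_cons_of_mem _ ha)).ent fun s hs => ?_
    obtain ⟨a, ha, h1⟩ := h q (List.mem_cons_self ..)
    obtain ⟨s0, h2, h3⟩ := hl a ha
    exact hT.ok1 h2 h3 h1 s hs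

/-- the theorem of the tree -/
theorem Ptc.tree (h : Ptc P x m S f g) (hxm : x ≤ m) {d par : ℕ → ℕ}
    (hpar : ∀ p, par p % 2 = FC6.OD.inS P (2 ^ x * p) % 2) :
    ∀ (t : Tr) (l E : List (ℕ × ℕ)), (∀ TL ∈ t.lvs, Vt P.n x m S f g (Tb.tbl TL) → False) →
      Vt P.n x m S f g (Tb.val (2 ^ (m - x) - 1) E d) →
      (∀ q ∈ l, ∃ s0 : V → Bool, trc x m g s0 = q.1 ∧ outs P.n S f s0 ≤ q.2) →
      Tr.chk (2 ^ (m - x) - 1) d par t l E = true → False
  | .lf TL, l, E, hL, hT, _, hc => by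
    have hc' : ok0 (2 ^ (m - x) - 1) E d TL TL = true := hc
    refine hL TL (List.mem_singleton.2 rfl) fun s => ?_
    by_cases hq : ∃ q ∈ TL, q.1 = trc x m g s
    · obtain ⟨q, hq, e⟩ := hq
      have h1 := ok0_iff hc' q hq
      rw [e] at h1
      exact h1.trans (hT s)
    · push Not at hq
      rw [tbl_zero hq]
      exact Nat.zero_le _
  | .dv SL t, l, E, hL, hT, hl, hc => by
    have e : Tr.chk (2 ^ (m - x) - 1) d par (.dv SL t) l E = Bool.rec (motive := fun _ => Bool) false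
      (Tr.chk (2 ^ (m - x) - 1) d par t l (Tr.app (2 ^ (m - x) - 1) SL E))
      (Tr.ok3 (2 ^ (m - x) - 1) E d l SL) := rfl
    rw [e] at hc
    cases h1 : Tr.ok3 (2 ^ (m - x) - 1) E d l SL with
    | false => rw [h1] at hc; exact Bool.noConfusion (show false = true from hc)
    | true =>
      rw [h1] at hc
      exact Ptc.tree h hxm hpar t l _ hL (Vt.app hT hl SL (Tr.ok3_iff h1)) hl hc
  | .br p a b, l, E, hL, hT, hl, hc => by
    have e : Tr.chk (2 ^ (m - x) - 1) d par (.br p a b) l E = Bool.rec (motive := fun _ => Bool) false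
      (Bool.rec (motive := fun _ => Bool) false
        (Tr.chk (2 ^ (m - x) - 1) d par b l
          ((nf (2 ^ (m - x) - 1) p, Tb.val (2 ^ (m - x) - 1) E d p + 2) :: E))
        (Tr.chk (2 ^ (m - x) - 1) d par a ((p, Tb.val (2 ^ (m - x) - 1) E d p) :: l) E))
      (Nat.beq (par p % 2) (Tb.val (2 ^ (m - x) - 1) E d p % 2)) := rfl
    rw [e] at hc
    clear e
    cases h1 : Nat.beq (par p % 2) (Tb.val (2 ^ (m - x) - 1) E d p % 2) with
    | false => rw [h1] at hc; exact Bool.noConfusion (show false = true from hc)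
    | true =>
    rw [h1] at hc
    cases h2 : Tr.chk (2 ^ (m - x) - 1) d par a ((p, Tb.val (2 ^ (m - x) - 1) E d p) :: l) E with
    | false => rw [h2] at hc; exact Bool.noConfusion (show false = true from hc)
    | true =>
    rw [h2] at hc
    have hc : Tr.chk (2 ^ (m - x) - 1) d par b l
          ((nf (2 ^ (m - x) - 1) p, Tb.val (2 ^ (m - x) - 1) E d p + 2) :: E) = true := hc
    have h1 := Nat.eq_of_beq_eq_true h1
    rw [hpar p] at h1
    have ht : ¬ ∃ s0 : V → Bool, trc x m g s0 = p ∧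
        outs P.n S f s0 ≤ Tb.val (2 ^ (m - x) - 1) E d p := by
      rintro ⟨s0, hp, hu⟩
      refine Ptc.tree h hxm hpar a _ E (fun TL hTL => hL TL (List.mem_append_left _ hTL)) hT
        (fun q hq => ?_) h2
      rcases List.mem_cons.1 hq with rfl | hq
      · exact ⟨s0, hp, hu⟩
      · exact hl q hq
    refine Ptc.tree h hxm hpar b l _ (fun TL hTL => hL TL (List.mem_append_right _ hTL)) ?_ hl hc
    refine hT.ent fun s hs => ?_
    have h3 : ¬ outs P.n S f s ≤ Tb.val (2 ^ (m - x) - 1) E d p := fun h4 => ht ⟨s, hs, h4⟩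
    obtain ⟨s2, k1, k2⟩ := h.core s (ξ := 0) (by positivity) hxm
    have e1 := h.rc s2 _ k1
    have e2 := h.oc s2 s k2
    rw [hs, Nat.add_zero] at e1
    omega

/-- the tree of a fact -/
theorem WG.QW.tree {W : WG} {us : ℕ → ℕ} (Q : W.QW us) {w0 : List ℕ} {nb kb : List (ℕ × List ℕ)}
    {pl : List ℕ} (hU : W.chkK w0 nb kb pl = true) {d par : ℕ → ℕ} {t : Tr}
    (hpar : ∀ p, par p % 2 = FC6.OD.inS W.F.P (2 ^ W.F.O.x * p) % 2)
    (hd : ∀ r < 2 ^ (W.F.O.m - W.F.O.x), r % 2 = 0 → d r = 0 ∨ (r ≠ 0 ∧ ∃ ξ < 2 ^ W.F.O.x,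
      d r + FC6.OD.inS W.F.P (2 ^ W.F.O.x * r + ξ) ≤ 2 * W.F.bg (2 ^ W.F.O.x * r + ξ)))
    (hC : ∀ TL ∈ t.lvs, W.Rf w0 nb kb pl (Tb.tbl TL))
    (hc : Tr.chk (2 ^ (W.F.O.m - W.F.O.x) - 1) (Tb.rnd d par) par t [] [] = true) :
    NoK w0 nb kb pl := by
  intro D V _ _ S L w U hM hS hR x hP hQ
  obtain ⟨f, g, Hy⟩ := Q.hyK hU hM hS hR hP hQ
  have hp := Q.ptc hM hS Hy
  exact hp.tree (le_of_lt Q.F.c5) hpar t [] []
    (fun TL hTL hT => hC TL hTL D V S L w U hM hS hR x hP hQ f g Hy hT)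
    (hp.rnd (le_of_lt Q.F.c5) hpar (hp.baseE Q.F.c5 (Q.hbg hM hS Hy) hd))
    (fun q hq => absurd hq List.not_mem_nil) hc

/-- no members -/
theorem WG.Mb.nilT {W : WG} {l : List FCS.Fct} :
    ∀ TL ∈ ([] : List (List (ℕ × ℕ))), W.Mb l (Tb.tbl TL) :=
  fun _ h => absurd h List.not_mem_nil

/-- one more member -/
theorem WG.Mb.consT {W : WG} {l : List FCS.Fct} {TL : List (ℕ × ℕ)}
    {C : List (List (ℕ × ℕ))} (h : W.Mb l (Tb.tbl TL)) (hC : ∀ T ∈ C, W.Mb l (Tb.tbl T)) :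
    ∀ T ∈ TL :: C, W.Mb l (Tb.tbl T) := by
  intro q hq
  rcases List.mem_cons.1 hq with rfl | hq
  · exact h
  · exact hC q hq

namespace K

/-- the tree of a packed record -/
noncomputable def trt (R : VR) (t : Tr) : Bool :=
  Tr.chk (Nat.pred (Nat.pow 2 (VR.k R))) (Tb.rnd (Fc.dTb (VR.F R)) (Fc.par (VR.F R)))
    (Fc.par (VR.F R)) t [] []

/-- A GROUP OF FACTS WITH A TREE -/
theorem recTR {R : VR} {TL : List (ℕ × ℕ)} {b q s x m lo NB A w v XI nr nt nc N : ℕ}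
    (h : okVT R TL b q s x m lo NB A w v XI nr nt nc N = true)
    {l : List FCS.Fct} (hl : K.lall l (K.keyG (VR.W R)) = true) {t : Tr}
    {C : List (List (ℕ × ℕ))} (hC : ∀ T ∈ C, (VR.W R).Mb l (Tb.tbl T)) (ht : t.lvs = C)
    (hc : trt R t = true) : ∀ X ∈ l, NoL X.1 X.2 := by
  intro X hX
  rw [lall_eq, List.all_eq_true] at hl
  have h0 := hl X hX
  unfold keyG at h0
  rw [band_eq, Bool.and_eq_true, cdc_eq, cdn_eq, pls_eq, psn_eq, llen_eq] at h0
  have h1 := h0.1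
  rw [K.WG_chkCp_eq] at h1
  have Q := okVT_ok h
  have hk : okVT R TL b q s x m lo NB A w v XI nr nt nc N = true := h
  unfold okVT at hk
  simp only [band_eq, Bool.and_eq_true] at hk
  obtain ⟨k0, k1, hE⟩ := hk
  obtain ⟨k2, k3⟩ := vW_ok k0 (K.ev_one hE)
  have hm : (VR.W R).F.O.m - (VR.W R).F.O.x = VR.k R := by
    show VR.x R + VR.k R - VR.x R = VR.k R
    omega
  refine NoG.toL ((NoK.noG (WG.QW.tree Q.toQW h1 (d := Fc.dTb (VR.F R)) (par := Fc.par (VR.F R))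
    (fun p => Fc.par_eq _ p)
    (fun r hr h2 => Fc.dTb_ok k3.sm k3.cq (Vc.vchkt_dok k1) r hr h2)
    (t := t) (fun T hT => hC T (ht ▸ hT) X hX) ?_))) h0.2
  rw [hm]
  exact hc

/-- the tree of a packed record -/
noncomputable def trtG (R : PK) (t : Tr) : Bool :=
  Tr.chk (Nat.pred (Nat.pow 2 (PK.k R))) (Tb.rnd (Fc.dTb (PK.F R)) (Fc.par (PK.F R)))
    (Fc.par (PK.F R)) t [] []

/-- A GROUP OF FACTS WITH A TREE -/
theorem recTG {R : PK} {TL : List (ℕ × ℕ)} {b q s x m lo NB A w v XI nr nt nc N : ℕ}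
    (h : okGT R TL b q s x m lo NB A w v XI nr nt nc N = true)
    {l : List FCS.Fct} (hl : K.lall l (K.keyG (PK.G R)) = true) {t : Tr}
    {C : List (List (ℕ × ℕ))} (hC : ∀ T ∈ C, (PK.G R).Mb l (Tb.tbl T)) (ht : t.lvs = C)
    (hc : trtG R t = true) : ∀ X ∈ l, NoL X.1 X.2 := by
  intro X hX
  rw [lall_eq, List.all_eq_true] at hl
  have h0 := hl X hX
  unfold keyG at h0
  rw [band_eq, Bool.and_eq_true, cdc_eq, cdn_eq, pls_eq, psn_eq, llen_eq] at h0
  have h1 := h0.1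
  rw [K.WG_chkCp_eq] at h1
  have Q := okGT_ok h
  have hk : okGT R TL b q s x m lo NB A w v XI nr nt nc N = true := h
  unfold okGT at hk
  simp only [band_eq, Bool.and_eq_true] at hk
  obtain ⟨k0, k1, hE⟩ := hk
  obtain ⟨k2, k3⟩ := gW_ok k0 (K.ev_one hE)
  have hm : (PK.G R).F.O.m - (PK.G R).F.O.x = PK.k R := by
    show PK.x R + PK.k R - PK.x R = PK.k R
    omega
  refine NoG.toL ((NoK.noG (WG.QW.tree Q.toQW h1 (d := Fc.dTb (PK.F R)) (par := Fc.par (PK.F R))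
    (fun p => Fc.par_eq _ p)
    (fun r hr h2 => Fc.dTb_ok k3.sm k3.cq (Vc.vchkt_dok k1) r hr h2)
    (t := t) (fun T hT => hC T (ht ▸ hT) X hX) ?_))) h0.2
  rw [hm]
  exact hc

end K

end Pool.FC7
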