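import Pool.Agent.FC7.Th

/-! # Members with branching

The table of a member is refuted by a certificate of the second level. -/

open Finset

set_option linter.unusedSectionVars false

namespace Pool.FC7

open Pool.FC6 Pool.FC6.St Pool.FC7.Vs

/-- the values of the normal forms -/
theorem Vt.nf {D V : Type} [Fintype D] [DecidableEq V] {P : Pa} {x m : ℕ} {S : St D V}
    {f : ℕ → D} {g : ℕ → V} {T : ℕ → ℕ} (hT : Vt P.n x m S f g T) :
    Vt P.n x m S f g (Tb.val (2 ^ (m - x) - 1) [] T) := by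
  intro s
  show T (Tb.nf _ _) ≤ _
  rw [Tb.nf_eq]
  split_ifs with h
  · exact hT s
  · have h1 := hT fun y => !s y
    rw [trc_neg, outs_neg] at h1
    exact h1

/-- a table is refuted by a certificate -/
theorem WG.QW.cert2 {W : WG} {us : ℕ → ℕ} (Q : W.QW us) {w0 : List ℕ} {nb kb : List (ℕ × List ℕ)}
    {pl : List ℕ} {par : ℕ → ℕ} {TL TL0 : List (ℕ × ℕ)} {C : List (ℕ × List (ℕ × ℕ))}
    (hpar : ∀ p, par p % 2 = FC6.OD.inS W.F.P (2 ^ W.F.O.x * p) % 2)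
    (h0 : W.Rf w0 nb kb pl (Tb.tbl TL0)) (hC : ∀ q ∈ C, W.Rf w0 nb kb pl (Tb.tbl q.2))
    (hc : Tb.cert (2 ^ (W.F.O.m - W.F.O.x) - 1) (Tb.rnd (Tb.tbl TL) par) par TL0 C [] = true) :
    W.Rf w0 nb kb pl (Tb.tbl TL) := by
  intro D V _ _ S L w U hM hS hR x hP hQ f g Hy hT
  have hp := Q.ptc hM hS Hy
  exact hp.cert (le_of_lt Q.F.c5) hpar
    (fun hT => h0 D V S L w U hM hS hR x hP hQ f g Hy hT) C []
    (fun q hq hT => hC q hq D V S L w U hM hS hR x hP hQ f g Hy hT)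
    (hp.rnd (le_of_lt Q.F.c5) hpar hT.nf) hc

namespace K

/-- the certificate of a member -/
noncomputable def crt2 (R : VR) (TL TL0 : List (ℕ × ℕ)) (C : List (ℕ × List (ℕ × ℕ))) : Bool :=
  Tb.cert (Nat.pred (Nat.pow 2 (VR.k R))) (Tb.rnd (Tb.tbl TL) (Fc.par (VR.F R)))
    (Fc.par (VR.F R)) TL0 C []

/-- A MEMBER WITH BRANCHING -/
theorem mb2V {R : VR} {TLr : List (ℕ × ℕ)} {b q s x m lo NB A w v XI nr nt nc N : ℕ}
    (h : okVT R TLr b q s x m lo NB A w v XI nr nt nc N = true)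
    {l : List FCS.Fct} {TL TL0 : List (ℕ × ℕ)} {C : List (ℕ × List (ℕ × ℕ))}
    (h0 : (VR.W R).Mb l (Tb.tbl TL0)) (hC : ∀ q ∈ C, (VR.W R).Mb l (Tb.tbl q.2))
    (hc : crt2 R TL TL0 C = true) : (VR.W R).Mb l (Tb.tbl TL) := by
  intro X hX
  have Q := okVT_ok h
  have hm : (VR.W R).F.O.m - (VR.W R).F.O.x = VR.k R := by
    show VR.x R + VR.k R - VR.x R = VR.k R
    omega
  refine Q.toQW.cert2 (par := Fc.par (VR.F R)) (fun p => Fc.par_eq _ p) (h0 X hX)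
    (fun q hq => hC q hq X hX) ?_
  rw [hm]
  exact hc

/-- the certificate of a member -/
noncomputable def crt2G (R : PK) (TL TL0 : List (ℕ × ℕ)) (C : List (ℕ × List (ℕ × ℕ))) : Bool :=
  Tb.cert (Nat.pred (Nat.pow 2 (PK.k R))) (Tb.rnd (Tb.tbl TL) (Fc.par (PK.F R)))
    (Fc.par (PK.F R)) TL0 C []

/-- A MEMBER WITH BRANCHING -/
theorem mb2G {R : PK} {TLr : List (ℕ × ℕ)} {b q s x m lo NB A w v XI nr nt nc N : ℕ}
    (h : okGT R TLr b q s x m lo NB A w v XI nr nt nc N = true)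
    {l : List FCS.Fct} {TL TL0 : List (ℕ × ℕ)} {C : List (ℕ × List (ℕ × ℕ))}
    (h0 : (PK.G R).Mb l (Tb.tbl TL0)) (hC : ∀ q ∈ C, (PK.G R).Mb l (Tb.tbl q.2))
    (hc : crt2G R TL TL0 C = true) : (PK.G R).Mb l (Tb.tbl TL) := by
  intro X hX
  have Q := okGT_ok h
  have hm : (PK.G R).F.O.m - (PK.G R).F.O.x = PK.k R := by
    show PK.x R + PK.k R - PK.x R = PK.k R
    omega
  refine Q.toQW.cert2 (par := Fc.par (PK.F R)) (fun p => Fc.par_eq _ p) (h0 X hX)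
    (fun q hq => hC q hq X hX) ?_
  rw [hm]
  exact hc

end K

end Pool.FC7
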