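import Pool.Agent.FTL.TopW
import Pool.Agent.FC7.Mcs

/-! # Maximum degree 6: from the nonexistence of minimal counterexamples in star form to free sets -/

open Finset

namespace FTL

open Pool.FC6 Pool.FC1 FREE

/-- there is no minimal counterexample in star form -/
def NoMC6 : Prop := ∀ (D V : Type) [Fintype D] [DecidableEq V] (S : St D V) (L : D → Bool)
  (w : D → ℕ), Pool.FC7.MC 6 S L w → Pool.FC7.IsStar S → False

theorem bbw_of_noMC (h : NoMC6) : BBW 6 := by
  intro D V _ _ S L hok
  by_contra hno
  obtain ⟨D', V', _, _, S', L', w', hm⟩ := Pool.FC7.exists_mc (fun _ => rfl) hok hno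
  exact h _ _ _ _ _ (hm.star le_rfl) (Pool.FC7.star_isStar _)

end FTL
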