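import Pool.Agent.FC7.Mcs

/-! # Upgrades: units and labels of a minimal counterexample

`MC.fu23`: a face with units has two or three units.  `MC.lab_no`: no label next to a face with units.
`MC.full2`: the vertices of a face with two units are full.  `MC.full_lab`: the vertices of the two
faces at a label are full.  `MC.lab_one`: a face has at most one label. -/

open Finset

set_option linter.unusedSectionVars false

namespace Pool.FC7

open Pool.FC6 Pool.FC6.St

variable {D V : Type} [Fintype D] [DecidableEq V] {S : St D V} {L : D → Bool} {w : D → ℕ} {Δ : ℕ}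

theorem fu_sc {d e : D} (h : S.sc.r d e) : fu S d = fu S e := by
  classical
  unfold fu
  refine Finset.sum_congr rfl fun x _ => ?_
  have : S.sc.r d x ↔ S.sc.r e x :=
    ⟨fun h1 => S.sc.iseqv.trans (S.sc.iseqv.symm h) h1, fun h1 => S.sc.iseqv.trans h h1⟩
  simp only [this]

theorem u_le_fu (S : St D V) (d : D) : S.u d ≤ fu S d := by
  classical
  unfold fu
  have h := Finset.single_le_sum (f := fun e => if S.sc.r d e then S.u e else 0)
    (fun _ _ => Nat.zero_le _) (Finset.mem_univ d)
  rwa [if_pos (S.sc.iseqv.refl d)] at h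

/-- the weight of a vertex -/
def wt (S : St D V) (w : D → ℕ) (x : V) : ℕ :=
  ∑ d, if S.M.v d = x then (if S.real d = true then 1 else 0) + S.u d + w d else 0

/-- the requirement of one face and some labels next to it are replaced -/
theorem MC.repl (hΔ : Δ ≤ 6) (h : MC Δ S L w) {d0 : D} {u' : D → ℕ} {L' : D → Bool} {w' : D → ℕ}
    (w1 : W1 L' w') (wf : Wf Δ (wU S u') L' w') (hoff : ∀ e, ¬ S.sc.r d0 e → u' e = S.u e)
    (h3 : 3 ≤ fu (wU S u') d0) (hL : ∀ d, L' d = true → L d = true)
    (hL2 : ∀ d, L d = true → L' d = false → S.sc.r d0 d ∨ S.sc.r d0 (S.M.α d))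
    (hc : 2024 * fu (wU S u') d0 + 3054 * (∑ d, if L' d = true then 1 else 0) <
      cw (fu S d0) * fu S d0 + 3054 * (∑ d, if L d = true then 1 else 0)) : False := by
  classical
  have hfo : ∀ d, ¬ S.sc.r d0 d → fu (wU S u') d = fu S d := by
    intro d hd
    refine Finset.sum_congr rfl fun e _ => ?_
    show (if S.sc.r d e then u' e else 0) = if S.sc.r d e then S.u e else 0
    split_ifs with h1
    · exact hoff e fun h2 => hd (S.sc.iseqv.trans h2 (S.sc.iseqv.symm h1))
    · rfl
  have hthr : ∀ d, u' d ≠ 0 → 3 ≤ fu (wU S u') d ∨ Two (wU S u') d := by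
    intro d hd
    by_cases h1 : S.sc.r d0 d
    · left
      rw [← fu_sc (S := wU S u') h1]; exact h3
    · rw [hoff d h1] at hd
      rw [hfo d h1]
      rcases h.ok.thr d hd with h2 | ⟨e, e', a1, a2, a3, a4, a5, a6⟩
      · exact Or.inl h2
      · right
        refine ⟨e, e', a1, a2, ?_, ?_, a5, a6⟩
        · show u' e ≠ 0
          rw [hoff e fun h3 => h1 (S.sc.iseqv.trans h3 (S.sc.iseqv.symm a1))]; exact a3
        · show u' e' ≠ 0
          rw [hoff e' fun h3 => h1 (S.sc.iseqv.trans h3 (S.sc.iseqv.symm a2))]; exact a4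
  have hq : ∀ c, Sol (wU S u') L' c → ∀ d, S.sc.r d0 d → Vi S c d := by
    intro c hc d hd
    obtain ⟨e, he, hu⟩ : ∃ e, S.sc.r d0 e ∧ u' e ≠ 0 := by
      by_contra hn
      push Not at hn
      have : fu (wU S u') d0 = 0 := by
        refine Finset.sum_eq_zero fun e _ => ?_
        show (if S.sc.r d0 e then u' e else 0) = 0
        split_ifs with h2
        · exact hn e h2
        · rfl
      omega
    exact vi_cl (S := S) (S.sc.iseqv.trans (S.sc.iseqv.symm he) hd) (hc.req e hu)
  refine h.upg hΔ w1 wf hthr ?_ fun c hc => ⟨hc.con, hc.live, fun d hd => ?_, fun d hd => ?_⟩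
  · have e1 : ∀ (T : St D V), (∀ d e, T.sc.r d e ↔ S.sc.r d e) →
        ∑ d, T.u d * cw (fu T d) = cw (fu T d0) * fu T d0 +
        ∑ d, if S.sc.r d0 d then 0 else T.u d * cw (fu T d) := by
      intro T hT
      have : cw (fu T d0) * fu T d0 = ∑ d, if S.sc.r d0 d then T.u d * cw (fu T d) else 0 := by
        unfold fu
        rw [Finset.mul_sum]
        refine Finset.sum_congr rfl fun d _ => ?_
        by_cases h1 : S.sc.r d0 d
        · have h2 : fu T d0 = fu T d := fu_sc ((hT _ _).2 h1)
          rw [if_pos h1, if_pos ((hT _ _).2 h1), mul_comm]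
          unfold fu at h2
          rw [h2]
        · rw [if_neg h1, if_neg (fun h2 => h1 ((hT _ _).1 h2)), mul_zero]
      rw [this, ← Finset.sum_add_distrib]
      refine Finset.sum_congr rfl fun d _ => ?_
      split_ifs <;> simp
    have e2 := e1 S fun _ _ => Iff.rfl
    have e3 := e1 (wU S u') fun _ _ => Iff.rfl
    have e4 : (∑ d, if S.sc.r d0 d then 0 else (wU S u').u d * cw (fu (wU S u') d)) =
        ∑ d, if S.sc.r d0 d then 0 else S.u d * cw (fu S d) := by
      refine Finset.sum_congr rfl fun d _ => ?_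
      by_cases h1 : S.sc.r d0 d
      · rw [if_pos h1, if_pos h1]
      · rw [if_neg h1, if_neg h1, hfo d h1]
        show u' d * _ = _
        rw [hoff d h1]
    have e5 : n3 (wU S u') = n3 S := rfl
    rw [cw3 h3] at e3
    unfold rq
    rw [e2, e3, e4, e5]
    omega
  · by_cases h1 : S.sc.r d0 d
    · exact hq c hc d h1
    · exact hc.req d (by show u' d ≠ 0; rw [hoff d h1]; exact hd)
  · by_cases h1 : L' d = true
    · exact hc.lab d h1
    · rcases hL2 d hd (by simpa using h1) with h2 | h2
      · exact Or.inl (hq c hc _ h2)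
      · exact Or.inr (hq c hc _ h2)

/-- a face with units has two or three units -/
theorem MC.fu23 (hΔ : Δ ≤ 6) (h : MC Δ S L w) {d : D} (hd : S.u d ≠ 0) :
    fu S d = 2 ∨ fu S d = 3 := by
  classical
  have h2 : 2 ≤ fu S d := by
    rcases h.ok.thr d hd with h1 | ⟨e, e', a1, a2, a3, a4, a5, a6⟩
    · omega
    · have hne : e ≠ e' := fun hh => a5 (by rw [hh])
      have h5 : ∑ x ∈ {e, e'}, (if S.sc.r d x then S.u x else 0) ≤ fu S d :=
        Finset.sum_le_sum_of_subset (Finset.subset_univ _)
      rw [Finset.sum_pair hne, if_pos a1, if_pos a2] at h5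
      omega
  by_contra hn
  have h4 : 4 ≤ fu S d := by omega
  let u' : D → ℕ := fun e => if e = d then S.u e - 1 else S.u e
  have hfu : ∀ e, S.sc.r d e → fu (wU S u') e + 1 = fu S e := by
    intro e he
    have : fu S e = fu (wU S u') e + ∑ x, if x = d then 1 else 0 := by
      unfold fu
      rw [← Finset.sum_add_distrib]
      refine Finset.sum_congr rfl fun x _ => ?_
      show (if S.sc.r e x then S.u x else 0) = (if S.sc.r e x then u' x else 0) + _
      by_cases h1 : x = d
      · subst h1
        rw [if_pos (S.sc.iseqv.symm he), if_pos (S.sc.iseqv.symm he), if_pos rfl]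
        show S.u x = (if x = x then S.u x - 1 else S.u x) + 1
        rw [if_pos rfl]
        omega
      · rw [if_neg h1, add_zero]
        show _ = if S.sc.r e x then (if x = d then S.u x - 1 else S.u x) else 0
        rw [if_neg h1]
    rw [this]; simp
  refine h.units hΔ (u' := u') (fun e => ?_) ⟨d, ?_⟩ fun e he => ?_
  · show (if e = d then S.u e - 1 else S.u e) ≤ S.u e
    split_ifs <;> omega
  · show (if d = d then S.u d - 1 else S.u d) < S.u d
    rw [if_pos rfl]; omega
  · by_cases h1 : S.sc.r d e
    · left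
      have := hfu e h1
      rw [← fu_sc h1] at this
      omega
    · right
      intro x hx
      show (if x = d then S.u x - 1 else S.u x) = S.u x
      rw [if_neg]
      rintro rfl
      exact h1 (S.sc.iseqv.symm hx)

end Pool.FC7
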