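import Pool.Agent.FC7.UpA

/-! # Upgrades, part 2: full vertices and labels -/

open Finset

set_option linter.unusedSectionVars false

namespace Pool.FC7

open Pool.FC6 Pool.FC6.St

variable {D V : Type} [Fintype D] [DecidableEq V] {S : St D V} {L : D → Bool} {w : D → ℕ} {Δ : ℕ}

theorem wf_wU (W : Wf Δ S L w) {u' : D → ℕ} {L' : D → Bool} {w' : D → ℕ} (w1 : W1 L' w')
    (uA : ∀ d, u' d ≠ 0 → S.M.v d ∈ S.A) (hL : ∀ d, L' d = true → L d = true)
    (hα : ∀ d, L' (S.M.α d) = L' d) (hd : ∀ x ∈ S.A, wt (wU S u') w' x ≤ Δ) :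
    Wf Δ (wU S u') L' w' where
  real_α := W.real_α
  real_A := W.real_A
  real_ne := W.real_ne
  A_im := W.A_im
  u_A := uA
  L_real d h := W.L_real d (hL d h)
  L_α := hα
  w_L d h := by
    rw [w1 d] at h
    by_contra hn
    rw [if_neg hn] at h
    exact h rfl
  w_α d := by
    rw [w1, w1]
    have := hα d
    show (if L' (S.M.α d) = true then 1 else 0) = _
    rw [this]
  deg := hd
  simple := W.simple
  ex := W.ex

theorem wt_add {u' : D → ℕ} {w' : D → ℕ} {x : V} {p q : D → ℕ}
    (h : ∀ d, u' d + w' d + q d = S.u d + w d + p d) :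
    wt (wU S u') w' x + (∑ d, if S.M.v d = x then q d else 0) =
      wt S w x + ∑ d, if S.M.v d = x then p d else 0 := by
  unfold wt
  rw [← Finset.sum_add_distrib, ← Finset.sum_add_distrib]
  refine Finset.sum_congr rfl fun d _ => ?_
  have := h d
  show (if S.M.v d = x then (if S.real d = true then 1 else 0) + u' d + w' d else 0) + _ = _
  split_ifs <;> omega

section one

open Classical in
/-- the indicator of a dart -/
noncomputable def dl1 (a : D) (x : D) : ℕ := if x = a then 1 else 0

theorem sum_dl1 (a : D) : ∑ x, dl1 a x = 1 := by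
  classical
  unfold dl1
  rw [Finset.sum_ite_eq' Finset.univ a]; simp

theorem sum_dl1_if (P : D → Prop) [DecidablePred P] (a : D) :
    (∑ x, if P x then dl1 a x else 0) = if P a then 1 else 0 := by
  classical
  unfold dl1
  rw [Finset.sum_eq_single a]
  · simp
  · intro b _ hb
    rw [if_neg hb]; simp
  · intro h; exact absurd (Finset.mem_univ a) h

theorem dl1_self (a : D) : dl1 a a = 1 := by unfold dl1; rw [if_pos rfl]

theorem dl1_ne {a x : D} (h : x ≠ a) : dl1 a x = 0 := by unfold dl1; rw [if_neg h]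

end one

/-- the vertices of a face with two units are full -/
theorem MC.full2 (hΔ : Δ ≤ 6) (h : MC Δ S L w) {d e : D} (h2 : fu S d = 2) (he : S.sc.r d e)
    (hA : S.M.v e ∈ S.A) : Δ ≤ wt S w (S.M.v e) := by
  classical
  by_contra hn
  push Not at hn
  have W := h.ok.toWf
  let u' : D → ℕ := fun x => S.u x + dl1 e x
  have hf : fu (wU S u') d = 3 := by
    have : fu (wU S u') d = fu S d + ∑ x, if S.sc.r d x then dl1 e x else 0 := by
      unfold fu
      rw [← Finset.sum_add_distrib]
      refine Finset.sum_congr rfl fun x _ => ?_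
      show (if S.sc.r d x then S.u x + dl1 e x else 0) = _
      split_ifs <;> omega
    rw [this, sum_dl1_if, if_pos he, h2]
  refine h.repl hΔ (d0 := d) (u' := u') (L' := L) (w' := w) h.w1 ?_ (fun x hx => ?_) (by omega)
    (fun _ h => h) (fun x h1 h2 => by rw [h1] at h2; exact absurd h2 (by simp)) ?_
  · refine wf_wU W h.w1 (fun x hx => ?_) (fun _ h => h) W.L_α fun x hx => ?_
    · by_cases h3 : x = e
      · rw [h3]; exact hA
      · have : u' x = S.u x := by show S.u x + dl1 e x = _; rw [dl1_ne h3]; rfl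
        rw [this] at hx
        exact W.u_A x hx
    · have := wt_add (S := S) (u' := u') (w := w) (w' := w) (x := x) (p := dl1 e) (q := fun _ => 0)
        (fun d => by show S.u d + dl1 e d + w d + 0 = _; omega)
      rw [sum_dl1_if (fun d => S.M.v d = x)] at this
      simp only [ite_self, Finset.sum_const_zero, add_zero] at this
      rw [this]
      have hdx : wt S w x ≤ Δ := W.deg x hx
      split_ifs with h4
      · rw [← h4]; omega
      · omega
  · show S.u x + dl1 e x = S.u x
    rw [dl1_ne]; rfl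
    rintro rfl; exact hx he
  · rw [hf, h2, show cw 2 = 3054 from rfl]
    omega

/-- the labels without `d` -/
noncomputable def Lm (S : St D V) (L : D → Bool) (d : D) : D → Bool :=
  open Classical in fun x => L x && decide (x ≠ d) && decide (x ≠ S.M.α d)

theorem Lm_iff {d x : D} : Lm S L d x = true ↔ L x = true ∧ x ≠ d ∧ x ≠ S.M.α d := by
  unfold Lm; simp [and_assoc]

theorem Lm_le {d x : D} (h : Lm S L d x = true) : L x = true := (Lm_iff.1 h).1

theorem Lm_α (W : ∀ d, L (S.M.α d) = L d) (d x : D) : Lm S L d (S.M.α x) = Lm S L d x := by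
  have h1 : ∀ y, Lm S L d (S.M.α y) = true → Lm S L d y = true := by
    intro y hy
    obtain ⟨a, b, c⟩ := Lm_iff.1 hy
    refine Lm_iff.2 ⟨by rw [← W]; exact a, fun h => c (by rw [h]), fun h => b ?_⟩
    rw [h, S.M.αα]
  by_cases h : Lm S L d x = true
  · rw [h]
    exact h1 _ (by rw [S.M.αα]; exact h)
  · have : Lm S L d (S.M.α x) ≠ true := fun hh => h (h1 x hh)
    simp only [Bool.not_eq_true] at h this
    rw [h, this]

/-- labels = remaining labels + two darts -/
theorem Lm_dl (W : ∀ d, L (S.M.α d) = L d) {d : D} (hd : L d = true) (hne : d ≠ S.M.α d) (x : D) :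
    (if Lm S L d x = true then 1 else 0) + (dl1 d x + dl1 (S.M.α d) x) =
      if L x = true then 1 else 0 := by
  by_cases h1 : x = d
  · subst h1
    rw [dl1_self, dl1_ne hne, if_pos hd, if_neg]
    intro h; exact (Lm_iff.1 h).2.1 rfl
  · by_cases h2 : x = S.M.α d
    · subst h2
      have h3 : L (S.M.α d) = true := by rw [W]; exact hd
      rw [dl1_self, dl1_ne h1, if_pos h3, if_neg]
      intro h; exact (Lm_iff.1 h).2.2 rfl
    · rw [dl1_ne h1, dl1_ne h2]
      by_cases h3 : L x = true
      · rw [if_pos h3, if_pos (Lm_iff.2 ⟨h3, h1, h2⟩)]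
      · rw [if_neg h3, if_neg fun h => h3 (Lm_le h)]

theorem Lm_sum (W : ∀ d, L (S.M.α d) = L d) {d : D} (hd : L d = true) (hne : d ≠ S.M.α d) :
    (∑ x, if Lm S L d x = true then 1 else 0) + 2 = ∑ x, if L x = true then 1 else 0 := by
  rw [← Finset.sum_congr rfl fun x _ => Lm_dl (S := S) W hd hne x, Finset.sum_add_distrib,
    Finset.sum_add_distrib, sum_dl1, sum_dl1]

/-- no label next to a face with units -/
theorem MC.lab_no (hΔ : Δ ≤ 6) (h : MC Δ S L w) {d : D} (hd : L d = true) : fu S d = 0 := by
  classical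
  by_contra hf
  have W := h.ok.toWf
  have hne : d ≠ S.M.α d := by
    intro hh
    have := W.real_ne d (W.L_real d hd)
    rw [← hh] at this
    exact this rfl
  have hα := W.L_α
  obtain ⟨e, he, hu⟩ : ∃ e, S.sc.r d e ∧ S.u e ≠ 0 := by
    by_contra hn
    push Not at hn
    refine hf (Finset.sum_eq_zero fun e _ => ?_)
    split_ifs with h2
    · exact hn e h2
    · rfl
  have hs := Lm_sum (S := S) hα hd hne
  refine h.upg hΔ (u' := S.u) (L' := Lm S L d) (w' := fun x => if Lm S L d x = true then 1 else 0)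
    (fun _ => rfl) (wf_wU W (fun _ => rfl) W.u_A (fun _ => Lm_le) (Lm_α hα d) fun x hx => ?_)
    h.ok.thr ?_ fun c hc => ⟨hc.con, hc.live, hc.req, fun x hx => ?_⟩
  · have := wt_add (S := S) (u' := S.u) (w := w)
      (w' := fun x => if Lm S L d x = true then 1 else 0) (x := x) (p := fun _ => 0)
      (q := fun x => dl1 d x + dl1 (S.M.α d) x) (fun y => by
        have h1 := Lm_dl (S := S) hα hd hne y
        have h2 := h.w1 y
        beta_reduce
        omega)
    simp only [ite_self, Finset.sum_const_zero, add_zero] at this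
    have hdx : wt S w x ≤ Δ := W.deg x hx
    omega
  · have e1 : rq (wU S S.u) (Lm S L d) + 6108 = rq S L := by
      show (∑ d, S.u d * cw (fu S d)) + 3054 * (∑ x, if Lm S L d x = true then 1 else 0) +
        6120 * n3 S + 6108 = (∑ d, S.u d * cw (fu S d)) + 3054 * _ + 6120 * n3 S
      rw [← hs]; omega
    omega
  · by_cases h1 : Lm S L d x = true
    · exact hc.lab x h1
    · have hv : Vi S c d := vi_cl (S.sc.iseqv.symm he) (hc.req e hu)
      by_cases h2 : x = d
      · rw [h2]; exact Or.inl hv
      · by_cases h3 : x = S.M.α d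
        · right
          rw [h3, S.M.αα]; exact hv
        · exact absurd (Lm_iff.2 ⟨hx, h2, h3⟩) h1

end Pool.FC7
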