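import Pool.Agent.FC7.UpB

/-! # Upgrades, part 3: the faces at a label -/

open Finset

set_option linter.unusedSectionVars false

namespace Pool.FC7

open Pool.FC6 Pool.FC6.St

variable {D V : Type} [Fintype D] [DecidableEq V] {S : St D V} {L : D → Bool} {w : D → ℕ} {Δ : ℕ}

/-- three new units on a face without units -/
theorem fu_three {d a b e : D} (h0 : fu S d = 0) (ha : S.sc.r d a) (hb : S.sc.r d b)
    (he : S.sc.r d e) : fu (wU S fun x => S.u x + (dl1 a x + dl1 b x + dl1 e x)) d = 3 := by
  classical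
  have : fu (wU S fun x => S.u x + (dl1 a x + dl1 b x + dl1 e x)) d = fu S d +
      ((∑ x, if S.sc.r d x then dl1 a x else 0) + (∑ x, if S.sc.r d x then dl1 b x else 0) +
        (∑ x, if S.sc.r d x then dl1 e x else 0)) := by
    unfold fu
    rw [← Finset.sum_add_distrib, ← Finset.sum_add_distrib, ← Finset.sum_add_distrib]
    refine Finset.sum_congr rfl fun x _ => ?_
    show (if S.sc.r d x then S.u x + (dl1 a x + dl1 b x + dl1 e x) else 0) = _
    split_ifs <;> omega
  rw [this, sum_dl1_if, sum_dl1_if, sum_dl1_if, if_pos ha, if_pos hb, if_pos he, h0]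

theorem sc_φ (S : St D V) (d : D) : S.sc.r d (S.M.φ d) := fun t ht => (ht.1 d).symm

/-- the vertices of the faces at a label are full -/
theorem MC.full_lab (hΔ : Δ ≤ 6) (h : MC Δ S L w) {d e : D} (hd : L d = true)
    (he : S.sc.r d e) (hA : S.M.v e ∈ S.A) : Δ ≤ wt S w (S.M.v e) := by
  classical
  by_contra hn
  push Not at hn
  have W := h.ok.toWf
  have h0 := h.lab_no hΔ hd
  have hα := W.L_α
  have hdr := W.L_real d hd
  have hne : d ≠ S.M.α d := by
    intro hh
    have := W.real_ne d hdr
    rw [← hh] at this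
    exact this rfl
  have hs := Lm_sum (S := S) hα hd hne
  have hvb : S.M.v (S.M.φ d) = S.M.v (S.M.α d) := S.M.vφ d
  have hf := fu_three h0 (S.sc.iseqv.refl d) (sc_φ S d) he
  set u' : D → ℕ := fun x => S.u x + (dl1 d x + dl1 (S.M.φ d) x + dl1 e x) with hu'
  refine h.repl hΔ (d0 := d) (u' := u') (L' := Lm S L d)
    (w' := fun x => if Lm S L d x = true then 1 else 0) (fun _ => rfl) ?_ (fun x hx => ?_)
    (by omega) (fun _ h => Lm_le h) (fun x h1 h2 => ?_) ?_
  · refine wf_wU W (fun _ => rfl) (fun x hx => ?_) (fun _ => Lm_le) (Lm_α hα d) fun x hx => ?_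
    · by_cases h3 : x = e
      · rw [h3]; exact hA
      by_cases h4 : x = d
      · rw [h4]; exact W.real_A d hdr
      by_cases h5 : x = S.M.φ d
      · rw [h5, hvb]; exact W.real_A _ (by rw [W.real_α]; exact hdr)
      have : u' x = S.u x := by
        show S.u x + (dl1 d x + dl1 (S.M.φ d) x + dl1 e x) = _
        rw [dl1_ne h3, dl1_ne h4, dl1_ne h5]; rfl
      rw [this] at hx
      exact W.u_A x hx
    · have := wt_add (S := S) (u' := u') (w := w)
        (w' := fun x => if Lm S L d x = true then 1 else 0) (x := x)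
        (p := fun x => dl1 d x + dl1 (S.M.φ d) x + dl1 e x)
        (q := fun x => dl1 d x + dl1 (S.M.α d) x) (fun y => by
          have h1 := Lm_dl (S := S) hα hd hne y
          have h2 := h.w1 y
          show S.u y + (dl1 d y + dl1 (S.M.φ d) y + dl1 e y) +
            (if Lm S L d y = true then 1 else 0) + (dl1 d y + dl1 (S.M.α d) y) =
            S.u y + w y + (dl1 d y + dl1 (S.M.φ d) y + dl1 e y)
          omega)
      have s2 : ∀ a b : D, (∑ y, if S.M.v y = x then dl1 a y + dl1 b y else 0) =
          (if S.M.v a = x then 1 else 0) + (if S.M.v b = x then 1 else 0) := by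
        intro a b
        rw [← sum_dl1_if (fun d => S.M.v d = x) a, ← sum_dl1_if (fun d => S.M.v d = x) b,
          ← Finset.sum_add_distrib]
        refine Finset.sum_congr rfl fun y _ => ?_
        split_ifs <;> rfl
      have s3 : (∑ y, if S.M.v y = x then dl1 d y + dl1 (S.M.φ d) y + dl1 e y else 0) =
          (if S.M.v d = x then 1 else 0) + (if S.M.v (S.M.φ d) = x then 1 else 0) +
            (if S.M.v e = x then 1 else 0) := by
        rw [← s2, ← sum_dl1_if (fun d => S.M.v d = x) e, ← Finset.sum_add_distrib]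
        refine Finset.sum_congr rfl fun y _ => ?_
        split_ifs <;> rfl
      rw [s2, s3, hvb] at this
      have hdx : wt S w x ≤ Δ := W.deg x hx
      by_cases h4 : S.M.v e = x
      · rw [if_pos h4] at this
        rw [h4] at hn
        omega
      · rw [if_neg h4] at this
        omega
  · show S.u x + (dl1 d x + dl1 (S.M.φ d) x + dl1 e x) = S.u x
    have k1 : x ≠ d := fun hh => hx (hh ▸ S.sc.iseqv.refl d)
    have k2 : x ≠ S.M.φ d := fun hh => hx (by rw [hh]; exact sc_φ S d)
    have k3 : x ≠ e := fun hh => hx (by rw [hh]; exact he)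
    rw [dl1_ne k1, dl1_ne k2, dl1_ne k3]
    rfl
  · by_cases h3 : x = d
    · left; rw [h3]
    · by_cases h4 : x = S.M.α d
      · right; rw [h4, S.M.αα]
      · have := Lm_iff.2 ⟨h1, h3, h4⟩
        rw [h2] at this
        exact absurd this (by simp)
  · rw [hf, h0, ← hs]
    omega

/-- a face has at most one label -/
theorem MC.lab_one (hΔ : Δ ≤ 6) (h : MC Δ S L w) {d e : D} (hd : L d = true) (hl : L e = true)
    (he : S.sc.r d e) : e = d ∨ e = S.M.α d := by
  classical
  by_contra hn
  push Not at hn
  obtain ⟨n1, n2⟩ := hn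
  have W := h.ok.toWf
  have h0 := h.lab_no hΔ hd
  have hα := W.L_α
  have hdr := W.L_real d hd
  have hne : ∀ {z}, L z = true → z ≠ S.M.α z := by
    intro z hz hh
    have := W.real_ne z (W.L_real z hz)
    rw [← hh] at this
    exact this rfl
  have hl' : Lm S L d e = true := Lm_iff.2 ⟨hl, n1, n2⟩
  have hα' : ∀ x, Lm S L d (S.M.α x) = Lm S L d x := Lm_α hα d
  have hs := Lm_sum (S := S) hα hd (hne hd)
  have hs' := Lm_sum (S := S) hα' hl' (hne hl)
  have hvb : S.M.v (S.M.φ d) = S.M.v (S.M.α d) := S.M.vφ d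
  have hf := fu_three h0 (S.sc.iseqv.refl d) (sc_φ S d) he
  set u' : D → ℕ := fun x => S.u x + (dl1 d x + dl1 (S.M.φ d) x + dl1 e x) with hu'
  set L' := Lm S (Lm S L d) e with hL'
  have hle : ∀ {x}, L' x = true → L x = true := fun hx => Lm_le (Lm_le hx)
  refine h.repl hΔ (d0 := d) (u' := u') (L' := L')
    (w' := fun x => if L' x = true then 1 else 0) (fun _ => rfl) ?_ (fun x hx => ?_)
    (by omega) (fun _ h => hle h) (fun x h1 h2 => ?_) ?_
  · refine wf_wU W (fun _ => rfl) (fun x hx => ?_) (fun _ => hle) (Lm_α hα' e) fun x hx => ?_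
    · by_cases h3 : x = e
      · rw [h3]; exact W.real_A e (W.L_real e hl)
      by_cases h4 : x = d
      · rw [h4]; exact W.real_A d hdr
      by_cases h5 : x = S.M.φ d
      · rw [h5, hvb]; exact W.real_A _ (by rw [W.real_α]; exact hdr)
      have : u' x = S.u x := by
        show S.u x + (dl1 d x + dl1 (S.M.φ d) x + dl1 e x) = _
        rw [dl1_ne h3, dl1_ne h4, dl1_ne h5]; rfl
      rw [this] at hx
      exact W.u_A x hx
    · have := wt_add (S := S) (u' := u') (w := w)
        (w' := fun x => if L' x = true then 1 else 0) (x := x)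
        (p := fun x => dl1 d x + dl1 (S.M.φ d) x + dl1 e x)
        (q := fun x => (dl1 d x + dl1 (S.M.α d) x) + (dl1 e x + dl1 (S.M.α e) x)) (fun y => by
          have h1 := Lm_dl (S := S) hα hd (hne hd) y
          have h1' : (if L' y = true then 1 else 0) + (dl1 e y + dl1 (S.M.α e) y) =
              if Lm S L d y = true then 1 else 0 := Lm_dl (S := S) hα' hl' (hne hl) y
          have h2 := h.w1 y
          show S.u y + (dl1 d y + dl1 (S.M.φ d) y + dl1 e y) +
            (if L' y = true then 1 else 0) + ((dl1 d y + dl1 (S.M.α d) y) +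
              (dl1 e y + dl1 (S.M.α e) y)) =
            S.u y + w y + (dl1 d y + dl1 (S.M.φ d) y + dl1 e y)
          omega)
      have s2 : ∀ a b : D, (∑ y, if S.M.v y = x then dl1 a y + dl1 b y else 0) =
          (if S.M.v a = x then 1 else 0) + (if S.M.v b = x then 1 else 0) := by
        intro a b
        rw [← sum_dl1_if (fun d => S.M.v d = x) a, ← sum_dl1_if (fun d => S.M.v d = x) b,
          ← Finset.sum_add_distrib]
        refine Finset.sum_congr rfl fun y _ => ?_
        split_ifs <;> rfl
      have s3 : (∑ y, if S.M.v y = x then dl1 d y + dl1 (S.M.φ d) y + dl1 e y else 0) =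
          (if S.M.v d = x then 1 else 0) + (if S.M.v (S.M.φ d) = x then 1 else 0) +
            (if S.M.v e = x then 1 else 0) := by
        rw [← s2, ← sum_dl1_if (fun d => S.M.v d = x) e, ← Finset.sum_add_distrib]
        refine Finset.sum_congr rfl fun y _ => ?_
        split_ifs <;> rfl
      have s4 : (∑ y, if S.M.v y = x then (dl1 d y + dl1 (S.M.α d) y) +
          (dl1 e y + dl1 (S.M.α e) y) else 0) =
          ((if S.M.v d = x then 1 else 0) + (if S.M.v (S.M.α d) = x then 1 else 0)) +
            ((if S.M.v e = x then 1 else 0) + (if S.M.v (S.M.α e) = x then 1 else 0)) := by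
        rw [← s2, ← s2, ← Finset.sum_add_distrib]
        refine Finset.sum_congr rfl fun y _ => ?_
        split_ifs <;> rfl
      rw [s4, s3, hvb] at this
      have hdx : wt S w x ≤ Δ := W.deg x hx
      omega
  · show S.u x + (dl1 d x + dl1 (S.M.φ d) x + dl1 e x) = S.u x
    have k1 : x ≠ d := fun hh => hx (hh ▸ S.sc.iseqv.refl d)
    have k2 : x ≠ S.M.φ d := fun hh => hx (by rw [hh]; exact sc_φ S d)
    have k3 : x ≠ e := fun hh => hx (by rw [hh]; exact he)
    rw [dl1_ne k1, dl1_ne k2, dl1_ne k3]
    rfl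
  · by_cases h3 : x = d
    · left; rw [h3]
    by_cases h4 : x = S.M.α d
    · right; rw [h4, S.M.αα]
    by_cases h5 : x = e
    · left; rw [h5]; exact he
    by_cases h6 : x = S.M.α e
    · right; rw [h6, S.M.αα]; exact he
    · have := (Lm_iff (S := S)).2 ⟨(Lm_iff (S := S)).2 ⟨h1, h3, h4⟩, h5, h6⟩
      rw [← hL', h2] at this
      exact absurd this (by simp)
  · rw [hf, h0, ← hs, ← hs']
    omega

end Pool.FC7
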