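import Pool.Agent.FC7.KfC

/-! # Vectors with lanes of 16 bits -/

open Finset

set_option linter.unusedSectionVars false

namespace Pool.FC7

namespace Vc

/-- the number with the digits `f i` -/
def vec (n : ℕ) (f : ℕ → ℕ) : ℕ := ∑ i ∈ Finset.range n, f i * 65536 ^ i

variable {n k s : ℕ} {f g : ℕ → ℕ}

theorem vec_congr (h : ∀ i < n, f i = g i) : vec n f = vec n g :=
  Finset.sum_congr rfl fun i hi => by rw [h i (Finset.mem_range.1 hi)]

theorem vec_add (n : ℕ) (f g : ℕ → ℕ) : vec n f + vec n g = vec n fun i => f i + g i := by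
  unfold vec
  rw [← Finset.sum_add_distrib]
  exact Finset.sum_congr rfl fun i _ => by rw [add_mul]

theorem vec_mul (k n : ℕ) (f : ℕ → ℕ) : k * vec n f = vec n fun i => k * f i := by
  unfold vec
  rw [Finset.mul_sum]
  exact Finset.sum_congr rfl fun i _ => by rw [mul_assoc]

theorem vec_zero (n : ℕ) : vec n (fun _ => 0) = 0 := by
  unfold vec
  simp

theorem vec_succ (n : ℕ) (f : ℕ → ℕ) : vec (n + 1) f = 65536 * vec n (fun i => f (i + 1)) + f 0 := by
  unfold vec
  rw [Finset.sum_range_succ', Finset.mul_sum, pow_zero, mul_one]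
  congr 1
  exact Finset.sum_congr rfl fun i _ => by rw [pow_succ]; ring

theorem vec_le (h : ∀ i < n, f i ≤ g i) : vec n f ≤ vec n g :=
  Finset.sum_le_sum fun i hi => Nat.mul_le_mul_right _ (h i (Finset.mem_range.1 hi))

theorem vec_sub (h : ∀ i < n, g i ≤ f i) : vec n f - vec n g = vec n fun i => f i - g i := by
  have e : vec n f = vec n (fun i => f i - g i) + vec n g := by
    rw [vec_add]
    exact vec_congr fun i hi => by have := h i hi; omega
  rw [e, Nat.add_sub_cancel]

theorem vec_app (n k : ℕ) (f g : ℕ → ℕ) :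
    vec n f + vec k g * 65536 ^ n = vec (n + k) fun i => if i < n then f i else g (i - n) := by
  unfold vec
  rw [Finset.sum_range_add, Finset.sum_mul]
  congr 1
  · exact Finset.sum_congr rfl fun i hi => by
      beta_reduce
      rw [if_pos (Finset.mem_range.1 hi)]
  · refine Finset.sum_congr rfl fun i _ => ?_
    beta_reduce
    rw [if_neg (by omega), Nat.add_sub_cancel_left, pow_add]
    ring

theorem vec_split (n k : ℕ) (f : ℕ → ℕ) :
    vec (n + k) f = vec n f + vec k (fun i => f (i + n)) * 65536 ^ n := by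
  rw [vec_app]
  refine vec_congr fun i _ => ?_
  split_ifs with h
  · rfl
  · rw [Nat.sub_add_cancel (by omega)]

theorem vec_lt : ∀ {n : ℕ} {f : ℕ → ℕ}, (∀ i < n, f i < 65536) → vec n f < 65536 ^ n
  | 0, f, _ => by simp [vec]
  | n + 1, f, h => by
    rw [vec_succ]
    have h1 := vec_lt (n := n) (f := fun i => f (i + 1)) fun i hi => h (i + 1) (by omega)
    have h2 := h 0 (by omega)
    have h3 : 65536 ^ (n + 1) = 65536 * 65536 ^ n := by rw [pow_succ]; ring
    omega

theorem vec_bit : ∀ {n : ℕ} {f : ℕ → ℕ}, (∀ i < n, f i < 65536) → ∀ j,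
    (vec n f).testBit j = (decide (j / 16 < n) && (f (j / 16)).testBit (j % 16))
  | 0, f, _, j => by simp [vec]
  | n + 1, f, h, j => by
    rw [vec_succ]
    have h0 : f 0 < 2 ^ 16 := h 0 (by omega)
    have e : (65536 * vec n (fun i => f (i + 1)) + f 0).testBit j =
        (2 ^ 16 * vec n (fun i => f (i + 1)) + f 0).testBit j := rfl
    rw [e, Nat.testBit_two_pow_mul_add _ h0]
    split_ifs with hj
    · have e1 : j / 16 = 0 := Nat.div_eq_of_lt hj
      have e2 : j % 16 = j := Nat.mod_eq_of_lt hj
      rw [e1, e2]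
      simp
    · rw [vec_bit (n := n) (f := fun i => f (i + 1)) (fun i hi => h (i + 1) (by omega))]
      have e1 : (j - 16) / 16 + 1 = j / 16 := by omega
      have e2 : (j - 16) % 16 = j % 16 := by omega
      rw [e1, e2]
      congr 1
      rw [decide_eq_decide]
      omega

theorem testBit_hi {a j : ℕ} (ha : a < 65536) (hj : 16 ≤ j) : a.testBit j = false := by
  apply Nat.testBit_lt_two_pow
  calc a < 2 ^ 16 := ha
    _ ≤ 2 ^ j := Nat.pow_le_pow_right (by norm_num) hj

theorem vec_and (hf : ∀ i < n, f i < 65536) (hg : ∀ i < n, g i < 65536) :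
    vec n f &&& vec n g = vec n fun i => f i &&& g i := by
  apply Nat.eq_of_testBit_eq
  intro j
  rw [Nat.testBit_and, vec_bit hf, vec_bit hg, vec_bit fun i hi => ?_, Nat.testBit_and]
  · cases decide (j / 16 < n) <;> simp
  · exact lt_of_le_of_lt Nat.and_le_left (hf i hi)

theorem vec_or (hf : ∀ i < n, f i < 65536) (hg : ∀ i < n, g i < 65536) :
    vec n f ||| vec n g = vec n fun i => f i ||| g i := by
  apply Nat.eq_of_testBit_eq
  intro j
  rw [Nat.testBit_or, vec_bit hf, vec_bit hg, vec_bit fun i hi => ?_, Nat.testBit_or]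
  · cases decide (j / 16 < n) <;> simp
  · exact Nat.or_lt_two_pow (n := 16) (hf i hi) (hg i hi)

theorem vec_xor (hf : ∀ i < n, f i < 65536) (hg : ∀ i < n, g i < 65536) :
    vec n f ^^^ vec n g = vec n fun i => f i ^^^ g i := by
  apply Nat.eq_of_testBit_eq
  intro j
  rw [Nat.testBit_xor, vec_bit hf, vec_bit hg, vec_bit fun i hi => ?_, Nat.testBit_xor]
  · cases decide (j / 16 < n) <;> simp
  · exact Nat.xor_lt_two_pow (n := 16) (hf i hi) (hg i hi)

theorem vec_inj (hf : ∀ i < n, f i < 65536) (hg : ∀ i < n, g i < 65536) (h : vec n f = vec n g) :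
    ∀ i < n, f i = g i := by
  intro i hi
  apply Nat.eq_of_testBit_eq
  intro j
  by_cases hj : j < 16
  · have h1 := congrArg (fun x => Nat.testBit x (16 * i + j)) h
    simp only [vec_bit hf, vec_bit hg] at h1
    have e1 : (16 * i + j) / 16 = i := by omega
    have e2 : (16 * i + j) % 16 = j := by omega
    rw [e1, e2, decide_eq_true hi, Bool.true_and, Bool.true_and] at h1
    exact h1
  · rw [testBit_hi (hf i hi) (by omega), testBit_hi (hg i hi) (by omega)]

theorem pow16 (n : ℕ) : (65536 : ℕ) ^ n = 2 ^ (16 * n) := by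
  rw [pow_mul]
  norm_num

theorem vec_div (hf : ∀ i < n, f i < 65536) :
    vec (n + k) f >>> (16 * n) = vec k fun i => f (i + n) := by
  rw [vec_split, Nat.shiftRight_eq_div_pow, ← pow16, Nat.add_mul_div_right _ _ (by positivity),
    Nat.div_eq_of_lt (vec_lt hf), zero_add]

theorem vec_mod (hf : ∀ i < n, f i < 65536) : vec (n + k) f % 65536 ^ n = vec n f := by
  rw [vec_split, Nat.add_mul_mod_self_right, Nat.mod_eq_of_lt (vec_lt hf)]

/-! ### Comparison -/

theorem ge_lane {a b : ℕ} (ha : a < 32768) (hb : b < 32768) :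
    (a + 32768 - b) &&& 32768 = if b ≤ a then 32768 else 0 := by
  apply Nat.eq_of_testBit_eq
  intro j
  have e : (32768 : ℕ) = 2 ^ 15 := rfl
  rw [Nat.testBit_and]
  by_cases hj : j = 15
  · subst hj
    have h1 : (32768 : ℕ).testBit 15 = true := by decide
    rw [h1, Bool.and_true]
    split_ifs with h
    · have h2 : a + 32768 - b = 2 ^ 15 * 1 + (a - b) := by omega
      rw [h2, Nat.testBit_two_pow_mul_add _ (by omega)]
      rfl
    · rw [Nat.testBit_lt_two_pow (by omega)]
      simp
  · have h1 : (32768 : ℕ).testBit j = false := by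
      rw [e, Nat.testBit_two_pow_of_ne (Ne.symm hj)]
    rw [h1, Bool.and_false]
    split_ifs
    · exact h1.symm
    · simp

/-- the lanes with `g ≤ f`, H = vector of `32768` -/
def geM (H F G : ℕ) : ℕ := Nat.land (Nat.sub (Nat.add F H) G) H

theorem geM_eq (hf : ∀ i < n, f i < 32768) (hg : ∀ i < n, g i < 32768) :
    geM (vec n fun _ => 32768) (vec n f) (vec n g) =
      vec n fun i => if g i ≤ f i then 32768 else 0 := by
  have e1 : geM (vec n fun _ => 32768) (vec n f) (vec n g) =
      (vec n f + vec n (fun _ => 32768) - vec n g) &&& vec n fun _ => 32768 := rfl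
  rw [e1, vec_add, vec_sub fun i hi => by have := hg i hi; omega, vec_and
    (fun i hi => by have := hf i hi; omega) fun i _ => by norm_num]
  exact vec_congr fun i hi => ge_lane (hf i hi) (hg i hi)

/-- the difference (saturating) -/
def ssub (H F G : ℕ) : ℕ :=
  Nat.land (Nat.sub (Nat.add F H) G) (Nat.sub (geM H F G) (Nat.shiftRight (geM H F G) 15))

theorem shr15 (n : ℕ) (b : ℕ → Bool) :
    (vec n fun i => if b i then 32768 else 0) >>> 15 = vec n fun i => if b i then 1 else 0 := by
  have e : (vec n fun i => if b i then 32768 else 0) = 2 ^ 15 * vec n fun i => if b i then 1 else 0 := by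
    rw [vec_mul]
    exact vec_congr fun i _ => by split_ifs <;> rfl
  rw [e, Nat.shiftRight_eq_div_pow, Nat.mul_div_cancel_left _ (by norm_num)]

theorem ssub_eq (hf : ∀ i < n, f i < 32768) (hg : ∀ i < n, g i < 32768) :
    ssub (vec n fun _ => 32768) (vec n f) (vec n g) = vec n fun i => f i - g i := by
  have e1 : ssub (vec n fun _ => 32768) (vec n f) (vec n g) =
      (vec n f + vec n (fun _ => 32768) - vec n g) &&&
        (geM (vec n fun _ => 32768) (vec n f) (vec n g) -
          (geM (vec n fun _ => 32768) (vec n f) (vec n g)) >>> 15) := rfl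
  have e2 : (vec n fun i => if g i ≤ f i then 32768 else 0) =
      vec n fun i => if decide (g i ≤ f i) = true then 32768 else 0 :=
    vec_congr fun i _ => by
      by_cases h : g i ≤ f i
      · simp [h]
      · simp [h]
  rw [e1, geM_eq hf hg, e2, shr15, vec_sub fun i _ => by split_ifs <;> norm_num, vec_add,
    vec_sub fun i hi => by have := hg i hi; omega, vec_and
    (fun i hi => by have := hf i hi; omega) fun i _ => by split_ifs <;> norm_num]
  refine vec_congr fun i hi => ?_
  have h1 := hf i hi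
  have h2 := hg i hi
  by_cases h : g i ≤ f i
  · rw [decide_eq_true h, if_pos rfl, if_pos rfl]
    have e3 : f i + 32768 - g i = 2 ^ 15 * 1 + (f i - g i) := by omega
    have e4 : (32768 - 1 : ℕ) = 2 ^ 15 - 1 := rfl
    rw [e4, Nat.and_two_pow_sub_one_eq_mod, e3, Nat.mul_add_mod, Nat.mod_eq_of_lt (by omega)]
  · rw [decide_eq_false h, if_neg (by simp), if_neg (by simp)]
    rw [Nat.sub_self, Nat.and_zero]
    omega

/-- the minimum -/
def vmin (H F G : ℕ) : ℕ := Nat.sub F (ssub H F G)

theorem vmin_eq (hf : ∀ i < n, f i < 32768) (hg : ∀ i < n, g i < 32768) :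
    vmin (vec n fun _ => 32768) (vec n f) (vec n g) = vec n fun i => min (f i) (g i) := by
  have e1 : vmin (vec n fun _ => 32768) (vec n f) (vec n g) =
      vec n f - ssub (vec n fun _ => 32768) (vec n f) (vec n g) := rfl
  rw [e1, ssub_eq hf hg, vec_sub fun i _ => Nat.sub_le _ _]
  exact vec_congr fun i _ => by omega

end Vc

end Pool.FC7
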