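import Pool.Agent.FC7.VcA

/-! # Vectors over all colourings: the patterns of the labels -/

open Finset

set_option linter.unusedSectionVars false

namespace Pool.FC7

namespace Vc

variable {n k s : ℕ} {f g : ℕ → ℕ}

/-- the number of bits of `2 ^ M` lanes -/
def sh (M : ℕ) : ℕ := Nat.mul 16 (Nat.pow 2 M)

theorem sh_eq (M : ℕ) : sh M = 16 * 2 ^ M := rfl

/-- `2 ^ M` lanes with the entry `1` -/
noncomputable def on (M : ℕ) : ℕ :=
  Nat.rec (motive := fun _ => ℕ) 1 (fun M ih => Nat.add ih (Nat.shiftLeft ih (sh M))) M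

/-- two copies -/
def dup (M F : ℕ) : ℕ := Nat.add F (Nat.shiftLeft F (sh M))

theorem shl_vec (M : ℕ) (F : ℕ) : Nat.shiftLeft F (sh M) = F * 65536 ^ 2 ^ M := by
  have e : Nat.shiftLeft F (sh M) = F <<< sh M := rfl
  rw [e, Nat.shiftLeft_eq, sh_eq, pow16]

theorem dup_eq (M : ℕ) (f : ℕ → ℕ) :
    dup M (vec (2 ^ M) f) = vec (2 ^ (M + 1)) fun L => f (L % 2 ^ M) := by
  have e : dup M (vec (2 ^ M) f) = vec (2 ^ M) f + Nat.shiftLeft (vec (2 ^ M) f) (sh M) := rfl
  rw [e, shl_vec, vec_app, ← two_mul, ← pow_succ']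
  refine vec_congr fun i hi => ?_
  split_ifs with h
  · rw [Nat.mod_eq_of_lt h]
  · rw [pow_succ] at hi
    have : i % 2 ^ M = i - 2 ^ M := by
      rw [Nat.mod_eq_sub_mod (by omega), Nat.mod_eq_of_lt (by omega)]
    rw [this]

theorem on_eq : ∀ M, on M = vec (2 ^ M) fun _ => 1
  | 0 => by simp [on, vec]
  | M + 1 => by
    have e : on (M + 1) = dup M (on M) := rfl
    rw [e, on_eq M, dup_eq]

theorem on_k (k M : ℕ) : k * on M = vec (2 ^ M) fun _ => k := by
  rw [on_eq, vec_mul]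
  exact vec_congr fun _ _ => Nat.mul_one k

/-- the lanes whose index contains the bit `M` -/
theorem new_eq (M : ℕ) : Nat.shiftLeft (on M) (sh M) =
    vec (2 ^ (M + 1)) fun L => if L.testBit M = true then 1 else 0 := by
  have e : Nat.shiftLeft (on M) (sh M) = vec (2 ^ M) (fun _ => 0) + Nat.shiftLeft (on M) (sh M) := by
    rw [vec_zero, zero_add]
  rw [e, shl_vec, on_eq, vec_app, ← two_mul, ← pow_succ']
  refine vec_congr fun i hi => ?_
  split_ifs with h h2 h2
  · rw [Nat.testBit_lt_two_pow h] at h2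
    cases h2
  · rfl
  · rfl
  · exfalso
    apply h2
    have h3 := Nat.testBit_two_pow_add_eq (i - 2 ^ M) M
    rw [Nat.add_sub_cancel' (by omega), Nat.testBit_lt_two_pow (x := i - 2 ^ M) (by
      rw [pow_succ] at hi; omega)] at h3
    simpa using h3

/-- further bits -/
noncomputable def st (M0 : ℕ) (l0 : List ℕ) (i : ℕ) : List ℕ :=
  Nat.rec (motive := fun _ => List ℕ) l0
    (fun i ih => Nat.shiftLeft (on (Nat.add M0 i)) (sh (Nat.add M0 i)) ::
      K.lmap (dup (Nat.add M0 i)) ih) i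

theorem getD_map {α β : Type} (f : α → β) (l : List α) (a : ℕ) (d : α) :
    (l.map f).getD a (f d) = f (l.getD a d) := by
  rw [List.getD_eq_getElem?_getD, List.getD_eq_getElem?_getD, List.getElem?_map]
  cases l[a]? <;> rfl

theorem getD_map0 {f : ℕ → ℕ} (h0 : f 0 = 0) (l : List ℕ) (a : ℕ) :
    (l.map f).getD a 0 = f (l.getD a 0) := by
  have := getD_map f l a 0
  rwa [h0] at this

theorem dup_zero (M : ℕ) : dup M 0 = 0 := by
  unfold dup
  show 0 + 0 <<< _ = 0
  simp

theorem st_sem {M0 : ℕ} {l0 : List ℕ} {β : ℕ → ℕ → Bool}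
    (h : ∀ a, l0.getD a 0 = vec (2 ^ M0) fun L => if β a L = true then 1 else 0)
    (hβ : ∀ a L, β a (L % 2 ^ M0) = β a L) : ∀ i a, (st M0 l0 i).getD a 0 =
      vec (2 ^ (M0 + i)) fun L => if (if a < i then L.testBit (M0 + i - 1 - a)
        else β (a - i) L) = true then 1 else 0
  | 0, a => by
    have e : st M0 l0 0 = l0 := rfl
    rw [e, h a]
    refine vec_congr fun L _ => ?_
    rw [if_neg (by omega : ¬ a < 0), Nat.sub_zero]
  | i + 1, 0 => by
    have e : (st M0 l0 (i + 1)).getD 0 0 = Nat.shiftLeft (on (M0 + i)) (sh (M0 + i)) := rfl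
    rw [e, new_eq, ← add_assoc]
    refine vec_congr fun L _ => ?_
    rw [if_pos (Nat.succ_pos i)]
    have e2 : M0 + i + 1 - 1 - 0 = M0 + i := by omega
    rw [e2]
  | i + 1, a + 1 => by
    have e : (st M0 l0 (i + 1)).getD (a + 1) 0 =
        (K.lmap (dup (M0 + i)) (st M0 l0 i)).getD a 0 := rfl
    rw [e, K.lmap_eq, getD_map0 (dup_zero _), st_sem h hβ i a, dup_eq, ← add_assoc]
    refine vec_congr fun L _ => ?_
    have e2 : M0 + i + 1 - 1 - (a + 1) = M0 + i - 1 - a := by omega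
    have e3 : a + 1 - (i + 1) = a - i := by omega
    rw [e2, e3]
    by_cases ha : a < i
    · rw [if_pos ha, if_pos (show a + 1 < i + 1 by omega), Nat.testBit_mod_two_pow,
        decide_eq_true (by omega : M0 + i - 1 - a < M0 + i), Bool.true_and]
    · rw [if_neg ha, if_neg (show ¬ a + 1 < i + 1 by omega)]
      have e4 : β (a - i) (L % 2 ^ (M0 + i)) = β (a - i) L := by
        rw [← hβ (a - i) (L % 2 ^ (M0 + i)), Nat.mod_mod_of_dvd _ (pow_dvd_pow 2 (Nat.le_add_right M0 i)),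
          hβ]
      rw [e4]

/-- the patterns: `k1` outer bits, the label without colour, `i` inner bits -/
noncomputable def xt (k1 i : ℕ) : List ℕ := st k1 (0 :: st 0 [] k1) i

/-- the bit of the label number `a` in the lane `L` -/
def bt (k1 i a L : ℕ) : Bool :=
  if a < i then L.testBit (k1 + i - 1 - a)
  else decide (i < a) && decide (a ≤ i + k1) && (L % 2 ^ k1).testBit (k1 + i - a)

theorem xt_sem (k1 i a : ℕ) : (xt k1 i).getD a 0 =
    vec (2 ^ (k1 + i)) fun L => if bt k1 i a L = true then 1 else 0 := by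
  have h1 : ∀ a, (st 0 [] k1).getD a 0 = vec (2 ^ k1) fun L => if (if a < k1 then
      L.testBit (k1 - 1 - a) else false) = true then 1 else 0 := by
    intro a
    rw [st_sem (M0 := 0) (l0 := []) (β := fun _ _ => false) (fun a => ?_) (fun _ _ => rfl), zero_add]
    rw [List.getD_nil]
    simp [vec]
  have h2 : ∀ a, ((0 :: st 0 [] k1) : List ℕ).getD a 0 = vec (2 ^ k1) fun L =>
      if (decide (0 < a) && decide (a ≤ k1) && (L % 2 ^ k1).testBit (k1 - a)) = true then 1 else 0 := by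
    intro a
    cases a with
    | zero =>
      rw [List.getD_cons_zero]
      simp [vec]
    | succ a =>
      rw [List.getD_cons_succ, h1 a]
      refine vec_congr fun L hL => ?_
      rw [Nat.mod_eq_of_lt hL]
      by_cases ha : a < k1
      · rw [if_pos ha, decide_eq_true (Nat.succ_pos a), decide_eq_true (by omega : a + 1 ≤ k1)]
        have e : k1 - 1 - a = k1 - (a + 1) := by omega
        rw [e]; rfl
      · rw [if_neg ha, decide_eq_false (by omega : ¬ a + 1 ≤ k1)]
        simp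
  rw [xt, st_sem h2 (fun a L => by rw [Nat.mod_mod]) i a]
  refine vec_congr fun L _ => ?_
  unfold bt
  by_cases ha : a < i
  · rw [if_pos ha, if_pos ha]
  · rw [if_neg ha, if_neg ha]
    have e1 : decide (0 < a - i) = decide (i < a) := by
      rw [decide_eq_decide]; omega
    have e2 : decide (a - i ≤ k1) = decide (a ≤ i + k1) := by
      rw [decide_eq_decide]; omega
    have e3 : k1 - (a - i) = k1 + i - a := by omega
    rw [e1, e2, e3]

/-! ### Halves and copies -/

/-- the minimum over the highest `j` bits of the index -/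
noncomputable def fold (M : ℕ) (j : ℕ) : ℕ → ℕ :=
  Nat.rec (motive := fun _ => ℕ → ℕ) (fun F => F)
    (fun j ih F => ih (vmin (Nat.mul 32768 (on (Nat.add M j)))
      (Nat.land F (Nat.pred (Nat.pow 2 (sh (Nat.add M j))))) (Nat.shiftRight F (sh (Nat.add M j))))) j

theorem fold_sem (M : ℕ) : ∀ (j : ℕ) (f : ℕ → ℕ), (∀ L < 2 ^ (M + j), f L < 32768) →
    ∃ g : ℕ → ℕ, fold M j (vec (2 ^ (M + j)) f) = vec (2 ^ M) g ∧ (∀ L < 2 ^ M, g L < 32768) ∧
      ∀ L < 2 ^ M, ∃ q < 2 ^ j, g L = f (L + 2 ^ M * q)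
  | 0, f, h => ⟨f, rfl, h, fun L _ => ⟨0, by norm_num, by rw [mul_zero, add_zero]⟩⟩
  | j + 1, f, h => by
    have hp : 2 ^ (M + (j + 1)) = 2 ^ (M + j) + 2 ^ (M + j) := by
      rw [← add_assoc, pow_succ]; ring
    have b1 : ∀ L < 2 ^ (M + j), f L < 65536 := fun L hL => by
      have := h L (by rw [hp]; omega)
      omega
    have e1 : fold M (j + 1) (vec (2 ^ (M + (j + 1))) f) = fold M j (vmin (32768 * on (M + j))
        ((vec (2 ^ (M + (j + 1))) f) &&& (2 ^ sh (M + j) - 1))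
        ((vec (2 ^ (M + (j + 1))) f) >>> sh (M + j))) := rfl
    have e2 : (vec (2 ^ (M + (j + 1))) f) &&& (2 ^ sh (M + j) - 1) = vec (2 ^ (M + j)) f := by
      rw [Nat.and_two_pow_sub_one_eq_mod, sh_eq, ← pow16, hp, vec_mod b1]
    have e3 : (vec (2 ^ (M + (j + 1))) f) >>> sh (M + j) =
        vec (2 ^ (M + j)) fun L => f (L + 2 ^ (M + j)) := by
      rw [sh_eq, hp, vec_div b1]
    rw [e1, e2, e3, on_k, vmin_eq (fun L hL => h L (by rw [hp]; omega))
      (fun L hL => h _ (by rw [hp]; omega))]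
    obtain ⟨g, g1, g2, g3⟩ := fold_sem M j (fun L => min (f L) (f (L + 2 ^ (M + j))))
      (fun L hL => lt_of_le_of_lt (min_le_left _ _) (h L (by rw [hp]; omega)))
    refine ⟨g, g1, g2, fun L hL => ?_⟩
    obtain ⟨q, q1, q2⟩ := g3 L hL
    rcases le_total (f (L + 2 ^ M * q)) (f (L + 2 ^ M * q + 2 ^ (M + j))) with h1 | h1
    · exact ⟨q, by rw [pow_succ]; omega, by rw [q2, min_eq_left h1]⟩
    · refine ⟨q + 2 ^ j, by rw [pow_succ]; omega, ?_⟩
      rw [q2, min_eq_right h1]
      congr 1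
      rw [pow_add]; ring

/-- copies -/
noncomputable def rep (M : ℕ) (j : ℕ) (F : ℕ) : ℕ :=
  Nat.rec (motive := fun _ => ℕ) F (fun j ih => dup (Nat.add M j) ih) j

theorem rep_sem (M : ℕ) (f : ℕ → ℕ) : ∀ j, rep M j (vec (2 ^ M) f) =
    vec (2 ^ (M + j)) fun L => f (L % 2 ^ M)
  | 0 => vec_congr fun L hL => by rw [Nat.mod_eq_of_lt hL]
  | j + 1 => by
    have e : rep M (j + 1) (vec (2 ^ M) f) = dup (M + j) (rep M j (vec (2 ^ M) f)) := rfl
    rw [e, rep_sem M f j, dup_eq, add_assoc]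
    refine vec_congr fun L _ => ?_
    rw [Nat.mod_mod_of_dvd _ (pow_dvd_pow 2 (Nat.le_add_right M j))]

end Vc

end Pool.FC7
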