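import Pool.Agent.FC7.VcB

/-! # The cut check with vectors over all colourings -/

open Finset

set_option linter.unusedSectionVars false

namespace Pool.FC7

open Pool.FC6 Pool.FC6.St

namespace Vc

/-! ### Sums -/

/-- weighted sum over a list -/
noncomputable def lsm (w g : ℕ → ℕ) (l : List ℕ) : ℕ :=
  List.rec (motive := fun _ => ℕ) 0 (fun i _ ih => Nat.add (Nat.mul (w i) (g i)) ih) l

/-- sum over a list -/
noncomputable def lls {α : Type} (g : α → ℕ) (l : List α) : ℕ :=
  List.rec (motive := fun _ => ℕ) 0 (fun i _ ih => Nat.add (g i) ih) l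

theorem lsm_cons (w g : ℕ → ℕ) (i : ℕ) (l : List ℕ) : lsm w g (i :: l) = w i * g i + lsm w g l := rfl

theorem lls_cons {α : Type} (g : α → ℕ) (i : α) (l : List α) : lls g (i :: l) = g i + lls g l := rfl

theorem lsm_sem {n : ℕ} {w g : ℕ → ℕ} {γ : ℕ → ℕ → ℕ} : ∀ {l : List ℕ}, (∀ i ∈ l, g i = vec n (γ i)) →
    lsm w g l = vec n fun L => lsm w (fun i => γ i L) l
  | [], _ => (vec_zero n).symm
  | i :: l, h => by
    rw [lsm_cons, lsm_sem fun j hj => h j (List.mem_cons_of_mem _ hj), h i (by simp), vec_mul, vec_add]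
    rfl

theorem lls_sem {α : Type} {n : ℕ} {g : α → ℕ} {γ : α → ℕ → ℕ} : ∀ {l : List α},
    (∀ i ∈ l, g i = vec n (γ i)) → lls g l = vec n fun L => lls (fun i => γ i L) l
  | [], _ => (vec_zero n).symm
  | i :: l, h => by
    rw [lls_cons, lls_sem fun j hj => h j (List.mem_cons_of_mem _ hj), h i (by simp), vec_add]
    rfl

theorem sumN_sem {n : ℕ} {g : ℕ → ℕ} {γ : ℕ → ℕ → ℕ} : ∀ {N : ℕ}, (∀ i < N, g i = vec n (γ i)) →
    FC6.sumN N g = vec n fun L => FC6.sumN N fun i => γ i L
  | 0, _ => (vec_zero n).symm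
  | N + 1, h => by
    show FC6.sumN N g + g N = _
    rw [sumN_sem fun i hi => h i (by omega), h N (by omega), vec_add]
    rfl

theorem lsm_le {w g : ℕ → ℕ} : ∀ {l : List ℕ}, (∀ i ∈ l, g i ≤ 1) →
    lsm w g l ≤ lsm w (fun _ => 1) l
  | [], _ => le_refl _
  | i :: l, h => by
    rw [lsm_cons, lsm_cons]
    exact Nat.add_le_add (Nat.mul_le_mul_left _ (h i (by simp)))
      (lsm_le fun j hj => h j (List.mem_cons_of_mem _ hj))

theorem lls_le {α : Type} {g g' : α → ℕ} : ∀ {l : List α}, (∀ i ∈ l, g i ≤ g' i) → lls g l ≤ lls g' l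
  | [], _ => le_refl _
  | i :: l, h => by
    rw [lls_cons, lls_cons]
    exact Nat.add_le_add (h i (by simp)) (lls_le fun j hj => h j (List.mem_cons_of_mem _ hj))

theorem sumN_le1 {g : ℕ → ℕ} : ∀ {N : ℕ}, (∀ i < N, g i ≤ 1) → FC6.sumN N g ≤ N
  | 0, _ => le_refl _
  | N + 1, h => by
    show FC6.sumN N g + g N ≤ _
    have h1 := sumN_le1 (N := N) fun i hi => h i (by omega)
    have h2 := h N (by omega)
    omega

/-! ### Alternatives -/

/-- bitwise or over a list -/
noncomputable def lor {α : Type} (g : α → ℕ) (l : List α) : ℕ :=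
  List.rec (motive := fun _ => ℕ) 0 (fun i _ ih => Nat.lor (g i) ih) l

/-- bitwise and over a list -/
noncomputable def lan {α : Type} (e : ℕ) (g : α → ℕ) (l : List α) : ℕ :=
  List.rec (motive := fun _ => ℕ) e (fun i _ ih => Nat.land (g i) ih) l

theorem lor_sem {α : Type} {n K : ℕ} (hK : K < 65536) {g : α → ℕ} {β : α → ℕ → Bool} :
    ∀ {l : List α}, (∀ i ∈ l, g i = vec n fun L => if β i L = true then K else 0) →
    lor g l = vec n fun L => if (l.any fun i => β i L) = true then K else 0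
  | [], _ => (vec_zero n).symm
  | i :: l, h => by
    have e : lor g (i :: l) = g i ||| lor g l := rfl
    rw [e, lor_sem hK fun j hj => h j (List.mem_cons_of_mem _ hj), h i (by simp), vec_or
      (fun L _ => by split_ifs <;> omega) (fun L _ => by split_ifs <;> omega)]
    refine vec_congr fun L _ => ?_
    rw [List.any_cons]
    cases β i L <;> cases (l.any fun i => β i L) <;> simp

theorem lan_sem {α : Type} {n K : ℕ} (hK : K < 65536) {g : α → ℕ} {β : α → ℕ → Bool} :
    ∀ {l : List α}, (∀ i ∈ l, g i = vec n fun L => if β i L = true then K else 0) →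
    lan (vec n fun _ => K) g l = vec n fun L => if (l.all fun i => β i L) = true then K else 0
  | [], _ => vec_congr fun L _ => by simp
  | i :: l, h => by
    have e : lan (vec n fun _ => K) g (i :: l) = g i &&& lan (vec n fun _ => K) g l := rfl
    rw [e, lan_sem hK fun j hj => h j (List.mem_cons_of_mem _ hj), h i (by simp), vec_and
      (fun L _ => by split_ifs <;> omega) (fun L _ => by split_ifs <;> omega)]
    refine vec_congr fun L _ => ?_
    rw [List.all_cons]
    cases β i L <;> cases (l.all fun i => β i L) <;> simp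

/-! ### Crossing darts -/

/-- the lanes in which the ends of the dart `i` have different colours -/
noncomputable def cx (Q : Pa) (T : List ℕ) (b i : ℕ) : ℕ :=
  Nat.xor (K.lgetD T (Nat.sub (Q.l i) b) 0) (K.lgetD T (Nat.sub (Q.l (Q.φ i)) b) 0)

/-- the same for one lane -/
def cl (Q : Pa) (k1 j b i L : ℕ) : ℕ :=
  if (bt k1 j (Q.l i - b) L != bt k1 j (Q.l (Q.φ i) - b) L) = true then 1 else 0

theorem cl_le {Q : Pa} {k1 j b i L : ℕ} : cl Q k1 j b i L ≤ 1 := by
  unfold cl; split_ifs <;> omega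

theorem xor01 (p q : Bool) : (if p = true then 1 else 0) ^^^ (if q = true then 1 else 0) =
    if (p != q) = true then 1 else 0 := by
  cases p <;> cases q <;> rfl

theorem cx2_sem (k1 j a b : ℕ) : Nat.xor ((xt k1 j).getD a 0) ((xt k1 j).getD b 0) =
    vec (2 ^ (k1 + j)) fun L => if (bt k1 j a L != bt k1 j b L) = true then 1 else 0 := by
  rw [xt_sem, xt_sem]
  change (vec (2 ^ (k1 + j)) _) ^^^ (vec (2 ^ (k1 + j)) _) = _
  rw [vec_xor (fun L _ => by split_ifs <;> norm_num) (fun L _ => by split_ifs <;> norm_num)]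
  exact vec_congr fun L _ => xor01 _ _

theorem cx_sem (Q : Pa) (k1 j b i : ℕ) : cx Q (xt k1 j) b i = vec (2 ^ (k1 + j)) (cl Q k1 j b i) := by
  unfold cx
  rw [K.lgetD_eq, K.lgetD_eq]
  exact cx2_sem k1 j _ _

/-! ### The check -/

section

variable (C : CD) (O : OD) (P P' : Pa) (G : List (ℕ × ℕ × ℕ)) (D5 : List (List ℕ))
  (p5 : List (List ℕ × List (List (ℕ × ℕ × Bool)))) (k1 j : ℕ)

/-- the smaller number of units of a piece -/
noncomputable def unv (u : List ℕ) : ℕ :=
  vmin (Nat.mul 32768 (on (Nat.add k1 j)))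
    (lsm P'.u (fun i => K.lgetD (xt k1 j) (Nat.sub (P'.l i) O.lo) 0) u)
    (Nat.sub (Nat.mul (lsm P'.u (fun _ => 1) u) (on (Nat.add k1 j)))
      (lsm P'.u (fun i => K.lgetD (xt k1 j) (Nat.sub (P'.l i) O.lo) 0) u))

noncomputable def vU : ℕ := Nat.mul 2 (lls (unv O P' k1 j) C.ul)

noncomputable def vA : ℕ :=
  Nat.add (lls (fun l => lsm (K.CD_wA O P) (cx P' (xt k1 j) O.lo) l) C.lv) (vU C O P' k1 j)

noncomputable def vB : ℕ :=
  Nat.add (lls (fun l => lsm (K.CD_wB O P) (cx P' (xt k1 j) O.lo) l) C.lv) (vU C O P' k1 j)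

noncomputable def tot : ℕ :=
  Nat.add (Nat.add (lls (fun l => lsm (K.CD_wA O P) (fun _ => 1) l) C.lv)
    (lls (fun l => lsm (K.CD_wB O P) (fun _ => 1) l) C.lv))
    (Nat.mul 2 (lls (fun l => lsm P'.u (fun _ => 1) l) C.ul))

/-- the number of crossing darts of `P` -/
noncomputable def vS : ℕ :=
  K.sumN P.n fun i => Bool.rec (motive := fun _ => ℕ) 0 (cx P (xt k1 O.x) 0 i) (P.real i)

/-- an arc at a gap with different colours without crossing darts in the mask -/
noncomputable def gv1 (p : ℕ × ℕ × ℕ) : ℕ :=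
  (fun X => Bool.rec (motive := fun _ => ℕ)
    (Nat.land X (Nat.shiftRight (geM (Nat.mul 32768 (on (Nat.add k1 O.x))) 0
      (K.sumN P.n fun i => Bool.rec (motive := fun _ => ℕ) 0 (cx P (xt k1 O.x) 0 i)
        (K.tbit p.2.2 i))) 15)) X (Nat.beq p.2.2 0))
    (Nat.xor (K.lgetD (xt k1 O.x) (P.l p.1) 0) (K.lgetD (xt k1 O.x) (P.l (P.φ p.2.1)) 0))

noncomputable def gv : ℕ := lls (gv1 O P k1) G

noncomputable def vR : ℕ :=
  K.sumN P.n fun i => Bool.rec (motive := fun _ => ℕ) 0 (cx P (xt k1 O.x) 0 i)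
    (K.band (K.OD_rg O P i) (P.real i))

/-- the bonus -/
noncomputable def gb2 : ℕ :=
  Nat.land (Nat.add (vR O P k1) (Nat.land (Nat.add (gv O P G k1) (on (Nat.add k1 O.x)))
      (Nat.mul 65534 (on (Nat.add k1 O.x)))))
    (Nat.sub (Nat.mul 2 (geM (Nat.mul 32768 (on (Nat.add k1 O.x))) (gv O P G k1)
        (on (Nat.add k1 O.x))))
      (Nat.shiftRight (geM (Nat.mul 32768 (on (Nat.add k1 O.x))) (gv O P G k1)
        (on (Nat.add k1 O.x))) 15))

/-- the number of labels of the list with the colour 1 -/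
noncomputable def cn5 (D : List ℕ) : ℕ := lls (fun a => K.lgetD (xt k1 O.x) a 0) D

/-- the lanes of a literal -/
noncomputable def li5 (t : ℕ × ℕ × Bool) : ℕ :=
  (fun X => Bool.rec (motive := fun _ => ℕ) (Nat.sub (on (Nat.add k1 O.x)) X) X t.2.2)
    (Nat.xor (K.lgetD (xt k1 O.x) t.1 0) (K.lgetD (xt k1 O.x) t.2.1 0))

/-- the lanes with the bound 5 -/
noncomputable def bv5 : ℕ :=
  Bool.rec (motive := fun _ => ℕ)
    (Nat.lor (Nat.land (Nat.shiftRight (Nat.land
        (lor (fun D => geM (Nat.mul 32768 (on (Nat.add k1 O.x))) (cn5 O k1 D)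
          (Nat.mul 2 (on (Nat.add k1 O.x)))) D5)
        (lor (fun D => geM (Nat.mul 32768 (on (Nat.add k1 O.x)))
          (Nat.mul (K.llen D) (on (Nat.add k1 O.x)))
          (Nat.add (cn5 O k1 D) (Nat.mul 2 (on (Nat.add k1 O.x))))) D5)) 15)
      (lor (fun E => lan (on (Nat.add k1 O.x)) (fun C => lor (li5 O k1) C) (Prod.snd E)) p5))
      (lor (fun E => Bool.rec (motive := fun _ => ℕ) 0
        (lan (on (Nat.add k1 O.x)) (fun C => lor (li5 O k1) C) (Prod.snd E)) (K.o5 E)) p5))
    0 (K.lemp p5)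

/-- twice the difference of the bound and 3 -/
noncomputable def tw5 : ℕ := Nat.mul 2 (Nat.add (on (Nat.add k1 O.x)) (bv5 O D5 p5 k1))

/-- the weight which is needed -/
noncomputable def ned : ℕ :=
  Bool.rec (motive := fun _ => ℕ)
    (vmin (Nat.mul 32768 (on (Nat.add k1 O.x)))
      (ssub (Nat.mul 32768 (on (Nat.add k1 O.x))) (vS O P k1) (tw5 O D5 p5 k1))
      (ssub (Nat.mul 32768 (on (Nat.add k1 O.x))) (Nat.mul 6 (on (Nat.add k1 O.x)))
        (gb2 O P G k1)))
    (ssub (Nat.mul 32768 (on (Nat.add k1 O.x))) (vS O P k1) (tw5 O D5 p5 k1))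
    (K.lemp G)

noncomputable def nex : ℕ :=
  Nat.sub (rep k1 j (Nat.add (fold k1 O.x (ned O P G D5 p5 k1)) 16384)) 16384

noncomputable def vmain : Bool :=
  Nat.beq (Nat.lor (geM (Nat.mul 32768 (on (Nat.add k1 j))) (vA C O P P' k1 j)
      (Nat.mul 6 (on (Nat.add k1 j))))
    (geM (Nat.mul 32768 (on (Nat.add k1 j))) (vB C O P P' k1 j) (nex O P G D5 p5 k1 j)))
    (Nat.mul 32768 (on (Nat.add k1 j)))

end

/-- the static part -/
noncomputable def vst (C : CD) (O : OD) (P P' : Pa) : Bool :=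
  (K.band (K.band (K.band (K.band (Nat.beq (K.llen (FC7.CD.lv C)) (Nat.sub (FC7.OD.m O)
    (FC7.OD.lo O))) (K.CD_lvc P P' (FC7.CD.lv C) (FC7.OD.lo O))) (K.nd (nat_lit 0) (K.lapp (K.lflat
    (FC7.CD.lv C)) (K.lmap (FC6.Pa.α P) (K.lfilter (fun (i : ℕ) => (K.bnot (Nat.beq (FC6.Pa.α P i)
    i))) (K.lflat (FC7.CD.lv C))))))) (K.nd (nat_lit 0) (K.lflat (FC7.CD.ul C)))) (K.lall (FC7.CD.ul
    C) (fun (l : List ℕ) => (K.lall l (fun (i : ℕ) => (K.band (Nat.ble (Nat.succ i) (FC6.Pa.n P))
    (K.lall l (fun (j : ℕ) => (Nat.beq (FC7.OD.pc O i) (FC7.OD.pc O j))))))))))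

/-- the check of the cuts -/
noncomputable def vchk (C : CD) (O : OD) (P P' : Pa) (G : List (ℕ × ℕ × ℕ)) (D5 : List (List ℕ))
    (p5 : List (List ℕ × List (List (ℕ × ℕ × Bool)))) : Bool :=
  K.band (vst C O P P') (K.band (Nat.ble O.lo O.x) (K.band (Nat.ble (Nat.succ O.x) O.m)
    (K.band (Nat.ble (tot C O P P') 16000) (K.band (Nat.ble P.n 10000)
      (K.band (Nat.ble (K.llen G) 1000) (K.band (K.lall D5 fun D => Nat.ble (K.llen D) 1000)
        (vmain C O P P' G D5 p5 (Nat.pred (Nat.sub O.m O.x)) (Nat.sub O.x O.lo))))))))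

/-! ### The search is complete -/

theorem dfs_of {C : CD} {O : OD} {P P' : Pa} {bf gb : ℕ → ℕ} : ∀ (ls : List (List ℕ)) (a c sA sB : ℕ),
    CD.lvc P P' ls a = true → c < 2 ^ a →
    (∀ c' < 2 ^ (a + ls.length), c' % 2 ^ a = c → (a ≤ O.x → c'.testBit O.x = false) →
      C.leaf O P P' bf gb c' (sA + CD.sm P' (CD.wA O P) c' ls.flatten)
        (sB + CD.sm P' (CD.wB O P) c' ls.flatten) = true) →
    C.dfs O P P' bf gb ls a c sA sB = true := by
  intro ls
  induction ls with
  | nil =>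
    intro a c sA sB _ hc H
    have := H c (by rw [List.length_nil, add_zero]; exact hc) (Nat.mod_eq_of_lt hc)
      (fun h => Nat.testBit_lt_two_pow (lt_of_lt_of_le hc (Nat.pow_le_pow_right (by norm_num) h)))
    exact this
  | cons l ls ih =>
    intro a c sA sB hl hc H
    have hl' := hl
    unfold CD.lvc at hl'
    rw [Bool.and_eq_true, List.all_eq_true] at hl'
    have hcong : ∀ wg c', CD.sm P' wg (c' % 2 ^ (a + 1)) l = CD.sm P' wg c' l := by
      intro wg c'
      rw [CD.sm_eq, CD.sm_eq]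
      congr 1
      refine List.map_congr_left fun i hi => ?_
      have := hl'.1 i hi
      rw [Bool.and_eq_true, Bool.and_eq_true, decide_eq_true_eq, decide_eq_true_eq] at this
      have e : OD.crs P' (c' % 2 ^ (a + 1)) i = OD.crs P' c' i := by
        unfold OD.crs
        rw [Nat.testBit_mod_two_pow, Nat.testBit_mod_two_pow,
          decide_eq_true (show P'.l i < a + 1 by omega),
          decide_eq_true (show P'.l (P'.φ i) < a + 1 by omega), Bool.true_and, Bool.true_and]
      rw [e]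
    have hp : 2 ^ (a + 1) = 2 * 2 ^ a := by rw [pow_succ]; ring
    have step : ∀ d, d < 2 ^ (a + 1) → d % 2 ^ a = c → (a = O.x → d.testBit a = false) →
        C.dfs O P P' bf gb ls (a + 1) d (sA + CD.sm P' (CD.wA O P) d l)
          (sB + CD.sm P' (CD.wB O P) d l) = true := by
      intro d hd hdc hda
      refine ih (a + 1) d _ _ hl'.2 hd fun c' h1 h2 h3 => ?_
      have e1 : c' % 2 ^ a = c := by
        rw [← hdc, ← h2, Nat.mod_mod_of_dvd _ (pow_dvd_pow 2 (Nat.le_succ a))]
      have := H c' (by rw [List.length_cons, show a + (ls.length + 1) = a + 1 + ls.length by omega]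
                       exact h1) e1 (fun hax => by
        rcases Nat.lt_or_ge a O.x with h4 | h4
        · exact h3 h4
        · have h5 : a = O.x := le_antisymm hax h4
          have h6 := hda h5
          rw [← h2, Nat.testBit_mod_two_pow, decide_eq_true (Nat.lt_succ_self a),
            Bool.true_and, h5] at h6
          exact h6)
      have esm : ∀ wg, CD.sm P' wg c' (l :: ls).flatten = CD.sm P' wg d l +
          CD.sm P' wg c' ls.flatten := by
        intro wg
        rw [← h2, hcong, CD.sm_eq, CD.sm_eq, CD.sm_eq, List.flatten_cons, List.map_append,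
          List.sum_append]
      rw [esm, esm, ← add_assoc, ← add_assoc] at this
      exact this
    unfold CD.dfs
    rw [Bool.and_eq_true, Bool.or_eq_true, Bool.or_eq_true, decide_eq_true_eq, decide_eq_true_eq,
      Bool.or_eq_true]
    refine ⟨Or.inr (step c (by omega) (Nat.mod_eq_of_lt hc) fun _ => Nat.testBit_lt_two_pow hc), ?_⟩
    by_cases hax : a = O.x
    · exact Or.inl hax
    · exact Or.inr (Or.inr (step (c + 2 ^ a) (by omega) (by
        rw [Nat.add_mod_right, Nat.mod_eq_of_lt hc]) fun h => absurd h hax))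

end Vc

end Pool.FC7
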