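import Pool.Agent.FC7.VcC

/-! # The cut check with vectors over all colourings: soundness -/

open Finset

set_option linter.unusedSectionVars false

namespace Pool.FC7

open Pool.FC6 Pool.FC6.St

namespace Vc

/-! ### Lanes and colourings -/

/-- the lane of a colouring -/
theorem lane_of {m x lo k1 j c : ℕ} (hm : m = k1 + x + 1) (hj : j + lo = x) (hc : c < 2 ^ m)
    (hx : c.testBit x = false) : ∃ L < 2 ^ (k1 + j), ∀ a, lo ≤ a → bt k1 j (a - lo) L = c.testBit a := by
  obtain ⟨L, h1, h2⟩ := exists_mask (k1 + j) fun p =>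
    if p < k1 then c.testBit (m - 1 - p) else c.testBit (m - 2 - p)
  refine ⟨L, h1, fun a ha => ?_⟩
  unfold bt
  by_cases c1 : a - lo < j
  · rw [if_pos c1, h2 _ (by omega), if_neg (by omega)]
    congr 1; omega
  · rw [if_neg c1]
    by_cases c2 : j < a - lo
    · rw [decide_eq_true c2, Bool.true_and]
      by_cases c3 : a - lo ≤ j + k1
      · rw [decide_eq_true c3, Bool.true_and, Nat.testBit_mod_two_pow,
          decide_eq_true (by omega : k1 + j - (a - lo) < k1), Bool.true_and, h2 _ (by omega),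
          if_pos (by omega)]
        congr 1; omega
      · rw [decide_eq_false c3, Bool.false_and]
        symm
        exact Nat.testBit_lt_two_pow (lt_of_lt_of_le hc (Nat.pow_le_pow_right (by norm_num) (by omega)))
    · rw [decide_eq_false c2, Bool.false_and, Bool.false_and]
      have : a = x := by omega
      rw [this, hx]

/-- the colouring of the lane `L` with the outer part of `c` -/
theorem lane_xi {m x lo k1 j c L' L : ℕ} (hm : m = k1 + x + 1) (hj : j + lo = x)
    (hx : c.testBit x = false) (hL' : ∀ a, lo ≤ a → bt k1 j (a - lo) L' = c.testBit a)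
    (hL : L % 2 ^ k1 = L' % 2 ^ k1) :
    ∃ ξ < 2 ^ x, (2 ^ x * (c >>> x) + ξ).testBit x = false ∧
      ∀ a, bt k1 x a L = (2 ^ x * (c >>> x) + ξ).testBit a := by
  obtain ⟨ξ, h1, h2⟩ := exists_mask x fun a => L.testBit (k1 + x - 1 - a)
  have hb : ∀ a, (2 ^ x * (c >>> x) + ξ).testBit a = if a < x then ξ.testBit a else c.testBit a := by
    intro a
    rw [Nat.testBit_two_pow_mul_add _ h1]
    split_ifs with h
    · rfl
    · rw [Nat.testBit_shiftRight]
      congr 1; omega
  refine ⟨ξ, h1, by rw [hb, if_neg (lt_irrefl x), hx], fun a => ?_⟩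
  rw [hb]
  by_cases c1 : a < x
  · unfold bt
    rw [if_pos c1, if_pos c1, h2 a c1]
  · rw [if_neg c1, ← hL' a (by omega)]
    unfold bt
    rw [if_neg c1, if_neg (by omega : ¬ a - lo < j), hL]
    have e1 : decide (x < a) = decide (j < a - lo) := by rw [decide_eq_decide]; omega
    have e2 : decide (a ≤ x + k1) = decide (a - lo ≤ j + k1) := by rw [decide_eq_decide]; omega
    have e3 : k1 + x - a = k1 + j - (a - lo) := by omega
    rw [e1, e2, e3]

variable {C : CD} {O : OD} {P P' : Pa} {G : List (ℕ × ℕ × ℕ)} {k1 j : ℕ}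

theorem cl_crs {Q : Pa} {b i L c : ℕ} (h : ∀ a, b ≤ a → bt k1 j (a - b) L = c.testBit a)
    (h1 : b ≤ Q.l i) (h2 : b ≤ Q.l (Q.φ i)) : cl Q k1 j b i L = if OD.crs Q c i = true then 1 else 0 := by
  unfold cl OD.crs
  rw [h _ h1, h _ h2]

/-! ### The darts of `P'` -/

theorem lsm_eq {wg g : ℕ → ℕ} {c : ℕ} : ∀ {l : List ℕ},
    (∀ i ∈ l, g i = if OD.crs P' c i = true then 1 else 0) → lsm wg g l = CD.sm P' wg c l
  | [], _ => rfl
  | i :: l, h => by
    rw [lsm_cons, lsm_eq fun j hj => h j (List.mem_cons_of_mem _ hj), h i (by simp), CD.sm]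
    congr 1
    split_ifs <;> simp

theorem lls_flat {wg : ℕ → ℕ} {c : ℕ} : ∀ (ls : List (List ℕ)),
    lls (fun l => CD.sm P' wg c l) ls = CD.sm P' wg c ls.flatten
  | [] => rfl
  | l :: ls => by
    rw [lls_cons, lls_flat ls, CD.sm_eq, CD.sm_eq, CD.sm_eq, List.flatten_cons, List.map_append,
      List.sum_append]

theorem us_true {c : ℕ} : ∀ {l : List ℕ}, (∀ i ∈ l, P'.u i ≠ 0 → O.lo ≤ P'.l i) → ∀ {L : ℕ},
    (∀ a, O.lo ≤ a → bt k1 j (a - O.lo) L = c.testBit a) →
    lsm P'.u (fun i => if bt k1 j (P'.l i - O.lo) L = true then 1 else 0) l = CD.us P' true c l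
  | [], _, _, _ => rfl
  | i :: l, h, L, hL => by
    rw [lsm_cons, us_true (fun j hj => h j (List.mem_cons_of_mem _ hj)) hL, CD.us]
    congr 1
    by_cases h0 : P'.u i = 0
    · rw [h0]; simp
    · rw [hL _ (h i (by simp) h0)]
      cases c.testBit (P'.l i) <;> simp

theorem us_add {c : ℕ} : ∀ (l : List ℕ), CD.us P' true c l + CD.us P' false c l =
    lsm P'.u (fun _ => 1) l
  | [] => rfl
  | i :: l => by
    rw [lsm_cons, ← us_add (c := c) l, CD.us, CD.us]
    cases c.testBit (P'.l i) <;> simp <;> ring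

/-- the units -/
theorem unv_sem {u : List ℕ} (hb : lsm P'.u (fun _ => 1) u < 32768) :
    unv O P' k1 j u = vec (2 ^ (k1 + j)) fun L =>
      min (lsm P'.u (fun i => if bt k1 j (P'.l i - O.lo) L = true then 1 else 0) u)
        (lsm P'.u (fun _ => 1) u - lsm P'.u (fun i => if bt k1 j (P'.l i - O.lo) L = true then 1
          else 0) u) := by
  have e1 : lsm P'.u (fun i => K.lgetD (xt k1 j) (Nat.sub (P'.l i) O.lo) 0) u =
      vec (2 ^ (k1 + j)) fun L => lsm P'.u (fun i => if bt k1 j (P'.l i - O.lo) L = true then 1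
        else 0) u := by
    rw [lsm_sem (γ := fun i L => if bt k1 j (P'.l i - O.lo) L = true then 1 else 0)]
    intro i _
    rw [K.lgetD_eq, xt_sem]
    rfl
  have hle : ∀ L, lsm P'.u (fun i => if bt k1 j (P'.l i - O.lo) L = true then 1 else 0) u ≤
      lsm P'.u (fun _ => 1) u := fun L => lsm_le fun i _ => by split_ifs <;> omega
  unfold unv
  rw [e1]
  have e2 : Nat.sub (Nat.mul (lsm P'.u (fun _ => 1) u) (on (Nat.add k1 j)))
      (vec (2 ^ (k1 + j)) fun L => lsm P'.u (fun i => if bt k1 j (P'.l i - O.lo) L = true then 1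
        else 0) u) = vec (2 ^ (k1 + j)) fun L => lsm P'.u (fun _ => 1) u -
          lsm P'.u (fun i => if bt k1 j (P'.l i - O.lo) L = true then 1 else 0) u := by
    show (lsm P'.u (fun _ => 1) u) * on (k1 + j) - _ = _
    rw [on_k, vec_sub fun L _ => hle L]
  rw [e2]
  show vmin (32768 * on (k1 + j)) _ _ = _
  rw [on_k, vmin_eq (fun L _ => lt_of_le_of_lt (hle L) hb)
    (fun L _ => lt_of_le_of_lt (Nat.sub_le _ _) hb)]

theorem lls_mem {α : Type} {g : α → ℕ} : ∀ {l : List α} {a : α}, a ∈ l → g a ≤ lls g l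
  | _ :: l, a, h => by
    rw [lls_cons]
    rcases List.mem_cons.1 h with rfl | h
    · omega
    · have := lls_mem (g := g) h
      omega

theorem un_lls {c L : ℕ} (hL : ∀ a, O.lo ≤ a → bt k1 j (a - O.lo) L = c.testBit a) :
    ∀ {ls : List (List ℕ)}, (∀ l ∈ ls, ∀ i ∈ l, P'.u i ≠ 0 → O.lo ≤ P'.l i) →
    lls (fun u => min (lsm P'.u (fun i => if bt k1 j (P'.l i - O.lo) L = true then 1 else 0) u)
        (lsm P'.u (fun _ => 1) u - lsm P'.u (fun i => if bt k1 j (P'.l i - O.lo) L = true then 1
          else 0) u)) ls = CD.un P' c ls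
  | [], _ => rfl
  | l :: ls, h => by
    rw [lls_cons, un_lls hL fun l' hl' => h l' (List.mem_cons_of_mem _ hl'),
      us_true (h l (by simp)) hL, CD.un]
    have := us_add (P' := P') (c := c) l
    congr 2
    omega

/-! ### The sums over all darts -/

theorem vS_sem : vS O P k1 = vec (2 ^ (k1 + O.x)) fun L => FC6.sumN P.n fun i =>
    if P.real i = true then cl P k1 O.x 0 i L else 0 := by
  unfold vS
  rw [K.sumN_eq, sumN_sem (γ := fun i L => if P.real i = true then cl P k1 O.x 0 i L else 0)]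
  intro i _
  cases P.real i
  · exact (vec_zero _).symm
  · show cx P (xt k1 O.x) 0 i = _
    rw [cx_sem]
    exact vec_congr fun L _ => by simp

theorem vR_sem : vR O P k1 = vec (2 ^ (k1 + O.x)) fun L => FC6.sumN P.n fun i =>
    if (O.rg P i && P.real i) = true then cl P k1 O.x 0 i L else 0 := by
  unfold vR
  rw [K.sumN_eq, sumN_sem (γ := fun i L => if (O.rg P i && P.real i) = true then cl P k1 O.x 0 i L
    else 0)]
  intro i _
  rw [K.OD_rg_eq, K.band_eq]
  cases (O.rg P i && P.real i)
  · exact (vec_zero _).symm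
  · show cx P (xt k1 O.x) 0 i = _
    rw [cx_sem]
    exact vec_congr fun L _ => by simp

theorem geM0 {n : ℕ} {g : ℕ → ℕ} (hg : ∀ i < n, g i < 32768) :
    geM (vec n fun _ => 32768) 0 (vec n g) =
      vec n fun i => if decide (g i = 0) = true then 32768 else 0 := by
  have h := geM_eq (n := n) (f := fun _ => 0) (g := g) (fun _ _ => by norm_num) hg
  rw [vec_zero] at h
  rw [h]
  refine vec_congr fun L _ => ?_
  by_cases h : g L = 0
  · rw [h]; simp
  · rw [decide_eq_false h, if_neg (by omega), if_neg (by simp)]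

/-- one arc at a gap, one lane -/
def gl (P : Pa) (x k1 : ℕ) (p : ℕ × ℕ × ℕ) (L : ℕ) : ℕ :=
  if (bt k1 x (P.l p.1) L != bt k1 x (P.l (P.φ p.2.1)) L) = true ∧
    (p.2.2 = 0 ∨ (FC6.sumN P.n fun i => if p.2.2.testBit i = true then cl P k1 x 0 i L else 0) = 0)
  then 1 else 0

theorem gv1_sem (hn : P.n ≤ 10000) (p : ℕ × ℕ × ℕ) :
    gv1 O P k1 p = vec (2 ^ (k1 + O.x)) (gl P O.x k1 p) := by
  unfold gv1
  rw [K.lgetD_eq, K.lgetD_eq]
  have e0 : Nat.xor ((xt k1 O.x).getD (P.l p.1) 0) ((xt k1 O.x).getD (P.l (P.φ p.2.1)) 0) =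
    vec (2 ^ (k1 + O.x)) fun L => if (bt k1 O.x (P.l p.1) L !=
      bt k1 O.x (P.l (P.φ p.2.1)) L) = true then 1 else 0 := cx2_sem k1 O.x _ _
  rw [e0]
  beta_reduce
  by_cases h0 : p.2.2 = 0
  · have : Nat.beq p.2.2 0 = true := by rw [h0]; rfl
    rw [this]
    refine vec_congr fun L _ => ?_
    unfold gl
    simp only [h0, true_or, and_true]
  · have : Nat.beq p.2.2 0 = false := by
      rw [K.nbeq_eq]; simpa using h0
    rw [this]
    have e1 : (K.sumN P.n fun i => Bool.rec (motive := fun _ => ℕ) 0 (cx P (xt k1 O.x) 0 i)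
        (K.tbit p.2.2 i)) = vec (2 ^ (k1 + O.x)) fun L => FC6.sumN P.n fun i =>
          if p.2.2.testBit i = true then cl P k1 O.x 0 i L else 0 := by
      rw [K.sumN_eq, sumN_sem (γ := fun i L => if p.2.2.testBit i = true then cl P k1 O.x 0 i L
        else 0)]
      intro i _
      rw [K.tbit_eq]
      cases p.2.2.testBit i
      · exact (vec_zero _).symm
      · show cx P (xt k1 O.x) 0 i = _
        rw [cx_sem]
        exact vec_congr fun L _ => by simp
    have e2 : geM (Nat.mul 32768 (on (Nat.add k1 O.x))) 0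
        (vec (2 ^ (k1 + O.x)) fun L => FC6.sumN P.n fun i =>
          if p.2.2.testBit i = true then cl P k1 O.x 0 i L else 0) =
        vec (2 ^ (k1 + O.x)) fun L => if decide ((FC6.sumN P.n fun i =>
          if p.2.2.testBit i = true then cl P k1 O.x 0 i L else 0) = 0) = true then 32768 else 0 := by
      have e3 : Nat.mul 32768 (on (Nat.add k1 O.x)) = vec (2 ^ (k1 + O.x)) fun _ => 32768 := on_k _ _
      rw [e3]
      refine geM0 fun L _ => ?_
      refine lt_of_le_of_lt (sumN_le1 fun i _ => ?_) (by omega : P.n < 32768)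
      split_ifs
      · exact cl_le
      · omega
    show Nat.land _ (Nat.shiftRight _ 15) = _
    rw [e1, e2]
    have e4 : Nat.shiftRight (vec (2 ^ (k1 + O.x)) fun L => if decide ((FC6.sumN P.n fun i =>
          if p.2.2.testBit i = true then cl P k1 O.x 0 i L else 0) = 0) = true then 32768 else 0) 15 =
        vec (2 ^ (k1 + O.x)) fun L => if decide ((FC6.sumN P.n fun i =>
          if p.2.2.testBit i = true then cl P k1 O.x 0 i L else 0) = 0) = true then 1 else 0 :=
      shr15 _ _
    rw [e4]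
    change (vec (2 ^ (k1 + O.x)) _) &&& (vec (2 ^ (k1 + O.x)) _) = _
    rw [vec_and (fun L _ => by split_ifs <;> norm_num) (fun L _ => by split_ifs <;> norm_num)]
    refine vec_congr fun L _ => ?_
    unfold gl
    by_cases h1 : (bt k1 O.x (P.l p.1) L != bt k1 O.x (P.l (P.φ p.2.1)) L) = true
    · by_cases h2 : (FC6.sumN P.n fun i => if p.2.2.testBit i = true then cl P k1 O.x 0 i L
          else 0) = 0
      · simp only [h1, h2, decide_true, if_true, or_true, and_true]
        rfl
      · simp only [h1, h2, decide_false, if_true, or_false, h0, and_false, if_false]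
        simp
    · simp only [h1, false_and, if_false]
      simp

theorem gl_le {x : ℕ} {p : ℕ × ℕ × ℕ} {L : ℕ} : gl P x k1 p L ≤ 1 := by
  unfold gl; split_ifs <;> omega

theorem gv_sem (hn : P.n ≤ 10000) : gv O P G k1 = vec (2 ^ (k1 + O.x)) fun L =>
    lls (fun p => gl P O.x k1 p L) G := by
  unfold gv
  rw [lls_sem (γ := fun p L => gl P O.x k1 p L) fun p _ => gv1_sem hn p]

theorem lls_le_len {α : Type} {g : α → ℕ} (h : ∀ a, g a ≤ 1) : ∀ l : List α, lls g l ≤ l.length
  | [] => le_refl _
  | a :: l => by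
    rw [lls_cons, List.length_cons]
    have := h a
    have := lls_le_len h l
    omega

/-- the bonus, one lane -/
def gbl (R g : ℕ) : ℕ := if 1 ≤ g then R + 2 * ((g + 1) / 2) else 0

theorem gb2_sem (hn : P.n ≤ 10000) (hG : G.length ≤ 1000) :
    gb2 O P G k1 = vec (2 ^ (k1 + O.x)) fun L =>
      gbl (FC6.sumN P.n fun i => if (O.rg P i && P.real i) = true then cl P k1 O.x 0 i L else 0)
        (lls (fun p => gl P O.x k1 p L) G) := by
  have hg : ∀ L, lls (fun p => gl P O.x k1 p L) G ≤ 1000 := fun L =>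
    (lls_le_len (fun _ => gl_le) G).trans hG
  have hR : ∀ L, (FC6.sumN P.n fun i => if (O.rg P i && P.real i) = true then cl P k1 O.x 0 i L
      else 0) ≤ 10000 := fun L => (sumN_le1 fun i _ => by
        split_ifs
        · exact cl_le
        · omega).trans hn
  unfold gb2
  rw [vR_sem, gv_sem hn]
  have eH : Nat.mul 32768 (on (Nat.add k1 O.x)) = vec (2 ^ (k1 + O.x)) fun _ => 32768 := on_k _ _
  have e1 : on (Nat.add k1 O.x) = vec (2 ^ (k1 + O.x)) fun _ => 1 := on_eq _
  have e2 : Nat.mul 65534 (on (Nat.add k1 O.x)) = vec (2 ^ (k1 + O.x)) fun _ => 65534 := on_k _ _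
  rw [eH, e2, e1, geM_eq (fun L _ => by have := hg L; omega) (fun _ _ => by norm_num)]
  have e3 : (vec (2 ^ (k1 + O.x)) fun L => if 1 ≤ lls (fun p => gl P O.x k1 p L) G then 32768 else 0) =
      vec (2 ^ (k1 + O.x)) fun L => if decide (1 ≤ lls (fun p => gl P O.x k1 p L) G) = true then
        32768 else 0 := vec_congr fun L _ => by
          by_cases h : 1 ≤ lls (fun p => gl P O.x k1 p L) G
          · rw [if_pos h, if_pos (decide_eq_true h)]
          · rw [if_neg h, if_neg (by simpa using h)]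
  rw [e3]
  show ((vec _ _) + ((vec _ _ + vec _ _) &&& vec _ _)) &&& (2 * vec _ _ - vec _ _ >>> 15) = _
  rw [shr15, vec_add, vec_mul, vec_and (fun L _ => by have := hg L; omega) (fun _ _ => by norm_num),
    vec_add, vec_sub (fun L _ => by split_ifs <;> norm_num), vec_and (fun L _ => ?_)
      (fun L _ => by split_ifs <;> norm_num)]
  · refine vec_congr fun L _ => ?_
    unfold gbl
    have hgL := hg L
    have hRL := hR L
    have e4 : (lls (fun p => gl P O.x k1 p L) G + 1) &&& 65534 =
        2 * ((lls (fun p => gl P O.x k1 p L) G + 1) / 2) := by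
      have e5 : (65534 : ℕ) = 2 * (2 ^ 15 - 1) := by norm_num
      have e6 := Nat.div_add_mod (lls (fun p => gl P O.x k1 p L) G + 1) 2
      apply Nat.eq_of_testBit_eq
      intro t
      rw [Nat.testBit_and]
      cases t with
      | zero =>
        rw [e5]
        simp [Nat.testBit_zero]
      | succ t =>
        rw [e5, Nat.testBit_succ, Nat.testBit_succ, Nat.testBit_succ, Nat.mul_div_cancel_left _ (by norm_num),
          Nat.mul_div_cancel_left _ (by norm_num), Nat.testBit_two_pow_sub_one]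
        by_cases ht : t < 15
        · rw [decide_eq_true ht, Bool.and_true]
        · rw [decide_eq_false ht, Bool.and_false]
          symm
          apply Nat.testBit_lt_two_pow
          calc (lls (fun p => gl P O.x k1 p L) G + 1) / 2 < 2 ^ 15 := by omega
            _ ≤ 2 ^ t := Nat.pow_le_pow_right (by norm_num) (by omega)
    rw [e4]
    by_cases h : 1 ≤ lls (fun p => gl P O.x k1 p L) G
    · rw [if_pos h, if_pos (decide_eq_true h), if_pos (decide_eq_true h)]
      have e7 : (2 * 32768 - 1 : ℕ) = 2 ^ 16 - 1 := by norm_num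
      rw [e7, Nat.and_two_pow_sub_one_eq_mod, Nat.mod_eq_of_lt (by omega)]
    · rw [if_neg h, if_neg (by simpa using h), if_neg (by simpa using h)]
      simp
  · have hgL := hg L
    have hRL := hR L
    have : (lls (fun p => gl P O.x k1 p L) G + 1) &&& 65534 ≤ lls (fun p => gl P O.x k1 p L) G + 1 :=
      Nat.and_le_left
    omega

end Vc

end Pool.FC7
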