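import Pool.Agent.FC7.VcD

/-! # The cut check with vectors over all colourings: the theorem -/

open Finset

set_option linter.unusedSectionVars false

namespace Pool.FC7

open Pool.FC6 Pool.FC6.St

namespace Vc

variable {C : CD} {O : OD} {P P' : Pa} {G : List (ℕ × ℕ × ℕ)} {D5 : List (List ℕ)}
  {p5 : List (List ℕ × List (List (ℕ × ℕ × Bool)))} {k1 j : ℕ}

theorem inS_lane {L c : ℕ} (h : ∀ a, bt k1 O.x a L = c.testBit a) :
    (FC6.sumN P.n fun i => if P.real i = true then cl P k1 O.x 0 i L else 0) = FC6.OD.inS P c := by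
  unfold FC6.OD.inS
  congr 1
  funext i
  rw [cl_crs (c := c) (fun a _ => h a) (Nat.zero_le _) (Nat.zero_le _)]
  unfold OD.crs
  cases P.real i
  · simp
  · simp

theorem rr_lane {L c : ℕ} (h : ∀ a, bt k1 O.x a L = c.testBit a) :
    (FC6.sumN P.n fun i => if (O.rg P i && P.real i) = true then cl P k1 O.x 0 i L else 0) =
      O.rr P c := by
  unfold OD.rr
  congr 1
  funext i
  rw [cl_crs (c := c) (fun a _ => h a) (Nat.zero_le _) (Nat.zero_le _)]
  cases O.rg P i && P.real i
  · simp
  · simp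

theorem sumN_zero {g : ℕ → ℕ} : ∀ {n : ℕ}, FC6.sumN n g = 0 → ∀ i < n, g i = 0
  | 0, _, i, hi => absurd hi (by omega)
  | n + 1, h, i, hi => by
    have h' : FC6.sumN n g + g n = 0 := h
    rcases Nat.lt_or_ge i n with h1 | h1
    · exact sumN_zero (by omega) i h1
    · have : i = n := by omega
      rw [this]; omega

theorem gl_gex {L c : ℕ} (h : ∀ a, bt k1 O.x a L = c.testBit a) (p : ℕ × ℕ × ℕ) :
    gl P O.x k1 p L + (if (gcr P c p && gex P c p.2.2) = true then 1 else 0) ≤
      if gcr P c p = true then 1 else 0 := by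
  unfold gl
  rw [h, h]
  have e : (c.testBit (P.l p.1) != c.testBit (P.l (P.φ p.2.1))) = gcr P c p := rfl
  rw [e]
  cases hg : gcr P c p
  · simp
  · simp only [true_and, Bool.true_and, if_true]
    split_ifs with h1 h2 h2
    · exfalso
      unfold gex at h2
      rw [Bool.not_eq_true', Bool.or_eq_false_iff, decide_eq_false_iff_not] at h2
      obtain ⟨h3, h4⟩ := h2
      rcases h1 with h1 | h1
      · exact h3 h1
      · rw [Bool.eq_false_iff] at h4
        apply h4
        rw [allN_iff]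
        intro i hi
        have h5 := sumN_zero h1 i hi
        rw [Bool.not_eq_true', Bool.and_eq_false_iff]
        by_cases h6 : p.2.2.testBit i = true
        · right
          rw [if_pos h6, cl_crs (c := c) (fun a _ => h a) (Nat.zero_le _) (Nat.zero_le _)] at h5
          by_contra h7
          rw [Bool.not_eq_false] at h7
          rw [if_pos h7] at h5
          omega
        · left; simpa using h6
    · omega
    · omega
    · omega

theorem gnum_le {L c : ℕ} (h : ∀ a, bt k1 O.x a L = c.testBit a) : ∀ G : List (ℕ × ℕ × ℕ),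
    lls (fun p => gl P O.x k1 p L) G + gnum1 P c G ≤ gnum P c G
  | [] => by
    show 0 + 0 ≤ 0
    omega
  | p :: G => by
    rw [lls_cons, gnum, gnum1]
    have h1 := gl_gex (P := P) h p
    have h2 := gnum_le h G
    omega

theorem gbl_le {L c : ℕ} (h : ∀ a, bt k1 O.x a L = c.testBit a) :
    gbl (O.rr P c) (lls (fun p => gl P O.x k1 p L) G) ≤ gbn P O G c := by
  have h1 := gnum_le (P := P) h G
  set g := lls (fun p => gl P O.x k1 p L) G with hg
  have h2 : 2 * ((g + 1) / 2) ≤ gbon P c G := by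
    unfold gbon
    have h3 : g ≤ gnum P c G - (if gnum1 P c G = 0 then 0 else min (gnum1 P c G)
        (gnr P c (gmsk P c G))) := by
      split_ifs
      · omega
      · have := min_le_left (gnum1 P c G) (gnr P c (gmsk P c G))
        omega
    omega
  unfold gbl gbn
  split_ifs with h3 h4
  · omega
  · omega
  · exact Nat.zero_le _
  · exact Nat.zero_le _

/-! ### The bound 5 -/

theorem cn5_sem (D : List ℕ) : cn5 O k1 D = vec (2 ^ (k1 + O.x)) fun L =>
    (D.filter fun a => bt k1 O.x a L).length := by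
  unfold cn5
  rw [lls_sem (γ := fun a L => if bt k1 O.x a L = true then 1 else 0)]
  · refine vec_congr fun L _ => ?_
    induction D with
    | nil => rfl
    | cons a D ih =>
      rw [lls_cons, ih, List.filter_cons]
      cases bt k1 O.x a L
      · simp
      · simp; omega
  · intro a _
    rw [K.lgetD_eq, xt_sem]

theorem li5_sem (t : ℕ × ℕ × Bool) : li5 O k1 t = vec (2 ^ (k1 + O.x)) fun L =>
    if ((bt k1 O.x t.1 L != bt k1 O.x t.2.1 L) == t.2.2) = true then 1 else 0 := by
  unfold li5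
  rw [K.lgetD_eq, K.lgetD_eq, cx2_sem]
  beta_reduce
  have e1 : on (Nat.add k1 O.x) = vec (2 ^ (k1 + O.x)) fun _ => 1 := on_eq _
  cases h : t.2.2
  · show on (Nat.add k1 O.x) - _ = _
    rw [e1, vec_sub fun L _ => by split_ifs <;> omega]
    refine vec_congr fun L _ => ?_
    cases bt k1 O.x t.1 L <;> cases bt k1 O.x t.2.1 L <;> rfl
  · show (vec (2 ^ (k1 + O.x)) _) = _
    refine vec_congr fun L _ => ?_
    cases bt k1 O.x t.1 L <;> cases bt k1 O.x t.2.1 L <;> rfl

theorem bv5_sem (hD : ∀ D ∈ D5, D.length ≤ 1000) : bv5 O D5 p5 k1 = vec (2 ^ (k1 + O.x)) fun L =>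
    if b5 D5 p5 (fun a => bt k1 O.x a L) = true then 1 else 0 := by
  unfold bv5
  rw [K.lemp_eq]
  have eH : Nat.mul 32768 (on (Nat.add k1 O.x)) = vec (2 ^ (k1 + O.x)) fun _ => 32768 := on_k _ _
  have e2 : Nat.mul 2 (on (Nat.add k1 O.x)) = vec (2 ^ (k1 + O.x)) fun _ => 2 := on_k _ _
  have e1 : on (Nat.add k1 O.x) = vec (2 ^ (k1 + O.x)) fun _ => 1 := on_eq _
  have hlen : ∀ D ∈ D5, ∀ L, (D.filter fun a => bt k1 O.x a L).length ≤ 1000 := fun D h L =>
    (List.length_filter_le _ _).trans (hD D h)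
  have f1 : lor (fun D => geM (Nat.mul 32768 (on (Nat.add k1 O.x))) (cn5 O k1 D)
      (Nat.mul 2 (on (Nat.add k1 O.x)))) D5 = vec (2 ^ (k1 + O.x)) fun L =>
      if (D5.any fun D => decide (2 ≤ (D.filter fun a => bt k1 O.x a L).length)) = true
        then 32768 else 0 := by
    refine lor_sem (by norm_num) fun D h => ?_
    rw [eH, e2, cn5_sem, geM_eq (fun L _ => by have := hlen D h L; omega) (fun _ _ => by norm_num)]
    exact vec_congr fun L _ => by
      by_cases h2 : 2 ≤ (D.filter fun a => bt k1 O.x a L).length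
      · rw [if_pos h2, decide_eq_true h2, if_pos rfl]
      · rw [if_neg h2, decide_eq_false h2, if_neg (by simp)]
  have f2 : lor (fun D => geM (Nat.mul 32768 (on (Nat.add k1 O.x)))
      (Nat.mul (K.llen D) (on (Nat.add k1 O.x)))
      (Nat.add (cn5 O k1 D) (Nat.mul 2 (on (Nat.add k1 O.x))))) D5 = vec (2 ^ (k1 + O.x)) fun L =>
      if (D5.any fun D => decide ((D.filter fun a => bt k1 O.x a L).length + 2 ≤ D.length)) = true
        then 32768 else 0 := by
    refine lor_sem (by norm_num) fun D h => ?_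
    have e3 : Nat.mul (K.llen D) (on (Nat.add k1 O.x)) = vec (2 ^ (k1 + O.x)) fun _ =>
      D.length := by rw [K.llen_eq]; exact on_k _ _
    have e4 : Nat.add (cn5 O k1 D) (Nat.mul 2 (on (Nat.add k1 O.x))) =
        vec (2 ^ (k1 + O.x)) fun L => (D.filter fun a => bt k1 O.x a L).length + 2 := by
      rw [e2, cn5_sem]; exact vec_add _ _ _
    rw [eH, e3, e4, geM_eq (fun L _ => by have := hD D h; omega)
      (fun L _ => by have := hlen D h L; omega)]
    exact vec_congr fun L _ => by
      by_cases h2 : (D.filter fun a => bt k1 O.x a L).length + 2 ≤ D.length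
      · rw [if_pos h2, decide_eq_true h2, if_pos rfl]
      · rw [if_neg h2, decide_eq_false h2, if_neg (by simp)]
  have f3 : lor (fun E => lan (on (Nat.add k1 O.x)) (fun C => lor (li5 O k1) C) (Prod.snd E)) p5 =
      vec (2 ^ (k1 + O.x)) fun L => if (p5.any fun E => E.2.all fun C => C.any fun t =>
        (bt k1 O.x t.1 L != bt k1 O.x t.2.1 L) == t.2.2) = true then 1 else 0 := by
    refine lor_sem (by norm_num) fun E _ => ?_
    rw [e1]
    refine lan_sem (by norm_num) fun C _ => ?_
    exact lor_sem (by norm_num) fun t _ => li5_sem t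
  have f5 : lor (fun E => Bool.rec (motive := fun _ => ℕ) 0 (lan (on (Nat.add k1 O.x))
      (fun C => lor (li5 O k1) C) (Prod.snd E)) (K.o5 E)) p5 =
      vec (2 ^ (k1 + O.x)) fun L => if (p5.any fun E => o5 E && E.2.all fun C => C.any fun t =>
        (bt k1 O.x t.1 L != bt k1 O.x t.2.1 L) == t.2.2) = true then 1 else 0 := by
    refine lor_sem (by norm_num) fun E _ => ?_
    rw [K.o5_eq]
    cases ho : o5 E
    · show (0 : ℕ) = _
      refine (vec_zero _).symm.trans (vec_congr fun L _ => ?_)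
      rw [Bool.false_and, if_neg (by simp)]
    · show lan _ _ _ = _
      rw [e1]
      refine (lan_sem (by norm_num) fun C _ => lor_sem (by norm_num) fun t _ => li5_sem t).trans
        (vec_congr fun L _ => ?_)
      rw [Bool.true_and]
  cases h : p5.isEmpty
  · show Nat.lor (Nat.land (Nat.shiftRight (Nat.land _ _) 15) _) _ = _
    rw [f1, f2, f3, f5]
    show ((((vec _ _) &&& (vec _ _)) >>> 15) &&& _) ||| _ = _
    rw [vec_and (fun L _ => by split_ifs <;> norm_num) (fun L _ => by split_ifs <;> norm_num)]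
    have f4 : (vec (2 ^ (k1 + O.x)) fun L => (if (D5.any fun D => decide (2 ≤ (D.filter fun a =>
        bt k1 O.x a L).length)) = true then 32768 else 0) &&& (if (D5.any fun D => decide
        ((D.filter fun a => bt k1 O.x a L).length + 2 ≤ D.length)) = true then 32768 else 0)) =
        vec (2 ^ (k1 + O.x)) fun L => if ((D5.any fun D => decide (2 ≤ (D.filter fun a =>
          bt k1 O.x a L).length)) && (D5.any fun D => decide ((D.filter fun a =>
            bt k1 O.x a L).length + 2 ≤ D.length))) = true then 32768 else 0 :=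
      vec_congr fun L _ => by
        cases (D5.any fun D => decide (2 ≤ (D.filter fun a => bt k1 O.x a L).length)) <;>
          cases (D5.any fun D => decide ((D.filter fun a => bt k1 O.x a L).length + 2 ≤
            D.length)) <;> simp
    rw [f4, shr15, vec_and (fun L _ => by split_ifs <;> norm_num)
      (fun L _ => by split_ifs <;> norm_num), vec_or (fun L _ => by
        split_ifs <;> norm_num) (fun L _ => by split_ifs <;> norm_num)]
    refine vec_congr fun L _ => ?_
    unfold b5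
    cases ((D5.any fun D => decide (2 ≤ (D.filter fun a =>
          bt k1 O.x a L).length)) && (D5.any fun D => decide ((D.filter fun a =>
            bt k1 O.x a L).length + 2 ≤ D.length))) <;>
      cases (p5.any fun E => E.2.all fun C => C.any fun t =>
        (bt k1 O.x t.1 L != bt k1 O.x t.2.1 L) == t.2.2) <;>
      cases (p5.any fun E => o5 E && E.2.all fun C => C.any fun t =>
        (bt k1 O.x t.1 L != bt k1 O.x t.2.1 L) == t.2.2) <;> rfl
  · have hp : p5 = [] := List.isEmpty_iff.1 h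
    have e0 : (0 : ℕ) = vec (2 ^ (k1 + O.x)) fun _ => 0 := (vec_zero _).symm
    refine e0.trans (vec_congr fun L _ => ?_)
    rw [hp]
    unfold b5
    rw [List.any_nil, List.any_nil, Bool.and_false, Bool.or_false, if_neg (by simp)]

/-- 1 for the colourings with the bound 5 -/
def bl5 (D5 : List (List ℕ)) (p5 : List (List ℕ × List (List (ℕ × ℕ × Bool)))) (β : ℕ → Bool) : ℕ :=
  if b5 D5 p5 β = true then 1 else 0

theorem bl5_le {β : ℕ → Bool} : bl5 D5 p5 β ≤ 1 := by
  unfold bl5
  split_ifs <;> omega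

theorem tw5_sem (hD : ∀ D ∈ D5, D.length ≤ 1000) : tw5 O D5 p5 k1 = vec (2 ^ (k1 + O.x)) fun L =>
    2 * (1 + bl5 D5 p5 fun a => bt k1 O.x a L) := by
  unfold tw5
  have e1 : on (Nat.add k1 O.x) = vec (2 ^ (k1 + O.x)) fun _ => 1 := on_eq _
  rw [bv5_sem hD, e1]
  show 2 * (vec _ _ + vec _ _) = _
  rw [vec_add, vec_mul]
  rfl

/-- the needed weight, one lane -/
noncomputable def nl (O : OD) (P : Pa) (G : List (ℕ × ℕ × ℕ)) (D5 : List (List ℕ))
    (p5 : List (List ℕ × List (List (ℕ × ℕ × Bool)))) (k1 : ℕ) (L : ℕ) : ℕ :=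
  if G = [] then (FC6.sumN P.n fun i => if P.real i = true then cl P k1 O.x 0 i L else 0) -
    2 * (1 + bl5 D5 p5 fun a => bt k1 O.x a L)
  else min ((FC6.sumN P.n fun i => if P.real i = true then cl P k1 O.x 0 i L else 0) -
      2 * (1 + bl5 D5 p5 fun a => bt k1 O.x a L))
    (6 - gbl (FC6.sumN P.n fun i => if (O.rg P i && P.real i) = true then cl P k1 O.x 0 i L else 0)
        (lls (fun p => gl P O.x k1 p L) G))

theorem sumN_cl_le {p : ℕ → Bool} {x L : ℕ} (hn : P.n ≤ 10000) :
    (FC6.sumN P.n fun i => if p i = true then cl P k1 x 0 i L else 0) ≤ 10000 :=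
  (sumN_le1 fun i _ => by
    split_ifs
    · exact cl_le
    · omega).trans hn

theorem ned_sem (hn : P.n ≤ 10000) (hG : G.length ≤ 1000) (hD : ∀ D ∈ D5, D.length ≤ 1000) :
    ned O P G D5 p5 k1 = vec (2 ^ (k1 + O.x)) (nl O P G D5 p5 k1) := by
  have eH : Nat.mul 32768 (on (Nat.add k1 O.x)) = vec (2 ^ (k1 + O.x)) fun _ => 32768 := on_k _ _
  have e6 : Nat.mul 6 (on (Nat.add k1 O.x)) = vec (2 ^ (k1 + O.x)) fun _ => 6 := on_k _ _
  have hS : ∀ L, (FC6.sumN P.n fun i => if P.real i = true then cl P k1 O.x 0 i L else 0) ≤ 10000 :=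
    fun L => sumN_cl_le hn
  have hR : ∀ L, (FC6.sumN P.n fun i => if (O.rg P i && P.real i) = true then cl P k1 O.x 0 i L
      else 0) ≤ 10000 := fun L => sumN_cl_le (p := fun i => O.rg P i && P.real i) hn
  have hg : ∀ L, lls (fun p => gl P O.x k1 p L) G ≤ 1000 := fun L =>
    (lls_le_len (fun _ => gl_le) G).trans hG
  have hb : ∀ L, gbl (FC6.sumN P.n fun i => if (O.rg P i && P.real i) = true then
      cl P k1 O.x 0 i L else 0) (lls (fun p => gl P O.x k1 p L) G) ≤ 11001 := by
    intro L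
    have h1 := hR L
    have h2 := hg L
    unfold gbl
    split_ifs <;> omega
  have e3 : ssub (vec (2 ^ (k1 + O.x)) fun _ => 32768) (vec (2 ^ (k1 + O.x)) fun L =>
      FC6.sumN P.n fun i => if P.real i = true then cl P k1 O.x 0 i L else 0)
      (vec (2 ^ (k1 + O.x)) fun L => 2 * (1 + bl5 D5 p5 fun a => bt k1 O.x a L)) = vec (2 ^ (k1 + O.x)) fun L =>
      (FC6.sumN P.n fun i => if P.real i = true then cl P k1 O.x 0 i L else 0) -
        2 * (1 + bl5 D5 p5 fun a => bt k1 O.x a L) :=
    ssub_eq (fun L _ => by have := hS L; omega) fun L _ => by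
      have := bl5_le (D5 := D5) (p5 := p5) (β := fun a => bt k1 O.x a L)
      omega
  unfold ned
  rw [eH, tw5_sem hD, e6, vS_sem, e3, gb2_sem hn hG, ssub_eq (fun _ _ => by norm_num)
    (fun L _ => by have := hb L; omega), vmin_eq (fun L _ => by have := hS L; omega)
    (fun L _ => by omega), K.lemp_eq]
  cases G with
  | nil => exact vec_congr fun L _ => by rw [nl, if_pos rfl]
  | cons p G => exact vec_congr fun L _ => by rw [nl, if_neg (by simp)]

theorem nl_lt (hn : P.n ≤ 10000) (L : ℕ) : nl O P G D5 p5 k1 L < 16384 := by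
  have h := sumN_cl_le (P := P) (k1 := k1) (p := P.real) (x := O.x) (L := L) hn
  unfold nl
  split_ifs
  · omega
  · have := min_le_left ((FC6.sumN P.n fun i => if P.real i = true then cl P k1 O.x 0 i L else 0) -
        2 * (1 + bl5 D5 p5 fun a => bt k1 O.x a L))
      (6 - gbl (FC6.sumN P.n fun i => if (O.rg P i && P.real i) = true then cl P k1 O.x 0 i L
        else 0) (lls (fun p => gl P O.x k1 p L) G))
    omega

/-- a bound for all entries -/
theorem fold_sem' (M : ℕ) {c : ℕ} : ∀ (j : ℕ) (f : ℕ → ℕ), (∀ L < 2 ^ (M + j), f L < c) → c ≤ 32768 →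
    ∃ g : ℕ → ℕ, fold M j (vec (2 ^ (M + j)) f) = vec (2 ^ M) g ∧ (∀ L < 2 ^ M, g L < c) ∧
      ∀ L < 2 ^ M, ∃ q < 2 ^ j, g L = f (L + 2 ^ M * q) := by
  intro j f h hc
  obtain ⟨g, g1, -, g3⟩ := fold_sem M j f fun L hL => lt_of_lt_of_le (h L hL) hc
  refine ⟨g, g1, fun L hL => ?_, g3⟩
  obtain ⟨q, q1, q2⟩ := g3 L hL
  rw [q2]
  apply h
  calc L + 2 ^ M * q < 2 ^ M + 2 ^ M * q := by omega
    _ = 2 ^ M * (q + 1) := by ring
    _ ≤ 2 ^ M * 2 ^ j := Nat.mul_le_mul_left _ q1
    _ = 2 ^ (M + j) := by rw [pow_add]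

theorem nex_sem (hn : P.n ≤ 10000) (hG : G.length ≤ 1000) (hD : ∀ D ∈ D5, D.length ≤ 1000) :
    ∃ g : ℕ → ℕ, (∀ L < 2 ^ k1, g L < 16384) ∧
      (∀ L < 2 ^ k1, ∃ q < 2 ^ O.x, g L = nl O P G D5 p5 k1 (L + 2 ^ k1 * q)) ∧
      nex O P G D5 p5 k1 j = vec (2 ^ (k1 + j)) fun L => if L = 0 then g 0 else g (L % 2 ^ k1) +
        if L % 2 ^ k1 = 0 then 16384 else 0 := by
  obtain ⟨g, g1, g2, g3⟩ := fold_sem' k1 O.x (nl O P G D5 p5 k1) (c := 16384)
    (fun L _ => nl_lt hn L) (by norm_num)
  refine ⟨g, g2, g3, ?_⟩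
  have e1 : nex O P G D5 p5 k1 j = rep k1 j (fold k1 O.x (ned O P G D5 p5 k1) + 16384) - 16384 := rfl
  rw [e1, ned_sem hn hG hD, g1]
  have p1 : 0 < 2 ^ k1 := by positivity
  have p2 : 0 < 2 ^ (k1 + j) := by positivity
  have single : ∀ {n : ℕ}, 0 < n → (16384 : ℕ) = vec n fun L => if L = 0 then 16384 else 0 := by
    intro n hn
    unfold vec
    rw [Finset.sum_eq_single_of_mem 0 (Finset.mem_range.2 hn)]
    · simp
    · intro b _ hb
      beta_reduce
      rw [if_neg hb, zero_mul]
  have e2 : vec (2 ^ k1) g + 16384 = vec (2 ^ k1) fun L => g L + if L = 0 then 16384 else 0 := by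
    conv_lhs => rw [single p1]
    rw [vec_add]
  rw [e2, rep_sem]
  have e3 : (vec (2 ^ (k1 + j)) fun L => g (L % 2 ^ k1) + if L % 2 ^ k1 = 0 then 16384 else 0) - 16384 =
      (vec (2 ^ (k1 + j)) fun L => g (L % 2 ^ k1) + if L % 2 ^ k1 = 0 then 16384 else 0) -
        vec (2 ^ (k1 + j)) fun L => if L = 0 then 16384 else 0 := by
    rw [← single p2]
  rw [e3, vec_sub]
  · refine vec_congr fun L _ => ?_
    by_cases h1 : L = 0
    · rw [if_pos h1, if_pos h1, h1, Nat.zero_mod, if_pos rfl, Nat.add_sub_cancel]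
    · rw [if_neg h1, if_neg h1, Nat.sub_zero]
  · intro L _
    by_cases h1 : L = 0
    · rw [if_pos h1, h1, Nat.zero_mod, if_pos rfl]; exact Nat.le_add_left _ _
    · rw [if_neg h1]; exact Nat.zero_le _

theorem bf5_eq {c f : ℕ} : bf5 [] 0 D5 p5 f c = if c &&& f = 0 ∨ c &&& f = f then 3 else
    if b5 D5 p5 c.testBit = true then 5 else 4 := by
  unfold bf5
  split_ifs with h
  · rfl
  · rfl
  · unfold bfq
    rw [if_neg]
    simp

/-- all real darts have equal colours at their ends -/
theorem inS_mono {m c : ℕ} (hs : ∀ i < P.n, P.real i = true → P.l i < m ∧ P.l (P.φ i) < m)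
    (h : c &&& (2 ^ m - 1) = 0 ∨ c &&& (2 ^ m - 1) = 2 ^ m - 1) : FC6.OD.inS P c = 0 := by
  unfold FC6.OD.inS
  rw [FC6.sumN_eq]
  refine Finset.sum_eq_zero fun i hi => ?_
  rw [if_neg]
  intro h1
  rw [Bool.and_eq_true] at h1
  obtain ⟨a1, a2⟩ := hs i (Finset.mem_range.1 hi) h1.1
  have key : ∀ a < m, c.testBit a = decide (c &&& (2 ^ m - 1) ≠ 0) := by
    intro a ha
    have e : (c &&& (2 ^ m - 1)).testBit a = c.testBit a := by
      rw [Nat.testBit_and, Nat.testBit_two_pow_sub_one, decide_eq_true ha, Bool.and_true]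
    rcases h with h | h
    · rw [h, Nat.zero_testBit] at e
      rw [← e, h]; simp
    · rw [h, Nat.testBit_two_pow_sub_one, decide_eq_true ha] at e
      rw [← e, h]
      symm
      rw [decide_eq_true_eq]
      have : 2 ^ 1 ≤ 2 ^ m := Nat.pow_le_pow_right (by norm_num) (by omega)
      omega
  have h2 := h1.2
  rw [key _ a1, key _ a2] at h2
  simp at h2

/-- SOUNDNESS of the cut check -/
theorem vchk_sound (hs : O.stat P P' = true) (h : vchk C O P P' G D5 p5 = true) :
    C.chk O P P' (bf5 [] 0 D5 p5 (2 ^ O.m - 1)) (gbn P O G) = true := by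
  unfold vchk at h
  simp only [K.band_eq, K.nble_eq, Bool.and_eq_true, decide_eq_true_eq, K.llen_eq, K.lall_eq,
    List.all_eq_true] at h
  obtain ⟨h1, h2, h3, h4, h5, h6, h6d, h7⟩ := h
  have h3 : O.x + 1 ≤ O.m := h3
  set k1 := Nat.pred (Nat.sub O.m O.x) with hk1
  set j := Nat.sub O.x O.lo with hj
  have ek : O.m = k1 + O.x + 1 := by
    have : k1 = O.m - O.x - 1 := rfl
    omega
  have ej : j + O.lo = O.x := by
    have : j = O.x - O.lo := rfl
    omega
  -- the static part
  rw [← K.CD_chk_eq]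
  change K.band (vst C O P P') (K.CD_dfs C O P P' _ _ C.lv O.lo 0 0 0) = true
  rw [K.band_eq, h1, Bool.true_and, K.CD_dfs_eq]
  have hst := h1
  unfold vst at hst
  simp only [K.band_eq, Bool.and_eq_true, K.nbeq_eq, K.llen_eq, K.CD_lvc_eq, decide_eq_true_eq,
    K.lall_eq, List.all_eq_true, K.nble_eq] at hst
  obtain ⟨⟨⟨⟨s1, s2⟩, -⟩, -⟩, s5⟩ := hst
  have hfl := CD.lvc_sound _ _ s2
  -- the vectors
  unfold vmain at h7
  rw [K.nbeq_eq, decide_eq_true_eq] at h7
  have eH : Nat.mul 32768 (on (Nat.add k1 j)) = vec (2 ^ (k1 + j)) fun _ => 32768 := on_k _ _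
  have e6 : Nat.mul 6 (on (Nat.add k1 j)) = vec (2 ^ (k1 + j)) fun _ => 6 := on_k _ _
  have ht : lls (fun l => lsm (K.CD_wA O P) (fun _ => 1) l) C.lv +
      lls (fun l => lsm (K.CD_wB O P) (fun _ => 1) l) C.lv +
      2 * lls (fun l => lsm P'.u (fun _ => 1) l) C.ul ≤ 16000 := h4
  have hW : ∀ wg : ℕ → ℕ, ∀ L, lls (fun l => lsm wg (fun i => cl P' k1 j O.lo i L) l) C.lv ≤
      lls (fun l => lsm wg (fun _ => 1) l) C.lv := fun wg L =>
    lls_le fun l _ => lsm_le fun i _ => cl_le
  let un1 : ℕ → List ℕ → ℕ := fun L u =>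
    min (lsm P'.u (fun i => if bt k1 j (P'.l i - O.lo) L = true then 1 else 0) u)
        (lsm P'.u (fun _ => 1) u - lsm P'.u (fun i => if bt k1 j (P'.l i - O.lo) L = true then 1
          else 0) u)
  have hU : ∀ L, lls (un1 L) C.ul ≤ lls (fun l => lsm P'.u (fun _ => 1) l) C.ul := fun L =>
    lls_le fun l _ => le_trans (min_le_right _ _) (Nat.sub_le _ _)
  have eU : vU C O P' k1 j = vec (2 ^ (k1 + j)) fun L => 2 * lls (un1 L) C.ul := by
    unfold vU
    rw [lls_sem (γ := fun u L => un1 L u)]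
    · exact vec_mul _ _ _
    · intro u hu
      refine unv_sem ?_
      have := lls_mem (g := fun l => lsm P'.u (fun _ => 1) l) hu
      omega
  have eV : ∀ wg : ℕ → ℕ, Nat.add (lls (fun l => lsm wg (cx P' (xt k1 j) O.lo) l) C.lv)
      (vU C O P' k1 j) = vec (2 ^ (k1 + j)) fun L =>
        lls (fun l => lsm wg (fun i => cl P' k1 j O.lo i L) l) C.lv + 2 * lls (un1 L) C.ul := by
    intro wg
    rw [eU, lls_sem (γ := fun l L => lsm wg (fun i => cl P' k1 j O.lo i L) l)]
    · exact vec_add _ _ _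
    · intro l _
      exact lsm_sem (γ := fun i L => cl P' k1 j O.lo i L) fun i _ => cx_sem _ _ _ _ _
  obtain ⟨g, g1, g2, g3⟩ := nex_sem (j := j) (O := O) (P := P) (G := G) (k1 := k1) (p5 := p5)
    (by omega) h6 h6d
  have bA := hW (K.CD_wA O P)
  have bB := hW (K.CD_wB O P)
  have hlt : ∀ L < 2 ^ (k1 + j), (if L = 0 then g 0 else g (L % 2 ^ k1) +
      if L % 2 ^ k1 = 0 then 16384 else 0) < 32768 := by
    intro L _
    have a1 := g1 (L % 2 ^ k1) (Nat.mod_lt _ (by positivity))
    have a2 := g1 0 (by positivity)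
    split_ifs <;> omega
  unfold vA vB at h7
  rw [eV, eV, g3, eH, e6, geM_eq (fun L _ => by have := bA L; have := hU L; omega)
    (fun _ _ => by norm_num), geM_eq (fun L _ => by have := bB L; have := hU L; omega) hlt] at h7
  change (vec (2 ^ (k1 + j)) _) ||| (vec (2 ^ (k1 + j)) _) = _ at h7
  rw [vec_or (fun L _ => by split_ifs <;> norm_num) (fun L _ => by split_ifs <;> norm_num)] at h7
  have key := vec_inj (fun L _ => Nat.or_lt_two_pow (n := 16) (by split_ifs <;> norm_num)
    (by split_ifs <;> norm_num)) (fun _ _ => by norm_num) h7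
  -- the search
  refine dfs_of C.lv O.lo 0 0 0 (by rw [← K.CD_lvc_eq]; rw [K.CD_lvc_eq]; exact s2) (by positivity)
    fun c c1 c2 c3 => ?_
  have s1' : C.lv.length = O.m - O.lo := s1
  have c1' : c < 2 ^ O.m := by
    rw [s1', Nat.add_sub_cancel' (by omega)] at c1
    exact c1
  have c3' : c.testBit O.x = false := c3 (by omega)
  obtain ⟨L, l1, l2⟩ := lane_of ek ej c1' c3'
  have hk := key L l1
  rw [zero_add, zero_add]
  have hdart : ∀ i ∈ C.lv.flatten, cl P' k1 j O.lo i L = if OD.crs P' c i = true then 1 else 0 := by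
    intro i hi
    obtain ⟨a1, a2⟩ := hfl i hi
    have a3 := (OD.stat1 hs a1).r' a2
    exact cl_crs l2 a3.1 a3.2.2.1
  have hsm : ∀ wg : ℕ → ℕ, lls (fun l => lsm wg (fun i => cl P' k1 j O.lo i L) l) C.lv =
      CD.sm P' wg c C.lv.flatten := by
    intro wg
    rw [← lls_flat]
    have : ∀ ls : List (List ℕ), (∀ l ∈ ls, ∀ i ∈ l, i ∈ C.lv.flatten) →
        lls (fun l => lsm wg (fun i => cl P' k1 j O.lo i L) l) ls =
          lls (fun l => CD.sm P' wg c l) ls := by
      intro ls
      induction ls with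
      | nil => intro _; rfl
      | cons l ls ih =>
        intro hls
        rw [lls_cons, lls_cons, ih fun l' hl' => hls l' (List.mem_cons_of_mem _ hl'),
          lsm_eq fun i hi => hdart i (hls l (by simp) i hi)]
    exact this C.lv fun l hl i hi => List.mem_flatten.2 ⟨l, hl, hi⟩
  have hun : lls (un1 L) C.ul = CD.un P' c C.ul := un_lls l2 fun l hl i hi hu =>
    ((OD.stat1 hs ((s5 l hl i hi).1)).u hu).1
  rw [hsm, hsm, hun, K.CD_wA_eq, K.CD_wB_eq] at hk
  unfold CD.leaf
  rw [Bool.or_eq_true, decide_eq_true_eq]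
  by_cases hA : 6 ≤ CD.sm P' (CD.wA O P) c C.lv.flatten + 2 * CD.un P' c C.ul
  · exact Or.inl hA
  right
  rw [if_neg hA, Nat.zero_or] at hk
  have hB : (if L = 0 then g 0 else g (L % 2 ^ k1) + if L % 2 ^ k1 = 0 then 16384 else 0) ≤
      CD.sm P' (CD.wB O P) c C.lv.flatten + 2 * CD.un P' c C.ul := by
    by_contra hcon
    rw [if_neg hcon] at hk
    norm_num at hk
  have hBlt : CD.sm P' (CD.wB O P) c C.lv.flatten + 2 * CD.un P' c C.ul < 16384 := by
    have a1 := bB L
    have a2 := hU L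
    rw [hsm, K.CD_wB_eq] at a1
    rw [hun] at a2
    rw [K.CD_wB_eq] at ht
    omega
  have hout : g (L % 2 ^ k1) ≤ CD.sm P' (CD.wB O P) c C.lv.flatten + 2 * CD.un P' c C.ul := by
    split_ifs at hB with q1 q2
    · rw [q1, Nat.zero_mod]; exact hB
    · omega
    · omega
  rw [Bool.and_eq_true, Bool.or_eq_true, decide_eq_true_eq, decide_eq_true_eq]
  constructor
  · -- the outer part
    by_contra hcon
    push Not at hcon
    obtain ⟨d1, d2⟩ := hcon
    -- all outer bits are 0
    have hz : L % 2 ^ k1 = 0 := by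
      apply Nat.eq_of_testBit_eq
      intro t
      rw [Nat.testBit_mod_two_pow, Nat.zero_testBit]
      by_cases ht : t < k1
      · rw [decide_eq_true ht, Bool.true_and]
        have h9 := l2 (O.m - 1 - t) (by omega)
        have h10 : c.testBit (O.m - 1 - t) = false := by
          have : (c >>> O.x).testBit (O.m - 1 - t - O.x) = false := by rw [d1, Nat.zero_testBit]
          have e : O.x + (O.m - 1 - t - O.x) = O.m - 1 - t := by omega
          rw [Nat.testBit_shiftRight, e] at this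
          exact this
        rw [h10] at h9
        unfold bt at h9
        rw [if_neg (by omega), decide_eq_true (by omega : j < O.m - 1 - t - O.lo),
          decide_eq_true (by omega : O.m - 1 - t - O.lo ≤ j + k1), Bool.true_and, Bool.true_and,
          Nat.testBit_mod_two_pow] at h9
        have e9 : k1 + j - (O.m - 1 - t - O.lo) = t := by omega
        rw [e9, decide_eq_true ht, Bool.true_and] at h9
        exact h9
      · rw [decide_eq_false ht, Bool.false_and]
    split_ifs at hB with q1 q2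
    · -- `L = 0`
      apply d2
      apply Nat.eq_of_testBit_eq
      intro t
      rw [Nat.testBit_shiftRight, Nat.zero_testBit, ← l2 (O.lo + t) (by omega), q1]
      unfold bt
      split_ifs
      · exact Nat.zero_testBit _
      · rw [Nat.zero_mod, Nat.zero_testBit, Bool.and_false]
    · omega
  · -- an inner colouring
    obtain ⟨q, q1, q2⟩ := g2 (L % 2 ^ k1) (Nat.mod_lt _ (by positivity))
    have hmod : (L % 2 ^ k1 + 2 ^ k1 * q) % 2 ^ k1 = L % 2 ^ k1 := by
      rw [Nat.add_mul_mod_self_left, Nat.mod_mod]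
    obtain ⟨ξ, x1, -, x3⟩ := lane_xi ek ej c3' l2 hmod
    rw [q2] at hout
    unfold nl at hout
    rw [inS_lane x3, rr_lane x3] at hout
    have hne : ∀ {p : ℕ → Bool}, (∃ ξ < 2 ^ O.x, p ξ = true) →
        (!allN (2 ^ O.x) fun ξ => !p ξ) = true := by
      rintro p ⟨ξ, y1, y2⟩
      rw [Bool.not_eq_true', Bool.eq_false_iff]
      intro hcon
      rw [allN_iff] at hcon
      have := hcon ξ y1
      rw [y2] at this
      exact absurd this (by simp)
    have e5 : (fun a => bt k1 O.x a (L % 2 ^ k1 + 2 ^ k1 * q)) =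
        (2 ^ O.x * (c >>> O.x) + ξ).testBit := funext x3
    rw [e5] at hout
    have first : FC6.OD.inS P (2 ^ O.x * (c >>> O.x) + ξ) -
        2 * (1 + bl5 D5 p5 (2 ^ O.x * (c >>> O.x) + ξ).testBit) ≤
        CD.sm P' (CD.wB O P) c C.lv.flatten + 2 * CD.un P' c C.ul →
        (!allN (2 ^ O.x) fun ξ => !decide (6 + FC6.OD.inS P (2 ^ O.x * (c >>> O.x) + ξ) ≤
          2 * bf5 [] 0 D5 p5 (2 ^ O.m - 1) (2 ^ O.x * (c >>> O.x) + ξ) +
            (CD.sm P' (CD.wB O P) c C.lv.flatten + 2 * CD.un P' c C.ul))) = true := by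
      intro h9
      refine hne ⟨ξ, x1, decide_eq_true ?_⟩
      rw [bf5_eq]
      unfold bl5 at h9
      by_cases h10 : (2 ^ O.x * (c >>> O.x) + ξ) &&& (2 ^ O.m - 1) = 0 ∨
          (2 ^ O.x * (c >>> O.x) + ξ) &&& (2 ^ O.m - 1) = 2 ^ O.m - 1
      · rw [if_pos h10, inS_mono (fun i hi hr => (OD.stat1 hs hi).r hr) h10]
        omega
      · rw [if_neg h10]
        split_ifs at h9 ⊢ with h11
        · omega
        · omega
    have second : 6 - gbl (O.rr P (2 ^ O.x * (c >>> O.x) + ξ))
          (lls (fun p => gl P O.x k1 p (L % 2 ^ k1 + 2 ^ k1 * q)) G) ≤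
        CD.sm P' (CD.wB O P) c C.lv.flatten + 2 * CD.un P' c C.ul →
        (!allN (2 ^ O.x) fun ξ => !decide (6 ≤ gbn P O G (2 ^ O.x * (c >>> O.x) + ξ) +
            (CD.sm P' (CD.wB O P) c C.lv.flatten + 2 * CD.un P' c C.ul))) = true := by
      intro h9
      refine hne ⟨ξ, x1, decide_eq_true ?_⟩
      have := gbl_le (P := P) (G := G) x3
      omega
    rw [Bool.or_eq_true]
    split_ifs at hout with h11
    · exact Or.inl (first hout)
    · rcases min_le_iff.1 hout with h12 | h12
      · exact Or.inl (first h12)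
      · exact Or.inr (second h12)

end Vc

end Pool.FC7
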