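import Pool.Agent.FC7.VcA

/-! # Vector form of the static checks: basic operations

A function of one variable is a number with `N + 1` lanes of 16 bits, a function of two variables
`(j, i)` (`j` = row, `j < N`) a number with `N * (N + 1)` lanes. -/

open Finset

set_option linter.unusedSectionVars false

namespace Pool.FC7

namespace Vs

open Vc (vec vec_congr vec_add vec_mul vec_zero vec_le vec_sub vec_app vec_split vec_lt vec_bit
  vec_and vec_or vec_xor vec_inj pow16)

/-- lane `i` -/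
def tx (T i : ℕ) : ℕ := Nat.land (Nat.shiftRight T (Nat.mul (nat_lit 16) i)) (nat_lit 65535)

/-- number of a truth value -/
noncomputable def bt (b : Bool) : ℕ :=
  Bool.rec (motive := fun _ => ℕ) (nat_lit 0) (nat_lit 1) b

/-- lane `i`, truth values -/
def tf (T i : ℕ) : Bool := K.tbit T (Nat.mul (nat_lit 16) i)

theorem bt_le (b : Bool) : bt b ≤ 1 := by cases b <;> decide

theorem bt_lt (b : Bool) : bt b < 65536 := by cases b <;> decide

/-- `V` = the numbers `f i`, `i < M` -/
structure L (M V : ℕ) (f : ℕ → ℕ) (b : ℕ) : Prop where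
  eq : V = vec M f
  le : ∀ i < M, f i ≤ b
  hb : b ≤ 32767

/-- `V` = the truth values `p i`, `i < M` -/
def B (M V : ℕ) (p : ℕ → Bool) : Prop := V = vec M fun i => bt (p i)

variable {M V W C : ℕ} {f g : ℕ → ℕ} {b c : ℕ} {p q : ℕ → Bool}

theorem L.lt (h : L M V f b) (i : ℕ) (hi : i < M) : f i < 32768 := by
  have := h.le i hi; have := h.hb; omega

theorem L.lt' (h : L M V f b) (i : ℕ) (hi : i < M) : f i < 65536 := by
  have := h.lt i hi; omega

theorem B.L (h : B M V p) : L M V (fun i => bt (p i)) 1 := ⟨h, fun i _ => bt_le _, by norm_num⟩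

theorem L.mono (h : L M V f b) (hc : b ≤ c) (h' : c ≤ 32767) : L M V f c :=
  ⟨h.eq, fun i hi => (h.le i hi).trans hc, h'⟩

/-! ### Truth values -/

theorem B.and (h1 : B M V p) (h2 : B M W q) : B M (Nat.land V W) fun i => K.band (p i) (q i) := by
  have e : Nat.land V W = vec M (fun i => bt (p i)) &&& vec M fun i => bt (q i) := by
    rw [← show V = _ from h1, ← show W = _ from h2]; rfl
  unfold B
  rw [e, vec_and (fun i _ => bt_lt _) (fun i _ => bt_lt _)]
  exact vec_congr fun i _ => by beta_reduce; cases p i <;> cases q i <;> rfl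

theorem B.or (h1 : B M V p) (h2 : B M W q) : B M (Nat.lor V W) fun i => K.bor (p i) (q i) := by
  have e : Nat.lor V W = vec M (fun i => bt (p i)) ||| vec M fun i => bt (q i) := by
    rw [← show V = _ from h1, ← show W = _ from h2]; rfl
  unfold B
  rw [e, vec_or (fun i _ => bt_lt _) (fun i _ => bt_lt _)]
  exact vec_congr fun i _ => by beta_reduce; cases p i <;> cases q i <;> rfl

theorem B.xor (h1 : B M V p) (h2 : B M W q) :
    Nat.xor V W = vec M fun i => bt (K.bnot (K.beqB (p i) (q i))) := by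
  have e : Nat.xor V W = vec M (fun i => bt (p i)) ^^^ vec M fun i => bt (q i) := by
    rw [← show V = _ from h1, ← show W = _ from h2]; rfl
  rw [e, vec_xor (fun i _ => bt_lt _) (fun i _ => bt_lt _)]
  exact vec_congr fun i _ => by beta_reduce; cases p i <;> cases q i <;> rfl

theorem B.not {o : ℕ} (ho : o = vec M fun _ => 1) (h1 : B M V p) :
    B M (Nat.sub o V) fun i => K.bnot (p i) := by
  have e : Nat.sub o V = vec M (fun _ => 1) - vec M fun i => bt (p i) := by
    rw [← show V = _ from h1, ← ho]; rfl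
  unfold B
  rw [e, vec_sub fun i _ => bt_le _]
  exact vec_congr fun i _ => by beta_reduce; cases p i <;> rfl

theorem B.beqB {o : ℕ} (ho : o = vec M fun _ => 1) (h1 : B M V p) (h2 : B M W q) :
    B M (Nat.sub o (Nat.xor V W)) fun i => K.beqB (p i) (q i) := by
  have e : Nat.sub o (Nat.xor V W) =
      vec M (fun _ => 1) - vec M fun i => bt (K.bnot (K.beqB (p i) (q i))) := by
    rw [← ho, ← h1.xor h2]; rfl
  unfold B
  rw [e, vec_sub fun i _ => bt_le _]
  exact vec_congr fun i _ => by beta_reduce; cases p i <;> cases q i <;> rfl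

theorem B.tru {o : ℕ} (ho : o = vec M fun _ => 1) : B M o fun _ => true := ho

theorem B.fls : B M 0 fun _ => false := (vec_zero M).symm

theorem B.sel (hc : B M C p) (h1 : B M V q) {r : ℕ → Bool} (h2 : B M W r) :
    B M (Nat.xor W (Nat.land (Nat.xor W V) C)) fun i =>
      Bool.rec (motive := fun _ => Bool) (r i) (q i) (p i) := by
  have e : Nat.xor W (Nat.land (Nat.xor W V) C) = vec M (fun i => bt (r i)) ^^^
      ((vec M (fun i => bt (r i)) ^^^ vec M fun i => bt (q i)) &&& vec M fun i => bt (p i)) := by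
    rw [← show C = _ from hc, ← show V = _ from h1, ← show W = _ from h2]; rfl
  unfold B
  rw [e, vec_xor (fun i _ => bt_lt _) (fun i _ => bt_lt _),
    vec_and (fun i _ => Nat.xor_lt_two_pow (n := 16) (bt_lt _) (bt_lt _)) (fun i _ => bt_lt _),
    vec_xor (fun i _ => bt_lt _) (fun i _ => lt_of_le_of_lt Nat.and_le_right (bt_lt _))]
  exact vec_congr fun i _ => by beta_reduce; cases p i <;> cases q i <;> cases r i <;> rfl

/-! ### Numbers -/

theorem L.cst {o : ℕ} (ho : o = vec M fun _ => 1) (c : ℕ) (hc : c ≤ 32767) :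
    L M (Nat.mul o c) (fun _ => c) c := by
  refine ⟨?_, fun _ _ => le_rfl, hc⟩
  have e : Nat.mul o c = c * vec M fun _ => 1 := by rw [← ho]; exact Nat.mul_comm o c
  rw [e, vec_mul]
  exact vec_congr fun i _ => Nat.mul_one c

/-- a number which does not depend on the lane -/
theorem L.scl {o s t : ℕ} (ho : o = vec M fun _ => 1) (hs : s = t) (ht : t ≤ b) (hb : b ≤ 32767) :
    L M (Nat.mul o s) (fun _ => t) b := by
  subst hs
  exact ⟨(L.cst ho s (ht.trans hb)).eq, fun _ _ => ht, hb⟩

theorem B.scl {o : ℕ} {s t : Bool} (ho : o = vec M fun _ => 1) (hs : s = t) :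
    B M (Nat.mul o (bt s)) fun _ => t := by
  subst hs
  have := (L.cst ho (bt s) (by cases s <;> decide)).eq
  exact this

theorem L.add (h1 : L M V f b) (h2 : L M W g c) (h : b + c ≤ 32767) :
    L M (Nat.add V W) (fun i => Nat.add (f i) (g i)) (b + c) := by
  refine ⟨?_, fun i hi => Nat.add_le_add (h1.le i hi) (h2.le i hi), h⟩
  have e : Nat.add V W = vec M f + vec M g := by rw [← h1.eq, ← h2.eq]; rfl
  rw [e, vec_add]
  rfl

/-- multiplication by a number -/
theorem L.mulc (h1 : L M V f b) (c : ℕ) (h : b * c ≤ 32767) :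
    L M (Nat.mul V c) (fun i => Nat.mul (f i) c) (b * c) := by
  refine ⟨?_, fun i hi => Nat.mul_le_mul_right _ (h1.le i hi), h⟩
  have e : Nat.mul V c = c * vec M f := by rw [← h1.eq]; exact Nat.mul_comm V c
  rw [e, vec_mul]
  exact vec_congr fun i _ => Nat.mul_comm c (f i)

theorem L.cmul (h1 : L M V f b) (c : ℕ) (h : c * b ≤ 32767) :
    L M (Nat.mul c V) (fun i => Nat.mul c (f i)) (c * b) := by
  refine ⟨?_, fun i hi => Nat.mul_le_mul_left _ (h1.le i hi), h⟩
  have e : Nat.mul c V = c * vec M f := by rw [← h1.eq]; rfl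
  rw [e, vec_mul]
  rfl

theorem shr15 (M : ℕ) (b : ℕ → Bool) :
    (vec M fun i => if b i then 32768 else 0) >>> 15 = vec M fun i => bt (b i) := by
  rw [Vc.shr15]
  exact vec_congr fun i _ => by beta_reduce; cases b i <;> rfl

theorem bit15 {x : ℕ} (hx : x < 65536) : x &&& 32768 = if 32768 ≤ x then 32768 else 0 := by
  have h := Vc.ge_lane (a := x % 32768) (b := 0) (Nat.mod_lt _ (by norm_num)) (by norm_num)
  by_cases h1 : 32768 ≤ x
  · rw [if_pos h1]
    rw [if_pos (Nat.zero_le _)] at h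
    have : x % 32768 + 32768 - 0 = x := by omega
    rw [this] at h
    exact h
  · rw [if_neg h1]
    apply Nat.eq_of_testBit_eq
    intro j
    rw [Nat.testBit_and]
    by_cases hj : j = 15
    · subst hj
      rw [Nat.testBit_lt_two_pow (show x < 2 ^ 15 by omega)]
      simp
    · have e : (32768 : ℕ) = 2 ^ 15 := rfl
      rw [e, Nat.testBit_two_pow_of_ne (Ne.symm hj)]
      simp

/-- the truth values `32768 ≤ f i` -/
theorem hi15 {h X : ℕ} {f : ℕ → ℕ} (hh : h = vec M fun _ => 32768) (hX : X = vec M f)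
    (hf : ∀ i < M, f i < 65536) (hp : ∀ i < M, p i = true ↔ 32768 ≤ f i) :
    B M (Nat.shiftRight (Nat.land X h) (nat_lit 15)) p := by
  have e : Nat.shiftRight (Nat.land X h) 15 = (vec M f &&& vec M fun _ => 32768) >>> 15 := by
    rw [← hh, ← hX]; rfl
  unfold B
  rw [e, vec_and (fun i hi => hf i hi) (fun i _ => by norm_num)]
  have e2 : (vec M fun i => f i &&& 32768) = vec M fun i => if p i then 32768 else 0 := by
    refine vec_congr fun i hi => ?_
    rw [bit15 (hf i hi)]
    by_cases h1 : 32768 ≤ f i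
    · rw [if_pos h1, if_pos ((hp i hi).2 h1)]
    · rw [if_neg h1, if_neg fun h2 => h1 ((hp i hi).1 h2)]
  rw [e2, shr15]

theorem L.beq {h : ℕ} (hh : h = vec M fun _ => 32768) (h1 : L M V f b) (h2 : L M W g c) :
    B M (Nat.shiftRight (Nat.land (Nat.sub h (Nat.xor V W)) h) (nat_lit 15))
      fun i => Nat.beq (f i) (g i) := by
  have hx : ∀ i < M, f i ^^^ g i < 32768 := fun i hi =>
    Nat.xor_lt_two_pow (n := 15) (h1.lt i hi) (h2.lt i hi)
  refine hi15 (f := fun i => 32768 - (f i ^^^ g i)) hh ?_ (fun i _ => by omega) fun i hi => ?_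
  · have e : Nat.sub h (Nat.xor V W) = vec M (fun _ => 32768) - (vec M f ^^^ vec M g) := by
      rw [← hh, ← h1.eq, ← h2.eq]; rfl
    rw [e, vec_xor (fun i hi => h1.lt' i hi) (fun i hi => h2.lt' i hi),
      vec_sub fun i hi => (hx i hi).le]
  · rw [K.nbeq_eq, decide_eq_true_eq]
    constructor
    · intro h3
      rw [h3, Nat.xor_self]
    · intro h3
      have h4 : f i ^^^ g i = 0 := by have := hx i hi; omega
      exact Nat.xor_eq_zero_iff.1 h4

theorem L.ble {h : ℕ} (hh : h = vec M fun _ => 32768) (h1 : L M V f b) (h2 : L M W g c) :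
    B M (Nat.shiftRight (Nat.land (Nat.sub (Nat.add W h) V) h) (nat_lit 15))
      fun i => Nat.ble (f i) (g i) := by
  refine hi15 (f := fun i => g i + 32768 - f i) hh ?_ (fun i hi => ?_) fun i hi => ?_
  · have e : Nat.sub (Nat.add W h) V = (vec M g + vec M fun _ => 32768) - vec M f := by
      rw [← hh, ← h1.eq, ← h2.eq]; rfl
    rw [e, vec_add, vec_sub fun i hi => by have := h1.lt i hi; omega]
  · have := h1.lt i hi; have := h2.lt i hi; omega
  · rw [K.nble_eq, decide_eq_true_eq]
    have := h1.lt i hi; have := h2.lt i hi; omega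

/-- `f i < g i` -/
theorem L.blt {h k : ℕ} (hh : h = vec M fun _ => 32768) (hk : k = vec M fun _ => 32767)
    (h1 : L M V f b) (h2 : L M W g c) :
    B M (Nat.shiftRight (Nat.land (Nat.sub (Nat.add W k) V) h) (nat_lit 15)) fun i =>
      Nat.ble (Nat.succ (f i)) (g i) := by
  refine hi15 (f := fun i => g i + 32767 - f i) hh ?_ (fun i hi => ?_) fun i hi => ?_
  · have e : Nat.sub (Nat.add W k) V = (vec M g + vec M fun _ => 32767) - vec M f := by
      rw [← hk, ← h1.eq, ← h2.eq]; rfl
    rw [e, vec_add, vec_sub fun i hi => by have := h1.lt i hi; omega]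
  · have := h1.lt i hi; have := h2.lt i hi; omega
  · rw [K.nble_eq, decide_eq_true_eq]
    have := h1.lt i hi; have := h2.lt i hi; omega

/-- `f i ≠ 0` -/
theorem L.nz {h k : ℕ} (hh : h = vec M fun _ => 32768) (hk : k = vec M fun _ => 32767)
    (h1 : L M V f b) :
    B M (Nat.shiftRight (Nat.land (Nat.add V k) h) (nat_lit 15))
      fun i => K.bnot (Nat.beq (f i) (nat_lit 0)) := by
  refine hi15 (f := fun i => f i + 32767) hh ?_ (fun i hi => ?_) fun i hi => ?_
  · have e : Nat.add V k = vec M f + vec M fun _ => 32767 := by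
      rw [← hk, ← h1.eq]; rfl
    rw [e, vec_add]
  · have := h1.lt i hi; omega
  · rw [K.bnot_eq, K.nbeq_eq]
    have := h1.lt i hi
    by_cases h0 : f i = 0
    · simp [h0]
    · have h2 : decide (f i = 0) = false := decide_eq_false h0
      rw [h2]
      simp
      omega

/-- `f i = 0` -/
theorem L.ez {h : ℕ} (hh : h = vec M fun _ => 32768) (h1 : L M V f b) :
    B M (Nat.shiftRight (Nat.land (Nat.sub h V) h) (nat_lit 15))
      fun i => Nat.beq (f i) (nat_lit 0) := by
  refine hi15 (f := fun i => 32768 - f i) hh ?_ (fun i hi => ?_) fun i hi => ?_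
  · have e : Nat.sub h V = vec M (fun _ => 32768) - vec M f := by
      rw [← hh, ← h1.eq]; rfl
    rw [e, vec_sub fun i hi => (h1.lt i hi).le]
  · omega
  · rw [K.nbeq_eq, decide_eq_true_eq]
    have := h1.lt i hi
    show f i = 0 ↔ _
    omega

/-- the mask of a truth value -/
theorem msk (hc : B M C p) : Nat.mul C (nat_lit 32767) =
    vec M fun i => if p i then 32767 else 0 := by
  have e : Nat.mul C 32767 = 32767 * vec M fun i => bt (p i) := by
    rw [← show C = _ from hc]; exact Nat.mul_comm C _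
  rw [e, vec_mul]
  exact vec_congr fun i _ => by beta_reduce; cases p i <;> rfl

theorem and_k {x : ℕ} (hx : x < 32768) : x &&& 32767 = x := by
  have e : (32767 : ℕ) = 2 ^ 15 - 1 := rfl
  rw [e, Nat.and_two_pow_sub_one_eq_mod, Nat.mod_eq_of_lt hx]

theorem L.sel {d : ℕ} (hc : B M C p) (h1 : L M V f b) (h2 : L M W g c) (hb : b ≤ d) (hc' : c ≤ d)
    (hd : d ≤ 32767) :
    L M (Nat.xor W (Nat.land (Nat.xor W V) (Nat.mul C (nat_lit 32767)))) (fun i =>
      Bool.rec (motive := fun _ => ℕ) (g i) (f i) (p i)) d := by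
  refine ⟨?_, fun i hi => ?_, hd⟩
  · have e : Nat.xor W (Nat.land (Nat.xor W V) (Nat.mul C (nat_lit 32767))) = vec M g ^^^
        ((vec M g ^^^ vec M f) &&& vec M fun i => if p i then 32767 else 0) := by
      rw [← msk hc, ← h1.eq, ← h2.eq]; rfl
    have hx : ∀ i < M, g i ^^^ f i < 32768 := fun i hi =>
      Nat.xor_lt_two_pow (n := 15) (h2.lt i hi) (h1.lt i hi)
    rw [e, vec_xor (fun i hi => h2.lt' i hi) (fun i hi => h1.lt' i hi),
      vec_and (fun i hi => by have := hx i hi; omega) (fun i _ => by split_ifs <;> norm_num),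
      vec_xor (fun i hi => h2.lt' i hi) fun i hi => lt_of_le_of_lt Nat.and_le_left (by
        have := hx i hi; omega)]
    refine vec_congr fun i hi => ?_
    beta_reduce
    cases p i
    · simp
    · show g i ^^^ ((g i ^^^ f i) &&& 32767) = f i
      rw [and_k (hx i hi), ← Nat.xor_assoc, Nat.xor_self, Nat.zero_xor]
  · beta_reduce
    cases p i
    · exact (h2.le i hi).trans hc'
    · exact (h1.le i hi).trans hb

theorem L.sub {h : ℕ} (hh : h = vec M fun _ => 32768) (h1 : L M V f b) (h2 : L M W g c) :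
    L M (Vc.ssub h V W) (fun i => Nat.sub (f i) (g i)) b := by
  refine ⟨?_, fun i hi => (Nat.sub_le _ _).trans (h1.le i hi), h1.hb⟩
  rw [hh, h1.eq, h2.eq, Vc.ssub_eq (fun i hi => h1.lt i hi) (fun i hi => h2.lt i hi)]
  rfl

theorem L.max {h : ℕ} (hh : h = vec M fun _ => 32768) (h1 : L M V f b) (h2 : L M W g c) :
    L M (Nat.add W (Vc.ssub h V W)) (fun i => K.kmax (f i) (g i)) (Nat.max b c) := by
  refine ⟨?_, fun i hi => ?_, max_le h1.hb h2.hb⟩
  · have e : Nat.add W (Vc.ssub h V W) = vec M g + vec M fun i => f i - g i := by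
      have h3 := (h1.sub hh h2).eq
      rw [h3, ← h2.eq]; rfl
    rw [e, vec_add]
    exact vec_congr fun i _ => by rw [K.kmax_eq]; omega
  · rw [K.kmax_eq]
    exact max_le ((h1.le i hi).trans (le_max_left _ _)) ((h2.le i hi).trans (le_max_right _ _))

/-! ### Bits -/

theorem land_ones {x w : ℕ} : x &&& (2 ^ w - 1) = x % 2 ^ w := Nat.and_two_pow_sub_one_eq_mod x w

/-- bits `s, …, s + w - 1` of the numbers -/
theorem L.fld {o : ℕ} (ho : o = vec M fun _ => 1) (h1 : L M V f b) (s w : ℕ) (hw : w ≤ 15)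
    (hs : s + w ≤ 16) :
    L M (Nat.land (Nat.shiftRight V s) (Nat.mul o (2 ^ w - 1)))
      (fun i => Nat.mod (Nat.div (f i) (2 ^ s)) (2 ^ w)) (2 ^ w - 1) := by
  have hw2 : 2 ^ w ≤ 32768 := by
    calc 2 ^ w ≤ 2 ^ 15 := Nat.pow_le_pow_right (by norm_num) hw
      _ = 32768 := rfl
  have hpos : 0 < 2 ^ w := by positivity
  refine ⟨?_, fun i _ => ?_, by omega⟩
  · have e : Nat.land (Nat.shiftRight V s) (Nat.mul o (2 ^ w - 1)) =
        (vec M f >>> s) &&& vec M fun _ => 2 ^ w - 1 := by
      have : Nat.mul o (2 ^ w - 1) = vec M fun _ => 2 ^ w - 1 := by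
        rw [ho]
        have e : Nat.mul (vec M fun _ => 1) (2 ^ w - 1) = (2 ^ w - 1) * vec M fun _ => 1 :=
          Nat.mul_comm _ _
        rw [e, vec_mul]
        exact vec_congr fun _ _ => Nat.mul_one _
      rw [this, ← h1.eq]; rfl
    rw [e]
    apply Nat.eq_of_testBit_eq
    intro j
    rw [Nat.testBit_and, Nat.testBit_shiftRight, vec_bit (fun i hi => h1.lt' i hi),
      vec_bit (fun i _ => by omega), vec_bit (fun i _ => ?_)]
    swap
    · have : Nat.mod (Nat.div (f i) (2 ^ s)) (2 ^ w) < 2 ^ w := Nat.mod_lt _ hpos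
      omega
    have e3 : ∀ i : ℕ, (Nat.mod (Nat.div (f i) (2 ^ s)) (2 ^ w)).testBit (j % 16) =
        (decide (j % 16 < w) && (f i).testBit (s + j % 16)) := by
      intro i
      have : Nat.mod (Nat.div (f i) (2 ^ s)) (2 ^ w) = (f i >>> s) % 2 ^ w := by
        rw [Nat.shiftRight_eq_div_pow]; rfl
      rw [this, Nat.testBit_mod_two_pow, Nat.testBit_shiftRight]
    rw [e3]
    have e4 : (2 ^ w - 1).testBit (j % 16) = decide (j % 16 < w) := Nat.testBit_two_pow_sub_one w _
    rw [e4]
    by_cases h3 : j % 16 < w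
    · have e5 : (s + j) / 16 = j / 16 := by omega
      have e6 : (s + j) % 16 = s + j % 16 := by omega
      rw [e5, e6, decide_eq_true h3]
      cases decide (j / 16 < M) <;> simp
    · rw [decide_eq_false h3]
      simp
  · have : Nat.mod (Nat.div (f i) (2 ^ s)) (2 ^ w) < 2 ^ w := Nat.mod_lt _ hpos
    omega

theorem L.fld0 {o : ℕ} (ho : o = vec M fun _ => 1) (h1 : L M V f b) (w : ℕ) (hw : w ≤ 15) :
    L M (Nat.land V (Nat.mul o (2 ^ w - 1))) (fun i => Nat.mod (f i) (2 ^ w)) (2 ^ w - 1) := by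
  have h := h1.fld ho 0 w hw (by omega)
  have e : Nat.shiftRight V 0 = V := rfl
  rw [e] at h
  have e2 : (fun i => Nat.mod (Nat.div (f i) (2 ^ 0)) (2 ^ w)) = fun i => Nat.mod (f i) (2 ^ w) := by
    funext i
    have : Nat.div (f i) (2 ^ 0) = f i := Nat.div_one _
    rw [this]
  rwa [e2] at h

/-- bit `s` -/
theorem B.tbc {o : ℕ} (ho : o = vec M fun _ => 1) (h1 : Vs.L M V f b) (s : ℕ) (hs : s < 16) :
    B M (Nat.land (Nat.shiftRight V s) o) fun i => K.tbit (f i) s := by
  have h := (h1.fld ho s 1 (by norm_num) (by omega)).eq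
  have e : Nat.mul o (2 ^ 1 - 1) = o := Nat.mul_one o
  rw [e] at h
  unfold B
  rw [h]
  refine vec_congr fun i _ => ?_
  have e1 : Nat.mod (Nat.div (f i) (2 ^ s)) (2 ^ 1) = (f i >>> s) % 2 := by
    rw [Nat.shiftRight_eq_div_pow]; rfl
  have e2 : K.tbit (f i) s = decide ((f i >>> s) % 2 = 1) := by
    rw [K.tbit_eq, Nat.testBit_eq_decide_div_mod_eq, Nat.shiftRight_eq_div_pow]
  beta_reduce
  rw [e1, e2]
  have h3 := Nat.mod_two_eq_zero_or_one (f i >>> s)
  rcases h3 with h3 | h3
  · rw [h3]; rfl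
  · rw [h3]; rfl

end Vs

end Pool.FC7
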