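import Pool.Agent.FC7.VsA

/-! # Vector form of the static checks: two variables, tables -/

open Finset

set_option linter.unusedSectionVars false

namespace Pool.FC7

namespace Vs

open Vc (vec vec_congr vec_add vec_mul vec_zero vec_le vec_sub vec_app vec_split vec_lt vec_bit
  vec_and vec_or vec_xor vec_inj pow16)

variable {M V W C N Kn k : ℕ} {f g : ℕ → ℕ} {b c : ℕ} {p q : ℕ → Bool}

/-- the truth values `G j i`, `j < Kn`, `i < M` as rows -/
theorem vec_blk (M : ℕ) (G : ℕ → ℕ → ℕ) : ∀ Kn, vec (Kn * M) (fun t => G (t / M) (t % M)) =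
    ∑ j ∈ range Kn, vec M (G j) * 65536 ^ (M * j)
  | 0 => by simp [vec]
  | Kn + 1 => by
    rw [sum_range_succ, ← vec_blk M G Kn, add_mul, one_mul, vec_split, mul_comm M Kn]
    congr 2
    refine vec_congr fun i hi => ?_
    have e1 : (i + Kn * M) / M = Kn := by
      rw [Nat.add_mul_div_right _ _ (by omega), Nat.div_eq_of_lt hi, zero_add]
    have e2 : (i + Kn * M) % M = i := by
      rw [Nat.add_mul_mod_self_right, Nat.mod_eq_of_lt hi]
    rw [e1, e2]

theorem vec_ext {P Q : ℕ} (h : P ≤ Q) (hf : ∀ t, P ≤ t → t < Q → f t = 0) : vec P f = vec Q f := by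
  obtain ⟨d, rfl⟩ := Nat.exists_eq_add_of_le h
  rw [vec_split]
  have : vec d (fun i => f (i + P)) = vec d fun _ => 0 :=
    vec_congr fun i hi => hf _ (by omega) (by omega)
  rw [this, vec_zero, zero_mul, add_zero]

theorem vec_pad {P Q : ℕ} (h : P ≤ Q) (f : ℕ → ℕ) :
    vec P f = vec Q fun t => if t < P then f t else 0 := by
  have h1 : vec P f = vec P fun t => if t < P then f t else 0 :=
    vec_congr fun t ht => (if_pos ht).symm
  rw [h1]
  exact vec_ext h fun t h2 _ => if_neg (by omega)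

theorem geo {x : ℕ} (hx : 2 ≤ x) (n : ℕ) : (x ^ n - 1) / (x - 1) = ∑ j ∈ range n, x ^ j := by
  have h : (∑ j ∈ range n, x ^ j) * (x - 1) = x ^ n - 1 := Nat.geomSum_eq hx n ▸ by
    rw [Nat.div_mul_cancel]
    exact Nat.sub_one_dvd_pow_sub_one x n
  rw [← h, Nat.mul_div_cancel _ (by omega)]

/-! ### Constants -/

/-- the bits of `M` lanes -/
def wM (M : ℕ) : ℕ := Nat.mul (nat_lit 16) M

/-- `65536 ^ M - 1` -/
def mM (M : ℕ) : ℕ := Nat.sub (Nat.pow (nat_lit 2) (wM M)) (nat_lit 1)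

/-- `M` lanes with the entry 1 -/
def oM (M : ℕ) : ℕ := Nat.div (mM M) (nat_lit 65535)

def hM (M : ℕ) : ℕ := Nat.mul (oM M) (nat_lit 32768)

def kM (M : ℕ) : ℕ := Nat.mul (oM M) (nat_lit 32767)

/-- the sum of `65536 ^ (M * j)`, `j < Kn` -/
def cM (Kn M : ℕ) : ℕ :=
  Nat.div (Nat.sub (Nat.pow (nat_lit 2) (Nat.mul (wM M) Kn)) (nat_lit 1)) (mM M)

theorem mM_eq (M : ℕ) : mM M = 65536 ^ M - 1 := by
  rw [pow16]; rfl

theorem oM_eq (M : ℕ) : oM M = vec M fun _ => 1 := by
  have e : oM M = (65536 ^ M - 1) / (65536 - 1) := by rw [← mM_eq]; rfl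
  rw [e, geo (by norm_num)]
  unfold vec
  exact sum_congr rfl fun i _ => (one_mul _).symm

theorem hM_eq (M : ℕ) : hM M = vec M fun _ => 32768 := by
  have e : hM M = 32768 * oM M := Nat.mul_comm _ _
  rw [e, oM_eq, vec_mul]

theorem kM_eq (M : ℕ) : kM M = vec M fun _ => 32767 := by
  have e : kM M = 32767 * oM M := Nat.mul_comm _ _
  rw [e, oM_eq, vec_mul]

theorem cM_eq (Kn : ℕ) (hM : 0 < M) : cM Kn M = ∑ j ∈ range Kn, 65536 ^ (M * j) := by
  have e : cM Kn M = ((65536 ^ M) ^ Kn - 1) / (65536 ^ M - 1) := by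
    have h : (65536 ^ M : ℕ) ^ Kn = 2 ^ (wM M * Kn) := by
      rw [pow16, ← pow_mul]; rfl
    rw [h, ← mM_eq]; rfl
  have h2 : 2 ≤ 65536 ^ M := by
    calc 2 ≤ 65536 ^ 1 := by norm_num
      _ ≤ 65536 ^ M := Nat.pow_le_pow_right (by norm_num) hM
  rw [e, geo h2]
  exact sum_congr rfl fun j _ => (pow_mul _ _ _).symm

/-! ### Rows and lanes -/

/-- the same row `Kn` times -/
theorem rep_eq (hM : 0 < M) (Kn : ℕ) (f : ℕ → ℕ) :
    Nat.mul (vec M f) (cM Kn M) = vec (Kn * M) fun t => f (t % M) := by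
  have e : Nat.mul (vec M f) (cM Kn M) = vec M f * cM Kn M := rfl
  rw [e, cM_eq Kn hM, mul_sum, vec_blk M (fun _ => f)]

theorem vec_lo (h : k ≤ M) (hf : ∀ i, f i < 65536) : Nat.land (vec M f) (mM k) = vec k f := by
  have e : Nat.land (vec M f) (mM k) = vec M f &&& (2 ^ (16 * k) - 1) := rfl
  obtain ⟨d, rfl⟩ := Nat.exists_eq_add_of_le h
  rw [e, Nat.and_two_pow_sub_one_eq_mod, ← pow16, Vc.vec_mod fun i _ => hf i]

/-- the rows with the number `T j` everywhere -/
def srM (Kn M o T : ℕ) : ℕ :=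
  Nat.mul (Nat.land (Nat.mul (Nat.land T (mM Kn)) (cM Kn (Nat.pred M)))
    (Nat.mul (cM Kn M) (nat_lit 65535))) o

theorem sr_eq (hM : Kn < M) {T : ℕ} (hT : ∃ m, Kn ≤ m ∧ T = vec m f) (hf : ∀ i, f i < 65536) :
    srM Kn M (oM M) T = vec (Kn * M) fun t => f (t / M) := by
  obtain ⟨m, hm, rfl⟩ := hT
  have hM0 : 0 < M := by omega
  have e1 : Nat.land (vec m f) (mM Kn) = vec Kn f := vec_lo hm hf
  have e0 : srM Kn M (oM M) (vec m f) = ((vec Kn f * cM Kn (M - 1)) &&&
      (cM Kn M * 65535)) * oM M := by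
    rw [← e1]; rfl
  rcases Nat.eq_zero_or_pos Kn with rfl | hK
  · rw [e0]
    simp [vec]
  -- the product
  have e2 : vec Kn f * cM Kn (M - 1) =
      vec (Kn * M) fun t => if t < Kn * (M - 1) ∧ t % (M - 1) < Kn then f (t % (M - 1)) else 0 := by
    have h1 : vec Kn f = vec (M - 1) fun i => if i < Kn then f i else 0 := vec_pad (by omega) f
    have h2 : vec (M - 1) (fun i => if i < Kn then f i else 0) * cM Kn (M - 1) =
        vec (Kn * (M - 1)) fun t => if t % (M - 1) < Kn then f (t % (M - 1)) else 0 :=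
      rep_eq (M := M - 1) (by omega) Kn _
    rw [h1, h2, vec_pad (Nat.mul_le_mul_left Kn (Nat.sub_le M 1))]
    refine vec_congr fun i _ => ?_
    by_cases h4 : i < Kn * (M - 1)
    · rw [if_pos h4]
      by_cases h3 : i % (M - 1) < Kn
      · rw [if_pos h3, if_pos ⟨h4, h3⟩]
      · rw [if_neg h3, if_neg fun h => h3 h.2]
    · rw [if_neg h4, if_neg fun h => h4 h.1]
  have e3 : cM Kn M * 65535 = vec (Kn * M) fun t => if t % M = 0 then 65535 else 0 := by
    rw [vec_blk M (fun _ i => if i = 0 then 65535 else 0), cM_eq Kn hM0, sum_mul]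
    refine sum_congr rfl fun j _ => ?_
    have : vec M (fun i => if i = 0 then 65535 else 0) = 65535 := by
      obtain ⟨M', rfl⟩ : ∃ M', M = M' + 1 := ⟨M - 1, by omega⟩
      rw [vec_congr (n := M' + 1) (g := fun i => if i = 0 then 65535 else 0) fun _ _ => rfl,
        Vc.vec_succ]
      have : vec M' (fun i => if i + 1 = 0 then 65535 else 0) = vec M' fun _ => 0 :=
        vec_congr fun i _ => if_neg (by omega)
      rw [this, vec_zero]
      norm_num
    rw [this, mul_comm]
  have e4 : (vec (Kn * M) fun t => if t < Kn * (M - 1) ∧ t % (M - 1) < Kn then f (t % (M - 1)) else 0)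
      &&& (vec (Kn * M) fun t => if t % M = 0 then 65535 else 0) =
      vec (Kn * M) fun t => if t % M = 0 then f (t / M) else 0 := by
    rw [vec_and (fun i _ => by split_ifs; exacts [hf _, by norm_num])
      (fun i _ => by split_ifs <;> norm_num)]
    refine vec_congr fun t ht => ?_
    by_cases h : t % M = 0
    · rw [if_pos h, if_pos h]
      have h1 : t / M < Kn := by
        rw [Nat.div_lt_iff_lt_mul (by omega)]; exact ht
      have h2 : t = M * (t / M) := by
        have := Nat.div_add_mod t M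
        omega
      have h3 : t % (M - 1) = t / M := by
        conv_lhs => rw [h2]
        obtain ⟨M', rfl⟩ : ∃ M', M = M' + 1 := ⟨M - 1, by omega⟩
        have e : (M' + 1) * (t / (M' + 1)) = t / (M' + 1) + M' * (t / (M' + 1)) := by ring
        rw [e, Nat.add_sub_cancel, Nat.add_mul_mod_self_left,
          Nat.mod_eq_of_lt (by omega)]
      have h4 : t < Kn * (M - 1) := by
        obtain ⟨M', rfl⟩ : ∃ M', M = M' + 1 := ⟨M - 1, by omega⟩
        rw [Nat.add_sub_cancel]
        have : t = M' * (t / (M' + 1)) + t / (M' + 1) := by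
          have e : (M' + 1) * (t / (M' + 1)) = M' * (t / (M' + 1)) + t / (M' + 1) := by ring
          rw [← e]; exact h2
        have h5 : t / (M' + 1) ≤ Kn - 1 := by omega
        have h6 : M' * (t / (M' + 1)) ≤ M' * (Kn - 1) := Nat.mul_le_mul_left _ h5
        have h7 : Kn * M' = M' * (Kn - 1) + M' := by
          obtain ⟨K', rfl⟩ : ∃ K', Kn = K' + 1 := ⟨Kn - 1, by omega⟩
          rw [Nat.add_sub_cancel]; ring
        omega
      rw [h3, if_pos ⟨h4, h1⟩]
      have e : (65535 : ℕ) = 2 ^ 16 - 1 := rfl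
      rw [e, Nat.and_two_pow_sub_one_eq_mod, Nat.mod_eq_of_lt (hf _)]
    · rw [if_neg h, if_neg h, Nat.and_zero]
  rw [e0, e2, e3, e4]
  have e5 : (vec (Kn * M) fun t => if t % M = 0 then f (t / M) else 0) =
      ∑ j ∈ range Kn, f j * 65536 ^ (M * j) := by
    rw [vec_blk M (fun j i => if i = 0 then f j else 0)]
    refine sum_congr rfl fun j _ => ?_
    congr 1
    obtain ⟨M', rfl⟩ : ∃ M', M = M' + 1 := ⟨M - 1, by omega⟩
    rw [vec_congr (n := M' + 1) (g := fun i => if i = 0 then f j else 0) fun _ _ => rfl,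
      Vc.vec_succ]
    have : vec M' (fun i => if i + 1 = 0 then f j else 0) = vec M' fun _ => 0 :=
      vec_congr fun i _ => if_neg (by omega)
    rw [this, vec_zero]
    simp
  rw [e5, oM_eq, vec_blk M (fun j _ => f j), sum_mul]
  refine sum_congr rfl fun j _ => ?_
  have : vec M (fun _ => f j) = f j * vec M fun _ => 1 := by
    rw [vec_mul]; exact vec_congr fun i _ => (Nat.mul_one _).symm
  rw [this]; ring

/-! ### Sums over the rows -/

theorem vec_sum (M : ℕ) (G : ℕ → ℕ → ℕ) : ∀ Kn, ∑ j ∈ range Kn, vec M (G j) =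
    vec M fun i => ∑ j ∈ range Kn, G j i
  | 0 => by simp [vec_zero]
  | Kn + 1 => by
    rw [sum_range_succ, vec_sum M G Kn, vec_add]
    exact vec_congr fun i _ => (sum_range_succ _ _).symm

theorem red_eq (hM : 0 < M) (G : ℕ → ℕ → ℕ) (Kn : ℕ)
    (hG : ∀ i < M, ∑ j ∈ range Kn, G j i ≤ 32767) :
    Nat.mod (vec (Kn * M) fun t => G (t / M) (t % M)) (mM M) =
      vec M fun i => ∑ j ∈ range Kn, G j i := by
  rw [vec_blk, mM_eq]
  have h1 : ∀ K', (∑ j ∈ range K', vec M (G j) * 65536 ^ (M * j)) ≡ ∑ j ∈ range K', vec M (G j)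
      [MOD 65536 ^ M - 1] := by
    intro K'
    refine Nat.ModEq.sum fun j _ => ?_
    have hp : 65536 ^ M ≡ 1 [MOD 65536 ^ M - 1] := by
      have h0 : 1 ≤ 65536 ^ M := Nat.one_le_pow _ _ (by norm_num)
      have : 65536 ^ M = (65536 ^ M - 1) + 1 := by omega
      conv_lhs => rw [this]
      exact Nat.add_modEq_left
    have h2 : vec M (G j) * 65536 ^ (M * j) ≡ vec M (G j) * 1 ^ j [MOD 65536 ^ M - 1] := by
      rw [pow_mul]
      exact Nat.ModEq.mul_left _ (hp.pow j)
    rwa [one_pow, mul_one] at h2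
  have h2 := h1 Kn
  rw [vec_sum] at h2
  have h3 : vec M (fun i => ∑ j ∈ range Kn, G j i) < 65536 ^ M - 1 := by
    have h4 : vec M (fun i => ∑ j ∈ range Kn, G j i) ≤ vec M fun _ => 32767 :=
      vec_le fun i hi => hG i hi
    have h5 : vec M (fun _ => 65535) = 65536 ^ M - 1 := by
      rw [← mM_eq]
      have e : vec M (fun _ => 65535) = 65535 * vec M fun _ => 1 := by
        rw [vec_mul]
      rw [e, ← oM_eq]
      have : 65535 ∣ mM M := by
        rw [mM_eq]
        have := Nat.sub_one_dvd_pow_sub_one 65536 M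
        exact this
      exact Nat.mul_div_cancel' this
    have h6 : vec M (fun _ => 32767) < vec M fun _ => 65535 := by
      have e : vec M (fun _ => 65535) = vec M (fun _ => 32767) + vec M fun _ => 32768 := by
        rw [vec_add]
      have h7 : 0 < vec M fun _ => 32768 := by
        obtain ⟨M', rfl⟩ : ∃ M', M = M' + 1 := ⟨M - 1, by omega⟩
        rw [Vc.vec_succ]
        omega
      omega
    omega
  calc Nat.mod (∑ j ∈ range Kn, vec M (G j) * 65536 ^ (M * j)) (65536 ^ M - 1)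
      = (∑ j ∈ range Kn, vec M (G j) * 65536 ^ (M * j)) % (65536 ^ M - 1) := rfl
    _ = vec M (fun i => ∑ j ∈ range Kn, G j i) % (65536 ^ M - 1) := h2
    _ = _ := Nat.mod_eq_of_lt h3

/-! ### Lanes of a number -/

theorem tx_eq (T i : ℕ) : tx T i = (T >>> (16 * i)) % 65536 := by
  have e : tx T i = (T >>> (16 * i)) &&& (2 ^ 16 - 1) := rfl
  rw [e, Nat.and_two_pow_sub_one_eq_mod]

theorem tx_lt (T i : ℕ) : tx T i < 65536 := by
  rw [tx_eq]; exact Nat.mod_lt _ (by norm_num)

theorem tx_bit (T i j : ℕ) : (tx T i).testBit j = (decide (j < 16) && T.testBit (16 * i + j)) := by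
  have e : tx T i = (T >>> (16 * i)) % 2 ^ 16 := tx_eq T i
  rw [e, Nat.testBit_mod_two_pow, Nat.testBit_shiftRight]

theorem vec_tx {X : ℕ} (h : X < 65536 ^ M) : X = vec M (tx X) := by
  apply Nat.eq_of_testBit_eq
  intro j
  rw [vec_bit (fun i _ => tx_lt X i), tx_bit]
  have e1 : 16 * (j / 16) + j % 16 = j := Nat.div_add_mod j 16
  rw [e1]
  by_cases h1 : j / 16 < M
  · rw [decide_eq_true h1, decide_eq_true (Nat.mod_lt j (by norm_num) : j % 16 < 16)]
    simp
  · rw [decide_eq_false h1]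
    rw [pow16] at h
    rw [Nat.testBit_lt_two_pow (lt_of_lt_of_le h (Nat.pow_le_pow_right (by norm_num) (by omega)))]
    simp

theorem tx_vec (hf : ∀ i < M, f i < 65536) (i : ℕ) : tx (vec M f) i = if i < M then f i else 0 := by
  apply Nat.eq_of_testBit_eq
  intro j
  rw [tx_bit, vec_bit hf]
  by_cases hj : j < 16
  · have e1 : (16 * i + j) / 16 = i := by omega
    have e2 : (16 * i + j) % 16 = j := by omega
    rw [e1, e2, decide_eq_true hj]
    split_ifs with h
    · rw [decide_eq_true h]; simp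
    · rw [decide_eq_false h]; simp
  · rw [decide_eq_false hj]
    split_ifs with h
    · rw [Vc.testBit_hi (hf i h) (by omega)]; simp
    · simp

theorem tx_hi {X : ℕ} (h : X < 65536 ^ M) {i : ℕ} (hi : M ≤ i) : tx X i = 0 := by
  rw [tx_eq, Nat.shiftRight_eq_div_pow, Nat.div_eq_of_lt, Nat.zero_mod]
  calc X < 65536 ^ M := h
    _ = 2 ^ (16 * M) := pow16 M
    _ ≤ 2 ^ (16 * i) := Nat.pow_le_pow_right (by norm_num) (by omega)

theorem tx_land (A X i : ℕ) : tx (Nat.land A X) i = tx A i &&& tx X i := by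
  apply Nat.eq_of_testBit_eq
  intro j
  have e : Nat.land A X = A &&& X := rfl
  rw [tx_bit, Nat.testBit_and, tx_bit, tx_bit, e, Nat.testBit_and]
  cases decide (j < 16) <;> simp

theorem oc_eq (N c : ℕ) : Nat.mul (oM N) c = vec N fun _ => c := by
  have e : Nat.mul (oM N) c = c * oM N := Nat.mul_comm _ _
  rw [e, oM_eq, vec_mul]
  exact vec_congr fun _ _ => Nat.mul_one c

theorem tab_lt {N c : ℕ} (hc : c ≤ 32767) (A : ℕ) : Nat.land A (Nat.mul (oM N) c) < 65536 ^ N := by
  have h : Nat.land A (Nat.mul (oM N) c) ≤ Nat.mul (oM N) c := Nat.and_le_right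
  have h2 : Nat.mul (oM N) c < 65536 ^ N := by
    rw [oc_eq]
    exact vec_lt fun i _ => by omega
  omega

theorem tab_le {N c : ℕ} (hc : c ≤ 32767) (A i : ℕ) : tx (Nat.land A (Nat.mul (oM N) c)) i ≤ c := by
  rw [tx_land, oc_eq, tx_vec fun i _ => by omega]
  refine Nat.and_le_right.trans ?_
  split_ifs
  · exact le_rfl
  · exact Nat.zero_le _

theorem tab_is {N c : ℕ} (hc : c ≤ 32767) (A : ℕ) : L (Nat.succ N)
    (Nat.land A (Nat.mul (oM N) c)) (tx (Nat.land A (Nat.mul (oM N) c))) c :=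
  ⟨vec_tx ((tab_lt hc A).trans_le (Nat.pow_le_pow_right (by norm_num) (Nat.le_succ N))),
    fun i _ => tab_le hc A i, hc⟩

theorem flg_lt {N : ℕ} (A : ℕ) : Nat.land A (oM N) < 65536 ^ N := by
  have := tab_lt (N := N) (c := 1) (by norm_num) A
  have e : Nat.mul (oM N) 1 = oM N := Nat.mul_one _
  rwa [e] at this

theorem tf_eq {X : ℕ} (i : ℕ) (h : tx X i ≤ 1) : tx X i = bt (tf X i) := by
  have h1 : tf X i = (tx X i).testBit 0 := by
    rw [tx_bit]
    show K.tbit X (16 * i) = _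
    rw [K.tbit_eq]
    simp
  rw [h1]
  have : tx X i = 0 ∨ tx X i = 1 := by omega
  rcases this with h | h <;> rw [h] <;> rfl

theorem flg_is {N : ℕ} (A : ℕ) : B (Nat.succ N) (Nat.land A (oM N)) (tf (Nat.land A (oM N))) := by
  have h := tab_is (N := N) (c := 1) (by norm_num) A
  have e : Nat.mul (oM N) 1 = oM N := Nat.mul_one _
  rw [e] at h
  unfold B
  conv_lhs => rw [h.eq]
  exact vec_congr fun i hi => tf_eq i (h.le i hi)

/-! ### Tables with small entries -/

/-- the numbers `a + w * b`: `a` the lanes of `A` below `m`, `b` the first bit of the lanes of `B` -/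
def enc (o A B m w : ℕ) : ℕ :=
  Nat.add (Nat.land A (Nat.mul o m)) (Nat.mul (Nat.land B o) w)

theorem enc_eq {N m w : ℕ} (A B : ℕ) (hm : m ≤ 16000) (hw : w ≤ 16000) :
    enc (oM N) A B m w = vec N fun i =>
      tx (Nat.land A (Nat.mul (oM N) m)) i + w * tx (Nat.land B (oM N)) i := by
  have h1 := vec_tx (tab_lt (N := N) (c := m) (by omega) A)
  have h2 := vec_tx (flg_lt (N := N) B)
  have e : enc (oM N) A B m w = Nat.land A (Nat.mul (oM N) m) + w * Nat.land B (oM N) := by
    unfold enc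
    exact congrArg (Nat.land A (Nat.mul (oM N) m) + ·) (Nat.mul_comm _ _)
  rw [e]
  conv_lhs => rw [h1, h2]
  rw [vec_mul, vec_add]

theorem flg_le {N : ℕ} (B i : ℕ) : tx (Nat.land B (oM N)) i ≤ 1 := by
  have h := tab_le (N := N) (c := 1) (by norm_num) B i
  have e : Nat.mul (oM N) 1 = oM N := Nat.mul_one _
  rwa [e] at h

theorem enc_aux {N m w : ℕ} (A B : ℕ) (hm : m ≤ 16000) (i : ℕ) :
    tx (Nat.land A (Nat.mul (oM N) m)) i + w * tx (Nat.land B (oM N)) i ≤ m + w := by
  have h1 := tab_le (N := N) (c := m) (by omega) A i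
  have h2 := flg_le (N := N) B i
  calc _ ≤ m + w * 1 := Nat.add_le_add h1 (Nat.mul_le_mul_left _ h2)
    _ = m + w := by rw [Nat.mul_one]

theorem enc_lt {N m w : ℕ} (A B : ℕ) (hm : m ≤ 16000) (hw : w ≤ 16000) :
    enc (oM N) A B m w < 65536 ^ N := by
  rw [enc_eq A B hm hw]
  exact vec_lt fun i _ => by have := enc_aux (N := N) (w := w) A B hm i; omega

theorem enc_le {N m w : ℕ} (A B : ℕ) (hm : m ≤ 16000) (hw : w ≤ 16000) (i : ℕ) :
    tx (enc (oM N) A B m w) i ≤ m + w := by
  rw [enc_eq A B hm hw, tx_vec fun i _ => by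
    have := enc_aux (N := N) (w := w) A B hm i; omega]
  split_ifs
  · exact enc_aux A B hm i
  · exact Nat.zero_le _

theorem enc_is {N m w : ℕ} (A B : ℕ) (hm : m ≤ 16000) (hw : w ≤ 16000) :
    L (Nat.succ N) (enc (oM N) A B m w) (tx (enc (oM N) A B m w)) (m + w) :=
  ⟨vec_tx ((enc_lt A B hm hw).trans_le (Nat.pow_le_pow_right (by norm_num) (Nat.le_succ N))),
    fun i _ => enc_le A B hm hw i, by omega⟩

/-! ### Powers of two -/

/-- lane `i`: `2 ^ i`, `i < 15` -/
def pw1 : ℕ := nat_lit 441715136213640681094868372899756268943053706257068932256019958678552577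

/-- lane `i`: `2 ^ (i - s)`, `s ≤ i < s + 15` -/
def pws (s : ℕ) : ℕ := Nat.shiftLeft pw1 (Nat.mul (nat_lit 16) s)

theorem pw1_eq : pw1 = vec 15 fun i => 2 ^ i := by
  unfold vec pw1
  rfl

theorem pws_eq (s : ℕ) : pws s = vec (s + 15) fun i => if s ≤ i then 2 ^ (i - s) else 0 := by
  have e : pws s = vec s (fun _ => 0) + vec 15 (fun i => 2 ^ i) * 65536 ^ s := by
    rw [vec_zero, zero_add, ← pw1_eq, pow16]
    exact Nat.shiftLeft_eq _ _
  rw [e, vec_app]
  refine vec_congr fun i _ => ?_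
  beta_reduce
  split_ifs with h1 h2 h2
  · omega
  · rfl
  · rfl
  · omega

theorem pws_lane {s i : ℕ} (h : i < s + 15) : (if s ≤ i then 2 ^ (i - s) else 0) ≤ 16384 := by
  split_ifs
  · calc 2 ^ (i - s) ≤ 2 ^ 14 := Nat.pow_le_pow_right (by norm_num) (by omega)
      _ = 16384 := by norm_num
  · exact Nat.zero_le _

theorem tx_pws (s i : ℕ) : tx (pws s) i = if s ≤ i ∧ i < s + 15 then 2 ^ (i - s) else 0 := by
  rw [pws_eq, tx_vec fun i hi => by have := pws_lane hi; omega]
  split_ifs with h1 h2 h3 h3 h3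
  · rfl
  · omega
  · omega
  · rfl
  · omega
  · rfl

theorem pws_le (s i : ℕ) : tx (pws s) i ≤ 16384 := by
  rw [tx_pws]
  split_ifs with h
  · calc 2 ^ (i - s) ≤ 2 ^ 14 := Nat.pow_le_pow_right (by norm_num) (by omega)
      _ = 16384 := by norm_num
  · exact Nat.zero_le _

theorem pws_lt {s N : ℕ} (h : s + 15 ≤ N) : pws s < 65536 ^ N := by
  rw [pws_eq]
  calc vec (s + 15) (fun i => if s ≤ i then 2 ^ (i - s) else 0) < 65536 ^ (s + 15) :=
        vec_lt fun i hi => by have := pws_lane hi; omega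
    _ ≤ 65536 ^ N := Nat.pow_le_pow_right (by norm_num) h

theorem pws_is {s N : ℕ} (h : s + 15 ≤ N) : L (Nat.succ N) (pws s) (tx (pws s)) 16384 :=
  ⟨vec_tx ((pws_lt h).trans_le (Nat.pow_le_pow_right (by norm_num) (Nat.le_succ _))),
    fun i _ => pws_le s i, by norm_num⟩

/-- bit `y - s` of `x` -/
theorem pws_tb (s x y : ℕ) (hx : x < 32768) :
    K.bnot (Nat.beq (Nat.land x (tx (pws s) y)) (nat_lit 0)) =
      (decide (s ≤ y) && x.testBit (y - s)) := by
  rw [K.bnot_eq, K.nbeq_eq, tx_pws]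
  have e : ∀ a b : ℕ, Nat.land a b = a &&& b := fun _ _ => rfl
  rw [e]
  by_cases h1 : s ≤ y
  · rw [decide_eq_true h1, Bool.true_and]
    split_ifs with h
    · rw [Nat.and_two_pow]
      cases x.testBit (y - s)
      · simp
      · have : (2 : ℕ) ^ (y - s) ≠ 0 := by positivity
        simp
    · rw [Nat.and_zero, Nat.testBit_lt_two_pow (hx.trans_le ?_)]
      · rfl
      · calc 32768 = 2 ^ 15 := by norm_num
          _ ≤ 2 ^ (y - s) := Nat.pow_le_pow_right (by norm_num) (by omega)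
  · rw [decide_eq_false h1, if_neg fun h => h1 h.1, Nat.and_zero]
    rfl

theorem shr_le (T k : ℕ) : Nat.shiftRight T k ≤ T := by
  have e : Nat.shiftRight T k = T >>> k := rfl
  rw [e, Nat.shiftRight_eq_div_pow]
  exact Nat.div_le_self _ _

theorem tx_shr23 (T i : ℕ) : tx (Nat.shiftRight T (nat_lit 368)) i = tx T (i + 23) := by
  apply Nat.eq_of_testBit_eq
  intro j
  have e : Nat.shiftRight T (nat_lit 368) = T >>> 368 := rfl
  rw [tx_bit, tx_bit, e, Nat.testBit_shiftRight]
  congr 2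
  omega

theorem tx_L {M T b : ℕ} (h : T < 65536 ^ M) (hT : ∀ i, tx T i ≤ b) (hb : b ≤ 32767) :
    L M T (tx T) b := ⟨vec_tx h, fun i _ => hT i, hb⟩

/-! ### Lists -/

/-- the list of the first `k` lanes -/
noncomputable def lst (k T : ℕ) : List ℕ := K.lmap (tx T) (K.lrange k)

noncomputable def lst2 (k T U : ℕ) : List (ℕ × ℕ) :=
  K.lmap (fun t => (tx T t, tx U t)) (K.lrange k)

theorem allN_iff (k : ℕ) (p : ℕ → Bool) : K.allN k p = true ↔ ∀ i < k, p i = true := by
  induction k with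
  | zero => exact ⟨fun _ i hi => absurd hi (Nat.not_lt_zero i), fun _ => rfl⟩
  | succ k ih =>
    have e : K.allN (k + 1) p = Bool.rec (motive := fun _ => Bool) false (K.allN k p) (p k) := rfl
    rw [e]
    cases h : p k
    · simp only [Bool.false_eq_true, false_iff, not_forall]
      exact ⟨k, Nat.lt_succ_self k, by rw [h]; simp⟩
    · rw [ih]
      constructor
      · intro h2 i hi
        rcases Nat.lt_succ_iff_lt_or_eq.1 hi with h3 | rfl
        · exact h2 i h3
        · exact h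
      · intro h2 i hi
        exact h2 i (hi.trans (Nat.lt_succ_self k))

theorem allN_dec (k : ℕ) (p : ℕ → Bool) : K.allN k p = decide (∀ i < k, p i = true) := by
  by_cases h : ∀ i < k, p i = true
  · rw [decide_eq_true h, (allN_iff k p).2 h]
  · rw [decide_eq_false h]
    cases h2 : K.allN k p
    · rfl
    · exact absurd ((allN_iff k p).1 h2) h

theorem lmap_all {α : Type} (g : ℕ → α) (p : α → Bool) (k : ℕ) :
    K.lall (K.lmap g (K.lrange k)) p = K.allN k fun t => p (g t) := by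
  rw [K.lall_eq, K.lmap_eq, K.lrange_eq, allN_dec]
  by_cases h : ∀ i < k, p (g i) = true
  · rw [decide_eq_true h, List.all_eq_true]
    intro x hx
    obtain ⟨i, hi, rfl⟩ := List.mem_map.1 hx
    exact h i (List.mem_range.1 hi)
  · rw [decide_eq_false h, ← Bool.not_eq_true, List.all_eq_true]
    intro h2
    exact h fun i hi => h2 _ (List.mem_map.2 ⟨i, List.mem_range.2 hi, rfl⟩)

theorem lmap_any {α : Type} (g : ℕ → α) (p : α → Bool) (k : ℕ) :
    K.lany (K.lmap g (K.lrange k)) p = K.bnot (K.allN k fun t => K.bnot (p (g t))) := by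
  rw [← lmap_all g (fun x => K.bnot (p x)), K.lany_eq, K.lall_eq, K.bnot_eq]
  generalize K.lmap g (K.lrange k) = l
  induction l with
  | nil => rfl
  | cons a l ih =>
    rw [List.any_cons, List.all_cons, ih]
    cases p a <;> simp

theorem lall_lst (k T : ℕ) (p : ℕ → Bool) : K.lall (lst k T) p = K.allN k fun t => p (tx T t) :=
  lmap_all _ _ _

theorem lall_lst2 (k T U : ℕ) (p : ℕ × ℕ → Bool) :
    K.lall (lst2 k T U) p = K.allN k fun t => p (tx T t, tx U t) := lmap_all _ _ _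

theorem lany_lst (k T : ℕ) (p : ℕ → Bool) :
    K.lany (lst k T) p = K.bnot (K.allN k fun t => K.bnot (p (tx T t))) := lmap_any _ _ _

theorem lany_lst2 (k T U : ℕ) (p : ℕ × ℕ → Bool) :
    K.lany (lst2 k T U) p = K.bnot (K.allN k fun t => K.bnot (p (tx T t, tx U t))) :=
  lmap_any _ _ _

theorem lmem_lst (k T a : ℕ) :
    K.lmem a (lst k T) = K.bnot (K.allN k fun t => K.bnot (Nat.beq a (tx T t))) := by
  rw [← lany_lst k T fun x => Nat.beq a x]
  rfl

theorem sumN_sum (k : ℕ) (F : ℕ → ℕ) : K.sumN k F = ∑ j ∈ range k, F j := by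
  induction k with
  | zero => rfl
  | succ k ih =>
    rw [sum_range_succ, ← ih]
    rfl

end Vs

end Pool.FC7
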