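import Pool.Agent.FC7.VsB

/-! # Vector form of the static checks: records -/

open Finset

set_option linter.unusedSectionVars false

namespace Pool.FC7

open Pool.FC6

namespace Vs

open Vc (vec vec_congr vec_add vec_mul vec_zero vec_le vec_sub vec_app vec_split vec_lt vec_bit
  vec_and vec_or vec_xor vec_inj pow16)

/-- A record of numbers -/
structure VR where
  N0 : ℕ
  n0 : ℕ
  ns0 : ℕ
  nc0 : ℕ
  nl0 : ℕ
  x0 : ℕ
  k0 : ℕ
  lo0 : ℕ
  p0 : ℕ
  kes0 : ℕ
  kesp0 : ℕ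
  kkd0 : ℕ
  kar0 : ℕ
  kdq0 : ℕ
  knq0 : ℕ
  koq0 : ℕ
  kdj0 : ℕ
  kdjp0 : ℕ
  dr0 : ℕ
  a0 : ℕ
  a1 : ℕ
  a2 : ℕ
  a3 : ℕ
  a4 : ℕ
  a5 : ℕ
  a6 : ℕ
  a7 : ℕ
  a8 : ℕ
  a9 : ℕ
  a10 : ℕ
  a11 : ℕ
  a12 : ℕ
  a13 : ℕ
  a14 : ℕ
  a15 : ℕ
  a16 : ℕ
  a17 : ℕ
  a18 : ℕ
  a19 : ℕ
  a20 : ℕ
  a21 : ℕ
  a22 : ℕ
  a23 : ℕ
  a24 : ℕ
  a25 : ℕ
  a26 : ℕ
  a27 : ℕ
  a28 : ℕ
  st0 : ℕ
  stp0 : ℕ
  lt0 : ℕ
  dj0 : ℕ
  djp0 : ℕ
  s10 : ℕ
  s20 : ℕ
  s30 : ℕ
  fl0 : ℕ
  nm0 : ℕ
  na0 : ℕ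
  T : XF
  fl : List ℕ
  C : CD
  lab : Bool
  gt : List (ℕ × ℕ × ℕ)
  D5 : List (List ℕ)
  p5 : List (List ℕ × List (List (ℕ × ℕ × Bool)))
  sw : List (List ℕ)
  tl : List (List ℕ)
  wd : List (List ℕ)
  bw : List (List ℕ)
  pl : List ℕ
  tz : List ℕ
  t4 : List ℕ
  bg : List ℕ

namespace VR

variable (R : VR)

/-- number of rows -/
def N : ℕ := Nat.add (nat_lit 48) (Nat.land (VR.N0 R) (nat_lit 63))

/-- number of lanes -/
def S : ℕ := Nat.succ (N R)

theorem N_le : N R ≤ 127 := by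
  have : (VR.N0 R) &&& 63 ≤ 63 := Nat.and_le_right
  exact (Nat.add_le_add_left this 48).trans (by norm_num)

theorem N_ge : 48 ≤ N R := Nat.le_add_right _ _

theorem leN {a c : ℕ} (h : a ≤ c) (hc : c ≤ 48) : a ≤ N R := (h.trans hc).trans (N_ge R)

theorem S_eq : S R = N R + 1 := rfl

theorem S_pos : 0 < S R := Nat.succ_pos _

def o1 : ℕ := oM (S R)

def h1 : ℕ := hM (S R)

def k1 : ℕ := kM (S R)

def cr1 : ℕ := cM (N R) (S R)

def o2 : ℕ := Nat.mul (cr1 R) (o1 R)

def h2 : ℕ := Nat.mul (cr1 R) (h1 R)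

def k2 : ℕ := Nat.mul (cr1 R) (k1 R)

def m1 : ℕ := mM (S R)

def on : ℕ := oM (N R)

theorem o1e : o1 R = vec (S R) fun _ => 1 := oM_eq _

theorem h1e : h1 R = vec (S R) fun _ => 32768 := hM_eq _

theorem k1e : k1 R = vec (S R) fun _ => 32767 := kM_eq _

theorem o2e : o2 R = vec (Nat.mul (N R) (S R)) fun _ => 1 := by
  have e : o2 R = Nat.mul (o1 R) (cr1 R) := Nat.mul_comm _ _
  rw [e, o1e]
  exact rep_eq (S_pos R) (N R) fun _ => 1

theorem h2e : h2 R = vec (Nat.mul (N R) (S R)) fun _ => 32768 := by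
  have e : h2 R = Nat.mul (h1 R) (cr1 R) := Nat.mul_comm _ _
  rw [e, h1e]
  exact rep_eq (S_pos R) (N R) fun _ => 32768

theorem k2e : k2 R = vec (Nat.mul (N R) (S R)) fun _ => 32767 := by
  have e : k2 R = Nat.mul (k1 R) (cr1 R) := Nat.mul_comm _ _
  rw [e, k1e]
  exact rep_eq (S_pos R) (N R) fun _ => 32767

noncomputable def n : ℕ := K.kmin (VR.n0 R) (N R)

theorem n_le : n R ≤ N R := by
  unfold n
  rw [K.kmin_eq]
  exact min_le_right _ _

theorem n_b : n R ≤ 127 := (n_le R).trans (N_le R)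

noncomputable def ns : ℕ := K.kmin (VR.ns0 R) (N R)

theorem ns_le : ns R ≤ N R := by
  unfold ns
  rw [K.kmin_eq]
  exact min_le_right _ _

theorem ns_b : ns R ≤ 127 := (ns_le R).trans (N_le R)

/-- the stride of the tables with two words as indices: 8 or 10 -/
noncomputable def st8 : ℕ :=
  Bool.rec (motive := fun _ => ℕ) (nat_lit 8) (nat_lit 10) (K.tbit (VR.N0 R) (nat_lit 6))

theorem st8_or : st8 R = 8 ∨ st8 R = 10 := by
  unfold st8
  cases K.tbit (VR.N0 R) (nat_lit 6)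
  · exact Or.inl rfl
  · exact Or.inr rfl

theorem st8_b : st8 R ≤ 10 := by
  rcases st8_or R with h | h
  · rw [h]; decide
  · rw [h]

noncomputable def nc : ℕ :=
  K.kmin (K.kmin (VR.nc0 R) (st8 R)) (Nat.div (N R) (st8 R))

theorem nc_s : nc R ≤ st8 R := by
  unfold nc
  rw [K.kmin_eq, K.kmin_eq]
  exact (min_le_left _ _).trans (min_le_right _ _)

theorem nc_b : nc R ≤ 10 := (nc_s R).trans (st8_b R)

theorem nc_le : nc R ≤ N R := leN R (nc_b R) (by norm_num)

/-- the stride times the number of words -/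
noncomputable def nc8 : ℕ := Nat.mul (st8 R) (nc R)

theorem nc8_b : nc8 R ≤ 100 := Nat.mul_le_mul (st8_b R) (nc_b R)

theorem nc8_le : nc8 R ≤ N R := by
  have h : nc R ≤ N R / st8 R := by
    unfold nc
    rw [K.kmin_eq]
    exact min_le_right _ _
  exact (Nat.mul_le_mul_left (st8 R) h).trans (Nat.mul_div_le _ _)

noncomputable def nl : ℕ := K.kmin (VR.nl0 R) (nat_lit 31)

theorem nl_b : nl R ≤ 31 := by
  unfold nl
  rw [K.kmin_eq]
  exact min_le_right _ _

theorem nl_le : nl R ≤ N R := leN R (nl_b R) (by norm_num)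

noncomputable def x : ℕ := K.kmin (VR.x0 R) (nat_lit 15)

theorem x_b : x R ≤ 15 := by
  unfold x
  rw [K.kmin_eq]
  exact min_le_right _ _

theorem x_le : x R ≤ N R := leN R (x_b R) (by norm_num)

noncomputable def k : ℕ := K.kmin (VR.k0 R) (nat_lit 15)

theorem k_b : k R ≤ 15 := by
  unfold k
  rw [K.kmin_eq]
  exact min_le_right _ _

theorem k_le : k R ≤ N R := leN R (k_b R) (by norm_num)

noncomputable def lo : ℕ := K.kmin (VR.lo0 R) (nat_lit 15)

theorem lo_b : lo R ≤ 15 := by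
  unfold lo
  rw [K.kmin_eq]
  exact min_le_right _ _

theorem lo_le : lo R ≤ N R := leN R (lo_b R) (by norm_num)

noncomputable def p : ℕ := K.kmin (VR.p0 R) (nat_lit 15)

theorem p_b : p R ≤ 15 := by
  unfold p
  rw [K.kmin_eq]
  exact min_le_right _ _

theorem p_le : p R ≤ N R := leN R (p_b R) (by norm_num)

noncomputable def kes : ℕ := K.kmin (VR.kes0 R) (N R)

theorem kes_le : kes R ≤ N R := by
  unfold kes
  rw [K.kmin_eq]
  exact min_le_right _ _

theorem kes_b : kes R ≤ 127 := (kes_le R).trans (N_le R)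

noncomputable def kesp : ℕ := K.kmin (VR.kesp0 R) (N R)

theorem kesp_le : kesp R ≤ N R := by
  unfold kesp
  rw [K.kmin_eq]
  exact min_le_right _ _

theorem kesp_b : kesp R ≤ 127 := (kesp_le R).trans (N_le R)

noncomputable def kkd : ℕ := K.kmin (VR.kkd0 R) (N R)

theorem kkd_le : kkd R ≤ N R := by
  unfold kkd
  rw [K.kmin_eq]
  exact min_le_right _ _

theorem kkd_b : kkd R ≤ 127 := (kkd_le R).trans (N_le R)

noncomputable def kar : ℕ := K.kmin (VR.kar0 R) (N R)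

theorem kar_le : kar R ≤ N R := by
  unfold kar
  rw [K.kmin_eq]
  exact min_le_right _ _

theorem kar_b : kar R ≤ 127 := (kar_le R).trans (N_le R)

noncomputable def kdq : ℕ := K.kmin (VR.kdq0 R) (N R)

theorem kdq_le : kdq R ≤ N R := by
  unfold kdq
  rw [K.kmin_eq]
  exact min_le_right _ _

theorem kdq_b : kdq R ≤ 127 := (kdq_le R).trans (N_le R)

noncomputable def knq : ℕ := K.kmin (VR.knq0 R) (N R)

theorem knq_le : knq R ≤ N R := by
  unfold knq
  rw [K.kmin_eq]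
  exact min_le_right _ _

theorem knq_b : knq R ≤ 127 := (knq_le R).trans (N_le R)

noncomputable def koq : ℕ := K.kmin (VR.koq0 R) (N R)

theorem koq_le : koq R ≤ N R := by
  unfold koq
  rw [K.kmin_eq]
  exact min_le_right _ _

theorem koq_b : koq R ≤ 127 := (koq_le R).trans (N_le R)

noncomputable def kdj : ℕ := K.kmin (VR.kdj0 R) (N R)

theorem kdj_le : kdj R ≤ N R := by
  unfold kdj
  rw [K.kmin_eq]
  exact min_le_right _ _

theorem kdj_b : kdj R ≤ 127 := (kdj_le R).trans (N_le R)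

noncomputable def kdjp : ℕ := K.kmin (VR.kdjp0 R) (N R)

theorem kdjp_le : kdjp R ≤ N R := by
  unfold kdjp
  rw [K.kmin_eq]
  exact min_le_right _ _

theorem kdjp_b : kdjp R ≤ 127 := (kdjp_le R).trans (N_le R)

noncomputable def dr : ℕ := K.kmin (VR.dr0 R) (N R)

theorem dr_le : dr R ≤ N R := by
  unfold dr
  rw [K.kmin_eq]
  exact min_le_right _ _

theorem dr_b : dr R ≤ 127 := (dr_le R).trans (N_le R)

def phiT : ℕ := Nat.land (VR.a0 R) (Nat.mul (on R) (nat_lit 255))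

def alT : ℕ := Nat.land (Nat.shiftRight (VR.a0 R) (nat_lit 8)) (Nat.mul (on R) (nat_lit 255))

def lT : ℕ := enc (on R) (VR.a1 R) (Nat.shiftRight (VR.a1 R) (nat_lit 4)) (nat_lit 15) (nat_lit 14)

def lpT : ℕ := enc (on R) (Nat.shiftRight (VR.a1 R) (nat_lit 8)) (Nat.shiftRight (VR.a1 R) (nat_lit 12)) (nat_lit 15) (nat_lit 14)

def uT : ℕ := Nat.land (VR.a2 R) (Nat.mul (on R) (nat_lit 15))

def upT : ℕ := Nat.land (Nat.shiftRight (VR.a2 R) (nat_lit 8)) (Nat.mul (on R) (nat_lit 15))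

def phpT : ℕ := Nat.land (VR.a3 R) (Nat.mul (on R) (nat_lit 255))

def ceT : ℕ := enc (on R) (Nat.shiftRight (VR.a3 R) (nat_lit 8)) (Nat.shiftRight (VR.a3 R) (nat_lit 11)) (nat_lit 7) (nat_lit 7)

def cepT : ℕ := enc (on R) (VR.a4 R) (Nat.shiftRight (VR.a4 R) (nat_lit 3)) (nat_lit 7) (nat_lit 7)

def crT : ℕ := Nat.land (Nat.shiftRight (VR.a4 R) (nat_lit 8)) (Nat.mul (on R) (nat_lit 255))

def paT : ℕ := Nat.land (VR.a5 R) (Nat.mul (on R) (nat_lit 255))

def pkT : ℕ := Nat.land (Nat.shiftRight (VR.a5 R) (nat_lit 8)) (Nat.mul (on R) (nat_lit 255))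

def crpT : ℕ := Nat.land (VR.a6 R) (Nat.mul (on R) (nat_lit 255))

def papT : ℕ := Nat.land (Nat.shiftRight (VR.a6 R) (nat_lit 8)) (Nat.mul (on R) (nat_lit 255))

def pkpT : ℕ := Nat.land (VR.a7 R) (Nat.mul (on R) (nat_lit 255))

def slT : ℕ := Nat.land (Nat.shiftRight (VR.a7 R) (nat_lit 8)) (Nat.mul (on R) (nat_lit 255))

def rhoT : ℕ := Nat.land (VR.a8 R) (Nat.mul (on R) (nat_lit 255))

def rhiT : ℕ := Nat.land (Nat.shiftRight (VR.a8 R) (nat_lit 8)) (Nat.mul (on R) (nat_lit 255))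

def piT : ℕ := Nat.land (VR.a9 R) (Nat.mul (on R) (nat_lit 255))

def rkT : ℕ := Nat.land (Nat.shiftRight (VR.a9 R) (nat_lit 8)) (Nat.mul (on R) (nat_lit 255))

def rjT : ℕ := Nat.land (VR.a10 R) (Nat.mul (on R) (nat_lit 255))

def nf0T : ℕ := Nat.land (Nat.shiftRight (VR.a10 R) (nat_lit 8)) (Nat.mul (on R) (nat_lit 255))

def nf1T : ℕ := Nat.land (VR.a11 R) (Nat.mul (on R) (nat_lit 255))

def nf2T : ℕ := Nat.land (Nat.shiftRight (VR.a11 R) (nat_lit 8)) (Nat.mul (on R) (nat_lit 255))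

def vpT : ℕ := Nat.land (VR.a12 R) (Nat.mul (on R) (nat_lit 255))

def vrT : ℕ := Nat.land (Nat.shiftRight (VR.a12 R) (nat_lit 8)) (Nat.mul (on R) (nat_lit 255))

def lrT : ℕ := Nat.land (VR.a13 R) (Nat.mul (on R) (nat_lit 255))

def zmT : ℕ := Nat.land (Nat.shiftRight (VR.a13 R) (nat_lit 8)) (Nat.mul (on R) (nat_lit 255))

def offT : ℕ := Nat.land (VR.a14 R) (Nat.mul (on R) (nat_lit 255))

def caT : ℕ := Nat.land (Nat.shiftRight (VR.a14 R) (nat_lit 8)) (Nat.mul (on R) (nat_lit 255))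

def zpaT : ℕ := Nat.land (VR.a15 R) (Nat.mul (on R) (nat_lit 255))

def jaT : ℕ := Nat.land (Nat.shiftRight (VR.a15 R) (nat_lit 8)) (Nat.mul (on R) (nat_lit 255))

def prT : ℕ := Nat.land (VR.a16 R) (Nat.mul (on R) (nat_lit 255))

def ptT : ℕ := Nat.land (Nat.shiftRight (VR.a16 R) (nat_lit 8)) (Nat.mul (on R) (nat_lit 255))

def tyT : ℕ := Nat.land (VR.a17 R) (Nat.mul (on R) (nat_lit 255))

def tjT : ℕ := Nat.land (Nat.shiftRight (VR.a17 R) (nat_lit 8)) (Nat.mul (on R) (nat_lit 255))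

def tkT : ℕ := Nat.land (VR.a18 R) (Nat.mul (on R) (nat_lit 255))

def kpT : ℕ := Nat.land (Nat.shiftRight (VR.a18 R) (nat_lit 8)) (Nat.mul (on R) (nat_lit 255))

def krT : ℕ := Nat.land (VR.a19 R) (Nat.mul (on R) (nat_lit 255))

def rdT : ℕ := Nat.land (Nat.shiftRight (VR.a19 R) (nat_lit 8)) (Nat.mul (on R) (nat_lit 255))

def scT : ℕ := Nat.land (VR.a20 R) (Nat.mul (on R) (nat_lit 255))

def tuT : ℕ := Nat.land (Nat.shiftRight (VR.a20 R) (nat_lit 8)) (Nat.mul (on R) (nat_lit 255))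

def raT : ℕ := Nat.land (VR.a21 R) (Nat.mul (on R) (nat_lit 255))

def adT : ℕ := Nat.land (Nat.shiftRight (VR.a21 R) (nat_lit 8)) (Nat.mul (on R) (nat_lit 255))

def falT : ℕ := Nat.land (VR.a22 R) (Nat.mul (on R) (nat_lit 255))

def csT : ℕ := Nat.land (Nat.shiftRight (VR.a22 R) (nat_lit 8)) (Nat.mul (on R) (nat_lit 255))

def esT : ℕ := Nat.land (VR.a23 R) (Nat.mul (on R) (nat_lit 255))

def espT : ℕ := Nat.land (Nat.shiftRight (VR.a23 R) (nat_lit 8)) (Nat.mul (on R) (nat_lit 255))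

def kdT : ℕ := Nat.land (VR.a24 R) (Nat.mul (on R) (nat_lit 255))

def ar1T : ℕ := Nat.land (Nat.shiftRight (VR.a24 R) (nat_lit 8)) (Nat.mul (on R) (nat_lit 255))

def ar2T : ℕ := Nat.land (VR.a25 R) (Nat.mul (on R) (nat_lit 255))

def dq1T : ℕ := Nat.land (Nat.shiftRight (VR.a25 R) (nat_lit 8)) (Nat.mul (on R) (nat_lit 255))

def dq2T : ℕ := Nat.land (VR.a26 R) (Nat.mul (on R) (nat_lit 255))

def nq1T : ℕ := Nat.land (Nat.shiftRight (VR.a26 R) (nat_lit 8)) (Nat.mul (on R) (nat_lit 255))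

def nq2T : ℕ := Nat.land (VR.a27 R) (Nat.mul (on R) (nat_lit 255))

def oq1T : ℕ := Nat.land (Nat.shiftRight (VR.a27 R) (nat_lit 8)) (Nat.mul (on R) (nat_lit 255))

def oq2T : ℕ := Nat.land (VR.a28 R) (Nat.mul (on R) (nat_lit 255))

def sqT : ℕ := Nat.land (Nat.shiftRight (VR.a28 R) (nat_lit 8)) (Nat.mul (on R) (nat_lit 255))

def stT : ℕ := Nat.land (VR.st0 R) (Nat.mul (on R) (nat_lit 32767))

def stpT : ℕ := Nat.land (VR.stp0 R) (Nat.mul (on R) (nat_lit 32767))

def ltT : ℕ := Nat.land (VR.lt0 R) (Nat.mul (on R) (nat_lit 32767))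

def djT : ℕ := Nat.land (VR.dj0 R) (Nat.mul (on R) (nat_lit 32767))

def djpT : ℕ := Nat.land (VR.djp0 R) (Nat.mul (on R) (nat_lit 32767))

def s1T : ℕ := Nat.land (VR.s10 R) (Nat.mul (on R) (nat_lit 32767))

def s2T : ℕ := Nat.land (VR.s20 R) (Nat.mul (on R) (nat_lit 32767))

def s3T : ℕ := Nat.land (VR.s30 R) (Nat.mul (on R) (nat_lit 32767))

def nmT : ℕ := Nat.land (VR.nm0 R) (Nat.mul (on R) (nat_lit 32767))

def naT : ℕ := Nat.land (VR.na0 R) (Nat.mul (on R) (nat_lit 32767))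

/-- the rows `a + 24` are the rows `a + 1` -/
def nmkT : ℕ := Nat.shiftRight (nmT R) (nat_lit 368)

def nakT : ℕ := Nat.shiftRight (naT R) (nat_lit 368)

def realT : ℕ := Nat.land (Nat.shiftRight (VR.fl0 R) (nat_lit 0)) (on R)

def realpT : ℕ := Nat.land (Nat.shiftRight (VR.fl0 R) (nat_lit 1)) (on R)

def spT : ℕ := Nat.land (Nat.shiftRight (VR.fl0 R) (nat_lit 2)) (on R)

def lbT : ℕ := Nat.land (Nat.shiftRight (VR.fl0 R) (nat_lit 3)) (on R)

def lbpT : ℕ := Nat.land (Nat.shiftRight (VR.fl0 R) (nat_lit 4)) (on R)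

def roT : ℕ := Nat.land (Nat.shiftRight (VR.fl0 R) (nat_lit 5)) (on R)

def ouT : ℕ := Nat.land (Nat.shiftRight (VR.fl0 R) (nat_lit 6)) (on R)

def opT : ℕ := Nat.land (Nat.shiftRight (VR.fl0 R) (nat_lit 7)) (on R)

def twT : ℕ := Nat.land (Nat.shiftRight (VR.fl0 R) (nat_lit 8)) (on R)

def ukT : ℕ := Nat.land (Nat.shiftRight (VR.fl0 R) (nat_lit 9)) (on R)

def ozT : ℕ := Nat.land (Nat.shiftRight (VR.fl0 R) (nat_lit 10)) (on R)

def luT : ℕ := Nat.land (Nat.shiftRight (VR.fl0 R) (nat_lit 11)) (on R)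

def cxT : ℕ := Nat.land (Nat.shiftRight (VR.fl0 R) (nat_lit 12)) (on R)

def rlT : ℕ := Nat.land (Nat.shiftRight (VR.fl0 R) (nat_lit 13)) (on R)

def mtT : ℕ := Nat.land (Nat.shiftRight (VR.fl0 R) (nat_lit 14)) (on R)

theorem phi_is : L (S R) (phiT R) (tx (phiT R)) 255 := tab_is (by norm_num) _

theorem phi_le (i : ℕ) : tx (phiT R) i ≤ 255 := tab_le (by norm_num) _ i

theorem phi_lt : phiT R < 65536 ^ N R := tab_lt (by norm_num) _

theorem al_is : L (S R) (alT R) (tx (alT R)) 255 := tab_is (by norm_num) _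

theorem al_le (i : ℕ) : tx (alT R) i ≤ 255 := tab_le (by norm_num) _ i

theorem al_lt : alT R < 65536 ^ N R := tab_lt (by norm_num) _

theorem l_is : L (S R) (lT R) (tx (lT R)) 29 := enc_is _ _ (by norm_num) (by norm_num)

theorem l_le (i : ℕ) : tx (lT R) i ≤ 29 := enc_le _ _ (by norm_num) (by norm_num) i

theorem l_lt : lT R < 65536 ^ N R := enc_lt _ _ (by norm_num) (by norm_num)

theorem lp_is : L (S R) (lpT R) (tx (lpT R)) 29 := enc_is _ _ (by norm_num) (by norm_num)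

theorem lp_le (i : ℕ) : tx (lpT R) i ≤ 29 := enc_le _ _ (by norm_num) (by norm_num) i

theorem lp_lt : lpT R < 65536 ^ N R := enc_lt _ _ (by norm_num) (by norm_num)

theorem u_is : L (S R) (uT R) (tx (uT R)) 15 := tab_is (by norm_num) _

theorem u_le (i : ℕ) : tx (uT R) i ≤ 15 := tab_le (by norm_num) _ i

theorem u_lt : uT R < 65536 ^ N R := tab_lt (by norm_num) _

theorem up_is : L (S R) (upT R) (tx (upT R)) 15 := tab_is (by norm_num) _

theorem up_le (i : ℕ) : tx (upT R) i ≤ 15 := tab_le (by norm_num) _ i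

theorem up_lt : upT R < 65536 ^ N R := tab_lt (by norm_num) _

theorem php_is : L (S R) (phpT R) (tx (phpT R)) 255 := tab_is (by norm_num) _

theorem php_le (i : ℕ) : tx (phpT R) i ≤ 255 := tab_le (by norm_num) _ i

theorem php_lt : phpT R < 65536 ^ N R := tab_lt (by norm_num) _

theorem ce_is : L (S R) (ceT R) (tx (ceT R)) 14 := enc_is _ _ (by norm_num) (by norm_num)

theorem ce_le (i : ℕ) : tx (ceT R) i ≤ 14 := enc_le _ _ (by norm_num) (by norm_num) i

theorem ce_lt : ceT R < 65536 ^ N R := enc_lt _ _ (by norm_num) (by norm_num)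

theorem cep_is : L (S R) (cepT R) (tx (cepT R)) 14 := enc_is _ _ (by norm_num) (by norm_num)

theorem cep_le (i : ℕ) : tx (cepT R) i ≤ 14 := enc_le _ _ (by norm_num) (by norm_num) i

theorem cep_lt : cepT R < 65536 ^ N R := enc_lt _ _ (by norm_num) (by norm_num)

theorem cr_is : L (S R) (crT R) (tx (crT R)) 255 := tab_is (by norm_num) _

theorem cr_le (i : ℕ) : tx (crT R) i ≤ 255 := tab_le (by norm_num) _ i

theorem cr_lt : crT R < 65536 ^ N R := tab_lt (by norm_num) _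

theorem pa_is : L (S R) (paT R) (tx (paT R)) 255 := tab_is (by norm_num) _

theorem pa_le (i : ℕ) : tx (paT R) i ≤ 255 := tab_le (by norm_num) _ i

theorem pa_lt : paT R < 65536 ^ N R := tab_lt (by norm_num) _

theorem pk_is : L (S R) (pkT R) (tx (pkT R)) 255 := tab_is (by norm_num) _

theorem pk_le (i : ℕ) : tx (pkT R) i ≤ 255 := tab_le (by norm_num) _ i

theorem pk_lt : pkT R < 65536 ^ N R := tab_lt (by norm_num) _

theorem crp_is : L (S R) (crpT R) (tx (crpT R)) 255 := tab_is (by norm_num) _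

theorem crp_le (i : ℕ) : tx (crpT R) i ≤ 255 := tab_le (by norm_num) _ i

theorem crp_lt : crpT R < 65536 ^ N R := tab_lt (by norm_num) _

theorem pap_is : L (S R) (papT R) (tx (papT R)) 255 := tab_is (by norm_num) _

theorem pap_le (i : ℕ) : tx (papT R) i ≤ 255 := tab_le (by norm_num) _ i

theorem pap_lt : papT R < 65536 ^ N R := tab_lt (by norm_num) _

theorem pkp_is : L (S R) (pkpT R) (tx (pkpT R)) 255 := tab_is (by norm_num) _

theorem pkp_le (i : ℕ) : tx (pkpT R) i ≤ 255 := tab_le (by norm_num) _ i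

theorem pkp_lt : pkpT R < 65536 ^ N R := tab_lt (by norm_num) _

theorem sl_is : L (S R) (slT R) (tx (slT R)) 255 := tab_is (by norm_num) _

theorem sl_le (i : ℕ) : tx (slT R) i ≤ 255 := tab_le (by norm_num) _ i

theorem sl_lt : slT R < 65536 ^ N R := tab_lt (by norm_num) _

theorem rho_is : L (S R) (rhoT R) (tx (rhoT R)) 255 := tab_is (by norm_num) _

theorem rho_le (i : ℕ) : tx (rhoT R) i ≤ 255 := tab_le (by norm_num) _ i

theorem rho_lt : rhoT R < 65536 ^ N R := tab_lt (by norm_num) _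

theorem rhi_is : L (S R) (rhiT R) (tx (rhiT R)) 255 := tab_is (by norm_num) _

theorem rhi_le (i : ℕ) : tx (rhiT R) i ≤ 255 := tab_le (by norm_num) _ i

theorem rhi_lt : rhiT R < 65536 ^ N R := tab_lt (by norm_num) _

theorem pi_is : L (S R) (piT R) (tx (piT R)) 255 := tab_is (by norm_num) _

theorem pi_le (i : ℕ) : tx (piT R) i ≤ 255 := tab_le (by norm_num) _ i

theorem pi_lt : piT R < 65536 ^ N R := tab_lt (by norm_num) _

theorem rk_is : L (S R) (rkT R) (tx (rkT R)) 255 := tab_is (by norm_num) _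

theorem rk_le (i : ℕ) : tx (rkT R) i ≤ 255 := tab_le (by norm_num) _ i

theorem rk_lt : rkT R < 65536 ^ N R := tab_lt (by norm_num) _

theorem rj_is : L (S R) (rjT R) (tx (rjT R)) 255 := tab_is (by norm_num) _

theorem rj_le (i : ℕ) : tx (rjT R) i ≤ 255 := tab_le (by norm_num) _ i

theorem rj_lt : rjT R < 65536 ^ N R := tab_lt (by norm_num) _

theorem nf0_is : L (S R) (nf0T R) (tx (nf0T R)) 255 := tab_is (by norm_num) _

theorem nf0_le (i : ℕ) : tx (nf0T R) i ≤ 255 := tab_le (by norm_num) _ i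

theorem nf0_lt : nf0T R < 65536 ^ N R := tab_lt (by norm_num) _

theorem nf1_is : L (S R) (nf1T R) (tx (nf1T R)) 255 := tab_is (by norm_num) _

theorem nf1_le (i : ℕ) : tx (nf1T R) i ≤ 255 := tab_le (by norm_num) _ i

theorem nf1_lt : nf1T R < 65536 ^ N R := tab_lt (by norm_num) _

theorem nf2_is : L (S R) (nf2T R) (tx (nf2T R)) 255 := tab_is (by norm_num) _

theorem nf2_le (i : ℕ) : tx (nf2T R) i ≤ 255 := tab_le (by norm_num) _ i

theorem nf2_lt : nf2T R < 65536 ^ N R := tab_lt (by norm_num) _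

theorem vp_is : L (S R) (vpT R) (tx (vpT R)) 255 := tab_is (by norm_num) _

theorem vp_le (i : ℕ) : tx (vpT R) i ≤ 255 := tab_le (by norm_num) _ i

theorem vp_lt : vpT R < 65536 ^ N R := tab_lt (by norm_num) _

theorem vr_is : L (S R) (vrT R) (tx (vrT R)) 255 := tab_is (by norm_num) _

theorem vr_le (i : ℕ) : tx (vrT R) i ≤ 255 := tab_le (by norm_num) _ i

theorem vr_lt : vrT R < 65536 ^ N R := tab_lt (by norm_num) _

theorem lr_is : L (S R) (lrT R) (tx (lrT R)) 255 := tab_is (by norm_num) _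

theorem lr_le (i : ℕ) : tx (lrT R) i ≤ 255 := tab_le (by norm_num) _ i

theorem lr_lt : lrT R < 65536 ^ N R := tab_lt (by norm_num) _

theorem zm_is : L (S R) (zmT R) (tx (zmT R)) 255 := tab_is (by norm_num) _

theorem zm_le (i : ℕ) : tx (zmT R) i ≤ 255 := tab_le (by norm_num) _ i

theorem zm_lt : zmT R < 65536 ^ N R := tab_lt (by norm_num) _

theorem off_is : L (S R) (offT R) (tx (offT R)) 255 := tab_is (by norm_num) _

theorem off_le (i : ℕ) : tx (offT R) i ≤ 255 := tab_le (by norm_num) _ i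

theorem off_lt : offT R < 65536 ^ N R := tab_lt (by norm_num) _

theorem ca_is : L (S R) (caT R) (tx (caT R)) 255 := tab_is (by norm_num) _

theorem ca_le (i : ℕ) : tx (caT R) i ≤ 255 := tab_le (by norm_num) _ i

theorem ca_lt : caT R < 65536 ^ N R := tab_lt (by norm_num) _

theorem zpa_is : L (S R) (zpaT R) (tx (zpaT R)) 255 := tab_is (by norm_num) _

theorem zpa_le (i : ℕ) : tx (zpaT R) i ≤ 255 := tab_le (by norm_num) _ i

theorem zpa_lt : zpaT R < 65536 ^ N R := tab_lt (by norm_num) _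

theorem ja_is : L (S R) (jaT R) (tx (jaT R)) 255 := tab_is (by norm_num) _

theorem ja_le (i : ℕ) : tx (jaT R) i ≤ 255 := tab_le (by norm_num) _ i

theorem ja_lt : jaT R < 65536 ^ N R := tab_lt (by norm_num) _

theorem pr_is : L (S R) (prT R) (tx (prT R)) 255 := tab_is (by norm_num) _

theorem pr_le (i : ℕ) : tx (prT R) i ≤ 255 := tab_le (by norm_num) _ i

theorem pr_lt : prT R < 65536 ^ N R := tab_lt (by norm_num) _

theorem pt_is : L (S R) (ptT R) (tx (ptT R)) 255 := tab_is (by norm_num) _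

theorem pt_le (i : ℕ) : tx (ptT R) i ≤ 255 := tab_le (by norm_num) _ i

theorem pt_lt : ptT R < 65536 ^ N R := tab_lt (by norm_num) _

theorem ty_is : L (S R) (tyT R) (tx (tyT R)) 255 := tab_is (by norm_num) _

theorem ty_le (i : ℕ) : tx (tyT R) i ≤ 255 := tab_le (by norm_num) _ i

theorem ty_lt : tyT R < 65536 ^ N R := tab_lt (by norm_num) _

theorem tj_is : L (S R) (tjT R) (tx (tjT R)) 255 := tab_is (by norm_num) _

theorem tj_le (i : ℕ) : tx (tjT R) i ≤ 255 := tab_le (by norm_num) _ i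

theorem tj_lt : tjT R < 65536 ^ N R := tab_lt (by norm_num) _

theorem tk_is : L (S R) (tkT R) (tx (tkT R)) 255 := tab_is (by norm_num) _

theorem tk_le (i : ℕ) : tx (tkT R) i ≤ 255 := tab_le (by norm_num) _ i

theorem tk_lt : tkT R < 65536 ^ N R := tab_lt (by norm_num) _

theorem kp_is : L (S R) (kpT R) (tx (kpT R)) 255 := tab_is (by norm_num) _

theorem kp_le (i : ℕ) : tx (kpT R) i ≤ 255 := tab_le (by norm_num) _ i

theorem kp_lt : kpT R < 65536 ^ N R := tab_lt (by norm_num) _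

theorem kr_is : L (S R) (krT R) (tx (krT R)) 255 := tab_is (by norm_num) _

theorem kr_le (i : ℕ) : tx (krT R) i ≤ 255 := tab_le (by norm_num) _ i

theorem kr_lt : krT R < 65536 ^ N R := tab_lt (by norm_num) _

theorem rd_is : L (S R) (rdT R) (tx (rdT R)) 255 := tab_is (by norm_num) _

theorem rd_le (i : ℕ) : tx (rdT R) i ≤ 255 := tab_le (by norm_num) _ i

theorem rd_lt : rdT R < 65536 ^ N R := tab_lt (by norm_num) _

theorem sc_is : L (S R) (scT R) (tx (scT R)) 255 := tab_is (by norm_num) _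

theorem sc_le (i : ℕ) : tx (scT R) i ≤ 255 := tab_le (by norm_num) _ i

theorem sc_lt : scT R < 65536 ^ N R := tab_lt (by norm_num) _

theorem tu_is : L (S R) (tuT R) (tx (tuT R)) 255 := tab_is (by norm_num) _

theorem tu_le (i : ℕ) : tx (tuT R) i ≤ 255 := tab_le (by norm_num) _ i

theorem tu_lt : tuT R < 65536 ^ N R := tab_lt (by norm_num) _

theorem ra_is : L (S R) (raT R) (tx (raT R)) 255 := tab_is (by norm_num) _

theorem ra_le (i : ℕ) : tx (raT R) i ≤ 255 := tab_le (by norm_num) _ i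

theorem ra_lt : raT R < 65536 ^ N R := tab_lt (by norm_num) _

theorem ad_is : L (S R) (adT R) (tx (adT R)) 255 := tab_is (by norm_num) _

theorem ad_le (i : ℕ) : tx (adT R) i ≤ 255 := tab_le (by norm_num) _ i

theorem ad_lt : adT R < 65536 ^ N R := tab_lt (by norm_num) _

theorem fal_is : L (S R) (falT R) (tx (falT R)) 255 := tab_is (by norm_num) _

theorem fal_le (i : ℕ) : tx (falT R) i ≤ 255 := tab_le (by norm_num) _ i

theorem fal_lt : falT R < 65536 ^ N R := tab_lt (by norm_num) _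

theorem cs_is : L (S R) (csT R) (tx (csT R)) 255 := tab_is (by norm_num) _

theorem cs_le (i : ℕ) : tx (csT R) i ≤ 255 := tab_le (by norm_num) _ i

theorem cs_lt : csT R < 65536 ^ N R := tab_lt (by norm_num) _

theorem es_is : L (S R) (esT R) (tx (esT R)) 255 := tab_is (by norm_num) _

theorem es_le (i : ℕ) : tx (esT R) i ≤ 255 := tab_le (by norm_num) _ i

theorem es_lt : esT R < 65536 ^ N R := tab_lt (by norm_num) _

theorem esp_is : L (S R) (espT R) (tx (espT R)) 255 := tab_is (by norm_num) _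

theorem esp_le (i : ℕ) : tx (espT R) i ≤ 255 := tab_le (by norm_num) _ i

theorem esp_lt : espT R < 65536 ^ N R := tab_lt (by norm_num) _

theorem kd_is : L (S R) (kdT R) (tx (kdT R)) 255 := tab_is (by norm_num) _

theorem kd_le (i : ℕ) : tx (kdT R) i ≤ 255 := tab_le (by norm_num) _ i

theorem kd_lt : kdT R < 65536 ^ N R := tab_lt (by norm_num) _

theorem ar1_is : L (S R) (ar1T R) (tx (ar1T R)) 255 := tab_is (by norm_num) _

theorem ar1_le (i : ℕ) : tx (ar1T R) i ≤ 255 := tab_le (by norm_num) _ i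

theorem ar1_lt : ar1T R < 65536 ^ N R := tab_lt (by norm_num) _

theorem ar2_is : L (S R) (ar2T R) (tx (ar2T R)) 255 := tab_is (by norm_num) _

theorem ar2_le (i : ℕ) : tx (ar2T R) i ≤ 255 := tab_le (by norm_num) _ i

theorem ar2_lt : ar2T R < 65536 ^ N R := tab_lt (by norm_num) _

theorem dq1_is : L (S R) (dq1T R) (tx (dq1T R)) 255 := tab_is (by norm_num) _

theorem dq1_le (i : ℕ) : tx (dq1T R) i ≤ 255 := tab_le (by norm_num) _ i

theorem dq1_lt : dq1T R < 65536 ^ N R := tab_lt (by norm_num) _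

theorem dq2_is : L (S R) (dq2T R) (tx (dq2T R)) 255 := tab_is (by norm_num) _

theorem dq2_le (i : ℕ) : tx (dq2T R) i ≤ 255 := tab_le (by norm_num) _ i

theorem dq2_lt : dq2T R < 65536 ^ N R := tab_lt (by norm_num) _

theorem nq1_is : L (S R) (nq1T R) (tx (nq1T R)) 255 := tab_is (by norm_num) _

theorem nq1_le (i : ℕ) : tx (nq1T R) i ≤ 255 := tab_le (by norm_num) _ i

theorem nq1_lt : nq1T R < 65536 ^ N R := tab_lt (by norm_num) _

theorem nq2_is : L (S R) (nq2T R) (tx (nq2T R)) 255 := tab_is (by norm_num) _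

theorem nq2_le (i : ℕ) : tx (nq2T R) i ≤ 255 := tab_le (by norm_num) _ i

theorem nq2_lt : nq2T R < 65536 ^ N R := tab_lt (by norm_num) _

theorem oq1_is : L (S R) (oq1T R) (tx (oq1T R)) 255 := tab_is (by norm_num) _

theorem oq1_le (i : ℕ) : tx (oq1T R) i ≤ 255 := tab_le (by norm_num) _ i

theorem oq1_lt : oq1T R < 65536 ^ N R := tab_lt (by norm_num) _

theorem oq2_is : L (S R) (oq2T R) (tx (oq2T R)) 255 := tab_is (by norm_num) _

theorem oq2_le (i : ℕ) : tx (oq2T R) i ≤ 255 := tab_le (by norm_num) _ i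

theorem oq2_lt : oq2T R < 65536 ^ N R := tab_lt (by norm_num) _

theorem sq_is : L (S R) (sqT R) (tx (sqT R)) 255 := tab_is (by norm_num) _

theorem sq_le (i : ℕ) : tx (sqT R) i ≤ 255 := tab_le (by norm_num) _ i

theorem sq_lt : sqT R < 65536 ^ N R := tab_lt (by norm_num) _

theorem st_is : L (S R) (stT R) (tx (stT R)) 32767 := tab_is (by norm_num) _

theorem st_le (i : ℕ) : tx (stT R) i ≤ 32767 := tab_le (by norm_num) _ i

theorem st_lt : stT R < 65536 ^ N R := tab_lt (by norm_num) _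

theorem stp_is : L (S R) (stpT R) (tx (stpT R)) 32767 := tab_is (by norm_num) _

theorem stp_le (i : ℕ) : tx (stpT R) i ≤ 32767 := tab_le (by norm_num) _ i

theorem stp_lt : stpT R < 65536 ^ N R := tab_lt (by norm_num) _

theorem lt_is : L (S R) (ltT R) (tx (ltT R)) 32767 := tab_is (by norm_num) _

theorem lt_le (i : ℕ) : tx (ltT R) i ≤ 32767 := tab_le (by norm_num) _ i

theorem lt_lt : ltT R < 65536 ^ N R := tab_lt (by norm_num) _

theorem dj_is : L (S R) (djT R) (tx (djT R)) 32767 := tab_is (by norm_num) _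

theorem dj_le (i : ℕ) : tx (djT R) i ≤ 32767 := tab_le (by norm_num) _ i

theorem dj_lt : djT R < 65536 ^ N R := tab_lt (by norm_num) _

theorem djp_is : L (S R) (djpT R) (tx (djpT R)) 32767 := tab_is (by norm_num) _

theorem djp_le (i : ℕ) : tx (djpT R) i ≤ 32767 := tab_le (by norm_num) _ i

theorem djp_lt : djpT R < 65536 ^ N R := tab_lt (by norm_num) _

theorem s1_is : L (S R) (s1T R) (tx (s1T R)) 32767 := tab_is (by norm_num) _

theorem s1_le (i : ℕ) : tx (s1T R) i ≤ 32767 := tab_le (by norm_num) _ i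

theorem s1_lt : s1T R < 65536 ^ N R := tab_lt (by norm_num) _

theorem s2_is : L (S R) (s2T R) (tx (s2T R)) 32767 := tab_is (by norm_num) _

theorem s2_le (i : ℕ) : tx (s2T R) i ≤ 32767 := tab_le (by norm_num) _ i

theorem s2_lt : s2T R < 65536 ^ N R := tab_lt (by norm_num) _

theorem s3_is : L (S R) (s3T R) (tx (s3T R)) 32767 := tab_is (by norm_num) _

theorem s3_le (i : ℕ) : tx (s3T R) i ≤ 32767 := tab_le (by norm_num) _ i

theorem s3_lt : s3T R < 65536 ^ N R := tab_lt (by norm_num) _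

theorem nm_is : L (S R) (nmT R) (tx (nmT R)) 32767 := tab_is (by norm_num) _

theorem nm_le (i : ℕ) : tx (nmT R) i ≤ 32767 := tab_le (by norm_num) _ i

theorem nm_lt : nmT R < 65536 ^ N R := tab_lt (by norm_num) _

theorem na_is : L (S R) (naT R) (tx (naT R)) 32767 := tab_is (by norm_num) _

theorem na_le (i : ℕ) : tx (naT R) i ≤ 32767 := tab_le (by norm_num) _ i

theorem na_lt : naT R < 65536 ^ N R := tab_lt (by norm_num) _

theorem nmk_le (i : ℕ) : tx (nmkT R) i ≤ 32767 := by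
  unfold nmkT
  rw [tx_shr23]
  exact nm_le R _

theorem nmk_lt : nmkT R < 65536 ^ N R := lt_of_le_of_lt (shr_le _ _) (nm_lt R)

theorem nmk_is : L (S R) (nmkT R) (tx (nmkT R)) 32767 :=
  tx_L ((nmk_lt R).trans_le (Nat.pow_le_pow_right (by norm_num) (Nat.le_succ _))) (nmk_le R) le_rfl

theorem nak_le (i : ℕ) : tx (nakT R) i ≤ 32767 := by
  unfold nakT
  rw [tx_shr23]
  exact na_le R _

theorem nak_lt : nakT R < 65536 ^ N R := lt_of_le_of_lt (shr_le _ _) (na_lt R)

theorem nak_is : L (S R) (nakT R) (tx (nakT R)) 32767 :=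
  tx_L ((nak_lt R).trans_le (Nat.pow_le_pow_right (by norm_num) (Nat.le_succ _))) (nak_le R) le_rfl

theorem real_is : B (S R) (realT R) (tf (realT R)) := flg_is _

theorem real_lt : realT R < 65536 ^ N R := flg_lt _

theorem realp_is : B (S R) (realpT R) (tf (realpT R)) := flg_is _

theorem realp_lt : realpT R < 65536 ^ N R := flg_lt _

theorem sp_is : B (S R) (spT R) (tf (spT R)) := flg_is _

theorem sp_lt : spT R < 65536 ^ N R := flg_lt _

theorem lb_is : B (S R) (lbT R) (tf (lbT R)) := flg_is _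

theorem lb_lt : lbT R < 65536 ^ N R := flg_lt _

theorem lbp_is : B (S R) (lbpT R) (tf (lbpT R)) := flg_is _

theorem lbp_lt : lbpT R < 65536 ^ N R := flg_lt _

theorem ro_is : B (S R) (roT R) (tf (roT R)) := flg_is _

theorem ro_lt : roT R < 65536 ^ N R := flg_lt _

theorem ou_is : B (S R) (ouT R) (tf (ouT R)) := flg_is _

theorem ou_lt : ouT R < 65536 ^ N R := flg_lt _

theorem op_is : B (S R) (opT R) (tf (opT R)) := flg_is _

theorem op_lt : opT R < 65536 ^ N R := flg_lt _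

theorem tw_is : B (S R) (twT R) (tf (twT R)) := flg_is _

theorem tw_lt : twT R < 65536 ^ N R := flg_lt _

theorem uk_is : B (S R) (ukT R) (tf (ukT R)) := flg_is _

theorem uk_lt : ukT R < 65536 ^ N R := flg_lt _

theorem oz_is : B (S R) (ozT R) (tf (ozT R)) := flg_is _

theorem oz_lt : ozT R < 65536 ^ N R := flg_lt _

theorem lu_is : B (S R) (luT R) (tf (luT R)) := flg_is _

theorem lu_lt : luT R < 65536 ^ N R := flg_lt _

theorem cx_is : B (S R) (cxT R) (tf (cxT R)) := flg_is _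

theorem cx_lt : cxT R < 65536 ^ N R := flg_lt _

theorem rl_is : B (S R) (rlT R) (tf (rlT R)) := flg_is _

theorem rl_lt : rlT R < 65536 ^ N R := flg_lt _

theorem mt_is : B (S R) (mtT R) (tf (mtT R)) := flg_is _

theorem mt_lt : mtT R < 65536 ^ N R := flg_lt _

def pw1T (_ : VR) : ℕ := pws (nat_lit 0)

theorem pw1_is : L (S R) (pw1T R) (tx (pw1T R)) 16384 := pws_is (leN R le_rfl (by norm_num))

theorem pw1_le (i : ℕ) : tx (pw1T R) i ≤ 16384 := pws_le _ i

theorem pw1_lt : pw1T R < 65536 ^ N R := pws_lt (leN R le_rfl (by norm_num))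

def pw2T (_ : VR) : ℕ := pws (nat_lit 15)

theorem pw2_is : L (S R) (pw2T R) (tx (pw2T R)) 16384 := pws_is (leN R le_rfl (by norm_num))

theorem pw2_le (i : ℕ) : tx (pw2T R) i ≤ 16384 := pws_le _ i

theorem pw2_lt : pw2T R < 65536 ^ N R := pws_lt (leN R le_rfl (by norm_num))

def pw3T (_ : VR) : ℕ := pws (nat_lit 30)

theorem pw3_is : L (S R) (pw3T R) (tx (pw3T R)) 16384 := pws_is (leN R le_rfl (by norm_num))

theorem pw3_le (i : ℕ) : tx (pw3T R) i ≤ 16384 := pws_le _ i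

theorem pw3_lt : pw3T R < 65536 ^ N R := pws_lt (leN R le_rfl (by norm_num))

def pwhT (_ : VR) : ℕ := pws (nat_lit 15)

theorem pwh_is : L (S R) (pwhT R) (tx (pwhT R)) 16384 := pws_is (leN R le_rfl (by norm_num))

theorem pwh_le (i : ℕ) : tx (pwhT R) i ≤ 16384 := pws_le _ i

theorem pwh_lt : pwhT R < 65536 ^ N R := pws_lt (leN R le_rfl (by norm_num))

end VR

/-- the bit `j` of the row `i` of a matrix -/
noncomputable def V2.sd (R : VR) (i : ℕ) (j : ℕ) : Bool :=
  (K.bor (K.bor (K.bnot (Nat.beq (Nat.land (tx (VR.s1T R) i) (tx (VR.pw1T R) j)) (nat_lit 0)))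
    (K.bnot (Nat.beq (Nat.land (tx (VR.s2T R) i) (tx (VR.pw2T R) j)) (nat_lit 0))))
    (K.bnot (Nat.beq (Nat.land (tx (VR.s3T R) i) (tx (VR.pw3T R) j)) (nat_lit 0))))

namespace VR

variable (R : VR)

/-- the patch -/
noncomputable def P : Pa where
  n := n R
  φ := tx (phiT R)
  α := tx (alT R)
  l := tx (lT R)
  real := tf (realT R)
  u := tx (uT R)

/-- the patch after the flips -/
noncomputable def P' : Pa where
  n := n R
  φ := tx (phpT R)
  α := tx (alT R)
  l := tx (lpT R)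
  real := tf (realpT R)
  u := tx (upT R)

noncomputable def Q : Sp where
  ns := ns R
  cx := tf (cxT R)
  ρ := tx (rhoT R)
  ρi := tx (rhiT R)
  π := tx (piT R)
  rl := tf (rlT R)
  rk := tx (rkT R)
  rj := tx (rjT R)
  nf := fun k j => Bool.rec (motive := fun _ => ℕ) (Bool.rec (motive := fun _ => ℕ) (tx (nf2T R) j) (tx (nf1T R) j) (Nat.beq k (nat_lit 1))) (tx (nf0T R) j) (Nat.beq k (nat_lit 0))
  vp := tx (vpT R)
  vr := tx (vrT R)
  lr := tx (lrT R)

noncomputable def Z : Stars where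
  Q := Q R
  nc := nc R
  m := tx (zmT R)
  off := tx (offT R)
  ca := tx (caT R)
  pa := tx (zpaT R)
  ja := tx (jaT R)
  pr := tx (prT R)
  pt := tx (ptT R)

noncomputable def X : XE where
  x := x R
  k := k R
  lo := lo R
  nc := true
  par := true
  flt := fun _ => true
  ce := tx (ceT R)
  ce' := tx (cepT R)
  cr := tx (crT R)
  pa := tx (paT R)
  pk := tx (pkT R)
  cr' := tx (crpT R)
  pa' := tx (papT R)
  pk' := tx (pkpT R)
  st := tx (stT R)
  st' := tx (stpT R)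
  es := lst (kes R) (esT R)
  es' := lst (kesp R) (espT R)
  rs := K.lfmap K.ad (lst2 (kar R) (ar1T R) (ar2T R))
  ar := lst2 (kar R) (ar1T R) (ar2T R)
  sp := tf (spT R)
  dj := lst (kdj R) (djT R)
  dj' := lst (kdjp R) (djpT R)
  lr := []
  kd := lst (kkd R) (kdT R)

noncomputable def O : OD where
  Δ := nat_lit 6
  lo := lo R
  x := x R
  m := Nat.add (x R) (k R)
  p := p R
  pc := tx (cepT R)
  rt := tx (crpT R)
  par := tx (papT R)
  prk := tx (pkpT R)
  lb := tf (lbT R)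
  wt := fun i => bt (tf (lbT R) i)
  lb' := tf (lbpT R)
  wt' := fun i => bt (tf (lbpT R) i)
  ro := tf (roT R)
  sl := tx (slT R)

noncomputable def F : Fc where
  P := P R
  P' := P' R
  fl := VR.fl R
  X := X R
  T := VR.T R
  O := O R
  C := VR.C R
  nl := nl R
  NM := nmT R
  NA := naT R
  cq := []
  sm := nat_lit 0
  ou := tf (ouT R)
  op := tf (opT R)
  ty := tx (tyT R)
  tj := tx (tjT R)
  tk := tx (tkT R)
  tw := tf (twT R)
  uk := tf (ukT R)
  oz := tf (ozT R)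
  gt := VR.gt R
  kp := tx (kpT R)
  kr := tx (krT R)
  lu := tf (luT R)
  D5 := VR.D5 R
  p5 := VR.p5 R

noncomputable def WF : WF where
  Z := Z R
  lt := tx (ltT R)
  ac := fun a => Nat.ble (Nat.succ a) (x R)
  F := F R
  PT := P R
  rd := tx (rdT R)
  dq := lst2 (kdq R) (dq1T R) (dq2T R)
  nq := lst2 (knq R) (nq1T R) (nq2T R)
  sc := tx (scT R)
  sw := fun a => K.lgetD (VR.sw R) a []
  oq := lst2 (koq R) (oq1T R) (oq2T R)
  tu := tx (tuT R)
  tl := fun a => K.lgetD (VR.tl R) a []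

/-- the fact -/
noncomputable def W : WG where
  toWF := WF R
  wd := fun a => K.lgetD (VR.wd R) a []
  ra := tx (raT R)
  ad := fun a b => tx (adT R) (Nat.add (Nat.mul (st8 R) a) b)
  al := tx (falT R)
  cs := tx (csT R)
  SD := V2.sd R
  bw := fun a => K.lgetD (VR.bw R) a []
  pl := VR.pl R

noncomputable def Fr : Fr where
  P := P R
  X := X R
  T := VR.T R
  nl := nl R
  NM := nmT R
  lab := VR.lab R
  dr := dr R
  nu := tf (opT R)
  rq := tf (ouT R)
  lb := tf (lbT R)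
  lu := tf (luT R)

noncomputable def WR : WR where
  Z := Z R
  lt := tx (ltT R)
  ac := fun a => Nat.ble (Nat.succ a) (x R)
  F := Fr R
  PT := P R
  rd := tx (rdT R)
  dq := lst2 (kdq R) (dq1T R) (dq2T R)

/-- the fact without a reduction -/
noncomputable def WS : WS where
  toWR := WR R
  wd := fun a => K.lgetD (VR.wd R) a []
  ra := tx (raT R)
  ad := fun a b => tx (adT R) (Nat.add (Nat.mul (st8 R) a) b)
  al := tx (falT R)
  cs := tx (csT R)
  SD := V2.sd R
  pl := VR.pl R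

end VR

end Vs

end Pool.FC7
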