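import Pool.Agent.FC7.VsC

/-! # Vector form of the static checks: two variables, gathering -/

open Finset

set_option linter.unusedSectionVars false

namespace Pool.FC7

open Pool.FC6

namespace Vs

open Vc (vec vec_congr vec_add vec_mul vec_zero vec_le vec_sub vec_app vec_split vec_lt vec_bit
  vec_and vec_or vec_xor vec_inj pow16)

variable {R : VR} {M V W C k : ℕ} {f g : ℕ → ℕ} {b c : ℕ} {p q : ℕ → Bool}
  {F G : ℕ → ℕ → ℕ} {A : ℕ → ℕ → Bool}

/-- functions of two variables: row `j`, lane `i` -/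
abbrev L2 (R : VR) (V : ℕ) (f : ℕ → ℕ → ℕ) (b : ℕ) : Prop :=
  L (Nat.mul (VR.N R) (VR.S R)) V (fun t => f (t / VR.S R) (t % VR.S R)) b

abbrev B2 (R : VR) (V : ℕ) (p : ℕ → ℕ → Bool) : Prop :=
  B (Nat.mul (VR.N R) (VR.S R)) V (fun t => p (t / VR.S R) (t % VR.S R))

theorem mod_lt (R : VR) (t : ℕ) : t % VR.S R < VR.S R := Nat.mod_lt _ (VR.S_pos R)

theorem div_lt {t : ℕ} (h : t < Nat.mul (VR.N R) (VR.S R)) : t / VR.S R < VR.N R := by
  rw [Nat.div_lt_iff_lt_mul (VR.S_pos R)]
  exact h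

theorem L2.rep (h : L (VR.S R) V f b) : L2 R (Nat.mul V (VR.cr1 R)) (fun _ i => f i) b := by
  refine ⟨?_, fun t _ => h.le _ (mod_lt R t), h.hb⟩
  conv_lhs => rw [h.eq]
  exact rep_eq (VR.S_pos R) (VR.N R) f

theorem B2.rep (h : B (VR.S R) V p) : B2 R (Nat.mul V (VR.cr1 R)) (fun _ i => p i) :=
  (L2.rep h.L).eq

theorem row_eq (h : V = vec (VR.S R) f) (hf : ∀ i < VR.S R, f i < 65536) :
    srM (VR.N R) (VR.S R) (VR.o1 R) V = vec (Nat.mul (VR.N R) (VR.S R)) fun t => f (t / VR.S R) := by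
  have e1 : V = vec (VR.S R) fun i => if i < VR.S R then f i else 0 := by
    rw [h]; exact vec_congr fun i hi => by rw [if_pos hi]
  have e2 := sr_eq (Kn := VR.N R) (M := VR.S R) (Nat.lt_succ_self _) (T := V)
    ⟨VR.S R, Nat.le_succ _, e1⟩ fun i => by
      split_ifs with hi
      · exact hf i hi
      · norm_num
  rw [show VR.o1 R = oM (VR.S R) from rfl, e2]
  refine vec_congr fun t ht => ?_
  rw [if_pos]
  exact (div_lt ht).trans (Nat.lt_succ_self _)

theorem L2.row (h : L (VR.S R) V f b) :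
    L2 R (srM (VR.N R) (VR.S R) (VR.o1 R) V) (fun j _ => f j) b :=
  ⟨row_eq h.eq h.lt', fun _ ht => h.le _ ((div_lt ht).trans (Nat.lt_succ_self _)), h.hb⟩

theorem B2.row (h : B (VR.S R) V p) :
    B2 R (srM (VR.N R) (VR.S R) (VR.o1 R) V) (fun j _ => p j) := (L2.row h.L).eq

theorem B.of_eq (h : B M V p) (h' : ∀ i < M, p i = q i) : B M V q := by
  unfold B
  rw [show V = _ from h]
  exact vec_congr fun i hi => by rw [h' i hi]

theorem L.of_eq (h : L M V f b) (h' : ∀ i < M, f i = g i) : L M V g b :=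
  ⟨h.eq.trans (vec_congr h'), fun i hi => h' i hi ▸ h.le i hi, h.hb⟩

/-! ### The loop variable -/

namespace VR

def iota (R : VR) : ℕ :=
  Nat.div (Nat.sub (Nat.succ (Nat.mul (N R) (Nat.pow (nat_lit 2) (wM (S R))))) (o1 R)) (nat_lit 65535)

theorem iota_aux (n : ℕ) : 65535 * vec (n + 1) (fun i => i) + vec (n + 1) (fun _ => 1) =
    n * 65536 ^ (n + 1) + 1 := by
  induction n with
  | zero => simp [vec]
  | succ n ih =>
    have e1 : vec (n + 1 + 1) (fun i => i) = vec (n + 1) (fun i => i) + (n + 1) * 65536 ^ (n + 1) := by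
      unfold vec; rw [sum_range_succ]
    have e2 : vec (n + 1 + 1) (fun _ => 1) = vec (n + 1) (fun _ => 1) + 65536 ^ (n + 1) := by
      unfold vec; rw [sum_range_succ, one_mul]
    rw [e1, e2]
    have e3 : (n + 1) * 65536 ^ (n + 1 + 1) = (n + 1) * (65536 * 65536 ^ (n + 1)) := by
      rw [pow_succ 65536 (n + 1)]; ring
    rw [e3]
    generalize 65536 ^ (n + 1) = P at *
    generalize vec (n + 1) (fun i => i) = v at *
    generalize vec (n + 1) (fun _ => 1) = w at *
    have h : 65535 * (v + (n + 1) * P) + (w + P) = (65535 * v + w) + (n + 1) * (65535 * P) + P := by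
      ring
    rw [h, ih]
    ring

theorem iota_is (R : VR) : L (S R) (iota R) (fun i => i) 127 := by
  refine ⟨?_, fun i hi => (Nat.lt_succ_iff.1 hi).trans (N_le R), by norm_num⟩
  have h := iota_aux (N R)
  have e : iota R = ((N R * 65536 ^ (N R + 1) + 1) - vec (N R + 1) fun _ => 1) / 65535 := by
    rw [← show o1 R = vec (N R + 1) (fun _ => 1) from o1e R, pow16]; rfl
  rw [e, ← h, Nat.add_sub_cancel, Nat.mul_div_cancel_left _ (by norm_num)]
  rfl

/-- the row variable -/
def J (R : VR) : ℕ := srM (N R) (S R) (o1 R) (iota R)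

theorem J_is (R : VR) : L2 R (J R) (fun j _ => j) 127 := L2.row (iota_is R)

/-! ### Division by the stride -/

/-- the lanes divided by the stride -/
noncomputable def dvT (R : VR) : ℕ :=
  Bool.rec (motive := fun _ => ℕ)
    (Nat.land (Nat.shiftRight (iota R) (nat_lit 3)) (Nat.mul (o1 R) (nat_lit 15)))
    (Nat.land (Nat.shiftRight (Nat.mul (nat_lit 205) (iota R)) (nat_lit 11))
      (Nat.mul (o1 R) (nat_lit 15))) (K.tbit (VR.N0 R) (nat_lit 6))

/-- the rests -/
noncomputable def mdT (R : VR) : ℕ :=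
  Bool.rec (motive := fun _ => ℕ) (Nat.land (iota R) (Nat.mul (o1 R) (nat_lit 7)))
    (Vc.ssub (h1 R) (iota R) (Nat.mul (nat_lit 10) (dvT R))) (K.tbit (VR.N0 R) (nat_lit 6))

theorem dv_L (R : VR) : L (S R) (dvT R) (fun i => Nat.div i (st8 R)) 15 := by
  have hS : S R ≤ 128 := Nat.succ_le_succ (N_le R)
  unfold dvT st8
  cases K.tbit (VR.N0 R) (nat_lit 6)
  · refine L.of_eq (L.fld (o1e R) (iota_is R) 3 4 (by decide) (by decide)) fun i hi => ?_
    show i / 8 % 16 = i / 8
    omega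
  · refine L.of_eq (L.fld (o1e R) (L.cmul (iota_is R) 205 (by decide)) 11 4 (by decide)
      (by decide)) fun i hi => ?_
    exact (by decide : ∀ i < 128, 205 * i / 2048 % 16 = i / 10) i (lt_of_lt_of_le hi hS)

theorem md_L (R : VR) : L (S R) (mdT R) (fun i => Nat.mod i (st8 R)) 127 := by
  have h := dv_L R
  unfold mdT
  revert h
  unfold st8
  cases K.tbit (VR.N0 R) (nat_lit 6)
  · intro _
    exact L.mono (L.fld0 (o1e R) (iota_is R) 3 (by decide)) (by decide) (by decide)
  · intro h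
    refine L.of_eq (L.sub (h1e R) (iota_is R) (L.cmul h 10 (by decide))) fun i _ => ?_
    show i - 10 * (i / 10) = i % 10
    omega

theorem dv_tx (R : VR) {i : ℕ} (hi : i < S R) : tx (dvT R) i = Nat.div i (st8 R) := by
  rw [(dv_L R).eq, tx_vec (fun i hi => by have := (dv_L R).le i hi; omega), if_pos hi]

theorem md_tx (R : VR) {i : ℕ} (hi : i < S R) : tx (mdT R) i = Nat.mod i (st8 R) := by
  rw [(md_L R).eq, tx_vec (fun i hi => by have := (md_L R).le i hi; omega), if_pos hi]

theorem dv_is (R : VR) : L (S R) (dvT R) (tx (dvT R)) 15 :=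
  L.of_eq (dv_L R) fun _ hi => (dv_tx R hi).symm

theorem md_is (R : VR) : L (S R) (mdT R) (tx (mdT R)) 127 :=
  L.of_eq (md_L R) fun _ hi => (md_tx R hi).symm

end VR

/-! ### Gathering -/

/-- the mask of the lanes with `X = J` -/
def gmk (h J X : ℕ) : ℕ :=
  Nat.sub (Nat.land (Nat.sub h (Nat.xor X J)) h)
    (Nat.shiftRight (Nat.land (Nat.sub h (Nat.xor X J)) h) (nat_lit 15))

theorem gmk_eq {h : ℕ} (hh : h = vec M fun _ => 32768) (h1 : L M V f b) (h2 : L M W g c) :
    gmk h W V = vec M fun i => if f i = g i then 32767 else 0 := by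
  have e0 := L.beq hh h1 h2
  have e1 : Nat.land (Nat.sub h (Nat.xor V W)) h = vec M fun i => if f i = g i then 32768 else 0 := by
    have hx : ∀ i < M, f i ^^^ g i < 32768 := fun i hi =>
      Nat.xor_lt_two_pow (n := 15) (h1.lt i hi) (h2.lt i hi)
    have e : Nat.land (Nat.sub h (Nat.xor V W)) h =
        (vec M (fun _ => 32768) - (vec M f ^^^ vec M g)) &&& vec M fun _ => 32768 := by
      rw [← hh, ← h1.eq, ← h2.eq]; rfl
    rw [e, vec_xor (fun i hi => h1.lt' i hi) (fun i hi => h2.lt' i hi),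
      vec_sub fun i hi => (hx i hi).le, vec_and (fun i hi => by omega) (fun i _ => by norm_num)]
    refine vec_congr fun i hi => ?_
    rw [bit15 (by have := hx i hi; omega)]
    by_cases h3 : f i = g i
    · rw [if_pos h3, h3, Nat.xor_self, if_pos (by norm_num)]
    · have h4 : f i ^^^ g i ≠ 0 := fun h5 => h3 (Nat.xor_eq_zero_iff.1 h5)
      rw [if_neg h3, if_neg (by omega)]
  have e2 : Nat.shiftRight (Nat.land (Nat.sub h (Nat.xor V W)) h) 15 =
      vec M fun i => bt (Nat.beq (f i) (g i)) := e0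
  have e3 : gmk h W V = Nat.land (Nat.sub h (Nat.xor V W)) h -
      Nat.shiftRight (Nat.land (Nat.sub h (Nat.xor V W)) h) 15 := rfl
  rw [e3, e1] at *
  rw [show Nat.shiftRight (vec M fun i => if f i = g i then 32768 else 0) 15 =
      vec M fun i => bt (Nat.beq (f i) (g i)) from e2]
  rw [vec_sub fun i _ => ?_]
  · refine vec_congr fun i _ => ?_
    rw [K.nbeq_eq]
    by_cases h3 : f i = g i
    · rw [if_pos h3, decide_eq_true h3, if_pos h3]; rfl
    · rw [if_neg h3, decide_eq_false h3, if_neg h3]; rfl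
  · rw [K.nbeq_eq]
    by_cases h3 : f i = g i
    · rw [if_pos h3, decide_eq_true h3]; decide
    · rw [if_neg h3, decide_eq_false h3]; decide

theorem gat0 {I T c : ℕ} (h : L (VR.S R) I f b) (hT : T = vec (VR.S R) g)
    (hg : ∀ i, g i ≤ c) (hg0 : ∀ i, VR.N R ≤ i → g i = 0) (hc : c ≤ 32767) :
    Nat.mod (Nat.land (gmk (VR.h2 R) (VR.J R) (Nat.mul I (VR.cr1 R)))
      (srM (VR.N R) (VR.S R) (VR.o1 R) T)) (VR.m1 R) = vec (VR.S R) fun i => g (f i) := by
  have e1 := gmk_eq (VR.h2e R) (L2.rep h) (VR.J_is R)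
  have e2 := row_eq (R := R) hT fun i _ => (hg i).trans_lt (by omega)
  have e3 : Nat.land (gmk (VR.h2 R) (VR.J R) (Nat.mul I (VR.cr1 R)))
      (srM (VR.N R) (VR.S R) (VR.o1 R) T) = vec (VR.N R * VR.S R) fun t =>
        (fun j i => if f i = j then g j else 0) (t / VR.S R) (t % VR.S R) := by
    rw [e1, e2]
    have e4 : ∀ a b : ℕ, Nat.land a b = a &&& b := fun _ _ => rfl
    rw [e4, vec_and (fun i _ => by split_ifs <;> norm_num) (fun i _ => by
      have := hg (i / VR.S R); omega)]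
    refine vec_congr fun t _ => ?_
    beta_reduce
    split_ifs
    · rw [Nat.and_comm, and_k (by have := hg (t / VR.S R); omega)]
    · exact Nat.zero_and _
  rw [e3]
  have e5 : ∀ i, ∑ j ∈ range (VR.N R), (if f i = j then g j else 0) = g (f i) := by
    intro i
    rw [Finset.sum_ite_eq]
    split_ifs with h3
    · rfl
    · exact (hg0 _ (by simpa using h3)).symm
  have e6 := red_eq (VR.S_pos R) (fun j i => if f i = j then g j else 0) (VR.N R) fun i _ => by
    rw [e5]
    exact (hg _).trans hc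
  have e7 : VR.m1 R = mM (VR.S R) := rfl
  rw [e7, e6]
  exact vec_congr fun i _ => e5 i

theorem L.gat {I T c : ℕ} (h : L (VR.S R) I f b) (hT : L (VR.S R) T (tx T) c)
    (ht : T < 65536 ^ VR.N R) (hle : ∀ i, tx T i ≤ c) :
    L (VR.S R) (Nat.mod (Nat.land (gmk (VR.h2 R) (VR.J R) (Nat.mul I (VR.cr1 R)))
      (srM (VR.N R) (VR.S R) (VR.o1 R) T)) (VR.m1 R)) (fun i => tx T (f i)) c :=
  ⟨gat0 h hT.eq hle (fun _ hi => tx_hi ht hi) hT.hb, fun _ _ => hle _, hT.hb⟩

theorem B.gat {I T : ℕ} (h : Vs.L (VR.S R) I f b) (hT : B (VR.S R) T (tf T))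
    (ht : T < 65536 ^ VR.N R) :
    B (VR.S R) (Nat.mod (Nat.land (gmk (VR.h2 R) (VR.J R) (Nat.mul I (VR.cr1 R)))
      (srM (VR.N R) (VR.S R) (VR.o1 R) T)) (VR.m1 R)) (fun i => tf T (f i)) := by
  refine gat0 (g := fun i => bt (tf T i)) (c := 1) h hT (fun i => bt_le _) (fun i hi => ?_)
    (by norm_num)
  have h1 := tx_hi ht hi
  have h2 : tx T i = bt (tf T i) := tf_eq i (by omega)
  rw [← h2, h1]

/-! ### Loops -/

theorem rm_eq (hk : k ≤ VR.N R) (F : ℕ → ℕ → ℕ) (hF : ∀ j i, F j i < 65536) :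
    Nat.land (vec (Nat.mul (VR.N R) (VR.S R)) fun t => F (t / VR.S R) (t % VR.S R))
      (mM (Nat.mul k (VR.S R))) = vec (k * VR.S R) fun t => F (t / VR.S R) (t % VR.S R) :=
  vec_lo (Nat.mul_le_mul_right _ hk) fun _ => hF _ _

theorem sum_bt (k : ℕ) (P : ℕ → Bool) : ∑ j ∈ range k, bt (P j) ≤ k := by
  calc ∑ j ∈ range k, bt (P j) ≤ ∑ _j ∈ range k, 1 := sum_le_sum fun j _ => bt_le _
    _ = k := by simp

theorem red_bt (hk : k ≤ VR.N R) (P : ℕ → ℕ → Bool) :
    Nat.mod (Nat.land (vec (Nat.mul (VR.N R) (VR.S R)) fun t => bt (P (t / VR.S R) (t % VR.S R)))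
      (mM (Nat.mul k (VR.S R)))) (VR.m1 R) = vec (VR.S R) fun i => ∑ j ∈ range k, bt (P j i) := by
  have e := rm_eq hk (fun j i => bt (P j i)) fun j i => bt_lt _
  have e7 : VR.m1 R = mM (VR.S R) := rfl
  rw [e, e7]
  exact red_eq (VR.S_pos R) (fun j i => bt (P j i)) k fun i _ =>
    (sum_bt k _).trans (hk.trans ((VR.N_le R).trans (by norm_num)))

theorem sum0 (k : ℕ) (P : ℕ → Bool) :
    Nat.beq (∑ j ∈ range k, bt (K.bnot (P j))) 0 = K.allN k P := by
  rw [K.nbeq_eq, allN_dec, decide_eq_decide, sum_eq_zero_iff]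
  constructor
  · intro h i hi
    have := h i (mem_range.2 hi)
    cases h2 : P i
    · rw [h2] at this; exact absurd this (by decide)
    · rfl
  · intro h i hi
    rw [h i (mem_range.1 hi)]; rfl

/-- all rows `j < k` -/
theorem B.all (h : B2 R V A) (hk : k ≤ VR.N R) :
    B (VR.S R) (Nat.shiftRight (Nat.land (Nat.sub (VR.h1 R) (Nat.mod (Nat.land
      (Nat.sub (VR.o2 R) V) (mM (Nat.mul k (VR.S R)))) (VR.m1 R))) (VR.h1 R)) (nat_lit 15))
      fun i => K.allN k fun j => A j i := by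
  have h1 : Nat.sub (VR.o2 R) V = _ := B.not (VR.o2e R) h
  have h2 := red_bt (R := R) hk (fun j i => K.bnot (A j i))
  rw [← h1] at h2
  have h3 : Vs.L (VR.S R) (Nat.mod (Nat.land (Nat.sub (VR.o2 R) V) (mM (Nat.mul k (VR.S R))))
      (VR.m1 R)) (fun i => ∑ j ∈ range k, bt (K.bnot (A j i))) 127 :=
    ⟨h2, fun i _ => (sum_bt k _).trans (hk.trans (VR.N_le R)), by norm_num⟩
  exact B.of_eq (L.ez (VR.h1e R) h3) fun i _ => sum0 k fun j => A j i

/-- some row `j < k` -/
theorem B.any (h : B2 R V A) (hk : k ≤ VR.N R) :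
    B (VR.S R) (Nat.shiftRight (Nat.land (Nat.add (Nat.mod (Nat.land
      V (mM (Nat.mul k (VR.S R)))) (VR.m1 R)) (VR.k1 R)) (VR.h1 R)) (nat_lit 15))
      fun i => K.bnot (K.allN k fun j => K.bnot (A j i)) := by
  have h2 := red_bt (R := R) hk A
  have h1 : V = vec (Nat.mul (VR.N R) (VR.S R)) fun t => bt (A (t / VR.S R) (t % VR.S R)) := h
  rw [← h1] at h2
  have h3 : Vs.L (VR.S R) (Nat.mod (Nat.land V (mM (Nat.mul k (VR.S R)))) (VR.m1 R))
      (fun i => ∑ j ∈ range k, bt (A j i)) 127 :=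
    ⟨h2, fun i _ => (sum_bt k _).trans (hk.trans (VR.N_le R)), by norm_num⟩
  refine B.of_eq (L.nz (VR.h1e R) (VR.k1e R) h3) fun i _ => ?_
  rw [← sum0 k fun j => K.bnot (A j i)]
  have : ∀ b, K.bnot (K.bnot b) = b := by intro b; cases b <;> rfl
  simp only [this]

/-- the sum over the rows `j < k` -/
theorem L.sum (h : L2 R V F b) (hk : k ≤ VR.N R) (hb : 127 * b ≤ 32767) :
    L (VR.S R) (Nat.mod (Nat.land V (mM (Nat.mul k (VR.S R)))) (VR.m1 R))
      (fun i => K.sumN k fun j => F j i) (127 * b) := by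
  have hs : ∀ i < VR.S R, ∑ j ∈ range k, F j i ≤ 127 * b := by
    intro i hi
    calc ∑ j ∈ range k, F j i ≤ ∑ _j ∈ range k, b := by
          refine sum_le_sum fun j hj => ?_
          have hj' : j < VR.N R := (mem_range.1 hj).trans_le hk
          have ht : j * VR.S R + i < Nat.mul (VR.N R) (VR.S R) := by
            have h5 : (j + 1) * VR.S R ≤ VR.N R * VR.S R := Nat.mul_le_mul_right _ hj'
            have h6 : (j + 1) * VR.S R = j * VR.S R + VR.S R := by ring
            have h7 : Nat.mul (VR.N R) (VR.S R) = VR.N R * VR.S R := rfl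
            omega
          have h8 := h.le _ ht
          have e1 : (j * VR.S R + i) / VR.S R = j := by
            rw [Nat.add_comm, Nat.add_mul_div_right _ _ (VR.S_pos R), Nat.div_eq_of_lt hi,
              Nat.zero_add]
          have e2 : (j * VR.S R + i) % VR.S R = i := by
            rw [Nat.add_comm, Nat.add_mul_mod_self_right, Nat.mod_eq_of_lt hi]
          simpa only [e1, e2] using h8
      _ = k * b := by simp
      _ ≤ 127 * b := Nat.mul_le_mul_right _ (hk.trans (VR.N_le R))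
  refine ⟨?_, fun i hi => ?_, hb⟩
  · -- bounded extension
    have h1 : V = vec (VR.N R * VR.S R) fun t =>
        (fun j i => if j < VR.N R ∧ i < VR.S R then F j i else 0) (t / VR.S R) (t % VR.S R) := by
      rw [h.eq]
      exact vec_congr fun t ht => by
        beta_reduce
        rw [if_pos ⟨div_lt ht, mod_lt R t⟩]
    have hF : ∀ j i, (fun j i => if j < VR.N R ∧ i < VR.S R then F j i else 0) j i < 65536 := by
      intro j i
      beta_reduce
      split_ifs with h3
      · have ht : j * VR.S R + i < Nat.mul (VR.N R) (VR.S R) := by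
          have h5 : (j + 1) * VR.S R ≤ VR.N R * VR.S R := Nat.mul_le_mul_right _ h3.1
          have h6 : (j + 1) * VR.S R = j * VR.S R + VR.S R := by ring
          have h7 : Nat.mul (VR.N R) (VR.S R) = VR.N R * VR.S R := rfl
          omega
        have h8 := h.lt' _ ht
        have e1 : (j * VR.S R + i) / VR.S R = j := by
          rw [Nat.add_comm, Nat.add_mul_div_right _ _ (VR.S_pos R), Nat.div_eq_of_lt h3.2,
            Nat.zero_add]
        have e2 : (j * VR.S R + i) % VR.S R = i := by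
          rw [Nat.add_comm, Nat.add_mul_mod_self_right, Nat.mod_eq_of_lt h3.2]
        simpa only [e1, e2] using h8
      · norm_num
    have e := rm_eq hk _ hF
    have e7 : VR.m1 R = mM (VR.S R) := rfl
    have e8 : ∀ i < VR.S R, ∑ j ∈ range k, (if j < VR.N R ∧ i < VR.S R then F j i else 0) =
        ∑ j ∈ range k, F j i := fun i hi =>
      sum_congr rfl fun j hj => if_pos ⟨(mem_range.1 hj).trans_le hk, hi⟩
    conv_lhs => rw [h1]
    have e9 : Nat.mul (VR.N R) (VR.S R) = VR.N R * VR.S R := rfl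
    have e10 := red_eq (VR.S_pos R) (fun j i => if j < VR.N R ∧ i < VR.S R then F j i else 0) k
      fun i hi => by rw [e8 i hi]; exact (hs i hi).trans hb
    rw [← e9, e, e7, e10]
    exact vec_congr fun i hi => by rw [e8 i hi, sumN_sum]
  · rw [sumN_sum]; exact hs i hi

theorem vec_zero_iff (k : ℕ) (f : ℕ → ℕ) : vec k f = 0 ↔ ∀ i < k, f i = 0 := by
  unfold vec
  rw [sum_eq_zero_iff]
  constructor
  · intro h i hi
    have := h i (mem_range.2 hi)
    rcases Nat.mul_eq_zero.1 this with h1 | h1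
    · exact h1
    · exact absurd h1 (by positivity)
  · intro h i hi
    rw [h i (mem_range.1 hi), zero_mul]

theorem all0 (h : B (VR.S R) V p) (hk : k ≤ VR.N R) :
    Nat.beq (Nat.land (Nat.sub (VR.o1 R) V) (mM k)) (nat_lit 0) = K.allN k p := by
  have h1 : Nat.sub (VR.o1 R) V = _ := B.not (VR.o1e R) h
  have h2 : Nat.land (Nat.sub (VR.o1 R) V) (mM k) = vec k fun i => bt (K.bnot (p i)) := by
    rw [h1]
    exact vec_lo (hk.trans (Nat.le_succ _)) fun i => bt_lt _
  rw [h2, K.nbeq_eq, allN_dec, decide_eq_decide]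
  show vec k _ = 0 ↔ _
  rw [vec_zero_iff]
  constructor
  · intro h3 i hi
    have := h3 i hi
    cases h4 : p i
    · rw [h4] at this; exact absurd this (by decide)
    · rfl
  · intro h3 i hi
    rw [h3 i hi]; rfl

theorem sum1 (h : L (VR.S R) V f b) (hk : k ≤ VR.N R) (hb : 127 * b ≤ 32767) :
    Nat.mod (Nat.land V (mM k)) (nat_lit 65535) = K.sumN k f := by
  have h1 : V = vec (VR.S R) fun i => if i < VR.S R then f i else 0 := by
    rw [h.eq]
    exact vec_congr fun i hi => by rw [if_pos hi]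
  have h2 : Nat.land V (mM k) = vec k fun i => if i < VR.S R then f i else 0 := by
    rw [h1]
    refine vec_lo (hk.trans (Nat.le_succ _)) fun i => ?_
    split_ifs with hi
    · exact h.lt' i hi
    · norm_num
  have h3 : ∀ i < k, i < VR.S R := fun i hi => (hi.trans_le hk).trans (Nat.lt_succ_self _)
  have h4 : Nat.land V (mM k) = vec (k * 1) fun t => (fun j _ => f j) (t / 1) (t % 1) := by
    rw [h2, mul_one]
    exact vec_congr fun i hi => by rw [if_pos (h3 i hi), Nat.div_one]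
  have h5 : ∑ j ∈ range k, f j ≤ 127 * b := by
    calc ∑ j ∈ range k, f j ≤ ∑ _j ∈ range k, b :=
          sum_le_sum fun j hj => h.le j (h3 j (mem_range.1 hj))
      _ = k * b := by simp
      _ ≤ 127 * b := Nat.mul_le_mul_right _ (hk.trans (VR.N_le R))
  have h6 := red_eq (M := 1) (by norm_num) (fun j _ => f j) k fun i _ => h5.trans hb
  have h7 : mM 1 = 65535 := rfl
  rw [h7] at h6
  rw [h4, show (nat_lit 65535) = 65535 from rfl, h6, sumN_sum]
  simp [vec]

/-! ### Scalars -/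

theorem rec_le {x y c b1 b2 : ℕ} {q : Bool} (h1 : x ≤ b1) (h2 : y ≤ b2) (h3 : b1 ≤ c)
    (h4 : b2 ≤ c) : Bool.rec (motive := fun _ => ℕ) x y q ≤ c := by
  cases q
  · exact h1.trans h3
  · exact h2.trans h4

theorem rec_congr {α : Type} {x x' y y' : α} {q q' : Bool} (h1 : x = x') (h2 : y = y')
    (h3 : q = q') : Bool.rec (motive := fun _ => α) x y q = Bool.rec (motive := fun _ => α) x' y' q' := by
  rw [h1, h2, h3]

end Vs

end Pool.FC7
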