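import Pool.Agent.FC7.VsD

/-! # Vector form of the static checks: more operations -/

open Finset

set_option linter.unusedSectionVars false

namespace Pool.FC7

open Pool.FC6

namespace Vs

open Vc (vec vec_congr vec_add vec_mul vec_zero vec_le vec_sub vec_app vec_split vec_lt vec_bit
  vec_and vec_or vec_xor vec_inj pow16)

variable {R : VR} {M V W C k : ℕ} {f g : ℕ → ℕ} {b c : ℕ} {p q : ℕ → Bool}
  {F G : ℕ → ℕ → ℕ} {A : ℕ → ℕ → Bool}

theorem band_true (b : Bool) : K.band b true = b := by cases b <;> rfl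

theorem any0 (h : B (VR.S R) V p) (hk : k ≤ VR.N R) :
    K.bnot (Nat.beq (Nat.land V (mM k)) (nat_lit 0)) =
      K.bnot (K.allN k fun t => K.bnot (p t)) := by
  have h2 : Nat.land V (mM k) = vec k fun i => bt (p i) := by
    rw [show V = _ from h]
    exact vec_lo (hk.trans (Nat.le_succ _)) fun i => bt_lt _
  rw [h2]
  refine congrArg K.bnot ?_
  rw [K.nbeq_eq, allN_dec, decide_eq_decide]
  show vec k _ = 0 ↔ _
  rw [vec_zero_iff]
  constructor
  · intro h3 i hi
    have := h3 i hi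
    cases h4 : p i
    · rfl
    · rw [h4] at this; exact absurd this (by decide)
  · intro h3 i hi
    have := h3 i hi
    cases h4 : p i
    · rfl
    · rw [h4] at this; exact absurd this (by decide)

theorem sumN_le (k : ℕ) (f : ℕ → ℕ) (h : ∀ i < k, f i ≤ b) : K.sumN k f ≤ k * b := by
  rw [sumN_sum]
  calc ∑ j ∈ range k, f j ≤ ∑ _j ∈ range k, b :=
        sum_le_sum fun j hj => h j (mem_range.1 hj)
    _ = k * b := by simp

theorem sum1_le (h : L (VR.S R) V f b) (hk : k ≤ VR.N R) (_ : 127 * b ≤ 32767) :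
    K.sumN k f ≤ 127 * b :=
  (sumN_le k f fun i hi => h.le i ((hi.trans_le hk).trans (Nat.lt_succ_self _))).trans
    (Nat.mul_le_mul_right _ (hk.trans (VR.N_le R)))

/-- all rows `j < i` -/
theorem B.allv (A : ℕ → ℕ → Bool)
    (h : B2 R V fun j i => K.bor (K.bnot (Nat.ble (Nat.succ j) i)) (A j i)) :
    B (VR.S R) (Nat.shiftRight (Nat.land (Nat.sub (VR.h1 R) (Nat.mod
      (Nat.sub (VR.o2 R) V) (VR.m1 R))) (VR.h1 R)) (nat_lit 15))
      fun i => K.allN i fun j => A j i := by
  have h1 : Nat.sub (VR.o2 R) V = _ := B.not (VR.o2e R) h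
  have h2 := red_bt (R := R) le_rfl
    (fun j i => K.bnot (K.bor (K.bnot (Nat.ble (Nat.succ j) i)) (A j i)))
  have h0 : Nat.land (vec (Nat.mul (VR.N R) (VR.S R)) fun t => bt ((fun j i => K.bnot (K.bor
      (K.bnot (Nat.ble (Nat.succ j) i)) (A j i))) (t / VR.S R) (t % VR.S R)))
      (mM (Nat.mul (VR.N R) (VR.S R))) = vec (Nat.mul (VR.N R) (VR.S R)) fun t =>
        bt ((fun j i => K.bnot (K.bor (K.bnot (Nat.ble (Nat.succ j) i)) (A j i)))
          (t / VR.S R) (t % VR.S R)) :=
    vec_lo le_rfl fun i => bt_lt _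
  rw [h0] at h2
  have h4 : Nat.sub (VR.o2 R) V = vec (Nat.mul (VR.N R) (VR.S R)) fun t =>
        bt ((fun j i => K.bnot (K.bor (K.bnot (Nat.ble (Nat.succ j) i)) (A j i)))
          (t / VR.S R) (t % VR.S R)) := h1
  rw [← h4] at h2
  have h3 : Vs.L (VR.S R) (Nat.mod (Nat.sub (VR.o2 R) V) (VR.m1 R))
      (fun i => ∑ j ∈ range (VR.N R), bt (K.bnot (K.bor (K.bnot (Nat.ble (Nat.succ j) i))
        (A j i)))) 127 :=
    ⟨h2, fun i _ => (sum_bt _ _).trans (VR.N_le R), by norm_num⟩
  refine B.of_eq (L.ez (VR.h1e R) h3) fun i hi => ?_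
  have e := sum0 (VR.N R) fun j => K.bor (K.bnot (Nat.ble (Nat.succ j) i)) (A j i)
  refine e.trans ?_
  rw [allN_dec, allN_dec, decide_eq_decide]
  constructor
  · intro h5 j hj
    have h6 := h5 j (hj.trans_le (Nat.lt_succ_iff.1 hi))
    rw [K.bor_eq, K.bnot_eq, K.nble_eq, decide_eq_true (Nat.succ_le_of_lt hj)] at h6
    simpa using h6
  · intro h5 j _
    rw [K.bor_eq, K.bnot_eq, K.nble_eq]
    by_cases h7 : j < i
    · rw [h5 j h7]; simp
    · rw [decide_eq_false (by omega)]; simp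

theorem L.land (h1 : L M V f b) (h2 : L M W g c) :
    L M (Nat.land V W) (fun i => Nat.land (f i) (g i)) b := by
  refine ⟨?_, fun i hi => Nat.and_le_left.trans (h1.le i hi), h1.hb⟩
  have e : Nat.land V W = vec M f &&& vec M g := by rw [← h1.eq, ← h2.eq]; rfl
  rw [e, vec_and (fun i hi => h1.lt' i hi) (fun i hi => h2.lt' i hi)]
  rfl

theorem L.lor (h1 : L M V f b) (h2 : L M W g c) :
    L M (Nat.lor V W) (fun i => Nat.lor (f i) (g i)) 32767 := by
  have hl : ∀ i < M, f i ||| g i < 32768 := fun i hi =>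
    Nat.or_lt_two_pow (n := 15) (h1.lt i hi) (h2.lt i hi)
  refine ⟨?_, fun i hi => Nat.le_of_lt_succ (hl i hi), le_rfl⟩
  have e : Nat.lor V W = vec M f ||| vec M g := by rw [← h1.eq, ← h2.eq]; rfl
  rw [e, vec_or (fun i hi => h1.lt' i hi) (fun i hi => h2.lt' i hi)]
  rfl

/-! ### Conditions which do not depend on the lane -/

theorem B.gand {q q' : Bool} (hq : q = q') (h : B M V p) :
    B M (Bool.rec (motive := fun _ => ℕ) (nat_lit 0) V q) fun i => K.band q' (p i) := by
  subst hq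
  cases q
  · exact B.fls
  · exact h

theorem B.gor {o : ℕ} {q q' : Bool} (ho : o = vec M fun _ => 1) (hq : q = q') (h : B M V p) :
    B M (Bool.rec (motive := fun _ => ℕ) V o q) fun i => K.bor q' (p i) := by
  subst hq
  cases q
  · exact h
  · exact ho

theorem B.selc {q' r' : Bool} {p' : ℕ → Bool} (hq : q' = r') (h1 : B M V p) (h2 : B M W p') :
    B M (Bool.rec (motive := fun _ => ℕ) W V q') fun i =>
      Bool.rec (motive := fun _ => Bool) (p' i) (p i) r' := by
  subst hq
  cases q'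
  · exact h2
  · exact h1

theorem L.selc {q' r' : Bool} {d : ℕ} (hq : q' = r') (h1 : L M V f b) (h2 : L M W g c)
    (hb : b ≤ d) (hc : c ≤ d) (hd : d ≤ 32767) :
    L M (Bool.rec (motive := fun _ => ℕ) W V q') (fun i =>
      Bool.rec (motive := fun _ => ℕ) (g i) (f i) r') d := by
  subst hq
  cases q'
  · exact h2.mono hc hd
  · exact h1.mono hb hd

theorem tb1 (x y : ℕ) (hx : x < 32768) :
    K.bnot (Nat.beq (Nat.land x (tx (pws (nat_lit 0)) y)) (nat_lit 0)) = K.tbit x y := by
  have h := pws_tb 0 x y hx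
  rw [decide_eq_true (Nat.zero_le y), Bool.true_and, Nat.sub_zero] at h
  rw [K.tbit_eq]
  exact h

/-! ### The union of the rows -/

/-- the union of the numbers `f i`, `i < k` -/
noncomputable def V2.orN (k : ℕ) (f : ℕ → ℕ) : ℕ :=
  Nat.rec (motive := fun _ => ℕ) (nat_lit 0) (fun i ih => Nat.lor (f i) ih) k

theorem orN_bit (k : ℕ) (f : ℕ → ℕ) (b : ℕ) :
    (V2.orN k f).testBit b = true ↔ ∃ i < k, (f i).testBit b = true := by
  induction k with
  | zero =>
    have e : V2.orN 0 f = 0 := rfl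
    rw [e, Nat.zero_testBit]
    simp
  | succ k ih =>
    have e : V2.orN (k + 1) f = f k ||| V2.orN k f := rfl
    rw [e, Nat.testBit_or, Bool.or_eq_true, ih]
    constructor
    · rintro (h | ⟨i, hi, h⟩)
      · exact ⟨k, Nat.lt_succ_self k, h⟩
      · exact ⟨i, hi.trans (Nat.lt_succ_self k), h⟩
    · rintro ⟨i, hi, h⟩
      rcases Nat.lt_succ_iff_lt_or_eq.1 hi with h1 | rfl
      · exact Or.inr ⟨i, h1, h⟩
      · exact Or.inl h

theorem orN_le (k : ℕ) (f : ℕ → ℕ) (h : ∀ i < k, f i < 32768) : V2.orN k f < 32768 := by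
  refine Nat.lt_pow_two_of_testBit (n := 15) _ fun b hb => ?_
  by_contra h1
  rw [Bool.not_eq_false, orN_bit] at h1
  obtain ⟨i, hi, h2⟩ := h1
  rw [Nat.testBit_lt_two_pow ((h i hi).trans_le
    (Nat.pow_le_pow_right (by norm_num : 0 < 2) hb : 2 ^ 15 ≤ 2 ^ b))] at h2
  exact absurd h2 (by simp)

def fo (c V : ℕ) : ℕ := Nat.lor V (Nat.shiftRight V c)

def foN (w : ℕ) : ℕ → ℕ → ℕ
  | 0, V => V
  | t + 1, V => foN w t (fo (2 ^ t * w) V)

theorem fo_bit (c V p : ℕ) : (fo c V).testBit p = (V.testBit p || V.testBit (p + c)) := by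
  have e : fo c V = V ||| V >>> c := rfl
  rw [e, Nat.testBit_or, Nat.testBit_shiftRight, Nat.add_comm c p]

theorem foN_bit (w : ℕ) : ∀ t V p, (foN w t V).testBit p = true ↔
    ∃ j < 2 ^ t, V.testBit (p + j * w) = true
  | 0, V, p => by
    constructor
    · intro h
      exact ⟨0, by norm_num, by rw [Nat.zero_mul]; exact h⟩
    · rintro ⟨j, hj, h⟩
      have : j = 0 := by simpa using hj
      rw [this, Nat.zero_mul] at h
      exact h
  | t + 1, V, p => by
    rw [foN, foN_bit w t]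
    constructor
    · rintro ⟨j, hj, h⟩
      rw [fo_bit, Bool.or_eq_true] at h
      rcases h with h | h
      · exact ⟨j, hj.trans_le (Nat.pow_le_pow_right (by norm_num) (Nat.le_succ t)), h⟩
      · refine ⟨j + 2 ^ t, by rw [pow_succ]; omega, ?_⟩
        rw [add_mul, ← Nat.add_assoc]
        exact h
    · rintro ⟨j, hj, h⟩
      by_cases h1 : j < 2 ^ t
      · exact ⟨j, h1, by rw [fo_bit, h, Bool.true_or]⟩
      · obtain ⟨d, rfl⟩ := Nat.exists_eq_add_of_le (not_lt.1 h1)
        refine ⟨d, by rw [pow_succ] at hj; omega, ?_⟩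
        rw [fo_bit, Bool.or_eq_true]
        right
        have : p + d * w + 2 ^ t * w = p + (2 ^ t + d) * w := by ring
        rw [this]
        exact h

/-- the union of all rows -/
def orr (w m V : ℕ) : ℕ :=
  Nat.land (fo w (fo (Nat.mul (nat_lit 2) w) (fo (Nat.mul (nat_lit 4) w) (fo (Nat.mul (nat_lit 8) w)
    (fo (Nat.mul (nat_lit 16) w) (fo (Nat.mul (nat_lit 32) w)
      (fo (Nat.mul (nat_lit 64) w) V))))))) m

theorem orr_eq (w m V : ℕ) : orr w m V = foN w 7 V &&& m := by
  have e : ∀ a b : ℕ, Nat.land a b = a &&& b := fun _ _ => rfl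
  unfold orr
  rw [e]
  congr 1
  simp only [foN]
  have e1 : 2 ^ 0 * w = w := by rw [pow_zero, one_mul]
  rw [e1]
  rfl

theorem orr_vec {M k : ℕ} (hM : 0 < M) (hk : k ≤ 127) (G : ℕ → ℕ → ℕ)
    (hG : ∀ j < k, ∀ i < M, G j i < 32768) :
    orr (wM M) (mM M) (vec (k * M) fun t => G (t / M) (t % M)) =
      vec M fun i => V2.orN k fun j => G j i := by
  have hb : ∀ t < k * M, G (t / M) (t % M) < 65536 := fun t ht => by
    have := hG (t / M) (by rw [Nat.div_lt_iff_lt_mul hM]; exact ht) (t % M) (Nat.mod_lt _ hM)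
    omega
  have hl : ∀ i < M, V2.orN k (fun j => G j i) < 65536 := fun i hi =>
    (orN_le _ _ fun j hj => hG j hj i hi).trans (by norm_num)
  have hw : wM M = 16 * M := rfl
  rw [orr_eq, mM, hw]
  have e7 : Nat.sub (Nat.pow (nat_lit 2) (16 * M)) (nat_lit 1) = 2 ^ (16 * M) - 1 := rfl
  rw [e7]
  generalize hV : (vec (k * M) fun t => G (t / M) (t % M)) = V
  have hbit : ∀ p j, p < 16 * M → V.testBit (p + j * (16 * M)) =
      (decide (j < k) && (G j (p / 16)).testBit (p % 16)) := by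
    intro p j hp
    have hp2 : p / 16 < M := by omega
    have e1 : p + j * (16 * M) = p + 16 * (j * M) := by ring
    have e2 : (p + 16 * (j * M)) / 16 = p / 16 + j * M := by
      rw [Nat.add_mul_div_left _ _ (by norm_num)]
    have e3 : (p + 16 * (j * M)) % 16 = p % 16 := by
      rw [Nat.add_mul_mod_self_left]
    rw [← hV, vec_bit hb, e1, e2, e3]
    have e4 : (p / 16 + j * M) / M = j := by
      rw [Nat.add_mul_div_right _ _ hM, Nat.div_eq_of_lt hp2, Nat.zero_add]
    have e5 : (p / 16 + j * M) % M = p / 16 := by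
      rw [Nat.add_mul_mod_self_right, Nat.mod_eq_of_lt hp2]
    rw [e4, e5]
    have e6 : decide (p / 16 + j * M < k * M) = decide (j < k) := by
      rw [decide_eq_decide]
      constructor
      · intro h1
        by_contra h2
        have h3 : k * M ≤ j * M := Nat.mul_le_mul_right _ (not_lt.1 h2)
        omega
      · intro h1
        have h3 : (j + 1) * M ≤ k * M := Nat.mul_le_mul_right _ h1
        have h4 : (j + 1) * M = j * M + M := by ring
        omega
    rw [e6]
  apply Nat.eq_of_testBit_eq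
  intro p
  rw [Nat.testBit_and, Nat.testBit_two_pow_sub_one, vec_bit hl]
  by_cases hp : p < 16 * M
  · have hp2 : p / 16 < M := by omega
    rw [decide_eq_true hp, decide_eq_true hp2, Bool.and_true, Bool.true_and, Bool.eq_iff_iff,
      foN_bit, orN_bit]
    constructor
    · rintro ⟨j, _, h1⟩
      rw [hbit p j hp, Bool.and_eq_true, decide_eq_true_eq] at h1
      exact ⟨j, h1.1, h1.2⟩
    · rintro ⟨j, hj, h1⟩
      refine ⟨j, ?_, ?_⟩
      · have : j < 127 := hj.trans_le hk
        calc j < 127 := this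
          _ ≤ 2 ^ 7 := by norm_num
      · rw [hbit p j hp, decide_eq_true hj, h1]; rfl
  · have hp2 : ¬ p / 16 < M := by omega
    rw [decide_eq_false hp, decide_eq_false hp2, Bool.and_false, Bool.false_and]

theorem L2.ji (h : L2 R V F b) {j i : ℕ} (hj : j < VR.N R) (hi : i < VR.S R) : F j i ≤ b := by
  have ht : j * VR.S R + i < Nat.mul (VR.N R) (VR.S R) := by
    have h5 : (j + 1) * VR.S R ≤ VR.N R * VR.S R := Nat.mul_le_mul_right _ hj
    have h6 : (j + 1) * VR.S R = j * VR.S R + VR.S R := by ring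
    have h7 : Nat.mul (VR.N R) (VR.S R) = VR.N R * VR.S R := rfl
    omega
  have h8 := h.le _ ht
  have e1 : (j * VR.S R + i) / VR.S R = j := by
    rw [Nat.add_comm, Nat.add_mul_div_right _ _ (VR.S_pos R), Nat.div_eq_of_lt hi, Nat.zero_add]
  have e2 : (j * VR.S R + i) % VR.S R = i := by
    rw [Nat.add_comm, Nat.add_mul_mod_self_right, Nat.mod_eq_of_lt hi]
  simpa only [e1, e2] using h8

theorem rm_eq2 (h : L2 R V F b) (hk : k ≤ VR.N R) :
    Nat.land V (mM (Nat.mul k (VR.S R))) = vec (k * VR.S R) fun t =>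
      F (t / VR.S R) (t % VR.S R) := by
  have h1 : V = vec (VR.N R * VR.S R) fun t =>
      (fun j i => if j < VR.N R ∧ i < VR.S R then F j i else 0) (t / VR.S R) (t % VR.S R) := by
    rw [h.eq]
    exact vec_congr fun t ht => by
      beta_reduce
      rw [if_pos (And.intro (div_lt ht) (mod_lt R t))]
  have hF : ∀ j i, (fun j i => if j < VR.N R ∧ i < VR.S R then F j i else 0) j i < 65536 := by
    intro j i
    beta_reduce
    split_ifs with h3
    · have := L2.ji h h3.1 h3.2
      have := h.hb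
      omega
    · norm_num
  have e := rm_eq hk _ hF
  conv_lhs => rw [h1]
  have e9 : Nat.mul (VR.N R) (VR.S R) = VR.N R * VR.S R := rfl
  rw [← e9, e]
  refine vec_congr fun t ht => ?_
  beta_reduce
  have h5 : t / VR.S R < k := by
    rw [Nat.div_lt_iff_lt_mul (VR.S_pos R)]; exact ht
  rw [if_pos (And.intro (h5.trans_le hk) (mod_lt R t))]

theorem L.orr (h : L2 R V F b) (hk : k ≤ VR.N R) :
    L (VR.S R) (orr (wM (VR.S R)) (VR.m1 R) (Nat.land V (mM (Nat.mul k (VR.S R)))))
      (fun i => V2.orN k fun j => F j i) 32767 := by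
  have hF : ∀ j < k, ∀ i < VR.S R, F j i < 32768 := fun j hj i hi => by
    have := L2.ji h (hj.trans_le hk) hi
    have := h.hb
    omega
  refine ⟨?_, fun i hi => Nat.le_of_lt_succ (orN_le _ _ fun j hj => hF j hj i hi), le_rfl⟩
  rw [rm_eq2 h hk]
  exact orr_vec (VR.S_pos R) (hk.trans (VR.N_le R)) F hF

end Vs

end Pool.FC7
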