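import Pool.Agent.FC7.VsE

/-! # Vector form of the static checks: lists and masks -/

open Finset

set_option linter.unusedSectionVars false

namespace Pool.FC7

open Pool.FC6

namespace Vs

open Vc (vec vec_congr vec_add vec_mul vec_zero vec_le vec_sub vec_app vec_split vec_lt vec_bit
  vec_and vec_or vec_xor vec_inj pow16)

variable {R : VR} {M V W C k : ℕ} {f g : ℕ → ℕ} {b c : ℕ} {p q : ℕ → Bool}

theorem allN_congr (h : ∀ i < k, p i = q i) : K.allN k p = K.allN k q := by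
  rw [allN_dec, allN_dec, decide_eq_decide]
  exact ⟨fun h1 i hi => h i hi ▸ h1 i hi, fun h1 i hi => (h i hi).symm ▸ h1 i hi⟩

theorem anyN_dec (k : ℕ) (p : ℕ → Bool) :
    K.bnot (K.allN k fun t => K.bnot (p t)) = decide (∃ t < k, p t = true) := by
  rw [K.bnot_eq, allN_dec]
  by_cases h : ∃ t < k, p t = true
  · rw [decide_eq_true h, decide_eq_false]
    · rfl
    · intro h1
      obtain ⟨t, ht, h2⟩ := h
      have := h1 t ht
      rw [h2] at this
      exact absurd this (by decide)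
  · rw [decide_eq_false h, decide_eq_true]
    · rfl
    · intro t ht
      cases h2 : p t
      · rfl
      · exact absurd ⟨t, ht, h2⟩ h

/-! ### The list `rs` -/

theorem lapp_all {α : Type} (l r : List α) (p : α → Bool) :
    K.lall (K.lapp l r) p = K.band (K.lall l p) (K.lall r p) := by
  rw [K.lall_eq, K.lall_eq, K.lall_eq, K.lapp_eq, List.all_append, K.band_eq]

theorem lall_fm {α β : Type} (f : α → List β) (p : β → Bool) (l : List α) :
    K.lall (K.lfmap f l) p = K.lall l fun a => K.lall (f a) p := by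
  rw [K.lall_eq, K.lall_eq, K.lfmap_eq, List.all_flatMap]
  simp only [K.lall_eq]

theorem lall_ad (p : ℕ → Bool) (q : ℕ × ℕ) :
    K.lall (K.ad q) p = K.band (p q.1) (p q.2) := by
  obtain ⟨a, b⟩ := q
  rw [K.lall_eq]
  have h : K.ad (a, b) = if a = b then [a] else [a, b] := by
    have : K.ad (a, b) = Bool.rec (motive := fun _ => List ℕ) [a, b] [a] (Nat.beq a b) := rfl
    rw [this, K.nbeq_eq]
    split_ifs with h <;> simp [h]
  rw [h, K.band_eq]
  split_ifs with h1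
  · rw [h1]; simp
  · simp

theorem lall_rs (k T U : ℕ) (p : ℕ → Bool) :
    K.lall (K.lfmap K.ad (lst2 k T U)) p = K.allN k fun t => K.band (p (tx T t)) (p (tx U t)) := by
  rw [lall_fm, lall_lst2]
  exact allN_congr fun t _ => lall_ad p _

theorem lmem_all (a : ℕ) (l : List ℕ) :
    K.lmem a l = K.bnot (K.lall l fun b => K.bnot (Nat.beq a b)) := by
  rw [K.lmem_eq, K.lall_eq, K.bnot_eq]
  induction l with
  | nil => rfl
  | cons b l ih =>
    rw [List.all_cons, K.nbeq_eq]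
    by_cases h : a = b
    · simp [h]
    · simp only [List.mem_cons, h, false_or, decide_false, Bool.not_false, Bool.true_and]
      exact ih

theorem lmem_rs (k T U a : ℕ) :
    K.lmem a (K.lfmap K.ad (lst2 k T U)) =
      K.bnot (K.allN k fun t => K.bnot (K.bor (Nat.beq a (tx T t)) (Nat.beq a (tx U t)))) := by
  rw [lmem_all, lall_rs]
  refine congrArg K.bnot (allN_congr fun t _ => ?_)
  cases Nat.beq a (tx T t) <;> cases Nat.beq a (tx U t) <;> rfl

theorem leq_self (l : List ℕ) : K.leq l l = true := by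
  rw [K.leq_eq, decide_eq_true rfl]

theorem nodup_lrange (n : ℕ) : K.nodup (K.lrange n) = true := by
  rw [K.nodup_eq, K.lrange_eq, decide_eq_true (List.nodup_range)]

theorem lall_lrange (n : ℕ) (p : ℕ → Bool) : K.lall (K.lrange n) p = K.allN n p := by
  rw [K.lall_eq, K.lrange_eq, allN_dec]
  by_cases h : ∀ i < n, p i = true
  · rw [decide_eq_true h, List.all_eq_true]
    exact fun i hi => h i (List.mem_range.1 hi)
  · rw [decide_eq_false h, ← Bool.not_eq_true, List.all_eq_true]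
    exact fun h2 => h fun i hi => h2 i (List.mem_range.2 hi)

theorem lany_lrange (n : ℕ) (p : ℕ → Bool) :
    K.lany (K.lrange n) p = K.bnot (K.allN n fun i => K.bnot (p i)) := by
  rw [← lall_lrange, K.lany_eq, K.lall_eq, K.bnot_eq]
  generalize K.lrange n = l
  induction l with
  | nil => rfl
  | cons a l ih =>
    rw [List.any_cons, List.all_cons, ih]
    cases p a <;> simp

/-- membership in the list of the first components -/
theorem lmem_fst (k T U a : ℕ) : K.lmem a (K.lmap Prod.fst (lst2 k T U)) =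
    K.bnot (K.allN k fun t => K.bnot (Nat.beq a (tx T t))) := by
  rw [lmem_all]
  congr 1
  unfold lst2
  rw [K.lall_eq, K.lmap_eq, K.lmap_eq, K.lrange_eq, List.map_map, allN_dec]
  by_cases h : ∀ t < k, K.bnot (Nat.beq a (tx T t)) = true
  · rw [decide_eq_true h, List.all_eq_true]
    intro x hx
    obtain ⟨t, ht, rfl⟩ := List.mem_map.1 hx
    exact h t (List.mem_range.1 ht)
  · rw [decide_eq_false h, ← Bool.not_eq_true, List.all_eq_true]
    exact fun h2 => h fun t ht => h2 _ (List.mem_map.2 ⟨t, List.mem_range.2 ht, rfl⟩)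

/-! ### Unions -/

theorem pw_small {c : ℕ} (hc : c ≤ 14) : tx (pws (nat_lit 0)) c = 2 ^ c := by
  have h := tx_pws 0 c
  rw [if_pos ⟨Nat.zero_le _, by omega⟩, Nat.sub_zero] at h
  exact h

theorem orN_succ (k : ℕ) (f : ℕ → ℕ) : V2.orN (k + 1) f = f k ||| V2.orN k f := rfl

theorem fold_orN (n : ℕ) (ce l : ℕ → ℕ) (hc : ∀ i, ce i ≤ 14) (a : ℕ) :
    K.lfoldl (fun (m : ℕ) => (fun (i : ℕ) => (Bool.rec (motive := fun _ => ℕ) m (Nat.lor m
      (Nat.pow (nat_lit 2) (ce i))) (Nat.beq (l i) a)))) (nat_lit 0) (K.lrange n) =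
      V2.orN n fun i => Bool.rec (motive := fun _ => ℕ) (nat_lit 0) (tx (pws (nat_lit 0)) (ce i))
        (Nat.beq (l i) a) := by
  rw [K.lfoldl_eq, K.lrange_eq]
  induction n with
  | zero => rfl
  | succ n ih =>
    rw [List.range_succ, List.foldl_append, orN_succ, ← ih, List.foldl_cons, List.foldl_nil]
    generalize List.foldl (fun m i => Bool.rec (motive := fun _ => ℕ) m (Nat.lor m
      (Nat.pow (nat_lit 2) (ce i))) (Nat.beq (l i) a)) (nat_lit 0) (List.range n) = m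
    rw [pw_small (hc n)]
    cases Nat.beq (l n) a
    · exact (Nat.zero_or m).symm
    · exact Nat.lor_comm m (2 ^ ce n)

/-! ### Tables from vectors -/

/-- the first `N` lanes -/
def cut (R : VR) (V : ℕ) : ℕ := Nat.land V (mM (VR.N R))

theorem cut_eq (h : L (VR.S R) V f b) : cut R V = vec (VR.N R) f := by
  have h1 : V = vec (VR.S R) fun i => if i < VR.S R then f i else 0 := by
    conv_lhs => rw [h.eq]
    exact vec_congr fun i hi => by rw [if_pos hi]
  unfold cut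
  rw [h1, vec_lo (k := VR.N R) (M := VR.S R) (Nat.le_succ _) fun i => by
    split_ifs with hi
    · exact h.lt' i hi
    · norm_num]
  refine vec_congr fun i hi => ?_
  have h5 : i < VR.S R := hi.trans (Nat.lt_succ_self _)
  rw [if_pos h5]

theorem cut_tx (h : L (VR.S R) V f b) {i : ℕ} (hi : i < VR.N R) : tx (cut R V) i = f i := by
  rw [cut_eq h, tx_vec fun i hi => h.lt' i (hi.trans (Nat.lt_succ_self _)), if_pos hi]

theorem cut_hi (h : L (VR.S R) V f b) {i : ℕ} (hi : VR.N R ≤ i) : tx (cut R V) i = 0 := by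
  rw [cut_eq h, tx_vec fun i hi => h.lt' i (hi.trans (Nat.lt_succ_self _)),
    if_neg (not_lt.2 hi)]

theorem cut_lt (h : L (VR.S R) V f b) : cut R V < 65536 ^ VR.N R := by
  rw [cut_eq h]
  exact vec_lt fun i hi => h.lt' i (hi.trans (Nat.lt_succ_self _))

theorem cut_le (h : L (VR.S R) V f b) (i : ℕ) : tx (cut R V) i ≤ b := by
  by_cases hi : i < VR.N R
  · rw [cut_tx h hi]; exact h.le i (hi.trans (Nat.lt_succ_self _))
  · rw [cut_hi h (not_lt.1 hi)]; exact Nat.zero_le _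

theorem cut_is (h : L (VR.S R) V f b) : L (VR.S R) (cut R V) (tx (cut R V)) b :=
  ⟨vec_tx ((cut_lt h).trans_le (Nat.pow_le_pow_right (by norm_num) (Nat.le_succ _))),
    fun i _ => cut_le h i, h.hb⟩

/-! ### Sets of labels as masks -/

/-- two masks -/
noncomputable def mk2 (A B b : ℕ) : Bool :=
  (K.bor (K.bnot (Nat.beq (Nat.land A (tx (pws (nat_lit 0)) b)) (nat_lit 0)))
    (K.bnot (Nat.beq (Nat.land B (tx (pws (nat_lit 15)) b)) (nat_lit 0))))

/-- the pairs `(h1 q, h2 q)` with first component `a`: masks -/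
noncomputable def or1 (s k : ℕ) (h1 h2 : ℕ → ℕ) (a : ℕ) : ℕ :=
  V2.orN k fun q => Bool.rec (motive := fun _ => ℕ) (nat_lit 0) (tx (pws s) (h2 q)) (Nat.beq (h1 q) a)

theorem or1_lt (s k : ℕ) (h1 h2 : ℕ → ℕ) (a : ℕ) : or1 s k h1 h2 a < 32768 := by
  refine orN_le _ _ fun i _ => ?_
  have := pws_le s (h2 i)
  cases Nat.beq (h1 i) a
  · show 0 < 32768; norm_num
  · show tx (pws s) (h2 i) < 32768; omega

theorem two_pow_bit (a b : ℕ) : (2 ^ a).testBit b = decide (a = b) := by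
  rw [Nat.testBit_two_pow]

theorem or1_bit (s k : ℕ) (h1 h2 : ℕ → ℕ) (a b : ℕ) : (decide (s ≤ b) &&
    (or1 s k h1 h2 a).testBit (b - s)) = true ↔
      ∃ q < k, h1 q = a ∧ h2 q = b ∧ s ≤ b ∧ b < s + 15 := by
  rw [Bool.and_eq_true, decide_eq_true_eq, or1, orN_bit]
  constructor
  · rintro ⟨h0, q, hq, h⟩
    refine ⟨q, hq, ?_⟩
    rw [K.nbeq_eq] at h
    by_cases h3 : h1 q = a
    · rw [decide_eq_true h3] at h
      have h4 : (tx (pws s) (h2 q)).testBit (b - s) = true := h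
      rw [tx_pws] at h4
      split_ifs at h4 with h5
      · rw [two_pow_bit, decide_eq_true_eq] at h4
        exact ⟨h3, by omega, h0, by omega⟩
      · rw [Nat.zero_testBit] at h4; exact absurd h4 (by simp)
    · rw [decide_eq_false h3] at h
      have h4 : (0 : ℕ).testBit (b - s) = true := h
      rw [Nat.zero_testBit] at h4; exact absurd h4 (by simp)
  · rintro ⟨q, hq, h3, h4, h5, h6⟩
    refine ⟨h5, q, hq, ?_⟩
    rw [K.nbeq_eq, decide_eq_true h3]
    show (tx (pws s) (h2 q)).testBit (b - s) = true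
    rw [tx_pws, h4, if_pos ⟨h5, h6⟩, two_pow_bit, decide_eq_true rfl]

theorem mk2_iff {A B b : ℕ} (hA : A < 32768) (hB : B < 32768) :
    mk2 A B b = true ↔ ((decide (0 ≤ b) && A.testBit (b - 0)) = true ∨
      (decide (15 ≤ b) && B.testBit (b - 15)) = true) := by
  unfold mk2
  rw [K.bor_eq, Bool.or_eq_true]
  exact or_congr (by rw [← pws_tb 0 A b hA]) (by rw [← pws_tb 15 B b hB])

/-- pairs of labels -/
theorem mk2_pairs (k : ℕ) (h1 h2 : ℕ → ℕ) (hh : ∀ q, h2 q ≤ 29) (a b : ℕ) :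
    mk2 (or1 (nat_lit 0) k h1 h2 a) (or1 (nat_lit 15) k h1 h2 a) b = true ↔
      ∃ q < k, h1 q = a ∧ h2 q = b := by
  rw [mk2_iff (or1_lt _ _ _ _ _) (or1_lt _ _ _ _ _)]
  have e1 := or1_bit (nat_lit 0) k h1 h2 a b
  have e2 := or1_bit (nat_lit 15) k h1 h2 a b
  have e1' : (decide (0 ≤ b) && (or1 (nat_lit 0) k h1 h2 a).testBit (b - 0)) = true ↔
      ∃ q < k, h1 q = a ∧ h2 q = b ∧ 0 ≤ b ∧ b < 0 + 15 := e1
  have e2' : (decide (15 ≤ b) && (or1 (nat_lit 15) k h1 h2 a).testBit (b - 15)) = true ↔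
      ∃ q < k, h1 q = a ∧ h2 q = b ∧ 15 ≤ b ∧ b < 15 + 15 := e2
  rw [e1', e2']
  constructor
  · rintro (⟨q, hq, h3, h4, -⟩ | ⟨q, hq, h3, h4, -⟩)
    · exact ⟨q, hq, h3, h4⟩
    · exact ⟨q, hq, h3, h4⟩
  · rintro ⟨q, hq, h3, h4⟩
    have := hh q
    by_cases h5 : b < 15
    · exact Or.inl ⟨q, hq, h3, h4, Nat.zero_le _, by omega⟩
    · exact Or.inr ⟨q, hq, h3, h4, by omega, by omega⟩

/-- the masks of the labels different from `a` in both orders -/
noncomputable def or2 (s k : ℕ) (h1 h2 : ℕ → ℕ) (a : ℕ) : ℕ :=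
  V2.orN k fun q => Nat.lor
    (Bool.rec (motive := fun _ => ℕ) (nat_lit 0) (tx (pws s) (h2 q)) (Nat.beq (h1 q) a))
    (Bool.rec (motive := fun _ => ℕ) (nat_lit 0) (tx (pws s) (h1 q)) (Nat.beq (h2 q) a))

theorem or2_eq (s k : ℕ) (h1 h2 : ℕ → ℕ) (a : ℕ) :
    or2 s k h1 h2 a = or1 s k h1 h2 a ||| or1 s k h2 h1 a := by
  induction k with
  | zero => exact (Nat.or_self 0).symm
  | succ k ih =>
    unfold or2 or1 at *
    rw [orN_succ, orN_succ, orN_succ, ih]
    apply Nat.eq_of_testBit_eq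
    intro j
    have e : ∀ a b : ℕ, Nat.lor a b = a ||| b := fun _ _ => rfl
    simp only [e, Nat.testBit_or]
    cases (Bool.rec (motive := fun _ => ℕ) (nat_lit 0) (tx (pws s) (h2 k))
        (Nat.beq (h1 k) a) : ℕ).testBit j <;>
      cases (Bool.rec (motive := fun _ => ℕ) (nat_lit 0) (tx (pws s) (h1 k))
        (Nat.beq (h2 k) a) : ℕ).testBit j <;> simp

theorem or2_lt (s k : ℕ) (h1 h2 : ℕ → ℕ) (a : ℕ) : or2 s k h1 h2 a < 32768 := by
  rw [or2_eq]
  exact Nat.or_lt_two_pow (n := 15) (or1_lt _ _ _ _ _) (or1_lt _ _ _ _ _)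

theorem mk2_pairs2 (k : ℕ) (h1 h2 : ℕ → ℕ) (hh : ∀ q, h2 q ≤ 29) (hh' : ∀ q, h1 q ≤ 29)
    (a b : ℕ) : mk2 (or2 (nat_lit 0) k h1 h2 a) (or2 (nat_lit 15) k h1 h2 a) b = true ↔
      ∃ q < k, (h1 q = a ∧ h2 q = b) ∨ (h1 q = b ∧ h2 q = a) := by
  have key : mk2 (or2 (nat_lit 0) k h1 h2 a) (or2 (nat_lit 15) k h1 h2 a) b = true ↔
      mk2 (or1 (nat_lit 0) k h1 h2 a) (or1 (nat_lit 15) k h1 h2 a) b = true ∨
        mk2 (or1 (nat_lit 0) k h2 h1 a) (or1 (nat_lit 15) k h2 h1 a) b = true := by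
    rw [mk2_iff (or2_lt _ _ _ _ _) (or2_lt _ _ _ _ _), mk2_iff (or1_lt _ _ _ _ _) (or1_lt _ _ _ _ _),
      mk2_iff (or1_lt _ _ _ _ _) (or1_lt _ _ _ _ _), or2_eq, or2_eq, Nat.testBit_or,
      Nat.testBit_or, Bool.and_or_distrib_left, Bool.and_or_distrib_left, Bool.or_eq_true,
      Bool.or_eq_true]
    tauto
  rw [key, mk2_pairs k h1 h2 hh, mk2_pairs k h2 h1 hh']
  constructor
  · rintro (⟨q, hq, h3, h4⟩ | ⟨q, hq, h3, h4⟩)
    · exact ⟨q, hq, Or.inl ⟨h3, h4⟩⟩
    · exact ⟨q, hq, Or.inr ⟨h4, h3⟩⟩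
  · rintro ⟨q, hq, ⟨h3, h4⟩ | ⟨h3, h4⟩⟩
    · exact Or.inl ⟨q, hq, h3, h4⟩
    · exact Or.inr ⟨q, hq, h4, h3⟩

end Vs

end Pool.FC7
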