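import Pool.Agent.FC7.VsF

/-! # Vector form of the static checks: tables of masks -/

set_option linter.unusedSectionVars false

namespace Pool.FC7

open Pool.FC6

namespace Vs

/-- the masks of the labels different from the label `a` -/
noncomputable def V2.dq1 (R : VR) (a : ℕ) : ℕ :=
  (V2.orN (VR.kdq R) (fun (q : ℕ) => (Nat.lor
    (Bool.rec (motive := fun _ => ℕ) (nat_lit 0)
      (tx (VR.pw1T R) (tx (VR.lT R) (tx (VR.nf1T R) (tx (VR.dq2T R) q))))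
      (Nat.beq (tx (VR.lT R) (tx (VR.nf1T R) (tx (VR.dq1T R) q))) a))
    (Bool.rec (motive := fun _ => ℕ) (nat_lit 0)
      (tx (VR.pw1T R) (tx (VR.lT R) (tx (VR.nf1T R) (tx (VR.dq1T R) q))))
      (Nat.beq (tx (VR.lT R) (tx (VR.nf1T R) (tx (VR.dq2T R) q))) a)))))

noncomputable def V2.dq2 (R : VR) (a : ℕ) : ℕ :=
  (V2.orN (VR.kdq R) (fun (q : ℕ) => (Nat.lor
    (Bool.rec (motive := fun _ => ℕ) (nat_lit 0)
      (tx (VR.pw2T R) (tx (VR.lT R) (tx (VR.nf1T R) (tx (VR.dq2T R) q))))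
      (Nat.beq (tx (VR.lT R) (tx (VR.nf1T R) (tx (VR.dq1T R) q))) a))
    (Bool.rec (motive := fun _ => ℕ) (nat_lit 0)
      (tx (VR.pw2T R) (tx (VR.lT R) (tx (VR.nf1T R) (tx (VR.dq1T R) q))))
      (Nat.beq (tx (VR.lT R) (tx (VR.nf1T R) (tx (VR.dq2T R) q))) a)))))

/-- the pairs of labels in `nq`, both orders -/
noncomputable def V2.nq1 (R : VR) (a : ℕ) : ℕ :=
  (V2.orN (VR.knq R) (fun (q : ℕ) => (Nat.lor
    (Bool.rec (motive := fun _ => ℕ) (nat_lit 0)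
      (tx (VR.pw1T R) (tx (VR.lT R) (tx (VR.nf1T R) (tx (VR.nq2T R) q))))
      (Nat.beq (tx (VR.lT R) (tx (VR.nf1T R) (tx (VR.nq1T R) q))) a))
    (Bool.rec (motive := fun _ => ℕ) (nat_lit 0)
      (tx (VR.pw1T R) (tx (VR.lT R) (tx (VR.nf1T R) (tx (VR.nq1T R) q))))
      (Nat.beq (tx (VR.lT R) (tx (VR.nf1T R) (tx (VR.nq2T R) q))) a)))))

noncomputable def V2.nq2 (R : VR) (a : ℕ) : ℕ :=
  (V2.orN (VR.knq R) (fun (q : ℕ) => (Nat.lor
    (Bool.rec (motive := fun _ => ℕ) (nat_lit 0)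
      (tx (VR.pw2T R) (tx (VR.lT R) (tx (VR.nf1T R) (tx (VR.nq2T R) q))))
      (Nat.beq (tx (VR.lT R) (tx (VR.nf1T R) (tx (VR.nq1T R) q))) a))
    (Bool.rec (motive := fun _ => ℕ) (nat_lit 0)
      (tx (VR.pw2T R) (tx (VR.lT R) (tx (VR.nf1T R) (tx (VR.nq1T R) q))))
      (Nat.beq (tx (VR.lT R) (tx (VR.nf1T R) (tx (VR.nq2T R) q))) a)))))

/-- the pairs of labels in `oq` -/
noncomputable def V2.oq1 (R : VR) (a : ℕ) : ℕ :=
  (V2.orN (VR.koq R) (fun (q : ℕ) =>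
    (Bool.rec (motive := fun _ => ℕ) (nat_lit 0)
      (tx (VR.pw1T R) (tx (VR.lT R) (tx (VR.nf1T R) (tx (VR.oq2T R) q))))
      (Nat.beq (tx (VR.lT R) (tx (VR.nf1T R) (tx (VR.oq1T R) q))) a))))

noncomputable def V2.oq2 (R : VR) (a : ℕ) : ℕ :=
  (V2.orN (VR.koq R) (fun (q : ℕ) =>
    (Bool.rec (motive := fun _ => ℕ) (nat_lit 0)
      (tx (VR.pw2T R) (tx (VR.lT R) (tx (VR.nf1T R) (tx (VR.oq2T R) q))))
      (Nat.beq (tx (VR.lT R) (tx (VR.nf1T R) (tx (VR.oq1T R) q))) a))))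

/-- the new classes at the vertex `a` -/
noncomputable def V2.spm (R : VR) (a : ℕ) : ℕ :=
  (V2.orN (VR.n R) (fun (i : ℕ) =>
    (Bool.rec (motive := fun _ => ℕ) (nat_lit 0) (tx (VR.pw1T R) (tx (VR.cepT R) i))
      (Nat.beq (tx (VR.lpT R) i) a))))

end Vs

end Pool.FC7
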