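import Pool.Agent.FC7.VtS

/-! # Vector form of the static checks: sets of pairs -/

open Finset

set_option linter.unusedSectionVars false

namespace Pool.FC7

open Pool.FC6

namespace Vs

namespace VR

variable (R : VR)

noncomputable def DQ1T : ℕ := cut R (n_dq1 R)

theorem DQ1_is : L (S R) (DQ1T R) (tx (DQ1T R)) 32767 := cut_is (n_dq1_is R)

theorem DQ1_le (i : ℕ) : tx (DQ1T R) i ≤ 32767 := cut_le (n_dq1_is R) i

theorem DQ1_lt : DQ1T R < 65536 ^ N R := cut_lt (n_dq1_is R)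

noncomputable def DQ2T : ℕ := cut R (n_dq2 R)

theorem DQ2_is : L (S R) (DQ2T R) (tx (DQ2T R)) 32767 := cut_is (n_dq2_is R)

theorem DQ2_le (i : ℕ) : tx (DQ2T R) i ≤ 32767 := cut_le (n_dq2_is R) i

theorem DQ2_lt : DQ2T R < 65536 ^ N R := cut_lt (n_dq2_is R)

noncomputable def NQ1T : ℕ := cut R (n_nq1 R)

theorem NQ1_is : L (S R) (NQ1T R) (tx (NQ1T R)) 32767 := cut_is (n_nq1_is R)

theorem NQ1_le (i : ℕ) : tx (NQ1T R) i ≤ 32767 := cut_le (n_nq1_is R) i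

theorem NQ1_lt : NQ1T R < 65536 ^ N R := cut_lt (n_nq1_is R)

noncomputable def NQ2T : ℕ := cut R (n_nq2 R)

theorem NQ2_is : L (S R) (NQ2T R) (tx (NQ2T R)) 32767 := cut_is (n_nq2_is R)

theorem NQ2_le (i : ℕ) : tx (NQ2T R) i ≤ 32767 := cut_le (n_nq2_is R) i

theorem NQ2_lt : NQ2T R < 65536 ^ N R := cut_lt (n_nq2_is R)

noncomputable def OQ1T : ℕ := cut R (n_oq1 R)

theorem OQ1_is : L (S R) (OQ1T R) (tx (OQ1T R)) 32767 := cut_is (n_oq1_is R)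

theorem OQ1_le (i : ℕ) : tx (OQ1T R) i ≤ 32767 := cut_le (n_oq1_is R) i

theorem OQ1_lt : OQ1T R < 65536 ^ N R := cut_lt (n_oq1_is R)

noncomputable def OQ2T : ℕ := cut R (n_oq2 R)

theorem OQ2_is : L (S R) (OQ2T R) (tx (OQ2T R)) 32767 := cut_is (n_oq2_is R)

theorem OQ2_le (i : ℕ) : tx (OQ2T R) i ≤ 32767 := cut_le (n_oq2_is R) i

theorem OQ2_lt : OQ2T R < 65536 ^ N R := cut_lt (n_oq2_is R)

noncomputable def SPMT : ℕ := cut R (n_spm R)

theorem SPM_is : L (S R) (SPMT R) (tx (SPMT R)) 32767 := cut_is (n_spm_is R)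

theorem SPM_le (i : ℕ) : tx (SPMT R) i ≤ 32767 := cut_le (n_spm_is R) i

theorem SPM_lt : SPMT R < 65536 ^ N R := cut_lt (n_spm_is R)

end VR

noncomputable def V2.mk (R : VR) (A : ℕ) (B : ℕ) (b : ℕ) : Bool :=
  (K.bor (K.bnot (Nat.beq (Nat.land A (tx (VR.pw1T R) b)) (nat_lit 0)))
    (K.bnot (Nat.beq (Nat.land B (tx (VR.pw2T R) b)) (nat_lit 0))))

noncomputable def V2.dis (R : VR) (a : ℕ) (b : ℕ) : Bool :=
  (K.band (K.bnot (Nat.beq a b)) (K.bor (K.bor (K.bor (tf (VR.cxT R) a) (tf (VR.cxT R) b))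
    (K.bnot (K.beqB (Nat.ble (Nat.succ a) (Nat.add (VR.x R) (VR.k R)))
      (Nat.ble (Nat.succ b) (Nat.add (VR.x R) (VR.k R))))))
    (V2.mk R (tx (VR.DQ1T R) a) (tx (VR.DQ2T R) a) b)))

noncomputable def V2.off (R : VR) (a : ℕ) (b : ℕ) : Bool :=
  (V2.mk R (tx (VR.OQ1T R) a) (tx (VR.OQ2T R) a) b)

noncomputable def V2.nqp (R : VR) (a : ℕ) (b : ℕ) : Bool :=
  (V2.mk R (tx (VR.NQ1T R) a) (tx (VR.NQ2T R) a) b)

noncomputable def V2.ne (R : VR) (a : ℕ) (b : ℕ) : Bool :=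
  (K.bor (K.bnot (Nat.beq (Nat.land (tx (VR.nmT R) a) (tx (VR.pw1T R) b)) (nat_lit 0)))
    (K.bnot (Nat.beq (Nat.land (tx (VR.nmkT R) (Nat.add a (nat_lit 1))) (tx (VR.pwhT R) b))
      (nat_lit 0))))

noncomputable def V2.na (R : VR) (a : ℕ) (b : ℕ) : Bool :=
  (K.bor (K.bnot (Nat.beq (Nat.land (tx (VR.naT R) a) (tx (VR.pw1T R) b)) (nat_lit 0)))
    (K.bnot (Nat.beq (Nat.land (tx (VR.nakT R) (Nat.add a (nat_lit 1))) (tx (VR.pwhT R) b))
      (nat_lit 0))))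

variable {R : VR}

theorem tabs_eq (V : ℕ) {f : ℕ → ℕ} (h : L (VR.S R) V f 32767) (hf : ∀ i, VR.N R ≤ i → f i = 0)
    (a : ℕ) : tx (cut R V) a = f a := by
  by_cases ha : a < VR.N R
  · exact cut_tx h ha
  · rw [cut_hi h (not_lt.1 ha), hf a (not_lt.1 ha)]

theorem or1_hi {s k : ℕ} {h1 h2 : ℕ → ℕ} (hh : ∀ q, h1 q ≤ 29) {a : ℕ} (ha : 30 ≤ a) :
    or1 s k h1 h2 a = 0 := by
  apply Nat.eq_of_testBit_eq
  intro j
  rw [Nat.zero_testBit, ← Bool.not_eq_true, or1, orN_bit]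
  rintro ⟨q, _, h⟩
  rw [K.nbeq_eq, decide_eq_false (by have := hh q; omega)] at h
  have h4 : (0 : ℕ).testBit j = true := h
  rw [Nat.zero_testBit] at h4; exact absurd h4 (by simp)

theorem or2_hi {s k : ℕ} {h1 h2 : ℕ → ℕ} (hh : ∀ q, h1 q ≤ 29) (hh' : ∀ q, h2 q ≤ 29) {a : ℕ}
    (ha : 30 ≤ a) : or2 s k h1 h2 a = 0 := by
  rw [or2_eq, or1_hi hh ha, or1_hi hh' ha, Nat.or_self]

/-- the label of the head of the spoke `j` -/
noncomputable def hl (R : VR) (j : ℕ) : ℕ := tx (VR.lT R) (tx (VR.nf1T R) j)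

theorem hl_le (j : ℕ) : hl R j ≤ 29 := VR.l_le R _

theorem dq1_or2 (a : ℕ) : V2.dq1 R a = or2 (nat_lit 0) (VR.kdq R) (fun q => hl R (tx (VR.dq1T R) q))
    (fun q => hl R (tx (VR.dq2T R) q)) a := rfl

theorem dq2_or2 (a : ℕ) : V2.dq2 R a = or2 (nat_lit 15) (VR.kdq R)
    (fun q => hl R (tx (VR.dq1T R) q)) (fun q => hl R (tx (VR.dq2T R) q)) a := rfl

theorem nq1_or2 (a : ℕ) : V2.nq1 R a = or2 (nat_lit 0) (VR.knq R) (fun q => hl R (tx (VR.nq1T R) q))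
    (fun q => hl R (tx (VR.nq2T R) q)) a := rfl

theorem nq2_or2 (a : ℕ) : V2.nq2 R a = or2 (nat_lit 15) (VR.knq R)
    (fun q => hl R (tx (VR.nq1T R) q)) (fun q => hl R (tx (VR.nq2T R) q)) a := rfl

theorem oq1_or1 (a : ℕ) : V2.oq1 R a = or1 (nat_lit 0) (VR.koq R) (fun q => hl R (tx (VR.oq1T R) q))
    (fun q => hl R (tx (VR.oq2T R) q)) a := rfl

theorem oq2_or1 (a : ℕ) : V2.oq2 R a = or1 (nat_lit 15) (VR.koq R)
    (fun q => hl R (tx (VR.oq1T R) q)) (fun q => hl R (tx (VR.oq2T R) q)) a := rfl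

theorem N30 {i : ℕ} (h : VR.N R ≤ i) : 30 ≤ i := by
  have := VR.N_ge R; omega

theorem DQ1_eq (a : ℕ) : tx (VR.DQ1T R) a = V2.dq1 R a :=
  tabs_eq _ (n_dq1_is R) (fun i hi => by
    rw [dq1_or2]; exact or2_hi (fun q => hl_le _) (fun q => hl_le _) (N30 hi)) a

theorem DQ2_eq (a : ℕ) : tx (VR.DQ2T R) a = V2.dq2 R a :=
  tabs_eq _ (n_dq2_is R) (fun i hi => by
    rw [dq2_or2]; exact or2_hi (fun q => hl_le _) (fun q => hl_le _) (N30 hi)) a

theorem NQ1_eq (a : ℕ) : tx (VR.NQ1T R) a = V2.nq1 R a :=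
  tabs_eq _ (n_nq1_is R) (fun i hi => by
    rw [nq1_or2]; exact or2_hi (fun q => hl_le _) (fun q => hl_le _) (N30 hi)) a

theorem NQ2_eq (a : ℕ) : tx (VR.NQ2T R) a = V2.nq2 R a :=
  tabs_eq _ (n_nq2_is R) (fun i hi => by
    rw [nq2_or2]; exact or2_hi (fun q => hl_le _) (fun q => hl_le _) (N30 hi)) a

theorem OQ1_eq (a : ℕ) : tx (VR.OQ1T R) a = V2.oq1 R a :=
  tabs_eq _ (n_oq1_is R) (fun i hi => by
    rw [oq1_or1]; exact or1_hi (fun q => hl_le _) (N30 hi)) a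

theorem OQ2_eq (a : ℕ) : tx (VR.OQ2T R) a = V2.oq2 R a :=
  tabs_eq _ (n_oq2_is R) (fun i hi => by
    rw [oq2_or1]; exact or1_hi (fun q => hl_le _) (N30 hi)) a

theorem SPM_eq (a : ℕ) : tx (VR.SPMT R) a = V2.spm R a := by
  refine tabs_eq _ (n_spm_is R) (fun i hi => ?_) a
  apply Nat.eq_of_testBit_eq
  intro j
  rw [Nat.zero_testBit, ← Bool.not_eq_true, V2.spm, orN_bit]
  rintro ⟨q, _, h⟩
  have h5 := VR.lp_le R q
  have h6 := N30 hi
  rw [K.nbeq_eq, decide_eq_false (by omega)] at h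
  have h4 : (0 : ℕ).testBit j = true := h
  rw [Nat.zero_testBit] at h4; exact absurd h4 (by simp)

theorem any2_iff (k T U : ℕ) (p : ℕ × ℕ → Bool) : K.lany (lst2 k T U) p = true ↔
    ∃ q < k, p (tx T q, tx U q) = true := by
  rw [lany_lst2, anyN_dec, decide_eq_true_eq]

theorem beq_iff (a b : ℕ) : Nat.beq a b = true ↔ a = b := by
  rw [K.nbeq_eq, decide_eq_true_eq]

/-- the pairs of labels in `dq` -/
theorem dqp_iff (a b : ℕ) : V2.mk R (tx (VR.DQ1T R) a) (tx (VR.DQ2T R) a) b = true ↔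
    ∃ q < VR.kdq R, (hl R (tx (VR.dq1T R) q) = a ∧ hl R (tx (VR.dq2T R) q) = b) ∨
      (hl R (tx (VR.dq1T R) q) = b ∧ hl R (tx (VR.dq2T R) q) = a) := by
  rw [DQ1_eq, DQ2_eq, dq1_or2, dq2_or2]
  exact mk2_pairs2 _ _ _ (fun q => hl_le _) (fun q => hl_le _) a b

theorem nqp_iff (a b : ℕ) : V2.nqp R a b = true ↔
    ∃ q < VR.knq R, (hl R (tx (VR.nq1T R) q) = a ∧ hl R (tx (VR.nq2T R) q) = b) ∨
      (hl R (tx (VR.nq1T R) q) = b ∧ hl R (tx (VR.nq2T R) q) = a) := by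
  unfold V2.nqp
  rw [NQ1_eq, NQ2_eq, nq1_or2, nq2_or2]
  exact mk2_pairs2 _ _ _ (fun q => hl_le _) (fun q => hl_le _) a b

theorem off_iff (a b : ℕ) : V2.off R a b = true ↔
    ∃ q < VR.koq R, hl R (tx (VR.oq1T R) q) = a ∧ hl R (tx (VR.oq2T R) q) = b := by
  unfold V2.off
  rw [OQ1_eq, OQ2_eq, oq1_or1, oq2_or1]
  exact mk2_pairs _ _ _ (fun q => hl_le _) a b

theorem dqa_eq (a b : ℕ) : V2.mk R (tx (VR.DQ1T R) a) (tx (VR.DQ2T R) a) b =
    K.lany (lst2 (VR.kdq R) (VR.dq1T R) (VR.dq2T R)) (fun (q : ℕ × ℕ) => (K.bor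
      (K.band (Nat.beq (hl R (Prod.fst q)) a) (Nat.beq (hl R (Prod.snd q)) b))
      (K.band (Nat.beq (hl R (Prod.fst q)) b) (Nat.beq (hl R (Prod.snd q)) a)))) := by
  rw [Bool.eq_iff_iff, dqp_iff, any2_iff]
  simp only [K.bor_eq, K.band_eq, Bool.or_eq_true, Bool.and_eq_true, beq_iff]

theorem V2.dis_eq (R : VR) (a b : ℕ) : V2.dis R a b = K.WF_dis (VR.WF R) a b := by
  unfold V2.dis
  rw [dqa_eq]
  rfl

theorem V2.disr_eq (R : VR) (a b : ℕ) : V2.dis R a b = K.WR_dis (VR.WR R) a b := by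
  unfold V2.dis
  rw [dqa_eq]
  rfl

theorem V2.off_eq (R : VR) (a b : ℕ) : V2.off R a b = K.WF_off (VR.WF R) a b := by
  have e : K.WF_off (VR.WF R) a b = K.lany (lst2 (VR.koq R) (VR.oq1T R) (VR.oq2T R))
    (fun (q : ℕ × ℕ) => (K.band (Nat.beq (hl R (Prod.fst q)) a)
      (Nat.beq (hl R (Prod.snd q)) b))) := rfl
  rw [e, Bool.eq_iff_iff, off_iff, any2_iff]
  simp only [K.band_eq, Bool.and_eq_true, beq_iff]

theorem nqa_eq (a b : ℕ) : V2.nqp R a b =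
    K.lany (lst2 (VR.knq R) (VR.nq1T R) (VR.nq2T R)) (fun (q : ℕ × ℕ) => (K.bor
      (K.band (Nat.beq (hl R (Prod.fst q)) a) (Nat.beq (hl R (Prod.snd q)) b))
      (K.band (Nat.beq (hl R (Prod.fst q)) b) (Nat.beq (hl R (Prod.snd q)) a)))) := by
  rw [Bool.eq_iff_iff, nqp_iff, any2_iff]
  simp only [K.bor_eq, K.band_eq, Bool.or_eq_true, Bool.and_eq_true, beq_iff]

/-! ### Matrices of bits -/

theorem tx15 {T : ℕ} (hT : ∀ i, tx T i ≤ 32767) (a : ℕ) : T.testBit (16 * a + 15) = false := by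
  have h := tx_bit T a 15
  rw [decide_eq_true (by norm_num : 15 < 16), Bool.true_and] at h
  rw [← h]
  exact Nat.testBit_lt_two_pow (by have := hT a; omega)

theorem mat_eq {T : ℕ} (hT : ∀ i, tx T i ≤ 32767) {a b : ℕ} (hb : b ≤ 31) :
    (K.bor (K.bnot (Nat.beq (Nat.land (tx T a) (tx (VR.pw1T R) b)) (nat_lit 0)))
    (K.bnot (Nat.beq (Nat.land (tx (Nat.shiftRight T (nat_lit 368)) (Nat.add a (nat_lit 1)))
      (tx (VR.pwhT R) b)) (nat_lit 0)))) =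
    K.band (Nat.ble (Nat.succ b) (nat_lit 31)) (K.tbit T (Nat.add (Nat.add (Nat.mul
      (nat_lit 16) a) b) (Nat.mul (nat_lit 369) (Nat.div (Nat.add b (nat_lit 1)) (nat_lit 16))))) := by
  rw [tx_shr23]
  have h1 := pws_tb 0 (tx T a) b (by have := hT a; omega)
  have h2 := pws_tb 15 (tx T (Nat.add a (nat_lit 1) + 23)) b
    (by have := hT (Nat.add a (nat_lit 1) + 23); omega)
  have e1 : tx (VR.pw1T R) b = tx (pws 0) b := rfl
  have e2 : tx (VR.pwhT R) b = tx (pws 15) b := rfl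
  rw [e1, e2, h1, h2, K.tbit_eq, K.bor_eq, tx_bit, tx_bit, K.band_eq]
  have e4 : Nat.add a (nat_lit 1) + 23 = a + 24 := rfl
  have e3 : Nat.add (Nat.add (Nat.mul (nat_lit 16) a) b) (Nat.mul (nat_lit 369) (Nat.div
    (Nat.add b (nat_lit 1)) (nat_lit 16))) = 16 * a + b + 369 * ((b + 1) / 16) := rfl
  have e5 : Nat.ble (Nat.succ b) (nat_lit 31) = decide (b < 31) := by
    rw [K.nble_eq]
    rfl
  rw [e3, e4, e5]
  by_cases h3 : b < 15
  · have e6 : (b + 1) / 16 = 0 := by omega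
    rw [decide_eq_true (Nat.zero_le b), Nat.sub_zero, decide_eq_true (by omega : b < 16),
      decide_eq_false (by omega : ¬ 15 ≤ b), e6, decide_eq_true (by omega : b < 31)]
    simp
  · by_cases h4 : b = 31
    · subst h4
      rw [decide_eq_false (by omega : ¬ 31 - 0 < 16), decide_eq_false (by omega : ¬ 31 - 15 < 16),
        decide_eq_false (by omega : ¬ 31 < 31)]
      simp
    · have e6 : (b + 1) / 16 = 1 := by omega
      have e7 : 16 * (a + 24) + (b - 15) = 16 * a + b + 369 * 1 := by omega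
      rw [decide_eq_true (by omega : 15 ≤ b), decide_eq_true (by omega : b - 15 < 16), e6,
        decide_eq_true (by omega : b < 31), e7]
      by_cases h5 : b = 15
      · subst h5
        have h6 := tx15 hT a
        simp [h6]
      · rw [decide_eq_false (by omega : ¬ b - 0 < 16)]
        simp

theorem V2.ne_eq (R : VR) (a b : ℕ) (hb : b ≤ 31) : V2.ne R a b = K.Fc_ne (VR.F R) a b :=
  mat_eq (VR.nm_le R) hb

theorem V2.na_eq (R : VR) (a b : ℕ) (hb : b ≤ 31) : V2.na R a b = K.Fc_na (VR.F R) a b :=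
  mat_eq (VR.na_le R) hb

theorem V2.ner_eq (R : VR) (a b : ℕ) (hb : b ≤ 31) : V2.ne R a b = K.Fr_ne (VR.Fr R) a b :=
  mat_eq (VR.nm_le R) hb

end Vs

end Pool.FC7
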