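import Pool.Agent.FC7.VsH

/-! # Vector form of the static checks: flags -/

open Finset

set_option linter.unusedSectionVars false

namespace Pool.FC7

open Pool.FC6

namespace Vs

open Vc (vec vec_congr vec_add vec_mul vec_zero vec_le vec_sub vec_app vec_split vec_lt vec_bit
  vec_and vec_or vec_xor vec_inj pow16)

/-- the configuration -/
noncomputable def VR.Cf (R : VR) : Cf where
  Z := VR.Z R
  P := VR.P R
  ac := fun a => Nat.ble (Nat.succ a) (VR.x R)
  wd := fun a => K.lgetD (VR.wd R) a []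
  ra := tx (VR.raT R)
  ad := fun a b => tx (VR.adT R) (Nat.add (Nat.mul (VR.st8 R) a) b)
  al := tx (VR.falT R)
  cs := tx (VR.csT R)
  SD := V2.sd R

variable {R : VR} {M V W C k : ℕ} {f g : ℕ → ℕ} {b c : ℕ} {p q : ℕ → Bool}

theorem Cf_W : K.WG_cf (VR.W R) = VR.Cf R := rfl

theorem Cf_WS : K.WS_cf (VR.WS R) = VR.Cf R := rfl

/-! ### Flags from vectors -/

theorem tf_cut (h : B (VR.S R) V p) {i : ℕ} (hi : i < VR.N R) : tf (cut R V) i = p i := by
  have h1 := tf_eq (X := cut R V) i (cut_le h.L i)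
  rw [cut_tx h.L hi] at h1
  cases h2 : p i <;> cases h3 : tf (cut R V) i <;> rw [h2, h3] at h1 <;>
    first | rfl | exact absurd h1 (by decide)

theorem tf_cut_hi (h : B (VR.S R) V p) {i : ℕ} (hi : VR.N R ≤ i) : tf (cut R V) i = false := by
  have h1 := tf_eq (X := cut R V) i (cut_le h.L i)
  rw [cut_hi h.L hi] at h1
  cases h3 : tf (cut R V) i
  · rfl
  · rw [h3] at h1; exact absurd h1 (by decide)

theorem tf_cut_imp (h : B (VR.S R) V p) {i : ℕ} (hi : tf (cut R V) i = true) : p i = true := by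
  by_cases h1 : i < VR.N R
  · rwa [tf_cut h h1] at hi
  · rw [tf_cut_hi h (not_lt.1 h1)] at hi; exact absurd hi (by decide)

theorem cutB_is (h : B (VR.S R) V p) : B (VR.S R) (cut R V) (tf (cut R V)) := by
  have h1 := cut_is h.L
  unfold B
  conv_lhs => rw [h1.eq]
  exact vec_congr fun i _ => tf_eq i (cut_le h.L i)

theorem cutB_lt (h : B (VR.S R) V p) : cut R V < 65536 ^ VR.N R := cut_lt h.L

/-! ### The flags of a list -/

noncomputable def lfg (R : VR) (l : List ℕ) : ℕ :=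
  Nat.land (List.rec (motive := fun _ => ℕ) (nat_lit 0)
    (fun a _ ih => Nat.lor (Nat.shiftLeft (nat_lit 1) (Nat.mul (nat_lit 16) a)) ih) l) (VR.o1 R)

theorem shl1 (a : ℕ) (j : ℕ) : (Nat.shiftLeft 1 (16 * a)).testBit j = decide (j = 16 * a) := by
  have e : Nat.shiftLeft 1 (16 * a) = 2 ^ (16 * a) := by
    have : Nat.shiftLeft 1 (16 * a) = 1 <<< (16 * a) := rfl
    rw [this, Nat.shiftLeft_eq, one_mul]
  rw [e, Nat.testBit_two_pow, decide_eq_decide]
  exact eq_comm

theorem lfg_bit (l : List ℕ) (j : ℕ) : (List.rec (motive := fun _ => ℕ) (nat_lit 0)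
    (fun a _ ih => Nat.lor (Nat.shiftLeft (nat_lit 1) (Nat.mul (nat_lit 16) a)) ih) l : ℕ).testBit j
      = decide (∃ a ∈ l, j = 16 * a) := by
  induction l with
  | nil =>
    show (0 : ℕ).testBit j = _
    rw [Nat.zero_testBit]
    simp
  | cons a l ih =>
    have e : (List.rec (motive := fun _ => ℕ) (nat_lit 0) (fun a _ ih => Nat.lor (Nat.shiftLeft
        (nat_lit 1) (Nat.mul (nat_lit 16) a)) ih) (a :: l) : ℕ) = Nat.shiftLeft 1 (16 * a) |||
          (List.rec (motive := fun _ => ℕ) (nat_lit 0) (fun a _ ih => Nat.lor (Nat.shiftLeft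
        (nat_lit 1) (Nat.mul (nat_lit 16) a)) ih) l : ℕ) := rfl
    rw [e, Nat.testBit_or, ih, shl1]
    by_cases h : j = 16 * a
    · simp [h]
    · simp [h]

theorem lfg_is (R : VR) (l : List ℕ) : B (VR.S R) (lfg R l) fun i => K.lmem i l := by
  unfold B lfg
  rw [VR.o1e]
  generalize hX : (List.rec (motive := fun _ => ℕ) (nat_lit 0) (fun a _ ih => Nat.lor
    (Nat.shiftLeft (nat_lit 1) (Nat.mul (nat_lit 16) a)) ih) l : ℕ) = X
  have e : Nat.land X (vec (VR.S R) fun _ => 1) = X &&& vec (VR.S R) fun _ => 1 := rfl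
  rw [e]
  apply Nat.eq_of_testBit_eq
  intro j
  rw [Nat.testBit_and, vec_bit (fun i _ => by norm_num), vec_bit (fun i _ => bt_lt _), ← hX,
    lfg_bit, K.lmem_eq]
  by_cases hj : j % 16 = 0
  · have h1 : j = 16 * (j / 16) := by omega
    rw [hj]
    have h2 : decide (∃ a ∈ l, j = 16 * a) = decide (j / 16 ∈ l) := by
      rw [decide_eq_decide]
      constructor
      · rintro ⟨a, ha, h3⟩
        have : j / 16 = a := by omega
        rwa [this]
      · intro h3
        exact ⟨_, h3, h1⟩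
    rw [h2]
    cases decide (j / 16 ∈ l) <;> cases decide (j / 16 < VR.S R) <;> rfl
  · have h2 : decide (∃ a ∈ l, j = 16 * a) = false := by
      rw [decide_eq_false_iff_not]
      rintro ⟨a, _, h3⟩
      omega
    rw [h2, Bool.false_and]
    have h3 : ∀ b : Bool, (bt b).testBit (j % 16) = false := by
      intro b
      cases b
      · exact Nat.zero_testBit _
      · show (1 : ℕ).testBit (j % 16) = false
        have : (1 : ℕ) = 2 ^ 0 := rfl
        rw [this, Nat.testBit_two_pow, decide_eq_false (by omega)]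
    rw [h3, Bool.and_false]

theorem any10 {n : ℕ} (h : n ≤ 10) (p : ℕ → Bool) :
    K.bor (K.bor (K.bor (K.bor (K.bor (K.bor (K.bor (K.bor (K.bor
      (K.band (Nat.ble (Nat.succ (nat_lit 0)) n) (p (nat_lit 0)))
      (K.band (Nat.ble (Nat.succ (nat_lit 1)) n) (p (nat_lit 1))))
      (K.band (Nat.ble (Nat.succ (nat_lit 2)) n) (p (nat_lit 2))))
      (K.band (Nat.ble (Nat.succ (nat_lit 3)) n) (p (nat_lit 3))))
      (K.band (Nat.ble (Nat.succ (nat_lit 4)) n) (p (nat_lit 4))))
      (K.band (Nat.ble (Nat.succ (nat_lit 5)) n) (p (nat_lit 5))))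
      (K.band (Nat.ble (Nat.succ (nat_lit 6)) n) (p (nat_lit 6))))
      (K.band (Nat.ble (Nat.succ (nat_lit 7)) n) (p (nat_lit 7))))
      (K.band (Nat.ble (Nat.succ (nat_lit 8)) n) (p (nat_lit 8))))
      (K.band (Nat.ble (Nat.succ (nat_lit 9)) n) (p (nat_lit 9))) =
    K.lany (K.lrange n) p := by
  have h0 : ∀ m, Nat.ble (Nat.succ m) n = decide (m < n) := fun m => by
    rw [K.nble_eq]; rfl
  rw [lany_lrange, anyN_dec, Bool.eq_iff_iff, decide_eq_true_eq]
  simp only [K.bor_eq, K.band_eq, Bool.or_eq_true, Bool.and_eq_true, h0, decide_eq_true_eq]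
  constructor
  · rintro (((((((((h | h) | h) | h) | h) | h) | h) | h) | h) | h) <;> exact ⟨_, h⟩
  · rintro ⟨m, hm, h1⟩
    have hm8 : m < 10 := by omega
    interval_cases m <;> simp_all

/-- a small scalar times lanes -/
theorem L.cmuls (h1 : L M V f b) {x x' m : ℕ} (hc : x = x') (hb : x' ≤ m) (h : m * b ≤ 32767) :
    L M (Nat.mul x V) (fun i => Nat.mul x' (f i)) (m * b) := by
  subst hc
  exact ⟨(L.cmul h1 x ((Nat.mul_le_mul_right _ hb).trans h)).eq,
    fun i hi => Nat.mul_le_mul hb (h1.le i hi), h⟩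

/-- bits of a number as flags -/
noncomputable def spr (R : VR) (m : ℕ) : ℕ :=
  Bool.rec (motive := fun _ => ℕ) (Nat.rec (motive := fun _ => ℕ) (nat_lit 0)
    (fun j ih => Nat.lor (Nat.shiftLeft (Nat.land (Nat.shiftRight m j) (nat_lit 1))
      (Nat.mul (nat_lit 16) j)) ih) (VR.S R)) (nat_lit 0) (Nat.beq m (nat_lit 0))

theorem spr_aux (m : ℕ) : ∀ k, (Nat.rec (motive := fun _ => ℕ) (nat_lit 0)
    (fun j ih => Nat.lor (Nat.shiftLeft (Nat.land (Nat.shiftRight m j) (nat_lit 1))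
      (Nat.mul (nat_lit 16) j)) ih) k : ℕ) = vec k fun i => bt (K.tbit m i)
  | 0 => by simp [vec]
  | k + 1 => by
    have e : (Nat.rec (motive := fun _ => ℕ) (nat_lit 0)
      (fun j ih => Nat.lor (Nat.shiftLeft (Nat.land (Nat.shiftRight m j) (nat_lit 1))
        (Nat.mul (nat_lit 16) j)) ih) (k + 1) : ℕ) =
        (((m >>> k) &&& 1) <<< (16 * k)) ||| (Nat.rec (motive := fun _ => ℕ) (nat_lit 0)
      (fun j ih => Nat.lor (Nat.shiftLeft (Nat.land (Nat.shiftRight m j) (nat_lit 1))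
        (Nat.mul (nat_lit 16) j)) ih) k : ℕ) := rfl
    rw [e, spr_aux m k]
    have e1 : (m >>> k) &&& 1 = bt (K.tbit m k) := by
      rw [K.tbit_eq, Nat.and_one_is_mod, Nat.testBit_eq_decide_div_mod_eq,
        Nat.shiftRight_eq_div_pow]
      rcases Nat.mod_two_eq_zero_or_one (m / 2 ^ k) with h | h <;> rw [h] <;> rfl
    rw [e1]
    have h1 : vec k (fun i => bt (K.tbit m i)) < 2 ^ (16 * k) := by
      rw [← pow16]; exact vec_lt fun i _ => bt_lt _
    rw [Nat.shiftLeft_eq, Nat.mul_comm, ← Nat.two_pow_add_eq_or_of_lt h1]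
    unfold vec
    rw [sum_range_succ, pow16, add_comm, mul_comm (2 ^ (16 * k))]

theorem spr_is (R : VR) {m m' : ℕ} (h : m = m') :
    B (VR.S R) (spr R m) fun i => K.tbit m' i := by
  subst h
  unfold B spr
  cases h : Nat.beq m (nat_lit 0)
  · exact spr_aux m (VR.S R)
  · have h1 : m = 0 := (beq_iff _ _).1 h
    show 0 = _
    have h2 : (fun i => bt (K.tbit m i)) = fun _ => 0 := by
      funext i
      rw [h1, K.tbit_eq, Nat.zero_testBit]
      rfl
    rw [h2, vec_zero]

/-- the spokes whose heads have not four darts -/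
noncomputable def V2.bg0 (R : VR) (i : ℕ) : Bool :=
  (K.bor (K.band (K.bnot (Nat.beq (tx (VR.piT R) i) i))
    (K.bnot (Nat.beq (tx (VR.zmT R) (tx (VR.caT R) (tx (VR.piT R) i))) (nat_lit 4))))
    (K.lmem i (VR.bg R)))

end Vs

end Pool.FC7
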