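import Pool.Agent.FC7.VtB

/-! # Vector form of the static checks: the functions -/

set_option linter.unusedSectionVars false
set_option linter.style.longLine false

namespace Pool.FC7

open Pool.FC6

namespace Vs

noncomputable def V2.stars (R : VR) : Bool :=
  (K.band (K.band (K.Sp_chk (VR.Q R) (VR.P R)) (K.allN (FC6.Stars.nc (VR.Z R)) (fun (a : ℕ) =>
    (K.band (K.band (K.band (Nat.ble (Nat.succ (nat_lit 0)) (FC6.Stars.m (VR.Z R) a)) (Nat.ble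
    (Nat.add (FC6.Stars.off (VR.Z R) a) (FC6.Stars.m (VR.Z R) a)) (FC6.Sp.ns (VR.Q R)))) (K.bor
    (Nat.beq a (nat_lit 0)) (K.band (Nat.ble (Nat.succ (FC6.Stars.pa (VR.Z R) a)) a) (Nat.ble
    (Nat.succ (FC6.Stars.ja (VR.Z R) a)) (FC6.Stars.m (VR.Z R) (FC6.Stars.pa (VR.Z R) a))))))
    (K.allN (FC6.Sp.ns (VR.Q R)) (fun (j : ℕ) => (K.bor (K.bnot (K.band (Nat.ble (FC6.Stars.off
    (VR.Z R) a) j) (Nat.ble (Nat.succ j) (Nat.add (FC6.Stars.off (VR.Z R) a) (FC6.Stars.m (VR.Z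
    R) a))))) (Nat.beq (FC6.Stars.ca (VR.Z R) j) a)))))))) (K.allN (FC6.Sp.ns (VR.Q R)) (fun (j
    : ℕ) => (K.band (K.band (K.band (K.band (K.band (Nat.ble (Nat.succ (FC6.Stars.ca (VR.Z R)
    j)) (FC6.Stars.nc (VR.Z R))) (Nat.ble (FC6.Stars.off (VR.Z R) (FC6.Stars.ca (VR.Z R) j)) j))
    (Nat.ble (Nat.succ j) (Nat.add (FC6.Stars.off (VR.Z R) (FC6.Stars.ca (VR.Z R) j))
    (FC6.Stars.m (VR.Z R) (FC6.Stars.ca (VR.Z R) j))))) (Nat.beq (FC6.Sp.ρ (VR.Q R) j) (Bool.rec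
    (motive := fun _ => ℕ) (FC6.Stars.off (VR.Z R) (FC6.Stars.ca (VR.Z R) j)) (Nat.add j
    (nat_lit 1)) (Nat.ble (Nat.succ (Nat.add j (nat_lit 1))) (Nat.add (FC6.Stars.off (VR.Z R)
    (FC6.Stars.ca (VR.Z R) j)) (FC6.Stars.m (VR.Z R) (FC6.Stars.ca (VR.Z R) j))))))) (Nat.beq
    (FC6.Pa.l (VR.P R) (FC6.Sp.nf (VR.Q R) (nat_lit 0) j)) (FC6.Pa.l (VR.P R) (FC6.Sp.nf (VR.Q
    R) (nat_lit 0) (FC6.Stars.off (VR.Z R) (FC6.Stars.ca (VR.Z R) j)))))) (K.bor (Nat.beq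
    (FC6.Sp.π (VR.Q R) j) j) (K.Stars_cert (VR.Z R) j))))))

noncomputable def V2.chkA (R : VR) : Bool :=
  (K.band (K.band (K.band (K.band (K.band (K.band (K.band (K.band (K.band (K.rstr (VR.P R) (VR.P
    R)) (K.allN (FC7.OD.x (VR.O R)) (fun (a : ℕ) => (FC6.Sp.cx (VR.Q R) a)))) (K.allN (FC6.Pa.n
    (VR.P R)) (fun (i : ℕ) => (K.bor (Nat.ble (Nat.succ i) (FC6.Pa.n (VR.P R))) (Nat.ble
    (FC7.OD.x (VR.O R)) (FC6.Pa.l (VR.P R) i)))))) (K.allN (FC7.Fc.nl (VR.F R)) (fun (a : ℕ) =>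
    (Bool.rec (motive := fun _ => Bool) (K.band (K.band (K.band (Nat.ble (Nat.succ (FC7.WF.rd
    (VR.WF R) a)) (FC6.Sp.ns (VR.Q R))) (K.bnot (FC6.Sp.rl (VR.Q R) (FC7.WF.rd (VR.WF R) a))))
    (FC7.Wt.ac (FC7.WF.toWt (VR.WF R)) (FC6.Stars.ca (VR.Z R) (FC7.WF.rd (VR.WF R) a))))
    (Nat.beq (K.WF_hl (VR.WF R) (FC7.WF.rd (VR.WF R) a)) a)) (K.band (K.band (Nat.ble (Nat.succ
    (FC7.WF.rd (VR.WF R) a)) (FC6.Pa.n (VR.P R))) (Nat.beq (FC6.Pa.l (VR.P R) (FC7.WF.rd (VR.WF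
    R) a)) a)) (FC6.Pa.real (VR.P R) (FC7.WF.rd (VR.WF R) a))) (Nat.ble (Nat.succ a) (FC7.OD.m
    (VR.O R))))))) (Nat.ble (FC7.OD.m (VR.O R)) (FC7.Fc.nl (VR.F R)))) (K.lall (FC7.WF.dq (VR.WF
    R)) (fun (q : ℕ × ℕ) => (K.band (Nat.ble (Nat.succ (Prod.fst q)) (FC6.Sp.ns (VR.Q R)))
    (Nat.ble (Nat.succ (Prod.snd q)) (FC6.Sp.ns (VR.Q R))))))) (K.lall (FC7.WF.nq (VR.WF R))
    (fun (q : ℕ × ℕ) => (K.band (Nat.ble (Nat.succ (Prod.fst q)) (FC6.Sp.ns (VR.Q R))) (Nat.ble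
    (Nat.succ (Prod.snd q)) (FC6.Sp.ns (VR.Q R))))))) (K.lall (FC7.WF.oq (VR.WF R)) (fun (q : ℕ
    × ℕ) => (K.band (Nat.ble (Nat.succ (Prod.fst q)) (FC6.Sp.ns (VR.Q R))) (Nat.ble (Nat.succ
    (Prod.snd q)) (FC6.Sp.ns (VR.Q R))))))) (K.allN (FC7.OD.m (VR.O R)) (fun (a : ℕ) => (K.allN
    (FC7.OD.m (VR.O R)) (fun (b : ℕ) => (K.bor (K.bnot (V2.ne R a b)) (K.WF_dis (VR.WF R) a
    b))))))) (K.allN (FC7.OD.m (VR.O R)) (fun (a : ℕ) => (K.allN (FC7.OD.m (VR.O R)) (fun (b :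
    ℕ) => (K.bor (K.bor (K.bor (K.bnot (V2.na R a b)) (Nat.ble (Nat.succ a) (FC7.OD.x (VR.O
    R)))) (Nat.ble (Nat.succ b) (FC7.OD.x (VR.O R)))) (V2.nqp R a b)))))))

noncomputable def V2.okv (R : VR) (i : ℕ) : Bool :=
  (K.bor (K.bor (K.lany (FC7.XE.dj (VR.X R)) (fun (z : ℕ) => (Nat.beq (Nat.lor z (tx (VR.pw1T R)
    (FC7.XE.ce (VR.X R) i))) (tx (VR.pw1T R) (FC7.XE.ce (VR.X R) i))))) (K.lany (FC7.XE.kd (VR.X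
    R)) (fun (j : ℕ) => (K.band (Nat.beq (FC7.XE.ce (VR.X R) j) (FC7.XE.ce (VR.X R) i))
    (K.WF_okw (VR.WF R) i j))))) (K.bnot (K.allN (FC6.Pa.n (VR.P R)) (fun (j : ℕ) => (K.bnot
    (K.band (K.band (K.band (Nat.beq (FC6.Pa.α (VR.P R) j) j) (K.bnot (FC6.Pa.real (VR.P R) j)))
    (Nat.beq (FC7.XE.ce (VR.X R) j) (FC7.XE.ce (VR.X R) i))) (K.WF_okw (VR.WF R) i j)))))))

noncomputable def V2.chkV (R : VR) : Bool :=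
  (K.allN (FC6.Pa.n (VR.P R)) (fun (i : ℕ) => (K.bor (K.band (Nat.beq (FC6.Pa.u (VR.P R) i)
    (nat_lit 0)) (K.bnot (FC7.Fc.uk (VR.F R) i))) (V2.okv R i))))

/-- the sources of type 4 -/
noncomputable def V2.o4 (R : VR) : Bool :=
  (K.allN (FC7.OD.p (VR.O R)) (fun (q : ℕ) => (K.bor (K.bnot (Nat.beq (FC7.Fc.ty (VR.F R) q)
    (nat_lit 4))) (K.band (K.band (K.band (K.band (K.WF_one (VR.WF R) q (FC7.Fc.tj (VR.F R) q))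
    (K.bnot (K.sld (VR.P R) (FC7.Fc.tj (VR.F R) q)))) (K.WF_clo (VR.WF R) q (FC7.Fc.tj (VR.F R)
    q))) (K.bor (K.WF_t4a (VR.WF R) q (FC7.Fc.tj (VR.F R) q)) (K.lmem q (VR.t4 R)))) (K.bor
    (Nat.beq (K.WF_fcl (VR.WF R) (FC7.Fc.tj (VR.F R) q)) (nat_lit 1)) (K.band (K.bnot (Nat.beq
    (K.WF_ku (VR.WF R) (FC7.Fc.tj (VR.F R) q)) (nat_lit 0))) (Nat.ble (K.WF_ku (VR.WF R)
    (FC7.Fc.tj (VR.F R) q)) (K.Fc_pu (VR.F R) q))))))))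

noncomputable def V2.o4b (R : VR) : Bool :=
  (K.lall (VR.t4 R) (fun (q : ℕ) => (K.WF_t4b (VR.WF R) q (FC7.Fc.tj (VR.F R) q) (FC7.WF.tu
    (VR.WF R) q) (FC7.Fc.tk (VR.F R) q))))

/-- the sources of type 3 -/
noncomputable def V2.o3 (R : VR) : Bool :=
  (K.allN (FC7.OD.p (VR.O R)) (fun (q : ℕ) => (K.bor (K.bor (K.bnot (Nat.beq (FC7.Fc.ty (VR.F R)
    q) (nat_lit 3))) (tf (VR.mtT R) q)) (K.band (K.WF_one (VR.WF R) q (FC7.Fc.tj (VR.F R) q))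
    (Nat.ble (Nat.add (nat_lit 3) (K.WF_ku (VR.WF R) (FC7.Fc.tj (VR.F R) q))) (Nat.add (K.WF_lwk
    (VR.WF R) (FC7.Fc.tj (VR.F R) q)) (K.Fc_pu (VR.F R) q)))))))

noncomputable def V2.o3b (R : VR) : Bool :=
  (K.allN (FC7.OD.p (VR.O R)) (fun (q : ℕ) => (K.bor (K.bnot (Nat.beq (FC7.Fc.ty (VR.F R) q)
    (nat_lit 3))) (Bool.rec (motive := fun _ => Bool) (K.leq (FC7.WF.tl (VR.WF R) q) (List.cons
    (FC7.Fc.tj (VR.F R) q) [])) (K.band (K.WF_hbs (VR.WF R) q (FC7.WF.tl (VR.WF R) q)) (Nat.ble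
    (Nat.add (nat_lit 3) (K.lsum (K.lmap (K.WF_ku (VR.WF R)) (FC7.WF.tl (VR.WF R) q)))) (Nat.add
    (K.lsum (K.lmap (K.WF_lwk (VR.WF R)) (FC7.WF.tl (VR.WF R) q))) (K.Fc_pu (VR.F R) q)))) (tf
    (VR.mtT R) q)))))

noncomputable def V2.ou (R : VR) : Bool :=
  (K.allN (FC6.Pa.n (VR.P R)) (fun (i : ℕ) => (K.bor (K.bnot (FC7.Fc.ou (VR.F R) i)) (K.band
    (K.WF_one (VR.WF R) (FC7.OD.pc (VR.O R) i) i) (Nat.ble (Nat.succ (K.WF_ku (VR.WF R) i))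
    (K.WF_lwk (VR.WF R) i))))))

noncomputable def V2.chkZ (R : VR) : Bool :=
  (K.allN (FC6.Pa.n (VR.P R)) (fun (i : ℕ) => (K.bor (K.bor (K.bnot (FC7.Fc.oz (VR.F R) i))
    (Nat.beq (K.WF_fcl (VR.WF R) i) (nat_lit 3))) (K.band (K.band (K.WF_one (VR.WF R) (FC7.OD.pc
    (VR.O R) i) i) (Nat.ble (K.WF_ku (VR.WF R) i) (K.Fc_pu (VR.F R) (FC7.OD.pc (VR.O R) i))))
    (K.bor (K.bor (K.bor (K.WF_ocl (VR.WF R) i) (Nat.beq (K.WF_fcl (VR.WF R) i) (nat_lit 2)))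
    (Nat.ble (Nat.succ (K.WF_ku (VR.WF R) i)) (K.Fc_pu (VR.F R) (FC7.OD.pc (VR.O R) i))))
    (K.band (K.band (K.bnot (K.sld (VR.P R) i)) (K.WF_clo (VR.WF R) (FC7.OD.pc (VR.O R) i) i))
    (K.bor (K.WF_t4a (VR.WF R) (FC7.OD.pc (VR.O R) i) i) (K.lmem i (VR.tz R)))))))))

noncomputable def V2.z4b (R : VR) : Bool :=
  (K.lall (VR.tz R) (fun (i : ℕ) => (K.WF_t4b (VR.WF R) (FC7.OD.pc (VR.O R) i) i (FC7.WF.tu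
    (VR.WF R) (FC7.OD.pc (VR.O R) i)) (FC7.Fc.tk (VR.F R) (FC7.OD.pc (VR.O R) i)))))

noncomputable def V2.cfS1 (R : VR) : Bool :=
  (K.allN (VR.nc8 R) (fun (t : ℕ) => (K.bor (K.bor (Nat.ble (VR.nc R) (tx (VR.dvT R) t))
    (Nat.ble (VR.nc R) (tx (VR.mdT R) t))) (K.band (K.bor (Nat.beq (tx (VR.adT R) t) (nat_lit
    0)) (K.band (K.band (K.band (K.band (K.band (K.band (FC7.Cf.ac (VR.Cf R) (tx (VR.dvT R) t))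
    (FC7.Cf.ac (VR.Cf R) (tx (VR.mdT R) t))) (Nat.ble (Nat.succ (Nat.sub (tx (VR.adT R) t)
    (nat_lit 1))) (FC6.Sp.ns (VR.Q R)))) (Nat.beq (FC6.Stars.ca (VR.Z R) (Nat.sub (tx (VR.adT R)
    t) (nat_lit 1))) (tx (VR.dvT R) t))) (Nat.beq (FC6.Stars.ca (VR.Z R) (FC6.Sp.π (VR.Q R)
    (Nat.sub (tx (VR.adT R) t) (nat_lit 1)))) (tx (VR.mdT R) t))) (K.bnot (Nat.beq (FC6.Sp.π
    (VR.Q R) (Nat.sub (tx (VR.adT R) t) (nat_lit 1))) (Nat.sub (tx (VR.adT R) t) (nat_lit 1)))))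
    (FC6.Sp.rl (VR.Q R) (Nat.sub (tx (VR.adT R) t) (nat_lit 1))))) (K.bor (K.bor (K.bor (Nat.beq
    (tx (VR.dvT R) t) (tx (VR.mdT R) t)) (K.bnot (K.beqB (FC7.Cf.ac (VR.Cf R) (tx (VR.dvT R) t))
    (FC7.Cf.ac (VR.Cf R) (tx (VR.mdT R) t))))) (K.bnot (Nat.beq (tx (VR.adT R) t) (nat_lit 0))))
    (K.band (K.band (K.Cf_csok (VR.Cf R) (tx (VR.dvT R) t)) (K.Cf_csok (VR.Cf R) (tx (VR.mdT R)
    t))) (K.Cf_sd (VR.Cf R) (FC7.Cf.cs (VR.Cf R) (tx (VR.dvT R) t)) (FC7.Cf.cs (VR.Cf R) (tx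
    (VR.mdT R) t)))))))))

noncomputable def V2.cfS2 (R : VR) : Bool :=
  (K.allN (FC6.Sp.ns (VR.Q R)) (fun (j : ℕ) => (K.bor (K.bnot (Nat.beq (FC6.Sp.π (VR.Q R) j) j))
    (K.band (K.band (K.band (Nat.ble (Nat.succ (FC7.Cf.al (VR.Cf R) j)) (FC6.Sp.ns (VR.Q R)))
    (FC7.Cf.ac (VR.Cf R) (FC6.Stars.ca (VR.Z R) (FC7.Cf.al (VR.Cf R) j)))) (K.bor (K.bor
    (Nat.beq (FC7.Cf.al (VR.Cf R) j) j) (K.band (K.bnot (Nat.beq (FC6.Sp.π (VR.Q R) (FC6.Sp.ρi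
    (VR.Q R) j)) (FC6.Sp.ρi (VR.Q R) j))) (Nat.beq (FC7.Cf.al (VR.Cf R) j) (FC6.Sp.ρi (VR.Q R)
    (FC6.Sp.π (VR.Q R) (FC6.Sp.ρi (VR.Q R) j)))))) (K.band (K.bnot (Nat.beq (FC6.Sp.π (VR.Q R)
    (FC6.Sp.ρ (VR.Q R) j)) (FC6.Sp.ρ (VR.Q R) j))) (Nat.beq (FC7.Cf.al (VR.Cf R) j) (FC6.Sp.ρ
    (VR.Q R) (FC6.Sp.π (VR.Q R) (FC6.Sp.ρ (VR.Q R) j))))))) (K.allN (FC6.Stars.nc (VR.Z R)) (fun
    (b : ℕ) => (K.bor (K.bor (K.bnot (K.beqB (K.Cf_hal (VR.Cf R) j) (FC7.Cf.ac (VR.Cf R) b)))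
    (K.band (Nat.beq (FC6.Stars.ca (VR.Z R) (FC7.Cf.al (VR.Cf R) j)) b) (FC6.Sp.rl (VR.Q R)
    (FC7.Cf.al (VR.Cf R) j)))) (K.band (K.Cf_csok (VR.Cf R) b) (K.Cf_sd (VR.Cf R) (FC7.Cf.al
    (VR.Cf R) j) (FC7.Cf.cs (VR.Cf R) b))))))))))

noncomputable def V2.rule4 (R : VR) (j : ℕ) (j' : ℕ) : Bool :=
  (K.bor (K.band (Nat.beq (FC6.Stars.ca (VR.Z R) j) (FC6.Stars.ca (VR.Z R) j')) (K.bnot (Nat.beq
    j j'))) (K.band (K.beqB (FC6.Sp.rl (VR.Q R) j) (FC6.Sp.rl (VR.Q R) j')) (K.bor (K.lany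
    (K.lrange (FC6.Stars.nc (VR.Z R))) (fun (c : ℕ) => (K.band (Nat.beq (FC6.Stars.ca (VR.Z R)
    j') c) (K.band (K.bnot (Nat.beq (FC7.Cf.ad (VR.Cf R) (FC6.Stars.ca (VR.Z R) j) c) (nat_lit
    0))) (K.bnot (K.Cf_exa (VR.Cf R) (Nat.sub (FC7.Cf.ad (VR.Cf R) (FC6.Stars.ca (VR.Z R) j) c)
    (nat_lit 1)) j j')))))) (K.lany (K.lrange (FC6.Stars.nc (VR.Z R))) (fun (m : ℕ) => (K.band
    (K.band (K.band (K.band (K.bnot (Nat.beq (FC7.Cf.ad (VR.Cf R) m (FC6.Stars.ca (VR.Z R) j))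
    (nat_lit 0))) (K.bnot (Nat.beq (FC7.Cf.ad (VR.Cf R) m (FC6.Stars.ca (VR.Z R) j')) (nat_lit
    0)))) (K.bnot (Nat.beq (FC6.Stars.ca (VR.Z R) j) (FC6.Stars.ca (VR.Z R) j')))) (K.Cf_nco
    (VR.Cf R) (Nat.sub (FC7.Cf.ad (VR.Cf R) m (FC6.Stars.ca (VR.Z R) j)) (nat_lit 1)) (Nat.sub
    (FC7.Cf.ad (VR.Cf R) m (FC6.Stars.ca (VR.Z R) j')) (nat_lit 1)))) (K.bnot (K.Cf_exc (VR.Cf
    R) (tf (VR.BGXT R)) (Nat.sub (FC7.Cf.ad (VR.Cf R) m (FC6.Stars.ca (VR.Z R) j)) (nat_lit 1))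
    (Nat.sub (FC7.Cf.ad (VR.Cf R) m (FC6.Stars.ca (VR.Z R) j')) (nat_lit 1)) j j'))))))))

noncomputable def V2.chk4 (R : VR) : Bool :=
  (K.allN (FC6.Sp.ns (VR.Q R)) (fun (j : ℕ) => (K.allN (FC6.Sp.ns (VR.Q R)) (fun (j' : ℕ) =>
    (K.bor (K.bnot (V2.sd R j j')) (V2.rule4 R j j'))))))

noncomputable def V2.nqc (R : VR) (q : ℕ × ℕ) : Bool :=
  (K.band (K.band (FC6.Sp.rl (VR.Q R) (Prod.fst q)) (FC6.Sp.rl (VR.Q R) (Prod.snd q))) (K.bor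
    (K.band (K.band (Nat.beq (FC6.Stars.ca (VR.Z R) (Prod.fst q)) (FC6.Stars.ca (VR.Z R)
    (Prod.snd q))) (K.bnot (Nat.beq (FC6.Sp.ρ (VR.Q R) (Prod.fst q)) (Prod.snd q)))) (K.bnot
    (Nat.beq (FC6.Sp.ρ (VR.Q R) (Prod.snd q)) (Prod.fst q)))) (K.Cf_nadj (VR.Cf R) (tf (VR.BGXT
    R)) (Prod.fst q) (Prod.snd q))))

noncomputable def V2.oqc (R : VR) (q : ℕ × ℕ) : Bool :=
  (K.band (K.band (FC6.Sp.rl (VR.Q R) (Prod.fst q)) (K.bnot (FC6.Sp.rl (VR.Q R) (Prod.snd q))))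
    (K.bor (K.band (K.band (Nat.beq (FC6.Stars.ca (VR.Z R) (Prod.fst q)) (FC6.Stars.ca (VR.Z R)
    (Prod.snd q))) (K.bnot (Nat.beq (FC6.Sp.ρ (VR.Q R) (Prod.fst q)) (Prod.snd q)))) (K.bnot
    (Nat.beq (FC6.Sp.ρ (VR.Q R) (Prod.snd q)) (Prod.fst q)))) (K.Cf_nadj (VR.Cf R) (tf (VR.BGXT
    R)) (Prod.fst q) (Prod.snd q))))

noncomputable def V2.g8a (R : VR) : Bool :=
  (K.band (K.lall (FC7.WF.dq (VR.WF R)) (fun (q : ℕ × ℕ) => (K.Cf_sd (VR.Cf R) (Prod.fst q)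
    (Prod.snd q)))) (K.band (K.lall (FC7.WF.nq (VR.WF R)) (fun (q : ℕ × ℕ) => (V2.nqc R q)))
    (K.lall (FC7.WF.oq (VR.WF R)) (fun (q : ℕ × ℕ) => (V2.oqc R q)))))

noncomputable def V2.bgl (R : VR) : Bool :=
  (K.lall (VR.bg R) (fun (i : ℕ) => (K.WG_bg0 (VR.W R) i)))

noncomputable def V2.bgr (R : VR) : Bool :=
  (K.lall (VR.bg R) (fun (i : ℕ) => (K.WS_bg0 (VR.WS R) i)))

noncomputable def V2.djs (R : VR) : Bool :=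
  (K.band (K.band (K.band (K.band (K.band (K.lall (FC7.XE.dj' (VR.X R)) (fun (m : ℕ) => (K.bor
    (K.bor (K.bnot (K.allN (FC6.Pa.n (VR.P R)) (fun (i : ℕ) => (K.bnot (K.band (K.bor (K.bnot
    (Nat.beq (FC6.Pa.u (VR.P' R) i) (nat_lit 0))) ((FC7.Fc.ou (VR.F R)) i)) (K.tbit m
    (FC7.XE.ce' (VR.X R) i))))))) (K.bnot (K.allN (FC6.Pa.n (VR.P R)) (fun (i : ℕ) => (K.bnot
    (K.band (K.band (K.band (FC7.OD.lb' (VR.O R) i) (K.bnot (Nat.beq (FC6.Pa.α (VR.P R) i) i)))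
    (K.tbit m (FC7.XE.ce' (VR.X R) i))) (K.tbit m (FC7.XE.ce' (VR.X R) (FC6.Pa.α (VR.P R)
    i))))))))) (K.bnot (K.allN (FC7.OD.x (VR.O R)) (fun (a : ℕ) => (K.bnot (K.band (Nat.ble
    (FC7.OD.lo (VR.O R)) a) (Nat.beq (Nat.land (tx (VR.SPMT R) a) m) (tx (VR.SPMT R) a))))))))))
    (K.allN (FC6.Pa.n (VR.P R)) (fun (i : ℕ) => (K.bor (K.bor (Nat.beq (FC6.Pa.α (VR.P R) i) i)
    (K.bnot (FC7.OD.lb (VR.O R) i))) (K.lany (FC7.XE.dj (VR.X R)) (fun (z : ℕ) => (Nat.beq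
    (Nat.lor z (Nat.lor (tx (VR.pw1T R) (FC7.XE.ce (VR.X R) i)) (tx (VR.pw1T R) (FC7.XE.ce (VR.X
    R) (FC6.Pa.α (VR.P R) i))))) (Nat.lor (tx (VR.pw1T R) (FC7.XE.ce (VR.X R) i)) (tx (VR.pw1T
    R) (FC7.XE.ce (VR.X R) (FC6.Pa.α (VR.P R) i))))))))))) (K.lall (K.lrange (FC7.OD.x (VR.O
    R))) (fun (a : ℕ) => (K.band (Nat.ble (Nat.succ a) (FC7.OD.x (VR.O R))) (K.lmem (FC7.XE.st
    (VR.X R) a) (FC7.XE.dj (VR.X R))))))) true) (K.lall (FC7.XE.rs (VR.X R)) (fun (i : ℕ) =>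
    (K.bor (K.bor (K.bnot (FC7.OD.lb (VR.O R) i)) ((FC7.Fc.lu (VR.F R)) i)) (K.band (K.OD_rg
    (VR.O R) (VR.P R) i) (K.bor (K.lany (FC7.XE.lr (VR.X R)) (fun (q : ℕ × Bool × Bool) =>
    (K.band (Nat.beq (Prod.fst q) i) (Prod.fst (Prod.snd q))))) (K.band (FC7.OD.lb' (VR.O R) i)
    (K.lmem i (FC7.XE.kd (VR.X R)))))))))) (K.lall (FC7.XE.lr (VR.X R)) (fun (q : ℕ × Bool ×
    Bool) => (K.bor (K.bnot (Prod.snd (Prod.snd q))) (K.band (Nat.ble (Nat.succ (Prod.fst q))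
    (FC6.Pa.n (VR.P R))) (FC7.OD.lb' (VR.O R) (Prod.fst q)))))))

noncomputable def V2.fchkS (R : VR) : Bool :=
  (K.band (K.allN (FC7.OD.x (VR.O R)) (fun (a : ℕ) => (K.allN (FC7.OD.m (VR.O R)) (fun (b : ℕ)
    => (K.bor (Nat.beq a b) (K.band (V2.ne R a b) (V2.ne R b a))))))) (K.allN (FC6.Pa.n (VR.P
    R)) (fun (i : ℕ) => (K.band (K.band (K.band (Nat.ble (Nat.succ (FC6.Pa.l (VR.P R) i))
    (FC7.Fc.nl (VR.F R))) (Nat.ble (Nat.succ (FC6.Pa.l (VR.P' R) i)) (FC7.Fc.nl (VR.F R))))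
    (K.bor (K.bor (K.bnot (FC6.Pa.real (VR.P' R) i)) (K.Fc_un (VR.F R) i)) (K.band (K.Fc_ne
    (VR.F R) (FC6.Pa.l (VR.P' R) i) (FC6.Pa.l (VR.P' R) (FC6.Pa.φ (VR.P' R) i))) (K.bor (K.bor
    (K.Fc_na (VR.F R) (FC6.Pa.l (VR.P' R) i) (FC6.Pa.l (VR.P' R) (FC6.Pa.φ (VR.P' R) i)))
    (Nat.ble (Nat.succ (FC6.Pa.l (VR.P' R) i)) (FC7.OD.x (VR.O R)))) (Nat.ble (Nat.succ
    (FC6.Pa.l (VR.P' R) (FC6.Pa.φ (VR.P' R) i))) (FC7.OD.x (VR.O R))))))) (K.allN i (fun (j : ℕ)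
    => (K.bor (K.bor (K.bor (K.bor (K.bnot (FC6.Pa.real (VR.P' R) i)) (K.bnot (FC6.Pa.real
    (VR.P' R) j))) (K.Fc_ne (VR.F R) (FC6.Pa.l (VR.P' R) i) (FC6.Pa.l (VR.P' R) j))) (K.Fc_ne
    (VR.F R) (FC6.Pa.l (VR.P' R) (FC6.Pa.φ (VR.P' R) i)) (FC6.Pa.l (VR.P' R) (FC6.Pa.φ (VR.P' R)
    j)))) (K.band (K.Fc_un (VR.F R) i) (K.Fc_un (VR.F R) j)))))))))

noncomputable def V2.fchkL (R : VR) : Bool :=
  (K.allN (FC7.OD.m (VR.O R)) (fun (a : ℕ) => (K.allN (FC7.OD.m (VR.O R)) (fun (b : ℕ) => (K.bor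
    (K.bor (K.bor (Nat.beq (FC7.OD.sl (VR.O R) a) (nat_lit 0)) (Nat.beq (FC7.OD.sl (VR.O R) b)
    (nat_lit 0))) (Nat.beq a b)) (V2.ne R a b))))))

noncomputable def V2.cop (R : VR) : ℕ :=
  (Nat.add (Nat.add (Nat.add (Nat.mul (nat_lit 2024) (K.sumN (FC6.Pa.n (VR.P R)) (fun (i : ℕ) =>
    (Bool.rec (motive := fun _ => ℕ) (nat_lit 0) (FC6.Pa.u (VR.P' R) i) (K.bor (Nat.beq
    (FC7.Fc.ty (VR.F R) (FC7.OD.pc (VR.O R) i)) (nat_lit 0)) (Nat.beq (FC7.Fc.ty (VR.F R)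
    (FC7.OD.pc (VR.O R) i)) (nat_lit 3))))))) (Nat.mul (nat_lit 3054) (K.sumN (FC6.Pa.n (VR.P
    R)) (fun (i : ℕ) => (Bool.rec (motive := fun _ => ℕ) (FC6.Pa.u (VR.P' R) i) (nat_lit 0)
    (K.bor (Nat.beq (FC7.Fc.ty (VR.F R) (FC7.OD.pc (VR.O R) i)) (nat_lit 0)) (Nat.beq (FC7.Fc.ty
    (VR.F R) (FC7.OD.pc (VR.O R) i)) (nat_lit 3)))))))) (Nat.mul (nat_lit 3054) (K.OD_nlbp (VR.O
    R) (VR.P R)))) (Nat.mul (nat_lit 6120) (K.OD_nsp (VR.O R) (VR.P R) (VR.P' R))))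

noncomputable def V2.co (R : VR) : ℕ :=
  (Nat.add (Nat.add (Nat.mul (nat_lit 3054) (K.sumN (FC6.Pa.n (VR.P R)) (fun (i : ℕ) =>
    (Bool.rec (motive := fun _ => ℕ) (nat_lit 0) (FC6.Pa.u (VR.P R) i) (FC7.Fc.tw (VR.F R)
    i))))) (Nat.mul (nat_lit 2024) (K.sumN (FC6.Pa.n (VR.P R)) (fun (i : ℕ) => (Bool.rec (motive
    := fun _ => ℕ) (FC6.Pa.u (VR.P R) i) (nat_lit 0) (FC7.Fc.tw (VR.F R) i)))))) (Nat.mul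
    (nat_lit 3054) (K.OD_nlb (VR.O R) (VR.P R))))

noncomputable def V2.chkM (R : VR) : Bool :=
  (K.bor (Nat.ble (Nat.succ (K.OD_nbp (VR.O R) (VR.P R) (VR.P' R))) (FC7.OD.x (VR.O R))) (K.band
    (K.band (Nat.ble (K.OD_nbp (VR.O R) (VR.P R) (VR.P' R)) (FC7.OD.x (VR.O R))) (K.Fc_chkC
    (VR.F R))) (Nat.ble (Nat.succ (Nat.add (V2.cop R) (nat_lit 0))) (V2.co R))))

noncomputable def V2.chkN (R : VR) : Bool :=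
  (K.band (K.band (K.band (Nat.ble (K.OD_nbp (VR.O R) (VR.P R) (VR.P' R)) (FC7.OD.x (VR.O R)))
    (K.Fc_chkC (VR.F R))) (Nat.ble (V2.cop R) (V2.co R))) (Nat.ble (Nat.succ (K.sumN (FC6.Pa.n
    (VR.P R)) (fun (i : ℕ) => (Bool.rec (motive := fun _ => ℕ) (nat_lit 0) (nat_lit 1)
    (FC6.Pa.real (VR.P R) i))))) (K.sumN (FC6.Pa.n (VR.P R)) (fun (i : ℕ) => (Bool.rec (motive
    := fun _ => ℕ) (nat_lit 0) (nat_lit 1) (FC6.Pa.real (VR.P' R) i))))))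

noncomputable def V2.chkB1 (R : VR) : Bool :=
  (K.lall (FC7.Fc.gt (VR.F R)) (fun (p : ℕ × ℕ × ℕ) => (K.band (K.band (K.band (K.band (K.band
    (K.band (K.band (K.band (K.band (Nat.ble (Nat.succ (Prod.fst p)) (FC6.Pa.n (VR.P R)))
    (Nat.ble (Nat.succ (Prod.fst (Prod.snd p))) (FC6.Pa.n (VR.P R)))) (Nat.beq (FC6.Pa.α (VR.P
    R) (Prod.fst p)) (Prod.fst p))) (K.allN (FC6.Pa.n (VR.P R)) (fun (j : ℕ) => (K.bor (K.bor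
    (K.bnot (Nat.beq (FC6.Pa.α (VR.P R) j) j)) (K.bnot (Nat.beq (FC6.Pa.l (VR.P R) j) (FC6.Pa.l
    (VR.P R) (FC6.Pa.φ (VR.P R) (Prod.fst p)))))) (Nat.beq j (Nat.land (Prod.fst (Prod.snd p)) (nat_lit 127)))))))
    (Nat.ble (FC7.OD.x (VR.O R)) (FC6.Pa.l (VR.P R) (Prod.fst p)))) (Nat.ble (Nat.succ (FC6.Pa.l
    (VR.P R) (Prod.fst p))) (FC7.OD.m (VR.O R)))) (Nat.ble (FC7.OD.x (VR.O R)) (FC6.Pa.l (VR.P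
    R) (FC6.Pa.φ (VR.P R) (Prod.fst (Prod.snd p)))))) (Nat.ble (Nat.succ (FC6.Pa.l (VR.P R)
    (FC6.Pa.φ (VR.P R) (Prod.fst (Prod.snd p))))) (FC7.OD.m (VR.O R)))) (K.allN (FC6.Pa.n (VR.P
    R)) (fun (j : ℕ) => (K.bor (K.bor (K.bor (K.bor (K.bnot (Nat.beq (FC6.Pa.α (VR.P R) j) j))
    (K.bnot (FC6.Pa.real (VR.P R) j))) (K.tbit (Prod.snd (Prod.snd p)) j)) (K.WF_off (VR.WF R)
    (FC6.Pa.l (VR.P R) j) (FC6.Pa.l (VR.P R) (FC6.Pa.φ (VR.P R) (Prod.fst p))))) (K.WF_off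
    (VR.WF R) (FC6.Pa.l (VR.P R) (FC6.Pa.φ (VR.P R) j)) (FC6.Pa.l (VR.P R) (FC6.Pa.φ (VR.P R)
    (Prod.fst p)))))))) (K.WF_hub (VR.WF R) (FC6.Pa.l (VR.P R) (FC6.Pa.φ (VR.P R) (Prod.fst
    p)))))))

noncomputable def V2.chkB2 (R : VR) : Bool :=
  (K.band (K.nodup (K.lmap (fun (p : ℕ × ℕ × ℕ) => (FC6.Pa.l (VR.P R) (FC6.Pa.φ (VR.P R)
    (Prod.fst p)))) (FC7.Fc.gt (VR.F R)))) (K.band (K.lall (FC7.Fc.D5 (VR.F R)) (K.WF_di5 (VR.WF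
    R))) (K.lall (FC7.Fc.p5 (VR.F R)) (K.WF_ok5 (VR.WF R)))))

end Vs

end Pool.FC7
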