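import Pool.Agent.FC7.VsJ

/-! # Vector form of the static checks: the functions of facts without a reduction -/

set_option linter.unusedSectionVars false
set_option linter.style.longLine false

namespace Pool.FC7

open Pool.FC6

namespace Vs

/-- facts without a reduction: the first part -/
noncomputable def V2.rA (R : VR) : Bool :=
  (K.band (K.band (K.band (K.band (K.band (K.band (K.band (K.band (K.rstr (VR.P R) (VR.P R))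
    (K.allN (FC7.XE.x (VR.X R)) (fun (a : ℕ) => (FC6.Sp.cx (VR.Q R) a)))) (K.allN (FC6.Pa.n
    (VR.P R)) (fun (i : ℕ) => (K.bor (Nat.ble (Nat.succ i) (FC6.Pa.n (VR.P R))) (Nat.ble
    (FC7.XE.x (VR.X R)) (FC6.Pa.l (VR.P R) i)))))) (K.allN (FC7.Fr.nl (VR.Fr R)) (fun (a : ℕ) =>
    (Bool.rec (motive := fun _ => Bool) (K.band (K.band (K.band (Nat.ble (Nat.succ (FC7.WR.rd
    (VR.WR R) a)) (FC6.Sp.ns (VR.Q R))) (K.bnot (FC6.Sp.rl (VR.Q R) (FC7.WR.rd (VR.WR R) a))))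
    (FC7.Wt.ac (FC7.WR.toWt (VR.WR R)) (FC6.Stars.ca (VR.Z R) (FC7.WR.rd (VR.WR R) a))))
    (Nat.beq (K.WR_hl (VR.WR R) (FC7.WR.rd (VR.WR R) a)) a)) (K.band (K.band (Nat.ble (Nat.succ
    (FC7.WR.rd (VR.WR R) a)) (FC6.Pa.n (VR.P R))) (Nat.beq (FC6.Pa.l (VR.P R) (FC7.WR.rd (VR.WR
    R) a)) a)) (FC6.Pa.real (VR.P R) (FC7.WR.rd (VR.WR R) a))) (Nat.ble (Nat.succ a) (K.WR_m
    (VR.WR R))))))) (Nat.ble (K.WR_m (VR.WR R)) (FC7.Fr.nl (VR.Fr R)))) (K.Pa_good (VR.P R)))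
    (K.lall (FC7.WR.dq (VR.WR R)) (fun (q : ℕ × ℕ) => (K.band (Nat.ble (Nat.succ (Prod.fst q))
    (FC6.Sp.ns (VR.Q R))) (Nat.ble (Nat.succ (Prod.snd q)) (FC6.Sp.ns (VR.Q R))))))) (K.allN
    (FC6.Pa.n (VR.P R)) (fun (i : ℕ) => (Nat.ble (Nat.succ (FC6.Pa.l (VR.P R) i)) (FC7.Fr.nl
    (VR.Fr R)))))) (K.allN (K.WR_m (VR.WR R)) (fun (a : ℕ) => (K.allN (K.WR_m (VR.WR R)) (fun (b
    : ℕ) => (K.bor (K.bnot (V2.ne R a b)) (K.WR_dis (VR.WR R) a b)))))))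

noncomputable def V2.rfr (R : VR) : Bool :=
  (K.band (K.band (K.band (K.band (K.band (K.band (K.band (K.band (K.band (K.band (K.band
    (K.band (K.band (K.Pa_good (VR.P R)) (Nat.beq (FC7.XE.lo (VR.X R)) (nat_lit 0))) (Nat.ble
    (Nat.succ (FC7.XE.x (VR.X R))) (Nat.add (FC7.XE.x (VR.X R)) (FC7.XE.k (VR.X R))))) (Nat.ble
    (Nat.succ (FC7.Fr.dr (VR.Fr R))) (FC6.Pa.n (VR.P R)))) (K.allN (FC6.Pa.n (VR.P R)) (fun (i :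
    ℕ) => (Nat.ble (Nat.succ (FC6.Pa.l (VR.P R) i)) (FC7.Fr.nl (VR.Fr R)))))) (K.allN (FC7.XE.x
    (VR.X R)) (fun (a : ℕ) => (K.allN (Nat.add (FC7.XE.x (VR.X R)) (FC7.XE.k (VR.X R))) (fun (b
    : ℕ) => (K.bor (Nat.beq a b) (K.band (V2.ne R a b) (V2.ne R b a)))))))) (K.allN (FC6.Pa.n
    (VR.P R)) (fun (i : ℕ) => (K.bor (K.bor (K.bor (FC7.Fr.nu (VR.Fr R) i) (K.lany (FC7.XE.dj
    (VR.X R)) (fun (z : ℕ) => (Nat.beq (Nat.lor z (tx (VR.pw1T R) (FC7.XE.ce (VR.X R) i))) (tx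
    (VR.pw1T R) (FC7.XE.ce (VR.X R) i)))))) (K.Fr_hv (VR.Fr R) i)) (K.Fr_hk (VR.Fr R) i)))))
    (K.bor (FC7.Fr.lab (VR.Fr R)) (K.lany (FC7.XE.dj (VR.X R)) (fun (z : ℕ) => (Nat.beq (Nat.lor
    z (tx (VR.pw1T R) (FC7.XE.ce (VR.X R) (VR.dr R)))) (tx (VR.pw1T R) (FC7.XE.ce (VR.X R)
    (VR.dr R)))))))) (K.allN (FC6.Pa.n (VR.P R)) (fun (i : ℕ) => (K.bor (K.bor (Nat.beq
    (FC6.Pa.α (VR.P R) i) i) (K.bnot (FC7.Fr.lb (VR.Fr R) i))) (K.lany (FC7.XE.dj (VR.X R)) (fun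
    (z : ℕ) => (Nat.beq (Nat.lor z (Nat.lor (tx (VR.pw1T R) (FC7.XE.ce (VR.X R) i)) (tx (VR.pw1T
    R) (FC7.XE.ce (VR.X R) (FC6.Pa.α (VR.P R) i))))) (Nat.lor (tx (VR.pw1T R) (FC7.XE.ce (VR.X
    R) i)) (tx (VR.pw1T R) (FC7.XE.ce (VR.X R) (FC6.Pa.α (VR.P R) i))))))))))) (K.allN (FC7.XE.x
    (VR.X R)) (fun (a : ℕ) => (K.lmem (FC7.XE.st (VR.X R) a) (FC7.XE.dj (VR.X R)))))) (K.lall
    (FC7.XE.rs (VR.X R)) (fun (i : ℕ) => (Bool.rec (motive := fun _ => Bool) (K.bor (K.bnot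
    (FC7.Fr.lb (VR.Fr R) i)) (K.lany (FC7.XE.lr (VR.X R)) (fun (q : ℕ × Bool × Bool) => (K.band
    (Nat.beq (Prod.fst q) i) (Prod.fst (Prod.snd q)))))) (K.lmem i (FC7.XE.kd (VR.X R)))
    (FC7.Fr.lu (VR.Fr R) i))))) (K.allN (FC6.Pa.n (VR.P R)) (fun (i : ℕ) => (K.bor (K.bnot
    (FC7.Fr.lu (VR.Fr R) i)) (Nat.beq (FC6.Pa.α (VR.P R) i) i))))) (K.lall (FC7.XE.lr (VR.X R))
    (fun (q : ℕ × Bool × Bool) => (K.bor (K.bnot (Prod.snd (Prod.snd q))) (K.Fr_lk (VR.Fr R)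
    (Prod.fst q)))))) (K.lall (FC7.XE.dj' (VR.X R)) (fun (m : ℕ) => (K.bor (K.bor (K.bnot
    (K.allN (FC6.Pa.n (VR.P R)) (fun (i : ℕ) => (K.bnot (K.band (FC7.Fr.rq (VR.Fr R) i) (K.tbit
    m (FC7.XE.ce' (VR.X R) i))))))) (K.bnot (K.allN (FC6.Pa.n (VR.P R)) (fun (i : ℕ) => (K.bnot
    (K.band (K.band (K.band (K.Fr_lk (VR.Fr R) i) (K.bnot (Nat.beq (FC6.Pa.α (VR.P R) i) i)))
    (K.tbit m (FC7.XE.ce' (VR.X R) i))) (K.tbit m (FC7.XE.ce' (VR.X R) (FC6.Pa.α (VR.P R)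
    i))))))))) (K.bnot (K.allN (FC7.XE.x (VR.X R)) (fun (a : ℕ) => (K.bnot (Nat.beq (Nat.land
    (tx (VR.SPMT R) a) m) (tx (VR.SPMT R) a))))))))))

noncomputable def V2.g8d (R : VR) : Bool :=
  (K.lall (FC7.WF.dq (VR.WF R)) (fun (q : ℕ × ℕ) => (K.Cf_sd (VR.Cf R) (Prod.fst q) (Prod.snd
    q))))

end Vs

end Pool.FC7
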