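import Pool.Agent.FC7.VsI

/-! # Vector form of the static checks: generated file (vgen.py) -/

open Finset

set_option linter.all false

namespace Pool.FC7

open Pool.FC6

namespace Vs

noncomputable def s124 (R : VR) (i : ℕ) : ℕ :=
  tx (VR.piT R) i

theorem e124 (R : VR) : L (VR.S R) (VR.piT R) (s124 R) 255 :=
  VR.pi_is R

noncomputable def v125 (R : VR) : ℕ :=
  Nat.shiftRight (Nat.land (Nat.sub (VR.h1 R) (Nat.xor (VR.piT R) (VR.iota R))) (VR.h1 R))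
    (nat_lit 15)

noncomputable def s125 (R : VR) (i : ℕ) : Bool :=
  Nat.beq (s124 R i) (s0 R i)

theorem e125 (R : VR) : B (VR.S R) (v125 R) (s125 R) :=
  L.beq (VR.h1e R) (e124 R) (e0 R)

noncomputable def v126 (R : VR) : ℕ :=
  Nat.sub (VR.o1 R) (v125 R)

noncomputable def s126 (R : VR) (i : ℕ) : Bool :=
  K.bnot (s125 R i)

theorem e126 (R : VR) : B (VR.S R) (v126 R) (s126 R) :=
  B.not (VR.o1e R) (e125 R)

noncomputable def s127 (R : VR) (i : ℕ) : ℕ :=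
  tx (VR.caT R) i

theorem e127 (R : VR) : L (VR.S R) (VR.caT R) (s127 R) 255 :=
  VR.ca_is R

noncomputable def v128 (R : VR) : ℕ :=
  gmk (VR.h2 R) (VR.J R) (Nat.mul (VR.piT R) (VR.cr1 R))

noncomputable def v129 (R : VR) : ℕ :=
  srM (VR.N R) (VR.S R) (VR.o1 R) (VR.caT R)

noncomputable def v130 (R : VR) : ℕ :=
  Nat.mod (Nat.land (v128 R) (v129 R)) (VR.m1 R)

noncomputable def s130 (R : VR) (i : ℕ) : ℕ :=
  tx (VR.caT R) (s124 R i)

theorem e130 (R : VR) : L (VR.S R) (v130 R) (s130 R) 255 :=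
  L.gat (e124 R) (VR.ca_is R) (VR.ca_lt R) (VR.ca_le R)

noncomputable def s131 (R : VR) (i : ℕ) : ℕ :=
  tx (VR.zmT R) i

theorem e131 (R : VR) : L (VR.S R) (VR.zmT R) (s131 R) 255 :=
  VR.zm_is R

noncomputable def v132 (R : VR) : ℕ :=
  gmk (VR.h2 R) (VR.J R) (Nat.mul (v130 R) (VR.cr1 R))

noncomputable def v133 (R : VR) : ℕ :=
  srM (VR.N R) (VR.S R) (VR.o1 R) (VR.zmT R)

noncomputable def v134 (R : VR) : ℕ :=
  Nat.mod (Nat.land (v132 R) (v133 R)) (VR.m1 R)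

noncomputable def s134 (R : VR) (i : ℕ) : ℕ :=
  tx (VR.zmT R) (s130 R i)

theorem e134 (R : VR) : L (VR.S R) (v134 R) (s134 R) 255 :=
  L.gat (e130 R) (VR.zm_is R) (VR.zm_lt R) (VR.zm_le R)

noncomputable def v135 (R : VR) : ℕ :=
  (nat_lit 4)

noncomputable def s135 (R : VR) : ℕ :=
  (nat_lit 4)

theorem e135 (R : VR) : (v135 R) = s135 R :=
  rfl

noncomputable def v136 (R : VR) : ℕ :=
  Nat.mul (VR.o1 R) (v135 R)

noncomputable def s136 (R : VR) (i : ℕ) : ℕ :=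
  (s135 R)

theorem e136 (R : VR) : L (VR.S R) (v136 R) (s136 R) 4 :=
  L.scl (VR.o1e R) (e135 R) (le_of_eq (rfl : s135 R = (nat_lit 4))) (by decide)

noncomputable def v137 (R : VR) : ℕ :=
  Nat.shiftRight (Nat.land (Nat.sub (VR.h1 R) (Nat.xor (Nat.mod (Nat.land (v132 R) (v133 R))
    (VR.m1 R)) (v136 R))) (VR.h1 R)) (nat_lit 15)

noncomputable def s137 (R : VR) (i : ℕ) : Bool :=
  Nat.beq (s134 R i) (s136 R i)

theorem e137 (R : VR) : B (VR.S R) (v137 R) (s137 R) :=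
  L.beq (VR.h1e R) (e134 R) (e136 R)

noncomputable def v138 (R : VR) : ℕ :=
  Nat.sub (VR.o1 R) (Nat.shiftRight (Nat.land (Nat.sub (VR.h1 R) (Nat.xor (Nat.mod (Nat.land (v132
    R) (v133 R)) (VR.m1 R)) (v136 R))) (VR.h1 R)) (nat_lit 15))

noncomputable def s138 (R : VR) (i : ℕ) : Bool :=
  K.bnot (s137 R i)

theorem e138 (R : VR) : B (VR.S R) (v138 R) (s138 R) :=
  B.not (VR.o1e R) (e137 R)

noncomputable def v139 (R : VR) : ℕ :=
  Nat.land (v126 R) (Nat.sub (VR.o1 R) (Nat.shiftRight (Nat.land (Nat.sub (VR.h1 R) (Nat.xor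
    (Nat.mod (Nat.land (v132 R) (v133 R)) (VR.m1 R)) (v136 R))) (VR.h1 R)) (nat_lit 15)))

noncomputable def s139 (R : VR) (i : ℕ) : Bool :=
  K.band (s126 R i) (s138 R i)

theorem e139 (R : VR) : B (VR.S R) (v139 R) (s139 R) :=
  B.and (e126 R) (e138 R)

noncomputable def v140 (R : VR) : ℕ :=
  lfg R (VR.bg R)

noncomputable def s140 (R : VR) (i : ℕ) : Bool :=
  K.lmem i (VR.bg R)

theorem e140 (R : VR) : B (VR.S R) (v140 R) (s140 R) :=
  lfg_is R (VR.bg R)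

noncomputable def v141 (R : VR) : ℕ :=
  Nat.lor (Nat.land (v126 R) (Nat.sub (VR.o1 R) (Nat.shiftRight (Nat.land (Nat.sub (VR.h1 R)
    (Nat.xor (Nat.mod (Nat.land (v132 R) (v133 R)) (VR.m1 R)) (v136 R))) (VR.h1 R)) (nat_lit
    15)))) (lfg R (VR.bg R))

noncomputable def s141 (R : VR) (i : ℕ) : Bool :=
  K.bor (s139 R i) (s140 R i)

theorem e141 (R : VR) : B (VR.S R) (v141 R) (s141 R) :=
  B.or (e139 R) (e140 R)

noncomputable def s142 (R : VR) (i : ℕ) : Bool :=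
  V2.bg0 R i

theorem e142 (R : VR) : B (VR.S R) (v141 R) (s142 R) :=
  e141 R

noncomputable def n_bg0 (R : VR) : ℕ :=
  (Nat.lor (Nat.land (v126 R) (Nat.sub (VR.o1 R) (Nat.shiftRight (Nat.land (Nat.sub (VR.h1 R)
    (Nat.xor (Nat.mod (Nat.land (v132 R) (v133 R)) (VR.m1 R)) (v136 R))) (VR.h1 R)) (nat_lit
    15)))) (lfg R (VR.bg R)))

theorem n_bg0_is (R : VR) : B (VR.S R) (n_bg0 R) (V2.bg0 R) :=
  e142 R

noncomputable def VR.BG0T (R : VR) : ℕ := cut R (n_bg0 R)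

theorem VR.BG0_is (R : VR) : B (VR.S R) (VR.BG0T R) (tf (VR.BG0T R)) := cutB_is (n_bg0_is R)

theorem VR.BG0_lt (R : VR) : VR.BG0T R < 65536 ^ VR.N R := cutB_lt (n_bg0_is R)

noncomputable def s143 (R : VR) (i : ℕ) : Bool :=
  tf (VR.BG0T R) i

theorem e143 (R : VR) : B (VR.S R) (VR.BG0T R) (s143 R) :=
  VR.BG0_is R

noncomputable def s144 (R : VR) (i : ℕ) : ℕ :=
  tx (VR.rhiT R) i

theorem e144 (R : VR) : L (VR.S R) (VR.rhiT R) (s144 R) 255 :=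
  VR.rhi_is R

noncomputable def v145 (R : VR) : ℕ :=
  gmk (VR.h2 R) (VR.J R) (Nat.mul (VR.rhiT R) (VR.cr1 R))

noncomputable def v146 (R : VR) : ℕ :=
  srM (VR.N R) (VR.S R) (VR.o1 R) (VR.piT R)

noncomputable def v147 (R : VR) : ℕ :=
  Nat.mod (Nat.land (v145 R) (v146 R)) (VR.m1 R)

noncomputable def s147 (R : VR) (i : ℕ) : ℕ :=
  tx (VR.piT R) (s144 R i)

theorem e147 (R : VR) : L (VR.S R) (v147 R) (s147 R) 255 :=
  L.gat (e144 R) (VR.pi_is R) (VR.pi_lt R) (VR.pi_le R)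

noncomputable def v148 (R : VR) : ℕ :=
  Nat.shiftRight (Nat.land (Nat.sub (VR.h1 R) (Nat.xor (v147 R) (VR.rhiT R))) (VR.h1 R)) (nat_lit
    15)

noncomputable def s148 (R : VR) (i : ℕ) : Bool :=
  Nat.beq (s147 R i) (s144 R i)

theorem e148 (R : VR) : B (VR.S R) (v148 R) (s148 R) :=
  L.beq (VR.h1e R) (e147 R) (e144 R)

noncomputable def v149 (R : VR) : ℕ :=
  Nat.sub (VR.o1 R) (Nat.shiftRight (Nat.land (Nat.sub (VR.h1 R) (Nat.xor (v147 R) (VR.rhiT R)))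
    (VR.h1 R)) (nat_lit 15))

noncomputable def s149 (R : VR) (i : ℕ) : Bool :=
  K.bnot (s148 R i)

theorem e149 (R : VR) : B (VR.S R) (v149 R) (s149 R) :=
  B.not (VR.o1e R) (e148 R)

noncomputable def v150 (R : VR) : ℕ :=
  gmk (VR.h2 R) (VR.J R) (Nat.mul (v147 R) (VR.cr1 R))

noncomputable def v151 (R : VR) : ℕ :=
  srM (VR.N R) (VR.S R) (VR.o1 R) (VR.rhiT R)

noncomputable def v152 (R : VR) : ℕ :=
  Nat.mod (Nat.land (gmk (VR.h2 R) (VR.J R) (Nat.mul (v147 R) (VR.cr1 R))) (v151 R)) (VR.m1 R)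

noncomputable def s152 (R : VR) (i : ℕ) : ℕ :=
  tx (VR.rhiT R) (s147 R i)

theorem e152 (R : VR) : L (VR.S R) (v152 R) (s152 R) 255 :=
  L.gat (e147 R) (VR.rhi_is R) (VR.rhi_lt R) (VR.rhi_le R)

noncomputable def v153 (R : VR) : ℕ :=
  gmk (VR.h2 R) (VR.J R) (Nat.mul (v152 R) (VR.cr1 R))

noncomputable def v154 (R : VR) : ℕ :=
  srM (VR.N R) (VR.S R) (VR.o1 R) (VR.BG0T R)

noncomputable def v155 (R : VR) : ℕ :=
  Nat.mod (Nat.land (v153 R) (v154 R)) (VR.m1 R)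

noncomputable def s155 (R : VR) (i : ℕ) : Bool :=
  tf (VR.BG0T R) (s152 R i)

theorem e155 (R : VR) : B (VR.S R) (v155 R) (s155 R) :=
  B.gat (e152 R) (VR.BG0_is R) (VR.BG0_lt R)

noncomputable def v156 (R : VR) : ℕ :=
  Nat.land (v149 R) (Nat.mod (Nat.land (v153 R) (v154 R)) (VR.m1 R))

noncomputable def s156 (R : VR) (i : ℕ) : Bool :=
  K.band (s149 R i) (s155 R i)

theorem e156 (R : VR) : B (VR.S R) (v156 R) (s156 R) :=
  B.and (e149 R) (e155 R)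

noncomputable def v157 (R : VR) : ℕ :=
  Nat.lor (VR.BG0T R) (Nat.land (v149 R) (Nat.mod (Nat.land (v153 R) (v154 R)) (VR.m1 R)))

noncomputable def s157 (R : VR) (i : ℕ) : Bool :=
  K.bor (s143 R i) (s156 R i)

theorem e157 (R : VR) : B (VR.S R) (v157 R) (s157 R) :=
  B.or (e143 R) (e156 R)

noncomputable def s158 (R : VR) (i : ℕ) : ℕ :=
  tx (VR.rhoT R) i

theorem e158 (R : VR) : L (VR.S R) (VR.rhoT R) (s158 R) 255 :=
  VR.rho_is R

noncomputable def v159 (R : VR) : ℕ :=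
  gmk (VR.h2 R) (VR.J R) (Nat.mul (VR.rhoT R) (VR.cr1 R))

noncomputable def v160 (R : VR) : ℕ :=
  Nat.mod (Nat.land (v159 R) (v146 R)) (VR.m1 R)

noncomputable def s160 (R : VR) (i : ℕ) : ℕ :=
  tx (VR.piT R) (s158 R i)

theorem e160 (R : VR) : L (VR.S R) (v160 R) (s160 R) 255 :=
  L.gat (e158 R) (VR.pi_is R) (VR.pi_lt R) (VR.pi_le R)

noncomputable def v161 (R : VR) : ℕ :=
  Nat.shiftRight (Nat.land (Nat.sub (VR.h1 R) (Nat.xor (v160 R) (VR.rhoT R))) (VR.h1 R)) (nat_lit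
    15)

noncomputable def s161 (R : VR) (i : ℕ) : Bool :=
  Nat.beq (s160 R i) (s158 R i)

theorem e161 (R : VR) : B (VR.S R) (v161 R) (s161 R) :=
  L.beq (VR.h1e R) (e160 R) (e158 R)

noncomputable def v162 (R : VR) : ℕ :=
  Nat.sub (VR.o1 R) (Nat.shiftRight (Nat.land (Nat.sub (VR.h1 R) (Nat.xor (v160 R) (VR.rhoT R)))
    (VR.h1 R)) (nat_lit 15))

noncomputable def s162 (R : VR) (i : ℕ) : Bool :=
  K.bnot (s161 R i)

theorem e162 (R : VR) : B (VR.S R) (v162 R) (s162 R) :=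
  B.not (VR.o1e R) (e161 R)

noncomputable def v163 (R : VR) : ℕ :=
  gmk (VR.h2 R) (VR.J R) (Nat.mul (v160 R) (VR.cr1 R))

noncomputable def v164 (R : VR) : ℕ :=
  srM (VR.N R) (VR.S R) (VR.o1 R) (VR.rhoT R)

noncomputable def v165 (R : VR) : ℕ :=
  Nat.mod (Nat.land (gmk (VR.h2 R) (VR.J R) (Nat.mul (v160 R) (VR.cr1 R))) (v164 R)) (VR.m1 R)

noncomputable def s165 (R : VR) (i : ℕ) : ℕ :=
  tx (VR.rhoT R) (s160 R i)

theorem e165 (R : VR) : L (VR.S R) (v165 R) (s165 R) 255 :=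
  L.gat (e160 R) (VR.rho_is R) (VR.rho_lt R) (VR.rho_le R)

noncomputable def v166 (R : VR) : ℕ :=
  gmk (VR.h2 R) (VR.J R) (Nat.mul (v165 R) (VR.cr1 R))

noncomputable def v167 (R : VR) : ℕ :=
  Nat.mod (Nat.land (gmk (VR.h2 R) (VR.J R) (Nat.mul (v165 R) (VR.cr1 R))) (v154 R)) (VR.m1 R)

noncomputable def s167 (R : VR) (i : ℕ) : Bool :=
  tf (VR.BG0T R) (s165 R i)

theorem e167 (R : VR) : B (VR.S R) (v167 R) (s167 R) :=
  B.gat (e165 R) (VR.BG0_is R) (VR.BG0_lt R)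

noncomputable def v168 (R : VR) : ℕ :=
  Nat.land (v162 R) (Nat.mod (Nat.land (gmk (VR.h2 R) (VR.J R) (Nat.mul (v165 R) (VR.cr1 R)))
    (v154 R)) (VR.m1 R))

noncomputable def s168 (R : VR) (i : ℕ) : Bool :=
  K.band (s162 R i) (s167 R i)

theorem e168 (R : VR) : B (VR.S R) (v168 R) (s168 R) :=
  B.and (e162 R) (e167 R)

noncomputable def v169 (R : VR) : ℕ :=
  Nat.lor (Nat.lor (VR.BG0T R) (Nat.land (v149 R) (Nat.mod (Nat.land (v153 R) (v154 R)) (VR.m1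
    R)))) (Nat.land (v162 R) (Nat.mod (Nat.land (gmk (VR.h2 R) (VR.J R) (Nat.mul (v165 R) (VR.cr1
    R))) (v154 R)) (VR.m1 R)))

noncomputable def s169 (R : VR) (i : ℕ) : Bool :=
  K.bor (s157 R i) (s168 R i)

theorem e169 (R : VR) : B (VR.S R) (v169 R) (s169 R) :=
  B.or (e157 R) (e168 R)

noncomputable def s170 (R : VR) (i : ℕ) : Bool :=
  K.Cf_bgx (VR.Cf R) (tf (VR.BG0T R)) i

theorem e170 (R : VR) : B (VR.S R) (v169 R) (s170 R) :=
  e169 R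

noncomputable def n_bgx (R : VR) : ℕ :=
  (Nat.lor (Nat.lor (VR.BG0T R) (Nat.land (v149 R) (Nat.mod (Nat.land (v153 R) (v154 R)) (VR.m1
    R)))) (Nat.land (v162 R) (Nat.mod (Nat.land (gmk (VR.h2 R) (VR.J R) (Nat.mul (v165 R) (VR.cr1
    R))) (v154 R)) (VR.m1 R))))

theorem n_bgx_is (R : VR) : B (VR.S R) (n_bgx R) (K.Cf_bgx (VR.Cf R) (tf (VR.BG0T R))) :=
  e170 R

noncomputable def VR.BGXT (R : VR) : ℕ := cut R (n_bgx R)

theorem VR.BGX_is (R : VR) : B (VR.S R) (VR.BGXT R) (tf (VR.BGXT R)) := cutB_is (n_bgx_is R)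

theorem VR.BGX_lt (R : VR) : VR.BGXT R < 65536 ^ VR.N R := cutB_lt (n_bgx_is R)

end Vs

end Pool.FC7
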