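import Pool.Agent.FC7.VsJ

/-! # Vector form of the static checks: generated file (vgen.py) -/

open Finset

set_option linter.all false

namespace Pool.FC7

open Pool.FC6

namespace Vs

noncomputable def s171 (R : VR) (i : ℕ) : ℕ :=
  tx (VR.phiT R) i

theorem e171 (R : VR) : L (VR.S R) (VR.phiT R) (s171 R) 255 :=
  VR.phi_is R

noncomputable def v172 (R : VR) : ℕ :=
  Nat.mul (VR.o1 R) (v112 R)

noncomputable def s172 (R : VR) (i : ℕ) : ℕ :=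
  (s112 R)

theorem e172 (R : VR) : L (VR.S R) (v172 R) (s172 R) 127 :=
  L.scl (VR.o1e R) (e112 R) (b112 R) (by decide)

noncomputable def v173 (R : VR) : ℕ :=
  Nat.shiftRight (Nat.land (Nat.sub (Nat.add (v172 R) (VR.k1 R)) (VR.phiT R)) (VR.h1 R)) (nat_lit
    15)

noncomputable def s173 (R : VR) (i : ℕ) : Bool :=
  Nat.ble (Nat.succ (s171 R i)) (s172 R i)

theorem e173 (R : VR) : B (VR.S R) (v173 R) (s173 R) :=
  L.blt (VR.h1e R) (VR.k1e R) (e171 R) (e172 R)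

noncomputable def s174 (R : VR) (i : ℕ) : ℕ :=
  tx (VR.alT R) i

theorem e174 (R : VR) : L (VR.S R) (VR.alT R) (s174 R) 255 :=
  VR.al_is R

noncomputable def v175 (R : VR) : ℕ :=
  Nat.shiftRight (Nat.land (Nat.sub (Nat.add (v172 R) (VR.k1 R)) (VR.alT R)) (VR.h1 R)) (nat_lit
    15)

noncomputable def s175 (R : VR) (i : ℕ) : Bool :=
  Nat.ble (Nat.succ (s174 R i)) (s172 R i)

theorem e175 (R : VR) : B (VR.S R) (v175 R) (s175 R) :=
  L.blt (VR.h1e R) (VR.k1e R) (e174 R) (e172 R)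

noncomputable def v176 (R : VR) : ℕ :=
  Nat.land (Nat.shiftRight (Nat.land (Nat.sub (Nat.add (v172 R) (VR.k1 R)) (VR.phiT R)) (VR.h1 R))
    (nat_lit 15)) (v175 R)

noncomputable def s176 (R : VR) (i : ℕ) : Bool :=
  K.band (s173 R i) (s175 R i)

theorem e176 (R : VR) : B (VR.S R) (v176 R) (s176 R) :=
  B.and (e173 R) (e175 R)

noncomputable def v177 (R : VR) : ℕ :=
  gmk (VR.h2 R) (VR.J R) (Nat.mul (VR.phiT R) (VR.cr1 R))

noncomputable def v178 (R : VR) : ℕ :=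
  srM (VR.N R) (VR.S R) (VR.o1 R) (VR.phiT R)

noncomputable def v179 (R : VR) : ℕ :=
  Nat.mod (Nat.land (v177 R) (v178 R)) (VR.m1 R)

noncomputable def s179 (R : VR) (i : ℕ) : ℕ :=
  tx (VR.phiT R) (s171 R i)

theorem e179 (R : VR) : L (VR.S R) (v179 R) (s179 R) 255 :=
  L.gat (e171 R) (VR.phi_is R) (VR.phi_lt R) (VR.phi_le R)

noncomputable def v180 (R : VR) : ℕ :=
  gmk (VR.h2 R) (VR.J R) (Nat.mul (v179 R) (VR.cr1 R))

noncomputable def v181 (R : VR) : ℕ :=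
  Nat.mod (Nat.land (v180 R) (v178 R)) (VR.m1 R)

noncomputable def s181 (R : VR) (i : ℕ) : ℕ :=
  tx (VR.phiT R) (s179 R i)

theorem e181 (R : VR) : L (VR.S R) (v181 R) (s181 R) 255 :=
  L.gat (e179 R) (VR.phi_is R) (VR.phi_lt R) (VR.phi_le R)

noncomputable def v182 (R : VR) : ℕ :=
  Nat.shiftRight (Nat.land (Nat.sub (VR.h1 R) (Nat.xor (Nat.mod (Nat.land (v180 R) (v178 R))
    (VR.m1 R)) (VR.iota R))) (VR.h1 R)) (nat_lit 15)

noncomputable def s182 (R : VR) (i : ℕ) : Bool :=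
  Nat.beq (s181 R i) (s0 R i)

theorem e182 (R : VR) : B (VR.S R) (v182 R) (s182 R) :=
  L.beq (VR.h1e R) (e181 R) (e0 R)

noncomputable def v183 (R : VR) : ℕ :=
  Nat.land (Nat.land (Nat.shiftRight (Nat.land (Nat.sub (Nat.add (v172 R) (VR.k1 R)) (VR.phiT R))
    (VR.h1 R)) (nat_lit 15)) (v175 R)) (Nat.shiftRight (Nat.land (Nat.sub (VR.h1 R) (Nat.xor
    (Nat.mod (Nat.land (v180 R) (v178 R)) (VR.m1 R)) (VR.iota R))) (VR.h1 R)) (nat_lit 15))

noncomputable def s183 (R : VR) (i : ℕ) : Bool :=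
  K.band (s176 R i) (s182 R i)

theorem e183 (R : VR) : B (VR.S R) (v183 R) (s183 R) :=
  B.and (e176 R) (e182 R)

noncomputable def v184 (R : VR) : ℕ :=
  Nat.shiftRight (Nat.land (Nat.sub (VR.h1 R) (Nat.xor (VR.phiT R) (VR.iota R))) (VR.h1 R))
    (nat_lit 15)

noncomputable def s184 (R : VR) (i : ℕ) : Bool :=
  Nat.beq (s171 R i) (s0 R i)

theorem e184 (R : VR) : B (VR.S R) (v184 R) (s184 R) :=
  L.beq (VR.h1e R) (e171 R) (e0 R)

noncomputable def v185 (R : VR) : ℕ :=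
  Nat.sub (VR.o1 R) (Nat.shiftRight (Nat.land (Nat.sub (VR.h1 R) (Nat.xor (VR.phiT R) (VR.iota
    R))) (VR.h1 R)) (nat_lit 15))

noncomputable def s185 (R : VR) (i : ℕ) : Bool :=
  K.bnot (s184 R i)

theorem e185 (R : VR) : B (VR.S R) (v185 R) (s185 R) :=
  B.not (VR.o1e R) (e184 R)

noncomputable def v186 (R : VR) : ℕ :=
  Nat.land (Nat.land (Nat.land (Nat.shiftRight (Nat.land (Nat.sub (Nat.add (v172 R) (VR.k1 R))
    (VR.phiT R)) (VR.h1 R)) (nat_lit 15)) (v175 R)) (Nat.shiftRight (Nat.land (Nat.sub (VR.h1 R)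
    (Nat.xor (Nat.mod (Nat.land (v180 R) (v178 R)) (VR.m1 R)) (VR.iota R))) (VR.h1 R)) (nat_lit
    15))) (Nat.sub (VR.o1 R) (Nat.shiftRight (Nat.land (Nat.sub (VR.h1 R) (Nat.xor (VR.phiT R)
    (VR.iota R))) (VR.h1 R)) (nat_lit 15)))

noncomputable def s186 (R : VR) (i : ℕ) : Bool :=
  K.band (s183 R i) (s185 R i)

theorem e186 (R : VR) : B (VR.S R) (v186 R) (s186 R) :=
  B.and (e183 R) (e185 R)

noncomputable def v187 (R : VR) : ℕ :=
  gmk (VR.h2 R) (VR.J R) (Nat.mul (VR.alT R) (VR.cr1 R))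

noncomputable def v188 (R : VR) : ℕ :=
  srM (VR.N R) (VR.S R) (VR.o1 R) (VR.alT R)

noncomputable def v189 (R : VR) : ℕ :=
  Nat.mod (Nat.land (v187 R) (v188 R)) (VR.m1 R)

noncomputable def s189 (R : VR) (i : ℕ) : ℕ :=
  tx (VR.alT R) (s174 R i)

theorem e189 (R : VR) : L (VR.S R) (v189 R) (s189 R) 255 :=
  L.gat (e174 R) (VR.al_is R) (VR.al_lt R) (VR.al_le R)

noncomputable def v190 (R : VR) : ℕ :=
  Nat.shiftRight (Nat.land (Nat.sub (VR.h1 R) (Nat.xor (Nat.mod (Nat.land (v187 R) (v188 R))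
    (VR.m1 R)) (VR.iota R))) (VR.h1 R)) (nat_lit 15)

noncomputable def s190 (R : VR) (i : ℕ) : Bool :=
  Nat.beq (s189 R i) (s0 R i)

theorem e190 (R : VR) : B (VR.S R) (v190 R) (s190 R) :=
  L.beq (VR.h1e R) (e189 R) (e0 R)

noncomputable def v191 (R : VR) : ℕ :=
  Nat.land (v186 R) (v190 R)

noncomputable def s191 (R : VR) (i : ℕ) : Bool :=
  K.band (s186 R i) (s190 R i)

theorem e191 (R : VR) : B (VR.S R) (v191 R) (s191 R) :=
  B.and (e186 R) (e190 R)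

noncomputable def v192 (R : VR) : ℕ :=
  Nat.shiftRight (Nat.land (Nat.sub (VR.h1 R) (Nat.xor (VR.alT R) (VR.iota R))) (VR.h1 R))
    (nat_lit 15)

noncomputable def s192 (R : VR) (i : ℕ) : Bool :=
  Nat.beq (s174 R i) (s0 R i)

theorem e192 (R : VR) : B (VR.S R) (v192 R) (s192 R) :=
  L.beq (VR.h1e R) (e174 R) (e0 R)

noncomputable def v193 (R : VR) : ℕ :=
  Nat.mod (Nat.land (v177 R) (v9 R)) (VR.m1 R)

noncomputable def s193 (R : VR) (i : ℕ) : ℕ :=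
  tx (VR.lT R) (s171 R i)

theorem e193 (R : VR) : L (VR.S R) (v193 R) (s193 R) 29 :=
  L.gat (e171 R) (VR.l_is R) (VR.l_lt R) (VR.l_le R)

noncomputable def v194 (R : VR) : ℕ :=
  Nat.mod (Nat.land (v187 R) (v9 R)) (VR.m1 R)

noncomputable def s194 (R : VR) (i : ℕ) : ℕ :=
  tx (VR.lT R) (s174 R i)

theorem e194 (R : VR) : L (VR.S R) (v194 R) (s194 R) 29 :=
  L.gat (e174 R) (VR.l_is R) (VR.l_lt R) (VR.l_le R)

noncomputable def v195 (R : VR) : ℕ :=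
  Nat.shiftRight (Nat.land (Nat.sub (VR.h1 R) (Nat.xor (v193 R) (Nat.mod (Nat.land (v187 R) (v9
    R)) (VR.m1 R)))) (VR.h1 R)) (nat_lit 15)

noncomputable def s195 (R : VR) (i : ℕ) : Bool :=
  Nat.beq (s193 R i) (s194 R i)

theorem e195 (R : VR) : B (VR.S R) (v195 R) (s195 R) :=
  L.beq (VR.h1e R) (e193 R) (e194 R)

noncomputable def v196 (R : VR) : ℕ :=
  Nat.lor (v192 R) (Nat.shiftRight (Nat.land (Nat.sub (VR.h1 R) (Nat.xor (v193 R) (Nat.mod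
    (Nat.land (v187 R) (v9 R)) (VR.m1 R)))) (VR.h1 R)) (nat_lit 15))

noncomputable def s196 (R : VR) (i : ℕ) : Bool :=
  K.bor (s192 R i) (s195 R i)

theorem e196 (R : VR) : B (VR.S R) (v196 R) (s196 R) :=
  B.or (e192 R) (e195 R)

noncomputable def v197 (R : VR) : ℕ :=
  Nat.land (Nat.land (v186 R) (v190 R)) (Nat.lor (v192 R) (Nat.shiftRight (Nat.land (Nat.sub
    (VR.h1 R) (Nat.xor (v193 R) (Nat.mod (Nat.land (v187 R) (v9 R)) (VR.m1 R)))) (VR.h1 R))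
    (nat_lit 15)))

noncomputable def s197 (R : VR) (i : ℕ) : Bool :=
  K.band (s191 R i) (s196 R i)

theorem e197 (R : VR) : B (VR.S R) (v197 R) (s197 R) :=
  B.and (e191 R) (e196 R)

noncomputable def v198 (R : VR) : Bool :=
  Nat.beq (Nat.land (Nat.sub (VR.o1 R) (Nat.land (Nat.land (v186 R) (v190 R)) (Nat.lor (v192 R)
    (Nat.shiftRight (Nat.land (Nat.sub (VR.h1 R) (Nat.xor (v193 R) (Nat.mod (Nat.land (v187 R) (v9
    R)) (VR.m1 R)))) (VR.h1 R)) (nat_lit 15))))) (mM (v112 R))) (nat_lit 0)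

noncomputable def s198 (R : VR) : Bool :=
  K.allN (s112 R) (s197 R)

theorem e198 (R : VR) : (v198 R) = s198 R :=
  all0 (e197 R) (VR.n_le R)

noncomputable def s199 (R : VR) : Bool :=
  K.allN (s112 R) (fun (x8 : ℕ) => (K.band (K.band (K.band (K.band (K.band (Nat.ble (Nat.succ
    (FC6.Pa.φ (VR.P R) x8)) (FC6.Pa.n (VR.P R))) (Nat.ble (Nat.succ (FC6.Pa.α (VR.P R) x8))
    (FC6.Pa.n (VR.P R)))) (Nat.beq (FC6.Pa.φ (VR.P R) (FC6.Pa.φ (VR.P R) (FC6.Pa.φ (VR.P R) x8)))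
    x8)) (K.bnot (Nat.beq (FC6.Pa.φ (VR.P R) x8) x8))) (Nat.beq (FC6.Pa.α (VR.P R) (FC6.Pa.α (VR.P
    R) x8)) x8)) (K.bor (Nat.beq (FC6.Pa.α (VR.P R) x8) x8) (Nat.beq (FC6.Pa.l (VR.P R) (FC6.Pa.φ
    (VR.P R) x8)) (FC6.Pa.l (VR.P R) (FC6.Pa.α (VR.P R) x8))))))

theorem e199 (R : VR) : (v198 R) = s199 R :=
  e198 R

noncomputable def s200 (R : VR) : Bool :=
  K.Pa_good (VR.P R)

theorem e200 (R : VR) : (v198 R) = s200 R :=
  e199 R

noncomputable def v201 (R : VR) : ℕ :=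
  VR.ns R

noncomputable def s201 (R : VR) : ℕ :=
  VR.ns R

theorem e201 (R : VR) : (v201 R) = s201 R :=
  rfl

theorem b201 (R : VR) : s201 R ≤ 127 :=
  VR.ns_b R

noncomputable def v202 (R : VR) : ℕ :=
  Nat.mul (VR.o1 R) (v201 R)

noncomputable def s202 (R : VR) (i : ℕ) : ℕ :=
  (s201 R)

theorem e202 (R : VR) : L (VR.S R) (v202 R) (s202 R) 127 :=
  L.scl (VR.o1e R) (e201 R) (b201 R) (by decide)

noncomputable def v203 (R : VR) : ℕ :=
  Nat.shiftRight (Nat.land (Nat.sub (Nat.add (v202 R) (VR.k1 R)) (VR.rhoT R)) (VR.h1 R)) (nat_lit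
    15)

noncomputable def s203 (R : VR) (i : ℕ) : Bool :=
  Nat.ble (Nat.succ (s158 R i)) (s202 R i)

theorem e203 (R : VR) : B (VR.S R) (v203 R) (s203 R) :=
  L.blt (VR.h1e R) (VR.k1e R) (e158 R) (e202 R)

noncomputable def v204 (R : VR) : ℕ :=
  Nat.shiftRight (Nat.land (Nat.sub (Nat.add (v202 R) (VR.k1 R)) (VR.rhiT R)) (VR.h1 R)) (nat_lit
    15)

noncomputable def s204 (R : VR) (i : ℕ) : Bool :=
  Nat.ble (Nat.succ (s144 R i)) (s202 R i)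

theorem e204 (R : VR) : B (VR.S R) (v204 R) (s204 R) :=
  L.blt (VR.h1e R) (VR.k1e R) (e144 R) (e202 R)

noncomputable def v205 (R : VR) : ℕ :=
  Nat.land (Nat.shiftRight (Nat.land (Nat.sub (Nat.add (v202 R) (VR.k1 R)) (VR.rhoT R)) (VR.h1 R))
    (nat_lit 15)) (Nat.shiftRight (Nat.land (Nat.sub (Nat.add (v202 R) (VR.k1 R)) (VR.rhiT R))
    (VR.h1 R)) (nat_lit 15))

noncomputable def s205 (R : VR) (i : ℕ) : Bool :=
  K.band (s203 R i) (s204 R i)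

theorem e205 (R : VR) : B (VR.S R) (v205 R) (s205 R) :=
  B.and (e203 R) (e204 R)

noncomputable def v206 (R : VR) : ℕ :=
  Nat.mod (Nat.land (v145 R) (v164 R)) (VR.m1 R)

noncomputable def s206 (R : VR) (i : ℕ) : ℕ :=
  tx (VR.rhoT R) (s144 R i)

theorem e206 (R : VR) : L (VR.S R) (v206 R) (s206 R) 255 :=
  L.gat (e144 R) (VR.rho_is R) (VR.rho_lt R) (VR.rho_le R)

noncomputable def v207 (R : VR) : ℕ :=
  Nat.shiftRight (Nat.land (Nat.sub (VR.h1 R) (Nat.xor (Nat.mod (Nat.land (v145 R) (v164 R))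
    (VR.m1 R)) (VR.iota R))) (VR.h1 R)) (nat_lit 15)

noncomputable def s207 (R : VR) (i : ℕ) : Bool :=
  Nat.beq (s206 R i) (s0 R i)

theorem e207 (R : VR) : B (VR.S R) (v207 R) (s207 R) :=
  L.beq (VR.h1e R) (e206 R) (e0 R)

noncomputable def v208 (R : VR) : ℕ :=
  Nat.land (Nat.land (Nat.shiftRight (Nat.land (Nat.sub (Nat.add (v202 R) (VR.k1 R)) (VR.rhoT R))
    (VR.h1 R)) (nat_lit 15)) (Nat.shiftRight (Nat.land (Nat.sub (Nat.add (v202 R) (VR.k1 R))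
    (VR.rhiT R)) (VR.h1 R)) (nat_lit 15))) (Nat.shiftRight (Nat.land (Nat.sub (VR.h1 R) (Nat.xor
    (Nat.mod (Nat.land (v145 R) (v164 R)) (VR.m1 R)) (VR.iota R))) (VR.h1 R)) (nat_lit 15))

noncomputable def s208 (R : VR) (i : ℕ) : Bool :=
  K.band (s205 R i) (s207 R i)

theorem e208 (R : VR) : B (VR.S R) (v208 R) (s208 R) :=
  B.and (e205 R) (e207 R)

noncomputable def v209 (R : VR) : ℕ :=
  Nat.mod (Nat.land (v159 R) (v151 R)) (VR.m1 R)

noncomputable def s209 (R : VR) (i : ℕ) : ℕ :=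
  tx (VR.rhiT R) (s158 R i)

theorem e209 (R : VR) : L (VR.S R) (v209 R) (s209 R) 255 :=
  L.gat (e158 R) (VR.rhi_is R) (VR.rhi_lt R) (VR.rhi_le R)

noncomputable def v210 (R : VR) : ℕ :=
  Nat.shiftRight (Nat.land (Nat.sub (VR.h1 R) (Nat.xor (Nat.mod (Nat.land (v159 R) (v151 R))
    (VR.m1 R)) (VR.iota R))) (VR.h1 R)) (nat_lit 15)

noncomputable def s210 (R : VR) (i : ℕ) : Bool :=
  Nat.beq (s209 R i) (s0 R i)

theorem e210 (R : VR) : B (VR.S R) (v210 R) (s210 R) :=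
  L.beq (VR.h1e R) (e209 R) (e0 R)

noncomputable def v211 (R : VR) : ℕ :=
  Nat.land (Nat.land (Nat.land (Nat.shiftRight (Nat.land (Nat.sub (Nat.add (v202 R) (VR.k1 R))
    (VR.rhoT R)) (VR.h1 R)) (nat_lit 15)) (Nat.shiftRight (Nat.land (Nat.sub (Nat.add (v202 R)
    (VR.k1 R)) (VR.rhiT R)) (VR.h1 R)) (nat_lit 15))) (Nat.shiftRight (Nat.land (Nat.sub (VR.h1 R)
    (Nat.xor (Nat.mod (Nat.land (v145 R) (v164 R)) (VR.m1 R)) (VR.iota R))) (VR.h1 R)) (nat_lit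
    15))) (Nat.shiftRight (Nat.land (Nat.sub (VR.h1 R) (Nat.xor (Nat.mod (Nat.land (v159 R) (v151
    R)) (VR.m1 R)) (VR.iota R))) (VR.h1 R)) (nat_lit 15))

noncomputable def s211 (R : VR) (i : ℕ) : Bool :=
  K.band (s208 R i) (s210 R i)

theorem e211 (R : VR) : B (VR.S R) (v211 R) (s211 R) :=
  B.and (e208 R) (e210 R)

noncomputable def v212 (R : VR) : ℕ :=
  Nat.shiftRight (Nat.land (Nat.sub (Nat.add (v202 R) (VR.k1 R)) (VR.piT R)) (VR.h1 R)) (nat_lit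
    15)

noncomputable def s212 (R : VR) (i : ℕ) : Bool :=
  Nat.ble (Nat.succ (s124 R i)) (s202 R i)

theorem e212 (R : VR) : B (VR.S R) (v212 R) (s212 R) :=
  L.blt (VR.h1e R) (VR.k1e R) (e124 R) (e202 R)

noncomputable def v213 (R : VR) : ℕ :=
  Nat.land (v211 R) (Nat.shiftRight (Nat.land (Nat.sub (Nat.add (v202 R) (VR.k1 R)) (VR.piT R))
    (VR.h1 R)) (nat_lit 15))

noncomputable def s213 (R : VR) (i : ℕ) : Bool :=
  K.band (s211 R i) (s212 R i)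

theorem e213 (R : VR) : B (VR.S R) (v213 R) (s213 R) :=
  B.and (e211 R) (e212 R)

noncomputable def v214 (R : VR) : ℕ :=
  Nat.mod (Nat.land (v128 R) (v146 R)) (VR.m1 R)

noncomputable def s214 (R : VR) (i : ℕ) : ℕ :=
  tx (VR.piT R) (s124 R i)

theorem e214 (R : VR) : L (VR.S R) (v214 R) (s214 R) 255 :=
  L.gat (e124 R) (VR.pi_is R) (VR.pi_lt R) (VR.pi_le R)

noncomputable def v215 (R : VR) : ℕ :=
  Nat.shiftRight (Nat.land (Nat.sub (VR.h1 R) (Nat.xor (Nat.mod (Nat.land (v128 R) (v146 R))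
    (VR.m1 R)) (VR.iota R))) (VR.h1 R)) (nat_lit 15)

noncomputable def s215 (R : VR) (i : ℕ) : Bool :=
  Nat.beq (s214 R i) (s0 R i)

theorem e215 (R : VR) : B (VR.S R) (v215 R) (s215 R) :=
  L.beq (VR.h1e R) (e214 R) (e0 R)

noncomputable def v216 (R : VR) : ℕ :=
  Nat.land (Nat.land (v211 R) (Nat.shiftRight (Nat.land (Nat.sub (Nat.add (v202 R) (VR.k1 R))
    (VR.piT R)) (VR.h1 R)) (nat_lit 15))) (Nat.shiftRight (Nat.land (Nat.sub (VR.h1 R) (Nat.xor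
    (Nat.mod (Nat.land (v128 R) (v146 R)) (VR.m1 R)) (VR.iota R))) (VR.h1 R)) (nat_lit 15))

noncomputable def s216 (R : VR) (i : ℕ) : Bool :=
  K.band (s213 R i) (s215 R i)

theorem e216 (R : VR) : B (VR.S R) (v216 R) (s216 R) :=
  B.and (e213 R) (e215 R)

noncomputable def s217 (R : VR) (i : ℕ) : ℕ :=
  tx (VR.nf0T R) i

theorem e217 (R : VR) : L (VR.S R) (VR.nf0T R) (s217 R) 255 :=
  VR.nf0_is R

noncomputable def s218 (R : VR) (i : ℕ) : ℕ :=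
  (FC6.Sp.nf (VR.Q R)) (s23 R) i

theorem e218 (R : VR) : L (VR.S R) (VR.nf0T R) (s218 R) 255 :=
  e217 R

noncomputable def v219 (R : VR) : ℕ :=
  gmk (VR.h2 R) (VR.J R) (Nat.mul (VR.nf0T R) (VR.cr1 R))

noncomputable def v220 (R : VR) : ℕ :=
  Nat.mod (Nat.land (v219 R) (v9 R)) (VR.m1 R)

noncomputable def s220 (R : VR) (i : ℕ) : ℕ :=
  tx (VR.lT R) (s218 R i)

theorem e220 (R : VR) : L (VR.S R) (v220 R) (s220 R) 29 :=
  L.gat (e218 R) (VR.l_is R) (VR.l_lt R) (VR.l_le R)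

noncomputable def s221 (R : VR) (i : ℕ) : Bool :=
  tf (VR.cxT R) i

theorem e221 (R : VR) : B (VR.S R) (VR.cxT R) (s221 R) :=
  VR.cx_is R

noncomputable def v222 (R : VR) : ℕ :=
  gmk (VR.h2 R) (VR.J R) (Nat.mul (v220 R) (VR.cr1 R))

noncomputable def v223 (R : VR) : ℕ :=
  srM (VR.N R) (VR.S R) (VR.o1 R) (VR.cxT R)

noncomputable def v224 (R : VR) : ℕ :=
  Nat.mod (Nat.land (gmk (VR.h2 R) (VR.J R) (Nat.mul (v220 R) (VR.cr1 R))) (v223 R)) (VR.m1 R)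

noncomputable def s224 (R : VR) (i : ℕ) : Bool :=
  tf (VR.cxT R) (s220 R i)

theorem e224 (R : VR) : B (VR.S R) (v224 R) (s224 R) :=
  B.gat (e220 R) (VR.cx_is R) (VR.cx_lt R)

noncomputable def v225 (R : VR) : ℕ :=
  Nat.land (Nat.land (Nat.land (v211 R) (Nat.shiftRight (Nat.land (Nat.sub (Nat.add (v202 R)
    (VR.k1 R)) (VR.piT R)) (VR.h1 R)) (nat_lit 15))) (Nat.shiftRight (Nat.land (Nat.sub (VR.h1 R)
    (Nat.xor (Nat.mod (Nat.land (v128 R) (v146 R)) (VR.m1 R)) (VR.iota R))) (VR.h1 R)) (nat_lit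
    15))) (Nat.mod (Nat.land (gmk (VR.h2 R) (VR.J R) (Nat.mul (v220 R) (VR.cr1 R))) (v223 R))
    (VR.m1 R))

noncomputable def s225 (R : VR) (i : ℕ) : Bool :=
  K.band (s216 R i) (s224 R i)

theorem e225 (R : VR) : B (VR.S R) (v225 R) (s225 R) :=
  B.and (e216 R) (e224 R)

noncomputable def v226 (R : VR) : ℕ :=
  (nat_lit 1)

noncomputable def s226 (R : VR) : ℕ :=
  (nat_lit 1)

theorem e226 (R : VR) : (v226 R) = s226 R :=
  rfl

noncomputable def s227 (R : VR) (i : ℕ) : ℕ :=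
  (FC6.Sp.nf (VR.Q R)) (s226 R) i

theorem e227 (R : VR) : L (VR.S R) (VR.nf1T R) (s227 R) 255 :=
  e3 R

noncomputable def v228 (R : VR) : ℕ :=
  gmk (VR.h2 R) (VR.J R) (Nat.mul (VR.nf1T R) (VR.cr1 R))

noncomputable def v229 (R : VR) : ℕ :=
  Nat.mod (Nat.land (v228 R) (v9 R)) (VR.m1 R)

noncomputable def s229 (R : VR) (i : ℕ) : ℕ :=
  tx (VR.lT R) (s227 R i)

theorem e229 (R : VR) : L (VR.S R) (v229 R) (s229 R) 29 :=
  L.gat (e227 R) (VR.l_is R) (VR.l_lt R) (VR.l_le R)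

noncomputable def v230 (R : VR) : ℕ :=
  gmk (VR.h2 R) (VR.J R) (Nat.mul (Nat.mod (Nat.land (v228 R) (v9 R)) (VR.m1 R)) (VR.cr1 R))

noncomputable def v231 (R : VR) : ℕ :=
  Nat.mod (Nat.land (gmk (VR.h2 R) (VR.J R) (Nat.mul (Nat.mod (Nat.land (v228 R) (v9 R)) (VR.m1
    R)) (VR.cr1 R))) (v223 R)) (VR.m1 R)

noncomputable def s231 (R : VR) (i : ℕ) : Bool :=
  tf (VR.cxT R) (s229 R i)

theorem e231 (R : VR) : B (VR.S R) (v231 R) (s231 R) :=
  B.gat (e229 R) (VR.cx_is R) (VR.cx_lt R)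

noncomputable def v232 (R : VR) : ℕ :=
  Nat.sub (VR.o1 R) (Nat.mod (Nat.land (gmk (VR.h2 R) (VR.J R) (Nat.mul (Nat.mod (Nat.land (v228
    R) (v9 R)) (VR.m1 R)) (VR.cr1 R))) (v223 R)) (VR.m1 R))

noncomputable def s232 (R : VR) (i : ℕ) : Bool :=
  K.bnot (s231 R i)

theorem e232 (R : VR) : B (VR.S R) (v232 R) (s232 R) :=
  B.not (VR.o1e R) (e231 R)

noncomputable def v233 (R : VR) : ℕ :=
  Nat.lor (v126 R) (Nat.sub (VR.o1 R) (Nat.mod (Nat.land (gmk (VR.h2 R) (VR.J R) (Nat.mul (Nat.mod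
    (Nat.land (v228 R) (v9 R)) (VR.m1 R)) (VR.cr1 R))) (v223 R)) (VR.m1 R)))

noncomputable def s233 (R : VR) (i : ℕ) : Bool :=
  K.bor (s126 R i) (s232 R i)

theorem e233 (R : VR) : B (VR.S R) (v233 R) (s233 R) :=
  B.or (e126 R) (e232 R)

noncomputable def v234 (R : VR) : ℕ :=
  Nat.land (Nat.land (Nat.land (Nat.land (v211 R) (Nat.shiftRight (Nat.land (Nat.sub (Nat.add
    (v202 R) (VR.k1 R)) (VR.piT R)) (VR.h1 R)) (nat_lit 15))) (Nat.shiftRight (Nat.land (Nat.sub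
    (VR.h1 R) (Nat.xor (Nat.mod (Nat.land (v128 R) (v146 R)) (VR.m1 R)) (VR.iota R))) (VR.h1 R))
    (nat_lit 15))) (Nat.mod (Nat.land (gmk (VR.h2 R) (VR.J R) (Nat.mul (v220 R) (VR.cr1 R))) (v223
    R)) (VR.m1 R))) (Nat.lor (v126 R) (Nat.sub (VR.o1 R) (Nat.mod (Nat.land (gmk (VR.h2 R) (VR.J
    R) (Nat.mul (Nat.mod (Nat.land (v228 R) (v9 R)) (VR.m1 R)) (VR.cr1 R))) (v223 R)) (VR.m1 R))))

noncomputable def s234 (R : VR) (i : ℕ) : Bool :=
  K.band (s225 R i) (s233 R i)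

theorem e234 (R : VR) : B (VR.S R) (v234 R) (s234 R) :=
  B.and (e225 R) (e233 R)

noncomputable def v235 (R : VR) : ℕ :=
  srM (VR.N R) (VR.S R) (VR.o1 R) (VR.nf0T R)

noncomputable def v236 (R : VR) : ℕ :=
  Nat.mod (Nat.land (v159 R) (v235 R)) (VR.m1 R)

noncomputable def s236 (R : VR) (i : ℕ) : ℕ :=
  tx (VR.nf0T R) (s158 R i)

theorem e236 (R : VR) : L (VR.S R) (v236 R) (s236 R) 255 :=
  L.gat (e158 R) (VR.nf0_is R) (VR.nf0_lt R) (VR.nf0_le R)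

noncomputable def s237 (R : VR) (i : ℕ) : ℕ :=
  (FC6.Sp.nf (VR.Q R)) (s23 R) (s158 R i)

theorem e237 (R : VR) : L (VR.S R) (v236 R) (s237 R) 255 :=
  e236 R

noncomputable def v238 (R : VR) : ℕ :=
  gmk (VR.h2 R) (VR.J R) (Nat.mul (Nat.mod (Nat.land (v159 R) (v235 R)) (VR.m1 R)) (VR.cr1 R))

noncomputable def v239 (R : VR) : ℕ :=
  Nat.mod (Nat.land (gmk (VR.h2 R) (VR.J R) (Nat.mul (Nat.mod (Nat.land (v159 R) (v235 R)) (VR.m1
    R)) (VR.cr1 R))) (v9 R)) (VR.m1 R)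

noncomputable def s239 (R : VR) (i : ℕ) : ℕ :=
  tx (VR.lT R) (s237 R i)

theorem e239 (R : VR) : L (VR.S R) (v239 R) (s239 R) 29 :=
  L.gat (e237 R) (VR.l_is R) (VR.l_lt R) (VR.l_le R)

noncomputable def v240 (R : VR) : ℕ :=
  Nat.shiftRight (Nat.land (Nat.sub (VR.h1 R) (Nat.xor (Nat.mod (Nat.land (gmk (VR.h2 R) (VR.J R)
    (Nat.mul (Nat.mod (Nat.land (v159 R) (v235 R)) (VR.m1 R)) (VR.cr1 R))) (v9 R)) (VR.m1 R))
    (v220 R))) (VR.h1 R)) (nat_lit 15)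

noncomputable def s240 (R : VR) (i : ℕ) : Bool :=
  Nat.beq (s239 R i) (s220 R i)

theorem e240 (R : VR) : B (VR.S R) (v240 R) (s240 R) :=
  L.beq (VR.h1e R) (e239 R) (e220 R)

noncomputable def v241 (R : VR) : ℕ :=
  Nat.land (v234 R) (Nat.shiftRight (Nat.land (Nat.sub (VR.h1 R) (Nat.xor (Nat.mod (Nat.land (gmk
    (VR.h2 R) (VR.J R) (Nat.mul (Nat.mod (Nat.land (v159 R) (v235 R)) (VR.m1 R)) (VR.cr1 R))) (v9
    R)) (VR.m1 R)) (v220 R))) (VR.h1 R)) (nat_lit 15))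

noncomputable def s241 (R : VR) (i : ℕ) : Bool :=
  K.band (s234 R i) (s240 R i)

theorem e241 (R : VR) : B (VR.S R) (v241 R) (s241 R) :=
  B.and (e234 R) (e240 R)

noncomputable def v242 (R : VR) : ℕ :=
  (nat_lit 3)

noncomputable def s242 (R : VR) : ℕ :=
  (nat_lit 3)

theorem e242 (R : VR) : (v242 R) = s242 R :=
  rfl

noncomputable def v243 (R : VR) : ℕ :=
  Nat.shiftRight (Nat.land (Nat.sub (Nat.add (v172 R) (VR.k1 R)) (VR.nf0T R)) (VR.h1 R)) (nat_lit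
    15)

noncomputable def s243 (R : VR) (i : ℕ) : Bool :=
  Nat.ble (Nat.succ (s218 R i)) (s172 R i)

theorem e243 (R : VR) : B (VR.S R) (v243 R) (s243 R) :=
  L.blt (VR.h1e R) (VR.k1e R) (e218 R) (e172 R)

noncomputable def s244 (R : VR) (i : ℕ) : ℕ :=
  tx (VR.rkT R) i

theorem e244 (R : VR) : L (VR.S R) (VR.rkT R) (s244 R) 255 :=
  VR.rk_is R

noncomputable def v245 (R : VR) : ℕ :=
  srM (VR.N R) (VR.S R) (VR.o1 R) (VR.rkT R)

noncomputable def v246 (R : VR) : ℕ :=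
  Nat.mod (Nat.land (v219 R) (v245 R)) (VR.m1 R)

noncomputable def s246 (R : VR) (i : ℕ) : ℕ :=
  tx (VR.rkT R) (s218 R i)

theorem e246 (R : VR) : L (VR.S R) (v246 R) (s246 R) 255 :=
  L.gat (e218 R) (VR.rk_is R) (VR.rk_lt R) (VR.rk_le R)

noncomputable def s247 (R : VR) (i : ℕ) : ℕ :=
  tx (VR.rjT R) i

theorem e247 (R : VR) : L (VR.S R) (VR.rjT R) (s247 R) 255 :=
  VR.rj_is R

noncomputable def v248 (R : VR) : ℕ :=
  srM (VR.N R) (VR.S R) (VR.o1 R) (VR.rjT R)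

noncomputable def v249 (R : VR) : ℕ :=
  Nat.mod (Nat.land (v219 R) (v248 R)) (VR.m1 R)

noncomputable def s249 (R : VR) (i : ℕ) : ℕ :=
  tx (VR.rjT R) (s218 R i)

theorem e249 (R : VR) : L (VR.S R) (v249 R) (s249 R) 255 :=
  L.gat (e218 R) (VR.rj_is R) (VR.rj_lt R) (VR.rj_le R)

noncomputable def v250 (R : VR) : ℕ :=
  Nat.shiftRight (Nat.land (Nat.sub (VR.h1 R) (v246 R)) (VR.h1 R)) (nat_lit 15)

noncomputable def s250 (R : VR) (i : ℕ) : Bool :=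
  Nat.beq (s246 R i) (nat_lit 0)

theorem e250 (R : VR) : B (VR.S R) (v250 R) (s250 R) :=
  L.ez (VR.h1e R) (e246 R)

noncomputable def v251 (R : VR) : ℕ :=
  Nat.shiftRight (Nat.land (Nat.sub (VR.h1 R) (Nat.xor (v249 R) (VR.iota R))) (VR.h1 R)) (nat_lit
    15)

noncomputable def s251 (R : VR) (i : ℕ) : Bool :=
  Nat.beq (s249 R i) (s0 R i)

theorem e251 (R : VR) : B (VR.S R) (v251 R) (s251 R) :=
  L.beq (VR.h1e R) (e249 R) (e0 R)

noncomputable def v252 (R : VR) : ℕ :=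
  Nat.land (v250 R) (Nat.shiftRight (Nat.land (Nat.sub (VR.h1 R) (Nat.xor (v249 R) (VR.iota R)))
    (VR.h1 R)) (nat_lit 15))

noncomputable def s252 (R : VR) (i : ℕ) : Bool :=
  K.band (s250 R i) (s251 R i)

theorem e252 (R : VR) : B (VR.S R) (v252 R) (s252 R) :=
  B.and (e250 R) (e251 R)

noncomputable def v253 (R : VR) : Bool :=
  false

noncomputable def s253 (R : VR) : Bool :=
  Nat.beq (s23 R) (s226 R)

theorem e253 (R : VR) : (v253 R) = s253 R :=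
  rfl

noncomputable def v254 (R : VR) : ℕ :=
  Bool.rec (motive := fun _ => ℕ) (nat_lit 0) (v250 R) (false)

noncomputable def s254 (R : VR) (i : ℕ) : Bool :=
  K.band (s253 R) (s250 R i)

theorem e254 (R : VR) : B (VR.S R) (v254 R) (s254 R) :=
  B.gand (e253 R) (e250 R)

noncomputable def v255 (R : VR) : ℕ :=
  Nat.land (Bool.rec (motive := fun _ => ℕ) (nat_lit 0) (v250 R) (false)) (v126 R)

noncomputable def s255 (R : VR) (i : ℕ) : Bool :=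
  K.band (s254 R i) (s126 R i)

theorem e255 (R : VR) : B (VR.S R) (v255 R) (s255 R) :=
  B.and (e254 R) (e126 R)

noncomputable def v256 (R : VR) : ℕ :=
  Nat.shiftRight (Nat.land (Nat.sub (VR.h1 R) (Nat.xor (v249 R) (VR.piT R))) (VR.h1 R)) (nat_lit
    15)

noncomputable def s256 (R : VR) (i : ℕ) : Bool :=
  Nat.beq (s249 R i) (s124 R i)

theorem e256 (R : VR) : B (VR.S R) (v256 R) (s256 R) :=
  L.beq (VR.h1e R) (e249 R) (e124 R)

noncomputable def v257 (R : VR) : ℕ :=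
  Nat.land (Nat.land (Bool.rec (motive := fun _ => ℕ) (nat_lit 0) (v250 R) (false)) (v126 R))
    (Nat.shiftRight (Nat.land (Nat.sub (VR.h1 R) (Nat.xor (v249 R) (VR.piT R))) (VR.h1 R))
    (nat_lit 15))

noncomputable def s257 (R : VR) (i : ℕ) : Bool :=
  K.band (s255 R i) (s256 R i)

theorem e257 (R : VR) : B (VR.S R) (v257 R) (s257 R) :=
  B.and (e255 R) (e256 R)

noncomputable def v258 (R : VR) : ℕ :=
  Nat.lor (Nat.land (v250 R) (Nat.shiftRight (Nat.land (Nat.sub (VR.h1 R) (Nat.xor (v249 R)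
    (VR.iota R))) (VR.h1 R)) (nat_lit 15))) (Nat.land (Nat.land (Bool.rec (motive := fun _ => ℕ)
    (nat_lit 0) (v250 R) (false)) (v126 R)) (Nat.shiftRight (Nat.land (Nat.sub (VR.h1 R) (Nat.xor
    (v249 R) (VR.piT R))) (VR.h1 R)) (nat_lit 15)))

noncomputable def s258 (R : VR) (i : ℕ) : Bool :=
  K.bor (s252 R i) (s257 R i)

theorem e258 (R : VR) : B (VR.S R) (v258 R) (s258 R) :=
  B.or (e252 R) (e257 R)

noncomputable def v259 (R : VR) : ℕ :=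
  (nat_lit 2)

noncomputable def s259 (R : VR) : ℕ :=
  (nat_lit 2)

theorem e259 (R : VR) : (v259 R) = s259 R :=
  rfl

noncomputable def v260 (R : VR) : Bool :=
  false

noncomputable def s260 (R : VR) : Bool :=
  Nat.beq (s23 R) (s259 R)

theorem e260 (R : VR) : (v260 R) = s260 R :=
  rfl

noncomputable def v261 (R : VR) : ℕ :=
  Bool.rec (motive := fun _ => ℕ) (nat_lit 0) (v250 R) (v260 R)

noncomputable def s261 (R : VR) (i : ℕ) : Bool :=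
  K.band (s260 R) (s250 R i)

theorem e261 (R : VR) : B (VR.S R) (v261 R) (s261 R) :=
  B.gand (e260 R) (e250 R)

noncomputable def v262 (R : VR) : ℕ :=
  Nat.land (Bool.rec (motive := fun _ => ℕ) (nat_lit 0) (v250 R) (v260 R)) (v126 R)

noncomputable def s262 (R : VR) (i : ℕ) : Bool :=
  K.band (s261 R i) (s126 R i)

theorem e262 (R : VR) : B (VR.S R) (v262 R) (s262 R) :=
  B.and (e261 R) (e126 R)

noncomputable def v263 (R : VR) : ℕ :=
  Nat.mod (Nat.land (v128 R) (v164 R)) (VR.m1 R)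

noncomputable def s263 (R : VR) (i : ℕ) : ℕ :=
  tx (VR.rhoT R) (s124 R i)

theorem e263 (R : VR) : L (VR.S R) (v263 R) (s263 R) 255 :=
  L.gat (e124 R) (VR.rho_is R) (VR.rho_lt R) (VR.rho_le R)

noncomputable def v264 (R : VR) : ℕ :=
  Nat.shiftRight (Nat.land (Nat.sub (VR.h1 R) (Nat.xor (v249 R) (v263 R))) (VR.h1 R)) (nat_lit 15)

noncomputable def s264 (R : VR) (i : ℕ) : Bool :=
  Nat.beq (s249 R i) (s263 R i)

theorem e264 (R : VR) : B (VR.S R) (v264 R) (s264 R) :=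
  L.beq (VR.h1e R) (e249 R) (e263 R)

noncomputable def v265 (R : VR) : ℕ :=
  Nat.land (Nat.land (Bool.rec (motive := fun _ => ℕ) (nat_lit 0) (v250 R) (v260 R)) (v126 R))
    (Nat.shiftRight (Nat.land (Nat.sub (VR.h1 R) (Nat.xor (v249 R) (v263 R))) (VR.h1 R)) (nat_lit
    15))

noncomputable def s265 (R : VR) (i : ℕ) : Bool :=
  K.band (s262 R i) (s264 R i)

theorem e265 (R : VR) : B (VR.S R) (v265 R) (s265 R) :=
  B.and (e262 R) (e264 R)

noncomputable def v266 (R : VR) : ℕ :=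
  Nat.lor (Nat.lor (Nat.land (v250 R) (Nat.shiftRight (Nat.land (Nat.sub (VR.h1 R) (Nat.xor (v249
    R) (VR.iota R))) (VR.h1 R)) (nat_lit 15))) (Nat.land (Nat.land (Bool.rec (motive := fun _ =>
    ℕ) (nat_lit 0) (v250 R) (false)) (v126 R)) (Nat.shiftRight (Nat.land (Nat.sub (VR.h1 R)
    (Nat.xor (v249 R) (VR.piT R))) (VR.h1 R)) (nat_lit 15)))) (Nat.land (Nat.land (Bool.rec
    (motive := fun _ => ℕ) (nat_lit 0) (v250 R) (v260 R)) (v126 R)) (Nat.shiftRight (Nat.land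
    (Nat.sub (VR.h1 R) (Nat.xor (v249 R) (v263 R))) (VR.h1 R)) (nat_lit 15)))

noncomputable def s266 (R : VR) (i : ℕ) : Bool :=
  K.bor (s258 R i) (s265 R i)

theorem e266 (R : VR) : B (VR.S R) (v266 R) (s266 R) :=
  B.or (e258 R) (e265 R)

noncomputable def v267 (R : VR) : ℕ :=
  Nat.mul (VR.o1 R) (v226 R)

noncomputable def s267 (R : VR) (i : ℕ) : ℕ :=
  (s226 R)

theorem e267 (R : VR) : L (VR.S R) (v267 R) (s267 R) 1 :=
  L.scl (VR.o1e R) (e226 R) (le_of_eq (rfl : s226 R = (nat_lit 1))) (by decide)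

noncomputable def v268 (R : VR) : ℕ :=
  Nat.shiftRight (Nat.land (Nat.sub (VR.h1 R) (Nat.xor (v246 R) (v267 R))) (VR.h1 R)) (nat_lit 15)

noncomputable def s268 (R : VR) (i : ℕ) : Bool :=
  Nat.beq (s246 R i) (s267 R i)

theorem e268 (R : VR) : B (VR.S R) (v268 R) (s268 R) :=
  L.beq (VR.h1e R) (e246 R) (e267 R)

noncomputable def v269 (R : VR) : ℕ :=
  Bool.rec (motive := fun _ => ℕ) (nat_lit 0) (v268 R) (v260 R)

noncomputable def s269 (R : VR) (i : ℕ) : Bool :=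
  K.band (s260 R) (s268 R i)

theorem e269 (R : VR) : B (VR.S R) (v269 R) (s269 R) :=
  B.gand (e260 R) (e268 R)

noncomputable def v270 (R : VR) : ℕ :=
  Nat.land (Bool.rec (motive := fun _ => ℕ) (nat_lit 0) (v268 R) (v260 R)) (v149 R)

noncomputable def s270 (R : VR) (i : ℕ) : Bool :=
  K.band (s269 R i) (s149 R i)

theorem e270 (R : VR) : B (VR.S R) (v270 R) (s270 R) :=
  B.and (e269 R) (e149 R)

noncomputable def v271 (R : VR) : ℕ :=
  Nat.shiftRight (Nat.land (Nat.sub (VR.h1 R) (Nat.xor (v249 R) (v152 R))) (VR.h1 R)) (nat_lit 15)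

noncomputable def s271 (R : VR) (i : ℕ) : Bool :=
  Nat.beq (s249 R i) (s152 R i)

theorem e271 (R : VR) : B (VR.S R) (v271 R) (s271 R) :=
  L.beq (VR.h1e R) (e249 R) (e152 R)

noncomputable def v272 (R : VR) : ℕ :=
  Nat.land (Nat.land (Bool.rec (motive := fun _ => ℕ) (nat_lit 0) (v268 R) (v260 R)) (v149 R))
    (v271 R)

noncomputable def s272 (R : VR) (i : ℕ) : Bool :=
  K.band (s270 R i) (s271 R i)

theorem e272 (R : VR) : B (VR.S R) (v272 R) (s272 R) :=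
  B.and (e270 R) (e271 R)

noncomputable def v273 (R : VR) : ℕ :=
  Nat.lor (v266 R) (Nat.land (Nat.land (Bool.rec (motive := fun _ => ℕ) (nat_lit 0) (v268 R) (v260
    R)) (v149 R)) (v271 R))

noncomputable def s273 (R : VR) (i : ℕ) : Bool :=
  K.bor (s266 R i) (s272 R i)

theorem e273 (R : VR) : B (VR.S R) (v273 R) (s273 R) :=
  B.or (e266 R) (e272 R)

noncomputable def s274 (R : VR) (i : ℕ) : Bool :=
  K.Sp_step (VR.Q R) (s23 R) i (s246 R i) (s249 R i)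

theorem e274 (R : VR) : B (VR.S R) (v273 R) (s274 R) :=
  e273 R

noncomputable def v275 (R : VR) : ℕ :=
  Bool.rec (motive := fun _ => ℕ) (nat_lit 0) (v149 R) (v260 R)

noncomputable def s275 (R : VR) (i : ℕ) : Bool :=
  K.band (s260 R) (s149 R i)

theorem e275 (R : VR) : B (VR.S R) (v275 R) (s275 R) :=
  B.gand (e260 R) (e149 R)

noncomputable def v276 (R : VR) : ℕ :=
  Nat.land (v268 R) (v271 R)

noncomputable def s276 (R : VR) (i : ℕ) : Bool :=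
  K.band (s268 R i) (s271 R i)

theorem e276 (R : VR) : B (VR.S R) (v276 R) (s276 R) :=
  B.and (e268 R) (e271 R)

noncomputable def v277 (R : VR) : Bool :=
  true

noncomputable def s277 (R : VR) : Bool :=
  Nat.beq (s226 R) (s226 R)

theorem e277 (R : VR) : (v277 R) = s277 R :=
  rfl

noncomputable def s278 (R : VR) (i : ℕ) : Bool :=
  K.band (s277 R) (s250 R i)

theorem e278 (R : VR) : B (VR.S R) (v250 R) (s278 R) :=
  e250 R

noncomputable def v279 (R : VR) : ℕ :=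
  Nat.mod (Nat.land (v153 R) (v146 R)) (VR.m1 R)

noncomputable def s279 (R : VR) (i : ℕ) : ℕ :=
  tx (VR.piT R) (s152 R i)

theorem e279 (R : VR) : L (VR.S R) (v279 R) (s279 R) 255 :=
  L.gat (e152 R) (VR.pi_is R) (VR.pi_lt R) (VR.pi_le R)

noncomputable def v280 (R : VR) : ℕ :=
  Nat.shiftRight (Nat.land (Nat.sub (VR.h1 R) (Nat.xor (v279 R) (v152 R))) (VR.h1 R)) (nat_lit 15)

noncomputable def s280 (R : VR) (i : ℕ) : Bool :=
  Nat.beq (s279 R i) (s152 R i)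

theorem e280 (R : VR) : B (VR.S R) (v280 R) (s280 R) :=
  L.beq (VR.h1e R) (e279 R) (e152 R)

noncomputable def v281 (R : VR) : ℕ :=
  Nat.sub (VR.o1 R) (Nat.shiftRight (Nat.land (Nat.sub (VR.h1 R) (Nat.xor (v279 R) (v152 R)))
    (VR.h1 R)) (nat_lit 15))

noncomputable def s281 (R : VR) (i : ℕ) : Bool :=
  K.bnot (s280 R i)

theorem e281 (R : VR) : B (VR.S R) (v281 R) (s281 R) :=
  B.not (VR.o1e R) (e280 R)

noncomputable def v282 (R : VR) : ℕ :=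
  Nat.land (v250 R) (v281 R)

noncomputable def s282 (R : VR) (i : ℕ) : Bool :=
  K.band (s278 R i) (s281 R i)

theorem e282 (R : VR) : B (VR.S R) (v282 R) (s282 R) :=
  B.and (e278 R) (e281 R)

noncomputable def v283 (R : VR) : ℕ :=
  Nat.shiftRight (Nat.land (Nat.sub (VR.h1 R) (Nat.xor (v249 R) (v279 R))) (VR.h1 R)) (nat_lit 15)

noncomputable def s283 (R : VR) (i : ℕ) : Bool :=
  Nat.beq (s249 R i) (s279 R i)

theorem e283 (R : VR) : B (VR.S R) (v283 R) (s283 R) :=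
  L.beq (VR.h1e R) (e249 R) (e279 R)

noncomputable def v284 (R : VR) : ℕ :=
  Nat.land (Nat.land (v250 R) (v281 R)) (Nat.shiftRight (Nat.land (Nat.sub (VR.h1 R) (Nat.xor
    (v249 R) (v279 R))) (VR.h1 R)) (nat_lit 15))

noncomputable def s284 (R : VR) (i : ℕ) : Bool :=
  K.band (s282 R i) (s283 R i)

theorem e284 (R : VR) : B (VR.S R) (v284 R) (s284 R) :=
  B.and (e282 R) (e283 R)

noncomputable def v285 (R : VR) : ℕ :=
  Nat.lor (Nat.land (v268 R) (v271 R)) (Nat.land (Nat.land (v250 R) (v281 R)) (Nat.shiftRight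
    (Nat.land (Nat.sub (VR.h1 R) (Nat.xor (v249 R) (v279 R))) (VR.h1 R)) (nat_lit 15)))

noncomputable def s285 (R : VR) (i : ℕ) : Bool :=
  K.bor (s276 R i) (s284 R i)

theorem e285 (R : VR) : B (VR.S R) (v285 R) (s285 R) :=
  B.or (e276 R) (e284 R)

noncomputable def v286 (R : VR) : Bool :=
  false

noncomputable def s286 (R : VR) : Bool :=
  Nat.beq (s226 R) (s259 R)

theorem e286 (R : VR) : (v286 R) = s286 R :=
  rfl

noncomputable def v287 (R : VR) : ℕ :=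
  Bool.rec (motive := fun _ => ℕ) (nat_lit 0) (v250 R) (v286 R)

noncomputable def s287 (R : VR) (i : ℕ) : Bool :=
  K.band (s286 R) (s250 R i)

theorem e287 (R : VR) : B (VR.S R) (v287 R) (s287 R) :=
  B.gand (e286 R) (e250 R)

noncomputable def v288 (R : VR) : ℕ :=
  Nat.land (Bool.rec (motive := fun _ => ℕ) (nat_lit 0) (v250 R) (v286 R)) (v281 R)

noncomputable def s288 (R : VR) (i : ℕ) : Bool :=
  K.band (s287 R i) (s281 R i)

theorem e288 (R : VR) : B (VR.S R) (v288 R) (s288 R) :=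
  B.and (e287 R) (e281 R)

noncomputable def v289 (R : VR) : ℕ :=
  gmk (VR.h2 R) (VR.J R) (Nat.mul (v279 R) (VR.cr1 R))

noncomputable def v290 (R : VR) : ℕ :=
  Nat.mod (Nat.land (gmk (VR.h2 R) (VR.J R) (Nat.mul (v279 R) (VR.cr1 R))) (v164 R)) (VR.m1 R)

noncomputable def s290 (R : VR) (i : ℕ) : ℕ :=
  tx (VR.rhoT R) (s279 R i)

theorem e290 (R : VR) : L (VR.S R) (v290 R) (s290 R) 255 :=
  L.gat (e279 R) (VR.rho_is R) (VR.rho_lt R) (VR.rho_le R)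

noncomputable def v291 (R : VR) : ℕ :=
  Nat.shiftRight (Nat.land (Nat.sub (VR.h1 R) (Nat.xor (v249 R) (v290 R))) (VR.h1 R)) (nat_lit 15)

noncomputable def s291 (R : VR) (i : ℕ) : Bool :=
  Nat.beq (s249 R i) (s290 R i)

theorem e291 (R : VR) : B (VR.S R) (v291 R) (s291 R) :=
  L.beq (VR.h1e R) (e249 R) (e290 R)

noncomputable def v292 (R : VR) : ℕ :=
  Nat.land (Nat.land (Bool.rec (motive := fun _ => ℕ) (nat_lit 0) (v250 R) (v286 R)) (v281 R))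
    (Nat.shiftRight (Nat.land (Nat.sub (VR.h1 R) (Nat.xor (v249 R) (v290 R))) (VR.h1 R)) (nat_lit
    15))

noncomputable def s292 (R : VR) (i : ℕ) : Bool :=
  K.band (s288 R i) (s291 R i)

theorem e292 (R : VR) : B (VR.S R) (v292 R) (s292 R) :=
  B.and (e288 R) (e291 R)

noncomputable def v293 (R : VR) : ℕ :=
  Nat.lor (Nat.lor (Nat.land (v268 R) (v271 R)) (Nat.land (Nat.land (v250 R) (v281 R))
    (Nat.shiftRight (Nat.land (Nat.sub (VR.h1 R) (Nat.xor (v249 R) (v279 R))) (VR.h1 R)) (nat_lit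
    15)))) (Nat.land (Nat.land (Bool.rec (motive := fun _ => ℕ) (nat_lit 0) (v250 R) (v286 R))
    (v281 R)) (Nat.shiftRight (Nat.land (Nat.sub (VR.h1 R) (Nat.xor (v249 R) (v290 R))) (VR.h1 R))
    (nat_lit 15)))

noncomputable def s293 (R : VR) (i : ℕ) : Bool :=
  K.bor (s285 R i) (s292 R i)

theorem e293 (R : VR) : B (VR.S R) (v293 R) (s293 R) :=
  B.or (e285 R) (e292 R)

noncomputable def v294 (R : VR) : ℕ :=
  Bool.rec (motive := fun _ => ℕ) (nat_lit 0) (v268 R) (v286 R)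

noncomputable def s294 (R : VR) (i : ℕ) : Bool :=
  K.band (s286 R) (s268 R i)

theorem e294 (R : VR) : B (VR.S R) (v294 R) (s294 R) :=
  B.gand (e286 R) (e268 R)

noncomputable def v295 (R : VR) : ℕ :=
  Nat.mod (Nat.land (v153 R) (v151 R)) (VR.m1 R)

noncomputable def s295 (R : VR) (i : ℕ) : ℕ :=
  tx (VR.rhiT R) (s152 R i)

theorem e295 (R : VR) : L (VR.S R) (v295 R) (s295 R) 255 :=
  L.gat (e152 R) (VR.rhi_is R) (VR.rhi_lt R) (VR.rhi_le R)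

noncomputable def v296 (R : VR) : ℕ :=
  gmk (VR.h2 R) (VR.J R) (Nat.mul (v295 R) (VR.cr1 R))

noncomputable def v297 (R : VR) : ℕ :=
  Nat.mod (Nat.land (gmk (VR.h2 R) (VR.J R) (Nat.mul (v295 R) (VR.cr1 R))) (v146 R)) (VR.m1 R)

noncomputable def s297 (R : VR) (i : ℕ) : ℕ :=
  tx (VR.piT R) (s295 R i)

theorem e297 (R : VR) : L (VR.S R) (v297 R) (s297 R) 255 :=
  L.gat (e295 R) (VR.pi_is R) (VR.pi_lt R) (VR.pi_le R)

noncomputable def v298 (R : VR) : ℕ :=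
  Nat.shiftRight (Nat.land (Nat.sub (VR.h1 R) (Nat.xor (v297 R) (v295 R))) (VR.h1 R)) (nat_lit 15)

noncomputable def s298 (R : VR) (i : ℕ) : Bool :=
  Nat.beq (s297 R i) (s295 R i)

theorem e298 (R : VR) : B (VR.S R) (v298 R) (s298 R) :=
  L.beq (VR.h1e R) (e297 R) (e295 R)

noncomputable def v299 (R : VR) : ℕ :=
  Nat.sub (VR.o1 R) (Nat.shiftRight (Nat.land (Nat.sub (VR.h1 R) (Nat.xor (v297 R) (v295 R)))
    (VR.h1 R)) (nat_lit 15))

noncomputable def s299 (R : VR) (i : ℕ) : Bool :=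
  K.bnot (s298 R i)

theorem e299 (R : VR) : B (VR.S R) (v299 R) (s299 R) :=
  B.not (VR.o1e R) (e298 R)

noncomputable def v300 (R : VR) : ℕ :=
  Nat.land (Bool.rec (motive := fun _ => ℕ) (nat_lit 0) (v268 R) (v286 R)) (v299 R)

noncomputable def s300 (R : VR) (i : ℕ) : Bool :=
  K.band (s294 R i) (s299 R i)

theorem e300 (R : VR) : B (VR.S R) (v300 R) (s300 R) :=
  B.and (e294 R) (e299 R)

noncomputable def v301 (R : VR) : ℕ :=
  gmk (VR.h2 R) (VR.J R) (Nat.mul (v297 R) (VR.cr1 R))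

noncomputable def v302 (R : VR) : ℕ :=
  Nat.mod (Nat.land (gmk (VR.h2 R) (VR.J R) (Nat.mul (v297 R) (VR.cr1 R))) (v151 R)) (VR.m1 R)

noncomputable def s302 (R : VR) (i : ℕ) : ℕ :=
  tx (VR.rhiT R) (s297 R i)

theorem e302 (R : VR) : L (VR.S R) (v302 R) (s302 R) 255 :=
  L.gat (e297 R) (VR.rhi_is R) (VR.rhi_lt R) (VR.rhi_le R)

noncomputable def v303 (R : VR) : ℕ :=
  Nat.shiftRight (Nat.land (Nat.sub (VR.h1 R) (Nat.xor (v249 R) (v302 R))) (VR.h1 R)) (nat_lit 15)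

noncomputable def s303 (R : VR) (i : ℕ) : Bool :=
  Nat.beq (s249 R i) (s302 R i)

theorem e303 (R : VR) : B (VR.S R) (v303 R) (s303 R) :=
  L.beq (VR.h1e R) (e249 R) (e302 R)

noncomputable def v304 (R : VR) : ℕ :=
  Nat.land (Nat.land (Bool.rec (motive := fun _ => ℕ) (nat_lit 0) (v268 R) (v286 R)) (v299 R))
    (Nat.shiftRight (Nat.land (Nat.sub (VR.h1 R) (Nat.xor (v249 R) (v302 R))) (VR.h1 R)) (nat_lit
    15))

noncomputable def s304 (R : VR) (i : ℕ) : Bool :=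
  K.band (s300 R i) (s303 R i)

theorem e304 (R : VR) : B (VR.S R) (v304 R) (s304 R) :=
  B.and (e300 R) (e303 R)

noncomputable def v305 (R : VR) : ℕ :=
  Nat.lor (Nat.lor (Nat.lor (Nat.land (v268 R) (v271 R)) (Nat.land (Nat.land (v250 R) (v281 R))
    (Nat.shiftRight (Nat.land (Nat.sub (VR.h1 R) (Nat.xor (v249 R) (v279 R))) (VR.h1 R)) (nat_lit
    15)))) (Nat.land (Nat.land (Bool.rec (motive := fun _ => ℕ) (nat_lit 0) (v250 R) (v286 R))
    (v281 R)) (Nat.shiftRight (Nat.land (Nat.sub (VR.h1 R) (Nat.xor (v249 R) (v290 R))) (VR.h1 R))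
    (nat_lit 15)))) (Nat.land (Nat.land (Bool.rec (motive := fun _ => ℕ) (nat_lit 0) (v268 R)
    (v286 R)) (v299 R)) (Nat.shiftRight (Nat.land (Nat.sub (VR.h1 R) (Nat.xor (v249 R) (v302 R)))
    (VR.h1 R)) (nat_lit 15)))

noncomputable def s305 (R : VR) (i : ℕ) : Bool :=
  K.bor (s293 R i) (s304 R i)

theorem e305 (R : VR) : B (VR.S R) (v305 R) (s305 R) :=
  B.or (e293 R) (e304 R)

noncomputable def s306 (R : VR) (i : ℕ) : Bool :=
  K.Sp_step (VR.Q R) (s226 R) (s152 R i) (s246 R i) (s249 R i)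

theorem e306 (R : VR) : B (VR.S R) (v305 R) (s306 R) :=
  e305 R

noncomputable def v307 (R : VR) : ℕ :=
  Nat.land (Bool.rec (motive := fun _ => ℕ) (nat_lit 0) (v149 R) (v260 R)) (v305 R)

noncomputable def s307 (R : VR) (i : ℕ) : Bool :=
  K.band (s275 R i) (s306 R i)

theorem e307 (R : VR) : B (VR.S R) (v307 R) (s307 R) :=
  B.and (e275 R) (e306 R)

noncomputable def v308 (R : VR) : ℕ :=
  Nat.lor (Nat.lor (v266 R) (Nat.land (Nat.land (Bool.rec (motive := fun _ => ℕ) (nat_lit 0) (v268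
    R) (v260 R)) (v149 R)) (v271 R))) (Nat.land (Bool.rec (motive := fun _ => ℕ) (nat_lit 0) (v149
    R) (v260 R)) (v305 R))

noncomputable def s308 (R : VR) (i : ℕ) : Bool :=
  K.bor (s274 R i) (s307 R i)

theorem e308 (R : VR) : B (VR.S R) (v308 R) (s308 R) :=
  B.or (e274 R) (e307 R)

noncomputable def s309 (R : VR) (i : ℕ) : Bool :=
  K.Sp_same (VR.Q R) (s23 R) i (s246 R i) (s249 R i)

theorem e309 (R : VR) : B (VR.S R) (v308 R) (s309 R) :=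
  e308 R

noncomputable def v310 (R : VR) : ℕ :=
  Nat.land (Nat.shiftRight (Nat.land (Nat.sub (Nat.add (v172 R) (VR.k1 R)) (VR.nf0T R)) (VR.h1 R))
    (nat_lit 15)) (Nat.lor (Nat.lor (v266 R) (Nat.land (Nat.land (Bool.rec (motive := fun _ => ℕ)
    (nat_lit 0) (v268 R) (v260 R)) (v149 R)) (v271 R))) (Nat.land (Bool.rec (motive := fun _ => ℕ)
    (nat_lit 0) (v149 R) (v260 R)) (v305 R)))

noncomputable def s310 (R : VR) (i : ℕ) : Bool :=
  K.band (s243 R i) (s309 R i)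

theorem e310 (R : VR) : B (VR.S R) (v310 R) (s310 R) :=
  B.and (e243 R) (e309 R)

noncomputable def v311 (R : VR) : ℕ :=
  Nat.shiftRight (Nat.land (Nat.sub (Nat.add (v172 R) (VR.k1 R)) (VR.nf1T R)) (VR.h1 R)) (nat_lit
    15)

noncomputable def s311 (R : VR) (i : ℕ) : Bool :=
  Nat.ble (Nat.succ (s227 R i)) (s172 R i)

theorem e311 (R : VR) : B (VR.S R) (v311 R) (s311 R) :=
  L.blt (VR.h1e R) (VR.k1e R) (e227 R) (e172 R)

noncomputable def v312 (R : VR) : ℕ :=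
  Nat.mod (Nat.land (v228 R) (v245 R)) (VR.m1 R)

noncomputable def s312 (R : VR) (i : ℕ) : ℕ :=
  tx (VR.rkT R) (s227 R i)

theorem e312 (R : VR) : L (VR.S R) (v312 R) (s312 R) 255 :=
  L.gat (e227 R) (VR.rk_is R) (VR.rk_lt R) (VR.rk_le R)

noncomputable def v313 (R : VR) : ℕ :=
  Nat.mod (Nat.land (v228 R) (v248 R)) (VR.m1 R)

noncomputable def s313 (R : VR) (i : ℕ) : ℕ :=
  tx (VR.rjT R) (s227 R i)

theorem e313 (R : VR) : L (VR.S R) (v313 R) (s313 R) 255 :=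
  L.gat (e227 R) (VR.rj_is R) (VR.rj_lt R) (VR.rj_le R)

noncomputable def v314 (R : VR) : ℕ :=
  Nat.shiftRight (Nat.land (Nat.sub (VR.h1 R) (Nat.xor (v312 R) (v267 R))) (VR.h1 R)) (nat_lit 15)

noncomputable def s314 (R : VR) (i : ℕ) : Bool :=
  Nat.beq (s312 R i) (s267 R i)

theorem e314 (R : VR) : B (VR.S R) (v314 R) (s314 R) :=
  L.beq (VR.h1e R) (e312 R) (e267 R)

noncomputable def v315 (R : VR) : ℕ :=
  Nat.shiftRight (Nat.land (Nat.sub (VR.h1 R) (Nat.xor (v313 R) (VR.iota R))) (VR.h1 R)) (nat_lit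
    15)

noncomputable def s315 (R : VR) (i : ℕ) : Bool :=
  Nat.beq (s313 R i) (s0 R i)

theorem e315 (R : VR) : B (VR.S R) (v315 R) (s315 R) :=
  L.beq (VR.h1e R) (e313 R) (e0 R)

noncomputable def v316 (R : VR) : ℕ :=
  Nat.land (v314 R) (Nat.shiftRight (Nat.land (Nat.sub (VR.h1 R) (Nat.xor (v313 R) (VR.iota R)))
    (VR.h1 R)) (nat_lit 15))

noncomputable def s316 (R : VR) (i : ℕ) : Bool :=
  K.band (s314 R i) (s315 R i)

theorem e316 (R : VR) : B (VR.S R) (v316 R) (s316 R) :=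
  B.and (e314 R) (e315 R)

noncomputable def v317 (R : VR) : ℕ :=
  Nat.shiftRight (Nat.land (Nat.sub (VR.h1 R) (v312 R)) (VR.h1 R)) (nat_lit 15)

noncomputable def s317 (R : VR) (i : ℕ) : Bool :=
  Nat.beq (s312 R i) (nat_lit 0)

theorem e317 (R : VR) : B (VR.S R) (v317 R) (s317 R) :=
  L.ez (VR.h1e R) (e312 R)

noncomputable def s318 (R : VR) (i : ℕ) : Bool :=
  K.band (s277 R) (s317 R i)

theorem e318 (R : VR) : B (VR.S R) (v317 R) (s318 R) :=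
  e317 R

noncomputable def v319 (R : VR) : ℕ :=
  Nat.land (v317 R) (v126 R)

noncomputable def s319 (R : VR) (i : ℕ) : Bool :=
  K.band (s318 R i) (s126 R i)

theorem e319 (R : VR) : B (VR.S R) (v319 R) (s319 R) :=
  B.and (e318 R) (e126 R)

noncomputable def v320 (R : VR) : ℕ :=
  Nat.shiftRight (Nat.land (Nat.sub (VR.h1 R) (Nat.xor (v313 R) (VR.piT R))) (VR.h1 R)) (nat_lit
    15)

noncomputable def s320 (R : VR) (i : ℕ) : Bool :=
  Nat.beq (s313 R i) (s124 R i)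

theorem e320 (R : VR) : B (VR.S R) (v320 R) (s320 R) :=
  L.beq (VR.h1e R) (e313 R) (e124 R)

noncomputable def v321 (R : VR) : ℕ :=
  Nat.land (Nat.land (v317 R) (v126 R)) (Nat.shiftRight (Nat.land (Nat.sub (VR.h1 R) (Nat.xor
    (v313 R) (VR.piT R))) (VR.h1 R)) (nat_lit 15))

noncomputable def s321 (R : VR) (i : ℕ) : Bool :=
  K.band (s319 R i) (s320 R i)

theorem e321 (R : VR) : B (VR.S R) (v321 R) (s321 R) :=
  B.and (e319 R) (e320 R)

noncomputable def v322 (R : VR) : ℕ :=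
  Nat.lor (Nat.land (v314 R) (Nat.shiftRight (Nat.land (Nat.sub (VR.h1 R) (Nat.xor (v313 R)
    (VR.iota R))) (VR.h1 R)) (nat_lit 15))) (Nat.land (Nat.land (v317 R) (v126 R)) (Nat.shiftRight
    (Nat.land (Nat.sub (VR.h1 R) (Nat.xor (v313 R) (VR.piT R))) (VR.h1 R)) (nat_lit 15)))

noncomputable def s322 (R : VR) (i : ℕ) : Bool :=
  K.bor (s316 R i) (s321 R i)

theorem e322 (R : VR) : B (VR.S R) (v322 R) (s322 R) :=
  B.or (e316 R) (e321 R)

noncomputable def v323 (R : VR) : ℕ :=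
  Bool.rec (motive := fun _ => ℕ) (nat_lit 0) (v317 R) (v286 R)

noncomputable def s323 (R : VR) (i : ℕ) : Bool :=
  K.band (s286 R) (s317 R i)

theorem e323 (R : VR) : B (VR.S R) (v323 R) (s323 R) :=
  B.gand (e286 R) (e317 R)

noncomputable def v324 (R : VR) : ℕ :=
  Nat.land (v323 R) (v126 R)

noncomputable def s324 (R : VR) (i : ℕ) : Bool :=
  K.band (s323 R i) (s126 R i)

theorem e324 (R : VR) : B (VR.S R) (v324 R) (s324 R) :=
  B.and (e323 R) (e126 R)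

noncomputable def v325 (R : VR) : ℕ :=
  Nat.shiftRight (Nat.land (Nat.sub (VR.h1 R) (Nat.xor (v313 R) (v263 R))) (VR.h1 R)) (nat_lit 15)

noncomputable def s325 (R : VR) (i : ℕ) : Bool :=
  Nat.beq (s313 R i) (s263 R i)

theorem e325 (R : VR) : B (VR.S R) (v325 R) (s325 R) :=
  L.beq (VR.h1e R) (e313 R) (e263 R)

noncomputable def v326 (R : VR) : ℕ :=
  Nat.land (Nat.land (v323 R) (v126 R)) (Nat.shiftRight (Nat.land (Nat.sub (VR.h1 R) (Nat.xor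
    (v313 R) (v263 R))) (VR.h1 R)) (nat_lit 15))

noncomputable def s326 (R : VR) (i : ℕ) : Bool :=
  K.band (s324 R i) (s325 R i)

theorem e326 (R : VR) : B (VR.S R) (v326 R) (s326 R) :=
  B.and (e324 R) (e325 R)

noncomputable def v327 (R : VR) : ℕ :=
  Nat.lor (Nat.lor (Nat.land (v314 R) (Nat.shiftRight (Nat.land (Nat.sub (VR.h1 R) (Nat.xor (v313
    R) (VR.iota R))) (VR.h1 R)) (nat_lit 15))) (Nat.land (Nat.land (v317 R) (v126 R))
    (Nat.shiftRight (Nat.land (Nat.sub (VR.h1 R) (Nat.xor (v313 R) (VR.piT R))) (VR.h1 R))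
    (nat_lit 15)))) (Nat.land (Nat.land (v323 R) (v126 R)) (Nat.shiftRight (Nat.land (Nat.sub
    (VR.h1 R) (Nat.xor (v313 R) (v263 R))) (VR.h1 R)) (nat_lit 15)))

noncomputable def s327 (R : VR) (i : ℕ) : Bool :=
  K.bor (s322 R i) (s326 R i)

theorem e327 (R : VR) : B (VR.S R) (v327 R) (s327 R) :=
  B.or (e322 R) (e326 R)

noncomputable def v328 (R : VR) : ℕ :=
  Bool.rec (motive := fun _ => ℕ) (nat_lit 0) (v314 R) (v286 R)

noncomputable def s328 (R : VR) (i : ℕ) : Bool :=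
  K.band (s286 R) (s314 R i)

theorem e328 (R : VR) : B (VR.S R) (v328 R) (s328 R) :=
  B.gand (e286 R) (e314 R)

noncomputable def v329 (R : VR) : ℕ :=
  Nat.land (v328 R) (v149 R)

noncomputable def s329 (R : VR) (i : ℕ) : Bool :=
  K.band (s328 R i) (s149 R i)

theorem e329 (R : VR) : B (VR.S R) (v329 R) (s329 R) :=
  B.and (e328 R) (e149 R)

noncomputable def v330 (R : VR) : ℕ :=
  Nat.shiftRight (Nat.land (Nat.sub (VR.h1 R) (Nat.xor (v313 R) (v152 R))) (VR.h1 R)) (nat_lit 15)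

noncomputable def s330 (R : VR) (i : ℕ) : Bool :=
  Nat.beq (s313 R i) (s152 R i)

theorem e330 (R : VR) : B (VR.S R) (v330 R) (s330 R) :=
  L.beq (VR.h1e R) (e313 R) (e152 R)

noncomputable def v331 (R : VR) : ℕ :=
  Nat.land (Nat.land (v328 R) (v149 R)) (v330 R)

noncomputable def s331 (R : VR) (i : ℕ) : Bool :=
  K.band (s329 R i) (s330 R i)

theorem e331 (R : VR) : B (VR.S R) (v331 R) (s331 R) :=
  B.and (e329 R) (e330 R)

noncomputable def v332 (R : VR) : ℕ :=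
  Nat.lor (v327 R) (Nat.land (Nat.land (v328 R) (v149 R)) (v330 R))

noncomputable def s332 (R : VR) (i : ℕ) : Bool :=
  K.bor (s327 R i) (s331 R i)

theorem e332 (R : VR) : B (VR.S R) (v332 R) (s332 R) :=
  B.or (e327 R) (e331 R)

noncomputable def s333 (R : VR) (i : ℕ) : Bool :=
  K.Sp_step (VR.Q R) (s226 R) i (s312 R i) (s313 R i)

theorem e333 (R : VR) : B (VR.S R) (v332 R) (s333 R) :=
  e332 R

noncomputable def v334 (R : VR) : ℕ :=
  Bool.rec (motive := fun _ => ℕ) (nat_lit 0) (v149 R) (v286 R)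

noncomputable def s334 (R : VR) (i : ℕ) : Bool :=
  K.band (s286 R) (s149 R i)

theorem e334 (R : VR) : B (VR.S R) (v334 R) (s334 R) :=
  B.gand (e286 R) (e149 R)

noncomputable def v335 (R : VR) : ℕ :=
  Nat.land (v314 R) (v330 R)

noncomputable def s335 (R : VR) (i : ℕ) : Bool :=
  K.band (s314 R i) (s330 R i)

theorem e335 (R : VR) : B (VR.S R) (v335 R) (s335 R) :=
  B.and (e314 R) (e330 R)

noncomputable def v336 (R : VR) : ℕ :=
  Nat.land (v317 R) (v281 R)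

noncomputable def s336 (R : VR) (i : ℕ) : Bool :=
  K.band (s318 R i) (s281 R i)

theorem e336 (R : VR) : B (VR.S R) (v336 R) (s336 R) :=
  B.and (e318 R) (e281 R)

noncomputable def v337 (R : VR) : ℕ :=
  Nat.shiftRight (Nat.land (Nat.sub (VR.h1 R) (Nat.xor (v313 R) (v279 R))) (VR.h1 R)) (nat_lit 15)

noncomputable def s337 (R : VR) (i : ℕ) : Bool :=
  Nat.beq (s313 R i) (s279 R i)

theorem e337 (R : VR) : B (VR.S R) (v337 R) (s337 R) :=
  L.beq (VR.h1e R) (e313 R) (e279 R)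

noncomputable def v338 (R : VR) : ℕ :=
  Nat.land (Nat.land (v317 R) (v281 R)) (Nat.shiftRight (Nat.land (Nat.sub (VR.h1 R) (Nat.xor
    (v313 R) (v279 R))) (VR.h1 R)) (nat_lit 15))

noncomputable def s338 (R : VR) (i : ℕ) : Bool :=
  K.band (s336 R i) (s337 R i)

theorem e338 (R : VR) : B (VR.S R) (v338 R) (s338 R) :=
  B.and (e336 R) (e337 R)

noncomputable def v339 (R : VR) : ℕ :=
  Nat.lor (Nat.land (v314 R) (v330 R)) (Nat.land (Nat.land (v317 R) (v281 R)) (Nat.shiftRight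
    (Nat.land (Nat.sub (VR.h1 R) (Nat.xor (v313 R) (v279 R))) (VR.h1 R)) (nat_lit 15)))

noncomputable def s339 (R : VR) (i : ℕ) : Bool :=
  K.bor (s335 R i) (s338 R i)

theorem e339 (R : VR) : B (VR.S R) (v339 R) (s339 R) :=
  B.or (e335 R) (e338 R)

noncomputable def v340 (R : VR) : ℕ :=
  Nat.land (v323 R) (v281 R)

noncomputable def s340 (R : VR) (i : ℕ) : Bool :=
  K.band (s323 R i) (s281 R i)

theorem e340 (R : VR) : B (VR.S R) (v340 R) (s340 R) :=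
  B.and (e323 R) (e281 R)

noncomputable def v341 (R : VR) : ℕ :=
  Nat.shiftRight (Nat.land (Nat.sub (VR.h1 R) (Nat.xor (v313 R) (v290 R))) (VR.h1 R)) (nat_lit 15)

noncomputable def s341 (R : VR) (i : ℕ) : Bool :=
  Nat.beq (s313 R i) (s290 R i)

theorem e341 (R : VR) : B (VR.S R) (v341 R) (s341 R) :=
  L.beq (VR.h1e R) (e313 R) (e290 R)

noncomputable def v342 (R : VR) : ℕ :=
  Nat.land (Nat.land (v323 R) (v281 R)) (Nat.shiftRight (Nat.land (Nat.sub (VR.h1 R) (Nat.xor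
    (v313 R) (v290 R))) (VR.h1 R)) (nat_lit 15))

noncomputable def s342 (R : VR) (i : ℕ) : Bool :=
  K.band (s340 R i) (s341 R i)

theorem e342 (R : VR) : B (VR.S R) (v342 R) (s342 R) :=
  B.and (e340 R) (e341 R)

noncomputable def v343 (R : VR) : ℕ :=
  Nat.lor (Nat.lor (Nat.land (v314 R) (v330 R)) (Nat.land (Nat.land (v317 R) (v281 R))
    (Nat.shiftRight (Nat.land (Nat.sub (VR.h1 R) (Nat.xor (v313 R) (v279 R))) (VR.h1 R)) (nat_lit
    15)))) (Nat.land (Nat.land (v323 R) (v281 R)) (Nat.shiftRight (Nat.land (Nat.sub (VR.h1 R)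
    (Nat.xor (v313 R) (v290 R))) (VR.h1 R)) (nat_lit 15)))

noncomputable def s343 (R : VR) (i : ℕ) : Bool :=
  K.bor (s339 R i) (s342 R i)

theorem e343 (R : VR) : B (VR.S R) (v343 R) (s343 R) :=
  B.or (e339 R) (e342 R)

noncomputable def v344 (R : VR) : ℕ :=
  Nat.land (v328 R) (v299 R)

noncomputable def s344 (R : VR) (i : ℕ) : Bool :=
  K.band (s328 R i) (s299 R i)

theorem e344 (R : VR) : B (VR.S R) (v344 R) (s344 R) :=
  B.and (e328 R) (e299 R)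

noncomputable def v345 (R : VR) : ℕ :=
  Nat.shiftRight (Nat.land (Nat.sub (VR.h1 R) (Nat.xor (v313 R) (v302 R))) (VR.h1 R)) (nat_lit 15)

noncomputable def s345 (R : VR) (i : ℕ) : Bool :=
  Nat.beq (s313 R i) (s302 R i)

theorem e345 (R : VR) : B (VR.S R) (v345 R) (s345 R) :=
  L.beq (VR.h1e R) (e313 R) (e302 R)

noncomputable def v346 (R : VR) : ℕ :=
  Nat.land (Nat.land (v328 R) (v299 R)) (Nat.shiftRight (Nat.land (Nat.sub (VR.h1 R) (Nat.xor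
    (v313 R) (v302 R))) (VR.h1 R)) (nat_lit 15))

noncomputable def s346 (R : VR) (i : ℕ) : Bool :=
  K.band (s344 R i) (s345 R i)

theorem e346 (R : VR) : B (VR.S R) (v346 R) (s346 R) :=
  B.and (e344 R) (e345 R)

noncomputable def v347 (R : VR) : ℕ :=
  Nat.lor (Nat.lor (Nat.lor (Nat.land (v314 R) (v330 R)) (Nat.land (Nat.land (v317 R) (v281 R))
    (Nat.shiftRight (Nat.land (Nat.sub (VR.h1 R) (Nat.xor (v313 R) (v279 R))) (VR.h1 R)) (nat_lit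
    15)))) (Nat.land (Nat.land (v323 R) (v281 R)) (Nat.shiftRight (Nat.land (Nat.sub (VR.h1 R)
    (Nat.xor (v313 R) (v290 R))) (VR.h1 R)) (nat_lit 15)))) (Nat.land (Nat.land (v328 R) (v299 R))
    (Nat.shiftRight (Nat.land (Nat.sub (VR.h1 R) (Nat.xor (v313 R) (v302 R))) (VR.h1 R)) (nat_lit
    15)))

noncomputable def s347 (R : VR) (i : ℕ) : Bool :=
  K.bor (s343 R i) (s346 R i)

theorem e347 (R : VR) : B (VR.S R) (v347 R) (s347 R) :=
  B.or (e343 R) (e346 R)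

noncomputable def s348 (R : VR) (i : ℕ) : Bool :=
  K.Sp_step (VR.Q R) (s226 R) (s152 R i) (s312 R i) (s313 R i)

theorem e348 (R : VR) : B (VR.S R) (v347 R) (s348 R) :=
  e347 R

noncomputable def v349 (R : VR) : ℕ :=
  Nat.land (Bool.rec (motive := fun _ => ℕ) (nat_lit 0) (v149 R) (v286 R)) (v347 R)

noncomputable def s349 (R : VR) (i : ℕ) : Bool :=
  K.band (s334 R i) (s348 R i)

theorem e349 (R : VR) : B (VR.S R) (v349 R) (s349 R) :=
  B.and (e334 R) (e348 R)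

noncomputable def v350 (R : VR) : ℕ :=
  Nat.lor (Nat.lor (v327 R) (Nat.land (Nat.land (v328 R) (v149 R)) (v330 R))) (Nat.land (Bool.rec
    (motive := fun _ => ℕ) (nat_lit 0) (v149 R) (v286 R)) (v347 R))

noncomputable def s350 (R : VR) (i : ℕ) : Bool :=
  K.bor (s333 R i) (s349 R i)

theorem e350 (R : VR) : B (VR.S R) (v350 R) (s350 R) :=
  B.or (e333 R) (e349 R)

noncomputable def s351 (R : VR) (i : ℕ) : Bool :=
  K.Sp_same (VR.Q R) (s226 R) i (s312 R i) (s313 R i)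

theorem e351 (R : VR) : B (VR.S R) (v350 R) (s351 R) :=
  e350 R

noncomputable def v352 (R : VR) : ℕ :=
  Nat.land (Nat.shiftRight (Nat.land (Nat.sub (Nat.add (v172 R) (VR.k1 R)) (VR.nf1T R)) (VR.h1 R))
    (nat_lit 15)) (Nat.lor (Nat.lor (v327 R) (Nat.land (Nat.land (v328 R) (v149 R)) (v330 R)))
    (Nat.land (Bool.rec (motive := fun _ => ℕ) (nat_lit 0) (v149 R) (v286 R)) (v347 R)))

noncomputable def s352 (R : VR) (i : ℕ) : Bool :=
  K.band (s311 R i) (s351 R i)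

theorem e352 (R : VR) : B (VR.S R) (v352 R) (s352 R) :=
  B.and (e311 R) (e351 R)

noncomputable def s353 (R : VR) (i : ℕ) : ℕ :=
  tx (VR.nf2T R) i

theorem e353 (R : VR) : L (VR.S R) (VR.nf2T R) (s353 R) 255 :=
  VR.nf2_is R

noncomputable def s354 (R : VR) (i : ℕ) : ℕ :=
  (FC6.Sp.nf (VR.Q R)) (s259 R) i

theorem e354 (R : VR) : L (VR.S R) (VR.nf2T R) (s354 R) 255 :=
  e353 R

noncomputable def v355 (R : VR) : ℕ :=
  Nat.shiftRight (Nat.land (Nat.sub (Nat.add (v172 R) (VR.k1 R)) (VR.nf2T R)) (VR.h1 R)) (nat_lit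
    15)

noncomputable def s355 (R : VR) (i : ℕ) : Bool :=
  Nat.ble (Nat.succ (s354 R i)) (s172 R i)

theorem e355 (R : VR) : B (VR.S R) (v355 R) (s355 R) :=
  L.blt (VR.h1e R) (VR.k1e R) (e354 R) (e172 R)

noncomputable def v356 (R : VR) : ℕ :=
  gmk (VR.h2 R) (VR.J R) (Nat.mul (VR.nf2T R) (VR.cr1 R))

noncomputable def v357 (R : VR) : ℕ :=
  Nat.mod (Nat.land (v356 R) (v245 R)) (VR.m1 R)

noncomputable def s357 (R : VR) (i : ℕ) : ℕ :=
  tx (VR.rkT R) (s354 R i)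

theorem e357 (R : VR) : L (VR.S R) (v357 R) (s357 R) 255 :=
  L.gat (e354 R) (VR.rk_is R) (VR.rk_lt R) (VR.rk_le R)

noncomputable def v358 (R : VR) : ℕ :=
  Nat.mod (Nat.land (v356 R) (v248 R)) (VR.m1 R)

noncomputable def s358 (R : VR) (i : ℕ) : ℕ :=
  tx (VR.rjT R) (s354 R i)

theorem e358 (R : VR) : L (VR.S R) (v358 R) (s358 R) 255 :=
  L.gat (e354 R) (VR.rj_is R) (VR.rj_lt R) (VR.rj_le R)

noncomputable def v359 (R : VR) : ℕ :=
  Nat.mul (VR.o1 R) (v259 R)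

noncomputable def s359 (R : VR) (i : ℕ) : ℕ :=
  (s259 R)

theorem e359 (R : VR) : L (VR.S R) (v359 R) (s359 R) 2 :=
  L.scl (VR.o1e R) (e259 R) (le_of_eq (rfl : s259 R = (nat_lit 2))) (by decide)

noncomputable def v360 (R : VR) : ℕ :=
  Nat.shiftRight (Nat.land (Nat.sub (VR.h1 R) (Nat.xor (v357 R) (v359 R))) (VR.h1 R)) (nat_lit 15)

noncomputable def s360 (R : VR) (i : ℕ) : Bool :=
  Nat.beq (s357 R i) (s359 R i)

theorem e360 (R : VR) : B (VR.S R) (v360 R) (s360 R) :=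
  L.beq (VR.h1e R) (e357 R) (e359 R)

noncomputable def v361 (R : VR) : ℕ :=
  Nat.shiftRight (Nat.land (Nat.sub (VR.h1 R) (Nat.xor (v358 R) (VR.iota R))) (VR.h1 R)) (nat_lit
    15)

noncomputable def s361 (R : VR) (i : ℕ) : Bool :=
  Nat.beq (s358 R i) (s0 R i)

theorem e361 (R : VR) : B (VR.S R) (v361 R) (s361 R) :=
  L.beq (VR.h1e R) (e358 R) (e0 R)

noncomputable def v362 (R : VR) : ℕ :=
  Nat.land (Nat.shiftRight (Nat.land (Nat.sub (VR.h1 R) (Nat.xor (v357 R) (v359 R))) (VR.h1 R))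
    (nat_lit 15)) (Nat.shiftRight (Nat.land (Nat.sub (VR.h1 R) (Nat.xor (v358 R) (VR.iota R)))
    (VR.h1 R)) (nat_lit 15))

noncomputable def s362 (R : VR) (i : ℕ) : Bool :=
  K.band (s360 R i) (s361 R i)

theorem e362 (R : VR) : B (VR.S R) (v362 R) (s362 R) :=
  B.and (e360 R) (e361 R)

noncomputable def v363 (R : VR) : Bool :=
  false

noncomputable def s363 (R : VR) : Bool :=
  Nat.beq (s259 R) (s226 R)

theorem e363 (R : VR) : (v363 R) = s363 R :=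
  rfl

noncomputable def v364 (R : VR) : ℕ :=
  Nat.shiftRight (Nat.land (Nat.sub (VR.h1 R) (v357 R)) (VR.h1 R)) (nat_lit 15)

noncomputable def s364 (R : VR) (i : ℕ) : Bool :=
  Nat.beq (s357 R i) (nat_lit 0)

theorem e364 (R : VR) : B (VR.S R) (v364 R) (s364 R) :=
  L.ez (VR.h1e R) (e357 R)

noncomputable def v365 (R : VR) : ℕ :=
  Bool.rec (motive := fun _ => ℕ) (nat_lit 0) (v364 R) (false)

noncomputable def s365 (R : VR) (i : ℕ) : Bool :=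
  K.band (s363 R) (s364 R i)

theorem e365 (R : VR) : B (VR.S R) (v365 R) (s365 R) :=
  B.gand (e363 R) (e364 R)

noncomputable def v366 (R : VR) : ℕ :=
  Nat.land (Bool.rec (motive := fun _ => ℕ) (nat_lit 0) (v364 R) (false)) (v126 R)

noncomputable def s366 (R : VR) (i : ℕ) : Bool :=
  K.band (s365 R i) (s126 R i)

theorem e366 (R : VR) : B (VR.S R) (v366 R) (s366 R) :=
  B.and (e365 R) (e126 R)

noncomputable def v367 (R : VR) : ℕ :=
  Nat.shiftRight (Nat.land (Nat.sub (VR.h1 R) (Nat.xor (v358 R) (VR.piT R))) (VR.h1 R)) (nat_lit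
    15)

noncomputable def s367 (R : VR) (i : ℕ) : Bool :=
  Nat.beq (s358 R i) (s124 R i)

theorem e367 (R : VR) : B (VR.S R) (v367 R) (s367 R) :=
  L.beq (VR.h1e R) (e358 R) (e124 R)

noncomputable def v368 (R : VR) : ℕ :=
  Nat.land (Nat.land (Bool.rec (motive := fun _ => ℕ) (nat_lit 0) (v364 R) (false)) (v126 R))
    (Nat.shiftRight (Nat.land (Nat.sub (VR.h1 R) (Nat.xor (v358 R) (VR.piT R))) (VR.h1 R))
    (nat_lit 15))

noncomputable def s368 (R : VR) (i : ℕ) : Bool :=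
  K.band (s366 R i) (s367 R i)

theorem e368 (R : VR) : B (VR.S R) (v368 R) (s368 R) :=
  B.and (e366 R) (e367 R)

noncomputable def v369 (R : VR) : ℕ :=
  Nat.lor (Nat.land (Nat.shiftRight (Nat.land (Nat.sub (VR.h1 R) (Nat.xor (v357 R) (v359 R)))
    (VR.h1 R)) (nat_lit 15)) (Nat.shiftRight (Nat.land (Nat.sub (VR.h1 R) (Nat.xor (v358 R)
    (VR.iota R))) (VR.h1 R)) (nat_lit 15))) (Nat.land (Nat.land (Bool.rec (motive := fun _ => ℕ)
    (nat_lit 0) (v364 R) (false)) (v126 R)) (Nat.shiftRight (Nat.land (Nat.sub (VR.h1 R) (Nat.xor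
    (v358 R) (VR.piT R))) (VR.h1 R)) (nat_lit 15)))

noncomputable def s369 (R : VR) (i : ℕ) : Bool :=
  K.bor (s362 R i) (s368 R i)

theorem e369 (R : VR) : B (VR.S R) (v369 R) (s369 R) :=
  B.or (e362 R) (e368 R)

noncomputable def v370 (R : VR) : Bool :=
  true

noncomputable def s370 (R : VR) : Bool :=
  Nat.beq (s259 R) (s259 R)

theorem e370 (R : VR) : (v370 R) = s370 R :=
  rfl

noncomputable def s371 (R : VR) (i : ℕ) : Bool :=
  K.band (s370 R) (s364 R i)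

theorem e371 (R : VR) : B (VR.S R) (v364 R) (s371 R) :=
  e364 R

noncomputable def v372 (R : VR) : ℕ :=
  Nat.land (v364 R) (v126 R)

noncomputable def s372 (R : VR) (i : ℕ) : Bool :=
  K.band (s371 R i) (s126 R i)

theorem e372 (R : VR) : B (VR.S R) (v372 R) (s372 R) :=
  B.and (e371 R) (e126 R)

noncomputable def v373 (R : VR) : ℕ :=
  Nat.shiftRight (Nat.land (Nat.sub (VR.h1 R) (Nat.xor (v358 R) (v263 R))) (VR.h1 R)) (nat_lit 15)

noncomputable def s373 (R : VR) (i : ℕ) : Bool :=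
  Nat.beq (s358 R i) (s263 R i)

theorem e373 (R : VR) : B (VR.S R) (v373 R) (s373 R) :=
  L.beq (VR.h1e R) (e358 R) (e263 R)

noncomputable def v374 (R : VR) : ℕ :=
  Nat.land (Nat.land (v364 R) (v126 R)) (Nat.shiftRight (Nat.land (Nat.sub (VR.h1 R) (Nat.xor
    (v358 R) (v263 R))) (VR.h1 R)) (nat_lit 15))

noncomputable def s374 (R : VR) (i : ℕ) : Bool :=
  K.band (s372 R i) (s373 R i)

theorem e374 (R : VR) : B (VR.S R) (v374 R) (s374 R) :=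
  B.and (e372 R) (e373 R)

noncomputable def v375 (R : VR) : ℕ :=
  Nat.lor (v369 R) (Nat.land (Nat.land (v364 R) (v126 R)) (Nat.shiftRight (Nat.land (Nat.sub
    (VR.h1 R) (Nat.xor (v358 R) (v263 R))) (VR.h1 R)) (nat_lit 15)))

noncomputable def s375 (R : VR) (i : ℕ) : Bool :=
  K.bor (s369 R i) (s374 R i)

theorem e375 (R : VR) : B (VR.S R) (v375 R) (s375 R) :=
  B.or (e369 R) (e374 R)

noncomputable def v376 (R : VR) : ℕ :=
  Nat.shiftRight (Nat.land (Nat.sub (VR.h1 R) (Nat.xor (v357 R) (v267 R))) (VR.h1 R)) (nat_lit 15)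

noncomputable def s376 (R : VR) (i : ℕ) : Bool :=
  Nat.beq (s357 R i) (s267 R i)

theorem e376 (R : VR) : B (VR.S R) (v376 R) (s376 R) :=
  L.beq (VR.h1e R) (e357 R) (e267 R)

noncomputable def s377 (R : VR) (i : ℕ) : Bool :=
  K.band (s370 R) (s376 R i)

theorem e377 (R : VR) : B (VR.S R) (v376 R) (s377 R) :=
  e376 R

noncomputable def v378 (R : VR) : ℕ :=
  Nat.land (v376 R) (v149 R)

noncomputable def s378 (R : VR) (i : ℕ) : Bool :=
  K.band (s377 R i) (s149 R i)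

theorem e378 (R : VR) : B (VR.S R) (v378 R) (s378 R) :=
  B.and (e377 R) (e149 R)

noncomputable def v379 (R : VR) : ℕ :=
  Nat.shiftRight (Nat.land (Nat.sub (VR.h1 R) (Nat.xor (v358 R) (v152 R))) (VR.h1 R)) (nat_lit 15)

noncomputable def s379 (R : VR) (i : ℕ) : Bool :=
  Nat.beq (s358 R i) (s152 R i)

theorem e379 (R : VR) : B (VR.S R) (v379 R) (s379 R) :=
  L.beq (VR.h1e R) (e358 R) (e152 R)

noncomputable def v380 (R : VR) : ℕ :=
  Nat.land (Nat.land (v376 R) (v149 R)) (v379 R)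

noncomputable def s380 (R : VR) (i : ℕ) : Bool :=
  K.band (s378 R i) (s379 R i)

theorem e380 (R : VR) : B (VR.S R) (v380 R) (s380 R) :=
  B.and (e378 R) (e379 R)

noncomputable def v381 (R : VR) : ℕ :=
  Nat.lor (Nat.lor (v369 R) (Nat.land (Nat.land (v364 R) (v126 R)) (Nat.shiftRight (Nat.land
    (Nat.sub (VR.h1 R) (Nat.xor (v358 R) (v263 R))) (VR.h1 R)) (nat_lit 15)))) (Nat.land (Nat.land
    (v376 R) (v149 R)) (v379 R))

noncomputable def s381 (R : VR) (i : ℕ) : Bool :=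
  K.bor (s375 R i) (s380 R i)

theorem e381 (R : VR) : B (VR.S R) (v381 R) (s381 R) :=
  B.or (e375 R) (e380 R)

noncomputable def s382 (R : VR) (i : ℕ) : Bool :=
  K.Sp_step (VR.Q R) (s259 R) i (s357 R i) (s358 R i)

theorem e382 (R : VR) : B (VR.S R) (v381 R) (s382 R) :=
  e381 R

noncomputable def s383 (R : VR) (i : ℕ) : Bool :=
  K.band (s370 R) (s149 R i)

theorem e383 (R : VR) : B (VR.S R) (v149 R) (s383 R) :=
  e149 R

noncomputable def v384 (R : VR) : ℕ :=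
  Nat.land (v376 R) (v379 R)

noncomputable def s384 (R : VR) (i : ℕ) : Bool :=
  K.band (s376 R i) (s379 R i)

theorem e384 (R : VR) : B (VR.S R) (v384 R) (s384 R) :=
  B.and (e376 R) (e379 R)

noncomputable def s385 (R : VR) (i : ℕ) : Bool :=
  K.band (s277 R) (s364 R i)

theorem e385 (R : VR) : B (VR.S R) (v364 R) (s385 R) :=
  e364 R

noncomputable def v386 (R : VR) : ℕ :=
  Nat.land (v364 R) (v281 R)

noncomputable def s386 (R : VR) (i : ℕ) : Bool :=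
  K.band (s385 R i) (s281 R i)

theorem e386 (R : VR) : B (VR.S R) (v386 R) (s386 R) :=
  B.and (e385 R) (e281 R)

noncomputable def v387 (R : VR) : ℕ :=
  Nat.shiftRight (Nat.land (Nat.sub (VR.h1 R) (Nat.xor (v358 R) (v279 R))) (VR.h1 R)) (nat_lit 15)

noncomputable def s387 (R : VR) (i : ℕ) : Bool :=
  Nat.beq (s358 R i) (s279 R i)

theorem e387 (R : VR) : B (VR.S R) (v387 R) (s387 R) :=
  L.beq (VR.h1e R) (e358 R) (e279 R)

noncomputable def v388 (R : VR) : ℕ :=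
  Nat.land (Nat.land (v364 R) (v281 R)) (Nat.shiftRight (Nat.land (Nat.sub (VR.h1 R) (Nat.xor
    (v358 R) (v279 R))) (VR.h1 R)) (nat_lit 15))

noncomputable def s388 (R : VR) (i : ℕ) : Bool :=
  K.band (s386 R i) (s387 R i)

theorem e388 (R : VR) : B (VR.S R) (v388 R) (s388 R) :=
  B.and (e386 R) (e387 R)

noncomputable def v389 (R : VR) : ℕ :=
  Nat.lor (Nat.land (v376 R) (v379 R)) (Nat.land (Nat.land (v364 R) (v281 R)) (Nat.shiftRight
    (Nat.land (Nat.sub (VR.h1 R) (Nat.xor (v358 R) (v279 R))) (VR.h1 R)) (nat_lit 15)))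

noncomputable def s389 (R : VR) (i : ℕ) : Bool :=
  K.bor (s384 R i) (s388 R i)

theorem e389 (R : VR) : B (VR.S R) (v389 R) (s389 R) :=
  B.or (e384 R) (e388 R)

noncomputable def v390 (R : VR) : ℕ :=
  Bool.rec (motive := fun _ => ℕ) (nat_lit 0) (v364 R) (v286 R)

noncomputable def s390 (R : VR) (i : ℕ) : Bool :=
  K.band (s286 R) (s364 R i)

theorem e390 (R : VR) : B (VR.S R) (v390 R) (s390 R) :=
  B.gand (e286 R) (e364 R)

noncomputable def v391 (R : VR) : ℕ :=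
  Nat.land (Bool.rec (motive := fun _ => ℕ) (nat_lit 0) (v364 R) (v286 R)) (v281 R)

noncomputable def s391 (R : VR) (i : ℕ) : Bool :=
  K.band (s390 R i) (s281 R i)

theorem e391 (R : VR) : B (VR.S R) (v391 R) (s391 R) :=
  B.and (e390 R) (e281 R)

noncomputable def v392 (R : VR) : ℕ :=
  Nat.shiftRight (Nat.land (Nat.sub (VR.h1 R) (Nat.xor (v358 R) (v290 R))) (VR.h1 R)) (nat_lit 15)

noncomputable def s392 (R : VR) (i : ℕ) : Bool :=
  Nat.beq (s358 R i) (s290 R i)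

theorem e392 (R : VR) : B (VR.S R) (v392 R) (s392 R) :=
  L.beq (VR.h1e R) (e358 R) (e290 R)

noncomputable def v393 (R : VR) : ℕ :=
  Nat.land (Nat.land (Bool.rec (motive := fun _ => ℕ) (nat_lit 0) (v364 R) (v286 R)) (v281 R))
    (Nat.shiftRight (Nat.land (Nat.sub (VR.h1 R) (Nat.xor (v358 R) (v290 R))) (VR.h1 R)) (nat_lit
    15))

noncomputable def s393 (R : VR) (i : ℕ) : Bool :=
  K.band (s391 R i) (s392 R i)

theorem e393 (R : VR) : B (VR.S R) (v393 R) (s393 R) :=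
  B.and (e391 R) (e392 R)

noncomputable def v394 (R : VR) : ℕ :=
  Nat.lor (Nat.lor (Nat.land (v376 R) (v379 R)) (Nat.land (Nat.land (v364 R) (v281 R))
    (Nat.shiftRight (Nat.land (Nat.sub (VR.h1 R) (Nat.xor (v358 R) (v279 R))) (VR.h1 R)) (nat_lit
    15)))) (Nat.land (Nat.land (Bool.rec (motive := fun _ => ℕ) (nat_lit 0) (v364 R) (v286 R))
    (v281 R)) (Nat.shiftRight (Nat.land (Nat.sub (VR.h1 R) (Nat.xor (v358 R) (v290 R))) (VR.h1 R))
    (nat_lit 15)))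

noncomputable def s394 (R : VR) (i : ℕ) : Bool :=
  K.bor (s389 R i) (s393 R i)

theorem e394 (R : VR) : B (VR.S R) (v394 R) (s394 R) :=
  B.or (e389 R) (e393 R)

noncomputable def v395 (R : VR) : ℕ :=
  Bool.rec (motive := fun _ => ℕ) (nat_lit 0) (v376 R) (v286 R)

noncomputable def s395 (R : VR) (i : ℕ) : Bool :=
  K.band (s286 R) (s376 R i)

theorem e395 (R : VR) : B (VR.S R) (v395 R) (s395 R) :=
  B.gand (e286 R) (e376 R)

noncomputable def v396 (R : VR) : ℕ :=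
  Nat.land (Bool.rec (motive := fun _ => ℕ) (nat_lit 0) (v376 R) (v286 R)) (v299 R)

noncomputable def s396 (R : VR) (i : ℕ) : Bool :=
  K.band (s395 R i) (s299 R i)

theorem e396 (R : VR) : B (VR.S R) (v396 R) (s396 R) :=
  B.and (e395 R) (e299 R)

noncomputable def v397 (R : VR) : ℕ :=
  Nat.shiftRight (Nat.land (Nat.sub (VR.h1 R) (Nat.xor (v358 R) (v302 R))) (VR.h1 R)) (nat_lit 15)

noncomputable def s397 (R : VR) (i : ℕ) : Bool :=
  Nat.beq (s358 R i) (s302 R i)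

theorem e397 (R : VR) : B (VR.S R) (v397 R) (s397 R) :=
  L.beq (VR.h1e R) (e358 R) (e302 R)

noncomputable def v398 (R : VR) : ℕ :=
  Nat.land (Nat.land (Bool.rec (motive := fun _ => ℕ) (nat_lit 0) (v376 R) (v286 R)) (v299 R))
    (Nat.shiftRight (Nat.land (Nat.sub (VR.h1 R) (Nat.xor (v358 R) (v302 R))) (VR.h1 R)) (nat_lit
    15))

noncomputable def s398 (R : VR) (i : ℕ) : Bool :=
  K.band (s396 R i) (s397 R i)

theorem e398 (R : VR) : B (VR.S R) (v398 R) (s398 R) :=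
  B.and (e396 R) (e397 R)

noncomputable def v399 (R : VR) : ℕ :=
  Nat.lor (Nat.lor (Nat.lor (Nat.land (v376 R) (v379 R)) (Nat.land (Nat.land (v364 R) (v281 R))
    (Nat.shiftRight (Nat.land (Nat.sub (VR.h1 R) (Nat.xor (v358 R) (v279 R))) (VR.h1 R)) (nat_lit
    15)))) (Nat.land (Nat.land (Bool.rec (motive := fun _ => ℕ) (nat_lit 0) (v364 R) (v286 R))
    (v281 R)) (Nat.shiftRight (Nat.land (Nat.sub (VR.h1 R) (Nat.xor (v358 R) (v290 R))) (VR.h1 R))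
    (nat_lit 15)))) (Nat.land (Nat.land (Bool.rec (motive := fun _ => ℕ) (nat_lit 0) (v376 R)
    (v286 R)) (v299 R)) (Nat.shiftRight (Nat.land (Nat.sub (VR.h1 R) (Nat.xor (v358 R) (v302 R)))
    (VR.h1 R)) (nat_lit 15)))

noncomputable def s399 (R : VR) (i : ℕ) : Bool :=
  K.bor (s394 R i) (s398 R i)

theorem e399 (R : VR) : B (VR.S R) (v399 R) (s399 R) :=
  B.or (e394 R) (e398 R)

noncomputable def s400 (R : VR) (i : ℕ) : Bool :=
  K.Sp_step (VR.Q R) (s226 R) (s152 R i) (s357 R i) (s358 R i)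

theorem e400 (R : VR) : B (VR.S R) (v399 R) (s400 R) :=
  e399 R

noncomputable def v401 (R : VR) : ℕ :=
  Nat.land (v149 R) (v399 R)

noncomputable def s401 (R : VR) (i : ℕ) : Bool :=
  K.band (s383 R i) (s400 R i)

theorem e401 (R : VR) : B (VR.S R) (v401 R) (s401 R) :=
  B.and (e383 R) (e400 R)

noncomputable def v402 (R : VR) : ℕ :=
  Nat.lor (Nat.lor (Nat.lor (v369 R) (Nat.land (Nat.land (v364 R) (v126 R)) (Nat.shiftRight
    (Nat.land (Nat.sub (VR.h1 R) (Nat.xor (v358 R) (v263 R))) (VR.h1 R)) (nat_lit 15)))) (Nat.land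
    (Nat.land (v376 R) (v149 R)) (v379 R))) (Nat.land (v149 R) (v399 R))

noncomputable def s402 (R : VR) (i : ℕ) : Bool :=
  K.bor (s382 R i) (s401 R i)

theorem e402 (R : VR) : B (VR.S R) (v402 R) (s402 R) :=
  B.or (e382 R) (e401 R)

noncomputable def s403 (R : VR) (i : ℕ) : Bool :=
  K.Sp_same (VR.Q R) (s259 R) i (s357 R i) (s358 R i)

theorem e403 (R : VR) : B (VR.S R) (v402 R) (s403 R) :=
  e402 R

noncomputable def v404 (R : VR) : ℕ :=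
  Nat.land (Nat.shiftRight (Nat.land (Nat.sub (Nat.add (v172 R) (VR.k1 R)) (VR.nf2T R)) (VR.h1 R))
    (nat_lit 15)) (Nat.lor (Nat.lor (Nat.lor (v369 R) (Nat.land (Nat.land (v364 R) (v126 R))
    (Nat.shiftRight (Nat.land (Nat.sub (VR.h1 R) (Nat.xor (v358 R) (v263 R))) (VR.h1 R)) (nat_lit
    15)))) (Nat.land (Nat.land (v376 R) (v149 R)) (v379 R))) (Nat.land (v149 R) (v399 R)))

noncomputable def s404 (R : VR) (i : ℕ) : Bool :=
  K.band (s355 R i) (s403 R i)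

theorem e404 (R : VR) : B (VR.S R) (v404 R) (s404 R) :=
  B.and (e355 R) (e403 R)

noncomputable def v405 (R : VR) : Bool :=
  true

noncomputable def s405 (R : VR) : Bool :=
  true

theorem e405 (R : VR) : (v405 R) = s405 R :=
  rfl

noncomputable def v406 (R : VR) : ℕ :=
  Nat.mul (VR.o1 R) (bt (v405 R))

noncomputable def s406 (R : VR) (i : ℕ) : Bool :=
  (s405 R)

theorem e406 (R : VR) : B (VR.S R) (v406 R) (s406 R) :=
  B.scl (VR.o1e R) (e405 R)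

noncomputable def s407 (R : VR) (i : ℕ) : Bool :=
  K.band (s310 R i) (s405 R)

theorem e407 (R : VR) : B (VR.S R) (v310 R) (s407 R) :=
  B.of_eq (e310 R) (fun i _ => (band_true _).symm)

noncomputable def v408 (R : VR) : ℕ :=
  Nat.land (Nat.land (Nat.shiftRight (Nat.land (Nat.sub (Nat.add (v172 R) (VR.k1 R)) (VR.nf1T R))
    (VR.h1 R)) (nat_lit 15)) (Nat.lor (Nat.lor (v327 R) (Nat.land (Nat.land (v328 R) (v149 R))
    (v330 R))) (Nat.land (Bool.rec (motive := fun _ => ℕ) (nat_lit 0) (v149 R) (v286 R)) (v347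
    R)))) (Nat.land (Nat.shiftRight (Nat.land (Nat.sub (Nat.add (v172 R) (VR.k1 R)) (VR.nf0T R))
    (VR.h1 R)) (nat_lit 15)) (Nat.lor (Nat.lor (v266 R) (Nat.land (Nat.land (Bool.rec (motive :=
    fun _ => ℕ) (nat_lit 0) (v268 R) (v260 R)) (v149 R)) (v271 R))) (Nat.land (Bool.rec (motive :=
    fun _ => ℕ) (nat_lit 0) (v149 R) (v260 R)) (v305 R))))

noncomputable def s408 (R : VR) (i : ℕ) : Bool :=
  K.band (s352 R i) (s407 R i)

theorem e408 (R : VR) : B (VR.S R) (v408 R) (s408 R) :=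
  B.and (e352 R) (e407 R)

noncomputable def v409 (R : VR) : ℕ :=
  Nat.land (Nat.land (Nat.shiftRight (Nat.land (Nat.sub (Nat.add (v172 R) (VR.k1 R)) (VR.nf2T R))
    (VR.h1 R)) (nat_lit 15)) (Nat.lor (Nat.lor (Nat.lor (v369 R) (Nat.land (Nat.land (v364 R)
    (v126 R)) (Nat.shiftRight (Nat.land (Nat.sub (VR.h1 R) (Nat.xor (v358 R) (v263 R))) (VR.h1 R))
    (nat_lit 15)))) (Nat.land (Nat.land (v376 R) (v149 R)) (v379 R))) (Nat.land (v149 R) (v399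
    R)))) (v408 R)

noncomputable def s409 (R : VR) (i : ℕ) : Bool :=
  K.band (s404 R i) (s408 R i)

theorem e409 (R : VR) : B (VR.S R) (v409 R) (s409 R) :=
  B.and (e404 R) (e408 R)

noncomputable def s410 (R : VR) (i : ℕ) : Bool :=
  K.allN (s242 R) (fun (x9 : ℕ) => (K.band (Nat.ble (Nat.succ (FC6.Sp.nf (VR.Q R) x9 i)) (FC6.Pa.n
    (VR.P R))) (K.Sp_same (VR.Q R) x9 i (FC6.Sp.rk (VR.Q R) (FC6.Sp.nf (VR.Q R) x9 i)) (FC6.Sp.rj
    (VR.Q R) (FC6.Sp.nf (VR.Q R) x9 i)))))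

theorem e410 (R : VR) : B (VR.S R) (v409 R) (s410 R) :=
  e409 R

noncomputable def v411 (R : VR) : ℕ :=
  Nat.land (Nat.land (v234 R) (Nat.shiftRight (Nat.land (Nat.sub (VR.h1 R) (Nat.xor (Nat.mod
    (Nat.land (gmk (VR.h2 R) (VR.J R) (Nat.mul (Nat.mod (Nat.land (v159 R) (v235 R)) (VR.m1 R))
    (VR.cr1 R))) (v9 R)) (VR.m1 R)) (v220 R))) (VR.h1 R)) (nat_lit 15))) (Nat.land (Nat.land
    (Nat.shiftRight (Nat.land (Nat.sub (Nat.add (v172 R) (VR.k1 R)) (VR.nf2T R)) (VR.h1 R))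
    (nat_lit 15)) (Nat.lor (Nat.lor (Nat.lor (v369 R) (Nat.land (Nat.land (v364 R) (v126 R))
    (Nat.shiftRight (Nat.land (Nat.sub (VR.h1 R) (Nat.xor (v358 R) (v263 R))) (VR.h1 R)) (nat_lit
    15)))) (Nat.land (Nat.land (v376 R) (v149 R)) (v379 R))) (Nat.land (v149 R) (v399 R)))) (v408
    R))

noncomputable def s411 (R : VR) (i : ℕ) : Bool :=
  K.band (s241 R i) (s410 R i)

theorem e411 (R : VR) : B (VR.S R) (v411 R) (s411 R) :=
  B.and (e241 R) (e410 R)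

noncomputable def v412 (R : VR) : Bool :=
  Nat.beq (Nat.land (Nat.sub (VR.o1 R) (v411 R)) (mM (v201 R))) (nat_lit 0)

noncomputable def s412 (R : VR) : Bool :=
  K.allN (s201 R) (s411 R)

theorem e412 (R : VR) : (v412 R) = s412 R :=
  all0 (e411 R) (VR.ns_le R)

noncomputable def s413 (R : VR) : Bool :=
  K.allN (s201 R) (fun (x10 : ℕ) => (K.band (K.band (K.band (K.band (K.band (K.band (K.band
    (K.band (K.band (Nat.ble (Nat.succ (FC6.Sp.ρ (VR.Q R) x10)) (FC6.Sp.ns (VR.Q R))) (Nat.ble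
    (Nat.succ (FC6.Sp.ρi (VR.Q R) x10)) (FC6.Sp.ns (VR.Q R)))) (Nat.beq (FC6.Sp.ρ (VR.Q R)
    (FC6.Sp.ρi (VR.Q R) x10)) x10)) (Nat.beq (FC6.Sp.ρi (VR.Q R) (FC6.Sp.ρ (VR.Q R) x10)) x10))
    (Nat.ble (Nat.succ (FC6.Sp.π (VR.Q R) x10)) (FC6.Sp.ns (VR.Q R)))) (Nat.beq (FC6.Sp.π (VR.Q R)
    (FC6.Sp.π (VR.Q R) x10)) x10)) (FC6.Sp.cx (VR.Q R) (FC6.Pa.l (VR.P R) (FC6.Sp.nf (VR.Q R)
    (nat_lit 0) x10)))) (K.bor (K.bnot (Nat.beq (FC6.Sp.π (VR.Q R) x10) x10)) (K.bnot (FC6.Sp.cx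
    (VR.Q R) (FC6.Pa.l (VR.P R) (FC6.Sp.nf (VR.Q R) (nat_lit 1) x10)))))) (Nat.beq (FC6.Pa.l (VR.P
    R) (FC6.Sp.nf (VR.Q R) (nat_lit 0) (FC6.Sp.ρ (VR.Q R) x10))) (FC6.Pa.l (VR.P R) (FC6.Sp.nf
    (VR.Q R) (nat_lit 0) x10)))) (K.allN (nat_lit 3) (fun (x11 : ℕ) => (K.band (Nat.ble (Nat.succ
    (FC6.Sp.nf (VR.Q R) x11 x10)) (FC6.Pa.n (VR.P R))) (K.Sp_same (VR.Q R) x11 x10 (FC6.Sp.rk
    (VR.Q R) (FC6.Sp.nf (VR.Q R) x11 x10)) (FC6.Sp.rj (VR.Q R) (FC6.Sp.nf (VR.Q R) x11 x10))))))))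

theorem e413 (R : VR) : (v412 R) = s413 R :=
  e412 R

noncomputable def v414 (R : VR) : Bool :=
  K.band (v198 R) (Nat.beq (Nat.land (Nat.sub (VR.o1 R) (v411 R)) (mM (v201 R))) (nat_lit 0))

noncomputable def s414 (R : VR) : Bool :=
  K.band (s200 R) (s413 R)

theorem e414 (R : VR) : (v414 R) = s414 R :=
  congrArg₂ K.band (e200 R) (e413 R)

noncomputable def v415 (R : VR) : ℕ :=
  Nat.shiftRight (Nat.land (Nat.sub (Nat.add (v202 R) (VR.k1 R)) (VR.rjT R)) (VR.h1 R)) (nat_lit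
    15)

noncomputable def s415 (R : VR) (i : ℕ) : Bool :=
  Nat.ble (Nat.succ (s247 R i)) (s202 R i)

theorem e415 (R : VR) : B (VR.S R) (v415 R) (s415 R) :=
  L.blt (VR.h1e R) (VR.k1e R) (e247 R) (e202 R)

noncomputable def v416 (R : VR) : ℕ :=
  Nat.shiftRight (Nat.land (Nat.sub (VR.h1 R) (VR.rkT R)) (VR.h1 R)) (nat_lit 15)

noncomputable def s416 (R : VR) (i : ℕ) : Bool :=
  Nat.beq (s244 R i) (nat_lit 0)

theorem e416 (R : VR) : B (VR.S R) (v416 R) (s416 R) :=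
  L.ez (VR.h1e R) (e244 R)

noncomputable def v417 (R : VR) : ℕ :=
  Nat.shiftRight (Nat.land (Nat.sub (VR.h1 R) (Nat.xor (VR.rkT R) (v267 R))) (VR.h1 R)) (nat_lit
    15)

noncomputable def s417 (R : VR) (i : ℕ) : Bool :=
  Nat.beq (s244 R i) (s267 R i)

theorem e417 (R : VR) : B (VR.S R) (v417 R) (s417 R) :=
  L.beq (VR.h1e R) (e244 R) (e267 R)

noncomputable def v418 (R : VR) : ℕ :=
  gmk (VR.h2 R) (VR.J R) (Nat.mul (VR.rjT R) (VR.cr1 R))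

noncomputable def v419 (R : VR) : ℕ :=
  Nat.mod (Nat.land (v418 R) (v235 R)) (VR.m1 R)

noncomputable def s419 (R : VR) (i : ℕ) : ℕ :=
  tx (VR.nf0T R) (s247 R i)

theorem e419 (R : VR) : L (VR.S R) (v419 R) (s419 R) 255 :=
  L.gat (e247 R) (VR.nf0_is R) (VR.nf0_lt R) (VR.nf0_le R)

noncomputable def v420 (R : VR) : ℕ :=
  Nat.mod (Nat.land (v418 R) (v5 R)) (VR.m1 R)

noncomputable def s420 (R : VR) (i : ℕ) : ℕ :=
  tx (VR.nf1T R) (s247 R i)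

theorem e420 (R : VR) : L (VR.S R) (v420 R) (s420 R) 255 :=
  L.gat (e247 R) (VR.nf1_is R) (VR.nf1_lt R) (VR.nf1_le R)

noncomputable def v421 (R : VR) : ℕ :=
  srM (VR.N R) (VR.S R) (VR.o1 R) (VR.nf2T R)

noncomputable def v422 (R : VR) : ℕ :=
  Nat.mod (Nat.land (v418 R) (srM (VR.N R) (VR.S R) (VR.o1 R) (VR.nf2T R))) (VR.m1 R)

noncomputable def s422 (R : VR) (i : ℕ) : ℕ :=
  tx (VR.nf2T R) (s247 R i)

theorem e422 (R : VR) : L (VR.S R) (v422 R) (s422 R) 255 :=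
  L.gat (e247 R) (VR.nf2_is R) (VR.nf2_lt R) (VR.nf2_le R)

noncomputable def v423 (R : VR) : ℕ :=
  Nat.xor (v422 R) (Nat.land (Nat.xor (v422 R) (v420 R)) (Nat.mul (v417 R) (nat_lit 32767)))

noncomputable def s423 (R : VR) (i : ℕ) : ℕ :=
  Bool.rec (motive := fun _ => ℕ) (s422 R i) (s420 R i) (s417 R i)

theorem e423 (R : VR) : L (VR.S R) (v423 R) (s423 R) 255 :=
  L.sel (e417 R) (e420 R) (e422 R) (by decide) (by decide) (by decide)

noncomputable def v424 (R : VR) : ℕ :=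
  Nat.xor (v423 R) (Nat.land (Nat.xor (v423 R) (v419 R)) (Nat.mul (v416 R) (nat_lit 32767)))

noncomputable def s424 (R : VR) (i : ℕ) : ℕ :=
  Bool.rec (motive := fun _ => ℕ) (s423 R i) (s419 R i) (s416 R i)

theorem e424 (R : VR) : L (VR.S R) (v424 R) (s424 R) 255 :=
  L.sel (e416 R) (e419 R) (e423 R) (by decide) (by decide) (by decide)

noncomputable def v425 (R : VR) : ℕ :=
  Nat.shiftRight (Nat.land (Nat.sub (VR.h1 R) (Nat.xor (Nat.xor (v423 R) (Nat.land (Nat.xor (v423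
    R) (v419 R)) (Nat.mul (v416 R) (nat_lit 32767)))) (VR.iota R))) (VR.h1 R)) (nat_lit 15)

noncomputable def s425 (R : VR) (i : ℕ) : Bool :=
  Nat.beq (s424 R i) (s0 R i)

theorem e425 (R : VR) : B (VR.S R) (v425 R) (s425 R) :=
  L.beq (VR.h1e R) (e424 R) (e0 R)

noncomputable def v426 (R : VR) : ℕ :=
  Nat.land (Nat.shiftRight (Nat.land (Nat.sub (Nat.add (v202 R) (VR.k1 R)) (VR.rjT R)) (VR.h1 R))
    (nat_lit 15)) (Nat.shiftRight (Nat.land (Nat.sub (VR.h1 R) (Nat.xor (Nat.xor (v423 R)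
    (Nat.land (Nat.xor (v423 R) (v419 R)) (Nat.mul (v416 R) (nat_lit 32767)))) (VR.iota R)))
    (VR.h1 R)) (nat_lit 15))

noncomputable def s426 (R : VR) (i : ℕ) : Bool :=
  K.band (s415 R i) (s425 R i)

theorem e426 (R : VR) : B (VR.S R) (v426 R) (s426 R) :=
  B.and (e415 R) (e425 R)

noncomputable def s427 (R : VR) (i : ℕ) : ℕ :=
  (FC6.Sp.nf (VR.Q R)) (s259 R) (s247 R i)

theorem e427 (R : VR) : L (VR.S R) (v422 R) (s427 R) 255 :=
  e422 R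

noncomputable def v428 (R : VR) : ℕ :=
  Nat.shiftRight (Nat.land (Nat.sub (VR.h1 R) (Nat.xor (VR.phiT R) (v422 R))) (VR.h1 R)) (nat_lit
    15)

noncomputable def s428 (R : VR) (i : ℕ) : Bool :=
  Nat.beq (s171 R i) (s427 R i)

theorem e428 (R : VR) : B (VR.S R) (v428 R) (s428 R) :=
  L.beq (VR.h1e R) (e171 R) (e427 R)

noncomputable def s429 (R : VR) (i : ℕ) : ℕ :=
  (FC6.Sp.nf (VR.Q R)) (s226 R) (s247 R i)

theorem e429 (R : VR) : L (VR.S R) (v420 R) (s429 R) 255 :=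
  e420 R

noncomputable def v430 (R : VR) : ℕ :=
  Nat.shiftRight (Nat.land (Nat.sub (VR.h1 R) (Nat.xor (VR.alT R) (v420 R))) (VR.h1 R)) (nat_lit
    15)

noncomputable def s430 (R : VR) (i : ℕ) : Bool :=
  Nat.beq (s174 R i) (s429 R i)

theorem e430 (R : VR) : B (VR.S R) (v430 R) (s430 R) :=
  L.beq (VR.h1e R) (e174 R) (e429 R)

noncomputable def v431 (R : VR) : ℕ :=
  Nat.land (Nat.shiftRight (Nat.land (Nat.sub (VR.h1 R) (Nat.xor (VR.phiT R) (v422 R))) (VR.h1 R))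
    (nat_lit 15)) (Nat.shiftRight (Nat.land (Nat.sub (VR.h1 R) (Nat.xor (VR.alT R) (v420 R)))
    (VR.h1 R)) (nat_lit 15))

noncomputable def s431 (R : VR) (i : ℕ) : Bool :=
  K.band (s428 R i) (s430 R i)

theorem e431 (R : VR) : B (VR.S R) (v431 R) (s431 R) :=
  B.and (e428 R) (e430 R)

noncomputable def v432 (R : VR) : ℕ :=
  Nat.sub (VR.o1 R) (v192 R)

noncomputable def s432 (R : VR) (i : ℕ) : Bool :=
  K.bnot (s192 R i)

theorem e432 (R : VR) : B (VR.S R) (v432 R) (s432 R) :=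
  B.not (VR.o1e R) (e192 R)

noncomputable def v433 (R : VR) : ℕ :=
  Nat.land (Nat.land (Nat.shiftRight (Nat.land (Nat.sub (VR.h1 R) (Nat.xor (VR.phiT R) (v422 R)))
    (VR.h1 R)) (nat_lit 15)) (Nat.shiftRight (Nat.land (Nat.sub (VR.h1 R) (Nat.xor (VR.alT R)
    (v420 R))) (VR.h1 R)) (nat_lit 15))) (v432 R)

noncomputable def s433 (R : VR) (i : ℕ) : Bool :=
  K.band (s431 R i) (s432 R i)

theorem e433 (R : VR) : B (VR.S R) (v433 R) (s433 R) :=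
  B.and (e431 R) (e432 R)

noncomputable def s434 (R : VR) (i : ℕ) : Bool :=
  tf (VR.realT R) i

theorem e434 (R : VR) : B (VR.S R) (VR.realT R) (s434 R) :=
  VR.real_is R

noncomputable def s435 (R : VR) (i : ℕ) : Bool :=
  tf (VR.rlT R) i

theorem e435 (R : VR) : B (VR.S R) (VR.rlT R) (s435 R) :=
  VR.rl_is R

noncomputable def v436 (R : VR) : ℕ :=
  srM (VR.N R) (VR.S R) (VR.o1 R) (VR.rlT R)

noncomputable def v437 (R : VR) : ℕ :=
  Nat.mod (Nat.land (v418 R) (v436 R)) (VR.m1 R)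

noncomputable def s437 (R : VR) (i : ℕ) : Bool :=
  tf (VR.rlT R) (s247 R i)

theorem e437 (R : VR) : B (VR.S R) (v437 R) (s437 R) :=
  B.gat (e247 R) (VR.rl_is R) (VR.rl_lt R)

noncomputable def v438 (R : VR) : ℕ :=
  Nat.sub (VR.o1 R) (Nat.xor (VR.realT R) (v437 R))

noncomputable def s438 (R : VR) (i : ℕ) : Bool :=
  K.beqB (s434 R i) (s437 R i)

theorem e438 (R : VR) : B (VR.S R) (v438 R) (s438 R) :=
  B.beqB (VR.o1e R) (e434 R) (e437 R)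

noncomputable def v439 (R : VR) : ℕ :=
  Nat.land (Nat.land (Nat.land (Nat.shiftRight (Nat.land (Nat.sub (VR.h1 R) (Nat.xor (VR.phiT R)
    (v422 R))) (VR.h1 R)) (nat_lit 15)) (Nat.shiftRight (Nat.land (Nat.sub (VR.h1 R) (Nat.xor
    (VR.alT R) (v420 R))) (VR.h1 R)) (nat_lit 15))) (v432 R)) (v438 R)

noncomputable def s439 (R : VR) (i : ℕ) : Bool :=
  K.band (s433 R i) (s438 R i)

theorem e439 (R : VR) : B (VR.S R) (v439 R) (s439 R) :=
  B.and (e433 R) (e438 R)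

noncomputable def v440 (R : VR) : ℕ :=
  Nat.mod (Nat.land (v418 R) (v164 R)) (VR.m1 R)

noncomputable def s440 (R : VR) (i : ℕ) : ℕ :=
  tx (VR.rhoT R) (s247 R i)

theorem e440 (R : VR) : L (VR.S R) (v440 R) (s440 R) 255 :=
  L.gat (e247 R) (VR.rho_is R) (VR.rho_lt R) (VR.rho_le R)

noncomputable def v441 (R : VR) : ℕ :=
  gmk (VR.h2 R) (VR.J R) (Nat.mul (v440 R) (VR.cr1 R))

noncomputable def v442 (R : VR) : ℕ :=
  Nat.mod (Nat.land (v441 R) (v235 R)) (VR.m1 R)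

noncomputable def s442 (R : VR) (i : ℕ) : ℕ :=
  tx (VR.nf0T R) (s440 R i)

theorem e442 (R : VR) : L (VR.S R) (v442 R) (s442 R) 255 :=
  L.gat (e440 R) (VR.nf0_is R) (VR.nf0_lt R) (VR.nf0_le R)

noncomputable def s443 (R : VR) (i : ℕ) : ℕ :=
  (FC6.Sp.nf (VR.Q R)) (s23 R) (s440 R i)

theorem e443 (R : VR) : L (VR.S R) (v442 R) (s443 R) 255 :=
  e442 R

noncomputable def v444 (R : VR) : ℕ :=
  Nat.shiftRight (Nat.land (Nat.sub (VR.h1 R) (Nat.xor (VR.phiT R) (Nat.mod (Nat.land (v441 R)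
    (v235 R)) (VR.m1 R)))) (VR.h1 R)) (nat_lit 15)

noncomputable def s444 (R : VR) (i : ℕ) : Bool :=
  Nat.beq (s171 R i) (s443 R i)

theorem e444 (R : VR) : B (VR.S R) (v444 R) (s444 R) :=
  L.beq (VR.h1e R) (e171 R) (e443 R)

noncomputable def s445 (R : VR) (i : ℕ) : ℕ :=
  (FC6.Sp.nf (VR.Q R)) (s23 R) (s247 R i)

theorem e445 (R : VR) : L (VR.S R) (v419 R) (s445 R) 255 :=
  e419 R

noncomputable def v446 (R : VR) : ℕ :=
  Nat.shiftRight (Nat.land (Nat.sub (VR.h1 R) (Nat.xor (VR.alT R) (v419 R))) (VR.h1 R)) (nat_lit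
    15)

noncomputable def s446 (R : VR) (i : ℕ) : Bool :=
  Nat.beq (s174 R i) (s445 R i)

theorem e446 (R : VR) : B (VR.S R) (v446 R) (s446 R) :=
  L.beq (VR.h1e R) (e174 R) (e445 R)

noncomputable def v447 (R : VR) : ℕ :=
  Nat.land (Nat.shiftRight (Nat.land (Nat.sub (VR.h1 R) (Nat.xor (VR.phiT R) (Nat.mod (Nat.land
    (v441 R) (v235 R)) (VR.m1 R)))) (VR.h1 R)) (nat_lit 15)) (Nat.shiftRight (Nat.land (Nat.sub
    (VR.h1 R) (Nat.xor (VR.alT R) (v419 R))) (VR.h1 R)) (nat_lit 15))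

noncomputable def s447 (R : VR) (i : ℕ) : Bool :=
  K.band (s444 R i) (s446 R i)

theorem e447 (R : VR) : B (VR.S R) (v447 R) (s447 R) :=
  B.and (e444 R) (e446 R)

noncomputable def v448 (R : VR) : ℕ :=
  Nat.land (Nat.land (Nat.shiftRight (Nat.land (Nat.sub (VR.h1 R) (Nat.xor (VR.phiT R) (Nat.mod
    (Nat.land (v441 R) (v235 R)) (VR.m1 R)))) (VR.h1 R)) (nat_lit 15)) (Nat.shiftRight (Nat.land
    (Nat.sub (VR.h1 R) (Nat.xor (VR.alT R) (v419 R))) (VR.h1 R)) (nat_lit 15))) (v432 R)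

noncomputable def s448 (R : VR) (i : ℕ) : Bool :=
  K.band (s447 R i) (s432 R i)

theorem e448 (R : VR) : B (VR.S R) (v448 R) (s448 R) :=
  B.and (e447 R) (e432 R)

noncomputable def v449 (R : VR) : ℕ :=
  Nat.mod (Nat.land (v418 R) (v146 R)) (VR.m1 R)

noncomputable def s449 (R : VR) (i : ℕ) : ℕ :=
  tx (VR.piT R) (s247 R i)

theorem e449 (R : VR) : L (VR.S R) (v449 R) (s449 R) 255 :=
  L.gat (e247 R) (VR.pi_is R) (VR.pi_lt R) (VR.pi_le R)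

noncomputable def v450 (R : VR) : ℕ :=
  Nat.shiftRight (Nat.land (Nat.sub (VR.h1 R) (Nat.xor (Nat.mod (Nat.land (v418 R) (v146 R))
    (VR.m1 R)) (VR.rjT R))) (VR.h1 R)) (nat_lit 15)

noncomputable def s450 (R : VR) (i : ℕ) : Bool :=
  Nat.beq (s449 R i) (s247 R i)

theorem e450 (R : VR) : B (VR.S R) (v450 R) (s450 R) :=
  L.beq (VR.h1e R) (e449 R) (e247 R)

noncomputable def v451 (R : VR) : ℕ :=
  Nat.land (Nat.land (Nat.land (Nat.shiftRight (Nat.land (Nat.sub (VR.h1 R) (Nat.xor (VR.phiT R)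
    (Nat.mod (Nat.land (v441 R) (v235 R)) (VR.m1 R)))) (VR.h1 R)) (nat_lit 15)) (Nat.shiftRight
    (Nat.land (Nat.sub (VR.h1 R) (Nat.xor (VR.alT R) (v419 R))) (VR.h1 R)) (nat_lit 15))) (v432
    R)) (v450 R)

noncomputable def s451 (R : VR) (i : ℕ) : Bool :=
  K.band (s448 R i) (s450 R i)

theorem e451 (R : VR) : B (VR.S R) (v451 R) (s451 R) :=
  B.and (e448 R) (e450 R)

noncomputable def v452 (R : VR) : ℕ :=
  Nat.land (Nat.land (Nat.land (Nat.land (Nat.shiftRight (Nat.land (Nat.sub (VR.h1 R) (Nat.xor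
    (VR.phiT R) (Nat.mod (Nat.land (v441 R) (v235 R)) (VR.m1 R)))) (VR.h1 R)) (nat_lit 15))
    (Nat.shiftRight (Nat.land (Nat.sub (VR.h1 R) (Nat.xor (VR.alT R) (v419 R))) (VR.h1 R))
    (nat_lit 15))) (v432 R)) (v450 R)) (v438 R)

noncomputable def s452 (R : VR) (i : ℕ) : Bool :=
  K.band (s451 R i) (s438 R i)

theorem e452 (R : VR) : B (VR.S R) (v452 R) (s452 R) :=
  B.and (e451 R) (e438 R)

noncomputable def v453 (R : VR) : ℕ :=
  Nat.shiftRight (Nat.land (Nat.sub (VR.h1 R) (Nat.xor (VR.rkT R) (v359 R))) (VR.h1 R)) (nat_lit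
    15)

noncomputable def s453 (R : VR) (i : ℕ) : Bool :=
  Nat.beq (s244 R i) (s359 R i)

theorem e453 (R : VR) : B (VR.S R) (v453 R) (s453 R) :=
  L.beq (VR.h1e R) (e244 R) (e359 R)

noncomputable def v454 (R : VR) : ℕ :=
  Nat.mod (Nat.land (v418 R) (v151 R)) (VR.m1 R)

noncomputable def s454 (R : VR) (i : ℕ) : ℕ :=
  tx (VR.rhiT R) (s247 R i)

theorem e454 (R : VR) : L (VR.S R) (v454 R) (s454 R) 255 :=
  L.gat (e247 R) (VR.rhi_is R) (VR.rhi_lt R) (VR.rhi_le R)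

noncomputable def v455 (R : VR) : ℕ :=
  gmk (VR.h2 R) (VR.J R) (Nat.mul (v454 R) (VR.cr1 R))

noncomputable def v456 (R : VR) : ℕ :=
  Nat.mod (Nat.land (v455 R) (v5 R)) (VR.m1 R)

noncomputable def s456 (R : VR) (i : ℕ) : ℕ :=
  tx (VR.nf1T R) (s454 R i)

theorem e456 (R : VR) : L (VR.S R) (v456 R) (s456 R) 255 :=
  L.gat (e454 R) (VR.nf1_is R) (VR.nf1_lt R) (VR.nf1_le R)

noncomputable def s457 (R : VR) (i : ℕ) : ℕ :=
  (FC6.Sp.nf (VR.Q R)) (s226 R) (s454 R i)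

theorem e457 (R : VR) : L (VR.S R) (v456 R) (s457 R) 255 :=
  e456 R

noncomputable def v458 (R : VR) : ℕ :=
  Nat.shiftRight (Nat.land (Nat.sub (VR.h1 R) (Nat.xor (VR.phiT R) (Nat.mod (Nat.land (v455 R) (v5
    R)) (VR.m1 R)))) (VR.h1 R)) (nat_lit 15)

noncomputable def s458 (R : VR) (i : ℕ) : Bool :=
  Nat.beq (s171 R i) (s457 R i)

theorem e458 (R : VR) : B (VR.S R) (v458 R) (s458 R) :=
  L.beq (VR.h1e R) (e171 R) (e457 R)

noncomputable def v459 (R : VR) : ℕ :=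
  Nat.land (v453 R) (Nat.shiftRight (Nat.land (Nat.sub (VR.h1 R) (Nat.xor (VR.phiT R) (Nat.mod
    (Nat.land (v455 R) (v5 R)) (VR.m1 R)))) (VR.h1 R)) (nat_lit 15))

noncomputable def s459 (R : VR) (i : ℕ) : Bool :=
  K.band (s453 R i) (s458 R i)

theorem e459 (R : VR) : B (VR.S R) (v459 R) (s459 R) :=
  B.and (e453 R) (e458 R)

noncomputable def v460 (R : VR) : ℕ :=
  Nat.land (Nat.land (v453 R) (Nat.shiftRight (Nat.land (Nat.sub (VR.h1 R) (Nat.xor (VR.phiT R)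
    (Nat.mod (Nat.land (v455 R) (v5 R)) (VR.m1 R)))) (VR.h1 R)) (nat_lit 15))) (v192 R)

noncomputable def s460 (R : VR) (i : ℕ) : Bool :=
  K.band (s459 R i) (s192 R i)

theorem e460 (R : VR) : B (VR.S R) (v460 R) (s460 R) :=
  B.and (e459 R) (e192 R)

noncomputable def v461 (R : VR) : ℕ :=
  Nat.land (Nat.land (Nat.land (v453 R) (Nat.shiftRight (Nat.land (Nat.sub (VR.h1 R) (Nat.xor
    (VR.phiT R) (Nat.mod (Nat.land (v455 R) (v5 R)) (VR.m1 R)))) (VR.h1 R)) (nat_lit 15))) (v192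
    R)) (v450 R)

noncomputable def s461 (R : VR) (i : ℕ) : Bool :=
  K.band (s460 R i) (s450 R i)

theorem e461 (R : VR) : B (VR.S R) (v461 R) (s461 R) :=
  B.and (e460 R) (e450 R)

noncomputable def v462 (R : VR) : ℕ :=
  Nat.mod (Nat.land (v455 R) (v146 R)) (VR.m1 R)

noncomputable def s462 (R : VR) (i : ℕ) : ℕ :=
  tx (VR.piT R) (s454 R i)

theorem e462 (R : VR) : L (VR.S R) (v462 R) (s462 R) 255 :=
  L.gat (e454 R) (VR.pi_is R) (VR.pi_lt R) (VR.pi_le R)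

noncomputable def v463 (R : VR) : ℕ :=
  Nat.shiftRight (Nat.land (Nat.sub (VR.h1 R) (Nat.xor (Nat.mod (Nat.land (v455 R) (v146 R))
    (VR.m1 R)) (v454 R))) (VR.h1 R)) (nat_lit 15)

noncomputable def s463 (R : VR) (i : ℕ) : Bool :=
  Nat.beq (s462 R i) (s454 R i)

theorem e463 (R : VR) : B (VR.S R) (v463 R) (s463 R) :=
  L.beq (VR.h1e R) (e462 R) (e454 R)

noncomputable def v464 (R : VR) : ℕ :=
  Nat.land (Nat.land (Nat.land (Nat.land (v453 R) (Nat.shiftRight (Nat.land (Nat.sub (VR.h1 R)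
    (Nat.xor (VR.phiT R) (Nat.mod (Nat.land (v455 R) (v5 R)) (VR.m1 R)))) (VR.h1 R)) (nat_lit
    15))) (v192 R)) (v450 R)) (Nat.shiftRight (Nat.land (Nat.sub (VR.h1 R) (Nat.xor (Nat.mod
    (Nat.land (v455 R) (v146 R)) (VR.m1 R)) (v454 R))) (VR.h1 R)) (nat_lit 15))

noncomputable def s464 (R : VR) (i : ℕ) : Bool :=
  K.band (s461 R i) (s463 R i)

theorem e464 (R : VR) : B (VR.S R) (v464 R) (s464 R) :=
  B.and (e461 R) (e463 R)

noncomputable def v465 (R : VR) : ℕ :=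
  Nat.mod (Nat.land (v455 R) (v436 R)) (VR.m1 R)

noncomputable def s465 (R : VR) (i : ℕ) : Bool :=
  tf (VR.rlT R) (s454 R i)

theorem e465 (R : VR) : B (VR.S R) (v465 R) (s465 R) :=
  B.gat (e454 R) (VR.rl_is R) (VR.rl_lt R)

noncomputable def v466 (R : VR) : ℕ :=
  Nat.sub (VR.o1 R) (Nat.xor (v437 R) (v465 R))

noncomputable def s466 (R : VR) (i : ℕ) : Bool :=
  K.beqB (s437 R i) (s465 R i)

theorem e466 (R : VR) : B (VR.S R) (v466 R) (s466 R) :=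
  B.beqB (VR.o1e R) (e437 R) (e465 R)

noncomputable def v467 (R : VR) : ℕ :=
  Nat.sub (VR.o1 R) (Nat.xor (VR.realT R) (Nat.sub (VR.o1 R) (Nat.xor (v437 R) (v465 R))))

noncomputable def s467 (R : VR) (i : ℕ) : Bool :=
  K.beqB (s434 R i) (s466 R i)

theorem e467 (R : VR) : B (VR.S R) (v467 R) (s467 R) :=
  B.beqB (VR.o1e R) (e434 R) (e466 R)

noncomputable def v468 (R : VR) : ℕ :=
  Nat.land (Nat.land (Nat.land (Nat.land (Nat.land (v453 R) (Nat.shiftRight (Nat.land (Nat.sub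
    (VR.h1 R) (Nat.xor (VR.phiT R) (Nat.mod (Nat.land (v455 R) (v5 R)) (VR.m1 R)))) (VR.h1 R))
    (nat_lit 15))) (v192 R)) (v450 R)) (Nat.shiftRight (Nat.land (Nat.sub (VR.h1 R) (Nat.xor
    (Nat.mod (Nat.land (v455 R) (v146 R)) (VR.m1 R)) (v454 R))) (VR.h1 R)) (nat_lit 15))) (Nat.sub
    (VR.o1 R) (Nat.xor (VR.realT R) (Nat.sub (VR.o1 R) (Nat.xor (v437 R) (v465 R)))))

noncomputable def s468 (R : VR) (i : ℕ) : Bool :=
  K.band (s464 R i) (s467 R i)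

theorem e468 (R : VR) : B (VR.S R) (v468 R) (s468 R) :=
  B.and (e464 R) (e467 R)

noncomputable def v469 (R : VR) : ℕ :=
  Nat.xor (v468 R) (Nat.land (Nat.xor (v468 R) (Nat.land (Nat.land (Nat.land (Nat.land
    (Nat.shiftRight (Nat.land (Nat.sub (VR.h1 R) (Nat.xor (VR.phiT R) (Nat.mod (Nat.land (v441 R)
    (v235 R)) (VR.m1 R)))) (VR.h1 R)) (nat_lit 15)) (Nat.shiftRight (Nat.land (Nat.sub (VR.h1 R)
    (Nat.xor (VR.alT R) (v419 R))) (VR.h1 R)) (nat_lit 15))) (v432 R)) (v450 R)) (v438 R))) (v417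
    R))

noncomputable def s469 (R : VR) (i : ℕ) : Bool :=
  Bool.rec (motive := fun _ => Bool) (s468 R i) (s452 R i) (s417 R i)

theorem e469 (R : VR) : B (VR.S R) (v469 R) (s469 R) :=
  B.sel (e417 R) (e452 R) (e468 R)

noncomputable def v470 (R : VR) : ℕ :=
  Nat.xor (v469 R) (Nat.land (Nat.xor (v469 R) (Nat.land (Nat.land (Nat.land (Nat.shiftRight
    (Nat.land (Nat.sub (VR.h1 R) (Nat.xor (VR.phiT R) (v422 R))) (VR.h1 R)) (nat_lit 15))
    (Nat.shiftRight (Nat.land (Nat.sub (VR.h1 R) (Nat.xor (VR.alT R) (v420 R))) (VR.h1 R))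
    (nat_lit 15))) (v432 R)) (v438 R))) (v416 R))

noncomputable def s470 (R : VR) (i : ℕ) : Bool :=
  Bool.rec (motive := fun _ => Bool) (s469 R i) (s439 R i) (s416 R i)

theorem e470 (R : VR) : B (VR.S R) (v470 R) (s470 R) :=
  B.sel (e416 R) (e439 R) (e469 R)

noncomputable def v471 (R : VR) : ℕ :=
  Nat.land (Nat.land (Nat.shiftRight (Nat.land (Nat.sub (Nat.add (v202 R) (VR.k1 R)) (VR.rjT R))
    (VR.h1 R)) (nat_lit 15)) (Nat.shiftRight (Nat.land (Nat.sub (VR.h1 R) (Nat.xor (Nat.xor (v423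
    R) (Nat.land (Nat.xor (v423 R) (v419 R)) (Nat.mul (v416 R) (nat_lit 32767)))) (VR.iota R)))
    (VR.h1 R)) (nat_lit 15))) (Nat.xor (v469 R) (Nat.land (Nat.xor (v469 R) (Nat.land (Nat.land
    (Nat.land (Nat.shiftRight (Nat.land (Nat.sub (VR.h1 R) (Nat.xor (VR.phiT R) (v422 R))) (VR.h1
    R)) (nat_lit 15)) (Nat.shiftRight (Nat.land (Nat.sub (VR.h1 R) (Nat.xor (VR.alT R) (v420 R)))
    (VR.h1 R)) (nat_lit 15))) (v432 R)) (v438 R))) (v416 R)))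

noncomputable def s471 (R : VR) (i : ℕ) : Bool :=
  K.band (s426 R i) (s470 R i)

theorem e471 (R : VR) : B (VR.S R) (v471 R) (s471 R) :=
  B.and (e426 R) (e470 R)

noncomputable def s472 (R : VR) (i : ℕ) : ℕ :=
  tx (VR.lrT R) i

theorem e472 (R : VR) : L (VR.S R) (VR.lrT R) (s472 R) 255 :=
  VR.lr_is R

noncomputable def v473 (R : VR) : ℕ :=
  gmk (VR.h2 R) (VR.J R) (Nat.mul (VR.lT R) (VR.cr1 R))

noncomputable def v474 (R : VR) : ℕ :=
  srM (VR.N R) (VR.S R) (VR.o1 R) (VR.lrT R)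

noncomputable def v475 (R : VR) : ℕ :=
  Nat.mod (Nat.land (v473 R) (srM (VR.N R) (VR.S R) (VR.o1 R) (VR.lrT R))) (VR.m1 R)

noncomputable def s475 (R : VR) (i : ℕ) : ℕ :=
  tx (VR.lrT R) (s7 R i)

theorem e475 (R : VR) : L (VR.S R) (v475 R) (s475 R) 255 :=
  L.gat (e7 R) (VR.lr_is R) (VR.lr_lt R) (VR.lr_le R)

noncomputable def v476 (R : VR) : ℕ :=
  Nat.shiftRight (Nat.land (Nat.sub (VR.h1 R) (Nat.xor (VR.iota R) (v475 R))) (VR.h1 R)) (nat_lit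
    15)

noncomputable def s476 (R : VR) (i : ℕ) : Bool :=
  Nat.beq (s0 R i) (s475 R i)

theorem e476 (R : VR) : B (VR.S R) (v476 R) (s476 R) :=
  L.beq (VR.h1e R) (e0 R) (e475 R)

noncomputable def s477 (R : VR) (i : ℕ) : ℕ :=
  tx (VR.vpT R) i

theorem e477 (R : VR) : L (VR.S R) (VR.vpT R) (s477 R) 255 :=
  VR.vp_is R

noncomputable def s478 (R : VR) (i : ℕ) : ℕ :=
  tx (VR.vrT R) i

theorem e478 (R : VR) : L (VR.S R) (VR.vrT R) (s478 R) 255 :=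
  VR.vr_is R

noncomputable def v479 (R : VR) : ℕ :=
  gmk (VR.h2 R) (VR.J R) (Nat.mul (VR.vpT R) (VR.cr1 R))

noncomputable def v480 (R : VR) : ℕ :=
  srM (VR.N R) (VR.S R) (VR.o1 R) (VR.vrT R)

noncomputable def v481 (R : VR) : ℕ :=
  Nat.mod (Nat.land (v479 R) (srM (VR.N R) (VR.S R) (VR.o1 R) (VR.vrT R))) (VR.m1 R)

noncomputable def s481 (R : VR) (i : ℕ) : ℕ :=
  tx (VR.vrT R) (s477 R i)

theorem e481 (R : VR) : L (VR.S R) (v481 R) (s481 R) 255 :=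
  L.gat (e477 R) (VR.vr_is R) (VR.vr_lt R) (VR.vr_le R)

noncomputable def v482 (R : VR) : ℕ :=
  Nat.shiftRight (Nat.land (Nat.sub (Nat.add (VR.vrT R) (VR.k1 R)) (Nat.mod (Nat.land (v479 R)
    (srM (VR.N R) (VR.S R) (VR.o1 R) (VR.vrT R))) (VR.m1 R))) (VR.h1 R)) (nat_lit 15)

noncomputable def s482 (R : VR) (i : ℕ) : Bool :=
  Nat.ble (Nat.succ (s481 R i)) (s478 R i)

theorem e482 (R : VR) : B (VR.S R) (v482 R) (s482 R) :=
  L.blt (VR.h1e R) (VR.k1e R) (e481 R) (e478 R)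

noncomputable def v483 (R : VR) : ℕ :=
  Nat.shiftRight (Nat.land (Nat.sub (Nat.add (v172 R) (VR.k1 R)) (VR.vpT R)) (VR.h1 R)) (nat_lit
    15)

noncomputable def s483 (R : VR) (i : ℕ) : Bool :=
  Nat.ble (Nat.succ (s477 R i)) (s172 R i)

theorem e483 (R : VR) : B (VR.S R) (v483 R) (s483 R) :=
  L.blt (VR.h1e R) (VR.k1e R) (e477 R) (e172 R)

noncomputable def v484 (R : VR) : ℕ :=
  Nat.land (Nat.shiftRight (Nat.land (Nat.sub (Nat.add (VR.vrT R) (VR.k1 R)) (Nat.mod (Nat.land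
    (v479 R) (srM (VR.N R) (VR.S R) (VR.o1 R) (VR.vrT R))) (VR.m1 R))) (VR.h1 R)) (nat_lit 15))
    (Nat.shiftRight (Nat.land (Nat.sub (Nat.add (v172 R) (VR.k1 R)) (VR.vpT R)) (VR.h1 R))
    (nat_lit 15))

noncomputable def s484 (R : VR) (i : ℕ) : Bool :=
  K.band (s482 R i) (s483 R i)

theorem e484 (R : VR) : B (VR.S R) (v484 R) (s484 R) :=
  B.and (e482 R) (e483 R)

noncomputable def v485 (R : VR) : ℕ :=
  Nat.mod (Nat.land (v479 R) (v9 R)) (VR.m1 R)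

noncomputable def s485 (R : VR) (i : ℕ) : ℕ :=
  tx (VR.lT R) (s477 R i)

theorem e485 (R : VR) : L (VR.S R) (v485 R) (s485 R) 29 :=
  L.gat (e477 R) (VR.l_is R) (VR.l_lt R) (VR.l_le R)

noncomputable def v486 (R : VR) : ℕ :=
  Nat.shiftRight (Nat.land (Nat.sub (VR.h1 R) (Nat.xor (Nat.mod (Nat.land (v479 R) (v9 R)) (VR.m1
    R)) (VR.lT R))) (VR.h1 R)) (nat_lit 15)

noncomputable def s486 (R : VR) (i : ℕ) : Bool :=
  Nat.beq (s485 R i) (s7 R i)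

theorem e486 (R : VR) : B (VR.S R) (v486 R) (s486 R) :=
  L.beq (VR.h1e R) (e485 R) (e7 R)

noncomputable def v487 (R : VR) : ℕ :=
  Nat.land (Nat.land (Nat.shiftRight (Nat.land (Nat.sub (Nat.add (VR.vrT R) (VR.k1 R)) (Nat.mod
    (Nat.land (v479 R) (srM (VR.N R) (VR.S R) (VR.o1 R) (VR.vrT R))) (VR.m1 R))) (VR.h1 R))
    (nat_lit 15)) (Nat.shiftRight (Nat.land (Nat.sub (Nat.add (v172 R) (VR.k1 R)) (VR.vpT R))
    (VR.h1 R)) (nat_lit 15))) (Nat.shiftRight (Nat.land (Nat.sub (VR.h1 R) (Nat.xor (Nat.mod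
    (Nat.land (v479 R) (v9 R)) (VR.m1 R)) (VR.lT R))) (VR.h1 R)) (nat_lit 15))

noncomputable def s487 (R : VR) (i : ℕ) : Bool :=
  K.band (s484 R i) (s486 R i)

theorem e487 (R : VR) : B (VR.S R) (v487 R) (s487 R) :=
  B.and (e484 R) (e486 R)

noncomputable def v488 (R : VR) : ℕ :=
  Nat.mod (Nat.land (v187 R) (v178 R)) (VR.m1 R)

noncomputable def s488 (R : VR) (i : ℕ) : ℕ :=
  tx (VR.phiT R) (s174 R i)

theorem e488 (R : VR) : L (VR.S R) (v488 R) (s488 R) 255 :=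
  L.gat (e174 R) (VR.phi_is R) (VR.phi_lt R) (VR.phi_le R)

noncomputable def v489 (R : VR) : ℕ :=
  Nat.shiftRight (Nat.land (Nat.sub (VR.h1 R) (Nat.xor (VR.vpT R) (Nat.mod (Nat.land (v187 R)
    (v178 R)) (VR.m1 R)))) (VR.h1 R)) (nat_lit 15)

noncomputable def s489 (R : VR) (i : ℕ) : Bool :=
  Nat.beq (s477 R i) (s488 R i)

theorem e489 (R : VR) : B (VR.S R) (v489 R) (s489 R) :=
  L.beq (VR.h1e R) (e477 R) (e488 R)

noncomputable def v490 (R : VR) : ℕ :=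
  Nat.land (v432 R) (Nat.shiftRight (Nat.land (Nat.sub (VR.h1 R) (Nat.xor (VR.vpT R) (Nat.mod
    (Nat.land (v187 R) (v178 R)) (VR.m1 R)))) (VR.h1 R)) (nat_lit 15))

noncomputable def s490 (R : VR) (i : ℕ) : Bool :=
  K.band (s432 R i) (s489 R i)

theorem e490 (R : VR) : B (VR.S R) (v490 R) (s490 R) :=
  B.and (e432 R) (e489 R)

noncomputable def v491 (R : VR) : ℕ :=
  Nat.mod (Nat.land (v180 R) (v188 R)) (VR.m1 R)

noncomputable def s491 (R : VR) (i : ℕ) : ℕ :=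
  tx (VR.alT R) (s179 R i)

theorem e491 (R : VR) : L (VR.S R) (v491 R) (s491 R) 255 :=
  L.gat (e179 R) (VR.al_is R) (VR.al_lt R) (VR.al_le R)

noncomputable def v492 (R : VR) : ℕ :=
  Nat.shiftRight (Nat.land (Nat.sub (VR.h1 R) (Nat.xor (v491 R) (v179 R))) (VR.h1 R)) (nat_lit 15)

noncomputable def s492 (R : VR) (i : ℕ) : Bool :=
  Nat.beq (s491 R i) (s179 R i)

theorem e492 (R : VR) : B (VR.S R) (v492 R) (s492 R) :=
  L.beq (VR.h1e R) (e491 R) (e179 R)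

noncomputable def v493 (R : VR) : ℕ :=
  Nat.sub (VR.o1 R) (Nat.shiftRight (Nat.land (Nat.sub (VR.h1 R) (Nat.xor (v491 R) (v179 R)))
    (VR.h1 R)) (nat_lit 15))

noncomputable def s493 (R : VR) (i : ℕ) : Bool :=
  K.bnot (s492 R i)

theorem e493 (R : VR) : B (VR.S R) (v493 R) (s493 R) :=
  B.not (VR.o1e R) (e492 R)

noncomputable def v494 (R : VR) : ℕ :=
  Nat.shiftRight (Nat.land (Nat.sub (VR.h1 R) (Nat.xor (VR.vpT R) (v491 R))) (VR.h1 R)) (nat_lit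
    15)

noncomputable def s494 (R : VR) (i : ℕ) : Bool :=
  Nat.beq (s477 R i) (s491 R i)

theorem e494 (R : VR) : B (VR.S R) (v494 R) (s494 R) :=
  L.beq (VR.h1e R) (e477 R) (e491 R)

noncomputable def v495 (R : VR) : ℕ :=
  Nat.land (Nat.sub (VR.o1 R) (Nat.shiftRight (Nat.land (Nat.sub (VR.h1 R) (Nat.xor (v491 R) (v179
    R))) (VR.h1 R)) (nat_lit 15))) (Nat.shiftRight (Nat.land (Nat.sub (VR.h1 R) (Nat.xor (VR.vpT
    R) (v491 R))) (VR.h1 R)) (nat_lit 15))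

noncomputable def s495 (R : VR) (i : ℕ) : Bool :=
  K.band (s493 R i) (s494 R i)

theorem e495 (R : VR) : B (VR.S R) (v495 R) (s495 R) :=
  B.and (e493 R) (e494 R)

noncomputable def v496 (R : VR) : ℕ :=
  Nat.lor (Nat.land (v432 R) (Nat.shiftRight (Nat.land (Nat.sub (VR.h1 R) (Nat.xor (VR.vpT R)
    (Nat.mod (Nat.land (v187 R) (v178 R)) (VR.m1 R)))) (VR.h1 R)) (nat_lit 15))) (Nat.land
    (Nat.sub (VR.o1 R) (Nat.shiftRight (Nat.land (Nat.sub (VR.h1 R) (Nat.xor (v491 R) (v179 R)))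
    (VR.h1 R)) (nat_lit 15))) (Nat.shiftRight (Nat.land (Nat.sub (VR.h1 R) (Nat.xor (VR.vpT R)
    (v491 R))) (VR.h1 R)) (nat_lit 15)))

noncomputable def s496 (R : VR) (i : ℕ) : Bool :=
  K.bor (s490 R i) (s495 R i)

theorem e496 (R : VR) : B (VR.S R) (v496 R) (s496 R) :=
  B.or (e490 R) (e495 R)

noncomputable def v497 (R : VR) : ℕ :=
  Nat.land (v487 R) (Nat.lor (Nat.land (v432 R) (Nat.shiftRight (Nat.land (Nat.sub (VR.h1 R)
    (Nat.xor (VR.vpT R) (Nat.mod (Nat.land (v187 R) (v178 R)) (VR.m1 R)))) (VR.h1 R)) (nat_lit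
    15))) (Nat.land (Nat.sub (VR.o1 R) (Nat.shiftRight (Nat.land (Nat.sub (VR.h1 R) (Nat.xor (v491
    R) (v179 R))) (VR.h1 R)) (nat_lit 15))) (Nat.shiftRight (Nat.land (Nat.sub (VR.h1 R) (Nat.xor
    (VR.vpT R) (v491 R))) (VR.h1 R)) (nat_lit 15))))

noncomputable def s497 (R : VR) (i : ℕ) : Bool :=
  K.band (s487 R i) (s496 R i)

theorem e497 (R : VR) : B (VR.S R) (v497 R) (s497 R) :=
  B.and (e487 R) (e496 R)

noncomputable def v498 (R : VR) : ℕ :=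
  Nat.lor (Nat.shiftRight (Nat.land (Nat.sub (VR.h1 R) (Nat.xor (VR.iota R) (v475 R))) (VR.h1 R))
    (nat_lit 15)) (v497 R)

noncomputable def s498 (R : VR) (i : ℕ) : Bool :=
  K.bor (s476 R i) (s497 R i)

theorem e498 (R : VR) : B (VR.S R) (v498 R) (s498 R) :=
  B.or (e476 R) (e497 R)

noncomputable def v499 (R : VR) : ℕ :=
  Nat.land (v471 R) (Nat.lor (Nat.shiftRight (Nat.land (Nat.sub (VR.h1 R) (Nat.xor (VR.iota R)
    (v475 R))) (VR.h1 R)) (nat_lit 15)) (v497 R))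

noncomputable def s499 (R : VR) (i : ℕ) : Bool :=
  K.band (s471 R i) (s498 R i)

theorem e499 (R : VR) : B (VR.S R) (v499 R) (s499 R) :=
  B.and (e471 R) (e498 R)

noncomputable def v500 (R : VR) : ℕ :=
  Nat.shiftRight (Nat.land (Nat.sub (Nat.add (v172 R) (VR.k1 R)) (v475 R)) (VR.h1 R)) (nat_lit 15)

noncomputable def s500 (R : VR) (i : ℕ) : Bool :=
  Nat.ble (Nat.succ (s475 R i)) (s172 R i)

theorem e500 (R : VR) : B (VR.S R) (v500 R) (s500 R) :=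
  L.blt (VR.h1e R) (VR.k1e R) (e475 R) (e172 R)

noncomputable def v501 (R : VR) : ℕ :=
  Nat.land (Nat.land (v471 R) (Nat.lor (Nat.shiftRight (Nat.land (Nat.sub (VR.h1 R) (Nat.xor
    (VR.iota R) (v475 R))) (VR.h1 R)) (nat_lit 15)) (v497 R))) (Nat.shiftRight (Nat.land (Nat.sub
    (Nat.add (v172 R) (VR.k1 R)) (v475 R)) (VR.h1 R)) (nat_lit 15))

noncomputable def s501 (R : VR) (i : ℕ) : Bool :=
  K.band (s499 R i) (s500 R i)

theorem e501 (R : VR) : B (VR.S R) (v501 R) (s501 R) :=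
  B.and (e499 R) (e500 R)

noncomputable def v502 (R : VR) : ℕ :=
  gmk (VR.h2 R) (VR.J R) (Nat.mul (v475 R) (VR.cr1 R))

noncomputable def v503 (R : VR) : ℕ :=
  Nat.mod (Nat.land (gmk (VR.h2 R) (VR.J R) (Nat.mul (v475 R) (VR.cr1 R))) (v9 R)) (VR.m1 R)

noncomputable def s503 (R : VR) (i : ℕ) : ℕ :=
  tx (VR.lT R) (s475 R i)

theorem e503 (R : VR) : L (VR.S R) (v503 R) (s503 R) 29 :=
  L.gat (e475 R) (VR.l_is R) (VR.l_lt R) (VR.l_le R)

noncomputable def v504 (R : VR) : ℕ :=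
  Nat.shiftRight (Nat.land (Nat.sub (VR.h1 R) (Nat.xor (Nat.mod (Nat.land (gmk (VR.h2 R) (VR.J R)
    (Nat.mul (v475 R) (VR.cr1 R))) (v9 R)) (VR.m1 R)) (VR.lT R))) (VR.h1 R)) (nat_lit 15)

noncomputable def s504 (R : VR) (i : ℕ) : Bool :=
  Nat.beq (s503 R i) (s7 R i)

theorem e504 (R : VR) : B (VR.S R) (v504 R) (s504 R) :=
  L.beq (VR.h1e R) (e503 R) (e7 R)

noncomputable def v505 (R : VR) : ℕ :=
  Nat.land (Nat.land (Nat.land (v471 R) (Nat.lor (Nat.shiftRight (Nat.land (Nat.sub (VR.h1 R)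
    (Nat.xor (VR.iota R) (v475 R))) (VR.h1 R)) (nat_lit 15)) (v497 R))) (Nat.shiftRight (Nat.land
    (Nat.sub (Nat.add (v172 R) (VR.k1 R)) (v475 R)) (VR.h1 R)) (nat_lit 15))) (Nat.shiftRight
    (Nat.land (Nat.sub (VR.h1 R) (Nat.xor (Nat.mod (Nat.land (gmk (VR.h2 R) (VR.J R) (Nat.mul
    (v475 R) (VR.cr1 R))) (v9 R)) (VR.m1 R)) (VR.lT R))) (VR.h1 R)) (nat_lit 15))

noncomputable def s505 (R : VR) (i : ℕ) : Bool :=
  K.band (s501 R i) (s504 R i)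

theorem e505 (R : VR) : B (VR.S R) (v505 R) (s505 R) :=
  B.and (e501 R) (e504 R)

noncomputable def v506 (R : VR) : Bool :=
  Nat.beq (Nat.land (Nat.sub (VR.o1 R) (v505 R)) (mM (v112 R))) (nat_lit 0)

noncomputable def s506 (R : VR) : Bool :=
  K.allN (s112 R) (s505 R)

theorem e506 (R : VR) : (v506 R) = s506 R :=
  all0 (e505 R) (VR.n_le R)

noncomputable def s507 (R : VR) : Bool :=
  K.allN (s112 R) (fun (x12 : ℕ) => (K.band (K.band (K.band (K.band (K.band (Nat.ble (Nat.succ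
    (FC6.Sp.rj (VR.Q R) x12)) (FC6.Sp.ns (VR.Q R))) (Nat.beq (FC6.Sp.nf (VR.Q R) (FC6.Sp.rk (VR.Q
    R) x12) (FC6.Sp.rj (VR.Q R) x12)) x12)) (Bool.rec (motive := fun _ => Bool) (Bool.rec (motive
    := fun _ => Bool) (K.band (K.band (K.band (K.band (K.band (Nat.beq (FC6.Sp.rk (VR.Q R) x12)
    (nat_lit 2)) (Nat.beq (FC6.Pa.φ (VR.P R) x12) (FC6.Sp.nf (VR.Q R) (nat_lit 1) (FC6.Sp.ρi (VR.Q
    R) (FC6.Sp.rj (VR.Q R) x12))))) (Nat.beq (FC6.Pa.α (VR.P R) x12) x12)) (Nat.beq (FC6.Sp.π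
    (VR.Q R) (FC6.Sp.rj (VR.Q R) x12)) (FC6.Sp.rj (VR.Q R) x12))) (Nat.beq (FC6.Sp.π (VR.Q R)
    (FC6.Sp.ρi (VR.Q R) (FC6.Sp.rj (VR.Q R) x12))) (FC6.Sp.ρi (VR.Q R) (FC6.Sp.rj (VR.Q R) x12))))
    (K.beqB (FC6.Pa.real (VR.P R) x12) (K.beqB (FC6.Sp.rl (VR.Q R) (FC6.Sp.rj (VR.Q R) x12))
    (FC6.Sp.rl (VR.Q R) (FC6.Sp.ρi (VR.Q R) (FC6.Sp.rj (VR.Q R) x12)))))) (K.band (K.band (K.band
    (K.band (Nat.beq (FC6.Pa.φ (VR.P R) x12) (FC6.Sp.nf (VR.Q R) (nat_lit 0) (FC6.Sp.ρ (VR.Q R)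
    (FC6.Sp.rj (VR.Q R) x12)))) (Nat.beq (FC6.Pa.α (VR.P R) x12) (FC6.Sp.nf (VR.Q R) (nat_lit 0)
    (FC6.Sp.rj (VR.Q R) x12)))) (K.bnot (Nat.beq (FC6.Pa.α (VR.P R) x12) x12))) (Nat.beq (FC6.Sp.π
    (VR.Q R) (FC6.Sp.rj (VR.Q R) x12)) (FC6.Sp.rj (VR.Q R) x12))) (K.beqB (FC6.Pa.real (VR.P R)
    x12) (FC6.Sp.rl (VR.Q R) (FC6.Sp.rj (VR.Q R) x12)))) (Nat.beq (FC6.Sp.rk (VR.Q R) x12)
    (nat_lit 1))) (K.band (K.band (K.band (Nat.beq (FC6.Pa.φ (VR.P R) x12) (FC6.Sp.nf (VR.Q R)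
    (nat_lit 2) (FC6.Sp.rj (VR.Q R) x12))) (Nat.beq (FC6.Pa.α (VR.P R) x12) (FC6.Sp.nf (VR.Q R)
    (nat_lit 1) (FC6.Sp.rj (VR.Q R) x12)))) (K.bnot (Nat.beq (FC6.Pa.α (VR.P R) x12) x12)))
    (K.beqB (FC6.Pa.real (VR.P R) x12) (FC6.Sp.rl (VR.Q R) (FC6.Sp.rj (VR.Q R) x12)))) (Nat.beq
    (FC6.Sp.rk (VR.Q R) x12) (nat_lit 0)))) (K.bor (Nat.beq x12 (FC6.Sp.lr (VR.Q R) (FC6.Pa.l
    (VR.P R) x12))) (K.band (K.band (K.band (Nat.ble (Nat.succ (FC6.Sp.vr (VR.Q R) (FC6.Sp.vp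
    (VR.Q R) x12))) (FC6.Sp.vr (VR.Q R) x12)) (Nat.ble (Nat.succ (FC6.Sp.vp (VR.Q R) x12))
    (FC6.Pa.n (VR.P R)))) (Nat.beq (FC6.Pa.l (VR.P R) (FC6.Sp.vp (VR.Q R) x12)) (FC6.Pa.l (VR.P R)
    x12))) (K.bor (K.band (K.bnot (Nat.beq (FC6.Pa.α (VR.P R) x12) x12)) (Nat.beq (FC6.Sp.vp (VR.Q
    R) x12) (FC6.Pa.φ (VR.P R) (FC6.Pa.α (VR.P R) x12)))) (K.band (K.bnot (Nat.beq (FC6.Pa.α (VR.P
    R) (FC6.Pa.φ (VR.P R) (FC6.Pa.φ (VR.P R) x12))) (FC6.Pa.φ (VR.P R) (FC6.Pa.φ (VR.P R) x12))))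
    (Nat.beq (FC6.Sp.vp (VR.Q R) x12) (FC6.Pa.α (VR.P R) (FC6.Pa.φ (VR.P R) (FC6.Pa.φ (VR.P R)
    x12))))))))) (Nat.ble (Nat.succ (FC6.Sp.lr (VR.Q R) (FC6.Pa.l (VR.P R) x12))) (FC6.Pa.n (VR.P
    R)))) (Nat.beq (FC6.Pa.l (VR.P R) (FC6.Sp.lr (VR.Q R) (FC6.Pa.l (VR.P R) x12))) (FC6.Pa.l
    (VR.P R) x12))))

theorem e507 (R : VR) : (v506 R) = s507 R :=
  e506 R

noncomputable def v508 (R : VR) : Bool :=
  K.band (K.band (v198 R) (Nat.beq (Nat.land (Nat.sub (VR.o1 R) (v411 R)) (mM (v201 R))) (nat_lit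
    0))) (Nat.beq (Nat.land (Nat.sub (VR.o1 R) (v505 R)) (mM (v112 R))) (nat_lit 0))

noncomputable def s508 (R : VR) : Bool :=
  K.band (s414 R) (s507 R)

theorem e508 (R : VR) : (v508 R) = s508 R :=
  congrArg₂ K.band (e414 R) (e507 R)

noncomputable def s509 (R : VR) : Bool :=
  K.Sp_chk (VR.Q R) (VR.P R)

theorem e509 (R : VR) : (v508 R) = s509 R :=
  e508 R

noncomputable def v510 (R : VR) : ℕ :=
  VR.nc R

noncomputable def s510 (R : VR) : ℕ :=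
  VR.nc R

theorem e510 (R : VR) : (v510 R) = s510 R :=
  rfl

theorem b510 (R : VR) : s510 R ≤ 10 :=
  VR.nc_b R

noncomputable def v511 (R : VR) : ℕ :=
  Nat.mul (VR.o1 R) (v23 R)

noncomputable def s511 (R : VR) (i : ℕ) : ℕ :=
  (s23 R)

theorem e511 (R : VR) : L (VR.S R) (v511 R) (s511 R) 0 :=
  L.scl (VR.o1e R) (e23 R) (le_of_eq (rfl : s23 R = (nat_lit 0))) (by decide)

noncomputable def v512 (R : VR) : ℕ :=
  Nat.shiftRight (Nat.land (Nat.sub (Nat.add (VR.zmT R) (VR.k1 R)) (v511 R)) (VR.h1 R)) (nat_lit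
    15)

noncomputable def s512 (R : VR) (i : ℕ) : Bool :=
  Nat.ble (Nat.succ (s511 R i)) (s131 R i)

theorem e512 (R : VR) : B (VR.S R) (v512 R) (s512 R) :=
  L.blt (VR.h1e R) (VR.k1e R) (e511 R) (e131 R)

noncomputable def s513 (R : VR) (i : ℕ) : ℕ :=
  tx (VR.offT R) i

theorem e513 (R : VR) : L (VR.S R) (VR.offT R) (s513 R) 255 :=
  VR.off_is R

noncomputable def v514 (R : VR) : ℕ :=
  Nat.add (VR.offT R) (VR.zmT R)

noncomputable def s514 (R : VR) (i : ℕ) : ℕ :=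
  Nat.add (s513 R i) (s131 R i)

theorem e514 (R : VR) : L (VR.S R) (v514 R) (s514 R) 510 :=
  L.add (e513 R) (e131 R) (by decide)

noncomputable def v515 (R : VR) : ℕ :=
  Nat.shiftRight (Nat.land (Nat.sub (Nat.add (v202 R) (VR.h1 R)) (v514 R)) (VR.h1 R)) (nat_lit 15)

noncomputable def s515 (R : VR) (i : ℕ) : Bool :=
  Nat.ble (s514 R i) (s202 R i)

theorem e515 (R : VR) : B (VR.S R) (v515 R) (s515 R) :=
  L.ble (VR.h1e R) (e514 R) (e202 R)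

noncomputable def v516 (R : VR) : ℕ :=
  Nat.land (Nat.shiftRight (Nat.land (Nat.sub (Nat.add (VR.zmT R) (VR.k1 R)) (v511 R)) (VR.h1 R))
    (nat_lit 15)) (Nat.shiftRight (Nat.land (Nat.sub (Nat.add (v202 R) (VR.h1 R)) (v514 R)) (VR.h1
    R)) (nat_lit 15))

noncomputable def s516 (R : VR) (i : ℕ) : Bool :=
  K.band (s512 R i) (s515 R i)

theorem e516 (R : VR) : B (VR.S R) (v516 R) (s516 R) :=
  B.and (e512 R) (e515 R)

noncomputable def v517 (R : VR) : ℕ :=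
  Nat.shiftRight (Nat.land (Nat.sub (VR.h1 R) (VR.iota R)) (VR.h1 R)) (nat_lit 15)

noncomputable def s517 (R : VR) (i : ℕ) : Bool :=
  Nat.beq (s0 R i) (nat_lit 0)

theorem e517 (R : VR) : B (VR.S R) (v517 R) (s517 R) :=
  L.ez (VR.h1e R) (e0 R)

noncomputable def s518 (R : VR) (i : ℕ) : ℕ :=
  tx (VR.zpaT R) i

theorem e518 (R : VR) : L (VR.S R) (VR.zpaT R) (s518 R) 255 :=
  VR.zpa_is R

noncomputable def v519 (R : VR) : ℕ :=
  Nat.shiftRight (Nat.land (Nat.sub (Nat.add (VR.iota R) (VR.k1 R)) (VR.zpaT R)) (VR.h1 R))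
    (nat_lit 15)

noncomputable def s519 (R : VR) (i : ℕ) : Bool :=
  Nat.ble (Nat.succ (s518 R i)) (s0 R i)

theorem e519 (R : VR) : B (VR.S R) (v519 R) (s519 R) :=
  L.blt (VR.h1e R) (VR.k1e R) (e518 R) (e0 R)

noncomputable def s520 (R : VR) (i : ℕ) : ℕ :=
  tx (VR.jaT R) i

theorem e520 (R : VR) : L (VR.S R) (VR.jaT R) (s520 R) 255 :=
  VR.ja_is R

noncomputable def v521 (R : VR) : ℕ :=
  gmk (VR.h2 R) (VR.J R) (Nat.mul (VR.zpaT R) (VR.cr1 R))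

noncomputable def v522 (R : VR) : ℕ :=
  Nat.mod (Nat.land (gmk (VR.h2 R) (VR.J R) (Nat.mul (VR.zpaT R) (VR.cr1 R))) (v133 R)) (VR.m1 R)

noncomputable def s522 (R : VR) (i : ℕ) : ℕ :=
  tx (VR.zmT R) (s518 R i)

theorem e522 (R : VR) : L (VR.S R) (v522 R) (s522 R) 255 :=
  L.gat (e518 R) (VR.zm_is R) (VR.zm_lt R) (VR.zm_le R)

noncomputable def v523 (R : VR) : ℕ :=
  Nat.shiftRight (Nat.land (Nat.sub (Nat.add (Nat.mod (Nat.land (gmk (VR.h2 R) (VR.J R) (Nat.mul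
    (VR.zpaT R) (VR.cr1 R))) (v133 R)) (VR.m1 R)) (VR.k1 R)) (VR.jaT R)) (VR.h1 R)) (nat_lit 15)

noncomputable def s523 (R : VR) (i : ℕ) : Bool :=
  Nat.ble (Nat.succ (s520 R i)) (s522 R i)

theorem e523 (R : VR) : B (VR.S R) (v523 R) (s523 R) :=
  L.blt (VR.h1e R) (VR.k1e R) (e520 R) (e522 R)

noncomputable def v524 (R : VR) : ℕ :=
  Nat.land (Nat.shiftRight (Nat.land (Nat.sub (Nat.add (VR.iota R) (VR.k1 R)) (VR.zpaT R)) (VR.h1
    R)) (nat_lit 15)) (Nat.shiftRight (Nat.land (Nat.sub (Nat.add (Nat.mod (Nat.land (gmk (VR.h2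
    R) (VR.J R) (Nat.mul (VR.zpaT R) (VR.cr1 R))) (v133 R)) (VR.m1 R)) (VR.k1 R)) (VR.jaT R))
    (VR.h1 R)) (nat_lit 15))

noncomputable def s524 (R : VR) (i : ℕ) : Bool :=
  K.band (s519 R i) (s523 R i)

theorem e524 (R : VR) : B (VR.S R) (v524 R) (s524 R) :=
  B.and (e519 R) (e523 R)

noncomputable def v525 (R : VR) : ℕ :=
  Nat.lor (Nat.shiftRight (Nat.land (Nat.sub (VR.h1 R) (VR.iota R)) (VR.h1 R)) (nat_lit 15))
    (Nat.land (Nat.shiftRight (Nat.land (Nat.sub (Nat.add (VR.iota R) (VR.k1 R)) (VR.zpaT R))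
    (VR.h1 R)) (nat_lit 15)) (Nat.shiftRight (Nat.land (Nat.sub (Nat.add (Nat.mod (Nat.land (gmk
    (VR.h2 R) (VR.J R) (Nat.mul (VR.zpaT R) (VR.cr1 R))) (v133 R)) (VR.m1 R)) (VR.k1 R)) (VR.jaT
    R)) (VR.h1 R)) (nat_lit 15)))

noncomputable def s525 (R : VR) (i : ℕ) : Bool :=
  K.bor (s517 R i) (s524 R i)

theorem e525 (R : VR) : B (VR.S R) (v525 R) (s525 R) :=
  B.or (e517 R) (e524 R)

noncomputable def v526 (R : VR) : ℕ :=
  Nat.land (Nat.land (Nat.shiftRight (Nat.land (Nat.sub (Nat.add (VR.zmT R) (VR.k1 R)) (v511 R))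
    (VR.h1 R)) (nat_lit 15)) (Nat.shiftRight (Nat.land (Nat.sub (Nat.add (v202 R) (VR.h1 R)) (v514
    R)) (VR.h1 R)) (nat_lit 15))) (Nat.lor (Nat.shiftRight (Nat.land (Nat.sub (VR.h1 R) (VR.iota
    R)) (VR.h1 R)) (nat_lit 15)) (Nat.land (Nat.shiftRight (Nat.land (Nat.sub (Nat.add (VR.iota R)
    (VR.k1 R)) (VR.zpaT R)) (VR.h1 R)) (nat_lit 15)) (Nat.shiftRight (Nat.land (Nat.sub (Nat.add
    (Nat.mod (Nat.land (gmk (VR.h2 R) (VR.J R) (Nat.mul (VR.zpaT R) (VR.cr1 R))) (v133 R)) (VR.m1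
    R)) (VR.k1 R)) (VR.jaT R)) (VR.h1 R)) (nat_lit 15))))

noncomputable def s526 (R : VR) (i : ℕ) : Bool :=
  K.band (s516 R i) (s525 R i)

theorem e526 (R : VR) : B (VR.S R) (v526 R) (s526 R) :=
  B.and (e516 R) (e525 R)

noncomputable def v527 (R : VR) : ℕ :=
  Nat.mul (VR.offT R) (VR.cr1 R)

noncomputable def s527 (R : VR) (j i : ℕ) : ℕ :=
  (s513 R i)

theorem e527 (R : VR) : L2 R (v527 R) (s527 R) 255 :=
  L2.rep (e513 R)

noncomputable def v528 (R : VR) : ℕ :=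
  srM (VR.N R) (VR.S R) (VR.o1 R) (VR.iota R)

noncomputable def s528 (R : VR) (j i : ℕ) : ℕ :=
  (s0 R j)

theorem e528 (R : VR) : L2 R (v528 R) (s528 R) 127 :=
  L2.row (e0 R)

noncomputable def v529 (R : VR) : ℕ :=
  Nat.shiftRight (Nat.land (Nat.sub (Nat.add (v528 R) (VR.h2 R)) (Nat.mul (VR.offT R) (VR.cr1 R)))
    (VR.h2 R)) (nat_lit 15)

noncomputable def s529 (R : VR) (j i : ℕ) : Bool :=
  Nat.ble (s527 R j i) (s528 R j i)

theorem e529 (R : VR) : B2 R (v529 R) (s529 R) :=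
  L.ble (VR.h2e R) (e527 R) (e528 R)

noncomputable def v530 (R : VR) : ℕ :=
  Nat.mul (v514 R) (VR.cr1 R)

noncomputable def s530 (R : VR) (j i : ℕ) : ℕ :=
  (s514 R i)

theorem e530 (R : VR) : L2 R (v530 R) (s530 R) 510 :=
  L2.rep (e514 R)

noncomputable def v531 (R : VR) : ℕ :=
  Nat.shiftRight (Nat.land (Nat.sub (Nat.add (Nat.mul (v514 R) (VR.cr1 R)) (VR.k2 R)) (v528 R))
    (VR.h2 R)) (nat_lit 15)

noncomputable def s531 (R : VR) (j i : ℕ) : Bool :=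
  Nat.ble (Nat.succ (s528 R j i)) (s530 R j i)

theorem e531 (R : VR) : B2 R (v531 R) (s531 R) :=
  L.blt (VR.h2e R) (VR.k2e R) (e528 R) (e530 R)

noncomputable def v532 (R : VR) : ℕ :=
  Nat.land (Nat.shiftRight (Nat.land (Nat.sub (Nat.add (v528 R) (VR.h2 R)) (Nat.mul (VR.offT R)
    (VR.cr1 R))) (VR.h2 R)) (nat_lit 15)) (Nat.shiftRight (Nat.land (Nat.sub (Nat.add (Nat.mul
    (v514 R) (VR.cr1 R)) (VR.k2 R)) (v528 R)) (VR.h2 R)) (nat_lit 15))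

noncomputable def s532 (R : VR) (j i : ℕ) : Bool :=
  K.band (s529 R j i) (s531 R j i)

theorem e532 (R : VR) : B2 R (v532 R) (s532 R) :=
  B.and (e529 R) (e531 R)

noncomputable def v533 (R : VR) : ℕ :=
  Nat.sub (VR.o2 R) (Nat.land (Nat.shiftRight (Nat.land (Nat.sub (Nat.add (v528 R) (VR.h2 R))
    (Nat.mul (VR.offT R) (VR.cr1 R))) (VR.h2 R)) (nat_lit 15)) (Nat.shiftRight (Nat.land (Nat.sub
    (Nat.add (Nat.mul (v514 R) (VR.cr1 R)) (VR.k2 R)) (v528 R)) (VR.h2 R)) (nat_lit 15)))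

noncomputable def s533 (R : VR) (j i : ℕ) : Bool :=
  K.bnot (s532 R j i)

theorem e533 (R : VR) : B2 R (v533 R) (s533 R) :=
  B.not (VR.o2e R) (e532 R)

noncomputable def v534 (R : VR) : ℕ :=
  srM (VR.N R) (VR.S R) (VR.o1 R) (VR.caT R)

noncomputable def s534 (R : VR) (j i : ℕ) : ℕ :=
  (s127 R j)

theorem e534 (R : VR) : L2 R (v534 R) (s534 R) 255 :=
  L2.row (e127 R)

noncomputable def v535 (R : VR) : ℕ :=
  Nat.shiftRight (Nat.land (Nat.sub (VR.h2 R) (Nat.xor (v534 R) (v12 R))) (VR.h2 R)) (nat_lit 15)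

noncomputable def s535 (R : VR) (j i : ℕ) : Bool :=
  Nat.beq (s534 R j i) (s12 R j i)

theorem e535 (R : VR) : B2 R (v535 R) (s535 R) :=
  L.beq (VR.h2e R) (e534 R) (e12 R)

noncomputable def v536 (R : VR) : ℕ :=
  Nat.lor (Nat.sub (VR.o2 R) (Nat.land (Nat.shiftRight (Nat.land (Nat.sub (Nat.add (v528 R) (VR.h2
    R)) (Nat.mul (VR.offT R) (VR.cr1 R))) (VR.h2 R)) (nat_lit 15)) (Nat.shiftRight (Nat.land
    (Nat.sub (Nat.add (Nat.mul (v514 R) (VR.cr1 R)) (VR.k2 R)) (v528 R)) (VR.h2 R)) (nat_lit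
    15)))) (Nat.shiftRight (Nat.land (Nat.sub (VR.h2 R) (Nat.xor (v534 R) (v12 R))) (VR.h2 R))
    (nat_lit 15))

noncomputable def s536 (R : VR) (j i : ℕ) : Bool :=
  K.bor (s533 R j i) (s535 R j i)

theorem e536 (R : VR) : B2 R (v536 R) (s536 R) :=
  B.or (e533 R) (e535 R)

noncomputable def v537 (R : VR) : ℕ :=
  Nat.shiftRight (Nat.land (Nat.sub (VR.h1 R) (Nat.mod (Nat.land (Nat.sub (VR.o2 R) (Nat.lor
    (Nat.sub (VR.o2 R) (Nat.land (Nat.shiftRight (Nat.land (Nat.sub (Nat.add (v528 R) (VR.h2 R))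
    (Nat.mul (VR.offT R) (VR.cr1 R))) (VR.h2 R)) (nat_lit 15)) (Nat.shiftRight (Nat.land (Nat.sub
    (Nat.add (Nat.mul (v514 R) (VR.cr1 R)) (VR.k2 R)) (v528 R)) (VR.h2 R)) (nat_lit 15))))
    (Nat.shiftRight (Nat.land (Nat.sub (VR.h2 R) (Nat.xor (v534 R) (v12 R))) (VR.h2 R)) (nat_lit
    15)))) (mM (Nat.mul (v201 R) (VR.S R)))) (VR.m1 R))) (VR.h1 R)) (nat_lit 15)

noncomputable def s537 (R : VR) (i : ℕ) : Bool :=
  K.allN (s201 R) (fun j => (s536 R j i))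

theorem e537 (R : VR) : B (VR.S R) (v537 R) (s537 R) :=
  B.all (e536 R) (VR.ns_le R)

noncomputable def s538 (R : VR) (i : ℕ) : Bool :=
  K.allN (s201 R) (fun (x13 : ℕ) => (K.bor (K.bnot (K.band (Nat.ble (FC6.Stars.off (VR.Z R) i)
    x13) (Nat.ble (Nat.succ x13) (Nat.add (FC6.Stars.off (VR.Z R) i) (FC6.Stars.m (VR.Z R) i)))))
    (Nat.beq (FC6.Stars.ca (VR.Z R) x13) i)))

theorem e538 (R : VR) : B (VR.S R) (v537 R) (s538 R) :=
  e537 R

noncomputable def v539 (R : VR) : ℕ :=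
  Nat.land (v526 R) (v537 R)

noncomputable def s539 (R : VR) (i : ℕ) : Bool :=
  K.band (s526 R i) (s538 R i)

theorem e539 (R : VR) : B (VR.S R) (v539 R) (s539 R) :=
  B.and (e526 R) (e538 R)

noncomputable def v540 (R : VR) : Bool :=
  Nat.beq (Nat.land (Nat.sub (VR.o1 R) (Nat.land (v526 R) (v537 R))) (mM (v510 R))) (nat_lit 0)

noncomputable def s540 (R : VR) : Bool :=
  K.allN (s510 R) (s539 R)

theorem e540 (R : VR) : (v540 R) = s540 R :=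
  all0 (e539 R) (VR.nc_le R)

noncomputable def s541 (R : VR) : Bool :=
  K.allN (s510 R) (fun (x14 : ℕ) => (K.band (K.band (K.band (Nat.ble (Nat.succ (nat_lit 0))
    (FC6.Stars.m (VR.Z R) x14)) (Nat.ble (Nat.add (FC6.Stars.off (VR.Z R) x14) (FC6.Stars.m (VR.Z
    R) x14)) (FC6.Sp.ns (VR.Q R)))) (K.bor (Nat.beq x14 (nat_lit 0)) (K.band (Nat.ble (Nat.succ
    (FC6.Stars.pa (VR.Z R) x14)) x14) (Nat.ble (Nat.succ (FC6.Stars.ja (VR.Z R) x14)) (FC6.Stars.m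
    (VR.Z R) (FC6.Stars.pa (VR.Z R) x14)))))) (K.allN (FC6.Sp.ns (VR.Q R)) (fun (x15 : ℕ) =>
    (K.bor (K.bnot (K.band (Nat.ble (FC6.Stars.off (VR.Z R) x14) x15) (Nat.ble (Nat.succ x15)
    (Nat.add (FC6.Stars.off (VR.Z R) x14) (FC6.Stars.m (VR.Z R) x14))))) (Nat.beq (FC6.Stars.ca
    (VR.Z R) x15) x14))))))

theorem e541 (R : VR) : (v540 R) = s541 R :=
  e540 R

noncomputable def v542 (R : VR) : Bool :=
  K.band (K.band (K.band (v198 R) (Nat.beq (Nat.land (Nat.sub (VR.o1 R) (v411 R)) (mM (v201 R)))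
    (nat_lit 0))) (Nat.beq (Nat.land (Nat.sub (VR.o1 R) (v505 R)) (mM (v112 R))) (nat_lit 0)))
    (Nat.beq (Nat.land (Nat.sub (VR.o1 R) (Nat.land (v526 R) (v537 R))) (mM (v510 R))) (nat_lit
    0))

noncomputable def s542 (R : VR) : Bool :=
  K.band (s509 R) (s541 R)

theorem e542 (R : VR) : (v542 R) = s542 R :=
  congrArg₂ K.band (e509 R) (e541 R)

noncomputable def v543 (R : VR) : ℕ :=
  Nat.mul (VR.o1 R) (v510 R)

noncomputable def s543 (R : VR) (i : ℕ) : ℕ :=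
  (s510 R)

theorem e543 (R : VR) : L (VR.S R) (v543 R) (s543 R) 10 :=
  L.scl (VR.o1e R) (e510 R) (b510 R) (by decide)

noncomputable def v544 (R : VR) : ℕ :=
  Nat.shiftRight (Nat.land (Nat.sub (Nat.add (v543 R) (VR.k1 R)) (VR.caT R)) (VR.h1 R)) (nat_lit
    15)

noncomputable def s544 (R : VR) (i : ℕ) : Bool :=
  Nat.ble (Nat.succ (s127 R i)) (s543 R i)

theorem e544 (R : VR) : B (VR.S R) (v544 R) (s544 R) :=
  L.blt (VR.h1e R) (VR.k1e R) (e127 R) (e543 R)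

noncomputable def v545 (R : VR) : ℕ :=
  gmk (VR.h2 R) (VR.J R) (Nat.mul (VR.caT R) (VR.cr1 R))

noncomputable def v546 (R : VR) : ℕ :=
  srM (VR.N R) (VR.S R) (VR.o1 R) (VR.offT R)

noncomputable def v547 (R : VR) : ℕ :=
  Nat.mod (Nat.land (v545 R) (v546 R)) (VR.m1 R)

noncomputable def s547 (R : VR) (i : ℕ) : ℕ :=
  tx (VR.offT R) (s127 R i)

theorem e547 (R : VR) : L (VR.S R) (v547 R) (s547 R) 255 :=
  L.gat (e127 R) (VR.off_is R) (VR.off_lt R) (VR.off_le R)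

noncomputable def v548 (R : VR) : ℕ :=
  Nat.shiftRight (Nat.land (Nat.sub (Nat.add (VR.iota R) (VR.h1 R)) (v547 R)) (VR.h1 R)) (nat_lit
    15)

noncomputable def s548 (R : VR) (i : ℕ) : Bool :=
  Nat.ble (s547 R i) (s0 R i)

theorem e548 (R : VR) : B (VR.S R) (v548 R) (s548 R) :=
  L.ble (VR.h1e R) (e547 R) (e0 R)

noncomputable def v549 (R : VR) : ℕ :=
  Nat.land (Nat.shiftRight (Nat.land (Nat.sub (Nat.add (v543 R) (VR.k1 R)) (VR.caT R)) (VR.h1 R))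
    (nat_lit 15)) (Nat.shiftRight (Nat.land (Nat.sub (Nat.add (VR.iota R) (VR.h1 R)) (v547 R))
    (VR.h1 R)) (nat_lit 15))

noncomputable def s549 (R : VR) (i : ℕ) : Bool :=
  K.band (s544 R i) (s548 R i)

theorem e549 (R : VR) : B (VR.S R) (v549 R) (s549 R) :=
  B.and (e544 R) (e548 R)

noncomputable def v550 (R : VR) : ℕ :=
  Nat.mod (Nat.land (v545 R) (v133 R)) (VR.m1 R)

noncomputable def s550 (R : VR) (i : ℕ) : ℕ :=
  tx (VR.zmT R) (s127 R i)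

theorem e550 (R : VR) : L (VR.S R) (v550 R) (s550 R) 255 :=
  L.gat (e127 R) (VR.zm_is R) (VR.zm_lt R) (VR.zm_le R)

noncomputable def v551 (R : VR) : ℕ :=
  Nat.add (v547 R) (Nat.mod (Nat.land (v545 R) (v133 R)) (VR.m1 R))

noncomputable def s551 (R : VR) (i : ℕ) : ℕ :=
  Nat.add (s547 R i) (s550 R i)

theorem e551 (R : VR) : L (VR.S R) (v551 R) (s551 R) 510 :=
  L.add (e547 R) (e550 R) (by decide)

noncomputable def v552 (R : VR) : ℕ :=
  Nat.shiftRight (Nat.land (Nat.sub (Nat.add (v551 R) (VR.k1 R)) (VR.iota R)) (VR.h1 R)) (nat_lit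
    15)

noncomputable def s552 (R : VR) (i : ℕ) : Bool :=
  Nat.ble (Nat.succ (s0 R i)) (s551 R i)

theorem e552 (R : VR) : B (VR.S R) (v552 R) (s552 R) :=
  L.blt (VR.h1e R) (VR.k1e R) (e0 R) (e551 R)

noncomputable def v553 (R : VR) : ℕ :=
  Nat.land (Nat.land (Nat.shiftRight (Nat.land (Nat.sub (Nat.add (v543 R) (VR.k1 R)) (VR.caT R))
    (VR.h1 R)) (nat_lit 15)) (Nat.shiftRight (Nat.land (Nat.sub (Nat.add (VR.iota R) (VR.h1 R))
    (v547 R)) (VR.h1 R)) (nat_lit 15))) (Nat.shiftRight (Nat.land (Nat.sub (Nat.add (v551 R)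
    (VR.k1 R)) (VR.iota R)) (VR.h1 R)) (nat_lit 15))

noncomputable def s553 (R : VR) (i : ℕ) : Bool :=
  K.band (s549 R i) (s552 R i)

theorem e553 (R : VR) : B (VR.S R) (v553 R) (s553 R) :=
  B.and (e549 R) (e552 R)

noncomputable def v554 (R : VR) : ℕ :=
  Nat.add (VR.iota R) (v267 R)

noncomputable def s554 (R : VR) (i : ℕ) : ℕ :=
  Nat.add (s0 R i) (s267 R i)

theorem e554 (R : VR) : L (VR.S R) (v554 R) (s554 R) 128 :=
  L.add (e0 R) (e267 R) (by decide)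

noncomputable def v555 (R : VR) : ℕ :=
  Nat.shiftRight (Nat.land (Nat.sub (Nat.add (v551 R) (VR.k1 R)) (v554 R)) (VR.h1 R)) (nat_lit 15)

noncomputable def s555 (R : VR) (i : ℕ) : Bool :=
  Nat.ble (Nat.succ (s554 R i)) (s551 R i)

theorem e555 (R : VR) : B (VR.S R) (v555 R) (s555 R) :=
  L.blt (VR.h1e R) (VR.k1e R) (e554 R) (e551 R)

noncomputable def v556 (R : VR) : ℕ :=
  Nat.xor (v547 R) (Nat.land (Nat.xor (v547 R) (v554 R)) (Nat.mul (Nat.shiftRight (Nat.land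
    (Nat.sub (Nat.add (v551 R) (VR.k1 R)) (v554 R)) (VR.h1 R)) (nat_lit 15)) (nat_lit 32767)))

noncomputable def s556 (R : VR) (i : ℕ) : ℕ :=
  Bool.rec (motive := fun _ => ℕ) (s547 R i) (s554 R i) (s555 R i)

theorem e556 (R : VR) : L (VR.S R) (v556 R) (s556 R) 255 :=
  L.sel (e555 R) (e554 R) (e547 R) (by decide) (by decide) (by decide)

noncomputable def v557 (R : VR) : ℕ :=
  Nat.shiftRight (Nat.land (Nat.sub (VR.h1 R) (Nat.xor (VR.rhoT R) (Nat.xor (v547 R) (Nat.land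
    (Nat.xor (v547 R) (v554 R)) (Nat.mul (Nat.shiftRight (Nat.land (Nat.sub (Nat.add (v551 R)
    (VR.k1 R)) (v554 R)) (VR.h1 R)) (nat_lit 15)) (nat_lit 32767)))))) (VR.h1 R)) (nat_lit 15)

noncomputable def s557 (R : VR) (i : ℕ) : Bool :=
  Nat.beq (s158 R i) (s556 R i)

theorem e557 (R : VR) : B (VR.S R) (v557 R) (s557 R) :=
  L.beq (VR.h1e R) (e158 R) (e556 R)

noncomputable def v558 (R : VR) : ℕ :=
  Nat.land (Nat.land (Nat.land (Nat.shiftRight (Nat.land (Nat.sub (Nat.add (v543 R) (VR.k1 R))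
    (VR.caT R)) (VR.h1 R)) (nat_lit 15)) (Nat.shiftRight (Nat.land (Nat.sub (Nat.add (VR.iota R)
    (VR.h1 R)) (v547 R)) (VR.h1 R)) (nat_lit 15))) (Nat.shiftRight (Nat.land (Nat.sub (Nat.add
    (v551 R) (VR.k1 R)) (VR.iota R)) (VR.h1 R)) (nat_lit 15))) (Nat.shiftRight (Nat.land (Nat.sub
    (VR.h1 R) (Nat.xor (VR.rhoT R) (Nat.xor (v547 R) (Nat.land (Nat.xor (v547 R) (v554 R))
    (Nat.mul (Nat.shiftRight (Nat.land (Nat.sub (Nat.add (v551 R) (VR.k1 R)) (v554 R)) (VR.h1 R))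
    (nat_lit 15)) (nat_lit 32767)))))) (VR.h1 R)) (nat_lit 15))

noncomputable def s558 (R : VR) (i : ℕ) : Bool :=
  K.band (s553 R i) (s557 R i)

theorem e558 (R : VR) : B (VR.S R) (v558 R) (s558 R) :=
  B.and (e553 R) (e557 R)

noncomputable def v559 (R : VR) : ℕ :=
  gmk (VR.h2 R) (VR.J R) (Nat.mul (v547 R) (VR.cr1 R))

noncomputable def v560 (R : VR) : ℕ :=
  Nat.mod (Nat.land (gmk (VR.h2 R) (VR.J R) (Nat.mul (v547 R) (VR.cr1 R))) (v235 R)) (VR.m1 R)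

noncomputable def s560 (R : VR) (i : ℕ) : ℕ :=
  tx (VR.nf0T R) (s547 R i)

theorem e560 (R : VR) : L (VR.S R) (v560 R) (s560 R) 255 :=
  L.gat (e547 R) (VR.nf0_is R) (VR.nf0_lt R) (VR.nf0_le R)

noncomputable def s561 (R : VR) (i : ℕ) : ℕ :=
  (FC6.Sp.nf (VR.Q R)) (s23 R) (s547 R i)

theorem e561 (R : VR) : L (VR.S R) (v560 R) (s561 R) 255 :=
  e560 R

noncomputable def v562 (R : VR) : ℕ :=
  gmk (VR.h2 R) (VR.J R) (Nat.mul (Nat.mod (Nat.land (gmk (VR.h2 R) (VR.J R) (Nat.mul (v547 R)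
    (VR.cr1 R))) (v235 R)) (VR.m1 R)) (VR.cr1 R))

noncomputable def v563 (R : VR) : ℕ :=
  Nat.mod (Nat.land (gmk (VR.h2 R) (VR.J R) (Nat.mul (Nat.mod (Nat.land (gmk (VR.h2 R) (VR.J R)
    (Nat.mul (v547 R) (VR.cr1 R))) (v235 R)) (VR.m1 R)) (VR.cr1 R))) (v9 R)) (VR.m1 R)

noncomputable def s563 (R : VR) (i : ℕ) : ℕ :=
  tx (VR.lT R) (s561 R i)

theorem e563 (R : VR) : L (VR.S R) (v563 R) (s563 R) 29 :=
  L.gat (e561 R) (VR.l_is R) (VR.l_lt R) (VR.l_le R)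

noncomputable def v564 (R : VR) : ℕ :=
  Nat.shiftRight (Nat.land (Nat.sub (VR.h1 R) (Nat.xor (v220 R) (Nat.mod (Nat.land (gmk (VR.h2 R)
    (VR.J R) (Nat.mul (Nat.mod (Nat.land (gmk (VR.h2 R) (VR.J R) (Nat.mul (v547 R) (VR.cr1 R)))
    (v235 R)) (VR.m1 R)) (VR.cr1 R))) (v9 R)) (VR.m1 R)))) (VR.h1 R)) (nat_lit 15)

noncomputable def s564 (R : VR) (i : ℕ) : Bool :=
  Nat.beq (s220 R i) (s563 R i)

theorem e564 (R : VR) : B (VR.S R) (v564 R) (s564 R) :=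
  L.beq (VR.h1e R) (e220 R) (e563 R)

noncomputable def v565 (R : VR) : ℕ :=
  Nat.land (v558 R) (Nat.shiftRight (Nat.land (Nat.sub (VR.h1 R) (Nat.xor (v220 R) (Nat.mod
    (Nat.land (gmk (VR.h2 R) (VR.J R) (Nat.mul (Nat.mod (Nat.land (gmk (VR.h2 R) (VR.J R) (Nat.mul
    (v547 R) (VR.cr1 R))) (v235 R)) (VR.m1 R)) (VR.cr1 R))) (v9 R)) (VR.m1 R)))) (VR.h1 R))
    (nat_lit 15))

noncomputable def s565 (R : VR) (i : ℕ) : Bool :=
  K.band (s558 R i) (s564 R i)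

theorem e565 (R : VR) : B (VR.S R) (v565 R) (s565 R) :=
  B.and (e558 R) (e564 R)

noncomputable def s566 (R : VR) (i : ℕ) : ℕ :=
  tx (VR.ptT R) i

theorem e566 (R : VR) : L (VR.S R) (VR.ptT R) (s566 R) 255 :=
  VR.pt_is R

noncomputable def v567 (R : VR) : ℕ :=
  Nat.shiftRight (Nat.land (Nat.sub (VR.h1 R) (VR.ptT R)) (VR.h1 R)) (nat_lit 15)

noncomputable def s567 (R : VR) (i : ℕ) : Bool :=
  Nat.beq (s566 R i) (nat_lit 0)

theorem e567 (R : VR) : B (VR.S R) (v567 R) (s567 R) :=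
  L.ez (VR.h1e R) (e566 R)

noncomputable def v568 (R : VR) : ℕ :=
  Nat.shiftRight (Nat.land (Nat.sub (Nat.add (v130 R) (VR.k1 R)) (v511 R)) (VR.h1 R)) (nat_lit 15)

noncomputable def s568 (R : VR) (i : ℕ) : Bool :=
  Nat.ble (Nat.succ (s511 R i)) (s130 R i)

theorem e568 (R : VR) : B (VR.S R) (v568 R) (s568 R) :=
  L.blt (VR.h1e R) (VR.k1e R) (e511 R) (e130 R)

noncomputable def v569 (R : VR) : ℕ :=
  Nat.shiftRight (Nat.land (Nat.sub (Nat.add (v543 R) (VR.k1 R)) (v130 R)) (VR.h1 R)) (nat_lit 15)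

noncomputable def s569 (R : VR) (i : ℕ) : Bool :=
  Nat.ble (Nat.succ (s130 R i)) (s543 R i)

theorem e569 (R : VR) : B (VR.S R) (v569 R) (s569 R) :=
  L.blt (VR.h1e R) (VR.k1e R) (e130 R) (e543 R)

noncomputable def v570 (R : VR) : ℕ :=
  Nat.land (Nat.shiftRight (Nat.land (Nat.sub (Nat.add (v130 R) (VR.k1 R)) (v511 R)) (VR.h1 R))
    (nat_lit 15)) (Nat.shiftRight (Nat.land (Nat.sub (Nat.add (v543 R) (VR.k1 R)) (v130 R)) (VR.h1
    R)) (nat_lit 15))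

noncomputable def s570 (R : VR) (i : ℕ) : Bool :=
  K.band (s568 R i) (s569 R i)

theorem e570 (R : VR) : B (VR.S R) (v570 R) (s570 R) :=
  B.and (e568 R) (e569 R)

noncomputable def v571 (R : VR) : ℕ :=
  Nat.mod (Nat.land (v132 R) (v546 R)) (VR.m1 R)

noncomputable def s571 (R : VR) (i : ℕ) : ℕ :=
  tx (VR.offT R) (s130 R i)

theorem e571 (R : VR) : L (VR.S R) (v571 R) (s571 R) 255 :=
  L.gat (e130 R) (VR.off_is R) (VR.off_lt R) (VR.off_le R)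

noncomputable def v572 (R : VR) : ℕ :=
  Nat.shiftRight (Nat.land (Nat.sub (VR.h1 R) (Nat.xor (VR.piT R) (Nat.mod (Nat.land (v132 R)
    (v546 R)) (VR.m1 R)))) (VR.h1 R)) (nat_lit 15)

noncomputable def s572 (R : VR) (i : ℕ) : Bool :=
  Nat.beq (s124 R i) (s571 R i)

theorem e572 (R : VR) : B (VR.S R) (v572 R) (s572 R) :=
  L.beq (VR.h1e R) (e124 R) (e571 R)

noncomputable def v573 (R : VR) : ℕ :=
  Nat.land (Nat.land (Nat.shiftRight (Nat.land (Nat.sub (Nat.add (v130 R) (VR.k1 R)) (v511 R))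
    (VR.h1 R)) (nat_lit 15)) (Nat.shiftRight (Nat.land (Nat.sub (Nat.add (v543 R) (VR.k1 R)) (v130
    R)) (VR.h1 R)) (nat_lit 15))) (Nat.shiftRight (Nat.land (Nat.sub (VR.h1 R) (Nat.xor (VR.piT R)
    (Nat.mod (Nat.land (v132 R) (v546 R)) (VR.m1 R)))) (VR.h1 R)) (nat_lit 15))

noncomputable def s573 (R : VR) (i : ℕ) : Bool :=
  K.band (s570 R i) (s572 R i)

theorem e573 (R : VR) : B (VR.S R) (v573 R) (s573 R) :=
  B.and (e570 R) (e572 R)

noncomputable def v574 (R : VR) : ℕ :=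
  srM (VR.N R) (VR.S R) (VR.o1 R) (VR.zpaT R)

noncomputable def v575 (R : VR) : ℕ :=
  Nat.mod (Nat.land (v132 R) (srM (VR.N R) (VR.S R) (VR.o1 R) (VR.zpaT R))) (VR.m1 R)

noncomputable def s575 (R : VR) (i : ℕ) : ℕ :=
  tx (VR.zpaT R) (s130 R i)

theorem e575 (R : VR) : L (VR.S R) (v575 R) (s575 R) 255 :=
  L.gat (e130 R) (VR.zpa_is R) (VR.zpa_lt R) (VR.zpa_le R)

noncomputable def v576 (R : VR) : ℕ :=
  gmk (VR.h2 R) (VR.J R) (Nat.mul (Nat.mod (Nat.land (v132 R) (srM (VR.N R) (VR.S R) (VR.o1 R)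
    (VR.zpaT R))) (VR.m1 R)) (VR.cr1 R))

noncomputable def v577 (R : VR) : ℕ :=
  Nat.mod (Nat.land (gmk (VR.h2 R) (VR.J R) (Nat.mul (Nat.mod (Nat.land (v132 R) (srM (VR.N R)
    (VR.S R) (VR.o1 R) (VR.zpaT R))) (VR.m1 R)) (VR.cr1 R))) (v546 R)) (VR.m1 R)

noncomputable def s577 (R : VR) (i : ℕ) : ℕ :=
  tx (VR.offT R) (s575 R i)

theorem e577 (R : VR) : L (VR.S R) (v577 R) (s577 R) 255 :=
  L.gat (e575 R) (VR.off_is R) (VR.off_lt R) (VR.off_le R)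

noncomputable def v578 (R : VR) : ℕ :=
  srM (VR.N R) (VR.S R) (VR.o1 R) (VR.jaT R)

noncomputable def v579 (R : VR) : ℕ :=
  Nat.mod (Nat.land (v132 R) (srM (VR.N R) (VR.S R) (VR.o1 R) (VR.jaT R))) (VR.m1 R)

noncomputable def s579 (R : VR) (i : ℕ) : ℕ :=
  tx (VR.jaT R) (s130 R i)

theorem e579 (R : VR) : L (VR.S R) (v579 R) (s579 R) 255 :=
  L.gat (e130 R) (VR.ja_is R) (VR.ja_lt R) (VR.ja_le R)

noncomputable def v580 (R : VR) : ℕ :=
  Nat.add (Nat.mod (Nat.land (gmk (VR.h2 R) (VR.J R) (Nat.mul (Nat.mod (Nat.land (v132 R) (srM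
    (VR.N R) (VR.S R) (VR.o1 R) (VR.zpaT R))) (VR.m1 R)) (VR.cr1 R))) (v546 R)) (VR.m1 R))
    (Nat.mod (Nat.land (v132 R) (srM (VR.N R) (VR.S R) (VR.o1 R) (VR.jaT R))) (VR.m1 R))

noncomputable def s580 (R : VR) (i : ℕ) : ℕ :=
  Nat.add (s577 R i) (s579 R i)

theorem e580 (R : VR) : L (VR.S R) (v580 R) (s580 R) 510 :=
  L.add (e577 R) (e579 R) (by decide)

noncomputable def v581 (R : VR) : ℕ :=
  Nat.shiftRight (Nat.land (Nat.sub (VR.h1 R) (Nat.xor (VR.iota R) (Nat.add (Nat.mod (Nat.land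
    (gmk (VR.h2 R) (VR.J R) (Nat.mul (Nat.mod (Nat.land (v132 R) (srM (VR.N R) (VR.S R) (VR.o1 R)
    (VR.zpaT R))) (VR.m1 R)) (VR.cr1 R))) (v546 R)) (VR.m1 R)) (Nat.mod (Nat.land (v132 R) (srM
    (VR.N R) (VR.S R) (VR.o1 R) (VR.jaT R))) (VR.m1 R))))) (VR.h1 R)) (nat_lit 15)

noncomputable def s581 (R : VR) (i : ℕ) : Bool :=
  Nat.beq (s0 R i) (s580 R i)

theorem e581 (R : VR) : B (VR.S R) (v581 R) (s581 R) :=
  L.beq (VR.h1e R) (e0 R) (e580 R)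

noncomputable def v582 (R : VR) : ℕ :=
  Nat.land (Nat.land (Nat.land (Nat.shiftRight (Nat.land (Nat.sub (Nat.add (v130 R) (VR.k1 R))
    (v511 R)) (VR.h1 R)) (nat_lit 15)) (Nat.shiftRight (Nat.land (Nat.sub (Nat.add (v543 R) (VR.k1
    R)) (v130 R)) (VR.h1 R)) (nat_lit 15))) (Nat.shiftRight (Nat.land (Nat.sub (VR.h1 R) (Nat.xor
    (VR.piT R) (Nat.mod (Nat.land (v132 R) (v546 R)) (VR.m1 R)))) (VR.h1 R)) (nat_lit 15)))
    (Nat.shiftRight (Nat.land (Nat.sub (VR.h1 R) (Nat.xor (VR.iota R) (Nat.add (Nat.mod (Nat.land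
    (gmk (VR.h2 R) (VR.J R) (Nat.mul (Nat.mod (Nat.land (v132 R) (srM (VR.N R) (VR.S R) (VR.o1 R)
    (VR.zpaT R))) (VR.m1 R)) (VR.cr1 R))) (v546 R)) (VR.m1 R)) (Nat.mod (Nat.land (v132 R) (srM
    (VR.N R) (VR.S R) (VR.o1 R) (VR.jaT R))) (VR.m1 R))))) (VR.h1 R)) (nat_lit 15))

noncomputable def s582 (R : VR) (i : ℕ) : Bool :=
  K.band (s573 R i) (s581 R i)

theorem e582 (R : VR) : B (VR.S R) (v582 R) (s582 R) :=
  B.and (e573 R) (e581 R)

noncomputable def v583 (R : VR) : ℕ :=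
  Nat.shiftRight (Nat.land (Nat.sub (VR.h1 R) (Nat.xor (VR.ptT R) (v267 R))) (VR.h1 R)) (nat_lit
    15)

noncomputable def s583 (R : VR) (i : ℕ) : Bool :=
  Nat.beq (s566 R i) (s267 R i)

theorem e583 (R : VR) : B (VR.S R) (v583 R) (s583 R) :=
  L.beq (VR.h1e R) (e566 R) (e267 R)

noncomputable def s584 (R : VR) (i : ℕ) : ℕ :=
  tx (VR.prT R) i

theorem e584 (R : VR) : L (VR.S R) (VR.prT R) (s584 R) 255 :=
  VR.pr_is R

noncomputable def v585 (R : VR) : ℕ :=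
  srM (VR.N R) (VR.S R) (VR.o1 R) (VR.prT R)

noncomputable def v586 (R : VR) : ℕ :=
  Nat.mod (Nat.land (v128 R) (v585 R)) (VR.m1 R)

noncomputable def s586 (R : VR) (i : ℕ) : ℕ :=
  tx (VR.prT R) (s124 R i)

theorem e586 (R : VR) : L (VR.S R) (v586 R) (s586 R) 255 :=
  L.gat (e124 R) (VR.pr_is R) (VR.pr_lt R) (VR.pr_le R)

noncomputable def v587 (R : VR) : ℕ :=
  Nat.shiftRight (Nat.land (Nat.sub (Nat.add (VR.prT R) (VR.k1 R)) (Nat.mod (Nat.land (v128 R)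
    (v585 R)) (VR.m1 R))) (VR.h1 R)) (nat_lit 15)

noncomputable def s587 (R : VR) (i : ℕ) : Bool :=
  Nat.ble (Nat.succ (s586 R i)) (s584 R i)

theorem e587 (R : VR) : B (VR.S R) (v587 R) (s587 R) :=
  L.blt (VR.h1e R) (VR.k1e R) (e586 R) (e584 R)

noncomputable def v588 (R : VR) : ℕ :=
  Vc.ssub (VR.h1 R) (VR.ptT R) (v359 R)

noncomputable def s588 (R : VR) (i : ℕ) : ℕ :=
  Nat.sub (s566 R i) (s359 R i)

theorem e588 (R : VR) : L (VR.S R) (v588 R) (s588 R) 255 :=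
  L.sub (VR.h1e R) (e566 R) (e359 R)

noncomputable def v589 (R : VR) : ℕ :=
  Nat.shiftRight (Nat.land (Nat.sub (Nat.add (v202 R) (VR.k1 R)) (v588 R)) (VR.h1 R)) (nat_lit 15)

noncomputable def s589 (R : VR) (i : ℕ) : Bool :=
  Nat.ble (Nat.succ (s588 R i)) (s202 R i)

theorem e589 (R : VR) : B (VR.S R) (v589 R) (s589 R) :=
  L.blt (VR.h1e R) (VR.k1e R) (e588 R) (e202 R)

noncomputable def v590 (R : VR) : ℕ :=
  gmk (VR.h2 R) (VR.J R) (Nat.mul (v588 R) (VR.cr1 R))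

noncomputable def v591 (R : VR) : ℕ :=
  Nat.mod (Nat.land (v590 R) (v585 R)) (VR.m1 R)

noncomputable def s591 (R : VR) (i : ℕ) : ℕ :=
  tx (VR.prT R) (s588 R i)

theorem e591 (R : VR) : L (VR.S R) (v591 R) (s591 R) 255 :=
  L.gat (e588 R) (VR.pr_is R) (VR.pr_lt R) (VR.pr_le R)

noncomputable def v592 (R : VR) : ℕ :=
  Nat.shiftRight (Nat.land (Nat.sub (Nat.add (VR.prT R) (VR.k1 R)) (Nat.mod (Nat.land (v590 R)
    (v585 R)) (VR.m1 R))) (VR.h1 R)) (nat_lit 15)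

noncomputable def s592 (R : VR) (i : ℕ) : Bool :=
  Nat.ble (Nat.succ (s591 R i)) (s584 R i)

theorem e592 (R : VR) : B (VR.S R) (v592 R) (s592 R) :=
  L.blt (VR.h1e R) (VR.k1e R) (e591 R) (e584 R)

noncomputable def v593 (R : VR) : ℕ :=
  Nat.land (Nat.shiftRight (Nat.land (Nat.sub (Nat.add (v202 R) (VR.k1 R)) (v588 R)) (VR.h1 R))
    (nat_lit 15)) (Nat.shiftRight (Nat.land (Nat.sub (Nat.add (VR.prT R) (VR.k1 R)) (Nat.mod
    (Nat.land (v590 R) (v585 R)) (VR.m1 R))) (VR.h1 R)) (nat_lit 15))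

noncomputable def s593 (R : VR) (i : ℕ) : Bool :=
  K.band (s589 R i) (s592 R i)

theorem e593 (R : VR) : B (VR.S R) (v593 R) (s593 R) :=
  B.and (e589 R) (e592 R)

noncomputable def v594 (R : VR) : ℕ :=
  Nat.mod (Nat.land (v590 R) (v164 R)) (VR.m1 R)

noncomputable def s594 (R : VR) (i : ℕ) : ℕ :=
  tx (VR.rhoT R) (s588 R i)

theorem e594 (R : VR) : L (VR.S R) (v594 R) (s594 R) 255 :=
  L.gat (e588 R) (VR.rho_is R) (VR.rho_lt R) (VR.rho_le R)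

noncomputable def v595 (R : VR) : ℕ :=
  gmk (VR.h2 R) (VR.J R) (Nat.mul (v594 R) (VR.cr1 R))

noncomputable def v596 (R : VR) : ℕ :=
  Nat.mod (Nat.land (v595 R) (v585 R)) (VR.m1 R)

noncomputable def s596 (R : VR) (i : ℕ) : ℕ :=
  tx (VR.prT R) (s594 R i)

theorem e596 (R : VR) : L (VR.S R) (v596 R) (s596 R) 255 :=
  L.gat (e594 R) (VR.pr_is R) (VR.pr_lt R) (VR.pr_le R)

noncomputable def v597 (R : VR) : ℕ :=
  Nat.shiftRight (Nat.land (Nat.sub (Nat.add (VR.prT R) (VR.k1 R)) (Nat.mod (Nat.land (v595 R)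
    (v585 R)) (VR.m1 R))) (VR.h1 R)) (nat_lit 15)

noncomputable def s597 (R : VR) (i : ℕ) : Bool :=
  Nat.ble (Nat.succ (s596 R i)) (s584 R i)

theorem e597 (R : VR) : B (VR.S R) (v597 R) (s597 R) :=
  L.blt (VR.h1e R) (VR.k1e R) (e596 R) (e584 R)

noncomputable def v598 (R : VR) : ℕ :=
  Nat.land (Nat.land (Nat.shiftRight (Nat.land (Nat.sub (Nat.add (v202 R) (VR.k1 R)) (v588 R))
    (VR.h1 R)) (nat_lit 15)) (Nat.shiftRight (Nat.land (Nat.sub (Nat.add (VR.prT R) (VR.k1 R))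
    (Nat.mod (Nat.land (v590 R) (v585 R)) (VR.m1 R))) (VR.h1 R)) (nat_lit 15))) (Nat.shiftRight
    (Nat.land (Nat.sub (Nat.add (VR.prT R) (VR.k1 R)) (Nat.mod (Nat.land (v595 R) (v585 R)) (VR.m1
    R))) (VR.h1 R)) (nat_lit 15))

noncomputable def s598 (R : VR) (i : ℕ) : Bool :=
  K.band (s593 R i) (s597 R i)

theorem e598 (R : VR) : B (VR.S R) (v598 R) (s598 R) :=
  B.and (e593 R) (e597 R)

noncomputable def v599 (R : VR) : ℕ :=
  Nat.mod (Nat.land (v590 R) (v146 R)) (VR.m1 R)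

noncomputable def s599 (R : VR) (i : ℕ) : ℕ :=
  tx (VR.piT R) (s588 R i)

theorem e599 (R : VR) : L (VR.S R) (v599 R) (s599 R) 255 :=
  L.gat (e588 R) (VR.pi_is R) (VR.pi_lt R) (VR.pi_le R)

noncomputable def v600 (R : VR) : ℕ :=
  Nat.shiftRight (Nat.land (Nat.sub (VR.h1 R) (Nat.xor (v599 R) (v588 R))) (VR.h1 R)) (nat_lit 15)

noncomputable def s600 (R : VR) (i : ℕ) : Bool :=
  Nat.beq (s599 R i) (s588 R i)

theorem e600 (R : VR) : B (VR.S R) (v600 R) (s600 R) :=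
  L.beq (VR.h1e R) (e599 R) (e588 R)

noncomputable def v601 (R : VR) : ℕ :=
  Nat.sub (VR.o1 R) (Nat.shiftRight (Nat.land (Nat.sub (VR.h1 R) (Nat.xor (v599 R) (v588 R)))
    (VR.h1 R)) (nat_lit 15))

noncomputable def s601 (R : VR) (i : ℕ) : Bool :=
  K.bnot (s600 R i)

theorem e601 (R : VR) : B (VR.S R) (v601 R) (s601 R) :=
  B.not (VR.o1e R) (e600 R)

noncomputable def v602 (R : VR) : ℕ :=
  Nat.land (Nat.land (Nat.land (Nat.shiftRight (Nat.land (Nat.sub (Nat.add (v202 R) (VR.k1 R))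
    (v588 R)) (VR.h1 R)) (nat_lit 15)) (Nat.shiftRight (Nat.land (Nat.sub (Nat.add (VR.prT R)
    (VR.k1 R)) (Nat.mod (Nat.land (v590 R) (v585 R)) (VR.m1 R))) (VR.h1 R)) (nat_lit 15)))
    (Nat.shiftRight (Nat.land (Nat.sub (Nat.add (VR.prT R) (VR.k1 R)) (Nat.mod (Nat.land (v595 R)
    (v585 R)) (VR.m1 R))) (VR.h1 R)) (nat_lit 15))) (Nat.sub (VR.o1 R) (Nat.shiftRight (Nat.land
    (Nat.sub (VR.h1 R) (Nat.xor (v599 R) (v588 R))) (VR.h1 R)) (nat_lit 15)))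

noncomputable def s602 (R : VR) (i : ℕ) : Bool :=
  K.band (s598 R i) (s601 R i)

theorem e602 (R : VR) : B (VR.S R) (v602 R) (s602 R) :=
  B.and (e598 R) (e601 R)

noncomputable def v603 (R : VR) : ℕ :=
  Nat.mod (Nat.land (v595 R) (v146 R)) (VR.m1 R)

noncomputable def s603 (R : VR) (i : ℕ) : ℕ :=
  tx (VR.piT R) (s594 R i)

theorem e603 (R : VR) : L (VR.S R) (v603 R) (s603 R) 255 :=
  L.gat (e594 R) (VR.pi_is R) (VR.pi_lt R) (VR.pi_le R)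

noncomputable def v604 (R : VR) : ℕ :=
  Nat.shiftRight (Nat.land (Nat.sub (VR.h1 R) (Nat.xor (v603 R) (v594 R))) (VR.h1 R)) (nat_lit 15)

noncomputable def s604 (R : VR) (i : ℕ) : Bool :=
  Nat.beq (s603 R i) (s594 R i)

theorem e604 (R : VR) : B (VR.S R) (v604 R) (s604 R) :=
  L.beq (VR.h1e R) (e603 R) (e594 R)

noncomputable def v605 (R : VR) : ℕ :=
  Nat.sub (VR.o1 R) (Nat.shiftRight (Nat.land (Nat.sub (VR.h1 R) (Nat.xor (v603 R) (v594 R)))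
    (VR.h1 R)) (nat_lit 15))

noncomputable def s605 (R : VR) (i : ℕ) : Bool :=
  K.bnot (s604 R i)

theorem e605 (R : VR) : B (VR.S R) (v605 R) (s605 R) :=
  B.not (VR.o1e R) (e604 R)

noncomputable def v606 (R : VR) : ℕ :=
  Nat.land (v602 R) (Nat.sub (VR.o1 R) (Nat.shiftRight (Nat.land (Nat.sub (VR.h1 R) (Nat.xor (v603
    R) (v594 R))) (VR.h1 R)) (nat_lit 15)))

noncomputable def s606 (R : VR) (i : ℕ) : Bool :=
  K.band (s602 R i) (s605 R i)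

theorem e606 (R : VR) : B (VR.S R) (v606 R) (s606 R) :=
  B.and (e602 R) (e605 R)

noncomputable def v607 (R : VR) : ℕ :=
  gmk (VR.h2 R) (VR.J R) (Nat.mul (v599 R) (VR.cr1 R))

noncomputable def v608 (R : VR) : ℕ :=
  Nat.mod (Nat.land (gmk (VR.h2 R) (VR.J R) (Nat.mul (v599 R) (VR.cr1 R))) (v151 R)) (VR.m1 R)

noncomputable def s608 (R : VR) (i : ℕ) : ℕ :=
  tx (VR.rhiT R) (s599 R i)

theorem e608 (R : VR) : L (VR.S R) (v608 R) (s608 R) 255 :=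
  L.gat (e599 R) (VR.rhi_is R) (VR.rhi_lt R) (VR.rhi_le R)

noncomputable def v609 (R : VR) : ℕ :=
  Nat.shiftRight (Nat.land (Nat.sub (VR.h1 R) (Nat.xor (VR.iota R) (Nat.mod (Nat.land (gmk (VR.h2
    R) (VR.J R) (Nat.mul (v599 R) (VR.cr1 R))) (v151 R)) (VR.m1 R)))) (VR.h1 R)) (nat_lit 15)

noncomputable def s609 (R : VR) (i : ℕ) : Bool :=
  Nat.beq (s0 R i) (s608 R i)

theorem e609 (R : VR) : B (VR.S R) (v609 R) (s609 R) :=
  L.beq (VR.h1e R) (e0 R) (e608 R)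

noncomputable def v610 (R : VR) : ℕ :=
  Nat.land (Nat.land (v602 R) (Nat.sub (VR.o1 R) (Nat.shiftRight (Nat.land (Nat.sub (VR.h1 R)
    (Nat.xor (v603 R) (v594 R))) (VR.h1 R)) (nat_lit 15)))) (Nat.shiftRight (Nat.land (Nat.sub
    (VR.h1 R) (Nat.xor (VR.iota R) (Nat.mod (Nat.land (gmk (VR.h2 R) (VR.J R) (Nat.mul (v599 R)
    (VR.cr1 R))) (v151 R)) (VR.m1 R)))) (VR.h1 R)) (nat_lit 15))

noncomputable def s610 (R : VR) (i : ℕ) : Bool :=
  K.band (s606 R i) (s609 R i)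

theorem e610 (R : VR) : B (VR.S R) (v610 R) (s610 R) :=
  B.and (e606 R) (e609 R)

noncomputable def v611 (R : VR) : ℕ :=
  gmk (VR.h2 R) (VR.J R) (Nat.mul (v603 R) (VR.cr1 R))

noncomputable def v612 (R : VR) : ℕ :=
  Nat.mod (Nat.land (gmk (VR.h2 R) (VR.J R) (Nat.mul (v603 R) (VR.cr1 R))) (v164 R)) (VR.m1 R)

noncomputable def s612 (R : VR) (i : ℕ) : ℕ :=
  tx (VR.rhoT R) (s603 R i)

theorem e612 (R : VR) : L (VR.S R) (v612 R) (s612 R) 255 :=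
  L.gat (e603 R) (VR.rho_is R) (VR.rho_lt R) (VR.rho_le R)

noncomputable def v613 (R : VR) : ℕ :=
  Nat.shiftRight (Nat.land (Nat.sub (VR.h1 R) (Nat.xor (VR.piT R) (Nat.mod (Nat.land (gmk (VR.h2
    R) (VR.J R) (Nat.mul (v603 R) (VR.cr1 R))) (v164 R)) (VR.m1 R)))) (VR.h1 R)) (nat_lit 15)

noncomputable def s613 (R : VR) (i : ℕ) : Bool :=
  Nat.beq (s124 R i) (s612 R i)

theorem e613 (R : VR) : B (VR.S R) (v613 R) (s613 R) :=
  L.beq (VR.h1e R) (e124 R) (e612 R)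

noncomputable def v614 (R : VR) : ℕ :=
  Nat.land (Nat.land (Nat.land (v602 R) (Nat.sub (VR.o1 R) (Nat.shiftRight (Nat.land (Nat.sub
    (VR.h1 R) (Nat.xor (v603 R) (v594 R))) (VR.h1 R)) (nat_lit 15)))) (Nat.shiftRight (Nat.land
    (Nat.sub (VR.h1 R) (Nat.xor (VR.iota R) (Nat.mod (Nat.land (gmk (VR.h2 R) (VR.J R) (Nat.mul
    (v599 R) (VR.cr1 R))) (v151 R)) (VR.m1 R)))) (VR.h1 R)) (nat_lit 15))) (Nat.shiftRight
    (Nat.land (Nat.sub (VR.h1 R) (Nat.xor (VR.piT R) (Nat.mod (Nat.land (gmk (VR.h2 R) (VR.J R)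
    (Nat.mul (v603 R) (VR.cr1 R))) (v164 R)) (VR.m1 R)))) (VR.h1 R)) (nat_lit 15))

noncomputable def s614 (R : VR) (i : ℕ) : Bool :=
  K.band (s610 R i) (s613 R i)

theorem e614 (R : VR) : B (VR.S R) (v614 R) (s614 R) :=
  B.and (e610 R) (e613 R)

noncomputable def v615 (R : VR) : ℕ :=
  Nat.xor (v614 R) (Nat.land (Nat.xor (v614 R) (Nat.shiftRight (Nat.land (Nat.sub (Nat.add (VR.prT
    R) (VR.k1 R)) (Nat.mod (Nat.land (v128 R) (v585 R)) (VR.m1 R))) (VR.h1 R)) (nat_lit 15)))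
    (Nat.shiftRight (Nat.land (Nat.sub (VR.h1 R) (Nat.xor (VR.ptT R) (v267 R))) (VR.h1 R))
    (nat_lit 15)))

noncomputable def s615 (R : VR) (i : ℕ) : Bool :=
  Bool.rec (motive := fun _ => Bool) (s614 R i) (s587 R i) (s583 R i)

theorem e615 (R : VR) : B (VR.S R) (v615 R) (s615 R) :=
  B.sel (e583 R) (e587 R) (e614 R)

noncomputable def v616 (R : VR) : ℕ :=
  Nat.xor (v615 R) (Nat.land (Nat.xor (v615 R) (v582 R)) (Nat.shiftRight (Nat.land (Nat.sub (VR.h1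
    R) (VR.ptT R)) (VR.h1 R)) (nat_lit 15)))

noncomputable def s616 (R : VR) (i : ℕ) : Bool :=
  Bool.rec (motive := fun _ => Bool) (s615 R i) (s582 R i) (s567 R i)

theorem e616 (R : VR) : B (VR.S R) (v616 R) (s616 R) :=
  B.sel (e567 R) (e582 R) (e615 R)

noncomputable def s617 (R : VR) (i : ℕ) : Bool :=
  K.Stars_cert (VR.Z R) i

theorem e617 (R : VR) : B (VR.S R) (v616 R) (s617 R) :=
  e616 R

noncomputable def v618 (R : VR) : ℕ :=
  Nat.lor (v125 R) (Nat.xor (v615 R) (Nat.land (Nat.xor (v615 R) (v582 R)) (Nat.shiftRight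
    (Nat.land (Nat.sub (VR.h1 R) (VR.ptT R)) (VR.h1 R)) (nat_lit 15))))

noncomputable def s618 (R : VR) (i : ℕ) : Bool :=
  K.bor (s125 R i) (s617 R i)

theorem e618 (R : VR) : B (VR.S R) (v618 R) (s618 R) :=
  B.or (e125 R) (e617 R)

noncomputable def v619 (R : VR) : ℕ :=
  Nat.land (Nat.land (v558 R) (Nat.shiftRight (Nat.land (Nat.sub (VR.h1 R) (Nat.xor (v220 R)
    (Nat.mod (Nat.land (gmk (VR.h2 R) (VR.J R) (Nat.mul (Nat.mod (Nat.land (gmk (VR.h2 R) (VR.J R)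
    (Nat.mul (v547 R) (VR.cr1 R))) (v235 R)) (VR.m1 R)) (VR.cr1 R))) (v9 R)) (VR.m1 R)))) (VR.h1
    R)) (nat_lit 15))) (Nat.lor (v125 R) (Nat.xor (v615 R) (Nat.land (Nat.xor (v615 R) (v582 R))
    (Nat.shiftRight (Nat.land (Nat.sub (VR.h1 R) (VR.ptT R)) (VR.h1 R)) (nat_lit 15)))))

noncomputable def s619 (R : VR) (i : ℕ) : Bool :=
  K.band (s565 R i) (s618 R i)

theorem e619 (R : VR) : B (VR.S R) (v619 R) (s619 R) :=
  B.and (e565 R) (e618 R)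

noncomputable def v620 (R : VR) : Bool :=
  Nat.beq (Nat.land (Nat.sub (VR.o1 R) (v619 R)) (mM (v201 R))) (nat_lit 0)

noncomputable def s620 (R : VR) : Bool :=
  K.allN (s201 R) (s619 R)

theorem e620 (R : VR) : (v620 R) = s620 R :=
  all0 (e619 R) (VR.ns_le R)

noncomputable def s621 (R : VR) : Bool :=
  K.allN (s201 R) (fun (x16 : ℕ) => (K.band (K.band (K.band (K.band (K.band (Nat.ble (Nat.succ
    (FC6.Stars.ca (VR.Z R) x16)) (FC6.Stars.nc (VR.Z R))) (Nat.ble (FC6.Stars.off (VR.Z R)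
    (FC6.Stars.ca (VR.Z R) x16)) x16)) (Nat.ble (Nat.succ x16) (Nat.add (FC6.Stars.off (VR.Z R)
    (FC6.Stars.ca (VR.Z R) x16)) (FC6.Stars.m (VR.Z R) (FC6.Stars.ca (VR.Z R) x16))))) (Nat.beq
    (FC6.Sp.ρ (VR.Q R) x16) (Bool.rec (motive := fun _ => ℕ) (FC6.Stars.off (VR.Z R) (FC6.Stars.ca
    (VR.Z R) x16)) (Nat.add x16 (nat_lit 1)) (Nat.ble (Nat.succ (Nat.add x16 (nat_lit 1)))
    (Nat.add (FC6.Stars.off (VR.Z R) (FC6.Stars.ca (VR.Z R) x16)) (FC6.Stars.m (VR.Z R)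
    (FC6.Stars.ca (VR.Z R) x16))))))) (Nat.beq (FC6.Pa.l (VR.P R) (FC6.Sp.nf (VR.Q R) (nat_lit 0)
    x16)) (FC6.Pa.l (VR.P R) (FC6.Sp.nf (VR.Q R) (nat_lit 0) (FC6.Stars.off (VR.Z R) (FC6.Stars.ca
    (VR.Z R) x16)))))) (K.bor (Nat.beq (FC6.Sp.π (VR.Q R) x16) x16) (K.Stars_cert (VR.Z R) x16))))

theorem e621 (R : VR) : (v620 R) = s621 R :=
  e620 R

noncomputable def v622 (R : VR) : Bool :=
  K.band (K.band (K.band (K.band (v198 R) (Nat.beq (Nat.land (Nat.sub (VR.o1 R) (v411 R)) (mM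
    (v201 R))) (nat_lit 0))) (Nat.beq (Nat.land (Nat.sub (VR.o1 R) (v505 R)) (mM (v112 R)))
    (nat_lit 0))) (Nat.beq (Nat.land (Nat.sub (VR.o1 R) (Nat.land (v526 R) (v537 R))) (mM (v510
    R))) (nat_lit 0))) (Nat.beq (Nat.land (Nat.sub (VR.o1 R) (v619 R)) (mM (v201 R))) (nat_lit 0))

noncomputable def s622 (R : VR) : Bool :=
  K.band (s542 R) (s621 R)

theorem e622 (R : VR) : (v622 R) = s622 R :=
  congrArg₂ K.band (e542 R) (e621 R)

noncomputable def s623 (R : VR) : Bool :=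
  V2.stars R

theorem e623 (R : VR) : (v622 R) = s623 R :=
  e622 R

noncomputable def c_stars (R : VR) : Bool :=
  (K.band (K.band (K.band (K.band (v198 R) (Nat.beq (Nat.land (Nat.sub (VR.o1 R) (v411 R)) (mM
    (v201 R))) (nat_lit 0))) (Nat.beq (Nat.land (Nat.sub (VR.o1 R) (v505 R)) (mM (v112 R)))
    (nat_lit 0))) (Nat.beq (Nat.land (Nat.sub (VR.o1 R) (Nat.land (v526 R) (v537 R))) (mM (v510
    R))) (nat_lit 0))) (Nat.beq (Nat.land (Nat.sub (VR.o1 R) (v619 R)) (mM (v201 R))) (nat_lit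
    0)))

theorem c_stars_eq (R : VR) : c_stars R = (V2.stars R) :=
  e623 R

noncomputable def v624 (R : VR) : ℕ :=
  VR.x R

noncomputable def s624 (R : VR) : ℕ :=
  VR.x R

theorem e624 (R : VR) : (v624 R) = s624 R :=
  rfl

theorem b624 (R : VR) : s624 R ≤ 15 :=
  VR.x_b R

noncomputable def v625 (R : VR) : ℕ :=
  Nat.mul (VR.o1 R) (v624 R)

noncomputable def s625 (R : VR) (i : ℕ) : ℕ :=
  (s624 R)

theorem e625 (R : VR) : L (VR.S R) (v625 R) (s625 R) 15 :=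
  L.scl (VR.o1e R) (e624 R) (b624 R) (by decide)

noncomputable def v626 (R : VR) : ℕ :=
  Nat.shiftRight (Nat.land (Nat.sub (Nat.add (v625 R) (VR.k1 R)) (VR.caT R)) (VR.h1 R)) (nat_lit
    15)

noncomputable def s626 (R : VR) (i : ℕ) : Bool :=
  Nat.ble (Nat.succ (s127 R i)) (s625 R i)

theorem e626 (R : VR) : B (VR.S R) (v626 R) (s626 R) :=
  L.blt (VR.h1e R) (VR.k1e R) (e127 R) (e625 R)

noncomputable def v627 (R : VR) : ℕ :=
  Nat.mod (Nat.land (v159 R) (v436 R)) (VR.m1 R)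

noncomputable def s627 (R : VR) (i : ℕ) : Bool :=
  tf (VR.rlT R) (s158 R i)

theorem e627 (R : VR) : B (VR.S R) (v627 R) (s627 R) :=
  B.gat (e158 R) (VR.rl_is R) (VR.rl_lt R)

noncomputable def v628 (R : VR) : ℕ :=
  Nat.mod (Nat.land (v145 R) (v436 R)) (VR.m1 R)

noncomputable def s628 (R : VR) (i : ℕ) : Bool :=
  tf (VR.rlT R) (s144 R i)

theorem e628 (R : VR) : B (VR.S R) (v628 R) (s628 R) :=
  B.gat (e144 R) (VR.rl_is R) (VR.rl_lt R)

noncomputable def v629 (R : VR) : ℕ :=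
  Nat.land (Nat.mod (Nat.land (v159 R) (v436 R)) (VR.m1 R)) (Nat.mod (Nat.land (v145 R) (v436 R))
    (VR.m1 R))

noncomputable def s629 (R : VR) (i : ℕ) : Bool :=
  K.band (s627 R i) (s628 R i)

theorem e629 (R : VR) : B (VR.S R) (v629 R) (s629 R) :=
  B.and (e627 R) (e628 R)

noncomputable def v630 (R : VR) : ℕ :=
  Nat.lor (VR.rlT R) (Nat.land (Nat.mod (Nat.land (v159 R) (v436 R)) (VR.m1 R)) (Nat.mod (Nat.land
    (v145 R) (v436 R)) (VR.m1 R)))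

noncomputable def s630 (R : VR) (i : ℕ) : Bool :=
  K.bor (s435 R i) (s629 R i)

theorem e630 (R : VR) : B (VR.S R) (v630 R) (s630 R) :=
  B.or (e435 R) (e629 R)

noncomputable def v631 (R : VR) : ℕ :=
  Nat.lor (v126 R) (v149 R)

noncomputable def s631 (R : VR) (i : ℕ) : Bool :=
  K.bor (s126 R i) (s149 R i)

theorem e631 (R : VR) : B (VR.S R) (v631 R) (s631 R) :=
  B.or (e126 R) (e149 R)

noncomputable def s632 (R : VR) (i : ℕ) : ℕ :=
  tx (VR.ltT R) i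

theorem e632 (R : VR) : L (VR.S R) (VR.ltT R) (s632 R) 32767 :=
  VR.lt_is R

noncomputable def v633 (R : VR) : ℕ :=
  Nat.land (Nat.shiftRight (VR.ltT R) (nat_lit 6)) (Nat.mul (VR.o1 R) (nat_lit 3))

noncomputable def s633 (R : VR) (i : ℕ) : ℕ :=
  Nat.mod (Nat.div (s632 R i) (nat_lit 64)) (nat_lit 4)

theorem e633 (R : VR) : L (VR.S R) (v633 R) (s633 R) 3 :=
  L.fld (VR.o1e R) (e632 R) 6 2 (by decide) (by decide)

noncomputable def s634 (R : VR) (i : ℕ) : ℕ :=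
  K.wk (s632 R i)

theorem e634 (R : VR) : L (VR.S R) (v633 R) (s634 R) 3 :=
  e633 R

noncomputable def v635 (R : VR) : ℕ :=
  Nat.shiftRight (Nat.land (Nat.sub (VR.h1 R) (Nat.xor (Nat.land (Nat.shiftRight (VR.ltT R)
    (nat_lit 6)) (Nat.mul (VR.o1 R) (nat_lit 3))) (v359 R))) (VR.h1 R)) (nat_lit 15)

noncomputable def s635 (R : VR) (i : ℕ) : Bool :=
  Nat.beq (s634 R i) (s359 R i)

theorem e635 (R : VR) : B (VR.S R) (v635 R) (s635 R) :=
  L.beq (VR.h1e R) (e634 R) (e359 R)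

noncomputable def v636 (R : VR) : ℕ :=
  Nat.sub (VR.o1 R) (Nat.shiftRight (Nat.land (Nat.sub (VR.h1 R) (Nat.xor (Nat.land
    (Nat.shiftRight (VR.ltT R) (nat_lit 6)) (Nat.mul (VR.o1 R) (nat_lit 3))) (v359 R))) (VR.h1 R))
    (nat_lit 15))

noncomputable def s636 (R : VR) (i : ℕ) : Bool :=
  K.bnot (s635 R i)

theorem e636 (R : VR) : B (VR.S R) (v636 R) (s636 R) :=
  B.not (VR.o1e R) (e635 R)

noncomputable def v637 (R : VR) : ℕ :=
  Nat.land (Nat.lor (v126 R) (v149 R)) (Nat.sub (VR.o1 R) (Nat.shiftRight (Nat.land (Nat.sub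
    (VR.h1 R) (Nat.xor (Nat.land (Nat.shiftRight (VR.ltT R) (nat_lit 6)) (Nat.mul (VR.o1 R)
    (nat_lit 3))) (v359 R))) (VR.h1 R)) (nat_lit 15)))

noncomputable def s637 (R : VR) (i : ℕ) : Bool :=
  K.band (s631 R i) (s636 R i)

theorem e637 (R : VR) : B (VR.S R) (v637 R) (s637 R) :=
  B.and (e631 R) (e636 R)

noncomputable def v638 (R : VR) : ℕ :=
  Nat.xor (v637 R) (Nat.land (Nat.xor (v637 R) (Nat.lor (VR.rlT R) (Nat.land (Nat.mod (Nat.land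
    (v159 R) (v436 R)) (VR.m1 R)) (Nat.mod (Nat.land (v145 R) (v436 R)) (VR.m1 R))))) (v626 R))

noncomputable def s638 (R : VR) (i : ℕ) : Bool :=
  Bool.rec (motive := fun _ => Bool) (s637 R i) (s630 R i) (s626 R i)

theorem e638 (R : VR) : B (VR.S R) (v638 R) (s638 R) :=
  B.sel (e626 R) (e630 R) (e637 R)

noncomputable def v639 (R : VR) : Bool :=
  Nat.beq (Nat.land (Nat.sub (VR.o1 R) (Nat.xor (v637 R) (Nat.land (Nat.xor (v637 R) (Nat.lor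
    (VR.rlT R) (Nat.land (Nat.mod (Nat.land (v159 R) (v436 R)) (VR.m1 R)) (Nat.mod (Nat.land (v145
    R) (v436 R)) (VR.m1 R))))) (v626 R)))) (mM (v201 R))) (nat_lit 0)

noncomputable def s639 (R : VR) : Bool :=
  K.allN (s201 R) (s638 R)

theorem e639 (R : VR) : (v639 R) = s639 R :=
  all0 (e638 R) (VR.ns_le R)

noncomputable def s640 (R : VR) : Bool :=
  K.allN (s201 R) (fun (x17 : ℕ) => (Bool.rec (motive := fun _ => Bool) (K.band (K.bor (K.bnot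
    (Nat.beq (FC6.Sp.π (FC6.Stars.Q (FC7.Wt.Z (FC7.WF.toWt (VR.WF R)))) x17) x17)) (K.bnot
    (Nat.beq (FC6.Sp.π (FC6.Stars.Q (FC7.Wt.Z (FC7.WF.toWt (VR.WF R)))) (FC6.Sp.ρi (FC6.Stars.Q
    (FC7.Wt.Z (FC7.WF.toWt (VR.WF R)))) x17)) (FC6.Sp.ρi (FC6.Stars.Q (FC7.Wt.Z (FC7.WF.toWt
    (VR.WF R)))) x17)))) (K.bnot (Nat.beq (K.wk (FC7.Wt.lt (FC7.WF.toWt (VR.WF R)) x17)) (nat_lit
    2)))) (K.bor (FC6.Sp.rl (FC6.Stars.Q (FC7.Wt.Z (FC7.WF.toWt (VR.WF R)))) x17) (K.band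
    (FC6.Sp.rl (FC6.Stars.Q (FC7.Wt.Z (FC7.WF.toWt (VR.WF R)))) (FC6.Sp.ρ (FC6.Stars.Q (FC7.Wt.Z
    (FC7.WF.toWt (VR.WF R)))) x17)) (FC6.Sp.rl (FC6.Stars.Q (FC7.Wt.Z (FC7.WF.toWt (VR.WF R))))
    (FC6.Sp.ρi (FC6.Stars.Q (FC7.Wt.Z (FC7.WF.toWt (VR.WF R)))) x17)))) (FC7.Wt.ac (FC7.WF.toWt
    (VR.WF R)) (FC6.Stars.ca (FC7.Wt.Z (FC7.WF.toWt (VR.WF R))) x17))))

theorem e640 (R : VR) : (v639 R) = s640 R :=
  e639 R

noncomputable def s641 (R : VR) : Bool :=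
  K.Wt_ok (FC7.WF.toWt (VR.WF R))

theorem e641 (R : VR) : (v639 R) = s641 R :=
  e640 R

noncomputable def c_wtok (R : VR) : Bool :=
  (Nat.beq (Nat.land (Nat.sub (VR.o1 R) (Nat.xor (v637 R) (Nat.land (Nat.xor (v637 R) (Nat.lor
    (VR.rlT R) (Nat.land (Nat.mod (Nat.land (v159 R) (v436 R)) (VR.m1 R)) (Nat.mod (Nat.land (v145
    R) (v436 R)) (VR.m1 R))))) (v626 R)))) (mM (v201 R))) (nat_lit 0))

theorem c_wtok_eq (R : VR) : c_wtok R = (K.Wt_ok (FC7.WF.toWt (VR.WF R))) :=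
  e641 R

noncomputable def v642 (R : VR) : ℕ :=
  VR.nc8 R

noncomputable def s642 (R : VR) : ℕ :=
  VR.nc8 R

theorem e642 (R : VR) : (v642 R) = s642 R :=
  rfl

theorem b642 (R : VR) : s642 R ≤ 100 :=
  VR.nc8_b R

noncomputable def s643 (R : VR) (i : ℕ) : ℕ :=
  tx (VR.dvT R) i

theorem e643 (R : VR) : L (VR.S R) (VR.dvT R) (s643 R) 15 :=
  VR.dv_is R

noncomputable def v644 (R : VR) : ℕ :=
  Nat.shiftRight (Nat.land (Nat.sub (Nat.add (VR.dvT R) (VR.h1 R)) (v543 R)) (VR.h1 R)) (nat_lit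
    15)

noncomputable def s644 (R : VR) (i : ℕ) : Bool :=
  Nat.ble (s543 R i) (s643 R i)

theorem e644 (R : VR) : B (VR.S R) (v644 R) (s644 R) :=
  L.ble (VR.h1e R) (e543 R) (e643 R)

noncomputable def s645 (R : VR) (i : ℕ) : ℕ :=
  tx (VR.mdT R) i

theorem e645 (R : VR) : L (VR.S R) (VR.mdT R) (s645 R) 127 :=
  VR.md_is R

noncomputable def v646 (R : VR) : ℕ :=
  Nat.shiftRight (Nat.land (Nat.sub (Nat.add (VR.mdT R) (VR.h1 R)) (v543 R)) (VR.h1 R)) (nat_lit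
    15)

noncomputable def s646 (R : VR) (i : ℕ) : Bool :=
  Nat.ble (s543 R i) (s645 R i)

theorem e646 (R : VR) : B (VR.S R) (v646 R) (s646 R) :=
  L.ble (VR.h1e R) (e543 R) (e645 R)

noncomputable def v647 (R : VR) : ℕ :=
  Nat.lor (Nat.shiftRight (Nat.land (Nat.sub (Nat.add (VR.dvT R) (VR.h1 R)) (v543 R)) (VR.h1 R))
    (nat_lit 15)) (Nat.shiftRight (Nat.land (Nat.sub (Nat.add (VR.mdT R) (VR.h1 R)) (v543 R))
    (VR.h1 R)) (nat_lit 15))

noncomputable def s647 (R : VR) (i : ℕ) : Bool :=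
  K.bor (s644 R i) (s646 R i)

theorem e647 (R : VR) : B (VR.S R) (v647 R) (s647 R) :=
  B.or (e644 R) (e646 R)

noncomputable def s648 (R : VR) (i : ℕ) : ℕ :=
  tx (VR.adT R) i

theorem e648 (R : VR) : L (VR.S R) (VR.adT R) (s648 R) 255 :=
  VR.ad_is R

noncomputable def v649 (R : VR) : ℕ :=
  Nat.shiftRight (Nat.land (Nat.sub (VR.h1 R) (VR.adT R)) (VR.h1 R)) (nat_lit 15)

noncomputable def s649 (R : VR) (i : ℕ) : Bool :=
  Nat.beq (s648 R i) (nat_lit 0)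

theorem e649 (R : VR) : B (VR.S R) (v649 R) (s649 R) :=
  L.ez (VR.h1e R) (e648 R)

noncomputable def v650 (R : VR) : ℕ :=
  Nat.shiftRight (Nat.land (Nat.sub (Nat.add (v625 R) (VR.k1 R)) (VR.dvT R)) (VR.h1 R)) (nat_lit
    15)

noncomputable def s650 (R : VR) (i : ℕ) : Bool :=
  Nat.ble (Nat.succ (s643 R i)) (s625 R i)

theorem e650 (R : VR) : B (VR.S R) (v650 R) (s650 R) :=
  L.blt (VR.h1e R) (VR.k1e R) (e643 R) (e625 R)

noncomputable def v651 (R : VR) : ℕ :=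
  Nat.shiftRight (Nat.land (Nat.sub (Nat.add (v625 R) (VR.k1 R)) (VR.mdT R)) (VR.h1 R)) (nat_lit
    15)

noncomputable def s651 (R : VR) (i : ℕ) : Bool :=
  Nat.ble (Nat.succ (s645 R i)) (s625 R i)

theorem e651 (R : VR) : B (VR.S R) (v651 R) (s651 R) :=
  L.blt (VR.h1e R) (VR.k1e R) (e645 R) (e625 R)

noncomputable def v652 (R : VR) : ℕ :=
  Nat.land (v650 R) (v651 R)

noncomputable def s652 (R : VR) (i : ℕ) : Bool :=
  K.band (s650 R i) (s651 R i)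

theorem e652 (R : VR) : B (VR.S R) (v652 R) (s652 R) :=
  B.and (e650 R) (e651 R)

noncomputable def v653 (R : VR) : ℕ :=
  Vc.ssub (VR.h1 R) (VR.adT R) (v267 R)

noncomputable def s653 (R : VR) (i : ℕ) : ℕ :=
  Nat.sub (s648 R i) (s267 R i)

theorem e653 (R : VR) : L (VR.S R) (v653 R) (s653 R) 255 :=
  L.sub (VR.h1e R) (e648 R) (e267 R)

noncomputable def v654 (R : VR) : ℕ :=
  Nat.shiftRight (Nat.land (Nat.sub (Nat.add (v202 R) (VR.k1 R)) (v653 R)) (VR.h1 R)) (nat_lit 15)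

noncomputable def s654 (R : VR) (i : ℕ) : Bool :=
  Nat.ble (Nat.succ (s653 R i)) (s202 R i)

theorem e654 (R : VR) : B (VR.S R) (v654 R) (s654 R) :=
  L.blt (VR.h1e R) (VR.k1e R) (e653 R) (e202 R)

noncomputable def v655 (R : VR) : ℕ :=
  Nat.land (Nat.land (v650 R) (v651 R)) (Nat.shiftRight (Nat.land (Nat.sub (Nat.add (v202 R)
    (VR.k1 R)) (v653 R)) (VR.h1 R)) (nat_lit 15))

noncomputable def s655 (R : VR) (i : ℕ) : Bool :=
  K.band (s652 R i) (s654 R i)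

theorem e655 (R : VR) : B (VR.S R) (v655 R) (s655 R) :=
  B.and (e652 R) (e654 R)

noncomputable def v656 (R : VR) : ℕ :=
  gmk (VR.h2 R) (VR.J R) (Nat.mul (v653 R) (VR.cr1 R))

noncomputable def v657 (R : VR) : ℕ :=
  Nat.mod (Nat.land (v656 R) (v129 R)) (VR.m1 R)

noncomputable def s657 (R : VR) (i : ℕ) : ℕ :=
  tx (VR.caT R) (s653 R i)

theorem e657 (R : VR) : L (VR.S R) (v657 R) (s657 R) 255 :=
  L.gat (e653 R) (VR.ca_is R) (VR.ca_lt R) (VR.ca_le R)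

noncomputable def v658 (R : VR) : ℕ :=
  Nat.shiftRight (Nat.land (Nat.sub (VR.h1 R) (Nat.xor (Nat.mod (Nat.land (v656 R) (v129 R))
    (VR.m1 R)) (VR.dvT R))) (VR.h1 R)) (nat_lit 15)

noncomputable def s658 (R : VR) (i : ℕ) : Bool :=
  Nat.beq (s657 R i) (s643 R i)

theorem e658 (R : VR) : B (VR.S R) (v658 R) (s658 R) :=
  L.beq (VR.h1e R) (e657 R) (e643 R)

noncomputable def v659 (R : VR) : ℕ :=
  Nat.land (Nat.land (Nat.land (v650 R) (v651 R)) (Nat.shiftRight (Nat.land (Nat.sub (Nat.add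
    (v202 R) (VR.k1 R)) (v653 R)) (VR.h1 R)) (nat_lit 15))) (Nat.shiftRight (Nat.land (Nat.sub
    (VR.h1 R) (Nat.xor (Nat.mod (Nat.land (v656 R) (v129 R)) (VR.m1 R)) (VR.dvT R))) (VR.h1 R))
    (nat_lit 15))

noncomputable def s659 (R : VR) (i : ℕ) : Bool :=
  K.band (s655 R i) (s658 R i)

theorem e659 (R : VR) : B (VR.S R) (v659 R) (s659 R) :=
  B.and (e655 R) (e658 R)

noncomputable def v660 (R : VR) : ℕ :=
  Nat.mod (Nat.land (v656 R) (v146 R)) (VR.m1 R)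

noncomputable def s660 (R : VR) (i : ℕ) : ℕ :=
  tx (VR.piT R) (s653 R i)

theorem e660 (R : VR) : L (VR.S R) (v660 R) (s660 R) 255 :=
  L.gat (e653 R) (VR.pi_is R) (VR.pi_lt R) (VR.pi_le R)

noncomputable def v661 (R : VR) : ℕ :=
  gmk (VR.h2 R) (VR.J R) (Nat.mul (v660 R) (VR.cr1 R))

noncomputable def v662 (R : VR) : ℕ :=
  Nat.mod (Nat.land (gmk (VR.h2 R) (VR.J R) (Nat.mul (v660 R) (VR.cr1 R))) (v129 R)) (VR.m1 R)

noncomputable def s662 (R : VR) (i : ℕ) : ℕ :=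
  tx (VR.caT R) (s660 R i)

theorem e662 (R : VR) : L (VR.S R) (v662 R) (s662 R) 255 :=
  L.gat (e660 R) (VR.ca_is R) (VR.ca_lt R) (VR.ca_le R)

noncomputable def v663 (R : VR) : ℕ :=
  Nat.shiftRight (Nat.land (Nat.sub (VR.h1 R) (Nat.xor (Nat.mod (Nat.land (gmk (VR.h2 R) (VR.J R)
    (Nat.mul (v660 R) (VR.cr1 R))) (v129 R)) (VR.m1 R)) (VR.mdT R))) (VR.h1 R)) (nat_lit 15)

noncomputable def s663 (R : VR) (i : ℕ) : Bool :=
  Nat.beq (s662 R i) (s645 R i)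

theorem e663 (R : VR) : B (VR.S R) (v663 R) (s663 R) :=
  L.beq (VR.h1e R) (e662 R) (e645 R)

noncomputable def v664 (R : VR) : ℕ :=
  Nat.land (Nat.land (Nat.land (Nat.land (v650 R) (v651 R)) (Nat.shiftRight (Nat.land (Nat.sub
    (Nat.add (v202 R) (VR.k1 R)) (v653 R)) (VR.h1 R)) (nat_lit 15))) (Nat.shiftRight (Nat.land
    (Nat.sub (VR.h1 R) (Nat.xor (Nat.mod (Nat.land (v656 R) (v129 R)) (VR.m1 R)) (VR.dvT R)))
    (VR.h1 R)) (nat_lit 15))) (Nat.shiftRight (Nat.land (Nat.sub (VR.h1 R) (Nat.xor (Nat.mod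
    (Nat.land (gmk (VR.h2 R) (VR.J R) (Nat.mul (v660 R) (VR.cr1 R))) (v129 R)) (VR.m1 R)) (VR.mdT
    R))) (VR.h1 R)) (nat_lit 15))

noncomputable def s664 (R : VR) (i : ℕ) : Bool :=
  K.band (s659 R i) (s663 R i)

theorem e664 (R : VR) : B (VR.S R) (v664 R) (s664 R) :=
  B.and (e659 R) (e663 R)

noncomputable def v665 (R : VR) : ℕ :=
  Nat.shiftRight (Nat.land (Nat.sub (VR.h1 R) (Nat.xor (v660 R) (v653 R))) (VR.h1 R)) (nat_lit 15)

noncomputable def s665 (R : VR) (i : ℕ) : Bool :=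
  Nat.beq (s660 R i) (s653 R i)

theorem e665 (R : VR) : B (VR.S R) (v665 R) (s665 R) :=
  L.beq (VR.h1e R) (e660 R) (e653 R)

noncomputable def v666 (R : VR) : ℕ :=
  Nat.sub (VR.o1 R) (Nat.shiftRight (Nat.land (Nat.sub (VR.h1 R) (Nat.xor (v660 R) (v653 R)))
    (VR.h1 R)) (nat_lit 15))

noncomputable def s666 (R : VR) (i : ℕ) : Bool :=
  K.bnot (s665 R i)

theorem e666 (R : VR) : B (VR.S R) (v666 R) (s666 R) :=
  B.not (VR.o1e R) (e665 R)

noncomputable def v667 (R : VR) : ℕ :=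
  Nat.land (v664 R) (Nat.sub (VR.o1 R) (Nat.shiftRight (Nat.land (Nat.sub (VR.h1 R) (Nat.xor (v660
    R) (v653 R))) (VR.h1 R)) (nat_lit 15)))

noncomputable def s667 (R : VR) (i : ℕ) : Bool :=
  K.band (s664 R i) (s666 R i)

theorem e667 (R : VR) : B (VR.S R) (v667 R) (s667 R) :=
  B.and (e664 R) (e666 R)

noncomputable def v668 (R : VR) : ℕ :=
  Nat.mod (Nat.land (v656 R) (v436 R)) (VR.m1 R)

noncomputable def s668 (R : VR) (i : ℕ) : Bool :=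
  tf (VR.rlT R) (s653 R i)

theorem e668 (R : VR) : B (VR.S R) (v668 R) (s668 R) :=
  B.gat (e653 R) (VR.rl_is R) (VR.rl_lt R)

noncomputable def v669 (R : VR) : ℕ :=
  Nat.land (Nat.land (v664 R) (Nat.sub (VR.o1 R) (Nat.shiftRight (Nat.land (Nat.sub (VR.h1 R)
    (Nat.xor (v660 R) (v653 R))) (VR.h1 R)) (nat_lit 15)))) (Nat.mod (Nat.land (v656 R) (v436 R))
    (VR.m1 R))

noncomputable def s669 (R : VR) (i : ℕ) : Bool :=
  K.band (s667 R i) (s668 R i)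

theorem e669 (R : VR) : B (VR.S R) (v669 R) (s669 R) :=
  B.and (e667 R) (e668 R)

noncomputable def v670 (R : VR) : ℕ :=
  Nat.lor (Nat.shiftRight (Nat.land (Nat.sub (VR.h1 R) (VR.adT R)) (VR.h1 R)) (nat_lit 15))
    (Nat.land (Nat.land (v664 R) (Nat.sub (VR.o1 R) (Nat.shiftRight (Nat.land (Nat.sub (VR.h1 R)
    (Nat.xor (v660 R) (v653 R))) (VR.h1 R)) (nat_lit 15)))) (Nat.mod (Nat.land (v656 R) (v436 R))
    (VR.m1 R)))

noncomputable def s670 (R : VR) (i : ℕ) : Bool :=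
  K.bor (s649 R i) (s669 R i)

theorem e670 (R : VR) : B (VR.S R) (v670 R) (s670 R) :=
  B.or (e649 R) (e669 R)

noncomputable def v671 (R : VR) : ℕ :=
  Nat.shiftRight (Nat.land (Nat.sub (VR.h1 R) (Nat.xor (VR.dvT R) (VR.mdT R))) (VR.h1 R)) (nat_lit
    15)

noncomputable def s671 (R : VR) (i : ℕ) : Bool :=
  Nat.beq (s643 R i) (s645 R i)

theorem e671 (R : VR) : B (VR.S R) (v671 R) (s671 R) :=
  L.beq (VR.h1e R) (e643 R) (e645 R)

noncomputable def v672 (R : VR) : ℕ :=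
  Nat.sub (VR.o1 R) (Nat.xor (v650 R) (v651 R))

noncomputable def s672 (R : VR) (i : ℕ) : Bool :=
  K.beqB (s650 R i) (s651 R i)

theorem e672 (R : VR) : B (VR.S R) (v672 R) (s672 R) :=
  B.beqB (VR.o1e R) (e650 R) (e651 R)

noncomputable def v673 (R : VR) : ℕ :=
  Nat.sub (VR.o1 R) (Nat.sub (VR.o1 R) (Nat.xor (v650 R) (v651 R)))

noncomputable def s673 (R : VR) (i : ℕ) : Bool :=
  K.bnot (s672 R i)

theorem e673 (R : VR) : B (VR.S R) (v673 R) (s673 R) :=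
  B.not (VR.o1e R) (e672 R)

noncomputable def v674 (R : VR) : ℕ :=
  Nat.lor (Nat.shiftRight (Nat.land (Nat.sub (VR.h1 R) (Nat.xor (VR.dvT R) (VR.mdT R))) (VR.h1 R))
    (nat_lit 15)) (Nat.sub (VR.o1 R) (Nat.sub (VR.o1 R) (Nat.xor (v650 R) (v651 R))))

noncomputable def s674 (R : VR) (i : ℕ) : Bool :=
  K.bor (s671 R i) (s673 R i)

theorem e674 (R : VR) : B (VR.S R) (v674 R) (s674 R) :=
  B.or (e671 R) (e673 R)

noncomputable def v675 (R : VR) : ℕ :=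
  Nat.shiftRight (Nat.land (Nat.add (VR.adT R) (VR.k1 R)) (VR.h1 R)) (nat_lit 15)

noncomputable def s675 (R : VR) (i : ℕ) : Bool :=
  K.bnot (Nat.beq (s648 R i) (nat_lit 0))

theorem e675 (R : VR) : B (VR.S R) (v675 R) (s675 R) :=
  L.nz (VR.h1e R) (VR.k1e R) (e648 R)

noncomputable def v676 (R : VR) : ℕ :=
  Nat.lor (Nat.lor (Nat.shiftRight (Nat.land (Nat.sub (VR.h1 R) (Nat.xor (VR.dvT R) (VR.mdT R)))
    (VR.h1 R)) (nat_lit 15)) (Nat.sub (VR.o1 R) (Nat.sub (VR.o1 R) (Nat.xor (v650 R) (v651 R)))))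
    (Nat.shiftRight (Nat.land (Nat.add (VR.adT R) (VR.k1 R)) (VR.h1 R)) (nat_lit 15))

noncomputable def s676 (R : VR) (i : ℕ) : Bool :=
  K.bor (s674 R i) (s675 R i)

theorem e676 (R : VR) : B (VR.S R) (v676 R) (s676 R) :=
  B.or (e674 R) (e675 R)

noncomputable def s677 (R : VR) (i : ℕ) : ℕ :=
  tx (VR.csT R) i

theorem e677 (R : VR) : L (VR.S R) (VR.csT R) (s677 R) 255 :=
  VR.cs_is R

noncomputable def v678 (R : VR) : ℕ :=
  gmk (VR.h2 R) (VR.J R) (Nat.mul (VR.dvT R) (VR.cr1 R))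

noncomputable def v679 (R : VR) : ℕ :=
  srM (VR.N R) (VR.S R) (VR.o1 R) (VR.csT R)

noncomputable def v680 (R : VR) : ℕ :=
  Nat.mod (Nat.land (gmk (VR.h2 R) (VR.J R) (Nat.mul (VR.dvT R) (VR.cr1 R))) (v679 R)) (VR.m1 R)

noncomputable def s680 (R : VR) (i : ℕ) : ℕ :=
  tx (VR.csT R) (s643 R i)

theorem e680 (R : VR) : L (VR.S R) (v680 R) (s680 R) 255 :=
  L.gat (e643 R) (VR.cs_is R) (VR.cs_lt R) (VR.cs_le R)

noncomputable def v681 (R : VR) : ℕ :=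
  Nat.shiftRight (Nat.land (Nat.sub (Nat.add (v202 R) (VR.k1 R)) (v680 R)) (VR.h1 R)) (nat_lit 15)

noncomputable def s681 (R : VR) (i : ℕ) : Bool :=
  Nat.ble (Nat.succ (s680 R i)) (s202 R i)

theorem e681 (R : VR) : B (VR.S R) (v681 R) (s681 R) :=
  L.blt (VR.h1e R) (VR.k1e R) (e680 R) (e202 R)

noncomputable def v682 (R : VR) : ℕ :=
  gmk (VR.h2 R) (VR.J R) (Nat.mul (v680 R) (VR.cr1 R))

noncomputable def v683 (R : VR) : ℕ :=
  Nat.mod (Nat.land (v682 R) (v146 R)) (VR.m1 R)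

noncomputable def s683 (R : VR) (i : ℕ) : ℕ :=
  tx (VR.piT R) (s680 R i)

theorem e683 (R : VR) : L (VR.S R) (v683 R) (s683 R) 255 :=
  L.gat (e680 R) (VR.pi_is R) (VR.pi_lt R) (VR.pi_le R)

noncomputable def v684 (R : VR) : ℕ :=
  Nat.shiftRight (Nat.land (Nat.sub (VR.h1 R) (Nat.xor (v683 R) (v680 R))) (VR.h1 R)) (nat_lit 15)

noncomputable def s684 (R : VR) (i : ℕ) : Bool :=
  Nat.beq (s683 R i) (s680 R i)

theorem e684 (R : VR) : B (VR.S R) (v684 R) (s684 R) :=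
  L.beq (VR.h1e R) (e683 R) (e680 R)

noncomputable def v685 (R : VR) : ℕ :=
  Nat.sub (VR.o1 R) (Nat.shiftRight (Nat.land (Nat.sub (VR.h1 R) (Nat.xor (v683 R) (v680 R)))
    (VR.h1 R)) (nat_lit 15))

noncomputable def s685 (R : VR) (i : ℕ) : Bool :=
  K.bnot (s684 R i)

theorem e685 (R : VR) : B (VR.S R) (v685 R) (s685 R) :=
  B.not (VR.o1e R) (e684 R)

noncomputable def v686 (R : VR) : ℕ :=
  Nat.land (v681 R) (Nat.sub (VR.o1 R) (Nat.shiftRight (Nat.land (Nat.sub (VR.h1 R) (Nat.xor (v683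
    R) (v680 R))) (VR.h1 R)) (nat_lit 15)))

noncomputable def s686 (R : VR) (i : ℕ) : Bool :=
  K.band (s681 R i) (s685 R i)

theorem e686 (R : VR) : B (VR.S R) (v686 R) (s686 R) :=
  B.and (e681 R) (e685 R)

noncomputable def v687 (R : VR) : ℕ :=
  gmk (VR.h2 R) (VR.J R) (Nat.mul (v683 R) (VR.cr1 R))

noncomputable def v688 (R : VR) : ℕ :=
  Nat.mod (Nat.land (gmk (VR.h2 R) (VR.J R) (Nat.mul (v683 R) (VR.cr1 R))) (v129 R)) (VR.m1 R)

noncomputable def s688 (R : VR) (i : ℕ) : ℕ :=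
  tx (VR.caT R) (s683 R i)

theorem e688 (R : VR) : L (VR.S R) (v688 R) (s688 R) 255 :=
  L.gat (e683 R) (VR.ca_is R) (VR.ca_lt R) (VR.ca_le R)

noncomputable def v689 (R : VR) : ℕ :=
  Nat.shiftRight (Nat.land (Nat.sub (VR.h1 R) (Nat.xor (Nat.mod (Nat.land (gmk (VR.h2 R) (VR.J R)
    (Nat.mul (v683 R) (VR.cr1 R))) (v129 R)) (VR.m1 R)) (VR.dvT R))) (VR.h1 R)) (nat_lit 15)

noncomputable def s689 (R : VR) (i : ℕ) : Bool :=
  Nat.beq (s688 R i) (s643 R i)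

theorem e689 (R : VR) : B (VR.S R) (v689 R) (s689 R) :=
  L.beq (VR.h1e R) (e688 R) (e643 R)

noncomputable def v690 (R : VR) : ℕ :=
  Nat.land (Nat.land (v681 R) (Nat.sub (VR.o1 R) (Nat.shiftRight (Nat.land (Nat.sub (VR.h1 R)
    (Nat.xor (v683 R) (v680 R))) (VR.h1 R)) (nat_lit 15)))) (Nat.shiftRight (Nat.land (Nat.sub
    (VR.h1 R) (Nat.xor (Nat.mod (Nat.land (gmk (VR.h2 R) (VR.J R) (Nat.mul (v683 R) (VR.cr1 R)))
    (v129 R)) (VR.m1 R)) (VR.dvT R))) (VR.h1 R)) (nat_lit 15))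

noncomputable def s690 (R : VR) (i : ℕ) : Bool :=
  K.band (s686 R i) (s689 R i)

theorem e690 (R : VR) : B (VR.S R) (v690 R) (s690 R) :=
  B.and (e686 R) (e689 R)

noncomputable def v691 (R : VR) : ℕ :=
  Nat.mod (Nat.land (v682 R) (v129 R)) (VR.m1 R)

noncomputable def s691 (R : VR) (i : ℕ) : ℕ :=
  tx (VR.caT R) (s680 R i)

theorem e691 (R : VR) : L (VR.S R) (v691 R) (s691 R) 255 :=
  L.gat (e680 R) (VR.ca_is R) (VR.ca_lt R) (VR.ca_le R)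

noncomputable def v692 (R : VR) : ℕ :=
  Nat.shiftRight (Nat.land (Nat.sub (Nat.add (v625 R) (VR.k1 R)) (Nat.mod (Nat.land (v682 R) (v129
    R)) (VR.m1 R))) (VR.h1 R)) (nat_lit 15)

noncomputable def s692 (R : VR) (i : ℕ) : Bool :=
  Nat.ble (Nat.succ (s691 R i)) (s625 R i)

theorem e692 (R : VR) : B (VR.S R) (v692 R) (s692 R) :=
  L.blt (VR.h1e R) (VR.k1e R) (e691 R) (e625 R)

noncomputable def v693 (R : VR) : ℕ :=
  Nat.land (Nat.land (Nat.land (v681 R) (Nat.sub (VR.o1 R) (Nat.shiftRight (Nat.land (Nat.sub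
    (VR.h1 R) (Nat.xor (v683 R) (v680 R))) (VR.h1 R)) (nat_lit 15)))) (Nat.shiftRight (Nat.land
    (Nat.sub (VR.h1 R) (Nat.xor (Nat.mod (Nat.land (gmk (VR.h2 R) (VR.J R) (Nat.mul (v683 R)
    (VR.cr1 R))) (v129 R)) (VR.m1 R)) (VR.dvT R))) (VR.h1 R)) (nat_lit 15))) (v692 R)

noncomputable def s693 (R : VR) (i : ℕ) : Bool :=
  K.band (s690 R i) (s692 R i)

theorem e693 (R : VR) : B (VR.S R) (v693 R) (s693 R) :=
  B.and (e690 R) (e692 R)

noncomputable def s694 (R : VR) (i : ℕ) : Bool :=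
  K.Cf_csok (VR.Cf R) (s643 R i)

theorem e694 (R : VR) : B (VR.S R) (v693 R) (s694 R) :=
  e693 R

noncomputable def v695 (R : VR) : ℕ :=
  gmk (VR.h2 R) (VR.J R) (Nat.mul (VR.mdT R) (VR.cr1 R))

noncomputable def v696 (R : VR) : ℕ :=
  Nat.mod (Nat.land (gmk (VR.h2 R) (VR.J R) (Nat.mul (VR.mdT R) (VR.cr1 R))) (v679 R)) (VR.m1 R)

noncomputable def s696 (R : VR) (i : ℕ) : ℕ :=
  tx (VR.csT R) (s645 R i)

theorem e696 (R : VR) : L (VR.S R) (v696 R) (s696 R) 255 :=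
  L.gat (e645 R) (VR.cs_is R) (VR.cs_lt R) (VR.cs_le R)

noncomputable def v697 (R : VR) : ℕ :=
  Nat.shiftRight (Nat.land (Nat.sub (Nat.add (v202 R) (VR.k1 R)) (v696 R)) (VR.h1 R)) (nat_lit 15)

noncomputable def s697 (R : VR) (i : ℕ) : Bool :=
  Nat.ble (Nat.succ (s696 R i)) (s202 R i)

theorem e697 (R : VR) : B (VR.S R) (v697 R) (s697 R) :=
  L.blt (VR.h1e R) (VR.k1e R) (e696 R) (e202 R)

noncomputable def v698 (R : VR) : ℕ :=
  gmk (VR.h2 R) (VR.J R) (Nat.mul (v696 R) (VR.cr1 R))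

noncomputable def v699 (R : VR) : ℕ :=
  Nat.mod (Nat.land (v698 R) (v146 R)) (VR.m1 R)

noncomputable def s699 (R : VR) (i : ℕ) : ℕ :=
  tx (VR.piT R) (s696 R i)

theorem e699 (R : VR) : L (VR.S R) (v699 R) (s699 R) 255 :=
  L.gat (e696 R) (VR.pi_is R) (VR.pi_lt R) (VR.pi_le R)

noncomputable def v700 (R : VR) : ℕ :=
  Nat.shiftRight (Nat.land (Nat.sub (VR.h1 R) (Nat.xor (v699 R) (v696 R))) (VR.h1 R)) (nat_lit 15)

noncomputable def s700 (R : VR) (i : ℕ) : Bool :=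
  Nat.beq (s699 R i) (s696 R i)

theorem e700 (R : VR) : B (VR.S R) (v700 R) (s700 R) :=
  L.beq (VR.h1e R) (e699 R) (e696 R)

noncomputable def v701 (R : VR) : ℕ :=
  Nat.sub (VR.o1 R) (Nat.shiftRight (Nat.land (Nat.sub (VR.h1 R) (Nat.xor (v699 R) (v696 R)))
    (VR.h1 R)) (nat_lit 15))

noncomputable def s701 (R : VR) (i : ℕ) : Bool :=
  K.bnot (s700 R i)

theorem e701 (R : VR) : B (VR.S R) (v701 R) (s701 R) :=
  B.not (VR.o1e R) (e700 R)

noncomputable def v702 (R : VR) : ℕ :=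
  Nat.land (v697 R) (Nat.sub (VR.o1 R) (Nat.shiftRight (Nat.land (Nat.sub (VR.h1 R) (Nat.xor (v699
    R) (v696 R))) (VR.h1 R)) (nat_lit 15)))

noncomputable def s702 (R : VR) (i : ℕ) : Bool :=
  K.band (s697 R i) (s701 R i)

theorem e702 (R : VR) : B (VR.S R) (v702 R) (s702 R) :=
  B.and (e697 R) (e701 R)

noncomputable def v703 (R : VR) : ℕ :=
  gmk (VR.h2 R) (VR.J R) (Nat.mul (v699 R) (VR.cr1 R))

noncomputable def v704 (R : VR) : ℕ :=
  Nat.mod (Nat.land (gmk (VR.h2 R) (VR.J R) (Nat.mul (v699 R) (VR.cr1 R))) (v129 R)) (VR.m1 R)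

noncomputable def s704 (R : VR) (i : ℕ) : ℕ :=
  tx (VR.caT R) (s699 R i)

theorem e704 (R : VR) : L (VR.S R) (v704 R) (s704 R) 255 :=
  L.gat (e699 R) (VR.ca_is R) (VR.ca_lt R) (VR.ca_le R)

noncomputable def v705 (R : VR) : ℕ :=
  Nat.shiftRight (Nat.land (Nat.sub (VR.h1 R) (Nat.xor (Nat.mod (Nat.land (gmk (VR.h2 R) (VR.J R)
    (Nat.mul (v699 R) (VR.cr1 R))) (v129 R)) (VR.m1 R)) (VR.mdT R))) (VR.h1 R)) (nat_lit 15)

noncomputable def s705 (R : VR) (i : ℕ) : Bool :=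
  Nat.beq (s704 R i) (s645 R i)

theorem e705 (R : VR) : B (VR.S R) (v705 R) (s705 R) :=
  L.beq (VR.h1e R) (e704 R) (e645 R)

noncomputable def v706 (R : VR) : ℕ :=
  Nat.land (Nat.land (v697 R) (Nat.sub (VR.o1 R) (Nat.shiftRight (Nat.land (Nat.sub (VR.h1 R)
    (Nat.xor (v699 R) (v696 R))) (VR.h1 R)) (nat_lit 15)))) (Nat.shiftRight (Nat.land (Nat.sub
    (VR.h1 R) (Nat.xor (Nat.mod (Nat.land (gmk (VR.h2 R) (VR.J R) (Nat.mul (v699 R) (VR.cr1 R)))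
    (v129 R)) (VR.m1 R)) (VR.mdT R))) (VR.h1 R)) (nat_lit 15))

noncomputable def s706 (R : VR) (i : ℕ) : Bool :=
  K.band (s702 R i) (s705 R i)

theorem e706 (R : VR) : B (VR.S R) (v706 R) (s706 R) :=
  B.and (e702 R) (e705 R)

noncomputable def v707 (R : VR) : ℕ :=
  Nat.mod (Nat.land (v698 R) (v129 R)) (VR.m1 R)

noncomputable def s707 (R : VR) (i : ℕ) : ℕ :=
  tx (VR.caT R) (s696 R i)

theorem e707 (R : VR) : L (VR.S R) (v707 R) (s707 R) 255 :=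
  L.gat (e696 R) (VR.ca_is R) (VR.ca_lt R) (VR.ca_le R)

noncomputable def v708 (R : VR) : ℕ :=
  Nat.shiftRight (Nat.land (Nat.sub (Nat.add (v625 R) (VR.k1 R)) (Nat.mod (Nat.land (v698 R) (v129
    R)) (VR.m1 R))) (VR.h1 R)) (nat_lit 15)

noncomputable def s708 (R : VR) (i : ℕ) : Bool :=
  Nat.ble (Nat.succ (s707 R i)) (s625 R i)

theorem e708 (R : VR) : B (VR.S R) (v708 R) (s708 R) :=
  L.blt (VR.h1e R) (VR.k1e R) (e707 R) (e625 R)

noncomputable def v709 (R : VR) : ℕ :=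
  Nat.land (Nat.land (Nat.land (v697 R) (Nat.sub (VR.o1 R) (Nat.shiftRight (Nat.land (Nat.sub
    (VR.h1 R) (Nat.xor (v699 R) (v696 R))) (VR.h1 R)) (nat_lit 15)))) (Nat.shiftRight (Nat.land
    (Nat.sub (VR.h1 R) (Nat.xor (Nat.mod (Nat.land (gmk (VR.h2 R) (VR.J R) (Nat.mul (v699 R)
    (VR.cr1 R))) (v129 R)) (VR.m1 R)) (VR.mdT R))) (VR.h1 R)) (nat_lit 15))) (v708 R)

noncomputable def s709 (R : VR) (i : ℕ) : Bool :=
  K.band (s706 R i) (s708 R i)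

theorem e709 (R : VR) : B (VR.S R) (v709 R) (s709 R) :=
  B.and (e706 R) (e708 R)

noncomputable def s710 (R : VR) (i : ℕ) : Bool :=
  K.Cf_csok (VR.Cf R) (s645 R i)

theorem e710 (R : VR) : B (VR.S R) (v709 R) (s710 R) :=
  e709 R

noncomputable def v711 (R : VR) : ℕ :=
  Nat.land (Nat.land (Nat.land (Nat.land (v681 R) (Nat.sub (VR.o1 R) (Nat.shiftRight (Nat.land
    (Nat.sub (VR.h1 R) (Nat.xor (v683 R) (v680 R))) (VR.h1 R)) (nat_lit 15)))) (Nat.shiftRight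
    (Nat.land (Nat.sub (VR.h1 R) (Nat.xor (Nat.mod (Nat.land (gmk (VR.h2 R) (VR.J R) (Nat.mul
    (v683 R) (VR.cr1 R))) (v129 R)) (VR.m1 R)) (VR.dvT R))) (VR.h1 R)) (nat_lit 15))) (v692 R))
    (Nat.land (Nat.land (Nat.land (v697 R) (Nat.sub (VR.o1 R) (Nat.shiftRight (Nat.land (Nat.sub
    (VR.h1 R) (Nat.xor (v699 R) (v696 R))) (VR.h1 R)) (nat_lit 15)))) (Nat.shiftRight (Nat.land
    (Nat.sub (VR.h1 R) (Nat.xor (Nat.mod (Nat.land (gmk (VR.h2 R) (VR.J R) (Nat.mul (v699 R)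
    (VR.cr1 R))) (v129 R)) (VR.m1 R)) (VR.mdT R))) (VR.h1 R)) (nat_lit 15))) (v708 R))

noncomputable def s711 (R : VR) (i : ℕ) : Bool :=
  K.band (s694 R i) (s710 R i)

theorem e711 (R : VR) : B (VR.S R) (v711 R) (s711 R) :=
  B.and (e694 R) (e710 R)

noncomputable def v712 (R : VR) : ℕ :=
  Nat.land (v681 R) (v697 R)

noncomputable def s712 (R : VR) (i : ℕ) : Bool :=
  K.band (s681 R i) (s697 R i)

theorem e712 (R : VR) : B (VR.S R) (v712 R) (s712 R) :=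
  B.and (e681 R) (e697 R)

noncomputable def v713 (R : VR) : ℕ :=
  Nat.land (Nat.land (v681 R) (v697 R)) (v692 R)

noncomputable def s713 (R : VR) (i : ℕ) : Bool :=
  K.band (s712 R i) (s692 R i)

theorem e713 (R : VR) : B (VR.S R) (v713 R) (s713 R) :=
  B.and (e712 R) (e692 R)

noncomputable def v714 (R : VR) : ℕ :=
  Nat.land (Nat.land (Nat.land (v681 R) (v697 R)) (v692 R)) (v708 R)

noncomputable def s714 (R : VR) (i : ℕ) : Bool :=
  K.band (s713 R i) (s708 R i)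

theorem e714 (R : VR) : B (VR.S R) (v714 R) (s714 R) :=
  B.and (e713 R) (e708 R)

noncomputable def v715 (R : VR) : ℕ :=
  Nat.mod (Nat.land (v682 R) (v436 R)) (VR.m1 R)

noncomputable def s715 (R : VR) (i : ℕ) : Bool :=
  tf (VR.rlT R) (s680 R i)

theorem e715 (R : VR) : B (VR.S R) (v715 R) (s715 R) :=
  B.gat (e680 R) (VR.rl_is R) (VR.rl_lt R)

noncomputable def v716 (R : VR) : ℕ :=
  Nat.mod (Nat.land (v698 R) (v436 R)) (VR.m1 R)

noncomputable def s716 (R : VR) (i : ℕ) : Bool :=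
  tf (VR.rlT R) (s696 R i)

theorem e716 (R : VR) : B (VR.S R) (v716 R) (s716 R) :=
  B.gat (e696 R) (VR.rl_is R) (VR.rl_lt R)

noncomputable def v717 (R : VR) : ℕ :=
  Nat.sub (VR.o1 R) (Nat.xor (Nat.mod (Nat.land (v682 R) (v436 R)) (VR.m1 R)) (Nat.mod (Nat.land
    (v698 R) (v436 R)) (VR.m1 R)))

noncomputable def s717 (R : VR) (i : ℕ) : Bool :=
  K.beqB (s715 R i) (s716 R i)

theorem e717 (R : VR) : B (VR.S R) (v717 R) (s717 R) :=
  B.beqB (VR.o1e R) (e715 R) (e716 R)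

noncomputable def v718 (R : VR) : ℕ :=
  Nat.sub (VR.o1 R) (Nat.sub (VR.o1 R) (Nat.xor (Nat.mod (Nat.land (v682 R) (v436 R)) (VR.m1 R))
    (Nat.mod (Nat.land (v698 R) (v436 R)) (VR.m1 R))))

noncomputable def s718 (R : VR) (i : ℕ) : Bool :=
  K.bnot (s717 R i)

theorem e718 (R : VR) : B (VR.S R) (v718 R) (s718 R) :=
  B.not (VR.o1e R) (e717 R)

noncomputable def s719 (R : VR) (i : ℕ) : ℕ :=
  tx (VR.s1T R) i

theorem e719 (R : VR) : L (VR.S R) (VR.s1T R) (s719 R) 32767 :=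
  VR.s1_is R

noncomputable def v720 (R : VR) : ℕ :=
  srM (VR.N R) (VR.S R) (VR.o1 R) (VR.s1T R)

noncomputable def v721 (R : VR) : ℕ :=
  Nat.mod (Nat.land (v682 R) (v720 R)) (VR.m1 R)

noncomputable def s721 (R : VR) (i : ℕ) : ℕ :=
  tx (VR.s1T R) (s680 R i)

theorem e721 (R : VR) : L (VR.S R) (v721 R) (s721 R) 32767 :=
  L.gat (e680 R) (VR.s1_is R) (VR.s1_lt R) (VR.s1_le R)

noncomputable def v722 (R : VR) : ℕ :=
  Nat.mod (Nat.land (v698 R) (v21 R)) (VR.m1 R)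

noncomputable def s722 (R : VR) (i : ℕ) : ℕ :=
  tx (VR.pw1T R) (s696 R i)

theorem e722 (R : VR) : L (VR.S R) (v722 R) (s722 R) 16384 :=
  L.gat (e696 R) (VR.pw1_is R) (VR.pw1_lt R) (VR.pw1_le R)

noncomputable def v723 (R : VR) : ℕ :=
  Nat.land (Nat.mod (Nat.land (v682 R) (v720 R)) (VR.m1 R)) (Nat.mod (Nat.land (v698 R) (v21 R))
    (VR.m1 R))

noncomputable def s723 (R : VR) (i : ℕ) : ℕ :=
  Nat.land (s721 R i) (s722 R i)

theorem e723 (R : VR) : L (VR.S R) (v723 R) (s723 R) 32767 :=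
  L.land (e721 R) (e722 R)

noncomputable def v724 (R : VR) : ℕ :=
  Nat.shiftRight (Nat.land (Nat.sub (VR.h1 R) (v723 R)) (VR.h1 R)) (nat_lit 15)

noncomputable def s724 (R : VR) (i : ℕ) : Bool :=
  Nat.beq (s723 R i) (nat_lit 0)

theorem e724 (R : VR) : B (VR.S R) (v724 R) (s724 R) :=
  L.ez (VR.h1e R) (e723 R)

noncomputable def v725 (R : VR) : ℕ :=
  Nat.shiftRight (Nat.land (Nat.add (v723 R) (VR.k1 R)) (VR.h1 R)) (nat_lit 15)

noncomputable def s725 (R : VR) (i : ℕ) : Bool :=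
  K.bnot (Nat.beq (s723 R i) (nat_lit 0))

theorem e725 (R : VR) : B (VR.S R) (v725 R) (s725 R) :=
  L.nz (VR.h1e R) (VR.k1e R) (e723 R)

noncomputable def s726 (R : VR) (i : ℕ) : ℕ :=
  tx (VR.s2T R) i

theorem e726 (R : VR) : L (VR.S R) (VR.s2T R) (s726 R) 32767 :=
  VR.s2_is R

noncomputable def v727 (R : VR) : ℕ :=
  srM (VR.N R) (VR.S R) (VR.o1 R) (VR.s2T R)

noncomputable def v728 (R : VR) : ℕ :=
  Nat.mod (Nat.land (v682 R) (v727 R)) (VR.m1 R)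

noncomputable def s728 (R : VR) (i : ℕ) : ℕ :=
  tx (VR.s2T R) (s680 R i)

theorem e728 (R : VR) : L (VR.S R) (v728 R) (s728 R) 32767 :=
  L.gat (e680 R) (VR.s2_is R) (VR.s2_lt R) (VR.s2_le R)

noncomputable def v729 (R : VR) : ℕ :=
  Nat.mod (Nat.land (v698 R) (v38 R)) (VR.m1 R)

noncomputable def s729 (R : VR) (i : ℕ) : ℕ :=
  tx (VR.pw2T R) (s696 R i)

theorem e729 (R : VR) : L (VR.S R) (v729 R) (s729 R) 16384 :=
  L.gat (e696 R) (VR.pw2_is R) (VR.pw2_lt R) (VR.pw2_le R)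

noncomputable def v730 (R : VR) : ℕ :=
  Nat.land (Nat.mod (Nat.land (v682 R) (v727 R)) (VR.m1 R)) (Nat.mod (Nat.land (v698 R) (v38 R))
    (VR.m1 R))

noncomputable def s730 (R : VR) (i : ℕ) : ℕ :=
  Nat.land (s728 R i) (s729 R i)

theorem e730 (R : VR) : L (VR.S R) (v730 R) (s730 R) 32767 :=
  L.land (e728 R) (e729 R)

noncomputable def v731 (R : VR) : ℕ :=
  Nat.shiftRight (Nat.land (Nat.sub (VR.h1 R) (v730 R)) (VR.h1 R)) (nat_lit 15)

noncomputable def s731 (R : VR) (i : ℕ) : Bool :=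
  Nat.beq (s730 R i) (nat_lit 0)

theorem e731 (R : VR) : B (VR.S R) (v731 R) (s731 R) :=
  L.ez (VR.h1e R) (e730 R)

noncomputable def v732 (R : VR) : ℕ :=
  Nat.shiftRight (Nat.land (Nat.add (v730 R) (VR.k1 R)) (VR.h1 R)) (nat_lit 15)

noncomputable def s732 (R : VR) (i : ℕ) : Bool :=
  K.bnot (Nat.beq (s730 R i) (nat_lit 0))

theorem e732 (R : VR) : B (VR.S R) (v732 R) (s732 R) :=
  L.nz (VR.h1e R) (VR.k1e R) (e730 R)

noncomputable def v733 (R : VR) : ℕ :=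
  Nat.lor (Nat.shiftRight (Nat.land (Nat.add (v723 R) (VR.k1 R)) (VR.h1 R)) (nat_lit 15))
    (Nat.shiftRight (Nat.land (Nat.add (v730 R) (VR.k1 R)) (VR.h1 R)) (nat_lit 15))

noncomputable def s733 (R : VR) (i : ℕ) : Bool :=
  K.bor (s725 R i) (s732 R i)

theorem e733 (R : VR) : B (VR.S R) (v733 R) (s733 R) :=
  B.or (e725 R) (e732 R)

noncomputable def s734 (R : VR) (i : ℕ) : ℕ :=
  tx (VR.s3T R) i

theorem e734 (R : VR) : L (VR.S R) (VR.s3T R) (s734 R) 32767 :=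
  VR.s3_is R

noncomputable def v735 (R : VR) : ℕ :=
  srM (VR.N R) (VR.S R) (VR.o1 R) (VR.s3T R)

noncomputable def v736 (R : VR) : ℕ :=
  Nat.mod (Nat.land (v682 R) (v735 R)) (VR.m1 R)

noncomputable def s736 (R : VR) (i : ℕ) : ℕ :=
  tx (VR.s3T R) (s680 R i)

theorem e736 (R : VR) : L (VR.S R) (v736 R) (s736 R) 32767 :=
  L.gat (e680 R) (VR.s3_is R) (VR.s3_lt R) (VR.s3_le R)

noncomputable def s737 (R : VR) (i : ℕ) : ℕ :=
  tx (VR.pw3T R) i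

theorem e737 (R : VR) : L (VR.S R) (VR.pw3T R) (s737 R) 16384 :=
  VR.pw3_is R

noncomputable def v738 (R : VR) : ℕ :=
  srM (VR.N R) (VR.S R) (VR.o1 R) (VR.pw3T R)

noncomputable def v739 (R : VR) : ℕ :=
  Nat.mod (Nat.land (v698 R) (v738 R)) (VR.m1 R)

noncomputable def s739 (R : VR) (i : ℕ) : ℕ :=
  tx (VR.pw3T R) (s696 R i)

theorem e739 (R : VR) : L (VR.S R) (v739 R) (s739 R) 16384 :=
  L.gat (e696 R) (VR.pw3_is R) (VR.pw3_lt R) (VR.pw3_le R)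

noncomputable def v740 (R : VR) : ℕ :=
  Nat.land (Nat.mod (Nat.land (v682 R) (v735 R)) (VR.m1 R)) (Nat.mod (Nat.land (v698 R) (v738 R))
    (VR.m1 R))

noncomputable def s740 (R : VR) (i : ℕ) : ℕ :=
  Nat.land (s736 R i) (s739 R i)

theorem e740 (R : VR) : L (VR.S R) (v740 R) (s740 R) 32767 :=
  L.land (e736 R) (e739 R)

noncomputable def v741 (R : VR) : ℕ :=
  Nat.shiftRight (Nat.land (Nat.sub (VR.h1 R) (v740 R)) (VR.h1 R)) (nat_lit 15)

noncomputable def s741 (R : VR) (i : ℕ) : Bool :=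
  Nat.beq (s740 R i) (nat_lit 0)

theorem e741 (R : VR) : B (VR.S R) (v741 R) (s741 R) :=
  L.ez (VR.h1e R) (e740 R)

noncomputable def v742 (R : VR) : ℕ :=
  Nat.shiftRight (Nat.land (Nat.add (v740 R) (VR.k1 R)) (VR.h1 R)) (nat_lit 15)

noncomputable def s742 (R : VR) (i : ℕ) : Bool :=
  K.bnot (Nat.beq (s740 R i) (nat_lit 0))

theorem e742 (R : VR) : B (VR.S R) (v742 R) (s742 R) :=
  L.nz (VR.h1e R) (VR.k1e R) (e740 R)

noncomputable def v743 (R : VR) : ℕ :=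
  Nat.lor (Nat.lor (Nat.shiftRight (Nat.land (Nat.add (v723 R) (VR.k1 R)) (VR.h1 R)) (nat_lit 15))
    (Nat.shiftRight (Nat.land (Nat.add (v730 R) (VR.k1 R)) (VR.h1 R)) (nat_lit 15)))
    (Nat.shiftRight (Nat.land (Nat.add (v740 R) (VR.k1 R)) (VR.h1 R)) (nat_lit 15))

noncomputable def s743 (R : VR) (i : ℕ) : Bool :=
  K.bor (s733 R i) (s742 R i)

theorem e743 (R : VR) : B (VR.S R) (v743 R) (s743 R) :=
  B.or (e733 R) (e742 R)

noncomputable def s744 (R : VR) (i : ℕ) : Bool :=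
  V2.sd R (s680 R i) (s696 R i)

theorem e744 (R : VR) : B (VR.S R) (v743 R) (s744 R) :=
  e743 R

noncomputable def v745 (R : VR) : ℕ :=
  Nat.lor (Nat.sub (VR.o1 R) (Nat.sub (VR.o1 R) (Nat.xor (Nat.mod (Nat.land (v682 R) (v436 R))
    (VR.m1 R)) (Nat.mod (Nat.land (v698 R) (v436 R)) (VR.m1 R))))) (Nat.lor (Nat.lor
    (Nat.shiftRight (Nat.land (Nat.add (v723 R) (VR.k1 R)) (VR.h1 R)) (nat_lit 15))
    (Nat.shiftRight (Nat.land (Nat.add (v730 R) (VR.k1 R)) (VR.h1 R)) (nat_lit 15)))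
    (Nat.shiftRight (Nat.land (Nat.add (v740 R) (VR.k1 R)) (VR.h1 R)) (nat_lit 15)))

noncomputable def s745 (R : VR) (i : ℕ) : Bool :=
  K.bor (s718 R i) (s744 R i)

theorem e745 (R : VR) : B (VR.S R) (v745 R) (s745 R) :=
  B.or (e718 R) (e744 R)

noncomputable def v746 (R : VR) : ℕ :=
  Nat.land (Nat.land (Nat.land (Nat.land (v681 R) (v697 R)) (v692 R)) (v708 R)) (v745 R)

noncomputable def s746 (R : VR) (i : ℕ) : Bool :=
  K.band (s714 R i) (s745 R i)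

theorem e746 (R : VR) : B (VR.S R) (v746 R) (s746 R) :=
  B.and (e714 R) (e745 R)

noncomputable def s747 (R : VR) (i : ℕ) : Bool :=
  K.Cf_sd (VR.Cf R) (s680 R i) (s696 R i)

theorem e747 (R : VR) : B (VR.S R) (v746 R) (s747 R) :=
  e746 R

noncomputable def v748 (R : VR) : ℕ :=
  Nat.land (v711 R) (Nat.land (Nat.land (Nat.land (Nat.land (v681 R) (v697 R)) (v692 R)) (v708 R))
    (v745 R))

noncomputable def s748 (R : VR) (i : ℕ) : Bool :=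
  K.band (s711 R i) (s747 R i)

theorem e748 (R : VR) : B (VR.S R) (v748 R) (s748 R) :=
  B.and (e711 R) (e747 R)

noncomputable def v749 (R : VR) : ℕ :=
  Nat.lor (Nat.lor (Nat.lor (Nat.shiftRight (Nat.land (Nat.sub (VR.h1 R) (Nat.xor (VR.dvT R)
    (VR.mdT R))) (VR.h1 R)) (nat_lit 15)) (Nat.sub (VR.o1 R) (Nat.sub (VR.o1 R) (Nat.xor (v650 R)
    (v651 R))))) (Nat.shiftRight (Nat.land (Nat.add (VR.adT R) (VR.k1 R)) (VR.h1 R)) (nat_lit
    15))) (Nat.land (v711 R) (Nat.land (Nat.land (Nat.land (Nat.land (v681 R) (v697 R)) (v692 R))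
    (v708 R)) (v745 R)))

noncomputable def s749 (R : VR) (i : ℕ) : Bool :=
  K.bor (s676 R i) (s748 R i)

theorem e749 (R : VR) : B (VR.S R) (v749 R) (s749 R) :=
  B.or (e676 R) (e748 R)

noncomputable def v750 (R : VR) : ℕ :=
  Nat.land (Nat.lor (Nat.shiftRight (Nat.land (Nat.sub (VR.h1 R) (VR.adT R)) (VR.h1 R)) (nat_lit
    15)) (Nat.land (Nat.land (v664 R) (Nat.sub (VR.o1 R) (Nat.shiftRight (Nat.land (Nat.sub (VR.h1
    R) (Nat.xor (v660 R) (v653 R))) (VR.h1 R)) (nat_lit 15)))) (Nat.mod (Nat.land (v656 R) (v436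
    R)) (VR.m1 R)))) (Nat.lor (Nat.lor (Nat.lor (Nat.shiftRight (Nat.land (Nat.sub (VR.h1 R)
    (Nat.xor (VR.dvT R) (VR.mdT R))) (VR.h1 R)) (nat_lit 15)) (Nat.sub (VR.o1 R) (Nat.sub (VR.o1
    R) (Nat.xor (v650 R) (v651 R))))) (Nat.shiftRight (Nat.land (Nat.add (VR.adT R) (VR.k1 R))
    (VR.h1 R)) (nat_lit 15))) (Nat.land (v711 R) (Nat.land (Nat.land (Nat.land (Nat.land (v681 R)
    (v697 R)) (v692 R)) (v708 R)) (v745 R))))

noncomputable def s750 (R : VR) (i : ℕ) : Bool :=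
  K.band (s670 R i) (s749 R i)

theorem e750 (R : VR) : B (VR.S R) (v750 R) (s750 R) :=
  B.and (e670 R) (e749 R)

noncomputable def v751 (R : VR) : ℕ :=
  Nat.lor (Nat.lor (Nat.shiftRight (Nat.land (Nat.sub (Nat.add (VR.dvT R) (VR.h1 R)) (v543 R))
    (VR.h1 R)) (nat_lit 15)) (Nat.shiftRight (Nat.land (Nat.sub (Nat.add (VR.mdT R) (VR.h1 R))
    (v543 R)) (VR.h1 R)) (nat_lit 15))) (v750 R)

noncomputable def s751 (R : VR) (i : ℕ) : Bool :=
  K.bor (s647 R i) (s750 R i)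

theorem e751 (R : VR) : B (VR.S R) (v751 R) (s751 R) :=
  B.or (e647 R) (e750 R)

noncomputable def v752 (R : VR) : Bool :=
  Nat.beq (Nat.land (Nat.sub (VR.o1 R) (Nat.lor (Nat.lor (Nat.shiftRight (Nat.land (Nat.sub
    (Nat.add (VR.dvT R) (VR.h1 R)) (v543 R)) (VR.h1 R)) (nat_lit 15)) (Nat.shiftRight (Nat.land
    (Nat.sub (Nat.add (VR.mdT R) (VR.h1 R)) (v543 R)) (VR.h1 R)) (nat_lit 15))) (v750 R))) (mM
    (VR.nc8 R))) (nat_lit 0)

noncomputable def s752 (R : VR) : Bool :=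
  K.allN (s642 R) (s751 R)

theorem e752 (R : VR) : (v752 R) = s752 R :=
  all0 (e751 R) (VR.nc8_le R)

noncomputable def s753 (R : VR) : Bool :=
  K.allN (s642 R) (fun (x18 : ℕ) => (K.bor (K.bor (Nat.ble (VR.nc R) (tx (VR.dvT R) x18)) (Nat.ble
    (VR.nc R) (tx (VR.mdT R) x18))) (K.band (K.bor (Nat.beq (tx (VR.adT R) x18) (nat_lit 0))
    (K.band (K.band (K.band (K.band (K.band (K.band (FC7.Cf.ac (VR.Cf R) (tx (VR.dvT R) x18))
    (FC7.Cf.ac (VR.Cf R) (tx (VR.mdT R) x18))) (Nat.ble (Nat.succ (Nat.sub (tx (VR.adT R) x18)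
    (nat_lit 1))) (FC6.Sp.ns (VR.Q R)))) (Nat.beq (FC6.Stars.ca (VR.Z R) (Nat.sub (tx (VR.adT R)
    x18) (nat_lit 1))) (tx (VR.dvT R) x18))) (Nat.beq (FC6.Stars.ca (VR.Z R) (FC6.Sp.π (VR.Q R)
    (Nat.sub (tx (VR.adT R) x18) (nat_lit 1)))) (tx (VR.mdT R) x18))) (K.bnot (Nat.beq (FC6.Sp.π
    (VR.Q R) (Nat.sub (tx (VR.adT R) x18) (nat_lit 1))) (Nat.sub (tx (VR.adT R) x18) (nat_lit
    1))))) (FC6.Sp.rl (VR.Q R) (Nat.sub (tx (VR.adT R) x18) (nat_lit 1))))) (K.bor (K.bor (K.bor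
    (Nat.beq (tx (VR.dvT R) x18) (tx (VR.mdT R) x18)) (K.bnot (K.beqB (FC7.Cf.ac (VR.Cf R) (tx
    (VR.dvT R) x18)) (FC7.Cf.ac (VR.Cf R) (tx (VR.mdT R) x18))))) (K.bnot (Nat.beq (tx (VR.adT R)
    x18) (nat_lit 0)))) (K.band (K.band (K.Cf_csok (VR.Cf R) (tx (VR.dvT R) x18)) (K.Cf_csok
    (VR.Cf R) (tx (VR.mdT R) x18))) (K.Cf_sd (VR.Cf R) (FC7.Cf.cs (VR.Cf R) (tx (VR.dvT R) x18))
    (FC7.Cf.cs (VR.Cf R) (tx (VR.mdT R) x18))))))))

theorem e753 (R : VR) : (v752 R) = s753 R :=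
  e752 R

noncomputable def s754 (R : VR) : Bool :=
  V2.cfS1 R

theorem e754 (R : VR) : (v752 R) = s754 R :=
  e753 R

noncomputable def c_cfS1 (R : VR) : Bool :=
  (Nat.beq (Nat.land (Nat.sub (VR.o1 R) (Nat.lor (Nat.lor (Nat.shiftRight (Nat.land (Nat.sub
    (Nat.add (VR.dvT R) (VR.h1 R)) (v543 R)) (VR.h1 R)) (nat_lit 15)) (Nat.shiftRight (Nat.land
    (Nat.sub (Nat.add (VR.mdT R) (VR.h1 R)) (v543 R)) (VR.h1 R)) (nat_lit 15))) (v750 R))) (mM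
    (VR.nc8 R))) (nat_lit 0))

theorem c_cfS1_eq (R : VR) : c_cfS1 R = (V2.cfS1 R) :=
  e754 R

noncomputable def s755 (R : VR) (i : ℕ) : ℕ :=
  tx (VR.falT R) i

theorem e755 (R : VR) : L (VR.S R) (VR.falT R) (s755 R) 255 :=
  VR.fal_is R

noncomputable def v756 (R : VR) : ℕ :=
  Nat.shiftRight (Nat.land (Nat.sub (Nat.add (v202 R) (VR.k1 R)) (VR.falT R)) (VR.h1 R)) (nat_lit
    15)

noncomputable def s756 (R : VR) (i : ℕ) : Bool :=
  Nat.ble (Nat.succ (s755 R i)) (s202 R i)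

theorem e756 (R : VR) : B (VR.S R) (v756 R) (s756 R) :=
  L.blt (VR.h1e R) (VR.k1e R) (e755 R) (e202 R)

noncomputable def v757 (R : VR) : ℕ :=
  gmk (VR.h2 R) (VR.J R) (Nat.mul (VR.falT R) (VR.cr1 R))

noncomputable def v758 (R : VR) : ℕ :=
  Nat.mod (Nat.land (v757 R) (v129 R)) (VR.m1 R)

noncomputable def s758 (R : VR) (i : ℕ) : ℕ :=
  tx (VR.caT R) (s755 R i)

theorem e758 (R : VR) : L (VR.S R) (v758 R) (s758 R) 255 :=
  L.gat (e755 R) (VR.ca_is R) (VR.ca_lt R) (VR.ca_le R)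

noncomputable def v759 (R : VR) : ℕ :=
  Nat.shiftRight (Nat.land (Nat.sub (Nat.add (v625 R) (VR.k1 R)) (v758 R)) (VR.h1 R)) (nat_lit 15)

noncomputable def s759 (R : VR) (i : ℕ) : Bool :=
  Nat.ble (Nat.succ (s758 R i)) (s625 R i)

theorem e759 (R : VR) : B (VR.S R) (v759 R) (s759 R) :=
  L.blt (VR.h1e R) (VR.k1e R) (e758 R) (e625 R)

noncomputable def v760 (R : VR) : ℕ :=
  Nat.land (v756 R) (v759 R)

noncomputable def s760 (R : VR) (i : ℕ) : Bool :=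
  K.band (s756 R i) (s759 R i)

theorem e760 (R : VR) : B (VR.S R) (v760 R) (s760 R) :=
  B.and (e756 R) (e759 R)

noncomputable def v761 (R : VR) : ℕ :=
  Nat.shiftRight (Nat.land (Nat.sub (VR.h1 R) (Nat.xor (VR.falT R) (VR.iota R))) (VR.h1 R))
    (nat_lit 15)

noncomputable def s761 (R : VR) (i : ℕ) : Bool :=
  Nat.beq (s755 R i) (s0 R i)

theorem e761 (R : VR) : B (VR.S R) (v761 R) (s761 R) :=
  L.beq (VR.h1e R) (e755 R) (e0 R)

noncomputable def v762 (R : VR) : ℕ :=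
  Nat.shiftRight (Nat.land (Nat.sub (VR.h1 R) (Nat.xor (VR.falT R) (v152 R))) (VR.h1 R)) (nat_lit
    15)

noncomputable def s762 (R : VR) (i : ℕ) : Bool :=
  Nat.beq (s755 R i) (s152 R i)

theorem e762 (R : VR) : B (VR.S R) (v762 R) (s762 R) :=
  L.beq (VR.h1e R) (e755 R) (e152 R)

noncomputable def v763 (R : VR) : ℕ :=
  Nat.land (v149 R) (Nat.shiftRight (Nat.land (Nat.sub (VR.h1 R) (Nat.xor (VR.falT R) (v152 R)))
    (VR.h1 R)) (nat_lit 15))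

noncomputable def s763 (R : VR) (i : ℕ) : Bool :=
  K.band (s149 R i) (s762 R i)

theorem e763 (R : VR) : B (VR.S R) (v763 R) (s763 R) :=
  B.and (e149 R) (e762 R)

noncomputable def v764 (R : VR) : ℕ :=
  Nat.lor (Nat.shiftRight (Nat.land (Nat.sub (VR.h1 R) (Nat.xor (VR.falT R) (VR.iota R))) (VR.h1
    R)) (nat_lit 15)) (Nat.land (v149 R) (Nat.shiftRight (Nat.land (Nat.sub (VR.h1 R) (Nat.xor
    (VR.falT R) (v152 R))) (VR.h1 R)) (nat_lit 15)))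

noncomputable def s764 (R : VR) (i : ℕ) : Bool :=
  K.bor (s761 R i) (s763 R i)

theorem e764 (R : VR) : B (VR.S R) (v764 R) (s764 R) :=
  B.or (e761 R) (e763 R)

noncomputable def v765 (R : VR) : ℕ :=
  Nat.shiftRight (Nat.land (Nat.sub (VR.h1 R) (Nat.xor (VR.falT R) (v165 R))) (VR.h1 R)) (nat_lit
    15)

noncomputable def s765 (R : VR) (i : ℕ) : Bool :=
  Nat.beq (s755 R i) (s165 R i)

theorem e765 (R : VR) : B (VR.S R) (v765 R) (s765 R) :=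
  L.beq (VR.h1e R) (e755 R) (e165 R)

noncomputable def v766 (R : VR) : ℕ :=
  Nat.land (v162 R) (Nat.shiftRight (Nat.land (Nat.sub (VR.h1 R) (Nat.xor (VR.falT R) (v165 R)))
    (VR.h1 R)) (nat_lit 15))

noncomputable def s766 (R : VR) (i : ℕ) : Bool :=
  K.band (s162 R i) (s765 R i)

theorem e766 (R : VR) : B (VR.S R) (v766 R) (s766 R) :=
  B.and (e162 R) (e765 R)

noncomputable def v767 (R : VR) : ℕ :=
  Nat.lor (Nat.lor (Nat.shiftRight (Nat.land (Nat.sub (VR.h1 R) (Nat.xor (VR.falT R) (VR.iota R)))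
    (VR.h1 R)) (nat_lit 15)) (Nat.land (v149 R) (Nat.shiftRight (Nat.land (Nat.sub (VR.h1 R)
    (Nat.xor (VR.falT R) (v152 R))) (VR.h1 R)) (nat_lit 15)))) (Nat.land (v162 R) (Nat.shiftRight
    (Nat.land (Nat.sub (VR.h1 R) (Nat.xor (VR.falT R) (v165 R))) (VR.h1 R)) (nat_lit 15)))

noncomputable def s767 (R : VR) (i : ℕ) : Bool :=
  K.bor (s764 R i) (s766 R i)

theorem e767 (R : VR) : B (VR.S R) (v767 R) (s767 R) :=
  B.or (e764 R) (e766 R)

noncomputable def v768 (R : VR) : ℕ :=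
  Nat.land (Nat.land (v756 R) (v759 R)) (Nat.lor (Nat.lor (Nat.shiftRight (Nat.land (Nat.sub
    (VR.h1 R) (Nat.xor (VR.falT R) (VR.iota R))) (VR.h1 R)) (nat_lit 15)) (Nat.land (v149 R)
    (Nat.shiftRight (Nat.land (Nat.sub (VR.h1 R) (Nat.xor (VR.falT R) (v152 R))) (VR.h1 R))
    (nat_lit 15)))) (Nat.land (v162 R) (Nat.shiftRight (Nat.land (Nat.sub (VR.h1 R) (Nat.xor
    (VR.falT R) (v165 R))) (VR.h1 R)) (nat_lit 15))))

noncomputable def s768 (R : VR) (i : ℕ) : Bool :=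
  K.band (s760 R i) (s767 R i)

theorem e768 (R : VR) : B (VR.S R) (v768 R) (s768 R) :=
  B.and (e760 R) (e767 R)

noncomputable def v769 (R : VR) : ℕ :=
  Nat.xor (v406 R) (Nat.land (Nat.xor (v406 R) (VR.rlT R)) (v626 R))

noncomputable def s769 (R : VR) (i : ℕ) : Bool :=
  Bool.rec (motive := fun _ => Bool) (s406 R i) (s435 R i) (s626 R i)

theorem e769 (R : VR) : B (VR.S R) (v769 R) (s769 R) :=
  B.sel (e626 R) (e435 R) (e406 R)

noncomputable def s770 (R : VR) (i : ℕ) : Bool :=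
  K.Cf_hal (VR.Cf R) i

theorem e770 (R : VR) : B (VR.S R) (v769 R) (s770 R) :=
  e769 R

noncomputable def v771 (R : VR) : ℕ :=
  Nat.shiftRight (Nat.land (Nat.sub (Nat.add (v625 R) (VR.k1 R)) (VR.iota R)) (VR.h1 R)) (nat_lit
    15)

noncomputable def s771 (R : VR) (i : ℕ) : Bool :=
  Nat.ble (Nat.succ (s0 R i)) (s625 R i)

theorem e771 (R : VR) : B (VR.S R) (v771 R) (s771 R) :=
  L.blt (VR.h1e R) (VR.k1e R) (e0 R) (e625 R)

noncomputable def v772 (R : VR) : ℕ :=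
  Nat.mul (Nat.xor (v406 R) (Nat.land (Nat.xor (v406 R) (VR.rlT R)) (v626 R))) (VR.cr1 R)

noncomputable def s772 (R : VR) (j i : ℕ) : Bool :=
  (s770 R i)

theorem e772 (R : VR) : B2 R (v772 R) (s772 R) :=
  B2.rep (e770 R)

noncomputable def v773 (R : VR) : ℕ :=
  srM (VR.N R) (VR.S R) (VR.o1 R) (v771 R)

noncomputable def s773 (R : VR) (j i : ℕ) : Bool :=
  (s771 R j)

theorem e773 (R : VR) : B2 R (v773 R) (s773 R) :=
  B2.row (e771 R)

noncomputable def v774 (R : VR) : ℕ :=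
  Nat.sub (VR.o2 R) (Nat.xor (Nat.mul (Nat.xor (v406 R) (Nat.land (Nat.xor (v406 R) (VR.rlT R))
    (v626 R))) (VR.cr1 R)) (v773 R))

noncomputable def s774 (R : VR) (j i : ℕ) : Bool :=
  K.beqB (s772 R j i) (s773 R j i)

theorem e774 (R : VR) : B2 R (v774 R) (s774 R) :=
  B.beqB (VR.o2e R) (e772 R) (e773 R)

noncomputable def v775 (R : VR) : ℕ :=
  Nat.sub (VR.o2 R) (Nat.sub (VR.o2 R) (Nat.xor (Nat.mul (Nat.xor (v406 R) (Nat.land (Nat.xor
    (v406 R) (VR.rlT R)) (v626 R))) (VR.cr1 R)) (v773 R)))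

noncomputable def s775 (R : VR) (j i : ℕ) : Bool :=
  K.bnot (s774 R j i)

theorem e775 (R : VR) : B2 R (v775 R) (s775 R) :=
  B.not (VR.o2e R) (e774 R)

noncomputable def v776 (R : VR) : ℕ :=
  Nat.mul (v758 R) (VR.cr1 R)

noncomputable def s776 (R : VR) (j i : ℕ) : ℕ :=
  (s758 R i)

theorem e776 (R : VR) : L2 R (v776 R) (s776 R) 255 :=
  L2.rep (e758 R)

noncomputable def v777 (R : VR) : ℕ :=
  Nat.shiftRight (Nat.land (Nat.sub (VR.h2 R) (Nat.xor (Nat.mul (v758 R) (VR.cr1 R)) (v528 R)))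
    (VR.h2 R)) (nat_lit 15)

noncomputable def s777 (R : VR) (j i : ℕ) : Bool :=
  Nat.beq (s776 R j i) (s528 R j i)

theorem e777 (R : VR) : B2 R (v777 R) (s777 R) :=
  L.beq (VR.h2e R) (e776 R) (e528 R)

noncomputable def v778 (R : VR) : ℕ :=
  Nat.mod (Nat.land (v757 R) (v436 R)) (VR.m1 R)

noncomputable def s778 (R : VR) (i : ℕ) : Bool :=
  tf (VR.rlT R) (s755 R i)

theorem e778 (R : VR) : B (VR.S R) (v778 R) (s778 R) :=
  B.gat (e755 R) (VR.rl_is R) (VR.rl_lt R)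

noncomputable def v779 (R : VR) : ℕ :=
  Nat.mul (Nat.mod (Nat.land (v757 R) (v436 R)) (VR.m1 R)) (VR.cr1 R)

noncomputable def s779 (R : VR) (j i : ℕ) : Bool :=
  (s778 R i)

theorem e779 (R : VR) : B2 R (v779 R) (s779 R) :=
  B2.rep (e778 R)

noncomputable def v780 (R : VR) : ℕ :=
  Nat.land (Nat.shiftRight (Nat.land (Nat.sub (VR.h2 R) (Nat.xor (Nat.mul (v758 R) (VR.cr1 R))
    (v528 R))) (VR.h2 R)) (nat_lit 15)) (v779 R)

noncomputable def s780 (R : VR) (j i : ℕ) : Bool :=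
  K.band (s777 R j i) (s779 R j i)

theorem e780 (R : VR) : B2 R (v780 R) (s780 R) :=
  B.and (e777 R) (e779 R)

noncomputable def v781 (R : VR) : ℕ :=
  Nat.lor (Nat.sub (VR.o2 R) (Nat.sub (VR.o2 R) (Nat.xor (Nat.mul (Nat.xor (v406 R) (Nat.land
    (Nat.xor (v406 R) (VR.rlT R)) (v626 R))) (VR.cr1 R)) (v773 R)))) (Nat.land (Nat.shiftRight
    (Nat.land (Nat.sub (VR.h2 R) (Nat.xor (Nat.mul (v758 R) (VR.cr1 R)) (v528 R))) (VR.h2 R))
    (nat_lit 15)) (v779 R))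

noncomputable def s781 (R : VR) (j i : ℕ) : Bool :=
  K.bor (s775 R j i) (s780 R j i)

theorem e781 (R : VR) : B2 R (v781 R) (s781 R) :=
  B.or (e775 R) (e780 R)

noncomputable def v782 (R : VR) : ℕ :=
  Nat.shiftRight (Nat.land (Nat.sub (Nat.add (v202 R) (VR.k1 R)) (VR.csT R)) (VR.h1 R)) (nat_lit
    15)

noncomputable def s782 (R : VR) (i : ℕ) : Bool :=
  Nat.ble (Nat.succ (s677 R i)) (s202 R i)

theorem e782 (R : VR) : B (VR.S R) (v782 R) (s782 R) :=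
  L.blt (VR.h1e R) (VR.k1e R) (e677 R) (e202 R)

noncomputable def v783 (R : VR) : ℕ :=
  gmk (VR.h2 R) (VR.J R) (Nat.mul (VR.csT R) (VR.cr1 R))

noncomputable def v784 (R : VR) : ℕ :=
  Nat.mod (Nat.land (v783 R) (v146 R)) (VR.m1 R)

noncomputable def s784 (R : VR) (i : ℕ) : ℕ :=
  tx (VR.piT R) (s677 R i)

theorem e784 (R : VR) : L (VR.S R) (v784 R) (s784 R) 255 :=
  L.gat (e677 R) (VR.pi_is R) (VR.pi_lt R) (VR.pi_le R)

noncomputable def v785 (R : VR) : ℕ :=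
  Nat.shiftRight (Nat.land (Nat.sub (VR.h1 R) (Nat.xor (v784 R) (VR.csT R))) (VR.h1 R)) (nat_lit
    15)

noncomputable def s785 (R : VR) (i : ℕ) : Bool :=
  Nat.beq (s784 R i) (s677 R i)

theorem e785 (R : VR) : B (VR.S R) (v785 R) (s785 R) :=
  L.beq (VR.h1e R) (e784 R) (e677 R)

noncomputable def v786 (R : VR) : ℕ :=
  Nat.sub (VR.o1 R) (Nat.shiftRight (Nat.land (Nat.sub (VR.h1 R) (Nat.xor (v784 R) (VR.csT R)))
    (VR.h1 R)) (nat_lit 15))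

noncomputable def s786 (R : VR) (i : ℕ) : Bool :=
  K.bnot (s785 R i)

theorem e786 (R : VR) : B (VR.S R) (v786 R) (s786 R) :=
  B.not (VR.o1e R) (e785 R)

noncomputable def v787 (R : VR) : ℕ :=
  Nat.land (v782 R) (Nat.sub (VR.o1 R) (Nat.shiftRight (Nat.land (Nat.sub (VR.h1 R) (Nat.xor (v784
    R) (VR.csT R))) (VR.h1 R)) (nat_lit 15)))

noncomputable def s787 (R : VR) (i : ℕ) : Bool :=
  K.band (s782 R i) (s786 R i)

theorem e787 (R : VR) : B (VR.S R) (v787 R) (s787 R) :=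
  B.and (e782 R) (e786 R)

noncomputable def v788 (R : VR) : ℕ :=
  gmk (VR.h2 R) (VR.J R) (Nat.mul (v784 R) (VR.cr1 R))

noncomputable def v789 (R : VR) : ℕ :=
  Nat.mod (Nat.land (gmk (VR.h2 R) (VR.J R) (Nat.mul (v784 R) (VR.cr1 R))) (v129 R)) (VR.m1 R)

noncomputable def s789 (R : VR) (i : ℕ) : ℕ :=
  tx (VR.caT R) (s784 R i)

theorem e789 (R : VR) : L (VR.S R) (v789 R) (s789 R) 255 :=
  L.gat (e784 R) (VR.ca_is R) (VR.ca_lt R) (VR.ca_le R)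

noncomputable def v790 (R : VR) : ℕ :=
  Nat.shiftRight (Nat.land (Nat.sub (VR.h1 R) (Nat.xor (Nat.mod (Nat.land (gmk (VR.h2 R) (VR.J R)
    (Nat.mul (v784 R) (VR.cr1 R))) (v129 R)) (VR.m1 R)) (VR.iota R))) (VR.h1 R)) (nat_lit 15)

noncomputable def s790 (R : VR) (i : ℕ) : Bool :=
  Nat.beq (s789 R i) (s0 R i)

theorem e790 (R : VR) : B (VR.S R) (v790 R) (s790 R) :=
  L.beq (VR.h1e R) (e789 R) (e0 R)

noncomputable def v791 (R : VR) : ℕ :=
  Nat.land (Nat.land (v782 R) (Nat.sub (VR.o1 R) (Nat.shiftRight (Nat.land (Nat.sub (VR.h1 R)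
    (Nat.xor (v784 R) (VR.csT R))) (VR.h1 R)) (nat_lit 15)))) (Nat.shiftRight (Nat.land (Nat.sub
    (VR.h1 R) (Nat.xor (Nat.mod (Nat.land (gmk (VR.h2 R) (VR.J R) (Nat.mul (v784 R) (VR.cr1 R)))
    (v129 R)) (VR.m1 R)) (VR.iota R))) (VR.h1 R)) (nat_lit 15))

noncomputable def s791 (R : VR) (i : ℕ) : Bool :=
  K.band (s787 R i) (s790 R i)

theorem e791 (R : VR) : B (VR.S R) (v791 R) (s791 R) :=
  B.and (e787 R) (e790 R)

noncomputable def v792 (R : VR) : ℕ :=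
  Nat.mod (Nat.land (v783 R) (v129 R)) (VR.m1 R)

noncomputable def s792 (R : VR) (i : ℕ) : ℕ :=
  tx (VR.caT R) (s677 R i)

theorem e792 (R : VR) : L (VR.S R) (v792 R) (s792 R) 255 :=
  L.gat (e677 R) (VR.ca_is R) (VR.ca_lt R) (VR.ca_le R)

noncomputable def v793 (R : VR) : ℕ :=
  Nat.shiftRight (Nat.land (Nat.sub (Nat.add (v625 R) (VR.k1 R)) (Nat.mod (Nat.land (v783 R) (v129
    R)) (VR.m1 R))) (VR.h1 R)) (nat_lit 15)

noncomputable def s793 (R : VR) (i : ℕ) : Bool :=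
  Nat.ble (Nat.succ (s792 R i)) (s625 R i)

theorem e793 (R : VR) : B (VR.S R) (v793 R) (s793 R) :=
  L.blt (VR.h1e R) (VR.k1e R) (e792 R) (e625 R)

noncomputable def v794 (R : VR) : ℕ :=
  Nat.land (Nat.land (Nat.land (v782 R) (Nat.sub (VR.o1 R) (Nat.shiftRight (Nat.land (Nat.sub
    (VR.h1 R) (Nat.xor (v784 R) (VR.csT R))) (VR.h1 R)) (nat_lit 15)))) (Nat.shiftRight (Nat.land
    (Nat.sub (VR.h1 R) (Nat.xor (Nat.mod (Nat.land (gmk (VR.h2 R) (VR.J R) (Nat.mul (v784 R)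
    (VR.cr1 R))) (v129 R)) (VR.m1 R)) (VR.iota R))) (VR.h1 R)) (nat_lit 15))) (v793 R)

noncomputable def s794 (R : VR) (i : ℕ) : Bool :=
  K.band (s791 R i) (s793 R i)

theorem e794 (R : VR) : B (VR.S R) (v794 R) (s794 R) :=
  B.and (e791 R) (e793 R)

noncomputable def s795 (R : VR) (i : ℕ) : Bool :=
  K.Cf_csok (VR.Cf R) i

theorem e795 (R : VR) : B (VR.S R) (v794 R) (s795 R) :=
  e794 R

noncomputable def v796 (R : VR) : ℕ :=
  Nat.mul (v756 R) (VR.cr1 R)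

noncomputable def s796 (R : VR) (j i : ℕ) : Bool :=
  (s756 R i)

theorem e796 (R : VR) : B2 R (v796 R) (s796 R) :=
  B2.rep (e756 R)

noncomputable def v797 (R : VR) : ℕ :=
  srM (VR.N R) (VR.S R) (VR.o1 R) (v782 R)

noncomputable def s797 (R : VR) (j i : ℕ) : Bool :=
  (s782 R j)

theorem e797 (R : VR) : B2 R (v797 R) (s797 R) :=
  B2.row (e782 R)

noncomputable def v798 (R : VR) : ℕ :=
  Nat.land (Nat.mul (v756 R) (VR.cr1 R)) (srM (VR.N R) (VR.S R) (VR.o1 R) (v782 R))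

noncomputable def s798 (R : VR) (j i : ℕ) : Bool :=
  K.band (s796 R j i) (s797 R j i)

theorem e798 (R : VR) : B2 R (v798 R) (s798 R) :=
  B.and (e796 R) (e797 R)

noncomputable def v799 (R : VR) : ℕ :=
  Nat.mul (v759 R) (VR.cr1 R)

noncomputable def s799 (R : VR) (j i : ℕ) : Bool :=
  (s759 R i)

theorem e799 (R : VR) : B2 R (v799 R) (s799 R) :=
  B2.rep (e759 R)

noncomputable def v800 (R : VR) : ℕ :=
  Nat.land (Nat.land (Nat.mul (v756 R) (VR.cr1 R)) (srM (VR.N R) (VR.S R) (VR.o1 R) (v782 R)))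
    (Nat.mul (v759 R) (VR.cr1 R))

noncomputable def s800 (R : VR) (j i : ℕ) : Bool :=
  K.band (s798 R j i) (s799 R j i)

theorem e800 (R : VR) : B2 R (v800 R) (s800 R) :=
  B.and (e798 R) (e799 R)

noncomputable def v801 (R : VR) : ℕ :=
  srM (VR.N R) (VR.S R) (VR.o1 R) (v793 R)

noncomputable def s801 (R : VR) (j i : ℕ) : Bool :=
  (s793 R j)

theorem e801 (R : VR) : B2 R (v801 R) (s801 R) :=
  B2.row (e793 R)

noncomputable def v802 (R : VR) : ℕ :=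
  Nat.land (Nat.land (Nat.land (Nat.mul (v756 R) (VR.cr1 R)) (srM (VR.N R) (VR.S R) (VR.o1 R)
    (v782 R))) (Nat.mul (v759 R) (VR.cr1 R))) (srM (VR.N R) (VR.S R) (VR.o1 R) (v793 R))

noncomputable def s802 (R : VR) (j i : ℕ) : Bool :=
  K.band (s800 R j i) (s801 R j i)

theorem e802 (R : VR) : B2 R (v802 R) (s802 R) :=
  B.and (e800 R) (e801 R)

noncomputable def v803 (R : VR) : ℕ :=
  Nat.mod (Nat.land (v783 R) (v436 R)) (VR.m1 R)

noncomputable def s803 (R : VR) (i : ℕ) : Bool :=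
  tf (VR.rlT R) (s677 R i)

theorem e803 (R : VR) : B (VR.S R) (v803 R) (s803 R) :=
  B.gat (e677 R) (VR.rl_is R) (VR.rl_lt R)

noncomputable def v804 (R : VR) : ℕ :=
  srM (VR.N R) (VR.S R) (VR.o1 R) (Nat.mod (Nat.land (v783 R) (v436 R)) (VR.m1 R))

noncomputable def s804 (R : VR) (j i : ℕ) : Bool :=
  (s803 R j)

theorem e804 (R : VR) : B2 R (v804 R) (s804 R) :=
  B2.row (e803 R)

noncomputable def v805 (R : VR) : ℕ :=
  Nat.sub (VR.o2 R) (Nat.xor (v779 R) (srM (VR.N R) (VR.S R) (VR.o1 R) (Nat.mod (Nat.land (v783 R)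
    (v436 R)) (VR.m1 R))))

noncomputable def s805 (R : VR) (j i : ℕ) : Bool :=
  K.beqB (s779 R j i) (s804 R j i)

theorem e805 (R : VR) : B2 R (v805 R) (s805 R) :=
  B.beqB (VR.o2e R) (e779 R) (e804 R)

noncomputable def v806 (R : VR) : ℕ :=
  Nat.sub (VR.o2 R) (Nat.sub (VR.o2 R) (Nat.xor (v779 R) (srM (VR.N R) (VR.S R) (VR.o1 R) (Nat.mod
    (Nat.land (v783 R) (v436 R)) (VR.m1 R)))))

noncomputable def s806 (R : VR) (j i : ℕ) : Bool :=
  K.bnot (s805 R j i)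

theorem e806 (R : VR) : B2 R (v806 R) (s806 R) :=
  B.not (VR.o2e R) (e805 R)

noncomputable def v807 (R : VR) : ℕ :=
  Nat.mod (Nat.land (v757 R) (v720 R)) (VR.m1 R)

noncomputable def s807 (R : VR) (i : ℕ) : ℕ :=
  tx (VR.s1T R) (s755 R i)

theorem e807 (R : VR) : L (VR.S R) (v807 R) (s807 R) 32767 :=
  L.gat (e755 R) (VR.s1_is R) (VR.s1_lt R) (VR.s1_le R)

noncomputable def v808 (R : VR) : ℕ :=
  Nat.mod (Nat.land (v783 R) (v21 R)) (VR.m1 R)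

noncomputable def s808 (R : VR) (i : ℕ) : ℕ :=
  tx (VR.pw1T R) (s677 R i)

theorem e808 (R : VR) : L (VR.S R) (v808 R) (s808 R) 16384 :=
  L.gat (e677 R) (VR.pw1_is R) (VR.pw1_lt R) (VR.pw1_le R)

noncomputable def v809 (R : VR) : ℕ :=
  Nat.mul (Nat.mod (Nat.land (v757 R) (v720 R)) (VR.m1 R)) (VR.cr1 R)

noncomputable def s809 (R : VR) (j i : ℕ) : ℕ :=
  (s807 R i)

theorem e809 (R : VR) : L2 R (v809 R) (s809 R) 32767 :=
  L2.rep (e807 R)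

noncomputable def v810 (R : VR) : ℕ :=
  srM (VR.N R) (VR.S R) (VR.o1 R) (Nat.mod (Nat.land (v783 R) (v21 R)) (VR.m1 R))

noncomputable def s810 (R : VR) (j i : ℕ) : ℕ :=
  (s808 R j)

theorem e810 (R : VR) : L2 R (v810 R) (s810 R) 16384 :=
  L2.row (e808 R)

noncomputable def v811 (R : VR) : ℕ :=
  Nat.land (Nat.mul (Nat.mod (Nat.land (v757 R) (v720 R)) (VR.m1 R)) (VR.cr1 R)) (srM (VR.N R)
    (VR.S R) (VR.o1 R) (Nat.mod (Nat.land (v783 R) (v21 R)) (VR.m1 R)))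

noncomputable def s811 (R : VR) (j i : ℕ) : ℕ :=
  Nat.land (s809 R j i) (s810 R j i)

theorem e811 (R : VR) : L2 R (v811 R) (s811 R) 32767 :=
  L.land (e809 R) (e810 R)

noncomputable def v812 (R : VR) : ℕ :=
  Nat.shiftRight (Nat.land (Nat.sub (VR.h2 R) (v811 R)) (VR.h2 R)) (nat_lit 15)

noncomputable def s812 (R : VR) (j i : ℕ) : Bool :=
  Nat.beq (s811 R j i) (nat_lit 0)

theorem e812 (R : VR) : B2 R (v812 R) (s812 R) :=
  L.ez (VR.h2e R) (e811 R)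

noncomputable def v813 (R : VR) : ℕ :=
  Nat.shiftRight (Nat.land (Nat.add (v811 R) (VR.k2 R)) (VR.h2 R)) (nat_lit 15)

noncomputable def s813 (R : VR) (j i : ℕ) : Bool :=
  K.bnot (Nat.beq (s811 R j i) (nat_lit 0))

theorem e813 (R : VR) : B2 R (v813 R) (s813 R) :=
  L.nz (VR.h2e R) (VR.k2e R) (e811 R)

noncomputable def v814 (R : VR) : ℕ :=
  Nat.mod (Nat.land (v757 R) (v727 R)) (VR.m1 R)

noncomputable def s814 (R : VR) (i : ℕ) : ℕ :=
  tx (VR.s2T R) (s755 R i)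

theorem e814 (R : VR) : L (VR.S R) (v814 R) (s814 R) 32767 :=
  L.gat (e755 R) (VR.s2_is R) (VR.s2_lt R) (VR.s2_le R)

noncomputable def v815 (R : VR) : ℕ :=
  Nat.mod (Nat.land (v783 R) (v38 R)) (VR.m1 R)

noncomputable def s815 (R : VR) (i : ℕ) : ℕ :=
  tx (VR.pw2T R) (s677 R i)

theorem e815 (R : VR) : L (VR.S R) (v815 R) (s815 R) 16384 :=
  L.gat (e677 R) (VR.pw2_is R) (VR.pw2_lt R) (VR.pw2_le R)

noncomputable def v816 (R : VR) : ℕ :=
  Nat.mul (Nat.mod (Nat.land (v757 R) (v727 R)) (VR.m1 R)) (VR.cr1 R)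

noncomputable def s816 (R : VR) (j i : ℕ) : ℕ :=
  (s814 R i)

theorem e816 (R : VR) : L2 R (v816 R) (s816 R) 32767 :=
  L2.rep (e814 R)

noncomputable def v817 (R : VR) : ℕ :=
  srM (VR.N R) (VR.S R) (VR.o1 R) (Nat.mod (Nat.land (v783 R) (v38 R)) (VR.m1 R))

noncomputable def s817 (R : VR) (j i : ℕ) : ℕ :=
  (s815 R j)

theorem e817 (R : VR) : L2 R (v817 R) (s817 R) 16384 :=
  L2.row (e815 R)

noncomputable def v818 (R : VR) : ℕ :=
  Nat.land (Nat.mul (Nat.mod (Nat.land (v757 R) (v727 R)) (VR.m1 R)) (VR.cr1 R)) (srM (VR.N R)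
    (VR.S R) (VR.o1 R) (Nat.mod (Nat.land (v783 R) (v38 R)) (VR.m1 R)))

noncomputable def s818 (R : VR) (j i : ℕ) : ℕ :=
  Nat.land (s816 R j i) (s817 R j i)

theorem e818 (R : VR) : L2 R (v818 R) (s818 R) 32767 :=
  L.land (e816 R) (e817 R)

noncomputable def v819 (R : VR) : ℕ :=
  Nat.shiftRight (Nat.land (Nat.sub (VR.h2 R) (v818 R)) (VR.h2 R)) (nat_lit 15)

noncomputable def s819 (R : VR) (j i : ℕ) : Bool :=
  Nat.beq (s818 R j i) (nat_lit 0)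

theorem e819 (R : VR) : B2 R (v819 R) (s819 R) :=
  L.ez (VR.h2e R) (e818 R)

noncomputable def v820 (R : VR) : ℕ :=
  Nat.shiftRight (Nat.land (Nat.add (v818 R) (VR.k2 R)) (VR.h2 R)) (nat_lit 15)

noncomputable def s820 (R : VR) (j i : ℕ) : Bool :=
  K.bnot (Nat.beq (s818 R j i) (nat_lit 0))

theorem e820 (R : VR) : B2 R (v820 R) (s820 R) :=
  L.nz (VR.h2e R) (VR.k2e R) (e818 R)

noncomputable def v821 (R : VR) : ℕ :=
  Nat.lor (Nat.shiftRight (Nat.land (Nat.add (v811 R) (VR.k2 R)) (VR.h2 R)) (nat_lit 15))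
    (Nat.shiftRight (Nat.land (Nat.add (v818 R) (VR.k2 R)) (VR.h2 R)) (nat_lit 15))

noncomputable def s821 (R : VR) (j i : ℕ) : Bool :=
  K.bor (s813 R j i) (s820 R j i)

theorem e821 (R : VR) : B2 R (v821 R) (s821 R) :=
  B.or (e813 R) (e820 R)

noncomputable def v822 (R : VR) : ℕ :=
  Nat.mod (Nat.land (v757 R) (v735 R)) (VR.m1 R)

noncomputable def s822 (R : VR) (i : ℕ) : ℕ :=
  tx (VR.s3T R) (s755 R i)

theorem e822 (R : VR) : L (VR.S R) (v822 R) (s822 R) 32767 :=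
  L.gat (e755 R) (VR.s3_is R) (VR.s3_lt R) (VR.s3_le R)

noncomputable def v823 (R : VR) : ℕ :=
  Nat.mod (Nat.land (v783 R) (v738 R)) (VR.m1 R)

noncomputable def s823 (R : VR) (i : ℕ) : ℕ :=
  tx (VR.pw3T R) (s677 R i)

theorem e823 (R : VR) : L (VR.S R) (v823 R) (s823 R) 16384 :=
  L.gat (e677 R) (VR.pw3_is R) (VR.pw3_lt R) (VR.pw3_le R)

noncomputable def v824 (R : VR) : ℕ :=
  Nat.mul (Nat.mod (Nat.land (v757 R) (v735 R)) (VR.m1 R)) (VR.cr1 R)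

noncomputable def s824 (R : VR) (j i : ℕ) : ℕ :=
  (s822 R i)

theorem e824 (R : VR) : L2 R (v824 R) (s824 R) 32767 :=
  L2.rep (e822 R)

noncomputable def v825 (R : VR) : ℕ :=
  srM (VR.N R) (VR.S R) (VR.o1 R) (Nat.mod (Nat.land (v783 R) (v738 R)) (VR.m1 R))

noncomputable def s825 (R : VR) (j i : ℕ) : ℕ :=
  (s823 R j)

theorem e825 (R : VR) : L2 R (v825 R) (s825 R) 16384 :=
  L2.row (e823 R)

noncomputable def v826 (R : VR) : ℕ :=
  Nat.land (Nat.mul (Nat.mod (Nat.land (v757 R) (v735 R)) (VR.m1 R)) (VR.cr1 R)) (srM (VR.N R)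
    (VR.S R) (VR.o1 R) (Nat.mod (Nat.land (v783 R) (v738 R)) (VR.m1 R)))

noncomputable def s826 (R : VR) (j i : ℕ) : ℕ :=
  Nat.land (s824 R j i) (s825 R j i)

theorem e826 (R : VR) : L2 R (v826 R) (s826 R) 32767 :=
  L.land (e824 R) (e825 R)

noncomputable def v827 (R : VR) : ℕ :=
  Nat.shiftRight (Nat.land (Nat.sub (VR.h2 R) (v826 R)) (VR.h2 R)) (nat_lit 15)

noncomputable def s827 (R : VR) (j i : ℕ) : Bool :=
  Nat.beq (s826 R j i) (nat_lit 0)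

theorem e827 (R : VR) : B2 R (v827 R) (s827 R) :=
  L.ez (VR.h2e R) (e826 R)

noncomputable def v828 (R : VR) : ℕ :=
  Nat.shiftRight (Nat.land (Nat.add (v826 R) (VR.k2 R)) (VR.h2 R)) (nat_lit 15)

noncomputable def s828 (R : VR) (j i : ℕ) : Bool :=
  K.bnot (Nat.beq (s826 R j i) (nat_lit 0))

theorem e828 (R : VR) : B2 R (v828 R) (s828 R) :=
  L.nz (VR.h2e R) (VR.k2e R) (e826 R)

noncomputable def v829 (R : VR) : ℕ :=
  Nat.lor (Nat.lor (Nat.shiftRight (Nat.land (Nat.add (v811 R) (VR.k2 R)) (VR.h2 R)) (nat_lit 15))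
    (Nat.shiftRight (Nat.land (Nat.add (v818 R) (VR.k2 R)) (VR.h2 R)) (nat_lit 15)))
    (Nat.shiftRight (Nat.land (Nat.add (v826 R) (VR.k2 R)) (VR.h2 R)) (nat_lit 15))

noncomputable def s829 (R : VR) (j i : ℕ) : Bool :=
  K.bor (s821 R j i) (s828 R j i)

theorem e829 (R : VR) : B2 R (v829 R) (s829 R) :=
  B.or (e821 R) (e828 R)

noncomputable def s830 (R : VR) (j i : ℕ) : Bool :=
  V2.sd R (s755 R i) (s677 R j)

theorem e830 (R : VR) : B2 R (v829 R) (s830 R) :=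
  e829 R

noncomputable def v831 (R : VR) : ℕ :=
  Nat.lor (Nat.sub (VR.o2 R) (Nat.sub (VR.o2 R) (Nat.xor (v779 R) (srM (VR.N R) (VR.S R) (VR.o1 R)
    (Nat.mod (Nat.land (v783 R) (v436 R)) (VR.m1 R)))))) (Nat.lor (Nat.lor (Nat.shiftRight
    (Nat.land (Nat.add (v811 R) (VR.k2 R)) (VR.h2 R)) (nat_lit 15)) (Nat.shiftRight (Nat.land
    (Nat.add (v818 R) (VR.k2 R)) (VR.h2 R)) (nat_lit 15))) (Nat.shiftRight (Nat.land (Nat.add
    (v826 R) (VR.k2 R)) (VR.h2 R)) (nat_lit 15)))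

noncomputable def s831 (R : VR) (j i : ℕ) : Bool :=
  K.bor (s806 R j i) (s830 R j i)

theorem e831 (R : VR) : B2 R (v831 R) (s831 R) :=
  B.or (e806 R) (e830 R)

noncomputable def v832 (R : VR) : ℕ :=
  Nat.land (Nat.land (Nat.land (Nat.land (Nat.mul (v756 R) (VR.cr1 R)) (srM (VR.N R) (VR.S R)
    (VR.o1 R) (v782 R))) (Nat.mul (v759 R) (VR.cr1 R))) (srM (VR.N R) (VR.S R) (VR.o1 R) (v793
    R))) (v831 R)

noncomputable def s832 (R : VR) (j i : ℕ) : Bool :=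
  K.band (s802 R j i) (s831 R j i)

theorem e832 (R : VR) : B2 R (v832 R) (s832 R) :=
  B.and (e802 R) (e831 R)

noncomputable def s833 (R : VR) (j i : ℕ) : Bool :=
  K.Cf_sd (VR.Cf R) (s755 R i) (s677 R j)

theorem e833 (R : VR) : B2 R (v832 R) (s833 R) :=
  e832 R

noncomputable def v834 (R : VR) : ℕ :=
  srM (VR.N R) (VR.S R) (VR.o1 R) (Nat.land (Nat.land (Nat.land (v782 R) (Nat.sub (VR.o1 R)
    (Nat.shiftRight (Nat.land (Nat.sub (VR.h1 R) (Nat.xor (v784 R) (VR.csT R))) (VR.h1 R))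
    (nat_lit 15)))) (Nat.shiftRight (Nat.land (Nat.sub (VR.h1 R) (Nat.xor (Nat.mod (Nat.land (gmk
    (VR.h2 R) (VR.J R) (Nat.mul (v784 R) (VR.cr1 R))) (v129 R)) (VR.m1 R)) (VR.iota R))) (VR.h1
    R)) (nat_lit 15))) (v793 R))

noncomputable def s834 (R : VR) (j i : ℕ) : Bool :=
  (s795 R j)

theorem e834 (R : VR) : B2 R (v834 R) (s834 R) :=
  B2.row (e795 R)

noncomputable def v835 (R : VR) : ℕ :=
  Nat.land (srM (VR.N R) (VR.S R) (VR.o1 R) (Nat.land (Nat.land (Nat.land (v782 R) (Nat.sub (VR.o1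
    R) (Nat.shiftRight (Nat.land (Nat.sub (VR.h1 R) (Nat.xor (v784 R) (VR.csT R))) (VR.h1 R))
    (nat_lit 15)))) (Nat.shiftRight (Nat.land (Nat.sub (VR.h1 R) (Nat.xor (Nat.mod (Nat.land (gmk
    (VR.h2 R) (VR.J R) (Nat.mul (v784 R) (VR.cr1 R))) (v129 R)) (VR.m1 R)) (VR.iota R))) (VR.h1
    R)) (nat_lit 15))) (v793 R))) (Nat.land (Nat.land (Nat.land (Nat.land (Nat.mul (v756 R)
    (VR.cr1 R)) (srM (VR.N R) (VR.S R) (VR.o1 R) (v782 R))) (Nat.mul (v759 R) (VR.cr1 R))) (srM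
    (VR.N R) (VR.S R) (VR.o1 R) (v793 R))) (v831 R))

noncomputable def s835 (R : VR) (j i : ℕ) : Bool :=
  K.band (s834 R j i) (s833 R j i)

theorem e835 (R : VR) : B2 R (v835 R) (s835 R) :=
  B.and (e834 R) (e833 R)

noncomputable def v836 (R : VR) : ℕ :=
  Nat.lor (Nat.lor (Nat.sub (VR.o2 R) (Nat.sub (VR.o2 R) (Nat.xor (Nat.mul (Nat.xor (v406 R)
    (Nat.land (Nat.xor (v406 R) (VR.rlT R)) (v626 R))) (VR.cr1 R)) (v773 R)))) (Nat.land
    (Nat.shiftRight (Nat.land (Nat.sub (VR.h2 R) (Nat.xor (Nat.mul (v758 R) (VR.cr1 R)) (v528 R)))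
    (VR.h2 R)) (nat_lit 15)) (v779 R))) (v835 R)

noncomputable def s836 (R : VR) (j i : ℕ) : Bool :=
  K.bor (s781 R j i) (s835 R j i)

theorem e836 (R : VR) : B2 R (v836 R) (s836 R) :=
  B.or (e781 R) (e835 R)

noncomputable def v837 (R : VR) : ℕ :=
  Nat.shiftRight (Nat.land (Nat.sub (VR.h1 R) (Nat.mod (Nat.land (Nat.sub (VR.o2 R) (Nat.lor
    (Nat.lor (Nat.sub (VR.o2 R) (Nat.sub (VR.o2 R) (Nat.xor (Nat.mul (Nat.xor (v406 R) (Nat.land
    (Nat.xor (v406 R) (VR.rlT R)) (v626 R))) (VR.cr1 R)) (v773 R)))) (Nat.land (Nat.shiftRight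
    (Nat.land (Nat.sub (VR.h2 R) (Nat.xor (Nat.mul (v758 R) (VR.cr1 R)) (v528 R))) (VR.h2 R))
    (nat_lit 15)) (v779 R))) (v835 R))) (mM (Nat.mul (v510 R) (VR.S R)))) (VR.m1 R))) (VR.h1 R))
    (nat_lit 15)

noncomputable def s837 (R : VR) (i : ℕ) : Bool :=
  K.allN (s510 R) (fun j => (s836 R j i))

theorem e837 (R : VR) : B (VR.S R) (v837 R) (s837 R) :=
  B.all (e836 R) (VR.nc_le R)

noncomputable def s838 (R : VR) (i : ℕ) : Bool :=
  K.allN (s510 R) (fun (x19 : ℕ) => (K.bor (K.bor (K.bnot (K.beqB (K.Cf_hal (VR.Cf R) i)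
    (FC7.Cf.ac (VR.Cf R) x19))) (K.band (Nat.beq (FC6.Stars.ca (VR.Z R) (FC7.Cf.al (VR.Cf R) i))
    x19) (FC6.Sp.rl (VR.Q R) (FC7.Cf.al (VR.Cf R) i)))) (K.band (K.Cf_csok (VR.Cf R) x19) (K.Cf_sd
    (VR.Cf R) (FC7.Cf.al (VR.Cf R) i) (FC7.Cf.cs (VR.Cf R) x19)))))

theorem e838 (R : VR) : B (VR.S R) (v837 R) (s838 R) :=
  e837 R

noncomputable def v839 (R : VR) : ℕ :=
  Nat.land (v768 R) (v837 R)

noncomputable def s839 (R : VR) (i : ℕ) : Bool :=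
  K.band (s768 R i) (s838 R i)

theorem e839 (R : VR) : B (VR.S R) (v839 R) (s839 R) :=
  B.and (e768 R) (e838 R)

noncomputable def v840 (R : VR) : ℕ :=
  Nat.lor (v126 R) (Nat.land (v768 R) (v837 R))

noncomputable def s840 (R : VR) (i : ℕ) : Bool :=
  K.bor (s126 R i) (s839 R i)

theorem e840 (R : VR) : B (VR.S R) (v840 R) (s840 R) :=
  B.or (e126 R) (e839 R)

noncomputable def v841 (R : VR) : Bool :=
  Nat.beq (Nat.land (Nat.sub (VR.o1 R) (Nat.lor (v126 R) (Nat.land (v768 R) (v837 R)))) (mM (v201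
    R))) (nat_lit 0)

noncomputable def s841 (R : VR) : Bool :=
  K.allN (s201 R) (s840 R)

theorem e841 (R : VR) : (v841 R) = s841 R :=
  all0 (e840 R) (VR.ns_le R)

noncomputable def s842 (R : VR) : Bool :=
  K.allN (s201 R) (fun (x20 : ℕ) => (K.bor (K.bnot (Nat.beq (FC6.Sp.π (VR.Q R) x20) x20)) (K.band
    (K.band (K.band (Nat.ble (Nat.succ (FC7.Cf.al (VR.Cf R) x20)) (FC6.Sp.ns (VR.Q R))) (FC7.Cf.ac
    (VR.Cf R) (FC6.Stars.ca (VR.Z R) (FC7.Cf.al (VR.Cf R) x20)))) (K.bor (K.bor (Nat.beq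
    (FC7.Cf.al (VR.Cf R) x20) x20) (K.band (K.bnot (Nat.beq (FC6.Sp.π (VR.Q R) (FC6.Sp.ρi (VR.Q R)
    x20)) (FC6.Sp.ρi (VR.Q R) x20))) (Nat.beq (FC7.Cf.al (VR.Cf R) x20) (FC6.Sp.ρi (VR.Q R)
    (FC6.Sp.π (VR.Q R) (FC6.Sp.ρi (VR.Q R) x20)))))) (K.band (K.bnot (Nat.beq (FC6.Sp.π (VR.Q R)
    (FC6.Sp.ρ (VR.Q R) x20)) (FC6.Sp.ρ (VR.Q R) x20))) (Nat.beq (FC7.Cf.al (VR.Cf R) x20)
    (FC6.Sp.ρ (VR.Q R) (FC6.Sp.π (VR.Q R) (FC6.Sp.ρ (VR.Q R) x20))))))) (K.allN (FC6.Stars.nc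
    (VR.Z R)) (fun (x21 : ℕ) => (K.bor (K.bor (K.bnot (K.beqB (K.Cf_hal (VR.Cf R) x20) (FC7.Cf.ac
    (VR.Cf R) x21))) (K.band (Nat.beq (FC6.Stars.ca (VR.Z R) (FC7.Cf.al (VR.Cf R) x20)) x21)
    (FC6.Sp.rl (VR.Q R) (FC7.Cf.al (VR.Cf R) x20)))) (K.band (K.Cf_csok (VR.Cf R) x21) (K.Cf_sd
    (VR.Cf R) (FC7.Cf.al (VR.Cf R) x20) (FC7.Cf.cs (VR.Cf R) x21)))))))))

theorem e842 (R : VR) : (v841 R) = s842 R :=
  e841 R

noncomputable def s843 (R : VR) : Bool :=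
  V2.cfS2 R

theorem e843 (R : VR) : (v841 R) = s843 R :=
  e842 R

noncomputable def c_cfS2 (R : VR) : Bool :=
  (Nat.beq (Nat.land (Nat.sub (VR.o1 R) (Nat.lor (v126 R) (Nat.land (v768 R) (v837 R)))) (mM (v201
    R))) (nat_lit 0))

theorem c_cfS2_eq (R : VR) : c_cfS2 R = (V2.cfS2 R) :=
  e843 R

end Vs

end Pool.FC7
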