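import Pool.Agent.FC7.VtC

/-! # Vector form of the static checks: generated file (vgen.py) -/

open Finset

set_option linter.all false

namespace Pool.FC7

open Pool.FC6

namespace Vs

noncomputable def v844 (R : VR) : Bool :=
  Nat.ble (v112 R) (v112 R)

noncomputable def s844 (R : VR) : Bool :=
  Nat.ble (s112 R) (s112 R)

theorem e844 (R : VR) : (v844 R) = s844 R :=
  congrArg₂ Nat.ble (e112 R) (e112 R)

noncomputable def v845 (R : VR) : ℕ :=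
  Nat.shiftRight (Nat.land (Nat.sub (VR.h1 R) (Nat.xor (VR.phiT R) (VR.phiT R))) (VR.h1 R))
    (nat_lit 15)

noncomputable def s845 (R : VR) (i : ℕ) : Bool :=
  Nat.beq (s171 R i) (s171 R i)

theorem e845 (R : VR) : B (VR.S R) (v845 R) (s845 R) :=
  L.beq (VR.h1e R) (e171 R) (e171 R)

noncomputable def v846 (R : VR) : ℕ :=
  Nat.shiftRight (Nat.land (Nat.sub (VR.h1 R) (Nat.xor (VR.alT R) (VR.alT R))) (VR.h1 R)) (nat_lit
    15)

noncomputable def s846 (R : VR) (i : ℕ) : Bool :=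
  Nat.beq (s174 R i) (s174 R i)

theorem e846 (R : VR) : B (VR.S R) (v846 R) (s846 R) :=
  L.beq (VR.h1e R) (e174 R) (e174 R)

noncomputable def v847 (R : VR) : ℕ :=
  Nat.lor (Nat.shiftRight (Nat.land (Nat.sub (VR.h1 R) (Nat.xor (VR.alT R) (VR.alT R))) (VR.h1 R))
    (nat_lit 15)) (v192 R)

noncomputable def s847 (R : VR) (i : ℕ) : Bool :=
  K.bor (s846 R i) (s192 R i)

theorem e847 (R : VR) : B (VR.S R) (v847 R) (s847 R) :=
  B.or (e846 R) (e192 R)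

noncomputable def v848 (R : VR) : ℕ :=
  Nat.land (Nat.shiftRight (Nat.land (Nat.sub (VR.h1 R) (Nat.xor (VR.phiT R) (VR.phiT R))) (VR.h1
    R)) (nat_lit 15)) (Nat.lor (Nat.shiftRight (Nat.land (Nat.sub (VR.h1 R) (Nat.xor (VR.alT R)
    (VR.alT R))) (VR.h1 R)) (nat_lit 15)) (v192 R))

noncomputable def s848 (R : VR) (i : ℕ) : Bool :=
  K.band (s845 R i) (s847 R i)

theorem e848 (R : VR) : B (VR.S R) (v848 R) (s848 R) :=
  B.and (e845 R) (e847 R)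

noncomputable def v849 (R : VR) : ℕ :=
  Nat.shiftRight (Nat.land (Nat.sub (VR.h1 R) (Nat.xor (VR.lT R) (VR.lT R))) (VR.h1 R)) (nat_lit
    15)

noncomputable def s849 (R : VR) (i : ℕ) : Bool :=
  Nat.beq (s7 R i) (s7 R i)

theorem e849 (R : VR) : B (VR.S R) (v849 R) (s849 R) :=
  L.beq (VR.h1e R) (e7 R) (e7 R)

noncomputable def v850 (R : VR) : ℕ :=
  Nat.land (Nat.land (Nat.shiftRight (Nat.land (Nat.sub (VR.h1 R) (Nat.xor (VR.phiT R) (VR.phiT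
    R))) (VR.h1 R)) (nat_lit 15)) (Nat.lor (Nat.shiftRight (Nat.land (Nat.sub (VR.h1 R) (Nat.xor
    (VR.alT R) (VR.alT R))) (VR.h1 R)) (nat_lit 15)) (v192 R))) (v849 R)

noncomputable def s850 (R : VR) (i : ℕ) : Bool :=
  K.band (s848 R i) (s849 R i)

theorem e850 (R : VR) : B (VR.S R) (v850 R) (s850 R) :=
  B.and (e848 R) (e849 R)

noncomputable def v851 (R : VR) : ℕ :=
  Nat.sub (VR.o1 R) (Nat.xor (VR.realT R) (VR.realT R))

noncomputable def s851 (R : VR) (i : ℕ) : Bool :=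
  K.beqB (s434 R i) (s434 R i)

theorem e851 (R : VR) : B (VR.S R) (v851 R) (s851 R) :=
  B.beqB (VR.o1e R) (e434 R) (e434 R)

noncomputable def v852 (R : VR) : ℕ :=
  Nat.land (Nat.land (Nat.land (Nat.shiftRight (Nat.land (Nat.sub (VR.h1 R) (Nat.xor (VR.phiT R)
    (VR.phiT R))) (VR.h1 R)) (nat_lit 15)) (Nat.lor (Nat.shiftRight (Nat.land (Nat.sub (VR.h1 R)
    (Nat.xor (VR.alT R) (VR.alT R))) (VR.h1 R)) (nat_lit 15)) (v192 R))) (v849 R)) (v851 R)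

noncomputable def s852 (R : VR) (i : ℕ) : Bool :=
  K.band (s850 R i) (s851 R i)

theorem e852 (R : VR) : B (VR.S R) (v852 R) (s852 R) :=
  B.and (e850 R) (e851 R)

noncomputable def v853 (R : VR) : Bool :=
  Nat.beq (Nat.land (Nat.sub (VR.o1 R) (Nat.land (Nat.land (Nat.land (Nat.shiftRight (Nat.land
    (Nat.sub (VR.h1 R) (Nat.xor (VR.phiT R) (VR.phiT R))) (VR.h1 R)) (nat_lit 15)) (Nat.lor
    (Nat.shiftRight (Nat.land (Nat.sub (VR.h1 R) (Nat.xor (VR.alT R) (VR.alT R))) (VR.h1 R))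
    (nat_lit 15)) (v192 R))) (v849 R)) (v851 R))) (mM (v112 R))) (nat_lit 0)

noncomputable def s853 (R : VR) : Bool :=
  K.allN (s112 R) (s852 R)

theorem e853 (R : VR) : (v853 R) = s853 R :=
  all0 (e852 R) (VR.n_le R)

noncomputable def s854 (R : VR) : Bool :=
  K.allN (s112 R) (fun (x22 : ℕ) => (K.band (K.band (K.band (Nat.beq (FC6.Pa.φ (VR.P R) x22)
    (FC6.Pa.φ (VR.P R) x22)) (K.bor (Nat.beq (FC6.Pa.α (VR.P R) x22) (FC6.Pa.α (VR.P R) x22))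
    (Nat.beq (FC6.Pa.α (VR.P R) x22) x22))) (Nat.beq (FC6.Pa.l (VR.P R) x22) (FC6.Pa.l (VR.P R)
    x22))) (K.beqB (FC6.Pa.real (VR.P R) x22) (FC6.Pa.real (VR.P R) x22))))

theorem e854 (R : VR) : (v853 R) = s854 R :=
  e853 R

noncomputable def v855 (R : VR) : Bool :=
  K.band (Nat.ble (v112 R) (v112 R)) (Nat.beq (Nat.land (Nat.sub (VR.o1 R) (Nat.land (Nat.land
    (Nat.land (Nat.shiftRight (Nat.land (Nat.sub (VR.h1 R) (Nat.xor (VR.phiT R) (VR.phiT R)))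
    (VR.h1 R)) (nat_lit 15)) (Nat.lor (Nat.shiftRight (Nat.land (Nat.sub (VR.h1 R) (Nat.xor
    (VR.alT R) (VR.alT R))) (VR.h1 R)) (nat_lit 15)) (v192 R))) (v849 R)) (v851 R))) (mM (v112
    R))) (nat_lit 0))

noncomputable def s855 (R : VR) : Bool :=
  K.band (s844 R) (s854 R)

theorem e855 (R : VR) : (v855 R) = s855 R :=
  congrArg₂ K.band (e844 R) (e854 R)

noncomputable def s856 (R : VR) : Bool :=
  K.rstr (VR.P R) (VR.P R)

theorem e856 (R : VR) : (v855 R) = s856 R :=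
  e855 R

noncomputable def v857 (R : VR) : Bool :=
  Nat.beq (Nat.land (Nat.sub (VR.o1 R) (VR.cxT R)) (mM (v624 R))) (nat_lit 0)

noncomputable def s857 (R : VR) : Bool :=
  K.allN (s624 R) (s221 R)

theorem e857 (R : VR) : (v857 R) = s857 R :=
  all0 (e221 R) (VR.x_le R)

noncomputable def s858 (R : VR) : Bool :=
  K.allN (s624 R) (fun (x23 : ℕ) => (FC6.Sp.cx (VR.Q R) x23))

theorem e858 (R : VR) : (v857 R) = s858 R :=
  e857 R

noncomputable def v859 (R : VR) : Bool :=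
  K.band (K.band (Nat.ble (v112 R) (v112 R)) (Nat.beq (Nat.land (Nat.sub (VR.o1 R) (Nat.land
    (Nat.land (Nat.land (Nat.shiftRight (Nat.land (Nat.sub (VR.h1 R) (Nat.xor (VR.phiT R) (VR.phiT
    R))) (VR.h1 R)) (nat_lit 15)) (Nat.lor (Nat.shiftRight (Nat.land (Nat.sub (VR.h1 R) (Nat.xor
    (VR.alT R) (VR.alT R))) (VR.h1 R)) (nat_lit 15)) (v192 R))) (v849 R)) (v851 R))) (mM (v112
    R))) (nat_lit 0))) (Nat.beq (Nat.land (Nat.sub (VR.o1 R) (VR.cxT R)) (mM (v624 R))) (nat_lit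
    0))

noncomputable def s859 (R : VR) : Bool :=
  K.band (s856 R) (s858 R)

theorem e859 (R : VR) : (v859 R) = s859 R :=
  congrArg₂ K.band (e856 R) (e858 R)

noncomputable def v860 (R : VR) : ℕ :=
  Nat.shiftRight (Nat.land (Nat.sub (Nat.add (v172 R) (VR.k1 R)) (VR.iota R)) (VR.h1 R)) (nat_lit
    15)

noncomputable def s860 (R : VR) (i : ℕ) : Bool :=
  Nat.ble (Nat.succ (s0 R i)) (s172 R i)

theorem e860 (R : VR) : B (VR.S R) (v860 R) (s860 R) :=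
  L.blt (VR.h1e R) (VR.k1e R) (e0 R) (e172 R)

noncomputable def v861 (R : VR) : ℕ :=
  Nat.shiftRight (Nat.land (Nat.sub (Nat.add (VR.lT R) (VR.h1 R)) (v625 R)) (VR.h1 R)) (nat_lit
    15)

noncomputable def s861 (R : VR) (i : ℕ) : Bool :=
  Nat.ble (s625 R i) (s7 R i)

theorem e861 (R : VR) : B (VR.S R) (v861 R) (s861 R) :=
  L.ble (VR.h1e R) (e625 R) (e7 R)

noncomputable def v862 (R : VR) : ℕ :=
  Nat.lor (v860 R) (v861 R)

noncomputable def s862 (R : VR) (i : ℕ) : Bool :=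
  K.bor (s860 R i) (s861 R i)

theorem e862 (R : VR) : B (VR.S R) (v862 R) (s862 R) :=
  B.or (e860 R) (e861 R)

noncomputable def v863 (R : VR) : Bool :=
  Nat.beq (Nat.land (Nat.sub (VR.o1 R) (Nat.lor (v860 R) (v861 R))) (mM (v112 R))) (nat_lit 0)

noncomputable def s863 (R : VR) : Bool :=
  K.allN (s112 R) (s862 R)

theorem e863 (R : VR) : (v863 R) = s863 R :=
  all0 (e862 R) (VR.n_le R)

noncomputable def s864 (R : VR) : Bool :=
  K.allN (s112 R) (fun (x24 : ℕ) => (K.bor (Nat.ble (Nat.succ x24) (FC6.Pa.n (VR.P R))) (Nat.ble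
    (FC7.OD.x (VR.O R)) (FC6.Pa.l (VR.P R) x24))))

theorem e864 (R : VR) : (v863 R) = s864 R :=
  e863 R

noncomputable def v865 (R : VR) : Bool :=
  K.band (v859 R) (Nat.beq (Nat.land (Nat.sub (VR.o1 R) (Nat.lor (v860 R) (v861 R))) (mM (v112
    R))) (nat_lit 0))

noncomputable def s865 (R : VR) : Bool :=
  K.band (s859 R) (s864 R)

theorem e865 (R : VR) : (v865 R) = s865 R :=
  congrArg₂ K.band (e859 R) (e864 R)

noncomputable def v866 (R : VR) : ℕ :=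
  VR.nl R

noncomputable def s866 (R : VR) : ℕ :=
  VR.nl R

theorem e866 (R : VR) : (v866 R) = s866 R :=
  rfl

theorem b866 (R : VR) : s866 R ≤ 31 :=
  VR.nl_b R

noncomputable def v867 (R : VR) : ℕ :=
  VR.k R

noncomputable def s867 (R : VR) : ℕ :=
  VR.k R

theorem e867 (R : VR) : (v867 R) = s867 R :=
  rfl

theorem b867 (R : VR) : s867 R ≤ 15 :=
  VR.k_b R

noncomputable def v868 (R : VR) : ℕ :=
  Nat.add (v624 R) (VR.k R)

noncomputable def s868 (R : VR) : ℕ :=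
  Nat.add (s624 R) (s867 R)

theorem e868 (R : VR) : (v868 R) = s868 R :=
  congrArg₂ Nat.add (e624 R) (e867 R)

theorem b868 (R : VR) : s868 R ≤ 30 :=
  Nat.add_le_add (b624 R) (b867 R)

noncomputable def v869 (R : VR) : ℕ :=
  Nat.mul (VR.o1 R) (v868 R)

noncomputable def s869 (R : VR) (i : ℕ) : ℕ :=
  (s868 R)

theorem e869 (R : VR) : L (VR.S R) (v869 R) (s869 R) 30 :=
  L.scl (VR.o1e R) (e868 R) (b868 R) (by decide)

noncomputable def v870 (R : VR) : ℕ :=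
  Nat.shiftRight (Nat.land (Nat.sub (Nat.add (v869 R) (VR.k1 R)) (VR.iota R)) (VR.h1 R)) (nat_lit
    15)

noncomputable def s870 (R : VR) (i : ℕ) : Bool :=
  Nat.ble (Nat.succ (s0 R i)) (s869 R i)

theorem e870 (R : VR) : B (VR.S R) (v870 R) (s870 R) :=
  L.blt (VR.h1e R) (VR.k1e R) (e0 R) (e869 R)

noncomputable def s871 (R : VR) (i : ℕ) : ℕ :=
  tx (VR.rdT R) i

theorem e871 (R : VR) : L (VR.S R) (VR.rdT R) (s871 R) 255 :=
  VR.rd_is R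

noncomputable def v872 (R : VR) : ℕ :=
  Nat.shiftRight (Nat.land (Nat.sub (Nat.add (v172 R) (VR.k1 R)) (VR.rdT R)) (VR.h1 R)) (nat_lit
    15)

noncomputable def s872 (R : VR) (i : ℕ) : Bool :=
  Nat.ble (Nat.succ (s871 R i)) (s172 R i)

theorem e872 (R : VR) : B (VR.S R) (v872 R) (s872 R) :=
  L.blt (VR.h1e R) (VR.k1e R) (e871 R) (e172 R)

noncomputable def v873 (R : VR) : ℕ :=
  gmk (VR.h2 R) (VR.J R) (Nat.mul (VR.rdT R) (VR.cr1 R))

noncomputable def v874 (R : VR) : ℕ :=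
  Nat.mod (Nat.land (v873 R) (v9 R)) (VR.m1 R)

noncomputable def s874 (R : VR) (i : ℕ) : ℕ :=
  tx (VR.lT R) (s871 R i)

theorem e874 (R : VR) : L (VR.S R) (v874 R) (s874 R) 29 :=
  L.gat (e871 R) (VR.l_is R) (VR.l_lt R) (VR.l_le R)

noncomputable def v875 (R : VR) : ℕ :=
  Nat.shiftRight (Nat.land (Nat.sub (VR.h1 R) (Nat.xor (Nat.mod (Nat.land (v873 R) (v9 R)) (VR.m1
    R)) (VR.iota R))) (VR.h1 R)) (nat_lit 15)

noncomputable def s875 (R : VR) (i : ℕ) : Bool :=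
  Nat.beq (s874 R i) (s0 R i)

theorem e875 (R : VR) : B (VR.S R) (v875 R) (s875 R) :=
  L.beq (VR.h1e R) (e874 R) (e0 R)

noncomputable def v876 (R : VR) : ℕ :=
  Nat.land (Nat.shiftRight (Nat.land (Nat.sub (Nat.add (v172 R) (VR.k1 R)) (VR.rdT R)) (VR.h1 R))
    (nat_lit 15)) (Nat.shiftRight (Nat.land (Nat.sub (VR.h1 R) (Nat.xor (Nat.mod (Nat.land (v873
    R) (v9 R)) (VR.m1 R)) (VR.iota R))) (VR.h1 R)) (nat_lit 15))

noncomputable def s876 (R : VR) (i : ℕ) : Bool :=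
  K.band (s872 R i) (s875 R i)

theorem e876 (R : VR) : B (VR.S R) (v876 R) (s876 R) :=
  B.and (e872 R) (e875 R)

noncomputable def v877 (R : VR) : ℕ :=
  srM (VR.N R) (VR.S R) (VR.o1 R) (VR.realT R)

noncomputable def v878 (R : VR) : ℕ :=
  Nat.mod (Nat.land (v873 R) (v877 R)) (VR.m1 R)

noncomputable def s878 (R : VR) (i : ℕ) : Bool :=
  tf (VR.realT R) (s871 R i)

theorem e878 (R : VR) : B (VR.S R) (v878 R) (s878 R) :=
  B.gat (e871 R) (VR.real_is R) (VR.real_lt R)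

noncomputable def v879 (R : VR) : ℕ :=
  Nat.land (Nat.land (Nat.shiftRight (Nat.land (Nat.sub (Nat.add (v172 R) (VR.k1 R)) (VR.rdT R))
    (VR.h1 R)) (nat_lit 15)) (Nat.shiftRight (Nat.land (Nat.sub (VR.h1 R) (Nat.xor (Nat.mod
    (Nat.land (v873 R) (v9 R)) (VR.m1 R)) (VR.iota R))) (VR.h1 R)) (nat_lit 15))) (Nat.mod
    (Nat.land (v873 R) (v877 R)) (VR.m1 R))

noncomputable def s879 (R : VR) (i : ℕ) : Bool :=
  K.band (s876 R i) (s878 R i)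

theorem e879 (R : VR) : B (VR.S R) (v879 R) (s879 R) :=
  B.and (e876 R) (e878 R)

noncomputable def v880 (R : VR) : ℕ :=
  Nat.shiftRight (Nat.land (Nat.sub (Nat.add (v202 R) (VR.k1 R)) (VR.rdT R)) (VR.h1 R)) (nat_lit
    15)

noncomputable def s880 (R : VR) (i : ℕ) : Bool :=
  Nat.ble (Nat.succ (s871 R i)) (s202 R i)

theorem e880 (R : VR) : B (VR.S R) (v880 R) (s880 R) :=
  L.blt (VR.h1e R) (VR.k1e R) (e871 R) (e202 R)

noncomputable def v881 (R : VR) : ℕ :=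
  Nat.mod (Nat.land (v873 R) (v436 R)) (VR.m1 R)

noncomputable def s881 (R : VR) (i : ℕ) : Bool :=
  tf (VR.rlT R) (s871 R i)

theorem e881 (R : VR) : B (VR.S R) (v881 R) (s881 R) :=
  B.gat (e871 R) (VR.rl_is R) (VR.rl_lt R)

noncomputable def v882 (R : VR) : ℕ :=
  Nat.sub (VR.o1 R) (Nat.mod (Nat.land (v873 R) (v436 R)) (VR.m1 R))

noncomputable def s882 (R : VR) (i : ℕ) : Bool :=
  K.bnot (s881 R i)

theorem e882 (R : VR) : B (VR.S R) (v882 R) (s882 R) :=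
  B.not (VR.o1e R) (e881 R)

noncomputable def v883 (R : VR) : ℕ :=
  Nat.land (Nat.shiftRight (Nat.land (Nat.sub (Nat.add (v202 R) (VR.k1 R)) (VR.rdT R)) (VR.h1 R))
    (nat_lit 15)) (Nat.sub (VR.o1 R) (Nat.mod (Nat.land (v873 R) (v436 R)) (VR.m1 R)))

noncomputable def s883 (R : VR) (i : ℕ) : Bool :=
  K.band (s880 R i) (s882 R i)

theorem e883 (R : VR) : B (VR.S R) (v883 R) (s883 R) :=
  B.and (e880 R) (e882 R)

noncomputable def v884 (R : VR) : ℕ :=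
  Nat.mod (Nat.land (v873 R) (v129 R)) (VR.m1 R)

noncomputable def s884 (R : VR) (i : ℕ) : ℕ :=
  tx (VR.caT R) (s871 R i)

theorem e884 (R : VR) : L (VR.S R) (v884 R) (s884 R) 255 :=
  L.gat (e871 R) (VR.ca_is R) (VR.ca_lt R) (VR.ca_le R)

noncomputable def v885 (R : VR) : ℕ :=
  Nat.shiftRight (Nat.land (Nat.sub (Nat.add (v625 R) (VR.k1 R)) (Nat.mod (Nat.land (v873 R) (v129
    R)) (VR.m1 R))) (VR.h1 R)) (nat_lit 15)

noncomputable def s885 (R : VR) (i : ℕ) : Bool :=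
  Nat.ble (Nat.succ (s884 R i)) (s625 R i)

theorem e885 (R : VR) : B (VR.S R) (v885 R) (s885 R) :=
  L.blt (VR.h1e R) (VR.k1e R) (e884 R) (e625 R)

noncomputable def v886 (R : VR) : ℕ :=
  Nat.land (Nat.land (Nat.shiftRight (Nat.land (Nat.sub (Nat.add (v202 R) (VR.k1 R)) (VR.rdT R))
    (VR.h1 R)) (nat_lit 15)) (Nat.sub (VR.o1 R) (Nat.mod (Nat.land (v873 R) (v436 R)) (VR.m1 R))))
    (Nat.shiftRight (Nat.land (Nat.sub (Nat.add (v625 R) (VR.k1 R)) (Nat.mod (Nat.land (v873 R)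
    (v129 R)) (VR.m1 R))) (VR.h1 R)) (nat_lit 15))

noncomputable def s886 (R : VR) (i : ℕ) : Bool :=
  K.band (s883 R i) (s885 R i)

theorem e886 (R : VR) : B (VR.S R) (v886 R) (s886 R) :=
  B.and (e883 R) (e885 R)

noncomputable def v887 (R : VR) : ℕ :=
  Nat.mod (Nat.land (v873 R) (v5 R)) (VR.m1 R)

noncomputable def s887 (R : VR) (i : ℕ) : ℕ :=
  tx (VR.nf1T R) (s871 R i)

theorem e887 (R : VR) : L (VR.S R) (v887 R) (s887 R) 255 :=
  L.gat (e871 R) (VR.nf1_is R) (VR.nf1_lt R) (VR.nf1_le R)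

noncomputable def s888 (R : VR) (i : ℕ) : ℕ :=
  (FC6.Sp.nf (VR.Q R)) (s226 R) (s871 R i)

theorem e888 (R : VR) : L (VR.S R) (v887 R) (s888 R) 255 :=
  e887 R

noncomputable def v889 (R : VR) : ℕ :=
  gmk (VR.h2 R) (VR.J R) (Nat.mul (Nat.mod (Nat.land (v873 R) (v5 R)) (VR.m1 R)) (VR.cr1 R))

noncomputable def v890 (R : VR) : ℕ :=
  Nat.mod (Nat.land (gmk (VR.h2 R) (VR.J R) (Nat.mul (Nat.mod (Nat.land (v873 R) (v5 R)) (VR.m1
    R)) (VR.cr1 R))) (v9 R)) (VR.m1 R)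

noncomputable def s890 (R : VR) (i : ℕ) : ℕ :=
  tx (VR.lT R) (s888 R i)

theorem e890 (R : VR) : L (VR.S R) (v890 R) (s890 R) 29 :=
  L.gat (e888 R) (VR.l_is R) (VR.l_lt R) (VR.l_le R)

noncomputable def s891 (R : VR) (i : ℕ) : ℕ :=
  K.WF_hl (VR.WF R) (s871 R i)

theorem e891 (R : VR) : L (VR.S R) (v890 R) (s891 R) 29 :=
  e890 R

noncomputable def v892 (R : VR) : ℕ :=
  Nat.shiftRight (Nat.land (Nat.sub (VR.h1 R) (Nat.xor (v890 R) (VR.iota R))) (VR.h1 R)) (nat_lit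
    15)

noncomputable def s892 (R : VR) (i : ℕ) : Bool :=
  Nat.beq (s891 R i) (s0 R i)

theorem e892 (R : VR) : B (VR.S R) (v892 R) (s892 R) :=
  L.beq (VR.h1e R) (e891 R) (e0 R)

noncomputable def v893 (R : VR) : ℕ :=
  Nat.land (v886 R) (Nat.shiftRight (Nat.land (Nat.sub (VR.h1 R) (Nat.xor (v890 R) (VR.iota R)))
    (VR.h1 R)) (nat_lit 15))

noncomputable def s893 (R : VR) (i : ℕ) : Bool :=
  K.band (s886 R i) (s892 R i)

theorem e893 (R : VR) : B (VR.S R) (v893 R) (s893 R) :=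
  B.and (e886 R) (e892 R)

noncomputable def v894 (R : VR) : ℕ :=
  Nat.xor (v893 R) (Nat.land (Nat.xor (v893 R) (v879 R)) (v870 R))

noncomputable def s894 (R : VR) (i : ℕ) : Bool :=
  Bool.rec (motive := fun _ => Bool) (s893 R i) (s879 R i) (s870 R i)

theorem e894 (R : VR) : B (VR.S R) (v894 R) (s894 R) :=
  B.sel (e870 R) (e879 R) (e893 R)

noncomputable def v895 (R : VR) : Bool :=
  Nat.beq (Nat.land (Nat.sub (VR.o1 R) (Nat.xor (v893 R) (Nat.land (Nat.xor (v893 R) (v879 R))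
    (v870 R)))) (mM (v866 R))) (nat_lit 0)

noncomputable def s895 (R : VR) : Bool :=
  K.allN (s866 R) (s894 R)

theorem e895 (R : VR) : (v895 R) = s895 R :=
  all0 (e894 R) (VR.nl_le R)

noncomputable def s896 (R : VR) : Bool :=
  K.allN (s866 R) (fun (x25 : ℕ) => (Bool.rec (motive := fun _ => Bool) (K.band (K.band (K.band
    (Nat.ble (Nat.succ (FC7.WF.rd (VR.WF R) x25)) (FC6.Sp.ns (VR.Q R))) (K.bnot (FC6.Sp.rl (VR.Q
    R) (FC7.WF.rd (VR.WF R) x25)))) (FC7.Wt.ac (FC7.WF.toWt (VR.WF R)) (FC6.Stars.ca (VR.Z R)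
    (FC7.WF.rd (VR.WF R) x25)))) (Nat.beq (K.WF_hl (VR.WF R) (FC7.WF.rd (VR.WF R) x25)) x25))
    (K.band (K.band (Nat.ble (Nat.succ (FC7.WF.rd (VR.WF R) x25)) (FC6.Pa.n (VR.P R))) (Nat.beq
    (FC6.Pa.l (VR.P R) (FC7.WF.rd (VR.WF R) x25)) x25)) (FC6.Pa.real (VR.P R) (FC7.WF.rd (VR.WF R)
    x25))) (Nat.ble (Nat.succ x25) (FC7.OD.m (VR.O R)))))

theorem e896 (R : VR) : (v895 R) = s896 R :=
  e895 R

noncomputable def v897 (R : VR) : Bool :=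
  K.band (v865 R) (Nat.beq (Nat.land (Nat.sub (VR.o1 R) (Nat.xor (v893 R) (Nat.land (Nat.xor (v893
    R) (v879 R)) (v870 R)))) (mM (v866 R))) (nat_lit 0))

noncomputable def s897 (R : VR) : Bool :=
  K.band (s865 R) (s896 R)

theorem e897 (R : VR) : (v897 R) = s897 R :=
  congrArg₂ K.band (e865 R) (e896 R)

noncomputable def v898 (R : VR) : Bool :=
  Nat.ble (v868 R) (v866 R)

noncomputable def s898 (R : VR) : Bool :=
  Nat.ble (s868 R) (s866 R)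

theorem e898 (R : VR) : (v898 R) = s898 R :=
  congrArg₂ Nat.ble (e868 R) (e866 R)

noncomputable def v899 (R : VR) : Bool :=
  K.band (K.band (v865 R) (Nat.beq (Nat.land (Nat.sub (VR.o1 R) (Nat.xor (v893 R) (Nat.land
    (Nat.xor (v893 R) (v879 R)) (v870 R)))) (mM (v866 R))) (nat_lit 0))) (Nat.ble (v868 R) (v866
    R))

noncomputable def s899 (R : VR) : Bool :=
  K.band (s897 R) (s898 R)

theorem e899 (R : VR) : (v899 R) = s899 R :=
  congrArg₂ K.band (e897 R) (e898 R)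

noncomputable def v900 (R : VR) : ℕ :=
  Nat.shiftRight (Nat.land (Nat.sub (Nat.add (v202 R) (VR.k1 R)) (VR.dq1T R)) (VR.h1 R)) (nat_lit
    15)

noncomputable def s900 (R : VR) (i : ℕ) : Bool :=
  Nat.ble (Nat.succ (s2 R i)) (s202 R i)

theorem e900 (R : VR) : B (VR.S R) (v900 R) (s900 R) :=
  L.blt (VR.h1e R) (VR.k1e R) (e2 R) (e202 R)

noncomputable def v901 (R : VR) : ℕ :=
  Nat.shiftRight (Nat.land (Nat.sub (Nat.add (v202 R) (VR.k1 R)) (VR.dq2T R)) (VR.h1 R)) (nat_lit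
    15)

noncomputable def s901 (R : VR) (i : ℕ) : Bool :=
  Nat.ble (Nat.succ (s14 R i)) (s202 R i)

theorem e901 (R : VR) : B (VR.S R) (v901 R) (s901 R) :=
  L.blt (VR.h1e R) (VR.k1e R) (e14 R) (e202 R)

noncomputable def v902 (R : VR) : ℕ :=
  Nat.land (Nat.shiftRight (Nat.land (Nat.sub (Nat.add (v202 R) (VR.k1 R)) (VR.dq1T R)) (VR.h1 R))
    (nat_lit 15)) (Nat.shiftRight (Nat.land (Nat.sub (Nat.add (v202 R) (VR.k1 R)) (VR.dq2T R))
    (VR.h1 R)) (nat_lit 15))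

noncomputable def s902 (R : VR) (i : ℕ) : Bool :=
  K.band (s900 R i) (s901 R i)

theorem e902 (R : VR) : B (VR.S R) (v902 R) (s902 R) :=
  B.and (e900 R) (e901 R)

noncomputable def v903 (R : VR) : Bool :=
  Nat.beq (Nat.land (Nat.sub (VR.o1 R) (v902 R)) (mM (v1 R))) (nat_lit 0)

noncomputable def s903 (R : VR) : Bool :=
  K.allN (s1 R) (s902 R)

theorem e903 (R : VR) : (v903 R) = s903 R :=
  all0 (e902 R) (VR.kdq_le R)

noncomputable def s904 (R : VR) : Bool :=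
  K.lall (FC7.WF.dq (VR.WF R)) (fun (x26 : ℕ × ℕ) => (K.band (Nat.ble (Nat.succ (Prod.fst x26))
    (FC6.Sp.ns (VR.Q R))) (Nat.ble (Nat.succ (Prod.snd x26)) (FC6.Sp.ns (VR.Q R)))))

theorem e904 (R : VR) : (v903 R) = s904 R :=
  (e903 R).trans (lall_lst2 (VR.kdq R) (VR.dq1T R) (VR.dq2T R) (fun (x27 : ℕ × ℕ) => (K.band
    (Nat.ble (Nat.succ (Prod.fst x27)) (FC6.Sp.ns (VR.Q R))) (Nat.ble (Nat.succ (Prod.snd x27))
    (FC6.Sp.ns (VR.Q R)))))).symm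

noncomputable def v905 (R : VR) : Bool :=
  K.band (K.band (K.band (v865 R) (Nat.beq (Nat.land (Nat.sub (VR.o1 R) (Nat.xor (v893 R)
    (Nat.land (Nat.xor (v893 R) (v879 R)) (v870 R)))) (mM (v866 R))) (nat_lit 0))) (Nat.ble (v868
    R) (v866 R))) (v903 R)

noncomputable def s905 (R : VR) : Bool :=
  K.band (s899 R) (s904 R)

theorem e905 (R : VR) : (v905 R) = s905 R :=
  congrArg₂ K.band (e899 R) (e904 R)

noncomputable def v906 (R : VR) : ℕ :=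
  Nat.shiftRight (Nat.land (Nat.sub (Nat.add (v202 R) (VR.k1 R)) (VR.nq1T R)) (VR.h1 R)) (nat_lit
    15)

noncomputable def s906 (R : VR) (i : ℕ) : Bool :=
  Nat.ble (Nat.succ (s50 R i)) (s202 R i)

theorem e906 (R : VR) : B (VR.S R) (v906 R) (s906 R) :=
  L.blt (VR.h1e R) (VR.k1e R) (e50 R) (e202 R)

noncomputable def v907 (R : VR) : ℕ :=
  Nat.shiftRight (Nat.land (Nat.sub (Nat.add (v202 R) (VR.k1 R)) (VR.nq2T R)) (VR.h1 R)) (nat_lit
    15)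

noncomputable def s907 (R : VR) (i : ℕ) : Bool :=
  Nat.ble (Nat.succ (s57 R i)) (s202 R i)

theorem e907 (R : VR) : B (VR.S R) (v907 R) (s907 R) :=
  L.blt (VR.h1e R) (VR.k1e R) (e57 R) (e202 R)

noncomputable def v908 (R : VR) : ℕ :=
  Nat.land (Nat.shiftRight (Nat.land (Nat.sub (Nat.add (v202 R) (VR.k1 R)) (VR.nq1T R)) (VR.h1 R))
    (nat_lit 15)) (Nat.shiftRight (Nat.land (Nat.sub (Nat.add (v202 R) (VR.k1 R)) (VR.nq2T R))
    (VR.h1 R)) (nat_lit 15))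

noncomputable def s908 (R : VR) (i : ℕ) : Bool :=
  K.band (s906 R i) (s907 R i)

theorem e908 (R : VR) : B (VR.S R) (v908 R) (s908 R) :=
  B.and (e906 R) (e907 R)

noncomputable def v909 (R : VR) : Bool :=
  Nat.beq (Nat.land (Nat.sub (VR.o1 R) (Nat.land (Nat.shiftRight (Nat.land (Nat.sub (Nat.add (v202
    R) (VR.k1 R)) (VR.nq1T R)) (VR.h1 R)) (nat_lit 15)) (Nat.shiftRight (Nat.land (Nat.sub
    (Nat.add (v202 R) (VR.k1 R)) (VR.nq2T R)) (VR.h1 R)) (nat_lit 15)))) (mM (v49 R))) (nat_lit 0)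

noncomputable def s909 (R : VR) : Bool :=
  K.allN (s49 R) (s908 R)

theorem e909 (R : VR) : (v909 R) = s909 R :=
  all0 (e908 R) (VR.knq_le R)

noncomputable def s910 (R : VR) : Bool :=
  K.lall (FC7.WF.nq (VR.WF R)) (fun (x28 : ℕ × ℕ) => (K.band (Nat.ble (Nat.succ (Prod.fst x28))
    (FC6.Sp.ns (VR.Q R))) (Nat.ble (Nat.succ (Prod.snd x28)) (FC6.Sp.ns (VR.Q R)))))

theorem e910 (R : VR) : (v909 R) = s910 R :=
  (e909 R).trans (lall_lst2 (VR.knq R) (VR.nq1T R) (VR.nq2T R) (fun (x29 : ℕ × ℕ) => (K.band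
    (Nat.ble (Nat.succ (Prod.fst x29)) (FC6.Sp.ns (VR.Q R))) (Nat.ble (Nat.succ (Prod.snd x29))
    (FC6.Sp.ns (VR.Q R)))))).symm

noncomputable def v911 (R : VR) : Bool :=
  K.band (K.band (K.band (K.band (v865 R) (Nat.beq (Nat.land (Nat.sub (VR.o1 R) (Nat.xor (v893 R)
    (Nat.land (Nat.xor (v893 R) (v879 R)) (v870 R)))) (mM (v866 R))) (nat_lit 0))) (Nat.ble (v868
    R) (v866 R))) (v903 R)) (Nat.beq (Nat.land (Nat.sub (VR.o1 R) (Nat.land (Nat.shiftRight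
    (Nat.land (Nat.sub (Nat.add (v202 R) (VR.k1 R)) (VR.nq1T R)) (VR.h1 R)) (nat_lit 15))
    (Nat.shiftRight (Nat.land (Nat.sub (Nat.add (v202 R) (VR.k1 R)) (VR.nq2T R)) (VR.h1 R))
    (nat_lit 15)))) (mM (v49 R))) (nat_lit 0))

noncomputable def s911 (R : VR) : Bool :=
  K.band (s905 R) (s910 R)

theorem e911 (R : VR) : (v911 R) = s911 R :=
  congrArg₂ K.band (e905 R) (e910 R)

noncomputable def v912 (R : VR) : ℕ :=
  Nat.shiftRight (Nat.land (Nat.sub (Nat.add (v202 R) (VR.k1 R)) (VR.oq1T R)) (VR.h1 R)) (nat_lit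
    15)

noncomputable def s912 (R : VR) (i : ℕ) : Bool :=
  Nat.ble (Nat.succ (s87 R i)) (s202 R i)

theorem e912 (R : VR) : B (VR.S R) (v912 R) (s912 R) :=
  L.blt (VR.h1e R) (VR.k1e R) (e87 R) (e202 R)

noncomputable def v913 (R : VR) : ℕ :=
  Nat.shiftRight (Nat.land (Nat.sub (Nat.add (v202 R) (VR.k1 R)) (VR.oq2T R)) (VR.h1 R)) (nat_lit
    15)

noncomputable def s913 (R : VR) (i : ℕ) : Bool :=
  Nat.ble (Nat.succ (s94 R i)) (s202 R i)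

theorem e913 (R : VR) : B (VR.S R) (v913 R) (s913 R) :=
  L.blt (VR.h1e R) (VR.k1e R) (e94 R) (e202 R)

noncomputable def v914 (R : VR) : ℕ :=
  Nat.land (Nat.shiftRight (Nat.land (Nat.sub (Nat.add (v202 R) (VR.k1 R)) (VR.oq1T R)) (VR.h1 R))
    (nat_lit 15)) (Nat.shiftRight (Nat.land (Nat.sub (Nat.add (v202 R) (VR.k1 R)) (VR.oq2T R))
    (VR.h1 R)) (nat_lit 15))

noncomputable def s914 (R : VR) (i : ℕ) : Bool :=
  K.band (s912 R i) (s913 R i)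

theorem e914 (R : VR) : B (VR.S R) (v914 R) (s914 R) :=
  B.and (e912 R) (e913 R)

noncomputable def v915 (R : VR) : Bool :=
  Nat.beq (Nat.land (Nat.sub (VR.o1 R) (Nat.land (Nat.shiftRight (Nat.land (Nat.sub (Nat.add (v202
    R) (VR.k1 R)) (VR.oq1T R)) (VR.h1 R)) (nat_lit 15)) (Nat.shiftRight (Nat.land (Nat.sub
    (Nat.add (v202 R) (VR.k1 R)) (VR.oq2T R)) (VR.h1 R)) (nat_lit 15)))) (mM (v86 R))) (nat_lit 0)

noncomputable def s915 (R : VR) : Bool :=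
  K.allN (s86 R) (s914 R)

theorem e915 (R : VR) : (v915 R) = s915 R :=
  all0 (e914 R) (VR.koq_le R)

noncomputable def s916 (R : VR) : Bool :=
  K.lall (FC7.WF.oq (VR.WF R)) (fun (x30 : ℕ × ℕ) => (K.band (Nat.ble (Nat.succ (Prod.fst x30))
    (FC6.Sp.ns (VR.Q R))) (Nat.ble (Nat.succ (Prod.snd x30)) (FC6.Sp.ns (VR.Q R)))))

theorem e916 (R : VR) : (v915 R) = s916 R :=
  (e915 R).trans (lall_lst2 (VR.koq R) (VR.oq1T R) (VR.oq2T R) (fun (x31 : ℕ × ℕ) => (K.band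
    (Nat.ble (Nat.succ (Prod.fst x31)) (FC6.Sp.ns (VR.Q R))) (Nat.ble (Nat.succ (Prod.snd x31))
    (FC6.Sp.ns (VR.Q R)))))).symm

noncomputable def v917 (R : VR) : Bool :=
  K.band (v911 R) (Nat.beq (Nat.land (Nat.sub (VR.o1 R) (Nat.land (Nat.shiftRight (Nat.land
    (Nat.sub (Nat.add (v202 R) (VR.k1 R)) (VR.oq1T R)) (VR.h1 R)) (nat_lit 15)) (Nat.shiftRight
    (Nat.land (Nat.sub (Nat.add (v202 R) (VR.k1 R)) (VR.oq2T R)) (VR.h1 R)) (nat_lit 15)))) (mM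
    (v86 R))) (nat_lit 0))

noncomputable def s917 (R : VR) : Bool :=
  K.band (s911 R) (s916 R)

theorem e917 (R : VR) : (v917 R) = s917 R :=
  congrArg₂ K.band (e911 R) (e916 R)

noncomputable def s918 (R : VR) (i : ℕ) : ℕ :=
  tx (VR.nmT R) i

theorem e918 (R : VR) : L (VR.S R) (VR.nmT R) (s918 R) 32767 :=
  VR.nm_is R

noncomputable def v919 (R : VR) : ℕ :=
  Nat.mul (VR.nmT R) (VR.cr1 R)

noncomputable def s919 (R : VR) (j i : ℕ) : ℕ :=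
  (s918 R i)

theorem e919 (R : VR) : L2 R (v919 R) (s919 R) 32767 :=
  L2.rep (e918 R)

noncomputable def v920 (R : VR) : ℕ :=
  srM (VR.N R) (VR.S R) (VR.o1 R) (VR.pw1T R)

noncomputable def s920 (R : VR) (j i : ℕ) : ℕ :=
  (s19 R j)

theorem e920 (R : VR) : L2 R (v920 R) (s920 R) 16384 :=
  L2.row (e19 R)

noncomputable def v921 (R : VR) : ℕ :=
  Nat.land (Nat.mul (VR.nmT R) (VR.cr1 R)) (v920 R)

noncomputable def s921 (R : VR) (j i : ℕ) : ℕ :=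
  Nat.land (s919 R j i) (s920 R j i)

theorem e921 (R : VR) : L2 R (v921 R) (s921 R) 32767 :=
  L.land (e919 R) (e920 R)

noncomputable def v922 (R : VR) : ℕ :=
  Nat.shiftRight (Nat.land (Nat.sub (VR.h2 R) (v921 R)) (VR.h2 R)) (nat_lit 15)

noncomputable def s922 (R : VR) (j i : ℕ) : Bool :=
  Nat.beq (s921 R j i) (nat_lit 0)

theorem e922 (R : VR) : B2 R (v922 R) (s922 R) :=
  L.ez (VR.h2e R) (e921 R)

noncomputable def v923 (R : VR) : ℕ :=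
  Nat.shiftRight (Nat.land (Nat.add (v921 R) (VR.k2 R)) (VR.h2 R)) (nat_lit 15)

noncomputable def s923 (R : VR) (j i : ℕ) : Bool :=
  K.bnot (Nat.beq (s921 R j i) (nat_lit 0))

theorem e923 (R : VR) : B2 R (v923 R) (s923 R) :=
  L.nz (VR.h2e R) (VR.k2e R) (e921 R)

noncomputable def s924 (R : VR) (i : ℕ) : ℕ :=
  tx (VR.nmkT R) i

theorem e924 (R : VR) : L (VR.S R) (VR.nmkT R) (s924 R) 32767 :=
  VR.nmk_is R

noncomputable def v925 (R : VR) : ℕ :=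
  gmk (VR.h2 R) (VR.J R) (Nat.mul (v554 R) (VR.cr1 R))

noncomputable def v926 (R : VR) : ℕ :=
  srM (VR.N R) (VR.S R) (VR.o1 R) (VR.nmkT R)

noncomputable def v927 (R : VR) : ℕ :=
  Nat.mod (Nat.land (v925 R) (v926 R)) (VR.m1 R)

noncomputable def s927 (R : VR) (i : ℕ) : ℕ :=
  tx (VR.nmkT R) (s554 R i)

theorem e927 (R : VR) : L (VR.S R) (v927 R) (s927 R) 32767 :=
  L.gat (e554 R) (VR.nmk_is R) (VR.nmk_lt R) (VR.nmk_le R)

noncomputable def s928 (R : VR) (i : ℕ) : ℕ :=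
  tx (VR.pwhT R) i

theorem e928 (R : VR) : L (VR.S R) (VR.pwhT R) (s928 R) 16384 :=
  VR.pwh_is R

noncomputable def v929 (R : VR) : ℕ :=
  Nat.mul (v927 R) (VR.cr1 R)

noncomputable def s929 (R : VR) (j i : ℕ) : ℕ :=
  (s927 R i)

theorem e929 (R : VR) : L2 R (v929 R) (s929 R) 32767 :=
  L2.rep (e927 R)

noncomputable def v930 (R : VR) : ℕ :=
  srM (VR.N R) (VR.S R) (VR.o1 R) (VR.pwhT R)

noncomputable def s930 (R : VR) (j i : ℕ) : ℕ :=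
  (s928 R j)

theorem e930 (R : VR) : L2 R (v930 R) (s930 R) 16384 :=
  L2.row (e928 R)

noncomputable def v931 (R : VR) : ℕ :=
  Nat.land (Nat.mul (v927 R) (VR.cr1 R)) (v930 R)

noncomputable def s931 (R : VR) (j i : ℕ) : ℕ :=
  Nat.land (s929 R j i) (s930 R j i)

theorem e931 (R : VR) : L2 R (v931 R) (s931 R) 32767 :=
  L.land (e929 R) (e930 R)

noncomputable def v932 (R : VR) : ℕ :=
  Nat.shiftRight (Nat.land (Nat.sub (VR.h2 R) (v931 R)) (VR.h2 R)) (nat_lit 15)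

noncomputable def s932 (R : VR) (j i : ℕ) : Bool :=
  Nat.beq (s931 R j i) (nat_lit 0)

theorem e932 (R : VR) : B2 R (v932 R) (s932 R) :=
  L.ez (VR.h2e R) (e931 R)

noncomputable def v933 (R : VR) : ℕ :=
  Nat.shiftRight (Nat.land (Nat.add (v931 R) (VR.k2 R)) (VR.h2 R)) (nat_lit 15)

noncomputable def s933 (R : VR) (j i : ℕ) : Bool :=
  K.bnot (Nat.beq (s931 R j i) (nat_lit 0))

theorem e933 (R : VR) : B2 R (v933 R) (s933 R) :=
  L.nz (VR.h2e R) (VR.k2e R) (e931 R)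

noncomputable def v934 (R : VR) : ℕ :=
  Nat.lor (Nat.shiftRight (Nat.land (Nat.add (v921 R) (VR.k2 R)) (VR.h2 R)) (nat_lit 15))
    (Nat.shiftRight (Nat.land (Nat.add (v931 R) (VR.k2 R)) (VR.h2 R)) (nat_lit 15))

noncomputable def s934 (R : VR) (j i : ℕ) : Bool :=
  K.bor (s923 R j i) (s933 R j i)

theorem e934 (R : VR) : B2 R (v934 R) (s934 R) :=
  B.or (e923 R) (e933 R)

noncomputable def s935 (R : VR) (j i : ℕ) : Bool :=
  V2.ne R i j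

theorem e935 (R : VR) : B2 R (v934 R) (s935 R) :=
  e934 R

noncomputable def v936 (R : VR) : ℕ :=
  Nat.sub (VR.o2 R) (v934 R)

noncomputable def s936 (R : VR) (j i : ℕ) : Bool :=
  K.bnot (s935 R j i)

theorem e936 (R : VR) : B2 R (v936 R) (s936 R) :=
  B.not (VR.o2e R) (e935 R)

noncomputable def v937 (R : VR) : ℕ :=
  Nat.shiftRight (Nat.land (Nat.sub (VR.h2 R) (Nat.xor (v12 R) (v528 R))) (VR.h2 R)) (nat_lit 15)

noncomputable def s937 (R : VR) (j i : ℕ) : Bool :=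
  Nat.beq (s12 R j i) (s528 R j i)

theorem e937 (R : VR) : B2 R (v937 R) (s937 R) :=
  L.beq (VR.h2e R) (e12 R) (e528 R)

noncomputable def v938 (R : VR) : ℕ :=
  Nat.sub (VR.o2 R) (v937 R)

noncomputable def s938 (R : VR) (j i : ℕ) : Bool :=
  K.bnot (s937 R j i)

theorem e938 (R : VR) : B2 R (v938 R) (s938 R) :=
  B.not (VR.o2e R) (e937 R)

noncomputable def v939 (R : VR) : ℕ :=
  Nat.mul (VR.cxT R) (VR.cr1 R)

noncomputable def s939 (R : VR) (j i : ℕ) : Bool :=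
  (s221 R i)

theorem e939 (R : VR) : B2 R (v939 R) (s939 R) :=
  B2.rep (e221 R)

noncomputable def v940 (R : VR) : ℕ :=
  srM (VR.N R) (VR.S R) (VR.o1 R) (VR.cxT R)

noncomputable def s940 (R : VR) (j i : ℕ) : Bool :=
  (s221 R j)

theorem e940 (R : VR) : B2 R (v940 R) (s940 R) :=
  B2.row (e221 R)

noncomputable def v941 (R : VR) : ℕ :=
  Nat.lor (Nat.mul (VR.cxT R) (VR.cr1 R)) (v940 R)

noncomputable def s941 (R : VR) (j i : ℕ) : Bool :=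
  K.bor (s939 R j i) (s940 R j i)

theorem e941 (R : VR) : B2 R (v941 R) (s941 R) :=
  B.or (e939 R) (e940 R)

noncomputable def v942 (R : VR) : ℕ :=
  Nat.mul (v870 R) (VR.cr1 R)

noncomputable def s942 (R : VR) (j i : ℕ) : Bool :=
  (s870 R i)

theorem e942 (R : VR) : B2 R (v942 R) (s942 R) :=
  B2.rep (e870 R)

noncomputable def v943 (R : VR) : ℕ :=
  srM (VR.N R) (VR.S R) (VR.o1 R) (v870 R)

noncomputable def s943 (R : VR) (j i : ℕ) : Bool :=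
  (s870 R j)

theorem e943 (R : VR) : B2 R (v943 R) (s943 R) :=
  B2.row (e870 R)

noncomputable def v944 (R : VR) : ℕ :=
  Nat.sub (VR.o2 R) (Nat.xor (Nat.mul (v870 R) (VR.cr1 R)) (v943 R))

noncomputable def s944 (R : VR) (j i : ℕ) : Bool :=
  K.beqB (s942 R j i) (s943 R j i)

theorem e944 (R : VR) : B2 R (v944 R) (s944 R) :=
  B.beqB (VR.o2e R) (e942 R) (e943 R)

noncomputable def v945 (R : VR) : ℕ :=
  Nat.sub (VR.o2 R) (Nat.sub (VR.o2 R) (Nat.xor (Nat.mul (v870 R) (VR.cr1 R)) (v943 R)))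

noncomputable def s945 (R : VR) (j i : ℕ) : Bool :=
  K.bnot (s944 R j i)

theorem e945 (R : VR) : B2 R (v945 R) (s945 R) :=
  B.not (VR.o2e R) (e944 R)

noncomputable def v946 (R : VR) : ℕ :=
  Nat.lor (Nat.lor (Nat.mul (VR.cxT R) (VR.cr1 R)) (v940 R)) (Nat.sub (VR.o2 R) (Nat.sub (VR.o2 R)
    (Nat.xor (Nat.mul (v870 R) (VR.cr1 R)) (v943 R))))

noncomputable def s946 (R : VR) (j i : ℕ) : Bool :=
  K.bor (s941 R j i) (s945 R j i)

theorem e946 (R : VR) : B2 R (v946 R) (s946 R) :=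
  B.or (e941 R) (e945 R)

noncomputable def s947 (R : VR) (i : ℕ) : ℕ :=
  tx (VR.DQ1T R) i

theorem e947 (R : VR) : L (VR.S R) (VR.DQ1T R) (s947 R) 32767 :=
  VR.DQ1_is R

noncomputable def s948 (R : VR) (i : ℕ) : ℕ :=
  tx (VR.DQ2T R) i

theorem e948 (R : VR) : L (VR.S R) (VR.DQ2T R) (s948 R) 32767 :=
  VR.DQ2_is R

noncomputable def v949 (R : VR) : ℕ :=
  Nat.mul (VR.DQ1T R) (VR.cr1 R)

noncomputable def s949 (R : VR) (j i : ℕ) : ℕ :=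
  (s947 R i)

theorem e949 (R : VR) : L2 R (v949 R) (s949 R) 32767 :=
  L2.rep (e947 R)

noncomputable def v950 (R : VR) : ℕ :=
  Nat.land (Nat.mul (VR.DQ1T R) (VR.cr1 R)) (v920 R)

noncomputable def s950 (R : VR) (j i : ℕ) : ℕ :=
  Nat.land (s949 R j i) (s920 R j i)

theorem e950 (R : VR) : L2 R (v950 R) (s950 R) 32767 :=
  L.land (e949 R) (e920 R)

noncomputable def v951 (R : VR) : ℕ :=
  Nat.shiftRight (Nat.land (Nat.sub (VR.h2 R) (v950 R)) (VR.h2 R)) (nat_lit 15)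

noncomputable def s951 (R : VR) (j i : ℕ) : Bool :=
  Nat.beq (s950 R j i) (nat_lit 0)

theorem e951 (R : VR) : B2 R (v951 R) (s951 R) :=
  L.ez (VR.h2e R) (e950 R)

noncomputable def v952 (R : VR) : ℕ :=
  Nat.shiftRight (Nat.land (Nat.add (v950 R) (VR.k2 R)) (VR.h2 R)) (nat_lit 15)

noncomputable def s952 (R : VR) (j i : ℕ) : Bool :=
  K.bnot (Nat.beq (s950 R j i) (nat_lit 0))

theorem e952 (R : VR) : B2 R (v952 R) (s952 R) :=
  L.nz (VR.h2e R) (VR.k2e R) (e950 R)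

noncomputable def v953 (R : VR) : ℕ :=
  Nat.mul (VR.DQ2T R) (VR.cr1 R)

noncomputable def s953 (R : VR) (j i : ℕ) : ℕ :=
  (s948 R i)

theorem e953 (R : VR) : L2 R (v953 R) (s953 R) 32767 :=
  L2.rep (e948 R)

noncomputable def v954 (R : VR) : ℕ :=
  srM (VR.N R) (VR.S R) (VR.o1 R) (VR.pw2T R)

noncomputable def s954 (R : VR) (j i : ℕ) : ℕ :=
  (s37 R j)

theorem e954 (R : VR) : L2 R (v954 R) (s954 R) 16384 :=
  L2.row (e37 R)

noncomputable def v955 (R : VR) : ℕ :=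
  Nat.land (Nat.mul (VR.DQ2T R) (VR.cr1 R)) (v954 R)

noncomputable def s955 (R : VR) (j i : ℕ) : ℕ :=
  Nat.land (s953 R j i) (s954 R j i)

theorem e955 (R : VR) : L2 R (v955 R) (s955 R) 32767 :=
  L.land (e953 R) (e954 R)

noncomputable def v956 (R : VR) : ℕ :=
  Nat.shiftRight (Nat.land (Nat.sub (VR.h2 R) (v955 R)) (VR.h2 R)) (nat_lit 15)

noncomputable def s956 (R : VR) (j i : ℕ) : Bool :=
  Nat.beq (s955 R j i) (nat_lit 0)

theorem e956 (R : VR) : B2 R (v956 R) (s956 R) :=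
  L.ez (VR.h2e R) (e955 R)

noncomputable def v957 (R : VR) : ℕ :=
  Nat.shiftRight (Nat.land (Nat.add (v955 R) (VR.k2 R)) (VR.h2 R)) (nat_lit 15)

noncomputable def s957 (R : VR) (j i : ℕ) : Bool :=
  K.bnot (Nat.beq (s955 R j i) (nat_lit 0))

theorem e957 (R : VR) : B2 R (v957 R) (s957 R) :=
  L.nz (VR.h2e R) (VR.k2e R) (e955 R)

noncomputable def v958 (R : VR) : ℕ :=
  Nat.lor (Nat.shiftRight (Nat.land (Nat.add (v950 R) (VR.k2 R)) (VR.h2 R)) (nat_lit 15))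
    (Nat.shiftRight (Nat.land (Nat.add (v955 R) (VR.k2 R)) (VR.h2 R)) (nat_lit 15))

noncomputable def s958 (R : VR) (j i : ℕ) : Bool :=
  K.bor (s952 R j i) (s957 R j i)

theorem e958 (R : VR) : B2 R (v958 R) (s958 R) :=
  B.or (e952 R) (e957 R)

noncomputable def s959 (R : VR) (j i : ℕ) : Bool :=
  V2.mk R (s947 R i) (s948 R i) j

theorem e959 (R : VR) : B2 R (v958 R) (s959 R) :=
  e958 R

noncomputable def v960 (R : VR) : ℕ :=
  Nat.lor (Nat.lor (Nat.lor (Nat.mul (VR.cxT R) (VR.cr1 R)) (v940 R)) (Nat.sub (VR.o2 R) (Nat.sub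
    (VR.o2 R) (Nat.xor (Nat.mul (v870 R) (VR.cr1 R)) (v943 R))))) (Nat.lor (Nat.shiftRight
    (Nat.land (Nat.add (v950 R) (VR.k2 R)) (VR.h2 R)) (nat_lit 15)) (Nat.shiftRight (Nat.land
    (Nat.add (v955 R) (VR.k2 R)) (VR.h2 R)) (nat_lit 15)))

noncomputable def s960 (R : VR) (j i : ℕ) : Bool :=
  K.bor (s946 R j i) (s959 R j i)

theorem e960 (R : VR) : B2 R (v960 R) (s960 R) :=
  B.or (e946 R) (e959 R)

noncomputable def v961 (R : VR) : ℕ :=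
  Nat.land (v938 R) (Nat.lor (Nat.lor (Nat.lor (Nat.mul (VR.cxT R) (VR.cr1 R)) (v940 R)) (Nat.sub
    (VR.o2 R) (Nat.sub (VR.o2 R) (Nat.xor (Nat.mul (v870 R) (VR.cr1 R)) (v943 R))))) (Nat.lor
    (Nat.shiftRight (Nat.land (Nat.add (v950 R) (VR.k2 R)) (VR.h2 R)) (nat_lit 15))
    (Nat.shiftRight (Nat.land (Nat.add (v955 R) (VR.k2 R)) (VR.h2 R)) (nat_lit 15))))

noncomputable def s961 (R : VR) (j i : ℕ) : Bool :=
  K.band (s938 R j i) (s960 R j i)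

theorem e961 (R : VR) : B2 R (v961 R) (s961 R) :=
  B.and (e938 R) (e960 R)

noncomputable def s962 (R : VR) (j i : ℕ) : Bool :=
  V2.dis R i j

theorem e962 (R : VR) : B2 R (v961 R) (s962 R) :=
  e961 R

noncomputable def s963 (R : VR) (j i : ℕ) : Bool :=
  K.WF_dis (VR.WF R) i j

theorem e963 (R : VR) : B2 R (v961 R) (s963 R) :=
  B.of_eq (e962 R) (fun t ht => V2.dis_eq R (t % VR.S R) (t / VR.S R))

noncomputable def v964 (R : VR) : ℕ :=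
  Nat.lor (v936 R) (v961 R)

noncomputable def s964 (R : VR) (j i : ℕ) : Bool :=
  K.bor (s936 R j i) (s963 R j i)

theorem e964 (R : VR) : B2 R (v964 R) (s964 R) :=
  B.or (e936 R) (e963 R)

noncomputable def v965 (R : VR) : ℕ :=
  Nat.shiftRight (Nat.land (Nat.sub (VR.h1 R) (Nat.mod (Nat.land (Nat.sub (VR.o2 R) (Nat.lor (v936
    R) (v961 R))) (mM (Nat.mul (v868 R) (VR.S R)))) (VR.m1 R))) (VR.h1 R)) (nat_lit 15)

noncomputable def s965 (R : VR) (i : ℕ) : Bool :=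
  K.allN (s868 R) (fun j => (s964 R j i))

theorem e965 (R : VR) : B (VR.S R) (v965 R) (s965 R) :=
  B.all (e964 R) (VR.leN R (b868 R) (by decide))

noncomputable def s966 (R : VR) (i : ℕ) : Bool :=
  K.allN (s868 R) (fun (x32 : ℕ) => (K.bor (K.bnot (V2.ne R i x32)) (K.WF_dis (VR.WF R) i x32)))

theorem e966 (R : VR) : B (VR.S R) (v965 R) (s966 R) :=
  e965 R

noncomputable def v967 (R : VR) : Bool :=
  Nat.beq (Nat.land (Nat.sub (VR.o1 R) (Nat.shiftRight (Nat.land (Nat.sub (VR.h1 R) (Nat.mod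
    (Nat.land (Nat.sub (VR.o2 R) (Nat.lor (v936 R) (v961 R))) (mM (Nat.mul (v868 R) (VR.S R))))
    (VR.m1 R))) (VR.h1 R)) (nat_lit 15))) (mM (v868 R))) (nat_lit 0)

noncomputable def s967 (R : VR) : Bool :=
  K.allN (s868 R) (s966 R)

theorem e967 (R : VR) : (v967 R) = s967 R :=
  all0 (e966 R) (VR.leN R (b868 R) (by decide))

noncomputable def s968 (R : VR) : Bool :=
  K.allN (s868 R) (fun (x33 : ℕ) => (K.allN (FC7.OD.m (VR.O R)) (fun (x34 : ℕ) => (K.bor (K.bnot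
    (V2.ne R x33 x34)) (K.WF_dis (VR.WF R) x33 x34)))))

theorem e968 (R : VR) : (v967 R) = s968 R :=
  e967 R

noncomputable def v969 (R : VR) : Bool :=
  K.band (K.band (v911 R) (Nat.beq (Nat.land (Nat.sub (VR.o1 R) (Nat.land (Nat.shiftRight
    (Nat.land (Nat.sub (Nat.add (v202 R) (VR.k1 R)) (VR.oq1T R)) (VR.h1 R)) (nat_lit 15))
    (Nat.shiftRight (Nat.land (Nat.sub (Nat.add (v202 R) (VR.k1 R)) (VR.oq2T R)) (VR.h1 R))
    (nat_lit 15)))) (mM (v86 R))) (nat_lit 0))) (Nat.beq (Nat.land (Nat.sub (VR.o1 R)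
    (Nat.shiftRight (Nat.land (Nat.sub (VR.h1 R) (Nat.mod (Nat.land (Nat.sub (VR.o2 R) (Nat.lor
    (v936 R) (v961 R))) (mM (Nat.mul (v868 R) (VR.S R)))) (VR.m1 R))) (VR.h1 R)) (nat_lit 15)))
    (mM (v868 R))) (nat_lit 0))

noncomputable def s969 (R : VR) : Bool :=
  K.band (s917 R) (s968 R)

theorem e969 (R : VR) : (v969 R) = s969 R :=
  congrArg₂ K.band (e917 R) (e968 R)

noncomputable def s970 (R : VR) (i : ℕ) : ℕ :=
  tx (VR.naT R) i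

theorem e970 (R : VR) : L (VR.S R) (VR.naT R) (s970 R) 32767 :=
  VR.na_is R

noncomputable def v971 (R : VR) : ℕ :=
  Nat.mul (VR.naT R) (VR.cr1 R)

noncomputable def s971 (R : VR) (j i : ℕ) : ℕ :=
  (s970 R i)

theorem e971 (R : VR) : L2 R (v971 R) (s971 R) 32767 :=
  L2.rep (e970 R)

noncomputable def v972 (R : VR) : ℕ :=
  Nat.land (Nat.mul (VR.naT R) (VR.cr1 R)) (v920 R)

noncomputable def s972 (R : VR) (j i : ℕ) : ℕ :=
  Nat.land (s971 R j i) (s920 R j i)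

theorem e972 (R : VR) : L2 R (v972 R) (s972 R) 32767 :=
  L.land (e971 R) (e920 R)

noncomputable def v973 (R : VR) : ℕ :=
  Nat.shiftRight (Nat.land (Nat.sub (VR.h2 R) (v972 R)) (VR.h2 R)) (nat_lit 15)

noncomputable def s973 (R : VR) (j i : ℕ) : Bool :=
  Nat.beq (s972 R j i) (nat_lit 0)

theorem e973 (R : VR) : B2 R (v973 R) (s973 R) :=
  L.ez (VR.h2e R) (e972 R)

noncomputable def v974 (R : VR) : ℕ :=
  Nat.shiftRight (Nat.land (Nat.add (v972 R) (VR.k2 R)) (VR.h2 R)) (nat_lit 15)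

noncomputable def s974 (R : VR) (j i : ℕ) : Bool :=
  K.bnot (Nat.beq (s972 R j i) (nat_lit 0))

theorem e974 (R : VR) : B2 R (v974 R) (s974 R) :=
  L.nz (VR.h2e R) (VR.k2e R) (e972 R)

noncomputable def s975 (R : VR) (i : ℕ) : ℕ :=
  tx (VR.nakT R) i

theorem e975 (R : VR) : L (VR.S R) (VR.nakT R) (s975 R) 32767 :=
  VR.nak_is R

noncomputable def v976 (R : VR) : ℕ :=
  srM (VR.N R) (VR.S R) (VR.o1 R) (VR.nakT R)

noncomputable def v977 (R : VR) : ℕ :=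
  Nat.mod (Nat.land (v925 R) (v976 R)) (VR.m1 R)

noncomputable def s977 (R : VR) (i : ℕ) : ℕ :=
  tx (VR.nakT R) (s554 R i)

theorem e977 (R : VR) : L (VR.S R) (v977 R) (s977 R) 32767 :=
  L.gat (e554 R) (VR.nak_is R) (VR.nak_lt R) (VR.nak_le R)

noncomputable def v978 (R : VR) : ℕ :=
  Nat.mul (Nat.mod (Nat.land (v925 R) (v976 R)) (VR.m1 R)) (VR.cr1 R)

noncomputable def s978 (R : VR) (j i : ℕ) : ℕ :=
  (s977 R i)

theorem e978 (R : VR) : L2 R (v978 R) (s978 R) 32767 :=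
  L2.rep (e977 R)

noncomputable def v979 (R : VR) : ℕ :=
  Nat.land (Nat.mul (Nat.mod (Nat.land (v925 R) (v976 R)) (VR.m1 R)) (VR.cr1 R)) (v930 R)

noncomputable def s979 (R : VR) (j i : ℕ) : ℕ :=
  Nat.land (s978 R j i) (s930 R j i)

theorem e979 (R : VR) : L2 R (v979 R) (s979 R) 32767 :=
  L.land (e978 R) (e930 R)

noncomputable def v980 (R : VR) : ℕ :=
  Nat.shiftRight (Nat.land (Nat.sub (VR.h2 R) (v979 R)) (VR.h2 R)) (nat_lit 15)

noncomputable def s980 (R : VR) (j i : ℕ) : Bool :=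
  Nat.beq (s979 R j i) (nat_lit 0)

theorem e980 (R : VR) : B2 R (v980 R) (s980 R) :=
  L.ez (VR.h2e R) (e979 R)

noncomputable def v981 (R : VR) : ℕ :=
  Nat.shiftRight (Nat.land (Nat.add (v979 R) (VR.k2 R)) (VR.h2 R)) (nat_lit 15)

noncomputable def s981 (R : VR) (j i : ℕ) : Bool :=
  K.bnot (Nat.beq (s979 R j i) (nat_lit 0))

theorem e981 (R : VR) : B2 R (v981 R) (s981 R) :=
  L.nz (VR.h2e R) (VR.k2e R) (e979 R)

noncomputable def v982 (R : VR) : ℕ :=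
  Nat.lor (Nat.shiftRight (Nat.land (Nat.add (v972 R) (VR.k2 R)) (VR.h2 R)) (nat_lit 15))
    (Nat.shiftRight (Nat.land (Nat.add (v979 R) (VR.k2 R)) (VR.h2 R)) (nat_lit 15))

noncomputable def s982 (R : VR) (j i : ℕ) : Bool :=
  K.bor (s974 R j i) (s981 R j i)

theorem e982 (R : VR) : B2 R (v982 R) (s982 R) :=
  B.or (e974 R) (e981 R)

noncomputable def s983 (R : VR) (j i : ℕ) : Bool :=
  V2.na R i j

theorem e983 (R : VR) : B2 R (v982 R) (s983 R) :=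
  e982 R

noncomputable def v984 (R : VR) : ℕ :=
  Nat.sub (VR.o2 R) (Nat.lor (Nat.shiftRight (Nat.land (Nat.add (v972 R) (VR.k2 R)) (VR.h2 R))
    (nat_lit 15)) (Nat.shiftRight (Nat.land (Nat.add (v979 R) (VR.k2 R)) (VR.h2 R)) (nat_lit 15)))

noncomputable def s984 (R : VR) (j i : ℕ) : Bool :=
  K.bnot (s983 R j i)

theorem e984 (R : VR) : B2 R (v984 R) (s984 R) :=
  B.not (VR.o2e R) (e983 R)

noncomputable def v985 (R : VR) : ℕ :=
  Nat.mul (v771 R) (VR.cr1 R)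

noncomputable def s985 (R : VR) (j i : ℕ) : Bool :=
  (s771 R i)

theorem e985 (R : VR) : B2 R (v985 R) (s985 R) :=
  B2.rep (e771 R)

noncomputable def v986 (R : VR) : ℕ :=
  Nat.lor (Nat.sub (VR.o2 R) (Nat.lor (Nat.shiftRight (Nat.land (Nat.add (v972 R) (VR.k2 R))
    (VR.h2 R)) (nat_lit 15)) (Nat.shiftRight (Nat.land (Nat.add (v979 R) (VR.k2 R)) (VR.h2 R))
    (nat_lit 15)))) (Nat.mul (v771 R) (VR.cr1 R))

noncomputable def s986 (R : VR) (j i : ℕ) : Bool :=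
  K.bor (s984 R j i) (s985 R j i)

theorem e986 (R : VR) : B2 R (v986 R) (s986 R) :=
  B.or (e984 R) (e985 R)

noncomputable def v987 (R : VR) : ℕ :=
  Nat.lor (Nat.lor (Nat.sub (VR.o2 R) (Nat.lor (Nat.shiftRight (Nat.land (Nat.add (v972 R) (VR.k2
    R)) (VR.h2 R)) (nat_lit 15)) (Nat.shiftRight (Nat.land (Nat.add (v979 R) (VR.k2 R)) (VR.h2 R))
    (nat_lit 15)))) (Nat.mul (v771 R) (VR.cr1 R))) (v773 R)

noncomputable def s987 (R : VR) (j i : ℕ) : Bool :=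
  K.bor (s986 R j i) (s773 R j i)

theorem e987 (R : VR) : B2 R (v987 R) (s987 R) :=
  B.or (e986 R) (e773 R)

noncomputable def s988 (R : VR) (i : ℕ) : ℕ :=
  tx (VR.NQ1T R) i

theorem e988 (R : VR) : L (VR.S R) (VR.NQ1T R) (s988 R) 32767 :=
  VR.NQ1_is R

noncomputable def s989 (R : VR) (i : ℕ) : ℕ :=
  tx (VR.NQ2T R) i

theorem e989 (R : VR) : L (VR.S R) (VR.NQ2T R) (s989 R) 32767 :=
  VR.NQ2_is R

noncomputable def v990 (R : VR) : ℕ :=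
  Nat.mul (VR.NQ1T R) (VR.cr1 R)

noncomputable def s990 (R : VR) (j i : ℕ) : ℕ :=
  (s988 R i)

theorem e990 (R : VR) : L2 R (v990 R) (s990 R) 32767 :=
  L2.rep (e988 R)

noncomputable def v991 (R : VR) : ℕ :=
  Nat.land (Nat.mul (VR.NQ1T R) (VR.cr1 R)) (v920 R)

noncomputable def s991 (R : VR) (j i : ℕ) : ℕ :=
  Nat.land (s990 R j i) (s920 R j i)

theorem e991 (R : VR) : L2 R (v991 R) (s991 R) 32767 :=
  L.land (e990 R) (e920 R)

noncomputable def v992 (R : VR) : ℕ :=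
  Nat.shiftRight (Nat.land (Nat.sub (VR.h2 R) (v991 R)) (VR.h2 R)) (nat_lit 15)

noncomputable def s992 (R : VR) (j i : ℕ) : Bool :=
  Nat.beq (s991 R j i) (nat_lit 0)

theorem e992 (R : VR) : B2 R (v992 R) (s992 R) :=
  L.ez (VR.h2e R) (e991 R)

noncomputable def v993 (R : VR) : ℕ :=
  Nat.shiftRight (Nat.land (Nat.add (v991 R) (VR.k2 R)) (VR.h2 R)) (nat_lit 15)

noncomputable def s993 (R : VR) (j i : ℕ) : Bool :=
  K.bnot (Nat.beq (s991 R j i) (nat_lit 0))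

theorem e993 (R : VR) : B2 R (v993 R) (s993 R) :=
  L.nz (VR.h2e R) (VR.k2e R) (e991 R)

noncomputable def v994 (R : VR) : ℕ :=
  Nat.mul (VR.NQ2T R) (VR.cr1 R)

noncomputable def s994 (R : VR) (j i : ℕ) : ℕ :=
  (s989 R i)

theorem e994 (R : VR) : L2 R (v994 R) (s994 R) 32767 :=
  L2.rep (e989 R)

noncomputable def v995 (R : VR) : ℕ :=
  Nat.land (Nat.mul (VR.NQ2T R) (VR.cr1 R)) (v954 R)

noncomputable def s995 (R : VR) (j i : ℕ) : ℕ :=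
  Nat.land (s994 R j i) (s954 R j i)

theorem e995 (R : VR) : L2 R (v995 R) (s995 R) 32767 :=
  L.land (e994 R) (e954 R)

noncomputable def v996 (R : VR) : ℕ :=
  Nat.shiftRight (Nat.land (Nat.sub (VR.h2 R) (v995 R)) (VR.h2 R)) (nat_lit 15)

noncomputable def s996 (R : VR) (j i : ℕ) : Bool :=
  Nat.beq (s995 R j i) (nat_lit 0)

theorem e996 (R : VR) : B2 R (v996 R) (s996 R) :=
  L.ez (VR.h2e R) (e995 R)

noncomputable def v997 (R : VR) : ℕ :=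
  Nat.shiftRight (Nat.land (Nat.add (v995 R) (VR.k2 R)) (VR.h2 R)) (nat_lit 15)

noncomputable def s997 (R : VR) (j i : ℕ) : Bool :=
  K.bnot (Nat.beq (s995 R j i) (nat_lit 0))

theorem e997 (R : VR) : B2 R (v997 R) (s997 R) :=
  L.nz (VR.h2e R) (VR.k2e R) (e995 R)

noncomputable def v998 (R : VR) : ℕ :=
  Nat.lor (Nat.shiftRight (Nat.land (Nat.add (v991 R) (VR.k2 R)) (VR.h2 R)) (nat_lit 15))
    (Nat.shiftRight (Nat.land (Nat.add (v995 R) (VR.k2 R)) (VR.h2 R)) (nat_lit 15))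

noncomputable def s998 (R : VR) (j i : ℕ) : Bool :=
  K.bor (s993 R j i) (s997 R j i)

theorem e998 (R : VR) : B2 R (v998 R) (s998 R) :=
  B.or (e993 R) (e997 R)

noncomputable def s999 (R : VR) (j i : ℕ) : Bool :=
  V2.mk R (s988 R i) (s989 R i) j

theorem e999 (R : VR) : B2 R (v998 R) (s999 R) :=
  e998 R

noncomputable def s1000 (R : VR) (j i : ℕ) : Bool :=
  V2.nqp R i j

theorem e1000 (R : VR) : B2 R (v998 R) (s1000 R) :=
  e999 R

noncomputable def v1001 (R : VR) : ℕ :=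
  Nat.lor (Nat.lor (Nat.lor (Nat.sub (VR.o2 R) (Nat.lor (Nat.shiftRight (Nat.land (Nat.add (v972
    R) (VR.k2 R)) (VR.h2 R)) (nat_lit 15)) (Nat.shiftRight (Nat.land (Nat.add (v979 R) (VR.k2 R))
    (VR.h2 R)) (nat_lit 15)))) (Nat.mul (v771 R) (VR.cr1 R))) (v773 R)) (Nat.lor (Nat.shiftRight
    (Nat.land (Nat.add (v991 R) (VR.k2 R)) (VR.h2 R)) (nat_lit 15)) (Nat.shiftRight (Nat.land
    (Nat.add (v995 R) (VR.k2 R)) (VR.h2 R)) (nat_lit 15)))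

noncomputable def s1001 (R : VR) (j i : ℕ) : Bool :=
  K.bor (s987 R j i) (s1000 R j i)

theorem e1001 (R : VR) : B2 R (v1001 R) (s1001 R) :=
  B.or (e987 R) (e1000 R)

noncomputable def v1002 (R : VR) : ℕ :=
  Nat.shiftRight (Nat.land (Nat.sub (VR.h1 R) (Nat.mod (Nat.land (Nat.sub (VR.o2 R) (v1001 R)) (mM
    (Nat.mul (v868 R) (VR.S R)))) (VR.m1 R))) (VR.h1 R)) (nat_lit 15)

noncomputable def s1002 (R : VR) (i : ℕ) : Bool :=
  K.allN (s868 R) (fun j => (s1001 R j i))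

theorem e1002 (R : VR) : B (VR.S R) (v1002 R) (s1002 R) :=
  B.all (e1001 R) (VR.leN R (b868 R) (by decide))

noncomputable def s1003 (R : VR) (i : ℕ) : Bool :=
  K.allN (s868 R) (fun (x35 : ℕ) => (K.bor (K.bor (K.bor (K.bnot (V2.na R i x35)) (Nat.ble
    (Nat.succ i) (FC7.OD.x (VR.O R)))) (Nat.ble (Nat.succ x35) (FC7.OD.x (VR.O R)))) (V2.nqp R i
    x35)))

theorem e1003 (R : VR) : B (VR.S R) (v1002 R) (s1003 R) :=
  e1002 R

noncomputable def v1004 (R : VR) : Bool :=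
  Nat.beq (Nat.land (Nat.sub (VR.o1 R) (Nat.shiftRight (Nat.land (Nat.sub (VR.h1 R) (Nat.mod
    (Nat.land (Nat.sub (VR.o2 R) (v1001 R)) (mM (Nat.mul (v868 R) (VR.S R)))) (VR.m1 R))) (VR.h1
    R)) (nat_lit 15))) (mM (v868 R))) (nat_lit 0)

noncomputable def s1004 (R : VR) : Bool :=
  K.allN (s868 R) (s1003 R)

theorem e1004 (R : VR) : (v1004 R) = s1004 R :=
  all0 (e1003 R) (VR.leN R (b868 R) (by decide))

noncomputable def s1005 (R : VR) : Bool :=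
  K.allN (s868 R) (fun (x36 : ℕ) => (K.allN (FC7.OD.m (VR.O R)) (fun (x37 : ℕ) => (K.bor (K.bor
    (K.bor (K.bnot (V2.na R x36 x37)) (Nat.ble (Nat.succ x36) (FC7.OD.x (VR.O R)))) (Nat.ble
    (Nat.succ x37) (FC7.OD.x (VR.O R)))) (V2.nqp R x36 x37)))))

theorem e1005 (R : VR) : (v1004 R) = s1005 R :=
  e1004 R

noncomputable def v1006 (R : VR) : Bool :=
  K.band (v969 R) (Nat.beq (Nat.land (Nat.sub (VR.o1 R) (Nat.shiftRight (Nat.land (Nat.sub (VR.h1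
    R) (Nat.mod (Nat.land (Nat.sub (VR.o2 R) (v1001 R)) (mM (Nat.mul (v868 R) (VR.S R)))) (VR.m1
    R))) (VR.h1 R)) (nat_lit 15))) (mM (v868 R))) (nat_lit 0))

noncomputable def s1006 (R : VR) : Bool :=
  K.band (s969 R) (s1005 R)

theorem e1006 (R : VR) : (v1006 R) = s1006 R :=
  congrArg₂ K.band (e969 R) (e1005 R)

noncomputable def s1007 (R : VR) : Bool :=
  V2.chkA R

theorem e1007 (R : VR) : (v1006 R) = s1007 R :=
  e1006 R

noncomputable def c_chkA (R : VR) : Bool :=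
  (K.band (v969 R) (Nat.beq (Nat.land (Nat.sub (VR.o1 R) (Nat.shiftRight (Nat.land (Nat.sub (VR.h1
    R) (Nat.mod (Nat.land (Nat.sub (VR.o2 R) (v1001 R)) (mM (Nat.mul (v868 R) (VR.S R)))) (VR.m1
    R))) (VR.h1 R)) (nat_lit 15))) (mM (v868 R))) (nat_lit 0)))

theorem c_chkA_eq (R : VR) : c_chkA R = (V2.chkA R) :=
  e1007 R

noncomputable def s1008 (R : VR) (i : ℕ) : Bool :=
  tf (VR.ukT R) i

theorem e1008 (R : VR) : B (VR.S R) (VR.ukT R) (s1008 R) :=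
  VR.uk_is R

noncomputable def s1009 (R : VR) (i : ℕ) : ℕ :=
  tx (VR.uT R) i

theorem e1009 (R : VR) : L (VR.S R) (VR.uT R) (s1009 R) 15 :=
  VR.u_is R

noncomputable def v1010 (R : VR) : ℕ :=
  Nat.shiftRight (Nat.land (Nat.sub (VR.h1 R) (VR.uT R)) (VR.h1 R)) (nat_lit 15)

noncomputable def s1010 (R : VR) (i : ℕ) : Bool :=
  Nat.beq (s1009 R i) (nat_lit 0)

theorem e1010 (R : VR) : B (VR.S R) (v1010 R) (s1010 R) :=
  L.ez (VR.h1e R) (e1009 R)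

noncomputable def v1011 (R : VR) : ℕ :=
  Nat.sub (VR.o1 R) (v437 R)

noncomputable def s1011 (R : VR) (i : ℕ) : Bool :=
  K.bnot (s437 R i)

theorem e1011 (R : VR) : B (VR.S R) (v1011 R) (s1011 R) :=
  B.not (VR.o1e R) (e437 R)

noncomputable def v1012 (R : VR) : ℕ :=
  Nat.mod (Nat.land (v441 R) (v436 R)) (VR.m1 R)

noncomputable def s1012 (R : VR) (i : ℕ) : Bool :=
  tf (VR.rlT R) (s440 R i)

theorem e1012 (R : VR) : B (VR.S R) (v1012 R) (s1012 R) :=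
  B.gat (e440 R) (VR.rl_is R) (VR.rl_lt R)

noncomputable def v1013 (R : VR) : ℕ :=
  srM (VR.N R) (VR.S R) (VR.o1 R) (VR.ltT R)

noncomputable def v1014 (R : VR) : ℕ :=
  Nat.mod (Nat.land (v418 R) (v1013 R)) (VR.m1 R)

noncomputable def s1014 (R : VR) (i : ℕ) : ℕ :=
  tx (VR.ltT R) (s247 R i)

theorem e1014 (R : VR) : L (VR.S R) (v1014 R) (s1014 R) 32767 :=
  L.gat (e247 R) (VR.lt_is R) (VR.lt_lt R) (VR.lt_le R)

noncomputable def v1015 (R : VR) : ℕ :=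
  Nat.land (Nat.shiftRight (v1014 R) (nat_lit 2)) (Nat.mul (VR.o1 R) (nat_lit 3))

noncomputable def s1015 (R : VR) (i : ℕ) : ℕ :=
  Nat.mod (Nat.div (s1014 R i) (nat_lit 4)) (nat_lit 4)

theorem e1015 (R : VR) : L (VR.S R) (v1015 R) (s1015 R) 3 :=
  L.fld (VR.o1e R) (e1014 R) 2 2 (by decide) (by decide)

noncomputable def s1016 (R : VR) (i : ℕ) : ℕ :=
  K.wb (s1014 R i)

theorem e1016 (R : VR) : L (VR.S R) (v1015 R) (s1016 R) 3 :=
  e1015 R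

noncomputable def v1017 (R : VR) : ℕ :=
  Nat.mul (VR.o1 R) (v242 R)

noncomputable def s1017 (R : VR) (i : ℕ) : ℕ :=
  (s242 R)

theorem e1017 (R : VR) : L (VR.S R) (v1017 R) (s1017 R) 3 :=
  L.scl (VR.o1e R) (e242 R) (le_of_eq (rfl : s242 R = (nat_lit 3))) (by decide)

noncomputable def v1018 (R : VR) : ℕ :=
  Nat.shiftRight (Nat.land (Nat.sub (VR.h1 R) (Nat.xor (v1015 R) (v1017 R))) (VR.h1 R)) (nat_lit
    15)

noncomputable def s1018 (R : VR) (i : ℕ) : Bool :=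
  Nat.beq (s1016 R i) (s1017 R i)

theorem e1018 (R : VR) : B (VR.S R) (v1018 R) (s1018 R) :=
  L.beq (VR.h1e R) (e1016 R) (e1017 R)

noncomputable def v1019 (R : VR) : ℕ :=
  Nat.land (Nat.shiftRight (v1014 R) (nat_lit 4)) (Nat.mul (VR.o1 R) (nat_lit 3))

noncomputable def s1019 (R : VR) (i : ℕ) : ℕ :=
  Nat.mod (Nat.div (s1014 R i) (nat_lit 16)) (nat_lit 4)

theorem e1019 (R : VR) : L (VR.S R) (v1019 R) (s1019 R) 3 :=
  L.fld (VR.o1e R) (e1014 R) 4 2 (by decide) (by decide)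

noncomputable def s1020 (R : VR) (i : ℕ) : ℕ :=
  K.wc (s1014 R i)

theorem e1020 (R : VR) : L (VR.S R) (v1019 R) (s1020 R) 3 :=
  e1019 R

noncomputable def v1021 (R : VR) : ℕ :=
  Nat.shiftRight (Nat.land (Nat.sub (VR.h1 R) (Nat.xor (Nat.land (Nat.shiftRight (v1014 R)
    (nat_lit 4)) (Nat.mul (VR.o1 R) (nat_lit 3))) (v1017 R))) (VR.h1 R)) (nat_lit 15)

noncomputable def s1021 (R : VR) (i : ℕ) : Bool :=
  Nat.beq (s1020 R i) (s1017 R i)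

theorem e1021 (R : VR) : B (VR.S R) (v1021 R) (s1021 R) :=
  L.beq (VR.h1e R) (e1020 R) (e1017 R)

noncomputable def v1022 (R : VR) : ℕ :=
  Nat.land (v1018 R) (Nat.shiftRight (Nat.land (Nat.sub (VR.h1 R) (Nat.xor (Nat.land
    (Nat.shiftRight (v1014 R) (nat_lit 4)) (Nat.mul (VR.o1 R) (nat_lit 3))) (v1017 R))) (VR.h1 R))
    (nat_lit 15))

noncomputable def s1022 (R : VR) (i : ℕ) : Bool :=
  K.band (s1018 R i) (s1021 R i)

theorem e1022 (R : VR) : B (VR.S R) (v1022 R) (s1022 R) :=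
  B.and (e1018 R) (e1021 R)

noncomputable def s1023 (R : VR) (i : ℕ) : Bool :=
  K.uo (s1014 R i)

theorem e1023 (R : VR) : B (VR.S R) (v1022 R) (s1023 R) :=
  e1022 R

noncomputable def v1024 (R : VR) : ℕ :=
  Nat.sub (VR.o1 R) (Nat.land (v1018 R) (Nat.shiftRight (Nat.land (Nat.sub (VR.h1 R) (Nat.xor
    (Nat.land (Nat.shiftRight (v1014 R) (nat_lit 4)) (Nat.mul (VR.o1 R) (nat_lit 3))) (v1017 R)))
    (VR.h1 R)) (nat_lit 15)))

noncomputable def s1024 (R : VR) (i : ℕ) : Bool :=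
  K.bnot (s1023 R i)

theorem e1024 (R : VR) : B (VR.S R) (v1024 R) (s1024 R) :=
  B.not (VR.o1e R) (e1023 R)

noncomputable def v1025 (R : VR) : ℕ :=
  Nat.sub (VR.o1 R) (v1012 R)

noncomputable def s1025 (R : VR) (i : ℕ) : Bool :=
  K.bnot (s1012 R i)

theorem e1025 (R : VR) : B (VR.S R) (v1025 R) (s1025 R) :=
  B.not (VR.o1e R) (e1012 R)

noncomputable def v1026 (R : VR) : ℕ :=
  Nat.land (v437 R) (Nat.sub (VR.o1 R) (v1012 R))

noncomputable def s1026 (R : VR) (i : ℕ) : Bool :=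
  K.band (s437 R i) (s1025 R i)

theorem e1026 (R : VR) : B (VR.S R) (v1026 R) (s1026 R) :=
  B.and (e437 R) (e1025 R)

noncomputable def v1027 (R : VR) : ℕ :=
  Nat.mod (Nat.land (v441 R) (v146 R)) (VR.m1 R)

noncomputable def s1027 (R : VR) (i : ℕ) : ℕ :=
  tx (VR.piT R) (s440 R i)

theorem e1027 (R : VR) : L (VR.S R) (v1027 R) (s1027 R) 255 :=
  L.gat (e440 R) (VR.pi_is R) (VR.pi_lt R) (VR.pi_le R)

noncomputable def v1028 (R : VR) : ℕ :=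
  Nat.shiftRight (Nat.land (Nat.sub (VR.h1 R) (Nat.xor (v1027 R) (v440 R))) (VR.h1 R)) (nat_lit
    15)

noncomputable def s1028 (R : VR) (i : ℕ) : Bool :=
  Nat.beq (s1027 R i) (s440 R i)

theorem e1028 (R : VR) : B (VR.S R) (v1028 R) (s1028 R) :=
  L.beq (VR.h1e R) (e1027 R) (e440 R)

noncomputable def v1029 (R : VR) : ℕ :=
  Nat.sub (VR.o1 R) (Nat.shiftRight (Nat.land (Nat.sub (VR.h1 R) (Nat.xor (v1027 R) (v440 R)))
    (VR.h1 R)) (nat_lit 15))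

noncomputable def s1029 (R : VR) (i : ℕ) : Bool :=
  K.bnot (s1028 R i)

theorem e1029 (R : VR) : B (VR.S R) (v1029 R) (s1029 R) :=
  B.not (VR.o1e R) (e1028 R)

noncomputable def v1030 (R : VR) : ℕ :=
  Nat.land (Nat.land (v437 R) (Nat.sub (VR.o1 R) (v1012 R))) (Nat.sub (VR.o1 R) (Nat.shiftRight
    (Nat.land (Nat.sub (VR.h1 R) (Nat.xor (v1027 R) (v440 R))) (VR.h1 R)) (nat_lit 15)))

noncomputable def s1030 (R : VR) (i : ℕ) : Bool :=
  K.band (s1026 R i) (s1029 R i)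

theorem e1030 (R : VR) : B (VR.S R) (v1030 R) (s1030 R) :=
  B.and (e1026 R) (e1029 R)

noncomputable def v1031 (R : VR) : ℕ :=
  gmk (VR.h2 R) (VR.J R) (Nat.mul (v1027 R) (VR.cr1 R))

noncomputable def v1032 (R : VR) : ℕ :=
  Nat.mod (Nat.land (v1031 R) (v129 R)) (VR.m1 R)

noncomputable def s1032 (R : VR) (i : ℕ) : ℕ :=
  tx (VR.caT R) (s1027 R i)

theorem e1032 (R : VR) : L (VR.S R) (v1032 R) (s1032 R) 255 :=
  L.gat (e1027 R) (VR.ca_is R) (VR.ca_lt R) (VR.ca_le R)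

noncomputable def v1033 (R : VR) : ℕ :=
  Nat.shiftRight (Nat.land (Nat.sub (Nat.add (v625 R) (VR.k1 R)) (v1032 R)) (VR.h1 R)) (nat_lit
    15)

noncomputable def s1033 (R : VR) (i : ℕ) : Bool :=
  Nat.ble (Nat.succ (s1032 R i)) (s625 R i)

theorem e1033 (R : VR) : B (VR.S R) (v1033 R) (s1033 R) :=
  L.blt (VR.h1e R) (VR.k1e R) (e1032 R) (e625 R)

noncomputable def v1034 (R : VR) : ℕ :=
  Nat.sub (VR.o1 R) (Nat.shiftRight (Nat.land (Nat.sub (Nat.add (v625 R) (VR.k1 R)) (v1032 R))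
    (VR.h1 R)) (nat_lit 15))

noncomputable def s1034 (R : VR) (i : ℕ) : Bool :=
  K.bnot (s1033 R i)

theorem e1034 (R : VR) : B (VR.S R) (v1034 R) (s1034 R) :=
  B.not (VR.o1e R) (e1033 R)

noncomputable def v1035 (R : VR) : ℕ :=
  Nat.land (Nat.land (Nat.land (v437 R) (Nat.sub (VR.o1 R) (v1012 R))) (Nat.sub (VR.o1 R)
    (Nat.shiftRight (Nat.land (Nat.sub (VR.h1 R) (Nat.xor (v1027 R) (v440 R))) (VR.h1 R)) (nat_lit
    15)))) (Nat.sub (VR.o1 R) (Nat.shiftRight (Nat.land (Nat.sub (Nat.add (v625 R) (VR.k1 R))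
    (v1032 R)) (VR.h1 R)) (nat_lit 15)))

noncomputable def s1035 (R : VR) (i : ℕ) : Bool :=
  K.band (s1030 R i) (s1034 R i)

theorem e1035 (R : VR) : B (VR.S R) (v1035 R) (s1035 R) :=
  B.and (e1030 R) (e1034 R)

noncomputable def v1036 (R : VR) : ℕ :=
  gmk (VR.h2 R) (VR.J R) (Nat.mul (v1032 R) (VR.cr1 R))

noncomputable def v1037 (R : VR) : ℕ :=
  Nat.mod (Nat.land (gmk (VR.h2 R) (VR.J R) (Nat.mul (v1032 R) (VR.cr1 R))) (v133 R)) (VR.m1 R)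

noncomputable def s1037 (R : VR) (i : ℕ) : ℕ :=
  tx (VR.zmT R) (s1032 R i)

theorem e1037 (R : VR) : L (VR.S R) (v1037 R) (s1037 R) 255 :=
  L.gat (e1032 R) (VR.zm_is R) (VR.zm_lt R) (VR.zm_le R)

noncomputable def v1038 (R : VR) : ℕ :=
  Nat.shiftRight (Nat.land (Nat.sub (VR.h1 R) (Nat.xor (Nat.mod (Nat.land (gmk (VR.h2 R) (VR.J R)
    (Nat.mul (v1032 R) (VR.cr1 R))) (v133 R)) (VR.m1 R)) (v136 R))) (VR.h1 R)) (nat_lit 15)

noncomputable def s1038 (R : VR) (i : ℕ) : Bool :=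
  Nat.beq (s1037 R i) (s136 R i)

theorem e1038 (R : VR) : B (VR.S R) (v1038 R) (s1038 R) :=
  L.beq (VR.h1e R) (e1037 R) (e136 R)

noncomputable def v1039 (R : VR) : ℕ :=
  Nat.land (Nat.land (Nat.land (Nat.land (v437 R) (Nat.sub (VR.o1 R) (v1012 R))) (Nat.sub (VR.o1
    R) (Nat.shiftRight (Nat.land (Nat.sub (VR.h1 R) (Nat.xor (v1027 R) (v440 R))) (VR.h1 R))
    (nat_lit 15)))) (Nat.sub (VR.o1 R) (Nat.shiftRight (Nat.land (Nat.sub (Nat.add (v625 R) (VR.k1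
    R)) (v1032 R)) (VR.h1 R)) (nat_lit 15)))) (Nat.shiftRight (Nat.land (Nat.sub (VR.h1 R)
    (Nat.xor (Nat.mod (Nat.land (gmk (VR.h2 R) (VR.J R) (Nat.mul (v1032 R) (VR.cr1 R))) (v133 R))
    (VR.m1 R)) (v136 R))) (VR.h1 R)) (nat_lit 15))

noncomputable def s1039 (R : VR) (i : ℕ) : Bool :=
  K.band (s1035 R i) (s1038 R i)

theorem e1039 (R : VR) : B (VR.S R) (v1039 R) (s1039 R) :=
  B.and (e1035 R) (e1038 R)

noncomputable def v1040 (R : VR) : ℕ :=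
  Nat.mod (Nat.land (v1031 R) (v151 R)) (VR.m1 R)

noncomputable def s1040 (R : VR) (i : ℕ) : ℕ :=
  tx (VR.rhiT R) (s1027 R i)

theorem e1040 (R : VR) : L (VR.S R) (v1040 R) (s1040 R) 255 :=
  L.gat (e1027 R) (VR.rhi_is R) (VR.rhi_lt R) (VR.rhi_le R)

noncomputable def v1041 (R : VR) : ℕ :=
  gmk (VR.h2 R) (VR.J R) (Nat.mul (v1040 R) (VR.cr1 R))

noncomputable def v1042 (R : VR) : ℕ :=
  Nat.mod (Nat.land (v1041 R) (v146 R)) (VR.m1 R)

noncomputable def s1042 (R : VR) (i : ℕ) : ℕ :=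
  tx (VR.piT R) (s1040 R i)

theorem e1042 (R : VR) : L (VR.S R) (v1042 R) (s1042 R) 255 :=
  L.gat (e1040 R) (VR.pi_is R) (VR.pi_lt R) (VR.pi_le R)

noncomputable def v1043 (R : VR) : ℕ :=
  Nat.shiftRight (Nat.land (Nat.sub (VR.h1 R) (Nat.xor (v1042 R) (v1040 R))) (VR.h1 R)) (nat_lit
    15)

noncomputable def s1043 (R : VR) (i : ℕ) : Bool :=
  Nat.beq (s1042 R i) (s1040 R i)

theorem e1043 (R : VR) : B (VR.S R) (v1043 R) (s1043 R) :=
  L.beq (VR.h1e R) (e1042 R) (e1040 R)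

noncomputable def v1044 (R : VR) : ℕ :=
  Nat.sub (VR.o1 R) (Nat.shiftRight (Nat.land (Nat.sub (VR.h1 R) (Nat.xor (v1042 R) (v1040 R)))
    (VR.h1 R)) (nat_lit 15))

noncomputable def s1044 (R : VR) (i : ℕ) : Bool :=
  K.bnot (s1043 R i)

theorem e1044 (R : VR) : B (VR.S R) (v1044 R) (s1044 R) :=
  B.not (VR.o1e R) (e1043 R)

noncomputable def v1045 (R : VR) : ℕ :=
  Nat.land (v1039 R) (Nat.sub (VR.o1 R) (Nat.shiftRight (Nat.land (Nat.sub (VR.h1 R) (Nat.xor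
    (v1042 R) (v1040 R))) (VR.h1 R)) (nat_lit 15)))

noncomputable def s1045 (R : VR) (i : ℕ) : Bool :=
  K.band (s1039 R i) (s1044 R i)

theorem e1045 (R : VR) : B (VR.S R) (v1045 R) (s1045 R) :=
  B.and (e1039 R) (e1044 R)

noncomputable def v1046 (R : VR) : ℕ :=
  Nat.mod (Nat.land (v1041 R) (v151 R)) (VR.m1 R)

noncomputable def s1046 (R : VR) (i : ℕ) : ℕ :=
  tx (VR.rhiT R) (s1040 R i)

theorem e1046 (R : VR) : L (VR.S R) (v1046 R) (s1046 R) 255 :=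
  L.gat (e1040 R) (VR.rhi_is R) (VR.rhi_lt R) (VR.rhi_le R)

noncomputable def v1047 (R : VR) : ℕ :=
  gmk (VR.h2 R) (VR.J R) (Nat.mul (v1046 R) (VR.cr1 R))

noncomputable def v1048 (R : VR) : ℕ :=
  Nat.mod (Nat.land (gmk (VR.h2 R) (VR.J R) (Nat.mul (v1046 R) (VR.cr1 R))) (v146 R)) (VR.m1 R)

noncomputable def s1048 (R : VR) (i : ℕ) : ℕ :=
  tx (VR.piT R) (s1046 R i)

theorem e1048 (R : VR) : L (VR.S R) (v1048 R) (s1048 R) 255 :=
  L.gat (e1046 R) (VR.pi_is R) (VR.pi_lt R) (VR.pi_le R)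

noncomputable def v1049 (R : VR) : ℕ :=
  Nat.shiftRight (Nat.land (Nat.sub (VR.h1 R) (Nat.xor (v1048 R) (v1046 R))) (VR.h1 R)) (nat_lit
    15)

noncomputable def s1049 (R : VR) (i : ℕ) : Bool :=
  Nat.beq (s1048 R i) (s1046 R i)

theorem e1049 (R : VR) : B (VR.S R) (v1049 R) (s1049 R) :=
  L.beq (VR.h1e R) (e1048 R) (e1046 R)

noncomputable def v1050 (R : VR) : ℕ :=
  Nat.sub (VR.o1 R) (Nat.shiftRight (Nat.land (Nat.sub (VR.h1 R) (Nat.xor (v1048 R) (v1046 R)))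
    (VR.h1 R)) (nat_lit 15))

noncomputable def s1050 (R : VR) (i : ℕ) : Bool :=
  K.bnot (s1049 R i)

theorem e1050 (R : VR) : B (VR.S R) (v1050 R) (s1050 R) :=
  B.not (VR.o1e R) (e1049 R)

noncomputable def v1051 (R : VR) : ℕ :=
  Nat.land (Nat.land (v1039 R) (Nat.sub (VR.o1 R) (Nat.shiftRight (Nat.land (Nat.sub (VR.h1 R)
    (Nat.xor (v1042 R) (v1040 R))) (VR.h1 R)) (nat_lit 15)))) (Nat.sub (VR.o1 R) (Nat.shiftRight
    (Nat.land (Nat.sub (VR.h1 R) (Nat.xor (v1048 R) (v1046 R))) (VR.h1 R)) (nat_lit 15)))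

noncomputable def s1051 (R : VR) (i : ℕ) : Bool :=
  K.band (s1045 R i) (s1050 R i)

theorem e1051 (R : VR) : B (VR.S R) (v1051 R) (s1051 R) :=
  B.and (e1045 R) (e1050 R)

noncomputable def s1052 (R : VR) (i : ℕ) : Bool :=
  K.Wt_clk (FC7.WF.toWt (VR.WF R)) (s247 R i)

theorem e1052 (R : VR) : B (VR.S R) (v1051 R) (s1052 R) :=
  e1051 R

noncomputable def v1053 (R : VR) : ℕ :=
  Nat.shiftRight (Nat.land (Nat.sub (VR.h1 R) (v1015 R)) (VR.h1 R)) (nat_lit 15)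

noncomputable def s1053 (R : VR) (i : ℕ) : Bool :=
  Nat.beq (s1016 R i) (nat_lit 0)

theorem e1053 (R : VR) : B (VR.S R) (v1053 R) (s1053 R) :=
  L.ez (VR.h1e R) (e1016 R)

noncomputable def v1054 (R : VR) : ℕ :=
  Nat.shiftRight (Nat.land (Nat.add (v1015 R) (VR.k1 R)) (VR.h1 R)) (nat_lit 15)

noncomputable def s1054 (R : VR) (i : ℕ) : Bool :=
  K.bnot (Nat.beq (s1016 R i) (nat_lit 0))

theorem e1054 (R : VR) : B (VR.S R) (v1054 R) (s1054 R) :=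
  L.nz (VR.h1e R) (VR.k1e R) (e1016 R)

noncomputable def v1055 (R : VR) : ℕ :=
  Nat.land (v1051 R) (v1054 R)

noncomputable def s1055 (R : VR) (i : ℕ) : Bool :=
  K.band (s1052 R i) (s1054 R i)

theorem e1055 (R : VR) : B (VR.S R) (v1055 R) (s1055 R) :=
  B.and (e1052 R) (e1054 R)

noncomputable def v1056 (R : VR) : ℕ :=
  Nat.lor (v1018 R) (Nat.land (v1051 R) (v1054 R))

noncomputable def s1056 (R : VR) (i : ℕ) : Bool :=
  K.bor (s1018 R i) (s1055 R i)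

theorem e1056 (R : VR) : B (VR.S R) (v1056 R) (s1056 R) :=
  B.or (e1018 R) (e1055 R)

noncomputable def v1057 (R : VR) : ℕ :=
  Nat.xor (v1056 R) (Nat.land (Nat.xor (v1056 R) (v1024 R)) (v1012 R))

noncomputable def s1057 (R : VR) (i : ℕ) : Bool :=
  Bool.rec (motive := fun _ => Bool) (s1056 R i) (s1024 R i) (s1012 R i)

theorem e1057 (R : VR) : B (VR.S R) (v1057 R) (s1057 R) :=
  B.sel (e1012 R) (e1024 R) (e1056 R)

noncomputable def v1058 (R : VR) : ℕ :=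
  Nat.lor (v1011 R) (Nat.xor (v1056 R) (Nat.land (Nat.xor (v1056 R) (v1024 R)) (v1012 R)))

noncomputable def s1058 (R : VR) (i : ℕ) : Bool :=
  K.bor (s1011 R i) (s1057 R i)

theorem e1058 (R : VR) : B (VR.S R) (v1058 R) (s1058 R) :=
  B.or (e1011 R) (e1057 R)

noncomputable def v1059 (R : VR) : ℕ :=
  Nat.sub (VR.o1 R) (v453 R)

noncomputable def s1059 (R : VR) (i : ℕ) : Bool :=
  K.bnot (s453 R i)

theorem e1059 (R : VR) : B (VR.S R) (v1059 R) (s1059 R) :=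
  B.not (VR.o1e R) (e453 R)

noncomputable def v1060 (R : VR) : ℕ :=
  Nat.land (v437 R) (v465 R)

noncomputable def s1060 (R : VR) (i : ℕ) : Bool :=
  K.band (s437 R i) (s465 R i)

theorem e1060 (R : VR) : B (VR.S R) (v1060 R) (s1060 R) :=
  B.and (e437 R) (e465 R)

noncomputable def v1061 (R : VR) : ℕ :=
  Nat.mod (Nat.land (v455 R) (v1013 R)) (VR.m1 R)

noncomputable def s1061 (R : VR) (i : ℕ) : ℕ :=
  tx (VR.ltT R) (s454 R i)

theorem e1061 (R : VR) : L (VR.S R) (v1061 R) (s1061 R) 32767 :=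
  L.gat (e454 R) (VR.lt_is R) (VR.lt_lt R) (VR.lt_le R)

noncomputable def v1062 (R : VR) : ℕ :=
  Nat.land (Nat.shiftRight (v1061 R) (nat_lit 2)) (Nat.mul (VR.o1 R) (nat_lit 3))

noncomputable def s1062 (R : VR) (i : ℕ) : ℕ :=
  Nat.mod (Nat.div (s1061 R i) (nat_lit 4)) (nat_lit 4)

theorem e1062 (R : VR) : L (VR.S R) (v1062 R) (s1062 R) 3 :=
  L.fld (VR.o1e R) (e1061 R) 2 2 (by decide) (by decide)

noncomputable def s1063 (R : VR) (i : ℕ) : ℕ :=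
  K.wb (s1061 R i)

theorem e1063 (R : VR) : L (VR.S R) (v1062 R) (s1063 R) 3 :=
  e1062 R

noncomputable def v1064 (R : VR) : ℕ :=
  Nat.shiftRight (Nat.land (Nat.sub (VR.h1 R) (Nat.xor (Nat.land (Nat.shiftRight (v1061 R)
    (nat_lit 2)) (Nat.mul (VR.o1 R) (nat_lit 3))) (v1017 R))) (VR.h1 R)) (nat_lit 15)

noncomputable def s1064 (R : VR) (i : ℕ) : Bool :=
  Nat.beq (s1063 R i) (s1017 R i)

theorem e1064 (R : VR) : B (VR.S R) (v1064 R) (s1064 R) :=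
  L.beq (VR.h1e R) (e1063 R) (e1017 R)

noncomputable def v1065 (R : VR) : ℕ :=
  Nat.land (Nat.shiftRight (v1061 R) (nat_lit 4)) (Nat.mul (VR.o1 R) (nat_lit 3))

noncomputable def s1065 (R : VR) (i : ℕ) : ℕ :=
  Nat.mod (Nat.div (s1061 R i) (nat_lit 16)) (nat_lit 4)

theorem e1065 (R : VR) : L (VR.S R) (v1065 R) (s1065 R) 3 :=
  L.fld (VR.o1e R) (e1061 R) 4 2 (by decide) (by decide)

noncomputable def s1066 (R : VR) (i : ℕ) : ℕ :=
  K.wc (s1061 R i)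

theorem e1066 (R : VR) : L (VR.S R) (v1065 R) (s1066 R) 3 :=
  e1065 R

noncomputable def v1067 (R : VR) : ℕ :=
  Nat.shiftRight (Nat.land (Nat.sub (VR.h1 R) (Nat.xor (v1065 R) (v1017 R))) (VR.h1 R)) (nat_lit
    15)

noncomputable def s1067 (R : VR) (i : ℕ) : Bool :=
  Nat.beq (s1066 R i) (s1017 R i)

theorem e1067 (R : VR) : B (VR.S R) (v1067 R) (s1067 R) :=
  L.beq (VR.h1e R) (e1066 R) (e1017 R)

noncomputable def v1068 (R : VR) : ℕ :=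
  Nat.land (Nat.shiftRight (Nat.land (Nat.sub (VR.h1 R) (Nat.xor (Nat.land (Nat.shiftRight (v1061
    R) (nat_lit 2)) (Nat.mul (VR.o1 R) (nat_lit 3))) (v1017 R))) (VR.h1 R)) (nat_lit 15))
    (Nat.shiftRight (Nat.land (Nat.sub (VR.h1 R) (Nat.xor (v1065 R) (v1017 R))) (VR.h1 R))
    (nat_lit 15))

noncomputable def s1068 (R : VR) (i : ℕ) : Bool :=
  K.band (s1064 R i) (s1067 R i)

theorem e1068 (R : VR) : B (VR.S R) (v1068 R) (s1068 R) :=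
  B.and (e1064 R) (e1067 R)

noncomputable def s1069 (R : VR) (i : ℕ) : Bool :=
  K.uo (s1061 R i)

theorem e1069 (R : VR) : B (VR.S R) (v1068 R) (s1069 R) :=
  e1068 R

noncomputable def v1070 (R : VR) : ℕ :=
  Nat.land (v1060 R) (Nat.land (Nat.shiftRight (Nat.land (Nat.sub (VR.h1 R) (Nat.xor (Nat.land
    (Nat.shiftRight (v1061 R) (nat_lit 2)) (Nat.mul (VR.o1 R) (nat_lit 3))) (v1017 R))) (VR.h1 R))
    (nat_lit 15)) (Nat.shiftRight (Nat.land (Nat.sub (VR.h1 R) (Nat.xor (v1065 R) (v1017 R)))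
    (VR.h1 R)) (nat_lit 15)))

noncomputable def s1070 (R : VR) (i : ℕ) : Bool :=
  K.band (s1060 R i) (s1069 R i)

theorem e1070 (R : VR) : B (VR.S R) (v1070 R) (s1070 R) :=
  B.and (e1060 R) (e1069 R)

noncomputable def v1071 (R : VR) : ℕ :=
  Nat.sub (VR.o1 R) (Nat.land (v1060 R) (Nat.land (Nat.shiftRight (Nat.land (Nat.sub (VR.h1 R)
    (Nat.xor (Nat.land (Nat.shiftRight (v1061 R) (nat_lit 2)) (Nat.mul (VR.o1 R) (nat_lit 3)))
    (v1017 R))) (VR.h1 R)) (nat_lit 15)) (Nat.shiftRight (Nat.land (Nat.sub (VR.h1 R) (Nat.xor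
    (v1065 R) (v1017 R))) (VR.h1 R)) (nat_lit 15))))

noncomputable def s1071 (R : VR) (i : ℕ) : Bool :=
  K.bnot (s1070 R i)

theorem e1071 (R : VR) : B (VR.S R) (v1071 R) (s1071 R) :=
  B.not (VR.o1e R) (e1070 R)

noncomputable def v1072 (R : VR) : ℕ :=
  Nat.lor (Nat.sub (VR.o1 R) (v453 R)) (Nat.sub (VR.o1 R) (Nat.land (v1060 R) (Nat.land
    (Nat.shiftRight (Nat.land (Nat.sub (VR.h1 R) (Nat.xor (Nat.land (Nat.shiftRight (v1061 R)
    (nat_lit 2)) (Nat.mul (VR.o1 R) (nat_lit 3))) (v1017 R))) (VR.h1 R)) (nat_lit 15))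
    (Nat.shiftRight (Nat.land (Nat.sub (VR.h1 R) (Nat.xor (v1065 R) (v1017 R))) (VR.h1 R))
    (nat_lit 15)))))

noncomputable def s1072 (R : VR) (i : ℕ) : Bool :=
  K.bor (s1059 R i) (s1071 R i)

theorem e1072 (R : VR) : B (VR.S R) (v1072 R) (s1072 R) :=
  B.or (e1059 R) (e1071 R)

noncomputable def v1073 (R : VR) : ℕ :=
  Nat.xor (v1072 R) (Nat.land (Nat.xor (v1072 R) (Nat.lor (v1011 R) (Nat.xor (v1056 R) (Nat.land
    (Nat.xor (v1056 R) (v1024 R)) (v1012 R))))) (v417 R))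

noncomputable def s1073 (R : VR) (i : ℕ) : Bool :=
  Bool.rec (motive := fun _ => Bool) (s1072 R i) (s1058 R i) (s417 R i)

theorem e1073 (R : VR) : B (VR.S R) (v1073 R) (s1073 R) :=
  B.sel (e417 R) (e1058 R) (e1072 R)

noncomputable def s1074 (R : VR) (i : ℕ) : Bool :=
  K.Wt_kn (FC7.WF.toWt (VR.WF R)) (s244 R i) (s247 R i)

theorem e1074 (R : VR) : B (VR.S R) (v1073 R) (s1074 R) :=
  e1073 R

noncomputable def v1075 (R : VR) : ℕ :=
  Nat.mod (Nat.land (v455 R) (v151 R)) (VR.m1 R)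

noncomputable def s1075 (R : VR) (i : ℕ) : ℕ :=
  tx (VR.rhiT R) (s454 R i)

theorem e1075 (R : VR) : L (VR.S R) (v1075 R) (s1075 R) 255 :=
  L.gat (e454 R) (VR.rhi_is R) (VR.rhi_lt R) (VR.rhi_le R)

noncomputable def v1076 (R : VR) : ℕ :=
  Nat.xor (v1075 R) (Nat.land (Nat.xor (v1075 R) (v454 R)) (Nat.mul (v465 R) (nat_lit 32767)))

noncomputable def s1076 (R : VR) (i : ℕ) : ℕ :=
  Bool.rec (motive := fun _ => ℕ) (s1075 R i) (s454 R i) (s465 R i)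

theorem e1076 (R : VR) : L (VR.S R) (v1076 R) (s1076 R) 255 :=
  L.sel (e465 R) (e454 R) (e1075 R) (by decide) (by decide) (by decide)

noncomputable def s1077 (R : VR) (i : ℕ) : ℕ :=
  K.Wt_prv (FC7.WF.toWt (VR.WF R)) (s247 R i)

theorem e1077 (R : VR) : L (VR.S R) (v1076 R) (s1077 R) 255 :=
  e1076 R

noncomputable def v1078 (R : VR) : ℕ :=
  gmk (VR.h2 R) (VR.J R) (Nat.mul (v1076 R) (VR.cr1 R))

noncomputable def v1079 (R : VR) : ℕ :=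
  Nat.mod (Nat.land (gmk (VR.h2 R) (VR.J R) (Nat.mul (v1076 R) (VR.cr1 R))) (v1013 R)) (VR.m1 R)

noncomputable def s1079 (R : VR) (i : ℕ) : ℕ :=
  tx (VR.ltT R) (s1077 R i)

theorem e1079 (R : VR) : L (VR.S R) (v1079 R) (s1079 R) 32767 :=
  L.gat (e1077 R) (VR.lt_is R) (VR.lt_lt R) (VR.lt_le R)

noncomputable def v1080 (R : VR) : ℕ :=
  Nat.land (v1079 R) (Nat.mul (VR.o1 R) (nat_lit 3))

noncomputable def s1080 (R : VR) (i : ℕ) : ℕ :=
  Nat.mod (s1079 R i) (nat_lit 4)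

theorem e1080 (R : VR) : L (VR.S R) (v1080 R) (s1080 R) 3 :=
  L.fld0 (VR.o1e R) (e1079 R) 2 (by decide)

noncomputable def s1081 (R : VR) (i : ℕ) : ℕ :=
  K.wa (s1079 R i)

theorem e1081 (R : VR) : L (VR.S R) (v1080 R) (s1081 R) 3 :=
  e1080 R

noncomputable def v1082 (R : VR) : ℕ :=
  Nat.xor (v511 R) (Nat.land (Nat.xor (v511 R) (Nat.land (v1079 R) (Nat.mul (VR.o1 R) (nat_lit
    3)))) (Nat.mul (v437 R) (nat_lit 32767)))

noncomputable def s1082 (R : VR) (i : ℕ) : ℕ :=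
  Bool.rec (motive := fun _ => ℕ) (s511 R i) (s1081 R i) (s437 R i)

theorem e1082 (R : VR) : L (VR.S R) (v1082 R) (s1082 R) 3 :=
  L.sel (e437 R) (e1081 R) (e511 R) (by decide) (by decide) (by decide)

noncomputable def v1083 (R : VR) : ℕ :=
  Nat.land (v437 R) (v1012 R)

noncomputable def s1083 (R : VR) (i : ℕ) : Bool :=
  K.band (s437 R i) (s1012 R i)

theorem e1083 (R : VR) : B (VR.S R) (v1083 R) (s1083 R) :=
  B.and (e437 R) (e1012 R)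

noncomputable def v1084 (R : VR) : ℕ :=
  Nat.sub (VR.o1 R) (v1018 R)

noncomputable def s1084 (R : VR) (i : ℕ) : Bool :=
  K.bnot (s1018 R i)

theorem e1084 (R : VR) : B (VR.S R) (v1084 R) (s1084 R) :=
  B.not (VR.o1e R) (e1018 R)

noncomputable def v1085 (R : VR) : ℕ :=
  Nat.land (v1051 R) (v1084 R)

noncomputable def s1085 (R : VR) (i : ℕ) : Bool :=
  K.band (s1052 R i) (s1084 R i)

theorem e1085 (R : VR) : B (VR.S R) (v1085 R) (s1085 R) :=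
  B.and (e1052 R) (e1084 R)

noncomputable def v1086 (R : VR) : ℕ :=
  Nat.shiftRight (Nat.land (Nat.sub (VR.h1 R) (Nat.xor (v1015 R) (v359 R))) (VR.h1 R)) (nat_lit
    15)

noncomputable def s1086 (R : VR) (i : ℕ) : Bool :=
  Nat.beq (s1016 R i) (s359 R i)

theorem e1086 (R : VR) : B (VR.S R) (v1086 R) (s1086 R) :=
  L.beq (VR.h1e R) (e1016 R) (e359 R)

noncomputable def v1087 (R : VR) : ℕ :=
  Nat.shiftRight (Nat.land (Nat.sub (VR.h1 R) (Nat.xor (v1015 R) (v267 R))) (VR.h1 R)) (nat_lit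
    15)

noncomputable def s1087 (R : VR) (i : ℕ) : Bool :=
  Nat.beq (s1016 R i) (s267 R i)

theorem e1087 (R : VR) : B (VR.S R) (v1087 R) (s1087 R) :=
  L.beq (VR.h1e R) (e1016 R) (e267 R)

noncomputable def v1088 (R : VR) : ℕ :=
  Nat.xor (v511 R) (Nat.land (Nat.xor (v511 R) (v359 R)) (Nat.mul (Nat.shiftRight (Nat.land
    (Nat.sub (VR.h1 R) (Nat.xor (v1015 R) (v267 R))) (VR.h1 R)) (nat_lit 15)) (nat_lit 32767)))

noncomputable def s1088 (R : VR) (i : ℕ) : ℕ :=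
  Bool.rec (motive := fun _ => ℕ) (s511 R i) (s359 R i) (s1087 R i)

theorem e1088 (R : VR) : L (VR.S R) (v1088 R) (s1088 R) 2 :=
  L.sel (e1087 R) (e359 R) (e511 R) (by decide) (by decide) (by decide)

noncomputable def v1089 (R : VR) : ℕ :=
  Nat.xor (v1088 R) (Nat.land (Nat.xor (v1088 R) (v1017 R)) (Nat.mul (Nat.shiftRight (Nat.land
    (Nat.sub (VR.h1 R) (Nat.xor (v1015 R) (v359 R))) (VR.h1 R)) (nat_lit 15)) (nat_lit 32767)))

noncomputable def s1089 (R : VR) (i : ℕ) : ℕ :=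
  Bool.rec (motive := fun _ => ℕ) (s1088 R i) (s1017 R i) (s1086 R i)

theorem e1089 (R : VR) : L (VR.S R) (v1089 R) (s1089 R) 3 :=
  L.sel (e1086 R) (e1017 R) (e1088 R) (by decide) (by decide) (by decide)

noncomputable def v1090 (R : VR) : ℕ :=
  Nat.mod (Nat.land (v1031 R) (v146 R)) (VR.m1 R)

noncomputable def s1090 (R : VR) (i : ℕ) : ℕ :=
  tx (VR.piT R) (s1027 R i)

theorem e1090 (R : VR) : L (VR.S R) (v1090 R) (s1090 R) 255 :=
  L.gat (e1027 R) (VR.pi_is R) (VR.pi_lt R) (VR.pi_le R)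

noncomputable def v1091 (R : VR) : ℕ :=
  gmk (VR.h2 R) (VR.J R) (Nat.mul (Nat.mod (Nat.land (v1031 R) (v146 R)) (VR.m1 R)) (VR.cr1 R))

noncomputable def v1092 (R : VR) : ℕ :=
  Nat.mod (Nat.land (gmk (VR.h2 R) (VR.J R) (Nat.mul (Nat.mod (Nat.land (v1031 R) (v146 R)) (VR.m1
    R)) (VR.cr1 R))) (v151 R)) (VR.m1 R)

noncomputable def s1092 (R : VR) (i : ℕ) : ℕ :=
  tx (VR.rhiT R) (s1090 R i)

theorem e1092 (R : VR) : L (VR.S R) (v1092 R) (s1092 R) 255 :=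
  L.gat (e1090 R) (VR.rhi_is R) (VR.rhi_lt R) (VR.rhi_le R)

noncomputable def v1093 (R : VR) : ℕ :=
  gmk (VR.h2 R) (VR.J R) (Nat.mul (Nat.mod (Nat.land (gmk (VR.h2 R) (VR.J R) (Nat.mul (Nat.mod
    (Nat.land (v1031 R) (v146 R)) (VR.m1 R)) (VR.cr1 R))) (v151 R)) (VR.m1 R)) (VR.cr1 R))

noncomputable def v1094 (R : VR) : ℕ :=
  Nat.mod (Nat.land (gmk (VR.h2 R) (VR.J R) (Nat.mul (Nat.mod (Nat.land (gmk (VR.h2 R) (VR.J R)
    (Nat.mul (Nat.mod (Nat.land (v1031 R) (v146 R)) (VR.m1 R)) (VR.cr1 R))) (v151 R)) (VR.m1 R))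
    (VR.cr1 R))) (v1013 R)) (VR.m1 R)

noncomputable def s1094 (R : VR) (i : ℕ) : ℕ :=
  tx (VR.ltT R) (s1092 R i)

theorem e1094 (R : VR) : L (VR.S R) (v1094 R) (s1094 R) 32767 :=
  L.gat (e1092 R) (VR.lt_is R) (VR.lt_lt R) (VR.lt_le R)

noncomputable def v1095 (R : VR) : ℕ :=
  Nat.land (Nat.mod (Nat.land (gmk (VR.h2 R) (VR.J R) (Nat.mul (Nat.mod (Nat.land (gmk (VR.h2 R)
    (VR.J R) (Nat.mul (Nat.mod (Nat.land (v1031 R) (v146 R)) (VR.m1 R)) (VR.cr1 R))) (v151 R))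
    (VR.m1 R)) (VR.cr1 R))) (v1013 R)) (VR.m1 R)) (Nat.mul (VR.o1 R) (nat_lit 3))

noncomputable def s1095 (R : VR) (i : ℕ) : ℕ :=
  Nat.mod (s1094 R i) (nat_lit 4)

theorem e1095 (R : VR) : L (VR.S R) (v1095 R) (s1095 R) 3 :=
  L.fld0 (VR.o1e R) (e1094 R) 2 (by decide)

noncomputable def s1096 (R : VR) (i : ℕ) : ℕ :=
  K.wa (s1094 R i)

theorem e1096 (R : VR) : L (VR.S R) (v1095 R) (s1096 R) 3 :=
  e1095 R

noncomputable def s1097 (R : VR) (i : ℕ) : ℕ :=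
  K.Wt_cwa (FC7.WF.toWt (VR.WF R)) (s1027 R i)

theorem e1097 (R : VR) : L (VR.S R) (v1095 R) (s1097 R) 3 :=
  e1096 R

noncomputable def v1098 (R : VR) : ℕ :=
  gmk (VR.h2 R) (VR.J R) (Nat.mul (v1042 R) (VR.cr1 R))

noncomputable def v1099 (R : VR) : ℕ :=
  Nat.mod (Nat.land (gmk (VR.h2 R) (VR.J R) (Nat.mul (v1042 R) (VR.cr1 R))) (v151 R)) (VR.m1 R)

noncomputable def s1099 (R : VR) (i : ℕ) : ℕ :=
  tx (VR.rhiT R) (s1042 R i)

theorem e1099 (R : VR) : L (VR.S R) (v1099 R) (s1099 R) 255 :=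
  L.gat (e1042 R) (VR.rhi_is R) (VR.rhi_lt R) (VR.rhi_le R)

noncomputable def v1100 (R : VR) : ℕ :=
  gmk (VR.h2 R) (VR.J R) (Nat.mul (Nat.mod (Nat.land (gmk (VR.h2 R) (VR.J R) (Nat.mul (v1042 R)
    (VR.cr1 R))) (v151 R)) (VR.m1 R)) (VR.cr1 R))

noncomputable def v1101 (R : VR) : ℕ :=
  Nat.mod (Nat.land (gmk (VR.h2 R) (VR.J R) (Nat.mul (Nat.mod (Nat.land (gmk (VR.h2 R) (VR.J R)
    (Nat.mul (v1042 R) (VR.cr1 R))) (v151 R)) (VR.m1 R)) (VR.cr1 R))) (v1013 R)) (VR.m1 R)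

noncomputable def s1101 (R : VR) (i : ℕ) : ℕ :=
  tx (VR.ltT R) (s1099 R i)

theorem e1101 (R : VR) : L (VR.S R) (v1101 R) (s1101 R) 32767 :=
  L.gat (e1099 R) (VR.lt_is R) (VR.lt_lt R) (VR.lt_le R)

noncomputable def v1102 (R : VR) : ℕ :=
  Nat.land (Nat.mod (Nat.land (gmk (VR.h2 R) (VR.J R) (Nat.mul (Nat.mod (Nat.land (gmk (VR.h2 R)
    (VR.J R) (Nat.mul (v1042 R) (VR.cr1 R))) (v151 R)) (VR.m1 R)) (VR.cr1 R))) (v1013 R)) (VR.m1
    R)) (Nat.mul (VR.o1 R) (nat_lit 3))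

noncomputable def s1102 (R : VR) (i : ℕ) : ℕ :=
  Nat.mod (s1101 R i) (nat_lit 4)

theorem e1102 (R : VR) : L (VR.S R) (v1102 R) (s1102 R) 3 :=
  L.fld0 (VR.o1e R) (e1101 R) 2 (by decide)

noncomputable def s1103 (R : VR) (i : ℕ) : ℕ :=
  K.wa (s1101 R i)

theorem e1103 (R : VR) : L (VR.S R) (v1102 R) (s1103 R) 3 :=
  e1102 R

noncomputable def s1104 (R : VR) (i : ℕ) : ℕ :=
  K.Wt_cwa (FC7.WF.toWt (VR.WF R)) (s1040 R i)

theorem e1104 (R : VR) : L (VR.S R) (v1102 R) (s1104 R) 3 :=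
  e1103 R

noncomputable def v1105 (R : VR) : ℕ :=
  Nat.add (v1095 R) (v1102 R)

noncomputable def s1105 (R : VR) (i : ℕ) : ℕ :=
  Nat.add (s1097 R i) (s1104 R i)

theorem e1105 (R : VR) : L (VR.S R) (v1105 R) (s1105 R) 6 :=
  L.add (e1097 R) (e1104 R) (by decide)

noncomputable def v1106 (R : VR) : ℕ :=
  gmk (VR.h2 R) (VR.J R) (Nat.mul (v1048 R) (VR.cr1 R))

noncomputable def v1107 (R : VR) : ℕ :=
  Nat.mod (Nat.land (gmk (VR.h2 R) (VR.J R) (Nat.mul (v1048 R) (VR.cr1 R))) (v151 R)) (VR.m1 R)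

noncomputable def s1107 (R : VR) (i : ℕ) : ℕ :=
  tx (VR.rhiT R) (s1048 R i)

theorem e1107 (R : VR) : L (VR.S R) (v1107 R) (s1107 R) 255 :=
  L.gat (e1048 R) (VR.rhi_is R) (VR.rhi_lt R) (VR.rhi_le R)

noncomputable def v1108 (R : VR) : ℕ :=
  gmk (VR.h2 R) (VR.J R) (Nat.mul (Nat.mod (Nat.land (gmk (VR.h2 R) (VR.J R) (Nat.mul (v1048 R)
    (VR.cr1 R))) (v151 R)) (VR.m1 R)) (VR.cr1 R))

noncomputable def v1109 (R : VR) : ℕ :=
  Nat.mod (Nat.land (gmk (VR.h2 R) (VR.J R) (Nat.mul (Nat.mod (Nat.land (gmk (VR.h2 R) (VR.J R)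
    (Nat.mul (v1048 R) (VR.cr1 R))) (v151 R)) (VR.m1 R)) (VR.cr1 R))) (v1013 R)) (VR.m1 R)

noncomputable def s1109 (R : VR) (i : ℕ) : ℕ :=
  tx (VR.ltT R) (s1107 R i)

theorem e1109 (R : VR) : L (VR.S R) (v1109 R) (s1109 R) 32767 :=
  L.gat (e1107 R) (VR.lt_is R) (VR.lt_lt R) (VR.lt_le R)

noncomputable def v1110 (R : VR) : ℕ :=
  Nat.land (Nat.mod (Nat.land (gmk (VR.h2 R) (VR.J R) (Nat.mul (Nat.mod (Nat.land (gmk (VR.h2 R)
    (VR.J R) (Nat.mul (v1048 R) (VR.cr1 R))) (v151 R)) (VR.m1 R)) (VR.cr1 R))) (v1013 R)) (VR.m1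
    R)) (Nat.mul (VR.o1 R) (nat_lit 3))

noncomputable def s1110 (R : VR) (i : ℕ) : ℕ :=
  Nat.mod (s1109 R i) (nat_lit 4)

theorem e1110 (R : VR) : L (VR.S R) (v1110 R) (s1110 R) 3 :=
  L.fld0 (VR.o1e R) (e1109 R) 2 (by decide)

noncomputable def s1111 (R : VR) (i : ℕ) : ℕ :=
  K.wa (s1109 R i)

theorem e1111 (R : VR) : L (VR.S R) (v1110 R) (s1111 R) 3 :=
  e1110 R

noncomputable def s1112 (R : VR) (i : ℕ) : ℕ :=
  K.Wt_cwa (FC7.WF.toWt (VR.WF R)) (s1046 R i)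

theorem e1112 (R : VR) : L (VR.S R) (v1110 R) (s1112 R) 3 :=
  e1111 R

noncomputable def v1113 (R : VR) : ℕ :=
  Nat.add (Nat.add (v1095 R) (v1102 R)) (v1110 R)

noncomputable def s1113 (R : VR) (i : ℕ) : ℕ :=
  Nat.add (s1105 R i) (s1112 R i)

theorem e1113 (R : VR) : L (VR.S R) (v1113 R) (s1113 R) 9 :=
  L.add (e1105 R) (e1112 R) (by decide)

noncomputable def v1114 (R : VR) : ℕ :=
  Vc.ssub (VR.h1 R) (v1089 R) (Nat.add (Nat.add (v1095 R) (v1102 R)) (v1110 R))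

noncomputable def s1114 (R : VR) (i : ℕ) : ℕ :=
  Nat.sub (s1089 R i) (s1113 R i)

theorem e1114 (R : VR) : L (VR.S R) (v1114 R) (s1114 R) 3 :=
  L.sub (VR.h1e R) (e1089 R) (e1113 R)

noncomputable def s1115 (R : VR) (i : ℕ) : ℕ :=
  K.Wt_cun (FC7.WF.toWt (VR.WF R)) (s247 R i)

theorem e1115 (R : VR) : L (VR.S R) (v1114 R) (s1115 R) 3 :=
  e1114 R

noncomputable def v1116 (R : VR) : ℕ :=
  Nat.xor (v511 R) (Nat.land (Nat.xor (v511 R) (Vc.ssub (VR.h1 R) (v1089 R) (Nat.add (Nat.add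
    (v1095 R) (v1102 R)) (v1110 R)))) (Nat.mul (Nat.land (v1051 R) (v1084 R)) (nat_lit 32767)))

noncomputable def s1116 (R : VR) (i : ℕ) : ℕ :=
  Bool.rec (motive := fun _ => ℕ) (s511 R i) (s1115 R i) (s1085 R i)

theorem e1116 (R : VR) : L (VR.S R) (v1116 R) (s1116 R) 3 :=
  L.sel (e1085 R) (e1115 R) (e511 R) (by decide) (by decide) (by decide)

noncomputable def v1117 (R : VR) : ℕ :=
  Nat.xor (v1116 R) (Nat.land (Nat.xor (v1116 R) (v1015 R)) (Nat.mul (v1083 R) (nat_lit 32767)))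

noncomputable def s1117 (R : VR) (i : ℕ) : ℕ :=
  Bool.rec (motive := fun _ => ℕ) (s1116 R i) (s1016 R i) (s1083 R i)

theorem e1117 (R : VR) : L (VR.S R) (v1117 R) (s1117 R) 3 :=
  L.sel (e1083 R) (e1016 R) (e1116 R) (by decide) (by decide) (by decide)

noncomputable def v1118 (R : VR) : ℕ :=
  Nat.xor (v511 R) (Nat.land (Nat.xor (v511 R) (v1065 R)) (Nat.mul (v1060 R) (nat_lit 32767)))

noncomputable def s1118 (R : VR) (i : ℕ) : ℕ :=
  Bool.rec (motive := fun _ => ℕ) (s511 R i) (s1066 R i) (s1060 R i)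

theorem e1118 (R : VR) : L (VR.S R) (v1118 R) (s1118 R) 3 :=
  L.sel (e1060 R) (e1066 R) (e511 R) (by decide) (by decide) (by decide)

noncomputable def v1119 (R : VR) : ℕ :=
  Nat.xor (v1118 R) (Nat.land (Nat.xor (v1118 R) (Nat.xor (v1116 R) (Nat.land (Nat.xor (v1116 R)
    (v1015 R)) (Nat.mul (v1083 R) (nat_lit 32767))))) (Nat.mul (v417 R) (nat_lit 32767)))

noncomputable def s1119 (R : VR) (i : ℕ) : ℕ :=
  Bool.rec (motive := fun _ => ℕ) (s1118 R i) (s1117 R i) (s417 R i)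

theorem e1119 (R : VR) : L (VR.S R) (v1119 R) (s1119 R) 3 :=
  L.sel (e417 R) (e1117 R) (e1118 R) (by decide) (by decide) (by decide)

noncomputable def v1120 (R : VR) : ℕ :=
  Nat.xor (v1119 R) (Nat.land (Nat.xor (v1119 R) (Nat.xor (v511 R) (Nat.land (Nat.xor (v511 R)
    (Nat.land (v1079 R) (Nat.mul (VR.o1 R) (nat_lit 3)))) (Nat.mul (v437 R) (nat_lit 32767)))))
    (Nat.mul (v416 R) (nat_lit 32767)))

noncomputable def s1120 (R : VR) (i : ℕ) : ℕ :=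
  Bool.rec (motive := fun _ => ℕ) (s1119 R i) (s1082 R i) (s416 R i)

theorem e1120 (R : VR) : L (VR.S R) (v1120 R) (s1120 R) 3 :=
  L.sel (e416 R) (e1082 R) (e1119 R) (by decide) (by decide) (by decide)

noncomputable def s1121 (R : VR) (i : ℕ) : ℕ :=
  K.Wt_un (FC7.WF.toWt (VR.WF R)) (s244 R i) (s247 R i)

theorem e1121 (R : VR) : L (VR.S R) (v1120 R) (s1121 R) 3 :=
  e1120 R

noncomputable def v1122 (R : VR) : ℕ :=
  Nat.shiftRight (Nat.land (Nat.sub (VR.h1 R) (Nat.xor (VR.uT R) (Nat.xor (v1119 R) (Nat.land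
    (Nat.xor (v1119 R) (Nat.xor (v511 R) (Nat.land (Nat.xor (v511 R) (Nat.land (v1079 R) (Nat.mul
    (VR.o1 R) (nat_lit 3)))) (Nat.mul (v437 R) (nat_lit 32767))))) (Nat.mul (v416 R) (nat_lit
    32767)))))) (VR.h1 R)) (nat_lit 15)

noncomputable def s1122 (R : VR) (i : ℕ) : Bool :=
  Nat.beq (s1009 R i) (s1121 R i)

theorem e1122 (R : VR) : B (VR.S R) (v1122 R) (s1122 R) :=
  L.beq (VR.h1e R) (e1009 R) (e1121 R)

noncomputable def v1123 (R : VR) : ℕ :=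
  Nat.land (Nat.xor (v1072 R) (Nat.land (Nat.xor (v1072 R) (Nat.lor (v1011 R) (Nat.xor (v1056 R)
    (Nat.land (Nat.xor (v1056 R) (v1024 R)) (v1012 R))))) (v417 R))) (Nat.shiftRight (Nat.land
    (Nat.sub (VR.h1 R) (Nat.xor (VR.uT R) (Nat.xor (v1119 R) (Nat.land (Nat.xor (v1119 R) (Nat.xor
    (v511 R) (Nat.land (Nat.xor (v511 R) (Nat.land (v1079 R) (Nat.mul (VR.o1 R) (nat_lit 3))))
    (Nat.mul (v437 R) (nat_lit 32767))))) (Nat.mul (v416 R) (nat_lit 32767)))))) (VR.h1 R))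
    (nat_lit 15))

noncomputable def s1123 (R : VR) (i : ℕ) : Bool :=
  K.band (s1074 R i) (s1122 R i)

theorem e1123 (R : VR) : B (VR.S R) (v1123 R) (s1123 R) :=
  B.and (e1074 R) (e1122 R)

noncomputable def v1124 (R : VR) : ℕ :=
  Nat.xor (v1123 R) (Nat.land (Nat.xor (v1123 R) (v1010 R)) (VR.ukT R))

noncomputable def s1124 (R : VR) (i : ℕ) : Bool :=
  Bool.rec (motive := fun _ => Bool) (s1123 R i) (s1010 R i) (s1008 R i)

theorem e1124 (R : VR) : B (VR.S R) (v1124 R) (s1124 R) :=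
  B.sel (e1008 R) (e1010 R) (e1123 R)

noncomputable def s1125 (R : VR) (i : ℕ) : Bool :=
  tf (VR.luT R) i

theorem e1125 (R : VR) : B (VR.S R) (VR.luT R) (s1125 R) :=
  VR.lu_is R

noncomputable def s1126 (R : VR) (i : ℕ) : Bool :=
  tf (VR.lbT R) i

theorem e1126 (R : VR) : B (VR.S R) (VR.lbT R) (s1126 R) :=
  VR.lb_is R

noncomputable def v1127 (R : VR) : ℕ :=
  Nat.sub (VR.o1 R) (VR.lbT R)

noncomputable def s1127 (R : VR) (i : ℕ) : Bool :=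
  K.bnot (s1126 R i)

theorem e1127 (R : VR) : B (VR.S R) (v1127 R) (s1127 R) :=
  B.not (VR.o1e R) (e1126 R)

noncomputable def v1128 (R : VR) : ℕ :=
  VR.kkd R

noncomputable def s1128 (R : VR) : ℕ :=
  VR.kkd R

theorem e1128 (R : VR) : (v1128 R) = s1128 R :=
  rfl

theorem b1128 (R : VR) : s1128 R ≤ 127 :=
  VR.kkd_b R

noncomputable def s1129 (R : VR) (i : ℕ) : ℕ :=
  tx (VR.kdT R) i

theorem e1129 (R : VR) : L (VR.S R) (VR.kdT R) (s1129 R) 255 :=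
  VR.kd_is R

noncomputable def v1130 (R : VR) : ℕ :=
  srM (VR.N R) (VR.S R) (VR.o1 R) (VR.kdT R)

noncomputable def s1130 (R : VR) (j i : ℕ) : ℕ :=
  (s1129 R j)

theorem e1130 (R : VR) : L2 R (v1130 R) (s1130 R) 255 :=
  L2.row (e1129 R)

noncomputable def v1131 (R : VR) : ℕ :=
  Nat.shiftRight (Nat.land (Nat.sub (VR.h2 R) (Nat.xor (v12 R) (v1130 R))) (VR.h2 R)) (nat_lit 15)

noncomputable def s1131 (R : VR) (j i : ℕ) : Bool :=
  Nat.beq (s12 R j i) (s1130 R j i)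

theorem e1131 (R : VR) : B2 R (v1131 R) (s1131 R) :=
  L.beq (VR.h2e R) (e12 R) (e1130 R)

noncomputable def v1132 (R : VR) : ℕ :=
  Nat.shiftRight (Nat.land (Nat.add (Nat.mod (Nat.land (Nat.shiftRight (Nat.land (Nat.sub (VR.h2
    R) (Nat.xor (v12 R) (v1130 R))) (VR.h2 R)) (nat_lit 15)) (mM (Nat.mul (v1128 R) (VR.S R))))
    (VR.m1 R)) (VR.k1 R)) (VR.h1 R)) (nat_lit 15)

noncomputable def s1132 (R : VR) (i : ℕ) : Bool :=
  K.bnot (K.allN (s1128 R) (fun j => K.bnot (s1131 R j i)))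

theorem e1132 (R : VR) : B (VR.S R) (v1132 R) (s1132 R) :=
  B.any (e1131 R) (VR.kkd_le R)

noncomputable def s1133 (R : VR) (i : ℕ) : Bool :=
  K.lmem i (FC7.XE.kd (VR.X R))

theorem e1133 (R : VR) : B (VR.S R) (v1132 R) (s1133 R) :=
  B.of_eq (e1132 R) (fun i _ => (lmem_lst (VR.kkd R) (VR.kdT R) i).symm)

noncomputable def v1134 (R : VR) : ℕ :=
  Nat.land (v1127 R) (v1132 R)

noncomputable def s1134 (R : VR) (i : ℕ) : Bool :=
  K.band (s1127 R i) (s1133 R i)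

theorem e1134 (R : VR) : B (VR.S R) (v1134 R) (s1134 R) :=
  B.and (e1127 R) (e1133 R)

noncomputable def v1135 (R : VR) : ℕ :=
  Nat.sub (VR.o1 R) (VR.realT R)

noncomputable def s1135 (R : VR) (i : ℕ) : Bool :=
  K.bnot (s434 R i)

theorem e1135 (R : VR) : B (VR.S R) (v1135 R) (s1135 R) :=
  B.not (VR.o1e R) (e434 R)

noncomputable def v1136 (R : VR) : ℕ :=
  Nat.lor (v1135 R) (v1132 R)

noncomputable def s1136 (R : VR) (i : ℕ) : Bool :=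
  K.bor (s1135 R i) (s1133 R i)

theorem e1136 (R : VR) : B (VR.S R) (v1136 R) (s1136 R) :=
  B.or (e1135 R) (e1133 R)

noncomputable def v1137 (R : VR) : ℕ :=
  srM (VR.N R) (VR.S R) (VR.o1 R) (VR.lT R)

noncomputable def s1137 (R : VR) (j i : ℕ) : ℕ :=
  (s7 R j)

theorem e1137 (R : VR) : L2 R (v1137 R) (s1137 R) 29 :=
  L2.row (e7 R)

noncomputable def v1138 (R : VR) : ℕ :=
  Nat.mul (v193 R) (VR.cr1 R)

noncomputable def s1138 (R : VR) (j i : ℕ) : ℕ :=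
  (s193 R i)

theorem e1138 (R : VR) : L2 R (v1138 R) (s1138 R) 29 :=
  L2.rep (e193 R)

noncomputable def v1139 (R : VR) : ℕ :=
  Nat.shiftRight (Nat.land (Nat.sub (VR.h2 R) (Nat.xor (v1137 R) (Nat.mul (v193 R) (VR.cr1 R))))
    (VR.h2 R)) (nat_lit 15)

noncomputable def s1139 (R : VR) (j i : ℕ) : Bool :=
  Nat.beq (s1137 R j i) (s1138 R j i)

theorem e1139 (R : VR) : B2 R (v1139 R) (s1139 R) :=
  L.beq (VR.h2e R) (e1137 R) (e1138 R)

noncomputable def v1140 (R : VR) : ℕ :=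
  Nat.sub (VR.o2 R) (Nat.shiftRight (Nat.land (Nat.sub (VR.h2 R) (Nat.xor (v1137 R) (Nat.mul (v193
    R) (VR.cr1 R)))) (VR.h2 R)) (nat_lit 15))

noncomputable def s1140 (R : VR) (j i : ℕ) : Bool :=
  K.bnot (s1139 R j i)

theorem e1140 (R : VR) : B2 R (v1140 R) (s1140 R) :=
  B.not (VR.o2e R) (e1139 R)

noncomputable def v1141 (R : VR) : ℕ :=
  Nat.mod (Nat.land (v473 R) (v223 R)) (VR.m1 R)

noncomputable def s1141 (R : VR) (i : ℕ) : Bool :=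
  tf (VR.cxT R) (s7 R i)

theorem e1141 (R : VR) : B (VR.S R) (v1141 R) (s1141 R) :=
  B.gat (e7 R) (VR.cx_is R) (VR.cx_lt R)

noncomputable def v1142 (R : VR) : ℕ :=
  gmk (VR.h2 R) (VR.J R) (Nat.mul (v193 R) (VR.cr1 R))

noncomputable def v1143 (R : VR) : ℕ :=
  Nat.mod (Nat.land (v1142 R) (v223 R)) (VR.m1 R)

noncomputable def s1143 (R : VR) (i : ℕ) : Bool :=
  tf (VR.cxT R) (s193 R i)

theorem e1143 (R : VR) : B (VR.S R) (v1143 R) (s1143 R) :=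
  B.gat (e193 R) (VR.cx_is R) (VR.cx_lt R)

noncomputable def v1144 (R : VR) : ℕ :=
  srM (VR.N R) (VR.S R) (VR.o1 R) (v1141 R)

noncomputable def s1144 (R : VR) (j i : ℕ) : Bool :=
  (s1141 R j)

theorem e1144 (R : VR) : B2 R (v1144 R) (s1144 R) :=
  B2.row (e1141 R)

noncomputable def v1145 (R : VR) : ℕ :=
  Nat.mul (v1143 R) (VR.cr1 R)

noncomputable def s1145 (R : VR) (j i : ℕ) : Bool :=
  (s1143 R i)

theorem e1145 (R : VR) : B2 R (v1145 R) (s1145 R) :=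
  B2.rep (e1143 R)

noncomputable def v1146 (R : VR) : ℕ :=
  Nat.lor (srM (VR.N R) (VR.S R) (VR.o1 R) (v1141 R)) (Nat.mul (v1143 R) (VR.cr1 R))

noncomputable def s1146 (R : VR) (j i : ℕ) : Bool :=
  K.bor (s1144 R j i) (s1145 R j i)

theorem e1146 (R : VR) : B2 R (v1146 R) (s1146 R) :=
  B.or (e1144 R) (e1145 R)

noncomputable def v1147 (R : VR) : ℕ :=
  Nat.shiftRight (Nat.land (Nat.sub (Nat.add (v869 R) (VR.k1 R)) (VR.lT R)) (VR.h1 R)) (nat_lit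
    15)

noncomputable def s1147 (R : VR) (i : ℕ) : Bool :=
  Nat.ble (Nat.succ (s7 R i)) (s869 R i)

theorem e1147 (R : VR) : B (VR.S R) (v1147 R) (s1147 R) :=
  L.blt (VR.h1e R) (VR.k1e R) (e7 R) (e869 R)

noncomputable def v1148 (R : VR) : ℕ :=
  Nat.shiftRight (Nat.land (Nat.sub (Nat.add (v869 R) (VR.k1 R)) (v193 R)) (VR.h1 R)) (nat_lit 15)

noncomputable def s1148 (R : VR) (i : ℕ) : Bool :=
  Nat.ble (Nat.succ (s193 R i)) (s869 R i)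

theorem e1148 (R : VR) : B (VR.S R) (v1148 R) (s1148 R) :=
  L.blt (VR.h1e R) (VR.k1e R) (e193 R) (e869 R)

noncomputable def v1149 (R : VR) : ℕ :=
  srM (VR.N R) (VR.S R) (VR.o1 R) (v1147 R)

noncomputable def s1149 (R : VR) (j i : ℕ) : Bool :=
  (s1147 R j)

theorem e1149 (R : VR) : B2 R (v1149 R) (s1149 R) :=
  B2.row (e1147 R)

noncomputable def v1150 (R : VR) : ℕ :=
  Nat.mul (v1148 R) (VR.cr1 R)

noncomputable def s1150 (R : VR) (j i : ℕ) : Bool :=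
  (s1148 R i)

theorem e1150 (R : VR) : B2 R (v1150 R) (s1150 R) :=
  B2.rep (e1148 R)

noncomputable def v1151 (R : VR) : ℕ :=
  Nat.sub (VR.o2 R) (Nat.xor (srM (VR.N R) (VR.S R) (VR.o1 R) (v1147 R)) (Nat.mul (v1148 R)
    (VR.cr1 R)))

noncomputable def s1151 (R : VR) (j i : ℕ) : Bool :=
  K.beqB (s1149 R j i) (s1150 R j i)

theorem e1151 (R : VR) : B2 R (v1151 R) (s1151 R) :=
  B.beqB (VR.o2e R) (e1149 R) (e1150 R)

noncomputable def v1152 (R : VR) : ℕ :=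
  Nat.sub (VR.o2 R) (Nat.sub (VR.o2 R) (Nat.xor (srM (VR.N R) (VR.S R) (VR.o1 R) (v1147 R))
    (Nat.mul (v1148 R) (VR.cr1 R))))

noncomputable def s1152 (R : VR) (j i : ℕ) : Bool :=
  K.bnot (s1151 R j i)

theorem e1152 (R : VR) : B2 R (v1152 R) (s1152 R) :=
  B.not (VR.o2e R) (e1151 R)

noncomputable def v1153 (R : VR) : ℕ :=
  Nat.lor (Nat.lor (srM (VR.N R) (VR.S R) (VR.o1 R) (v1141 R)) (Nat.mul (v1143 R) (VR.cr1 R)))
    (Nat.sub (VR.o2 R) (Nat.sub (VR.o2 R) (Nat.xor (srM (VR.N R) (VR.S R) (VR.o1 R) (v1147 R))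
    (Nat.mul (v1148 R) (VR.cr1 R)))))

noncomputable def s1153 (R : VR) (j i : ℕ) : Bool :=
  K.bor (s1146 R j i) (s1152 R j i)

theorem e1153 (R : VR) : B2 R (v1153 R) (s1153 R) :=
  B.or (e1146 R) (e1152 R)

noncomputable def v1154 (R : VR) : ℕ :=
  srM (VR.N R) (VR.S R) (VR.o1 R) (VR.DQ1T R)

noncomputable def v1155 (R : VR) : ℕ :=
  Nat.mod (Nat.land (v473 R) (v1154 R)) (VR.m1 R)

noncomputable def s1155 (R : VR) (i : ℕ) : ℕ :=
  tx (VR.DQ1T R) (s7 R i)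

theorem e1155 (R : VR) : L (VR.S R) (v1155 R) (s1155 R) 32767 :=
  L.gat (e7 R) (VR.DQ1_is R) (VR.DQ1_lt R) (VR.DQ1_le R)

noncomputable def v1156 (R : VR) : ℕ :=
  srM (VR.N R) (VR.S R) (VR.o1 R) (VR.DQ2T R)

noncomputable def v1157 (R : VR) : ℕ :=
  Nat.mod (Nat.land (v473 R) (v1156 R)) (VR.m1 R)

noncomputable def s1157 (R : VR) (i : ℕ) : ℕ :=
  tx (VR.DQ2T R) (s7 R i)

theorem e1157 (R : VR) : L (VR.S R) (v1157 R) (s1157 R) 32767 :=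
  L.gat (e7 R) (VR.DQ2_is R) (VR.DQ2_lt R) (VR.DQ2_le R)

noncomputable def v1158 (R : VR) : ℕ :=
  Nat.mod (Nat.land (v1142 R) (v21 R)) (VR.m1 R)

noncomputable def s1158 (R : VR) (i : ℕ) : ℕ :=
  tx (VR.pw1T R) (s193 R i)

theorem e1158 (R : VR) : L (VR.S R) (v1158 R) (s1158 R) 16384 :=
  L.gat (e193 R) (VR.pw1_is R) (VR.pw1_lt R) (VR.pw1_le R)

noncomputable def v1159 (R : VR) : ℕ :=
  srM (VR.N R) (VR.S R) (VR.o1 R) (Nat.mod (Nat.land (v473 R) (v1154 R)) (VR.m1 R))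

noncomputable def s1159 (R : VR) (j i : ℕ) : ℕ :=
  (s1155 R j)

theorem e1159 (R : VR) : L2 R (v1159 R) (s1159 R) 32767 :=
  L2.row (e1155 R)

noncomputable def v1160 (R : VR) : ℕ :=
  Nat.mul (Nat.mod (Nat.land (v1142 R) (v21 R)) (VR.m1 R)) (VR.cr1 R)

noncomputable def s1160 (R : VR) (j i : ℕ) : ℕ :=
  (s1158 R i)

theorem e1160 (R : VR) : L2 R (v1160 R) (s1160 R) 16384 :=
  L2.rep (e1158 R)

noncomputable def v1161 (R : VR) : ℕ :=
  Nat.land (srM (VR.N R) (VR.S R) (VR.o1 R) (Nat.mod (Nat.land (v473 R) (v1154 R)) (VR.m1 R)))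
    (Nat.mul (Nat.mod (Nat.land (v1142 R) (v21 R)) (VR.m1 R)) (VR.cr1 R))

noncomputable def s1161 (R : VR) (j i : ℕ) : ℕ :=
  Nat.land (s1159 R j i) (s1160 R j i)

theorem e1161 (R : VR) : L2 R (v1161 R) (s1161 R) 32767 :=
  L.land (e1159 R) (e1160 R)

noncomputable def v1162 (R : VR) : ℕ :=
  Nat.shiftRight (Nat.land (Nat.sub (VR.h2 R) (v1161 R)) (VR.h2 R)) (nat_lit 15)

noncomputable def s1162 (R : VR) (j i : ℕ) : Bool :=
  Nat.beq (s1161 R j i) (nat_lit 0)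

theorem e1162 (R : VR) : B2 R (v1162 R) (s1162 R) :=
  L.ez (VR.h2e R) (e1161 R)

noncomputable def v1163 (R : VR) : ℕ :=
  Nat.shiftRight (Nat.land (Nat.add (v1161 R) (VR.k2 R)) (VR.h2 R)) (nat_lit 15)

noncomputable def s1163 (R : VR) (j i : ℕ) : Bool :=
  K.bnot (Nat.beq (s1161 R j i) (nat_lit 0))

theorem e1163 (R : VR) : B2 R (v1163 R) (s1163 R) :=
  L.nz (VR.h2e R) (VR.k2e R) (e1161 R)

noncomputable def v1164 (R : VR) : ℕ :=
  Nat.mod (Nat.land (v1142 R) (v38 R)) (VR.m1 R)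

noncomputable def s1164 (R : VR) (i : ℕ) : ℕ :=
  tx (VR.pw2T R) (s193 R i)

theorem e1164 (R : VR) : L (VR.S R) (v1164 R) (s1164 R) 16384 :=
  L.gat (e193 R) (VR.pw2_is R) (VR.pw2_lt R) (VR.pw2_le R)

noncomputable def v1165 (R : VR) : ℕ :=
  srM (VR.N R) (VR.S R) (VR.o1 R) (Nat.mod (Nat.land (v473 R) (v1156 R)) (VR.m1 R))

noncomputable def s1165 (R : VR) (j i : ℕ) : ℕ :=
  (s1157 R j)

theorem e1165 (R : VR) : L2 R (v1165 R) (s1165 R) 32767 :=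
  L2.row (e1157 R)

noncomputable def v1166 (R : VR) : ℕ :=
  Nat.mul (Nat.mod (Nat.land (v1142 R) (v38 R)) (VR.m1 R)) (VR.cr1 R)

noncomputable def s1166 (R : VR) (j i : ℕ) : ℕ :=
  (s1164 R i)

theorem e1166 (R : VR) : L2 R (v1166 R) (s1166 R) 16384 :=
  L2.rep (e1164 R)

noncomputable def v1167 (R : VR) : ℕ :=
  Nat.land (srM (VR.N R) (VR.S R) (VR.o1 R) (Nat.mod (Nat.land (v473 R) (v1156 R)) (VR.m1 R)))
    (Nat.mul (Nat.mod (Nat.land (v1142 R) (v38 R)) (VR.m1 R)) (VR.cr1 R))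

noncomputable def s1167 (R : VR) (j i : ℕ) : ℕ :=
  Nat.land (s1165 R j i) (s1166 R j i)

theorem e1167 (R : VR) : L2 R (v1167 R) (s1167 R) 32767 :=
  L.land (e1165 R) (e1166 R)

noncomputable def v1168 (R : VR) : ℕ :=
  Nat.shiftRight (Nat.land (Nat.sub (VR.h2 R) (v1167 R)) (VR.h2 R)) (nat_lit 15)

noncomputable def s1168 (R : VR) (j i : ℕ) : Bool :=
  Nat.beq (s1167 R j i) (nat_lit 0)

theorem e1168 (R : VR) : B2 R (v1168 R) (s1168 R) :=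
  L.ez (VR.h2e R) (e1167 R)

noncomputable def v1169 (R : VR) : ℕ :=
  Nat.shiftRight (Nat.land (Nat.add (v1167 R) (VR.k2 R)) (VR.h2 R)) (nat_lit 15)

noncomputable def s1169 (R : VR) (j i : ℕ) : Bool :=
  K.bnot (Nat.beq (s1167 R j i) (nat_lit 0))

theorem e1169 (R : VR) : B2 R (v1169 R) (s1169 R) :=
  L.nz (VR.h2e R) (VR.k2e R) (e1167 R)

noncomputable def v1170 (R : VR) : ℕ :=
  Nat.lor (Nat.shiftRight (Nat.land (Nat.add (v1161 R) (VR.k2 R)) (VR.h2 R)) (nat_lit 15))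
    (Nat.shiftRight (Nat.land (Nat.add (v1167 R) (VR.k2 R)) (VR.h2 R)) (nat_lit 15))

noncomputable def s1170 (R : VR) (j i : ℕ) : Bool :=
  K.bor (s1163 R j i) (s1169 R j i)

theorem e1170 (R : VR) : B2 R (v1170 R) (s1170 R) :=
  B.or (e1163 R) (e1169 R)

noncomputable def s1171 (R : VR) (j i : ℕ) : Bool :=
  V2.mk R (s1155 R j) (s1157 R j) (s193 R i)

theorem e1171 (R : VR) : B2 R (v1170 R) (s1171 R) :=
  e1170 R

noncomputable def v1172 (R : VR) : ℕ :=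
  Nat.lor (Nat.lor (Nat.lor (srM (VR.N R) (VR.S R) (VR.o1 R) (v1141 R)) (Nat.mul (v1143 R) (VR.cr1
    R))) (Nat.sub (VR.o2 R) (Nat.sub (VR.o2 R) (Nat.xor (srM (VR.N R) (VR.S R) (VR.o1 R) (v1147
    R)) (Nat.mul (v1148 R) (VR.cr1 R)))))) (Nat.lor (Nat.shiftRight (Nat.land (Nat.add (v1161 R)
    (VR.k2 R)) (VR.h2 R)) (nat_lit 15)) (Nat.shiftRight (Nat.land (Nat.add (v1167 R) (VR.k2 R))
    (VR.h2 R)) (nat_lit 15)))

noncomputable def s1172 (R : VR) (j i : ℕ) : Bool :=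
  K.bor (s1153 R j i) (s1171 R j i)

theorem e1172 (R : VR) : B2 R (v1172 R) (s1172 R) :=
  B.or (e1153 R) (e1171 R)

noncomputable def v1173 (R : VR) : ℕ :=
  Nat.land (Nat.sub (VR.o2 R) (Nat.shiftRight (Nat.land (Nat.sub (VR.h2 R) (Nat.xor (v1137 R)
    (Nat.mul (v193 R) (VR.cr1 R)))) (VR.h2 R)) (nat_lit 15))) (Nat.lor (Nat.lor (Nat.lor (srM
    (VR.N R) (VR.S R) (VR.o1 R) (v1141 R)) (Nat.mul (v1143 R) (VR.cr1 R))) (Nat.sub (VR.o2 R)
    (Nat.sub (VR.o2 R) (Nat.xor (srM (VR.N R) (VR.S R) (VR.o1 R) (v1147 R)) (Nat.mul (v1148 R)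
    (VR.cr1 R)))))) (Nat.lor (Nat.shiftRight (Nat.land (Nat.add (v1161 R) (VR.k2 R)) (VR.h2 R))
    (nat_lit 15)) (Nat.shiftRight (Nat.land (Nat.add (v1167 R) (VR.k2 R)) (VR.h2 R)) (nat_lit
    15))))

noncomputable def s1173 (R : VR) (j i : ℕ) : Bool :=
  K.band (s1140 R j i) (s1172 R j i)

theorem e1173 (R : VR) : B2 R (v1173 R) (s1173 R) :=
  B.and (e1140 R) (e1172 R)

noncomputable def s1174 (R : VR) (j i : ℕ) : Bool :=
  V2.dis R (s7 R j) (s193 R i)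

theorem e1174 (R : VR) : B2 R (v1173 R) (s1174 R) :=
  e1173 R

noncomputable def s1175 (R : VR) (j i : ℕ) : Bool :=
  K.WF_dis (VR.WF R) (s7 R j) (s193 R i)

theorem e1175 (R : VR) : B2 R (v1173 R) (s1175 R) :=
  B.of_eq (e1174 R) (fun t ht => V2.dis_eq R (s7 R (t / VR.S R)) (s193 R (t % VR.S R)))

noncomputable def v1176 (R : VR) : ℕ :=
  srM (VR.N R) (VR.S R) (VR.o1 R) (Nat.lor (v1135 R) (v1132 R))

noncomputable def s1176 (R : VR) (j i : ℕ) : Bool :=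
  (s1136 R j)

theorem e1176 (R : VR) : B2 R (v1176 R) (s1176 R) :=
  B2.row (e1136 R)

noncomputable def v1177 (R : VR) : ℕ :=
  Nat.lor (srM (VR.N R) (VR.S R) (VR.o1 R) (Nat.lor (v1135 R) (v1132 R))) (v1173 R)

noncomputable def s1177 (R : VR) (j i : ℕ) : Bool :=
  K.bor (s1176 R j i) (s1175 R j i)

theorem e1177 (R : VR) : B2 R (v1177 R) (s1177 R) :=
  B.or (e1176 R) (e1175 R)

noncomputable def v1178 (R : VR) : ℕ :=
  srM (VR.N R) (VR.S R) (VR.o1 R) (v193 R)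

noncomputable def s1178 (R : VR) (j i : ℕ) : ℕ :=
  (s193 R j)

theorem e1178 (R : VR) : L2 R (v1178 R) (s1178 R) 29 :=
  L2.row (e193 R)

noncomputable def v1179 (R : VR) : ℕ :=
  Nat.mul (VR.lT R) (VR.cr1 R)

noncomputable def s1179 (R : VR) (j i : ℕ) : ℕ :=
  (s7 R i)

theorem e1179 (R : VR) : L2 R (v1179 R) (s1179 R) 29 :=
  L2.rep (e7 R)

noncomputable def v1180 (R : VR) : ℕ :=
  Nat.shiftRight (Nat.land (Nat.sub (VR.h2 R) (Nat.xor (v1178 R) (Nat.mul (VR.lT R) (VR.cr1 R))))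
    (VR.h2 R)) (nat_lit 15)

noncomputable def s1180 (R : VR) (j i : ℕ) : Bool :=
  Nat.beq (s1178 R j i) (s1179 R j i)

theorem e1180 (R : VR) : B2 R (v1180 R) (s1180 R) :=
  L.beq (VR.h2e R) (e1178 R) (e1179 R)

noncomputable def v1181 (R : VR) : ℕ :=
  Nat.sub (VR.o2 R) (Nat.shiftRight (Nat.land (Nat.sub (VR.h2 R) (Nat.xor (v1178 R) (Nat.mul
    (VR.lT R) (VR.cr1 R)))) (VR.h2 R)) (nat_lit 15))

noncomputable def s1181 (R : VR) (j i : ℕ) : Bool :=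
  K.bnot (s1180 R j i)

theorem e1181 (R : VR) : B2 R (v1181 R) (s1181 R) :=
  B.not (VR.o2e R) (e1180 R)

noncomputable def v1182 (R : VR) : ℕ :=
  srM (VR.N R) (VR.S R) (VR.o1 R) (v1143 R)

noncomputable def s1182 (R : VR) (j i : ℕ) : Bool :=
  (s1143 R j)

theorem e1182 (R : VR) : B2 R (v1182 R) (s1182 R) :=
  B2.row (e1143 R)

noncomputable def v1183 (R : VR) : ℕ :=
  Nat.mul (v1141 R) (VR.cr1 R)

noncomputable def s1183 (R : VR) (j i : ℕ) : Bool :=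
  (s1141 R i)

theorem e1183 (R : VR) : B2 R (v1183 R) (s1183 R) :=
  B2.rep (e1141 R)

noncomputable def v1184 (R : VR) : ℕ :=
  Nat.lor (srM (VR.N R) (VR.S R) (VR.o1 R) (v1143 R)) (Nat.mul (v1141 R) (VR.cr1 R))

noncomputable def s1184 (R : VR) (j i : ℕ) : Bool :=
  K.bor (s1182 R j i) (s1183 R j i)

theorem e1184 (R : VR) : B2 R (v1184 R) (s1184 R) :=
  B.or (e1182 R) (e1183 R)

noncomputable def v1185 (R : VR) : ℕ :=
  srM (VR.N R) (VR.S R) (VR.o1 R) (v1148 R)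

noncomputable def s1185 (R : VR) (j i : ℕ) : Bool :=
  (s1148 R j)

theorem e1185 (R : VR) : B2 R (v1185 R) (s1185 R) :=
  B2.row (e1148 R)

noncomputable def v1186 (R : VR) : ℕ :=
  Nat.mul (v1147 R) (VR.cr1 R)

noncomputable def s1186 (R : VR) (j i : ℕ) : Bool :=
  (s1147 R i)

theorem e1186 (R : VR) : B2 R (v1186 R) (s1186 R) :=
  B2.rep (e1147 R)

noncomputable def v1187 (R : VR) : ℕ :=
  Nat.sub (VR.o2 R) (Nat.xor (srM (VR.N R) (VR.S R) (VR.o1 R) (v1148 R)) (Nat.mul (v1147 R)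
    (VR.cr1 R)))

noncomputable def s1187 (R : VR) (j i : ℕ) : Bool :=
  K.beqB (s1185 R j i) (s1186 R j i)

theorem e1187 (R : VR) : B2 R (v1187 R) (s1187 R) :=
  B.beqB (VR.o2e R) (e1185 R) (e1186 R)

noncomputable def v1188 (R : VR) : ℕ :=
  Nat.sub (VR.o2 R) (Nat.sub (VR.o2 R) (Nat.xor (srM (VR.N R) (VR.S R) (VR.o1 R) (v1148 R))
    (Nat.mul (v1147 R) (VR.cr1 R))))

noncomputable def s1188 (R : VR) (j i : ℕ) : Bool :=
  K.bnot (s1187 R j i)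

theorem e1188 (R : VR) : B2 R (v1188 R) (s1188 R) :=
  B.not (VR.o2e R) (e1187 R)

noncomputable def v1189 (R : VR) : ℕ :=
  Nat.lor (Nat.lor (srM (VR.N R) (VR.S R) (VR.o1 R) (v1143 R)) (Nat.mul (v1141 R) (VR.cr1 R)))
    (Nat.sub (VR.o2 R) (Nat.sub (VR.o2 R) (Nat.xor (srM (VR.N R) (VR.S R) (VR.o1 R) (v1148 R))
    (Nat.mul (v1147 R) (VR.cr1 R)))))

noncomputable def s1189 (R : VR) (j i : ℕ) : Bool :=
  K.bor (s1184 R j i) (s1188 R j i)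

theorem e1189 (R : VR) : B2 R (v1189 R) (s1189 R) :=
  B.or (e1184 R) (e1188 R)

noncomputable def v1190 (R : VR) : ℕ :=
  Nat.mod (Nat.land (v1142 R) (v1154 R)) (VR.m1 R)

noncomputable def s1190 (R : VR) (i : ℕ) : ℕ :=
  tx (VR.DQ1T R) (s193 R i)

theorem e1190 (R : VR) : L (VR.S R) (v1190 R) (s1190 R) 32767 :=
  L.gat (e193 R) (VR.DQ1_is R) (VR.DQ1_lt R) (VR.DQ1_le R)

noncomputable def v1191 (R : VR) : ℕ :=
  Nat.mod (Nat.land (v1142 R) (v1156 R)) (VR.m1 R)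

noncomputable def s1191 (R : VR) (i : ℕ) : ℕ :=
  tx (VR.DQ2T R) (s193 R i)

theorem e1191 (R : VR) : L (VR.S R) (v1191 R) (s1191 R) 32767 :=
  L.gat (e193 R) (VR.DQ2_is R) (VR.DQ2_lt R) (VR.DQ2_le R)

noncomputable def v1192 (R : VR) : ℕ :=
  Nat.mod (Nat.land (v473 R) (v21 R)) (VR.m1 R)

noncomputable def s1192 (R : VR) (i : ℕ) : ℕ :=
  tx (VR.pw1T R) (s7 R i)

theorem e1192 (R : VR) : L (VR.S R) (v1192 R) (s1192 R) 16384 :=
  L.gat (e7 R) (VR.pw1_is R) (VR.pw1_lt R) (VR.pw1_le R)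

noncomputable def v1193 (R : VR) : ℕ :=
  srM (VR.N R) (VR.S R) (VR.o1 R) (Nat.mod (Nat.land (v1142 R) (v1154 R)) (VR.m1 R))

noncomputable def s1193 (R : VR) (j i : ℕ) : ℕ :=
  (s1190 R j)

theorem e1193 (R : VR) : L2 R (v1193 R) (s1193 R) 32767 :=
  L2.row (e1190 R)

noncomputable def v1194 (R : VR) : ℕ :=
  Nat.mul (Nat.mod (Nat.land (v473 R) (v21 R)) (VR.m1 R)) (VR.cr1 R)

noncomputable def s1194 (R : VR) (j i : ℕ) : ℕ :=
  (s1192 R i)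

theorem e1194 (R : VR) : L2 R (v1194 R) (s1194 R) 16384 :=
  L2.rep (e1192 R)

noncomputable def v1195 (R : VR) : ℕ :=
  Nat.land (srM (VR.N R) (VR.S R) (VR.o1 R) (Nat.mod (Nat.land (v1142 R) (v1154 R)) (VR.m1 R)))
    (Nat.mul (Nat.mod (Nat.land (v473 R) (v21 R)) (VR.m1 R)) (VR.cr1 R))

noncomputable def s1195 (R : VR) (j i : ℕ) : ℕ :=
  Nat.land (s1193 R j i) (s1194 R j i)

theorem e1195 (R : VR) : L2 R (v1195 R) (s1195 R) 32767 :=
  L.land (e1193 R) (e1194 R)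

noncomputable def v1196 (R : VR) : ℕ :=
  Nat.shiftRight (Nat.land (Nat.sub (VR.h2 R) (v1195 R)) (VR.h2 R)) (nat_lit 15)

noncomputable def s1196 (R : VR) (j i : ℕ) : Bool :=
  Nat.beq (s1195 R j i) (nat_lit 0)

theorem e1196 (R : VR) : B2 R (v1196 R) (s1196 R) :=
  L.ez (VR.h2e R) (e1195 R)

noncomputable def v1197 (R : VR) : ℕ :=
  Nat.shiftRight (Nat.land (Nat.add (v1195 R) (VR.k2 R)) (VR.h2 R)) (nat_lit 15)

noncomputable def s1197 (R : VR) (j i : ℕ) : Bool :=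
  K.bnot (Nat.beq (s1195 R j i) (nat_lit 0))

theorem e1197 (R : VR) : B2 R (v1197 R) (s1197 R) :=
  L.nz (VR.h2e R) (VR.k2e R) (e1195 R)

noncomputable def v1198 (R : VR) : ℕ :=
  Nat.mod (Nat.land (v473 R) (v38 R)) (VR.m1 R)

noncomputable def s1198 (R : VR) (i : ℕ) : ℕ :=
  tx (VR.pw2T R) (s7 R i)

theorem e1198 (R : VR) : L (VR.S R) (v1198 R) (s1198 R) 16384 :=
  L.gat (e7 R) (VR.pw2_is R) (VR.pw2_lt R) (VR.pw2_le R)

noncomputable def v1199 (R : VR) : ℕ :=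
  srM (VR.N R) (VR.S R) (VR.o1 R) (Nat.mod (Nat.land (v1142 R) (v1156 R)) (VR.m1 R))

noncomputable def s1199 (R : VR) (j i : ℕ) : ℕ :=
  (s1191 R j)

theorem e1199 (R : VR) : L2 R (v1199 R) (s1199 R) 32767 :=
  L2.row (e1191 R)

noncomputable def v1200 (R : VR) : ℕ :=
  Nat.mul (Nat.mod (Nat.land (v473 R) (v38 R)) (VR.m1 R)) (VR.cr1 R)

noncomputable def s1200 (R : VR) (j i : ℕ) : ℕ :=
  (s1198 R i)

theorem e1200 (R : VR) : L2 R (v1200 R) (s1200 R) 16384 :=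
  L2.rep (e1198 R)

noncomputable def v1201 (R : VR) : ℕ :=
  Nat.land (srM (VR.N R) (VR.S R) (VR.o1 R) (Nat.mod (Nat.land (v1142 R) (v1156 R)) (VR.m1 R)))
    (Nat.mul (Nat.mod (Nat.land (v473 R) (v38 R)) (VR.m1 R)) (VR.cr1 R))

noncomputable def s1201 (R : VR) (j i : ℕ) : ℕ :=
  Nat.land (s1199 R j i) (s1200 R j i)

theorem e1201 (R : VR) : L2 R (v1201 R) (s1201 R) 32767 :=
  L.land (e1199 R) (e1200 R)

noncomputable def v1202 (R : VR) : ℕ :=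
  Nat.shiftRight (Nat.land (Nat.sub (VR.h2 R) (v1201 R)) (VR.h2 R)) (nat_lit 15)

noncomputable def s1202 (R : VR) (j i : ℕ) : Bool :=
  Nat.beq (s1201 R j i) (nat_lit 0)

theorem e1202 (R : VR) : B2 R (v1202 R) (s1202 R) :=
  L.ez (VR.h2e R) (e1201 R)

noncomputable def v1203 (R : VR) : ℕ :=
  Nat.shiftRight (Nat.land (Nat.add (v1201 R) (VR.k2 R)) (VR.h2 R)) (nat_lit 15)

noncomputable def s1203 (R : VR) (j i : ℕ) : Bool :=
  K.bnot (Nat.beq (s1201 R j i) (nat_lit 0))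

theorem e1203 (R : VR) : B2 R (v1203 R) (s1203 R) :=
  L.nz (VR.h2e R) (VR.k2e R) (e1201 R)

noncomputable def v1204 (R : VR) : ℕ :=
  Nat.lor (Nat.shiftRight (Nat.land (Nat.add (v1195 R) (VR.k2 R)) (VR.h2 R)) (nat_lit 15))
    (Nat.shiftRight (Nat.land (Nat.add (v1201 R) (VR.k2 R)) (VR.h2 R)) (nat_lit 15))

noncomputable def s1204 (R : VR) (j i : ℕ) : Bool :=
  K.bor (s1197 R j i) (s1203 R j i)

theorem e1204 (R : VR) : B2 R (v1204 R) (s1204 R) :=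
  B.or (e1197 R) (e1203 R)

noncomputable def s1205 (R : VR) (j i : ℕ) : Bool :=
  V2.mk R (s1190 R j) (s1191 R j) (s7 R i)

theorem e1205 (R : VR) : B2 R (v1204 R) (s1205 R) :=
  e1204 R

noncomputable def v1206 (R : VR) : ℕ :=
  Nat.lor (Nat.lor (Nat.lor (srM (VR.N R) (VR.S R) (VR.o1 R) (v1143 R)) (Nat.mul (v1141 R) (VR.cr1
    R))) (Nat.sub (VR.o2 R) (Nat.sub (VR.o2 R) (Nat.xor (srM (VR.N R) (VR.S R) (VR.o1 R) (v1148
    R)) (Nat.mul (v1147 R) (VR.cr1 R)))))) (Nat.lor (Nat.shiftRight (Nat.land (Nat.add (v1195 R)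
    (VR.k2 R)) (VR.h2 R)) (nat_lit 15)) (Nat.shiftRight (Nat.land (Nat.add (v1201 R) (VR.k2 R))
    (VR.h2 R)) (nat_lit 15)))

noncomputable def s1206 (R : VR) (j i : ℕ) : Bool :=
  K.bor (s1189 R j i) (s1205 R j i)

theorem e1206 (R : VR) : B2 R (v1206 R) (s1206 R) :=
  B.or (e1189 R) (e1205 R)

noncomputable def v1207 (R : VR) : ℕ :=
  Nat.land (Nat.sub (VR.o2 R) (Nat.shiftRight (Nat.land (Nat.sub (VR.h2 R) (Nat.xor (v1178 R)
    (Nat.mul (VR.lT R) (VR.cr1 R)))) (VR.h2 R)) (nat_lit 15))) (Nat.lor (Nat.lor (Nat.lor (srM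
    (VR.N R) (VR.S R) (VR.o1 R) (v1143 R)) (Nat.mul (v1141 R) (VR.cr1 R))) (Nat.sub (VR.o2 R)
    (Nat.sub (VR.o2 R) (Nat.xor (srM (VR.N R) (VR.S R) (VR.o1 R) (v1148 R)) (Nat.mul (v1147 R)
    (VR.cr1 R)))))) (Nat.lor (Nat.shiftRight (Nat.land (Nat.add (v1195 R) (VR.k2 R)) (VR.h2 R))
    (nat_lit 15)) (Nat.shiftRight (Nat.land (Nat.add (v1201 R) (VR.k2 R)) (VR.h2 R)) (nat_lit
    15))))

noncomputable def s1207 (R : VR) (j i : ℕ) : Bool :=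
  K.band (s1181 R j i) (s1206 R j i)

theorem e1207 (R : VR) : B2 R (v1207 R) (s1207 R) :=
  B.and (e1181 R) (e1206 R)

noncomputable def s1208 (R : VR) (j i : ℕ) : Bool :=
  V2.dis R (s193 R j) (s7 R i)

theorem e1208 (R : VR) : B2 R (v1207 R) (s1208 R) :=
  e1207 R

noncomputable def s1209 (R : VR) (j i : ℕ) : Bool :=
  K.WF_dis (VR.WF R) (s193 R j) (s7 R i)

theorem e1209 (R : VR) : B2 R (v1207 R) (s1209 R) :=
  B.of_eq (e1208 R) (fun t ht => V2.dis_eq R (s193 R (t / VR.S R)) (s7 R (t % VR.S R)))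

noncomputable def v1210 (R : VR) : ℕ :=
  Nat.lor (Nat.lor (srM (VR.N R) (VR.S R) (VR.o1 R) (Nat.lor (v1135 R) (v1132 R))) (v1173 R))
    (v1207 R)

noncomputable def s1210 (R : VR) (j i : ℕ) : Bool :=
  K.bor (s1177 R j i) (s1209 R j i)

theorem e1210 (R : VR) : B2 R (v1210 R) (s1210 R) :=
  B.or (e1177 R) (e1209 R)

noncomputable def v1211 (R : VR) : ℕ :=
  Nat.shiftRight (Nat.land (Nat.sub (VR.h1 R) (Nat.mod (Nat.land (Nat.sub (VR.o2 R) (Nat.lor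
    (Nat.lor (srM (VR.N R) (VR.S R) (VR.o1 R) (Nat.lor (v1135 R) (v1132 R))) (v1173 R)) (v1207
    R))) (mM (Nat.mul (v112 R) (VR.S R)))) (VR.m1 R))) (VR.h1 R)) (nat_lit 15)

noncomputable def s1211 (R : VR) (i : ℕ) : Bool :=
  K.allN (s112 R) (fun j => (s1210 R j i))

theorem e1211 (R : VR) : B (VR.S R) (v1211 R) (s1211 R) :=
  B.all (e1210 R) (VR.n_le R)

noncomputable def s1212 (R : VR) (i : ℕ) : Bool :=
  K.allN (s112 R) (fun (x38 : ℕ) => (K.bor (K.bor (K.bor (K.bnot (FC6.Pa.real (FC7.Fc.P (FC7.WF.F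
    (VR.WF R))) x38)) (K.lmem x38 (FC7.XE.kd (FC7.Fc.X (FC7.WF.F (VR.WF R)))))) (K.WF_dis (VR.WF
    R) (FC6.Pa.l (FC7.Fc.P (FC7.WF.F (VR.WF R))) x38) (FC6.Pa.l (FC7.Fc.P (FC7.WF.F (VR.WF R)))
    (FC6.Pa.φ (FC7.Fc.P (FC7.WF.F (VR.WF R))) i)))) (K.WF_dis (VR.WF R) (FC6.Pa.l (FC7.Fc.P
    (FC7.WF.F (VR.WF R))) (FC6.Pa.φ (FC7.Fc.P (FC7.WF.F (VR.WF R))) x38)) (FC6.Pa.l (FC7.Fc.P
    (FC7.WF.F (VR.WF R))) i))))

theorem e1212 (R : VR) : B (VR.S R) (v1211 R) (s1212 R) :=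
  e1211 R

noncomputable def v1213 (R : VR) : ℕ :=
  Nat.land (Nat.land (v1127 R) (v1132 R)) (Nat.shiftRight (Nat.land (Nat.sub (VR.h1 R) (Nat.mod
    (Nat.land (Nat.sub (VR.o2 R) (Nat.lor (Nat.lor (srM (VR.N R) (VR.S R) (VR.o1 R) (Nat.lor
    (v1135 R) (v1132 R))) (v1173 R)) (v1207 R))) (mM (Nat.mul (v112 R) (VR.S R)))) (VR.m1 R)))
    (VR.h1 R)) (nat_lit 15))

noncomputable def s1213 (R : VR) (i : ℕ) : Bool :=
  K.band (s1134 R i) (s1212 R i)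

theorem e1213 (R : VR) : B (VR.S R) (v1213 R) (s1213 R) :=
  B.and (e1134 R) (e1212 R)

noncomputable def v1214 (R : VR) : ℕ :=
  Nat.shiftRight (Nat.land (Nat.sub (Nat.add (VR.rkT R) (VR.h1 R)) (v359 R)) (VR.h1 R)) (nat_lit
    15)

noncomputable def s1214 (R : VR) (i : ℕ) : Bool :=
  Nat.ble (s359 R i) (s244 R i)

theorem e1214 (R : VR) : B (VR.S R) (v1214 R) (s1214 R) :=
  L.ble (VR.h1e R) (e359 R) (e244 R)

noncomputable def v1215 (R : VR) : ℕ :=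
  Nat.land (Nat.shiftRight (Nat.land (Nat.sub (Nat.add (VR.rkT R) (VR.h1 R)) (v359 R)) (VR.h1 R))
    (nat_lit 15)) (v437 R)

noncomputable def s1215 (R : VR) (i : ℕ) : Bool :=
  K.band (s1214 R i) (s437 R i)

theorem e1215 (R : VR) : B (VR.S R) (v1215 R) (s1215 R) :=
  B.and (e1214 R) (e437 R)

noncomputable def v1216 (R : VR) : ℕ :=
  Nat.land (Nat.land (Nat.shiftRight (Nat.land (Nat.sub (Nat.add (VR.rkT R) (VR.h1 R)) (v359 R))
    (VR.h1 R)) (nat_lit 15)) (v437 R)) (v465 R)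

noncomputable def s1216 (R : VR) (i : ℕ) : Bool :=
  K.band (s1215 R i) (s465 R i)

theorem e1216 (R : VR) : B (VR.S R) (v1216 R) (s1216 R) :=
  B.and (e1215 R) (e465 R)

noncomputable def v1217 (R : VR) : ℕ :=
  (nat_lit 11)

noncomputable def s1217 (R : VR) : ℕ :=
  (nat_lit 11)

theorem e1217 (R : VR) : (v1217 R) = s1217 R :=
  rfl

noncomputable def v1218 (R : VR) : ℕ :=
  Nat.land (Nat.shiftRight (v1061 R) (nat_lit 11)) (VR.o1 R)

noncomputable def s1218 (R : VR) (i : ℕ) : Bool :=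
  K.tbit (s1061 R i) (nat_lit 11)

theorem e1218 (R : VR) : B (VR.S R) (v1218 R) (s1218 R) :=
  B.tbc (VR.o1e R) (e1061 R) 11 (by decide)

noncomputable def v1219 (R : VR) : ℕ :=
  Nat.land (Nat.land (Nat.land (Nat.shiftRight (Nat.land (Nat.sub (Nat.add (VR.rkT R) (VR.h1 R))
    (v359 R)) (VR.h1 R)) (nat_lit 15)) (v437 R)) (v465 R)) (Nat.land (Nat.shiftRight (v1061 R)
    (nat_lit 11)) (VR.o1 R))

noncomputable def s1219 (R : VR) (i : ℕ) : Bool :=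
  K.band (s1216 R i) (s1218 R i)

theorem e1219 (R : VR) : B (VR.S R) (v1219 R) (s1219 R) :=
  B.and (e1216 R) (e1218 R)

noncomputable def s1220 (R : VR) (i : ℕ) : Bool :=
  K.Wt_lun (FC7.WF.toWt (VR.WF R)) (s244 R i) (s247 R i)

theorem e1220 (R : VR) : B (VR.S R) (v1219 R) (s1220 R) :=
  e1219 R

noncomputable def v1221 (R : VR) : ℕ :=
  Nat.sub (VR.o1 R) (v1219 R)

noncomputable def s1221 (R : VR) (i : ℕ) : Bool :=
  K.bnot (s1220 R i)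

theorem e1221 (R : VR) : B (VR.S R) (v1221 R) (s1221 R) :=
  B.not (VR.o1e R) (e1220 R)

noncomputable def v1222 (R : VR) : ℕ :=
  Nat.shiftRight (Nat.land (Nat.sub (Nat.add (v267 R) (VR.h1 R)) (VR.rkT R)) (VR.h1 R)) (nat_lit
    15)

noncomputable def s1222 (R : VR) (i : ℕ) : Bool :=
  Nat.ble (s244 R i) (s267 R i)

theorem e1222 (R : VR) : B (VR.S R) (v1222 R) (s1222 R) :=
  L.ble (VR.h1e R) (e244 R) (e267 R)

noncomputable def v1223 (R : VR) : ℕ :=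
  Nat.land (Nat.shiftRight (v1014 R) (nat_lit 8)) (Nat.mul (VR.o1 R) (nat_lit 1))

noncomputable def s1223 (R : VR) (i : ℕ) : ℕ :=
  Nat.mod (Nat.div (s1014 R i) (nat_lit 256)) (nat_lit 2)

theorem e1223 (R : VR) : L (VR.S R) (v1223 R) (s1223 R) 1 :=
  L.fld (VR.o1e R) (e1014 R) 8 1 (by decide) (by decide)

noncomputable def v1224 (R : VR) : ℕ :=
  Nat.shiftRight (Nat.land (Nat.sub (VR.h1 R) (Nat.xor (Nat.land (Nat.shiftRight (v1014 R)
    (nat_lit 8)) (Nat.mul (VR.o1 R) (nat_lit 1))) (v267 R))) (VR.h1 R)) (nat_lit 15)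

noncomputable def s1224 (R : VR) (i : ℕ) : Bool :=
  Nat.beq (s1223 R i) (s267 R i)

theorem e1224 (R : VR) : B (VR.S R) (v1224 R) (s1224 R) :=
  L.beq (VR.h1e R) (e1223 R) (e267 R)

noncomputable def s1225 (R : VR) (i : ℕ) : Bool :=
  K.ws (s1014 R i)

theorem e1225 (R : VR) : B (VR.S R) (v1224 R) (s1225 R) :=
  e1224 R

noncomputable def v1226 (R : VR) : ℕ :=
  Nat.land (v437 R) (Nat.shiftRight (Nat.land (Nat.sub (VR.h1 R) (Nat.xor (Nat.land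
    (Nat.shiftRight (v1014 R) (nat_lit 8)) (Nat.mul (VR.o1 R) (nat_lit 1))) (v267 R))) (VR.h1 R))
    (nat_lit 15))

noncomputable def s1226 (R : VR) (i : ℕ) : Bool :=
  K.band (s437 R i) (s1225 R i)

theorem e1226 (R : VR) : B (VR.S R) (v1226 R) (s1226 R) :=
  B.and (e437 R) (e1225 R)

noncomputable def v1227 (R : VR) : ℕ :=
  Nat.land (Nat.shiftRight (v1061 R) (nat_lit 9)) (Nat.mul (VR.o1 R) (nat_lit 1))

noncomputable def s1227 (R : VR) (i : ℕ) : ℕ :=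
  Nat.mod (Nat.div (s1061 R i) (nat_lit 512)) (nat_lit 2)

theorem e1227 (R : VR) : L (VR.S R) (v1227 R) (s1227 R) 1 :=
  L.fld (VR.o1e R) (e1061 R) 9 1 (by decide) (by decide)

noncomputable def v1228 (R : VR) : ℕ :=
  Nat.shiftRight (Nat.land (Nat.sub (VR.h1 R) (Nat.xor (Nat.land (Nat.shiftRight (v1061 R)
    (nat_lit 9)) (Nat.mul (VR.o1 R) (nat_lit 1))) (v267 R))) (VR.h1 R)) (nat_lit 15)

noncomputable def s1228 (R : VR) (i : ℕ) : Bool :=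
  Nat.beq (s1227 R i) (s267 R i)

theorem e1228 (R : VR) : B (VR.S R) (v1228 R) (s1228 R) :=
  L.beq (VR.h1e R) (e1227 R) (e267 R)

noncomputable def s1229 (R : VR) (i : ℕ) : Bool :=
  K.wo (s1061 R i)

theorem e1229 (R : VR) : B (VR.S R) (v1228 R) (s1229 R) :=
  e1228 R

noncomputable def v1230 (R : VR) : ℕ :=
  Nat.land (v1060 R) (Nat.shiftRight (Nat.land (Nat.sub (VR.h1 R) (Nat.xor (Nat.land
    (Nat.shiftRight (v1061 R) (nat_lit 9)) (Nat.mul (VR.o1 R) (nat_lit 1))) (v267 R))) (VR.h1 R))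
    (nat_lit 15))

noncomputable def s1230 (R : VR) (i : ℕ) : Bool :=
  K.band (s1060 R i) (s1229 R i)

theorem e1230 (R : VR) : B (VR.S R) (v1230 R) (s1230 R) :=
  B.and (e1060 R) (e1229 R)

noncomputable def v1231 (R : VR) : ℕ :=
  Nat.xor (v1230 R) (Nat.land (Nat.xor (v1230 R) (Nat.land (v437 R) (Nat.shiftRight (Nat.land
    (Nat.sub (VR.h1 R) (Nat.xor (Nat.land (Nat.shiftRight (v1014 R) (nat_lit 8)) (Nat.mul (VR.o1
    R) (nat_lit 1))) (v267 R))) (VR.h1 R)) (nat_lit 15)))) (Nat.shiftRight (Nat.land (Nat.sub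
    (Nat.add (v267 R) (VR.h1 R)) (VR.rkT R)) (VR.h1 R)) (nat_lit 15)))

noncomputable def s1231 (R : VR) (i : ℕ) : Bool :=
  Bool.rec (motive := fun _ => Bool) (s1230 R i) (s1226 R i) (s1222 R i)

theorem e1231 (R : VR) : B (VR.S R) (v1231 R) (s1231 R) :=
  B.sel (e1222 R) (e1226 R) (e1230 R)

noncomputable def s1232 (R : VR) (i : ℕ) : Bool :=
  K.Wt_lb (FC7.WF.toWt (VR.WF R)) (s244 R i) (s247 R i)

theorem e1232 (R : VR) : B (VR.S R) (v1231 R) (s1232 R) :=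
  e1231 R

noncomputable def v1233 (R : VR) : ℕ :=
  Nat.sub (VR.o1 R) (Nat.xor (VR.lbT R) (v1231 R))

noncomputable def s1233 (R : VR) (i : ℕ) : Bool :=
  K.beqB (s1126 R i) (s1232 R i)

theorem e1233 (R : VR) : B (VR.S R) (v1233 R) (s1233 R) :=
  B.beqB (VR.o1e R) (e1126 R) (e1232 R)

noncomputable def v1234 (R : VR) : ℕ :=
  Nat.land (Nat.sub (VR.o1 R) (v1219 R)) (Nat.sub (VR.o1 R) (Nat.xor (VR.lbT R) (v1231 R)))

noncomputable def s1234 (R : VR) (i : ℕ) : Bool :=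
  K.band (s1221 R i) (s1233 R i)

theorem e1234 (R : VR) : B (VR.S R) (v1234 R) (s1234 R) :=
  B.and (e1221 R) (e1233 R)

noncomputable def v1235 (R : VR) : ℕ :=
  Nat.xor (v1234 R) (Nat.land (Nat.xor (v1234 R) (Nat.land (Nat.land (v1127 R) (v1132 R))
    (Nat.shiftRight (Nat.land (Nat.sub (VR.h1 R) (Nat.mod (Nat.land (Nat.sub (VR.o2 R) (Nat.lor
    (Nat.lor (srM (VR.N R) (VR.S R) (VR.o1 R) (Nat.lor (v1135 R) (v1132 R))) (v1173 R)) (v1207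
    R))) (mM (Nat.mul (v112 R) (VR.S R)))) (VR.m1 R))) (VR.h1 R)) (nat_lit 15)))) (VR.luT R))

noncomputable def s1235 (R : VR) (i : ℕ) : Bool :=
  Bool.rec (motive := fun _ => Bool) (s1234 R i) (s1213 R i) (s1125 R i)

theorem e1235 (R : VR) : B (VR.S R) (v1235 R) (s1235 R) :=
  B.sel (e1125 R) (e1213 R) (e1234 R)

noncomputable def v1236 (R : VR) : ℕ :=
  Nat.land (Nat.xor (v1123 R) (Nat.land (Nat.xor (v1123 R) (v1010 R)) (VR.ukT R))) (Nat.xor (v1234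
    R) (Nat.land (Nat.xor (v1234 R) (Nat.land (Nat.land (v1127 R) (v1132 R)) (Nat.shiftRight
    (Nat.land (Nat.sub (VR.h1 R) (Nat.mod (Nat.land (Nat.sub (VR.o2 R) (Nat.lor (Nat.lor (srM
    (VR.N R) (VR.S R) (VR.o1 R) (Nat.lor (v1135 R) (v1132 R))) (v1173 R)) (v1207 R))) (mM (Nat.mul
    (v112 R) (VR.S R)))) (VR.m1 R))) (VR.h1 R)) (nat_lit 15)))) (VR.luT R)))

noncomputable def s1236 (R : VR) (i : ℕ) : Bool :=
  K.band (s1124 R i) (s1235 R i)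

theorem e1236 (R : VR) : B (VR.S R) (v1236 R) (s1236 R) :=
  B.and (e1124 R) (e1235 R)

noncomputable def s1237 (R : VR) (i : ℕ) : ℕ :=
  bt (s1126 R i)

theorem e1237 (R : VR) : L (VR.S R) (VR.lbT R) (s1237 R) 1 :=
  B.L (e1126 R)

noncomputable def v1238 (R : VR) : ℕ :=
  Nat.xor (v511 R) (Nat.land (Nat.xor (v511 R) (v267 R)) (Nat.mul (VR.lbT R) (nat_lit 32767)))

noncomputable def s1238 (R : VR) (i : ℕ) : ℕ :=
  Bool.rec (motive := fun _ => ℕ) (s511 R i) (s267 R i) (s1126 R i)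

theorem e1238 (R : VR) : L (VR.S R) (v1238 R) (s1238 R) 1 :=
  L.sel (e1126 R) (e267 R) (e511 R) (by decide) (by decide) (by decide)

noncomputable def v1239 (R : VR) : ℕ :=
  Nat.shiftRight (Nat.land (Nat.sub (VR.h1 R) (Nat.xor (VR.lbT R) (Nat.xor (v511 R) (Nat.land
    (Nat.xor (v511 R) (v267 R)) (Nat.mul (VR.lbT R) (nat_lit 32767)))))) (VR.h1 R)) (nat_lit 15)

noncomputable def s1239 (R : VR) (i : ℕ) : Bool :=
  Nat.beq (s1237 R i) (s1238 R i)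

theorem e1239 (R : VR) : B (VR.S R) (v1239 R) (s1239 R) :=
  L.beq (VR.h1e R) (e1237 R) (e1238 R)

noncomputable def v1240 (R : VR) : ℕ :=
  Nat.land (v1236 R) (Nat.shiftRight (Nat.land (Nat.sub (VR.h1 R) (Nat.xor (VR.lbT R) (Nat.xor
    (v511 R) (Nat.land (Nat.xor (v511 R) (v267 R)) (Nat.mul (VR.lbT R) (nat_lit 32767)))))) (VR.h1
    R)) (nat_lit 15))

noncomputable def s1240 (R : VR) (i : ℕ) : Bool :=
  K.band (s1236 R i) (s1239 R i)

theorem e1240 (R : VR) : B (VR.S R) (v1240 R) (s1240 R) :=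
  B.and (e1236 R) (e1239 R)

noncomputable def v1241 (R : VR) : ℕ :=
  Nat.sub (VR.o1 R) (VR.ukT R)

noncomputable def s1241 (R : VR) (i : ℕ) : Bool :=
  K.bnot (s1008 R i)

theorem e1241 (R : VR) : B (VR.S R) (v1241 R) (s1241 R) :=
  B.not (VR.o1e R) (e1008 R)

noncomputable def s1242 (R : VR) (i : ℕ) : ℕ :=
  tx (VR.krT R) i

theorem e1242 (R : VR) : L (VR.S R) (VR.krT R) (s1242 R) 255 :=
  VR.kr_is R

noncomputable def v1243 (R : VR) : ℕ :=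
  Nat.shiftRight (Nat.land (Nat.sub (Nat.add (v172 R) (VR.k1 R)) (VR.krT R)) (VR.h1 R)) (nat_lit
    15)

noncomputable def s1243 (R : VR) (i : ℕ) : Bool :=
  Nat.ble (Nat.succ (s1242 R i)) (s172 R i)

theorem e1243 (R : VR) : B (VR.S R) (v1243 R) (s1243 R) :=
  L.blt (VR.h1e R) (VR.k1e R) (e1242 R) (e172 R)

noncomputable def s1244 (R : VR) (i : ℕ) : ℕ :=
  tx (VR.ceT R) i

theorem e1244 (R : VR) : L (VR.S R) (VR.ceT R) (s1244 R) 14 :=
  VR.ce_is R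

noncomputable def v1245 (R : VR) : ℕ :=
  gmk (VR.h2 R) (VR.J R) (Nat.mul (VR.krT R) (VR.cr1 R))

noncomputable def v1246 (R : VR) : ℕ :=
  srM (VR.N R) (VR.S R) (VR.o1 R) (VR.ceT R)

noncomputable def v1247 (R : VR) : ℕ :=
  Nat.mod (Nat.land (v1245 R) (v1246 R)) (VR.m1 R)

noncomputable def s1247 (R : VR) (i : ℕ) : ℕ :=
  tx (VR.ceT R) (s1242 R i)

theorem e1247 (R : VR) : L (VR.S R) (v1247 R) (s1247 R) 14 :=
  L.gat (e1242 R) (VR.ce_is R) (VR.ce_lt R) (VR.ce_le R)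

noncomputable def v1248 (R : VR) : ℕ :=
  Nat.shiftRight (Nat.land (Nat.sub (VR.h1 R) (Nat.xor (Nat.mod (Nat.land (v1245 R) (v1246 R))
    (VR.m1 R)) (VR.ceT R))) (VR.h1 R)) (nat_lit 15)

noncomputable def s1248 (R : VR) (i : ℕ) : Bool :=
  Nat.beq (s1247 R i) (s1244 R i)

theorem e1248 (R : VR) : B (VR.S R) (v1248 R) (s1248 R) :=
  L.beq (VR.h1e R) (e1247 R) (e1244 R)

noncomputable def v1249 (R : VR) : ℕ :=
  Nat.land (v1243 R) (Nat.shiftRight (Nat.land (Nat.sub (VR.h1 R) (Nat.xor (Nat.mod (Nat.land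
    (v1245 R) (v1246 R)) (VR.m1 R)) (VR.ceT R))) (VR.h1 R)) (nat_lit 15))

noncomputable def s1249 (R : VR) (i : ℕ) : Bool :=
  K.band (s1243 R i) (s1248 R i)

theorem e1249 (R : VR) : B (VR.S R) (v1249 R) (s1249 R) :=
  B.and (e1243 R) (e1248 R)

noncomputable def v1250 (R : VR) : ℕ :=
  Nat.lor (v1241 R) (Nat.land (v1243 R) (Nat.shiftRight (Nat.land (Nat.sub (VR.h1 R) (Nat.xor
    (Nat.mod (Nat.land (v1245 R) (v1246 R)) (VR.m1 R)) (VR.ceT R))) (VR.h1 R)) (nat_lit 15)))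

noncomputable def s1250 (R : VR) (i : ℕ) : Bool :=
  K.bor (s1241 R i) (s1249 R i)

theorem e1250 (R : VR) : B (VR.S R) (v1250 R) (s1250 R) :=
  B.or (e1241 R) (e1249 R)

noncomputable def v1251 (R : VR) : ℕ :=
  Nat.land (Nat.land (v1236 R) (Nat.shiftRight (Nat.land (Nat.sub (VR.h1 R) (Nat.xor (VR.lbT R)
    (Nat.xor (v511 R) (Nat.land (Nat.xor (v511 R) (v267 R)) (Nat.mul (VR.lbT R) (nat_lit
    32767)))))) (VR.h1 R)) (nat_lit 15))) (Nat.lor (v1241 R) (Nat.land (v1243 R) (Nat.shiftRight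
    (Nat.land (Nat.sub (VR.h1 R) (Nat.xor (Nat.mod (Nat.land (v1245 R) (v1246 R)) (VR.m1 R))
    (VR.ceT R))) (VR.h1 R)) (nat_lit 15))))

noncomputable def s1251 (R : VR) (i : ℕ) : Bool :=
  K.band (s1240 R i) (s1250 R i)

theorem e1251 (R : VR) : B (VR.S R) (v1251 R) (s1251 R) :=
  B.and (e1240 R) (e1250 R)

noncomputable def s1252 (R : VR) (i : ℕ) : Bool :=
  tf (VR.opT R) i

theorem e1252 (R : VR) : B (VR.S R) (VR.opT R) (s1252 R) :=
  VR.op_is R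

noncomputable def v1253 (R : VR) : ℕ :=
  Nat.sub (VR.o1 R) (VR.opT R)

noncomputable def s1253 (R : VR) (i : ℕ) : Bool :=
  K.bnot (s1252 R i)

theorem e1253 (R : VR) : B (VR.S R) (v1253 R) (s1253 R) :=
  B.not (VR.o1e R) (e1252 R)

noncomputable def v1254 (R : VR) : ℕ :=
  Nat.xor (v465 R) (Nat.land (Nat.xor (v465 R) (v1012 R)) (v417 R))

noncomputable def s1254 (R : VR) (i : ℕ) : Bool :=
  Bool.rec (motive := fun _ => Bool) (s465 R i) (s1012 R i) (s417 R i)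

theorem e1254 (R : VR) : B (VR.S R) (v1254 R) (s1254 R) :=
  B.sel (e417 R) (e1012 R) (e465 R)

noncomputable def v1255 (R : VR) : ℕ :=
  Nat.land (v437 R) (Nat.xor (v465 R) (Nat.land (Nat.xor (v465 R) (v1012 R)) (v417 R)))

noncomputable def s1255 (R : VR) (i : ℕ) : Bool :=
  K.band (s437 R i) (s1254 R i)

theorem e1255 (R : VR) : B (VR.S R) (v1255 R) (s1255 R) :=
  B.and (e437 R) (e1254 R)

noncomputable def s1256 (R : VR) (i : ℕ) : Bool :=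
  K.Wt_sol (FC7.WF.toWt (VR.WF R)) (s244 R i) (s247 R i)

theorem e1256 (R : VR) : B (VR.S R) (v1255 R) (s1256 R) :=
  e1255 R

noncomputable def v1257 (R : VR) : ℕ :=
  Nat.mod (Nat.land (v418 R) (v129 R)) (VR.m1 R)

noncomputable def s1257 (R : VR) (i : ℕ) : ℕ :=
  tx (VR.caT R) (s247 R i)

theorem e1257 (R : VR) : L (VR.S R) (v1257 R) (s1257 R) 255 :=
  L.gat (e247 R) (VR.ca_is R) (VR.ca_lt R) (VR.ca_le R)

noncomputable def v1258 (R : VR) : ℕ :=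
  Nat.shiftRight (Nat.land (Nat.sub (Nat.add (v625 R) (VR.k1 R)) (Nat.mod (Nat.land (v418 R) (v129
    R)) (VR.m1 R))) (VR.h1 R)) (nat_lit 15)

noncomputable def s1258 (R : VR) (i : ℕ) : Bool :=
  Nat.ble (Nat.succ (s1257 R i)) (s625 R i)

theorem e1258 (R : VR) : B (VR.S R) (v1258 R) (s1258 R) :=
  L.blt (VR.h1e R) (VR.k1e R) (e1257 R) (e625 R)

noncomputable def v1259 (R : VR) : ℕ :=
  Nat.sub (VR.o1 R) (v1258 R)

noncomputable def s1259 (R : VR) (i : ℕ) : Bool :=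
  K.bnot (s1258 R i)

theorem e1259 (R : VR) : B (VR.S R) (v1259 R) (s1259 R) :=
  B.not (VR.o1e R) (e1258 R)

noncomputable def v1260 (R : VR) : ℕ :=
  Nat.xor (v1061 R) (Nat.land (Nat.xor (v1061 R) (v1014 R)) (Nat.mul (v437 R) (nat_lit 32767)))

noncomputable def s1260 (R : VR) (i : ℕ) : ℕ :=
  Bool.rec (motive := fun _ => ℕ) (s1061 R i) (s1014 R i) (s437 R i)

theorem e1260 (R : VR) : L (VR.S R) (v1260 R) (s1260 R) 32767 :=
  L.sel (e437 R) (e1014 R) (e1061 R) (by decide) (by decide) (by decide)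

noncomputable def v1261 (R : VR) : ℕ :=
  Nat.xor (v1079 R) (Nat.land (Nat.xor (v1079 R) (v1260 R)) (Nat.mul (v417 R) (nat_lit 32767)))

noncomputable def s1261 (R : VR) (i : ℕ) : ℕ :=
  Bool.rec (motive := fun _ => ℕ) (s1079 R i) (s1260 R i) (s417 R i)

theorem e1261 (R : VR) : L (VR.S R) (v1261 R) (s1261 R) 32767 :=
  L.sel (e417 R) (e1260 R) (e1079 R) (by decide) (by decide) (by decide)

noncomputable def v1262 (R : VR) : ℕ :=
  Nat.xor (v1261 R) (Nat.land (Nat.xor (v1261 R) (v1014 R)) (Nat.mul (v1259 R) (nat_lit 32767)))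

noncomputable def s1262 (R : VR) (i : ℕ) : ℕ :=
  Bool.rec (motive := fun _ => ℕ) (s1261 R i) (s1014 R i) (s1259 R i)

theorem e1262 (R : VR) : L (VR.S R) (v1262 R) (s1262 R) 32767 :=
  L.sel (e1259 R) (e1014 R) (e1261 R) (by decide) (by decide) (by decide)

noncomputable def s1263 (R : VR) (i : ℕ) : ℕ :=
  K.Wt_fl (FC7.WF.toWt (VR.WF R)) (s244 R i) (s247 R i)

theorem e1263 (R : VR) : L (VR.S R) (v1262 R) (s1263 R) 32767 :=
  e1262 R

noncomputable def v1264 (R : VR) : ℕ :=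
  Nat.land (Nat.shiftRight (v1262 R) (nat_lit 2)) (Nat.mul (VR.o1 R) (nat_lit 3))

noncomputable def s1264 (R : VR) (i : ℕ) : ℕ :=
  Nat.mod (Nat.div (s1263 R i) (nat_lit 4)) (nat_lit 4)

theorem e1264 (R : VR) : L (VR.S R) (v1264 R) (s1264 R) 3 :=
  L.fld (VR.o1e R) (e1263 R) 2 2 (by decide) (by decide)

noncomputable def s1265 (R : VR) (i : ℕ) : ℕ :=
  K.wb (s1263 R i)

theorem e1265 (R : VR) : L (VR.S R) (v1264 R) (s1265 R) 3 :=
  e1264 R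

noncomputable def v1266 (R : VR) : ℕ :=
  Nat.shiftRight (Nat.land (Nat.sub (VR.h1 R) (Nat.xor (v1264 R) (v1017 R))) (VR.h1 R)) (nat_lit
    15)

noncomputable def s1266 (R : VR) (i : ℕ) : Bool :=
  Nat.beq (s1265 R i) (s1017 R i)

theorem e1266 (R : VR) : B (VR.S R) (v1266 R) (s1266 R) :=
  L.beq (VR.h1e R) (e1265 R) (e1017 R)

noncomputable def v1267 (R : VR) : ℕ :=
  Nat.land (Nat.shiftRight (v1262 R) (nat_lit 4)) (Nat.mul (VR.o1 R) (nat_lit 3))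

noncomputable def s1267 (R : VR) (i : ℕ) : ℕ :=
  Nat.mod (Nat.div (s1263 R i) (nat_lit 16)) (nat_lit 4)

theorem e1267 (R : VR) : L (VR.S R) (v1267 R) (s1267 R) 3 :=
  L.fld (VR.o1e R) (e1263 R) 4 2 (by decide) (by decide)

noncomputable def s1268 (R : VR) (i : ℕ) : ℕ :=
  K.wc (s1263 R i)

theorem e1268 (R : VR) : L (VR.S R) (v1267 R) (s1268 R) 3 :=
  e1267 R

noncomputable def v1269 (R : VR) : ℕ :=
  Nat.shiftRight (Nat.land (Nat.sub (VR.h1 R) (Nat.xor (v1267 R) (v1017 R))) (VR.h1 R)) (nat_lit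
    15)

noncomputable def s1269 (R : VR) (i : ℕ) : Bool :=
  Nat.beq (s1268 R i) (s1017 R i)

theorem e1269 (R : VR) : B (VR.S R) (v1269 R) (s1269 R) :=
  L.beq (VR.h1e R) (e1268 R) (e1017 R)

noncomputable def v1270 (R : VR) : ℕ :=
  Nat.land (Nat.shiftRight (Nat.land (Nat.sub (VR.h1 R) (Nat.xor (v1264 R) (v1017 R))) (VR.h1 R))
    (nat_lit 15)) (Nat.shiftRight (Nat.land (Nat.sub (VR.h1 R) (Nat.xor (v1267 R) (v1017 R)))
    (VR.h1 R)) (nat_lit 15))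

noncomputable def s1270 (R : VR) (i : ℕ) : Bool :=
  K.band (s1266 R i) (s1269 R i)

theorem e1270 (R : VR) : B (VR.S R) (v1270 R) (s1270 R) :=
  B.and (e1266 R) (e1269 R)

noncomputable def s1271 (R : VR) (i : ℕ) : Bool :=
  K.uo (s1263 R i)

theorem e1271 (R : VR) : B (VR.S R) (v1270 R) (s1271 R) :=
  e1270 R

noncomputable def v1272 (R : VR) : ℕ :=
  (nat_lit 10)

noncomputable def s1272 (R : VR) : ℕ :=
  (nat_lit 10)

theorem e1272 (R : VR) : (v1272 R) = s1272 R :=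
  rfl

noncomputable def v1273 (R : VR) : ℕ :=
  Nat.land (Nat.shiftRight (v1262 R) (nat_lit 10)) (VR.o1 R)

noncomputable def s1273 (R : VR) (i : ℕ) : Bool :=
  K.tbit (s1263 R i) (nat_lit 10)

theorem e1273 (R : VR) : B (VR.S R) (v1273 R) (s1273 R) :=
  B.tbc (VR.o1e R) (e1263 R) 10 (by decide)

noncomputable def v1274 (R : VR) : ℕ :=
  Nat.xor (v511 R) (Nat.land (Nat.xor (v511 R) (v359 R)) (Nat.mul (Nat.land (Nat.shiftRight (v1262
    R) (nat_lit 10)) (VR.o1 R)) (nat_lit 32767)))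

noncomputable def s1274 (R : VR) (i : ℕ) : ℕ :=
  Bool.rec (motive := fun _ => ℕ) (s511 R i) (s359 R i) (s1273 R i)

theorem e1274 (R : VR) : L (VR.S R) (v1274 R) (s1274 R) 2 :=
  L.sel (e1273 R) (e359 R) (e511 R) (by decide) (by decide) (by decide)

noncomputable def v1275 (R : VR) : ℕ :=
  Nat.land (v1262 R) (Nat.mul (VR.o1 R) (nat_lit 3))

noncomputable def s1275 (R : VR) (i : ℕ) : ℕ :=
  Nat.mod (s1263 R i) (nat_lit 4)

theorem e1275 (R : VR) : L (VR.S R) (v1275 R) (s1275 R) 3 :=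
  L.fld0 (VR.o1e R) (e1263 R) 2 (by decide)

noncomputable def s1276 (R : VR) (i : ℕ) : ℕ :=
  K.wa (s1263 R i)

theorem e1276 (R : VR) : L (VR.S R) (v1275 R) (s1276 R) 3 :=
  e1275 R

noncomputable def v1277 (R : VR) : ℕ :=
  Nat.add (Nat.land (v1262 R) (Nat.mul (VR.o1 R) (nat_lit 3))) (v1264 R)

noncomputable def s1277 (R : VR) (i : ℕ) : ℕ :=
  Nat.add (s1276 R i) (s1265 R i)

theorem e1277 (R : VR) : L (VR.S R) (v1277 R) (s1277 R) 6 :=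
  L.add (e1276 R) (e1265 R) (by decide)

noncomputable def v1278 (R : VR) : ℕ :=
  Nat.add (Nat.add (Nat.land (v1262 R) (Nat.mul (VR.o1 R) (nat_lit 3))) (v1264 R)) (v1267 R)

noncomputable def s1278 (R : VR) (i : ℕ) : ℕ :=
  Nat.add (s1277 R i) (s1268 R i)

theorem e1278 (R : VR) : L (VR.S R) (v1278 R) (s1278 R) 9 :=
  L.add (e1277 R) (e1268 R) (by decide)

noncomputable def v1279 (R : VR) : ℕ :=
  Nat.shiftRight (Nat.land (Nat.sub (VR.h1 R) (v1278 R)) (VR.h1 R)) (nat_lit 15)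

noncomputable def s1279 (R : VR) (i : ℕ) : Bool :=
  Nat.beq (s1278 R i) (nat_lit 0)

theorem e1279 (R : VR) : B (VR.S R) (v1279 R) (s1279 R) :=
  L.ez (VR.h1e R) (e1278 R)

noncomputable def v1280 (R : VR) : ℕ :=
  Nat.shiftRight (Nat.land (Nat.sub (Nat.add (v359 R) (VR.h1 R)) (v1278 R)) (VR.h1 R)) (nat_lit
    15)

noncomputable def s1280 (R : VR) (i : ℕ) : Bool :=
  Nat.ble (s1278 R i) (s359 R i)

theorem e1280 (R : VR) : B (VR.S R) (v1280 R) (s1280 R) :=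
  L.ble (VR.h1e R) (e1278 R) (e359 R)

noncomputable def v1281 (R : VR) : ℕ :=
  Nat.xor (v359 R) (Nat.land (Nat.xor (v359 R) (v267 R)) (Nat.mul (Nat.shiftRight (Nat.land
    (Nat.sub (Nat.add (v359 R) (VR.h1 R)) (v1278 R)) (VR.h1 R)) (nat_lit 15)) (nat_lit 32767)))

noncomputable def s1281 (R : VR) (i : ℕ) : ℕ :=
  Bool.rec (motive := fun _ => ℕ) (s359 R i) (s267 R i) (s1280 R i)

theorem e1281 (R : VR) : L (VR.S R) (v1281 R) (s1281 R) 2 :=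
  L.sel (e1280 R) (e267 R) (e359 R) (by decide) (by decide) (by decide)

noncomputable def v1282 (R : VR) : ℕ :=
  Nat.xor (v1281 R) (Nat.land (Nat.xor (v1281 R) (v1017 R)) (Nat.mul (Nat.shiftRight (Nat.land
    (Nat.sub (VR.h1 R) (v1278 R)) (VR.h1 R)) (nat_lit 15)) (nat_lit 32767)))

noncomputable def s1282 (R : VR) (i : ℕ) : ℕ :=
  Bool.rec (motive := fun _ => ℕ) (s1281 R i) (s1017 R i) (s1279 R i)

theorem e1282 (R : VR) : L (VR.S R) (v1282 R) (s1282 R) 3 :=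
  L.sel (e1279 R) (e1017 R) (e1281 R) (by decide) (by decide) (by decide)

noncomputable def v1283 (R : VR) : ℕ :=
  Nat.xor (v1282 R) (Nat.land (Nat.xor (v1282 R) (Nat.xor (v511 R) (Nat.land (Nat.xor (v511 R)
    (v359 R)) (Nat.mul (Nat.land (Nat.shiftRight (v1262 R) (nat_lit 10)) (VR.o1 R)) (nat_lit
    32767))))) (Nat.mul (v1270 R) (nat_lit 32767)))

noncomputable def s1283 (R : VR) (i : ℕ) : ℕ :=
  Bool.rec (motive := fun _ => ℕ) (s1282 R i) (s1274 R i) (s1271 R i)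

theorem e1283 (R : VR) : L (VR.S R) (v1283 R) (s1283 R) 3 :=
  L.sel (e1271 R) (e1274 R) (e1282 R) (by decide) (by decide) (by decide)

noncomputable def v1284 (R : VR) : ℕ :=
  Nat.xor (v1264 R) (Nat.land (Nat.xor (v1264 R) (Nat.xor (v1282 R) (Nat.land (Nat.xor (v1282 R)
    (Nat.xor (v511 R) (Nat.land (Nat.xor (v511 R) (v359 R)) (Nat.mul (Nat.land (Nat.shiftRight
    (v1262 R) (nat_lit 10)) (VR.o1 R)) (nat_lit 32767))))) (Nat.mul (v1270 R) (nat_lit 32767)))))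
    (Nat.mul (v1255 R) (nat_lit 32767)))

noncomputable def s1284 (R : VR) (i : ℕ) : ℕ :=
  Bool.rec (motive := fun _ => ℕ) (s1265 R i) (s1283 R i) (s1256 R i)

theorem e1284 (R : VR) : L (VR.S R) (v1284 R) (s1284 R) 3 :=
  L.sel (e1256 R) (e1283 R) (e1265 R) (by decide) (by decide) (by decide)

noncomputable def s1285 (R : VR) (i : ℕ) : ℕ :=
  K.Wt_fc (FC7.WF.toWt (VR.WF R)) (s244 R i) (s247 R i)

theorem e1285 (R : VR) : L (VR.S R) (v1284 R) (s1285 R) 3 :=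
  e1284 R

noncomputable def s1286 (R : VR) (i : ℕ) : ℕ :=
  K.WF_fcl (VR.WF R) i

theorem e1286 (R : VR) : L (VR.S R) (v1284 R) (s1286 R) 3 :=
  e1285 R

noncomputable def v1287 (R : VR) : ℕ :=
  Nat.shiftRight (Nat.land (Nat.sub (VR.h1 R) (Nat.xor (v1284 R) (v1017 R))) (VR.h1 R)) (nat_lit
    15)

noncomputable def s1287 (R : VR) (i : ℕ) : Bool :=
  Nat.beq (s1286 R i) (s1017 R i)

theorem e1287 (R : VR) : B (VR.S R) (v1287 R) (s1287 R) :=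
  L.beq (VR.h1e R) (e1286 R) (e1017 R)

noncomputable def v1288 (R : VR) : ℕ :=
  Nat.lor (v1253 R) (v1287 R)

noncomputable def s1288 (R : VR) (i : ℕ) : Bool :=
  K.bor (s1253 R i) (s1287 R i)

theorem e1288 (R : VR) : B (VR.S R) (v1288 R) (s1288 R) :=
  B.or (e1253 R) (e1287 R)

noncomputable def v1289 (R : VR) : ℕ :=
  Nat.land (Nat.land (Nat.land (v1236 R) (Nat.shiftRight (Nat.land (Nat.sub (VR.h1 R) (Nat.xor
    (VR.lbT R) (Nat.xor (v511 R) (Nat.land (Nat.xor (v511 R) (v267 R)) (Nat.mul (VR.lbT R)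
    (nat_lit 32767)))))) (VR.h1 R)) (nat_lit 15))) (Nat.lor (v1241 R) (Nat.land (v1243 R)
    (Nat.shiftRight (Nat.land (Nat.sub (VR.h1 R) (Nat.xor (Nat.mod (Nat.land (v1245 R) (v1246 R))
    (VR.m1 R)) (VR.ceT R))) (VR.h1 R)) (nat_lit 15))))) (Nat.lor (v1253 R) (v1287 R))

noncomputable def s1289 (R : VR) (i : ℕ) : Bool :=
  K.band (s1251 R i) (s1288 R i)

theorem e1289 (R : VR) : B (VR.S R) (v1289 R) (s1289 R) :=
  B.and (e1251 R) (e1288 R)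

noncomputable def s1290 (R : VR) (i : ℕ) : Bool :=
  tf (VR.twT R) i

theorem e1290 (R : VR) : B (VR.S R) (VR.twT R) (s1290 R) :=
  VR.tw_is R

noncomputable def v1291 (R : VR) : ℕ :=
  Nat.sub (VR.o1 R) (VR.twT R)

noncomputable def s1291 (R : VR) (i : ℕ) : Bool :=
  K.bnot (s1290 R i)

theorem e1291 (R : VR) : B (VR.S R) (v1291 R) (s1291 R) :=
  B.not (VR.o1e R) (e1290 R)

noncomputable def v1292 (R : VR) : ℕ :=
  Nat.lor (Nat.sub (VR.o1 R) (VR.twT R)) (v1287 R)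

noncomputable def s1292 (R : VR) (i : ℕ) : Bool :=
  K.bor (s1291 R i) (s1287 R i)

theorem e1292 (R : VR) : B (VR.S R) (v1292 R) (s1292 R) :=
  B.or (e1291 R) (e1287 R)

noncomputable def v1293 (R : VR) : ℕ :=
  Nat.shiftRight (Nat.land (Nat.sub (VR.h1 R) (Nat.xor (v1284 R) (v267 R))) (VR.h1 R)) (nat_lit
    15)

noncomputable def s1293 (R : VR) (i : ℕ) : Bool :=
  Nat.beq (s1286 R i) (s267 R i)

theorem e1293 (R : VR) : B (VR.S R) (v1293 R) (s1293 R) :=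
  L.beq (VR.h1e R) (e1286 R) (e267 R)

noncomputable def v1294 (R : VR) : ℕ :=
  Nat.lor (Nat.lor (Nat.sub (VR.o1 R) (VR.twT R)) (v1287 R)) (v1293 R)

noncomputable def s1294 (R : VR) (i : ℕ) : Bool :=
  K.bor (s1292 R i) (s1293 R i)

theorem e1294 (R : VR) : B (VR.S R) (v1294 R) (s1294 R) :=
  B.or (e1292 R) (e1293 R)

noncomputable def v1295 (R : VR) : ℕ :=
  Nat.land (v1289 R) (Nat.lor (Nat.lor (Nat.sub (VR.o1 R) (VR.twT R)) (v1287 R)) (v1293 R))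

noncomputable def s1295 (R : VR) (i : ℕ) : Bool :=
  K.band (s1289 R i) (s1294 R i)

theorem e1295 (R : VR) : B (VR.S R) (v1295 R) (s1295 R) :=
  B.and (e1289 R) (e1294 R)

noncomputable def s1296 (R : VR) (i : ℕ) : Bool :=
  tf (VR.roT R) i

theorem e1296 (R : VR) : B (VR.S R) (VR.roT R) (s1296 R) :=
  VR.ro_is R

noncomputable def v1297 (R : VR) : ℕ :=
  Nat.land (v192 R) (VR.roT R)

noncomputable def s1297 (R : VR) (i : ℕ) : Bool :=
  K.band (s192 R i) (s1296 R i)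

theorem e1297 (R : VR) : B (VR.S R) (v1297 R) (s1297 R) :=
  B.and (e192 R) (e1296 R)

noncomputable def s1298 (R : VR) (i : ℕ) : Bool :=
  K.OD_rg (VR.O R) (VR.P R) i

theorem e1298 (R : VR) : B (VR.S R) (v1297 R) (s1298 R) :=
  e1297 R

noncomputable def v1299 (R : VR) : ℕ :=
  Nat.sub (VR.o1 R) (v1297 R)

noncomputable def s1299 (R : VR) (i : ℕ) : Bool :=
  K.bnot (s1298 R i)

theorem e1299 (R : VR) : B (VR.S R) (v1299 R) (s1299 R) :=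
  B.not (VR.o1e R) (e1298 R)

noncomputable def v1300 (R : VR) : ℕ :=
  srM (VR.N R) (VR.S R) (VR.o1 R) (v1135 R)

noncomputable def s1300 (R : VR) (j i : ℕ) : Bool :=
  (s1135 R j)

theorem e1300 (R : VR) : B2 R (v1300 R) (s1300 R) :=
  B2.row (e1135 R)

noncomputable def v1301 (R : VR) : ℕ :=
  Nat.lor (v1300 R) (v1173 R)

noncomputable def s1301 (R : VR) (j i : ℕ) : Bool :=
  K.bor (s1300 R j i) (s1175 R j i)

theorem e1301 (R : VR) : B2 R (v1301 R) (s1301 R) :=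
  B.or (e1300 R) (e1175 R)

noncomputable def v1302 (R : VR) : ℕ :=
  Nat.lor (Nat.lor (v1300 R) (v1173 R)) (v1207 R)

noncomputable def s1302 (R : VR) (j i : ℕ) : Bool :=
  K.bor (s1301 R j i) (s1209 R j i)

theorem e1302 (R : VR) : B2 R (v1302 R) (s1302 R) :=
  B.or (e1301 R) (e1209 R)

noncomputable def v1303 (R : VR) : ℕ :=
  Nat.shiftRight (Nat.land (Nat.sub (VR.h1 R) (Nat.mod (Nat.land (Nat.sub (VR.o2 R) (Nat.lor
    (Nat.lor (v1300 R) (v1173 R)) (v1207 R))) (mM (Nat.mul (v112 R) (VR.S R)))) (VR.m1 R))) (VR.h1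
    R)) (nat_lit 15)

noncomputable def s1303 (R : VR) (i : ℕ) : Bool :=
  K.allN (s112 R) (fun j => (s1302 R j i))

theorem e1303 (R : VR) : B (VR.S R) (v1303 R) (s1303 R) :=
  B.all (e1302 R) (VR.n_le R)

noncomputable def s1304 (R : VR) (i : ℕ) : Bool :=
  K.allN (s112 R) (fun (x39 : ℕ) => (K.bor (K.bor (K.bnot (FC6.Pa.real (FC7.Fc.P (FC7.WF.F (VR.WF
    R))) x39)) (K.WF_dis (VR.WF R) (FC6.Pa.l (FC7.Fc.P (FC7.WF.F (VR.WF R))) x39) (FC6.Pa.l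
    (FC7.Fc.P (FC7.WF.F (VR.WF R))) (FC6.Pa.φ (FC7.Fc.P (FC7.WF.F (VR.WF R))) i)))) (K.WF_dis
    (VR.WF R) (FC6.Pa.l (FC7.Fc.P (FC7.WF.F (VR.WF R))) (FC6.Pa.φ (FC7.Fc.P (FC7.WF.F (VR.WF R)))
    x39)) (FC6.Pa.l (FC7.Fc.P (FC7.WF.F (VR.WF R))) i))))

theorem e1304 (R : VR) : B (VR.S R) (v1303 R) (s1304 R) :=
  e1303 R

noncomputable def v1305 (R : VR) : ℕ :=
  Nat.land (VR.realT R) (Nat.shiftRight (Nat.land (Nat.sub (VR.h1 R) (Nat.mod (Nat.land (Nat.sub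
    (VR.o2 R) (Nat.lor (Nat.lor (v1300 R) (v1173 R)) (v1207 R))) (mM (Nat.mul (v112 R) (VR.S R))))
    (VR.m1 R))) (VR.h1 R)) (nat_lit 15))

noncomputable def s1305 (R : VR) (i : ℕ) : Bool :=
  K.band (s434 R i) (s1304 R i)

theorem e1305 (R : VR) : B (VR.S R) (v1305 R) (s1305 R) :=
  B.and (e434 R) (e1304 R)

noncomputable def v1306 (R : VR) : ℕ :=
  Nat.lor (Nat.sub (VR.o1 R) (v1297 R)) (Nat.land (VR.realT R) (Nat.shiftRight (Nat.land (Nat.sub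
    (VR.h1 R) (Nat.mod (Nat.land (Nat.sub (VR.o2 R) (Nat.lor (Nat.lor (v1300 R) (v1173 R)) (v1207
    R))) (mM (Nat.mul (v112 R) (VR.S R)))) (VR.m1 R))) (VR.h1 R)) (nat_lit 15)))

noncomputable def s1306 (R : VR) (i : ℕ) : Bool :=
  K.bor (s1299 R i) (s1305 R i)

theorem e1306 (R : VR) : B (VR.S R) (v1306 R) (s1306 R) :=
  B.or (e1299 R) (e1305 R)

noncomputable def v1307 (R : VR) : ℕ :=
  Nat.land (Nat.land (v1289 R) (Nat.lor (Nat.lor (Nat.sub (VR.o1 R) (VR.twT R)) (v1287 R)) (v1293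
    R))) (Nat.lor (Nat.sub (VR.o1 R) (v1297 R)) (Nat.land (VR.realT R) (Nat.shiftRight (Nat.land
    (Nat.sub (VR.h1 R) (Nat.mod (Nat.land (Nat.sub (VR.o2 R) (Nat.lor (Nat.lor (v1300 R) (v1173
    R)) (v1207 R))) (mM (Nat.mul (v112 R) (VR.S R)))) (VR.m1 R))) (VR.h1 R)) (nat_lit 15))))

noncomputable def s1307 (R : VR) (i : ℕ) : Bool :=
  K.band (s1295 R i) (s1306 R i)

theorem e1307 (R : VR) : B (VR.S R) (v1307 R) (s1307 R) :=
  B.and (e1295 R) (e1306 R)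

noncomputable def v1308 (R : VR) : Bool :=
  Nat.beq (Nat.land (Nat.sub (VR.o1 R) (Nat.land (Nat.land (v1289 R) (Nat.lor (Nat.lor (Nat.sub
    (VR.o1 R) (VR.twT R)) (v1287 R)) (v1293 R))) (Nat.lor (Nat.sub (VR.o1 R) (v1297 R)) (Nat.land
    (VR.realT R) (Nat.shiftRight (Nat.land (Nat.sub (VR.h1 R) (Nat.mod (Nat.land (Nat.sub (VR.o2
    R) (Nat.lor (Nat.lor (v1300 R) (v1173 R)) (v1207 R))) (mM (Nat.mul (v112 R) (VR.S R)))) (VR.m1
    R))) (VR.h1 R)) (nat_lit 15)))))) (mM (v112 R))) (nat_lit 0)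

noncomputable def s1308 (R : VR) : Bool :=
  K.allN (s112 R) (s1307 R)

theorem e1308 (R : VR) : (v1308 R) = s1308 R :=
  all0 (e1307 R) (VR.n_le R)

noncomputable def s1309 (R : VR) : Bool :=
  K.allN (s112 R) (fun (x40 : ℕ) => (K.band (K.band (K.band (K.band (K.band (K.band (Bool.rec
    (motive := fun _ => Bool) (K.band (K.Wt_kn (FC7.WF.toWt (VR.WF R)) (FC6.Sp.rk (FC6.Stars.Q
    (FC7.Wt.Z (FC7.WF.toWt (VR.WF R)))) x40) (FC6.Sp.rj (FC6.Stars.Q (FC7.Wt.Z (FC7.WF.toWt (VR.WF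
    R)))) x40)) (Nat.beq (FC6.Pa.u (FC7.Fc.P (FC7.WF.F (VR.WF R))) x40) (K.Wt_un (FC7.WF.toWt
    (VR.WF R)) (FC6.Sp.rk (FC6.Stars.Q (FC7.Wt.Z (FC7.WF.toWt (VR.WF R)))) x40) (FC6.Sp.rj
    (FC6.Stars.Q (FC7.Wt.Z (FC7.WF.toWt (VR.WF R)))) x40)))) (Nat.beq (FC6.Pa.u (FC7.Fc.P
    (FC7.WF.F (VR.WF R))) x40) (nat_lit 0)) (FC7.Fc.uk (FC7.WF.F (VR.WF R)) x40)) (Bool.rec
    (motive := fun _ => Bool) (K.band (K.bnot (K.Wt_lun (FC7.WF.toWt (VR.WF R)) (FC6.Sp.rk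
    (FC6.Stars.Q (FC7.Wt.Z (FC7.WF.toWt (VR.WF R)))) x40) (FC6.Sp.rj (FC6.Stars.Q (FC7.Wt.Z
    (FC7.WF.toWt (VR.WF R)))) x40))) (K.beqB (FC7.OD.lb (FC7.Fc.O (FC7.WF.F (VR.WF R))) x40)
    (K.Wt_lb (FC7.WF.toWt (VR.WF R)) (FC6.Sp.rk (FC6.Stars.Q (FC7.Wt.Z (FC7.WF.toWt (VR.WF R))))
    x40) (FC6.Sp.rj (FC6.Stars.Q (FC7.Wt.Z (FC7.WF.toWt (VR.WF R)))) x40)))) (K.band (K.band
    (K.bnot (FC7.OD.lb (FC7.Fc.O (FC7.WF.F (VR.WF R))) x40)) (K.lmem x40 (FC7.XE.kd (FC7.Fc.X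
    (FC7.WF.F (VR.WF R)))))) (K.allN (FC6.Pa.n (FC7.Fc.P (FC7.WF.F (VR.WF R)))) (fun (x41 : ℕ) =>
    (K.bor (K.bor (K.bor (K.bnot (FC6.Pa.real (FC7.Fc.P (FC7.WF.F (VR.WF R))) x41)) (K.lmem x41
    (FC7.XE.kd (FC7.Fc.X (FC7.WF.F (VR.WF R)))))) (K.WF_dis (VR.WF R) (FC6.Pa.l (FC7.Fc.P
    (FC7.WF.F (VR.WF R))) x41) (FC6.Pa.l (FC7.Fc.P (FC7.WF.F (VR.WF R))) (FC6.Pa.φ (FC7.Fc.P
    (FC7.WF.F (VR.WF R))) x40)))) (K.WF_dis (VR.WF R) (FC6.Pa.l (FC7.Fc.P (FC7.WF.F (VR.WF R)))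
    (FC6.Pa.φ (FC7.Fc.P (FC7.WF.F (VR.WF R))) x41)) (FC6.Pa.l (FC7.Fc.P (FC7.WF.F (VR.WF R)))
    x40)))))) (FC7.Fc.lu (FC7.WF.F (VR.WF R)) x40))) (Nat.beq (FC7.OD.wt (FC7.Fc.O (FC7.WF.F
    (VR.WF R))) x40) (Bool.rec (motive := fun _ => ℕ) (nat_lit 0) (nat_lit 1) (FC7.OD.lb (FC7.Fc.O
    (FC7.WF.F (VR.WF R))) x40)))) (K.bor (K.bnot (FC7.Fc.uk (FC7.WF.F (VR.WF R)) x40)) (K.band
    (Nat.ble (Nat.succ (FC7.Fc.kr (FC7.WF.F (VR.WF R)) x40)) (FC6.Pa.n (FC7.Fc.P (FC7.WF.F (VR.WF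
    R))))) (Nat.beq (FC7.XE.ce (FC7.Fc.X (FC7.WF.F (VR.WF R))) (FC7.Fc.kr (FC7.WF.F (VR.WF R))
    x40)) (FC7.XE.ce (FC7.Fc.X (FC7.WF.F (VR.WF R))) x40))))) (K.bor (K.bnot (FC7.Fc.op (FC7.WF.F
    (VR.WF R)) x40)) (Nat.beq (K.WF_fcl (VR.WF R) x40) (nat_lit 3)))) (K.bor (K.bor (K.bnot
    (FC7.Fc.tw (FC7.WF.F (VR.WF R)) x40)) (Nat.beq (K.WF_fcl (VR.WF R) x40) (nat_lit 3))) (Nat.beq
    (K.WF_fcl (VR.WF R) x40) (nat_lit 1)))) (K.bor (K.bnot (K.OD_rg (FC7.Fc.O (FC7.WF.F (VR.WF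
    R))) (FC7.Fc.P (FC7.WF.F (VR.WF R))) x40)) (K.band (FC6.Pa.real (FC7.Fc.P (FC7.WF.F (VR.WF
    R))) x40) (K.allN (FC6.Pa.n (FC7.Fc.P (FC7.WF.F (VR.WF R)))) (fun (x42 : ℕ) => (K.bor (K.bor
    (K.bnot (FC6.Pa.real (FC7.Fc.P (FC7.WF.F (VR.WF R))) x42)) (K.WF_dis (VR.WF R) (FC6.Pa.l
    (FC7.Fc.P (FC7.WF.F (VR.WF R))) x42) (FC6.Pa.l (FC7.Fc.P (FC7.WF.F (VR.WF R))) (FC6.Pa.φ
    (FC7.Fc.P (FC7.WF.F (VR.WF R))) x40)))) (K.WF_dis (VR.WF R) (FC6.Pa.l (FC7.Fc.P (FC7.WF.F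
    (VR.WF R))) (FC6.Pa.φ (FC7.Fc.P (FC7.WF.F (VR.WF R))) x42)) (FC6.Pa.l (FC7.Fc.P (FC7.WF.F
    (VR.WF R))) x40)))))))))

theorem e1309 (R : VR) : (v1308 R) = s1309 R :=
  e1308 R

noncomputable def s1310 (R : VR) : Bool :=
  K.WF_chkD (VR.WF R)

theorem e1310 (R : VR) : (v1308 R) = s1310 R :=
  e1309 R

noncomputable def c_chkD (R : VR) : Bool :=
  (v1308 R)

theorem c_chkD_eq (R : VR) : c_chkD R = (K.WF_chkD (VR.WF R)) :=
  e1310 R

noncomputable def v1311 (R : VR) : ℕ :=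
  VR.kar R

noncomputable def s1311 (R : VR) : ℕ :=
  VR.kar R

theorem e1311 (R : VR) : (v1311 R) = s1311 R :=
  rfl

theorem b1311 (R : VR) : s1311 R ≤ 127 :=
  VR.kar_b R

noncomputable def s1312 (R : VR) (i : ℕ) : ℕ :=
  tx (VR.ar1T R) i

theorem e1312 (R : VR) : L (VR.S R) (VR.ar1T R) (s1312 R) 255 :=
  VR.ar1_is R

noncomputable def s1313 (R : VR) (i : ℕ) : ℕ :=
  tx (VR.ar2T R) i

theorem e1313 (R : VR) : L (VR.S R) (VR.ar2T R) (s1313 R) 255 :=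
  VR.ar2_is R

noncomputable def s1314 (R : VR) (i : ℕ) : Bool :=
  tf (VR.spT R) i

theorem e1314 (R : VR) : B (VR.S R) (VR.spT R) (s1314 R) :=
  VR.sp_is R

noncomputable def v1315 (R : VR) : ℕ :=
  gmk (VR.h2 R) (VR.J R) (Nat.mul (VR.ar1T R) (VR.cr1 R))

noncomputable def v1316 (R : VR) : ℕ :=
  srM (VR.N R) (VR.S R) (VR.o1 R) (VR.spT R)

noncomputable def v1317 (R : VR) : ℕ :=
  Nat.mod (Nat.land (v1315 R) (srM (VR.N R) (VR.S R) (VR.o1 R) (VR.spT R))) (VR.m1 R)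

noncomputable def s1317 (R : VR) (i : ℕ) : Bool :=
  tf (VR.spT R) (s1312 R i)

theorem e1317 (R : VR) : B (VR.S R) (v1317 R) (s1317 R) :=
  B.gat (e1312 R) (VR.sp_is R) (VR.sp_lt R)

noncomputable def v1318 (R : VR) : ℕ :=
  Nat.sub (VR.o1 R) (Nat.mod (Nat.land (v1315 R) (srM (VR.N R) (VR.S R) (VR.o1 R) (VR.spT R)))
    (VR.m1 R))

noncomputable def s1318 (R : VR) (i : ℕ) : Bool :=
  K.bnot (s1317 R i)

theorem e1318 (R : VR) : B (VR.S R) (v1318 R) (s1318 R) :=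
  B.not (VR.o1e R) (e1317 R)

noncomputable def v1319 (R : VR) : ℕ :=
  Nat.shiftRight (Nat.land (Nat.sub (Nat.add (v172 R) (VR.k1 R)) (VR.ar1T R)) (VR.h1 R)) (nat_lit
    15)

noncomputable def s1319 (R : VR) (i : ℕ) : Bool :=
  Nat.ble (Nat.succ (s1312 R i)) (s172 R i)

theorem e1319 (R : VR) : B (VR.S R) (v1319 R) (s1319 R) :=
  L.blt (VR.h1e R) (VR.k1e R) (e1312 R) (e172 R)

noncomputable def v1320 (R : VR) : ℕ :=
  Nat.shiftRight (Nat.land (Nat.sub (Nat.add (v172 R) (VR.k1 R)) (VR.ar2T R)) (VR.h1 R)) (nat_lit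
    15)

noncomputable def s1320 (R : VR) (i : ℕ) : Bool :=
  Nat.ble (Nat.succ (s1313 R i)) (s172 R i)

theorem e1320 (R : VR) : B (VR.S R) (v1320 R) (s1320 R) :=
  L.blt (VR.h1e R) (VR.k1e R) (e1313 R) (e172 R)

noncomputable def v1321 (R : VR) : ℕ :=
  Nat.land (v1319 R) (v1320 R)

noncomputable def s1321 (R : VR) (i : ℕ) : Bool :=
  K.band (s1319 R i) (s1320 R i)

theorem e1321 (R : VR) : B (VR.S R) (v1321 R) (s1321 R) :=
  B.and (e1319 R) (e1320 R)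

noncomputable def v1322 (R : VR) : ℕ :=
  Nat.mod (Nat.land (v1315 R) (v188 R)) (VR.m1 R)

noncomputable def s1322 (R : VR) (i : ℕ) : ℕ :=
  tx (VR.alT R) (s1312 R i)

theorem e1322 (R : VR) : L (VR.S R) (v1322 R) (s1322 R) 255 :=
  L.gat (e1312 R) (VR.al_is R) (VR.al_lt R) (VR.al_le R)

noncomputable def v1323 (R : VR) : ℕ :=
  Nat.shiftRight (Nat.land (Nat.sub (VR.h1 R) (Nat.xor (Nat.mod (Nat.land (v1315 R) (v188 R))
    (VR.m1 R)) (VR.ar1T R))) (VR.h1 R)) (nat_lit 15)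

noncomputable def s1323 (R : VR) (i : ℕ) : Bool :=
  Nat.beq (s1322 R i) (s1312 R i)

theorem e1323 (R : VR) : B (VR.S R) (v1323 R) (s1323 R) :=
  L.beq (VR.h1e R) (e1322 R) (e1312 R)

noncomputable def v1324 (R : VR) : ℕ :=
  Nat.land (Nat.land (v1319 R) (v1320 R)) (v1323 R)

noncomputable def s1324 (R : VR) (i : ℕ) : Bool :=
  K.band (s1321 R i) (s1323 R i)

theorem e1324 (R : VR) : B (VR.S R) (v1324 R) (s1324 R) :=
  B.and (e1321 R) (e1323 R)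

noncomputable def v1325 (R : VR) : ℕ :=
  Nat.mod (Nat.land (v1315 R) (v877 R)) (VR.m1 R)

noncomputable def s1325 (R : VR) (i : ℕ) : Bool :=
  tf (VR.realT R) (s1312 R i)

theorem e1325 (R : VR) : B (VR.S R) (v1325 R) (s1325 R) :=
  B.gat (e1312 R) (VR.real_is R) (VR.real_lt R)

noncomputable def v1326 (R : VR) : ℕ :=
  Nat.shiftRight (Nat.land (Nat.sub (VR.h1 R) (Nat.xor (VR.ar1T R) (VR.ar2T R))) (VR.h1 R))
    (nat_lit 15)

noncomputable def s1326 (R : VR) (i : ℕ) : Bool :=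
  Nat.beq (s1312 R i) (s1313 R i)

theorem e1326 (R : VR) : B (VR.S R) (v1326 R) (s1326 R) :=
  L.beq (VR.h1e R) (e1312 R) (e1313 R)

noncomputable def v1327 (R : VR) : ℕ :=
  Nat.land (v1325 R) (v1326 R)

noncomputable def s1327 (R : VR) (i : ℕ) : Bool :=
  K.band (s1325 R i) (s1326 R i)

theorem e1327 (R : VR) : B (VR.S R) (v1327 R) (s1327 R) :=
  B.and (e1325 R) (e1326 R)

noncomputable def v1328 (R : VR) : ℕ :=
  Nat.sub (VR.o1 R) (v1325 R)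

noncomputable def s1328 (R : VR) (i : ℕ) : Bool :=
  K.bnot (s1325 R i)

theorem e1328 (R : VR) : B (VR.S R) (v1328 R) (s1328 R) :=
  B.not (VR.o1e R) (e1325 R)

noncomputable def v1329 (R : VR) : ℕ :=
  Nat.mod (Nat.land (v1315 R) (v178 R)) (VR.m1 R)

noncomputable def s1329 (R : VR) (i : ℕ) : ℕ :=
  tx (VR.phiT R) (s1312 R i)

theorem e1329 (R : VR) : L (VR.S R) (v1329 R) (s1329 R) 255 :=
  L.gat (e1312 R) (VR.phi_is R) (VR.phi_lt R) (VR.phi_le R)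

noncomputable def v1330 (R : VR) : ℕ :=
  gmk (VR.h2 R) (VR.J R) (Nat.mul (Nat.mod (Nat.land (v1315 R) (v178 R)) (VR.m1 R)) (VR.cr1 R))

noncomputable def v1331 (R : VR) : ℕ :=
  Nat.mod (Nat.land (gmk (VR.h2 R) (VR.J R) (Nat.mul (Nat.mod (Nat.land (v1315 R) (v178 R)) (VR.m1
    R)) (VR.cr1 R))) (v9 R)) (VR.m1 R)

noncomputable def s1331 (R : VR) (i : ℕ) : ℕ :=
  tx (VR.lT R) (s1329 R i)

theorem e1331 (R : VR) : L (VR.S R) (v1331 R) (s1331 R) 29 :=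
  L.gat (e1329 R) (VR.l_is R) (VR.l_lt R) (VR.l_le R)

noncomputable def v1332 (R : VR) : ℕ :=
  Nat.shiftRight (Nat.land (Nat.sub (Nat.add (v1331 R) (VR.h1 R)) (v869 R)) (VR.h1 R)) (nat_lit
    15)

noncomputable def s1332 (R : VR) (i : ℕ) : Bool :=
  Nat.ble (s869 R i) (s1331 R i)

theorem e1332 (R : VR) : B (VR.S R) (v1332 R) (s1332 R) :=
  L.ble (VR.h1e R) (e869 R) (e1331 R)

noncomputable def v1333 (R : VR) : ℕ :=
  Nat.mul (VR.o1 R) (v866 R)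

noncomputable def s1333 (R : VR) (i : ℕ) : ℕ :=
  (s866 R)

theorem e1333 (R : VR) : L (VR.S R) (v1333 R) (s1333 R) 31 :=
  L.scl (VR.o1e R) (e866 R) (b866 R) (by decide)

noncomputable def v1334 (R : VR) : ℕ :=
  Nat.shiftRight (Nat.land (Nat.sub (Nat.add (v1333 R) (VR.k1 R)) (v1331 R)) (VR.h1 R)) (nat_lit
    15)

noncomputable def s1334 (R : VR) (i : ℕ) : Bool :=
  Nat.ble (Nat.succ (s1331 R i)) (s1333 R i)

theorem e1334 (R : VR) : B (VR.S R) (v1334 R) (s1334 R) :=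
  L.blt (VR.h1e R) (VR.k1e R) (e1331 R) (e1333 R)

noncomputable def v1335 (R : VR) : ℕ :=
  Nat.land (Nat.shiftRight (Nat.land (Nat.sub (Nat.add (v1331 R) (VR.h1 R)) (v869 R)) (VR.h1 R))
    (nat_lit 15)) (v1334 R)

noncomputable def s1335 (R : VR) (i : ℕ) : Bool :=
  K.band (s1332 R i) (s1334 R i)

theorem e1335 (R : VR) : B (VR.S R) (v1335 R) (s1335 R) :=
  B.and (e1332 R) (e1334 R)

noncomputable def v1336 (R : VR) : ℕ :=
  Nat.mul (v1331 R) (VR.cr1 R)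

noncomputable def s1336 (R : VR) (j i : ℕ) : ℕ :=
  (s1331 R i)

theorem e1336 (R : VR) : L2 R (v1336 R) (s1336 R) 29 :=
  L2.rep (e1331 R)

noncomputable def v1337 (R : VR) : ℕ :=
  Nat.shiftRight (Nat.land (Nat.sub (VR.h2 R) (Nat.xor (v528 R) (v1336 R))) (VR.h2 R)) (nat_lit
    15)

noncomputable def s1337 (R : VR) (j i : ℕ) : Bool :=
  Nat.beq (s528 R j i) (s1336 R j i)

theorem e1337 (R : VR) : B2 R (v1337 R) (s1337 R) :=
  L.beq (VR.h2e R) (e528 R) (e1336 R)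

noncomputable def v1338 (R : VR) : ℕ :=
  Nat.sub (VR.o2 R) (v1337 R)

noncomputable def s1338 (R : VR) (j i : ℕ) : Bool :=
  K.bnot (s1337 R j i)

theorem e1338 (R : VR) : B2 R (v1338 R) (s1338 R) :=
  B.not (VR.o2e R) (e1337 R)

noncomputable def v1339 (R : VR) : ℕ :=
  gmk (VR.h2 R) (VR.J R) (Nat.mul (v1331 R) (VR.cr1 R))

noncomputable def v1340 (R : VR) : ℕ :=
  Nat.mod (Nat.land (v1339 R) (v223 R)) (VR.m1 R)

noncomputable def s1340 (R : VR) (i : ℕ) : Bool :=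
  tf (VR.cxT R) (s1331 R i)

theorem e1340 (R : VR) : B (VR.S R) (v1340 R) (s1340 R) :=
  B.gat (e1331 R) (VR.cx_is R) (VR.cx_lt R)

noncomputable def v1341 (R : VR) : ℕ :=
  Nat.mul (Nat.mod (Nat.land (v1339 R) (v223 R)) (VR.m1 R)) (VR.cr1 R)

noncomputable def s1341 (R : VR) (j i : ℕ) : Bool :=
  (s1340 R i)

theorem e1341 (R : VR) : B2 R (v1341 R) (s1341 R) :=
  B2.rep (e1340 R)

noncomputable def v1342 (R : VR) : ℕ :=
  Nat.lor (v940 R) (Nat.mul (Nat.mod (Nat.land (v1339 R) (v223 R)) (VR.m1 R)) (VR.cr1 R))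

noncomputable def s1342 (R : VR) (j i : ℕ) : Bool :=
  K.bor (s940 R j i) (s1341 R j i)

theorem e1342 (R : VR) : B2 R (v1342 R) (s1342 R) :=
  B.or (e940 R) (e1341 R)

noncomputable def v1343 (R : VR) : ℕ :=
  Nat.shiftRight (Nat.land (Nat.sub (Nat.add (v869 R) (VR.k1 R)) (v1331 R)) (VR.h1 R)) (nat_lit
    15)

noncomputable def s1343 (R : VR) (i : ℕ) : Bool :=
  Nat.ble (Nat.succ (s1331 R i)) (s869 R i)

theorem e1343 (R : VR) : B (VR.S R) (v1343 R) (s1343 R) :=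
  L.blt (VR.h1e R) (VR.k1e R) (e1331 R) (e869 R)

noncomputable def v1344 (R : VR) : ℕ :=
  Nat.mul (Nat.shiftRight (Nat.land (Nat.sub (Nat.add (v869 R) (VR.k1 R)) (v1331 R)) (VR.h1 R))
    (nat_lit 15)) (VR.cr1 R)

noncomputable def s1344 (R : VR) (j i : ℕ) : Bool :=
  (s1343 R i)

theorem e1344 (R : VR) : B2 R (v1344 R) (s1344 R) :=
  B2.rep (e1343 R)

noncomputable def v1345 (R : VR) : ℕ :=
  Nat.sub (VR.o2 R) (Nat.xor (v943 R) (Nat.mul (Nat.shiftRight (Nat.land (Nat.sub (Nat.add (v869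
    R) (VR.k1 R)) (v1331 R)) (VR.h1 R)) (nat_lit 15)) (VR.cr1 R)))

noncomputable def s1345 (R : VR) (j i : ℕ) : Bool :=
  K.beqB (s943 R j i) (s1344 R j i)

theorem e1345 (R : VR) : B2 R (v1345 R) (s1345 R) :=
  B.beqB (VR.o2e R) (e943 R) (e1344 R)

noncomputable def v1346 (R : VR) : ℕ :=
  Nat.sub (VR.o2 R) (Nat.sub (VR.o2 R) (Nat.xor (v943 R) (Nat.mul (Nat.shiftRight (Nat.land
    (Nat.sub (Nat.add (v869 R) (VR.k1 R)) (v1331 R)) (VR.h1 R)) (nat_lit 15)) (VR.cr1 R))))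

noncomputable def s1346 (R : VR) (j i : ℕ) : Bool :=
  K.bnot (s1345 R j i)

theorem e1346 (R : VR) : B2 R (v1346 R) (s1346 R) :=
  B.not (VR.o2e R) (e1345 R)

noncomputable def v1347 (R : VR) : ℕ :=
  Nat.lor (Nat.lor (v940 R) (Nat.mul (Nat.mod (Nat.land (v1339 R) (v223 R)) (VR.m1 R)) (VR.cr1
    R))) (Nat.sub (VR.o2 R) (Nat.sub (VR.o2 R) (Nat.xor (v943 R) (Nat.mul (Nat.shiftRight
    (Nat.land (Nat.sub (Nat.add (v869 R) (VR.k1 R)) (v1331 R)) (VR.h1 R)) (nat_lit 15)) (VR.cr1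
    R)))))

noncomputable def s1347 (R : VR) (j i : ℕ) : Bool :=
  K.bor (s1342 R j i) (s1346 R j i)

theorem e1347 (R : VR) : B2 R (v1347 R) (s1347 R) :=
  B.or (e1342 R) (e1346 R)

noncomputable def v1348 (R : VR) : ℕ :=
  Nat.mod (Nat.land (v1339 R) (v21 R)) (VR.m1 R)

noncomputable def s1348 (R : VR) (i : ℕ) : ℕ :=
  tx (VR.pw1T R) (s1331 R i)

theorem e1348 (R : VR) : L (VR.S R) (v1348 R) (s1348 R) 16384 :=
  L.gat (e1331 R) (VR.pw1_is R) (VR.pw1_lt R) (VR.pw1_le R)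

noncomputable def v1349 (R : VR) : ℕ :=
  srM (VR.N R) (VR.S R) (VR.o1 R) (VR.DQ1T R)

noncomputable def s1349 (R : VR) (j i : ℕ) : ℕ :=
  (s947 R j)

theorem e1349 (R : VR) : L2 R (v1349 R) (s1349 R) 32767 :=
  L2.row (e947 R)

noncomputable def v1350 (R : VR) : ℕ :=
  Nat.mul (Nat.mod (Nat.land (v1339 R) (v21 R)) (VR.m1 R)) (VR.cr1 R)

noncomputable def s1350 (R : VR) (j i : ℕ) : ℕ :=
  (s1348 R i)

theorem e1350 (R : VR) : L2 R (v1350 R) (s1350 R) 16384 :=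
  L2.rep (e1348 R)

noncomputable def v1351 (R : VR) : ℕ :=
  Nat.land (v1349 R) (Nat.mul (Nat.mod (Nat.land (v1339 R) (v21 R)) (VR.m1 R)) (VR.cr1 R))

noncomputable def s1351 (R : VR) (j i : ℕ) : ℕ :=
  Nat.land (s1349 R j i) (s1350 R j i)

theorem e1351 (R : VR) : L2 R (v1351 R) (s1351 R) 32767 :=
  L.land (e1349 R) (e1350 R)

noncomputable def v1352 (R : VR) : ℕ :=
  Nat.shiftRight (Nat.land (Nat.sub (VR.h2 R) (v1351 R)) (VR.h2 R)) (nat_lit 15)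

noncomputable def s1352 (R : VR) (j i : ℕ) : Bool :=
  Nat.beq (s1351 R j i) (nat_lit 0)

theorem e1352 (R : VR) : B2 R (v1352 R) (s1352 R) :=
  L.ez (VR.h2e R) (e1351 R)

noncomputable def v1353 (R : VR) : ℕ :=
  Nat.shiftRight (Nat.land (Nat.add (v1351 R) (VR.k2 R)) (VR.h2 R)) (nat_lit 15)

noncomputable def s1353 (R : VR) (j i : ℕ) : Bool :=
  K.bnot (Nat.beq (s1351 R j i) (nat_lit 0))

theorem e1353 (R : VR) : B2 R (v1353 R) (s1353 R) :=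
  L.nz (VR.h2e R) (VR.k2e R) (e1351 R)

noncomputable def v1354 (R : VR) : ℕ :=
  Nat.mod (Nat.land (v1339 R) (v38 R)) (VR.m1 R)

noncomputable def s1354 (R : VR) (i : ℕ) : ℕ :=
  tx (VR.pw2T R) (s1331 R i)

theorem e1354 (R : VR) : L (VR.S R) (v1354 R) (s1354 R) 16384 :=
  L.gat (e1331 R) (VR.pw2_is R) (VR.pw2_lt R) (VR.pw2_le R)

noncomputable def v1355 (R : VR) : ℕ :=
  srM (VR.N R) (VR.S R) (VR.o1 R) (VR.DQ2T R)

noncomputable def s1355 (R : VR) (j i : ℕ) : ℕ :=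
  (s948 R j)

theorem e1355 (R : VR) : L2 R (v1355 R) (s1355 R) 32767 :=
  L2.row (e948 R)

noncomputable def v1356 (R : VR) : ℕ :=
  Nat.mul (Nat.mod (Nat.land (v1339 R) (v38 R)) (VR.m1 R)) (VR.cr1 R)

noncomputable def s1356 (R : VR) (j i : ℕ) : ℕ :=
  (s1354 R i)

theorem e1356 (R : VR) : L2 R (v1356 R) (s1356 R) 16384 :=
  L2.rep (e1354 R)

noncomputable def v1357 (R : VR) : ℕ :=
  Nat.land (v1355 R) (Nat.mul (Nat.mod (Nat.land (v1339 R) (v38 R)) (VR.m1 R)) (VR.cr1 R))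

noncomputable def s1357 (R : VR) (j i : ℕ) : ℕ :=
  Nat.land (s1355 R j i) (s1356 R j i)

theorem e1357 (R : VR) : L2 R (v1357 R) (s1357 R) 32767 :=
  L.land (e1355 R) (e1356 R)

noncomputable def v1358 (R : VR) : ℕ :=
  Nat.shiftRight (Nat.land (Nat.sub (VR.h2 R) (v1357 R)) (VR.h2 R)) (nat_lit 15)

noncomputable def s1358 (R : VR) (j i : ℕ) : Bool :=
  Nat.beq (s1357 R j i) (nat_lit 0)

theorem e1358 (R : VR) : B2 R (v1358 R) (s1358 R) :=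
  L.ez (VR.h2e R) (e1357 R)

noncomputable def v1359 (R : VR) : ℕ :=
  Nat.shiftRight (Nat.land (Nat.add (v1357 R) (VR.k2 R)) (VR.h2 R)) (nat_lit 15)

noncomputable def s1359 (R : VR) (j i : ℕ) : Bool :=
  K.bnot (Nat.beq (s1357 R j i) (nat_lit 0))

theorem e1359 (R : VR) : B2 R (v1359 R) (s1359 R) :=
  L.nz (VR.h2e R) (VR.k2e R) (e1357 R)

noncomputable def v1360 (R : VR) : ℕ :=
  Nat.lor (Nat.shiftRight (Nat.land (Nat.add (v1351 R) (VR.k2 R)) (VR.h2 R)) (nat_lit 15))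
    (Nat.shiftRight (Nat.land (Nat.add (v1357 R) (VR.k2 R)) (VR.h2 R)) (nat_lit 15))

noncomputable def s1360 (R : VR) (j i : ℕ) : Bool :=
  K.bor (s1353 R j i) (s1359 R j i)

theorem e1360 (R : VR) : B2 R (v1360 R) (s1360 R) :=
  B.or (e1353 R) (e1359 R)

noncomputable def s1361 (R : VR) (j i : ℕ) : Bool :=
  V2.mk R (s947 R j) (s948 R j) (s1331 R i)

theorem e1361 (R : VR) : B2 R (v1360 R) (s1361 R) :=
  e1360 R

noncomputable def v1362 (R : VR) : ℕ :=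
  Nat.lor (Nat.lor (Nat.lor (v940 R) (Nat.mul (Nat.mod (Nat.land (v1339 R) (v223 R)) (VR.m1 R))
    (VR.cr1 R))) (Nat.sub (VR.o2 R) (Nat.sub (VR.o2 R) (Nat.xor (v943 R) (Nat.mul (Nat.shiftRight
    (Nat.land (Nat.sub (Nat.add (v869 R) (VR.k1 R)) (v1331 R)) (VR.h1 R)) (nat_lit 15)) (VR.cr1
    R)))))) (Nat.lor (Nat.shiftRight (Nat.land (Nat.add (v1351 R) (VR.k2 R)) (VR.h2 R)) (nat_lit
    15)) (Nat.shiftRight (Nat.land (Nat.add (v1357 R) (VR.k2 R)) (VR.h2 R)) (nat_lit 15)))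

noncomputable def s1362 (R : VR) (j i : ℕ) : Bool :=
  K.bor (s1347 R j i) (s1361 R j i)

theorem e1362 (R : VR) : B2 R (v1362 R) (s1362 R) :=
  B.or (e1347 R) (e1361 R)

noncomputable def v1363 (R : VR) : ℕ :=
  Nat.land (Nat.sub (VR.o2 R) (v1337 R)) (v1362 R)

noncomputable def s1363 (R : VR) (j i : ℕ) : Bool :=
  K.band (s1338 R j i) (s1362 R j i)

theorem e1363 (R : VR) : B2 R (v1363 R) (s1363 R) :=
  B.and (e1338 R) (e1362 R)

noncomputable def s1364 (R : VR) (j i : ℕ) : Bool :=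
  V2.dis R j (s1331 R i)

theorem e1364 (R : VR) : B2 R (v1363 R) (s1364 R) :=
  e1363 R

noncomputable def s1365 (R : VR) (j i : ℕ) : Bool :=
  K.WF_dis (VR.WF R) j (s1331 R i)

theorem e1365 (R : VR) : B2 R (v1363 R) (s1365 R) :=
  B.of_eq (e1364 R) (fun t ht => V2.dis_eq R (t / VR.S R) (s1331 R (t % VR.S R)))

noncomputable def v1366 (R : VR) : ℕ :=
  Nat.lor (v1337 R) (v1363 R)

noncomputable def s1366 (R : VR) (j i : ℕ) : Bool :=
  K.bor (s1337 R j i) (s1365 R j i)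

theorem e1366 (R : VR) : B2 R (v1366 R) (s1366 R) :=
  B.or (e1337 R) (e1365 R)

noncomputable def v1367 (R : VR) : ℕ :=
  Nat.shiftRight (Nat.land (Nat.sub (VR.h1 R) (Nat.mod (Nat.land (Nat.sub (VR.o2 R) (Nat.lor
    (v1337 R) (v1363 R))) (mM (Nat.mul (v866 R) (VR.S R)))) (VR.m1 R))) (VR.h1 R)) (nat_lit 15)

noncomputable def s1367 (R : VR) (i : ℕ) : Bool :=
  K.allN (s866 R) (fun j => (s1366 R j i))

theorem e1367 (R : VR) : B (VR.S R) (v1367 R) (s1367 R) :=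
  B.all (e1366 R) (VR.nl_le R)

noncomputable def s1368 (R : VR) (i : ℕ) : Bool :=
  K.allN (s866 R) (fun (x43 : ℕ) => (K.bor (Nat.beq x43 (s1331 R i)) (K.WF_dis (VR.WF R) x43
    (s1331 R i))))

theorem e1368 (R : VR) : B (VR.S R) (v1367 R) (s1368 R) :=
  e1367 R

noncomputable def v1369 (R : VR) : ℕ :=
  Nat.land (Nat.land (Nat.shiftRight (Nat.land (Nat.sub (Nat.add (v1331 R) (VR.h1 R)) (v869 R))
    (VR.h1 R)) (nat_lit 15)) (v1334 R)) (Nat.shiftRight (Nat.land (Nat.sub (VR.h1 R) (Nat.mod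
    (Nat.land (Nat.sub (VR.o2 R) (Nat.lor (v1337 R) (v1363 R))) (mM (Nat.mul (v866 R) (VR.S R))))
    (VR.m1 R))) (VR.h1 R)) (nat_lit 15))

noncomputable def s1369 (R : VR) (i : ℕ) : Bool :=
  K.band (s1335 R i) (s1368 R i)

theorem e1369 (R : VR) : B (VR.S R) (v1369 R) (s1369 R) :=
  B.and (e1335 R) (e1368 R)

noncomputable def s1370 (R : VR) (i : ℕ) : Bool :=
  K.WF_hub (VR.WF R) (s1331 R i)

theorem e1370 (R : VR) : B (VR.S R) (v1369 R) (s1370 R) :=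
  e1369 R

noncomputable def v1371 (R : VR) : ℕ :=
  Nat.land (v1328 R) (Nat.land (Nat.land (Nat.shiftRight (Nat.land (Nat.sub (Nat.add (v1331 R)
    (VR.h1 R)) (v869 R)) (VR.h1 R)) (nat_lit 15)) (v1334 R)) (Nat.shiftRight (Nat.land (Nat.sub
    (VR.h1 R) (Nat.mod (Nat.land (Nat.sub (VR.o2 R) (Nat.lor (v1337 R) (v1363 R))) (mM (Nat.mul
    (v866 R) (VR.S R)))) (VR.m1 R))) (VR.h1 R)) (nat_lit 15)))

noncomputable def s1371 (R : VR) (i : ℕ) : Bool :=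
  K.band (s1328 R i) (s1370 R i)

theorem e1371 (R : VR) : B (VR.S R) (v1371 R) (s1371 R) :=
  B.and (e1328 R) (e1370 R)

noncomputable def v1372 (R : VR) : ℕ :=
  Nat.shiftRight (Nat.land (Nat.sub (VR.h2 R) (Nat.xor (v1137 R) (v1336 R))) (VR.h2 R)) (nat_lit
    15)

noncomputable def s1372 (R : VR) (j i : ℕ) : Bool :=
  Nat.beq (s1137 R j i) (s1336 R j i)

theorem e1372 (R : VR) : B2 R (v1372 R) (s1372 R) :=
  L.beq (VR.h2e R) (e1137 R) (e1336 R)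

noncomputable def v1373 (R : VR) : ℕ :=
  Nat.sub (VR.o2 R) (Nat.shiftRight (Nat.land (Nat.sub (VR.h2 R) (Nat.xor (v1137 R) (v1336 R)))
    (VR.h2 R)) (nat_lit 15))

noncomputable def s1373 (R : VR) (j i : ℕ) : Bool :=
  K.bnot (s1372 R j i)

theorem e1373 (R : VR) : B2 R (v1373 R) (s1373 R) :=
  B.not (VR.o2e R) (e1372 R)

noncomputable def v1374 (R : VR) : ℕ :=
  srM (VR.N R) (VR.S R) (VR.o1 R) (v432 R)

noncomputable def s1374 (R : VR) (j i : ℕ) : Bool :=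
  (s432 R j)

theorem e1374 (R : VR) : B2 R (v1374 R) (s1374 R) :=
  B2.row (e432 R)

noncomputable def v1375 (R : VR) : ℕ :=
  Nat.lor (srM (VR.N R) (VR.S R) (VR.o1 R) (v432 R)) (Nat.sub (VR.o2 R) (Nat.shiftRight (Nat.land
    (Nat.sub (VR.h2 R) (Nat.xor (v1137 R) (v1336 R))) (VR.h2 R)) (nat_lit 15)))

noncomputable def s1375 (R : VR) (j i : ℕ) : Bool :=
  K.bor (s1374 R j i) (s1373 R j i)

theorem e1375 (R : VR) : B2 R (v1375 R) (s1375 R) :=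
  B.or (e1374 R) (e1373 R)

noncomputable def v1376 (R : VR) : ℕ :=
  Nat.mul (VR.ar2T R) (VR.cr1 R)

noncomputable def s1376 (R : VR) (j i : ℕ) : ℕ :=
  (s1313 R i)

theorem e1376 (R : VR) : L2 R (v1376 R) (s1376 R) 255 :=
  L2.rep (e1313 R)

noncomputable def v1377 (R : VR) : ℕ :=
  Nat.shiftRight (Nat.land (Nat.sub (VR.h2 R) (Nat.xor (v528 R) (v1376 R))) (VR.h2 R)) (nat_lit
    15)

noncomputable def s1377 (R : VR) (j i : ℕ) : Bool :=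
  Nat.beq (s528 R j i) (s1376 R j i)

theorem e1377 (R : VR) : B2 R (v1377 R) (s1377 R) :=
  L.beq (VR.h2e R) (e528 R) (e1376 R)

noncomputable def v1378 (R : VR) : ℕ :=
  Nat.lor (Nat.lor (srM (VR.N R) (VR.S R) (VR.o1 R) (v432 R)) (Nat.sub (VR.o2 R) (Nat.shiftRight
    (Nat.land (Nat.sub (VR.h2 R) (Nat.xor (v1137 R) (v1336 R))) (VR.h2 R)) (nat_lit 15))))
    (Nat.shiftRight (Nat.land (Nat.sub (VR.h2 R) (Nat.xor (v528 R) (v1376 R))) (VR.h2 R)) (nat_lit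
    15))

noncomputable def s1378 (R : VR) (j i : ℕ) : Bool :=
  K.bor (s1375 R j i) (s1377 R j i)

theorem e1378 (R : VR) : B2 R (v1378 R) (s1378 R) :=
  B.or (e1375 R) (e1377 R)

noncomputable def v1379 (R : VR) : ℕ :=
  Nat.shiftRight (Nat.land (Nat.sub (VR.h1 R) (Nat.mod (Nat.land (Nat.sub (VR.o2 R) (Nat.lor
    (Nat.lor (srM (VR.N R) (VR.S R) (VR.o1 R) (v432 R)) (Nat.sub (VR.o2 R) (Nat.shiftRight
    (Nat.land (Nat.sub (VR.h2 R) (Nat.xor (v1137 R) (v1336 R))) (VR.h2 R)) (nat_lit 15))))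
    (Nat.shiftRight (Nat.land (Nat.sub (VR.h2 R) (Nat.xor (v528 R) (v1376 R))) (VR.h2 R)) (nat_lit
    15)))) (mM (Nat.mul (v112 R) (VR.S R)))) (VR.m1 R))) (VR.h1 R)) (nat_lit 15)

noncomputable def s1379 (R : VR) (i : ℕ) : Bool :=
  K.allN (s112 R) (fun j => (s1378 R j i))

theorem e1379 (R : VR) : B (VR.S R) (v1379 R) (s1379 R) :=
  B.all (e1378 R) (VR.n_le R)

noncomputable def s1380 (R : VR) (i : ℕ) : Bool :=
  K.allN (s112 R) (fun (x44 : ℕ) => (K.bor (K.bor (K.bnot (Nat.beq (FC6.Pa.α (FC7.Fc.P (FC7.WF.F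
    (VR.WF R))) x44) x44)) (K.bnot (Nat.beq (FC6.Pa.l (FC7.Fc.P (FC7.WF.F (VR.WF R))) x44)
    (FC6.Pa.l (FC7.Fc.P (FC7.WF.F (VR.WF R))) (FC6.Pa.φ (FC7.Fc.P (FC7.WF.F (VR.WF R))) (Prod.fst
    (Prod.mk (s1312 R i) (s1313 R i)))))))) (Nat.beq x44 (Prod.snd (Prod.mk (s1312 R i) (s1313 R
    i))))))

theorem e1380 (R : VR) : B (VR.S R) (v1379 R) (s1380 R) :=
  e1379 R

noncomputable def v1381 (R : VR) : ℕ :=
  Nat.land (Nat.land (v1328 R) (Nat.land (Nat.land (Nat.shiftRight (Nat.land (Nat.sub (Nat.add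
    (v1331 R) (VR.h1 R)) (v869 R)) (VR.h1 R)) (nat_lit 15)) (v1334 R)) (Nat.shiftRight (Nat.land
    (Nat.sub (VR.h1 R) (Nat.mod (Nat.land (Nat.sub (VR.o2 R) (Nat.lor (v1337 R) (v1363 R))) (mM
    (Nat.mul (v866 R) (VR.S R)))) (VR.m1 R))) (VR.h1 R)) (nat_lit 15)))) (v1379 R)

noncomputable def s1381 (R : VR) (i : ℕ) : Bool :=
  K.band (s1371 R i) (s1380 R i)

theorem e1381 (R : VR) : B (VR.S R) (v1381 R) (s1381 R) :=
  B.and (e1371 R) (e1380 R)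

noncomputable def v1382 (R : VR) : ℕ :=
  Nat.lor (v1327 R) (Nat.land (Nat.land (v1328 R) (Nat.land (Nat.land (Nat.shiftRight (Nat.land
    (Nat.sub (Nat.add (v1331 R) (VR.h1 R)) (v869 R)) (VR.h1 R)) (nat_lit 15)) (v1334 R))
    (Nat.shiftRight (Nat.land (Nat.sub (VR.h1 R) (Nat.mod (Nat.land (Nat.sub (VR.o2 R) (Nat.lor
    (v1337 R) (v1363 R))) (mM (Nat.mul (v866 R) (VR.S R)))) (VR.m1 R))) (VR.h1 R)) (nat_lit 15))))
    (v1379 R))

noncomputable def s1382 (R : VR) (i : ℕ) : Bool :=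
  K.bor (s1327 R i) (s1381 R i)

theorem e1382 (R : VR) : B (VR.S R) (v1382 R) (s1382 R) :=
  B.or (e1327 R) (e1381 R)

noncomputable def v1383 (R : VR) : ℕ :=
  Nat.land (v1324 R) (Nat.lor (v1327 R) (Nat.land (Nat.land (v1328 R) (Nat.land (Nat.land
    (Nat.shiftRight (Nat.land (Nat.sub (Nat.add (v1331 R) (VR.h1 R)) (v869 R)) (VR.h1 R)) (nat_lit
    15)) (v1334 R)) (Nat.shiftRight (Nat.land (Nat.sub (VR.h1 R) (Nat.mod (Nat.land (Nat.sub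
    (VR.o2 R) (Nat.lor (v1337 R) (v1363 R))) (mM (Nat.mul (v866 R) (VR.S R)))) (VR.m1 R))) (VR.h1
    R)) (nat_lit 15)))) (v1379 R)))

noncomputable def s1383 (R : VR) (i : ℕ) : Bool :=
  K.band (s1324 R i) (s1382 R i)

theorem e1383 (R : VR) : B (VR.S R) (v1383 R) (s1383 R) :=
  B.and (e1324 R) (e1382 R)

noncomputable def v1384 (R : VR) : ℕ :=
  Nat.lor (v1318 R) (Nat.land (v1324 R) (Nat.lor (v1327 R) (Nat.land (Nat.land (v1328 R) (Nat.land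
    (Nat.land (Nat.shiftRight (Nat.land (Nat.sub (Nat.add (v1331 R) (VR.h1 R)) (v869 R)) (VR.h1
    R)) (nat_lit 15)) (v1334 R)) (Nat.shiftRight (Nat.land (Nat.sub (VR.h1 R) (Nat.mod (Nat.land
    (Nat.sub (VR.o2 R) (Nat.lor (v1337 R) (v1363 R))) (mM (Nat.mul (v866 R) (VR.S R)))) (VR.m1
    R))) (VR.h1 R)) (nat_lit 15)))) (v1379 R))))

noncomputable def s1384 (R : VR) (i : ℕ) : Bool :=
  K.bor (s1318 R i) (s1383 R i)

theorem e1384 (R : VR) : B (VR.S R) (v1384 R) (s1384 R) :=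
  B.or (e1318 R) (e1383 R)

noncomputable def v1385 (R : VR) : Bool :=
  Nat.beq (Nat.land (Nat.sub (VR.o1 R) (v1384 R)) (mM (v1311 R))) (nat_lit 0)

noncomputable def s1385 (R : VR) : Bool :=
  K.allN (s1311 R) (s1384 R)

theorem e1385 (R : VR) : (v1385 R) = s1385 R :=
  all0 (e1384 R) (VR.kar_le R)

noncomputable def s1386 (R : VR) : Bool :=
  K.lall (FC7.XE.ar (VR.X R)) (fun (x45 : ℕ × ℕ) => (K.bor (K.bnot (FC7.XE.sp (FC7.Fc.X (FC7.WF.F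
    (VR.WF R))) (Prod.fst x45))) (K.band (K.band (K.band (Nat.ble (Nat.succ (Prod.fst x45))
    (FC6.Pa.n (FC7.Fc.P (FC7.WF.F (VR.WF R))))) (Nat.ble (Nat.succ (Prod.snd x45)) (FC6.Pa.n
    (FC7.Fc.P (FC7.WF.F (VR.WF R)))))) (Nat.beq (FC6.Pa.α (FC7.Fc.P (FC7.WF.F (VR.WF R)))
    (Prod.fst x45)) (Prod.fst x45))) (K.bor (K.band (FC6.Pa.real (FC7.Fc.P (FC7.WF.F (VR.WF R)))
    (Prod.fst x45)) (Nat.beq (Prod.fst x45) (Prod.snd x45))) (K.band (K.band (K.bnot (FC6.Pa.real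
    (FC7.Fc.P (FC7.WF.F (VR.WF R))) (Prod.fst x45))) (K.WF_hub (VR.WF R) (FC6.Pa.l (FC7.Fc.P
    (FC7.WF.F (VR.WF R))) (FC6.Pa.φ (FC7.Fc.P (FC7.WF.F (VR.WF R))) (Prod.fst x45))))) (K.allN
    (FC6.Pa.n (FC7.Fc.P (FC7.WF.F (VR.WF R)))) (fun (x46 : ℕ) => (K.bor (K.bor (K.bnot (Nat.beq
    (FC6.Pa.α (FC7.Fc.P (FC7.WF.F (VR.WF R))) x46) x46)) (K.bnot (Nat.beq (FC6.Pa.l (FC7.Fc.P
    (FC7.WF.F (VR.WF R))) x46) (FC6.Pa.l (FC7.Fc.P (FC7.WF.F (VR.WF R))) (FC6.Pa.φ (FC7.Fc.P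
    (FC7.WF.F (VR.WF R))) (Prod.fst x45)))))) (Nat.beq x46 (Prod.snd x45))))))))))

theorem e1386 (R : VR) : (v1385 R) = s1386 R :=
  (e1385 R).trans (lall_lst2 (VR.kar R) (VR.ar1T R) (VR.ar2T R) (fun (x47 : ℕ × ℕ) => (K.bor
    (K.bnot (FC7.XE.sp (FC7.Fc.X (FC7.WF.F (VR.WF R))) (Prod.fst x47))) (K.band (K.band (K.band
    (Nat.ble (Nat.succ (Prod.fst x47)) (FC6.Pa.n (FC7.Fc.P (FC7.WF.F (VR.WF R))))) (Nat.ble
    (Nat.succ (Prod.snd x47)) (FC6.Pa.n (FC7.Fc.P (FC7.WF.F (VR.WF R)))))) (Nat.beq (FC6.Pa.α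
    (FC7.Fc.P (FC7.WF.F (VR.WF R))) (Prod.fst x47)) (Prod.fst x47))) (K.bor (K.band (FC6.Pa.real
    (FC7.Fc.P (FC7.WF.F (VR.WF R))) (Prod.fst x47)) (Nat.beq (Prod.fst x47) (Prod.snd x47)))
    (K.band (K.band (K.bnot (FC6.Pa.real (FC7.Fc.P (FC7.WF.F (VR.WF R))) (Prod.fst x47)))
    (K.WF_hub (VR.WF R) (FC6.Pa.l (FC7.Fc.P (FC7.WF.F (VR.WF R))) (FC6.Pa.φ (FC7.Fc.P (FC7.WF.F
    (VR.WF R))) (Prod.fst x47))))) (K.allN (FC6.Pa.n (FC7.Fc.P (FC7.WF.F (VR.WF R)))) (fun (x48 :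
    ℕ) => (K.bor (K.bor (K.bnot (Nat.beq (FC6.Pa.α (FC7.Fc.P (FC7.WF.F (VR.WF R))) x48) x48))
    (K.bnot (Nat.beq (FC6.Pa.l (FC7.Fc.P (FC7.WF.F (VR.WF R))) x48) (FC6.Pa.l (FC7.Fc.P (FC7.WF.F
    (VR.WF R))) (FC6.Pa.φ (FC7.Fc.P (FC7.WF.F (VR.WF R))) (Prod.fst x47)))))) (Nat.beq x48
    (Prod.snd x47))))))))))).symm

noncomputable def s1387 (R : VR) : Bool :=
  K.WF_chkP (VR.WF R)

theorem e1387 (R : VR) : (v1385 R) = s1387 R :=
  e1386 R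

noncomputable def c_chkP (R : VR) : Bool :=
  (Nat.beq (Nat.land (Nat.sub (VR.o1 R) (v1384 R)) (mM (v1311 R))) (nat_lit 0))

theorem c_chkP_eq (R : VR) : c_chkP R = (K.WF_chkP (VR.WF R)) :=
  e1387 R

noncomputable def v1388 (R : VR) : ℕ :=
  Nat.land (v1010 R) (v1241 R)

noncomputable def s1388 (R : VR) (i : ℕ) : Bool :=
  K.band (s1010 R i) (s1241 R i)

theorem e1388 (R : VR) : B (VR.S R) (v1388 R) (s1388 R) :=
  B.and (e1010 R) (e1241 R)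

noncomputable def v1389 (R : VR) : ℕ :=
  VR.kdj R

noncomputable def s1389 (R : VR) : ℕ :=
  VR.kdj R

theorem e1389 (R : VR) : (v1389 R) = s1389 R :=
  rfl

theorem b1389 (R : VR) : s1389 R ≤ 127 :=
  VR.kdj_b R

noncomputable def s1390 (R : VR) (i : ℕ) : ℕ :=
  tx (VR.djT R) i

theorem e1390 (R : VR) : L (VR.S R) (VR.djT R) (s1390 R) 32767 :=
  VR.dj_is R

noncomputable def v1391 (R : VR) : ℕ :=
  gmk (VR.h2 R) (VR.J R) (Nat.mul (VR.ceT R) (VR.cr1 R))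

noncomputable def v1392 (R : VR) : ℕ :=
  Nat.mod (Nat.land (v1391 R) (v21 R)) (VR.m1 R)

noncomputable def s1392 (R : VR) (i : ℕ) : ℕ :=
  tx (VR.pw1T R) (s1244 R i)

theorem e1392 (R : VR) : L (VR.S R) (v1392 R) (s1392 R) 16384 :=
  L.gat (e1244 R) (VR.pw1_is R) (VR.pw1_lt R) (VR.pw1_le R)

noncomputable def v1393 (R : VR) : ℕ :=
  srM (VR.N R) (VR.S R) (VR.o1 R) (VR.djT R)

noncomputable def s1393 (R : VR) (j i : ℕ) : ℕ :=
  (s1390 R j)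

theorem e1393 (R : VR) : L2 R (v1393 R) (s1393 R) 32767 :=
  L2.row (e1390 R)

noncomputable def v1394 (R : VR) : ℕ :=
  Nat.mul (v1392 R) (VR.cr1 R)

noncomputable def s1394 (R : VR) (j i : ℕ) : ℕ :=
  (s1392 R i)

theorem e1394 (R : VR) : L2 R (v1394 R) (s1394 R) 16384 :=
  L2.rep (e1392 R)

noncomputable def v1395 (R : VR) : ℕ :=
  Nat.lor (v1393 R) (v1394 R)

noncomputable def s1395 (R : VR) (j i : ℕ) : ℕ :=
  Nat.lor (s1393 R j i) (s1394 R j i)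

theorem e1395 (R : VR) : L2 R (v1395 R) (s1395 R) 32767 :=
  L.lor (e1393 R) (e1394 R)

noncomputable def v1396 (R : VR) : ℕ :=
  Nat.shiftRight (Nat.land (Nat.sub (VR.h2 R) (Nat.xor (Nat.lor (v1393 R) (v1394 R)) (v1394 R)))
    (VR.h2 R)) (nat_lit 15)

noncomputable def s1396 (R : VR) (j i : ℕ) : Bool :=
  Nat.beq (s1395 R j i) (s1394 R j i)

theorem e1396 (R : VR) : B2 R (v1396 R) (s1396 R) :=
  L.beq (VR.h2e R) (e1395 R) (e1394 R)

noncomputable def v1397 (R : VR) : ℕ :=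
  Nat.shiftRight (Nat.land (Nat.add (Nat.mod (Nat.land (Nat.shiftRight (Nat.land (Nat.sub (VR.h2
    R) (Nat.xor (Nat.lor (v1393 R) (v1394 R)) (v1394 R))) (VR.h2 R)) (nat_lit 15)) (mM (Nat.mul
    (v1389 R) (VR.S R)))) (VR.m1 R)) (VR.k1 R)) (VR.h1 R)) (nat_lit 15)

noncomputable def s1397 (R : VR) (i : ℕ) : Bool :=
  K.bnot (K.allN (s1389 R) (fun j => K.bnot (s1396 R j i)))

theorem e1397 (R : VR) : B (VR.S R) (v1397 R) (s1397 R) :=
  B.any (e1396 R) (VR.kdj_le R)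

noncomputable def s1398 (R : VR) (i : ℕ) : Bool :=
  K.lany (FC7.XE.dj (VR.X R)) (fun (x49 : ℕ) => (Nat.beq (Nat.lor x49 (tx (VR.pw1T R) (FC7.XE.ce
    (VR.X R) i))) (tx (VR.pw1T R) (FC7.XE.ce (VR.X R) i))))

theorem e1398 (R : VR) : B (VR.S R) (v1397 R) (s1398 R) :=
  B.of_eq (e1397 R) (fun i _ => (lany_lst (VR.kdj R) (VR.djT R) (fun (x50 : ℕ) => (Nat.beq
    (Nat.lor x50 (tx (VR.pw1T R) (FC7.XE.ce (VR.X R) i))) (tx (VR.pw1T R) (FC7.XE.ce (VR.X R)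
    i))))).symm)

noncomputable def v1399 (R : VR) : ℕ :=
  gmk (VR.h2 R) (VR.J R) (Nat.mul (VR.kdT R) (VR.cr1 R))

noncomputable def v1400 (R : VR) : ℕ :=
  Nat.mod (Nat.land (v1399 R) (v1246 R)) (VR.m1 R)

noncomputable def s1400 (R : VR) (i : ℕ) : ℕ :=
  tx (VR.ceT R) (s1129 R i)

theorem e1400 (R : VR) : L (VR.S R) (v1400 R) (s1400 R) 14 :=
  L.gat (e1129 R) (VR.ce_is R) (VR.ce_lt R) (VR.ce_le R)

noncomputable def v1401 (R : VR) : ℕ :=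
  srM (VR.N R) (VR.S R) (VR.o1 R) (Nat.mod (Nat.land (v1399 R) (v1246 R)) (VR.m1 R))

noncomputable def s1401 (R : VR) (j i : ℕ) : ℕ :=
  (s1400 R j)

theorem e1401 (R : VR) : L2 R (v1401 R) (s1401 R) 14 :=
  L2.row (e1400 R)

noncomputable def v1402 (R : VR) : ℕ :=
  Nat.mul (VR.ceT R) (VR.cr1 R)

noncomputable def s1402 (R : VR) (j i : ℕ) : ℕ :=
  (s1244 R i)

theorem e1402 (R : VR) : L2 R (v1402 R) (s1402 R) 14 :=
  L2.rep (e1244 R)

noncomputable def v1403 (R : VR) : ℕ :=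
  Nat.shiftRight (Nat.land (Nat.sub (VR.h2 R) (Nat.xor (srM (VR.N R) (VR.S R) (VR.o1 R) (Nat.mod
    (Nat.land (v1399 R) (v1246 R)) (VR.m1 R))) (v1402 R))) (VR.h2 R)) (nat_lit 15)

noncomputable def s1403 (R : VR) (j i : ℕ) : Bool :=
  Nat.beq (s1401 R j i) (s1402 R j i)

theorem e1403 (R : VR) : B2 R (v1403 R) (s1403 R) :=
  L.beq (VR.h2e R) (e1401 R) (e1402 R)

noncomputable def s1404 (R : VR) (i : ℕ) : Bool :=
  tf (VR.ouT R) i

theorem e1404 (R : VR) : B (VR.S R) (VR.ouT R) (s1404 R) :=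
  VR.ou_is R

noncomputable def v1405 (R : VR) : ℕ :=
  srM (VR.N R) (VR.S R) (VR.o1 R) (VR.ouT R)

noncomputable def v1406 (R : VR) : ℕ :=
  Nat.mod (Nat.land (v1399 R) (srM (VR.N R) (VR.S R) (VR.o1 R) (VR.ouT R))) (VR.m1 R)

noncomputable def s1406 (R : VR) (i : ℕ) : Bool :=
  tf (VR.ouT R) (s1129 R i)

theorem e1406 (R : VR) : B (VR.S R) (v1406 R) (s1406 R) :=
  B.gat (e1129 R) (VR.ou_is R) (VR.ou_lt R)

noncomputable def s1407 (R : VR) (i : ℕ) : ℕ :=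
  tx (VR.kpT R) i

theorem e1407 (R : VR) : L (VR.S R) (VR.kpT R) (s1407 R) 255 :=
  VR.kp_is R

noncomputable def v1408 (R : VR) : ℕ :=
  gmk (VR.h2 R) (VR.J R) (Nat.mul (VR.kpT R) (VR.cr1 R))

noncomputable def v1409 (R : VR) : ℕ :=
  srM (VR.N R) (VR.S R) (VR.o1 R) (VR.cepT R)

noncomputable def v1410 (R : VR) : ℕ :=
  Nat.mod (Nat.land (v1408 R) (v1409 R)) (VR.m1 R)

noncomputable def s1410 (R : VR) (i : ℕ) : ℕ :=
  tx (VR.cepT R) (s1407 R i)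

theorem e1410 (R : VR) : L (VR.S R) (v1410 R) (s1410 R) 14 :=
  L.gat (e1407 R) (VR.cep_is R) (VR.cep_lt R) (VR.cep_le R)

noncomputable def v1411 (R : VR) : ℕ :=
  Nat.mod (Nat.land (v1399 R) (v1409 R)) (VR.m1 R)

noncomputable def s1411 (R : VR) (i : ℕ) : ℕ :=
  tx (VR.cepT R) (s1129 R i)

theorem e1411 (R : VR) : L (VR.S R) (v1411 R) (s1411 R) 14 :=
  L.gat (e1129 R) (VR.cep_is R) (VR.cep_lt R) (VR.cep_le R)

noncomputable def v1412 (R : VR) : ℕ :=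
  Nat.mul (v1410 R) (VR.cr1 R)

noncomputable def s1412 (R : VR) (j i : ℕ) : ℕ :=
  (s1410 R i)

theorem e1412 (R : VR) : L2 R (v1412 R) (s1412 R) 14 :=
  L2.rep (e1410 R)

noncomputable def v1413 (R : VR) : ℕ :=
  srM (VR.N R) (VR.S R) (VR.o1 R) (v1411 R)

noncomputable def s1413 (R : VR) (j i : ℕ) : ℕ :=
  (s1411 R j)

theorem e1413 (R : VR) : L2 R (v1413 R) (s1413 R) 14 :=
  L2.row (e1411 R)

noncomputable def v1414 (R : VR) : ℕ :=
  Nat.shiftRight (Nat.land (Nat.sub (VR.h2 R) (Nat.xor (v1412 R) (srM (VR.N R) (VR.S R) (VR.o1 R)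
    (v1411 R)))) (VR.h2 R)) (nat_lit 15)

noncomputable def s1414 (R : VR) (j i : ℕ) : Bool :=
  Nat.beq (s1412 R j i) (s1413 R j i)

theorem e1414 (R : VR) : B2 R (v1414 R) (s1414 R) :=
  L.beq (VR.h2e R) (e1412 R) (e1413 R)

noncomputable def v1415 (R : VR) : ℕ :=
  Nat.mul (VR.ukT R) (VR.cr1 R)

noncomputable def s1415 (R : VR) (j i : ℕ) : Bool :=
  (s1008 R i)

theorem e1415 (R : VR) : B2 R (v1415 R) (s1415 R) :=
  B2.rep (e1008 R)

noncomputable def v1416 (R : VR) : ℕ :=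
  Nat.land (v1415 R) (Nat.shiftRight (Nat.land (Nat.sub (VR.h2 R) (Nat.xor (v1412 R) (srM (VR.N R)
    (VR.S R) (VR.o1 R) (v1411 R)))) (VR.h2 R)) (nat_lit 15))

noncomputable def s1416 (R : VR) (j i : ℕ) : Bool :=
  K.band (s1415 R j i) (s1414 R j i)

theorem e1416 (R : VR) : B2 R (v1416 R) (s1416 R) :=
  B.and (e1415 R) (e1414 R)

noncomputable def v1417 (R : VR) : ℕ :=
  srM (VR.N R) (VR.S R) (VR.o1 R) (Nat.mod (Nat.land (v1399 R) (srM (VR.N R) (VR.S R) (VR.o1 R)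
    (VR.ouT R))) (VR.m1 R))

noncomputable def s1417 (R : VR) (j i : ℕ) : Bool :=
  (s1406 R j)

theorem e1417 (R : VR) : B2 R (v1417 R) (s1417 R) :=
  B2.row (e1406 R)

noncomputable def v1418 (R : VR) : ℕ :=
  Nat.lor (srM (VR.N R) (VR.S R) (VR.o1 R) (Nat.mod (Nat.land (v1399 R) (srM (VR.N R) (VR.S R)
    (VR.o1 R) (VR.ouT R))) (VR.m1 R))) (Nat.land (v1415 R) (Nat.shiftRight (Nat.land (Nat.sub
    (VR.h2 R) (Nat.xor (v1412 R) (srM (VR.N R) (VR.S R) (VR.o1 R) (v1411 R)))) (VR.h2 R)) (nat_lit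
    15)))

noncomputable def s1418 (R : VR) (j i : ℕ) : Bool :=
  K.bor (s1417 R j i) (s1416 R j i)

theorem e1418 (R : VR) : B2 R (v1418 R) (s1418 R) :=
  B.or (e1417 R) (e1416 R)

noncomputable def v1419 (R : VR) : ℕ :=
  srM (VR.N R) (VR.S R) (VR.o1 R) (VR.cepT R)

noncomputable def s1419 (R : VR) (j i : ℕ) : ℕ :=
  (s116 R j)

theorem e1419 (R : VR) : L2 R (v1419 R) (s1419 R) 14 :=
  L2.row (e116 R)

noncomputable def v1420 (R : VR) : ℕ :=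
  Nat.mul (v1411 R) (VR.cr1 R)

noncomputable def s1420 (R : VR) (j i : ℕ) : ℕ :=
  (s1411 R i)

theorem e1420 (R : VR) : L2 R (v1420 R) (s1420 R) 14 :=
  L2.rep (e1411 R)

noncomputable def v1421 (R : VR) : ℕ :=
  Nat.shiftRight (Nat.land (Nat.sub (VR.h2 R) (Nat.xor (v1419 R) (Nat.mul (v1411 R) (VR.cr1 R))))
    (VR.h2 R)) (nat_lit 15)

noncomputable def s1421 (R : VR) (j i : ℕ) : Bool :=
  Nat.beq (s1419 R j i) (s1420 R j i)

theorem e1421 (R : VR) : B2 R (v1421 R) (s1421 R) :=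
  L.beq (VR.h2e R) (e1419 R) (e1420 R)

noncomputable def s1422 (R : VR) (i : ℕ) : ℕ :=
  tx (VR.upT R) i

theorem e1422 (R : VR) : L (VR.S R) (VR.upT R) (s1422 R) 15 :=
  VR.up_is R

noncomputable def v1423 (R : VR) : ℕ :=
  srM (VR.N R) (VR.S R) (VR.o1 R) (VR.upT R)

noncomputable def s1423 (R : VR) (j i : ℕ) : ℕ :=
  (s1422 R j)

theorem e1423 (R : VR) : L2 R (v1423 R) (s1423 R) 15 :=
  L2.row (e1422 R)

noncomputable def v1424 (R : VR) : ℕ :=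
  Nat.xor (v25 R) (Nat.land (Nat.xor (v25 R) (v1423 R)) (Nat.mul (Nat.shiftRight (Nat.land
    (Nat.sub (VR.h2 R) (Nat.xor (v1419 R) (Nat.mul (v1411 R) (VR.cr1 R)))) (VR.h2 R)) (nat_lit
    15)) (nat_lit 32767)))

noncomputable def s1424 (R : VR) (j i : ℕ) : ℕ :=
  Bool.rec (motive := fun _ => ℕ) (s25 R j i) (s1423 R j i) (s1421 R j i)

theorem e1424 (R : VR) : L2 R (v1424 R) (s1424 R) 15 :=
  L.sel (e1421 R) (e1423 R) (e25 R) (by decide) (by decide) (by decide)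

noncomputable def v1425 (R : VR) : ℕ :=
  Nat.mod (Nat.land (Nat.xor (v25 R) (Nat.land (Nat.xor (v25 R) (v1423 R)) (Nat.mul
    (Nat.shiftRight (Nat.land (Nat.sub (VR.h2 R) (Nat.xor (v1419 R) (Nat.mul (v1411 R) (VR.cr1
    R)))) (VR.h2 R)) (nat_lit 15)) (nat_lit 32767)))) (mM (Nat.mul (v112 R) (VR.S R)))) (VR.m1 R)

noncomputable def s1425 (R : VR) (i : ℕ) : ℕ :=
  K.sumN (s112 R) (fun j => (s1424 R j i))

theorem e1425 (R : VR) : L (VR.S R) (v1425 R) (s1425 R) 1905 :=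
  L.sum (e1424 R) (VR.n_le R) (by decide)

noncomputable def s1426 (R : VR) (i : ℕ) : ℕ :=
  K.sumN (s112 R) (fun (x51 : ℕ) => (Bool.rec (motive := fun _ => ℕ) (nat_lit 0) (FC6.Pa.u
    (FC7.Fc.P' (VR.F R)) x51) (Nat.beq (FC7.OD.pc (FC7.Fc.O (VR.F R)) x51) (s1411 R i))))

theorem e1426 (R : VR) : L (VR.S R) (v1425 R) (s1426 R) 1905 :=
  e1425 R

noncomputable def s1427 (R : VR) (i : ℕ) : ℕ :=
  K.Fc_pu (VR.F R) (s1411 R i)

theorem e1427 (R : VR) : L (VR.S R) (v1425 R) (s1427 R) 1905 :=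
  e1426 R

noncomputable def v1428 (R : VR) : ℕ :=
  Nat.shiftRight (Nat.land (Nat.sub (VR.h1 R) (v1425 R)) (VR.h1 R)) (nat_lit 15)

noncomputable def s1428 (R : VR) (i : ℕ) : Bool :=
  Nat.beq (s1427 R i) (nat_lit 0)

theorem e1428 (R : VR) : B (VR.S R) (v1428 R) (s1428 R) :=
  L.ez (VR.h1e R) (e1427 R)

noncomputable def v1429 (R : VR) : ℕ :=
  Nat.shiftRight (Nat.land (Nat.add (v1425 R) (VR.k1 R)) (VR.h1 R)) (nat_lit 15)

noncomputable def s1429 (R : VR) (i : ℕ) : Bool :=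
  K.bnot (Nat.beq (s1427 R i) (nat_lit 0))

theorem e1429 (R : VR) : B (VR.S R) (v1429 R) (s1429 R) :=
  L.nz (VR.h1e R) (VR.k1e R) (e1427 R)

noncomputable def v1430 (R : VR) : ℕ :=
  srM (VR.N R) (VR.S R) (VR.o1 R) (Nat.shiftRight (Nat.land (Nat.add (v1425 R) (VR.k1 R)) (VR.h1
    R)) (nat_lit 15))

noncomputable def s1430 (R : VR) (j i : ℕ) : Bool :=
  (s1429 R j)

theorem e1430 (R : VR) : B2 R (v1430 R) (s1430 R) :=
  B2.row (e1429 R)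

noncomputable def v1431 (R : VR) : ℕ :=
  Nat.lor (Nat.lor (srM (VR.N R) (VR.S R) (VR.o1 R) (Nat.mod (Nat.land (v1399 R) (srM (VR.N R)
    (VR.S R) (VR.o1 R) (VR.ouT R))) (VR.m1 R))) (Nat.land (v1415 R) (Nat.shiftRight (Nat.land
    (Nat.sub (VR.h2 R) (Nat.xor (v1412 R) (srM (VR.N R) (VR.S R) (VR.o1 R) (v1411 R)))) (VR.h2 R))
    (nat_lit 15)))) (srM (VR.N R) (VR.S R) (VR.o1 R) (Nat.shiftRight (Nat.land (Nat.add (v1425 R)
    (VR.k1 R)) (VR.h1 R)) (nat_lit 15)))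

noncomputable def s1431 (R : VR) (j i : ℕ) : Bool :=
  K.bor (s1418 R j i) (s1430 R j i)

theorem e1431 (R : VR) : B2 R (v1431 R) (s1431 R) :=
  B.or (e1418 R) (e1430 R)

noncomputable def s1432 (R : VR) (j i : ℕ) : Bool :=
  K.WF_okw (VR.WF R) i (s1129 R j)

theorem e1432 (R : VR) : B2 R (v1431 R) (s1432 R) :=
  e1431 R

noncomputable def v1433 (R : VR) : ℕ :=
  Nat.land (v1403 R) (v1431 R)

noncomputable def s1433 (R : VR) (j i : ℕ) : Bool :=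
  K.band (s1403 R j i) (s1432 R j i)

theorem e1433 (R : VR) : B2 R (v1433 R) (s1433 R) :=
  B.and (e1403 R) (e1432 R)

noncomputable def v1434 (R : VR) : ℕ :=
  Nat.shiftRight (Nat.land (Nat.add (Nat.mod (Nat.land (Nat.land (v1403 R) (v1431 R)) (mM (Nat.mul
    (v1128 R) (VR.S R)))) (VR.m1 R)) (VR.k1 R)) (VR.h1 R)) (nat_lit 15)

noncomputable def s1434 (R : VR) (i : ℕ) : Bool :=
  K.bnot (K.allN (s1128 R) (fun j => K.bnot (s1433 R j i)))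

theorem e1434 (R : VR) : B (VR.S R) (v1434 R) (s1434 R) :=
  B.any (e1433 R) (VR.kkd_le R)

noncomputable def s1435 (R : VR) (i : ℕ) : Bool :=
  K.lany (FC7.XE.kd (VR.X R)) (fun (x52 : ℕ) => (K.band (Nat.beq (FC7.XE.ce (VR.X R) x52)
    (FC7.XE.ce (VR.X R) i)) (K.WF_okw (VR.WF R) i x52)))

theorem e1435 (R : VR) : B (VR.S R) (v1434 R) (s1435 R) :=
  B.of_eq (e1434 R) (fun i _ => (lany_lst (VR.kkd R) (VR.kdT R) (fun (x53 : ℕ) => (K.band (Nat.beq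
    (FC7.XE.ce (VR.X R) x53) (FC7.XE.ce (VR.X R) i)) (K.WF_okw (VR.WF R) i x53)))).symm)

noncomputable def v1436 (R : VR) : ℕ :=
  Nat.lor (v1397 R) (Nat.shiftRight (Nat.land (Nat.add (Nat.mod (Nat.land (Nat.land (v1403 R)
    (v1431 R)) (mM (Nat.mul (v1128 R) (VR.S R)))) (VR.m1 R)) (VR.k1 R)) (VR.h1 R)) (nat_lit 15))

noncomputable def s1436 (R : VR) (i : ℕ) : Bool :=
  K.bor (s1398 R i) (s1435 R i)

theorem e1436 (R : VR) : B (VR.S R) (v1436 R) (s1436 R) :=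
  B.or (e1398 R) (e1435 R)

noncomputable def v1437 (R : VR) : ℕ :=
  Nat.land (v192 R) (v1135 R)

noncomputable def s1437 (R : VR) (i : ℕ) : Bool :=
  K.band (s192 R i) (s1135 R i)

theorem e1437 (R : VR) : B (VR.S R) (v1437 R) (s1437 R) :=
  B.and (e192 R) (e1135 R)

noncomputable def v1438 (R : VR) : ℕ :=
  srM (VR.N R) (VR.S R) (VR.o1 R) (VR.ceT R)

noncomputable def s1438 (R : VR) (j i : ℕ) : ℕ :=
  (s1244 R j)

theorem e1438 (R : VR) : L2 R (v1438 R) (s1438 R) 14 :=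
  L2.row (e1244 R)

noncomputable def v1439 (R : VR) : ℕ :=
  Nat.shiftRight (Nat.land (Nat.sub (VR.h2 R) (Nat.xor (srM (VR.N R) (VR.S R) (VR.o1 R) (VR.ceT
    R)) (v1402 R))) (VR.h2 R)) (nat_lit 15)

noncomputable def s1439 (R : VR) (j i : ℕ) : Bool :=
  Nat.beq (s1438 R j i) (s1402 R j i)

theorem e1439 (R : VR) : B2 R (v1439 R) (s1439 R) :=
  L.beq (VR.h2e R) (e1438 R) (e1402 R)

noncomputable def v1440 (R : VR) : ℕ :=
  srM (VR.N R) (VR.S R) (VR.o1 R) (Nat.land (v192 R) (v1135 R))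

noncomputable def s1440 (R : VR) (j i : ℕ) : Bool :=
  (s1437 R j)

theorem e1440 (R : VR) : B2 R (v1440 R) (s1440 R) :=
  B2.row (e1437 R)

noncomputable def v1441 (R : VR) : ℕ :=
  Nat.land (srM (VR.N R) (VR.S R) (VR.o1 R) (Nat.land (v192 R) (v1135 R))) (Nat.shiftRight
    (Nat.land (Nat.sub (VR.h2 R) (Nat.xor (srM (VR.N R) (VR.S R) (VR.o1 R) (VR.ceT R)) (v1402 R)))
    (VR.h2 R)) (nat_lit 15))

noncomputable def s1441 (R : VR) (j i : ℕ) : Bool :=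
  K.band (s1440 R j i) (s1439 R j i)

theorem e1441 (R : VR) : B2 R (v1441 R) (s1441 R) :=
  B.and (e1440 R) (e1439 R)

noncomputable def v1442 (R : VR) : ℕ :=
  Nat.shiftRight (Nat.land (Nat.sub (VR.h2 R) (Nat.xor (v1412 R) (v1419 R))) (VR.h2 R)) (nat_lit
    15)

noncomputable def s1442 (R : VR) (j i : ℕ) : Bool :=
  Nat.beq (s1412 R j i) (s1419 R j i)

theorem e1442 (R : VR) : B2 R (v1442 R) (s1442 R) :=
  L.beq (VR.h2e R) (e1412 R) (e1419 R)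

noncomputable def v1443 (R : VR) : ℕ :=
  Nat.land (v1415 R) (Nat.shiftRight (Nat.land (Nat.sub (VR.h2 R) (Nat.xor (v1412 R) (v1419 R)))
    (VR.h2 R)) (nat_lit 15))

noncomputable def s1443 (R : VR) (j i : ℕ) : Bool :=
  K.band (s1415 R j i) (s1442 R j i)

theorem e1443 (R : VR) : B2 R (v1443 R) (s1443 R) :=
  B.and (e1415 R) (e1442 R)

noncomputable def v1444 (R : VR) : ℕ :=
  srM (VR.N R) (VR.S R) (VR.o1 R) (VR.ouT R)

noncomputable def s1444 (R : VR) (j i : ℕ) : Bool :=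
  (s1404 R j)

theorem e1444 (R : VR) : B2 R (v1444 R) (s1444 R) :=
  B2.row (e1404 R)

noncomputable def v1445 (R : VR) : ℕ :=
  Nat.lor (v1444 R) (Nat.land (v1415 R) (Nat.shiftRight (Nat.land (Nat.sub (VR.h2 R) (Nat.xor
    (v1412 R) (v1419 R))) (VR.h2 R)) (nat_lit 15)))

noncomputable def s1445 (R : VR) (j i : ℕ) : Bool :=
  K.bor (s1444 R j i) (s1443 R j i)

theorem e1445 (R : VR) : B2 R (v1445 R) (s1445 R) :=
  B.or (e1444 R) (e1443 R)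

noncomputable def v1446 (R : VR) : ℕ :=
  Nat.mul (VR.cepT R) (VR.cr1 R)

noncomputable def s1446 (R : VR) (j i : ℕ) : ℕ :=
  (s116 R i)

theorem e1446 (R : VR) : L2 R (v1446 R) (s1446 R) 14 :=
  L2.rep (e116 R)

noncomputable def v1447 (R : VR) : ℕ :=
  Nat.shiftRight (Nat.land (Nat.sub (VR.h2 R) (Nat.xor (v1419 R) (v1446 R))) (VR.h2 R)) (nat_lit
    15)

noncomputable def s1447 (R : VR) (j i : ℕ) : Bool :=
  Nat.beq (s1419 R j i) (s1446 R j i)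

theorem e1447 (R : VR) : B2 R (v1447 R) (s1447 R) :=
  L.beq (VR.h2e R) (e1419 R) (e1446 R)

noncomputable def v1448 (R : VR) : ℕ :=
  Nat.xor (v25 R) (Nat.land (Nat.xor (v25 R) (v1423 R)) (Nat.mul (v1447 R) (nat_lit 32767)))

noncomputable def s1448 (R : VR) (j i : ℕ) : ℕ :=
  Bool.rec (motive := fun _ => ℕ) (s25 R j i) (s1423 R j i) (s1447 R j i)

theorem e1448 (R : VR) : L2 R (v1448 R) (s1448 R) 15 :=
  L.sel (e1447 R) (e1423 R) (e25 R) (by decide) (by decide) (by decide)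

noncomputable def v1449 (R : VR) : ℕ :=
  Nat.mod (Nat.land (Nat.xor (v25 R) (Nat.land (Nat.xor (v25 R) (v1423 R)) (Nat.mul (v1447 R)
    (nat_lit 32767)))) (mM (Nat.mul (v112 R) (VR.S R)))) (VR.m1 R)

noncomputable def s1449 (R : VR) (i : ℕ) : ℕ :=
  K.sumN (s112 R) (fun j => (s1448 R j i))

theorem e1449 (R : VR) : L (VR.S R) (v1449 R) (s1449 R) 1905 :=
  L.sum (e1448 R) (VR.n_le R) (by decide)

noncomputable def s1450 (R : VR) (i : ℕ) : ℕ :=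
  K.sumN (s112 R) (fun (x54 : ℕ) => (Bool.rec (motive := fun _ => ℕ) (nat_lit 0) (FC6.Pa.u
    (FC7.Fc.P' (VR.F R)) x54) (Nat.beq (FC7.OD.pc (FC7.Fc.O (VR.F R)) x54) (s116 R i))))

theorem e1450 (R : VR) : L (VR.S R) (v1449 R) (s1450 R) 1905 :=
  e1449 R

noncomputable def s1451 (R : VR) (i : ℕ) : ℕ :=
  K.Fc_pu (VR.F R) (s116 R i)

theorem e1451 (R : VR) : L (VR.S R) (v1449 R) (s1451 R) 1905 :=
  e1450 R

noncomputable def v1452 (R : VR) : ℕ :=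
  Nat.shiftRight (Nat.land (Nat.sub (VR.h1 R) (v1449 R)) (VR.h1 R)) (nat_lit 15)

noncomputable def s1452 (R : VR) (i : ℕ) : Bool :=
  Nat.beq (s1451 R i) (nat_lit 0)

theorem e1452 (R : VR) : B (VR.S R) (v1452 R) (s1452 R) :=
  L.ez (VR.h1e R) (e1451 R)

noncomputable def v1453 (R : VR) : ℕ :=
  Nat.shiftRight (Nat.land (Nat.add (v1449 R) (VR.k1 R)) (VR.h1 R)) (nat_lit 15)

noncomputable def s1453 (R : VR) (i : ℕ) : Bool :=
  K.bnot (Nat.beq (s1451 R i) (nat_lit 0))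

theorem e1453 (R : VR) : B (VR.S R) (v1453 R) (s1453 R) :=
  L.nz (VR.h1e R) (VR.k1e R) (e1451 R)

noncomputable def v1454 (R : VR) : ℕ :=
  srM (VR.N R) (VR.S R) (VR.o1 R) (Nat.shiftRight (Nat.land (Nat.add (v1449 R) (VR.k1 R)) (VR.h1
    R)) (nat_lit 15))

noncomputable def s1454 (R : VR) (j i : ℕ) : Bool :=
  (s1453 R j)

theorem e1454 (R : VR) : B2 R (v1454 R) (s1454 R) :=
  B2.row (e1453 R)

noncomputable def v1455 (R : VR) : ℕ :=
  Nat.lor (Nat.lor (v1444 R) (Nat.land (v1415 R) (Nat.shiftRight (Nat.land (Nat.sub (VR.h2 R)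
    (Nat.xor (v1412 R) (v1419 R))) (VR.h2 R)) (nat_lit 15)))) (srM (VR.N R) (VR.S R) (VR.o1 R)
    (Nat.shiftRight (Nat.land (Nat.add (v1449 R) (VR.k1 R)) (VR.h1 R)) (nat_lit 15)))

noncomputable def s1455 (R : VR) (j i : ℕ) : Bool :=
  K.bor (s1445 R j i) (s1454 R j i)

theorem e1455 (R : VR) : B2 R (v1455 R) (s1455 R) :=
  B.or (e1445 R) (e1454 R)

noncomputable def s1456 (R : VR) (j i : ℕ) : Bool :=
  K.WF_okw (VR.WF R) i j

theorem e1456 (R : VR) : B2 R (v1455 R) (s1456 R) :=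
  e1455 R

noncomputable def v1457 (R : VR) : ℕ :=
  Nat.land (v1441 R) (Nat.lor (Nat.lor (v1444 R) (Nat.land (v1415 R) (Nat.shiftRight (Nat.land
    (Nat.sub (VR.h2 R) (Nat.xor (v1412 R) (v1419 R))) (VR.h2 R)) (nat_lit 15)))) (srM (VR.N R)
    (VR.S R) (VR.o1 R) (Nat.shiftRight (Nat.land (Nat.add (v1449 R) (VR.k1 R)) (VR.h1 R)) (nat_lit
    15))))

noncomputable def s1457 (R : VR) (j i : ℕ) : Bool :=
  K.band (s1441 R j i) (s1456 R j i)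

theorem e1457 (R : VR) : B2 R (v1457 R) (s1457 R) :=
  B.and (e1441 R) (e1456 R)

noncomputable def v1458 (R : VR) : ℕ :=
  Nat.sub (VR.o2 R) (Nat.land (v1441 R) (Nat.lor (Nat.lor (v1444 R) (Nat.land (v1415 R)
    (Nat.shiftRight (Nat.land (Nat.sub (VR.h2 R) (Nat.xor (v1412 R) (v1419 R))) (VR.h2 R))
    (nat_lit 15)))) (srM (VR.N R) (VR.S R) (VR.o1 R) (Nat.shiftRight (Nat.land (Nat.add (v1449 R)
    (VR.k1 R)) (VR.h1 R)) (nat_lit 15)))))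

noncomputable def s1458 (R : VR) (j i : ℕ) : Bool :=
  K.bnot (s1457 R j i)

theorem e1458 (R : VR) : B2 R (v1458 R) (s1458 R) :=
  B.not (VR.o2e R) (e1457 R)

noncomputable def v1459 (R : VR) : ℕ :=
  Nat.shiftRight (Nat.land (Nat.sub (VR.h1 R) (Nat.mod (Nat.land (Nat.sub (VR.o2 R) (Nat.sub
    (VR.o2 R) (Nat.land (v1441 R) (Nat.lor (Nat.lor (v1444 R) (Nat.land (v1415 R) (Nat.shiftRight
    (Nat.land (Nat.sub (VR.h2 R) (Nat.xor (v1412 R) (v1419 R))) (VR.h2 R)) (nat_lit 15)))) (srM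
    (VR.N R) (VR.S R) (VR.o1 R) (Nat.shiftRight (Nat.land (Nat.add (v1449 R) (VR.k1 R)) (VR.h1 R))
    (nat_lit 15))))))) (mM (Nat.mul (v112 R) (VR.S R)))) (VR.m1 R))) (VR.h1 R)) (nat_lit 15)

noncomputable def s1459 (R : VR) (i : ℕ) : Bool :=
  K.allN (s112 R) (fun j => (s1458 R j i))

theorem e1459 (R : VR) : B (VR.S R) (v1459 R) (s1459 R) :=
  B.all (e1458 R) (VR.n_le R)

noncomputable def s1460 (R : VR) (i : ℕ) : Bool :=
  K.allN (s112 R) (fun (x55 : ℕ) => (K.bnot (K.band (K.band (K.band (Nat.beq (FC6.Pa.α (VR.P R)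
    x55) x55) (K.bnot (FC6.Pa.real (VR.P R) x55))) (Nat.beq (FC7.XE.ce (VR.X R) x55) (FC7.XE.ce
    (VR.X R) i))) (K.WF_okw (VR.WF R) i x55))))

theorem e1460 (R : VR) : B (VR.S R) (v1459 R) (s1460 R) :=
  e1459 R

noncomputable def v1461 (R : VR) : ℕ :=
  Nat.sub (VR.o1 R) (v1459 R)

noncomputable def s1461 (R : VR) (i : ℕ) : Bool :=
  K.bnot (s1460 R i)

theorem e1461 (R : VR) : B (VR.S R) (v1461 R) (s1461 R) :=
  B.not (VR.o1e R) (e1460 R)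

noncomputable def v1462 (R : VR) : ℕ :=
  Nat.lor (Nat.lor (v1397 R) (Nat.shiftRight (Nat.land (Nat.add (Nat.mod (Nat.land (Nat.land
    (v1403 R) (v1431 R)) (mM (Nat.mul (v1128 R) (VR.S R)))) (VR.m1 R)) (VR.k1 R)) (VR.h1 R))
    (nat_lit 15))) (Nat.sub (VR.o1 R) (v1459 R))

noncomputable def s1462 (R : VR) (i : ℕ) : Bool :=
  K.bor (s1436 R i) (s1461 R i)

theorem e1462 (R : VR) : B (VR.S R) (v1462 R) (s1462 R) :=
  B.or (e1436 R) (e1461 R)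

noncomputable def s1463 (R : VR) (i : ℕ) : Bool :=
  V2.okv R i

theorem e1463 (R : VR) : B (VR.S R) (v1462 R) (s1463 R) :=
  e1462 R

noncomputable def v1464 (R : VR) : ℕ :=
  Nat.lor (Nat.land (v1010 R) (v1241 R)) (Nat.lor (Nat.lor (v1397 R) (Nat.shiftRight (Nat.land
    (Nat.add (Nat.mod (Nat.land (Nat.land (v1403 R) (v1431 R)) (mM (Nat.mul (v1128 R) (VR.S R))))
    (VR.m1 R)) (VR.k1 R)) (VR.h1 R)) (nat_lit 15))) (Nat.sub (VR.o1 R) (v1459 R)))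

noncomputable def s1464 (R : VR) (i : ℕ) : Bool :=
  K.bor (s1388 R i) (s1463 R i)

theorem e1464 (R : VR) : B (VR.S R) (v1464 R) (s1464 R) :=
  B.or (e1388 R) (e1463 R)

noncomputable def v1465 (R : VR) : Bool :=
  Nat.beq (Nat.land (Nat.sub (VR.o1 R) (Nat.lor (Nat.land (v1010 R) (v1241 R)) (Nat.lor (Nat.lor
    (v1397 R) (Nat.shiftRight (Nat.land (Nat.add (Nat.mod (Nat.land (Nat.land (v1403 R) (v1431 R))
    (mM (Nat.mul (v1128 R) (VR.S R)))) (VR.m1 R)) (VR.k1 R)) (VR.h1 R)) (nat_lit 15))) (Nat.sub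
    (VR.o1 R) (v1459 R))))) (mM (v112 R))) (nat_lit 0)

noncomputable def s1465 (R : VR) : Bool :=
  K.allN (s112 R) (s1464 R)

theorem e1465 (R : VR) : (v1465 R) = s1465 R :=
  all0 (e1464 R) (VR.n_le R)

noncomputable def s1466 (R : VR) : Bool :=
  K.allN (s112 R) (fun (x56 : ℕ) => (K.bor (K.band (Nat.beq (FC6.Pa.u (VR.P R) x56) (nat_lit 0))
    (K.bnot (FC7.Fc.uk (VR.F R) x56))) (V2.okv R x56)))

theorem e1466 (R : VR) : (v1465 R) = s1466 R :=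
  e1465 R

noncomputable def s1467 (R : VR) : Bool :=
  V2.chkV R

theorem e1467 (R : VR) : (v1465 R) = s1467 R :=
  e1466 R

noncomputable def c_chkV (R : VR) : Bool :=
  (Nat.beq (Nat.land (Nat.sub (VR.o1 R) (Nat.lor (Nat.land (v1010 R) (v1241 R)) (Nat.lor (Nat.lor
    (v1397 R) (Nat.shiftRight (Nat.land (Nat.add (Nat.mod (Nat.land (Nat.land (v1403 R) (v1431 R))
    (mM (Nat.mul (v1128 R) (VR.S R)))) (VR.m1 R)) (VR.k1 R)) (VR.h1 R)) (nat_lit 15))) (Nat.sub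
    (VR.o1 R) (v1459 R))))) (mM (v112 R))) (nat_lit 0))

theorem c_chkV_eq (R : VR) : c_chkV R = (V2.chkV R) :=
  e1467 R

end Vs

end Pool.FC7
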