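import Pool.Agent.FC7.VtD

/-! # Vector form of the static checks: generated file (vgen.py) -/

open Finset

set_option linter.all false

namespace Pool.FC7

open Pool.FC6

namespace Vs

noncomputable def v1468 (R : VR) : ℕ :=
  VR.p R

noncomputable def s1468 (R : VR) : ℕ :=
  VR.p R

theorem e1468 (R : VR) : (v1468 R) = s1468 R :=
  rfl

theorem b1468 (R : VR) : s1468 R ≤ 15 :=
  VR.p_b R

noncomputable def s1469 (R : VR) (i : ℕ) : ℕ :=
  tx (VR.tyT R) i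

theorem e1469 (R : VR) : L (VR.S R) (VR.tyT R) (s1469 R) 255 :=
  VR.ty_is R

noncomputable def v1470 (R : VR) : ℕ :=
  Nat.shiftRight (Nat.land (Nat.sub (VR.h1 R) (Nat.xor (VR.tyT R) (v136 R))) (VR.h1 R)) (nat_lit
    15)

noncomputable def s1470 (R : VR) (i : ℕ) : Bool :=
  Nat.beq (s1469 R i) (s136 R i)

theorem e1470 (R : VR) : B (VR.S R) (v1470 R) (s1470 R) :=
  L.beq (VR.h1e R) (e1469 R) (e136 R)

noncomputable def v1471 (R : VR) : ℕ :=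
  Nat.sub (VR.o1 R) (v1470 R)

noncomputable def s1471 (R : VR) (i : ℕ) : Bool :=
  K.bnot (s1470 R i)

theorem e1471 (R : VR) : B (VR.S R) (v1471 R) (s1471 R) :=
  B.not (VR.o1e R) (e1470 R)

noncomputable def s1472 (R : VR) (i : ℕ) : ℕ :=
  tx (VR.tjT R) i

theorem e1472 (R : VR) : L (VR.S R) (VR.tjT R) (s1472 R) 255 :=
  VR.tj_is R

noncomputable def v1473 (R : VR) : ℕ :=
  Nat.shiftRight (Nat.land (Nat.sub (Nat.add (v172 R) (VR.k1 R)) (VR.tjT R)) (VR.h1 R)) (nat_lit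
    15)

noncomputable def s1473 (R : VR) (i : ℕ) : Bool :=
  Nat.ble (Nat.succ (s1472 R i)) (s172 R i)

theorem e1473 (R : VR) : B (VR.S R) (v1473 R) (s1473 R) :=
  L.blt (VR.h1e R) (VR.k1e R) (e1472 R) (e172 R)

noncomputable def v1474 (R : VR) : ℕ :=
  gmk (VR.h2 R) (VR.J R) (Nat.mul (VR.tjT R) (VR.cr1 R))

noncomputable def v1475 (R : VR) : ℕ :=
  Nat.mod (Nat.land (v1474 R) (v877 R)) (VR.m1 R)

noncomputable def s1475 (R : VR) (i : ℕ) : Bool :=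
  tf (VR.realT R) (s1472 R i)

theorem e1475 (R : VR) : B (VR.S R) (v1475 R) (s1475 R) :=
  B.gat (e1472 R) (VR.real_is R) (VR.real_lt R)

noncomputable def v1476 (R : VR) : ℕ :=
  Nat.mod (Nat.land (v1474 R) (v178 R)) (VR.m1 R)

noncomputable def s1476 (R : VR) (i : ℕ) : ℕ :=
  tx (VR.phiT R) (s1472 R i)

theorem e1476 (R : VR) : L (VR.S R) (v1476 R) (s1476 R) 255 :=
  L.gat (e1472 R) (VR.phi_is R) (VR.phi_lt R) (VR.phi_le R)

noncomputable def v1477 (R : VR) : ℕ :=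
  gmk (VR.h2 R) (VR.J R) (Nat.mul (v1476 R) (VR.cr1 R))

noncomputable def v1478 (R : VR) : ℕ :=
  Nat.mod (Nat.land (v1477 R) (v877 R)) (VR.m1 R)

noncomputable def s1478 (R : VR) (i : ℕ) : Bool :=
  tf (VR.realT R) (s1476 R i)

theorem e1478 (R : VR) : B (VR.S R) (v1478 R) (s1478 R) :=
  B.gat (e1476 R) (VR.real_is R) (VR.real_lt R)

noncomputable def v1479 (R : VR) : ℕ :=
  Nat.land (Nat.mod (Nat.land (v1474 R) (v877 R)) (VR.m1 R)) (Nat.mod (Nat.land (v1477 R) (v877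
    R)) (VR.m1 R))

noncomputable def s1479 (R : VR) (i : ℕ) : Bool :=
  K.band (s1475 R i) (s1478 R i)

theorem e1479 (R : VR) : B (VR.S R) (v1479 R) (s1479 R) :=
  B.and (e1475 R) (e1478 R)

noncomputable def v1480 (R : VR) : ℕ :=
  Nat.mod (Nat.land (v1477 R) (v178 R)) (VR.m1 R)

noncomputable def s1480 (R : VR) (i : ℕ) : ℕ :=
  tx (VR.phiT R) (s1476 R i)

theorem e1480 (R : VR) : L (VR.S R) (v1480 R) (s1480 R) 255 :=
  L.gat (e1476 R) (VR.phi_is R) (VR.phi_lt R) (VR.phi_le R)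

noncomputable def v1481 (R : VR) : ℕ :=
  gmk (VR.h2 R) (VR.J R) (Nat.mul (v1480 R) (VR.cr1 R))

noncomputable def v1482 (R : VR) : ℕ :=
  Nat.mod (Nat.land (v1481 R) (v877 R)) (VR.m1 R)

noncomputable def s1482 (R : VR) (i : ℕ) : Bool :=
  tf (VR.realT R) (s1480 R i)

theorem e1482 (R : VR) : B (VR.S R) (v1482 R) (s1482 R) :=
  B.gat (e1480 R) (VR.real_is R) (VR.real_lt R)

noncomputable def v1483 (R : VR) : ℕ :=
  Nat.land (Nat.land (Nat.mod (Nat.land (v1474 R) (v877 R)) (VR.m1 R)) (Nat.mod (Nat.land (v1477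
    R) (v877 R)) (VR.m1 R))) (Nat.mod (Nat.land (v1481 R) (v877 R)) (VR.m1 R))

noncomputable def s1483 (R : VR) (i : ℕ) : Bool :=
  K.band (s1479 R i) (s1482 R i)

theorem e1483 (R : VR) : B (VR.S R) (v1483 R) (s1483 R) :=
  B.and (e1479 R) (e1482 R)

noncomputable def s1484 (R : VR) (i : ℕ) : Bool :=
  K.sld (VR.P R) (s1472 R i)

theorem e1484 (R : VR) : B (VR.S R) (v1483 R) (s1484 R) :=
  e1483 R

noncomputable def v1485 (R : VR) : ℕ :=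
  Nat.mod (Nat.land (v1474 R) (v9 R)) (VR.m1 R)

noncomputable def s1485 (R : VR) (i : ℕ) : ℕ :=
  tx (VR.lT R) (s1472 R i)

theorem e1485 (R : VR) : L (VR.S R) (v1485 R) (s1485 R) 29 :=
  L.gat (e1472 R) (VR.l_is R) (VR.l_lt R) (VR.l_le R)

noncomputable def v1486 (R : VR) : ℕ :=
  Nat.shiftRight (Nat.land (Nat.sub (Nat.add (v1485 R) (VR.h1 R)) (v869 R)) (VR.h1 R)) (nat_lit
    15)

noncomputable def s1486 (R : VR) (i : ℕ) : Bool :=
  Nat.ble (s869 R i) (s1485 R i)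

theorem e1486 (R : VR) : B (VR.S R) (v1486 R) (s1486 R) :=
  L.ble (VR.h1e R) (e869 R) (e1485 R)

noncomputable def v1487 (R : VR) : ℕ :=
  Nat.mod (Nat.land (v1477 R) (v9 R)) (VR.m1 R)

noncomputable def s1487 (R : VR) (i : ℕ) : ℕ :=
  tx (VR.lT R) (s1476 R i)

theorem e1487 (R : VR) : L (VR.S R) (v1487 R) (s1487 R) 29 :=
  L.gat (e1476 R) (VR.l_is R) (VR.l_lt R) (VR.l_le R)

noncomputable def v1488 (R : VR) : ℕ :=
  Nat.shiftRight (Nat.land (Nat.sub (Nat.add (v1487 R) (VR.h1 R)) (v869 R)) (VR.h1 R)) (nat_lit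
    15)

noncomputable def s1488 (R : VR) (i : ℕ) : Bool :=
  Nat.ble (s869 R i) (s1487 R i)

theorem e1488 (R : VR) : B (VR.S R) (v1488 R) (s1488 R) :=
  L.ble (VR.h1e R) (e869 R) (e1487 R)

noncomputable def v1489 (R : VR) : ℕ :=
  Nat.mod (Nat.land (v1481 R) (v9 R)) (VR.m1 R)

noncomputable def s1489 (R : VR) (i : ℕ) : ℕ :=
  tx (VR.lT R) (s1480 R i)

theorem e1489 (R : VR) : L (VR.S R) (v1489 R) (s1489 R) 29 :=
  L.gat (e1480 R) (VR.l_is R) (VR.l_lt R) (VR.l_le R)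

noncomputable def v1490 (R : VR) : ℕ :=
  Nat.xor (v1489 R) (Nat.land (Nat.xor (v1489 R) (v1487 R)) (Nat.mul (Nat.shiftRight (Nat.land
    (Nat.sub (Nat.add (v1487 R) (VR.h1 R)) (v869 R)) (VR.h1 R)) (nat_lit 15)) (nat_lit 32767)))

noncomputable def s1490 (R : VR) (i : ℕ) : ℕ :=
  Bool.rec (motive := fun _ => ℕ) (s1489 R i) (s1487 R i) (s1488 R i)

theorem e1490 (R : VR) : L (VR.S R) (v1490 R) (s1490 R) 29 :=
  L.sel (e1488 R) (e1487 R) (e1489 R) (by decide) (by decide) (by decide)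

noncomputable def v1491 (R : VR) : ℕ :=
  Nat.xor (v1490 R) (Nat.land (Nat.xor (v1490 R) (v1485 R)) (Nat.mul (Nat.shiftRight (Nat.land
    (Nat.sub (Nat.add (v1485 R) (VR.h1 R)) (v869 R)) (VR.h1 R)) (nat_lit 15)) (nat_lit 32767)))

noncomputable def s1491 (R : VR) (i : ℕ) : ℕ :=
  Bool.rec (motive := fun _ => ℕ) (s1490 R i) (s1485 R i) (s1486 R i)

theorem e1491 (R : VR) : L (VR.S R) (v1491 R) (s1491 R) 29 :=
  L.sel (e1486 R) (e1485 R) (e1490 R) (by decide) (by decide) (by decide)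

noncomputable def s1492 (R : VR) (i : ℕ) : ℕ :=
  K.WF_hb (VR.WF R) (s1472 R i)

theorem e1492 (R : VR) : L (VR.S R) (v1491 R) (s1492 R) 29 :=
  e1491 R

noncomputable def v1493 (R : VR) : ℕ :=
  Nat.shiftRight (Nat.land (Nat.sub (Nat.add (v1491 R) (VR.h1 R)) (v869 R)) (VR.h1 R)) (nat_lit
    15)

noncomputable def s1493 (R : VR) (i : ℕ) : Bool :=
  Nat.ble (s869 R i) (s1492 R i)

theorem e1493 (R : VR) : B (VR.S R) (v1493 R) (s1493 R) :=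
  L.ble (VR.h1e R) (e869 R) (e1492 R)

noncomputable def v1494 (R : VR) : ℕ :=
  Nat.shiftRight (Nat.land (Nat.sub (Nat.add (v1333 R) (VR.k1 R)) (v1491 R)) (VR.h1 R)) (nat_lit
    15)

noncomputable def s1494 (R : VR) (i : ℕ) : Bool :=
  Nat.ble (Nat.succ (s1492 R i)) (s1333 R i)

theorem e1494 (R : VR) : B (VR.S R) (v1494 R) (s1494 R) :=
  L.blt (VR.h1e R) (VR.k1e R) (e1492 R) (e1333 R)

noncomputable def v1495 (R : VR) : ℕ :=
  Nat.land (Nat.shiftRight (Nat.land (Nat.sub (Nat.add (v1491 R) (VR.h1 R)) (v869 R)) (VR.h1 R))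
    (nat_lit 15)) (Nat.shiftRight (Nat.land (Nat.sub (Nat.add (v1333 R) (VR.k1 R)) (v1491 R))
    (VR.h1 R)) (nat_lit 15))

noncomputable def s1495 (R : VR) (i : ℕ) : Bool :=
  K.band (s1493 R i) (s1494 R i)

theorem e1495 (R : VR) : B (VR.S R) (v1495 R) (s1495 R) :=
  B.and (e1493 R) (e1494 R)

noncomputable def v1496 (R : VR) : ℕ :=
  Nat.mul (v1491 R) (VR.cr1 R)

noncomputable def s1496 (R : VR) (j i : ℕ) : ℕ :=
  (s1492 R i)

theorem e1496 (R : VR) : L2 R (v1496 R) (s1496 R) 29 :=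
  L2.rep (e1492 R)

noncomputable def v1497 (R : VR) : ℕ :=
  Nat.shiftRight (Nat.land (Nat.sub (VR.h2 R) (Nat.xor (v528 R) (v1496 R))) (VR.h2 R)) (nat_lit
    15)

noncomputable def s1497 (R : VR) (j i : ℕ) : Bool :=
  Nat.beq (s528 R j i) (s1496 R j i)

theorem e1497 (R : VR) : B2 R (v1497 R) (s1497 R) :=
  L.beq (VR.h2e R) (e528 R) (e1496 R)

noncomputable def v1498 (R : VR) : ℕ :=
  Nat.sub (VR.o2 R) (v1497 R)

noncomputable def s1498 (R : VR) (j i : ℕ) : Bool :=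
  K.bnot (s1497 R j i)

theorem e1498 (R : VR) : B2 R (v1498 R) (s1498 R) :=
  B.not (VR.o2e R) (e1497 R)

noncomputable def v1499 (R : VR) : ℕ :=
  gmk (VR.h2 R) (VR.J R) (Nat.mul (v1491 R) (VR.cr1 R))

noncomputable def v1500 (R : VR) : ℕ :=
  Nat.mod (Nat.land (v1499 R) (v223 R)) (VR.m1 R)

noncomputable def s1500 (R : VR) (i : ℕ) : Bool :=
  tf (VR.cxT R) (s1492 R i)

theorem e1500 (R : VR) : B (VR.S R) (v1500 R) (s1500 R) :=
  B.gat (e1492 R) (VR.cx_is R) (VR.cx_lt R)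

noncomputable def v1501 (R : VR) : ℕ :=
  Nat.mul (Nat.mod (Nat.land (v1499 R) (v223 R)) (VR.m1 R)) (VR.cr1 R)

noncomputable def s1501 (R : VR) (j i : ℕ) : Bool :=
  (s1500 R i)

theorem e1501 (R : VR) : B2 R (v1501 R) (s1501 R) :=
  B2.rep (e1500 R)

noncomputable def v1502 (R : VR) : ℕ :=
  Nat.lor (v940 R) (Nat.mul (Nat.mod (Nat.land (v1499 R) (v223 R)) (VR.m1 R)) (VR.cr1 R))

noncomputable def s1502 (R : VR) (j i : ℕ) : Bool :=
  K.bor (s940 R j i) (s1501 R j i)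

theorem e1502 (R : VR) : B2 R (v1502 R) (s1502 R) :=
  B.or (e940 R) (e1501 R)

noncomputable def v1503 (R : VR) : ℕ :=
  Nat.shiftRight (Nat.land (Nat.sub (Nat.add (v869 R) (VR.k1 R)) (v1491 R)) (VR.h1 R)) (nat_lit
    15)

noncomputable def s1503 (R : VR) (i : ℕ) : Bool :=
  Nat.ble (Nat.succ (s1492 R i)) (s869 R i)

theorem e1503 (R : VR) : B (VR.S R) (v1503 R) (s1503 R) :=
  L.blt (VR.h1e R) (VR.k1e R) (e1492 R) (e869 R)

noncomputable def v1504 (R : VR) : ℕ :=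
  Nat.mul (Nat.shiftRight (Nat.land (Nat.sub (Nat.add (v869 R) (VR.k1 R)) (v1491 R)) (VR.h1 R))
    (nat_lit 15)) (VR.cr1 R)

noncomputable def s1504 (R : VR) (j i : ℕ) : Bool :=
  (s1503 R i)

theorem e1504 (R : VR) : B2 R (v1504 R) (s1504 R) :=
  B2.rep (e1503 R)

noncomputable def v1505 (R : VR) : ℕ :=
  Nat.sub (VR.o2 R) (Nat.xor (v943 R) (Nat.mul (Nat.shiftRight (Nat.land (Nat.sub (Nat.add (v869
    R) (VR.k1 R)) (v1491 R)) (VR.h1 R)) (nat_lit 15)) (VR.cr1 R)))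

noncomputable def s1505 (R : VR) (j i : ℕ) : Bool :=
  K.beqB (s943 R j i) (s1504 R j i)

theorem e1505 (R : VR) : B2 R (v1505 R) (s1505 R) :=
  B.beqB (VR.o2e R) (e943 R) (e1504 R)

noncomputable def v1506 (R : VR) : ℕ :=
  Nat.sub (VR.o2 R) (Nat.sub (VR.o2 R) (Nat.xor (v943 R) (Nat.mul (Nat.shiftRight (Nat.land
    (Nat.sub (Nat.add (v869 R) (VR.k1 R)) (v1491 R)) (VR.h1 R)) (nat_lit 15)) (VR.cr1 R))))

noncomputable def s1506 (R : VR) (j i : ℕ) : Bool :=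
  K.bnot (s1505 R j i)

theorem e1506 (R : VR) : B2 R (v1506 R) (s1506 R) :=
  B.not (VR.o2e R) (e1505 R)

noncomputable def v1507 (R : VR) : ℕ :=
  Nat.lor (Nat.lor (v940 R) (Nat.mul (Nat.mod (Nat.land (v1499 R) (v223 R)) (VR.m1 R)) (VR.cr1
    R))) (Nat.sub (VR.o2 R) (Nat.sub (VR.o2 R) (Nat.xor (v943 R) (Nat.mul (Nat.shiftRight
    (Nat.land (Nat.sub (Nat.add (v869 R) (VR.k1 R)) (v1491 R)) (VR.h1 R)) (nat_lit 15)) (VR.cr1
    R)))))

noncomputable def s1507 (R : VR) (j i : ℕ) : Bool :=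
  K.bor (s1502 R j i) (s1506 R j i)

theorem e1507 (R : VR) : B2 R (v1507 R) (s1507 R) :=
  B.or (e1502 R) (e1506 R)

noncomputable def v1508 (R : VR) : ℕ :=
  Nat.mod (Nat.land (v1499 R) (v21 R)) (VR.m1 R)

noncomputable def s1508 (R : VR) (i : ℕ) : ℕ :=
  tx (VR.pw1T R) (s1492 R i)

theorem e1508 (R : VR) : L (VR.S R) (v1508 R) (s1508 R) 16384 :=
  L.gat (e1492 R) (VR.pw1_is R) (VR.pw1_lt R) (VR.pw1_le R)

noncomputable def v1509 (R : VR) : ℕ :=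
  Nat.mul (Nat.mod (Nat.land (v1499 R) (v21 R)) (VR.m1 R)) (VR.cr1 R)

noncomputable def s1509 (R : VR) (j i : ℕ) : ℕ :=
  (s1508 R i)

theorem e1509 (R : VR) : L2 R (v1509 R) (s1509 R) 16384 :=
  L2.rep (e1508 R)

noncomputable def v1510 (R : VR) : ℕ :=
  Nat.land (v1349 R) (v1509 R)

noncomputable def s1510 (R : VR) (j i : ℕ) : ℕ :=
  Nat.land (s1349 R j i) (s1509 R j i)

theorem e1510 (R : VR) : L2 R (v1510 R) (s1510 R) 32767 :=
  L.land (e1349 R) (e1509 R)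

noncomputable def v1511 (R : VR) : ℕ :=
  Nat.shiftRight (Nat.land (Nat.sub (VR.h2 R) (v1510 R)) (VR.h2 R)) (nat_lit 15)

noncomputable def s1511 (R : VR) (j i : ℕ) : Bool :=
  Nat.beq (s1510 R j i) (nat_lit 0)

theorem e1511 (R : VR) : B2 R (v1511 R) (s1511 R) :=
  L.ez (VR.h2e R) (e1510 R)

noncomputable def v1512 (R : VR) : ℕ :=
  Nat.shiftRight (Nat.land (Nat.add (v1510 R) (VR.k2 R)) (VR.h2 R)) (nat_lit 15)

noncomputable def s1512 (R : VR) (j i : ℕ) : Bool :=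
  K.bnot (Nat.beq (s1510 R j i) (nat_lit 0))

theorem e1512 (R : VR) : B2 R (v1512 R) (s1512 R) :=
  L.nz (VR.h2e R) (VR.k2e R) (e1510 R)

noncomputable def v1513 (R : VR) : ℕ :=
  Nat.mod (Nat.land (v1499 R) (v38 R)) (VR.m1 R)

noncomputable def s1513 (R : VR) (i : ℕ) : ℕ :=
  tx (VR.pw2T R) (s1492 R i)

theorem e1513 (R : VR) : L (VR.S R) (v1513 R) (s1513 R) 16384 :=
  L.gat (e1492 R) (VR.pw2_is R) (VR.pw2_lt R) (VR.pw2_le R)

noncomputable def v1514 (R : VR) : ℕ :=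
  Nat.mul (Nat.mod (Nat.land (v1499 R) (v38 R)) (VR.m1 R)) (VR.cr1 R)

noncomputable def s1514 (R : VR) (j i : ℕ) : ℕ :=
  (s1513 R i)

theorem e1514 (R : VR) : L2 R (v1514 R) (s1514 R) 16384 :=
  L2.rep (e1513 R)

noncomputable def v1515 (R : VR) : ℕ :=
  Nat.land (v1355 R) (v1514 R)

noncomputable def s1515 (R : VR) (j i : ℕ) : ℕ :=
  Nat.land (s1355 R j i) (s1514 R j i)

theorem e1515 (R : VR) : L2 R (v1515 R) (s1515 R) 32767 :=
  L.land (e1355 R) (e1514 R)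

noncomputable def v1516 (R : VR) : ℕ :=
  Nat.shiftRight (Nat.land (Nat.sub (VR.h2 R) (v1515 R)) (VR.h2 R)) (nat_lit 15)

noncomputable def s1516 (R : VR) (j i : ℕ) : Bool :=
  Nat.beq (s1515 R j i) (nat_lit 0)

theorem e1516 (R : VR) : B2 R (v1516 R) (s1516 R) :=
  L.ez (VR.h2e R) (e1515 R)

noncomputable def v1517 (R : VR) : ℕ :=
  Nat.shiftRight (Nat.land (Nat.add (v1515 R) (VR.k2 R)) (VR.h2 R)) (nat_lit 15)

noncomputable def s1517 (R : VR) (j i : ℕ) : Bool :=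
  K.bnot (Nat.beq (s1515 R j i) (nat_lit 0))

theorem e1517 (R : VR) : B2 R (v1517 R) (s1517 R) :=
  L.nz (VR.h2e R) (VR.k2e R) (e1515 R)

noncomputable def v1518 (R : VR) : ℕ :=
  Nat.lor (Nat.shiftRight (Nat.land (Nat.add (v1510 R) (VR.k2 R)) (VR.h2 R)) (nat_lit 15))
    (Nat.shiftRight (Nat.land (Nat.add (v1515 R) (VR.k2 R)) (VR.h2 R)) (nat_lit 15))

noncomputable def s1518 (R : VR) (j i : ℕ) : Bool :=
  K.bor (s1512 R j i) (s1517 R j i)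

theorem e1518 (R : VR) : B2 R (v1518 R) (s1518 R) :=
  B.or (e1512 R) (e1517 R)

noncomputable def s1519 (R : VR) (j i : ℕ) : Bool :=
  V2.mk R (s947 R j) (s948 R j) (s1492 R i)

theorem e1519 (R : VR) : B2 R (v1518 R) (s1519 R) :=
  e1518 R

noncomputable def v1520 (R : VR) : ℕ :=
  Nat.lor (Nat.lor (Nat.lor (v940 R) (Nat.mul (Nat.mod (Nat.land (v1499 R) (v223 R)) (VR.m1 R))
    (VR.cr1 R))) (Nat.sub (VR.o2 R) (Nat.sub (VR.o2 R) (Nat.xor (v943 R) (Nat.mul (Nat.shiftRight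
    (Nat.land (Nat.sub (Nat.add (v869 R) (VR.k1 R)) (v1491 R)) (VR.h1 R)) (nat_lit 15)) (VR.cr1
    R)))))) (Nat.lor (Nat.shiftRight (Nat.land (Nat.add (v1510 R) (VR.k2 R)) (VR.h2 R)) (nat_lit
    15)) (Nat.shiftRight (Nat.land (Nat.add (v1515 R) (VR.k2 R)) (VR.h2 R)) (nat_lit 15)))

noncomputable def s1520 (R : VR) (j i : ℕ) : Bool :=
  K.bor (s1507 R j i) (s1519 R j i)

theorem e1520 (R : VR) : B2 R (v1520 R) (s1520 R) :=
  B.or (e1507 R) (e1519 R)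

noncomputable def v1521 (R : VR) : ℕ :=
  Nat.land (Nat.sub (VR.o2 R) (v1497 R)) (v1520 R)

noncomputable def s1521 (R : VR) (j i : ℕ) : Bool :=
  K.band (s1498 R j i) (s1520 R j i)

theorem e1521 (R : VR) : B2 R (v1521 R) (s1521 R) :=
  B.and (e1498 R) (e1520 R)

noncomputable def s1522 (R : VR) (j i : ℕ) : Bool :=
  V2.dis R j (s1492 R i)

theorem e1522 (R : VR) : B2 R (v1521 R) (s1522 R) :=
  e1521 R

noncomputable def s1523 (R : VR) (j i : ℕ) : Bool :=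
  K.WF_dis (VR.WF R) j (s1492 R i)

theorem e1523 (R : VR) : B2 R (v1521 R) (s1523 R) :=
  B.of_eq (e1522 R) (fun t ht => V2.dis_eq R (t / VR.S R) (s1492 R (t % VR.S R)))

noncomputable def v1524 (R : VR) : ℕ :=
  Nat.lor (v1497 R) (Nat.land (Nat.sub (VR.o2 R) (v1497 R)) (v1520 R))

noncomputable def s1524 (R : VR) (j i : ℕ) : Bool :=
  K.bor (s1497 R j i) (s1523 R j i)

theorem e1524 (R : VR) : B2 R (v1524 R) (s1524 R) :=
  B.or (e1497 R) (e1523 R)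

noncomputable def v1525 (R : VR) : ℕ :=
  Nat.shiftRight (Nat.land (Nat.sub (VR.h1 R) (Nat.mod (Nat.land (Nat.sub (VR.o2 R) (Nat.lor
    (v1497 R) (Nat.land (Nat.sub (VR.o2 R) (v1497 R)) (v1520 R)))) (mM (Nat.mul (v866 R) (VR.S
    R)))) (VR.m1 R))) (VR.h1 R)) (nat_lit 15)

noncomputable def s1525 (R : VR) (i : ℕ) : Bool :=
  K.allN (s866 R) (fun j => (s1524 R j i))

theorem e1525 (R : VR) : B (VR.S R) (v1525 R) (s1525 R) :=
  B.all (e1524 R) (VR.nl_le R)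

noncomputable def s1526 (R : VR) (i : ℕ) : Bool :=
  K.allN (s866 R) (fun (x57 : ℕ) => (K.bor (Nat.beq x57 (s1492 R i)) (K.WF_dis (VR.WF R) x57
    (s1492 R i))))

theorem e1526 (R : VR) : B (VR.S R) (v1525 R) (s1526 R) :=
  e1525 R

noncomputable def v1527 (R : VR) : ℕ :=
  Nat.land (Nat.land (Nat.shiftRight (Nat.land (Nat.sub (Nat.add (v1491 R) (VR.h1 R)) (v869 R))
    (VR.h1 R)) (nat_lit 15)) (Nat.shiftRight (Nat.land (Nat.sub (Nat.add (v1333 R) (VR.k1 R))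
    (v1491 R)) (VR.h1 R)) (nat_lit 15))) (Nat.shiftRight (Nat.land (Nat.sub (VR.h1 R) (Nat.mod
    (Nat.land (Nat.sub (VR.o2 R) (Nat.lor (v1497 R) (Nat.land (Nat.sub (VR.o2 R) (v1497 R)) (v1520
    R)))) (mM (Nat.mul (v866 R) (VR.S R)))) (VR.m1 R))) (VR.h1 R)) (nat_lit 15))

noncomputable def s1527 (R : VR) (i : ℕ) : Bool :=
  K.band (s1495 R i) (s1526 R i)

theorem e1527 (R : VR) : B (VR.S R) (v1527 R) (s1527 R) :=
  B.and (e1495 R) (e1526 R)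

noncomputable def s1528 (R : VR) (i : ℕ) : Bool :=
  K.WF_hub (VR.WF R) (s1492 R i)

theorem e1528 (R : VR) : B (VR.S R) (v1527 R) (s1528 R) :=
  e1527 R

noncomputable def v1529 (R : VR) : ℕ :=
  Nat.shiftRight (Nat.land (Nat.sub (VR.h1 R) (Nat.xor (v1485 R) (v1491 R))) (VR.h1 R)) (nat_lit
    15)

noncomputable def s1529 (R : VR) (i : ℕ) : Bool :=
  Nat.beq (s1485 R i) (s1492 R i)

theorem e1529 (R : VR) : B (VR.S R) (v1529 R) (s1529 R) :=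
  L.beq (VR.h1e R) (e1485 R) (e1492 R)

noncomputable def v1530 (R : VR) : ℕ :=
  Nat.shiftRight (Nat.land (Nat.sub (VR.h1 R) (Nat.xor (v1487 R) (v1491 R))) (VR.h1 R)) (nat_lit
    15)

noncomputable def s1530 (R : VR) (i : ℕ) : Bool :=
  Nat.beq (s1487 R i) (s1492 R i)

theorem e1530 (R : VR) : B (VR.S R) (v1530 R) (s1530 R) :=
  L.beq (VR.h1e R) (e1487 R) (e1492 R)

noncomputable def v1531 (R : VR) : ℕ :=
  Nat.lor (Nat.shiftRight (Nat.land (Nat.sub (VR.h1 R) (Nat.xor (v1485 R) (v1491 R))) (VR.h1 R))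
    (nat_lit 15)) (Nat.shiftRight (Nat.land (Nat.sub (VR.h1 R) (Nat.xor (v1487 R) (v1491 R)))
    (VR.h1 R)) (nat_lit 15))

noncomputable def s1531 (R : VR) (i : ℕ) : Bool :=
  K.bor (s1529 R i) (s1530 R i)

theorem e1531 (R : VR) : B (VR.S R) (v1531 R) (s1531 R) :=
  B.or (e1529 R) (e1530 R)

noncomputable def v1532 (R : VR) : ℕ :=
  Nat.shiftRight (Nat.land (Nat.sub (VR.h1 R) (Nat.xor (v1489 R) (v1491 R))) (VR.h1 R)) (nat_lit
    15)

noncomputable def s1532 (R : VR) (i : ℕ) : Bool :=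
  Nat.beq (s1489 R i) (s1492 R i)

theorem e1532 (R : VR) : B (VR.S R) (v1532 R) (s1532 R) :=
  L.beq (VR.h1e R) (e1489 R) (e1492 R)

noncomputable def v1533 (R : VR) : ℕ :=
  Nat.lor (Nat.lor (Nat.shiftRight (Nat.land (Nat.sub (VR.h1 R) (Nat.xor (v1485 R) (v1491 R)))
    (VR.h1 R)) (nat_lit 15)) (Nat.shiftRight (Nat.land (Nat.sub (VR.h1 R) (Nat.xor (v1487 R)
    (v1491 R))) (VR.h1 R)) (nat_lit 15))) (Nat.shiftRight (Nat.land (Nat.sub (VR.h1 R) (Nat.xor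
    (v1489 R) (v1491 R))) (VR.h1 R)) (nat_lit 15))

noncomputable def s1533 (R : VR) (i : ℕ) : Bool :=
  K.bor (s1531 R i) (s1532 R i)

theorem e1533 (R : VR) : B (VR.S R) (v1533 R) (s1533 R) :=
  B.or (e1531 R) (e1532 R)

noncomputable def s1534 (R : VR) (i : ℕ) : Bool :=
  K.inb (VR.P R) (s1492 R i) (s1472 R i)

theorem e1534 (R : VR) : B (VR.S R) (v1533 R) (s1534 R) :=
  e1533 R

noncomputable def v1535 (R : VR) : ℕ :=
  Nat.land (v1527 R) (Nat.lor (Nat.lor (Nat.shiftRight (Nat.land (Nat.sub (VR.h1 R) (Nat.xor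
    (v1485 R) (v1491 R))) (VR.h1 R)) (nat_lit 15)) (Nat.shiftRight (Nat.land (Nat.sub (VR.h1 R)
    (Nat.xor (v1487 R) (v1491 R))) (VR.h1 R)) (nat_lit 15))) (Nat.shiftRight (Nat.land (Nat.sub
    (VR.h1 R) (Nat.xor (v1489 R) (v1491 R))) (VR.h1 R)) (nat_lit 15)))

noncomputable def s1535 (R : VR) (i : ℕ) : Bool :=
  K.band (s1528 R i) (s1534 R i)

theorem e1535 (R : VR) : B (VR.S R) (v1535 R) (s1535 R) :=
  B.and (e1528 R) (e1534 R)

noncomputable def v1536 (R : VR) : ℕ :=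
  Nat.lor (v1483 R) (Nat.land (v1527 R) (Nat.lor (Nat.lor (Nat.shiftRight (Nat.land (Nat.sub
    (VR.h1 R) (Nat.xor (v1485 R) (v1491 R))) (VR.h1 R)) (nat_lit 15)) (Nat.shiftRight (Nat.land
    (Nat.sub (VR.h1 R) (Nat.xor (v1487 R) (v1491 R))) (VR.h1 R)) (nat_lit 15))) (Nat.shiftRight
    (Nat.land (Nat.sub (VR.h1 R) (Nat.xor (v1489 R) (v1491 R))) (VR.h1 R)) (nat_lit 15))))

noncomputable def s1536 (R : VR) (i : ℕ) : Bool :=
  K.bor (s1484 R i) (s1535 R i)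

theorem e1536 (R : VR) : B (VR.S R) (v1536 R) (s1536 R) :=
  B.or (e1484 R) (e1535 R)

noncomputable def v1537 (R : VR) : ℕ :=
  Nat.land (v1473 R) (Nat.lor (v1483 R) (Nat.land (v1527 R) (Nat.lor (Nat.lor (Nat.shiftRight
    (Nat.land (Nat.sub (VR.h1 R) (Nat.xor (v1485 R) (v1491 R))) (VR.h1 R)) (nat_lit 15))
    (Nat.shiftRight (Nat.land (Nat.sub (VR.h1 R) (Nat.xor (v1487 R) (v1491 R))) (VR.h1 R))
    (nat_lit 15))) (Nat.shiftRight (Nat.land (Nat.sub (VR.h1 R) (Nat.xor (v1489 R) (v1491 R)))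
    (VR.h1 R)) (nat_lit 15)))))

noncomputable def s1537 (R : VR) (i : ℕ) : Bool :=
  K.band (s1473 R i) (s1536 R i)

theorem e1537 (R : VR) : B (VR.S R) (v1537 R) (s1537 R) :=
  B.and (e1473 R) (e1536 R)

noncomputable def v1538 (R : VR) : ℕ :=
  Nat.mul (VR.tjT R) (VR.cr1 R)

noncomputable def s1538 (R : VR) (j i : ℕ) : ℕ :=
  (s1472 R i)

theorem e1538 (R : VR) : L2 R (v1538 R) (s1538 R) 255 :=
  L2.rep (e1472 R)

noncomputable def v1539 (R : VR) : ℕ :=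
  Nat.shiftRight (Nat.land (Nat.sub (VR.h2 R) (Nat.xor (v528 R) (Nat.mul (VR.tjT R) (VR.cr1 R))))
    (VR.h2 R)) (nat_lit 15)

noncomputable def s1539 (R : VR) (j i : ℕ) : Bool :=
  Nat.beq (s528 R j i) (s1538 R j i)

theorem e1539 (R : VR) : B2 R (v1539 R) (s1539 R) :=
  L.beq (VR.h2e R) (e528 R) (e1538 R)

noncomputable def v1540 (R : VR) : ℕ :=
  Nat.mul (v1476 R) (VR.cr1 R)

noncomputable def s1540 (R : VR) (j i : ℕ) : ℕ :=
  (s1476 R i)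

theorem e1540 (R : VR) : L2 R (v1540 R) (s1540 R) 255 :=
  L2.rep (e1476 R)

noncomputable def v1541 (R : VR) : ℕ :=
  Nat.shiftRight (Nat.land (Nat.sub (VR.h2 R) (Nat.xor (v528 R) (Nat.mul (v1476 R) (VR.cr1 R))))
    (VR.h2 R)) (nat_lit 15)

noncomputable def s1541 (R : VR) (j i : ℕ) : Bool :=
  Nat.beq (s528 R j i) (s1540 R j i)

theorem e1541 (R : VR) : B2 R (v1541 R) (s1541 R) :=
  L.beq (VR.h2e R) (e528 R) (e1540 R)

noncomputable def v1542 (R : VR) : ℕ :=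
  Nat.lor (Nat.shiftRight (Nat.land (Nat.sub (VR.h2 R) (Nat.xor (v528 R) (Nat.mul (VR.tjT R)
    (VR.cr1 R)))) (VR.h2 R)) (nat_lit 15)) (Nat.shiftRight (Nat.land (Nat.sub (VR.h2 R) (Nat.xor
    (v528 R) (Nat.mul (v1476 R) (VR.cr1 R)))) (VR.h2 R)) (nat_lit 15))

noncomputable def s1542 (R : VR) (j i : ℕ) : Bool :=
  K.bor (s1539 R j i) (s1541 R j i)

theorem e1542 (R : VR) : B2 R (v1542 R) (s1542 R) :=
  B.or (e1539 R) (e1541 R)

noncomputable def v1543 (R : VR) : ℕ :=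
  Nat.mul (v1480 R) (VR.cr1 R)

noncomputable def s1543 (R : VR) (j i : ℕ) : ℕ :=
  (s1480 R i)

theorem e1543 (R : VR) : L2 R (v1543 R) (s1543 R) 255 :=
  L2.rep (e1480 R)

noncomputable def v1544 (R : VR) : ℕ :=
  Nat.shiftRight (Nat.land (Nat.sub (VR.h2 R) (Nat.xor (v528 R) (Nat.mul (v1480 R) (VR.cr1 R))))
    (VR.h2 R)) (nat_lit 15)

noncomputable def s1544 (R : VR) (j i : ℕ) : Bool :=
  Nat.beq (s528 R j i) (s1543 R j i)

theorem e1544 (R : VR) : B2 R (v1544 R) (s1544 R) :=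
  L.beq (VR.h2e R) (e528 R) (e1543 R)

noncomputable def v1545 (R : VR) : ℕ :=
  Nat.lor (Nat.lor (Nat.shiftRight (Nat.land (Nat.sub (VR.h2 R) (Nat.xor (v528 R) (Nat.mul (VR.tjT
    R) (VR.cr1 R)))) (VR.h2 R)) (nat_lit 15)) (Nat.shiftRight (Nat.land (Nat.sub (VR.h2 R)
    (Nat.xor (v528 R) (Nat.mul (v1476 R) (VR.cr1 R)))) (VR.h2 R)) (nat_lit 15))) (Nat.shiftRight
    (Nat.land (Nat.sub (VR.h2 R) (Nat.xor (v528 R) (Nat.mul (v1480 R) (VR.cr1 R)))) (VR.h2 R))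
    (nat_lit 15))

noncomputable def s1545 (R : VR) (j i : ℕ) : Bool :=
  K.bor (s1542 R j i) (s1544 R j i)

theorem e1545 (R : VR) : B2 R (v1545 R) (s1545 R) :=
  B.or (e1542 R) (e1544 R)

noncomputable def v1546 (R : VR) : ℕ :=
  Nat.shiftRight (Nat.land (Nat.sub (VR.h2 R) (Nat.xor (v1137 R) (v1496 R))) (VR.h2 R)) (nat_lit
    15)

noncomputable def s1546 (R : VR) (j i : ℕ) : Bool :=
  Nat.beq (s1137 R j i) (s1496 R j i)

theorem e1546 (R : VR) : B2 R (v1546 R) (s1546 R) :=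
  L.beq (VR.h2e R) (e1137 R) (e1496 R)

noncomputable def v1547 (R : VR) : ℕ :=
  Nat.shiftRight (Nat.land (Nat.sub (VR.h2 R) (Nat.xor (v1178 R) (v1496 R))) (VR.h2 R)) (nat_lit
    15)

noncomputable def s1547 (R : VR) (j i : ℕ) : Bool :=
  Nat.beq (s1178 R j i) (s1496 R j i)

theorem e1547 (R : VR) : B2 R (v1547 R) (s1547 R) :=
  L.beq (VR.h2e R) (e1178 R) (e1496 R)

noncomputable def v1548 (R : VR) : ℕ :=
  Nat.lor (Nat.shiftRight (Nat.land (Nat.sub (VR.h2 R) (Nat.xor (v1137 R) (v1496 R))) (VR.h2 R))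
    (nat_lit 15)) (Nat.shiftRight (Nat.land (Nat.sub (VR.h2 R) (Nat.xor (v1178 R) (v1496 R)))
    (VR.h2 R)) (nat_lit 15))

noncomputable def s1548 (R : VR) (j i : ℕ) : Bool :=
  K.bor (s1546 R j i) (s1547 R j i)

theorem e1548 (R : VR) : B2 R (v1548 R) (s1548 R) :=
  B.or (e1546 R) (e1547 R)

noncomputable def v1549 (R : VR) : ℕ :=
  Nat.mod (Nat.land (v180 R) (v9 R)) (VR.m1 R)

noncomputable def s1549 (R : VR) (i : ℕ) : ℕ :=
  tx (VR.lT R) (s179 R i)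

theorem e1549 (R : VR) : L (VR.S R) (v1549 R) (s1549 R) 29 :=
  L.gat (e179 R) (VR.l_is R) (VR.l_lt R) (VR.l_le R)

noncomputable def v1550 (R : VR) : ℕ :=
  srM (VR.N R) (VR.S R) (VR.o1 R) (v1549 R)

noncomputable def s1550 (R : VR) (j i : ℕ) : ℕ :=
  (s1549 R j)

theorem e1550 (R : VR) : L2 R (v1550 R) (s1550 R) 29 :=
  L2.row (e1549 R)

noncomputable def v1551 (R : VR) : ℕ :=
  Nat.shiftRight (Nat.land (Nat.sub (VR.h2 R) (Nat.xor (v1550 R) (v1496 R))) (VR.h2 R)) (nat_lit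
    15)

noncomputable def s1551 (R : VR) (j i : ℕ) : Bool :=
  Nat.beq (s1550 R j i) (s1496 R j i)

theorem e1551 (R : VR) : B2 R (v1551 R) (s1551 R) :=
  L.beq (VR.h2e R) (e1550 R) (e1496 R)

noncomputable def v1552 (R : VR) : ℕ :=
  Nat.lor (Nat.lor (Nat.shiftRight (Nat.land (Nat.sub (VR.h2 R) (Nat.xor (v1137 R) (v1496 R)))
    (VR.h2 R)) (nat_lit 15)) (Nat.shiftRight (Nat.land (Nat.sub (VR.h2 R) (Nat.xor (v1178 R)
    (v1496 R))) (VR.h2 R)) (nat_lit 15))) (Nat.shiftRight (Nat.land (Nat.sub (VR.h2 R) (Nat.xor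
    (v1550 R) (v1496 R))) (VR.h2 R)) (nat_lit 15))

noncomputable def s1552 (R : VR) (j i : ℕ) : Bool :=
  K.bor (s1548 R j i) (s1551 R j i)

theorem e1552 (R : VR) : B2 R (v1552 R) (s1552 R) :=
  B.or (e1548 R) (e1551 R)

noncomputable def s1553 (R : VR) (j i : ℕ) : Bool :=
  K.inb (VR.P R) (s1492 R i) j

theorem e1553 (R : VR) : B2 R (v1552 R) (s1553 R) :=
  e1552 R

noncomputable def v1554 (R : VR) : ℕ :=
  Nat.mul (v1483 R) (VR.cr1 R)

noncomputable def s1554 (R : VR) (j i : ℕ) : Bool :=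
  (s1484 R i)

theorem e1554 (R : VR) : B2 R (v1554 R) (s1554 R) :=
  B2.rep (e1484 R)

noncomputable def v1555 (R : VR) : ℕ :=
  Nat.xor (v1552 R) (Nat.land (Nat.xor (v1552 R) (Nat.lor (Nat.lor (Nat.shiftRight (Nat.land
    (Nat.sub (VR.h2 R) (Nat.xor (v528 R) (Nat.mul (VR.tjT R) (VR.cr1 R)))) (VR.h2 R)) (nat_lit
    15)) (Nat.shiftRight (Nat.land (Nat.sub (VR.h2 R) (Nat.xor (v528 R) (Nat.mul (v1476 R) (VR.cr1
    R)))) (VR.h2 R)) (nat_lit 15))) (Nat.shiftRight (Nat.land (Nat.sub (VR.h2 R) (Nat.xor (v528 R)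
    (Nat.mul (v1480 R) (VR.cr1 R)))) (VR.h2 R)) (nat_lit 15)))) (Nat.mul (v1483 R) (VR.cr1 R)))

noncomputable def s1555 (R : VR) (j i : ℕ) : Bool :=
  Bool.rec (motive := fun _ => Bool) (s1553 R j i) (s1545 R j i) (s1554 R j i)

theorem e1555 (R : VR) : B2 R (v1555 R) (s1555 R) :=
  B.sel (e1554 R) (e1545 R) (e1553 R)

noncomputable def s1556 (R : VR) (j i : ℕ) : Bool :=
  K.ifa (VR.P R) (s1492 R i) (s1472 R i) j

theorem e1556 (R : VR) : B2 R (v1555 R) (s1556 R) :=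
  e1555 R

noncomputable def s1557 (R : VR) (j i : ℕ) : Bool :=
  K.WF_fin (VR.WF R) (s1472 R i) j

theorem e1557 (R : VR) : B2 R (v1555 R) (s1557 R) :=
  e1556 R

noncomputable def v1558 (R : VR) : ℕ :=
  Nat.sub (VR.o2 R) (v1555 R)

noncomputable def s1558 (R : VR) (j i : ℕ) : Bool :=
  K.bnot (s1557 R j i)

theorem e1558 (R : VR) : B2 R (v1558 R) (s1558 R) :=
  B.not (VR.o2e R) (e1557 R)

noncomputable def v1559 (R : VR) : ℕ :=
  Nat.lor (v432 R) (VR.realT R)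

noncomputable def s1559 (R : VR) (i : ℕ) : Bool :=
  K.bor (s432 R i) (s434 R i)

theorem e1559 (R : VR) : B (VR.S R) (v1559 R) (s1559 R) :=
  B.or (e432 R) (e434 R)

noncomputable def v1560 (R : VR) : ℕ :=
  Nat.shiftRight (Nat.land (Nat.sub (VR.h2 R) (Nat.xor (v1419 R) (v12 R))) (VR.h2 R)) (nat_lit 15)

noncomputable def s1560 (R : VR) (j i : ℕ) : Bool :=
  Nat.beq (s1419 R j i) (s12 R j i)

theorem e1560 (R : VR) : B2 R (v1560 R) (s1560 R) :=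
  L.beq (VR.h2e R) (e1419 R) (e12 R)

noncomputable def v1561 (R : VR) : ℕ :=
  srM (VR.N R) (VR.S R) (VR.o1 R) (v1559 R)

noncomputable def s1561 (R : VR) (j i : ℕ) : Bool :=
  (s1559 R j)

theorem e1561 (R : VR) : B2 R (v1561 R) (s1561 R) :=
  B2.row (e1559 R)

noncomputable def v1562 (R : VR) : ℕ :=
  Nat.lor (v1561 R) (v1560 R)

noncomputable def s1562 (R : VR) (j i : ℕ) : Bool :=
  K.bor (s1561 R j i) (s1560 R j i)

theorem e1562 (R : VR) : B2 R (v1562 R) (s1562 R) :=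
  B.or (e1561 R) (e1560 R)

noncomputable def v1563 (R : VR) : ℕ :=
  srM (VR.N R) (VR.S R) (VR.o1 R) (v1410 R)

noncomputable def s1563 (R : VR) (j i : ℕ) : ℕ :=
  (s1410 R j)

theorem e1563 (R : VR) : L2 R (v1563 R) (s1563 R) 14 :=
  L2.row (e1410 R)

noncomputable def v1564 (R : VR) : ℕ :=
  Nat.shiftRight (Nat.land (Nat.sub (VR.h2 R) (Nat.xor (v1563 R) (v12 R))) (VR.h2 R)) (nat_lit 15)

noncomputable def s1564 (R : VR) (j i : ℕ) : Bool :=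
  Nat.beq (s1563 R j i) (s12 R j i)

theorem e1564 (R : VR) : B2 R (v1564 R) (s1564 R) :=
  L.beq (VR.h2e R) (e1563 R) (e12 R)

noncomputable def v1565 (R : VR) : ℕ :=
  srM (VR.N R) (VR.S R) (VR.o1 R) (v1241 R)

noncomputable def s1565 (R : VR) (j i : ℕ) : Bool :=
  (s1241 R j)

theorem e1565 (R : VR) : B2 R (v1565 R) (s1565 R) :=
  B2.row (e1241 R)

noncomputable def v1566 (R : VR) : ℕ :=
  Nat.lor (v1565 R) (Nat.shiftRight (Nat.land (Nat.sub (VR.h2 R) (Nat.xor (v1563 R) (v12 R)))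
    (VR.h2 R)) (nat_lit 15))

noncomputable def s1566 (R : VR) (j i : ℕ) : Bool :=
  K.bor (s1565 R j i) (s1564 R j i)

theorem e1566 (R : VR) : B2 R (v1566 R) (s1566 R) :=
  B.or (e1565 R) (e1564 R)

noncomputable def v1567 (R : VR) : ℕ :=
  Nat.land (Nat.lor (v1561 R) (v1560 R)) (Nat.lor (v1565 R) (Nat.shiftRight (Nat.land (Nat.sub
    (VR.h2 R) (Nat.xor (v1563 R) (v12 R))) (VR.h2 R)) (nat_lit 15)))

noncomputable def s1567 (R : VR) (j i : ℕ) : Bool :=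
  K.band (s1562 R j i) (s1566 R j i)

theorem e1567 (R : VR) : B2 R (v1567 R) (s1567 R) :=
  B.and (e1562 R) (e1566 R)

noncomputable def v1568 (R : VR) : ℕ :=
  Nat.lor (Nat.sub (VR.o2 R) (v1555 R)) (Nat.land (Nat.lor (v1561 R) (v1560 R)) (Nat.lor (v1565 R)
    (Nat.shiftRight (Nat.land (Nat.sub (VR.h2 R) (Nat.xor (v1563 R) (v12 R))) (VR.h2 R)) (nat_lit
    15))))

noncomputable def s1568 (R : VR) (j i : ℕ) : Bool :=
  K.bor (s1558 R j i) (s1567 R j i)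

theorem e1568 (R : VR) : B2 R (v1568 R) (s1568 R) :=
  B.or (e1558 R) (e1567 R)

noncomputable def v1569 (R : VR) : ℕ :=
  Nat.shiftRight (Nat.land (Nat.sub (VR.h1 R) (Nat.mod (Nat.land (Nat.sub (VR.o2 R) (Nat.lor
    (Nat.sub (VR.o2 R) (v1555 R)) (Nat.land (Nat.lor (v1561 R) (v1560 R)) (Nat.lor (v1565 R)
    (Nat.shiftRight (Nat.land (Nat.sub (VR.h2 R) (Nat.xor (v1563 R) (v12 R))) (VR.h2 R)) (nat_lit
    15)))))) (mM (Nat.mul (v112 R) (VR.S R)))) (VR.m1 R))) (VR.h1 R)) (nat_lit 15)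

noncomputable def s1569 (R : VR) (i : ℕ) : Bool :=
  K.allN (s112 R) (fun j => (s1568 R j i))

theorem e1569 (R : VR) : B (VR.S R) (v1569 R) (s1569 R) :=
  B.all (e1568 R) (VR.n_le R)

noncomputable def s1570 (R : VR) (i : ℕ) : Bool :=
  K.allN (s112 R) (fun (x58 : ℕ) => (K.bor (K.bnot (K.WF_fin (VR.WF R) (s1472 R i) x58)) (K.band
    (K.bor (K.bor (K.bnot (Nat.beq (FC6.Pa.α (FC7.Fc.P (FC7.WF.F (VR.WF R))) x58) x58))
    (FC6.Pa.real (FC7.Fc.P (FC7.WF.F (VR.WF R))) x58)) (Nat.beq (FC7.OD.pc (FC7.Fc.O (FC7.WF.F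
    (VR.WF R))) x58) i)) (K.bor (K.bnot (FC7.Fc.uk (FC7.WF.F (VR.WF R)) x58)) (Nat.beq (FC7.OD.pc
    (FC7.Fc.O (FC7.WF.F (VR.WF R))) (FC7.Fc.kp (FC7.WF.F (VR.WF R)) x58)) i)))))

theorem e1570 (R : VR) : B (VR.S R) (v1569 R) (s1570 R) :=
  e1569 R

noncomputable def v1571 (R : VR) : ℕ :=
  Nat.land (Nat.land (v1473 R) (Nat.lor (v1483 R) (Nat.land (v1527 R) (Nat.lor (Nat.lor
    (Nat.shiftRight (Nat.land (Nat.sub (VR.h1 R) (Nat.xor (v1485 R) (v1491 R))) (VR.h1 R))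
    (nat_lit 15)) (Nat.shiftRight (Nat.land (Nat.sub (VR.h1 R) (Nat.xor (v1487 R) (v1491 R)))
    (VR.h1 R)) (nat_lit 15))) (Nat.shiftRight (Nat.land (Nat.sub (VR.h1 R) (Nat.xor (v1489 R)
    (v1491 R))) (VR.h1 R)) (nat_lit 15)))))) (Nat.shiftRight (Nat.land (Nat.sub (VR.h1 R) (Nat.mod
    (Nat.land (Nat.sub (VR.o2 R) (Nat.lor (Nat.sub (VR.o2 R) (v1555 R)) (Nat.land (Nat.lor (v1561
    R) (v1560 R)) (Nat.lor (v1565 R) (Nat.shiftRight (Nat.land (Nat.sub (VR.h2 R) (Nat.xor (v1563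
    R) (v12 R))) (VR.h2 R)) (nat_lit 15)))))) (mM (Nat.mul (v112 R) (VR.S R)))) (VR.m1 R))) (VR.h1
    R)) (nat_lit 15))

noncomputable def s1571 (R : VR) (i : ℕ) : Bool :=
  K.band (s1537 R i) (s1570 R i)

theorem e1571 (R : VR) : B (VR.S R) (v1571 R) (s1571 R) :=
  B.and (e1537 R) (e1570 R)

noncomputable def s1572 (R : VR) (i : ℕ) : Bool :=
  K.WF_one (VR.WF R) i (s1472 R i)

theorem e1572 (R : VR) : B (VR.S R) (v1571 R) (s1572 R) :=
  e1571 R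

noncomputable def v1573 (R : VR) : ℕ :=
  Nat.sub (VR.o1 R) (v1483 R)

noncomputable def s1573 (R : VR) (i : ℕ) : Bool :=
  K.bnot (s1484 R i)

theorem e1573 (R : VR) : B (VR.S R) (v1573 R) (s1573 R) :=
  B.not (VR.o1e R) (e1484 R)

noncomputable def v1574 (R : VR) : ℕ :=
  Nat.land (v1571 R) (Nat.sub (VR.o1 R) (v1483 R))

noncomputable def s1574 (R : VR) (i : ℕ) : Bool :=
  K.band (s1572 R i) (s1573 R i)

theorem e1574 (R : VR) : B (VR.S R) (v1574 R) (s1574 R) :=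
  B.and (e1572 R) (e1573 R)

noncomputable def s1575 (R : VR) (i : ℕ) : ℕ :=
  tx (VR.phpT R) i

theorem e1575 (R : VR) : L (VR.S R) (VR.phpT R) (s1575 R) 255 :=
  VR.php_is R

noncomputable def v1576 (R : VR) : ℕ :=
  gmk (VR.h2 R) (VR.J R) (Nat.mul (VR.phpT R) (VR.cr1 R))

noncomputable def v1577 (R : VR) : ℕ :=
  Nat.mod (Nat.land (v1576 R) (v1409 R)) (VR.m1 R)

noncomputable def s1577 (R : VR) (i : ℕ) : ℕ :=
  tx (VR.cepT R) (s1575 R i)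

theorem e1577 (R : VR) : L (VR.S R) (v1577 R) (s1577 R) 14 :=
  L.gat (e1575 R) (VR.cep_is R) (VR.cep_lt R) (VR.cep_le R)

noncomputable def v1578 (R : VR) : ℕ :=
  Nat.shiftRight (Nat.land (Nat.sub (VR.h1 R) (Nat.xor (Nat.mod (Nat.land (v1576 R) (v1409 R))
    (VR.m1 R)) (VR.cepT R))) (VR.h1 R)) (nat_lit 15)

noncomputable def s1578 (R : VR) (i : ℕ) : Bool :=
  Nat.beq (s1577 R i) (s116 R i)

theorem e1578 (R : VR) : B (VR.S R) (v1578 R) (s1578 R) :=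
  L.beq (VR.h1e R) (e1577 R) (e116 R)

noncomputable def s1579 (R : VR) (i : ℕ) : Bool :=
  tf (VR.realpT R) i

theorem e1579 (R : VR) : B (VR.S R) (VR.realpT R) (s1579 R) :=
  VR.realp_is R

noncomputable def v1580 (R : VR) : ℕ :=
  Nat.lor (v192 R) (VR.realpT R)

noncomputable def s1580 (R : VR) (i : ℕ) : Bool :=
  K.bor (s192 R i) (s1579 R i)

theorem e1580 (R : VR) : B (VR.S R) (v1580 R) (s1580 R) :=
  B.or (e192 R) (e1579 R)

noncomputable def v1581 (R : VR) : ℕ :=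
  Nat.mod (Nat.land (v187 R) (v1409 R)) (VR.m1 R)

noncomputable def s1581 (R : VR) (i : ℕ) : ℕ :=
  tx (VR.cepT R) (s174 R i)

theorem e1581 (R : VR) : L (VR.S R) (v1581 R) (s1581 R) 14 :=
  L.gat (e174 R) (VR.cep_is R) (VR.cep_lt R) (VR.cep_le R)

noncomputable def v1582 (R : VR) : ℕ :=
  Nat.shiftRight (Nat.land (Nat.sub (VR.h1 R) (Nat.xor (v1581 R) (VR.cepT R))) (VR.h1 R)) (nat_lit
    15)

noncomputable def s1582 (R : VR) (i : ℕ) : Bool :=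
  Nat.beq (s1581 R i) (s116 R i)

theorem e1582 (R : VR) : B (VR.S R) (v1582 R) (s1582 R) :=
  L.beq (VR.h1e R) (e1581 R) (e116 R)

noncomputable def v1583 (R : VR) : ℕ :=
  Nat.lor (Nat.lor (v192 R) (VR.realpT R)) (v1582 R)

noncomputable def s1583 (R : VR) (i : ℕ) : Bool :=
  K.bor (s1580 R i) (s1582 R i)

theorem e1583 (R : VR) : B (VR.S R) (v1583 R) (s1583 R) :=
  B.or (e1580 R) (e1582 R)

noncomputable def v1584 (R : VR) : ℕ :=
  Nat.land (v1578 R) (Nat.lor (Nat.lor (v192 R) (VR.realpT R)) (v1582 R))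

noncomputable def s1584 (R : VR) (i : ℕ) : Bool :=
  K.band (s1578 R i) (s1583 R i)

theorem e1584 (R : VR) : B (VR.S R) (v1584 R) (s1584 R) :=
  B.and (e1578 R) (e1583 R)

noncomputable def v1585 (R : VR) : ℕ :=
  Nat.sub (VR.o2 R) (v1560 R)

noncomputable def s1585 (R : VR) (j i : ℕ) : Bool :=
  K.bnot (s1560 R j i)

theorem e1585 (R : VR) : B2 R (v1585 R) (s1585 R) :=
  B.not (VR.o2e R) (e1560 R)

noncomputable def v1586 (R : VR) : ℕ :=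
  Nat.lor (v1561 R) (v1585 R)

noncomputable def s1586 (R : VR) (j i : ℕ) : Bool :=
  K.bor (s1561 R j i) (s1585 R j i)

theorem e1586 (R : VR) : B2 R (v1586 R) (s1586 R) :=
  B.or (e1561 R) (e1585 R)

noncomputable def v1587 (R : VR) : ℕ :=
  Nat.lor (Nat.lor (v1561 R) (v1585 R)) (v1552 R)

noncomputable def s1587 (R : VR) (j i : ℕ) : Bool :=
  K.bor (s1586 R j i) (s1553 R j i)

theorem e1587 (R : VR) : B2 R (v1587 R) (s1587 R) :=
  B.or (e1586 R) (e1553 R)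

noncomputable def v1588 (R : VR) : ℕ :=
  srM (VR.N R) (VR.S R) (VR.o1 R) (Nat.land (v1578 R) (Nat.lor (Nat.lor (v192 R) (VR.realpT R))
    (v1582 R)))

noncomputable def s1588 (R : VR) (j i : ℕ) : Bool :=
  (s1584 R j)

theorem e1588 (R : VR) : B2 R (v1588 R) (s1588 R) :=
  B2.row (e1584 R)

noncomputable def v1589 (R : VR) : ℕ :=
  Nat.land (v1588 R) (Nat.lor (Nat.lor (v1561 R) (v1585 R)) (v1552 R))

noncomputable def s1589 (R : VR) (j i : ℕ) : Bool :=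
  K.band (s1588 R j i) (s1587 R j i)

theorem e1589 (R : VR) : B2 R (v1589 R) (s1589 R) :=
  B.and (e1588 R) (e1587 R)

noncomputable def v1590 (R : VR) : ℕ :=
  Nat.shiftRight (Nat.land (Nat.sub (VR.h1 R) (Nat.mod (Nat.land (Nat.sub (VR.o2 R) (Nat.land
    (v1588 R) (Nat.lor (Nat.lor (v1561 R) (v1585 R)) (v1552 R)))) (mM (Nat.mul (v112 R) (VR.S
    R)))) (VR.m1 R))) (VR.h1 R)) (nat_lit 15)

noncomputable def s1590 (R : VR) (i : ℕ) : Bool :=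
  K.allN (s112 R) (fun j => (s1589 R j i))

theorem e1590 (R : VR) : B (VR.S R) (v1590 R) (s1590 R) :=
  B.all (e1589 R) (VR.n_le R)

noncomputable def s1591 (R : VR) (i : ℕ) : Bool :=
  K.allN (s112 R) (fun (x59 : ℕ) => (K.band (K.band (Nat.beq (FC7.OD.pc (FC7.Fc.O (FC7.WF.F (VR.WF
    R))) (FC6.Pa.φ (FC7.Fc.P' (FC7.WF.F (VR.WF R))) x59)) (FC7.OD.pc (FC7.Fc.O (FC7.WF.F (VR.WF
    R))) x59)) (K.bor (K.bor (Nat.beq (FC6.Pa.α (FC7.Fc.P (FC7.WF.F (VR.WF R))) x59) x59)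
    (FC6.Pa.real (FC7.Fc.P' (FC7.WF.F (VR.WF R))) x59)) (Nat.beq (FC7.OD.pc (FC7.Fc.O (FC7.WF.F
    (VR.WF R))) (FC6.Pa.α (FC7.Fc.P (FC7.WF.F (VR.WF R))) x59)) (FC7.OD.pc (FC7.Fc.O (FC7.WF.F
    (VR.WF R))) x59)))) (K.bor (K.bor (K.bor (K.bnot (Nat.beq (FC6.Pa.α (FC7.Fc.P (FC7.WF.F (VR.WF
    R))) x59) x59)) (FC6.Pa.real (FC7.Fc.P (FC7.WF.F (VR.WF R))) x59)) (K.bnot (Nat.beq (FC7.OD.pc
    (FC7.Fc.O (FC7.WF.F (VR.WF R))) x59) i))) (K.inb (FC7.Fc.P (FC7.WF.F (VR.WF R))) (K.WF_hb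
    (VR.WF R) (s1472 R i)) x59))))

theorem e1591 (R : VR) : B (VR.S R) (v1590 R) (s1591 R) :=
  e1590 R

noncomputable def s1592 (R : VR) (i : ℕ) : Bool :=
  K.WF_clo (VR.WF R) i (s1472 R i)

theorem e1592 (R : VR) : B (VR.S R) (v1590 R) (s1592 R) :=
  e1591 R

noncomputable def v1593 (R : VR) : ℕ :=
  Nat.land (Nat.land (v1571 R) (Nat.sub (VR.o1 R) (v1483 R))) (Nat.shiftRight (Nat.land (Nat.sub
    (VR.h1 R) (Nat.mod (Nat.land (Nat.sub (VR.o2 R) (Nat.land (v1588 R) (Nat.lor (Nat.lor (v1561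
    R) (v1585 R)) (v1552 R)))) (mM (Nat.mul (v112 R) (VR.S R)))) (VR.m1 R))) (VR.h1 R)) (nat_lit
    15))

noncomputable def s1593 (R : VR) (i : ℕ) : Bool :=
  K.band (s1574 R i) (s1592 R i)

theorem e1593 (R : VR) : B (VR.S R) (v1593 R) (s1593 R) :=
  B.and (e1574 R) (e1592 R)

noncomputable def v1594 (R : VR) : ℕ :=
  srM (VR.N R) (VR.S R) (VR.o1 R) (VR.uT R)

noncomputable def s1594 (R : VR) (j i : ℕ) : ℕ :=
  (s1009 R j)

theorem e1594 (R : VR) : L2 R (v1594 R) (s1594 R) 15 :=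
  L2.row (e1009 R)

noncomputable def v1595 (R : VR) : ℕ :=
  Nat.xor (v25 R) (Nat.land (Nat.xor (v25 R) (v1594 R)) (Nat.mul (v1555 R) (nat_lit 32767)))

noncomputable def s1595 (R : VR) (j i : ℕ) : ℕ :=
  Bool.rec (motive := fun _ => ℕ) (s25 R j i) (s1594 R j i) (s1557 R j i)

theorem e1595 (R : VR) : L2 R (v1595 R) (s1595 R) 15 :=
  L.sel (e1557 R) (e1594 R) (e25 R) (by decide) (by decide) (by decide)

noncomputable def v1596 (R : VR) : ℕ :=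
  Nat.mod (Nat.land (Nat.xor (v25 R) (Nat.land (Nat.xor (v25 R) (v1594 R)) (Nat.mul (v1555 R)
    (nat_lit 32767)))) (mM (Nat.mul (v112 R) (VR.S R)))) (VR.m1 R)

noncomputable def s1596 (R : VR) (i : ℕ) : ℕ :=
  K.sumN (s112 R) (fun j => (s1595 R j i))

theorem e1596 (R : VR) : L (VR.S R) (v1596 R) (s1596 R) 1905 :=
  L.sum (e1595 R) (VR.n_le R) (by decide)

noncomputable def s1597 (R : VR) (i : ℕ) : ℕ :=
  K.sumN (s112 R) (fun (x60 : ℕ) => (Bool.rec (motive := fun _ => ℕ) (nat_lit 0) (FC6.Pa.u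
    (FC7.Fc.P (FC7.WF.F (VR.WF R))) x60) (K.WF_fin (VR.WF R) (s1472 R i) x60)))

theorem e1597 (R : VR) : L (VR.S R) (v1596 R) (s1597 R) 1905 :=
  e1596 R

noncomputable def s1598 (R : VR) (i : ℕ) : ℕ :=
  K.WF_ku (VR.WF R) (s1472 R i)

theorem e1598 (R : VR) : L (VR.S R) (v1596 R) (s1598 R) 1905 :=
  e1597 R

noncomputable def v1599 (R : VR) : ℕ :=
  Nat.shiftRight (Nat.land (Nat.sub (VR.h1 R) (v1596 R)) (VR.h1 R)) (nat_lit 15)

noncomputable def s1599 (R : VR) (i : ℕ) : Bool :=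
  Nat.beq (s1598 R i) (nat_lit 0)

theorem e1599 (R : VR) : B (VR.S R) (v1599 R) (s1599 R) :=
  L.ez (VR.h1e R) (e1598 R)

noncomputable def v1600 (R : VR) : ℕ :=
  Nat.sub (VR.o1 R) (VR.realpT R)

noncomputable def s1600 (R : VR) (i : ℕ) : Bool :=
  K.bnot (s1579 R i)

theorem e1600 (R : VR) : B (VR.S R) (v1600 R) (s1600 R) :=
  B.not (VR.o1e R) (e1579 R)

noncomputable def v1601 (R : VR) : ℕ :=
  srM (VR.N R) (VR.S R) (VR.o1 R) (v1600 R)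

noncomputable def s1601 (R : VR) (j i : ℕ) : Bool :=
  (s1600 R j)

theorem e1601 (R : VR) : B2 R (v1601 R) (s1601 R) :=
  B2.row (e1600 R)

noncomputable def v1602 (R : VR) : ℕ :=
  Nat.lor (v1585 R) (v1601 R)

noncomputable def s1602 (R : VR) (j i : ℕ) : Bool :=
  K.bor (s1585 R j i) (s1601 R j i)

theorem e1602 (R : VR) : B2 R (v1602 R) (s1602 R) :=
  B.or (e1585 R) (e1601 R)

noncomputable def v1603 (R : VR) : ℕ :=
  Nat.shiftRight (Nat.land (Nat.sub (Nat.add (v625 R) (VR.k1 R)) (VR.lpT R)) (VR.h1 R)) (nat_lit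
    15)

noncomputable def s1603 (R : VR) (i : ℕ) : Bool :=
  Nat.ble (Nat.succ (s113 R i)) (s625 R i)

theorem e1603 (R : VR) : B (VR.S R) (v1603 R) (s1603 R) :=
  L.blt (VR.h1e R) (VR.k1e R) (e113 R) (e625 R)

noncomputable def v1604 (R : VR) : ℕ :=
  srM (VR.N R) (VR.S R) (VR.o1 R) (v1603 R)

noncomputable def s1604 (R : VR) (j i : ℕ) : Bool :=
  (s1603 R j)

theorem e1604 (R : VR) : B2 R (v1604 R) (s1604 R) :=
  B2.row (e1603 R)

noncomputable def v1605 (R : VR) : ℕ :=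
  Nat.lor (Nat.lor (v1585 R) (v1601 R)) (v1604 R)

noncomputable def s1605 (R : VR) (j i : ℕ) : Bool :=
  K.bor (s1602 R j i) (s1604 R j i)

theorem e1605 (R : VR) : B2 R (v1605 R) (s1605 R) :=
  B.or (e1602 R) (e1604 R)

noncomputable def v1606 (R : VR) : ℕ :=
  srM (VR.N R) (VR.S R) (VR.o1 R) (VR.lpT R)

noncomputable def v1607 (R : VR) : ℕ :=
  Nat.mod (Nat.land (v1576 R) (v1606 R)) (VR.m1 R)

noncomputable def s1607 (R : VR) (i : ℕ) : ℕ :=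
  tx (VR.lpT R) (s1575 R i)

theorem e1607 (R : VR) : L (VR.S R) (v1607 R) (s1607 R) 29 :=
  L.gat (e1575 R) (VR.lp_is R) (VR.lp_lt R) (VR.lp_le R)

noncomputable def v1608 (R : VR) : ℕ :=
  Nat.shiftRight (Nat.land (Nat.sub (Nat.add (v625 R) (VR.k1 R)) (v1607 R)) (VR.h1 R)) (nat_lit
    15)

noncomputable def s1608 (R : VR) (i : ℕ) : Bool :=
  Nat.ble (Nat.succ (s1607 R i)) (s625 R i)

theorem e1608 (R : VR) : B (VR.S R) (v1608 R) (s1608 R) :=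
  L.blt (VR.h1e R) (VR.k1e R) (e1607 R) (e625 R)

noncomputable def v1609 (R : VR) : ℕ :=
  srM (VR.N R) (VR.S R) (VR.o1 R) (v1608 R)

noncomputable def s1609 (R : VR) (j i : ℕ) : Bool :=
  (s1608 R j)

theorem e1609 (R : VR) : B2 R (v1609 R) (s1609 R) :=
  B2.row (e1608 R)

noncomputable def v1610 (R : VR) : ℕ :=
  Nat.lor (Nat.lor (Nat.lor (v1585 R) (v1601 R)) (v1604 R)) (v1609 R)

noncomputable def s1610 (R : VR) (j i : ℕ) : Bool :=
  K.bor (s1605 R j i) (s1609 R j i)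

theorem e1610 (R : VR) : B2 R (v1610 R) (s1610 R) :=
  B.or (e1605 R) (e1609 R)

noncomputable def v1611 (R : VR) : ℕ :=
  Nat.shiftRight (Nat.land (Nat.sub (VR.h1 R) (Nat.xor (VR.lpT R) (VR.lT R))) (VR.h1 R)) (nat_lit
    15)

noncomputable def s1611 (R : VR) (i : ℕ) : Bool :=
  Nat.beq (s113 R i) (s7 R i)

theorem e1611 (R : VR) : B (VR.S R) (v1611 R) (s1611 R) :=
  L.beq (VR.h1e R) (e113 R) (e7 R)

noncomputable def v1612 (R : VR) : ℕ :=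
  Nat.land (VR.realT R) (v1611 R)

noncomputable def s1612 (R : VR) (i : ℕ) : Bool :=
  K.band (s434 R i) (s1611 R i)

theorem e1612 (R : VR) : B (VR.S R) (v1612 R) (s1612 R) :=
  B.and (e434 R) (e1611 R)

noncomputable def v1613 (R : VR) : ℕ :=
  Nat.shiftRight (Nat.land (Nat.sub (VR.h1 R) (Nat.xor (v1607 R) (v193 R))) (VR.h1 R)) (nat_lit
    15)

noncomputable def s1613 (R : VR) (i : ℕ) : Bool :=
  Nat.beq (s1607 R i) (s193 R i)

theorem e1613 (R : VR) : B (VR.S R) (v1613 R) (s1613 R) :=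
  L.beq (VR.h1e R) (e1607 R) (e193 R)

noncomputable def v1614 (R : VR) : ℕ :=
  Nat.land (Nat.land (VR.realT R) (v1611 R)) (v1613 R)

noncomputable def s1614 (R : VR) (i : ℕ) : Bool :=
  K.band (s1612 R i) (s1613 R i)

theorem e1614 (R : VR) : B (VR.S R) (v1614 R) (s1614 R) :=
  B.and (e1612 R) (e1613 R)

noncomputable def s1615 (R : VR) (i : ℕ) : Bool :=
  K.Fc_un (VR.F R) i

theorem e1615 (R : VR) : B (VR.S R) (v1614 R) (s1615 R) :=
  e1614 R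

noncomputable def v1616 (R : VR) : ℕ :=
  srM (VR.N R) (VR.S R) (VR.o1 R) (v1614 R)

noncomputable def s1616 (R : VR) (j i : ℕ) : Bool :=
  (s1615 R j)

theorem e1616 (R : VR) : B2 R (v1616 R) (s1616 R) :=
  B2.row (e1615 R)

noncomputable def v1617 (R : VR) : ℕ :=
  Nat.land (v1616 R) (v1552 R)

noncomputable def s1617 (R : VR) (j i : ℕ) : Bool :=
  K.band (s1616 R j i) (s1553 R j i)

theorem e1617 (R : VR) : B2 R (v1617 R) (s1617 R) :=
  B.and (e1616 R) (e1553 R)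

noncomputable def v1618 (R : VR) : ℕ :=
  Nat.lor (Nat.lor (Nat.lor (Nat.lor (v1585 R) (v1601 R)) (v1604 R)) (v1609 R)) (Nat.land (v1616
    R) (v1552 R))

noncomputable def s1618 (R : VR) (j i : ℕ) : Bool :=
  K.bor (s1610 R j i) (s1617 R j i)

theorem e1618 (R : VR) : B2 R (v1618 R) (s1618 R) :=
  B.or (e1610 R) (e1617 R)

noncomputable def s1619 (R : VR) (i : ℕ) : ℕ :=
  tx (VR.OQ1T R) i

theorem e1619 (R : VR) : L (VR.S R) (VR.OQ1T R) (s1619 R) 32767 :=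
  VR.OQ1_is R

noncomputable def v1620 (R : VR) : ℕ :=
  gmk (VR.h2 R) (VR.J R) (Nat.mul (VR.lpT R) (VR.cr1 R))

noncomputable def v1621 (R : VR) : ℕ :=
  srM (VR.N R) (VR.S R) (VR.o1 R) (VR.OQ1T R)

noncomputable def v1622 (R : VR) : ℕ :=
  Nat.mod (Nat.land (v1620 R) (v1621 R)) (VR.m1 R)

noncomputable def s1622 (R : VR) (i : ℕ) : ℕ :=
  tx (VR.OQ1T R) (s113 R i)

theorem e1622 (R : VR) : L (VR.S R) (v1622 R) (s1622 R) 32767 :=
  L.gat (e113 R) (VR.OQ1_is R) (VR.OQ1_lt R) (VR.OQ1_le R)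

noncomputable def s1623 (R : VR) (i : ℕ) : ℕ :=
  tx (VR.OQ2T R) i

theorem e1623 (R : VR) : L (VR.S R) (VR.OQ2T R) (s1623 R) 32767 :=
  VR.OQ2_is R

noncomputable def v1624 (R : VR) : ℕ :=
  srM (VR.N R) (VR.S R) (VR.o1 R) (VR.OQ2T R)

noncomputable def v1625 (R : VR) : ℕ :=
  Nat.mod (Nat.land (v1620 R) (v1624 R)) (VR.m1 R)

noncomputable def s1625 (R : VR) (i : ℕ) : ℕ :=
  tx (VR.OQ2T R) (s113 R i)

theorem e1625 (R : VR) : L (VR.S R) (v1625 R) (s1625 R) 32767 :=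
  L.gat (e113 R) (VR.OQ2_is R) (VR.OQ2_lt R) (VR.OQ2_le R)

noncomputable def v1626 (R : VR) : ℕ :=
  srM (VR.N R) (VR.S R) (VR.o1 R) (Nat.mod (Nat.land (v1620 R) (v1621 R)) (VR.m1 R))

noncomputable def s1626 (R : VR) (j i : ℕ) : ℕ :=
  (s1622 R j)

theorem e1626 (R : VR) : L2 R (v1626 R) (s1626 R) 32767 :=
  L2.row (e1622 R)

noncomputable def v1627 (R : VR) : ℕ :=
  Nat.land (v1626 R) (v1509 R)

noncomputable def s1627 (R : VR) (j i : ℕ) : ℕ :=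
  Nat.land (s1626 R j i) (s1509 R j i)

theorem e1627 (R : VR) : L2 R (v1627 R) (s1627 R) 32767 :=
  L.land (e1626 R) (e1509 R)

noncomputable def v1628 (R : VR) : ℕ :=
  Nat.shiftRight (Nat.land (Nat.sub (VR.h2 R) (v1627 R)) (VR.h2 R)) (nat_lit 15)

noncomputable def s1628 (R : VR) (j i : ℕ) : Bool :=
  Nat.beq (s1627 R j i) (nat_lit 0)

theorem e1628 (R : VR) : B2 R (v1628 R) (s1628 R) :=
  L.ez (VR.h2e R) (e1627 R)

noncomputable def v1629 (R : VR) : ℕ :=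
  Nat.shiftRight (Nat.land (Nat.add (v1627 R) (VR.k2 R)) (VR.h2 R)) (nat_lit 15)

noncomputable def s1629 (R : VR) (j i : ℕ) : Bool :=
  K.bnot (Nat.beq (s1627 R j i) (nat_lit 0))

theorem e1629 (R : VR) : B2 R (v1629 R) (s1629 R) :=
  L.nz (VR.h2e R) (VR.k2e R) (e1627 R)

noncomputable def v1630 (R : VR) : ℕ :=
  srM (VR.N R) (VR.S R) (VR.o1 R) (Nat.mod (Nat.land (v1620 R) (v1624 R)) (VR.m1 R))

noncomputable def s1630 (R : VR) (j i : ℕ) : ℕ :=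
  (s1625 R j)

theorem e1630 (R : VR) : L2 R (v1630 R) (s1630 R) 32767 :=
  L2.row (e1625 R)

noncomputable def v1631 (R : VR) : ℕ :=
  Nat.land (v1630 R) (v1514 R)

noncomputable def s1631 (R : VR) (j i : ℕ) : ℕ :=
  Nat.land (s1630 R j i) (s1514 R j i)

theorem e1631 (R : VR) : L2 R (v1631 R) (s1631 R) 32767 :=
  L.land (e1630 R) (e1514 R)

noncomputable def v1632 (R : VR) : ℕ :=
  Nat.shiftRight (Nat.land (Nat.sub (VR.h2 R) (v1631 R)) (VR.h2 R)) (nat_lit 15)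

noncomputable def s1632 (R : VR) (j i : ℕ) : Bool :=
  Nat.beq (s1631 R j i) (nat_lit 0)

theorem e1632 (R : VR) : B2 R (v1632 R) (s1632 R) :=
  L.ez (VR.h2e R) (e1631 R)

noncomputable def v1633 (R : VR) : ℕ :=
  Nat.shiftRight (Nat.land (Nat.add (v1631 R) (VR.k2 R)) (VR.h2 R)) (nat_lit 15)

noncomputable def s1633 (R : VR) (j i : ℕ) : Bool :=
  K.bnot (Nat.beq (s1631 R j i) (nat_lit 0))

theorem e1633 (R : VR) : B2 R (v1633 R) (s1633 R) :=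
  L.nz (VR.h2e R) (VR.k2e R) (e1631 R)

noncomputable def v1634 (R : VR) : ℕ :=
  Nat.lor (Nat.shiftRight (Nat.land (Nat.add (v1627 R) (VR.k2 R)) (VR.h2 R)) (nat_lit 15))
    (Nat.shiftRight (Nat.land (Nat.add (v1631 R) (VR.k2 R)) (VR.h2 R)) (nat_lit 15))

noncomputable def s1634 (R : VR) (j i : ℕ) : Bool :=
  K.bor (s1629 R j i) (s1633 R j i)

theorem e1634 (R : VR) : B2 R (v1634 R) (s1634 R) :=
  B.or (e1629 R) (e1633 R)

noncomputable def s1635 (R : VR) (j i : ℕ) : Bool :=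
  V2.mk R (s1622 R j) (s1625 R j) (s1492 R i)

theorem e1635 (R : VR) : B2 R (v1634 R) (s1635 R) :=
  e1634 R

noncomputable def s1636 (R : VR) (j i : ℕ) : Bool :=
  V2.off R (s113 R j) (s1492 R i)

theorem e1636 (R : VR) : B2 R (v1634 R) (s1636 R) :=
  e1635 R

noncomputable def s1637 (R : VR) (j i : ℕ) : Bool :=
  K.WF_off (VR.WF R) (s113 R j) (s1492 R i)

theorem e1637 (R : VR) : B2 R (v1634 R) (s1637 R) :=
  B.of_eq (e1636 R) (fun t ht => V2.off_eq R (s113 R (t / VR.S R)) (s1492 R (t % VR.S R)))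

noncomputable def v1638 (R : VR) : ℕ :=
  Nat.lor (Nat.lor (Nat.lor (Nat.lor (Nat.lor (v1585 R) (v1601 R)) (v1604 R)) (v1609 R)) (Nat.land
    (v1616 R) (v1552 R))) (Nat.lor (Nat.shiftRight (Nat.land (Nat.add (v1627 R) (VR.k2 R)) (VR.h2
    R)) (nat_lit 15)) (Nat.shiftRight (Nat.land (Nat.add (v1631 R) (VR.k2 R)) (VR.h2 R)) (nat_lit
    15)))

noncomputable def s1638 (R : VR) (j i : ℕ) : Bool :=
  K.bor (s1618 R j i) (s1637 R j i)

theorem e1638 (R : VR) : B2 R (v1638 R) (s1638 R) :=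
  B.or (e1618 R) (e1637 R)

noncomputable def v1639 (R : VR) : ℕ :=
  gmk (VR.h2 R) (VR.J R) (Nat.mul (v1607 R) (VR.cr1 R))

noncomputable def v1640 (R : VR) : ℕ :=
  Nat.mod (Nat.land (v1639 R) (v1621 R)) (VR.m1 R)

noncomputable def s1640 (R : VR) (i : ℕ) : ℕ :=
  tx (VR.OQ1T R) (s1607 R i)

theorem e1640 (R : VR) : L (VR.S R) (v1640 R) (s1640 R) 32767 :=
  L.gat (e1607 R) (VR.OQ1_is R) (VR.OQ1_lt R) (VR.OQ1_le R)

noncomputable def v1641 (R : VR) : ℕ :=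
  Nat.mod (Nat.land (v1639 R) (v1624 R)) (VR.m1 R)

noncomputable def s1641 (R : VR) (i : ℕ) : ℕ :=
  tx (VR.OQ2T R) (s1607 R i)

theorem e1641 (R : VR) : L (VR.S R) (v1641 R) (s1641 R) 32767 :=
  L.gat (e1607 R) (VR.OQ2_is R) (VR.OQ2_lt R) (VR.OQ2_le R)

noncomputable def v1642 (R : VR) : ℕ :=
  srM (VR.N R) (VR.S R) (VR.o1 R) (Nat.mod (Nat.land (v1639 R) (v1621 R)) (VR.m1 R))

noncomputable def s1642 (R : VR) (j i : ℕ) : ℕ :=
  (s1640 R j)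

theorem e1642 (R : VR) : L2 R (v1642 R) (s1642 R) 32767 :=
  L2.row (e1640 R)

noncomputable def v1643 (R : VR) : ℕ :=
  Nat.land (v1642 R) (v1509 R)

noncomputable def s1643 (R : VR) (j i : ℕ) : ℕ :=
  Nat.land (s1642 R j i) (s1509 R j i)

theorem e1643 (R : VR) : L2 R (v1643 R) (s1643 R) 32767 :=
  L.land (e1642 R) (e1509 R)

noncomputable def v1644 (R : VR) : ℕ :=
  Nat.shiftRight (Nat.land (Nat.sub (VR.h2 R) (v1643 R)) (VR.h2 R)) (nat_lit 15)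

noncomputable def s1644 (R : VR) (j i : ℕ) : Bool :=
  Nat.beq (s1643 R j i) (nat_lit 0)

theorem e1644 (R : VR) : B2 R (v1644 R) (s1644 R) :=
  L.ez (VR.h2e R) (e1643 R)

noncomputable def v1645 (R : VR) : ℕ :=
  Nat.shiftRight (Nat.land (Nat.add (v1643 R) (VR.k2 R)) (VR.h2 R)) (nat_lit 15)

noncomputable def s1645 (R : VR) (j i : ℕ) : Bool :=
  K.bnot (Nat.beq (s1643 R j i) (nat_lit 0))

theorem e1645 (R : VR) : B2 R (v1645 R) (s1645 R) :=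
  L.nz (VR.h2e R) (VR.k2e R) (e1643 R)

noncomputable def v1646 (R : VR) : ℕ :=
  srM (VR.N R) (VR.S R) (VR.o1 R) (Nat.mod (Nat.land (v1639 R) (v1624 R)) (VR.m1 R))

noncomputable def s1646 (R : VR) (j i : ℕ) : ℕ :=
  (s1641 R j)

theorem e1646 (R : VR) : L2 R (v1646 R) (s1646 R) 32767 :=
  L2.row (e1641 R)

noncomputable def v1647 (R : VR) : ℕ :=
  Nat.land (v1646 R) (v1514 R)

noncomputable def s1647 (R : VR) (j i : ℕ) : ℕ :=
  Nat.land (s1646 R j i) (s1514 R j i)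

theorem e1647 (R : VR) : L2 R (v1647 R) (s1647 R) 32767 :=
  L.land (e1646 R) (e1514 R)

noncomputable def v1648 (R : VR) : ℕ :=
  Nat.shiftRight (Nat.land (Nat.sub (VR.h2 R) (v1647 R)) (VR.h2 R)) (nat_lit 15)

noncomputable def s1648 (R : VR) (j i : ℕ) : Bool :=
  Nat.beq (s1647 R j i) (nat_lit 0)

theorem e1648 (R : VR) : B2 R (v1648 R) (s1648 R) :=
  L.ez (VR.h2e R) (e1647 R)

noncomputable def v1649 (R : VR) : ℕ :=
  Nat.shiftRight (Nat.land (Nat.add (v1647 R) (VR.k2 R)) (VR.h2 R)) (nat_lit 15)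

noncomputable def s1649 (R : VR) (j i : ℕ) : Bool :=
  K.bnot (Nat.beq (s1647 R j i) (nat_lit 0))

theorem e1649 (R : VR) : B2 R (v1649 R) (s1649 R) :=
  L.nz (VR.h2e R) (VR.k2e R) (e1647 R)

noncomputable def v1650 (R : VR) : ℕ :=
  Nat.lor (Nat.shiftRight (Nat.land (Nat.add (v1643 R) (VR.k2 R)) (VR.h2 R)) (nat_lit 15))
    (Nat.shiftRight (Nat.land (Nat.add (v1647 R) (VR.k2 R)) (VR.h2 R)) (nat_lit 15))

noncomputable def s1650 (R : VR) (j i : ℕ) : Bool :=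
  K.bor (s1645 R j i) (s1649 R j i)

theorem e1650 (R : VR) : B2 R (v1650 R) (s1650 R) :=
  B.or (e1645 R) (e1649 R)

noncomputable def s1651 (R : VR) (j i : ℕ) : Bool :=
  V2.mk R (s1640 R j) (s1641 R j) (s1492 R i)

theorem e1651 (R : VR) : B2 R (v1650 R) (s1651 R) :=
  e1650 R

noncomputable def s1652 (R : VR) (j i : ℕ) : Bool :=
  V2.off R (s1607 R j) (s1492 R i)

theorem e1652 (R : VR) : B2 R (v1650 R) (s1652 R) :=
  e1651 R

noncomputable def s1653 (R : VR) (j i : ℕ) : Bool :=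
  K.WF_off (VR.WF R) (s1607 R j) (s1492 R i)

theorem e1653 (R : VR) : B2 R (v1650 R) (s1653 R) :=
  B.of_eq (e1652 R) (fun t ht => V2.off_eq R (s1607 R (t / VR.S R)) (s1492 R (t % VR.S R)))

noncomputable def v1654 (R : VR) : ℕ :=
  Nat.lor (Nat.lor (Nat.lor (Nat.lor (Nat.lor (Nat.lor (v1585 R) (v1601 R)) (v1604 R)) (v1609 R))
    (Nat.land (v1616 R) (v1552 R))) (Nat.lor (Nat.shiftRight (Nat.land (Nat.add (v1627 R) (VR.k2
    R)) (VR.h2 R)) (nat_lit 15)) (Nat.shiftRight (Nat.land (Nat.add (v1631 R) (VR.k2 R)) (VR.h2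
    R)) (nat_lit 15)))) (Nat.lor (Nat.shiftRight (Nat.land (Nat.add (v1643 R) (VR.k2 R)) (VR.h2
    R)) (nat_lit 15)) (Nat.shiftRight (Nat.land (Nat.add (v1647 R) (VR.k2 R)) (VR.h2 R)) (nat_lit
    15)))

noncomputable def s1654 (R : VR) (j i : ℕ) : Bool :=
  K.bor (s1638 R j i) (s1653 R j i)

theorem e1654 (R : VR) : B2 R (v1654 R) (s1654 R) :=
  B.or (e1638 R) (e1653 R)

noncomputable def v1655 (R : VR) : ℕ :=
  Nat.shiftRight (Nat.land (Nat.sub (VR.h1 R) (Nat.mod (Nat.land (Nat.sub (VR.o2 R) (v1654 R)) (mM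
    (Nat.mul (v112 R) (VR.S R)))) (VR.m1 R))) (VR.h1 R)) (nat_lit 15)

noncomputable def s1655 (R : VR) (i : ℕ) : Bool :=
  K.allN (s112 R) (fun j => (s1654 R j i))

theorem e1655 (R : VR) : B (VR.S R) (v1655 R) (s1655 R) :=
  B.all (e1654 R) (VR.n_le R)

noncomputable def s1656 (R : VR) (i : ℕ) : Bool :=
  K.allN (s112 R) (fun (x61 : ℕ) => (K.bor (K.bor (K.bor (K.bor (K.bor (K.bor (K.bnot (Nat.beq
    (FC7.OD.pc (FC7.Fc.O (FC7.WF.F (VR.WF R))) x61) i)) (K.bnot (FC6.Pa.real (FC7.Fc.P' (FC7.WF.F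
    (VR.WF R))) x61))) (Nat.ble (Nat.succ (FC6.Pa.l (FC7.Fc.P' (FC7.WF.F (VR.WF R))) x61))
    (FC7.OD.x (FC7.Fc.O (FC7.WF.F (VR.WF R)))))) (Nat.ble (Nat.succ (FC6.Pa.l (FC7.Fc.P' (FC7.WF.F
    (VR.WF R))) (FC6.Pa.φ (FC7.Fc.P' (FC7.WF.F (VR.WF R))) x61))) (FC7.OD.x (FC7.Fc.O (FC7.WF.F
    (VR.WF R)))))) (K.band (K.Fc_un (FC7.WF.F (VR.WF R)) x61) (K.inb (FC7.Fc.P (FC7.WF.F (VR.WF
    R))) (K.WF_hb (VR.WF R) (s1472 R i)) x61))) (K.WF_off (VR.WF R) (FC6.Pa.l (FC7.Fc.P' (FC7.WF.F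
    (VR.WF R))) x61) (K.WF_hb (VR.WF R) (s1472 R i)))) (K.WF_off (VR.WF R) (FC6.Pa.l (FC7.Fc.P'
    (FC7.WF.F (VR.WF R))) (FC6.Pa.φ (FC7.Fc.P' (FC7.WF.F (VR.WF R))) x61)) (K.WF_hb (VR.WF R)
    (s1472 R i)))))

theorem e1656 (R : VR) : B (VR.S R) (v1655 R) (s1656 R) :=
  e1655 R

noncomputable def v1657 (R : VR) : ℕ :=
  Nat.land (v1599 R) (Nat.shiftRight (Nat.land (Nat.sub (VR.h1 R) (Nat.mod (Nat.land (Nat.sub
    (VR.o2 R) (v1654 R)) (mM (Nat.mul (v112 R) (VR.S R)))) (VR.m1 R))) (VR.h1 R)) (nat_lit 15))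

noncomputable def s1657 (R : VR) (i : ℕ) : Bool :=
  K.band (s1599 R i) (s1656 R i)

theorem e1657 (R : VR) : B (VR.S R) (v1657 R) (s1657 R) :=
  B.and (e1599 R) (e1656 R)

noncomputable def s1658 (R : VR) (i : ℕ) : Bool :=
  K.WF_t4a (VR.WF R) i (s1472 R i)

theorem e1658 (R : VR) : B (VR.S R) (v1657 R) (s1658 R) :=
  e1657 R

noncomputable def v1659 (R : VR) : ℕ :=
  lfg R (VR.t4 R)

noncomputable def s1659 (R : VR) (i : ℕ) : Bool :=
  K.lmem i (VR.t4 R)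

theorem e1659 (R : VR) : B (VR.S R) (v1659 R) (s1659 R) :=
  lfg_is R (VR.t4 R)

noncomputable def v1660 (R : VR) : ℕ :=
  Nat.lor (Nat.land (v1599 R) (Nat.shiftRight (Nat.land (Nat.sub (VR.h1 R) (Nat.mod (Nat.land
    (Nat.sub (VR.o2 R) (v1654 R)) (mM (Nat.mul (v112 R) (VR.S R)))) (VR.m1 R))) (VR.h1 R))
    (nat_lit 15))) (lfg R (VR.t4 R))

noncomputable def s1660 (R : VR) (i : ℕ) : Bool :=
  K.bor (s1658 R i) (s1659 R i)

theorem e1660 (R : VR) : B (VR.S R) (v1660 R) (s1660 R) :=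
  B.or (e1658 R) (e1659 R)

noncomputable def v1661 (R : VR) : ℕ :=
  Nat.land (Nat.land (Nat.land (v1571 R) (Nat.sub (VR.o1 R) (v1483 R))) (Nat.shiftRight (Nat.land
    (Nat.sub (VR.h1 R) (Nat.mod (Nat.land (Nat.sub (VR.o2 R) (Nat.land (v1588 R) (Nat.lor (Nat.lor
    (v1561 R) (v1585 R)) (v1552 R)))) (mM (Nat.mul (v112 R) (VR.S R)))) (VR.m1 R))) (VR.h1 R))
    (nat_lit 15))) (Nat.lor (Nat.land (v1599 R) (Nat.shiftRight (Nat.land (Nat.sub (VR.h1 R)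
    (Nat.mod (Nat.land (Nat.sub (VR.o2 R) (v1654 R)) (mM (Nat.mul (v112 R) (VR.S R)))) (VR.m1 R)))
    (VR.h1 R)) (nat_lit 15))) (lfg R (VR.t4 R)))

noncomputable def s1661 (R : VR) (i : ℕ) : Bool :=
  K.band (s1593 R i) (s1660 R i)

theorem e1661 (R : VR) : B (VR.S R) (v1661 R) (s1661 R) :=
  B.and (e1593 R) (e1660 R)

noncomputable def v1662 (R : VR) : ℕ :=
  Nat.mod (Nat.land (v1474 R) (v245 R)) (VR.m1 R)

noncomputable def s1662 (R : VR) (i : ℕ) : ℕ :=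
  tx (VR.rkT R) (s1472 R i)

theorem e1662 (R : VR) : L (VR.S R) (v1662 R) (s1662 R) 255 :=
  L.gat (e1472 R) (VR.rk_is R) (VR.rk_lt R) (VR.rk_le R)

noncomputable def v1663 (R : VR) : ℕ :=
  Nat.mod (Nat.land (v1474 R) (v248 R)) (VR.m1 R)

noncomputable def s1663 (R : VR) (i : ℕ) : ℕ :=
  tx (VR.rjT R) (s1472 R i)

theorem e1663 (R : VR) : L (VR.S R) (v1663 R) (s1663 R) 255 :=
  L.gat (e1472 R) (VR.rj_is R) (VR.rj_lt R) (VR.rj_le R)

noncomputable def v1664 (R : VR) : ℕ :=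
  gmk (VR.h2 R) (VR.J R) (Nat.mul (Nat.mod (Nat.land (v1474 R) (v248 R)) (VR.m1 R)) (VR.cr1 R))

noncomputable def v1665 (R : VR) : ℕ :=
  Nat.mod (Nat.land (v1664 R) (v436 R)) (VR.m1 R)

noncomputable def s1665 (R : VR) (i : ℕ) : Bool :=
  tf (VR.rlT R) (s1663 R i)

theorem e1665 (R : VR) : B (VR.S R) (v1665 R) (s1665 R) :=
  B.gat (e1663 R) (VR.rl_is R) (VR.rl_lt R)

noncomputable def v1666 (R : VR) : ℕ :=
  Nat.shiftRight (Nat.land (Nat.sub (VR.h1 R) (Nat.xor (Nat.mod (Nat.land (v1474 R) (v245 R))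
    (VR.m1 R)) (v267 R))) (VR.h1 R)) (nat_lit 15)

noncomputable def s1666 (R : VR) (i : ℕ) : Bool :=
  Nat.beq (s1662 R i) (s267 R i)

theorem e1666 (R : VR) : B (VR.S R) (v1666 R) (s1666 R) :=
  L.beq (VR.h1e R) (e1662 R) (e267 R)

noncomputable def v1667 (R : VR) : ℕ :=
  Nat.mod (Nat.land (v1664 R) (v164 R)) (VR.m1 R)

noncomputable def s1667 (R : VR) (i : ℕ) : ℕ :=
  tx (VR.rhoT R) (s1663 R i)

theorem e1667 (R : VR) : L (VR.S R) (v1667 R) (s1667 R) 255 :=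
  L.gat (e1663 R) (VR.rho_is R) (VR.rho_lt R) (VR.rho_le R)

noncomputable def v1668 (R : VR) : ℕ :=
  gmk (VR.h2 R) (VR.J R) (Nat.mul (Nat.mod (Nat.land (v1664 R) (v164 R)) (VR.m1 R)) (VR.cr1 R))

noncomputable def v1669 (R : VR) : ℕ :=
  Nat.mod (Nat.land (gmk (VR.h2 R) (VR.J R) (Nat.mul (Nat.mod (Nat.land (v1664 R) (v164 R)) (VR.m1
    R)) (VR.cr1 R))) (v436 R)) (VR.m1 R)

noncomputable def s1669 (R : VR) (i : ℕ) : Bool :=
  tf (VR.rlT R) (s1667 R i)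

theorem e1669 (R : VR) : B (VR.S R) (v1669 R) (s1669 R) :=
  B.gat (e1667 R) (VR.rl_is R) (VR.rl_lt R)

noncomputable def v1670 (R : VR) : ℕ :=
  Nat.mod (Nat.land (v1664 R) (v151 R)) (VR.m1 R)

noncomputable def s1670 (R : VR) (i : ℕ) : ℕ :=
  tx (VR.rhiT R) (s1663 R i)

theorem e1670 (R : VR) : L (VR.S R) (v1670 R) (s1670 R) 255 :=
  L.gat (e1663 R) (VR.rhi_is R) (VR.rhi_lt R) (VR.rhi_le R)

noncomputable def v1671 (R : VR) : ℕ :=
  gmk (VR.h2 R) (VR.J R) (Nat.mul (v1670 R) (VR.cr1 R))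

noncomputable def v1672 (R : VR) : ℕ :=
  Nat.mod (Nat.land (v1671 R) (v436 R)) (VR.m1 R)

noncomputable def s1672 (R : VR) (i : ℕ) : Bool :=
  tf (VR.rlT R) (s1670 R i)

theorem e1672 (R : VR) : B (VR.S R) (v1672 R) (s1672 R) :=
  B.gat (e1670 R) (VR.rl_is R) (VR.rl_lt R)

noncomputable def v1673 (R : VR) : ℕ :=
  Nat.xor (v1672 R) (Nat.land (Nat.xor (v1672 R) (Nat.mod (Nat.land (gmk (VR.h2 R) (VR.J R)
    (Nat.mul (Nat.mod (Nat.land (v1664 R) (v164 R)) (VR.m1 R)) (VR.cr1 R))) (v436 R)) (VR.m1 R)))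
    (v1666 R))

noncomputable def s1673 (R : VR) (i : ℕ) : Bool :=
  Bool.rec (motive := fun _ => Bool) (s1672 R i) (s1669 R i) (s1666 R i)

theorem e1673 (R : VR) : B (VR.S R) (v1673 R) (s1673 R) :=
  B.sel (e1666 R) (e1669 R) (e1672 R)

noncomputable def v1674 (R : VR) : ℕ :=
  Nat.land (v1665 R) (Nat.xor (v1672 R) (Nat.land (Nat.xor (v1672 R) (Nat.mod (Nat.land (gmk
    (VR.h2 R) (VR.J R) (Nat.mul (Nat.mod (Nat.land (v1664 R) (v164 R)) (VR.m1 R)) (VR.cr1 R)))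
    (v436 R)) (VR.m1 R))) (v1666 R)))

noncomputable def s1674 (R : VR) (i : ℕ) : Bool :=
  K.band (s1665 R i) (s1673 R i)

theorem e1674 (R : VR) : B (VR.S R) (v1674 R) (s1674 R) :=
  B.and (e1665 R) (e1673 R)

noncomputable def s1675 (R : VR) (i : ℕ) : Bool :=
  K.Wt_sol (FC7.WF.toWt (VR.WF R)) (s1662 R i) (s1663 R i)

theorem e1675 (R : VR) : B (VR.S R) (v1674 R) (s1675 R) :=
  e1674 R

noncomputable def v1676 (R : VR) : ℕ :=
  Nat.mod (Nat.land (v1664 R) (v129 R)) (VR.m1 R)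

noncomputable def s1676 (R : VR) (i : ℕ) : ℕ :=
  tx (VR.caT R) (s1663 R i)

theorem e1676 (R : VR) : L (VR.S R) (v1676 R) (s1676 R) 255 :=
  L.gat (e1663 R) (VR.ca_is R) (VR.ca_lt R) (VR.ca_le R)

noncomputable def v1677 (R : VR) : ℕ :=
  Nat.shiftRight (Nat.land (Nat.sub (Nat.add (v625 R) (VR.k1 R)) (Nat.mod (Nat.land (v1664 R)
    (v129 R)) (VR.m1 R))) (VR.h1 R)) (nat_lit 15)

noncomputable def s1677 (R : VR) (i : ℕ) : Bool :=
  Nat.ble (Nat.succ (s1676 R i)) (s625 R i)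

theorem e1677 (R : VR) : B (VR.S R) (v1677 R) (s1677 R) :=
  L.blt (VR.h1e R) (VR.k1e R) (e1676 R) (e625 R)

noncomputable def v1678 (R : VR) : ℕ :=
  Nat.sub (VR.o1 R) (Nat.shiftRight (Nat.land (Nat.sub (Nat.add (v625 R) (VR.k1 R)) (Nat.mod
    (Nat.land (v1664 R) (v129 R)) (VR.m1 R))) (VR.h1 R)) (nat_lit 15))

noncomputable def s1678 (R : VR) (i : ℕ) : Bool :=
  K.bnot (s1677 R i)

theorem e1678 (R : VR) : B (VR.S R) (v1678 R) (s1678 R) :=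
  B.not (VR.o1e R) (e1677 R)

noncomputable def v1679 (R : VR) : ℕ :=
  Nat.mod (Nat.land (v1664 R) (v1013 R)) (VR.m1 R)

noncomputable def s1679 (R : VR) (i : ℕ) : ℕ :=
  tx (VR.ltT R) (s1663 R i)

theorem e1679 (R : VR) : L (VR.S R) (v1679 R) (s1679 R) 32767 :=
  L.gat (e1663 R) (VR.lt_is R) (VR.lt_lt R) (VR.lt_le R)

noncomputable def v1680 (R : VR) : ℕ :=
  Nat.mod (Nat.land (v1671 R) (v1013 R)) (VR.m1 R)

noncomputable def s1680 (R : VR) (i : ℕ) : ℕ :=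
  tx (VR.ltT R) (s1670 R i)

theorem e1680 (R : VR) : L (VR.S R) (v1680 R) (s1680 R) 32767 :=
  L.gat (e1670 R) (VR.lt_is R) (VR.lt_lt R) (VR.lt_le R)

noncomputable def v1681 (R : VR) : ℕ :=
  Nat.xor (v1680 R) (Nat.land (Nat.xor (v1680 R) (v1679 R)) (Nat.mul (v1665 R) (nat_lit 32767)))

noncomputable def s1681 (R : VR) (i : ℕ) : ℕ :=
  Bool.rec (motive := fun _ => ℕ) (s1680 R i) (s1679 R i) (s1665 R i)

theorem e1681 (R : VR) : L (VR.S R) (v1681 R) (s1681 R) 32767 :=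
  L.sel (e1665 R) (e1679 R) (e1680 R) (by decide) (by decide) (by decide)

noncomputable def v1682 (R : VR) : ℕ :=
  Nat.mod (Nat.land (v1671 R) (v151 R)) (VR.m1 R)

noncomputable def s1682 (R : VR) (i : ℕ) : ℕ :=
  tx (VR.rhiT R) (s1670 R i)

theorem e1682 (R : VR) : L (VR.S R) (v1682 R) (s1682 R) 255 :=
  L.gat (e1670 R) (VR.rhi_is R) (VR.rhi_lt R) (VR.rhi_le R)

noncomputable def v1683 (R : VR) : ℕ :=
  Nat.xor (v1682 R) (Nat.land (Nat.xor (v1682 R) (v1670 R)) (Nat.mul (v1672 R) (nat_lit 32767)))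

noncomputable def s1683 (R : VR) (i : ℕ) : ℕ :=
  Bool.rec (motive := fun _ => ℕ) (s1682 R i) (s1670 R i) (s1672 R i)

theorem e1683 (R : VR) : L (VR.S R) (v1683 R) (s1683 R) 255 :=
  L.sel (e1672 R) (e1670 R) (e1682 R) (by decide) (by decide) (by decide)

noncomputable def s1684 (R : VR) (i : ℕ) : ℕ :=
  K.Wt_prv (FC7.WF.toWt (VR.WF R)) (s1663 R i)

theorem e1684 (R : VR) : L (VR.S R) (v1683 R) (s1684 R) 255 :=
  e1683 R

noncomputable def v1685 (R : VR) : ℕ :=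
  gmk (VR.h2 R) (VR.J R) (Nat.mul (Nat.xor (v1682 R) (Nat.land (Nat.xor (v1682 R) (v1670 R))
    (Nat.mul (v1672 R) (nat_lit 32767)))) (VR.cr1 R))

noncomputable def v1686 (R : VR) : ℕ :=
  Nat.mod (Nat.land (gmk (VR.h2 R) (VR.J R) (Nat.mul (Nat.xor (v1682 R) (Nat.land (Nat.xor (v1682
    R) (v1670 R)) (Nat.mul (v1672 R) (nat_lit 32767)))) (VR.cr1 R))) (v1013 R)) (VR.m1 R)

noncomputable def s1686 (R : VR) (i : ℕ) : ℕ :=
  tx (VR.ltT R) (s1684 R i)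

theorem e1686 (R : VR) : L (VR.S R) (v1686 R) (s1686 R) 32767 :=
  L.gat (e1684 R) (VR.lt_is R) (VR.lt_lt R) (VR.lt_le R)

noncomputable def v1687 (R : VR) : ℕ :=
  Nat.xor (v1686 R) (Nat.land (Nat.xor (v1686 R) (Nat.xor (v1680 R) (Nat.land (Nat.xor (v1680 R)
    (v1679 R)) (Nat.mul (v1665 R) (nat_lit 32767))))) (Nat.mul (v1666 R) (nat_lit 32767)))

noncomputable def s1687 (R : VR) (i : ℕ) : ℕ :=
  Bool.rec (motive := fun _ => ℕ) (s1686 R i) (s1681 R i) (s1666 R i)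

theorem e1687 (R : VR) : L (VR.S R) (v1687 R) (s1687 R) 32767 :=
  L.sel (e1666 R) (e1681 R) (e1686 R) (by decide) (by decide) (by decide)

noncomputable def v1688 (R : VR) : ℕ :=
  Nat.xor (v1687 R) (Nat.land (Nat.xor (v1687 R) (v1679 R)) (Nat.mul (Nat.sub (VR.o1 R)
    (Nat.shiftRight (Nat.land (Nat.sub (Nat.add (v625 R) (VR.k1 R)) (Nat.mod (Nat.land (v1664 R)
    (v129 R)) (VR.m1 R))) (VR.h1 R)) (nat_lit 15))) (nat_lit 32767)))

noncomputable def s1688 (R : VR) (i : ℕ) : ℕ :=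
  Bool.rec (motive := fun _ => ℕ) (s1687 R i) (s1679 R i) (s1678 R i)

theorem e1688 (R : VR) : L (VR.S R) (v1688 R) (s1688 R) 32767 :=
  L.sel (e1678 R) (e1679 R) (e1687 R) (by decide) (by decide) (by decide)

noncomputable def s1689 (R : VR) (i : ℕ) : ℕ :=
  K.Wt_fl (FC7.WF.toWt (VR.WF R)) (s1662 R i) (s1663 R i)

theorem e1689 (R : VR) : L (VR.S R) (v1688 R) (s1689 R) 32767 :=
  e1688 R

noncomputable def v1690 (R : VR) : ℕ :=
  Nat.land (Nat.shiftRight (v1688 R) (nat_lit 2)) (Nat.mul (VR.o1 R) (nat_lit 3))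

noncomputable def s1690 (R : VR) (i : ℕ) : ℕ :=
  Nat.mod (Nat.div (s1689 R i) (nat_lit 4)) (nat_lit 4)

theorem e1690 (R : VR) : L (VR.S R) (v1690 R) (s1690 R) 3 :=
  L.fld (VR.o1e R) (e1689 R) 2 2 (by decide) (by decide)

noncomputable def s1691 (R : VR) (i : ℕ) : ℕ :=
  K.wb (s1689 R i)

theorem e1691 (R : VR) : L (VR.S R) (v1690 R) (s1691 R) 3 :=
  e1690 R

noncomputable def v1692 (R : VR) : ℕ :=
  Nat.shiftRight (Nat.land (Nat.sub (VR.h1 R) (Nat.xor (v1690 R) (v1017 R))) (VR.h1 R)) (nat_lit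
    15)

noncomputable def s1692 (R : VR) (i : ℕ) : Bool :=
  Nat.beq (s1691 R i) (s1017 R i)

theorem e1692 (R : VR) : B (VR.S R) (v1692 R) (s1692 R) :=
  L.beq (VR.h1e R) (e1691 R) (e1017 R)

noncomputable def v1693 (R : VR) : ℕ :=
  Nat.land (Nat.shiftRight (v1688 R) (nat_lit 4)) (Nat.mul (VR.o1 R) (nat_lit 3))

noncomputable def s1693 (R : VR) (i : ℕ) : ℕ :=
  Nat.mod (Nat.div (s1689 R i) (nat_lit 16)) (nat_lit 4)

theorem e1693 (R : VR) : L (VR.S R) (v1693 R) (s1693 R) 3 :=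
  L.fld (VR.o1e R) (e1689 R) 4 2 (by decide) (by decide)

noncomputable def s1694 (R : VR) (i : ℕ) : ℕ :=
  K.wc (s1689 R i)

theorem e1694 (R : VR) : L (VR.S R) (v1693 R) (s1694 R) 3 :=
  e1693 R

noncomputable def v1695 (R : VR) : ℕ :=
  Nat.shiftRight (Nat.land (Nat.sub (VR.h1 R) (Nat.xor (v1693 R) (v1017 R))) (VR.h1 R)) (nat_lit
    15)

noncomputable def s1695 (R : VR) (i : ℕ) : Bool :=
  Nat.beq (s1694 R i) (s1017 R i)

theorem e1695 (R : VR) : B (VR.S R) (v1695 R) (s1695 R) :=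
  L.beq (VR.h1e R) (e1694 R) (e1017 R)

noncomputable def v1696 (R : VR) : ℕ :=
  Nat.land (Nat.shiftRight (Nat.land (Nat.sub (VR.h1 R) (Nat.xor (v1690 R) (v1017 R))) (VR.h1 R))
    (nat_lit 15)) (Nat.shiftRight (Nat.land (Nat.sub (VR.h1 R) (Nat.xor (v1693 R) (v1017 R)))
    (VR.h1 R)) (nat_lit 15))

noncomputable def s1696 (R : VR) (i : ℕ) : Bool :=
  K.band (s1692 R i) (s1695 R i)

theorem e1696 (R : VR) : B (VR.S R) (v1696 R) (s1696 R) :=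
  B.and (e1692 R) (e1695 R)

noncomputable def s1697 (R : VR) (i : ℕ) : Bool :=
  K.uo (s1689 R i)

theorem e1697 (R : VR) : B (VR.S R) (v1696 R) (s1697 R) :=
  e1696 R

noncomputable def v1698 (R : VR) : ℕ :=
  Nat.land (Nat.shiftRight (v1688 R) (nat_lit 10)) (VR.o1 R)

noncomputable def s1698 (R : VR) (i : ℕ) : Bool :=
  K.tbit (s1689 R i) (nat_lit 10)

theorem e1698 (R : VR) : B (VR.S R) (v1698 R) (s1698 R) :=
  B.tbc (VR.o1e R) (e1689 R) 10 (by decide)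

noncomputable def v1699 (R : VR) : ℕ :=
  Nat.xor (v511 R) (Nat.land (Nat.xor (v511 R) (v359 R)) (Nat.mul (Nat.land (Nat.shiftRight (v1688
    R) (nat_lit 10)) (VR.o1 R)) (nat_lit 32767)))

noncomputable def s1699 (R : VR) (i : ℕ) : ℕ :=
  Bool.rec (motive := fun _ => ℕ) (s511 R i) (s359 R i) (s1698 R i)

theorem e1699 (R : VR) : L (VR.S R) (v1699 R) (s1699 R) 2 :=
  L.sel (e1698 R) (e359 R) (e511 R) (by decide) (by decide) (by decide)

noncomputable def v1700 (R : VR) : ℕ :=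
  Nat.land (v1688 R) (Nat.mul (VR.o1 R) (nat_lit 3))

noncomputable def s1700 (R : VR) (i : ℕ) : ℕ :=
  Nat.mod (s1689 R i) (nat_lit 4)

theorem e1700 (R : VR) : L (VR.S R) (v1700 R) (s1700 R) 3 :=
  L.fld0 (VR.o1e R) (e1689 R) 2 (by decide)

noncomputable def s1701 (R : VR) (i : ℕ) : ℕ :=
  K.wa (s1689 R i)

theorem e1701 (R : VR) : L (VR.S R) (v1700 R) (s1701 R) 3 :=
  e1700 R

noncomputable def v1702 (R : VR) : ℕ :=
  Nat.add (Nat.land (v1688 R) (Nat.mul (VR.o1 R) (nat_lit 3))) (v1690 R)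

noncomputable def s1702 (R : VR) (i : ℕ) : ℕ :=
  Nat.add (s1701 R i) (s1691 R i)

theorem e1702 (R : VR) : L (VR.S R) (v1702 R) (s1702 R) 6 :=
  L.add (e1701 R) (e1691 R) (by decide)

noncomputable def v1703 (R : VR) : ℕ :=
  Nat.add (Nat.add (Nat.land (v1688 R) (Nat.mul (VR.o1 R) (nat_lit 3))) (v1690 R)) (v1693 R)

noncomputable def s1703 (R : VR) (i : ℕ) : ℕ :=
  Nat.add (s1702 R i) (s1694 R i)

theorem e1703 (R : VR) : L (VR.S R) (v1703 R) (s1703 R) 9 :=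
  L.add (e1702 R) (e1694 R) (by decide)

noncomputable def v1704 (R : VR) : ℕ :=
  Nat.shiftRight (Nat.land (Nat.sub (VR.h1 R) (v1703 R)) (VR.h1 R)) (nat_lit 15)

noncomputable def s1704 (R : VR) (i : ℕ) : Bool :=
  Nat.beq (s1703 R i) (nat_lit 0)

theorem e1704 (R : VR) : B (VR.S R) (v1704 R) (s1704 R) :=
  L.ez (VR.h1e R) (e1703 R)

noncomputable def v1705 (R : VR) : ℕ :=
  Nat.shiftRight (Nat.land (Nat.sub (Nat.add (v359 R) (VR.h1 R)) (v1703 R)) (VR.h1 R)) (nat_lit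
    15)

noncomputable def s1705 (R : VR) (i : ℕ) : Bool :=
  Nat.ble (s1703 R i) (s359 R i)

theorem e1705 (R : VR) : B (VR.S R) (v1705 R) (s1705 R) :=
  L.ble (VR.h1e R) (e1703 R) (e359 R)

noncomputable def v1706 (R : VR) : ℕ :=
  Nat.xor (v359 R) (Nat.land (Nat.xor (v359 R) (v267 R)) (Nat.mul (Nat.shiftRight (Nat.land
    (Nat.sub (Nat.add (v359 R) (VR.h1 R)) (v1703 R)) (VR.h1 R)) (nat_lit 15)) (nat_lit 32767)))

noncomputable def s1706 (R : VR) (i : ℕ) : ℕ :=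
  Bool.rec (motive := fun _ => ℕ) (s359 R i) (s267 R i) (s1705 R i)

theorem e1706 (R : VR) : L (VR.S R) (v1706 R) (s1706 R) 2 :=
  L.sel (e1705 R) (e267 R) (e359 R) (by decide) (by decide) (by decide)

noncomputable def v1707 (R : VR) : ℕ :=
  Nat.xor (v1706 R) (Nat.land (Nat.xor (v1706 R) (v1017 R)) (Nat.mul (Nat.shiftRight (Nat.land
    (Nat.sub (VR.h1 R) (v1703 R)) (VR.h1 R)) (nat_lit 15)) (nat_lit 32767)))

noncomputable def s1707 (R : VR) (i : ℕ) : ℕ :=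
  Bool.rec (motive := fun _ => ℕ) (s1706 R i) (s1017 R i) (s1704 R i)

theorem e1707 (R : VR) : L (VR.S R) (v1707 R) (s1707 R) 3 :=
  L.sel (e1704 R) (e1017 R) (e1706 R) (by decide) (by decide) (by decide)

noncomputable def v1708 (R : VR) : ℕ :=
  Nat.xor (v1707 R) (Nat.land (Nat.xor (v1707 R) (Nat.xor (v511 R) (Nat.land (Nat.xor (v511 R)
    (v359 R)) (Nat.mul (Nat.land (Nat.shiftRight (v1688 R) (nat_lit 10)) (VR.o1 R)) (nat_lit
    32767))))) (Nat.mul (Nat.land (Nat.shiftRight (Nat.land (Nat.sub (VR.h1 R) (Nat.xor (v1690 R)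
    (v1017 R))) (VR.h1 R)) (nat_lit 15)) (Nat.shiftRight (Nat.land (Nat.sub (VR.h1 R) (Nat.xor
    (v1693 R) (v1017 R))) (VR.h1 R)) (nat_lit 15))) (nat_lit 32767)))

noncomputable def s1708 (R : VR) (i : ℕ) : ℕ :=
  Bool.rec (motive := fun _ => ℕ) (s1707 R i) (s1699 R i) (s1697 R i)

theorem e1708 (R : VR) : L (VR.S R) (v1708 R) (s1708 R) 3 :=
  L.sel (e1697 R) (e1699 R) (e1707 R) (by decide) (by decide) (by decide)

noncomputable def v1709 (R : VR) : ℕ :=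
  Nat.xor (v1690 R) (Nat.land (Nat.xor (v1690 R) (v1708 R)) (Nat.mul (Nat.land (v1665 R) (Nat.xor
    (v1672 R) (Nat.land (Nat.xor (v1672 R) (Nat.mod (Nat.land (gmk (VR.h2 R) (VR.J R) (Nat.mul
    (Nat.mod (Nat.land (v1664 R) (v164 R)) (VR.m1 R)) (VR.cr1 R))) (v436 R)) (VR.m1 R))) (v1666
    R)))) (nat_lit 32767)))

noncomputable def s1709 (R : VR) (i : ℕ) : ℕ :=
  Bool.rec (motive := fun _ => ℕ) (s1691 R i) (s1708 R i) (s1675 R i)

theorem e1709 (R : VR) : L (VR.S R) (v1709 R) (s1709 R) 3 :=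
  L.sel (e1675 R) (e1708 R) (e1691 R) (by decide) (by decide) (by decide)

noncomputable def s1710 (R : VR) (i : ℕ) : ℕ :=
  K.Wt_fc (FC7.WF.toWt (VR.WF R)) (s1662 R i) (s1663 R i)

theorem e1710 (R : VR) : L (VR.S R) (v1709 R) (s1710 R) 3 :=
  e1709 R

noncomputable def s1711 (R : VR) (i : ℕ) : ℕ :=
  K.WF_fcl (VR.WF R) (s1472 R i)

theorem e1711 (R : VR) : L (VR.S R) (v1709 R) (s1711 R) 3 :=
  e1710 R

noncomputable def v1712 (R : VR) : ℕ :=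
  Nat.shiftRight (Nat.land (Nat.sub (VR.h1 R) (Nat.xor (v1709 R) (v267 R))) (VR.h1 R)) (nat_lit
    15)

noncomputable def s1712 (R : VR) (i : ℕ) : Bool :=
  Nat.beq (s1711 R i) (s267 R i)

theorem e1712 (R : VR) : B (VR.S R) (v1712 R) (s1712 R) :=
  L.beq (VR.h1e R) (e1711 R) (e267 R)

noncomputable def v1713 (R : VR) : ℕ :=
  Nat.shiftRight (Nat.land (Nat.add (v1596 R) (VR.k1 R)) (VR.h1 R)) (nat_lit 15)

noncomputable def s1713 (R : VR) (i : ℕ) : Bool :=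
  K.bnot (Nat.beq (s1598 R i) (nat_lit 0))

theorem e1713 (R : VR) : B (VR.S R) (v1713 R) (s1713 R) :=
  L.nz (VR.h1e R) (VR.k1e R) (e1598 R)

noncomputable def v1714 (R : VR) : ℕ :=
  Nat.xor (v25 R) (Nat.land (Nat.xor (v25 R) (v1423 R)) (Nat.mul (v1560 R) (nat_lit 32767)))

noncomputable def s1714 (R : VR) (j i : ℕ) : ℕ :=
  Bool.rec (motive := fun _ => ℕ) (s25 R j i) (s1423 R j i) (s1560 R j i)

theorem e1714 (R : VR) : L2 R (v1714 R) (s1714 R) 15 :=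
  L.sel (e1560 R) (e1423 R) (e25 R) (by decide) (by decide) (by decide)

noncomputable def v1715 (R : VR) : ℕ :=
  Nat.mod (Nat.land (Nat.xor (v25 R) (Nat.land (Nat.xor (v25 R) (v1423 R)) (Nat.mul (v1560 R)
    (nat_lit 32767)))) (mM (Nat.mul (v112 R) (VR.S R)))) (VR.m1 R)

noncomputable def s1715 (R : VR) (i : ℕ) : ℕ :=
  K.sumN (s112 R) (fun j => (s1714 R j i))

theorem e1715 (R : VR) : L (VR.S R) (v1715 R) (s1715 R) 1905 :=
  L.sum (e1714 R) (VR.n_le R) (by decide)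

noncomputable def s1716 (R : VR) (i : ℕ) : ℕ :=
  K.sumN (s112 R) (fun (x64 : ℕ) => (Bool.rec (motive := fun _ => ℕ) (nat_lit 0) (FC6.Pa.u
    (FC7.Fc.P' (VR.F R)) x64) (Nat.beq (FC7.OD.pc (FC7.Fc.O (VR.F R)) x64) i)))

theorem e1716 (R : VR) : L (VR.S R) (v1715 R) (s1716 R) 1905 :=
  e1715 R

noncomputable def s1717 (R : VR) (i : ℕ) : ℕ :=
  K.Fc_pu (VR.F R) i

theorem e1717 (R : VR) : L (VR.S R) (v1715 R) (s1717 R) 1905 :=
  e1716 R

noncomputable def v1718 (R : VR) : ℕ :=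
  Nat.shiftRight (Nat.land (Nat.sub (Nat.add (v1715 R) (VR.h1 R)) (v1596 R)) (VR.h1 R)) (nat_lit
    15)

noncomputable def s1718 (R : VR) (i : ℕ) : Bool :=
  Nat.ble (s1598 R i) (s1717 R i)

theorem e1718 (R : VR) : B (VR.S R) (v1718 R) (s1718 R) :=
  L.ble (VR.h1e R) (e1598 R) (e1717 R)

noncomputable def v1719 (R : VR) : ℕ :=
  Nat.land (Nat.shiftRight (Nat.land (Nat.add (v1596 R) (VR.k1 R)) (VR.h1 R)) (nat_lit 15))
    (Nat.shiftRight (Nat.land (Nat.sub (Nat.add (v1715 R) (VR.h1 R)) (v1596 R)) (VR.h1 R))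
    (nat_lit 15))

noncomputable def s1719 (R : VR) (i : ℕ) : Bool :=
  K.band (s1713 R i) (s1718 R i)

theorem e1719 (R : VR) : B (VR.S R) (v1719 R) (s1719 R) :=
  B.and (e1713 R) (e1718 R)

noncomputable def v1720 (R : VR) : ℕ :=
  Nat.lor (v1712 R) (Nat.land (Nat.shiftRight (Nat.land (Nat.add (v1596 R) (VR.k1 R)) (VR.h1 R))
    (nat_lit 15)) (Nat.shiftRight (Nat.land (Nat.sub (Nat.add (v1715 R) (VR.h1 R)) (v1596 R))
    (VR.h1 R)) (nat_lit 15)))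

noncomputable def s1720 (R : VR) (i : ℕ) : Bool :=
  K.bor (s1712 R i) (s1719 R i)

theorem e1720 (R : VR) : B (VR.S R) (v1720 R) (s1720 R) :=
  B.or (e1712 R) (e1719 R)

noncomputable def v1721 (R : VR) : ℕ :=
  Nat.land (v1661 R) (Nat.lor (v1712 R) (Nat.land (Nat.shiftRight (Nat.land (Nat.add (v1596 R)
    (VR.k1 R)) (VR.h1 R)) (nat_lit 15)) (Nat.shiftRight (Nat.land (Nat.sub (Nat.add (v1715 R)
    (VR.h1 R)) (v1596 R)) (VR.h1 R)) (nat_lit 15))))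

noncomputable def s1721 (R : VR) (i : ℕ) : Bool :=
  K.band (s1661 R i) (s1720 R i)

theorem e1721 (R : VR) : B (VR.S R) (v1721 R) (s1721 R) :=
  B.and (e1661 R) (e1720 R)

noncomputable def v1722 (R : VR) : ℕ :=
  Nat.lor (Nat.sub (VR.o1 R) (v1470 R)) (Nat.land (v1661 R) (Nat.lor (v1712 R) (Nat.land
    (Nat.shiftRight (Nat.land (Nat.add (v1596 R) (VR.k1 R)) (VR.h1 R)) (nat_lit 15))
    (Nat.shiftRight (Nat.land (Nat.sub (Nat.add (v1715 R) (VR.h1 R)) (v1596 R)) (VR.h1 R))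
    (nat_lit 15)))))

noncomputable def s1722 (R : VR) (i : ℕ) : Bool :=
  K.bor (s1471 R i) (s1721 R i)

theorem e1722 (R : VR) : B (VR.S R) (v1722 R) (s1722 R) :=
  B.or (e1471 R) (e1721 R)

noncomputable def v1723 (R : VR) : Bool :=
  Nat.beq (Nat.land (Nat.sub (VR.o1 R) (Nat.lor (Nat.sub (VR.o1 R) (v1470 R)) (Nat.land (v1661 R)
    (Nat.lor (v1712 R) (Nat.land (Nat.shiftRight (Nat.land (Nat.add (v1596 R) (VR.k1 R)) (VR.h1
    R)) (nat_lit 15)) (Nat.shiftRight (Nat.land (Nat.sub (Nat.add (v1715 R) (VR.h1 R)) (v1596 R))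
    (VR.h1 R)) (nat_lit 15))))))) (mM (v1468 R))) (nat_lit 0)

noncomputable def s1723 (R : VR) : Bool :=
  K.allN (s1468 R) (s1722 R)

theorem e1723 (R : VR) : (v1723 R) = s1723 R :=
  all0 (e1722 R) (VR.p_le R)

noncomputable def s1724 (R : VR) : Bool :=
  K.allN (s1468 R) (fun (x65 : ℕ) => (K.bor (K.bnot (Nat.beq (FC7.Fc.ty (VR.F R) x65) (nat_lit
    4))) (K.band (K.band (K.band (K.band (K.WF_one (VR.WF R) x65 (FC7.Fc.tj (VR.F R) x65)) (K.bnot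
    (K.sld (VR.P R) (FC7.Fc.tj (VR.F R) x65)))) (K.WF_clo (VR.WF R) x65 (FC7.Fc.tj (VR.F R) x65)))
    (K.bor (K.WF_t4a (VR.WF R) x65 (FC7.Fc.tj (VR.F R) x65)) (K.lmem x65 (VR.t4 R)))) (K.bor
    (Nat.beq (K.WF_fcl (VR.WF R) (FC7.Fc.tj (VR.F R) x65)) (nat_lit 1)) (K.band (K.bnot (Nat.beq
    (K.WF_ku (VR.WF R) (FC7.Fc.tj (VR.F R) x65)) (nat_lit 0))) (Nat.ble (K.WF_ku (VR.WF R)
    (FC7.Fc.tj (VR.F R) x65)) (K.Fc_pu (VR.F R) x65)))))))

theorem e1724 (R : VR) : (v1723 R) = s1724 R :=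
  e1723 R

noncomputable def s1725 (R : VR) : Bool :=
  V2.o4 R

theorem e1725 (R : VR) : (v1723 R) = s1725 R :=
  e1724 R

noncomputable def c_o4 (R : VR) : Bool :=
  (Nat.beq (Nat.land (Nat.sub (VR.o1 R) (Nat.lor (Nat.sub (VR.o1 R) (v1470 R)) (Nat.land (v1661 R)
    (Nat.lor (v1712 R) (Nat.land (Nat.shiftRight (Nat.land (Nat.add (v1596 R) (VR.k1 R)) (VR.h1
    R)) (nat_lit 15)) (Nat.shiftRight (Nat.land (Nat.sub (Nat.add (v1715 R) (VR.h1 R)) (v1596 R))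
    (VR.h1 R)) (nat_lit 15))))))) (mM (v1468 R))) (nat_lit 0))

theorem c_o4_eq (R : VR) : c_o4 R = (V2.o4 R) :=
  e1725 R

noncomputable def v1726 (R : VR) : ℕ :=
  Nat.shiftRight (Nat.land (Nat.sub (VR.h1 R) (Nat.xor (VR.tyT R) (v1017 R))) (VR.h1 R)) (nat_lit
    15)

noncomputable def s1726 (R : VR) (i : ℕ) : Bool :=
  Nat.beq (s1469 R i) (s1017 R i)

theorem e1726 (R : VR) : B (VR.S R) (v1726 R) (s1726 R) :=
  L.beq (VR.h1e R) (e1469 R) (e1017 R)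

noncomputable def v1727 (R : VR) : ℕ :=
  Nat.sub (VR.o1 R) (v1726 R)

noncomputable def s1727 (R : VR) (i : ℕ) : Bool :=
  K.bnot (s1726 R i)

theorem e1727 (R : VR) : B (VR.S R) (v1727 R) (s1727 R) :=
  B.not (VR.o1e R) (e1726 R)

noncomputable def s1728 (R : VR) (i : ℕ) : Bool :=
  tf (VR.mtT R) i

theorem e1728 (R : VR) : B (VR.S R) (VR.mtT R) (s1728 R) :=
  VR.mt_is R

noncomputable def v1729 (R : VR) : ℕ :=
  Nat.lor (Nat.sub (VR.o1 R) (v1726 R)) (VR.mtT R)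

noncomputable def s1729 (R : VR) (i : ℕ) : Bool :=
  K.bor (s1727 R i) (s1728 R i)

theorem e1729 (R : VR) : B (VR.S R) (v1729 R) (s1729 R) :=
  B.or (e1727 R) (e1728 R)

noncomputable def v1730 (R : VR) : ℕ :=
  Nat.add (v1017 R) (v1596 R)

noncomputable def s1730 (R : VR) (i : ℕ) : ℕ :=
  Nat.add (s1017 R i) (s1598 R i)

theorem e1730 (R : VR) : L (VR.S R) (v1730 R) (s1730 R) 1908 :=
  L.add (e1017 R) (e1598 R) (by decide)

noncomputable def v1731 (R : VR) : ℕ :=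
  Nat.shiftRight (Nat.land (Nat.sub (VR.h1 R) (Nat.xor (v1709 R) (v359 R))) (VR.h1 R)) (nat_lit
    15)

noncomputable def s1731 (R : VR) (i : ℕ) : Bool :=
  Nat.beq (s1711 R i) (s359 R i)

theorem e1731 (R : VR) : B (VR.S R) (v1731 R) (s1731 R) :=
  L.beq (VR.h1e R) (e1711 R) (e359 R)

noncomputable def v1732 (R : VR) : ℕ :=
  Nat.xor (v511 R) (Nat.land (Nat.xor (v511 R) (v359 R)) (Nat.mul (v1712 R) (nat_lit 32767)))

noncomputable def s1732 (R : VR) (i : ℕ) : ℕ :=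
  Bool.rec (motive := fun _ => ℕ) (s511 R i) (s359 R i) (s1712 R i)

theorem e1732 (R : VR) : L (VR.S R) (v1732 R) (s1732 R) 2 :=
  L.sel (e1712 R) (e359 R) (e511 R) (by decide) (by decide) (by decide)

noncomputable def v1733 (R : VR) : ℕ :=
  Nat.xor (v1732 R) (Nat.land (Nat.xor (v1732 R) (v1017 R)) (Nat.mul (Nat.shiftRight (Nat.land
    (Nat.sub (VR.h1 R) (Nat.xor (v1709 R) (v359 R))) (VR.h1 R)) (nat_lit 15)) (nat_lit 32767)))

noncomputable def s1733 (R : VR) (i : ℕ) : ℕ :=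
  Bool.rec (motive := fun _ => ℕ) (s1732 R i) (s1017 R i) (s1731 R i)

theorem e1733 (R : VR) : L (VR.S R) (v1733 R) (s1733 R) 3 :=
  L.sel (e1731 R) (e1017 R) (e1732 R) (by decide) (by decide) (by decide)

noncomputable def s1734 (R : VR) (i : ℕ) : ℕ :=
  K.WF_lw (s1711 R i)

theorem e1734 (R : VR) : L (VR.S R) (v1733 R) (s1734 R) 3 :=
  e1733 R

noncomputable def v1735 (R : VR) : ℕ :=
  Nat.xor (v359 R) (Nat.land (Nat.xor (v359 R) (v511 R)) (Nat.mul (v1599 R) (nat_lit 32767)))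

noncomputable def s1735 (R : VR) (i : ℕ) : ℕ :=
  Bool.rec (motive := fun _ => ℕ) (s359 R i) (s511 R i) (s1599 R i)

theorem e1735 (R : VR) : L (VR.S R) (v1735 R) (s1735 R) 2 :=
  L.sel (e1599 R) (e511 R) (e359 R) (by decide) (by decide) (by decide)

noncomputable def v1736 (R : VR) : ℕ :=
  Nat.add (v1735 R) (Vc.ssub (VR.h1 R) (Nat.xor (v1732 R) (Nat.land (Nat.xor (v1732 R) (v1017 R))
    (Nat.mul (Nat.shiftRight (Nat.land (Nat.sub (VR.h1 R) (Nat.xor (v1709 R) (v359 R))) (VR.h1 R))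
    (nat_lit 15)) (nat_lit 32767)))) (v1735 R))

noncomputable def s1736 (R : VR) (i : ℕ) : ℕ :=
  K.kmax (s1734 R i) (s1735 R i)

theorem e1736 (R : VR) : L (VR.S R) (v1736 R) (s1736 R) 3 :=
  L.max (VR.h1e R) (e1734 R) (e1735 R)

noncomputable def s1737 (R : VR) (i : ℕ) : ℕ :=
  K.WF_lwk (VR.WF R) (s1472 R i)

theorem e1737 (R : VR) : L (VR.S R) (v1736 R) (s1737 R) 3 :=
  e1736 R

noncomputable def v1738 (R : VR) : ℕ :=
  Nat.add (Nat.add (v1735 R) (Vc.ssub (VR.h1 R) (Nat.xor (v1732 R) (Nat.land (Nat.xor (v1732 R)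
    (v1017 R)) (Nat.mul (Nat.shiftRight (Nat.land (Nat.sub (VR.h1 R) (Nat.xor (v1709 R) (v359 R)))
    (VR.h1 R)) (nat_lit 15)) (nat_lit 32767)))) (v1735 R))) (v1715 R)

noncomputable def s1738 (R : VR) (i : ℕ) : ℕ :=
  Nat.add (s1737 R i) (s1717 R i)

theorem e1738 (R : VR) : L (VR.S R) (v1738 R) (s1738 R) 1908 :=
  L.add (e1737 R) (e1717 R) (by decide)

noncomputable def v1739 (R : VR) : ℕ :=
  Nat.shiftRight (Nat.land (Nat.sub (Nat.add (Nat.add (Nat.add (v1735 R) (Vc.ssub (VR.h1 R)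
    (Nat.xor (v1732 R) (Nat.land (Nat.xor (v1732 R) (v1017 R)) (Nat.mul (Nat.shiftRight (Nat.land
    (Nat.sub (VR.h1 R) (Nat.xor (v1709 R) (v359 R))) (VR.h1 R)) (nat_lit 15)) (nat_lit 32767))))
    (v1735 R))) (v1715 R)) (VR.h1 R)) (Nat.add (v1017 R) (v1596 R))) (VR.h1 R)) (nat_lit 15)

noncomputable def s1739 (R : VR) (i : ℕ) : Bool :=
  Nat.ble (s1730 R i) (s1738 R i)

theorem e1739 (R : VR) : B (VR.S R) (v1739 R) (s1739 R) :=
  L.ble (VR.h1e R) (e1730 R) (e1738 R)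

noncomputable def v1740 (R : VR) : ℕ :=
  Nat.land (v1571 R) (Nat.shiftRight (Nat.land (Nat.sub (Nat.add (Nat.add (Nat.add (v1735 R)
    (Vc.ssub (VR.h1 R) (Nat.xor (v1732 R) (Nat.land (Nat.xor (v1732 R) (v1017 R)) (Nat.mul
    (Nat.shiftRight (Nat.land (Nat.sub (VR.h1 R) (Nat.xor (v1709 R) (v359 R))) (VR.h1 R)) (nat_lit
    15)) (nat_lit 32767)))) (v1735 R))) (v1715 R)) (VR.h1 R)) (Nat.add (v1017 R) (v1596 R)))
    (VR.h1 R)) (nat_lit 15))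

noncomputable def s1740 (R : VR) (i : ℕ) : Bool :=
  K.band (s1572 R i) (s1739 R i)

theorem e1740 (R : VR) : B (VR.S R) (v1740 R) (s1740 R) :=
  B.and (e1572 R) (e1739 R)

noncomputable def v1741 (R : VR) : ℕ :=
  Nat.lor (Nat.lor (Nat.sub (VR.o1 R) (v1726 R)) (VR.mtT R)) (Nat.land (v1571 R) (Nat.shiftRight
    (Nat.land (Nat.sub (Nat.add (Nat.add (Nat.add (v1735 R) (Vc.ssub (VR.h1 R) (Nat.xor (v1732 R)
    (Nat.land (Nat.xor (v1732 R) (v1017 R)) (Nat.mul (Nat.shiftRight (Nat.land (Nat.sub (VR.h1 R)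
    (Nat.xor (v1709 R) (v359 R))) (VR.h1 R)) (nat_lit 15)) (nat_lit 32767)))) (v1735 R))) (v1715
    R)) (VR.h1 R)) (Nat.add (v1017 R) (v1596 R))) (VR.h1 R)) (nat_lit 15)))

noncomputable def s1741 (R : VR) (i : ℕ) : Bool :=
  K.bor (s1729 R i) (s1740 R i)

theorem e1741 (R : VR) : B (VR.S R) (v1741 R) (s1741 R) :=
  B.or (e1729 R) (e1740 R)

noncomputable def v1742 (R : VR) : Bool :=
  Nat.beq (Nat.land (Nat.sub (VR.o1 R) (v1741 R)) (mM (v1468 R))) (nat_lit 0)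

noncomputable def s1742 (R : VR) : Bool :=
  K.allN (s1468 R) (s1741 R)

theorem e1742 (R : VR) : (v1742 R) = s1742 R :=
  all0 (e1741 R) (VR.p_le R)

noncomputable def s1743 (R : VR) : Bool :=
  K.allN (s1468 R) (fun (x71 : ℕ) => (K.bor (K.bor (K.bnot (Nat.beq (FC7.Fc.ty (VR.F R) x71)
    (nat_lit 3))) (tf (VR.mtT R) x71)) (K.band (K.WF_one (VR.WF R) x71 (FC7.Fc.tj (VR.F R) x71))
    (Nat.ble (Nat.add (nat_lit 3) (K.WF_ku (VR.WF R) (FC7.Fc.tj (VR.F R) x71))) (Nat.add (K.WF_lwk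
    (VR.WF R) (FC7.Fc.tj (VR.F R) x71)) (K.Fc_pu (VR.F R) x71))))))

theorem e1743 (R : VR) : (v1742 R) = s1743 R :=
  e1742 R

noncomputable def s1744 (R : VR) : Bool :=
  V2.o3 R

theorem e1744 (R : VR) : (v1742 R) = s1744 R :=
  e1743 R

noncomputable def c_o3 (R : VR) : Bool :=
  (Nat.beq (Nat.land (Nat.sub (VR.o1 R) (v1741 R)) (mM (v1468 R))) (nat_lit 0))

theorem c_o3_eq (R : VR) : c_o3 R = (V2.o3 R) :=
  e1744 R

noncomputable def v1745 (R : VR) : ℕ :=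
  Nat.sub (VR.o1 R) (VR.ouT R)

noncomputable def s1745 (R : VR) (i : ℕ) : Bool :=
  K.bnot (s1404 R i)

theorem e1745 (R : VR) : B (VR.S R) (v1745 R) (s1745 R) :=
  B.not (VR.o1e R) (e1404 R)

noncomputable def v1746 (R : VR) : ℕ :=
  Nat.mod (Nat.land (v177 R) (v877 R)) (VR.m1 R)

noncomputable def s1746 (R : VR) (i : ℕ) : Bool :=
  tf (VR.realT R) (s171 R i)

theorem e1746 (R : VR) : B (VR.S R) (v1746 R) (s1746 R) :=
  B.gat (e171 R) (VR.real_is R) (VR.real_lt R)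

noncomputable def v1747 (R : VR) : ℕ :=
  Nat.land (VR.realT R) (Nat.mod (Nat.land (v177 R) (v877 R)) (VR.m1 R))

noncomputable def s1747 (R : VR) (i : ℕ) : Bool :=
  K.band (s434 R i) (s1746 R i)

theorem e1747 (R : VR) : B (VR.S R) (v1747 R) (s1747 R) :=
  B.and (e434 R) (e1746 R)

noncomputable def v1748 (R : VR) : ℕ :=
  Nat.mod (Nat.land (v180 R) (v877 R)) (VR.m1 R)

noncomputable def s1748 (R : VR) (i : ℕ) : Bool :=
  tf (VR.realT R) (s179 R i)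

theorem e1748 (R : VR) : B (VR.S R) (v1748 R) (s1748 R) :=
  B.gat (e179 R) (VR.real_is R) (VR.real_lt R)

noncomputable def v1749 (R : VR) : ℕ :=
  Nat.land (v1747 R) (Nat.mod (Nat.land (v180 R) (v877 R)) (VR.m1 R))

noncomputable def s1749 (R : VR) (i : ℕ) : Bool :=
  K.band (s1747 R i) (s1748 R i)

theorem e1749 (R : VR) : B (VR.S R) (v1749 R) (s1749 R) :=
  B.and (e1747 R) (e1748 R)

noncomputable def s1750 (R : VR) (i : ℕ) : Bool :=
  K.sld (VR.P R) i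

theorem e1750 (R : VR) : B (VR.S R) (v1749 R) (s1750 R) :=
  e1749 R

noncomputable def v1751 (R : VR) : ℕ :=
  Nat.shiftRight (Nat.land (Nat.sub (Nat.add (VR.lT R) (VR.h1 R)) (v869 R)) (VR.h1 R)) (nat_lit
    15)

noncomputable def s1751 (R : VR) (i : ℕ) : Bool :=
  Nat.ble (s869 R i) (s7 R i)

theorem e1751 (R : VR) : B (VR.S R) (v1751 R) (s1751 R) :=
  L.ble (VR.h1e R) (e869 R) (e7 R)

noncomputable def v1752 (R : VR) : ℕ :=
  Nat.shiftRight (Nat.land (Nat.sub (Nat.add (v193 R) (VR.h1 R)) (v869 R)) (VR.h1 R)) (nat_lit 15)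

noncomputable def s1752 (R : VR) (i : ℕ) : Bool :=
  Nat.ble (s869 R i) (s193 R i)

theorem e1752 (R : VR) : B (VR.S R) (v1752 R) (s1752 R) :=
  L.ble (VR.h1e R) (e869 R) (e193 R)

noncomputable def v1753 (R : VR) : ℕ :=
  Nat.xor (v1549 R) (Nat.land (Nat.xor (v1549 R) (v193 R)) (Nat.mul (Nat.shiftRight (Nat.land
    (Nat.sub (Nat.add (v193 R) (VR.h1 R)) (v869 R)) (VR.h1 R)) (nat_lit 15)) (nat_lit 32767)))

noncomputable def s1753 (R : VR) (i : ℕ) : ℕ :=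
  Bool.rec (motive := fun _ => ℕ) (s1549 R i) (s193 R i) (s1752 R i)

theorem e1753 (R : VR) : L (VR.S R) (v1753 R) (s1753 R) 29 :=
  L.sel (e1752 R) (e193 R) (e1549 R) (by decide) (by decide) (by decide)

noncomputable def v1754 (R : VR) : ℕ :=
  Nat.xor (v1753 R) (Nat.land (Nat.xor (v1753 R) (VR.lT R)) (Nat.mul (Nat.shiftRight (Nat.land
    (Nat.sub (Nat.add (VR.lT R) (VR.h1 R)) (v869 R)) (VR.h1 R)) (nat_lit 15)) (nat_lit 32767)))

noncomputable def s1754 (R : VR) (i : ℕ) : ℕ :=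
  Bool.rec (motive := fun _ => ℕ) (s1753 R i) (s7 R i) (s1751 R i)

theorem e1754 (R : VR) : L (VR.S R) (v1754 R) (s1754 R) 29 :=
  L.sel (e1751 R) (e7 R) (e1753 R) (by decide) (by decide) (by decide)

noncomputable def s1755 (R : VR) (i : ℕ) : ℕ :=
  K.WF_hb (VR.WF R) i

theorem e1755 (R : VR) : L (VR.S R) (v1754 R) (s1755 R) 29 :=
  e1754 R

noncomputable def v1756 (R : VR) : ℕ :=
  Nat.shiftRight (Nat.land (Nat.sub (Nat.add (v1754 R) (VR.h1 R)) (v869 R)) (VR.h1 R)) (nat_lit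
    15)

noncomputable def s1756 (R : VR) (i : ℕ) : Bool :=
  Nat.ble (s869 R i) (s1755 R i)

theorem e1756 (R : VR) : B (VR.S R) (v1756 R) (s1756 R) :=
  L.ble (VR.h1e R) (e869 R) (e1755 R)

noncomputable def v1757 (R : VR) : ℕ :=
  Nat.shiftRight (Nat.land (Nat.sub (Nat.add (v1333 R) (VR.k1 R)) (v1754 R)) (VR.h1 R)) (nat_lit
    15)

noncomputable def s1757 (R : VR) (i : ℕ) : Bool :=
  Nat.ble (Nat.succ (s1755 R i)) (s1333 R i)

theorem e1757 (R : VR) : B (VR.S R) (v1757 R) (s1757 R) :=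
  L.blt (VR.h1e R) (VR.k1e R) (e1755 R) (e1333 R)

noncomputable def v1758 (R : VR) : ℕ :=
  Nat.land (Nat.shiftRight (Nat.land (Nat.sub (Nat.add (v1754 R) (VR.h1 R)) (v869 R)) (VR.h1 R))
    (nat_lit 15)) (Nat.shiftRight (Nat.land (Nat.sub (Nat.add (v1333 R) (VR.k1 R)) (v1754 R))
    (VR.h1 R)) (nat_lit 15))

noncomputable def s1758 (R : VR) (i : ℕ) : Bool :=
  K.band (s1756 R i) (s1757 R i)

theorem e1758 (R : VR) : B (VR.S R) (v1758 R) (s1758 R) :=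
  B.and (e1756 R) (e1757 R)

noncomputable def v1759 (R : VR) : ℕ :=
  Nat.mul (v1754 R) (VR.cr1 R)

noncomputable def s1759 (R : VR) (j i : ℕ) : ℕ :=
  (s1755 R i)

theorem e1759 (R : VR) : L2 R (v1759 R) (s1759 R) 29 :=
  L2.rep (e1755 R)

noncomputable def v1760 (R : VR) : ℕ :=
  Nat.shiftRight (Nat.land (Nat.sub (VR.h2 R) (Nat.xor (v528 R) (v1759 R))) (VR.h2 R)) (nat_lit
    15)

noncomputable def s1760 (R : VR) (j i : ℕ) : Bool :=
  Nat.beq (s528 R j i) (s1759 R j i)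

theorem e1760 (R : VR) : B2 R (v1760 R) (s1760 R) :=
  L.beq (VR.h2e R) (e528 R) (e1759 R)

noncomputable def v1761 (R : VR) : ℕ :=
  Nat.sub (VR.o2 R) (v1760 R)

noncomputable def s1761 (R : VR) (j i : ℕ) : Bool :=
  K.bnot (s1760 R j i)

theorem e1761 (R : VR) : B2 R (v1761 R) (s1761 R) :=
  B.not (VR.o2e R) (e1760 R)

noncomputable def v1762 (R : VR) : ℕ :=
  gmk (VR.h2 R) (VR.J R) (Nat.mul (v1754 R) (VR.cr1 R))

noncomputable def v1763 (R : VR) : ℕ :=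
  Nat.mod (Nat.land (v1762 R) (v223 R)) (VR.m1 R)

noncomputable def s1763 (R : VR) (i : ℕ) : Bool :=
  tf (VR.cxT R) (s1755 R i)

theorem e1763 (R : VR) : B (VR.S R) (v1763 R) (s1763 R) :=
  B.gat (e1755 R) (VR.cx_is R) (VR.cx_lt R)

noncomputable def v1764 (R : VR) : ℕ :=
  Nat.mul (Nat.mod (Nat.land (v1762 R) (v223 R)) (VR.m1 R)) (VR.cr1 R)

noncomputable def s1764 (R : VR) (j i : ℕ) : Bool :=
  (s1763 R i)

theorem e1764 (R : VR) : B2 R (v1764 R) (s1764 R) :=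
  B2.rep (e1763 R)

noncomputable def v1765 (R : VR) : ℕ :=
  Nat.lor (v940 R) (Nat.mul (Nat.mod (Nat.land (v1762 R) (v223 R)) (VR.m1 R)) (VR.cr1 R))

noncomputable def s1765 (R : VR) (j i : ℕ) : Bool :=
  K.bor (s940 R j i) (s1764 R j i)

theorem e1765 (R : VR) : B2 R (v1765 R) (s1765 R) :=
  B.or (e940 R) (e1764 R)

noncomputable def v1766 (R : VR) : ℕ :=
  Nat.shiftRight (Nat.land (Nat.sub (Nat.add (v869 R) (VR.k1 R)) (v1754 R)) (VR.h1 R)) (nat_lit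
    15)

noncomputable def s1766 (R : VR) (i : ℕ) : Bool :=
  Nat.ble (Nat.succ (s1755 R i)) (s869 R i)

theorem e1766 (R : VR) : B (VR.S R) (v1766 R) (s1766 R) :=
  L.blt (VR.h1e R) (VR.k1e R) (e1755 R) (e869 R)

noncomputable def v1767 (R : VR) : ℕ :=
  Nat.mul (Nat.shiftRight (Nat.land (Nat.sub (Nat.add (v869 R) (VR.k1 R)) (v1754 R)) (VR.h1 R))
    (nat_lit 15)) (VR.cr1 R)

noncomputable def s1767 (R : VR) (j i : ℕ) : Bool :=
  (s1766 R i)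

theorem e1767 (R : VR) : B2 R (v1767 R) (s1767 R) :=
  B2.rep (e1766 R)

noncomputable def v1768 (R : VR) : ℕ :=
  Nat.sub (VR.o2 R) (Nat.xor (v943 R) (Nat.mul (Nat.shiftRight (Nat.land (Nat.sub (Nat.add (v869
    R) (VR.k1 R)) (v1754 R)) (VR.h1 R)) (nat_lit 15)) (VR.cr1 R)))

noncomputable def s1768 (R : VR) (j i : ℕ) : Bool :=
  K.beqB (s943 R j i) (s1767 R j i)

theorem e1768 (R : VR) : B2 R (v1768 R) (s1768 R) :=
  B.beqB (VR.o2e R) (e943 R) (e1767 R)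

noncomputable def v1769 (R : VR) : ℕ :=
  Nat.sub (VR.o2 R) (Nat.sub (VR.o2 R) (Nat.xor (v943 R) (Nat.mul (Nat.shiftRight (Nat.land
    (Nat.sub (Nat.add (v869 R) (VR.k1 R)) (v1754 R)) (VR.h1 R)) (nat_lit 15)) (VR.cr1 R))))

noncomputable def s1769 (R : VR) (j i : ℕ) : Bool :=
  K.bnot (s1768 R j i)

theorem e1769 (R : VR) : B2 R (v1769 R) (s1769 R) :=
  B.not (VR.o2e R) (e1768 R)

noncomputable def v1770 (R : VR) : ℕ :=
  Nat.lor (Nat.lor (v940 R) (Nat.mul (Nat.mod (Nat.land (v1762 R) (v223 R)) (VR.m1 R)) (VR.cr1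
    R))) (Nat.sub (VR.o2 R) (Nat.sub (VR.o2 R) (Nat.xor (v943 R) (Nat.mul (Nat.shiftRight
    (Nat.land (Nat.sub (Nat.add (v869 R) (VR.k1 R)) (v1754 R)) (VR.h1 R)) (nat_lit 15)) (VR.cr1
    R)))))

noncomputable def s1770 (R : VR) (j i : ℕ) : Bool :=
  K.bor (s1765 R j i) (s1769 R j i)

theorem e1770 (R : VR) : B2 R (v1770 R) (s1770 R) :=
  B.or (e1765 R) (e1769 R)

noncomputable def v1771 (R : VR) : ℕ :=
  Nat.mod (Nat.land (v1762 R) (v21 R)) (VR.m1 R)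

noncomputable def s1771 (R : VR) (i : ℕ) : ℕ :=
  tx (VR.pw1T R) (s1755 R i)

theorem e1771 (R : VR) : L (VR.S R) (v1771 R) (s1771 R) 16384 :=
  L.gat (e1755 R) (VR.pw1_is R) (VR.pw1_lt R) (VR.pw1_le R)

noncomputable def v1772 (R : VR) : ℕ :=
  Nat.mul (Nat.mod (Nat.land (v1762 R) (v21 R)) (VR.m1 R)) (VR.cr1 R)

noncomputable def s1772 (R : VR) (j i : ℕ) : ℕ :=
  (s1771 R i)

theorem e1772 (R : VR) : L2 R (v1772 R) (s1772 R) 16384 :=
  L2.rep (e1771 R)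

noncomputable def v1773 (R : VR) : ℕ :=
  Nat.land (v1349 R) (v1772 R)

noncomputable def s1773 (R : VR) (j i : ℕ) : ℕ :=
  Nat.land (s1349 R j i) (s1772 R j i)

theorem e1773 (R : VR) : L2 R (v1773 R) (s1773 R) 32767 :=
  L.land (e1349 R) (e1772 R)

noncomputable def v1774 (R : VR) : ℕ :=
  Nat.shiftRight (Nat.land (Nat.sub (VR.h2 R) (v1773 R)) (VR.h2 R)) (nat_lit 15)

noncomputable def s1774 (R : VR) (j i : ℕ) : Bool :=
  Nat.beq (s1773 R j i) (nat_lit 0)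

theorem e1774 (R : VR) : B2 R (v1774 R) (s1774 R) :=
  L.ez (VR.h2e R) (e1773 R)

noncomputable def v1775 (R : VR) : ℕ :=
  Nat.shiftRight (Nat.land (Nat.add (v1773 R) (VR.k2 R)) (VR.h2 R)) (nat_lit 15)

noncomputable def s1775 (R : VR) (j i : ℕ) : Bool :=
  K.bnot (Nat.beq (s1773 R j i) (nat_lit 0))

theorem e1775 (R : VR) : B2 R (v1775 R) (s1775 R) :=
  L.nz (VR.h2e R) (VR.k2e R) (e1773 R)

noncomputable def v1776 (R : VR) : ℕ :=
  Nat.mod (Nat.land (v1762 R) (v38 R)) (VR.m1 R)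

noncomputable def s1776 (R : VR) (i : ℕ) : ℕ :=
  tx (VR.pw2T R) (s1755 R i)

theorem e1776 (R : VR) : L (VR.S R) (v1776 R) (s1776 R) 16384 :=
  L.gat (e1755 R) (VR.pw2_is R) (VR.pw2_lt R) (VR.pw2_le R)

noncomputable def v1777 (R : VR) : ℕ :=
  Nat.mul (Nat.mod (Nat.land (v1762 R) (v38 R)) (VR.m1 R)) (VR.cr1 R)

noncomputable def s1777 (R : VR) (j i : ℕ) : ℕ :=
  (s1776 R i)

theorem e1777 (R : VR) : L2 R (v1777 R) (s1777 R) 16384 :=
  L2.rep (e1776 R)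

noncomputable def v1778 (R : VR) : ℕ :=
  Nat.land (v1355 R) (v1777 R)

noncomputable def s1778 (R : VR) (j i : ℕ) : ℕ :=
  Nat.land (s1355 R j i) (s1777 R j i)

theorem e1778 (R : VR) : L2 R (v1778 R) (s1778 R) 32767 :=
  L.land (e1355 R) (e1777 R)

noncomputable def v1779 (R : VR) : ℕ :=
  Nat.shiftRight (Nat.land (Nat.sub (VR.h2 R) (v1778 R)) (VR.h2 R)) (nat_lit 15)

noncomputable def s1779 (R : VR) (j i : ℕ) : Bool :=
  Nat.beq (s1778 R j i) (nat_lit 0)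

theorem e1779 (R : VR) : B2 R (v1779 R) (s1779 R) :=
  L.ez (VR.h2e R) (e1778 R)

noncomputable def v1780 (R : VR) : ℕ :=
  Nat.shiftRight (Nat.land (Nat.add (v1778 R) (VR.k2 R)) (VR.h2 R)) (nat_lit 15)

noncomputable def s1780 (R : VR) (j i : ℕ) : Bool :=
  K.bnot (Nat.beq (s1778 R j i) (nat_lit 0))

theorem e1780 (R : VR) : B2 R (v1780 R) (s1780 R) :=
  L.nz (VR.h2e R) (VR.k2e R) (e1778 R)

noncomputable def v1781 (R : VR) : ℕ :=
  Nat.lor (Nat.shiftRight (Nat.land (Nat.add (v1773 R) (VR.k2 R)) (VR.h2 R)) (nat_lit 15))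
    (Nat.shiftRight (Nat.land (Nat.add (v1778 R) (VR.k2 R)) (VR.h2 R)) (nat_lit 15))

noncomputable def s1781 (R : VR) (j i : ℕ) : Bool :=
  K.bor (s1775 R j i) (s1780 R j i)

theorem e1781 (R : VR) : B2 R (v1781 R) (s1781 R) :=
  B.or (e1775 R) (e1780 R)

noncomputable def s1782 (R : VR) (j i : ℕ) : Bool :=
  V2.mk R (s947 R j) (s948 R j) (s1755 R i)

theorem e1782 (R : VR) : B2 R (v1781 R) (s1782 R) :=
  e1781 R

noncomputable def v1783 (R : VR) : ℕ :=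
  Nat.lor (Nat.lor (Nat.lor (v940 R) (Nat.mul (Nat.mod (Nat.land (v1762 R) (v223 R)) (VR.m1 R))
    (VR.cr1 R))) (Nat.sub (VR.o2 R) (Nat.sub (VR.o2 R) (Nat.xor (v943 R) (Nat.mul (Nat.shiftRight
    (Nat.land (Nat.sub (Nat.add (v869 R) (VR.k1 R)) (v1754 R)) (VR.h1 R)) (nat_lit 15)) (VR.cr1
    R)))))) (Nat.lor (Nat.shiftRight (Nat.land (Nat.add (v1773 R) (VR.k2 R)) (VR.h2 R)) (nat_lit
    15)) (Nat.shiftRight (Nat.land (Nat.add (v1778 R) (VR.k2 R)) (VR.h2 R)) (nat_lit 15)))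

noncomputable def s1783 (R : VR) (j i : ℕ) : Bool :=
  K.bor (s1770 R j i) (s1782 R j i)

theorem e1783 (R : VR) : B2 R (v1783 R) (s1783 R) :=
  B.or (e1770 R) (e1782 R)

noncomputable def v1784 (R : VR) : ℕ :=
  Nat.land (Nat.sub (VR.o2 R) (v1760 R)) (v1783 R)

noncomputable def s1784 (R : VR) (j i : ℕ) : Bool :=
  K.band (s1761 R j i) (s1783 R j i)

theorem e1784 (R : VR) : B2 R (v1784 R) (s1784 R) :=
  B.and (e1761 R) (e1783 R)

noncomputable def s1785 (R : VR) (j i : ℕ) : Bool :=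
  V2.dis R j (s1755 R i)

theorem e1785 (R : VR) : B2 R (v1784 R) (s1785 R) :=
  e1784 R

noncomputable def s1786 (R : VR) (j i : ℕ) : Bool :=
  K.WF_dis (VR.WF R) j (s1755 R i)

theorem e1786 (R : VR) : B2 R (v1784 R) (s1786 R) :=
  B.of_eq (e1785 R) (fun t ht => V2.dis_eq R (t / VR.S R) (s1755 R (t % VR.S R)))

noncomputable def v1787 (R : VR) : ℕ :=
  Nat.lor (v1760 R) (Nat.land (Nat.sub (VR.o2 R) (v1760 R)) (v1783 R))

noncomputable def s1787 (R : VR) (j i : ℕ) : Bool :=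
  K.bor (s1760 R j i) (s1786 R j i)

theorem e1787 (R : VR) : B2 R (v1787 R) (s1787 R) :=
  B.or (e1760 R) (e1786 R)

noncomputable def v1788 (R : VR) : ℕ :=
  Nat.shiftRight (Nat.land (Nat.sub (VR.h1 R) (Nat.mod (Nat.land (Nat.sub (VR.o2 R) (Nat.lor
    (v1760 R) (Nat.land (Nat.sub (VR.o2 R) (v1760 R)) (v1783 R)))) (mM (Nat.mul (v866 R) (VR.S
    R)))) (VR.m1 R))) (VR.h1 R)) (nat_lit 15)

noncomputable def s1788 (R : VR) (i : ℕ) : Bool :=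
  K.allN (s866 R) (fun j => (s1787 R j i))

theorem e1788 (R : VR) : B (VR.S R) (v1788 R) (s1788 R) :=
  B.all (e1787 R) (VR.nl_le R)

noncomputable def s1789 (R : VR) (i : ℕ) : Bool :=
  K.allN (s866 R) (fun (x72 : ℕ) => (K.bor (Nat.beq x72 (s1755 R i)) (K.WF_dis (VR.WF R) x72
    (s1755 R i))))

theorem e1789 (R : VR) : B (VR.S R) (v1788 R) (s1789 R) :=
  e1788 R

noncomputable def v1790 (R : VR) : ℕ :=
  Nat.land (Nat.land (Nat.shiftRight (Nat.land (Nat.sub (Nat.add (v1754 R) (VR.h1 R)) (v869 R))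
    (VR.h1 R)) (nat_lit 15)) (Nat.shiftRight (Nat.land (Nat.sub (Nat.add (v1333 R) (VR.k1 R))
    (v1754 R)) (VR.h1 R)) (nat_lit 15))) (Nat.shiftRight (Nat.land (Nat.sub (VR.h1 R) (Nat.mod
    (Nat.land (Nat.sub (VR.o2 R) (Nat.lor (v1760 R) (Nat.land (Nat.sub (VR.o2 R) (v1760 R)) (v1783
    R)))) (mM (Nat.mul (v866 R) (VR.S R)))) (VR.m1 R))) (VR.h1 R)) (nat_lit 15))

noncomputable def s1790 (R : VR) (i : ℕ) : Bool :=
  K.band (s1758 R i) (s1789 R i)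

theorem e1790 (R : VR) : B (VR.S R) (v1790 R) (s1790 R) :=
  B.and (e1758 R) (e1789 R)

noncomputable def s1791 (R : VR) (i : ℕ) : Bool :=
  K.WF_hub (VR.WF R) (s1755 R i)

theorem e1791 (R : VR) : B (VR.S R) (v1790 R) (s1791 R) :=
  e1790 R

noncomputable def v1792 (R : VR) : ℕ :=
  Nat.shiftRight (Nat.land (Nat.sub (VR.h1 R) (Nat.xor (VR.lT R) (v1754 R))) (VR.h1 R)) (nat_lit
    15)

noncomputable def s1792 (R : VR) (i : ℕ) : Bool :=
  Nat.beq (s7 R i) (s1755 R i)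

theorem e1792 (R : VR) : B (VR.S R) (v1792 R) (s1792 R) :=
  L.beq (VR.h1e R) (e7 R) (e1755 R)

noncomputable def v1793 (R : VR) : ℕ :=
  Nat.shiftRight (Nat.land (Nat.sub (VR.h1 R) (Nat.xor (v193 R) (v1754 R))) (VR.h1 R)) (nat_lit
    15)

noncomputable def s1793 (R : VR) (i : ℕ) : Bool :=
  Nat.beq (s193 R i) (s1755 R i)

theorem e1793 (R : VR) : B (VR.S R) (v1793 R) (s1793 R) :=
  L.beq (VR.h1e R) (e193 R) (e1755 R)

noncomputable def v1794 (R : VR) : ℕ :=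
  Nat.lor (Nat.shiftRight (Nat.land (Nat.sub (VR.h1 R) (Nat.xor (VR.lT R) (v1754 R))) (VR.h1 R))
    (nat_lit 15)) (Nat.shiftRight (Nat.land (Nat.sub (VR.h1 R) (Nat.xor (v193 R) (v1754 R)))
    (VR.h1 R)) (nat_lit 15))

noncomputable def s1794 (R : VR) (i : ℕ) : Bool :=
  K.bor (s1792 R i) (s1793 R i)

theorem e1794 (R : VR) : B (VR.S R) (v1794 R) (s1794 R) :=
  B.or (e1792 R) (e1793 R)

noncomputable def v1795 (R : VR) : ℕ :=
  Nat.shiftRight (Nat.land (Nat.sub (VR.h1 R) (Nat.xor (v1549 R) (v1754 R))) (VR.h1 R)) (nat_lit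
    15)

noncomputable def s1795 (R : VR) (i : ℕ) : Bool :=
  Nat.beq (s1549 R i) (s1755 R i)

theorem e1795 (R : VR) : B (VR.S R) (v1795 R) (s1795 R) :=
  L.beq (VR.h1e R) (e1549 R) (e1755 R)

noncomputable def v1796 (R : VR) : ℕ :=
  Nat.lor (Nat.lor (Nat.shiftRight (Nat.land (Nat.sub (VR.h1 R) (Nat.xor (VR.lT R) (v1754 R)))
    (VR.h1 R)) (nat_lit 15)) (Nat.shiftRight (Nat.land (Nat.sub (VR.h1 R) (Nat.xor (v193 R) (v1754
    R))) (VR.h1 R)) (nat_lit 15))) (Nat.shiftRight (Nat.land (Nat.sub (VR.h1 R) (Nat.xor (v1549 R)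
    (v1754 R))) (VR.h1 R)) (nat_lit 15))

noncomputable def s1796 (R : VR) (i : ℕ) : Bool :=
  K.bor (s1794 R i) (s1795 R i)

theorem e1796 (R : VR) : B (VR.S R) (v1796 R) (s1796 R) :=
  B.or (e1794 R) (e1795 R)

noncomputable def s1797 (R : VR) (i : ℕ) : Bool :=
  K.inb (VR.P R) (s1755 R i) i

theorem e1797 (R : VR) : B (VR.S R) (v1796 R) (s1797 R) :=
  e1796 R

noncomputable def v1798 (R : VR) : ℕ :=
  Nat.land (v1790 R) (Nat.lor (Nat.lor (Nat.shiftRight (Nat.land (Nat.sub (VR.h1 R) (Nat.xor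
    (VR.lT R) (v1754 R))) (VR.h1 R)) (nat_lit 15)) (Nat.shiftRight (Nat.land (Nat.sub (VR.h1 R)
    (Nat.xor (v193 R) (v1754 R))) (VR.h1 R)) (nat_lit 15))) (Nat.shiftRight (Nat.land (Nat.sub
    (VR.h1 R) (Nat.xor (v1549 R) (v1754 R))) (VR.h1 R)) (nat_lit 15)))

noncomputable def s1798 (R : VR) (i : ℕ) : Bool :=
  K.band (s1791 R i) (s1797 R i)

theorem e1798 (R : VR) : B (VR.S R) (v1798 R) (s1798 R) :=
  B.and (e1791 R) (e1797 R)

noncomputable def v1799 (R : VR) : ℕ :=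
  Nat.lor (v1749 R) (Nat.land (v1790 R) (Nat.lor (Nat.lor (Nat.shiftRight (Nat.land (Nat.sub
    (VR.h1 R) (Nat.xor (VR.lT R) (v1754 R))) (VR.h1 R)) (nat_lit 15)) (Nat.shiftRight (Nat.land
    (Nat.sub (VR.h1 R) (Nat.xor (v193 R) (v1754 R))) (VR.h1 R)) (nat_lit 15))) (Nat.shiftRight
    (Nat.land (Nat.sub (VR.h1 R) (Nat.xor (v1549 R) (v1754 R))) (VR.h1 R)) (nat_lit 15))))

noncomputable def s1799 (R : VR) (i : ℕ) : Bool :=
  K.bor (s1750 R i) (s1798 R i)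

theorem e1799 (R : VR) : B (VR.S R) (v1799 R) (s1799 R) :=
  B.or (e1750 R) (e1798 R)

noncomputable def v1800 (R : VR) : ℕ :=
  Nat.land (v860 R) (Nat.lor (v1749 R) (Nat.land (v1790 R) (Nat.lor (Nat.lor (Nat.shiftRight
    (Nat.land (Nat.sub (VR.h1 R) (Nat.xor (VR.lT R) (v1754 R))) (VR.h1 R)) (nat_lit 15))
    (Nat.shiftRight (Nat.land (Nat.sub (VR.h1 R) (Nat.xor (v193 R) (v1754 R))) (VR.h1 R)) (nat_lit
    15))) (Nat.shiftRight (Nat.land (Nat.sub (VR.h1 R) (Nat.xor (v1549 R) (v1754 R))) (VR.h1 R))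
    (nat_lit 15)))))

noncomputable def s1800 (R : VR) (i : ℕ) : Bool :=
  K.band (s860 R i) (s1799 R i)

theorem e1800 (R : VR) : B (VR.S R) (v1800 R) (s1800 R) :=
  B.and (e860 R) (e1799 R)

noncomputable def v1801 (R : VR) : ℕ :=
  Nat.shiftRight (Nat.land (Nat.sub (VR.h2 R) (Nat.xor (v528 R) (v12 R))) (VR.h2 R)) (nat_lit 15)

noncomputable def s1801 (R : VR) (j i : ℕ) : Bool :=
  Nat.beq (s528 R j i) (s12 R j i)

theorem e1801 (R : VR) : B2 R (v1801 R) (s1801 R) :=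
  L.beq (VR.h2e R) (e528 R) (e12 R)

noncomputable def v1802 (R : VR) : ℕ :=
  Nat.mul (VR.phiT R) (VR.cr1 R)

noncomputable def s1802 (R : VR) (j i : ℕ) : ℕ :=
  (s171 R i)

theorem e1802 (R : VR) : L2 R (v1802 R) (s1802 R) 255 :=
  L2.rep (e171 R)

noncomputable def v1803 (R : VR) : ℕ :=
  Nat.shiftRight (Nat.land (Nat.sub (VR.h2 R) (Nat.xor (v528 R) (Nat.mul (VR.phiT R) (VR.cr1 R))))
    (VR.h2 R)) (nat_lit 15)

noncomputable def s1803 (R : VR) (j i : ℕ) : Bool :=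
  Nat.beq (s528 R j i) (s1802 R j i)

theorem e1803 (R : VR) : B2 R (v1803 R) (s1803 R) :=
  L.beq (VR.h2e R) (e528 R) (e1802 R)

noncomputable def v1804 (R : VR) : ℕ :=
  Nat.lor (Nat.shiftRight (Nat.land (Nat.sub (VR.h2 R) (Nat.xor (v528 R) (v12 R))) (VR.h2 R))
    (nat_lit 15)) (Nat.shiftRight (Nat.land (Nat.sub (VR.h2 R) (Nat.xor (v528 R) (Nat.mul (VR.phiT
    R) (VR.cr1 R)))) (VR.h2 R)) (nat_lit 15))

noncomputable def s1804 (R : VR) (j i : ℕ) : Bool :=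
  K.bor (s1801 R j i) (s1803 R j i)

theorem e1804 (R : VR) : B2 R (v1804 R) (s1804 R) :=
  B.or (e1801 R) (e1803 R)

noncomputable def v1805 (R : VR) : ℕ :=
  Nat.mul (v179 R) (VR.cr1 R)

noncomputable def s1805 (R : VR) (j i : ℕ) : ℕ :=
  (s179 R i)

theorem e1805 (R : VR) : L2 R (v1805 R) (s1805 R) 255 :=
  L2.rep (e179 R)

noncomputable def v1806 (R : VR) : ℕ :=
  Nat.shiftRight (Nat.land (Nat.sub (VR.h2 R) (Nat.xor (v528 R) (Nat.mul (v179 R) (VR.cr1 R))))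
    (VR.h2 R)) (nat_lit 15)

noncomputable def s1806 (R : VR) (j i : ℕ) : Bool :=
  Nat.beq (s528 R j i) (s1805 R j i)

theorem e1806 (R : VR) : B2 R (v1806 R) (s1806 R) :=
  L.beq (VR.h2e R) (e528 R) (e1805 R)

noncomputable def v1807 (R : VR) : ℕ :=
  Nat.lor (Nat.lor (Nat.shiftRight (Nat.land (Nat.sub (VR.h2 R) (Nat.xor (v528 R) (v12 R))) (VR.h2
    R)) (nat_lit 15)) (Nat.shiftRight (Nat.land (Nat.sub (VR.h2 R) (Nat.xor (v528 R) (Nat.mul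
    (VR.phiT R) (VR.cr1 R)))) (VR.h2 R)) (nat_lit 15))) (Nat.shiftRight (Nat.land (Nat.sub (VR.h2
    R) (Nat.xor (v528 R) (Nat.mul (v179 R) (VR.cr1 R)))) (VR.h2 R)) (nat_lit 15))

noncomputable def s1807 (R : VR) (j i : ℕ) : Bool :=
  K.bor (s1804 R j i) (s1806 R j i)

theorem e1807 (R : VR) : B2 R (v1807 R) (s1807 R) :=
  B.or (e1804 R) (e1806 R)

noncomputable def v1808 (R : VR) : ℕ :=
  Nat.shiftRight (Nat.land (Nat.sub (VR.h2 R) (Nat.xor (v1137 R) (v1759 R))) (VR.h2 R)) (nat_lit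
    15)

noncomputable def s1808 (R : VR) (j i : ℕ) : Bool :=
  Nat.beq (s1137 R j i) (s1759 R j i)

theorem e1808 (R : VR) : B2 R (v1808 R) (s1808 R) :=
  L.beq (VR.h2e R) (e1137 R) (e1759 R)

noncomputable def v1809 (R : VR) : ℕ :=
  Nat.shiftRight (Nat.land (Nat.sub (VR.h2 R) (Nat.xor (v1178 R) (v1759 R))) (VR.h2 R)) (nat_lit
    15)

noncomputable def s1809 (R : VR) (j i : ℕ) : Bool :=
  Nat.beq (s1178 R j i) (s1759 R j i)

theorem e1809 (R : VR) : B2 R (v1809 R) (s1809 R) :=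
  L.beq (VR.h2e R) (e1178 R) (e1759 R)

noncomputable def v1810 (R : VR) : ℕ :=
  Nat.lor (Nat.shiftRight (Nat.land (Nat.sub (VR.h2 R) (Nat.xor (v1137 R) (v1759 R))) (VR.h2 R))
    (nat_lit 15)) (Nat.shiftRight (Nat.land (Nat.sub (VR.h2 R) (Nat.xor (v1178 R) (v1759 R)))
    (VR.h2 R)) (nat_lit 15))

noncomputable def s1810 (R : VR) (j i : ℕ) : Bool :=
  K.bor (s1808 R j i) (s1809 R j i)

theorem e1810 (R : VR) : B2 R (v1810 R) (s1810 R) :=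
  B.or (e1808 R) (e1809 R)

noncomputable def v1811 (R : VR) : ℕ :=
  Nat.shiftRight (Nat.land (Nat.sub (VR.h2 R) (Nat.xor (v1550 R) (v1759 R))) (VR.h2 R)) (nat_lit
    15)

noncomputable def s1811 (R : VR) (j i : ℕ) : Bool :=
  Nat.beq (s1550 R j i) (s1759 R j i)

theorem e1811 (R : VR) : B2 R (v1811 R) (s1811 R) :=
  L.beq (VR.h2e R) (e1550 R) (e1759 R)

noncomputable def v1812 (R : VR) : ℕ :=
  Nat.lor (Nat.lor (Nat.shiftRight (Nat.land (Nat.sub (VR.h2 R) (Nat.xor (v1137 R) (v1759 R)))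
    (VR.h2 R)) (nat_lit 15)) (Nat.shiftRight (Nat.land (Nat.sub (VR.h2 R) (Nat.xor (v1178 R)
    (v1759 R))) (VR.h2 R)) (nat_lit 15))) (Nat.shiftRight (Nat.land (Nat.sub (VR.h2 R) (Nat.xor
    (v1550 R) (v1759 R))) (VR.h2 R)) (nat_lit 15))

noncomputable def s1812 (R : VR) (j i : ℕ) : Bool :=
  K.bor (s1810 R j i) (s1811 R j i)

theorem e1812 (R : VR) : B2 R (v1812 R) (s1812 R) :=
  B.or (e1810 R) (e1811 R)

noncomputable def s1813 (R : VR) (j i : ℕ) : Bool :=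
  K.inb (VR.P R) (s1755 R i) j

theorem e1813 (R : VR) : B2 R (v1812 R) (s1813 R) :=
  e1812 R

noncomputable def v1814 (R : VR) : ℕ :=
  Nat.mul (v1749 R) (VR.cr1 R)

noncomputable def s1814 (R : VR) (j i : ℕ) : Bool :=
  (s1750 R i)

theorem e1814 (R : VR) : B2 R (v1814 R) (s1814 R) :=
  B2.rep (e1750 R)

noncomputable def v1815 (R : VR) : ℕ :=
  Nat.xor (v1812 R) (Nat.land (Nat.xor (v1812 R) (Nat.lor (Nat.lor (Nat.shiftRight (Nat.land
    (Nat.sub (VR.h2 R) (Nat.xor (v528 R) (v12 R))) (VR.h2 R)) (nat_lit 15)) (Nat.shiftRight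
    (Nat.land (Nat.sub (VR.h2 R) (Nat.xor (v528 R) (Nat.mul (VR.phiT R) (VR.cr1 R)))) (VR.h2 R))
    (nat_lit 15))) (Nat.shiftRight (Nat.land (Nat.sub (VR.h2 R) (Nat.xor (v528 R) (Nat.mul (v179
    R) (VR.cr1 R)))) (VR.h2 R)) (nat_lit 15)))) (Nat.mul (v1749 R) (VR.cr1 R)))

noncomputable def s1815 (R : VR) (j i : ℕ) : Bool :=
  Bool.rec (motive := fun _ => Bool) (s1813 R j i) (s1807 R j i) (s1814 R j i)

theorem e1815 (R : VR) : B2 R (v1815 R) (s1815 R) :=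
  B.sel (e1814 R) (e1807 R) (e1813 R)

noncomputable def s1816 (R : VR) (j i : ℕ) : Bool :=
  K.ifa (VR.P R) (s1755 R i) i j

theorem e1816 (R : VR) : B2 R (v1815 R) (s1816 R) :=
  e1815 R

noncomputable def s1817 (R : VR) (j i : ℕ) : Bool :=
  K.WF_fin (VR.WF R) i j

theorem e1817 (R : VR) : B2 R (v1815 R) (s1817 R) :=
  e1816 R

noncomputable def v1818 (R : VR) : ℕ :=
  Nat.sub (VR.o2 R) (v1815 R)

noncomputable def s1818 (R : VR) (j i : ℕ) : Bool :=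
  K.bnot (s1817 R j i)

theorem e1818 (R : VR) : B2 R (v1818 R) (s1818 R) :=
  B.not (VR.o2e R) (e1817 R)

noncomputable def v1819 (R : VR) : ℕ :=
  Nat.lor (v1561 R) (v1447 R)

noncomputable def s1819 (R : VR) (j i : ℕ) : Bool :=
  K.bor (s1561 R j i) (s1447 R j i)

theorem e1819 (R : VR) : B2 R (v1819 R) (s1819 R) :=
  B.or (e1561 R) (e1447 R)

noncomputable def v1820 (R : VR) : ℕ :=
  Nat.shiftRight (Nat.land (Nat.sub (VR.h2 R) (Nat.xor (v1563 R) (v1446 R))) (VR.h2 R)) (nat_lit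
    15)

noncomputable def s1820 (R : VR) (j i : ℕ) : Bool :=
  Nat.beq (s1563 R j i) (s1446 R j i)

theorem e1820 (R : VR) : B2 R (v1820 R) (s1820 R) :=
  L.beq (VR.h2e R) (e1563 R) (e1446 R)

noncomputable def v1821 (R : VR) : ℕ :=
  Nat.lor (v1565 R) (Nat.shiftRight (Nat.land (Nat.sub (VR.h2 R) (Nat.xor (v1563 R) (v1446 R)))
    (VR.h2 R)) (nat_lit 15))

noncomputable def s1821 (R : VR) (j i : ℕ) : Bool :=
  K.bor (s1565 R j i) (s1820 R j i)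

theorem e1821 (R : VR) : B2 R (v1821 R) (s1821 R) :=
  B.or (e1565 R) (e1820 R)

noncomputable def v1822 (R : VR) : ℕ :=
  Nat.land (Nat.lor (v1561 R) (v1447 R)) (Nat.lor (v1565 R) (Nat.shiftRight (Nat.land (Nat.sub
    (VR.h2 R) (Nat.xor (v1563 R) (v1446 R))) (VR.h2 R)) (nat_lit 15)))

noncomputable def s1822 (R : VR) (j i : ℕ) : Bool :=
  K.band (s1819 R j i) (s1821 R j i)

theorem e1822 (R : VR) : B2 R (v1822 R) (s1822 R) :=
  B.and (e1819 R) (e1821 R)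

noncomputable def v1823 (R : VR) : ℕ :=
  Nat.lor (Nat.sub (VR.o2 R) (v1815 R)) (Nat.land (Nat.lor (v1561 R) (v1447 R)) (Nat.lor (v1565 R)
    (Nat.shiftRight (Nat.land (Nat.sub (VR.h2 R) (Nat.xor (v1563 R) (v1446 R))) (VR.h2 R))
    (nat_lit 15))))

noncomputable def s1823 (R : VR) (j i : ℕ) : Bool :=
  K.bor (s1818 R j i) (s1822 R j i)

theorem e1823 (R : VR) : B2 R (v1823 R) (s1823 R) :=
  B.or (e1818 R) (e1822 R)

noncomputable def v1824 (R : VR) : ℕ :=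
  Nat.shiftRight (Nat.land (Nat.sub (VR.h1 R) (Nat.mod (Nat.land (Nat.sub (VR.o2 R) (Nat.lor
    (Nat.sub (VR.o2 R) (v1815 R)) (Nat.land (Nat.lor (v1561 R) (v1447 R)) (Nat.lor (v1565 R)
    (Nat.shiftRight (Nat.land (Nat.sub (VR.h2 R) (Nat.xor (v1563 R) (v1446 R))) (VR.h2 R))
    (nat_lit 15)))))) (mM (Nat.mul (v112 R) (VR.S R)))) (VR.m1 R))) (VR.h1 R)) (nat_lit 15)

noncomputable def s1824 (R : VR) (i : ℕ) : Bool :=
  K.allN (s112 R) (fun j => (s1823 R j i))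

theorem e1824 (R : VR) : B (VR.S R) (v1824 R) (s1824 R) :=
  B.all (e1823 R) (VR.n_le R)

noncomputable def s1825 (R : VR) (i : ℕ) : Bool :=
  K.allN (s112 R) (fun (x73 : ℕ) => (K.bor (K.bnot (K.WF_fin (VR.WF R) i x73)) (K.band (K.bor
    (K.bor (K.bnot (Nat.beq (FC6.Pa.α (FC7.Fc.P (FC7.WF.F (VR.WF R))) x73) x73)) (FC6.Pa.real
    (FC7.Fc.P (FC7.WF.F (VR.WF R))) x73)) (Nat.beq (FC7.OD.pc (FC7.Fc.O (FC7.WF.F (VR.WF R))) x73)
    (s116 R i))) (K.bor (K.bnot (FC7.Fc.uk (FC7.WF.F (VR.WF R)) x73)) (Nat.beq (FC7.OD.pc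
    (FC7.Fc.O (FC7.WF.F (VR.WF R))) (FC7.Fc.kp (FC7.WF.F (VR.WF R)) x73)) (s116 R i))))))

theorem e1825 (R : VR) : B (VR.S R) (v1824 R) (s1825 R) :=
  e1824 R

noncomputable def v1826 (R : VR) : ℕ :=
  Nat.land (Nat.land (v860 R) (Nat.lor (v1749 R) (Nat.land (v1790 R) (Nat.lor (Nat.lor
    (Nat.shiftRight (Nat.land (Nat.sub (VR.h1 R) (Nat.xor (VR.lT R) (v1754 R))) (VR.h1 R))
    (nat_lit 15)) (Nat.shiftRight (Nat.land (Nat.sub (VR.h1 R) (Nat.xor (v193 R) (v1754 R)))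
    (VR.h1 R)) (nat_lit 15))) (Nat.shiftRight (Nat.land (Nat.sub (VR.h1 R) (Nat.xor (v1549 R)
    (v1754 R))) (VR.h1 R)) (nat_lit 15)))))) (Nat.shiftRight (Nat.land (Nat.sub (VR.h1 R) (Nat.mod
    (Nat.land (Nat.sub (VR.o2 R) (Nat.lor (Nat.sub (VR.o2 R) (v1815 R)) (Nat.land (Nat.lor (v1561
    R) (v1447 R)) (Nat.lor (v1565 R) (Nat.shiftRight (Nat.land (Nat.sub (VR.h2 R) (Nat.xor (v1563
    R) (v1446 R))) (VR.h2 R)) (nat_lit 15)))))) (mM (Nat.mul (v112 R) (VR.S R)))) (VR.m1 R)))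
    (VR.h1 R)) (nat_lit 15))

noncomputable def s1826 (R : VR) (i : ℕ) : Bool :=
  K.band (s1800 R i) (s1825 R i)

theorem e1826 (R : VR) : B (VR.S R) (v1826 R) (s1826 R) :=
  B.and (e1800 R) (e1825 R)

noncomputable def s1827 (R : VR) (i : ℕ) : Bool :=
  K.WF_one (VR.WF R) (s116 R i) i

theorem e1827 (R : VR) : B (VR.S R) (v1826 R) (s1827 R) :=
  e1826 R

noncomputable def v1828 (R : VR) : ℕ :=
  Nat.xor (v25 R) (Nat.land (Nat.xor (v25 R) (v1594 R)) (Nat.mul (v1815 R) (nat_lit 32767)))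

noncomputable def s1828 (R : VR) (j i : ℕ) : ℕ :=
  Bool.rec (motive := fun _ => ℕ) (s25 R j i) (s1594 R j i) (s1817 R j i)

theorem e1828 (R : VR) : L2 R (v1828 R) (s1828 R) 15 :=
  L.sel (e1817 R) (e1594 R) (e25 R) (by decide) (by decide) (by decide)

noncomputable def v1829 (R : VR) : ℕ :=
  Nat.mod (Nat.land (Nat.xor (v25 R) (Nat.land (Nat.xor (v25 R) (v1594 R)) (Nat.mul (v1815 R)
    (nat_lit 32767)))) (mM (Nat.mul (v112 R) (VR.S R)))) (VR.m1 R)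

noncomputable def s1829 (R : VR) (i : ℕ) : ℕ :=
  K.sumN (s112 R) (fun j => (s1828 R j i))

theorem e1829 (R : VR) : L (VR.S R) (v1829 R) (s1829 R) 1905 :=
  L.sum (e1828 R) (VR.n_le R) (by decide)

noncomputable def s1830 (R : VR) (i : ℕ) : ℕ :=
  K.sumN (s112 R) (fun (x74 : ℕ) => (Bool.rec (motive := fun _ => ℕ) (nat_lit 0) (FC6.Pa.u
    (FC7.Fc.P (FC7.WF.F (VR.WF R))) x74) (K.WF_fin (VR.WF R) i x74)))

theorem e1830 (R : VR) : L (VR.S R) (v1829 R) (s1830 R) 1905 :=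
  e1829 R

noncomputable def s1831 (R : VR) (i : ℕ) : ℕ :=
  K.WF_ku (VR.WF R) i

theorem e1831 (R : VR) : L (VR.S R) (v1829 R) (s1831 R) 1905 :=
  e1830 R

noncomputable def v1832 (R : VR) : ℕ :=
  Nat.shiftRight (Nat.land (Nat.sub (VR.h1 R) (Nat.xor (v1284 R) (v359 R))) (VR.h1 R)) (nat_lit
    15)

noncomputable def s1832 (R : VR) (i : ℕ) : Bool :=
  Nat.beq (s1286 R i) (s359 R i)

theorem e1832 (R : VR) : B (VR.S R) (v1832 R) (s1832 R) :=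
  L.beq (VR.h1e R) (e1286 R) (e359 R)

noncomputable def v1833 (R : VR) : ℕ :=
  Nat.xor (v511 R) (Nat.land (Nat.xor (v511 R) (v359 R)) (Nat.mul (v1293 R) (nat_lit 32767)))

noncomputable def s1833 (R : VR) (i : ℕ) : ℕ :=
  Bool.rec (motive := fun _ => ℕ) (s511 R i) (s359 R i) (s1293 R i)

theorem e1833 (R : VR) : L (VR.S R) (v1833 R) (s1833 R) 2 :=
  L.sel (e1293 R) (e359 R) (e511 R) (by decide) (by decide) (by decide)

noncomputable def v1834 (R : VR) : ℕ :=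
  Nat.xor (v1833 R) (Nat.land (Nat.xor (v1833 R) (v1017 R)) (Nat.mul (v1832 R) (nat_lit 32767)))

noncomputable def s1834 (R : VR) (i : ℕ) : ℕ :=
  Bool.rec (motive := fun _ => ℕ) (s1833 R i) (s1017 R i) (s1832 R i)

theorem e1834 (R : VR) : L (VR.S R) (v1834 R) (s1834 R) 3 :=
  L.sel (e1832 R) (e1017 R) (e1833 R) (by decide) (by decide) (by decide)

noncomputable def s1835 (R : VR) (i : ℕ) : ℕ :=
  K.WF_lw (s1286 R i)

theorem e1835 (R : VR) : L (VR.S R) (v1834 R) (s1835 R) 3 :=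
  e1834 R

noncomputable def v1836 (R : VR) : ℕ :=
  Nat.shiftRight (Nat.land (Nat.sub (VR.h1 R) (v1829 R)) (VR.h1 R)) (nat_lit 15)

noncomputable def s1836 (R : VR) (i : ℕ) : Bool :=
  Nat.beq (s1831 R i) (nat_lit 0)

theorem e1836 (R : VR) : B (VR.S R) (v1836 R) (s1836 R) :=
  L.ez (VR.h1e R) (e1831 R)

noncomputable def v1837 (R : VR) : ℕ :=
  Nat.xor (v359 R) (Nat.land (Nat.xor (v359 R) (v511 R)) (Nat.mul (v1836 R) (nat_lit 32767)))

noncomputable def s1837 (R : VR) (i : ℕ) : ℕ :=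
  Bool.rec (motive := fun _ => ℕ) (s359 R i) (s511 R i) (s1836 R i)

theorem e1837 (R : VR) : L (VR.S R) (v1837 R) (s1837 R) 2 :=
  L.sel (e1836 R) (e511 R) (e359 R) (by decide) (by decide) (by decide)

noncomputable def v1838 (R : VR) : ℕ :=
  Nat.add (v1837 R) (Vc.ssub (VR.h1 R) (Nat.xor (v1833 R) (Nat.land (Nat.xor (v1833 R) (v1017 R))
    (Nat.mul (v1832 R) (nat_lit 32767)))) (v1837 R))

noncomputable def s1838 (R : VR) (i : ℕ) : ℕ :=
  K.kmax (s1835 R i) (s1837 R i)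

theorem e1838 (R : VR) : L (VR.S R) (v1838 R) (s1838 R) 3 :=
  L.max (VR.h1e R) (e1835 R) (e1837 R)

noncomputable def s1839 (R : VR) (i : ℕ) : ℕ :=
  K.WF_lwk (VR.WF R) i

theorem e1839 (R : VR) : L (VR.S R) (v1838 R) (s1839 R) 3 :=
  e1838 R

noncomputable def v1840 (R : VR) : ℕ :=
  Nat.shiftRight (Nat.land (Nat.sub (Nat.add (Nat.add (v1837 R) (Vc.ssub (VR.h1 R) (Nat.xor (v1833
    R) (Nat.land (Nat.xor (v1833 R) (v1017 R)) (Nat.mul (v1832 R) (nat_lit 32767)))) (v1837 R)))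
    (VR.k1 R)) (v1829 R)) (VR.h1 R)) (nat_lit 15)

noncomputable def s1840 (R : VR) (i : ℕ) : Bool :=
  Nat.ble (Nat.succ (s1831 R i)) (s1839 R i)

theorem e1840 (R : VR) : B (VR.S R) (v1840 R) (s1840 R) :=
  L.blt (VR.h1e R) (VR.k1e R) (e1831 R) (e1839 R)

noncomputable def v1841 (R : VR) : ℕ :=
  Nat.land (v1826 R) (Nat.shiftRight (Nat.land (Nat.sub (Nat.add (Nat.add (v1837 R) (Vc.ssub
    (VR.h1 R) (Nat.xor (v1833 R) (Nat.land (Nat.xor (v1833 R) (v1017 R)) (Nat.mul (v1832 R)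
    (nat_lit 32767)))) (v1837 R))) (VR.k1 R)) (v1829 R)) (VR.h1 R)) (nat_lit 15))

noncomputable def s1841 (R : VR) (i : ℕ) : Bool :=
  K.band (s1827 R i) (s1840 R i)

theorem e1841 (R : VR) : B (VR.S R) (v1841 R) (s1841 R) :=
  B.and (e1827 R) (e1840 R)

noncomputable def v1842 (R : VR) : ℕ :=
  Nat.lor (v1745 R) (Nat.land (v1826 R) (Nat.shiftRight (Nat.land (Nat.sub (Nat.add (Nat.add
    (v1837 R) (Vc.ssub (VR.h1 R) (Nat.xor (v1833 R) (Nat.land (Nat.xor (v1833 R) (v1017 R))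
    (Nat.mul (v1832 R) (nat_lit 32767)))) (v1837 R))) (VR.k1 R)) (v1829 R)) (VR.h1 R)) (nat_lit
    15)))

noncomputable def s1842 (R : VR) (i : ℕ) : Bool :=
  K.bor (s1745 R i) (s1841 R i)

theorem e1842 (R : VR) : B (VR.S R) (v1842 R) (s1842 R) :=
  B.or (e1745 R) (e1841 R)

noncomputable def v1843 (R : VR) : Bool :=
  Nat.beq (Nat.land (Nat.sub (VR.o1 R) (Nat.lor (v1745 R) (Nat.land (v1826 R) (Nat.shiftRight
    (Nat.land (Nat.sub (Nat.add (Nat.add (v1837 R) (Vc.ssub (VR.h1 R) (Nat.xor (v1833 R) (Nat.land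
    (Nat.xor (v1833 R) (v1017 R)) (Nat.mul (v1832 R) (nat_lit 32767)))) (v1837 R))) (VR.k1 R))
    (v1829 R)) (VR.h1 R)) (nat_lit 15))))) (mM (v112 R))) (nat_lit 0)

noncomputable def s1843 (R : VR) : Bool :=
  K.allN (s112 R) (s1842 R)

theorem e1843 (R : VR) : (v1843 R) = s1843 R :=
  all0 (e1842 R) (VR.n_le R)

noncomputable def s1844 (R : VR) : Bool :=
  K.allN (s112 R) (fun (x76 : ℕ) => (K.bor (K.bnot (FC7.Fc.ou (VR.F R) x76)) (K.band (K.WF_one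
    (VR.WF R) (FC7.OD.pc (VR.O R) x76) x76) (Nat.ble (Nat.succ (K.WF_ku (VR.WF R) x76)) (K.WF_lwk
    (VR.WF R) x76)))))

theorem e1844 (R : VR) : (v1843 R) = s1844 R :=
  e1843 R

noncomputable def s1845 (R : VR) : Bool :=
  V2.ou R

theorem e1845 (R : VR) : (v1843 R) = s1845 R :=
  e1844 R

noncomputable def c_ou (R : VR) : Bool :=
  (Nat.beq (Nat.land (Nat.sub (VR.o1 R) (Nat.lor (v1745 R) (Nat.land (v1826 R) (Nat.shiftRight
    (Nat.land (Nat.sub (Nat.add (Nat.add (v1837 R) (Vc.ssub (VR.h1 R) (Nat.xor (v1833 R) (Nat.land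
    (Nat.xor (v1833 R) (v1017 R)) (Nat.mul (v1832 R) (nat_lit 32767)))) (v1837 R))) (VR.k1 R))
    (v1829 R)) (VR.h1 R)) (nat_lit 15))))) (mM (v112 R))) (nat_lit 0))

theorem c_ou_eq (R : VR) : c_ou R = (V2.ou R) :=
  e1845 R

noncomputable def s1846 (R : VR) (i : ℕ) : Bool :=
  tf (VR.ozT R) i

theorem e1846 (R : VR) : B (VR.S R) (VR.ozT R) (s1846 R) :=
  VR.oz_is R

noncomputable def v1847 (R : VR) : ℕ :=
  Nat.sub (VR.o1 R) (VR.ozT R)

noncomputable def s1847 (R : VR) (i : ℕ) : Bool :=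
  K.bnot (s1846 R i)

theorem e1847 (R : VR) : B (VR.S R) (v1847 R) (s1847 R) :=
  B.not (VR.o1e R) (e1846 R)

noncomputable def v1848 (R : VR) : ℕ :=
  Nat.lor (Nat.sub (VR.o1 R) (VR.ozT R)) (v1287 R)

noncomputable def s1848 (R : VR) (i : ℕ) : Bool :=
  K.bor (s1847 R i) (s1287 R i)

theorem e1848 (R : VR) : B (VR.S R) (v1848 R) (s1848 R) :=
  B.or (e1847 R) (e1287 R)

noncomputable def v1849 (R : VR) : ℕ :=
  Nat.shiftRight (Nat.land (Nat.sub (Nat.add (v1449 R) (VR.h1 R)) (v1829 R)) (VR.h1 R)) (nat_lit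
    15)

noncomputable def s1849 (R : VR) (i : ℕ) : Bool :=
  Nat.ble (s1831 R i) (s1451 R i)

theorem e1849 (R : VR) : B (VR.S R) (v1849 R) (s1849 R) :=
  L.ble (VR.h1e R) (e1831 R) (e1451 R)

noncomputable def v1850 (R : VR) : ℕ :=
  Nat.land (v1826 R) (Nat.shiftRight (Nat.land (Nat.sub (Nat.add (v1449 R) (VR.h1 R)) (v1829 R))
    (VR.h1 R)) (nat_lit 15))

noncomputable def s1850 (R : VR) (i : ℕ) : Bool :=
  K.band (s1827 R i) (s1849 R i)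

theorem e1850 (R : VR) : B (VR.S R) (v1850 R) (s1850 R) :=
  B.and (e1827 R) (e1849 R)

noncomputable def v1851 (R : VR) : ℕ :=
  (nat_lit 12)

noncomputable def s1851 (R : VR) : ℕ :=
  (nat_lit 12)

theorem e1851 (R : VR) : (v1851 R) = s1851 R :=
  rfl

noncomputable def v1852 (R : VR) : ℕ :=
  Nat.land (Nat.shiftRight (v1262 R) (nat_lit 12)) (VR.o1 R)

noncomputable def s1852 (R : VR) (i : ℕ) : Bool :=
  K.tbit (s1263 R i) (nat_lit 12)

theorem e1852 (R : VR) : B (VR.S R) (v1852 R) (s1852 R) :=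
  B.tbc (VR.o1e R) (e1263 R) 12 (by decide)

noncomputable def v1853 (R : VR) : ℕ :=
  Nat.land (v1270 R) (Nat.land (Nat.shiftRight (v1262 R) (nat_lit 12)) (VR.o1 R))

noncomputable def s1853 (R : VR) (i : ℕ) : Bool :=
  K.band (s1271 R i) (s1852 R i)

theorem e1853 (R : VR) : B (VR.S R) (v1853 R) (s1853 R) :=
  B.and (e1271 R) (e1852 R)

noncomputable def v1854 (R : VR) : ℕ :=
  Nat.land (Nat.shiftRight (v1262 R) (nat_lit 6)) (Nat.mul (VR.o1 R) (nat_lit 3))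

noncomputable def s1854 (R : VR) (i : ℕ) : ℕ :=
  Nat.mod (Nat.div (s1263 R i) (nat_lit 64)) (nat_lit 4)

theorem e1854 (R : VR) : L (VR.S R) (v1854 R) (s1854 R) 3 :=
  L.fld (VR.o1e R) (e1263 R) 6 2 (by decide) (by decide)

noncomputable def s1855 (R : VR) (i : ℕ) : ℕ :=
  K.wk (s1263 R i)

theorem e1855 (R : VR) : L (VR.S R) (v1854 R) (s1855 R) 3 :=
  e1854 R

noncomputable def v1856 (R : VR) : ℕ :=
  Nat.shiftRight (Nat.land (Nat.sub (VR.h1 R) (Nat.xor (Nat.land (Nat.shiftRight (v1262 R)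
    (nat_lit 6)) (Nat.mul (VR.o1 R) (nat_lit 3))) (v359 R))) (VR.h1 R)) (nat_lit 15)

noncomputable def s1856 (R : VR) (i : ℕ) : Bool :=
  Nat.beq (s1855 R i) (s359 R i)

theorem e1856 (R : VR) : B (VR.S R) (v1856 R) (s1856 R) :=
  L.beq (VR.h1e R) (e1855 R) (e359 R)

noncomputable def v1857 (R : VR) : ℕ :=
  Nat.xor (v1856 R) (Nat.land (Nat.xor (v1856 R) (Nat.land (v1270 R) (Nat.land (Nat.shiftRight
    (v1262 R) (nat_lit 12)) (VR.o1 R)))) (v1255 R))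

noncomputable def s1857 (R : VR) (i : ℕ) : Bool :=
  Bool.rec (motive := fun _ => Bool) (s1856 R i) (s1853 R i) (s1256 R i)

theorem e1857 (R : VR) : B (VR.S R) (v1857 R) (s1857 R) :=
  B.sel (e1256 R) (e1853 R) (e1856 R)

noncomputable def s1858 (R : VR) (i : ℕ) : Bool :=
  K.Wt_oc (FC7.WF.toWt (VR.WF R)) (s244 R i) (s247 R i)

theorem e1858 (R : VR) : B (VR.S R) (v1857 R) (s1858 R) :=
  e1857 R

noncomputable def s1859 (R : VR) (i : ℕ) : Bool :=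
  K.WF_ocl (VR.WF R) i

theorem e1859 (R : VR) : B (VR.S R) (v1857 R) (s1859 R) :=
  e1858 R

noncomputable def v1860 (R : VR) : ℕ :=
  Nat.lor (Nat.xor (v1856 R) (Nat.land (Nat.xor (v1856 R) (Nat.land (v1270 R) (Nat.land
    (Nat.shiftRight (v1262 R) (nat_lit 12)) (VR.o1 R)))) (v1255 R))) (v1832 R)

noncomputable def s1860 (R : VR) (i : ℕ) : Bool :=
  K.bor (s1859 R i) (s1832 R i)

theorem e1860 (R : VR) : B (VR.S R) (v1860 R) (s1860 R) :=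
  B.or (e1859 R) (e1832 R)

noncomputable def v1861 (R : VR) : ℕ :=
  Nat.shiftRight (Nat.land (Nat.sub (Nat.add (v1449 R) (VR.k1 R)) (v1829 R)) (VR.h1 R)) (nat_lit
    15)

noncomputable def s1861 (R : VR) (i : ℕ) : Bool :=
  Nat.ble (Nat.succ (s1831 R i)) (s1451 R i)

theorem e1861 (R : VR) : B (VR.S R) (v1861 R) (s1861 R) :=
  L.blt (VR.h1e R) (VR.k1e R) (e1831 R) (e1451 R)

noncomputable def v1862 (R : VR) : ℕ :=
  Nat.lor (Nat.lor (Nat.xor (v1856 R) (Nat.land (Nat.xor (v1856 R) (Nat.land (v1270 R) (Nat.land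
    (Nat.shiftRight (v1262 R) (nat_lit 12)) (VR.o1 R)))) (v1255 R))) (v1832 R)) (Nat.shiftRight
    (Nat.land (Nat.sub (Nat.add (v1449 R) (VR.k1 R)) (v1829 R)) (VR.h1 R)) (nat_lit 15))

noncomputable def s1862 (R : VR) (i : ℕ) : Bool :=
  K.bor (s1860 R i) (s1861 R i)

theorem e1862 (R : VR) : B (VR.S R) (v1862 R) (s1862 R) :=
  B.or (e1860 R) (e1861 R)

noncomputable def v1863 (R : VR) : ℕ :=
  Nat.sub (VR.o1 R) (v1749 R)

noncomputable def s1863 (R : VR) (i : ℕ) : Bool :=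
  K.bnot (s1750 R i)

theorem e1863 (R : VR) : B (VR.S R) (v1863 R) (s1863 R) :=
  B.not (VR.o1e R) (e1750 R)

noncomputable def v1864 (R : VR) : ℕ :=
  Nat.sub (VR.o2 R) (v1447 R)

noncomputable def s1864 (R : VR) (j i : ℕ) : Bool :=
  K.bnot (s1447 R j i)

theorem e1864 (R : VR) : B2 R (v1864 R) (s1864 R) :=
  B.not (VR.o2e R) (e1447 R)

noncomputable def v1865 (R : VR) : ℕ :=
  Nat.lor (v1561 R) (v1864 R)

noncomputable def s1865 (R : VR) (j i : ℕ) : Bool :=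
  K.bor (s1561 R j i) (s1864 R j i)

theorem e1865 (R : VR) : B2 R (v1865 R) (s1865 R) :=
  B.or (e1561 R) (e1864 R)

noncomputable def v1866 (R : VR) : ℕ :=
  Nat.lor (Nat.lor (v1561 R) (v1864 R)) (v1812 R)

noncomputable def s1866 (R : VR) (j i : ℕ) : Bool :=
  K.bor (s1865 R j i) (s1813 R j i)

theorem e1866 (R : VR) : B2 R (v1866 R) (s1866 R) :=
  B.or (e1865 R) (e1813 R)

noncomputable def v1867 (R : VR) : ℕ :=
  Nat.land (v1588 R) (Nat.lor (Nat.lor (v1561 R) (v1864 R)) (v1812 R))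

noncomputable def s1867 (R : VR) (j i : ℕ) : Bool :=
  K.band (s1588 R j i) (s1866 R j i)

theorem e1867 (R : VR) : B2 R (v1867 R) (s1867 R) :=
  B.and (e1588 R) (e1866 R)

noncomputable def v1868 (R : VR) : ℕ :=
  Nat.shiftRight (Nat.land (Nat.sub (VR.h1 R) (Nat.mod (Nat.land (Nat.sub (VR.o2 R) (Nat.land
    (v1588 R) (Nat.lor (Nat.lor (v1561 R) (v1864 R)) (v1812 R)))) (mM (Nat.mul (v112 R) (VR.S
    R)))) (VR.m1 R))) (VR.h1 R)) (nat_lit 15)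

noncomputable def s1868 (R : VR) (i : ℕ) : Bool :=
  K.allN (s112 R) (fun j => (s1867 R j i))

theorem e1868 (R : VR) : B (VR.S R) (v1868 R) (s1868 R) :=
  B.all (e1867 R) (VR.n_le R)

noncomputable def s1869 (R : VR) (i : ℕ) : Bool :=
  K.allN (s112 R) (fun (x83 : ℕ) => (K.band (K.band (Nat.beq (FC7.OD.pc (FC7.Fc.O (FC7.WF.F (VR.WF
    R))) (FC6.Pa.φ (FC7.Fc.P' (FC7.WF.F (VR.WF R))) x83)) (FC7.OD.pc (FC7.Fc.O (FC7.WF.F (VR.WF
    R))) x83)) (K.bor (K.bor (Nat.beq (FC6.Pa.α (FC7.Fc.P (FC7.WF.F (VR.WF R))) x83) x83)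
    (FC6.Pa.real (FC7.Fc.P' (FC7.WF.F (VR.WF R))) x83)) (Nat.beq (FC7.OD.pc (FC7.Fc.O (FC7.WF.F
    (VR.WF R))) (FC6.Pa.α (FC7.Fc.P (FC7.WF.F (VR.WF R))) x83)) (FC7.OD.pc (FC7.Fc.O (FC7.WF.F
    (VR.WF R))) x83)))) (K.bor (K.bor (K.bor (K.bnot (Nat.beq (FC6.Pa.α (FC7.Fc.P (FC7.WF.F (VR.WF
    R))) x83) x83)) (FC6.Pa.real (FC7.Fc.P (FC7.WF.F (VR.WF R))) x83)) (K.bnot (Nat.beq (FC7.OD.pc
    (FC7.Fc.O (FC7.WF.F (VR.WF R))) x83) (s116 R i)))) (K.inb (FC7.Fc.P (FC7.WF.F (VR.WF R)))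
    (K.WF_hb (VR.WF R) i) x83))))

theorem e1869 (R : VR) : B (VR.S R) (v1868 R) (s1869 R) :=
  e1868 R

noncomputable def s1870 (R : VR) (i : ℕ) : Bool :=
  K.WF_clo (VR.WF R) (s116 R i) i

theorem e1870 (R : VR) : B (VR.S R) (v1868 R) (s1870 R) :=
  e1869 R

noncomputable def v1871 (R : VR) : ℕ :=
  Nat.land (Nat.sub (VR.o1 R) (v1749 R)) (Nat.shiftRight (Nat.land (Nat.sub (VR.h1 R) (Nat.mod
    (Nat.land (Nat.sub (VR.o2 R) (Nat.land (v1588 R) (Nat.lor (Nat.lor (v1561 R) (v1864 R)) (v1812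
    R)))) (mM (Nat.mul (v112 R) (VR.S R)))) (VR.m1 R))) (VR.h1 R)) (nat_lit 15))

noncomputable def s1871 (R : VR) (i : ℕ) : Bool :=
  K.band (s1863 R i) (s1870 R i)

theorem e1871 (R : VR) : B (VR.S R) (v1871 R) (s1871 R) :=
  B.and (e1863 R) (e1870 R)

noncomputable def v1872 (R : VR) : ℕ :=
  Nat.lor (v1864 R) (v1601 R)

noncomputable def s1872 (R : VR) (j i : ℕ) : Bool :=
  K.bor (s1864 R j i) (s1601 R j i)

theorem e1872 (R : VR) : B2 R (v1872 R) (s1872 R) :=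
  B.or (e1864 R) (e1601 R)

noncomputable def v1873 (R : VR) : ℕ :=
  Nat.lor (Nat.lor (v1864 R) (v1601 R)) (v1604 R)

noncomputable def s1873 (R : VR) (j i : ℕ) : Bool :=
  K.bor (s1872 R j i) (s1604 R j i)

theorem e1873 (R : VR) : B2 R (v1873 R) (s1873 R) :=
  B.or (e1872 R) (e1604 R)

noncomputable def v1874 (R : VR) : ℕ :=
  Nat.lor (Nat.lor (Nat.lor (v1864 R) (v1601 R)) (v1604 R)) (v1609 R)

noncomputable def s1874 (R : VR) (j i : ℕ) : Bool :=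
  K.bor (s1873 R j i) (s1609 R j i)

theorem e1874 (R : VR) : B2 R (v1874 R) (s1874 R) :=
  B.or (e1873 R) (e1609 R)

noncomputable def v1875 (R : VR) : ℕ :=
  Nat.land (v1616 R) (v1812 R)

noncomputable def s1875 (R : VR) (j i : ℕ) : Bool :=
  K.band (s1616 R j i) (s1813 R j i)

theorem e1875 (R : VR) : B2 R (v1875 R) (s1875 R) :=
  B.and (e1616 R) (e1813 R)

noncomputable def v1876 (R : VR) : ℕ :=
  Nat.lor (Nat.lor (Nat.lor (Nat.lor (v1864 R) (v1601 R)) (v1604 R)) (v1609 R)) (Nat.land (v1616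
    R) (v1812 R))

noncomputable def s1876 (R : VR) (j i : ℕ) : Bool :=
  K.bor (s1874 R j i) (s1875 R j i)

theorem e1876 (R : VR) : B2 R (v1876 R) (s1876 R) :=
  B.or (e1874 R) (e1875 R)

noncomputable def v1877 (R : VR) : ℕ :=
  Nat.land (v1626 R) (v1772 R)

noncomputable def s1877 (R : VR) (j i : ℕ) : ℕ :=
  Nat.land (s1626 R j i) (s1772 R j i)

theorem e1877 (R : VR) : L2 R (v1877 R) (s1877 R) 32767 :=
  L.land (e1626 R) (e1772 R)

noncomputable def v1878 (R : VR) : ℕ :=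
  Nat.shiftRight (Nat.land (Nat.sub (VR.h2 R) (v1877 R)) (VR.h2 R)) (nat_lit 15)

noncomputable def s1878 (R : VR) (j i : ℕ) : Bool :=
  Nat.beq (s1877 R j i) (nat_lit 0)

theorem e1878 (R : VR) : B2 R (v1878 R) (s1878 R) :=
  L.ez (VR.h2e R) (e1877 R)

noncomputable def v1879 (R : VR) : ℕ :=
  Nat.shiftRight (Nat.land (Nat.add (v1877 R) (VR.k2 R)) (VR.h2 R)) (nat_lit 15)

noncomputable def s1879 (R : VR) (j i : ℕ) : Bool :=
  K.bnot (Nat.beq (s1877 R j i) (nat_lit 0))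

theorem e1879 (R : VR) : B2 R (v1879 R) (s1879 R) :=
  L.nz (VR.h2e R) (VR.k2e R) (e1877 R)

noncomputable def v1880 (R : VR) : ℕ :=
  Nat.land (v1630 R) (v1777 R)

noncomputable def s1880 (R : VR) (j i : ℕ) : ℕ :=
  Nat.land (s1630 R j i) (s1777 R j i)

theorem e1880 (R : VR) : L2 R (v1880 R) (s1880 R) 32767 :=
  L.land (e1630 R) (e1777 R)

noncomputable def v1881 (R : VR) : ℕ :=
  Nat.shiftRight (Nat.land (Nat.sub (VR.h2 R) (v1880 R)) (VR.h2 R)) (nat_lit 15)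

noncomputable def s1881 (R : VR) (j i : ℕ) : Bool :=
  Nat.beq (s1880 R j i) (nat_lit 0)

theorem e1881 (R : VR) : B2 R (v1881 R) (s1881 R) :=
  L.ez (VR.h2e R) (e1880 R)

noncomputable def v1882 (R : VR) : ℕ :=
  Nat.shiftRight (Nat.land (Nat.add (v1880 R) (VR.k2 R)) (VR.h2 R)) (nat_lit 15)

noncomputable def s1882 (R : VR) (j i : ℕ) : Bool :=
  K.bnot (Nat.beq (s1880 R j i) (nat_lit 0))

theorem e1882 (R : VR) : B2 R (v1882 R) (s1882 R) :=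
  L.nz (VR.h2e R) (VR.k2e R) (e1880 R)

noncomputable def v1883 (R : VR) : ℕ :=
  Nat.lor (Nat.shiftRight (Nat.land (Nat.add (v1877 R) (VR.k2 R)) (VR.h2 R)) (nat_lit 15))
    (Nat.shiftRight (Nat.land (Nat.add (v1880 R) (VR.k2 R)) (VR.h2 R)) (nat_lit 15))

noncomputable def s1883 (R : VR) (j i : ℕ) : Bool :=
  K.bor (s1879 R j i) (s1882 R j i)

theorem e1883 (R : VR) : B2 R (v1883 R) (s1883 R) :=
  B.or (e1879 R) (e1882 R)

noncomputable def s1884 (R : VR) (j i : ℕ) : Bool :=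
  V2.mk R (s1622 R j) (s1625 R j) (s1755 R i)

theorem e1884 (R : VR) : B2 R (v1883 R) (s1884 R) :=
  e1883 R

noncomputable def s1885 (R : VR) (j i : ℕ) : Bool :=
  V2.off R (s113 R j) (s1755 R i)

theorem e1885 (R : VR) : B2 R (v1883 R) (s1885 R) :=
  e1884 R

noncomputable def s1886 (R : VR) (j i : ℕ) : Bool :=
  K.WF_off (VR.WF R) (s113 R j) (s1755 R i)

theorem e1886 (R : VR) : B2 R (v1883 R) (s1886 R) :=
  B.of_eq (e1885 R) (fun t ht => V2.off_eq R (s113 R (t / VR.S R)) (s1755 R (t % VR.S R)))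

noncomputable def v1887 (R : VR) : ℕ :=
  Nat.lor (Nat.lor (Nat.lor (Nat.lor (Nat.lor (v1864 R) (v1601 R)) (v1604 R)) (v1609 R)) (Nat.land
    (v1616 R) (v1812 R))) (Nat.lor (Nat.shiftRight (Nat.land (Nat.add (v1877 R) (VR.k2 R)) (VR.h2
    R)) (nat_lit 15)) (Nat.shiftRight (Nat.land (Nat.add (v1880 R) (VR.k2 R)) (VR.h2 R)) (nat_lit
    15)))

noncomputable def s1887 (R : VR) (j i : ℕ) : Bool :=
  K.bor (s1876 R j i) (s1886 R j i)

theorem e1887 (R : VR) : B2 R (v1887 R) (s1887 R) :=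
  B.or (e1876 R) (e1886 R)

noncomputable def v1888 (R : VR) : ℕ :=
  Nat.land (v1642 R) (v1772 R)

noncomputable def s1888 (R : VR) (j i : ℕ) : ℕ :=
  Nat.land (s1642 R j i) (s1772 R j i)

theorem e1888 (R : VR) : L2 R (v1888 R) (s1888 R) 32767 :=
  L.land (e1642 R) (e1772 R)

noncomputable def v1889 (R : VR) : ℕ :=
  Nat.shiftRight (Nat.land (Nat.sub (VR.h2 R) (v1888 R)) (VR.h2 R)) (nat_lit 15)

noncomputable def s1889 (R : VR) (j i : ℕ) : Bool :=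
  Nat.beq (s1888 R j i) (nat_lit 0)

theorem e1889 (R : VR) : B2 R (v1889 R) (s1889 R) :=
  L.ez (VR.h2e R) (e1888 R)

noncomputable def v1890 (R : VR) : ℕ :=
  Nat.shiftRight (Nat.land (Nat.add (v1888 R) (VR.k2 R)) (VR.h2 R)) (nat_lit 15)

noncomputable def s1890 (R : VR) (j i : ℕ) : Bool :=
  K.bnot (Nat.beq (s1888 R j i) (nat_lit 0))

theorem e1890 (R : VR) : B2 R (v1890 R) (s1890 R) :=
  L.nz (VR.h2e R) (VR.k2e R) (e1888 R)

noncomputable def v1891 (R : VR) : ℕ :=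
  Nat.land (v1646 R) (v1777 R)

noncomputable def s1891 (R : VR) (j i : ℕ) : ℕ :=
  Nat.land (s1646 R j i) (s1777 R j i)

theorem e1891 (R : VR) : L2 R (v1891 R) (s1891 R) 32767 :=
  L.land (e1646 R) (e1777 R)

noncomputable def v1892 (R : VR) : ℕ :=
  Nat.shiftRight (Nat.land (Nat.sub (VR.h2 R) (v1891 R)) (VR.h2 R)) (nat_lit 15)

noncomputable def s1892 (R : VR) (j i : ℕ) : Bool :=
  Nat.beq (s1891 R j i) (nat_lit 0)

theorem e1892 (R : VR) : B2 R (v1892 R) (s1892 R) :=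
  L.ez (VR.h2e R) (e1891 R)

noncomputable def v1893 (R : VR) : ℕ :=
  Nat.shiftRight (Nat.land (Nat.add (v1891 R) (VR.k2 R)) (VR.h2 R)) (nat_lit 15)

noncomputable def s1893 (R : VR) (j i : ℕ) : Bool :=
  K.bnot (Nat.beq (s1891 R j i) (nat_lit 0))

theorem e1893 (R : VR) : B2 R (v1893 R) (s1893 R) :=
  L.nz (VR.h2e R) (VR.k2e R) (e1891 R)

noncomputable def v1894 (R : VR) : ℕ :=
  Nat.lor (Nat.shiftRight (Nat.land (Nat.add (v1888 R) (VR.k2 R)) (VR.h2 R)) (nat_lit 15))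
    (Nat.shiftRight (Nat.land (Nat.add (v1891 R) (VR.k2 R)) (VR.h2 R)) (nat_lit 15))

noncomputable def s1894 (R : VR) (j i : ℕ) : Bool :=
  K.bor (s1890 R j i) (s1893 R j i)

theorem e1894 (R : VR) : B2 R (v1894 R) (s1894 R) :=
  B.or (e1890 R) (e1893 R)

noncomputable def s1895 (R : VR) (j i : ℕ) : Bool :=
  V2.mk R (s1640 R j) (s1641 R j) (s1755 R i)

theorem e1895 (R : VR) : B2 R (v1894 R) (s1895 R) :=
  e1894 R

noncomputable def s1896 (R : VR) (j i : ℕ) : Bool :=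
  V2.off R (s1607 R j) (s1755 R i)

theorem e1896 (R : VR) : B2 R (v1894 R) (s1896 R) :=
  e1895 R

noncomputable def s1897 (R : VR) (j i : ℕ) : Bool :=
  K.WF_off (VR.WF R) (s1607 R j) (s1755 R i)

theorem e1897 (R : VR) : B2 R (v1894 R) (s1897 R) :=
  B.of_eq (e1896 R) (fun t ht => V2.off_eq R (s1607 R (t / VR.S R)) (s1755 R (t % VR.S R)))

noncomputable def v1898 (R : VR) : ℕ :=
  Nat.lor (Nat.lor (Nat.lor (Nat.lor (Nat.lor (Nat.lor (v1864 R) (v1601 R)) (v1604 R)) (v1609 R))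
    (Nat.land (v1616 R) (v1812 R))) (Nat.lor (Nat.shiftRight (Nat.land (Nat.add (v1877 R) (VR.k2
    R)) (VR.h2 R)) (nat_lit 15)) (Nat.shiftRight (Nat.land (Nat.add (v1880 R) (VR.k2 R)) (VR.h2
    R)) (nat_lit 15)))) (Nat.lor (Nat.shiftRight (Nat.land (Nat.add (v1888 R) (VR.k2 R)) (VR.h2
    R)) (nat_lit 15)) (Nat.shiftRight (Nat.land (Nat.add (v1891 R) (VR.k2 R)) (VR.h2 R)) (nat_lit
    15)))

noncomputable def s1898 (R : VR) (j i : ℕ) : Bool :=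
  K.bor (s1887 R j i) (s1897 R j i)

theorem e1898 (R : VR) : B2 R (v1898 R) (s1898 R) :=
  B.or (e1887 R) (e1897 R)

noncomputable def v1899 (R : VR) : ℕ :=
  Nat.shiftRight (Nat.land (Nat.sub (VR.h1 R) (Nat.mod (Nat.land (Nat.sub (VR.o2 R) (v1898 R)) (mM
    (Nat.mul (v112 R) (VR.S R)))) (VR.m1 R))) (VR.h1 R)) (nat_lit 15)

noncomputable def s1899 (R : VR) (i : ℕ) : Bool :=
  K.allN (s112 R) (fun j => (s1898 R j i))

theorem e1899 (R : VR) : B (VR.S R) (v1899 R) (s1899 R) :=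
  B.all (e1898 R) (VR.n_le R)

noncomputable def s1900 (R : VR) (i : ℕ) : Bool :=
  K.allN (s112 R) (fun (x85 : ℕ) => (K.bor (K.bor (K.bor (K.bor (K.bor (K.bor (K.bnot (Nat.beq
    (FC7.OD.pc (FC7.Fc.O (FC7.WF.F (VR.WF R))) x85) (s116 R i))) (K.bnot (FC6.Pa.real (FC7.Fc.P'
    (FC7.WF.F (VR.WF R))) x85))) (Nat.ble (Nat.succ (FC6.Pa.l (FC7.Fc.P' (FC7.WF.F (VR.WF R)))
    x85)) (FC7.OD.x (FC7.Fc.O (FC7.WF.F (VR.WF R)))))) (Nat.ble (Nat.succ (FC6.Pa.l (FC7.Fc.P'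
    (FC7.WF.F (VR.WF R))) (FC6.Pa.φ (FC7.Fc.P' (FC7.WF.F (VR.WF R))) x85))) (FC7.OD.x (FC7.Fc.O
    (FC7.WF.F (VR.WF R)))))) (K.band (K.Fc_un (FC7.WF.F (VR.WF R)) x85) (K.inb (FC7.Fc.P (FC7.WF.F
    (VR.WF R))) (K.WF_hb (VR.WF R) i) x85))) (K.WF_off (VR.WF R) (FC6.Pa.l (FC7.Fc.P' (FC7.WF.F
    (VR.WF R))) x85) (K.WF_hb (VR.WF R) i))) (K.WF_off (VR.WF R) (FC6.Pa.l (FC7.Fc.P' (FC7.WF.F
    (VR.WF R))) (FC6.Pa.φ (FC7.Fc.P' (FC7.WF.F (VR.WF R))) x85)) (K.WF_hb (VR.WF R) i))))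

theorem e1900 (R : VR) : B (VR.S R) (v1899 R) (s1900 R) :=
  e1899 R

noncomputable def v1901 (R : VR) : ℕ :=
  Nat.land (v1836 R) (Nat.shiftRight (Nat.land (Nat.sub (VR.h1 R) (Nat.mod (Nat.land (Nat.sub
    (VR.o2 R) (v1898 R)) (mM (Nat.mul (v112 R) (VR.S R)))) (VR.m1 R))) (VR.h1 R)) (nat_lit 15))

noncomputable def s1901 (R : VR) (i : ℕ) : Bool :=
  K.band (s1836 R i) (s1900 R i)

theorem e1901 (R : VR) : B (VR.S R) (v1901 R) (s1901 R) :=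
  B.and (e1836 R) (e1900 R)

noncomputable def s1902 (R : VR) (i : ℕ) : Bool :=
  K.WF_t4a (VR.WF R) (s116 R i) i

theorem e1902 (R : VR) : B (VR.S R) (v1901 R) (s1902 R) :=
  e1901 R

noncomputable def v1903 (R : VR) : ℕ :=
  lfg R (VR.tz R)

noncomputable def s1903 (R : VR) (i : ℕ) : Bool :=
  K.lmem i (VR.tz R)

theorem e1903 (R : VR) : B (VR.S R) (v1903 R) (s1903 R) :=
  lfg_is R (VR.tz R)

noncomputable def v1904 (R : VR) : ℕ :=
  Nat.lor (Nat.land (v1836 R) (Nat.shiftRight (Nat.land (Nat.sub (VR.h1 R) (Nat.mod (Nat.land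
    (Nat.sub (VR.o2 R) (v1898 R)) (mM (Nat.mul (v112 R) (VR.S R)))) (VR.m1 R))) (VR.h1 R))
    (nat_lit 15))) (lfg R (VR.tz R))

noncomputable def s1904 (R : VR) (i : ℕ) : Bool :=
  K.bor (s1902 R i) (s1903 R i)

theorem e1904 (R : VR) : B (VR.S R) (v1904 R) (s1904 R) :=
  B.or (e1902 R) (e1903 R)

noncomputable def v1905 (R : VR) : ℕ :=
  Nat.land (Nat.land (Nat.sub (VR.o1 R) (v1749 R)) (Nat.shiftRight (Nat.land (Nat.sub (VR.h1 R)
    (Nat.mod (Nat.land (Nat.sub (VR.o2 R) (Nat.land (v1588 R) (Nat.lor (Nat.lor (v1561 R) (v1864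
    R)) (v1812 R)))) (mM (Nat.mul (v112 R) (VR.S R)))) (VR.m1 R))) (VR.h1 R)) (nat_lit 15)))
    (Nat.lor (Nat.land (v1836 R) (Nat.shiftRight (Nat.land (Nat.sub (VR.h1 R) (Nat.mod (Nat.land
    (Nat.sub (VR.o2 R) (v1898 R)) (mM (Nat.mul (v112 R) (VR.S R)))) (VR.m1 R))) (VR.h1 R))
    (nat_lit 15))) (lfg R (VR.tz R)))

noncomputable def s1905 (R : VR) (i : ℕ) : Bool :=
  K.band (s1871 R i) (s1904 R i)

theorem e1905 (R : VR) : B (VR.S R) (v1905 R) (s1905 R) :=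
  B.and (e1871 R) (e1904 R)

noncomputable def v1906 (R : VR) : ℕ :=
  Nat.lor (Nat.lor (Nat.lor (Nat.xor (v1856 R) (Nat.land (Nat.xor (v1856 R) (Nat.land (v1270 R)
    (Nat.land (Nat.shiftRight (v1262 R) (nat_lit 12)) (VR.o1 R)))) (v1255 R))) (v1832 R))
    (Nat.shiftRight (Nat.land (Nat.sub (Nat.add (v1449 R) (VR.k1 R)) (v1829 R)) (VR.h1 R))
    (nat_lit 15))) (v1905 R)

noncomputable def s1906 (R : VR) (i : ℕ) : Bool :=
  K.bor (s1862 R i) (s1905 R i)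

theorem e1906 (R : VR) : B (VR.S R) (v1906 R) (s1906 R) :=
  B.or (e1862 R) (e1905 R)

noncomputable def v1907 (R : VR) : ℕ :=
  Nat.land (Nat.land (v1826 R) (Nat.shiftRight (Nat.land (Nat.sub (Nat.add (v1449 R) (VR.h1 R))
    (v1829 R)) (VR.h1 R)) (nat_lit 15))) (Nat.lor (Nat.lor (Nat.lor (Nat.xor (v1856 R) (Nat.land
    (Nat.xor (v1856 R) (Nat.land (v1270 R) (Nat.land (Nat.shiftRight (v1262 R) (nat_lit 12))
    (VR.o1 R)))) (v1255 R))) (v1832 R)) (Nat.shiftRight (Nat.land (Nat.sub (Nat.add (v1449 R)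
    (VR.k1 R)) (v1829 R)) (VR.h1 R)) (nat_lit 15))) (v1905 R))

noncomputable def s1907 (R : VR) (i : ℕ) : Bool :=
  K.band (s1850 R i) (s1906 R i)

theorem e1907 (R : VR) : B (VR.S R) (v1907 R) (s1907 R) :=
  B.and (e1850 R) (e1906 R)

noncomputable def v1908 (R : VR) : ℕ :=
  Nat.lor (Nat.lor (Nat.sub (VR.o1 R) (VR.ozT R)) (v1287 R)) (v1907 R)

noncomputable def s1908 (R : VR) (i : ℕ) : Bool :=
  K.bor (s1848 R i) (s1907 R i)

theorem e1908 (R : VR) : B (VR.S R) (v1908 R) (s1908 R) :=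
  B.or (e1848 R) (e1907 R)

noncomputable def v1909 (R : VR) : Bool :=
  Nat.beq (Nat.land (Nat.sub (VR.o1 R) (Nat.lor (Nat.lor (Nat.sub (VR.o1 R) (VR.ozT R)) (v1287 R))
    (v1907 R))) (mM (v112 R))) (nat_lit 0)

noncomputable def s1909 (R : VR) : Bool :=
  K.allN (s112 R) (s1908 R)

theorem e1909 (R : VR) : (v1909 R) = s1909 R :=
  all0 (e1908 R) (VR.n_le R)

noncomputable def s1910 (R : VR) : Bool :=
  K.allN (s112 R) (fun (x86 : ℕ) => (K.bor (K.bor (K.bnot (FC7.Fc.oz (VR.F R) x86)) (Nat.beq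
    (K.WF_fcl (VR.WF R) x86) (nat_lit 3))) (K.band (K.band (K.WF_one (VR.WF R) (FC7.OD.pc (VR.O R)
    x86) x86) (Nat.ble (K.WF_ku (VR.WF R) x86) (K.Fc_pu (VR.F R) (FC7.OD.pc (VR.O R) x86))))
    (K.bor (K.bor (K.bor (K.WF_ocl (VR.WF R) x86) (Nat.beq (K.WF_fcl (VR.WF R) x86) (nat_lit 2)))
    (Nat.ble (Nat.succ (K.WF_ku (VR.WF R) x86)) (K.Fc_pu (VR.F R) (FC7.OD.pc (VR.O R) x86))))
    (K.band (K.band (K.bnot (K.sld (VR.P R) x86)) (K.WF_clo (VR.WF R) (FC7.OD.pc (VR.O R) x86)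
    x86)) (K.bor (K.WF_t4a (VR.WF R) (FC7.OD.pc (VR.O R) x86) x86) (K.lmem x86 (VR.tz R))))))))

theorem e1910 (R : VR) : (v1909 R) = s1910 R :=
  e1909 R

noncomputable def s1911 (R : VR) : Bool :=
  V2.chkZ R

theorem e1911 (R : VR) : (v1909 R) = s1911 R :=
  e1910 R

noncomputable def c_chkZ (R : VR) : Bool :=
  (Nat.beq (Nat.land (Nat.sub (VR.o1 R) (Nat.lor (Nat.lor (Nat.sub (VR.o1 R) (VR.ozT R)) (v1287
    R)) (v1907 R))) (mM (v112 R))) (nat_lit 0))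

theorem c_chkZ_eq (R : VR) : c_chkZ R = (V2.chkZ R) :=
  e1911 R

end Vs

end Pool.FC7
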