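import Pool.Agent.FC7.VtE

/-! # Vector form of the static checks: generated file (vgen.py) -/

open Finset

set_option linter.all false

namespace Pool.FC7

open Pool.FC6

namespace Vs

noncomputable def v1912 (R : VR) : ℕ :=
  Nat.mul (VR.s1T R) (VR.cr1 R)

noncomputable def s1912 (R : VR) (j i : ℕ) : ℕ :=
  (s719 R i)

theorem e1912 (R : VR) : L2 R (v1912 R) (s1912 R) 32767 :=
  L2.rep (e719 R)

noncomputable def v1913 (R : VR) : ℕ :=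
  Nat.land (Nat.mul (VR.s1T R) (VR.cr1 R)) (v920 R)

noncomputable def s1913 (R : VR) (j i : ℕ) : ℕ :=
  Nat.land (s1912 R j i) (s920 R j i)

theorem e1913 (R : VR) : L2 R (v1913 R) (s1913 R) 32767 :=
  L.land (e1912 R) (e920 R)

noncomputable def v1914 (R : VR) : ℕ :=
  Nat.shiftRight (Nat.land (Nat.sub (VR.h2 R) (v1913 R)) (VR.h2 R)) (nat_lit 15)

noncomputable def s1914 (R : VR) (j i : ℕ) : Bool :=
  Nat.beq (s1913 R j i) (nat_lit 0)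

theorem e1914 (R : VR) : B2 R (v1914 R) (s1914 R) :=
  L.ez (VR.h2e R) (e1913 R)

noncomputable def v1915 (R : VR) : ℕ :=
  Nat.shiftRight (Nat.land (Nat.add (v1913 R) (VR.k2 R)) (VR.h2 R)) (nat_lit 15)

noncomputable def s1915 (R : VR) (j i : ℕ) : Bool :=
  K.bnot (Nat.beq (s1913 R j i) (nat_lit 0))

theorem e1915 (R : VR) : B2 R (v1915 R) (s1915 R) :=
  L.nz (VR.h2e R) (VR.k2e R) (e1913 R)

noncomputable def v1916 (R : VR) : ℕ :=
  Nat.mul (VR.s2T R) (VR.cr1 R)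

noncomputable def s1916 (R : VR) (j i : ℕ) : ℕ :=
  (s726 R i)

theorem e1916 (R : VR) : L2 R (v1916 R) (s1916 R) 32767 :=
  L2.rep (e726 R)

noncomputable def v1917 (R : VR) : ℕ :=
  Nat.land (Nat.mul (VR.s2T R) (VR.cr1 R)) (v954 R)

noncomputable def s1917 (R : VR) (j i : ℕ) : ℕ :=
  Nat.land (s1916 R j i) (s954 R j i)

theorem e1917 (R : VR) : L2 R (v1917 R) (s1917 R) 32767 :=
  L.land (e1916 R) (e954 R)

noncomputable def v1918 (R : VR) : ℕ :=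
  Nat.shiftRight (Nat.land (Nat.sub (VR.h2 R) (v1917 R)) (VR.h2 R)) (nat_lit 15)

noncomputable def s1918 (R : VR) (j i : ℕ) : Bool :=
  Nat.beq (s1917 R j i) (nat_lit 0)

theorem e1918 (R : VR) : B2 R (v1918 R) (s1918 R) :=
  L.ez (VR.h2e R) (e1917 R)

noncomputable def v1919 (R : VR) : ℕ :=
  Nat.shiftRight (Nat.land (Nat.add (v1917 R) (VR.k2 R)) (VR.h2 R)) (nat_lit 15)

noncomputable def s1919 (R : VR) (j i : ℕ) : Bool :=
  K.bnot (Nat.beq (s1917 R j i) (nat_lit 0))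

theorem e1919 (R : VR) : B2 R (v1919 R) (s1919 R) :=
  L.nz (VR.h2e R) (VR.k2e R) (e1917 R)

noncomputable def v1920 (R : VR) : ℕ :=
  Nat.lor (Nat.shiftRight (Nat.land (Nat.add (v1913 R) (VR.k2 R)) (VR.h2 R)) (nat_lit 15))
    (Nat.shiftRight (Nat.land (Nat.add (v1917 R) (VR.k2 R)) (VR.h2 R)) (nat_lit 15))

noncomputable def s1920 (R : VR) (j i : ℕ) : Bool :=
  K.bor (s1915 R j i) (s1919 R j i)

theorem e1920 (R : VR) : B2 R (v1920 R) (s1920 R) :=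
  B.or (e1915 R) (e1919 R)

noncomputable def v1921 (R : VR) : ℕ :=
  Nat.mul (VR.s3T R) (VR.cr1 R)

noncomputable def s1921 (R : VR) (j i : ℕ) : ℕ :=
  (s734 R i)

theorem e1921 (R : VR) : L2 R (v1921 R) (s1921 R) 32767 :=
  L2.rep (e734 R)

noncomputable def v1922 (R : VR) : ℕ :=
  srM (VR.N R) (VR.S R) (VR.o1 R) (VR.pw3T R)

noncomputable def s1922 (R : VR) (j i : ℕ) : ℕ :=
  (s737 R j)

theorem e1922 (R : VR) : L2 R (v1922 R) (s1922 R) 16384 :=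
  L2.row (e737 R)

noncomputable def v1923 (R : VR) : ℕ :=
  Nat.land (Nat.mul (VR.s3T R) (VR.cr1 R)) (srM (VR.N R) (VR.S R) (VR.o1 R) (VR.pw3T R))

noncomputable def s1923 (R : VR) (j i : ℕ) : ℕ :=
  Nat.land (s1921 R j i) (s1922 R j i)

theorem e1923 (R : VR) : L2 R (v1923 R) (s1923 R) 32767 :=
  L.land (e1921 R) (e1922 R)

noncomputable def v1924 (R : VR) : ℕ :=
  Nat.shiftRight (Nat.land (Nat.sub (VR.h2 R) (v1923 R)) (VR.h2 R)) (nat_lit 15)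

noncomputable def s1924 (R : VR) (j i : ℕ) : Bool :=
  Nat.beq (s1923 R j i) (nat_lit 0)

theorem e1924 (R : VR) : B2 R (v1924 R) (s1924 R) :=
  L.ez (VR.h2e R) (e1923 R)

noncomputable def v1925 (R : VR) : ℕ :=
  Nat.shiftRight (Nat.land (Nat.add (v1923 R) (VR.k2 R)) (VR.h2 R)) (nat_lit 15)

noncomputable def s1925 (R : VR) (j i : ℕ) : Bool :=
  K.bnot (Nat.beq (s1923 R j i) (nat_lit 0))

theorem e1925 (R : VR) : B2 R (v1925 R) (s1925 R) :=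
  L.nz (VR.h2e R) (VR.k2e R) (e1923 R)

noncomputable def v1926 (R : VR) : ℕ :=
  Nat.lor (Nat.lor (Nat.shiftRight (Nat.land (Nat.add (v1913 R) (VR.k2 R)) (VR.h2 R)) (nat_lit
    15)) (Nat.shiftRight (Nat.land (Nat.add (v1917 R) (VR.k2 R)) (VR.h2 R)) (nat_lit 15)))
    (Nat.shiftRight (Nat.land (Nat.add (v1923 R) (VR.k2 R)) (VR.h2 R)) (nat_lit 15))

noncomputable def s1926 (R : VR) (j i : ℕ) : Bool :=
  K.bor (s1920 R j i) (s1925 R j i)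

theorem e1926 (R : VR) : B2 R (v1926 R) (s1926 R) :=
  B.or (e1920 R) (e1925 R)

noncomputable def s1927 (R : VR) (j i : ℕ) : Bool :=
  V2.sd R i j

theorem e1927 (R : VR) : B2 R (v1926 R) (s1927 R) :=
  e1926 R

noncomputable def v1928 (R : VR) : ℕ :=
  Nat.sub (VR.o2 R) (Nat.lor (Nat.lor (Nat.shiftRight (Nat.land (Nat.add (v1913 R) (VR.k2 R))
    (VR.h2 R)) (nat_lit 15)) (Nat.shiftRight (Nat.land (Nat.add (v1917 R) (VR.k2 R)) (VR.h2 R))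
    (nat_lit 15))) (Nat.shiftRight (Nat.land (Nat.add (v1923 R) (VR.k2 R)) (VR.h2 R)) (nat_lit
    15)))

noncomputable def s1928 (R : VR) (j i : ℕ) : Bool :=
  K.bnot (s1927 R j i)

theorem e1928 (R : VR) : B2 R (v1928 R) (s1928 R) :=
  B.not (VR.o2e R) (e1927 R)

noncomputable def v1929 (R : VR) : ℕ :=
  Nat.mul (VR.caT R) (VR.cr1 R)

noncomputable def s1929 (R : VR) (j i : ℕ) : ℕ :=
  (s127 R i)

theorem e1929 (R : VR) : L2 R (v1929 R) (s1929 R) 255 :=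
  L2.rep (e127 R)

noncomputable def v1930 (R : VR) : ℕ :=
  Nat.shiftRight (Nat.land (Nat.sub (VR.h2 R) (Nat.xor (Nat.mul (VR.caT R) (VR.cr1 R)) (v534 R)))
    (VR.h2 R)) (nat_lit 15)

noncomputable def s1930 (R : VR) (j i : ℕ) : Bool :=
  Nat.beq (s1929 R j i) (s534 R j i)

theorem e1930 (R : VR) : B2 R (v1930 R) (s1930 R) :=
  L.beq (VR.h2e R) (e1929 R) (e534 R)

noncomputable def v1931 (R : VR) : ℕ :=
  Nat.land (v1930 R) (v938 R)

noncomputable def s1931 (R : VR) (j i : ℕ) : Bool :=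
  K.band (s1930 R j i) (s938 R j i)

theorem e1931 (R : VR) : B2 R (v1931 R) (s1931 R) :=
  B.and (e1930 R) (e938 R)

noncomputable def v1932 (R : VR) : ℕ :=
  Nat.mul (VR.rlT R) (VR.cr1 R)

noncomputable def s1932 (R : VR) (j i : ℕ) : Bool :=
  (s435 R i)

theorem e1932 (R : VR) : B2 R (v1932 R) (s1932 R) :=
  B2.rep (e435 R)

noncomputable def v1933 (R : VR) : ℕ :=
  srM (VR.N R) (VR.S R) (VR.o1 R) (VR.rlT R)

noncomputable def s1933 (R : VR) (j i : ℕ) : Bool :=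
  (s435 R j)

theorem e1933 (R : VR) : B2 R (v1933 R) (s1933 R) :=
  B2.row (e435 R)

noncomputable def v1934 (R : VR) : ℕ :=
  Nat.sub (VR.o2 R) (Nat.xor (Nat.mul (VR.rlT R) (VR.cr1 R)) (srM (VR.N R) (VR.S R) (VR.o1 R)
    (VR.rlT R)))

noncomputable def s1934 (R : VR) (j i : ℕ) : Bool :=
  K.beqB (s1932 R j i) (s1933 R j i)

theorem e1934 (R : VR) : B2 R (v1934 R) (s1934 R) :=
  B.beqB (VR.o2e R) (e1932 R) (e1933 R)

noncomputable def v1935 (R : VR) : ℕ :=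
  Nat.shiftRight (Nat.land (Nat.sub (VR.h1 R) (VR.caT R)) (VR.h1 R)) (nat_lit 15)

noncomputable def s1935 (R : VR) (i : ℕ) : Bool :=
  Nat.beq (s127 R i) (nat_lit 0)

theorem e1935 (R : VR) : B (VR.S R) (v1935 R) (s1935 R) :=
  L.ez (VR.h1e R) (e127 R)

noncomputable def v1936 (R : VR) : ℕ :=
  VR.st8 R

noncomputable def s1936 (R : VR) : ℕ :=
  VR.st8 R

theorem e1936 (R : VR) : (v1936 R) = s1936 R :=
  rfl

theorem b1936 (R : VR) : s1936 R ≤ 10 :=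
  VR.st8_b R

noncomputable def v1937 (R : VR) : ℕ :=
  Nat.mul (VR.o1 R) (v1936 R)

noncomputable def s1937 (R : VR) (i : ℕ) : ℕ :=
  (s1936 R)

theorem e1937 (R : VR) : L (VR.S R) (v1937 R) (s1937 R) 10 :=
  L.scl (VR.o1e R) (e1936 R) (b1936 R) (by decide)

noncomputable def v1938 (R : VR) : ℕ :=
  Nat.mul (v1936 R) (VR.caT R)

noncomputable def s1938 (R : VR) (i : ℕ) : ℕ :=
  Nat.mul (s1936 R) (s127 R i)

theorem e1938 (R : VR) : L (VR.S R) (v1938 R) (s1938 R) 2550 :=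
  L.cmuls (e127 R) (e1936 R) (b1936 R) (by decide)

noncomputable def v1939 (R : VR) : ℕ :=
  Nat.add (v1938 R) (v511 R)

noncomputable def s1939 (R : VR) (i : ℕ) : ℕ :=
  Nat.add (s1938 R i) (s511 R i)

theorem e1939 (R : VR) : L (VR.S R) (v1939 R) (s1939 R) 2550 :=
  L.add (e1938 R) (e511 R) (by decide)

noncomputable def v1940 (R : VR) : ℕ :=
  gmk (VR.h2 R) (VR.J R) (Nat.mul (Nat.add (v1938 R) (v511 R)) (VR.cr1 R))

noncomputable def v1941 (R : VR) : ℕ :=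
  srM (VR.N R) (VR.S R) (VR.o1 R) (VR.adT R)

noncomputable def v1942 (R : VR) : ℕ :=
  Nat.mod (Nat.land (gmk (VR.h2 R) (VR.J R) (Nat.mul (Nat.add (v1938 R) (v511 R)) (VR.cr1 R)))
    (v1941 R)) (VR.m1 R)

noncomputable def s1942 (R : VR) (i : ℕ) : ℕ :=
  tx (VR.adT R) (s1939 R i)

theorem e1942 (R : VR) : L (VR.S R) (v1942 R) (s1942 R) 255 :=
  L.gat (e1939 R) (VR.ad_is R) (VR.ad_lt R) (VR.ad_le R)

noncomputable def v1943 (R : VR) : ℕ :=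
  Nat.shiftRight (Nat.land (Nat.sub (VR.h1 R) (v1942 R)) (VR.h1 R)) (nat_lit 15)

noncomputable def s1943 (R : VR) (i : ℕ) : Bool :=
  Nat.beq (s1942 R i) (nat_lit 0)

theorem e1943 (R : VR) : B (VR.S R) (v1943 R) (s1943 R) :=
  L.ez (VR.h1e R) (e1942 R)

noncomputable def v1944 (R : VR) : ℕ :=
  Nat.shiftRight (Nat.land (Nat.add (v1942 R) (VR.k1 R)) (VR.h1 R)) (nat_lit 15)

noncomputable def s1944 (R : VR) (i : ℕ) : Bool :=
  K.bnot (Nat.beq (s1942 R i) (nat_lit 0))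

theorem e1944 (R : VR) : B (VR.S R) (v1944 R) (s1944 R) :=
  L.nz (VR.h1e R) (VR.k1e R) (e1942 R)

noncomputable def v1945 (R : VR) : ℕ :=
  Vc.ssub (VR.h1 R) (v1942 R) (v267 R)

noncomputable def s1945 (R : VR) (i : ℕ) : ℕ :=
  Nat.sub (s1942 R i) (s267 R i)

theorem e1945 (R : VR) : L (VR.S R) (v1945 R) (s1945 R) 255 :=
  L.sub (VR.h1e R) (e1942 R) (e267 R)

noncomputable def v1946 (R : VR) : ℕ :=
  gmk (VR.h2 R) (VR.J R) (Nat.mul (v1945 R) (VR.cr1 R))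

noncomputable def v1947 (R : VR) : ℕ :=
  Nat.mod (Nat.land (v1946 R) (v164 R)) (VR.m1 R)

noncomputable def s1947 (R : VR) (i : ℕ) : ℕ :=
  tx (VR.rhoT R) (s1945 R i)

theorem e1947 (R : VR) : L (VR.S R) (v1947 R) (s1947 R) 255 :=
  L.gat (e1945 R) (VR.rho_is R) (VR.rho_lt R) (VR.rho_le R)

noncomputable def v1948 (R : VR) : ℕ :=
  Nat.shiftRight (Nat.land (Nat.sub (VR.h1 R) (Nat.xor (VR.iota R) (Nat.mod (Nat.land (v1946 R)
    (v164 R)) (VR.m1 R)))) (VR.h1 R)) (nat_lit 15)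

noncomputable def s1948 (R : VR) (i : ℕ) : Bool :=
  Nat.beq (s0 R i) (s1947 R i)

theorem e1948 (R : VR) : B (VR.S R) (v1948 R) (s1948 R) :=
  L.beq (VR.h1e R) (e0 R) (e1947 R)

noncomputable def v1949 (R : VR) : ℕ :=
  Nat.mod (Nat.land (v1946 R) (v146 R)) (VR.m1 R)

noncomputable def s1949 (R : VR) (i : ℕ) : ℕ :=
  tx (VR.piT R) (s1945 R i)

theorem e1949 (R : VR) : L (VR.S R) (v1949 R) (s1949 R) 255 :=
  L.gat (e1945 R) (VR.pi_is R) (VR.pi_lt R) (VR.pi_le R)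

noncomputable def v1950 (R : VR) : ℕ :=
  srM (VR.N R) (VR.S R) (VR.o1 R) (VR.rhoT R)

noncomputable def s1950 (R : VR) (j i : ℕ) : ℕ :=
  (s158 R j)

theorem e1950 (R : VR) : L2 R (v1950 R) (s1950 R) 255 :=
  L2.row (e158 R)

noncomputable def v1951 (R : VR) : ℕ :=
  Nat.mul (v1949 R) (VR.cr1 R)

noncomputable def s1951 (R : VR) (j i : ℕ) : ℕ :=
  (s1949 R i)

theorem e1951 (R : VR) : L2 R (v1951 R) (s1951 R) 255 :=
  L2.rep (e1949 R)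

noncomputable def v1952 (R : VR) : ℕ :=
  Nat.shiftRight (Nat.land (Nat.sub (VR.h2 R) (Nat.xor (v1950 R) (Nat.mul (v1949 R) (VR.cr1 R))))
    (VR.h2 R)) (nat_lit 15)

noncomputable def s1952 (R : VR) (j i : ℕ) : Bool :=
  Nat.beq (s1950 R j i) (s1951 R j i)

theorem e1952 (R : VR) : B2 R (v1952 R) (s1952 R) :=
  L.beq (VR.h2e R) (e1950 R) (e1951 R)

noncomputable def v1953 (R : VR) : ℕ :=
  Nat.mul (Nat.shiftRight (Nat.land (Nat.sub (VR.h1 R) (Nat.xor (VR.iota R) (Nat.mod (Nat.land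
    (v1946 R) (v164 R)) (VR.m1 R)))) (VR.h1 R)) (nat_lit 15)) (VR.cr1 R)

noncomputable def s1953 (R : VR) (j i : ℕ) : Bool :=
  (s1948 R i)

theorem e1953 (R : VR) : B2 R (v1953 R) (s1953 R) :=
  B2.rep (e1948 R)

noncomputable def v1954 (R : VR) : ℕ :=
  Nat.land (Nat.mul (Nat.shiftRight (Nat.land (Nat.sub (VR.h1 R) (Nat.xor (VR.iota R) (Nat.mod
    (Nat.land (v1946 R) (v164 R)) (VR.m1 R)))) (VR.h1 R)) (nat_lit 15)) (VR.cr1 R))
    (Nat.shiftRight (Nat.land (Nat.sub (VR.h2 R) (Nat.xor (v1950 R) (Nat.mul (v1949 R) (VR.cr1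
    R)))) (VR.h2 R)) (nat_lit 15))

noncomputable def s1954 (R : VR) (j i : ℕ) : Bool :=
  K.band (s1953 R j i) (s1952 R j i)

theorem e1954 (R : VR) : B2 R (v1954 R) (s1954 R) :=
  B.and (e1953 R) (e1952 R)

noncomputable def v1955 (R : VR) : ℕ :=
  Nat.shiftRight (Nat.land (Nat.sub (VR.h1 R) (Nat.xor (VR.rhoT R) (v1945 R))) (VR.h1 R)) (nat_lit
    15)

noncomputable def s1955 (R : VR) (i : ℕ) : Bool :=
  Nat.beq (s158 R i) (s1945 R i)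

theorem e1955 (R : VR) : B (VR.S R) (v1955 R) (s1955 R) :=
  L.beq (VR.h1e R) (e158 R) (e1945 R)

noncomputable def v1956 (R : VR) : ℕ :=
  gmk (VR.h2 R) (VR.J R) (Nat.mul (v1949 R) (VR.cr1 R))

noncomputable def v1957 (R : VR) : ℕ :=
  Nat.mod (Nat.land (gmk (VR.h2 R) (VR.J R) (Nat.mul (v1949 R) (VR.cr1 R))) (v164 R)) (VR.m1 R)

noncomputable def s1957 (R : VR) (i : ℕ) : ℕ :=
  tx (VR.rhoT R) (s1949 R i)

theorem e1957 (R : VR) : L (VR.S R) (v1957 R) (s1957 R) 255 :=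
  L.gat (e1949 R) (VR.rho_is R) (VR.rho_lt R) (VR.rho_le R)

noncomputable def v1958 (R : VR) : ℕ :=
  Nat.mul (Nat.mod (Nat.land (gmk (VR.h2 R) (VR.J R) (Nat.mul (v1949 R) (VR.cr1 R))) (v164 R))
    (VR.m1 R)) (VR.cr1 R)

noncomputable def s1958 (R : VR) (j i : ℕ) : ℕ :=
  (s1957 R i)

theorem e1958 (R : VR) : L2 R (v1958 R) (s1958 R) 255 :=
  L2.rep (e1957 R)

noncomputable def v1959 (R : VR) : ℕ :=
  Nat.shiftRight (Nat.land (Nat.sub (VR.h2 R) (Nat.xor (v528 R) (Nat.mul (Nat.mod (Nat.land (gmk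
    (VR.h2 R) (VR.J R) (Nat.mul (v1949 R) (VR.cr1 R))) (v164 R)) (VR.m1 R)) (VR.cr1 R)))) (VR.h2
    R)) (nat_lit 15)

noncomputable def s1959 (R : VR) (j i : ℕ) : Bool :=
  Nat.beq (s528 R j i) (s1958 R j i)

theorem e1959 (R : VR) : B2 R (v1959 R) (s1959 R) :=
  L.beq (VR.h2e R) (e528 R) (e1958 R)

noncomputable def v1960 (R : VR) : ℕ :=
  Nat.mul (Nat.shiftRight (Nat.land (Nat.sub (VR.h1 R) (Nat.xor (VR.rhoT R) (v1945 R))) (VR.h1 R))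
    (nat_lit 15)) (VR.cr1 R)

noncomputable def s1960 (R : VR) (j i : ℕ) : Bool :=
  (s1955 R i)

theorem e1960 (R : VR) : B2 R (v1960 R) (s1960 R) :=
  B2.rep (e1955 R)

noncomputable def v1961 (R : VR) : ℕ :=
  Nat.land (Nat.mul (Nat.shiftRight (Nat.land (Nat.sub (VR.h1 R) (Nat.xor (VR.rhoT R) (v1945 R)))
    (VR.h1 R)) (nat_lit 15)) (VR.cr1 R)) (Nat.shiftRight (Nat.land (Nat.sub (VR.h2 R) (Nat.xor
    (v528 R) (Nat.mul (Nat.mod (Nat.land (gmk (VR.h2 R) (VR.J R) (Nat.mul (v1949 R) (VR.cr1 R)))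
    (v164 R)) (VR.m1 R)) (VR.cr1 R)))) (VR.h2 R)) (nat_lit 15))

noncomputable def s1961 (R : VR) (j i : ℕ) : Bool :=
  K.band (s1960 R j i) (s1959 R j i)

theorem e1961 (R : VR) : B2 R (v1961 R) (s1961 R) :=
  B.and (e1960 R) (e1959 R)

noncomputable def v1962 (R : VR) : ℕ :=
  Nat.lor (Nat.land (Nat.mul (Nat.shiftRight (Nat.land (Nat.sub (VR.h1 R) (Nat.xor (VR.iota R)
    (Nat.mod (Nat.land (v1946 R) (v164 R)) (VR.m1 R)))) (VR.h1 R)) (nat_lit 15)) (VR.cr1 R))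
    (Nat.shiftRight (Nat.land (Nat.sub (VR.h2 R) (Nat.xor (v1950 R) (Nat.mul (v1949 R) (VR.cr1
    R)))) (VR.h2 R)) (nat_lit 15))) (Nat.land (Nat.mul (Nat.shiftRight (Nat.land (Nat.sub (VR.h1
    R) (Nat.xor (VR.rhoT R) (v1945 R))) (VR.h1 R)) (nat_lit 15)) (VR.cr1 R)) (Nat.shiftRight
    (Nat.land (Nat.sub (VR.h2 R) (Nat.xor (v528 R) (Nat.mul (Nat.mod (Nat.land (gmk (VR.h2 R)
    (VR.J R) (Nat.mul (v1949 R) (VR.cr1 R))) (v164 R)) (VR.m1 R)) (VR.cr1 R)))) (VR.h2 R))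
    (nat_lit 15)))

noncomputable def s1962 (R : VR) (j i : ℕ) : Bool :=
  K.bor (s1954 R j i) (s1961 R j i)

theorem e1962 (R : VR) : B2 R (v1962 R) (s1962 R) :=
  B.or (e1954 R) (e1961 R)

noncomputable def s1963 (R : VR) (j i : ℕ) : Bool :=
  K.Cf_exa (VR.Cf R) (s1945 R i) i j

theorem e1963 (R : VR) : B2 R (v1962 R) (s1963 R) :=
  e1962 R

noncomputable def v1964 (R : VR) : ℕ :=
  Nat.sub (VR.o2 R) (v1962 R)

noncomputable def s1964 (R : VR) (j i : ℕ) : Bool :=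
  K.bnot (s1963 R j i)

theorem e1964 (R : VR) : B2 R (v1964 R) (s1964 R) :=
  B.not (VR.o2e R) (e1963 R)

noncomputable def v1965 (R : VR) : ℕ :=
  Nat.mul (Nat.shiftRight (Nat.land (Nat.add (v1942 R) (VR.k1 R)) (VR.h1 R)) (nat_lit 15)) (VR.cr1
    R)

noncomputable def s1965 (R : VR) (j i : ℕ) : Bool :=
  (s1944 R i)

theorem e1965 (R : VR) : B2 R (v1965 R) (s1965 R) :=
  B2.rep (e1944 R)

noncomputable def v1966 (R : VR) : ℕ :=
  Nat.land (Nat.mul (Nat.shiftRight (Nat.land (Nat.add (v1942 R) (VR.k1 R)) (VR.h1 R)) (nat_lit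
    15)) (VR.cr1 R)) (Nat.sub (VR.o2 R) (v1962 R))

noncomputable def s1966 (R : VR) (j i : ℕ) : Bool :=
  K.band (s1965 R j i) (s1964 R j i)

theorem e1966 (R : VR) : B2 R (v1966 R) (s1966 R) :=
  B.and (e1965 R) (e1964 R)

noncomputable def v1967 (R : VR) : ℕ :=
  srM (VR.N R) (VR.S R) (VR.o1 R) (Nat.shiftRight (Nat.land (Nat.sub (VR.h1 R) (VR.caT R)) (VR.h1
    R)) (nat_lit 15))

noncomputable def s1967 (R : VR) (j i : ℕ) : Bool :=
  (s1935 R j)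

theorem e1967 (R : VR) : B2 R (v1967 R) (s1967 R) :=
  B2.row (e1935 R)

noncomputable def v1968 (R : VR) : ℕ :=
  Nat.land (srM (VR.N R) (VR.S R) (VR.o1 R) (Nat.shiftRight (Nat.land (Nat.sub (VR.h1 R) (VR.caT
    R)) (VR.h1 R)) (nat_lit 15))) (Nat.land (Nat.mul (Nat.shiftRight (Nat.land (Nat.add (v1942 R)
    (VR.k1 R)) (VR.h1 R)) (nat_lit 15)) (VR.cr1 R)) (Nat.sub (VR.o2 R) (v1962 R)))

noncomputable def s1968 (R : VR) (j i : ℕ) : Bool :=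
  K.band (s1967 R j i) (s1966 R j i)

theorem e1968 (R : VR) : B2 R (v1968 R) (s1968 R) :=
  B.and (e1967 R) (e1966 R)

noncomputable def v1969 (R : VR) : Bool :=
  Nat.ble (Nat.succ (v23 R)) (v510 R)

noncomputable def s1969 (R : VR) : Bool :=
  Nat.ble (Nat.succ (s23 R)) (s510 R)

theorem e1969 (R : VR) : (v1969 R) = s1969 R :=
  congrArg₂ Nat.ble (congrArg Nat.succ (e23 R)) (e510 R)

noncomputable def v1970 (R : VR) : ℕ :=
  Bool.rec (motive := fun _ => ℕ) (nat_lit 0) (Nat.land (srM (VR.N R) (VR.S R) (VR.o1 R)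
    (Nat.shiftRight (Nat.land (Nat.sub (VR.h1 R) (VR.caT R)) (VR.h1 R)) (nat_lit 15))) (Nat.land
    (Nat.mul (Nat.shiftRight (Nat.land (Nat.add (v1942 R) (VR.k1 R)) (VR.h1 R)) (nat_lit 15))
    (VR.cr1 R)) (Nat.sub (VR.o2 R) (v1962 R)))) (v1969 R)

noncomputable def s1970 (R : VR) (j i : ℕ) : Bool :=
  K.band (s1969 R) (s1968 R j i)

theorem e1970 (R : VR) : B2 R (v1970 R) (s1970 R) :=
  B.gand (e1969 R) (e1968 R)

noncomputable def v1971 (R : VR) : ℕ :=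
  Nat.shiftRight (Nat.land (Nat.sub (VR.h1 R) (Nat.xor (VR.caT R) (v267 R))) (VR.h1 R)) (nat_lit
    15)

noncomputable def s1971 (R : VR) (i : ℕ) : Bool :=
  Nat.beq (s127 R i) (s267 R i)

theorem e1971 (R : VR) : B (VR.S R) (v1971 R) (s1971 R) :=
  L.beq (VR.h1e R) (e127 R) (e267 R)

noncomputable def v1972 (R : VR) : ℕ :=
  Nat.add (v1938 R) (v267 R)

noncomputable def s1972 (R : VR) (i : ℕ) : ℕ :=
  Nat.add (s1938 R i) (s267 R i)

theorem e1972 (R : VR) : L (VR.S R) (v1972 R) (s1972 R) 2551 :=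
  L.add (e1938 R) (e267 R) (by decide)

noncomputable def v1973 (R : VR) : ℕ :=
  gmk (VR.h2 R) (VR.J R) (Nat.mul (Nat.add (v1938 R) (v267 R)) (VR.cr1 R))

noncomputable def v1974 (R : VR) : ℕ :=
  Nat.mod (Nat.land (gmk (VR.h2 R) (VR.J R) (Nat.mul (Nat.add (v1938 R) (v267 R)) (VR.cr1 R)))
    (v1941 R)) (VR.m1 R)

noncomputable def s1974 (R : VR) (i : ℕ) : ℕ :=
  tx (VR.adT R) (s1972 R i)

theorem e1974 (R : VR) : L (VR.S R) (v1974 R) (s1974 R) 255 :=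
  L.gat (e1972 R) (VR.ad_is R) (VR.ad_lt R) (VR.ad_le R)

noncomputable def v1975 (R : VR) : ℕ :=
  Nat.shiftRight (Nat.land (Nat.sub (VR.h1 R) (v1974 R)) (VR.h1 R)) (nat_lit 15)

noncomputable def s1975 (R : VR) (i : ℕ) : Bool :=
  Nat.beq (s1974 R i) (nat_lit 0)

theorem e1975 (R : VR) : B (VR.S R) (v1975 R) (s1975 R) :=
  L.ez (VR.h1e R) (e1974 R)

noncomputable def v1976 (R : VR) : ℕ :=
  Nat.shiftRight (Nat.land (Nat.add (v1974 R) (VR.k1 R)) (VR.h1 R)) (nat_lit 15)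

noncomputable def s1976 (R : VR) (i : ℕ) : Bool :=
  K.bnot (Nat.beq (s1974 R i) (nat_lit 0))

theorem e1976 (R : VR) : B (VR.S R) (v1976 R) (s1976 R) :=
  L.nz (VR.h1e R) (VR.k1e R) (e1974 R)

noncomputable def v1977 (R : VR) : ℕ :=
  Vc.ssub (VR.h1 R) (v1974 R) (v267 R)

noncomputable def s1977 (R : VR) (i : ℕ) : ℕ :=
  Nat.sub (s1974 R i) (s267 R i)

theorem e1977 (R : VR) : L (VR.S R) (v1977 R) (s1977 R) 255 :=
  L.sub (VR.h1e R) (e1974 R) (e267 R)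

noncomputable def v1978 (R : VR) : ℕ :=
  gmk (VR.h2 R) (VR.J R) (Nat.mul (v1977 R) (VR.cr1 R))

noncomputable def v1979 (R : VR) : ℕ :=
  Nat.mod (Nat.land (v1978 R) (v164 R)) (VR.m1 R)

noncomputable def s1979 (R : VR) (i : ℕ) : ℕ :=
  tx (VR.rhoT R) (s1977 R i)

theorem e1979 (R : VR) : L (VR.S R) (v1979 R) (s1979 R) 255 :=
  L.gat (e1977 R) (VR.rho_is R) (VR.rho_lt R) (VR.rho_le R)

noncomputable def v1980 (R : VR) : ℕ :=
  Nat.shiftRight (Nat.land (Nat.sub (VR.h1 R) (Nat.xor (VR.iota R) (Nat.mod (Nat.land (v1978 R)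
    (v164 R)) (VR.m1 R)))) (VR.h1 R)) (nat_lit 15)

noncomputable def s1980 (R : VR) (i : ℕ) : Bool :=
  Nat.beq (s0 R i) (s1979 R i)

theorem e1980 (R : VR) : B (VR.S R) (v1980 R) (s1980 R) :=
  L.beq (VR.h1e R) (e0 R) (e1979 R)

noncomputable def v1981 (R : VR) : ℕ :=
  Nat.mod (Nat.land (v1978 R) (v146 R)) (VR.m1 R)

noncomputable def s1981 (R : VR) (i : ℕ) : ℕ :=
  tx (VR.piT R) (s1977 R i)

theorem e1981 (R : VR) : L (VR.S R) (v1981 R) (s1981 R) 255 :=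
  L.gat (e1977 R) (VR.pi_is R) (VR.pi_lt R) (VR.pi_le R)

noncomputable def v1982 (R : VR) : ℕ :=
  Nat.mul (v1981 R) (VR.cr1 R)

noncomputable def s1982 (R : VR) (j i : ℕ) : ℕ :=
  (s1981 R i)

theorem e1982 (R : VR) : L2 R (v1982 R) (s1982 R) 255 :=
  L2.rep (e1981 R)

noncomputable def v1983 (R : VR) : ℕ :=
  Nat.shiftRight (Nat.land (Nat.sub (VR.h2 R) (Nat.xor (v1950 R) (Nat.mul (v1981 R) (VR.cr1 R))))
    (VR.h2 R)) (nat_lit 15)

noncomputable def s1983 (R : VR) (j i : ℕ) : Bool :=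
  Nat.beq (s1950 R j i) (s1982 R j i)

theorem e1983 (R : VR) : B2 R (v1983 R) (s1983 R) :=
  L.beq (VR.h2e R) (e1950 R) (e1982 R)

noncomputable def v1984 (R : VR) : ℕ :=
  Nat.mul (Nat.shiftRight (Nat.land (Nat.sub (VR.h1 R) (Nat.xor (VR.iota R) (Nat.mod (Nat.land
    (v1978 R) (v164 R)) (VR.m1 R)))) (VR.h1 R)) (nat_lit 15)) (VR.cr1 R)

noncomputable def s1984 (R : VR) (j i : ℕ) : Bool :=
  (s1980 R i)

theorem e1984 (R : VR) : B2 R (v1984 R) (s1984 R) :=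
  B2.rep (e1980 R)

noncomputable def v1985 (R : VR) : ℕ :=
  Nat.land (Nat.mul (Nat.shiftRight (Nat.land (Nat.sub (VR.h1 R) (Nat.xor (VR.iota R) (Nat.mod
    (Nat.land (v1978 R) (v164 R)) (VR.m1 R)))) (VR.h1 R)) (nat_lit 15)) (VR.cr1 R))
    (Nat.shiftRight (Nat.land (Nat.sub (VR.h2 R) (Nat.xor (v1950 R) (Nat.mul (v1981 R) (VR.cr1
    R)))) (VR.h2 R)) (nat_lit 15))

noncomputable def s1985 (R : VR) (j i : ℕ) : Bool :=
  K.band (s1984 R j i) (s1983 R j i)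

theorem e1985 (R : VR) : B2 R (v1985 R) (s1985 R) :=
  B.and (e1984 R) (e1983 R)

noncomputable def v1986 (R : VR) : ℕ :=
  Nat.shiftRight (Nat.land (Nat.sub (VR.h1 R) (Nat.xor (VR.rhoT R) (v1977 R))) (VR.h1 R)) (nat_lit
    15)

noncomputable def s1986 (R : VR) (i : ℕ) : Bool :=
  Nat.beq (s158 R i) (s1977 R i)

theorem e1986 (R : VR) : B (VR.S R) (v1986 R) (s1986 R) :=
  L.beq (VR.h1e R) (e158 R) (e1977 R)

noncomputable def v1987 (R : VR) : ℕ :=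
  gmk (VR.h2 R) (VR.J R) (Nat.mul (v1981 R) (VR.cr1 R))

noncomputable def v1988 (R : VR) : ℕ :=
  Nat.mod (Nat.land (gmk (VR.h2 R) (VR.J R) (Nat.mul (v1981 R) (VR.cr1 R))) (v164 R)) (VR.m1 R)

noncomputable def s1988 (R : VR) (i : ℕ) : ℕ :=
  tx (VR.rhoT R) (s1981 R i)

theorem e1988 (R : VR) : L (VR.S R) (v1988 R) (s1988 R) 255 :=
  L.gat (e1981 R) (VR.rho_is R) (VR.rho_lt R) (VR.rho_le R)

noncomputable def v1989 (R : VR) : ℕ :=
  Nat.mul (Nat.mod (Nat.land (gmk (VR.h2 R) (VR.J R) (Nat.mul (v1981 R) (VR.cr1 R))) (v164 R))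
    (VR.m1 R)) (VR.cr1 R)

noncomputable def s1989 (R : VR) (j i : ℕ) : ℕ :=
  (s1988 R i)

theorem e1989 (R : VR) : L2 R (v1989 R) (s1989 R) 255 :=
  L2.rep (e1988 R)

noncomputable def v1990 (R : VR) : ℕ :=
  Nat.shiftRight (Nat.land (Nat.sub (VR.h2 R) (Nat.xor (v528 R) (Nat.mul (Nat.mod (Nat.land (gmk
    (VR.h2 R) (VR.J R) (Nat.mul (v1981 R) (VR.cr1 R))) (v164 R)) (VR.m1 R)) (VR.cr1 R)))) (VR.h2
    R)) (nat_lit 15)

noncomputable def s1990 (R : VR) (j i : ℕ) : Bool :=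
  Nat.beq (s528 R j i) (s1989 R j i)

theorem e1990 (R : VR) : B2 R (v1990 R) (s1990 R) :=
  L.beq (VR.h2e R) (e528 R) (e1989 R)

noncomputable def v1991 (R : VR) : ℕ :=
  Nat.mul (Nat.shiftRight (Nat.land (Nat.sub (VR.h1 R) (Nat.xor (VR.rhoT R) (v1977 R))) (VR.h1 R))
    (nat_lit 15)) (VR.cr1 R)

noncomputable def s1991 (R : VR) (j i : ℕ) : Bool :=
  (s1986 R i)

theorem e1991 (R : VR) : B2 R (v1991 R) (s1991 R) :=
  B2.rep (e1986 R)

noncomputable def v1992 (R : VR) : ℕ :=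
  Nat.land (Nat.mul (Nat.shiftRight (Nat.land (Nat.sub (VR.h1 R) (Nat.xor (VR.rhoT R) (v1977 R)))
    (VR.h1 R)) (nat_lit 15)) (VR.cr1 R)) (Nat.shiftRight (Nat.land (Nat.sub (VR.h2 R) (Nat.xor
    (v528 R) (Nat.mul (Nat.mod (Nat.land (gmk (VR.h2 R) (VR.J R) (Nat.mul (v1981 R) (VR.cr1 R)))
    (v164 R)) (VR.m1 R)) (VR.cr1 R)))) (VR.h2 R)) (nat_lit 15))

noncomputable def s1992 (R : VR) (j i : ℕ) : Bool :=
  K.band (s1991 R j i) (s1990 R j i)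

theorem e1992 (R : VR) : B2 R (v1992 R) (s1992 R) :=
  B.and (e1991 R) (e1990 R)

noncomputable def v1993 (R : VR) : ℕ :=
  Nat.lor (Nat.land (Nat.mul (Nat.shiftRight (Nat.land (Nat.sub (VR.h1 R) (Nat.xor (VR.iota R)
    (Nat.mod (Nat.land (v1978 R) (v164 R)) (VR.m1 R)))) (VR.h1 R)) (nat_lit 15)) (VR.cr1 R))
    (Nat.shiftRight (Nat.land (Nat.sub (VR.h2 R) (Nat.xor (v1950 R) (Nat.mul (v1981 R) (VR.cr1
    R)))) (VR.h2 R)) (nat_lit 15))) (Nat.land (Nat.mul (Nat.shiftRight (Nat.land (Nat.sub (VR.h1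
    R) (Nat.xor (VR.rhoT R) (v1977 R))) (VR.h1 R)) (nat_lit 15)) (VR.cr1 R)) (Nat.shiftRight
    (Nat.land (Nat.sub (VR.h2 R) (Nat.xor (v528 R) (Nat.mul (Nat.mod (Nat.land (gmk (VR.h2 R)
    (VR.J R) (Nat.mul (v1981 R) (VR.cr1 R))) (v164 R)) (VR.m1 R)) (VR.cr1 R)))) (VR.h2 R))
    (nat_lit 15)))

noncomputable def s1993 (R : VR) (j i : ℕ) : Bool :=
  K.bor (s1985 R j i) (s1992 R j i)

theorem e1993 (R : VR) : B2 R (v1993 R) (s1993 R) :=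
  B.or (e1985 R) (e1992 R)

noncomputable def s1994 (R : VR) (j i : ℕ) : Bool :=
  K.Cf_exa (VR.Cf R) (s1977 R i) i j

theorem e1994 (R : VR) : B2 R (v1993 R) (s1994 R) :=
  e1993 R

noncomputable def v1995 (R : VR) : ℕ :=
  Nat.sub (VR.o2 R) (v1993 R)

noncomputable def s1995 (R : VR) (j i : ℕ) : Bool :=
  K.bnot (s1994 R j i)

theorem e1995 (R : VR) : B2 R (v1995 R) (s1995 R) :=
  B.not (VR.o2e R) (e1994 R)

noncomputable def v1996 (R : VR) : ℕ :=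
  Nat.mul (Nat.shiftRight (Nat.land (Nat.add (v1974 R) (VR.k1 R)) (VR.h1 R)) (nat_lit 15)) (VR.cr1
    R)

noncomputable def s1996 (R : VR) (j i : ℕ) : Bool :=
  (s1976 R i)

theorem e1996 (R : VR) : B2 R (v1996 R) (s1996 R) :=
  B2.rep (e1976 R)

noncomputable def v1997 (R : VR) : ℕ :=
  Nat.land (Nat.mul (Nat.shiftRight (Nat.land (Nat.add (v1974 R) (VR.k1 R)) (VR.h1 R)) (nat_lit
    15)) (VR.cr1 R)) (Nat.sub (VR.o2 R) (v1993 R))

noncomputable def s1997 (R : VR) (j i : ℕ) : Bool :=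
  K.band (s1996 R j i) (s1995 R j i)

theorem e1997 (R : VR) : B2 R (v1997 R) (s1997 R) :=
  B.and (e1996 R) (e1995 R)

noncomputable def v1998 (R : VR) : ℕ :=
  srM (VR.N R) (VR.S R) (VR.o1 R) (Nat.shiftRight (Nat.land (Nat.sub (VR.h1 R) (Nat.xor (VR.caT R)
    (v267 R))) (VR.h1 R)) (nat_lit 15))

noncomputable def s1998 (R : VR) (j i : ℕ) : Bool :=
  (s1971 R j)

theorem e1998 (R : VR) : B2 R (v1998 R) (s1998 R) :=
  B2.row (e1971 R)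

noncomputable def v1999 (R : VR) : ℕ :=
  Nat.land (srM (VR.N R) (VR.S R) (VR.o1 R) (Nat.shiftRight (Nat.land (Nat.sub (VR.h1 R) (Nat.xor
    (VR.caT R) (v267 R))) (VR.h1 R)) (nat_lit 15))) (Nat.land (Nat.mul (Nat.shiftRight (Nat.land
    (Nat.add (v1974 R) (VR.k1 R)) (VR.h1 R)) (nat_lit 15)) (VR.cr1 R)) (Nat.sub (VR.o2 R) (v1993
    R)))

noncomputable def s1999 (R : VR) (j i : ℕ) : Bool :=
  K.band (s1998 R j i) (s1997 R j i)

theorem e1999 (R : VR) : B2 R (v1999 R) (s1999 R) :=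
  B.and (e1998 R) (e1997 R)

noncomputable def v2000 (R : VR) : Bool :=
  Nat.ble (Nat.succ (v226 R)) (v510 R)

noncomputable def s2000 (R : VR) : Bool :=
  Nat.ble (Nat.succ (s226 R)) (s510 R)

theorem e2000 (R : VR) : (v2000 R) = s2000 R :=
  congrArg₂ Nat.ble (congrArg Nat.succ (e226 R)) (e510 R)

noncomputable def v2001 (R : VR) : ℕ :=
  Bool.rec (motive := fun _ => ℕ) (nat_lit 0) (Nat.land (srM (VR.N R) (VR.S R) (VR.o1 R)
    (Nat.shiftRight (Nat.land (Nat.sub (VR.h1 R) (Nat.xor (VR.caT R) (v267 R))) (VR.h1 R))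
    (nat_lit 15))) (Nat.land (Nat.mul (Nat.shiftRight (Nat.land (Nat.add (v1974 R) (VR.k1 R))
    (VR.h1 R)) (nat_lit 15)) (VR.cr1 R)) (Nat.sub (VR.o2 R) (v1993 R)))) (v2000 R)

noncomputable def s2001 (R : VR) (j i : ℕ) : Bool :=
  K.band (s2000 R) (s1999 R j i)

theorem e2001 (R : VR) : B2 R (v2001 R) (s2001 R) :=
  B.gand (e2000 R) (e1999 R)

noncomputable def v2002 (R : VR) : ℕ :=
  Nat.shiftRight (Nat.land (Nat.sub (VR.h1 R) (Nat.xor (VR.caT R) (v359 R))) (VR.h1 R)) (nat_lit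
    15)

noncomputable def s2002 (R : VR) (i : ℕ) : Bool :=
  Nat.beq (s127 R i) (s359 R i)

theorem e2002 (R : VR) : B (VR.S R) (v2002 R) (s2002 R) :=
  L.beq (VR.h1e R) (e127 R) (e359 R)

noncomputable def v2003 (R : VR) : ℕ :=
  Nat.add (v1938 R) (v359 R)

noncomputable def s2003 (R : VR) (i : ℕ) : ℕ :=
  Nat.add (s1938 R i) (s359 R i)

theorem e2003 (R : VR) : L (VR.S R) (v2003 R) (s2003 R) 2552 :=
  L.add (e1938 R) (e359 R) (by decide)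

noncomputable def v2004 (R : VR) : ℕ :=
  gmk (VR.h2 R) (VR.J R) (Nat.mul (Nat.add (v1938 R) (v359 R)) (VR.cr1 R))

noncomputable def v2005 (R : VR) : ℕ :=
  Nat.mod (Nat.land (gmk (VR.h2 R) (VR.J R) (Nat.mul (Nat.add (v1938 R) (v359 R)) (VR.cr1 R)))
    (v1941 R)) (VR.m1 R)

noncomputable def s2005 (R : VR) (i : ℕ) : ℕ :=
  tx (VR.adT R) (s2003 R i)

theorem e2005 (R : VR) : L (VR.S R) (v2005 R) (s2005 R) 255 :=
  L.gat (e2003 R) (VR.ad_is R) (VR.ad_lt R) (VR.ad_le R)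

noncomputable def v2006 (R : VR) : ℕ :=
  Nat.shiftRight (Nat.land (Nat.sub (VR.h1 R) (v2005 R)) (VR.h1 R)) (nat_lit 15)

noncomputable def s2006 (R : VR) (i : ℕ) : Bool :=
  Nat.beq (s2005 R i) (nat_lit 0)

theorem e2006 (R : VR) : B (VR.S R) (v2006 R) (s2006 R) :=
  L.ez (VR.h1e R) (e2005 R)

noncomputable def v2007 (R : VR) : ℕ :=
  Nat.shiftRight (Nat.land (Nat.add (v2005 R) (VR.k1 R)) (VR.h1 R)) (nat_lit 15)

noncomputable def s2007 (R : VR) (i : ℕ) : Bool :=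
  K.bnot (Nat.beq (s2005 R i) (nat_lit 0))

theorem e2007 (R : VR) : B (VR.S R) (v2007 R) (s2007 R) :=
  L.nz (VR.h1e R) (VR.k1e R) (e2005 R)

noncomputable def v2008 (R : VR) : ℕ :=
  Vc.ssub (VR.h1 R) (v2005 R) (v267 R)

noncomputable def s2008 (R : VR) (i : ℕ) : ℕ :=
  Nat.sub (s2005 R i) (s267 R i)

theorem e2008 (R : VR) : L (VR.S R) (v2008 R) (s2008 R) 255 :=
  L.sub (VR.h1e R) (e2005 R) (e267 R)

noncomputable def v2009 (R : VR) : ℕ :=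
  gmk (VR.h2 R) (VR.J R) (Nat.mul (v2008 R) (VR.cr1 R))

noncomputable def v2010 (R : VR) : ℕ :=
  Nat.mod (Nat.land (v2009 R) (v164 R)) (VR.m1 R)

noncomputable def s2010 (R : VR) (i : ℕ) : ℕ :=
  tx (VR.rhoT R) (s2008 R i)

theorem e2010 (R : VR) : L (VR.S R) (v2010 R) (s2010 R) 255 :=
  L.gat (e2008 R) (VR.rho_is R) (VR.rho_lt R) (VR.rho_le R)

noncomputable def v2011 (R : VR) : ℕ :=
  Nat.shiftRight (Nat.land (Nat.sub (VR.h1 R) (Nat.xor (VR.iota R) (Nat.mod (Nat.land (v2009 R)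
    (v164 R)) (VR.m1 R)))) (VR.h1 R)) (nat_lit 15)

noncomputable def s2011 (R : VR) (i : ℕ) : Bool :=
  Nat.beq (s0 R i) (s2010 R i)

theorem e2011 (R : VR) : B (VR.S R) (v2011 R) (s2011 R) :=
  L.beq (VR.h1e R) (e0 R) (e2010 R)

noncomputable def v2012 (R : VR) : ℕ :=
  Nat.mod (Nat.land (v2009 R) (v146 R)) (VR.m1 R)

noncomputable def s2012 (R : VR) (i : ℕ) : ℕ :=
  tx (VR.piT R) (s2008 R i)

theorem e2012 (R : VR) : L (VR.S R) (v2012 R) (s2012 R) 255 :=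
  L.gat (e2008 R) (VR.pi_is R) (VR.pi_lt R) (VR.pi_le R)

noncomputable def v2013 (R : VR) : ℕ :=
  Nat.mul (v2012 R) (VR.cr1 R)

noncomputable def s2013 (R : VR) (j i : ℕ) : ℕ :=
  (s2012 R i)

theorem e2013 (R : VR) : L2 R (v2013 R) (s2013 R) 255 :=
  L2.rep (e2012 R)

noncomputable def v2014 (R : VR) : ℕ :=
  Nat.shiftRight (Nat.land (Nat.sub (VR.h2 R) (Nat.xor (v1950 R) (Nat.mul (v2012 R) (VR.cr1 R))))
    (VR.h2 R)) (nat_lit 15)

noncomputable def s2014 (R : VR) (j i : ℕ) : Bool :=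
  Nat.beq (s1950 R j i) (s2013 R j i)

theorem e2014 (R : VR) : B2 R (v2014 R) (s2014 R) :=
  L.beq (VR.h2e R) (e1950 R) (e2013 R)

noncomputable def v2015 (R : VR) : ℕ :=
  Nat.mul (Nat.shiftRight (Nat.land (Nat.sub (VR.h1 R) (Nat.xor (VR.iota R) (Nat.mod (Nat.land
    (v2009 R) (v164 R)) (VR.m1 R)))) (VR.h1 R)) (nat_lit 15)) (VR.cr1 R)

noncomputable def s2015 (R : VR) (j i : ℕ) : Bool :=
  (s2011 R i)

theorem e2015 (R : VR) : B2 R (v2015 R) (s2015 R) :=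
  B2.rep (e2011 R)

noncomputable def v2016 (R : VR) : ℕ :=
  Nat.land (Nat.mul (Nat.shiftRight (Nat.land (Nat.sub (VR.h1 R) (Nat.xor (VR.iota R) (Nat.mod
    (Nat.land (v2009 R) (v164 R)) (VR.m1 R)))) (VR.h1 R)) (nat_lit 15)) (VR.cr1 R))
    (Nat.shiftRight (Nat.land (Nat.sub (VR.h2 R) (Nat.xor (v1950 R) (Nat.mul (v2012 R) (VR.cr1
    R)))) (VR.h2 R)) (nat_lit 15))

noncomputable def s2016 (R : VR) (j i : ℕ) : Bool :=
  K.band (s2015 R j i) (s2014 R j i)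

theorem e2016 (R : VR) : B2 R (v2016 R) (s2016 R) :=
  B.and (e2015 R) (e2014 R)

noncomputable def v2017 (R : VR) : ℕ :=
  Nat.shiftRight (Nat.land (Nat.sub (VR.h1 R) (Nat.xor (VR.rhoT R) (v2008 R))) (VR.h1 R)) (nat_lit
    15)

noncomputable def s2017 (R : VR) (i : ℕ) : Bool :=
  Nat.beq (s158 R i) (s2008 R i)

theorem e2017 (R : VR) : B (VR.S R) (v2017 R) (s2017 R) :=
  L.beq (VR.h1e R) (e158 R) (e2008 R)

noncomputable def v2018 (R : VR) : ℕ :=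
  gmk (VR.h2 R) (VR.J R) (Nat.mul (v2012 R) (VR.cr1 R))

noncomputable def v2019 (R : VR) : ℕ :=
  Nat.mod (Nat.land (gmk (VR.h2 R) (VR.J R) (Nat.mul (v2012 R) (VR.cr1 R))) (v164 R)) (VR.m1 R)

noncomputable def s2019 (R : VR) (i : ℕ) : ℕ :=
  tx (VR.rhoT R) (s2012 R i)

theorem e2019 (R : VR) : L (VR.S R) (v2019 R) (s2019 R) 255 :=
  L.gat (e2012 R) (VR.rho_is R) (VR.rho_lt R) (VR.rho_le R)

noncomputable def v2020 (R : VR) : ℕ :=
  Nat.mul (Nat.mod (Nat.land (gmk (VR.h2 R) (VR.J R) (Nat.mul (v2012 R) (VR.cr1 R))) (v164 R))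
    (VR.m1 R)) (VR.cr1 R)

noncomputable def s2020 (R : VR) (j i : ℕ) : ℕ :=
  (s2019 R i)

theorem e2020 (R : VR) : L2 R (v2020 R) (s2020 R) 255 :=
  L2.rep (e2019 R)

noncomputable def v2021 (R : VR) : ℕ :=
  Nat.shiftRight (Nat.land (Nat.sub (VR.h2 R) (Nat.xor (v528 R) (Nat.mul (Nat.mod (Nat.land (gmk
    (VR.h2 R) (VR.J R) (Nat.mul (v2012 R) (VR.cr1 R))) (v164 R)) (VR.m1 R)) (VR.cr1 R)))) (VR.h2
    R)) (nat_lit 15)

noncomputable def s2021 (R : VR) (j i : ℕ) : Bool :=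
  Nat.beq (s528 R j i) (s2020 R j i)

theorem e2021 (R : VR) : B2 R (v2021 R) (s2021 R) :=
  L.beq (VR.h2e R) (e528 R) (e2020 R)

noncomputable def v2022 (R : VR) : ℕ :=
  Nat.mul (Nat.shiftRight (Nat.land (Nat.sub (VR.h1 R) (Nat.xor (VR.rhoT R) (v2008 R))) (VR.h1 R))
    (nat_lit 15)) (VR.cr1 R)

noncomputable def s2022 (R : VR) (j i : ℕ) : Bool :=
  (s2017 R i)

theorem e2022 (R : VR) : B2 R (v2022 R) (s2022 R) :=
  B2.rep (e2017 R)

noncomputable def v2023 (R : VR) : ℕ :=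
  Nat.land (Nat.mul (Nat.shiftRight (Nat.land (Nat.sub (VR.h1 R) (Nat.xor (VR.rhoT R) (v2008 R)))
    (VR.h1 R)) (nat_lit 15)) (VR.cr1 R)) (Nat.shiftRight (Nat.land (Nat.sub (VR.h2 R) (Nat.xor
    (v528 R) (Nat.mul (Nat.mod (Nat.land (gmk (VR.h2 R) (VR.J R) (Nat.mul (v2012 R) (VR.cr1 R)))
    (v164 R)) (VR.m1 R)) (VR.cr1 R)))) (VR.h2 R)) (nat_lit 15))

noncomputable def s2023 (R : VR) (j i : ℕ) : Bool :=
  K.band (s2022 R j i) (s2021 R j i)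

theorem e2023 (R : VR) : B2 R (v2023 R) (s2023 R) :=
  B.and (e2022 R) (e2021 R)

noncomputable def v2024 (R : VR) : ℕ :=
  Nat.lor (Nat.land (Nat.mul (Nat.shiftRight (Nat.land (Nat.sub (VR.h1 R) (Nat.xor (VR.iota R)
    (Nat.mod (Nat.land (v2009 R) (v164 R)) (VR.m1 R)))) (VR.h1 R)) (nat_lit 15)) (VR.cr1 R))
    (Nat.shiftRight (Nat.land (Nat.sub (VR.h2 R) (Nat.xor (v1950 R) (Nat.mul (v2012 R) (VR.cr1
    R)))) (VR.h2 R)) (nat_lit 15))) (Nat.land (Nat.mul (Nat.shiftRight (Nat.land (Nat.sub (VR.h1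
    R) (Nat.xor (VR.rhoT R) (v2008 R))) (VR.h1 R)) (nat_lit 15)) (VR.cr1 R)) (Nat.shiftRight
    (Nat.land (Nat.sub (VR.h2 R) (Nat.xor (v528 R) (Nat.mul (Nat.mod (Nat.land (gmk (VR.h2 R)
    (VR.J R) (Nat.mul (v2012 R) (VR.cr1 R))) (v164 R)) (VR.m1 R)) (VR.cr1 R)))) (VR.h2 R))
    (nat_lit 15)))

noncomputable def s2024 (R : VR) (j i : ℕ) : Bool :=
  K.bor (s2016 R j i) (s2023 R j i)

theorem e2024 (R : VR) : B2 R (v2024 R) (s2024 R) :=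
  B.or (e2016 R) (e2023 R)

noncomputable def s2025 (R : VR) (j i : ℕ) : Bool :=
  K.Cf_exa (VR.Cf R) (s2008 R i) i j

theorem e2025 (R : VR) : B2 R (v2024 R) (s2025 R) :=
  e2024 R

noncomputable def v2026 (R : VR) : ℕ :=
  Nat.sub (VR.o2 R) (v2024 R)

noncomputable def s2026 (R : VR) (j i : ℕ) : Bool :=
  K.bnot (s2025 R j i)

theorem e2026 (R : VR) : B2 R (v2026 R) (s2026 R) :=
  B.not (VR.o2e R) (e2025 R)

noncomputable def v2027 (R : VR) : ℕ :=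
  Nat.mul (Nat.shiftRight (Nat.land (Nat.add (v2005 R) (VR.k1 R)) (VR.h1 R)) (nat_lit 15)) (VR.cr1
    R)

noncomputable def s2027 (R : VR) (j i : ℕ) : Bool :=
  (s2007 R i)

theorem e2027 (R : VR) : B2 R (v2027 R) (s2027 R) :=
  B2.rep (e2007 R)

noncomputable def v2028 (R : VR) : ℕ :=
  Nat.land (Nat.mul (Nat.shiftRight (Nat.land (Nat.add (v2005 R) (VR.k1 R)) (VR.h1 R)) (nat_lit
    15)) (VR.cr1 R)) (Nat.sub (VR.o2 R) (v2024 R))

noncomputable def s2028 (R : VR) (j i : ℕ) : Bool :=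
  K.band (s2027 R j i) (s2026 R j i)

theorem e2028 (R : VR) : B2 R (v2028 R) (s2028 R) :=
  B.and (e2027 R) (e2026 R)

noncomputable def v2029 (R : VR) : ℕ :=
  srM (VR.N R) (VR.S R) (VR.o1 R) (Nat.shiftRight (Nat.land (Nat.sub (VR.h1 R) (Nat.xor (VR.caT R)
    (v359 R))) (VR.h1 R)) (nat_lit 15))

noncomputable def s2029 (R : VR) (j i : ℕ) : Bool :=
  (s2002 R j)

theorem e2029 (R : VR) : B2 R (v2029 R) (s2029 R) :=
  B2.row (e2002 R)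

noncomputable def v2030 (R : VR) : ℕ :=
  Nat.land (srM (VR.N R) (VR.S R) (VR.o1 R) (Nat.shiftRight (Nat.land (Nat.sub (VR.h1 R) (Nat.xor
    (VR.caT R) (v359 R))) (VR.h1 R)) (nat_lit 15))) (Nat.land (Nat.mul (Nat.shiftRight (Nat.land
    (Nat.add (v2005 R) (VR.k1 R)) (VR.h1 R)) (nat_lit 15)) (VR.cr1 R)) (Nat.sub (VR.o2 R) (v2024
    R)))

noncomputable def s2030 (R : VR) (j i : ℕ) : Bool :=
  K.band (s2029 R j i) (s2028 R j i)

theorem e2030 (R : VR) : B2 R (v2030 R) (s2030 R) :=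
  B.and (e2029 R) (e2028 R)

noncomputable def v2031 (R : VR) : Bool :=
  Nat.ble (Nat.succ (v259 R)) (v510 R)

noncomputable def s2031 (R : VR) : Bool :=
  Nat.ble (Nat.succ (s259 R)) (s510 R)

theorem e2031 (R : VR) : (v2031 R) = s2031 R :=
  congrArg₂ Nat.ble (congrArg Nat.succ (e259 R)) (e510 R)

noncomputable def v2032 (R : VR) : ℕ :=
  Bool.rec (motive := fun _ => ℕ) (nat_lit 0) (Nat.land (srM (VR.N R) (VR.S R) (VR.o1 R)
    (Nat.shiftRight (Nat.land (Nat.sub (VR.h1 R) (Nat.xor (VR.caT R) (v359 R))) (VR.h1 R))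
    (nat_lit 15))) (Nat.land (Nat.mul (Nat.shiftRight (Nat.land (Nat.add (v2005 R) (VR.k1 R))
    (VR.h1 R)) (nat_lit 15)) (VR.cr1 R)) (Nat.sub (VR.o2 R) (v2024 R)))) (v2031 R)

noncomputable def s2032 (R : VR) (j i : ℕ) : Bool :=
  K.band (s2031 R) (s2030 R j i)

theorem e2032 (R : VR) : B2 R (v2032 R) (s2032 R) :=
  B.gand (e2031 R) (e2030 R)

noncomputable def v2033 (R : VR) : ℕ :=
  Nat.shiftRight (Nat.land (Nat.sub (VR.h1 R) (Nat.xor (VR.caT R) (v1017 R))) (VR.h1 R)) (nat_lit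
    15)

noncomputable def s2033 (R : VR) (i : ℕ) : Bool :=
  Nat.beq (s127 R i) (s1017 R i)

theorem e2033 (R : VR) : B (VR.S R) (v2033 R) (s2033 R) :=
  L.beq (VR.h1e R) (e127 R) (e1017 R)

noncomputable def v2034 (R : VR) : ℕ :=
  Nat.add (v1938 R) (v1017 R)

noncomputable def s2034 (R : VR) (i : ℕ) : ℕ :=
  Nat.add (s1938 R i) (s1017 R i)

theorem e2034 (R : VR) : L (VR.S R) (v2034 R) (s2034 R) 2553 :=
  L.add (e1938 R) (e1017 R) (by decide)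

noncomputable def v2035 (R : VR) : ℕ :=
  gmk (VR.h2 R) (VR.J R) (Nat.mul (Nat.add (v1938 R) (v1017 R)) (VR.cr1 R))

noncomputable def v2036 (R : VR) : ℕ :=
  Nat.mod (Nat.land (gmk (VR.h2 R) (VR.J R) (Nat.mul (Nat.add (v1938 R) (v1017 R)) (VR.cr1 R)))
    (v1941 R)) (VR.m1 R)

noncomputable def s2036 (R : VR) (i : ℕ) : ℕ :=
  tx (VR.adT R) (s2034 R i)

theorem e2036 (R : VR) : L (VR.S R) (v2036 R) (s2036 R) 255 :=
  L.gat (e2034 R) (VR.ad_is R) (VR.ad_lt R) (VR.ad_le R)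

noncomputable def v2037 (R : VR) : ℕ :=
  Nat.shiftRight (Nat.land (Nat.sub (VR.h1 R) (v2036 R)) (VR.h1 R)) (nat_lit 15)

noncomputable def s2037 (R : VR) (i : ℕ) : Bool :=
  Nat.beq (s2036 R i) (nat_lit 0)

theorem e2037 (R : VR) : B (VR.S R) (v2037 R) (s2037 R) :=
  L.ez (VR.h1e R) (e2036 R)

noncomputable def v2038 (R : VR) : ℕ :=
  Nat.shiftRight (Nat.land (Nat.add (v2036 R) (VR.k1 R)) (VR.h1 R)) (nat_lit 15)

noncomputable def s2038 (R : VR) (i : ℕ) : Bool :=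
  K.bnot (Nat.beq (s2036 R i) (nat_lit 0))

theorem e2038 (R : VR) : B (VR.S R) (v2038 R) (s2038 R) :=
  L.nz (VR.h1e R) (VR.k1e R) (e2036 R)

noncomputable def v2039 (R : VR) : ℕ :=
  Vc.ssub (VR.h1 R) (v2036 R) (v267 R)

noncomputable def s2039 (R : VR) (i : ℕ) : ℕ :=
  Nat.sub (s2036 R i) (s267 R i)

theorem e2039 (R : VR) : L (VR.S R) (v2039 R) (s2039 R) 255 :=
  L.sub (VR.h1e R) (e2036 R) (e267 R)

noncomputable def v2040 (R : VR) : ℕ :=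
  gmk (VR.h2 R) (VR.J R) (Nat.mul (v2039 R) (VR.cr1 R))

noncomputable def v2041 (R : VR) : ℕ :=
  Nat.mod (Nat.land (v2040 R) (v164 R)) (VR.m1 R)

noncomputable def s2041 (R : VR) (i : ℕ) : ℕ :=
  tx (VR.rhoT R) (s2039 R i)

theorem e2041 (R : VR) : L (VR.S R) (v2041 R) (s2041 R) 255 :=
  L.gat (e2039 R) (VR.rho_is R) (VR.rho_lt R) (VR.rho_le R)

noncomputable def v2042 (R : VR) : ℕ :=
  Nat.shiftRight (Nat.land (Nat.sub (VR.h1 R) (Nat.xor (VR.iota R) (Nat.mod (Nat.land (v2040 R)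
    (v164 R)) (VR.m1 R)))) (VR.h1 R)) (nat_lit 15)

noncomputable def s2042 (R : VR) (i : ℕ) : Bool :=
  Nat.beq (s0 R i) (s2041 R i)

theorem e2042 (R : VR) : B (VR.S R) (v2042 R) (s2042 R) :=
  L.beq (VR.h1e R) (e0 R) (e2041 R)

noncomputable def v2043 (R : VR) : ℕ :=
  Nat.mod (Nat.land (v2040 R) (v146 R)) (VR.m1 R)

noncomputable def s2043 (R : VR) (i : ℕ) : ℕ :=
  tx (VR.piT R) (s2039 R i)

theorem e2043 (R : VR) : L (VR.S R) (v2043 R) (s2043 R) 255 :=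
  L.gat (e2039 R) (VR.pi_is R) (VR.pi_lt R) (VR.pi_le R)

noncomputable def v2044 (R : VR) : ℕ :=
  Nat.mul (v2043 R) (VR.cr1 R)

noncomputable def s2044 (R : VR) (j i : ℕ) : ℕ :=
  (s2043 R i)

theorem e2044 (R : VR) : L2 R (v2044 R) (s2044 R) 255 :=
  L2.rep (e2043 R)

noncomputable def v2045 (R : VR) : ℕ :=
  Nat.shiftRight (Nat.land (Nat.sub (VR.h2 R) (Nat.xor (v1950 R) (Nat.mul (v2043 R) (VR.cr1 R))))
    (VR.h2 R)) (nat_lit 15)

noncomputable def s2045 (R : VR) (j i : ℕ) : Bool :=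
  Nat.beq (s1950 R j i) (s2044 R j i)

theorem e2045 (R : VR) : B2 R (v2045 R) (s2045 R) :=
  L.beq (VR.h2e R) (e1950 R) (e2044 R)

noncomputable def v2046 (R : VR) : ℕ :=
  Nat.mul (Nat.shiftRight (Nat.land (Nat.sub (VR.h1 R) (Nat.xor (VR.iota R) (Nat.mod (Nat.land
    (v2040 R) (v164 R)) (VR.m1 R)))) (VR.h1 R)) (nat_lit 15)) (VR.cr1 R)

noncomputable def s2046 (R : VR) (j i : ℕ) : Bool :=
  (s2042 R i)

theorem e2046 (R : VR) : B2 R (v2046 R) (s2046 R) :=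
  B2.rep (e2042 R)

noncomputable def v2047 (R : VR) : ℕ :=
  Nat.land (Nat.mul (Nat.shiftRight (Nat.land (Nat.sub (VR.h1 R) (Nat.xor (VR.iota R) (Nat.mod
    (Nat.land (v2040 R) (v164 R)) (VR.m1 R)))) (VR.h1 R)) (nat_lit 15)) (VR.cr1 R))
    (Nat.shiftRight (Nat.land (Nat.sub (VR.h2 R) (Nat.xor (v1950 R) (Nat.mul (v2043 R) (VR.cr1
    R)))) (VR.h2 R)) (nat_lit 15))

noncomputable def s2047 (R : VR) (j i : ℕ) : Bool :=
  K.band (s2046 R j i) (s2045 R j i)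

theorem e2047 (R : VR) : B2 R (v2047 R) (s2047 R) :=
  B.and (e2046 R) (e2045 R)

noncomputable def v2048 (R : VR) : ℕ :=
  Nat.shiftRight (Nat.land (Nat.sub (VR.h1 R) (Nat.xor (VR.rhoT R) (v2039 R))) (VR.h1 R)) (nat_lit
    15)

noncomputable def s2048 (R : VR) (i : ℕ) : Bool :=
  Nat.beq (s158 R i) (s2039 R i)

theorem e2048 (R : VR) : B (VR.S R) (v2048 R) (s2048 R) :=
  L.beq (VR.h1e R) (e158 R) (e2039 R)

noncomputable def v2049 (R : VR) : ℕ :=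
  gmk (VR.h2 R) (VR.J R) (Nat.mul (v2043 R) (VR.cr1 R))

noncomputable def v2050 (R : VR) : ℕ :=
  Nat.mod (Nat.land (gmk (VR.h2 R) (VR.J R) (Nat.mul (v2043 R) (VR.cr1 R))) (v164 R)) (VR.m1 R)

noncomputable def s2050 (R : VR) (i : ℕ) : ℕ :=
  tx (VR.rhoT R) (s2043 R i)

theorem e2050 (R : VR) : L (VR.S R) (v2050 R) (s2050 R) 255 :=
  L.gat (e2043 R) (VR.rho_is R) (VR.rho_lt R) (VR.rho_le R)

noncomputable def v2051 (R : VR) : ℕ :=
  Nat.mul (Nat.mod (Nat.land (gmk (VR.h2 R) (VR.J R) (Nat.mul (v2043 R) (VR.cr1 R))) (v164 R))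
    (VR.m1 R)) (VR.cr1 R)

noncomputable def s2051 (R : VR) (j i : ℕ) : ℕ :=
  (s2050 R i)

theorem e2051 (R : VR) : L2 R (v2051 R) (s2051 R) 255 :=
  L2.rep (e2050 R)

noncomputable def v2052 (R : VR) : ℕ :=
  Nat.shiftRight (Nat.land (Nat.sub (VR.h2 R) (Nat.xor (v528 R) (Nat.mul (Nat.mod (Nat.land (gmk
    (VR.h2 R) (VR.J R) (Nat.mul (v2043 R) (VR.cr1 R))) (v164 R)) (VR.m1 R)) (VR.cr1 R)))) (VR.h2
    R)) (nat_lit 15)

noncomputable def s2052 (R : VR) (j i : ℕ) : Bool :=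
  Nat.beq (s528 R j i) (s2051 R j i)

theorem e2052 (R : VR) : B2 R (v2052 R) (s2052 R) :=
  L.beq (VR.h2e R) (e528 R) (e2051 R)

noncomputable def v2053 (R : VR) : ℕ :=
  Nat.mul (Nat.shiftRight (Nat.land (Nat.sub (VR.h1 R) (Nat.xor (VR.rhoT R) (v2039 R))) (VR.h1 R))
    (nat_lit 15)) (VR.cr1 R)

noncomputable def s2053 (R : VR) (j i : ℕ) : Bool :=
  (s2048 R i)

theorem e2053 (R : VR) : B2 R (v2053 R) (s2053 R) :=
  B2.rep (e2048 R)

noncomputable def v2054 (R : VR) : ℕ :=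
  Nat.land (Nat.mul (Nat.shiftRight (Nat.land (Nat.sub (VR.h1 R) (Nat.xor (VR.rhoT R) (v2039 R)))
    (VR.h1 R)) (nat_lit 15)) (VR.cr1 R)) (Nat.shiftRight (Nat.land (Nat.sub (VR.h2 R) (Nat.xor
    (v528 R) (Nat.mul (Nat.mod (Nat.land (gmk (VR.h2 R) (VR.J R) (Nat.mul (v2043 R) (VR.cr1 R)))
    (v164 R)) (VR.m1 R)) (VR.cr1 R)))) (VR.h2 R)) (nat_lit 15))

noncomputable def s2054 (R : VR) (j i : ℕ) : Bool :=
  K.band (s2053 R j i) (s2052 R j i)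

theorem e2054 (R : VR) : B2 R (v2054 R) (s2054 R) :=
  B.and (e2053 R) (e2052 R)

noncomputable def v2055 (R : VR) : ℕ :=
  Nat.lor (Nat.land (Nat.mul (Nat.shiftRight (Nat.land (Nat.sub (VR.h1 R) (Nat.xor (VR.iota R)
    (Nat.mod (Nat.land (v2040 R) (v164 R)) (VR.m1 R)))) (VR.h1 R)) (nat_lit 15)) (VR.cr1 R))
    (Nat.shiftRight (Nat.land (Nat.sub (VR.h2 R) (Nat.xor (v1950 R) (Nat.mul (v2043 R) (VR.cr1
    R)))) (VR.h2 R)) (nat_lit 15))) (Nat.land (Nat.mul (Nat.shiftRight (Nat.land (Nat.sub (VR.h1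
    R) (Nat.xor (VR.rhoT R) (v2039 R))) (VR.h1 R)) (nat_lit 15)) (VR.cr1 R)) (Nat.shiftRight
    (Nat.land (Nat.sub (VR.h2 R) (Nat.xor (v528 R) (Nat.mul (Nat.mod (Nat.land (gmk (VR.h2 R)
    (VR.J R) (Nat.mul (v2043 R) (VR.cr1 R))) (v164 R)) (VR.m1 R)) (VR.cr1 R)))) (VR.h2 R))
    (nat_lit 15)))

noncomputable def s2055 (R : VR) (j i : ℕ) : Bool :=
  K.bor (s2047 R j i) (s2054 R j i)

theorem e2055 (R : VR) : B2 R (v2055 R) (s2055 R) :=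
  B.or (e2047 R) (e2054 R)

noncomputable def s2056 (R : VR) (j i : ℕ) : Bool :=
  K.Cf_exa (VR.Cf R) (s2039 R i) i j

theorem e2056 (R : VR) : B2 R (v2055 R) (s2056 R) :=
  e2055 R

noncomputable def v2057 (R : VR) : ℕ :=
  Nat.sub (VR.o2 R) (v2055 R)

noncomputable def s2057 (R : VR) (j i : ℕ) : Bool :=
  K.bnot (s2056 R j i)

theorem e2057 (R : VR) : B2 R (v2057 R) (s2057 R) :=
  B.not (VR.o2e R) (e2056 R)

noncomputable def v2058 (R : VR) : ℕ :=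
  Nat.mul (Nat.shiftRight (Nat.land (Nat.add (v2036 R) (VR.k1 R)) (VR.h1 R)) (nat_lit 15)) (VR.cr1
    R)

noncomputable def s2058 (R : VR) (j i : ℕ) : Bool :=
  (s2038 R i)

theorem e2058 (R : VR) : B2 R (v2058 R) (s2058 R) :=
  B2.rep (e2038 R)

noncomputable def v2059 (R : VR) : ℕ :=
  Nat.land (Nat.mul (Nat.shiftRight (Nat.land (Nat.add (v2036 R) (VR.k1 R)) (VR.h1 R)) (nat_lit
    15)) (VR.cr1 R)) (Nat.sub (VR.o2 R) (v2055 R))

noncomputable def s2059 (R : VR) (j i : ℕ) : Bool :=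
  K.band (s2058 R j i) (s2057 R j i)

theorem e2059 (R : VR) : B2 R (v2059 R) (s2059 R) :=
  B.and (e2058 R) (e2057 R)

noncomputable def v2060 (R : VR) : ℕ :=
  srM (VR.N R) (VR.S R) (VR.o1 R) (Nat.shiftRight (Nat.land (Nat.sub (VR.h1 R) (Nat.xor (VR.caT R)
    (v1017 R))) (VR.h1 R)) (nat_lit 15))

noncomputable def s2060 (R : VR) (j i : ℕ) : Bool :=
  (s2033 R j)

theorem e2060 (R : VR) : B2 R (v2060 R) (s2060 R) :=
  B2.row (e2033 R)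

noncomputable def v2061 (R : VR) : ℕ :=
  Nat.land (srM (VR.N R) (VR.S R) (VR.o1 R) (Nat.shiftRight (Nat.land (Nat.sub (VR.h1 R) (Nat.xor
    (VR.caT R) (v1017 R))) (VR.h1 R)) (nat_lit 15))) (Nat.land (Nat.mul (Nat.shiftRight (Nat.land
    (Nat.add (v2036 R) (VR.k1 R)) (VR.h1 R)) (nat_lit 15)) (VR.cr1 R)) (Nat.sub (VR.o2 R) (v2055
    R)))

noncomputable def s2061 (R : VR) (j i : ℕ) : Bool :=
  K.band (s2060 R j i) (s2059 R j i)

theorem e2061 (R : VR) : B2 R (v2061 R) (s2061 R) :=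
  B.and (e2060 R) (e2059 R)

noncomputable def v2062 (R : VR) : Bool :=
  Nat.ble (Nat.succ (v242 R)) (v510 R)

noncomputable def s2062 (R : VR) : Bool :=
  Nat.ble (Nat.succ (s242 R)) (s510 R)

theorem e2062 (R : VR) : (v2062 R) = s2062 R :=
  congrArg₂ Nat.ble (congrArg Nat.succ (e242 R)) (e510 R)

noncomputable def v2063 (R : VR) : ℕ :=
  Bool.rec (motive := fun _ => ℕ) (nat_lit 0) (Nat.land (srM (VR.N R) (VR.S R) (VR.o1 R)
    (Nat.shiftRight (Nat.land (Nat.sub (VR.h1 R) (Nat.xor (VR.caT R) (v1017 R))) (VR.h1 R))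
    (nat_lit 15))) (Nat.land (Nat.mul (Nat.shiftRight (Nat.land (Nat.add (v2036 R) (VR.k1 R))
    (VR.h1 R)) (nat_lit 15)) (VR.cr1 R)) (Nat.sub (VR.o2 R) (v2055 R)))) (v2062 R)

noncomputable def s2063 (R : VR) (j i : ℕ) : Bool :=
  K.band (s2062 R) (s2061 R j i)

theorem e2063 (R : VR) : B2 R (v2063 R) (s2063 R) :=
  B.gand (e2062 R) (e2061 R)

noncomputable def v2064 (R : VR) : ℕ :=
  Nat.shiftRight (Nat.land (Nat.sub (VR.h1 R) (Nat.xor (VR.caT R) (v136 R))) (VR.h1 R)) (nat_lit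
    15)

noncomputable def s2064 (R : VR) (i : ℕ) : Bool :=
  Nat.beq (s127 R i) (s136 R i)

theorem e2064 (R : VR) : B (VR.S R) (v2064 R) (s2064 R) :=
  L.beq (VR.h1e R) (e127 R) (e136 R)

noncomputable def v2065 (R : VR) : ℕ :=
  Nat.add (v1938 R) (v136 R)

noncomputable def s2065 (R : VR) (i : ℕ) : ℕ :=
  Nat.add (s1938 R i) (s136 R i)

theorem e2065 (R : VR) : L (VR.S R) (v2065 R) (s2065 R) 2554 :=
  L.add (e1938 R) (e136 R) (by decide)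

noncomputable def v2066 (R : VR) : ℕ :=
  gmk (VR.h2 R) (VR.J R) (Nat.mul (Nat.add (v1938 R) (v136 R)) (VR.cr1 R))

noncomputable def v2067 (R : VR) : ℕ :=
  Nat.mod (Nat.land (gmk (VR.h2 R) (VR.J R) (Nat.mul (Nat.add (v1938 R) (v136 R)) (VR.cr1 R)))
    (v1941 R)) (VR.m1 R)

noncomputable def s2067 (R : VR) (i : ℕ) : ℕ :=
  tx (VR.adT R) (s2065 R i)

theorem e2067 (R : VR) : L (VR.S R) (v2067 R) (s2067 R) 255 :=
  L.gat (e2065 R) (VR.ad_is R) (VR.ad_lt R) (VR.ad_le R)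

noncomputable def v2068 (R : VR) : ℕ :=
  Nat.shiftRight (Nat.land (Nat.sub (VR.h1 R) (v2067 R)) (VR.h1 R)) (nat_lit 15)

noncomputable def s2068 (R : VR) (i : ℕ) : Bool :=
  Nat.beq (s2067 R i) (nat_lit 0)

theorem e2068 (R : VR) : B (VR.S R) (v2068 R) (s2068 R) :=
  L.ez (VR.h1e R) (e2067 R)

noncomputable def v2069 (R : VR) : ℕ :=
  Nat.shiftRight (Nat.land (Nat.add (v2067 R) (VR.k1 R)) (VR.h1 R)) (nat_lit 15)

noncomputable def s2069 (R : VR) (i : ℕ) : Bool :=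
  K.bnot (Nat.beq (s2067 R i) (nat_lit 0))

theorem e2069 (R : VR) : B (VR.S R) (v2069 R) (s2069 R) :=
  L.nz (VR.h1e R) (VR.k1e R) (e2067 R)

noncomputable def v2070 (R : VR) : ℕ :=
  Vc.ssub (VR.h1 R) (v2067 R) (v267 R)

noncomputable def s2070 (R : VR) (i : ℕ) : ℕ :=
  Nat.sub (s2067 R i) (s267 R i)

theorem e2070 (R : VR) : L (VR.S R) (v2070 R) (s2070 R) 255 :=
  L.sub (VR.h1e R) (e2067 R) (e267 R)

noncomputable def v2071 (R : VR) : ℕ :=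
  gmk (VR.h2 R) (VR.J R) (Nat.mul (v2070 R) (VR.cr1 R))

noncomputable def v2072 (R : VR) : ℕ :=
  Nat.mod (Nat.land (v2071 R) (v164 R)) (VR.m1 R)

noncomputable def s2072 (R : VR) (i : ℕ) : ℕ :=
  tx (VR.rhoT R) (s2070 R i)

theorem e2072 (R : VR) : L (VR.S R) (v2072 R) (s2072 R) 255 :=
  L.gat (e2070 R) (VR.rho_is R) (VR.rho_lt R) (VR.rho_le R)

noncomputable def v2073 (R : VR) : ℕ :=
  Nat.shiftRight (Nat.land (Nat.sub (VR.h1 R) (Nat.xor (VR.iota R) (Nat.mod (Nat.land (v2071 R)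
    (v164 R)) (VR.m1 R)))) (VR.h1 R)) (nat_lit 15)

noncomputable def s2073 (R : VR) (i : ℕ) : Bool :=
  Nat.beq (s0 R i) (s2072 R i)

theorem e2073 (R : VR) : B (VR.S R) (v2073 R) (s2073 R) :=
  L.beq (VR.h1e R) (e0 R) (e2072 R)

noncomputable def v2074 (R : VR) : ℕ :=
  Nat.mod (Nat.land (v2071 R) (v146 R)) (VR.m1 R)

noncomputable def s2074 (R : VR) (i : ℕ) : ℕ :=
  tx (VR.piT R) (s2070 R i)

theorem e2074 (R : VR) : L (VR.S R) (v2074 R) (s2074 R) 255 :=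
  L.gat (e2070 R) (VR.pi_is R) (VR.pi_lt R) (VR.pi_le R)

noncomputable def v2075 (R : VR) : ℕ :=
  Nat.mul (v2074 R) (VR.cr1 R)

noncomputable def s2075 (R : VR) (j i : ℕ) : ℕ :=
  (s2074 R i)

theorem e2075 (R : VR) : L2 R (v2075 R) (s2075 R) 255 :=
  L2.rep (e2074 R)

noncomputable def v2076 (R : VR) : ℕ :=
  Nat.shiftRight (Nat.land (Nat.sub (VR.h2 R) (Nat.xor (v1950 R) (Nat.mul (v2074 R) (VR.cr1 R))))
    (VR.h2 R)) (nat_lit 15)

noncomputable def s2076 (R : VR) (j i : ℕ) : Bool :=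
  Nat.beq (s1950 R j i) (s2075 R j i)

theorem e2076 (R : VR) : B2 R (v2076 R) (s2076 R) :=
  L.beq (VR.h2e R) (e1950 R) (e2075 R)

noncomputable def v2077 (R : VR) : ℕ :=
  Nat.mul (Nat.shiftRight (Nat.land (Nat.sub (VR.h1 R) (Nat.xor (VR.iota R) (Nat.mod (Nat.land
    (v2071 R) (v164 R)) (VR.m1 R)))) (VR.h1 R)) (nat_lit 15)) (VR.cr1 R)

noncomputable def s2077 (R : VR) (j i : ℕ) : Bool :=
  (s2073 R i)

theorem e2077 (R : VR) : B2 R (v2077 R) (s2077 R) :=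
  B2.rep (e2073 R)

noncomputable def v2078 (R : VR) : ℕ :=
  Nat.land (Nat.mul (Nat.shiftRight (Nat.land (Nat.sub (VR.h1 R) (Nat.xor (VR.iota R) (Nat.mod
    (Nat.land (v2071 R) (v164 R)) (VR.m1 R)))) (VR.h1 R)) (nat_lit 15)) (VR.cr1 R))
    (Nat.shiftRight (Nat.land (Nat.sub (VR.h2 R) (Nat.xor (v1950 R) (Nat.mul (v2074 R) (VR.cr1
    R)))) (VR.h2 R)) (nat_lit 15))

noncomputable def s2078 (R : VR) (j i : ℕ) : Bool :=
  K.band (s2077 R j i) (s2076 R j i)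

theorem e2078 (R : VR) : B2 R (v2078 R) (s2078 R) :=
  B.and (e2077 R) (e2076 R)

noncomputable def v2079 (R : VR) : ℕ :=
  Nat.shiftRight (Nat.land (Nat.sub (VR.h1 R) (Nat.xor (VR.rhoT R) (v2070 R))) (VR.h1 R)) (nat_lit
    15)

noncomputable def s2079 (R : VR) (i : ℕ) : Bool :=
  Nat.beq (s158 R i) (s2070 R i)

theorem e2079 (R : VR) : B (VR.S R) (v2079 R) (s2079 R) :=
  L.beq (VR.h1e R) (e158 R) (e2070 R)

noncomputable def v2080 (R : VR) : ℕ :=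
  gmk (VR.h2 R) (VR.J R) (Nat.mul (v2074 R) (VR.cr1 R))

noncomputable def v2081 (R : VR) : ℕ :=
  Nat.mod (Nat.land (gmk (VR.h2 R) (VR.J R) (Nat.mul (v2074 R) (VR.cr1 R))) (v164 R)) (VR.m1 R)

noncomputable def s2081 (R : VR) (i : ℕ) : ℕ :=
  tx (VR.rhoT R) (s2074 R i)

theorem e2081 (R : VR) : L (VR.S R) (v2081 R) (s2081 R) 255 :=
  L.gat (e2074 R) (VR.rho_is R) (VR.rho_lt R) (VR.rho_le R)

noncomputable def v2082 (R : VR) : ℕ :=
  Nat.mul (Nat.mod (Nat.land (gmk (VR.h2 R) (VR.J R) (Nat.mul (v2074 R) (VR.cr1 R))) (v164 R))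
    (VR.m1 R)) (VR.cr1 R)

noncomputable def s2082 (R : VR) (j i : ℕ) : ℕ :=
  (s2081 R i)

theorem e2082 (R : VR) : L2 R (v2082 R) (s2082 R) 255 :=
  L2.rep (e2081 R)

noncomputable def v2083 (R : VR) : ℕ :=
  Nat.shiftRight (Nat.land (Nat.sub (VR.h2 R) (Nat.xor (v528 R) (Nat.mul (Nat.mod (Nat.land (gmk
    (VR.h2 R) (VR.J R) (Nat.mul (v2074 R) (VR.cr1 R))) (v164 R)) (VR.m1 R)) (VR.cr1 R)))) (VR.h2
    R)) (nat_lit 15)

noncomputable def s2083 (R : VR) (j i : ℕ) : Bool :=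
  Nat.beq (s528 R j i) (s2082 R j i)

theorem e2083 (R : VR) : B2 R (v2083 R) (s2083 R) :=
  L.beq (VR.h2e R) (e528 R) (e2082 R)

noncomputable def v2084 (R : VR) : ℕ :=
  Nat.mul (Nat.shiftRight (Nat.land (Nat.sub (VR.h1 R) (Nat.xor (VR.rhoT R) (v2070 R))) (VR.h1 R))
    (nat_lit 15)) (VR.cr1 R)

noncomputable def s2084 (R : VR) (j i : ℕ) : Bool :=
  (s2079 R i)

theorem e2084 (R : VR) : B2 R (v2084 R) (s2084 R) :=
  B2.rep (e2079 R)

noncomputable def v2085 (R : VR) : ℕ :=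
  Nat.land (Nat.mul (Nat.shiftRight (Nat.land (Nat.sub (VR.h1 R) (Nat.xor (VR.rhoT R) (v2070 R)))
    (VR.h1 R)) (nat_lit 15)) (VR.cr1 R)) (Nat.shiftRight (Nat.land (Nat.sub (VR.h2 R) (Nat.xor
    (v528 R) (Nat.mul (Nat.mod (Nat.land (gmk (VR.h2 R) (VR.J R) (Nat.mul (v2074 R) (VR.cr1 R)))
    (v164 R)) (VR.m1 R)) (VR.cr1 R)))) (VR.h2 R)) (nat_lit 15))

noncomputable def s2085 (R : VR) (j i : ℕ) : Bool :=
  K.band (s2084 R j i) (s2083 R j i)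

theorem e2085 (R : VR) : B2 R (v2085 R) (s2085 R) :=
  B.and (e2084 R) (e2083 R)

noncomputable def v2086 (R : VR) : ℕ :=
  Nat.lor (Nat.land (Nat.mul (Nat.shiftRight (Nat.land (Nat.sub (VR.h1 R) (Nat.xor (VR.iota R)
    (Nat.mod (Nat.land (v2071 R) (v164 R)) (VR.m1 R)))) (VR.h1 R)) (nat_lit 15)) (VR.cr1 R))
    (Nat.shiftRight (Nat.land (Nat.sub (VR.h2 R) (Nat.xor (v1950 R) (Nat.mul (v2074 R) (VR.cr1
    R)))) (VR.h2 R)) (nat_lit 15))) (Nat.land (Nat.mul (Nat.shiftRight (Nat.land (Nat.sub (VR.h1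
    R) (Nat.xor (VR.rhoT R) (v2070 R))) (VR.h1 R)) (nat_lit 15)) (VR.cr1 R)) (Nat.shiftRight
    (Nat.land (Nat.sub (VR.h2 R) (Nat.xor (v528 R) (Nat.mul (Nat.mod (Nat.land (gmk (VR.h2 R)
    (VR.J R) (Nat.mul (v2074 R) (VR.cr1 R))) (v164 R)) (VR.m1 R)) (VR.cr1 R)))) (VR.h2 R))
    (nat_lit 15)))

noncomputable def s2086 (R : VR) (j i : ℕ) : Bool :=
  K.bor (s2078 R j i) (s2085 R j i)

theorem e2086 (R : VR) : B2 R (v2086 R) (s2086 R) :=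
  B.or (e2078 R) (e2085 R)

noncomputable def s2087 (R : VR) (j i : ℕ) : Bool :=
  K.Cf_exa (VR.Cf R) (s2070 R i) i j

theorem e2087 (R : VR) : B2 R (v2086 R) (s2087 R) :=
  e2086 R

noncomputable def v2088 (R : VR) : ℕ :=
  Nat.sub (VR.o2 R) (v2086 R)

noncomputable def s2088 (R : VR) (j i : ℕ) : Bool :=
  K.bnot (s2087 R j i)

theorem e2088 (R : VR) : B2 R (v2088 R) (s2088 R) :=
  B.not (VR.o2e R) (e2087 R)

noncomputable def v2089 (R : VR) : ℕ :=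
  Nat.mul (Nat.shiftRight (Nat.land (Nat.add (v2067 R) (VR.k1 R)) (VR.h1 R)) (nat_lit 15)) (VR.cr1
    R)

noncomputable def s2089 (R : VR) (j i : ℕ) : Bool :=
  (s2069 R i)

theorem e2089 (R : VR) : B2 R (v2089 R) (s2089 R) :=
  B2.rep (e2069 R)

noncomputable def v2090 (R : VR) : ℕ :=
  Nat.land (Nat.mul (Nat.shiftRight (Nat.land (Nat.add (v2067 R) (VR.k1 R)) (VR.h1 R)) (nat_lit
    15)) (VR.cr1 R)) (Nat.sub (VR.o2 R) (v2086 R))

noncomputable def s2090 (R : VR) (j i : ℕ) : Bool :=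
  K.band (s2089 R j i) (s2088 R j i)

theorem e2090 (R : VR) : B2 R (v2090 R) (s2090 R) :=
  B.and (e2089 R) (e2088 R)

noncomputable def v2091 (R : VR) : ℕ :=
  srM (VR.N R) (VR.S R) (VR.o1 R) (Nat.shiftRight (Nat.land (Nat.sub (VR.h1 R) (Nat.xor (VR.caT R)
    (v136 R))) (VR.h1 R)) (nat_lit 15))

noncomputable def s2091 (R : VR) (j i : ℕ) : Bool :=
  (s2064 R j)

theorem e2091 (R : VR) : B2 R (v2091 R) (s2091 R) :=
  B2.row (e2064 R)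

noncomputable def v2092 (R : VR) : ℕ :=
  Nat.land (srM (VR.N R) (VR.S R) (VR.o1 R) (Nat.shiftRight (Nat.land (Nat.sub (VR.h1 R) (Nat.xor
    (VR.caT R) (v136 R))) (VR.h1 R)) (nat_lit 15))) (Nat.land (Nat.mul (Nat.shiftRight (Nat.land
    (Nat.add (v2067 R) (VR.k1 R)) (VR.h1 R)) (nat_lit 15)) (VR.cr1 R)) (Nat.sub (VR.o2 R) (v2086
    R)))

noncomputable def s2092 (R : VR) (j i : ℕ) : Bool :=
  K.band (s2091 R j i) (s2090 R j i)

theorem e2092 (R : VR) : B2 R (v2092 R) (s2092 R) :=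
  B.and (e2091 R) (e2090 R)

noncomputable def v2093 (R : VR) : Bool :=
  Nat.ble (Nat.succ (v135 R)) (v510 R)

noncomputable def s2093 (R : VR) : Bool :=
  Nat.ble (Nat.succ (s135 R)) (s510 R)

theorem e2093 (R : VR) : (v2093 R) = s2093 R :=
  congrArg₂ Nat.ble (congrArg Nat.succ (e135 R)) (e510 R)

noncomputable def v2094 (R : VR) : ℕ :=
  Bool.rec (motive := fun _ => ℕ) (nat_lit 0) (Nat.land (srM (VR.N R) (VR.S R) (VR.o1 R)
    (Nat.shiftRight (Nat.land (Nat.sub (VR.h1 R) (Nat.xor (VR.caT R) (v136 R))) (VR.h1 R))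
    (nat_lit 15))) (Nat.land (Nat.mul (Nat.shiftRight (Nat.land (Nat.add (v2067 R) (VR.k1 R))
    (VR.h1 R)) (nat_lit 15)) (VR.cr1 R)) (Nat.sub (VR.o2 R) (v2086 R)))) (v2093 R)

noncomputable def s2094 (R : VR) (j i : ℕ) : Bool :=
  K.band (s2093 R) (s2092 R j i)

theorem e2094 (R : VR) : B2 R (v2094 R) (s2094 R) :=
  B.gand (e2093 R) (e2092 R)

noncomputable def v2095 (R : VR) : ℕ :=
  (nat_lit 5)

noncomputable def s2095 (R : VR) : ℕ :=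
  (nat_lit 5)

theorem e2095 (R : VR) : (v2095 R) = s2095 R :=
  rfl

noncomputable def v2096 (R : VR) : ℕ :=
  Nat.mul (VR.o1 R) (v2095 R)

noncomputable def s2096 (R : VR) (i : ℕ) : ℕ :=
  (s2095 R)

theorem e2096 (R : VR) : L (VR.S R) (v2096 R) (s2096 R) 5 :=
  L.scl (VR.o1e R) (e2095 R) (le_of_eq (rfl : s2095 R = (nat_lit 5))) (by decide)

noncomputable def v2097 (R : VR) : ℕ :=
  Nat.shiftRight (Nat.land (Nat.sub (VR.h1 R) (Nat.xor (VR.caT R) (v2096 R))) (VR.h1 R)) (nat_lit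
    15)

noncomputable def s2097 (R : VR) (i : ℕ) : Bool :=
  Nat.beq (s127 R i) (s2096 R i)

theorem e2097 (R : VR) : B (VR.S R) (v2097 R) (s2097 R) :=
  L.beq (VR.h1e R) (e127 R) (e2096 R)

noncomputable def v2098 (R : VR) : ℕ :=
  Nat.add (v1938 R) (v2096 R)

noncomputable def s2098 (R : VR) (i : ℕ) : ℕ :=
  Nat.add (s1938 R i) (s2096 R i)

theorem e2098 (R : VR) : L (VR.S R) (v2098 R) (s2098 R) 2555 :=
  L.add (e1938 R) (e2096 R) (by decide)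

noncomputable def v2099 (R : VR) : ℕ :=
  gmk (VR.h2 R) (VR.J R) (Nat.mul (Nat.add (v1938 R) (v2096 R)) (VR.cr1 R))

noncomputable def v2100 (R : VR) : ℕ :=
  Nat.mod (Nat.land (gmk (VR.h2 R) (VR.J R) (Nat.mul (Nat.add (v1938 R) (v2096 R)) (VR.cr1 R)))
    (v1941 R)) (VR.m1 R)

noncomputable def s2100 (R : VR) (i : ℕ) : ℕ :=
  tx (VR.adT R) (s2098 R i)

theorem e2100 (R : VR) : L (VR.S R) (v2100 R) (s2100 R) 255 :=
  L.gat (e2098 R) (VR.ad_is R) (VR.ad_lt R) (VR.ad_le R)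

noncomputable def v2101 (R : VR) : ℕ :=
  Nat.shiftRight (Nat.land (Nat.sub (VR.h1 R) (v2100 R)) (VR.h1 R)) (nat_lit 15)

noncomputable def s2101 (R : VR) (i : ℕ) : Bool :=
  Nat.beq (s2100 R i) (nat_lit 0)

theorem e2101 (R : VR) : B (VR.S R) (v2101 R) (s2101 R) :=
  L.ez (VR.h1e R) (e2100 R)

noncomputable def v2102 (R : VR) : ℕ :=
  Nat.shiftRight (Nat.land (Nat.add (v2100 R) (VR.k1 R)) (VR.h1 R)) (nat_lit 15)

noncomputable def s2102 (R : VR) (i : ℕ) : Bool :=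
  K.bnot (Nat.beq (s2100 R i) (nat_lit 0))

theorem e2102 (R : VR) : B (VR.S R) (v2102 R) (s2102 R) :=
  L.nz (VR.h1e R) (VR.k1e R) (e2100 R)

noncomputable def v2103 (R : VR) : ℕ :=
  Vc.ssub (VR.h1 R) (v2100 R) (v267 R)

noncomputable def s2103 (R : VR) (i : ℕ) : ℕ :=
  Nat.sub (s2100 R i) (s267 R i)

theorem e2103 (R : VR) : L (VR.S R) (v2103 R) (s2103 R) 255 :=
  L.sub (VR.h1e R) (e2100 R) (e267 R)

noncomputable def v2104 (R : VR) : ℕ :=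
  gmk (VR.h2 R) (VR.J R) (Nat.mul (v2103 R) (VR.cr1 R))

noncomputable def v2105 (R : VR) : ℕ :=
  Nat.mod (Nat.land (v2104 R) (v164 R)) (VR.m1 R)

noncomputable def s2105 (R : VR) (i : ℕ) : ℕ :=
  tx (VR.rhoT R) (s2103 R i)

theorem e2105 (R : VR) : L (VR.S R) (v2105 R) (s2105 R) 255 :=
  L.gat (e2103 R) (VR.rho_is R) (VR.rho_lt R) (VR.rho_le R)

noncomputable def v2106 (R : VR) : ℕ :=
  Nat.shiftRight (Nat.land (Nat.sub (VR.h1 R) (Nat.xor (VR.iota R) (Nat.mod (Nat.land (v2104 R)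
    (v164 R)) (VR.m1 R)))) (VR.h1 R)) (nat_lit 15)

noncomputable def s2106 (R : VR) (i : ℕ) : Bool :=
  Nat.beq (s0 R i) (s2105 R i)

theorem e2106 (R : VR) : B (VR.S R) (v2106 R) (s2106 R) :=
  L.beq (VR.h1e R) (e0 R) (e2105 R)

noncomputable def v2107 (R : VR) : ℕ :=
  Nat.mod (Nat.land (v2104 R) (v146 R)) (VR.m1 R)

noncomputable def s2107 (R : VR) (i : ℕ) : ℕ :=
  tx (VR.piT R) (s2103 R i)

theorem e2107 (R : VR) : L (VR.S R) (v2107 R) (s2107 R) 255 :=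
  L.gat (e2103 R) (VR.pi_is R) (VR.pi_lt R) (VR.pi_le R)

noncomputable def v2108 (R : VR) : ℕ :=
  Nat.mul (v2107 R) (VR.cr1 R)

noncomputable def s2108 (R : VR) (j i : ℕ) : ℕ :=
  (s2107 R i)

theorem e2108 (R : VR) : L2 R (v2108 R) (s2108 R) 255 :=
  L2.rep (e2107 R)

noncomputable def v2109 (R : VR) : ℕ :=
  Nat.shiftRight (Nat.land (Nat.sub (VR.h2 R) (Nat.xor (v1950 R) (Nat.mul (v2107 R) (VR.cr1 R))))
    (VR.h2 R)) (nat_lit 15)

noncomputable def s2109 (R : VR) (j i : ℕ) : Bool :=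
  Nat.beq (s1950 R j i) (s2108 R j i)

theorem e2109 (R : VR) : B2 R (v2109 R) (s2109 R) :=
  L.beq (VR.h2e R) (e1950 R) (e2108 R)

noncomputable def v2110 (R : VR) : ℕ :=
  Nat.mul (Nat.shiftRight (Nat.land (Nat.sub (VR.h1 R) (Nat.xor (VR.iota R) (Nat.mod (Nat.land
    (v2104 R) (v164 R)) (VR.m1 R)))) (VR.h1 R)) (nat_lit 15)) (VR.cr1 R)

noncomputable def s2110 (R : VR) (j i : ℕ) : Bool :=
  (s2106 R i)

theorem e2110 (R : VR) : B2 R (v2110 R) (s2110 R) :=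
  B2.rep (e2106 R)

noncomputable def v2111 (R : VR) : ℕ :=
  Nat.land (Nat.mul (Nat.shiftRight (Nat.land (Nat.sub (VR.h1 R) (Nat.xor (VR.iota R) (Nat.mod
    (Nat.land (v2104 R) (v164 R)) (VR.m1 R)))) (VR.h1 R)) (nat_lit 15)) (VR.cr1 R))
    (Nat.shiftRight (Nat.land (Nat.sub (VR.h2 R) (Nat.xor (v1950 R) (Nat.mul (v2107 R) (VR.cr1
    R)))) (VR.h2 R)) (nat_lit 15))

noncomputable def s2111 (R : VR) (j i : ℕ) : Bool :=
  K.band (s2110 R j i) (s2109 R j i)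

theorem e2111 (R : VR) : B2 R (v2111 R) (s2111 R) :=
  B.and (e2110 R) (e2109 R)

noncomputable def v2112 (R : VR) : ℕ :=
  Nat.shiftRight (Nat.land (Nat.sub (VR.h1 R) (Nat.xor (VR.rhoT R) (v2103 R))) (VR.h1 R)) (nat_lit
    15)

noncomputable def s2112 (R : VR) (i : ℕ) : Bool :=
  Nat.beq (s158 R i) (s2103 R i)

theorem e2112 (R : VR) : B (VR.S R) (v2112 R) (s2112 R) :=
  L.beq (VR.h1e R) (e158 R) (e2103 R)

noncomputable def v2113 (R : VR) : ℕ :=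
  gmk (VR.h2 R) (VR.J R) (Nat.mul (v2107 R) (VR.cr1 R))

noncomputable def v2114 (R : VR) : ℕ :=
  Nat.mod (Nat.land (gmk (VR.h2 R) (VR.J R) (Nat.mul (v2107 R) (VR.cr1 R))) (v164 R)) (VR.m1 R)

noncomputable def s2114 (R : VR) (i : ℕ) : ℕ :=
  tx (VR.rhoT R) (s2107 R i)

theorem e2114 (R : VR) : L (VR.S R) (v2114 R) (s2114 R) 255 :=
  L.gat (e2107 R) (VR.rho_is R) (VR.rho_lt R) (VR.rho_le R)

noncomputable def v2115 (R : VR) : ℕ :=
  Nat.mul (Nat.mod (Nat.land (gmk (VR.h2 R) (VR.J R) (Nat.mul (v2107 R) (VR.cr1 R))) (v164 R))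
    (VR.m1 R)) (VR.cr1 R)

noncomputable def s2115 (R : VR) (j i : ℕ) : ℕ :=
  (s2114 R i)

theorem e2115 (R : VR) : L2 R (v2115 R) (s2115 R) 255 :=
  L2.rep (e2114 R)

noncomputable def v2116 (R : VR) : ℕ :=
  Nat.shiftRight (Nat.land (Nat.sub (VR.h2 R) (Nat.xor (v528 R) (Nat.mul (Nat.mod (Nat.land (gmk
    (VR.h2 R) (VR.J R) (Nat.mul (v2107 R) (VR.cr1 R))) (v164 R)) (VR.m1 R)) (VR.cr1 R)))) (VR.h2
    R)) (nat_lit 15)

noncomputable def s2116 (R : VR) (j i : ℕ) : Bool :=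
  Nat.beq (s528 R j i) (s2115 R j i)

theorem e2116 (R : VR) : B2 R (v2116 R) (s2116 R) :=
  L.beq (VR.h2e R) (e528 R) (e2115 R)

noncomputable def v2117 (R : VR) : ℕ :=
  Nat.mul (Nat.shiftRight (Nat.land (Nat.sub (VR.h1 R) (Nat.xor (VR.rhoT R) (v2103 R))) (VR.h1 R))
    (nat_lit 15)) (VR.cr1 R)

noncomputable def s2117 (R : VR) (j i : ℕ) : Bool :=
  (s2112 R i)

theorem e2117 (R : VR) : B2 R (v2117 R) (s2117 R) :=
  B2.rep (e2112 R)

noncomputable def v2118 (R : VR) : ℕ :=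
  Nat.land (Nat.mul (Nat.shiftRight (Nat.land (Nat.sub (VR.h1 R) (Nat.xor (VR.rhoT R) (v2103 R)))
    (VR.h1 R)) (nat_lit 15)) (VR.cr1 R)) (Nat.shiftRight (Nat.land (Nat.sub (VR.h2 R) (Nat.xor
    (v528 R) (Nat.mul (Nat.mod (Nat.land (gmk (VR.h2 R) (VR.J R) (Nat.mul (v2107 R) (VR.cr1 R)))
    (v164 R)) (VR.m1 R)) (VR.cr1 R)))) (VR.h2 R)) (nat_lit 15))

noncomputable def s2118 (R : VR) (j i : ℕ) : Bool :=
  K.band (s2117 R j i) (s2116 R j i)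

theorem e2118 (R : VR) : B2 R (v2118 R) (s2118 R) :=
  B.and (e2117 R) (e2116 R)

noncomputable def v2119 (R : VR) : ℕ :=
  Nat.lor (Nat.land (Nat.mul (Nat.shiftRight (Nat.land (Nat.sub (VR.h1 R) (Nat.xor (VR.iota R)
    (Nat.mod (Nat.land (v2104 R) (v164 R)) (VR.m1 R)))) (VR.h1 R)) (nat_lit 15)) (VR.cr1 R))
    (Nat.shiftRight (Nat.land (Nat.sub (VR.h2 R) (Nat.xor (v1950 R) (Nat.mul (v2107 R) (VR.cr1
    R)))) (VR.h2 R)) (nat_lit 15))) (Nat.land (Nat.mul (Nat.shiftRight (Nat.land (Nat.sub (VR.h1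
    R) (Nat.xor (VR.rhoT R) (v2103 R))) (VR.h1 R)) (nat_lit 15)) (VR.cr1 R)) (Nat.shiftRight
    (Nat.land (Nat.sub (VR.h2 R) (Nat.xor (v528 R) (Nat.mul (Nat.mod (Nat.land (gmk (VR.h2 R)
    (VR.J R) (Nat.mul (v2107 R) (VR.cr1 R))) (v164 R)) (VR.m1 R)) (VR.cr1 R)))) (VR.h2 R))
    (nat_lit 15)))

noncomputable def s2119 (R : VR) (j i : ℕ) : Bool :=
  K.bor (s2111 R j i) (s2118 R j i)

theorem e2119 (R : VR) : B2 R (v2119 R) (s2119 R) :=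
  B.or (e2111 R) (e2118 R)

noncomputable def s2120 (R : VR) (j i : ℕ) : Bool :=
  K.Cf_exa (VR.Cf R) (s2103 R i) i j

theorem e2120 (R : VR) : B2 R (v2119 R) (s2120 R) :=
  e2119 R

noncomputable def v2121 (R : VR) : ℕ :=
  Nat.sub (VR.o2 R) (v2119 R)

noncomputable def s2121 (R : VR) (j i : ℕ) : Bool :=
  K.bnot (s2120 R j i)

theorem e2121 (R : VR) : B2 R (v2121 R) (s2121 R) :=
  B.not (VR.o2e R) (e2120 R)

noncomputable def v2122 (R : VR) : ℕ :=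
  Nat.mul (Nat.shiftRight (Nat.land (Nat.add (v2100 R) (VR.k1 R)) (VR.h1 R)) (nat_lit 15)) (VR.cr1
    R)

noncomputable def s2122 (R : VR) (j i : ℕ) : Bool :=
  (s2102 R i)

theorem e2122 (R : VR) : B2 R (v2122 R) (s2122 R) :=
  B2.rep (e2102 R)

noncomputable def v2123 (R : VR) : ℕ :=
  Nat.land (Nat.mul (Nat.shiftRight (Nat.land (Nat.add (v2100 R) (VR.k1 R)) (VR.h1 R)) (nat_lit
    15)) (VR.cr1 R)) (Nat.sub (VR.o2 R) (v2119 R))

noncomputable def s2123 (R : VR) (j i : ℕ) : Bool :=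
  K.band (s2122 R j i) (s2121 R j i)

theorem e2123 (R : VR) : B2 R (v2123 R) (s2123 R) :=
  B.and (e2122 R) (e2121 R)

noncomputable def v2124 (R : VR) : ℕ :=
  srM (VR.N R) (VR.S R) (VR.o1 R) (Nat.shiftRight (Nat.land (Nat.sub (VR.h1 R) (Nat.xor (VR.caT R)
    (v2096 R))) (VR.h1 R)) (nat_lit 15))

noncomputable def s2124 (R : VR) (j i : ℕ) : Bool :=
  (s2097 R j)

theorem e2124 (R : VR) : B2 R (v2124 R) (s2124 R) :=
  B2.row (e2097 R)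

noncomputable def v2125 (R : VR) : ℕ :=
  Nat.land (srM (VR.N R) (VR.S R) (VR.o1 R) (Nat.shiftRight (Nat.land (Nat.sub (VR.h1 R) (Nat.xor
    (VR.caT R) (v2096 R))) (VR.h1 R)) (nat_lit 15))) (Nat.land (Nat.mul (Nat.shiftRight (Nat.land
    (Nat.add (v2100 R) (VR.k1 R)) (VR.h1 R)) (nat_lit 15)) (VR.cr1 R)) (Nat.sub (VR.o2 R) (v2119
    R)))

noncomputable def s2125 (R : VR) (j i : ℕ) : Bool :=
  K.band (s2124 R j i) (s2123 R j i)

theorem e2125 (R : VR) : B2 R (v2125 R) (s2125 R) :=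
  B.and (e2124 R) (e2123 R)

noncomputable def v2126 (R : VR) : Bool :=
  Nat.ble (Nat.succ (v2095 R)) (v510 R)

noncomputable def s2126 (R : VR) : Bool :=
  Nat.ble (Nat.succ (s2095 R)) (s510 R)

theorem e2126 (R : VR) : (v2126 R) = s2126 R :=
  congrArg₂ Nat.ble (congrArg Nat.succ (e2095 R)) (e510 R)

noncomputable def v2127 (R : VR) : ℕ :=
  Bool.rec (motive := fun _ => ℕ) (nat_lit 0) (Nat.land (srM (VR.N R) (VR.S R) (VR.o1 R)
    (Nat.shiftRight (Nat.land (Nat.sub (VR.h1 R) (Nat.xor (VR.caT R) (v2096 R))) (VR.h1 R))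
    (nat_lit 15))) (Nat.land (Nat.mul (Nat.shiftRight (Nat.land (Nat.add (v2100 R) (VR.k1 R))
    (VR.h1 R)) (nat_lit 15)) (VR.cr1 R)) (Nat.sub (VR.o2 R) (v2119 R)))) (v2126 R)

noncomputable def s2127 (R : VR) (j i : ℕ) : Bool :=
  K.band (s2126 R) (s2125 R j i)

theorem e2127 (R : VR) : B2 R (v2127 R) (s2127 R) :=
  B.gand (e2126 R) (e2125 R)

noncomputable def v2128 (R : VR) : ℕ :=
  (nat_lit 6)

noncomputable def s2128 (R : VR) : ℕ :=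
  (nat_lit 6)

theorem e2128 (R : VR) : (v2128 R) = s2128 R :=
  rfl

noncomputable def v2129 (R : VR) : ℕ :=
  Nat.mul (VR.o1 R) (v2128 R)

noncomputable def s2129 (R : VR) (i : ℕ) : ℕ :=
  (s2128 R)

theorem e2129 (R : VR) : L (VR.S R) (v2129 R) (s2129 R) 6 :=
  L.scl (VR.o1e R) (e2128 R) (le_of_eq (rfl : s2128 R = (nat_lit 6))) (by decide)

noncomputable def v2130 (R : VR) : ℕ :=
  Nat.shiftRight (Nat.land (Nat.sub (VR.h1 R) (Nat.xor (VR.caT R) (v2129 R))) (VR.h1 R)) (nat_lit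
    15)

noncomputable def s2130 (R : VR) (i : ℕ) : Bool :=
  Nat.beq (s127 R i) (s2129 R i)

theorem e2130 (R : VR) : B (VR.S R) (v2130 R) (s2130 R) :=
  L.beq (VR.h1e R) (e127 R) (e2129 R)

noncomputable def v2131 (R : VR) : ℕ :=
  Nat.add (v1938 R) (v2129 R)

noncomputable def s2131 (R : VR) (i : ℕ) : ℕ :=
  Nat.add (s1938 R i) (s2129 R i)

theorem e2131 (R : VR) : L (VR.S R) (v2131 R) (s2131 R) 2556 :=
  L.add (e1938 R) (e2129 R) (by decide)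

noncomputable def v2132 (R : VR) : ℕ :=
  gmk (VR.h2 R) (VR.J R) (Nat.mul (Nat.add (v1938 R) (v2129 R)) (VR.cr1 R))

noncomputable def v2133 (R : VR) : ℕ :=
  Nat.mod (Nat.land (gmk (VR.h2 R) (VR.J R) (Nat.mul (Nat.add (v1938 R) (v2129 R)) (VR.cr1 R)))
    (v1941 R)) (VR.m1 R)

noncomputable def s2133 (R : VR) (i : ℕ) : ℕ :=
  tx (VR.adT R) (s2131 R i)

theorem e2133 (R : VR) : L (VR.S R) (v2133 R) (s2133 R) 255 :=
  L.gat (e2131 R) (VR.ad_is R) (VR.ad_lt R) (VR.ad_le R)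

noncomputable def v2134 (R : VR) : ℕ :=
  Nat.shiftRight (Nat.land (Nat.sub (VR.h1 R) (v2133 R)) (VR.h1 R)) (nat_lit 15)

noncomputable def s2134 (R : VR) (i : ℕ) : Bool :=
  Nat.beq (s2133 R i) (nat_lit 0)

theorem e2134 (R : VR) : B (VR.S R) (v2134 R) (s2134 R) :=
  L.ez (VR.h1e R) (e2133 R)

noncomputable def v2135 (R : VR) : ℕ :=
  Nat.shiftRight (Nat.land (Nat.add (v2133 R) (VR.k1 R)) (VR.h1 R)) (nat_lit 15)

noncomputable def s2135 (R : VR) (i : ℕ) : Bool :=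
  K.bnot (Nat.beq (s2133 R i) (nat_lit 0))

theorem e2135 (R : VR) : B (VR.S R) (v2135 R) (s2135 R) :=
  L.nz (VR.h1e R) (VR.k1e R) (e2133 R)

noncomputable def v2136 (R : VR) : ℕ :=
  Vc.ssub (VR.h1 R) (v2133 R) (v267 R)

noncomputable def s2136 (R : VR) (i : ℕ) : ℕ :=
  Nat.sub (s2133 R i) (s267 R i)

theorem e2136 (R : VR) : L (VR.S R) (v2136 R) (s2136 R) 255 :=
  L.sub (VR.h1e R) (e2133 R) (e267 R)

noncomputable def v2137 (R : VR) : ℕ :=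
  gmk (VR.h2 R) (VR.J R) (Nat.mul (v2136 R) (VR.cr1 R))

noncomputable def v2138 (R : VR) : ℕ :=
  Nat.mod (Nat.land (v2137 R) (v164 R)) (VR.m1 R)

noncomputable def s2138 (R : VR) (i : ℕ) : ℕ :=
  tx (VR.rhoT R) (s2136 R i)

theorem e2138 (R : VR) : L (VR.S R) (v2138 R) (s2138 R) 255 :=
  L.gat (e2136 R) (VR.rho_is R) (VR.rho_lt R) (VR.rho_le R)

noncomputable def v2139 (R : VR) : ℕ :=
  Nat.shiftRight (Nat.land (Nat.sub (VR.h1 R) (Nat.xor (VR.iota R) (Nat.mod (Nat.land (v2137 R)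
    (v164 R)) (VR.m1 R)))) (VR.h1 R)) (nat_lit 15)

noncomputable def s2139 (R : VR) (i : ℕ) : Bool :=
  Nat.beq (s0 R i) (s2138 R i)

theorem e2139 (R : VR) : B (VR.S R) (v2139 R) (s2139 R) :=
  L.beq (VR.h1e R) (e0 R) (e2138 R)

noncomputable def v2140 (R : VR) : ℕ :=
  Nat.mod (Nat.land (v2137 R) (v146 R)) (VR.m1 R)

noncomputable def s2140 (R : VR) (i : ℕ) : ℕ :=
  tx (VR.piT R) (s2136 R i)

theorem e2140 (R : VR) : L (VR.S R) (v2140 R) (s2140 R) 255 :=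
  L.gat (e2136 R) (VR.pi_is R) (VR.pi_lt R) (VR.pi_le R)

noncomputable def v2141 (R : VR) : ℕ :=
  Nat.mul (v2140 R) (VR.cr1 R)

noncomputable def s2141 (R : VR) (j i : ℕ) : ℕ :=
  (s2140 R i)

theorem e2141 (R : VR) : L2 R (v2141 R) (s2141 R) 255 :=
  L2.rep (e2140 R)

noncomputable def v2142 (R : VR) : ℕ :=
  Nat.shiftRight (Nat.land (Nat.sub (VR.h2 R) (Nat.xor (v1950 R) (Nat.mul (v2140 R) (VR.cr1 R))))
    (VR.h2 R)) (nat_lit 15)

noncomputable def s2142 (R : VR) (j i : ℕ) : Bool :=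
  Nat.beq (s1950 R j i) (s2141 R j i)

theorem e2142 (R : VR) : B2 R (v2142 R) (s2142 R) :=
  L.beq (VR.h2e R) (e1950 R) (e2141 R)

noncomputable def v2143 (R : VR) : ℕ :=
  Nat.mul (Nat.shiftRight (Nat.land (Nat.sub (VR.h1 R) (Nat.xor (VR.iota R) (Nat.mod (Nat.land
    (v2137 R) (v164 R)) (VR.m1 R)))) (VR.h1 R)) (nat_lit 15)) (VR.cr1 R)

noncomputable def s2143 (R : VR) (j i : ℕ) : Bool :=
  (s2139 R i)

theorem e2143 (R : VR) : B2 R (v2143 R) (s2143 R) :=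
  B2.rep (e2139 R)

noncomputable def v2144 (R : VR) : ℕ :=
  Nat.land (Nat.mul (Nat.shiftRight (Nat.land (Nat.sub (VR.h1 R) (Nat.xor (VR.iota R) (Nat.mod
    (Nat.land (v2137 R) (v164 R)) (VR.m1 R)))) (VR.h1 R)) (nat_lit 15)) (VR.cr1 R))
    (Nat.shiftRight (Nat.land (Nat.sub (VR.h2 R) (Nat.xor (v1950 R) (Nat.mul (v2140 R) (VR.cr1
    R)))) (VR.h2 R)) (nat_lit 15))

noncomputable def s2144 (R : VR) (j i : ℕ) : Bool :=
  K.band (s2143 R j i) (s2142 R j i)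

theorem e2144 (R : VR) : B2 R (v2144 R) (s2144 R) :=
  B.and (e2143 R) (e2142 R)

noncomputable def v2145 (R : VR) : ℕ :=
  Nat.shiftRight (Nat.land (Nat.sub (VR.h1 R) (Nat.xor (VR.rhoT R) (v2136 R))) (VR.h1 R)) (nat_lit
    15)

noncomputable def s2145 (R : VR) (i : ℕ) : Bool :=
  Nat.beq (s158 R i) (s2136 R i)

theorem e2145 (R : VR) : B (VR.S R) (v2145 R) (s2145 R) :=
  L.beq (VR.h1e R) (e158 R) (e2136 R)

noncomputable def v2146 (R : VR) : ℕ :=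
  gmk (VR.h2 R) (VR.J R) (Nat.mul (v2140 R) (VR.cr1 R))

noncomputable def v2147 (R : VR) : ℕ :=
  Nat.mod (Nat.land (gmk (VR.h2 R) (VR.J R) (Nat.mul (v2140 R) (VR.cr1 R))) (v164 R)) (VR.m1 R)

noncomputable def s2147 (R : VR) (i : ℕ) : ℕ :=
  tx (VR.rhoT R) (s2140 R i)

theorem e2147 (R : VR) : L (VR.S R) (v2147 R) (s2147 R) 255 :=
  L.gat (e2140 R) (VR.rho_is R) (VR.rho_lt R) (VR.rho_le R)

noncomputable def v2148 (R : VR) : ℕ :=
  Nat.mul (Nat.mod (Nat.land (gmk (VR.h2 R) (VR.J R) (Nat.mul (v2140 R) (VR.cr1 R))) (v164 R))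
    (VR.m1 R)) (VR.cr1 R)

noncomputable def s2148 (R : VR) (j i : ℕ) : ℕ :=
  (s2147 R i)

theorem e2148 (R : VR) : L2 R (v2148 R) (s2148 R) 255 :=
  L2.rep (e2147 R)

noncomputable def v2149 (R : VR) : ℕ :=
  Nat.shiftRight (Nat.land (Nat.sub (VR.h2 R) (Nat.xor (v528 R) (Nat.mul (Nat.mod (Nat.land (gmk
    (VR.h2 R) (VR.J R) (Nat.mul (v2140 R) (VR.cr1 R))) (v164 R)) (VR.m1 R)) (VR.cr1 R)))) (VR.h2
    R)) (nat_lit 15)

noncomputable def s2149 (R : VR) (j i : ℕ) : Bool :=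
  Nat.beq (s528 R j i) (s2148 R j i)

theorem e2149 (R : VR) : B2 R (v2149 R) (s2149 R) :=
  L.beq (VR.h2e R) (e528 R) (e2148 R)

noncomputable def v2150 (R : VR) : ℕ :=
  Nat.mul (Nat.shiftRight (Nat.land (Nat.sub (VR.h1 R) (Nat.xor (VR.rhoT R) (v2136 R))) (VR.h1 R))
    (nat_lit 15)) (VR.cr1 R)

noncomputable def s2150 (R : VR) (j i : ℕ) : Bool :=
  (s2145 R i)

theorem e2150 (R : VR) : B2 R (v2150 R) (s2150 R) :=
  B2.rep (e2145 R)

noncomputable def v2151 (R : VR) : ℕ :=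
  Nat.land (Nat.mul (Nat.shiftRight (Nat.land (Nat.sub (VR.h1 R) (Nat.xor (VR.rhoT R) (v2136 R)))
    (VR.h1 R)) (nat_lit 15)) (VR.cr1 R)) (Nat.shiftRight (Nat.land (Nat.sub (VR.h2 R) (Nat.xor
    (v528 R) (Nat.mul (Nat.mod (Nat.land (gmk (VR.h2 R) (VR.J R) (Nat.mul (v2140 R) (VR.cr1 R)))
    (v164 R)) (VR.m1 R)) (VR.cr1 R)))) (VR.h2 R)) (nat_lit 15))

noncomputable def s2151 (R : VR) (j i : ℕ) : Bool :=
  K.band (s2150 R j i) (s2149 R j i)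

theorem e2151 (R : VR) : B2 R (v2151 R) (s2151 R) :=
  B.and (e2150 R) (e2149 R)

noncomputable def v2152 (R : VR) : ℕ :=
  Nat.lor (Nat.land (Nat.mul (Nat.shiftRight (Nat.land (Nat.sub (VR.h1 R) (Nat.xor (VR.iota R)
    (Nat.mod (Nat.land (v2137 R) (v164 R)) (VR.m1 R)))) (VR.h1 R)) (nat_lit 15)) (VR.cr1 R))
    (Nat.shiftRight (Nat.land (Nat.sub (VR.h2 R) (Nat.xor (v1950 R) (Nat.mul (v2140 R) (VR.cr1
    R)))) (VR.h2 R)) (nat_lit 15))) (Nat.land (Nat.mul (Nat.shiftRight (Nat.land (Nat.sub (VR.h1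
    R) (Nat.xor (VR.rhoT R) (v2136 R))) (VR.h1 R)) (nat_lit 15)) (VR.cr1 R)) (Nat.shiftRight
    (Nat.land (Nat.sub (VR.h2 R) (Nat.xor (v528 R) (Nat.mul (Nat.mod (Nat.land (gmk (VR.h2 R)
    (VR.J R) (Nat.mul (v2140 R) (VR.cr1 R))) (v164 R)) (VR.m1 R)) (VR.cr1 R)))) (VR.h2 R))
    (nat_lit 15)))

noncomputable def s2152 (R : VR) (j i : ℕ) : Bool :=
  K.bor (s2144 R j i) (s2151 R j i)

theorem e2152 (R : VR) : B2 R (v2152 R) (s2152 R) :=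
  B.or (e2144 R) (e2151 R)

noncomputable def s2153 (R : VR) (j i : ℕ) : Bool :=
  K.Cf_exa (VR.Cf R) (s2136 R i) i j

theorem e2153 (R : VR) : B2 R (v2152 R) (s2153 R) :=
  e2152 R

noncomputable def v2154 (R : VR) : ℕ :=
  Nat.sub (VR.o2 R) (v2152 R)

noncomputable def s2154 (R : VR) (j i : ℕ) : Bool :=
  K.bnot (s2153 R j i)

theorem e2154 (R : VR) : B2 R (v2154 R) (s2154 R) :=
  B.not (VR.o2e R) (e2153 R)

noncomputable def v2155 (R : VR) : ℕ :=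
  Nat.mul (Nat.shiftRight (Nat.land (Nat.add (v2133 R) (VR.k1 R)) (VR.h1 R)) (nat_lit 15)) (VR.cr1
    R)

noncomputable def s2155 (R : VR) (j i : ℕ) : Bool :=
  (s2135 R i)

theorem e2155 (R : VR) : B2 R (v2155 R) (s2155 R) :=
  B2.rep (e2135 R)

noncomputable def v2156 (R : VR) : ℕ :=
  Nat.land (Nat.mul (Nat.shiftRight (Nat.land (Nat.add (v2133 R) (VR.k1 R)) (VR.h1 R)) (nat_lit
    15)) (VR.cr1 R)) (Nat.sub (VR.o2 R) (v2152 R))

noncomputable def s2156 (R : VR) (j i : ℕ) : Bool :=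
  K.band (s2155 R j i) (s2154 R j i)

theorem e2156 (R : VR) : B2 R (v2156 R) (s2156 R) :=
  B.and (e2155 R) (e2154 R)

noncomputable def v2157 (R : VR) : ℕ :=
  srM (VR.N R) (VR.S R) (VR.o1 R) (Nat.shiftRight (Nat.land (Nat.sub (VR.h1 R) (Nat.xor (VR.caT R)
    (v2129 R))) (VR.h1 R)) (nat_lit 15))

noncomputable def s2157 (R : VR) (j i : ℕ) : Bool :=
  (s2130 R j)

theorem e2157 (R : VR) : B2 R (v2157 R) (s2157 R) :=
  B2.row (e2130 R)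

noncomputable def v2158 (R : VR) : ℕ :=
  Nat.land (srM (VR.N R) (VR.S R) (VR.o1 R) (Nat.shiftRight (Nat.land (Nat.sub (VR.h1 R) (Nat.xor
    (VR.caT R) (v2129 R))) (VR.h1 R)) (nat_lit 15))) (Nat.land (Nat.mul (Nat.shiftRight (Nat.land
    (Nat.add (v2133 R) (VR.k1 R)) (VR.h1 R)) (nat_lit 15)) (VR.cr1 R)) (Nat.sub (VR.o2 R) (v2152
    R)))

noncomputable def s2158 (R : VR) (j i : ℕ) : Bool :=
  K.band (s2157 R j i) (s2156 R j i)

theorem e2158 (R : VR) : B2 R (v2158 R) (s2158 R) :=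
  B.and (e2157 R) (e2156 R)

noncomputable def v2159 (R : VR) : Bool :=
  Nat.ble (Nat.succ (v2128 R)) (v510 R)

noncomputable def s2159 (R : VR) : Bool :=
  Nat.ble (Nat.succ (s2128 R)) (s510 R)

theorem e2159 (R : VR) : (v2159 R) = s2159 R :=
  congrArg₂ Nat.ble (congrArg Nat.succ (e2128 R)) (e510 R)

noncomputable def v2160 (R : VR) : ℕ :=
  Bool.rec (motive := fun _ => ℕ) (nat_lit 0) (Nat.land (srM (VR.N R) (VR.S R) (VR.o1 R)
    (Nat.shiftRight (Nat.land (Nat.sub (VR.h1 R) (Nat.xor (VR.caT R) (v2129 R))) (VR.h1 R))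
    (nat_lit 15))) (Nat.land (Nat.mul (Nat.shiftRight (Nat.land (Nat.add (v2133 R) (VR.k1 R))
    (VR.h1 R)) (nat_lit 15)) (VR.cr1 R)) (Nat.sub (VR.o2 R) (v2152 R)))) (v2159 R)

noncomputable def s2160 (R : VR) (j i : ℕ) : Bool :=
  K.band (s2159 R) (s2158 R j i)

theorem e2160 (R : VR) : B2 R (v2160 R) (s2160 R) :=
  B.gand (e2159 R) (e2158 R)

noncomputable def v2161 (R : VR) : ℕ :=
  (nat_lit 7)

noncomputable def s2161 (R : VR) : ℕ :=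
  (nat_lit 7)

theorem e2161 (R : VR) : (v2161 R) = s2161 R :=
  rfl

noncomputable def v2162 (R : VR) : ℕ :=
  Nat.mul (VR.o1 R) (v2161 R)

noncomputable def s2162 (R : VR) (i : ℕ) : ℕ :=
  (s2161 R)

theorem e2162 (R : VR) : L (VR.S R) (v2162 R) (s2162 R) 7 :=
  L.scl (VR.o1e R) (e2161 R) (le_of_eq (rfl : s2161 R = (nat_lit 7))) (by decide)

noncomputable def v2163 (R : VR) : ℕ :=
  Nat.shiftRight (Nat.land (Nat.sub (VR.h1 R) (Nat.xor (VR.caT R) (v2162 R))) (VR.h1 R)) (nat_lit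
    15)

noncomputable def s2163 (R : VR) (i : ℕ) : Bool :=
  Nat.beq (s127 R i) (s2162 R i)

theorem e2163 (R : VR) : B (VR.S R) (v2163 R) (s2163 R) :=
  L.beq (VR.h1e R) (e127 R) (e2162 R)

noncomputable def v2164 (R : VR) : ℕ :=
  Nat.add (v1938 R) (v2162 R)

noncomputable def s2164 (R : VR) (i : ℕ) : ℕ :=
  Nat.add (s1938 R i) (s2162 R i)

theorem e2164 (R : VR) : L (VR.S R) (v2164 R) (s2164 R) 2557 :=
  L.add (e1938 R) (e2162 R) (by decide)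

noncomputable def v2165 (R : VR) : ℕ :=
  gmk (VR.h2 R) (VR.J R) (Nat.mul (Nat.add (v1938 R) (v2162 R)) (VR.cr1 R))

noncomputable def v2166 (R : VR) : ℕ :=
  Nat.mod (Nat.land (gmk (VR.h2 R) (VR.J R) (Nat.mul (Nat.add (v1938 R) (v2162 R)) (VR.cr1 R)))
    (v1941 R)) (VR.m1 R)

noncomputable def s2166 (R : VR) (i : ℕ) : ℕ :=
  tx (VR.adT R) (s2164 R i)

theorem e2166 (R : VR) : L (VR.S R) (v2166 R) (s2166 R) 255 :=
  L.gat (e2164 R) (VR.ad_is R) (VR.ad_lt R) (VR.ad_le R)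

noncomputable def v2167 (R : VR) : ℕ :=
  Nat.shiftRight (Nat.land (Nat.sub (VR.h1 R) (v2166 R)) (VR.h1 R)) (nat_lit 15)

noncomputable def s2167 (R : VR) (i : ℕ) : Bool :=
  Nat.beq (s2166 R i) (nat_lit 0)

theorem e2167 (R : VR) : B (VR.S R) (v2167 R) (s2167 R) :=
  L.ez (VR.h1e R) (e2166 R)

noncomputable def v2168 (R : VR) : ℕ :=
  Nat.shiftRight (Nat.land (Nat.add (v2166 R) (VR.k1 R)) (VR.h1 R)) (nat_lit 15)

noncomputable def s2168 (R : VR) (i : ℕ) : Bool :=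
  K.bnot (Nat.beq (s2166 R i) (nat_lit 0))

theorem e2168 (R : VR) : B (VR.S R) (v2168 R) (s2168 R) :=
  L.nz (VR.h1e R) (VR.k1e R) (e2166 R)

noncomputable def v2169 (R : VR) : ℕ :=
  Vc.ssub (VR.h1 R) (v2166 R) (v267 R)

noncomputable def s2169 (R : VR) (i : ℕ) : ℕ :=
  Nat.sub (s2166 R i) (s267 R i)

theorem e2169 (R : VR) : L (VR.S R) (v2169 R) (s2169 R) 255 :=
  L.sub (VR.h1e R) (e2166 R) (e267 R)

noncomputable def v2170 (R : VR) : ℕ :=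
  gmk (VR.h2 R) (VR.J R) (Nat.mul (v2169 R) (VR.cr1 R))

noncomputable def v2171 (R : VR) : ℕ :=
  Nat.mod (Nat.land (v2170 R) (v164 R)) (VR.m1 R)

noncomputable def s2171 (R : VR) (i : ℕ) : ℕ :=
  tx (VR.rhoT R) (s2169 R i)

theorem e2171 (R : VR) : L (VR.S R) (v2171 R) (s2171 R) 255 :=
  L.gat (e2169 R) (VR.rho_is R) (VR.rho_lt R) (VR.rho_le R)

noncomputable def v2172 (R : VR) : ℕ :=
  Nat.shiftRight (Nat.land (Nat.sub (VR.h1 R) (Nat.xor (VR.iota R) (Nat.mod (Nat.land (v2170 R)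
    (v164 R)) (VR.m1 R)))) (VR.h1 R)) (nat_lit 15)

noncomputable def s2172 (R : VR) (i : ℕ) : Bool :=
  Nat.beq (s0 R i) (s2171 R i)

theorem e2172 (R : VR) : B (VR.S R) (v2172 R) (s2172 R) :=
  L.beq (VR.h1e R) (e0 R) (e2171 R)

noncomputable def v2173 (R : VR) : ℕ :=
  Nat.mod (Nat.land (v2170 R) (v146 R)) (VR.m1 R)

noncomputable def s2173 (R : VR) (i : ℕ) : ℕ :=
  tx (VR.piT R) (s2169 R i)

theorem e2173 (R : VR) : L (VR.S R) (v2173 R) (s2173 R) 255 :=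
  L.gat (e2169 R) (VR.pi_is R) (VR.pi_lt R) (VR.pi_le R)

noncomputable def v2174 (R : VR) : ℕ :=
  Nat.mul (v2173 R) (VR.cr1 R)

noncomputable def s2174 (R : VR) (j i : ℕ) : ℕ :=
  (s2173 R i)

theorem e2174 (R : VR) : L2 R (v2174 R) (s2174 R) 255 :=
  L2.rep (e2173 R)

noncomputable def v2175 (R : VR) : ℕ :=
  Nat.shiftRight (Nat.land (Nat.sub (VR.h2 R) (Nat.xor (v1950 R) (Nat.mul (v2173 R) (VR.cr1 R))))
    (VR.h2 R)) (nat_lit 15)

noncomputable def s2175 (R : VR) (j i : ℕ) : Bool :=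
  Nat.beq (s1950 R j i) (s2174 R j i)

theorem e2175 (R : VR) : B2 R (v2175 R) (s2175 R) :=
  L.beq (VR.h2e R) (e1950 R) (e2174 R)

noncomputable def v2176 (R : VR) : ℕ :=
  Nat.mul (Nat.shiftRight (Nat.land (Nat.sub (VR.h1 R) (Nat.xor (VR.iota R) (Nat.mod (Nat.land
    (v2170 R) (v164 R)) (VR.m1 R)))) (VR.h1 R)) (nat_lit 15)) (VR.cr1 R)

noncomputable def s2176 (R : VR) (j i : ℕ) : Bool :=
  (s2172 R i)

theorem e2176 (R : VR) : B2 R (v2176 R) (s2176 R) :=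
  B2.rep (e2172 R)

noncomputable def v2177 (R : VR) : ℕ :=
  Nat.land (Nat.mul (Nat.shiftRight (Nat.land (Nat.sub (VR.h1 R) (Nat.xor (VR.iota R) (Nat.mod
    (Nat.land (v2170 R) (v164 R)) (VR.m1 R)))) (VR.h1 R)) (nat_lit 15)) (VR.cr1 R))
    (Nat.shiftRight (Nat.land (Nat.sub (VR.h2 R) (Nat.xor (v1950 R) (Nat.mul (v2173 R) (VR.cr1
    R)))) (VR.h2 R)) (nat_lit 15))

noncomputable def s2177 (R : VR) (j i : ℕ) : Bool :=
  K.band (s2176 R j i) (s2175 R j i)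

theorem e2177 (R : VR) : B2 R (v2177 R) (s2177 R) :=
  B.and (e2176 R) (e2175 R)

noncomputable def v2178 (R : VR) : ℕ :=
  Nat.shiftRight (Nat.land (Nat.sub (VR.h1 R) (Nat.xor (VR.rhoT R) (v2169 R))) (VR.h1 R)) (nat_lit
    15)

noncomputable def s2178 (R : VR) (i : ℕ) : Bool :=
  Nat.beq (s158 R i) (s2169 R i)

theorem e2178 (R : VR) : B (VR.S R) (v2178 R) (s2178 R) :=
  L.beq (VR.h1e R) (e158 R) (e2169 R)

noncomputable def v2179 (R : VR) : ℕ :=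
  gmk (VR.h2 R) (VR.J R) (Nat.mul (v2173 R) (VR.cr1 R))

noncomputable def v2180 (R : VR) : ℕ :=
  Nat.mod (Nat.land (gmk (VR.h2 R) (VR.J R) (Nat.mul (v2173 R) (VR.cr1 R))) (v164 R)) (VR.m1 R)

noncomputable def s2180 (R : VR) (i : ℕ) : ℕ :=
  tx (VR.rhoT R) (s2173 R i)

theorem e2180 (R : VR) : L (VR.S R) (v2180 R) (s2180 R) 255 :=
  L.gat (e2173 R) (VR.rho_is R) (VR.rho_lt R) (VR.rho_le R)

noncomputable def v2181 (R : VR) : ℕ :=
  Nat.mul (Nat.mod (Nat.land (gmk (VR.h2 R) (VR.J R) (Nat.mul (v2173 R) (VR.cr1 R))) (v164 R))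
    (VR.m1 R)) (VR.cr1 R)

noncomputable def s2181 (R : VR) (j i : ℕ) : ℕ :=
  (s2180 R i)

theorem e2181 (R : VR) : L2 R (v2181 R) (s2181 R) 255 :=
  L2.rep (e2180 R)

noncomputable def v2182 (R : VR) : ℕ :=
  Nat.shiftRight (Nat.land (Nat.sub (VR.h2 R) (Nat.xor (v528 R) (Nat.mul (Nat.mod (Nat.land (gmk
    (VR.h2 R) (VR.J R) (Nat.mul (v2173 R) (VR.cr1 R))) (v164 R)) (VR.m1 R)) (VR.cr1 R)))) (VR.h2
    R)) (nat_lit 15)

noncomputable def s2182 (R : VR) (j i : ℕ) : Bool :=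
  Nat.beq (s528 R j i) (s2181 R j i)

theorem e2182 (R : VR) : B2 R (v2182 R) (s2182 R) :=
  L.beq (VR.h2e R) (e528 R) (e2181 R)

noncomputable def v2183 (R : VR) : ℕ :=
  Nat.mul (Nat.shiftRight (Nat.land (Nat.sub (VR.h1 R) (Nat.xor (VR.rhoT R) (v2169 R))) (VR.h1 R))
    (nat_lit 15)) (VR.cr1 R)

noncomputable def s2183 (R : VR) (j i : ℕ) : Bool :=
  (s2178 R i)

theorem e2183 (R : VR) : B2 R (v2183 R) (s2183 R) :=
  B2.rep (e2178 R)

noncomputable def v2184 (R : VR) : ℕ :=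
  Nat.land (Nat.mul (Nat.shiftRight (Nat.land (Nat.sub (VR.h1 R) (Nat.xor (VR.rhoT R) (v2169 R)))
    (VR.h1 R)) (nat_lit 15)) (VR.cr1 R)) (Nat.shiftRight (Nat.land (Nat.sub (VR.h2 R) (Nat.xor
    (v528 R) (Nat.mul (Nat.mod (Nat.land (gmk (VR.h2 R) (VR.J R) (Nat.mul (v2173 R) (VR.cr1 R)))
    (v164 R)) (VR.m1 R)) (VR.cr1 R)))) (VR.h2 R)) (nat_lit 15))

noncomputable def s2184 (R : VR) (j i : ℕ) : Bool :=
  K.band (s2183 R j i) (s2182 R j i)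

theorem e2184 (R : VR) : B2 R (v2184 R) (s2184 R) :=
  B.and (e2183 R) (e2182 R)

noncomputable def v2185 (R : VR) : ℕ :=
  Nat.lor (Nat.land (Nat.mul (Nat.shiftRight (Nat.land (Nat.sub (VR.h1 R) (Nat.xor (VR.iota R)
    (Nat.mod (Nat.land (v2170 R) (v164 R)) (VR.m1 R)))) (VR.h1 R)) (nat_lit 15)) (VR.cr1 R))
    (Nat.shiftRight (Nat.land (Nat.sub (VR.h2 R) (Nat.xor (v1950 R) (Nat.mul (v2173 R) (VR.cr1
    R)))) (VR.h2 R)) (nat_lit 15))) (Nat.land (Nat.mul (Nat.shiftRight (Nat.land (Nat.sub (VR.h1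
    R) (Nat.xor (VR.rhoT R) (v2169 R))) (VR.h1 R)) (nat_lit 15)) (VR.cr1 R)) (Nat.shiftRight
    (Nat.land (Nat.sub (VR.h2 R) (Nat.xor (v528 R) (Nat.mul (Nat.mod (Nat.land (gmk (VR.h2 R)
    (VR.J R) (Nat.mul (v2173 R) (VR.cr1 R))) (v164 R)) (VR.m1 R)) (VR.cr1 R)))) (VR.h2 R))
    (nat_lit 15)))

noncomputable def s2185 (R : VR) (j i : ℕ) : Bool :=
  K.bor (s2177 R j i) (s2184 R j i)

theorem e2185 (R : VR) : B2 R (v2185 R) (s2185 R) :=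
  B.or (e2177 R) (e2184 R)

noncomputable def s2186 (R : VR) (j i : ℕ) : Bool :=
  K.Cf_exa (VR.Cf R) (s2169 R i) i j

theorem e2186 (R : VR) : B2 R (v2185 R) (s2186 R) :=
  e2185 R

noncomputable def v2187 (R : VR) : ℕ :=
  Nat.sub (VR.o2 R) (v2185 R)

noncomputable def s2187 (R : VR) (j i : ℕ) : Bool :=
  K.bnot (s2186 R j i)

theorem e2187 (R : VR) : B2 R (v2187 R) (s2187 R) :=
  B.not (VR.o2e R) (e2186 R)

noncomputable def v2188 (R : VR) : ℕ :=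
  Nat.mul (Nat.shiftRight (Nat.land (Nat.add (v2166 R) (VR.k1 R)) (VR.h1 R)) (nat_lit 15)) (VR.cr1
    R)

noncomputable def s2188 (R : VR) (j i : ℕ) : Bool :=
  (s2168 R i)

theorem e2188 (R : VR) : B2 R (v2188 R) (s2188 R) :=
  B2.rep (e2168 R)

noncomputable def v2189 (R : VR) : ℕ :=
  Nat.land (Nat.mul (Nat.shiftRight (Nat.land (Nat.add (v2166 R) (VR.k1 R)) (VR.h1 R)) (nat_lit
    15)) (VR.cr1 R)) (Nat.sub (VR.o2 R) (v2185 R))

noncomputable def s2189 (R : VR) (j i : ℕ) : Bool :=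
  K.band (s2188 R j i) (s2187 R j i)

theorem e2189 (R : VR) : B2 R (v2189 R) (s2189 R) :=
  B.and (e2188 R) (e2187 R)

noncomputable def v2190 (R : VR) : ℕ :=
  srM (VR.N R) (VR.S R) (VR.o1 R) (Nat.shiftRight (Nat.land (Nat.sub (VR.h1 R) (Nat.xor (VR.caT R)
    (v2162 R))) (VR.h1 R)) (nat_lit 15))

noncomputable def s2190 (R : VR) (j i : ℕ) : Bool :=
  (s2163 R j)

theorem e2190 (R : VR) : B2 R (v2190 R) (s2190 R) :=
  B2.row (e2163 R)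

noncomputable def v2191 (R : VR) : ℕ :=
  Nat.land (srM (VR.N R) (VR.S R) (VR.o1 R) (Nat.shiftRight (Nat.land (Nat.sub (VR.h1 R) (Nat.xor
    (VR.caT R) (v2162 R))) (VR.h1 R)) (nat_lit 15))) (Nat.land (Nat.mul (Nat.shiftRight (Nat.land
    (Nat.add (v2166 R) (VR.k1 R)) (VR.h1 R)) (nat_lit 15)) (VR.cr1 R)) (Nat.sub (VR.o2 R) (v2185
    R)))

noncomputable def s2191 (R : VR) (j i : ℕ) : Bool :=
  K.band (s2190 R j i) (s2189 R j i)

theorem e2191 (R : VR) : B2 R (v2191 R) (s2191 R) :=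
  B.and (e2190 R) (e2189 R)

noncomputable def v2192 (R : VR) : Bool :=
  Nat.ble (Nat.succ (v2161 R)) (v510 R)

noncomputable def s2192 (R : VR) : Bool :=
  Nat.ble (Nat.succ (s2161 R)) (s510 R)

theorem e2192 (R : VR) : (v2192 R) = s2192 R :=
  congrArg₂ Nat.ble (congrArg Nat.succ (e2161 R)) (e510 R)

noncomputable def v2193 (R : VR) : ℕ :=
  Bool.rec (motive := fun _ => ℕ) (nat_lit 0) (Nat.land (srM (VR.N R) (VR.S R) (VR.o1 R)
    (Nat.shiftRight (Nat.land (Nat.sub (VR.h1 R) (Nat.xor (VR.caT R) (v2162 R))) (VR.h1 R))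
    (nat_lit 15))) (Nat.land (Nat.mul (Nat.shiftRight (Nat.land (Nat.add (v2166 R) (VR.k1 R))
    (VR.h1 R)) (nat_lit 15)) (VR.cr1 R)) (Nat.sub (VR.o2 R) (v2185 R)))) (v2192 R)

noncomputable def s2193 (R : VR) (j i : ℕ) : Bool :=
  K.band (s2192 R) (s2191 R j i)

theorem e2193 (R : VR) : B2 R (v2193 R) (s2193 R) :=
  B.gand (e2192 R) (e2191 R)

noncomputable def v2194 (R : VR) : ℕ :=
  (nat_lit 8)

noncomputable def s2194 (R : VR) : ℕ :=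
  (nat_lit 8)

theorem e2194 (R : VR) : (v2194 R) = s2194 R :=
  rfl

noncomputable def v2195 (R : VR) : ℕ :=
  Nat.mul (VR.o1 R) (v2194 R)

noncomputable def s2195 (R : VR) (i : ℕ) : ℕ :=
  (s2194 R)

theorem e2195 (R : VR) : L (VR.S R) (v2195 R) (s2195 R) 8 :=
  L.scl (VR.o1e R) (e2194 R) (le_of_eq (rfl : s2194 R = (nat_lit 8))) (by decide)

noncomputable def v2196 (R : VR) : ℕ :=
  Nat.shiftRight (Nat.land (Nat.sub (VR.h1 R) (Nat.xor (VR.caT R) (v2195 R))) (VR.h1 R)) (nat_lit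
    15)

noncomputable def s2196 (R : VR) (i : ℕ) : Bool :=
  Nat.beq (s127 R i) (s2195 R i)

theorem e2196 (R : VR) : B (VR.S R) (v2196 R) (s2196 R) :=
  L.beq (VR.h1e R) (e127 R) (e2195 R)

noncomputable def v2197 (R : VR) : ℕ :=
  Nat.add (v1938 R) (v2195 R)

noncomputable def s2197 (R : VR) (i : ℕ) : ℕ :=
  Nat.add (s1938 R i) (s2195 R i)

theorem e2197 (R : VR) : L (VR.S R) (v2197 R) (s2197 R) 2558 :=
  L.add (e1938 R) (e2195 R) (by decide)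

noncomputable def v2198 (R : VR) : ℕ :=
  gmk (VR.h2 R) (VR.J R) (Nat.mul (Nat.add (v1938 R) (v2195 R)) (VR.cr1 R))

noncomputable def v2199 (R : VR) : ℕ :=
  Nat.mod (Nat.land (gmk (VR.h2 R) (VR.J R) (Nat.mul (Nat.add (v1938 R) (v2195 R)) (VR.cr1 R)))
    (v1941 R)) (VR.m1 R)

noncomputable def s2199 (R : VR) (i : ℕ) : ℕ :=
  tx (VR.adT R) (s2197 R i)

theorem e2199 (R : VR) : L (VR.S R) (v2199 R) (s2199 R) 255 :=
  L.gat (e2197 R) (VR.ad_is R) (VR.ad_lt R) (VR.ad_le R)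

noncomputable def v2200 (R : VR) : ℕ :=
  Nat.shiftRight (Nat.land (Nat.sub (VR.h1 R) (v2199 R)) (VR.h1 R)) (nat_lit 15)

noncomputable def s2200 (R : VR) (i : ℕ) : Bool :=
  Nat.beq (s2199 R i) (nat_lit 0)

theorem e2200 (R : VR) : B (VR.S R) (v2200 R) (s2200 R) :=
  L.ez (VR.h1e R) (e2199 R)

noncomputable def v2201 (R : VR) : ℕ :=
  Nat.shiftRight (Nat.land (Nat.add (v2199 R) (VR.k1 R)) (VR.h1 R)) (nat_lit 15)

noncomputable def s2201 (R : VR) (i : ℕ) : Bool :=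
  K.bnot (Nat.beq (s2199 R i) (nat_lit 0))

theorem e2201 (R : VR) : B (VR.S R) (v2201 R) (s2201 R) :=
  L.nz (VR.h1e R) (VR.k1e R) (e2199 R)

noncomputable def v2202 (R : VR) : ℕ :=
  Vc.ssub (VR.h1 R) (v2199 R) (v267 R)

noncomputable def s2202 (R : VR) (i : ℕ) : ℕ :=
  Nat.sub (s2199 R i) (s267 R i)

theorem e2202 (R : VR) : L (VR.S R) (v2202 R) (s2202 R) 255 :=
  L.sub (VR.h1e R) (e2199 R) (e267 R)

noncomputable def v2203 (R : VR) : ℕ :=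
  gmk (VR.h2 R) (VR.J R) (Nat.mul (v2202 R) (VR.cr1 R))

noncomputable def v2204 (R : VR) : ℕ :=
  Nat.mod (Nat.land (v2203 R) (v164 R)) (VR.m1 R)

noncomputable def s2204 (R : VR) (i : ℕ) : ℕ :=
  tx (VR.rhoT R) (s2202 R i)

theorem e2204 (R : VR) : L (VR.S R) (v2204 R) (s2204 R) 255 :=
  L.gat (e2202 R) (VR.rho_is R) (VR.rho_lt R) (VR.rho_le R)

noncomputable def v2205 (R : VR) : ℕ :=
  Nat.shiftRight (Nat.land (Nat.sub (VR.h1 R) (Nat.xor (VR.iota R) (Nat.mod (Nat.land (v2203 R)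
    (v164 R)) (VR.m1 R)))) (VR.h1 R)) (nat_lit 15)

noncomputable def s2205 (R : VR) (i : ℕ) : Bool :=
  Nat.beq (s0 R i) (s2204 R i)

theorem e2205 (R : VR) : B (VR.S R) (v2205 R) (s2205 R) :=
  L.beq (VR.h1e R) (e0 R) (e2204 R)

noncomputable def v2206 (R : VR) : ℕ :=
  Nat.mod (Nat.land (v2203 R) (v146 R)) (VR.m1 R)

noncomputable def s2206 (R : VR) (i : ℕ) : ℕ :=
  tx (VR.piT R) (s2202 R i)

theorem e2206 (R : VR) : L (VR.S R) (v2206 R) (s2206 R) 255 :=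
  L.gat (e2202 R) (VR.pi_is R) (VR.pi_lt R) (VR.pi_le R)

noncomputable def v2207 (R : VR) : ℕ :=
  Nat.mul (v2206 R) (VR.cr1 R)

noncomputable def s2207 (R : VR) (j i : ℕ) : ℕ :=
  (s2206 R i)

theorem e2207 (R : VR) : L2 R (v2207 R) (s2207 R) 255 :=
  L2.rep (e2206 R)

noncomputable def v2208 (R : VR) : ℕ :=
  Nat.shiftRight (Nat.land (Nat.sub (VR.h2 R) (Nat.xor (v1950 R) (Nat.mul (v2206 R) (VR.cr1 R))))
    (VR.h2 R)) (nat_lit 15)

noncomputable def s2208 (R : VR) (j i : ℕ) : Bool :=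
  Nat.beq (s1950 R j i) (s2207 R j i)

theorem e2208 (R : VR) : B2 R (v2208 R) (s2208 R) :=
  L.beq (VR.h2e R) (e1950 R) (e2207 R)

noncomputable def v2209 (R : VR) : ℕ :=
  Nat.mul (Nat.shiftRight (Nat.land (Nat.sub (VR.h1 R) (Nat.xor (VR.iota R) (Nat.mod (Nat.land
    (v2203 R) (v164 R)) (VR.m1 R)))) (VR.h1 R)) (nat_lit 15)) (VR.cr1 R)

noncomputable def s2209 (R : VR) (j i : ℕ) : Bool :=
  (s2205 R i)

theorem e2209 (R : VR) : B2 R (v2209 R) (s2209 R) :=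
  B2.rep (e2205 R)

noncomputable def v2210 (R : VR) : ℕ :=
  Nat.land (Nat.mul (Nat.shiftRight (Nat.land (Nat.sub (VR.h1 R) (Nat.xor (VR.iota R) (Nat.mod
    (Nat.land (v2203 R) (v164 R)) (VR.m1 R)))) (VR.h1 R)) (nat_lit 15)) (VR.cr1 R))
    (Nat.shiftRight (Nat.land (Nat.sub (VR.h2 R) (Nat.xor (v1950 R) (Nat.mul (v2206 R) (VR.cr1
    R)))) (VR.h2 R)) (nat_lit 15))

noncomputable def s2210 (R : VR) (j i : ℕ) : Bool :=
  K.band (s2209 R j i) (s2208 R j i)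

theorem e2210 (R : VR) : B2 R (v2210 R) (s2210 R) :=
  B.and (e2209 R) (e2208 R)

noncomputable def v2211 (R : VR) : ℕ :=
  Nat.shiftRight (Nat.land (Nat.sub (VR.h1 R) (Nat.xor (VR.rhoT R) (v2202 R))) (VR.h1 R)) (nat_lit
    15)

noncomputable def s2211 (R : VR) (i : ℕ) : Bool :=
  Nat.beq (s158 R i) (s2202 R i)

theorem e2211 (R : VR) : B (VR.S R) (v2211 R) (s2211 R) :=
  L.beq (VR.h1e R) (e158 R) (e2202 R)

noncomputable def v2212 (R : VR) : ℕ :=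
  gmk (VR.h2 R) (VR.J R) (Nat.mul (v2206 R) (VR.cr1 R))

noncomputable def v2213 (R : VR) : ℕ :=
  Nat.mod (Nat.land (gmk (VR.h2 R) (VR.J R) (Nat.mul (v2206 R) (VR.cr1 R))) (v164 R)) (VR.m1 R)

noncomputable def s2213 (R : VR) (i : ℕ) : ℕ :=
  tx (VR.rhoT R) (s2206 R i)

theorem e2213 (R : VR) : L (VR.S R) (v2213 R) (s2213 R) 255 :=
  L.gat (e2206 R) (VR.rho_is R) (VR.rho_lt R) (VR.rho_le R)

noncomputable def v2214 (R : VR) : ℕ :=
  Nat.mul (Nat.mod (Nat.land (gmk (VR.h2 R) (VR.J R) (Nat.mul (v2206 R) (VR.cr1 R))) (v164 R))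
    (VR.m1 R)) (VR.cr1 R)

noncomputable def s2214 (R : VR) (j i : ℕ) : ℕ :=
  (s2213 R i)

theorem e2214 (R : VR) : L2 R (v2214 R) (s2214 R) 255 :=
  L2.rep (e2213 R)

noncomputable def v2215 (R : VR) : ℕ :=
  Nat.shiftRight (Nat.land (Nat.sub (VR.h2 R) (Nat.xor (v528 R) (Nat.mul (Nat.mod (Nat.land (gmk
    (VR.h2 R) (VR.J R) (Nat.mul (v2206 R) (VR.cr1 R))) (v164 R)) (VR.m1 R)) (VR.cr1 R)))) (VR.h2
    R)) (nat_lit 15)

noncomputable def s2215 (R : VR) (j i : ℕ) : Bool :=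
  Nat.beq (s528 R j i) (s2214 R j i)

theorem e2215 (R : VR) : B2 R (v2215 R) (s2215 R) :=
  L.beq (VR.h2e R) (e528 R) (e2214 R)

noncomputable def v2216 (R : VR) : ℕ :=
  Nat.mul (Nat.shiftRight (Nat.land (Nat.sub (VR.h1 R) (Nat.xor (VR.rhoT R) (v2202 R))) (VR.h1 R))
    (nat_lit 15)) (VR.cr1 R)

noncomputable def s2216 (R : VR) (j i : ℕ) : Bool :=
  (s2211 R i)

theorem e2216 (R : VR) : B2 R (v2216 R) (s2216 R) :=
  B2.rep (e2211 R)

noncomputable def v2217 (R : VR) : ℕ :=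
  Nat.land (Nat.mul (Nat.shiftRight (Nat.land (Nat.sub (VR.h1 R) (Nat.xor (VR.rhoT R) (v2202 R)))
    (VR.h1 R)) (nat_lit 15)) (VR.cr1 R)) (Nat.shiftRight (Nat.land (Nat.sub (VR.h2 R) (Nat.xor
    (v528 R) (Nat.mul (Nat.mod (Nat.land (gmk (VR.h2 R) (VR.J R) (Nat.mul (v2206 R) (VR.cr1 R)))
    (v164 R)) (VR.m1 R)) (VR.cr1 R)))) (VR.h2 R)) (nat_lit 15))

noncomputable def s2217 (R : VR) (j i : ℕ) : Bool :=
  K.band (s2216 R j i) (s2215 R j i)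

theorem e2217 (R : VR) : B2 R (v2217 R) (s2217 R) :=
  B.and (e2216 R) (e2215 R)

noncomputable def v2218 (R : VR) : ℕ :=
  Nat.lor (Nat.land (Nat.mul (Nat.shiftRight (Nat.land (Nat.sub (VR.h1 R) (Nat.xor (VR.iota R)
    (Nat.mod (Nat.land (v2203 R) (v164 R)) (VR.m1 R)))) (VR.h1 R)) (nat_lit 15)) (VR.cr1 R))
    (Nat.shiftRight (Nat.land (Nat.sub (VR.h2 R) (Nat.xor (v1950 R) (Nat.mul (v2206 R) (VR.cr1
    R)))) (VR.h2 R)) (nat_lit 15))) (Nat.land (Nat.mul (Nat.shiftRight (Nat.land (Nat.sub (VR.h1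
    R) (Nat.xor (VR.rhoT R) (v2202 R))) (VR.h1 R)) (nat_lit 15)) (VR.cr1 R)) (Nat.shiftRight
    (Nat.land (Nat.sub (VR.h2 R) (Nat.xor (v528 R) (Nat.mul (Nat.mod (Nat.land (gmk (VR.h2 R)
    (VR.J R) (Nat.mul (v2206 R) (VR.cr1 R))) (v164 R)) (VR.m1 R)) (VR.cr1 R)))) (VR.h2 R))
    (nat_lit 15)))

noncomputable def s2218 (R : VR) (j i : ℕ) : Bool :=
  K.bor (s2210 R j i) (s2217 R j i)

theorem e2218 (R : VR) : B2 R (v2218 R) (s2218 R) :=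
  B.or (e2210 R) (e2217 R)

noncomputable def s2219 (R : VR) (j i : ℕ) : Bool :=
  K.Cf_exa (VR.Cf R) (s2202 R i) i j

theorem e2219 (R : VR) : B2 R (v2218 R) (s2219 R) :=
  e2218 R

noncomputable def v2220 (R : VR) : ℕ :=
  Nat.sub (VR.o2 R) (v2218 R)

noncomputable def s2220 (R : VR) (j i : ℕ) : Bool :=
  K.bnot (s2219 R j i)

theorem e2220 (R : VR) : B2 R (v2220 R) (s2220 R) :=
  B.not (VR.o2e R) (e2219 R)

noncomputable def v2221 (R : VR) : ℕ :=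
  Nat.mul (Nat.shiftRight (Nat.land (Nat.add (v2199 R) (VR.k1 R)) (VR.h1 R)) (nat_lit 15)) (VR.cr1
    R)

noncomputable def s2221 (R : VR) (j i : ℕ) : Bool :=
  (s2201 R i)

theorem e2221 (R : VR) : B2 R (v2221 R) (s2221 R) :=
  B2.rep (e2201 R)

noncomputable def v2222 (R : VR) : ℕ :=
  Nat.land (Nat.mul (Nat.shiftRight (Nat.land (Nat.add (v2199 R) (VR.k1 R)) (VR.h1 R)) (nat_lit
    15)) (VR.cr1 R)) (Nat.sub (VR.o2 R) (v2218 R))

noncomputable def s2222 (R : VR) (j i : ℕ) : Bool :=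
  K.band (s2221 R j i) (s2220 R j i)

theorem e2222 (R : VR) : B2 R (v2222 R) (s2222 R) :=
  B.and (e2221 R) (e2220 R)

noncomputable def v2223 (R : VR) : ℕ :=
  srM (VR.N R) (VR.S R) (VR.o1 R) (Nat.shiftRight (Nat.land (Nat.sub (VR.h1 R) (Nat.xor (VR.caT R)
    (v2195 R))) (VR.h1 R)) (nat_lit 15))

noncomputable def s2223 (R : VR) (j i : ℕ) : Bool :=
  (s2196 R j)

theorem e2223 (R : VR) : B2 R (v2223 R) (s2223 R) :=
  B2.row (e2196 R)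

noncomputable def v2224 (R : VR) : ℕ :=
  Nat.land (srM (VR.N R) (VR.S R) (VR.o1 R) (Nat.shiftRight (Nat.land (Nat.sub (VR.h1 R) (Nat.xor
    (VR.caT R) (v2195 R))) (VR.h1 R)) (nat_lit 15))) (Nat.land (Nat.mul (Nat.shiftRight (Nat.land
    (Nat.add (v2199 R) (VR.k1 R)) (VR.h1 R)) (nat_lit 15)) (VR.cr1 R)) (Nat.sub (VR.o2 R) (v2218
    R)))

noncomputable def s2224 (R : VR) (j i : ℕ) : Bool :=
  K.band (s2223 R j i) (s2222 R j i)

theorem e2224 (R : VR) : B2 R (v2224 R) (s2224 R) :=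
  B.and (e2223 R) (e2222 R)

noncomputable def v2225 (R : VR) : Bool :=
  Nat.ble (Nat.succ (v2194 R)) (v510 R)

noncomputable def s2225 (R : VR) : Bool :=
  Nat.ble (Nat.succ (s2194 R)) (s510 R)

theorem e2225 (R : VR) : (v2225 R) = s2225 R :=
  congrArg₂ Nat.ble (congrArg Nat.succ (e2194 R)) (e510 R)

noncomputable def v2226 (R : VR) : ℕ :=
  Bool.rec (motive := fun _ => ℕ) (nat_lit 0) (Nat.land (srM (VR.N R) (VR.S R) (VR.o1 R)
    (Nat.shiftRight (Nat.land (Nat.sub (VR.h1 R) (Nat.xor (VR.caT R) (v2195 R))) (VR.h1 R))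
    (nat_lit 15))) (Nat.land (Nat.mul (Nat.shiftRight (Nat.land (Nat.add (v2199 R) (VR.k1 R))
    (VR.h1 R)) (nat_lit 15)) (VR.cr1 R)) (Nat.sub (VR.o2 R) (v2218 R)))) (v2225 R)

noncomputable def s2226 (R : VR) (j i : ℕ) : Bool :=
  K.band (s2225 R) (s2224 R j i)

theorem e2226 (R : VR) : B2 R (v2226 R) (s2226 R) :=
  B.gand (e2225 R) (e2224 R)

noncomputable def v2227 (R : VR) : ℕ :=
  (nat_lit 9)

noncomputable def s2227 (R : VR) : ℕ :=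
  (nat_lit 9)

theorem e2227 (R : VR) : (v2227 R) = s2227 R :=
  rfl

noncomputable def v2228 (R : VR) : ℕ :=
  Nat.mul (VR.o1 R) (v2227 R)

noncomputable def s2228 (R : VR) (i : ℕ) : ℕ :=
  (s2227 R)

theorem e2228 (R : VR) : L (VR.S R) (v2228 R) (s2228 R) 9 :=
  L.scl (VR.o1e R) (e2227 R) (le_of_eq (rfl : s2227 R = (nat_lit 9))) (by decide)

noncomputable def v2229 (R : VR) : ℕ :=
  Nat.shiftRight (Nat.land (Nat.sub (VR.h1 R) (Nat.xor (VR.caT R) (v2228 R))) (VR.h1 R)) (nat_lit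
    15)

noncomputable def s2229 (R : VR) (i : ℕ) : Bool :=
  Nat.beq (s127 R i) (s2228 R i)

theorem e2229 (R : VR) : B (VR.S R) (v2229 R) (s2229 R) :=
  L.beq (VR.h1e R) (e127 R) (e2228 R)

noncomputable def v2230 (R : VR) : ℕ :=
  Nat.add (v1938 R) (v2228 R)

noncomputable def s2230 (R : VR) (i : ℕ) : ℕ :=
  Nat.add (s1938 R i) (s2228 R i)

theorem e2230 (R : VR) : L (VR.S R) (v2230 R) (s2230 R) 2559 :=
  L.add (e1938 R) (e2228 R) (by decide)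

noncomputable def v2231 (R : VR) : ℕ :=
  gmk (VR.h2 R) (VR.J R) (Nat.mul (Nat.add (v1938 R) (v2228 R)) (VR.cr1 R))

noncomputable def v2232 (R : VR) : ℕ :=
  Nat.mod (Nat.land (gmk (VR.h2 R) (VR.J R) (Nat.mul (Nat.add (v1938 R) (v2228 R)) (VR.cr1 R)))
    (v1941 R)) (VR.m1 R)

noncomputable def s2232 (R : VR) (i : ℕ) : ℕ :=
  tx (VR.adT R) (s2230 R i)

theorem e2232 (R : VR) : L (VR.S R) (v2232 R) (s2232 R) 255 :=
  L.gat (e2230 R) (VR.ad_is R) (VR.ad_lt R) (VR.ad_le R)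

noncomputable def v2233 (R : VR) : ℕ :=
  Nat.shiftRight (Nat.land (Nat.sub (VR.h1 R) (v2232 R)) (VR.h1 R)) (nat_lit 15)

noncomputable def s2233 (R : VR) (i : ℕ) : Bool :=
  Nat.beq (s2232 R i) (nat_lit 0)

theorem e2233 (R : VR) : B (VR.S R) (v2233 R) (s2233 R) :=
  L.ez (VR.h1e R) (e2232 R)

noncomputable def v2234 (R : VR) : ℕ :=
  Nat.shiftRight (Nat.land (Nat.add (v2232 R) (VR.k1 R)) (VR.h1 R)) (nat_lit 15)

noncomputable def s2234 (R : VR) (i : ℕ) : Bool :=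
  K.bnot (Nat.beq (s2232 R i) (nat_lit 0))

theorem e2234 (R : VR) : B (VR.S R) (v2234 R) (s2234 R) :=
  L.nz (VR.h1e R) (VR.k1e R) (e2232 R)

noncomputable def v2235 (R : VR) : ℕ :=
  Vc.ssub (VR.h1 R) (v2232 R) (v267 R)

noncomputable def s2235 (R : VR) (i : ℕ) : ℕ :=
  Nat.sub (s2232 R i) (s267 R i)

theorem e2235 (R : VR) : L (VR.S R) (v2235 R) (s2235 R) 255 :=
  L.sub (VR.h1e R) (e2232 R) (e267 R)

noncomputable def v2236 (R : VR) : ℕ :=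
  gmk (VR.h2 R) (VR.J R) (Nat.mul (v2235 R) (VR.cr1 R))

noncomputable def v2237 (R : VR) : ℕ :=
  Nat.mod (Nat.land (v2236 R) (v164 R)) (VR.m1 R)

noncomputable def s2237 (R : VR) (i : ℕ) : ℕ :=
  tx (VR.rhoT R) (s2235 R i)

theorem e2237 (R : VR) : L (VR.S R) (v2237 R) (s2237 R) 255 :=
  L.gat (e2235 R) (VR.rho_is R) (VR.rho_lt R) (VR.rho_le R)

noncomputable def v2238 (R : VR) : ℕ :=
  Nat.shiftRight (Nat.land (Nat.sub (VR.h1 R) (Nat.xor (VR.iota R) (Nat.mod (Nat.land (v2236 R)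
    (v164 R)) (VR.m1 R)))) (VR.h1 R)) (nat_lit 15)

noncomputable def s2238 (R : VR) (i : ℕ) : Bool :=
  Nat.beq (s0 R i) (s2237 R i)

theorem e2238 (R : VR) : B (VR.S R) (v2238 R) (s2238 R) :=
  L.beq (VR.h1e R) (e0 R) (e2237 R)

noncomputable def v2239 (R : VR) : ℕ :=
  Nat.mod (Nat.land (v2236 R) (v146 R)) (VR.m1 R)

noncomputable def s2239 (R : VR) (i : ℕ) : ℕ :=
  tx (VR.piT R) (s2235 R i)

theorem e2239 (R : VR) : L (VR.S R) (v2239 R) (s2239 R) 255 :=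
  L.gat (e2235 R) (VR.pi_is R) (VR.pi_lt R) (VR.pi_le R)

noncomputable def v2240 (R : VR) : ℕ :=
  Nat.mul (v2239 R) (VR.cr1 R)

noncomputable def s2240 (R : VR) (j i : ℕ) : ℕ :=
  (s2239 R i)

theorem e2240 (R : VR) : L2 R (v2240 R) (s2240 R) 255 :=
  L2.rep (e2239 R)

noncomputable def v2241 (R : VR) : ℕ :=
  Nat.shiftRight (Nat.land (Nat.sub (VR.h2 R) (Nat.xor (v1950 R) (Nat.mul (v2239 R) (VR.cr1 R))))
    (VR.h2 R)) (nat_lit 15)

noncomputable def s2241 (R : VR) (j i : ℕ) : Bool :=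
  Nat.beq (s1950 R j i) (s2240 R j i)

theorem e2241 (R : VR) : B2 R (v2241 R) (s2241 R) :=
  L.beq (VR.h2e R) (e1950 R) (e2240 R)

noncomputable def v2242 (R : VR) : ℕ :=
  Nat.mul (Nat.shiftRight (Nat.land (Nat.sub (VR.h1 R) (Nat.xor (VR.iota R) (Nat.mod (Nat.land
    (v2236 R) (v164 R)) (VR.m1 R)))) (VR.h1 R)) (nat_lit 15)) (VR.cr1 R)

noncomputable def s2242 (R : VR) (j i : ℕ) : Bool :=
  (s2238 R i)

theorem e2242 (R : VR) : B2 R (v2242 R) (s2242 R) :=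
  B2.rep (e2238 R)

noncomputable def v2243 (R : VR) : ℕ :=
  Nat.land (Nat.mul (Nat.shiftRight (Nat.land (Nat.sub (VR.h1 R) (Nat.xor (VR.iota R) (Nat.mod
    (Nat.land (v2236 R) (v164 R)) (VR.m1 R)))) (VR.h1 R)) (nat_lit 15)) (VR.cr1 R))
    (Nat.shiftRight (Nat.land (Nat.sub (VR.h2 R) (Nat.xor (v1950 R) (Nat.mul (v2239 R) (VR.cr1
    R)))) (VR.h2 R)) (nat_lit 15))

noncomputable def s2243 (R : VR) (j i : ℕ) : Bool :=
  K.band (s2242 R j i) (s2241 R j i)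

theorem e2243 (R : VR) : B2 R (v2243 R) (s2243 R) :=
  B.and (e2242 R) (e2241 R)

noncomputable def v2244 (R : VR) : ℕ :=
  Nat.shiftRight (Nat.land (Nat.sub (VR.h1 R) (Nat.xor (VR.rhoT R) (v2235 R))) (VR.h1 R)) (nat_lit
    15)

noncomputable def s2244 (R : VR) (i : ℕ) : Bool :=
  Nat.beq (s158 R i) (s2235 R i)

theorem e2244 (R : VR) : B (VR.S R) (v2244 R) (s2244 R) :=
  L.beq (VR.h1e R) (e158 R) (e2235 R)

noncomputable def v2245 (R : VR) : ℕ :=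
  gmk (VR.h2 R) (VR.J R) (Nat.mul (v2239 R) (VR.cr1 R))

noncomputable def v2246 (R : VR) : ℕ :=
  Nat.mod (Nat.land (gmk (VR.h2 R) (VR.J R) (Nat.mul (v2239 R) (VR.cr1 R))) (v164 R)) (VR.m1 R)

noncomputable def s2246 (R : VR) (i : ℕ) : ℕ :=
  tx (VR.rhoT R) (s2239 R i)

theorem e2246 (R : VR) : L (VR.S R) (v2246 R) (s2246 R) 255 :=
  L.gat (e2239 R) (VR.rho_is R) (VR.rho_lt R) (VR.rho_le R)

noncomputable def v2247 (R : VR) : ℕ :=
  Nat.mul (Nat.mod (Nat.land (gmk (VR.h2 R) (VR.J R) (Nat.mul (v2239 R) (VR.cr1 R))) (v164 R))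
    (VR.m1 R)) (VR.cr1 R)

noncomputable def s2247 (R : VR) (j i : ℕ) : ℕ :=
  (s2246 R i)

theorem e2247 (R : VR) : L2 R (v2247 R) (s2247 R) 255 :=
  L2.rep (e2246 R)

noncomputable def v2248 (R : VR) : ℕ :=
  Nat.shiftRight (Nat.land (Nat.sub (VR.h2 R) (Nat.xor (v528 R) (Nat.mul (Nat.mod (Nat.land (gmk
    (VR.h2 R) (VR.J R) (Nat.mul (v2239 R) (VR.cr1 R))) (v164 R)) (VR.m1 R)) (VR.cr1 R)))) (VR.h2
    R)) (nat_lit 15)

noncomputable def s2248 (R : VR) (j i : ℕ) : Bool :=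
  Nat.beq (s528 R j i) (s2247 R j i)

theorem e2248 (R : VR) : B2 R (v2248 R) (s2248 R) :=
  L.beq (VR.h2e R) (e528 R) (e2247 R)

noncomputable def v2249 (R : VR) : ℕ :=
  Nat.mul (Nat.shiftRight (Nat.land (Nat.sub (VR.h1 R) (Nat.xor (VR.rhoT R) (v2235 R))) (VR.h1 R))
    (nat_lit 15)) (VR.cr1 R)

noncomputable def s2249 (R : VR) (j i : ℕ) : Bool :=
  (s2244 R i)

theorem e2249 (R : VR) : B2 R (v2249 R) (s2249 R) :=
  B2.rep (e2244 R)

noncomputable def v2250 (R : VR) : ℕ :=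
  Nat.land (Nat.mul (Nat.shiftRight (Nat.land (Nat.sub (VR.h1 R) (Nat.xor (VR.rhoT R) (v2235 R)))
    (VR.h1 R)) (nat_lit 15)) (VR.cr1 R)) (Nat.shiftRight (Nat.land (Nat.sub (VR.h2 R) (Nat.xor
    (v528 R) (Nat.mul (Nat.mod (Nat.land (gmk (VR.h2 R) (VR.J R) (Nat.mul (v2239 R) (VR.cr1 R)))
    (v164 R)) (VR.m1 R)) (VR.cr1 R)))) (VR.h2 R)) (nat_lit 15))

noncomputable def s2250 (R : VR) (j i : ℕ) : Bool :=
  K.band (s2249 R j i) (s2248 R j i)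

theorem e2250 (R : VR) : B2 R (v2250 R) (s2250 R) :=
  B.and (e2249 R) (e2248 R)

noncomputable def v2251 (R : VR) : ℕ :=
  Nat.lor (Nat.land (Nat.mul (Nat.shiftRight (Nat.land (Nat.sub (VR.h1 R) (Nat.xor (VR.iota R)
    (Nat.mod (Nat.land (v2236 R) (v164 R)) (VR.m1 R)))) (VR.h1 R)) (nat_lit 15)) (VR.cr1 R))
    (Nat.shiftRight (Nat.land (Nat.sub (VR.h2 R) (Nat.xor (v1950 R) (Nat.mul (v2239 R) (VR.cr1
    R)))) (VR.h2 R)) (nat_lit 15))) (Nat.land (Nat.mul (Nat.shiftRight (Nat.land (Nat.sub (VR.h1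
    R) (Nat.xor (VR.rhoT R) (v2235 R))) (VR.h1 R)) (nat_lit 15)) (VR.cr1 R)) (Nat.shiftRight
    (Nat.land (Nat.sub (VR.h2 R) (Nat.xor (v528 R) (Nat.mul (Nat.mod (Nat.land (gmk (VR.h2 R)
    (VR.J R) (Nat.mul (v2239 R) (VR.cr1 R))) (v164 R)) (VR.m1 R)) (VR.cr1 R)))) (VR.h2 R))
    (nat_lit 15)))

noncomputable def s2251 (R : VR) (j i : ℕ) : Bool :=
  K.bor (s2243 R j i) (s2250 R j i)

theorem e2251 (R : VR) : B2 R (v2251 R) (s2251 R) :=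
  B.or (e2243 R) (e2250 R)

noncomputable def s2252 (R : VR) (j i : ℕ) : Bool :=
  K.Cf_exa (VR.Cf R) (s2235 R i) i j

theorem e2252 (R : VR) : B2 R (v2251 R) (s2252 R) :=
  e2251 R

noncomputable def v2253 (R : VR) : ℕ :=
  Nat.sub (VR.o2 R) (v2251 R)

noncomputable def s2253 (R : VR) (j i : ℕ) : Bool :=
  K.bnot (s2252 R j i)

theorem e2253 (R : VR) : B2 R (v2253 R) (s2253 R) :=
  B.not (VR.o2e R) (e2252 R)

noncomputable def v2254 (R : VR) : ℕ :=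
  Nat.mul (Nat.shiftRight (Nat.land (Nat.add (v2232 R) (VR.k1 R)) (VR.h1 R)) (nat_lit 15)) (VR.cr1
    R)

noncomputable def s2254 (R : VR) (j i : ℕ) : Bool :=
  (s2234 R i)

theorem e2254 (R : VR) : B2 R (v2254 R) (s2254 R) :=
  B2.rep (e2234 R)

noncomputable def v2255 (R : VR) : ℕ :=
  Nat.land (Nat.mul (Nat.shiftRight (Nat.land (Nat.add (v2232 R) (VR.k1 R)) (VR.h1 R)) (nat_lit
    15)) (VR.cr1 R)) (Nat.sub (VR.o2 R) (v2251 R))

noncomputable def s2255 (R : VR) (j i : ℕ) : Bool :=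
  K.band (s2254 R j i) (s2253 R j i)

theorem e2255 (R : VR) : B2 R (v2255 R) (s2255 R) :=
  B.and (e2254 R) (e2253 R)

noncomputable def v2256 (R : VR) : ℕ :=
  srM (VR.N R) (VR.S R) (VR.o1 R) (Nat.shiftRight (Nat.land (Nat.sub (VR.h1 R) (Nat.xor (VR.caT R)
    (v2228 R))) (VR.h1 R)) (nat_lit 15))

noncomputable def s2256 (R : VR) (j i : ℕ) : Bool :=
  (s2229 R j)

theorem e2256 (R : VR) : B2 R (v2256 R) (s2256 R) :=
  B2.row (e2229 R)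

noncomputable def v2257 (R : VR) : ℕ :=
  Nat.land (srM (VR.N R) (VR.S R) (VR.o1 R) (Nat.shiftRight (Nat.land (Nat.sub (VR.h1 R) (Nat.xor
    (VR.caT R) (v2228 R))) (VR.h1 R)) (nat_lit 15))) (Nat.land (Nat.mul (Nat.shiftRight (Nat.land
    (Nat.add (v2232 R) (VR.k1 R)) (VR.h1 R)) (nat_lit 15)) (VR.cr1 R)) (Nat.sub (VR.o2 R) (v2251
    R)))

noncomputable def s2257 (R : VR) (j i : ℕ) : Bool :=
  K.band (s2256 R j i) (s2255 R j i)

theorem e2257 (R : VR) : B2 R (v2257 R) (s2257 R) :=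
  B.and (e2256 R) (e2255 R)

noncomputable def v2258 (R : VR) : Bool :=
  Nat.ble (Nat.succ (v2227 R)) (v510 R)

noncomputable def s2258 (R : VR) : Bool :=
  Nat.ble (Nat.succ (s2227 R)) (s510 R)

theorem e2258 (R : VR) : (v2258 R) = s2258 R :=
  congrArg₂ Nat.ble (congrArg Nat.succ (e2227 R)) (e510 R)

noncomputable def v2259 (R : VR) : ℕ :=
  Bool.rec (motive := fun _ => ℕ) (nat_lit 0) (Nat.land (srM (VR.N R) (VR.S R) (VR.o1 R)
    (Nat.shiftRight (Nat.land (Nat.sub (VR.h1 R) (Nat.xor (VR.caT R) (v2228 R))) (VR.h1 R))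
    (nat_lit 15))) (Nat.land (Nat.mul (Nat.shiftRight (Nat.land (Nat.add (v2232 R) (VR.k1 R))
    (VR.h1 R)) (nat_lit 15)) (VR.cr1 R)) (Nat.sub (VR.o2 R) (v2251 R)))) (v2258 R)

noncomputable def s2259 (R : VR) (j i : ℕ) : Bool :=
  K.band (s2258 R) (s2257 R j i)

theorem e2259 (R : VR) : B2 R (v2259 R) (s2259 R) :=
  B.gand (e2258 R) (e2257 R)

noncomputable def v2260 (R : VR) : ℕ :=
  Nat.lor (Bool.rec (motive := fun _ => ℕ) (nat_lit 0) (Nat.land (srM (VR.N R) (VR.S R) (VR.o1 R)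
    (Nat.shiftRight (Nat.land (Nat.sub (VR.h1 R) (VR.caT R)) (VR.h1 R)) (nat_lit 15))) (Nat.land
    (Nat.mul (Nat.shiftRight (Nat.land (Nat.add (v1942 R) (VR.k1 R)) (VR.h1 R)) (nat_lit 15))
    (VR.cr1 R)) (Nat.sub (VR.o2 R) (v1962 R)))) (v1969 R)) (Bool.rec (motive := fun _ => ℕ)
    (nat_lit 0) (Nat.land (srM (VR.N R) (VR.S R) (VR.o1 R) (Nat.shiftRight (Nat.land (Nat.sub
    (VR.h1 R) (Nat.xor (VR.caT R) (v267 R))) (VR.h1 R)) (nat_lit 15))) (Nat.land (Nat.mul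
    (Nat.shiftRight (Nat.land (Nat.add (v1974 R) (VR.k1 R)) (VR.h1 R)) (nat_lit 15)) (VR.cr1 R))
    (Nat.sub (VR.o2 R) (v1993 R)))) (v2000 R))

noncomputable def s2260 (R : VR) (j i : ℕ) : Bool :=
  K.bor (s1970 R j i) (s2001 R j i)

theorem e2260 (R : VR) : B2 R (v2260 R) (s2260 R) :=
  B.or (e1970 R) (e2001 R)

noncomputable def v2261 (R : VR) : ℕ :=
  Nat.lor (v2260 R) (Bool.rec (motive := fun _ => ℕ) (nat_lit 0) (Nat.land (srM (VR.N R) (VR.S R)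
    (VR.o1 R) (Nat.shiftRight (Nat.land (Nat.sub (VR.h1 R) (Nat.xor (VR.caT R) (v359 R))) (VR.h1
    R)) (nat_lit 15))) (Nat.land (Nat.mul (Nat.shiftRight (Nat.land (Nat.add (v2005 R) (VR.k1 R))
    (VR.h1 R)) (nat_lit 15)) (VR.cr1 R)) (Nat.sub (VR.o2 R) (v2024 R)))) (v2031 R))

noncomputable def s2261 (R : VR) (j i : ℕ) : Bool :=
  K.bor (s2260 R j i) (s2032 R j i)

theorem e2261 (R : VR) : B2 R (v2261 R) (s2261 R) :=
  B.or (e2260 R) (e2032 R)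

noncomputable def v2262 (R : VR) : ℕ :=
  Nat.lor (Nat.lor (v2260 R) (Bool.rec (motive := fun _ => ℕ) (nat_lit 0) (Nat.land (srM (VR.N R)
    (VR.S R) (VR.o1 R) (Nat.shiftRight (Nat.land (Nat.sub (VR.h1 R) (Nat.xor (VR.caT R) (v359 R)))
    (VR.h1 R)) (nat_lit 15))) (Nat.land (Nat.mul (Nat.shiftRight (Nat.land (Nat.add (v2005 R)
    (VR.k1 R)) (VR.h1 R)) (nat_lit 15)) (VR.cr1 R)) (Nat.sub (VR.o2 R) (v2024 R)))) (v2031 R)))
    (Bool.rec (motive := fun _ => ℕ) (nat_lit 0) (Nat.land (srM (VR.N R) (VR.S R) (VR.o1 R)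
    (Nat.shiftRight (Nat.land (Nat.sub (VR.h1 R) (Nat.xor (VR.caT R) (v1017 R))) (VR.h1 R))
    (nat_lit 15))) (Nat.land (Nat.mul (Nat.shiftRight (Nat.land (Nat.add (v2036 R) (VR.k1 R))
    (VR.h1 R)) (nat_lit 15)) (VR.cr1 R)) (Nat.sub (VR.o2 R) (v2055 R)))) (v2062 R))

noncomputable def s2262 (R : VR) (j i : ℕ) : Bool :=
  K.bor (s2261 R j i) (s2063 R j i)

theorem e2262 (R : VR) : B2 R (v2262 R) (s2262 R) :=
  B.or (e2261 R) (e2063 R)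

noncomputable def v2263 (R : VR) : ℕ :=
  Nat.lor (v2262 R) (Bool.rec (motive := fun _ => ℕ) (nat_lit 0) (Nat.land (srM (VR.N R) (VR.S R)
    (VR.o1 R) (Nat.shiftRight (Nat.land (Nat.sub (VR.h1 R) (Nat.xor (VR.caT R) (v136 R))) (VR.h1
    R)) (nat_lit 15))) (Nat.land (Nat.mul (Nat.shiftRight (Nat.land (Nat.add (v2067 R) (VR.k1 R))
    (VR.h1 R)) (nat_lit 15)) (VR.cr1 R)) (Nat.sub (VR.o2 R) (v2086 R)))) (v2093 R))

noncomputable def s2263 (R : VR) (j i : ℕ) : Bool :=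
  K.bor (s2262 R j i) (s2094 R j i)

theorem e2263 (R : VR) : B2 R (v2263 R) (s2263 R) :=
  B.or (e2262 R) (e2094 R)

noncomputable def v2264 (R : VR) : ℕ :=
  Nat.lor (Nat.lor (v2262 R) (Bool.rec (motive := fun _ => ℕ) (nat_lit 0) (Nat.land (srM (VR.N R)
    (VR.S R) (VR.o1 R) (Nat.shiftRight (Nat.land (Nat.sub (VR.h1 R) (Nat.xor (VR.caT R) (v136 R)))
    (VR.h1 R)) (nat_lit 15))) (Nat.land (Nat.mul (Nat.shiftRight (Nat.land (Nat.add (v2067 R)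
    (VR.k1 R)) (VR.h1 R)) (nat_lit 15)) (VR.cr1 R)) (Nat.sub (VR.o2 R) (v2086 R)))) (v2093 R)))
    (Bool.rec (motive := fun _ => ℕ) (nat_lit 0) (Nat.land (srM (VR.N R) (VR.S R) (VR.o1 R)
    (Nat.shiftRight (Nat.land (Nat.sub (VR.h1 R) (Nat.xor (VR.caT R) (v2096 R))) (VR.h1 R))
    (nat_lit 15))) (Nat.land (Nat.mul (Nat.shiftRight (Nat.land (Nat.add (v2100 R) (VR.k1 R))
    (VR.h1 R)) (nat_lit 15)) (VR.cr1 R)) (Nat.sub (VR.o2 R) (v2119 R)))) (v2126 R))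

noncomputable def s2264 (R : VR) (j i : ℕ) : Bool :=
  K.bor (s2263 R j i) (s2127 R j i)

theorem e2264 (R : VR) : B2 R (v2264 R) (s2264 R) :=
  B.or (e2263 R) (e2127 R)

noncomputable def v2265 (R : VR) : ℕ :=
  Nat.lor (v2264 R) (Bool.rec (motive := fun _ => ℕ) (nat_lit 0) (Nat.land (srM (VR.N R) (VR.S R)
    (VR.o1 R) (Nat.shiftRight (Nat.land (Nat.sub (VR.h1 R) (Nat.xor (VR.caT R) (v2129 R))) (VR.h1
    R)) (nat_lit 15))) (Nat.land (Nat.mul (Nat.shiftRight (Nat.land (Nat.add (v2133 R) (VR.k1 R))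
    (VR.h1 R)) (nat_lit 15)) (VR.cr1 R)) (Nat.sub (VR.o2 R) (v2152 R)))) (v2159 R))

noncomputable def s2265 (R : VR) (j i : ℕ) : Bool :=
  K.bor (s2264 R j i) (s2160 R j i)

theorem e2265 (R : VR) : B2 R (v2265 R) (s2265 R) :=
  B.or (e2264 R) (e2160 R)

noncomputable def v2266 (R : VR) : ℕ :=
  Nat.lor (Nat.lor (v2264 R) (Bool.rec (motive := fun _ => ℕ) (nat_lit 0) (Nat.land (srM (VR.N R)
    (VR.S R) (VR.o1 R) (Nat.shiftRight (Nat.land (Nat.sub (VR.h1 R) (Nat.xor (VR.caT R) (v2129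
    R))) (VR.h1 R)) (nat_lit 15))) (Nat.land (Nat.mul (Nat.shiftRight (Nat.land (Nat.add (v2133 R)
    (VR.k1 R)) (VR.h1 R)) (nat_lit 15)) (VR.cr1 R)) (Nat.sub (VR.o2 R) (v2152 R)))) (v2159 R)))
    (Bool.rec (motive := fun _ => ℕ) (nat_lit 0) (Nat.land (srM (VR.N R) (VR.S R) (VR.o1 R)
    (Nat.shiftRight (Nat.land (Nat.sub (VR.h1 R) (Nat.xor (VR.caT R) (v2162 R))) (VR.h1 R))
    (nat_lit 15))) (Nat.land (Nat.mul (Nat.shiftRight (Nat.land (Nat.add (v2166 R) (VR.k1 R))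
    (VR.h1 R)) (nat_lit 15)) (VR.cr1 R)) (Nat.sub (VR.o2 R) (v2185 R)))) (v2192 R))

noncomputable def s2266 (R : VR) (j i : ℕ) : Bool :=
  K.bor (s2265 R j i) (s2193 R j i)

theorem e2266 (R : VR) : B2 R (v2266 R) (s2266 R) :=
  B.or (e2265 R) (e2193 R)

noncomputable def v2267 (R : VR) : ℕ :=
  Nat.lor (v2266 R) (Bool.rec (motive := fun _ => ℕ) (nat_lit 0) (Nat.land (srM (VR.N R) (VR.S R)
    (VR.o1 R) (Nat.shiftRight (Nat.land (Nat.sub (VR.h1 R) (Nat.xor (VR.caT R) (v2195 R))) (VR.h1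
    R)) (nat_lit 15))) (Nat.land (Nat.mul (Nat.shiftRight (Nat.land (Nat.add (v2199 R) (VR.k1 R))
    (VR.h1 R)) (nat_lit 15)) (VR.cr1 R)) (Nat.sub (VR.o2 R) (v2218 R)))) (v2225 R))

noncomputable def s2267 (R : VR) (j i : ℕ) : Bool :=
  K.bor (s2266 R j i) (s2226 R j i)

theorem e2267 (R : VR) : B2 R (v2267 R) (s2267 R) :=
  B.or (e2266 R) (e2226 R)

noncomputable def v2268 (R : VR) : ℕ :=
  Nat.lor (Nat.lor (v2266 R) (Bool.rec (motive := fun _ => ℕ) (nat_lit 0) (Nat.land (srM (VR.N R)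
    (VR.S R) (VR.o1 R) (Nat.shiftRight (Nat.land (Nat.sub (VR.h1 R) (Nat.xor (VR.caT R) (v2195
    R))) (VR.h1 R)) (nat_lit 15))) (Nat.land (Nat.mul (Nat.shiftRight (Nat.land (Nat.add (v2199 R)
    (VR.k1 R)) (VR.h1 R)) (nat_lit 15)) (VR.cr1 R)) (Nat.sub (VR.o2 R) (v2218 R)))) (v2225 R)))
    (Bool.rec (motive := fun _ => ℕ) (nat_lit 0) (Nat.land (srM (VR.N R) (VR.S R) (VR.o1 R)
    (Nat.shiftRight (Nat.land (Nat.sub (VR.h1 R) (Nat.xor (VR.caT R) (v2228 R))) (VR.h1 R))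
    (nat_lit 15))) (Nat.land (Nat.mul (Nat.shiftRight (Nat.land (Nat.add (v2232 R) (VR.k1 R))
    (VR.h1 R)) (nat_lit 15)) (VR.cr1 R)) (Nat.sub (VR.o2 R) (v2251 R)))) (v2258 R))

noncomputable def s2268 (R : VR) (j i : ℕ) : Bool :=
  K.bor (s2267 R j i) (s2259 R j i)

theorem e2268 (R : VR) : B2 R (v2268 R) (s2268 R) :=
  B.or (e2267 R) (e2259 R)

noncomputable def s2269 (R : VR) (j i : ℕ) : Bool :=
  K.lany (K.lrange (s510 R)) (fun (x87 : ℕ) => (K.band (Nat.beq (FC6.Stars.ca (VR.Z R) j) x87)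
    (K.band (K.bnot (Nat.beq (FC7.Cf.ad (VR.Cf R) (FC6.Stars.ca (VR.Z R) i) x87) (nat_lit 0)))
    (K.bnot (K.Cf_exa (VR.Cf R) (Nat.sub (FC7.Cf.ad (VR.Cf R) (FC6.Stars.ca (VR.Z R) i) x87)
    (nat_lit 1)) i j)))))

theorem e2269 (R : VR) : B2 R (v2268 R) (s2269 R) :=
  B.of_eq (e2268 R) (fun t _ => any10 (b510 R) (fun (x88 : ℕ) => (K.band (Nat.beq (FC6.Stars.ca
    (VR.Z R) (t / VR.S R)) x88) (K.band (K.bnot (Nat.beq (FC7.Cf.ad (VR.Cf R) (FC6.Stars.ca (VR.Z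
    R) (t % VR.S R)) x88) (nat_lit 0))) (K.bnot (K.Cf_exa (VR.Cf R) (Nat.sub (FC7.Cf.ad (VR.Cf R)
    (FC6.Stars.ca (VR.Z R) (t % VR.S R)) x88) (nat_lit 1)) (t % VR.S R) (t / VR.S R)))))))

noncomputable def v2270 (R : VR) : ℕ :=
  Nat.mul (v1936 R) (v23 R)

noncomputable def s2270 (R : VR) : ℕ :=
  Nat.mul (s1936 R) (s23 R)

theorem e2270 (R : VR) : (v2270 R) = s2270 R :=
  congrArg₂ Nat.mul (e1936 R) (e23 R)

theorem b2270 (R : VR) : s2270 R ≤ 0 :=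
  Nat.mul_le_mul (b1936 R) (le_of_eq (rfl : s23 R = (nat_lit 0)))

noncomputable def v2271 (R : VR) : ℕ :=
  Nat.mul (VR.o1 R) (Nat.mul (v1936 R) (v23 R))

noncomputable def s2271 (R : VR) (i : ℕ) : ℕ :=
  (s2270 R)

theorem e2271 (R : VR) : L (VR.S R) (v2271 R) (s2271 R) 0 :=
  L.scl (VR.o1e R) (e2270 R) (b2270 R) (by decide)

noncomputable def v2272 (R : VR) : ℕ :=
  Nat.add (Nat.mul (VR.o1 R) (Nat.mul (v1936 R) (v23 R))) (VR.caT R)

noncomputable def s2272 (R : VR) (i : ℕ) : ℕ :=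
  Nat.add (s2271 R i) (s127 R i)

theorem e2272 (R : VR) : L (VR.S R) (v2272 R) (s2272 R) 255 :=
  L.add (e2271 R) (e127 R) (by decide)

noncomputable def v2273 (R : VR) : ℕ :=
  gmk (VR.h2 R) (VR.J R) (Nat.mul (Nat.add (Nat.mul (VR.o1 R) (Nat.mul (v1936 R) (v23 R))) (VR.caT
    R)) (VR.cr1 R))

noncomputable def v2274 (R : VR) : ℕ :=
  Nat.mod (Nat.land (gmk (VR.h2 R) (VR.J R) (Nat.mul (Nat.add (Nat.mul (VR.o1 R) (Nat.mul (v1936
    R) (v23 R))) (VR.caT R)) (VR.cr1 R))) (v1941 R)) (VR.m1 R)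

noncomputable def s2274 (R : VR) (i : ℕ) : ℕ :=
  tx (VR.adT R) (s2272 R i)

theorem e2274 (R : VR) : L (VR.S R) (v2274 R) (s2274 R) 255 :=
  L.gat (e2272 R) (VR.ad_is R) (VR.ad_lt R) (VR.ad_le R)

noncomputable def v2275 (R : VR) : ℕ :=
  Nat.shiftRight (Nat.land (Nat.sub (VR.h1 R) (v2274 R)) (VR.h1 R)) (nat_lit 15)

noncomputable def s2275 (R : VR) (i : ℕ) : Bool :=
  Nat.beq (s2274 R i) (nat_lit 0)

theorem e2275 (R : VR) : B (VR.S R) (v2275 R) (s2275 R) :=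
  L.ez (VR.h1e R) (e2274 R)

noncomputable def v2276 (R : VR) : ℕ :=
  Nat.shiftRight (Nat.land (Nat.add (v2274 R) (VR.k1 R)) (VR.h1 R)) (nat_lit 15)

noncomputable def s2276 (R : VR) (i : ℕ) : Bool :=
  K.bnot (Nat.beq (s2274 R i) (nat_lit 0))

theorem e2276 (R : VR) : B (VR.S R) (v2276 R) (s2276 R) :=
  L.nz (VR.h1e R) (VR.k1e R) (e2274 R)

noncomputable def v2277 (R : VR) : ℕ :=
  Nat.mul (v2276 R) (VR.cr1 R)

noncomputable def s2277 (R : VR) (j i : ℕ) : Bool :=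
  (s2276 R i)

theorem e2277 (R : VR) : B2 R (v2277 R) (s2277 R) :=
  B2.rep (e2276 R)

noncomputable def v2278 (R : VR) : ℕ :=
  srM (VR.N R) (VR.S R) (VR.o1 R) (v2276 R)

noncomputable def s2278 (R : VR) (j i : ℕ) : Bool :=
  (s2276 R j)

theorem e2278 (R : VR) : B2 R (v2278 R) (s2278 R) :=
  B2.row (e2276 R)

noncomputable def v2279 (R : VR) : ℕ :=
  Nat.land (Nat.mul (v2276 R) (VR.cr1 R)) (srM (VR.N R) (VR.S R) (VR.o1 R) (v2276 R))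

noncomputable def s2279 (R : VR) (j i : ℕ) : Bool :=
  K.band (s2277 R j i) (s2278 R j i)

theorem e2279 (R : VR) : B2 R (v2279 R) (s2279 R) :=
  B.and (e2277 R) (e2278 R)

noncomputable def v2280 (R : VR) : ℕ :=
  Nat.sub (VR.o2 R) (v1930 R)

noncomputable def s2280 (R : VR) (j i : ℕ) : Bool :=
  K.bnot (s1930 R j i)

theorem e2280 (R : VR) : B2 R (v2280 R) (s2280 R) :=
  B.not (VR.o2e R) (e1930 R)

noncomputable def v2281 (R : VR) : ℕ :=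
  Nat.land (Nat.land (Nat.mul (v2276 R) (VR.cr1 R)) (srM (VR.N R) (VR.S R) (VR.o1 R) (v2276 R)))
    (v2280 R)

noncomputable def s2281 (R : VR) (j i : ℕ) : Bool :=
  K.band (s2279 R j i) (s2280 R j i)

theorem e2281 (R : VR) : B2 R (v2281 R) (s2281 R) :=
  B.and (e2279 R) (e2280 R)

noncomputable def v2282 (R : VR) : ℕ :=
  Vc.ssub (VR.h1 R) (v2274 R) (v267 R)

noncomputable def s2282 (R : VR) (i : ℕ) : ℕ :=
  Nat.sub (s2274 R i) (s267 R i)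

theorem e2282 (R : VR) : L (VR.S R) (v2282 R) (s2282 R) 255 :=
  L.sub (VR.h1e R) (e2274 R) (e267 R)

noncomputable def v2283 (R : VR) : ℕ :=
  gmk (VR.h2 R) (VR.J R) (Nat.mul (v2282 R) (VR.cr1 R))

noncomputable def v2284 (R : VR) : ℕ :=
  Nat.mod (Nat.land (v2283 R) (v164 R)) (VR.m1 R)

noncomputable def s2284 (R : VR) (i : ℕ) : ℕ :=
  tx (VR.rhoT R) (s2282 R i)

theorem e2284 (R : VR) : L (VR.S R) (v2284 R) (s2284 R) 255 :=
  L.gat (e2282 R) (VR.rho_is R) (VR.rho_lt R) (VR.rho_le R)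

noncomputable def v2285 (R : VR) : ℕ :=
  Nat.mul (v2284 R) (VR.cr1 R)

noncomputable def s2285 (R : VR) (j i : ℕ) : ℕ :=
  (s2284 R i)

theorem e2285 (R : VR) : L2 R (v2285 R) (s2285 R) 255 :=
  L2.rep (e2284 R)

noncomputable def v2286 (R : VR) : ℕ :=
  srM (VR.N R) (VR.S R) (VR.o1 R) (v2282 R)

noncomputable def s2286 (R : VR) (j i : ℕ) : ℕ :=
  (s2282 R j)

theorem e2286 (R : VR) : L2 R (v2286 R) (s2286 R) 255 :=
  L2.row (e2282 R)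

noncomputable def v2287 (R : VR) : ℕ :=
  Nat.shiftRight (Nat.land (Nat.sub (VR.h2 R) (Nat.xor (Nat.mul (v2284 R) (VR.cr1 R)) (v2286 R)))
    (VR.h2 R)) (nat_lit 15)

noncomputable def s2287 (R : VR) (j i : ℕ) : Bool :=
  Nat.beq (s2285 R j i) (s2286 R j i)

theorem e2287 (R : VR) : B2 R (v2287 R) (s2287 R) :=
  L.beq (VR.h2e R) (e2285 R) (e2286 R)

noncomputable def v2288 (R : VR) : ℕ :=
  Nat.sub (VR.o2 R) (Nat.shiftRight (Nat.land (Nat.sub (VR.h2 R) (Nat.xor (Nat.mul (v2284 R)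
    (VR.cr1 R)) (v2286 R))) (VR.h2 R)) (nat_lit 15))

noncomputable def s2288 (R : VR) (j i : ℕ) : Bool :=
  K.bnot (s2287 R j i)

theorem e2288 (R : VR) : B2 R (v2288 R) (s2288 R) :=
  B.not (VR.o2e R) (e2287 R)

noncomputable def v2289 (R : VR) : ℕ :=
  srM (VR.N R) (VR.S R) (VR.o1 R) (v2284 R)

noncomputable def s2289 (R : VR) (j i : ℕ) : ℕ :=
  (s2284 R j)

theorem e2289 (R : VR) : L2 R (v2289 R) (s2289 R) 255 :=
  L2.row (e2284 R)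

noncomputable def v2290 (R : VR) : ℕ :=
  Nat.mul (v2282 R) (VR.cr1 R)

noncomputable def s2290 (R : VR) (j i : ℕ) : ℕ :=
  (s2282 R i)

theorem e2290 (R : VR) : L2 R (v2290 R) (s2290 R) 255 :=
  L2.rep (e2282 R)

noncomputable def v2291 (R : VR) : ℕ :=
  Nat.shiftRight (Nat.land (Nat.sub (VR.h2 R) (Nat.xor (srM (VR.N R) (VR.S R) (VR.o1 R) (v2284 R))
    (v2290 R))) (VR.h2 R)) (nat_lit 15)

noncomputable def s2291 (R : VR) (j i : ℕ) : Bool :=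
  Nat.beq (s2289 R j i) (s2290 R j i)

theorem e2291 (R : VR) : B2 R (v2291 R) (s2291 R) :=
  L.beq (VR.h2e R) (e2289 R) (e2290 R)

noncomputable def v2292 (R : VR) : ℕ :=
  Nat.sub (VR.o2 R) (Nat.shiftRight (Nat.land (Nat.sub (VR.h2 R) (Nat.xor (srM (VR.N R) (VR.S R)
    (VR.o1 R) (v2284 R)) (v2290 R))) (VR.h2 R)) (nat_lit 15))

noncomputable def s2292 (R : VR) (j i : ℕ) : Bool :=
  K.bnot (s2291 R j i)

theorem e2292 (R : VR) : B2 R (v2292 R) (s2292 R) :=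
  B.not (VR.o2e R) (e2291 R)

noncomputable def v2293 (R : VR) : ℕ :=
  Nat.land (Nat.sub (VR.o2 R) (Nat.shiftRight (Nat.land (Nat.sub (VR.h2 R) (Nat.xor (Nat.mul
    (v2284 R) (VR.cr1 R)) (v2286 R))) (VR.h2 R)) (nat_lit 15))) (Nat.sub (VR.o2 R) (Nat.shiftRight
    (Nat.land (Nat.sub (VR.h2 R) (Nat.xor (srM (VR.N R) (VR.S R) (VR.o1 R) (v2284 R)) (v2290 R)))
    (VR.h2 R)) (nat_lit 15)))

noncomputable def s2293 (R : VR) (j i : ℕ) : Bool :=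
  K.band (s2288 R j i) (s2292 R j i)

theorem e2293 (R : VR) : B2 R (v2293 R) (s2293 R) :=
  B.and (e2288 R) (e2292 R)

noncomputable def s2294 (R : VR) (j i : ℕ) : Bool :=
  K.Cf_nco (VR.Cf R) (s2282 R i) (s2282 R j)

theorem e2294 (R : VR) : B2 R (v2293 R) (s2294 R) :=
  e2293 R

noncomputable def v2295 (R : VR) : ℕ :=
  Nat.land (Nat.land (Nat.land (Nat.mul (v2276 R) (VR.cr1 R)) (srM (VR.N R) (VR.S R) (VR.o1 R)
    (v2276 R))) (v2280 R)) (Nat.land (Nat.sub (VR.o2 R) (Nat.shiftRight (Nat.land (Nat.sub (VR.h2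
    R) (Nat.xor (Nat.mul (v2284 R) (VR.cr1 R)) (v2286 R))) (VR.h2 R)) (nat_lit 15))) (Nat.sub
    (VR.o2 R) (Nat.shiftRight (Nat.land (Nat.sub (VR.h2 R) (Nat.xor (srM (VR.N R) (VR.S R) (VR.o1
    R) (v2284 R)) (v2290 R))) (VR.h2 R)) (nat_lit 15))))

noncomputable def s2295 (R : VR) (j i : ℕ) : Bool :=
  K.band (s2281 R j i) (s2294 R j i)

theorem e2295 (R : VR) : B2 R (v2295 R) (s2295 R) :=
  B.and (e2281 R) (e2294 R)

noncomputable def v2296 (R : VR) : ℕ :=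
  Nat.mod (Nat.land (v2283 R) (v146 R)) (VR.m1 R)

noncomputable def s2296 (R : VR) (i : ℕ) : ℕ :=
  tx (VR.piT R) (s2282 R i)

theorem e2296 (R : VR) : L (VR.S R) (v2296 R) (s2296 R) 255 :=
  L.gat (e2282 R) (VR.pi_is R) (VR.pi_lt R) (VR.pi_le R)

noncomputable def v2297 (R : VR) : ℕ :=
  Nat.shiftRight (Nat.land (Nat.sub (VR.h1 R) (Nat.xor (VR.iota R) (v2296 R))) (VR.h1 R)) (nat_lit
    15)

noncomputable def s2297 (R : VR) (i : ℕ) : Bool :=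
  Nat.beq (s0 R i) (s2296 R i)

theorem e2297 (R : VR) : B (VR.S R) (v2297 R) (s2297 R) :=
  L.beq (VR.h1e R) (e0 R) (e2296 R)

noncomputable def v2298 (R : VR) : ℕ :=
  Nat.mul (v2297 R) (VR.cr1 R)

noncomputable def s2298 (R : VR) (j i : ℕ) : Bool :=
  (s2297 R i)

theorem e2298 (R : VR) : B2 R (v2298 R) (s2298 R) :=
  B2.rep (e2297 R)

noncomputable def v2299 (R : VR) : ℕ :=
  srM (VR.N R) (VR.S R) (VR.o1 R) (v2297 R)

noncomputable def s2299 (R : VR) (j i : ℕ) : Bool :=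
  (s2297 R j)

theorem e2299 (R : VR) : B2 R (v2299 R) (s2299 R) :=
  B2.row (e2297 R)

noncomputable def v2300 (R : VR) : ℕ :=
  Nat.land (Nat.mul (v2297 R) (VR.cr1 R)) (srM (VR.N R) (VR.S R) (VR.o1 R) (v2297 R))

noncomputable def s2300 (R : VR) (j i : ℕ) : Bool :=
  K.band (s2298 R j i) (s2299 R j i)

theorem e2300 (R : VR) : B2 R (v2300 R) (s2300 R) :=
  B.and (e2298 R) (e2299 R)

noncomputable def v2301 (R : VR) : ℕ :=
  gmk (VR.h2 R) (VR.J R) (Nat.mul (v2284 R) (VR.cr1 R))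

noncomputable def v2302 (R : VR) : ℕ :=
  Nat.mod (Nat.land (v2301 R) (v164 R)) (VR.m1 R)

noncomputable def s2302 (R : VR) (i : ℕ) : ℕ :=
  tx (VR.rhoT R) (s2284 R i)

theorem e2302 (R : VR) : L (VR.S R) (v2302 R) (s2302 R) 255 :=
  L.gat (e2284 R) (VR.rho_is R) (VR.rho_lt R) (VR.rho_le R)

noncomputable def v2303 (R : VR) : ℕ :=
  Nat.mul (v2302 R) (VR.cr1 R)

noncomputable def s2303 (R : VR) (j i : ℕ) : ℕ :=
  (s2302 R i)

theorem e2303 (R : VR) : L2 R (v2303 R) (s2303 R) 255 :=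
  L2.rep (e2302 R)

noncomputable def v2304 (R : VR) : ℕ :=
  Nat.shiftRight (Nat.land (Nat.sub (VR.h2 R) (Nat.xor (Nat.mul (v2302 R) (VR.cr1 R)) (v2286 R)))
    (VR.h2 R)) (nat_lit 15)

noncomputable def s2304 (R : VR) (j i : ℕ) : Bool :=
  Nat.beq (s2303 R j i) (s2286 R j i)

theorem e2304 (R : VR) : B2 R (v2304 R) (s2304 R) :=
  L.beq (VR.h2e R) (e2303 R) (e2286 R)

noncomputable def v2305 (R : VR) : ℕ :=
  Nat.shiftRight (Nat.land (Nat.sub (VR.h1 R) (Nat.xor (VR.rhoT R) (v2296 R))) (VR.h1 R)) (nat_lit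
    15)

noncomputable def s2305 (R : VR) (i : ℕ) : Bool :=
  Nat.beq (s158 R i) (s2296 R i)

theorem e2305 (R : VR) : B (VR.S R) (v2305 R) (s2305 R) :=
  L.beq (VR.h1e R) (e158 R) (e2296 R)

noncomputable def v2306 (R : VR) : ℕ :=
  gmk (VR.h2 R) (VR.J R) (Nat.mul (v2296 R) (VR.cr1 R))

noncomputable def v2307 (R : VR) : ℕ :=
  Nat.mod (Nat.land (gmk (VR.h2 R) (VR.J R) (Nat.mul (v2296 R) (VR.cr1 R))) (v164 R)) (VR.m1 R)

noncomputable def s2307 (R : VR) (i : ℕ) : ℕ :=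
  tx (VR.rhoT R) (s2296 R i)

theorem e2307 (R : VR) : L (VR.S R) (v2307 R) (s2307 R) 255 :=
  L.gat (e2296 R) (VR.rho_is R) (VR.rho_lt R) (VR.rho_le R)

noncomputable def v2308 (R : VR) : ℕ :=
  Nat.shiftRight (Nat.land (Nat.sub (VR.h1 R) (Nat.xor (VR.iota R) (v2307 R))) (VR.h1 R)) (nat_lit
    15)

noncomputable def s2308 (R : VR) (i : ℕ) : Bool :=
  Nat.beq (s0 R i) (s2307 R i)

theorem e2308 (R : VR) : B (VR.S R) (v2308 R) (s2308 R) :=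
  L.beq (VR.h1e R) (e0 R) (e2307 R)

noncomputable def v2309 (R : VR) : ℕ :=
  Nat.mul (v2305 R) (VR.cr1 R)

noncomputable def s2309 (R : VR) (j i : ℕ) : Bool :=
  (s2305 R i)

theorem e2309 (R : VR) : B2 R (v2309 R) (s2309 R) :=
  B2.rep (e2305 R)

noncomputable def v2310 (R : VR) : ℕ :=
  srM (VR.N R) (VR.S R) (VR.o1 R) (v2308 R)

noncomputable def s2310 (R : VR) (j i : ℕ) : Bool :=
  (s2308 R j)

theorem e2310 (R : VR) : B2 R (v2310 R) (s2310 R) :=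
  B2.row (e2308 R)

noncomputable def v2311 (R : VR) : ℕ :=
  Nat.land (Nat.mul (v2305 R) (VR.cr1 R)) (srM (VR.N R) (VR.S R) (VR.o1 R) (v2308 R))

noncomputable def s2311 (R : VR) (j i : ℕ) : Bool :=
  K.band (s2309 R j i) (s2310 R j i)

theorem e2311 (R : VR) : B2 R (v2311 R) (s2311 R) :=
  B.and (e2309 R) (e2310 R)

noncomputable def s2312 (R : VR) (i : ℕ) : Bool :=
  tf (VR.BGXT R) i

theorem e2312 (R : VR) : B (VR.S R) (VR.BGXT R) (s2312 R) :=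
  VR.BGX_is R

noncomputable def v2313 (R : VR) : ℕ :=
  srM (VR.N R) (VR.S R) (VR.o1 R) (VR.BGXT R)

noncomputable def v2314 (R : VR) : ℕ :=
  Nat.mod (Nat.land (v2301 R) (v2313 R)) (VR.m1 R)

noncomputable def s2314 (R : VR) (i : ℕ) : Bool :=
  tf (VR.BGXT R) (s2284 R i)

theorem e2314 (R : VR) : B (VR.S R) (v2314 R) (s2314 R) :=
  B.gat (e2284 R) (VR.BGX_is R) (VR.BGX_lt R)

noncomputable def v2315 (R : VR) : ℕ :=
  Nat.sub (VR.o1 R) (Nat.mod (Nat.land (v2301 R) (v2313 R)) (VR.m1 R))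

noncomputable def s2315 (R : VR) (i : ℕ) : Bool :=
  K.bnot (s2314 R i)

theorem e2315 (R : VR) : B (VR.S R) (v2315 R) (s2315 R) :=
  B.not (VR.o1e R) (e2314 R)

noncomputable def v2316 (R : VR) : ℕ :=
  Nat.land (VR.rlT R) (Nat.sub (VR.o1 R) (Nat.mod (Nat.land (v2301 R) (v2313 R)) (VR.m1 R)))

noncomputable def s2316 (R : VR) (i : ℕ) : Bool :=
  K.band (s435 R i) (s2315 R i)

theorem e2316 (R : VR) : B (VR.S R) (v2316 R) (s2316 R) :=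
  B.and (e435 R) (e2315 R)

noncomputable def v2317 (R : VR) : ℕ :=
  Nat.mod (Nat.land (v159 R) (v164 R)) (VR.m1 R)

noncomputable def s2317 (R : VR) (i : ℕ) : ℕ :=
  tx (VR.rhoT R) (s158 R i)

theorem e2317 (R : VR) : L (VR.S R) (v2317 R) (s2317 R) 255 :=
  L.gat (e158 R) (VR.rho_is R) (VR.rho_lt R) (VR.rho_le R)

noncomputable def v2318 (R : VR) : ℕ :=
  Nat.shiftRight (Nat.land (Nat.sub (VR.h1 R) (Nat.xor (v2317 R) (v2296 R))) (VR.h1 R)) (nat_lit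
    15)

noncomputable def s2318 (R : VR) (i : ℕ) : Bool :=
  Nat.beq (s2317 R i) (s2296 R i)

theorem e2318 (R : VR) : B (VR.S R) (v2318 R) (s2318 R) :=
  L.beq (VR.h1e R) (e2317 R) (e2296 R)

noncomputable def v2319 (R : VR) : ℕ :=
  Nat.land (Nat.land (VR.rlT R) (Nat.sub (VR.o1 R) (Nat.mod (Nat.land (v2301 R) (v2313 R)) (VR.m1
    R)))) (Nat.shiftRight (Nat.land (Nat.sub (VR.h1 R) (Nat.xor (v2317 R) (v2296 R))) (VR.h1 R))
    (nat_lit 15))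

noncomputable def s2319 (R : VR) (i : ℕ) : Bool :=
  K.band (s2316 R i) (s2318 R i)

theorem e2319 (R : VR) : B (VR.S R) (v2319 R) (s2319 R) :=
  B.and (e2316 R) (e2318 R)

noncomputable def v2320 (R : VR) : ℕ :=
  gmk (VR.h2 R) (VR.J R) (Nat.mul (v2307 R) (VR.cr1 R))

noncomputable def v2321 (R : VR) : ℕ :=
  Nat.mod (Nat.land (gmk (VR.h2 R) (VR.J R) (Nat.mul (v2307 R) (VR.cr1 R))) (v164 R)) (VR.m1 R)

noncomputable def s2321 (R : VR) (i : ℕ) : ℕ :=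
  tx (VR.rhoT R) (s2307 R i)

theorem e2321 (R : VR) : L (VR.S R) (v2321 R) (s2321 R) 255 :=
  L.gat (e2307 R) (VR.rho_is R) (VR.rho_lt R) (VR.rho_le R)

noncomputable def v2322 (R : VR) : ℕ :=
  Nat.shiftRight (Nat.land (Nat.sub (VR.h1 R) (Nat.xor (VR.iota R) (Nat.mod (Nat.land (gmk (VR.h2
    R) (VR.J R) (Nat.mul (v2307 R) (VR.cr1 R))) (v164 R)) (VR.m1 R)))) (VR.h1 R)) (nat_lit 15)

noncomputable def s2322 (R : VR) (i : ℕ) : Bool :=
  Nat.beq (s0 R i) (s2321 R i)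

theorem e2322 (R : VR) : B (VR.S R) (v2322 R) (s2322 R) :=
  L.beq (VR.h1e R) (e0 R) (e2321 R)

noncomputable def v2323 (R : VR) : ℕ :=
  Nat.mul (v2319 R) (VR.cr1 R)

noncomputable def s2323 (R : VR) (j i : ℕ) : Bool :=
  (s2319 R i)

theorem e2323 (R : VR) : B2 R (v2323 R) (s2323 R) :=
  B2.rep (e2319 R)

noncomputable def v2324 (R : VR) : ℕ :=
  srM (VR.N R) (VR.S R) (VR.o1 R) (v2322 R)

noncomputable def s2324 (R : VR) (j i : ℕ) : Bool :=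
  (s2322 R j)

theorem e2324 (R : VR) : B2 R (v2324 R) (s2324 R) :=
  B2.row (e2322 R)

noncomputable def v2325 (R : VR) : ℕ :=
  Nat.land (Nat.mul (v2319 R) (VR.cr1 R)) (srM (VR.N R) (VR.S R) (VR.o1 R) (v2322 R))

noncomputable def s2325 (R : VR) (j i : ℕ) : Bool :=
  K.band (s2323 R j i) (s2324 R j i)

theorem e2325 (R : VR) : B2 R (v2325 R) (s2325 R) :=
  B.and (e2323 R) (e2324 R)

noncomputable def v2326 (R : VR) : ℕ :=
  Nat.lor (Nat.land (Nat.mul (v2305 R) (VR.cr1 R)) (srM (VR.N R) (VR.S R) (VR.o1 R) (v2308 R)))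
    (Nat.land (Nat.mul (v2319 R) (VR.cr1 R)) (srM (VR.N R) (VR.S R) (VR.o1 R) (v2322 R)))

noncomputable def s2326 (R : VR) (j i : ℕ) : Bool :=
  K.bor (s2311 R j i) (s2325 R j i)

theorem e2326 (R : VR) : B2 R (v2326 R) (s2326 R) :=
  B.or (e2311 R) (e2325 R)

noncomputable def v2327 (R : VR) : ℕ :=
  Nat.land (Nat.shiftRight (Nat.land (Nat.sub (VR.h2 R) (Nat.xor (Nat.mul (v2302 R) (VR.cr1 R))
    (v2286 R))) (VR.h2 R)) (nat_lit 15)) (Nat.lor (Nat.land (Nat.mul (v2305 R) (VR.cr1 R)) (srM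
    (VR.N R) (VR.S R) (VR.o1 R) (v2308 R))) (Nat.land (Nat.mul (v2319 R) (VR.cr1 R)) (srM (VR.N R)
    (VR.S R) (VR.o1 R) (v2322 R))))

noncomputable def s2327 (R : VR) (j i : ℕ) : Bool :=
  K.band (s2304 R j i) (s2326 R j i)

theorem e2327 (R : VR) : B2 R (v2327 R) (s2327 R) :=
  B.and (e2304 R) (e2326 R)

noncomputable def s2328 (R : VR) (j i : ℕ) : Bool :=
  K.Cf_ex22 (VR.Cf R) (tf (VR.BGXT R)) (s2282 R i) (s2282 R j) i j

theorem e2328 (R : VR) : B2 R (v2327 R) (s2328 R) :=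
  e2327 R

noncomputable def v2329 (R : VR) : ℕ :=
  Nat.lor (Nat.land (Nat.mul (v2297 R) (VR.cr1 R)) (srM (VR.N R) (VR.S R) (VR.o1 R) (v2297 R)))
    (Nat.land (Nat.shiftRight (Nat.land (Nat.sub (VR.h2 R) (Nat.xor (Nat.mul (v2302 R) (VR.cr1 R))
    (v2286 R))) (VR.h2 R)) (nat_lit 15)) (Nat.lor (Nat.land (Nat.mul (v2305 R) (VR.cr1 R)) (srM
    (VR.N R) (VR.S R) (VR.o1 R) (v2308 R))) (Nat.land (Nat.mul (v2319 R) (VR.cr1 R)) (srM (VR.N R)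
    (VR.S R) (VR.o1 R) (v2322 R)))))

noncomputable def s2329 (R : VR) (j i : ℕ) : Bool :=
  K.bor (s2300 R j i) (s2328 R j i)

theorem e2329 (R : VR) : B2 R (v2329 R) (s2329 R) :=
  B.or (e2300 R) (e2328 R)

noncomputable def v2330 (R : VR) : ℕ :=
  srM (VR.N R) (VR.S R) (VR.o1 R) (v2302 R)

noncomputable def s2330 (R : VR) (j i : ℕ) : ℕ :=
  (s2302 R j)

theorem e2330 (R : VR) : L2 R (v2330 R) (s2330 R) 255 :=
  L2.row (e2302 R)

noncomputable def v2331 (R : VR) : ℕ :=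
  Nat.shiftRight (Nat.land (Nat.sub (VR.h2 R) (Nat.xor (srM (VR.N R) (VR.S R) (VR.o1 R) (v2302 R))
    (v2290 R))) (VR.h2 R)) (nat_lit 15)

noncomputable def s2331 (R : VR) (j i : ℕ) : Bool :=
  Nat.beq (s2330 R j i) (s2290 R j i)

theorem e2331 (R : VR) : B2 R (v2331 R) (s2331 R) :=
  L.beq (VR.h2e R) (e2330 R) (e2290 R)

noncomputable def v2332 (R : VR) : ℕ :=
  srM (VR.N R) (VR.S R) (VR.o1 R) (v2305 R)

noncomputable def s2332 (R : VR) (j i : ℕ) : Bool :=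
  (s2305 R j)

theorem e2332 (R : VR) : B2 R (v2332 R) (s2332 R) :=
  B2.row (e2305 R)

noncomputable def v2333 (R : VR) : ℕ :=
  Nat.mul (v2308 R) (VR.cr1 R)

noncomputable def s2333 (R : VR) (j i : ℕ) : Bool :=
  (s2308 R i)

theorem e2333 (R : VR) : B2 R (v2333 R) (s2333 R) :=
  B2.rep (e2308 R)

noncomputable def v2334 (R : VR) : ℕ :=
  Nat.land (srM (VR.N R) (VR.S R) (VR.o1 R) (v2305 R)) (Nat.mul (v2308 R) (VR.cr1 R))

noncomputable def s2334 (R : VR) (j i : ℕ) : Bool :=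
  K.band (s2332 R j i) (s2333 R j i)

theorem e2334 (R : VR) : B2 R (v2334 R) (s2334 R) :=
  B.and (e2332 R) (e2333 R)

noncomputable def v2335 (R : VR) : ℕ :=
  srM (VR.N R) (VR.S R) (VR.o1 R) (v2319 R)

noncomputable def s2335 (R : VR) (j i : ℕ) : Bool :=
  (s2319 R j)

theorem e2335 (R : VR) : B2 R (v2335 R) (s2335 R) :=
  B2.row (e2319 R)

noncomputable def v2336 (R : VR) : ℕ :=
  Nat.mul (v2322 R) (VR.cr1 R)

noncomputable def s2336 (R : VR) (j i : ℕ) : Bool :=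
  (s2322 R i)

theorem e2336 (R : VR) : B2 R (v2336 R) (s2336 R) :=
  B2.rep (e2322 R)

noncomputable def v2337 (R : VR) : ℕ :=
  Nat.land (srM (VR.N R) (VR.S R) (VR.o1 R) (v2319 R)) (Nat.mul (v2322 R) (VR.cr1 R))

noncomputable def s2337 (R : VR) (j i : ℕ) : Bool :=
  K.band (s2335 R j i) (s2336 R j i)

theorem e2337 (R : VR) : B2 R (v2337 R) (s2337 R) :=
  B.and (e2335 R) (e2336 R)

noncomputable def v2338 (R : VR) : ℕ :=
  Nat.lor (Nat.land (srM (VR.N R) (VR.S R) (VR.o1 R) (v2305 R)) (Nat.mul (v2308 R) (VR.cr1 R)))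
    (Nat.land (srM (VR.N R) (VR.S R) (VR.o1 R) (v2319 R)) (Nat.mul (v2322 R) (VR.cr1 R)))

noncomputable def s2338 (R : VR) (j i : ℕ) : Bool :=
  K.bor (s2334 R j i) (s2337 R j i)

theorem e2338 (R : VR) : B2 R (v2338 R) (s2338 R) :=
  B.or (e2334 R) (e2337 R)

noncomputable def v2339 (R : VR) : ℕ :=
  Nat.land (Nat.shiftRight (Nat.land (Nat.sub (VR.h2 R) (Nat.xor (srM (VR.N R) (VR.S R) (VR.o1 R)
    (v2302 R)) (v2290 R))) (VR.h2 R)) (nat_lit 15)) (Nat.lor (Nat.land (srM (VR.N R) (VR.S R)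
    (VR.o1 R) (v2305 R)) (Nat.mul (v2308 R) (VR.cr1 R))) (Nat.land (srM (VR.N R) (VR.S R) (VR.o1
    R) (v2319 R)) (Nat.mul (v2322 R) (VR.cr1 R))))

noncomputable def s2339 (R : VR) (j i : ℕ) : Bool :=
  K.band (s2331 R j i) (s2338 R j i)

theorem e2339 (R : VR) : B2 R (v2339 R) (s2339 R) :=
  B.and (e2331 R) (e2338 R)

noncomputable def s2340 (R : VR) (j i : ℕ) : Bool :=
  K.Cf_ex22 (VR.Cf R) (tf (VR.BGXT R)) (s2282 R j) (s2282 R i) j i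

theorem e2340 (R : VR) : B2 R (v2339 R) (s2340 R) :=
  e2339 R

noncomputable def v2341 (R : VR) : ℕ :=
  Nat.lor (v2329 R) (Nat.land (Nat.shiftRight (Nat.land (Nat.sub (VR.h2 R) (Nat.xor (srM (VR.N R)
    (VR.S R) (VR.o1 R) (v2302 R)) (v2290 R))) (VR.h2 R)) (nat_lit 15)) (Nat.lor (Nat.land (srM
    (VR.N R) (VR.S R) (VR.o1 R) (v2305 R)) (Nat.mul (v2308 R) (VR.cr1 R))) (Nat.land (srM (VR.N R)
    (VR.S R) (VR.o1 R) (v2319 R)) (Nat.mul (v2322 R) (VR.cr1 R)))))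

noncomputable def s2341 (R : VR) (j i : ℕ) : Bool :=
  K.bor (s2329 R j i) (s2340 R j i)

theorem e2341 (R : VR) : B2 R (v2341 R) (s2341 R) :=
  B.or (e2329 R) (e2340 R)

noncomputable def s2342 (R : VR) (j i : ℕ) : Bool :=
  K.Cf_exc (VR.Cf R) (tf (VR.BGXT R)) (s2282 R i) (s2282 R j) i j

theorem e2342 (R : VR) : B2 R (v2341 R) (s2342 R) :=
  e2341 R

noncomputable def v2343 (R : VR) : ℕ :=
  Nat.sub (VR.o2 R) (Nat.lor (v2329 R) (Nat.land (Nat.shiftRight (Nat.land (Nat.sub (VR.h2 R)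
    (Nat.xor (srM (VR.N R) (VR.S R) (VR.o1 R) (v2302 R)) (v2290 R))) (VR.h2 R)) (nat_lit 15))
    (Nat.lor (Nat.land (srM (VR.N R) (VR.S R) (VR.o1 R) (v2305 R)) (Nat.mul (v2308 R) (VR.cr1 R)))
    (Nat.land (srM (VR.N R) (VR.S R) (VR.o1 R) (v2319 R)) (Nat.mul (v2322 R) (VR.cr1 R))))))

noncomputable def s2343 (R : VR) (j i : ℕ) : Bool :=
  K.bnot (s2342 R j i)

theorem e2343 (R : VR) : B2 R (v2343 R) (s2343 R) :=
  B.not (VR.o2e R) (e2342 R)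

noncomputable def v2344 (R : VR) : ℕ :=
  Nat.land (v2295 R) (Nat.sub (VR.o2 R) (Nat.lor (v2329 R) (Nat.land (Nat.shiftRight (Nat.land
    (Nat.sub (VR.h2 R) (Nat.xor (srM (VR.N R) (VR.S R) (VR.o1 R) (v2302 R)) (v2290 R))) (VR.h2 R))
    (nat_lit 15)) (Nat.lor (Nat.land (srM (VR.N R) (VR.S R) (VR.o1 R) (v2305 R)) (Nat.mul (v2308
    R) (VR.cr1 R))) (Nat.land (srM (VR.N R) (VR.S R) (VR.o1 R) (v2319 R)) (Nat.mul (v2322 R)
    (VR.cr1 R)))))))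

noncomputable def s2344 (R : VR) (j i : ℕ) : Bool :=
  K.band (s2295 R j i) (s2343 R j i)

theorem e2344 (R : VR) : B2 R (v2344 R) (s2344 R) :=
  B.and (e2295 R) (e2343 R)

noncomputable def v2345 (R : VR) : ℕ :=
  Bool.rec (motive := fun _ => ℕ) (nat_lit 0) (Nat.land (v2295 R) (Nat.sub (VR.o2 R) (Nat.lor
    (v2329 R) (Nat.land (Nat.shiftRight (Nat.land (Nat.sub (VR.h2 R) (Nat.xor (srM (VR.N R) (VR.S
    R) (VR.o1 R) (v2302 R)) (v2290 R))) (VR.h2 R)) (nat_lit 15)) (Nat.lor (Nat.land (srM (VR.N R)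
    (VR.S R) (VR.o1 R) (v2305 R)) (Nat.mul (v2308 R) (VR.cr1 R))) (Nat.land (srM (VR.N R) (VR.S R)
    (VR.o1 R) (v2319 R)) (Nat.mul (v2322 R) (VR.cr1 R)))))))) (v1969 R)

noncomputable def s2345 (R : VR) (j i : ℕ) : Bool :=
  K.band (s1969 R) (s2344 R j i)

theorem e2345 (R : VR) : B2 R (v2345 R) (s2345 R) :=
  B.gand (e1969 R) (e2344 R)

noncomputable def v2346 (R : VR) : ℕ :=
  Nat.mul (v1936 R) (v226 R)

noncomputable def s2346 (R : VR) : ℕ :=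
  Nat.mul (s1936 R) (s226 R)

theorem e2346 (R : VR) : (v2346 R) = s2346 R :=
  congrArg₂ Nat.mul (e1936 R) (e226 R)

theorem b2346 (R : VR) : s2346 R ≤ 10 :=
  Nat.mul_le_mul (b1936 R) (le_of_eq (rfl : s226 R = (nat_lit 1)))

noncomputable def v2347 (R : VR) : ℕ :=
  Nat.mul (VR.o1 R) (Nat.mul (v1936 R) (v226 R))

noncomputable def s2347 (R : VR) (i : ℕ) : ℕ :=
  (s2346 R)

theorem e2347 (R : VR) : L (VR.S R) (v2347 R) (s2347 R) 10 :=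
  L.scl (VR.o1e R) (e2346 R) (b2346 R) (by decide)

noncomputable def v2348 (R : VR) : ℕ :=
  Nat.add (Nat.mul (VR.o1 R) (Nat.mul (v1936 R) (v226 R))) (VR.caT R)

noncomputable def s2348 (R : VR) (i : ℕ) : ℕ :=
  Nat.add (s2347 R i) (s127 R i)

theorem e2348 (R : VR) : L (VR.S R) (v2348 R) (s2348 R) 265 :=
  L.add (e2347 R) (e127 R) (by decide)

noncomputable def v2349 (R : VR) : ℕ :=
  gmk (VR.h2 R) (VR.J R) (Nat.mul (Nat.add (Nat.mul (VR.o1 R) (Nat.mul (v1936 R) (v226 R)))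
    (VR.caT R)) (VR.cr1 R))

noncomputable def v2350 (R : VR) : ℕ :=
  Nat.mod (Nat.land (gmk (VR.h2 R) (VR.J R) (Nat.mul (Nat.add (Nat.mul (VR.o1 R) (Nat.mul (v1936
    R) (v226 R))) (VR.caT R)) (VR.cr1 R))) (v1941 R)) (VR.m1 R)

noncomputable def s2350 (R : VR) (i : ℕ) : ℕ :=
  tx (VR.adT R) (s2348 R i)

theorem e2350 (R : VR) : L (VR.S R) (v2350 R) (s2350 R) 255 :=
  L.gat (e2348 R) (VR.ad_is R) (VR.ad_lt R) (VR.ad_le R)

noncomputable def v2351 (R : VR) : ℕ :=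
  Nat.shiftRight (Nat.land (Nat.sub (VR.h1 R) (v2350 R)) (VR.h1 R)) (nat_lit 15)

noncomputable def s2351 (R : VR) (i : ℕ) : Bool :=
  Nat.beq (s2350 R i) (nat_lit 0)

theorem e2351 (R : VR) : B (VR.S R) (v2351 R) (s2351 R) :=
  L.ez (VR.h1e R) (e2350 R)

noncomputable def v2352 (R : VR) : ℕ :=
  Nat.shiftRight (Nat.land (Nat.add (v2350 R) (VR.k1 R)) (VR.h1 R)) (nat_lit 15)

noncomputable def s2352 (R : VR) (i : ℕ) : Bool :=
  K.bnot (Nat.beq (s2350 R i) (nat_lit 0))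

theorem e2352 (R : VR) : B (VR.S R) (v2352 R) (s2352 R) :=
  L.nz (VR.h1e R) (VR.k1e R) (e2350 R)

noncomputable def v2353 (R : VR) : ℕ :=
  Nat.mul (v2352 R) (VR.cr1 R)

noncomputable def s2353 (R : VR) (j i : ℕ) : Bool :=
  (s2352 R i)

theorem e2353 (R : VR) : B2 R (v2353 R) (s2353 R) :=
  B2.rep (e2352 R)

noncomputable def v2354 (R : VR) : ℕ :=
  srM (VR.N R) (VR.S R) (VR.o1 R) (v2352 R)

noncomputable def s2354 (R : VR) (j i : ℕ) : Bool :=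
  (s2352 R j)

theorem e2354 (R : VR) : B2 R (v2354 R) (s2354 R) :=
  B2.row (e2352 R)

noncomputable def v2355 (R : VR) : ℕ :=
  Nat.land (Nat.mul (v2352 R) (VR.cr1 R)) (srM (VR.N R) (VR.S R) (VR.o1 R) (v2352 R))

noncomputable def s2355 (R : VR) (j i : ℕ) : Bool :=
  K.band (s2353 R j i) (s2354 R j i)

theorem e2355 (R : VR) : B2 R (v2355 R) (s2355 R) :=
  B.and (e2353 R) (e2354 R)

noncomputable def v2356 (R : VR) : ℕ :=
  Nat.land (Nat.land (Nat.mul (v2352 R) (VR.cr1 R)) (srM (VR.N R) (VR.S R) (VR.o1 R) (v2352 R)))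
    (v2280 R)

noncomputable def s2356 (R : VR) (j i : ℕ) : Bool :=
  K.band (s2355 R j i) (s2280 R j i)

theorem e2356 (R : VR) : B2 R (v2356 R) (s2356 R) :=
  B.and (e2355 R) (e2280 R)

noncomputable def v2357 (R : VR) : ℕ :=
  Vc.ssub (VR.h1 R) (v2350 R) (v267 R)

noncomputable def s2357 (R : VR) (i : ℕ) : ℕ :=
  Nat.sub (s2350 R i) (s267 R i)

theorem e2357 (R : VR) : L (VR.S R) (v2357 R) (s2357 R) 255 :=
  L.sub (VR.h1e R) (e2350 R) (e267 R)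

noncomputable def v2358 (R : VR) : ℕ :=
  gmk (VR.h2 R) (VR.J R) (Nat.mul (v2357 R) (VR.cr1 R))

noncomputable def v2359 (R : VR) : ℕ :=
  Nat.mod (Nat.land (v2358 R) (v164 R)) (VR.m1 R)

noncomputable def s2359 (R : VR) (i : ℕ) : ℕ :=
  tx (VR.rhoT R) (s2357 R i)

theorem e2359 (R : VR) : L (VR.S R) (v2359 R) (s2359 R) 255 :=
  L.gat (e2357 R) (VR.rho_is R) (VR.rho_lt R) (VR.rho_le R)

noncomputable def v2360 (R : VR) : ℕ :=
  Nat.mul (v2359 R) (VR.cr1 R)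

noncomputable def s2360 (R : VR) (j i : ℕ) : ℕ :=
  (s2359 R i)

theorem e2360 (R : VR) : L2 R (v2360 R) (s2360 R) 255 :=
  L2.rep (e2359 R)

noncomputable def v2361 (R : VR) : ℕ :=
  srM (VR.N R) (VR.S R) (VR.o1 R) (v2357 R)

noncomputable def s2361 (R : VR) (j i : ℕ) : ℕ :=
  (s2357 R j)

theorem e2361 (R : VR) : L2 R (v2361 R) (s2361 R) 255 :=
  L2.row (e2357 R)

noncomputable def v2362 (R : VR) : ℕ :=
  Nat.shiftRight (Nat.land (Nat.sub (VR.h2 R) (Nat.xor (Nat.mul (v2359 R) (VR.cr1 R)) (v2361 R)))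
    (VR.h2 R)) (nat_lit 15)

noncomputable def s2362 (R : VR) (j i : ℕ) : Bool :=
  Nat.beq (s2360 R j i) (s2361 R j i)

theorem e2362 (R : VR) : B2 R (v2362 R) (s2362 R) :=
  L.beq (VR.h2e R) (e2360 R) (e2361 R)

noncomputable def v2363 (R : VR) : ℕ :=
  Nat.sub (VR.o2 R) (Nat.shiftRight (Nat.land (Nat.sub (VR.h2 R) (Nat.xor (Nat.mul (v2359 R)
    (VR.cr1 R)) (v2361 R))) (VR.h2 R)) (nat_lit 15))

noncomputable def s2363 (R : VR) (j i : ℕ) : Bool :=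
  K.bnot (s2362 R j i)

theorem e2363 (R : VR) : B2 R (v2363 R) (s2363 R) :=
  B.not (VR.o2e R) (e2362 R)

noncomputable def v2364 (R : VR) : ℕ :=
  srM (VR.N R) (VR.S R) (VR.o1 R) (v2359 R)

noncomputable def s2364 (R : VR) (j i : ℕ) : ℕ :=
  (s2359 R j)

theorem e2364 (R : VR) : L2 R (v2364 R) (s2364 R) 255 :=
  L2.row (e2359 R)

noncomputable def v2365 (R : VR) : ℕ :=
  Nat.mul (v2357 R) (VR.cr1 R)

noncomputable def s2365 (R : VR) (j i : ℕ) : ℕ :=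
  (s2357 R i)

theorem e2365 (R : VR) : L2 R (v2365 R) (s2365 R) 255 :=
  L2.rep (e2357 R)

noncomputable def v2366 (R : VR) : ℕ :=
  Nat.shiftRight (Nat.land (Nat.sub (VR.h2 R) (Nat.xor (srM (VR.N R) (VR.S R) (VR.o1 R) (v2359 R))
    (v2365 R))) (VR.h2 R)) (nat_lit 15)

noncomputable def s2366 (R : VR) (j i : ℕ) : Bool :=
  Nat.beq (s2364 R j i) (s2365 R j i)

theorem e2366 (R : VR) : B2 R (v2366 R) (s2366 R) :=
  L.beq (VR.h2e R) (e2364 R) (e2365 R)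

noncomputable def v2367 (R : VR) : ℕ :=
  Nat.sub (VR.o2 R) (Nat.shiftRight (Nat.land (Nat.sub (VR.h2 R) (Nat.xor (srM (VR.N R) (VR.S R)
    (VR.o1 R) (v2359 R)) (v2365 R))) (VR.h2 R)) (nat_lit 15))

noncomputable def s2367 (R : VR) (j i : ℕ) : Bool :=
  K.bnot (s2366 R j i)

theorem e2367 (R : VR) : B2 R (v2367 R) (s2367 R) :=
  B.not (VR.o2e R) (e2366 R)

noncomputable def v2368 (R : VR) : ℕ :=
  Nat.land (Nat.sub (VR.o2 R) (Nat.shiftRight (Nat.land (Nat.sub (VR.h2 R) (Nat.xor (Nat.mul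
    (v2359 R) (VR.cr1 R)) (v2361 R))) (VR.h2 R)) (nat_lit 15))) (Nat.sub (VR.o2 R) (Nat.shiftRight
    (Nat.land (Nat.sub (VR.h2 R) (Nat.xor (srM (VR.N R) (VR.S R) (VR.o1 R) (v2359 R)) (v2365 R)))
    (VR.h2 R)) (nat_lit 15)))

noncomputable def s2368 (R : VR) (j i : ℕ) : Bool :=
  K.band (s2363 R j i) (s2367 R j i)

theorem e2368 (R : VR) : B2 R (v2368 R) (s2368 R) :=
  B.and (e2363 R) (e2367 R)

noncomputable def s2369 (R : VR) (j i : ℕ) : Bool :=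
  K.Cf_nco (VR.Cf R) (s2357 R i) (s2357 R j)

theorem e2369 (R : VR) : B2 R (v2368 R) (s2369 R) :=
  e2368 R

noncomputable def v2370 (R : VR) : ℕ :=
  Nat.land (Nat.land (Nat.land (Nat.mul (v2352 R) (VR.cr1 R)) (srM (VR.N R) (VR.S R) (VR.o1 R)
    (v2352 R))) (v2280 R)) (Nat.land (Nat.sub (VR.o2 R) (Nat.shiftRight (Nat.land (Nat.sub (VR.h2
    R) (Nat.xor (Nat.mul (v2359 R) (VR.cr1 R)) (v2361 R))) (VR.h2 R)) (nat_lit 15))) (Nat.sub
    (VR.o2 R) (Nat.shiftRight (Nat.land (Nat.sub (VR.h2 R) (Nat.xor (srM (VR.N R) (VR.S R) (VR.o1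
    R) (v2359 R)) (v2365 R))) (VR.h2 R)) (nat_lit 15))))

noncomputable def s2370 (R : VR) (j i : ℕ) : Bool :=
  K.band (s2356 R j i) (s2369 R j i)

theorem e2370 (R : VR) : B2 R (v2370 R) (s2370 R) :=
  B.and (e2356 R) (e2369 R)

noncomputable def v2371 (R : VR) : ℕ :=
  Nat.mod (Nat.land (v2358 R) (v146 R)) (VR.m1 R)

noncomputable def s2371 (R : VR) (i : ℕ) : ℕ :=
  tx (VR.piT R) (s2357 R i)

theorem e2371 (R : VR) : L (VR.S R) (v2371 R) (s2371 R) 255 :=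
  L.gat (e2357 R) (VR.pi_is R) (VR.pi_lt R) (VR.pi_le R)

noncomputable def v2372 (R : VR) : ℕ :=
  Nat.shiftRight (Nat.land (Nat.sub (VR.h1 R) (Nat.xor (VR.iota R) (v2371 R))) (VR.h1 R)) (nat_lit
    15)

noncomputable def s2372 (R : VR) (i : ℕ) : Bool :=
  Nat.beq (s0 R i) (s2371 R i)

theorem e2372 (R : VR) : B (VR.S R) (v2372 R) (s2372 R) :=
  L.beq (VR.h1e R) (e0 R) (e2371 R)

noncomputable def v2373 (R : VR) : ℕ :=
  Nat.mul (v2372 R) (VR.cr1 R)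

noncomputable def s2373 (R : VR) (j i : ℕ) : Bool :=
  (s2372 R i)

theorem e2373 (R : VR) : B2 R (v2373 R) (s2373 R) :=
  B2.rep (e2372 R)

noncomputable def v2374 (R : VR) : ℕ :=
  srM (VR.N R) (VR.S R) (VR.o1 R) (v2372 R)

noncomputable def s2374 (R : VR) (j i : ℕ) : Bool :=
  (s2372 R j)

theorem e2374 (R : VR) : B2 R (v2374 R) (s2374 R) :=
  B2.row (e2372 R)

noncomputable def v2375 (R : VR) : ℕ :=
  Nat.land (Nat.mul (v2372 R) (VR.cr1 R)) (srM (VR.N R) (VR.S R) (VR.o1 R) (v2372 R))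

noncomputable def s2375 (R : VR) (j i : ℕ) : Bool :=
  K.band (s2373 R j i) (s2374 R j i)

theorem e2375 (R : VR) : B2 R (v2375 R) (s2375 R) :=
  B.and (e2373 R) (e2374 R)

noncomputable def v2376 (R : VR) : ℕ :=
  gmk (VR.h2 R) (VR.J R) (Nat.mul (v2359 R) (VR.cr1 R))

noncomputable def v2377 (R : VR) : ℕ :=
  Nat.mod (Nat.land (v2376 R) (v164 R)) (VR.m1 R)

noncomputable def s2377 (R : VR) (i : ℕ) : ℕ :=
  tx (VR.rhoT R) (s2359 R i)

theorem e2377 (R : VR) : L (VR.S R) (v2377 R) (s2377 R) 255 :=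
  L.gat (e2359 R) (VR.rho_is R) (VR.rho_lt R) (VR.rho_le R)

noncomputable def v2378 (R : VR) : ℕ :=
  Nat.mul (v2377 R) (VR.cr1 R)

noncomputable def s2378 (R : VR) (j i : ℕ) : ℕ :=
  (s2377 R i)

theorem e2378 (R : VR) : L2 R (v2378 R) (s2378 R) 255 :=
  L2.rep (e2377 R)

noncomputable def v2379 (R : VR) : ℕ :=
  Nat.shiftRight (Nat.land (Nat.sub (VR.h2 R) (Nat.xor (Nat.mul (v2377 R) (VR.cr1 R)) (v2361 R)))
    (VR.h2 R)) (nat_lit 15)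

noncomputable def s2379 (R : VR) (j i : ℕ) : Bool :=
  Nat.beq (s2378 R j i) (s2361 R j i)

theorem e2379 (R : VR) : B2 R (v2379 R) (s2379 R) :=
  L.beq (VR.h2e R) (e2378 R) (e2361 R)

noncomputable def v2380 (R : VR) : ℕ :=
  Nat.shiftRight (Nat.land (Nat.sub (VR.h1 R) (Nat.xor (VR.rhoT R) (v2371 R))) (VR.h1 R)) (nat_lit
    15)

noncomputable def s2380 (R : VR) (i : ℕ) : Bool :=
  Nat.beq (s158 R i) (s2371 R i)

theorem e2380 (R : VR) : B (VR.S R) (v2380 R) (s2380 R) :=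
  L.beq (VR.h1e R) (e158 R) (e2371 R)

noncomputable def v2381 (R : VR) : ℕ :=
  gmk (VR.h2 R) (VR.J R) (Nat.mul (v2371 R) (VR.cr1 R))

noncomputable def v2382 (R : VR) : ℕ :=
  Nat.mod (Nat.land (gmk (VR.h2 R) (VR.J R) (Nat.mul (v2371 R) (VR.cr1 R))) (v164 R)) (VR.m1 R)

noncomputable def s2382 (R : VR) (i : ℕ) : ℕ :=
  tx (VR.rhoT R) (s2371 R i)

theorem e2382 (R : VR) : L (VR.S R) (v2382 R) (s2382 R) 255 :=
  L.gat (e2371 R) (VR.rho_is R) (VR.rho_lt R) (VR.rho_le R)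

noncomputable def v2383 (R : VR) : ℕ :=
  Nat.shiftRight (Nat.land (Nat.sub (VR.h1 R) (Nat.xor (VR.iota R) (v2382 R))) (VR.h1 R)) (nat_lit
    15)

noncomputable def s2383 (R : VR) (i : ℕ) : Bool :=
  Nat.beq (s0 R i) (s2382 R i)

theorem e2383 (R : VR) : B (VR.S R) (v2383 R) (s2383 R) :=
  L.beq (VR.h1e R) (e0 R) (e2382 R)

noncomputable def v2384 (R : VR) : ℕ :=
  Nat.mul (v2380 R) (VR.cr1 R)

noncomputable def s2384 (R : VR) (j i : ℕ) : Bool :=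
  (s2380 R i)

theorem e2384 (R : VR) : B2 R (v2384 R) (s2384 R) :=
  B2.rep (e2380 R)

noncomputable def v2385 (R : VR) : ℕ :=
  srM (VR.N R) (VR.S R) (VR.o1 R) (v2383 R)

noncomputable def s2385 (R : VR) (j i : ℕ) : Bool :=
  (s2383 R j)

theorem e2385 (R : VR) : B2 R (v2385 R) (s2385 R) :=
  B2.row (e2383 R)

noncomputable def v2386 (R : VR) : ℕ :=
  Nat.land (Nat.mul (v2380 R) (VR.cr1 R)) (srM (VR.N R) (VR.S R) (VR.o1 R) (v2383 R))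

noncomputable def s2386 (R : VR) (j i : ℕ) : Bool :=
  K.band (s2384 R j i) (s2385 R j i)

theorem e2386 (R : VR) : B2 R (v2386 R) (s2386 R) :=
  B.and (e2384 R) (e2385 R)

noncomputable def v2387 (R : VR) : ℕ :=
  Nat.mod (Nat.land (v2376 R) (v2313 R)) (VR.m1 R)

noncomputable def s2387 (R : VR) (i : ℕ) : Bool :=
  tf (VR.BGXT R) (s2359 R i)

theorem e2387 (R : VR) : B (VR.S R) (v2387 R) (s2387 R) :=
  B.gat (e2359 R) (VR.BGX_is R) (VR.BGX_lt R)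

noncomputable def v2388 (R : VR) : ℕ :=
  Nat.sub (VR.o1 R) (Nat.mod (Nat.land (v2376 R) (v2313 R)) (VR.m1 R))

noncomputable def s2388 (R : VR) (i : ℕ) : Bool :=
  K.bnot (s2387 R i)

theorem e2388 (R : VR) : B (VR.S R) (v2388 R) (s2388 R) :=
  B.not (VR.o1e R) (e2387 R)

noncomputable def v2389 (R : VR) : ℕ :=
  Nat.land (VR.rlT R) (Nat.sub (VR.o1 R) (Nat.mod (Nat.land (v2376 R) (v2313 R)) (VR.m1 R)))

noncomputable def s2389 (R : VR) (i : ℕ) : Bool :=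
  K.band (s435 R i) (s2388 R i)

theorem e2389 (R : VR) : B (VR.S R) (v2389 R) (s2389 R) :=
  B.and (e435 R) (e2388 R)

noncomputable def v2390 (R : VR) : ℕ :=
  Nat.shiftRight (Nat.land (Nat.sub (VR.h1 R) (Nat.xor (v2317 R) (v2371 R))) (VR.h1 R)) (nat_lit
    15)

noncomputable def s2390 (R : VR) (i : ℕ) : Bool :=
  Nat.beq (s2317 R i) (s2371 R i)

theorem e2390 (R : VR) : B (VR.S R) (v2390 R) (s2390 R) :=
  L.beq (VR.h1e R) (e2317 R) (e2371 R)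

noncomputable def v2391 (R : VR) : ℕ :=
  Nat.land (Nat.land (VR.rlT R) (Nat.sub (VR.o1 R) (Nat.mod (Nat.land (v2376 R) (v2313 R)) (VR.m1
    R)))) (Nat.shiftRight (Nat.land (Nat.sub (VR.h1 R) (Nat.xor (v2317 R) (v2371 R))) (VR.h1 R))
    (nat_lit 15))

noncomputable def s2391 (R : VR) (i : ℕ) : Bool :=
  K.band (s2389 R i) (s2390 R i)

theorem e2391 (R : VR) : B (VR.S R) (v2391 R) (s2391 R) :=
  B.and (e2389 R) (e2390 R)

noncomputable def v2392 (R : VR) : ℕ :=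
  gmk (VR.h2 R) (VR.J R) (Nat.mul (v2382 R) (VR.cr1 R))

noncomputable def v2393 (R : VR) : ℕ :=
  Nat.mod (Nat.land (gmk (VR.h2 R) (VR.J R) (Nat.mul (v2382 R) (VR.cr1 R))) (v164 R)) (VR.m1 R)

noncomputable def s2393 (R : VR) (i : ℕ) : ℕ :=
  tx (VR.rhoT R) (s2382 R i)

theorem e2393 (R : VR) : L (VR.S R) (v2393 R) (s2393 R) 255 :=
  L.gat (e2382 R) (VR.rho_is R) (VR.rho_lt R) (VR.rho_le R)

noncomputable def v2394 (R : VR) : ℕ :=
  Nat.shiftRight (Nat.land (Nat.sub (VR.h1 R) (Nat.xor (VR.iota R) (Nat.mod (Nat.land (gmk (VR.h2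
    R) (VR.J R) (Nat.mul (v2382 R) (VR.cr1 R))) (v164 R)) (VR.m1 R)))) (VR.h1 R)) (nat_lit 15)

noncomputable def s2394 (R : VR) (i : ℕ) : Bool :=
  Nat.beq (s0 R i) (s2393 R i)

theorem e2394 (R : VR) : B (VR.S R) (v2394 R) (s2394 R) :=
  L.beq (VR.h1e R) (e0 R) (e2393 R)

noncomputable def v2395 (R : VR) : ℕ :=
  Nat.mul (v2391 R) (VR.cr1 R)

noncomputable def s2395 (R : VR) (j i : ℕ) : Bool :=
  (s2391 R i)

theorem e2395 (R : VR) : B2 R (v2395 R) (s2395 R) :=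
  B2.rep (e2391 R)

noncomputable def v2396 (R : VR) : ℕ :=
  srM (VR.N R) (VR.S R) (VR.o1 R) (v2394 R)

noncomputable def s2396 (R : VR) (j i : ℕ) : Bool :=
  (s2394 R j)

theorem e2396 (R : VR) : B2 R (v2396 R) (s2396 R) :=
  B2.row (e2394 R)

noncomputable def v2397 (R : VR) : ℕ :=
  Nat.land (Nat.mul (v2391 R) (VR.cr1 R)) (srM (VR.N R) (VR.S R) (VR.o1 R) (v2394 R))

noncomputable def s2397 (R : VR) (j i : ℕ) : Bool :=
  K.band (s2395 R j i) (s2396 R j i)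

theorem e2397 (R : VR) : B2 R (v2397 R) (s2397 R) :=
  B.and (e2395 R) (e2396 R)

noncomputable def v2398 (R : VR) : ℕ :=
  Nat.lor (Nat.land (Nat.mul (v2380 R) (VR.cr1 R)) (srM (VR.N R) (VR.S R) (VR.o1 R) (v2383 R)))
    (Nat.land (Nat.mul (v2391 R) (VR.cr1 R)) (srM (VR.N R) (VR.S R) (VR.o1 R) (v2394 R)))

noncomputable def s2398 (R : VR) (j i : ℕ) : Bool :=
  K.bor (s2386 R j i) (s2397 R j i)

theorem e2398 (R : VR) : B2 R (v2398 R) (s2398 R) :=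
  B.or (e2386 R) (e2397 R)

noncomputable def v2399 (R : VR) : ℕ :=
  Nat.land (Nat.shiftRight (Nat.land (Nat.sub (VR.h2 R) (Nat.xor (Nat.mul (v2377 R) (VR.cr1 R))
    (v2361 R))) (VR.h2 R)) (nat_lit 15)) (Nat.lor (Nat.land (Nat.mul (v2380 R) (VR.cr1 R)) (srM
    (VR.N R) (VR.S R) (VR.o1 R) (v2383 R))) (Nat.land (Nat.mul (v2391 R) (VR.cr1 R)) (srM (VR.N R)
    (VR.S R) (VR.o1 R) (v2394 R))))

noncomputable def s2399 (R : VR) (j i : ℕ) : Bool :=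
  K.band (s2379 R j i) (s2398 R j i)

theorem e2399 (R : VR) : B2 R (v2399 R) (s2399 R) :=
  B.and (e2379 R) (e2398 R)

noncomputable def s2400 (R : VR) (j i : ℕ) : Bool :=
  K.Cf_ex22 (VR.Cf R) (tf (VR.BGXT R)) (s2357 R i) (s2357 R j) i j

theorem e2400 (R : VR) : B2 R (v2399 R) (s2400 R) :=
  e2399 R

noncomputable def v2401 (R : VR) : ℕ :=
  Nat.lor (Nat.land (Nat.mul (v2372 R) (VR.cr1 R)) (srM (VR.N R) (VR.S R) (VR.o1 R) (v2372 R)))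
    (Nat.land (Nat.shiftRight (Nat.land (Nat.sub (VR.h2 R) (Nat.xor (Nat.mul (v2377 R) (VR.cr1 R))
    (v2361 R))) (VR.h2 R)) (nat_lit 15)) (Nat.lor (Nat.land (Nat.mul (v2380 R) (VR.cr1 R)) (srM
    (VR.N R) (VR.S R) (VR.o1 R) (v2383 R))) (Nat.land (Nat.mul (v2391 R) (VR.cr1 R)) (srM (VR.N R)
    (VR.S R) (VR.o1 R) (v2394 R)))))

noncomputable def s2401 (R : VR) (j i : ℕ) : Bool :=
  K.bor (s2375 R j i) (s2400 R j i)

theorem e2401 (R : VR) : B2 R (v2401 R) (s2401 R) :=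
  B.or (e2375 R) (e2400 R)

noncomputable def v2402 (R : VR) : ℕ :=
  srM (VR.N R) (VR.S R) (VR.o1 R) (v2377 R)

noncomputable def s2402 (R : VR) (j i : ℕ) : ℕ :=
  (s2377 R j)

theorem e2402 (R : VR) : L2 R (v2402 R) (s2402 R) 255 :=
  L2.row (e2377 R)

noncomputable def v2403 (R : VR) : ℕ :=
  Nat.shiftRight (Nat.land (Nat.sub (VR.h2 R) (Nat.xor (srM (VR.N R) (VR.S R) (VR.o1 R) (v2377 R))
    (v2365 R))) (VR.h2 R)) (nat_lit 15)

noncomputable def s2403 (R : VR) (j i : ℕ) : Bool :=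
  Nat.beq (s2402 R j i) (s2365 R j i)

theorem e2403 (R : VR) : B2 R (v2403 R) (s2403 R) :=
  L.beq (VR.h2e R) (e2402 R) (e2365 R)

noncomputable def v2404 (R : VR) : ℕ :=
  srM (VR.N R) (VR.S R) (VR.o1 R) (v2380 R)

noncomputable def s2404 (R : VR) (j i : ℕ) : Bool :=
  (s2380 R j)

theorem e2404 (R : VR) : B2 R (v2404 R) (s2404 R) :=
  B2.row (e2380 R)

noncomputable def v2405 (R : VR) : ℕ :=
  Nat.mul (v2383 R) (VR.cr1 R)

noncomputable def s2405 (R : VR) (j i : ℕ) : Bool :=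
  (s2383 R i)

theorem e2405 (R : VR) : B2 R (v2405 R) (s2405 R) :=
  B2.rep (e2383 R)

noncomputable def v2406 (R : VR) : ℕ :=
  Nat.land (srM (VR.N R) (VR.S R) (VR.o1 R) (v2380 R)) (Nat.mul (v2383 R) (VR.cr1 R))

noncomputable def s2406 (R : VR) (j i : ℕ) : Bool :=
  K.band (s2404 R j i) (s2405 R j i)

theorem e2406 (R : VR) : B2 R (v2406 R) (s2406 R) :=
  B.and (e2404 R) (e2405 R)

noncomputable def v2407 (R : VR) : ℕ :=
  srM (VR.N R) (VR.S R) (VR.o1 R) (v2391 R)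

noncomputable def s2407 (R : VR) (j i : ℕ) : Bool :=
  (s2391 R j)

theorem e2407 (R : VR) : B2 R (v2407 R) (s2407 R) :=
  B2.row (e2391 R)

noncomputable def v2408 (R : VR) : ℕ :=
  Nat.mul (v2394 R) (VR.cr1 R)

noncomputable def s2408 (R : VR) (j i : ℕ) : Bool :=
  (s2394 R i)

theorem e2408 (R : VR) : B2 R (v2408 R) (s2408 R) :=
  B2.rep (e2394 R)

noncomputable def v2409 (R : VR) : ℕ :=
  Nat.land (srM (VR.N R) (VR.S R) (VR.o1 R) (v2391 R)) (Nat.mul (v2394 R) (VR.cr1 R))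

noncomputable def s2409 (R : VR) (j i : ℕ) : Bool :=
  K.band (s2407 R j i) (s2408 R j i)

theorem e2409 (R : VR) : B2 R (v2409 R) (s2409 R) :=
  B.and (e2407 R) (e2408 R)

noncomputable def v2410 (R : VR) : ℕ :=
  Nat.lor (Nat.land (srM (VR.N R) (VR.S R) (VR.o1 R) (v2380 R)) (Nat.mul (v2383 R) (VR.cr1 R)))
    (Nat.land (srM (VR.N R) (VR.S R) (VR.o1 R) (v2391 R)) (Nat.mul (v2394 R) (VR.cr1 R)))

noncomputable def s2410 (R : VR) (j i : ℕ) : Bool :=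
  K.bor (s2406 R j i) (s2409 R j i)

theorem e2410 (R : VR) : B2 R (v2410 R) (s2410 R) :=
  B.or (e2406 R) (e2409 R)

noncomputable def v2411 (R : VR) : ℕ :=
  Nat.land (Nat.shiftRight (Nat.land (Nat.sub (VR.h2 R) (Nat.xor (srM (VR.N R) (VR.S R) (VR.o1 R)
    (v2377 R)) (v2365 R))) (VR.h2 R)) (nat_lit 15)) (Nat.lor (Nat.land (srM (VR.N R) (VR.S R)
    (VR.o1 R) (v2380 R)) (Nat.mul (v2383 R) (VR.cr1 R))) (Nat.land (srM (VR.N R) (VR.S R) (VR.o1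
    R) (v2391 R)) (Nat.mul (v2394 R) (VR.cr1 R))))

noncomputable def s2411 (R : VR) (j i : ℕ) : Bool :=
  K.band (s2403 R j i) (s2410 R j i)

theorem e2411 (R : VR) : B2 R (v2411 R) (s2411 R) :=
  B.and (e2403 R) (e2410 R)

noncomputable def s2412 (R : VR) (j i : ℕ) : Bool :=
  K.Cf_ex22 (VR.Cf R) (tf (VR.BGXT R)) (s2357 R j) (s2357 R i) j i

theorem e2412 (R : VR) : B2 R (v2411 R) (s2412 R) :=
  e2411 R

noncomputable def v2413 (R : VR) : ℕ :=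
  Nat.lor (v2401 R) (Nat.land (Nat.shiftRight (Nat.land (Nat.sub (VR.h2 R) (Nat.xor (srM (VR.N R)
    (VR.S R) (VR.o1 R) (v2377 R)) (v2365 R))) (VR.h2 R)) (nat_lit 15)) (Nat.lor (Nat.land (srM
    (VR.N R) (VR.S R) (VR.o1 R) (v2380 R)) (Nat.mul (v2383 R) (VR.cr1 R))) (Nat.land (srM (VR.N R)
    (VR.S R) (VR.o1 R) (v2391 R)) (Nat.mul (v2394 R) (VR.cr1 R)))))

noncomputable def s2413 (R : VR) (j i : ℕ) : Bool :=
  K.bor (s2401 R j i) (s2412 R j i)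

theorem e2413 (R : VR) : B2 R (v2413 R) (s2413 R) :=
  B.or (e2401 R) (e2412 R)

noncomputable def s2414 (R : VR) (j i : ℕ) : Bool :=
  K.Cf_exc (VR.Cf R) (tf (VR.BGXT R)) (s2357 R i) (s2357 R j) i j

theorem e2414 (R : VR) : B2 R (v2413 R) (s2414 R) :=
  e2413 R

noncomputable def v2415 (R : VR) : ℕ :=
  Nat.sub (VR.o2 R) (Nat.lor (v2401 R) (Nat.land (Nat.shiftRight (Nat.land (Nat.sub (VR.h2 R)
    (Nat.xor (srM (VR.N R) (VR.S R) (VR.o1 R) (v2377 R)) (v2365 R))) (VR.h2 R)) (nat_lit 15))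
    (Nat.lor (Nat.land (srM (VR.N R) (VR.S R) (VR.o1 R) (v2380 R)) (Nat.mul (v2383 R) (VR.cr1 R)))
    (Nat.land (srM (VR.N R) (VR.S R) (VR.o1 R) (v2391 R)) (Nat.mul (v2394 R) (VR.cr1 R))))))

noncomputable def s2415 (R : VR) (j i : ℕ) : Bool :=
  K.bnot (s2414 R j i)

theorem e2415 (R : VR) : B2 R (v2415 R) (s2415 R) :=
  B.not (VR.o2e R) (e2414 R)

noncomputable def v2416 (R : VR) : ℕ :=
  Nat.land (v2370 R) (Nat.sub (VR.o2 R) (Nat.lor (v2401 R) (Nat.land (Nat.shiftRight (Nat.land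
    (Nat.sub (VR.h2 R) (Nat.xor (srM (VR.N R) (VR.S R) (VR.o1 R) (v2377 R)) (v2365 R))) (VR.h2 R))
    (nat_lit 15)) (Nat.lor (Nat.land (srM (VR.N R) (VR.S R) (VR.o1 R) (v2380 R)) (Nat.mul (v2383
    R) (VR.cr1 R))) (Nat.land (srM (VR.N R) (VR.S R) (VR.o1 R) (v2391 R)) (Nat.mul (v2394 R)
    (VR.cr1 R)))))))

noncomputable def s2416 (R : VR) (j i : ℕ) : Bool :=
  K.band (s2370 R j i) (s2415 R j i)

theorem e2416 (R : VR) : B2 R (v2416 R) (s2416 R) :=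
  B.and (e2370 R) (e2415 R)

noncomputable def v2417 (R : VR) : ℕ :=
  Bool.rec (motive := fun _ => ℕ) (nat_lit 0) (Nat.land (v2370 R) (Nat.sub (VR.o2 R) (Nat.lor
    (v2401 R) (Nat.land (Nat.shiftRight (Nat.land (Nat.sub (VR.h2 R) (Nat.xor (srM (VR.N R) (VR.S
    R) (VR.o1 R) (v2377 R)) (v2365 R))) (VR.h2 R)) (nat_lit 15)) (Nat.lor (Nat.land (srM (VR.N R)
    (VR.S R) (VR.o1 R) (v2380 R)) (Nat.mul (v2383 R) (VR.cr1 R))) (Nat.land (srM (VR.N R) (VR.S R)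
    (VR.o1 R) (v2391 R)) (Nat.mul (v2394 R) (VR.cr1 R)))))))) (v2000 R)

noncomputable def s2417 (R : VR) (j i : ℕ) : Bool :=
  K.band (s2000 R) (s2416 R j i)

theorem e2417 (R : VR) : B2 R (v2417 R) (s2417 R) :=
  B.gand (e2000 R) (e2416 R)

noncomputable def v2418 (R : VR) : ℕ :=
  Nat.mul (v1936 R) (v259 R)

noncomputable def s2418 (R : VR) : ℕ :=
  Nat.mul (s1936 R) (s259 R)

theorem e2418 (R : VR) : (v2418 R) = s2418 R :=
  congrArg₂ Nat.mul (e1936 R) (e259 R)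

theorem b2418 (R : VR) : s2418 R ≤ 20 :=
  Nat.mul_le_mul (b1936 R) (le_of_eq (rfl : s259 R = (nat_lit 2)))

noncomputable def v2419 (R : VR) : ℕ :=
  Nat.mul (VR.o1 R) (Nat.mul (v1936 R) (v259 R))

noncomputable def s2419 (R : VR) (i : ℕ) : ℕ :=
  (s2418 R)

theorem e2419 (R : VR) : L (VR.S R) (v2419 R) (s2419 R) 20 :=
  L.scl (VR.o1e R) (e2418 R) (b2418 R) (by decide)

noncomputable def v2420 (R : VR) : ℕ :=
  Nat.add (Nat.mul (VR.o1 R) (Nat.mul (v1936 R) (v259 R))) (VR.caT R)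

noncomputable def s2420 (R : VR) (i : ℕ) : ℕ :=
  Nat.add (s2419 R i) (s127 R i)

theorem e2420 (R : VR) : L (VR.S R) (v2420 R) (s2420 R) 275 :=
  L.add (e2419 R) (e127 R) (by decide)

noncomputable def v2421 (R : VR) : ℕ :=
  gmk (VR.h2 R) (VR.J R) (Nat.mul (Nat.add (Nat.mul (VR.o1 R) (Nat.mul (v1936 R) (v259 R)))
    (VR.caT R)) (VR.cr1 R))

noncomputable def v2422 (R : VR) : ℕ :=
  Nat.mod (Nat.land (gmk (VR.h2 R) (VR.J R) (Nat.mul (Nat.add (Nat.mul (VR.o1 R) (Nat.mul (v1936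
    R) (v259 R))) (VR.caT R)) (VR.cr1 R))) (v1941 R)) (VR.m1 R)

noncomputable def s2422 (R : VR) (i : ℕ) : ℕ :=
  tx (VR.adT R) (s2420 R i)

theorem e2422 (R : VR) : L (VR.S R) (v2422 R) (s2422 R) 255 :=
  L.gat (e2420 R) (VR.ad_is R) (VR.ad_lt R) (VR.ad_le R)

noncomputable def v2423 (R : VR) : ℕ :=
  Nat.shiftRight (Nat.land (Nat.sub (VR.h1 R) (v2422 R)) (VR.h1 R)) (nat_lit 15)

noncomputable def s2423 (R : VR) (i : ℕ) : Bool :=
  Nat.beq (s2422 R i) (nat_lit 0)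

theorem e2423 (R : VR) : B (VR.S R) (v2423 R) (s2423 R) :=
  L.ez (VR.h1e R) (e2422 R)

noncomputable def v2424 (R : VR) : ℕ :=
  Nat.shiftRight (Nat.land (Nat.add (v2422 R) (VR.k1 R)) (VR.h1 R)) (nat_lit 15)

noncomputable def s2424 (R : VR) (i : ℕ) : Bool :=
  K.bnot (Nat.beq (s2422 R i) (nat_lit 0))

theorem e2424 (R : VR) : B (VR.S R) (v2424 R) (s2424 R) :=
  L.nz (VR.h1e R) (VR.k1e R) (e2422 R)

noncomputable def v2425 (R : VR) : ℕ :=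
  Nat.mul (v2424 R) (VR.cr1 R)

noncomputable def s2425 (R : VR) (j i : ℕ) : Bool :=
  (s2424 R i)

theorem e2425 (R : VR) : B2 R (v2425 R) (s2425 R) :=
  B2.rep (e2424 R)

noncomputable def v2426 (R : VR) : ℕ :=
  srM (VR.N R) (VR.S R) (VR.o1 R) (v2424 R)

noncomputable def s2426 (R : VR) (j i : ℕ) : Bool :=
  (s2424 R j)

theorem e2426 (R : VR) : B2 R (v2426 R) (s2426 R) :=
  B2.row (e2424 R)

noncomputable def v2427 (R : VR) : ℕ :=
  Nat.land (Nat.mul (v2424 R) (VR.cr1 R)) (srM (VR.N R) (VR.S R) (VR.o1 R) (v2424 R))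

noncomputable def s2427 (R : VR) (j i : ℕ) : Bool :=
  K.band (s2425 R j i) (s2426 R j i)

theorem e2427 (R : VR) : B2 R (v2427 R) (s2427 R) :=
  B.and (e2425 R) (e2426 R)

noncomputable def v2428 (R : VR) : ℕ :=
  Nat.land (Nat.land (Nat.mul (v2424 R) (VR.cr1 R)) (srM (VR.N R) (VR.S R) (VR.o1 R) (v2424 R)))
    (v2280 R)

noncomputable def s2428 (R : VR) (j i : ℕ) : Bool :=
  K.band (s2427 R j i) (s2280 R j i)

theorem e2428 (R : VR) : B2 R (v2428 R) (s2428 R) :=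
  B.and (e2427 R) (e2280 R)

noncomputable def v2429 (R : VR) : ℕ :=
  Vc.ssub (VR.h1 R) (v2422 R) (v267 R)

noncomputable def s2429 (R : VR) (i : ℕ) : ℕ :=
  Nat.sub (s2422 R i) (s267 R i)

theorem e2429 (R : VR) : L (VR.S R) (v2429 R) (s2429 R) 255 :=
  L.sub (VR.h1e R) (e2422 R) (e267 R)

noncomputable def v2430 (R : VR) : ℕ :=
  gmk (VR.h2 R) (VR.J R) (Nat.mul (v2429 R) (VR.cr1 R))

noncomputable def v2431 (R : VR) : ℕ :=
  Nat.mod (Nat.land (v2430 R) (v164 R)) (VR.m1 R)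

noncomputable def s2431 (R : VR) (i : ℕ) : ℕ :=
  tx (VR.rhoT R) (s2429 R i)

theorem e2431 (R : VR) : L (VR.S R) (v2431 R) (s2431 R) 255 :=
  L.gat (e2429 R) (VR.rho_is R) (VR.rho_lt R) (VR.rho_le R)

noncomputable def v2432 (R : VR) : ℕ :=
  Nat.mul (v2431 R) (VR.cr1 R)

noncomputable def s2432 (R : VR) (j i : ℕ) : ℕ :=
  (s2431 R i)

theorem e2432 (R : VR) : L2 R (v2432 R) (s2432 R) 255 :=
  L2.rep (e2431 R)

noncomputable def v2433 (R : VR) : ℕ :=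
  srM (VR.N R) (VR.S R) (VR.o1 R) (v2429 R)

noncomputable def s2433 (R : VR) (j i : ℕ) : ℕ :=
  (s2429 R j)

theorem e2433 (R : VR) : L2 R (v2433 R) (s2433 R) 255 :=
  L2.row (e2429 R)

noncomputable def v2434 (R : VR) : ℕ :=
  Nat.shiftRight (Nat.land (Nat.sub (VR.h2 R) (Nat.xor (Nat.mul (v2431 R) (VR.cr1 R)) (v2433 R)))
    (VR.h2 R)) (nat_lit 15)

noncomputable def s2434 (R : VR) (j i : ℕ) : Bool :=
  Nat.beq (s2432 R j i) (s2433 R j i)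

theorem e2434 (R : VR) : B2 R (v2434 R) (s2434 R) :=
  L.beq (VR.h2e R) (e2432 R) (e2433 R)

noncomputable def v2435 (R : VR) : ℕ :=
  Nat.sub (VR.o2 R) (Nat.shiftRight (Nat.land (Nat.sub (VR.h2 R) (Nat.xor (Nat.mul (v2431 R)
    (VR.cr1 R)) (v2433 R))) (VR.h2 R)) (nat_lit 15))

noncomputable def s2435 (R : VR) (j i : ℕ) : Bool :=
  K.bnot (s2434 R j i)

theorem e2435 (R : VR) : B2 R (v2435 R) (s2435 R) :=
  B.not (VR.o2e R) (e2434 R)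

noncomputable def v2436 (R : VR) : ℕ :=
  srM (VR.N R) (VR.S R) (VR.o1 R) (v2431 R)

noncomputable def s2436 (R : VR) (j i : ℕ) : ℕ :=
  (s2431 R j)

theorem e2436 (R : VR) : L2 R (v2436 R) (s2436 R) 255 :=
  L2.row (e2431 R)

noncomputable def v2437 (R : VR) : ℕ :=
  Nat.mul (v2429 R) (VR.cr1 R)

noncomputable def s2437 (R : VR) (j i : ℕ) : ℕ :=
  (s2429 R i)

theorem e2437 (R : VR) : L2 R (v2437 R) (s2437 R) 255 :=
  L2.rep (e2429 R)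

noncomputable def v2438 (R : VR) : ℕ :=
  Nat.shiftRight (Nat.land (Nat.sub (VR.h2 R) (Nat.xor (srM (VR.N R) (VR.S R) (VR.o1 R) (v2431 R))
    (v2437 R))) (VR.h2 R)) (nat_lit 15)

noncomputable def s2438 (R : VR) (j i : ℕ) : Bool :=
  Nat.beq (s2436 R j i) (s2437 R j i)

theorem e2438 (R : VR) : B2 R (v2438 R) (s2438 R) :=
  L.beq (VR.h2e R) (e2436 R) (e2437 R)

noncomputable def v2439 (R : VR) : ℕ :=
  Nat.sub (VR.o2 R) (Nat.shiftRight (Nat.land (Nat.sub (VR.h2 R) (Nat.xor (srM (VR.N R) (VR.S R)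
    (VR.o1 R) (v2431 R)) (v2437 R))) (VR.h2 R)) (nat_lit 15))

noncomputable def s2439 (R : VR) (j i : ℕ) : Bool :=
  K.bnot (s2438 R j i)

theorem e2439 (R : VR) : B2 R (v2439 R) (s2439 R) :=
  B.not (VR.o2e R) (e2438 R)

noncomputable def v2440 (R : VR) : ℕ :=
  Nat.land (Nat.sub (VR.o2 R) (Nat.shiftRight (Nat.land (Nat.sub (VR.h2 R) (Nat.xor (Nat.mul
    (v2431 R) (VR.cr1 R)) (v2433 R))) (VR.h2 R)) (nat_lit 15))) (Nat.sub (VR.o2 R) (Nat.shiftRight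
    (Nat.land (Nat.sub (VR.h2 R) (Nat.xor (srM (VR.N R) (VR.S R) (VR.o1 R) (v2431 R)) (v2437 R)))
    (VR.h2 R)) (nat_lit 15)))

noncomputable def s2440 (R : VR) (j i : ℕ) : Bool :=
  K.band (s2435 R j i) (s2439 R j i)

theorem e2440 (R : VR) : B2 R (v2440 R) (s2440 R) :=
  B.and (e2435 R) (e2439 R)

noncomputable def s2441 (R : VR) (j i : ℕ) : Bool :=
  K.Cf_nco (VR.Cf R) (s2429 R i) (s2429 R j)

theorem e2441 (R : VR) : B2 R (v2440 R) (s2441 R) :=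
  e2440 R

noncomputable def v2442 (R : VR) : ℕ :=
  Nat.land (Nat.land (Nat.land (Nat.mul (v2424 R) (VR.cr1 R)) (srM (VR.N R) (VR.S R) (VR.o1 R)
    (v2424 R))) (v2280 R)) (Nat.land (Nat.sub (VR.o2 R) (Nat.shiftRight (Nat.land (Nat.sub (VR.h2
    R) (Nat.xor (Nat.mul (v2431 R) (VR.cr1 R)) (v2433 R))) (VR.h2 R)) (nat_lit 15))) (Nat.sub
    (VR.o2 R) (Nat.shiftRight (Nat.land (Nat.sub (VR.h2 R) (Nat.xor (srM (VR.N R) (VR.S R) (VR.o1
    R) (v2431 R)) (v2437 R))) (VR.h2 R)) (nat_lit 15))))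

noncomputable def s2442 (R : VR) (j i : ℕ) : Bool :=
  K.band (s2428 R j i) (s2441 R j i)

theorem e2442 (R : VR) : B2 R (v2442 R) (s2442 R) :=
  B.and (e2428 R) (e2441 R)

noncomputable def v2443 (R : VR) : ℕ :=
  Nat.mod (Nat.land (v2430 R) (v146 R)) (VR.m1 R)

noncomputable def s2443 (R : VR) (i : ℕ) : ℕ :=
  tx (VR.piT R) (s2429 R i)

theorem e2443 (R : VR) : L (VR.S R) (v2443 R) (s2443 R) 255 :=
  L.gat (e2429 R) (VR.pi_is R) (VR.pi_lt R) (VR.pi_le R)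

noncomputable def v2444 (R : VR) : ℕ :=
  Nat.shiftRight (Nat.land (Nat.sub (VR.h1 R) (Nat.xor (VR.iota R) (v2443 R))) (VR.h1 R)) (nat_lit
    15)

noncomputable def s2444 (R : VR) (i : ℕ) : Bool :=
  Nat.beq (s0 R i) (s2443 R i)

theorem e2444 (R : VR) : B (VR.S R) (v2444 R) (s2444 R) :=
  L.beq (VR.h1e R) (e0 R) (e2443 R)

noncomputable def v2445 (R : VR) : ℕ :=
  Nat.mul (v2444 R) (VR.cr1 R)

noncomputable def s2445 (R : VR) (j i : ℕ) : Bool :=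
  (s2444 R i)

theorem e2445 (R : VR) : B2 R (v2445 R) (s2445 R) :=
  B2.rep (e2444 R)

noncomputable def v2446 (R : VR) : ℕ :=
  srM (VR.N R) (VR.S R) (VR.o1 R) (v2444 R)

noncomputable def s2446 (R : VR) (j i : ℕ) : Bool :=
  (s2444 R j)

theorem e2446 (R : VR) : B2 R (v2446 R) (s2446 R) :=
  B2.row (e2444 R)

noncomputable def v2447 (R : VR) : ℕ :=
  Nat.land (Nat.mul (v2444 R) (VR.cr1 R)) (srM (VR.N R) (VR.S R) (VR.o1 R) (v2444 R))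

noncomputable def s2447 (R : VR) (j i : ℕ) : Bool :=
  K.band (s2445 R j i) (s2446 R j i)

theorem e2447 (R : VR) : B2 R (v2447 R) (s2447 R) :=
  B.and (e2445 R) (e2446 R)

noncomputable def v2448 (R : VR) : ℕ :=
  gmk (VR.h2 R) (VR.J R) (Nat.mul (v2431 R) (VR.cr1 R))

noncomputable def v2449 (R : VR) : ℕ :=
  Nat.mod (Nat.land (v2448 R) (v164 R)) (VR.m1 R)

noncomputable def s2449 (R : VR) (i : ℕ) : ℕ :=
  tx (VR.rhoT R) (s2431 R i)

theorem e2449 (R : VR) : L (VR.S R) (v2449 R) (s2449 R) 255 :=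
  L.gat (e2431 R) (VR.rho_is R) (VR.rho_lt R) (VR.rho_le R)

noncomputable def v2450 (R : VR) : ℕ :=
  Nat.mul (v2449 R) (VR.cr1 R)

noncomputable def s2450 (R : VR) (j i : ℕ) : ℕ :=
  (s2449 R i)

theorem e2450 (R : VR) : L2 R (v2450 R) (s2450 R) 255 :=
  L2.rep (e2449 R)

noncomputable def v2451 (R : VR) : ℕ :=
  Nat.shiftRight (Nat.land (Nat.sub (VR.h2 R) (Nat.xor (Nat.mul (v2449 R) (VR.cr1 R)) (v2433 R)))
    (VR.h2 R)) (nat_lit 15)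

noncomputable def s2451 (R : VR) (j i : ℕ) : Bool :=
  Nat.beq (s2450 R j i) (s2433 R j i)

theorem e2451 (R : VR) : B2 R (v2451 R) (s2451 R) :=
  L.beq (VR.h2e R) (e2450 R) (e2433 R)

noncomputable def v2452 (R : VR) : ℕ :=
  Nat.shiftRight (Nat.land (Nat.sub (VR.h1 R) (Nat.xor (VR.rhoT R) (v2443 R))) (VR.h1 R)) (nat_lit
    15)

noncomputable def s2452 (R : VR) (i : ℕ) : Bool :=
  Nat.beq (s158 R i) (s2443 R i)

theorem e2452 (R : VR) : B (VR.S R) (v2452 R) (s2452 R) :=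
  L.beq (VR.h1e R) (e158 R) (e2443 R)

noncomputable def v2453 (R : VR) : ℕ :=
  gmk (VR.h2 R) (VR.J R) (Nat.mul (v2443 R) (VR.cr1 R))

noncomputable def v2454 (R : VR) : ℕ :=
  Nat.mod (Nat.land (gmk (VR.h2 R) (VR.J R) (Nat.mul (v2443 R) (VR.cr1 R))) (v164 R)) (VR.m1 R)

noncomputable def s2454 (R : VR) (i : ℕ) : ℕ :=
  tx (VR.rhoT R) (s2443 R i)

theorem e2454 (R : VR) : L (VR.S R) (v2454 R) (s2454 R) 255 :=
  L.gat (e2443 R) (VR.rho_is R) (VR.rho_lt R) (VR.rho_le R)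

noncomputable def v2455 (R : VR) : ℕ :=
  Nat.shiftRight (Nat.land (Nat.sub (VR.h1 R) (Nat.xor (VR.iota R) (v2454 R))) (VR.h1 R)) (nat_lit
    15)

noncomputable def s2455 (R : VR) (i : ℕ) : Bool :=
  Nat.beq (s0 R i) (s2454 R i)

theorem e2455 (R : VR) : B (VR.S R) (v2455 R) (s2455 R) :=
  L.beq (VR.h1e R) (e0 R) (e2454 R)

noncomputable def v2456 (R : VR) : ℕ :=
  Nat.mul (v2452 R) (VR.cr1 R)

noncomputable def s2456 (R : VR) (j i : ℕ) : Bool :=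
  (s2452 R i)

theorem e2456 (R : VR) : B2 R (v2456 R) (s2456 R) :=
  B2.rep (e2452 R)

noncomputable def v2457 (R : VR) : ℕ :=
  srM (VR.N R) (VR.S R) (VR.o1 R) (v2455 R)

noncomputable def s2457 (R : VR) (j i : ℕ) : Bool :=
  (s2455 R j)

theorem e2457 (R : VR) : B2 R (v2457 R) (s2457 R) :=
  B2.row (e2455 R)

noncomputable def v2458 (R : VR) : ℕ :=
  Nat.land (Nat.mul (v2452 R) (VR.cr1 R)) (srM (VR.N R) (VR.S R) (VR.o1 R) (v2455 R))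

noncomputable def s2458 (R : VR) (j i : ℕ) : Bool :=
  K.band (s2456 R j i) (s2457 R j i)

theorem e2458 (R : VR) : B2 R (v2458 R) (s2458 R) :=
  B.and (e2456 R) (e2457 R)

noncomputable def v2459 (R : VR) : ℕ :=
  Nat.mod (Nat.land (v2448 R) (v2313 R)) (VR.m1 R)

noncomputable def s2459 (R : VR) (i : ℕ) : Bool :=
  tf (VR.BGXT R) (s2431 R i)

theorem e2459 (R : VR) : B (VR.S R) (v2459 R) (s2459 R) :=
  B.gat (e2431 R) (VR.BGX_is R) (VR.BGX_lt R)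

noncomputable def v2460 (R : VR) : ℕ :=
  Nat.sub (VR.o1 R) (Nat.mod (Nat.land (v2448 R) (v2313 R)) (VR.m1 R))

noncomputable def s2460 (R : VR) (i : ℕ) : Bool :=
  K.bnot (s2459 R i)

theorem e2460 (R : VR) : B (VR.S R) (v2460 R) (s2460 R) :=
  B.not (VR.o1e R) (e2459 R)

noncomputable def v2461 (R : VR) : ℕ :=
  Nat.land (VR.rlT R) (Nat.sub (VR.o1 R) (Nat.mod (Nat.land (v2448 R) (v2313 R)) (VR.m1 R)))

noncomputable def s2461 (R : VR) (i : ℕ) : Bool :=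
  K.band (s435 R i) (s2460 R i)

theorem e2461 (R : VR) : B (VR.S R) (v2461 R) (s2461 R) :=
  B.and (e435 R) (e2460 R)

noncomputable def v2462 (R : VR) : ℕ :=
  Nat.shiftRight (Nat.land (Nat.sub (VR.h1 R) (Nat.xor (v2317 R) (v2443 R))) (VR.h1 R)) (nat_lit
    15)

noncomputable def s2462 (R : VR) (i : ℕ) : Bool :=
  Nat.beq (s2317 R i) (s2443 R i)

theorem e2462 (R : VR) : B (VR.S R) (v2462 R) (s2462 R) :=
  L.beq (VR.h1e R) (e2317 R) (e2443 R)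

noncomputable def v2463 (R : VR) : ℕ :=
  Nat.land (Nat.land (VR.rlT R) (Nat.sub (VR.o1 R) (Nat.mod (Nat.land (v2448 R) (v2313 R)) (VR.m1
    R)))) (Nat.shiftRight (Nat.land (Nat.sub (VR.h1 R) (Nat.xor (v2317 R) (v2443 R))) (VR.h1 R))
    (nat_lit 15))

noncomputable def s2463 (R : VR) (i : ℕ) : Bool :=
  K.band (s2461 R i) (s2462 R i)

theorem e2463 (R : VR) : B (VR.S R) (v2463 R) (s2463 R) :=
  B.and (e2461 R) (e2462 R)

noncomputable def v2464 (R : VR) : ℕ :=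
  gmk (VR.h2 R) (VR.J R) (Nat.mul (v2454 R) (VR.cr1 R))

noncomputable def v2465 (R : VR) : ℕ :=
  Nat.mod (Nat.land (gmk (VR.h2 R) (VR.J R) (Nat.mul (v2454 R) (VR.cr1 R))) (v164 R)) (VR.m1 R)

noncomputable def s2465 (R : VR) (i : ℕ) : ℕ :=
  tx (VR.rhoT R) (s2454 R i)

theorem e2465 (R : VR) : L (VR.S R) (v2465 R) (s2465 R) 255 :=
  L.gat (e2454 R) (VR.rho_is R) (VR.rho_lt R) (VR.rho_le R)

noncomputable def v2466 (R : VR) : ℕ :=
  Nat.shiftRight (Nat.land (Nat.sub (VR.h1 R) (Nat.xor (VR.iota R) (Nat.mod (Nat.land (gmk (VR.h2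
    R) (VR.J R) (Nat.mul (v2454 R) (VR.cr1 R))) (v164 R)) (VR.m1 R)))) (VR.h1 R)) (nat_lit 15)

noncomputable def s2466 (R : VR) (i : ℕ) : Bool :=
  Nat.beq (s0 R i) (s2465 R i)

theorem e2466 (R : VR) : B (VR.S R) (v2466 R) (s2466 R) :=
  L.beq (VR.h1e R) (e0 R) (e2465 R)

noncomputable def v2467 (R : VR) : ℕ :=
  Nat.mul (v2463 R) (VR.cr1 R)

noncomputable def s2467 (R : VR) (j i : ℕ) : Bool :=
  (s2463 R i)

theorem e2467 (R : VR) : B2 R (v2467 R) (s2467 R) :=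
  B2.rep (e2463 R)

noncomputable def v2468 (R : VR) : ℕ :=
  srM (VR.N R) (VR.S R) (VR.o1 R) (v2466 R)

noncomputable def s2468 (R : VR) (j i : ℕ) : Bool :=
  (s2466 R j)

theorem e2468 (R : VR) : B2 R (v2468 R) (s2468 R) :=
  B2.row (e2466 R)

noncomputable def v2469 (R : VR) : ℕ :=
  Nat.land (Nat.mul (v2463 R) (VR.cr1 R)) (srM (VR.N R) (VR.S R) (VR.o1 R) (v2466 R))

noncomputable def s2469 (R : VR) (j i : ℕ) : Bool :=
  K.band (s2467 R j i) (s2468 R j i)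

theorem e2469 (R : VR) : B2 R (v2469 R) (s2469 R) :=
  B.and (e2467 R) (e2468 R)

noncomputable def v2470 (R : VR) : ℕ :=
  Nat.lor (Nat.land (Nat.mul (v2452 R) (VR.cr1 R)) (srM (VR.N R) (VR.S R) (VR.o1 R) (v2455 R)))
    (Nat.land (Nat.mul (v2463 R) (VR.cr1 R)) (srM (VR.N R) (VR.S R) (VR.o1 R) (v2466 R)))

noncomputable def s2470 (R : VR) (j i : ℕ) : Bool :=
  K.bor (s2458 R j i) (s2469 R j i)

theorem e2470 (R : VR) : B2 R (v2470 R) (s2470 R) :=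
  B.or (e2458 R) (e2469 R)

noncomputable def v2471 (R : VR) : ℕ :=
  Nat.land (Nat.shiftRight (Nat.land (Nat.sub (VR.h2 R) (Nat.xor (Nat.mul (v2449 R) (VR.cr1 R))
    (v2433 R))) (VR.h2 R)) (nat_lit 15)) (Nat.lor (Nat.land (Nat.mul (v2452 R) (VR.cr1 R)) (srM
    (VR.N R) (VR.S R) (VR.o1 R) (v2455 R))) (Nat.land (Nat.mul (v2463 R) (VR.cr1 R)) (srM (VR.N R)
    (VR.S R) (VR.o1 R) (v2466 R))))

noncomputable def s2471 (R : VR) (j i : ℕ) : Bool :=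
  K.band (s2451 R j i) (s2470 R j i)

theorem e2471 (R : VR) : B2 R (v2471 R) (s2471 R) :=
  B.and (e2451 R) (e2470 R)

noncomputable def s2472 (R : VR) (j i : ℕ) : Bool :=
  K.Cf_ex22 (VR.Cf R) (tf (VR.BGXT R)) (s2429 R i) (s2429 R j) i j

theorem e2472 (R : VR) : B2 R (v2471 R) (s2472 R) :=
  e2471 R

noncomputable def v2473 (R : VR) : ℕ :=
  Nat.lor (Nat.land (Nat.mul (v2444 R) (VR.cr1 R)) (srM (VR.N R) (VR.S R) (VR.o1 R) (v2444 R)))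
    (Nat.land (Nat.shiftRight (Nat.land (Nat.sub (VR.h2 R) (Nat.xor (Nat.mul (v2449 R) (VR.cr1 R))
    (v2433 R))) (VR.h2 R)) (nat_lit 15)) (Nat.lor (Nat.land (Nat.mul (v2452 R) (VR.cr1 R)) (srM
    (VR.N R) (VR.S R) (VR.o1 R) (v2455 R))) (Nat.land (Nat.mul (v2463 R) (VR.cr1 R)) (srM (VR.N R)
    (VR.S R) (VR.o1 R) (v2466 R)))))

noncomputable def s2473 (R : VR) (j i : ℕ) : Bool :=
  K.bor (s2447 R j i) (s2472 R j i)

theorem e2473 (R : VR) : B2 R (v2473 R) (s2473 R) :=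
  B.or (e2447 R) (e2472 R)

noncomputable def v2474 (R : VR) : ℕ :=
  srM (VR.N R) (VR.S R) (VR.o1 R) (v2449 R)

noncomputable def s2474 (R : VR) (j i : ℕ) : ℕ :=
  (s2449 R j)

theorem e2474 (R : VR) : L2 R (v2474 R) (s2474 R) 255 :=
  L2.row (e2449 R)

noncomputable def v2475 (R : VR) : ℕ :=
  Nat.shiftRight (Nat.land (Nat.sub (VR.h2 R) (Nat.xor (srM (VR.N R) (VR.S R) (VR.o1 R) (v2449 R))
    (v2437 R))) (VR.h2 R)) (nat_lit 15)

noncomputable def s2475 (R : VR) (j i : ℕ) : Bool :=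
  Nat.beq (s2474 R j i) (s2437 R j i)

theorem e2475 (R : VR) : B2 R (v2475 R) (s2475 R) :=
  L.beq (VR.h2e R) (e2474 R) (e2437 R)

noncomputable def v2476 (R : VR) : ℕ :=
  srM (VR.N R) (VR.S R) (VR.o1 R) (v2452 R)

noncomputable def s2476 (R : VR) (j i : ℕ) : Bool :=
  (s2452 R j)

theorem e2476 (R : VR) : B2 R (v2476 R) (s2476 R) :=
  B2.row (e2452 R)

noncomputable def v2477 (R : VR) : ℕ :=
  Nat.mul (v2455 R) (VR.cr1 R)

noncomputable def s2477 (R : VR) (j i : ℕ) : Bool :=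
  (s2455 R i)

theorem e2477 (R : VR) : B2 R (v2477 R) (s2477 R) :=
  B2.rep (e2455 R)

noncomputable def v2478 (R : VR) : ℕ :=
  Nat.land (srM (VR.N R) (VR.S R) (VR.o1 R) (v2452 R)) (Nat.mul (v2455 R) (VR.cr1 R))

noncomputable def s2478 (R : VR) (j i : ℕ) : Bool :=
  K.band (s2476 R j i) (s2477 R j i)

theorem e2478 (R : VR) : B2 R (v2478 R) (s2478 R) :=
  B.and (e2476 R) (e2477 R)

noncomputable def v2479 (R : VR) : ℕ :=
  srM (VR.N R) (VR.S R) (VR.o1 R) (v2463 R)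

noncomputable def s2479 (R : VR) (j i : ℕ) : Bool :=
  (s2463 R j)

theorem e2479 (R : VR) : B2 R (v2479 R) (s2479 R) :=
  B2.row (e2463 R)

noncomputable def v2480 (R : VR) : ℕ :=
  Nat.mul (v2466 R) (VR.cr1 R)

noncomputable def s2480 (R : VR) (j i : ℕ) : Bool :=
  (s2466 R i)

theorem e2480 (R : VR) : B2 R (v2480 R) (s2480 R) :=
  B2.rep (e2466 R)

noncomputable def v2481 (R : VR) : ℕ :=
  Nat.land (srM (VR.N R) (VR.S R) (VR.o1 R) (v2463 R)) (Nat.mul (v2466 R) (VR.cr1 R))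

noncomputable def s2481 (R : VR) (j i : ℕ) : Bool :=
  K.band (s2479 R j i) (s2480 R j i)

theorem e2481 (R : VR) : B2 R (v2481 R) (s2481 R) :=
  B.and (e2479 R) (e2480 R)

noncomputable def v2482 (R : VR) : ℕ :=
  Nat.lor (Nat.land (srM (VR.N R) (VR.S R) (VR.o1 R) (v2452 R)) (Nat.mul (v2455 R) (VR.cr1 R)))
    (Nat.land (srM (VR.N R) (VR.S R) (VR.o1 R) (v2463 R)) (Nat.mul (v2466 R) (VR.cr1 R)))

noncomputable def s2482 (R : VR) (j i : ℕ) : Bool :=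
  K.bor (s2478 R j i) (s2481 R j i)

theorem e2482 (R : VR) : B2 R (v2482 R) (s2482 R) :=
  B.or (e2478 R) (e2481 R)

noncomputable def v2483 (R : VR) : ℕ :=
  Nat.land (Nat.shiftRight (Nat.land (Nat.sub (VR.h2 R) (Nat.xor (srM (VR.N R) (VR.S R) (VR.o1 R)
    (v2449 R)) (v2437 R))) (VR.h2 R)) (nat_lit 15)) (Nat.lor (Nat.land (srM (VR.N R) (VR.S R)
    (VR.o1 R) (v2452 R)) (Nat.mul (v2455 R) (VR.cr1 R))) (Nat.land (srM (VR.N R) (VR.S R) (VR.o1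
    R) (v2463 R)) (Nat.mul (v2466 R) (VR.cr1 R))))

noncomputable def s2483 (R : VR) (j i : ℕ) : Bool :=
  K.band (s2475 R j i) (s2482 R j i)

theorem e2483 (R : VR) : B2 R (v2483 R) (s2483 R) :=
  B.and (e2475 R) (e2482 R)

noncomputable def s2484 (R : VR) (j i : ℕ) : Bool :=
  K.Cf_ex22 (VR.Cf R) (tf (VR.BGXT R)) (s2429 R j) (s2429 R i) j i

theorem e2484 (R : VR) : B2 R (v2483 R) (s2484 R) :=
  e2483 R

noncomputable def v2485 (R : VR) : ℕ :=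
  Nat.lor (v2473 R) (Nat.land (Nat.shiftRight (Nat.land (Nat.sub (VR.h2 R) (Nat.xor (srM (VR.N R)
    (VR.S R) (VR.o1 R) (v2449 R)) (v2437 R))) (VR.h2 R)) (nat_lit 15)) (Nat.lor (Nat.land (srM
    (VR.N R) (VR.S R) (VR.o1 R) (v2452 R)) (Nat.mul (v2455 R) (VR.cr1 R))) (Nat.land (srM (VR.N R)
    (VR.S R) (VR.o1 R) (v2463 R)) (Nat.mul (v2466 R) (VR.cr1 R)))))

noncomputable def s2485 (R : VR) (j i : ℕ) : Bool :=
  K.bor (s2473 R j i) (s2484 R j i)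

theorem e2485 (R : VR) : B2 R (v2485 R) (s2485 R) :=
  B.or (e2473 R) (e2484 R)

noncomputable def s2486 (R : VR) (j i : ℕ) : Bool :=
  K.Cf_exc (VR.Cf R) (tf (VR.BGXT R)) (s2429 R i) (s2429 R j) i j

theorem e2486 (R : VR) : B2 R (v2485 R) (s2486 R) :=
  e2485 R

noncomputable def v2487 (R : VR) : ℕ :=
  Nat.sub (VR.o2 R) (Nat.lor (v2473 R) (Nat.land (Nat.shiftRight (Nat.land (Nat.sub (VR.h2 R)
    (Nat.xor (srM (VR.N R) (VR.S R) (VR.o1 R) (v2449 R)) (v2437 R))) (VR.h2 R)) (nat_lit 15))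
    (Nat.lor (Nat.land (srM (VR.N R) (VR.S R) (VR.o1 R) (v2452 R)) (Nat.mul (v2455 R) (VR.cr1 R)))
    (Nat.land (srM (VR.N R) (VR.S R) (VR.o1 R) (v2463 R)) (Nat.mul (v2466 R) (VR.cr1 R))))))

noncomputable def s2487 (R : VR) (j i : ℕ) : Bool :=
  K.bnot (s2486 R j i)

theorem e2487 (R : VR) : B2 R (v2487 R) (s2487 R) :=
  B.not (VR.o2e R) (e2486 R)

noncomputable def v2488 (R : VR) : ℕ :=
  Nat.land (v2442 R) (Nat.sub (VR.o2 R) (Nat.lor (v2473 R) (Nat.land (Nat.shiftRight (Nat.land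
    (Nat.sub (VR.h2 R) (Nat.xor (srM (VR.N R) (VR.S R) (VR.o1 R) (v2449 R)) (v2437 R))) (VR.h2 R))
    (nat_lit 15)) (Nat.lor (Nat.land (srM (VR.N R) (VR.S R) (VR.o1 R) (v2452 R)) (Nat.mul (v2455
    R) (VR.cr1 R))) (Nat.land (srM (VR.N R) (VR.S R) (VR.o1 R) (v2463 R)) (Nat.mul (v2466 R)
    (VR.cr1 R)))))))

noncomputable def s2488 (R : VR) (j i : ℕ) : Bool :=
  K.band (s2442 R j i) (s2487 R j i)

theorem e2488 (R : VR) : B2 R (v2488 R) (s2488 R) :=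
  B.and (e2442 R) (e2487 R)

noncomputable def v2489 (R : VR) : ℕ :=
  Bool.rec (motive := fun _ => ℕ) (nat_lit 0) (Nat.land (v2442 R) (Nat.sub (VR.o2 R) (Nat.lor
    (v2473 R) (Nat.land (Nat.shiftRight (Nat.land (Nat.sub (VR.h2 R) (Nat.xor (srM (VR.N R) (VR.S
    R) (VR.o1 R) (v2449 R)) (v2437 R))) (VR.h2 R)) (nat_lit 15)) (Nat.lor (Nat.land (srM (VR.N R)
    (VR.S R) (VR.o1 R) (v2452 R)) (Nat.mul (v2455 R) (VR.cr1 R))) (Nat.land (srM (VR.N R) (VR.S R)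
    (VR.o1 R) (v2463 R)) (Nat.mul (v2466 R) (VR.cr1 R)))))))) (v2031 R)

noncomputable def s2489 (R : VR) (j i : ℕ) : Bool :=
  K.band (s2031 R) (s2488 R j i)

theorem e2489 (R : VR) : B2 R (v2489 R) (s2489 R) :=
  B.gand (e2031 R) (e2488 R)

noncomputable def v2490 (R : VR) : ℕ :=
  Nat.mul (v1936 R) (v242 R)

noncomputable def s2490 (R : VR) : ℕ :=
  Nat.mul (s1936 R) (s242 R)

theorem e2490 (R : VR) : (v2490 R) = s2490 R :=
  congrArg₂ Nat.mul (e1936 R) (e242 R)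

theorem b2490 (R : VR) : s2490 R ≤ 30 :=
  Nat.mul_le_mul (b1936 R) (le_of_eq (rfl : s242 R = (nat_lit 3)))

noncomputable def v2491 (R : VR) : ℕ :=
  Nat.mul (VR.o1 R) (Nat.mul (v1936 R) (v242 R))

noncomputable def s2491 (R : VR) (i : ℕ) : ℕ :=
  (s2490 R)

theorem e2491 (R : VR) : L (VR.S R) (v2491 R) (s2491 R) 30 :=
  L.scl (VR.o1e R) (e2490 R) (b2490 R) (by decide)

noncomputable def v2492 (R : VR) : ℕ :=
  Nat.add (Nat.mul (VR.o1 R) (Nat.mul (v1936 R) (v242 R))) (VR.caT R)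

noncomputable def s2492 (R : VR) (i : ℕ) : ℕ :=
  Nat.add (s2491 R i) (s127 R i)

theorem e2492 (R : VR) : L (VR.S R) (v2492 R) (s2492 R) 285 :=
  L.add (e2491 R) (e127 R) (by decide)

noncomputable def v2493 (R : VR) : ℕ :=
  gmk (VR.h2 R) (VR.J R) (Nat.mul (Nat.add (Nat.mul (VR.o1 R) (Nat.mul (v1936 R) (v242 R)))
    (VR.caT R)) (VR.cr1 R))

noncomputable def v2494 (R : VR) : ℕ :=
  Nat.mod (Nat.land (gmk (VR.h2 R) (VR.J R) (Nat.mul (Nat.add (Nat.mul (VR.o1 R) (Nat.mul (v1936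
    R) (v242 R))) (VR.caT R)) (VR.cr1 R))) (v1941 R)) (VR.m1 R)

noncomputable def s2494 (R : VR) (i : ℕ) : ℕ :=
  tx (VR.adT R) (s2492 R i)

theorem e2494 (R : VR) : L (VR.S R) (v2494 R) (s2494 R) 255 :=
  L.gat (e2492 R) (VR.ad_is R) (VR.ad_lt R) (VR.ad_le R)

noncomputable def v2495 (R : VR) : ℕ :=
  Nat.shiftRight (Nat.land (Nat.sub (VR.h1 R) (v2494 R)) (VR.h1 R)) (nat_lit 15)

noncomputable def s2495 (R : VR) (i : ℕ) : Bool :=
  Nat.beq (s2494 R i) (nat_lit 0)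

theorem e2495 (R : VR) : B (VR.S R) (v2495 R) (s2495 R) :=
  L.ez (VR.h1e R) (e2494 R)

noncomputable def v2496 (R : VR) : ℕ :=
  Nat.shiftRight (Nat.land (Nat.add (v2494 R) (VR.k1 R)) (VR.h1 R)) (nat_lit 15)

noncomputable def s2496 (R : VR) (i : ℕ) : Bool :=
  K.bnot (Nat.beq (s2494 R i) (nat_lit 0))

theorem e2496 (R : VR) : B (VR.S R) (v2496 R) (s2496 R) :=
  L.nz (VR.h1e R) (VR.k1e R) (e2494 R)

noncomputable def v2497 (R : VR) : ℕ :=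
  Nat.mul (v2496 R) (VR.cr1 R)

noncomputable def s2497 (R : VR) (j i : ℕ) : Bool :=
  (s2496 R i)

theorem e2497 (R : VR) : B2 R (v2497 R) (s2497 R) :=
  B2.rep (e2496 R)

noncomputable def v2498 (R : VR) : ℕ :=
  srM (VR.N R) (VR.S R) (VR.o1 R) (v2496 R)

noncomputable def s2498 (R : VR) (j i : ℕ) : Bool :=
  (s2496 R j)

theorem e2498 (R : VR) : B2 R (v2498 R) (s2498 R) :=
  B2.row (e2496 R)

noncomputable def v2499 (R : VR) : ℕ :=
  Nat.land (Nat.mul (v2496 R) (VR.cr1 R)) (srM (VR.N R) (VR.S R) (VR.o1 R) (v2496 R))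

noncomputable def s2499 (R : VR) (j i : ℕ) : Bool :=
  K.band (s2497 R j i) (s2498 R j i)

theorem e2499 (R : VR) : B2 R (v2499 R) (s2499 R) :=
  B.and (e2497 R) (e2498 R)

noncomputable def v2500 (R : VR) : ℕ :=
  Nat.land (Nat.land (Nat.mul (v2496 R) (VR.cr1 R)) (srM (VR.N R) (VR.S R) (VR.o1 R) (v2496 R)))
    (v2280 R)

noncomputable def s2500 (R : VR) (j i : ℕ) : Bool :=
  K.band (s2499 R j i) (s2280 R j i)

theorem e2500 (R : VR) : B2 R (v2500 R) (s2500 R) :=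
  B.and (e2499 R) (e2280 R)

noncomputable def v2501 (R : VR) : ℕ :=
  Vc.ssub (VR.h1 R) (v2494 R) (v267 R)

noncomputable def s2501 (R : VR) (i : ℕ) : ℕ :=
  Nat.sub (s2494 R i) (s267 R i)

theorem e2501 (R : VR) : L (VR.S R) (v2501 R) (s2501 R) 255 :=
  L.sub (VR.h1e R) (e2494 R) (e267 R)

noncomputable def v2502 (R : VR) : ℕ :=
  gmk (VR.h2 R) (VR.J R) (Nat.mul (v2501 R) (VR.cr1 R))

noncomputable def v2503 (R : VR) : ℕ :=
  Nat.mod (Nat.land (v2502 R) (v164 R)) (VR.m1 R)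

noncomputable def s2503 (R : VR) (i : ℕ) : ℕ :=
  tx (VR.rhoT R) (s2501 R i)

theorem e2503 (R : VR) : L (VR.S R) (v2503 R) (s2503 R) 255 :=
  L.gat (e2501 R) (VR.rho_is R) (VR.rho_lt R) (VR.rho_le R)

noncomputable def v2504 (R : VR) : ℕ :=
  Nat.mul (v2503 R) (VR.cr1 R)

noncomputable def s2504 (R : VR) (j i : ℕ) : ℕ :=
  (s2503 R i)

theorem e2504 (R : VR) : L2 R (v2504 R) (s2504 R) 255 :=
  L2.rep (e2503 R)

noncomputable def v2505 (R : VR) : ℕ :=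
  srM (VR.N R) (VR.S R) (VR.o1 R) (v2501 R)

noncomputable def s2505 (R : VR) (j i : ℕ) : ℕ :=
  (s2501 R j)

theorem e2505 (R : VR) : L2 R (v2505 R) (s2505 R) 255 :=
  L2.row (e2501 R)

noncomputable def v2506 (R : VR) : ℕ :=
  Nat.shiftRight (Nat.land (Nat.sub (VR.h2 R) (Nat.xor (Nat.mul (v2503 R) (VR.cr1 R)) (v2505 R)))
    (VR.h2 R)) (nat_lit 15)

noncomputable def s2506 (R : VR) (j i : ℕ) : Bool :=
  Nat.beq (s2504 R j i) (s2505 R j i)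

theorem e2506 (R : VR) : B2 R (v2506 R) (s2506 R) :=
  L.beq (VR.h2e R) (e2504 R) (e2505 R)

noncomputable def v2507 (R : VR) : ℕ :=
  Nat.sub (VR.o2 R) (Nat.shiftRight (Nat.land (Nat.sub (VR.h2 R) (Nat.xor (Nat.mul (v2503 R)
    (VR.cr1 R)) (v2505 R))) (VR.h2 R)) (nat_lit 15))

noncomputable def s2507 (R : VR) (j i : ℕ) : Bool :=
  K.bnot (s2506 R j i)

theorem e2507 (R : VR) : B2 R (v2507 R) (s2507 R) :=
  B.not (VR.o2e R) (e2506 R)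

noncomputable def v2508 (R : VR) : ℕ :=
  srM (VR.N R) (VR.S R) (VR.o1 R) (v2503 R)

noncomputable def s2508 (R : VR) (j i : ℕ) : ℕ :=
  (s2503 R j)

theorem e2508 (R : VR) : L2 R (v2508 R) (s2508 R) 255 :=
  L2.row (e2503 R)

noncomputable def v2509 (R : VR) : ℕ :=
  Nat.mul (v2501 R) (VR.cr1 R)

noncomputable def s2509 (R : VR) (j i : ℕ) : ℕ :=
  (s2501 R i)

theorem e2509 (R : VR) : L2 R (v2509 R) (s2509 R) 255 :=
  L2.rep (e2501 R)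

noncomputable def v2510 (R : VR) : ℕ :=
  Nat.shiftRight (Nat.land (Nat.sub (VR.h2 R) (Nat.xor (srM (VR.N R) (VR.S R) (VR.o1 R) (v2503 R))
    (v2509 R))) (VR.h2 R)) (nat_lit 15)

noncomputable def s2510 (R : VR) (j i : ℕ) : Bool :=
  Nat.beq (s2508 R j i) (s2509 R j i)

theorem e2510 (R : VR) : B2 R (v2510 R) (s2510 R) :=
  L.beq (VR.h2e R) (e2508 R) (e2509 R)

noncomputable def v2511 (R : VR) : ℕ :=
  Nat.sub (VR.o2 R) (Nat.shiftRight (Nat.land (Nat.sub (VR.h2 R) (Nat.xor (srM (VR.N R) (VR.S R)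
    (VR.o1 R) (v2503 R)) (v2509 R))) (VR.h2 R)) (nat_lit 15))

noncomputable def s2511 (R : VR) (j i : ℕ) : Bool :=
  K.bnot (s2510 R j i)

theorem e2511 (R : VR) : B2 R (v2511 R) (s2511 R) :=
  B.not (VR.o2e R) (e2510 R)

noncomputable def v2512 (R : VR) : ℕ :=
  Nat.land (Nat.sub (VR.o2 R) (Nat.shiftRight (Nat.land (Nat.sub (VR.h2 R) (Nat.xor (Nat.mul
    (v2503 R) (VR.cr1 R)) (v2505 R))) (VR.h2 R)) (nat_lit 15))) (Nat.sub (VR.o2 R) (Nat.shiftRight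
    (Nat.land (Nat.sub (VR.h2 R) (Nat.xor (srM (VR.N R) (VR.S R) (VR.o1 R) (v2503 R)) (v2509 R)))
    (VR.h2 R)) (nat_lit 15)))

noncomputable def s2512 (R : VR) (j i : ℕ) : Bool :=
  K.band (s2507 R j i) (s2511 R j i)

theorem e2512 (R : VR) : B2 R (v2512 R) (s2512 R) :=
  B.and (e2507 R) (e2511 R)

noncomputable def s2513 (R : VR) (j i : ℕ) : Bool :=
  K.Cf_nco (VR.Cf R) (s2501 R i) (s2501 R j)

theorem e2513 (R : VR) : B2 R (v2512 R) (s2513 R) :=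
  e2512 R

noncomputable def v2514 (R : VR) : ℕ :=
  Nat.land (Nat.land (Nat.land (Nat.mul (v2496 R) (VR.cr1 R)) (srM (VR.N R) (VR.S R) (VR.o1 R)
    (v2496 R))) (v2280 R)) (Nat.land (Nat.sub (VR.o2 R) (Nat.shiftRight (Nat.land (Nat.sub (VR.h2
    R) (Nat.xor (Nat.mul (v2503 R) (VR.cr1 R)) (v2505 R))) (VR.h2 R)) (nat_lit 15))) (Nat.sub
    (VR.o2 R) (Nat.shiftRight (Nat.land (Nat.sub (VR.h2 R) (Nat.xor (srM (VR.N R) (VR.S R) (VR.o1
    R) (v2503 R)) (v2509 R))) (VR.h2 R)) (nat_lit 15))))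

noncomputable def s2514 (R : VR) (j i : ℕ) : Bool :=
  K.band (s2500 R j i) (s2513 R j i)

theorem e2514 (R : VR) : B2 R (v2514 R) (s2514 R) :=
  B.and (e2500 R) (e2513 R)

noncomputable def v2515 (R : VR) : ℕ :=
  Nat.mod (Nat.land (v2502 R) (v146 R)) (VR.m1 R)

noncomputable def s2515 (R : VR) (i : ℕ) : ℕ :=
  tx (VR.piT R) (s2501 R i)

theorem e2515 (R : VR) : L (VR.S R) (v2515 R) (s2515 R) 255 :=
  L.gat (e2501 R) (VR.pi_is R) (VR.pi_lt R) (VR.pi_le R)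

noncomputable def v2516 (R : VR) : ℕ :=
  Nat.shiftRight (Nat.land (Nat.sub (VR.h1 R) (Nat.xor (VR.iota R) (v2515 R))) (VR.h1 R)) (nat_lit
    15)

noncomputable def s2516 (R : VR) (i : ℕ) : Bool :=
  Nat.beq (s0 R i) (s2515 R i)

theorem e2516 (R : VR) : B (VR.S R) (v2516 R) (s2516 R) :=
  L.beq (VR.h1e R) (e0 R) (e2515 R)

noncomputable def v2517 (R : VR) : ℕ :=
  Nat.mul (v2516 R) (VR.cr1 R)

noncomputable def s2517 (R : VR) (j i : ℕ) : Bool :=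
  (s2516 R i)

theorem e2517 (R : VR) : B2 R (v2517 R) (s2517 R) :=
  B2.rep (e2516 R)

noncomputable def v2518 (R : VR) : ℕ :=
  srM (VR.N R) (VR.S R) (VR.o1 R) (v2516 R)

noncomputable def s2518 (R : VR) (j i : ℕ) : Bool :=
  (s2516 R j)

theorem e2518 (R : VR) : B2 R (v2518 R) (s2518 R) :=
  B2.row (e2516 R)

noncomputable def v2519 (R : VR) : ℕ :=
  Nat.land (Nat.mul (v2516 R) (VR.cr1 R)) (srM (VR.N R) (VR.S R) (VR.o1 R) (v2516 R))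

noncomputable def s2519 (R : VR) (j i : ℕ) : Bool :=
  K.band (s2517 R j i) (s2518 R j i)

theorem e2519 (R : VR) : B2 R (v2519 R) (s2519 R) :=
  B.and (e2517 R) (e2518 R)

noncomputable def v2520 (R : VR) : ℕ :=
  gmk (VR.h2 R) (VR.J R) (Nat.mul (v2503 R) (VR.cr1 R))

noncomputable def v2521 (R : VR) : ℕ :=
  Nat.mod (Nat.land (v2520 R) (v164 R)) (VR.m1 R)

noncomputable def s2521 (R : VR) (i : ℕ) : ℕ :=
  tx (VR.rhoT R) (s2503 R i)

theorem e2521 (R : VR) : L (VR.S R) (v2521 R) (s2521 R) 255 :=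
  L.gat (e2503 R) (VR.rho_is R) (VR.rho_lt R) (VR.rho_le R)

noncomputable def v2522 (R : VR) : ℕ :=
  Nat.mul (v2521 R) (VR.cr1 R)

noncomputable def s2522 (R : VR) (j i : ℕ) : ℕ :=
  (s2521 R i)

theorem e2522 (R : VR) : L2 R (v2522 R) (s2522 R) 255 :=
  L2.rep (e2521 R)

noncomputable def v2523 (R : VR) : ℕ :=
  Nat.shiftRight (Nat.land (Nat.sub (VR.h2 R) (Nat.xor (Nat.mul (v2521 R) (VR.cr1 R)) (v2505 R)))
    (VR.h2 R)) (nat_lit 15)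

noncomputable def s2523 (R : VR) (j i : ℕ) : Bool :=
  Nat.beq (s2522 R j i) (s2505 R j i)

theorem e2523 (R : VR) : B2 R (v2523 R) (s2523 R) :=
  L.beq (VR.h2e R) (e2522 R) (e2505 R)

noncomputable def v2524 (R : VR) : ℕ :=
  Nat.shiftRight (Nat.land (Nat.sub (VR.h1 R) (Nat.xor (VR.rhoT R) (v2515 R))) (VR.h1 R)) (nat_lit
    15)

noncomputable def s2524 (R : VR) (i : ℕ) : Bool :=
  Nat.beq (s158 R i) (s2515 R i)

theorem e2524 (R : VR) : B (VR.S R) (v2524 R) (s2524 R) :=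
  L.beq (VR.h1e R) (e158 R) (e2515 R)

noncomputable def v2525 (R : VR) : ℕ :=
  gmk (VR.h2 R) (VR.J R) (Nat.mul (v2515 R) (VR.cr1 R))

noncomputable def v2526 (R : VR) : ℕ :=
  Nat.mod (Nat.land (gmk (VR.h2 R) (VR.J R) (Nat.mul (v2515 R) (VR.cr1 R))) (v164 R)) (VR.m1 R)

noncomputable def s2526 (R : VR) (i : ℕ) : ℕ :=
  tx (VR.rhoT R) (s2515 R i)

theorem e2526 (R : VR) : L (VR.S R) (v2526 R) (s2526 R) 255 :=
  L.gat (e2515 R) (VR.rho_is R) (VR.rho_lt R) (VR.rho_le R)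

noncomputable def v2527 (R : VR) : ℕ :=
  Nat.shiftRight (Nat.land (Nat.sub (VR.h1 R) (Nat.xor (VR.iota R) (v2526 R))) (VR.h1 R)) (nat_lit
    15)

noncomputable def s2527 (R : VR) (i : ℕ) : Bool :=
  Nat.beq (s0 R i) (s2526 R i)

theorem e2527 (R : VR) : B (VR.S R) (v2527 R) (s2527 R) :=
  L.beq (VR.h1e R) (e0 R) (e2526 R)

noncomputable def v2528 (R : VR) : ℕ :=
  Nat.mul (v2524 R) (VR.cr1 R)

noncomputable def s2528 (R : VR) (j i : ℕ) : Bool :=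
  (s2524 R i)

theorem e2528 (R : VR) : B2 R (v2528 R) (s2528 R) :=
  B2.rep (e2524 R)

noncomputable def v2529 (R : VR) : ℕ :=
  srM (VR.N R) (VR.S R) (VR.o1 R) (v2527 R)

noncomputable def s2529 (R : VR) (j i : ℕ) : Bool :=
  (s2527 R j)

theorem e2529 (R : VR) : B2 R (v2529 R) (s2529 R) :=
  B2.row (e2527 R)

noncomputable def v2530 (R : VR) : ℕ :=
  Nat.land (Nat.mul (v2524 R) (VR.cr1 R)) (srM (VR.N R) (VR.S R) (VR.o1 R) (v2527 R))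

noncomputable def s2530 (R : VR) (j i : ℕ) : Bool :=
  K.band (s2528 R j i) (s2529 R j i)

theorem e2530 (R : VR) : B2 R (v2530 R) (s2530 R) :=
  B.and (e2528 R) (e2529 R)

noncomputable def v2531 (R : VR) : ℕ :=
  Nat.mod (Nat.land (v2520 R) (v2313 R)) (VR.m1 R)

noncomputable def s2531 (R : VR) (i : ℕ) : Bool :=
  tf (VR.BGXT R) (s2503 R i)

theorem e2531 (R : VR) : B (VR.S R) (v2531 R) (s2531 R) :=
  B.gat (e2503 R) (VR.BGX_is R) (VR.BGX_lt R)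

noncomputable def v2532 (R : VR) : ℕ :=
  Nat.sub (VR.o1 R) (Nat.mod (Nat.land (v2520 R) (v2313 R)) (VR.m1 R))

noncomputable def s2532 (R : VR) (i : ℕ) : Bool :=
  K.bnot (s2531 R i)

theorem e2532 (R : VR) : B (VR.S R) (v2532 R) (s2532 R) :=
  B.not (VR.o1e R) (e2531 R)

noncomputable def v2533 (R : VR) : ℕ :=
  Nat.land (VR.rlT R) (Nat.sub (VR.o1 R) (Nat.mod (Nat.land (v2520 R) (v2313 R)) (VR.m1 R)))

noncomputable def s2533 (R : VR) (i : ℕ) : Bool :=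
  K.band (s435 R i) (s2532 R i)

theorem e2533 (R : VR) : B (VR.S R) (v2533 R) (s2533 R) :=
  B.and (e435 R) (e2532 R)

noncomputable def v2534 (R : VR) : ℕ :=
  Nat.shiftRight (Nat.land (Nat.sub (VR.h1 R) (Nat.xor (v2317 R) (v2515 R))) (VR.h1 R)) (nat_lit
    15)

noncomputable def s2534 (R : VR) (i : ℕ) : Bool :=
  Nat.beq (s2317 R i) (s2515 R i)

theorem e2534 (R : VR) : B (VR.S R) (v2534 R) (s2534 R) :=
  L.beq (VR.h1e R) (e2317 R) (e2515 R)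

noncomputable def v2535 (R : VR) : ℕ :=
  Nat.land (Nat.land (VR.rlT R) (Nat.sub (VR.o1 R) (Nat.mod (Nat.land (v2520 R) (v2313 R)) (VR.m1
    R)))) (Nat.shiftRight (Nat.land (Nat.sub (VR.h1 R) (Nat.xor (v2317 R) (v2515 R))) (VR.h1 R))
    (nat_lit 15))

noncomputable def s2535 (R : VR) (i : ℕ) : Bool :=
  K.band (s2533 R i) (s2534 R i)

theorem e2535 (R : VR) : B (VR.S R) (v2535 R) (s2535 R) :=
  B.and (e2533 R) (e2534 R)

noncomputable def v2536 (R : VR) : ℕ :=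
  gmk (VR.h2 R) (VR.J R) (Nat.mul (v2526 R) (VR.cr1 R))

noncomputable def v2537 (R : VR) : ℕ :=
  Nat.mod (Nat.land (gmk (VR.h2 R) (VR.J R) (Nat.mul (v2526 R) (VR.cr1 R))) (v164 R)) (VR.m1 R)

noncomputable def s2537 (R : VR) (i : ℕ) : ℕ :=
  tx (VR.rhoT R) (s2526 R i)

theorem e2537 (R : VR) : L (VR.S R) (v2537 R) (s2537 R) 255 :=
  L.gat (e2526 R) (VR.rho_is R) (VR.rho_lt R) (VR.rho_le R)

noncomputable def v2538 (R : VR) : ℕ :=
  Nat.shiftRight (Nat.land (Nat.sub (VR.h1 R) (Nat.xor (VR.iota R) (Nat.mod (Nat.land (gmk (VR.h2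
    R) (VR.J R) (Nat.mul (v2526 R) (VR.cr1 R))) (v164 R)) (VR.m1 R)))) (VR.h1 R)) (nat_lit 15)

noncomputable def s2538 (R : VR) (i : ℕ) : Bool :=
  Nat.beq (s0 R i) (s2537 R i)

theorem e2538 (R : VR) : B (VR.S R) (v2538 R) (s2538 R) :=
  L.beq (VR.h1e R) (e0 R) (e2537 R)

noncomputable def v2539 (R : VR) : ℕ :=
  Nat.mul (v2535 R) (VR.cr1 R)

noncomputable def s2539 (R : VR) (j i : ℕ) : Bool :=
  (s2535 R i)

theorem e2539 (R : VR) : B2 R (v2539 R) (s2539 R) :=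
  B2.rep (e2535 R)

noncomputable def v2540 (R : VR) : ℕ :=
  srM (VR.N R) (VR.S R) (VR.o1 R) (v2538 R)

noncomputable def s2540 (R : VR) (j i : ℕ) : Bool :=
  (s2538 R j)

theorem e2540 (R : VR) : B2 R (v2540 R) (s2540 R) :=
  B2.row (e2538 R)

noncomputable def v2541 (R : VR) : ℕ :=
  Nat.land (Nat.mul (v2535 R) (VR.cr1 R)) (srM (VR.N R) (VR.S R) (VR.o1 R) (v2538 R))

noncomputable def s2541 (R : VR) (j i : ℕ) : Bool :=
  K.band (s2539 R j i) (s2540 R j i)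

theorem e2541 (R : VR) : B2 R (v2541 R) (s2541 R) :=
  B.and (e2539 R) (e2540 R)

noncomputable def v2542 (R : VR) : ℕ :=
  Nat.lor (Nat.land (Nat.mul (v2524 R) (VR.cr1 R)) (srM (VR.N R) (VR.S R) (VR.o1 R) (v2527 R)))
    (Nat.land (Nat.mul (v2535 R) (VR.cr1 R)) (srM (VR.N R) (VR.S R) (VR.o1 R) (v2538 R)))

noncomputable def s2542 (R : VR) (j i : ℕ) : Bool :=
  K.bor (s2530 R j i) (s2541 R j i)

theorem e2542 (R : VR) : B2 R (v2542 R) (s2542 R) :=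
  B.or (e2530 R) (e2541 R)

noncomputable def v2543 (R : VR) : ℕ :=
  Nat.land (Nat.shiftRight (Nat.land (Nat.sub (VR.h2 R) (Nat.xor (Nat.mul (v2521 R) (VR.cr1 R))
    (v2505 R))) (VR.h2 R)) (nat_lit 15)) (Nat.lor (Nat.land (Nat.mul (v2524 R) (VR.cr1 R)) (srM
    (VR.N R) (VR.S R) (VR.o1 R) (v2527 R))) (Nat.land (Nat.mul (v2535 R) (VR.cr1 R)) (srM (VR.N R)
    (VR.S R) (VR.o1 R) (v2538 R))))

noncomputable def s2543 (R : VR) (j i : ℕ) : Bool :=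
  K.band (s2523 R j i) (s2542 R j i)

theorem e2543 (R : VR) : B2 R (v2543 R) (s2543 R) :=
  B.and (e2523 R) (e2542 R)

noncomputable def s2544 (R : VR) (j i : ℕ) : Bool :=
  K.Cf_ex22 (VR.Cf R) (tf (VR.BGXT R)) (s2501 R i) (s2501 R j) i j

theorem e2544 (R : VR) : B2 R (v2543 R) (s2544 R) :=
  e2543 R

noncomputable def v2545 (R : VR) : ℕ :=
  Nat.lor (Nat.land (Nat.mul (v2516 R) (VR.cr1 R)) (srM (VR.N R) (VR.S R) (VR.o1 R) (v2516 R)))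
    (Nat.land (Nat.shiftRight (Nat.land (Nat.sub (VR.h2 R) (Nat.xor (Nat.mul (v2521 R) (VR.cr1 R))
    (v2505 R))) (VR.h2 R)) (nat_lit 15)) (Nat.lor (Nat.land (Nat.mul (v2524 R) (VR.cr1 R)) (srM
    (VR.N R) (VR.S R) (VR.o1 R) (v2527 R))) (Nat.land (Nat.mul (v2535 R) (VR.cr1 R)) (srM (VR.N R)
    (VR.S R) (VR.o1 R) (v2538 R)))))

noncomputable def s2545 (R : VR) (j i : ℕ) : Bool :=
  K.bor (s2519 R j i) (s2544 R j i)

theorem e2545 (R : VR) : B2 R (v2545 R) (s2545 R) :=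
  B.or (e2519 R) (e2544 R)

noncomputable def v2546 (R : VR) : ℕ :=
  srM (VR.N R) (VR.S R) (VR.o1 R) (v2521 R)

noncomputable def s2546 (R : VR) (j i : ℕ) : ℕ :=
  (s2521 R j)

theorem e2546 (R : VR) : L2 R (v2546 R) (s2546 R) 255 :=
  L2.row (e2521 R)

noncomputable def v2547 (R : VR) : ℕ :=
  Nat.shiftRight (Nat.land (Nat.sub (VR.h2 R) (Nat.xor (srM (VR.N R) (VR.S R) (VR.o1 R) (v2521 R))
    (v2509 R))) (VR.h2 R)) (nat_lit 15)

noncomputable def s2547 (R : VR) (j i : ℕ) : Bool :=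
  Nat.beq (s2546 R j i) (s2509 R j i)

theorem e2547 (R : VR) : B2 R (v2547 R) (s2547 R) :=
  L.beq (VR.h2e R) (e2546 R) (e2509 R)

noncomputable def v2548 (R : VR) : ℕ :=
  srM (VR.N R) (VR.S R) (VR.o1 R) (v2524 R)

noncomputable def s2548 (R : VR) (j i : ℕ) : Bool :=
  (s2524 R j)

theorem e2548 (R : VR) : B2 R (v2548 R) (s2548 R) :=
  B2.row (e2524 R)

noncomputable def v2549 (R : VR) : ℕ :=
  Nat.mul (v2527 R) (VR.cr1 R)

noncomputable def s2549 (R : VR) (j i : ℕ) : Bool :=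
  (s2527 R i)

theorem e2549 (R : VR) : B2 R (v2549 R) (s2549 R) :=
  B2.rep (e2527 R)

noncomputable def v2550 (R : VR) : ℕ :=
  Nat.land (srM (VR.N R) (VR.S R) (VR.o1 R) (v2524 R)) (Nat.mul (v2527 R) (VR.cr1 R))

noncomputable def s2550 (R : VR) (j i : ℕ) : Bool :=
  K.band (s2548 R j i) (s2549 R j i)

theorem e2550 (R : VR) : B2 R (v2550 R) (s2550 R) :=
  B.and (e2548 R) (e2549 R)

noncomputable def v2551 (R : VR) : ℕ :=
  srM (VR.N R) (VR.S R) (VR.o1 R) (v2535 R)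

noncomputable def s2551 (R : VR) (j i : ℕ) : Bool :=
  (s2535 R j)

theorem e2551 (R : VR) : B2 R (v2551 R) (s2551 R) :=
  B2.row (e2535 R)

noncomputable def v2552 (R : VR) : ℕ :=
  Nat.mul (v2538 R) (VR.cr1 R)

noncomputable def s2552 (R : VR) (j i : ℕ) : Bool :=
  (s2538 R i)

theorem e2552 (R : VR) : B2 R (v2552 R) (s2552 R) :=
  B2.rep (e2538 R)

noncomputable def v2553 (R : VR) : ℕ :=
  Nat.land (srM (VR.N R) (VR.S R) (VR.o1 R) (v2535 R)) (Nat.mul (v2538 R) (VR.cr1 R))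

noncomputable def s2553 (R : VR) (j i : ℕ) : Bool :=
  K.band (s2551 R j i) (s2552 R j i)

theorem e2553 (R : VR) : B2 R (v2553 R) (s2553 R) :=
  B.and (e2551 R) (e2552 R)

noncomputable def v2554 (R : VR) : ℕ :=
  Nat.lor (Nat.land (srM (VR.N R) (VR.S R) (VR.o1 R) (v2524 R)) (Nat.mul (v2527 R) (VR.cr1 R)))
    (Nat.land (srM (VR.N R) (VR.S R) (VR.o1 R) (v2535 R)) (Nat.mul (v2538 R) (VR.cr1 R)))

noncomputable def s2554 (R : VR) (j i : ℕ) : Bool :=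
  K.bor (s2550 R j i) (s2553 R j i)

theorem e2554 (R : VR) : B2 R (v2554 R) (s2554 R) :=
  B.or (e2550 R) (e2553 R)

noncomputable def v2555 (R : VR) : ℕ :=
  Nat.land (Nat.shiftRight (Nat.land (Nat.sub (VR.h2 R) (Nat.xor (srM (VR.N R) (VR.S R) (VR.o1 R)
    (v2521 R)) (v2509 R))) (VR.h2 R)) (nat_lit 15)) (Nat.lor (Nat.land (srM (VR.N R) (VR.S R)
    (VR.o1 R) (v2524 R)) (Nat.mul (v2527 R) (VR.cr1 R))) (Nat.land (srM (VR.N R) (VR.S R) (VR.o1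
    R) (v2535 R)) (Nat.mul (v2538 R) (VR.cr1 R))))

noncomputable def s2555 (R : VR) (j i : ℕ) : Bool :=
  K.band (s2547 R j i) (s2554 R j i)

theorem e2555 (R : VR) : B2 R (v2555 R) (s2555 R) :=
  B.and (e2547 R) (e2554 R)

noncomputable def s2556 (R : VR) (j i : ℕ) : Bool :=
  K.Cf_ex22 (VR.Cf R) (tf (VR.BGXT R)) (s2501 R j) (s2501 R i) j i

theorem e2556 (R : VR) : B2 R (v2555 R) (s2556 R) :=
  e2555 R

noncomputable def v2557 (R : VR) : ℕ :=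
  Nat.lor (v2545 R) (Nat.land (Nat.shiftRight (Nat.land (Nat.sub (VR.h2 R) (Nat.xor (srM (VR.N R)
    (VR.S R) (VR.o1 R) (v2521 R)) (v2509 R))) (VR.h2 R)) (nat_lit 15)) (Nat.lor (Nat.land (srM
    (VR.N R) (VR.S R) (VR.o1 R) (v2524 R)) (Nat.mul (v2527 R) (VR.cr1 R))) (Nat.land (srM (VR.N R)
    (VR.S R) (VR.o1 R) (v2535 R)) (Nat.mul (v2538 R) (VR.cr1 R)))))

noncomputable def s2557 (R : VR) (j i : ℕ) : Bool :=
  K.bor (s2545 R j i) (s2556 R j i)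

theorem e2557 (R : VR) : B2 R (v2557 R) (s2557 R) :=
  B.or (e2545 R) (e2556 R)

noncomputable def s2558 (R : VR) (j i : ℕ) : Bool :=
  K.Cf_exc (VR.Cf R) (tf (VR.BGXT R)) (s2501 R i) (s2501 R j) i j

theorem e2558 (R : VR) : B2 R (v2557 R) (s2558 R) :=
  e2557 R

noncomputable def v2559 (R : VR) : ℕ :=
  Nat.sub (VR.o2 R) (Nat.lor (v2545 R) (Nat.land (Nat.shiftRight (Nat.land (Nat.sub (VR.h2 R)
    (Nat.xor (srM (VR.N R) (VR.S R) (VR.o1 R) (v2521 R)) (v2509 R))) (VR.h2 R)) (nat_lit 15))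
    (Nat.lor (Nat.land (srM (VR.N R) (VR.S R) (VR.o1 R) (v2524 R)) (Nat.mul (v2527 R) (VR.cr1 R)))
    (Nat.land (srM (VR.N R) (VR.S R) (VR.o1 R) (v2535 R)) (Nat.mul (v2538 R) (VR.cr1 R))))))

noncomputable def s2559 (R : VR) (j i : ℕ) : Bool :=
  K.bnot (s2558 R j i)

theorem e2559 (R : VR) : B2 R (v2559 R) (s2559 R) :=
  B.not (VR.o2e R) (e2558 R)

noncomputable def v2560 (R : VR) : ℕ :=
  Nat.land (v2514 R) (Nat.sub (VR.o2 R) (Nat.lor (v2545 R) (Nat.land (Nat.shiftRight (Nat.land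
    (Nat.sub (VR.h2 R) (Nat.xor (srM (VR.N R) (VR.S R) (VR.o1 R) (v2521 R)) (v2509 R))) (VR.h2 R))
    (nat_lit 15)) (Nat.lor (Nat.land (srM (VR.N R) (VR.S R) (VR.o1 R) (v2524 R)) (Nat.mul (v2527
    R) (VR.cr1 R))) (Nat.land (srM (VR.N R) (VR.S R) (VR.o1 R) (v2535 R)) (Nat.mul (v2538 R)
    (VR.cr1 R)))))))

noncomputable def s2560 (R : VR) (j i : ℕ) : Bool :=
  K.band (s2514 R j i) (s2559 R j i)

theorem e2560 (R : VR) : B2 R (v2560 R) (s2560 R) :=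
  B.and (e2514 R) (e2559 R)

noncomputable def v2561 (R : VR) : ℕ :=
  Bool.rec (motive := fun _ => ℕ) (nat_lit 0) (Nat.land (v2514 R) (Nat.sub (VR.o2 R) (Nat.lor
    (v2545 R) (Nat.land (Nat.shiftRight (Nat.land (Nat.sub (VR.h2 R) (Nat.xor (srM (VR.N R) (VR.S
    R) (VR.o1 R) (v2521 R)) (v2509 R))) (VR.h2 R)) (nat_lit 15)) (Nat.lor (Nat.land (srM (VR.N R)
    (VR.S R) (VR.o1 R) (v2524 R)) (Nat.mul (v2527 R) (VR.cr1 R))) (Nat.land (srM (VR.N R) (VR.S R)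
    (VR.o1 R) (v2535 R)) (Nat.mul (v2538 R) (VR.cr1 R)))))))) (v2062 R)

noncomputable def s2561 (R : VR) (j i : ℕ) : Bool :=
  K.band (s2062 R) (s2560 R j i)

theorem e2561 (R : VR) : B2 R (v2561 R) (s2561 R) :=
  B.gand (e2062 R) (e2560 R)

noncomputable def v2562 (R : VR) : ℕ :=
  Nat.mul (v1936 R) (v135 R)

noncomputable def s2562 (R : VR) : ℕ :=
  Nat.mul (s1936 R) (s135 R)

theorem e2562 (R : VR) : (v2562 R) = s2562 R :=
  congrArg₂ Nat.mul (e1936 R) (e135 R)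

theorem b2562 (R : VR) : s2562 R ≤ 40 :=
  Nat.mul_le_mul (b1936 R) (le_of_eq (rfl : s135 R = (nat_lit 4)))

noncomputable def v2563 (R : VR) : ℕ :=
  Nat.mul (VR.o1 R) (Nat.mul (v1936 R) (v135 R))

noncomputable def s2563 (R : VR) (i : ℕ) : ℕ :=
  (s2562 R)

theorem e2563 (R : VR) : L (VR.S R) (v2563 R) (s2563 R) 40 :=
  L.scl (VR.o1e R) (e2562 R) (b2562 R) (by decide)

noncomputable def v2564 (R : VR) : ℕ :=
  Nat.add (Nat.mul (VR.o1 R) (Nat.mul (v1936 R) (v135 R))) (VR.caT R)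

noncomputable def s2564 (R : VR) (i : ℕ) : ℕ :=
  Nat.add (s2563 R i) (s127 R i)

theorem e2564 (R : VR) : L (VR.S R) (v2564 R) (s2564 R) 295 :=
  L.add (e2563 R) (e127 R) (by decide)

noncomputable def v2565 (R : VR) : ℕ :=
  gmk (VR.h2 R) (VR.J R) (Nat.mul (Nat.add (Nat.mul (VR.o1 R) (Nat.mul (v1936 R) (v135 R)))
    (VR.caT R)) (VR.cr1 R))

noncomputable def v2566 (R : VR) : ℕ :=
  Nat.mod (Nat.land (gmk (VR.h2 R) (VR.J R) (Nat.mul (Nat.add (Nat.mul (VR.o1 R) (Nat.mul (v1936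
    R) (v135 R))) (VR.caT R)) (VR.cr1 R))) (v1941 R)) (VR.m1 R)

noncomputable def s2566 (R : VR) (i : ℕ) : ℕ :=
  tx (VR.adT R) (s2564 R i)

theorem e2566 (R : VR) : L (VR.S R) (v2566 R) (s2566 R) 255 :=
  L.gat (e2564 R) (VR.ad_is R) (VR.ad_lt R) (VR.ad_le R)

noncomputable def v2567 (R : VR) : ℕ :=
  Nat.shiftRight (Nat.land (Nat.sub (VR.h1 R) (v2566 R)) (VR.h1 R)) (nat_lit 15)

noncomputable def s2567 (R : VR) (i : ℕ) : Bool :=
  Nat.beq (s2566 R i) (nat_lit 0)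

theorem e2567 (R : VR) : B (VR.S R) (v2567 R) (s2567 R) :=
  L.ez (VR.h1e R) (e2566 R)

noncomputable def v2568 (R : VR) : ℕ :=
  Nat.shiftRight (Nat.land (Nat.add (v2566 R) (VR.k1 R)) (VR.h1 R)) (nat_lit 15)

noncomputable def s2568 (R : VR) (i : ℕ) : Bool :=
  K.bnot (Nat.beq (s2566 R i) (nat_lit 0))

theorem e2568 (R : VR) : B (VR.S R) (v2568 R) (s2568 R) :=
  L.nz (VR.h1e R) (VR.k1e R) (e2566 R)

noncomputable def v2569 (R : VR) : ℕ :=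
  Nat.mul (v2568 R) (VR.cr1 R)

noncomputable def s2569 (R : VR) (j i : ℕ) : Bool :=
  (s2568 R i)

theorem e2569 (R : VR) : B2 R (v2569 R) (s2569 R) :=
  B2.rep (e2568 R)

noncomputable def v2570 (R : VR) : ℕ :=
  srM (VR.N R) (VR.S R) (VR.o1 R) (v2568 R)

noncomputable def s2570 (R : VR) (j i : ℕ) : Bool :=
  (s2568 R j)

theorem e2570 (R : VR) : B2 R (v2570 R) (s2570 R) :=
  B2.row (e2568 R)

noncomputable def v2571 (R : VR) : ℕ :=
  Nat.land (Nat.mul (v2568 R) (VR.cr1 R)) (srM (VR.N R) (VR.S R) (VR.o1 R) (v2568 R))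

noncomputable def s2571 (R : VR) (j i : ℕ) : Bool :=
  K.band (s2569 R j i) (s2570 R j i)

theorem e2571 (R : VR) : B2 R (v2571 R) (s2571 R) :=
  B.and (e2569 R) (e2570 R)

noncomputable def v2572 (R : VR) : ℕ :=
  Nat.land (Nat.land (Nat.mul (v2568 R) (VR.cr1 R)) (srM (VR.N R) (VR.S R) (VR.o1 R) (v2568 R)))
    (v2280 R)

noncomputable def s2572 (R : VR) (j i : ℕ) : Bool :=
  K.band (s2571 R j i) (s2280 R j i)

theorem e2572 (R : VR) : B2 R (v2572 R) (s2572 R) :=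
  B.and (e2571 R) (e2280 R)

noncomputable def v2573 (R : VR) : ℕ :=
  Vc.ssub (VR.h1 R) (v2566 R) (v267 R)

noncomputable def s2573 (R : VR) (i : ℕ) : ℕ :=
  Nat.sub (s2566 R i) (s267 R i)

theorem e2573 (R : VR) : L (VR.S R) (v2573 R) (s2573 R) 255 :=
  L.sub (VR.h1e R) (e2566 R) (e267 R)

noncomputable def v2574 (R : VR) : ℕ :=
  gmk (VR.h2 R) (VR.J R) (Nat.mul (v2573 R) (VR.cr1 R))

noncomputable def v2575 (R : VR) : ℕ :=
  Nat.mod (Nat.land (v2574 R) (v164 R)) (VR.m1 R)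

noncomputable def s2575 (R : VR) (i : ℕ) : ℕ :=
  tx (VR.rhoT R) (s2573 R i)

theorem e2575 (R : VR) : L (VR.S R) (v2575 R) (s2575 R) 255 :=
  L.gat (e2573 R) (VR.rho_is R) (VR.rho_lt R) (VR.rho_le R)

noncomputable def v2576 (R : VR) : ℕ :=
  Nat.mul (v2575 R) (VR.cr1 R)

noncomputable def s2576 (R : VR) (j i : ℕ) : ℕ :=
  (s2575 R i)

theorem e2576 (R : VR) : L2 R (v2576 R) (s2576 R) 255 :=
  L2.rep (e2575 R)

noncomputable def v2577 (R : VR) : ℕ :=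
  srM (VR.N R) (VR.S R) (VR.o1 R) (v2573 R)

noncomputable def s2577 (R : VR) (j i : ℕ) : ℕ :=
  (s2573 R j)

theorem e2577 (R : VR) : L2 R (v2577 R) (s2577 R) 255 :=
  L2.row (e2573 R)

noncomputable def v2578 (R : VR) : ℕ :=
  Nat.shiftRight (Nat.land (Nat.sub (VR.h2 R) (Nat.xor (Nat.mul (v2575 R) (VR.cr1 R)) (v2577 R)))
    (VR.h2 R)) (nat_lit 15)

noncomputable def s2578 (R : VR) (j i : ℕ) : Bool :=
  Nat.beq (s2576 R j i) (s2577 R j i)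

theorem e2578 (R : VR) : B2 R (v2578 R) (s2578 R) :=
  L.beq (VR.h2e R) (e2576 R) (e2577 R)

noncomputable def v2579 (R : VR) : ℕ :=
  Nat.sub (VR.o2 R) (Nat.shiftRight (Nat.land (Nat.sub (VR.h2 R) (Nat.xor (Nat.mul (v2575 R)
    (VR.cr1 R)) (v2577 R))) (VR.h2 R)) (nat_lit 15))

noncomputable def s2579 (R : VR) (j i : ℕ) : Bool :=
  K.bnot (s2578 R j i)

theorem e2579 (R : VR) : B2 R (v2579 R) (s2579 R) :=
  B.not (VR.o2e R) (e2578 R)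

noncomputable def v2580 (R : VR) : ℕ :=
  srM (VR.N R) (VR.S R) (VR.o1 R) (v2575 R)

noncomputable def s2580 (R : VR) (j i : ℕ) : ℕ :=
  (s2575 R j)

theorem e2580 (R : VR) : L2 R (v2580 R) (s2580 R) 255 :=
  L2.row (e2575 R)

noncomputable def v2581 (R : VR) : ℕ :=
  Nat.mul (v2573 R) (VR.cr1 R)

noncomputable def s2581 (R : VR) (j i : ℕ) : ℕ :=
  (s2573 R i)

theorem e2581 (R : VR) : L2 R (v2581 R) (s2581 R) 255 :=
  L2.rep (e2573 R)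

noncomputable def v2582 (R : VR) : ℕ :=
  Nat.shiftRight (Nat.land (Nat.sub (VR.h2 R) (Nat.xor (srM (VR.N R) (VR.S R) (VR.o1 R) (v2575 R))
    (v2581 R))) (VR.h2 R)) (nat_lit 15)

noncomputable def s2582 (R : VR) (j i : ℕ) : Bool :=
  Nat.beq (s2580 R j i) (s2581 R j i)

theorem e2582 (R : VR) : B2 R (v2582 R) (s2582 R) :=
  L.beq (VR.h2e R) (e2580 R) (e2581 R)

noncomputable def v2583 (R : VR) : ℕ :=
  Nat.sub (VR.o2 R) (Nat.shiftRight (Nat.land (Nat.sub (VR.h2 R) (Nat.xor (srM (VR.N R) (VR.S R)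
    (VR.o1 R) (v2575 R)) (v2581 R))) (VR.h2 R)) (nat_lit 15))

noncomputable def s2583 (R : VR) (j i : ℕ) : Bool :=
  K.bnot (s2582 R j i)

theorem e2583 (R : VR) : B2 R (v2583 R) (s2583 R) :=
  B.not (VR.o2e R) (e2582 R)

noncomputable def v2584 (R : VR) : ℕ :=
  Nat.land (Nat.sub (VR.o2 R) (Nat.shiftRight (Nat.land (Nat.sub (VR.h2 R) (Nat.xor (Nat.mul
    (v2575 R) (VR.cr1 R)) (v2577 R))) (VR.h2 R)) (nat_lit 15))) (Nat.sub (VR.o2 R) (Nat.shiftRight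
    (Nat.land (Nat.sub (VR.h2 R) (Nat.xor (srM (VR.N R) (VR.S R) (VR.o1 R) (v2575 R)) (v2581 R)))
    (VR.h2 R)) (nat_lit 15)))

noncomputable def s2584 (R : VR) (j i : ℕ) : Bool :=
  K.band (s2579 R j i) (s2583 R j i)

theorem e2584 (R : VR) : B2 R (v2584 R) (s2584 R) :=
  B.and (e2579 R) (e2583 R)

noncomputable def s2585 (R : VR) (j i : ℕ) : Bool :=
  K.Cf_nco (VR.Cf R) (s2573 R i) (s2573 R j)

theorem e2585 (R : VR) : B2 R (v2584 R) (s2585 R) :=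
  e2584 R

noncomputable def v2586 (R : VR) : ℕ :=
  Nat.land (Nat.land (Nat.land (Nat.mul (v2568 R) (VR.cr1 R)) (srM (VR.N R) (VR.S R) (VR.o1 R)
    (v2568 R))) (v2280 R)) (Nat.land (Nat.sub (VR.o2 R) (Nat.shiftRight (Nat.land (Nat.sub (VR.h2
    R) (Nat.xor (Nat.mul (v2575 R) (VR.cr1 R)) (v2577 R))) (VR.h2 R)) (nat_lit 15))) (Nat.sub
    (VR.o2 R) (Nat.shiftRight (Nat.land (Nat.sub (VR.h2 R) (Nat.xor (srM (VR.N R) (VR.S R) (VR.o1
    R) (v2575 R)) (v2581 R))) (VR.h2 R)) (nat_lit 15))))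

noncomputable def s2586 (R : VR) (j i : ℕ) : Bool :=
  K.band (s2572 R j i) (s2585 R j i)

theorem e2586 (R : VR) : B2 R (v2586 R) (s2586 R) :=
  B.and (e2572 R) (e2585 R)

noncomputable def v2587 (R : VR) : ℕ :=
  Nat.mod (Nat.land (v2574 R) (v146 R)) (VR.m1 R)

noncomputable def s2587 (R : VR) (i : ℕ) : ℕ :=
  tx (VR.piT R) (s2573 R i)

theorem e2587 (R : VR) : L (VR.S R) (v2587 R) (s2587 R) 255 :=
  L.gat (e2573 R) (VR.pi_is R) (VR.pi_lt R) (VR.pi_le R)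

noncomputable def v2588 (R : VR) : ℕ :=
  Nat.shiftRight (Nat.land (Nat.sub (VR.h1 R) (Nat.xor (VR.iota R) (v2587 R))) (VR.h1 R)) (nat_lit
    15)

noncomputable def s2588 (R : VR) (i : ℕ) : Bool :=
  Nat.beq (s0 R i) (s2587 R i)

theorem e2588 (R : VR) : B (VR.S R) (v2588 R) (s2588 R) :=
  L.beq (VR.h1e R) (e0 R) (e2587 R)

noncomputable def v2589 (R : VR) : ℕ :=
  Nat.mul (v2588 R) (VR.cr1 R)

noncomputable def s2589 (R : VR) (j i : ℕ) : Bool :=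
  (s2588 R i)

theorem e2589 (R : VR) : B2 R (v2589 R) (s2589 R) :=
  B2.rep (e2588 R)

noncomputable def v2590 (R : VR) : ℕ :=
  srM (VR.N R) (VR.S R) (VR.o1 R) (v2588 R)

noncomputable def s2590 (R : VR) (j i : ℕ) : Bool :=
  (s2588 R j)

theorem e2590 (R : VR) : B2 R (v2590 R) (s2590 R) :=
  B2.row (e2588 R)

noncomputable def v2591 (R : VR) : ℕ :=
  Nat.land (Nat.mul (v2588 R) (VR.cr1 R)) (srM (VR.N R) (VR.S R) (VR.o1 R) (v2588 R))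

noncomputable def s2591 (R : VR) (j i : ℕ) : Bool :=
  K.band (s2589 R j i) (s2590 R j i)

theorem e2591 (R : VR) : B2 R (v2591 R) (s2591 R) :=
  B.and (e2589 R) (e2590 R)

noncomputable def v2592 (R : VR) : ℕ :=
  gmk (VR.h2 R) (VR.J R) (Nat.mul (v2575 R) (VR.cr1 R))

noncomputable def v2593 (R : VR) : ℕ :=
  Nat.mod (Nat.land (v2592 R) (v164 R)) (VR.m1 R)

noncomputable def s2593 (R : VR) (i : ℕ) : ℕ :=
  tx (VR.rhoT R) (s2575 R i)

theorem e2593 (R : VR) : L (VR.S R) (v2593 R) (s2593 R) 255 :=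
  L.gat (e2575 R) (VR.rho_is R) (VR.rho_lt R) (VR.rho_le R)

noncomputable def v2594 (R : VR) : ℕ :=
  Nat.mul (v2593 R) (VR.cr1 R)

noncomputable def s2594 (R : VR) (j i : ℕ) : ℕ :=
  (s2593 R i)

theorem e2594 (R : VR) : L2 R (v2594 R) (s2594 R) 255 :=
  L2.rep (e2593 R)

noncomputable def v2595 (R : VR) : ℕ :=
  Nat.shiftRight (Nat.land (Nat.sub (VR.h2 R) (Nat.xor (Nat.mul (v2593 R) (VR.cr1 R)) (v2577 R)))
    (VR.h2 R)) (nat_lit 15)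

noncomputable def s2595 (R : VR) (j i : ℕ) : Bool :=
  Nat.beq (s2594 R j i) (s2577 R j i)

theorem e2595 (R : VR) : B2 R (v2595 R) (s2595 R) :=
  L.beq (VR.h2e R) (e2594 R) (e2577 R)

noncomputable def v2596 (R : VR) : ℕ :=
  Nat.shiftRight (Nat.land (Nat.sub (VR.h1 R) (Nat.xor (VR.rhoT R) (v2587 R))) (VR.h1 R)) (nat_lit
    15)

noncomputable def s2596 (R : VR) (i : ℕ) : Bool :=
  Nat.beq (s158 R i) (s2587 R i)

theorem e2596 (R : VR) : B (VR.S R) (v2596 R) (s2596 R) :=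
  L.beq (VR.h1e R) (e158 R) (e2587 R)

noncomputable def v2597 (R : VR) : ℕ :=
  gmk (VR.h2 R) (VR.J R) (Nat.mul (v2587 R) (VR.cr1 R))

noncomputable def v2598 (R : VR) : ℕ :=
  Nat.mod (Nat.land (gmk (VR.h2 R) (VR.J R) (Nat.mul (v2587 R) (VR.cr1 R))) (v164 R)) (VR.m1 R)

noncomputable def s2598 (R : VR) (i : ℕ) : ℕ :=
  tx (VR.rhoT R) (s2587 R i)

theorem e2598 (R : VR) : L (VR.S R) (v2598 R) (s2598 R) 255 :=
  L.gat (e2587 R) (VR.rho_is R) (VR.rho_lt R) (VR.rho_le R)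

noncomputable def v2599 (R : VR) : ℕ :=
  Nat.shiftRight (Nat.land (Nat.sub (VR.h1 R) (Nat.xor (VR.iota R) (v2598 R))) (VR.h1 R)) (nat_lit
    15)

noncomputable def s2599 (R : VR) (i : ℕ) : Bool :=
  Nat.beq (s0 R i) (s2598 R i)

theorem e2599 (R : VR) : B (VR.S R) (v2599 R) (s2599 R) :=
  L.beq (VR.h1e R) (e0 R) (e2598 R)

noncomputable def v2600 (R : VR) : ℕ :=
  Nat.mul (v2596 R) (VR.cr1 R)

noncomputable def s2600 (R : VR) (j i : ℕ) : Bool :=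
  (s2596 R i)

theorem e2600 (R : VR) : B2 R (v2600 R) (s2600 R) :=
  B2.rep (e2596 R)

noncomputable def v2601 (R : VR) : ℕ :=
  srM (VR.N R) (VR.S R) (VR.o1 R) (v2599 R)

noncomputable def s2601 (R : VR) (j i : ℕ) : Bool :=
  (s2599 R j)

theorem e2601 (R : VR) : B2 R (v2601 R) (s2601 R) :=
  B2.row (e2599 R)

noncomputable def v2602 (R : VR) : ℕ :=
  Nat.land (Nat.mul (v2596 R) (VR.cr1 R)) (srM (VR.N R) (VR.S R) (VR.o1 R) (v2599 R))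

noncomputable def s2602 (R : VR) (j i : ℕ) : Bool :=
  K.band (s2600 R j i) (s2601 R j i)

theorem e2602 (R : VR) : B2 R (v2602 R) (s2602 R) :=
  B.and (e2600 R) (e2601 R)

noncomputable def v2603 (R : VR) : ℕ :=
  Nat.mod (Nat.land (v2592 R) (v2313 R)) (VR.m1 R)

noncomputable def s2603 (R : VR) (i : ℕ) : Bool :=
  tf (VR.BGXT R) (s2575 R i)

theorem e2603 (R : VR) : B (VR.S R) (v2603 R) (s2603 R) :=
  B.gat (e2575 R) (VR.BGX_is R) (VR.BGX_lt R)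

noncomputable def v2604 (R : VR) : ℕ :=
  Nat.sub (VR.o1 R) (Nat.mod (Nat.land (v2592 R) (v2313 R)) (VR.m1 R))

noncomputable def s2604 (R : VR) (i : ℕ) : Bool :=
  K.bnot (s2603 R i)

theorem e2604 (R : VR) : B (VR.S R) (v2604 R) (s2604 R) :=
  B.not (VR.o1e R) (e2603 R)

noncomputable def v2605 (R : VR) : ℕ :=
  Nat.land (VR.rlT R) (Nat.sub (VR.o1 R) (Nat.mod (Nat.land (v2592 R) (v2313 R)) (VR.m1 R)))

noncomputable def s2605 (R : VR) (i : ℕ) : Bool :=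
  K.band (s435 R i) (s2604 R i)

theorem e2605 (R : VR) : B (VR.S R) (v2605 R) (s2605 R) :=
  B.and (e435 R) (e2604 R)

noncomputable def v2606 (R : VR) : ℕ :=
  Nat.shiftRight (Nat.land (Nat.sub (VR.h1 R) (Nat.xor (v2317 R) (v2587 R))) (VR.h1 R)) (nat_lit
    15)

noncomputable def s2606 (R : VR) (i : ℕ) : Bool :=
  Nat.beq (s2317 R i) (s2587 R i)

theorem e2606 (R : VR) : B (VR.S R) (v2606 R) (s2606 R) :=
  L.beq (VR.h1e R) (e2317 R) (e2587 R)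

noncomputable def v2607 (R : VR) : ℕ :=
  Nat.land (Nat.land (VR.rlT R) (Nat.sub (VR.o1 R) (Nat.mod (Nat.land (v2592 R) (v2313 R)) (VR.m1
    R)))) (Nat.shiftRight (Nat.land (Nat.sub (VR.h1 R) (Nat.xor (v2317 R) (v2587 R))) (VR.h1 R))
    (nat_lit 15))

noncomputable def s2607 (R : VR) (i : ℕ) : Bool :=
  K.band (s2605 R i) (s2606 R i)

theorem e2607 (R : VR) : B (VR.S R) (v2607 R) (s2607 R) :=
  B.and (e2605 R) (e2606 R)

noncomputable def v2608 (R : VR) : ℕ :=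
  gmk (VR.h2 R) (VR.J R) (Nat.mul (v2598 R) (VR.cr1 R))

noncomputable def v2609 (R : VR) : ℕ :=
  Nat.mod (Nat.land (gmk (VR.h2 R) (VR.J R) (Nat.mul (v2598 R) (VR.cr1 R))) (v164 R)) (VR.m1 R)

noncomputable def s2609 (R : VR) (i : ℕ) : ℕ :=
  tx (VR.rhoT R) (s2598 R i)

theorem e2609 (R : VR) : L (VR.S R) (v2609 R) (s2609 R) 255 :=
  L.gat (e2598 R) (VR.rho_is R) (VR.rho_lt R) (VR.rho_le R)

noncomputable def v2610 (R : VR) : ℕ :=
  Nat.shiftRight (Nat.land (Nat.sub (VR.h1 R) (Nat.xor (VR.iota R) (Nat.mod (Nat.land (gmk (VR.h2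
    R) (VR.J R) (Nat.mul (v2598 R) (VR.cr1 R))) (v164 R)) (VR.m1 R)))) (VR.h1 R)) (nat_lit 15)

noncomputable def s2610 (R : VR) (i : ℕ) : Bool :=
  Nat.beq (s0 R i) (s2609 R i)

theorem e2610 (R : VR) : B (VR.S R) (v2610 R) (s2610 R) :=
  L.beq (VR.h1e R) (e0 R) (e2609 R)

noncomputable def v2611 (R : VR) : ℕ :=
  Nat.mul (v2607 R) (VR.cr1 R)

noncomputable def s2611 (R : VR) (j i : ℕ) : Bool :=
  (s2607 R i)

theorem e2611 (R : VR) : B2 R (v2611 R) (s2611 R) :=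
  B2.rep (e2607 R)

noncomputable def v2612 (R : VR) : ℕ :=
  srM (VR.N R) (VR.S R) (VR.o1 R) (v2610 R)

noncomputable def s2612 (R : VR) (j i : ℕ) : Bool :=
  (s2610 R j)

theorem e2612 (R : VR) : B2 R (v2612 R) (s2612 R) :=
  B2.row (e2610 R)

noncomputable def v2613 (R : VR) : ℕ :=
  Nat.land (Nat.mul (v2607 R) (VR.cr1 R)) (srM (VR.N R) (VR.S R) (VR.o1 R) (v2610 R))

noncomputable def s2613 (R : VR) (j i : ℕ) : Bool :=
  K.band (s2611 R j i) (s2612 R j i)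

theorem e2613 (R : VR) : B2 R (v2613 R) (s2613 R) :=
  B.and (e2611 R) (e2612 R)

noncomputable def v2614 (R : VR) : ℕ :=
  Nat.lor (Nat.land (Nat.mul (v2596 R) (VR.cr1 R)) (srM (VR.N R) (VR.S R) (VR.o1 R) (v2599 R)))
    (Nat.land (Nat.mul (v2607 R) (VR.cr1 R)) (srM (VR.N R) (VR.S R) (VR.o1 R) (v2610 R)))

noncomputable def s2614 (R : VR) (j i : ℕ) : Bool :=
  K.bor (s2602 R j i) (s2613 R j i)

theorem e2614 (R : VR) : B2 R (v2614 R) (s2614 R) :=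
  B.or (e2602 R) (e2613 R)

noncomputable def v2615 (R : VR) : ℕ :=
  Nat.land (Nat.shiftRight (Nat.land (Nat.sub (VR.h2 R) (Nat.xor (Nat.mul (v2593 R) (VR.cr1 R))
    (v2577 R))) (VR.h2 R)) (nat_lit 15)) (Nat.lor (Nat.land (Nat.mul (v2596 R) (VR.cr1 R)) (srM
    (VR.N R) (VR.S R) (VR.o1 R) (v2599 R))) (Nat.land (Nat.mul (v2607 R) (VR.cr1 R)) (srM (VR.N R)
    (VR.S R) (VR.o1 R) (v2610 R))))

noncomputable def s2615 (R : VR) (j i : ℕ) : Bool :=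
  K.band (s2595 R j i) (s2614 R j i)

theorem e2615 (R : VR) : B2 R (v2615 R) (s2615 R) :=
  B.and (e2595 R) (e2614 R)

noncomputable def s2616 (R : VR) (j i : ℕ) : Bool :=
  K.Cf_ex22 (VR.Cf R) (tf (VR.BGXT R)) (s2573 R i) (s2573 R j) i j

theorem e2616 (R : VR) : B2 R (v2615 R) (s2616 R) :=
  e2615 R

noncomputable def v2617 (R : VR) : ℕ :=
  Nat.lor (Nat.land (Nat.mul (v2588 R) (VR.cr1 R)) (srM (VR.N R) (VR.S R) (VR.o1 R) (v2588 R)))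
    (Nat.land (Nat.shiftRight (Nat.land (Nat.sub (VR.h2 R) (Nat.xor (Nat.mul (v2593 R) (VR.cr1 R))
    (v2577 R))) (VR.h2 R)) (nat_lit 15)) (Nat.lor (Nat.land (Nat.mul (v2596 R) (VR.cr1 R)) (srM
    (VR.N R) (VR.S R) (VR.o1 R) (v2599 R))) (Nat.land (Nat.mul (v2607 R) (VR.cr1 R)) (srM (VR.N R)
    (VR.S R) (VR.o1 R) (v2610 R)))))

noncomputable def s2617 (R : VR) (j i : ℕ) : Bool :=
  K.bor (s2591 R j i) (s2616 R j i)

theorem e2617 (R : VR) : B2 R (v2617 R) (s2617 R) :=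
  B.or (e2591 R) (e2616 R)

noncomputable def v2618 (R : VR) : ℕ :=
  srM (VR.N R) (VR.S R) (VR.o1 R) (v2593 R)

noncomputable def s2618 (R : VR) (j i : ℕ) : ℕ :=
  (s2593 R j)

theorem e2618 (R : VR) : L2 R (v2618 R) (s2618 R) 255 :=
  L2.row (e2593 R)

noncomputable def v2619 (R : VR) : ℕ :=
  Nat.shiftRight (Nat.land (Nat.sub (VR.h2 R) (Nat.xor (srM (VR.N R) (VR.S R) (VR.o1 R) (v2593 R))
    (v2581 R))) (VR.h2 R)) (nat_lit 15)

noncomputable def s2619 (R : VR) (j i : ℕ) : Bool :=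
  Nat.beq (s2618 R j i) (s2581 R j i)

theorem e2619 (R : VR) : B2 R (v2619 R) (s2619 R) :=
  L.beq (VR.h2e R) (e2618 R) (e2581 R)

noncomputable def v2620 (R : VR) : ℕ :=
  srM (VR.N R) (VR.S R) (VR.o1 R) (v2596 R)

noncomputable def s2620 (R : VR) (j i : ℕ) : Bool :=
  (s2596 R j)

theorem e2620 (R : VR) : B2 R (v2620 R) (s2620 R) :=
  B2.row (e2596 R)

noncomputable def v2621 (R : VR) : ℕ :=
  Nat.mul (v2599 R) (VR.cr1 R)

noncomputable def s2621 (R : VR) (j i : ℕ) : Bool :=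
  (s2599 R i)

theorem e2621 (R : VR) : B2 R (v2621 R) (s2621 R) :=
  B2.rep (e2599 R)

noncomputable def v2622 (R : VR) : ℕ :=
  Nat.land (srM (VR.N R) (VR.S R) (VR.o1 R) (v2596 R)) (Nat.mul (v2599 R) (VR.cr1 R))

noncomputable def s2622 (R : VR) (j i : ℕ) : Bool :=
  K.band (s2620 R j i) (s2621 R j i)

theorem e2622 (R : VR) : B2 R (v2622 R) (s2622 R) :=
  B.and (e2620 R) (e2621 R)

noncomputable def v2623 (R : VR) : ℕ :=
  srM (VR.N R) (VR.S R) (VR.o1 R) (v2607 R)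

noncomputable def s2623 (R : VR) (j i : ℕ) : Bool :=
  (s2607 R j)

theorem e2623 (R : VR) : B2 R (v2623 R) (s2623 R) :=
  B2.row (e2607 R)

noncomputable def v2624 (R : VR) : ℕ :=
  Nat.mul (v2610 R) (VR.cr1 R)

noncomputable def s2624 (R : VR) (j i : ℕ) : Bool :=
  (s2610 R i)

theorem e2624 (R : VR) : B2 R (v2624 R) (s2624 R) :=
  B2.rep (e2610 R)

noncomputable def v2625 (R : VR) : ℕ :=
  Nat.land (srM (VR.N R) (VR.S R) (VR.o1 R) (v2607 R)) (Nat.mul (v2610 R) (VR.cr1 R))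

noncomputable def s2625 (R : VR) (j i : ℕ) : Bool :=
  K.band (s2623 R j i) (s2624 R j i)

theorem e2625 (R : VR) : B2 R (v2625 R) (s2625 R) :=
  B.and (e2623 R) (e2624 R)

noncomputable def v2626 (R : VR) : ℕ :=
  Nat.lor (Nat.land (srM (VR.N R) (VR.S R) (VR.o1 R) (v2596 R)) (Nat.mul (v2599 R) (VR.cr1 R)))
    (Nat.land (srM (VR.N R) (VR.S R) (VR.o1 R) (v2607 R)) (Nat.mul (v2610 R) (VR.cr1 R)))

noncomputable def s2626 (R : VR) (j i : ℕ) : Bool :=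
  K.bor (s2622 R j i) (s2625 R j i)

theorem e2626 (R : VR) : B2 R (v2626 R) (s2626 R) :=
  B.or (e2622 R) (e2625 R)

noncomputable def v2627 (R : VR) : ℕ :=
  Nat.land (Nat.shiftRight (Nat.land (Nat.sub (VR.h2 R) (Nat.xor (srM (VR.N R) (VR.S R) (VR.o1 R)
    (v2593 R)) (v2581 R))) (VR.h2 R)) (nat_lit 15)) (Nat.lor (Nat.land (srM (VR.N R) (VR.S R)
    (VR.o1 R) (v2596 R)) (Nat.mul (v2599 R) (VR.cr1 R))) (Nat.land (srM (VR.N R) (VR.S R) (VR.o1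
    R) (v2607 R)) (Nat.mul (v2610 R) (VR.cr1 R))))

noncomputable def s2627 (R : VR) (j i : ℕ) : Bool :=
  K.band (s2619 R j i) (s2626 R j i)

theorem e2627 (R : VR) : B2 R (v2627 R) (s2627 R) :=
  B.and (e2619 R) (e2626 R)

noncomputable def s2628 (R : VR) (j i : ℕ) : Bool :=
  K.Cf_ex22 (VR.Cf R) (tf (VR.BGXT R)) (s2573 R j) (s2573 R i) j i

theorem e2628 (R : VR) : B2 R (v2627 R) (s2628 R) :=
  e2627 R

noncomputable def v2629 (R : VR) : ℕ :=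
  Nat.lor (v2617 R) (Nat.land (Nat.shiftRight (Nat.land (Nat.sub (VR.h2 R) (Nat.xor (srM (VR.N R)
    (VR.S R) (VR.o1 R) (v2593 R)) (v2581 R))) (VR.h2 R)) (nat_lit 15)) (Nat.lor (Nat.land (srM
    (VR.N R) (VR.S R) (VR.o1 R) (v2596 R)) (Nat.mul (v2599 R) (VR.cr1 R))) (Nat.land (srM (VR.N R)
    (VR.S R) (VR.o1 R) (v2607 R)) (Nat.mul (v2610 R) (VR.cr1 R)))))

noncomputable def s2629 (R : VR) (j i : ℕ) : Bool :=
  K.bor (s2617 R j i) (s2628 R j i)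

theorem e2629 (R : VR) : B2 R (v2629 R) (s2629 R) :=
  B.or (e2617 R) (e2628 R)

noncomputable def s2630 (R : VR) (j i : ℕ) : Bool :=
  K.Cf_exc (VR.Cf R) (tf (VR.BGXT R)) (s2573 R i) (s2573 R j) i j

theorem e2630 (R : VR) : B2 R (v2629 R) (s2630 R) :=
  e2629 R

noncomputable def v2631 (R : VR) : ℕ :=
  Nat.sub (VR.o2 R) (Nat.lor (v2617 R) (Nat.land (Nat.shiftRight (Nat.land (Nat.sub (VR.h2 R)
    (Nat.xor (srM (VR.N R) (VR.S R) (VR.o1 R) (v2593 R)) (v2581 R))) (VR.h2 R)) (nat_lit 15))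
    (Nat.lor (Nat.land (srM (VR.N R) (VR.S R) (VR.o1 R) (v2596 R)) (Nat.mul (v2599 R) (VR.cr1 R)))
    (Nat.land (srM (VR.N R) (VR.S R) (VR.o1 R) (v2607 R)) (Nat.mul (v2610 R) (VR.cr1 R))))))

noncomputable def s2631 (R : VR) (j i : ℕ) : Bool :=
  K.bnot (s2630 R j i)

theorem e2631 (R : VR) : B2 R (v2631 R) (s2631 R) :=
  B.not (VR.o2e R) (e2630 R)

noncomputable def v2632 (R : VR) : ℕ :=
  Nat.land (v2586 R) (Nat.sub (VR.o2 R) (Nat.lor (v2617 R) (Nat.land (Nat.shiftRight (Nat.land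
    (Nat.sub (VR.h2 R) (Nat.xor (srM (VR.N R) (VR.S R) (VR.o1 R) (v2593 R)) (v2581 R))) (VR.h2 R))
    (nat_lit 15)) (Nat.lor (Nat.land (srM (VR.N R) (VR.S R) (VR.o1 R) (v2596 R)) (Nat.mul (v2599
    R) (VR.cr1 R))) (Nat.land (srM (VR.N R) (VR.S R) (VR.o1 R) (v2607 R)) (Nat.mul (v2610 R)
    (VR.cr1 R)))))))

noncomputable def s2632 (R : VR) (j i : ℕ) : Bool :=
  K.band (s2586 R j i) (s2631 R j i)

theorem e2632 (R : VR) : B2 R (v2632 R) (s2632 R) :=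
  B.and (e2586 R) (e2631 R)

noncomputable def v2633 (R : VR) : ℕ :=
  Bool.rec (motive := fun _ => ℕ) (nat_lit 0) (Nat.land (v2586 R) (Nat.sub (VR.o2 R) (Nat.lor
    (v2617 R) (Nat.land (Nat.shiftRight (Nat.land (Nat.sub (VR.h2 R) (Nat.xor (srM (VR.N R) (VR.S
    R) (VR.o1 R) (v2593 R)) (v2581 R))) (VR.h2 R)) (nat_lit 15)) (Nat.lor (Nat.land (srM (VR.N R)
    (VR.S R) (VR.o1 R) (v2596 R)) (Nat.mul (v2599 R) (VR.cr1 R))) (Nat.land (srM (VR.N R) (VR.S R)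
    (VR.o1 R) (v2607 R)) (Nat.mul (v2610 R) (VR.cr1 R)))))))) (v2093 R)

noncomputable def s2633 (R : VR) (j i : ℕ) : Bool :=
  K.band (s2093 R) (s2632 R j i)

theorem e2633 (R : VR) : B2 R (v2633 R) (s2633 R) :=
  B.gand (e2093 R) (e2632 R)

noncomputable def v2634 (R : VR) : ℕ :=
  Nat.mul (v1936 R) (v2095 R)

noncomputable def s2634 (R : VR) : ℕ :=
  Nat.mul (s1936 R) (s2095 R)

theorem e2634 (R : VR) : (v2634 R) = s2634 R :=
  congrArg₂ Nat.mul (e1936 R) (e2095 R)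

theorem b2634 (R : VR) : s2634 R ≤ 50 :=
  Nat.mul_le_mul (b1936 R) (le_of_eq (rfl : s2095 R = (nat_lit 5)))

noncomputable def v2635 (R : VR) : ℕ :=
  Nat.mul (VR.o1 R) (Nat.mul (v1936 R) (v2095 R))

noncomputable def s2635 (R : VR) (i : ℕ) : ℕ :=
  (s2634 R)

theorem e2635 (R : VR) : L (VR.S R) (v2635 R) (s2635 R) 50 :=
  L.scl (VR.o1e R) (e2634 R) (b2634 R) (by decide)

noncomputable def v2636 (R : VR) : ℕ :=
  Nat.add (Nat.mul (VR.o1 R) (Nat.mul (v1936 R) (v2095 R))) (VR.caT R)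

noncomputable def s2636 (R : VR) (i : ℕ) : ℕ :=
  Nat.add (s2635 R i) (s127 R i)

theorem e2636 (R : VR) : L (VR.S R) (v2636 R) (s2636 R) 305 :=
  L.add (e2635 R) (e127 R) (by decide)

noncomputable def v2637 (R : VR) : ℕ :=
  gmk (VR.h2 R) (VR.J R) (Nat.mul (Nat.add (Nat.mul (VR.o1 R) (Nat.mul (v1936 R) (v2095 R)))
    (VR.caT R)) (VR.cr1 R))

noncomputable def v2638 (R : VR) : ℕ :=
  Nat.mod (Nat.land (gmk (VR.h2 R) (VR.J R) (Nat.mul (Nat.add (Nat.mul (VR.o1 R) (Nat.mul (v1936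
    R) (v2095 R))) (VR.caT R)) (VR.cr1 R))) (v1941 R)) (VR.m1 R)

noncomputable def s2638 (R : VR) (i : ℕ) : ℕ :=
  tx (VR.adT R) (s2636 R i)

theorem e2638 (R : VR) : L (VR.S R) (v2638 R) (s2638 R) 255 :=
  L.gat (e2636 R) (VR.ad_is R) (VR.ad_lt R) (VR.ad_le R)

noncomputable def v2639 (R : VR) : ℕ :=
  Nat.shiftRight (Nat.land (Nat.sub (VR.h1 R) (v2638 R)) (VR.h1 R)) (nat_lit 15)

noncomputable def s2639 (R : VR) (i : ℕ) : Bool :=
  Nat.beq (s2638 R i) (nat_lit 0)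

theorem e2639 (R : VR) : B (VR.S R) (v2639 R) (s2639 R) :=
  L.ez (VR.h1e R) (e2638 R)

noncomputable def v2640 (R : VR) : ℕ :=
  Nat.shiftRight (Nat.land (Nat.add (v2638 R) (VR.k1 R)) (VR.h1 R)) (nat_lit 15)

noncomputable def s2640 (R : VR) (i : ℕ) : Bool :=
  K.bnot (Nat.beq (s2638 R i) (nat_lit 0))

theorem e2640 (R : VR) : B (VR.S R) (v2640 R) (s2640 R) :=
  L.nz (VR.h1e R) (VR.k1e R) (e2638 R)

noncomputable def v2641 (R : VR) : ℕ :=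
  Nat.mul (v2640 R) (VR.cr1 R)

noncomputable def s2641 (R : VR) (j i : ℕ) : Bool :=
  (s2640 R i)

theorem e2641 (R : VR) : B2 R (v2641 R) (s2641 R) :=
  B2.rep (e2640 R)

noncomputable def v2642 (R : VR) : ℕ :=
  srM (VR.N R) (VR.S R) (VR.o1 R) (v2640 R)

noncomputable def s2642 (R : VR) (j i : ℕ) : Bool :=
  (s2640 R j)

theorem e2642 (R : VR) : B2 R (v2642 R) (s2642 R) :=
  B2.row (e2640 R)

noncomputable def v2643 (R : VR) : ℕ :=
  Nat.land (Nat.mul (v2640 R) (VR.cr1 R)) (srM (VR.N R) (VR.S R) (VR.o1 R) (v2640 R))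

noncomputable def s2643 (R : VR) (j i : ℕ) : Bool :=
  K.band (s2641 R j i) (s2642 R j i)

theorem e2643 (R : VR) : B2 R (v2643 R) (s2643 R) :=
  B.and (e2641 R) (e2642 R)

noncomputable def v2644 (R : VR) : ℕ :=
  Nat.land (Nat.land (Nat.mul (v2640 R) (VR.cr1 R)) (srM (VR.N R) (VR.S R) (VR.o1 R) (v2640 R)))
    (v2280 R)

noncomputable def s2644 (R : VR) (j i : ℕ) : Bool :=
  K.band (s2643 R j i) (s2280 R j i)

theorem e2644 (R : VR) : B2 R (v2644 R) (s2644 R) :=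
  B.and (e2643 R) (e2280 R)

noncomputable def v2645 (R : VR) : ℕ :=
  Vc.ssub (VR.h1 R) (v2638 R) (v267 R)

noncomputable def s2645 (R : VR) (i : ℕ) : ℕ :=
  Nat.sub (s2638 R i) (s267 R i)

theorem e2645 (R : VR) : L (VR.S R) (v2645 R) (s2645 R) 255 :=
  L.sub (VR.h1e R) (e2638 R) (e267 R)

noncomputable def v2646 (R : VR) : ℕ :=
  gmk (VR.h2 R) (VR.J R) (Nat.mul (v2645 R) (VR.cr1 R))

noncomputable def v2647 (R : VR) : ℕ :=
  Nat.mod (Nat.land (v2646 R) (v164 R)) (VR.m1 R)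

noncomputable def s2647 (R : VR) (i : ℕ) : ℕ :=
  tx (VR.rhoT R) (s2645 R i)

theorem e2647 (R : VR) : L (VR.S R) (v2647 R) (s2647 R) 255 :=
  L.gat (e2645 R) (VR.rho_is R) (VR.rho_lt R) (VR.rho_le R)

noncomputable def v2648 (R : VR) : ℕ :=
  Nat.mul (v2647 R) (VR.cr1 R)

noncomputable def s2648 (R : VR) (j i : ℕ) : ℕ :=
  (s2647 R i)

theorem e2648 (R : VR) : L2 R (v2648 R) (s2648 R) 255 :=
  L2.rep (e2647 R)

noncomputable def v2649 (R : VR) : ℕ :=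
  srM (VR.N R) (VR.S R) (VR.o1 R) (v2645 R)

noncomputable def s2649 (R : VR) (j i : ℕ) : ℕ :=
  (s2645 R j)

theorem e2649 (R : VR) : L2 R (v2649 R) (s2649 R) 255 :=
  L2.row (e2645 R)

noncomputable def v2650 (R : VR) : ℕ :=
  Nat.shiftRight (Nat.land (Nat.sub (VR.h2 R) (Nat.xor (Nat.mul (v2647 R) (VR.cr1 R)) (v2649 R)))
    (VR.h2 R)) (nat_lit 15)

noncomputable def s2650 (R : VR) (j i : ℕ) : Bool :=
  Nat.beq (s2648 R j i) (s2649 R j i)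

theorem e2650 (R : VR) : B2 R (v2650 R) (s2650 R) :=
  L.beq (VR.h2e R) (e2648 R) (e2649 R)

noncomputable def v2651 (R : VR) : ℕ :=
  Nat.sub (VR.o2 R) (Nat.shiftRight (Nat.land (Nat.sub (VR.h2 R) (Nat.xor (Nat.mul (v2647 R)
    (VR.cr1 R)) (v2649 R))) (VR.h2 R)) (nat_lit 15))

noncomputable def s2651 (R : VR) (j i : ℕ) : Bool :=
  K.bnot (s2650 R j i)

theorem e2651 (R : VR) : B2 R (v2651 R) (s2651 R) :=
  B.not (VR.o2e R) (e2650 R)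

noncomputable def v2652 (R : VR) : ℕ :=
  srM (VR.N R) (VR.S R) (VR.o1 R) (v2647 R)

noncomputable def s2652 (R : VR) (j i : ℕ) : ℕ :=
  (s2647 R j)

theorem e2652 (R : VR) : L2 R (v2652 R) (s2652 R) 255 :=
  L2.row (e2647 R)

noncomputable def v2653 (R : VR) : ℕ :=
  Nat.mul (v2645 R) (VR.cr1 R)

noncomputable def s2653 (R : VR) (j i : ℕ) : ℕ :=
  (s2645 R i)

theorem e2653 (R : VR) : L2 R (v2653 R) (s2653 R) 255 :=
  L2.rep (e2645 R)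

noncomputable def v2654 (R : VR) : ℕ :=
  Nat.shiftRight (Nat.land (Nat.sub (VR.h2 R) (Nat.xor (srM (VR.N R) (VR.S R) (VR.o1 R) (v2647 R))
    (v2653 R))) (VR.h2 R)) (nat_lit 15)

noncomputable def s2654 (R : VR) (j i : ℕ) : Bool :=
  Nat.beq (s2652 R j i) (s2653 R j i)

theorem e2654 (R : VR) : B2 R (v2654 R) (s2654 R) :=
  L.beq (VR.h2e R) (e2652 R) (e2653 R)

noncomputable def v2655 (R : VR) : ℕ :=
  Nat.sub (VR.o2 R) (Nat.shiftRight (Nat.land (Nat.sub (VR.h2 R) (Nat.xor (srM (VR.N R) (VR.S R)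
    (VR.o1 R) (v2647 R)) (v2653 R))) (VR.h2 R)) (nat_lit 15))

noncomputable def s2655 (R : VR) (j i : ℕ) : Bool :=
  K.bnot (s2654 R j i)

theorem e2655 (R : VR) : B2 R (v2655 R) (s2655 R) :=
  B.not (VR.o2e R) (e2654 R)

noncomputable def v2656 (R : VR) : ℕ :=
  Nat.land (Nat.sub (VR.o2 R) (Nat.shiftRight (Nat.land (Nat.sub (VR.h2 R) (Nat.xor (Nat.mul
    (v2647 R) (VR.cr1 R)) (v2649 R))) (VR.h2 R)) (nat_lit 15))) (Nat.sub (VR.o2 R) (Nat.shiftRight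
    (Nat.land (Nat.sub (VR.h2 R) (Nat.xor (srM (VR.N R) (VR.S R) (VR.o1 R) (v2647 R)) (v2653 R)))
    (VR.h2 R)) (nat_lit 15)))

noncomputable def s2656 (R : VR) (j i : ℕ) : Bool :=
  K.band (s2651 R j i) (s2655 R j i)

theorem e2656 (R : VR) : B2 R (v2656 R) (s2656 R) :=
  B.and (e2651 R) (e2655 R)

noncomputable def s2657 (R : VR) (j i : ℕ) : Bool :=
  K.Cf_nco (VR.Cf R) (s2645 R i) (s2645 R j)

theorem e2657 (R : VR) : B2 R (v2656 R) (s2657 R) :=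
  e2656 R

noncomputable def v2658 (R : VR) : ℕ :=
  Nat.land (Nat.land (Nat.land (Nat.mul (v2640 R) (VR.cr1 R)) (srM (VR.N R) (VR.S R) (VR.o1 R)
    (v2640 R))) (v2280 R)) (Nat.land (Nat.sub (VR.o2 R) (Nat.shiftRight (Nat.land (Nat.sub (VR.h2
    R) (Nat.xor (Nat.mul (v2647 R) (VR.cr1 R)) (v2649 R))) (VR.h2 R)) (nat_lit 15))) (Nat.sub
    (VR.o2 R) (Nat.shiftRight (Nat.land (Nat.sub (VR.h2 R) (Nat.xor (srM (VR.N R) (VR.S R) (VR.o1
    R) (v2647 R)) (v2653 R))) (VR.h2 R)) (nat_lit 15))))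

noncomputable def s2658 (R : VR) (j i : ℕ) : Bool :=
  K.band (s2644 R j i) (s2657 R j i)

theorem e2658 (R : VR) : B2 R (v2658 R) (s2658 R) :=
  B.and (e2644 R) (e2657 R)

noncomputable def v2659 (R : VR) : ℕ :=
  Nat.mod (Nat.land (v2646 R) (v146 R)) (VR.m1 R)

noncomputable def s2659 (R : VR) (i : ℕ) : ℕ :=
  tx (VR.piT R) (s2645 R i)

theorem e2659 (R : VR) : L (VR.S R) (v2659 R) (s2659 R) 255 :=
  L.gat (e2645 R) (VR.pi_is R) (VR.pi_lt R) (VR.pi_le R)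

noncomputable def v2660 (R : VR) : ℕ :=
  Nat.shiftRight (Nat.land (Nat.sub (VR.h1 R) (Nat.xor (VR.iota R) (v2659 R))) (VR.h1 R)) (nat_lit
    15)

noncomputable def s2660 (R : VR) (i : ℕ) : Bool :=
  Nat.beq (s0 R i) (s2659 R i)

theorem e2660 (R : VR) : B (VR.S R) (v2660 R) (s2660 R) :=
  L.beq (VR.h1e R) (e0 R) (e2659 R)

noncomputable def v2661 (R : VR) : ℕ :=
  Nat.mul (v2660 R) (VR.cr1 R)

noncomputable def s2661 (R : VR) (j i : ℕ) : Bool :=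
  (s2660 R i)

theorem e2661 (R : VR) : B2 R (v2661 R) (s2661 R) :=
  B2.rep (e2660 R)

noncomputable def v2662 (R : VR) : ℕ :=
  srM (VR.N R) (VR.S R) (VR.o1 R) (v2660 R)

noncomputable def s2662 (R : VR) (j i : ℕ) : Bool :=
  (s2660 R j)

theorem e2662 (R : VR) : B2 R (v2662 R) (s2662 R) :=
  B2.row (e2660 R)

noncomputable def v2663 (R : VR) : ℕ :=
  Nat.land (Nat.mul (v2660 R) (VR.cr1 R)) (srM (VR.N R) (VR.S R) (VR.o1 R) (v2660 R))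

noncomputable def s2663 (R : VR) (j i : ℕ) : Bool :=
  K.band (s2661 R j i) (s2662 R j i)

theorem e2663 (R : VR) : B2 R (v2663 R) (s2663 R) :=
  B.and (e2661 R) (e2662 R)

noncomputable def v2664 (R : VR) : ℕ :=
  gmk (VR.h2 R) (VR.J R) (Nat.mul (v2647 R) (VR.cr1 R))

noncomputable def v2665 (R : VR) : ℕ :=
  Nat.mod (Nat.land (v2664 R) (v164 R)) (VR.m1 R)

noncomputable def s2665 (R : VR) (i : ℕ) : ℕ :=
  tx (VR.rhoT R) (s2647 R i)

theorem e2665 (R : VR) : L (VR.S R) (v2665 R) (s2665 R) 255 :=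
  L.gat (e2647 R) (VR.rho_is R) (VR.rho_lt R) (VR.rho_le R)

noncomputable def v2666 (R : VR) : ℕ :=
  Nat.mul (v2665 R) (VR.cr1 R)

noncomputable def s2666 (R : VR) (j i : ℕ) : ℕ :=
  (s2665 R i)

theorem e2666 (R : VR) : L2 R (v2666 R) (s2666 R) 255 :=
  L2.rep (e2665 R)

noncomputable def v2667 (R : VR) : ℕ :=
  Nat.shiftRight (Nat.land (Nat.sub (VR.h2 R) (Nat.xor (Nat.mul (v2665 R) (VR.cr1 R)) (v2649 R)))
    (VR.h2 R)) (nat_lit 15)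

noncomputable def s2667 (R : VR) (j i : ℕ) : Bool :=
  Nat.beq (s2666 R j i) (s2649 R j i)

theorem e2667 (R : VR) : B2 R (v2667 R) (s2667 R) :=
  L.beq (VR.h2e R) (e2666 R) (e2649 R)

noncomputable def v2668 (R : VR) : ℕ :=
  Nat.shiftRight (Nat.land (Nat.sub (VR.h1 R) (Nat.xor (VR.rhoT R) (v2659 R))) (VR.h1 R)) (nat_lit
    15)

noncomputable def s2668 (R : VR) (i : ℕ) : Bool :=
  Nat.beq (s158 R i) (s2659 R i)

theorem e2668 (R : VR) : B (VR.S R) (v2668 R) (s2668 R) :=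
  L.beq (VR.h1e R) (e158 R) (e2659 R)

noncomputable def v2669 (R : VR) : ℕ :=
  gmk (VR.h2 R) (VR.J R) (Nat.mul (v2659 R) (VR.cr1 R))

noncomputable def v2670 (R : VR) : ℕ :=
  Nat.mod (Nat.land (gmk (VR.h2 R) (VR.J R) (Nat.mul (v2659 R) (VR.cr1 R))) (v164 R)) (VR.m1 R)

noncomputable def s2670 (R : VR) (i : ℕ) : ℕ :=
  tx (VR.rhoT R) (s2659 R i)

theorem e2670 (R : VR) : L (VR.S R) (v2670 R) (s2670 R) 255 :=
  L.gat (e2659 R) (VR.rho_is R) (VR.rho_lt R) (VR.rho_le R)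

noncomputable def v2671 (R : VR) : ℕ :=
  Nat.shiftRight (Nat.land (Nat.sub (VR.h1 R) (Nat.xor (VR.iota R) (v2670 R))) (VR.h1 R)) (nat_lit
    15)

noncomputable def s2671 (R : VR) (i : ℕ) : Bool :=
  Nat.beq (s0 R i) (s2670 R i)

theorem e2671 (R : VR) : B (VR.S R) (v2671 R) (s2671 R) :=
  L.beq (VR.h1e R) (e0 R) (e2670 R)

noncomputable def v2672 (R : VR) : ℕ :=
  Nat.mul (v2668 R) (VR.cr1 R)

noncomputable def s2672 (R : VR) (j i : ℕ) : Bool :=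
  (s2668 R i)

theorem e2672 (R : VR) : B2 R (v2672 R) (s2672 R) :=
  B2.rep (e2668 R)

noncomputable def v2673 (R : VR) : ℕ :=
  srM (VR.N R) (VR.S R) (VR.o1 R) (v2671 R)

noncomputable def s2673 (R : VR) (j i : ℕ) : Bool :=
  (s2671 R j)

theorem e2673 (R : VR) : B2 R (v2673 R) (s2673 R) :=
  B2.row (e2671 R)

noncomputable def v2674 (R : VR) : ℕ :=
  Nat.land (Nat.mul (v2668 R) (VR.cr1 R)) (srM (VR.N R) (VR.S R) (VR.o1 R) (v2671 R))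

noncomputable def s2674 (R : VR) (j i : ℕ) : Bool :=
  K.band (s2672 R j i) (s2673 R j i)

theorem e2674 (R : VR) : B2 R (v2674 R) (s2674 R) :=
  B.and (e2672 R) (e2673 R)

noncomputable def v2675 (R : VR) : ℕ :=
  Nat.mod (Nat.land (v2664 R) (v2313 R)) (VR.m1 R)

noncomputable def s2675 (R : VR) (i : ℕ) : Bool :=
  tf (VR.BGXT R) (s2647 R i)

theorem e2675 (R : VR) : B (VR.S R) (v2675 R) (s2675 R) :=
  B.gat (e2647 R) (VR.BGX_is R) (VR.BGX_lt R)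

noncomputable def v2676 (R : VR) : ℕ :=
  Nat.sub (VR.o1 R) (Nat.mod (Nat.land (v2664 R) (v2313 R)) (VR.m1 R))

noncomputable def s2676 (R : VR) (i : ℕ) : Bool :=
  K.bnot (s2675 R i)

theorem e2676 (R : VR) : B (VR.S R) (v2676 R) (s2676 R) :=
  B.not (VR.o1e R) (e2675 R)

noncomputable def v2677 (R : VR) : ℕ :=
  Nat.land (VR.rlT R) (Nat.sub (VR.o1 R) (Nat.mod (Nat.land (v2664 R) (v2313 R)) (VR.m1 R)))

noncomputable def s2677 (R : VR) (i : ℕ) : Bool :=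
  K.band (s435 R i) (s2676 R i)

theorem e2677 (R : VR) : B (VR.S R) (v2677 R) (s2677 R) :=
  B.and (e435 R) (e2676 R)

noncomputable def v2678 (R : VR) : ℕ :=
  Nat.shiftRight (Nat.land (Nat.sub (VR.h1 R) (Nat.xor (v2317 R) (v2659 R))) (VR.h1 R)) (nat_lit
    15)

noncomputable def s2678 (R : VR) (i : ℕ) : Bool :=
  Nat.beq (s2317 R i) (s2659 R i)

theorem e2678 (R : VR) : B (VR.S R) (v2678 R) (s2678 R) :=
  L.beq (VR.h1e R) (e2317 R) (e2659 R)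

noncomputable def v2679 (R : VR) : ℕ :=
  Nat.land (Nat.land (VR.rlT R) (Nat.sub (VR.o1 R) (Nat.mod (Nat.land (v2664 R) (v2313 R)) (VR.m1
    R)))) (Nat.shiftRight (Nat.land (Nat.sub (VR.h1 R) (Nat.xor (v2317 R) (v2659 R))) (VR.h1 R))
    (nat_lit 15))

noncomputable def s2679 (R : VR) (i : ℕ) : Bool :=
  K.band (s2677 R i) (s2678 R i)

theorem e2679 (R : VR) : B (VR.S R) (v2679 R) (s2679 R) :=
  B.and (e2677 R) (e2678 R)

noncomputable def v2680 (R : VR) : ℕ :=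
  gmk (VR.h2 R) (VR.J R) (Nat.mul (v2670 R) (VR.cr1 R))

noncomputable def v2681 (R : VR) : ℕ :=
  Nat.mod (Nat.land (gmk (VR.h2 R) (VR.J R) (Nat.mul (v2670 R) (VR.cr1 R))) (v164 R)) (VR.m1 R)

noncomputable def s2681 (R : VR) (i : ℕ) : ℕ :=
  tx (VR.rhoT R) (s2670 R i)

theorem e2681 (R : VR) : L (VR.S R) (v2681 R) (s2681 R) 255 :=
  L.gat (e2670 R) (VR.rho_is R) (VR.rho_lt R) (VR.rho_le R)

noncomputable def v2682 (R : VR) : ℕ :=
  Nat.shiftRight (Nat.land (Nat.sub (VR.h1 R) (Nat.xor (VR.iota R) (Nat.mod (Nat.land (gmk (VR.h2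
    R) (VR.J R) (Nat.mul (v2670 R) (VR.cr1 R))) (v164 R)) (VR.m1 R)))) (VR.h1 R)) (nat_lit 15)

noncomputable def s2682 (R : VR) (i : ℕ) : Bool :=
  Nat.beq (s0 R i) (s2681 R i)

theorem e2682 (R : VR) : B (VR.S R) (v2682 R) (s2682 R) :=
  L.beq (VR.h1e R) (e0 R) (e2681 R)

noncomputable def v2683 (R : VR) : ℕ :=
  Nat.mul (v2679 R) (VR.cr1 R)

noncomputable def s2683 (R : VR) (j i : ℕ) : Bool :=
  (s2679 R i)

theorem e2683 (R : VR) : B2 R (v2683 R) (s2683 R) :=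
  B2.rep (e2679 R)

noncomputable def v2684 (R : VR) : ℕ :=
  srM (VR.N R) (VR.S R) (VR.o1 R) (v2682 R)

noncomputable def s2684 (R : VR) (j i : ℕ) : Bool :=
  (s2682 R j)

theorem e2684 (R : VR) : B2 R (v2684 R) (s2684 R) :=
  B2.row (e2682 R)

noncomputable def v2685 (R : VR) : ℕ :=
  Nat.land (Nat.mul (v2679 R) (VR.cr1 R)) (srM (VR.N R) (VR.S R) (VR.o1 R) (v2682 R))

noncomputable def s2685 (R : VR) (j i : ℕ) : Bool :=
  K.band (s2683 R j i) (s2684 R j i)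

theorem e2685 (R : VR) : B2 R (v2685 R) (s2685 R) :=
  B.and (e2683 R) (e2684 R)

noncomputable def v2686 (R : VR) : ℕ :=
  Nat.lor (Nat.land (Nat.mul (v2668 R) (VR.cr1 R)) (srM (VR.N R) (VR.S R) (VR.o1 R) (v2671 R)))
    (Nat.land (Nat.mul (v2679 R) (VR.cr1 R)) (srM (VR.N R) (VR.S R) (VR.o1 R) (v2682 R)))

noncomputable def s2686 (R : VR) (j i : ℕ) : Bool :=
  K.bor (s2674 R j i) (s2685 R j i)

theorem e2686 (R : VR) : B2 R (v2686 R) (s2686 R) :=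
  B.or (e2674 R) (e2685 R)

noncomputable def v2687 (R : VR) : ℕ :=
  Nat.land (Nat.shiftRight (Nat.land (Nat.sub (VR.h2 R) (Nat.xor (Nat.mul (v2665 R) (VR.cr1 R))
    (v2649 R))) (VR.h2 R)) (nat_lit 15)) (Nat.lor (Nat.land (Nat.mul (v2668 R) (VR.cr1 R)) (srM
    (VR.N R) (VR.S R) (VR.o1 R) (v2671 R))) (Nat.land (Nat.mul (v2679 R) (VR.cr1 R)) (srM (VR.N R)
    (VR.S R) (VR.o1 R) (v2682 R))))

noncomputable def s2687 (R : VR) (j i : ℕ) : Bool :=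
  K.band (s2667 R j i) (s2686 R j i)

theorem e2687 (R : VR) : B2 R (v2687 R) (s2687 R) :=
  B.and (e2667 R) (e2686 R)

noncomputable def s2688 (R : VR) (j i : ℕ) : Bool :=
  K.Cf_ex22 (VR.Cf R) (tf (VR.BGXT R)) (s2645 R i) (s2645 R j) i j

theorem e2688 (R : VR) : B2 R (v2687 R) (s2688 R) :=
  e2687 R

noncomputable def v2689 (R : VR) : ℕ :=
  Nat.lor (Nat.land (Nat.mul (v2660 R) (VR.cr1 R)) (srM (VR.N R) (VR.S R) (VR.o1 R) (v2660 R)))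
    (Nat.land (Nat.shiftRight (Nat.land (Nat.sub (VR.h2 R) (Nat.xor (Nat.mul (v2665 R) (VR.cr1 R))
    (v2649 R))) (VR.h2 R)) (nat_lit 15)) (Nat.lor (Nat.land (Nat.mul (v2668 R) (VR.cr1 R)) (srM
    (VR.N R) (VR.S R) (VR.o1 R) (v2671 R))) (Nat.land (Nat.mul (v2679 R) (VR.cr1 R)) (srM (VR.N R)
    (VR.S R) (VR.o1 R) (v2682 R)))))

noncomputable def s2689 (R : VR) (j i : ℕ) : Bool :=
  K.bor (s2663 R j i) (s2688 R j i)

theorem e2689 (R : VR) : B2 R (v2689 R) (s2689 R) :=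
  B.or (e2663 R) (e2688 R)

noncomputable def v2690 (R : VR) : ℕ :=
  srM (VR.N R) (VR.S R) (VR.o1 R) (v2665 R)

noncomputable def s2690 (R : VR) (j i : ℕ) : ℕ :=
  (s2665 R j)

theorem e2690 (R : VR) : L2 R (v2690 R) (s2690 R) 255 :=
  L2.row (e2665 R)

noncomputable def v2691 (R : VR) : ℕ :=
  Nat.shiftRight (Nat.land (Nat.sub (VR.h2 R) (Nat.xor (srM (VR.N R) (VR.S R) (VR.o1 R) (v2665 R))
    (v2653 R))) (VR.h2 R)) (nat_lit 15)

noncomputable def s2691 (R : VR) (j i : ℕ) : Bool :=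
  Nat.beq (s2690 R j i) (s2653 R j i)

theorem e2691 (R : VR) : B2 R (v2691 R) (s2691 R) :=
  L.beq (VR.h2e R) (e2690 R) (e2653 R)

noncomputable def v2692 (R : VR) : ℕ :=
  srM (VR.N R) (VR.S R) (VR.o1 R) (v2668 R)

noncomputable def s2692 (R : VR) (j i : ℕ) : Bool :=
  (s2668 R j)

theorem e2692 (R : VR) : B2 R (v2692 R) (s2692 R) :=
  B2.row (e2668 R)

noncomputable def v2693 (R : VR) : ℕ :=
  Nat.mul (v2671 R) (VR.cr1 R)

noncomputable def s2693 (R : VR) (j i : ℕ) : Bool :=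
  (s2671 R i)

theorem e2693 (R : VR) : B2 R (v2693 R) (s2693 R) :=
  B2.rep (e2671 R)

noncomputable def v2694 (R : VR) : ℕ :=
  Nat.land (srM (VR.N R) (VR.S R) (VR.o1 R) (v2668 R)) (Nat.mul (v2671 R) (VR.cr1 R))

noncomputable def s2694 (R : VR) (j i : ℕ) : Bool :=
  K.band (s2692 R j i) (s2693 R j i)

theorem e2694 (R : VR) : B2 R (v2694 R) (s2694 R) :=
  B.and (e2692 R) (e2693 R)

noncomputable def v2695 (R : VR) : ℕ :=
  srM (VR.N R) (VR.S R) (VR.o1 R) (v2679 R)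

noncomputable def s2695 (R : VR) (j i : ℕ) : Bool :=
  (s2679 R j)

theorem e2695 (R : VR) : B2 R (v2695 R) (s2695 R) :=
  B2.row (e2679 R)

noncomputable def v2696 (R : VR) : ℕ :=
  Nat.mul (v2682 R) (VR.cr1 R)

noncomputable def s2696 (R : VR) (j i : ℕ) : Bool :=
  (s2682 R i)

theorem e2696 (R : VR) : B2 R (v2696 R) (s2696 R) :=
  B2.rep (e2682 R)

noncomputable def v2697 (R : VR) : ℕ :=
  Nat.land (srM (VR.N R) (VR.S R) (VR.o1 R) (v2679 R)) (Nat.mul (v2682 R) (VR.cr1 R))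

noncomputable def s2697 (R : VR) (j i : ℕ) : Bool :=
  K.band (s2695 R j i) (s2696 R j i)

theorem e2697 (R : VR) : B2 R (v2697 R) (s2697 R) :=
  B.and (e2695 R) (e2696 R)

noncomputable def v2698 (R : VR) : ℕ :=
  Nat.lor (Nat.land (srM (VR.N R) (VR.S R) (VR.o1 R) (v2668 R)) (Nat.mul (v2671 R) (VR.cr1 R)))
    (Nat.land (srM (VR.N R) (VR.S R) (VR.o1 R) (v2679 R)) (Nat.mul (v2682 R) (VR.cr1 R)))

noncomputable def s2698 (R : VR) (j i : ℕ) : Bool :=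
  K.bor (s2694 R j i) (s2697 R j i)

theorem e2698 (R : VR) : B2 R (v2698 R) (s2698 R) :=
  B.or (e2694 R) (e2697 R)

noncomputable def v2699 (R : VR) : ℕ :=
  Nat.land (Nat.shiftRight (Nat.land (Nat.sub (VR.h2 R) (Nat.xor (srM (VR.N R) (VR.S R) (VR.o1 R)
    (v2665 R)) (v2653 R))) (VR.h2 R)) (nat_lit 15)) (Nat.lor (Nat.land (srM (VR.N R) (VR.S R)
    (VR.o1 R) (v2668 R)) (Nat.mul (v2671 R) (VR.cr1 R))) (Nat.land (srM (VR.N R) (VR.S R) (VR.o1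
    R) (v2679 R)) (Nat.mul (v2682 R) (VR.cr1 R))))

noncomputable def s2699 (R : VR) (j i : ℕ) : Bool :=
  K.band (s2691 R j i) (s2698 R j i)

theorem e2699 (R : VR) : B2 R (v2699 R) (s2699 R) :=
  B.and (e2691 R) (e2698 R)

noncomputable def s2700 (R : VR) (j i : ℕ) : Bool :=
  K.Cf_ex22 (VR.Cf R) (tf (VR.BGXT R)) (s2645 R j) (s2645 R i) j i

theorem e2700 (R : VR) : B2 R (v2699 R) (s2700 R) :=
  e2699 R

noncomputable def v2701 (R : VR) : ℕ :=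
  Nat.lor (v2689 R) (Nat.land (Nat.shiftRight (Nat.land (Nat.sub (VR.h2 R) (Nat.xor (srM (VR.N R)
    (VR.S R) (VR.o1 R) (v2665 R)) (v2653 R))) (VR.h2 R)) (nat_lit 15)) (Nat.lor (Nat.land (srM
    (VR.N R) (VR.S R) (VR.o1 R) (v2668 R)) (Nat.mul (v2671 R) (VR.cr1 R))) (Nat.land (srM (VR.N R)
    (VR.S R) (VR.o1 R) (v2679 R)) (Nat.mul (v2682 R) (VR.cr1 R)))))

noncomputable def s2701 (R : VR) (j i : ℕ) : Bool :=
  K.bor (s2689 R j i) (s2700 R j i)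

theorem e2701 (R : VR) : B2 R (v2701 R) (s2701 R) :=
  B.or (e2689 R) (e2700 R)

noncomputable def s2702 (R : VR) (j i : ℕ) : Bool :=
  K.Cf_exc (VR.Cf R) (tf (VR.BGXT R)) (s2645 R i) (s2645 R j) i j

theorem e2702 (R : VR) : B2 R (v2701 R) (s2702 R) :=
  e2701 R

noncomputable def v2703 (R : VR) : ℕ :=
  Nat.sub (VR.o2 R) (Nat.lor (v2689 R) (Nat.land (Nat.shiftRight (Nat.land (Nat.sub (VR.h2 R)
    (Nat.xor (srM (VR.N R) (VR.S R) (VR.o1 R) (v2665 R)) (v2653 R))) (VR.h2 R)) (nat_lit 15))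
    (Nat.lor (Nat.land (srM (VR.N R) (VR.S R) (VR.o1 R) (v2668 R)) (Nat.mul (v2671 R) (VR.cr1 R)))
    (Nat.land (srM (VR.N R) (VR.S R) (VR.o1 R) (v2679 R)) (Nat.mul (v2682 R) (VR.cr1 R))))))

noncomputable def s2703 (R : VR) (j i : ℕ) : Bool :=
  K.bnot (s2702 R j i)

theorem e2703 (R : VR) : B2 R (v2703 R) (s2703 R) :=
  B.not (VR.o2e R) (e2702 R)

noncomputable def v2704 (R : VR) : ℕ :=
  Nat.land (v2658 R) (Nat.sub (VR.o2 R) (Nat.lor (v2689 R) (Nat.land (Nat.shiftRight (Nat.land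
    (Nat.sub (VR.h2 R) (Nat.xor (srM (VR.N R) (VR.S R) (VR.o1 R) (v2665 R)) (v2653 R))) (VR.h2 R))
    (nat_lit 15)) (Nat.lor (Nat.land (srM (VR.N R) (VR.S R) (VR.o1 R) (v2668 R)) (Nat.mul (v2671
    R) (VR.cr1 R))) (Nat.land (srM (VR.N R) (VR.S R) (VR.o1 R) (v2679 R)) (Nat.mul (v2682 R)
    (VR.cr1 R)))))))

noncomputable def s2704 (R : VR) (j i : ℕ) : Bool :=
  K.band (s2658 R j i) (s2703 R j i)

theorem e2704 (R : VR) : B2 R (v2704 R) (s2704 R) :=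
  B.and (e2658 R) (e2703 R)

noncomputable def v2705 (R : VR) : ℕ :=
  Bool.rec (motive := fun _ => ℕ) (nat_lit 0) (Nat.land (v2658 R) (Nat.sub (VR.o2 R) (Nat.lor
    (v2689 R) (Nat.land (Nat.shiftRight (Nat.land (Nat.sub (VR.h2 R) (Nat.xor (srM (VR.N R) (VR.S
    R) (VR.o1 R) (v2665 R)) (v2653 R))) (VR.h2 R)) (nat_lit 15)) (Nat.lor (Nat.land (srM (VR.N R)
    (VR.S R) (VR.o1 R) (v2668 R)) (Nat.mul (v2671 R) (VR.cr1 R))) (Nat.land (srM (VR.N R) (VR.S R)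
    (VR.o1 R) (v2679 R)) (Nat.mul (v2682 R) (VR.cr1 R)))))))) (v2126 R)

noncomputable def s2705 (R : VR) (j i : ℕ) : Bool :=
  K.band (s2126 R) (s2704 R j i)

theorem e2705 (R : VR) : B2 R (v2705 R) (s2705 R) :=
  B.gand (e2126 R) (e2704 R)

noncomputable def v2706 (R : VR) : ℕ :=
  Nat.mul (v1936 R) (v2128 R)

noncomputable def s2706 (R : VR) : ℕ :=
  Nat.mul (s1936 R) (s2128 R)

theorem e2706 (R : VR) : (v2706 R) = s2706 R :=
  congrArg₂ Nat.mul (e1936 R) (e2128 R)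

theorem b2706 (R : VR) : s2706 R ≤ 60 :=
  Nat.mul_le_mul (b1936 R) (le_of_eq (rfl : s2128 R = (nat_lit 6)))

noncomputable def v2707 (R : VR) : ℕ :=
  Nat.mul (VR.o1 R) (Nat.mul (v1936 R) (v2128 R))

noncomputable def s2707 (R : VR) (i : ℕ) : ℕ :=
  (s2706 R)

theorem e2707 (R : VR) : L (VR.S R) (v2707 R) (s2707 R) 60 :=
  L.scl (VR.o1e R) (e2706 R) (b2706 R) (by decide)

noncomputable def v2708 (R : VR) : ℕ :=
  Nat.add (Nat.mul (VR.o1 R) (Nat.mul (v1936 R) (v2128 R))) (VR.caT R)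

noncomputable def s2708 (R : VR) (i : ℕ) : ℕ :=
  Nat.add (s2707 R i) (s127 R i)

theorem e2708 (R : VR) : L (VR.S R) (v2708 R) (s2708 R) 315 :=
  L.add (e2707 R) (e127 R) (by decide)

noncomputable def v2709 (R : VR) : ℕ :=
  gmk (VR.h2 R) (VR.J R) (Nat.mul (Nat.add (Nat.mul (VR.o1 R) (Nat.mul (v1936 R) (v2128 R)))
    (VR.caT R)) (VR.cr1 R))

noncomputable def v2710 (R : VR) : ℕ :=
  Nat.mod (Nat.land (gmk (VR.h2 R) (VR.J R) (Nat.mul (Nat.add (Nat.mul (VR.o1 R) (Nat.mul (v1936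
    R) (v2128 R))) (VR.caT R)) (VR.cr1 R))) (v1941 R)) (VR.m1 R)

noncomputable def s2710 (R : VR) (i : ℕ) : ℕ :=
  tx (VR.adT R) (s2708 R i)

theorem e2710 (R : VR) : L (VR.S R) (v2710 R) (s2710 R) 255 :=
  L.gat (e2708 R) (VR.ad_is R) (VR.ad_lt R) (VR.ad_le R)

noncomputable def v2711 (R : VR) : ℕ :=
  Nat.shiftRight (Nat.land (Nat.sub (VR.h1 R) (v2710 R)) (VR.h1 R)) (nat_lit 15)

noncomputable def s2711 (R : VR) (i : ℕ) : Bool :=
  Nat.beq (s2710 R i) (nat_lit 0)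

theorem e2711 (R : VR) : B (VR.S R) (v2711 R) (s2711 R) :=
  L.ez (VR.h1e R) (e2710 R)

noncomputable def v2712 (R : VR) : ℕ :=
  Nat.shiftRight (Nat.land (Nat.add (v2710 R) (VR.k1 R)) (VR.h1 R)) (nat_lit 15)

noncomputable def s2712 (R : VR) (i : ℕ) : Bool :=
  K.bnot (Nat.beq (s2710 R i) (nat_lit 0))

theorem e2712 (R : VR) : B (VR.S R) (v2712 R) (s2712 R) :=
  L.nz (VR.h1e R) (VR.k1e R) (e2710 R)

noncomputable def v2713 (R : VR) : ℕ :=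
  Nat.mul (v2712 R) (VR.cr1 R)

noncomputable def s2713 (R : VR) (j i : ℕ) : Bool :=
  (s2712 R i)

theorem e2713 (R : VR) : B2 R (v2713 R) (s2713 R) :=
  B2.rep (e2712 R)

noncomputable def v2714 (R : VR) : ℕ :=
  srM (VR.N R) (VR.S R) (VR.o1 R) (v2712 R)

noncomputable def s2714 (R : VR) (j i : ℕ) : Bool :=
  (s2712 R j)

theorem e2714 (R : VR) : B2 R (v2714 R) (s2714 R) :=
  B2.row (e2712 R)

noncomputable def v2715 (R : VR) : ℕ :=
  Nat.land (Nat.mul (v2712 R) (VR.cr1 R)) (srM (VR.N R) (VR.S R) (VR.o1 R) (v2712 R))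

noncomputable def s2715 (R : VR) (j i : ℕ) : Bool :=
  K.band (s2713 R j i) (s2714 R j i)

theorem e2715 (R : VR) : B2 R (v2715 R) (s2715 R) :=
  B.and (e2713 R) (e2714 R)

noncomputable def v2716 (R : VR) : ℕ :=
  Nat.land (Nat.land (Nat.mul (v2712 R) (VR.cr1 R)) (srM (VR.N R) (VR.S R) (VR.o1 R) (v2712 R)))
    (v2280 R)

noncomputable def s2716 (R : VR) (j i : ℕ) : Bool :=
  K.band (s2715 R j i) (s2280 R j i)

theorem e2716 (R : VR) : B2 R (v2716 R) (s2716 R) :=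
  B.and (e2715 R) (e2280 R)

noncomputable def v2717 (R : VR) : ℕ :=
  Vc.ssub (VR.h1 R) (v2710 R) (v267 R)

noncomputable def s2717 (R : VR) (i : ℕ) : ℕ :=
  Nat.sub (s2710 R i) (s267 R i)

theorem e2717 (R : VR) : L (VR.S R) (v2717 R) (s2717 R) 255 :=
  L.sub (VR.h1e R) (e2710 R) (e267 R)

noncomputable def v2718 (R : VR) : ℕ :=
  gmk (VR.h2 R) (VR.J R) (Nat.mul (v2717 R) (VR.cr1 R))

noncomputable def v2719 (R : VR) : ℕ :=
  Nat.mod (Nat.land (v2718 R) (v164 R)) (VR.m1 R)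

noncomputable def s2719 (R : VR) (i : ℕ) : ℕ :=
  tx (VR.rhoT R) (s2717 R i)

theorem e2719 (R : VR) : L (VR.S R) (v2719 R) (s2719 R) 255 :=
  L.gat (e2717 R) (VR.rho_is R) (VR.rho_lt R) (VR.rho_le R)

noncomputable def v2720 (R : VR) : ℕ :=
  Nat.mul (v2719 R) (VR.cr1 R)

noncomputable def s2720 (R : VR) (j i : ℕ) : ℕ :=
  (s2719 R i)

theorem e2720 (R : VR) : L2 R (v2720 R) (s2720 R) 255 :=
  L2.rep (e2719 R)

noncomputable def v2721 (R : VR) : ℕ :=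
  srM (VR.N R) (VR.S R) (VR.o1 R) (v2717 R)

noncomputable def s2721 (R : VR) (j i : ℕ) : ℕ :=
  (s2717 R j)

theorem e2721 (R : VR) : L2 R (v2721 R) (s2721 R) 255 :=
  L2.row (e2717 R)

noncomputable def v2722 (R : VR) : ℕ :=
  Nat.shiftRight (Nat.land (Nat.sub (VR.h2 R) (Nat.xor (Nat.mul (v2719 R) (VR.cr1 R)) (v2721 R)))
    (VR.h2 R)) (nat_lit 15)

noncomputable def s2722 (R : VR) (j i : ℕ) : Bool :=
  Nat.beq (s2720 R j i) (s2721 R j i)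

theorem e2722 (R : VR) : B2 R (v2722 R) (s2722 R) :=
  L.beq (VR.h2e R) (e2720 R) (e2721 R)

noncomputable def v2723 (R : VR) : ℕ :=
  Nat.sub (VR.o2 R) (Nat.shiftRight (Nat.land (Nat.sub (VR.h2 R) (Nat.xor (Nat.mul (v2719 R)
    (VR.cr1 R)) (v2721 R))) (VR.h2 R)) (nat_lit 15))

noncomputable def s2723 (R : VR) (j i : ℕ) : Bool :=
  K.bnot (s2722 R j i)

theorem e2723 (R : VR) : B2 R (v2723 R) (s2723 R) :=
  B.not (VR.o2e R) (e2722 R)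

noncomputable def v2724 (R : VR) : ℕ :=
  srM (VR.N R) (VR.S R) (VR.o1 R) (v2719 R)

noncomputable def s2724 (R : VR) (j i : ℕ) : ℕ :=
  (s2719 R j)

theorem e2724 (R : VR) : L2 R (v2724 R) (s2724 R) 255 :=
  L2.row (e2719 R)

noncomputable def v2725 (R : VR) : ℕ :=
  Nat.mul (v2717 R) (VR.cr1 R)

noncomputable def s2725 (R : VR) (j i : ℕ) : ℕ :=
  (s2717 R i)

theorem e2725 (R : VR) : L2 R (v2725 R) (s2725 R) 255 :=
  L2.rep (e2717 R)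

noncomputable def v2726 (R : VR) : ℕ :=
  Nat.shiftRight (Nat.land (Nat.sub (VR.h2 R) (Nat.xor (srM (VR.N R) (VR.S R) (VR.o1 R) (v2719 R))
    (v2725 R))) (VR.h2 R)) (nat_lit 15)

noncomputable def s2726 (R : VR) (j i : ℕ) : Bool :=
  Nat.beq (s2724 R j i) (s2725 R j i)

theorem e2726 (R : VR) : B2 R (v2726 R) (s2726 R) :=
  L.beq (VR.h2e R) (e2724 R) (e2725 R)

noncomputable def v2727 (R : VR) : ℕ :=
  Nat.sub (VR.o2 R) (Nat.shiftRight (Nat.land (Nat.sub (VR.h2 R) (Nat.xor (srM (VR.N R) (VR.S R)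
    (VR.o1 R) (v2719 R)) (v2725 R))) (VR.h2 R)) (nat_lit 15))

noncomputable def s2727 (R : VR) (j i : ℕ) : Bool :=
  K.bnot (s2726 R j i)

theorem e2727 (R : VR) : B2 R (v2727 R) (s2727 R) :=
  B.not (VR.o2e R) (e2726 R)

noncomputable def v2728 (R : VR) : ℕ :=
  Nat.land (Nat.sub (VR.o2 R) (Nat.shiftRight (Nat.land (Nat.sub (VR.h2 R) (Nat.xor (Nat.mul
    (v2719 R) (VR.cr1 R)) (v2721 R))) (VR.h2 R)) (nat_lit 15))) (Nat.sub (VR.o2 R) (Nat.shiftRight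
    (Nat.land (Nat.sub (VR.h2 R) (Nat.xor (srM (VR.N R) (VR.S R) (VR.o1 R) (v2719 R)) (v2725 R)))
    (VR.h2 R)) (nat_lit 15)))

noncomputable def s2728 (R : VR) (j i : ℕ) : Bool :=
  K.band (s2723 R j i) (s2727 R j i)

theorem e2728 (R : VR) : B2 R (v2728 R) (s2728 R) :=
  B.and (e2723 R) (e2727 R)

noncomputable def s2729 (R : VR) (j i : ℕ) : Bool :=
  K.Cf_nco (VR.Cf R) (s2717 R i) (s2717 R j)

theorem e2729 (R : VR) : B2 R (v2728 R) (s2729 R) :=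
  e2728 R

noncomputable def v2730 (R : VR) : ℕ :=
  Nat.land (Nat.land (Nat.land (Nat.mul (v2712 R) (VR.cr1 R)) (srM (VR.N R) (VR.S R) (VR.o1 R)
    (v2712 R))) (v2280 R)) (Nat.land (Nat.sub (VR.o2 R) (Nat.shiftRight (Nat.land (Nat.sub (VR.h2
    R) (Nat.xor (Nat.mul (v2719 R) (VR.cr1 R)) (v2721 R))) (VR.h2 R)) (nat_lit 15))) (Nat.sub
    (VR.o2 R) (Nat.shiftRight (Nat.land (Nat.sub (VR.h2 R) (Nat.xor (srM (VR.N R) (VR.S R) (VR.o1
    R) (v2719 R)) (v2725 R))) (VR.h2 R)) (nat_lit 15))))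

noncomputable def s2730 (R : VR) (j i : ℕ) : Bool :=
  K.band (s2716 R j i) (s2729 R j i)

theorem e2730 (R : VR) : B2 R (v2730 R) (s2730 R) :=
  B.and (e2716 R) (e2729 R)

noncomputable def v2731 (R : VR) : ℕ :=
  Nat.mod (Nat.land (v2718 R) (v146 R)) (VR.m1 R)

noncomputable def s2731 (R : VR) (i : ℕ) : ℕ :=
  tx (VR.piT R) (s2717 R i)

theorem e2731 (R : VR) : L (VR.S R) (v2731 R) (s2731 R) 255 :=
  L.gat (e2717 R) (VR.pi_is R) (VR.pi_lt R) (VR.pi_le R)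

noncomputable def v2732 (R : VR) : ℕ :=
  Nat.shiftRight (Nat.land (Nat.sub (VR.h1 R) (Nat.xor (VR.iota R) (v2731 R))) (VR.h1 R)) (nat_lit
    15)

noncomputable def s2732 (R : VR) (i : ℕ) : Bool :=
  Nat.beq (s0 R i) (s2731 R i)

theorem e2732 (R : VR) : B (VR.S R) (v2732 R) (s2732 R) :=
  L.beq (VR.h1e R) (e0 R) (e2731 R)

noncomputable def v2733 (R : VR) : ℕ :=
  Nat.mul (v2732 R) (VR.cr1 R)

noncomputable def s2733 (R : VR) (j i : ℕ) : Bool :=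
  (s2732 R i)

theorem e2733 (R : VR) : B2 R (v2733 R) (s2733 R) :=
  B2.rep (e2732 R)

noncomputable def v2734 (R : VR) : ℕ :=
  srM (VR.N R) (VR.S R) (VR.o1 R) (v2732 R)

noncomputable def s2734 (R : VR) (j i : ℕ) : Bool :=
  (s2732 R j)

theorem e2734 (R : VR) : B2 R (v2734 R) (s2734 R) :=
  B2.row (e2732 R)

noncomputable def v2735 (R : VR) : ℕ :=
  Nat.land (Nat.mul (v2732 R) (VR.cr1 R)) (srM (VR.N R) (VR.S R) (VR.o1 R) (v2732 R))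

noncomputable def s2735 (R : VR) (j i : ℕ) : Bool :=
  K.band (s2733 R j i) (s2734 R j i)

theorem e2735 (R : VR) : B2 R (v2735 R) (s2735 R) :=
  B.and (e2733 R) (e2734 R)

noncomputable def v2736 (R : VR) : ℕ :=
  gmk (VR.h2 R) (VR.J R) (Nat.mul (v2719 R) (VR.cr1 R))

noncomputable def v2737 (R : VR) : ℕ :=
  Nat.mod (Nat.land (v2736 R) (v164 R)) (VR.m1 R)

noncomputable def s2737 (R : VR) (i : ℕ) : ℕ :=
  tx (VR.rhoT R) (s2719 R i)

theorem e2737 (R : VR) : L (VR.S R) (v2737 R) (s2737 R) 255 :=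
  L.gat (e2719 R) (VR.rho_is R) (VR.rho_lt R) (VR.rho_le R)

noncomputable def v2738 (R : VR) : ℕ :=
  Nat.mul (v2737 R) (VR.cr1 R)

noncomputable def s2738 (R : VR) (j i : ℕ) : ℕ :=
  (s2737 R i)

theorem e2738 (R : VR) : L2 R (v2738 R) (s2738 R) 255 :=
  L2.rep (e2737 R)

noncomputable def v2739 (R : VR) : ℕ :=
  Nat.shiftRight (Nat.land (Nat.sub (VR.h2 R) (Nat.xor (Nat.mul (v2737 R) (VR.cr1 R)) (v2721 R)))
    (VR.h2 R)) (nat_lit 15)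

noncomputable def s2739 (R : VR) (j i : ℕ) : Bool :=
  Nat.beq (s2738 R j i) (s2721 R j i)

theorem e2739 (R : VR) : B2 R (v2739 R) (s2739 R) :=
  L.beq (VR.h2e R) (e2738 R) (e2721 R)

noncomputable def v2740 (R : VR) : ℕ :=
  Nat.shiftRight (Nat.land (Nat.sub (VR.h1 R) (Nat.xor (VR.rhoT R) (v2731 R))) (VR.h1 R)) (nat_lit
    15)

noncomputable def s2740 (R : VR) (i : ℕ) : Bool :=
  Nat.beq (s158 R i) (s2731 R i)

theorem e2740 (R : VR) : B (VR.S R) (v2740 R) (s2740 R) :=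
  L.beq (VR.h1e R) (e158 R) (e2731 R)

noncomputable def v2741 (R : VR) : ℕ :=
  gmk (VR.h2 R) (VR.J R) (Nat.mul (v2731 R) (VR.cr1 R))

noncomputable def v2742 (R : VR) : ℕ :=
  Nat.mod (Nat.land (gmk (VR.h2 R) (VR.J R) (Nat.mul (v2731 R) (VR.cr1 R))) (v164 R)) (VR.m1 R)

noncomputable def s2742 (R : VR) (i : ℕ) : ℕ :=
  tx (VR.rhoT R) (s2731 R i)

theorem e2742 (R : VR) : L (VR.S R) (v2742 R) (s2742 R) 255 :=
  L.gat (e2731 R) (VR.rho_is R) (VR.rho_lt R) (VR.rho_le R)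

noncomputable def v2743 (R : VR) : ℕ :=
  Nat.shiftRight (Nat.land (Nat.sub (VR.h1 R) (Nat.xor (VR.iota R) (v2742 R))) (VR.h1 R)) (nat_lit
    15)

noncomputable def s2743 (R : VR) (i : ℕ) : Bool :=
  Nat.beq (s0 R i) (s2742 R i)

theorem e2743 (R : VR) : B (VR.S R) (v2743 R) (s2743 R) :=
  L.beq (VR.h1e R) (e0 R) (e2742 R)

noncomputable def v2744 (R : VR) : ℕ :=
  Nat.mul (v2740 R) (VR.cr1 R)

noncomputable def s2744 (R : VR) (j i : ℕ) : Bool :=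
  (s2740 R i)

theorem e2744 (R : VR) : B2 R (v2744 R) (s2744 R) :=
  B2.rep (e2740 R)

noncomputable def v2745 (R : VR) : ℕ :=
  srM (VR.N R) (VR.S R) (VR.o1 R) (v2743 R)

noncomputable def s2745 (R : VR) (j i : ℕ) : Bool :=
  (s2743 R j)

theorem e2745 (R : VR) : B2 R (v2745 R) (s2745 R) :=
  B2.row (e2743 R)

noncomputable def v2746 (R : VR) : ℕ :=
  Nat.land (Nat.mul (v2740 R) (VR.cr1 R)) (srM (VR.N R) (VR.S R) (VR.o1 R) (v2743 R))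

noncomputable def s2746 (R : VR) (j i : ℕ) : Bool :=
  K.band (s2744 R j i) (s2745 R j i)

theorem e2746 (R : VR) : B2 R (v2746 R) (s2746 R) :=
  B.and (e2744 R) (e2745 R)

noncomputable def v2747 (R : VR) : ℕ :=
  Nat.mod (Nat.land (v2736 R) (v2313 R)) (VR.m1 R)

noncomputable def s2747 (R : VR) (i : ℕ) : Bool :=
  tf (VR.BGXT R) (s2719 R i)

theorem e2747 (R : VR) : B (VR.S R) (v2747 R) (s2747 R) :=
  B.gat (e2719 R) (VR.BGX_is R) (VR.BGX_lt R)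

noncomputable def v2748 (R : VR) : ℕ :=
  Nat.sub (VR.o1 R) (Nat.mod (Nat.land (v2736 R) (v2313 R)) (VR.m1 R))

noncomputable def s2748 (R : VR) (i : ℕ) : Bool :=
  K.bnot (s2747 R i)

theorem e2748 (R : VR) : B (VR.S R) (v2748 R) (s2748 R) :=
  B.not (VR.o1e R) (e2747 R)

noncomputable def v2749 (R : VR) : ℕ :=
  Nat.land (VR.rlT R) (Nat.sub (VR.o1 R) (Nat.mod (Nat.land (v2736 R) (v2313 R)) (VR.m1 R)))

noncomputable def s2749 (R : VR) (i : ℕ) : Bool :=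
  K.band (s435 R i) (s2748 R i)

theorem e2749 (R : VR) : B (VR.S R) (v2749 R) (s2749 R) :=
  B.and (e435 R) (e2748 R)

noncomputable def v2750 (R : VR) : ℕ :=
  Nat.shiftRight (Nat.land (Nat.sub (VR.h1 R) (Nat.xor (v2317 R) (v2731 R))) (VR.h1 R)) (nat_lit
    15)

noncomputable def s2750 (R : VR) (i : ℕ) : Bool :=
  Nat.beq (s2317 R i) (s2731 R i)

theorem e2750 (R : VR) : B (VR.S R) (v2750 R) (s2750 R) :=
  L.beq (VR.h1e R) (e2317 R) (e2731 R)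

noncomputable def v2751 (R : VR) : ℕ :=
  Nat.land (Nat.land (VR.rlT R) (Nat.sub (VR.o1 R) (Nat.mod (Nat.land (v2736 R) (v2313 R)) (VR.m1
    R)))) (Nat.shiftRight (Nat.land (Nat.sub (VR.h1 R) (Nat.xor (v2317 R) (v2731 R))) (VR.h1 R))
    (nat_lit 15))

noncomputable def s2751 (R : VR) (i : ℕ) : Bool :=
  K.band (s2749 R i) (s2750 R i)

theorem e2751 (R : VR) : B (VR.S R) (v2751 R) (s2751 R) :=
  B.and (e2749 R) (e2750 R)

noncomputable def v2752 (R : VR) : ℕ :=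
  gmk (VR.h2 R) (VR.J R) (Nat.mul (v2742 R) (VR.cr1 R))

noncomputable def v2753 (R : VR) : ℕ :=
  Nat.mod (Nat.land (gmk (VR.h2 R) (VR.J R) (Nat.mul (v2742 R) (VR.cr1 R))) (v164 R)) (VR.m1 R)

noncomputable def s2753 (R : VR) (i : ℕ) : ℕ :=
  tx (VR.rhoT R) (s2742 R i)

theorem e2753 (R : VR) : L (VR.S R) (v2753 R) (s2753 R) 255 :=
  L.gat (e2742 R) (VR.rho_is R) (VR.rho_lt R) (VR.rho_le R)

noncomputable def v2754 (R : VR) : ℕ :=
  Nat.shiftRight (Nat.land (Nat.sub (VR.h1 R) (Nat.xor (VR.iota R) (Nat.mod (Nat.land (gmk (VR.h2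
    R) (VR.J R) (Nat.mul (v2742 R) (VR.cr1 R))) (v164 R)) (VR.m1 R)))) (VR.h1 R)) (nat_lit 15)

noncomputable def s2754 (R : VR) (i : ℕ) : Bool :=
  Nat.beq (s0 R i) (s2753 R i)

theorem e2754 (R : VR) : B (VR.S R) (v2754 R) (s2754 R) :=
  L.beq (VR.h1e R) (e0 R) (e2753 R)

noncomputable def v2755 (R : VR) : ℕ :=
  Nat.mul (v2751 R) (VR.cr1 R)

noncomputable def s2755 (R : VR) (j i : ℕ) : Bool :=
  (s2751 R i)

theorem e2755 (R : VR) : B2 R (v2755 R) (s2755 R) :=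
  B2.rep (e2751 R)

noncomputable def v2756 (R : VR) : ℕ :=
  srM (VR.N R) (VR.S R) (VR.o1 R) (v2754 R)

noncomputable def s2756 (R : VR) (j i : ℕ) : Bool :=
  (s2754 R j)

theorem e2756 (R : VR) : B2 R (v2756 R) (s2756 R) :=
  B2.row (e2754 R)

noncomputable def v2757 (R : VR) : ℕ :=
  Nat.land (Nat.mul (v2751 R) (VR.cr1 R)) (srM (VR.N R) (VR.S R) (VR.o1 R) (v2754 R))

noncomputable def s2757 (R : VR) (j i : ℕ) : Bool :=
  K.band (s2755 R j i) (s2756 R j i)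

theorem e2757 (R : VR) : B2 R (v2757 R) (s2757 R) :=
  B.and (e2755 R) (e2756 R)

noncomputable def v2758 (R : VR) : ℕ :=
  Nat.lor (Nat.land (Nat.mul (v2740 R) (VR.cr1 R)) (srM (VR.N R) (VR.S R) (VR.o1 R) (v2743 R)))
    (Nat.land (Nat.mul (v2751 R) (VR.cr1 R)) (srM (VR.N R) (VR.S R) (VR.o1 R) (v2754 R)))

noncomputable def s2758 (R : VR) (j i : ℕ) : Bool :=
  K.bor (s2746 R j i) (s2757 R j i)

theorem e2758 (R : VR) : B2 R (v2758 R) (s2758 R) :=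
  B.or (e2746 R) (e2757 R)

noncomputable def v2759 (R : VR) : ℕ :=
  Nat.land (Nat.shiftRight (Nat.land (Nat.sub (VR.h2 R) (Nat.xor (Nat.mul (v2737 R) (VR.cr1 R))
    (v2721 R))) (VR.h2 R)) (nat_lit 15)) (Nat.lor (Nat.land (Nat.mul (v2740 R) (VR.cr1 R)) (srM
    (VR.N R) (VR.S R) (VR.o1 R) (v2743 R))) (Nat.land (Nat.mul (v2751 R) (VR.cr1 R)) (srM (VR.N R)
    (VR.S R) (VR.o1 R) (v2754 R))))

noncomputable def s2759 (R : VR) (j i : ℕ) : Bool :=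
  K.band (s2739 R j i) (s2758 R j i)

theorem e2759 (R : VR) : B2 R (v2759 R) (s2759 R) :=
  B.and (e2739 R) (e2758 R)

noncomputable def s2760 (R : VR) (j i : ℕ) : Bool :=
  K.Cf_ex22 (VR.Cf R) (tf (VR.BGXT R)) (s2717 R i) (s2717 R j) i j

theorem e2760 (R : VR) : B2 R (v2759 R) (s2760 R) :=
  e2759 R

noncomputable def v2761 (R : VR) : ℕ :=
  Nat.lor (Nat.land (Nat.mul (v2732 R) (VR.cr1 R)) (srM (VR.N R) (VR.S R) (VR.o1 R) (v2732 R)))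
    (Nat.land (Nat.shiftRight (Nat.land (Nat.sub (VR.h2 R) (Nat.xor (Nat.mul (v2737 R) (VR.cr1 R))
    (v2721 R))) (VR.h2 R)) (nat_lit 15)) (Nat.lor (Nat.land (Nat.mul (v2740 R) (VR.cr1 R)) (srM
    (VR.N R) (VR.S R) (VR.o1 R) (v2743 R))) (Nat.land (Nat.mul (v2751 R) (VR.cr1 R)) (srM (VR.N R)
    (VR.S R) (VR.o1 R) (v2754 R)))))

noncomputable def s2761 (R : VR) (j i : ℕ) : Bool :=
  K.bor (s2735 R j i) (s2760 R j i)

theorem e2761 (R : VR) : B2 R (v2761 R) (s2761 R) :=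
  B.or (e2735 R) (e2760 R)

noncomputable def v2762 (R : VR) : ℕ :=
  srM (VR.N R) (VR.S R) (VR.o1 R) (v2737 R)

noncomputable def s2762 (R : VR) (j i : ℕ) : ℕ :=
  (s2737 R j)

theorem e2762 (R : VR) : L2 R (v2762 R) (s2762 R) 255 :=
  L2.row (e2737 R)

noncomputable def v2763 (R : VR) : ℕ :=
  Nat.shiftRight (Nat.land (Nat.sub (VR.h2 R) (Nat.xor (srM (VR.N R) (VR.S R) (VR.o1 R) (v2737 R))
    (v2725 R))) (VR.h2 R)) (nat_lit 15)

noncomputable def s2763 (R : VR) (j i : ℕ) : Bool :=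
  Nat.beq (s2762 R j i) (s2725 R j i)

theorem e2763 (R : VR) : B2 R (v2763 R) (s2763 R) :=
  L.beq (VR.h2e R) (e2762 R) (e2725 R)

noncomputable def v2764 (R : VR) : ℕ :=
  srM (VR.N R) (VR.S R) (VR.o1 R) (v2740 R)

noncomputable def s2764 (R : VR) (j i : ℕ) : Bool :=
  (s2740 R j)

theorem e2764 (R : VR) : B2 R (v2764 R) (s2764 R) :=
  B2.row (e2740 R)

noncomputable def v2765 (R : VR) : ℕ :=
  Nat.mul (v2743 R) (VR.cr1 R)

noncomputable def s2765 (R : VR) (j i : ℕ) : Bool :=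
  (s2743 R i)

theorem e2765 (R : VR) : B2 R (v2765 R) (s2765 R) :=
  B2.rep (e2743 R)

noncomputable def v2766 (R : VR) : ℕ :=
  Nat.land (srM (VR.N R) (VR.S R) (VR.o1 R) (v2740 R)) (Nat.mul (v2743 R) (VR.cr1 R))

noncomputable def s2766 (R : VR) (j i : ℕ) : Bool :=
  K.band (s2764 R j i) (s2765 R j i)

theorem e2766 (R : VR) : B2 R (v2766 R) (s2766 R) :=
  B.and (e2764 R) (e2765 R)

noncomputable def v2767 (R : VR) : ℕ :=
  srM (VR.N R) (VR.S R) (VR.o1 R) (v2751 R)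

noncomputable def s2767 (R : VR) (j i : ℕ) : Bool :=
  (s2751 R j)

theorem e2767 (R : VR) : B2 R (v2767 R) (s2767 R) :=
  B2.row (e2751 R)

noncomputable def v2768 (R : VR) : ℕ :=
  Nat.mul (v2754 R) (VR.cr1 R)

noncomputable def s2768 (R : VR) (j i : ℕ) : Bool :=
  (s2754 R i)

theorem e2768 (R : VR) : B2 R (v2768 R) (s2768 R) :=
  B2.rep (e2754 R)

noncomputable def v2769 (R : VR) : ℕ :=
  Nat.land (srM (VR.N R) (VR.S R) (VR.o1 R) (v2751 R)) (Nat.mul (v2754 R) (VR.cr1 R))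

noncomputable def s2769 (R : VR) (j i : ℕ) : Bool :=
  K.band (s2767 R j i) (s2768 R j i)

theorem e2769 (R : VR) : B2 R (v2769 R) (s2769 R) :=
  B.and (e2767 R) (e2768 R)

noncomputable def v2770 (R : VR) : ℕ :=
  Nat.lor (Nat.land (srM (VR.N R) (VR.S R) (VR.o1 R) (v2740 R)) (Nat.mul (v2743 R) (VR.cr1 R)))
    (Nat.land (srM (VR.N R) (VR.S R) (VR.o1 R) (v2751 R)) (Nat.mul (v2754 R) (VR.cr1 R)))

noncomputable def s2770 (R : VR) (j i : ℕ) : Bool :=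
  K.bor (s2766 R j i) (s2769 R j i)

theorem e2770 (R : VR) : B2 R (v2770 R) (s2770 R) :=
  B.or (e2766 R) (e2769 R)

noncomputable def v2771 (R : VR) : ℕ :=
  Nat.land (Nat.shiftRight (Nat.land (Nat.sub (VR.h2 R) (Nat.xor (srM (VR.N R) (VR.S R) (VR.o1 R)
    (v2737 R)) (v2725 R))) (VR.h2 R)) (nat_lit 15)) (Nat.lor (Nat.land (srM (VR.N R) (VR.S R)
    (VR.o1 R) (v2740 R)) (Nat.mul (v2743 R) (VR.cr1 R))) (Nat.land (srM (VR.N R) (VR.S R) (VR.o1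
    R) (v2751 R)) (Nat.mul (v2754 R) (VR.cr1 R))))

noncomputable def s2771 (R : VR) (j i : ℕ) : Bool :=
  K.band (s2763 R j i) (s2770 R j i)

theorem e2771 (R : VR) : B2 R (v2771 R) (s2771 R) :=
  B.and (e2763 R) (e2770 R)

noncomputable def s2772 (R : VR) (j i : ℕ) : Bool :=
  K.Cf_ex22 (VR.Cf R) (tf (VR.BGXT R)) (s2717 R j) (s2717 R i) j i

theorem e2772 (R : VR) : B2 R (v2771 R) (s2772 R) :=
  e2771 R

noncomputable def v2773 (R : VR) : ℕ :=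
  Nat.lor (v2761 R) (Nat.land (Nat.shiftRight (Nat.land (Nat.sub (VR.h2 R) (Nat.xor (srM (VR.N R)
    (VR.S R) (VR.o1 R) (v2737 R)) (v2725 R))) (VR.h2 R)) (nat_lit 15)) (Nat.lor (Nat.land (srM
    (VR.N R) (VR.S R) (VR.o1 R) (v2740 R)) (Nat.mul (v2743 R) (VR.cr1 R))) (Nat.land (srM (VR.N R)
    (VR.S R) (VR.o1 R) (v2751 R)) (Nat.mul (v2754 R) (VR.cr1 R)))))

noncomputable def s2773 (R : VR) (j i : ℕ) : Bool :=
  K.bor (s2761 R j i) (s2772 R j i)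

theorem e2773 (R : VR) : B2 R (v2773 R) (s2773 R) :=
  B.or (e2761 R) (e2772 R)

noncomputable def s2774 (R : VR) (j i : ℕ) : Bool :=
  K.Cf_exc (VR.Cf R) (tf (VR.BGXT R)) (s2717 R i) (s2717 R j) i j

theorem e2774 (R : VR) : B2 R (v2773 R) (s2774 R) :=
  e2773 R

noncomputable def v2775 (R : VR) : ℕ :=
  Nat.sub (VR.o2 R) (Nat.lor (v2761 R) (Nat.land (Nat.shiftRight (Nat.land (Nat.sub (VR.h2 R)
    (Nat.xor (srM (VR.N R) (VR.S R) (VR.o1 R) (v2737 R)) (v2725 R))) (VR.h2 R)) (nat_lit 15))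
    (Nat.lor (Nat.land (srM (VR.N R) (VR.S R) (VR.o1 R) (v2740 R)) (Nat.mul (v2743 R) (VR.cr1 R)))
    (Nat.land (srM (VR.N R) (VR.S R) (VR.o1 R) (v2751 R)) (Nat.mul (v2754 R) (VR.cr1 R))))))

noncomputable def s2775 (R : VR) (j i : ℕ) : Bool :=
  K.bnot (s2774 R j i)

theorem e2775 (R : VR) : B2 R (v2775 R) (s2775 R) :=
  B.not (VR.o2e R) (e2774 R)

noncomputable def v2776 (R : VR) : ℕ :=
  Nat.land (v2730 R) (Nat.sub (VR.o2 R) (Nat.lor (v2761 R) (Nat.land (Nat.shiftRight (Nat.land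
    (Nat.sub (VR.h2 R) (Nat.xor (srM (VR.N R) (VR.S R) (VR.o1 R) (v2737 R)) (v2725 R))) (VR.h2 R))
    (nat_lit 15)) (Nat.lor (Nat.land (srM (VR.N R) (VR.S R) (VR.o1 R) (v2740 R)) (Nat.mul (v2743
    R) (VR.cr1 R))) (Nat.land (srM (VR.N R) (VR.S R) (VR.o1 R) (v2751 R)) (Nat.mul (v2754 R)
    (VR.cr1 R)))))))

noncomputable def s2776 (R : VR) (j i : ℕ) : Bool :=
  K.band (s2730 R j i) (s2775 R j i)

theorem e2776 (R : VR) : B2 R (v2776 R) (s2776 R) :=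
  B.and (e2730 R) (e2775 R)

noncomputable def v2777 (R : VR) : ℕ :=
  Bool.rec (motive := fun _ => ℕ) (nat_lit 0) (Nat.land (v2730 R) (Nat.sub (VR.o2 R) (Nat.lor
    (v2761 R) (Nat.land (Nat.shiftRight (Nat.land (Nat.sub (VR.h2 R) (Nat.xor (srM (VR.N R) (VR.S
    R) (VR.o1 R) (v2737 R)) (v2725 R))) (VR.h2 R)) (nat_lit 15)) (Nat.lor (Nat.land (srM (VR.N R)
    (VR.S R) (VR.o1 R) (v2740 R)) (Nat.mul (v2743 R) (VR.cr1 R))) (Nat.land (srM (VR.N R) (VR.S R)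
    (VR.o1 R) (v2751 R)) (Nat.mul (v2754 R) (VR.cr1 R)))))))) (v2159 R)

noncomputable def s2777 (R : VR) (j i : ℕ) : Bool :=
  K.band (s2159 R) (s2776 R j i)

theorem e2777 (R : VR) : B2 R (v2777 R) (s2777 R) :=
  B.gand (e2159 R) (e2776 R)

noncomputable def v2778 (R : VR) : ℕ :=
  Nat.mul (v1936 R) (v2161 R)

noncomputable def s2778 (R : VR) : ℕ :=
  Nat.mul (s1936 R) (s2161 R)

theorem e2778 (R : VR) : (v2778 R) = s2778 R :=
  congrArg₂ Nat.mul (e1936 R) (e2161 R)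

theorem b2778 (R : VR) : s2778 R ≤ 70 :=
  Nat.mul_le_mul (b1936 R) (le_of_eq (rfl : s2161 R = (nat_lit 7)))

noncomputable def v2779 (R : VR) : ℕ :=
  Nat.mul (VR.o1 R) (Nat.mul (v1936 R) (v2161 R))

noncomputable def s2779 (R : VR) (i : ℕ) : ℕ :=
  (s2778 R)

theorem e2779 (R : VR) : L (VR.S R) (v2779 R) (s2779 R) 70 :=
  L.scl (VR.o1e R) (e2778 R) (b2778 R) (by decide)

noncomputable def v2780 (R : VR) : ℕ :=
  Nat.add (Nat.mul (VR.o1 R) (Nat.mul (v1936 R) (v2161 R))) (VR.caT R)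

noncomputable def s2780 (R : VR) (i : ℕ) : ℕ :=
  Nat.add (s2779 R i) (s127 R i)

theorem e2780 (R : VR) : L (VR.S R) (v2780 R) (s2780 R) 325 :=
  L.add (e2779 R) (e127 R) (by decide)

noncomputable def v2781 (R : VR) : ℕ :=
  gmk (VR.h2 R) (VR.J R) (Nat.mul (Nat.add (Nat.mul (VR.o1 R) (Nat.mul (v1936 R) (v2161 R)))
    (VR.caT R)) (VR.cr1 R))

noncomputable def v2782 (R : VR) : ℕ :=
  Nat.mod (Nat.land (gmk (VR.h2 R) (VR.J R) (Nat.mul (Nat.add (Nat.mul (VR.o1 R) (Nat.mul (v1936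
    R) (v2161 R))) (VR.caT R)) (VR.cr1 R))) (v1941 R)) (VR.m1 R)

noncomputable def s2782 (R : VR) (i : ℕ) : ℕ :=
  tx (VR.adT R) (s2780 R i)

theorem e2782 (R : VR) : L (VR.S R) (v2782 R) (s2782 R) 255 :=
  L.gat (e2780 R) (VR.ad_is R) (VR.ad_lt R) (VR.ad_le R)

noncomputable def v2783 (R : VR) : ℕ :=
  Nat.shiftRight (Nat.land (Nat.sub (VR.h1 R) (v2782 R)) (VR.h1 R)) (nat_lit 15)

noncomputable def s2783 (R : VR) (i : ℕ) : Bool :=
  Nat.beq (s2782 R i) (nat_lit 0)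

theorem e2783 (R : VR) : B (VR.S R) (v2783 R) (s2783 R) :=
  L.ez (VR.h1e R) (e2782 R)

noncomputable def v2784 (R : VR) : ℕ :=
  Nat.shiftRight (Nat.land (Nat.add (v2782 R) (VR.k1 R)) (VR.h1 R)) (nat_lit 15)

noncomputable def s2784 (R : VR) (i : ℕ) : Bool :=
  K.bnot (Nat.beq (s2782 R i) (nat_lit 0))

theorem e2784 (R : VR) : B (VR.S R) (v2784 R) (s2784 R) :=
  L.nz (VR.h1e R) (VR.k1e R) (e2782 R)

noncomputable def v2785 (R : VR) : ℕ :=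
  Nat.mul (v2784 R) (VR.cr1 R)

noncomputable def s2785 (R : VR) (j i : ℕ) : Bool :=
  (s2784 R i)

theorem e2785 (R : VR) : B2 R (v2785 R) (s2785 R) :=
  B2.rep (e2784 R)

noncomputable def v2786 (R : VR) : ℕ :=
  srM (VR.N R) (VR.S R) (VR.o1 R) (v2784 R)

noncomputable def s2786 (R : VR) (j i : ℕ) : Bool :=
  (s2784 R j)

theorem e2786 (R : VR) : B2 R (v2786 R) (s2786 R) :=
  B2.row (e2784 R)

noncomputable def v2787 (R : VR) : ℕ :=
  Nat.land (Nat.mul (v2784 R) (VR.cr1 R)) (srM (VR.N R) (VR.S R) (VR.o1 R) (v2784 R))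

noncomputable def s2787 (R : VR) (j i : ℕ) : Bool :=
  K.band (s2785 R j i) (s2786 R j i)

theorem e2787 (R : VR) : B2 R (v2787 R) (s2787 R) :=
  B.and (e2785 R) (e2786 R)

noncomputable def v2788 (R : VR) : ℕ :=
  Nat.land (Nat.land (Nat.mul (v2784 R) (VR.cr1 R)) (srM (VR.N R) (VR.S R) (VR.o1 R) (v2784 R)))
    (v2280 R)

noncomputable def s2788 (R : VR) (j i : ℕ) : Bool :=
  K.band (s2787 R j i) (s2280 R j i)

theorem e2788 (R : VR) : B2 R (v2788 R) (s2788 R) :=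
  B.and (e2787 R) (e2280 R)

noncomputable def v2789 (R : VR) : ℕ :=
  Vc.ssub (VR.h1 R) (v2782 R) (v267 R)

noncomputable def s2789 (R : VR) (i : ℕ) : ℕ :=
  Nat.sub (s2782 R i) (s267 R i)

theorem e2789 (R : VR) : L (VR.S R) (v2789 R) (s2789 R) 255 :=
  L.sub (VR.h1e R) (e2782 R) (e267 R)

noncomputable def v2790 (R : VR) : ℕ :=
  gmk (VR.h2 R) (VR.J R) (Nat.mul (v2789 R) (VR.cr1 R))

noncomputable def v2791 (R : VR) : ℕ :=
  Nat.mod (Nat.land (v2790 R) (v164 R)) (VR.m1 R)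

noncomputable def s2791 (R : VR) (i : ℕ) : ℕ :=
  tx (VR.rhoT R) (s2789 R i)

theorem e2791 (R : VR) : L (VR.S R) (v2791 R) (s2791 R) 255 :=
  L.gat (e2789 R) (VR.rho_is R) (VR.rho_lt R) (VR.rho_le R)

noncomputable def v2792 (R : VR) : ℕ :=
  Nat.mul (v2791 R) (VR.cr1 R)

noncomputable def s2792 (R : VR) (j i : ℕ) : ℕ :=
  (s2791 R i)

theorem e2792 (R : VR) : L2 R (v2792 R) (s2792 R) 255 :=
  L2.rep (e2791 R)

noncomputable def v2793 (R : VR) : ℕ :=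
  srM (VR.N R) (VR.S R) (VR.o1 R) (v2789 R)

noncomputable def s2793 (R : VR) (j i : ℕ) : ℕ :=
  (s2789 R j)

theorem e2793 (R : VR) : L2 R (v2793 R) (s2793 R) 255 :=
  L2.row (e2789 R)

noncomputable def v2794 (R : VR) : ℕ :=
  Nat.shiftRight (Nat.land (Nat.sub (VR.h2 R) (Nat.xor (Nat.mul (v2791 R) (VR.cr1 R)) (v2793 R)))
    (VR.h2 R)) (nat_lit 15)

noncomputable def s2794 (R : VR) (j i : ℕ) : Bool :=
  Nat.beq (s2792 R j i) (s2793 R j i)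

theorem e2794 (R : VR) : B2 R (v2794 R) (s2794 R) :=
  L.beq (VR.h2e R) (e2792 R) (e2793 R)

noncomputable def v2795 (R : VR) : ℕ :=
  Nat.sub (VR.o2 R) (Nat.shiftRight (Nat.land (Nat.sub (VR.h2 R) (Nat.xor (Nat.mul (v2791 R)
    (VR.cr1 R)) (v2793 R))) (VR.h2 R)) (nat_lit 15))

noncomputable def s2795 (R : VR) (j i : ℕ) : Bool :=
  K.bnot (s2794 R j i)

theorem e2795 (R : VR) : B2 R (v2795 R) (s2795 R) :=
  B.not (VR.o2e R) (e2794 R)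

noncomputable def v2796 (R : VR) : ℕ :=
  srM (VR.N R) (VR.S R) (VR.o1 R) (v2791 R)

noncomputable def s2796 (R : VR) (j i : ℕ) : ℕ :=
  (s2791 R j)

theorem e2796 (R : VR) : L2 R (v2796 R) (s2796 R) 255 :=
  L2.row (e2791 R)

noncomputable def v2797 (R : VR) : ℕ :=
  Nat.mul (v2789 R) (VR.cr1 R)

noncomputable def s2797 (R : VR) (j i : ℕ) : ℕ :=
  (s2789 R i)

theorem e2797 (R : VR) : L2 R (v2797 R) (s2797 R) 255 :=
  L2.rep (e2789 R)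

noncomputable def v2798 (R : VR) : ℕ :=
  Nat.shiftRight (Nat.land (Nat.sub (VR.h2 R) (Nat.xor (srM (VR.N R) (VR.S R) (VR.o1 R) (v2791 R))
    (v2797 R))) (VR.h2 R)) (nat_lit 15)

noncomputable def s2798 (R : VR) (j i : ℕ) : Bool :=
  Nat.beq (s2796 R j i) (s2797 R j i)

theorem e2798 (R : VR) : B2 R (v2798 R) (s2798 R) :=
  L.beq (VR.h2e R) (e2796 R) (e2797 R)

noncomputable def v2799 (R : VR) : ℕ :=
  Nat.sub (VR.o2 R) (Nat.shiftRight (Nat.land (Nat.sub (VR.h2 R) (Nat.xor (srM (VR.N R) (VR.S R)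
    (VR.o1 R) (v2791 R)) (v2797 R))) (VR.h2 R)) (nat_lit 15))

noncomputable def s2799 (R : VR) (j i : ℕ) : Bool :=
  K.bnot (s2798 R j i)

theorem e2799 (R : VR) : B2 R (v2799 R) (s2799 R) :=
  B.not (VR.o2e R) (e2798 R)

noncomputable def v2800 (R : VR) : ℕ :=
  Nat.land (Nat.sub (VR.o2 R) (Nat.shiftRight (Nat.land (Nat.sub (VR.h2 R) (Nat.xor (Nat.mul
    (v2791 R) (VR.cr1 R)) (v2793 R))) (VR.h2 R)) (nat_lit 15))) (Nat.sub (VR.o2 R) (Nat.shiftRight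
    (Nat.land (Nat.sub (VR.h2 R) (Nat.xor (srM (VR.N R) (VR.S R) (VR.o1 R) (v2791 R)) (v2797 R)))
    (VR.h2 R)) (nat_lit 15)))

noncomputable def s2800 (R : VR) (j i : ℕ) : Bool :=
  K.band (s2795 R j i) (s2799 R j i)

theorem e2800 (R : VR) : B2 R (v2800 R) (s2800 R) :=
  B.and (e2795 R) (e2799 R)

noncomputable def s2801 (R : VR) (j i : ℕ) : Bool :=
  K.Cf_nco (VR.Cf R) (s2789 R i) (s2789 R j)

theorem e2801 (R : VR) : B2 R (v2800 R) (s2801 R) :=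
  e2800 R

noncomputable def v2802 (R : VR) : ℕ :=
  Nat.land (Nat.land (Nat.land (Nat.mul (v2784 R) (VR.cr1 R)) (srM (VR.N R) (VR.S R) (VR.o1 R)
    (v2784 R))) (v2280 R)) (Nat.land (Nat.sub (VR.o2 R) (Nat.shiftRight (Nat.land (Nat.sub (VR.h2
    R) (Nat.xor (Nat.mul (v2791 R) (VR.cr1 R)) (v2793 R))) (VR.h2 R)) (nat_lit 15))) (Nat.sub
    (VR.o2 R) (Nat.shiftRight (Nat.land (Nat.sub (VR.h2 R) (Nat.xor (srM (VR.N R) (VR.S R) (VR.o1
    R) (v2791 R)) (v2797 R))) (VR.h2 R)) (nat_lit 15))))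

noncomputable def s2802 (R : VR) (j i : ℕ) : Bool :=
  K.band (s2788 R j i) (s2801 R j i)

theorem e2802 (R : VR) : B2 R (v2802 R) (s2802 R) :=
  B.and (e2788 R) (e2801 R)

noncomputable def v2803 (R : VR) : ℕ :=
  Nat.mod (Nat.land (v2790 R) (v146 R)) (VR.m1 R)

noncomputable def s2803 (R : VR) (i : ℕ) : ℕ :=
  tx (VR.piT R) (s2789 R i)

theorem e2803 (R : VR) : L (VR.S R) (v2803 R) (s2803 R) 255 :=
  L.gat (e2789 R) (VR.pi_is R) (VR.pi_lt R) (VR.pi_le R)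

noncomputable def v2804 (R : VR) : ℕ :=
  Nat.shiftRight (Nat.land (Nat.sub (VR.h1 R) (Nat.xor (VR.iota R) (v2803 R))) (VR.h1 R)) (nat_lit
    15)

noncomputable def s2804 (R : VR) (i : ℕ) : Bool :=
  Nat.beq (s0 R i) (s2803 R i)

theorem e2804 (R : VR) : B (VR.S R) (v2804 R) (s2804 R) :=
  L.beq (VR.h1e R) (e0 R) (e2803 R)

noncomputable def v2805 (R : VR) : ℕ :=
  Nat.mul (v2804 R) (VR.cr1 R)

noncomputable def s2805 (R : VR) (j i : ℕ) : Bool :=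
  (s2804 R i)

theorem e2805 (R : VR) : B2 R (v2805 R) (s2805 R) :=
  B2.rep (e2804 R)

noncomputable def v2806 (R : VR) : ℕ :=
  srM (VR.N R) (VR.S R) (VR.o1 R) (v2804 R)

noncomputable def s2806 (R : VR) (j i : ℕ) : Bool :=
  (s2804 R j)

theorem e2806 (R : VR) : B2 R (v2806 R) (s2806 R) :=
  B2.row (e2804 R)

noncomputable def v2807 (R : VR) : ℕ :=
  Nat.land (Nat.mul (v2804 R) (VR.cr1 R)) (srM (VR.N R) (VR.S R) (VR.o1 R) (v2804 R))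

noncomputable def s2807 (R : VR) (j i : ℕ) : Bool :=
  K.band (s2805 R j i) (s2806 R j i)

theorem e2807 (R : VR) : B2 R (v2807 R) (s2807 R) :=
  B.and (e2805 R) (e2806 R)

noncomputable def v2808 (R : VR) : ℕ :=
  gmk (VR.h2 R) (VR.J R) (Nat.mul (v2791 R) (VR.cr1 R))

noncomputable def v2809 (R : VR) : ℕ :=
  Nat.mod (Nat.land (v2808 R) (v164 R)) (VR.m1 R)

noncomputable def s2809 (R : VR) (i : ℕ) : ℕ :=
  tx (VR.rhoT R) (s2791 R i)

theorem e2809 (R : VR) : L (VR.S R) (v2809 R) (s2809 R) 255 :=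
  L.gat (e2791 R) (VR.rho_is R) (VR.rho_lt R) (VR.rho_le R)

noncomputable def v2810 (R : VR) : ℕ :=
  Nat.mul (v2809 R) (VR.cr1 R)

noncomputable def s2810 (R : VR) (j i : ℕ) : ℕ :=
  (s2809 R i)

theorem e2810 (R : VR) : L2 R (v2810 R) (s2810 R) 255 :=
  L2.rep (e2809 R)

noncomputable def v2811 (R : VR) : ℕ :=
  Nat.shiftRight (Nat.land (Nat.sub (VR.h2 R) (Nat.xor (Nat.mul (v2809 R) (VR.cr1 R)) (v2793 R)))
    (VR.h2 R)) (nat_lit 15)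

noncomputable def s2811 (R : VR) (j i : ℕ) : Bool :=
  Nat.beq (s2810 R j i) (s2793 R j i)

theorem e2811 (R : VR) : B2 R (v2811 R) (s2811 R) :=
  L.beq (VR.h2e R) (e2810 R) (e2793 R)

noncomputable def v2812 (R : VR) : ℕ :=
  Nat.shiftRight (Nat.land (Nat.sub (VR.h1 R) (Nat.xor (VR.rhoT R) (v2803 R))) (VR.h1 R)) (nat_lit
    15)

noncomputable def s2812 (R : VR) (i : ℕ) : Bool :=
  Nat.beq (s158 R i) (s2803 R i)

theorem e2812 (R : VR) : B (VR.S R) (v2812 R) (s2812 R) :=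
  L.beq (VR.h1e R) (e158 R) (e2803 R)

noncomputable def v2813 (R : VR) : ℕ :=
  gmk (VR.h2 R) (VR.J R) (Nat.mul (v2803 R) (VR.cr1 R))

noncomputable def v2814 (R : VR) : ℕ :=
  Nat.mod (Nat.land (gmk (VR.h2 R) (VR.J R) (Nat.mul (v2803 R) (VR.cr1 R))) (v164 R)) (VR.m1 R)

noncomputable def s2814 (R : VR) (i : ℕ) : ℕ :=
  tx (VR.rhoT R) (s2803 R i)

theorem e2814 (R : VR) : L (VR.S R) (v2814 R) (s2814 R) 255 :=
  L.gat (e2803 R) (VR.rho_is R) (VR.rho_lt R) (VR.rho_le R)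

noncomputable def v2815 (R : VR) : ℕ :=
  Nat.shiftRight (Nat.land (Nat.sub (VR.h1 R) (Nat.xor (VR.iota R) (v2814 R))) (VR.h1 R)) (nat_lit
    15)

noncomputable def s2815 (R : VR) (i : ℕ) : Bool :=
  Nat.beq (s0 R i) (s2814 R i)

theorem e2815 (R : VR) : B (VR.S R) (v2815 R) (s2815 R) :=
  L.beq (VR.h1e R) (e0 R) (e2814 R)

noncomputable def v2816 (R : VR) : ℕ :=
  Nat.mul (v2812 R) (VR.cr1 R)

noncomputable def s2816 (R : VR) (j i : ℕ) : Bool :=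
  (s2812 R i)

theorem e2816 (R : VR) : B2 R (v2816 R) (s2816 R) :=
  B2.rep (e2812 R)

noncomputable def v2817 (R : VR) : ℕ :=
  srM (VR.N R) (VR.S R) (VR.o1 R) (v2815 R)

noncomputable def s2817 (R : VR) (j i : ℕ) : Bool :=
  (s2815 R j)

theorem e2817 (R : VR) : B2 R (v2817 R) (s2817 R) :=
  B2.row (e2815 R)

noncomputable def v2818 (R : VR) : ℕ :=
  Nat.land (Nat.mul (v2812 R) (VR.cr1 R)) (srM (VR.N R) (VR.S R) (VR.o1 R) (v2815 R))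

noncomputable def s2818 (R : VR) (j i : ℕ) : Bool :=
  K.band (s2816 R j i) (s2817 R j i)

theorem e2818 (R : VR) : B2 R (v2818 R) (s2818 R) :=
  B.and (e2816 R) (e2817 R)

noncomputable def v2819 (R : VR) : ℕ :=
  Nat.mod (Nat.land (v2808 R) (v2313 R)) (VR.m1 R)

noncomputable def s2819 (R : VR) (i : ℕ) : Bool :=
  tf (VR.BGXT R) (s2791 R i)

theorem e2819 (R : VR) : B (VR.S R) (v2819 R) (s2819 R) :=
  B.gat (e2791 R) (VR.BGX_is R) (VR.BGX_lt R)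

noncomputable def v2820 (R : VR) : ℕ :=
  Nat.sub (VR.o1 R) (Nat.mod (Nat.land (v2808 R) (v2313 R)) (VR.m1 R))

noncomputable def s2820 (R : VR) (i : ℕ) : Bool :=
  K.bnot (s2819 R i)

theorem e2820 (R : VR) : B (VR.S R) (v2820 R) (s2820 R) :=
  B.not (VR.o1e R) (e2819 R)

noncomputable def v2821 (R : VR) : ℕ :=
  Nat.land (VR.rlT R) (Nat.sub (VR.o1 R) (Nat.mod (Nat.land (v2808 R) (v2313 R)) (VR.m1 R)))

noncomputable def s2821 (R : VR) (i : ℕ) : Bool :=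
  K.band (s435 R i) (s2820 R i)

theorem e2821 (R : VR) : B (VR.S R) (v2821 R) (s2821 R) :=
  B.and (e435 R) (e2820 R)

noncomputable def v2822 (R : VR) : ℕ :=
  Nat.shiftRight (Nat.land (Nat.sub (VR.h1 R) (Nat.xor (v2317 R) (v2803 R))) (VR.h1 R)) (nat_lit
    15)

noncomputable def s2822 (R : VR) (i : ℕ) : Bool :=
  Nat.beq (s2317 R i) (s2803 R i)

theorem e2822 (R : VR) : B (VR.S R) (v2822 R) (s2822 R) :=
  L.beq (VR.h1e R) (e2317 R) (e2803 R)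

noncomputable def v2823 (R : VR) : ℕ :=
  Nat.land (Nat.land (VR.rlT R) (Nat.sub (VR.o1 R) (Nat.mod (Nat.land (v2808 R) (v2313 R)) (VR.m1
    R)))) (Nat.shiftRight (Nat.land (Nat.sub (VR.h1 R) (Nat.xor (v2317 R) (v2803 R))) (VR.h1 R))
    (nat_lit 15))

noncomputable def s2823 (R : VR) (i : ℕ) : Bool :=
  K.band (s2821 R i) (s2822 R i)

theorem e2823 (R : VR) : B (VR.S R) (v2823 R) (s2823 R) :=
  B.and (e2821 R) (e2822 R)

noncomputable def v2824 (R : VR) : ℕ :=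
  gmk (VR.h2 R) (VR.J R) (Nat.mul (v2814 R) (VR.cr1 R))

noncomputable def v2825 (R : VR) : ℕ :=
  Nat.mod (Nat.land (gmk (VR.h2 R) (VR.J R) (Nat.mul (v2814 R) (VR.cr1 R))) (v164 R)) (VR.m1 R)

noncomputable def s2825 (R : VR) (i : ℕ) : ℕ :=
  tx (VR.rhoT R) (s2814 R i)

theorem e2825 (R : VR) : L (VR.S R) (v2825 R) (s2825 R) 255 :=
  L.gat (e2814 R) (VR.rho_is R) (VR.rho_lt R) (VR.rho_le R)

noncomputable def v2826 (R : VR) : ℕ :=
  Nat.shiftRight (Nat.land (Nat.sub (VR.h1 R) (Nat.xor (VR.iota R) (Nat.mod (Nat.land (gmk (VR.h2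
    R) (VR.J R) (Nat.mul (v2814 R) (VR.cr1 R))) (v164 R)) (VR.m1 R)))) (VR.h1 R)) (nat_lit 15)

noncomputable def s2826 (R : VR) (i : ℕ) : Bool :=
  Nat.beq (s0 R i) (s2825 R i)

theorem e2826 (R : VR) : B (VR.S R) (v2826 R) (s2826 R) :=
  L.beq (VR.h1e R) (e0 R) (e2825 R)

noncomputable def v2827 (R : VR) : ℕ :=
  Nat.mul (v2823 R) (VR.cr1 R)

noncomputable def s2827 (R : VR) (j i : ℕ) : Bool :=
  (s2823 R i)

theorem e2827 (R : VR) : B2 R (v2827 R) (s2827 R) :=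
  B2.rep (e2823 R)

noncomputable def v2828 (R : VR) : ℕ :=
  srM (VR.N R) (VR.S R) (VR.o1 R) (v2826 R)

noncomputable def s2828 (R : VR) (j i : ℕ) : Bool :=
  (s2826 R j)

theorem e2828 (R : VR) : B2 R (v2828 R) (s2828 R) :=
  B2.row (e2826 R)

noncomputable def v2829 (R : VR) : ℕ :=
  Nat.land (Nat.mul (v2823 R) (VR.cr1 R)) (srM (VR.N R) (VR.S R) (VR.o1 R) (v2826 R))

noncomputable def s2829 (R : VR) (j i : ℕ) : Bool :=
  K.band (s2827 R j i) (s2828 R j i)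

theorem e2829 (R : VR) : B2 R (v2829 R) (s2829 R) :=
  B.and (e2827 R) (e2828 R)

noncomputable def v2830 (R : VR) : ℕ :=
  Nat.lor (Nat.land (Nat.mul (v2812 R) (VR.cr1 R)) (srM (VR.N R) (VR.S R) (VR.o1 R) (v2815 R)))
    (Nat.land (Nat.mul (v2823 R) (VR.cr1 R)) (srM (VR.N R) (VR.S R) (VR.o1 R) (v2826 R)))

noncomputable def s2830 (R : VR) (j i : ℕ) : Bool :=
  K.bor (s2818 R j i) (s2829 R j i)

theorem e2830 (R : VR) : B2 R (v2830 R) (s2830 R) :=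
  B.or (e2818 R) (e2829 R)

noncomputable def v2831 (R : VR) : ℕ :=
  Nat.land (Nat.shiftRight (Nat.land (Nat.sub (VR.h2 R) (Nat.xor (Nat.mul (v2809 R) (VR.cr1 R))
    (v2793 R))) (VR.h2 R)) (nat_lit 15)) (Nat.lor (Nat.land (Nat.mul (v2812 R) (VR.cr1 R)) (srM
    (VR.N R) (VR.S R) (VR.o1 R) (v2815 R))) (Nat.land (Nat.mul (v2823 R) (VR.cr1 R)) (srM (VR.N R)
    (VR.S R) (VR.o1 R) (v2826 R))))

noncomputable def s2831 (R : VR) (j i : ℕ) : Bool :=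
  K.band (s2811 R j i) (s2830 R j i)

theorem e2831 (R : VR) : B2 R (v2831 R) (s2831 R) :=
  B.and (e2811 R) (e2830 R)

noncomputable def s2832 (R : VR) (j i : ℕ) : Bool :=
  K.Cf_ex22 (VR.Cf R) (tf (VR.BGXT R)) (s2789 R i) (s2789 R j) i j

theorem e2832 (R : VR) : B2 R (v2831 R) (s2832 R) :=
  e2831 R

noncomputable def v2833 (R : VR) : ℕ :=
  Nat.lor (Nat.land (Nat.mul (v2804 R) (VR.cr1 R)) (srM (VR.N R) (VR.S R) (VR.o1 R) (v2804 R)))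
    (Nat.land (Nat.shiftRight (Nat.land (Nat.sub (VR.h2 R) (Nat.xor (Nat.mul (v2809 R) (VR.cr1 R))
    (v2793 R))) (VR.h2 R)) (nat_lit 15)) (Nat.lor (Nat.land (Nat.mul (v2812 R) (VR.cr1 R)) (srM
    (VR.N R) (VR.S R) (VR.o1 R) (v2815 R))) (Nat.land (Nat.mul (v2823 R) (VR.cr1 R)) (srM (VR.N R)
    (VR.S R) (VR.o1 R) (v2826 R)))))

noncomputable def s2833 (R : VR) (j i : ℕ) : Bool :=
  K.bor (s2807 R j i) (s2832 R j i)

theorem e2833 (R : VR) : B2 R (v2833 R) (s2833 R) :=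
  B.or (e2807 R) (e2832 R)

noncomputable def v2834 (R : VR) : ℕ :=
  srM (VR.N R) (VR.S R) (VR.o1 R) (v2809 R)

noncomputable def s2834 (R : VR) (j i : ℕ) : ℕ :=
  (s2809 R j)

theorem e2834 (R : VR) : L2 R (v2834 R) (s2834 R) 255 :=
  L2.row (e2809 R)

noncomputable def v2835 (R : VR) : ℕ :=
  Nat.shiftRight (Nat.land (Nat.sub (VR.h2 R) (Nat.xor (srM (VR.N R) (VR.S R) (VR.o1 R) (v2809 R))
    (v2797 R))) (VR.h2 R)) (nat_lit 15)

noncomputable def s2835 (R : VR) (j i : ℕ) : Bool :=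
  Nat.beq (s2834 R j i) (s2797 R j i)

theorem e2835 (R : VR) : B2 R (v2835 R) (s2835 R) :=
  L.beq (VR.h2e R) (e2834 R) (e2797 R)

noncomputable def v2836 (R : VR) : ℕ :=
  srM (VR.N R) (VR.S R) (VR.o1 R) (v2812 R)

noncomputable def s2836 (R : VR) (j i : ℕ) : Bool :=
  (s2812 R j)

theorem e2836 (R : VR) : B2 R (v2836 R) (s2836 R) :=
  B2.row (e2812 R)

noncomputable def v2837 (R : VR) : ℕ :=
  Nat.mul (v2815 R) (VR.cr1 R)

noncomputable def s2837 (R : VR) (j i : ℕ) : Bool :=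
  (s2815 R i)

theorem e2837 (R : VR) : B2 R (v2837 R) (s2837 R) :=
  B2.rep (e2815 R)

noncomputable def v2838 (R : VR) : ℕ :=
  Nat.land (srM (VR.N R) (VR.S R) (VR.o1 R) (v2812 R)) (Nat.mul (v2815 R) (VR.cr1 R))

noncomputable def s2838 (R : VR) (j i : ℕ) : Bool :=
  K.band (s2836 R j i) (s2837 R j i)

theorem e2838 (R : VR) : B2 R (v2838 R) (s2838 R) :=
  B.and (e2836 R) (e2837 R)

noncomputable def v2839 (R : VR) : ℕ :=
  srM (VR.N R) (VR.S R) (VR.o1 R) (v2823 R)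

noncomputable def s2839 (R : VR) (j i : ℕ) : Bool :=
  (s2823 R j)

theorem e2839 (R : VR) : B2 R (v2839 R) (s2839 R) :=
  B2.row (e2823 R)

noncomputable def v2840 (R : VR) : ℕ :=
  Nat.mul (v2826 R) (VR.cr1 R)

noncomputable def s2840 (R : VR) (j i : ℕ) : Bool :=
  (s2826 R i)

theorem e2840 (R : VR) : B2 R (v2840 R) (s2840 R) :=
  B2.rep (e2826 R)

noncomputable def v2841 (R : VR) : ℕ :=
  Nat.land (srM (VR.N R) (VR.S R) (VR.o1 R) (v2823 R)) (Nat.mul (v2826 R) (VR.cr1 R))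

noncomputable def s2841 (R : VR) (j i : ℕ) : Bool :=
  K.band (s2839 R j i) (s2840 R j i)

theorem e2841 (R : VR) : B2 R (v2841 R) (s2841 R) :=
  B.and (e2839 R) (e2840 R)

noncomputable def v2842 (R : VR) : ℕ :=
  Nat.lor (Nat.land (srM (VR.N R) (VR.S R) (VR.o1 R) (v2812 R)) (Nat.mul (v2815 R) (VR.cr1 R)))
    (Nat.land (srM (VR.N R) (VR.S R) (VR.o1 R) (v2823 R)) (Nat.mul (v2826 R) (VR.cr1 R)))

noncomputable def s2842 (R : VR) (j i : ℕ) : Bool :=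
  K.bor (s2838 R j i) (s2841 R j i)

theorem e2842 (R : VR) : B2 R (v2842 R) (s2842 R) :=
  B.or (e2838 R) (e2841 R)

noncomputable def v2843 (R : VR) : ℕ :=
  Nat.land (Nat.shiftRight (Nat.land (Nat.sub (VR.h2 R) (Nat.xor (srM (VR.N R) (VR.S R) (VR.o1 R)
    (v2809 R)) (v2797 R))) (VR.h2 R)) (nat_lit 15)) (Nat.lor (Nat.land (srM (VR.N R) (VR.S R)
    (VR.o1 R) (v2812 R)) (Nat.mul (v2815 R) (VR.cr1 R))) (Nat.land (srM (VR.N R) (VR.S R) (VR.o1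
    R) (v2823 R)) (Nat.mul (v2826 R) (VR.cr1 R))))

noncomputable def s2843 (R : VR) (j i : ℕ) : Bool :=
  K.band (s2835 R j i) (s2842 R j i)

theorem e2843 (R : VR) : B2 R (v2843 R) (s2843 R) :=
  B.and (e2835 R) (e2842 R)

noncomputable def s2844 (R : VR) (j i : ℕ) : Bool :=
  K.Cf_ex22 (VR.Cf R) (tf (VR.BGXT R)) (s2789 R j) (s2789 R i) j i

theorem e2844 (R : VR) : B2 R (v2843 R) (s2844 R) :=
  e2843 R

noncomputable def v2845 (R : VR) : ℕ :=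
  Nat.lor (v2833 R) (Nat.land (Nat.shiftRight (Nat.land (Nat.sub (VR.h2 R) (Nat.xor (srM (VR.N R)
    (VR.S R) (VR.o1 R) (v2809 R)) (v2797 R))) (VR.h2 R)) (nat_lit 15)) (Nat.lor (Nat.land (srM
    (VR.N R) (VR.S R) (VR.o1 R) (v2812 R)) (Nat.mul (v2815 R) (VR.cr1 R))) (Nat.land (srM (VR.N R)
    (VR.S R) (VR.o1 R) (v2823 R)) (Nat.mul (v2826 R) (VR.cr1 R)))))

noncomputable def s2845 (R : VR) (j i : ℕ) : Bool :=
  K.bor (s2833 R j i) (s2844 R j i)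

theorem e2845 (R : VR) : B2 R (v2845 R) (s2845 R) :=
  B.or (e2833 R) (e2844 R)

noncomputable def s2846 (R : VR) (j i : ℕ) : Bool :=
  K.Cf_exc (VR.Cf R) (tf (VR.BGXT R)) (s2789 R i) (s2789 R j) i j

theorem e2846 (R : VR) : B2 R (v2845 R) (s2846 R) :=
  e2845 R

noncomputable def v2847 (R : VR) : ℕ :=
  Nat.sub (VR.o2 R) (Nat.lor (v2833 R) (Nat.land (Nat.shiftRight (Nat.land (Nat.sub (VR.h2 R)
    (Nat.xor (srM (VR.N R) (VR.S R) (VR.o1 R) (v2809 R)) (v2797 R))) (VR.h2 R)) (nat_lit 15))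
    (Nat.lor (Nat.land (srM (VR.N R) (VR.S R) (VR.o1 R) (v2812 R)) (Nat.mul (v2815 R) (VR.cr1 R)))
    (Nat.land (srM (VR.N R) (VR.S R) (VR.o1 R) (v2823 R)) (Nat.mul (v2826 R) (VR.cr1 R))))))

noncomputable def s2847 (R : VR) (j i : ℕ) : Bool :=
  K.bnot (s2846 R j i)

theorem e2847 (R : VR) : B2 R (v2847 R) (s2847 R) :=
  B.not (VR.o2e R) (e2846 R)

noncomputable def v2848 (R : VR) : ℕ :=
  Nat.land (v2802 R) (Nat.sub (VR.o2 R) (Nat.lor (v2833 R) (Nat.land (Nat.shiftRight (Nat.land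
    (Nat.sub (VR.h2 R) (Nat.xor (srM (VR.N R) (VR.S R) (VR.o1 R) (v2809 R)) (v2797 R))) (VR.h2 R))
    (nat_lit 15)) (Nat.lor (Nat.land (srM (VR.N R) (VR.S R) (VR.o1 R) (v2812 R)) (Nat.mul (v2815
    R) (VR.cr1 R))) (Nat.land (srM (VR.N R) (VR.S R) (VR.o1 R) (v2823 R)) (Nat.mul (v2826 R)
    (VR.cr1 R)))))))

noncomputable def s2848 (R : VR) (j i : ℕ) : Bool :=
  K.band (s2802 R j i) (s2847 R j i)

theorem e2848 (R : VR) : B2 R (v2848 R) (s2848 R) :=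
  B.and (e2802 R) (e2847 R)

noncomputable def v2849 (R : VR) : ℕ :=
  Bool.rec (motive := fun _ => ℕ) (nat_lit 0) (Nat.land (v2802 R) (Nat.sub (VR.o2 R) (Nat.lor
    (v2833 R) (Nat.land (Nat.shiftRight (Nat.land (Nat.sub (VR.h2 R) (Nat.xor (srM (VR.N R) (VR.S
    R) (VR.o1 R) (v2809 R)) (v2797 R))) (VR.h2 R)) (nat_lit 15)) (Nat.lor (Nat.land (srM (VR.N R)
    (VR.S R) (VR.o1 R) (v2812 R)) (Nat.mul (v2815 R) (VR.cr1 R))) (Nat.land (srM (VR.N R) (VR.S R)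
    (VR.o1 R) (v2823 R)) (Nat.mul (v2826 R) (VR.cr1 R)))))))) (v2192 R)

noncomputable def s2849 (R : VR) (j i : ℕ) : Bool :=
  K.band (s2192 R) (s2848 R j i)

theorem e2849 (R : VR) : B2 R (v2849 R) (s2849 R) :=
  B.gand (e2192 R) (e2848 R)

noncomputable def v2850 (R : VR) : ℕ :=
  Nat.mul (v1936 R) (v2194 R)

noncomputable def s2850 (R : VR) : ℕ :=
  Nat.mul (s1936 R) (s2194 R)

theorem e2850 (R : VR) : (v2850 R) = s2850 R :=
  congrArg₂ Nat.mul (e1936 R) (e2194 R)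

theorem b2850 (R : VR) : s2850 R ≤ 80 :=
  Nat.mul_le_mul (b1936 R) (le_of_eq (rfl : s2194 R = (nat_lit 8)))

noncomputable def v2851 (R : VR) : ℕ :=
  Nat.mul (VR.o1 R) (Nat.mul (v1936 R) (v2194 R))

noncomputable def s2851 (R : VR) (i : ℕ) : ℕ :=
  (s2850 R)

theorem e2851 (R : VR) : L (VR.S R) (v2851 R) (s2851 R) 80 :=
  L.scl (VR.o1e R) (e2850 R) (b2850 R) (by decide)

noncomputable def v2852 (R : VR) : ℕ :=
  Nat.add (Nat.mul (VR.o1 R) (Nat.mul (v1936 R) (v2194 R))) (VR.caT R)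

noncomputable def s2852 (R : VR) (i : ℕ) : ℕ :=
  Nat.add (s2851 R i) (s127 R i)

theorem e2852 (R : VR) : L (VR.S R) (v2852 R) (s2852 R) 335 :=
  L.add (e2851 R) (e127 R) (by decide)

noncomputable def v2853 (R : VR) : ℕ :=
  gmk (VR.h2 R) (VR.J R) (Nat.mul (Nat.add (Nat.mul (VR.o1 R) (Nat.mul (v1936 R) (v2194 R)))
    (VR.caT R)) (VR.cr1 R))

noncomputable def v2854 (R : VR) : ℕ :=
  Nat.mod (Nat.land (gmk (VR.h2 R) (VR.J R) (Nat.mul (Nat.add (Nat.mul (VR.o1 R) (Nat.mul (v1936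
    R) (v2194 R))) (VR.caT R)) (VR.cr1 R))) (v1941 R)) (VR.m1 R)

noncomputable def s2854 (R : VR) (i : ℕ) : ℕ :=
  tx (VR.adT R) (s2852 R i)

theorem e2854 (R : VR) : L (VR.S R) (v2854 R) (s2854 R) 255 :=
  L.gat (e2852 R) (VR.ad_is R) (VR.ad_lt R) (VR.ad_le R)

noncomputable def v2855 (R : VR) : ℕ :=
  Nat.shiftRight (Nat.land (Nat.sub (VR.h1 R) (v2854 R)) (VR.h1 R)) (nat_lit 15)

noncomputable def s2855 (R : VR) (i : ℕ) : Bool :=
  Nat.beq (s2854 R i) (nat_lit 0)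

theorem e2855 (R : VR) : B (VR.S R) (v2855 R) (s2855 R) :=
  L.ez (VR.h1e R) (e2854 R)

noncomputable def v2856 (R : VR) : ℕ :=
  Nat.shiftRight (Nat.land (Nat.add (v2854 R) (VR.k1 R)) (VR.h1 R)) (nat_lit 15)

noncomputable def s2856 (R : VR) (i : ℕ) : Bool :=
  K.bnot (Nat.beq (s2854 R i) (nat_lit 0))

theorem e2856 (R : VR) : B (VR.S R) (v2856 R) (s2856 R) :=
  L.nz (VR.h1e R) (VR.k1e R) (e2854 R)

noncomputable def v2857 (R : VR) : ℕ :=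
  Nat.mul (v2856 R) (VR.cr1 R)

noncomputable def s2857 (R : VR) (j i : ℕ) : Bool :=
  (s2856 R i)

theorem e2857 (R : VR) : B2 R (v2857 R) (s2857 R) :=
  B2.rep (e2856 R)

noncomputable def v2858 (R : VR) : ℕ :=
  srM (VR.N R) (VR.S R) (VR.o1 R) (v2856 R)

noncomputable def s2858 (R : VR) (j i : ℕ) : Bool :=
  (s2856 R j)

theorem e2858 (R : VR) : B2 R (v2858 R) (s2858 R) :=
  B2.row (e2856 R)

noncomputable def v2859 (R : VR) : ℕ :=
  Nat.land (Nat.mul (v2856 R) (VR.cr1 R)) (srM (VR.N R) (VR.S R) (VR.o1 R) (v2856 R))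

noncomputable def s2859 (R : VR) (j i : ℕ) : Bool :=
  K.band (s2857 R j i) (s2858 R j i)

theorem e2859 (R : VR) : B2 R (v2859 R) (s2859 R) :=
  B.and (e2857 R) (e2858 R)

noncomputable def v2860 (R : VR) : ℕ :=
  Nat.land (Nat.land (Nat.mul (v2856 R) (VR.cr1 R)) (srM (VR.N R) (VR.S R) (VR.o1 R) (v2856 R)))
    (v2280 R)

noncomputable def s2860 (R : VR) (j i : ℕ) : Bool :=
  K.band (s2859 R j i) (s2280 R j i)

theorem e2860 (R : VR) : B2 R (v2860 R) (s2860 R) :=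
  B.and (e2859 R) (e2280 R)

noncomputable def v2861 (R : VR) : ℕ :=
  Vc.ssub (VR.h1 R) (v2854 R) (v267 R)

noncomputable def s2861 (R : VR) (i : ℕ) : ℕ :=
  Nat.sub (s2854 R i) (s267 R i)

theorem e2861 (R : VR) : L (VR.S R) (v2861 R) (s2861 R) 255 :=
  L.sub (VR.h1e R) (e2854 R) (e267 R)

noncomputable def v2862 (R : VR) : ℕ :=
  gmk (VR.h2 R) (VR.J R) (Nat.mul (v2861 R) (VR.cr1 R))

noncomputable def v2863 (R : VR) : ℕ :=
  Nat.mod (Nat.land (v2862 R) (v164 R)) (VR.m1 R)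

noncomputable def s2863 (R : VR) (i : ℕ) : ℕ :=
  tx (VR.rhoT R) (s2861 R i)

theorem e2863 (R : VR) : L (VR.S R) (v2863 R) (s2863 R) 255 :=
  L.gat (e2861 R) (VR.rho_is R) (VR.rho_lt R) (VR.rho_le R)

noncomputable def v2864 (R : VR) : ℕ :=
  Nat.mul (v2863 R) (VR.cr1 R)

noncomputable def s2864 (R : VR) (j i : ℕ) : ℕ :=
  (s2863 R i)

theorem e2864 (R : VR) : L2 R (v2864 R) (s2864 R) 255 :=
  L2.rep (e2863 R)

noncomputable def v2865 (R : VR) : ℕ :=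
  srM (VR.N R) (VR.S R) (VR.o1 R) (v2861 R)

noncomputable def s2865 (R : VR) (j i : ℕ) : ℕ :=
  (s2861 R j)

theorem e2865 (R : VR) : L2 R (v2865 R) (s2865 R) 255 :=
  L2.row (e2861 R)

noncomputable def v2866 (R : VR) : ℕ :=
  Nat.shiftRight (Nat.land (Nat.sub (VR.h2 R) (Nat.xor (Nat.mul (v2863 R) (VR.cr1 R)) (v2865 R)))
    (VR.h2 R)) (nat_lit 15)

noncomputable def s2866 (R : VR) (j i : ℕ) : Bool :=
  Nat.beq (s2864 R j i) (s2865 R j i)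

theorem e2866 (R : VR) : B2 R (v2866 R) (s2866 R) :=
  L.beq (VR.h2e R) (e2864 R) (e2865 R)

noncomputable def v2867 (R : VR) : ℕ :=
  Nat.sub (VR.o2 R) (Nat.shiftRight (Nat.land (Nat.sub (VR.h2 R) (Nat.xor (Nat.mul (v2863 R)
    (VR.cr1 R)) (v2865 R))) (VR.h2 R)) (nat_lit 15))

noncomputable def s2867 (R : VR) (j i : ℕ) : Bool :=
  K.bnot (s2866 R j i)

theorem e2867 (R : VR) : B2 R (v2867 R) (s2867 R) :=
  B.not (VR.o2e R) (e2866 R)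

noncomputable def v2868 (R : VR) : ℕ :=
  srM (VR.N R) (VR.S R) (VR.o1 R) (v2863 R)

noncomputable def s2868 (R : VR) (j i : ℕ) : ℕ :=
  (s2863 R j)

theorem e2868 (R : VR) : L2 R (v2868 R) (s2868 R) 255 :=
  L2.row (e2863 R)

noncomputable def v2869 (R : VR) : ℕ :=
  Nat.mul (v2861 R) (VR.cr1 R)

noncomputable def s2869 (R : VR) (j i : ℕ) : ℕ :=
  (s2861 R i)

theorem e2869 (R : VR) : L2 R (v2869 R) (s2869 R) 255 :=
  L2.rep (e2861 R)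

noncomputable def v2870 (R : VR) : ℕ :=
  Nat.shiftRight (Nat.land (Nat.sub (VR.h2 R) (Nat.xor (srM (VR.N R) (VR.S R) (VR.o1 R) (v2863 R))
    (v2869 R))) (VR.h2 R)) (nat_lit 15)

noncomputable def s2870 (R : VR) (j i : ℕ) : Bool :=
  Nat.beq (s2868 R j i) (s2869 R j i)

theorem e2870 (R : VR) : B2 R (v2870 R) (s2870 R) :=
  L.beq (VR.h2e R) (e2868 R) (e2869 R)

noncomputable def v2871 (R : VR) : ℕ :=
  Nat.sub (VR.o2 R) (Nat.shiftRight (Nat.land (Nat.sub (VR.h2 R) (Nat.xor (srM (VR.N R) (VR.S R)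
    (VR.o1 R) (v2863 R)) (v2869 R))) (VR.h2 R)) (nat_lit 15))

noncomputable def s2871 (R : VR) (j i : ℕ) : Bool :=
  K.bnot (s2870 R j i)

theorem e2871 (R : VR) : B2 R (v2871 R) (s2871 R) :=
  B.not (VR.o2e R) (e2870 R)

noncomputable def v2872 (R : VR) : ℕ :=
  Nat.land (Nat.sub (VR.o2 R) (Nat.shiftRight (Nat.land (Nat.sub (VR.h2 R) (Nat.xor (Nat.mul
    (v2863 R) (VR.cr1 R)) (v2865 R))) (VR.h2 R)) (nat_lit 15))) (Nat.sub (VR.o2 R) (Nat.shiftRight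
    (Nat.land (Nat.sub (VR.h2 R) (Nat.xor (srM (VR.N R) (VR.S R) (VR.o1 R) (v2863 R)) (v2869 R)))
    (VR.h2 R)) (nat_lit 15)))

noncomputable def s2872 (R : VR) (j i : ℕ) : Bool :=
  K.band (s2867 R j i) (s2871 R j i)

theorem e2872 (R : VR) : B2 R (v2872 R) (s2872 R) :=
  B.and (e2867 R) (e2871 R)

noncomputable def s2873 (R : VR) (j i : ℕ) : Bool :=
  K.Cf_nco (VR.Cf R) (s2861 R i) (s2861 R j)

theorem e2873 (R : VR) : B2 R (v2872 R) (s2873 R) :=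
  e2872 R

noncomputable def v2874 (R : VR) : ℕ :=
  Nat.land (Nat.land (Nat.land (Nat.mul (v2856 R) (VR.cr1 R)) (srM (VR.N R) (VR.S R) (VR.o1 R)
    (v2856 R))) (v2280 R)) (Nat.land (Nat.sub (VR.o2 R) (Nat.shiftRight (Nat.land (Nat.sub (VR.h2
    R) (Nat.xor (Nat.mul (v2863 R) (VR.cr1 R)) (v2865 R))) (VR.h2 R)) (nat_lit 15))) (Nat.sub
    (VR.o2 R) (Nat.shiftRight (Nat.land (Nat.sub (VR.h2 R) (Nat.xor (srM (VR.N R) (VR.S R) (VR.o1
    R) (v2863 R)) (v2869 R))) (VR.h2 R)) (nat_lit 15))))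

noncomputable def s2874 (R : VR) (j i : ℕ) : Bool :=
  K.band (s2860 R j i) (s2873 R j i)

theorem e2874 (R : VR) : B2 R (v2874 R) (s2874 R) :=
  B.and (e2860 R) (e2873 R)

noncomputable def v2875 (R : VR) : ℕ :=
  Nat.mod (Nat.land (v2862 R) (v146 R)) (VR.m1 R)

noncomputable def s2875 (R : VR) (i : ℕ) : ℕ :=
  tx (VR.piT R) (s2861 R i)

theorem e2875 (R : VR) : L (VR.S R) (v2875 R) (s2875 R) 255 :=
  L.gat (e2861 R) (VR.pi_is R) (VR.pi_lt R) (VR.pi_le R)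

noncomputable def v2876 (R : VR) : ℕ :=
  Nat.shiftRight (Nat.land (Nat.sub (VR.h1 R) (Nat.xor (VR.iota R) (v2875 R))) (VR.h1 R)) (nat_lit
    15)

noncomputable def s2876 (R : VR) (i : ℕ) : Bool :=
  Nat.beq (s0 R i) (s2875 R i)

theorem e2876 (R : VR) : B (VR.S R) (v2876 R) (s2876 R) :=
  L.beq (VR.h1e R) (e0 R) (e2875 R)

noncomputable def v2877 (R : VR) : ℕ :=
  Nat.mul (v2876 R) (VR.cr1 R)

noncomputable def s2877 (R : VR) (j i : ℕ) : Bool :=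
  (s2876 R i)

theorem e2877 (R : VR) : B2 R (v2877 R) (s2877 R) :=
  B2.rep (e2876 R)

noncomputable def v2878 (R : VR) : ℕ :=
  srM (VR.N R) (VR.S R) (VR.o1 R) (v2876 R)

noncomputable def s2878 (R : VR) (j i : ℕ) : Bool :=
  (s2876 R j)

theorem e2878 (R : VR) : B2 R (v2878 R) (s2878 R) :=
  B2.row (e2876 R)

noncomputable def v2879 (R : VR) : ℕ :=
  Nat.land (Nat.mul (v2876 R) (VR.cr1 R)) (srM (VR.N R) (VR.S R) (VR.o1 R) (v2876 R))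

noncomputable def s2879 (R : VR) (j i : ℕ) : Bool :=
  K.band (s2877 R j i) (s2878 R j i)

theorem e2879 (R : VR) : B2 R (v2879 R) (s2879 R) :=
  B.and (e2877 R) (e2878 R)

noncomputable def v2880 (R : VR) : ℕ :=
  gmk (VR.h2 R) (VR.J R) (Nat.mul (v2863 R) (VR.cr1 R))

noncomputable def v2881 (R : VR) : ℕ :=
  Nat.mod (Nat.land (v2880 R) (v164 R)) (VR.m1 R)

noncomputable def s2881 (R : VR) (i : ℕ) : ℕ :=
  tx (VR.rhoT R) (s2863 R i)

theorem e2881 (R : VR) : L (VR.S R) (v2881 R) (s2881 R) 255 :=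
  L.gat (e2863 R) (VR.rho_is R) (VR.rho_lt R) (VR.rho_le R)

noncomputable def v2882 (R : VR) : ℕ :=
  Nat.mul (v2881 R) (VR.cr1 R)

noncomputable def s2882 (R : VR) (j i : ℕ) : ℕ :=
  (s2881 R i)

theorem e2882 (R : VR) : L2 R (v2882 R) (s2882 R) 255 :=
  L2.rep (e2881 R)

noncomputable def v2883 (R : VR) : ℕ :=
  Nat.shiftRight (Nat.land (Nat.sub (VR.h2 R) (Nat.xor (Nat.mul (v2881 R) (VR.cr1 R)) (v2865 R)))
    (VR.h2 R)) (nat_lit 15)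

noncomputable def s2883 (R : VR) (j i : ℕ) : Bool :=
  Nat.beq (s2882 R j i) (s2865 R j i)

theorem e2883 (R : VR) : B2 R (v2883 R) (s2883 R) :=
  L.beq (VR.h2e R) (e2882 R) (e2865 R)

noncomputable def v2884 (R : VR) : ℕ :=
  Nat.shiftRight (Nat.land (Nat.sub (VR.h1 R) (Nat.xor (VR.rhoT R) (v2875 R))) (VR.h1 R)) (nat_lit
    15)

noncomputable def s2884 (R : VR) (i : ℕ) : Bool :=
  Nat.beq (s158 R i) (s2875 R i)

theorem e2884 (R : VR) : B (VR.S R) (v2884 R) (s2884 R) :=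
  L.beq (VR.h1e R) (e158 R) (e2875 R)

noncomputable def v2885 (R : VR) : ℕ :=
  gmk (VR.h2 R) (VR.J R) (Nat.mul (v2875 R) (VR.cr1 R))

noncomputable def v2886 (R : VR) : ℕ :=
  Nat.mod (Nat.land (gmk (VR.h2 R) (VR.J R) (Nat.mul (v2875 R) (VR.cr1 R))) (v164 R)) (VR.m1 R)

noncomputable def s2886 (R : VR) (i : ℕ) : ℕ :=
  tx (VR.rhoT R) (s2875 R i)

theorem e2886 (R : VR) : L (VR.S R) (v2886 R) (s2886 R) 255 :=
  L.gat (e2875 R) (VR.rho_is R) (VR.rho_lt R) (VR.rho_le R)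

noncomputable def v2887 (R : VR) : ℕ :=
  Nat.shiftRight (Nat.land (Nat.sub (VR.h1 R) (Nat.xor (VR.iota R) (v2886 R))) (VR.h1 R)) (nat_lit
    15)

noncomputable def s2887 (R : VR) (i : ℕ) : Bool :=
  Nat.beq (s0 R i) (s2886 R i)

theorem e2887 (R : VR) : B (VR.S R) (v2887 R) (s2887 R) :=
  L.beq (VR.h1e R) (e0 R) (e2886 R)

noncomputable def v2888 (R : VR) : ℕ :=
  Nat.mul (v2884 R) (VR.cr1 R)

noncomputable def s2888 (R : VR) (j i : ℕ) : Bool :=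
  (s2884 R i)

theorem e2888 (R : VR) : B2 R (v2888 R) (s2888 R) :=
  B2.rep (e2884 R)

noncomputable def v2889 (R : VR) : ℕ :=
  srM (VR.N R) (VR.S R) (VR.o1 R) (v2887 R)

noncomputable def s2889 (R : VR) (j i : ℕ) : Bool :=
  (s2887 R j)

theorem e2889 (R : VR) : B2 R (v2889 R) (s2889 R) :=
  B2.row (e2887 R)

noncomputable def v2890 (R : VR) : ℕ :=
  Nat.land (Nat.mul (v2884 R) (VR.cr1 R)) (srM (VR.N R) (VR.S R) (VR.o1 R) (v2887 R))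

noncomputable def s2890 (R : VR) (j i : ℕ) : Bool :=
  K.band (s2888 R j i) (s2889 R j i)

theorem e2890 (R : VR) : B2 R (v2890 R) (s2890 R) :=
  B.and (e2888 R) (e2889 R)

noncomputable def v2891 (R : VR) : ℕ :=
  Nat.mod (Nat.land (v2880 R) (v2313 R)) (VR.m1 R)

noncomputable def s2891 (R : VR) (i : ℕ) : Bool :=
  tf (VR.BGXT R) (s2863 R i)

theorem e2891 (R : VR) : B (VR.S R) (v2891 R) (s2891 R) :=
  B.gat (e2863 R) (VR.BGX_is R) (VR.BGX_lt R)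

noncomputable def v2892 (R : VR) : ℕ :=
  Nat.sub (VR.o1 R) (Nat.mod (Nat.land (v2880 R) (v2313 R)) (VR.m1 R))

noncomputable def s2892 (R : VR) (i : ℕ) : Bool :=
  K.bnot (s2891 R i)

theorem e2892 (R : VR) : B (VR.S R) (v2892 R) (s2892 R) :=
  B.not (VR.o1e R) (e2891 R)

noncomputable def v2893 (R : VR) : ℕ :=
  Nat.land (VR.rlT R) (Nat.sub (VR.o1 R) (Nat.mod (Nat.land (v2880 R) (v2313 R)) (VR.m1 R)))

noncomputable def s2893 (R : VR) (i : ℕ) : Bool :=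
  K.band (s435 R i) (s2892 R i)

theorem e2893 (R : VR) : B (VR.S R) (v2893 R) (s2893 R) :=
  B.and (e435 R) (e2892 R)

noncomputable def v2894 (R : VR) : ℕ :=
  Nat.shiftRight (Nat.land (Nat.sub (VR.h1 R) (Nat.xor (v2317 R) (v2875 R))) (VR.h1 R)) (nat_lit
    15)

noncomputable def s2894 (R : VR) (i : ℕ) : Bool :=
  Nat.beq (s2317 R i) (s2875 R i)

theorem e2894 (R : VR) : B (VR.S R) (v2894 R) (s2894 R) :=
  L.beq (VR.h1e R) (e2317 R) (e2875 R)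

noncomputable def v2895 (R : VR) : ℕ :=
  Nat.land (Nat.land (VR.rlT R) (Nat.sub (VR.o1 R) (Nat.mod (Nat.land (v2880 R) (v2313 R)) (VR.m1
    R)))) (Nat.shiftRight (Nat.land (Nat.sub (VR.h1 R) (Nat.xor (v2317 R) (v2875 R))) (VR.h1 R))
    (nat_lit 15))

noncomputable def s2895 (R : VR) (i : ℕ) : Bool :=
  K.band (s2893 R i) (s2894 R i)

theorem e2895 (R : VR) : B (VR.S R) (v2895 R) (s2895 R) :=
  B.and (e2893 R) (e2894 R)

noncomputable def v2896 (R : VR) : ℕ :=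
  gmk (VR.h2 R) (VR.J R) (Nat.mul (v2886 R) (VR.cr1 R))

noncomputable def v2897 (R : VR) : ℕ :=
  Nat.mod (Nat.land (gmk (VR.h2 R) (VR.J R) (Nat.mul (v2886 R) (VR.cr1 R))) (v164 R)) (VR.m1 R)

noncomputable def s2897 (R : VR) (i : ℕ) : ℕ :=
  tx (VR.rhoT R) (s2886 R i)

theorem e2897 (R : VR) : L (VR.S R) (v2897 R) (s2897 R) 255 :=
  L.gat (e2886 R) (VR.rho_is R) (VR.rho_lt R) (VR.rho_le R)

noncomputable def v2898 (R : VR) : ℕ :=
  Nat.shiftRight (Nat.land (Nat.sub (VR.h1 R) (Nat.xor (VR.iota R) (Nat.mod (Nat.land (gmk (VR.h2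
    R) (VR.J R) (Nat.mul (v2886 R) (VR.cr1 R))) (v164 R)) (VR.m1 R)))) (VR.h1 R)) (nat_lit 15)

noncomputable def s2898 (R : VR) (i : ℕ) : Bool :=
  Nat.beq (s0 R i) (s2897 R i)

theorem e2898 (R : VR) : B (VR.S R) (v2898 R) (s2898 R) :=
  L.beq (VR.h1e R) (e0 R) (e2897 R)

noncomputable def v2899 (R : VR) : ℕ :=
  Nat.mul (v2895 R) (VR.cr1 R)

noncomputable def s2899 (R : VR) (j i : ℕ) : Bool :=
  (s2895 R i)

theorem e2899 (R : VR) : B2 R (v2899 R) (s2899 R) :=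
  B2.rep (e2895 R)

noncomputable def v2900 (R : VR) : ℕ :=
  srM (VR.N R) (VR.S R) (VR.o1 R) (v2898 R)

noncomputable def s2900 (R : VR) (j i : ℕ) : Bool :=
  (s2898 R j)

theorem e2900 (R : VR) : B2 R (v2900 R) (s2900 R) :=
  B2.row (e2898 R)

noncomputable def v2901 (R : VR) : ℕ :=
  Nat.land (Nat.mul (v2895 R) (VR.cr1 R)) (srM (VR.N R) (VR.S R) (VR.o1 R) (v2898 R))

noncomputable def s2901 (R : VR) (j i : ℕ) : Bool :=
  K.band (s2899 R j i) (s2900 R j i)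

theorem e2901 (R : VR) : B2 R (v2901 R) (s2901 R) :=
  B.and (e2899 R) (e2900 R)

noncomputable def v2902 (R : VR) : ℕ :=
  Nat.lor (Nat.land (Nat.mul (v2884 R) (VR.cr1 R)) (srM (VR.N R) (VR.S R) (VR.o1 R) (v2887 R)))
    (Nat.land (Nat.mul (v2895 R) (VR.cr1 R)) (srM (VR.N R) (VR.S R) (VR.o1 R) (v2898 R)))

noncomputable def s2902 (R : VR) (j i : ℕ) : Bool :=
  K.bor (s2890 R j i) (s2901 R j i)

theorem e2902 (R : VR) : B2 R (v2902 R) (s2902 R) :=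
  B.or (e2890 R) (e2901 R)

noncomputable def v2903 (R : VR) : ℕ :=
  Nat.land (Nat.shiftRight (Nat.land (Nat.sub (VR.h2 R) (Nat.xor (Nat.mul (v2881 R) (VR.cr1 R))
    (v2865 R))) (VR.h2 R)) (nat_lit 15)) (Nat.lor (Nat.land (Nat.mul (v2884 R) (VR.cr1 R)) (srM
    (VR.N R) (VR.S R) (VR.o1 R) (v2887 R))) (Nat.land (Nat.mul (v2895 R) (VR.cr1 R)) (srM (VR.N R)
    (VR.S R) (VR.o1 R) (v2898 R))))

noncomputable def s2903 (R : VR) (j i : ℕ) : Bool :=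
  K.band (s2883 R j i) (s2902 R j i)

theorem e2903 (R : VR) : B2 R (v2903 R) (s2903 R) :=
  B.and (e2883 R) (e2902 R)

noncomputable def s2904 (R : VR) (j i : ℕ) : Bool :=
  K.Cf_ex22 (VR.Cf R) (tf (VR.BGXT R)) (s2861 R i) (s2861 R j) i j

theorem e2904 (R : VR) : B2 R (v2903 R) (s2904 R) :=
  e2903 R

noncomputable def v2905 (R : VR) : ℕ :=
  Nat.lor (Nat.land (Nat.mul (v2876 R) (VR.cr1 R)) (srM (VR.N R) (VR.S R) (VR.o1 R) (v2876 R)))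
    (Nat.land (Nat.shiftRight (Nat.land (Nat.sub (VR.h2 R) (Nat.xor (Nat.mul (v2881 R) (VR.cr1 R))
    (v2865 R))) (VR.h2 R)) (nat_lit 15)) (Nat.lor (Nat.land (Nat.mul (v2884 R) (VR.cr1 R)) (srM
    (VR.N R) (VR.S R) (VR.o1 R) (v2887 R))) (Nat.land (Nat.mul (v2895 R) (VR.cr1 R)) (srM (VR.N R)
    (VR.S R) (VR.o1 R) (v2898 R)))))

noncomputable def s2905 (R : VR) (j i : ℕ) : Bool :=
  K.bor (s2879 R j i) (s2904 R j i)

theorem e2905 (R : VR) : B2 R (v2905 R) (s2905 R) :=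
  B.or (e2879 R) (e2904 R)

noncomputable def v2906 (R : VR) : ℕ :=
  srM (VR.N R) (VR.S R) (VR.o1 R) (v2881 R)

noncomputable def s2906 (R : VR) (j i : ℕ) : ℕ :=
  (s2881 R j)

theorem e2906 (R : VR) : L2 R (v2906 R) (s2906 R) 255 :=
  L2.row (e2881 R)

noncomputable def v2907 (R : VR) : ℕ :=
  Nat.shiftRight (Nat.land (Nat.sub (VR.h2 R) (Nat.xor (srM (VR.N R) (VR.S R) (VR.o1 R) (v2881 R))
    (v2869 R))) (VR.h2 R)) (nat_lit 15)

noncomputable def s2907 (R : VR) (j i : ℕ) : Bool :=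
  Nat.beq (s2906 R j i) (s2869 R j i)

theorem e2907 (R : VR) : B2 R (v2907 R) (s2907 R) :=
  L.beq (VR.h2e R) (e2906 R) (e2869 R)

noncomputable def v2908 (R : VR) : ℕ :=
  srM (VR.N R) (VR.S R) (VR.o1 R) (v2884 R)

noncomputable def s2908 (R : VR) (j i : ℕ) : Bool :=
  (s2884 R j)

theorem e2908 (R : VR) : B2 R (v2908 R) (s2908 R) :=
  B2.row (e2884 R)

noncomputable def v2909 (R : VR) : ℕ :=
  Nat.mul (v2887 R) (VR.cr1 R)

noncomputable def s2909 (R : VR) (j i : ℕ) : Bool :=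
  (s2887 R i)

theorem e2909 (R : VR) : B2 R (v2909 R) (s2909 R) :=
  B2.rep (e2887 R)

noncomputable def v2910 (R : VR) : ℕ :=
  Nat.land (srM (VR.N R) (VR.S R) (VR.o1 R) (v2884 R)) (Nat.mul (v2887 R) (VR.cr1 R))

noncomputable def s2910 (R : VR) (j i : ℕ) : Bool :=
  K.band (s2908 R j i) (s2909 R j i)

theorem e2910 (R : VR) : B2 R (v2910 R) (s2910 R) :=
  B.and (e2908 R) (e2909 R)

noncomputable def v2911 (R : VR) : ℕ :=
  srM (VR.N R) (VR.S R) (VR.o1 R) (v2895 R)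

noncomputable def s2911 (R : VR) (j i : ℕ) : Bool :=
  (s2895 R j)

theorem e2911 (R : VR) : B2 R (v2911 R) (s2911 R) :=
  B2.row (e2895 R)

noncomputable def v2912 (R : VR) : ℕ :=
  Nat.mul (v2898 R) (VR.cr1 R)

noncomputable def s2912 (R : VR) (j i : ℕ) : Bool :=
  (s2898 R i)

theorem e2912 (R : VR) : B2 R (v2912 R) (s2912 R) :=
  B2.rep (e2898 R)

noncomputable def v2913 (R : VR) : ℕ :=
  Nat.land (srM (VR.N R) (VR.S R) (VR.o1 R) (v2895 R)) (Nat.mul (v2898 R) (VR.cr1 R))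

noncomputable def s2913 (R : VR) (j i : ℕ) : Bool :=
  K.band (s2911 R j i) (s2912 R j i)

theorem e2913 (R : VR) : B2 R (v2913 R) (s2913 R) :=
  B.and (e2911 R) (e2912 R)

noncomputable def v2914 (R : VR) : ℕ :=
  Nat.lor (Nat.land (srM (VR.N R) (VR.S R) (VR.o1 R) (v2884 R)) (Nat.mul (v2887 R) (VR.cr1 R)))
    (Nat.land (srM (VR.N R) (VR.S R) (VR.o1 R) (v2895 R)) (Nat.mul (v2898 R) (VR.cr1 R)))

noncomputable def s2914 (R : VR) (j i : ℕ) : Bool :=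
  K.bor (s2910 R j i) (s2913 R j i)

theorem e2914 (R : VR) : B2 R (v2914 R) (s2914 R) :=
  B.or (e2910 R) (e2913 R)

noncomputable def v2915 (R : VR) : ℕ :=
  Nat.land (Nat.shiftRight (Nat.land (Nat.sub (VR.h2 R) (Nat.xor (srM (VR.N R) (VR.S R) (VR.o1 R)
    (v2881 R)) (v2869 R))) (VR.h2 R)) (nat_lit 15)) (Nat.lor (Nat.land (srM (VR.N R) (VR.S R)
    (VR.o1 R) (v2884 R)) (Nat.mul (v2887 R) (VR.cr1 R))) (Nat.land (srM (VR.N R) (VR.S R) (VR.o1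
    R) (v2895 R)) (Nat.mul (v2898 R) (VR.cr1 R))))

noncomputable def s2915 (R : VR) (j i : ℕ) : Bool :=
  K.band (s2907 R j i) (s2914 R j i)

theorem e2915 (R : VR) : B2 R (v2915 R) (s2915 R) :=
  B.and (e2907 R) (e2914 R)

noncomputable def s2916 (R : VR) (j i : ℕ) : Bool :=
  K.Cf_ex22 (VR.Cf R) (tf (VR.BGXT R)) (s2861 R j) (s2861 R i) j i

theorem e2916 (R : VR) : B2 R (v2915 R) (s2916 R) :=
  e2915 R

noncomputable def v2917 (R : VR) : ℕ :=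
  Nat.lor (v2905 R) (Nat.land (Nat.shiftRight (Nat.land (Nat.sub (VR.h2 R) (Nat.xor (srM (VR.N R)
    (VR.S R) (VR.o1 R) (v2881 R)) (v2869 R))) (VR.h2 R)) (nat_lit 15)) (Nat.lor (Nat.land (srM
    (VR.N R) (VR.S R) (VR.o1 R) (v2884 R)) (Nat.mul (v2887 R) (VR.cr1 R))) (Nat.land (srM (VR.N R)
    (VR.S R) (VR.o1 R) (v2895 R)) (Nat.mul (v2898 R) (VR.cr1 R)))))

noncomputable def s2917 (R : VR) (j i : ℕ) : Bool :=
  K.bor (s2905 R j i) (s2916 R j i)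

theorem e2917 (R : VR) : B2 R (v2917 R) (s2917 R) :=
  B.or (e2905 R) (e2916 R)

noncomputable def s2918 (R : VR) (j i : ℕ) : Bool :=
  K.Cf_exc (VR.Cf R) (tf (VR.BGXT R)) (s2861 R i) (s2861 R j) i j

theorem e2918 (R : VR) : B2 R (v2917 R) (s2918 R) :=
  e2917 R

noncomputable def v2919 (R : VR) : ℕ :=
  Nat.sub (VR.o2 R) (Nat.lor (v2905 R) (Nat.land (Nat.shiftRight (Nat.land (Nat.sub (VR.h2 R)
    (Nat.xor (srM (VR.N R) (VR.S R) (VR.o1 R) (v2881 R)) (v2869 R))) (VR.h2 R)) (nat_lit 15))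
    (Nat.lor (Nat.land (srM (VR.N R) (VR.S R) (VR.o1 R) (v2884 R)) (Nat.mul (v2887 R) (VR.cr1 R)))
    (Nat.land (srM (VR.N R) (VR.S R) (VR.o1 R) (v2895 R)) (Nat.mul (v2898 R) (VR.cr1 R))))))

noncomputable def s2919 (R : VR) (j i : ℕ) : Bool :=
  K.bnot (s2918 R j i)

theorem e2919 (R : VR) : B2 R (v2919 R) (s2919 R) :=
  B.not (VR.o2e R) (e2918 R)

noncomputable def v2920 (R : VR) : ℕ :=
  Nat.land (v2874 R) (Nat.sub (VR.o2 R) (Nat.lor (v2905 R) (Nat.land (Nat.shiftRight (Nat.land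
    (Nat.sub (VR.h2 R) (Nat.xor (srM (VR.N R) (VR.S R) (VR.o1 R) (v2881 R)) (v2869 R))) (VR.h2 R))
    (nat_lit 15)) (Nat.lor (Nat.land (srM (VR.N R) (VR.S R) (VR.o1 R) (v2884 R)) (Nat.mul (v2887
    R) (VR.cr1 R))) (Nat.land (srM (VR.N R) (VR.S R) (VR.o1 R) (v2895 R)) (Nat.mul (v2898 R)
    (VR.cr1 R)))))))

noncomputable def s2920 (R : VR) (j i : ℕ) : Bool :=
  K.band (s2874 R j i) (s2919 R j i)

theorem e2920 (R : VR) : B2 R (v2920 R) (s2920 R) :=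
  B.and (e2874 R) (e2919 R)

noncomputable def v2921 (R : VR) : ℕ :=
  Bool.rec (motive := fun _ => ℕ) (nat_lit 0) (Nat.land (v2874 R) (Nat.sub (VR.o2 R) (Nat.lor
    (v2905 R) (Nat.land (Nat.shiftRight (Nat.land (Nat.sub (VR.h2 R) (Nat.xor (srM (VR.N R) (VR.S
    R) (VR.o1 R) (v2881 R)) (v2869 R))) (VR.h2 R)) (nat_lit 15)) (Nat.lor (Nat.land (srM (VR.N R)
    (VR.S R) (VR.o1 R) (v2884 R)) (Nat.mul (v2887 R) (VR.cr1 R))) (Nat.land (srM (VR.N R) (VR.S R)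
    (VR.o1 R) (v2895 R)) (Nat.mul (v2898 R) (VR.cr1 R)))))))) (v2225 R)

noncomputable def s2921 (R : VR) (j i : ℕ) : Bool :=
  K.band (s2225 R) (s2920 R j i)

theorem e2921 (R : VR) : B2 R (v2921 R) (s2921 R) :=
  B.gand (e2225 R) (e2920 R)

noncomputable def v2922 (R : VR) : ℕ :=
  Nat.mul (v1936 R) (v2227 R)

noncomputable def s2922 (R : VR) : ℕ :=
  Nat.mul (s1936 R) (s2227 R)

theorem e2922 (R : VR) : (v2922 R) = s2922 R :=
  congrArg₂ Nat.mul (e1936 R) (e2227 R)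

theorem b2922 (R : VR) : s2922 R ≤ 90 :=
  Nat.mul_le_mul (b1936 R) (le_of_eq (rfl : s2227 R = (nat_lit 9)))

noncomputable def v2923 (R : VR) : ℕ :=
  Nat.mul (VR.o1 R) (Nat.mul (v1936 R) (v2227 R))

noncomputable def s2923 (R : VR) (i : ℕ) : ℕ :=
  (s2922 R)

theorem e2923 (R : VR) : L (VR.S R) (v2923 R) (s2923 R) 90 :=
  L.scl (VR.o1e R) (e2922 R) (b2922 R) (by decide)

noncomputable def v2924 (R : VR) : ℕ :=
  Nat.add (Nat.mul (VR.o1 R) (Nat.mul (v1936 R) (v2227 R))) (VR.caT R)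

noncomputable def s2924 (R : VR) (i : ℕ) : ℕ :=
  Nat.add (s2923 R i) (s127 R i)

theorem e2924 (R : VR) : L (VR.S R) (v2924 R) (s2924 R) 345 :=
  L.add (e2923 R) (e127 R) (by decide)

noncomputable def v2925 (R : VR) : ℕ :=
  gmk (VR.h2 R) (VR.J R) (Nat.mul (Nat.add (Nat.mul (VR.o1 R) (Nat.mul (v1936 R) (v2227 R)))
    (VR.caT R)) (VR.cr1 R))

noncomputable def v2926 (R : VR) : ℕ :=
  Nat.mod (Nat.land (gmk (VR.h2 R) (VR.J R) (Nat.mul (Nat.add (Nat.mul (VR.o1 R) (Nat.mul (v1936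
    R) (v2227 R))) (VR.caT R)) (VR.cr1 R))) (v1941 R)) (VR.m1 R)

noncomputable def s2926 (R : VR) (i : ℕ) : ℕ :=
  tx (VR.adT R) (s2924 R i)

theorem e2926 (R : VR) : L (VR.S R) (v2926 R) (s2926 R) 255 :=
  L.gat (e2924 R) (VR.ad_is R) (VR.ad_lt R) (VR.ad_le R)

noncomputable def v2927 (R : VR) : ℕ :=
  Nat.shiftRight (Nat.land (Nat.sub (VR.h1 R) (v2926 R)) (VR.h1 R)) (nat_lit 15)

noncomputable def s2927 (R : VR) (i : ℕ) : Bool :=
  Nat.beq (s2926 R i) (nat_lit 0)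

theorem e2927 (R : VR) : B (VR.S R) (v2927 R) (s2927 R) :=
  L.ez (VR.h1e R) (e2926 R)

noncomputable def v2928 (R : VR) : ℕ :=
  Nat.shiftRight (Nat.land (Nat.add (v2926 R) (VR.k1 R)) (VR.h1 R)) (nat_lit 15)

noncomputable def s2928 (R : VR) (i : ℕ) : Bool :=
  K.bnot (Nat.beq (s2926 R i) (nat_lit 0))

theorem e2928 (R : VR) : B (VR.S R) (v2928 R) (s2928 R) :=
  L.nz (VR.h1e R) (VR.k1e R) (e2926 R)

noncomputable def v2929 (R : VR) : ℕ :=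
  Nat.mul (v2928 R) (VR.cr1 R)

noncomputable def s2929 (R : VR) (j i : ℕ) : Bool :=
  (s2928 R i)

theorem e2929 (R : VR) : B2 R (v2929 R) (s2929 R) :=
  B2.rep (e2928 R)

noncomputable def v2930 (R : VR) : ℕ :=
  srM (VR.N R) (VR.S R) (VR.o1 R) (v2928 R)

noncomputable def s2930 (R : VR) (j i : ℕ) : Bool :=
  (s2928 R j)

theorem e2930 (R : VR) : B2 R (v2930 R) (s2930 R) :=
  B2.row (e2928 R)

noncomputable def v2931 (R : VR) : ℕ :=
  Nat.land (Nat.mul (v2928 R) (VR.cr1 R)) (srM (VR.N R) (VR.S R) (VR.o1 R) (v2928 R))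

noncomputable def s2931 (R : VR) (j i : ℕ) : Bool :=
  K.band (s2929 R j i) (s2930 R j i)

theorem e2931 (R : VR) : B2 R (v2931 R) (s2931 R) :=
  B.and (e2929 R) (e2930 R)

noncomputable def v2932 (R : VR) : ℕ :=
  Nat.land (Nat.land (Nat.mul (v2928 R) (VR.cr1 R)) (srM (VR.N R) (VR.S R) (VR.o1 R) (v2928 R)))
    (v2280 R)

noncomputable def s2932 (R : VR) (j i : ℕ) : Bool :=
  K.band (s2931 R j i) (s2280 R j i)

theorem e2932 (R : VR) : B2 R (v2932 R) (s2932 R) :=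
  B.and (e2931 R) (e2280 R)

noncomputable def v2933 (R : VR) : ℕ :=
  Vc.ssub (VR.h1 R) (v2926 R) (v267 R)

noncomputable def s2933 (R : VR) (i : ℕ) : ℕ :=
  Nat.sub (s2926 R i) (s267 R i)

theorem e2933 (R : VR) : L (VR.S R) (v2933 R) (s2933 R) 255 :=
  L.sub (VR.h1e R) (e2926 R) (e267 R)

noncomputable def v2934 (R : VR) : ℕ :=
  gmk (VR.h2 R) (VR.J R) (Nat.mul (v2933 R) (VR.cr1 R))

noncomputable def v2935 (R : VR) : ℕ :=
  Nat.mod (Nat.land (v2934 R) (v164 R)) (VR.m1 R)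

noncomputable def s2935 (R : VR) (i : ℕ) : ℕ :=
  tx (VR.rhoT R) (s2933 R i)

theorem e2935 (R : VR) : L (VR.S R) (v2935 R) (s2935 R) 255 :=
  L.gat (e2933 R) (VR.rho_is R) (VR.rho_lt R) (VR.rho_le R)

noncomputable def v2936 (R : VR) : ℕ :=
  Nat.mul (v2935 R) (VR.cr1 R)

noncomputable def s2936 (R : VR) (j i : ℕ) : ℕ :=
  (s2935 R i)

theorem e2936 (R : VR) : L2 R (v2936 R) (s2936 R) 255 :=
  L2.rep (e2935 R)

noncomputable def v2937 (R : VR) : ℕ :=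
  srM (VR.N R) (VR.S R) (VR.o1 R) (v2933 R)

noncomputable def s2937 (R : VR) (j i : ℕ) : ℕ :=
  (s2933 R j)

theorem e2937 (R : VR) : L2 R (v2937 R) (s2937 R) 255 :=
  L2.row (e2933 R)

noncomputable def v2938 (R : VR) : ℕ :=
  Nat.shiftRight (Nat.land (Nat.sub (VR.h2 R) (Nat.xor (Nat.mul (v2935 R) (VR.cr1 R)) (v2937 R)))
    (VR.h2 R)) (nat_lit 15)

noncomputable def s2938 (R : VR) (j i : ℕ) : Bool :=
  Nat.beq (s2936 R j i) (s2937 R j i)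

theorem e2938 (R : VR) : B2 R (v2938 R) (s2938 R) :=
  L.beq (VR.h2e R) (e2936 R) (e2937 R)

noncomputable def v2939 (R : VR) : ℕ :=
  Nat.sub (VR.o2 R) (Nat.shiftRight (Nat.land (Nat.sub (VR.h2 R) (Nat.xor (Nat.mul (v2935 R)
    (VR.cr1 R)) (v2937 R))) (VR.h2 R)) (nat_lit 15))

noncomputable def s2939 (R : VR) (j i : ℕ) : Bool :=
  K.bnot (s2938 R j i)

theorem e2939 (R : VR) : B2 R (v2939 R) (s2939 R) :=
  B.not (VR.o2e R) (e2938 R)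

noncomputable def v2940 (R : VR) : ℕ :=
  srM (VR.N R) (VR.S R) (VR.o1 R) (v2935 R)

noncomputable def s2940 (R : VR) (j i : ℕ) : ℕ :=
  (s2935 R j)

theorem e2940 (R : VR) : L2 R (v2940 R) (s2940 R) 255 :=
  L2.row (e2935 R)

noncomputable def v2941 (R : VR) : ℕ :=
  Nat.mul (v2933 R) (VR.cr1 R)

noncomputable def s2941 (R : VR) (j i : ℕ) : ℕ :=
  (s2933 R i)

theorem e2941 (R : VR) : L2 R (v2941 R) (s2941 R) 255 :=
  L2.rep (e2933 R)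

noncomputable def v2942 (R : VR) : ℕ :=
  Nat.shiftRight (Nat.land (Nat.sub (VR.h2 R) (Nat.xor (srM (VR.N R) (VR.S R) (VR.o1 R) (v2935 R))
    (v2941 R))) (VR.h2 R)) (nat_lit 15)

noncomputable def s2942 (R : VR) (j i : ℕ) : Bool :=
  Nat.beq (s2940 R j i) (s2941 R j i)

theorem e2942 (R : VR) : B2 R (v2942 R) (s2942 R) :=
  L.beq (VR.h2e R) (e2940 R) (e2941 R)

noncomputable def v2943 (R : VR) : ℕ :=
  Nat.sub (VR.o2 R) (Nat.shiftRight (Nat.land (Nat.sub (VR.h2 R) (Nat.xor (srM (VR.N R) (VR.S R)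
    (VR.o1 R) (v2935 R)) (v2941 R))) (VR.h2 R)) (nat_lit 15))

noncomputable def s2943 (R : VR) (j i : ℕ) : Bool :=
  K.bnot (s2942 R j i)

theorem e2943 (R : VR) : B2 R (v2943 R) (s2943 R) :=
  B.not (VR.o2e R) (e2942 R)

noncomputable def v2944 (R : VR) : ℕ :=
  Nat.land (Nat.sub (VR.o2 R) (Nat.shiftRight (Nat.land (Nat.sub (VR.h2 R) (Nat.xor (Nat.mul
    (v2935 R) (VR.cr1 R)) (v2937 R))) (VR.h2 R)) (nat_lit 15))) (Nat.sub (VR.o2 R) (Nat.shiftRight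
    (Nat.land (Nat.sub (VR.h2 R) (Nat.xor (srM (VR.N R) (VR.S R) (VR.o1 R) (v2935 R)) (v2941 R)))
    (VR.h2 R)) (nat_lit 15)))

noncomputable def s2944 (R : VR) (j i : ℕ) : Bool :=
  K.band (s2939 R j i) (s2943 R j i)

theorem e2944 (R : VR) : B2 R (v2944 R) (s2944 R) :=
  B.and (e2939 R) (e2943 R)

noncomputable def s2945 (R : VR) (j i : ℕ) : Bool :=
  K.Cf_nco (VR.Cf R) (s2933 R i) (s2933 R j)

theorem e2945 (R : VR) : B2 R (v2944 R) (s2945 R) :=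
  e2944 R

noncomputable def v2946 (R : VR) : ℕ :=
  Nat.land (Nat.land (Nat.land (Nat.mul (v2928 R) (VR.cr1 R)) (srM (VR.N R) (VR.S R) (VR.o1 R)
    (v2928 R))) (v2280 R)) (Nat.land (Nat.sub (VR.o2 R) (Nat.shiftRight (Nat.land (Nat.sub (VR.h2
    R) (Nat.xor (Nat.mul (v2935 R) (VR.cr1 R)) (v2937 R))) (VR.h2 R)) (nat_lit 15))) (Nat.sub
    (VR.o2 R) (Nat.shiftRight (Nat.land (Nat.sub (VR.h2 R) (Nat.xor (srM (VR.N R) (VR.S R) (VR.o1
    R) (v2935 R)) (v2941 R))) (VR.h2 R)) (nat_lit 15))))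

noncomputable def s2946 (R : VR) (j i : ℕ) : Bool :=
  K.band (s2932 R j i) (s2945 R j i)

theorem e2946 (R : VR) : B2 R (v2946 R) (s2946 R) :=
  B.and (e2932 R) (e2945 R)

noncomputable def v2947 (R : VR) : ℕ :=
  Nat.mod (Nat.land (v2934 R) (v146 R)) (VR.m1 R)

noncomputable def s2947 (R : VR) (i : ℕ) : ℕ :=
  tx (VR.piT R) (s2933 R i)

theorem e2947 (R : VR) : L (VR.S R) (v2947 R) (s2947 R) 255 :=
  L.gat (e2933 R) (VR.pi_is R) (VR.pi_lt R) (VR.pi_le R)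

noncomputable def v2948 (R : VR) : ℕ :=
  Nat.shiftRight (Nat.land (Nat.sub (VR.h1 R) (Nat.xor (VR.iota R) (v2947 R))) (VR.h1 R)) (nat_lit
    15)

noncomputable def s2948 (R : VR) (i : ℕ) : Bool :=
  Nat.beq (s0 R i) (s2947 R i)

theorem e2948 (R : VR) : B (VR.S R) (v2948 R) (s2948 R) :=
  L.beq (VR.h1e R) (e0 R) (e2947 R)

noncomputable def v2949 (R : VR) : ℕ :=
  Nat.mul (v2948 R) (VR.cr1 R)

noncomputable def s2949 (R : VR) (j i : ℕ) : Bool :=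
  (s2948 R i)

theorem e2949 (R : VR) : B2 R (v2949 R) (s2949 R) :=
  B2.rep (e2948 R)

noncomputable def v2950 (R : VR) : ℕ :=
  srM (VR.N R) (VR.S R) (VR.o1 R) (v2948 R)

noncomputable def s2950 (R : VR) (j i : ℕ) : Bool :=
  (s2948 R j)

theorem e2950 (R : VR) : B2 R (v2950 R) (s2950 R) :=
  B2.row (e2948 R)

noncomputable def v2951 (R : VR) : ℕ :=
  Nat.land (Nat.mul (v2948 R) (VR.cr1 R)) (srM (VR.N R) (VR.S R) (VR.o1 R) (v2948 R))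

noncomputable def s2951 (R : VR) (j i : ℕ) : Bool :=
  K.band (s2949 R j i) (s2950 R j i)

theorem e2951 (R : VR) : B2 R (v2951 R) (s2951 R) :=
  B.and (e2949 R) (e2950 R)

noncomputable def v2952 (R : VR) : ℕ :=
  gmk (VR.h2 R) (VR.J R) (Nat.mul (v2935 R) (VR.cr1 R))

noncomputable def v2953 (R : VR) : ℕ :=
  Nat.mod (Nat.land (v2952 R) (v164 R)) (VR.m1 R)

noncomputable def s2953 (R : VR) (i : ℕ) : ℕ :=
  tx (VR.rhoT R) (s2935 R i)

theorem e2953 (R : VR) : L (VR.S R) (v2953 R) (s2953 R) 255 :=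
  L.gat (e2935 R) (VR.rho_is R) (VR.rho_lt R) (VR.rho_le R)

noncomputable def v2954 (R : VR) : ℕ :=
  Nat.mul (v2953 R) (VR.cr1 R)

noncomputable def s2954 (R : VR) (j i : ℕ) : ℕ :=
  (s2953 R i)

theorem e2954 (R : VR) : L2 R (v2954 R) (s2954 R) 255 :=
  L2.rep (e2953 R)

noncomputable def v2955 (R : VR) : ℕ :=
  Nat.shiftRight (Nat.land (Nat.sub (VR.h2 R) (Nat.xor (Nat.mul (v2953 R) (VR.cr1 R)) (v2937 R)))
    (VR.h2 R)) (nat_lit 15)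

noncomputable def s2955 (R : VR) (j i : ℕ) : Bool :=
  Nat.beq (s2954 R j i) (s2937 R j i)

theorem e2955 (R : VR) : B2 R (v2955 R) (s2955 R) :=
  L.beq (VR.h2e R) (e2954 R) (e2937 R)

noncomputable def v2956 (R : VR) : ℕ :=
  Nat.shiftRight (Nat.land (Nat.sub (VR.h1 R) (Nat.xor (VR.rhoT R) (v2947 R))) (VR.h1 R)) (nat_lit
    15)

noncomputable def s2956 (R : VR) (i : ℕ) : Bool :=
  Nat.beq (s158 R i) (s2947 R i)

theorem e2956 (R : VR) : B (VR.S R) (v2956 R) (s2956 R) :=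
  L.beq (VR.h1e R) (e158 R) (e2947 R)

noncomputable def v2957 (R : VR) : ℕ :=
  gmk (VR.h2 R) (VR.J R) (Nat.mul (v2947 R) (VR.cr1 R))

noncomputable def v2958 (R : VR) : ℕ :=
  Nat.mod (Nat.land (gmk (VR.h2 R) (VR.J R) (Nat.mul (v2947 R) (VR.cr1 R))) (v164 R)) (VR.m1 R)

noncomputable def s2958 (R : VR) (i : ℕ) : ℕ :=
  tx (VR.rhoT R) (s2947 R i)

theorem e2958 (R : VR) : L (VR.S R) (v2958 R) (s2958 R) 255 :=
  L.gat (e2947 R) (VR.rho_is R) (VR.rho_lt R) (VR.rho_le R)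

noncomputable def v2959 (R : VR) : ℕ :=
  Nat.shiftRight (Nat.land (Nat.sub (VR.h1 R) (Nat.xor (VR.iota R) (v2958 R))) (VR.h1 R)) (nat_lit
    15)

noncomputable def s2959 (R : VR) (i : ℕ) : Bool :=
  Nat.beq (s0 R i) (s2958 R i)

theorem e2959 (R : VR) : B (VR.S R) (v2959 R) (s2959 R) :=
  L.beq (VR.h1e R) (e0 R) (e2958 R)

noncomputable def v2960 (R : VR) : ℕ :=
  Nat.mul (v2956 R) (VR.cr1 R)

noncomputable def s2960 (R : VR) (j i : ℕ) : Bool :=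
  (s2956 R i)

theorem e2960 (R : VR) : B2 R (v2960 R) (s2960 R) :=
  B2.rep (e2956 R)

noncomputable def v2961 (R : VR) : ℕ :=
  srM (VR.N R) (VR.S R) (VR.o1 R) (v2959 R)

noncomputable def s2961 (R : VR) (j i : ℕ) : Bool :=
  (s2959 R j)

theorem e2961 (R : VR) : B2 R (v2961 R) (s2961 R) :=
  B2.row (e2959 R)

noncomputable def v2962 (R : VR) : ℕ :=
  Nat.land (Nat.mul (v2956 R) (VR.cr1 R)) (srM (VR.N R) (VR.S R) (VR.o1 R) (v2959 R))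

noncomputable def s2962 (R : VR) (j i : ℕ) : Bool :=
  K.band (s2960 R j i) (s2961 R j i)

theorem e2962 (R : VR) : B2 R (v2962 R) (s2962 R) :=
  B.and (e2960 R) (e2961 R)

noncomputable def v2963 (R : VR) : ℕ :=
  Nat.mod (Nat.land (v2952 R) (v2313 R)) (VR.m1 R)

noncomputable def s2963 (R : VR) (i : ℕ) : Bool :=
  tf (VR.BGXT R) (s2935 R i)

theorem e2963 (R : VR) : B (VR.S R) (v2963 R) (s2963 R) :=
  B.gat (e2935 R) (VR.BGX_is R) (VR.BGX_lt R)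

noncomputable def v2964 (R : VR) : ℕ :=
  Nat.sub (VR.o1 R) (Nat.mod (Nat.land (v2952 R) (v2313 R)) (VR.m1 R))

noncomputable def s2964 (R : VR) (i : ℕ) : Bool :=
  K.bnot (s2963 R i)

theorem e2964 (R : VR) : B (VR.S R) (v2964 R) (s2964 R) :=
  B.not (VR.o1e R) (e2963 R)

noncomputable def v2965 (R : VR) : ℕ :=
  Nat.land (VR.rlT R) (Nat.sub (VR.o1 R) (Nat.mod (Nat.land (v2952 R) (v2313 R)) (VR.m1 R)))

noncomputable def s2965 (R : VR) (i : ℕ) : Bool :=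
  K.band (s435 R i) (s2964 R i)

theorem e2965 (R : VR) : B (VR.S R) (v2965 R) (s2965 R) :=
  B.and (e435 R) (e2964 R)

noncomputable def v2966 (R : VR) : ℕ :=
  Nat.shiftRight (Nat.land (Nat.sub (VR.h1 R) (Nat.xor (v2317 R) (v2947 R))) (VR.h1 R)) (nat_lit
    15)

noncomputable def s2966 (R : VR) (i : ℕ) : Bool :=
  Nat.beq (s2317 R i) (s2947 R i)

theorem e2966 (R : VR) : B (VR.S R) (v2966 R) (s2966 R) :=
  L.beq (VR.h1e R) (e2317 R) (e2947 R)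

noncomputable def v2967 (R : VR) : ℕ :=
  Nat.land (Nat.land (VR.rlT R) (Nat.sub (VR.o1 R) (Nat.mod (Nat.land (v2952 R) (v2313 R)) (VR.m1
    R)))) (Nat.shiftRight (Nat.land (Nat.sub (VR.h1 R) (Nat.xor (v2317 R) (v2947 R))) (VR.h1 R))
    (nat_lit 15))

noncomputable def s2967 (R : VR) (i : ℕ) : Bool :=
  K.band (s2965 R i) (s2966 R i)

theorem e2967 (R : VR) : B (VR.S R) (v2967 R) (s2967 R) :=
  B.and (e2965 R) (e2966 R)

noncomputable def v2968 (R : VR) : ℕ :=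
  gmk (VR.h2 R) (VR.J R) (Nat.mul (v2958 R) (VR.cr1 R))

noncomputable def v2969 (R : VR) : ℕ :=
  Nat.mod (Nat.land (gmk (VR.h2 R) (VR.J R) (Nat.mul (v2958 R) (VR.cr1 R))) (v164 R)) (VR.m1 R)

noncomputable def s2969 (R : VR) (i : ℕ) : ℕ :=
  tx (VR.rhoT R) (s2958 R i)

theorem e2969 (R : VR) : L (VR.S R) (v2969 R) (s2969 R) 255 :=
  L.gat (e2958 R) (VR.rho_is R) (VR.rho_lt R) (VR.rho_le R)

noncomputable def v2970 (R : VR) : ℕ :=
  Nat.shiftRight (Nat.land (Nat.sub (VR.h1 R) (Nat.xor (VR.iota R) (Nat.mod (Nat.land (gmk (VR.h2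
    R) (VR.J R) (Nat.mul (v2958 R) (VR.cr1 R))) (v164 R)) (VR.m1 R)))) (VR.h1 R)) (nat_lit 15)

noncomputable def s2970 (R : VR) (i : ℕ) : Bool :=
  Nat.beq (s0 R i) (s2969 R i)

theorem e2970 (R : VR) : B (VR.S R) (v2970 R) (s2970 R) :=
  L.beq (VR.h1e R) (e0 R) (e2969 R)

noncomputable def v2971 (R : VR) : ℕ :=
  Nat.mul (v2967 R) (VR.cr1 R)

noncomputable def s2971 (R : VR) (j i : ℕ) : Bool :=
  (s2967 R i)

theorem e2971 (R : VR) : B2 R (v2971 R) (s2971 R) :=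
  B2.rep (e2967 R)

noncomputable def v2972 (R : VR) : ℕ :=
  srM (VR.N R) (VR.S R) (VR.o1 R) (v2970 R)

noncomputable def s2972 (R : VR) (j i : ℕ) : Bool :=
  (s2970 R j)

theorem e2972 (R : VR) : B2 R (v2972 R) (s2972 R) :=
  B2.row (e2970 R)

noncomputable def v2973 (R : VR) : ℕ :=
  Nat.land (Nat.mul (v2967 R) (VR.cr1 R)) (srM (VR.N R) (VR.S R) (VR.o1 R) (v2970 R))

noncomputable def s2973 (R : VR) (j i : ℕ) : Bool :=
  K.band (s2971 R j i) (s2972 R j i)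

theorem e2973 (R : VR) : B2 R (v2973 R) (s2973 R) :=
  B.and (e2971 R) (e2972 R)

noncomputable def v2974 (R : VR) : ℕ :=
  Nat.lor (Nat.land (Nat.mul (v2956 R) (VR.cr1 R)) (srM (VR.N R) (VR.S R) (VR.o1 R) (v2959 R)))
    (Nat.land (Nat.mul (v2967 R) (VR.cr1 R)) (srM (VR.N R) (VR.S R) (VR.o1 R) (v2970 R)))

noncomputable def s2974 (R : VR) (j i : ℕ) : Bool :=
  K.bor (s2962 R j i) (s2973 R j i)

theorem e2974 (R : VR) : B2 R (v2974 R) (s2974 R) :=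
  B.or (e2962 R) (e2973 R)

noncomputable def v2975 (R : VR) : ℕ :=
  Nat.land (Nat.shiftRight (Nat.land (Nat.sub (VR.h2 R) (Nat.xor (Nat.mul (v2953 R) (VR.cr1 R))
    (v2937 R))) (VR.h2 R)) (nat_lit 15)) (Nat.lor (Nat.land (Nat.mul (v2956 R) (VR.cr1 R)) (srM
    (VR.N R) (VR.S R) (VR.o1 R) (v2959 R))) (Nat.land (Nat.mul (v2967 R) (VR.cr1 R)) (srM (VR.N R)
    (VR.S R) (VR.o1 R) (v2970 R))))

noncomputable def s2975 (R : VR) (j i : ℕ) : Bool :=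
  K.band (s2955 R j i) (s2974 R j i)

theorem e2975 (R : VR) : B2 R (v2975 R) (s2975 R) :=
  B.and (e2955 R) (e2974 R)

noncomputable def s2976 (R : VR) (j i : ℕ) : Bool :=
  K.Cf_ex22 (VR.Cf R) (tf (VR.BGXT R)) (s2933 R i) (s2933 R j) i j

theorem e2976 (R : VR) : B2 R (v2975 R) (s2976 R) :=
  e2975 R

noncomputable def v2977 (R : VR) : ℕ :=
  Nat.lor (Nat.land (Nat.mul (v2948 R) (VR.cr1 R)) (srM (VR.N R) (VR.S R) (VR.o1 R) (v2948 R)))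
    (Nat.land (Nat.shiftRight (Nat.land (Nat.sub (VR.h2 R) (Nat.xor (Nat.mul (v2953 R) (VR.cr1 R))
    (v2937 R))) (VR.h2 R)) (nat_lit 15)) (Nat.lor (Nat.land (Nat.mul (v2956 R) (VR.cr1 R)) (srM
    (VR.N R) (VR.S R) (VR.o1 R) (v2959 R))) (Nat.land (Nat.mul (v2967 R) (VR.cr1 R)) (srM (VR.N R)
    (VR.S R) (VR.o1 R) (v2970 R)))))

noncomputable def s2977 (R : VR) (j i : ℕ) : Bool :=
  K.bor (s2951 R j i) (s2976 R j i)

theorem e2977 (R : VR) : B2 R (v2977 R) (s2977 R) :=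
  B.or (e2951 R) (e2976 R)

noncomputable def v2978 (R : VR) : ℕ :=
  srM (VR.N R) (VR.S R) (VR.o1 R) (v2953 R)

noncomputable def s2978 (R : VR) (j i : ℕ) : ℕ :=
  (s2953 R j)

theorem e2978 (R : VR) : L2 R (v2978 R) (s2978 R) 255 :=
  L2.row (e2953 R)

noncomputable def v2979 (R : VR) : ℕ :=
  Nat.shiftRight (Nat.land (Nat.sub (VR.h2 R) (Nat.xor (srM (VR.N R) (VR.S R) (VR.o1 R) (v2953 R))
    (v2941 R))) (VR.h2 R)) (nat_lit 15)

noncomputable def s2979 (R : VR) (j i : ℕ) : Bool :=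
  Nat.beq (s2978 R j i) (s2941 R j i)

theorem e2979 (R : VR) : B2 R (v2979 R) (s2979 R) :=
  L.beq (VR.h2e R) (e2978 R) (e2941 R)

noncomputable def v2980 (R : VR) : ℕ :=
  srM (VR.N R) (VR.S R) (VR.o1 R) (v2956 R)

noncomputable def s2980 (R : VR) (j i : ℕ) : Bool :=
  (s2956 R j)

theorem e2980 (R : VR) : B2 R (v2980 R) (s2980 R) :=
  B2.row (e2956 R)

noncomputable def v2981 (R : VR) : ℕ :=
  Nat.mul (v2959 R) (VR.cr1 R)

noncomputable def s2981 (R : VR) (j i : ℕ) : Bool :=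
  (s2959 R i)

theorem e2981 (R : VR) : B2 R (v2981 R) (s2981 R) :=
  B2.rep (e2959 R)

noncomputable def v2982 (R : VR) : ℕ :=
  Nat.land (srM (VR.N R) (VR.S R) (VR.o1 R) (v2956 R)) (Nat.mul (v2959 R) (VR.cr1 R))

noncomputable def s2982 (R : VR) (j i : ℕ) : Bool :=
  K.band (s2980 R j i) (s2981 R j i)

theorem e2982 (R : VR) : B2 R (v2982 R) (s2982 R) :=
  B.and (e2980 R) (e2981 R)

noncomputable def v2983 (R : VR) : ℕ :=
  srM (VR.N R) (VR.S R) (VR.o1 R) (v2967 R)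

noncomputable def s2983 (R : VR) (j i : ℕ) : Bool :=
  (s2967 R j)

theorem e2983 (R : VR) : B2 R (v2983 R) (s2983 R) :=
  B2.row (e2967 R)

noncomputable def v2984 (R : VR) : ℕ :=
  Nat.mul (v2970 R) (VR.cr1 R)

noncomputable def s2984 (R : VR) (j i : ℕ) : Bool :=
  (s2970 R i)

theorem e2984 (R : VR) : B2 R (v2984 R) (s2984 R) :=
  B2.rep (e2970 R)

noncomputable def v2985 (R : VR) : ℕ :=
  Nat.land (srM (VR.N R) (VR.S R) (VR.o1 R) (v2967 R)) (Nat.mul (v2970 R) (VR.cr1 R))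

noncomputable def s2985 (R : VR) (j i : ℕ) : Bool :=
  K.band (s2983 R j i) (s2984 R j i)

theorem e2985 (R : VR) : B2 R (v2985 R) (s2985 R) :=
  B.and (e2983 R) (e2984 R)

noncomputable def v2986 (R : VR) : ℕ :=
  Nat.lor (Nat.land (srM (VR.N R) (VR.S R) (VR.o1 R) (v2956 R)) (Nat.mul (v2959 R) (VR.cr1 R)))
    (Nat.land (srM (VR.N R) (VR.S R) (VR.o1 R) (v2967 R)) (Nat.mul (v2970 R) (VR.cr1 R)))

noncomputable def s2986 (R : VR) (j i : ℕ) : Bool :=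
  K.bor (s2982 R j i) (s2985 R j i)

theorem e2986 (R : VR) : B2 R (v2986 R) (s2986 R) :=
  B.or (e2982 R) (e2985 R)

noncomputable def v2987 (R : VR) : ℕ :=
  Nat.land (Nat.shiftRight (Nat.land (Nat.sub (VR.h2 R) (Nat.xor (srM (VR.N R) (VR.S R) (VR.o1 R)
    (v2953 R)) (v2941 R))) (VR.h2 R)) (nat_lit 15)) (Nat.lor (Nat.land (srM (VR.N R) (VR.S R)
    (VR.o1 R) (v2956 R)) (Nat.mul (v2959 R) (VR.cr1 R))) (Nat.land (srM (VR.N R) (VR.S R) (VR.o1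
    R) (v2967 R)) (Nat.mul (v2970 R) (VR.cr1 R))))

noncomputable def s2987 (R : VR) (j i : ℕ) : Bool :=
  K.band (s2979 R j i) (s2986 R j i)

theorem e2987 (R : VR) : B2 R (v2987 R) (s2987 R) :=
  B.and (e2979 R) (e2986 R)

noncomputable def s2988 (R : VR) (j i : ℕ) : Bool :=
  K.Cf_ex22 (VR.Cf R) (tf (VR.BGXT R)) (s2933 R j) (s2933 R i) j i

theorem e2988 (R : VR) : B2 R (v2987 R) (s2988 R) :=
  e2987 R

noncomputable def v2989 (R : VR) : ℕ :=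
  Nat.lor (v2977 R) (Nat.land (Nat.shiftRight (Nat.land (Nat.sub (VR.h2 R) (Nat.xor (srM (VR.N R)
    (VR.S R) (VR.o1 R) (v2953 R)) (v2941 R))) (VR.h2 R)) (nat_lit 15)) (Nat.lor (Nat.land (srM
    (VR.N R) (VR.S R) (VR.o1 R) (v2956 R)) (Nat.mul (v2959 R) (VR.cr1 R))) (Nat.land (srM (VR.N R)
    (VR.S R) (VR.o1 R) (v2967 R)) (Nat.mul (v2970 R) (VR.cr1 R)))))

noncomputable def s2989 (R : VR) (j i : ℕ) : Bool :=
  K.bor (s2977 R j i) (s2988 R j i)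

theorem e2989 (R : VR) : B2 R (v2989 R) (s2989 R) :=
  B.or (e2977 R) (e2988 R)

noncomputable def s2990 (R : VR) (j i : ℕ) : Bool :=
  K.Cf_exc (VR.Cf R) (tf (VR.BGXT R)) (s2933 R i) (s2933 R j) i j

theorem e2990 (R : VR) : B2 R (v2989 R) (s2990 R) :=
  e2989 R

noncomputable def v2991 (R : VR) : ℕ :=
  Nat.sub (VR.o2 R) (Nat.lor (v2977 R) (Nat.land (Nat.shiftRight (Nat.land (Nat.sub (VR.h2 R)
    (Nat.xor (srM (VR.N R) (VR.S R) (VR.o1 R) (v2953 R)) (v2941 R))) (VR.h2 R)) (nat_lit 15))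
    (Nat.lor (Nat.land (srM (VR.N R) (VR.S R) (VR.o1 R) (v2956 R)) (Nat.mul (v2959 R) (VR.cr1 R)))
    (Nat.land (srM (VR.N R) (VR.S R) (VR.o1 R) (v2967 R)) (Nat.mul (v2970 R) (VR.cr1 R))))))

noncomputable def s2991 (R : VR) (j i : ℕ) : Bool :=
  K.bnot (s2990 R j i)

theorem e2991 (R : VR) : B2 R (v2991 R) (s2991 R) :=
  B.not (VR.o2e R) (e2990 R)

noncomputable def v2992 (R : VR) : ℕ :=
  Nat.land (v2946 R) (Nat.sub (VR.o2 R) (Nat.lor (v2977 R) (Nat.land (Nat.shiftRight (Nat.land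
    (Nat.sub (VR.h2 R) (Nat.xor (srM (VR.N R) (VR.S R) (VR.o1 R) (v2953 R)) (v2941 R))) (VR.h2 R))
    (nat_lit 15)) (Nat.lor (Nat.land (srM (VR.N R) (VR.S R) (VR.o1 R) (v2956 R)) (Nat.mul (v2959
    R) (VR.cr1 R))) (Nat.land (srM (VR.N R) (VR.S R) (VR.o1 R) (v2967 R)) (Nat.mul (v2970 R)
    (VR.cr1 R)))))))

noncomputable def s2992 (R : VR) (j i : ℕ) : Bool :=
  K.band (s2946 R j i) (s2991 R j i)

theorem e2992 (R : VR) : B2 R (v2992 R) (s2992 R) :=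
  B.and (e2946 R) (e2991 R)

noncomputable def v2993 (R : VR) : ℕ :=
  Bool.rec (motive := fun _ => ℕ) (nat_lit 0) (Nat.land (v2946 R) (Nat.sub (VR.o2 R) (Nat.lor
    (v2977 R) (Nat.land (Nat.shiftRight (Nat.land (Nat.sub (VR.h2 R) (Nat.xor (srM (VR.N R) (VR.S
    R) (VR.o1 R) (v2953 R)) (v2941 R))) (VR.h2 R)) (nat_lit 15)) (Nat.lor (Nat.land (srM (VR.N R)
    (VR.S R) (VR.o1 R) (v2956 R)) (Nat.mul (v2959 R) (VR.cr1 R))) (Nat.land (srM (VR.N R) (VR.S R)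
    (VR.o1 R) (v2967 R)) (Nat.mul (v2970 R) (VR.cr1 R)))))))) (v2258 R)

noncomputable def s2993 (R : VR) (j i : ℕ) : Bool :=
  K.band (s2258 R) (s2992 R j i)

theorem e2993 (R : VR) : B2 R (v2993 R) (s2993 R) :=
  B.gand (e2258 R) (e2992 R)

noncomputable def v2994 (R : VR) : ℕ :=
  Nat.lor (v2345 R) (v2417 R)

noncomputable def s2994 (R : VR) (j i : ℕ) : Bool :=
  K.bor (s2345 R j i) (s2417 R j i)

theorem e2994 (R : VR) : B2 R (v2994 R) (s2994 R) :=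
  B.or (e2345 R) (e2417 R)

noncomputable def v2995 (R : VR) : ℕ :=
  Nat.lor (Nat.lor (v2345 R) (v2417 R)) (v2489 R)

noncomputable def s2995 (R : VR) (j i : ℕ) : Bool :=
  K.bor (s2994 R j i) (s2489 R j i)

theorem e2995 (R : VR) : B2 R (v2995 R) (s2995 R) :=
  B.or (e2994 R) (e2489 R)

noncomputable def v2996 (R : VR) : ℕ :=
  Nat.lor (Nat.lor (Nat.lor (v2345 R) (v2417 R)) (v2489 R)) (v2561 R)

noncomputable def s2996 (R : VR) (j i : ℕ) : Bool :=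
  K.bor (s2995 R j i) (s2561 R j i)

theorem e2996 (R : VR) : B2 R (v2996 R) (s2996 R) :=
  B.or (e2995 R) (e2561 R)

noncomputable def v2997 (R : VR) : ℕ :=
  Nat.lor (Nat.lor (Nat.lor (Nat.lor (v2345 R) (v2417 R)) (v2489 R)) (v2561 R)) (v2633 R)

noncomputable def s2997 (R : VR) (j i : ℕ) : Bool :=
  K.bor (s2996 R j i) (s2633 R j i)

theorem e2997 (R : VR) : B2 R (v2997 R) (s2997 R) :=
  B.or (e2996 R) (e2633 R)

noncomputable def v2998 (R : VR) : ℕ :=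
  Nat.lor (Nat.lor (Nat.lor (Nat.lor (Nat.lor (v2345 R) (v2417 R)) (v2489 R)) (v2561 R)) (v2633
    R)) (v2705 R)

noncomputable def s2998 (R : VR) (j i : ℕ) : Bool :=
  K.bor (s2997 R j i) (s2705 R j i)

theorem e2998 (R : VR) : B2 R (v2998 R) (s2998 R) :=
  B.or (e2997 R) (e2705 R)

noncomputable def v2999 (R : VR) : ℕ :=
  Nat.lor (Nat.lor (Nat.lor (Nat.lor (Nat.lor (Nat.lor (v2345 R) (v2417 R)) (v2489 R)) (v2561 R))
    (v2633 R)) (v2705 R)) (v2777 R)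

noncomputable def s2999 (R : VR) (j i : ℕ) : Bool :=
  K.bor (s2998 R j i) (s2777 R j i)

theorem e2999 (R : VR) : B2 R (v2999 R) (s2999 R) :=
  B.or (e2998 R) (e2777 R)

noncomputable def v3000 (R : VR) : ℕ :=
  Nat.lor (Nat.lor (Nat.lor (Nat.lor (Nat.lor (Nat.lor (Nat.lor (v2345 R) (v2417 R)) (v2489 R))
    (v2561 R)) (v2633 R)) (v2705 R)) (v2777 R)) (v2849 R)

noncomputable def s3000 (R : VR) (j i : ℕ) : Bool :=
  K.bor (s2999 R j i) (s2849 R j i)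

theorem e3000 (R : VR) : B2 R (v3000 R) (s3000 R) :=
  B.or (e2999 R) (e2849 R)

noncomputable def v3001 (R : VR) : ℕ :=
  Nat.lor (Nat.lor (Nat.lor (Nat.lor (Nat.lor (Nat.lor (Nat.lor (Nat.lor (v2345 R) (v2417 R))
    (v2489 R)) (v2561 R)) (v2633 R)) (v2705 R)) (v2777 R)) (v2849 R)) (v2921 R)

noncomputable def s3001 (R : VR) (j i : ℕ) : Bool :=
  K.bor (s3000 R j i) (s2921 R j i)

theorem e3001 (R : VR) : B2 R (v3001 R) (s3001 R) :=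
  B.or (e3000 R) (e2921 R)

noncomputable def v3002 (R : VR) : ℕ :=
  Nat.lor (Nat.lor (Nat.lor (Nat.lor (Nat.lor (Nat.lor (Nat.lor (Nat.lor (Nat.lor (v2345 R) (v2417
    R)) (v2489 R)) (v2561 R)) (v2633 R)) (v2705 R)) (v2777 R)) (v2849 R)) (v2921 R)) (v2993 R)

noncomputable def s3002 (R : VR) (j i : ℕ) : Bool :=
  K.bor (s3001 R j i) (s2993 R j i)

theorem e3002 (R : VR) : B2 R (v3002 R) (s3002 R) :=
  B.or (e3001 R) (e2993 R)

noncomputable def s3003 (R : VR) (j i : ℕ) : Bool :=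
  K.lany (K.lrange (s510 R)) (fun (x89 : ℕ) => (K.band (K.band (K.band (K.band (K.bnot (Nat.beq
    (FC7.Cf.ad (VR.Cf R) x89 (FC6.Stars.ca (VR.Z R) i)) (nat_lit 0))) (K.bnot (Nat.beq (FC7.Cf.ad
    (VR.Cf R) x89 (FC6.Stars.ca (VR.Z R) j)) (nat_lit 0)))) (K.bnot (Nat.beq (FC6.Stars.ca (VR.Z
    R) i) (FC6.Stars.ca (VR.Z R) j)))) (K.Cf_nco (VR.Cf R) (Nat.sub (FC7.Cf.ad (VR.Cf R) x89
    (FC6.Stars.ca (VR.Z R) i)) (nat_lit 1)) (Nat.sub (FC7.Cf.ad (VR.Cf R) x89 (FC6.Stars.ca (VR.Z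
    R) j)) (nat_lit 1)))) (K.bnot (K.Cf_exc (VR.Cf R) (tf (VR.BGXT R)) (Nat.sub (FC7.Cf.ad (VR.Cf
    R) x89 (FC6.Stars.ca (VR.Z R) i)) (nat_lit 1)) (Nat.sub (FC7.Cf.ad (VR.Cf R) x89 (FC6.Stars.ca
    (VR.Z R) j)) (nat_lit 1)) i j))))

theorem e3003 (R : VR) : B2 R (v3002 R) (s3003 R) :=
  B.of_eq (e3002 R) (fun t _ => any10 (b510 R) (fun (x90 : ℕ) => (K.band (K.band (K.band (K.band
    (K.bnot (Nat.beq (FC7.Cf.ad (VR.Cf R) x90 (FC6.Stars.ca (VR.Z R) (t % VR.S R))) (nat_lit 0)))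
    (K.bnot (Nat.beq (FC7.Cf.ad (VR.Cf R) x90 (FC6.Stars.ca (VR.Z R) (t / VR.S R))) (nat_lit 0))))
    (K.bnot (Nat.beq (FC6.Stars.ca (VR.Z R) (t % VR.S R)) (FC6.Stars.ca (VR.Z R) (t / VR.S R)))))
    (K.Cf_nco (VR.Cf R) (Nat.sub (FC7.Cf.ad (VR.Cf R) x90 (FC6.Stars.ca (VR.Z R) (t % VR.S R)))
    (nat_lit 1)) (Nat.sub (FC7.Cf.ad (VR.Cf R) x90 (FC6.Stars.ca (VR.Z R) (t / VR.S R))) (nat_lit
    1)))) (K.bnot (K.Cf_exc (VR.Cf R) (tf (VR.BGXT R)) (Nat.sub (FC7.Cf.ad (VR.Cf R) x90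
    (FC6.Stars.ca (VR.Z R) (t % VR.S R))) (nat_lit 1)) (Nat.sub (FC7.Cf.ad (VR.Cf R) x90
    (FC6.Stars.ca (VR.Z R) (t / VR.S R))) (nat_lit 1)) (t % VR.S R) (t / VR.S R))))))

noncomputable def v3004 (R : VR) : ℕ :=
  Nat.lor (v2268 R) (Nat.lor (Nat.lor (Nat.lor (Nat.lor (Nat.lor (Nat.lor (Nat.lor (Nat.lor
    (Nat.lor (v2345 R) (v2417 R)) (v2489 R)) (v2561 R)) (v2633 R)) (v2705 R)) (v2777 R)) (v2849
    R)) (v2921 R)) (v2993 R))

noncomputable def s3004 (R : VR) (j i : ℕ) : Bool :=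
  K.bor (s2269 R j i) (s3003 R j i)

theorem e3004 (R : VR) : B2 R (v3004 R) (s3004 R) :=
  B.or (e2269 R) (e3003 R)

noncomputable def v3005 (R : VR) : ℕ :=
  Nat.land (Nat.sub (VR.o2 R) (Nat.xor (Nat.mul (VR.rlT R) (VR.cr1 R)) (srM (VR.N R) (VR.S R)
    (VR.o1 R) (VR.rlT R)))) (Nat.lor (v2268 R) (Nat.lor (Nat.lor (Nat.lor (Nat.lor (Nat.lor
    (Nat.lor (Nat.lor (Nat.lor (Nat.lor (v2345 R) (v2417 R)) (v2489 R)) (v2561 R)) (v2633 R))
    (v2705 R)) (v2777 R)) (v2849 R)) (v2921 R)) (v2993 R)))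

noncomputable def s3005 (R : VR) (j i : ℕ) : Bool :=
  K.band (s1934 R j i) (s3004 R j i)

theorem e3005 (R : VR) : B2 R (v3005 R) (s3005 R) :=
  B.and (e1934 R) (e3004 R)

noncomputable def v3006 (R : VR) : ℕ :=
  Nat.lor (Nat.land (v1930 R) (v938 R)) (Nat.land (Nat.sub (VR.o2 R) (Nat.xor (Nat.mul (VR.rlT R)
    (VR.cr1 R)) (srM (VR.N R) (VR.S R) (VR.o1 R) (VR.rlT R)))) (Nat.lor (v2268 R) (Nat.lor
    (Nat.lor (Nat.lor (Nat.lor (Nat.lor (Nat.lor (Nat.lor (Nat.lor (Nat.lor (v2345 R) (v2417 R))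
    (v2489 R)) (v2561 R)) (v2633 R)) (v2705 R)) (v2777 R)) (v2849 R)) (v2921 R)) (v2993 R))))

noncomputable def s3006 (R : VR) (j i : ℕ) : Bool :=
  K.bor (s1931 R j i) (s3005 R j i)

theorem e3006 (R : VR) : B2 R (v3006 R) (s3006 R) :=
  B.or (e1931 R) (e3005 R)

noncomputable def s3007 (R : VR) (j i : ℕ) : Bool :=
  V2.rule4 R i j

theorem e3007 (R : VR) : B2 R (v3006 R) (s3007 R) :=
  e3006 R

noncomputable def v3008 (R : VR) : ℕ :=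
  Nat.lor (Nat.sub (VR.o2 R) (Nat.lor (Nat.lor (Nat.shiftRight (Nat.land (Nat.add (v1913 R) (VR.k2
    R)) (VR.h2 R)) (nat_lit 15)) (Nat.shiftRight (Nat.land (Nat.add (v1917 R) (VR.k2 R)) (VR.h2
    R)) (nat_lit 15))) (Nat.shiftRight (Nat.land (Nat.add (v1923 R) (VR.k2 R)) (VR.h2 R)) (nat_lit
    15)))) (Nat.lor (Nat.land (v1930 R) (v938 R)) (Nat.land (Nat.sub (VR.o2 R) (Nat.xor (Nat.mul
    (VR.rlT R) (VR.cr1 R)) (srM (VR.N R) (VR.S R) (VR.o1 R) (VR.rlT R)))) (Nat.lor (v2268 R)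
    (Nat.lor (Nat.lor (Nat.lor (Nat.lor (Nat.lor (Nat.lor (Nat.lor (Nat.lor (Nat.lor (v2345 R)
    (v2417 R)) (v2489 R)) (v2561 R)) (v2633 R)) (v2705 R)) (v2777 R)) (v2849 R)) (v2921 R)) (v2993
    R)))))

noncomputable def s3008 (R : VR) (j i : ℕ) : Bool :=
  K.bor (s1928 R j i) (s3007 R j i)

theorem e3008 (R : VR) : B2 R (v3008 R) (s3008 R) :=
  B.or (e1928 R) (e3007 R)

noncomputable def v3009 (R : VR) : ℕ :=
  Nat.shiftRight (Nat.land (Nat.sub (VR.h1 R) (Nat.mod (Nat.land (Nat.sub (VR.o2 R) (v3008 R)) (mM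
    (Nat.mul (v201 R) (VR.S R)))) (VR.m1 R))) (VR.h1 R)) (nat_lit 15)

noncomputable def s3009 (R : VR) (i : ℕ) : Bool :=
  K.allN (s201 R) (fun j => (s3008 R j i))

theorem e3009 (R : VR) : B (VR.S R) (v3009 R) (s3009 R) :=
  B.all (e3008 R) (VR.ns_le R)

noncomputable def s3010 (R : VR) (i : ℕ) : Bool :=
  K.allN (s201 R) (fun (x91 : ℕ) => (K.bor (K.bnot (V2.sd R i x91)) (V2.rule4 R i x91)))

theorem e3010 (R : VR) : B (VR.S R) (v3009 R) (s3010 R) :=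
  e3009 R

noncomputable def v3011 (R : VR) : Bool :=
  Nat.beq (Nat.land (Nat.sub (VR.o1 R) (Nat.shiftRight (Nat.land (Nat.sub (VR.h1 R) (Nat.mod
    (Nat.land (Nat.sub (VR.o2 R) (v3008 R)) (mM (Nat.mul (v201 R) (VR.S R)))) (VR.m1 R))) (VR.h1
    R)) (nat_lit 15))) (mM (v201 R))) (nat_lit 0)

noncomputable def s3011 (R : VR) : Bool :=
  K.allN (s201 R) (s3010 R)

theorem e3011 (R : VR) : (v3011 R) = s3011 R :=
  all0 (e3010 R) (VR.ns_le R)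

noncomputable def s3012 (R : VR) : Bool :=
  K.allN (s201 R) (fun (x92 : ℕ) => (K.allN (FC6.Sp.ns (VR.Q R)) (fun (x93 : ℕ) => (K.bor (K.bnot
    (V2.sd R x92 x93)) (V2.rule4 R x92 x93)))))

theorem e3012 (R : VR) : (v3011 R) = s3012 R :=
  e3011 R

noncomputable def s3013 (R : VR) : Bool :=
  V2.chk4 R

theorem e3013 (R : VR) : (v3011 R) = s3013 R :=
  e3012 R

noncomputable def c_chk4 (R : VR) : Bool :=
  (Nat.beq (Nat.land (Nat.sub (VR.o1 R) (Nat.shiftRight (Nat.land (Nat.sub (VR.h1 R) (Nat.mod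
    (Nat.land (Nat.sub (VR.o2 R) (v3008 R)) (mM (Nat.mul (v201 R) (VR.S R)))) (VR.m1 R))) (VR.h1
    R)) (nat_lit 15))) (mM (v201 R))) (nat_lit 0))

theorem c_chk4_eq (R : VR) : c_chk4 R = (V2.chk4 R) :=
  e3013 R

end Vs

end Pool.FC7
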