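import Pool.Agent.FC7.VtF

/-! # Vector form of the static checks: generated file (vgen.py) -/

open Finset

set_option linter.all false

namespace Pool.FC7

open Pool.FC6

namespace Vs

noncomputable def v3014 (R : VR) : ℕ :=
  Nat.mod (Nat.land (v4 R) (v129 R)) (VR.m1 R)

noncomputable def s3014 (R : VR) (i : ℕ) : ℕ :=
  tx (VR.caT R) (s2 R i)

theorem e3014 (R : VR) : L (VR.S R) (v3014 R) (s3014 R) 255 :=
  L.gat (e2 R) (VR.ca_is R) (VR.ca_lt R) (VR.ca_le R)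

noncomputable def v3015 (R : VR) : ℕ :=
  Nat.shiftRight (Nat.land (Nat.sub (Nat.add (v625 R) (VR.k1 R)) (Nat.mod (Nat.land (v4 R) (v129
    R)) (VR.m1 R))) (VR.h1 R)) (nat_lit 15)

noncomputable def s3015 (R : VR) (i : ℕ) : Bool :=
  Nat.ble (Nat.succ (s3014 R i)) (s625 R i)

theorem e3015 (R : VR) : B (VR.S R) (v3015 R) (s3015 R) :=
  L.blt (VR.h1e R) (VR.k1e R) (e3014 R) (e625 R)

noncomputable def v3016 (R : VR) : ℕ :=
  Nat.land (v902 R) (Nat.shiftRight (Nat.land (Nat.sub (Nat.add (v625 R) (VR.k1 R)) (Nat.mod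
    (Nat.land (v4 R) (v129 R)) (VR.m1 R))) (VR.h1 R)) (nat_lit 15))

noncomputable def s3016 (R : VR) (i : ℕ) : Bool :=
  K.band (s902 R i) (s3015 R i)

theorem e3016 (R : VR) : B (VR.S R) (v3016 R) (s3016 R) :=
  B.and (e902 R) (e3015 R)

noncomputable def v3017 (R : VR) : ℕ :=
  Nat.mod (Nat.land (v15 R) (v129 R)) (VR.m1 R)

noncomputable def s3017 (R : VR) (i : ℕ) : ℕ :=
  tx (VR.caT R) (s14 R i)

theorem e3017 (R : VR) : L (VR.S R) (v3017 R) (s3017 R) 255 :=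
  L.gat (e14 R) (VR.ca_is R) (VR.ca_lt R) (VR.ca_le R)

noncomputable def v3018 (R : VR) : ℕ :=
  Nat.shiftRight (Nat.land (Nat.sub (Nat.add (v625 R) (VR.k1 R)) (Nat.mod (Nat.land (v15 R) (v129
    R)) (VR.m1 R))) (VR.h1 R)) (nat_lit 15)

noncomputable def s3018 (R : VR) (i : ℕ) : Bool :=
  Nat.ble (Nat.succ (s3017 R i)) (s625 R i)

theorem e3018 (R : VR) : B (VR.S R) (v3018 R) (s3018 R) :=
  L.blt (VR.h1e R) (VR.k1e R) (e3017 R) (e625 R)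

noncomputable def v3019 (R : VR) : ℕ :=
  Nat.land (Nat.land (v902 R) (Nat.shiftRight (Nat.land (Nat.sub (Nat.add (v625 R) (VR.k1 R))
    (Nat.mod (Nat.land (v4 R) (v129 R)) (VR.m1 R))) (VR.h1 R)) (nat_lit 15))) (Nat.shiftRight
    (Nat.land (Nat.sub (Nat.add (v625 R) (VR.k1 R)) (Nat.mod (Nat.land (v15 R) (v129 R)) (VR.m1
    R))) (VR.h1 R)) (nat_lit 15))

noncomputable def s3019 (R : VR) (i : ℕ) : Bool :=
  K.band (s3016 R i) (s3018 R i)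

theorem e3019 (R : VR) : B (VR.S R) (v3019 R) (s3019 R) :=
  B.and (e3016 R) (e3018 R)

noncomputable def v3020 (R : VR) : ℕ :=
  Nat.mod (Nat.land (v4 R) (v436 R)) (VR.m1 R)

noncomputable def s3020 (R : VR) (i : ℕ) : Bool :=
  tf (VR.rlT R) (s2 R i)

theorem e3020 (R : VR) : B (VR.S R) (v3020 R) (s3020 R) :=
  B.gat (e2 R) (VR.rl_is R) (VR.rl_lt R)

noncomputable def v3021 (R : VR) : ℕ :=
  Nat.mod (Nat.land (v15 R) (v436 R)) (VR.m1 R)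

noncomputable def s3021 (R : VR) (i : ℕ) : Bool :=
  tf (VR.rlT R) (s14 R i)

theorem e3021 (R : VR) : B (VR.S R) (v3021 R) (s3021 R) :=
  B.gat (e14 R) (VR.rl_is R) (VR.rl_lt R)

noncomputable def v3022 (R : VR) : ℕ :=
  Nat.sub (VR.o1 R) (Nat.xor (Nat.mod (Nat.land (v4 R) (v436 R)) (VR.m1 R)) (Nat.mod (Nat.land
    (v15 R) (v436 R)) (VR.m1 R)))

noncomputable def s3022 (R : VR) (i : ℕ) : Bool :=
  K.beqB (s3020 R i) (s3021 R i)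

theorem e3022 (R : VR) : B (VR.S R) (v3022 R) (s3022 R) :=
  B.beqB (VR.o1e R) (e3020 R) (e3021 R)

noncomputable def v3023 (R : VR) : ℕ :=
  Nat.sub (VR.o1 R) (Nat.sub (VR.o1 R) (Nat.xor (Nat.mod (Nat.land (v4 R) (v436 R)) (VR.m1 R))
    (Nat.mod (Nat.land (v15 R) (v436 R)) (VR.m1 R))))

noncomputable def s3023 (R : VR) (i : ℕ) : Bool :=
  K.bnot (s3022 R i)

theorem e3023 (R : VR) : B (VR.S R) (v3023 R) (s3023 R) :=
  B.not (VR.o1e R) (e3022 R)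

noncomputable def v3024 (R : VR) : ℕ :=
  Nat.mod (Nat.land (v4 R) (v720 R)) (VR.m1 R)

noncomputable def s3024 (R : VR) (i : ℕ) : ℕ :=
  tx (VR.s1T R) (s2 R i)

theorem e3024 (R : VR) : L (VR.S R) (v3024 R) (s3024 R) 32767 :=
  L.gat (e2 R) (VR.s1_is R) (VR.s1_lt R) (VR.s1_le R)

noncomputable def v3025 (R : VR) : ℕ :=
  Nat.mod (Nat.land (v15 R) (v21 R)) (VR.m1 R)

noncomputable def s3025 (R : VR) (i : ℕ) : ℕ :=
  tx (VR.pw1T R) (s14 R i)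

theorem e3025 (R : VR) : L (VR.S R) (v3025 R) (s3025 R) 16384 :=
  L.gat (e14 R) (VR.pw1_is R) (VR.pw1_lt R) (VR.pw1_le R)

noncomputable def v3026 (R : VR) : ℕ :=
  Nat.land (Nat.mod (Nat.land (v4 R) (v720 R)) (VR.m1 R)) (Nat.mod (Nat.land (v15 R) (v21 R))
    (VR.m1 R))

noncomputable def s3026 (R : VR) (i : ℕ) : ℕ :=
  Nat.land (s3024 R i) (s3025 R i)

theorem e3026 (R : VR) : L (VR.S R) (v3026 R) (s3026 R) 32767 :=
  L.land (e3024 R) (e3025 R)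

noncomputable def v3027 (R : VR) : ℕ :=
  Nat.shiftRight (Nat.land (Nat.sub (VR.h1 R) (v3026 R)) (VR.h1 R)) (nat_lit 15)

noncomputable def s3027 (R : VR) (i : ℕ) : Bool :=
  Nat.beq (s3026 R i) (nat_lit 0)

theorem e3027 (R : VR) : B (VR.S R) (v3027 R) (s3027 R) :=
  L.ez (VR.h1e R) (e3026 R)

noncomputable def v3028 (R : VR) : ℕ :=
  Nat.shiftRight (Nat.land (Nat.add (v3026 R) (VR.k1 R)) (VR.h1 R)) (nat_lit 15)

noncomputable def s3028 (R : VR) (i : ℕ) : Bool :=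
  K.bnot (Nat.beq (s3026 R i) (nat_lit 0))

theorem e3028 (R : VR) : B (VR.S R) (v3028 R) (s3028 R) :=
  L.nz (VR.h1e R) (VR.k1e R) (e3026 R)

noncomputable def v3029 (R : VR) : ℕ :=
  Nat.mod (Nat.land (v4 R) (v727 R)) (VR.m1 R)

noncomputable def s3029 (R : VR) (i : ℕ) : ℕ :=
  tx (VR.s2T R) (s2 R i)

theorem e3029 (R : VR) : L (VR.S R) (v3029 R) (s3029 R) 32767 :=
  L.gat (e2 R) (VR.s2_is R) (VR.s2_lt R) (VR.s2_le R)

noncomputable def v3030 (R : VR) : ℕ :=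
  Nat.mod (Nat.land (v15 R) (v38 R)) (VR.m1 R)

noncomputable def s3030 (R : VR) (i : ℕ) : ℕ :=
  tx (VR.pw2T R) (s14 R i)

theorem e3030 (R : VR) : L (VR.S R) (v3030 R) (s3030 R) 16384 :=
  L.gat (e14 R) (VR.pw2_is R) (VR.pw2_lt R) (VR.pw2_le R)

noncomputable def v3031 (R : VR) : ℕ :=
  Nat.land (Nat.mod (Nat.land (v4 R) (v727 R)) (VR.m1 R)) (Nat.mod (Nat.land (v15 R) (v38 R))
    (VR.m1 R))

noncomputable def s3031 (R : VR) (i : ℕ) : ℕ :=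
  Nat.land (s3029 R i) (s3030 R i)

theorem e3031 (R : VR) : L (VR.S R) (v3031 R) (s3031 R) 32767 :=
  L.land (e3029 R) (e3030 R)

noncomputable def v3032 (R : VR) : ℕ :=
  Nat.shiftRight (Nat.land (Nat.sub (VR.h1 R) (v3031 R)) (VR.h1 R)) (nat_lit 15)

noncomputable def s3032 (R : VR) (i : ℕ) : Bool :=
  Nat.beq (s3031 R i) (nat_lit 0)

theorem e3032 (R : VR) : B (VR.S R) (v3032 R) (s3032 R) :=
  L.ez (VR.h1e R) (e3031 R)

noncomputable def v3033 (R : VR) : ℕ :=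
  Nat.shiftRight (Nat.land (Nat.add (v3031 R) (VR.k1 R)) (VR.h1 R)) (nat_lit 15)

noncomputable def s3033 (R : VR) (i : ℕ) : Bool :=
  K.bnot (Nat.beq (s3031 R i) (nat_lit 0))

theorem e3033 (R : VR) : B (VR.S R) (v3033 R) (s3033 R) :=
  L.nz (VR.h1e R) (VR.k1e R) (e3031 R)

noncomputable def v3034 (R : VR) : ℕ :=
  Nat.lor (Nat.shiftRight (Nat.land (Nat.add (v3026 R) (VR.k1 R)) (VR.h1 R)) (nat_lit 15))
    (Nat.shiftRight (Nat.land (Nat.add (v3031 R) (VR.k1 R)) (VR.h1 R)) (nat_lit 15))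

noncomputable def s3034 (R : VR) (i : ℕ) : Bool :=
  K.bor (s3028 R i) (s3033 R i)

theorem e3034 (R : VR) : B (VR.S R) (v3034 R) (s3034 R) :=
  B.or (e3028 R) (e3033 R)

noncomputable def v3035 (R : VR) : ℕ :=
  Nat.mod (Nat.land (v4 R) (v735 R)) (VR.m1 R)

noncomputable def s3035 (R : VR) (i : ℕ) : ℕ :=
  tx (VR.s3T R) (s2 R i)

theorem e3035 (R : VR) : L (VR.S R) (v3035 R) (s3035 R) 32767 :=
  L.gat (e2 R) (VR.s3_is R) (VR.s3_lt R) (VR.s3_le R)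

noncomputable def v3036 (R : VR) : ℕ :=
  Nat.mod (Nat.land (v15 R) (v738 R)) (VR.m1 R)

noncomputable def s3036 (R : VR) (i : ℕ) : ℕ :=
  tx (VR.pw3T R) (s14 R i)

theorem e3036 (R : VR) : L (VR.S R) (v3036 R) (s3036 R) 16384 :=
  L.gat (e14 R) (VR.pw3_is R) (VR.pw3_lt R) (VR.pw3_le R)

noncomputable def v3037 (R : VR) : ℕ :=
  Nat.land (Nat.mod (Nat.land (v4 R) (v735 R)) (VR.m1 R)) (Nat.mod (Nat.land (v15 R) (v738 R))
    (VR.m1 R))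

noncomputable def s3037 (R : VR) (i : ℕ) : ℕ :=
  Nat.land (s3035 R i) (s3036 R i)

theorem e3037 (R : VR) : L (VR.S R) (v3037 R) (s3037 R) 32767 :=
  L.land (e3035 R) (e3036 R)

noncomputable def v3038 (R : VR) : ℕ :=
  Nat.shiftRight (Nat.land (Nat.sub (VR.h1 R) (v3037 R)) (VR.h1 R)) (nat_lit 15)

noncomputable def s3038 (R : VR) (i : ℕ) : Bool :=
  Nat.beq (s3037 R i) (nat_lit 0)

theorem e3038 (R : VR) : B (VR.S R) (v3038 R) (s3038 R) :=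
  L.ez (VR.h1e R) (e3037 R)

noncomputable def v3039 (R : VR) : ℕ :=
  Nat.shiftRight (Nat.land (Nat.add (v3037 R) (VR.k1 R)) (VR.h1 R)) (nat_lit 15)

noncomputable def s3039 (R : VR) (i : ℕ) : Bool :=
  K.bnot (Nat.beq (s3037 R i) (nat_lit 0))

theorem e3039 (R : VR) : B (VR.S R) (v3039 R) (s3039 R) :=
  L.nz (VR.h1e R) (VR.k1e R) (e3037 R)

noncomputable def v3040 (R : VR) : ℕ :=
  Nat.lor (Nat.lor (Nat.shiftRight (Nat.land (Nat.add (v3026 R) (VR.k1 R)) (VR.h1 R)) (nat_lit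
    15)) (Nat.shiftRight (Nat.land (Nat.add (v3031 R) (VR.k1 R)) (VR.h1 R)) (nat_lit 15)))
    (Nat.shiftRight (Nat.land (Nat.add (v3037 R) (VR.k1 R)) (VR.h1 R)) (nat_lit 15))

noncomputable def s3040 (R : VR) (i : ℕ) : Bool :=
  K.bor (s3034 R i) (s3039 R i)

theorem e3040 (R : VR) : B (VR.S R) (v3040 R) (s3040 R) :=
  B.or (e3034 R) (e3039 R)

noncomputable def s3041 (R : VR) (i : ℕ) : Bool :=
  V2.sd R (s2 R i) (s14 R i)

theorem e3041 (R : VR) : B (VR.S R) (v3040 R) (s3041 R) :=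
  e3040 R

noncomputable def v3042 (R : VR) : ℕ :=
  Nat.lor (Nat.sub (VR.o1 R) (Nat.sub (VR.o1 R) (Nat.xor (Nat.mod (Nat.land (v4 R) (v436 R))
    (VR.m1 R)) (Nat.mod (Nat.land (v15 R) (v436 R)) (VR.m1 R))))) (Nat.lor (Nat.lor
    (Nat.shiftRight (Nat.land (Nat.add (v3026 R) (VR.k1 R)) (VR.h1 R)) (nat_lit 15))
    (Nat.shiftRight (Nat.land (Nat.add (v3031 R) (VR.k1 R)) (VR.h1 R)) (nat_lit 15)))
    (Nat.shiftRight (Nat.land (Nat.add (v3037 R) (VR.k1 R)) (VR.h1 R)) (nat_lit 15)))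

noncomputable def s3042 (R : VR) (i : ℕ) : Bool :=
  K.bor (s3023 R i) (s3041 R i)

theorem e3042 (R : VR) : B (VR.S R) (v3042 R) (s3042 R) :=
  B.or (e3023 R) (e3041 R)

noncomputable def v3043 (R : VR) : ℕ :=
  Nat.land (Nat.land (Nat.land (v902 R) (Nat.shiftRight (Nat.land (Nat.sub (Nat.add (v625 R)
    (VR.k1 R)) (Nat.mod (Nat.land (v4 R) (v129 R)) (VR.m1 R))) (VR.h1 R)) (nat_lit 15)))
    (Nat.shiftRight (Nat.land (Nat.sub (Nat.add (v625 R) (VR.k1 R)) (Nat.mod (Nat.land (v15 R)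
    (v129 R)) (VR.m1 R))) (VR.h1 R)) (nat_lit 15))) (v3042 R)

noncomputable def s3043 (R : VR) (i : ℕ) : Bool :=
  K.band (s3019 R i) (s3042 R i)

theorem e3043 (R : VR) : B (VR.S R) (v3043 R) (s3043 R) :=
  B.and (e3019 R) (e3042 R)

noncomputable def s3044 (R : VR) (i : ℕ) : Bool :=
  K.Cf_sd (VR.Cf R) (s2 R i) (s14 R i)

theorem e3044 (R : VR) : B (VR.S R) (v3043 R) (s3044 R) :=
  e3043 R

noncomputable def v3045 (R : VR) : Bool :=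
  Nat.beq (Nat.land (Nat.sub (VR.o1 R) (Nat.land (Nat.land (Nat.land (v902 R) (Nat.shiftRight
    (Nat.land (Nat.sub (Nat.add (v625 R) (VR.k1 R)) (Nat.mod (Nat.land (v4 R) (v129 R)) (VR.m1
    R))) (VR.h1 R)) (nat_lit 15))) (Nat.shiftRight (Nat.land (Nat.sub (Nat.add (v625 R) (VR.k1 R))
    (Nat.mod (Nat.land (v15 R) (v129 R)) (VR.m1 R))) (VR.h1 R)) (nat_lit 15))) (v3042 R))) (mM (v1
    R))) (nat_lit 0)

noncomputable def s3045 (R : VR) : Bool :=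
  K.allN (s1 R) (s3044 R)

theorem e3045 (R : VR) : (v3045 R) = s3045 R :=
  all0 (e3044 R) (VR.kdq_le R)

noncomputable def s3046 (R : VR) : Bool :=
  K.lall (FC7.WF.dq (VR.WF R)) (fun (x94 : ℕ × ℕ) => (K.Cf_sd (VR.Cf R) (Prod.fst x94) (Prod.snd
    x94)))

theorem e3046 (R : VR) : (v3045 R) = s3046 R :=
  (e3045 R).trans (lall_lst2 (VR.kdq R) (VR.dq1T R) (VR.dq2T R) (fun (x95 : ℕ × ℕ) => (K.Cf_sd
    (VR.Cf R) (Prod.fst x95) (Prod.snd x95)))).symm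

noncomputable def v3047 (R : VR) : ℕ :=
  Nat.mod (Nat.land (v51 R) (v436 R)) (VR.m1 R)

noncomputable def s3047 (R : VR) (i : ℕ) : Bool :=
  tf (VR.rlT R) (s50 R i)

theorem e3047 (R : VR) : B (VR.S R) (v3047 R) (s3047 R) :=
  B.gat (e50 R) (VR.rl_is R) (VR.rl_lt R)

noncomputable def v3048 (R : VR) : ℕ :=
  Nat.mod (Nat.land (v58 R) (v436 R)) (VR.m1 R)

noncomputable def s3048 (R : VR) (i : ℕ) : Bool :=
  tf (VR.rlT R) (s57 R i)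

theorem e3048 (R : VR) : B (VR.S R) (v3048 R) (s3048 R) :=
  B.gat (e57 R) (VR.rl_is R) (VR.rl_lt R)

noncomputable def v3049 (R : VR) : ℕ :=
  Nat.land (v3047 R) (v3048 R)

noncomputable def s3049 (R : VR) (i : ℕ) : Bool :=
  K.band (s3047 R i) (s3048 R i)

theorem e3049 (R : VR) : B (VR.S R) (v3049 R) (s3049 R) :=
  B.and (e3047 R) (e3048 R)

noncomputable def v3050 (R : VR) : ℕ :=
  Nat.mod (Nat.land (v51 R) (v129 R)) (VR.m1 R)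

noncomputable def s3050 (R : VR) (i : ℕ) : ℕ :=
  tx (VR.caT R) (s50 R i)

theorem e3050 (R : VR) : L (VR.S R) (v3050 R) (s3050 R) 255 :=
  L.gat (e50 R) (VR.ca_is R) (VR.ca_lt R) (VR.ca_le R)

noncomputable def v3051 (R : VR) : ℕ :=
  Nat.mod (Nat.land (v58 R) (v129 R)) (VR.m1 R)

noncomputable def s3051 (R : VR) (i : ℕ) : ℕ :=
  tx (VR.caT R) (s57 R i)

theorem e3051 (R : VR) : L (VR.S R) (v3051 R) (s3051 R) 255 :=
  L.gat (e57 R) (VR.ca_is R) (VR.ca_lt R) (VR.ca_le R)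

noncomputable def v3052 (R : VR) : ℕ :=
  Nat.shiftRight (Nat.land (Nat.sub (VR.h1 R) (Nat.xor (v3050 R) (v3051 R))) (VR.h1 R)) (nat_lit
    15)

noncomputable def s3052 (R : VR) (i : ℕ) : Bool :=
  Nat.beq (s3050 R i) (s3051 R i)

theorem e3052 (R : VR) : B (VR.S R) (v3052 R) (s3052 R) :=
  L.beq (VR.h1e R) (e3050 R) (e3051 R)

noncomputable def v3053 (R : VR) : ℕ :=
  Nat.mod (Nat.land (v51 R) (v164 R)) (VR.m1 R)

noncomputable def s3053 (R : VR) (i : ℕ) : ℕ :=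
  tx (VR.rhoT R) (s50 R i)

theorem e3053 (R : VR) : L (VR.S R) (v3053 R) (s3053 R) 255 :=
  L.gat (e50 R) (VR.rho_is R) (VR.rho_lt R) (VR.rho_le R)

noncomputable def v3054 (R : VR) : ℕ :=
  Nat.shiftRight (Nat.land (Nat.sub (VR.h1 R) (Nat.xor (v3053 R) (VR.nq2T R))) (VR.h1 R)) (nat_lit
    15)

noncomputable def s3054 (R : VR) (i : ℕ) : Bool :=
  Nat.beq (s3053 R i) (s57 R i)

theorem e3054 (R : VR) : B (VR.S R) (v3054 R) (s3054 R) :=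
  L.beq (VR.h1e R) (e3053 R) (e57 R)

noncomputable def v3055 (R : VR) : ℕ :=
  Nat.sub (VR.o1 R) (Nat.shiftRight (Nat.land (Nat.sub (VR.h1 R) (Nat.xor (v3053 R) (VR.nq2T R)))
    (VR.h1 R)) (nat_lit 15))

noncomputable def s3055 (R : VR) (i : ℕ) : Bool :=
  K.bnot (s3054 R i)

theorem e3055 (R : VR) : B (VR.S R) (v3055 R) (s3055 R) :=
  B.not (VR.o1e R) (e3054 R)

noncomputable def v3056 (R : VR) : ℕ :=
  Nat.land (Nat.shiftRight (Nat.land (Nat.sub (VR.h1 R) (Nat.xor (v3050 R) (v3051 R))) (VR.h1 R))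
    (nat_lit 15)) (Nat.sub (VR.o1 R) (Nat.shiftRight (Nat.land (Nat.sub (VR.h1 R) (Nat.xor (v3053
    R) (VR.nq2T R))) (VR.h1 R)) (nat_lit 15)))

noncomputable def s3056 (R : VR) (i : ℕ) : Bool :=
  K.band (s3052 R i) (s3055 R i)

theorem e3056 (R : VR) : B (VR.S R) (v3056 R) (s3056 R) :=
  B.and (e3052 R) (e3055 R)

noncomputable def v3057 (R : VR) : ℕ :=
  Nat.mod (Nat.land (v58 R) (v164 R)) (VR.m1 R)

noncomputable def s3057 (R : VR) (i : ℕ) : ℕ :=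
  tx (VR.rhoT R) (s57 R i)

theorem e3057 (R : VR) : L (VR.S R) (v3057 R) (s3057 R) 255 :=
  L.gat (e57 R) (VR.rho_is R) (VR.rho_lt R) (VR.rho_le R)

noncomputable def v3058 (R : VR) : ℕ :=
  Nat.shiftRight (Nat.land (Nat.sub (VR.h1 R) (Nat.xor (v3057 R) (VR.nq1T R))) (VR.h1 R)) (nat_lit
    15)

noncomputable def s3058 (R : VR) (i : ℕ) : Bool :=
  Nat.beq (s3057 R i) (s50 R i)

theorem e3058 (R : VR) : B (VR.S R) (v3058 R) (s3058 R) :=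
  L.beq (VR.h1e R) (e3057 R) (e50 R)

noncomputable def v3059 (R : VR) : ℕ :=
  Nat.sub (VR.o1 R) (Nat.shiftRight (Nat.land (Nat.sub (VR.h1 R) (Nat.xor (v3057 R) (VR.nq1T R)))
    (VR.h1 R)) (nat_lit 15))

noncomputable def s3059 (R : VR) (i : ℕ) : Bool :=
  K.bnot (s3058 R i)

theorem e3059 (R : VR) : B (VR.S R) (v3059 R) (s3059 R) :=
  B.not (VR.o1e R) (e3058 R)

noncomputable def v3060 (R : VR) : ℕ :=
  Nat.land (Nat.land (Nat.shiftRight (Nat.land (Nat.sub (VR.h1 R) (Nat.xor (v3050 R) (v3051 R)))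
    (VR.h1 R)) (nat_lit 15)) (Nat.sub (VR.o1 R) (Nat.shiftRight (Nat.land (Nat.sub (VR.h1 R)
    (Nat.xor (v3053 R) (VR.nq2T R))) (VR.h1 R)) (nat_lit 15)))) (Nat.sub (VR.o1 R) (Nat.shiftRight
    (Nat.land (Nat.sub (VR.h1 R) (Nat.xor (v3057 R) (VR.nq1T R))) (VR.h1 R)) (nat_lit 15)))

noncomputable def s3060 (R : VR) (i : ℕ) : Bool :=
  K.band (s3056 R i) (s3059 R i)

theorem e3060 (R : VR) : B (VR.S R) (v3060 R) (s3060 R) :=
  B.and (e3056 R) (e3059 R)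

noncomputable def v3061 (R : VR) : ℕ :=
  Nat.mul (v1936 R) (v3050 R)

noncomputable def s3061 (R : VR) (i : ℕ) : ℕ :=
  Nat.mul (s1936 R) (s3050 R i)

theorem e3061 (R : VR) : L (VR.S R) (v3061 R) (s3061 R) 2550 :=
  L.cmuls (e3050 R) (e1936 R) (b1936 R) (by decide)

noncomputable def v3062 (R : VR) : ℕ :=
  Nat.add (Nat.mul (v1936 R) (v3050 R)) (v3051 R)

noncomputable def s3062 (R : VR) (i : ℕ) : ℕ :=
  Nat.add (s3061 R i) (s3051 R i)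

theorem e3062 (R : VR) : L (VR.S R) (v3062 R) (s3062 R) 2805 :=
  L.add (e3061 R) (e3051 R) (by decide)

noncomputable def v3063 (R : VR) : ℕ :=
  gmk (VR.h2 R) (VR.J R) (Nat.mul (Nat.add (Nat.mul (v1936 R) (v3050 R)) (v3051 R)) (VR.cr1 R))

noncomputable def v3064 (R : VR) : ℕ :=
  Nat.mod (Nat.land (gmk (VR.h2 R) (VR.J R) (Nat.mul (Nat.add (Nat.mul (v1936 R) (v3050 R)) (v3051
    R)) (VR.cr1 R))) (v1941 R)) (VR.m1 R)

noncomputable def s3064 (R : VR) (i : ℕ) : ℕ :=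
  tx (VR.adT R) (s3062 R i)

theorem e3064 (R : VR) : L (VR.S R) (v3064 R) (s3064 R) 255 :=
  L.gat (e3062 R) (VR.ad_is R) (VR.ad_lt R) (VR.ad_le R)

noncomputable def v3065 (R : VR) : ℕ :=
  Nat.shiftRight (Nat.land (Nat.sub (VR.h1 R) (v3064 R)) (VR.h1 R)) (nat_lit 15)

noncomputable def s3065 (R : VR) (i : ℕ) : Bool :=
  Nat.beq (s3064 R i) (nat_lit 0)

theorem e3065 (R : VR) : B (VR.S R) (v3065 R) (s3065 R) :=
  L.ez (VR.h1e R) (e3064 R)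

noncomputable def v3066 (R : VR) : ℕ :=
  Nat.shiftRight (Nat.land (Nat.add (v3064 R) (VR.k1 R)) (VR.h1 R)) (nat_lit 15)

noncomputable def s3066 (R : VR) (i : ℕ) : Bool :=
  K.bnot (Nat.beq (s3064 R i) (nat_lit 0))

theorem e3066 (R : VR) : B (VR.S R) (v3066 R) (s3066 R) :=
  L.nz (VR.h1e R) (VR.k1e R) (e3064 R)

noncomputable def v3067 (R : VR) : ℕ :=
  Vc.ssub (VR.h1 R) (v3064 R) (v267 R)

noncomputable def s3067 (R : VR) (i : ℕ) : ℕ :=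
  Nat.sub (s3064 R i) (s267 R i)

theorem e3067 (R : VR) : L (VR.S R) (v3067 R) (s3067 R) 255 :=
  L.sub (VR.h1e R) (e3064 R) (e267 R)

noncomputable def v3068 (R : VR) : ℕ :=
  Nat.shiftRight (Nat.land (Nat.sub (VR.h1 R) (Nat.xor (VR.nq1T R) (v3067 R))) (VR.h1 R)) (nat_lit
    15)

noncomputable def s3068 (R : VR) (i : ℕ) : Bool :=
  Nat.beq (s50 R i) (s3067 R i)

theorem e3068 (R : VR) : B (VR.S R) (v3068 R) (s3068 R) :=
  L.beq (VR.h1e R) (e50 R) (e3067 R)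

noncomputable def v3069 (R : VR) : ℕ :=
  Nat.sub (VR.o1 R) (Nat.shiftRight (Nat.land (Nat.sub (VR.h1 R) (Nat.xor (VR.nq1T R) (v3067 R)))
    (VR.h1 R)) (nat_lit 15))

noncomputable def s3069 (R : VR) (i : ℕ) : Bool :=
  K.bnot (s3068 R i)

theorem e3069 (R : VR) : B (VR.S R) (v3069 R) (s3069 R) :=
  B.not (VR.o1e R) (e3068 R)

noncomputable def v3070 (R : VR) : ℕ :=
  Nat.land (Nat.shiftRight (Nat.land (Nat.add (v3064 R) (VR.k1 R)) (VR.h1 R)) (nat_lit 15))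
    (Nat.sub (VR.o1 R) (Nat.shiftRight (Nat.land (Nat.sub (VR.h1 R) (Nat.xor (VR.nq1T R) (v3067
    R))) (VR.h1 R)) (nat_lit 15)))

noncomputable def s3070 (R : VR) (i : ℕ) : Bool :=
  K.band (s3066 R i) (s3069 R i)

theorem e3070 (R : VR) : B (VR.S R) (v3070 R) (s3070 R) :=
  B.and (e3066 R) (e3069 R)

noncomputable def v3071 (R : VR) : ℕ :=
  gmk (VR.h2 R) (VR.J R) (Nat.mul (v3067 R) (VR.cr1 R))

noncomputable def v3072 (R : VR) : ℕ :=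
  Nat.mod (Nat.land (v3071 R) (v146 R)) (VR.m1 R)

noncomputable def s3072 (R : VR) (i : ℕ) : ℕ :=
  tx (VR.piT R) (s3067 R i)

theorem e3072 (R : VR) : L (VR.S R) (v3072 R) (s3072 R) 255 :=
  L.gat (e3067 R) (VR.pi_is R) (VR.pi_lt R) (VR.pi_le R)

noncomputable def v3073 (R : VR) : ℕ :=
  Nat.shiftRight (Nat.land (Nat.sub (VR.h1 R) (Nat.xor (VR.nq2T R) (v3072 R))) (VR.h1 R)) (nat_lit
    15)

noncomputable def s3073 (R : VR) (i : ℕ) : Bool :=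
  Nat.beq (s57 R i) (s3072 R i)

theorem e3073 (R : VR) : B (VR.S R) (v3073 R) (s3073 R) :=
  L.beq (VR.h1e R) (e57 R) (e3072 R)

noncomputable def v3074 (R : VR) : ℕ :=
  Nat.sub (VR.o1 R) (Nat.shiftRight (Nat.land (Nat.sub (VR.h1 R) (Nat.xor (VR.nq2T R) (v3072 R)))
    (VR.h1 R)) (nat_lit 15))

noncomputable def s3074 (R : VR) (i : ℕ) : Bool :=
  K.bnot (s3073 R i)

theorem e3074 (R : VR) : B (VR.S R) (v3074 R) (s3074 R) :=
  B.not (VR.o1e R) (e3073 R)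

noncomputable def v3075 (R : VR) : ℕ :=
  Nat.land (Nat.land (Nat.shiftRight (Nat.land (Nat.add (v3064 R) (VR.k1 R)) (VR.h1 R)) (nat_lit
    15)) (Nat.sub (VR.o1 R) (Nat.shiftRight (Nat.land (Nat.sub (VR.h1 R) (Nat.xor (VR.nq1T R)
    (v3067 R))) (VR.h1 R)) (nat_lit 15)))) (Nat.sub (VR.o1 R) (Nat.shiftRight (Nat.land (Nat.sub
    (VR.h1 R) (Nat.xor (VR.nq2T R) (v3072 R))) (VR.h1 R)) (nat_lit 15)))

noncomputable def s3075 (R : VR) (i : ℕ) : Bool :=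
  K.band (s3070 R i) (s3074 R i)

theorem e3075 (R : VR) : B (VR.S R) (v3075 R) (s3075 R) :=
  B.and (e3070 R) (e3074 R)

noncomputable def v3076 (R : VR) : ℕ :=
  Nat.mod (Nat.land (v3071 R) (v164 R)) (VR.m1 R)

noncomputable def s3076 (R : VR) (i : ℕ) : ℕ :=
  tx (VR.rhoT R) (s3067 R i)

theorem e3076 (R : VR) : L (VR.S R) (v3076 R) (s3076 R) 255 :=
  L.gat (e3067 R) (VR.rho_is R) (VR.rho_lt R) (VR.rho_le R)

noncomputable def v3077 (R : VR) : ℕ :=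
  Nat.shiftRight (Nat.land (Nat.sub (VR.h1 R) (Nat.xor (VR.nq1T R) (v3076 R))) (VR.h1 R)) (nat_lit
    15)

noncomputable def s3077 (R : VR) (i : ℕ) : Bool :=
  Nat.beq (s50 R i) (s3076 R i)

theorem e3077 (R : VR) : B (VR.S R) (v3077 R) (s3077 R) :=
  L.beq (VR.h1e R) (e50 R) (e3076 R)

noncomputable def v3078 (R : VR) : ℕ :=
  gmk (VR.h2 R) (VR.J R) (Nat.mul (v3057 R) (VR.cr1 R))

noncomputable def v3079 (R : VR) : ℕ :=
  Nat.mod (Nat.land (gmk (VR.h2 R) (VR.J R) (Nat.mul (v3057 R) (VR.cr1 R))) (v164 R)) (VR.m1 R)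

noncomputable def s3079 (R : VR) (i : ℕ) : ℕ :=
  tx (VR.rhoT R) (s3057 R i)

theorem e3079 (R : VR) : L (VR.S R) (v3079 R) (s3079 R) 255 :=
  L.gat (e3057 R) (VR.rho_is R) (VR.rho_lt R) (VR.rho_le R)

noncomputable def v3080 (R : VR) : ℕ :=
  Nat.shiftRight (Nat.land (Nat.sub (VR.h1 R) (Nat.xor (Nat.mod (Nat.land (gmk (VR.h2 R) (VR.J R)
    (Nat.mul (v3057 R) (VR.cr1 R))) (v164 R)) (VR.m1 R)) (v3072 R))) (VR.h1 R)) (nat_lit 15)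

noncomputable def s3080 (R : VR) (i : ℕ) : Bool :=
  Nat.beq (s3079 R i) (s3072 R i)

theorem e3080 (R : VR) : B (VR.S R) (v3080 R) (s3080 R) :=
  L.beq (VR.h1e R) (e3079 R) (e3072 R)

noncomputable def v3081 (R : VR) : ℕ :=
  Nat.land (Nat.shiftRight (Nat.land (Nat.sub (VR.h1 R) (Nat.xor (VR.nq1T R) (v3076 R))) (VR.h1
    R)) (nat_lit 15)) (v3080 R)

noncomputable def s3081 (R : VR) (i : ℕ) : Bool :=
  K.band (s3077 R i) (s3080 R i)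

theorem e3081 (R : VR) : B (VR.S R) (v3081 R) (s3081 R) :=
  B.and (e3077 R) (e3080 R)

noncomputable def v3082 (R : VR) : ℕ :=
  gmk (VR.h2 R) (VR.J R) (Nat.mul (v3076 R) (VR.cr1 R))

noncomputable def v3083 (R : VR) : ℕ :=
  Nat.mod (Nat.land (v3082 R) (v164 R)) (VR.m1 R)

noncomputable def s3083 (R : VR) (i : ℕ) : ℕ :=
  tx (VR.rhoT R) (s3076 R i)

theorem e3083 (R : VR) : L (VR.S R) (v3083 R) (s3083 R) 255 :=
  L.gat (e3076 R) (VR.rho_is R) (VR.rho_lt R) (VR.rho_le R)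

noncomputable def v3084 (R : VR) : ℕ :=
  Nat.shiftRight (Nat.land (Nat.sub (VR.h1 R) (Nat.xor (VR.nq1T R) (Nat.mod (Nat.land (v3082 R)
    (v164 R)) (VR.m1 R)))) (VR.h1 R)) (nat_lit 15)

noncomputable def s3084 (R : VR) (i : ℕ) : Bool :=
  Nat.beq (s50 R i) (s3083 R i)

theorem e3084 (R : VR) : B (VR.S R) (v3084 R) (s3084 R) :=
  L.beq (VR.h1e R) (e50 R) (e3083 R)

noncomputable def v3085 (R : VR) : ℕ :=
  Nat.shiftRight (Nat.land (Nat.sub (VR.h1 R) (Nat.xor (v3057 R) (v3072 R))) (VR.h1 R)) (nat_lit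
    15)

noncomputable def s3085 (R : VR) (i : ℕ) : Bool :=
  Nat.beq (s3057 R i) (s3072 R i)

theorem e3085 (R : VR) : B (VR.S R) (v3085 R) (s3085 R) :=
  L.beq (VR.h1e R) (e3057 R) (e3072 R)

noncomputable def v3086 (R : VR) : ℕ :=
  Nat.land (v3084 R) (Nat.shiftRight (Nat.land (Nat.sub (VR.h1 R) (Nat.xor (v3057 R) (v3072 R)))
    (VR.h1 R)) (nat_lit 15))

noncomputable def s3086 (R : VR) (i : ℕ) : Bool :=
  K.band (s3084 R i) (s3085 R i)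

theorem e3086 (R : VR) : B (VR.S R) (v3086 R) (s3086 R) :=
  B.and (e3084 R) (e3085 R)

noncomputable def v3087 (R : VR) : ℕ :=
  Nat.lor (Nat.land (Nat.shiftRight (Nat.land (Nat.sub (VR.h1 R) (Nat.xor (VR.nq1T R) (v3076 R)))
    (VR.h1 R)) (nat_lit 15)) (v3080 R)) (Nat.land (v3084 R) (Nat.shiftRight (Nat.land (Nat.sub
    (VR.h1 R) (Nat.xor (v3057 R) (v3072 R))) (VR.h1 R)) (nat_lit 15)))

noncomputable def s3087 (R : VR) (i : ℕ) : Bool :=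
  K.bor (s3081 R i) (s3086 R i)

theorem e3087 (R : VR) : B (VR.S R) (v3087 R) (s3087 R) :=
  B.or (e3081 R) (e3086 R)

noncomputable def v3088 (R : VR) : ℕ :=
  Nat.mod (Nat.land (v3082 R) (v2313 R)) (VR.m1 R)

noncomputable def s3088 (R : VR) (i : ℕ) : Bool :=
  tf (VR.BGXT R) (s3076 R i)

theorem e3088 (R : VR) : B (VR.S R) (v3088 R) (s3088 R) :=
  B.gat (e3076 R) (VR.BGX_is R) (VR.BGX_lt R)

noncomputable def v3089 (R : VR) : ℕ :=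
  Nat.sub (VR.o1 R) (Nat.mod (Nat.land (v3082 R) (v2313 R)) (VR.m1 R))

noncomputable def s3089 (R : VR) (i : ℕ) : Bool :=
  K.bnot (s3088 R i)

theorem e3089 (R : VR) : B (VR.S R) (v3089 R) (s3089 R) :=
  B.not (VR.o1e R) (e3088 R)

noncomputable def v3090 (R : VR) : ℕ :=
  Nat.land (v3049 R) (Nat.sub (VR.o1 R) (Nat.mod (Nat.land (v3082 R) (v2313 R)) (VR.m1 R)))

noncomputable def s3090 (R : VR) (i : ℕ) : Bool :=
  K.band (s3049 R i) (s3089 R i)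

theorem e3090 (R : VR) : B (VR.S R) (v3090 R) (s3090 R) :=
  B.and (e3049 R) (e3089 R)

noncomputable def v3091 (R : VR) : ℕ :=
  Nat.land (Nat.land (v3049 R) (Nat.sub (VR.o1 R) (Nat.mod (Nat.land (v3082 R) (v2313 R)) (VR.m1
    R)))) (v3084 R)

noncomputable def s3091 (R : VR) (i : ℕ) : Bool :=
  K.band (s3090 R i) (s3084 R i)

theorem e3091 (R : VR) : B (VR.S R) (v3091 R) (s3091 R) :=
  B.and (e3090 R) (e3084 R)

noncomputable def v3092 (R : VR) : ℕ :=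
  Nat.land (Nat.land (Nat.land (v3049 R) (Nat.sub (VR.o1 R) (Nat.mod (Nat.land (v3082 R) (v2313
    R)) (VR.m1 R)))) (v3084 R)) (v3080 R)

noncomputable def s3092 (R : VR) (i : ℕ) : Bool :=
  K.band (s3091 R i) (s3080 R i)

theorem e3092 (R : VR) : B (VR.S R) (v3092 R) (s3092 R) :=
  B.and (e3091 R) (e3080 R)

noncomputable def v3093 (R : VR) : ℕ :=
  Nat.lor (Nat.lor (Nat.land (Nat.shiftRight (Nat.land (Nat.sub (VR.h1 R) (Nat.xor (VR.nq1T R)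
    (v3076 R))) (VR.h1 R)) (nat_lit 15)) (v3080 R)) (Nat.land (v3084 R) (Nat.shiftRight (Nat.land
    (Nat.sub (VR.h1 R) (Nat.xor (v3057 R) (v3072 R))) (VR.h1 R)) (nat_lit 15)))) (Nat.land
    (Nat.land (Nat.land (v3049 R) (Nat.sub (VR.o1 R) (Nat.mod (Nat.land (v3082 R) (v2313 R))
    (VR.m1 R)))) (v3084 R)) (v3080 R))

noncomputable def s3093 (R : VR) (i : ℕ) : Bool :=
  K.bor (s3087 R i) (s3092 R i)

theorem e3093 (R : VR) : B (VR.S R) (v3093 R) (s3093 R) :=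
  B.or (e3087 R) (e3092 R)

noncomputable def s3094 (R : VR) (i : ℕ) : Bool :=
  K.Cf_p4 (VR.Cf R) (tf (VR.BGXT R)) (s3067 R i) (s50 R i) (s57 R i)

theorem e3094 (R : VR) : B (VR.S R) (v3093 R) (s3094 R) :=
  e3093 R

noncomputable def v3095 (R : VR) : ℕ :=
  Nat.sub (VR.o1 R) (Nat.lor (Nat.lor (Nat.land (Nat.shiftRight (Nat.land (Nat.sub (VR.h1 R)
    (Nat.xor (VR.nq1T R) (v3076 R))) (VR.h1 R)) (nat_lit 15)) (v3080 R)) (Nat.land (v3084 R)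
    (Nat.shiftRight (Nat.land (Nat.sub (VR.h1 R) (Nat.xor (v3057 R) (v3072 R))) (VR.h1 R))
    (nat_lit 15)))) (Nat.land (Nat.land (Nat.land (v3049 R) (Nat.sub (VR.o1 R) (Nat.mod (Nat.land
    (v3082 R) (v2313 R)) (VR.m1 R)))) (v3084 R)) (v3080 R)))

noncomputable def s3095 (R : VR) (i : ℕ) : Bool :=
  K.bnot (s3094 R i)

theorem e3095 (R : VR) : B (VR.S R) (v3095 R) (s3095 R) :=
  B.not (VR.o1e R) (e3094 R)

noncomputable def v3096 (R : VR) : ℕ :=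
  Nat.land (Nat.land (Nat.land (Nat.shiftRight (Nat.land (Nat.add (v3064 R) (VR.k1 R)) (VR.h1 R))
    (nat_lit 15)) (Nat.sub (VR.o1 R) (Nat.shiftRight (Nat.land (Nat.sub (VR.h1 R) (Nat.xor
    (VR.nq1T R) (v3067 R))) (VR.h1 R)) (nat_lit 15)))) (Nat.sub (VR.o1 R) (Nat.shiftRight
    (Nat.land (Nat.sub (VR.h1 R) (Nat.xor (VR.nq2T R) (v3072 R))) (VR.h1 R)) (nat_lit 15))))
    (v3095 R)

noncomputable def s3096 (R : VR) (i : ℕ) : Bool :=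
  K.band (s3075 R i) (s3095 R i)

theorem e3096 (R : VR) : B (VR.S R) (v3096 R) (s3096 R) :=
  B.and (e3075 R) (e3095 R)

noncomputable def v3097 (R : VR) : ℕ :=
  gmk (VR.h2 R) (VR.J R) (Nat.mul (v3072 R) (VR.cr1 R))

noncomputable def v3098 (R : VR) : ℕ :=
  Nat.mod (Nat.land (v3097 R) (v164 R)) (VR.m1 R)

noncomputable def s3098 (R : VR) (i : ℕ) : ℕ :=
  tx (VR.rhoT R) (s3072 R i)

theorem e3098 (R : VR) : L (VR.S R) (v3098 R) (s3098 R) 255 :=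
  L.gat (e3072 R) (VR.rho_is R) (VR.rho_lt R) (VR.rho_le R)

noncomputable def v3099 (R : VR) : ℕ :=
  Nat.shiftRight (Nat.land (Nat.sub (VR.h1 R) (Nat.xor (VR.nq2T R) (v3098 R))) (VR.h1 R)) (nat_lit
    15)

noncomputable def s3099 (R : VR) (i : ℕ) : Bool :=
  Nat.beq (s57 R i) (s3098 R i)

theorem e3099 (R : VR) : B (VR.S R) (v3099 R) (s3099 R) :=
  L.beq (VR.h1e R) (e57 R) (e3098 R)

noncomputable def v3100 (R : VR) : ℕ :=
  gmk (VR.h2 R) (VR.J R) (Nat.mul (v3053 R) (VR.cr1 R))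

noncomputable def v3101 (R : VR) : ℕ :=
  Nat.mod (Nat.land (gmk (VR.h2 R) (VR.J R) (Nat.mul (v3053 R) (VR.cr1 R))) (v164 R)) (VR.m1 R)

noncomputable def s3101 (R : VR) (i : ℕ) : ℕ :=
  tx (VR.rhoT R) (s3053 R i)

theorem e3101 (R : VR) : L (VR.S R) (v3101 R) (s3101 R) 255 :=
  L.gat (e3053 R) (VR.rho_is R) (VR.rho_lt R) (VR.rho_le R)

noncomputable def v3102 (R : VR) : ℕ :=
  Nat.mod (Nat.land (v3097 R) (v146 R)) (VR.m1 R)

noncomputable def s3102 (R : VR) (i : ℕ) : ℕ :=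
  tx (VR.piT R) (s3072 R i)

theorem e3102 (R : VR) : L (VR.S R) (v3102 R) (s3102 R) 255 :=
  L.gat (e3072 R) (VR.pi_is R) (VR.pi_lt R) (VR.pi_le R)

noncomputable def v3103 (R : VR) : ℕ :=
  Nat.shiftRight (Nat.land (Nat.sub (VR.h1 R) (Nat.xor (Nat.mod (Nat.land (gmk (VR.h2 R) (VR.J R)
    (Nat.mul (v3053 R) (VR.cr1 R))) (v164 R)) (VR.m1 R)) (v3102 R))) (VR.h1 R)) (nat_lit 15)

noncomputable def s3103 (R : VR) (i : ℕ) : Bool :=
  Nat.beq (s3101 R i) (s3102 R i)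

theorem e3103 (R : VR) : B (VR.S R) (v3103 R) (s3103 R) :=
  L.beq (VR.h1e R) (e3101 R) (e3102 R)

noncomputable def v3104 (R : VR) : ℕ :=
  Nat.land (Nat.shiftRight (Nat.land (Nat.sub (VR.h1 R) (Nat.xor (VR.nq2T R) (v3098 R))) (VR.h1
    R)) (nat_lit 15)) (v3103 R)

noncomputable def s3104 (R : VR) (i : ℕ) : Bool :=
  K.band (s3099 R i) (s3103 R i)

theorem e3104 (R : VR) : B (VR.S R) (v3104 R) (s3104 R) :=
  B.and (e3099 R) (e3103 R)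

noncomputable def v3105 (R : VR) : ℕ :=
  gmk (VR.h2 R) (VR.J R) (Nat.mul (v3098 R) (VR.cr1 R))

noncomputable def v3106 (R : VR) : ℕ :=
  Nat.mod (Nat.land (v3105 R) (v164 R)) (VR.m1 R)

noncomputable def s3106 (R : VR) (i : ℕ) : ℕ :=
  tx (VR.rhoT R) (s3098 R i)

theorem e3106 (R : VR) : L (VR.S R) (v3106 R) (s3106 R) 255 :=
  L.gat (e3098 R) (VR.rho_is R) (VR.rho_lt R) (VR.rho_le R)

noncomputable def v3107 (R : VR) : ℕ :=
  Nat.shiftRight (Nat.land (Nat.sub (VR.h1 R) (Nat.xor (VR.nq2T R) (Nat.mod (Nat.land (v3105 R)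
    (v164 R)) (VR.m1 R)))) (VR.h1 R)) (nat_lit 15)

noncomputable def s3107 (R : VR) (i : ℕ) : Bool :=
  Nat.beq (s57 R i) (s3106 R i)

theorem e3107 (R : VR) : B (VR.S R) (v3107 R) (s3107 R) :=
  L.beq (VR.h1e R) (e57 R) (e3106 R)

noncomputable def v3108 (R : VR) : ℕ :=
  Nat.shiftRight (Nat.land (Nat.sub (VR.h1 R) (Nat.xor (v3053 R) (v3102 R))) (VR.h1 R)) (nat_lit
    15)

noncomputable def s3108 (R : VR) (i : ℕ) : Bool :=
  Nat.beq (s3053 R i) (s3102 R i)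

theorem e3108 (R : VR) : B (VR.S R) (v3108 R) (s3108 R) :=
  L.beq (VR.h1e R) (e3053 R) (e3102 R)

noncomputable def v3109 (R : VR) : ℕ :=
  Nat.land (v3107 R) (Nat.shiftRight (Nat.land (Nat.sub (VR.h1 R) (Nat.xor (v3053 R) (v3102 R)))
    (VR.h1 R)) (nat_lit 15))

noncomputable def s3109 (R : VR) (i : ℕ) : Bool :=
  K.band (s3107 R i) (s3108 R i)

theorem e3109 (R : VR) : B (VR.S R) (v3109 R) (s3109 R) :=
  B.and (e3107 R) (e3108 R)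

noncomputable def v3110 (R : VR) : ℕ :=
  Nat.lor (Nat.land (Nat.shiftRight (Nat.land (Nat.sub (VR.h1 R) (Nat.xor (VR.nq2T R) (v3098 R)))
    (VR.h1 R)) (nat_lit 15)) (v3103 R)) (Nat.land (v3107 R) (Nat.shiftRight (Nat.land (Nat.sub
    (VR.h1 R) (Nat.xor (v3053 R) (v3102 R))) (VR.h1 R)) (nat_lit 15)))

noncomputable def s3110 (R : VR) (i : ℕ) : Bool :=
  K.bor (s3104 R i) (s3109 R i)

theorem e3110 (R : VR) : B (VR.S R) (v3110 R) (s3110 R) :=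
  B.or (e3104 R) (e3109 R)

noncomputable def v3111 (R : VR) : ℕ :=
  Nat.land (v3048 R) (v3047 R)

noncomputable def s3111 (R : VR) (i : ℕ) : Bool :=
  K.band (s3048 R i) (s3047 R i)

theorem e3111 (R : VR) : B (VR.S R) (v3111 R) (s3111 R) :=
  B.and (e3048 R) (e3047 R)

noncomputable def v3112 (R : VR) : ℕ :=
  Nat.mod (Nat.land (v3105 R) (v2313 R)) (VR.m1 R)

noncomputable def s3112 (R : VR) (i : ℕ) : Bool :=
  tf (VR.BGXT R) (s3098 R i)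

theorem e3112 (R : VR) : B (VR.S R) (v3112 R) (s3112 R) :=
  B.gat (e3098 R) (VR.BGX_is R) (VR.BGX_lt R)

noncomputable def v3113 (R : VR) : ℕ :=
  Nat.sub (VR.o1 R) (Nat.mod (Nat.land (v3105 R) (v2313 R)) (VR.m1 R))

noncomputable def s3113 (R : VR) (i : ℕ) : Bool :=
  K.bnot (s3112 R i)

theorem e3113 (R : VR) : B (VR.S R) (v3113 R) (s3113 R) :=
  B.not (VR.o1e R) (e3112 R)

noncomputable def v3114 (R : VR) : ℕ :=
  Nat.land (Nat.land (v3048 R) (v3047 R)) (Nat.sub (VR.o1 R) (Nat.mod (Nat.land (v3105 R) (v2313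
    R)) (VR.m1 R)))

noncomputable def s3114 (R : VR) (i : ℕ) : Bool :=
  K.band (s3111 R i) (s3113 R i)

theorem e3114 (R : VR) : B (VR.S R) (v3114 R) (s3114 R) :=
  B.and (e3111 R) (e3113 R)

noncomputable def v3115 (R : VR) : ℕ :=
  Nat.land (Nat.land (Nat.land (v3048 R) (v3047 R)) (Nat.sub (VR.o1 R) (Nat.mod (Nat.land (v3105
    R) (v2313 R)) (VR.m1 R)))) (v3107 R)

noncomputable def s3115 (R : VR) (i : ℕ) : Bool :=
  K.band (s3114 R i) (s3107 R i)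

theorem e3115 (R : VR) : B (VR.S R) (v3115 R) (s3115 R) :=
  B.and (e3114 R) (e3107 R)

noncomputable def v3116 (R : VR) : ℕ :=
  Nat.land (Nat.land (Nat.land (Nat.land (v3048 R) (v3047 R)) (Nat.sub (VR.o1 R) (Nat.mod
    (Nat.land (v3105 R) (v2313 R)) (VR.m1 R)))) (v3107 R)) (v3103 R)

noncomputable def s3116 (R : VR) (i : ℕ) : Bool :=
  K.band (s3115 R i) (s3103 R i)

theorem e3116 (R : VR) : B (VR.S R) (v3116 R) (s3116 R) :=
  B.and (e3115 R) (e3103 R)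

noncomputable def v3117 (R : VR) : ℕ :=
  Nat.lor (Nat.lor (Nat.land (Nat.shiftRight (Nat.land (Nat.sub (VR.h1 R) (Nat.xor (VR.nq2T R)
    (v3098 R))) (VR.h1 R)) (nat_lit 15)) (v3103 R)) (Nat.land (v3107 R) (Nat.shiftRight (Nat.land
    (Nat.sub (VR.h1 R) (Nat.xor (v3053 R) (v3102 R))) (VR.h1 R)) (nat_lit 15)))) (Nat.land
    (Nat.land (Nat.land (Nat.land (v3048 R) (v3047 R)) (Nat.sub (VR.o1 R) (Nat.mod (Nat.land
    (v3105 R) (v2313 R)) (VR.m1 R)))) (v3107 R)) (v3103 R))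

noncomputable def s3117 (R : VR) (i : ℕ) : Bool :=
  K.bor (s3110 R i) (s3116 R i)

theorem e3117 (R : VR) : B (VR.S R) (v3117 R) (s3117 R) :=
  B.or (e3110 R) (e3116 R)

noncomputable def s3118 (R : VR) (i : ℕ) : Bool :=
  K.Cf_p4 (VR.Cf R) (tf (VR.BGXT R)) (s3072 R i) (s57 R i) (s50 R i)

theorem e3118 (R : VR) : B (VR.S R) (v3117 R) (s3118 R) :=
  e3117 R

noncomputable def v3119 (R : VR) : ℕ :=
  Nat.sub (VR.o1 R) (v3117 R)

noncomputable def s3119 (R : VR) (i : ℕ) : Bool :=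
  K.bnot (s3118 R i)

theorem e3119 (R : VR) : B (VR.S R) (v3119 R) (s3119 R) :=
  B.not (VR.o1e R) (e3118 R)

noncomputable def v3120 (R : VR) : ℕ :=
  Nat.land (Nat.land (Nat.land (Nat.land (Nat.shiftRight (Nat.land (Nat.add (v3064 R) (VR.k1 R))
    (VR.h1 R)) (nat_lit 15)) (Nat.sub (VR.o1 R) (Nat.shiftRight (Nat.land (Nat.sub (VR.h1 R)
    (Nat.xor (VR.nq1T R) (v3067 R))) (VR.h1 R)) (nat_lit 15)))) (Nat.sub (VR.o1 R) (Nat.shiftRight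
    (Nat.land (Nat.sub (VR.h1 R) (Nat.xor (VR.nq2T R) (v3072 R))) (VR.h1 R)) (nat_lit 15))))
    (v3095 R)) (Nat.sub (VR.o1 R) (v3117 R))

noncomputable def s3120 (R : VR) (i : ℕ) : Bool :=
  K.band (s3096 R i) (s3119 R i)

theorem e3120 (R : VR) : B (VR.S R) (v3120 R) (s3120 R) :=
  B.and (e3096 R) (e3119 R)

noncomputable def s3121 (R : VR) (i : ℕ) : Bool :=
  K.Cf_nadj (VR.Cf R) (tf (VR.BGXT R)) (s50 R i) (s57 R i)

theorem e3121 (R : VR) : B (VR.S R) (v3120 R) (s3121 R) :=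
  e3120 R

noncomputable def v3122 (R : VR) : ℕ :=
  Nat.lor (Nat.land (Nat.land (Nat.shiftRight (Nat.land (Nat.sub (VR.h1 R) (Nat.xor (v3050 R)
    (v3051 R))) (VR.h1 R)) (nat_lit 15)) (Nat.sub (VR.o1 R) (Nat.shiftRight (Nat.land (Nat.sub
    (VR.h1 R) (Nat.xor (v3053 R) (VR.nq2T R))) (VR.h1 R)) (nat_lit 15)))) (Nat.sub (VR.o1 R)
    (Nat.shiftRight (Nat.land (Nat.sub (VR.h1 R) (Nat.xor (v3057 R) (VR.nq1T R))) (VR.h1 R))
    (nat_lit 15)))) (v3120 R)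

noncomputable def s3122 (R : VR) (i : ℕ) : Bool :=
  K.bor (s3060 R i) (s3121 R i)

theorem e3122 (R : VR) : B (VR.S R) (v3122 R) (s3122 R) :=
  B.or (e3060 R) (e3121 R)

noncomputable def v3123 (R : VR) : ℕ :=
  Nat.land (v3049 R) (Nat.lor (Nat.land (Nat.land (Nat.shiftRight (Nat.land (Nat.sub (VR.h1 R)
    (Nat.xor (v3050 R) (v3051 R))) (VR.h1 R)) (nat_lit 15)) (Nat.sub (VR.o1 R) (Nat.shiftRight
    (Nat.land (Nat.sub (VR.h1 R) (Nat.xor (v3053 R) (VR.nq2T R))) (VR.h1 R)) (nat_lit 15))))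
    (Nat.sub (VR.o1 R) (Nat.shiftRight (Nat.land (Nat.sub (VR.h1 R) (Nat.xor (v3057 R) (VR.nq1T
    R))) (VR.h1 R)) (nat_lit 15)))) (v3120 R))

noncomputable def s3123 (R : VR) (i : ℕ) : Bool :=
  K.band (s3049 R i) (s3122 R i)

theorem e3123 (R : VR) : B (VR.S R) (v3123 R) (s3123 R) :=
  B.and (e3049 R) (e3122 R)

noncomputable def s3124 (R : VR) (i : ℕ) : Bool :=
  V2.nqc R (Prod.mk (s50 R i) (s57 R i))

theorem e3124 (R : VR) : B (VR.S R) (v3123 R) (s3124 R) :=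
  e3123 R

noncomputable def v3125 (R : VR) : Bool :=
  Nat.beq (Nat.land (Nat.sub (VR.o1 R) (v3123 R)) (mM (v49 R))) (nat_lit 0)

noncomputable def s3125 (R : VR) : Bool :=
  K.allN (s49 R) (s3124 R)

theorem e3125 (R : VR) : (v3125 R) = s3125 R :=
  all0 (e3124 R) (VR.knq_le R)

noncomputable def s3126 (R : VR) : Bool :=
  K.lall (FC7.WF.nq (VR.WF R)) (fun (x96 : ℕ × ℕ) => (V2.nqc R x96))

theorem e3126 (R : VR) : (v3125 R) = s3126 R :=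
  (e3125 R).trans (lall_lst2 (VR.knq R) (VR.nq1T R) (VR.nq2T R) (fun (x97 : ℕ × ℕ) => (V2.nqc R
    x97))).symm

noncomputable def v3127 (R : VR) : ℕ :=
  Nat.mod (Nat.land (v88 R) (v436 R)) (VR.m1 R)

noncomputable def s3127 (R : VR) (i : ℕ) : Bool :=
  tf (VR.rlT R) (s87 R i)

theorem e3127 (R : VR) : B (VR.S R) (v3127 R) (s3127 R) :=
  B.gat (e87 R) (VR.rl_is R) (VR.rl_lt R)

noncomputable def v3128 (R : VR) : ℕ :=
  Nat.mod (Nat.land (v95 R) (v436 R)) (VR.m1 R)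

noncomputable def s3128 (R : VR) (i : ℕ) : Bool :=
  tf (VR.rlT R) (s94 R i)

theorem e3128 (R : VR) : B (VR.S R) (v3128 R) (s3128 R) :=
  B.gat (e94 R) (VR.rl_is R) (VR.rl_lt R)

noncomputable def v3129 (R : VR) : ℕ :=
  Nat.sub (VR.o1 R) (v3128 R)

noncomputable def s3129 (R : VR) (i : ℕ) : Bool :=
  K.bnot (s3128 R i)

theorem e3129 (R : VR) : B (VR.S R) (v3129 R) (s3129 R) :=
  B.not (VR.o1e R) (e3128 R)

noncomputable def v3130 (R : VR) : ℕ :=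
  Nat.land (v3127 R) (Nat.sub (VR.o1 R) (v3128 R))

noncomputable def s3130 (R : VR) (i : ℕ) : Bool :=
  K.band (s3127 R i) (s3129 R i)

theorem e3130 (R : VR) : B (VR.S R) (v3130 R) (s3130 R) :=
  B.and (e3127 R) (e3129 R)

noncomputable def v3131 (R : VR) : ℕ :=
  Nat.mod (Nat.land (v88 R) (v129 R)) (VR.m1 R)

noncomputable def s3131 (R : VR) (i : ℕ) : ℕ :=
  tx (VR.caT R) (s87 R i)

theorem e3131 (R : VR) : L (VR.S R) (v3131 R) (s3131 R) 255 :=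
  L.gat (e87 R) (VR.ca_is R) (VR.ca_lt R) (VR.ca_le R)

noncomputable def v3132 (R : VR) : ℕ :=
  Nat.mod (Nat.land (v95 R) (v129 R)) (VR.m1 R)

noncomputable def s3132 (R : VR) (i : ℕ) : ℕ :=
  tx (VR.caT R) (s94 R i)

theorem e3132 (R : VR) : L (VR.S R) (v3132 R) (s3132 R) 255 :=
  L.gat (e94 R) (VR.ca_is R) (VR.ca_lt R) (VR.ca_le R)

noncomputable def v3133 (R : VR) : ℕ :=
  Nat.shiftRight (Nat.land (Nat.sub (VR.h1 R) (Nat.xor (v3131 R) (v3132 R))) (VR.h1 R)) (nat_lit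
    15)

noncomputable def s3133 (R : VR) (i : ℕ) : Bool :=
  Nat.beq (s3131 R i) (s3132 R i)

theorem e3133 (R : VR) : B (VR.S R) (v3133 R) (s3133 R) :=
  L.beq (VR.h1e R) (e3131 R) (e3132 R)

noncomputable def v3134 (R : VR) : ℕ :=
  Nat.mod (Nat.land (v88 R) (v164 R)) (VR.m1 R)

noncomputable def s3134 (R : VR) (i : ℕ) : ℕ :=
  tx (VR.rhoT R) (s87 R i)

theorem e3134 (R : VR) : L (VR.S R) (v3134 R) (s3134 R) 255 :=
  L.gat (e87 R) (VR.rho_is R) (VR.rho_lt R) (VR.rho_le R)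

noncomputable def v3135 (R : VR) : ℕ :=
  Nat.shiftRight (Nat.land (Nat.sub (VR.h1 R) (Nat.xor (v3134 R) (VR.oq2T R))) (VR.h1 R)) (nat_lit
    15)

noncomputable def s3135 (R : VR) (i : ℕ) : Bool :=
  Nat.beq (s3134 R i) (s94 R i)

theorem e3135 (R : VR) : B (VR.S R) (v3135 R) (s3135 R) :=
  L.beq (VR.h1e R) (e3134 R) (e94 R)

noncomputable def v3136 (R : VR) : ℕ :=
  Nat.sub (VR.o1 R) (Nat.shiftRight (Nat.land (Nat.sub (VR.h1 R) (Nat.xor (v3134 R) (VR.oq2T R)))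
    (VR.h1 R)) (nat_lit 15))

noncomputable def s3136 (R : VR) (i : ℕ) : Bool :=
  K.bnot (s3135 R i)

theorem e3136 (R : VR) : B (VR.S R) (v3136 R) (s3136 R) :=
  B.not (VR.o1e R) (e3135 R)

noncomputable def v3137 (R : VR) : ℕ :=
  Nat.land (Nat.shiftRight (Nat.land (Nat.sub (VR.h1 R) (Nat.xor (v3131 R) (v3132 R))) (VR.h1 R))
    (nat_lit 15)) (Nat.sub (VR.o1 R) (Nat.shiftRight (Nat.land (Nat.sub (VR.h1 R) (Nat.xor (v3134
    R) (VR.oq2T R))) (VR.h1 R)) (nat_lit 15)))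

noncomputable def s3137 (R : VR) (i : ℕ) : Bool :=
  K.band (s3133 R i) (s3136 R i)

theorem e3137 (R : VR) : B (VR.S R) (v3137 R) (s3137 R) :=
  B.and (e3133 R) (e3136 R)

noncomputable def v3138 (R : VR) : ℕ :=
  Nat.mod (Nat.land (v95 R) (v164 R)) (VR.m1 R)

noncomputable def s3138 (R : VR) (i : ℕ) : ℕ :=
  tx (VR.rhoT R) (s94 R i)

theorem e3138 (R : VR) : L (VR.S R) (v3138 R) (s3138 R) 255 :=
  L.gat (e94 R) (VR.rho_is R) (VR.rho_lt R) (VR.rho_le R)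

noncomputable def v3139 (R : VR) : ℕ :=
  Nat.shiftRight (Nat.land (Nat.sub (VR.h1 R) (Nat.xor (v3138 R) (VR.oq1T R))) (VR.h1 R)) (nat_lit
    15)

noncomputable def s3139 (R : VR) (i : ℕ) : Bool :=
  Nat.beq (s3138 R i) (s87 R i)

theorem e3139 (R : VR) : B (VR.S R) (v3139 R) (s3139 R) :=
  L.beq (VR.h1e R) (e3138 R) (e87 R)

noncomputable def v3140 (R : VR) : ℕ :=
  Nat.sub (VR.o1 R) (Nat.shiftRight (Nat.land (Nat.sub (VR.h1 R) (Nat.xor (v3138 R) (VR.oq1T R)))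
    (VR.h1 R)) (nat_lit 15))

noncomputable def s3140 (R : VR) (i : ℕ) : Bool :=
  K.bnot (s3139 R i)

theorem e3140 (R : VR) : B (VR.S R) (v3140 R) (s3140 R) :=
  B.not (VR.o1e R) (e3139 R)

noncomputable def v3141 (R : VR) : ℕ :=
  Nat.land (Nat.land (Nat.shiftRight (Nat.land (Nat.sub (VR.h1 R) (Nat.xor (v3131 R) (v3132 R)))
    (VR.h1 R)) (nat_lit 15)) (Nat.sub (VR.o1 R) (Nat.shiftRight (Nat.land (Nat.sub (VR.h1 R)
    (Nat.xor (v3134 R) (VR.oq2T R))) (VR.h1 R)) (nat_lit 15)))) (Nat.sub (VR.o1 R) (Nat.shiftRight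
    (Nat.land (Nat.sub (VR.h1 R) (Nat.xor (v3138 R) (VR.oq1T R))) (VR.h1 R)) (nat_lit 15)))

noncomputable def s3141 (R : VR) (i : ℕ) : Bool :=
  K.band (s3137 R i) (s3140 R i)

theorem e3141 (R : VR) : B (VR.S R) (v3141 R) (s3141 R) :=
  B.and (e3137 R) (e3140 R)

noncomputable def v3142 (R : VR) : ℕ :=
  Nat.mul (v1936 R) (v3131 R)

noncomputable def s3142 (R : VR) (i : ℕ) : ℕ :=
  Nat.mul (s1936 R) (s3131 R i)

theorem e3142 (R : VR) : L (VR.S R) (v3142 R) (s3142 R) 2550 :=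
  L.cmuls (e3131 R) (e1936 R) (b1936 R) (by decide)

noncomputable def v3143 (R : VR) : ℕ :=
  Nat.add (Nat.mul (v1936 R) (v3131 R)) (v3132 R)

noncomputable def s3143 (R : VR) (i : ℕ) : ℕ :=
  Nat.add (s3142 R i) (s3132 R i)

theorem e3143 (R : VR) : L (VR.S R) (v3143 R) (s3143 R) 2805 :=
  L.add (e3142 R) (e3132 R) (by decide)

noncomputable def v3144 (R : VR) : ℕ :=
  gmk (VR.h2 R) (VR.J R) (Nat.mul (Nat.add (Nat.mul (v1936 R) (v3131 R)) (v3132 R)) (VR.cr1 R))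

noncomputable def v3145 (R : VR) : ℕ :=
  Nat.mod (Nat.land (gmk (VR.h2 R) (VR.J R) (Nat.mul (Nat.add (Nat.mul (v1936 R) (v3131 R)) (v3132
    R)) (VR.cr1 R))) (v1941 R)) (VR.m1 R)

noncomputable def s3145 (R : VR) (i : ℕ) : ℕ :=
  tx (VR.adT R) (s3143 R i)

theorem e3145 (R : VR) : L (VR.S R) (v3145 R) (s3145 R) 255 :=
  L.gat (e3143 R) (VR.ad_is R) (VR.ad_lt R) (VR.ad_le R)

noncomputable def v3146 (R : VR) : ℕ :=
  Nat.shiftRight (Nat.land (Nat.sub (VR.h1 R) (v3145 R)) (VR.h1 R)) (nat_lit 15)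

noncomputable def s3146 (R : VR) (i : ℕ) : Bool :=
  Nat.beq (s3145 R i) (nat_lit 0)

theorem e3146 (R : VR) : B (VR.S R) (v3146 R) (s3146 R) :=
  L.ez (VR.h1e R) (e3145 R)

noncomputable def v3147 (R : VR) : ℕ :=
  Nat.shiftRight (Nat.land (Nat.add (v3145 R) (VR.k1 R)) (VR.h1 R)) (nat_lit 15)

noncomputable def s3147 (R : VR) (i : ℕ) : Bool :=
  K.bnot (Nat.beq (s3145 R i) (nat_lit 0))

theorem e3147 (R : VR) : B (VR.S R) (v3147 R) (s3147 R) :=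
  L.nz (VR.h1e R) (VR.k1e R) (e3145 R)

noncomputable def v3148 (R : VR) : ℕ :=
  Vc.ssub (VR.h1 R) (v3145 R) (v267 R)

noncomputable def s3148 (R : VR) (i : ℕ) : ℕ :=
  Nat.sub (s3145 R i) (s267 R i)

theorem e3148 (R : VR) : L (VR.S R) (v3148 R) (s3148 R) 255 :=
  L.sub (VR.h1e R) (e3145 R) (e267 R)

noncomputable def v3149 (R : VR) : ℕ :=
  Nat.shiftRight (Nat.land (Nat.sub (VR.h1 R) (Nat.xor (VR.oq1T R) (v3148 R))) (VR.h1 R)) (nat_lit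
    15)

noncomputable def s3149 (R : VR) (i : ℕ) : Bool :=
  Nat.beq (s87 R i) (s3148 R i)

theorem e3149 (R : VR) : B (VR.S R) (v3149 R) (s3149 R) :=
  L.beq (VR.h1e R) (e87 R) (e3148 R)

noncomputable def v3150 (R : VR) : ℕ :=
  Nat.sub (VR.o1 R) (Nat.shiftRight (Nat.land (Nat.sub (VR.h1 R) (Nat.xor (VR.oq1T R) (v3148 R)))
    (VR.h1 R)) (nat_lit 15))

noncomputable def s3150 (R : VR) (i : ℕ) : Bool :=
  K.bnot (s3149 R i)

theorem e3150 (R : VR) : B (VR.S R) (v3150 R) (s3150 R) :=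
  B.not (VR.o1e R) (e3149 R)

noncomputable def v3151 (R : VR) : ℕ :=
  Nat.land (Nat.shiftRight (Nat.land (Nat.add (v3145 R) (VR.k1 R)) (VR.h1 R)) (nat_lit 15))
    (Nat.sub (VR.o1 R) (Nat.shiftRight (Nat.land (Nat.sub (VR.h1 R) (Nat.xor (VR.oq1T R) (v3148
    R))) (VR.h1 R)) (nat_lit 15)))

noncomputable def s3151 (R : VR) (i : ℕ) : Bool :=
  K.band (s3147 R i) (s3150 R i)

theorem e3151 (R : VR) : B (VR.S R) (v3151 R) (s3151 R) :=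
  B.and (e3147 R) (e3150 R)

noncomputable def v3152 (R : VR) : ℕ :=
  gmk (VR.h2 R) (VR.J R) (Nat.mul (v3148 R) (VR.cr1 R))

noncomputable def v3153 (R : VR) : ℕ :=
  Nat.mod (Nat.land (v3152 R) (v146 R)) (VR.m1 R)

noncomputable def s3153 (R : VR) (i : ℕ) : ℕ :=
  tx (VR.piT R) (s3148 R i)

theorem e3153 (R : VR) : L (VR.S R) (v3153 R) (s3153 R) 255 :=
  L.gat (e3148 R) (VR.pi_is R) (VR.pi_lt R) (VR.pi_le R)

noncomputable def v3154 (R : VR) : ℕ :=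
  Nat.shiftRight (Nat.land (Nat.sub (VR.h1 R) (Nat.xor (VR.oq2T R) (v3153 R))) (VR.h1 R)) (nat_lit
    15)

noncomputable def s3154 (R : VR) (i : ℕ) : Bool :=
  Nat.beq (s94 R i) (s3153 R i)

theorem e3154 (R : VR) : B (VR.S R) (v3154 R) (s3154 R) :=
  L.beq (VR.h1e R) (e94 R) (e3153 R)

noncomputable def v3155 (R : VR) : ℕ :=
  Nat.sub (VR.o1 R) (Nat.shiftRight (Nat.land (Nat.sub (VR.h1 R) (Nat.xor (VR.oq2T R) (v3153 R)))
    (VR.h1 R)) (nat_lit 15))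

noncomputable def s3155 (R : VR) (i : ℕ) : Bool :=
  K.bnot (s3154 R i)

theorem e3155 (R : VR) : B (VR.S R) (v3155 R) (s3155 R) :=
  B.not (VR.o1e R) (e3154 R)

noncomputable def v3156 (R : VR) : ℕ :=
  Nat.land (Nat.land (Nat.shiftRight (Nat.land (Nat.add (v3145 R) (VR.k1 R)) (VR.h1 R)) (nat_lit
    15)) (Nat.sub (VR.o1 R) (Nat.shiftRight (Nat.land (Nat.sub (VR.h1 R) (Nat.xor (VR.oq1T R)
    (v3148 R))) (VR.h1 R)) (nat_lit 15)))) (Nat.sub (VR.o1 R) (Nat.shiftRight (Nat.land (Nat.sub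
    (VR.h1 R) (Nat.xor (VR.oq2T R) (v3153 R))) (VR.h1 R)) (nat_lit 15)))

noncomputable def s3156 (R : VR) (i : ℕ) : Bool :=
  K.band (s3151 R i) (s3155 R i)

theorem e3156 (R : VR) : B (VR.S R) (v3156 R) (s3156 R) :=
  B.and (e3151 R) (e3155 R)

noncomputable def v3157 (R : VR) : ℕ :=
  Nat.mod (Nat.land (v3152 R) (v164 R)) (VR.m1 R)

noncomputable def s3157 (R : VR) (i : ℕ) : ℕ :=
  tx (VR.rhoT R) (s3148 R i)

theorem e3157 (R : VR) : L (VR.S R) (v3157 R) (s3157 R) 255 :=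
  L.gat (e3148 R) (VR.rho_is R) (VR.rho_lt R) (VR.rho_le R)

noncomputable def v3158 (R : VR) : ℕ :=
  Nat.shiftRight (Nat.land (Nat.sub (VR.h1 R) (Nat.xor (VR.oq1T R) (v3157 R))) (VR.h1 R)) (nat_lit
    15)

noncomputable def s3158 (R : VR) (i : ℕ) : Bool :=
  Nat.beq (s87 R i) (s3157 R i)

theorem e3158 (R : VR) : B (VR.S R) (v3158 R) (s3158 R) :=
  L.beq (VR.h1e R) (e87 R) (e3157 R)

noncomputable def v3159 (R : VR) : ℕ :=
  gmk (VR.h2 R) (VR.J R) (Nat.mul (v3138 R) (VR.cr1 R))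

noncomputable def v3160 (R : VR) : ℕ :=
  Nat.mod (Nat.land (gmk (VR.h2 R) (VR.J R) (Nat.mul (v3138 R) (VR.cr1 R))) (v164 R)) (VR.m1 R)

noncomputable def s3160 (R : VR) (i : ℕ) : ℕ :=
  tx (VR.rhoT R) (s3138 R i)

theorem e3160 (R : VR) : L (VR.S R) (v3160 R) (s3160 R) 255 :=
  L.gat (e3138 R) (VR.rho_is R) (VR.rho_lt R) (VR.rho_le R)

noncomputable def v3161 (R : VR) : ℕ :=
  Nat.shiftRight (Nat.land (Nat.sub (VR.h1 R) (Nat.xor (Nat.mod (Nat.land (gmk (VR.h2 R) (VR.J R)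
    (Nat.mul (v3138 R) (VR.cr1 R))) (v164 R)) (VR.m1 R)) (v3153 R))) (VR.h1 R)) (nat_lit 15)

noncomputable def s3161 (R : VR) (i : ℕ) : Bool :=
  Nat.beq (s3160 R i) (s3153 R i)

theorem e3161 (R : VR) : B (VR.S R) (v3161 R) (s3161 R) :=
  L.beq (VR.h1e R) (e3160 R) (e3153 R)

noncomputable def v3162 (R : VR) : ℕ :=
  Nat.land (Nat.shiftRight (Nat.land (Nat.sub (VR.h1 R) (Nat.xor (VR.oq1T R) (v3157 R))) (VR.h1
    R)) (nat_lit 15)) (v3161 R)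

noncomputable def s3162 (R : VR) (i : ℕ) : Bool :=
  K.band (s3158 R i) (s3161 R i)

theorem e3162 (R : VR) : B (VR.S R) (v3162 R) (s3162 R) :=
  B.and (e3158 R) (e3161 R)

noncomputable def v3163 (R : VR) : ℕ :=
  gmk (VR.h2 R) (VR.J R) (Nat.mul (v3157 R) (VR.cr1 R))

noncomputable def v3164 (R : VR) : ℕ :=
  Nat.mod (Nat.land (v3163 R) (v164 R)) (VR.m1 R)

noncomputable def s3164 (R : VR) (i : ℕ) : ℕ :=
  tx (VR.rhoT R) (s3157 R i)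

theorem e3164 (R : VR) : L (VR.S R) (v3164 R) (s3164 R) 255 :=
  L.gat (e3157 R) (VR.rho_is R) (VR.rho_lt R) (VR.rho_le R)

noncomputable def v3165 (R : VR) : ℕ :=
  Nat.shiftRight (Nat.land (Nat.sub (VR.h1 R) (Nat.xor (VR.oq1T R) (Nat.mod (Nat.land (v3163 R)
    (v164 R)) (VR.m1 R)))) (VR.h1 R)) (nat_lit 15)

noncomputable def s3165 (R : VR) (i : ℕ) : Bool :=
  Nat.beq (s87 R i) (s3164 R i)

theorem e3165 (R : VR) : B (VR.S R) (v3165 R) (s3165 R) :=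
  L.beq (VR.h1e R) (e87 R) (e3164 R)

noncomputable def v3166 (R : VR) : ℕ :=
  Nat.shiftRight (Nat.land (Nat.sub (VR.h1 R) (Nat.xor (v3138 R) (v3153 R))) (VR.h1 R)) (nat_lit
    15)

noncomputable def s3166 (R : VR) (i : ℕ) : Bool :=
  Nat.beq (s3138 R i) (s3153 R i)

theorem e3166 (R : VR) : B (VR.S R) (v3166 R) (s3166 R) :=
  L.beq (VR.h1e R) (e3138 R) (e3153 R)

noncomputable def v3167 (R : VR) : ℕ :=
  Nat.land (v3165 R) (Nat.shiftRight (Nat.land (Nat.sub (VR.h1 R) (Nat.xor (v3138 R) (v3153 R)))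
    (VR.h1 R)) (nat_lit 15))

noncomputable def s3167 (R : VR) (i : ℕ) : Bool :=
  K.band (s3165 R i) (s3166 R i)

theorem e3167 (R : VR) : B (VR.S R) (v3167 R) (s3167 R) :=
  B.and (e3165 R) (e3166 R)

noncomputable def v3168 (R : VR) : ℕ :=
  Nat.lor (Nat.land (Nat.shiftRight (Nat.land (Nat.sub (VR.h1 R) (Nat.xor (VR.oq1T R) (v3157 R)))
    (VR.h1 R)) (nat_lit 15)) (v3161 R)) (Nat.land (v3165 R) (Nat.shiftRight (Nat.land (Nat.sub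
    (VR.h1 R) (Nat.xor (v3138 R) (v3153 R))) (VR.h1 R)) (nat_lit 15)))

noncomputable def s3168 (R : VR) (i : ℕ) : Bool :=
  K.bor (s3162 R i) (s3167 R i)

theorem e3168 (R : VR) : B (VR.S R) (v3168 R) (s3168 R) :=
  B.or (e3162 R) (e3167 R)

noncomputable def v3169 (R : VR) : ℕ :=
  Nat.land (v3127 R) (v3128 R)

noncomputable def s3169 (R : VR) (i : ℕ) : Bool :=
  K.band (s3127 R i) (s3128 R i)

theorem e3169 (R : VR) : B (VR.S R) (v3169 R) (s3169 R) :=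
  B.and (e3127 R) (e3128 R)

noncomputable def v3170 (R : VR) : ℕ :=
  Nat.mod (Nat.land (v3163 R) (v2313 R)) (VR.m1 R)

noncomputable def s3170 (R : VR) (i : ℕ) : Bool :=
  tf (VR.BGXT R) (s3157 R i)

theorem e3170 (R : VR) : B (VR.S R) (v3170 R) (s3170 R) :=
  B.gat (e3157 R) (VR.BGX_is R) (VR.BGX_lt R)

noncomputable def v3171 (R : VR) : ℕ :=
  Nat.sub (VR.o1 R) (Nat.mod (Nat.land (v3163 R) (v2313 R)) (VR.m1 R))

noncomputable def s3171 (R : VR) (i : ℕ) : Bool :=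
  K.bnot (s3170 R i)

theorem e3171 (R : VR) : B (VR.S R) (v3171 R) (s3171 R) :=
  B.not (VR.o1e R) (e3170 R)

noncomputable def v3172 (R : VR) : ℕ :=
  Nat.land (Nat.land (v3127 R) (v3128 R)) (Nat.sub (VR.o1 R) (Nat.mod (Nat.land (v3163 R) (v2313
    R)) (VR.m1 R)))

noncomputable def s3172 (R : VR) (i : ℕ) : Bool :=
  K.band (s3169 R i) (s3171 R i)

theorem e3172 (R : VR) : B (VR.S R) (v3172 R) (s3172 R) :=
  B.and (e3169 R) (e3171 R)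

noncomputable def v3173 (R : VR) : ℕ :=
  Nat.land (Nat.land (Nat.land (v3127 R) (v3128 R)) (Nat.sub (VR.o1 R) (Nat.mod (Nat.land (v3163
    R) (v2313 R)) (VR.m1 R)))) (v3165 R)

noncomputable def s3173 (R : VR) (i : ℕ) : Bool :=
  K.band (s3172 R i) (s3165 R i)

theorem e3173 (R : VR) : B (VR.S R) (v3173 R) (s3173 R) :=
  B.and (e3172 R) (e3165 R)

noncomputable def v3174 (R : VR) : ℕ :=
  Nat.land (Nat.land (Nat.land (Nat.land (v3127 R) (v3128 R)) (Nat.sub (VR.o1 R) (Nat.mod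
    (Nat.land (v3163 R) (v2313 R)) (VR.m1 R)))) (v3165 R)) (v3161 R)

noncomputable def s3174 (R : VR) (i : ℕ) : Bool :=
  K.band (s3173 R i) (s3161 R i)

theorem e3174 (R : VR) : B (VR.S R) (v3174 R) (s3174 R) :=
  B.and (e3173 R) (e3161 R)

noncomputable def v3175 (R : VR) : ℕ :=
  Nat.lor (Nat.lor (Nat.land (Nat.shiftRight (Nat.land (Nat.sub (VR.h1 R) (Nat.xor (VR.oq1T R)
    (v3157 R))) (VR.h1 R)) (nat_lit 15)) (v3161 R)) (Nat.land (v3165 R) (Nat.shiftRight (Nat.land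
    (Nat.sub (VR.h1 R) (Nat.xor (v3138 R) (v3153 R))) (VR.h1 R)) (nat_lit 15)))) (Nat.land
    (Nat.land (Nat.land (Nat.land (v3127 R) (v3128 R)) (Nat.sub (VR.o1 R) (Nat.mod (Nat.land
    (v3163 R) (v2313 R)) (VR.m1 R)))) (v3165 R)) (v3161 R))

noncomputable def s3175 (R : VR) (i : ℕ) : Bool :=
  K.bor (s3168 R i) (s3174 R i)

theorem e3175 (R : VR) : B (VR.S R) (v3175 R) (s3175 R) :=
  B.or (e3168 R) (e3174 R)

noncomputable def s3176 (R : VR) (i : ℕ) : Bool :=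
  K.Cf_p4 (VR.Cf R) (tf (VR.BGXT R)) (s3148 R i) (s87 R i) (s94 R i)

theorem e3176 (R : VR) : B (VR.S R) (v3175 R) (s3176 R) :=
  e3175 R

noncomputable def v3177 (R : VR) : ℕ :=
  Nat.sub (VR.o1 R) (v3175 R)

noncomputable def s3177 (R : VR) (i : ℕ) : Bool :=
  K.bnot (s3176 R i)

theorem e3177 (R : VR) : B (VR.S R) (v3177 R) (s3177 R) :=
  B.not (VR.o1e R) (e3176 R)

noncomputable def v3178 (R : VR) : ℕ :=
  Nat.land (Nat.land (Nat.land (Nat.shiftRight (Nat.land (Nat.add (v3145 R) (VR.k1 R)) (VR.h1 R))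
    (nat_lit 15)) (Nat.sub (VR.o1 R) (Nat.shiftRight (Nat.land (Nat.sub (VR.h1 R) (Nat.xor
    (VR.oq1T R) (v3148 R))) (VR.h1 R)) (nat_lit 15)))) (Nat.sub (VR.o1 R) (Nat.shiftRight
    (Nat.land (Nat.sub (VR.h1 R) (Nat.xor (VR.oq2T R) (v3153 R))) (VR.h1 R)) (nat_lit 15))))
    (Nat.sub (VR.o1 R) (v3175 R))

noncomputable def s3178 (R : VR) (i : ℕ) : Bool :=
  K.band (s3156 R i) (s3177 R i)

theorem e3178 (R : VR) : B (VR.S R) (v3178 R) (s3178 R) :=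
  B.and (e3156 R) (e3177 R)

noncomputable def v3179 (R : VR) : ℕ :=
  gmk (VR.h2 R) (VR.J R) (Nat.mul (v3153 R) (VR.cr1 R))

noncomputable def v3180 (R : VR) : ℕ :=
  Nat.mod (Nat.land (v3179 R) (v164 R)) (VR.m1 R)

noncomputable def s3180 (R : VR) (i : ℕ) : ℕ :=
  tx (VR.rhoT R) (s3153 R i)

theorem e3180 (R : VR) : L (VR.S R) (v3180 R) (s3180 R) 255 :=
  L.gat (e3153 R) (VR.rho_is R) (VR.rho_lt R) (VR.rho_le R)

noncomputable def v3181 (R : VR) : ℕ :=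
  Nat.shiftRight (Nat.land (Nat.sub (VR.h1 R) (Nat.xor (VR.oq2T R) (v3180 R))) (VR.h1 R)) (nat_lit
    15)

noncomputable def s3181 (R : VR) (i : ℕ) : Bool :=
  Nat.beq (s94 R i) (s3180 R i)

theorem e3181 (R : VR) : B (VR.S R) (v3181 R) (s3181 R) :=
  L.beq (VR.h1e R) (e94 R) (e3180 R)

noncomputable def v3182 (R : VR) : ℕ :=
  gmk (VR.h2 R) (VR.J R) (Nat.mul (v3134 R) (VR.cr1 R))

noncomputable def v3183 (R : VR) : ℕ :=
  Nat.mod (Nat.land (gmk (VR.h2 R) (VR.J R) (Nat.mul (v3134 R) (VR.cr1 R))) (v164 R)) (VR.m1 R)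

noncomputable def s3183 (R : VR) (i : ℕ) : ℕ :=
  tx (VR.rhoT R) (s3134 R i)

theorem e3183 (R : VR) : L (VR.S R) (v3183 R) (s3183 R) 255 :=
  L.gat (e3134 R) (VR.rho_is R) (VR.rho_lt R) (VR.rho_le R)

noncomputable def v3184 (R : VR) : ℕ :=
  Nat.mod (Nat.land (v3179 R) (v146 R)) (VR.m1 R)

noncomputable def s3184 (R : VR) (i : ℕ) : ℕ :=
  tx (VR.piT R) (s3153 R i)

theorem e3184 (R : VR) : L (VR.S R) (v3184 R) (s3184 R) 255 :=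
  L.gat (e3153 R) (VR.pi_is R) (VR.pi_lt R) (VR.pi_le R)

noncomputable def v3185 (R : VR) : ℕ :=
  Nat.shiftRight (Nat.land (Nat.sub (VR.h1 R) (Nat.xor (Nat.mod (Nat.land (gmk (VR.h2 R) (VR.J R)
    (Nat.mul (v3134 R) (VR.cr1 R))) (v164 R)) (VR.m1 R)) (v3184 R))) (VR.h1 R)) (nat_lit 15)

noncomputable def s3185 (R : VR) (i : ℕ) : Bool :=
  Nat.beq (s3183 R i) (s3184 R i)

theorem e3185 (R : VR) : B (VR.S R) (v3185 R) (s3185 R) :=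
  L.beq (VR.h1e R) (e3183 R) (e3184 R)

noncomputable def v3186 (R : VR) : ℕ :=
  Nat.land (Nat.shiftRight (Nat.land (Nat.sub (VR.h1 R) (Nat.xor (VR.oq2T R) (v3180 R))) (VR.h1
    R)) (nat_lit 15)) (v3185 R)

noncomputable def s3186 (R : VR) (i : ℕ) : Bool :=
  K.band (s3181 R i) (s3185 R i)

theorem e3186 (R : VR) : B (VR.S R) (v3186 R) (s3186 R) :=
  B.and (e3181 R) (e3185 R)

noncomputable def v3187 (R : VR) : ℕ :=
  gmk (VR.h2 R) (VR.J R) (Nat.mul (v3180 R) (VR.cr1 R))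

noncomputable def v3188 (R : VR) : ℕ :=
  Nat.mod (Nat.land (v3187 R) (v164 R)) (VR.m1 R)

noncomputable def s3188 (R : VR) (i : ℕ) : ℕ :=
  tx (VR.rhoT R) (s3180 R i)

theorem e3188 (R : VR) : L (VR.S R) (v3188 R) (s3188 R) 255 :=
  L.gat (e3180 R) (VR.rho_is R) (VR.rho_lt R) (VR.rho_le R)

noncomputable def v3189 (R : VR) : ℕ :=
  Nat.shiftRight (Nat.land (Nat.sub (VR.h1 R) (Nat.xor (VR.oq2T R) (Nat.mod (Nat.land (v3187 R)
    (v164 R)) (VR.m1 R)))) (VR.h1 R)) (nat_lit 15)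

noncomputable def s3189 (R : VR) (i : ℕ) : Bool :=
  Nat.beq (s94 R i) (s3188 R i)

theorem e3189 (R : VR) : B (VR.S R) (v3189 R) (s3189 R) :=
  L.beq (VR.h1e R) (e94 R) (e3188 R)

noncomputable def v3190 (R : VR) : ℕ :=
  Nat.shiftRight (Nat.land (Nat.sub (VR.h1 R) (Nat.xor (v3134 R) (v3184 R))) (VR.h1 R)) (nat_lit
    15)

noncomputable def s3190 (R : VR) (i : ℕ) : Bool :=
  Nat.beq (s3134 R i) (s3184 R i)

theorem e3190 (R : VR) : B (VR.S R) (v3190 R) (s3190 R) :=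
  L.beq (VR.h1e R) (e3134 R) (e3184 R)

noncomputable def v3191 (R : VR) : ℕ :=
  Nat.land (v3189 R) (Nat.shiftRight (Nat.land (Nat.sub (VR.h1 R) (Nat.xor (v3134 R) (v3184 R)))
    (VR.h1 R)) (nat_lit 15))

noncomputable def s3191 (R : VR) (i : ℕ) : Bool :=
  K.band (s3189 R i) (s3190 R i)

theorem e3191 (R : VR) : B (VR.S R) (v3191 R) (s3191 R) :=
  B.and (e3189 R) (e3190 R)

noncomputable def v3192 (R : VR) : ℕ :=
  Nat.lor (Nat.land (Nat.shiftRight (Nat.land (Nat.sub (VR.h1 R) (Nat.xor (VR.oq2T R) (v3180 R)))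
    (VR.h1 R)) (nat_lit 15)) (v3185 R)) (Nat.land (v3189 R) (Nat.shiftRight (Nat.land (Nat.sub
    (VR.h1 R) (Nat.xor (v3134 R) (v3184 R))) (VR.h1 R)) (nat_lit 15)))

noncomputable def s3192 (R : VR) (i : ℕ) : Bool :=
  K.bor (s3186 R i) (s3191 R i)

theorem e3192 (R : VR) : B (VR.S R) (v3192 R) (s3192 R) :=
  B.or (e3186 R) (e3191 R)

noncomputable def v3193 (R : VR) : ℕ :=
  Nat.land (v3128 R) (v3127 R)

noncomputable def s3193 (R : VR) (i : ℕ) : Bool :=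
  K.band (s3128 R i) (s3127 R i)

theorem e3193 (R : VR) : B (VR.S R) (v3193 R) (s3193 R) :=
  B.and (e3128 R) (e3127 R)

noncomputable def v3194 (R : VR) : ℕ :=
  Nat.mod (Nat.land (v3187 R) (v2313 R)) (VR.m1 R)

noncomputable def s3194 (R : VR) (i : ℕ) : Bool :=
  tf (VR.BGXT R) (s3180 R i)

theorem e3194 (R : VR) : B (VR.S R) (v3194 R) (s3194 R) :=
  B.gat (e3180 R) (VR.BGX_is R) (VR.BGX_lt R)

noncomputable def v3195 (R : VR) : ℕ :=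
  Nat.sub (VR.o1 R) (Nat.mod (Nat.land (v3187 R) (v2313 R)) (VR.m1 R))

noncomputable def s3195 (R : VR) (i : ℕ) : Bool :=
  K.bnot (s3194 R i)

theorem e3195 (R : VR) : B (VR.S R) (v3195 R) (s3195 R) :=
  B.not (VR.o1e R) (e3194 R)

noncomputable def v3196 (R : VR) : ℕ :=
  Nat.land (Nat.land (v3128 R) (v3127 R)) (Nat.sub (VR.o1 R) (Nat.mod (Nat.land (v3187 R) (v2313
    R)) (VR.m1 R)))

noncomputable def s3196 (R : VR) (i : ℕ) : Bool :=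
  K.band (s3193 R i) (s3195 R i)

theorem e3196 (R : VR) : B (VR.S R) (v3196 R) (s3196 R) :=
  B.and (e3193 R) (e3195 R)

noncomputable def v3197 (R : VR) : ℕ :=
  Nat.land (Nat.land (Nat.land (v3128 R) (v3127 R)) (Nat.sub (VR.o1 R) (Nat.mod (Nat.land (v3187
    R) (v2313 R)) (VR.m1 R)))) (v3189 R)

noncomputable def s3197 (R : VR) (i : ℕ) : Bool :=
  K.band (s3196 R i) (s3189 R i)

theorem e3197 (R : VR) : B (VR.S R) (v3197 R) (s3197 R) :=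
  B.and (e3196 R) (e3189 R)

noncomputable def v3198 (R : VR) : ℕ :=
  Nat.land (Nat.land (Nat.land (Nat.land (v3128 R) (v3127 R)) (Nat.sub (VR.o1 R) (Nat.mod
    (Nat.land (v3187 R) (v2313 R)) (VR.m1 R)))) (v3189 R)) (v3185 R)

noncomputable def s3198 (R : VR) (i : ℕ) : Bool :=
  K.band (s3197 R i) (s3185 R i)

theorem e3198 (R : VR) : B (VR.S R) (v3198 R) (s3198 R) :=
  B.and (e3197 R) (e3185 R)

noncomputable def v3199 (R : VR) : ℕ :=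
  Nat.lor (Nat.lor (Nat.land (Nat.shiftRight (Nat.land (Nat.sub (VR.h1 R) (Nat.xor (VR.oq2T R)
    (v3180 R))) (VR.h1 R)) (nat_lit 15)) (v3185 R)) (Nat.land (v3189 R) (Nat.shiftRight (Nat.land
    (Nat.sub (VR.h1 R) (Nat.xor (v3134 R) (v3184 R))) (VR.h1 R)) (nat_lit 15)))) (Nat.land
    (Nat.land (Nat.land (Nat.land (v3128 R) (v3127 R)) (Nat.sub (VR.o1 R) (Nat.mod (Nat.land
    (v3187 R) (v2313 R)) (VR.m1 R)))) (v3189 R)) (v3185 R))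

noncomputable def s3199 (R : VR) (i : ℕ) : Bool :=
  K.bor (s3192 R i) (s3198 R i)

theorem e3199 (R : VR) : B (VR.S R) (v3199 R) (s3199 R) :=
  B.or (e3192 R) (e3198 R)

noncomputable def s3200 (R : VR) (i : ℕ) : Bool :=
  K.Cf_p4 (VR.Cf R) (tf (VR.BGXT R)) (s3153 R i) (s94 R i) (s87 R i)

theorem e3200 (R : VR) : B (VR.S R) (v3199 R) (s3200 R) :=
  e3199 R

noncomputable def v3201 (R : VR) : ℕ :=
  Nat.sub (VR.o1 R) (v3199 R)

noncomputable def s3201 (R : VR) (i : ℕ) : Bool :=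
  K.bnot (s3200 R i)

theorem e3201 (R : VR) : B (VR.S R) (v3201 R) (s3201 R) :=
  B.not (VR.o1e R) (e3200 R)

noncomputable def v3202 (R : VR) : ℕ :=
  Nat.land (Nat.land (Nat.land (Nat.land (Nat.shiftRight (Nat.land (Nat.add (v3145 R) (VR.k1 R))
    (VR.h1 R)) (nat_lit 15)) (Nat.sub (VR.o1 R) (Nat.shiftRight (Nat.land (Nat.sub (VR.h1 R)
    (Nat.xor (VR.oq1T R) (v3148 R))) (VR.h1 R)) (nat_lit 15)))) (Nat.sub (VR.o1 R) (Nat.shiftRight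
    (Nat.land (Nat.sub (VR.h1 R) (Nat.xor (VR.oq2T R) (v3153 R))) (VR.h1 R)) (nat_lit 15))))
    (Nat.sub (VR.o1 R) (v3175 R))) (Nat.sub (VR.o1 R) (v3199 R))

noncomputable def s3202 (R : VR) (i : ℕ) : Bool :=
  K.band (s3178 R i) (s3201 R i)

theorem e3202 (R : VR) : B (VR.S R) (v3202 R) (s3202 R) :=
  B.and (e3178 R) (e3201 R)

noncomputable def s3203 (R : VR) (i : ℕ) : Bool :=
  K.Cf_nadj (VR.Cf R) (tf (VR.BGXT R)) (s87 R i) (s94 R i)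

theorem e3203 (R : VR) : B (VR.S R) (v3202 R) (s3203 R) :=
  e3202 R

noncomputable def v3204 (R : VR) : ℕ :=
  Nat.lor (Nat.land (Nat.land (Nat.shiftRight (Nat.land (Nat.sub (VR.h1 R) (Nat.xor (v3131 R)
    (v3132 R))) (VR.h1 R)) (nat_lit 15)) (Nat.sub (VR.o1 R) (Nat.shiftRight (Nat.land (Nat.sub
    (VR.h1 R) (Nat.xor (v3134 R) (VR.oq2T R))) (VR.h1 R)) (nat_lit 15)))) (Nat.sub (VR.o1 R)
    (Nat.shiftRight (Nat.land (Nat.sub (VR.h1 R) (Nat.xor (v3138 R) (VR.oq1T R))) (VR.h1 R))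
    (nat_lit 15)))) (v3202 R)

noncomputable def s3204 (R : VR) (i : ℕ) : Bool :=
  K.bor (s3141 R i) (s3203 R i)

theorem e3204 (R : VR) : B (VR.S R) (v3204 R) (s3204 R) :=
  B.or (e3141 R) (e3203 R)

noncomputable def v3205 (R : VR) : ℕ :=
  Nat.land (Nat.land (v3127 R) (Nat.sub (VR.o1 R) (v3128 R))) (Nat.lor (Nat.land (Nat.land
    (Nat.shiftRight (Nat.land (Nat.sub (VR.h1 R) (Nat.xor (v3131 R) (v3132 R))) (VR.h1 R))
    (nat_lit 15)) (Nat.sub (VR.o1 R) (Nat.shiftRight (Nat.land (Nat.sub (VR.h1 R) (Nat.xor (v3134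
    R) (VR.oq2T R))) (VR.h1 R)) (nat_lit 15)))) (Nat.sub (VR.o1 R) (Nat.shiftRight (Nat.land
    (Nat.sub (VR.h1 R) (Nat.xor (v3138 R) (VR.oq1T R))) (VR.h1 R)) (nat_lit 15)))) (v3202 R))

noncomputable def s3205 (R : VR) (i : ℕ) : Bool :=
  K.band (s3130 R i) (s3204 R i)

theorem e3205 (R : VR) : B (VR.S R) (v3205 R) (s3205 R) :=
  B.and (e3130 R) (e3204 R)

noncomputable def s3206 (R : VR) (i : ℕ) : Bool :=
  V2.oqc R (Prod.mk (s87 R i) (s94 R i))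

theorem e3206 (R : VR) : B (VR.S R) (v3205 R) (s3206 R) :=
  e3205 R

noncomputable def v3207 (R : VR) : Bool :=
  Nat.beq (Nat.land (Nat.sub (VR.o1 R) (v3205 R)) (mM (v86 R))) (nat_lit 0)

noncomputable def s3207 (R : VR) : Bool :=
  K.allN (s86 R) (s3206 R)

theorem e3207 (R : VR) : (v3207 R) = s3207 R :=
  all0 (e3206 R) (VR.koq_le R)

noncomputable def s3208 (R : VR) : Bool :=
  K.lall (FC7.WF.oq (VR.WF R)) (fun (x98 : ℕ × ℕ) => (V2.oqc R x98))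

theorem e3208 (R : VR) : (v3207 R) = s3208 R :=
  (e3207 R).trans (lall_lst2 (VR.koq R) (VR.oq1T R) (VR.oq2T R) (fun (x99 : ℕ × ℕ) => (V2.oqc R
    x99))).symm

noncomputable def v3209 (R : VR) : Bool :=
  K.band (Nat.beq (Nat.land (Nat.sub (VR.o1 R) (v3123 R)) (mM (v49 R))) (nat_lit 0)) (Nat.beq
    (Nat.land (Nat.sub (VR.o1 R) (v3205 R)) (mM (v86 R))) (nat_lit 0))

noncomputable def s3209 (R : VR) : Bool :=
  K.band (s3126 R) (s3208 R)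

theorem e3209 (R : VR) : (v3209 R) = s3209 R :=
  congrArg₂ K.band (e3126 R) (e3208 R)

noncomputable def v3210 (R : VR) : Bool :=
  K.band (v3045 R) (K.band (Nat.beq (Nat.land (Nat.sub (VR.o1 R) (v3123 R)) (mM (v49 R))) (nat_lit
    0)) (Nat.beq (Nat.land (Nat.sub (VR.o1 R) (v3205 R)) (mM (v86 R))) (nat_lit 0)))

noncomputable def s3210 (R : VR) : Bool :=
  K.band (s3046 R) (s3209 R)

theorem e3210 (R : VR) : (v3210 R) = s3210 R :=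
  congrArg₂ K.band (e3046 R) (e3209 R)

noncomputable def s3211 (R : VR) : Bool :=
  V2.g8a R

theorem e3211 (R : VR) : (v3210 R) = s3211 R :=
  e3210 R

noncomputable def c_g8a (R : VR) : Bool :=
  (K.band (v3045 R) (K.band (Nat.beq (Nat.land (Nat.sub (VR.o1 R) (v3123 R)) (mM (v49 R)))
    (nat_lit 0)) (Nat.beq (Nat.land (Nat.sub (VR.o1 R) (v3205 R)) (mM (v86 R))) (nat_lit 0))))

theorem c_g8a_eq (R : VR) : c_g8a R = (V2.g8a R) :=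
  e3211 R

noncomputable def v3212 (R : VR) (p : ℕ × ℕ × ℕ) : ℕ :=
  (Prod.fst p)

noncomputable def s3212 (R : VR) (p : ℕ × ℕ × ℕ) : ℕ :=
  (Prod.fst p)

theorem e3212 (R : VR) (p : ℕ × ℕ × ℕ) : (v3212 R p) = s3212 R p :=
  rfl

noncomputable def v3213 (R : VR) (p : ℕ × ℕ × ℕ) : Bool :=
  Nat.ble (Nat.succ (v3212 R p)) (v112 R)

noncomputable def s3213 (R : VR) (p : ℕ × ℕ × ℕ) : Bool :=
  Nat.ble (Nat.succ (s3212 R p)) (s112 R)

theorem e3213 (R : VR) (p : ℕ × ℕ × ℕ) : (v3213 R p) = s3213 R p :=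
  congrArg₂ Nat.ble (congrArg Nat.succ (e3212 R p)) (e112 R)

noncomputable def v3214 (R : VR) (p : ℕ × ℕ × ℕ) : ℕ :=
  (Prod.fst (Prod.snd p))

noncomputable def s3214 (R : VR) (p : ℕ × ℕ × ℕ) : ℕ :=
  (Prod.fst (Prod.snd p))

theorem e3214 (R : VR) (p : ℕ × ℕ × ℕ) : (v3214 R p) = s3214 R p :=
  rfl

noncomputable def v3215 (R : VR) (p : ℕ × ℕ × ℕ) : Bool :=
  Nat.ble (Nat.succ (v3214 R p)) (v112 R)

noncomputable def s3215 (R : VR) (p : ℕ × ℕ × ℕ) : Bool :=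
  Nat.ble (Nat.succ (s3214 R p)) (s112 R)

theorem e3215 (R : VR) (p : ℕ × ℕ × ℕ) : (v3215 R p) = s3215 R p :=
  congrArg₂ Nat.ble (congrArg Nat.succ (e3214 R p)) (e112 R)

noncomputable def v3216 (R : VR) (p : ℕ × ℕ × ℕ) : Bool :=
  K.band (Nat.ble (Nat.succ (v3212 R p)) (v112 R)) (Nat.ble (Nat.succ (v3214 R p)) (v112 R))

noncomputable def s3216 (R : VR) (p : ℕ × ℕ × ℕ) : Bool :=
  K.band (s3213 R p) (s3215 R p)

theorem e3216 (R : VR) (p : ℕ × ℕ × ℕ) : (v3216 R p) = s3216 R p :=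
  congrArg₂ K.band (e3213 R p) (e3215 R p)

noncomputable def v3217 (R : VR) (p : ℕ × ℕ × ℕ) : ℕ :=
  tx (VR.alT R) (v3212 R p)

noncomputable def s3217 (R : VR) (p : ℕ × ℕ × ℕ) : ℕ :=
  tx (VR.alT R) (s3212 R p)

theorem e3217 (R : VR) (p : ℕ × ℕ × ℕ) : (v3217 R p) = s3217 R p :=
  congrArg (tx (VR.alT R)) (e3212 R p)

theorem b3217 (R : VR) (p : ℕ × ℕ × ℕ) : s3217 R p ≤ 255 :=
  VR.al_le R _

noncomputable def v3218 (R : VR) (p : ℕ × ℕ × ℕ) : Bool :=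
  Nat.beq (tx (VR.alT R) (v3212 R p)) (v3212 R p)

noncomputable def s3218 (R : VR) (p : ℕ × ℕ × ℕ) : Bool :=
  Nat.beq (s3217 R p) (s3212 R p)

theorem e3218 (R : VR) (p : ℕ × ℕ × ℕ) : (v3218 R p) = s3218 R p :=
  congrArg₂ Nat.beq (e3217 R p) (e3212 R p)

noncomputable def v3219 (R : VR) (p : ℕ × ℕ × ℕ) : Bool :=
  K.band (K.band (Nat.ble (Nat.succ (v3212 R p)) (v112 R)) (Nat.ble (Nat.succ (v3214 R p)) (v112
    R))) (Nat.beq (tx (VR.alT R) (v3212 R p)) (v3212 R p))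

noncomputable def s3219 (R : VR) (p : ℕ × ℕ × ℕ) : Bool :=
  K.band (s3216 R p) (s3218 R p)

theorem e3219 (R : VR) (p : ℕ × ℕ × ℕ) : (v3219 R p) = s3219 R p :=
  congrArg₂ K.band (e3216 R p) (e3218 R p)

noncomputable def v3220 (R : VR) (p : ℕ × ℕ × ℕ) : ℕ :=
  tx (VR.phiT R) (v3212 R p)

noncomputable def s3220 (R : VR) (p : ℕ × ℕ × ℕ) : ℕ :=
  tx (VR.phiT R) (s3212 R p)

theorem e3220 (R : VR) (p : ℕ × ℕ × ℕ) : (v3220 R p) = s3220 R p :=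
  congrArg (tx (VR.phiT R)) (e3212 R p)

theorem b3220 (R : VR) (p : ℕ × ℕ × ℕ) : s3220 R p ≤ 255 :=
  VR.phi_le R _

noncomputable def v3221 (R : VR) (p : ℕ × ℕ × ℕ) : ℕ :=
  tx (VR.lT R) (tx (VR.phiT R) (v3212 R p))

noncomputable def s3221 (R : VR) (p : ℕ × ℕ × ℕ) : ℕ :=
  tx (VR.lT R) (s3220 R p)

theorem e3221 (R : VR) (p : ℕ × ℕ × ℕ) : (v3221 R p) = s3221 R p :=
  congrArg (tx (VR.lT R)) (e3220 R p)

theorem b3221 (R : VR) (p : ℕ × ℕ × ℕ) : s3221 R p ≤ 29 :=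
  VR.l_le R _

noncomputable def v3222 (R : VR) (p : ℕ × ℕ × ℕ) : ℕ :=
  Nat.mul (VR.o1 R) (v3221 R p)

noncomputable def s3222 (R : VR) (p : ℕ × ℕ × ℕ) (i : ℕ) : ℕ :=
  (s3221 R p)

theorem e3222 (R : VR) (p : ℕ × ℕ × ℕ) : L (VR.S R) (v3222 R p) (s3222 R p) 29 :=
  L.scl (VR.o1e R) (e3221 R p) (b3221 R p) (by decide)

noncomputable def v3223 (R : VR) (p : ℕ × ℕ × ℕ) : ℕ :=
  Nat.shiftRight (Nat.land (Nat.sub (VR.h1 R) (Nat.xor (VR.lT R) (v3222 R p))) (VR.h1 R)) (nat_lit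
    15)

noncomputable def s3223 (R : VR) (p : ℕ × ℕ × ℕ) (i : ℕ) : Bool :=
  Nat.beq (s7 R i) (s3222 R p i)

theorem e3223 (R : VR) (p : ℕ × ℕ × ℕ) : B (VR.S R) (v3223 R p) (s3223 R p) :=
  L.beq (VR.h1e R) (e7 R) (e3222 R p)

noncomputable def v3224 (R : VR) (p : ℕ × ℕ × ℕ) : ℕ :=
  Nat.sub (VR.o1 R) (Nat.shiftRight (Nat.land (Nat.sub (VR.h1 R) (Nat.xor (VR.lT R) (v3222 R p)))
    (VR.h1 R)) (nat_lit 15))

noncomputable def s3224 (R : VR) (p : ℕ × ℕ × ℕ) (i : ℕ) : Bool :=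
  K.bnot (s3223 R p i)

theorem e3224 (R : VR) (p : ℕ × ℕ × ℕ) : B (VR.S R) (v3224 R p) (s3224 R p) :=
  B.not (VR.o1e R) (e3223 R p)

noncomputable def v3225 (R : VR) (p : ℕ × ℕ × ℕ) : ℕ :=
  Nat.lor (v432 R) (Nat.sub (VR.o1 R) (Nat.shiftRight (Nat.land (Nat.sub (VR.h1 R) (Nat.xor (VR.lT
    R) (v3222 R p))) (VR.h1 R)) (nat_lit 15)))

noncomputable def s3225 (R : VR) (p : ℕ × ℕ × ℕ) (i : ℕ) : Bool :=
  K.bor (s432 R i) (s3224 R p i)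

theorem e3225 (R : VR) (p : ℕ × ℕ × ℕ) : B (VR.S R) (v3225 R p) (s3225 R p) :=
  B.or (e432 R) (e3224 R p)

noncomputable def v3226 (R : VR) : ℕ :=
  (nat_lit 127)

noncomputable def s3226 (R : VR) : ℕ :=
  (nat_lit 127)

theorem e3226 (R : VR) : (v3226 R) = s3226 R :=
  rfl

noncomputable def v3227 (R : VR) (p : ℕ × ℕ × ℕ) : ℕ :=
  Nat.land (v3214 R p) (v3226 R)

noncomputable def s3227 (R : VR) (p : ℕ × ℕ × ℕ) : ℕ :=
  Nat.land (s3214 R p) (s3226 R)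

theorem e3227 (R : VR) (p : ℕ × ℕ × ℕ) : (v3227 R p) = s3227 R p :=
  congrArg₂ Nat.land (e3214 R p) (e3226 R)

theorem b3227 (R : VR) (p : ℕ × ℕ × ℕ) : s3227 R p ≤ 127 :=
  Nat.and_le_right.trans (le_of_eq (rfl : s3226 R = (nat_lit 127)))

noncomputable def v3228 (R : VR) (p : ℕ × ℕ × ℕ) : ℕ :=
  Nat.mul (VR.o1 R) (Nat.land (v3214 R p) (v3226 R))

noncomputable def s3228 (R : VR) (p : ℕ × ℕ × ℕ) (i : ℕ) : ℕ :=
  (s3227 R p)

theorem e3228 (R : VR) (p : ℕ × ℕ × ℕ) : L (VR.S R) (v3228 R p) (s3228 R p) 127 :=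
  L.scl (VR.o1e R) (e3227 R p) (b3227 R p) (by decide)

noncomputable def v3229 (R : VR) (p : ℕ × ℕ × ℕ) : ℕ :=
  Nat.shiftRight (Nat.land (Nat.sub (VR.h1 R) (Nat.xor (VR.iota R) (Nat.mul (VR.o1 R) (Nat.land
    (v3214 R p) (v3226 R))))) (VR.h1 R)) (nat_lit 15)

noncomputable def s3229 (R : VR) (p : ℕ × ℕ × ℕ) (i : ℕ) : Bool :=
  Nat.beq (s0 R i) (s3228 R p i)

theorem e3229 (R : VR) (p : ℕ × ℕ × ℕ) : B (VR.S R) (v3229 R p) (s3229 R p) :=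
  L.beq (VR.h1e R) (e0 R) (e3228 R p)

noncomputable def v3230 (R : VR) (p : ℕ × ℕ × ℕ) : ℕ :=
  Nat.lor (Nat.lor (v432 R) (Nat.sub (VR.o1 R) (Nat.shiftRight (Nat.land (Nat.sub (VR.h1 R)
    (Nat.xor (VR.lT R) (v3222 R p))) (VR.h1 R)) (nat_lit 15)))) (Nat.shiftRight (Nat.land (Nat.sub
    (VR.h1 R) (Nat.xor (VR.iota R) (Nat.mul (VR.o1 R) (Nat.land (v3214 R p) (v3226 R))))) (VR.h1
    R)) (nat_lit 15))

noncomputable def s3230 (R : VR) (p : ℕ × ℕ × ℕ) (i : ℕ) : Bool :=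
  K.bor (s3225 R p i) (s3229 R p i)

theorem e3230 (R : VR) (p : ℕ × ℕ × ℕ) : B (VR.S R) (v3230 R p) (s3230 R p) :=
  B.or (e3225 R p) (e3229 R p)

noncomputable def v3231 (R : VR) (p : ℕ × ℕ × ℕ) : Bool :=
  Nat.beq (Nat.land (Nat.sub (VR.o1 R) (Nat.lor (Nat.lor (v432 R) (Nat.sub (VR.o1 R)
    (Nat.shiftRight (Nat.land (Nat.sub (VR.h1 R) (Nat.xor (VR.lT R) (v3222 R p))) (VR.h1 R))
    (nat_lit 15)))) (Nat.shiftRight (Nat.land (Nat.sub (VR.h1 R) (Nat.xor (VR.iota R) (Nat.mul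
    (VR.o1 R) (Nat.land (v3214 R p) (v3226 R))))) (VR.h1 R)) (nat_lit 15)))) (mM (v112 R)))
    (nat_lit 0)

noncomputable def s3231 (R : VR) (p : ℕ × ℕ × ℕ) : Bool :=
  K.allN (s112 R) (s3230 R p)

theorem e3231 (R : VR) (p : ℕ × ℕ × ℕ) : (v3231 R p) = s3231 R p :=
  all0 (e3230 R p) (VR.n_le R)

noncomputable def s3232 (R : VR) (p : ℕ × ℕ × ℕ) : Bool :=
  K.allN (s112 R) (fun (x100 : ℕ) => (K.bor (K.bor (K.bnot (Nat.beq (FC6.Pa.α (VR.P R) x100)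
    x100)) (K.bnot (Nat.beq (FC6.Pa.l (VR.P R) x100) (FC6.Pa.l (VR.P R) (FC6.Pa.φ (VR.P R)
    (Prod.fst p)))))) (Nat.beq x100 (Nat.land (Prod.fst (Prod.snd p)) (nat_lit 127)))))

theorem e3232 (R : VR) (p : ℕ × ℕ × ℕ) : (v3231 R p) = s3232 R p :=
  e3231 R p

noncomputable def v3233 (R : VR) (p : ℕ × ℕ × ℕ) : Bool :=
  K.band (K.band (K.band (Nat.ble (Nat.succ (v3212 R p)) (v112 R)) (Nat.ble (Nat.succ (v3214 R p))
    (v112 R))) (Nat.beq (tx (VR.alT R) (v3212 R p)) (v3212 R p))) (Nat.beq (Nat.land (Nat.sub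
    (VR.o1 R) (Nat.lor (Nat.lor (v432 R) (Nat.sub (VR.o1 R) (Nat.shiftRight (Nat.land (Nat.sub
    (VR.h1 R) (Nat.xor (VR.lT R) (v3222 R p))) (VR.h1 R)) (nat_lit 15)))) (Nat.shiftRight
    (Nat.land (Nat.sub (VR.h1 R) (Nat.xor (VR.iota R) (Nat.mul (VR.o1 R) (Nat.land (v3214 R p)
    (v3226 R))))) (VR.h1 R)) (nat_lit 15)))) (mM (v112 R))) (nat_lit 0))

noncomputable def s3233 (R : VR) (p : ℕ × ℕ × ℕ) : Bool :=
  K.band (s3219 R p) (s3232 R p)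

theorem e3233 (R : VR) (p : ℕ × ℕ × ℕ) : (v3233 R p) = s3233 R p :=
  congrArg₂ K.band (e3219 R p) (e3232 R p)

noncomputable def v3234 (R : VR) (p : ℕ × ℕ × ℕ) : ℕ :=
  tx (VR.lT R) (v3212 R p)

noncomputable def s3234 (R : VR) (p : ℕ × ℕ × ℕ) : ℕ :=
  tx (VR.lT R) (s3212 R p)

theorem e3234 (R : VR) (p : ℕ × ℕ × ℕ) : (v3234 R p) = s3234 R p :=
  congrArg (tx (VR.lT R)) (e3212 R p)

theorem b3234 (R : VR) (p : ℕ × ℕ × ℕ) : s3234 R p ≤ 29 :=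
  VR.l_le R _

noncomputable def v3235 (R : VR) (p : ℕ × ℕ × ℕ) : Bool :=
  Nat.ble (v624 R) (v3234 R p)

noncomputable def s3235 (R : VR) (p : ℕ × ℕ × ℕ) : Bool :=
  Nat.ble (s624 R) (s3234 R p)

theorem e3235 (R : VR) (p : ℕ × ℕ × ℕ) : (v3235 R p) = s3235 R p :=
  congrArg₂ Nat.ble (e624 R) (e3234 R p)

noncomputable def v3236 (R : VR) (p : ℕ × ℕ × ℕ) : Bool :=
  K.band (v3233 R p) (Nat.ble (v624 R) (v3234 R p))

noncomputable def s3236 (R : VR) (p : ℕ × ℕ × ℕ) : Bool :=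
  K.band (s3233 R p) (s3235 R p)

theorem e3236 (R : VR) (p : ℕ × ℕ × ℕ) : (v3236 R p) = s3236 R p :=
  congrArg₂ K.band (e3233 R p) (e3235 R p)

noncomputable def v3237 (R : VR) (p : ℕ × ℕ × ℕ) : Bool :=
  Nat.ble (Nat.succ (v3234 R p)) (v868 R)

noncomputable def s3237 (R : VR) (p : ℕ × ℕ × ℕ) : Bool :=
  Nat.ble (Nat.succ (s3234 R p)) (s868 R)

theorem e3237 (R : VR) (p : ℕ × ℕ × ℕ) : (v3237 R p) = s3237 R p :=
  congrArg₂ Nat.ble (congrArg Nat.succ (e3234 R p)) (e868 R)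

noncomputable def v3238 (R : VR) (p : ℕ × ℕ × ℕ) : Bool :=
  K.band (K.band (v3233 R p) (Nat.ble (v624 R) (v3234 R p))) (Nat.ble (Nat.succ (v3234 R p)) (v868
    R))

noncomputable def s3238 (R : VR) (p : ℕ × ℕ × ℕ) : Bool :=
  K.band (s3236 R p) (s3237 R p)

theorem e3238 (R : VR) (p : ℕ × ℕ × ℕ) : (v3238 R p) = s3238 R p :=
  congrArg₂ K.band (e3236 R p) (e3237 R p)

noncomputable def v3239 (R : VR) (p : ℕ × ℕ × ℕ) : ℕ :=
  tx (VR.phiT R) (v3214 R p)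

noncomputable def s3239 (R : VR) (p : ℕ × ℕ × ℕ) : ℕ :=
  tx (VR.phiT R) (s3214 R p)

theorem e3239 (R : VR) (p : ℕ × ℕ × ℕ) : (v3239 R p) = s3239 R p :=
  congrArg (tx (VR.phiT R)) (e3214 R p)

theorem b3239 (R : VR) (p : ℕ × ℕ × ℕ) : s3239 R p ≤ 255 :=
  VR.phi_le R _

noncomputable def v3240 (R : VR) (p : ℕ × ℕ × ℕ) : ℕ :=
  tx (VR.lT R) (tx (VR.phiT R) (v3214 R p))

noncomputable def s3240 (R : VR) (p : ℕ × ℕ × ℕ) : ℕ :=
  tx (VR.lT R) (s3239 R p)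

theorem e3240 (R : VR) (p : ℕ × ℕ × ℕ) : (v3240 R p) = s3240 R p :=
  congrArg (tx (VR.lT R)) (e3239 R p)

theorem b3240 (R : VR) (p : ℕ × ℕ × ℕ) : s3240 R p ≤ 29 :=
  VR.l_le R _

noncomputable def v3241 (R : VR) (p : ℕ × ℕ × ℕ) : Bool :=
  Nat.ble (v624 R) (v3240 R p)

noncomputable def s3241 (R : VR) (p : ℕ × ℕ × ℕ) : Bool :=
  Nat.ble (s624 R) (s3240 R p)

theorem e3241 (R : VR) (p : ℕ × ℕ × ℕ) : (v3241 R p) = s3241 R p :=
  congrArg₂ Nat.ble (e624 R) (e3240 R p)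

noncomputable def v3242 (R : VR) (p : ℕ × ℕ × ℕ) : Bool :=
  K.band (K.band (K.band (v3233 R p) (Nat.ble (v624 R) (v3234 R p))) (Nat.ble (Nat.succ (v3234 R
    p)) (v868 R))) (Nat.ble (v624 R) (v3240 R p))

noncomputable def s3242 (R : VR) (p : ℕ × ℕ × ℕ) : Bool :=
  K.band (s3238 R p) (s3241 R p)

theorem e3242 (R : VR) (p : ℕ × ℕ × ℕ) : (v3242 R p) = s3242 R p :=
  congrArg₂ K.band (e3238 R p) (e3241 R p)

noncomputable def v3243 (R : VR) (p : ℕ × ℕ × ℕ) : Bool :=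
  Nat.ble (Nat.succ (v3240 R p)) (v868 R)

noncomputable def s3243 (R : VR) (p : ℕ × ℕ × ℕ) : Bool :=
  Nat.ble (Nat.succ (s3240 R p)) (s868 R)

theorem e3243 (R : VR) (p : ℕ × ℕ × ℕ) : (v3243 R p) = s3243 R p :=
  congrArg₂ Nat.ble (congrArg Nat.succ (e3240 R p)) (e868 R)

noncomputable def v3244 (R : VR) (p : ℕ × ℕ × ℕ) : Bool :=
  K.band (K.band (K.band (K.band (v3233 R p) (Nat.ble (v624 R) (v3234 R p))) (Nat.ble (Nat.succ
    (v3234 R p)) (v868 R))) (Nat.ble (v624 R) (v3240 R p))) (Nat.ble (Nat.succ (v3240 R p)) (v868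
    R))

noncomputable def s3244 (R : VR) (p : ℕ × ℕ × ℕ) : Bool :=
  K.band (s3242 R p) (s3243 R p)

theorem e3244 (R : VR) (p : ℕ × ℕ × ℕ) : (v3244 R p) = s3244 R p :=
  congrArg₂ K.band (e3242 R p) (e3243 R p)

noncomputable def v3245 (R : VR) : ℕ :=
  Nat.lor (v432 R) (v1135 R)

noncomputable def s3245 (R : VR) (i : ℕ) : Bool :=
  K.bor (s432 R i) (s1135 R i)

theorem e3245 (R : VR) : B (VR.S R) (v3245 R) (s3245 R) :=
  B.or (e432 R) (e1135 R)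

noncomputable def v3246 (R : VR) (p : ℕ × ℕ × ℕ) : ℕ :=
  (Prod.snd (Prod.snd p))

noncomputable def s3246 (R : VR) (p : ℕ × ℕ × ℕ) : ℕ :=
  (Prod.snd (Prod.snd p))

theorem e3246 (R : VR) (p : ℕ × ℕ × ℕ) : (v3246 R p) = s3246 R p :=
  rfl

noncomputable def v3247 (R : VR) (p : ℕ × ℕ × ℕ) : ℕ :=
  spr R ((Prod.snd (Prod.snd p)))

noncomputable def s3247 (R : VR) (p : ℕ × ℕ × ℕ) (i : ℕ) : Bool :=
  K.tbit (s3246 R p) i

theorem e3247 (R : VR) (p : ℕ × ℕ × ℕ) : B (VR.S R) (v3247 R p) (s3247 R p) :=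
  spr_is R (e3246 R p)

noncomputable def v3248 (R : VR) (p : ℕ × ℕ × ℕ) : ℕ :=
  Nat.lor (v3245 R) (spr R ((Prod.snd (Prod.snd p))))

noncomputable def s3248 (R : VR) (p : ℕ × ℕ × ℕ) (i : ℕ) : Bool :=
  K.bor (s3245 R i) (s3247 R p i)

theorem e3248 (R : VR) (p : ℕ × ℕ × ℕ) : B (VR.S R) (v3248 R p) (s3248 R p) :=
  B.or (e3245 R) (e3247 R p)

noncomputable def v3249 (R : VR) : ℕ :=
  Nat.mod (Nat.land (v473 R) (v1621 R)) (VR.m1 R)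

noncomputable def s3249 (R : VR) (i : ℕ) : ℕ :=
  tx (VR.OQ1T R) (s7 R i)

theorem e3249 (R : VR) : L (VR.S R) (v3249 R) (s3249 R) 32767 :=
  L.gat (e7 R) (VR.OQ1_is R) (VR.OQ1_lt R) (VR.OQ1_le R)

noncomputable def v3250 (R : VR) : ℕ :=
  Nat.mod (Nat.land (v473 R) (v1624 R)) (VR.m1 R)

noncomputable def s3250 (R : VR) (i : ℕ) : ℕ :=
  tx (VR.OQ2T R) (s7 R i)

theorem e3250 (R : VR) : L (VR.S R) (v3250 R) (s3250 R) 32767 :=
  L.gat (e7 R) (VR.OQ2_is R) (VR.OQ2_lt R) (VR.OQ2_le R)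

noncomputable def v3251 (R : VR) (p : ℕ × ℕ × ℕ) : ℕ :=
  tx (VR.pw1T R) (v3221 R p)

noncomputable def s3251 (R : VR) (p : ℕ × ℕ × ℕ) : ℕ :=
  tx (VR.pw1T R) (s3221 R p)

theorem e3251 (R : VR) (p : ℕ × ℕ × ℕ) : (v3251 R p) = s3251 R p :=
  congrArg (tx (VR.pw1T R)) (e3221 R p)

theorem b3251 (R : VR) (p : ℕ × ℕ × ℕ) : s3251 R p ≤ 16384 :=
  VR.pw1_le R _

noncomputable def v3252 (R : VR) (p : ℕ × ℕ × ℕ) : ℕ :=
  Nat.mul (VR.o1 R) (tx (VR.pw1T R) (v3221 R p))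

noncomputable def s3252 (R : VR) (p : ℕ × ℕ × ℕ) (i : ℕ) : ℕ :=
  (s3251 R p)

theorem e3252 (R : VR) (p : ℕ × ℕ × ℕ) : L (VR.S R) (v3252 R p) (s3252 R p) 16384 :=
  L.scl (VR.o1e R) (e3251 R p) (b3251 R p) (by decide)

noncomputable def v3253 (R : VR) (p : ℕ × ℕ × ℕ) : ℕ :=
  Nat.land (v3249 R) (v3252 R p)

noncomputable def s3253 (R : VR) (p : ℕ × ℕ × ℕ) (i : ℕ) : ℕ :=
  Nat.land (s3249 R i) (s3252 R p i)

theorem e3253 (R : VR) (p : ℕ × ℕ × ℕ) : L (VR.S R) (v3253 R p) (s3253 R p) 32767 :=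
  L.land (e3249 R) (e3252 R p)

noncomputable def v3254 (R : VR) (p : ℕ × ℕ × ℕ) : ℕ :=
  Nat.shiftRight (Nat.land (Nat.sub (VR.h1 R) (v3253 R p)) (VR.h1 R)) (nat_lit 15)

noncomputable def s3254 (R : VR) (p : ℕ × ℕ × ℕ) (i : ℕ) : Bool :=
  Nat.beq (s3253 R p i) (nat_lit 0)

theorem e3254 (R : VR) (p : ℕ × ℕ × ℕ) : B (VR.S R) (v3254 R p) (s3254 R p) :=
  L.ez (VR.h1e R) (e3253 R p)

noncomputable def v3255 (R : VR) (p : ℕ × ℕ × ℕ) : ℕ :=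
  Nat.shiftRight (Nat.land (Nat.add (v3253 R p) (VR.k1 R)) (VR.h1 R)) (nat_lit 15)

noncomputable def s3255 (R : VR) (p : ℕ × ℕ × ℕ) (i : ℕ) : Bool :=
  K.bnot (Nat.beq (s3253 R p i) (nat_lit 0))

theorem e3255 (R : VR) (p : ℕ × ℕ × ℕ) : B (VR.S R) (v3255 R p) (s3255 R p) :=
  L.nz (VR.h1e R) (VR.k1e R) (e3253 R p)

noncomputable def v3256 (R : VR) (p : ℕ × ℕ × ℕ) : ℕ :=
  tx (VR.pw2T R) (v3221 R p)

noncomputable def s3256 (R : VR) (p : ℕ × ℕ × ℕ) : ℕ :=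
  tx (VR.pw2T R) (s3221 R p)

theorem e3256 (R : VR) (p : ℕ × ℕ × ℕ) : (v3256 R p) = s3256 R p :=
  congrArg (tx (VR.pw2T R)) (e3221 R p)

theorem b3256 (R : VR) (p : ℕ × ℕ × ℕ) : s3256 R p ≤ 16384 :=
  VR.pw2_le R _

noncomputable def v3257 (R : VR) (p : ℕ × ℕ × ℕ) : ℕ :=
  Nat.mul (VR.o1 R) (tx (VR.pw2T R) (v3221 R p))

noncomputable def s3257 (R : VR) (p : ℕ × ℕ × ℕ) (i : ℕ) : ℕ :=
  (s3256 R p)

theorem e3257 (R : VR) (p : ℕ × ℕ × ℕ) : L (VR.S R) (v3257 R p) (s3257 R p) 16384 :=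
  L.scl (VR.o1e R) (e3256 R p) (b3256 R p) (by decide)

noncomputable def v3258 (R : VR) (p : ℕ × ℕ × ℕ) : ℕ :=
  Nat.land (v3250 R) (v3257 R p)

noncomputable def s3258 (R : VR) (p : ℕ × ℕ × ℕ) (i : ℕ) : ℕ :=
  Nat.land (s3250 R i) (s3257 R p i)

theorem e3258 (R : VR) (p : ℕ × ℕ × ℕ) : L (VR.S R) (v3258 R p) (s3258 R p) 32767 :=
  L.land (e3250 R) (e3257 R p)

noncomputable def v3259 (R : VR) (p : ℕ × ℕ × ℕ) : ℕ :=
  Nat.shiftRight (Nat.land (Nat.sub (VR.h1 R) (v3258 R p)) (VR.h1 R)) (nat_lit 15)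

noncomputable def s3259 (R : VR) (p : ℕ × ℕ × ℕ) (i : ℕ) : Bool :=
  Nat.beq (s3258 R p i) (nat_lit 0)

theorem e3259 (R : VR) (p : ℕ × ℕ × ℕ) : B (VR.S R) (v3259 R p) (s3259 R p) :=
  L.ez (VR.h1e R) (e3258 R p)

noncomputable def v3260 (R : VR) (p : ℕ × ℕ × ℕ) : ℕ :=
  Nat.shiftRight (Nat.land (Nat.add (v3258 R p) (VR.k1 R)) (VR.h1 R)) (nat_lit 15)

noncomputable def s3260 (R : VR) (p : ℕ × ℕ × ℕ) (i : ℕ) : Bool :=
  K.bnot (Nat.beq (s3258 R p i) (nat_lit 0))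

theorem e3260 (R : VR) (p : ℕ × ℕ × ℕ) : B (VR.S R) (v3260 R p) (s3260 R p) :=
  L.nz (VR.h1e R) (VR.k1e R) (e3258 R p)

noncomputable def v3261 (R : VR) (p : ℕ × ℕ × ℕ) : ℕ :=
  Nat.lor (Nat.shiftRight (Nat.land (Nat.add (v3253 R p) (VR.k1 R)) (VR.h1 R)) (nat_lit 15))
    (Nat.shiftRight (Nat.land (Nat.add (v3258 R p) (VR.k1 R)) (VR.h1 R)) (nat_lit 15))

noncomputable def s3261 (R : VR) (p : ℕ × ℕ × ℕ) (i : ℕ) : Bool :=
  K.bor (s3255 R p i) (s3260 R p i)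

theorem e3261 (R : VR) (p : ℕ × ℕ × ℕ) : B (VR.S R) (v3261 R p) (s3261 R p) :=
  B.or (e3255 R p) (e3260 R p)

noncomputable def s3262 (R : VR) (p : ℕ × ℕ × ℕ) (i : ℕ) : Bool :=
  V2.mk R (s3249 R i) (s3250 R i) (s3221 R p)

theorem e3262 (R : VR) (p : ℕ × ℕ × ℕ) : B (VR.S R) (v3261 R p) (s3262 R p) :=
  e3261 R p

noncomputable def s3263 (R : VR) (p : ℕ × ℕ × ℕ) (i : ℕ) : Bool :=
  V2.off R (s7 R i) (s3221 R p)

theorem e3263 (R : VR) (p : ℕ × ℕ × ℕ) : B (VR.S R) (v3261 R p) (s3263 R p) :=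
  e3262 R p

noncomputable def s3264 (R : VR) (p : ℕ × ℕ × ℕ) (i : ℕ) : Bool :=
  K.WF_off (VR.WF R) (s7 R i) (s3221 R p)

theorem e3264 (R : VR) (p : ℕ × ℕ × ℕ) : B (VR.S R) (v3261 R p) (s3264 R p) :=
  B.of_eq (e3263 R p) (fun i hi => V2.off_eq R (s7 R i) (s3221 R p))

noncomputable def v3265 (R : VR) (p : ℕ × ℕ × ℕ) : ℕ :=
  Nat.lor (Nat.lor (v3245 R) (spr R ((Prod.snd (Prod.snd p))))) (Nat.lor (Nat.shiftRight (Nat.land
    (Nat.add (v3253 R p) (VR.k1 R)) (VR.h1 R)) (nat_lit 15)) (Nat.shiftRight (Nat.land (Nat.add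
    (v3258 R p) (VR.k1 R)) (VR.h1 R)) (nat_lit 15)))

noncomputable def s3265 (R : VR) (p : ℕ × ℕ × ℕ) (i : ℕ) : Bool :=
  K.bor (s3248 R p i) (s3264 R p i)

theorem e3265 (R : VR) (p : ℕ × ℕ × ℕ) : B (VR.S R) (v3265 R p) (s3265 R p) :=
  B.or (e3248 R p) (e3264 R p)

noncomputable def v3266 (R : VR) : ℕ :=
  Nat.mod (Nat.land (v1142 R) (v1621 R)) (VR.m1 R)

noncomputable def s3266 (R : VR) (i : ℕ) : ℕ :=
  tx (VR.OQ1T R) (s193 R i)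

theorem e3266 (R : VR) : L (VR.S R) (v3266 R) (s3266 R) 32767 :=
  L.gat (e193 R) (VR.OQ1_is R) (VR.OQ1_lt R) (VR.OQ1_le R)

noncomputable def v3267 (R : VR) : ℕ :=
  Nat.mod (Nat.land (v1142 R) (v1624 R)) (VR.m1 R)

noncomputable def s3267 (R : VR) (i : ℕ) : ℕ :=
  tx (VR.OQ2T R) (s193 R i)

theorem e3267 (R : VR) : L (VR.S R) (v3267 R) (s3267 R) 32767 :=
  L.gat (e193 R) (VR.OQ2_is R) (VR.OQ2_lt R) (VR.OQ2_le R)

noncomputable def v3268 (R : VR) (p : ℕ × ℕ × ℕ) : ℕ :=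
  Nat.land (v3266 R) (v3252 R p)

noncomputable def s3268 (R : VR) (p : ℕ × ℕ × ℕ) (i : ℕ) : ℕ :=
  Nat.land (s3266 R i) (s3252 R p i)

theorem e3268 (R : VR) (p : ℕ × ℕ × ℕ) : L (VR.S R) (v3268 R p) (s3268 R p) 32767 :=
  L.land (e3266 R) (e3252 R p)

noncomputable def v3269 (R : VR) (p : ℕ × ℕ × ℕ) : ℕ :=
  Nat.shiftRight (Nat.land (Nat.sub (VR.h1 R) (v3268 R p)) (VR.h1 R)) (nat_lit 15)

noncomputable def s3269 (R : VR) (p : ℕ × ℕ × ℕ) (i : ℕ) : Bool :=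
  Nat.beq (s3268 R p i) (nat_lit 0)

theorem e3269 (R : VR) (p : ℕ × ℕ × ℕ) : B (VR.S R) (v3269 R p) (s3269 R p) :=
  L.ez (VR.h1e R) (e3268 R p)

noncomputable def v3270 (R : VR) (p : ℕ × ℕ × ℕ) : ℕ :=
  Nat.shiftRight (Nat.land (Nat.add (v3268 R p) (VR.k1 R)) (VR.h1 R)) (nat_lit 15)

noncomputable def s3270 (R : VR) (p : ℕ × ℕ × ℕ) (i : ℕ) : Bool :=
  K.bnot (Nat.beq (s3268 R p i) (nat_lit 0))

theorem e3270 (R : VR) (p : ℕ × ℕ × ℕ) : B (VR.S R) (v3270 R p) (s3270 R p) :=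
  L.nz (VR.h1e R) (VR.k1e R) (e3268 R p)

noncomputable def v3271 (R : VR) (p : ℕ × ℕ × ℕ) : ℕ :=
  Nat.land (v3267 R) (v3257 R p)

noncomputable def s3271 (R : VR) (p : ℕ × ℕ × ℕ) (i : ℕ) : ℕ :=
  Nat.land (s3267 R i) (s3257 R p i)

theorem e3271 (R : VR) (p : ℕ × ℕ × ℕ) : L (VR.S R) (v3271 R p) (s3271 R p) 32767 :=
  L.land (e3267 R) (e3257 R p)

noncomputable def v3272 (R : VR) (p : ℕ × ℕ × ℕ) : ℕ :=
  Nat.shiftRight (Nat.land (Nat.sub (VR.h1 R) (v3271 R p)) (VR.h1 R)) (nat_lit 15)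

noncomputable def s3272 (R : VR) (p : ℕ × ℕ × ℕ) (i : ℕ) : Bool :=
  Nat.beq (s3271 R p i) (nat_lit 0)

theorem e3272 (R : VR) (p : ℕ × ℕ × ℕ) : B (VR.S R) (v3272 R p) (s3272 R p) :=
  L.ez (VR.h1e R) (e3271 R p)

noncomputable def v3273 (R : VR) (p : ℕ × ℕ × ℕ) : ℕ :=
  Nat.shiftRight (Nat.land (Nat.add (v3271 R p) (VR.k1 R)) (VR.h1 R)) (nat_lit 15)

noncomputable def s3273 (R : VR) (p : ℕ × ℕ × ℕ) (i : ℕ) : Bool :=
  K.bnot (Nat.beq (s3271 R p i) (nat_lit 0))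

theorem e3273 (R : VR) (p : ℕ × ℕ × ℕ) : B (VR.S R) (v3273 R p) (s3273 R p) :=
  L.nz (VR.h1e R) (VR.k1e R) (e3271 R p)

noncomputable def v3274 (R : VR) (p : ℕ × ℕ × ℕ) : ℕ :=
  Nat.lor (Nat.shiftRight (Nat.land (Nat.add (v3268 R p) (VR.k1 R)) (VR.h1 R)) (nat_lit 15))
    (Nat.shiftRight (Nat.land (Nat.add (v3271 R p) (VR.k1 R)) (VR.h1 R)) (nat_lit 15))

noncomputable def s3274 (R : VR) (p : ℕ × ℕ × ℕ) (i : ℕ) : Bool :=
  K.bor (s3270 R p i) (s3273 R p i)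

theorem e3274 (R : VR) (p : ℕ × ℕ × ℕ) : B (VR.S R) (v3274 R p) (s3274 R p) :=
  B.or (e3270 R p) (e3273 R p)

noncomputable def s3275 (R : VR) (p : ℕ × ℕ × ℕ) (i : ℕ) : Bool :=
  V2.mk R (s3266 R i) (s3267 R i) (s3221 R p)

theorem e3275 (R : VR) (p : ℕ × ℕ × ℕ) : B (VR.S R) (v3274 R p) (s3275 R p) :=
  e3274 R p

noncomputable def s3276 (R : VR) (p : ℕ × ℕ × ℕ) (i : ℕ) : Bool :=
  V2.off R (s193 R i) (s3221 R p)

theorem e3276 (R : VR) (p : ℕ × ℕ × ℕ) : B (VR.S R) (v3274 R p) (s3276 R p) :=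
  e3275 R p

noncomputable def s3277 (R : VR) (p : ℕ × ℕ × ℕ) (i : ℕ) : Bool :=
  K.WF_off (VR.WF R) (s193 R i) (s3221 R p)

theorem e3277 (R : VR) (p : ℕ × ℕ × ℕ) : B (VR.S R) (v3274 R p) (s3277 R p) :=
  B.of_eq (e3276 R p) (fun i hi => V2.off_eq R (s193 R i) (s3221 R p))

noncomputable def v3278 (R : VR) (p : ℕ × ℕ × ℕ) : ℕ :=
  Nat.lor (Nat.lor (Nat.lor (v3245 R) (spr R ((Prod.snd (Prod.snd p))))) (Nat.lor (Nat.shiftRight
    (Nat.land (Nat.add (v3253 R p) (VR.k1 R)) (VR.h1 R)) (nat_lit 15)) (Nat.shiftRight (Nat.land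
    (Nat.add (v3258 R p) (VR.k1 R)) (VR.h1 R)) (nat_lit 15)))) (Nat.lor (Nat.shiftRight (Nat.land
    (Nat.add (v3268 R p) (VR.k1 R)) (VR.h1 R)) (nat_lit 15)) (Nat.shiftRight (Nat.land (Nat.add
    (v3271 R p) (VR.k1 R)) (VR.h1 R)) (nat_lit 15)))

noncomputable def s3278 (R : VR) (p : ℕ × ℕ × ℕ) (i : ℕ) : Bool :=
  K.bor (s3265 R p i) (s3277 R p i)

theorem e3278 (R : VR) (p : ℕ × ℕ × ℕ) : B (VR.S R) (v3278 R p) (s3278 R p) :=
  B.or (e3265 R p) (e3277 R p)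

noncomputable def v3279 (R : VR) (p : ℕ × ℕ × ℕ) : Bool :=
  Nat.beq (Nat.land (Nat.sub (VR.o1 R) (v3278 R p)) (mM (v112 R))) (nat_lit 0)

noncomputable def s3279 (R : VR) (p : ℕ × ℕ × ℕ) : Bool :=
  K.allN (s112 R) (s3278 R p)

theorem e3279 (R : VR) (p : ℕ × ℕ × ℕ) : (v3279 R p) = s3279 R p :=
  all0 (e3278 R p) (VR.n_le R)

noncomputable def s3280 (R : VR) (p : ℕ × ℕ × ℕ) : Bool :=
  K.allN (s112 R) (fun (x101 : ℕ) => (K.bor (K.bor (K.bor (K.bor (K.bnot (Nat.beq (FC6.Pa.α (VR.P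
    R) x101) x101)) (K.bnot (FC6.Pa.real (VR.P R) x101))) (K.tbit (Prod.snd (Prod.snd p)) x101))
    (K.WF_off (VR.WF R) (FC6.Pa.l (VR.P R) x101) (FC6.Pa.l (VR.P R) (FC6.Pa.φ (VR.P R) (Prod.fst
    p))))) (K.WF_off (VR.WF R) (FC6.Pa.l (VR.P R) (FC6.Pa.φ (VR.P R) x101)) (FC6.Pa.l (VR.P R)
    (FC6.Pa.φ (VR.P R) (Prod.fst p))))))

theorem e3280 (R : VR) (p : ℕ × ℕ × ℕ) : (v3279 R p) = s3280 R p :=
  e3279 R p

noncomputable def v3281 (R : VR) (p : ℕ × ℕ × ℕ) : Bool :=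
  K.band (K.band (K.band (K.band (K.band (v3233 R p) (Nat.ble (v624 R) (v3234 R p))) (Nat.ble
    (Nat.succ (v3234 R p)) (v868 R))) (Nat.ble (v624 R) (v3240 R p))) (Nat.ble (Nat.succ (v3240 R
    p)) (v868 R))) (Nat.beq (Nat.land (Nat.sub (VR.o1 R) (v3278 R p)) (mM (v112 R))) (nat_lit 0))

noncomputable def s3281 (R : VR) (p : ℕ × ℕ × ℕ) : Bool :=
  K.band (s3244 R p) (s3280 R p)

theorem e3281 (R : VR) (p : ℕ × ℕ × ℕ) : (v3281 R p) = s3281 R p :=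
  congrArg₂ K.band (e3244 R p) (e3280 R p)

noncomputable def v3282 (R : VR) (p : ℕ × ℕ × ℕ) : Bool :=
  Nat.ble (v868 R) (v3221 R p)

noncomputable def s3282 (R : VR) (p : ℕ × ℕ × ℕ) : Bool :=
  Nat.ble (s868 R) (s3221 R p)

theorem e3282 (R : VR) (p : ℕ × ℕ × ℕ) : (v3282 R p) = s3282 R p :=
  congrArg₂ Nat.ble (e868 R) (e3221 R p)

noncomputable def v3283 (R : VR) (p : ℕ × ℕ × ℕ) : Bool :=
  Nat.ble (Nat.succ (v3221 R p)) (v866 R)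

noncomputable def s3283 (R : VR) (p : ℕ × ℕ × ℕ) : Bool :=
  Nat.ble (Nat.succ (s3221 R p)) (s866 R)

theorem e3283 (R : VR) (p : ℕ × ℕ × ℕ) : (v3283 R p) = s3283 R p :=
  congrArg₂ Nat.ble (congrArg Nat.succ (e3221 R p)) (e866 R)

noncomputable def v3284 (R : VR) (p : ℕ × ℕ × ℕ) : Bool :=
  K.band (Nat.ble (v868 R) (v3221 R p)) (Nat.ble (Nat.succ (v3221 R p)) (v866 R))

noncomputable def s3284 (R : VR) (p : ℕ × ℕ × ℕ) : Bool :=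
  K.band (s3282 R p) (s3283 R p)

theorem e3284 (R : VR) (p : ℕ × ℕ × ℕ) : (v3284 R p) = s3284 R p :=
  congrArg₂ K.band (e3282 R p) (e3283 R p)

noncomputable def v3285 (R : VR) (p : ℕ × ℕ × ℕ) : ℕ :=
  Nat.shiftRight (Nat.land (Nat.sub (VR.h1 R) (Nat.xor (VR.iota R) (v3222 R p))) (VR.h1 R))
    (nat_lit 15)

noncomputable def s3285 (R : VR) (p : ℕ × ℕ × ℕ) (i : ℕ) : Bool :=
  Nat.beq (s0 R i) (s3222 R p i)

theorem e3285 (R : VR) (p : ℕ × ℕ × ℕ) : B (VR.S R) (v3285 R p) (s3285 R p) :=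
  L.beq (VR.h1e R) (e0 R) (e3222 R p)

noncomputable def v3286 (R : VR) (p : ℕ × ℕ × ℕ) : ℕ :=
  Nat.sub (VR.o1 R) (v3285 R p)

noncomputable def s3286 (R : VR) (p : ℕ × ℕ × ℕ) (i : ℕ) : Bool :=
  K.bnot (s3285 R p i)

theorem e3286 (R : VR) (p : ℕ × ℕ × ℕ) : B (VR.S R) (v3286 R p) (s3286 R p) :=
  B.not (VR.o1e R) (e3285 R p)

noncomputable def v3287 (R : VR) (p : ℕ × ℕ × ℕ) : Bool :=
  tf (VR.cxT R) (v3221 R p)

noncomputable def s3287 (R : VR) (p : ℕ × ℕ × ℕ) : Bool :=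
  tf (VR.cxT R) (s3221 R p)

theorem e3287 (R : VR) (p : ℕ × ℕ × ℕ) : (v3287 R p) = s3287 R p :=
  congrArg (tf (VR.cxT R)) (e3221 R p)

noncomputable def v3288 (R : VR) (p : ℕ × ℕ × ℕ) : ℕ :=
  Nat.mul (VR.o1 R) (bt (tf (VR.cxT R) (v3221 R p)))

noncomputable def s3288 (R : VR) (p : ℕ × ℕ × ℕ) (i : ℕ) : Bool :=
  (s3287 R p)

theorem e3288 (R : VR) (p : ℕ × ℕ × ℕ) : B (VR.S R) (v3288 R p) (s3288 R p) :=
  B.scl (VR.o1e R) (e3287 R p)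

noncomputable def v3289 (R : VR) (p : ℕ × ℕ × ℕ) : ℕ :=
  Nat.lor (VR.cxT R) (Nat.mul (VR.o1 R) (bt (tf (VR.cxT R) (v3221 R p))))

noncomputable def s3289 (R : VR) (p : ℕ × ℕ × ℕ) (i : ℕ) : Bool :=
  K.bor (s221 R i) (s3288 R p i)

theorem e3289 (R : VR) (p : ℕ × ℕ × ℕ) : B (VR.S R) (v3289 R p) (s3289 R p) :=
  B.or (e221 R) (e3288 R p)

noncomputable def v3290 (R : VR) (p : ℕ × ℕ × ℕ) : Bool :=
  Nat.ble (Nat.succ (v3221 R p)) (v868 R)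

noncomputable def s3290 (R : VR) (p : ℕ × ℕ × ℕ) : Bool :=
  Nat.ble (Nat.succ (s3221 R p)) (s868 R)

theorem e3290 (R : VR) (p : ℕ × ℕ × ℕ) : (v3290 R p) = s3290 R p :=
  congrArg₂ Nat.ble (congrArg Nat.succ (e3221 R p)) (e868 R)

noncomputable def v3291 (R : VR) (p : ℕ × ℕ × ℕ) : ℕ :=
  Nat.mul (VR.o1 R) (bt (Nat.ble (Nat.succ (v3221 R p)) (v868 R)))

noncomputable def s3291 (R : VR) (p : ℕ × ℕ × ℕ) (i : ℕ) : Bool :=
  (s3290 R p)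

theorem e3291 (R : VR) (p : ℕ × ℕ × ℕ) : B (VR.S R) (v3291 R p) (s3291 R p) :=
  B.scl (VR.o1e R) (e3290 R p)

noncomputable def v3292 (R : VR) (p : ℕ × ℕ × ℕ) : ℕ :=
  Nat.sub (VR.o1 R) (Nat.xor (v870 R) (Nat.mul (VR.o1 R) (bt (Nat.ble (Nat.succ (v3221 R p)) (v868
    R)))))

noncomputable def s3292 (R : VR) (p : ℕ × ℕ × ℕ) (i : ℕ) : Bool :=
  K.beqB (s870 R i) (s3291 R p i)

theorem e3292 (R : VR) (p : ℕ × ℕ × ℕ) : B (VR.S R) (v3292 R p) (s3292 R p) :=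
  B.beqB (VR.o1e R) (e870 R) (e3291 R p)

noncomputable def v3293 (R : VR) (p : ℕ × ℕ × ℕ) : ℕ :=
  Nat.sub (VR.o1 R) (Nat.sub (VR.o1 R) (Nat.xor (v870 R) (Nat.mul (VR.o1 R) (bt (Nat.ble (Nat.succ
    (v3221 R p)) (v868 R))))))

noncomputable def s3293 (R : VR) (p : ℕ × ℕ × ℕ) (i : ℕ) : Bool :=
  K.bnot (s3292 R p i)

theorem e3293 (R : VR) (p : ℕ × ℕ × ℕ) : B (VR.S R) (v3293 R p) (s3293 R p) :=
  B.not (VR.o1e R) (e3292 R p)

noncomputable def v3294 (R : VR) (p : ℕ × ℕ × ℕ) : ℕ :=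
  Nat.lor (Nat.lor (VR.cxT R) (Nat.mul (VR.o1 R) (bt (tf (VR.cxT R) (v3221 R p))))) (Nat.sub
    (VR.o1 R) (Nat.sub (VR.o1 R) (Nat.xor (v870 R) (Nat.mul (VR.o1 R) (bt (Nat.ble (Nat.succ
    (v3221 R p)) (v868 R)))))))

noncomputable def s3294 (R : VR) (p : ℕ × ℕ × ℕ) (i : ℕ) : Bool :=
  K.bor (s3289 R p i) (s3293 R p i)

theorem e3294 (R : VR) (p : ℕ × ℕ × ℕ) : B (VR.S R) (v3294 R p) (s3294 R p) :=
  B.or (e3289 R p) (e3293 R p)

noncomputable def v3295 (R : VR) (p : ℕ × ℕ × ℕ) : ℕ :=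
  Nat.land (VR.DQ1T R) (v3252 R p)

noncomputable def s3295 (R : VR) (p : ℕ × ℕ × ℕ) (i : ℕ) : ℕ :=
  Nat.land (s947 R i) (s3252 R p i)

theorem e3295 (R : VR) (p : ℕ × ℕ × ℕ) : L (VR.S R) (v3295 R p) (s3295 R p) 32767 :=
  L.land (e947 R) (e3252 R p)

noncomputable def v3296 (R : VR) (p : ℕ × ℕ × ℕ) : ℕ :=
  Nat.shiftRight (Nat.land (Nat.sub (VR.h1 R) (v3295 R p)) (VR.h1 R)) (nat_lit 15)

noncomputable def s3296 (R : VR) (p : ℕ × ℕ × ℕ) (i : ℕ) : Bool :=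
  Nat.beq (s3295 R p i) (nat_lit 0)

theorem e3296 (R : VR) (p : ℕ × ℕ × ℕ) : B (VR.S R) (v3296 R p) (s3296 R p) :=
  L.ez (VR.h1e R) (e3295 R p)

noncomputable def v3297 (R : VR) (p : ℕ × ℕ × ℕ) : ℕ :=
  Nat.shiftRight (Nat.land (Nat.add (v3295 R p) (VR.k1 R)) (VR.h1 R)) (nat_lit 15)

noncomputable def s3297 (R : VR) (p : ℕ × ℕ × ℕ) (i : ℕ) : Bool :=
  K.bnot (Nat.beq (s3295 R p i) (nat_lit 0))

theorem e3297 (R : VR) (p : ℕ × ℕ × ℕ) : B (VR.S R) (v3297 R p) (s3297 R p) :=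
  L.nz (VR.h1e R) (VR.k1e R) (e3295 R p)

noncomputable def v3298 (R : VR) (p : ℕ × ℕ × ℕ) : ℕ :=
  Nat.land (VR.DQ2T R) (v3257 R p)

noncomputable def s3298 (R : VR) (p : ℕ × ℕ × ℕ) (i : ℕ) : ℕ :=
  Nat.land (s948 R i) (s3257 R p i)

theorem e3298 (R : VR) (p : ℕ × ℕ × ℕ) : L (VR.S R) (v3298 R p) (s3298 R p) 32767 :=
  L.land (e948 R) (e3257 R p)

noncomputable def v3299 (R : VR) (p : ℕ × ℕ × ℕ) : ℕ :=
  Nat.shiftRight (Nat.land (Nat.sub (VR.h1 R) (v3298 R p)) (VR.h1 R)) (nat_lit 15)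

noncomputable def s3299 (R : VR) (p : ℕ × ℕ × ℕ) (i : ℕ) : Bool :=
  Nat.beq (s3298 R p i) (nat_lit 0)

theorem e3299 (R : VR) (p : ℕ × ℕ × ℕ) : B (VR.S R) (v3299 R p) (s3299 R p) :=
  L.ez (VR.h1e R) (e3298 R p)

noncomputable def v3300 (R : VR) (p : ℕ × ℕ × ℕ) : ℕ :=
  Nat.shiftRight (Nat.land (Nat.add (v3298 R p) (VR.k1 R)) (VR.h1 R)) (nat_lit 15)

noncomputable def s3300 (R : VR) (p : ℕ × ℕ × ℕ) (i : ℕ) : Bool :=
  K.bnot (Nat.beq (s3298 R p i) (nat_lit 0))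

theorem e3300 (R : VR) (p : ℕ × ℕ × ℕ) : B (VR.S R) (v3300 R p) (s3300 R p) :=
  L.nz (VR.h1e R) (VR.k1e R) (e3298 R p)

noncomputable def v3301 (R : VR) (p : ℕ × ℕ × ℕ) : ℕ :=
  Nat.lor (Nat.shiftRight (Nat.land (Nat.add (v3295 R p) (VR.k1 R)) (VR.h1 R)) (nat_lit 15))
    (Nat.shiftRight (Nat.land (Nat.add (v3298 R p) (VR.k1 R)) (VR.h1 R)) (nat_lit 15))

noncomputable def s3301 (R : VR) (p : ℕ × ℕ × ℕ) (i : ℕ) : Bool :=
  K.bor (s3297 R p i) (s3300 R p i)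

theorem e3301 (R : VR) (p : ℕ × ℕ × ℕ) : B (VR.S R) (v3301 R p) (s3301 R p) :=
  B.or (e3297 R p) (e3300 R p)

noncomputable def s3302 (R : VR) (p : ℕ × ℕ × ℕ) (i : ℕ) : Bool :=
  V2.mk R (s947 R i) (s948 R i) (s3221 R p)

theorem e3302 (R : VR) (p : ℕ × ℕ × ℕ) : B (VR.S R) (v3301 R p) (s3302 R p) :=
  e3301 R p

noncomputable def v3303 (R : VR) (p : ℕ × ℕ × ℕ) : ℕ :=
  Nat.lor (Nat.lor (Nat.lor (VR.cxT R) (Nat.mul (VR.o1 R) (bt (tf (VR.cxT R) (v3221 R p)))))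
    (Nat.sub (VR.o1 R) (Nat.sub (VR.o1 R) (Nat.xor (v870 R) (Nat.mul (VR.o1 R) (bt (Nat.ble
    (Nat.succ (v3221 R p)) (v868 R)))))))) (Nat.lor (Nat.shiftRight (Nat.land (Nat.add (v3295 R p)
    (VR.k1 R)) (VR.h1 R)) (nat_lit 15)) (Nat.shiftRight (Nat.land (Nat.add (v3298 R p) (VR.k1 R))
    (VR.h1 R)) (nat_lit 15)))

noncomputable def s3303 (R : VR) (p : ℕ × ℕ × ℕ) (i : ℕ) : Bool :=
  K.bor (s3294 R p i) (s3302 R p i)

theorem e3303 (R : VR) (p : ℕ × ℕ × ℕ) : B (VR.S R) (v3303 R p) (s3303 R p) :=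
  B.or (e3294 R p) (e3302 R p)

noncomputable def v3304 (R : VR) (p : ℕ × ℕ × ℕ) : ℕ :=
  Nat.land (Nat.sub (VR.o1 R) (v3285 R p)) (Nat.lor (Nat.lor (Nat.lor (VR.cxT R) (Nat.mul (VR.o1
    R) (bt (tf (VR.cxT R) (v3221 R p))))) (Nat.sub (VR.o1 R) (Nat.sub (VR.o1 R) (Nat.xor (v870 R)
    (Nat.mul (VR.o1 R) (bt (Nat.ble (Nat.succ (v3221 R p)) (v868 R)))))))) (Nat.lor
    (Nat.shiftRight (Nat.land (Nat.add (v3295 R p) (VR.k1 R)) (VR.h1 R)) (nat_lit 15))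
    (Nat.shiftRight (Nat.land (Nat.add (v3298 R p) (VR.k1 R)) (VR.h1 R)) (nat_lit 15))))

noncomputable def s3304 (R : VR) (p : ℕ × ℕ × ℕ) (i : ℕ) : Bool :=
  K.band (s3286 R p i) (s3303 R p i)

theorem e3304 (R : VR) (p : ℕ × ℕ × ℕ) : B (VR.S R) (v3304 R p) (s3304 R p) :=
  B.and (e3286 R p) (e3303 R p)

noncomputable def s3305 (R : VR) (p : ℕ × ℕ × ℕ) (i : ℕ) : Bool :=
  V2.dis R i (s3221 R p)

theorem e3305 (R : VR) (p : ℕ × ℕ × ℕ) : B (VR.S R) (v3304 R p) (s3305 R p) :=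
  e3304 R p

noncomputable def s3306 (R : VR) (p : ℕ × ℕ × ℕ) (i : ℕ) : Bool :=
  K.WF_dis (VR.WF R) i (s3221 R p)

theorem e3306 (R : VR) (p : ℕ × ℕ × ℕ) : B (VR.S R) (v3304 R p) (s3306 R p) :=
  B.of_eq (e3305 R p) (fun i hi => V2.dis_eq R i (s3221 R p))

noncomputable def v3307 (R : VR) (p : ℕ × ℕ × ℕ) : ℕ :=
  Nat.lor (v3285 R p) (v3304 R p)

noncomputable def s3307 (R : VR) (p : ℕ × ℕ × ℕ) (i : ℕ) : Bool :=
  K.bor (s3285 R p i) (s3306 R p i)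

theorem e3307 (R : VR) (p : ℕ × ℕ × ℕ) : B (VR.S R) (v3307 R p) (s3307 R p) :=
  B.or (e3285 R p) (e3306 R p)

noncomputable def v3308 (R : VR) (p : ℕ × ℕ × ℕ) : Bool :=
  Nat.beq (Nat.land (Nat.sub (VR.o1 R) (Nat.lor (v3285 R p) (v3304 R p))) (mM (v866 R))) (nat_lit
    0)

noncomputable def s3308 (R : VR) (p : ℕ × ℕ × ℕ) : Bool :=
  K.allN (s866 R) (s3307 R p)

theorem e3308 (R : VR) (p : ℕ × ℕ × ℕ) : (v3308 R p) = s3308 R p :=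
  all0 (e3307 R p) (VR.nl_le R)

noncomputable def s3309 (R : VR) (p : ℕ × ℕ × ℕ) : Bool :=
  K.allN (s866 R) (fun (x102 : ℕ) => (K.bor (Nat.beq x102 (s3221 R p)) (K.WF_dis (VR.WF R) x102
    (s3221 R p))))

theorem e3309 (R : VR) (p : ℕ × ℕ × ℕ) : (v3308 R p) = s3309 R p :=
  e3308 R p

noncomputable def v3310 (R : VR) (p : ℕ × ℕ × ℕ) : Bool :=
  K.band (K.band (Nat.ble (v868 R) (v3221 R p)) (Nat.ble (Nat.succ (v3221 R p)) (v866 R)))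
    (Nat.beq (Nat.land (Nat.sub (VR.o1 R) (Nat.lor (v3285 R p) (v3304 R p))) (mM (v866 R)))
    (nat_lit 0))

noncomputable def s3310 (R : VR) (p : ℕ × ℕ × ℕ) : Bool :=
  K.band (s3284 R p) (s3309 R p)

theorem e3310 (R : VR) (p : ℕ × ℕ × ℕ) : (v3310 R p) = s3310 R p :=
  congrArg₂ K.band (e3284 R p) (e3309 R p)

noncomputable def s3311 (R : VR) (p : ℕ × ℕ × ℕ) : Bool :=
  K.WF_hub (VR.WF R) (s3221 R p)

theorem e3311 (R : VR) (p : ℕ × ℕ × ℕ) : (v3310 R p) = s3311 R p :=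
  e3310 R p

noncomputable def v3312 (R : VR) (p : ℕ × ℕ × ℕ) : Bool :=
  K.band (K.band (K.band (K.band (K.band (K.band (v3233 R p) (Nat.ble (v624 R) (v3234 R p)))
    (Nat.ble (Nat.succ (v3234 R p)) (v868 R))) (Nat.ble (v624 R) (v3240 R p))) (Nat.ble (Nat.succ
    (v3240 R p)) (v868 R))) (Nat.beq (Nat.land (Nat.sub (VR.o1 R) (v3278 R p)) (mM (v112 R)))
    (nat_lit 0))) (K.band (K.band (Nat.ble (v868 R) (v3221 R p)) (Nat.ble (Nat.succ (v3221 R p))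
    (v866 R))) (Nat.beq (Nat.land (Nat.sub (VR.o1 R) (Nat.lor (v3285 R p) (v3304 R p))) (mM (v866
    R))) (nat_lit 0)))

noncomputable def s3312 (R : VR) (p : ℕ × ℕ × ℕ) : Bool :=
  K.band (s3281 R p) (s3311 R p)

theorem e3312 (R : VR) (p : ℕ × ℕ × ℕ) : (v3312 R p) = s3312 R p :=
  congrArg₂ K.band (e3281 R p) (e3311 R p)

noncomputable def v3313 (R : VR) : Bool :=
  K.lall (FC7.Fc.gt (VR.F R)) (fun p => (v3312 R p))

noncomputable def s3313 (R : VR) : Bool :=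
  K.lall (FC7.Fc.gt (VR.F R)) (fun (x103 : ℕ × ℕ × ℕ) => (K.band (K.band (K.band (K.band (K.band
    (K.band (K.band (K.band (K.band (Nat.ble (Nat.succ (Prod.fst x103)) (FC6.Pa.n (VR.P R)))
    (Nat.ble (Nat.succ (Prod.fst (Prod.snd x103))) (FC6.Pa.n (VR.P R)))) (Nat.beq (FC6.Pa.α (VR.P
    R) (Prod.fst x103)) (Prod.fst x103))) (K.allN (FC6.Pa.n (VR.P R)) (fun (x104 : ℕ) => (K.bor
    (K.bor (K.bnot (Nat.beq (FC6.Pa.α (VR.P R) x104) x104)) (K.bnot (Nat.beq (FC6.Pa.l (VR.P R)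
    x104) (FC6.Pa.l (VR.P R) (FC6.Pa.φ (VR.P R) (Prod.fst x103)))))) (Nat.beq x104 (Nat.land
    (Prod.fst (Prod.snd x103)) (nat_lit 127))))))) (Nat.ble (FC7.OD.x (VR.O R)) (FC6.Pa.l (VR.P R)
    (Prod.fst x103)))) (Nat.ble (Nat.succ (FC6.Pa.l (VR.P R) (Prod.fst x103))) (FC7.OD.m (VR.O
    R)))) (Nat.ble (FC7.OD.x (VR.O R)) (FC6.Pa.l (VR.P R) (FC6.Pa.φ (VR.P R) (Prod.fst (Prod.snd
    x103)))))) (Nat.ble (Nat.succ (FC6.Pa.l (VR.P R) (FC6.Pa.φ (VR.P R) (Prod.fst (Prod.snd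
    x103))))) (FC7.OD.m (VR.O R)))) (K.allN (FC6.Pa.n (VR.P R)) (fun (x105 : ℕ) => (K.bor (K.bor
    (K.bor (K.bor (K.bnot (Nat.beq (FC6.Pa.α (VR.P R) x105) x105)) (K.bnot (FC6.Pa.real (VR.P R)
    x105))) (K.tbit (Prod.snd (Prod.snd x103)) x105)) (K.WF_off (VR.WF R) (FC6.Pa.l (VR.P R) x105)
    (FC6.Pa.l (VR.P R) (FC6.Pa.φ (VR.P R) (Prod.fst x103))))) (K.WF_off (VR.WF R) (FC6.Pa.l (VR.P
    R) (FC6.Pa.φ (VR.P R) x105)) (FC6.Pa.l (VR.P R) (FC6.Pa.φ (VR.P R) (Prod.fst x103))))))))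
    (K.WF_hub (VR.WF R) (FC6.Pa.l (VR.P R) (FC6.Pa.φ (VR.P R) (Prod.fst x103))))))

theorem e3313 (R : VR) : (v3313 R) = s3313 R :=
  congrArg (K.lall (FC7.Fc.gt (VR.F R))) (funext fun p => (e3312 R p))

noncomputable def s3314 (R : VR) : Bool :=
  V2.chkB1 R

theorem e3314 (R : VR) : (v3313 R) = s3314 R :=
  e3313 R

noncomputable def c_chkB1 (R : VR) : Bool :=
  (K.lall (FC7.Fc.gt (VR.F R)) (fun p => (v3312 R p)))

theorem c_chkB1_eq (R : VR) : c_chkB1 R = (V2.chkB1 R) :=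
  e3314 R

noncomputable def v3315 (R : VR) : ℕ :=
  Nat.shiftRight (Nat.land (Nat.sub (Nat.add (v172 R) (VR.k1 R)) (VR.phpT R)) (VR.h1 R)) (nat_lit
    15)

noncomputable def s3315 (R : VR) (i : ℕ) : Bool :=
  Nat.ble (Nat.succ (s1575 R i)) (s172 R i)

theorem e3315 (R : VR) : B (VR.S R) (v3315 R) (s3315 R) :=
  L.blt (VR.h1e R) (VR.k1e R) (e1575 R) (e172 R)

noncomputable def v3316 (R : VR) : ℕ :=
  Nat.land (Nat.shiftRight (Nat.land (Nat.sub (Nat.add (v172 R) (VR.k1 R)) (VR.phpT R)) (VR.h1 R))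
    (nat_lit 15)) (v175 R)

noncomputable def s3316 (R : VR) (i : ℕ) : Bool :=
  K.band (s3315 R i) (s175 R i)

theorem e3316 (R : VR) : B (VR.S R) (v3316 R) (s3316 R) :=
  B.and (e3315 R) (e175 R)

noncomputable def v3317 (R : VR) : ℕ :=
  srM (VR.N R) (VR.S R) (VR.o1 R) (VR.phpT R)

noncomputable def v3318 (R : VR) : ℕ :=
  Nat.mod (Nat.land (v1576 R) (v3317 R)) (VR.m1 R)

noncomputable def s3318 (R : VR) (i : ℕ) : ℕ :=
  tx (VR.phpT R) (s1575 R i)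

theorem e3318 (R : VR) : L (VR.S R) (v3318 R) (s3318 R) 255 :=
  L.gat (e1575 R) (VR.php_is R) (VR.php_lt R) (VR.php_le R)

noncomputable def v3319 (R : VR) : ℕ :=
  gmk (VR.h2 R) (VR.J R) (Nat.mul (Nat.mod (Nat.land (v1576 R) (v3317 R)) (VR.m1 R)) (VR.cr1 R))

noncomputable def v3320 (R : VR) : ℕ :=
  Nat.mod (Nat.land (gmk (VR.h2 R) (VR.J R) (Nat.mul (Nat.mod (Nat.land (v1576 R) (v3317 R))
    (VR.m1 R)) (VR.cr1 R))) (v3317 R)) (VR.m1 R)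

noncomputable def s3320 (R : VR) (i : ℕ) : ℕ :=
  tx (VR.phpT R) (s3318 R i)

theorem e3320 (R : VR) : L (VR.S R) (v3320 R) (s3320 R) 255 :=
  L.gat (e3318 R) (VR.php_is R) (VR.php_lt R) (VR.php_le R)

noncomputable def v3321 (R : VR) : ℕ :=
  Nat.shiftRight (Nat.land (Nat.sub (VR.h1 R) (Nat.xor (Nat.mod (Nat.land (gmk (VR.h2 R) (VR.J R)
    (Nat.mul (Nat.mod (Nat.land (v1576 R) (v3317 R)) (VR.m1 R)) (VR.cr1 R))) (v3317 R)) (VR.m1 R))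
    (VR.iota R))) (VR.h1 R)) (nat_lit 15)

noncomputable def s3321 (R : VR) (i : ℕ) : Bool :=
  Nat.beq (s3320 R i) (s0 R i)

theorem e3321 (R : VR) : B (VR.S R) (v3321 R) (s3321 R) :=
  L.beq (VR.h1e R) (e3320 R) (e0 R)

noncomputable def v3322 (R : VR) : ℕ :=
  Nat.land (Nat.land (Nat.shiftRight (Nat.land (Nat.sub (Nat.add (v172 R) (VR.k1 R)) (VR.phpT R))
    (VR.h1 R)) (nat_lit 15)) (v175 R)) (Nat.shiftRight (Nat.land (Nat.sub (VR.h1 R) (Nat.xor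
    (Nat.mod (Nat.land (gmk (VR.h2 R) (VR.J R) (Nat.mul (Nat.mod (Nat.land (v1576 R) (v3317 R))
    (VR.m1 R)) (VR.cr1 R))) (v3317 R)) (VR.m1 R)) (VR.iota R))) (VR.h1 R)) (nat_lit 15))

noncomputable def s3322 (R : VR) (i : ℕ) : Bool :=
  K.band (s3316 R i) (s3321 R i)

theorem e3322 (R : VR) : B (VR.S R) (v3322 R) (s3322 R) :=
  B.and (e3316 R) (e3321 R)

noncomputable def v3323 (R : VR) : ℕ :=
  Nat.shiftRight (Nat.land (Nat.sub (VR.h1 R) (Nat.xor (VR.phpT R) (VR.iota R))) (VR.h1 R))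
    (nat_lit 15)

noncomputable def s3323 (R : VR) (i : ℕ) : Bool :=
  Nat.beq (s1575 R i) (s0 R i)

theorem e3323 (R : VR) : B (VR.S R) (v3323 R) (s3323 R) :=
  L.beq (VR.h1e R) (e1575 R) (e0 R)

noncomputable def v3324 (R : VR) : ℕ :=
  Nat.sub (VR.o1 R) (Nat.shiftRight (Nat.land (Nat.sub (VR.h1 R) (Nat.xor (VR.phpT R) (VR.iota
    R))) (VR.h1 R)) (nat_lit 15))

noncomputable def s3324 (R : VR) (i : ℕ) : Bool :=
  K.bnot (s3323 R i)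

theorem e3324 (R : VR) : B (VR.S R) (v3324 R) (s3324 R) :=
  B.not (VR.o1e R) (e3323 R)

noncomputable def v3325 (R : VR) : ℕ :=
  Nat.land (Nat.land (Nat.land (Nat.shiftRight (Nat.land (Nat.sub (Nat.add (v172 R) (VR.k1 R))
    (VR.phpT R)) (VR.h1 R)) (nat_lit 15)) (v175 R)) (Nat.shiftRight (Nat.land (Nat.sub (VR.h1 R)
    (Nat.xor (Nat.mod (Nat.land (gmk (VR.h2 R) (VR.J R) (Nat.mul (Nat.mod (Nat.land (v1576 R)
    (v3317 R)) (VR.m1 R)) (VR.cr1 R))) (v3317 R)) (VR.m1 R)) (VR.iota R))) (VR.h1 R)) (nat_lit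
    15))) (Nat.sub (VR.o1 R) (Nat.shiftRight (Nat.land (Nat.sub (VR.h1 R) (Nat.xor (VR.phpT R)
    (VR.iota R))) (VR.h1 R)) (nat_lit 15)))

noncomputable def s3325 (R : VR) (i : ℕ) : Bool :=
  K.band (s3322 R i) (s3324 R i)

theorem e3325 (R : VR) : B (VR.S R) (v3325 R) (s3325 R) :=
  B.and (e3322 R) (e3324 R)

noncomputable def v3326 (R : VR) : ℕ :=
  Nat.land (v3325 R) (v190 R)

noncomputable def s3326 (R : VR) (i : ℕ) : Bool :=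
  K.band (s3325 R i) (s190 R i)

theorem e3326 (R : VR) : B (VR.S R) (v3326 R) (s3326 R) :=
  B.and (e3325 R) (e190 R)

noncomputable def v3327 (R : VR) : ℕ :=
  Nat.mod (Nat.land (v187 R) (v1606 R)) (VR.m1 R)

noncomputable def s3327 (R : VR) (i : ℕ) : ℕ :=
  tx (VR.lpT R) (s174 R i)

theorem e3327 (R : VR) : L (VR.S R) (v3327 R) (s3327 R) 29 :=
  L.gat (e174 R) (VR.lp_is R) (VR.lp_lt R) (VR.lp_le R)

noncomputable def v3328 (R : VR) : ℕ :=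
  Nat.shiftRight (Nat.land (Nat.sub (VR.h1 R) (Nat.xor (v1607 R) (Nat.mod (Nat.land (v187 R)
    (v1606 R)) (VR.m1 R)))) (VR.h1 R)) (nat_lit 15)

noncomputable def s3328 (R : VR) (i : ℕ) : Bool :=
  Nat.beq (s1607 R i) (s3327 R i)

theorem e3328 (R : VR) : B (VR.S R) (v3328 R) (s3328 R) :=
  L.beq (VR.h1e R) (e1607 R) (e3327 R)

noncomputable def v3329 (R : VR) : ℕ :=
  Nat.lor (v192 R) (Nat.shiftRight (Nat.land (Nat.sub (VR.h1 R) (Nat.xor (v1607 R) (Nat.mod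
    (Nat.land (v187 R) (v1606 R)) (VR.m1 R)))) (VR.h1 R)) (nat_lit 15))

noncomputable def s3329 (R : VR) (i : ℕ) : Bool :=
  K.bor (s192 R i) (s3328 R i)

theorem e3329 (R : VR) : B (VR.S R) (v3329 R) (s3329 R) :=
  B.or (e192 R) (e3328 R)

noncomputable def v3330 (R : VR) : ℕ :=
  Nat.land (Nat.land (v3325 R) (v190 R)) (Nat.lor (v192 R) (Nat.shiftRight (Nat.land (Nat.sub
    (VR.h1 R) (Nat.xor (v1607 R) (Nat.mod (Nat.land (v187 R) (v1606 R)) (VR.m1 R)))) (VR.h1 R))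
    (nat_lit 15)))

noncomputable def s3330 (R : VR) (i : ℕ) : Bool :=
  K.band (s3326 R i) (s3329 R i)

theorem e3330 (R : VR) : B (VR.S R) (v3330 R) (s3330 R) :=
  B.and (e3326 R) (e3329 R)

noncomputable def v3331 (R : VR) : Bool :=
  Nat.beq (Nat.land (Nat.sub (VR.o1 R) (Nat.land (Nat.land (v3325 R) (v190 R)) (Nat.lor (v192 R)
    (Nat.shiftRight (Nat.land (Nat.sub (VR.h1 R) (Nat.xor (v1607 R) (Nat.mod (Nat.land (v187 R)
    (v1606 R)) (VR.m1 R)))) (VR.h1 R)) (nat_lit 15))))) (mM (v112 R))) (nat_lit 0)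

noncomputable def s3331 (R : VR) : Bool :=
  K.allN (s112 R) (s3330 R)

theorem e3331 (R : VR) : (v3331 R) = s3331 R :=
  all0 (e3330 R) (VR.n_le R)

noncomputable def s3332 (R : VR) : Bool :=
  K.allN (s112 R) (fun (x106 : ℕ) => (K.band (K.band (K.band (K.band (K.band (Nat.ble (Nat.succ
    (FC6.Pa.φ (VR.P' R) x106)) (FC6.Pa.n (VR.P' R))) (Nat.ble (Nat.succ (FC6.Pa.α (VR.P' R) x106))
    (FC6.Pa.n (VR.P' R)))) (Nat.beq (FC6.Pa.φ (VR.P' R) (FC6.Pa.φ (VR.P' R) (FC6.Pa.φ (VR.P' R)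
    x106))) x106)) (K.bnot (Nat.beq (FC6.Pa.φ (VR.P' R) x106) x106))) (Nat.beq (FC6.Pa.α (VR.P' R)
    (FC6.Pa.α (VR.P' R) x106)) x106)) (K.bor (Nat.beq (FC6.Pa.α (VR.P' R) x106) x106) (Nat.beq
    (FC6.Pa.l (VR.P' R) (FC6.Pa.φ (VR.P' R) x106)) (FC6.Pa.l (VR.P' R) (FC6.Pa.α (VR.P' R)
    x106))))))

theorem e3332 (R : VR) : (v3331 R) = s3332 R :=
  e3331 R

noncomputable def s3333 (R : VR) : Bool :=
  K.Pa_good (VR.P' R)

theorem e3333 (R : VR) : (v3331 R) = s3333 R :=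
  e3332 R

noncomputable def c_goodp (R : VR) : Bool :=
  (Nat.beq (Nat.land (Nat.sub (VR.o1 R) (Nat.land (Nat.land (v3325 R) (v190 R)) (Nat.lor (v192 R)
    (Nat.shiftRight (Nat.land (Nat.sub (VR.h1 R) (Nat.xor (v1607 R) (Nat.mod (Nat.land (v187 R)
    (v1606 R)) (VR.m1 R)))) (VR.h1 R)) (nat_lit 15))))) (mM (v112 R))) (nat_lit 0))

theorem c_goodp_eq (R : VR) : c_goodp R = (K.Pa_good (VR.P' R)) :=
  e3333 R

end Vs

end Pool.FC7
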