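import Pool.Agent.FC7.VtG

/-! # Vector form of the static checks: generated file (vgen.py) -/

open Finset

set_option linter.all false

namespace Pool.FC7

open Pool.FC6

namespace Vs

noncomputable def v3334 (R : VR) : ℕ :=
  Nat.land (v1147 R) (v1148 R)

noncomputable def s3334 (R : VR) (i : ℕ) : Bool :=
  K.band (s1147 R i) (s1148 R i)

theorem e3334 (R : VR) : B (VR.S R) (v3334 R) (s3334 R) :=
  B.and (e1147 R) (e1148 R)

noncomputable def v3335 (R : VR) : ℕ :=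
  Nat.lor (v1135 R) (Nat.land (v1147 R) (v1148 R))

noncomputable def s3335 (R : VR) (i : ℕ) : Bool :=
  K.bor (s1135 R i) (s3334 R i)

theorem e3335 (R : VR) : B (VR.S R) (v3335 R) (s3335 R) :=
  B.or (e1135 R) (e3334 R)

noncomputable def v3336 (R : VR) : ℕ :=
  Nat.shiftRight (Nat.land (Nat.sub (Nat.add (v869 R) (VR.k1 R)) (VR.lpT R)) (VR.h1 R)) (nat_lit
    15)

noncomputable def s3336 (R : VR) (i : ℕ) : Bool :=
  Nat.ble (Nat.succ (s113 R i)) (s869 R i)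

theorem e3336 (R : VR) : B (VR.S R) (v3336 R) (s3336 R) :=
  L.blt (VR.h1e R) (VR.k1e R) (e113 R) (e869 R)

noncomputable def v3337 (R : VR) : ℕ :=
  Nat.shiftRight (Nat.land (Nat.sub (Nat.add (v869 R) (VR.k1 R)) (v1607 R)) (VR.h1 R)) (nat_lit
    15)

noncomputable def s3337 (R : VR) (i : ℕ) : Bool :=
  Nat.ble (Nat.succ (s1607 R i)) (s869 R i)

theorem e3337 (R : VR) : B (VR.S R) (v3337 R) (s3337 R) :=
  L.blt (VR.h1e R) (VR.k1e R) (e1607 R) (e869 R)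

noncomputable def v3338 (R : VR) : ℕ :=
  Nat.land (v3336 R) (v3337 R)

noncomputable def s3338 (R : VR) (i : ℕ) : Bool :=
  K.band (s3336 R i) (s3337 R i)

theorem e3338 (R : VR) : B (VR.S R) (v3338 R) (s3338 R) :=
  B.and (e3336 R) (e3337 R)

noncomputable def v3339 (R : VR) : ℕ :=
  Nat.lor (v1600 R) (Nat.land (v3336 R) (v3337 R))

noncomputable def s3339 (R : VR) (i : ℕ) : Bool :=
  K.bor (s1600 R i) (s3338 R i)

theorem e3339 (R : VR) : B (VR.S R) (v3339 R) (s3339 R) :=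
  B.or (e1600 R) (e3338 R)

noncomputable def v3340 (R : VR) : ℕ :=
  Nat.land (v3335 R) (Nat.lor (v1600 R) (Nat.land (v3336 R) (v3337 R)))

noncomputable def s3340 (R : VR) (i : ℕ) : Bool :=
  K.band (s3335 R i) (s3339 R i)

theorem e3340 (R : VR) : B (VR.S R) (v3340 R) (s3340 R) :=
  B.and (e3335 R) (e3339 R)

noncomputable def v3341 (R : VR) : ℕ :=
  Nat.mod (Nat.land (v187 R) (v877 R)) (VR.m1 R)

noncomputable def s3341 (R : VR) (i : ℕ) : Bool :=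
  tf (VR.realT R) (s174 R i)

theorem e3341 (R : VR) : B (VR.S R) (v3341 R) (s3341 R) :=
  B.gat (e174 R) (VR.real_is R) (VR.real_lt R)

noncomputable def v3342 (R : VR) : ℕ :=
  Nat.sub (VR.o1 R) (Nat.xor (Nat.mod (Nat.land (v187 R) (v877 R)) (VR.m1 R)) (VR.realT R))

noncomputable def s3342 (R : VR) (i : ℕ) : Bool :=
  K.beqB (s3341 R i) (s434 R i)

theorem e3342 (R : VR) : B (VR.S R) (v3342 R) (s3342 R) :=
  B.beqB (VR.o1e R) (e3341 R) (e434 R)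

noncomputable def v3343 (R : VR) : ℕ :=
  Nat.land (Nat.land (v3335 R) (Nat.lor (v1600 R) (Nat.land (v3336 R) (v3337 R)))) (v3342 R)

noncomputable def s3343 (R : VR) (i : ℕ) : Bool :=
  K.band (s3340 R i) (s3342 R i)

theorem e3343 (R : VR) : B (VR.S R) (v3343 R) (s3343 R) :=
  B.and (e3340 R) (e3342 R)

noncomputable def v3344 (R : VR) : ℕ :=
  srM (VR.N R) (VR.S R) (VR.o1 R) (VR.realpT R)

noncomputable def v3345 (R : VR) : ℕ :=
  Nat.mod (Nat.land (v187 R) (srM (VR.N R) (VR.S R) (VR.o1 R) (VR.realpT R))) (VR.m1 R)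

noncomputable def s3345 (R : VR) (i : ℕ) : Bool :=
  tf (VR.realpT R) (s174 R i)

theorem e3345 (R : VR) : B (VR.S R) (v3345 R) (s3345 R) :=
  B.gat (e174 R) (VR.realp_is R) (VR.realp_lt R)

noncomputable def v3346 (R : VR) : ℕ :=
  Nat.sub (VR.o1 R) (Nat.xor (Nat.mod (Nat.land (v187 R) (srM (VR.N R) (VR.S R) (VR.o1 R)
    (VR.realpT R))) (VR.m1 R)) (VR.realpT R))

noncomputable def s3346 (R : VR) (i : ℕ) : Bool :=
  K.beqB (s3345 R i) (s1579 R i)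

theorem e3346 (R : VR) : B (VR.S R) (v3346 R) (s3346 R) :=
  B.beqB (VR.o1e R) (e3345 R) (e1579 R)

noncomputable def v3347 (R : VR) : ℕ :=
  Nat.land (Nat.land (Nat.land (v3335 R) (Nat.lor (v1600 R) (Nat.land (v3336 R) (v3337 R))))
    (v3342 R)) (v3346 R)

noncomputable def s3347 (R : VR) (i : ℕ) : Bool :=
  K.band (s3343 R i) (s3346 R i)

theorem e3347 (R : VR) : B (VR.S R) (v3347 R) (s3347 R) :=
  B.and (e3343 R) (e3346 R)

noncomputable def v3348 (R : VR) : ℕ :=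
  Nat.mod (Nat.land (v177 R) (v1246 R)) (VR.m1 R)

noncomputable def s3348 (R : VR) (i : ℕ) : ℕ :=
  tx (VR.ceT R) (s171 R i)

theorem e3348 (R : VR) : L (VR.S R) (v3348 R) (s3348 R) 14 :=
  L.gat (e171 R) (VR.ce_is R) (VR.ce_lt R) (VR.ce_le R)

noncomputable def v3349 (R : VR) : ℕ :=
  Nat.shiftRight (Nat.land (Nat.sub (VR.h1 R) (Nat.xor (Nat.mod (Nat.land (v177 R) (v1246 R))
    (VR.m1 R)) (VR.ceT R))) (VR.h1 R)) (nat_lit 15)

noncomputable def s3349 (R : VR) (i : ℕ) : Bool :=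
  Nat.beq (s3348 R i) (s1244 R i)

theorem e3349 (R : VR) : B (VR.S R) (v3349 R) (s3349 R) :=
  L.beq (VR.h1e R) (e3348 R) (e1244 R)

noncomputable def v3350 (R : VR) : ℕ :=
  Nat.land (Nat.land (Nat.land (Nat.land (v3335 R) (Nat.lor (v1600 R) (Nat.land (v3336 R) (v3337
    R)))) (v3342 R)) (v3346 R)) (v3349 R)

noncomputable def s3350 (R : VR) (i : ℕ) : Bool :=
  K.band (s3347 R i) (s3349 R i)

theorem e3350 (R : VR) : B (VR.S R) (v3350 R) (s3350 R) :=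
  B.and (e3347 R) (e3349 R)

noncomputable def v3351 (R : VR) : ℕ :=
  Nat.land (Nat.land (Nat.land (Nat.land (Nat.land (v3335 R) (Nat.lor (v1600 R) (Nat.land (v3336
    R) (v3337 R)))) (v3342 R)) (v3346 R)) (v3349 R)) (v1578 R)

noncomputable def s3351 (R : VR) (i : ℕ) : Bool :=
  K.band (s3350 R i) (s1578 R i)

theorem e3351 (R : VR) : B (VR.S R) (v3351 R) (s3351 R) :=
  B.and (e3350 R) (e1578 R)

noncomputable def v3352 (R : VR) : ℕ :=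
  Nat.mod (Nat.land (v187 R) (v1246 R)) (VR.m1 R)

noncomputable def s3352 (R : VR) (i : ℕ) : ℕ :=
  tx (VR.ceT R) (s174 R i)

theorem e3352 (R : VR) : L (VR.S R) (v3352 R) (s3352 R) 14 :=
  L.gat (e174 R) (VR.ce_is R) (VR.ce_lt R) (VR.ce_le R)

noncomputable def v3353 (R : VR) : ℕ :=
  Nat.shiftRight (Nat.land (Nat.sub (VR.h1 R) (Nat.xor (v3352 R) (VR.ceT R))) (VR.h1 R)) (nat_lit
    15)

noncomputable def s3353 (R : VR) (i : ℕ) : Bool :=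
  Nat.beq (s3352 R i) (s1244 R i)

theorem e3353 (R : VR) : B (VR.S R) (v3353 R) (s3353 R) :=
  L.beq (VR.h1e R) (e3352 R) (e1244 R)

noncomputable def v3354 (R : VR) : ℕ :=
  Nat.lor (VR.realT R) (Nat.shiftRight (Nat.land (Nat.sub (VR.h1 R) (Nat.xor (v3352 R) (VR.ceT
    R))) (VR.h1 R)) (nat_lit 15))

noncomputable def s3354 (R : VR) (i : ℕ) : Bool :=
  K.bor (s434 R i) (s3353 R i)

theorem e3354 (R : VR) : B (VR.S R) (v3354 R) (s3354 R) :=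
  B.or (e434 R) (e3353 R)

noncomputable def v3355 (R : VR) : ℕ :=
  Nat.land (Nat.land (Nat.land (Nat.land (Nat.land (Nat.land (v3335 R) (Nat.lor (v1600 R)
    (Nat.land (v3336 R) (v3337 R)))) (v3342 R)) (v3346 R)) (v3349 R)) (v1578 R)) (v3354 R)

noncomputable def s3355 (R : VR) (i : ℕ) : Bool :=
  K.band (s3351 R i) (s3354 R i)

theorem e3355 (R : VR) : B (VR.S R) (v3355 R) (s3355 R) :=
  B.and (e3351 R) (e3354 R)

noncomputable def v3356 (R : VR) : ℕ :=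
  Nat.lor (VR.realpT R) (v1582 R)

noncomputable def s3356 (R : VR) (i : ℕ) : Bool :=
  K.bor (s1579 R i) (s1582 R i)

theorem e3356 (R : VR) : B (VR.S R) (v3356 R) (s3356 R) :=
  B.or (e1579 R) (e1582 R)

noncomputable def v3357 (R : VR) : ℕ :=
  Nat.land (Nat.land (Nat.land (Nat.land (Nat.land (Nat.land (Nat.land (v3335 R) (Nat.lor (v1600
    R) (Nat.land (v3336 R) (v3337 R)))) (v3342 R)) (v3346 R)) (v3349 R)) (v1578 R)) (v3354 R))
    (Nat.lor (VR.realpT R) (v1582 R))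

noncomputable def s3357 (R : VR) (i : ℕ) : Bool :=
  K.band (s3355 R i) (s3356 R i)

theorem e3357 (R : VR) : B (VR.S R) (v3357 R) (s3357 R) :=
  B.and (e3355 R) (e3356 R)

noncomputable def s3358 (R : VR) (i : ℕ) : ℕ :=
  tx (VR.stpT R) i

theorem e3358 (R : VR) : L (VR.S R) (VR.stpT R) (s3358 R) 32767 :=
  VR.stp_is R

noncomputable def v3359 (R : VR) : ℕ :=
  srM (VR.N R) (VR.S R) (VR.o1 R) (VR.stpT R)

noncomputable def v3360 (R : VR) : ℕ :=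
  Nat.mod (Nat.land (v1620 R) (v3359 R)) (VR.m1 R)

noncomputable def s3360 (R : VR) (i : ℕ) : ℕ :=
  tx (VR.stpT R) (s113 R i)

theorem e3360 (R : VR) : L (VR.S R) (v3360 R) (s3360 R) 32767 :=
  L.gat (e113 R) (VR.stp_is R) (VR.stp_lt R) (VR.stp_le R)

noncomputable def v3361 (R : VR) : ℕ :=
  Nat.shiftRight (Nat.land (Nat.add (Nat.land (Nat.mod (Nat.land (v1620 R) (v3359 R)) (VR.m1 R))
    (v118 R)) (VR.k1 R)) (VR.h1 R)) (nat_lit 15)

noncomputable def s3361 (R : VR) (i : ℕ) : Bool :=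
  K.tbit (s3360 R i) (s116 R i)

theorem e3361 (R : VR) : B (VR.S R) (v3361 R) (s3361 R) :=
  B.of_eq (L.nz (VR.h1e R) (VR.k1e R) (L.land (e3360 R) (e118 R))) (fun i hi => tb1 _ _ (L.lt
    (e3360 R) i hi))

noncomputable def v3362 (R : VR) : ℕ :=
  Nat.land (Nat.land (Nat.land (Nat.land (Nat.land (Nat.land (Nat.land (Nat.land (v3335 R)
    (Nat.lor (v1600 R) (Nat.land (v3336 R) (v3337 R)))) (v3342 R)) (v3346 R)) (v3349 R)) (v1578
    R)) (v3354 R)) (Nat.lor (VR.realpT R) (v1582 R))) (Nat.shiftRight (Nat.land (Nat.add (Nat.land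
    (Nat.mod (Nat.land (v1620 R) (v3359 R)) (VR.m1 R)) (v118 R)) (VR.k1 R)) (VR.h1 R)) (nat_lit
    15))

noncomputable def s3362 (R : VR) (i : ℕ) : Bool :=
  K.band (s3357 R i) (s3361 R i)

theorem e3362 (R : VR) : B (VR.S R) (v3362 R) (s3362 R) :=
  B.and (e3357 R) (e3361 R)

noncomputable def s3363 (R : VR) (i : ℕ) : ℕ :=
  tx (VR.crT R) i

theorem e3363 (R : VR) : L (VR.S R) (VR.crT R) (s3363 R) 255 :=
  VR.cr_is R

noncomputable def v3364 (R : VR) : ℕ :=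
  srM (VR.N R) (VR.S R) (VR.o1 R) (VR.crT R)

noncomputable def v3365 (R : VR) : ℕ :=
  Nat.mod (Nat.land (v1391 R) (srM (VR.N R) (VR.S R) (VR.o1 R) (VR.crT R))) (VR.m1 R)

noncomputable def s3365 (R : VR) (i : ℕ) : ℕ :=
  tx (VR.crT R) (s1244 R i)

theorem e3365 (R : VR) : L (VR.S R) (v3365 R) (s3365 R) 255 :=
  L.gat (e1244 R) (VR.cr_is R) (VR.cr_lt R) (VR.cr_le R)

noncomputable def v3366 (R : VR) : ℕ :=
  Nat.shiftRight (Nat.land (Nat.sub (Nat.add (v172 R) (VR.k1 R)) (v3365 R)) (VR.h1 R)) (nat_lit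
    15)

noncomputable def s3366 (R : VR) (i : ℕ) : Bool :=
  Nat.ble (Nat.succ (s3365 R i)) (s172 R i)

theorem e3366 (R : VR) : B (VR.S R) (v3366 R) (s3366 R) :=
  L.blt (VR.h1e R) (VR.k1e R) (e3365 R) (e172 R)

noncomputable def v3367 (R : VR) : ℕ :=
  Nat.land (Nat.land (Nat.land (Nat.land (Nat.land (Nat.land (Nat.land (Nat.land (Nat.land (v3335
    R) (Nat.lor (v1600 R) (Nat.land (v3336 R) (v3337 R)))) (v3342 R)) (v3346 R)) (v3349 R)) (v1578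
    R)) (v3354 R)) (Nat.lor (VR.realpT R) (v1582 R))) (Nat.shiftRight (Nat.land (Nat.add (Nat.land
    (Nat.mod (Nat.land (v1620 R) (v3359 R)) (VR.m1 R)) (v118 R)) (VR.k1 R)) (VR.h1 R)) (nat_lit
    15))) (v3366 R)

noncomputable def s3367 (R : VR) (i : ℕ) : Bool :=
  K.band (s3362 R i) (s3366 R i)

theorem e3367 (R : VR) : B (VR.S R) (v3367 R) (s3367 R) :=
  B.and (e3362 R) (e3366 R)

noncomputable def v3368 (R : VR) : ℕ :=
  Nat.shiftRight (Nat.land (Nat.sub (VR.h1 R) (Nat.xor (VR.iota R) (v3365 R))) (VR.h1 R)) (nat_lit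
    15)

noncomputable def s3368 (R : VR) (i : ℕ) : Bool :=
  Nat.beq (s0 R i) (s3365 R i)

theorem e3368 (R : VR) : B (VR.S R) (v3368 R) (s3368 R) :=
  L.beq (VR.h1e R) (e0 R) (e3365 R)

noncomputable def s3369 (R : VR) (i : ℕ) : ℕ :=
  tx (VR.paT R) i

theorem e3369 (R : VR) : L (VR.S R) (VR.paT R) (s3369 R) 255 :=
  VR.pa_is R

noncomputable def s3370 (R : VR) (i : ℕ) : ℕ :=
  tx (VR.pkT R) i

theorem e3370 (R : VR) : L (VR.S R) (VR.pkT R) (s3370 R) 255 :=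
  VR.pk_is R

noncomputable def v3371 (R : VR) : ℕ :=
  gmk (VR.h2 R) (VR.J R) (Nat.mul (VR.paT R) (VR.cr1 R))

noncomputable def v3372 (R : VR) : ℕ :=
  srM (VR.N R) (VR.S R) (VR.o1 R) (VR.pkT R)

noncomputable def v3373 (R : VR) : ℕ :=
  Nat.mod (Nat.land (v3371 R) (srM (VR.N R) (VR.S R) (VR.o1 R) (VR.pkT R))) (VR.m1 R)

noncomputable def s3373 (R : VR) (i : ℕ) : ℕ :=
  tx (VR.pkT R) (s3369 R i)

theorem e3373 (R : VR) : L (VR.S R) (v3373 R) (s3373 R) 255 :=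
  L.gat (e3369 R) (VR.pk_is R) (VR.pk_lt R) (VR.pk_le R)

noncomputable def v3374 (R : VR) : ℕ :=
  Nat.shiftRight (Nat.land (Nat.sub (Nat.add (VR.pkT R) (VR.k1 R)) (Nat.mod (Nat.land (v3371 R)
    (srM (VR.N R) (VR.S R) (VR.o1 R) (VR.pkT R))) (VR.m1 R))) (VR.h1 R)) (nat_lit 15)

noncomputable def s3374 (R : VR) (i : ℕ) : Bool :=
  Nat.ble (Nat.succ (s3373 R i)) (s3370 R i)

theorem e3374 (R : VR) : B (VR.S R) (v3374 R) (s3374 R) :=
  L.blt (VR.h1e R) (VR.k1e R) (e3373 R) (e3370 R)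

noncomputable def v3375 (R : VR) : ℕ :=
  Nat.shiftRight (Nat.land (Nat.sub (Nat.add (v172 R) (VR.k1 R)) (VR.paT R)) (VR.h1 R)) (nat_lit
    15)

noncomputable def s3375 (R : VR) (i : ℕ) : Bool :=
  Nat.ble (Nat.succ (s3369 R i)) (s172 R i)

theorem e3375 (R : VR) : B (VR.S R) (v3375 R) (s3375 R) :=
  L.blt (VR.h1e R) (VR.k1e R) (e3369 R) (e172 R)

noncomputable def v3376 (R : VR) : ℕ :=
  Nat.land (Nat.shiftRight (Nat.land (Nat.sub (Nat.add (VR.pkT R) (VR.k1 R)) (Nat.mod (Nat.land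
    (v3371 R) (srM (VR.N R) (VR.S R) (VR.o1 R) (VR.pkT R))) (VR.m1 R))) (VR.h1 R)) (nat_lit 15))
    (Nat.shiftRight (Nat.land (Nat.sub (Nat.add (v172 R) (VR.k1 R)) (VR.paT R)) (VR.h1 R))
    (nat_lit 15))

noncomputable def s3376 (R : VR) (i : ℕ) : Bool :=
  K.band (s3374 R i) (s3375 R i)

theorem e3376 (R : VR) : B (VR.S R) (v3376 R) (s3376 R) :=
  B.and (e3374 R) (e3375 R)

noncomputable def v3377 (R : VR) : ℕ :=
  Nat.mod (Nat.land (v3371 R) (v1246 R)) (VR.m1 R)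

noncomputable def s3377 (R : VR) (i : ℕ) : ℕ :=
  tx (VR.ceT R) (s3369 R i)

theorem e3377 (R : VR) : L (VR.S R) (v3377 R) (s3377 R) 14 :=
  L.gat (e3369 R) (VR.ce_is R) (VR.ce_lt R) (VR.ce_le R)

noncomputable def v3378 (R : VR) : ℕ :=
  Nat.shiftRight (Nat.land (Nat.sub (VR.h1 R) (Nat.xor (Nat.mod (Nat.land (v3371 R) (v1246 R))
    (VR.m1 R)) (VR.ceT R))) (VR.h1 R)) (nat_lit 15)

noncomputable def s3378 (R : VR) (i : ℕ) : Bool :=
  Nat.beq (s3377 R i) (s1244 R i)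

theorem e3378 (R : VR) : B (VR.S R) (v3378 R) (s3378 R) :=
  L.beq (VR.h1e R) (e3377 R) (e1244 R)

noncomputable def v3379 (R : VR) : ℕ :=
  Nat.land (Nat.land (Nat.shiftRight (Nat.land (Nat.sub (Nat.add (VR.pkT R) (VR.k1 R)) (Nat.mod
    (Nat.land (v3371 R) (srM (VR.N R) (VR.S R) (VR.o1 R) (VR.pkT R))) (VR.m1 R))) (VR.h1 R))
    (nat_lit 15)) (Nat.shiftRight (Nat.land (Nat.sub (Nat.add (v172 R) (VR.k1 R)) (VR.paT R))
    (VR.h1 R)) (nat_lit 15))) (Nat.shiftRight (Nat.land (Nat.sub (VR.h1 R) (Nat.xor (Nat.mod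
    (Nat.land (v3371 R) (v1246 R)) (VR.m1 R)) (VR.ceT R))) (VR.h1 R)) (nat_lit 15))

noncomputable def s3379 (R : VR) (i : ℕ) : Bool :=
  K.band (s3376 R i) (s3378 R i)

theorem e3379 (R : VR) : B (VR.S R) (v3379 R) (s3379 R) :=
  B.and (e3376 R) (e3378 R)

noncomputable def v3380 (R : VR) : ℕ :=
  Nat.shiftRight (Nat.land (Nat.sub (VR.h1 R) (Nat.xor (VR.paT R) (VR.phiT R))) (VR.h1 R))
    (nat_lit 15)

noncomputable def s3380 (R : VR) (i : ℕ) : Bool :=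
  Nat.beq (s3369 R i) (s171 R i)

theorem e3380 (R : VR) : B (VR.S R) (v3380 R) (s3380 R) :=
  L.beq (VR.h1e R) (e3369 R) (e171 R)

noncomputable def v3381 (R : VR) : ℕ :=
  Nat.land (v432 R) (v1135 R)

noncomputable def s3381 (R : VR) (i : ℕ) : Bool :=
  K.band (s432 R i) (s1135 R i)

theorem e3381 (R : VR) : B (VR.S R) (v3381 R) (s3381 R) :=
  B.and (e432 R) (e1135 R)

noncomputable def v3382 (R : VR) : ℕ :=
  Nat.shiftRight (Nat.land (Nat.sub (VR.h1 R) (Nat.xor (VR.paT R) (VR.alT R))) (VR.h1 R)) (nat_lit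
    15)

noncomputable def s3382 (R : VR) (i : ℕ) : Bool :=
  Nat.beq (s3369 R i) (s174 R i)

theorem e3382 (R : VR) : B (VR.S R) (v3382 R) (s3382 R) :=
  L.beq (VR.h1e R) (e3369 R) (e174 R)

noncomputable def v3383 (R : VR) : ℕ :=
  Nat.land (v3381 R) (Nat.shiftRight (Nat.land (Nat.sub (VR.h1 R) (Nat.xor (VR.paT R) (VR.alT R)))
    (VR.h1 R)) (nat_lit 15))

noncomputable def s3383 (R : VR) (i : ℕ) : Bool :=
  K.band (s3381 R i) (s3382 R i)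

theorem e3383 (R : VR) : B (VR.S R) (v3383 R) (s3383 R) :=
  B.and (e3381 R) (e3382 R)

noncomputable def v3384 (R : VR) : ℕ :=
  Nat.lor (Nat.shiftRight (Nat.land (Nat.sub (VR.h1 R) (Nat.xor (VR.paT R) (VR.phiT R))) (VR.h1
    R)) (nat_lit 15)) (Nat.land (v3381 R) (Nat.shiftRight (Nat.land (Nat.sub (VR.h1 R) (Nat.xor
    (VR.paT R) (VR.alT R))) (VR.h1 R)) (nat_lit 15)))

noncomputable def s3384 (R : VR) (i : ℕ) : Bool :=
  K.bor (s3380 R i) (s3383 R i)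

theorem e3384 (R : VR) : B (VR.S R) (v3384 R) (s3384 R) :=
  B.or (e3380 R) (e3383 R)

noncomputable def v3385 (R : VR) : ℕ :=
  Nat.land (v3379 R) (Nat.lor (Nat.shiftRight (Nat.land (Nat.sub (VR.h1 R) (Nat.xor (VR.paT R)
    (VR.phiT R))) (VR.h1 R)) (nat_lit 15)) (Nat.land (v3381 R) (Nat.shiftRight (Nat.land (Nat.sub
    (VR.h1 R) (Nat.xor (VR.paT R) (VR.alT R))) (VR.h1 R)) (nat_lit 15))))

noncomputable def s3385 (R : VR) (i : ℕ) : Bool :=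
  K.band (s3379 R i) (s3384 R i)

theorem e3385 (R : VR) : B (VR.S R) (v3385 R) (s3385 R) :=
  B.and (e3379 R) (e3384 R)

noncomputable def v3386 (R : VR) : ℕ :=
  Nat.lor (Nat.shiftRight (Nat.land (Nat.sub (VR.h1 R) (Nat.xor (VR.iota R) (v3365 R))) (VR.h1 R))
    (nat_lit 15)) (Nat.land (v3379 R) (Nat.lor (Nat.shiftRight (Nat.land (Nat.sub (VR.h1 R)
    (Nat.xor (VR.paT R) (VR.phiT R))) (VR.h1 R)) (nat_lit 15)) (Nat.land (v3381 R) (Nat.shiftRight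
    (Nat.land (Nat.sub (VR.h1 R) (Nat.xor (VR.paT R) (VR.alT R))) (VR.h1 R)) (nat_lit 15)))))

noncomputable def s3386 (R : VR) (i : ℕ) : Bool :=
  K.bor (s3368 R i) (s3385 R i)

theorem e3386 (R : VR) : B (VR.S R) (v3386 R) (s3386 R) :=
  B.or (e3368 R) (e3385 R)

noncomputable def v3387 (R : VR) : ℕ :=
  Nat.land (Nat.land (Nat.land (Nat.land (Nat.land (Nat.land (Nat.land (Nat.land (Nat.land
    (Nat.land (v3335 R) (Nat.lor (v1600 R) (Nat.land (v3336 R) (v3337 R)))) (v3342 R)) (v3346 R))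
    (v3349 R)) (v1578 R)) (v3354 R)) (Nat.lor (VR.realpT R) (v1582 R))) (Nat.shiftRight (Nat.land
    (Nat.add (Nat.land (Nat.mod (Nat.land (v1620 R) (v3359 R)) (VR.m1 R)) (v118 R)) (VR.k1 R))
    (VR.h1 R)) (nat_lit 15))) (v3366 R)) (v3386 R)

noncomputable def s3387 (R : VR) (i : ℕ) : Bool :=
  K.band (s3367 R i) (s3386 R i)

theorem e3387 (R : VR) : B (VR.S R) (v3387 R) (s3387 R) :=
  B.and (e3367 R) (e3386 R)

noncomputable def s3388 (R : VR) (i : ℕ) : ℕ :=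
  tx (VR.crpT R) i

theorem e3388 (R : VR) : L (VR.S R) (VR.crpT R) (s3388 R) 255 :=
  VR.crp_is R

noncomputable def v3389 (R : VR) : ℕ :=
  srM (VR.N R) (VR.S R) (VR.o1 R) (VR.crpT R)

noncomputable def v3390 (R : VR) : ℕ :=
  Nat.mod (Nat.land (v117 R) (srM (VR.N R) (VR.S R) (VR.o1 R) (VR.crpT R))) (VR.m1 R)

noncomputable def s3390 (R : VR) (i : ℕ) : ℕ :=
  tx (VR.crpT R) (s116 R i)

theorem e3390 (R : VR) : L (VR.S R) (v3390 R) (s3390 R) 255 :=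
  L.gat (e116 R) (VR.crp_is R) (VR.crp_lt R) (VR.crp_le R)

noncomputable def v3391 (R : VR) : ℕ :=
  Nat.shiftRight (Nat.land (Nat.sub (Nat.add (v172 R) (VR.k1 R)) (v3390 R)) (VR.h1 R)) (nat_lit
    15)

noncomputable def s3391 (R : VR) (i : ℕ) : Bool :=
  Nat.ble (Nat.succ (s3390 R i)) (s172 R i)

theorem e3391 (R : VR) : B (VR.S R) (v3391 R) (s3391 R) :=
  L.blt (VR.h1e R) (VR.k1e R) (e3390 R) (e172 R)

noncomputable def v3392 (R : VR) : ℕ :=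
  Nat.land (v3387 R) (v3391 R)

noncomputable def s3392 (R : VR) (i : ℕ) : Bool :=
  K.band (s3387 R i) (s3391 R i)

theorem e3392 (R : VR) : B (VR.S R) (v3392 R) (s3392 R) :=
  B.and (e3387 R) (e3391 R)

noncomputable def v3393 (R : VR) : ℕ :=
  Nat.shiftRight (Nat.land (Nat.sub (VR.h1 R) (Nat.xor (VR.iota R) (v3390 R))) (VR.h1 R)) (nat_lit
    15)

noncomputable def s3393 (R : VR) (i : ℕ) : Bool :=
  Nat.beq (s0 R i) (s3390 R i)

theorem e3393 (R : VR) : B (VR.S R) (v3393 R) (s3393 R) :=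
  L.beq (VR.h1e R) (e0 R) (e3390 R)

noncomputable def s3394 (R : VR) (i : ℕ) : ℕ :=
  tx (VR.papT R) i

theorem e3394 (R : VR) : L (VR.S R) (VR.papT R) (s3394 R) 255 :=
  VR.pap_is R

noncomputable def s3395 (R : VR) (i : ℕ) : ℕ :=
  tx (VR.pkpT R) i

theorem e3395 (R : VR) : L (VR.S R) (VR.pkpT R) (s3395 R) 255 :=
  VR.pkp_is R

noncomputable def v3396 (R : VR) : ℕ :=
  gmk (VR.h2 R) (VR.J R) (Nat.mul (VR.papT R) (VR.cr1 R))

noncomputable def v3397 (R : VR) : ℕ :=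
  srM (VR.N R) (VR.S R) (VR.o1 R) (VR.pkpT R)

noncomputable def v3398 (R : VR) : ℕ :=
  Nat.mod (Nat.land (v3396 R) (srM (VR.N R) (VR.S R) (VR.o1 R) (VR.pkpT R))) (VR.m1 R)

noncomputable def s3398 (R : VR) (i : ℕ) : ℕ :=
  tx (VR.pkpT R) (s3394 R i)

theorem e3398 (R : VR) : L (VR.S R) (v3398 R) (s3398 R) 255 :=
  L.gat (e3394 R) (VR.pkp_is R) (VR.pkp_lt R) (VR.pkp_le R)

noncomputable def v3399 (R : VR) : ℕ :=
  Nat.shiftRight (Nat.land (Nat.sub (Nat.add (VR.pkpT R) (VR.k1 R)) (Nat.mod (Nat.land (v3396 R)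
    (srM (VR.N R) (VR.S R) (VR.o1 R) (VR.pkpT R))) (VR.m1 R))) (VR.h1 R)) (nat_lit 15)

noncomputable def s3399 (R : VR) (i : ℕ) : Bool :=
  Nat.ble (Nat.succ (s3398 R i)) (s3395 R i)

theorem e3399 (R : VR) : B (VR.S R) (v3399 R) (s3399 R) :=
  L.blt (VR.h1e R) (VR.k1e R) (e3398 R) (e3395 R)

noncomputable def v3400 (R : VR) : ℕ :=
  Nat.shiftRight (Nat.land (Nat.sub (Nat.add (v172 R) (VR.k1 R)) (VR.papT R)) (VR.h1 R)) (nat_lit
    15)

noncomputable def s3400 (R : VR) (i : ℕ) : Bool :=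
  Nat.ble (Nat.succ (s3394 R i)) (s172 R i)

theorem e3400 (R : VR) : B (VR.S R) (v3400 R) (s3400 R) :=
  L.blt (VR.h1e R) (VR.k1e R) (e3394 R) (e172 R)

noncomputable def v3401 (R : VR) : ℕ :=
  Nat.land (Nat.shiftRight (Nat.land (Nat.sub (Nat.add (VR.pkpT R) (VR.k1 R)) (Nat.mod (Nat.land
    (v3396 R) (srM (VR.N R) (VR.S R) (VR.o1 R) (VR.pkpT R))) (VR.m1 R))) (VR.h1 R)) (nat_lit 15))
    (Nat.shiftRight (Nat.land (Nat.sub (Nat.add (v172 R) (VR.k1 R)) (VR.papT R)) (VR.h1 R))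
    (nat_lit 15))

noncomputable def s3401 (R : VR) (i : ℕ) : Bool :=
  K.band (s3399 R i) (s3400 R i)

theorem e3401 (R : VR) : B (VR.S R) (v3401 R) (s3401 R) :=
  B.and (e3399 R) (e3400 R)

noncomputable def v3402 (R : VR) : ℕ :=
  Nat.mod (Nat.land (v3396 R) (v1409 R)) (VR.m1 R)

noncomputable def s3402 (R : VR) (i : ℕ) : ℕ :=
  tx (VR.cepT R) (s3394 R i)

theorem e3402 (R : VR) : L (VR.S R) (v3402 R) (s3402 R) 14 :=
  L.gat (e3394 R) (VR.cep_is R) (VR.cep_lt R) (VR.cep_le R)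

noncomputable def v3403 (R : VR) : ℕ :=
  Nat.shiftRight (Nat.land (Nat.sub (VR.h1 R) (Nat.xor (Nat.mod (Nat.land (v3396 R) (v1409 R))
    (VR.m1 R)) (VR.cepT R))) (VR.h1 R)) (nat_lit 15)

noncomputable def s3403 (R : VR) (i : ℕ) : Bool :=
  Nat.beq (s3402 R i) (s116 R i)

theorem e3403 (R : VR) : B (VR.S R) (v3403 R) (s3403 R) :=
  L.beq (VR.h1e R) (e3402 R) (e116 R)

noncomputable def v3404 (R : VR) : ℕ :=
  Nat.land (Nat.land (Nat.shiftRight (Nat.land (Nat.sub (Nat.add (VR.pkpT R) (VR.k1 R)) (Nat.mod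
    (Nat.land (v3396 R) (srM (VR.N R) (VR.S R) (VR.o1 R) (VR.pkpT R))) (VR.m1 R))) (VR.h1 R))
    (nat_lit 15)) (Nat.shiftRight (Nat.land (Nat.sub (Nat.add (v172 R) (VR.k1 R)) (VR.papT R))
    (VR.h1 R)) (nat_lit 15))) (Nat.shiftRight (Nat.land (Nat.sub (VR.h1 R) (Nat.xor (Nat.mod
    (Nat.land (v3396 R) (v1409 R)) (VR.m1 R)) (VR.cepT R))) (VR.h1 R)) (nat_lit 15))

noncomputable def s3404 (R : VR) (i : ℕ) : Bool :=
  K.band (s3401 R i) (s3403 R i)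

theorem e3404 (R : VR) : B (VR.S R) (v3404 R) (s3404 R) :=
  B.and (e3401 R) (e3403 R)

noncomputable def v3405 (R : VR) : ℕ :=
  Nat.shiftRight (Nat.land (Nat.sub (VR.h1 R) (Nat.xor (VR.papT R) (VR.phpT R))) (VR.h1 R))
    (nat_lit 15)

noncomputable def s3405 (R : VR) (i : ℕ) : Bool :=
  Nat.beq (s3394 R i) (s1575 R i)

theorem e3405 (R : VR) : B (VR.S R) (v3405 R) (s3405 R) :=
  L.beq (VR.h1e R) (e3394 R) (e1575 R)

noncomputable def v3406 (R : VR) : ℕ :=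
  Nat.land (v432 R) (v1600 R)

noncomputable def s3406 (R : VR) (i : ℕ) : Bool :=
  K.band (s432 R i) (s1600 R i)

theorem e3406 (R : VR) : B (VR.S R) (v3406 R) (s3406 R) :=
  B.and (e432 R) (e1600 R)

noncomputable def v3407 (R : VR) : ℕ :=
  Nat.shiftRight (Nat.land (Nat.sub (VR.h1 R) (Nat.xor (VR.papT R) (VR.alT R))) (VR.h1 R))
    (nat_lit 15)

noncomputable def s3407 (R : VR) (i : ℕ) : Bool :=
  Nat.beq (s3394 R i) (s174 R i)

theorem e3407 (R : VR) : B (VR.S R) (v3407 R) (s3407 R) :=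
  L.beq (VR.h1e R) (e3394 R) (e174 R)

noncomputable def v3408 (R : VR) : ℕ :=
  Nat.land (Nat.land (v432 R) (v1600 R)) (v3407 R)

noncomputable def s3408 (R : VR) (i : ℕ) : Bool :=
  K.band (s3406 R i) (s3407 R i)

theorem e3408 (R : VR) : B (VR.S R) (v3408 R) (s3408 R) :=
  B.and (e3406 R) (e3407 R)

noncomputable def v3409 (R : VR) : ℕ :=
  Nat.lor (Nat.shiftRight (Nat.land (Nat.sub (VR.h1 R) (Nat.xor (VR.papT R) (VR.phpT R))) (VR.h1
    R)) (nat_lit 15)) (Nat.land (Nat.land (v432 R) (v1600 R)) (v3407 R))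

noncomputable def s3409 (R : VR) (i : ℕ) : Bool :=
  K.bor (s3405 R i) (s3408 R i)

theorem e3409 (R : VR) : B (VR.S R) (v3409 R) (s3409 R) :=
  B.or (e3405 R) (e3408 R)

noncomputable def v3410 (R : VR) : ℕ :=
  Nat.land (v3404 R) (Nat.lor (Nat.shiftRight (Nat.land (Nat.sub (VR.h1 R) (Nat.xor (VR.papT R)
    (VR.phpT R))) (VR.h1 R)) (nat_lit 15)) (Nat.land (Nat.land (v432 R) (v1600 R)) (v3407 R)))

noncomputable def s3410 (R : VR) (i : ℕ) : Bool :=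
  K.band (s3404 R i) (s3409 R i)

theorem e3410 (R : VR) : B (VR.S R) (v3410 R) (s3410 R) :=
  B.and (e3404 R) (e3409 R)

noncomputable def v3411 (R : VR) : ℕ :=
  Nat.lor (v3393 R) (Nat.land (v3404 R) (Nat.lor (Nat.shiftRight (Nat.land (Nat.sub (VR.h1 R)
    (Nat.xor (VR.papT R) (VR.phpT R))) (VR.h1 R)) (nat_lit 15)) (Nat.land (Nat.land (v432 R)
    (v1600 R)) (v3407 R))))

noncomputable def s3411 (R : VR) (i : ℕ) : Bool :=
  K.bor (s3393 R i) (s3410 R i)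

theorem e3411 (R : VR) : B (VR.S R) (v3411 R) (s3411 R) :=
  B.or (e3393 R) (e3410 R)

noncomputable def v3412 (R : VR) : ℕ :=
  Nat.land (Nat.land (v3387 R) (v3391 R)) (v3411 R)

noncomputable def s3412 (R : VR) (i : ℕ) : Bool :=
  K.band (s3392 R i) (s3411 R i)

theorem e3412 (R : VR) : B (VR.S R) (v3412 R) (s3412 R) :=
  B.and (e3392 R) (e3411 R)

noncomputable def v3413 (R : VR) : ℕ :=
  srM (VR.N R) (VR.S R) (VR.o1 R) (VR.ar1T R)

noncomputable def s3413 (R : VR) (j i : ℕ) : ℕ :=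
  (s1312 R j)

theorem e3413 (R : VR) : L2 R (v3413 R) (s3413 R) 255 :=
  L2.row (e1312 R)

noncomputable def v3414 (R : VR) : ℕ :=
  Nat.shiftRight (Nat.land (Nat.sub (VR.h2 R) (Nat.xor (v12 R) (srM (VR.N R) (VR.S R) (VR.o1 R)
    (VR.ar1T R)))) (VR.h2 R)) (nat_lit 15)

noncomputable def s3414 (R : VR) (j i : ℕ) : Bool :=
  Nat.beq (s12 R j i) (s3413 R j i)

theorem e3414 (R : VR) : B2 R (v3414 R) (s3414 R) :=
  L.beq (VR.h2e R) (e12 R) (e3413 R)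

noncomputable def v3415 (R : VR) : ℕ :=
  srM (VR.N R) (VR.S R) (VR.o1 R) (VR.ar2T R)

noncomputable def s3415 (R : VR) (j i : ℕ) : ℕ :=
  (s1313 R j)

theorem e3415 (R : VR) : L2 R (v3415 R) (s3415 R) 255 :=
  L2.row (e1313 R)

noncomputable def v3416 (R : VR) : ℕ :=
  Nat.shiftRight (Nat.land (Nat.sub (VR.h2 R) (Nat.xor (v12 R) (srM (VR.N R) (VR.S R) (VR.o1 R)
    (VR.ar2T R)))) (VR.h2 R)) (nat_lit 15)

noncomputable def s3416 (R : VR) (j i : ℕ) : Bool :=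
  Nat.beq (s12 R j i) (s3415 R j i)

theorem e3416 (R : VR) : B2 R (v3416 R) (s3416 R) :=
  L.beq (VR.h2e R) (e12 R) (e3415 R)

noncomputable def v3417 (R : VR) : ℕ :=
  Nat.lor (Nat.shiftRight (Nat.land (Nat.sub (VR.h2 R) (Nat.xor (v12 R) (srM (VR.N R) (VR.S R)
    (VR.o1 R) (VR.ar1T R)))) (VR.h2 R)) (nat_lit 15)) (Nat.shiftRight (Nat.land (Nat.sub (VR.h2 R)
    (Nat.xor (v12 R) (srM (VR.N R) (VR.S R) (VR.o1 R) (VR.ar2T R)))) (VR.h2 R)) (nat_lit 15))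

noncomputable def s3417 (R : VR) (j i : ℕ) : Bool :=
  K.bor (s3414 R j i) (s3416 R j i)

theorem e3417 (R : VR) : B2 R (v3417 R) (s3417 R) :=
  B.or (e3414 R) (e3416 R)

noncomputable def v3418 (R : VR) : ℕ :=
  Nat.shiftRight (Nat.land (Nat.add (Nat.mod (Nat.land (Nat.lor (Nat.shiftRight (Nat.land (Nat.sub
    (VR.h2 R) (Nat.xor (v12 R) (srM (VR.N R) (VR.S R) (VR.o1 R) (VR.ar1T R)))) (VR.h2 R)) (nat_lit
    15)) (Nat.shiftRight (Nat.land (Nat.sub (VR.h2 R) (Nat.xor (v12 R) (srM (VR.N R) (VR.S R)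
    (VR.o1 R) (VR.ar2T R)))) (VR.h2 R)) (nat_lit 15))) (mM (Nat.mul (v1311 R) (VR.S R)))) (VR.m1
    R)) (VR.k1 R)) (VR.h1 R)) (nat_lit 15)

noncomputable def s3418 (R : VR) (i : ℕ) : Bool :=
  K.bnot (K.allN (s1311 R) (fun j => K.bnot (s3417 R j i)))

theorem e3418 (R : VR) : B (VR.S R) (v3418 R) (s3418 R) :=
  B.any (e3417 R) (VR.kar_le R)

noncomputable def s3419 (R : VR) (i : ℕ) : Bool :=
  K.lmem i (FC7.XE.rs (K.Fc_XX (VR.F R)))

theorem e3419 (R : VR) : B (VR.S R) (v3418 R) (s3419 R) :=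
  B.of_eq (e3418 R) (fun i _ => (lmem_rs (VR.kar R) (VR.ar1T R) (VR.ar2T R) i).symm)

noncomputable def v3420 (R : VR) : ℕ :=
  Nat.sub (VR.o1 R) (Nat.xor (VR.realpT R) (VR.realT R))

noncomputable def s3420 (R : VR) (i : ℕ) : Bool :=
  K.beqB (s1579 R i) (s434 R i)

theorem e3420 (R : VR) : B (VR.S R) (v3420 R) (s3420 R) :=
  B.beqB (VR.o1e R) (e1579 R) (e434 R)

noncomputable def v3421 (R : VR) : ℕ :=
  Nat.land (v3418 R) (v3420 R)

noncomputable def s3421 (R : VR) (i : ℕ) : Bool :=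
  K.band (s3419 R i) (s3420 R i)

theorem e3421 (R : VR) : B (VR.S R) (v3421 R) (s3421 R) :=
  B.and (e3419 R) (e3420 R)

noncomputable def v3422 (R : VR) : ℕ :=
  Nat.land (Nat.land (v3418 R) (v3420 R)) (v1611 R)

noncomputable def s3422 (R : VR) (i : ℕ) : Bool :=
  K.band (s3421 R i) (s1611 R i)

theorem e3422 (R : VR) : B (VR.S R) (v3422 R) (s3422 R) :=
  B.and (e3421 R) (e1611 R)

noncomputable def v3423 (R : VR) : ℕ :=
  Nat.land (Nat.land (Nat.land (v3418 R) (v3420 R)) (v1611 R)) (v1613 R)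

noncomputable def s3423 (R : VR) (i : ℕ) : Bool :=
  K.band (s3422 R i) (s1613 R i)

theorem e3423 (R : VR) : B (VR.S R) (v3423 R) (s3423 R) :=
  B.and (e3422 R) (e1613 R)

noncomputable def v3424 (R : VR) : ℕ :=
  Nat.land (Nat.land (Nat.land (Nat.land (v3418 R) (v3420 R)) (v1611 R)) (v1613 R)) (v861 R)

noncomputable def s3424 (R : VR) (i : ℕ) : Bool :=
  K.band (s3423 R i) (s861 R i)

theorem e3424 (R : VR) : B (VR.S R) (v3424 R) (s3424 R) :=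
  B.and (e3423 R) (e861 R)

noncomputable def v3425 (R : VR) : ℕ :=
  Nat.shiftRight (Nat.land (Nat.sub (Nat.add (v193 R) (VR.h1 R)) (v625 R)) (VR.h1 R)) (nat_lit 15)

noncomputable def s3425 (R : VR) (i : ℕ) : Bool :=
  Nat.ble (s625 R i) (s193 R i)

theorem e3425 (R : VR) : B (VR.S R) (v3425 R) (s3425 R) :=
  L.ble (VR.h1e R) (e625 R) (e193 R)

noncomputable def v3426 (R : VR) : ℕ :=
  Nat.land (Nat.land (Nat.land (Nat.land (Nat.land (v3418 R) (v3420 R)) (v1611 R)) (v1613 R))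
    (v861 R)) (v3425 R)

noncomputable def s3426 (R : VR) (i : ℕ) : Bool :=
  K.band (s3424 R i) (s3425 R i)

theorem e3426 (R : VR) : B (VR.S R) (v3426 R) (s3426 R) :=
  B.and (e3424 R) (e3425 R)

noncomputable def v3427 (R : VR) : ℕ :=
  VR.kes R

noncomputable def s3427 (R : VR) : ℕ :=
  VR.kes R

theorem e3427 (R : VR) : (v3427 R) = s3427 R :=
  rfl

theorem b3427 (R : VR) : s3427 R ≤ 127 :=
  VR.kes_b R

noncomputable def s3428 (R : VR) (i : ℕ) : ℕ :=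
  tx (VR.esT R) i

theorem e3428 (R : VR) : L (VR.S R) (VR.esT R) (s3428 R) 255 :=
  VR.es_is R

noncomputable def v3429 (R : VR) : ℕ :=
  srM (VR.N R) (VR.S R) (VR.o1 R) (VR.esT R)

noncomputable def s3429 (R : VR) (j i : ℕ) : ℕ :=
  (s3428 R j)

theorem e3429 (R : VR) : L2 R (v3429 R) (s3429 R) 255 :=
  L2.row (e3428 R)

noncomputable def v3430 (R : VR) : ℕ :=
  Nat.shiftRight (Nat.land (Nat.sub (VR.h2 R) (Nat.xor (v12 R) (v3429 R))) (VR.h2 R)) (nat_lit 15)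

noncomputable def s3430 (R : VR) (j i : ℕ) : Bool :=
  Nat.beq (s12 R j i) (s3429 R j i)

theorem e3430 (R : VR) : B2 R (v3430 R) (s3430 R) :=
  L.beq (VR.h2e R) (e12 R) (e3429 R)

noncomputable def v3431 (R : VR) : ℕ :=
  Nat.shiftRight (Nat.land (Nat.add (Nat.mod (Nat.land (Nat.shiftRight (Nat.land (Nat.sub (VR.h2
    R) (Nat.xor (v12 R) (v3429 R))) (VR.h2 R)) (nat_lit 15)) (mM (Nat.mul (v3427 R) (VR.S R))))
    (VR.m1 R)) (VR.k1 R)) (VR.h1 R)) (nat_lit 15)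

noncomputable def s3431 (R : VR) (i : ℕ) : Bool :=
  K.bnot (K.allN (s3427 R) (fun j => K.bnot (s3430 R j i)))

theorem e3431 (R : VR) : B (VR.S R) (v3431 R) (s3431 R) :=
  B.any (e3430 R) (VR.kes_le R)

noncomputable def s3432 (R : VR) (i : ℕ) : Bool :=
  K.lmem i (FC7.XE.es (K.Fc_XX (VR.F R)))

theorem e3432 (R : VR) : B (VR.S R) (v3431 R) (s3432 R) :=
  B.of_eq (e3431 R) (fun i _ => (lmem_lst (VR.kes R) (VR.esT R) i).symm)

noncomputable def v3433 (R : VR) : ℕ :=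
  Nat.lor (v1135 R) (Nat.shiftRight (Nat.land (Nat.add (Nat.mod (Nat.land (Nat.shiftRight
    (Nat.land (Nat.sub (VR.h2 R) (Nat.xor (v12 R) (v3429 R))) (VR.h2 R)) (nat_lit 15)) (mM
    (Nat.mul (v3427 R) (VR.S R)))) (VR.m1 R)) (VR.k1 R)) (VR.h1 R)) (nat_lit 15))

noncomputable def s3433 (R : VR) (i : ℕ) : Bool :=
  K.bor (s1135 R i) (s3432 R i)

theorem e3433 (R : VR) : B (VR.S R) (v3433 R) (s3433 R) :=
  B.or (e1135 R) (e3432 R)

noncomputable def v3434 (R : VR) : ℕ :=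
  Nat.mul (VR.alT R) (VR.cr1 R)

noncomputable def s3434 (R : VR) (j i : ℕ) : ℕ :=
  (s174 R i)

theorem e3434 (R : VR) : L2 R (v3434 R) (s3434 R) 255 :=
  L2.rep (e174 R)

noncomputable def v3435 (R : VR) : ℕ :=
  Nat.shiftRight (Nat.land (Nat.sub (VR.h2 R) (Nat.xor (v3434 R) (v3429 R))) (VR.h2 R)) (nat_lit
    15)

noncomputable def s3435 (R : VR) (j i : ℕ) : Bool :=
  Nat.beq (s3434 R j i) (s3429 R j i)

theorem e3435 (R : VR) : B2 R (v3435 R) (s3435 R) :=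
  L.beq (VR.h2e R) (e3434 R) (e3429 R)

noncomputable def v3436 (R : VR) : ℕ :=
  Nat.shiftRight (Nat.land (Nat.add (Nat.mod (Nat.land (Nat.shiftRight (Nat.land (Nat.sub (VR.h2
    R) (Nat.xor (v3434 R) (v3429 R))) (VR.h2 R)) (nat_lit 15)) (mM (Nat.mul (v3427 R) (VR.S R))))
    (VR.m1 R)) (VR.k1 R)) (VR.h1 R)) (nat_lit 15)

noncomputable def s3436 (R : VR) (i : ℕ) : Bool :=
  K.bnot (K.allN (s3427 R) (fun j => K.bnot (s3435 R j i)))

theorem e3436 (R : VR) : B (VR.S R) (v3436 R) (s3436 R) :=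
  B.any (e3435 R) (VR.kes_le R)

noncomputable def s3437 (R : VR) (i : ℕ) : Bool :=
  K.lmem (s174 R i) (FC7.XE.es (K.Fc_XX (VR.F R)))

theorem e3437 (R : VR) : B (VR.S R) (v3436 R) (s3437 R) :=
  B.of_eq (e3436 R) (fun i _ => (lmem_lst (VR.kes R) (VR.esT R) (s174 R i)).symm)

noncomputable def v3438 (R : VR) : ℕ :=
  Nat.lor (Nat.lor (v1135 R) (Nat.shiftRight (Nat.land (Nat.add (Nat.mod (Nat.land (Nat.shiftRight
    (Nat.land (Nat.sub (VR.h2 R) (Nat.xor (v12 R) (v3429 R))) (VR.h2 R)) (nat_lit 15)) (mM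
    (Nat.mul (v3427 R) (VR.S R)))) (VR.m1 R)) (VR.k1 R)) (VR.h1 R)) (nat_lit 15))) (Nat.shiftRight
    (Nat.land (Nat.add (Nat.mod (Nat.land (Nat.shiftRight (Nat.land (Nat.sub (VR.h2 R) (Nat.xor
    (v3434 R) (v3429 R))) (VR.h2 R)) (nat_lit 15)) (mM (Nat.mul (v3427 R) (VR.S R)))) (VR.m1 R))
    (VR.k1 R)) (VR.h1 R)) (nat_lit 15))

noncomputable def s3438 (R : VR) (i : ℕ) : Bool :=
  K.bor (s3433 R i) (s3437 R i)

theorem e3438 (R : VR) : B (VR.S R) (v3438 R) (s3438 R) :=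
  B.or (e3433 R) (e3437 R)

noncomputable def v3439 (R : VR) : ℕ :=
  VR.kesp R

noncomputable def s3439 (R : VR) : ℕ :=
  VR.kesp R

theorem e3439 (R : VR) : (v3439 R) = s3439 R :=
  rfl

theorem b3439 (R : VR) : s3439 R ≤ 127 :=
  VR.kesp_b R

noncomputable def s3440 (R : VR) (i : ℕ) : ℕ :=
  tx (VR.espT R) i

theorem e3440 (R : VR) : L (VR.S R) (VR.espT R) (s3440 R) 255 :=
  VR.esp_is R

noncomputable def v3441 (R : VR) : ℕ :=
  srM (VR.N R) (VR.S R) (VR.o1 R) (VR.espT R)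

noncomputable def s3441 (R : VR) (j i : ℕ) : ℕ :=
  (s3440 R j)

theorem e3441 (R : VR) : L2 R (v3441 R) (s3441 R) 255 :=
  L2.row (e3440 R)

noncomputable def v3442 (R : VR) : ℕ :=
  Nat.shiftRight (Nat.land (Nat.sub (VR.h2 R) (Nat.xor (v12 R) (v3441 R))) (VR.h2 R)) (nat_lit 15)

noncomputable def s3442 (R : VR) (j i : ℕ) : Bool :=
  Nat.beq (s12 R j i) (s3441 R j i)

theorem e3442 (R : VR) : B2 R (v3442 R) (s3442 R) :=
  L.beq (VR.h2e R) (e12 R) (e3441 R)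

noncomputable def v3443 (R : VR) : ℕ :=
  Nat.shiftRight (Nat.land (Nat.add (Nat.mod (Nat.land (Nat.shiftRight (Nat.land (Nat.sub (VR.h2
    R) (Nat.xor (v12 R) (v3441 R))) (VR.h2 R)) (nat_lit 15)) (mM (Nat.mul (v3439 R) (VR.S R))))
    (VR.m1 R)) (VR.k1 R)) (VR.h1 R)) (nat_lit 15)

noncomputable def s3443 (R : VR) (i : ℕ) : Bool :=
  K.bnot (K.allN (s3439 R) (fun j => K.bnot (s3442 R j i)))

theorem e3443 (R : VR) : B (VR.S R) (v3443 R) (s3443 R) :=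
  B.any (e3442 R) (VR.kesp_le R)

noncomputable def s3444 (R : VR) (i : ℕ) : Bool :=
  K.lmem i (FC7.XE.es' (K.Fc_XX (VR.F R)))

theorem e3444 (R : VR) : B (VR.S R) (v3443 R) (s3444 R) :=
  B.of_eq (e3443 R) (fun i _ => (lmem_lst (VR.kesp R) (VR.espT R) i).symm)

noncomputable def v3445 (R : VR) : ℕ :=
  Nat.lor (v1600 R) (v3443 R)

noncomputable def s3445 (R : VR) (i : ℕ) : Bool :=
  K.bor (s1600 R i) (s3444 R i)

theorem e3445 (R : VR) : B (VR.S R) (v3445 R) (s3445 R) :=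
  B.or (e1600 R) (e3444 R)

noncomputable def v3446 (R : VR) : ℕ :=
  Nat.shiftRight (Nat.land (Nat.sub (VR.h2 R) (Nat.xor (v3434 R) (v3441 R))) (VR.h2 R)) (nat_lit
    15)

noncomputable def s3446 (R : VR) (j i : ℕ) : Bool :=
  Nat.beq (s3434 R j i) (s3441 R j i)

theorem e3446 (R : VR) : B2 R (v3446 R) (s3446 R) :=
  L.beq (VR.h2e R) (e3434 R) (e3441 R)

noncomputable def v3447 (R : VR) : ℕ :=
  Nat.shiftRight (Nat.land (Nat.add (Nat.mod (Nat.land (Nat.shiftRight (Nat.land (Nat.sub (VR.h2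
    R) (Nat.xor (v3434 R) (v3441 R))) (VR.h2 R)) (nat_lit 15)) (mM (Nat.mul (v3439 R) (VR.S R))))
    (VR.m1 R)) (VR.k1 R)) (VR.h1 R)) (nat_lit 15)

noncomputable def s3447 (R : VR) (i : ℕ) : Bool :=
  K.bnot (K.allN (s3439 R) (fun j => K.bnot (s3446 R j i)))

theorem e3447 (R : VR) : B (VR.S R) (v3447 R) (s3447 R) :=
  B.any (e3446 R) (VR.kesp_le R)

noncomputable def s3448 (R : VR) (i : ℕ) : Bool :=
  K.lmem (s174 R i) (FC7.XE.es' (K.Fc_XX (VR.F R)))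

theorem e3448 (R : VR) : B (VR.S R) (v3447 R) (s3448 R) :=
  B.of_eq (e3447 R) (fun i _ => (lmem_lst (VR.kesp R) (VR.espT R) (s174 R i)).symm)

noncomputable def v3449 (R : VR) : ℕ :=
  Nat.lor (Nat.lor (v1600 R) (v3443 R)) (v3447 R)

noncomputable def s3449 (R : VR) (i : ℕ) : Bool :=
  K.bor (s3445 R i) (s3448 R i)

theorem e3449 (R : VR) : B (VR.S R) (v3449 R) (s3449 R) :=
  B.or (e3445 R) (e3448 R)

noncomputable def v3450 (R : VR) : ℕ :=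
  Nat.land (v3438 R) (Nat.lor (Nat.lor (v1600 R) (v3443 R)) (v3447 R))

noncomputable def s3450 (R : VR) (i : ℕ) : Bool :=
  K.band (s3438 R i) (s3449 R i)

theorem e3450 (R : VR) : B (VR.S R) (v3450 R) (s3450 R) :=
  B.and (e3438 R) (e3449 R)

noncomputable def v3451 (R : VR) : ℕ :=
  Nat.xor (v3450 R) (Nat.land (Nat.xor (v3450 R) (Nat.land (Nat.land (Nat.land (Nat.land (Nat.land
    (v3418 R) (v3420 R)) (v1611 R)) (v1613 R)) (v861 R)) (v3425 R))) (v192 R))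

noncomputable def s3451 (R : VR) (i : ℕ) : Bool :=
  Bool.rec (motive := fun _ => Bool) (s3450 R i) (s3426 R i) (s192 R i)

theorem e3451 (R : VR) : B (VR.S R) (v3451 R) (s3451 R) :=
  B.sel (e192 R) (e3426 R) (e3450 R)

noncomputable def v3452 (R : VR) : ℕ :=
  Nat.land (Nat.land (Nat.land (v3387 R) (v3391 R)) (v3411 R)) (Nat.xor (v3450 R) (Nat.land
    (Nat.xor (v3450 R) (Nat.land (Nat.land (Nat.land (Nat.land (Nat.land (v3418 R) (v3420 R))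
    (v1611 R)) (v1613 R)) (v861 R)) (v3425 R))) (v192 R)))

noncomputable def s3452 (R : VR) (i : ℕ) : Bool :=
  K.band (s3412 R i) (s3451 R i)

theorem e3452 (R : VR) : B (VR.S R) (v3452 R) (s3452 R) :=
  B.and (e3412 R) (e3451 R)

noncomputable def v3453 (R : VR) : Bool :=
  Nat.beq (Nat.land (Nat.sub (VR.o1 R) (Nat.land (Nat.land (Nat.land (v3387 R) (v3391 R)) (v3411
    R)) (Nat.xor (v3450 R) (Nat.land (Nat.xor (v3450 R) (Nat.land (Nat.land (Nat.land (Nat.land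
    (Nat.land (v3418 R) (v3420 R)) (v1611 R)) (v1613 R)) (v861 R)) (v3425 R))) (v192 R))))) (mM
    (v112 R))) (nat_lit 0)

noncomputable def s3453 (R : VR) : Bool :=
  K.allN (s112 R) (s3452 R)

theorem e3453 (R : VR) : (v3453 R) = s3453 R :=
  all0 (e3452 R) (VR.n_le R)

noncomputable def s3454 (R : VR) : Bool :=
  K.allN (s112 R) (fun (x107 : ℕ) => (K.band (K.band (K.band (K.band (K.band (K.band (K.band
    (K.band (K.band (K.band (K.band (K.band (K.band (K.bor (K.bnot (FC6.Pa.real (VR.P R) x107))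
    (K.band (Nat.ble (Nat.succ (FC6.Pa.l (VR.P R) x107)) (Nat.add (FC7.XE.x (K.Fc_XX (VR.F R)))
    (FC7.XE.k (K.Fc_XX (VR.F R))))) (Nat.ble (Nat.succ (FC6.Pa.l (VR.P R) (FC6.Pa.φ (VR.P R)
    x107))) (Nat.add (FC7.XE.x (K.Fc_XX (VR.F R))) (FC7.XE.k (K.Fc_XX (VR.F R))))))) (K.bor
    (K.bnot (FC6.Pa.real (VR.P' R) x107)) (K.band (Nat.ble (Nat.succ (FC6.Pa.l (VR.P' R) x107))
    (Nat.add (FC7.XE.x (K.Fc_XX (VR.F R))) (FC7.XE.k (K.Fc_XX (VR.F R))))) (Nat.ble (Nat.succ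
    (FC6.Pa.l (VR.P' R) (FC6.Pa.φ (VR.P' R) x107))) (Nat.add (FC7.XE.x (K.Fc_XX (VR.F R)))
    (FC7.XE.k (K.Fc_XX (VR.F R)))))))) (K.beqB (FC6.Pa.real (VR.P R) (FC6.Pa.α (VR.P R) x107))
    (FC6.Pa.real (VR.P R) x107))) (K.beqB (FC6.Pa.real (VR.P' R) (FC6.Pa.α (VR.P R) x107))
    (FC6.Pa.real (VR.P' R) x107))) (Nat.beq (FC7.XE.ce (K.Fc_XX (VR.F R)) (FC6.Pa.φ (VR.P R)
    x107)) (FC7.XE.ce (K.Fc_XX (VR.F R)) x107))) (Nat.beq (FC7.XE.ce' (K.Fc_XX (VR.F R)) (FC6.Pa.φ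
    (VR.P' R) x107)) (FC7.XE.ce' (K.Fc_XX (VR.F R)) x107))) (K.bor (FC6.Pa.real (VR.P R) x107)
    (Nat.beq (FC7.XE.ce (K.Fc_XX (VR.F R)) (FC6.Pa.α (VR.P R) x107)) (FC7.XE.ce (K.Fc_XX (VR.F R))
    x107)))) (K.bor (FC6.Pa.real (VR.P' R) x107) (Nat.beq (FC7.XE.ce' (K.Fc_XX (VR.F R)) (FC6.Pa.α
    (VR.P R) x107)) (FC7.XE.ce' (K.Fc_XX (VR.F R)) x107)))) (K.tbit (FC7.XE.st' (K.Fc_XX (VR.F R))
    (FC6.Pa.l (VR.P' R) x107)) (FC7.XE.ce' (K.Fc_XX (VR.F R)) x107))) (Nat.ble (Nat.succ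
    (FC7.XE.cr (K.Fc_XX (VR.F R)) (FC7.XE.ce (K.Fc_XX (VR.F R)) x107))) (FC6.Pa.n (VR.P R))))
    (K.bor (Nat.beq x107 (FC7.XE.cr (K.Fc_XX (VR.F R)) (FC7.XE.ce (K.Fc_XX (VR.F R)) x107)))
    (K.band (K.band (K.band (Nat.ble (Nat.succ (FC7.XE.pk (K.Fc_XX (VR.F R)) (FC7.XE.pa (K.Fc_XX
    (VR.F R)) x107))) (FC7.XE.pk (K.Fc_XX (VR.F R)) x107)) (Nat.ble (Nat.succ (FC7.XE.pa (K.Fc_XX
    (VR.F R)) x107)) (FC6.Pa.n (VR.P R)))) (Nat.beq (FC7.XE.ce (K.Fc_XX (VR.F R)) (FC7.XE.pa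
    (K.Fc_XX (VR.F R)) x107)) (FC7.XE.ce (K.Fc_XX (VR.F R)) x107))) (K.bor (Nat.beq (FC7.XE.pa
    (K.Fc_XX (VR.F R)) x107) (FC6.Pa.φ (VR.P R) x107)) (K.band (K.band (K.bnot (Nat.beq (FC6.Pa.α
    (VR.P R) x107) x107)) (K.bnot (FC6.Pa.real (VR.P R) x107))) (Nat.beq (FC7.XE.pa (K.Fc_XX (VR.F
    R)) x107) (FC6.Pa.α (VR.P R) x107))))))) (Nat.ble (Nat.succ (FC7.XE.cr' (K.Fc_XX (VR.F R))
    (FC7.XE.ce' (K.Fc_XX (VR.F R)) x107))) (FC6.Pa.n (VR.P R)))) (K.bor (Nat.beq x107 (FC7.XE.cr'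
    (K.Fc_XX (VR.F R)) (FC7.XE.ce' (K.Fc_XX (VR.F R)) x107))) (K.band (K.band (K.band (Nat.ble
    (Nat.succ (FC7.XE.pk' (K.Fc_XX (VR.F R)) (FC7.XE.pa' (K.Fc_XX (VR.F R)) x107))) (FC7.XE.pk'
    (K.Fc_XX (VR.F R)) x107)) (Nat.ble (Nat.succ (FC7.XE.pa' (K.Fc_XX (VR.F R)) x107)) (FC6.Pa.n
    (VR.P R)))) (Nat.beq (FC7.XE.ce' (K.Fc_XX (VR.F R)) (FC7.XE.pa' (K.Fc_XX (VR.F R)) x107))
    (FC7.XE.ce' (K.Fc_XX (VR.F R)) x107))) (K.bor (Nat.beq (FC7.XE.pa' (K.Fc_XX (VR.F R)) x107)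
    (FC6.Pa.φ (VR.P' R) x107)) (K.band (K.band (K.bnot (Nat.beq (FC6.Pa.α (VR.P R) x107) x107))
    (K.bnot (FC6.Pa.real (VR.P' R) x107))) (Nat.beq (FC7.XE.pa' (K.Fc_XX (VR.F R)) x107) (FC6.Pa.α
    (VR.P R) x107))))))) (Bool.rec (motive := fun _ => Bool) (K.band (K.bor (K.bor (K.bnot
    (FC6.Pa.real (VR.P R) x107)) (K.lmem x107 (FC7.XE.es (K.Fc_XX (VR.F R))))) (K.lmem (FC6.Pa.α
    (VR.P R) x107) (FC7.XE.es (K.Fc_XX (VR.F R))))) (K.bor (K.bor (K.bnot (FC6.Pa.real (VR.P' R)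
    x107)) (K.lmem x107 (FC7.XE.es' (K.Fc_XX (VR.F R))))) (K.lmem (FC6.Pa.α (VR.P R) x107)
    (FC7.XE.es' (K.Fc_XX (VR.F R)))))) (K.band (K.band (K.band (K.band (K.band (K.lmem x107
    (FC7.XE.rs (K.Fc_XX (VR.F R)))) (K.beqB (FC6.Pa.real (VR.P' R) x107) (FC6.Pa.real (VR.P R)
    x107))) (Nat.beq (FC6.Pa.l (VR.P' R) x107) (FC6.Pa.l (VR.P R) x107))) (Nat.beq (FC6.Pa.l
    (VR.P' R) (FC6.Pa.φ (VR.P' R) x107)) (FC6.Pa.l (VR.P R) (FC6.Pa.φ (VR.P R) x107)))) (Nat.ble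
    (FC7.XE.x (K.Fc_XX (VR.F R))) (FC6.Pa.l (VR.P R) x107))) (Nat.ble (FC7.XE.x (K.Fc_XX (VR.F
    R))) (FC6.Pa.l (VR.P R) (FC6.Pa.φ (VR.P R) x107)))) (Nat.beq (FC6.Pa.α (VR.P R) x107) x107))))

theorem e3454 (R : VR) : (v3453 R) = s3454 R :=
  e3453 R

noncomputable def v3455 (R : VR) : ℕ :=
  Nat.shiftRight (Nat.land (Nat.sub (Nat.add (v172 R) (VR.k1 R)) (VR.esT R)) (VR.h1 R)) (nat_lit
    15)

noncomputable def s3455 (R : VR) (i : ℕ) : Bool :=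
  Nat.ble (Nat.succ (s3428 R i)) (s172 R i)

theorem e3455 (R : VR) : B (VR.S R) (v3455 R) (s3455 R) :=
  L.blt (VR.h1e R) (VR.k1e R) (e3428 R) (e172 R)

noncomputable def v3456 (R : VR) : ℕ :=
  gmk (VR.h2 R) (VR.J R) (Nat.mul (VR.esT R) (VR.cr1 R))

noncomputable def v3457 (R : VR) : ℕ :=
  Nat.mod (Nat.land (gmk (VR.h2 R) (VR.J R) (Nat.mul (VR.esT R) (VR.cr1 R))) (v188 R)) (VR.m1 R)

noncomputable def s3457 (R : VR) (i : ℕ) : ℕ :=
  tx (VR.alT R) (s3428 R i)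

theorem e3457 (R : VR) : L (VR.S R) (v3457 R) (s3457 R) 255 :=
  L.gat (e3428 R) (VR.al_is R) (VR.al_lt R) (VR.al_le R)

noncomputable def v3458 (R : VR) : ℕ :=
  Nat.shiftRight (Nat.land (Nat.sub (VR.h1 R) (Nat.xor (Nat.mod (Nat.land (gmk (VR.h2 R) (VR.J R)
    (Nat.mul (VR.esT R) (VR.cr1 R))) (v188 R)) (VR.m1 R)) (VR.esT R))) (VR.h1 R)) (nat_lit 15)

noncomputable def s3458 (R : VR) (i : ℕ) : Bool :=
  Nat.beq (s3457 R i) (s3428 R i)

theorem e3458 (R : VR) : B (VR.S R) (v3458 R) (s3458 R) :=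
  L.beq (VR.h1e R) (e3457 R) (e3428 R)

noncomputable def v3459 (R : VR) : ℕ :=
  Nat.sub (VR.o1 R) (Nat.shiftRight (Nat.land (Nat.sub (VR.h1 R) (Nat.xor (Nat.mod (Nat.land (gmk
    (VR.h2 R) (VR.J R) (Nat.mul (VR.esT R) (VR.cr1 R))) (v188 R)) (VR.m1 R)) (VR.esT R))) (VR.h1
    R)) (nat_lit 15))

noncomputable def s3459 (R : VR) (i : ℕ) : Bool :=
  K.bnot (s3458 R i)

theorem e3459 (R : VR) : B (VR.S R) (v3459 R) (s3459 R) :=
  B.not (VR.o1e R) (e3458 R)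

noncomputable def v3460 (R : VR) : ℕ :=
  Nat.land (Nat.shiftRight (Nat.land (Nat.sub (Nat.add (v172 R) (VR.k1 R)) (VR.esT R)) (VR.h1 R))
    (nat_lit 15)) (Nat.sub (VR.o1 R) (Nat.shiftRight (Nat.land (Nat.sub (VR.h1 R) (Nat.xor
    (Nat.mod (Nat.land (gmk (VR.h2 R) (VR.J R) (Nat.mul (VR.esT R) (VR.cr1 R))) (v188 R)) (VR.m1
    R)) (VR.esT R))) (VR.h1 R)) (nat_lit 15)))

noncomputable def s3460 (R : VR) (i : ℕ) : Bool :=
  K.band (s3455 R i) (s3459 R i)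

theorem e3460 (R : VR) : B (VR.S R) (v3460 R) (s3460 R) :=
  B.and (e3455 R) (e3459 R)

noncomputable def v3461 (R : VR) : Bool :=
  Nat.beq (Nat.land (Nat.sub (VR.o1 R) (Nat.land (Nat.shiftRight (Nat.land (Nat.sub (Nat.add (v172
    R) (VR.k1 R)) (VR.esT R)) (VR.h1 R)) (nat_lit 15)) (Nat.sub (VR.o1 R) (Nat.shiftRight
    (Nat.land (Nat.sub (VR.h1 R) (Nat.xor (Nat.mod (Nat.land (gmk (VR.h2 R) (VR.J R) (Nat.mul
    (VR.esT R) (VR.cr1 R))) (v188 R)) (VR.m1 R)) (VR.esT R))) (VR.h1 R)) (nat_lit 15))))) (mM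
    (v3427 R))) (nat_lit 0)

noncomputable def s3461 (R : VR) : Bool :=
  K.allN (s3427 R) (s3460 R)

theorem e3461 (R : VR) : (v3461 R) = s3461 R :=
  all0 (e3460 R) (VR.kes_le R)

noncomputable def s3462 (R : VR) : Bool :=
  K.lall (FC7.XE.es (K.Fc_XX (VR.F R))) (fun (x108 : ℕ) => (K.band (Nat.ble (Nat.succ x108)
    (FC6.Pa.n (VR.P R))) (K.bnot (Nat.beq (FC6.Pa.α (VR.P R) x108) x108))))

theorem e3462 (R : VR) : (v3461 R) = s3462 R :=
  (e3461 R).trans (lall_lst (VR.kes R) (VR.esT R) (fun (x109 : ℕ) => (K.band (Nat.ble (Nat.succ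
    x109) (FC6.Pa.n (VR.P R))) (K.bnot (Nat.beq (FC6.Pa.α (VR.P R) x109) x109))))).symm

noncomputable def v3463 (R : VR) : Bool :=
  K.band (Nat.beq (Nat.land (Nat.sub (VR.o1 R) (Nat.land (Nat.land (Nat.land (v3387 R) (v3391 R))
    (v3411 R)) (Nat.xor (v3450 R) (Nat.land (Nat.xor (v3450 R) (Nat.land (Nat.land (Nat.land
    (Nat.land (Nat.land (v3418 R) (v3420 R)) (v1611 R)) (v1613 R)) (v861 R)) (v3425 R))) (v192
    R))))) (mM (v112 R))) (nat_lit 0)) (v3461 R)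

noncomputable def s3463 (R : VR) : Bool :=
  K.band (s3454 R) (s3462 R)

theorem e3463 (R : VR) : (v3463 R) = s3463 R :=
  congrArg₂ K.band (e3454 R) (e3462 R)

noncomputable def v3464 (R : VR) : ℕ :=
  Nat.shiftRight (Nat.land (Nat.sub (Nat.add (v172 R) (VR.k1 R)) (VR.espT R)) (VR.h1 R)) (nat_lit
    15)

noncomputable def s3464 (R : VR) (i : ℕ) : Bool :=
  Nat.ble (Nat.succ (s3440 R i)) (s172 R i)

theorem e3464 (R : VR) : B (VR.S R) (v3464 R) (s3464 R) :=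
  L.blt (VR.h1e R) (VR.k1e R) (e3440 R) (e172 R)

noncomputable def v3465 (R : VR) : ℕ :=
  gmk (VR.h2 R) (VR.J R) (Nat.mul (VR.espT R) (VR.cr1 R))

noncomputable def v3466 (R : VR) : ℕ :=
  Nat.mod (Nat.land (gmk (VR.h2 R) (VR.J R) (Nat.mul (VR.espT R) (VR.cr1 R))) (v188 R)) (VR.m1 R)

noncomputable def s3466 (R : VR) (i : ℕ) : ℕ :=
  tx (VR.alT R) (s3440 R i)

theorem e3466 (R : VR) : L (VR.S R) (v3466 R) (s3466 R) 255 :=
  L.gat (e3440 R) (VR.al_is R) (VR.al_lt R) (VR.al_le R)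

noncomputable def v3467 (R : VR) : ℕ :=
  Nat.shiftRight (Nat.land (Nat.sub (VR.h1 R) (Nat.xor (Nat.mod (Nat.land (gmk (VR.h2 R) (VR.J R)
    (Nat.mul (VR.espT R) (VR.cr1 R))) (v188 R)) (VR.m1 R)) (VR.espT R))) (VR.h1 R)) (nat_lit 15)

noncomputable def s3467 (R : VR) (i : ℕ) : Bool :=
  Nat.beq (s3466 R i) (s3440 R i)

theorem e3467 (R : VR) : B (VR.S R) (v3467 R) (s3467 R) :=
  L.beq (VR.h1e R) (e3466 R) (e3440 R)

noncomputable def v3468 (R : VR) : ℕ :=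
  Nat.sub (VR.o1 R) (Nat.shiftRight (Nat.land (Nat.sub (VR.h1 R) (Nat.xor (Nat.mod (Nat.land (gmk
    (VR.h2 R) (VR.J R) (Nat.mul (VR.espT R) (VR.cr1 R))) (v188 R)) (VR.m1 R)) (VR.espT R))) (VR.h1
    R)) (nat_lit 15))

noncomputable def s3468 (R : VR) (i : ℕ) : Bool :=
  K.bnot (s3467 R i)

theorem e3468 (R : VR) : B (VR.S R) (v3468 R) (s3468 R) :=
  B.not (VR.o1e R) (e3467 R)

noncomputable def v3469 (R : VR) : ℕ :=
  Nat.land (Nat.shiftRight (Nat.land (Nat.sub (Nat.add (v172 R) (VR.k1 R)) (VR.espT R)) (VR.h1 R))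
    (nat_lit 15)) (Nat.sub (VR.o1 R) (Nat.shiftRight (Nat.land (Nat.sub (VR.h1 R) (Nat.xor
    (Nat.mod (Nat.land (gmk (VR.h2 R) (VR.J R) (Nat.mul (VR.espT R) (VR.cr1 R))) (v188 R)) (VR.m1
    R)) (VR.espT R))) (VR.h1 R)) (nat_lit 15)))

noncomputable def s3469 (R : VR) (i : ℕ) : Bool :=
  K.band (s3464 R i) (s3468 R i)

theorem e3469 (R : VR) : B (VR.S R) (v3469 R) (s3469 R) :=
  B.and (e3464 R) (e3468 R)

noncomputable def v3470 (R : VR) : Bool :=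
  Nat.beq (Nat.land (Nat.sub (VR.o1 R) (Nat.land (Nat.shiftRight (Nat.land (Nat.sub (Nat.add (v172
    R) (VR.k1 R)) (VR.espT R)) (VR.h1 R)) (nat_lit 15)) (Nat.sub (VR.o1 R) (Nat.shiftRight
    (Nat.land (Nat.sub (VR.h1 R) (Nat.xor (Nat.mod (Nat.land (gmk (VR.h2 R) (VR.J R) (Nat.mul
    (VR.espT R) (VR.cr1 R))) (v188 R)) (VR.m1 R)) (VR.espT R))) (VR.h1 R)) (nat_lit 15))))) (mM
    (v3439 R))) (nat_lit 0)

noncomputable def s3470 (R : VR) : Bool :=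
  K.allN (s3439 R) (s3469 R)

theorem e3470 (R : VR) : (v3470 R) = s3470 R :=
  all0 (e3469 R) (VR.kesp_le R)

noncomputable def s3471 (R : VR) : Bool :=
  K.lall (FC7.XE.es' (K.Fc_XX (VR.F R))) (fun (x110 : ℕ) => (K.band (Nat.ble (Nat.succ x110)
    (FC6.Pa.n (VR.P R))) (K.bnot (Nat.beq (FC6.Pa.α (VR.P R) x110) x110))))

theorem e3471 (R : VR) : (v3470 R) = s3471 R :=
  (e3470 R).trans (lall_lst (VR.kesp R) (VR.espT R) (fun (x111 : ℕ) => (K.band (Nat.ble (Nat.succ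
    x111) (FC6.Pa.n (VR.P R))) (K.bnot (Nat.beq (FC6.Pa.α (VR.P R) x111) x111))))).symm

noncomputable def v3472 (R : VR) : Bool :=
  K.band (K.band (Nat.beq (Nat.land (Nat.sub (VR.o1 R) (Nat.land (Nat.land (Nat.land (v3387 R)
    (v3391 R)) (v3411 R)) (Nat.xor (v3450 R) (Nat.land (Nat.xor (v3450 R) (Nat.land (Nat.land
    (Nat.land (Nat.land (Nat.land (v3418 R) (v3420 R)) (v1611 R)) (v1613 R)) (v861 R)) (v3425 R)))
    (v192 R))))) (mM (v112 R))) (nat_lit 0)) (v3461 R)) (v3470 R)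

noncomputable def s3472 (R : VR) : Bool :=
  K.band (s3463 R) (s3471 R)

theorem e3472 (R : VR) : (v3472 R) = s3472 R :=
  congrArg₂ K.band (e3463 R) (e3471 R)

noncomputable def v3473 (R : VR) : ℕ :=
  Nat.land (v1319 R) (v1323 R)

noncomputable def s3473 (R : VR) (i : ℕ) : Bool :=
  K.band (s1319 R i) (s1323 R i)

theorem e3473 (R : VR) : B (VR.S R) (v3473 R) (s3473 R) :=
  B.and (e1319 R) (e1323 R)

noncomputable def v3474 (R : VR) : ℕ :=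
  gmk (VR.h2 R) (VR.J R) (Nat.mul (VR.ar2T R) (VR.cr1 R))

noncomputable def v3475 (R : VR) : ℕ :=
  Nat.mod (Nat.land (v3474 R) (v188 R)) (VR.m1 R)

noncomputable def s3475 (R : VR) (i : ℕ) : ℕ :=
  tx (VR.alT R) (s1313 R i)

theorem e3475 (R : VR) : L (VR.S R) (v3475 R) (s3475 R) 255 :=
  L.gat (e1313 R) (VR.al_is R) (VR.al_lt R) (VR.al_le R)

noncomputable def v3476 (R : VR) : ℕ :=
  Nat.shiftRight (Nat.land (Nat.sub (VR.h1 R) (Nat.xor (Nat.mod (Nat.land (v3474 R) (v188 R))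
    (VR.m1 R)) (VR.ar2T R))) (VR.h1 R)) (nat_lit 15)

noncomputable def s3476 (R : VR) (i : ℕ) : Bool :=
  Nat.beq (s3475 R i) (s1313 R i)

theorem e3476 (R : VR) : B (VR.S R) (v3476 R) (s3476 R) :=
  L.beq (VR.h1e R) (e3475 R) (e1313 R)

noncomputable def v3477 (R : VR) : ℕ :=
  Nat.land (v1320 R) (v3476 R)

noncomputable def s3477 (R : VR) (i : ℕ) : Bool :=
  K.band (s1320 R i) (s3476 R i)

theorem e3477 (R : VR) : B (VR.S R) (v3477 R) (s3477 R) :=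
  B.and (e1320 R) (e3476 R)

noncomputable def v3478 (R : VR) : ℕ :=
  Nat.land (Nat.land (v1319 R) (v1323 R)) (Nat.land (v1320 R) (v3476 R))

noncomputable def s3478 (R : VR) (i : ℕ) : Bool :=
  K.band (s3473 R i) (s3477 R i)

theorem e3478 (R : VR) : B (VR.S R) (v3478 R) (s3478 R) :=
  B.and (e3473 R) (e3477 R)

noncomputable def v3479 (R : VR) : Bool :=
  Nat.beq (Nat.land (Nat.sub (VR.o1 R) (Nat.land (Nat.land (v1319 R) (v1323 R)) (Nat.land (v1320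
    R) (v3476 R)))) (mM (v1311 R))) (nat_lit 0)

noncomputable def s3479 (R : VR) : Bool :=
  K.allN (s1311 R) (s3478 R)

theorem e3479 (R : VR) : (v3479 R) = s3479 R :=
  all0 (e3478 R) (VR.kar_le R)

noncomputable def s3480 (R : VR) : Bool :=
  K.lall (FC7.XE.rs (K.Fc_XX (VR.F R))) (fun (x112 : ℕ) => (K.band (Nat.ble (Nat.succ x112)
    (FC6.Pa.n (VR.P R))) (Nat.beq (FC6.Pa.α (VR.P R) x112) x112)))

theorem e3480 (R : VR) : (v3479 R) = s3480 R :=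
  (e3479 R).trans (lall_rs (VR.kar R) (VR.ar1T R) (VR.ar2T R) (fun (x113 : ℕ) => (K.band (Nat.ble
    (Nat.succ x113) (FC6.Pa.n (VR.P R))) (Nat.beq (FC6.Pa.α (VR.P R) x113) x113)))).symm

noncomputable def v3481 (R : VR) : Bool :=
  K.band (K.band (K.band (Nat.beq (Nat.land (Nat.sub (VR.o1 R) (Nat.land (Nat.land (Nat.land
    (v3387 R) (v3391 R)) (v3411 R)) (Nat.xor (v3450 R) (Nat.land (Nat.xor (v3450 R) (Nat.land
    (Nat.land (Nat.land (Nat.land (Nat.land (v3418 R) (v3420 R)) (v1611 R)) (v1613 R)) (v861 R))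
    (v3425 R))) (v192 R))))) (mM (v112 R))) (nat_lit 0)) (v3461 R)) (v3470 R)) (v3479 R)

noncomputable def s3481 (R : VR) : Bool :=
  K.band (s3472 R) (s3480 R)

theorem e3481 (R : VR) : (v3481 R) = s3481 R :=
  congrArg₂ K.band (e3472 R) (e3480 R)

noncomputable def s3482 (R : VR) (i : ℕ) : ℕ :=
  tx (VR.stT R) i

theorem e3482 (R : VR) : L (VR.S R) (VR.stT R) (s3482 R) 32767 :=
  VR.st_is R

noncomputable def v3483 (R : VR) : ℕ :=
  Nat.shiftRight (Nat.land (Nat.sub (VR.h2 R) (Nat.xor (v1137 R) (v12 R))) (VR.h2 R)) (nat_lit 15)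

noncomputable def s3483 (R : VR) (j i : ℕ) : Bool :=
  Nat.beq (s1137 R j i) (s12 R j i)

theorem e3483 (R : VR) : B2 R (v3483 R) (s3483 R) :=
  L.beq (VR.h2e R) (e1137 R) (e12 R)

noncomputable def v3484 (R : VR) : ℕ :=
  srM (VR.N R) (VR.S R) (VR.o1 R) (v1392 R)

noncomputable def s3484 (R : VR) (j i : ℕ) : ℕ :=
  (s1392 R j)

theorem e3484 (R : VR) : L2 R (v3484 R) (s3484 R) 16384 :=
  L2.row (e1392 R)

noncomputable def v3485 (R : VR) : ℕ :=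
  Nat.xor (v25 R) (Nat.land (Nat.xor (v25 R) (srM (VR.N R) (VR.S R) (VR.o1 R) (v1392 R))) (Nat.mul
    (v3483 R) (nat_lit 32767)))

noncomputable def s3485 (R : VR) (j i : ℕ) : ℕ :=
  Bool.rec (motive := fun _ => ℕ) (s25 R j i) (s3484 R j i) (s3483 R j i)

theorem e3485 (R : VR) : L2 R (v3485 R) (s3485 R) 16384 :=
  L.sel (e3483 R) (e3484 R) (e25 R) (by decide) (by decide) (by decide)

noncomputable def v3486 (R : VR) : ℕ :=
  orr (wM (VR.S R)) (VR.m1 R) (Nat.land (Nat.xor (v25 R) (Nat.land (Nat.xor (v25 R) (srM (VR.N R)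
    (VR.S R) (VR.o1 R) (v1392 R))) (Nat.mul (v3483 R) (nat_lit 32767)))) (mM (Nat.mul (v112 R)
    (VR.S R))))

noncomputable def s3486 (R : VR) (i : ℕ) : ℕ :=
  V2.orN (s112 R) (fun j => (s3485 R j i))

theorem e3486 (R : VR) : L (VR.S R) (v3486 R) (s3486 R) 32767 :=
  L.orr (e3485 R) (VR.n_le R)

noncomputable def s3487 (R : VR) (i : ℕ) : ℕ :=
  K.lfoldl (fun (x114 : ℕ) => (fun (x115 : ℕ) => (Bool.rec (motive := fun _ => ℕ) x114 (Nat.lor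
    x114 (Nat.pow (nat_lit 2) (FC7.XE.ce (K.Fc_XX (VR.F R)) x115))) (Nat.beq (FC6.Pa.l (VR.P R)
    x115) i)))) (nat_lit 0) (K.lrange (FC6.Pa.n (VR.P R)))

theorem e3487 (R : VR) : L (VR.S R) (v3486 R) (s3487 R) 32767 :=
  L.of_eq (e3486 R) (fun i _ => (fold_orN _ (fun i => (FC7.XE.ce (K.Fc_XX (VR.F R)) i)) (fun i =>
    (FC6.Pa.l (VR.P R) i)) (fun i => VR.ce_le R i) i).symm)

noncomputable def v3488 (R : VR) : ℕ :=
  Nat.shiftRight (Nat.land (Nat.sub (VR.h1 R) (Nat.xor (VR.stT R) (orr (wM (VR.S R)) (VR.m1 R)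
    (Nat.land (Nat.xor (v25 R) (Nat.land (Nat.xor (v25 R) (srM (VR.N R) (VR.S R) (VR.o1 R) (v1392
    R))) (Nat.mul (v3483 R) (nat_lit 32767)))) (mM (Nat.mul (v112 R) (VR.S R))))))) (VR.h1 R))
    (nat_lit 15)

noncomputable def s3488 (R : VR) (i : ℕ) : Bool :=
  Nat.beq (s3482 R i) (s3487 R i)

theorem e3488 (R : VR) : B (VR.S R) (v3488 R) (s3488 R) :=
  L.beq (VR.h1e R) (e3482 R) (e3487 R)

noncomputable def v3489 (R : VR) : Bool :=
  Nat.beq (Nat.land (Nat.sub (VR.o1 R) (Nat.shiftRight (Nat.land (Nat.sub (VR.h1 R) (Nat.xor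
    (VR.stT R) (orr (wM (VR.S R)) (VR.m1 R) (Nat.land (Nat.xor (v25 R) (Nat.land (Nat.xor (v25 R)
    (srM (VR.N R) (VR.S R) (VR.o1 R) (v1392 R))) (Nat.mul (v3483 R) (nat_lit 32767)))) (mM
    (Nat.mul (v112 R) (VR.S R))))))) (VR.h1 R)) (nat_lit 15))) (mM (v868 R))) (nat_lit 0)

noncomputable def s3489 (R : VR) : Bool :=
  K.allN (s868 R) (s3488 R)

theorem e3489 (R : VR) : (v3489 R) = s3489 R :=
  all0 (e3488 R) (VR.leN R (b868 R) (by decide))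

noncomputable def s3490 (R : VR) : Bool :=
  K.allN (s868 R) (fun (x116 : ℕ) => (Nat.beq (FC7.XE.st (K.Fc_XX (VR.F R)) x116) (K.lfoldl (fun
    (x117 : ℕ) => (fun (x118 : ℕ) => (Bool.rec (motive := fun _ => ℕ) x117 (Nat.lor x117 (Nat.pow
    (nat_lit 2) (FC7.XE.ce (K.Fc_XX (VR.F R)) x118))) (Nat.beq (FC6.Pa.l (VR.P R) x118) x116))))
    (nat_lit 0) (K.lrange (FC6.Pa.n (VR.P R))))))

theorem e3490 (R : VR) : (v3489 R) = s3490 R :=
  e3489 R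

noncomputable def v3491 (R : VR) : Bool :=
  K.band (K.band (K.band (K.band (Nat.beq (Nat.land (Nat.sub (VR.o1 R) (Nat.land (Nat.land
    (Nat.land (v3387 R) (v3391 R)) (v3411 R)) (Nat.xor (v3450 R) (Nat.land (Nat.xor (v3450 R)
    (Nat.land (Nat.land (Nat.land (Nat.land (Nat.land (v3418 R) (v3420 R)) (v1611 R)) (v1613 R))
    (v861 R)) (v3425 R))) (v192 R))))) (mM (v112 R))) (nat_lit 0)) (v3461 R)) (v3470 R)) (v3479
    R)) (v3489 R)

noncomputable def s3491 (R : VR) : Bool :=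
  K.band (s3481 R) (s3490 R)

theorem e3491 (R : VR) : (v3491 R) = s3491 R :=
  congrArg₂ K.band (e3481 R) (e3490 R)

noncomputable def v3492 (R : VR) : Bool :=
  true

noncomputable def s3492 (R : VR) : Bool :=
  K.leq (FC7.XE.rs (K.Fc_XX (VR.F R))) (K.lfmap K.ad (FC7.XE.ar (K.Fc_XX (VR.F R))))

theorem e3492 (R : VR) : (v3492 R) = s3492 R :=
  (leq_self _).symm

noncomputable def v3493 (R : VR) : Bool :=
  K.band (K.band (K.band (K.band (K.band (Nat.beq (Nat.land (Nat.sub (VR.o1 R) (Nat.land (Nat.land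
    (Nat.land (v3387 R) (v3391 R)) (v3411 R)) (Nat.xor (v3450 R) (Nat.land (Nat.xor (v3450 R)
    (Nat.land (Nat.land (Nat.land (Nat.land (Nat.land (v3418 R) (v3420 R)) (v1611 R)) (v1613 R))
    (v861 R)) (v3425 R))) (v192 R))))) (mM (v112 R))) (nat_lit 0)) (v3461 R)) (v3470 R)) (v3479
    R)) (v3489 R)) (true)

noncomputable def s3493 (R : VR) : Bool :=
  K.band (s3491 R) (s3492 R)

theorem e3493 (R : VR) : (v3493 R) = s3493 R :=
  congrArg₂ K.band (e3491 R) (e3492 R)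

noncomputable def v3494 (R : VR) : ℕ :=
  Nat.mod (Nat.land (v3474 R) (v877 R)) (VR.m1 R)

noncomputable def s3494 (R : VR) (i : ℕ) : Bool :=
  tf (VR.realT R) (s1313 R i)

theorem e3494 (R : VR) : B (VR.S R) (v3494 R) (s3494 R) :=
  B.gat (e1313 R) (VR.real_is R) (VR.real_lt R)

noncomputable def v3495 (R : VR) : ℕ :=
  Nat.sub (VR.o1 R) (Nat.mod (Nat.land (v3474 R) (v877 R)) (VR.m1 R))

noncomputable def s3495 (R : VR) (i : ℕ) : Bool :=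
  K.bnot (s3494 R i)

theorem e3495 (R : VR) : B (VR.S R) (v3495 R) (s3495 R) :=
  B.not (VR.o1e R) (e3494 R)

noncomputable def v3496 (R : VR) : ℕ :=
  Nat.land (v1328 R) (Nat.sub (VR.o1 R) (Nat.mod (Nat.land (v3474 R) (v877 R)) (VR.m1 R)))

noncomputable def s3496 (R : VR) (i : ℕ) : Bool :=
  K.band (s1328 R i) (s3495 R i)

theorem e3496 (R : VR) : B (VR.S R) (v3496 R) (s3496 R) :=
  B.and (e1328 R) (e3495 R)

noncomputable def v3497 (R : VR) : ℕ :=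
  Nat.mod (Nat.land (v3474 R) (v9 R)) (VR.m1 R)

noncomputable def s3497 (R : VR) (i : ℕ) : ℕ :=
  tx (VR.lT R) (s1313 R i)

theorem e3497 (R : VR) : L (VR.S R) (v3497 R) (s3497 R) 29 :=
  L.gat (e1313 R) (VR.l_is R) (VR.l_lt R) (VR.l_le R)

noncomputable def v3498 (R : VR) : ℕ :=
  Nat.shiftRight (Nat.land (Nat.sub (VR.h1 R) (Nat.xor (v1331 R) (Nat.mod (Nat.land (v3474 R) (v9
    R)) (VR.m1 R)))) (VR.h1 R)) (nat_lit 15)

noncomputable def s3498 (R : VR) (i : ℕ) : Bool :=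
  Nat.beq (s1331 R i) (s3497 R i)

theorem e3498 (R : VR) : B (VR.S R) (v3498 R) (s3498 R) :=
  L.beq (VR.h1e R) (e1331 R) (e3497 R)

noncomputable def v3499 (R : VR) : ℕ :=
  Nat.land (Nat.land (v1328 R) (Nat.sub (VR.o1 R) (Nat.mod (Nat.land (v3474 R) (v877 R)) (VR.m1
    R)))) (Nat.shiftRight (Nat.land (Nat.sub (VR.h1 R) (Nat.xor (v1331 R) (Nat.mod (Nat.land
    (v3474 R) (v9 R)) (VR.m1 R)))) (VR.h1 R)) (nat_lit 15))

noncomputable def s3499 (R : VR) (i : ℕ) : Bool :=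
  K.band (s3496 R i) (s3498 R i)

theorem e3499 (R : VR) : B (VR.S R) (v3499 R) (s3499 R) :=
  B.and (e3496 R) (e3498 R)

noncomputable def v3500 (R : VR) : ℕ :=
  Nat.mod (Nat.land (v1315 R) (v1246 R)) (VR.m1 R)

noncomputable def s3500 (R : VR) (i : ℕ) : ℕ :=
  tx (VR.ceT R) (s1312 R i)

theorem e3500 (R : VR) : L (VR.S R) (v3500 R) (s3500 R) 14 :=
  L.gat (e1312 R) (VR.ce_is R) (VR.ce_lt R) (VR.ce_le R)

noncomputable def v3501 (R : VR) : ℕ :=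
  Nat.mod (Nat.land (v3474 R) (v1246 R)) (VR.m1 R)

noncomputable def s3501 (R : VR) (i : ℕ) : ℕ :=
  tx (VR.ceT R) (s1313 R i)

theorem e3501 (R : VR) : L (VR.S R) (v3501 R) (s3501 R) 14 :=
  L.gat (e1313 R) (VR.ce_is R) (VR.ce_lt R) (VR.ce_le R)

noncomputable def v3502 (R : VR) : ℕ :=
  Nat.shiftRight (Nat.land (Nat.sub (VR.h1 R) (Nat.xor (Nat.mod (Nat.land (v1315 R) (v1246 R))
    (VR.m1 R)) (Nat.mod (Nat.land (v3474 R) (v1246 R)) (VR.m1 R)))) (VR.h1 R)) (nat_lit 15)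

noncomputable def s3502 (R : VR) (i : ℕ) : Bool :=
  Nat.beq (s3500 R i) (s3501 R i)

theorem e3502 (R : VR) : B (VR.S R) (v3502 R) (s3502 R) :=
  L.beq (VR.h1e R) (e3500 R) (e3501 R)

noncomputable def v3503 (R : VR) : ℕ :=
  Nat.land (Nat.land (Nat.land (v1328 R) (Nat.sub (VR.o1 R) (Nat.mod (Nat.land (v3474 R) (v877 R))
    (VR.m1 R)))) (Nat.shiftRight (Nat.land (Nat.sub (VR.h1 R) (Nat.xor (v1331 R) (Nat.mod
    (Nat.land (v3474 R) (v9 R)) (VR.m1 R)))) (VR.h1 R)) (nat_lit 15))) (Nat.shiftRight (Nat.land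
    (Nat.sub (VR.h1 R) (Nat.xor (Nat.mod (Nat.land (v1315 R) (v1246 R)) (VR.m1 R)) (Nat.mod
    (Nat.land (v3474 R) (v1246 R)) (VR.m1 R)))) (VR.h1 R)) (nat_lit 15))

noncomputable def s3503 (R : VR) (i : ℕ) : Bool :=
  K.band (s3499 R i) (s3502 R i)

theorem e3503 (R : VR) : B (VR.S R) (v3503 R) (s3503 R) :=
  B.and (e3499 R) (e3502 R)

noncomputable def v3504 (R : VR) : ℕ :=
  Nat.mod (Nat.land (v1315 R) (v1409 R)) (VR.m1 R)

noncomputable def s3504 (R : VR) (i : ℕ) : ℕ :=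
  tx (VR.cepT R) (s1312 R i)

theorem e3504 (R : VR) : L (VR.S R) (v3504 R) (s3504 R) 14 :=
  L.gat (e1312 R) (VR.cep_is R) (VR.cep_lt R) (VR.cep_le R)

noncomputable def v3505 (R : VR) : ℕ :=
  Nat.mod (Nat.land (v3474 R) (v1409 R)) (VR.m1 R)

noncomputable def s3505 (R : VR) (i : ℕ) : ℕ :=
  tx (VR.cepT R) (s1313 R i)

theorem e3505 (R : VR) : L (VR.S R) (v3505 R) (s3505 R) 14 :=
  L.gat (e1313 R) (VR.cep_is R) (VR.cep_lt R) (VR.cep_le R)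

noncomputable def v3506 (R : VR) : ℕ :=
  Nat.shiftRight (Nat.land (Nat.sub (VR.h1 R) (Nat.xor (Nat.mod (Nat.land (v1315 R) (v1409 R))
    (VR.m1 R)) (Nat.mod (Nat.land (v3474 R) (v1409 R)) (VR.m1 R)))) (VR.h1 R)) (nat_lit 15)

noncomputable def s3506 (R : VR) (i : ℕ) : Bool :=
  Nat.beq (s3504 R i) (s3505 R i)

theorem e3506 (R : VR) : B (VR.S R) (v3506 R) (s3506 R) :=
  L.beq (VR.h1e R) (e3504 R) (e3505 R)

noncomputable def v3507 (R : VR) : ℕ :=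
  Nat.land (v3503 R) (Nat.shiftRight (Nat.land (Nat.sub (VR.h1 R) (Nat.xor (Nat.mod (Nat.land
    (v1315 R) (v1409 R)) (VR.m1 R)) (Nat.mod (Nat.land (v3474 R) (v1409 R)) (VR.m1 R)))) (VR.h1
    R)) (nat_lit 15))

noncomputable def s3507 (R : VR) (i : ℕ) : Bool :=
  K.band (s3503 R i) (s3506 R i)

theorem e3507 (R : VR) : B (VR.S R) (v3507 R) (s3507 R) :=
  B.and (e3503 R) (e3506 R)

noncomputable def v3508 (R : VR) : ℕ :=
  Nat.lor (v1326 R) (Nat.land (v3503 R) (Nat.shiftRight (Nat.land (Nat.sub (VR.h1 R) (Nat.xor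
    (Nat.mod (Nat.land (v1315 R) (v1409 R)) (VR.m1 R)) (Nat.mod (Nat.land (v3474 R) (v1409 R))
    (VR.m1 R)))) (VR.h1 R)) (nat_lit 15)))

noncomputable def s3508 (R : VR) (i : ℕ) : Bool :=
  K.bor (s1326 R i) (s3507 R i)

theorem e3508 (R : VR) : B (VR.S R) (v3508 R) (s3508 R) :=
  B.or (e1326 R) (e3507 R)

noncomputable def v3509 (R : VR) : ℕ :=
  Nat.mod (Nat.land (v1315 R) (v9 R)) (VR.m1 R)

noncomputable def s3509 (R : VR) (i : ℕ) : ℕ :=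
  tx (VR.lT R) (s1312 R i)

theorem e3509 (R : VR) : L (VR.S R) (v3509 R) (s3509 R) 29 :=
  L.gat (e1312 R) (VR.l_is R) (VR.l_lt R) (VR.l_le R)

noncomputable def v3510 (R : VR) : ℕ :=
  Nat.shiftRight (Nat.land (Nat.sub (Nat.add (v869 R) (VR.k1 R)) (Nat.mod (Nat.land (v1315 R) (v9
    R)) (VR.m1 R))) (VR.h1 R)) (nat_lit 15)

noncomputable def s3510 (R : VR) (i : ℕ) : Bool :=
  Nat.ble (Nat.succ (s3509 R i)) (s869 R i)

theorem e3510 (R : VR) : B (VR.S R) (v3510 R) (s3510 R) :=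
  L.blt (VR.h1e R) (VR.k1e R) (e3509 R) (e869 R)

noncomputable def v3511 (R : VR) : ℕ :=
  Nat.land (Nat.lor (v1326 R) (Nat.land (v3503 R) (Nat.shiftRight (Nat.land (Nat.sub (VR.h1 R)
    (Nat.xor (Nat.mod (Nat.land (v1315 R) (v1409 R)) (VR.m1 R)) (Nat.mod (Nat.land (v3474 R)
    (v1409 R)) (VR.m1 R)))) (VR.h1 R)) (nat_lit 15)))) (Nat.shiftRight (Nat.land (Nat.sub (Nat.add
    (v869 R) (VR.k1 R)) (Nat.mod (Nat.land (v1315 R) (v9 R)) (VR.m1 R))) (VR.h1 R)) (nat_lit 15))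

noncomputable def s3511 (R : VR) (i : ℕ) : Bool :=
  K.band (s3508 R i) (s3510 R i)

theorem e3511 (R : VR) : B (VR.S R) (v3511 R) (s3511 R) :=
  B.and (e3508 R) (e3510 R)

noncomputable def v3512 (R : VR) : ℕ :=
  Nat.mod (Nat.land (v3474 R) (v178 R)) (VR.m1 R)

noncomputable def s3512 (R : VR) (i : ℕ) : ℕ :=
  tx (VR.phiT R) (s1313 R i)

theorem e3512 (R : VR) : L (VR.S R) (v3512 R) (s3512 R) 255 :=
  L.gat (e1313 R) (VR.phi_is R) (VR.phi_lt R) (VR.phi_le R)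

noncomputable def v3513 (R : VR) : ℕ :=
  gmk (VR.h2 R) (VR.J R) (Nat.mul (Nat.mod (Nat.land (v3474 R) (v178 R)) (VR.m1 R)) (VR.cr1 R))

noncomputable def v3514 (R : VR) : ℕ :=
  Nat.mod (Nat.land (gmk (VR.h2 R) (VR.J R) (Nat.mul (Nat.mod (Nat.land (v3474 R) (v178 R)) (VR.m1
    R)) (VR.cr1 R))) (v9 R)) (VR.m1 R)

noncomputable def s3514 (R : VR) (i : ℕ) : ℕ :=
  tx (VR.lT R) (s3512 R i)

theorem e3514 (R : VR) : L (VR.S R) (v3514 R) (s3514 R) 29 :=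
  L.gat (e3512 R) (VR.l_is R) (VR.l_lt R) (VR.l_le R)

noncomputable def v3515 (R : VR) : ℕ :=
  Nat.shiftRight (Nat.land (Nat.sub (Nat.add (v869 R) (VR.k1 R)) (Nat.mod (Nat.land (gmk (VR.h2 R)
    (VR.J R) (Nat.mul (Nat.mod (Nat.land (v3474 R) (v178 R)) (VR.m1 R)) (VR.cr1 R))) (v9 R))
    (VR.m1 R))) (VR.h1 R)) (nat_lit 15)

noncomputable def s3515 (R : VR) (i : ℕ) : Bool :=
  Nat.ble (Nat.succ (s3514 R i)) (s869 R i)

theorem e3515 (R : VR) : B (VR.S R) (v3515 R) (s3515 R) :=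
  L.blt (VR.h1e R) (VR.k1e R) (e3514 R) (e869 R)

noncomputable def v3516 (R : VR) : ℕ :=
  Nat.land (Nat.land (Nat.lor (v1326 R) (Nat.land (v3503 R) (Nat.shiftRight (Nat.land (Nat.sub
    (VR.h1 R) (Nat.xor (Nat.mod (Nat.land (v1315 R) (v1409 R)) (VR.m1 R)) (Nat.mod (Nat.land
    (v3474 R) (v1409 R)) (VR.m1 R)))) (VR.h1 R)) (nat_lit 15)))) (Nat.shiftRight (Nat.land
    (Nat.sub (Nat.add (v869 R) (VR.k1 R)) (Nat.mod (Nat.land (v1315 R) (v9 R)) (VR.m1 R))) (VR.h1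
    R)) (nat_lit 15))) (Nat.shiftRight (Nat.land (Nat.sub (Nat.add (v869 R) (VR.k1 R)) (Nat.mod
    (Nat.land (gmk (VR.h2 R) (VR.J R) (Nat.mul (Nat.mod (Nat.land (v3474 R) (v178 R)) (VR.m1 R))
    (VR.cr1 R))) (v9 R)) (VR.m1 R))) (VR.h1 R)) (nat_lit 15))

noncomputable def s3516 (R : VR) (i : ℕ) : Bool :=
  K.band (s3511 R i) (s3515 R i)

theorem e3516 (R : VR) : B (VR.S R) (v3516 R) (s3516 R) :=
  B.and (e3511 R) (e3515 R)

noncomputable def v3517 (R : VR) : Bool :=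
  Nat.beq (Nat.land (Nat.sub (VR.o1 R) (v3516 R)) (mM (v1311 R))) (nat_lit 0)

noncomputable def s3517 (R : VR) : Bool :=
  K.allN (s1311 R) (s3516 R)

theorem e3517 (R : VR) : (v3517 R) = s3517 R :=
  all0 (e3516 R) (VR.kar_le R)

noncomputable def s3518 (R : VR) : Bool :=
  K.lall (FC7.XE.ar (K.Fc_XX (VR.F R))) (fun (x119 : ℕ × ℕ) => (K.band (K.band (K.bor (Nat.beq
    (Prod.fst x119) (Prod.snd x119)) (K.band (K.band (K.band (K.band (K.bnot (FC6.Pa.real (VR.P R)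
    (Prod.fst x119))) (K.bnot (FC6.Pa.real (VR.P R) (Prod.snd x119)))) (Nat.beq (FC6.Pa.l (VR.P R)
    (FC6.Pa.φ (VR.P R) (Prod.fst x119))) (FC6.Pa.l (VR.P R) (Prod.snd x119)))) (Nat.beq (FC7.XE.ce
    (K.Fc_XX (VR.F R)) (Prod.fst x119)) (FC7.XE.ce (K.Fc_XX (VR.F R)) (Prod.snd x119)))) (Nat.beq
    (FC7.XE.ce' (K.Fc_XX (VR.F R)) (Prod.fst x119)) (FC7.XE.ce' (K.Fc_XX (VR.F R)) (Prod.snd
    x119))))) (Nat.ble (Nat.succ (FC6.Pa.l (VR.P R) (Prod.fst x119))) (Nat.add (FC7.XE.x (K.Fc_XX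
    (VR.F R))) (FC7.XE.k (K.Fc_XX (VR.F R)))))) (Nat.ble (Nat.succ (FC6.Pa.l (VR.P R) (FC6.Pa.φ
    (VR.P R) (Prod.snd x119)))) (Nat.add (FC7.XE.x (K.Fc_XX (VR.F R))) (FC7.XE.k (K.Fc_XX (VR.F
    R)))))))

theorem e3518 (R : VR) : (v3517 R) = s3518 R :=
  (e3517 R).trans (lall_lst2 (VR.kar R) (VR.ar1T R) (VR.ar2T R) (fun (x120 : ℕ × ℕ) => (K.band
    (K.band (K.bor (Nat.beq (Prod.fst x120) (Prod.snd x120)) (K.band (K.band (K.band (K.band
    (K.bnot (FC6.Pa.real (VR.P R) (Prod.fst x120))) (K.bnot (FC6.Pa.real (VR.P R) (Prod.snd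
    x120)))) (Nat.beq (FC6.Pa.l (VR.P R) (FC6.Pa.φ (VR.P R) (Prod.fst x120))) (FC6.Pa.l (VR.P R)
    (Prod.snd x120)))) (Nat.beq (FC7.XE.ce (K.Fc_XX (VR.F R)) (Prod.fst x120)) (FC7.XE.ce (K.Fc_XX
    (VR.F R)) (Prod.snd x120)))) (Nat.beq (FC7.XE.ce' (K.Fc_XX (VR.F R)) (Prod.fst x120))
    (FC7.XE.ce' (K.Fc_XX (VR.F R)) (Prod.snd x120))))) (Nat.ble (Nat.succ (FC6.Pa.l (VR.P R)
    (Prod.fst x120))) (Nat.add (FC7.XE.x (K.Fc_XX (VR.F R))) (FC7.XE.k (K.Fc_XX (VR.F R))))))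
    (Nat.ble (Nat.succ (FC6.Pa.l (VR.P R) (FC6.Pa.φ (VR.P R) (Prod.snd x120)))) (Nat.add (FC7.XE.x
    (K.Fc_XX (VR.F R))) (FC7.XE.k (K.Fc_XX (VR.F R)))))))).symm

noncomputable def v3519 (R : VR) : Bool :=
  K.band (K.band (K.band (K.band (K.band (K.band (Nat.beq (Nat.land (Nat.sub (VR.o1 R) (Nat.land
    (Nat.land (Nat.land (v3387 R) (v3391 R)) (v3411 R)) (Nat.xor (v3450 R) (Nat.land (Nat.xor
    (v3450 R) (Nat.land (Nat.land (Nat.land (Nat.land (Nat.land (v3418 R) (v3420 R)) (v1611 R))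
    (v1613 R)) (v861 R)) (v3425 R))) (v192 R))))) (mM (v112 R))) (nat_lit 0)) (v3461 R)) (v3470
    R)) (v3479 R)) (v3489 R)) (true)) (v3517 R)

noncomputable def s3519 (R : VR) : Bool :=
  K.band (s3493 R) (s3518 R)

theorem e3519 (R : VR) : (v3519 R) = s3519 R :=
  congrArg₂ K.band (e3493 R) (e3518 R)

noncomputable def s3520 (R : VR) : Bool :=
  K.XE_stat (K.Fc_XX (VR.F R)) (VR.P R) (VR.P' R)

theorem e3520 (R : VR) : (v3519 R) = s3520 R :=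
  e3519 R

noncomputable def v3521 (R : VR) : ℕ :=
  VR.lo R

noncomputable def s3521 (R : VR) : ℕ :=
  VR.lo R

theorem e3521 (R : VR) : (v3521 R) = s3521 R :=
  rfl

theorem b3521 (R : VR) : s3521 R ≤ 15 :=
  VR.lo_b R

noncomputable def v3522 (R : VR) : Bool :=
  Nat.ble (v3521 R) (v624 R)

noncomputable def s3522 (R : VR) : Bool :=
  Nat.ble (s3521 R) (s624 R)

theorem e3522 (R : VR) : (v3522 R) = s3522 R :=
  congrArg₂ Nat.ble (e3521 R) (e624 R)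

noncomputable def v3523 (R : VR) : Bool :=
  K.band (v3519 R) (v3522 R)

noncomputable def s3523 (R : VR) : Bool :=
  K.band (s3520 R) (s3522 R)

theorem e3523 (R : VR) : (v3523 R) = s3523 R :=
  congrArg₂ K.band (e3520 R) (e3522 R)

noncomputable def v3524 (R : VR) : Bool :=
  true

noncomputable def s3524 (R : VR) : Bool :=
  K.lall (FC7.XE.lr (K.Fc_XX (VR.F R))) (fun (x121 : ℕ × Bool × Bool) => (K.band (K.lmem (Prod.fst
    x121) (K.XE_as (K.Fc_XX (VR.F R)))) (FC6.Pa.real (VR.P R) (Prod.fst x121))))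

theorem e3524 (R : VR) : (v3524 R) = s3524 R :=
  rfl

noncomputable def v3525 (R : VR) : Bool :=
  K.band (K.band (v3519 R) (v3522 R)) (true)

noncomputable def s3525 (R : VR) : Bool :=
  K.band (s3523 R) (s3524 R)

theorem e3525 (R : VR) : (v3525 R) = s3525 R :=
  congrArg₂ K.band (e3523 R) (e3524 R)

noncomputable def s3526 (R : VR) : Bool :=
  K.XE_sta (K.Fc_XX (VR.F R)) (VR.P R) (VR.P' R)

theorem e3526 (R : VR) : (v3525 R) = s3526 R :=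
  e3525 R

noncomputable def c_sta (R : VR) : Bool :=
  (K.band (K.band (v3519 R) (v3522 R)) (true))

theorem c_sta_eq (R : VR) : c_sta R = (K.XE_sta (K.Fc_XX (VR.F R)) (VR.P R) (VR.P' R)) :=
  e3526 R

noncomputable def v3527 (R : VR) : ℕ :=
  Nat.mul (VR.o1 R) (v3521 R)

noncomputable def s3527 (R : VR) (i : ℕ) : ℕ :=
  (s3521 R)

theorem e3527 (R : VR) : L (VR.S R) (v3527 R) (s3527 R) 15 :=
  L.scl (VR.o1e R) (e3521 R) (b3521 R) (by decide)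

noncomputable def v3528 (R : VR) : ℕ :=
  Nat.shiftRight (Nat.land (Nat.sub (Nat.add (VR.lpT R) (VR.h1 R)) (v3527 R)) (VR.h1 R)) (nat_lit
    15)

noncomputable def s3528 (R : VR) (i : ℕ) : Bool :=
  Nat.ble (s3527 R i) (s113 R i)

theorem e3528 (R : VR) : B (VR.S R) (v3528 R) (s3528 R) :=
  L.ble (VR.h1e R) (e3527 R) (e113 R)

noncomputable def v3529 (R : VR) : ℕ :=
  Nat.land (Nat.shiftRight (Nat.land (Nat.sub (Nat.add (VR.lpT R) (VR.h1 R)) (v3527 R)) (VR.h1 R))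
    (nat_lit 15)) (v3336 R)

noncomputable def s3529 (R : VR) (i : ℕ) : Bool :=
  K.band (s3528 R i) (s3336 R i)

theorem e3529 (R : VR) : B (VR.S R) (v3529 R) (s3529 R) :=
  B.and (e3528 R) (e3336 R)

noncomputable def v3530 (R : VR) : ℕ :=
  Nat.shiftRight (Nat.land (Nat.sub (Nat.add (v1607 R) (VR.h1 R)) (v3527 R)) (VR.h1 R)) (nat_lit
    15)

noncomputable def s3530 (R : VR) (i : ℕ) : Bool :=
  Nat.ble (s3527 R i) (s1607 R i)

theorem e3530 (R : VR) : B (VR.S R) (v3530 R) (s3530 R) :=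
  L.ble (VR.h1e R) (e3527 R) (e1607 R)

noncomputable def v3531 (R : VR) : ℕ :=
  Nat.land (v3529 R) (Nat.shiftRight (Nat.land (Nat.sub (Nat.add (v1607 R) (VR.h1 R)) (v3527 R))
    (VR.h1 R)) (nat_lit 15))

noncomputable def s3531 (R : VR) (i : ℕ) : Bool :=
  K.band (s3529 R i) (s3530 R i)

theorem e3531 (R : VR) : B (VR.S R) (v3531 R) (s3531 R) :=
  B.and (e3529 R) (e3530 R)

noncomputable def v3532 (R : VR) : ℕ :=
  Nat.land (Nat.land (v3529 R) (Nat.shiftRight (Nat.land (Nat.sub (Nat.add (v1607 R) (VR.h1 R))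
    (v3527 R)) (VR.h1 R)) (nat_lit 15))) (v3337 R)

noncomputable def s3532 (R : VR) (i : ℕ) : Bool :=
  K.band (s3531 R i) (s3337 R i)

theorem e3532 (R : VR) : B (VR.S R) (v3532 R) (s3532 R) :=
  B.and (e3531 R) (e3337 R)

noncomputable def v3533 (R : VR) : ℕ :=
  Nat.lor (v1600 R) (Nat.land (Nat.land (v3529 R) (Nat.shiftRight (Nat.land (Nat.sub (Nat.add
    (v1607 R) (VR.h1 R)) (v3527 R)) (VR.h1 R)) (nat_lit 15))) (v3337 R))

noncomputable def s3533 (R : VR) (i : ℕ) : Bool :=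
  K.bor (s1600 R i) (s3532 R i)

theorem e3533 (R : VR) : B (VR.S R) (v3533 R) (s3533 R) :=
  B.or (e1600 R) (e3532 R)

noncomputable def v3534 (R : VR) : ℕ :=
  Nat.land (v3335 R) (Nat.lor (v1600 R) (Nat.land (Nat.land (v3529 R) (Nat.shiftRight (Nat.land
    (Nat.sub (Nat.add (v1607 R) (VR.h1 R)) (v3527 R)) (VR.h1 R)) (nat_lit 15))) (v3337 R)))

noncomputable def s3534 (R : VR) (i : ℕ) : Bool :=
  K.band (s3335 R i) (s3533 R i)

theorem e3534 (R : VR) : B (VR.S R) (v3534 R) (s3534 R) :=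
  B.and (e3335 R) (e3533 R)

noncomputable def v3535 (R : VR) : ℕ :=
  Nat.land (Nat.land (v3335 R) (Nat.lor (v1600 R) (Nat.land (Nat.land (v3529 R) (Nat.shiftRight
    (Nat.land (Nat.sub (Nat.add (v1607 R) (VR.h1 R)) (v3527 R)) (VR.h1 R)) (nat_lit 15))) (v3337
    R)))) (v3346 R)

noncomputable def s3535 (R : VR) (i : ℕ) : Bool :=
  K.band (s3534 R i) (s3346 R i)

theorem e3535 (R : VR) : B (VR.S R) (v3535 R) (s3535 R) :=
  B.and (e3534 R) (e3346 R)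

noncomputable def v3536 (R : VR) : ℕ :=
  Nat.land (v3420 R) (v1611 R)

noncomputable def s3536 (R : VR) (i : ℕ) : Bool :=
  K.band (s3420 R i) (s1611 R i)

theorem e3536 (R : VR) : B (VR.S R) (v3536 R) (s3536 R) :=
  B.and (e3420 R) (e1611 R)

noncomputable def v3537 (R : VR) : ℕ :=
  Nat.land (Nat.land (v3420 R) (v1611 R)) (v1613 R)

noncomputable def s3537 (R : VR) (i : ℕ) : Bool :=
  K.band (s3536 R i) (s1613 R i)

theorem e3537 (R : VR) : B (VR.S R) (v3537 R) (s3537 R) :=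
  B.and (e3536 R) (e1613 R)

noncomputable def v3538 (R : VR) : ℕ :=
  Nat.land (Nat.land (Nat.land (v3420 R) (v1611 R)) (v1613 R)) (v861 R)

noncomputable def s3538 (R : VR) (i : ℕ) : Bool :=
  K.band (s3537 R i) (s861 R i)

theorem e3538 (R : VR) : B (VR.S R) (v3538 R) (s3538 R) :=
  B.and (e3537 R) (e861 R)

noncomputable def v3539 (R : VR) : ℕ :=
  Nat.land (Nat.land (Nat.land (Nat.land (v3420 R) (v1611 R)) (v1613 R)) (v861 R)) (v3425 R)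

noncomputable def s3539 (R : VR) (i : ℕ) : Bool :=
  K.band (s3538 R i) (s3425 R i)

theorem e3539 (R : VR) : B (VR.S R) (v3539 R) (s3539 R) :=
  B.and (e3538 R) (e3425 R)

noncomputable def s3540 (R : VR) (i : ℕ) : Bool :=
  tf (VR.lbpT R) i

theorem e3540 (R : VR) : B (VR.S R) (VR.lbpT R) (s3540 R) :=
  VR.lbp_is R

noncomputable def v3541 (R : VR) : ℕ :=
  Nat.sub (VR.o1 R) (Nat.xor (VR.lbpT R) (VR.lbT R))

noncomputable def s3541 (R : VR) (i : ℕ) : Bool :=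
  K.beqB (s3540 R i) (s1126 R i)

theorem e3541 (R : VR) : B (VR.S R) (v3541 R) (s3541 R) :=
  B.beqB (VR.o1e R) (e3540 R) (e1126 R)

noncomputable def s3542 (R : VR) (i : ℕ) : ℕ :=
  bt (s3540 R i)

theorem e3542 (R : VR) : L (VR.S R) (VR.lbpT R) (s3542 R) 1 :=
  B.L (e3540 R)

noncomputable def v3543 (R : VR) : ℕ :=
  Nat.shiftRight (Nat.land (Nat.sub (VR.h1 R) (Nat.xor (VR.lbpT R) (VR.lbT R))) (VR.h1 R))
    (nat_lit 15)

noncomputable def s3543 (R : VR) (i : ℕ) : Bool :=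
  Nat.beq (s3542 R i) (s1237 R i)

theorem e3543 (R : VR) : B (VR.S R) (v3543 R) (s3543 R) :=
  L.beq (VR.h1e R) (e3542 R) (e1237 R)

noncomputable def v3544 (R : VR) : ℕ :=
  Nat.land (Nat.sub (VR.o1 R) (Nat.xor (VR.lbpT R) (VR.lbT R))) (Nat.shiftRight (Nat.land (Nat.sub
    (VR.h1 R) (Nat.xor (VR.lbpT R) (VR.lbT R))) (VR.h1 R)) (nat_lit 15))

noncomputable def s3544 (R : VR) (i : ℕ) : Bool :=
  K.band (s3541 R i) (s3543 R i)

theorem e3544 (R : VR) : B (VR.S R) (v3544 R) (s3544 R) :=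
  B.and (e3541 R) (e3543 R)

noncomputable def v3545 (R : VR) : ℕ :=
  Nat.lor (VR.roT R) (Nat.land (Nat.sub (VR.o1 R) (Nat.xor (VR.lbpT R) (VR.lbT R)))
    (Nat.shiftRight (Nat.land (Nat.sub (VR.h1 R) (Nat.xor (VR.lbpT R) (VR.lbT R))) (VR.h1 R))
    (nat_lit 15)))

noncomputable def s3545 (R : VR) (i : ℕ) : Bool :=
  K.bor (s1296 R i) (s3544 R i)

theorem e3545 (R : VR) : B (VR.S R) (v3545 R) (s3545 R) :=
  B.or (e1296 R) (e3544 R)

noncomputable def v3546 (R : VR) : ℕ :=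
  Nat.land (Nat.land (Nat.land (Nat.land (Nat.land (v3420 R) (v1611 R)) (v1613 R)) (v861 R))
    (v3425 R)) (Nat.lor (VR.roT R) (Nat.land (Nat.sub (VR.o1 R) (Nat.xor (VR.lbpT R) (VR.lbT R)))
    (Nat.shiftRight (Nat.land (Nat.sub (VR.h1 R) (Nat.xor (VR.lbpT R) (VR.lbT R))) (VR.h1 R))
    (nat_lit 15))))

noncomputable def s3546 (R : VR) (i : ℕ) : Bool :=
  K.band (s3539 R i) (s3545 R i)

theorem e3546 (R : VR) : B (VR.S R) (v3546 R) (s3546 R) :=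
  B.and (e3539 R) (e3545 R)

noncomputable def v3547 (R : VR) : ℕ :=
  Nat.lor (v432 R) (Nat.land (Nat.land (Nat.land (Nat.land (Nat.land (v3420 R) (v1611 R)) (v1613
    R)) (v861 R)) (v3425 R)) (Nat.lor (VR.roT R) (Nat.land (Nat.sub (VR.o1 R) (Nat.xor (VR.lbpT R)
    (VR.lbT R))) (Nat.shiftRight (Nat.land (Nat.sub (VR.h1 R) (Nat.xor (VR.lbpT R) (VR.lbT R)))
    (VR.h1 R)) (nat_lit 15)))))

noncomputable def s3547 (R : VR) (i : ℕ) : Bool :=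
  K.bor (s432 R i) (s3546 R i)

theorem e3547 (R : VR) : B (VR.S R) (v3547 R) (s3547 R) :=
  B.or (e432 R) (e3546 R)

noncomputable def v3548 (R : VR) : ℕ :=
  Nat.land (Nat.land (Nat.land (v3335 R) (Nat.lor (v1600 R) (Nat.land (Nat.land (v3529 R)
    (Nat.shiftRight (Nat.land (Nat.sub (Nat.add (v1607 R) (VR.h1 R)) (v3527 R)) (VR.h1 R))
    (nat_lit 15))) (v3337 R)))) (v3346 R)) (Nat.lor (v432 R) (Nat.land (Nat.land (Nat.land
    (Nat.land (Nat.land (v3420 R) (v1611 R)) (v1613 R)) (v861 R)) (v3425 R)) (Nat.lor (VR.roT R)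
    (Nat.land (Nat.sub (VR.o1 R) (Nat.xor (VR.lbpT R) (VR.lbT R))) (Nat.shiftRight (Nat.land
    (Nat.sub (VR.h1 R) (Nat.xor (VR.lbpT R) (VR.lbT R))) (VR.h1 R)) (nat_lit 15))))))

noncomputable def s3548 (R : VR) (i : ℕ) : Bool :=
  K.band (s3535 R i) (s3547 R i)

theorem e3548 (R : VR) : B (VR.S R) (v3548 R) (s3548 R) :=
  B.and (e3535 R) (e3547 R)

noncomputable def v3549 (R : VR) : ℕ :=
  Nat.shiftRight (Nat.land (Nat.sub (VR.h1 R) (VR.upT R)) (VR.h1 R)) (nat_lit 15)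

noncomputable def s3549 (R : VR) (i : ℕ) : Bool :=
  Nat.beq (s1422 R i) (nat_lit 0)

theorem e3549 (R : VR) : B (VR.S R) (v3549 R) (s3549 R) :=
  L.ez (VR.h1e R) (e1422 R)

noncomputable def v3550 (R : VR) : ℕ :=
  Nat.lor (v3549 R) (v3529 R)

noncomputable def s3550 (R : VR) (i : ℕ) : Bool :=
  K.bor (s3549 R i) (s3529 R i)

theorem e3550 (R : VR) : B (VR.S R) (v3550 R) (s3550 R) :=
  B.or (e3549 R) (e3529 R)

noncomputable def v3551 (R : VR) : ℕ :=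
  Nat.land (v3548 R) (Nat.lor (v3549 R) (v3529 R))

noncomputable def s3551 (R : VR) (i : ℕ) : Bool :=
  K.band (s3548 R i) (s3550 R i)

theorem e3551 (R : VR) : B (VR.S R) (v3551 R) (s3551 R) :=
  B.and (e3548 R) (e3550 R)

noncomputable def v3552 (R : VR) : ℕ :=
  Nat.sub (VR.o1 R) (VR.lbpT R)

noncomputable def s3552 (R : VR) (i : ℕ) : Bool :=
  K.bnot (s3540 R i)

theorem e3552 (R : VR) : B (VR.S R) (v3552 R) (s3552 R) :=
  B.not (VR.o1e R) (e3540 R)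

noncomputable def v3553 (R : VR) : ℕ :=
  Nat.lor (v3552 R) (VR.realpT R)

noncomputable def s3553 (R : VR) (i : ℕ) : Bool :=
  K.bor (s3552 R i) (s1579 R i)

theorem e3553 (R : VR) : B (VR.S R) (v3553 R) (s3553 R) :=
  B.or (e3552 R) (e1579 R)

noncomputable def v3554 (R : VR) : ℕ :=
  Nat.land (Nat.land (v3548 R) (Nat.lor (v3549 R) (v3529 R))) (Nat.lor (v3552 R) (VR.realpT R))

noncomputable def s3554 (R : VR) (i : ℕ) : Bool :=
  K.band (s3551 R i) (s3553 R i)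

theorem e3554 (R : VR) : B (VR.S R) (v3554 R) (s3554 R) :=
  B.and (e3551 R) (e3553 R)

noncomputable def v3555 (R : VR) : ℕ :=
  srM (VR.N R) (VR.S R) (VR.o1 R) (VR.lbpT R)

noncomputable def v3556 (R : VR) : ℕ :=
  Nat.mod (Nat.land (v187 R) (v3555 R)) (VR.m1 R)

noncomputable def s3556 (R : VR) (i : ℕ) : Bool :=
  tf (VR.lbpT R) (s174 R i)

theorem e3556 (R : VR) : B (VR.S R) (v3556 R) (s3556 R) :=
  B.gat (e174 R) (VR.lbp_is R) (VR.lbp_lt R)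

noncomputable def v3557 (R : VR) : ℕ :=
  Nat.sub (VR.o1 R) (Nat.xor (v3556 R) (VR.lbpT R))

noncomputable def s3557 (R : VR) (i : ℕ) : Bool :=
  K.beqB (s3556 R i) (s3540 R i)

theorem e3557 (R : VR) : B (VR.S R) (v3557 R) (s3557 R) :=
  B.beqB (VR.o1e R) (e3556 R) (e3540 R)

noncomputable def v3558 (R : VR) : ℕ :=
  Nat.land (Nat.land (Nat.land (v3548 R) (Nat.lor (v3549 R) (v3529 R))) (Nat.lor (v3552 R)
    (VR.realpT R))) (Nat.sub (VR.o1 R) (Nat.xor (v3556 R) (VR.lbpT R)))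

noncomputable def s3558 (R : VR) (i : ℕ) : Bool :=
  K.band (s3554 R i) (s3557 R i)

theorem e3558 (R : VR) : B (VR.S R) (v3558 R) (s3558 R) :=
  B.and (e3554 R) (e3557 R)

noncomputable def s3559 (R : VR) (i : ℕ) : ℕ :=
  bt (s3556 R i)

theorem e3559 (R : VR) : L (VR.S R) (v3556 R) (s3559 R) 1 :=
  B.L (e3556 R)

noncomputable def v3560 (R : VR) : ℕ :=
  Nat.shiftRight (Nat.land (Nat.sub (VR.h1 R) (Nat.xor (v3556 R) (VR.lbpT R))) (VR.h1 R)) (nat_lit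
    15)

noncomputable def s3560 (R : VR) (i : ℕ) : Bool :=
  Nat.beq (s3559 R i) (s3542 R i)

theorem e3560 (R : VR) : B (VR.S R) (v3560 R) (s3560 R) :=
  L.beq (VR.h1e R) (e3559 R) (e3542 R)

noncomputable def v3561 (R : VR) : ℕ :=
  Nat.land (Nat.land (Nat.land (Nat.land (v3548 R) (Nat.lor (v3549 R) (v3529 R))) (Nat.lor (v3552
    R) (VR.realpT R))) (Nat.sub (VR.o1 R) (Nat.xor (v3556 R) (VR.lbpT R)))) (Nat.shiftRight
    (Nat.land (Nat.sub (VR.h1 R) (Nat.xor (v3556 R) (VR.lbpT R))) (VR.h1 R)) (nat_lit 15))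

noncomputable def s3561 (R : VR) (i : ℕ) : Bool :=
  K.band (s3558 R i) (s3560 R i)

theorem e3561 (R : VR) : B (VR.S R) (v3561 R) (s3561 R) :=
  B.and (e3558 R) (e3560 R)

noncomputable def v3562 (R : VR) : ℕ :=
  Nat.shiftRight (Nat.land (Nat.sub (VR.h1 R) (VR.lbpT R)) (VR.h1 R)) (nat_lit 15)

noncomputable def s3562 (R : VR) (i : ℕ) : Bool :=
  Nat.beq (s3542 R i) (nat_lit 0)

theorem e3562 (R : VR) : B (VR.S R) (v3562 R) (s3562 R) :=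
  L.ez (VR.h1e R) (e3542 R)

noncomputable def v3563 (R : VR) : ℕ :=
  Nat.lor (Nat.shiftRight (Nat.land (Nat.sub (VR.h1 R) (VR.lbpT R)) (VR.h1 R)) (nat_lit 15))
    (VR.lbpT R)

noncomputable def s3563 (R : VR) (i : ℕ) : Bool :=
  K.bor (s3562 R i) (s3540 R i)

theorem e3563 (R : VR) : B (VR.S R) (v3563 R) (s3563 R) :=
  B.or (e3562 R) (e3540 R)

noncomputable def v3564 (R : VR) : ℕ :=
  Nat.land (Nat.land (Nat.land (Nat.land (Nat.land (v3548 R) (Nat.lor (v3549 R) (v3529 R)))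
    (Nat.lor (v3552 R) (VR.realpT R))) (Nat.sub (VR.o1 R) (Nat.xor (v3556 R) (VR.lbpT R))))
    (Nat.shiftRight (Nat.land (Nat.sub (VR.h1 R) (Nat.xor (v3556 R) (VR.lbpT R))) (VR.h1 R))
    (nat_lit 15))) (Nat.lor (Nat.shiftRight (Nat.land (Nat.sub (VR.h1 R) (VR.lbpT R)) (VR.h1 R))
    (nat_lit 15)) (VR.lbpT R))

noncomputable def s3564 (R : VR) (i : ℕ) : Bool :=
  K.band (s3561 R i) (s3563 R i)

theorem e3564 (R : VR) : B (VR.S R) (v3564 R) (s3564 R) :=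
  B.and (e3561 R) (e3563 R)

noncomputable def v3565 (R : VR) : ℕ :=
  Nat.mul (VR.o1 R) (v1468 R)

noncomputable def s3565 (R : VR) (i : ℕ) : ℕ :=
  (s1468 R)

theorem e3565 (R : VR) : L (VR.S R) (v3565 R) (s3565 R) 15 :=
  L.scl (VR.o1e R) (e1468 R) (b1468 R) (by decide)

noncomputable def v3566 (R : VR) : ℕ :=
  Nat.shiftRight (Nat.land (Nat.sub (Nat.add (Nat.mul (VR.o1 R) (v1468 R)) (VR.k1 R)) (VR.cepT R))
    (VR.h1 R)) (nat_lit 15)

noncomputable def s3566 (R : VR) (i : ℕ) : Bool :=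
  Nat.ble (Nat.succ (s116 R i)) (s3565 R i)

theorem e3566 (R : VR) : B (VR.S R) (v3566 R) (s3566 R) :=
  L.blt (VR.h1e R) (VR.k1e R) (e116 R) (e3565 R)

noncomputable def v3567 (R : VR) : ℕ :=
  Nat.land (Nat.land (Nat.land (Nat.land (Nat.land (Nat.land (v3548 R) (Nat.lor (v3549 R) (v3529
    R))) (Nat.lor (v3552 R) (VR.realpT R))) (Nat.sub (VR.o1 R) (Nat.xor (v3556 R) (VR.lbpT R))))
    (Nat.shiftRight (Nat.land (Nat.sub (VR.h1 R) (Nat.xor (v3556 R) (VR.lbpT R))) (VR.h1 R))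
    (nat_lit 15))) (Nat.lor (Nat.shiftRight (Nat.land (Nat.sub (VR.h1 R) (VR.lbpT R)) (VR.h1 R))
    (nat_lit 15)) (VR.lbpT R))) (Nat.shiftRight (Nat.land (Nat.sub (Nat.add (Nat.mul (VR.o1 R)
    (v1468 R)) (VR.k1 R)) (VR.cepT R)) (VR.h1 R)) (nat_lit 15))

noncomputable def s3567 (R : VR) (i : ℕ) : Bool :=
  K.band (s3564 R i) (s3566 R i)

theorem e3567 (R : VR) : B (VR.S R) (v3567 R) (s3567 R) :=
  B.and (e3564 R) (e3566 R)

noncomputable def v3568 (R : VR) : ℕ :=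
  Nat.land (v3567 R) (v3411 R)

noncomputable def s3568 (R : VR) (i : ℕ) : Bool :=
  K.band (s3567 R i) (s3411 R i)

theorem e3568 (R : VR) : B (VR.S R) (v3568 R) (s3568 R) :=
  B.and (e3567 R) (e3411 R)

noncomputable def v3569 (R : VR) : Bool :=
  Nat.beq (Nat.land (Nat.sub (VR.o1 R) (Nat.land (v3567 R) (v3411 R))) (mM (v112 R))) (nat_lit 0)

noncomputable def s3569 (R : VR) : Bool :=
  K.allN (s112 R) (s3568 R)

theorem e3569 (R : VR) : (v3569 R) = s3569 R :=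
  all0 (e3568 R) (VR.n_le R)

noncomputable def s3570 (R : VR) : Bool :=
  K.allN (s112 R) (fun (x122 : ℕ) => (K.band (K.band (K.band (K.band (K.band (K.band (K.band
    (K.band (K.band (K.band (K.bor (K.bnot (FC6.Pa.real (VR.P R) x122)) (K.band (Nat.ble (Nat.succ
    (FC6.Pa.l (VR.P R) x122)) (FC7.OD.m (VR.O R))) (Nat.ble (Nat.succ (FC6.Pa.l (VR.P R) (FC6.Pa.φ
    (VR.P R) x122))) (FC7.OD.m (VR.O R))))) (K.bor (K.bnot (FC6.Pa.real (VR.P' R) x122)) (K.band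
    (K.band (K.band (Nat.ble (FC7.OD.lo (VR.O R)) (FC6.Pa.l (VR.P' R) x122)) (Nat.ble (Nat.succ
    (FC6.Pa.l (VR.P' R) x122)) (FC7.OD.m (VR.O R)))) (Nat.ble (FC7.OD.lo (VR.O R)) (FC6.Pa.l
    (VR.P' R) (FC6.Pa.φ (VR.P' R) x122)))) (Nat.ble (Nat.succ (FC6.Pa.l (VR.P' R) (FC6.Pa.φ (VR.P'
    R) x122))) (FC7.OD.m (VR.O R)))))) (K.beqB (FC6.Pa.real (VR.P' R) (FC6.Pa.α (VR.P R) x122))
    (FC6.Pa.real (VR.P' R) x122))) (K.bor (K.bnot (Nat.beq (FC6.Pa.α (VR.P R) x122) x122)) (K.band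
    (K.band (K.band (K.band (K.band (K.beqB (FC6.Pa.real (VR.P' R) x122) (FC6.Pa.real (VR.P R)
    x122)) (Nat.beq (FC6.Pa.l (VR.P' R) x122) (FC6.Pa.l (VR.P R) x122))) (Nat.beq (FC6.Pa.l (VR.P'
    R) (FC6.Pa.φ (VR.P' R) x122)) (FC6.Pa.l (VR.P R) (FC6.Pa.φ (VR.P R) x122)))) (Nat.ble
    (FC7.OD.x (VR.O R)) (FC6.Pa.l (VR.P R) x122))) (Nat.ble (FC7.OD.x (VR.O R)) (FC6.Pa.l (VR.P R)
    (FC6.Pa.φ (VR.P R) x122)))) (K.bor (FC7.OD.ro (VR.O R) x122) (K.band (K.beqB (FC7.OD.lb' (VR.O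
    R) x122) (FC7.OD.lb (VR.O R) x122)) (Nat.beq (FC7.OD.wt' (VR.O R) x122) (FC7.OD.wt (VR.O R)
    x122))))))) (K.bor (Nat.beq (FC6.Pa.u (VR.P' R) x122) (nat_lit 0)) (K.band (Nat.ble (FC7.OD.lo
    (VR.O R)) (FC6.Pa.l (VR.P' R) x122)) (Nat.ble (Nat.succ (FC6.Pa.l (VR.P' R) x122)) (FC7.OD.m
    (VR.O R)))))) (K.bor (K.bnot (FC7.OD.lb' (VR.O R) x122)) (FC6.Pa.real (VR.P' R) x122)))
    (K.beqB (FC7.OD.lb' (VR.O R) (FC6.Pa.α (VR.P R) x122)) (FC7.OD.lb' (VR.O R) x122))) (Nat.beq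
    (FC7.OD.wt' (VR.O R) (FC6.Pa.α (VR.P R) x122)) (FC7.OD.wt' (VR.O R) x122))) (K.bor (Nat.beq
    (FC7.OD.wt' (VR.O R) x122) (nat_lit 0)) (FC7.OD.lb' (VR.O R) x122))) (Nat.ble (Nat.succ
    (FC7.OD.pc (VR.O R) x122)) (FC7.OD.p (VR.O R)))) (K.bor (Nat.beq x122 (FC7.OD.rt (VR.O R)
    (FC7.OD.pc (VR.O R) x122))) (K.band (K.band (K.band (Nat.ble (Nat.succ (FC7.OD.prk (VR.O R)
    (FC7.OD.par (VR.O R) x122))) (FC7.OD.prk (VR.O R) x122)) (Nat.ble (Nat.succ (FC7.OD.par (VR.O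
    R) x122)) (FC6.Pa.n (VR.P R)))) (Nat.beq (FC7.OD.pc (VR.O R) (FC7.OD.par (VR.O R) x122))
    (FC7.OD.pc (VR.O R) x122))) (K.bor (Nat.beq (FC7.OD.par (VR.O R) x122) (FC6.Pa.φ (VR.P' R)
    x122)) (K.band (K.band (K.bnot (Nat.beq (FC6.Pa.α (VR.P R) x122) x122)) (K.bnot (FC6.Pa.real
    (VR.P' R) x122))) (Nat.beq (FC7.OD.par (VR.O R) x122) (FC6.Pa.α (VR.P R) x122))))))))

theorem e3570 (R : VR) : (v3569 R) = s3570 R :=
  e3569 R

noncomputable def v3571 (R : VR) : ℕ :=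
  Nat.shiftRight (Nat.land (Nat.sub (Nat.add (v3527 R) (VR.k1 R)) (VR.iota R)) (VR.h1 R)) (nat_lit
    15)

noncomputable def s3571 (R : VR) (i : ℕ) : Bool :=
  Nat.ble (Nat.succ (s0 R i)) (s3527 R i)

theorem e3571 (R : VR) : B (VR.S R) (v3571 R) (s3571 R) :=
  L.blt (VR.h1e R) (VR.k1e R) (e0 R) (e3527 R)

noncomputable def v3572 (R : VR) : ℕ :=
  Nat.sub (VR.o2 R) (v115 R)

noncomputable def s3572 (R : VR) (j i : ℕ) : Bool :=
  K.bnot (s115 R j i)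

theorem e3572 (R : VR) : B2 R (v3572 R) (s3572 R) :=
  B.not (VR.o2e R) (e115 R)

noncomputable def v3573 (R : VR) : ℕ :=
  Nat.shiftRight (Nat.land (Nat.sub (VR.h1 R) (Nat.mod (Nat.land (Nat.sub (VR.o2 R) (Nat.sub
    (VR.o2 R) (v115 R))) (mM (Nat.mul (v112 R) (VR.S R)))) (VR.m1 R))) (VR.h1 R)) (nat_lit 15)

noncomputable def s3573 (R : VR) (i : ℕ) : Bool :=
  K.allN (s112 R) (fun j => (s3572 R j i))

theorem e3573 (R : VR) : B (VR.S R) (v3573 R) (s3573 R) :=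
  B.all (e3572 R) (VR.n_le R)

noncomputable def s3574 (R : VR) (i : ℕ) : Bool :=
  K.allN (s112 R) (fun (x123 : ℕ) => (K.bnot (Nat.beq (FC6.Pa.l (VR.P' R) x123) i)))

theorem e3574 (R : VR) : B (VR.S R) (v3573 R) (s3574 R) :=
  e3573 R

noncomputable def v3575 (R : VR) : ℕ :=
  Nat.sub (VR.o1 R) (Nat.shiftRight (Nat.land (Nat.sub (VR.h1 R) (Nat.mod (Nat.land (Nat.sub
    (VR.o2 R) (Nat.sub (VR.o2 R) (v115 R))) (mM (Nat.mul (v112 R) (VR.S R)))) (VR.m1 R))) (VR.h1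
    R)) (nat_lit 15))

noncomputable def s3575 (R : VR) (i : ℕ) : Bool :=
  K.bnot (s3574 R i)

theorem e3575 (R : VR) : B (VR.S R) (v3575 R) (s3575 R) :=
  B.not (VR.o1e R) (e3574 R)

noncomputable def v3576 (R : VR) : ℕ :=
  Nat.xor (v511 R) (Nat.land (Nat.xor (v511 R) (v267 R)) (Nat.mul (VR.realpT R) (nat_lit 32767)))

noncomputable def s3576 (R : VR) (i : ℕ) : ℕ :=
  Bool.rec (motive := fun _ => ℕ) (s511 R i) (s267 R i) (s1579 R i)

theorem e3576 (R : VR) : L (VR.S R) (v3576 R) (s3576 R) 1 :=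
  L.sel (e1579 R) (e267 R) (e511 R) (by decide) (by decide) (by decide)

noncomputable def v3577 (R : VR) : ℕ :=
  Nat.add (v3576 R) (VR.upT R)

noncomputable def s3577 (R : VR) (i : ℕ) : ℕ :=
  Nat.add (s3576 R i) (s1422 R i)

theorem e3577 (R : VR) : L (VR.S R) (v3577 R) (s3577 R) 16 :=
  L.add (e3576 R) (e1422 R) (by decide)

noncomputable def v3578 (R : VR) : ℕ :=
  Nat.add (Nat.add (v3576 R) (VR.upT R)) (VR.lbpT R)

noncomputable def s3578 (R : VR) (i : ℕ) : ℕ :=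
  Nat.add (s3577 R i) (s3542 R i)

theorem e3578 (R : VR) : L (VR.S R) (v3578 R) (s3578 R) 17 :=
  L.add (e3577 R) (e3542 R) (by decide)

noncomputable def v3579 (R : VR) : ℕ :=
  srM (VR.N R) (VR.S R) (VR.o1 R) (Nat.add (Nat.add (v3576 R) (VR.upT R)) (VR.lbpT R))

noncomputable def s3579 (R : VR) (j i : ℕ) : ℕ :=
  (s3578 R j)

theorem e3579 (R : VR) : L2 R (v3579 R) (s3579 R) 17 :=
  L2.row (e3578 R)

noncomputable def v3580 (R : VR) : ℕ :=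
  Nat.xor (v25 R) (Nat.land (Nat.xor (v25 R) (srM (VR.N R) (VR.S R) (VR.o1 R) (Nat.add (Nat.add
    (v3576 R) (VR.upT R)) (VR.lbpT R)))) (Nat.mul (v115 R) (nat_lit 32767)))

noncomputable def s3580 (R : VR) (j i : ℕ) : ℕ :=
  Bool.rec (motive := fun _ => ℕ) (s25 R j i) (s3579 R j i) (s115 R j i)

theorem e3580 (R : VR) : L2 R (v3580 R) (s3580 R) 17 :=
  L.sel (e115 R) (e3579 R) (e25 R) (by decide) (by decide) (by decide)

noncomputable def v3581 (R : VR) : ℕ :=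
  srM (VR.N R) (VR.S R) (VR.o1 R) (v1607 R)

noncomputable def s3581 (R : VR) (j i : ℕ) : ℕ :=
  (s1607 R j)

theorem e3581 (R : VR) : L2 R (v3581 R) (s3581 R) 29 :=
  L2.row (e1607 R)

noncomputable def v3582 (R : VR) : ℕ :=
  Nat.shiftRight (Nat.land (Nat.sub (VR.h2 R) (Nat.xor (srM (VR.N R) (VR.S R) (VR.o1 R) (v1607 R))
    (v12 R))) (VR.h2 R)) (nat_lit 15)

noncomputable def s3582 (R : VR) (j i : ℕ) : Bool :=
  Nat.beq (s3581 R j i) (s12 R j i)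

theorem e3582 (R : VR) : B2 R (v3582 R) (s3582 R) :=
  L.beq (VR.h2e R) (e3581 R) (e12 R)

noncomputable def v3583 (R : VR) : ℕ :=
  srM (VR.N R) (VR.S R) (VR.o1 R) (v1297 R)

noncomputable def s3583 (R : VR) (j i : ℕ) : Bool :=
  (s1298 R j)

theorem e3583 (R : VR) : B2 R (v3583 R) (s3583 R) :=
  B2.row (e1298 R)

noncomputable def v3584 (R : VR) : ℕ :=
  Nat.land (v3583 R) (Nat.shiftRight (Nat.land (Nat.sub (VR.h2 R) (Nat.xor (srM (VR.N R) (VR.S R)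
    (VR.o1 R) (v1607 R)) (v12 R))) (VR.h2 R)) (nat_lit 15))

noncomputable def s3584 (R : VR) (j i : ℕ) : Bool :=
  K.band (s3583 R j i) (s3582 R j i)

theorem e3584 (R : VR) : B2 R (v3584 R) (s3584 R) :=
  B.and (e3583 R) (e3582 R)

noncomputable def v3585 (R : VR) : ℕ :=
  srM (VR.N R) (VR.S R) (VR.o1 R) (VR.lbpT R)

noncomputable def s3585 (R : VR) (j i : ℕ) : ℕ :=
  (s3542 R j)

theorem e3585 (R : VR) : L2 R (v3585 R) (s3585 R) 1 :=
  L2.row (e3542 R)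

noncomputable def v3586 (R : VR) : ℕ :=
  Nat.xor (v25 R) (Nat.land (Nat.xor (v25 R) (srM (VR.N R) (VR.S R) (VR.o1 R) (VR.lbpT R)))
    (Nat.mul (Nat.land (v3583 R) (Nat.shiftRight (Nat.land (Nat.sub (VR.h2 R) (Nat.xor (srM (VR.N
    R) (VR.S R) (VR.o1 R) (v1607 R)) (v12 R))) (VR.h2 R)) (nat_lit 15))) (nat_lit 32767)))

noncomputable def s3586 (R : VR) (j i : ℕ) : ℕ :=
  Bool.rec (motive := fun _ => ℕ) (s25 R j i) (s3585 R j i) (s3584 R j i)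

theorem e3586 (R : VR) : L2 R (v3586 R) (s3586 R) 1 :=
  L.sel (e3584 R) (e3585 R) (e25 R) (by decide) (by decide) (by decide)

noncomputable def v3587 (R : VR) : ℕ :=
  Nat.add (Nat.xor (v25 R) (Nat.land (Nat.xor (v25 R) (srM (VR.N R) (VR.S R) (VR.o1 R) (Nat.add
    (Nat.add (v3576 R) (VR.upT R)) (VR.lbpT R)))) (Nat.mul (v115 R) (nat_lit 32767)))) (Nat.xor
    (v25 R) (Nat.land (Nat.xor (v25 R) (srM (VR.N R) (VR.S R) (VR.o1 R) (VR.lbpT R))) (Nat.mul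
    (Nat.land (v3583 R) (Nat.shiftRight (Nat.land (Nat.sub (VR.h2 R) (Nat.xor (srM (VR.N R) (VR.S
    R) (VR.o1 R) (v1607 R)) (v12 R))) (VR.h2 R)) (nat_lit 15))) (nat_lit 32767))))

noncomputable def s3587 (R : VR) (j i : ℕ) : ℕ :=
  Nat.add (s3580 R j i) (s3586 R j i)

theorem e3587 (R : VR) : L2 R (v3587 R) (s3587 R) 18 :=
  L.add (e3580 R) (e3586 R) (by decide)

noncomputable def v3588 (R : VR) : ℕ :=
  Nat.mod (Nat.land (v3587 R) (mM (Nat.mul (v112 R) (VR.S R)))) (VR.m1 R)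

noncomputable def s3588 (R : VR) (i : ℕ) : ℕ :=
  K.sumN (s112 R) (fun j => (s3587 R j i))

theorem e3588 (R : VR) : L (VR.S R) (v3588 R) (s3588 R) 2286 :=
  L.sum (e3587 R) (VR.n_le R) (by decide)

noncomputable def s3589 (R : VR) (i : ℕ) : ℕ :=
  K.sumN (s112 R) (fun (x124 : ℕ) => (Nat.add (Bool.rec (motive := fun _ => ℕ) (nat_lit 0)
    (Nat.add (Nat.add (Bool.rec (motive := fun _ => ℕ) (nat_lit 0) (nat_lit 1) (FC6.Pa.real (VR.P'
    R) x124)) (FC6.Pa.u (VR.P' R) x124)) (FC7.OD.wt' (VR.O R) x124)) (Nat.beq (FC6.Pa.l (VR.P' R)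
    x124) i)) (Bool.rec (motive := fun _ => ℕ) (nat_lit 0) (FC7.OD.wt' (VR.O R) x124) (K.band
    (K.OD_rg (VR.O R) (VR.P R) x124) (Nat.beq (FC6.Pa.l (VR.P' R) (FC6.Pa.φ (VR.P' R) x124))
    i)))))

theorem e3589 (R : VR) : L (VR.S R) (v3588 R) (s3589 R) 2286 :=
  e3588 R

noncomputable def s3590 (R : VR) (i : ℕ) : ℕ :=
  K.OD_dgp (VR.O R) (VR.P R) (VR.P' R) i

theorem e3590 (R : VR) : L (VR.S R) (v3588 R) (s3590 R) 2286 :=
  e3589 R

noncomputable def v3591 (R : VR) : ℕ :=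
  Nat.xor (v511 R) (Nat.land (Nat.xor (v511 R) (v267 R)) (Nat.mul (VR.realT R) (nat_lit 32767)))

noncomputable def s3591 (R : VR) (i : ℕ) : ℕ :=
  Bool.rec (motive := fun _ => ℕ) (s511 R i) (s267 R i) (s434 R i)

theorem e3591 (R : VR) : L (VR.S R) (v3591 R) (s3591 R) 1 :=
  L.sel (e434 R) (e267 R) (e511 R) (by decide) (by decide) (by decide)

noncomputable def v3592 (R : VR) : ℕ :=
  Nat.add (v3591 R) (VR.uT R)

noncomputable def s3592 (R : VR) (i : ℕ) : ℕ :=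
  Nat.add (s3591 R i) (s1009 R i)

theorem e3592 (R : VR) : L (VR.S R) (v3592 R) (s3592 R) 16 :=
  L.add (e3591 R) (e1009 R) (by decide)

noncomputable def v3593 (R : VR) : ℕ :=
  Nat.add (Nat.add (v3591 R) (VR.uT R)) (VR.lbT R)

noncomputable def s3593 (R : VR) (i : ℕ) : ℕ :=
  Nat.add (s3592 R i) (s1237 R i)

theorem e3593 (R : VR) : L (VR.S R) (v3593 R) (s3593 R) 17 :=
  L.add (e3592 R) (e1237 R) (by decide)

noncomputable def v3594 (R : VR) : ℕ :=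
  srM (VR.N R) (VR.S R) (VR.o1 R) (Nat.add (Nat.add (v3591 R) (VR.uT R)) (VR.lbT R))

noncomputable def s3594 (R : VR) (j i : ℕ) : ℕ :=
  (s3593 R j)

theorem e3594 (R : VR) : L2 R (v3594 R) (s3594 R) 17 :=
  L2.row (e3593 R)

noncomputable def v3595 (R : VR) : ℕ :=
  Nat.xor (v25 R) (Nat.land (Nat.xor (v25 R) (srM (VR.N R) (VR.S R) (VR.o1 R) (Nat.add (Nat.add
    (v3591 R) (VR.uT R)) (VR.lbT R)))) (Nat.mul (v3483 R) (nat_lit 32767)))

noncomputable def s3595 (R : VR) (j i : ℕ) : ℕ :=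
  Bool.rec (motive := fun _ => ℕ) (s25 R j i) (s3594 R j i) (s3483 R j i)

theorem e3595 (R : VR) : L2 R (v3595 R) (s3595 R) 17 :=
  L.sel (e3483 R) (e3594 R) (e25 R) (by decide) (by decide) (by decide)

noncomputable def v3596 (R : VR) : ℕ :=
  Nat.shiftRight (Nat.land (Nat.sub (VR.h2 R) (Nat.xor (v1178 R) (v12 R))) (VR.h2 R)) (nat_lit 15)

noncomputable def s3596 (R : VR) (j i : ℕ) : Bool :=
  Nat.beq (s1178 R j i) (s12 R j i)

theorem e3596 (R : VR) : B2 R (v3596 R) (s3596 R) :=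
  L.beq (VR.h2e R) (e1178 R) (e12 R)

noncomputable def v3597 (R : VR) : ℕ :=
  Nat.land (v3583 R) (Nat.shiftRight (Nat.land (Nat.sub (VR.h2 R) (Nat.xor (v1178 R) (v12 R)))
    (VR.h2 R)) (nat_lit 15))

noncomputable def s3597 (R : VR) (j i : ℕ) : Bool :=
  K.band (s3583 R j i) (s3596 R j i)

theorem e3597 (R : VR) : B2 R (v3597 R) (s3597 R) :=
  B.and (e3583 R) (e3596 R)

noncomputable def v3598 (R : VR) : ℕ :=
  srM (VR.N R) (VR.S R) (VR.o1 R) (VR.lbT R)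

noncomputable def s3598 (R : VR) (j i : ℕ) : ℕ :=
  (s1237 R j)

theorem e3598 (R : VR) : L2 R (v3598 R) (s3598 R) 1 :=
  L2.row (e1237 R)

noncomputable def v3599 (R : VR) : ℕ :=
  Nat.xor (v25 R) (Nat.land (Nat.xor (v25 R) (srM (VR.N R) (VR.S R) (VR.o1 R) (VR.lbT R)))
    (Nat.mul (Nat.land (v3583 R) (Nat.shiftRight (Nat.land (Nat.sub (VR.h2 R) (Nat.xor (v1178 R)
    (v12 R))) (VR.h2 R)) (nat_lit 15))) (nat_lit 32767)))

noncomputable def s3599 (R : VR) (j i : ℕ) : ℕ :=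
  Bool.rec (motive := fun _ => ℕ) (s25 R j i) (s3598 R j i) (s3597 R j i)

theorem e3599 (R : VR) : L2 R (v3599 R) (s3599 R) 1 :=
  L.sel (e3597 R) (e3598 R) (e25 R) (by decide) (by decide) (by decide)

noncomputable def v3600 (R : VR) : ℕ :=
  Nat.add (Nat.xor (v25 R) (Nat.land (Nat.xor (v25 R) (srM (VR.N R) (VR.S R) (VR.o1 R) (Nat.add
    (Nat.add (v3591 R) (VR.uT R)) (VR.lbT R)))) (Nat.mul (v3483 R) (nat_lit 32767)))) (Nat.xor
    (v25 R) (Nat.land (Nat.xor (v25 R) (srM (VR.N R) (VR.S R) (VR.o1 R) (VR.lbT R))) (Nat.mul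
    (Nat.land (v3583 R) (Nat.shiftRight (Nat.land (Nat.sub (VR.h2 R) (Nat.xor (v1178 R) (v12 R)))
    (VR.h2 R)) (nat_lit 15))) (nat_lit 32767))))

noncomputable def s3600 (R : VR) (j i : ℕ) : ℕ :=
  Nat.add (s3595 R j i) (s3599 R j i)

theorem e3600 (R : VR) : L2 R (v3600 R) (s3600 R) 18 :=
  L.add (e3595 R) (e3599 R) (by decide)

noncomputable def v3601 (R : VR) : ℕ :=
  Nat.mod (Nat.land (v3600 R) (mM (Nat.mul (v112 R) (VR.S R)))) (VR.m1 R)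

noncomputable def s3601 (R : VR) (i : ℕ) : ℕ :=
  K.sumN (s112 R) (fun j => (s3600 R j i))

theorem e3601 (R : VR) : L (VR.S R) (v3601 R) (s3601 R) 2286 :=
  L.sum (e3600 R) (VR.n_le R) (by decide)

noncomputable def s3602 (R : VR) (i : ℕ) : ℕ :=
  K.sumN (s112 R) (fun (x125 : ℕ) => (Nat.add (Bool.rec (motive := fun _ => ℕ) (nat_lit 0)
    (Nat.add (Nat.add (Bool.rec (motive := fun _ => ℕ) (nat_lit 0) (nat_lit 1) (FC6.Pa.real (VR.P
    R) x125)) (FC6.Pa.u (VR.P R) x125)) (FC7.OD.wt (VR.O R) x125)) (Nat.beq (FC6.Pa.l (VR.P R)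
    x125) i)) (Bool.rec (motive := fun _ => ℕ) (nat_lit 0) (FC7.OD.wt (VR.O R) x125) (K.band
    (K.OD_rg (VR.O R) (VR.P R) x125) (Nat.beq (FC6.Pa.l (VR.P R) (FC6.Pa.φ (VR.P R) x125)) i)))))

theorem e3602 (R : VR) : L (VR.S R) (v3601 R) (s3602 R) 2286 :=
  e3601 R

noncomputable def s3603 (R : VR) (i : ℕ) : ℕ :=
  K.OD_dg (VR.O R) (VR.P R) i

theorem e3603 (R : VR) : L (VR.S R) (v3601 R) (s3603 R) 2286 :=
  e3602 R

noncomputable def s3604 (R : VR) (i : ℕ) : ℕ :=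
  tx (VR.slT R) i

theorem e3604 (R : VR) : L (VR.S R) (VR.slT R) (s3604 R) 255 :=
  VR.sl_is R

noncomputable def v3605 (R : VR) : ℕ :=
  Nat.add (Nat.mod (Nat.land (v3600 R) (mM (Nat.mul (v112 R) (VR.S R)))) (VR.m1 R)) (VR.slT R)

noncomputable def s3605 (R : VR) (i : ℕ) : ℕ :=
  Nat.add (s3603 R i) (s3604 R i)

theorem e3605 (R : VR) : L (VR.S R) (v3605 R) (s3605 R) 2541 :=
  L.add (e3603 R) (e3604 R) (by decide)

noncomputable def v3606 (R : VR) : ℕ :=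
  Nat.xor (v3605 R) (Nat.land (Nat.xor (v3605 R) (v2129 R)) (Nat.mul (v771 R) (nat_lit 32767)))

noncomputable def s3606 (R : VR) (i : ℕ) : ℕ :=
  Bool.rec (motive := fun _ => ℕ) (s3605 R i) (s2129 R i) (s771 R i)

theorem e3606 (R : VR) : L (VR.S R) (v3606 R) (s3606 R) 2541 :=
  L.sel (e771 R) (e2129 R) (e3605 R) (by decide) (by decide) (by decide)

noncomputable def v3607 (R : VR) : ℕ :=
  Nat.shiftRight (Nat.land (Nat.sub (Nat.add (Nat.xor (v3605 R) (Nat.land (Nat.xor (v3605 R)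
    (v2129 R)) (Nat.mul (v771 R) (nat_lit 32767)))) (VR.h1 R)) (Nat.mod (Nat.land (v3587 R) (mM
    (Nat.mul (v112 R) (VR.S R)))) (VR.m1 R))) (VR.h1 R)) (nat_lit 15)

noncomputable def s3607 (R : VR) (i : ℕ) : Bool :=
  Nat.ble (s3590 R i) (s3606 R i)

theorem e3607 (R : VR) : B (VR.S R) (v3607 R) (s3607 R) :=
  L.ble (VR.h1e R) (e3590 R) (e3606 R)

noncomputable def v3608 (R : VR) : ℕ :=
  Nat.land (Nat.sub (VR.o1 R) (Nat.shiftRight (Nat.land (Nat.sub (VR.h1 R) (Nat.mod (Nat.land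
    (Nat.sub (VR.o2 R) (Nat.sub (VR.o2 R) (v115 R))) (mM (Nat.mul (v112 R) (VR.S R)))) (VR.m1 R)))
    (VR.h1 R)) (nat_lit 15))) (Nat.shiftRight (Nat.land (Nat.sub (Nat.add (Nat.xor (v3605 R)
    (Nat.land (Nat.xor (v3605 R) (v2129 R)) (Nat.mul (v771 R) (nat_lit 32767)))) (VR.h1 R))
    (Nat.mod (Nat.land (v3587 R) (mM (Nat.mul (v112 R) (VR.S R)))) (VR.m1 R))) (VR.h1 R)) (nat_lit
    15))

noncomputable def s3608 (R : VR) (i : ℕ) : Bool :=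
  K.band (s3575 R i) (s3607 R i)

theorem e3608 (R : VR) : B (VR.S R) (v3608 R) (s3608 R) :=
  B.and (e3575 R) (e3607 R)

noncomputable def v3609 (R : VR) : ℕ :=
  Nat.lor (Nat.shiftRight (Nat.land (Nat.sub (Nat.add (v3527 R) (VR.k1 R)) (VR.iota R)) (VR.h1 R))
    (nat_lit 15)) (v3608 R)

noncomputable def s3609 (R : VR) (i : ℕ) : Bool :=
  K.bor (s3571 R i) (s3608 R i)

theorem e3609 (R : VR) : B (VR.S R) (v3609 R) (s3609 R) :=
  B.or (e3571 R) (e3608 R)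

noncomputable def v3610 (R : VR) : Bool :=
  Nat.beq (Nat.land (Nat.sub (VR.o1 R) (Nat.lor (Nat.shiftRight (Nat.land (Nat.sub (Nat.add (v3527
    R) (VR.k1 R)) (VR.iota R)) (VR.h1 R)) (nat_lit 15)) (v3608 R))) (mM (v868 R))) (nat_lit 0)

noncomputable def s3610 (R : VR) : Bool :=
  K.allN (s868 R) (s3609 R)

theorem e3610 (R : VR) : (v3610 R) = s3610 R :=
  all0 (e3609 R) (VR.leN R (b868 R) (by decide))

noncomputable def s3611 (R : VR) : Bool :=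
  K.allN (s868 R) (fun (x126 : ℕ) => (K.bor (Nat.ble (Nat.succ x126) (FC7.OD.lo (VR.O R))) (K.band
    (K.bnot (K.allN (FC6.Pa.n (VR.P R)) (fun (x127 : ℕ) => (K.bnot (Nat.beq (FC6.Pa.l (VR.P' R)
    x127) x126))))) (Nat.ble (K.OD_dgp (VR.O R) (VR.P R) (VR.P' R) x126) (Bool.rec (motive := fun
    _ => ℕ) (Nat.add (K.OD_dg (VR.O R) (VR.P R) x126) (FC7.OD.sl (VR.O R) x126)) (FC7.OD.Δ (VR.O
    R)) (Nat.ble (Nat.succ x126) (FC7.OD.x (VR.O R))))))))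

theorem e3611 (R : VR) : (v3610 R) = s3611 R :=
  e3610 R

noncomputable def v3612 (R : VR) : Bool :=
  K.band (Nat.beq (Nat.land (Nat.sub (VR.o1 R) (Nat.land (v3567 R) (v3411 R))) (mM (v112 R)))
    (nat_lit 0)) (Nat.beq (Nat.land (Nat.sub (VR.o1 R) (Nat.lor (Nat.shiftRight (Nat.land (Nat.sub
    (Nat.add (v3527 R) (VR.k1 R)) (VR.iota R)) (VR.h1 R)) (nat_lit 15)) (v3608 R))) (mM (v868 R)))
    (nat_lit 0))

noncomputable def s3612 (R : VR) : Bool :=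
  K.band (s3570 R) (s3611 R)

theorem e3612 (R : VR) : (v3612 R) = s3612 R :=
  congrArg₂ K.band (e3570 R) (e3611 R)

noncomputable def v3613 (R : VR) : Bool :=
  K.band (K.band (Nat.beq (Nat.land (Nat.sub (VR.o1 R) (Nat.land (v3567 R) (v3411 R))) (mM (v112
    R))) (nat_lit 0)) (Nat.beq (Nat.land (Nat.sub (VR.o1 R) (Nat.lor (Nat.shiftRight (Nat.land
    (Nat.sub (Nat.add (v3527 R) (VR.k1 R)) (VR.iota R)) (VR.h1 R)) (nat_lit 15)) (v3608 R))) (mM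
    (v868 R))) (nat_lit 0))) (v3522 R)

noncomputable def s3613 (R : VR) : Bool :=
  K.band (s3612 R) (s3522 R)

theorem e3613 (R : VR) : (v3613 R) = s3613 R :=
  congrArg₂ K.band (e3612 R) (e3522 R)

noncomputable def v3614 (R : VR) : Bool :=
  Nat.ble (v624 R) (v868 R)

noncomputable def s3614 (R : VR) : Bool :=
  Nat.ble (s624 R) (s868 R)

theorem e3614 (R : VR) : (v3614 R) = s3614 R :=
  congrArg₂ Nat.ble (e624 R) (e868 R)

noncomputable def v3615 (R : VR) : Bool :=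
  K.band (K.band (K.band (Nat.beq (Nat.land (Nat.sub (VR.o1 R) (Nat.land (v3567 R) (v3411 R))) (mM
    (v112 R))) (nat_lit 0)) (Nat.beq (Nat.land (Nat.sub (VR.o1 R) (Nat.lor (Nat.shiftRight
    (Nat.land (Nat.sub (Nat.add (v3527 R) (VR.k1 R)) (VR.iota R)) (VR.h1 R)) (nat_lit 15)) (v3608
    R))) (mM (v868 R))) (nat_lit 0))) (v3522 R)) (Nat.ble (v624 R) (v868 R))

noncomputable def s3615 (R : VR) : Bool :=
  K.band (s3613 R) (s3614 R)

theorem e3615 (R : VR) : (v3615 R) = s3615 R :=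
  congrArg₂ K.band (e3613 R) (e3614 R)

noncomputable def s3616 (R : VR) : Bool :=
  K.OD_stat (VR.O R) (VR.P R) (VR.P' R)

theorem e3616 (R : VR) : (v3615 R) = s3616 R :=
  e3615 R

noncomputable def c_odst (R : VR) : Bool :=
  (K.band (K.band (K.band (Nat.beq (Nat.land (Nat.sub (VR.o1 R) (Nat.land (v3567 R) (v3411 R)))
    (mM (v112 R))) (nat_lit 0)) (Nat.beq (Nat.land (Nat.sub (VR.o1 R) (Nat.lor (Nat.shiftRight
    (Nat.land (Nat.sub (Nat.add (v3527 R) (VR.k1 R)) (VR.iota R)) (VR.h1 R)) (nat_lit 15)) (v3608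
    R))) (mM (v868 R))) (nat_lit 0))) (v3522 R)) (Nat.ble (v624 R) (v868 R)))

theorem c_odst_eq (R : VR) : c_odst R = (K.OD_stat (VR.O R) (VR.P R) (VR.P' R)) :=
  e3616 R

noncomputable def v3617 (R : VR) : ℕ :=
  VR.kdjp R

noncomputable def s3617 (R : VR) : ℕ :=
  VR.kdjp R

theorem e3617 (R : VR) : (v3617 R) = s3617 R :=
  rfl

theorem b3617 (R : VR) : s3617 R ≤ 127 :=
  VR.kdjp_b R

noncomputable def s3618 (R : VR) (i : ℕ) : ℕ :=
  tx (VR.djpT R) i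

theorem e3618 (R : VR) : L (VR.S R) (VR.djpT R) (s3618 R) 32767 :=
  VR.djp_is R

noncomputable def v3619 (R : VR) : ℕ :=
  Nat.shiftRight (Nat.land (Nat.add (VR.upT R) (VR.k1 R)) (VR.h1 R)) (nat_lit 15)

noncomputable def s3619 (R : VR) (i : ℕ) : Bool :=
  K.bnot (Nat.beq (s1422 R i) (nat_lit 0))

theorem e3619 (R : VR) : B (VR.S R) (v3619 R) (s3619 R) :=
  L.nz (VR.h1e R) (VR.k1e R) (e1422 R)

noncomputable def v3620 (R : VR) : ℕ :=
  Nat.lor (Nat.shiftRight (Nat.land (Nat.add (VR.upT R) (VR.k1 R)) (VR.h1 R)) (nat_lit 15))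
    (VR.ouT R)

noncomputable def s3620 (R : VR) (i : ℕ) : Bool :=
  K.bor (s3619 R i) (s1404 R i)

theorem e3620 (R : VR) : B (VR.S R) (v3620 R) (s3620 R) :=
  B.or (e3619 R) (e1404 R)

noncomputable def v3621 (R : VR) : ℕ :=
  Nat.mul (VR.djpT R) (VR.cr1 R)

noncomputable def s3621 (R : VR) (j i : ℕ) : ℕ :=
  (s3618 R i)

theorem e3621 (R : VR) : L2 R (v3621 R) (s3621 R) 32767 :=
  L2.rep (e3618 R)

noncomputable def v3622 (R : VR) : ℕ :=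
  Nat.shiftRight (Nat.land (Nat.add (Nat.land (v3621 R) (v119 R)) (VR.k2 R)) (VR.h2 R)) (nat_lit
    15)

noncomputable def s3622 (R : VR) (j i : ℕ) : Bool :=
  K.tbit (s3621 R j i) (s116 R j)

theorem e3622 (R : VR) : B2 R (v3622 R) (s3622 R) :=
  B.of_eq (L.nz (VR.h2e R) (VR.k2e R) (L.land (e3621 R) (e119 R))) (fun t ht => tb1 _ _ (L.lt
    (e3621 R) t ht))

noncomputable def v3623 (R : VR) : ℕ :=
  srM (VR.N R) (VR.S R) (VR.o1 R) (Nat.lor (Nat.shiftRight (Nat.land (Nat.add (VR.upT R) (VR.k1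
    R)) (VR.h1 R)) (nat_lit 15)) (VR.ouT R))

noncomputable def s3623 (R : VR) (j i : ℕ) : Bool :=
  (s3620 R j)

theorem e3623 (R : VR) : B2 R (v3623 R) (s3623 R) :=
  B2.row (e3620 R)

noncomputable def v3624 (R : VR) : ℕ :=
  Nat.land (srM (VR.N R) (VR.S R) (VR.o1 R) (Nat.lor (Nat.shiftRight (Nat.land (Nat.add (VR.upT R)
    (VR.k1 R)) (VR.h1 R)) (nat_lit 15)) (VR.ouT R))) (v3622 R)

noncomputable def s3624 (R : VR) (j i : ℕ) : Bool :=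
  K.band (s3623 R j i) (s3622 R j i)

theorem e3624 (R : VR) : B2 R (v3624 R) (s3624 R) :=
  B.and (e3623 R) (e3622 R)

noncomputable def v3625 (R : VR) : ℕ :=
  Nat.sub (VR.o2 R) (Nat.land (srM (VR.N R) (VR.S R) (VR.o1 R) (Nat.lor (Nat.shiftRight (Nat.land
    (Nat.add (VR.upT R) (VR.k1 R)) (VR.h1 R)) (nat_lit 15)) (VR.ouT R))) (v3622 R))

noncomputable def s3625 (R : VR) (j i : ℕ) : Bool :=
  K.bnot (s3624 R j i)

theorem e3625 (R : VR) : B2 R (v3625 R) (s3625 R) :=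
  B.not (VR.o2e R) (e3624 R)

noncomputable def v3626 (R : VR) : ℕ :=
  Nat.shiftRight (Nat.land (Nat.sub (VR.h1 R) (Nat.mod (Nat.land (Nat.sub (VR.o2 R) (Nat.sub
    (VR.o2 R) (Nat.land (srM (VR.N R) (VR.S R) (VR.o1 R) (Nat.lor (Nat.shiftRight (Nat.land
    (Nat.add (VR.upT R) (VR.k1 R)) (VR.h1 R)) (nat_lit 15)) (VR.ouT R))) (v3622 R)))) (mM (Nat.mul
    (v112 R) (VR.S R)))) (VR.m1 R))) (VR.h1 R)) (nat_lit 15)

noncomputable def s3626 (R : VR) (i : ℕ) : Bool :=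
  K.allN (s112 R) (fun j => (s3625 R j i))

theorem e3626 (R : VR) : B (VR.S R) (v3626 R) (s3626 R) :=
  B.all (e3625 R) (VR.n_le R)

noncomputable def s3627 (R : VR) (i : ℕ) : Bool :=
  K.allN (s112 R) (fun (x128 : ℕ) => (K.bnot (K.band (K.bor (K.bnot (Nat.beq (FC6.Pa.u (VR.P' R)
    x128) (nat_lit 0))) ((FC7.Fc.ou (VR.F R)) x128)) (K.tbit (s3618 R i) (FC7.XE.ce' (VR.X R)
    x128)))))

theorem e3627 (R : VR) : B (VR.S R) (v3626 R) (s3627 R) :=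
  e3626 R

noncomputable def v3628 (R : VR) : ℕ :=
  Nat.sub (VR.o1 R) (Nat.shiftRight (Nat.land (Nat.sub (VR.h1 R) (Nat.mod (Nat.land (Nat.sub
    (VR.o2 R) (Nat.sub (VR.o2 R) (Nat.land (srM (VR.N R) (VR.S R) (VR.o1 R) (Nat.lor
    (Nat.shiftRight (Nat.land (Nat.add (VR.upT R) (VR.k1 R)) (VR.h1 R)) (nat_lit 15)) (VR.ouT R)))
    (v3622 R)))) (mM (Nat.mul (v112 R) (VR.S R)))) (VR.m1 R))) (VR.h1 R)) (nat_lit 15))

noncomputable def s3628 (R : VR) (i : ℕ) : Bool :=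
  K.bnot (s3627 R i)

theorem e3628 (R : VR) : B (VR.S R) (v3628 R) (s3628 R) :=
  B.not (VR.o1e R) (e3627 R)

noncomputable def v3629 (R : VR) : ℕ :=
  Nat.land (VR.lbpT R) (v432 R)

noncomputable def s3629 (R : VR) (i : ℕ) : Bool :=
  K.band (s3540 R i) (s432 R i)

theorem e3629 (R : VR) : B (VR.S R) (v3629 R) (s3629 R) :=
  B.and (e3540 R) (e432 R)

noncomputable def v3630 (R : VR) : ℕ :=
  srM (VR.N R) (VR.S R) (VR.o1 R) (Nat.land (VR.lbpT R) (v432 R))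

noncomputable def s3630 (R : VR) (j i : ℕ) : Bool :=
  (s3629 R j)

theorem e3630 (R : VR) : B2 R (v3630 R) (s3630 R) :=
  B2.row (e3629 R)

noncomputable def v3631 (R : VR) : ℕ :=
  Nat.land (srM (VR.N R) (VR.S R) (VR.o1 R) (Nat.land (VR.lbpT R) (v432 R))) (v3622 R)

noncomputable def s3631 (R : VR) (j i : ℕ) : Bool :=
  K.band (s3630 R j i) (s3622 R j i)

theorem e3631 (R : VR) : B2 R (v3631 R) (s3631 R) :=
  B.and (e3630 R) (e3622 R)

noncomputable def v3632 (R : VR) : ℕ :=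
  gmk (VR.h2 R) (VR.J R) (Nat.mul (v1581 R) (VR.cr1 R))

noncomputable def v3633 (R : VR) : ℕ :=
  Nat.mod (Nat.land (gmk (VR.h2 R) (VR.J R) (Nat.mul (v1581 R) (VR.cr1 R))) (v21 R)) (VR.m1 R)

noncomputable def s3633 (R : VR) (i : ℕ) : ℕ :=
  tx (VR.pw1T R) (s1581 R i)

theorem e3633 (R : VR) : L (VR.S R) (v3633 R) (s3633 R) 16384 :=
  L.gat (e1581 R) (VR.pw1_is R) (VR.pw1_lt R) (VR.pw1_le R)

noncomputable def v3634 (R : VR) : ℕ :=
  srM (VR.N R) (VR.S R) (VR.o1 R) (Nat.mod (Nat.land (gmk (VR.h2 R) (VR.J R) (Nat.mul (v1581 R)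
    (VR.cr1 R))) (v21 R)) (VR.m1 R))

noncomputable def s3634 (R : VR) (j i : ℕ) : ℕ :=
  (s3633 R j)

theorem e3634 (R : VR) : L2 R (v3634 R) (s3634 R) 16384 :=
  L2.row (e3633 R)

noncomputable def v3635 (R : VR) : ℕ :=
  srM (VR.N R) (VR.S R) (VR.o1 R) (v1581 R)

noncomputable def s3635 (R : VR) (j i : ℕ) : ℕ :=
  (s1581 R j)

theorem e3635 (R : VR) : L2 R (v3635 R) (s3635 R) 14 :=
  L2.row (e1581 R)

noncomputable def v3636 (R : VR) : ℕ :=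
  Nat.shiftRight (Nat.land (Nat.add (Nat.land (v3621 R) (srM (VR.N R) (VR.S R) (VR.o1 R) (Nat.mod
    (Nat.land (gmk (VR.h2 R) (VR.J R) (Nat.mul (v1581 R) (VR.cr1 R))) (v21 R)) (VR.m1 R)))) (VR.k2
    R)) (VR.h2 R)) (nat_lit 15)

noncomputable def s3636 (R : VR) (j i : ℕ) : Bool :=
  K.tbit (s3621 R j i) (s1581 R j)

theorem e3636 (R : VR) : B2 R (v3636 R) (s3636 R) :=
  B.of_eq (L.nz (VR.h2e R) (VR.k2e R) (L.land (e3621 R) (e3634 R))) (fun t ht => tb1 _ _ (L.lt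
    (e3621 R) t ht))

noncomputable def v3637 (R : VR) : ℕ :=
  Nat.land (Nat.land (srM (VR.N R) (VR.S R) (VR.o1 R) (Nat.land (VR.lbpT R) (v432 R))) (v3622 R))
    (v3636 R)

noncomputable def s3637 (R : VR) (j i : ℕ) : Bool :=
  K.band (s3631 R j i) (s3636 R j i)

theorem e3637 (R : VR) : B2 R (v3637 R) (s3637 R) :=
  B.and (e3631 R) (e3636 R)

noncomputable def v3638 (R : VR) : ℕ :=
  Nat.sub (VR.o2 R) (Nat.land (Nat.land (srM (VR.N R) (VR.S R) (VR.o1 R) (Nat.land (VR.lbpT R)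
    (v432 R))) (v3622 R)) (v3636 R))

noncomputable def s3638 (R : VR) (j i : ℕ) : Bool :=
  K.bnot (s3637 R j i)

theorem e3638 (R : VR) : B2 R (v3638 R) (s3638 R) :=
  B.not (VR.o2e R) (e3637 R)

noncomputable def v3639 (R : VR) : ℕ :=
  Nat.shiftRight (Nat.land (Nat.sub (VR.h1 R) (Nat.mod (Nat.land (Nat.sub (VR.o2 R) (Nat.sub
    (VR.o2 R) (Nat.land (Nat.land (srM (VR.N R) (VR.S R) (VR.o1 R) (Nat.land (VR.lbpT R) (v432
    R))) (v3622 R)) (v3636 R)))) (mM (Nat.mul (v112 R) (VR.S R)))) (VR.m1 R))) (VR.h1 R)) (nat_lit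
    15)

noncomputable def s3639 (R : VR) (i : ℕ) : Bool :=
  K.allN (s112 R) (fun j => (s3638 R j i))

theorem e3639 (R : VR) : B (VR.S R) (v3639 R) (s3639 R) :=
  B.all (e3638 R) (VR.n_le R)

noncomputable def s3640 (R : VR) (i : ℕ) : Bool :=
  K.allN (s112 R) (fun (x129 : ℕ) => (K.bnot (K.band (K.band (K.band (FC7.OD.lb' (VR.O R) x129)
    (K.bnot (Nat.beq (FC6.Pa.α (VR.P R) x129) x129))) (K.tbit (s3618 R i) (FC7.XE.ce' (VR.X R)
    x129))) (K.tbit (s3618 R i) (FC7.XE.ce' (VR.X R) (FC6.Pa.α (VR.P R) x129))))))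

theorem e3640 (R : VR) : B (VR.S R) (v3639 R) (s3640 R) :=
  e3639 R

noncomputable def v3641 (R : VR) : ℕ :=
  Nat.sub (VR.o1 R) (Nat.shiftRight (Nat.land (Nat.sub (VR.h1 R) (Nat.mod (Nat.land (Nat.sub
    (VR.o2 R) (Nat.sub (VR.o2 R) (Nat.land (Nat.land (srM (VR.N R) (VR.S R) (VR.o1 R) (Nat.land
    (VR.lbpT R) (v432 R))) (v3622 R)) (v3636 R)))) (mM (Nat.mul (v112 R) (VR.S R)))) (VR.m1 R)))
    (VR.h1 R)) (nat_lit 15))

noncomputable def s3641 (R : VR) (i : ℕ) : Bool :=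
  K.bnot (s3640 R i)

theorem e3641 (R : VR) : B (VR.S R) (v3641 R) (s3641 R) :=
  B.not (VR.o1e R) (e3640 R)

noncomputable def v3642 (R : VR) : ℕ :=
  Nat.lor (Nat.sub (VR.o1 R) (Nat.shiftRight (Nat.land (Nat.sub (VR.h1 R) (Nat.mod (Nat.land
    (Nat.sub (VR.o2 R) (Nat.sub (VR.o2 R) (Nat.land (srM (VR.N R) (VR.S R) (VR.o1 R) (Nat.lor
    (Nat.shiftRight (Nat.land (Nat.add (VR.upT R) (VR.k1 R)) (VR.h1 R)) (nat_lit 15)) (VR.ouT R)))
    (v3622 R)))) (mM (Nat.mul (v112 R) (VR.S R)))) (VR.m1 R))) (VR.h1 R)) (nat_lit 15))) (Nat.sub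
    (VR.o1 R) (Nat.shiftRight (Nat.land (Nat.sub (VR.h1 R) (Nat.mod (Nat.land (Nat.sub (VR.o2 R)
    (Nat.sub (VR.o2 R) (Nat.land (Nat.land (srM (VR.N R) (VR.S R) (VR.o1 R) (Nat.land (VR.lbpT R)
    (v432 R))) (v3622 R)) (v3636 R)))) (mM (Nat.mul (v112 R) (VR.S R)))) (VR.m1 R))) (VR.h1 R))
    (nat_lit 15)))

noncomputable def s3642 (R : VR) (i : ℕ) : Bool :=
  K.bor (s3628 R i) (s3641 R i)

theorem e3642 (R : VR) : B (VR.S R) (v3642 R) (s3642 R) :=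
  B.or (e3628 R) (e3641 R)

noncomputable def v3643 (R : VR) : ℕ :=
  Nat.shiftRight (Nat.land (Nat.sub (Nat.add (VR.iota R) (VR.h1 R)) (v3527 R)) (VR.h1 R)) (nat_lit
    15)

noncomputable def s3643 (R : VR) (i : ℕ) : Bool :=
  Nat.ble (s3527 R i) (s0 R i)

theorem e3643 (R : VR) : B (VR.S R) (v3643 R) (s3643 R) :=
  L.ble (VR.h1e R) (e3527 R) (e0 R)

noncomputable def s3644 (R : VR) (i : ℕ) : ℕ :=
  tx (VR.SPMT R) i

theorem e3644 (R : VR) : L (VR.S R) (VR.SPMT R) (s3644 R) 32767 :=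
  VR.SPM_is R

noncomputable def v3645 (R : VR) : ℕ :=
  srM (VR.N R) (VR.S R) (VR.o1 R) (VR.SPMT R)

noncomputable def s3645 (R : VR) (j i : ℕ) : ℕ :=
  (s3644 R j)

theorem e3645 (R : VR) : L2 R (v3645 R) (s3645 R) 32767 :=
  L2.row (e3644 R)

noncomputable def v3646 (R : VR) : ℕ :=
  Nat.land (v3645 R) (v3621 R)

noncomputable def s3646 (R : VR) (j i : ℕ) : ℕ :=
  Nat.land (s3645 R j i) (s3621 R j i)

theorem e3646 (R : VR) : L2 R (v3646 R) (s3646 R) 32767 :=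
  L.land (e3645 R) (e3621 R)

noncomputable def v3647 (R : VR) : ℕ :=
  Nat.shiftRight (Nat.land (Nat.sub (VR.h2 R) (Nat.xor (Nat.land (v3645 R) (v3621 R)) (v3645 R)))
    (VR.h2 R)) (nat_lit 15)

noncomputable def s3647 (R : VR) (j i : ℕ) : Bool :=
  Nat.beq (s3646 R j i) (s3645 R j i)

theorem e3647 (R : VR) : B2 R (v3647 R) (s3647 R) :=
  L.beq (VR.h2e R) (e3646 R) (e3645 R)

noncomputable def v3648 (R : VR) : ℕ :=
  srM (VR.N R) (VR.S R) (VR.o1 R) (v3643 R)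

noncomputable def s3648 (R : VR) (j i : ℕ) : Bool :=
  (s3643 R j)

theorem e3648 (R : VR) : B2 R (v3648 R) (s3648 R) :=
  B2.row (e3643 R)

noncomputable def v3649 (R : VR) : ℕ :=
  Nat.land (srM (VR.N R) (VR.S R) (VR.o1 R) (v3643 R)) (v3647 R)

noncomputable def s3649 (R : VR) (j i : ℕ) : Bool :=
  K.band (s3648 R j i) (s3647 R j i)

theorem e3649 (R : VR) : B2 R (v3649 R) (s3649 R) :=
  B.and (e3648 R) (e3647 R)

noncomputable def v3650 (R : VR) : ℕ :=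
  Nat.sub (VR.o2 R) (Nat.land (srM (VR.N R) (VR.S R) (VR.o1 R) (v3643 R)) (v3647 R))

noncomputable def s3650 (R : VR) (j i : ℕ) : Bool :=
  K.bnot (s3649 R j i)

theorem e3650 (R : VR) : B2 R (v3650 R) (s3650 R) :=
  B.not (VR.o2e R) (e3649 R)

noncomputable def v3651 (R : VR) : ℕ :=
  Nat.shiftRight (Nat.land (Nat.sub (VR.h1 R) (Nat.mod (Nat.land (Nat.sub (VR.o2 R) (Nat.sub
    (VR.o2 R) (Nat.land (srM (VR.N R) (VR.S R) (VR.o1 R) (v3643 R)) (v3647 R)))) (mM (Nat.mul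
    (v624 R) (VR.S R)))) (VR.m1 R))) (VR.h1 R)) (nat_lit 15)

noncomputable def s3651 (R : VR) (i : ℕ) : Bool :=
  K.allN (s624 R) (fun j => (s3650 R j i))

theorem e3651 (R : VR) : B (VR.S R) (v3651 R) (s3651 R) :=
  B.all (e3650 R) (VR.x_le R)

noncomputable def s3652 (R : VR) (i : ℕ) : Bool :=
  K.allN (s624 R) (fun (x130 : ℕ) => (K.bnot (K.band (Nat.ble (FC7.OD.lo (VR.O R)) x130) (Nat.beq
    (Nat.land (tx (VR.SPMT R) x130) (s3618 R i)) (tx (VR.SPMT R) x130)))))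

theorem e3652 (R : VR) : B (VR.S R) (v3651 R) (s3652 R) :=
  e3651 R

noncomputable def v3653 (R : VR) : ℕ :=
  Nat.sub (VR.o1 R) (Nat.shiftRight (Nat.land (Nat.sub (VR.h1 R) (Nat.mod (Nat.land (Nat.sub
    (VR.o2 R) (Nat.sub (VR.o2 R) (Nat.land (srM (VR.N R) (VR.S R) (VR.o1 R) (v3643 R)) (v3647
    R)))) (mM (Nat.mul (v624 R) (VR.S R)))) (VR.m1 R))) (VR.h1 R)) (nat_lit 15))

noncomputable def s3653 (R : VR) (i : ℕ) : Bool :=
  K.bnot (s3652 R i)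

theorem e3653 (R : VR) : B (VR.S R) (v3653 R) (s3653 R) :=
  B.not (VR.o1e R) (e3652 R)

noncomputable def v3654 (R : VR) : ℕ :=
  Nat.lor (v3642 R) (Nat.sub (VR.o1 R) (Nat.shiftRight (Nat.land (Nat.sub (VR.h1 R) (Nat.mod
    (Nat.land (Nat.sub (VR.o2 R) (Nat.sub (VR.o2 R) (Nat.land (srM (VR.N R) (VR.S R) (VR.o1 R)
    (v3643 R)) (v3647 R)))) (mM (Nat.mul (v624 R) (VR.S R)))) (VR.m1 R))) (VR.h1 R)) (nat_lit
    15)))

noncomputable def s3654 (R : VR) (i : ℕ) : Bool :=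
  K.bor (s3642 R i) (s3653 R i)

theorem e3654 (R : VR) : B (VR.S R) (v3654 R) (s3654 R) :=
  B.or (e3642 R) (e3653 R)

noncomputable def v3655 (R : VR) : Bool :=
  Nat.beq (Nat.land (Nat.sub (VR.o1 R) (Nat.lor (v3642 R) (Nat.sub (VR.o1 R) (Nat.shiftRight
    (Nat.land (Nat.sub (VR.h1 R) (Nat.mod (Nat.land (Nat.sub (VR.o2 R) (Nat.sub (VR.o2 R)
    (Nat.land (srM (VR.N R) (VR.S R) (VR.o1 R) (v3643 R)) (v3647 R)))) (mM (Nat.mul (v624 R) (VR.S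
    R)))) (VR.m1 R))) (VR.h1 R)) (nat_lit 15))))) (mM (v3617 R))) (nat_lit 0)

noncomputable def s3655 (R : VR) : Bool :=
  K.allN (s3617 R) (s3654 R)

theorem e3655 (R : VR) : (v3655 R) = s3655 R :=
  all0 (e3654 R) (VR.kdjp_le R)

noncomputable def s3656 (R : VR) : Bool :=
  K.lall (FC7.XE.dj' (VR.X R)) (fun (x131 : ℕ) => (K.bor (K.bor (K.bnot (K.allN (FC6.Pa.n (VR.P
    R)) (fun (x132 : ℕ) => (K.bnot (K.band (K.bor (K.bnot (Nat.beq (FC6.Pa.u (VR.P' R) x132)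
    (nat_lit 0))) ((FC7.Fc.ou (VR.F R)) x132)) (K.tbit x131 (FC7.XE.ce' (VR.X R) x132)))))))
    (K.bnot (K.allN (FC6.Pa.n (VR.P R)) (fun (x133 : ℕ) => (K.bnot (K.band (K.band (K.band
    (FC7.OD.lb' (VR.O R) x133) (K.bnot (Nat.beq (FC6.Pa.α (VR.P R) x133) x133))) (K.tbit x131
    (FC7.XE.ce' (VR.X R) x133))) (K.tbit x131 (FC7.XE.ce' (VR.X R) (FC6.Pa.α (VR.P R)
    x133))))))))) (K.bnot (K.allN (FC7.OD.x (VR.O R)) (fun (x134 : ℕ) => (K.bnot (K.band (Nat.ble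
    (FC7.OD.lo (VR.O R)) x134) (Nat.beq (Nat.land (tx (VR.SPMT R) x134) x131) (tx (VR.SPMT R)
    x134)))))))))

theorem e3656 (R : VR) : (v3655 R) = s3656 R :=
  (e3655 R).trans (lall_lst (VR.kdjp R) (VR.djpT R) (fun (x135 : ℕ) => (K.bor (K.bor (K.bnot
    (K.allN (FC6.Pa.n (VR.P R)) (fun (x136 : ℕ) => (K.bnot (K.band (K.bor (K.bnot (Nat.beq
    (FC6.Pa.u (VR.P' R) x136) (nat_lit 0))) ((FC7.Fc.ou (VR.F R)) x136)) (K.tbit x135 (FC7.XE.ce'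
    (VR.X R) x136))))))) (K.bnot (K.allN (FC6.Pa.n (VR.P R)) (fun (x137 : ℕ) => (K.bnot (K.band
    (K.band (K.band (FC7.OD.lb' (VR.O R) x137) (K.bnot (Nat.beq (FC6.Pa.α (VR.P R) x137) x137)))
    (K.tbit x135 (FC7.XE.ce' (VR.X R) x137))) (K.tbit x135 (FC7.XE.ce' (VR.X R) (FC6.Pa.α (VR.P R)
    x137))))))))) (K.bnot (K.allN (FC7.OD.x (VR.O R)) (fun (x138 : ℕ) => (K.bnot (K.band (Nat.ble
    (FC7.OD.lo (VR.O R)) x138) (Nat.beq (Nat.land (tx (VR.SPMT R) x138) x135) (tx (VR.SPMT R)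
    x138)))))))))).symm

noncomputable def v3657 (R : VR) : ℕ :=
  Nat.lor (v192 R) (v1127 R)

noncomputable def s3657 (R : VR) (i : ℕ) : Bool :=
  K.bor (s192 R i) (s1127 R i)

theorem e3657 (R : VR) : B (VR.S R) (v3657 R) (s3657 R) :=
  B.or (e192 R) (e1127 R)

noncomputable def v3658 (R : VR) : ℕ :=
  gmk (VR.h2 R) (VR.J R) (Nat.mul (v3352 R) (VR.cr1 R))

noncomputable def v3659 (R : VR) : ℕ :=
  Nat.mod (Nat.land (gmk (VR.h2 R) (VR.J R) (Nat.mul (v3352 R) (VR.cr1 R))) (v21 R)) (VR.m1 R)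

noncomputable def s3659 (R : VR) (i : ℕ) : ℕ :=
  tx (VR.pw1T R) (s3352 R i)

theorem e3659 (R : VR) : L (VR.S R) (v3659 R) (s3659 R) 16384 :=
  L.gat (e3352 R) (VR.pw1_is R) (VR.pw1_lt R) (VR.pw1_le R)

noncomputable def v3660 (R : VR) : ℕ :=
  Nat.lor (v1392 R) (Nat.mod (Nat.land (gmk (VR.h2 R) (VR.J R) (Nat.mul (v3352 R) (VR.cr1 R)))
    (v21 R)) (VR.m1 R))

noncomputable def s3660 (R : VR) (i : ℕ) : ℕ :=
  Nat.lor (s1392 R i) (s3659 R i)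

theorem e3660 (R : VR) : L (VR.S R) (v3660 R) (s3660 R) 32767 :=
  L.lor (e1392 R) (e3659 R)

noncomputable def v3661 (R : VR) : ℕ :=
  Nat.mul (Nat.lor (v1392 R) (Nat.mod (Nat.land (gmk (VR.h2 R) (VR.J R) (Nat.mul (v3352 R) (VR.cr1
    R))) (v21 R)) (VR.m1 R))) (VR.cr1 R)

noncomputable def s3661 (R : VR) (j i : ℕ) : ℕ :=
  (s3660 R i)

theorem e3661 (R : VR) : L2 R (v3661 R) (s3661 R) 32767 :=
  L2.rep (e3660 R)

noncomputable def v3662 (R : VR) : ℕ :=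
  Nat.lor (v1393 R) (v3661 R)

noncomputable def s3662 (R : VR) (j i : ℕ) : ℕ :=
  Nat.lor (s1393 R j i) (s3661 R j i)

theorem e3662 (R : VR) : L2 R (v3662 R) (s3662 R) 32767 :=
  L.lor (e1393 R) (e3661 R)

noncomputable def v3663 (R : VR) : ℕ :=
  Nat.shiftRight (Nat.land (Nat.sub (VR.h2 R) (Nat.xor (Nat.lor (v1393 R) (v3661 R)) (v3661 R)))
    (VR.h2 R)) (nat_lit 15)

noncomputable def s3663 (R : VR) (j i : ℕ) : Bool :=
  Nat.beq (s3662 R j i) (s3661 R j i)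

theorem e3663 (R : VR) : B2 R (v3663 R) (s3663 R) :=
  L.beq (VR.h2e R) (e3662 R) (e3661 R)

noncomputable def v3664 (R : VR) : ℕ :=
  Nat.shiftRight (Nat.land (Nat.add (Nat.mod (Nat.land (Nat.shiftRight (Nat.land (Nat.sub (VR.h2
    R) (Nat.xor (Nat.lor (v1393 R) (v3661 R)) (v3661 R))) (VR.h2 R)) (nat_lit 15)) (mM (Nat.mul
    (v1389 R) (VR.S R)))) (VR.m1 R)) (VR.k1 R)) (VR.h1 R)) (nat_lit 15)

noncomputable def s3664 (R : VR) (i : ℕ) : Bool :=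
  K.bnot (K.allN (s1389 R) (fun j => K.bnot (s3663 R j i)))

theorem e3664 (R : VR) : B (VR.S R) (v3664 R) (s3664 R) :=
  B.any (e3663 R) (VR.kdj_le R)

noncomputable def s3665 (R : VR) (i : ℕ) : Bool :=
  K.lany (FC7.XE.dj (VR.X R)) (fun (x139 : ℕ) => (Nat.beq (Nat.lor x139 (Nat.lor (tx (VR.pw1T R)
    (FC7.XE.ce (VR.X R) i)) (tx (VR.pw1T R) (FC7.XE.ce (VR.X R) (FC6.Pa.α (VR.P R) i))))) (Nat.lor
    (tx (VR.pw1T R) (FC7.XE.ce (VR.X R) i)) (tx (VR.pw1T R) (FC7.XE.ce (VR.X R) (FC6.Pa.α (VR.P R)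
    i))))))

theorem e3665 (R : VR) : B (VR.S R) (v3664 R) (s3665 R) :=
  B.of_eq (e3664 R) (fun i _ => (lany_lst (VR.kdj R) (VR.djT R) (fun (x140 : ℕ) => (Nat.beq
    (Nat.lor x140 (Nat.lor (tx (VR.pw1T R) (FC7.XE.ce (VR.X R) i)) (tx (VR.pw1T R) (FC7.XE.ce
    (VR.X R) (FC6.Pa.α (VR.P R) i))))) (Nat.lor (tx (VR.pw1T R) (FC7.XE.ce (VR.X R) i)) (tx
    (VR.pw1T R) (FC7.XE.ce (VR.X R) (FC6.Pa.α (VR.P R) i))))))).symm)

noncomputable def v3666 (R : VR) : ℕ :=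
  Nat.lor (Nat.lor (v192 R) (v1127 R)) (Nat.shiftRight (Nat.land (Nat.add (Nat.mod (Nat.land
    (Nat.shiftRight (Nat.land (Nat.sub (VR.h2 R) (Nat.xor (Nat.lor (v1393 R) (v3661 R)) (v3661
    R))) (VR.h2 R)) (nat_lit 15)) (mM (Nat.mul (v1389 R) (VR.S R)))) (VR.m1 R)) (VR.k1 R)) (VR.h1
    R)) (nat_lit 15))

noncomputable def s3666 (R : VR) (i : ℕ) : Bool :=
  K.bor (s3657 R i) (s3665 R i)

theorem e3666 (R : VR) : B (VR.S R) (v3666 R) (s3666 R) :=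
  B.or (e3657 R) (e3665 R)

noncomputable def v3667 (R : VR) : Bool :=
  Nat.beq (Nat.land (Nat.sub (VR.o1 R) (Nat.lor (Nat.lor (v192 R) (v1127 R)) (Nat.shiftRight
    (Nat.land (Nat.add (Nat.mod (Nat.land (Nat.shiftRight (Nat.land (Nat.sub (VR.h2 R) (Nat.xor
    (Nat.lor (v1393 R) (v3661 R)) (v3661 R))) (VR.h2 R)) (nat_lit 15)) (mM (Nat.mul (v1389 R)
    (VR.S R)))) (VR.m1 R)) (VR.k1 R)) (VR.h1 R)) (nat_lit 15)))) (mM (v112 R))) (nat_lit 0)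

noncomputable def s3667 (R : VR) : Bool :=
  K.allN (s112 R) (s3666 R)

theorem e3667 (R : VR) : (v3667 R) = s3667 R :=
  all0 (e3666 R) (VR.n_le R)

noncomputable def s3668 (R : VR) : Bool :=
  K.allN (s112 R) (fun (x141 : ℕ) => (K.bor (K.bor (Nat.beq (FC6.Pa.α (VR.P R) x141) x141) (K.bnot
    (FC7.OD.lb (VR.O R) x141))) (K.lany (FC7.XE.dj (VR.X R)) (fun (x142 : ℕ) => (Nat.beq (Nat.lor
    x142 (Nat.lor (tx (VR.pw1T R) (FC7.XE.ce (VR.X R) x141)) (tx (VR.pw1T R) (FC7.XE.ce (VR.X R)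
    (FC6.Pa.α (VR.P R) x141))))) (Nat.lor (tx (VR.pw1T R) (FC7.XE.ce (VR.X R) x141)) (tx (VR.pw1T
    R) (FC7.XE.ce (VR.X R) (FC6.Pa.α (VR.P R) x141)))))))))

theorem e3668 (R : VR) : (v3667 R) = s3668 R :=
  e3667 R

noncomputable def v3669 (R : VR) : Bool :=
  K.band (Nat.beq (Nat.land (Nat.sub (VR.o1 R) (Nat.lor (v3642 R) (Nat.sub (VR.o1 R)
    (Nat.shiftRight (Nat.land (Nat.sub (VR.h1 R) (Nat.mod (Nat.land (Nat.sub (VR.o2 R) (Nat.sub
    (VR.o2 R) (Nat.land (srM (VR.N R) (VR.S R) (VR.o1 R) (v3643 R)) (v3647 R)))) (mM (Nat.mul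
    (v624 R) (VR.S R)))) (VR.m1 R))) (VR.h1 R)) (nat_lit 15))))) (mM (v3617 R))) (nat_lit 0))
    (v3667 R)

noncomputable def s3669 (R : VR) : Bool :=
  K.band (s3656 R) (s3668 R)

theorem e3669 (R : VR) : (v3669 R) = s3669 R :=
  congrArg₂ K.band (e3656 R) (e3668 R)

noncomputable def v3670 (R : VR) : ℕ :=
  Nat.mul (VR.stT R) (VR.cr1 R)

noncomputable def s3670 (R : VR) (j i : ℕ) : ℕ :=
  (s3482 R i)

theorem e3670 (R : VR) : L2 R (v3670 R) (s3670 R) 32767 :=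
  L2.rep (e3482 R)

noncomputable def v3671 (R : VR) : ℕ :=
  Nat.shiftRight (Nat.land (Nat.sub (VR.h2 R) (Nat.xor (Nat.mul (VR.stT R) (VR.cr1 R)) (v1393 R)))
    (VR.h2 R)) (nat_lit 15)

noncomputable def s3671 (R : VR) (j i : ℕ) : Bool :=
  Nat.beq (s3670 R j i) (s1393 R j i)

theorem e3671 (R : VR) : B2 R (v3671 R) (s3671 R) :=
  L.beq (VR.h2e R) (e3670 R) (e1393 R)

noncomputable def v3672 (R : VR) : ℕ :=
  Nat.shiftRight (Nat.land (Nat.add (Nat.mod (Nat.land (Nat.shiftRight (Nat.land (Nat.sub (VR.h2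
    R) (Nat.xor (Nat.mul (VR.stT R) (VR.cr1 R)) (v1393 R))) (VR.h2 R)) (nat_lit 15)) (mM (Nat.mul
    (v1389 R) (VR.S R)))) (VR.m1 R)) (VR.k1 R)) (VR.h1 R)) (nat_lit 15)

noncomputable def s3672 (R : VR) (i : ℕ) : Bool :=
  K.bnot (K.allN (s1389 R) (fun j => K.bnot (s3671 R j i)))

theorem e3672 (R : VR) : B (VR.S R) (v3672 R) (s3672 R) :=
  B.any (e3671 R) (VR.kdj_le R)

noncomputable def s3673 (R : VR) (i : ℕ) : Bool :=
  K.lmem (s3482 R i) (FC7.XE.dj (VR.X R))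

theorem e3673 (R : VR) : B (VR.S R) (v3672 R) (s3673 R) :=
  B.of_eq (e3672 R) (fun i _ => (lmem_lst (VR.kdj R) (VR.djT R) (s3482 R i)).symm)

noncomputable def v3674 (R : VR) : ℕ :=
  Nat.land (v771 R) (v3672 R)

noncomputable def s3674 (R : VR) (i : ℕ) : Bool :=
  K.band (s771 R i) (s3673 R i)

theorem e3674 (R : VR) : B (VR.S R) (v3674 R) (s3674 R) :=
  B.and (e771 R) (e3673 R)

noncomputable def v3675 (R : VR) : Bool :=
  Nat.beq (Nat.land (Nat.sub (VR.o1 R) (Nat.land (v771 R) (v3672 R))) (mM (v624 R))) (nat_lit 0)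

noncomputable def s3675 (R : VR) : Bool :=
  K.allN (s624 R) (s3674 R)

theorem e3675 (R : VR) : (v3675 R) = s3675 R :=
  all0 (e3674 R) (VR.x_le R)

noncomputable def s3676 (R : VR) : Bool :=
  K.lall (K.lrange (s624 R)) (fun (x144 : ℕ) => (K.band (Nat.ble (Nat.succ x144) (FC7.OD.x (VR.O
    R))) (K.lmem (FC7.XE.st (VR.X R) x144) (FC7.XE.dj (VR.X R)))))

theorem e3676 (R : VR) : (v3675 R) = s3676 R :=
  (e3675 R).trans (lall_lrange _ (fun (x143 : ℕ) => (K.band (Nat.ble (Nat.succ x143) (FC7.OD.x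
    (VR.O R))) (K.lmem (FC7.XE.st (VR.X R) x143) (FC7.XE.dj (VR.X R)))))).symm

noncomputable def v3677 (R : VR) : Bool :=
  K.band (K.band (Nat.beq (Nat.land (Nat.sub (VR.o1 R) (Nat.lor (v3642 R) (Nat.sub (VR.o1 R)
    (Nat.shiftRight (Nat.land (Nat.sub (VR.h1 R) (Nat.mod (Nat.land (Nat.sub (VR.o2 R) (Nat.sub
    (VR.o2 R) (Nat.land (srM (VR.N R) (VR.S R) (VR.o1 R) (v3643 R)) (v3647 R)))) (mM (Nat.mul
    (v624 R) (VR.S R)))) (VR.m1 R))) (VR.h1 R)) (nat_lit 15))))) (mM (v3617 R))) (nat_lit 0))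
    (v3667 R)) (Nat.beq (Nat.land (Nat.sub (VR.o1 R) (Nat.land (v771 R) (v3672 R))) (mM (v624 R)))
    (nat_lit 0))

noncomputable def s3677 (R : VR) : Bool :=
  K.band (s3669 R) (s3676 R)

theorem e3677 (R : VR) : (v3677 R) = s3677 R :=
  congrArg₂ K.band (e3669 R) (e3676 R)

noncomputable def v3678 (R : VR) : Bool :=
  K.band (v3677 R) (v405 R)

noncomputable def s3678 (R : VR) : Bool :=
  K.band (s3677 R) (s405 R)

theorem e3678 (R : VR) : (v3678 R) = s3678 R :=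
  congrArg₂ K.band (e3677 R) (e405 R)

noncomputable def v3679 (R : VR) : ℕ :=
  srM (VR.N R) (VR.S R) (VR.o1 R) (VR.lbT R)

noncomputable def v3680 (R : VR) : ℕ :=
  Nat.mod (Nat.land (v1315 R) (v3679 R)) (VR.m1 R)

noncomputable def s3680 (R : VR) (i : ℕ) : Bool :=
  tf (VR.lbT R) (s1312 R i)

theorem e3680 (R : VR) : B (VR.S R) (v3680 R) (s3680 R) :=
  B.gat (e1312 R) (VR.lb_is R) (VR.lb_lt R)

noncomputable def v3681 (R : VR) : ℕ :=
  Nat.sub (VR.o1 R) (Nat.mod (Nat.land (v1315 R) (v3679 R)) (VR.m1 R))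

noncomputable def s3681 (R : VR) (i : ℕ) : Bool :=
  K.bnot (s3680 R i)

theorem e3681 (R : VR) : B (VR.S R) (v3681 R) (s3681 R) :=
  B.not (VR.o1e R) (e3680 R)

noncomputable def v3682 (R : VR) : ℕ :=
  srM (VR.N R) (VR.S R) (VR.o1 R) (VR.luT R)

noncomputable def v3683 (R : VR) : ℕ :=
  Nat.mod (Nat.land (v1315 R) (v3682 R)) (VR.m1 R)

noncomputable def s3683 (R : VR) (i : ℕ) : Bool :=
  tf (VR.luT R) (s1312 R i)

theorem e3683 (R : VR) : B (VR.S R) (v3683 R) (s3683 R) :=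
  B.gat (e1312 R) (VR.lu_is R) (VR.lu_lt R)

noncomputable def v3684 (R : VR) : ℕ :=
  Nat.lor (v3681 R) (v3683 R)

noncomputable def s3684 (R : VR) (i : ℕ) : Bool :=
  K.bor (s3681 R i) (s3683 R i)

theorem e3684 (R : VR) : B (VR.S R) (v3684 R) (s3684 R) :=
  B.or (e3681 R) (e3683 R)

noncomputable def v3685 (R : VR) : ℕ :=
  srM (VR.N R) (VR.S R) (VR.o1 R) (VR.roT R)

noncomputable def v3686 (R : VR) : ℕ :=
  Nat.mod (Nat.land (v1315 R) (v3685 R)) (VR.m1 R)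

noncomputable def s3686 (R : VR) (i : ℕ) : Bool :=
  tf (VR.roT R) (s1312 R i)

theorem e3686 (R : VR) : B (VR.S R) (v3686 R) (s3686 R) :=
  B.gat (e1312 R) (VR.ro_is R) (VR.ro_lt R)

noncomputable def v3687 (R : VR) : ℕ :=
  Nat.land (v1323 R) (Nat.mod (Nat.land (v1315 R) (v3685 R)) (VR.m1 R))

noncomputable def s3687 (R : VR) (i : ℕ) : Bool :=
  K.band (s1323 R i) (s3686 R i)

theorem e3687 (R : VR) : B (VR.S R) (v3687 R) (s3687 R) :=
  B.and (e1323 R) (e3686 R)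

noncomputable def s3688 (R : VR) (i : ℕ) : Bool :=
  K.OD_rg (VR.O R) (VR.P R) (s1312 R i)

theorem e3688 (R : VR) : B (VR.S R) (v3687 R) (s3688 R) :=
  e3687 R

noncomputable def v3689 (R : VR) : Bool :=
  false

noncomputable def s3689 (R : VR) : Bool :=
  false

theorem e3689 (R : VR) : (v3689 R) = s3689 R :=
  rfl

noncomputable def v3690 (R : VR) : ℕ :=
  Nat.mul (VR.o1 R) (bt (false))

noncomputable def s3690 (R : VR) (i : ℕ) : Bool :=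
  (s3689 R)

theorem e3690 (R : VR) : B (VR.S R) (v3690 R) (s3690 R) :=
  B.scl (VR.o1e R) (e3689 R)

noncomputable def s3691 (R : VR) (i : ℕ) : Bool :=
  K.lany (FC7.XE.lr (VR.X R)) (fun (x145 : ℕ × Bool × Bool) => (K.band (Nat.beq (Prod.fst x145)
    (s1312 R i)) (Prod.fst (Prod.snd x145))))

theorem e3691 (R : VR) : B (VR.S R) (v3690 R) (s3691 R) :=
  e3690 R

noncomputable def v3692 (R : VR) : ℕ :=
  Nat.mod (Nat.land (v1315 R) (v3555 R)) (VR.m1 R)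

noncomputable def s3692 (R : VR) (i : ℕ) : Bool :=
  tf (VR.lbpT R) (s1312 R i)

theorem e3692 (R : VR) : B (VR.S R) (v3692 R) (s3692 R) :=
  B.gat (e1312 R) (VR.lbp_is R) (VR.lbp_lt R)

noncomputable def v3693 (R : VR) : ℕ :=
  Nat.mul (VR.ar1T R) (VR.cr1 R)

noncomputable def s3693 (R : VR) (j i : ℕ) : ℕ :=
  (s1312 R i)

theorem e3693 (R : VR) : L2 R (v3693 R) (s3693 R) 255 :=
  L2.rep (e1312 R)

noncomputable def v3694 (R : VR) : ℕ :=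
  Nat.shiftRight (Nat.land (Nat.sub (VR.h2 R) (Nat.xor (Nat.mul (VR.ar1T R) (VR.cr1 R)) (v1130
    R))) (VR.h2 R)) (nat_lit 15)

noncomputable def s3694 (R : VR) (j i : ℕ) : Bool :=
  Nat.beq (s3693 R j i) (s1130 R j i)

theorem e3694 (R : VR) : B2 R (v3694 R) (s3694 R) :=
  L.beq (VR.h2e R) (e3693 R) (e1130 R)

noncomputable def v3695 (R : VR) : ℕ :=
  Nat.shiftRight (Nat.land (Nat.add (Nat.mod (Nat.land (Nat.shiftRight (Nat.land (Nat.sub (VR.h2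
    R) (Nat.xor (Nat.mul (VR.ar1T R) (VR.cr1 R)) (v1130 R))) (VR.h2 R)) (nat_lit 15)) (mM (Nat.mul
    (v1128 R) (VR.S R)))) (VR.m1 R)) (VR.k1 R)) (VR.h1 R)) (nat_lit 15)

noncomputable def s3695 (R : VR) (i : ℕ) : Bool :=
  K.bnot (K.allN (s1128 R) (fun j => K.bnot (s3694 R j i)))

theorem e3695 (R : VR) : B (VR.S R) (v3695 R) (s3695 R) :=
  B.any (e3694 R) (VR.kkd_le R)

noncomputable def s3696 (R : VR) (i : ℕ) : Bool :=
  K.lmem (s1312 R i) (FC7.XE.kd (VR.X R))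

theorem e3696 (R : VR) : B (VR.S R) (v3695 R) (s3696 R) :=
  B.of_eq (e3695 R) (fun i _ => (lmem_lst (VR.kkd R) (VR.kdT R) (s1312 R i)).symm)

noncomputable def v3697 (R : VR) : ℕ :=
  Nat.land (Nat.mod (Nat.land (v1315 R) (v3555 R)) (VR.m1 R)) (v3695 R)

noncomputable def s3697 (R : VR) (i : ℕ) : Bool :=
  K.band (s3692 R i) (s3696 R i)

theorem e3697 (R : VR) : B (VR.S R) (v3697 R) (s3697 R) :=
  B.and (e3692 R) (e3696 R)

noncomputable def v3698 (R : VR) : ℕ :=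
  Nat.lor (v3690 R) (Nat.land (Nat.mod (Nat.land (v1315 R) (v3555 R)) (VR.m1 R)) (v3695 R))

noncomputable def s3698 (R : VR) (i : ℕ) : Bool :=
  K.bor (s3691 R i) (s3697 R i)

theorem e3698 (R : VR) : B (VR.S R) (v3698 R) (s3698 R) :=
  B.or (e3691 R) (e3697 R)

noncomputable def v3699 (R : VR) : ℕ :=
  Nat.land (Nat.land (v1323 R) (Nat.mod (Nat.land (v1315 R) (v3685 R)) (VR.m1 R))) (Nat.lor (v3690
    R) (Nat.land (Nat.mod (Nat.land (v1315 R) (v3555 R)) (VR.m1 R)) (v3695 R)))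

noncomputable def s3699 (R : VR) (i : ℕ) : Bool :=
  K.band (s3688 R i) (s3698 R i)

theorem e3699 (R : VR) : B (VR.S R) (v3699 R) (s3699 R) :=
  B.and (e3688 R) (e3698 R)

noncomputable def v3700 (R : VR) : ℕ :=
  Nat.lor (Nat.lor (v3681 R) (v3683 R)) (Nat.land (Nat.land (v1323 R) (Nat.mod (Nat.land (v1315 R)
    (v3685 R)) (VR.m1 R))) (Nat.lor (v3690 R) (Nat.land (Nat.mod (Nat.land (v1315 R) (v3555 R))
    (VR.m1 R)) (v3695 R))))

noncomputable def s3700 (R : VR) (i : ℕ) : Bool :=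
  K.bor (s3684 R i) (s3699 R i)

theorem e3700 (R : VR) : B (VR.S R) (v3700 R) (s3700 R) :=
  B.or (e3684 R) (e3699 R)

noncomputable def v3701 (R : VR) : ℕ :=
  Nat.mod (Nat.land (v3474 R) (v3679 R)) (VR.m1 R)

noncomputable def s3701 (R : VR) (i : ℕ) : Bool :=
  tf (VR.lbT R) (s1313 R i)

theorem e3701 (R : VR) : B (VR.S R) (v3701 R) (s3701 R) :=
  B.gat (e1313 R) (VR.lb_is R) (VR.lb_lt R)

noncomputable def v3702 (R : VR) : ℕ :=
  Nat.sub (VR.o1 R) (Nat.mod (Nat.land (v3474 R) (v3679 R)) (VR.m1 R))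

noncomputable def s3702 (R : VR) (i : ℕ) : Bool :=
  K.bnot (s3701 R i)

theorem e3702 (R : VR) : B (VR.S R) (v3702 R) (s3702 R) :=
  B.not (VR.o1e R) (e3701 R)

noncomputable def v3703 (R : VR) : ℕ :=
  Nat.mod (Nat.land (v3474 R) (v3682 R)) (VR.m1 R)

noncomputable def s3703 (R : VR) (i : ℕ) : Bool :=
  tf (VR.luT R) (s1313 R i)

theorem e3703 (R : VR) : B (VR.S R) (v3703 R) (s3703 R) :=
  B.gat (e1313 R) (VR.lu_is R) (VR.lu_lt R)

noncomputable def v3704 (R : VR) : ℕ :=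
  Nat.lor (v3702 R) (v3703 R)

noncomputable def s3704 (R : VR) (i : ℕ) : Bool :=
  K.bor (s3702 R i) (s3703 R i)

theorem e3704 (R : VR) : B (VR.S R) (v3704 R) (s3704 R) :=
  B.or (e3702 R) (e3703 R)

noncomputable def v3705 (R : VR) : ℕ :=
  Nat.mod (Nat.land (v3474 R) (v3685 R)) (VR.m1 R)

noncomputable def s3705 (R : VR) (i : ℕ) : Bool :=
  tf (VR.roT R) (s1313 R i)

theorem e3705 (R : VR) : B (VR.S R) (v3705 R) (s3705 R) :=
  B.gat (e1313 R) (VR.ro_is R) (VR.ro_lt R)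

noncomputable def v3706 (R : VR) : ℕ :=
  Nat.land (v3476 R) (Nat.mod (Nat.land (v3474 R) (v3685 R)) (VR.m1 R))

noncomputable def s3706 (R : VR) (i : ℕ) : Bool :=
  K.band (s3476 R i) (s3705 R i)

theorem e3706 (R : VR) : B (VR.S R) (v3706 R) (s3706 R) :=
  B.and (e3476 R) (e3705 R)

noncomputable def s3707 (R : VR) (i : ℕ) : Bool :=
  K.OD_rg (VR.O R) (VR.P R) (s1313 R i)

theorem e3707 (R : VR) : B (VR.S R) (v3706 R) (s3707 R) :=
  e3706 R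

noncomputable def s3708 (R : VR) (i : ℕ) : Bool :=
  K.lany (FC7.XE.lr (VR.X R)) (fun (x146 : ℕ × Bool × Bool) => (K.band (Nat.beq (Prod.fst x146)
    (s1313 R i)) (Prod.fst (Prod.snd x146))))

theorem e3708 (R : VR) : B (VR.S R) (v3690 R) (s3708 R) :=
  e3690 R

noncomputable def v3709 (R : VR) : ℕ :=
  Nat.mod (Nat.land (v3474 R) (v3555 R)) (VR.m1 R)

noncomputable def s3709 (R : VR) (i : ℕ) : Bool :=
  tf (VR.lbpT R) (s1313 R i)

theorem e3709 (R : VR) : B (VR.S R) (v3709 R) (s3709 R) :=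
  B.gat (e1313 R) (VR.lbp_is R) (VR.lbp_lt R)

noncomputable def v3710 (R : VR) : ℕ :=
  Nat.shiftRight (Nat.land (Nat.sub (VR.h2 R) (Nat.xor (v1376 R) (v1130 R))) (VR.h2 R)) (nat_lit
    15)

noncomputable def s3710 (R : VR) (j i : ℕ) : Bool :=
  Nat.beq (s1376 R j i) (s1130 R j i)

theorem e3710 (R : VR) : B2 R (v3710 R) (s3710 R) :=
  L.beq (VR.h2e R) (e1376 R) (e1130 R)

noncomputable def v3711 (R : VR) : ℕ :=
  Nat.shiftRight (Nat.land (Nat.add (Nat.mod (Nat.land (Nat.shiftRight (Nat.land (Nat.sub (VR.h2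
    R) (Nat.xor (v1376 R) (v1130 R))) (VR.h2 R)) (nat_lit 15)) (mM (Nat.mul (v1128 R) (VR.S R))))
    (VR.m1 R)) (VR.k1 R)) (VR.h1 R)) (nat_lit 15)

noncomputable def s3711 (R : VR) (i : ℕ) : Bool :=
  K.bnot (K.allN (s1128 R) (fun j => K.bnot (s3710 R j i)))

theorem e3711 (R : VR) : B (VR.S R) (v3711 R) (s3711 R) :=
  B.any (e3710 R) (VR.kkd_le R)

noncomputable def s3712 (R : VR) (i : ℕ) : Bool :=
  K.lmem (s1313 R i) (FC7.XE.kd (VR.X R))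

theorem e3712 (R : VR) : B (VR.S R) (v3711 R) (s3712 R) :=
  B.of_eq (e3711 R) (fun i _ => (lmem_lst (VR.kkd R) (VR.kdT R) (s1313 R i)).symm)

noncomputable def v3713 (R : VR) : ℕ :=
  Nat.land (Nat.mod (Nat.land (v3474 R) (v3555 R)) (VR.m1 R)) (v3711 R)

noncomputable def s3713 (R : VR) (i : ℕ) : Bool :=
  K.band (s3709 R i) (s3712 R i)

theorem e3713 (R : VR) : B (VR.S R) (v3713 R) (s3713 R) :=
  B.and (e3709 R) (e3712 R)

noncomputable def v3714 (R : VR) : ℕ :=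
  Nat.lor (v3690 R) (Nat.land (Nat.mod (Nat.land (v3474 R) (v3555 R)) (VR.m1 R)) (v3711 R))

noncomputable def s3714 (R : VR) (i : ℕ) : Bool :=
  K.bor (s3708 R i) (s3713 R i)

theorem e3714 (R : VR) : B (VR.S R) (v3714 R) (s3714 R) :=
  B.or (e3708 R) (e3713 R)

noncomputable def v3715 (R : VR) : ℕ :=
  Nat.land (Nat.land (v3476 R) (Nat.mod (Nat.land (v3474 R) (v3685 R)) (VR.m1 R))) (Nat.lor (v3690
    R) (Nat.land (Nat.mod (Nat.land (v3474 R) (v3555 R)) (VR.m1 R)) (v3711 R)))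

noncomputable def s3715 (R : VR) (i : ℕ) : Bool :=
  K.band (s3707 R i) (s3714 R i)

theorem e3715 (R : VR) : B (VR.S R) (v3715 R) (s3715 R) :=
  B.and (e3707 R) (e3714 R)

noncomputable def v3716 (R : VR) : ℕ :=
  Nat.lor (Nat.lor (v3702 R) (v3703 R)) (Nat.land (Nat.land (v3476 R) (Nat.mod (Nat.land (v3474 R)
    (v3685 R)) (VR.m1 R))) (Nat.lor (v3690 R) (Nat.land (Nat.mod (Nat.land (v3474 R) (v3555 R))
    (VR.m1 R)) (v3711 R))))

noncomputable def s3716 (R : VR) (i : ℕ) : Bool :=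
  K.bor (s3704 R i) (s3715 R i)

theorem e3716 (R : VR) : B (VR.S R) (v3716 R) (s3716 R) :=
  B.or (e3704 R) (e3715 R)

noncomputable def v3717 (R : VR) : ℕ :=
  Nat.land (Nat.lor (Nat.lor (v3681 R) (v3683 R)) (Nat.land (Nat.land (v1323 R) (Nat.mod (Nat.land
    (v1315 R) (v3685 R)) (VR.m1 R))) (Nat.lor (v3690 R) (Nat.land (Nat.mod (Nat.land (v1315 R)
    (v3555 R)) (VR.m1 R)) (v3695 R))))) (Nat.lor (Nat.lor (v3702 R) (v3703 R)) (Nat.land (Nat.land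
    (v3476 R) (Nat.mod (Nat.land (v3474 R) (v3685 R)) (VR.m1 R))) (Nat.lor (v3690 R) (Nat.land
    (Nat.mod (Nat.land (v3474 R) (v3555 R)) (VR.m1 R)) (v3711 R)))))

noncomputable def s3717 (R : VR) (i : ℕ) : Bool :=
  K.band (s3700 R i) (s3716 R i)

theorem e3717 (R : VR) : B (VR.S R) (v3717 R) (s3717 R) :=
  B.and (e3700 R) (e3716 R)

noncomputable def v3718 (R : VR) : Bool :=
  Nat.beq (Nat.land (Nat.sub (VR.o1 R) (v3717 R)) (mM (v1311 R))) (nat_lit 0)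

noncomputable def s3718 (R : VR) : Bool :=
  K.allN (s1311 R) (s3717 R)

theorem e3718 (R : VR) : (v3718 R) = s3718 R :=
  all0 (e3717 R) (VR.kar_le R)

noncomputable def s3719 (R : VR) : Bool :=
  K.lall (FC7.XE.rs (VR.X R)) (fun (x147 : ℕ) => (K.bor (K.bor (K.bnot (FC7.OD.lb (VR.O R) x147))
    ((FC7.Fc.lu (VR.F R)) x147)) (K.band (K.OD_rg (VR.O R) (VR.P R) x147) (K.bor (K.lany
    (FC7.XE.lr (VR.X R)) (fun (x148 : ℕ × Bool × Bool) => (K.band (Nat.beq (Prod.fst x148) x147)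
    (Prod.fst (Prod.snd x148))))) (K.band (FC7.OD.lb' (VR.O R) x147) (K.lmem x147 (FC7.XE.kd (VR.X
    R))))))))

theorem e3719 (R : VR) : (v3718 R) = s3719 R :=
  (e3718 R).trans (lall_rs (VR.kar R) (VR.ar1T R) (VR.ar2T R) (fun (x149 : ℕ) => (K.bor (K.bor
    (K.bnot (FC7.OD.lb (VR.O R) x149)) ((FC7.Fc.lu (VR.F R)) x149)) (K.band (K.OD_rg (VR.O R)
    (VR.P R) x149) (K.bor (K.lany (FC7.XE.lr (VR.X R)) (fun (x150 : ℕ × Bool × Bool) => (K.band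
    (Nat.beq (Prod.fst x150) x149) (Prod.fst (Prod.snd x150))))) (K.band (FC7.OD.lb' (VR.O R)
    x149) (K.lmem x149 (FC7.XE.kd (VR.X R))))))))).symm

noncomputable def v3720 (R : VR) : Bool :=
  K.band (K.band (v3677 R) (v405 R)) (Nat.beq (Nat.land (Nat.sub (VR.o1 R) (v3717 R)) (mM (v1311
    R))) (nat_lit 0))

noncomputable def s3720 (R : VR) : Bool :=
  K.band (s3678 R) (s3719 R)

theorem e3720 (R : VR) : (v3720 R) = s3720 R :=
  congrArg₂ K.band (e3678 R) (e3719 R)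

noncomputable def v3721 (R : VR) : Bool :=
  true

noncomputable def s3721 (R : VR) : Bool :=
  K.lall (FC7.XE.lr (VR.X R)) (fun (x151 : ℕ × Bool × Bool) => (K.bor (K.bnot (Prod.snd (Prod.snd
    x151))) (K.band (Nat.ble (Nat.succ (Prod.fst x151)) (FC6.Pa.n (VR.P R))) (FC7.OD.lb' (VR.O R)
    (Prod.fst x151)))))

theorem e3721 (R : VR) : (v3721 R) = s3721 R :=
  rfl

noncomputable def v3722 (R : VR) : Bool :=
  K.band (K.band (K.band (v3677 R) (v405 R)) (Nat.beq (Nat.land (Nat.sub (VR.o1 R) (v3717 R)) (mM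
    (v1311 R))) (nat_lit 0))) (true)

noncomputable def s3722 (R : VR) : Bool :=
  K.band (s3720 R) (s3721 R)

theorem e3722 (R : VR) : (v3722 R) = s3722 R :=
  congrArg₂ K.band (e3720 R) (e3721 R)

noncomputable def s3723 (R : VR) : Bool :=
  V2.djs R

theorem e3723 (R : VR) : (v3722 R) = s3723 R :=
  e3722 R

noncomputable def c_djs (R : VR) : Bool :=
  (K.band (K.band (K.band (v3677 R) (v405 R)) (Nat.beq (Nat.land (Nat.sub (VR.o1 R) (v3717 R)) (mM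
    (v1311 R))) (nat_lit 0))) (true))

theorem c_djs_eq (R : VR) : c_djs R = (V2.djs R) :=
  e3723 R

end Vs

end Pool.FC7
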