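import Pool.Agent.FC7.VtH

/-! # Vector form of the static checks: generated file (vgen.py) -/

open Finset

set_option linter.all false

namespace Pool.FC7

open Pool.FC6

namespace Vs

noncomputable def v3724 (R : VR) : ℕ :=
  srM (VR.N R) (VR.S R) (VR.o1 R) (VR.nmT R)

noncomputable def s3724 (R : VR) (j i : ℕ) : ℕ :=
  (s918 R j)

theorem e3724 (R : VR) : L2 R (v3724 R) (s3724 R) 32767 :=
  L2.row (e918 R)

noncomputable def v3725 (R : VR) : ℕ :=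
  Nat.mul (VR.pw1T R) (VR.cr1 R)

noncomputable def s3725 (R : VR) (j i : ℕ) : ℕ :=
  (s19 R i)

theorem e3725 (R : VR) : L2 R (v3725 R) (s3725 R) 16384 :=
  L2.rep (e19 R)

noncomputable def v3726 (R : VR) : ℕ :=
  Nat.land (srM (VR.N R) (VR.S R) (VR.o1 R) (VR.nmT R)) (Nat.mul (VR.pw1T R) (VR.cr1 R))

noncomputable def s3726 (R : VR) (j i : ℕ) : ℕ :=
  Nat.land (s3724 R j i) (s3725 R j i)

theorem e3726 (R : VR) : L2 R (v3726 R) (s3726 R) 32767 :=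
  L.land (e3724 R) (e3725 R)

noncomputable def v3727 (R : VR) : ℕ :=
  Nat.shiftRight (Nat.land (Nat.sub (VR.h2 R) (v3726 R)) (VR.h2 R)) (nat_lit 15)

noncomputable def s3727 (R : VR) (j i : ℕ) : Bool :=
  Nat.beq (s3726 R j i) (nat_lit 0)

theorem e3727 (R : VR) : B2 R (v3727 R) (s3727 R) :=
  L.ez (VR.h2e R) (e3726 R)

noncomputable def v3728 (R : VR) : ℕ :=
  Nat.shiftRight (Nat.land (Nat.add (v3726 R) (VR.k2 R)) (VR.h2 R)) (nat_lit 15)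

noncomputable def s3728 (R : VR) (j i : ℕ) : Bool :=
  K.bnot (Nat.beq (s3726 R j i) (nat_lit 0))

theorem e3728 (R : VR) : B2 R (v3728 R) (s3728 R) :=
  L.nz (VR.h2e R) (VR.k2e R) (e3726 R)

noncomputable def v3729 (R : VR) : ℕ :=
  srM (VR.N R) (VR.S R) (VR.o1 R) (v927 R)

noncomputable def s3729 (R : VR) (j i : ℕ) : ℕ :=
  (s927 R j)

theorem e3729 (R : VR) : L2 R (v3729 R) (s3729 R) 32767 :=
  L2.row (e927 R)

noncomputable def v3730 (R : VR) : ℕ :=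
  Nat.mul (VR.pwhT R) (VR.cr1 R)

noncomputable def s3730 (R : VR) (j i : ℕ) : ℕ :=
  (s928 R i)

theorem e3730 (R : VR) : L2 R (v3730 R) (s3730 R) 16384 :=
  L2.rep (e928 R)

noncomputable def v3731 (R : VR) : ℕ :=
  Nat.land (srM (VR.N R) (VR.S R) (VR.o1 R) (v927 R)) (Nat.mul (VR.pwhT R) (VR.cr1 R))

noncomputable def s3731 (R : VR) (j i : ℕ) : ℕ :=
  Nat.land (s3729 R j i) (s3730 R j i)

theorem e3731 (R : VR) : L2 R (v3731 R) (s3731 R) 32767 :=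
  L.land (e3729 R) (e3730 R)

noncomputable def v3732 (R : VR) : ℕ :=
  Nat.shiftRight (Nat.land (Nat.sub (VR.h2 R) (v3731 R)) (VR.h2 R)) (nat_lit 15)

noncomputable def s3732 (R : VR) (j i : ℕ) : Bool :=
  Nat.beq (s3731 R j i) (nat_lit 0)

theorem e3732 (R : VR) : B2 R (v3732 R) (s3732 R) :=
  L.ez (VR.h2e R) (e3731 R)

noncomputable def v3733 (R : VR) : ℕ :=
  Nat.shiftRight (Nat.land (Nat.add (v3731 R) (VR.k2 R)) (VR.h2 R)) (nat_lit 15)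

noncomputable def s3733 (R : VR) (j i : ℕ) : Bool :=
  K.bnot (Nat.beq (s3731 R j i) (nat_lit 0))

theorem e3733 (R : VR) : B2 R (v3733 R) (s3733 R) :=
  L.nz (VR.h2e R) (VR.k2e R) (e3731 R)

noncomputable def v3734 (R : VR) : ℕ :=
  Nat.lor (Nat.shiftRight (Nat.land (Nat.add (v3726 R) (VR.k2 R)) (VR.h2 R)) (nat_lit 15))
    (Nat.shiftRight (Nat.land (Nat.add (v3731 R) (VR.k2 R)) (VR.h2 R)) (nat_lit 15))

noncomputable def s3734 (R : VR) (j i : ℕ) : Bool :=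
  K.bor (s3728 R j i) (s3733 R j i)

theorem e3734 (R : VR) : B2 R (v3734 R) (s3734 R) :=
  B.or (e3728 R) (e3733 R)

noncomputable def s3735 (R : VR) (j i : ℕ) : Bool :=
  V2.ne R j i

theorem e3735 (R : VR) : B2 R (v3734 R) (s3735 R) :=
  e3734 R

noncomputable def v3736 (R : VR) : ℕ :=
  Nat.land (v934 R) (Nat.lor (Nat.shiftRight (Nat.land (Nat.add (v3726 R) (VR.k2 R)) (VR.h2 R))
    (nat_lit 15)) (Nat.shiftRight (Nat.land (Nat.add (v3731 R) (VR.k2 R)) (VR.h2 R)) (nat_lit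
    15)))

noncomputable def s3736 (R : VR) (j i : ℕ) : Bool :=
  K.band (s935 R j i) (s3735 R j i)

theorem e3736 (R : VR) : B2 R (v3736 R) (s3736 R) :=
  B.and (e935 R) (e3735 R)

noncomputable def v3737 (R : VR) : ℕ :=
  Nat.lor (v937 R) (Nat.land (v934 R) (Nat.lor (Nat.shiftRight (Nat.land (Nat.add (v3726 R) (VR.k2
    R)) (VR.h2 R)) (nat_lit 15)) (Nat.shiftRight (Nat.land (Nat.add (v3731 R) (VR.k2 R)) (VR.h2
    R)) (nat_lit 15))))

noncomputable def s3737 (R : VR) (j i : ℕ) : Bool :=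
  K.bor (s937 R j i) (s3736 R j i)

theorem e3737 (R : VR) : B2 R (v3737 R) (s3737 R) :=
  B.or (e937 R) (e3736 R)

noncomputable def v3738 (R : VR) : ℕ :=
  Nat.shiftRight (Nat.land (Nat.sub (VR.h1 R) (Nat.mod (Nat.land (Nat.sub (VR.o2 R) (Nat.lor (v937
    R) (Nat.land (v934 R) (Nat.lor (Nat.shiftRight (Nat.land (Nat.add (v3726 R) (VR.k2 R)) (VR.h2
    R)) (nat_lit 15)) (Nat.shiftRight (Nat.land (Nat.add (v3731 R) (VR.k2 R)) (VR.h2 R)) (nat_lit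
    15)))))) (mM (Nat.mul (v868 R) (VR.S R)))) (VR.m1 R))) (VR.h1 R)) (nat_lit 15)

noncomputable def s3738 (R : VR) (i : ℕ) : Bool :=
  K.allN (s868 R) (fun j => (s3737 R j i))

theorem e3738 (R : VR) : B (VR.S R) (v3738 R) (s3738 R) :=
  B.all (e3737 R) (VR.leN R (b868 R) (by decide))

noncomputable def s3739 (R : VR) (i : ℕ) : Bool :=
  K.allN (s868 R) (fun (x152 : ℕ) => (K.bor (Nat.beq i x152) (K.band (V2.ne R i x152) (V2.ne R
    x152 i))))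

theorem e3739 (R : VR) : B (VR.S R) (v3738 R) (s3739 R) :=
  e3738 R

noncomputable def v3740 (R : VR) : Bool :=
  Nat.beq (Nat.land (Nat.sub (VR.o1 R) (Nat.shiftRight (Nat.land (Nat.sub (VR.h1 R) (Nat.mod
    (Nat.land (Nat.sub (VR.o2 R) (Nat.lor (v937 R) (Nat.land (v934 R) (Nat.lor (Nat.shiftRight
    (Nat.land (Nat.add (v3726 R) (VR.k2 R)) (VR.h2 R)) (nat_lit 15)) (Nat.shiftRight (Nat.land
    (Nat.add (v3731 R) (VR.k2 R)) (VR.h2 R)) (nat_lit 15)))))) (mM (Nat.mul (v868 R) (VR.S R))))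
    (VR.m1 R))) (VR.h1 R)) (nat_lit 15))) (mM (v624 R))) (nat_lit 0)

noncomputable def s3740 (R : VR) : Bool :=
  K.allN (s624 R) (s3739 R)

theorem e3740 (R : VR) : (v3740 R) = s3740 R :=
  all0 (e3739 R) (VR.x_le R)

noncomputable def s3741 (R : VR) : Bool :=
  K.allN (s624 R) (fun (x153 : ℕ) => (K.allN (FC7.OD.m (VR.O R)) (fun (x154 : ℕ) => (K.bor
    (Nat.beq x153 x154) (K.band (V2.ne R x153 x154) (V2.ne R x154 x153))))))

theorem e3741 (R : VR) : (v3740 R) = s3741 R :=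
  e3740 R

noncomputable def v3742 (R : VR) : ℕ :=
  Nat.shiftRight (Nat.land (Nat.sub (Nat.add (v1333 R) (VR.k1 R)) (VR.lT R)) (VR.h1 R)) (nat_lit
    15)

noncomputable def s3742 (R : VR) (i : ℕ) : Bool :=
  Nat.ble (Nat.succ (s7 R i)) (s1333 R i)

theorem e3742 (R : VR) : B (VR.S R) (v3742 R) (s3742 R) :=
  L.blt (VR.h1e R) (VR.k1e R) (e7 R) (e1333 R)

noncomputable def v3743 (R : VR) : ℕ :=
  Nat.shiftRight (Nat.land (Nat.sub (Nat.add (v1333 R) (VR.k1 R)) (VR.lpT R)) (VR.h1 R)) (nat_lit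
    15)

noncomputable def s3743 (R : VR) (i : ℕ) : Bool :=
  Nat.ble (Nat.succ (s113 R i)) (s1333 R i)

theorem e3743 (R : VR) : B (VR.S R) (v3743 R) (s3743 R) :=
  L.blt (VR.h1e R) (VR.k1e R) (e113 R) (e1333 R)

noncomputable def v3744 (R : VR) : ℕ :=
  Nat.land (v3742 R) (Nat.shiftRight (Nat.land (Nat.sub (Nat.add (v1333 R) (VR.k1 R)) (VR.lpT R))
    (VR.h1 R)) (nat_lit 15))

noncomputable def s3744 (R : VR) (i : ℕ) : Bool :=
  K.band (s3742 R i) (s3743 R i)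

theorem e3744 (R : VR) : B (VR.S R) (v3744 R) (s3744 R) :=
  B.and (e3742 R) (e3743 R)

noncomputable def v3745 (R : VR) : ℕ :=
  Nat.lor (v1600 R) (v1614 R)

noncomputable def s3745 (R : VR) (i : ℕ) : Bool :=
  K.bor (s1600 R i) (s1615 R i)

theorem e3745 (R : VR) : B (VR.S R) (v3745 R) (s3745 R) :=
  B.or (e1600 R) (e1615 R)

noncomputable def v3746 (R : VR) : ℕ :=
  srM (VR.N R) (VR.S R) (VR.o1 R) (VR.nmT R)

noncomputable def v3747 (R : VR) : ℕ :=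
  Nat.mod (Nat.land (v1620 R) (v3746 R)) (VR.m1 R)

noncomputable def s3747 (R : VR) (i : ℕ) : ℕ :=
  tx (VR.nmT R) (s113 R i)

theorem e3747 (R : VR) : L (VR.S R) (v3747 R) (s3747 R) 32767 :=
  L.gat (e113 R) (VR.nm_is R) (VR.nm_lt R) (VR.nm_le R)

noncomputable def v3748 (R : VR) : ℕ :=
  Nat.mod (Nat.land (v1639 R) (v21 R)) (VR.m1 R)

noncomputable def s3748 (R : VR) (i : ℕ) : ℕ :=
  tx (VR.pw1T R) (s1607 R i)

theorem e3748 (R : VR) : L (VR.S R) (v3748 R) (s3748 R) 16384 :=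
  L.gat (e1607 R) (VR.pw1_is R) (VR.pw1_lt R) (VR.pw1_le R)

noncomputable def v3749 (R : VR) : ℕ :=
  Nat.land (v3747 R) (v3748 R)

noncomputable def s3749 (R : VR) (i : ℕ) : ℕ :=
  Nat.land (s3747 R i) (s3748 R i)

theorem e3749 (R : VR) : L (VR.S R) (v3749 R) (s3749 R) 32767 :=
  L.land (e3747 R) (e3748 R)

noncomputable def v3750 (R : VR) : ℕ :=
  Nat.shiftRight (Nat.land (Nat.sub (VR.h1 R) (v3749 R)) (VR.h1 R)) (nat_lit 15)

noncomputable def s3750 (R : VR) (i : ℕ) : Bool :=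
  Nat.beq (s3749 R i) (nat_lit 0)

theorem e3750 (R : VR) : B (VR.S R) (v3750 R) (s3750 R) :=
  L.ez (VR.h1e R) (e3749 R)

noncomputable def v3751 (R : VR) : ℕ :=
  Nat.shiftRight (Nat.land (Nat.add (v3749 R) (VR.k1 R)) (VR.h1 R)) (nat_lit 15)

noncomputable def s3751 (R : VR) (i : ℕ) : Bool :=
  K.bnot (Nat.beq (s3749 R i) (nat_lit 0))

theorem e3751 (R : VR) : B (VR.S R) (v3751 R) (s3751 R) :=
  L.nz (VR.h1e R) (VR.k1e R) (e3749 R)

noncomputable def v3752 (R : VR) : ℕ :=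
  Nat.add (VR.lpT R) (v267 R)

noncomputable def s3752 (R : VR) (i : ℕ) : ℕ :=
  Nat.add (s113 R i) (s267 R i)

theorem e3752 (R : VR) : L (VR.S R) (v3752 R) (s3752 R) 30 :=
  L.add (e113 R) (e267 R) (by decide)

noncomputable def v3753 (R : VR) : ℕ :=
  gmk (VR.h2 R) (VR.J R) (Nat.mul (Nat.add (VR.lpT R) (v267 R)) (VR.cr1 R))

noncomputable def v3754 (R : VR) : ℕ :=
  Nat.mod (Nat.land (v3753 R) (v926 R)) (VR.m1 R)

noncomputable def s3754 (R : VR) (i : ℕ) : ℕ :=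
  tx (VR.nmkT R) (s3752 R i)

theorem e3754 (R : VR) : L (VR.S R) (v3754 R) (s3754 R) 32767 :=
  L.gat (e3752 R) (VR.nmk_is R) (VR.nmk_lt R) (VR.nmk_le R)

noncomputable def v3755 (R : VR) : ℕ :=
  srM (VR.N R) (VR.S R) (VR.o1 R) (VR.pwhT R)

noncomputable def v3756 (R : VR) : ℕ :=
  Nat.mod (Nat.land (v1639 R) (v3755 R)) (VR.m1 R)

noncomputable def s3756 (R : VR) (i : ℕ) : ℕ :=
  tx (VR.pwhT R) (s1607 R i)

theorem e3756 (R : VR) : L (VR.S R) (v3756 R) (s3756 R) 16384 :=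
  L.gat (e1607 R) (VR.pwh_is R) (VR.pwh_lt R) (VR.pwh_le R)

noncomputable def v3757 (R : VR) : ℕ :=
  Nat.land (v3754 R) (v3756 R)

noncomputable def s3757 (R : VR) (i : ℕ) : ℕ :=
  Nat.land (s3754 R i) (s3756 R i)

theorem e3757 (R : VR) : L (VR.S R) (v3757 R) (s3757 R) 32767 :=
  L.land (e3754 R) (e3756 R)

noncomputable def v3758 (R : VR) : ℕ :=
  Nat.shiftRight (Nat.land (Nat.sub (VR.h1 R) (v3757 R)) (VR.h1 R)) (nat_lit 15)

noncomputable def s3758 (R : VR) (i : ℕ) : Bool :=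
  Nat.beq (s3757 R i) (nat_lit 0)

theorem e3758 (R : VR) : B (VR.S R) (v3758 R) (s3758 R) :=
  L.ez (VR.h1e R) (e3757 R)

noncomputable def v3759 (R : VR) : ℕ :=
  Nat.shiftRight (Nat.land (Nat.add (v3757 R) (VR.k1 R)) (VR.h1 R)) (nat_lit 15)

noncomputable def s3759 (R : VR) (i : ℕ) : Bool :=
  K.bnot (Nat.beq (s3757 R i) (nat_lit 0))

theorem e3759 (R : VR) : B (VR.S R) (v3759 R) (s3759 R) :=
  L.nz (VR.h1e R) (VR.k1e R) (e3757 R)

noncomputable def v3760 (R : VR) : ℕ :=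
  Nat.lor (Nat.shiftRight (Nat.land (Nat.add (v3749 R) (VR.k1 R)) (VR.h1 R)) (nat_lit 15))
    (Nat.shiftRight (Nat.land (Nat.add (v3757 R) (VR.k1 R)) (VR.h1 R)) (nat_lit 15))

noncomputable def s3760 (R : VR) (i : ℕ) : Bool :=
  K.bor (s3751 R i) (s3759 R i)

theorem e3760 (R : VR) : B (VR.S R) (v3760 R) (s3760 R) :=
  B.or (e3751 R) (e3759 R)

noncomputable def s3761 (R : VR) (i : ℕ) : Bool :=
  V2.ne R (s113 R i) (s1607 R i)

theorem e3761 (R : VR) : B (VR.S R) (v3760 R) (s3761 R) :=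
  e3760 R

noncomputable def s3762 (R : VR) (i : ℕ) : Bool :=
  K.Fc_ne (VR.F R) (s113 R i) (s1607 R i)

theorem e3762 (R : VR) : B (VR.S R) (v3760 R) (s3762 R) :=
  B.of_eq (e3761 R) (fun i hi => V2.ne_eq R (s113 R i) (s1607 R i) ((L.le (e1607 R) i hi).trans
    (by decide)))

noncomputable def v3763 (R : VR) : ℕ :=
  srM (VR.N R) (VR.S R) (VR.o1 R) (VR.naT R)

noncomputable def v3764 (R : VR) : ℕ :=
  Nat.mod (Nat.land (v1620 R) (v3763 R)) (VR.m1 R)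

noncomputable def s3764 (R : VR) (i : ℕ) : ℕ :=
  tx (VR.naT R) (s113 R i)

theorem e3764 (R : VR) : L (VR.S R) (v3764 R) (s3764 R) 32767 :=
  L.gat (e113 R) (VR.na_is R) (VR.na_lt R) (VR.na_le R)

noncomputable def v3765 (R : VR) : ℕ :=
  Nat.land (Nat.mod (Nat.land (v1620 R) (v3763 R)) (VR.m1 R)) (v3748 R)

noncomputable def s3765 (R : VR) (i : ℕ) : ℕ :=
  Nat.land (s3764 R i) (s3748 R i)

theorem e3765 (R : VR) : L (VR.S R) (v3765 R) (s3765 R) 32767 :=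
  L.land (e3764 R) (e3748 R)

noncomputable def v3766 (R : VR) : ℕ :=
  Nat.shiftRight (Nat.land (Nat.sub (VR.h1 R) (v3765 R)) (VR.h1 R)) (nat_lit 15)

noncomputable def s3766 (R : VR) (i : ℕ) : Bool :=
  Nat.beq (s3765 R i) (nat_lit 0)

theorem e3766 (R : VR) : B (VR.S R) (v3766 R) (s3766 R) :=
  L.ez (VR.h1e R) (e3765 R)

noncomputable def v3767 (R : VR) : ℕ :=
  Nat.shiftRight (Nat.land (Nat.add (v3765 R) (VR.k1 R)) (VR.h1 R)) (nat_lit 15)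

noncomputable def s3767 (R : VR) (i : ℕ) : Bool :=
  K.bnot (Nat.beq (s3765 R i) (nat_lit 0))

theorem e3767 (R : VR) : B (VR.S R) (v3767 R) (s3767 R) :=
  L.nz (VR.h1e R) (VR.k1e R) (e3765 R)

noncomputable def v3768 (R : VR) : ℕ :=
  Nat.mod (Nat.land (v3753 R) (v976 R)) (VR.m1 R)

noncomputable def s3768 (R : VR) (i : ℕ) : ℕ :=
  tx (VR.nakT R) (s3752 R i)

theorem e3768 (R : VR) : L (VR.S R) (v3768 R) (s3768 R) 32767 :=
  L.gat (e3752 R) (VR.nak_is R) (VR.nak_lt R) (VR.nak_le R)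

noncomputable def v3769 (R : VR) : ℕ :=
  Nat.land (Nat.mod (Nat.land (v3753 R) (v976 R)) (VR.m1 R)) (v3756 R)

noncomputable def s3769 (R : VR) (i : ℕ) : ℕ :=
  Nat.land (s3768 R i) (s3756 R i)

theorem e3769 (R : VR) : L (VR.S R) (v3769 R) (s3769 R) 32767 :=
  L.land (e3768 R) (e3756 R)

noncomputable def v3770 (R : VR) : ℕ :=
  Nat.shiftRight (Nat.land (Nat.sub (VR.h1 R) (v3769 R)) (VR.h1 R)) (nat_lit 15)

noncomputable def s3770 (R : VR) (i : ℕ) : Bool :=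
  Nat.beq (s3769 R i) (nat_lit 0)

theorem e3770 (R : VR) : B (VR.S R) (v3770 R) (s3770 R) :=
  L.ez (VR.h1e R) (e3769 R)

noncomputable def v3771 (R : VR) : ℕ :=
  Nat.shiftRight (Nat.land (Nat.add (v3769 R) (VR.k1 R)) (VR.h1 R)) (nat_lit 15)

noncomputable def s3771 (R : VR) (i : ℕ) : Bool :=
  K.bnot (Nat.beq (s3769 R i) (nat_lit 0))

theorem e3771 (R : VR) : B (VR.S R) (v3771 R) (s3771 R) :=
  L.nz (VR.h1e R) (VR.k1e R) (e3769 R)

noncomputable def v3772 (R : VR) : ℕ :=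
  Nat.lor (Nat.shiftRight (Nat.land (Nat.add (v3765 R) (VR.k1 R)) (VR.h1 R)) (nat_lit 15))
    (Nat.shiftRight (Nat.land (Nat.add (v3769 R) (VR.k1 R)) (VR.h1 R)) (nat_lit 15))

noncomputable def s3772 (R : VR) (i : ℕ) : Bool :=
  K.bor (s3767 R i) (s3771 R i)

theorem e3772 (R : VR) : B (VR.S R) (v3772 R) (s3772 R) :=
  B.or (e3767 R) (e3771 R)

noncomputable def s3773 (R : VR) (i : ℕ) : Bool :=
  V2.na R (s113 R i) (s1607 R i)

theorem e3773 (R : VR) : B (VR.S R) (v3772 R) (s3773 R) :=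
  e3772 R

noncomputable def s3774 (R : VR) (i : ℕ) : Bool :=
  K.Fc_na (VR.F R) (s113 R i) (s1607 R i)

theorem e3774 (R : VR) : B (VR.S R) (v3772 R) (s3774 R) :=
  B.of_eq (e3773 R) (fun i hi => V2.na_eq R (s113 R i) (s1607 R i) ((L.le (e1607 R) i hi).trans
    (by decide)))

noncomputable def v3775 (R : VR) : ℕ :=
  Nat.lor (Nat.lor (Nat.shiftRight (Nat.land (Nat.add (v3765 R) (VR.k1 R)) (VR.h1 R)) (nat_lit
    15)) (Nat.shiftRight (Nat.land (Nat.add (v3769 R) (VR.k1 R)) (VR.h1 R)) (nat_lit 15))) (v1603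
    R)

noncomputable def s3775 (R : VR) (i : ℕ) : Bool :=
  K.bor (s3774 R i) (s1603 R i)

theorem e3775 (R : VR) : B (VR.S R) (v3775 R) (s3775 R) :=
  B.or (e3774 R) (e1603 R)

noncomputable def v3776 (R : VR) : ℕ :=
  Nat.lor (Nat.lor (Nat.lor (Nat.shiftRight (Nat.land (Nat.add (v3765 R) (VR.k1 R)) (VR.h1 R))
    (nat_lit 15)) (Nat.shiftRight (Nat.land (Nat.add (v3769 R) (VR.k1 R)) (VR.h1 R)) (nat_lit
    15))) (v1603 R)) (v1608 R)

noncomputable def s3776 (R : VR) (i : ℕ) : Bool :=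
  K.bor (s3775 R i) (s1608 R i)

theorem e3776 (R : VR) : B (VR.S R) (v3776 R) (s3776 R) :=
  B.or (e3775 R) (e1608 R)

noncomputable def v3777 (R : VR) : ℕ :=
  Nat.land (Nat.lor (Nat.shiftRight (Nat.land (Nat.add (v3749 R) (VR.k1 R)) (VR.h1 R)) (nat_lit
    15)) (Nat.shiftRight (Nat.land (Nat.add (v3757 R) (VR.k1 R)) (VR.h1 R)) (nat_lit 15)))
    (Nat.lor (Nat.lor (Nat.lor (Nat.shiftRight (Nat.land (Nat.add (v3765 R) (VR.k1 R)) (VR.h1 R))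
    (nat_lit 15)) (Nat.shiftRight (Nat.land (Nat.add (v3769 R) (VR.k1 R)) (VR.h1 R)) (nat_lit
    15))) (v1603 R)) (v1608 R))

noncomputable def s3777 (R : VR) (i : ℕ) : Bool :=
  K.band (s3762 R i) (s3776 R i)

theorem e3777 (R : VR) : B (VR.S R) (v3777 R) (s3777 R) :=
  B.and (e3762 R) (e3776 R)

noncomputable def v3778 (R : VR) : ℕ :=
  Nat.lor (Nat.lor (v1600 R) (v1614 R)) (Nat.land (Nat.lor (Nat.shiftRight (Nat.land (Nat.add
    (v3749 R) (VR.k1 R)) (VR.h1 R)) (nat_lit 15)) (Nat.shiftRight (Nat.land (Nat.add (v3757 R)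
    (VR.k1 R)) (VR.h1 R)) (nat_lit 15))) (Nat.lor (Nat.lor (Nat.lor (Nat.shiftRight (Nat.land
    (Nat.add (v3765 R) (VR.k1 R)) (VR.h1 R)) (nat_lit 15)) (Nat.shiftRight (Nat.land (Nat.add
    (v3769 R) (VR.k1 R)) (VR.h1 R)) (nat_lit 15))) (v1603 R)) (v1608 R)))

noncomputable def s3778 (R : VR) (i : ℕ) : Bool :=
  K.bor (s3745 R i) (s3777 R i)

theorem e3778 (R : VR) : B (VR.S R) (v3778 R) (s3778 R) :=
  B.or (e3745 R) (e3777 R)

noncomputable def v3779 (R : VR) : ℕ :=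
  Nat.land (Nat.land (v3742 R) (Nat.shiftRight (Nat.land (Nat.sub (Nat.add (v1333 R) (VR.k1 R))
    (VR.lpT R)) (VR.h1 R)) (nat_lit 15))) (v3778 R)

noncomputable def s3779 (R : VR) (i : ℕ) : Bool :=
  K.band (s3744 R i) (s3778 R i)

theorem e3779 (R : VR) : B (VR.S R) (v3779 R) (s3779 R) :=
  B.and (e3744 R) (e3778 R)

noncomputable def v3780 (R : VR) : ℕ :=
  Nat.mul (v1600 R) (VR.cr1 R)

noncomputable def s3780 (R : VR) (j i : ℕ) : Bool :=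
  (s1600 R i)

theorem e3780 (R : VR) : B2 R (v3780 R) (s3780 R) :=
  B2.rep (e1600 R)

noncomputable def v3781 (R : VR) : ℕ :=
  Nat.lor (Nat.mul (v1600 R) (VR.cr1 R)) (v1601 R)

noncomputable def s3781 (R : VR) (j i : ℕ) : Bool :=
  K.bor (s3780 R j i) (s1601 R j i)

theorem e3781 (R : VR) : B2 R (v3781 R) (s3781 R) :=
  B.or (e3780 R) (e1601 R)

noncomputable def v3782 (R : VR) : ℕ :=
  Nat.mod (Nat.land (v1620 R) (v21 R)) (VR.m1 R)

noncomputable def s3782 (R : VR) (i : ℕ) : ℕ :=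
  tx (VR.pw1T R) (s113 R i)

theorem e3782 (R : VR) : L (VR.S R) (v3782 R) (s3782 R) 16384 :=
  L.gat (e113 R) (VR.pw1_is R) (VR.pw1_lt R) (VR.pw1_le R)

noncomputable def v3783 (R : VR) : ℕ :=
  Nat.mul (v3747 R) (VR.cr1 R)

noncomputable def s3783 (R : VR) (j i : ℕ) : ℕ :=
  (s3747 R i)

theorem e3783 (R : VR) : L2 R (v3783 R) (s3783 R) 32767 :=
  L2.rep (e3747 R)

noncomputable def v3784 (R : VR) : ℕ :=
  srM (VR.N R) (VR.S R) (VR.o1 R) (Nat.mod (Nat.land (v1620 R) (v21 R)) (VR.m1 R))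

noncomputable def s3784 (R : VR) (j i : ℕ) : ℕ :=
  (s3782 R j)

theorem e3784 (R : VR) : L2 R (v3784 R) (s3784 R) 16384 :=
  L2.row (e3782 R)

noncomputable def v3785 (R : VR) : ℕ :=
  Nat.land (Nat.mul (v3747 R) (VR.cr1 R)) (srM (VR.N R) (VR.S R) (VR.o1 R) (Nat.mod (Nat.land
    (v1620 R) (v21 R)) (VR.m1 R)))

noncomputable def s3785 (R : VR) (j i : ℕ) : ℕ :=
  Nat.land (s3783 R j i) (s3784 R j i)

theorem e3785 (R : VR) : L2 R (v3785 R) (s3785 R) 32767 :=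
  L.land (e3783 R) (e3784 R)

noncomputable def v3786 (R : VR) : ℕ :=
  Nat.shiftRight (Nat.land (Nat.sub (VR.h2 R) (v3785 R)) (VR.h2 R)) (nat_lit 15)

noncomputable def s3786 (R : VR) (j i : ℕ) : Bool :=
  Nat.beq (s3785 R j i) (nat_lit 0)

theorem e3786 (R : VR) : B2 R (v3786 R) (s3786 R) :=
  L.ez (VR.h2e R) (e3785 R)

noncomputable def v3787 (R : VR) : ℕ :=
  Nat.shiftRight (Nat.land (Nat.add (v3785 R) (VR.k2 R)) (VR.h2 R)) (nat_lit 15)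

noncomputable def s3787 (R : VR) (j i : ℕ) : Bool :=
  K.bnot (Nat.beq (s3785 R j i) (nat_lit 0))

theorem e3787 (R : VR) : B2 R (v3787 R) (s3787 R) :=
  L.nz (VR.h2e R) (VR.k2e R) (e3785 R)

noncomputable def v3788 (R : VR) : ℕ :=
  Nat.mod (Nat.land (v1620 R) (v3755 R)) (VR.m1 R)

noncomputable def s3788 (R : VR) (i : ℕ) : ℕ :=
  tx (VR.pwhT R) (s113 R i)

theorem e3788 (R : VR) : L (VR.S R) (v3788 R) (s3788 R) 16384 :=
  L.gat (e113 R) (VR.pwh_is R) (VR.pwh_lt R) (VR.pwh_le R)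

noncomputable def v3789 (R : VR) : ℕ :=
  Nat.mul (v3754 R) (VR.cr1 R)

noncomputable def s3789 (R : VR) (j i : ℕ) : ℕ :=
  (s3754 R i)

theorem e3789 (R : VR) : L2 R (v3789 R) (s3789 R) 32767 :=
  L2.rep (e3754 R)

noncomputable def v3790 (R : VR) : ℕ :=
  srM (VR.N R) (VR.S R) (VR.o1 R) (Nat.mod (Nat.land (v1620 R) (v3755 R)) (VR.m1 R))

noncomputable def s3790 (R : VR) (j i : ℕ) : ℕ :=
  (s3788 R j)

theorem e3790 (R : VR) : L2 R (v3790 R) (s3790 R) 16384 :=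
  L2.row (e3788 R)

noncomputable def v3791 (R : VR) : ℕ :=
  Nat.land (Nat.mul (v3754 R) (VR.cr1 R)) (srM (VR.N R) (VR.S R) (VR.o1 R) (Nat.mod (Nat.land
    (v1620 R) (v3755 R)) (VR.m1 R)))

noncomputable def s3791 (R : VR) (j i : ℕ) : ℕ :=
  Nat.land (s3789 R j i) (s3790 R j i)

theorem e3791 (R : VR) : L2 R (v3791 R) (s3791 R) 32767 :=
  L.land (e3789 R) (e3790 R)

noncomputable def v3792 (R : VR) : ℕ :=
  Nat.shiftRight (Nat.land (Nat.sub (VR.h2 R) (v3791 R)) (VR.h2 R)) (nat_lit 15)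

noncomputable def s3792 (R : VR) (j i : ℕ) : Bool :=
  Nat.beq (s3791 R j i) (nat_lit 0)

theorem e3792 (R : VR) : B2 R (v3792 R) (s3792 R) :=
  L.ez (VR.h2e R) (e3791 R)

noncomputable def v3793 (R : VR) : ℕ :=
  Nat.shiftRight (Nat.land (Nat.add (v3791 R) (VR.k2 R)) (VR.h2 R)) (nat_lit 15)

noncomputable def s3793 (R : VR) (j i : ℕ) : Bool :=
  K.bnot (Nat.beq (s3791 R j i) (nat_lit 0))

theorem e3793 (R : VR) : B2 R (v3793 R) (s3793 R) :=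
  L.nz (VR.h2e R) (VR.k2e R) (e3791 R)

noncomputable def v3794 (R : VR) : ℕ :=
  Nat.lor (Nat.shiftRight (Nat.land (Nat.add (v3785 R) (VR.k2 R)) (VR.h2 R)) (nat_lit 15))
    (Nat.shiftRight (Nat.land (Nat.add (v3791 R) (VR.k2 R)) (VR.h2 R)) (nat_lit 15))

noncomputable def s3794 (R : VR) (j i : ℕ) : Bool :=
  K.bor (s3787 R j i) (s3793 R j i)

theorem e3794 (R : VR) : B2 R (v3794 R) (s3794 R) :=
  B.or (e3787 R) (e3793 R)

noncomputable def s3795 (R : VR) (j i : ℕ) : Bool :=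
  V2.ne R (s113 R i) (s113 R j)

theorem e3795 (R : VR) : B2 R (v3794 R) (s3795 R) :=
  e3794 R

noncomputable def s3796 (R : VR) (j i : ℕ) : Bool :=
  K.Fc_ne (VR.F R) (s113 R i) (s113 R j)

theorem e3796 (R : VR) : B2 R (v3794 R) (s3796 R) :=
  B.of_eq (e3795 R) (fun t ht => V2.ne_eq R (s113 R (t % VR.S R)) (s113 R (t / VR.S R)) ((L.le
    (e114 R) t ht).trans (by decide)))

noncomputable def v3797 (R : VR) : ℕ :=
  Nat.lor (Nat.lor (Nat.mul (v1600 R) (VR.cr1 R)) (v1601 R)) (Nat.lor (Nat.shiftRight (Nat.land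
    (Nat.add (v3785 R) (VR.k2 R)) (VR.h2 R)) (nat_lit 15)) (Nat.shiftRight (Nat.land (Nat.add
    (v3791 R) (VR.k2 R)) (VR.h2 R)) (nat_lit 15)))

noncomputable def s3797 (R : VR) (j i : ℕ) : Bool :=
  K.bor (s3781 R j i) (s3796 R j i)

theorem e3797 (R : VR) : B2 R (v3797 R) (s3797 R) :=
  B.or (e3781 R) (e3796 R)

noncomputable def v3798 (R : VR) : ℕ :=
  Nat.mod (Nat.land (v1639 R) (v3746 R)) (VR.m1 R)

noncomputable def s3798 (R : VR) (i : ℕ) : ℕ :=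
  tx (VR.nmT R) (s1607 R i)

theorem e3798 (R : VR) : L (VR.S R) (v3798 R) (s3798 R) 32767 :=
  L.gat (e1607 R) (VR.nm_is R) (VR.nm_lt R) (VR.nm_le R)

noncomputable def v3799 (R : VR) : ℕ :=
  Nat.mul (v3798 R) (VR.cr1 R)

noncomputable def s3799 (R : VR) (j i : ℕ) : ℕ :=
  (s3798 R i)

theorem e3799 (R : VR) : L2 R (v3799 R) (s3799 R) 32767 :=
  L2.rep (e3798 R)

noncomputable def v3800 (R : VR) : ℕ :=
  srM (VR.N R) (VR.S R) (VR.o1 R) (v3748 R)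

noncomputable def s3800 (R : VR) (j i : ℕ) : ℕ :=
  (s3748 R j)

theorem e3800 (R : VR) : L2 R (v3800 R) (s3800 R) 16384 :=
  L2.row (e3748 R)

noncomputable def v3801 (R : VR) : ℕ :=
  Nat.land (Nat.mul (v3798 R) (VR.cr1 R)) (srM (VR.N R) (VR.S R) (VR.o1 R) (v3748 R))

noncomputable def s3801 (R : VR) (j i : ℕ) : ℕ :=
  Nat.land (s3799 R j i) (s3800 R j i)

theorem e3801 (R : VR) : L2 R (v3801 R) (s3801 R) 32767 :=
  L.land (e3799 R) (e3800 R)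

noncomputable def v3802 (R : VR) : ℕ :=
  Nat.shiftRight (Nat.land (Nat.sub (VR.h2 R) (v3801 R)) (VR.h2 R)) (nat_lit 15)

noncomputable def s3802 (R : VR) (j i : ℕ) : Bool :=
  Nat.beq (s3801 R j i) (nat_lit 0)

theorem e3802 (R : VR) : B2 R (v3802 R) (s3802 R) :=
  L.ez (VR.h2e R) (e3801 R)

noncomputable def v3803 (R : VR) : ℕ :=
  Nat.shiftRight (Nat.land (Nat.add (v3801 R) (VR.k2 R)) (VR.h2 R)) (nat_lit 15)

noncomputable def s3803 (R : VR) (j i : ℕ) : Bool :=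
  K.bnot (Nat.beq (s3801 R j i) (nat_lit 0))

theorem e3803 (R : VR) : B2 R (v3803 R) (s3803 R) :=
  L.nz (VR.h2e R) (VR.k2e R) (e3801 R)

noncomputable def v3804 (R : VR) : ℕ :=
  Nat.add (v1607 R) (v267 R)

noncomputable def s3804 (R : VR) (i : ℕ) : ℕ :=
  Nat.add (s1607 R i) (s267 R i)

theorem e3804 (R : VR) : L (VR.S R) (v3804 R) (s3804 R) 30 :=
  L.add (e1607 R) (e267 R) (by decide)

noncomputable def v3805 (R : VR) : ℕ :=
  gmk (VR.h2 R) (VR.J R) (Nat.mul (Nat.add (v1607 R) (v267 R)) (VR.cr1 R))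

noncomputable def v3806 (R : VR) : ℕ :=
  Nat.mod (Nat.land (gmk (VR.h2 R) (VR.J R) (Nat.mul (Nat.add (v1607 R) (v267 R)) (VR.cr1 R)))
    (v926 R)) (VR.m1 R)

noncomputable def s3806 (R : VR) (i : ℕ) : ℕ :=
  tx (VR.nmkT R) (s3804 R i)

theorem e3806 (R : VR) : L (VR.S R) (v3806 R) (s3806 R) 32767 :=
  L.gat (e3804 R) (VR.nmk_is R) (VR.nmk_lt R) (VR.nmk_le R)

noncomputable def v3807 (R : VR) : ℕ :=
  Nat.mul (v3806 R) (VR.cr1 R)

noncomputable def s3807 (R : VR) (j i : ℕ) : ℕ :=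
  (s3806 R i)

theorem e3807 (R : VR) : L2 R (v3807 R) (s3807 R) 32767 :=
  L2.rep (e3806 R)

noncomputable def v3808 (R : VR) : ℕ :=
  srM (VR.N R) (VR.S R) (VR.o1 R) (v3756 R)

noncomputable def s3808 (R : VR) (j i : ℕ) : ℕ :=
  (s3756 R j)

theorem e3808 (R : VR) : L2 R (v3808 R) (s3808 R) 16384 :=
  L2.row (e3756 R)

noncomputable def v3809 (R : VR) : ℕ :=
  Nat.land (Nat.mul (v3806 R) (VR.cr1 R)) (srM (VR.N R) (VR.S R) (VR.o1 R) (v3756 R))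

noncomputable def s3809 (R : VR) (j i : ℕ) : ℕ :=
  Nat.land (s3807 R j i) (s3808 R j i)

theorem e3809 (R : VR) : L2 R (v3809 R) (s3809 R) 32767 :=
  L.land (e3807 R) (e3808 R)

noncomputable def v3810 (R : VR) : ℕ :=
  Nat.shiftRight (Nat.land (Nat.sub (VR.h2 R) (v3809 R)) (VR.h2 R)) (nat_lit 15)

noncomputable def s3810 (R : VR) (j i : ℕ) : Bool :=
  Nat.beq (s3809 R j i) (nat_lit 0)

theorem e3810 (R : VR) : B2 R (v3810 R) (s3810 R) :=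
  L.ez (VR.h2e R) (e3809 R)

noncomputable def v3811 (R : VR) : ℕ :=
  Nat.shiftRight (Nat.land (Nat.add (v3809 R) (VR.k2 R)) (VR.h2 R)) (nat_lit 15)

noncomputable def s3811 (R : VR) (j i : ℕ) : Bool :=
  K.bnot (Nat.beq (s3809 R j i) (nat_lit 0))

theorem e3811 (R : VR) : B2 R (v3811 R) (s3811 R) :=
  L.nz (VR.h2e R) (VR.k2e R) (e3809 R)

noncomputable def v3812 (R : VR) : ℕ :=
  Nat.lor (Nat.shiftRight (Nat.land (Nat.add (v3801 R) (VR.k2 R)) (VR.h2 R)) (nat_lit 15))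
    (Nat.shiftRight (Nat.land (Nat.add (v3809 R) (VR.k2 R)) (VR.h2 R)) (nat_lit 15))

noncomputable def s3812 (R : VR) (j i : ℕ) : Bool :=
  K.bor (s3803 R j i) (s3811 R j i)

theorem e3812 (R : VR) : B2 R (v3812 R) (s3812 R) :=
  B.or (e3803 R) (e3811 R)

noncomputable def s3813 (R : VR) (j i : ℕ) : Bool :=
  V2.ne R (s1607 R i) (s1607 R j)

theorem e3813 (R : VR) : B2 R (v3812 R) (s3813 R) :=
  e3812 R

noncomputable def s3814 (R : VR) (j i : ℕ) : Bool :=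
  K.Fc_ne (VR.F R) (s1607 R i) (s1607 R j)

theorem e3814 (R : VR) : B2 R (v3812 R) (s3814 R) :=
  B.of_eq (e3813 R) (fun t ht => V2.ne_eq R (s1607 R (t % VR.S R)) (s1607 R (t / VR.S R)) ((L.le
    (e3581 R) t ht).trans (by decide)))

noncomputable def v3815 (R : VR) : ℕ :=
  Nat.lor (Nat.lor (Nat.lor (Nat.mul (v1600 R) (VR.cr1 R)) (v1601 R)) (Nat.lor (Nat.shiftRight
    (Nat.land (Nat.add (v3785 R) (VR.k2 R)) (VR.h2 R)) (nat_lit 15)) (Nat.shiftRight (Nat.land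
    (Nat.add (v3791 R) (VR.k2 R)) (VR.h2 R)) (nat_lit 15)))) (Nat.lor (Nat.shiftRight (Nat.land
    (Nat.add (v3801 R) (VR.k2 R)) (VR.h2 R)) (nat_lit 15)) (Nat.shiftRight (Nat.land (Nat.add
    (v3809 R) (VR.k2 R)) (VR.h2 R)) (nat_lit 15)))

noncomputable def s3815 (R : VR) (j i : ℕ) : Bool :=
  K.bor (s3797 R j i) (s3814 R j i)

theorem e3815 (R : VR) : B2 R (v3815 R) (s3815 R) :=
  B.or (e3797 R) (e3814 R)

noncomputable def v3816 (R : VR) : ℕ :=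
  Nat.mul (v1614 R) (VR.cr1 R)

noncomputable def s3816 (R : VR) (j i : ℕ) : Bool :=
  (s1615 R i)

theorem e3816 (R : VR) : B2 R (v3816 R) (s3816 R) :=
  B2.rep (e1615 R)

noncomputable def v3817 (R : VR) : ℕ :=
  Nat.land (Nat.mul (v1614 R) (VR.cr1 R)) (v1616 R)

noncomputable def s3817 (R : VR) (j i : ℕ) : Bool :=
  K.band (s3816 R j i) (s1616 R j i)

theorem e3817 (R : VR) : B2 R (v3817 R) (s3817 R) :=
  B.and (e3816 R) (e1616 R)

noncomputable def v3818 (R : VR) : ℕ :=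
  Nat.lor (v3815 R) (Nat.land (Nat.mul (v1614 R) (VR.cr1 R)) (v1616 R))

noncomputable def s3818 (R : VR) (j i : ℕ) : Bool :=
  K.bor (s3815 R j i) (s3817 R j i)

theorem e3818 (R : VR) : B2 R (v3818 R) (s3818 R) :=
  B.or (e3815 R) (e3817 R)

noncomputable def v3819 (R : VR) : ℕ :=
  Nat.shiftRight (Nat.land (Nat.sub (Nat.add (v12 R) (VR.k2 R)) (v528 R)) (VR.h2 R)) (nat_lit 15)

noncomputable def s3819 (R : VR) (j i : ℕ) : Bool :=
  Nat.ble (Nat.succ (s528 R j i)) (s12 R j i)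

theorem e3819 (R : VR) : B2 R (v3819 R) (s3819 R) :=
  L.blt (VR.h2e R) (VR.k2e R) (e528 R) (e12 R)

noncomputable def v3820 (R : VR) : ℕ :=
  Nat.sub (VR.o2 R) (Nat.shiftRight (Nat.land (Nat.sub (Nat.add (v12 R) (VR.k2 R)) (v528 R))
    (VR.h2 R)) (nat_lit 15))

noncomputable def s3820 (R : VR) (j i : ℕ) : Bool :=
  K.bnot (s3819 R j i)

theorem e3820 (R : VR) : B2 R (v3820 R) (s3820 R) :=
  B.not (VR.o2e R) (e3819 R)

noncomputable def v3821 (R : VR) : ℕ :=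
  Nat.lor (Nat.sub (VR.o2 R) (Nat.shiftRight (Nat.land (Nat.sub (Nat.add (v12 R) (VR.k2 R)) (v528
    R)) (VR.h2 R)) (nat_lit 15))) (Nat.lor (v3815 R) (Nat.land (Nat.mul (v1614 R) (VR.cr1 R))
    (v1616 R)))

noncomputable def s3821 (R : VR) (j i : ℕ) : Bool :=
  K.bor (s3820 R j i) (s3818 R j i)

theorem e3821 (R : VR) : B2 R (v3821 R) (s3821 R) :=
  B.or (e3820 R) (e3818 R)

noncomputable def v3822 (R : VR) : ℕ :=
  Nat.shiftRight (Nat.land (Nat.sub (VR.h1 R) (Nat.mod (Nat.sub (VR.o2 R) (Nat.lor (Nat.sub (VR.o2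
    R) (Nat.shiftRight (Nat.land (Nat.sub (Nat.add (v12 R) (VR.k2 R)) (v528 R)) (VR.h2 R))
    (nat_lit 15))) (Nat.lor (v3815 R) (Nat.land (Nat.mul (v1614 R) (VR.cr1 R)) (v1616 R)))))
    (VR.m1 R))) (VR.h1 R)) (nat_lit 15)

noncomputable def s3822 (R : VR) (i : ℕ) : Bool :=
  K.allN i (fun j => (s3818 R j i))

theorem e3822 (R : VR) : B (VR.S R) (v3822 R) (s3822 R) :=
  B.allv (fun j i => (s3818 R j i)) (e3821 R)

noncomputable def s3823 (R : VR) (i : ℕ) : Bool :=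
  K.allN i (fun (x155 : ℕ) => (K.bor (K.bor (K.bor (K.bor (K.bnot (FC6.Pa.real (VR.P' R) i))
    (K.bnot (FC6.Pa.real (VR.P' R) x155))) (K.Fc_ne (VR.F R) (FC6.Pa.l (VR.P' R) i) (FC6.Pa.l
    (VR.P' R) x155))) (K.Fc_ne (VR.F R) (FC6.Pa.l (VR.P' R) (FC6.Pa.φ (VR.P' R) i)) (FC6.Pa.l
    (VR.P' R) (FC6.Pa.φ (VR.P' R) x155)))) (K.band (K.Fc_un (VR.F R) i) (K.Fc_un (VR.F R) x155))))

theorem e3823 (R : VR) : B (VR.S R) (v3822 R) (s3823 R) :=
  e3822 R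

noncomputable def v3824 (R : VR) : ℕ :=
  Nat.land (Nat.land (Nat.land (v3742 R) (Nat.shiftRight (Nat.land (Nat.sub (Nat.add (v1333 R)
    (VR.k1 R)) (VR.lpT R)) (VR.h1 R)) (nat_lit 15))) (v3778 R)) (Nat.shiftRight (Nat.land (Nat.sub
    (VR.h1 R) (Nat.mod (Nat.sub (VR.o2 R) (Nat.lor (Nat.sub (VR.o2 R) (Nat.shiftRight (Nat.land
    (Nat.sub (Nat.add (v12 R) (VR.k2 R)) (v528 R)) (VR.h2 R)) (nat_lit 15))) (Nat.lor (v3815 R)
    (Nat.land (Nat.mul (v1614 R) (VR.cr1 R)) (v1616 R))))) (VR.m1 R))) (VR.h1 R)) (nat_lit 15))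

noncomputable def s3824 (R : VR) (i : ℕ) : Bool :=
  K.band (s3779 R i) (s3823 R i)

theorem e3824 (R : VR) : B (VR.S R) (v3824 R) (s3824 R) :=
  B.and (e3779 R) (e3823 R)

noncomputable def v3825 (R : VR) : Bool :=
  Nat.beq (Nat.land (Nat.sub (VR.o1 R) (v3824 R)) (mM (v112 R))) (nat_lit 0)

noncomputable def s3825 (R : VR) : Bool :=
  K.allN (s112 R) (s3824 R)

theorem e3825 (R : VR) : (v3825 R) = s3825 R :=
  all0 (e3824 R) (VR.n_le R)

noncomputable def s3826 (R : VR) : Bool :=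
  K.allN (s112 R) (fun (x156 : ℕ) => (K.band (K.band (K.band (Nat.ble (Nat.succ (FC6.Pa.l (VR.P R)
    x156)) (FC7.Fc.nl (VR.F R))) (Nat.ble (Nat.succ (FC6.Pa.l (VR.P' R) x156)) (FC7.Fc.nl (VR.F
    R)))) (K.bor (K.bor (K.bnot (FC6.Pa.real (VR.P' R) x156)) (K.Fc_un (VR.F R) x156)) (K.band
    (K.Fc_ne (VR.F R) (FC6.Pa.l (VR.P' R) x156) (FC6.Pa.l (VR.P' R) (FC6.Pa.φ (VR.P' R) x156)))
    (K.bor (K.bor (K.Fc_na (VR.F R) (FC6.Pa.l (VR.P' R) x156) (FC6.Pa.l (VR.P' R) (FC6.Pa.φ (VR.P'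
    R) x156))) (Nat.ble (Nat.succ (FC6.Pa.l (VR.P' R) x156)) (FC7.OD.x (VR.O R)))) (Nat.ble
    (Nat.succ (FC6.Pa.l (VR.P' R) (FC6.Pa.φ (VR.P' R) x156))) (FC7.OD.x (VR.O R))))))) (K.allN
    x156 (fun (x157 : ℕ) => (K.bor (K.bor (K.bor (K.bor (K.bnot (FC6.Pa.real (VR.P' R) x156))
    (K.bnot (FC6.Pa.real (VR.P' R) x157))) (K.Fc_ne (VR.F R) (FC6.Pa.l (VR.P' R) x156) (FC6.Pa.l
    (VR.P' R) x157))) (K.Fc_ne (VR.F R) (FC6.Pa.l (VR.P' R) (FC6.Pa.φ (VR.P' R) x156)) (FC6.Pa.l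
    (VR.P' R) (FC6.Pa.φ (VR.P' R) x157)))) (K.band (K.Fc_un (VR.F R) x156) (K.Fc_un (VR.F R)
    x157)))))))

theorem e3826 (R : VR) : (v3825 R) = s3826 R :=
  e3825 R

noncomputable def v3827 (R : VR) : Bool :=
  K.band (v3740 R) (Nat.beq (Nat.land (Nat.sub (VR.o1 R) (v3824 R)) (mM (v112 R))) (nat_lit 0))

noncomputable def s3827 (R : VR) : Bool :=
  K.band (s3741 R) (s3826 R)

theorem e3827 (R : VR) : (v3827 R) = s3827 R :=
  congrArg₂ K.band (e3741 R) (e3826 R)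

noncomputable def s3828 (R : VR) : Bool :=
  V2.fchkS R

theorem e3828 (R : VR) : (v3827 R) = s3828 R :=
  e3827 R

noncomputable def c_fchkS (R : VR) : Bool :=
  (K.band (v3740 R) (Nat.beq (Nat.land (Nat.sub (VR.o1 R) (v3824 R)) (mM (v112 R))) (nat_lit 0)))

theorem c_fchkS_eq (R : VR) : c_fchkS R = (V2.fchkS R) :=
  e3828 R

noncomputable def v3829 (R : VR) : ℕ :=
  Nat.shiftRight (Nat.land (Nat.sub (VR.h1 R) (VR.slT R)) (VR.h1 R)) (nat_lit 15)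

noncomputable def s3829 (R : VR) (i : ℕ) : Bool :=
  Nat.beq (s3604 R i) (nat_lit 0)

theorem e3829 (R : VR) : B (VR.S R) (v3829 R) (s3829 R) :=
  L.ez (VR.h1e R) (e3604 R)

noncomputable def v3830 (R : VR) : ℕ :=
  Nat.mul (v3829 R) (VR.cr1 R)

noncomputable def s3830 (R : VR) (j i : ℕ) : Bool :=
  (s3829 R i)

theorem e3830 (R : VR) : B2 R (v3830 R) (s3830 R) :=
  B2.rep (e3829 R)

noncomputable def v3831 (R : VR) : ℕ :=
  srM (VR.N R) (VR.S R) (VR.o1 R) (v3829 R)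

noncomputable def s3831 (R : VR) (j i : ℕ) : Bool :=
  (s3829 R j)

theorem e3831 (R : VR) : B2 R (v3831 R) (s3831 R) :=
  B2.row (e3829 R)

noncomputable def v3832 (R : VR) : ℕ :=
  Nat.lor (Nat.mul (v3829 R) (VR.cr1 R)) (srM (VR.N R) (VR.S R) (VR.o1 R) (v3829 R))

noncomputable def s3832 (R : VR) (j i : ℕ) : Bool :=
  K.bor (s3830 R j i) (s3831 R j i)

theorem e3832 (R : VR) : B2 R (v3832 R) (s3832 R) :=
  B.or (e3830 R) (e3831 R)

noncomputable def v3833 (R : VR) : ℕ :=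
  Nat.lor (Nat.lor (Nat.mul (v3829 R) (VR.cr1 R)) (srM (VR.N R) (VR.S R) (VR.o1 R) (v3829 R)))
    (v937 R)

noncomputable def s3833 (R : VR) (j i : ℕ) : Bool :=
  K.bor (s3832 R j i) (s937 R j i)

theorem e3833 (R : VR) : B2 R (v3833 R) (s3833 R) :=
  B.or (e3832 R) (e937 R)

noncomputable def v3834 (R : VR) : ℕ :=
  Nat.lor (Nat.lor (Nat.lor (Nat.mul (v3829 R) (VR.cr1 R)) (srM (VR.N R) (VR.S R) (VR.o1 R) (v3829
    R))) (v937 R)) (v934 R)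

noncomputable def s3834 (R : VR) (j i : ℕ) : Bool :=
  K.bor (s3833 R j i) (s935 R j i)

theorem e3834 (R : VR) : B2 R (v3834 R) (s3834 R) :=
  B.or (e3833 R) (e935 R)

noncomputable def v3835 (R : VR) : ℕ :=
  Nat.shiftRight (Nat.land (Nat.sub (VR.h1 R) (Nat.mod (Nat.land (Nat.sub (VR.o2 R) (Nat.lor
    (Nat.lor (Nat.lor (Nat.mul (v3829 R) (VR.cr1 R)) (srM (VR.N R) (VR.S R) (VR.o1 R) (v3829 R)))
    (v937 R)) (v934 R))) (mM (Nat.mul (v868 R) (VR.S R)))) (VR.m1 R))) (VR.h1 R)) (nat_lit 15)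

noncomputable def s3835 (R : VR) (i : ℕ) : Bool :=
  K.allN (s868 R) (fun j => (s3834 R j i))

theorem e3835 (R : VR) : B (VR.S R) (v3835 R) (s3835 R) :=
  B.all (e3834 R) (VR.leN R (b868 R) (by decide))

noncomputable def s3836 (R : VR) (i : ℕ) : Bool :=
  K.allN (s868 R) (fun (x158 : ℕ) => (K.bor (K.bor (K.bor (Nat.beq (FC7.OD.sl (VR.O R) i) (nat_lit
    0)) (Nat.beq (FC7.OD.sl (VR.O R) x158) (nat_lit 0))) (Nat.beq i x158)) (V2.ne R i x158)))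

theorem e3836 (R : VR) : B (VR.S R) (v3835 R) (s3836 R) :=
  e3835 R

noncomputable def v3837 (R : VR) : Bool :=
  Nat.beq (Nat.land (Nat.sub (VR.o1 R) (Nat.shiftRight (Nat.land (Nat.sub (VR.h1 R) (Nat.mod
    (Nat.land (Nat.sub (VR.o2 R) (Nat.lor (Nat.lor (Nat.lor (Nat.mul (v3829 R) (VR.cr1 R)) (srM
    (VR.N R) (VR.S R) (VR.o1 R) (v3829 R))) (v937 R)) (v934 R))) (mM (Nat.mul (v868 R) (VR.S R))))
    (VR.m1 R))) (VR.h1 R)) (nat_lit 15))) (mM (v868 R))) (nat_lit 0)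

noncomputable def s3837 (R : VR) : Bool :=
  K.allN (s868 R) (s3836 R)

theorem e3837 (R : VR) : (v3837 R) = s3837 R :=
  all0 (e3836 R) (VR.leN R (b868 R) (by decide))

noncomputable def s3838 (R : VR) : Bool :=
  K.allN (s868 R) (fun (x159 : ℕ) => (K.allN (FC7.OD.m (VR.O R)) (fun (x160 : ℕ) => (K.bor (K.bor
    (K.bor (Nat.beq (FC7.OD.sl (VR.O R) x159) (nat_lit 0)) (Nat.beq (FC7.OD.sl (VR.O R) x160)
    (nat_lit 0))) (Nat.beq x159 x160)) (V2.ne R x159 x160)))))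

theorem e3838 (R : VR) : (v3837 R) = s3838 R :=
  e3837 R

noncomputable def s3839 (R : VR) : Bool :=
  V2.fchkL R

theorem e3839 (R : VR) : (v3837 R) = s3839 R :=
  e3838 R

noncomputable def c_fchkL (R : VR) : Bool :=
  (Nat.beq (Nat.land (Nat.sub (VR.o1 R) (Nat.shiftRight (Nat.land (Nat.sub (VR.h1 R) (Nat.mod
    (Nat.land (Nat.sub (VR.o2 R) (Nat.lor (Nat.lor (Nat.lor (Nat.mul (v3829 R) (VR.cr1 R)) (srM
    (VR.N R) (VR.S R) (VR.o1 R) (v3829 R))) (v937 R)) (v934 R))) (mM (Nat.mul (v868 R) (VR.S R))))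
    (VR.m1 R))) (VR.h1 R)) (nat_lit 15))) (mM (v868 R))) (nat_lit 0))

theorem c_fchkL_eq (R : VR) : c_fchkL R = (V2.fchkL R) :=
  e3839 R

noncomputable def v3840 (R : VR) : ℕ :=
  Nat.shiftRight (Nat.land (Nat.sub (VR.h1 R) (VR.tyT R)) (VR.h1 R)) (nat_lit 15)

noncomputable def s3840 (R : VR) (i : ℕ) : Bool :=
  Nat.beq (s1469 R i) (nat_lit 0)

theorem e3840 (R : VR) : B (VR.S R) (v3840 R) (s3840 R) :=
  L.ez (VR.h1e R) (e1469 R)

noncomputable def v3841 (R : VR) : ℕ :=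
  Nat.shiftRight (Nat.land (Nat.sub (Nat.add (v1715 R) (VR.h1 R)) (v1017 R)) (VR.h1 R)) (nat_lit
    15)

noncomputable def s3841 (R : VR) (i : ℕ) : Bool :=
  Nat.ble (s1017 R i) (s1717 R i)

theorem e3841 (R : VR) : B (VR.S R) (v3841 R) (s3841 R) :=
  L.ble (VR.h1e R) (e1017 R) (e1717 R)

noncomputable def v3842 (R : VR) : ℕ :=
  Nat.land (Nat.shiftRight (Nat.land (Nat.sub (VR.h1 R) (VR.tyT R)) (VR.h1 R)) (nat_lit 15))
    (Nat.shiftRight (Nat.land (Nat.sub (Nat.add (v1715 R) (VR.h1 R)) (v1017 R)) (VR.h1 R))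
    (nat_lit 15))

noncomputable def s3842 (R : VR) (i : ℕ) : Bool :=
  K.band (s3840 R i) (s3841 R i)

theorem e3842 (R : VR) : B (VR.S R) (v3842 R) (s3842 R) :=
  B.and (e3840 R) (e3841 R)

noncomputable def v3843 (R : VR) : ℕ :=
  Nat.shiftRight (Nat.land (Nat.sub (VR.h1 R) (Nat.xor (VR.tyT R) (v267 R))) (VR.h1 R)) (nat_lit
    15)

noncomputable def s3843 (R : VR) (i : ℕ) : Bool :=
  Nat.beq (s1469 R i) (s267 R i)

theorem e3843 (R : VR) : B (VR.S R) (v3843 R) (s3843 R) :=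
  L.beq (VR.h1e R) (e1469 R) (e267 R)

noncomputable def v3844 (R : VR) : ℕ :=
  Nat.lor (Nat.land (Nat.shiftRight (Nat.land (Nat.sub (VR.h1 R) (VR.tyT R)) (VR.h1 R)) (nat_lit
    15)) (Nat.shiftRight (Nat.land (Nat.sub (Nat.add (v1715 R) (VR.h1 R)) (v1017 R)) (VR.h1 R))
    (nat_lit 15))) (Nat.shiftRight (Nat.land (Nat.sub (VR.h1 R) (Nat.xor (VR.tyT R) (v267 R)))
    (VR.h1 R)) (nat_lit 15))

noncomputable def s3844 (R : VR) (i : ℕ) : Bool :=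
  K.bor (s3842 R i) (s3843 R i)

theorem e3844 (R : VR) : B (VR.S R) (v3844 R) (s3844 R) :=
  B.or (e3842 R) (e3843 R)

noncomputable def v3845 (R : VR) : ℕ :=
  Nat.lor (Nat.lor (Nat.land (Nat.shiftRight (Nat.land (Nat.sub (VR.h1 R) (VR.tyT R)) (VR.h1 R))
    (nat_lit 15)) (Nat.shiftRight (Nat.land (Nat.sub (Nat.add (v1715 R) (VR.h1 R)) (v1017 R))
    (VR.h1 R)) (nat_lit 15))) (Nat.shiftRight (Nat.land (Nat.sub (VR.h1 R) (Nat.xor (VR.tyT R)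
    (v267 R))) (VR.h1 R)) (nat_lit 15))) (v1726 R)

noncomputable def s3845 (R : VR) (i : ℕ) : Bool :=
  K.bor (s3844 R i) (s1726 R i)

theorem e3845 (R : VR) : B (VR.S R) (v3845 R) (s3845 R) :=
  B.or (e3844 R) (e1726 R)

noncomputable def v3846 (R : VR) : ℕ :=
  Nat.lor (Nat.lor (Nat.lor (Nat.land (Nat.shiftRight (Nat.land (Nat.sub (VR.h1 R) (VR.tyT R))
    (VR.h1 R)) (nat_lit 15)) (Nat.shiftRight (Nat.land (Nat.sub (Nat.add (v1715 R) (VR.h1 R))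
    (v1017 R)) (VR.h1 R)) (nat_lit 15))) (Nat.shiftRight (Nat.land (Nat.sub (VR.h1 R) (Nat.xor
    (VR.tyT R) (v267 R))) (VR.h1 R)) (nat_lit 15))) (v1726 R)) (v1470 R)

noncomputable def s3846 (R : VR) (i : ℕ) : Bool :=
  K.bor (s3845 R i) (s1470 R i)

theorem e3846 (R : VR) : B (VR.S R) (v3846 R) (s3846 R) :=
  B.or (e3845 R) (e1470 R)

noncomputable def v3847 (R : VR) : ℕ :=
  Nat.shiftRight (Nat.land (Nat.sub (VR.h1 R) (Nat.xor (VR.tyT R) (v359 R))) (VR.h1 R)) (nat_lit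
    15)

noncomputable def s3847 (R : VR) (i : ℕ) : Bool :=
  Nat.beq (s1469 R i) (s359 R i)

theorem e3847 (R : VR) : B (VR.S R) (v3847 R) (s3847 R) :=
  L.beq (VR.h1e R) (e1469 R) (e359 R)

noncomputable def v3848 (R : VR) : ℕ :=
  Nat.land (Nat.shiftRight (Nat.land (Nat.sub (VR.h1 R) (Nat.xor (VR.tyT R) (v359 R))) (VR.h1 R))
    (nat_lit 15)) (v1473 R)

noncomputable def s3848 (R : VR) (i : ℕ) : Bool :=
  K.band (s3847 R i) (s1473 R i)

theorem e3848 (R : VR) : B (VR.S R) (v3848 R) (s3848 R) :=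
  B.and (e3847 R) (e1473 R)

noncomputable def s3849 (R : VR) (i : ℕ) : ℕ :=
  tx (VR.tkT R) i

theorem e3849 (R : VR) : L (VR.S R) (VR.tkT R) (s3849 R) 255 :=
  VR.tk_is R

noncomputable def v3850 (R : VR) : ℕ :=
  Nat.shiftRight (Nat.land (Nat.sub (Nat.add (v172 R) (VR.k1 R)) (VR.tkT R)) (VR.h1 R)) (nat_lit
    15)

noncomputable def s3850 (R : VR) (i : ℕ) : Bool :=
  Nat.ble (Nat.succ (s3849 R i)) (s172 R i)

theorem e3850 (R : VR) : B (VR.S R) (v3850 R) (s3850 R) :=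
  L.blt (VR.h1e R) (VR.k1e R) (e3849 R) (e172 R)

noncomputable def v3851 (R : VR) : ℕ :=
  Nat.land (Nat.land (Nat.shiftRight (Nat.land (Nat.sub (VR.h1 R) (Nat.xor (VR.tyT R) (v359 R)))
    (VR.h1 R)) (nat_lit 15)) (v1473 R)) (Nat.shiftRight (Nat.land (Nat.sub (Nat.add (v172 R)
    (VR.k1 R)) (VR.tkT R)) (VR.h1 R)) (nat_lit 15))

noncomputable def s3851 (R : VR) (i : ℕ) : Bool :=
  K.band (s3848 R i) (s3850 R i)

theorem e3851 (R : VR) : B (VR.S R) (v3851 R) (s3851 R) :=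
  B.and (e3848 R) (e3850 R)

noncomputable def v3852 (R : VR) : ℕ :=
  Nat.mod (Nat.land (v1474 R) (v1409 R)) (VR.m1 R)

noncomputable def s3852 (R : VR) (i : ℕ) : ℕ :=
  tx (VR.cepT R) (s1472 R i)

theorem e3852 (R : VR) : L (VR.S R) (v3852 R) (s3852 R) 14 :=
  L.gat (e1472 R) (VR.cep_is R) (VR.cep_lt R) (VR.cep_le R)

noncomputable def v3853 (R : VR) : ℕ :=
  Nat.shiftRight (Nat.land (Nat.sub (VR.h1 R) (Nat.xor (Nat.mod (Nat.land (v1474 R) (v1409 R))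
    (VR.m1 R)) (VR.iota R))) (VR.h1 R)) (nat_lit 15)

noncomputable def s3853 (R : VR) (i : ℕ) : Bool :=
  Nat.beq (s3852 R i) (s0 R i)

theorem e3853 (R : VR) : B (VR.S R) (v3853 R) (s3853 R) :=
  L.beq (VR.h1e R) (e3852 R) (e0 R)

noncomputable def v3854 (R : VR) : ℕ :=
  Nat.land (Nat.land (Nat.land (Nat.shiftRight (Nat.land (Nat.sub (VR.h1 R) (Nat.xor (VR.tyT R)
    (v359 R))) (VR.h1 R)) (nat_lit 15)) (v1473 R)) (Nat.shiftRight (Nat.land (Nat.sub (Nat.add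
    (v172 R) (VR.k1 R)) (VR.tkT R)) (VR.h1 R)) (nat_lit 15))) (Nat.shiftRight (Nat.land (Nat.sub
    (VR.h1 R) (Nat.xor (Nat.mod (Nat.land (v1474 R) (v1409 R)) (VR.m1 R)) (VR.iota R))) (VR.h1 R))
    (nat_lit 15))

noncomputable def s3854 (R : VR) (i : ℕ) : Bool :=
  K.band (s3851 R i) (s3853 R i)

theorem e3854 (R : VR) : B (VR.S R) (v3854 R) (s3854 R) :=
  B.and (e3851 R) (e3853 R)

noncomputable def v3855 (R : VR) : ℕ :=
  gmk (VR.h2 R) (VR.J R) (Nat.mul (VR.tkT R) (VR.cr1 R))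

noncomputable def v3856 (R : VR) : ℕ :=
  Nat.mod (Nat.land (v3855 R) (v1409 R)) (VR.m1 R)

noncomputable def s3856 (R : VR) (i : ℕ) : ℕ :=
  tx (VR.cepT R) (s3849 R i)

theorem e3856 (R : VR) : L (VR.S R) (v3856 R) (s3856 R) 14 :=
  L.gat (e3849 R) (VR.cep_is R) (VR.cep_lt R) (VR.cep_le R)

noncomputable def v3857 (R : VR) : ℕ :=
  Nat.shiftRight (Nat.land (Nat.sub (VR.h1 R) (Nat.xor (Nat.mod (Nat.land (v3855 R) (v1409 R))
    (VR.m1 R)) (VR.iota R))) (VR.h1 R)) (nat_lit 15)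

noncomputable def s3857 (R : VR) (i : ℕ) : Bool :=
  Nat.beq (s3856 R i) (s0 R i)

theorem e3857 (R : VR) : B (VR.S R) (v3857 R) (s3857 R) :=
  L.beq (VR.h1e R) (e3856 R) (e0 R)

noncomputable def v3858 (R : VR) : ℕ :=
  Nat.land (Nat.land (Nat.land (Nat.land (Nat.shiftRight (Nat.land (Nat.sub (VR.h1 R) (Nat.xor
    (VR.tyT R) (v359 R))) (VR.h1 R)) (nat_lit 15)) (v1473 R)) (Nat.shiftRight (Nat.land (Nat.sub
    (Nat.add (v172 R) (VR.k1 R)) (VR.tkT R)) (VR.h1 R)) (nat_lit 15))) (Nat.shiftRight (Nat.land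
    (Nat.sub (VR.h1 R) (Nat.xor (Nat.mod (Nat.land (v1474 R) (v1409 R)) (VR.m1 R)) (VR.iota R)))
    (VR.h1 R)) (nat_lit 15))) (Nat.shiftRight (Nat.land (Nat.sub (VR.h1 R) (Nat.xor (Nat.mod
    (Nat.land (v3855 R) (v1409 R)) (VR.m1 R)) (VR.iota R))) (VR.h1 R)) (nat_lit 15))

noncomputable def s3858 (R : VR) (i : ℕ) : Bool :=
  K.band (s3854 R i) (s3857 R i)

theorem e3858 (R : VR) : B (VR.S R) (v3858 R) (s3858 R) :=
  B.and (e3854 R) (e3857 R)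

noncomputable def v3859 (R : VR) : ℕ :=
  srM (VR.N R) (VR.S R) (VR.o1 R) (VR.upT R)

noncomputable def v3860 (R : VR) : ℕ :=
  Nat.mod (Nat.land (v1474 R) (v3859 R)) (VR.m1 R)

noncomputable def s3860 (R : VR) (i : ℕ) : ℕ :=
  tx (VR.upT R) (s1472 R i)

theorem e3860 (R : VR) : L (VR.S R) (v3860 R) (s3860 R) 15 :=
  L.gat (e1472 R) (VR.up_is R) (VR.up_lt R) (VR.up_le R)

noncomputable def v3861 (R : VR) : ℕ :=
  Nat.shiftRight (Nat.land (Nat.sub (VR.h1 R) (v3860 R)) (VR.h1 R)) (nat_lit 15)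

noncomputable def s3861 (R : VR) (i : ℕ) : Bool :=
  Nat.beq (s3860 R i) (nat_lit 0)

theorem e3861 (R : VR) : B (VR.S R) (v3861 R) (s3861 R) :=
  L.ez (VR.h1e R) (e3860 R)

noncomputable def v3862 (R : VR) : ℕ :=
  Nat.shiftRight (Nat.land (Nat.add (v3860 R) (VR.k1 R)) (VR.h1 R)) (nat_lit 15)

noncomputable def s3862 (R : VR) (i : ℕ) : Bool :=
  K.bnot (Nat.beq (s3860 R i) (nat_lit 0))

theorem e3862 (R : VR) : B (VR.S R) (v3862 R) (s3862 R) :=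
  L.nz (VR.h1e R) (VR.k1e R) (e3860 R)

noncomputable def v3863 (R : VR) : ℕ :=
  Nat.land (v3858 R) (Nat.shiftRight (Nat.land (Nat.add (v3860 R) (VR.k1 R)) (VR.h1 R)) (nat_lit
    15))

noncomputable def s3863 (R : VR) (i : ℕ) : Bool :=
  K.band (s3858 R i) (s3862 R i)

theorem e3863 (R : VR) : B (VR.S R) (v3863 R) (s3863 R) :=
  B.and (e3858 R) (e3862 R)

noncomputable def v3864 (R : VR) : ℕ :=
  Nat.mod (Nat.land (v3855 R) (v3859 R)) (VR.m1 R)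

noncomputable def s3864 (R : VR) (i : ℕ) : ℕ :=
  tx (VR.upT R) (s3849 R i)

theorem e3864 (R : VR) : L (VR.S R) (v3864 R) (s3864 R) 15 :=
  L.gat (e3849 R) (VR.up_is R) (VR.up_lt R) (VR.up_le R)

noncomputable def v3865 (R : VR) : ℕ :=
  Nat.shiftRight (Nat.land (Nat.sub (VR.h1 R) (v3864 R)) (VR.h1 R)) (nat_lit 15)

noncomputable def s3865 (R : VR) (i : ℕ) : Bool :=
  Nat.beq (s3864 R i) (nat_lit 0)

theorem e3865 (R : VR) : B (VR.S R) (v3865 R) (s3865 R) :=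
  L.ez (VR.h1e R) (e3864 R)

noncomputable def v3866 (R : VR) : ℕ :=
  Nat.shiftRight (Nat.land (Nat.add (v3864 R) (VR.k1 R)) (VR.h1 R)) (nat_lit 15)

noncomputable def s3866 (R : VR) (i : ℕ) : Bool :=
  K.bnot (Nat.beq (s3864 R i) (nat_lit 0))

theorem e3866 (R : VR) : B (VR.S R) (v3866 R) (s3866 R) :=
  L.nz (VR.h1e R) (VR.k1e R) (e3864 R)

noncomputable def v3867 (R : VR) : ℕ :=
  Nat.land (Nat.land (v3858 R) (Nat.shiftRight (Nat.land (Nat.add (v3860 R) (VR.k1 R)) (VR.h1 R))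
    (nat_lit 15))) (Nat.shiftRight (Nat.land (Nat.add (v3864 R) (VR.k1 R)) (VR.h1 R)) (nat_lit
    15))

noncomputable def s3867 (R : VR) (i : ℕ) : Bool :=
  K.band (s3863 R i) (s3866 R i)

theorem e3867 (R : VR) : B (VR.S R) (v3867 R) (s3867 R) :=
  B.and (e3863 R) (e3866 R)

noncomputable def v3868 (R : VR) : ℕ :=
  Nat.mod (Nat.land (v1474 R) (v1606 R)) (VR.m1 R)

noncomputable def s3868 (R : VR) (i : ℕ) : ℕ :=
  tx (VR.lpT R) (s1472 R i)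

theorem e3868 (R : VR) : L (VR.S R) (v3868 R) (s3868 R) 29 :=
  L.gat (e1472 R) (VR.lp_is R) (VR.lp_lt R) (VR.lp_le R)

noncomputable def v3869 (R : VR) : ℕ :=
  Nat.shiftRight (Nat.land (Nat.sub (Nat.add (v869 R) (VR.k1 R)) (v3868 R)) (VR.h1 R)) (nat_lit
    15)

noncomputable def s3869 (R : VR) (i : ℕ) : Bool :=
  Nat.ble (Nat.succ (s3868 R i)) (s869 R i)

theorem e3869 (R : VR) : B (VR.S R) (v3869 R) (s3869 R) :=
  L.blt (VR.h1e R) (VR.k1e R) (e3868 R) (e869 R)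

noncomputable def v3870 (R : VR) : ℕ :=
  Nat.land (Nat.land (Nat.land (v3858 R) (Nat.shiftRight (Nat.land (Nat.add (v3860 R) (VR.k1 R))
    (VR.h1 R)) (nat_lit 15))) (Nat.shiftRight (Nat.land (Nat.add (v3864 R) (VR.k1 R)) (VR.h1 R))
    (nat_lit 15))) (Nat.shiftRight (Nat.land (Nat.sub (Nat.add (v869 R) (VR.k1 R)) (v3868 R))
    (VR.h1 R)) (nat_lit 15))

noncomputable def s3870 (R : VR) (i : ℕ) : Bool :=
  K.band (s3867 R i) (s3869 R i)

theorem e3870 (R : VR) : B (VR.S R) (v3870 R) (s3870 R) :=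
  B.and (e3867 R) (e3869 R)

noncomputable def v3871 (R : VR) : ℕ :=
  Nat.mod (Nat.land (v3855 R) (v1606 R)) (VR.m1 R)

noncomputable def s3871 (R : VR) (i : ℕ) : ℕ :=
  tx (VR.lpT R) (s3849 R i)

theorem e3871 (R : VR) : L (VR.S R) (v3871 R) (s3871 R) 29 :=
  L.gat (e3849 R) (VR.lp_is R) (VR.lp_lt R) (VR.lp_le R)

noncomputable def v3872 (R : VR) : ℕ :=
  Nat.shiftRight (Nat.land (Nat.sub (Nat.add (v869 R) (VR.k1 R)) (v3871 R)) (VR.h1 R)) (nat_lit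
    15)

noncomputable def s3872 (R : VR) (i : ℕ) : Bool :=
  Nat.ble (Nat.succ (s3871 R i)) (s869 R i)

theorem e3872 (R : VR) : B (VR.S R) (v3872 R) (s3872 R) :=
  L.blt (VR.h1e R) (VR.k1e R) (e3871 R) (e869 R)

noncomputable def v3873 (R : VR) : ℕ :=
  Nat.land (Nat.land (Nat.land (Nat.land (v3858 R) (Nat.shiftRight (Nat.land (Nat.add (v3860 R)
    (VR.k1 R)) (VR.h1 R)) (nat_lit 15))) (Nat.shiftRight (Nat.land (Nat.add (v3864 R) (VR.k1 R))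
    (VR.h1 R)) (nat_lit 15))) (Nat.shiftRight (Nat.land (Nat.sub (Nat.add (v869 R) (VR.k1 R))
    (v3868 R)) (VR.h1 R)) (nat_lit 15))) (Nat.shiftRight (Nat.land (Nat.sub (Nat.add (v869 R)
    (VR.k1 R)) (v3871 R)) (VR.h1 R)) (nat_lit 15))

noncomputable def s3873 (R : VR) (i : ℕ) : Bool :=
  K.band (s3870 R i) (s3872 R i)

theorem e3873 (R : VR) : B (VR.S R) (v3873 R) (s3873 R) :=
  B.and (e3870 R) (e3872 R)

noncomputable def v3874 (R : VR) : ℕ :=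
  gmk (VR.h2 R) (VR.J R) (Nat.mul (v3868 R) (VR.cr1 R))

noncomputable def v3875 (R : VR) : ℕ :=
  Nat.mod (Nat.land (v3874 R) (v3746 R)) (VR.m1 R)

noncomputable def s3875 (R : VR) (i : ℕ) : ℕ :=
  tx (VR.nmT R) (s3868 R i)

theorem e3875 (R : VR) : L (VR.S R) (v3875 R) (s3875 R) 32767 :=
  L.gat (e3868 R) (VR.nm_is R) (VR.nm_lt R) (VR.nm_le R)

noncomputable def v3876 (R : VR) : ℕ :=
  gmk (VR.h2 R) (VR.J R) (Nat.mul (v3871 R) (VR.cr1 R))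

noncomputable def v3877 (R : VR) : ℕ :=
  Nat.mod (Nat.land (v3876 R) (v21 R)) (VR.m1 R)

noncomputable def s3877 (R : VR) (i : ℕ) : ℕ :=
  tx (VR.pw1T R) (s3871 R i)

theorem e3877 (R : VR) : L (VR.S R) (v3877 R) (s3877 R) 16384 :=
  L.gat (e3871 R) (VR.pw1_is R) (VR.pw1_lt R) (VR.pw1_le R)

noncomputable def v3878 (R : VR) : ℕ :=
  Nat.land (Nat.mod (Nat.land (v3874 R) (v3746 R)) (VR.m1 R)) (v3877 R)

noncomputable def s3878 (R : VR) (i : ℕ) : ℕ :=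
  Nat.land (s3875 R i) (s3877 R i)

theorem e3878 (R : VR) : L (VR.S R) (v3878 R) (s3878 R) 32767 :=
  L.land (e3875 R) (e3877 R)

noncomputable def v3879 (R : VR) : ℕ :=
  Nat.shiftRight (Nat.land (Nat.sub (VR.h1 R) (v3878 R)) (VR.h1 R)) (nat_lit 15)

noncomputable def s3879 (R : VR) (i : ℕ) : Bool :=
  Nat.beq (s3878 R i) (nat_lit 0)

theorem e3879 (R : VR) : B (VR.S R) (v3879 R) (s3879 R) :=
  L.ez (VR.h1e R) (e3878 R)

noncomputable def v3880 (R : VR) : ℕ :=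
  Nat.shiftRight (Nat.land (Nat.add (v3878 R) (VR.k1 R)) (VR.h1 R)) (nat_lit 15)

noncomputable def s3880 (R : VR) (i : ℕ) : Bool :=
  K.bnot (Nat.beq (s3878 R i) (nat_lit 0))

theorem e3880 (R : VR) : B (VR.S R) (v3880 R) (s3880 R) :=
  L.nz (VR.h1e R) (VR.k1e R) (e3878 R)

noncomputable def v3881 (R : VR) : ℕ :=
  Nat.add (v3868 R) (v267 R)

noncomputable def s3881 (R : VR) (i : ℕ) : ℕ :=
  Nat.add (s3868 R i) (s267 R i)

theorem e3881 (R : VR) : L (VR.S R) (v3881 R) (s3881 R) 30 :=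
  L.add (e3868 R) (e267 R) (by decide)

noncomputable def v3882 (R : VR) : ℕ :=
  gmk (VR.h2 R) (VR.J R) (Nat.mul (Nat.add (v3868 R) (v267 R)) (VR.cr1 R))

noncomputable def v3883 (R : VR) : ℕ :=
  Nat.mod (Nat.land (v3882 R) (v926 R)) (VR.m1 R)

noncomputable def s3883 (R : VR) (i : ℕ) : ℕ :=
  tx (VR.nmkT R) (s3881 R i)

theorem e3883 (R : VR) : L (VR.S R) (v3883 R) (s3883 R) 32767 :=
  L.gat (e3881 R) (VR.nmk_is R) (VR.nmk_lt R) (VR.nmk_le R)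

noncomputable def v3884 (R : VR) : ℕ :=
  Nat.mod (Nat.land (v3876 R) (v3755 R)) (VR.m1 R)

noncomputable def s3884 (R : VR) (i : ℕ) : ℕ :=
  tx (VR.pwhT R) (s3871 R i)

theorem e3884 (R : VR) : L (VR.S R) (v3884 R) (s3884 R) 16384 :=
  L.gat (e3871 R) (VR.pwh_is R) (VR.pwh_lt R) (VR.pwh_le R)

noncomputable def v3885 (R : VR) : ℕ :=
  Nat.land (Nat.mod (Nat.land (v3882 R) (v926 R)) (VR.m1 R)) (v3884 R)

noncomputable def s3885 (R : VR) (i : ℕ) : ℕ :=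
  Nat.land (s3883 R i) (s3884 R i)

theorem e3885 (R : VR) : L (VR.S R) (v3885 R) (s3885 R) 32767 :=
  L.land (e3883 R) (e3884 R)

noncomputable def v3886 (R : VR) : ℕ :=
  Nat.shiftRight (Nat.land (Nat.sub (VR.h1 R) (v3885 R)) (VR.h1 R)) (nat_lit 15)

noncomputable def s3886 (R : VR) (i : ℕ) : Bool :=
  Nat.beq (s3885 R i) (nat_lit 0)

theorem e3886 (R : VR) : B (VR.S R) (v3886 R) (s3886 R) :=
  L.ez (VR.h1e R) (e3885 R)

noncomputable def v3887 (R : VR) : ℕ :=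
  Nat.shiftRight (Nat.land (Nat.add (v3885 R) (VR.k1 R)) (VR.h1 R)) (nat_lit 15)

noncomputable def s3887 (R : VR) (i : ℕ) : Bool :=
  K.bnot (Nat.beq (s3885 R i) (nat_lit 0))

theorem e3887 (R : VR) : B (VR.S R) (v3887 R) (s3887 R) :=
  L.nz (VR.h1e R) (VR.k1e R) (e3885 R)

noncomputable def v3888 (R : VR) : ℕ :=
  Nat.lor (Nat.shiftRight (Nat.land (Nat.add (v3878 R) (VR.k1 R)) (VR.h1 R)) (nat_lit 15))
    (Nat.shiftRight (Nat.land (Nat.add (v3885 R) (VR.k1 R)) (VR.h1 R)) (nat_lit 15))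

noncomputable def s3888 (R : VR) (i : ℕ) : Bool :=
  K.bor (s3880 R i) (s3887 R i)

theorem e3888 (R : VR) : B (VR.S R) (v3888 R) (s3888 R) :=
  B.or (e3880 R) (e3887 R)

noncomputable def s3889 (R : VR) (i : ℕ) : Bool :=
  V2.ne R (s3868 R i) (s3871 R i)

theorem e3889 (R : VR) : B (VR.S R) (v3888 R) (s3889 R) :=
  e3888 R

noncomputable def s3890 (R : VR) (i : ℕ) : Bool :=
  K.Fc_ne (VR.F R) (s3868 R i) (s3871 R i)

theorem e3890 (R : VR) : B (VR.S R) (v3888 R) (s3890 R) :=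
  B.of_eq (e3889 R) (fun i hi => V2.ne_eq R (s3868 R i) (s3871 R i) ((L.le (e3871 R) i hi).trans
    (by decide)))

noncomputable def v3891 (R : VR) : ℕ :=
  Nat.land (v3873 R) (Nat.lor (Nat.shiftRight (Nat.land (Nat.add (v3878 R) (VR.k1 R)) (VR.h1 R))
    (nat_lit 15)) (Nat.shiftRight (Nat.land (Nat.add (v3885 R) (VR.k1 R)) (VR.h1 R)) (nat_lit
    15)))

noncomputable def s3891 (R : VR) (i : ℕ) : Bool :=
  K.band (s3873 R i) (s3890 R i)

theorem e3891 (R : VR) : B (VR.S R) (v3891 R) (s3891 R) :=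
  B.and (e3873 R) (e3890 R)

noncomputable def v3892 (R : VR) : ℕ :=
  Nat.mod (Nat.land (v3874 R) (v3763 R)) (VR.m1 R)

noncomputable def s3892 (R : VR) (i : ℕ) : ℕ :=
  tx (VR.naT R) (s3868 R i)

theorem e3892 (R : VR) : L (VR.S R) (v3892 R) (s3892 R) 32767 :=
  L.gat (e3868 R) (VR.na_is R) (VR.na_lt R) (VR.na_le R)

noncomputable def v3893 (R : VR) : ℕ :=
  Nat.land (Nat.mod (Nat.land (v3874 R) (v3763 R)) (VR.m1 R)) (v3877 R)

noncomputable def s3893 (R : VR) (i : ℕ) : ℕ :=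
  Nat.land (s3892 R i) (s3877 R i)

theorem e3893 (R : VR) : L (VR.S R) (v3893 R) (s3893 R) 32767 :=
  L.land (e3892 R) (e3877 R)

noncomputable def v3894 (R : VR) : ℕ :=
  Nat.shiftRight (Nat.land (Nat.sub (VR.h1 R) (v3893 R)) (VR.h1 R)) (nat_lit 15)

noncomputable def s3894 (R : VR) (i : ℕ) : Bool :=
  Nat.beq (s3893 R i) (nat_lit 0)

theorem e3894 (R : VR) : B (VR.S R) (v3894 R) (s3894 R) :=
  L.ez (VR.h1e R) (e3893 R)

noncomputable def v3895 (R : VR) : ℕ :=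
  Nat.shiftRight (Nat.land (Nat.add (v3893 R) (VR.k1 R)) (VR.h1 R)) (nat_lit 15)

noncomputable def s3895 (R : VR) (i : ℕ) : Bool :=
  K.bnot (Nat.beq (s3893 R i) (nat_lit 0))

theorem e3895 (R : VR) : B (VR.S R) (v3895 R) (s3895 R) :=
  L.nz (VR.h1e R) (VR.k1e R) (e3893 R)

noncomputable def v3896 (R : VR) : ℕ :=
  Nat.mod (Nat.land (v3882 R) (v976 R)) (VR.m1 R)

noncomputable def s3896 (R : VR) (i : ℕ) : ℕ :=
  tx (VR.nakT R) (s3881 R i)

theorem e3896 (R : VR) : L (VR.S R) (v3896 R) (s3896 R) 32767 :=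
  L.gat (e3881 R) (VR.nak_is R) (VR.nak_lt R) (VR.nak_le R)

noncomputable def v3897 (R : VR) : ℕ :=
  Nat.land (Nat.mod (Nat.land (v3882 R) (v976 R)) (VR.m1 R)) (v3884 R)

noncomputable def s3897 (R : VR) (i : ℕ) : ℕ :=
  Nat.land (s3896 R i) (s3884 R i)

theorem e3897 (R : VR) : L (VR.S R) (v3897 R) (s3897 R) 32767 :=
  L.land (e3896 R) (e3884 R)

noncomputable def v3898 (R : VR) : ℕ :=
  Nat.shiftRight (Nat.land (Nat.sub (VR.h1 R) (v3897 R)) (VR.h1 R)) (nat_lit 15)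

noncomputable def s3898 (R : VR) (i : ℕ) : Bool :=
  Nat.beq (s3897 R i) (nat_lit 0)

theorem e3898 (R : VR) : B (VR.S R) (v3898 R) (s3898 R) :=
  L.ez (VR.h1e R) (e3897 R)

noncomputable def v3899 (R : VR) : ℕ :=
  Nat.shiftRight (Nat.land (Nat.add (v3897 R) (VR.k1 R)) (VR.h1 R)) (nat_lit 15)

noncomputable def s3899 (R : VR) (i : ℕ) : Bool :=
  K.bnot (Nat.beq (s3897 R i) (nat_lit 0))

theorem e3899 (R : VR) : B (VR.S R) (v3899 R) (s3899 R) :=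
  L.nz (VR.h1e R) (VR.k1e R) (e3897 R)

noncomputable def v3900 (R : VR) : ℕ :=
  Nat.lor (Nat.shiftRight (Nat.land (Nat.add (v3893 R) (VR.k1 R)) (VR.h1 R)) (nat_lit 15))
    (Nat.shiftRight (Nat.land (Nat.add (v3897 R) (VR.k1 R)) (VR.h1 R)) (nat_lit 15))

noncomputable def s3900 (R : VR) (i : ℕ) : Bool :=
  K.bor (s3895 R i) (s3899 R i)

theorem e3900 (R : VR) : B (VR.S R) (v3900 R) (s3900 R) :=
  B.or (e3895 R) (e3899 R)

noncomputable def s3901 (R : VR) (i : ℕ) : Bool :=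
  V2.na R (s3868 R i) (s3871 R i)

theorem e3901 (R : VR) : B (VR.S R) (v3900 R) (s3901 R) :=
  e3900 R

noncomputable def s3902 (R : VR) (i : ℕ) : Bool :=
  K.Fc_na (VR.F R) (s3868 R i) (s3871 R i)

theorem e3902 (R : VR) : B (VR.S R) (v3900 R) (s3902 R) :=
  B.of_eq (e3901 R) (fun i hi => V2.na_eq R (s3868 R i) (s3871 R i) ((L.le (e3871 R) i hi).trans
    (by decide)))

noncomputable def v3903 (R : VR) : ℕ :=
  Nat.land (Nat.land (v3873 R) (Nat.lor (Nat.shiftRight (Nat.land (Nat.add (v3878 R) (VR.k1 R))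
    (VR.h1 R)) (nat_lit 15)) (Nat.shiftRight (Nat.land (Nat.add (v3885 R) (VR.k1 R)) (VR.h1 R))
    (nat_lit 15)))) (Nat.lor (Nat.shiftRight (Nat.land (Nat.add (v3893 R) (VR.k1 R)) (VR.h1 R))
    (nat_lit 15)) (Nat.shiftRight (Nat.land (Nat.add (v3897 R) (VR.k1 R)) (VR.h1 R)) (nat_lit
    15)))

noncomputable def s3903 (R : VR) (i : ℕ) : Bool :=
  K.band (s3891 R i) (s3902 R i)

theorem e3903 (R : VR) : B (VR.S R) (v3903 R) (s3903 R) :=
  B.and (e3891 R) (e3902 R)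

noncomputable def v3904 (R : VR) : ℕ :=
  Nat.mod (Nat.land (v3876 R) (v3763 R)) (VR.m1 R)

noncomputable def s3904 (R : VR) (i : ℕ) : ℕ :=
  tx (VR.naT R) (s3871 R i)

theorem e3904 (R : VR) : L (VR.S R) (v3904 R) (s3904 R) 32767 :=
  L.gat (e3871 R) (VR.na_is R) (VR.na_lt R) (VR.na_le R)

noncomputable def v3905 (R : VR) : ℕ :=
  Nat.mod (Nat.land (v3874 R) (v21 R)) (VR.m1 R)

noncomputable def s3905 (R : VR) (i : ℕ) : ℕ :=
  tx (VR.pw1T R) (s3868 R i)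

theorem e3905 (R : VR) : L (VR.S R) (v3905 R) (s3905 R) 16384 :=
  L.gat (e3868 R) (VR.pw1_is R) (VR.pw1_lt R) (VR.pw1_le R)

noncomputable def v3906 (R : VR) : ℕ :=
  Nat.land (Nat.mod (Nat.land (v3876 R) (v3763 R)) (VR.m1 R)) (v3905 R)

noncomputable def s3906 (R : VR) (i : ℕ) : ℕ :=
  Nat.land (s3904 R i) (s3905 R i)

theorem e3906 (R : VR) : L (VR.S R) (v3906 R) (s3906 R) 32767 :=
  L.land (e3904 R) (e3905 R)

noncomputable def v3907 (R : VR) : ℕ :=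
  Nat.shiftRight (Nat.land (Nat.sub (VR.h1 R) (v3906 R)) (VR.h1 R)) (nat_lit 15)

noncomputable def s3907 (R : VR) (i : ℕ) : Bool :=
  Nat.beq (s3906 R i) (nat_lit 0)

theorem e3907 (R : VR) : B (VR.S R) (v3907 R) (s3907 R) :=
  L.ez (VR.h1e R) (e3906 R)

noncomputable def v3908 (R : VR) : ℕ :=
  Nat.shiftRight (Nat.land (Nat.add (v3906 R) (VR.k1 R)) (VR.h1 R)) (nat_lit 15)

noncomputable def s3908 (R : VR) (i : ℕ) : Bool :=
  K.bnot (Nat.beq (s3906 R i) (nat_lit 0))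

theorem e3908 (R : VR) : B (VR.S R) (v3908 R) (s3908 R) :=
  L.nz (VR.h1e R) (VR.k1e R) (e3906 R)

noncomputable def v3909 (R : VR) : ℕ :=
  Nat.add (v3871 R) (v267 R)

noncomputable def s3909 (R : VR) (i : ℕ) : ℕ :=
  Nat.add (s3871 R i) (s267 R i)

theorem e3909 (R : VR) : L (VR.S R) (v3909 R) (s3909 R) 30 :=
  L.add (e3871 R) (e267 R) (by decide)

noncomputable def v3910 (R : VR) : ℕ :=
  gmk (VR.h2 R) (VR.J R) (Nat.mul (Nat.add (v3871 R) (v267 R)) (VR.cr1 R))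

noncomputable def v3911 (R : VR) : ℕ :=
  Nat.mod (Nat.land (gmk (VR.h2 R) (VR.J R) (Nat.mul (Nat.add (v3871 R) (v267 R)) (VR.cr1 R)))
    (v976 R)) (VR.m1 R)

noncomputable def s3911 (R : VR) (i : ℕ) : ℕ :=
  tx (VR.nakT R) (s3909 R i)

theorem e3911 (R : VR) : L (VR.S R) (v3911 R) (s3911 R) 32767 :=
  L.gat (e3909 R) (VR.nak_is R) (VR.nak_lt R) (VR.nak_le R)

noncomputable def v3912 (R : VR) : ℕ :=
  Nat.mod (Nat.land (v3874 R) (v3755 R)) (VR.m1 R)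

noncomputable def s3912 (R : VR) (i : ℕ) : ℕ :=
  tx (VR.pwhT R) (s3868 R i)

theorem e3912 (R : VR) : L (VR.S R) (v3912 R) (s3912 R) 16384 :=
  L.gat (e3868 R) (VR.pwh_is R) (VR.pwh_lt R) (VR.pwh_le R)

noncomputable def v3913 (R : VR) : ℕ :=
  Nat.land (Nat.mod (Nat.land (gmk (VR.h2 R) (VR.J R) (Nat.mul (Nat.add (v3871 R) (v267 R))
    (VR.cr1 R))) (v976 R)) (VR.m1 R)) (v3912 R)

noncomputable def s3913 (R : VR) (i : ℕ) : ℕ :=
  Nat.land (s3911 R i) (s3912 R i)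

theorem e3913 (R : VR) : L (VR.S R) (v3913 R) (s3913 R) 32767 :=
  L.land (e3911 R) (e3912 R)

noncomputable def v3914 (R : VR) : ℕ :=
  Nat.shiftRight (Nat.land (Nat.sub (VR.h1 R) (v3913 R)) (VR.h1 R)) (nat_lit 15)

noncomputable def s3914 (R : VR) (i : ℕ) : Bool :=
  Nat.beq (s3913 R i) (nat_lit 0)

theorem e3914 (R : VR) : B (VR.S R) (v3914 R) (s3914 R) :=
  L.ez (VR.h1e R) (e3913 R)

noncomputable def v3915 (R : VR) : ℕ :=
  Nat.shiftRight (Nat.land (Nat.add (v3913 R) (VR.k1 R)) (VR.h1 R)) (nat_lit 15)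

noncomputable def s3915 (R : VR) (i : ℕ) : Bool :=
  K.bnot (Nat.beq (s3913 R i) (nat_lit 0))

theorem e3915 (R : VR) : B (VR.S R) (v3915 R) (s3915 R) :=
  L.nz (VR.h1e R) (VR.k1e R) (e3913 R)

noncomputable def v3916 (R : VR) : ℕ :=
  Nat.lor (Nat.shiftRight (Nat.land (Nat.add (v3906 R) (VR.k1 R)) (VR.h1 R)) (nat_lit 15))
    (Nat.shiftRight (Nat.land (Nat.add (v3913 R) (VR.k1 R)) (VR.h1 R)) (nat_lit 15))

noncomputable def s3916 (R : VR) (i : ℕ) : Bool :=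
  K.bor (s3908 R i) (s3915 R i)

theorem e3916 (R : VR) : B (VR.S R) (v3916 R) (s3916 R) :=
  B.or (e3908 R) (e3915 R)

noncomputable def s3917 (R : VR) (i : ℕ) : Bool :=
  V2.na R (s3871 R i) (s3868 R i)

theorem e3917 (R : VR) : B (VR.S R) (v3916 R) (s3917 R) :=
  e3916 R

noncomputable def s3918 (R : VR) (i : ℕ) : Bool :=
  K.Fc_na (VR.F R) (s3871 R i) (s3868 R i)

theorem e3918 (R : VR) : B (VR.S R) (v3916 R) (s3918 R) :=
  B.of_eq (e3917 R) (fun i hi => V2.na_eq R (s3871 R i) (s3868 R i) ((L.le (e3868 R) i hi).trans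
    (by decide)))

noncomputable def v3919 (R : VR) : ℕ :=
  Nat.land (Nat.land (Nat.land (v3873 R) (Nat.lor (Nat.shiftRight (Nat.land (Nat.add (v3878 R)
    (VR.k1 R)) (VR.h1 R)) (nat_lit 15)) (Nat.shiftRight (Nat.land (Nat.add (v3885 R) (VR.k1 R))
    (VR.h1 R)) (nat_lit 15)))) (Nat.lor (Nat.shiftRight (Nat.land (Nat.add (v3893 R) (VR.k1 R))
    (VR.h1 R)) (nat_lit 15)) (Nat.shiftRight (Nat.land (Nat.add (v3897 R) (VR.k1 R)) (VR.h1 R))
    (nat_lit 15)))) (Nat.lor (Nat.shiftRight (Nat.land (Nat.add (v3906 R) (VR.k1 R)) (VR.h1 R))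
    (nat_lit 15)) (Nat.shiftRight (Nat.land (Nat.add (v3913 R) (VR.k1 R)) (VR.h1 R)) (nat_lit
    15)))

noncomputable def s3919 (R : VR) (i : ℕ) : Bool :=
  K.band (s3903 R i) (s3918 R i)

theorem e3919 (R : VR) : B (VR.S R) (v3919 R) (s3919 R) :=
  B.and (e3903 R) (e3918 R)

noncomputable def v3920 (R : VR) : ℕ :=
  srM (VR.N R) (VR.S R) (VR.o1 R) (v3747 R)

noncomputable def s3920 (R : VR) (j i : ℕ) : ℕ :=
  (s3747 R j)

theorem e3920 (R : VR) : L2 R (v3920 R) (s3920 R) 32767 :=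
  L2.row (e3747 R)

noncomputable def v3921 (R : VR) : ℕ :=
  Nat.mul (v3905 R) (VR.cr1 R)

noncomputable def s3921 (R : VR) (j i : ℕ) : ℕ :=
  (s3905 R i)

theorem e3921 (R : VR) : L2 R (v3921 R) (s3921 R) 16384 :=
  L2.rep (e3905 R)

noncomputable def v3922 (R : VR) : ℕ :=
  Nat.land (v3920 R) (v3921 R)

noncomputable def s3922 (R : VR) (j i : ℕ) : ℕ :=
  Nat.land (s3920 R j i) (s3921 R j i)

theorem e3922 (R : VR) : L2 R (v3922 R) (s3922 R) 32767 :=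
  L.land (e3920 R) (e3921 R)

noncomputable def v3923 (R : VR) : ℕ :=
  Nat.shiftRight (Nat.land (Nat.sub (VR.h2 R) (v3922 R)) (VR.h2 R)) (nat_lit 15)

noncomputable def s3923 (R : VR) (j i : ℕ) : Bool :=
  Nat.beq (s3922 R j i) (nat_lit 0)

theorem e3923 (R : VR) : B2 R (v3923 R) (s3923 R) :=
  L.ez (VR.h2e R) (e3922 R)

noncomputable def v3924 (R : VR) : ℕ :=
  Nat.shiftRight (Nat.land (Nat.add (v3922 R) (VR.k2 R)) (VR.h2 R)) (nat_lit 15)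

noncomputable def s3924 (R : VR) (j i : ℕ) : Bool :=
  K.bnot (Nat.beq (s3922 R j i) (nat_lit 0))

theorem e3924 (R : VR) : B2 R (v3924 R) (s3924 R) :=
  L.nz (VR.h2e R) (VR.k2e R) (e3922 R)

noncomputable def v3925 (R : VR) : ℕ :=
  srM (VR.N R) (VR.S R) (VR.o1 R) (v3754 R)

noncomputable def s3925 (R : VR) (j i : ℕ) : ℕ :=
  (s3754 R j)

theorem e3925 (R : VR) : L2 R (v3925 R) (s3925 R) 32767 :=
  L2.row (e3754 R)

noncomputable def v3926 (R : VR) : ℕ :=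
  Nat.mul (v3912 R) (VR.cr1 R)

noncomputable def s3926 (R : VR) (j i : ℕ) : ℕ :=
  (s3912 R i)

theorem e3926 (R : VR) : L2 R (v3926 R) (s3926 R) 16384 :=
  L2.rep (e3912 R)

noncomputable def v3927 (R : VR) : ℕ :=
  Nat.land (v3925 R) (v3926 R)

noncomputable def s3927 (R : VR) (j i : ℕ) : ℕ :=
  Nat.land (s3925 R j i) (s3926 R j i)

theorem e3927 (R : VR) : L2 R (v3927 R) (s3927 R) 32767 :=
  L.land (e3925 R) (e3926 R)

noncomputable def v3928 (R : VR) : ℕ :=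
  Nat.shiftRight (Nat.land (Nat.sub (VR.h2 R) (v3927 R)) (VR.h2 R)) (nat_lit 15)

noncomputable def s3928 (R : VR) (j i : ℕ) : Bool :=
  Nat.beq (s3927 R j i) (nat_lit 0)

theorem e3928 (R : VR) : B2 R (v3928 R) (s3928 R) :=
  L.ez (VR.h2e R) (e3927 R)

noncomputable def v3929 (R : VR) : ℕ :=
  Nat.shiftRight (Nat.land (Nat.add (v3927 R) (VR.k2 R)) (VR.h2 R)) (nat_lit 15)

noncomputable def s3929 (R : VR) (j i : ℕ) : Bool :=
  K.bnot (Nat.beq (s3927 R j i) (nat_lit 0))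

theorem e3929 (R : VR) : B2 R (v3929 R) (s3929 R) :=
  L.nz (VR.h2e R) (VR.k2e R) (e3927 R)

noncomputable def v3930 (R : VR) : ℕ :=
  Nat.lor (Nat.shiftRight (Nat.land (Nat.add (v3922 R) (VR.k2 R)) (VR.h2 R)) (nat_lit 15))
    (Nat.shiftRight (Nat.land (Nat.add (v3927 R) (VR.k2 R)) (VR.h2 R)) (nat_lit 15))

noncomputable def s3930 (R : VR) (j i : ℕ) : Bool :=
  K.bor (s3924 R j i) (s3929 R j i)

theorem e3930 (R : VR) : B2 R (v3930 R) (s3930 R) :=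
  B.or (e3924 R) (e3929 R)

noncomputable def s3931 (R : VR) (j i : ℕ) : Bool :=
  V2.ne R (s113 R j) (s3868 R i)

theorem e3931 (R : VR) : B2 R (v3930 R) (s3931 R) :=
  e3930 R

noncomputable def v3932 (R : VR) : ℕ :=
  Nat.mul (v3868 R) (VR.cr1 R)

noncomputable def s3932 (R : VR) (j i : ℕ) : ℕ :=
  (s3868 R i)

theorem e3932 (R : VR) : L2 R (v3932 R) (s3932 R) 29 :=
  L2.rep (e3868 R)

noncomputable def s3933 (R : VR) (j i : ℕ) : Bool :=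
  K.Fc_ne (VR.F R) (s113 R j) (s3868 R i)

theorem e3933 (R : VR) : B2 R (v3930 R) (s3933 R) :=
  B.of_eq (e3931 R) (fun t ht => V2.ne_eq R (s113 R (t / VR.S R)) (s3868 R (t % VR.S R)) ((L.le
    (e3932 R) t ht).trans (by decide)))

noncomputable def v3934 (R : VR) : ℕ :=
  srM (VR.N R) (VR.S R) (VR.o1 R) (v3798 R)

noncomputable def s3934 (R : VR) (j i : ℕ) : ℕ :=
  (s3798 R j)

theorem e3934 (R : VR) : L2 R (v3934 R) (s3934 R) 32767 :=
  L2.row (e3798 R)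

noncomputable def v3935 (R : VR) : ℕ :=
  Nat.mul (v3877 R) (VR.cr1 R)

noncomputable def s3935 (R : VR) (j i : ℕ) : ℕ :=
  (s3877 R i)

theorem e3935 (R : VR) : L2 R (v3935 R) (s3935 R) 16384 :=
  L2.rep (e3877 R)

noncomputable def v3936 (R : VR) : ℕ :=
  Nat.land (v3934 R) (v3935 R)

noncomputable def s3936 (R : VR) (j i : ℕ) : ℕ :=
  Nat.land (s3934 R j i) (s3935 R j i)

theorem e3936 (R : VR) : L2 R (v3936 R) (s3936 R) 32767 :=
  L.land (e3934 R) (e3935 R)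

noncomputable def v3937 (R : VR) : ℕ :=
  Nat.shiftRight (Nat.land (Nat.sub (VR.h2 R) (v3936 R)) (VR.h2 R)) (nat_lit 15)

noncomputable def s3937 (R : VR) (j i : ℕ) : Bool :=
  Nat.beq (s3936 R j i) (nat_lit 0)

theorem e3937 (R : VR) : B2 R (v3937 R) (s3937 R) :=
  L.ez (VR.h2e R) (e3936 R)

noncomputable def v3938 (R : VR) : ℕ :=
  Nat.shiftRight (Nat.land (Nat.add (v3936 R) (VR.k2 R)) (VR.h2 R)) (nat_lit 15)

noncomputable def s3938 (R : VR) (j i : ℕ) : Bool :=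
  K.bnot (Nat.beq (s3936 R j i) (nat_lit 0))

theorem e3938 (R : VR) : B2 R (v3938 R) (s3938 R) :=
  L.nz (VR.h2e R) (VR.k2e R) (e3936 R)

noncomputable def v3939 (R : VR) : ℕ :=
  srM (VR.N R) (VR.S R) (VR.o1 R) (v3806 R)

noncomputable def s3939 (R : VR) (j i : ℕ) : ℕ :=
  (s3806 R j)

theorem e3939 (R : VR) : L2 R (v3939 R) (s3939 R) 32767 :=
  L2.row (e3806 R)

noncomputable def v3940 (R : VR) : ℕ :=
  Nat.mul (v3884 R) (VR.cr1 R)

noncomputable def s3940 (R : VR) (j i : ℕ) : ℕ :=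
  (s3884 R i)

theorem e3940 (R : VR) : L2 R (v3940 R) (s3940 R) 16384 :=
  L2.rep (e3884 R)

noncomputable def v3941 (R : VR) : ℕ :=
  Nat.land (v3939 R) (v3940 R)

noncomputable def s3941 (R : VR) (j i : ℕ) : ℕ :=
  Nat.land (s3939 R j i) (s3940 R j i)

theorem e3941 (R : VR) : L2 R (v3941 R) (s3941 R) 32767 :=
  L.land (e3939 R) (e3940 R)

noncomputable def v3942 (R : VR) : ℕ :=
  Nat.shiftRight (Nat.land (Nat.sub (VR.h2 R) (v3941 R)) (VR.h2 R)) (nat_lit 15)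

noncomputable def s3942 (R : VR) (j i : ℕ) : Bool :=
  Nat.beq (s3941 R j i) (nat_lit 0)

theorem e3942 (R : VR) : B2 R (v3942 R) (s3942 R) :=
  L.ez (VR.h2e R) (e3941 R)

noncomputable def v3943 (R : VR) : ℕ :=
  Nat.shiftRight (Nat.land (Nat.add (v3941 R) (VR.k2 R)) (VR.h2 R)) (nat_lit 15)

noncomputable def s3943 (R : VR) (j i : ℕ) : Bool :=
  K.bnot (Nat.beq (s3941 R j i) (nat_lit 0))

theorem e3943 (R : VR) : B2 R (v3943 R) (s3943 R) :=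
  L.nz (VR.h2e R) (VR.k2e R) (e3941 R)

noncomputable def v3944 (R : VR) : ℕ :=
  Nat.lor (Nat.shiftRight (Nat.land (Nat.add (v3936 R) (VR.k2 R)) (VR.h2 R)) (nat_lit 15))
    (Nat.shiftRight (Nat.land (Nat.add (v3941 R) (VR.k2 R)) (VR.h2 R)) (nat_lit 15))

noncomputable def s3944 (R : VR) (j i : ℕ) : Bool :=
  K.bor (s3938 R j i) (s3943 R j i)

theorem e3944 (R : VR) : B2 R (v3944 R) (s3944 R) :=
  B.or (e3938 R) (e3943 R)

noncomputable def s3945 (R : VR) (j i : ℕ) : Bool :=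
  V2.ne R (s1607 R j) (s3871 R i)

theorem e3945 (R : VR) : B2 R (v3944 R) (s3945 R) :=
  e3944 R

noncomputable def v3946 (R : VR) : ℕ :=
  Nat.mul (v3871 R) (VR.cr1 R)

noncomputable def s3946 (R : VR) (j i : ℕ) : ℕ :=
  (s3871 R i)

theorem e3946 (R : VR) : L2 R (v3946 R) (s3946 R) 29 :=
  L2.rep (e3871 R)

noncomputable def s3947 (R : VR) (j i : ℕ) : Bool :=
  K.Fc_ne (VR.F R) (s1607 R j) (s3871 R i)

theorem e3947 (R : VR) : B2 R (v3944 R) (s3947 R) :=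
  B.of_eq (e3945 R) (fun t ht => V2.ne_eq R (s1607 R (t / VR.S R)) (s3871 R (t % VR.S R)) ((L.le
    (e3946 R) t ht).trans (by decide)))

noncomputable def v3948 (R : VR) : ℕ :=
  Nat.lor (Nat.lor (Nat.shiftRight (Nat.land (Nat.add (v3922 R) (VR.k2 R)) (VR.h2 R)) (nat_lit
    15)) (Nat.shiftRight (Nat.land (Nat.add (v3927 R) (VR.k2 R)) (VR.h2 R)) (nat_lit 15)))
    (Nat.lor (Nat.shiftRight (Nat.land (Nat.add (v3936 R) (VR.k2 R)) (VR.h2 R)) (nat_lit 15))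
    (Nat.shiftRight (Nat.land (Nat.add (v3941 R) (VR.k2 R)) (VR.h2 R)) (nat_lit 15)))

noncomputable def s3948 (R : VR) (j i : ℕ) : Bool :=
  K.bor (s3933 R j i) (s3947 R j i)

theorem e3948 (R : VR) : B2 R (v3948 R) (s3948 R) :=
  B.or (e3933 R) (e3947 R)

noncomputable def v3949 (R : VR) : ℕ :=
  Nat.land (v3920 R) (v3935 R)

noncomputable def s3949 (R : VR) (j i : ℕ) : ℕ :=
  Nat.land (s3920 R j i) (s3935 R j i)

theorem e3949 (R : VR) : L2 R (v3949 R) (s3949 R) 32767 :=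
  L.land (e3920 R) (e3935 R)

noncomputable def v3950 (R : VR) : ℕ :=
  Nat.shiftRight (Nat.land (Nat.sub (VR.h2 R) (v3949 R)) (VR.h2 R)) (nat_lit 15)

noncomputable def s3950 (R : VR) (j i : ℕ) : Bool :=
  Nat.beq (s3949 R j i) (nat_lit 0)

theorem e3950 (R : VR) : B2 R (v3950 R) (s3950 R) :=
  L.ez (VR.h2e R) (e3949 R)

noncomputable def v3951 (R : VR) : ℕ :=
  Nat.shiftRight (Nat.land (Nat.add (v3949 R) (VR.k2 R)) (VR.h2 R)) (nat_lit 15)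

noncomputable def s3951 (R : VR) (j i : ℕ) : Bool :=
  K.bnot (Nat.beq (s3949 R j i) (nat_lit 0))

theorem e3951 (R : VR) : B2 R (v3951 R) (s3951 R) :=
  L.nz (VR.h2e R) (VR.k2e R) (e3949 R)

noncomputable def v3952 (R : VR) : ℕ :=
  Nat.land (v3925 R) (v3940 R)

noncomputable def s3952 (R : VR) (j i : ℕ) : ℕ :=
  Nat.land (s3925 R j i) (s3940 R j i)

theorem e3952 (R : VR) : L2 R (v3952 R) (s3952 R) 32767 :=
  L.land (e3925 R) (e3940 R)

noncomputable def v3953 (R : VR) : ℕ :=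
  Nat.shiftRight (Nat.land (Nat.sub (VR.h2 R) (v3952 R)) (VR.h2 R)) (nat_lit 15)

noncomputable def s3953 (R : VR) (j i : ℕ) : Bool :=
  Nat.beq (s3952 R j i) (nat_lit 0)

theorem e3953 (R : VR) : B2 R (v3953 R) (s3953 R) :=
  L.ez (VR.h2e R) (e3952 R)

noncomputable def v3954 (R : VR) : ℕ :=
  Nat.shiftRight (Nat.land (Nat.add (v3952 R) (VR.k2 R)) (VR.h2 R)) (nat_lit 15)

noncomputable def s3954 (R : VR) (j i : ℕ) : Bool :=
  K.bnot (Nat.beq (s3952 R j i) (nat_lit 0))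

theorem e3954 (R : VR) : B2 R (v3954 R) (s3954 R) :=
  L.nz (VR.h2e R) (VR.k2e R) (e3952 R)

noncomputable def v3955 (R : VR) : ℕ :=
  Nat.lor (Nat.shiftRight (Nat.land (Nat.add (v3949 R) (VR.k2 R)) (VR.h2 R)) (nat_lit 15))
    (Nat.shiftRight (Nat.land (Nat.add (v3952 R) (VR.k2 R)) (VR.h2 R)) (nat_lit 15))

noncomputable def s3955 (R : VR) (j i : ℕ) : Bool :=
  K.bor (s3951 R j i) (s3954 R j i)

theorem e3955 (R : VR) : B2 R (v3955 R) (s3955 R) :=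
  B.or (e3951 R) (e3954 R)

noncomputable def s3956 (R : VR) (j i : ℕ) : Bool :=
  V2.ne R (s113 R j) (s3871 R i)

theorem e3956 (R : VR) : B2 R (v3955 R) (s3956 R) :=
  e3955 R

noncomputable def s3957 (R : VR) (j i : ℕ) : Bool :=
  K.Fc_ne (VR.F R) (s113 R j) (s3871 R i)

theorem e3957 (R : VR) : B2 R (v3955 R) (s3957 R) :=
  B.of_eq (e3956 R) (fun t ht => V2.ne_eq R (s113 R (t / VR.S R)) (s3871 R (t % VR.S R)) ((L.le
    (e3946 R) t ht).trans (by decide)))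

noncomputable def v3958 (R : VR) : ℕ :=
  Nat.land (v3934 R) (v3921 R)

noncomputable def s3958 (R : VR) (j i : ℕ) : ℕ :=
  Nat.land (s3934 R j i) (s3921 R j i)

theorem e3958 (R : VR) : L2 R (v3958 R) (s3958 R) 32767 :=
  L.land (e3934 R) (e3921 R)

noncomputable def v3959 (R : VR) : ℕ :=
  Nat.shiftRight (Nat.land (Nat.sub (VR.h2 R) (v3958 R)) (VR.h2 R)) (nat_lit 15)

noncomputable def s3959 (R : VR) (j i : ℕ) : Bool :=
  Nat.beq (s3958 R j i) (nat_lit 0)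

theorem e3959 (R : VR) : B2 R (v3959 R) (s3959 R) :=
  L.ez (VR.h2e R) (e3958 R)

noncomputable def v3960 (R : VR) : ℕ :=
  Nat.shiftRight (Nat.land (Nat.add (v3958 R) (VR.k2 R)) (VR.h2 R)) (nat_lit 15)

noncomputable def s3960 (R : VR) (j i : ℕ) : Bool :=
  K.bnot (Nat.beq (s3958 R j i) (nat_lit 0))

theorem e3960 (R : VR) : B2 R (v3960 R) (s3960 R) :=
  L.nz (VR.h2e R) (VR.k2e R) (e3958 R)

noncomputable def v3961 (R : VR) : ℕ :=
  Nat.land (v3939 R) (v3926 R)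

noncomputable def s3961 (R : VR) (j i : ℕ) : ℕ :=
  Nat.land (s3939 R j i) (s3926 R j i)

theorem e3961 (R : VR) : L2 R (v3961 R) (s3961 R) 32767 :=
  L.land (e3939 R) (e3926 R)

noncomputable def v3962 (R : VR) : ℕ :=
  Nat.shiftRight (Nat.land (Nat.sub (VR.h2 R) (v3961 R)) (VR.h2 R)) (nat_lit 15)

noncomputable def s3962 (R : VR) (j i : ℕ) : Bool :=
  Nat.beq (s3961 R j i) (nat_lit 0)

theorem e3962 (R : VR) : B2 R (v3962 R) (s3962 R) :=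
  L.ez (VR.h2e R) (e3961 R)

noncomputable def v3963 (R : VR) : ℕ :=
  Nat.shiftRight (Nat.land (Nat.add (v3961 R) (VR.k2 R)) (VR.h2 R)) (nat_lit 15)

noncomputable def s3963 (R : VR) (j i : ℕ) : Bool :=
  K.bnot (Nat.beq (s3961 R j i) (nat_lit 0))

theorem e3963 (R : VR) : B2 R (v3963 R) (s3963 R) :=
  L.nz (VR.h2e R) (VR.k2e R) (e3961 R)

noncomputable def v3964 (R : VR) : ℕ :=
  Nat.lor (Nat.shiftRight (Nat.land (Nat.add (v3958 R) (VR.k2 R)) (VR.h2 R)) (nat_lit 15))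
    (Nat.shiftRight (Nat.land (Nat.add (v3961 R) (VR.k2 R)) (VR.h2 R)) (nat_lit 15))

noncomputable def s3964 (R : VR) (j i : ℕ) : Bool :=
  K.bor (s3960 R j i) (s3963 R j i)

theorem e3964 (R : VR) : B2 R (v3964 R) (s3964 R) :=
  B.or (e3960 R) (e3963 R)

noncomputable def s3965 (R : VR) (j i : ℕ) : Bool :=
  V2.ne R (s1607 R j) (s3868 R i)

theorem e3965 (R : VR) : B2 R (v3964 R) (s3965 R) :=
  e3964 R

noncomputable def s3966 (R : VR) (j i : ℕ) : Bool :=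
  K.Fc_ne (VR.F R) (s1607 R j) (s3868 R i)

theorem e3966 (R : VR) : B2 R (v3964 R) (s3966 R) :=
  B.of_eq (e3965 R) (fun t ht => V2.ne_eq R (s1607 R (t / VR.S R)) (s3868 R (t % VR.S R)) ((L.le
    (e3932 R) t ht).trans (by decide)))

noncomputable def v3967 (R : VR) : ℕ :=
  Nat.lor (Nat.lor (Nat.shiftRight (Nat.land (Nat.add (v3949 R) (VR.k2 R)) (VR.h2 R)) (nat_lit
    15)) (Nat.shiftRight (Nat.land (Nat.add (v3952 R) (VR.k2 R)) (VR.h2 R)) (nat_lit 15)))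
    (Nat.lor (Nat.shiftRight (Nat.land (Nat.add (v3958 R) (VR.k2 R)) (VR.h2 R)) (nat_lit 15))
    (Nat.shiftRight (Nat.land (Nat.add (v3961 R) (VR.k2 R)) (VR.h2 R)) (nat_lit 15)))

noncomputable def s3967 (R : VR) (j i : ℕ) : Bool :=
  K.bor (s3957 R j i) (s3966 R j i)

theorem e3967 (R : VR) : B2 R (v3967 R) (s3967 R) :=
  B.or (e3957 R) (e3966 R)

noncomputable def v3968 (R : VR) : ℕ :=
  Nat.land (Nat.lor (Nat.lor (Nat.shiftRight (Nat.land (Nat.add (v3922 R) (VR.k2 R)) (VR.h2 R))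
    (nat_lit 15)) (Nat.shiftRight (Nat.land (Nat.add (v3927 R) (VR.k2 R)) (VR.h2 R)) (nat_lit
    15))) (Nat.lor (Nat.shiftRight (Nat.land (Nat.add (v3936 R) (VR.k2 R)) (VR.h2 R)) (nat_lit
    15)) (Nat.shiftRight (Nat.land (Nat.add (v3941 R) (VR.k2 R)) (VR.h2 R)) (nat_lit 15))))
    (Nat.lor (Nat.lor (Nat.shiftRight (Nat.land (Nat.add (v3949 R) (VR.k2 R)) (VR.h2 R)) (nat_lit
    15)) (Nat.shiftRight (Nat.land (Nat.add (v3952 R) (VR.k2 R)) (VR.h2 R)) (nat_lit 15)))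
    (Nat.lor (Nat.shiftRight (Nat.land (Nat.add (v3958 R) (VR.k2 R)) (VR.h2 R)) (nat_lit 15))
    (Nat.shiftRight (Nat.land (Nat.add (v3961 R) (VR.k2 R)) (VR.h2 R)) (nat_lit 15))))

noncomputable def s3968 (R : VR) (j i : ℕ) : Bool :=
  K.band (s3948 R j i) (s3967 R j i)

theorem e3968 (R : VR) : B2 R (v3968 R) (s3968 R) :=
  B.and (e3948 R) (e3967 R)

noncomputable def v3969 (R : VR) : ℕ :=
  Nat.lor (v1601 R) (v3968 R)

noncomputable def s3969 (R : VR) (j i : ℕ) : Bool :=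
  K.bor (s1601 R j i) (s3968 R j i)

theorem e3969 (R : VR) : B2 R (v3969 R) (s3969 R) :=
  B.or (e1601 R) (e3968 R)

noncomputable def v3970 (R : VR) : ℕ :=
  Nat.shiftRight (Nat.land (Nat.sub (VR.h1 R) (Nat.mod (Nat.land (Nat.sub (VR.o2 R) (Nat.lor
    (v1601 R) (v3968 R))) (mM (Nat.mul (v112 R) (VR.S R)))) (VR.m1 R))) (VR.h1 R)) (nat_lit 15)

noncomputable def s3970 (R : VR) (i : ℕ) : Bool :=
  K.allN (s112 R) (fun j => (s3969 R j i))

theorem e3970 (R : VR) : B (VR.S R) (v3970 R) (s3970 R) :=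
  B.all (e3969 R) (VR.n_le R)

noncomputable def s3971 (R : VR) (i : ℕ) : Bool :=
  K.allN (s112 R) (fun (x162 : ℕ) => (K.bor (K.bnot (FC6.Pa.real (FC7.Fc.P' (VR.F R)) x162))
    (K.band (K.bor (K.Fc_ne (VR.F R) (FC6.Pa.l (FC7.Fc.P' (VR.F R)) x162) (FC6.Pa.l (FC7.Fc.P'
    (VR.F R)) (FC7.Fc.tj (VR.F R) i))) (K.Fc_ne (VR.F R) (FC6.Pa.l (FC7.Fc.P' (VR.F R)) (FC6.Pa.φ
    (FC7.Fc.P' (VR.F R)) x162)) (FC6.Pa.l (FC7.Fc.P' (VR.F R)) (FC7.Fc.tk (VR.F R) i)))) (K.bor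
    (K.Fc_ne (VR.F R) (FC6.Pa.l (FC7.Fc.P' (VR.F R)) x162) (FC6.Pa.l (FC7.Fc.P' (VR.F R))
    (FC7.Fc.tk (VR.F R) i))) (K.Fc_ne (VR.F R) (FC6.Pa.l (FC7.Fc.P' (VR.F R)) (FC6.Pa.φ (FC7.Fc.P'
    (VR.F R)) x162)) (FC6.Pa.l (FC7.Fc.P' (VR.F R)) (FC7.Fc.tj (VR.F R) i)))))))

theorem e3971 (R : VR) : B (VR.S R) (v3970 R) (s3971 R) :=
  e3970 R

noncomputable def v3972 (R : VR) : ℕ :=
  Nat.land (v3919 R) (Nat.shiftRight (Nat.land (Nat.sub (VR.h1 R) (Nat.mod (Nat.land (Nat.sub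
    (VR.o2 R) (Nat.lor (v1601 R) (v3968 R))) (mM (Nat.mul (v112 R) (VR.S R)))) (VR.m1 R))) (VR.h1
    R)) (nat_lit 15))

noncomputable def s3972 (R : VR) (i : ℕ) : Bool :=
  K.band (s3919 R i) (s3971 R i)

theorem e3972 (R : VR) : B (VR.S R) (v3972 R) (s3972 R) :=
  B.and (e3919 R) (e3971 R)

noncomputable def v3973 (R : VR) : ℕ :=
  Nat.lor (Nat.lor (Nat.lor (Nat.lor (Nat.land (Nat.shiftRight (Nat.land (Nat.sub (VR.h1 R)
    (VR.tyT R)) (VR.h1 R)) (nat_lit 15)) (Nat.shiftRight (Nat.land (Nat.sub (Nat.add (v1715 R)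
    (VR.h1 R)) (v1017 R)) (VR.h1 R)) (nat_lit 15))) (Nat.shiftRight (Nat.land (Nat.sub (VR.h1 R)
    (Nat.xor (VR.tyT R) (v267 R))) (VR.h1 R)) (nat_lit 15))) (v1726 R)) (v1470 R)) (Nat.land
    (v3919 R) (Nat.shiftRight (Nat.land (Nat.sub (VR.h1 R) (Nat.mod (Nat.land (Nat.sub (VR.o2 R)
    (Nat.lor (v1601 R) (v3968 R))) (mM (Nat.mul (v112 R) (VR.S R)))) (VR.m1 R))) (VR.h1 R))
    (nat_lit 15)))

noncomputable def s3973 (R : VR) (i : ℕ) : Bool :=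
  K.bor (s3846 R i) (s3972 R i)

theorem e3973 (R : VR) : B (VR.S R) (v3973 R) (s3973 R) :=
  B.or (e3846 R) (e3972 R)

noncomputable def v3974 (R : VR) : Bool :=
  Nat.beq (Nat.land (Nat.sub (VR.o1 R) (v3973 R)) (mM (v1468 R))) (nat_lit 0)

noncomputable def s3974 (R : VR) : Bool :=
  K.allN (s1468 R) (s3973 R)

theorem e3974 (R : VR) : (v3974 R) = s3974 R :=
  all0 (e3973 R) (VR.p_le R)

noncomputable def s3975 (R : VR) : Bool :=
  K.allN (s1468 R) (fun (x163 : ℕ) => (K.bor (K.bor (K.bor (K.bor (K.band (Nat.beq (FC7.Fc.ty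
    (VR.F R) x163) (nat_lit 0)) (Nat.ble (nat_lit 3) (K.Fc_pu (VR.F R) x163))) (Nat.beq (FC7.Fc.ty
    (VR.F R) x163) (nat_lit 1))) (Nat.beq (FC7.Fc.ty (VR.F R) x163) (nat_lit 3))) (Nat.beq
    (FC7.Fc.ty (VR.F R) x163) (nat_lit 4))) (K.band (K.band (K.band (K.band (K.band (K.band
    (K.band (K.band (K.band (K.band (K.band (K.band (Nat.beq (FC7.Fc.ty (VR.F R) x163) (nat_lit
    2)) (Nat.ble (Nat.succ (FC7.Fc.tj (VR.F R) x163)) (FC6.Pa.n (FC7.Fc.P (VR.F R))))) (Nat.ble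
    (Nat.succ (FC7.Fc.tk (VR.F R) x163)) (FC6.Pa.n (FC7.Fc.P (VR.F R))))) (Nat.beq (FC7.OD.pc
    (FC7.Fc.O (VR.F R)) (FC7.Fc.tj (VR.F R) x163)) x163)) (Nat.beq (FC7.OD.pc (FC7.Fc.O (VR.F R))
    (FC7.Fc.tk (VR.F R) x163)) x163)) (K.bnot (Nat.beq (FC6.Pa.u (FC7.Fc.P' (VR.F R)) (FC7.Fc.tj
    (VR.F R) x163)) (nat_lit 0)))) (K.bnot (Nat.beq (FC6.Pa.u (FC7.Fc.P' (VR.F R)) (FC7.Fc.tk
    (VR.F R) x163)) (nat_lit 0)))) (Nat.ble (Nat.succ (FC6.Pa.l (FC7.Fc.P' (VR.F R)) (FC7.Fc.tj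
    (VR.F R) x163))) (FC7.OD.m (FC7.Fc.O (VR.F R))))) (Nat.ble (Nat.succ (FC6.Pa.l (FC7.Fc.P'
    (VR.F R)) (FC7.Fc.tk (VR.F R) x163))) (FC7.OD.m (FC7.Fc.O (VR.F R))))) (K.Fc_ne (VR.F R)
    (FC6.Pa.l (FC7.Fc.P' (VR.F R)) (FC7.Fc.tj (VR.F R) x163)) (FC6.Pa.l (FC7.Fc.P' (VR.F R))
    (FC7.Fc.tk (VR.F R) x163)))) (K.Fc_na (VR.F R) (FC6.Pa.l (FC7.Fc.P' (VR.F R)) (FC7.Fc.tj (VR.F
    R) x163)) (FC6.Pa.l (FC7.Fc.P' (VR.F R)) (FC7.Fc.tk (VR.F R) x163)))) (K.Fc_na (VR.F R)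
    (FC6.Pa.l (FC7.Fc.P' (VR.F R)) (FC7.Fc.tk (VR.F R) x163)) (FC6.Pa.l (FC7.Fc.P' (VR.F R))
    (FC7.Fc.tj (VR.F R) x163)))) (K.allN (FC6.Pa.n (FC7.Fc.P (VR.F R))) (fun (x164 : ℕ) => (K.bor
    (K.bnot (FC6.Pa.real (FC7.Fc.P' (VR.F R)) x164)) (K.band (K.bor (K.Fc_ne (VR.F R) (FC6.Pa.l
    (FC7.Fc.P' (VR.F R)) x164) (FC6.Pa.l (FC7.Fc.P' (VR.F R)) (FC7.Fc.tj (VR.F R) x163))) (K.Fc_ne
    (VR.F R) (FC6.Pa.l (FC7.Fc.P' (VR.F R)) (FC6.Pa.φ (FC7.Fc.P' (VR.F R)) x164)) (FC6.Pa.l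
    (FC7.Fc.P' (VR.F R)) (FC7.Fc.tk (VR.F R) x163)))) (K.bor (K.Fc_ne (VR.F R) (FC6.Pa.l
    (FC7.Fc.P' (VR.F R)) x164) (FC6.Pa.l (FC7.Fc.P' (VR.F R)) (FC7.Fc.tk (VR.F R) x163))) (K.Fc_ne
    (VR.F R) (FC6.Pa.l (FC7.Fc.P' (VR.F R)) (FC6.Pa.φ (FC7.Fc.P' (VR.F R)) x164)) (FC6.Pa.l
    (FC7.Fc.P' (VR.F R)) (FC7.Fc.tj (VR.F R) x163)))))))))))

theorem e3975 (R : VR) : (v3974 R) = s3975 R :=
  e3974 R

noncomputable def v3976 (R : VR) : ℕ :=
  srM (VR.N R) (VR.S R) (VR.o1 R) (VR.tyT R)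

noncomputable def v3977 (R : VR) : ℕ :=
  Nat.mod (Nat.land (v117 R) (v3976 R)) (VR.m1 R)

noncomputable def s3977 (R : VR) (i : ℕ) : ℕ :=
  tx (VR.tyT R) (s116 R i)

theorem e3977 (R : VR) : L (VR.S R) (v3977 R) (s3977 R) 255 :=
  L.gat (e116 R) (VR.ty_is R) (VR.ty_lt R) (VR.ty_le R)

noncomputable def v3978 (R : VR) : ℕ :=
  Nat.shiftRight (Nat.land (Nat.sub (VR.h1 R) (Nat.xor (v3977 R) (v267 R))) (VR.h1 R)) (nat_lit
    15)

noncomputable def s3978 (R : VR) (i : ℕ) : Bool :=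
  Nat.beq (s3977 R i) (s267 R i)

theorem e3978 (R : VR) : B (VR.S R) (v3978 R) (s3978 R) :=
  L.beq (VR.h1e R) (e3977 R) (e267 R)

noncomputable def v3979 (R : VR) : ℕ :=
  Nat.sub (VR.o1 R) (Nat.shiftRight (Nat.land (Nat.sub (VR.h1 R) (Nat.xor (v3977 R) (v267 R)))
    (VR.h1 R)) (nat_lit 15))

noncomputable def s3979 (R : VR) (i : ℕ) : Bool :=
  K.bnot (s3978 R i)

theorem e3979 (R : VR) : B (VR.S R) (v3979 R) (s3979 R) :=
  B.not (VR.o1e R) (e3978 R)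

noncomputable def v3980 (R : VR) : ℕ :=
  Nat.lor (v1559 R) (VR.opT R)

noncomputable def s3980 (R : VR) (i : ℕ) : Bool :=
  K.bor (s1559 R i) (s1252 R i)

theorem e3980 (R : VR) : B (VR.S R) (v3980 R) (s3980 R) :=
  B.or (e1559 R) (e1252 R)

noncomputable def v3981 (R : VR) : ℕ :=
  Nat.lor (Nat.lor (v1559 R) (VR.opT R)) (VR.ozT R)

noncomputable def s3981 (R : VR) (i : ℕ) : Bool :=
  K.bor (s3980 R i) (s1846 R i)

theorem e3981 (R : VR) : B (VR.S R) (v3981 R) (s3981 R) :=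
  B.or (e3980 R) (e1846 R)

noncomputable def v3982 (R : VR) : ℕ :=
  Nat.land (v3549 R) (Nat.lor (Nat.lor (v1559 R) (VR.opT R)) (VR.ozT R))

noncomputable def s3982 (R : VR) (i : ℕ) : Bool :=
  K.band (s3549 R i) (s3981 R i)

theorem e3982 (R : VR) : B (VR.S R) (v3982 R) (s3982 R) :=
  B.and (e3549 R) (e3981 R)

noncomputable def v3983 (R : VR) : ℕ :=
  Nat.lor (Nat.sub (VR.o1 R) (Nat.shiftRight (Nat.land (Nat.sub (VR.h1 R) (Nat.xor (v3977 R) (v267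
    R))) (VR.h1 R)) (nat_lit 15))) (Nat.land (v3549 R) (Nat.lor (Nat.lor (v1559 R) (VR.opT R))
    (VR.ozT R)))

noncomputable def s3983 (R : VR) (i : ℕ) : Bool :=
  K.bor (s3979 R i) (s3982 R i)

theorem e3983 (R : VR) : B (VR.S R) (v3983 R) (s3983 R) :=
  B.or (e3979 R) (e3982 R)

noncomputable def v3984 (R : VR) : Bool :=
  Nat.beq (Nat.land (Nat.sub (VR.o1 R) (Nat.lor (Nat.sub (VR.o1 R) (Nat.shiftRight (Nat.land
    (Nat.sub (VR.h1 R) (Nat.xor (v3977 R) (v267 R))) (VR.h1 R)) (nat_lit 15))) (Nat.land (v3549 R)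
    (Nat.lor (Nat.lor (v1559 R) (VR.opT R)) (VR.ozT R))))) (mM (v112 R))) (nat_lit 0)

noncomputable def s3984 (R : VR) : Bool :=
  K.allN (s112 R) (s3983 R)

theorem e3984 (R : VR) : (v3984 R) = s3984 R :=
  all0 (e3983 R) (VR.n_le R)

noncomputable def s3985 (R : VR) : Bool :=
  K.allN (s112 R) (fun (x165 : ℕ) => (K.bor (K.bnot (Nat.beq (FC7.Fc.ty (VR.F R) (FC7.OD.pc
    (FC7.Fc.O (VR.F R)) x165)) (nat_lit 1))) (K.band (Nat.beq (FC6.Pa.u (FC7.Fc.P' (VR.F R)) x165)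
    (nat_lit 0)) (K.bor (K.bor (K.bor (K.bnot (Nat.beq (FC6.Pa.α (FC7.Fc.P (VR.F R)) x165) x165))
    (FC6.Pa.real (FC7.Fc.P (VR.F R)) x165)) (FC7.Fc.op (VR.F R) x165)) (FC7.Fc.oz (VR.F R)
    x165)))))

theorem e3985 (R : VR) : (v3984 R) = s3985 R :=
  e3984 R

noncomputable def v3986 (R : VR) : Bool :=
  K.band (Nat.beq (Nat.land (Nat.sub (VR.o1 R) (v3973 R)) (mM (v1468 R))) (nat_lit 0)) (Nat.beq
    (Nat.land (Nat.sub (VR.o1 R) (Nat.lor (Nat.sub (VR.o1 R) (Nat.shiftRight (Nat.land (Nat.sub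
    (VR.h1 R) (Nat.xor (v3977 R) (v267 R))) (VR.h1 R)) (nat_lit 15))) (Nat.land (v3549 R) (Nat.lor
    (Nat.lor (v1559 R) (VR.opT R)) (VR.ozT R))))) (mM (v112 R))) (nat_lit 0))

noncomputable def s3986 (R : VR) : Bool :=
  K.band (s3975 R) (s3985 R)

theorem e3986 (R : VR) : (v3986 R) = s3986 R :=
  congrArg₂ K.band (e3975 R) (e3985 R)

noncomputable def s3987 (R : VR) : Bool :=
  K.Fc_chkQ (VR.F R)

theorem e3987 (R : VR) : (v3986 R) = s3987 R :=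
  e3986 R

noncomputable def c_fchkQ (R : VR) : Bool :=
  (K.band (Nat.beq (Nat.land (Nat.sub (VR.o1 R) (v3973 R)) (mM (v1468 R))) (nat_lit 0)) (Nat.beq
    (Nat.land (Nat.sub (VR.o1 R) (Nat.lor (Nat.sub (VR.o1 R) (Nat.shiftRight (Nat.land (Nat.sub
    (VR.h1 R) (Nat.xor (v3977 R) (v267 R))) (VR.h1 R)) (nat_lit 15))) (Nat.land (v3549 R) (Nat.lor
    (Nat.lor (v1559 R) (VR.opT R)) (VR.ozT R))))) (mM (v112 R))) (nat_lit 0)))

theorem c_fchkQ_eq (R : VR) : c_fchkQ R = (K.Fc_chkQ (VR.F R)) :=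
  e3987 R

noncomputable def v3988 (R : VR) : ℕ :=
  Nat.shiftRight (Nat.land (Nat.sub (Nat.add (v172 R) (VR.k1 R)) (VR.kpT R)) (VR.h1 R)) (nat_lit
    15)

noncomputable def s3988 (R : VR) (i : ℕ) : Bool :=
  Nat.ble (Nat.succ (s1407 R i)) (s172 R i)

theorem e3988 (R : VR) : B (VR.S R) (v3988 R) (s3988 R) :=
  L.blt (VR.h1e R) (VR.k1e R) (e1407 R) (e172 R)

noncomputable def v3989 (R : VR) : ℕ :=
  Nat.land (Nat.shiftRight (Nat.land (Nat.sub (Nat.add (v172 R) (VR.k1 R)) (VR.kpT R)) (VR.h1 R))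
    (nat_lit 15)) (v1243 R)

noncomputable def s3989 (R : VR) (i : ℕ) : Bool :=
  K.band (s3988 R i) (s1243 R i)

theorem e3989 (R : VR) : B (VR.S R) (v3989 R) (s3989 R) :=
  B.and (e3988 R) (e1243 R)

noncomputable def v3990 (R : VR) : ℕ :=
  Nat.mod (Nat.land (v1408 R) (v1606 R)) (VR.m1 R)

noncomputable def s3990 (R : VR) (i : ℕ) : ℕ :=
  tx (VR.lpT R) (s1407 R i)

theorem e3990 (R : VR) : L (VR.S R) (v3990 R) (s3990 R) 29 :=
  L.gat (e1407 R) (VR.lp_is R) (VR.lp_lt R) (VR.lp_le R)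

noncomputable def v3991 (R : VR) : ℕ :=
  Nat.shiftRight (Nat.land (Nat.sub (VR.h1 R) (Nat.xor (Nat.mod (Nat.land (v1408 R) (v1606 R))
    (VR.m1 R)) (VR.lT R))) (VR.h1 R)) (nat_lit 15)

noncomputable def s3991 (R : VR) (i : ℕ) : Bool :=
  Nat.beq (s3990 R i) (s7 R i)

theorem e3991 (R : VR) : B (VR.S R) (v3991 R) (s3991 R) :=
  L.beq (VR.h1e R) (e3990 R) (e7 R)

noncomputable def v3992 (R : VR) : ℕ :=
  Nat.land (Nat.land (Nat.shiftRight (Nat.land (Nat.sub (Nat.add (v172 R) (VR.k1 R)) (VR.kpT R))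
    (VR.h1 R)) (nat_lit 15)) (v1243 R)) (Nat.shiftRight (Nat.land (Nat.sub (VR.h1 R) (Nat.xor
    (Nat.mod (Nat.land (v1408 R) (v1606 R)) (VR.m1 R)) (VR.lT R))) (VR.h1 R)) (nat_lit 15))

noncomputable def s3992 (R : VR) (i : ℕ) : Bool :=
  K.band (s3989 R i) (s3991 R i)

theorem e3992 (R : VR) : B (VR.S R) (v3992 R) (s3992 R) :=
  B.and (e3989 R) (e3991 R)

noncomputable def v3993 (R : VR) : ℕ :=
  Nat.land (Nat.land (Nat.land (Nat.shiftRight (Nat.land (Nat.sub (Nat.add (v172 R) (VR.k1 R))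
    (VR.kpT R)) (VR.h1 R)) (nat_lit 15)) (v1243 R)) (Nat.shiftRight (Nat.land (Nat.sub (VR.h1 R)
    (Nat.xor (Nat.mod (Nat.land (v1408 R) (v1606 R)) (VR.m1 R)) (VR.lT R))) (VR.h1 R)) (nat_lit
    15))) (v861 R)

noncomputable def s3993 (R : VR) (i : ℕ) : Bool :=
  K.band (s3992 R i) (s861 R i)

theorem e3993 (R : VR) : B (VR.S R) (v3993 R) (s3993 R) :=
  B.and (e3992 R) (e861 R)

noncomputable def v3994 (R : VR) : ℕ :=
  Nat.land (Nat.land (Nat.land (Nat.land (Nat.shiftRight (Nat.land (Nat.sub (Nat.add (v172 R)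
    (VR.k1 R)) (VR.kpT R)) (VR.h1 R)) (nat_lit 15)) (v1243 R)) (Nat.shiftRight (Nat.land (Nat.sub
    (VR.h1 R) (Nat.xor (Nat.mod (Nat.land (v1408 R) (v1606 R)) (VR.m1 R)) (VR.lT R))) (VR.h1 R))
    (nat_lit 15))) (v861 R)) (v1147 R)

noncomputable def s3994 (R : VR) (i : ℕ) : Bool :=
  K.band (s3993 R i) (s1147 R i)

theorem e3994 (R : VR) : B (VR.S R) (v3994 R) (s3994 R) :=
  B.and (e3993 R) (e1147 R)

noncomputable def v3995 (R : VR) : ℕ :=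
  gmk (VR.h2 R) (VR.J R) (Nat.mul (v1410 R) (VR.cr1 R))

noncomputable def v3996 (R : VR) : ℕ :=
  Nat.mod (Nat.land (gmk (VR.h2 R) (VR.J R) (Nat.mul (v1410 R) (VR.cr1 R))) (v3976 R)) (VR.m1 R)

noncomputable def s3996 (R : VR) (i : ℕ) : ℕ :=
  tx (VR.tyT R) (s1410 R i)

theorem e3996 (R : VR) : L (VR.S R) (v3996 R) (s3996 R) 255 :=
  L.gat (e1410 R) (VR.ty_is R) (VR.ty_lt R) (VR.ty_le R)

noncomputable def v3997 (R : VR) : ℕ :=
  Nat.shiftRight (Nat.land (Nat.sub (VR.h1 R) (Nat.xor (v3996 R) (v267 R))) (VR.h1 R)) (nat_lit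
    15)

noncomputable def s3997 (R : VR) (i : ℕ) : Bool :=
  Nat.beq (s3996 R i) (s267 R i)

theorem e3997 (R : VR) : B (VR.S R) (v3997 R) (s3997 R) :=
  L.beq (VR.h1e R) (e3996 R) (e267 R)

noncomputable def v3998 (R : VR) : ℕ :=
  Nat.sub (VR.o1 R) (Nat.shiftRight (Nat.land (Nat.sub (VR.h1 R) (Nat.xor (v3996 R) (v267 R)))
    (VR.h1 R)) (nat_lit 15))

noncomputable def s3998 (R : VR) (i : ℕ) : Bool :=
  K.bnot (s3997 R i)

theorem e3998 (R : VR) : B (VR.S R) (v3998 R) (s3998 R) :=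
  B.not (VR.o1e R) (e3997 R)

noncomputable def v3999 (R : VR) : ℕ :=
  srM (VR.N R) (VR.S R) (VR.o1 R) (VR.ozT R)

noncomputable def v4000 (R : VR) : ℕ :=
  Nat.mod (Nat.land (v1245 R) (srM (VR.N R) (VR.S R) (VR.o1 R) (VR.ozT R))) (VR.m1 R)

noncomputable def s4000 (R : VR) (i : ℕ) : Bool :=
  tf (VR.ozT R) (s1242 R i)

theorem e4000 (R : VR) : B (VR.S R) (v4000 R) (s4000 R) :=
  B.gat (e1242 R) (VR.oz_is R) (VR.oz_lt R)

noncomputable def v4001 (R : VR) : ℕ :=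
  Nat.mod (Nat.land (v1245 R) (v1409 R)) (VR.m1 R)

noncomputable def s4001 (R : VR) (i : ℕ) : ℕ :=
  tx (VR.cepT R) (s1242 R i)

theorem e4001 (R : VR) : L (VR.S R) (v4001 R) (s4001 R) 14 :=
  L.gat (e1242 R) (VR.cep_is R) (VR.cep_lt R) (VR.cep_le R)

noncomputable def v4002 (R : VR) : ℕ :=
  Nat.shiftRight (Nat.land (Nat.sub (VR.h1 R) (Nat.xor (Nat.mod (Nat.land (v1245 R) (v1409 R))
    (VR.m1 R)) (v1410 R))) (VR.h1 R)) (nat_lit 15)

noncomputable def s4002 (R : VR) (i : ℕ) : Bool :=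
  Nat.beq (s4001 R i) (s1410 R i)

theorem e4002 (R : VR) : B (VR.S R) (v4002 R) (s4002 R) :=
  L.beq (VR.h1e R) (e4001 R) (e1410 R)

noncomputable def v4003 (R : VR) : ℕ :=
  Nat.land (Nat.mod (Nat.land (v1245 R) (srM (VR.N R) (VR.S R) (VR.o1 R) (VR.ozT R))) (VR.m1 R))
    (Nat.shiftRight (Nat.land (Nat.sub (VR.h1 R) (Nat.xor (Nat.mod (Nat.land (v1245 R) (v1409 R))
    (VR.m1 R)) (v1410 R))) (VR.h1 R)) (nat_lit 15))

noncomputable def s4003 (R : VR) (i : ℕ) : Bool :=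
  K.band (s4000 R i) (s4002 R i)

theorem e4003 (R : VR) : B (VR.S R) (v4003 R) (s4003 R) :=
  B.and (e4000 R) (e4002 R)

noncomputable def v4004 (R : VR) : ℕ :=
  Nat.lor (Nat.sub (VR.o1 R) (Nat.shiftRight (Nat.land (Nat.sub (VR.h1 R) (Nat.xor (v3996 R) (v267
    R))) (VR.h1 R)) (nat_lit 15))) (v4003 R)

noncomputable def s4004 (R : VR) (i : ℕ) : Bool :=
  K.bor (s3998 R i) (s4003 R i)

theorem e4004 (R : VR) : B (VR.S R) (v4004 R) (s4004 R) :=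
  B.or (e3998 R) (e4003 R)

noncomputable def v4005 (R : VR) : ℕ :=
  Nat.land (Nat.land (Nat.land (Nat.land (Nat.land (Nat.shiftRight (Nat.land (Nat.sub (Nat.add
    (v172 R) (VR.k1 R)) (VR.kpT R)) (VR.h1 R)) (nat_lit 15)) (v1243 R)) (Nat.shiftRight (Nat.land
    (Nat.sub (VR.h1 R) (Nat.xor (Nat.mod (Nat.land (v1408 R) (v1606 R)) (VR.m1 R)) (VR.lT R)))
    (VR.h1 R)) (nat_lit 15))) (v861 R)) (v1147 R)) (Nat.lor (Nat.sub (VR.o1 R) (Nat.shiftRight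
    (Nat.land (Nat.sub (VR.h1 R) (Nat.xor (v3996 R) (v267 R))) (VR.h1 R)) (nat_lit 15))) (v4003
    R))

noncomputable def s4005 (R : VR) (i : ℕ) : Bool :=
  K.band (s3994 R i) (s4004 R i)

theorem e4005 (R : VR) : B (VR.S R) (v4005 R) (s4005 R) :=
  B.and (e3994 R) (e4004 R)

noncomputable def v4006 (R : VR) : ℕ :=
  Nat.lor (v1241 R) (v4005 R)

noncomputable def s4006 (R : VR) (i : ℕ) : Bool :=
  K.bor (s1241 R i) (s4005 R i)

theorem e4006 (R : VR) : B (VR.S R) (v4006 R) (s4006 R) :=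
  B.or (e1241 R) (e4005 R)

noncomputable def v4007 (R : VR) : Bool :=
  Nat.beq (Nat.land (Nat.sub (VR.o1 R) (Nat.lor (v1241 R) (v4005 R))) (mM (v112 R))) (nat_lit 0)

noncomputable def s4007 (R : VR) : Bool :=
  K.allN (s112 R) (s4006 R)

theorem e4007 (R : VR) : (v4007 R) = s4007 R :=
  all0 (e4006 R) (VR.n_le R)

noncomputable def s4008 (R : VR) : Bool :=
  K.allN (s112 R) (fun (x166 : ℕ) => (K.bor (K.bnot (FC7.Fc.uk (VR.F R) x166)) (K.band (K.band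
    (K.band (K.band (K.band (Nat.ble (Nat.succ (FC7.Fc.kp (VR.F R) x166)) (FC6.Pa.n (FC7.Fc.P
    (VR.F R)))) (Nat.ble (Nat.succ (FC7.Fc.kr (VR.F R) x166)) (FC6.Pa.n (FC7.Fc.P (VR.F R)))))
    (Nat.beq (FC6.Pa.l (FC7.Fc.P' (VR.F R)) (FC7.Fc.kp (VR.F R) x166)) (FC6.Pa.l (FC7.Fc.P (VR.F
    R)) x166))) (Nat.ble (FC7.OD.x (FC7.Fc.O (VR.F R))) (FC6.Pa.l (FC7.Fc.P (VR.F R)) x166)))
    (Nat.ble (Nat.succ (FC6.Pa.l (FC7.Fc.P (VR.F R)) x166)) (FC7.OD.m (FC7.Fc.O (VR.F R)))))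
    (K.bor (K.bnot (Nat.beq (FC7.Fc.ty (VR.F R) (FC7.OD.pc (FC7.Fc.O (VR.F R)) (FC7.Fc.kp (VR.F R)
    x166))) (nat_lit 1))) (K.band (FC7.Fc.oz (VR.F R) (FC7.Fc.kr (VR.F R) x166)) (Nat.beq
    (FC7.OD.pc (FC7.Fc.O (VR.F R)) (FC7.Fc.kr (VR.F R) x166)) (FC7.OD.pc (FC7.Fc.O (VR.F R))
    (FC7.Fc.kp (VR.F R) x166))))))))

theorem e4008 (R : VR) : (v4007 R) = s4008 R :=
  e4007 R

noncomputable def v4009 (R : VR) : ℕ :=
  Nat.sub (VR.o1 R) (VR.luT R)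

noncomputable def s4009 (R : VR) (i : ℕ) : Bool :=
  K.bnot (s1125 R i)

theorem e4009 (R : VR) : B (VR.S R) (v4009 R) (s4009 R) :=
  B.not (VR.o1e R) (e1125 R)

noncomputable def v4010 (R : VR) : ℕ :=
  Nat.land (v192 R) (VR.realT R)

noncomputable def s4010 (R : VR) (i : ℕ) : Bool :=
  K.band (s192 R i) (s434 R i)

theorem e4010 (R : VR) : B (VR.S R) (v4010 R) (s4010 R) :=
  B.and (e192 R) (e434 R)

noncomputable def v4011 (R : VR) : ℕ :=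
  Nat.land (Nat.land (v192 R) (VR.realT R)) (v1127 R)

noncomputable def s4011 (R : VR) (i : ℕ) : Bool :=
  K.band (s4010 R i) (s1127 R i)

theorem e4011 (R : VR) : B (VR.S R) (v4011 R) (s4011 R) :=
  B.and (e4010 R) (e1127 R)

noncomputable def v4012 (R : VR) : ℕ :=
  Nat.land (Nat.land (Nat.land (v192 R) (VR.realT R)) (v1127 R)) (v3552 R)

noncomputable def s4012 (R : VR) (i : ℕ) : Bool :=
  K.band (s4011 R i) (s3552 R i)

theorem e4012 (R : VR) : B (VR.S R) (v4012 R) (s4012 R) :=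
  B.and (e4011 R) (e3552 R)

noncomputable def v4013 (R : VR) : ℕ :=
  Nat.shiftRight (Nat.land (Nat.sub (VR.h1 R) (VR.lbT R)) (VR.h1 R)) (nat_lit 15)

noncomputable def s4013 (R : VR) (i : ℕ) : Bool :=
  Nat.beq (s1237 R i) (nat_lit 0)

theorem e4013 (R : VR) : B (VR.S R) (v4013 R) (s4013 R) :=
  L.ez (VR.h1e R) (e1237 R)

noncomputable def v4014 (R : VR) : ℕ :=
  Nat.land (Nat.land (Nat.land (Nat.land (v192 R) (VR.realT R)) (v1127 R)) (v3552 R))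
    (Nat.shiftRight (Nat.land (Nat.sub (VR.h1 R) (VR.lbT R)) (VR.h1 R)) (nat_lit 15))

noncomputable def s4014 (R : VR) (i : ℕ) : Bool :=
  K.band (s4012 R i) (s4013 R i)

theorem e4014 (R : VR) : B (VR.S R) (v4014 R) (s4014 R) :=
  B.and (e4012 R) (e4013 R)

noncomputable def v4015 (R : VR) : ℕ :=
  Nat.lor (v4009 R) (Nat.land (Nat.land (Nat.land (Nat.land (v192 R) (VR.realT R)) (v1127 R))
    (v3552 R)) (Nat.shiftRight (Nat.land (Nat.sub (VR.h1 R) (VR.lbT R)) (VR.h1 R)) (nat_lit 15)))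

noncomputable def s4015 (R : VR) (i : ℕ) : Bool :=
  K.bor (s4009 R i) (s4014 R i)

theorem e4015 (R : VR) : B (VR.S R) (v4015 R) (s4015 R) :=
  B.or (e4009 R) (e4014 R)

noncomputable def v4016 (R : VR) : Bool :=
  Nat.beq (Nat.land (Nat.sub (VR.o1 R) (Nat.lor (v4009 R) (Nat.land (Nat.land (Nat.land (Nat.land
    (v192 R) (VR.realT R)) (v1127 R)) (v3552 R)) (Nat.shiftRight (Nat.land (Nat.sub (VR.h1 R)
    (VR.lbT R)) (VR.h1 R)) (nat_lit 15))))) (mM (v112 R))) (nat_lit 0)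

noncomputable def s4016 (R : VR) : Bool :=
  K.allN (s112 R) (s4015 R)

theorem e4016 (R : VR) : (v4016 R) = s4016 R :=
  all0 (e4015 R) (VR.n_le R)

noncomputable def s4017 (R : VR) : Bool :=
  K.allN (s112 R) (fun (x167 : ℕ) => (K.bor (K.bnot (FC7.Fc.lu (VR.F R) x167)) (K.band (K.band
    (K.band (K.band (Nat.beq (FC6.Pa.α (FC7.Fc.P (VR.F R)) x167) x167) (FC6.Pa.real (FC7.Fc.P
    (VR.F R)) x167)) (K.bnot (FC7.OD.lb (FC7.Fc.O (VR.F R)) x167))) (K.bnot (FC7.OD.lb' (FC7.Fc.O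
    (VR.F R)) x167))) (Nat.beq (FC7.OD.wt (FC7.Fc.O (VR.F R)) x167) (nat_lit 0)))))

theorem e4017 (R : VR) : (v4016 R) = s4017 R :=
  e4016 R

noncomputable def v4018 (R : VR) : Bool :=
  K.band (Nat.beq (Nat.land (Nat.sub (VR.o1 R) (Nat.lor (v1241 R) (v4005 R))) (mM (v112 R)))
    (nat_lit 0)) (Nat.beq (Nat.land (Nat.sub (VR.o1 R) (Nat.lor (v4009 R) (Nat.land (Nat.land
    (Nat.land (Nat.land (v192 R) (VR.realT R)) (v1127 R)) (v3552 R)) (Nat.shiftRight (Nat.land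
    (Nat.sub (VR.h1 R) (VR.lbT R)) (VR.h1 R)) (nat_lit 15))))) (mM (v112 R))) (nat_lit 0))

noncomputable def s4018 (R : VR) : Bool :=
  K.band (s4008 R) (s4017 R)

theorem e4018 (R : VR) : (v4018 R) = s4018 R :=
  congrArg₂ K.band (e4008 R) (e4017 R)

noncomputable def s4019 (R : VR) : Bool :=
  K.Fc_chkK (VR.F R)

theorem e4019 (R : VR) : (v4018 R) = s4019 R :=
  e4018 R

noncomputable def c_fchkK (R : VR) : Bool :=
  (K.band (Nat.beq (Nat.land (Nat.sub (VR.o1 R) (Nat.lor (v1241 R) (v4005 R))) (mM (v112 R)))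
    (nat_lit 0)) (Nat.beq (Nat.land (Nat.sub (VR.o1 R) (Nat.lor (v4009 R) (Nat.land (Nat.land
    (Nat.land (Nat.land (v192 R) (VR.realT R)) (v1127 R)) (v3552 R)) (Nat.shiftRight (Nat.land
    (Nat.sub (VR.h1 R) (VR.lbT R)) (VR.h1 R)) (nat_lit 15))))) (mM (v112 R))) (nat_lit 0)))

theorem c_fchkK_eq (R : VR) : c_fchkK R = (K.Fc_chkK (VR.F R)) :=
  e4019 R

noncomputable def v4020 (R : VR) : Bool :=
  Nat.beq (Nat.land (Nat.sub (VR.o1 R) (v1600 R)) (mM (v112 R))) (nat_lit 0)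

noncomputable def s4020 (R : VR) : Bool :=
  K.allN (s112 R) (s1600 R)

theorem e4020 (R : VR) : (v4020 R) = s4020 R :=
  all0 (e1600 R) (VR.n_le R)

noncomputable def s4021 (R : VR) : Bool :=
  K.allN (s112 R) (fun (x168 : ℕ) => (K.bnot (FC6.Pa.real (FC7.Fc.P' (VR.F R)) x168)))

theorem e4021 (R : VR) : (v4020 R) = s4021 R :=
  e4020 R

noncomputable def v4022 (R : VR) : Bool :=
  K.bnot (Nat.beq (Nat.land (Nat.sub (VR.o1 R) (v1600 R)) (mM (v112 R))) (nat_lit 0))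

noncomputable def s4022 (R : VR) : Bool :=
  K.bnot (s4021 R)

theorem e4022 (R : VR) : (v4022 R) = s4022 R :=
  congrArg K.bnot (e4021 R)

noncomputable def v4023 (R : VR) : ℕ :=
  Nat.mod (Nat.land (v3591 R) (mM (v112 R))) (nat_lit 65535)

noncomputable def s4023 (R : VR) : ℕ :=
  K.sumN (s112 R) (s3591 R)

theorem e4023 (R : VR) : (v4023 R) = s4023 R :=
  sum1 (e3591 R) (VR.n_le R) (by decide)

theorem b4023 (R : VR) : s4023 R ≤ 127 :=
  sum1_le (e3591 R) (VR.n_le R) (by decide)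

noncomputable def s4024 (R : VR) : ℕ :=
  K.sumN (s112 R) (fun (x169 : ℕ) => (Bool.rec (motive := fun _ => ℕ) (nat_lit 0) (nat_lit 1)
    (FC6.Pa.real (FC7.Fc.P (VR.F R)) x169)))

theorem e4024 (R : VR) : (v4023 R) = s4024 R :=
  e4023 R

theorem b4024 (R : VR) : s4024 R ≤ 127 := (b4023 R)

noncomputable def v4025 (R : VR) : ℕ :=
  (nat_lit 20)

noncomputable def s4025 (R : VR) : ℕ :=
  (nat_lit 20)

theorem e4025 (R : VR) : (v4025 R) = s4025 R :=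
  rfl

noncomputable def v4026 (R : VR) : Bool :=
  Nat.ble (Nat.succ (v4023 R)) ((nat_lit 20))

noncomputable def s4026 (R : VR) : Bool :=
  Nat.ble (Nat.succ (s4024 R)) (s4025 R)

theorem e4026 (R : VR) : (v4026 R) = s4026 R :=
  congrArg₂ Nat.ble (congrArg Nat.succ (e4024 R)) (e4025 R)

noncomputable def v4027 (R : VR) : Bool :=
  K.bor (K.bnot (Nat.beq (Nat.land (Nat.sub (VR.o1 R) (v1600 R)) (mM (v112 R))) (nat_lit 0)))
    (Nat.ble (Nat.succ (v4023 R)) ((nat_lit 20)))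

noncomputable def s4027 (R : VR) : Bool :=
  K.bor (s4022 R) (s4026 R)

theorem e4027 (R : VR) : (v4027 R) = s4027 R :=
  congrArg₂ K.bor (e4022 R) (e4026 R)

noncomputable def s4028 (R : VR) : Bool :=
  K.Fc_chkR (VR.F R)

theorem e4028 (R : VR) : (v4027 R) = s4028 R :=
  e4027 R

noncomputable def c_fchkR (R : VR) : Bool :=
  (K.bor (K.bnot (Nat.beq (Nat.land (Nat.sub (VR.o1 R) (v1600 R)) (mM (v112 R))) (nat_lit 0)))
    (Nat.ble (Nat.succ (v4023 R)) ((nat_lit 20))))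

theorem c_fchkR_eq (R : VR) : c_fchkR R = (K.Fc_chkR (VR.F R)) :=
  e4028 R

noncomputable def v4029 (R : VR) : ℕ :=
  srM (VR.N R) (VR.S R) (VR.o1 R) (VR.realpT R)

noncomputable def s4029 (R : VR) (j i : ℕ) : Bool :=
  (s1579 R j)

theorem e4029 (R : VR) : B2 R (v4029 R) (s4029 R) :=
  B2.row (e1579 R)

noncomputable def v4030 (R : VR) : ℕ :=
  Nat.land (srM (VR.N R) (VR.S R) (VR.o1 R) (VR.realpT R)) (v115 R)

noncomputable def s4030 (R : VR) (j i : ℕ) : Bool :=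
  K.band (s4029 R j i) (s115 R j i)

theorem e4030 (R : VR) : B2 R (v4030 R) (s4030 R) :=
  B.and (e4029 R) (e115 R)

noncomputable def v4031 (R : VR) : ℕ :=
  Nat.mul (VR.o2 R) (v226 R)

noncomputable def s4031 (R : VR) (j i : ℕ) : ℕ :=
  (s226 R)

theorem e4031 (R : VR) : L2 R (v4031 R) (s4031 R) 1 :=
  L.scl (VR.o2e R) (e226 R) (le_of_eq (rfl : s226 R = (nat_lit 1))) (by decide)

noncomputable def v4032 (R : VR) : ℕ :=
  Nat.xor (v25 R) (Nat.land (Nat.xor (v25 R) (Nat.mul (VR.o2 R) (v226 R))) (Nat.mul (Nat.land (srM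
    (VR.N R) (VR.S R) (VR.o1 R) (VR.realpT R)) (v115 R)) (nat_lit 32767)))

noncomputable def s4032 (R : VR) (j i : ℕ) : ℕ :=
  Bool.rec (motive := fun _ => ℕ) (s25 R j i) (s4031 R j i) (s4030 R j i)

theorem e4032 (R : VR) : L2 R (v4032 R) (s4032 R) 1 :=
  L.sel (e4030 R) (e4031 R) (e25 R) (by decide) (by decide) (by decide)

noncomputable def v4033 (R : VR) : ℕ :=
  Nat.mod (Nat.land (Nat.xor (v25 R) (Nat.land (Nat.xor (v25 R) (Nat.mul (VR.o2 R) (v226 R)))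
    (Nat.mul (Nat.land (srM (VR.N R) (VR.S R) (VR.o1 R) (VR.realpT R)) (v115 R)) (nat_lit
    32767)))) (mM (Nat.mul (v112 R) (VR.S R)))) (VR.m1 R)

noncomputable def s4033 (R : VR) (i : ℕ) : ℕ :=
  K.sumN (s112 R) (fun j => (s4032 R j i))

theorem e4033 (R : VR) : L (VR.S R) (v4033 R) (s4033 R) 127 :=
  L.sum (e4032 R) (VR.n_le R) (by decide)

noncomputable def s4034 (R : VR) (i : ℕ) : ℕ :=
  K.sumN (s112 R) (fun (x170 : ℕ) => (Bool.rec (motive := fun _ => ℕ) (nat_lit 0) (nat_lit 1)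
    (K.band (FC6.Pa.real (VR.P' R) x170) (Nat.beq (FC6.Pa.l (VR.P' R) x170) i))))

theorem e4034 (R : VR) : L (VR.S R) (v4033 R) (s4034 R) 127 :=
  e4033 R

noncomputable def s4035 (R : VR) (i : ℕ) : ℕ :=
  K.OD_rdp (VR.P R) (VR.P' R) i

theorem e4035 (R : VR) : L (VR.S R) (v4033 R) (s4035 R) 127 :=
  e4034 R

noncomputable def v4036 (R : VR) : ℕ :=
  Nat.shiftRight (Nat.land (Nat.sub (Nat.add (v4033 R) (VR.h1 R)) (v136 R)) (VR.h1 R)) (nat_lit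
    15)

noncomputable def s4036 (R : VR) (i : ℕ) : Bool :=
  Nat.ble (s136 R i) (s4035 R i)

theorem e4036 (R : VR) : B (VR.S R) (v4036 R) (s4036 R) :=
  L.ble (VR.h1e R) (e136 R) (e4035 R)

noncomputable def v4037 (R : VR) : ℕ :=
  Nat.land (v3643 R) (Nat.shiftRight (Nat.land (Nat.sub (Nat.add (v4033 R) (VR.h1 R)) (v136 R))
    (VR.h1 R)) (nat_lit 15))

noncomputable def s4037 (R : VR) (i : ℕ) : Bool :=
  K.band (s3643 R i) (s4036 R i)

theorem e4037 (R : VR) : B (VR.S R) (v4037 R) (s4037 R) :=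
  B.and (e3643 R) (e4036 R)

noncomputable def v4038 (R : VR) : ℕ :=
  Nat.xor (v511 R) (Nat.land (Nat.xor (v511 R) (v267 R)) (Nat.mul (Nat.land (v3643 R)
    (Nat.shiftRight (Nat.land (Nat.sub (Nat.add (v4033 R) (VR.h1 R)) (v136 R)) (VR.h1 R)) (nat_lit
    15))) (nat_lit 32767)))

noncomputable def s4038 (R : VR) (i : ℕ) : ℕ :=
  Bool.rec (motive := fun _ => ℕ) (s511 R i) (s267 R i) (s4037 R i)

theorem e4038 (R : VR) : L (VR.S R) (v4038 R) (s4038 R) 1 :=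
  L.sel (e4037 R) (e267 R) (e511 R) (by decide) (by decide) (by decide)

noncomputable def v4039 (R : VR) : ℕ :=
  Nat.mod (Nat.land (Nat.xor (v511 R) (Nat.land (Nat.xor (v511 R) (v267 R)) (Nat.mul (Nat.land
    (v3643 R) (Nat.shiftRight (Nat.land (Nat.sub (Nat.add (v4033 R) (VR.h1 R)) (v136 R)) (VR.h1
    R)) (nat_lit 15))) (nat_lit 32767)))) (mM (v624 R))) (nat_lit 65535)

noncomputable def s4039 (R : VR) : ℕ :=
  K.sumN (s624 R) (s4038 R)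

theorem e4039 (R : VR) : (v4039 R) = s4039 R :=
  sum1 (e4038 R) (VR.x_le R) (by decide)

theorem b4039 (R : VR) : s4039 R ≤ 127 :=
  sum1_le (e4038 R) (VR.x_le R) (by decide)

noncomputable def s4040 (R : VR) : ℕ :=
  K.sumN (s624 R) (fun (x171 : ℕ) => (Bool.rec (motive := fun _ => ℕ) (nat_lit 0) (nat_lit 1)
    (K.band (Nat.ble (FC7.OD.lo (VR.O R)) x171) (Nat.ble (nat_lit 4) (K.OD_rdp (VR.P R) (VR.P' R)
    x171)))))

theorem e4040 (R : VR) : (v4039 R) = s4040 R :=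
  e4039 R

theorem b4040 (R : VR) : s4040 R ≤ 127 := (b4039 R)

noncomputable def s4041 (R : VR) : ℕ :=
  K.OD_nbp (VR.O R) (VR.P R) (VR.P' R)

theorem e4041 (R : VR) : (v4039 R) = s4041 R :=
  e4040 R

theorem b4041 (R : VR) : s4041 R ≤ 127 := (b4040 R)

noncomputable def v4042 (R : VR) : Bool :=
  Nat.ble (Nat.succ (v4039 R)) (v624 R)

noncomputable def s4042 (R : VR) : Bool :=
  Nat.ble (Nat.succ (s4041 R)) (s624 R)

theorem e4042 (R : VR) : (v4042 R) = s4042 R :=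
  congrArg₂ Nat.ble (congrArg Nat.succ (e4041 R)) (e624 R)

noncomputable def v4043 (R : VR) : Bool :=
  Nat.ble (v4039 R) (v624 R)

noncomputable def s4043 (R : VR) : Bool :=
  Nat.ble (s4041 R) (s624 R)

theorem e4043 (R : VR) : (v4043 R) = s4043 R :=
  congrArg₂ Nat.ble (e4041 R) (e624 R)

noncomputable def v4044 (R : VR) : ℕ :=
  Nat.shiftRight (Nat.land (Nat.sub (VR.h1 R) (v3977 R)) (VR.h1 R)) (nat_lit 15)

noncomputable def s4044 (R : VR) (i : ℕ) : Bool :=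
  Nat.beq (s3977 R i) (nat_lit 0)

theorem e4044 (R : VR) : B (VR.S R) (v4044 R) (s4044 R) :=
  L.ez (VR.h1e R) (e3977 R)

noncomputable def v4045 (R : VR) : ℕ :=
  Nat.lor (v1559 R) (v4044 R)

noncomputable def s4045 (R : VR) (i : ℕ) : Bool :=
  K.bor (s1559 R i) (s4044 R i)

theorem e4045 (R : VR) : B (VR.S R) (v4045 R) (s4045 R) :=
  B.or (e1559 R) (e4044 R)

noncomputable def v4046 (R : VR) : ℕ :=
  Nat.shiftRight (Nat.land (Nat.sub (VR.h1 R) (Nat.xor (v3977 R) (v1017 R))) (VR.h1 R)) (nat_lit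
    15)

noncomputable def s4046 (R : VR) (i : ℕ) : Bool :=
  Nat.beq (s3977 R i) (s1017 R i)

theorem e4046 (R : VR) : B (VR.S R) (v4046 R) (s4046 R) :=
  L.beq (VR.h1e R) (e3977 R) (e1017 R)

noncomputable def v4047 (R : VR) : ℕ :=
  Nat.lor (Nat.lor (v1559 R) (v4044 R)) (v4046 R)

noncomputable def s4047 (R : VR) (i : ℕ) : Bool :=
  K.bor (s4045 R i) (s4046 R i)

theorem e4047 (R : VR) : B (VR.S R) (v4047 R) (s4047 R) :=
  B.or (e4045 R) (e4046 R)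

noncomputable def v4048 (R : VR) : ℕ :=
  Nat.lor (Nat.lor (Nat.lor (v1559 R) (v4044 R)) (v4046 R)) (VR.opT R)

noncomputable def s4048 (R : VR) (i : ℕ) : Bool :=
  K.bor (s4047 R i) (s1252 R i)

theorem e4048 (R : VR) : B (VR.S R) (v4048 R) (s4048 R) :=
  B.or (e4047 R) (e1252 R)

noncomputable def v4049 (R : VR) : ℕ :=
  Nat.lor (Nat.lor (Nat.lor (Nat.lor (v1559 R) (v4044 R)) (v4046 R)) (VR.opT R)) (VR.twT R)

noncomputable def s4049 (R : VR) (i : ℕ) : Bool :=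
  K.bor (s4048 R i) (s1290 R i)

theorem e4049 (R : VR) : B (VR.S R) (v4049 R) (s4049 R) :=
  B.or (e4048 R) (e1290 R)

noncomputable def v4050 (R : VR) : ℕ :=
  Nat.lor (Nat.lor (Nat.lor (Nat.lor (Nat.lor (v1559 R) (v4044 R)) (v4046 R)) (VR.opT R)) (VR.twT
    R)) (VR.ozT R)

noncomputable def s4050 (R : VR) (i : ℕ) : Bool :=
  K.bor (s4049 R i) (s1846 R i)

theorem e4050 (R : VR) : B (VR.S R) (v4050 R) (s4050 R) :=
  B.or (e4049 R) (e1846 R)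

noncomputable def v4051 (R : VR) : Bool :=
  Nat.beq (Nat.land (Nat.sub (VR.o1 R) (Nat.lor (Nat.lor (Nat.lor (Nat.lor (Nat.lor (v1559 R)
    (v4044 R)) (v4046 R)) (VR.opT R)) (VR.twT R)) (VR.ozT R))) (mM (v112 R))) (nat_lit 0)

noncomputable def s4051 (R : VR) : Bool :=
  K.allN (s112 R) (s4050 R)

theorem e4051 (R : VR) : (v4051 R) = s4051 R :=
  all0 (e4050 R) (VR.n_le R)

noncomputable def s4052 (R : VR) : Bool :=
  K.allN (s112 R) (fun (x174 : ℕ) => (K.bor (K.bor (K.bor (K.bor (K.bor (K.bor (K.bnot (Nat.beq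
    (FC6.Pa.α (FC7.Fc.P (VR.F R)) x174) x174)) (FC6.Pa.real (FC7.Fc.P (VR.F R)) x174)) (Nat.beq
    (FC7.Fc.ty (VR.F R) (FC7.OD.pc (FC7.Fc.O (VR.F R)) x174)) (nat_lit 0))) (Nat.beq (FC7.Fc.ty
    (VR.F R) (FC7.OD.pc (FC7.Fc.O (VR.F R)) x174)) (nat_lit 3))) (FC7.Fc.op (VR.F R) x174))
    (FC7.Fc.tw (VR.F R) x174)) (FC7.Fc.oz (VR.F R) x174)))

theorem e4052 (R : VR) : (v4051 R) = s4052 R :=
  e4051 R

noncomputable def v4053 (R : VR) : ℕ :=
  Nat.shiftRight (Nat.land (Nat.sub (VR.h1 R) (v3996 R)) (VR.h1 R)) (nat_lit 15)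

noncomputable def s4053 (R : VR) (i : ℕ) : Bool :=
  Nat.beq (s3996 R i) (nat_lit 0)

theorem e4053 (R : VR) : B (VR.S R) (v4053 R) (s4053 R) :=
  L.ez (VR.h1e R) (e3996 R)

noncomputable def v4054 (R : VR) : ℕ :=
  Nat.lor (v1241 R) (Nat.shiftRight (Nat.land (Nat.sub (VR.h1 R) (v3996 R)) (VR.h1 R)) (nat_lit
    15))

noncomputable def s4054 (R : VR) (i : ℕ) : Bool :=
  K.bor (s1241 R i) (s4053 R i)

theorem e4054 (R : VR) : B (VR.S R) (v4054 R) (s4054 R) :=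
  B.or (e1241 R) (e4053 R)

noncomputable def v4055 (R : VR) : ℕ :=
  Nat.shiftRight (Nat.land (Nat.sub (VR.h1 R) (Nat.xor (v3996 R) (v1017 R))) (VR.h1 R)) (nat_lit
    15)

noncomputable def s4055 (R : VR) (i : ℕ) : Bool :=
  Nat.beq (s3996 R i) (s1017 R i)

theorem e4055 (R : VR) : B (VR.S R) (v4055 R) (s4055 R) :=
  L.beq (VR.h1e R) (e3996 R) (e1017 R)

noncomputable def v4056 (R : VR) : ℕ :=
  Nat.lor (Nat.lor (v1241 R) (Nat.shiftRight (Nat.land (Nat.sub (VR.h1 R) (v3996 R)) (VR.h1 R))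
    (nat_lit 15))) (Nat.shiftRight (Nat.land (Nat.sub (VR.h1 R) (Nat.xor (v3996 R) (v1017 R)))
    (VR.h1 R)) (nat_lit 15))

noncomputable def s4056 (R : VR) (i : ℕ) : Bool :=
  K.bor (s4054 R i) (s4055 R i)

theorem e4056 (R : VR) : B (VR.S R) (v4056 R) (s4056 R) :=
  B.or (e4054 R) (e4055 R)

noncomputable def v4057 (R : VR) : ℕ :=
  Nat.lor (Nat.lor (Nat.lor (v1241 R) (Nat.shiftRight (Nat.land (Nat.sub (VR.h1 R) (v3996 R))
    (VR.h1 R)) (nat_lit 15))) (Nat.shiftRight (Nat.land (Nat.sub (VR.h1 R) (Nat.xor (v3996 R)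
    (v1017 R))) (VR.h1 R)) (nat_lit 15))) (VR.twT R)

noncomputable def s4057 (R : VR) (i : ℕ) : Bool :=
  K.bor (s4056 R i) (s1290 R i)

theorem e4057 (R : VR) : B (VR.S R) (v4057 R) (s4057 R) :=
  B.or (e4056 R) (e1290 R)

noncomputable def v4058 (R : VR) : ℕ :=
  Nat.lor (Nat.lor (Nat.lor (Nat.lor (v1241 R) (Nat.shiftRight (Nat.land (Nat.sub (VR.h1 R) (v3996
    R)) (VR.h1 R)) (nat_lit 15))) (Nat.shiftRight (Nat.land (Nat.sub (VR.h1 R) (Nat.xor (v3996 R)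
    (v1017 R))) (VR.h1 R)) (nat_lit 15))) (VR.twT R)) (v4003 R)

noncomputable def s4058 (R : VR) (i : ℕ) : Bool :=
  K.bor (s4057 R i) (s4003 R i)

theorem e4058 (R : VR) : B (VR.S R) (v4058 R) (s4058 R) :=
  B.or (e4057 R) (e4003 R)

noncomputable def v4059 (R : VR) : Bool :=
  Nat.beq (Nat.land (Nat.sub (VR.o1 R) (Nat.lor (Nat.lor (Nat.lor (Nat.lor (v1241 R)
    (Nat.shiftRight (Nat.land (Nat.sub (VR.h1 R) (v3996 R)) (VR.h1 R)) (nat_lit 15)))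
    (Nat.shiftRight (Nat.land (Nat.sub (VR.h1 R) (Nat.xor (v3996 R) (v1017 R))) (VR.h1 R))
    (nat_lit 15))) (VR.twT R)) (v4003 R))) (mM (v112 R))) (nat_lit 0)

noncomputable def s4059 (R : VR) : Bool :=
  K.allN (s112 R) (s4058 R)

theorem e4059 (R : VR) : (v4059 R) = s4059 R :=
  all0 (e4058 R) (VR.n_le R)

noncomputable def s4060 (R : VR) : Bool :=
  K.allN (s112 R) (fun (x175 : ℕ) => (K.bor (K.bor (K.bor (K.bor (K.bnot (FC7.Fc.uk (VR.F R)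
    x175)) (Nat.beq (FC7.Fc.ty (VR.F R) (FC7.OD.pc (FC7.Fc.O (VR.F R)) (FC7.Fc.kp (VR.F R) x175)))
    (nat_lit 0))) (Nat.beq (FC7.Fc.ty (VR.F R) (FC7.OD.pc (FC7.Fc.O (VR.F R)) (FC7.Fc.kp (VR.F R)
    x175))) (nat_lit 3))) (FC7.Fc.tw (VR.F R) x175)) (K.band (FC7.Fc.oz (VR.F R) (FC7.Fc.kr (VR.F
    R) x175)) (Nat.beq (FC7.OD.pc (FC7.Fc.O (VR.F R)) (FC7.Fc.kr (VR.F R) x175)) (FC7.OD.pc
    (FC7.Fc.O (VR.F R)) (FC7.Fc.kp (VR.F R) x175))))))

theorem e4060 (R : VR) : (v4059 R) = s4060 R :=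
  e4059 R

noncomputable def v4061 (R : VR) : Bool :=
  K.band (Nat.beq (Nat.land (Nat.sub (VR.o1 R) (Nat.lor (Nat.lor (Nat.lor (Nat.lor (Nat.lor (v1559
    R) (v4044 R)) (v4046 R)) (VR.opT R)) (VR.twT R)) (VR.ozT R))) (mM (v112 R))) (nat_lit 0))
    (Nat.beq (Nat.land (Nat.sub (VR.o1 R) (Nat.lor (Nat.lor (Nat.lor (Nat.lor (v1241 R)
    (Nat.shiftRight (Nat.land (Nat.sub (VR.h1 R) (v3996 R)) (VR.h1 R)) (nat_lit 15)))
    (Nat.shiftRight (Nat.land (Nat.sub (VR.h1 R) (Nat.xor (v3996 R) (v1017 R))) (VR.h1 R))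
    (nat_lit 15))) (VR.twT R)) (v4003 R))) (mM (v112 R))) (nat_lit 0))

noncomputable def s4061 (R : VR) : Bool :=
  K.band (s4052 R) (s4060 R)

theorem e4061 (R : VR) : (v4061 R) = s4061 R :=
  congrArg₂ K.band (e4052 R) (e4060 R)

noncomputable def s4062 (R : VR) : Bool :=
  K.Fc_chkC (VR.F R)

theorem e4062 (R : VR) : (v4061 R) = s4062 R :=
  e4061 R

noncomputable def v4063 (R : VR) : Bool :=
  K.band (Nat.ble (v4039 R) (v624 R)) (v4061 R)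

noncomputable def s4063 (R : VR) : Bool :=
  K.band (s4043 R) (s4062 R)

theorem e4063 (R : VR) : (v4063 R) = s4063 R :=
  congrArg₂ K.band (e4043 R) (e4062 R)

noncomputable def v4064 (R : VR) : ℕ :=
  (nat_lit 2024)

noncomputable def s4064 (R : VR) : ℕ :=
  (nat_lit 2024)

theorem e4064 (R : VR) : (v4064 R) = s4064 R :=
  rfl

noncomputable def v4065 (R : VR) : ℕ :=
  Nat.lor (v4044 R) (v4046 R)

noncomputable def s4065 (R : VR) (i : ℕ) : Bool :=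
  K.bor (s4044 R i) (s4046 R i)

theorem e4065 (R : VR) : B (VR.S R) (v4065 R) (s4065 R) :=
  B.or (e4044 R) (e4046 R)

noncomputable def v4066 (R : VR) : ℕ :=
  Nat.xor (v511 R) (Nat.land (Nat.xor (v511 R) (VR.upT R)) (Nat.mul (v4065 R) (nat_lit 32767)))

noncomputable def s4066 (R : VR) (i : ℕ) : ℕ :=
  Bool.rec (motive := fun _ => ℕ) (s511 R i) (s1422 R i) (s4065 R i)

theorem e4066 (R : VR) : L (VR.S R) (v4066 R) (s4066 R) 15 :=
  L.sel (e4065 R) (e1422 R) (e511 R) (by decide) (by decide) (by decide)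

noncomputable def v4067 (R : VR) : ℕ :=
  Nat.mod (Nat.land (Nat.xor (v511 R) (Nat.land (Nat.xor (v511 R) (VR.upT R)) (Nat.mul (v4065 R)
    (nat_lit 32767)))) (mM (v112 R))) (nat_lit 65535)

noncomputable def s4067 (R : VR) : ℕ :=
  K.sumN (s112 R) (s4066 R)

theorem e4067 (R : VR) : (v4067 R) = s4067 R :=
  sum1 (e4066 R) (VR.n_le R) (by decide)

theorem b4067 (R : VR) : s4067 R ≤ 1905 :=
  sum1_le (e4066 R) (VR.n_le R) (by decide)

noncomputable def s4068 (R : VR) : ℕ :=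
  K.sumN (s112 R) (fun (x176 : ℕ) => (Bool.rec (motive := fun _ => ℕ) (nat_lit 0) (FC6.Pa.u (VR.P'
    R) x176) (K.bor (Nat.beq (FC7.Fc.ty (VR.F R) (FC7.OD.pc (VR.O R) x176)) (nat_lit 0)) (Nat.beq
    (FC7.Fc.ty (VR.F R) (FC7.OD.pc (VR.O R) x176)) (nat_lit 3)))))

theorem e4068 (R : VR) : (v4067 R) = s4068 R :=
  e4067 R

theorem b4068 (R : VR) : s4068 R ≤ 1905 := (b4067 R)

noncomputable def v4069 (R : VR) : ℕ :=
  Nat.mul (v4064 R) (Nat.mod (Nat.land (Nat.xor (v511 R) (Nat.land (Nat.xor (v511 R) (VR.upT R))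
    (Nat.mul (v4065 R) (nat_lit 32767)))) (mM (v112 R))) (nat_lit 65535))

noncomputable def s4069 (R : VR) : ℕ :=
  Nat.mul (s4064 R) (s4068 R)

theorem e4069 (R : VR) : (v4069 R) = s4069 R :=
  congrArg₂ Nat.mul (e4064 R) (e4068 R)

noncomputable def v4070 (R : VR) : ℕ :=
  (nat_lit 3054)

noncomputable def s4070 (R : VR) : ℕ :=
  (nat_lit 3054)

theorem e4070 (R : VR) : (v4070 R) = s4070 R :=
  rfl

noncomputable def v4071 (R : VR) : ℕ :=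
  Nat.xor (VR.upT R) (Nat.land (Nat.xor (VR.upT R) (v511 R)) (Nat.mul (v4065 R) (nat_lit 32767)))

noncomputable def s4071 (R : VR) (i : ℕ) : ℕ :=
  Bool.rec (motive := fun _ => ℕ) (s1422 R i) (s511 R i) (s4065 R i)

theorem e4071 (R : VR) : L (VR.S R) (v4071 R) (s4071 R) 15 :=
  L.sel (e4065 R) (e511 R) (e1422 R) (by decide) (by decide) (by decide)

noncomputable def v4072 (R : VR) : ℕ :=
  Nat.mod (Nat.land (Nat.xor (VR.upT R) (Nat.land (Nat.xor (VR.upT R) (v511 R)) (Nat.mul (v4065 R)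
    (nat_lit 32767)))) (mM (v112 R))) (nat_lit 65535)

noncomputable def s4072 (R : VR) : ℕ :=
  K.sumN (s112 R) (s4071 R)

theorem e4072 (R : VR) : (v4072 R) = s4072 R :=
  sum1 (e4071 R) (VR.n_le R) (by decide)

theorem b4072 (R : VR) : s4072 R ≤ 1905 :=
  sum1_le (e4071 R) (VR.n_le R) (by decide)

noncomputable def s4073 (R : VR) : ℕ :=
  K.sumN (s112 R) (fun (x177 : ℕ) => (Bool.rec (motive := fun _ => ℕ) (FC6.Pa.u (VR.P' R) x177)
    (nat_lit 0) (K.bor (Nat.beq (FC7.Fc.ty (VR.F R) (FC7.OD.pc (VR.O R) x177)) (nat_lit 0))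
    (Nat.beq (FC7.Fc.ty (VR.F R) (FC7.OD.pc (VR.O R) x177)) (nat_lit 3)))))

theorem e4073 (R : VR) : (v4072 R) = s4073 R :=
  e4072 R

theorem b4073 (R : VR) : s4073 R ≤ 1905 := (b4072 R)

noncomputable def v4074 (R : VR) : ℕ :=
  Nat.mul (v4070 R) (Nat.mod (Nat.land (Nat.xor (VR.upT R) (Nat.land (Nat.xor (VR.upT R) (v511 R))
    (Nat.mul (v4065 R) (nat_lit 32767)))) (mM (v112 R))) (nat_lit 65535))

noncomputable def s4074 (R : VR) : ℕ :=
  Nat.mul (s4070 R) (s4073 R)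

theorem e4074 (R : VR) : (v4074 R) = s4074 R :=
  congrArg₂ Nat.mul (e4070 R) (e4073 R)

noncomputable def v4075 (R : VR) : ℕ :=
  Nat.add (Nat.mul (v4064 R) (Nat.mod (Nat.land (Nat.xor (v511 R) (Nat.land (Nat.xor (v511 R)
    (VR.upT R)) (Nat.mul (v4065 R) (nat_lit 32767)))) (mM (v112 R))) (nat_lit 65535))) (Nat.mul
    (v4070 R) (Nat.mod (Nat.land (Nat.xor (VR.upT R) (Nat.land (Nat.xor (VR.upT R) (v511 R))
    (Nat.mul (v4065 R) (nat_lit 32767)))) (mM (v112 R))) (nat_lit 65535)))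

noncomputable def s4075 (R : VR) : ℕ :=
  Nat.add (s4069 R) (s4074 R)

theorem e4075 (R : VR) : (v4075 R) = s4075 R :=
  congrArg₂ Nat.add (e4069 R) (e4074 R)

noncomputable def v4076 (R : VR) : ℕ :=
  Nat.xor (v267 R) (Nat.land (Nat.xor (v267 R) (v359 R)) (Nat.mul (v1297 R) (nat_lit 32767)))

noncomputable def s4076 (R : VR) (i : ℕ) : ℕ :=
  Bool.rec (motive := fun _ => ℕ) (s267 R i) (s359 R i) (s1298 R i)

theorem e4076 (R : VR) : L (VR.S R) (v4076 R) (s4076 R) 2 :=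
  L.sel (e1298 R) (e359 R) (e267 R) (by decide) (by decide) (by decide)

noncomputable def v4077 (R : VR) : ℕ :=
  Nat.xor (v511 R) (Nat.land (Nat.xor (v511 R) (v4076 R)) (Nat.mul (VR.lbpT R) (nat_lit 32767)))

noncomputable def s4077 (R : VR) (i : ℕ) : ℕ :=
  Bool.rec (motive := fun _ => ℕ) (s511 R i) (s4076 R i) (s3540 R i)

theorem e4077 (R : VR) : L (VR.S R) (v4077 R) (s4077 R) 2 :=
  L.sel (e3540 R) (e4076 R) (e511 R) (by decide) (by decide) (by decide)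

noncomputable def v4078 (R : VR) : ℕ :=
  Nat.mod (Nat.land (Nat.xor (v511 R) (Nat.land (Nat.xor (v511 R) (v4076 R)) (Nat.mul (VR.lbpT R)
    (nat_lit 32767)))) (mM (v112 R))) (nat_lit 65535)

noncomputable def s4078 (R : VR) : ℕ :=
  K.sumN (s112 R) (s4077 R)

theorem e4078 (R : VR) : (v4078 R) = s4078 R :=
  sum1 (e4077 R) (VR.n_le R) (by decide)

theorem b4078 (R : VR) : s4078 R ≤ 254 :=
  sum1_le (e4077 R) (VR.n_le R) (by decide)

noncomputable def s4079 (R : VR) : ℕ :=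
  K.sumN (s112 R) (fun (x178 : ℕ) => (Bool.rec (motive := fun _ => ℕ) (nat_lit 0) (Bool.rec
    (motive := fun _ => ℕ) (nat_lit 1) (nat_lit 2) (K.OD_rg (VR.O R) (VR.P R) x178)) (FC7.OD.lb'
    (VR.O R) x178)))

theorem e4079 (R : VR) : (v4078 R) = s4079 R :=
  e4078 R

theorem b4079 (R : VR) : s4079 R ≤ 254 := (b4078 R)

noncomputable def s4080 (R : VR) : ℕ :=
  K.OD_nlbp (VR.O R) (VR.P R)

theorem e4080 (R : VR) : (v4078 R) = s4080 R :=
  e4079 R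

theorem b4080 (R : VR) : s4080 R ≤ 254 := (b4079 R)

noncomputable def v4081 (R : VR) : ℕ :=
  Nat.mul (v4070 R) (Nat.mod (Nat.land (Nat.xor (v511 R) (Nat.land (Nat.xor (v511 R) (v4076 R))
    (Nat.mul (VR.lbpT R) (nat_lit 32767)))) (mM (v112 R))) (nat_lit 65535))

noncomputable def s4081 (R : VR) : ℕ :=
  Nat.mul (s4070 R) (s4080 R)

theorem e4081 (R : VR) : (v4081 R) = s4081 R :=
  congrArg₂ Nat.mul (e4070 R) (e4080 R)

noncomputable def v4082 (R : VR) : ℕ :=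
  Nat.add (Nat.add (Nat.mul (v4064 R) (Nat.mod (Nat.land (Nat.xor (v511 R) (Nat.land (Nat.xor
    (v511 R) (VR.upT R)) (Nat.mul (v4065 R) (nat_lit 32767)))) (mM (v112 R))) (nat_lit 65535)))
    (Nat.mul (v4070 R) (Nat.mod (Nat.land (Nat.xor (VR.upT R) (Nat.land (Nat.xor (VR.upT R) (v511
    R)) (Nat.mul (v4065 R) (nat_lit 32767)))) (mM (v112 R))) (nat_lit 65535)))) (Nat.mul (v4070 R)
    (Nat.mod (Nat.land (Nat.xor (v511 R) (Nat.land (Nat.xor (v511 R) (v4076 R)) (Nat.mul (VR.lbpT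
    R) (nat_lit 32767)))) (mM (v112 R))) (nat_lit 65535)))

noncomputable def s4082 (R : VR) : ℕ :=
  Nat.add (s4075 R) (s4081 R)

theorem e4082 (R : VR) : (v4082 R) = s4082 R :=
  congrArg₂ Nat.add (e4075 R) (e4081 R)

noncomputable def v4083 (R : VR) : ℕ :=
  (nat_lit 6120)

noncomputable def s4083 (R : VR) : ℕ :=
  (nat_lit 6120)

theorem e4083 (R : VR) : (v4083 R) = s4083 R :=
  rfl

noncomputable def v4084 (R : VR) : ℕ :=
  Nat.shiftRight (Nat.land (Nat.sub (Nat.add (v136 R) (VR.k1 R)) (v4033 R)) (VR.h1 R)) (nat_lit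
    15)

noncomputable def s4084 (R : VR) (i : ℕ) : Bool :=
  Nat.ble (Nat.succ (s4035 R i)) (s136 R i)

theorem e4084 (R : VR) : B (VR.S R) (v4084 R) (s4084 R) :=
  L.blt (VR.h1e R) (VR.k1e R) (e4035 R) (e136 R)

noncomputable def v4085 (R : VR) : ℕ :=
  Nat.land (v3643 R) (Nat.shiftRight (Nat.land (Nat.sub (Nat.add (v136 R) (VR.k1 R)) (v4033 R))
    (VR.h1 R)) (nat_lit 15))

noncomputable def s4085 (R : VR) (i : ℕ) : Bool :=
  K.band (s3643 R i) (s4084 R i)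

theorem e4085 (R : VR) : B (VR.S R) (v4085 R) (s4085 R) :=
  B.and (e3643 R) (e4084 R)

noncomputable def v4086 (R : VR) : ℕ :=
  Nat.xor (v511 R) (Nat.land (Nat.xor (v511 R) (v267 R)) (Nat.mul (Nat.land (v3643 R)
    (Nat.shiftRight (Nat.land (Nat.sub (Nat.add (v136 R) (VR.k1 R)) (v4033 R)) (VR.h1 R)) (nat_lit
    15))) (nat_lit 32767)))

noncomputable def s4086 (R : VR) (i : ℕ) : ℕ :=
  Bool.rec (motive := fun _ => ℕ) (s511 R i) (s267 R i) (s4085 R i)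

theorem e4086 (R : VR) : L (VR.S R) (v4086 R) (s4086 R) 1 :=
  L.sel (e4085 R) (e267 R) (e511 R) (by decide) (by decide) (by decide)

noncomputable def v4087 (R : VR) : ℕ :=
  Nat.mod (Nat.land (Nat.xor (v511 R) (Nat.land (Nat.xor (v511 R) (v267 R)) (Nat.mul (Nat.land
    (v3643 R) (Nat.shiftRight (Nat.land (Nat.sub (Nat.add (v136 R) (VR.k1 R)) (v4033 R)) (VR.h1
    R)) (nat_lit 15))) (nat_lit 32767)))) (mM (v624 R))) (nat_lit 65535)

noncomputable def s4087 (R : VR) : ℕ :=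
  K.sumN (s624 R) (s4086 R)

theorem e4087 (R : VR) : (v4087 R) = s4087 R :=
  sum1 (e4086 R) (VR.x_le R) (by decide)

theorem b4087 (R : VR) : s4087 R ≤ 127 :=
  sum1_le (e4086 R) (VR.x_le R) (by decide)

noncomputable def s4088 (R : VR) : ℕ :=
  K.sumN (s624 R) (fun (x180 : ℕ) => (Bool.rec (motive := fun _ => ℕ) (nat_lit 0) (nat_lit 1)
    (K.band (Nat.ble (FC7.OD.lo (VR.O R)) x180) (Nat.ble (Nat.succ (K.OD_rdp (VR.P R) (VR.P' R)
    x180)) (nat_lit 4)))))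

theorem e4088 (R : VR) : (v4087 R) = s4088 R :=
  e4087 R

theorem b4088 (R : VR) : s4088 R ≤ 127 := (b4087 R)

noncomputable def s4089 (R : VR) : ℕ :=
  K.OD_nsp (VR.O R) (VR.P R) (VR.P' R)

theorem e4089 (R : VR) : (v4087 R) = s4089 R :=
  e4088 R

theorem b4089 (R : VR) : s4089 R ≤ 127 := (b4088 R)

noncomputable def v4090 (R : VR) : ℕ :=
  Nat.mul ((nat_lit 6120)) (Nat.mod (Nat.land (Nat.xor (v511 R) (Nat.land (Nat.xor (v511 R) (v267
    R)) (Nat.mul (Nat.land (v3643 R) (Nat.shiftRight (Nat.land (Nat.sub (Nat.add (v136 R) (VR.k1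
    R)) (v4033 R)) (VR.h1 R)) (nat_lit 15))) (nat_lit 32767)))) (mM (v624 R))) (nat_lit 65535))

noncomputable def s4090 (R : VR) : ℕ :=
  Nat.mul (s4083 R) (s4089 R)

theorem e4090 (R : VR) : (v4090 R) = s4090 R :=
  congrArg₂ Nat.mul (e4083 R) (e4089 R)

noncomputable def v4091 (R : VR) : ℕ :=
  Nat.add (v4082 R) (Nat.mul ((nat_lit 6120)) (Nat.mod (Nat.land (Nat.xor (v511 R) (Nat.land
    (Nat.xor (v511 R) (v267 R)) (Nat.mul (Nat.land (v3643 R) (Nat.shiftRight (Nat.land (Nat.sub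
    (Nat.add (v136 R) (VR.k1 R)) (v4033 R)) (VR.h1 R)) (nat_lit 15))) (nat_lit 32767)))) (mM (v624
    R))) (nat_lit 65535)))

noncomputable def s4091 (R : VR) : ℕ :=
  Nat.add (s4082 R) (s4090 R)

theorem e4091 (R : VR) : (v4091 R) = s4091 R :=
  congrArg₂ Nat.add (e4082 R) (e4090 R)

noncomputable def s4092 (R : VR) : ℕ :=
  V2.cop R

theorem e4092 (R : VR) : (v4091 R) = s4092 R :=
  e4091 R

noncomputable def v4093 (R : VR) : ℕ :=
  Nat.add (v4091 R) (v23 R)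

noncomputable def s4093 (R : VR) : ℕ :=
  Nat.add (s4092 R) (s23 R)

theorem e4093 (R : VR) : (v4093 R) = s4093 R :=
  congrArg₂ Nat.add (e4092 R) (e23 R)

noncomputable def v4094 (R : VR) : ℕ :=
  Nat.xor (v511 R) (Nat.land (Nat.xor (v511 R) (VR.uT R)) (Nat.mul (VR.twT R) (nat_lit 32767)))

noncomputable def s4094 (R : VR) (i : ℕ) : ℕ :=
  Bool.rec (motive := fun _ => ℕ) (s511 R i) (s1009 R i) (s1290 R i)

theorem e4094 (R : VR) : L (VR.S R) (v4094 R) (s4094 R) 15 :=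
  L.sel (e1290 R) (e1009 R) (e511 R) (by decide) (by decide) (by decide)

noncomputable def v4095 (R : VR) : ℕ :=
  Nat.mod (Nat.land (Nat.xor (v511 R) (Nat.land (Nat.xor (v511 R) (VR.uT R)) (Nat.mul (VR.twT R)
    (nat_lit 32767)))) (mM (v112 R))) (nat_lit 65535)

noncomputable def s4095 (R : VR) : ℕ :=
  K.sumN (s112 R) (s4094 R)

theorem e4095 (R : VR) : (v4095 R) = s4095 R :=
  sum1 (e4094 R) (VR.n_le R) (by decide)

theorem b4095 (R : VR) : s4095 R ≤ 1905 :=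
  sum1_le (e4094 R) (VR.n_le R) (by decide)

noncomputable def s4096 (R : VR) : ℕ :=
  K.sumN (s112 R) (fun (x181 : ℕ) => (Bool.rec (motive := fun _ => ℕ) (nat_lit 0) (FC6.Pa.u (VR.P
    R) x181) (FC7.Fc.tw (VR.F R) x181)))

theorem e4096 (R : VR) : (v4095 R) = s4096 R :=
  e4095 R

theorem b4096 (R : VR) : s4096 R ≤ 1905 := (b4095 R)

noncomputable def v4097 (R : VR) : ℕ :=
  Nat.mul (v4070 R) (Nat.mod (Nat.land (Nat.xor (v511 R) (Nat.land (Nat.xor (v511 R) (VR.uT R))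
    (Nat.mul (VR.twT R) (nat_lit 32767)))) (mM (v112 R))) (nat_lit 65535))

noncomputable def s4097 (R : VR) : ℕ :=
  Nat.mul (s4070 R) (s4096 R)

theorem e4097 (R : VR) : (v4097 R) = s4097 R :=
  congrArg₂ Nat.mul (e4070 R) (e4096 R)

noncomputable def v4098 (R : VR) : ℕ :=
  Nat.xor (VR.uT R) (Nat.land (Nat.xor (VR.uT R) (v511 R)) (Nat.mul (VR.twT R) (nat_lit 32767)))

noncomputable def s4098 (R : VR) (i : ℕ) : ℕ :=
  Bool.rec (motive := fun _ => ℕ) (s1009 R i) (s511 R i) (s1290 R i)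

theorem e4098 (R : VR) : L (VR.S R) (v4098 R) (s4098 R) 15 :=
  L.sel (e1290 R) (e511 R) (e1009 R) (by decide) (by decide) (by decide)

noncomputable def v4099 (R : VR) : ℕ :=
  Nat.mod (Nat.land (Nat.xor (VR.uT R) (Nat.land (Nat.xor (VR.uT R) (v511 R)) (Nat.mul (VR.twT R)
    (nat_lit 32767)))) (mM (v112 R))) (nat_lit 65535)

noncomputable def s4099 (R : VR) : ℕ :=
  K.sumN (s112 R) (s4098 R)

theorem e4099 (R : VR) : (v4099 R) = s4099 R :=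
  sum1 (e4098 R) (VR.n_le R) (by decide)

theorem b4099 (R : VR) : s4099 R ≤ 1905 :=
  sum1_le (e4098 R) (VR.n_le R) (by decide)

noncomputable def s4100 (R : VR) : ℕ :=
  K.sumN (s112 R) (fun (x182 : ℕ) => (Bool.rec (motive := fun _ => ℕ) (FC6.Pa.u (VR.P R) x182)
    (nat_lit 0) (FC7.Fc.tw (VR.F R) x182)))

theorem e4100 (R : VR) : (v4099 R) = s4100 R :=
  e4099 R

theorem b4100 (R : VR) : s4100 R ≤ 1905 := (b4099 R)

noncomputable def v4101 (R : VR) : ℕ :=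
  Nat.mul (v4064 R) (Nat.mod (Nat.land (Nat.xor (VR.uT R) (Nat.land (Nat.xor (VR.uT R) (v511 R))
    (Nat.mul (VR.twT R) (nat_lit 32767)))) (mM (v112 R))) (nat_lit 65535))

noncomputable def s4101 (R : VR) : ℕ :=
  Nat.mul (s4064 R) (s4100 R)

theorem e4101 (R : VR) : (v4101 R) = s4101 R :=
  congrArg₂ Nat.mul (e4064 R) (e4100 R)

noncomputable def v4102 (R : VR) : ℕ :=
  Nat.add (Nat.mul (v4070 R) (Nat.mod (Nat.land (Nat.xor (v511 R) (Nat.land (Nat.xor (v511 R)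
    (VR.uT R)) (Nat.mul (VR.twT R) (nat_lit 32767)))) (mM (v112 R))) (nat_lit 65535))) (Nat.mul
    (v4064 R) (Nat.mod (Nat.land (Nat.xor (VR.uT R) (Nat.land (Nat.xor (VR.uT R) (v511 R))
    (Nat.mul (VR.twT R) (nat_lit 32767)))) (mM (v112 R))) (nat_lit 65535)))

noncomputable def s4102 (R : VR) : ℕ :=
  Nat.add (s4097 R) (s4101 R)

theorem e4102 (R : VR) : (v4102 R) = s4102 R :=
  congrArg₂ Nat.add (e4097 R) (e4101 R)

noncomputable def v4103 (R : VR) : ℕ :=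
  Nat.xor (v511 R) (Nat.land (Nat.xor (v511 R) (v4076 R)) (Nat.mul (VR.lbT R) (nat_lit 32767)))

noncomputable def s4103 (R : VR) (i : ℕ) : ℕ :=
  Bool.rec (motive := fun _ => ℕ) (s511 R i) (s4076 R i) (s1126 R i)

theorem e4103 (R : VR) : L (VR.S R) (v4103 R) (s4103 R) 2 :=
  L.sel (e1126 R) (e4076 R) (e511 R) (by decide) (by decide) (by decide)

noncomputable def v4104 (R : VR) : ℕ :=
  Nat.mod (Nat.land (Nat.xor (v511 R) (Nat.land (Nat.xor (v511 R) (v4076 R)) (Nat.mul (VR.lbT R)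
    (nat_lit 32767)))) (mM (v112 R))) (nat_lit 65535)

noncomputable def s4104 (R : VR) : ℕ :=
  K.sumN (s112 R) (s4103 R)

theorem e4104 (R : VR) : (v4104 R) = s4104 R :=
  sum1 (e4103 R) (VR.n_le R) (by decide)

theorem b4104 (R : VR) : s4104 R ≤ 254 :=
  sum1_le (e4103 R) (VR.n_le R) (by decide)

noncomputable def s4105 (R : VR) : ℕ :=
  K.sumN (s112 R) (fun (x183 : ℕ) => (Bool.rec (motive := fun _ => ℕ) (nat_lit 0) (Bool.rec
    (motive := fun _ => ℕ) (nat_lit 1) (nat_lit 2) (K.OD_rg (VR.O R) (VR.P R) x183)) (FC7.OD.lb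
    (VR.O R) x183)))

theorem e4105 (R : VR) : (v4104 R) = s4105 R :=
  e4104 R

theorem b4105 (R : VR) : s4105 R ≤ 254 := (b4104 R)

noncomputable def s4106 (R : VR) : ℕ :=
  K.OD_nlb (VR.O R) (VR.P R)

theorem e4106 (R : VR) : (v4104 R) = s4106 R :=
  e4105 R

theorem b4106 (R : VR) : s4106 R ≤ 254 := (b4105 R)

noncomputable def v4107 (R : VR) : ℕ :=
  Nat.mul (v4070 R) (Nat.mod (Nat.land (Nat.xor (v511 R) (Nat.land (Nat.xor (v511 R) (v4076 R))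
    (Nat.mul (VR.lbT R) (nat_lit 32767)))) (mM (v112 R))) (nat_lit 65535))

noncomputable def s4107 (R : VR) : ℕ :=
  Nat.mul (s4070 R) (s4106 R)

theorem e4107 (R : VR) : (v4107 R) = s4107 R :=
  congrArg₂ Nat.mul (e4070 R) (e4106 R)

noncomputable def v4108 (R : VR) : ℕ :=
  Nat.add (Nat.add (Nat.mul (v4070 R) (Nat.mod (Nat.land (Nat.xor (v511 R) (Nat.land (Nat.xor
    (v511 R) (VR.uT R)) (Nat.mul (VR.twT R) (nat_lit 32767)))) (mM (v112 R))) (nat_lit 65535)))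
    (Nat.mul (v4064 R) (Nat.mod (Nat.land (Nat.xor (VR.uT R) (Nat.land (Nat.xor (VR.uT R) (v511
    R)) (Nat.mul (VR.twT R) (nat_lit 32767)))) (mM (v112 R))) (nat_lit 65535)))) (Nat.mul (v4070
    R) (Nat.mod (Nat.land (Nat.xor (v511 R) (Nat.land (Nat.xor (v511 R) (v4076 R)) (Nat.mul
    (VR.lbT R) (nat_lit 32767)))) (mM (v112 R))) (nat_lit 65535)))

noncomputable def s4108 (R : VR) : ℕ :=
  Nat.add (s4102 R) (s4107 R)

theorem e4108 (R : VR) : (v4108 R) = s4108 R :=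
  congrArg₂ Nat.add (e4102 R) (e4107 R)

noncomputable def s4109 (R : VR) : ℕ :=
  V2.co R

theorem e4109 (R : VR) : (v4108 R) = s4109 R :=
  e4108 R

noncomputable def v4110 (R : VR) : Bool :=
  Nat.ble (Nat.succ (Nat.add (v4091 R) (v23 R))) (v4108 R)

noncomputable def s4110 (R : VR) : Bool :=
  Nat.ble (Nat.succ (s4093 R)) (s4109 R)

theorem e4110 (R : VR) : (v4110 R) = s4110 R :=
  congrArg₂ Nat.ble (congrArg Nat.succ (e4093 R)) (e4109 R)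

noncomputable def v4111 (R : VR) : Bool :=
  K.band (v4063 R) (Nat.ble (Nat.succ (Nat.add (v4091 R) (v23 R))) (v4108 R))

noncomputable def s4111 (R : VR) : Bool :=
  K.band (s4063 R) (s4110 R)

theorem e4111 (R : VR) : (v4111 R) = s4111 R :=
  congrArg₂ K.band (e4063 R) (e4110 R)

noncomputable def v4112 (R : VR) : Bool :=
  K.bor (Nat.ble (Nat.succ (v4039 R)) (v624 R)) (K.band (v4063 R) (Nat.ble (Nat.succ (Nat.add
    (v4091 R) (v23 R))) (v4108 R)))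

noncomputable def s4112 (R : VR) : Bool :=
  K.bor (s4042 R) (s4111 R)

theorem e4112 (R : VR) : (v4112 R) = s4112 R :=
  congrArg₂ K.bor (e4042 R) (e4111 R)

noncomputable def s4113 (R : VR) : Bool :=
  V2.chkM R

theorem e4113 (R : VR) : (v4112 R) = s4113 R :=
  e4112 R

noncomputable def c_chkM (R : VR) : Bool :=
  (K.bor (Nat.ble (Nat.succ (v4039 R)) (v624 R)) (K.band (v4063 R) (Nat.ble (Nat.succ (Nat.add
    (v4091 R) (v23 R))) (v4108 R))))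

theorem c_chkM_eq (R : VR) : c_chkM R = (V2.chkM R) :=
  e4113 R

noncomputable def v4114 (R : VR) : Bool :=
  Nat.ble (v4091 R) (v4108 R)

noncomputable def s4114 (R : VR) : Bool :=
  Nat.ble (s4092 R) (s4109 R)

theorem e4114 (R : VR) : (v4114 R) = s4114 R :=
  congrArg₂ Nat.ble (e4092 R) (e4109 R)

noncomputable def v4115 (R : VR) : Bool :=
  K.band (v4063 R) (Nat.ble (v4091 R) (v4108 R))

noncomputable def s4115 (R : VR) : Bool :=
  K.band (s4063 R) (s4114 R)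

theorem e4115 (R : VR) : (v4115 R) = s4115 R :=
  congrArg₂ K.band (e4063 R) (e4114 R)

noncomputable def v4116 (R : VR) : ℕ :=
  Nat.mod (Nat.land (v3576 R) (mM (v112 R))) (nat_lit 65535)

noncomputable def s4116 (R : VR) : ℕ :=
  K.sumN (s112 R) (s3576 R)

theorem e4116 (R : VR) : (v4116 R) = s4116 R :=
  sum1 (e3576 R) (VR.n_le R) (by decide)

theorem b4116 (R : VR) : s4116 R ≤ 127 :=
  sum1_le (e3576 R) (VR.n_le R) (by decide)

noncomputable def s4117 (R : VR) : ℕ :=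
  K.sumN (s112 R) (fun (x197 : ℕ) => (Bool.rec (motive := fun _ => ℕ) (nat_lit 0) (nat_lit 1)
    (FC6.Pa.real (VR.P' R) x197)))

theorem e4117 (R : VR) : (v4116 R) = s4117 R :=
  e4116 R

theorem b4117 (R : VR) : s4117 R ≤ 127 := (b4116 R)

noncomputable def v4118 (R : VR) : Bool :=
  Nat.ble (Nat.succ (v4023 R)) (Nat.mod (Nat.land (v3576 R) (mM (v112 R))) (nat_lit 65535))

noncomputable def s4118 (R : VR) : Bool :=
  Nat.ble (Nat.succ (s4024 R)) (s4117 R)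

theorem e4118 (R : VR) : (v4118 R) = s4118 R :=
  congrArg₂ Nat.ble (congrArg Nat.succ (e4024 R)) (e4117 R)

noncomputable def v4119 (R : VR) : Bool :=
  K.band (K.band (v4063 R) (Nat.ble (v4091 R) (v4108 R))) (Nat.ble (Nat.succ (v4023 R)) (Nat.mod
    (Nat.land (v3576 R) (mM (v112 R))) (nat_lit 65535)))

noncomputable def s4119 (R : VR) : Bool :=
  K.band (s4115 R) (s4118 R)

theorem e4119 (R : VR) : (v4119 R) = s4119 R :=
  congrArg₂ K.band (e4115 R) (e4118 R)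

noncomputable def s4120 (R : VR) : Bool :=
  V2.chkN R

theorem e4120 (R : VR) : (v4119 R) = s4120 R :=
  e4119 R

noncomputable def c_chkN (R : VR) : Bool :=
  (K.band (K.band (v4063 R) (Nat.ble (v4091 R) (v4108 R))) (Nat.ble (Nat.succ (v4023 R)) (Nat.mod
    (Nat.land (v3576 R) (mM (v112 R))) (nat_lit 65535))))

theorem c_chkN_eq (R : VR) : c_chkN R = (V2.chkN R) :=
  e4120 R

end Vs

end Pool.FC7
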