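import Pool.Agent.FC7.VtI
import Pool.Agent.FC7.VsK

/-! # Vector form of the static checks: generated file (vgen.py) -/

open Finset

set_option linter.all false

namespace Pool.FC7

open Pool.FC6

namespace Vs

noncomputable def s4121 (R : VR) : ℕ :=
  K.WR_m (VR.WR R)

theorem e4121 (R : VR) : (v868 R) = s4121 R :=
  e868 R

theorem b4121 (R : VR) : s4121 R ≤ 30 := (b868 R)

noncomputable def v4122 (R : VR) : ℕ :=
  Nat.mul (VR.o1 R) (v868 R)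

noncomputable def s4122 (R : VR) (i : ℕ) : ℕ :=
  (s4121 R)

theorem e4122 (R : VR) : L (VR.S R) (v4122 R) (s4122 R) 30 :=
  L.scl (VR.o1e R) (e4121 R) (b4121 R) (by decide)

noncomputable def v4123 (R : VR) : ℕ :=
  Nat.shiftRight (Nat.land (Nat.sub (Nat.add (v4122 R) (VR.k1 R)) (VR.iota R)) (VR.h1 R)) (nat_lit
    15)

noncomputable def s4123 (R : VR) (i : ℕ) : Bool :=
  Nat.ble (Nat.succ (s0 R i)) (s4122 R i)

theorem e4123 (R : VR) : B (VR.S R) (v4123 R) (s4123 R) :=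
  L.blt (VR.h1e R) (VR.k1e R) (e0 R) (e4122 R)

noncomputable def s4124 (R : VR) (i : ℕ) : ℕ :=
  K.WR_hl (VR.WR R) (s871 R i)

theorem e4124 (R : VR) : L (VR.S R) (v890 R) (s4124 R) 29 :=
  e890 R

noncomputable def v4125 (R : VR) : ℕ :=
  Nat.shiftRight (Nat.land (Nat.sub (VR.h1 R) (Nat.xor (v890 R) (VR.iota R))) (VR.h1 R)) (nat_lit
    15)

noncomputable def s4125 (R : VR) (i : ℕ) : Bool :=
  Nat.beq (s4124 R i) (s0 R i)

theorem e4125 (R : VR) : B (VR.S R) (v4125 R) (s4125 R) :=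
  L.beq (VR.h1e R) (e4124 R) (e0 R)

noncomputable def v4126 (R : VR) : ℕ :=
  Nat.land (v886 R) (Nat.shiftRight (Nat.land (Nat.sub (VR.h1 R) (Nat.xor (v890 R) (VR.iota R)))
    (VR.h1 R)) (nat_lit 15))

noncomputable def s4126 (R : VR) (i : ℕ) : Bool :=
  K.band (s886 R i) (s4125 R i)

theorem e4126 (R : VR) : B (VR.S R) (v4126 R) (s4126 R) :=
  B.and (e886 R) (e4125 R)

noncomputable def v4127 (R : VR) : ℕ :=
  Nat.xor (v4126 R) (Nat.land (Nat.xor (v4126 R) (v879 R)) (Nat.shiftRight (Nat.land (Nat.sub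
    (Nat.add (v4122 R) (VR.k1 R)) (VR.iota R)) (VR.h1 R)) (nat_lit 15)))

noncomputable def s4127 (R : VR) (i : ℕ) : Bool :=
  Bool.rec (motive := fun _ => Bool) (s4126 R i) (s879 R i) (s4123 R i)

theorem e4127 (R : VR) : B (VR.S R) (v4127 R) (s4127 R) :=
  B.sel (e4123 R) (e879 R) (e4126 R)

noncomputable def v4128 (R : VR) : Bool :=
  Nat.beq (Nat.land (Nat.sub (VR.o1 R) (Nat.xor (v4126 R) (Nat.land (Nat.xor (v4126 R) (v879 R))
    (Nat.shiftRight (Nat.land (Nat.sub (Nat.add (v4122 R) (VR.k1 R)) (VR.iota R)) (VR.h1 R))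
    (nat_lit 15))))) (mM (v866 R))) (nat_lit 0)

noncomputable def s4128 (R : VR) : Bool :=
  K.allN (s866 R) (s4127 R)

theorem e4128 (R : VR) : (v4128 R) = s4128 R :=
  all0 (e4127 R) (VR.nl_le R)

noncomputable def s4129 (R : VR) : Bool :=
  K.allN (s866 R) (fun (x201 : ℕ) => (Bool.rec (motive := fun _ => Bool) (K.band (K.band (K.band
    (Nat.ble (Nat.succ (FC7.WR.rd (VR.WR R) x201)) (FC6.Sp.ns (VR.Q R))) (K.bnot (FC6.Sp.rl (VR.Q
    R) (FC7.WR.rd (VR.WR R) x201)))) (FC7.Wt.ac (FC7.WR.toWt (VR.WR R)) (FC6.Stars.ca (VR.Z R)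
    (FC7.WR.rd (VR.WR R) x201)))) (Nat.beq (K.WR_hl (VR.WR R) (FC7.WR.rd (VR.WR R) x201)) x201))
    (K.band (K.band (Nat.ble (Nat.succ (FC7.WR.rd (VR.WR R) x201)) (FC6.Pa.n (VR.P R))) (Nat.beq
    (FC6.Pa.l (VR.P R) (FC7.WR.rd (VR.WR R) x201)) x201)) (FC6.Pa.real (VR.P R) (FC7.WR.rd (VR.WR
    R) x201))) (Nat.ble (Nat.succ x201) (K.WR_m (VR.WR R)))))

theorem e4129 (R : VR) : (v4128 R) = s4129 R :=
  e4128 R

noncomputable def v4130 (R : VR) : Bool :=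
  K.band (v865 R) (Nat.beq (Nat.land (Nat.sub (VR.o1 R) (Nat.xor (v4126 R) (Nat.land (Nat.xor
    (v4126 R) (v879 R)) (Nat.shiftRight (Nat.land (Nat.sub (Nat.add (v4122 R) (VR.k1 R)) (VR.iota
    R)) (VR.h1 R)) (nat_lit 15))))) (mM (v866 R))) (nat_lit 0))

noncomputable def s4130 (R : VR) : Bool :=
  K.band (s865 R) (s4129 R)

theorem e4130 (R : VR) : (v4130 R) = s4130 R :=
  congrArg₂ K.band (e865 R) (e4129 R)

noncomputable def v4131 (R : VR) : Bool :=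
  Nat.ble (v868 R) (v866 R)

noncomputable def s4131 (R : VR) : Bool :=
  Nat.ble (s4121 R) (s866 R)

theorem e4131 (R : VR) : (v4131 R) = s4131 R :=
  congrArg₂ Nat.ble (e4121 R) (e866 R)

noncomputable def v4132 (R : VR) : Bool :=
  K.band (K.band (v865 R) (Nat.beq (Nat.land (Nat.sub (VR.o1 R) (Nat.xor (v4126 R) (Nat.land
    (Nat.xor (v4126 R) (v879 R)) (Nat.shiftRight (Nat.land (Nat.sub (Nat.add (v4122 R) (VR.k1 R))
    (VR.iota R)) (VR.h1 R)) (nat_lit 15))))) (mM (v866 R))) (nat_lit 0))) (Nat.ble (v868 R) (v866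
    R))

noncomputable def s4132 (R : VR) : Bool :=
  K.band (s4130 R) (s4131 R)

theorem e4132 (R : VR) : (v4132 R) = s4132 R :=
  congrArg₂ K.band (e4130 R) (e4131 R)

noncomputable def v4133 (R : VR) : Bool :=
  K.band (K.band (K.band (v865 R) (Nat.beq (Nat.land (Nat.sub (VR.o1 R) (Nat.xor (v4126 R)
    (Nat.land (Nat.xor (v4126 R) (v879 R)) (Nat.shiftRight (Nat.land (Nat.sub (Nat.add (v4122 R)
    (VR.k1 R)) (VR.iota R)) (VR.h1 R)) (nat_lit 15))))) (mM (v866 R))) (nat_lit 0))) (Nat.ble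
    (v868 R) (v866 R))) (v198 R)

noncomputable def s4133 (R : VR) : Bool :=
  K.band (s4132 R) (s200 R)

theorem e4133 (R : VR) : (v4133 R) = s4133 R :=
  congrArg₂ K.band (e4132 R) (e200 R)

noncomputable def s4134 (R : VR) : Bool :=
  K.lall (FC7.WR.dq (VR.WR R)) (fun (x203 : ℕ × ℕ) => (K.band (Nat.ble (Nat.succ (Prod.fst x203))
    (FC6.Sp.ns (VR.Q R))) (Nat.ble (Nat.succ (Prod.snd x203)) (FC6.Sp.ns (VR.Q R)))))

theorem e4134 (R : VR) : (v903 R) = s4134 R :=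
  (e903 R).trans (lall_lst2 (VR.kdq R) (VR.dq1T R) (VR.dq2T R) (fun (x204 : ℕ × ℕ) => (K.band
    (Nat.ble (Nat.succ (Prod.fst x204)) (FC6.Sp.ns (VR.Q R))) (Nat.ble (Nat.succ (Prod.snd x204))
    (FC6.Sp.ns (VR.Q R)))))).symm

noncomputable def v4135 (R : VR) : Bool :=
  K.band (K.band (K.band (K.band (v865 R) (Nat.beq (Nat.land (Nat.sub (VR.o1 R) (Nat.xor (v4126 R)
    (Nat.land (Nat.xor (v4126 R) (v879 R)) (Nat.shiftRight (Nat.land (Nat.sub (Nat.add (v4122 R)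
    (VR.k1 R)) (VR.iota R)) (VR.h1 R)) (nat_lit 15))))) (mM (v866 R))) (nat_lit 0))) (Nat.ble
    (v868 R) (v866 R))) (v198 R)) (v903 R)

noncomputable def s4135 (R : VR) : Bool :=
  K.band (s4133 R) (s4134 R)

theorem e4135 (R : VR) : (v4135 R) = s4135 R :=
  congrArg₂ K.band (e4133 R) (e4134 R)

noncomputable def v4136 (R : VR) : Bool :=
  Nat.beq (Nat.land (Nat.sub (VR.o1 R) (v3742 R)) (mM (v112 R))) (nat_lit 0)

noncomputable def s4136 (R : VR) : Bool :=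
  K.allN (s112 R) (s3742 R)

theorem e4136 (R : VR) : (v4136 R) = s4136 R :=
  all0 (e3742 R) (VR.n_le R)

noncomputable def s4137 (R : VR) : Bool :=
  K.allN (s112 R) (fun (x205 : ℕ) => (Nat.ble (Nat.succ (FC6.Pa.l (VR.P R) x205)) (FC7.Fr.nl
    (VR.Fr R))))

theorem e4137 (R : VR) : (v4136 R) = s4137 R :=
  e4136 R

noncomputable def v4138 (R : VR) : Bool :=
  K.band (K.band (K.band (K.band (K.band (v865 R) (Nat.beq (Nat.land (Nat.sub (VR.o1 R) (Nat.xor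
    (v4126 R) (Nat.land (Nat.xor (v4126 R) (v879 R)) (Nat.shiftRight (Nat.land (Nat.sub (Nat.add
    (v4122 R) (VR.k1 R)) (VR.iota R)) (VR.h1 R)) (nat_lit 15))))) (mM (v866 R))) (nat_lit 0)))
    (Nat.ble (v868 R) (v866 R))) (v198 R)) (v903 R)) (v4136 R)

noncomputable def s4138 (R : VR) : Bool :=
  K.band (s4135 R) (s4137 R)

theorem e4138 (R : VR) : (v4138 R) = s4138 R :=
  congrArg₂ K.band (e4135 R) (e4137 R)

noncomputable def s4139 (R : VR) (j i : ℕ) : Bool :=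
  K.WR_dis (VR.WR R) i j

theorem e4139 (R : VR) : B2 R (v961 R) (s4139 R) :=
  B.of_eq (e962 R) (fun t ht => V2.disr_eq R (t % VR.S R) (t / VR.S R))

noncomputable def v4140 (R : VR) : ℕ :=
  Nat.lor (v936 R) (v961 R)

noncomputable def s4140 (R : VR) (j i : ℕ) : Bool :=
  K.bor (s936 R j i) (s4139 R j i)

theorem e4140 (R : VR) : B2 R (v4140 R) (s4140 R) :=
  B.or (e936 R) (e4139 R)

noncomputable def v4141 (R : VR) : ℕ :=
  Nat.shiftRight (Nat.land (Nat.sub (VR.h1 R) (Nat.mod (Nat.land (Nat.sub (VR.o2 R) (Nat.lor (v936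
    R) (v961 R))) (mM (Nat.mul (v868 R) (VR.S R)))) (VR.m1 R))) (VR.h1 R)) (nat_lit 15)

noncomputable def s4141 (R : VR) (i : ℕ) : Bool :=
  K.allN (s4121 R) (fun j => (s4140 R j i))

theorem e4141 (R : VR) : B (VR.S R) (v4141 R) (s4141 R) :=
  B.all (e4140 R) (VR.leN R (b4121 R) (by decide))

noncomputable def s4142 (R : VR) (i : ℕ) : Bool :=
  K.allN (s4121 R) (fun (x206 : ℕ) => (K.bor (K.bnot (V2.ne R i x206)) (K.WR_dis (VR.WR R) i
    x206)))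

theorem e4142 (R : VR) : B (VR.S R) (v4141 R) (s4142 R) :=
  e4141 R

noncomputable def v4143 (R : VR) : Bool :=
  Nat.beq (Nat.land (Nat.sub (VR.o1 R) (Nat.shiftRight (Nat.land (Nat.sub (VR.h1 R) (Nat.mod
    (Nat.land (Nat.sub (VR.o2 R) (Nat.lor (v936 R) (v961 R))) (mM (Nat.mul (v868 R) (VR.S R))))
    (VR.m1 R))) (VR.h1 R)) (nat_lit 15))) (mM (v868 R))) (nat_lit 0)

noncomputable def s4143 (R : VR) : Bool :=
  K.allN (s4121 R) (s4142 R)

theorem e4143 (R : VR) : (v4143 R) = s4143 R :=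
  all0 (e4142 R) (VR.leN R (b4121 R) (by decide))

noncomputable def s4144 (R : VR) : Bool :=
  K.allN (s4121 R) (fun (x207 : ℕ) => (K.allN (K.WR_m (VR.WR R)) (fun (x208 : ℕ) => (K.bor (K.bnot
    (V2.ne R x207 x208)) (K.WR_dis (VR.WR R) x207 x208)))))

theorem e4144 (R : VR) : (v4143 R) = s4144 R :=
  e4143 R

noncomputable def v4145 (R : VR) : Bool :=
  K.band (K.band (K.band (K.band (K.band (K.band (v865 R) (Nat.beq (Nat.land (Nat.sub (VR.o1 R)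
    (Nat.xor (v4126 R) (Nat.land (Nat.xor (v4126 R) (v879 R)) (Nat.shiftRight (Nat.land (Nat.sub
    (Nat.add (v4122 R) (VR.k1 R)) (VR.iota R)) (VR.h1 R)) (nat_lit 15))))) (mM (v866 R))) (nat_lit
    0))) (Nat.ble (v868 R) (v866 R))) (v198 R)) (v903 R)) (v4136 R)) (Nat.beq (Nat.land (Nat.sub
    (VR.o1 R) (Nat.shiftRight (Nat.land (Nat.sub (VR.h1 R) (Nat.mod (Nat.land (Nat.sub (VR.o2 R)
    (Nat.lor (v936 R) (v961 R))) (mM (Nat.mul (v868 R) (VR.S R)))) (VR.m1 R))) (VR.h1 R)) (nat_lit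
    15))) (mM (v868 R))) (nat_lit 0))

noncomputable def s4145 (R : VR) : Bool :=
  K.band (s4138 R) (s4144 R)

theorem e4145 (R : VR) : (v4145 R) = s4145 R :=
  congrArg₂ K.band (e4138 R) (e4144 R)

noncomputable def s4146 (R : VR) : Bool :=
  V2.rA R

theorem e4146 (R : VR) : (v4145 R) = s4146 R :=
  e4145 R

noncomputable def c_rA (R : VR) : Bool :=
  (v4145 R)

theorem c_rA_eq (R : VR) : c_rA R = (V2.rA R) :=
  e4146 R

noncomputable def s4147 (R : VR) (i : ℕ) : Bool :=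
  K.Wt_lun (FC7.WR.toWt (VR.WR R)) (s244 R i) (s247 R i)

theorem e4147 (R : VR) : B (VR.S R) (v1219 R) (s4147 R) :=
  e1219 R

noncomputable def v4148 (R : VR) : ℕ :=
  Nat.sub (VR.o1 R) (v1219 R)

noncomputable def s4148 (R : VR) (i : ℕ) : Bool :=
  K.bnot (s4147 R i)

theorem e4148 (R : VR) : B (VR.S R) (v4148 R) (s4148 R) :=
  B.not (VR.o1e R) (e4147 R)

noncomputable def s4149 (R : VR) (i : ℕ) : Bool :=
  K.Wt_lb (FC7.WR.toWt (VR.WR R)) (s244 R i) (s247 R i)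

theorem e4149 (R : VR) : B (VR.S R) (v1231 R) (s4149 R) :=
  e1231 R

noncomputable def v4150 (R : VR) : ℕ :=
  Nat.sub (VR.o1 R) (Nat.xor (VR.lbT R) (v1231 R))

noncomputable def s4150 (R : VR) (i : ℕ) : Bool :=
  K.beqB (s1126 R i) (s4149 R i)

theorem e4150 (R : VR) : B (VR.S R) (v4150 R) (s4150 R) :=
  B.beqB (VR.o1e R) (e1126 R) (e4149 R)

noncomputable def v4151 (R : VR) : ℕ :=
  Nat.land (Nat.sub (VR.o1 R) (v1219 R)) (Nat.sub (VR.o1 R) (Nat.xor (VR.lbT R) (v1231 R)))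

noncomputable def s4151 (R : VR) (i : ℕ) : Bool :=
  K.band (s4148 R i) (s4150 R i)

theorem e4151 (R : VR) : B (VR.S R) (v4151 R) (s4151 R) :=
  B.and (e4148 R) (e4150 R)

noncomputable def v4152 (R : VR) : ℕ :=
  Nat.lor (VR.luT R) (Nat.land (Nat.sub (VR.o1 R) (v1219 R)) (Nat.sub (VR.o1 R) (Nat.xor (VR.lbT
    R) (v1231 R))))

noncomputable def s4152 (R : VR) (i : ℕ) : Bool :=
  K.bor (s1125 R i) (s4151 R i)

theorem e4152 (R : VR) : B (VR.S R) (v4152 R) (s4152 R) :=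
  B.or (e1125 R) (e4151 R)

noncomputable def s4153 (R : VR) (i : ℕ) : Bool :=
  K.Wt_clk (FC7.WR.toWt (VR.WR R)) (s247 R i)

theorem e4153 (R : VR) : B (VR.S R) (v1051 R) (s4153 R) :=
  e1051 R

noncomputable def v4154 (R : VR) : ℕ :=
  Nat.land (v1051 R) (v1054 R)

noncomputable def s4154 (R : VR) (i : ℕ) : Bool :=
  K.band (s4153 R i) (s1054 R i)

theorem e4154 (R : VR) : B (VR.S R) (v4154 R) (s4154 R) :=
  B.and (e4153 R) (e1054 R)

noncomputable def v4155 (R : VR) : ℕ :=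
  Nat.lor (v1018 R) (Nat.land (v1051 R) (v1054 R))

noncomputable def s4155 (R : VR) (i : ℕ) : Bool :=
  K.bor (s1018 R i) (s4154 R i)

theorem e4155 (R : VR) : B (VR.S R) (v4155 R) (s4155 R) :=
  B.or (e1018 R) (e4154 R)

noncomputable def v4156 (R : VR) : ℕ :=
  Nat.xor (v4155 R) (Nat.land (Nat.xor (v4155 R) (v1024 R)) (v1012 R))

noncomputable def s4156 (R : VR) (i : ℕ) : Bool :=
  Bool.rec (motive := fun _ => Bool) (s4155 R i) (s1024 R i) (s1012 R i)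

theorem e4156 (R : VR) : B (VR.S R) (v4156 R) (s4156 R) :=
  B.sel (e1012 R) (e1024 R) (e4155 R)

noncomputable def v4157 (R : VR) : ℕ :=
  Nat.lor (v1011 R) (Nat.xor (v4155 R) (Nat.land (Nat.xor (v4155 R) (v1024 R)) (v1012 R)))

noncomputable def s4157 (R : VR) (i : ℕ) : Bool :=
  K.bor (s1011 R i) (s4156 R i)

theorem e4157 (R : VR) : B (VR.S R) (v4157 R) (s4157 R) :=
  B.or (e1011 R) (e4156 R)

noncomputable def v4158 (R : VR) : ℕ :=
  Nat.xor (v1072 R) (Nat.land (Nat.xor (v1072 R) (Nat.lor (v1011 R) (Nat.xor (v4155 R) (Nat.land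
    (Nat.xor (v4155 R) (v1024 R)) (v1012 R))))) (v417 R))

noncomputable def s4158 (R : VR) (i : ℕ) : Bool :=
  Bool.rec (motive := fun _ => Bool) (s1072 R i) (s4157 R i) (s417 R i)

theorem e4158 (R : VR) : B (VR.S R) (v4158 R) (s4158 R) :=
  B.sel (e417 R) (e4157 R) (e1072 R)

noncomputable def s4159 (R : VR) (i : ℕ) : Bool :=
  K.Wt_kn (FC7.WR.toWt (VR.WR R)) (s244 R i) (s247 R i)

theorem e4159 (R : VR) : B (VR.S R) (v4158 R) (s4159 R) :=
  e4158 R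

noncomputable def s4160 (R : VR) (i : ℕ) : ℕ :=
  K.Wt_prv (FC7.WR.toWt (VR.WR R)) (s247 R i)

theorem e4160 (R : VR) : L (VR.S R) (v1076 R) (s4160 R) 255 :=
  e1076 R

noncomputable def v4161 (R : VR) : ℕ :=
  gmk (VR.h2 R) (VR.J R) (Nat.mul (v1076 R) (VR.cr1 R))

noncomputable def v4162 (R : VR) : ℕ :=
  Nat.mod (Nat.land (gmk (VR.h2 R) (VR.J R) (Nat.mul (v1076 R) (VR.cr1 R))) (v1013 R)) (VR.m1 R)

noncomputable def s4162 (R : VR) (i : ℕ) : ℕ :=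
  tx (VR.ltT R) (s4160 R i)

theorem e4162 (R : VR) : L (VR.S R) (v4162 R) (s4162 R) 32767 :=
  L.gat (e4160 R) (VR.lt_is R) (VR.lt_lt R) (VR.lt_le R)

noncomputable def v4163 (R : VR) : ℕ :=
  Nat.land (v4162 R) (Nat.mul (VR.o1 R) (nat_lit 3))

noncomputable def s4163 (R : VR) (i : ℕ) : ℕ :=
  Nat.mod (s4162 R i) (nat_lit 4)

theorem e4163 (R : VR) : L (VR.S R) (v4163 R) (s4163 R) 3 :=
  L.fld0 (VR.o1e R) (e4162 R) 2 (by decide)

noncomputable def s4164 (R : VR) (i : ℕ) : ℕ :=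
  K.wa (s4162 R i)

theorem e4164 (R : VR) : L (VR.S R) (v4163 R) (s4164 R) 3 :=
  e4163 R

noncomputable def v4165 (R : VR) : ℕ :=
  Nat.xor (v511 R) (Nat.land (Nat.xor (v511 R) (Nat.land (v4162 R) (Nat.mul (VR.o1 R) (nat_lit
    3)))) (Nat.mul (v437 R) (nat_lit 32767)))

noncomputable def s4165 (R : VR) (i : ℕ) : ℕ :=
  Bool.rec (motive := fun _ => ℕ) (s511 R i) (s4164 R i) (s437 R i)

theorem e4165 (R : VR) : L (VR.S R) (v4165 R) (s4165 R) 3 :=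
  L.sel (e437 R) (e4164 R) (e511 R) (by decide) (by decide) (by decide)

noncomputable def v4166 (R : VR) : ℕ :=
  Nat.land (v1051 R) (v1084 R)

noncomputable def s4166 (R : VR) (i : ℕ) : Bool :=
  K.band (s4153 R i) (s1084 R i)

theorem e4166 (R : VR) : B (VR.S R) (v4166 R) (s4166 R) :=
  B.and (e4153 R) (e1084 R)

noncomputable def s4167 (R : VR) (i : ℕ) : ℕ :=
  K.Wt_cwa (FC7.WR.toWt (VR.WR R)) (s1027 R i)

theorem e4167 (R : VR) : L (VR.S R) (v1095 R) (s4167 R) 3 :=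
  e1096 R

noncomputable def s4168 (R : VR) (i : ℕ) : ℕ :=
  K.Wt_cwa (FC7.WR.toWt (VR.WR R)) (s1040 R i)

theorem e4168 (R : VR) : L (VR.S R) (v1102 R) (s4168 R) 3 :=
  e1103 R

noncomputable def v4169 (R : VR) : ℕ :=
  Nat.add (v1095 R) (v1102 R)

noncomputable def s4169 (R : VR) (i : ℕ) : ℕ :=
  Nat.add (s4167 R i) (s4168 R i)

theorem e4169 (R : VR) : L (VR.S R) (v4169 R) (s4169 R) 6 :=
  L.add (e4167 R) (e4168 R) (by decide)

noncomputable def s4170 (R : VR) (i : ℕ) : ℕ :=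
  K.Wt_cwa (FC7.WR.toWt (VR.WR R)) (s1046 R i)

theorem e4170 (R : VR) : L (VR.S R) (v1110 R) (s4170 R) 3 :=
  e1111 R

noncomputable def v4171 (R : VR) : ℕ :=
  Nat.add (Nat.add (v1095 R) (v1102 R)) (v1110 R)

noncomputable def s4171 (R : VR) (i : ℕ) : ℕ :=
  Nat.add (s4169 R i) (s4170 R i)

theorem e4171 (R : VR) : L (VR.S R) (v4171 R) (s4171 R) 9 :=
  L.add (e4169 R) (e4170 R) (by decide)

noncomputable def v4172 (R : VR) : ℕ :=
  Vc.ssub (VR.h1 R) (v1089 R) (Nat.add (Nat.add (v1095 R) (v1102 R)) (v1110 R))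

noncomputable def s4172 (R : VR) (i : ℕ) : ℕ :=
  Nat.sub (s1089 R i) (s4171 R i)

theorem e4172 (R : VR) : L (VR.S R) (v4172 R) (s4172 R) 3 :=
  L.sub (VR.h1e R) (e1089 R) (e4171 R)

noncomputable def s4173 (R : VR) (i : ℕ) : ℕ :=
  K.Wt_cun (FC7.WR.toWt (VR.WR R)) (s247 R i)

theorem e4173 (R : VR) : L (VR.S R) (v4172 R) (s4173 R) 3 :=
  e4172 R

noncomputable def v4174 (R : VR) : ℕ :=
  Nat.xor (v511 R) (Nat.land (Nat.xor (v511 R) (Vc.ssub (VR.h1 R) (v1089 R) (Nat.add (Nat.add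
    (v1095 R) (v1102 R)) (v1110 R)))) (Nat.mul (Nat.land (v1051 R) (v1084 R)) (nat_lit 32767)))

noncomputable def s4174 (R : VR) (i : ℕ) : ℕ :=
  Bool.rec (motive := fun _ => ℕ) (s511 R i) (s4173 R i) (s4166 R i)

theorem e4174 (R : VR) : L (VR.S R) (v4174 R) (s4174 R) 3 :=
  L.sel (e4166 R) (e4173 R) (e511 R) (by decide) (by decide) (by decide)

noncomputable def v4175 (R : VR) : ℕ :=
  Nat.xor (v4174 R) (Nat.land (Nat.xor (v4174 R) (v1015 R)) (Nat.mul (v1083 R) (nat_lit 32767)))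

noncomputable def s4175 (R : VR) (i : ℕ) : ℕ :=
  Bool.rec (motive := fun _ => ℕ) (s4174 R i) (s1016 R i) (s1083 R i)

theorem e4175 (R : VR) : L (VR.S R) (v4175 R) (s4175 R) 3 :=
  L.sel (e1083 R) (e1016 R) (e4174 R) (by decide) (by decide) (by decide)

noncomputable def v4176 (R : VR) : ℕ :=
  Nat.xor (v1118 R) (Nat.land (Nat.xor (v1118 R) (Nat.xor (v4174 R) (Nat.land (Nat.xor (v4174 R)
    (v1015 R)) (Nat.mul (v1083 R) (nat_lit 32767))))) (Nat.mul (v417 R) (nat_lit 32767)))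

noncomputable def s4176 (R : VR) (i : ℕ) : ℕ :=
  Bool.rec (motive := fun _ => ℕ) (s1118 R i) (s4175 R i) (s417 R i)

theorem e4176 (R : VR) : L (VR.S R) (v4176 R) (s4176 R) 3 :=
  L.sel (e417 R) (e4175 R) (e1118 R) (by decide) (by decide) (by decide)

noncomputable def v4177 (R : VR) : ℕ :=
  Nat.xor (v4176 R) (Nat.land (Nat.xor (v4176 R) (Nat.xor (v511 R) (Nat.land (Nat.xor (v511 R)
    (Nat.land (v4162 R) (Nat.mul (VR.o1 R) (nat_lit 3)))) (Nat.mul (v437 R) (nat_lit 32767)))))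
    (Nat.mul (v416 R) (nat_lit 32767)))

noncomputable def s4177 (R : VR) (i : ℕ) : ℕ :=
  Bool.rec (motive := fun _ => ℕ) (s4176 R i) (s4165 R i) (s416 R i)

theorem e4177 (R : VR) : L (VR.S R) (v4177 R) (s4177 R) 3 :=
  L.sel (e416 R) (e4165 R) (e4176 R) (by decide) (by decide) (by decide)

noncomputable def s4178 (R : VR) (i : ℕ) : ℕ :=
  K.Wt_un (FC7.WR.toWt (VR.WR R)) (s244 R i) (s247 R i)

theorem e4178 (R : VR) : L (VR.S R) (v4177 R) (s4178 R) 3 :=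
  e4177 R

noncomputable def v4179 (R : VR) : ℕ :=
  Nat.shiftRight (Nat.land (Nat.sub (VR.h1 R) (Nat.xor (v4176 R) (Nat.land (Nat.xor (v4176 R)
    (Nat.xor (v511 R) (Nat.land (Nat.xor (v511 R) (Nat.land (v4162 R) (Nat.mul (VR.o1 R) (nat_lit
    3)))) (Nat.mul (v437 R) (nat_lit 32767))))) (Nat.mul (v416 R) (nat_lit 32767))))) (VR.h1 R))
    (nat_lit 15)

noncomputable def s4179 (R : VR) (i : ℕ) : Bool :=
  Nat.beq (s4178 R i) (nat_lit 0)

theorem e4179 (R : VR) : B (VR.S R) (v4179 R) (s4179 R) :=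
  L.ez (VR.h1e R) (e4178 R)

noncomputable def v4180 (R : VR) : ℕ :=
  Nat.land (Nat.xor (v1072 R) (Nat.land (Nat.xor (v1072 R) (Nat.lor (v1011 R) (Nat.xor (v4155 R)
    (Nat.land (Nat.xor (v4155 R) (v1024 R)) (v1012 R))))) (v417 R))) (Nat.shiftRight (Nat.land
    (Nat.sub (VR.h1 R) (Nat.xor (v4176 R) (Nat.land (Nat.xor (v4176 R) (Nat.xor (v511 R) (Nat.land
    (Nat.xor (v511 R) (Nat.land (v4162 R) (Nat.mul (VR.o1 R) (nat_lit 3)))) (Nat.mul (v437 R)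
    (nat_lit 32767))))) (Nat.mul (v416 R) (nat_lit 32767))))) (VR.h1 R)) (nat_lit 15))

noncomputable def s4180 (R : VR) (i : ℕ) : Bool :=
  K.band (s4159 R i) (s4179 R i)

theorem e4180 (R : VR) : B (VR.S R) (v4180 R) (s4180 R) :=
  B.and (e4159 R) (e4179 R)

noncomputable def v4181 (R : VR) : ℕ :=
  Nat.lor (v1253 R) (v4180 R)

noncomputable def s4181 (R : VR) (i : ℕ) : Bool :=
  K.bor (s1253 R i) (s4180 R i)

theorem e4181 (R : VR) : B (VR.S R) (v4181 R) (s4181 R) :=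
  B.or (e1253 R) (e4180 R)

noncomputable def v4182 (R : VR) : ℕ :=
  Nat.land (Nat.lor (VR.luT R) (Nat.land (Nat.sub (VR.o1 R) (v1219 R)) (Nat.sub (VR.o1 R) (Nat.xor
    (VR.lbT R) (v1231 R))))) (Nat.lor (v1253 R) (v4180 R))

noncomputable def s4182 (R : VR) (i : ℕ) : Bool :=
  K.band (s4152 R i) (s4181 R i)

theorem e4182 (R : VR) : B (VR.S R) (v4182 R) (s4182 R) :=
  B.and (e4152 R) (e4181 R)

noncomputable def s4183 (R : VR) (i : ℕ) : Bool :=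
  K.Wt_sol (FC7.WR.toWt (VR.WR R)) (s244 R i) (s247 R i)

theorem e4183 (R : VR) : B (VR.S R) (v1255 R) (s4183 R) :=
  e1255 R

noncomputable def v4184 (R : VR) : ℕ :=
  Nat.xor (v4162 R) (Nat.land (Nat.xor (v4162 R) (v1260 R)) (Nat.mul (v417 R) (nat_lit 32767)))

noncomputable def s4184 (R : VR) (i : ℕ) : ℕ :=
  Bool.rec (motive := fun _ => ℕ) (s4162 R i) (s1260 R i) (s417 R i)

theorem e4184 (R : VR) : L (VR.S R) (v4184 R) (s4184 R) 32767 :=
  L.sel (e417 R) (e1260 R) (e4162 R) (by decide) (by decide) (by decide)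

noncomputable def v4185 (R : VR) : ℕ :=
  Nat.xor (v4184 R) (Nat.land (Nat.xor (v4184 R) (v1014 R)) (Nat.mul (v1259 R) (nat_lit 32767)))

noncomputable def s4185 (R : VR) (i : ℕ) : ℕ :=
  Bool.rec (motive := fun _ => ℕ) (s4184 R i) (s1014 R i) (s1259 R i)

theorem e4185 (R : VR) : L (VR.S R) (v4185 R) (s4185 R) 32767 :=
  L.sel (e1259 R) (e1014 R) (e4184 R) (by decide) (by decide) (by decide)

noncomputable def s4186 (R : VR) (i : ℕ) : ℕ :=
  K.Wt_fl (FC7.WR.toWt (VR.WR R)) (s244 R i) (s247 R i)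

theorem e4186 (R : VR) : L (VR.S R) (v4185 R) (s4186 R) 32767 :=
  e4185 R

noncomputable def v4187 (R : VR) : ℕ :=
  Nat.land (Nat.shiftRight (v4185 R) (nat_lit 2)) (Nat.mul (VR.o1 R) (nat_lit 3))

noncomputable def s4187 (R : VR) (i : ℕ) : ℕ :=
  Nat.mod (Nat.div (s4186 R i) (nat_lit 4)) (nat_lit 4)

theorem e4187 (R : VR) : L (VR.S R) (v4187 R) (s4187 R) 3 :=
  L.fld (VR.o1e R) (e4186 R) 2 2 (by decide) (by decide)

noncomputable def s4188 (R : VR) (i : ℕ) : ℕ :=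
  K.wb (s4186 R i)

theorem e4188 (R : VR) : L (VR.S R) (v4187 R) (s4188 R) 3 :=
  e4187 R

noncomputable def v4189 (R : VR) : ℕ :=
  Nat.shiftRight (Nat.land (Nat.sub (VR.h1 R) (Nat.xor (v4187 R) (v1017 R))) (VR.h1 R)) (nat_lit
    15)

noncomputable def s4189 (R : VR) (i : ℕ) : Bool :=
  Nat.beq (s4188 R i) (s1017 R i)

theorem e4189 (R : VR) : B (VR.S R) (v4189 R) (s4189 R) :=
  L.beq (VR.h1e R) (e4188 R) (e1017 R)

noncomputable def v4190 (R : VR) : ℕ :=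
  Nat.land (Nat.shiftRight (v4185 R) (nat_lit 4)) (Nat.mul (VR.o1 R) (nat_lit 3))

noncomputable def s4190 (R : VR) (i : ℕ) : ℕ :=
  Nat.mod (Nat.div (s4186 R i) (nat_lit 16)) (nat_lit 4)

theorem e4190 (R : VR) : L (VR.S R) (v4190 R) (s4190 R) 3 :=
  L.fld (VR.o1e R) (e4186 R) 4 2 (by decide) (by decide)

noncomputable def s4191 (R : VR) (i : ℕ) : ℕ :=
  K.wc (s4186 R i)

theorem e4191 (R : VR) : L (VR.S R) (v4190 R) (s4191 R) 3 :=
  e4190 R

noncomputable def v4192 (R : VR) : ℕ :=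
  Nat.shiftRight (Nat.land (Nat.sub (VR.h1 R) (Nat.xor (v4190 R) (v1017 R))) (VR.h1 R)) (nat_lit
    15)

noncomputable def s4192 (R : VR) (i : ℕ) : Bool :=
  Nat.beq (s4191 R i) (s1017 R i)

theorem e4192 (R : VR) : B (VR.S R) (v4192 R) (s4192 R) :=
  L.beq (VR.h1e R) (e4191 R) (e1017 R)

noncomputable def v4193 (R : VR) : ℕ :=
  Nat.land (Nat.shiftRight (Nat.land (Nat.sub (VR.h1 R) (Nat.xor (v4187 R) (v1017 R))) (VR.h1 R))
    (nat_lit 15)) (Nat.shiftRight (Nat.land (Nat.sub (VR.h1 R) (Nat.xor (v4190 R) (v1017 R)))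
    (VR.h1 R)) (nat_lit 15))

noncomputable def s4193 (R : VR) (i : ℕ) : Bool :=
  K.band (s4189 R i) (s4192 R i)

theorem e4193 (R : VR) : B (VR.S R) (v4193 R) (s4193 R) :=
  B.and (e4189 R) (e4192 R)

noncomputable def s4194 (R : VR) (i : ℕ) : Bool :=
  K.uo (s4186 R i)

theorem e4194 (R : VR) : B (VR.S R) (v4193 R) (s4194 R) :=
  e4193 R

noncomputable def v4195 (R : VR) : ℕ :=
  Nat.land (Nat.shiftRight (v4185 R) (nat_lit 10)) (VR.o1 R)

noncomputable def s4195 (R : VR) (i : ℕ) : Bool :=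
  K.tbit (s4186 R i) (nat_lit 10)

theorem e4195 (R : VR) : B (VR.S R) (v4195 R) (s4195 R) :=
  B.tbc (VR.o1e R) (e4186 R) 10 (by decide)

noncomputable def v4196 (R : VR) : ℕ :=
  Nat.xor (v511 R) (Nat.land (Nat.xor (v511 R) (v359 R)) (Nat.mul (Nat.land (Nat.shiftRight (v4185
    R) (nat_lit 10)) (VR.o1 R)) (nat_lit 32767)))

noncomputable def s4196 (R : VR) (i : ℕ) : ℕ :=
  Bool.rec (motive := fun _ => ℕ) (s511 R i) (s359 R i) (s4195 R i)

theorem e4196 (R : VR) : L (VR.S R) (v4196 R) (s4196 R) 2 :=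
  L.sel (e4195 R) (e359 R) (e511 R) (by decide) (by decide) (by decide)

noncomputable def v4197 (R : VR) : ℕ :=
  Nat.land (v4185 R) (Nat.mul (VR.o1 R) (nat_lit 3))

noncomputable def s4197 (R : VR) (i : ℕ) : ℕ :=
  Nat.mod (s4186 R i) (nat_lit 4)

theorem e4197 (R : VR) : L (VR.S R) (v4197 R) (s4197 R) 3 :=
  L.fld0 (VR.o1e R) (e4186 R) 2 (by decide)

noncomputable def s4198 (R : VR) (i : ℕ) : ℕ :=
  K.wa (s4186 R i)

theorem e4198 (R : VR) : L (VR.S R) (v4197 R) (s4198 R) 3 :=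
  e4197 R

noncomputable def v4199 (R : VR) : ℕ :=
  Nat.add (v4197 R) (v4187 R)

noncomputable def s4199 (R : VR) (i : ℕ) : ℕ :=
  Nat.add (s4198 R i) (s4188 R i)

theorem e4199 (R : VR) : L (VR.S R) (v4199 R) (s4199 R) 6 :=
  L.add (e4198 R) (e4188 R) (by decide)

noncomputable def v4200 (R : VR) : ℕ :=
  Nat.add (Nat.add (v4197 R) (v4187 R)) (v4190 R)

noncomputable def s4200 (R : VR) (i : ℕ) : ℕ :=
  Nat.add (s4199 R i) (s4191 R i)

theorem e4200 (R : VR) : L (VR.S R) (v4200 R) (s4200 R) 9 :=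
  L.add (e4199 R) (e4191 R) (by decide)

noncomputable def v4201 (R : VR) : ℕ :=
  Nat.shiftRight (Nat.land (Nat.sub (VR.h1 R) (v4200 R)) (VR.h1 R)) (nat_lit 15)

noncomputable def s4201 (R : VR) (i : ℕ) : Bool :=
  Nat.beq (s4200 R i) (nat_lit 0)

theorem e4201 (R : VR) : B (VR.S R) (v4201 R) (s4201 R) :=
  L.ez (VR.h1e R) (e4200 R)

noncomputable def v4202 (R : VR) : ℕ :=
  Nat.shiftRight (Nat.land (Nat.sub (Nat.add (v359 R) (VR.h1 R)) (v4200 R)) (VR.h1 R)) (nat_lit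
    15)

noncomputable def s4202 (R : VR) (i : ℕ) : Bool :=
  Nat.ble (s4200 R i) (s359 R i)

theorem e4202 (R : VR) : B (VR.S R) (v4202 R) (s4202 R) :=
  L.ble (VR.h1e R) (e4200 R) (e359 R)

noncomputable def v4203 (R : VR) : ℕ :=
  Nat.xor (v359 R) (Nat.land (Nat.xor (v359 R) (v267 R)) (Nat.mul (Nat.shiftRight (Nat.land
    (Nat.sub (Nat.add (v359 R) (VR.h1 R)) (v4200 R)) (VR.h1 R)) (nat_lit 15)) (nat_lit 32767)))

noncomputable def s4203 (R : VR) (i : ℕ) : ℕ :=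
  Bool.rec (motive := fun _ => ℕ) (s359 R i) (s267 R i) (s4202 R i)

theorem e4203 (R : VR) : L (VR.S R) (v4203 R) (s4203 R) 2 :=
  L.sel (e4202 R) (e267 R) (e359 R) (by decide) (by decide) (by decide)

noncomputable def v4204 (R : VR) : ℕ :=
  Nat.xor (v4203 R) (Nat.land (Nat.xor (v4203 R) (v1017 R)) (Nat.mul (Nat.shiftRight (Nat.land
    (Nat.sub (VR.h1 R) (v4200 R)) (VR.h1 R)) (nat_lit 15)) (nat_lit 32767)))

noncomputable def s4204 (R : VR) (i : ℕ) : ℕ :=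
  Bool.rec (motive := fun _ => ℕ) (s4203 R i) (s1017 R i) (s4201 R i)

theorem e4204 (R : VR) : L (VR.S R) (v4204 R) (s4204 R) 3 :=
  L.sel (e4201 R) (e1017 R) (e4203 R) (by decide) (by decide) (by decide)

noncomputable def v4205 (R : VR) : ℕ :=
  Nat.xor (v4204 R) (Nat.land (Nat.xor (v4204 R) (Nat.xor (v511 R) (Nat.land (Nat.xor (v511 R)
    (v359 R)) (Nat.mul (Nat.land (Nat.shiftRight (v4185 R) (nat_lit 10)) (VR.o1 R)) (nat_lit
    32767))))) (Nat.mul (Nat.land (Nat.shiftRight (Nat.land (Nat.sub (VR.h1 R) (Nat.xor (v4187 R)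
    (v1017 R))) (VR.h1 R)) (nat_lit 15)) (Nat.shiftRight (Nat.land (Nat.sub (VR.h1 R) (Nat.xor
    (v4190 R) (v1017 R))) (VR.h1 R)) (nat_lit 15))) (nat_lit 32767)))

noncomputable def s4205 (R : VR) (i : ℕ) : ℕ :=
  Bool.rec (motive := fun _ => ℕ) (s4204 R i) (s4196 R i) (s4194 R i)

theorem e4205 (R : VR) : L (VR.S R) (v4205 R) (s4205 R) 3 :=
  L.sel (e4194 R) (e4196 R) (e4204 R) (by decide) (by decide) (by decide)

noncomputable def v4206 (R : VR) : ℕ :=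
  Nat.xor (v4187 R) (Nat.land (Nat.xor (v4187 R) (v4205 R)) (Nat.mul (v1255 R) (nat_lit 32767)))

noncomputable def s4206 (R : VR) (i : ℕ) : ℕ :=
  Bool.rec (motive := fun _ => ℕ) (s4188 R i) (s4205 R i) (s4183 R i)

theorem e4206 (R : VR) : L (VR.S R) (v4206 R) (s4206 R) 3 :=
  L.sel (e4183 R) (e4205 R) (e4188 R) (by decide) (by decide) (by decide)

noncomputable def s4207 (R : VR) (i : ℕ) : ℕ :=
  K.Wt_fc (FC7.WR.toWt (VR.WR R)) (s244 R i) (s247 R i)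

theorem e4207 (R : VR) : L (VR.S R) (v4206 R) (s4207 R) 3 :=
  e4206 R

noncomputable def s4208 (R : VR) (i : ℕ) : ℕ :=
  K.WR_fcl (VR.WR R) i

theorem e4208 (R : VR) : L (VR.S R) (v4206 R) (s4208 R) 3 :=
  e4207 R

noncomputable def v4209 (R : VR) : ℕ :=
  Nat.shiftRight (Nat.land (Nat.sub (VR.h1 R) (Nat.xor (v4206 R) (v267 R))) (VR.h1 R)) (nat_lit
    15)

noncomputable def s4209 (R : VR) (i : ℕ) : Bool :=
  Nat.beq (s4208 R i) (s267 R i)

theorem e4209 (R : VR) : B (VR.S R) (v4209 R) (s4209 R) :=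
  L.beq (VR.h1e R) (e4208 R) (e267 R)

noncomputable def v4210 (R : VR) : ℕ :=
  Nat.shiftRight (Nat.land (Nat.sub (VR.h1 R) (Nat.xor (v4206 R) (v359 R))) (VR.h1 R)) (nat_lit
    15)

noncomputable def s4210 (R : VR) (i : ℕ) : Bool :=
  Nat.beq (s4208 R i) (s359 R i)

theorem e4210 (R : VR) : B (VR.S R) (v4210 R) (s4210 R) :=
  L.beq (VR.h1e R) (e4208 R) (e359 R)

noncomputable def v4211 (R : VR) : ℕ :=
  Nat.lor (Nat.shiftRight (Nat.land (Nat.sub (VR.h1 R) (Nat.xor (v4206 R) (v267 R))) (VR.h1 R))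
    (nat_lit 15)) (Nat.shiftRight (Nat.land (Nat.sub (VR.h1 R) (Nat.xor (v4206 R) (v359 R)))
    (VR.h1 R)) (nat_lit 15))

noncomputable def s4211 (R : VR) (i : ℕ) : Bool :=
  K.bor (s4209 R i) (s4210 R i)

theorem e4211 (R : VR) : B (VR.S R) (v4211 R) (s4211 R) :=
  B.or (e4209 R) (e4210 R)

noncomputable def v4212 (R : VR) : ℕ :=
  Nat.shiftRight (Nat.land (Nat.sub (VR.h1 R) (v4197 R)) (VR.h1 R)) (nat_lit 15)

noncomputable def s4212 (R : VR) (i : ℕ) : Bool :=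
  Nat.beq (s4198 R i) (nat_lit 0)

theorem e4212 (R : VR) : B (VR.S R) (v4212 R) (s4212 R) :=
  L.ez (VR.h1e R) (e4198 R)

noncomputable def v4213 (R : VR) : ℕ :=
  Nat.shiftRight (Nat.land (Nat.add (v4197 R) (VR.k1 R)) (VR.h1 R)) (nat_lit 15)

noncomputable def s4213 (R : VR) (i : ℕ) : Bool :=
  K.bnot (Nat.beq (s4198 R i) (nat_lit 0))

theorem e4213 (R : VR) : B (VR.S R) (v4213 R) (s4213 R) :=
  L.nz (VR.h1e R) (VR.k1e R) (e4198 R)

noncomputable def v4214 (R : VR) : ℕ :=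
  Nat.land (v1258 R) (Nat.shiftRight (Nat.land (Nat.add (v4197 R) (VR.k1 R)) (VR.h1 R)) (nat_lit
    15))

noncomputable def s4214 (R : VR) (i : ℕ) : Bool :=
  K.band (s1258 R i) (s4213 R i)

theorem e4214 (R : VR) : B (VR.S R) (v4214 R) (s4214 R) :=
  B.and (e1258 R) (e4213 R)

noncomputable def v4215 (R : VR) : ℕ :=
  Nat.lor (Nat.lor (Nat.shiftRight (Nat.land (Nat.sub (VR.h1 R) (Nat.xor (v4206 R) (v267 R)))
    (VR.h1 R)) (nat_lit 15)) (Nat.shiftRight (Nat.land (Nat.sub (VR.h1 R) (Nat.xor (v4206 R) (v359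
    R))) (VR.h1 R)) (nat_lit 15))) (Nat.land (v1258 R) (Nat.shiftRight (Nat.land (Nat.add (v4197
    R) (VR.k1 R)) (VR.h1 R)) (nat_lit 15)))

noncomputable def s4215 (R : VR) (i : ℕ) : Bool :=
  K.bor (s4211 R i) (s4214 R i)

theorem e4215 (R : VR) : B (VR.S R) (v4215 R) (s4215 R) :=
  B.or (e4211 R) (e4214 R)

noncomputable def s4216 (R : VR) (i : ℕ) : Bool :=
  K.WR_rqf (VR.WR R) i

theorem e4216 (R : VR) : B (VR.S R) (v4215 R) (s4216 R) :=
  e4215 R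

noncomputable def v4217 (R : VR) : Bool :=
  VR.lab R

noncomputable def s4217 (R : VR) : Bool :=
  VR.lab R

theorem e4217 (R : VR) : (v4217 R) = s4217 R :=
  rfl

noncomputable def v4218 (R : VR) : ℕ :=
  VR.dr R

noncomputable def s4218 (R : VR) : ℕ :=
  VR.dr R

theorem e4218 (R : VR) : (v4218 R) = s4218 R :=
  rfl

theorem b4218 (R : VR) : s4218 R ≤ 127 :=
  VR.dr_b R

noncomputable def v4219 (R : VR) : Bool :=
  tf (VR.realT R) (v4218 R)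

noncomputable def s4219 (R : VR) : Bool :=
  tf (VR.realT R) (s4218 R)

theorem e4219 (R : VR) : (v4219 R) = s4219 R :=
  congrArg (tf (VR.realT R)) (e4218 R)

noncomputable def v4220 (R : VR) : ℕ :=
  tx (VR.phiT R) (v4218 R)

noncomputable def s4220 (R : VR) : ℕ :=
  tx (VR.phiT R) (s4218 R)

theorem e4220 (R : VR) : (v4220 R) = s4220 R :=
  congrArg (tx (VR.phiT R)) (e4218 R)

theorem b4220 (R : VR) : s4220 R ≤ 255 :=
  VR.phi_le R _

noncomputable def v4221 (R : VR) : Bool :=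
  tf (VR.realT R) (v4220 R)

noncomputable def s4221 (R : VR) : Bool :=
  tf (VR.realT R) (s4220 R)

theorem e4221 (R : VR) : (v4221 R) = s4221 R :=
  congrArg (tf (VR.realT R)) (e4220 R)

noncomputable def v4222 (R : VR) : Bool :=
  K.band (v4219 R) (tf (VR.realT R) (v4220 R))

noncomputable def s4222 (R : VR) : Bool :=
  K.band (s4219 R) (s4221 R)

theorem e4222 (R : VR) : (v4222 R) = s4222 R :=
  congrArg₂ K.band (e4219 R) (e4221 R)

noncomputable def v4223 (R : VR) : ℕ :=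
  Bool.rec (motive := fun _ => ℕ) (nat_lit 0) (VR.realT R) (K.band (v4219 R) (tf (VR.realT R)
    (v4220 R)))

noncomputable def s4223 (R : VR) (i : ℕ) : Bool :=
  K.band (s4222 R) (s434 R i)

theorem e4223 (R : VR) : B (VR.S R) (v4223 R) (s4223 R) :=
  B.gand (e4222 R) (e434 R)

noncomputable def v4224 (R : VR) : ℕ :=
  Nat.mul (VR.o1 R) (v4218 R)

noncomputable def s4224 (R : VR) (i : ℕ) : ℕ :=
  (s4218 R)

theorem e4224 (R : VR) : L (VR.S R) (v4224 R) (s4224 R) 127 :=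
  L.scl (VR.o1e R) (e4218 R) (b4218 R) (by decide)

noncomputable def v4225 (R : VR) : ℕ :=
  Nat.shiftRight (Nat.land (Nat.sub (VR.h1 R) (Nat.xor (VR.iota R) (v4224 R))) (VR.h1 R)) (nat_lit
    15)

noncomputable def s4225 (R : VR) (i : ℕ) : Bool :=
  Nat.beq (s0 R i) (s4224 R i)

theorem e4225 (R : VR) : B (VR.S R) (v4225 R) (s4225 R) :=
  L.beq (VR.h1e R) (e0 R) (e4224 R)

noncomputable def v4226 (R : VR) : ℕ :=
  Nat.sub (VR.o1 R) (v4225 R)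

noncomputable def s4226 (R : VR) (i : ℕ) : Bool :=
  K.bnot (s4225 R i)

theorem e4226 (R : VR) : B (VR.S R) (v4226 R) (s4226 R) :=
  B.not (VR.o1e R) (e4225 R)

noncomputable def v4227 (R : VR) : ℕ :=
  Nat.land (Bool.rec (motive := fun _ => ℕ) (nat_lit 0) (VR.realT R) (K.band (v4219 R) (tf
    (VR.realT R) (v4220 R)))) (Nat.sub (VR.o1 R) (v4225 R))

noncomputable def s4227 (R : VR) (i : ℕ) : Bool :=
  K.band (s4223 R i) (s4226 R i)

theorem e4227 (R : VR) : B (VR.S R) (v4227 R) (s4227 R) :=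
  B.and (e4223 R) (e4226 R)

noncomputable def v4228 (R : VR) : ℕ :=
  Nat.mul (VR.o1 R) (v4220 R)

noncomputable def s4228 (R : VR) (i : ℕ) : ℕ :=
  (s4220 R)

theorem e4228 (R : VR) : L (VR.S R) (v4228 R) (s4228 R) 255 :=
  L.scl (VR.o1e R) (e4220 R) (b4220 R) (by decide)

noncomputable def v4229 (R : VR) : ℕ :=
  Nat.shiftRight (Nat.land (Nat.sub (VR.h1 R) (Nat.xor (VR.iota R) (Nat.mul (VR.o1 R) (v4220 R))))
    (VR.h1 R)) (nat_lit 15)

noncomputable def s4229 (R : VR) (i : ℕ) : Bool :=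
  Nat.beq (s0 R i) (s4228 R i)

theorem e4229 (R : VR) : B (VR.S R) (v4229 R) (s4229 R) :=
  L.beq (VR.h1e R) (e0 R) (e4228 R)

noncomputable def v4230 (R : VR) : ℕ :=
  Nat.sub (VR.o1 R) (Nat.shiftRight (Nat.land (Nat.sub (VR.h1 R) (Nat.xor (VR.iota R) (Nat.mul
    (VR.o1 R) (v4220 R)))) (VR.h1 R)) (nat_lit 15))

noncomputable def s4230 (R : VR) (i : ℕ) : Bool :=
  K.bnot (s4229 R i)

theorem e4230 (R : VR) : B (VR.S R) (v4230 R) (s4230 R) :=
  B.not (VR.o1e R) (e4229 R)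

noncomputable def v4231 (R : VR) : ℕ :=
  Nat.land (Nat.land (Bool.rec (motive := fun _ => ℕ) (nat_lit 0) (VR.realT R) (K.band (v4219 R)
    (tf (VR.realT R) (v4220 R)))) (Nat.sub (VR.o1 R) (v4225 R))) (Nat.sub (VR.o1 R)
    (Nat.shiftRight (Nat.land (Nat.sub (VR.h1 R) (Nat.xor (VR.iota R) (Nat.mul (VR.o1 R) (v4220
    R)))) (VR.h1 R)) (nat_lit 15)))

noncomputable def s4231 (R : VR) (i : ℕ) : Bool :=
  K.band (s4227 R i) (s4230 R i)

theorem e4231 (R : VR) : B (VR.S R) (v4231 R) (s4231 R) :=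
  B.and (e4227 R) (e4230 R)

noncomputable def v4232 (R : VR) : ℕ :=
  tx (VR.phiT R) (v4220 R)

noncomputable def s4232 (R : VR) : ℕ :=
  tx (VR.phiT R) (s4220 R)

theorem e4232 (R : VR) : (v4232 R) = s4232 R :=
  congrArg (tx (VR.phiT R)) (e4220 R)

theorem b4232 (R : VR) : s4232 R ≤ 255 :=
  VR.phi_le R _

noncomputable def v4233 (R : VR) : ℕ :=
  Nat.mul (VR.o1 R) (v4232 R)

noncomputable def s4233 (R : VR) (i : ℕ) : ℕ :=
  (s4232 R)

theorem e4233 (R : VR) : L (VR.S R) (v4233 R) (s4233 R) 255 :=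
  L.scl (VR.o1e R) (e4232 R) (b4232 R) (by decide)

noncomputable def v4234 (R : VR) : ℕ :=
  Nat.shiftRight (Nat.land (Nat.sub (VR.h1 R) (Nat.xor (VR.iota R) (Nat.mul (VR.o1 R) (v4232 R))))
    (VR.h1 R)) (nat_lit 15)

noncomputable def s4234 (R : VR) (i : ℕ) : Bool :=
  Nat.beq (s0 R i) (s4233 R i)

theorem e4234 (R : VR) : B (VR.S R) (v4234 R) (s4234 R) :=
  L.beq (VR.h1e R) (e0 R) (e4233 R)

noncomputable def v4235 (R : VR) : ℕ :=
  Nat.sub (VR.o1 R) (Nat.shiftRight (Nat.land (Nat.sub (VR.h1 R) (Nat.xor (VR.iota R) (Nat.mul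
    (VR.o1 R) (v4232 R)))) (VR.h1 R)) (nat_lit 15))

noncomputable def s4235 (R : VR) (i : ℕ) : Bool :=
  K.bnot (s4234 R i)

theorem e4235 (R : VR) : B (VR.S R) (v4235 R) (s4235 R) :=
  B.not (VR.o1e R) (e4234 R)

noncomputable def v4236 (R : VR) : ℕ :=
  Nat.land (Nat.land (Nat.land (Bool.rec (motive := fun _ => ℕ) (nat_lit 0) (VR.realT R) (K.band
    (v4219 R) (tf (VR.realT R) (v4220 R)))) (Nat.sub (VR.o1 R) (v4225 R))) (Nat.sub (VR.o1 R)
    (Nat.shiftRight (Nat.land (Nat.sub (VR.h1 R) (Nat.xor (VR.iota R) (Nat.mul (VR.o1 R) (v4220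
    R)))) (VR.h1 R)) (nat_lit 15)))) (Nat.sub (VR.o1 R) (Nat.shiftRight (Nat.land (Nat.sub (VR.h1
    R) (Nat.xor (VR.iota R) (Nat.mul (VR.o1 R) (v4232 R)))) (VR.h1 R)) (nat_lit 15)))

noncomputable def s4236 (R : VR) (i : ℕ) : Bool :=
  K.band (s4231 R i) (s4235 R i)

theorem e4236 (R : VR) : B (VR.S R) (v4236 R) (s4236 R) :=
  B.and (e4231 R) (e4235 R)

noncomputable def s4237 (R : VR) (i : ℕ) : Bool :=
  K.WR_fd1 (VR.WR R) (s4218 R) i

theorem e4237 (R : VR) : B (VR.S R) (v4236 R) (s4237 R) :=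
  e4236 R

noncomputable def v4238 (R : VR) : ℕ :=
  Nat.mul (VR.o1 R) (bt (v4219 R))

noncomputable def s4238 (R : VR) (i : ℕ) : Bool :=
  (s4219 R)

theorem e4238 (R : VR) : B (VR.S R) (v4238 R) (s4238 R) :=
  B.scl (VR.o1e R) (e4219 R)

noncomputable def v4239 (R : VR) : ℕ :=
  Nat.land (v1747 R) (Nat.mul (VR.o1 R) (bt (v4219 R)))

noncomputable def s4239 (R : VR) (i : ℕ) : Bool :=
  K.band (s1747 R i) (s4238 R i)

theorem e4239 (R : VR) : B (VR.S R) (v4239 R) (s4239 R) :=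
  B.and (e1747 R) (e4238 R)

noncomputable def v4240 (R : VR) : ℕ :=
  Nat.shiftRight (Nat.land (Nat.sub (VR.h1 R) (Nat.xor (v4224 R) (VR.iota R))) (VR.h1 R)) (nat_lit
    15)

noncomputable def s4240 (R : VR) (i : ℕ) : Bool :=
  Nat.beq (s4224 R i) (s0 R i)

theorem e4240 (R : VR) : B (VR.S R) (v4240 R) (s4240 R) :=
  L.beq (VR.h1e R) (e4224 R) (e0 R)

noncomputable def v4241 (R : VR) : ℕ :=
  Nat.sub (VR.o1 R) (Nat.shiftRight (Nat.land (Nat.sub (VR.h1 R) (Nat.xor (v4224 R) (VR.iota R)))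
    (VR.h1 R)) (nat_lit 15))

noncomputable def s4241 (R : VR) (i : ℕ) : Bool :=
  K.bnot (s4240 R i)

theorem e4241 (R : VR) : B (VR.S R) (v4241 R) (s4241 R) :=
  B.not (VR.o1e R) (e4240 R)

noncomputable def v4242 (R : VR) : ℕ :=
  Nat.land (Nat.land (v1747 R) (Nat.mul (VR.o1 R) (bt (v4219 R)))) (Nat.sub (VR.o1 R)
    (Nat.shiftRight (Nat.land (Nat.sub (VR.h1 R) (Nat.xor (v4224 R) (VR.iota R))) (VR.h1 R))
    (nat_lit 15)))

noncomputable def s4242 (R : VR) (i : ℕ) : Bool :=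
  K.band (s4239 R i) (s4241 R i)

theorem e4242 (R : VR) : B (VR.S R) (v4242 R) (s4242 R) :=
  B.and (e4239 R) (e4241 R)

noncomputable def v4243 (R : VR) : ℕ :=
  Nat.shiftRight (Nat.land (Nat.sub (VR.h1 R) (Nat.xor (v4224 R) (VR.phiT R))) (VR.h1 R)) (nat_lit
    15)

noncomputable def s4243 (R : VR) (i : ℕ) : Bool :=
  Nat.beq (s4224 R i) (s171 R i)

theorem e4243 (R : VR) : B (VR.S R) (v4243 R) (s4243 R) :=
  L.beq (VR.h1e R) (e4224 R) (e171 R)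

noncomputable def v4244 (R : VR) : ℕ :=
  Nat.sub (VR.o1 R) (Nat.shiftRight (Nat.land (Nat.sub (VR.h1 R) (Nat.xor (v4224 R) (VR.phiT R)))
    (VR.h1 R)) (nat_lit 15))

noncomputable def s4244 (R : VR) (i : ℕ) : Bool :=
  K.bnot (s4243 R i)

theorem e4244 (R : VR) : B (VR.S R) (v4244 R) (s4244 R) :=
  B.not (VR.o1e R) (e4243 R)

noncomputable def v4245 (R : VR) : ℕ :=
  Nat.land (Nat.land (Nat.land (v1747 R) (Nat.mul (VR.o1 R) (bt (v4219 R)))) (Nat.sub (VR.o1 R)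
    (Nat.shiftRight (Nat.land (Nat.sub (VR.h1 R) (Nat.xor (v4224 R) (VR.iota R))) (VR.h1 R))
    (nat_lit 15)))) (Nat.sub (VR.o1 R) (Nat.shiftRight (Nat.land (Nat.sub (VR.h1 R) (Nat.xor
    (v4224 R) (VR.phiT R))) (VR.h1 R)) (nat_lit 15)))

noncomputable def s4245 (R : VR) (i : ℕ) : Bool :=
  K.band (s4242 R i) (s4244 R i)

theorem e4245 (R : VR) : B (VR.S R) (v4245 R) (s4245 R) :=
  B.and (e4242 R) (e4244 R)

noncomputable def v4246 (R : VR) : ℕ :=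
  Nat.shiftRight (Nat.land (Nat.sub (VR.h1 R) (Nat.xor (v4224 R) (v179 R))) (VR.h1 R)) (nat_lit
    15)

noncomputable def s4246 (R : VR) (i : ℕ) : Bool :=
  Nat.beq (s4224 R i) (s179 R i)

theorem e4246 (R : VR) : B (VR.S R) (v4246 R) (s4246 R) :=
  L.beq (VR.h1e R) (e4224 R) (e179 R)

noncomputable def v4247 (R : VR) : ℕ :=
  Nat.sub (VR.o1 R) (Nat.shiftRight (Nat.land (Nat.sub (VR.h1 R) (Nat.xor (v4224 R) (v179 R)))
    (VR.h1 R)) (nat_lit 15))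

noncomputable def s4247 (R : VR) (i : ℕ) : Bool :=
  K.bnot (s4246 R i)

theorem e4247 (R : VR) : B (VR.S R) (v4247 R) (s4247 R) :=
  B.not (VR.o1e R) (e4246 R)

noncomputable def v4248 (R : VR) : ℕ :=
  Nat.land (Nat.land (Nat.land (Nat.land (v1747 R) (Nat.mul (VR.o1 R) (bt (v4219 R)))) (Nat.sub
    (VR.o1 R) (Nat.shiftRight (Nat.land (Nat.sub (VR.h1 R) (Nat.xor (v4224 R) (VR.iota R))) (VR.h1
    R)) (nat_lit 15)))) (Nat.sub (VR.o1 R) (Nat.shiftRight (Nat.land (Nat.sub (VR.h1 R) (Nat.xor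
    (v4224 R) (VR.phiT R))) (VR.h1 R)) (nat_lit 15)))) (Nat.sub (VR.o1 R) (Nat.shiftRight
    (Nat.land (Nat.sub (VR.h1 R) (Nat.xor (v4224 R) (v179 R))) (VR.h1 R)) (nat_lit 15)))

noncomputable def s4248 (R : VR) (i : ℕ) : Bool :=
  K.band (s4245 R i) (s4247 R i)

theorem e4248 (R : VR) : B (VR.S R) (v4248 R) (s4248 R) :=
  B.and (e4245 R) (e4247 R)

noncomputable def s4249 (R : VR) (i : ℕ) : Bool :=
  K.WR_fd1 (VR.WR R) i (s4218 R)

theorem e4249 (R : VR) : B (VR.S R) (v4248 R) (s4249 R) :=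
  e4248 R

noncomputable def v4250 (R : VR) : ℕ :=
  Nat.lor (v4236 R) (v4248 R)

noncomputable def s4250 (R : VR) (i : ℕ) : Bool :=
  K.bor (s4237 R i) (s4249 R i)

theorem e4250 (R : VR) : B (VR.S R) (v4250 R) (s4250 R) :=
  B.or (e4237 R) (e4249 R)

noncomputable def v4251 (R : VR) : ℕ :=
  tx (VR.lT R) (v4218 R)

noncomputable def s4251 (R : VR) : ℕ :=
  tx (VR.lT R) (s4218 R)

theorem e4251 (R : VR) : (v4251 R) = s4251 R :=
  congrArg (tx (VR.lT R)) (e4218 R)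

theorem b4251 (R : VR) : s4251 R ≤ 29 :=
  VR.l_le R _

noncomputable def v4252 (R : VR) : Bool :=
  Nat.ble (v868 R) (v4251 R)

noncomputable def s4252 (R : VR) : Bool :=
  Nat.ble (s4121 R) (s4251 R)

theorem e4252 (R : VR) : (v4252 R) = s4252 R :=
  congrArg₂ Nat.ble (e4121 R) (e4251 R)

noncomputable def v4253 (R : VR) : ℕ :=
  tx (VR.lT R) (v4220 R)

noncomputable def s4253 (R : VR) : ℕ :=
  tx (VR.lT R) (s4220 R)

theorem e4253 (R : VR) : (v4253 R) = s4253 R :=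
  congrArg (tx (VR.lT R)) (e4220 R)

theorem b4253 (R : VR) : s4253 R ≤ 29 :=
  VR.l_le R _

noncomputable def v4254 (R : VR) : Bool :=
  Nat.ble (v868 R) (v4253 R)

noncomputable def s4254 (R : VR) : Bool :=
  Nat.ble (s4121 R) (s4253 R)

theorem e4254 (R : VR) : (v4254 R) = s4254 R :=
  congrArg₂ Nat.ble (e4121 R) (e4253 R)

noncomputable def v4255 (R : VR) : ℕ :=
  tx (VR.lT R) (v4232 R)

noncomputable def s4255 (R : VR) : ℕ :=
  tx (VR.lT R) (s4232 R)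

theorem e4255 (R : VR) : (v4255 R) = s4255 R :=
  congrArg (tx (VR.lT R)) (e4232 R)

theorem b4255 (R : VR) : s4255 R ≤ 29 :=
  VR.l_le R _

noncomputable def v4256 (R : VR) : ℕ :=
  Bool.rec (motive := fun _ => ℕ) (tx (VR.lT R) (v4232 R)) (v4253 R) (Nat.ble (v868 R) (v4253 R))

noncomputable def s4256 (R : VR) : ℕ :=
  Bool.rec (motive := fun _ => ℕ) (s4255 R) (s4253 R) (s4254 R)

theorem e4256 (R : VR) : (v4256 R) = s4256 R :=
  rec_congr (e4255 R) (e4253 R) (e4254 R)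

theorem b4256 (R : VR) : s4256 R ≤ 29 :=
  rec_le (b4255 R) (b4253 R) (by decide) (by decide)

noncomputable def v4257 (R : VR) : ℕ :=
  Bool.rec (motive := fun _ => ℕ) (Bool.rec (motive := fun _ => ℕ) (tx (VR.lT R) (v4232 R)) (v4253
    R) (Nat.ble (v868 R) (v4253 R))) (v4251 R) (Nat.ble (v868 R) (v4251 R))

noncomputable def s4257 (R : VR) : ℕ :=
  Bool.rec (motive := fun _ => ℕ) (s4256 R) (s4251 R) (s4252 R)

theorem e4257 (R : VR) : (v4257 R) = s4257 R :=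
  rec_congr (e4256 R) (e4251 R) (e4252 R)

theorem b4257 (R : VR) : s4257 R ≤ 29 :=
  rec_le (b4256 R) (b4251 R) (by decide) (by decide)

noncomputable def s4258 (R : VR) : ℕ :=
  K.WR_hd (VR.WR R) (s4218 R)

theorem e4258 (R : VR) : (v4257 R) = s4258 R :=
  e4257 R

theorem b4258 (R : VR) : s4258 R ≤ 29 := (b4257 R)

noncomputable def v4259 (R : VR) : Bool :=
  Nat.ble (v868 R) (v4257 R)

noncomputable def s4259 (R : VR) : Bool :=
  Nat.ble (s4121 R) (s4258 R)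

theorem e4259 (R : VR) : (v4259 R) = s4259 R :=
  congrArg₂ Nat.ble (e4121 R) (e4258 R)

noncomputable def v4260 (R : VR) : ℕ :=
  Nat.shiftRight (Nat.land (Nat.sub (Nat.add (VR.lT R) (VR.h1 R)) (v4122 R)) (VR.h1 R)) (nat_lit
    15)

noncomputable def s4260 (R : VR) (i : ℕ) : Bool :=
  Nat.ble (s4122 R i) (s7 R i)

theorem e4260 (R : VR) : B (VR.S R) (v4260 R) (s4260 R) :=
  L.ble (VR.h1e R) (e4122 R) (e7 R)

noncomputable def v4261 (R : VR) : ℕ :=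
  Nat.shiftRight (Nat.land (Nat.sub (Nat.add (v193 R) (VR.h1 R)) (v4122 R)) (VR.h1 R)) (nat_lit
    15)

noncomputable def s4261 (R : VR) (i : ℕ) : Bool :=
  Nat.ble (s4122 R i) (s193 R i)

theorem e4261 (R : VR) : B (VR.S R) (v4261 R) (s4261 R) :=
  L.ble (VR.h1e R) (e4122 R) (e193 R)

noncomputable def v4262 (R : VR) : ℕ :=
  Nat.xor (v1549 R) (Nat.land (Nat.xor (v1549 R) (v193 R)) (Nat.mul (Nat.shiftRight (Nat.land
    (Nat.sub (Nat.add (v193 R) (VR.h1 R)) (v4122 R)) (VR.h1 R)) (nat_lit 15)) (nat_lit 32767)))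

noncomputable def s4262 (R : VR) (i : ℕ) : ℕ :=
  Bool.rec (motive := fun _ => ℕ) (s1549 R i) (s193 R i) (s4261 R i)

theorem e4262 (R : VR) : L (VR.S R) (v4262 R) (s4262 R) 29 :=
  L.sel (e4261 R) (e193 R) (e1549 R) (by decide) (by decide) (by decide)

noncomputable def v4263 (R : VR) : ℕ :=
  Nat.xor (v4262 R) (Nat.land (Nat.xor (v4262 R) (VR.lT R)) (Nat.mul (Nat.shiftRight (Nat.land
    (Nat.sub (Nat.add (VR.lT R) (VR.h1 R)) (v4122 R)) (VR.h1 R)) (nat_lit 15)) (nat_lit 32767)))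

noncomputable def s4263 (R : VR) (i : ℕ) : ℕ :=
  Bool.rec (motive := fun _ => ℕ) (s4262 R i) (s7 R i) (s4260 R i)

theorem e4263 (R : VR) : L (VR.S R) (v4263 R) (s4263 R) 29 :=
  L.sel (e4260 R) (e7 R) (e4262 R) (by decide) (by decide) (by decide)

noncomputable def s4264 (R : VR) (i : ℕ) : ℕ :=
  K.WR_hd (VR.WR R) i

theorem e4264 (R : VR) : L (VR.S R) (v4263 R) (s4264 R) 29 :=
  e4263 R

noncomputable def v4265 (R : VR) : ℕ :=
  Nat.shiftRight (Nat.land (Nat.sub (Nat.add (v4263 R) (VR.h1 R)) (v4122 R)) (VR.h1 R)) (nat_lit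
    15)

noncomputable def s4265 (R : VR) (i : ℕ) : Bool :=
  Nat.ble (s4122 R i) (s4264 R i)

theorem e4265 (R : VR) : B (VR.S R) (v4265 R) (s4265 R) :=
  L.ble (VR.h1e R) (e4122 R) (e4264 R)

noncomputable def v4266 (R : VR) : ℕ :=
  Bool.rec (motive := fun _ => ℕ) (nat_lit 0) (Nat.shiftRight (Nat.land (Nat.sub (Nat.add (v4263
    R) (VR.h1 R)) (v4122 R)) (VR.h1 R)) (nat_lit 15)) (Nat.ble (v868 R) (v4257 R))

noncomputable def s4266 (R : VR) (i : ℕ) : Bool :=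
  K.band (s4259 R) (s4265 R i)

theorem e4266 (R : VR) : B (VR.S R) (v4266 R) (s4266 R) :=
  B.gand (e4259 R) (e4265 R)

noncomputable def v4267 (R : VR) : ℕ :=
  Nat.mul (VR.o1 R) (v4257 R)

noncomputable def s4267 (R : VR) (i : ℕ) : ℕ :=
  (s4258 R)

theorem e4267 (R : VR) : L (VR.S R) (v4267 R) (s4267 R) 29 :=
  L.scl (VR.o1e R) (e4258 R) (b4258 R) (by decide)

noncomputable def v4268 (R : VR) : ℕ :=
  Nat.shiftRight (Nat.land (Nat.sub (VR.h1 R) (Nat.xor (Nat.mul (VR.o1 R) (v4257 R)) (v4263 R)))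
    (VR.h1 R)) (nat_lit 15)

noncomputable def s4268 (R : VR) (i : ℕ) : Bool :=
  Nat.beq (s4267 R i) (s4264 R i)

theorem e4268 (R : VR) : B (VR.S R) (v4268 R) (s4268 R) :=
  L.beq (VR.h1e R) (e4267 R) (e4264 R)

noncomputable def v4269 (R : VR) : ℕ :=
  Nat.sub (VR.o1 R) (Nat.shiftRight (Nat.land (Nat.sub (VR.h1 R) (Nat.xor (Nat.mul (VR.o1 R)
    (v4257 R)) (v4263 R))) (VR.h1 R)) (nat_lit 15))

noncomputable def s4269 (R : VR) (i : ℕ) : Bool :=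
  K.bnot (s4268 R i)

theorem e4269 (R : VR) : B (VR.S R) (v4269 R) (s4269 R) :=
  B.not (VR.o1e R) (e4268 R)

noncomputable def v4270 (R : VR) : Bool :=
  tf (VR.cxT R) (v4257 R)

noncomputable def s4270 (R : VR) : Bool :=
  tf (VR.cxT R) (s4258 R)

theorem e4270 (R : VR) : (v4270 R) = s4270 R :=
  congrArg (tf (VR.cxT R)) (e4258 R)

noncomputable def v4271 (R : VR) : ℕ :=
  gmk (VR.h2 R) (VR.J R) (Nat.mul (v4263 R) (VR.cr1 R))

noncomputable def v4272 (R : VR) : ℕ :=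
  Nat.mod (Nat.land (v4271 R) (v223 R)) (VR.m1 R)

noncomputable def s4272 (R : VR) (i : ℕ) : Bool :=
  tf (VR.cxT R) (s4264 R i)

theorem e4272 (R : VR) : B (VR.S R) (v4272 R) (s4272 R) :=
  B.gat (e4264 R) (VR.cx_is R) (VR.cx_lt R)

noncomputable def v4273 (R : VR) : ℕ :=
  Bool.rec (motive := fun _ => ℕ) (Nat.mod (Nat.land (v4271 R) (v223 R)) (VR.m1 R)) (VR.o1 R) (tf
    (VR.cxT R) (v4257 R))

noncomputable def s4273 (R : VR) (i : ℕ) : Bool :=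
  K.bor (s4270 R) (s4272 R i)

theorem e4273 (R : VR) : B (VR.S R) (v4273 R) (s4273 R) :=
  B.gor (VR.o1e R) (e4270 R) (e4272 R)

noncomputable def v4274 (R : VR) : Bool :=
  Nat.ble (Nat.succ (v4257 R)) (v868 R)

noncomputable def s4274 (R : VR) : Bool :=
  Nat.ble (Nat.succ (s4258 R)) (s868 R)

theorem e4274 (R : VR) : (v4274 R) = s4274 R :=
  congrArg₂ Nat.ble (congrArg Nat.succ (e4258 R)) (e868 R)

noncomputable def v4275 (R : VR) : ℕ :=
  Nat.shiftRight (Nat.land (Nat.sub (Nat.add (v869 R) (VR.k1 R)) (v4263 R)) (VR.h1 R)) (nat_lit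
    15)

noncomputable def s4275 (R : VR) (i : ℕ) : Bool :=
  Nat.ble (Nat.succ (s4264 R i)) (s869 R i)

theorem e4275 (R : VR) : B (VR.S R) (v4275 R) (s4275 R) :=
  L.blt (VR.h1e R) (VR.k1e R) (e4264 R) (e869 R)

noncomputable def v4276 (R : VR) : ℕ :=
  Nat.mul (VR.o1 R) (bt (Nat.ble (Nat.succ (v4257 R)) (v868 R)))

noncomputable def s4276 (R : VR) (i : ℕ) : Bool :=
  (s4274 R)

theorem e4276 (R : VR) : B (VR.S R) (v4276 R) (s4276 R) :=
  B.scl (VR.o1e R) (e4274 R)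

noncomputable def v4277 (R : VR) : ℕ :=
  Nat.sub (VR.o1 R) (Nat.xor (Nat.mul (VR.o1 R) (bt (Nat.ble (Nat.succ (v4257 R)) (v868 R))))
    (Nat.shiftRight (Nat.land (Nat.sub (Nat.add (v869 R) (VR.k1 R)) (v4263 R)) (VR.h1 R)) (nat_lit
    15)))

noncomputable def s4277 (R : VR) (i : ℕ) : Bool :=
  K.beqB (s4276 R i) (s4275 R i)

theorem e4277 (R : VR) : B (VR.S R) (v4277 R) (s4277 R) :=
  B.beqB (VR.o1e R) (e4276 R) (e4275 R)

noncomputable def v4278 (R : VR) : ℕ :=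
  Nat.sub (VR.o1 R) (Nat.sub (VR.o1 R) (Nat.xor (Nat.mul (VR.o1 R) (bt (Nat.ble (Nat.succ (v4257
    R)) (v868 R)))) (Nat.shiftRight (Nat.land (Nat.sub (Nat.add (v869 R) (VR.k1 R)) (v4263 R))
    (VR.h1 R)) (nat_lit 15))))

noncomputable def s4278 (R : VR) (i : ℕ) : Bool :=
  K.bnot (s4277 R i)

theorem e4278 (R : VR) : B (VR.S R) (v4278 R) (s4278 R) :=
  B.not (VR.o1e R) (e4277 R)

noncomputable def v4279 (R : VR) : ℕ :=
  Nat.lor (Bool.rec (motive := fun _ => ℕ) (Nat.mod (Nat.land (v4271 R) (v223 R)) (VR.m1 R))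
    (VR.o1 R) (tf (VR.cxT R) (v4257 R))) (Nat.sub (VR.o1 R) (Nat.sub (VR.o1 R) (Nat.xor (Nat.mul
    (VR.o1 R) (bt (Nat.ble (Nat.succ (v4257 R)) (v868 R)))) (Nat.shiftRight (Nat.land (Nat.sub
    (Nat.add (v869 R) (VR.k1 R)) (v4263 R)) (VR.h1 R)) (nat_lit 15)))))

noncomputable def s4279 (R : VR) (i : ℕ) : Bool :=
  K.bor (s4273 R i) (s4278 R i)

theorem e4279 (R : VR) : B (VR.S R) (v4279 R) (s4279 R) :=
  B.or (e4273 R) (e4278 R)

noncomputable def v4280 (R : VR) : ℕ :=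
  tx (VR.DQ1T R) (v4257 R)

noncomputable def s4280 (R : VR) : ℕ :=
  tx (VR.DQ1T R) (s4258 R)

theorem e4280 (R : VR) : (v4280 R) = s4280 R :=
  congrArg (tx (VR.DQ1T R)) (e4258 R)

theorem b4280 (R : VR) : s4280 R ≤ 32767 :=
  VR.DQ1_le R _

noncomputable def v4281 (R : VR) : ℕ :=
  tx (VR.DQ2T R) (v4257 R)

noncomputable def s4281 (R : VR) : ℕ :=
  tx (VR.DQ2T R) (s4258 R)

theorem e4281 (R : VR) : (v4281 R) = s4281 R :=
  congrArg (tx (VR.DQ2T R)) (e4258 R)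

theorem b4281 (R : VR) : s4281 R ≤ 32767 :=
  VR.DQ2_le R _

noncomputable def v4282 (R : VR) : ℕ :=
  Nat.mod (Nat.land (v4271 R) (v21 R)) (VR.m1 R)

noncomputable def s4282 (R : VR) (i : ℕ) : ℕ :=
  tx (VR.pw1T R) (s4264 R i)

theorem e4282 (R : VR) : L (VR.S R) (v4282 R) (s4282 R) 16384 :=
  L.gat (e4264 R) (VR.pw1_is R) (VR.pw1_lt R) (VR.pw1_le R)

noncomputable def v4283 (R : VR) : ℕ :=
  Nat.mul (VR.o1 R) (tx (VR.DQ1T R) (v4257 R))

noncomputable def s4283 (R : VR) (i : ℕ) : ℕ :=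
  (s4280 R)

theorem e4283 (R : VR) : L (VR.S R) (v4283 R) (s4283 R) 32767 :=
  L.scl (VR.o1e R) (e4280 R) (b4280 R) (by decide)

noncomputable def v4284 (R : VR) : ℕ :=
  Nat.land (Nat.mul (VR.o1 R) (tx (VR.DQ1T R) (v4257 R))) (Nat.mod (Nat.land (v4271 R) (v21 R))
    (VR.m1 R))

noncomputable def s4284 (R : VR) (i : ℕ) : ℕ :=
  Nat.land (s4283 R i) (s4282 R i)

theorem e4284 (R : VR) : L (VR.S R) (v4284 R) (s4284 R) 32767 :=
  L.land (e4283 R) (e4282 R)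

noncomputable def v4285 (R : VR) : ℕ :=
  Nat.shiftRight (Nat.land (Nat.sub (VR.h1 R) (v4284 R)) (VR.h1 R)) (nat_lit 15)

noncomputable def s4285 (R : VR) (i : ℕ) : Bool :=
  Nat.beq (s4284 R i) (nat_lit 0)

theorem e4285 (R : VR) : B (VR.S R) (v4285 R) (s4285 R) :=
  L.ez (VR.h1e R) (e4284 R)

noncomputable def v4286 (R : VR) : ℕ :=
  Nat.shiftRight (Nat.land (Nat.add (v4284 R) (VR.k1 R)) (VR.h1 R)) (nat_lit 15)

noncomputable def s4286 (R : VR) (i : ℕ) : Bool :=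
  K.bnot (Nat.beq (s4284 R i) (nat_lit 0))

theorem e4286 (R : VR) : B (VR.S R) (v4286 R) (s4286 R) :=
  L.nz (VR.h1e R) (VR.k1e R) (e4284 R)

noncomputable def v4287 (R : VR) : ℕ :=
  Nat.mod (Nat.land (v4271 R) (v38 R)) (VR.m1 R)

noncomputable def s4287 (R : VR) (i : ℕ) : ℕ :=
  tx (VR.pw2T R) (s4264 R i)

theorem e4287 (R : VR) : L (VR.S R) (v4287 R) (s4287 R) 16384 :=
  L.gat (e4264 R) (VR.pw2_is R) (VR.pw2_lt R) (VR.pw2_le R)

noncomputable def v4288 (R : VR) : ℕ :=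
  Nat.mul (VR.o1 R) (tx (VR.DQ2T R) (v4257 R))

noncomputable def s4288 (R : VR) (i : ℕ) : ℕ :=
  (s4281 R)

theorem e4288 (R : VR) : L (VR.S R) (v4288 R) (s4288 R) 32767 :=
  L.scl (VR.o1e R) (e4281 R) (b4281 R) (by decide)

noncomputable def v4289 (R : VR) : ℕ :=
  Nat.land (Nat.mul (VR.o1 R) (tx (VR.DQ2T R) (v4257 R))) (Nat.mod (Nat.land (v4271 R) (v38 R))
    (VR.m1 R))

noncomputable def s4289 (R : VR) (i : ℕ) : ℕ :=
  Nat.land (s4288 R i) (s4287 R i)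

theorem e4289 (R : VR) : L (VR.S R) (v4289 R) (s4289 R) 32767 :=
  L.land (e4288 R) (e4287 R)

noncomputable def v4290 (R : VR) : ℕ :=
  Nat.shiftRight (Nat.land (Nat.sub (VR.h1 R) (v4289 R)) (VR.h1 R)) (nat_lit 15)

noncomputable def s4290 (R : VR) (i : ℕ) : Bool :=
  Nat.beq (s4289 R i) (nat_lit 0)

theorem e4290 (R : VR) : B (VR.S R) (v4290 R) (s4290 R) :=
  L.ez (VR.h1e R) (e4289 R)

noncomputable def v4291 (R : VR) : ℕ :=
  Nat.shiftRight (Nat.land (Nat.add (v4289 R) (VR.k1 R)) (VR.h1 R)) (nat_lit 15)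

noncomputable def s4291 (R : VR) (i : ℕ) : Bool :=
  K.bnot (Nat.beq (s4289 R i) (nat_lit 0))

theorem e4291 (R : VR) : B (VR.S R) (v4291 R) (s4291 R) :=
  L.nz (VR.h1e R) (VR.k1e R) (e4289 R)

noncomputable def v4292 (R : VR) : ℕ :=
  Nat.lor (Nat.shiftRight (Nat.land (Nat.add (v4284 R) (VR.k1 R)) (VR.h1 R)) (nat_lit 15))
    (Nat.shiftRight (Nat.land (Nat.add (v4289 R) (VR.k1 R)) (VR.h1 R)) (nat_lit 15))

noncomputable def s4292 (R : VR) (i : ℕ) : Bool :=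
  K.bor (s4286 R i) (s4291 R i)

theorem e4292 (R : VR) : B (VR.S R) (v4292 R) (s4292 R) :=
  B.or (e4286 R) (e4291 R)

noncomputable def s4293 (R : VR) (i : ℕ) : Bool :=
  V2.mk R (s4280 R) (s4281 R) (s4264 R i)

theorem e4293 (R : VR) : B (VR.S R) (v4292 R) (s4293 R) :=
  e4292 R

noncomputable def v4294 (R : VR) : ℕ :=
  Nat.lor (Nat.lor (Bool.rec (motive := fun _ => ℕ) (Nat.mod (Nat.land (v4271 R) (v223 R)) (VR.m1
    R)) (VR.o1 R) (tf (VR.cxT R) (v4257 R))) (Nat.sub (VR.o1 R) (Nat.sub (VR.o1 R) (Nat.xor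
    (Nat.mul (VR.o1 R) (bt (Nat.ble (Nat.succ (v4257 R)) (v868 R)))) (Nat.shiftRight (Nat.land
    (Nat.sub (Nat.add (v869 R) (VR.k1 R)) (v4263 R)) (VR.h1 R)) (nat_lit 15)))))) (Nat.lor
    (Nat.shiftRight (Nat.land (Nat.add (v4284 R) (VR.k1 R)) (VR.h1 R)) (nat_lit 15))
    (Nat.shiftRight (Nat.land (Nat.add (v4289 R) (VR.k1 R)) (VR.h1 R)) (nat_lit 15)))

noncomputable def s4294 (R : VR) (i : ℕ) : Bool :=
  K.bor (s4279 R i) (s4293 R i)

theorem e4294 (R : VR) : B (VR.S R) (v4294 R) (s4294 R) :=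
  B.or (e4279 R) (e4293 R)

noncomputable def v4295 (R : VR) : ℕ :=
  Nat.land (Nat.sub (VR.o1 R) (Nat.shiftRight (Nat.land (Nat.sub (VR.h1 R) (Nat.xor (Nat.mul
    (VR.o1 R) (v4257 R)) (v4263 R))) (VR.h1 R)) (nat_lit 15))) (v4294 R)

noncomputable def s4295 (R : VR) (i : ℕ) : Bool :=
  K.band (s4269 R i) (s4294 R i)

theorem e4295 (R : VR) : B (VR.S R) (v4295 R) (s4295 R) :=
  B.and (e4269 R) (e4294 R)

noncomputable def s4296 (R : VR) (i : ℕ) : Bool :=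
  V2.dis R (s4258 R) (s4264 R i)

theorem e4296 (R : VR) : B (VR.S R) (v4295 R) (s4296 R) :=
  e4295 R

noncomputable def s4297 (R : VR) (i : ℕ) : Bool :=
  K.WR_dis (VR.WR R) (s4258 R) (s4264 R i)

theorem e4297 (R : VR) : B (VR.S R) (v4295 R) (s4297 R) :=
  B.of_eq (e4296 R) (fun i hi => V2.disr_eq R (s4258 R) (s4264 R i))

noncomputable def v4298 (R : VR) : ℕ :=
  Nat.land (Bool.rec (motive := fun _ => ℕ) (nat_lit 0) (Nat.shiftRight (Nat.land (Nat.sub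
    (Nat.add (v4263 R) (VR.h1 R)) (v4122 R)) (VR.h1 R)) (nat_lit 15)) (Nat.ble (v868 R) (v4257
    R))) (Nat.land (Nat.sub (VR.o1 R) (Nat.shiftRight (Nat.land (Nat.sub (VR.h1 R) (Nat.xor
    (Nat.mul (VR.o1 R) (v4257 R)) (v4263 R))) (VR.h1 R)) (nat_lit 15))) (v4294 R))

noncomputable def s4298 (R : VR) (i : ℕ) : Bool :=
  K.band (s4266 R i) (s4297 R i)

theorem e4298 (R : VR) : B (VR.S R) (v4298 R) (s4298 R) :=
  B.and (e4266 R) (e4297 R)

noncomputable def v4299 (R : VR) : ℕ :=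
  Nat.lor (Nat.lor (v4236 R) (v4248 R)) (Nat.land (Bool.rec (motive := fun _ => ℕ) (nat_lit 0)
    (Nat.shiftRight (Nat.land (Nat.sub (Nat.add (v4263 R) (VR.h1 R)) (v4122 R)) (VR.h1 R))
    (nat_lit 15)) (Nat.ble (v868 R) (v4257 R))) (Nat.land (Nat.sub (VR.o1 R) (Nat.shiftRight
    (Nat.land (Nat.sub (VR.h1 R) (Nat.xor (Nat.mul (VR.o1 R) (v4257 R)) (v4263 R))) (VR.h1 R))
    (nat_lit 15))) (v4294 R)))

noncomputable def s4299 (R : VR) (i : ℕ) : Bool :=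
  K.bor (s4250 R i) (s4298 R i)

theorem e4299 (R : VR) : B (VR.S R) (v4299 R) (s4299 R) :=
  B.or (e4250 R) (e4298 R)

noncomputable def s4300 (R : VR) (i : ℕ) : Bool :=
  K.WR_fd (VR.WR R) (s4218 R) i

theorem e4300 (R : VR) : B (VR.S R) (v4299 R) (s4300 R) :=
  e4299 R

noncomputable def v4301 (R : VR) : ℕ :=
  Bool.rec (motive := fun _ => ℕ) (Nat.lor (Nat.lor (v4236 R) (v4248 R)) (Nat.land (Bool.rec
    (motive := fun _ => ℕ) (nat_lit 0) (Nat.shiftRight (Nat.land (Nat.sub (Nat.add (v4263 R)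
    (VR.h1 R)) (v4122 R)) (VR.h1 R)) (nat_lit 15)) (Nat.ble (v868 R) (v4257 R))) (Nat.land
    (Nat.sub (VR.o1 R) (Nat.shiftRight (Nat.land (Nat.sub (VR.h1 R) (Nat.xor (Nat.mul (VR.o1 R)
    (v4257 R)) (v4263 R))) (VR.h1 R)) (nat_lit 15))) (v4294 R)))) (VR.o1 R) (v4217 R)

noncomputable def s4301 (R : VR) (i : ℕ) : Bool :=
  K.bor (s4217 R) (s4300 R i)

theorem e4301 (R : VR) : B (VR.S R) (v4301 R) (s4301 R) :=
  B.gor (VR.o1e R) (e4217 R) (e4300 R)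

noncomputable def v4302 (R : VR) : ℕ :=
  Nat.land (Nat.lor (Nat.lor (Nat.shiftRight (Nat.land (Nat.sub (VR.h1 R) (Nat.xor (v4206 R) (v267
    R))) (VR.h1 R)) (nat_lit 15)) (Nat.shiftRight (Nat.land (Nat.sub (VR.h1 R) (Nat.xor (v4206 R)
    (v359 R))) (VR.h1 R)) (nat_lit 15))) (Nat.land (v1258 R) (Nat.shiftRight (Nat.land (Nat.add
    (v4197 R) (VR.k1 R)) (VR.h1 R)) (nat_lit 15)))) (v4301 R)

noncomputable def s4302 (R : VR) (i : ℕ) : Bool :=
  K.band (s4216 R i) (s4301 R i)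

theorem e4302 (R : VR) : B (VR.S R) (v4302 R) (s4302 R) :=
  B.and (e4216 R) (e4301 R)

noncomputable def v4303 (R : VR) : ℕ :=
  Nat.lor (v1745 R) (Nat.land (Nat.lor (Nat.lor (Nat.shiftRight (Nat.land (Nat.sub (VR.h1 R)
    (Nat.xor (v4206 R) (v267 R))) (VR.h1 R)) (nat_lit 15)) (Nat.shiftRight (Nat.land (Nat.sub
    (VR.h1 R) (Nat.xor (v4206 R) (v359 R))) (VR.h1 R)) (nat_lit 15))) (Nat.land (v1258 R)
    (Nat.shiftRight (Nat.land (Nat.add (v4197 R) (VR.k1 R)) (VR.h1 R)) (nat_lit 15)))) (v4301 R))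

noncomputable def s4303 (R : VR) (i : ℕ) : Bool :=
  K.bor (s1745 R i) (s4302 R i)

theorem e4303 (R : VR) : B (VR.S R) (v4303 R) (s4303 R) :=
  B.or (e1745 R) (e4302 R)

noncomputable def v4304 (R : VR) : ℕ :=
  Nat.land (Nat.land (Nat.lor (VR.luT R) (Nat.land (Nat.sub (VR.o1 R) (v1219 R)) (Nat.sub (VR.o1
    R) (Nat.xor (VR.lbT R) (v1231 R))))) (Nat.lor (v1253 R) (v4180 R))) (Nat.lor (v1745 R)
    (Nat.land (Nat.lor (Nat.lor (Nat.shiftRight (Nat.land (Nat.sub (VR.h1 R) (Nat.xor (v4206 R)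
    (v267 R))) (VR.h1 R)) (nat_lit 15)) (Nat.shiftRight (Nat.land (Nat.sub (VR.h1 R) (Nat.xor
    (v4206 R) (v359 R))) (VR.h1 R)) (nat_lit 15))) (Nat.land (v1258 R) (Nat.shiftRight (Nat.land
    (Nat.add (v4197 R) (VR.k1 R)) (VR.h1 R)) (nat_lit 15)))) (v4301 R)))

noncomputable def s4304 (R : VR) (i : ℕ) : Bool :=
  K.band (s4182 R i) (s4303 R i)

theorem e4304 (R : VR) : B (VR.S R) (v4304 R) (s4304 R) :=
  B.and (e4182 R) (e4303 R)

noncomputable def v4305 (R : VR) : ℕ :=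
  Nat.lor (v432 R) (v1127 R)

noncomputable def s4305 (R : VR) (i : ℕ) : Bool :=
  K.bor (s432 R i) (s1127 R i)

theorem e4305 (R : VR) : B (VR.S R) (v4305 R) (s4305 R) :=
  B.or (e432 R) (e1127 R)

noncomputable def v4306 (R : VR) : ℕ :=
  Nat.lor (Nat.lor (v432 R) (v1127 R)) (VR.luT R)

noncomputable def s4306 (R : VR) (i : ℕ) : Bool :=
  K.bor (s4305 R i) (s1125 R i)

theorem e4306 (R : VR) : B (VR.S R) (v4306 R) (s4306 R) :=
  B.or (e4305 R) (e1125 R)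

noncomputable def s4307 (R : VR) (j i : ℕ) : Bool :=
  K.WR_dis (VR.WR R) (s7 R j) (s193 R i)

theorem e4307 (R : VR) : B2 R (v1173 R) (s4307 R) :=
  B.of_eq (e1174 R) (fun t ht => V2.disr_eq R (s7 R (t / VR.S R)) (s193 R (t % VR.S R)))

noncomputable def v4308 (R : VR) : ℕ :=
  Nat.lor (v1300 R) (v1173 R)

noncomputable def s4308 (R : VR) (j i : ℕ) : Bool :=
  K.bor (s1300 R j i) (s4307 R j i)

theorem e4308 (R : VR) : B2 R (v4308 R) (s4308 R) :=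
  B.or (e1300 R) (e4307 R)

noncomputable def s4309 (R : VR) (j i : ℕ) : Bool :=
  K.WR_dis (VR.WR R) (s193 R j) (s7 R i)

theorem e4309 (R : VR) : B2 R (v1207 R) (s4309 R) :=
  B.of_eq (e1208 R) (fun t ht => V2.disr_eq R (s193 R (t / VR.S R)) (s7 R (t % VR.S R)))

noncomputable def v4310 (R : VR) : ℕ :=
  Nat.lor (Nat.lor (v1300 R) (v1173 R)) (v1207 R)

noncomputable def s4310 (R : VR) (j i : ℕ) : Bool :=
  K.bor (s4308 R j i) (s4309 R j i)

theorem e4310 (R : VR) : B2 R (v4310 R) (s4310 R) :=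
  B.or (e4308 R) (e4309 R)

noncomputable def v4311 (R : VR) : ℕ :=
  Nat.shiftRight (Nat.land (Nat.sub (VR.h1 R) (Nat.mod (Nat.land (Nat.sub (VR.o2 R) (Nat.lor
    (Nat.lor (v1300 R) (v1173 R)) (v1207 R))) (mM (Nat.mul (v112 R) (VR.S R)))) (VR.m1 R))) (VR.h1
    R)) (nat_lit 15)

noncomputable def s4311 (R : VR) (i : ℕ) : Bool :=
  K.allN (s112 R) (fun j => (s4310 R j i))

theorem e4311 (R : VR) : B (VR.S R) (v4311 R) (s4311 R) :=
  B.all (e4310 R) (VR.n_le R)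

noncomputable def s4312 (R : VR) (i : ℕ) : Bool :=
  K.allN (s112 R) (fun (x209 : ℕ) => (K.bor (K.bor (K.bnot (FC6.Pa.real (FC7.Fr.P (FC7.WR.F (VR.WR
    R))) x209)) (K.WR_dis (VR.WR R) (FC6.Pa.l (FC7.Fr.P (FC7.WR.F (VR.WR R))) x209) (FC6.Pa.l
    (FC7.Fr.P (FC7.WR.F (VR.WR R))) (FC6.Pa.φ (FC7.Fr.P (FC7.WR.F (VR.WR R))) i)))) (K.WR_dis
    (VR.WR R) (FC6.Pa.l (FC7.Fr.P (FC7.WR.F (VR.WR R))) (FC6.Pa.φ (FC7.Fr.P (FC7.WR.F (VR.WR R)))
    x209)) (FC6.Pa.l (FC7.Fr.P (FC7.WR.F (VR.WR R))) i))))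

theorem e4312 (R : VR) : B (VR.S R) (v4311 R) (s4312 R) :=
  e4311 R

noncomputable def v4313 (R : VR) : ℕ :=
  Nat.lor (Nat.lor (Nat.lor (v432 R) (v1127 R)) (VR.luT R)) (Nat.shiftRight (Nat.land (Nat.sub
    (VR.h1 R) (Nat.mod (Nat.land (Nat.sub (VR.o2 R) (Nat.lor (Nat.lor (v1300 R) (v1173 R)) (v1207
    R))) (mM (Nat.mul (v112 R) (VR.S R)))) (VR.m1 R))) (VR.h1 R)) (nat_lit 15))

noncomputable def s4313 (R : VR) (i : ℕ) : Bool :=
  K.bor (s4306 R i) (s4312 R i)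

theorem e4313 (R : VR) : B (VR.S R) (v4313 R) (s4313 R) :=
  B.or (e4306 R) (e4312 R)

noncomputable def v4314 (R : VR) : ℕ :=
  Nat.land (v4304 R) (Nat.lor (Nat.lor (Nat.lor (v432 R) (v1127 R)) (VR.luT R)) (Nat.shiftRight
    (Nat.land (Nat.sub (VR.h1 R) (Nat.mod (Nat.land (Nat.sub (VR.o2 R) (Nat.lor (Nat.lor (v1300 R)
    (v1173 R)) (v1207 R))) (mM (Nat.mul (v112 R) (VR.S R)))) (VR.m1 R))) (VR.h1 R)) (nat_lit 15)))

noncomputable def s4314 (R : VR) (i : ℕ) : Bool :=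
  K.band (s4304 R i) (s4313 R i)

theorem e4314 (R : VR) : B (VR.S R) (v4314 R) (s4314 R) :=
  B.and (e4304 R) (e4313 R)

noncomputable def v4315 (R : VR) : Bool :=
  Nat.beq (Nat.land (Nat.sub (VR.o1 R) (Nat.land (v4304 R) (Nat.lor (Nat.lor (Nat.lor (v432 R)
    (v1127 R)) (VR.luT R)) (Nat.shiftRight (Nat.land (Nat.sub (VR.h1 R) (Nat.mod (Nat.land
    (Nat.sub (VR.o2 R) (Nat.lor (Nat.lor (v1300 R) (v1173 R)) (v1207 R))) (mM (Nat.mul (v112 R)
    (VR.S R)))) (VR.m1 R))) (VR.h1 R)) (nat_lit 15))))) (mM (v112 R))) (nat_lit 0)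

noncomputable def s4315 (R : VR) : Bool :=
  K.allN (s112 R) (s4314 R)

theorem e4315 (R : VR) : (v4315 R) = s4315 R :=
  all0 (e4314 R) (VR.n_le R)

noncomputable def s4316 (R : VR) : Bool :=
  K.allN (s112 R) (fun (x210 : ℕ) => (K.band (K.band (K.band (K.bor (FC7.Fr.lu (FC7.WR.F (VR.WR
    R)) x210) (K.band (K.bnot (K.Wt_lun (FC7.WR.toWt (VR.WR R)) (FC6.Sp.rk (FC6.Stars.Q (FC7.Wt.Z
    (FC7.WR.toWt (VR.WR R)))) x210) (FC6.Sp.rj (FC6.Stars.Q (FC7.Wt.Z (FC7.WR.toWt (VR.WR R))))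
    x210))) (K.beqB (FC7.Fr.lb (FC7.WR.F (VR.WR R)) x210) (K.Wt_lb (FC7.WR.toWt (VR.WR R))
    (FC6.Sp.rk (FC6.Stars.Q (FC7.Wt.Z (FC7.WR.toWt (VR.WR R)))) x210) (FC6.Sp.rj (FC6.Stars.Q
    (FC7.Wt.Z (FC7.WR.toWt (VR.WR R)))) x210))))) (K.bor (K.bnot (FC7.Fr.nu (FC7.WR.F (VR.WR R))
    x210)) (K.band (K.Wt_kn (FC7.WR.toWt (VR.WR R)) (FC6.Sp.rk (FC6.Stars.Q (FC7.Wt.Z (FC7.WR.toWt
    (VR.WR R)))) x210) (FC6.Sp.rj (FC6.Stars.Q (FC7.Wt.Z (FC7.WR.toWt (VR.WR R)))) x210)) (Nat.beq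
    (K.Wt_un (FC7.WR.toWt (VR.WR R)) (FC6.Sp.rk (FC6.Stars.Q (FC7.Wt.Z (FC7.WR.toWt (VR.WR R))))
    x210) (FC6.Sp.rj (FC6.Stars.Q (FC7.Wt.Z (FC7.WR.toWt (VR.WR R)))) x210)) (nat_lit 0)))))
    (K.bor (K.bnot (FC7.Fr.rq (FC7.WR.F (VR.WR R)) x210)) (K.band (K.WR_rqf (VR.WR R) x210) (K.bor
    (FC7.Fr.lab (FC7.WR.F (VR.WR R))) (K.WR_fd (VR.WR R) (FC7.Fr.dr (FC7.WR.F (VR.WR R)))
    x210))))) (K.bor (K.bor (K.bor (K.bnot (Nat.beq (FC6.Pa.α (FC7.Fr.P (FC7.WR.F (VR.WR R)))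
    x210) x210)) (K.bnot (FC7.Fr.lb (FC7.WR.F (VR.WR R)) x210))) (FC7.Fr.lu (FC7.WR.F (VR.WR R))
    x210)) (K.allN (FC6.Pa.n (FC7.Fr.P (FC7.WR.F (VR.WR R)))) (fun (x211 : ℕ) => (K.bor (K.bor
    (K.bnot (FC6.Pa.real (FC7.Fr.P (FC7.WR.F (VR.WR R))) x211)) (K.WR_dis (VR.WR R) (FC6.Pa.l
    (FC7.Fr.P (FC7.WR.F (VR.WR R))) x211) (FC6.Pa.l (FC7.Fr.P (FC7.WR.F (VR.WR R))) (FC6.Pa.φ
    (FC7.Fr.P (FC7.WR.F (VR.WR R))) x210)))) (K.WR_dis (VR.WR R) (FC6.Pa.l (FC7.Fr.P (FC7.WR.F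
    (VR.WR R))) (FC6.Pa.φ (FC7.Fr.P (FC7.WR.F (VR.WR R))) x211)) (FC6.Pa.l (FC7.Fr.P (FC7.WR.F
    (VR.WR R))) x210))))))))

theorem e4316 (R : VR) : (v4315 R) = s4316 R :=
  e4315 R

noncomputable def s4317 (R : VR) : Bool :=
  K.WR_chkD (VR.WR R)

theorem e4317 (R : VR) : (v4315 R) = s4317 R :=
  e4316 R

noncomputable def c_rD (R : VR) : Bool :=
  (Nat.beq (Nat.land (Nat.sub (VR.o1 R) (Nat.land (v4304 R) (Nat.lor (Nat.lor (Nat.lor (v432 R)
    (v1127 R)) (VR.luT R)) (Nat.shiftRight (Nat.land (Nat.sub (VR.h1 R) (Nat.mod (Nat.land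
    (Nat.sub (VR.o2 R) (Nat.lor (Nat.lor (v1300 R) (v1173 R)) (v1207 R))) (mM (Nat.mul (v112 R)
    (VR.S R)))) (VR.m1 R))) (VR.h1 R)) (nat_lit 15))))) (mM (v112 R))) (nat_lit 0))

theorem c_rD_eq (R : VR) : c_rD R = (K.WR_chkD (VR.WR R)) :=
  e4317 R

noncomputable def v4318 (R : VR) : Bool :=
  Nat.ble (Nat.succ (v4218 R)) (v112 R)

noncomputable def s4318 (R : VR) : Bool :=
  Nat.ble (Nat.succ (s4218 R)) (s112 R)

theorem e4318 (R : VR) : (v4318 R) = s4318 R :=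
  congrArg₂ Nat.ble (congrArg Nat.succ (e4218 R)) (e112 R)

noncomputable def v4319 (R : VR) : Bool :=
  tf (VR.lbT R) (v4218 R)

noncomputable def s4319 (R : VR) : Bool :=
  tf (VR.lbT R) (s4218 R)

theorem e4319 (R : VR) : (v4319 R) = s4319 R :=
  congrArg (tf (VR.lbT R)) (e4218 R)

noncomputable def v4320 (R : VR) : Bool :=
  tf (VR.luT R) (v4218 R)

noncomputable def s4320 (R : VR) : Bool :=
  tf (VR.luT R) (s4218 R)

theorem e4320 (R : VR) : (v4320 R) = s4320 R :=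
  congrArg (tf (VR.luT R)) (e4218 R)

noncomputable def v4321 (R : VR) : Bool :=
  K.bnot (tf (VR.luT R) (v4218 R))

noncomputable def s4321 (R : VR) : Bool :=
  K.bnot (s4320 R)

theorem e4321 (R : VR) : (v4321 R) = s4321 R :=
  congrArg K.bnot (e4320 R)

noncomputable def v4322 (R : VR) : Bool :=
  K.band (tf (VR.lbT R) (v4218 R)) (K.bnot (tf (VR.luT R) (v4218 R)))

noncomputable def s4322 (R : VR) : Bool :=
  K.band (s4319 R) (s4321 R)

theorem e4322 (R : VR) : (v4322 R) = s4322 R :=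
  congrArg₂ K.band (e4319 R) (e4321 R)

noncomputable def v4323 (R : VR) : ℕ :=
  tx (VR.rkT R) (v4218 R)

noncomputable def s4323 (R : VR) : ℕ :=
  tx (VR.rkT R) (s4218 R)

theorem e4323 (R : VR) : (v4323 R) = s4323 R :=
  congrArg (tx (VR.rkT R)) (e4218 R)

theorem b4323 (R : VR) : s4323 R ≤ 255 :=
  VR.rk_le R _

noncomputable def v4324 (R : VR) : ℕ :=
  tx (VR.rjT R) (v4218 R)

noncomputable def s4324 (R : VR) : ℕ :=
  tx (VR.rjT R) (s4218 R)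

theorem e4324 (R : VR) : (v4324 R) = s4324 R :=
  congrArg (tx (VR.rjT R)) (e4218 R)

theorem b4324 (R : VR) : s4324 R ≤ 255 :=
  VR.rj_le R _

noncomputable def v4325 (R : VR) : Bool :=
  tf (VR.rlT R) (v4324 R)

noncomputable def s4325 (R : VR) : Bool :=
  tf (VR.rlT R) (s4324 R)

theorem e4325 (R : VR) : (v4325 R) = s4325 R :=
  congrArg (tf (VR.rlT R)) (e4324 R)

noncomputable def v4326 (R : VR) : Bool :=
  Nat.beq (tx (VR.rkT R) (v4218 R)) (v226 R)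

noncomputable def s4326 (R : VR) : Bool :=
  Nat.beq (s4323 R) (s226 R)

theorem e4326 (R : VR) : (v4326 R) = s4326 R :=
  congrArg₂ Nat.beq (e4323 R) (e226 R)

noncomputable def v4327 (R : VR) : ℕ :=
  tx (VR.rhoT R) (v4324 R)

noncomputable def s4327 (R : VR) : ℕ :=
  tx (VR.rhoT R) (s4324 R)

theorem e4327 (R : VR) : (v4327 R) = s4327 R :=
  congrArg (tx (VR.rhoT R)) (e4324 R)

theorem b4327 (R : VR) : s4327 R ≤ 255 :=
  VR.rho_le R _

noncomputable def v4328 (R : VR) : Bool :=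
  tf (VR.rlT R) (tx (VR.rhoT R) (v4324 R))

noncomputable def s4328 (R : VR) : Bool :=
  tf (VR.rlT R) (s4327 R)

theorem e4328 (R : VR) : (v4328 R) = s4328 R :=
  congrArg (tf (VR.rlT R)) (e4327 R)

noncomputable def v4329 (R : VR) : ℕ :=
  tx (VR.rhiT R) (v4324 R)

noncomputable def s4329 (R : VR) : ℕ :=
  tx (VR.rhiT R) (s4324 R)

theorem e4329 (R : VR) : (v4329 R) = s4329 R :=
  congrArg (tx (VR.rhiT R)) (e4324 R)

theorem b4329 (R : VR) : s4329 R ≤ 255 :=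
  VR.rhi_le R _

noncomputable def v4330 (R : VR) : Bool :=
  tf (VR.rlT R) (v4329 R)

noncomputable def s4330 (R : VR) : Bool :=
  tf (VR.rlT R) (s4329 R)

theorem e4330 (R : VR) : (v4330 R) = s4330 R :=
  congrArg (tf (VR.rlT R)) (e4329 R)

noncomputable def v4331 (R : VR) : Bool :=
  Bool.rec (motive := fun _ => Bool) (v4330 R) (tf (VR.rlT R) (tx (VR.rhoT R) (v4324 R))) (v4326
    R)

noncomputable def s4331 (R : VR) : Bool :=
  Bool.rec (motive := fun _ => Bool) (s4330 R) (s4328 R) (s4326 R)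

theorem e4331 (R : VR) : (v4331 R) = s4331 R :=
  rec_congr (e4330 R) (e4328 R) (e4326 R)

noncomputable def v4332 (R : VR) : Bool :=
  K.band (v4325 R) (Bool.rec (motive := fun _ => Bool) (v4330 R) (tf (VR.rlT R) (tx (VR.rhoT R)
    (v4324 R))) (v4326 R))

noncomputable def s4332 (R : VR) : Bool :=
  K.band (s4325 R) (s4331 R)

theorem e4332 (R : VR) : (v4332 R) = s4332 R :=
  congrArg₂ K.band (e4325 R) (e4331 R)

noncomputable def s4333 (R : VR) : Bool :=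
  K.Wt_sol (FC7.WR.toWt (VR.WR R)) (s4323 R) (s4324 R)

theorem e4333 (R : VR) : (v4332 R) = s4333 R :=
  e4332 R

noncomputable def v4334 (R : VR) : ℕ :=
  tx (VR.caT R) (v4324 R)

noncomputable def s4334 (R : VR) : ℕ :=
  tx (VR.caT R) (s4324 R)

theorem e4334 (R : VR) : (v4334 R) = s4334 R :=
  congrArg (tx (VR.caT R)) (e4324 R)

theorem b4334 (R : VR) : s4334 R ≤ 255 :=
  VR.ca_le R _

noncomputable def v4335 (R : VR) : Bool :=
  Nat.ble (Nat.succ (tx (VR.caT R) (v4324 R))) (v624 R)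

noncomputable def s4335 (R : VR) : Bool :=
  Nat.ble (Nat.succ (s4334 R)) (s624 R)

theorem e4335 (R : VR) : (v4335 R) = s4335 R :=
  congrArg₂ Nat.ble (congrArg Nat.succ (e4334 R)) (e624 R)

noncomputable def v4336 (R : VR) : Bool :=
  K.bnot (v4335 R)

noncomputable def s4336 (R : VR) : Bool :=
  K.bnot (s4335 R)

theorem e4336 (R : VR) : (v4336 R) = s4336 R :=
  congrArg K.bnot (e4335 R)

noncomputable def v4337 (R : VR) : ℕ :=
  tx (VR.ltT R) (v4324 R)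

noncomputable def s4337 (R : VR) : ℕ :=
  tx (VR.ltT R) (s4324 R)

theorem e4337 (R : VR) : (v4337 R) = s4337 R :=
  congrArg (tx (VR.ltT R)) (e4324 R)

theorem b4337 (R : VR) : s4337 R ≤ 32767 :=
  VR.lt_le R _

noncomputable def v4338 (R : VR) : ℕ :=
  tx (VR.ltT R) (v4329 R)

noncomputable def s4338 (R : VR) : ℕ :=
  tx (VR.ltT R) (s4329 R)

theorem e4338 (R : VR) : (v4338 R) = s4338 R :=
  congrArg (tx (VR.ltT R)) (e4329 R)

theorem b4338 (R : VR) : s4338 R ≤ 32767 :=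
  VR.lt_le R _

noncomputable def v4339 (R : VR) : ℕ :=
  Bool.rec (motive := fun _ => ℕ) (tx (VR.ltT R) (v4329 R)) (v4337 R) (v4325 R)

noncomputable def s4339 (R : VR) : ℕ :=
  Bool.rec (motive := fun _ => ℕ) (s4338 R) (s4337 R) (s4325 R)

theorem e4339 (R : VR) : (v4339 R) = s4339 R :=
  rec_congr (e4338 R) (e4337 R) (e4325 R)

theorem b4339 (R : VR) : s4339 R ≤ 32767 :=
  rec_le (b4338 R) (b4337 R) (by decide) (by decide)

noncomputable def v4340 (R : VR) : ℕ :=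
  tx (VR.rhiT R) (v4329 R)

noncomputable def s4340 (R : VR) : ℕ :=
  tx (VR.rhiT R) (s4329 R)

theorem e4340 (R : VR) : (v4340 R) = s4340 R :=
  congrArg (tx (VR.rhiT R)) (e4329 R)

theorem b4340 (R : VR) : s4340 R ≤ 255 :=
  VR.rhi_le R _

noncomputable def v4341 (R : VR) : ℕ :=
  Bool.rec (motive := fun _ => ℕ) (tx (VR.rhiT R) (v4329 R)) (v4329 R) (v4330 R)

noncomputable def s4341 (R : VR) : ℕ :=
  Bool.rec (motive := fun _ => ℕ) (s4340 R) (s4329 R) (s4330 R)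

theorem e4341 (R : VR) : (v4341 R) = s4341 R :=
  rec_congr (e4340 R) (e4329 R) (e4330 R)

theorem b4341 (R : VR) : s4341 R ≤ 255 :=
  rec_le (b4340 R) (b4329 R) (by decide) (by decide)

noncomputable def s4342 (R : VR) : ℕ :=
  K.Wt_prv (FC7.WR.toWt (VR.WR R)) (s4324 R)

theorem e4342 (R : VR) : (v4341 R) = s4342 R :=
  e4341 R

theorem b4342 (R : VR) : s4342 R ≤ 255 := (b4341 R)

noncomputable def v4343 (R : VR) : ℕ :=
  tx (VR.ltT R) (Bool.rec (motive := fun _ => ℕ) (tx (VR.rhiT R) (v4329 R)) (v4329 R) (v4330 R))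

noncomputable def s4343 (R : VR) : ℕ :=
  tx (VR.ltT R) (s4342 R)

theorem e4343 (R : VR) : (v4343 R) = s4343 R :=
  congrArg (tx (VR.ltT R)) (e4342 R)

theorem b4343 (R : VR) : s4343 R ≤ 32767 :=
  VR.lt_le R _

noncomputable def v4344 (R : VR) : ℕ :=
  Bool.rec (motive := fun _ => ℕ) (tx (VR.ltT R) (Bool.rec (motive := fun _ => ℕ) (tx (VR.rhiT R)
    (v4329 R)) (v4329 R) (v4330 R))) (Bool.rec (motive := fun _ => ℕ) (tx (VR.ltT R) (v4329 R))
    (v4337 R) (v4325 R)) (v4326 R)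

noncomputable def s4344 (R : VR) : ℕ :=
  Bool.rec (motive := fun _ => ℕ) (s4343 R) (s4339 R) (s4326 R)

theorem e4344 (R : VR) : (v4344 R) = s4344 R :=
  rec_congr (e4343 R) (e4339 R) (e4326 R)

theorem b4344 (R : VR) : s4344 R ≤ 32767 :=
  rec_le (b4343 R) (b4339 R) (by decide) (by decide)

noncomputable def v4345 (R : VR) : ℕ :=
  Bool.rec (motive := fun _ => ℕ) (Bool.rec (motive := fun _ => ℕ) (tx (VR.ltT R) (Bool.rec
    (motive := fun _ => ℕ) (tx (VR.rhiT R) (v4329 R)) (v4329 R) (v4330 R))) (Bool.rec (motive :=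
    fun _ => ℕ) (tx (VR.ltT R) (v4329 R)) (v4337 R) (v4325 R)) (v4326 R)) (v4337 R) (K.bnot (v4335
    R))

noncomputable def s4345 (R : VR) : ℕ :=
  Bool.rec (motive := fun _ => ℕ) (s4344 R) (s4337 R) (s4336 R)

theorem e4345 (R : VR) : (v4345 R) = s4345 R :=
  rec_congr (e4344 R) (e4337 R) (e4336 R)

theorem b4345 (R : VR) : s4345 R ≤ 32767 :=
  rec_le (b4344 R) (b4337 R) (by decide) (by decide)

noncomputable def s4346 (R : VR) : ℕ :=
  K.Wt_fl (FC7.WR.toWt (VR.WR R)) (s4323 R) (s4324 R)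

theorem e4346 (R : VR) : (v4345 R) = s4346 R :=
  e4345 R

theorem b4346 (R : VR) : s4346 R ≤ 32767 := (b4345 R)

noncomputable def v4347 (R : VR) : ℕ :=
  Nat.mod (Nat.div (v4345 R) (nat_lit 4)) (nat_lit 4)

noncomputable def s4347 (R : VR) : ℕ :=
  Nat.mod (Nat.div (s4346 R) (nat_lit 4)) (nat_lit 4)

theorem e4347 (R : VR) : (v4347 R) = s4347 R :=
  congrArg (fun z => Nat.mod (Nat.div z (nat_lit 4)) (nat_lit 4)) (e4346 R)

theorem b4347 (R : VR) : s4347 R ≤ 3 :=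
  by unfold s4347; exact Nat.le_of_lt_succ (Nat.mod_lt _ (by decide))

noncomputable def s4348 (R : VR) : ℕ :=
  K.wb (s4346 R)

theorem e4348 (R : VR) : (v4347 R) = s4348 R :=
  e4347 R

theorem b4348 (R : VR) : s4348 R ≤ 3 := (b4347 R)

noncomputable def v4349 (R : VR) : Bool :=
  Nat.beq (v4347 R) (v242 R)

noncomputable def s4349 (R : VR) : Bool :=
  Nat.beq (s4348 R) (s242 R)

theorem e4349 (R : VR) : (v4349 R) = s4349 R :=
  congrArg₂ Nat.beq (e4348 R) (e242 R)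

noncomputable def v4350 (R : VR) : ℕ :=
  Nat.mod (Nat.div (v4345 R) (nat_lit 16)) (nat_lit 4)

noncomputable def s4350 (R : VR) : ℕ :=
  Nat.mod (Nat.div (s4346 R) (nat_lit 16)) (nat_lit 4)

theorem e4350 (R : VR) : (v4350 R) = s4350 R :=
  congrArg (fun z => Nat.mod (Nat.div z (nat_lit 16)) (nat_lit 4)) (e4346 R)

theorem b4350 (R : VR) : s4350 R ≤ 3 :=
  by unfold s4350; exact Nat.le_of_lt_succ (Nat.mod_lt _ (by decide))

noncomputable def s4351 (R : VR) : ℕ :=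
  K.wc (s4346 R)

theorem e4351 (R : VR) : (v4350 R) = s4351 R :=
  e4350 R

theorem b4351 (R : VR) : s4351 R ≤ 3 := (b4350 R)

noncomputable def v4352 (R : VR) : Bool :=
  Nat.beq (v4350 R) (v242 R)

noncomputable def s4352 (R : VR) : Bool :=
  Nat.beq (s4351 R) (s242 R)

theorem e4352 (R : VR) : (v4352 R) = s4352 R :=
  congrArg₂ Nat.beq (e4351 R) (e242 R)

noncomputable def v4353 (R : VR) : Bool :=
  K.band (Nat.beq (v4347 R) (v242 R)) (Nat.beq (v4350 R) (v242 R))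

noncomputable def s4353 (R : VR) : Bool :=
  K.band (s4349 R) (s4352 R)

theorem e4353 (R : VR) : (v4353 R) = s4353 R :=
  congrArg₂ K.band (e4349 R) (e4352 R)

noncomputable def s4354 (R : VR) : Bool :=
  K.uo (s4346 R)

theorem e4354 (R : VR) : (v4353 R) = s4354 R :=
  e4353 R

noncomputable def v4355 (R : VR) : Bool :=
  K.tbit (v4345 R) (nat_lit 10)

noncomputable def s4355 (R : VR) : Bool :=
  K.tbit (s4346 R) (nat_lit 10)

theorem e4355 (R : VR) : (v4355 R) = s4355 R :=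
  congrArg (fun z => K.tbit z (nat_lit 10)) (e4346 R)

noncomputable def v4356 (R : VR) : ℕ :=
  Bool.rec (motive := fun _ => ℕ) (v23 R) (v259 R) (K.tbit (v4345 R) (nat_lit 10))

noncomputable def s4356 (R : VR) : ℕ :=
  Bool.rec (motive := fun _ => ℕ) (s23 R) (s259 R) (s4355 R)

theorem e4356 (R : VR) : (v4356 R) = s4356 R :=
  rec_congr (e23 R) (e259 R) (e4355 R)

theorem b4356 (R : VR) : s4356 R ≤ 2 :=
  rec_le (show s23 R ≤ 0 from le_refl (nat_lit 0)) (show s259 R ≤ 2 from le_refl (nat_lit 2)) (by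
    decide) (by decide)

noncomputable def v4357 (R : VR) : ℕ :=
  Nat.mod (v4345 R) (nat_lit 4)

noncomputable def s4357 (R : VR) : ℕ :=
  Nat.mod (s4346 R) (nat_lit 4)

theorem e4357 (R : VR) : (v4357 R) = s4357 R :=
  congrArg (fun z => Nat.mod z (nat_lit 4)) (e4346 R)

theorem b4357 (R : VR) : s4357 R ≤ 3 :=
  by unfold s4357; exact Nat.le_of_lt_succ (Nat.mod_lt _ (by decide))

noncomputable def s4358 (R : VR) : ℕ :=
  K.wa (s4346 R)

theorem e4358 (R : VR) : (v4357 R) = s4358 R :=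
  e4357 R

theorem b4358 (R : VR) : s4358 R ≤ 3 := (b4357 R)

noncomputable def v4359 (R : VR) : ℕ :=
  Nat.add (v4357 R) (v4347 R)

noncomputable def s4359 (R : VR) : ℕ :=
  Nat.add (s4358 R) (s4348 R)

theorem e4359 (R : VR) : (v4359 R) = s4359 R :=
  congrArg₂ Nat.add (e4358 R) (e4348 R)

theorem b4359 (R : VR) : s4359 R ≤ 6 :=
  Nat.add_le_add (b4358 R) (b4348 R)

noncomputable def v4360 (R : VR) : ℕ :=
  Nat.add (Nat.add (v4357 R) (v4347 R)) (v4350 R)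

noncomputable def s4360 (R : VR) : ℕ :=
  Nat.add (s4359 R) (s4351 R)

theorem e4360 (R : VR) : (v4360 R) = s4360 R :=
  congrArg₂ Nat.add (e4359 R) (e4351 R)

theorem b4360 (R : VR) : s4360 R ≤ 9 :=
  Nat.add_le_add (b4359 R) (b4351 R)

noncomputable def v4361 (R : VR) : Bool :=
  Nat.beq (v4360 R) (v23 R)

noncomputable def s4361 (R : VR) : Bool :=
  Nat.beq (s4360 R) (s23 R)

theorem e4361 (R : VR) : (v4361 R) = s4361 R :=
  congrArg₂ Nat.beq (e4360 R) (e23 R)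

noncomputable def v4362 (R : VR) : Bool :=
  Nat.ble (v4360 R) (v259 R)

noncomputable def s4362 (R : VR) : Bool :=
  Nat.ble (s4360 R) (s259 R)

theorem e4362 (R : VR) : (v4362 R) = s4362 R :=
  congrArg₂ Nat.ble (e4360 R) (e259 R)

noncomputable def v4363 (R : VR) : ℕ :=
  Bool.rec (motive := fun _ => ℕ) (v259 R) (v226 R) (Nat.ble (v4360 R) (v259 R))

noncomputable def s4363 (R : VR) : ℕ :=
  Bool.rec (motive := fun _ => ℕ) (s259 R) (s226 R) (s4362 R)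

theorem e4363 (R : VR) : (v4363 R) = s4363 R :=
  rec_congr (e259 R) (e226 R) (e4362 R)

theorem b4363 (R : VR) : s4363 R ≤ 2 :=
  rec_le (show s259 R ≤ 2 from le_refl (nat_lit 2)) (show s226 R ≤ 1 from le_refl (nat_lit 1)) (by
    decide) (by decide)

noncomputable def v4364 (R : VR) : ℕ :=
  Bool.rec (motive := fun _ => ℕ) (Bool.rec (motive := fun _ => ℕ) (v259 R) (v226 R) (Nat.ble
    (v4360 R) (v259 R))) (v242 R) (Nat.beq (v4360 R) (v23 R))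

noncomputable def s4364 (R : VR) : ℕ :=
  Bool.rec (motive := fun _ => ℕ) (s4363 R) (s242 R) (s4361 R)

theorem e4364 (R : VR) : (v4364 R) = s4364 R :=
  rec_congr (e4363 R) (e242 R) (e4361 R)

theorem b4364 (R : VR) : s4364 R ≤ 3 :=
  rec_le (b4363 R) (show s242 R ≤ 3 from le_refl (nat_lit 3)) (by decide) (by decide)

noncomputable def v4365 (R : VR) : ℕ :=
  Bool.rec (motive := fun _ => ℕ) (Bool.rec (motive := fun _ => ℕ) (Bool.rec (motive := fun _ =>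
    ℕ) (v259 R) (v226 R) (Nat.ble (v4360 R) (v259 R))) (v242 R) (Nat.beq (v4360 R) (v23 R)))
    (Bool.rec (motive := fun _ => ℕ) (v23 R) (v259 R) (K.tbit (v4345 R) (nat_lit 10))) (K.band
    (Nat.beq (v4347 R) (v242 R)) (Nat.beq (v4350 R) (v242 R)))

noncomputable def s4365 (R : VR) : ℕ :=
  Bool.rec (motive := fun _ => ℕ) (s4364 R) (s4356 R) (s4354 R)

theorem e4365 (R : VR) : (v4365 R) = s4365 R :=
  rec_congr (e4364 R) (e4356 R) (e4354 R)

theorem b4365 (R : VR) : s4365 R ≤ 3 :=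
  rec_le (b4364 R) (b4356 R) (by decide) (by decide)

noncomputable def v4366 (R : VR) : ℕ :=
  Bool.rec (motive := fun _ => ℕ) (v4347 R) (Bool.rec (motive := fun _ => ℕ) (Bool.rec (motive :=
    fun _ => ℕ) (Bool.rec (motive := fun _ => ℕ) (v259 R) (v226 R) (Nat.ble (v4360 R) (v259 R)))
    (v242 R) (Nat.beq (v4360 R) (v23 R))) (Bool.rec (motive := fun _ => ℕ) (v23 R) (v259 R)
    (K.tbit (v4345 R) (nat_lit 10))) (K.band (Nat.beq (v4347 R) (v242 R)) (Nat.beq (v4350 R) (v242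
    R)))) (K.band (v4325 R) (Bool.rec (motive := fun _ => Bool) (v4330 R) (tf (VR.rlT R) (tx
    (VR.rhoT R) (v4324 R))) (v4326 R)))

noncomputable def s4366 (R : VR) : ℕ :=
  Bool.rec (motive := fun _ => ℕ) (s4348 R) (s4365 R) (s4333 R)

theorem e4366 (R : VR) : (v4366 R) = s4366 R :=
  rec_congr (e4348 R) (e4365 R) (e4333 R)

theorem b4366 (R : VR) : s4366 R ≤ 3 :=
  rec_le (b4348 R) (b4365 R) (by decide) (by decide)

noncomputable def s4367 (R : VR) : ℕ :=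
  K.Wt_fc (FC7.WR.toWt (VR.WR R)) (s4323 R) (s4324 R)

theorem e4367 (R : VR) : (v4366 R) = s4367 R :=
  e4366 R

theorem b4367 (R : VR) : s4367 R ≤ 3 := (b4366 R)

noncomputable def s4368 (R : VR) : ℕ :=
  K.WR_fcl (VR.WR R) (s4218 R)

theorem e4368 (R : VR) : (v4366 R) = s4368 R :=
  e4367 R

theorem b4368 (R : VR) : s4368 R ≤ 3 := (b4367 R)

noncomputable def v4369 (R : VR) : Bool :=
  Nat.beq (v4366 R) (v226 R)

noncomputable def s4369 (R : VR) : Bool :=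
  Nat.beq (s4368 R) (s226 R)

theorem e4369 (R : VR) : (v4369 R) = s4369 R :=
  congrArg₂ Nat.beq (e4368 R) (e226 R)

noncomputable def v4370 (R : VR) : Bool :=
  Nat.beq (v4366 R) (v259 R)

noncomputable def s4370 (R : VR) : Bool :=
  Nat.beq (s4368 R) (s259 R)

theorem e4370 (R : VR) : (v4370 R) = s4370 R :=
  congrArg₂ Nat.beq (e4368 R) (e259 R)

noncomputable def v4371 (R : VR) : Bool :=
  K.bor (Nat.beq (v4366 R) (v226 R)) (Nat.beq (v4366 R) (v259 R))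

noncomputable def s4371 (R : VR) : Bool :=
  K.bor (s4369 R) (s4370 R)

theorem e4371 (R : VR) : (v4371 R) = s4371 R :=
  congrArg₂ K.bor (e4369 R) (e4370 R)

noncomputable def v4372 (R : VR) : Bool :=
  Nat.beq (v4357 R) (v23 R)

noncomputable def s4372 (R : VR) : Bool :=
  Nat.beq (s4358 R) (s23 R)

theorem e4372 (R : VR) : (v4372 R) = s4372 R :=
  congrArg₂ Nat.beq (e4358 R) (e23 R)

noncomputable def v4373 (R : VR) : Bool :=
  K.bnot (Nat.beq (v4357 R) (v23 R))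

noncomputable def s4373 (R : VR) : Bool :=
  K.bnot (s4372 R)

theorem e4373 (R : VR) : (v4373 R) = s4373 R :=
  congrArg K.bnot (e4372 R)

noncomputable def v4374 (R : VR) : Bool :=
  K.band (v4335 R) (K.bnot (Nat.beq (v4357 R) (v23 R)))

noncomputable def s4374 (R : VR) : Bool :=
  K.band (s4335 R) (s4373 R)

theorem e4374 (R : VR) : (v4374 R) = s4374 R :=
  congrArg₂ K.band (e4335 R) (e4373 R)

noncomputable def v4375 (R : VR) : Bool :=
  K.bor (K.bor (Nat.beq (v4366 R) (v226 R)) (Nat.beq (v4366 R) (v259 R))) (K.band (v4335 R)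
    (K.bnot (Nat.beq (v4357 R) (v23 R))))

noncomputable def s4375 (R : VR) : Bool :=
  K.bor (s4371 R) (s4374 R)

theorem e4375 (R : VR) : (v4375 R) = s4375 R :=
  congrArg₂ K.bor (e4371 R) (e4374 R)

noncomputable def s4376 (R : VR) : Bool :=
  K.WR_rqf (VR.WR R) (s4218 R)

theorem e4376 (R : VR) : (v4375 R) = s4376 R :=
  e4375 R

noncomputable def v4377 (R : VR) : Bool :=
  Bool.rec (motive := fun _ => Bool) (K.bor (K.bor (Nat.beq (v4366 R) (v226 R)) (Nat.beq (v4366 R)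
    (v259 R))) (K.band (v4335 R) (K.bnot (Nat.beq (v4357 R) (v23 R))))) (K.band (tf (VR.lbT R)
    (v4218 R)) (K.bnot (tf (VR.luT R) (v4218 R)))) (v4217 R)

noncomputable def s4377 (R : VR) : Bool :=
  Bool.rec (motive := fun _ => Bool) (s4376 R) (s4322 R) (s4217 R)

theorem e4377 (R : VR) : (v4377 R) = s4377 R :=
  rec_congr (e4376 R) (e4322 R) (e4217 R)

noncomputable def v4378 (R : VR) : Bool :=
  K.band (v4318 R) (Bool.rec (motive := fun _ => Bool) (K.bor (K.bor (Nat.beq (v4366 R) (v226 R))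
    (Nat.beq (v4366 R) (v259 R))) (K.band (v4335 R) (K.bnot (Nat.beq (v4357 R) (v23 R))))) (K.band
    (tf (VR.lbT R) (v4218 R)) (K.bnot (tf (VR.luT R) (v4218 R)))) (v4217 R))

noncomputable def s4378 (R : VR) : Bool :=
  K.band (s4318 R) (s4377 R)

theorem e4378 (R : VR) : (v4378 R) = s4378 R :=
  congrArg₂ K.band (e4318 R) (e4377 R)

noncomputable def s4379 (R : VR) : Bool :=
  K.WR_chkF (VR.WR R)

theorem e4379 (R : VR) : (v4378 R) = s4379 R :=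
  e4378 R

noncomputable def c_rF (R : VR) : Bool :=
  (K.band (v4318 R) (Bool.rec (motive := fun _ => Bool) (K.bor (K.bor (Nat.beq (v4366 R) (v226 R))
    (Nat.beq (v4366 R) (v259 R))) (K.band (v4335 R) (K.bnot (Nat.beq (v4357 R) (v23 R))))) (K.band
    (tf (VR.lbT R) (v4218 R)) (K.bnot (tf (VR.luT R) (v4218 R)))) (v4217 R)))

theorem c_rF_eq (R : VR) : c_rF R = (K.WR_chkF (VR.WR R)) :=
  e4379 R

noncomputable def v4380 (R : VR) : ℕ :=
  Nat.shiftRight (Nat.land (Nat.sub (Nat.add (v1331 R) (VR.h1 R)) (v4122 R)) (VR.h1 R)) (nat_lit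
    15)

noncomputable def s4380 (R : VR) (i : ℕ) : Bool :=
  Nat.ble (s4122 R i) (s1331 R i)

theorem e4380 (R : VR) : B (VR.S R) (v4380 R) (s4380 R) :=
  L.ble (VR.h1e R) (e4122 R) (e1331 R)

noncomputable def v4381 (R : VR) : ℕ :=
  Nat.land (Nat.shiftRight (Nat.land (Nat.sub (Nat.add (v1331 R) (VR.h1 R)) (v4122 R)) (VR.h1 R))
    (nat_lit 15)) (v1334 R)

noncomputable def s4381 (R : VR) (i : ℕ) : Bool :=
  K.band (s4380 R i) (s1334 R i)

theorem e4381 (R : VR) : B (VR.S R) (v4381 R) (s4381 R) :=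
  B.and (e4380 R) (e1334 R)

noncomputable def s4382 (R : VR) (j i : ℕ) : Bool :=
  K.WR_dis (VR.WR R) j (s1331 R i)

theorem e4382 (R : VR) : B2 R (v1363 R) (s4382 R) :=
  B.of_eq (e1364 R) (fun t ht => V2.disr_eq R (t / VR.S R) (s1331 R (t % VR.S R)))

noncomputable def v4383 (R : VR) : ℕ :=
  Nat.lor (v1337 R) (v1363 R)

noncomputable def s4383 (R : VR) (j i : ℕ) : Bool :=
  K.bor (s1337 R j i) (s4382 R j i)

theorem e4383 (R : VR) : B2 R (v4383 R) (s4383 R) :=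
  B.or (e1337 R) (e4382 R)

noncomputable def v4384 (R : VR) : ℕ :=
  Nat.shiftRight (Nat.land (Nat.sub (VR.h1 R) (Nat.mod (Nat.land (Nat.sub (VR.o2 R) (Nat.lor
    (v1337 R) (v1363 R))) (mM (Nat.mul (v866 R) (VR.S R)))) (VR.m1 R))) (VR.h1 R)) (nat_lit 15)

noncomputable def s4384 (R : VR) (i : ℕ) : Bool :=
  K.allN (s866 R) (fun j => (s4383 R j i))

theorem e4384 (R : VR) : B (VR.S R) (v4384 R) (s4384 R) :=
  B.all (e4383 R) (VR.nl_le R)

noncomputable def s4385 (R : VR) (i : ℕ) : Bool :=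
  K.allN (s866 R) (fun (x212 : ℕ) => (K.bor (Nat.beq x212 (s1331 R i)) (K.WR_dis (VR.WR R) x212
    (s1331 R i))))

theorem e4385 (R : VR) : B (VR.S R) (v4384 R) (s4385 R) :=
  e4384 R

noncomputable def v4386 (R : VR) : ℕ :=
  Nat.land (Nat.land (Nat.shiftRight (Nat.land (Nat.sub (Nat.add (v1331 R) (VR.h1 R)) (v4122 R))
    (VR.h1 R)) (nat_lit 15)) (v1334 R)) (Nat.shiftRight (Nat.land (Nat.sub (VR.h1 R) (Nat.mod
    (Nat.land (Nat.sub (VR.o2 R) (Nat.lor (v1337 R) (v1363 R))) (mM (Nat.mul (v866 R) (VR.S R))))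
    (VR.m1 R))) (VR.h1 R)) (nat_lit 15))

noncomputable def s4386 (R : VR) (i : ℕ) : Bool :=
  K.band (s4381 R i) (s4385 R i)

theorem e4386 (R : VR) : B (VR.S R) (v4386 R) (s4386 R) :=
  B.and (e4381 R) (e4385 R)

noncomputable def s4387 (R : VR) (i : ℕ) : Bool :=
  K.WR_hub (VR.WR R) (s1331 R i)

theorem e4387 (R : VR) : B (VR.S R) (v4386 R) (s4387 R) :=
  e4386 R

noncomputable def v4388 (R : VR) : ℕ :=
  Nat.land (v1328 R) (Nat.land (Nat.land (Nat.shiftRight (Nat.land (Nat.sub (Nat.add (v1331 R)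
    (VR.h1 R)) (v4122 R)) (VR.h1 R)) (nat_lit 15)) (v1334 R)) (Nat.shiftRight (Nat.land (Nat.sub
    (VR.h1 R) (Nat.mod (Nat.land (Nat.sub (VR.o2 R) (Nat.lor (v1337 R) (v1363 R))) (mM (Nat.mul
    (v866 R) (VR.S R)))) (VR.m1 R))) (VR.h1 R)) (nat_lit 15)))

noncomputable def s4388 (R : VR) (i : ℕ) : Bool :=
  K.band (s1328 R i) (s4387 R i)

theorem e4388 (R : VR) : B (VR.S R) (v4388 R) (s4388 R) :=
  B.and (e1328 R) (e4387 R)

noncomputable def v4389 (R : VR) : ℕ :=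
  Nat.land (Nat.land (v1328 R) (Nat.land (Nat.land (Nat.shiftRight (Nat.land (Nat.sub (Nat.add
    (v1331 R) (VR.h1 R)) (v4122 R)) (VR.h1 R)) (nat_lit 15)) (v1334 R)) (Nat.shiftRight (Nat.land
    (Nat.sub (VR.h1 R) (Nat.mod (Nat.land (Nat.sub (VR.o2 R) (Nat.lor (v1337 R) (v1363 R))) (mM
    (Nat.mul (v866 R) (VR.S R)))) (VR.m1 R))) (VR.h1 R)) (nat_lit 15)))) (v1379 R)

noncomputable def s4389 (R : VR) (i : ℕ) : Bool :=
  K.band (s4388 R i) (s1380 R i)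

theorem e4389 (R : VR) : B (VR.S R) (v4389 R) (s4389 R) :=
  B.and (e4388 R) (e1380 R)

noncomputable def v4390 (R : VR) : ℕ :=
  Nat.lor (v1327 R) (Nat.land (Nat.land (v1328 R) (Nat.land (Nat.land (Nat.shiftRight (Nat.land
    (Nat.sub (Nat.add (v1331 R) (VR.h1 R)) (v4122 R)) (VR.h1 R)) (nat_lit 15)) (v1334 R))
    (Nat.shiftRight (Nat.land (Nat.sub (VR.h1 R) (Nat.mod (Nat.land (Nat.sub (VR.o2 R) (Nat.lor
    (v1337 R) (v1363 R))) (mM (Nat.mul (v866 R) (VR.S R)))) (VR.m1 R))) (VR.h1 R)) (nat_lit 15))))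
    (v1379 R))

noncomputable def s4390 (R : VR) (i : ℕ) : Bool :=
  K.bor (s1327 R i) (s4389 R i)

theorem e4390 (R : VR) : B (VR.S R) (v4390 R) (s4390 R) :=
  B.or (e1327 R) (e4389 R)

noncomputable def v4391 (R : VR) : ℕ :=
  Nat.land (v1324 R) (Nat.lor (v1327 R) (Nat.land (Nat.land (v1328 R) (Nat.land (Nat.land
    (Nat.shiftRight (Nat.land (Nat.sub (Nat.add (v1331 R) (VR.h1 R)) (v4122 R)) (VR.h1 R))
    (nat_lit 15)) (v1334 R)) (Nat.shiftRight (Nat.land (Nat.sub (VR.h1 R) (Nat.mod (Nat.land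
    (Nat.sub (VR.o2 R) (Nat.lor (v1337 R) (v1363 R))) (mM (Nat.mul (v866 R) (VR.S R)))) (VR.m1
    R))) (VR.h1 R)) (nat_lit 15)))) (v1379 R)))

noncomputable def s4391 (R : VR) (i : ℕ) : Bool :=
  K.band (s1324 R i) (s4390 R i)

theorem e4391 (R : VR) : B (VR.S R) (v4391 R) (s4391 R) :=
  B.and (e1324 R) (e4390 R)

noncomputable def v4392 (R : VR) : ℕ :=
  Nat.lor (v1318 R) (Nat.land (v1324 R) (Nat.lor (v1327 R) (Nat.land (Nat.land (v1328 R) (Nat.land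
    (Nat.land (Nat.shiftRight (Nat.land (Nat.sub (Nat.add (v1331 R) (VR.h1 R)) (v4122 R)) (VR.h1
    R)) (nat_lit 15)) (v1334 R)) (Nat.shiftRight (Nat.land (Nat.sub (VR.h1 R) (Nat.mod (Nat.land
    (Nat.sub (VR.o2 R) (Nat.lor (v1337 R) (v1363 R))) (mM (Nat.mul (v866 R) (VR.S R)))) (VR.m1
    R))) (VR.h1 R)) (nat_lit 15)))) (v1379 R))))

noncomputable def s4392 (R : VR) (i : ℕ) : Bool :=
  K.bor (s1318 R i) (s4391 R i)

theorem e4392 (R : VR) : B (VR.S R) (v4392 R) (s4392 R) :=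
  B.or (e1318 R) (e4391 R)

noncomputable def v4393 (R : VR) : Bool :=
  Nat.beq (Nat.land (Nat.sub (VR.o1 R) (v4392 R)) (mM (v1311 R))) (nat_lit 0)

noncomputable def s4393 (R : VR) : Bool :=
  K.allN (s1311 R) (s4392 R)

theorem e4393 (R : VR) : (v4393 R) = s4393 R :=
  all0 (e4392 R) (VR.kar_le R)

noncomputable def s4394 (R : VR) : Bool :=
  K.lall (FC7.XE.ar (VR.X R)) (fun (x214 : ℕ × ℕ) => (K.bor (K.bnot (FC7.XE.sp (FC7.Fr.X (FC7.WR.F
    (VR.WR R))) (Prod.fst x214))) (K.band (K.band (K.band (Nat.ble (Nat.succ (Prod.fst x214))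
    (FC6.Pa.n (FC7.Fr.P (FC7.WR.F (VR.WR R))))) (Nat.ble (Nat.succ (Prod.snd x214)) (FC6.Pa.n
    (FC7.Fr.P (FC7.WR.F (VR.WR R)))))) (Nat.beq (FC6.Pa.α (FC7.Fr.P (FC7.WR.F (VR.WR R)))
    (Prod.fst x214)) (Prod.fst x214))) (K.bor (K.band (FC6.Pa.real (FC7.Fr.P (FC7.WR.F (VR.WR R)))
    (Prod.fst x214)) (Nat.beq (Prod.fst x214) (Prod.snd x214))) (K.band (K.band (K.bnot
    (FC6.Pa.real (FC7.Fr.P (FC7.WR.F (VR.WR R))) (Prod.fst x214))) (K.WR_hub (VR.WR R) (FC6.Pa.l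
    (FC7.Fr.P (FC7.WR.F (VR.WR R))) (FC6.Pa.φ (FC7.Fr.P (FC7.WR.F (VR.WR R))) (Prod.fst x214)))))
    (K.allN (FC6.Pa.n (FC7.Fr.P (FC7.WR.F (VR.WR R)))) (fun (x215 : ℕ) => (K.bor (K.bor (K.bnot
    (Nat.beq (FC6.Pa.α (FC7.Fr.P (FC7.WR.F (VR.WR R))) x215) x215)) (K.bnot (Nat.beq (FC6.Pa.l
    (FC7.Fr.P (FC7.WR.F (VR.WR R))) x215) (FC6.Pa.l (FC7.Fr.P (FC7.WR.F (VR.WR R))) (FC6.Pa.φ
    (FC7.Fr.P (FC7.WR.F (VR.WR R))) (Prod.fst x214)))))) (Nat.beq x215 (Prod.snd x214))))))))))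

theorem e4394 (R : VR) : (v4393 R) = s4394 R :=
  (e4393 R).trans (lall_lst2 (VR.kar R) (VR.ar1T R) (VR.ar2T R) (fun (x216 : ℕ × ℕ) => (K.bor
    (K.bnot (FC7.XE.sp (FC7.Fr.X (FC7.WR.F (VR.WR R))) (Prod.fst x216))) (K.band (K.band (K.band
    (Nat.ble (Nat.succ (Prod.fst x216)) (FC6.Pa.n (FC7.Fr.P (FC7.WR.F (VR.WR R))))) (Nat.ble
    (Nat.succ (Prod.snd x216)) (FC6.Pa.n (FC7.Fr.P (FC7.WR.F (VR.WR R)))))) (Nat.beq (FC6.Pa.α
    (FC7.Fr.P (FC7.WR.F (VR.WR R))) (Prod.fst x216)) (Prod.fst x216))) (K.bor (K.band (FC6.Pa.real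
    (FC7.Fr.P (FC7.WR.F (VR.WR R))) (Prod.fst x216)) (Nat.beq (Prod.fst x216) (Prod.snd x216)))
    (K.band (K.band (K.bnot (FC6.Pa.real (FC7.Fr.P (FC7.WR.F (VR.WR R))) (Prod.fst x216)))
    (K.WR_hub (VR.WR R) (FC6.Pa.l (FC7.Fr.P (FC7.WR.F (VR.WR R))) (FC6.Pa.φ (FC7.Fr.P (FC7.WR.F
    (VR.WR R))) (Prod.fst x216))))) (K.allN (FC6.Pa.n (FC7.Fr.P (FC7.WR.F (VR.WR R)))) (fun (x217
    : ℕ) => (K.bor (K.bor (K.bnot (Nat.beq (FC6.Pa.α (FC7.Fr.P (FC7.WR.F (VR.WR R))) x217) x217))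
    (K.bnot (Nat.beq (FC6.Pa.l (FC7.Fr.P (FC7.WR.F (VR.WR R))) x217) (FC6.Pa.l (FC7.Fr.P (FC7.WR.F
    (VR.WR R))) (FC6.Pa.φ (FC7.Fr.P (FC7.WR.F (VR.WR R))) (Prod.fst x216)))))) (Nat.beq x217
    (Prod.snd x216))))))))))).symm

noncomputable def s4395 (R : VR) : Bool :=
  K.WR_chkP (VR.WR R)

theorem e4395 (R : VR) : (v4393 R) = s4395 R :=
  e4394 R

noncomputable def c_rP (R : VR) : Bool :=
  (Nat.beq (Nat.land (Nat.sub (VR.o1 R) (v4392 R)) (mM (v1311 R))) (nat_lit 0))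

theorem c_rP_eq (R : VR) : c_rP R = (K.WR_chkP (VR.WR R)) :=
  e4395 R

end Vs

end Pool.FC7
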