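import Pool.Agent.FC7.VtJ

/-! # Vector form of the static checks: generated file (vgen.py) -/

open Finset

set_option linter.all false

namespace Pool.FC7

open Pool.FC6

namespace Vs

noncomputable def v4396 (R : VR) : ℕ :=
  Nat.land (v3335 R) (v3335 R)

noncomputable def s4396 (R : VR) (i : ℕ) : Bool :=
  K.band (s3335 R i) (s3335 R i)

theorem e4396 (R : VR) : B (VR.S R) (v4396 R) (s4396 R) :=
  B.and (e3335 R) (e3335 R)

noncomputable def v4397 (R : VR) : ℕ :=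
  Nat.land (Nat.land (v3335 R) (v3335 R)) (v3342 R)

noncomputable def s4397 (R : VR) (i : ℕ) : Bool :=
  K.band (s4396 R i) (s3342 R i)

theorem e4397 (R : VR) : B (VR.S R) (v4397 R) (s4397 R) :=
  B.and (e4396 R) (e3342 R)

noncomputable def v4398 (R : VR) : ℕ :=
  Nat.land (Nat.land (Nat.land (v3335 R) (v3335 R)) (v3342 R)) (v3342 R)

noncomputable def s4398 (R : VR) (i : ℕ) : Bool :=
  K.band (s4397 R i) (s3342 R i)

theorem e4398 (R : VR) : B (VR.S R) (v4398 R) (s4398 R) :=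
  B.and (e4397 R) (e3342 R)

noncomputable def v4399 (R : VR) : ℕ :=
  Nat.land (Nat.land (Nat.land (Nat.land (v3335 R) (v3335 R)) (v3342 R)) (v3342 R)) (v3349 R)

noncomputable def s4399 (R : VR) (i : ℕ) : Bool :=
  K.band (s4398 R i) (s3349 R i)

theorem e4399 (R : VR) : B (VR.S R) (v4399 R) (s4399 R) :=
  B.and (e4398 R) (e3349 R)

noncomputable def v4400 (R : VR) : ℕ :=
  Nat.mod (Nat.land (v177 R) (v1409 R)) (VR.m1 R)

noncomputable def s4400 (R : VR) (i : ℕ) : ℕ :=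
  tx (VR.cepT R) (s171 R i)

theorem e4400 (R : VR) : L (VR.S R) (v4400 R) (s4400 R) 14 :=
  L.gat (e171 R) (VR.cep_is R) (VR.cep_lt R) (VR.cep_le R)

noncomputable def v4401 (R : VR) : ℕ :=
  Nat.shiftRight (Nat.land (Nat.sub (VR.h1 R) (Nat.xor (Nat.mod (Nat.land (v177 R) (v1409 R))
    (VR.m1 R)) (VR.cepT R))) (VR.h1 R)) (nat_lit 15)

noncomputable def s4401 (R : VR) (i : ℕ) : Bool :=
  Nat.beq (s4400 R i) (s116 R i)

theorem e4401 (R : VR) : B (VR.S R) (v4401 R) (s4401 R) :=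
  L.beq (VR.h1e R) (e4400 R) (e116 R)

noncomputable def v4402 (R : VR) : ℕ :=
  Nat.land (Nat.land (Nat.land (Nat.land (Nat.land (v3335 R) (v3335 R)) (v3342 R)) (v3342 R))
    (v3349 R)) (Nat.shiftRight (Nat.land (Nat.sub (VR.h1 R) (Nat.xor (Nat.mod (Nat.land (v177 R)
    (v1409 R)) (VR.m1 R)) (VR.cepT R))) (VR.h1 R)) (nat_lit 15))

noncomputable def s4402 (R : VR) (i : ℕ) : Bool :=
  K.band (s4399 R i) (s4401 R i)

theorem e4402 (R : VR) : B (VR.S R) (v4402 R) (s4402 R) :=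
  B.and (e4399 R) (e4401 R)

noncomputable def v4403 (R : VR) : ℕ :=
  Nat.land (Nat.land (Nat.land (Nat.land (Nat.land (Nat.land (v3335 R) (v3335 R)) (v3342 R))
    (v3342 R)) (v3349 R)) (Nat.shiftRight (Nat.land (Nat.sub (VR.h1 R) (Nat.xor (Nat.mod (Nat.land
    (v177 R) (v1409 R)) (VR.m1 R)) (VR.cepT R))) (VR.h1 R)) (nat_lit 15))) (v3354 R)

noncomputable def s4403 (R : VR) (i : ℕ) : Bool :=
  K.band (s4402 R i) (s3354 R i)

theorem e4403 (R : VR) : B (VR.S R) (v4403 R) (s4403 R) :=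
  B.and (e4402 R) (e3354 R)

noncomputable def v4404 (R : VR) : ℕ :=
  Nat.lor (VR.realT R) (v1582 R)

noncomputable def s4404 (R : VR) (i : ℕ) : Bool :=
  K.bor (s434 R i) (s1582 R i)

theorem e4404 (R : VR) : B (VR.S R) (v4404 R) (s4404 R) :=
  B.or (e434 R) (e1582 R)

noncomputable def v4405 (R : VR) : ℕ :=
  Nat.land (Nat.land (Nat.land (Nat.land (Nat.land (Nat.land (Nat.land (v3335 R) (v3335 R)) (v3342
    R)) (v3342 R)) (v3349 R)) (Nat.shiftRight (Nat.land (Nat.sub (VR.h1 R) (Nat.xor (Nat.mod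
    (Nat.land (v177 R) (v1409 R)) (VR.m1 R)) (VR.cepT R))) (VR.h1 R)) (nat_lit 15))) (v3354 R))
    (Nat.lor (VR.realT R) (v1582 R))

noncomputable def s4405 (R : VR) (i : ℕ) : Bool :=
  K.band (s4403 R i) (s4404 R i)

theorem e4405 (R : VR) : B (VR.S R) (v4405 R) (s4405 R) :=
  B.and (e4403 R) (e4404 R)

noncomputable def v4406 (R : VR) : ℕ :=
  Nat.mod (Nat.land (v473 R) (v3359 R)) (VR.m1 R)

noncomputable def s4406 (R : VR) (i : ℕ) : ℕ :=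
  tx (VR.stpT R) (s7 R i)

theorem e4406 (R : VR) : L (VR.S R) (v4406 R) (s4406 R) 32767 :=
  L.gat (e7 R) (VR.stp_is R) (VR.stp_lt R) (VR.stp_le R)

noncomputable def v4407 (R : VR) : ℕ :=
  Nat.shiftRight (Nat.land (Nat.add (Nat.land (Nat.mod (Nat.land (v473 R) (v3359 R)) (VR.m1 R))
    (v118 R)) (VR.k1 R)) (VR.h1 R)) (nat_lit 15)

noncomputable def s4407 (R : VR) (i : ℕ) : Bool :=
  K.tbit (s4406 R i) (s116 R i)

theorem e4407 (R : VR) : B (VR.S R) (v4407 R) (s4407 R) :=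
  B.of_eq (L.nz (VR.h1e R) (VR.k1e R) (L.land (e4406 R) (e118 R))) (fun i hi => tb1 _ _ (L.lt
    (e4406 R) i hi))

noncomputable def v4408 (R : VR) : ℕ :=
  Nat.land (Nat.land (Nat.land (Nat.land (Nat.land (Nat.land (Nat.land (Nat.land (v3335 R) (v3335
    R)) (v3342 R)) (v3342 R)) (v3349 R)) (Nat.shiftRight (Nat.land (Nat.sub (VR.h1 R) (Nat.xor
    (Nat.mod (Nat.land (v177 R) (v1409 R)) (VR.m1 R)) (VR.cepT R))) (VR.h1 R)) (nat_lit 15)))
    (v3354 R)) (Nat.lor (VR.realT R) (v1582 R))) (Nat.shiftRight (Nat.land (Nat.add (Nat.land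
    (Nat.mod (Nat.land (v473 R) (v3359 R)) (VR.m1 R)) (v118 R)) (VR.k1 R)) (VR.h1 R)) (nat_lit
    15))

noncomputable def s4408 (R : VR) (i : ℕ) : Bool :=
  K.band (s4405 R i) (s4407 R i)

theorem e4408 (R : VR) : B (VR.S R) (v4408 R) (s4408 R) :=
  B.and (e4405 R) (e4407 R)

noncomputable def v4409 (R : VR) : ℕ :=
  Nat.land (v4408 R) (v3366 R)

noncomputable def s4409 (R : VR) (i : ℕ) : Bool :=
  K.band (s4408 R i) (s3366 R i)

theorem e4409 (R : VR) : B (VR.S R) (v4409 R) (s4409 R) :=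
  B.and (e4408 R) (e3366 R)

noncomputable def v4410 (R : VR) : ℕ :=
  Nat.land (Nat.land (v4408 R) (v3366 R)) (v3386 R)

noncomputable def s4410 (R : VR) (i : ℕ) : Bool :=
  K.band (s4409 R i) (s3386 R i)

theorem e4410 (R : VR) : B (VR.S R) (v4410 R) (s4410 R) :=
  B.and (e4409 R) (e3386 R)

noncomputable def v4411 (R : VR) : ℕ :=
  Nat.land (Nat.land (Nat.land (v4408 R) (v3366 R)) (v3386 R)) (v3391 R)

noncomputable def s4411 (R : VR) (i : ℕ) : Bool :=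
  K.band (s4410 R i) (s3391 R i)

theorem e4411 (R : VR) : B (VR.S R) (v4411 R) (s4411 R) :=
  B.and (e4410 R) (e3391 R)

noncomputable def v4412 (R : VR) : ℕ :=
  Nat.shiftRight (Nat.land (Nat.sub (VR.h1 R) (Nat.xor (VR.papT R) (VR.phiT R))) (VR.h1 R))
    (nat_lit 15)

noncomputable def s4412 (R : VR) (i : ℕ) : Bool :=
  Nat.beq (s3394 R i) (s171 R i)

theorem e4412 (R : VR) : B (VR.S R) (v4412 R) (s4412 R) :=
  L.beq (VR.h1e R) (e3394 R) (e171 R)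

noncomputable def v4413 (R : VR) : ℕ :=
  Nat.land (v3381 R) (v3407 R)

noncomputable def s4413 (R : VR) (i : ℕ) : Bool :=
  K.band (s3381 R i) (s3407 R i)

theorem e4413 (R : VR) : B (VR.S R) (v4413 R) (s4413 R) :=
  B.and (e3381 R) (e3407 R)

noncomputable def v4414 (R : VR) : ℕ :=
  Nat.lor (Nat.shiftRight (Nat.land (Nat.sub (VR.h1 R) (Nat.xor (VR.papT R) (VR.phiT R))) (VR.h1
    R)) (nat_lit 15)) (Nat.land (v3381 R) (v3407 R))

noncomputable def s4414 (R : VR) (i : ℕ) : Bool :=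
  K.bor (s4412 R i) (s4413 R i)

theorem e4414 (R : VR) : B (VR.S R) (v4414 R) (s4414 R) :=
  B.or (e4412 R) (e4413 R)

noncomputable def v4415 (R : VR) : ℕ :=
  Nat.land (v3404 R) (Nat.lor (Nat.shiftRight (Nat.land (Nat.sub (VR.h1 R) (Nat.xor (VR.papT R)
    (VR.phiT R))) (VR.h1 R)) (nat_lit 15)) (Nat.land (v3381 R) (v3407 R)))

noncomputable def s4415 (R : VR) (i : ℕ) : Bool :=
  K.band (s3404 R i) (s4414 R i)

theorem e4415 (R : VR) : B (VR.S R) (v4415 R) (s4415 R) :=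
  B.and (e3404 R) (e4414 R)

noncomputable def v4416 (R : VR) : ℕ :=
  Nat.lor (v3393 R) (Nat.land (v3404 R) (Nat.lor (Nat.shiftRight (Nat.land (Nat.sub (VR.h1 R)
    (Nat.xor (VR.papT R) (VR.phiT R))) (VR.h1 R)) (nat_lit 15)) (Nat.land (v3381 R) (v3407 R))))

noncomputable def s4416 (R : VR) (i : ℕ) : Bool :=
  K.bor (s3393 R i) (s4415 R i)

theorem e4416 (R : VR) : B (VR.S R) (v4416 R) (s4416 R) :=
  B.or (e3393 R) (e4415 R)

noncomputable def v4417 (R : VR) : ℕ :=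
  Nat.land (Nat.land (Nat.land (Nat.land (v4408 R) (v3366 R)) (v3386 R)) (v3391 R)) (Nat.lor
    (v3393 R) (Nat.land (v3404 R) (Nat.lor (Nat.shiftRight (Nat.land (Nat.sub (VR.h1 R) (Nat.xor
    (VR.papT R) (VR.phiT R))) (VR.h1 R)) (nat_lit 15)) (Nat.land (v3381 R) (v3407 R)))))

noncomputable def s4417 (R : VR) (i : ℕ) : Bool :=
  K.band (s4411 R i) (s4416 R i)

theorem e4417 (R : VR) : B (VR.S R) (v4417 R) (s4417 R) :=
  B.and (e4411 R) (e4416 R)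

noncomputable def v4418 (R : VR) : ℕ :=
  Nat.land (v3418 R) (v851 R)

noncomputable def s4418 (R : VR) (i : ℕ) : Bool :=
  K.band (s3419 R i) (s851 R i)

theorem e4418 (R : VR) : B (VR.S R) (v4418 R) (s4418 R) :=
  B.and (e3419 R) (e851 R)

noncomputable def v4419 (R : VR) : ℕ :=
  Nat.land (Nat.land (v3418 R) (v851 R)) (v849 R)

noncomputable def s4419 (R : VR) (i : ℕ) : Bool :=
  K.band (s4418 R i) (s849 R i)

theorem e4419 (R : VR) : B (VR.S R) (v4419 R) (s4419 R) :=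
  B.and (e4418 R) (e849 R)

noncomputable def v4420 (R : VR) : ℕ :=
  Nat.shiftRight (Nat.land (Nat.sub (VR.h1 R) (Nat.xor (v193 R) (v193 R))) (VR.h1 R)) (nat_lit 15)

noncomputable def s4420 (R : VR) (i : ℕ) : Bool :=
  Nat.beq (s193 R i) (s193 R i)

theorem e4420 (R : VR) : B (VR.S R) (v4420 R) (s4420 R) :=
  L.beq (VR.h1e R) (e193 R) (e193 R)

noncomputable def v4421 (R : VR) : ℕ :=
  Nat.land (Nat.land (Nat.land (v3418 R) (v851 R)) (v849 R)) (Nat.shiftRight (Nat.land (Nat.sub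
    (VR.h1 R) (Nat.xor (v193 R) (v193 R))) (VR.h1 R)) (nat_lit 15))

noncomputable def s4421 (R : VR) (i : ℕ) : Bool :=
  K.band (s4419 R i) (s4420 R i)

theorem e4421 (R : VR) : B (VR.S R) (v4421 R) (s4421 R) :=
  B.and (e4419 R) (e4420 R)

noncomputable def v4422 (R : VR) : ℕ :=
  Nat.land (Nat.land (Nat.land (Nat.land (v3418 R) (v851 R)) (v849 R)) (Nat.shiftRight (Nat.land
    (Nat.sub (VR.h1 R) (Nat.xor (v193 R) (v193 R))) (VR.h1 R)) (nat_lit 15))) (v861 R)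

noncomputable def s4422 (R : VR) (i : ℕ) : Bool :=
  K.band (s4421 R i) (s861 R i)

theorem e4422 (R : VR) : B (VR.S R) (v4422 R) (s4422 R) :=
  B.and (e4421 R) (e861 R)

noncomputable def v4423 (R : VR) : ℕ :=
  Nat.land (Nat.land (Nat.land (Nat.land (Nat.land (v3418 R) (v851 R)) (v849 R)) (Nat.shiftRight
    (Nat.land (Nat.sub (VR.h1 R) (Nat.xor (v193 R) (v193 R))) (VR.h1 R)) (nat_lit 15))) (v861 R))
    (v3425 R)

noncomputable def s4423 (R : VR) (i : ℕ) : Bool :=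
  K.band (s4422 R i) (s3425 R i)

theorem e4423 (R : VR) : B (VR.S R) (v4423 R) (s4423 R) :=
  B.and (e4422 R) (e3425 R)

noncomputable def v4424 (R : VR) : ℕ :=
  Nat.lor (v1135 R) (v3443 R)

noncomputable def s4424 (R : VR) (i : ℕ) : Bool :=
  K.bor (s1135 R i) (s3444 R i)

theorem e4424 (R : VR) : B (VR.S R) (v4424 R) (s4424 R) :=
  B.or (e1135 R) (e3444 R)

noncomputable def v4425 (R : VR) : ℕ :=
  Nat.lor (Nat.lor (v1135 R) (v3443 R)) (v3447 R)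

noncomputable def s4425 (R : VR) (i : ℕ) : Bool :=
  K.bor (s4424 R i) (s3448 R i)

theorem e4425 (R : VR) : B (VR.S R) (v4425 R) (s4425 R) :=
  B.or (e4424 R) (e3448 R)

noncomputable def v4426 (R : VR) : ℕ :=
  Nat.land (v3438 R) (Nat.lor (Nat.lor (v1135 R) (v3443 R)) (v3447 R))

noncomputable def s4426 (R : VR) (i : ℕ) : Bool :=
  K.band (s3438 R i) (s4425 R i)

theorem e4426 (R : VR) : B (VR.S R) (v4426 R) (s4426 R) :=
  B.and (e3438 R) (e4425 R)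

noncomputable def v4427 (R : VR) : ℕ :=
  Nat.xor (v4426 R) (Nat.land (Nat.xor (v4426 R) (Nat.land (Nat.land (Nat.land (Nat.land (Nat.land
    (v3418 R) (v851 R)) (v849 R)) (Nat.shiftRight (Nat.land (Nat.sub (VR.h1 R) (Nat.xor (v193 R)
    (v193 R))) (VR.h1 R)) (nat_lit 15))) (v861 R)) (v3425 R))) (v192 R))

noncomputable def s4427 (R : VR) (i : ℕ) : Bool :=
  Bool.rec (motive := fun _ => Bool) (s4426 R i) (s4423 R i) (s192 R i)

theorem e4427 (R : VR) : B (VR.S R) (v4427 R) (s4427 R) :=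
  B.sel (e192 R) (e4423 R) (e4426 R)

noncomputable def v4428 (R : VR) : ℕ :=
  Nat.land (Nat.land (Nat.land (Nat.land (Nat.land (v4408 R) (v3366 R)) (v3386 R)) (v3391 R))
    (Nat.lor (v3393 R) (Nat.land (v3404 R) (Nat.lor (Nat.shiftRight (Nat.land (Nat.sub (VR.h1 R)
    (Nat.xor (VR.papT R) (VR.phiT R))) (VR.h1 R)) (nat_lit 15)) (Nat.land (v3381 R) (v3407 R))))))
    (Nat.xor (v4426 R) (Nat.land (Nat.xor (v4426 R) (Nat.land (Nat.land (Nat.land (Nat.land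
    (Nat.land (v3418 R) (v851 R)) (v849 R)) (Nat.shiftRight (Nat.land (Nat.sub (VR.h1 R) (Nat.xor
    (v193 R) (v193 R))) (VR.h1 R)) (nat_lit 15))) (v861 R)) (v3425 R))) (v192 R)))

noncomputable def s4428 (R : VR) (i : ℕ) : Bool :=
  K.band (s4417 R i) (s4427 R i)

theorem e4428 (R : VR) : B (VR.S R) (v4428 R) (s4428 R) :=
  B.and (e4417 R) (e4427 R)

noncomputable def v4429 (R : VR) : Bool :=
  Nat.beq (Nat.land (Nat.sub (VR.o1 R) (v4428 R)) (mM (v112 R))) (nat_lit 0)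

noncomputable def s4429 (R : VR) : Bool :=
  K.allN (s112 R) (s4428 R)

theorem e4429 (R : VR) : (v4429 R) = s4429 R :=
  all0 (e4428 R) (VR.n_le R)

noncomputable def s4430 (R : VR) : Bool :=
  K.allN (s112 R) (fun (x218 : ℕ) => (K.band (K.band (K.band (K.band (K.band (K.band (K.band
    (K.band (K.band (K.band (K.band (K.band (K.band (K.bor (K.bnot (FC6.Pa.real (VR.P R) x218))
    (K.band (Nat.ble (Nat.succ (FC6.Pa.l (VR.P R) x218)) (Nat.add (FC7.XE.x (K.Fr_XX (VR.Fr R)))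
    (FC7.XE.k (K.Fr_XX (VR.Fr R))))) (Nat.ble (Nat.succ (FC6.Pa.l (VR.P R) (FC6.Pa.φ (VR.P R)
    x218))) (Nat.add (FC7.XE.x (K.Fr_XX (VR.Fr R))) (FC7.XE.k (K.Fr_XX (VR.Fr R))))))) (K.bor
    (K.bnot (FC6.Pa.real (VR.P R) x218)) (K.band (Nat.ble (Nat.succ (FC6.Pa.l (VR.P R) x218))
    (Nat.add (FC7.XE.x (K.Fr_XX (VR.Fr R))) (FC7.XE.k (K.Fr_XX (VR.Fr R))))) (Nat.ble (Nat.succ
    (FC6.Pa.l (VR.P R) (FC6.Pa.φ (VR.P R) x218))) (Nat.add (FC7.XE.x (K.Fr_XX (VR.Fr R)))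
    (FC7.XE.k (K.Fr_XX (VR.Fr R)))))))) (K.beqB (FC6.Pa.real (VR.P R) (FC6.Pa.α (VR.P R) x218))
    (FC6.Pa.real (VR.P R) x218))) (K.beqB (FC6.Pa.real (VR.P R) (FC6.Pa.α (VR.P R) x218))
    (FC6.Pa.real (VR.P R) x218))) (Nat.beq (FC7.XE.ce (K.Fr_XX (VR.Fr R)) (FC6.Pa.φ (VR.P R)
    x218)) (FC7.XE.ce (K.Fr_XX (VR.Fr R)) x218))) (Nat.beq (FC7.XE.ce' (K.Fr_XX (VR.Fr R))
    (FC6.Pa.φ (VR.P R) x218)) (FC7.XE.ce' (K.Fr_XX (VR.Fr R)) x218))) (K.bor (FC6.Pa.real (VR.P R)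
    x218) (Nat.beq (FC7.XE.ce (K.Fr_XX (VR.Fr R)) (FC6.Pa.α (VR.P R) x218)) (FC7.XE.ce (K.Fr_XX
    (VR.Fr R)) x218)))) (K.bor (FC6.Pa.real (VR.P R) x218) (Nat.beq (FC7.XE.ce' (K.Fr_XX (VR.Fr
    R)) (FC6.Pa.α (VR.P R) x218)) (FC7.XE.ce' (K.Fr_XX (VR.Fr R)) x218)))) (K.tbit (FC7.XE.st'
    (K.Fr_XX (VR.Fr R)) (FC6.Pa.l (VR.P R) x218)) (FC7.XE.ce' (K.Fr_XX (VR.Fr R)) x218))) (Nat.ble
    (Nat.succ (FC7.XE.cr (K.Fr_XX (VR.Fr R)) (FC7.XE.ce (K.Fr_XX (VR.Fr R)) x218))) (FC6.Pa.n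
    (VR.P R)))) (K.bor (Nat.beq x218 (FC7.XE.cr (K.Fr_XX (VR.Fr R)) (FC7.XE.ce (K.Fr_XX (VR.Fr R))
    x218))) (K.band (K.band (K.band (Nat.ble (Nat.succ (FC7.XE.pk (K.Fr_XX (VR.Fr R)) (FC7.XE.pa
    (K.Fr_XX (VR.Fr R)) x218))) (FC7.XE.pk (K.Fr_XX (VR.Fr R)) x218)) (Nat.ble (Nat.succ
    (FC7.XE.pa (K.Fr_XX (VR.Fr R)) x218)) (FC6.Pa.n (VR.P R)))) (Nat.beq (FC7.XE.ce (K.Fr_XX
    (VR.Fr R)) (FC7.XE.pa (K.Fr_XX (VR.Fr R)) x218)) (FC7.XE.ce (K.Fr_XX (VR.Fr R)) x218))) (K.bor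
    (Nat.beq (FC7.XE.pa (K.Fr_XX (VR.Fr R)) x218) (FC6.Pa.φ (VR.P R) x218)) (K.band (K.band
    (K.bnot (Nat.beq (FC6.Pa.α (VR.P R) x218) x218)) (K.bnot (FC6.Pa.real (VR.P R) x218)))
    (Nat.beq (FC7.XE.pa (K.Fr_XX (VR.Fr R)) x218) (FC6.Pa.α (VR.P R) x218))))))) (Nat.ble
    (Nat.succ (FC7.XE.cr' (K.Fr_XX (VR.Fr R)) (FC7.XE.ce' (K.Fr_XX (VR.Fr R)) x218))) (FC6.Pa.n
    (VR.P R)))) (K.bor (Nat.beq x218 (FC7.XE.cr' (K.Fr_XX (VR.Fr R)) (FC7.XE.ce' (K.Fr_XX (VR.Fr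
    R)) x218))) (K.band (K.band (K.band (Nat.ble (Nat.succ (FC7.XE.pk' (K.Fr_XX (VR.Fr R))
    (FC7.XE.pa' (K.Fr_XX (VR.Fr R)) x218))) (FC7.XE.pk' (K.Fr_XX (VR.Fr R)) x218)) (Nat.ble
    (Nat.succ (FC7.XE.pa' (K.Fr_XX (VR.Fr R)) x218)) (FC6.Pa.n (VR.P R)))) (Nat.beq (FC7.XE.ce'
    (K.Fr_XX (VR.Fr R)) (FC7.XE.pa' (K.Fr_XX (VR.Fr R)) x218)) (FC7.XE.ce' (K.Fr_XX (VR.Fr R))
    x218))) (K.bor (Nat.beq (FC7.XE.pa' (K.Fr_XX (VR.Fr R)) x218) (FC6.Pa.φ (VR.P R) x218))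
    (K.band (K.band (K.bnot (Nat.beq (FC6.Pa.α (VR.P R) x218) x218)) (K.bnot (FC6.Pa.real (VR.P R)
    x218))) (Nat.beq (FC7.XE.pa' (K.Fr_XX (VR.Fr R)) x218) (FC6.Pa.α (VR.P R) x218)))))))
    (Bool.rec (motive := fun _ => Bool) (K.band (K.bor (K.bor (K.bnot (FC6.Pa.real (VR.P R) x218))
    (K.lmem x218 (FC7.XE.es (K.Fr_XX (VR.Fr R))))) (K.lmem (FC6.Pa.α (VR.P R) x218) (FC7.XE.es
    (K.Fr_XX (VR.Fr R))))) (K.bor (K.bor (K.bnot (FC6.Pa.real (VR.P R) x218)) (K.lmem x218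
    (FC7.XE.es' (K.Fr_XX (VR.Fr R))))) (K.lmem (FC6.Pa.α (VR.P R) x218) (FC7.XE.es' (K.Fr_XX
    (VR.Fr R)))))) (K.band (K.band (K.band (K.band (K.band (K.lmem x218 (FC7.XE.rs (K.Fr_XX (VR.Fr
    R)))) (K.beqB (FC6.Pa.real (VR.P R) x218) (FC6.Pa.real (VR.P R) x218))) (Nat.beq (FC6.Pa.l
    (VR.P R) x218) (FC6.Pa.l (VR.P R) x218))) (Nat.beq (FC6.Pa.l (VR.P R) (FC6.Pa.φ (VR.P R)
    x218)) (FC6.Pa.l (VR.P R) (FC6.Pa.φ (VR.P R) x218)))) (Nat.ble (FC7.XE.x (K.Fr_XX (VR.Fr R)))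
    (FC6.Pa.l (VR.P R) x218))) (Nat.ble (FC7.XE.x (K.Fr_XX (VR.Fr R))) (FC6.Pa.l (VR.P R)
    (FC6.Pa.φ (VR.P R) x218)))) (Nat.beq (FC6.Pa.α (VR.P R) x218) x218))))

theorem e4430 (R : VR) : (v4429 R) = s4430 R :=
  e4429 R

noncomputable def s4431 (R : VR) : Bool :=
  K.lall (FC7.XE.es (K.Fr_XX (VR.Fr R))) (fun (x219 : ℕ) => (K.band (Nat.ble (Nat.succ x219)
    (FC6.Pa.n (VR.P R))) (K.bnot (Nat.beq (FC6.Pa.α (VR.P R) x219) x219))))

theorem e4431 (R : VR) : (v3461 R) = s4431 R :=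
  (e3461 R).trans (lall_lst (VR.kes R) (VR.esT R) (fun (x220 : ℕ) => (K.band (Nat.ble (Nat.succ
    x220) (FC6.Pa.n (VR.P R))) (K.bnot (Nat.beq (FC6.Pa.α (VR.P R) x220) x220))))).symm

noncomputable def v4432 (R : VR) : Bool :=
  K.band (Nat.beq (Nat.land (Nat.sub (VR.o1 R) (v4428 R)) (mM (v112 R))) (nat_lit 0)) (v3461 R)

noncomputable def s4432 (R : VR) : Bool :=
  K.band (s4430 R) (s4431 R)

theorem e4432 (R : VR) : (v4432 R) = s4432 R :=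
  congrArg₂ K.band (e4430 R) (e4431 R)

noncomputable def s4433 (R : VR) : Bool :=
  K.lall (FC7.XE.es' (K.Fr_XX (VR.Fr R))) (fun (x221 : ℕ) => (K.band (Nat.ble (Nat.succ x221)
    (FC6.Pa.n (VR.P R))) (K.bnot (Nat.beq (FC6.Pa.α (VR.P R) x221) x221))))

theorem e4433 (R : VR) : (v3470 R) = s4433 R :=
  (e3470 R).trans (lall_lst (VR.kesp R) (VR.espT R) (fun (x222 : ℕ) => (K.band (Nat.ble (Nat.succ
    x222) (FC6.Pa.n (VR.P R))) (K.bnot (Nat.beq (FC6.Pa.α (VR.P R) x222) x222))))).symm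

noncomputable def v4434 (R : VR) : Bool :=
  K.band (K.band (Nat.beq (Nat.land (Nat.sub (VR.o1 R) (v4428 R)) (mM (v112 R))) (nat_lit 0))
    (v3461 R)) (v3470 R)

noncomputable def s4434 (R : VR) : Bool :=
  K.band (s4432 R) (s4433 R)

theorem e4434 (R : VR) : (v4434 R) = s4434 R :=
  congrArg₂ K.band (e4432 R) (e4433 R)

noncomputable def v4435 (R : VR) : Bool :=
  K.band (K.band (K.band (Nat.beq (Nat.land (Nat.sub (VR.o1 R) (v4428 R)) (mM (v112 R))) (nat_lit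
    0)) (v3461 R)) (v3470 R)) (v3479 R)

noncomputable def s4435 (R : VR) : Bool :=
  K.band (s4434 R) (s3480 R)

theorem e4435 (R : VR) : (v4435 R) = s4435 R :=
  congrArg₂ K.band (e4434 R) (e3480 R)

noncomputable def v4436 (R : VR) : Bool :=
  K.band (K.band (K.band (K.band (Nat.beq (Nat.land (Nat.sub (VR.o1 R) (v4428 R)) (mM (v112 R)))
    (nat_lit 0)) (v3461 R)) (v3470 R)) (v3479 R)) (v3489 R)

noncomputable def s4436 (R : VR) : Bool :=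
  K.band (s4435 R) (s3490 R)

theorem e4436 (R : VR) : (v4436 R) = s4436 R :=
  congrArg₂ K.band (e4435 R) (e3490 R)

noncomputable def v4437 (R : VR) : Bool :=
  true

noncomputable def s4437 (R : VR) : Bool :=
  K.leq (FC7.XE.rs (K.Fr_XX (VR.Fr R))) (K.lfmap K.ad (FC7.XE.ar (K.Fr_XX (VR.Fr R))))

theorem e4437 (R : VR) : (v4437 R) = s4437 R :=
  (leq_self _).symm

noncomputable def v4438 (R : VR) : Bool :=
  K.band (K.band (K.band (K.band (K.band (Nat.beq (Nat.land (Nat.sub (VR.o1 R) (v4428 R)) (mM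
    (v112 R))) (nat_lit 0)) (v3461 R)) (v3470 R)) (v3479 R)) (v3489 R)) (true)

noncomputable def s4438 (R : VR) : Bool :=
  K.band (s4436 R) (s4437 R)

theorem e4438 (R : VR) : (v4438 R) = s4438 R :=
  congrArg₂ K.band (e4436 R) (e4437 R)

noncomputable def s4439 (R : VR) : Bool :=
  K.lall (FC7.XE.ar (K.Fr_XX (VR.Fr R))) (fun (x226 : ℕ × ℕ) => (K.band (K.band (K.bor (Nat.beq
    (Prod.fst x226) (Prod.snd x226)) (K.band (K.band (K.band (K.band (K.bnot (FC6.Pa.real (VR.P R)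
    (Prod.fst x226))) (K.bnot (FC6.Pa.real (VR.P R) (Prod.snd x226)))) (Nat.beq (FC6.Pa.l (VR.P R)
    (FC6.Pa.φ (VR.P R) (Prod.fst x226))) (FC6.Pa.l (VR.P R) (Prod.snd x226)))) (Nat.beq (FC7.XE.ce
    (K.Fr_XX (VR.Fr R)) (Prod.fst x226)) (FC7.XE.ce (K.Fr_XX (VR.Fr R)) (Prod.snd x226))))
    (Nat.beq (FC7.XE.ce' (K.Fr_XX (VR.Fr R)) (Prod.fst x226)) (FC7.XE.ce' (K.Fr_XX (VR.Fr R))
    (Prod.snd x226))))) (Nat.ble (Nat.succ (FC6.Pa.l (VR.P R) (Prod.fst x226))) (Nat.add (FC7.XE.x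
    (K.Fr_XX (VR.Fr R))) (FC7.XE.k (K.Fr_XX (VR.Fr R)))))) (Nat.ble (Nat.succ (FC6.Pa.l (VR.P R)
    (FC6.Pa.φ (VR.P R) (Prod.snd x226)))) (Nat.add (FC7.XE.x (K.Fr_XX (VR.Fr R))) (FC7.XE.k
    (K.Fr_XX (VR.Fr R)))))))

theorem e4439 (R : VR) : (v3517 R) = s4439 R :=
  (e3517 R).trans (lall_lst2 (VR.kar R) (VR.ar1T R) (VR.ar2T R) (fun (x227 : ℕ × ℕ) => (K.band
    (K.band (K.bor (Nat.beq (Prod.fst x227) (Prod.snd x227)) (K.band (K.band (K.band (K.band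
    (K.bnot (FC6.Pa.real (VR.P R) (Prod.fst x227))) (K.bnot (FC6.Pa.real (VR.P R) (Prod.snd
    x227)))) (Nat.beq (FC6.Pa.l (VR.P R) (FC6.Pa.φ (VR.P R) (Prod.fst x227))) (FC6.Pa.l (VR.P R)
    (Prod.snd x227)))) (Nat.beq (FC7.XE.ce (K.Fr_XX (VR.Fr R)) (Prod.fst x227)) (FC7.XE.ce
    (K.Fr_XX (VR.Fr R)) (Prod.snd x227)))) (Nat.beq (FC7.XE.ce' (K.Fr_XX (VR.Fr R)) (Prod.fst
    x227)) (FC7.XE.ce' (K.Fr_XX (VR.Fr R)) (Prod.snd x227))))) (Nat.ble (Nat.succ (FC6.Pa.l (VR.P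
    R) (Prod.fst x227))) (Nat.add (FC7.XE.x (K.Fr_XX (VR.Fr R))) (FC7.XE.k (K.Fr_XX (VR.Fr R))))))
    (Nat.ble (Nat.succ (FC6.Pa.l (VR.P R) (FC6.Pa.φ (VR.P R) (Prod.snd x227)))) (Nat.add (FC7.XE.x
    (K.Fr_XX (VR.Fr R))) (FC7.XE.k (K.Fr_XX (VR.Fr R)))))))).symm

noncomputable def v4440 (R : VR) : Bool :=
  K.band (K.band (K.band (K.band (K.band (K.band (Nat.beq (Nat.land (Nat.sub (VR.o1 R) (v4428 R))
    (mM (v112 R))) (nat_lit 0)) (v3461 R)) (v3470 R)) (v3479 R)) (v3489 R)) (true)) (v3517 R)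

noncomputable def s4440 (R : VR) : Bool :=
  K.band (s4438 R) (s4439 R)

theorem e4440 (R : VR) : (v4440 R) = s4440 R :=
  congrArg₂ K.band (e4438 R) (e4439 R)

noncomputable def s4441 (R : VR) : Bool :=
  K.XE_stat (K.Fr_XX (VR.Fr R)) (VR.P R) (VR.P R)

theorem e4441 (R : VR) : (v4440 R) = s4441 R :=
  e4440 R

noncomputable def v4442 (R : VR) : Bool :=
  K.band (K.band (K.band (K.band (K.band (K.band (K.band (Nat.beq (Nat.land (Nat.sub (VR.o1 R)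
    (v4428 R)) (mM (v112 R))) (nat_lit 0)) (v3461 R)) (v3470 R)) (v3479 R)) (v3489 R)) (true))
    (v3517 R)) (v3522 R)

noncomputable def s4442 (R : VR) : Bool :=
  K.band (s4441 R) (s3522 R)

theorem e4442 (R : VR) : (v4442 R) = s4442 R :=
  congrArg₂ K.band (e4441 R) (e3522 R)

noncomputable def v4443 (R : VR) : Bool :=
  true

noncomputable def s4443 (R : VR) : Bool :=
  K.lall (FC7.XE.lr (K.Fr_XX (VR.Fr R))) (fun (x228 : ℕ × Bool × Bool) => (K.band (K.lmem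
    (Prod.fst x228) (K.XE_as (K.Fr_XX (VR.Fr R)))) (FC6.Pa.real (VR.P R) (Prod.fst x228))))

theorem e4443 (R : VR) : (v4443 R) = s4443 R :=
  rfl

noncomputable def v4444 (R : VR) : Bool :=
  K.band (K.band (K.band (K.band (K.band (K.band (K.band (K.band (Nat.beq (Nat.land (Nat.sub
    (VR.o1 R) (v4428 R)) (mM (v112 R))) (nat_lit 0)) (v3461 R)) (v3470 R)) (v3479 R)) (v3489 R))
    (true)) (v3517 R)) (v3522 R)) (true)

noncomputable def s4444 (R : VR) : Bool :=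
  K.band (s4442 R) (s4443 R)

theorem e4444 (R : VR) : (v4444 R) = s4444 R :=
  congrArg₂ K.band (e4442 R) (e4443 R)

noncomputable def s4445 (R : VR) : Bool :=
  K.XE_sta (K.Fr_XX (VR.Fr R)) (VR.P R) (VR.P R)

theorem e4445 (R : VR) : (v4444 R) = s4445 R :=
  e4444 R

noncomputable def c_rsta (R : VR) : Bool :=
  (K.band (K.band (K.band (K.band (K.band (K.band (K.band (K.band (Nat.beq (Nat.land (Nat.sub
    (VR.o1 R) (v4428 R)) (mM (v112 R))) (nat_lit 0)) (v3461 R)) (v3470 R)) (v3479 R)) (v3489 R))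
    (true)) (v3517 R)) (v3522 R)) (true))

theorem c_rsta_eq (R : VR) : c_rsta R = (K.XE_sta (K.Fr_XX (VR.Fr R)) (VR.P R) (VR.P R)) :=
  e4445 R

noncomputable def v4446 (R : VR) : Bool :=
  Nat.beq (v3521 R) (v23 R)

noncomputable def s4446 (R : VR) : Bool :=
  Nat.beq (s3521 R) (s23 R)

theorem e4446 (R : VR) : (v4446 R) = s4446 R :=
  congrArg₂ Nat.beq (e3521 R) (e23 R)

noncomputable def v4447 (R : VR) : Bool :=
  K.band (v198 R) (Nat.beq (v3521 R) (v23 R))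

noncomputable def s4447 (R : VR) : Bool :=
  K.band (s200 R) (s4446 R)

theorem e4447 (R : VR) : (v4447 R) = s4447 R :=
  congrArg₂ K.band (e200 R) (e4446 R)

noncomputable def v4448 (R : VR) : Bool :=
  Nat.ble (Nat.succ (v624 R)) (v868 R)

noncomputable def s4448 (R : VR) : Bool :=
  Nat.ble (Nat.succ (s624 R)) (s868 R)

theorem e4448 (R : VR) : (v4448 R) = s4448 R :=
  congrArg₂ Nat.ble (congrArg Nat.succ (e624 R)) (e868 R)

noncomputable def v4449 (R : VR) : Bool :=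
  K.band (K.band (v198 R) (Nat.beq (v3521 R) (v23 R))) (Nat.ble (Nat.succ (v624 R)) (v868 R))

noncomputable def s4449 (R : VR) : Bool :=
  K.band (s4447 R) (s4448 R)

theorem e4449 (R : VR) : (v4449 R) = s4449 R :=
  congrArg₂ K.band (e4447 R) (e4448 R)

noncomputable def v4450 (R : VR) : Bool :=
  K.band (K.band (K.band (v198 R) (Nat.beq (v3521 R) (v23 R))) (Nat.ble (Nat.succ (v624 R)) (v868
    R))) (v4318 R)

noncomputable def s4450 (R : VR) : Bool :=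
  K.band (s4449 R) (s4318 R)

theorem e4450 (R : VR) : (v4450 R) = s4450 R :=
  congrArg₂ K.band (e4449 R) (e4318 R)

noncomputable def v4451 (R : VR) : Bool :=
  K.band (K.band (K.band (K.band (v198 R) (Nat.beq (v3521 R) (v23 R))) (Nat.ble (Nat.succ (v624
    R)) (v868 R))) (v4318 R)) (v4136 R)

noncomputable def s4451 (R : VR) : Bool :=
  K.band (s4450 R) (s4137 R)

theorem e4451 (R : VR) : (v4451 R) = s4451 R :=
  congrArg₂ K.band (e4450 R) (e4137 R)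

noncomputable def v4452 (R : VR) : Bool :=
  K.band (K.band (K.band (K.band (K.band (v198 R) (Nat.beq (v3521 R) (v23 R))) (Nat.ble (Nat.succ
    (v624 R)) (v868 R))) (v4318 R)) (v4136 R)) (v3740 R)

noncomputable def s4452 (R : VR) : Bool :=
  K.band (s4451 R) (s3741 R)

theorem e4452 (R : VR) : (v4452 R) = s4452 R :=
  congrArg₂ K.band (e4451 R) (e3741 R)

noncomputable def v4453 (R : VR) : ℕ :=
  Nat.lor (VR.opT R) (v1397 R)

noncomputable def s4453 (R : VR) (i : ℕ) : Bool :=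
  K.bor (s1252 R i) (s1398 R i)

theorem e4453 (R : VR) : B (VR.S R) (v4453 R) (s4453 R) :=
  B.or (e1252 R) (e1398 R)

noncomputable def v4454 (R : VR) : ℕ :=
  Nat.sub (VR.o2 R) (v1441 R)

noncomputable def s4454 (R : VR) (j i : ℕ) : Bool :=
  K.bnot (s1441 R j i)

theorem e4454 (R : VR) : B2 R (v4454 R) (s4454 R) :=
  B.not (VR.o2e R) (e1441 R)

noncomputable def v4455 (R : VR) : ℕ :=
  Nat.shiftRight (Nat.land (Nat.sub (VR.h1 R) (Nat.mod (Nat.land (Nat.sub (VR.o2 R) (Nat.sub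
    (VR.o2 R) (v1441 R))) (mM (Nat.mul (v112 R) (VR.S R)))) (VR.m1 R))) (VR.h1 R)) (nat_lit 15)

noncomputable def s4455 (R : VR) (i : ℕ) : Bool :=
  K.allN (s112 R) (fun j => (s4454 R j i))

theorem e4455 (R : VR) : B (VR.S R) (v4455 R) (s4455 R) :=
  B.all (e4454 R) (VR.n_le R)

noncomputable def s4456 (R : VR) (i : ℕ) : Bool :=
  K.allN (s112 R) (fun (x235 : ℕ) => (K.bnot (K.band (K.band (Nat.beq (FC6.Pa.α (FC7.Fr.P (VR.Fr
    R)) x235) x235) (K.bnot (FC6.Pa.real (FC7.Fr.P (VR.Fr R)) x235))) (Nat.beq (FC7.XE.ce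
    (FC7.Fr.X (VR.Fr R)) x235) (FC7.XE.ce (FC7.Fr.X (VR.Fr R)) i)))))

theorem e4456 (R : VR) : B (VR.S R) (v4455 R) (s4456 R) :=
  e4455 R

noncomputable def v4457 (R : VR) : ℕ :=
  Nat.sub (VR.o1 R) (Nat.shiftRight (Nat.land (Nat.sub (VR.h1 R) (Nat.mod (Nat.land (Nat.sub
    (VR.o2 R) (Nat.sub (VR.o2 R) (v1441 R))) (mM (Nat.mul (v112 R) (VR.S R)))) (VR.m1 R))) (VR.h1
    R)) (nat_lit 15))

noncomputable def s4457 (R : VR) (i : ℕ) : Bool :=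
  K.bnot (s4456 R i)

theorem e4457 (R : VR) : B (VR.S R) (v4457 R) (s4457 R) :=
  B.not (VR.o1e R) (e4456 R)

noncomputable def s4458 (R : VR) (i : ℕ) : Bool :=
  K.Fr_hv (VR.Fr R) i

theorem e4458 (R : VR) : B (VR.S R) (v4457 R) (s4458 R) :=
  e4457 R

noncomputable def v4459 (R : VR) : ℕ :=
  Nat.lor (Nat.lor (VR.opT R) (v1397 R)) (Nat.sub (VR.o1 R) (Nat.shiftRight (Nat.land (Nat.sub
    (VR.h1 R) (Nat.mod (Nat.land (Nat.sub (VR.o2 R) (Nat.sub (VR.o2 R) (v1441 R))) (mM (Nat.mul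
    (v112 R) (VR.S R)))) (VR.m1 R))) (VR.h1 R)) (nat_lit 15)))

noncomputable def s4459 (R : VR) (i : ℕ) : Bool :=
  K.bor (s4453 R i) (s4458 R i)

theorem e4459 (R : VR) : B (VR.S R) (v4459 R) (s4459 R) :=
  B.or (e4453 R) (e4458 R)

noncomputable def v4460 (R : VR) : ℕ :=
  Nat.shiftRight (Nat.land (Nat.add (Nat.mod (Nat.land (v1403 R) (mM (Nat.mul (v1128 R) (VR.S
    R)))) (VR.m1 R)) (VR.k1 R)) (VR.h1 R)) (nat_lit 15)

noncomputable def s4460 (R : VR) (i : ℕ) : Bool :=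
  K.bnot (K.allN (s1128 R) (fun j => K.bnot (s1403 R j i)))

theorem e4460 (R : VR) : B (VR.S R) (v4460 R) (s4460 R) :=
  B.any (e1403 R) (VR.kkd_le R)

noncomputable def s4461 (R : VR) (i : ℕ) : Bool :=
  K.lany (FC7.XE.kd (VR.X R)) (fun (x236 : ℕ) => (Nat.beq (FC7.XE.ce (FC7.Fr.X (VR.Fr R)) x236)
    (FC7.XE.ce (FC7.Fr.X (VR.Fr R)) i)))

theorem e4461 (R : VR) : B (VR.S R) (v4460 R) (s4461 R) :=
  B.of_eq (e4460 R) (fun i _ => (lany_lst (VR.kkd R) (VR.kdT R) (fun (x237 : ℕ) => (Nat.beq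
    (FC7.XE.ce (FC7.Fr.X (VR.Fr R)) x237) (FC7.XE.ce (FC7.Fr.X (VR.Fr R)) i)))).symm)

noncomputable def s4462 (R : VR) (i : ℕ) : Bool :=
  K.Fr_hk (VR.Fr R) i

theorem e4462 (R : VR) : B (VR.S R) (v4460 R) (s4462 R) :=
  e4461 R

noncomputable def v4463 (R : VR) : ℕ :=
  Nat.lor (Nat.lor (Nat.lor (VR.opT R) (v1397 R)) (Nat.sub (VR.o1 R) (Nat.shiftRight (Nat.land
    (Nat.sub (VR.h1 R) (Nat.mod (Nat.land (Nat.sub (VR.o2 R) (Nat.sub (VR.o2 R) (v1441 R))) (mM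
    (Nat.mul (v112 R) (VR.S R)))) (VR.m1 R))) (VR.h1 R)) (nat_lit 15)))) (Nat.shiftRight (Nat.land
    (Nat.add (Nat.mod (Nat.land (v1403 R) (mM (Nat.mul (v1128 R) (VR.S R)))) (VR.m1 R)) (VR.k1 R))
    (VR.h1 R)) (nat_lit 15))

noncomputable def s4463 (R : VR) (i : ℕ) : Bool :=
  K.bor (s4459 R i) (s4462 R i)

theorem e4463 (R : VR) : B (VR.S R) (v4463 R) (s4463 R) :=
  B.or (e4459 R) (e4462 R)

noncomputable def v4464 (R : VR) : Bool :=
  Nat.beq (Nat.land (Nat.sub (VR.o1 R) (Nat.lor (Nat.lor (Nat.lor (VR.opT R) (v1397 R)) (Nat.sub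
    (VR.o1 R) (Nat.shiftRight (Nat.land (Nat.sub (VR.h1 R) (Nat.mod (Nat.land (Nat.sub (VR.o2 R)
    (Nat.sub (VR.o2 R) (v1441 R))) (mM (Nat.mul (v112 R) (VR.S R)))) (VR.m1 R))) (VR.h1 R))
    (nat_lit 15)))) (Nat.shiftRight (Nat.land (Nat.add (Nat.mod (Nat.land (v1403 R) (mM (Nat.mul
    (v1128 R) (VR.S R)))) (VR.m1 R)) (VR.k1 R)) (VR.h1 R)) (nat_lit 15)))) (mM (v112 R))) (nat_lit
    0)

noncomputable def s4464 (R : VR) : Bool :=
  K.allN (s112 R) (s4463 R)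

theorem e4464 (R : VR) : (v4464 R) = s4464 R :=
  all0 (e4463 R) (VR.n_le R)

noncomputable def s4465 (R : VR) : Bool :=
  K.allN (s112 R) (fun (x238 : ℕ) => (K.bor (K.bor (K.bor (FC7.Fr.nu (VR.Fr R) x238) (K.lany
    (FC7.XE.dj (VR.X R)) (fun (x239 : ℕ) => (Nat.beq (Nat.lor x239 (tx (VR.pw1T R) (FC7.XE.ce
    (VR.X R) x238))) (tx (VR.pw1T R) (FC7.XE.ce (VR.X R) x238)))))) (K.Fr_hv (VR.Fr R) x238))
    (K.Fr_hk (VR.Fr R) x238)))

theorem e4465 (R : VR) : (v4464 R) = s4465 R :=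
  e4464 R

noncomputable def v4466 (R : VR) : Bool :=
  K.band (K.band (K.band (K.band (K.band (K.band (v198 R) (Nat.beq (v3521 R) (v23 R))) (Nat.ble
    (Nat.succ (v624 R)) (v868 R))) (v4318 R)) (v4136 R)) (v3740 R)) (v4464 R)

noncomputable def s4466 (R : VR) : Bool :=
  K.band (s4452 R) (s4465 R)

theorem e4466 (R : VR) : (v4466 R) = s4466 R :=
  congrArg₂ K.band (e4452 R) (e4465 R)

noncomputable def v4467 (R : VR) : ℕ :=
  tx (VR.ceT R) (v4218 R)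

noncomputable def s4467 (R : VR) : ℕ :=
  tx (VR.ceT R) (s4218 R)

theorem e4467 (R : VR) : (v4467 R) = s4467 R :=
  congrArg (tx (VR.ceT R)) (e4218 R)

theorem b4467 (R : VR) : s4467 R ≤ 14 :=
  VR.ce_le R _

noncomputable def v4468 (R : VR) : ℕ :=
  tx (VR.pw1T R) (tx (VR.ceT R) (v4218 R))

noncomputable def s4468 (R : VR) : ℕ :=
  tx (VR.pw1T R) (s4467 R)

theorem e4468 (R : VR) : (v4468 R) = s4468 R :=
  congrArg (tx (VR.pw1T R)) (e4467 R)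

theorem b4468 (R : VR) : s4468 R ≤ 16384 :=
  VR.pw1_le R _

noncomputable def v4469 (R : VR) : ℕ :=
  Nat.mul (VR.o1 R) (tx (VR.pw1T R) (tx (VR.ceT R) (v4218 R)))

noncomputable def s4469 (R : VR) (i : ℕ) : ℕ :=
  (s4468 R)

theorem e4469 (R : VR) : L (VR.S R) (v4469 R) (s4469 R) 16384 :=
  L.scl (VR.o1e R) (e4468 R) (b4468 R) (by decide)

noncomputable def v4470 (R : VR) : ℕ :=
  Nat.lor (VR.djT R) (v4469 R)

noncomputable def s4470 (R : VR) (i : ℕ) : ℕ :=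
  Nat.lor (s1390 R i) (s4469 R i)

theorem e4470 (R : VR) : L (VR.S R) (v4470 R) (s4470 R) 32767 :=
  L.lor (e1390 R) (e4469 R)

noncomputable def v4471 (R : VR) : ℕ :=
  Nat.shiftRight (Nat.land (Nat.sub (VR.h1 R) (Nat.xor (Nat.lor (VR.djT R) (v4469 R)) (v4469 R)))
    (VR.h1 R)) (nat_lit 15)

noncomputable def s4471 (R : VR) (i : ℕ) : Bool :=
  Nat.beq (s4470 R i) (s4469 R i)

theorem e4471 (R : VR) : B (VR.S R) (v4471 R) (s4471 R) :=
  L.beq (VR.h1e R) (e4470 R) (e4469 R)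

noncomputable def v4472 (R : VR) : Bool :=
  K.bnot (Nat.beq (Nat.land (Nat.shiftRight (Nat.land (Nat.sub (VR.h1 R) (Nat.xor (Nat.lor (VR.djT
    R) (v4469 R)) (v4469 R))) (VR.h1 R)) (nat_lit 15)) (mM (v1389 R))) (nat_lit 0))

noncomputable def s4472 (R : VR) : Bool :=
  K.bnot (K.allN (s1389 R) (fun t => K.bnot ((s4471 R) t)))

theorem e4472 (R : VR) : (v4472 R) = s4472 R :=
  any0 (e4471 R) (VR.kdj_le R)

noncomputable def s4473 (R : VR) : Bool :=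
  K.lany (FC7.XE.dj (VR.X R)) (fun (x240 : ℕ) => (Nat.beq (Nat.lor x240 (tx (VR.pw1T R) (FC7.XE.ce
    (VR.X R) (VR.dr R)))) (tx (VR.pw1T R) (FC7.XE.ce (VR.X R) (VR.dr R)))))

theorem e4473 (R : VR) : (v4472 R) = s4473 R :=
  (e4472 R).trans (lany_lst (VR.kdj R) (VR.djT R) (fun (x241 : ℕ) => (Nat.beq (Nat.lor x241 (tx
    (VR.pw1T R) (FC7.XE.ce (VR.X R) (VR.dr R)))) (tx (VR.pw1T R) (FC7.XE.ce (VR.X R) (VR.dr
    R)))))).symm

noncomputable def v4474 (R : VR) : Bool :=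
  K.bor (v4217 R) (K.bnot (Nat.beq (Nat.land (Nat.shiftRight (Nat.land (Nat.sub (VR.h1 R) (Nat.xor
    (Nat.lor (VR.djT R) (v4469 R)) (v4469 R))) (VR.h1 R)) (nat_lit 15)) (mM (v1389 R))) (nat_lit
    0)))

noncomputable def s4474 (R : VR) : Bool :=
  K.bor (s4217 R) (s4473 R)

theorem e4474 (R : VR) : (v4474 R) = s4474 R :=
  congrArg₂ K.bor (e4217 R) (e4473 R)

noncomputable def v4475 (R : VR) : Bool :=
  K.band (K.band (K.band (K.band (K.band (K.band (K.band (v198 R) (Nat.beq (v3521 R) (v23 R)))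
    (Nat.ble (Nat.succ (v624 R)) (v868 R))) (v4318 R)) (v4136 R)) (v3740 R)) (v4464 R)) (K.bor
    (v4217 R) (K.bnot (Nat.beq (Nat.land (Nat.shiftRight (Nat.land (Nat.sub (VR.h1 R) (Nat.xor
    (Nat.lor (VR.djT R) (v4469 R)) (v4469 R))) (VR.h1 R)) (nat_lit 15)) (mM (v1389 R))) (nat_lit
    0))))

noncomputable def s4475 (R : VR) : Bool :=
  K.band (s4466 R) (s4474 R)

theorem e4475 (R : VR) : (v4475 R) = s4475 R :=
  congrArg₂ K.band (e4466 R) (e4474 R)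

noncomputable def v4476 (R : VR) : Bool :=
  K.band (K.band (K.band (K.band (K.band (K.band (K.band (K.band (v198 R) (Nat.beq (v3521 R) (v23
    R))) (Nat.ble (Nat.succ (v624 R)) (v868 R))) (v4318 R)) (v4136 R)) (v3740 R)) (v4464 R))
    (K.bor (v4217 R) (K.bnot (Nat.beq (Nat.land (Nat.shiftRight (Nat.land (Nat.sub (VR.h1 R)
    (Nat.xor (Nat.lor (VR.djT R) (v4469 R)) (v4469 R))) (VR.h1 R)) (nat_lit 15)) (mM (v1389 R)))
    (nat_lit 0))))) (v3667 R)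

noncomputable def s4476 (R : VR) : Bool :=
  K.band (s4475 R) (s3668 R)

theorem e4476 (R : VR) : (v4476 R) = s4476 R :=
  congrArg₂ K.band (e4475 R) (e3668 R)

noncomputable def v4477 (R : VR) : Bool :=
  Nat.beq (Nat.land (Nat.sub (VR.o1 R) (v3672 R)) (mM (v624 R))) (nat_lit 0)

noncomputable def s4477 (R : VR) : Bool :=
  K.allN (s624 R) (s3673 R)

theorem e4477 (R : VR) : (v4477 R) = s4477 R :=
  all0 (e3673 R) (VR.x_le R)

noncomputable def s4478 (R : VR) : Bool :=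
  K.allN (s624 R) (fun (x245 : ℕ) => (K.lmem (FC7.XE.st (VR.X R) x245) (FC7.XE.dj (VR.X R))))

theorem e4478 (R : VR) : (v4477 R) = s4478 R :=
  e4477 R

noncomputable def v4479 (R : VR) : Bool :=
  K.band (K.band (K.band (K.band (K.band (K.band (K.band (K.band (K.band (v198 R) (Nat.beq (v3521
    R) (v23 R))) (Nat.ble (Nat.succ (v624 R)) (v868 R))) (v4318 R)) (v4136 R)) (v3740 R)) (v4464
    R)) (K.bor (v4217 R) (K.bnot (Nat.beq (Nat.land (Nat.shiftRight (Nat.land (Nat.sub (VR.h1 R)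
    (Nat.xor (Nat.lor (VR.djT R) (v4469 R)) (v4469 R))) (VR.h1 R)) (nat_lit 15)) (mM (v1389 R)))
    (nat_lit 0))))) (v3667 R)) (Nat.beq (Nat.land (Nat.sub (VR.o1 R) (v3672 R)) (mM (v624 R)))
    (nat_lit 0))

noncomputable def s4479 (R : VR) : Bool :=
  K.band (s4476 R) (s4478 R)

theorem e4479 (R : VR) : (v4479 R) = s4479 R :=
  congrArg₂ K.band (e4476 R) (e4478 R)

noncomputable def s4480 (R : VR) (i : ℕ) : Bool :=
  K.lany (FC7.XE.lr (VR.X R)) (fun (x246 : ℕ × Bool × Bool) => (K.band (Nat.beq (Prod.fst x246)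
    (s1312 R i)) (Prod.fst (Prod.snd x246))))

theorem e4480 (R : VR) : B (VR.S R) (v3690 R) (s4480 R) :=
  e3690 R

noncomputable def v4481 (R : VR) : ℕ :=
  Nat.lor (v3681 R) (v3690 R)

noncomputable def s4481 (R : VR) (i : ℕ) : Bool :=
  K.bor (s3681 R i) (s4480 R i)

theorem e4481 (R : VR) : B (VR.S R) (v4481 R) (s4481 R) :=
  B.or (e3681 R) (e4480 R)

noncomputable def v4482 (R : VR) : ℕ :=
  Nat.xor (v4481 R) (Nat.land (Nat.xor (v4481 R) (v3695 R)) (v3683 R))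

noncomputable def s4482 (R : VR) (i : ℕ) : Bool :=
  Bool.rec (motive := fun _ => Bool) (s4481 R i) (s3696 R i) (s3683 R i)

theorem e4482 (R : VR) : B (VR.S R) (v4482 R) (s4482 R) :=
  B.sel (e3683 R) (e3696 R) (e4481 R)

noncomputable def s4483 (R : VR) (i : ℕ) : Bool :=
  K.lany (FC7.XE.lr (VR.X R)) (fun (x247 : ℕ × Bool × Bool) => (K.band (Nat.beq (Prod.fst x247)
    (s1313 R i)) (Prod.fst (Prod.snd x247))))

theorem e4483 (R : VR) : B (VR.S R) (v3690 R) (s4483 R) :=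
  e3690 R

noncomputable def v4484 (R : VR) : ℕ :=
  Nat.lor (v3702 R) (v3690 R)

noncomputable def s4484 (R : VR) (i : ℕ) : Bool :=
  K.bor (s3702 R i) (s4483 R i)

theorem e4484 (R : VR) : B (VR.S R) (v4484 R) (s4484 R) :=
  B.or (e3702 R) (e4483 R)

noncomputable def v4485 (R : VR) : ℕ :=
  Nat.xor (v4484 R) (Nat.land (Nat.xor (v4484 R) (v3711 R)) (v3703 R))

noncomputable def s4485 (R : VR) (i : ℕ) : Bool :=
  Bool.rec (motive := fun _ => Bool) (s4484 R i) (s3712 R i) (s3703 R i)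

theorem e4485 (R : VR) : B (VR.S R) (v4485 R) (s4485 R) :=
  B.sel (e3703 R) (e3712 R) (e4484 R)

noncomputable def v4486 (R : VR) : ℕ :=
  Nat.land (Nat.xor (v4481 R) (Nat.land (Nat.xor (v4481 R) (v3695 R)) (v3683 R))) (Nat.xor (v4484
    R) (Nat.land (Nat.xor (v4484 R) (v3711 R)) (v3703 R)))

noncomputable def s4486 (R : VR) (i : ℕ) : Bool :=
  K.band (s4482 R i) (s4485 R i)

theorem e4486 (R : VR) : B (VR.S R) (v4486 R) (s4486 R) :=
  B.and (e4482 R) (e4485 R)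

noncomputable def v4487 (R : VR) : Bool :=
  Nat.beq (Nat.land (Nat.sub (VR.o1 R) (Nat.land (Nat.xor (v4481 R) (Nat.land (Nat.xor (v4481 R)
    (v3695 R)) (v3683 R))) (Nat.xor (v4484 R) (Nat.land (Nat.xor (v4484 R) (v3711 R)) (v3703
    R))))) (mM (v1311 R))) (nat_lit 0)

noncomputable def s4487 (R : VR) : Bool :=
  K.allN (s1311 R) (s4486 R)

theorem e4487 (R : VR) : (v4487 R) = s4487 R :=
  all0 (e4486 R) (VR.kar_le R)

noncomputable def s4488 (R : VR) : Bool :=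
  K.lall (FC7.XE.rs (VR.X R)) (fun (x248 : ℕ) => (Bool.rec (motive := fun _ => Bool) (K.bor
    (K.bnot (FC7.Fr.lb (VR.Fr R) x248)) (K.lany (FC7.XE.lr (VR.X R)) (fun (x249 : ℕ × Bool × Bool)
    => (K.band (Nat.beq (Prod.fst x249) x248) (Prod.fst (Prod.snd x249)))))) (K.lmem x248
    (FC7.XE.kd (VR.X R))) (FC7.Fr.lu (VR.Fr R) x248)))

theorem e4488 (R : VR) : (v4487 R) = s4488 R :=
  (e4487 R).trans (lall_rs (VR.kar R) (VR.ar1T R) (VR.ar2T R) (fun (x250 : ℕ) => (Bool.rec (motive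
    := fun _ => Bool) (K.bor (K.bnot (FC7.Fr.lb (VR.Fr R) x250)) (K.lany (FC7.XE.lr (VR.X R)) (fun
    (x251 : ℕ × Bool × Bool) => (K.band (Nat.beq (Prod.fst x251) x250) (Prod.fst (Prod.snd
    x251)))))) (K.lmem x250 (FC7.XE.kd (VR.X R))) (FC7.Fr.lu (VR.Fr R) x250)))).symm

noncomputable def v4489 (R : VR) : Bool :=
  K.band (v4479 R) (Nat.beq (Nat.land (Nat.sub (VR.o1 R) (Nat.land (Nat.xor (v4481 R) (Nat.land
    (Nat.xor (v4481 R) (v3695 R)) (v3683 R))) (Nat.xor (v4484 R) (Nat.land (Nat.xor (v4484 R)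
    (v3711 R)) (v3703 R))))) (mM (v1311 R))) (nat_lit 0))

noncomputable def s4489 (R : VR) : Bool :=
  K.band (s4479 R) (s4488 R)

theorem e4489 (R : VR) : (v4489 R) = s4489 R :=
  congrArg₂ K.band (e4479 R) (e4488 R)

noncomputable def v4490 (R : VR) : ℕ :=
  Nat.lor (v4009 R) (v192 R)

noncomputable def s4490 (R : VR) (i : ℕ) : Bool :=
  K.bor (s4009 R i) (s192 R i)

theorem e4490 (R : VR) : B (VR.S R) (v4490 R) (s4490 R) :=
  B.or (e4009 R) (e192 R)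

noncomputable def v4491 (R : VR) : Bool :=
  Nat.beq (Nat.land (Nat.sub (VR.o1 R) (Nat.lor (v4009 R) (v192 R))) (mM (v112 R))) (nat_lit 0)

noncomputable def s4491 (R : VR) : Bool :=
  K.allN (s112 R) (s4490 R)

theorem e4491 (R : VR) : (v4491 R) = s4491 R :=
  all0 (e4490 R) (VR.n_le R)

noncomputable def s4492 (R : VR) : Bool :=
  K.allN (s112 R) (fun (x252 : ℕ) => (K.bor (K.bnot (FC7.Fr.lu (VR.Fr R) x252)) (Nat.beq (FC6.Pa.α
    (VR.P R) x252) x252)))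

theorem e4492 (R : VR) : (v4491 R) = s4492 R :=
  e4491 R

noncomputable def v4493 (R : VR) : Bool :=
  K.band (K.band (v4479 R) (Nat.beq (Nat.land (Nat.sub (VR.o1 R) (Nat.land (Nat.xor (v4481 R)
    (Nat.land (Nat.xor (v4481 R) (v3695 R)) (v3683 R))) (Nat.xor (v4484 R) (Nat.land (Nat.xor
    (v4484 R) (v3711 R)) (v3703 R))))) (mM (v1311 R))) (nat_lit 0))) (Nat.beq (Nat.land (Nat.sub
    (VR.o1 R) (Nat.lor (v4009 R) (v192 R))) (mM (v112 R))) (nat_lit 0))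

noncomputable def s4493 (R : VR) : Bool :=
  K.band (s4489 R) (s4492 R)

theorem e4493 (R : VR) : (v4493 R) = s4493 R :=
  congrArg₂ K.band (e4489 R) (e4492 R)

noncomputable def v4494 (R : VR) : Bool :=
  true

noncomputable def s4494 (R : VR) : Bool :=
  K.lall (FC7.XE.lr (VR.X R)) (fun (x253 : ℕ × Bool × Bool) => (K.bor (K.bnot (Prod.snd (Prod.snd
    x253))) (K.Fr_lk (VR.Fr R) (Prod.fst x253))))

theorem e4494 (R : VR) : (v4494 R) = s4494 R :=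
  rfl

noncomputable def v4495 (R : VR) : Bool :=
  K.band (K.band (K.band (v4479 R) (Nat.beq (Nat.land (Nat.sub (VR.o1 R) (Nat.land (Nat.xor (v4481
    R) (Nat.land (Nat.xor (v4481 R) (v3695 R)) (v3683 R))) (Nat.xor (v4484 R) (Nat.land (Nat.xor
    (v4484 R) (v3711 R)) (v3703 R))))) (mM (v1311 R))) (nat_lit 0))) (Nat.beq (Nat.land (Nat.sub
    (VR.o1 R) (Nat.lor (v4009 R) (v192 R))) (mM (v112 R))) (nat_lit 0))) (true)

noncomputable def s4495 (R : VR) : Bool :=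
  K.band (s4493 R) (s4494 R)

theorem e4495 (R : VR) : (v4495 R) = s4495 R :=
  congrArg₂ K.band (e4493 R) (e4494 R)

noncomputable def v4496 (R : VR) : ℕ :=
  Nat.land (v1444 R) (v3622 R)

noncomputable def s4496 (R : VR) (j i : ℕ) : Bool :=
  K.band (s1444 R j i) (s3622 R j i)

theorem e4496 (R : VR) : B2 R (v4496 R) (s4496 R) :=
  B.and (e1444 R) (e3622 R)

noncomputable def v4497 (R : VR) : ℕ :=
  Nat.sub (VR.o2 R) (Nat.land (v1444 R) (v3622 R))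

noncomputable def s4497 (R : VR) (j i : ℕ) : Bool :=
  K.bnot (s4496 R j i)

theorem e4497 (R : VR) : B2 R (v4497 R) (s4497 R) :=
  B.not (VR.o2e R) (e4496 R)

noncomputable def v4498 (R : VR) : ℕ :=
  Nat.shiftRight (Nat.land (Nat.sub (VR.h1 R) (Nat.mod (Nat.land (Nat.sub (VR.o2 R) (Nat.sub
    (VR.o2 R) (Nat.land (v1444 R) (v3622 R)))) (mM (Nat.mul (v112 R) (VR.S R)))) (VR.m1 R)))
    (VR.h1 R)) (nat_lit 15)

noncomputable def s4498 (R : VR) (i : ℕ) : Bool :=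
  K.allN (s112 R) (fun j => (s4497 R j i))

theorem e4498 (R : VR) : B (VR.S R) (v4498 R) (s4498 R) :=
  B.all (e4497 R) (VR.n_le R)

noncomputable def s4499 (R : VR) (i : ℕ) : Bool :=
  K.allN (s112 R) (fun (x254 : ℕ) => (K.bnot (K.band (FC7.Fr.rq (VR.Fr R) x254) (K.tbit (s3618 R
    i) (FC7.XE.ce' (VR.X R) x254)))))

theorem e4499 (R : VR) : B (VR.S R) (v4498 R) (s4499 R) :=
  e4498 R

noncomputable def v4500 (R : VR) : ℕ :=
  Nat.sub (VR.o1 R) (Nat.shiftRight (Nat.land (Nat.sub (VR.h1 R) (Nat.mod (Nat.land (Nat.sub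
    (VR.o2 R) (Nat.sub (VR.o2 R) (Nat.land (v1444 R) (v3622 R)))) (mM (Nat.mul (v112 R) (VR.S
    R)))) (VR.m1 R))) (VR.h1 R)) (nat_lit 15))

noncomputable def s4500 (R : VR) (i : ℕ) : Bool :=
  K.bnot (s4499 R i)

theorem e4500 (R : VR) : B (VR.S R) (v4500 R) (s4500 R) :=
  B.not (VR.o1e R) (e4499 R)

noncomputable def v4501 (R : VR) : ℕ :=
  Nat.land (VR.lbT R) (v4009 R)

noncomputable def s4501 (R : VR) (i : ℕ) : Bool :=
  K.band (s1126 R i) (s4009 R i)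

theorem e4501 (R : VR) : B (VR.S R) (v4501 R) (s4501 R) :=
  B.and (e1126 R) (e4009 R)

noncomputable def v4502 (R : VR) : ℕ :=
  tx (VR.alT R) (v4218 R)

noncomputable def s4502 (R : VR) : ℕ :=
  tx (VR.alT R) (s4218 R)

theorem e4502 (R : VR) : (v4502 R) = s4502 R :=
  congrArg (tx (VR.alT R)) (e4218 R)

theorem b4502 (R : VR) : s4502 R ≤ 255 :=
  VR.al_le R _

noncomputable def v4503 (R : VR) : ℕ :=
  Nat.mul (VR.o1 R) (tx (VR.alT R) (v4218 R))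

noncomputable def s4503 (R : VR) (i : ℕ) : ℕ :=
  (s4502 R)

theorem e4503 (R : VR) : L (VR.S R) (v4503 R) (s4503 R) 255 :=
  L.scl (VR.o1e R) (e4502 R) (b4502 R) (by decide)

noncomputable def v4504 (R : VR) : ℕ :=
  Nat.shiftRight (Nat.land (Nat.sub (VR.h1 R) (Nat.xor (VR.iota R) (Nat.mul (VR.o1 R) (tx (VR.alT
    R) (v4218 R))))) (VR.h1 R)) (nat_lit 15)

noncomputable def s4504 (R : VR) (i : ℕ) : Bool :=
  Nat.beq (s0 R i) (s4503 R i)

theorem e4504 (R : VR) : B (VR.S R) (v4504 R) (s4504 R) :=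
  L.beq (VR.h1e R) (e0 R) (e4503 R)

noncomputable def v4505 (R : VR) : ℕ :=
  Nat.lor (v4225 R) (Nat.shiftRight (Nat.land (Nat.sub (VR.h1 R) (Nat.xor (VR.iota R) (Nat.mul
    (VR.o1 R) (tx (VR.alT R) (v4218 R))))) (VR.h1 R)) (nat_lit 15))

noncomputable def s4505 (R : VR) (i : ℕ) : Bool :=
  K.bor (s4225 R i) (s4504 R i)

theorem e4505 (R : VR) : B (VR.S R) (v4505 R) (s4505 R) :=
  B.or (e4225 R) (e4504 R)

noncomputable def v4506 (R : VR) : ℕ :=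
  Bool.rec (motive := fun _ => ℕ) (nat_lit 0) (Nat.lor (v4225 R) (Nat.shiftRight (Nat.land
    (Nat.sub (VR.h1 R) (Nat.xor (VR.iota R) (Nat.mul (VR.o1 R) (tx (VR.alT R) (v4218 R))))) (VR.h1
    R)) (nat_lit 15))) (v4217 R)

noncomputable def s4506 (R : VR) (i : ℕ) : Bool :=
  K.band (s4217 R) (s4505 R i)

theorem e4506 (R : VR) : B (VR.S R) (v4506 R) (s4506 R) :=
  B.gand (e4217 R) (e4505 R)

noncomputable def v4507 (R : VR) : ℕ :=
  Nat.sub (VR.o1 R) (Bool.rec (motive := fun _ => ℕ) (nat_lit 0) (Nat.lor (v4225 R)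
    (Nat.shiftRight (Nat.land (Nat.sub (VR.h1 R) (Nat.xor (VR.iota R) (Nat.mul (VR.o1 R) (tx
    (VR.alT R) (v4218 R))))) (VR.h1 R)) (nat_lit 15))) (v4217 R))

noncomputable def s4507 (R : VR) (i : ℕ) : Bool :=
  K.bnot (s4506 R i)

theorem e4507 (R : VR) : B (VR.S R) (v4507 R) (s4507 R) :=
  B.not (VR.o1e R) (e4506 R)

noncomputable def v4508 (R : VR) : ℕ :=
  Nat.land (Nat.land (VR.lbT R) (v4009 R)) (Nat.sub (VR.o1 R) (Bool.rec (motive := fun _ => ℕ)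
    (nat_lit 0) (Nat.lor (v4225 R) (Nat.shiftRight (Nat.land (Nat.sub (VR.h1 R) (Nat.xor (VR.iota
    R) (Nat.mul (VR.o1 R) (tx (VR.alT R) (v4218 R))))) (VR.h1 R)) (nat_lit 15))) (v4217 R)))

noncomputable def s4508 (R : VR) (i : ℕ) : Bool :=
  K.band (s4501 R i) (s4507 R i)

theorem e4508 (R : VR) : B (VR.S R) (v4508 R) (s4508 R) :=
  B.and (e4501 R) (e4507 R)

noncomputable def s4509 (R : VR) (i : ℕ) : Bool :=
  K.Fr_lk (VR.Fr R) i

theorem e4509 (R : VR) : B (VR.S R) (v4508 R) (s4509 R) :=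
  e4508 R

noncomputable def v4510 (R : VR) : ℕ :=
  Nat.land (Nat.land (Nat.land (VR.lbT R) (v4009 R)) (Nat.sub (VR.o1 R) (Bool.rec (motive := fun _
    => ℕ) (nat_lit 0) (Nat.lor (v4225 R) (Nat.shiftRight (Nat.land (Nat.sub (VR.h1 R) (Nat.xor
    (VR.iota R) (Nat.mul (VR.o1 R) (tx (VR.alT R) (v4218 R))))) (VR.h1 R)) (nat_lit 15))) (v4217
    R)))) (v432 R)

noncomputable def s4510 (R : VR) (i : ℕ) : Bool :=
  K.band (s4509 R i) (s432 R i)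

theorem e4510 (R : VR) : B (VR.S R) (v4510 R) (s4510 R) :=
  B.and (e4509 R) (e432 R)

noncomputable def v4511 (R : VR) : ℕ :=
  srM (VR.N R) (VR.S R) (VR.o1 R) (Nat.land (Nat.land (Nat.land (VR.lbT R) (v4009 R)) (Nat.sub
    (VR.o1 R) (Bool.rec (motive := fun _ => ℕ) (nat_lit 0) (Nat.lor (v4225 R) (Nat.shiftRight
    (Nat.land (Nat.sub (VR.h1 R) (Nat.xor (VR.iota R) (Nat.mul (VR.o1 R) (tx (VR.alT R) (v4218
    R))))) (VR.h1 R)) (nat_lit 15))) (v4217 R)))) (v432 R))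

noncomputable def s4511 (R : VR) (j i : ℕ) : Bool :=
  (s4510 R j)

theorem e4511 (R : VR) : B2 R (v4511 R) (s4511 R) :=
  B2.row (e4510 R)

noncomputable def v4512 (R : VR) : ℕ :=
  Nat.land (srM (VR.N R) (VR.S R) (VR.o1 R) (Nat.land (Nat.land (Nat.land (VR.lbT R) (v4009 R))
    (Nat.sub (VR.o1 R) (Bool.rec (motive := fun _ => ℕ) (nat_lit 0) (Nat.lor (v4225 R)
    (Nat.shiftRight (Nat.land (Nat.sub (VR.h1 R) (Nat.xor (VR.iota R) (Nat.mul (VR.o1 R) (tx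
    (VR.alT R) (v4218 R))))) (VR.h1 R)) (nat_lit 15))) (v4217 R)))) (v432 R))) (v3622 R)

noncomputable def s4512 (R : VR) (j i : ℕ) : Bool :=
  K.band (s4511 R j i) (s3622 R j i)

theorem e4512 (R : VR) : B2 R (v4512 R) (s4512 R) :=
  B.and (e4511 R) (e3622 R)

noncomputable def v4513 (R : VR) : ℕ :=
  Nat.land (Nat.land (srM (VR.N R) (VR.S R) (VR.o1 R) (Nat.land (Nat.land (Nat.land (VR.lbT R)
    (v4009 R)) (Nat.sub (VR.o1 R) (Bool.rec (motive := fun _ => ℕ) (nat_lit 0) (Nat.lor (v4225 R)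
    (Nat.shiftRight (Nat.land (Nat.sub (VR.h1 R) (Nat.xor (VR.iota R) (Nat.mul (VR.o1 R) (tx
    (VR.alT R) (v4218 R))))) (VR.h1 R)) (nat_lit 15))) (v4217 R)))) (v432 R))) (v3622 R)) (v3636
    R)

noncomputable def s4513 (R : VR) (j i : ℕ) : Bool :=
  K.band (s4512 R j i) (s3636 R j i)

theorem e4513 (R : VR) : B2 R (v4513 R) (s4513 R) :=
  B.and (e4512 R) (e3636 R)

noncomputable def v4514 (R : VR) : ℕ :=
  Nat.sub (VR.o2 R) (Nat.land (Nat.land (srM (VR.N R) (VR.S R) (VR.o1 R) (Nat.land (Nat.land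
    (Nat.land (VR.lbT R) (v4009 R)) (Nat.sub (VR.o1 R) (Bool.rec (motive := fun _ => ℕ) (nat_lit
    0) (Nat.lor (v4225 R) (Nat.shiftRight (Nat.land (Nat.sub (VR.h1 R) (Nat.xor (VR.iota R)
    (Nat.mul (VR.o1 R) (tx (VR.alT R) (v4218 R))))) (VR.h1 R)) (nat_lit 15))) (v4217 R)))) (v432
    R))) (v3622 R)) (v3636 R))

noncomputable def s4514 (R : VR) (j i : ℕ) : Bool :=
  K.bnot (s4513 R j i)

theorem e4514 (R : VR) : B2 R (v4514 R) (s4514 R) :=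
  B.not (VR.o2e R) (e4513 R)

noncomputable def v4515 (R : VR) : ℕ :=
  Nat.shiftRight (Nat.land (Nat.sub (VR.h1 R) (Nat.mod (Nat.land (Nat.sub (VR.o2 R) (Nat.sub
    (VR.o2 R) (Nat.land (Nat.land (srM (VR.N R) (VR.S R) (VR.o1 R) (Nat.land (Nat.land (Nat.land
    (VR.lbT R) (v4009 R)) (Nat.sub (VR.o1 R) (Bool.rec (motive := fun _ => ℕ) (nat_lit 0) (Nat.lor
    (v4225 R) (Nat.shiftRight (Nat.land (Nat.sub (VR.h1 R) (Nat.xor (VR.iota R) (Nat.mul (VR.o1 R)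
    (tx (VR.alT R) (v4218 R))))) (VR.h1 R)) (nat_lit 15))) (v4217 R)))) (v432 R))) (v3622 R))
    (v3636 R)))) (mM (Nat.mul (v112 R) (VR.S R)))) (VR.m1 R))) (VR.h1 R)) (nat_lit 15)

noncomputable def s4515 (R : VR) (i : ℕ) : Bool :=
  K.allN (s112 R) (fun j => (s4514 R j i))

theorem e4515 (R : VR) : B (VR.S R) (v4515 R) (s4515 R) :=
  B.all (e4514 R) (VR.n_le R)

noncomputable def s4516 (R : VR) (i : ℕ) : Bool :=
  K.allN (s112 R) (fun (x255 : ℕ) => (K.bnot (K.band (K.band (K.band (K.Fr_lk (VR.Fr R) x255)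
    (K.bnot (Nat.beq (FC6.Pa.α (VR.P R) x255) x255))) (K.tbit (s3618 R i) (FC7.XE.ce' (VR.X R)
    x255))) (K.tbit (s3618 R i) (FC7.XE.ce' (VR.X R) (FC6.Pa.α (VR.P R) x255))))))

theorem e4516 (R : VR) : B (VR.S R) (v4515 R) (s4516 R) :=
  e4515 R

noncomputable def v4517 (R : VR) : ℕ :=
  Nat.sub (VR.o1 R) (v4515 R)

noncomputable def s4517 (R : VR) (i : ℕ) : Bool :=
  K.bnot (s4516 R i)

theorem e4517 (R : VR) : B (VR.S R) (v4517 R) (s4517 R) :=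
  B.not (VR.o1e R) (e4516 R)

noncomputable def v4518 (R : VR) : ℕ :=
  Nat.lor (Nat.sub (VR.o1 R) (Nat.shiftRight (Nat.land (Nat.sub (VR.h1 R) (Nat.mod (Nat.land
    (Nat.sub (VR.o2 R) (Nat.sub (VR.o2 R) (Nat.land (v1444 R) (v3622 R)))) (mM (Nat.mul (v112 R)
    (VR.S R)))) (VR.m1 R))) (VR.h1 R)) (nat_lit 15))) (Nat.sub (VR.o1 R) (v4515 R))

noncomputable def s4518 (R : VR) (i : ℕ) : Bool :=
  K.bor (s4500 R i) (s4517 R i)

theorem e4518 (R : VR) : B (VR.S R) (v4518 R) (s4518 R) :=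
  B.or (e4500 R) (e4517 R)

noncomputable def v4519 (R : VR) : ℕ :=
  Nat.sub (VR.o2 R) (v3647 R)

noncomputable def s4519 (R : VR) (j i : ℕ) : Bool :=
  K.bnot (s3647 R j i)

theorem e4519 (R : VR) : B2 R (v4519 R) (s4519 R) :=
  B.not (VR.o2e R) (e3647 R)

noncomputable def v4520 (R : VR) : ℕ :=
  Nat.shiftRight (Nat.land (Nat.sub (VR.h1 R) (Nat.mod (Nat.land (Nat.sub (VR.o2 R) (Nat.sub
    (VR.o2 R) (v3647 R))) (mM (Nat.mul (v624 R) (VR.S R)))) (VR.m1 R))) (VR.h1 R)) (nat_lit 15)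

noncomputable def s4520 (R : VR) (i : ℕ) : Bool :=
  K.allN (s624 R) (fun j => (s4519 R j i))

theorem e4520 (R : VR) : B (VR.S R) (v4520 R) (s4520 R) :=
  B.all (e4519 R) (VR.x_le R)

noncomputable def s4521 (R : VR) (i : ℕ) : Bool :=
  K.allN (s624 R) (fun (x256 : ℕ) => (K.bnot (Nat.beq (Nat.land (tx (VR.SPMT R) x256) (s3618 R i))
    (tx (VR.SPMT R) x256))))

theorem e4521 (R : VR) : B (VR.S R) (v4520 R) (s4521 R) :=
  e4520 R

noncomputable def v4522 (R : VR) : ℕ :=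
  Nat.sub (VR.o1 R) (Nat.shiftRight (Nat.land (Nat.sub (VR.h1 R) (Nat.mod (Nat.land (Nat.sub
    (VR.o2 R) (Nat.sub (VR.o2 R) (v3647 R))) (mM (Nat.mul (v624 R) (VR.S R)))) (VR.m1 R))) (VR.h1
    R)) (nat_lit 15))

noncomputable def s4522 (R : VR) (i : ℕ) : Bool :=
  K.bnot (s4521 R i)

theorem e4522 (R : VR) : B (VR.S R) (v4522 R) (s4522 R) :=
  B.not (VR.o1e R) (e4521 R)

noncomputable def v4523 (R : VR) : ℕ :=
  Nat.lor (Nat.lor (Nat.sub (VR.o1 R) (Nat.shiftRight (Nat.land (Nat.sub (VR.h1 R) (Nat.mod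
    (Nat.land (Nat.sub (VR.o2 R) (Nat.sub (VR.o2 R) (Nat.land (v1444 R) (v3622 R)))) (mM (Nat.mul
    (v112 R) (VR.S R)))) (VR.m1 R))) (VR.h1 R)) (nat_lit 15))) (Nat.sub (VR.o1 R) (v4515 R)))
    (Nat.sub (VR.o1 R) (Nat.shiftRight (Nat.land (Nat.sub (VR.h1 R) (Nat.mod (Nat.land (Nat.sub
    (VR.o2 R) (Nat.sub (VR.o2 R) (v3647 R))) (mM (Nat.mul (v624 R) (VR.S R)))) (VR.m1 R))) (VR.h1
    R)) (nat_lit 15)))

noncomputable def s4523 (R : VR) (i : ℕ) : Bool :=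
  K.bor (s4518 R i) (s4522 R i)

theorem e4523 (R : VR) : B (VR.S R) (v4523 R) (s4523 R) :=
  B.or (e4518 R) (e4522 R)

noncomputable def v4524 (R : VR) : Bool :=
  Nat.beq (Nat.land (Nat.sub (VR.o1 R) (v4523 R)) (mM (v3617 R))) (nat_lit 0)

noncomputable def s4524 (R : VR) : Bool :=
  K.allN (s3617 R) (s4523 R)

theorem e4524 (R : VR) : (v4524 R) = s4524 R :=
  all0 (e4523 R) (VR.kdjp_le R)

noncomputable def s4525 (R : VR) : Bool :=
  K.lall (FC7.XE.dj' (VR.X R)) (fun (x257 : ℕ) => (K.bor (K.bor (K.bnot (K.allN (FC6.Pa.n (VR.P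
    R)) (fun (x258 : ℕ) => (K.bnot (K.band (FC7.Fr.rq (VR.Fr R) x258) (K.tbit x257 (FC7.XE.ce'
    (VR.X R) x258))))))) (K.bnot (K.allN (FC6.Pa.n (VR.P R)) (fun (x259 : ℕ) => (K.bnot (K.band
    (K.band (K.band (K.Fr_lk (VR.Fr R) x259) (K.bnot (Nat.beq (FC6.Pa.α (VR.P R) x259) x259)))
    (K.tbit x257 (FC7.XE.ce' (VR.X R) x259))) (K.tbit x257 (FC7.XE.ce' (VR.X R) (FC6.Pa.α (VR.P R)
    x259))))))))) (K.bnot (K.allN (FC7.XE.x (VR.X R)) (fun (x260 : ℕ) => (K.bnot (Nat.beq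
    (Nat.land (tx (VR.SPMT R) x260) x257) (tx (VR.SPMT R) x260))))))))

theorem e4525 (R : VR) : (v4524 R) = s4525 R :=
  (e4524 R).trans (lall_lst (VR.kdjp R) (VR.djpT R) (fun (x261 : ℕ) => (K.bor (K.bor (K.bnot
    (K.allN (FC6.Pa.n (VR.P R)) (fun (x262 : ℕ) => (K.bnot (K.band (FC7.Fr.rq (VR.Fr R) x262)
    (K.tbit x261 (FC7.XE.ce' (VR.X R) x262))))))) (K.bnot (K.allN (FC6.Pa.n (VR.P R)) (fun (x263 :
    ℕ) => (K.bnot (K.band (K.band (K.band (K.Fr_lk (VR.Fr R) x263) (K.bnot (Nat.beq (FC6.Pa.α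
    (VR.P R) x263) x263))) (K.tbit x261 (FC7.XE.ce' (VR.X R) x263))) (K.tbit x261 (FC7.XE.ce'
    (VR.X R) (FC6.Pa.α (VR.P R) x263))))))))) (K.bnot (K.allN (FC7.XE.x (VR.X R)) (fun (x264 : ℕ)
    => (K.bnot (Nat.beq (Nat.land (tx (VR.SPMT R) x264) x261) (tx (VR.SPMT R) x264))))))))).symm

noncomputable def v4526 (R : VR) : Bool :=
  K.band (K.band (K.band (K.band (v4479 R) (Nat.beq (Nat.land (Nat.sub (VR.o1 R) (Nat.land
    (Nat.xor (v4481 R) (Nat.land (Nat.xor (v4481 R) (v3695 R)) (v3683 R))) (Nat.xor (v4484 R)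
    (Nat.land (Nat.xor (v4484 R) (v3711 R)) (v3703 R))))) (mM (v1311 R))) (nat_lit 0))) (Nat.beq
    (Nat.land (Nat.sub (VR.o1 R) (Nat.lor (v4009 R) (v192 R))) (mM (v112 R))) (nat_lit 0)))
    (true)) (Nat.beq (Nat.land (Nat.sub (VR.o1 R) (v4523 R)) (mM (v3617 R))) (nat_lit 0))

noncomputable def s4526 (R : VR) : Bool :=
  K.band (s4495 R) (s4525 R)

theorem e4526 (R : VR) : (v4526 R) = s4526 R :=
  congrArg₂ K.band (e4495 R) (e4525 R)

noncomputable def s4527 (R : VR) : Bool :=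
  V2.rfr R

theorem e4527 (R : VR) : (v4526 R) = s4527 R :=
  e4526 R

noncomputable def c_rfr (R : VR) : Bool :=
  (v4526 R)

theorem c_rfr_eq (R : VR) : c_rfr R = (V2.rfr R) :=
  e4527 R

noncomputable def s4528 (R : VR) : Bool :=
  V2.g8d R

theorem e4528 (R : VR) : (v3045 R) = s4528 R :=
  e3046 R

noncomputable def c_g8d (R : VR) : Bool :=
  (v3045 R)

theorem c_g8d_eq (R : VR) : c_g8d R = (V2.g8d R) :=
  e4528 R

noncomputable def c_gooq (R : VR) : Bool :=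
  (v198 R)

theorem c_gooq_eq (R : VR) : c_gooq R = (K.Pa_good (VR.P R)) :=
  e200 R

end Vs

end Pool.FC7
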