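import Pool.Agent.FC7.VsG

/-! # Vector form of the static checks: generated file (vgen.py) -/

open Finset

set_option linter.all false

namespace Pool.FC7

open Pool.FC6

namespace Vs

noncomputable def s0 (R : VR) (i : ℕ) : ℕ :=
  i

theorem e0 (R : VR) : L (VR.S R) (VR.iota R) (s0 R) 127 :=
  VR.iota_is R

noncomputable def v1 (R : VR) : ℕ :=
  VR.kdq R

noncomputable def s1 (R : VR) : ℕ :=
  VR.kdq R

theorem e1 (R : VR) : (v1 R) = s1 R :=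
  rfl

theorem b1 (R : VR) : s1 R ≤ 127 :=
  VR.kdq_b R

noncomputable def s2 (R : VR) (i : ℕ) : ℕ :=
  tx (VR.dq1T R) i

theorem e2 (R : VR) : L (VR.S R) (VR.dq1T R) (s2 R) 255 :=
  VR.dq1_is R

noncomputable def s3 (R : VR) (i : ℕ) : ℕ :=
  tx (VR.nf1T R) i

theorem e3 (R : VR) : L (VR.S R) (VR.nf1T R) (s3 R) 255 :=
  VR.nf1_is R

noncomputable def v4 (R : VR) : ℕ :=
  gmk (VR.h2 R) (VR.J R) (Nat.mul (VR.dq1T R) (VR.cr1 R))

noncomputable def v5 (R : VR) : ℕ :=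
  srM (VR.N R) (VR.S R) (VR.o1 R) (VR.nf1T R)

noncomputable def v6 (R : VR) : ℕ :=
  Nat.mod (Nat.land (v4 R) (v5 R)) (VR.m1 R)

noncomputable def s6 (R : VR) (i : ℕ) : ℕ :=
  tx (VR.nf1T R) (s2 R i)

theorem e6 (R : VR) : L (VR.S R) (v6 R) (s6 R) 255 :=
  L.gat (e2 R) (VR.nf1_is R) (VR.nf1_lt R) (VR.nf1_le R)

noncomputable def s7 (R : VR) (i : ℕ) : ℕ :=
  tx (VR.lT R) i

theorem e7 (R : VR) : L (VR.S R) (VR.lT R) (s7 R) 29 :=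
  VR.l_is R

noncomputable def v8 (R : VR) : ℕ :=
  gmk (VR.h2 R) (VR.J R) (Nat.mul (Nat.mod (Nat.land (v4 R) (v5 R)) (VR.m1 R)) (VR.cr1 R))

noncomputable def v9 (R : VR) : ℕ :=
  srM (VR.N R) (VR.S R) (VR.o1 R) (VR.lT R)

noncomputable def v10 (R : VR) : ℕ :=
  Nat.mod (Nat.land (gmk (VR.h2 R) (VR.J R) (Nat.mul (Nat.mod (Nat.land (v4 R) (v5 R)) (VR.m1 R))
    (VR.cr1 R))) (v9 R)) (VR.m1 R)

noncomputable def s10 (R : VR) (i : ℕ) : ℕ :=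
  tx (VR.lT R) (s6 R i)

theorem e10 (R : VR) : L (VR.S R) (v10 R) (s10 R) 29 :=
  L.gat (e6 R) (VR.l_is R) (VR.l_lt R) (VR.l_le R)

noncomputable def v11 (R : VR) : ℕ :=
  srM (VR.N R) (VR.S R) (VR.o1 R) (v10 R)

noncomputable def s11 (R : VR) (j i : ℕ) : ℕ :=
  (s10 R j)

theorem e11 (R : VR) : L2 R (v11 R) (s11 R) 29 :=
  L2.row (e10 R)

noncomputable def v12 (R : VR) : ℕ :=
  Nat.mul (VR.iota R) (VR.cr1 R)

noncomputable def s12 (R : VR) (j i : ℕ) : ℕ :=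
  (s0 R i)

theorem e12 (R : VR) : L2 R (v12 R) (s12 R) 127 :=
  L2.rep (e0 R)

noncomputable def v13 (R : VR) : ℕ :=
  Nat.shiftRight (Nat.land (Nat.sub (VR.h2 R) (Nat.xor (srM (VR.N R) (VR.S R) (VR.o1 R) (v10 R))
    (v12 R))) (VR.h2 R)) (nat_lit 15)

noncomputable def s13 (R : VR) (j i : ℕ) : Bool :=
  Nat.beq (s11 R j i) (s12 R j i)

theorem e13 (R : VR) : B2 R (v13 R) (s13 R) :=
  L.beq (VR.h2e R) (e11 R) (e12 R)

noncomputable def s14 (R : VR) (i : ℕ) : ℕ :=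
  tx (VR.dq2T R) i

theorem e14 (R : VR) : L (VR.S R) (VR.dq2T R) (s14 R) 255 :=
  VR.dq2_is R

noncomputable def v15 (R : VR) : ℕ :=
  gmk (VR.h2 R) (VR.J R) (Nat.mul (VR.dq2T R) (VR.cr1 R))

noncomputable def v16 (R : VR) : ℕ :=
  Nat.mod (Nat.land (v15 R) (v5 R)) (VR.m1 R)

noncomputable def s16 (R : VR) (i : ℕ) : ℕ :=
  tx (VR.nf1T R) (s14 R i)

theorem e16 (R : VR) : L (VR.S R) (v16 R) (s16 R) 255 :=
  L.gat (e14 R) (VR.nf1_is R) (VR.nf1_lt R) (VR.nf1_le R)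

noncomputable def v17 (R : VR) : ℕ :=
  gmk (VR.h2 R) (VR.J R) (Nat.mul (Nat.mod (Nat.land (v15 R) (v5 R)) (VR.m1 R)) (VR.cr1 R))

noncomputable def v18 (R : VR) : ℕ :=
  Nat.mod (Nat.land (gmk (VR.h2 R) (VR.J R) (Nat.mul (Nat.mod (Nat.land (v15 R) (v5 R)) (VR.m1 R))
    (VR.cr1 R))) (v9 R)) (VR.m1 R)

noncomputable def s18 (R : VR) (i : ℕ) : ℕ :=
  tx (VR.lT R) (s16 R i)

theorem e18 (R : VR) : L (VR.S R) (v18 R) (s18 R) 29 :=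
  L.gat (e16 R) (VR.l_is R) (VR.l_lt R) (VR.l_le R)

noncomputable def s19 (R : VR) (i : ℕ) : ℕ :=
  tx (VR.pw1T R) i

theorem e19 (R : VR) : L (VR.S R) (VR.pw1T R) (s19 R) 16384 :=
  VR.pw1_is R

noncomputable def v20 (R : VR) : ℕ :=
  gmk (VR.h2 R) (VR.J R) (Nat.mul (v18 R) (VR.cr1 R))

noncomputable def v21 (R : VR) : ℕ :=
  srM (VR.N R) (VR.S R) (VR.o1 R) (VR.pw1T R)

noncomputable def v22 (R : VR) : ℕ :=
  Nat.mod (Nat.land (v20 R) (v21 R)) (VR.m1 R)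

noncomputable def s22 (R : VR) (i : ℕ) : ℕ :=
  tx (VR.pw1T R) (s18 R i)

theorem e22 (R : VR) : L (VR.S R) (v22 R) (s22 R) 16384 :=
  L.gat (e18 R) (VR.pw1_is R) (VR.pw1_lt R) (VR.pw1_le R)

noncomputable def v23 (R : VR) : ℕ :=
  (nat_lit 0)

noncomputable def s23 (R : VR) : ℕ :=
  (nat_lit 0)

theorem e23 (R : VR) : (v23 R) = s23 R :=
  rfl

noncomputable def v24 (R : VR) : ℕ :=
  srM (VR.N R) (VR.S R) (VR.o1 R) (Nat.mod (Nat.land (v20 R) (v21 R)) (VR.m1 R))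

noncomputable def s24 (R : VR) (j i : ℕ) : ℕ :=
  (s22 R j)

theorem e24 (R : VR) : L2 R (v24 R) (s24 R) 16384 :=
  L2.row (e22 R)

noncomputable def v25 (R : VR) : ℕ :=
  Nat.mul (VR.o2 R) (v23 R)

noncomputable def s25 (R : VR) (j i : ℕ) : ℕ :=
  (s23 R)

theorem e25 (R : VR) : L2 R (v25 R) (s25 R) 0 :=
  L.scl (VR.o2e R) (e23 R) (le_of_eq (rfl : s23 R = (nat_lit 0))) (by decide)

noncomputable def v26 (R : VR) : ℕ :=
  Nat.xor (v25 R) (Nat.land (Nat.xor (v25 R) (srM (VR.N R) (VR.S R) (VR.o1 R) (Nat.mod (Nat.land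
    (v20 R) (v21 R)) (VR.m1 R)))) (Nat.mul (v13 R) (nat_lit 32767)))

noncomputable def s26 (R : VR) (j i : ℕ) : ℕ :=
  Bool.rec (motive := fun _ => ℕ) (s25 R j i) (s24 R j i) (s13 R j i)

theorem e26 (R : VR) : L2 R (v26 R) (s26 R) 16384 :=
  L.sel (e13 R) (e24 R) (e25 R) (by decide) (by decide) (by decide)

noncomputable def v27 (R : VR) : ℕ :=
  srM (VR.N R) (VR.S R) (VR.o1 R) (v18 R)

noncomputable def s27 (R : VR) (j i : ℕ) : ℕ :=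
  (s18 R j)

theorem e27 (R : VR) : L2 R (v27 R) (s27 R) 29 :=
  L2.row (e18 R)

noncomputable def v28 (R : VR) : ℕ :=
  Nat.shiftRight (Nat.land (Nat.sub (VR.h2 R) (Nat.xor (srM (VR.N R) (VR.S R) (VR.o1 R) (v18 R))
    (v12 R))) (VR.h2 R)) (nat_lit 15)

noncomputable def s28 (R : VR) (j i : ℕ) : Bool :=
  Nat.beq (s27 R j i) (s12 R j i)

theorem e28 (R : VR) : B2 R (v28 R) (s28 R) :=
  L.beq (VR.h2e R) (e27 R) (e12 R)

noncomputable def v29 (R : VR) : ℕ :=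
  gmk (VR.h2 R) (VR.J R) (Nat.mul (v10 R) (VR.cr1 R))

noncomputable def v30 (R : VR) : ℕ :=
  Nat.mod (Nat.land (v29 R) (v21 R)) (VR.m1 R)

noncomputable def s30 (R : VR) (i : ℕ) : ℕ :=
  tx (VR.pw1T R) (s10 R i)

theorem e30 (R : VR) : L (VR.S R) (v30 R) (s30 R) 16384 :=
  L.gat (e10 R) (VR.pw1_is R) (VR.pw1_lt R) (VR.pw1_le R)

noncomputable def v31 (R : VR) : ℕ :=
  srM (VR.N R) (VR.S R) (VR.o1 R) (Nat.mod (Nat.land (v29 R) (v21 R)) (VR.m1 R))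

noncomputable def s31 (R : VR) (j i : ℕ) : ℕ :=
  (s30 R j)

theorem e31 (R : VR) : L2 R (v31 R) (s31 R) 16384 :=
  L2.row (e30 R)

noncomputable def v32 (R : VR) : ℕ :=
  Nat.xor (v25 R) (Nat.land (Nat.xor (v25 R) (srM (VR.N R) (VR.S R) (VR.o1 R) (Nat.mod (Nat.land
    (v29 R) (v21 R)) (VR.m1 R)))) (Nat.mul (v28 R) (nat_lit 32767)))

noncomputable def s32 (R : VR) (j i : ℕ) : ℕ :=
  Bool.rec (motive := fun _ => ℕ) (s25 R j i) (s31 R j i) (s28 R j i)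

theorem e32 (R : VR) : L2 R (v32 R) (s32 R) 16384 :=
  L.sel (e28 R) (e31 R) (e25 R) (by decide) (by decide) (by decide)

noncomputable def v33 (R : VR) : ℕ :=
  Nat.lor (Nat.xor (v25 R) (Nat.land (Nat.xor (v25 R) (srM (VR.N R) (VR.S R) (VR.o1 R) (Nat.mod
    (Nat.land (v20 R) (v21 R)) (VR.m1 R)))) (Nat.mul (v13 R) (nat_lit 32767)))) (Nat.xor (v25 R)
    (Nat.land (Nat.xor (v25 R) (srM (VR.N R) (VR.S R) (VR.o1 R) (Nat.mod (Nat.land (v29 R) (v21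
    R)) (VR.m1 R)))) (Nat.mul (v28 R) (nat_lit 32767))))

noncomputable def s33 (R : VR) (j i : ℕ) : ℕ :=
  Nat.lor (s26 R j i) (s32 R j i)

theorem e33 (R : VR) : L2 R (v33 R) (s33 R) 32767 :=
  L.lor (e26 R) (e32 R)

noncomputable def v34 (R : VR) : ℕ :=
  orr (wM (VR.S R)) (VR.m1 R) (Nat.land (Nat.lor (Nat.xor (v25 R) (Nat.land (Nat.xor (v25 R) (srM
    (VR.N R) (VR.S R) (VR.o1 R) (Nat.mod (Nat.land (v20 R) (v21 R)) (VR.m1 R)))) (Nat.mul (v13 R)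
    (nat_lit 32767)))) (Nat.xor (v25 R) (Nat.land (Nat.xor (v25 R) (srM (VR.N R) (VR.S R) (VR.o1
    R) (Nat.mod (Nat.land (v29 R) (v21 R)) (VR.m1 R)))) (Nat.mul (v28 R) (nat_lit 32767))))) (mM
    (Nat.mul (v1 R) (VR.S R))))

noncomputable def s34 (R : VR) (i : ℕ) : ℕ :=
  V2.orN (s1 R) (fun j => (s33 R j i))

theorem e34 (R : VR) : L (VR.S R) (v34 R) (s34 R) 32767 :=
  L.orr (e33 R) (VR.kdq_le R)

noncomputable def s35 (R : VR) (i : ℕ) : ℕ :=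
  V2.orN (s1 R) (fun (x1 : ℕ) => (Nat.lor (Bool.rec (motive := fun _ => ℕ) (nat_lit 0) (tx
    (VR.pw1T R) (tx (VR.lT R) (tx (VR.nf1T R) (tx (VR.dq2T R) x1)))) (Nat.beq (tx (VR.lT R) (tx
    (VR.nf1T R) (tx (VR.dq1T R) x1))) i)) (Bool.rec (motive := fun _ => ℕ) (nat_lit 0) (tx
    (VR.pw1T R) (tx (VR.lT R) (tx (VR.nf1T R) (tx (VR.dq1T R) x1)))) (Nat.beq (tx (VR.lT R) (tx
    (VR.nf1T R) (tx (VR.dq2T R) x1))) i))))

theorem e35 (R : VR) : L (VR.S R) (v34 R) (s35 R) 32767 :=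
  e34 R

noncomputable def s36 (R : VR) (i : ℕ) : ℕ :=
  V2.dq1 R i

theorem e36 (R : VR) : L (VR.S R) (v34 R) (s36 R) 32767 :=
  e35 R

noncomputable def n_dq1 (R : VR) : ℕ :=
  (v34 R)

theorem n_dq1_is (R : VR) : L (VR.S R) (n_dq1 R) (V2.dq1 R) 32767 :=
  e36 R

noncomputable def s37 (R : VR) (i : ℕ) : ℕ :=
  tx (VR.pw2T R) i

theorem e37 (R : VR) : L (VR.S R) (VR.pw2T R) (s37 R) 16384 :=
  VR.pw2_is R

noncomputable def v38 (R : VR) : ℕ :=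
  srM (VR.N R) (VR.S R) (VR.o1 R) (VR.pw2T R)

noncomputable def v39 (R : VR) : ℕ :=
  Nat.mod (Nat.land (v20 R) (v38 R)) (VR.m1 R)

noncomputable def s39 (R : VR) (i : ℕ) : ℕ :=
  tx (VR.pw2T R) (s18 R i)

theorem e39 (R : VR) : L (VR.S R) (v39 R) (s39 R) 16384 :=
  L.gat (e18 R) (VR.pw2_is R) (VR.pw2_lt R) (VR.pw2_le R)

noncomputable def v40 (R : VR) : ℕ :=
  srM (VR.N R) (VR.S R) (VR.o1 R) (Nat.mod (Nat.land (v20 R) (v38 R)) (VR.m1 R))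

noncomputable def s40 (R : VR) (j i : ℕ) : ℕ :=
  (s39 R j)

theorem e40 (R : VR) : L2 R (v40 R) (s40 R) 16384 :=
  L2.row (e39 R)

noncomputable def v41 (R : VR) : ℕ :=
  Nat.xor (v25 R) (Nat.land (Nat.xor (v25 R) (srM (VR.N R) (VR.S R) (VR.o1 R) (Nat.mod (Nat.land
    (v20 R) (v38 R)) (VR.m1 R)))) (Nat.mul (v13 R) (nat_lit 32767)))

noncomputable def s41 (R : VR) (j i : ℕ) : ℕ :=
  Bool.rec (motive := fun _ => ℕ) (s25 R j i) (s40 R j i) (s13 R j i)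

theorem e41 (R : VR) : L2 R (v41 R) (s41 R) 16384 :=
  L.sel (e13 R) (e40 R) (e25 R) (by decide) (by decide) (by decide)

noncomputable def v42 (R : VR) : ℕ :=
  Nat.mod (Nat.land (v29 R) (v38 R)) (VR.m1 R)

noncomputable def s42 (R : VR) (i : ℕ) : ℕ :=
  tx (VR.pw2T R) (s10 R i)

theorem e42 (R : VR) : L (VR.S R) (v42 R) (s42 R) 16384 :=
  L.gat (e10 R) (VR.pw2_is R) (VR.pw2_lt R) (VR.pw2_le R)

noncomputable def v43 (R : VR) : ℕ :=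
  srM (VR.N R) (VR.S R) (VR.o1 R) (Nat.mod (Nat.land (v29 R) (v38 R)) (VR.m1 R))

noncomputable def s43 (R : VR) (j i : ℕ) : ℕ :=
  (s42 R j)

theorem e43 (R : VR) : L2 R (v43 R) (s43 R) 16384 :=
  L2.row (e42 R)

noncomputable def v44 (R : VR) : ℕ :=
  Nat.xor (v25 R) (Nat.land (Nat.xor (v25 R) (srM (VR.N R) (VR.S R) (VR.o1 R) (Nat.mod (Nat.land
    (v29 R) (v38 R)) (VR.m1 R)))) (Nat.mul (v28 R) (nat_lit 32767)))

noncomputable def s44 (R : VR) (j i : ℕ) : ℕ :=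
  Bool.rec (motive := fun _ => ℕ) (s25 R j i) (s43 R j i) (s28 R j i)

theorem e44 (R : VR) : L2 R (v44 R) (s44 R) 16384 :=
  L.sel (e28 R) (e43 R) (e25 R) (by decide) (by decide) (by decide)

noncomputable def v45 (R : VR) : ℕ :=
  Nat.lor (Nat.xor (v25 R) (Nat.land (Nat.xor (v25 R) (srM (VR.N R) (VR.S R) (VR.o1 R) (Nat.mod
    (Nat.land (v20 R) (v38 R)) (VR.m1 R)))) (Nat.mul (v13 R) (nat_lit 32767)))) (Nat.xor (v25 R)
    (Nat.land (Nat.xor (v25 R) (srM (VR.N R) (VR.S R) (VR.o1 R) (Nat.mod (Nat.land (v29 R) (v38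
    R)) (VR.m1 R)))) (Nat.mul (v28 R) (nat_lit 32767))))

noncomputable def s45 (R : VR) (j i : ℕ) : ℕ :=
  Nat.lor (s41 R j i) (s44 R j i)

theorem e45 (R : VR) : L2 R (v45 R) (s45 R) 32767 :=
  L.lor (e41 R) (e44 R)

noncomputable def v46 (R : VR) : ℕ :=
  orr (wM (VR.S R)) (VR.m1 R) (Nat.land (Nat.lor (Nat.xor (v25 R) (Nat.land (Nat.xor (v25 R) (srM
    (VR.N R) (VR.S R) (VR.o1 R) (Nat.mod (Nat.land (v20 R) (v38 R)) (VR.m1 R)))) (Nat.mul (v13 R)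
    (nat_lit 32767)))) (Nat.xor (v25 R) (Nat.land (Nat.xor (v25 R) (srM (VR.N R) (VR.S R) (VR.o1
    R) (Nat.mod (Nat.land (v29 R) (v38 R)) (VR.m1 R)))) (Nat.mul (v28 R) (nat_lit 32767))))) (mM
    (Nat.mul (v1 R) (VR.S R))))

noncomputable def s46 (R : VR) (i : ℕ) : ℕ :=
  V2.orN (s1 R) (fun j => (s45 R j i))

theorem e46 (R : VR) : L (VR.S R) (v46 R) (s46 R) 32767 :=
  L.orr (e45 R) (VR.kdq_le R)

noncomputable def s47 (R : VR) (i : ℕ) : ℕ :=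
  V2.orN (s1 R) (fun (x2 : ℕ) => (Nat.lor (Bool.rec (motive := fun _ => ℕ) (nat_lit 0) (tx
    (VR.pw2T R) (tx (VR.lT R) (tx (VR.nf1T R) (tx (VR.dq2T R) x2)))) (Nat.beq (tx (VR.lT R) (tx
    (VR.nf1T R) (tx (VR.dq1T R) x2))) i)) (Bool.rec (motive := fun _ => ℕ) (nat_lit 0) (tx
    (VR.pw2T R) (tx (VR.lT R) (tx (VR.nf1T R) (tx (VR.dq1T R) x2)))) (Nat.beq (tx (VR.lT R) (tx
    (VR.nf1T R) (tx (VR.dq2T R) x2))) i))))

theorem e47 (R : VR) : L (VR.S R) (v46 R) (s47 R) 32767 :=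
  e46 R

noncomputable def s48 (R : VR) (i : ℕ) : ℕ :=
  V2.dq2 R i

theorem e48 (R : VR) : L (VR.S R) (v46 R) (s48 R) 32767 :=
  e47 R

noncomputable def n_dq2 (R : VR) : ℕ :=
  (v46 R)

theorem n_dq2_is (R : VR) : L (VR.S R) (n_dq2 R) (V2.dq2 R) 32767 :=
  e48 R

noncomputable def v49 (R : VR) : ℕ :=
  VR.knq R

noncomputable def s49 (R : VR) : ℕ :=
  VR.knq R

theorem e49 (R : VR) : (v49 R) = s49 R :=
  rfl

theorem b49 (R : VR) : s49 R ≤ 127 :=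
  VR.knq_b R

noncomputable def s50 (R : VR) (i : ℕ) : ℕ :=
  tx (VR.nq1T R) i

theorem e50 (R : VR) : L (VR.S R) (VR.nq1T R) (s50 R) 255 :=
  VR.nq1_is R

noncomputable def v51 (R : VR) : ℕ :=
  gmk (VR.h2 R) (VR.J R) (Nat.mul (VR.nq1T R) (VR.cr1 R))

noncomputable def v52 (R : VR) : ℕ :=
  Nat.mod (Nat.land (v51 R) (v5 R)) (VR.m1 R)

noncomputable def s52 (R : VR) (i : ℕ) : ℕ :=
  tx (VR.nf1T R) (s50 R i)

theorem e52 (R : VR) : L (VR.S R) (v52 R) (s52 R) 255 :=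
  L.gat (e50 R) (VR.nf1_is R) (VR.nf1_lt R) (VR.nf1_le R)

noncomputable def v53 (R : VR) : ℕ :=
  gmk (VR.h2 R) (VR.J R) (Nat.mul (Nat.mod (Nat.land (v51 R) (v5 R)) (VR.m1 R)) (VR.cr1 R))

noncomputable def v54 (R : VR) : ℕ :=
  Nat.mod (Nat.land (gmk (VR.h2 R) (VR.J R) (Nat.mul (Nat.mod (Nat.land (v51 R) (v5 R)) (VR.m1 R))
    (VR.cr1 R))) (v9 R)) (VR.m1 R)

noncomputable def s54 (R : VR) (i : ℕ) : ℕ :=
  tx (VR.lT R) (s52 R i)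

theorem e54 (R : VR) : L (VR.S R) (v54 R) (s54 R) 29 :=
  L.gat (e52 R) (VR.l_is R) (VR.l_lt R) (VR.l_le R)

noncomputable def v55 (R : VR) : ℕ :=
  srM (VR.N R) (VR.S R) (VR.o1 R) (v54 R)

noncomputable def s55 (R : VR) (j i : ℕ) : ℕ :=
  (s54 R j)

theorem e55 (R : VR) : L2 R (v55 R) (s55 R) 29 :=
  L2.row (e54 R)

noncomputable def v56 (R : VR) : ℕ :=
  Nat.shiftRight (Nat.land (Nat.sub (VR.h2 R) (Nat.xor (srM (VR.N R) (VR.S R) (VR.o1 R) (v54 R))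
    (v12 R))) (VR.h2 R)) (nat_lit 15)

noncomputable def s56 (R : VR) (j i : ℕ) : Bool :=
  Nat.beq (s55 R j i) (s12 R j i)

theorem e56 (R : VR) : B2 R (v56 R) (s56 R) :=
  L.beq (VR.h2e R) (e55 R) (e12 R)

noncomputable def s57 (R : VR) (i : ℕ) : ℕ :=
  tx (VR.nq2T R) i

theorem e57 (R : VR) : L (VR.S R) (VR.nq2T R) (s57 R) 255 :=
  VR.nq2_is R

noncomputable def v58 (R : VR) : ℕ :=
  gmk (VR.h2 R) (VR.J R) (Nat.mul (VR.nq2T R) (VR.cr1 R))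

noncomputable def v59 (R : VR) : ℕ :=
  Nat.mod (Nat.land (v58 R) (v5 R)) (VR.m1 R)

noncomputable def s59 (R : VR) (i : ℕ) : ℕ :=
  tx (VR.nf1T R) (s57 R i)

theorem e59 (R : VR) : L (VR.S R) (v59 R) (s59 R) 255 :=
  L.gat (e57 R) (VR.nf1_is R) (VR.nf1_lt R) (VR.nf1_le R)

noncomputable def v60 (R : VR) : ℕ :=
  gmk (VR.h2 R) (VR.J R) (Nat.mul (Nat.mod (Nat.land (v58 R) (v5 R)) (VR.m1 R)) (VR.cr1 R))

noncomputable def v61 (R : VR) : ℕ :=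
  Nat.mod (Nat.land (gmk (VR.h2 R) (VR.J R) (Nat.mul (Nat.mod (Nat.land (v58 R) (v5 R)) (VR.m1 R))
    (VR.cr1 R))) (v9 R)) (VR.m1 R)

noncomputable def s61 (R : VR) (i : ℕ) : ℕ :=
  tx (VR.lT R) (s59 R i)

theorem e61 (R : VR) : L (VR.S R) (v61 R) (s61 R) 29 :=
  L.gat (e59 R) (VR.l_is R) (VR.l_lt R) (VR.l_le R)

noncomputable def v62 (R : VR) : ℕ :=
  gmk (VR.h2 R) (VR.J R) (Nat.mul (v61 R) (VR.cr1 R))

noncomputable def v63 (R : VR) : ℕ :=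
  Nat.mod (Nat.land (v62 R) (v21 R)) (VR.m1 R)

noncomputable def s63 (R : VR) (i : ℕ) : ℕ :=
  tx (VR.pw1T R) (s61 R i)

theorem e63 (R : VR) : L (VR.S R) (v63 R) (s63 R) 16384 :=
  L.gat (e61 R) (VR.pw1_is R) (VR.pw1_lt R) (VR.pw1_le R)

noncomputable def v64 (R : VR) : ℕ :=
  srM (VR.N R) (VR.S R) (VR.o1 R) (Nat.mod (Nat.land (v62 R) (v21 R)) (VR.m1 R))

noncomputable def s64 (R : VR) (j i : ℕ) : ℕ :=
  (s63 R j)

theorem e64 (R : VR) : L2 R (v64 R) (s64 R) 16384 :=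
  L2.row (e63 R)

noncomputable def v65 (R : VR) : ℕ :=
  Nat.xor (v25 R) (Nat.land (Nat.xor (v25 R) (srM (VR.N R) (VR.S R) (VR.o1 R) (Nat.mod (Nat.land
    (v62 R) (v21 R)) (VR.m1 R)))) (Nat.mul (v56 R) (nat_lit 32767)))

noncomputable def s65 (R : VR) (j i : ℕ) : ℕ :=
  Bool.rec (motive := fun _ => ℕ) (s25 R j i) (s64 R j i) (s56 R j i)

theorem e65 (R : VR) : L2 R (v65 R) (s65 R) 16384 :=
  L.sel (e56 R) (e64 R) (e25 R) (by decide) (by decide) (by decide)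

noncomputable def v66 (R : VR) : ℕ :=
  srM (VR.N R) (VR.S R) (VR.o1 R) (v61 R)

noncomputable def s66 (R : VR) (j i : ℕ) : ℕ :=
  (s61 R j)

theorem e66 (R : VR) : L2 R (v66 R) (s66 R) 29 :=
  L2.row (e61 R)

noncomputable def v67 (R : VR) : ℕ :=
  Nat.shiftRight (Nat.land (Nat.sub (VR.h2 R) (Nat.xor (srM (VR.N R) (VR.S R) (VR.o1 R) (v61 R))
    (v12 R))) (VR.h2 R)) (nat_lit 15)

noncomputable def s67 (R : VR) (j i : ℕ) : Bool :=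
  Nat.beq (s66 R j i) (s12 R j i)

theorem e67 (R : VR) : B2 R (v67 R) (s67 R) :=
  L.beq (VR.h2e R) (e66 R) (e12 R)

noncomputable def v68 (R : VR) : ℕ :=
  gmk (VR.h2 R) (VR.J R) (Nat.mul (v54 R) (VR.cr1 R))

noncomputable def v69 (R : VR) : ℕ :=
  Nat.mod (Nat.land (v68 R) (v21 R)) (VR.m1 R)

noncomputable def s69 (R : VR) (i : ℕ) : ℕ :=
  tx (VR.pw1T R) (s54 R i)

theorem e69 (R : VR) : L (VR.S R) (v69 R) (s69 R) 16384 :=
  L.gat (e54 R) (VR.pw1_is R) (VR.pw1_lt R) (VR.pw1_le R)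

noncomputable def v70 (R : VR) : ℕ :=
  srM (VR.N R) (VR.S R) (VR.o1 R) (Nat.mod (Nat.land (v68 R) (v21 R)) (VR.m1 R))

noncomputable def s70 (R : VR) (j i : ℕ) : ℕ :=
  (s69 R j)

theorem e70 (R : VR) : L2 R (v70 R) (s70 R) 16384 :=
  L2.row (e69 R)

noncomputable def v71 (R : VR) : ℕ :=
  Nat.xor (v25 R) (Nat.land (Nat.xor (v25 R) (srM (VR.N R) (VR.S R) (VR.o1 R) (Nat.mod (Nat.land
    (v68 R) (v21 R)) (VR.m1 R)))) (Nat.mul (v67 R) (nat_lit 32767)))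

noncomputable def s71 (R : VR) (j i : ℕ) : ℕ :=
  Bool.rec (motive := fun _ => ℕ) (s25 R j i) (s70 R j i) (s67 R j i)

theorem e71 (R : VR) : L2 R (v71 R) (s71 R) 16384 :=
  L.sel (e67 R) (e70 R) (e25 R) (by decide) (by decide) (by decide)

noncomputable def v72 (R : VR) : ℕ :=
  Nat.lor (Nat.xor (v25 R) (Nat.land (Nat.xor (v25 R) (srM (VR.N R) (VR.S R) (VR.o1 R) (Nat.mod
    (Nat.land (v62 R) (v21 R)) (VR.m1 R)))) (Nat.mul (v56 R) (nat_lit 32767)))) (Nat.xor (v25 R)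
    (Nat.land (Nat.xor (v25 R) (srM (VR.N R) (VR.S R) (VR.o1 R) (Nat.mod (Nat.land (v68 R) (v21
    R)) (VR.m1 R)))) (Nat.mul (v67 R) (nat_lit 32767))))

noncomputable def s72 (R : VR) (j i : ℕ) : ℕ :=
  Nat.lor (s65 R j i) (s71 R j i)

theorem e72 (R : VR) : L2 R (v72 R) (s72 R) 32767 :=
  L.lor (e65 R) (e71 R)

noncomputable def v73 (R : VR) : ℕ :=
  orr (wM (VR.S R)) (VR.m1 R) (Nat.land (Nat.lor (Nat.xor (v25 R) (Nat.land (Nat.xor (v25 R) (srM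
    (VR.N R) (VR.S R) (VR.o1 R) (Nat.mod (Nat.land (v62 R) (v21 R)) (VR.m1 R)))) (Nat.mul (v56 R)
    (nat_lit 32767)))) (Nat.xor (v25 R) (Nat.land (Nat.xor (v25 R) (srM (VR.N R) (VR.S R) (VR.o1
    R) (Nat.mod (Nat.land (v68 R) (v21 R)) (VR.m1 R)))) (Nat.mul (v67 R) (nat_lit 32767))))) (mM
    (Nat.mul (v49 R) (VR.S R))))

noncomputable def s73 (R : VR) (i : ℕ) : ℕ :=
  V2.orN (s49 R) (fun j => (s72 R j i))

theorem e73 (R : VR) : L (VR.S R) (v73 R) (s73 R) 32767 :=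
  L.orr (e72 R) (VR.knq_le R)

noncomputable def s74 (R : VR) (i : ℕ) : ℕ :=
  V2.orN (s49 R) (fun (x3 : ℕ) => (Nat.lor (Bool.rec (motive := fun _ => ℕ) (nat_lit 0) (tx
    (VR.pw1T R) (tx (VR.lT R) (tx (VR.nf1T R) (tx (VR.nq2T R) x3)))) (Nat.beq (tx (VR.lT R) (tx
    (VR.nf1T R) (tx (VR.nq1T R) x3))) i)) (Bool.rec (motive := fun _ => ℕ) (nat_lit 0) (tx
    (VR.pw1T R) (tx (VR.lT R) (tx (VR.nf1T R) (tx (VR.nq1T R) x3)))) (Nat.beq (tx (VR.lT R) (tx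
    (VR.nf1T R) (tx (VR.nq2T R) x3))) i))))

theorem e74 (R : VR) : L (VR.S R) (v73 R) (s74 R) 32767 :=
  e73 R

noncomputable def s75 (R : VR) (i : ℕ) : ℕ :=
  V2.nq1 R i

theorem e75 (R : VR) : L (VR.S R) (v73 R) (s75 R) 32767 :=
  e74 R

noncomputable def n_nq1 (R : VR) : ℕ :=
  (v73 R)

theorem n_nq1_is (R : VR) : L (VR.S R) (n_nq1 R) (V2.nq1 R) 32767 :=
  e75 R

noncomputable def v76 (R : VR) : ℕ :=
  Nat.mod (Nat.land (v62 R) (v38 R)) (VR.m1 R)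

noncomputable def s76 (R : VR) (i : ℕ) : ℕ :=
  tx (VR.pw2T R) (s61 R i)

theorem e76 (R : VR) : L (VR.S R) (v76 R) (s76 R) 16384 :=
  L.gat (e61 R) (VR.pw2_is R) (VR.pw2_lt R) (VR.pw2_le R)

noncomputable def v77 (R : VR) : ℕ :=
  srM (VR.N R) (VR.S R) (VR.o1 R) (Nat.mod (Nat.land (v62 R) (v38 R)) (VR.m1 R))

noncomputable def s77 (R : VR) (j i : ℕ) : ℕ :=
  (s76 R j)

theorem e77 (R : VR) : L2 R (v77 R) (s77 R) 16384 :=
  L2.row (e76 R)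

noncomputable def v78 (R : VR) : ℕ :=
  Nat.xor (v25 R) (Nat.land (Nat.xor (v25 R) (srM (VR.N R) (VR.S R) (VR.o1 R) (Nat.mod (Nat.land
    (v62 R) (v38 R)) (VR.m1 R)))) (Nat.mul (v56 R) (nat_lit 32767)))

noncomputable def s78 (R : VR) (j i : ℕ) : ℕ :=
  Bool.rec (motive := fun _ => ℕ) (s25 R j i) (s77 R j i) (s56 R j i)

theorem e78 (R : VR) : L2 R (v78 R) (s78 R) 16384 :=
  L.sel (e56 R) (e77 R) (e25 R) (by decide) (by decide) (by decide)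

noncomputable def v79 (R : VR) : ℕ :=
  Nat.mod (Nat.land (v68 R) (v38 R)) (VR.m1 R)

noncomputable def s79 (R : VR) (i : ℕ) : ℕ :=
  tx (VR.pw2T R) (s54 R i)

theorem e79 (R : VR) : L (VR.S R) (v79 R) (s79 R) 16384 :=
  L.gat (e54 R) (VR.pw2_is R) (VR.pw2_lt R) (VR.pw2_le R)

noncomputable def v80 (R : VR) : ℕ :=
  srM (VR.N R) (VR.S R) (VR.o1 R) (Nat.mod (Nat.land (v68 R) (v38 R)) (VR.m1 R))

noncomputable def s80 (R : VR) (j i : ℕ) : ℕ :=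
  (s79 R j)

theorem e80 (R : VR) : L2 R (v80 R) (s80 R) 16384 :=
  L2.row (e79 R)

noncomputable def v81 (R : VR) : ℕ :=
  Nat.xor (v25 R) (Nat.land (Nat.xor (v25 R) (srM (VR.N R) (VR.S R) (VR.o1 R) (Nat.mod (Nat.land
    (v68 R) (v38 R)) (VR.m1 R)))) (Nat.mul (v67 R) (nat_lit 32767)))

noncomputable def s81 (R : VR) (j i : ℕ) : ℕ :=
  Bool.rec (motive := fun _ => ℕ) (s25 R j i) (s80 R j i) (s67 R j i)

theorem e81 (R : VR) : L2 R (v81 R) (s81 R) 16384 :=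
  L.sel (e67 R) (e80 R) (e25 R) (by decide) (by decide) (by decide)

noncomputable def v82 (R : VR) : ℕ :=
  Nat.lor (Nat.xor (v25 R) (Nat.land (Nat.xor (v25 R) (srM (VR.N R) (VR.S R) (VR.o1 R) (Nat.mod
    (Nat.land (v62 R) (v38 R)) (VR.m1 R)))) (Nat.mul (v56 R) (nat_lit 32767)))) (Nat.xor (v25 R)
    (Nat.land (Nat.xor (v25 R) (srM (VR.N R) (VR.S R) (VR.o1 R) (Nat.mod (Nat.land (v68 R) (v38
    R)) (VR.m1 R)))) (Nat.mul (v67 R) (nat_lit 32767))))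

noncomputable def s82 (R : VR) (j i : ℕ) : ℕ :=
  Nat.lor (s78 R j i) (s81 R j i)

theorem e82 (R : VR) : L2 R (v82 R) (s82 R) 32767 :=
  L.lor (e78 R) (e81 R)

noncomputable def v83 (R : VR) : ℕ :=
  orr (wM (VR.S R)) (VR.m1 R) (Nat.land (Nat.lor (Nat.xor (v25 R) (Nat.land (Nat.xor (v25 R) (srM
    (VR.N R) (VR.S R) (VR.o1 R) (Nat.mod (Nat.land (v62 R) (v38 R)) (VR.m1 R)))) (Nat.mul (v56 R)
    (nat_lit 32767)))) (Nat.xor (v25 R) (Nat.land (Nat.xor (v25 R) (srM (VR.N R) (VR.S R) (VR.o1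
    R) (Nat.mod (Nat.land (v68 R) (v38 R)) (VR.m1 R)))) (Nat.mul (v67 R) (nat_lit 32767))))) (mM
    (Nat.mul (v49 R) (VR.S R))))

noncomputable def s83 (R : VR) (i : ℕ) : ℕ :=
  V2.orN (s49 R) (fun j => (s82 R j i))

theorem e83 (R : VR) : L (VR.S R) (v83 R) (s83 R) 32767 :=
  L.orr (e82 R) (VR.knq_le R)

noncomputable def s84 (R : VR) (i : ℕ) : ℕ :=
  V2.orN (s49 R) (fun (x4 : ℕ) => (Nat.lor (Bool.rec (motive := fun _ => ℕ) (nat_lit 0) (tx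
    (VR.pw2T R) (tx (VR.lT R) (tx (VR.nf1T R) (tx (VR.nq2T R) x4)))) (Nat.beq (tx (VR.lT R) (tx
    (VR.nf1T R) (tx (VR.nq1T R) x4))) i)) (Bool.rec (motive := fun _ => ℕ) (nat_lit 0) (tx
    (VR.pw2T R) (tx (VR.lT R) (tx (VR.nf1T R) (tx (VR.nq1T R) x4)))) (Nat.beq (tx (VR.lT R) (tx
    (VR.nf1T R) (tx (VR.nq2T R) x4))) i))))

theorem e84 (R : VR) : L (VR.S R) (v83 R) (s84 R) 32767 :=
  e83 R

noncomputable def s85 (R : VR) (i : ℕ) : ℕ :=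
  V2.nq2 R i

theorem e85 (R : VR) : L (VR.S R) (v83 R) (s85 R) 32767 :=
  e84 R

noncomputable def n_nq2 (R : VR) : ℕ :=
  (v83 R)

theorem n_nq2_is (R : VR) : L (VR.S R) (n_nq2 R) (V2.nq2 R) 32767 :=
  e85 R

noncomputable def v86 (R : VR) : ℕ :=
  VR.koq R

noncomputable def s86 (R : VR) : ℕ :=
  VR.koq R

theorem e86 (R : VR) : (v86 R) = s86 R :=
  rfl

theorem b86 (R : VR) : s86 R ≤ 127 :=
  VR.koq_b R

noncomputable def s87 (R : VR) (i : ℕ) : ℕ :=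
  tx (VR.oq1T R) i

theorem e87 (R : VR) : L (VR.S R) (VR.oq1T R) (s87 R) 255 :=
  VR.oq1_is R

noncomputable def v88 (R : VR) : ℕ :=
  gmk (VR.h2 R) (VR.J R) (Nat.mul (VR.oq1T R) (VR.cr1 R))

noncomputable def v89 (R : VR) : ℕ :=
  Nat.mod (Nat.land (v88 R) (v5 R)) (VR.m1 R)

noncomputable def s89 (R : VR) (i : ℕ) : ℕ :=
  tx (VR.nf1T R) (s87 R i)

theorem e89 (R : VR) : L (VR.S R) (v89 R) (s89 R) 255 :=
  L.gat (e87 R) (VR.nf1_is R) (VR.nf1_lt R) (VR.nf1_le R)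

noncomputable def v90 (R : VR) : ℕ :=
  gmk (VR.h2 R) (VR.J R) (Nat.mul (Nat.mod (Nat.land (v88 R) (v5 R)) (VR.m1 R)) (VR.cr1 R))

noncomputable def v91 (R : VR) : ℕ :=
  Nat.mod (Nat.land (gmk (VR.h2 R) (VR.J R) (Nat.mul (Nat.mod (Nat.land (v88 R) (v5 R)) (VR.m1 R))
    (VR.cr1 R))) (v9 R)) (VR.m1 R)

noncomputable def s91 (R : VR) (i : ℕ) : ℕ :=
  tx (VR.lT R) (s89 R i)

theorem e91 (R : VR) : L (VR.S R) (v91 R) (s91 R) 29 :=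
  L.gat (e89 R) (VR.l_is R) (VR.l_lt R) (VR.l_le R)

noncomputable def v92 (R : VR) : ℕ :=
  srM (VR.N R) (VR.S R) (VR.o1 R) (Nat.mod (Nat.land (gmk (VR.h2 R) (VR.J R) (Nat.mul (Nat.mod
    (Nat.land (v88 R) (v5 R)) (VR.m1 R)) (VR.cr1 R))) (v9 R)) (VR.m1 R))

noncomputable def s92 (R : VR) (j i : ℕ) : ℕ :=
  (s91 R j)

theorem e92 (R : VR) : L2 R (v92 R) (s92 R) 29 :=
  L2.row (e91 R)

noncomputable def v93 (R : VR) : ℕ :=
  Nat.shiftRight (Nat.land (Nat.sub (VR.h2 R) (Nat.xor (srM (VR.N R) (VR.S R) (VR.o1 R) (Nat.mod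
    (Nat.land (gmk (VR.h2 R) (VR.J R) (Nat.mul (Nat.mod (Nat.land (v88 R) (v5 R)) (VR.m1 R))
    (VR.cr1 R))) (v9 R)) (VR.m1 R))) (v12 R))) (VR.h2 R)) (nat_lit 15)

noncomputable def s93 (R : VR) (j i : ℕ) : Bool :=
  Nat.beq (s92 R j i) (s12 R j i)

theorem e93 (R : VR) : B2 R (v93 R) (s93 R) :=
  L.beq (VR.h2e R) (e92 R) (e12 R)

noncomputable def s94 (R : VR) (i : ℕ) : ℕ :=
  tx (VR.oq2T R) i

theorem e94 (R : VR) : L (VR.S R) (VR.oq2T R) (s94 R) 255 :=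
  VR.oq2_is R

noncomputable def v95 (R : VR) : ℕ :=
  gmk (VR.h2 R) (VR.J R) (Nat.mul (VR.oq2T R) (VR.cr1 R))

noncomputable def v96 (R : VR) : ℕ :=
  Nat.mod (Nat.land (v95 R) (v5 R)) (VR.m1 R)

noncomputable def s96 (R : VR) (i : ℕ) : ℕ :=
  tx (VR.nf1T R) (s94 R i)

theorem e96 (R : VR) : L (VR.S R) (v96 R) (s96 R) 255 :=
  L.gat (e94 R) (VR.nf1_is R) (VR.nf1_lt R) (VR.nf1_le R)

noncomputable def v97 (R : VR) : ℕ :=
  gmk (VR.h2 R) (VR.J R) (Nat.mul (Nat.mod (Nat.land (v95 R) (v5 R)) (VR.m1 R)) (VR.cr1 R))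

noncomputable def v98 (R : VR) : ℕ :=
  Nat.mod (Nat.land (gmk (VR.h2 R) (VR.J R) (Nat.mul (Nat.mod (Nat.land (v95 R) (v5 R)) (VR.m1 R))
    (VR.cr1 R))) (v9 R)) (VR.m1 R)

noncomputable def s98 (R : VR) (i : ℕ) : ℕ :=
  tx (VR.lT R) (s96 R i)

theorem e98 (R : VR) : L (VR.S R) (v98 R) (s98 R) 29 :=
  L.gat (e96 R) (VR.l_is R) (VR.l_lt R) (VR.l_le R)

noncomputable def v99 (R : VR) : ℕ :=
  gmk (VR.h2 R) (VR.J R) (Nat.mul (Nat.mod (Nat.land (gmk (VR.h2 R) (VR.J R) (Nat.mul (Nat.mod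
    (Nat.land (v95 R) (v5 R)) (VR.m1 R)) (VR.cr1 R))) (v9 R)) (VR.m1 R)) (VR.cr1 R))

noncomputable def v100 (R : VR) : ℕ :=
  Nat.mod (Nat.land (v99 R) (v21 R)) (VR.m1 R)

noncomputable def s100 (R : VR) (i : ℕ) : ℕ :=
  tx (VR.pw1T R) (s98 R i)

theorem e100 (R : VR) : L (VR.S R) (v100 R) (s100 R) 16384 :=
  L.gat (e98 R) (VR.pw1_is R) (VR.pw1_lt R) (VR.pw1_le R)

noncomputable def v101 (R : VR) : ℕ :=
  srM (VR.N R) (VR.S R) (VR.o1 R) (Nat.mod (Nat.land (v99 R) (v21 R)) (VR.m1 R))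

noncomputable def s101 (R : VR) (j i : ℕ) : ℕ :=
  (s100 R j)

theorem e101 (R : VR) : L2 R (v101 R) (s101 R) 16384 :=
  L2.row (e100 R)

noncomputable def v102 (R : VR) : ℕ :=
  Nat.xor (v25 R) (Nat.land (Nat.xor (v25 R) (srM (VR.N R) (VR.S R) (VR.o1 R) (Nat.mod (Nat.land
    (v99 R) (v21 R)) (VR.m1 R)))) (Nat.mul (v93 R) (nat_lit 32767)))

noncomputable def s102 (R : VR) (j i : ℕ) : ℕ :=
  Bool.rec (motive := fun _ => ℕ) (s25 R j i) (s101 R j i) (s93 R j i)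

theorem e102 (R : VR) : L2 R (v102 R) (s102 R) 16384 :=
  L.sel (e93 R) (e101 R) (e25 R) (by decide) (by decide) (by decide)

noncomputable def v103 (R : VR) : ℕ :=
  orr (wM (VR.S R)) (VR.m1 R) (Nat.land (Nat.xor (v25 R) (Nat.land (Nat.xor (v25 R) (srM (VR.N R)
    (VR.S R) (VR.o1 R) (Nat.mod (Nat.land (v99 R) (v21 R)) (VR.m1 R)))) (Nat.mul (v93 R) (nat_lit
    32767)))) (mM (Nat.mul (v86 R) (VR.S R))))

noncomputable def s103 (R : VR) (i : ℕ) : ℕ :=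
  V2.orN (s86 R) (fun j => (s102 R j i))

theorem e103 (R : VR) : L (VR.S R) (v103 R) (s103 R) 32767 :=
  L.orr (e102 R) (VR.koq_le R)

noncomputable def s104 (R : VR) (i : ℕ) : ℕ :=
  V2.orN (s86 R) (fun (x5 : ℕ) => (Bool.rec (motive := fun _ => ℕ) (nat_lit 0) (tx (VR.pw1T R) (tx
    (VR.lT R) (tx (VR.nf1T R) (tx (VR.oq2T R) x5)))) (Nat.beq (tx (VR.lT R) (tx (VR.nf1T R) (tx
    (VR.oq1T R) x5))) i)))

theorem e104 (R : VR) : L (VR.S R) (v103 R) (s104 R) 32767 :=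
  e103 R

noncomputable def s105 (R : VR) (i : ℕ) : ℕ :=
  V2.oq1 R i

theorem e105 (R : VR) : L (VR.S R) (v103 R) (s105 R) 32767 :=
  e104 R

noncomputable def n_oq1 (R : VR) : ℕ :=
  (orr (wM (VR.S R)) (VR.m1 R) (Nat.land (Nat.xor (v25 R) (Nat.land (Nat.xor (v25 R) (srM (VR.N R)
    (VR.S R) (VR.o1 R) (Nat.mod (Nat.land (v99 R) (v21 R)) (VR.m1 R)))) (Nat.mul (v93 R) (nat_lit
    32767)))) (mM (Nat.mul (v86 R) (VR.S R)))))

theorem n_oq1_is (R : VR) : L (VR.S R) (n_oq1 R) (V2.oq1 R) 32767 :=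
  e105 R

noncomputable def v106 (R : VR) : ℕ :=
  Nat.mod (Nat.land (v99 R) (v38 R)) (VR.m1 R)

noncomputable def s106 (R : VR) (i : ℕ) : ℕ :=
  tx (VR.pw2T R) (s98 R i)

theorem e106 (R : VR) : L (VR.S R) (v106 R) (s106 R) 16384 :=
  L.gat (e98 R) (VR.pw2_is R) (VR.pw2_lt R) (VR.pw2_le R)

noncomputable def v107 (R : VR) : ℕ :=
  srM (VR.N R) (VR.S R) (VR.o1 R) (Nat.mod (Nat.land (v99 R) (v38 R)) (VR.m1 R))

noncomputable def s107 (R : VR) (j i : ℕ) : ℕ :=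
  (s106 R j)

theorem e107 (R : VR) : L2 R (v107 R) (s107 R) 16384 :=
  L2.row (e106 R)

noncomputable def v108 (R : VR) : ℕ :=
  Nat.xor (v25 R) (Nat.land (Nat.xor (v25 R) (srM (VR.N R) (VR.S R) (VR.o1 R) (Nat.mod (Nat.land
    (v99 R) (v38 R)) (VR.m1 R)))) (Nat.mul (v93 R) (nat_lit 32767)))

noncomputable def s108 (R : VR) (j i : ℕ) : ℕ :=
  Bool.rec (motive := fun _ => ℕ) (s25 R j i) (s107 R j i) (s93 R j i)

theorem e108 (R : VR) : L2 R (v108 R) (s108 R) 16384 :=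
  L.sel (e93 R) (e107 R) (e25 R) (by decide) (by decide) (by decide)

noncomputable def v109 (R : VR) : ℕ :=
  orr (wM (VR.S R)) (VR.m1 R) (Nat.land (Nat.xor (v25 R) (Nat.land (Nat.xor (v25 R) (srM (VR.N R)
    (VR.S R) (VR.o1 R) (Nat.mod (Nat.land (v99 R) (v38 R)) (VR.m1 R)))) (Nat.mul (v93 R) (nat_lit
    32767)))) (mM (Nat.mul (v86 R) (VR.S R))))

noncomputable def s109 (R : VR) (i : ℕ) : ℕ :=
  V2.orN (s86 R) (fun j => (s108 R j i))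

theorem e109 (R : VR) : L (VR.S R) (v109 R) (s109 R) 32767 :=
  L.orr (e108 R) (VR.koq_le R)

noncomputable def s110 (R : VR) (i : ℕ) : ℕ :=
  V2.orN (s86 R) (fun (x6 : ℕ) => (Bool.rec (motive := fun _ => ℕ) (nat_lit 0) (tx (VR.pw2T R) (tx
    (VR.lT R) (tx (VR.nf1T R) (tx (VR.oq2T R) x6)))) (Nat.beq (tx (VR.lT R) (tx (VR.nf1T R) (tx
    (VR.oq1T R) x6))) i)))

theorem e110 (R : VR) : L (VR.S R) (v109 R) (s110 R) 32767 :=
  e109 R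

noncomputable def s111 (R : VR) (i : ℕ) : ℕ :=
  V2.oq2 R i

theorem e111 (R : VR) : L (VR.S R) (v109 R) (s111 R) 32767 :=
  e110 R

noncomputable def n_oq2 (R : VR) : ℕ :=
  (orr (wM (VR.S R)) (VR.m1 R) (Nat.land (Nat.xor (v25 R) (Nat.land (Nat.xor (v25 R) (srM (VR.N R)
    (VR.S R) (VR.o1 R) (Nat.mod (Nat.land (v99 R) (v38 R)) (VR.m1 R)))) (Nat.mul (v93 R) (nat_lit
    32767)))) (mM (Nat.mul (v86 R) (VR.S R)))))

theorem n_oq2_is (R : VR) : L (VR.S R) (n_oq2 R) (V2.oq2 R) 32767 :=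
  e111 R

noncomputable def v112 (R : VR) : ℕ :=
  VR.n R

noncomputable def s112 (R : VR) : ℕ :=
  VR.n R

theorem e112 (R : VR) : (v112 R) = s112 R :=
  rfl

theorem b112 (R : VR) : s112 R ≤ 127 :=
  VR.n_b R

noncomputable def s113 (R : VR) (i : ℕ) : ℕ :=
  tx (VR.lpT R) i

theorem e113 (R : VR) : L (VR.S R) (VR.lpT R) (s113 R) 29 :=
  VR.lp_is R

noncomputable def v114 (R : VR) : ℕ :=
  srM (VR.N R) (VR.S R) (VR.o1 R) (VR.lpT R)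

noncomputable def s114 (R : VR) (j i : ℕ) : ℕ :=
  (s113 R j)

theorem e114 (R : VR) : L2 R (v114 R) (s114 R) 29 :=
  L2.row (e113 R)

noncomputable def v115 (R : VR) : ℕ :=
  Nat.shiftRight (Nat.land (Nat.sub (VR.h2 R) (Nat.xor (srM (VR.N R) (VR.S R) (VR.o1 R) (VR.lpT
    R)) (v12 R))) (VR.h2 R)) (nat_lit 15)

noncomputable def s115 (R : VR) (j i : ℕ) : Bool :=
  Nat.beq (s114 R j i) (s12 R j i)

theorem e115 (R : VR) : B2 R (v115 R) (s115 R) :=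
  L.beq (VR.h2e R) (e114 R) (e12 R)

noncomputable def s116 (R : VR) (i : ℕ) : ℕ :=
  tx (VR.cepT R) i

theorem e116 (R : VR) : L (VR.S R) (VR.cepT R) (s116 R) 14 :=
  VR.cep_is R

noncomputable def v117 (R : VR) : ℕ :=
  gmk (VR.h2 R) (VR.J R) (Nat.mul (VR.cepT R) (VR.cr1 R))

noncomputable def v118 (R : VR) : ℕ :=
  Nat.mod (Nat.land (v117 R) (v21 R)) (VR.m1 R)

noncomputable def s118 (R : VR) (i : ℕ) : ℕ :=
  tx (VR.pw1T R) (s116 R i)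

theorem e118 (R : VR) : L (VR.S R) (v118 R) (s118 R) 16384 :=
  L.gat (e116 R) (VR.pw1_is R) (VR.pw1_lt R) (VR.pw1_le R)

noncomputable def v119 (R : VR) : ℕ :=
  srM (VR.N R) (VR.S R) (VR.o1 R) (v118 R)

noncomputable def s119 (R : VR) (j i : ℕ) : ℕ :=
  (s118 R j)

theorem e119 (R : VR) : L2 R (v119 R) (s119 R) 16384 :=
  L2.row (e118 R)

noncomputable def v120 (R : VR) : ℕ :=
  Nat.xor (v25 R) (Nat.land (Nat.xor (v25 R) (v119 R)) (Nat.mul (v115 R) (nat_lit 32767)))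

noncomputable def s120 (R : VR) (j i : ℕ) : ℕ :=
  Bool.rec (motive := fun _ => ℕ) (s25 R j i) (s119 R j i) (s115 R j i)

theorem e120 (R : VR) : L2 R (v120 R) (s120 R) 16384 :=
  L.sel (e115 R) (e119 R) (e25 R) (by decide) (by decide) (by decide)

noncomputable def v121 (R : VR) : ℕ :=
  orr (wM (VR.S R)) (VR.m1 R) (Nat.land (Nat.xor (v25 R) (Nat.land (Nat.xor (v25 R) (v119 R))
    (Nat.mul (v115 R) (nat_lit 32767)))) (mM (Nat.mul (v112 R) (VR.S R))))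

noncomputable def s121 (R : VR) (i : ℕ) : ℕ :=
  V2.orN (s112 R) (fun j => (s120 R j i))

theorem e121 (R : VR) : L (VR.S R) (v121 R) (s121 R) 32767 :=
  L.orr (e120 R) (VR.n_le R)

noncomputable def s122 (R : VR) (i : ℕ) : ℕ :=
  V2.orN (s112 R) (fun (x7 : ℕ) => (Bool.rec (motive := fun _ => ℕ) (nat_lit 0) (tx (VR.pw1T R)
    (tx (VR.cepT R) x7)) (Nat.beq (tx (VR.lpT R) x7) i)))

theorem e122 (R : VR) : L (VR.S R) (v121 R) (s122 R) 32767 :=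
  e121 R

noncomputable def s123 (R : VR) (i : ℕ) : ℕ :=
  V2.spm R i

theorem e123 (R : VR) : L (VR.S R) (v121 R) (s123 R) 32767 :=
  e122 R

noncomputable def n_spm (R : VR) : ℕ :=
  (orr (wM (VR.S R)) (VR.m1 R) (Nat.land (Nat.xor (v25 R) (Nat.land (Nat.xor (v25 R) (v119 R))
    (Nat.mul (v115 R) (nat_lit 32767)))) (mM (Nat.mul (v112 R) (VR.S R)))))

theorem n_spm_is (R : VR) : L (VR.S R) (n_spm R) (V2.spm R) 32767 :=
  e123 R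

end Vs

end Pool.FC7
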