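import Pool.Agent.FC7.VsJ

/-! # Vector form of the static checks: from the new functions to the functions of the kernel -/

open Finset

set_option linter.unusedSectionVars false

namespace Pool.FC7

open Pool.FC6

namespace Vs

theorem ua_band {a b : Bool} : K.band a b = true ↔ a = true ∧ b = true := by
  rw [K.band_eq, Bool.and_eq_true]

theorem ua_bor {a b : Bool} : K.bor a b = true ↔ a = true ∨ b = true := by
  rw [K.bor_eq, Bool.or_eq_true]

theorem ua_bnot {a : Bool} : K.bnot a = true ↔ ¬ a = true := by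
  rw [K.bnot_eq]; cases a <;> simp

theorem ua_all {k : ℕ} {p : ℕ → Bool} : K.allN k p = true ↔ ∀ i < k, p i = true := by
  rw [allN_dec, decide_eq_true_eq]

theorem ua_beq {a b : ℕ} : Nat.beq a b = true ↔ a = b := by
  rw [K.nbeq_eq, decide_eq_true_eq]

theorem ua_ble {a b : ℕ} : Nat.ble a b = true ↔ a ≤ b := by
  rw [K.nble_eq, decide_eq_true_eq]

theorem ua_lall {α : Type} {l : List α} {p : α → Bool} :
    K.lall l p = true ↔ ∀ x ∈ l, p x = true := by
  rw [K.lall_eq, List.all_eq_true]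

theorem ua_lany {α : Type} {l : List α} {p : α → Bool} :
    K.lany l p = true ↔ ∃ x ∈ l, p x = true := by
  rw [K.lany_eq, List.any_eq_true]

theorem ua_m (R : VR) : FC7.OD.m (VR.O R) ≤ 30 := Nat.add_le_add (VR.x_b R) (VR.k_b R)

/-- the first check -/
theorem V2.chkA_eq (R : VR) : V2.chkA R = K.WF_chkA (VR.WF R) := by
  have e1 : (K.allN (FC7.OD.m (VR.O R)) (fun (a : ℕ) => (K.allN (FC7.OD.m (VR.O R)) (fun (b : ℕ) =>
      (K.bor (K.bnot (V2.ne R a b)) (K.WF_dis (VR.WF R) a b)))))) =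
      (K.allN (FC7.OD.m (VR.O R)) (fun (a : ℕ) => (K.allN (FC7.OD.m (VR.O R)) (fun (b : ℕ) =>
      (K.bor (K.bnot (K.Fc_ne (VR.F R) a b)) (K.WF_dis (VR.WF R) a b)))))) := by
    refine allN_congr fun a _ => allN_congr fun b hb => ?_
    have := ua_m R
    rw [V2.ne_eq R a b (by omega)]
  have e2 : (K.allN (FC7.OD.m (VR.O R)) (fun (a : ℕ) => (K.allN (FC7.OD.m (VR.O R)) (fun (b : ℕ) =>
      (K.bor (K.bor (K.bor (K.bnot (V2.na R a b)) (Nat.ble (Nat.succ a) (FC7.OD.x (VR.O R))))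
      (Nat.ble (Nat.succ b) (FC7.OD.x (VR.O R)))) (V2.nqp R a b)))))) =
      (K.allN (FC7.OD.m (VR.O R)) (fun (a : ℕ) => (K.allN (FC7.OD.m (VR.O R)) (fun (b : ℕ) =>
      (K.bor (K.bor (K.bor (K.bnot (K.Fc_na (VR.F R) a b)) (Nat.ble (Nat.succ a) (FC7.OD.x (VR.O R))))
      (Nat.ble (Nat.succ b) (FC7.OD.x (VR.O R)))) (K.lany (lst2 (VR.knq R) (VR.nq1T R) (VR.nq2T R))
      (fun (q : ℕ × ℕ) => (K.bor
      (K.band (Nat.beq (hl R (Prod.fst q)) a) (Nat.beq (hl R (Prod.snd q)) b))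
      (K.band (Nat.beq (hl R (Prod.fst q)) b) (Nat.beq (hl R (Prod.snd q)) a)))))))))) := by
    refine allN_congr fun a _ => allN_congr fun b hb => ?_
    have := ua_m R
    rw [V2.na_eq R a b (by omega), nqa_eq]
  unfold V2.chkA
  rw [e1, e2]
  rfl

theorem V2.chkA_ok {R : VR} (h : V2.chkA R = true) : K.WF_chkA (VR.WF R) = true := by
  rw [← V2.chkA_eq]; exact h

theorem okv_ok {R : VR} {i : ℕ} (h : V2.okv R i = true) : K.WF_okv (VR.WF R) i = true := by
  unfold V2.okv at h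
  rw [ua_bor, ua_bor] at h
  unfold K.WF_okv
  rw [ua_bor, ua_bor]
  rcases h with (h | h) | h
  · left; left
    rw [ua_lany] at h ⊢
    obtain ⟨z, hz, h1⟩ := h
    refine ⟨z, hz, ?_⟩
    rw [ua_all]
    intro j _
    rw [ua_bor, ua_bnot]
    by_contra hc
    push Not at hc
    obtain ⟨h2, h3⟩ := hc
    rw [ua_beq] at h1
    have e1 : tx (VR.pw1T R) (FC7.XE.ce (VR.X R) i) = 2 ^ (FC7.XE.ce (VR.X R) i) :=
      pw_small (VR.ce_le R i)
    rw [e1] at h1
    have h4 : z.testBit (FC7.XE.ce (VR.X R) j) = true := by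
      rw [K.tbit_eq] at h2; exact h2
    have h5 : (2 ^ (FC7.XE.ce (VR.X R) i)).testBit (FC7.XE.ce (VR.X R) j) = true := by
      rw [← h1]
      show (z ||| 2 ^ (FC7.XE.ce (VR.X R) i)).testBit (FC7.XE.ce (VR.X R) j) = true
      rw [Nat.testBit_or, h4, Bool.true_or]
    rw [Nat.testBit_two_pow, decide_eq_true_eq] at h5
    apply h3
    rw [ua_beq]
    exact h5.symm
  · left; right; exact h
  · right; exact h

theorem V2.chkV_ok {R : VR} (h : V2.chkV R = true) : K.WF_chkV (VR.WF R) = true := by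
  unfold V2.chkV at h
  rw [ua_all] at h
  unfold K.WF_chkV
  rw [ua_all]
  intro i hi
  have h1 := h i hi
  rw [ua_bor] at h1 ⊢
  exact h1.imp id okv_ok

theorem V2.chkO_ok {R : VR} (h1 : V2.o4 R = true) (h2 : V2.o4b R = true) (h3 : V2.o3 R = true)
    (h4 : V2.o3b R = true) (h5 : V2.ou R = true) : K.WF_chkO (VR.WF R) = true := by
  unfold K.WF_chkO
  rw [ua_band]
  refine ⟨?_, h5⟩
  rw [ua_all]
  intro q hq
  rw [ua_band]
  constructor
  · unfold V2.o4 at h1
    rw [ua_all] at h1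
    have g := h1 q hq
    rw [ua_bor] at g ⊢
    refine g.imp id fun g => ?_
    rw [ua_band, ua_band, ua_band, ua_band, ua_bor] at g
    obtain ⟨⟨⟨⟨g1, g2⟩, g3⟩, g4⟩, g5⟩ := g
    rw [ua_band]
    refine ⟨?_, g5⟩
    unfold K.WF_t4
    rw [ua_band, ua_band, ua_band, ua_bor]
    refine ⟨⟨⟨g1, g2⟩, g3⟩, g4.imp id fun g4 => ?_⟩
    rw [K.lmem_eq, decide_eq_true_eq] at g4
    unfold V2.o4b at h2
    rw [ua_lall] at h2
    exact h2 q g4
  · unfold V2.o3 at h3
    unfold V2.o3b at h4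
    rw [ua_all] at h3 h4
    have g := h3 q hq
    have g' := h4 q hq
    rw [ua_bor] at g g' ⊢
    rw [ua_bor] at g
    rcases g' with g' | g'
    · exact Or.inl g'
    · rcases g with (g | g) | g
      · exact Or.inl g
      · right
        rw [g] at g'
        exact g'
      · right
        cases hm : tf (VR.mtT R) q with
        | true => rw [hm] at g'; exact g'
        | false =>
          rw [hm] at g'
          have g2 : K.leq (FC7.WF.tl (VR.WF R) q) (List.cons (FC7.Fc.tj (VR.F R) q) []) = true := g'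
          rw [K.leq_eq, decide_eq_true_eq] at g2
          rw [ua_band] at g
          rw [g2, ua_band]
          refine ⟨?_, ?_⟩
          · unfold K.WF_hbs
            rw [ua_band, ua_band, ua_lall, ua_lall, K.nodup_eq, decide_eq_true_eq]
            refine ⟨⟨fun x hx => ?_, List.nodup_singleton _⟩, fun x hx => ?_⟩
            · rw [List.mem_singleton] at hx
              rw [hx]; exact g.1
            · rw [ua_lall]
              intro y hy
              rw [List.mem_singleton] at hx hy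
              rw [ua_bor, ua_beq]
              left
              rw [hx, hy]
          · exact g.2

theorem V2.chkZ_ok {R : VR} (h1 : V2.chkZ R = true) (h2 : V2.z4b R = true) :
    K.WF_chkZ (VR.WF R) = true := by
  unfold V2.chkZ at h1
  unfold V2.z4b at h2
  rw [ua_all] at h1
  rw [ua_lall] at h2
  unfold K.WF_chkZ
  rw [ua_all]
  intro i hi
  have g := h1 i hi
  rw [ua_bor] at g ⊢
  refine g.imp id fun g => ?_
  rw [ua_band, ua_bor] at g
  rw [ua_band, ua_bor]
  obtain ⟨g0, g⟩ := g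
  refine ⟨g0, g.imp id fun g => ?_⟩
  rw [ua_band, ua_band, ua_bor] at g
  obtain ⟨⟨g2, g3⟩, g4⟩ := g
  rw [ua_band] at g0
  unfold K.WF_t4
  rw [ua_band, ua_band, ua_band, ua_bor]
  refine ⟨⟨⟨g0.1, g2⟩, g3⟩, g4.imp id fun g4 => ?_⟩
  rw [K.lmem_eq, decide_eq_true_eq] at g4
  exact h2 i g4

theorem V2.stars_ok {R : VR} (h : V2.stars R = true) : K.Stars_chk (VR.Z R) (VR.P R) = true := by
  unfold V2.stars at h
  unfold K.Stars_chk
  rw [ua_band, ua_band, ua_all] at h
  rw [ua_band, ua_band, ua_all]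
  refine ⟨⟨h.1.1, fun a ha => ?_⟩, h.2⟩
  have g := h.1.2 a ha
  rw [ua_band, ua_all] at g
  rw [ua_band, ua_all]
  refine ⟨g.1, fun i hi => ?_⟩
  have g1 := g.1
  rw [ua_band, ua_band, ua_ble] at g1
  have g2 : FC6.Stars.off (VR.Z R) a + FC6.Stars.m (VR.Z R) a ≤ FC6.Sp.ns (VR.Q R) := by
    have := g1.1.2
    rw [ua_ble] at this
    exact this
  have g3 := g.2 (FC6.Stars.off (VR.Z R) a + i) (by omega)
  rw [ua_bor, ua_bnot, ua_band, ua_ble, ua_ble] at g3
  rcases g3 with g3 | g3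
  · exact absurd ⟨Nat.le_add_right _ _, Nat.succ_le_of_lt (Nat.add_lt_add_left hi _)⟩ g3
  · exact g3

end Vs

end Pool.FC7
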