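import Pool.Agent.FC7.VsJ

/-! # Vector form of the static checks: the configuration -/

open Finset

set_option linter.unusedSectionVars false

namespace Pool.FC7

open Pool.FC6

namespace Vs

variable {R : VR}

/-- the check of a pair of words -/
noncomputable def cfI (R : VR) (d a b : ℕ) : Bool :=
  (K.band (K.bor (Nat.beq d (nat_lit 0)) (K.band (K.band (K.band (K.band (K.band (K.band
    (FC7.Cf.ac (VR.Cf R) a) (FC7.Cf.ac (VR.Cf R) b)) (Nat.ble (Nat.succ (Nat.sub d (nat_lit 1)))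
    (FC6.Sp.ns (VR.Q R)))) (Nat.beq (FC6.Stars.ca (VR.Z R) (Nat.sub d (nat_lit 1))) a)) (Nat.beq
    (FC6.Stars.ca (VR.Z R) (FC6.Sp.π (VR.Q R) (Nat.sub d (nat_lit 1)))) b)) (K.bnot (Nat.beq
    (FC6.Sp.π (VR.Q R) (Nat.sub d (nat_lit 1))) (Nat.sub d (nat_lit 1))))) (FC6.Sp.rl (VR.Q R)
    (Nat.sub d (nat_lit 1))))) (K.bor (K.bor (K.bor (Nat.beq a b) (K.bnot (K.beqB (FC7.Cf.ac
    (VR.Cf R) a) (FC7.Cf.ac (VR.Cf R) b)))) (K.bnot (Nat.beq d (nat_lit 0)))) (K.band (K.band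
    (K.Cf_csok (VR.Cf R) a) (K.Cf_csok (VR.Cf R) b)) (K.Cf_sd (VR.Cf R) (FC7.Cf.cs (VR.Cf R) a)
    (FC7.Cf.cs (VR.Cf R) b)))))

theorem cfS_eq : K.Cf_chkS (VR.Cf R) = K.band (K.allN (VR.nc R) fun a => K.allN (VR.nc R) fun b =>
    cfI R (tx (VR.adT R) (Nat.add (Nat.mul (VR.st8 R) a) b)) a b) (V2.cfS2 R) := rfl

theorem cfS1_eq : V2.cfS1 R = K.allN (VR.nc8 R) fun t =>
    K.bor (K.bor (Nat.ble (VR.nc R) (tx (VR.dvT R) t)) (Nat.ble (VR.nc R) (tx (VR.mdT R) t)))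
      (cfI R (tx (VR.adT R) t) (tx (VR.dvT R) t) (tx (VR.mdT R) t)) := rfl

theorem ble_lt {a n : ℕ} (h : a < n) : Nat.ble n a = false := by
  rw [K.nble_eq]
  exact decide_eq_false (not_le.2 h)

theorem cfS_ok (h1 : V2.cfS1 R = true) (h2 : V2.cfS2 R = true) :
    K.Cf_chkS (VR.Cf R) = true := by
  rw [cfS_eq, h2, K.band_eq, Bool.and_true, allN_dec, decide_eq_true_eq]
  intro a ha
  rw [allN_dec, decide_eq_true_eq]
  intro b hb
  rw [cfS1_eq, allN_dec, decide_eq_true_eq] at h1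
  have hc := VR.nc_s R
  have hs := VR.st8_or R
  have hlt : Nat.add (Nat.mul (VR.st8 R) a) b < VR.nc8 R := by
    show VR.st8 R * a + b < VR.st8 R * VR.nc R
    have h4 : VR.st8 R * (a + 1) ≤ VR.st8 R * VR.nc R := Nat.mul_le_mul_left _ ha
    rw [Nat.mul_add, Nat.mul_one] at h4
    omega
  have hS : Nat.add (Nat.mul (VR.st8 R) a) b < VR.S R :=
    lt_of_lt_of_le hlt ((VR.nc8_le R).trans (Nat.le_succ _))
  have e1 : tx (VR.dvT R) (Nat.add (Nat.mul (VR.st8 R) a) b) = a := by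
    rw [VR.dv_tx R hS]
    show (VR.st8 R * a + b) / VR.st8 R = a
    rcases hs with h | h <;> rw [h] at hc ⊢ <;> omega
  have e2 : tx (VR.mdT R) (Nat.add (Nat.mul (VR.st8 R) a) b) = b := by
    rw [VR.md_tx R hS]
    show (VR.st8 R * a + b) % VR.st8 R = b
    rcases hs with h | h <;> rw [h] at hc ⊢ <;> omega
  have h3 := h1 (Nat.add (Nat.mul (VR.st8 R) a) b) hlt
  rw [e1, e2, ble_lt ha, ble_lt hb] at h3
  exact h3

/-! ### More flags are better -/

variable {F : Cf} {bg bg' : ℕ → Bool}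

theorem nb (h : ∀ i, bg' i = true → bg i = true) (i : ℕ) (h1 : K.bnot (bg i) = true) :
    K.bnot (bg' i) = true := by
  have h2 := h i
  cases h3 : bg' i
  · rfl
  · rw [h2 h3] at h1
    exact absurd h1 (by decide)

theorem bb {p q : Bool} (h : p = true → q = true) : K.bnot q = true → K.bnot p = true := by
  cases p
  · intro _; rfl
  · intro h1; rw [h rfl] at h1; exact absurd h1 (by decide)

theorem ex22_mono (h : ∀ i, bg' i = true → bg i = true) {k k' j j' : ℕ}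
    (h1 : K.Cf_ex22 F bg k k' j j' = true) : K.Cf_ex22 F bg' k k' j j' = true := by
  have h2 := nb h
  unfold K.Cf_ex22 at h1 ⊢
  simp only [K.band_eq, K.bor_eq, Bool.or_eq_true, Bool.and_eq_true] at h1 ⊢
  grind

theorem exc_mono (h : ∀ i, bg' i = true → bg i = true) {k k' j j' : ℕ}
    (h1 : K.Cf_exc F bg k k' j j' = true) : K.Cf_exc F bg' k k' j j' = true := by
  unfold K.Cf_exc at h1 ⊢
  simp only [K.band_eq, K.bor_eq, Bool.or_eq_true, Bool.and_eq_true] at h1 ⊢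
  exact h1.imp (Or.imp_right (ex22_mono h)) (ex22_mono h)

theorem p4_mono (h : ∀ i, bg' i = true → bg i = true) {k j j' : ℕ}
    (h1 : K.Cf_p4 F bg k j j' = true) : K.Cf_p4 F bg' k j j' = true := by
  have h2 := nb h
  unfold K.Cf_p4 at h1 ⊢
  simp only [K.band_eq, K.bor_eq, Bool.or_eq_true, Bool.and_eq_true] at h1 ⊢
  grind

theorem nadj_mono (h : ∀ i, bg' i = true → bg i = true) {j j' : ℕ}
    (h1 : K.Cf_nadj F bg' j j' = true) : K.Cf_nadj F bg j j' = true := by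
  unfold K.Cf_nadj at h1 ⊢
  simp only [K.band_eq, Bool.and_eq_true] at h1 ⊢
  exact ⟨⟨h1.1.1, bb (p4_mono h) h1.1.2⟩, bb (p4_mono h) h1.2⟩

theorem bgx_mono (h : ∀ i, bg' i = true → bg i = true) {i : ℕ}
    (h1 : K.Cf_bgx F bg' i = true) : K.Cf_bgx F bg i = true := by
  unfold K.Cf_bgx at h1 ⊢
  simp only [K.band_eq, K.bor_eq, Bool.or_eq_true, Bool.and_eq_true] at h1 ⊢
  exact h1.imp (Or.imp (h _) (And.imp_right (h _))) (And.imp_right (h _))

theorem rule4_ok (h : ∀ i, tf (VR.BGXT R) i = true → bg i = true) {j j' : ℕ}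
    (h1 : V2.rule4 R j j' = true) : K.Cf_rule4 (VR.Cf R) bg j j' = true := by
  unfold V2.rule4 at h1
  unfold K.Cf_rule4
  rw [K.lany_eq, K.lany_eq] at h1
  rw [K.lany_eq]
  simp only [K.band_eq, K.bor_eq, Bool.or_eq_true, Bool.and_eq_true, List.any_eq_true] at h1 ⊢
  refine h1.imp_right (And.imp_right (Or.imp ?_ ?_))
  · rintro ⟨c, _, h2, h3, h4⟩
    rw [K.nbeq_eq, decide_eq_true_eq] at h2
    subst h2
    exact ⟨h3, h4⟩
  · rintro ⟨m, h2, h3, h4⟩
    exact ⟨m, h2, h3, bb (exc_mono h) h4⟩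

theorem chk4_ok (h : ∀ i, tf (VR.BGXT R) i = true → bg i = true) (h1 : V2.chk4 R = true) :
    K.Cf_chk4 (VR.Cf R) bg = true := by
  unfold V2.chk4 at h1
  unfold K.Cf_chk4
  rw [allN_dec, decide_eq_true_eq] at h1 ⊢
  intro j hj
  have h2 := h1 j hj
  rw [allN_dec, decide_eq_true_eq] at h2 ⊢
  intro j' hj'
  have h3 := h2 j' hj'
  simp only [K.bor_eq, Bool.or_eq_true] at h3 ⊢
  exact h3.imp_right (rule4_ok h)

theorem bgx_ok {bg0 : ℕ → Bool} (h : ∀ i, V2.bg0 R i = true → bg0 i = true) (i : ℕ)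
    (h1 : tf (VR.BGXT R) i = true) : K.Cf_bgx (VR.Cf R) bg0 i = true :=
  bgx_mono (fun i h2 => h i (tf_cut_imp (n_bg0_is R) h2)) (tf_cut_imp (n_bgx_is R) h1)

theorem bg0l (h : V2.bgl R = true) (i : ℕ) (h1 : V2.bg0 R i = true) :
    K.WG_bg0 (VR.W R) i = true := by
  unfold V2.bgl at h
  rw [K.lall_eq, List.all_eq_true] at h
  unfold V2.bg0 at h1
  unfold K.WG_bg0 K.Cf_big at h ⊢
  simp only [K.band_eq, K.bor_eq, Bool.or_eq_true, Bool.and_eq_true] at h h1 ⊢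
  rcases h1 with h1 | h1
  · exact Or.inl (Or.inl (Or.inl h1))
  · rw [K.lmem_eq, decide_eq_true_eq] at h1
    exact h i h1

theorem bg0r (h : V2.bgr R = true) (i : ℕ) (h1 : V2.bg0 R i = true) :
    K.WS_bg0 (VR.WS R) i = true := by
  unfold V2.bgr at h
  rw [K.lall_eq, List.all_eq_true] at h
  unfold V2.bg0 at h1
  unfold K.WS_bg0 K.Cf_big at h ⊢
  simp only [K.band_eq, K.bor_eq, Bool.or_eq_true, Bool.and_eq_true] at h h1 ⊢
  rcases h1 with h1 | h1
  · exact Or.inl (Or.inl h1)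
  · rw [K.lmem_eq, decide_eq_true_eq] at h1
    exact h i h1

/-- the spokes with a flag -/
theorem bgW (h : V2.bgl R = true) (i : ℕ) (h1 : tf (VR.BGXT R) i = true) :
    K.WG_bg (VR.W R) i = true := bgx_ok (bg0l h) i h1

theorem bgS (h : V2.bgr R = true) (i : ℕ) (h1 : tf (VR.BGXT R) i = true) :
    K.WS_bg (VR.WS R) i = true := bgx_ok (bg0r h) i h1

theorem nqc_ok (h : V2.bgl R = true) {q : ℕ × ℕ} (h1 : V2.nqc R q = true) :
    K.WG_nqc (VR.W R) q = true := by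
  unfold V2.nqc at h1
  unfold K.WG_nqc
  simp only [K.band_eq, K.bor_eq, Bool.or_eq_true, Bool.and_eq_true] at h1 ⊢
  exact ⟨h1.1, h1.2.imp_right (nadj_mono (bgW h))⟩

theorem oqc_ok (h : V2.bgl R = true) {q : ℕ × ℕ} (h1 : V2.oqc R q = true) :
    K.WG_oqc (VR.W R) q = true := by
  unfold V2.oqc at h1
  unfold K.WG_oqc
  simp only [K.band_eq, K.bor_eq, Bool.or_eq_true, Bool.and_eq_true] at h1 ⊢
  exact ⟨h1.1, h1.2.imp_right (nadj_mono (bgW h))⟩

theorem g8_ok (h : V2.bgl R = true) (h1 : V2.g8a R = true) :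
    K.lall (FC7.WF.dq (VR.WF R)) (fun q => K.Cf_sd (VR.Cf R) (Prod.fst q) (Prod.snd q)) = true ∧
      K.lall (FC7.WF.nq (VR.WF R)) (K.WG_nqc (VR.W R)) = true ∧
        K.lall (FC7.WF.oq (VR.WF R)) (K.WG_oqc (VR.W R)) = true := by
  unfold V2.g8a at h1
  simp only [K.band_eq, Bool.and_eq_true] at h1
  refine ⟨h1.1, ?_, ?_⟩
  · have h2 := h1.2.1
    rw [K.lall_eq, List.all_eq_true] at h2 ⊢
    exact fun q hq => nqc_ok h (h2 q hq)
  · have h2 := h1.2.2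
    rw [K.lall_eq, List.all_eq_true] at h2 ⊢
    exact fun q hq => oqc_ok h (h2 q hq)

end Vs

end Pool.FC7
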