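import Pool.Agent.FC7.VuC
import Pool.Agent.FC7.VtK

/-! # Vector form of the static checks: facts without a reduction -/

open Finset

set_option linter.unusedSectionVars false

namespace Pool.FC7

open Pool.FC6

namespace Vs

variable {R : VR}

theorem WRm : K.WR_m (VR.WR R) ≤ 30 := by
  show VR.x R + VR.k R ≤ 30
  have := VR.x_b R
  have := VR.k_b R
  omega

theorem rA_ok (h : V2.rA R = true) : K.WR_chkA (VR.WR R) = true := by
  rw [← h]
  unfold V2.rA K.WR_chkA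
  refine congrArg₂ K.band rfl ?_
  refine allN_congr fun a _ => allN_congr fun b hb => congrArg₂ K.bor (congrArg K.bnot ?_) rfl
  exact (V2.ner_eq R a b (hb.le.trans (WRm.trans (by norm_num)))).symm

theorem pw1e {c : ℕ} (hc : c ≤ 14) : tx (VR.pw1T R) c = 2 ^ c := pw_small hc

theorem sub1 {z c t : ℕ} (hc : c ≤ 14) (h : Nat.beq (Nat.lor z (tx (VR.pw1T R) c))
    (tx (VR.pw1T R) c) = true) (ht : K.tbit z t = true) : t = c := by
  rw [beq_iff, pw1e hc] at h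
  have e : Nat.lor z (2 ^ c) = z ||| 2 ^ c := rfl
  rw [e] at h
  have h1 : (z ||| 2 ^ c).testBit t = true := by
    rw [Nat.testBit_or, ← K.tbit_eq, ht]; rfl
  rw [h, Nat.testBit_two_pow, decide_eq_true_eq] at h1
  exact h1.symm

theorem sub2 {z c d t : ℕ} (hc : c ≤ 14) (hd : d ≤ 14) (h : Nat.beq (Nat.lor z
    (Nat.lor (tx (VR.pw1T R) c) (tx (VR.pw1T R) d))) (Nat.lor (tx (VR.pw1T R) c)
      (tx (VR.pw1T R) d)) = true) (ht : K.tbit z t = true) : t = c ∨ t = d := by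
  rw [beq_iff, pw1e hc, pw1e hd] at h
  have e : Nat.lor z (Nat.lor (2 ^ c) (2 ^ d)) = z ||| (2 ^ c ||| 2 ^ d) := rfl
  have e1 : Nat.lor (2 ^ c) (2 ^ d) = 2 ^ c ||| 2 ^ d := rfl
  rw [e, e1] at h
  have h1 : (z ||| (2 ^ c ||| 2 ^ d)).testBit t = true := by
    rw [Nat.testBit_or, ← K.tbit_eq, ht]; rfl
  rw [h, Nat.testBit_or, Nat.testBit_two_pow, Nat.testBit_two_pow, Bool.or_eq_true,
    decide_eq_true_eq, decide_eq_true_eq] at h1
  exact h1.imp Eq.symm Eq.symm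

theorem bnot_or {p q : Bool} (h : p = true → q = true) : K.bor (K.bnot p) q = true := by
  cases p
  · rfl
  · rw [h rfl]; rfl

theorem bor_imp {a b c d : Bool} (h1 : a = true → c = true) (h2 : b = true → d = true)
    (h : K.bor a b = true) : K.bor c d = true := by
  rw [K.bor_eq, Bool.or_eq_true] at h ⊢
  exact h.imp h1 h2

theorem allN_imp {n : ℕ} {p q : ℕ → Bool} (h : ∀ i < n, p i = true → q i = true)
    (h1 : K.allN n p = true) : K.allN n q = true := by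
  rw [allN_dec, decide_eq_true_eq] at h1 ⊢
  exact fun i hi => h i hi (h1 i hi)

theorem lany_imp {α : Type} {l : List α} {p q : α → Bool} (h : ∀ i ∈ l, p i = true → q i = true)
    (h1 : K.lany l p = true) : K.lany l q = true := by
  rw [K.lany_eq, List.any_eq_true] at h1 ⊢
  obtain ⟨x, hx, h2⟩ := h1
  exact ⟨x, hx, h x hx h2⟩

theorem lall_imp {α : Type} {l : List α} {p q : α → Bool} (h : ∀ i ∈ l, p i = true → q i = true)
    (h1 : K.lall l p = true) : K.lall l q = true := by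
  rw [K.lall_eq, List.all_eq_true] at h1 ⊢
  exact fun x hx => h x hx (h1 x hx)

theorem cel_ok {z i : ℕ} (h : Nat.beq (Nat.lor z (tx (VR.pw1T R) (FC7.XE.ce (VR.X R) i)))
    (tx (VR.pw1T R) (FC7.XE.ce (VR.X R) i)) = true) : K.Fr_cel (VR.Fr R) z i = true := by
  unfold K.Fr_cel
  rw [allN_dec, decide_eq_true_eq]
  intro j _
  refine bnot_or fun hz => ?_
  rw [beq_iff]
  exact sub1 (VR.ce_le R i) h hz

theorem spm_ok (hl : VR.lpT R = VR.lT R) {a m : ℕ} (h : Nat.beq (Nat.land (tx (VR.SPMT R) a) m)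
    (tx (VR.SPMT R) a) = true) : K.allN (FC6.Pa.n (VR.P R)) (fun (i : ℕ) =>
      (K.bor (K.bnot (Nat.beq (FC6.Pa.l (VR.P R) i) a)) (K.tbit m (FC7.XE.ce' (VR.X R) i)))) =
        true := by
  rw [allN_dec, decide_eq_true_eq]
  intro i hi
  refine bnot_or fun h1 => ?_
  rw [beq_iff, SPM_eq] at h
  have e : Nat.land (V2.spm R a) m = V2.spm R a &&& m := rfl
  rw [e] at h
  have h2 : (V2.spm R a).testBit (FC7.XE.ce' (VR.X R) i) = true := by
    unfold V2.spm
    rw [orN_bit]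
    refine ⟨i, hi, ?_⟩
    have h3 : Nat.beq (tx (VR.lpT R) i) a = true := by rw [hl]; exact h1
    rw [h3]
    show (tx (VR.pw1T R) (tx (VR.cepT R) i)).testBit (tx (VR.cepT R) i) = true
    rw [pw1e (VR.cep_le R i), Nat.testBit_two_pow, decide_eq_true_eq]
  rw [← h, Nat.testBit_and, Bool.and_eq_true] at h2
  rw [K.tbit_eq]
  exact h2.2

theorem rfr_ok (h : V2.rfr R = true)
    (hs : K.XE_sta (K.Fr_XX (VR.Fr R)) (VR.P R) (VR.P R) = true)
    (hr : K.XE_ringOk (K.Fr_XX (VR.Fr R)) (VR.P R) = true)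
    (hl : VR.lpT R = VR.lT R) : K.Fr_chk (VR.Fr R) = true := by
  unfold V2.rfr at h
  unfold K.Fr_chk
  rw [K.band_eq] at h ⊢
  simp only [Bool.and_eq_true] at h ⊢
  obtain ⟨⟨⟨⟨⟨⟨⟨⟨⟨⟨⟨⟨⟨p1, p2⟩, p3⟩, p4⟩, p5⟩, p6⟩, p7⟩, p8⟩, p9⟩, p10⟩, p11⟩, p12⟩, p13⟩, p14⟩ := h
  refine ⟨⟨⟨⟨⟨⟨⟨⟨⟨⟨⟨⟨⟨⟨p1, hs, hr⟩, p2⟩, p3⟩, p4⟩, p5⟩, ?_⟩, ?_⟩, ?_⟩, ?_⟩, p10⟩, p11⟩, p12⟩, p13⟩,
    ?_⟩
  · rw [← p6]
    have h1 := VR.x_b R
    have h2 := VR.k_b R
    refine allN_congr fun a ha => allN_congr fun b hb => congrArg₂ K.bor rfl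
      (congrArg₂ and ?_ ?_)
    · refine (V2.ner_eq R a b ?_).symm
      have : b < VR.x R + VR.k R := hb
      omega
    · refine (V2.ner_eq R b a ?_).symm
      have : a < VR.x R := ha
      omega
  · refine allN_imp (fun i _ => bor_imp (bor_imp (bor_imp id (lany_imp fun z _ => cel_ok)) id) id)
      p7
  · exact bor_imp id (lany_imp fun z _ => cel_ok) p8
  · refine allN_imp (fun i _ => bor_imp id (lany_imp fun z _ h1 => ?_)) p9
    rw [allN_dec, decide_eq_true_eq]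
    intro j _
    rw [K.bor_eq, Bool.or_eq_true, Bool.or_eq_true]
    by_cases hz : K.tbit z (FC7.XE.ce (VR.X R) j) = true
    · rcases sub2 (VR.ce_le R i) (VR.ce_le R _) h1 hz with h2 | h2
      · exact Or.inl (Or.inr ((beq_iff _ _).2 h2))
      · exact Or.inr ((beq_iff _ _).2 h2)
    · refine Or.inl (Or.inl ?_)
      rw [Bool.not_eq_true] at hz
      show K.bnot (K.tbit z (FC7.XE.ce (VR.X R) j)) = true
      rw [hz]
      rfl
  · refine lall_imp (fun m _ => bor_imp id (bb (allN_imp fun a _ => bb (spm_ok hl)))) p14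

end Vs

end Pool.FC7
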