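import Pool.Agent.FC7.WdA

/-! # Words of a star form: the two ends of an edge -/

open Finset

set_option linter.unusedSectionVars false

namespace Pool.FC7

open Pool.FC6 Pool.FC6.St

/-- compatible numbers of units (`3` = unknown) -/
def cmu (a a' : ℕ) : Bool := decide (a = a') || decide (a = 3) || decide (a' = 3)

/-- compatible classes of faces (`0` = unknown) or of lengths -/
def cmf (b b' : ℕ) : Bool := decide (b = b') || decide (b = 0) || decide (b' = 0)

/-- `l` is the code of the sector after the real dart `d : v → x` at `v`, `l'` the code of the same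
face at `x` (the sector before `α d`) -/
def cml (l l' : ℕ) : Bool :=
  if lK l = 0 then decide (lK l' = 0) && cmu (lB l) (lA l') && cmu (lC l) (lB l') &&
    cmu (lA l) (lC l') && (l.testBit 11 || (lO l == lS l'))
  else decide (lK l' ≠ 0) && cmf (lB l) (lB l') && cmf (min (lC l) 2) (min (lC l') 2)

theorem EqU.cmu {n a a' : ℕ} (h : EqU n a) (h' : EqU n a') : cmu a a' = true := by
  unfold FC7.cmu
  rcases h with h | h
  · simp [h]
  · rcases h' with h' | h'
    · simp [h']
    · simp [← h, ← h']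

theorem FcU.cmf {n b b' : ℕ} (h : FcU n b) (h' : FcU n b') (hb : b < 4) (hb' : b' < 4) :
    cmf b b' = true := by
  unfold FC7.cmf
  obtain ⟨h1, h2, h3⟩ := h
  obtain ⟨h1', h2', h3'⟩ := h'
  have e1 : b = b' ∨ b = 0 ∨ b' = 0 := by
    have q : b = 0 ∨ b = 1 ∨ b = 2 ∨ b = 3 := by omega
    have q' : b' = 0 ∨ b' = 1 ∨ b' = 2 ∨ b' = 3 := by omega
    rcases q with rfl | rfl | rfl | rfl <;> rcases q' with rfl | rfl | rfl | rfl <;>
      first | (left; rfl) | (right; left; rfl) | (right; right; rfl) | skip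
    · have := h1 rfl; have := h2' rfl; omega
    · have := h1 rfl; have := h3' rfl; omega
    · have := h2 rfl; have := h1' rfl; omega
    · have := h2 rfl; have := h3' rfl; omega
    · have := h3 rfl; have := h1' rfl; omega
    · have := h3 rfl; have := h2' rfl; omega
  rcases e1 with e | e | e <;> simp [e]

variable {D V : Type} [Fintype D] [DecidableEq V] {Δ : ℕ} {S : St D V} {L : D → Bool}
  {w : D → ℕ} {d e : D} {wd wd' : List ℕ}

/-- `e` is the real dart before `α d`: the sector after `e` is the sector after `d` -/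
theorem IsL.cml {l l' : ℕ} (hS : IsStar S) (W : Wf Δ S L w) (hd : S.real d = true)
    (he : S.real e = true) (h : S.nxr e = S.M.α d) (h1 : IsL S L d l) (h2 : IsL S L e l') :
    cml l l' = true := by
  obtain ⟨s1, s2⟩ := St.shared (S := nou S) hS.nou W.nou hd he h
  have s1' : S.real (S.M.σ e) = S.real (S.M.σ d) := s1
  have s2' : S.real (S.M.σ d) = false → S.csz (S.M.σ e) = S.csz (S.M.σ d) := s2
  unfold FC7.cml
  by_cases hk : lK l = 0
  · rw [if_pos hk]
    have r1 := h1.solid hk
    have hk' : lK l' = 0 := by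
      by_contra hc
      have := (h2.gap hc).1
      rw [s1', r1] at this
      exact absurd this (by decide)
    have r2 := h2.solid hk'
    have e1 : S.M.σ e = S.M.α d := by rw [← h2.nxr_solid hk', h]
    -- `α d`, `σ d`, `φ (σ d) = α e`
    have e2 : S.M.φ (S.M.σ d) = S.M.α e := by
      have e3 : S.M.φ (S.M.α e) = S.M.α d := e1
      show S.M.φ (S.M.φ (S.M.α d)) = S.M.α e
      rw [← e3, S.M.φ3]
    have a1 := h1.a
    rw [h1.nxr_solid hk] at a1
    have a2 := h2.a
    rw [h] at a2
    have b1 := h1.b hk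
    have b2 := h2.b hk'
    have c1 := h1.c hk
    rw [e2] at c1
    have c2 := h2.c hk'
    rw [e1] at c2
    have o1 := h1.o hk
    rw [e2, W.L_α] at o1
    have hs := h2.s
    simp only [Bool.and_eq_true, Bool.or_eq_true, decide_eq_true_eq, beq_iff_eq]
    refine ⟨⟨⟨⟨hk', b1.cmu a2⟩, c1.cmu b2⟩, a1.cmu c2⟩, ?_⟩
    by_cases h11 : l.testBit 11 = true
    · exact Or.inl h11
    · exact Or.inr (by rw [← o1 (by simpa using h11), ← hs])
  · rw [if_neg hk]
    have r1 := h1.gap hk
    have hk' : lK l' ≠ 0 := by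
      intro hc
      have := h2.solid hc
      rw [s1', r1.1] at this
      exact absurd this (by decide)
    have r2 := h2.gap hk'
    have f1 := h1.f hk
    have f2 := h2.f hk'
    have hc := s2' r1.1
    have e1 : S.M.σ (S.M.σ e) = S.M.α d := by rw [← h2.nxr_gap hk', h]
    have hsc : S.sc.r (S.M.σ e) (S.M.σ d) := by
      have e3 : S.M.φ (S.M.α (S.M.σ e)) = S.M.α d := e1
      have h3 : S.sc.r (S.M.σ e) (S.M.α (S.M.σ e)) := (scα r2.1 _).2 (S.sc.iseqv.refl _)
      have h4 : S.sc.r (S.M.σ e) (S.M.α d) := by rw [← e3]; exact (scφ _ _).2 h3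
      exact (scφ _ _).2 h4
    rw [fu_congr hsc] at f2
    simp only [Bool.and_eq_true, decide_eq_true_eq]
    refine ⟨⟨hk', f1.cmf f2 (Nat.mod_lt _ (by norm_num)) (Nat.mod_lt _ (by norm_num))⟩, ?_⟩
    rw [hc] at r2
    unfold FC7.cmf
    have q : lC l < 4 := Nat.mod_lt _ (by norm_num)
    have q' : lC l' < 4 := Nat.mod_lt _ (by norm_num)
    have e1 : min (lC l) 2 = min (lC l') 2 ∨ min (lC l) 2 = 0 ∨ min (lC l') 2 = 0 := by
      by_contra hn
      push Not at hn
      obtain ⟨n1, n2, n3⟩ := hn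
      have t1 : lC l = 1 ∨ 2 ≤ lC l := by omega
      have t2 : lC l' = 1 ∨ 2 ≤ lC l' := by omega
      rcases t1 with t1 | t1 <;> rcases t2 with t2 | t2
      · exact n1 (by rw [t1, t2])
      · have := r1.2.2.1 t1; have := r2.2.2.2 t2; omega
      · have := r1.2.2.2 t1; have := r2.2.2.1 t2; omega
      · exact n1 (by rw [min_eq_right t1, min_eq_right t2])
    rcases e1 with e | e | e <;> simp [e]

section edge

variable (hS : IsStar S) (W : Wf Δ S L w)

include hS W

theorem IsW.len_pos (h : IsW S L d wd) : 0 < wd.length := by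
  rw [h.len]
  unfold rdeg
  refine Finset.sum_pos' (fun _ _ => Nat.zero_le _) ⟨d, Finset.mem_univ _, ?_⟩
  rw [if_pos ⟨rfl, h.re⟩]
  exact Nat.one_pos

/-- the last real dart before `d` -/
theorem IsW.prev (h : IsW S L d wd) : S.nxr (S.nxr^[wd.length - 1] d) = d := by
  have h0 := h.len_pos hS W
  rw [← Function.iterate_succ_apply' S.nxr, Nat.succ_eq_add_one, Nat.sub_add_cancel h0, h.len]
  exact hS.nxr_rdeg W h.re

/-- the word at `d : v → x` and the word at `α d : x → v`: the sector after `d` is the last sector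
of the other word -/
theorem IsW.edge (h : IsW S L d wd) (h' : IsW S L (S.M.α d) wd') :
    cml (wd.getD 0 0) (wd'.getD (wd'.length - 1) 0) = true := by
  have h0 := h'.len_pos hS W
  refine IsL.cml hS W h.re (hS.nxr_iter_real W h'.re _) (h'.prev hS W) ?_ (h'.l _ (by omega))
  exact h.l 0 (h.len_pos hS W)

/-- the sector before `d` is the first sector of the other word -/
theorem IsW.edge' (h : IsW S L d wd) (h' : IsW S L (S.M.α d) wd') :
    cml (wd'.getD 0 0) (wd.getD (wd.length - 1) 0) = true := by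
  refine IsW.edge hS W h' (wd' := wd) ?_
  rw [S.M.αα]; exact h

/-- the label of the edge -/
theorem IsW.edge_s (h : IsW S L d wd) (h' : IsW S L (S.M.α d) wd') :
    lS (wd.getD 0 0) = lS (wd'.getD 0 0) := by
  have h1 := (h.l 0 (h.len_pos hS W)).s
  have h2 := (h'.l 0 (h'.len_pos hS W)).s
  rw [← h1, ← h2]
  exact (W.L_α d).symm

/-- the label of the edge opposite to the head of `d` in the solid triangle after `d` -/
theorem IsW.edge_o (h : IsW S L d wd) (h' : IsW S L (S.M.α d) wd')
    (hk : lK (wd.getD 0 0) = 0) (h11 : (wd'.getD (wd'.length - 1) 0).testBit 11 = false) :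
    lO (wd'.getD (wd'.length - 1) 0) = lS (wd.getD (1 % wd.length) 0) := by
  have h0 := h'.len_pos hS W
  have h0' := h.len_pos hS W
  have hl := h.l 0 h0'
  have hl' := h'.l (wd'.length - 1) (by omega)
  have hc := h.edge hS W h'
  have hk' : lK (wd'.getD (wd'.length - 1) 0) = 0 := by
    unfold FC7.cml at hc
    rw [if_pos hk] at hc
    simp only [Bool.and_eq_true, decide_eq_true_eq] at hc
    exact hc.1.1.1.1
  have e1 := h'.prev hS W
  rw [hl'.nxr_solid hk'] at e1
  have o1 := hl'.o hk' h11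
  rw [e1] at o1
  -- `φ (α d) = σ d` is the next real dart
  have e2 : S.M.φ (S.M.α d) = S.nxr d := (hl.nxr_solid hk).symm
  rw [e2] at o1
  rw [← o1]
  by_cases h1 : wd.length = 1
  · rw [h1]
    have h2 := hl.s
    have h3 := hS.nxr_rdeg W h.re
    rw [← h.len, h1] at h3
    have h4 : S.nxr d = d := h3
    rw [h4]
    exact h2
  · rw [Nat.mod_eq_of_lt (by omega)]
    exact (h.l 1 (by omega)).s

/-- the third edge of the solid triangle after `d` -/
theorem IsL.tri {l : ℕ} (h : IsL S L d l) (hk : lK l = 0) (hd : S.real d = true)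
    (he : S.real e = true) (hn : S.nxr e = S.M.α d) :
    S.nxr (S.M.α (S.nxr d)) = S.M.α e := by
  have r1 := h.solid hk
  rw [h.nxr_solid hk]
  obtain ⟨s1, -⟩ := St.shared (S := nou S) hS.nou W.nou hd he hn
  have s1' : S.real (S.M.σ e) = S.real (S.M.σ d) := s1
  have e1 : S.M.σ e = S.M.α d := by
    rw [← hn]
    exact (if_pos (by rw [s1', r1])).symm
  have e2 : S.M.φ (S.M.σ d) = S.M.α e := by
    have e3 : S.M.φ (S.M.α e) = S.M.α d := e1
    show S.M.φ (S.M.φ (S.M.α d)) = S.M.α e
    rw [← e3, S.M.φ3]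
  have e4 : S.M.σ (S.M.α (S.M.σ d)) = S.M.α e := by
    rw [← e2]
    show S.M.φ (S.M.α (S.M.α (S.M.σ d))) = _
    rw [S.M.αα]
  unfold nxr
  rw [e4, if_pos (by rw [W.real_α]; exact he)]

/-- the words at the heads `x`, `y` of `d`, `S.nxr d` (solid sector after `d`): the edge `x y` -/
theorem IsW.edge2 {w1 w2 : List ℕ} (h : IsW S L d wd) (h1 : IsW S L (S.M.α d) w1)
    (h2 : IsW S L (S.M.α (S.nxr d)) w2) (hk : lK (wd.getD 0 0) = 0) (l1 : 2 ≤ w1.length)
    (l2 : 2 ≤ w2.length) :
    cml (w2.getD 1 0) (w1.getD (w1.length - 2) 0) = true ∧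
      cml (w1.getD (w1.length - 1) 0) (w2.getD 0 0) = true ∧
      lS (w1.getD (w1.length - 1) 0) = lS (w2.getD 1 0) := by
  have h0 := h.len_pos hS W
  have ht := (h.l 0 h0).tri hS W hk h.re (hS.nxr_iter_real W h1.re (w1.length - 1))
    (h1.prev hS W)
  have ht' : S.nxr (S.M.α (S.nxr d)) = S.M.α (S.nxr^[w1.length - 1] (S.M.α d)) := ht
  have a1 := h2.l 1 (by omega)
  have a1' : IsL S L (S.M.α (S.nxr^[w1.length - 1] (S.M.α d))) (w2.getD 1 0) := by
    rw [← ht']; exact a1
  have a2 := h1.l (w1.length - 2) (by omega)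
  have e1 : S.nxr (S.nxr^[w1.length - 2] (S.M.α d)) = S.nxr^[w1.length - 1] (S.M.α d) := by
    rw [← Function.iterate_succ_apply' S.nxr, show (w1.length - 2).succ = w1.length - 1 by omega]
  have rr := hS.nxr_iter_real W h1.re (w1.length - 1)
  refine ⟨IsL.cml hS W (by rw [W.real_α]; exact rr) (hS.nxr_iter_real W h1.re _)
    (by rw [S.M.αα]; exact e1) a1' a2, IsL.cml hS W rr h2.re (by
      rw [ht']) (h1.l _ (by omega)) (h2.l 0 (by omega)), ?_⟩
  have b1 := (h1.l (w1.length - 1) (by omega)).s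
  have b2 := a1'.s
  rw [← b1, ← b2, W.L_α]

end edge

end Pool.FC7
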