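import Pool.Agent.FC7.WfA

/-! # Virtual arcs of one pass and outer units -/

open Finset

set_option linter.unusedSectionVars false

namespace Pool.FC7

open Pool.FC6 Pool.FC6.St

variable {D V : Type} [Fintype D] [DecidableEq V] {Δ : ℕ} {S : St D V} {L : D → Bool}
  {w : D → ℕ} {P : Pa} {f : ℕ → D} {g : ℕ → V}

/-- a virtual ring dart `i` which ends at the hub; `i'` is the only ring dart which starts at this
hub: different colours at the ends of the outer path make the outer class active -/
theorem act_arc (e : Em P S f g) (G : P.Good) (hS : IsStar S) (wf : Wf Δ S L w) {i i' : ℕ}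
    (hi : i < P.n) (ri : P.α i = i) (hr : P.real i = false)
    (hz : S.M.v (S.M.α (f i)) ∉ S.A)
    (huniq : ∀ j < P.n, P.α j = j → S.M.v (f j) = S.M.v (S.M.α (f i)) → j = i')
    {c' : V → Bool} (hc : c' (S.M.v (f i)) ≠ c' (S.M.v (S.M.α (f i')))) : Act S P f c' (f i) := by
  classical
  by_contra hna
  have pe : PE P S f g := ⟨e, G, wf.real_α⟩
  let τ : D → D := fun h => S.M.α (S.M.φ (S.M.φ h))
  have vτ : ∀ h, S.M.v (τ h) = S.M.v h := fun h => S.M.vφ2 h
  have τσ : ∀ x, τ (S.M.σ x) = x := fun x => by
    show S.M.α (S.M.φ (S.M.φ (S.M.φ (S.M.α x)))) = x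
    rw [S.M.φ3, S.M.αα]
  have vk : ∀ k, S.M.v (τ^[k] (S.M.α (f i))) = S.M.v (S.M.α (f i)) := by
    intro k
    induction k with
    | zero => rfl
    | succ k ih => rw [Function.iterate_succ_apply', vτ, ih]
  have τσk : ∀ (m : ℕ) x, τ^[m] (S.M.σ^[m] x) = x := by
    intro m
    induction m with
    | zero => intro x; rfl
    | succ m ih =>
      intro x
      rw [Function.iterate_succ_apply, Function.iterate_succ_apply' S.M.σ, τσ, ih]
  -- a dart of the patch in the orbit
  have hex : ∃ k, ∃ j < P.n, f j = τ^[k] (S.M.α (f i)) := by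
    have h1 : S.M.v (f (P.φ i)) = S.M.v (S.M.α (f i)) := by
      rw [← e.hφ i hi, S.M.vφ]
    obtain ⟨m, hm⟩ := S.M.σ_orbit h1
    refine ⟨m, P.φ i, G.φlt i hi, ?_⟩
    rw [← hm, τσk]
  obtain ⟨k, hk, hmin⟩ : ∃ k, (∃ j < P.n, f j = τ^[k] (S.M.α (f i))) ∧
      ∀ m < k, OU P f (τ^[m] (S.M.α (f i))) := by
    refine ⟨Nat.find hex, Nat.find_spec hex, fun m hm j hj hj' => Nat.find_min hex hm ⟨j, hj, hj'⟩⟩
  have inv : ∀ m ≤ k, ORel S P f c' (f i) (τ^[m] (S.M.α (f i))) ∧
      c' (S.M.v (S.M.α (τ^[m] (S.M.α (f i))))) = c' (S.M.v (f i)) := by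
    intro m
    induction m with
    | zero =>
      intro _
      refine ⟨(ORel.refl _).α (fun j hj hne hji => ?_) (Or.inl (by rw [e.hr i hi]; exact hr)), ?_⟩
      · rw [e.inj j hj i hi hji] at hne
        exact hne ri
      · show c' (S.M.v (S.M.α (S.M.α (f i)))) = _
        rw [S.M.αα]
    | succ m ih =>
      intro hm
      obtain ⟨h1, h2⟩ := ih (by omega)
      have ho := hmin m (by omega)
      obtain ⟨a1, a2, a3, a4⟩ := hub_virt hS wf hz (vk m)
      have h3 := h1.φ ho
      have ho1 := pe.ouφ ho
      have h4 := h3.φ ho1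
      have ho2 := pe.ouφ ho1
      have heq : c' (S.M.v (S.M.φ (τ^[m] (S.M.α (f i))))) =
          c' (S.M.v (S.M.α (S.M.φ (τ^[m] (S.M.α (f i)))))) := by
        by_contra hne
        exact hna ⟨_, h3, ho1.or, a2, hne⟩
      refine ⟨?_, ?_⟩
      · rw [Function.iterate_succ_apply']
        exact h4.α ho2.or (Or.inl a3)
      · rw [Function.iterate_succ_apply']
        show c' (S.M.v (S.M.α (S.M.α (S.M.φ (S.M.φ _))))) = _
        rw [S.M.αα, S.M.vφ, ← heq, S.M.vφ, h2]
  obtain ⟨j, hj, hj'⟩ := hk
  have rj : P.α j = j := by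
    by_contra hne
    have h1 := e.hα j hj hne
    rcases Nat.eq_zero_or_pos k with h0 | h0
    · rw [h0] at hj'
      have h2 : f j = S.M.α (f i) := hj'
      rw [h2, S.M.αα] at h1
      have h3 := e.inj i hi _ (G.αlt j hj) h1
      have h4 := G.αα j hj
      rw [← h3, ri] at h4
      rw [← h4] at h2
      exact S.M.αne _ h2.symm
    · obtain ⟨m, rfl⟩ : ∃ m, k = m + 1 := ⟨k - 1, by omega⟩
      rw [Function.iterate_succ_apply'] at hj'
      rw [hj'] at h1
      have h2 : S.M.φ (S.M.φ (τ^[m] (S.M.α (f i)))) = f (P.α j) := by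
        rw [← h1]
        show _ = S.M.α (S.M.α _)
        rw [S.M.αα]
      exact pe.ouφ (pe.ouφ (hmin m (by omega))) _ (G.αlt j hj) h2.symm
  have hji := huniq j hj rj (by rw [hj', vk])
  have h5 := (inv k le_rfl).2
  rw [← hj', hji] at h5
  exact hc h5.symm

/-! ### Outer units -/

/-- the dart `j` is in the triangles at the hub with the label `b` -/
def inb (P : Pa) (b j : ℕ) : Bool :=
  decide (P.l j = b) || decide (P.l (P.φ j) = b) || decide (P.l (P.φ (P.φ j)) = b)

theorem inb_iff (e : Em P S f g) (G : P.Good) {b : ℕ}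
    (hb : ∀ j < P.n, g (P.l j) = g b → P.l j = b) {j : ℕ} (hj : j < P.n) :
    InC S (g b) (f j) ↔ inb P b j = true := by
  have h1 := G.φlt j hj
  have h2 := G.φlt _ h1
  unfold InC inb
  rw [Bool.or_eq_true, Bool.or_eq_true, decide_eq_true_eq, decide_eq_true_eq, decide_eq_true_eq,
    e.hφ j hj, e.hφ _ h1, e.hl j hj, e.hl _ h1, e.hl _ h2, or_assoc]
  constructor
  · rintro (h | h | h)
    · exact Or.inl (hb j hj h)
    · exact Or.inr (Or.inl (hb _ h1 h))
    · exact Or.inr (Or.inr (hb _ h2 h))
  · rintro (h | h | h)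
    · exact Or.inl (by rw [h])
    · exact Or.inr (Or.inl (by rw [h]))
    · exact Or.inr (Or.inr (by rw [h]))

/-- the dart `i` is in a solid triangle of the patch -/
def sld (P : Pa) (i : ℕ) : Bool := P.real i && P.real (P.φ i) && P.real (P.φ (P.φ i))

/-- the dart `k` is in the face of the dart `i`; `b`: the label of the hub of this face -/
def ifa (P : Pa) (b i k : ℕ) : Bool :=
  if sld P i then decide (k = i) || decide (k = P.φ i) || decide (k = P.φ (P.φ i)) else inb P b k

/-- the face of a solid triangle -/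
theorem sc_sol3 (rα : ∀ d, S.real (S.M.α d) = S.real d) {x d : D} (h1 : S.real x = true)
    (h2 : S.real (S.M.φ x) = true) (h3 : S.real (S.M.φ (S.M.φ x)) = true) :
    S.sc.r x d ↔ d = x ∨ d = S.M.φ x ∨ d = S.M.φ (S.M.φ x) := by
  classical
  constructor
  · intro h
    let Q : D → Prop := fun d => d = x ∨ d = S.M.φ x ∨ d = S.M.φ (S.M.φ x)
    have hr : ∀ e, Q e → S.real e = true := by
      rintro e (rfl | rfl | rfl)
      · exact h1
      · exact h2
      · exact h3
    have hcl : S.Cl (fun e => decide (Q e)) := by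
      refine ⟨fun e => ?_, fun e he => ?_⟩
      · show decide (Q _) = decide (Q _)
        rw [decide_eq_decide]
        constructor
        · rintro (h | h | h)
          · right; right
            rw [← h, S.M.φ3]
          · left
            have := congrArg (fun y => S.M.φ (S.M.φ y)) h
            simp only [S.M.φ3] at this
            exact this
          · right; left
            have := congrArg (fun y => S.M.φ (S.M.φ y)) h
            simp only [S.M.φ3] at this
            exact this
        · rintro (h | h | h)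
          · right; left
            rw [h]
          · right; right
            rw [h]
          · left
            rw [h, S.M.φ3]
      · show decide (Q _) = decide (Q _)
        rw [decide_eq_decide]
        constructor
        · intro h
          have := hr _ h
          rw [rα, he] at this
          exact absurd this (by simp)
        · intro h
          have := hr _ h
          rw [he] at this
          exact absurd this (by simp)
    have h4 := h _ hcl
    have h5 : decide (Q x) = true := decide_eq_true (Or.inl rfl)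
    rw [h5] at h4
    exact of_decide_eq_true h4.symm
  · rintro (rfl | rfl | rfl)
    · exact S.sc.iseqv.refl _
    · exact (scφ _ _).2 (S.sc.iseqv.refl _)
    · exact (scφ _ _).2 ((scφ _ _).2 (S.sc.iseqv.refl _))

theorem sld_iff (e : Em P S f g) (G : P.Good) (rα : ∀ d, S.real (S.M.α d) = S.real d) {i : ℕ}
    (hi : i < P.n) (hs : sld P i = true) (d : D) :
    S.sc.r (f i) d ↔ d = f i ∨ d = f (P.φ i) ∨ d = f (P.φ (P.φ i)) := by
  unfold sld at hs
  rw [Bool.and_eq_true, Bool.and_eq_true] at hs
  have h1 := G.φlt i hi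
  have h2 := G.φlt _ h1
  rw [sc_sol3 rα (by rw [e.hr i hi]; exact hs.1.1) (by rw [e.hφ i hi, e.hr _ h1]; exact hs.1.2)
    (by rw [e.hφ i hi, e.hφ _ h1, e.hr _ h2]; exact hs.2), e.hφ i hi, e.hφ _ h1]

section outer

variable {S' : St D V} {L' : D → Bool} {w' : D → ℕ} {P' : Pa} {X : OD}

/-- outer parts of a face of `S` which stay in the face of the dart `y` -/
theorem RH.outer_y (h : RH Δ S S' L L' w w' P P' f g X) {i : ℕ} (hi : i < P.n) {y : D}
    (hK : ∀ j < P.n, P.α j = j → P.real j = false → S.sc.r (f i) (f j) → S'.sc.r y (f j))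
    {d : D} (hd : ∀ j < P.n, f j ≠ d) (hs : S.sc.r (f i) d) : S'.sc.r y d := by
  classical
  let Q : D → Prop := fun d => S.sc.r (f i) d → (∀ j < P.n, f j ≠ d) → S'.sc.r y d
  have hcl : S.Cl (fun e => decide (Q e)) := by
    refine ⟨fun e => ?_, fun e he => ?_⟩
    · show decide (Q _) = decide (Q _)
      rw [decide_eq_decide]
      by_cases ho : ∀ j < P.n, f j ≠ e
      · have ho' := h.out_φ ho
        simp only [Q]
        rw [scφ, ← h.rep.φo e ho, scφ, h.rep.φo e ho]
        exact ⟨fun h1 h2 _ => h1 h2 ho', fun h1 h2 _ => h1 h2 ho⟩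
      · constructor
        · intro _ _ h3; exact absurd h3 ho
        · intro _ _ h3
          push Not at ho
          obtain ⟨j, hj, rfl⟩ := ho
          exact absurd (h.rep.e.hφ j hj).symm (h3 _ (h.rep.G.φlt j hj))
    · show decide (Q _) = decide (Q _)
      rw [decide_eq_decide]
      have step : ∀ e, S.real e = false → Q e → Q (S.M.α e) := by
        intro e he hq h1 h2
        have h1' : S.sc.r (f i) e := (scα he _).1 h1
        by_cases ho : ∀ j < P.n, f j ≠ e
        · rw [← h.rep.αo]
          exact (scα (by rw [h.rep.ro e ho]; exact he) _).2 (hq h1' ho)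
        · push Not at ho
          obtain ⟨j, hj, rfl⟩ := ho
          have ha : P.α j = j := by
            by_contra hne
            have := h.rep.e.hα j hj hne
            exact h2 _ (h.rep.G.αlt j hj) this.symm
          have hr : P.real j = false := by rw [← h.rep.e.hr j hj]; exact he
          have hr' : S'.real (f j) = false := by
            rw [h.real' hj, ((OD.stat1 h.stat hj).ring ha).1]; exact hr
          rw [← h.rep.αo]
          exact (scα hr' _).2 (hK j hj ha hr h1')
      refine ⟨fun h1 => ?_, step e he⟩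
      have := step (S.M.α e) (by rw [h.hW.real_α]; exact he) h1
      rwa [S.M.αα] at this
  have h1 := hs _ hcl
  have h2 : decide (Q (f i)) = true :=
    decide_eq_true (fun _ h3 => absurd rfl (h3 i hi))
  rw [h2] at h1
  exact (of_decide_eq_true h1.symm) hs hd

variable (h : RH Δ S S' L L' w w' P P' f g X) (hS : IsStar S) {b i i0 : ℕ} (hz : g b ∉ S.A)
  (hb : ∀ j < P.n, g (P.l j) = g b → P.l j = b) (hi : i < P.n) (hib : inb P b i = true)

include h hS hz hb hi hib

theorem RH.hub_sc {j : ℕ} (hj : j < P.n) :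
    S.sc.r (f i) (f j) ↔ inb P b j = true := by
  have e := h.rep.e
  have G := h.rep.G
  rw [← inb_iff e G hb hj]
  constructor
  · intro h1
    rw [← sc_inC hS h.hW hz h1]
    exact (inb_iff e G hb hi).2 hib
  · intro h1
    exact inC_sc hS h.hW hz ((inb_iff e G hb hi).2 hib) h1

variable (hi0 : i0 < P.n)
  (hK : ∀ j < P.n, P.α j = j → P.real j = false → inb P b j = true → X.pc j = X.pc i0)

include hi0 hK

theorem RH.hub_K : ∀ j < P.n, P.α j = j → P.real j = false → S.sc.r (f i) (f j) →
    S'.sc.r (f i0) (f j) := by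
  intro j hj ha hr hs
  exact h.sc_piece hi0 hj (hK j hj ha hr ((RH.hub_sc h hS hz hb hi hib hj).1 hs)).symm

end outer

end Pool.FC7
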