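import Pool.Agent.FC7.WfT
import Pool.Agent.FC7.RokK
import Pool.Agent.FC7.WfH
import Pool.Agent.FC7.CtB
import Pool.Agent.FC7.CtC
import Pool.Agent.FC7.C5

/-! # Facts given by words: the tables and their check -/

open Finset

set_option linter.unusedSectionVars false

namespace Pool.FC7

open Pool.FC6 Pool.FC6.St

/-- a fact with spokes: `PT` is the patch of all centres, `F.P` its restriction to the deleted ones;
`rd a`: a real dart of `F.P` at the label `a < m`, a virtual spoke with the head `a` for `m ≤ a`;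
`dq`: pairs of spokes with different heads, `nq`: pairs of spokes whose heads are not adjacent;
`sc a`: a spoke with the head `a` and `sw a`: the word of its reverse (used if there is slack); `oq`: pairs of spokes, the head of the
first one is not a corner of the face of the second one; `tu q`, `tk q`: the darts with the lost and the
new unit of a piece `q` with one kept corner; `tl q`: darts at the different faces of a piece `q` of type
3 -/
structure WF extends Wt where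
  F : Fc
  PT : Pa
  rd : ℕ → ℕ
  dq : List (ℕ × ℕ)
  nq : List (ℕ × ℕ)
  sc : ℕ → ℕ
  sw : ℕ → List ℕ
  oq : List (ℕ × ℕ)
  tu : ℕ → ℕ
  tl : ℕ → List ℕ := fun q => [F.tj q]

namespace WF

variable (W : WF)

/-- the label of the head of a spoke -/
def hl (j : ℕ) : ℕ := W.PT.l (W.Z.Q.nf 1 j)

/-- surely different labels -/
def dis (a b : ℕ) : Bool :=
  decide (a ≠ b) && (W.Z.Q.cx a || W.Z.Q.cx b ||
    (decide (a < W.F.O.m) != decide (b < W.F.O.m)) ||
    W.dq.any fun q => (decide (W.hl q.1 = a) && decide (W.hl q.2 = b)) ||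
      (decide (W.hl q.1 = b) && decide (W.hl q.2 = a)))

/-- the label `b` is a hub, surely different from the other labels -/
def hub (b : ℕ) : Bool :=
  decide (W.F.O.m ≤ b) && decide (b < W.F.nl) && allN W.F.nl fun a => decide (a = b) || W.dis a b

/-- the label of the hub of a virtual dart -/
def hb (i : ℕ) : ℕ :=
  if W.F.O.m ≤ W.F.P.l i then W.F.P.l i
  else if W.F.O.m ≤ W.F.P.l (W.F.P.φ i) then W.F.P.l (W.F.P.φ i)
  else W.F.P.l (W.F.P.φ (W.F.P.φ i))

/-- the class of the face of the dart `i` -/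
def fcl (i : ℕ) : ℕ := W.fc (W.Z.Q.rk i) (W.Z.Q.rj i)

/-- the face of the dart `i` has no units or at least three units -/
def ocl (i : ℕ) : Bool := W.oc (W.Z.Q.rk i) (W.Z.Q.rj i)

/-- lower bound for the units of a face -/
def lw (c : ℕ) : ℕ := if c = 2 then 3 else if c = 1 then 2 else 0

/-- the dart `k` is in the face of the dart `i` -/
def fin (i k : ℕ) : Bool := ifa W.F.P (W.hb i) i k

/-- the labels -/
def chkA : Bool :=
  rstr W.F.P W.PT && allN W.F.O.x (fun a => W.Z.Q.cx a) &&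
  allN W.PT.n (fun i => decide (i < W.F.P.n) || decide (W.F.O.x ≤ W.PT.l i)) &&
  allN W.F.nl (fun a => if a < W.F.O.m then decide (W.rd a < W.F.P.n) &&
      decide (W.F.P.l (W.rd a) = a) && W.F.P.real (W.rd a)
    else decide (W.rd a < W.Z.Q.ns) && !W.Z.Q.rl (W.rd a) && W.ac (W.Z.ca (W.rd a)) &&
      decide (W.hl (W.rd a) = a)) &&
  decide (W.F.O.m ≤ W.F.nl) &&
  W.dq.all (fun q => decide (q.1 < W.Z.Q.ns) && decide (q.2 < W.Z.Q.ns)) &&
  W.nq.all (fun q => decide (q.1 < W.Z.Q.ns) && decide (q.2 < W.Z.Q.ns)) &&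
  W.oq.all (fun q => decide (q.1 < W.Z.Q.ns) && decide (q.2 < W.Z.Q.ns)) &&
  allN W.F.O.m (fun a => allN W.F.O.m fun b => !W.F.ne a b || W.dis a b) &&
  allN W.F.O.m (fun a => allN W.F.O.m fun b => !W.F.na a b || decide (a < W.F.O.x) ||
    decide (b < W.F.O.x) || W.nq.any fun q => (decide (W.hl q.1 = a) && decide (W.hl q.2 = b)) ||
      (decide (W.hl q.1 = b) && decide (W.hl q.2 = a)))

/-- the darts -/
def chkD : Bool :=
  allN W.F.P.n fun i =>
    (if W.F.uk i then decide (W.F.P.u i = 0) else W.kn (W.Z.Q.rk i) (W.Z.Q.rj i) &&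
      decide (W.F.P.u i = W.un (W.Z.Q.rk i) (W.Z.Q.rj i))) &&
    (if W.F.lu i then !W.F.O.lb i && W.F.X.kd.contains i &&
        allN W.F.P.n fun j => !W.F.P.real j || W.F.X.kd.contains j ||
          W.dis (W.F.P.l j) (W.F.P.l (W.F.P.φ i)) || W.dis (W.F.P.l (W.F.P.φ j)) (W.F.P.l i)
      else !W.lun (W.Z.Q.rk i) (W.Z.Q.rj i) && (W.F.O.lb i == W.lb (W.Z.Q.rk i) (W.Z.Q.rj i))) &&
    decide (W.F.O.wt i = if W.F.O.lb i then 1 else 0) &&
    (!W.F.uk i || (decide (W.F.kr i < W.F.P.n) && decide (W.F.X.ce (W.F.kr i) = W.F.X.ce i))) &&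
    (!W.F.op i || decide (W.fcl i = 3)) &&
    (!W.F.tw i || decide (W.fcl i = 3) || decide (W.fcl i = 1)) &&
    (!W.F.O.rg W.F.P i || (W.F.P.real i && allN W.F.P.n fun j => !W.F.P.real j ||
      W.dis (W.F.P.l j) (W.F.P.l (W.F.P.φ i)) || W.dis (W.F.P.l (W.F.P.φ j)) (W.F.P.l i)))

/-- the slack -/
def chkL (Δ : ℕ) : Bool :=
  allN W.F.O.m fun a => decide (W.F.O.sl a = 0) || (decide (W.sc a < W.Z.Q.ns) &&
    decide (W.hl (W.sc a) = a) && nu3 (W.sw a) && decide (dgw (W.sw a) + W.F.O.sl a ≤ Δ))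

/-- the arcs which are surely active -/
def chkP : Bool :=
  W.F.X.ar.all fun p => !W.F.X.sp p.1 || (decide (p.1 < W.F.P.n) && decide (p.2 < W.F.P.n) &&
    decide (W.F.P.α p.1 = p.1) && ((W.F.P.real p.1 && decide (p.1 = p.2)) ||
      (!W.F.P.real p.1 && W.hub (W.F.P.l (W.F.P.φ p.1)) &&
      allN W.F.P.n fun j => decide (W.F.P.α j ≠ j) || decide (W.F.P.l j ≠ W.F.P.l (W.F.P.φ p.1)) ||
        decide (j = p.2))))

/-- the outer part and the unknown units of the face of the dart `i` belong to the piece `q` -/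
def one (q i : ℕ) : Bool :=
  decide (i < W.F.P.n) && (sld W.F.P i || (W.hub (W.hb i) && inb W.F.P (W.hb i) i)) &&
    allN W.F.P.n fun j => !W.fin i j || ((decide (W.F.P.α j ≠ j) || W.F.P.real j ||
      decide (W.F.O.pc j = q)) &&
      (!W.F.uk j || decide (W.F.O.pc (W.F.kp j) = q)))

/-- the known units of the face of the dart `i` -/
def ku (i : ℕ) : ℕ := sumN W.F.P.n fun j => if W.fin i j then W.F.P.u j else 0

/-- lower bound for the units of the face of the dart `i` -/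
def lwk (i : ℕ) : ℕ := max (lw (W.fcl i)) (if W.ku i = 0 then 0 else 2)

/-- the darts of the list `T` are at different faces with all arcs in the piece `q` -/
def hbs (q : ℕ) (T : List ℕ) : Bool :=
  T.all (W.one q) && decide T.Nodup &&
    T.all fun i => T.all fun j => decide (i = j) || !W.fin i j

/-- there are units in the new face at the dart `j`, if there are units at the dart `i` -/
def okw (i j : ℕ) : Bool :=
  W.F.ou j || (W.F.uk i && decide (W.F.O.pc (W.F.kp i) = W.F.O.pc j)) ||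
    decide (W.F.pu (W.F.O.pc j) ≠ 0)

/-- the units of the dart `i` are in a surely visited face -/
def okv (i : ℕ) : Bool :=
  (W.F.X.dj.any fun z => allN W.F.P.n fun j => !z.testBit (W.F.X.ce j) ||
    decide (W.F.X.ce j = W.F.X.ce i)) ||
  (W.F.X.kd.any fun j => decide (W.F.X.ce j = W.F.X.ce i) && W.okw i j) ||
  !allN W.F.P.n fun j => !(decide (W.F.P.α j = j) && !W.F.P.real j &&
    decide (W.F.X.ce j = W.F.X.ce i) && W.okw i j)

/-- the label `a` is surely not a corner of the face of the hub `b` -/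
def off (a b : ℕ) : Bool := W.oq.any fun q => decide (W.hl q.1 = a) && decide (W.hl q.2 = b)

/-- the pieces are closed, all arcs of the piece `q` are at the hub of the dart `i` -/
def clo (q i : ℕ) : Bool :=
  allN W.F.P.n fun j => decide (W.F.O.pc (W.F.P'.φ j) = W.F.O.pc j) &&
    (decide (W.F.P.α j = j) || W.F.P'.real j || decide (W.F.O.pc (W.F.P.α j) = W.F.O.pc j)) &&
    (decide (W.F.P.α j ≠ j) || W.F.P.real j || decide (W.F.O.pc j ≠ q) ||
      inb W.F.P (W.hb i) j)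

/-- two kept corners -/
def t4a (q i : ℕ) : Bool :=
  decide (W.ku i = 0) && allN W.F.P.n fun j =>
    decide (W.F.O.pc j ≠ q) || !W.F.P'.real j || decide (W.F.P'.l j < W.F.O.x) ||
    decide (W.F.P'.l (W.F.P'.φ j) < W.F.O.x) ||
    (W.F.un j && inb W.F.P (W.hb i) j) || W.off (W.F.P'.l j) (W.hb i) ||
    W.off (W.F.P'.l (W.F.P'.φ j)) (W.hb i)

/-- the label `z` is surely not the kept corner of the face of the hub `b`; `c`: the dart with the lost
unit -/
def okz (b c z : ℕ) : Bool :=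
  decide (z < W.F.O.x) || W.off z b ||
  !(allN W.F.P.n fun t => !(W.F.P.real t && inb W.F.P b t &&
    ((decide (W.F.P.l t = W.F.P.l c) && decide (W.F.P.l (W.F.P.φ t) = z)) ||
      (decide (W.F.P.l t = z) && decide (W.F.P.l (W.F.P.φ t) = W.F.P.l c)))))

/-- one kept corner, one new corner; `c`: the dart with the lost unit, `k`: the dart with the new one -/
def t4b (q i c k : ℕ) : Bool :=
  decide (W.ku i = 1) && decide (c < W.F.P.n) &&
  inb W.F.P (W.hb i) c && decide (W.F.P.u c ≠ 0) &&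
  decide (k < W.F.P.n) && decide (W.F.O.pc k = q) &&
  decide (W.F.P'.u k ≠ 0) && (decide (W.F.P'.l k < W.F.O.x) || W.off (W.F.P'.l k) (W.hb i)) &&
  allN W.F.P.n fun j => decide (W.F.O.pc j ≠ q) || !W.F.P'.real j ||
    ((W.dis (W.F.P'.l j) (W.F.P'.l k) || W.okz (W.hb i) c (W.F.P'.l (W.F.P'.φ j))) &&
      (W.dis (W.F.P'.l (W.F.P'.φ j)) (W.F.P'.l k) || W.okz (W.hb i) c (W.F.P'.l j)))

/-- if the face of the dart `i` has two units then the piece `q` has two nonadjacent corners -/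
def t4 (q i : ℕ) : Bool :=
  W.one q i && !sld W.F.P i && W.clo q i && (W.t4a q i || W.t4b q i (W.tu q) (W.F.tk q))

/-- no units, or three units which are kept, or two units which are kept or exchanged -/
def chkZ : Bool :=
  allN W.F.P.n fun i => !W.F.oz i || decide (W.fcl i = 3) ||
    (W.one (W.F.O.pc i) i && decide (W.ku i ≤ W.F.pu (W.F.O.pc i)) &&
      (W.ocl i || decide (W.fcl i = 2) || decide (W.ku i < W.F.pu (W.F.O.pc i)) ||
        W.t4 (W.F.O.pc i) i))

/-- pieces with outer units -/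
def chkO : Bool :=
  allN W.F.O.p (fun q => (decide (W.F.ty q ≠ 4) ||
    (W.t4 q (W.F.tj q) && (decide (W.fcl (W.F.tj q) = 1) ||
        (decide (W.ku (W.F.tj q) ≠ 0) && decide (W.ku (W.F.tj q) ≤ W.F.pu q))))) &&
    (decide (W.F.ty q ≠ 3) ||
    (W.hbs q (W.tl q) && decide (3 + ((W.tl q).map W.ku).sum ≤
      ((W.tl q).map W.lwk).sum + W.F.pu q)))) &&
  allN W.F.P.n (fun i => !W.F.ou i || (W.one (W.F.O.pc i) i && decide (W.ku i < W.lwk i)))

/-- the units are in surely visited faces -/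
def chkV : Bool :=
  allN W.F.P.n fun i => (decide (W.F.P.u i = 0) && !W.F.uk i) || W.okv i

/-- the check of the tables -/
def chk (Δ : ℕ) : Bool :=
  W.Z.chk W.PT && W.ok && W.chkA && W.chkD && W.chkL Δ && W.chkP && W.chkO && W.chkV && W.chkZ

end WF

variable {D V : Type} [Fintype D] [DecidableEq V] {Δ N R e : ℕ} {S : St D V} {L : D → Bool}
  {w : D → ℕ}

/-- the words hold at the base darts: the input of the facts -/
structure WF.Hy (W : WF) (S : St D V) (L : D → Bool) (d : ℕ → D) (f : ℕ → D) (g : ℕ → V) : Prop where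
  m : ∀ a < W.Z.nc, S.M.σ^[W.Z.m a] (d a) = d a
  inf : Info W.Z W.ac S L d W.lt
  cu : ∀ j < W.Z.Q.ns, W.clk j = true → (wb (W.lt j) = 1 ∨ wb (W.lt j) = 2) →
    S.u (S.M.α (W.Z.io S d j)) = W.cun j
  oo : ∀ j < W.Z.Q.ns, W.Z.Q.rl j = true →
    Oo (fu S (W.Z.io S d (W.Z.Q.ρ j))) (W.Z.Q.rl (W.Z.Q.ρ j)) (W.lt j)
  em : Em W.PT S f g
  nm : ∀ j < W.Z.Q.ns, ∀ k < 3, f (W.Z.Q.nf k j) = nmS S (W.Z.io S d) k j
  all : ∀ i < W.PT.n, W.Z.Q.cx (W.PT.l i) = true → ∀ x, S.M.v x = g (W.PT.l i) →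
    ∃ i' < W.PT.n, f i' = x
  dif : ∀ i < W.PT.n, W.Z.Q.cx (W.PT.l i) = true → ∀ i' < W.PT.n, W.PT.l i' ≠ W.PT.l i →
    g (W.PT.l i') ≠ g (W.PT.l i)
  dq : ∀ q ∈ W.dq, S.M.v (S.M.α (W.Z.io S d q.1)) ≠ S.M.v (S.M.α (W.Z.io S d q.2))
  nq : ∀ q ∈ W.nq, ∀ r, S.real r = true → ¬ (S.M.v r = S.M.v (S.M.α (W.Z.io S d q.1)) ∧
    S.M.v (S.M.α r) = S.M.v (S.M.α (W.Z.io S d q.2)))
  oq : ∀ q ∈ W.oq, Off S (S.M.v (S.M.α (W.Z.io S d q.1))) (S.M.v (S.M.α (W.Z.io S d q.2)))
  sw : ∀ a < W.F.O.m, W.F.O.sl a ≠ 0 →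
    IsW S L (S.M.α (W.Z.io S d (W.sc a))) (W.sw a)
  r4 : ∀ i < W.F.P.n, W.F.P.real i = true → 4 ≤ S.rdeg (S.M.v (f i))
  hB : ∀ (s : V → Bool) (c : ℕ), (∀ a < W.F.O.m, c.testBit a = s (g a)) →
      (∃ y ∈ S.A, s y = true) → (∃ y ∈ S.A, s y = false) → W.F.bf4 c ≤ S.rc s
  h5 : H5 S L fun x => ∃ a < W.Z.nc, W.ac a = true ∧ x = S.M.v (d a)

end Pool.FC7
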