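import Pool.Agent.FC7.WfC

/-! # Facts given by words: first consequences of the check -/

open Finset

set_option linter.unusedSectionVars false

namespace Pool.FC7

open Pool.FC6 Pool.FC6.St

variable {D V : Type} [Fintype D] [DecidableEq V] {Δ N R e : ℕ} {S : St D V} {L : D → Bool}
  {w : D → ℕ} {W : WF} {d f : ℕ → D} {g : ℕ → V}

/-- the check as propositions -/
structure WF.Ck (W : WF) (Δ : ℕ) : Prop where
  Z : W.Z.Ck W.PT
  ok : W.ok = true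
  rs : rstr W.F.P W.PT = true
  cx : ∀ a < W.F.O.x, W.Z.Q.cx a = true
  ce : ∀ i < W.PT.n, i < W.F.P.n ∨ W.F.O.x ≤ W.PT.l i
  r1 : ∀ a < W.F.O.m, W.rd a < W.F.P.n ∧ W.F.P.l (W.rd a) = a ∧ W.F.P.real (W.rd a) = true
  r2 : ∀ a, W.F.O.m ≤ a → a < W.F.nl → W.rd a < W.Z.Q.ns ∧ W.Z.Q.rl (W.rd a) = false ∧
    W.ac (W.Z.ca (W.rd a)) = true ∧ W.hl (W.rd a) = a
  ml : W.F.O.m ≤ W.F.nl
  dl : ∀ q ∈ W.dq, q.1 < W.Z.Q.ns ∧ q.2 < W.Z.Q.ns
  nl : ∀ q ∈ W.nq, q.1 < W.Z.Q.ns ∧ q.2 < W.Z.Q.ns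
  ol : ∀ q ∈ W.oq, q.1 < W.Z.Q.ns ∧ q.2 < W.Z.Q.ns
  ne : ∀ a < W.F.O.m, ∀ b < W.F.O.m, W.F.ne a b = true → W.dis a b = true
  na : ∀ a < W.F.O.m, ∀ b < W.F.O.m, W.F.na a b = true → a < W.F.O.x ∨ b < W.F.O.x ∨
    ∃ q ∈ W.nq, (W.hl q.1 = a ∧ W.hl q.2 = b) ∨ (W.hl q.1 = b ∧ W.hl q.2 = a)
  du : ∀ i < W.F.P.n, W.F.uk i = true → W.F.P.u i = 0
  dk : ∀ i < W.F.P.n, W.F.uk i = false → W.kn (W.Z.Q.rk i) (W.Z.Q.rj i) = true ∧
    W.F.P.u i = W.un (W.Z.Q.rk i) (W.Z.Q.rj i)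
  lb : ∀ i < W.F.P.n, W.F.lu i = false → W.lun (W.Z.Q.rk i) (W.Z.Q.rj i) = false ∧
    W.F.O.lb i = W.lb (W.Z.Q.rk i) (W.Z.Q.rj i)
  lu : ∀ i < W.F.P.n, W.F.lu i = true → W.F.O.lb i = false ∧ i ∈ W.F.X.kd ∧
    ∀ j < W.F.P.n, W.F.P.real j = false ∨ j ∈ W.F.X.kd ∨
      W.dis (W.F.P.l j) (W.F.P.l (W.F.P.φ i)) = true ∨
      W.dis (W.F.P.l (W.F.P.φ j)) (W.F.P.l i) = true
  wt : ∀ i < W.F.P.n, W.F.O.wt i = if W.F.O.lb i = true then 1 else 0
  uk : ∀ i < W.F.P.n, W.F.uk i = true → W.F.kr i < W.F.P.n ∧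
    W.F.X.ce (W.F.kr i) = W.F.X.ce i
  op : ∀ i < W.F.P.n, W.F.op i = true → W.fcl i = 3
  tw : ∀ i < W.F.P.n, W.F.tw i = true → W.fcl i = 3 ∨ W.fcl i = 1
  rg : ∀ i < W.F.P.n, W.F.O.rg W.F.P i = true → W.F.P.real i = true ∧
    ∀ j < W.F.P.n, W.F.P.real j = false ∨ W.dis (W.F.P.l j) (W.F.P.l (W.F.P.φ i)) = true ∨
      W.dis (W.F.P.l (W.F.P.φ j)) (W.F.P.l i) = true
  sl : ∀ a < W.F.O.m, W.F.O.sl a = 0 ∨ (W.sc a < W.Z.Q.ns ∧
    W.hl (W.sc a) = a ∧ nu3 (W.sw a) = true ∧ dgw (W.sw a) + W.F.O.sl a ≤ Δ)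
  sp : ∀ p ∈ W.F.X.ar, W.F.X.sp p.1 = true → p.1 < W.F.P.n ∧ p.2 < W.F.P.n ∧
    W.F.P.α p.1 = p.1 ∧ ((W.F.P.real p.1 = true ∧ p.1 = p.2) ∨
      (W.F.P.real p.1 = false ∧ W.hub (W.F.P.l (W.F.P.φ p.1)) = true ∧
      ∀ j < W.F.P.n, W.F.P.α j = j → W.F.P.l j = W.F.P.l (W.F.P.φ p.1) → j = p.2))
  o3 : ∀ q < W.F.O.p, W.F.ty q = 3 → W.hbs q (W.tl q) = true ∧
    3 + ((W.tl q).map W.ku).sum ≤ ((W.tl q).map W.lwk).sum + W.F.pu q
  o4 : ∀ q < W.F.O.p, W.F.ty q = 4 → W.t4 q (W.F.tj q) = true ∧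
    (W.fcl (W.F.tj q) = 1 ∨ (W.ku (W.F.tj q) ≠ 0 ∧ W.ku (W.F.tj q) ≤ W.F.pu q))
  ou : ∀ i < W.F.P.n, W.F.ou i = true → W.one (W.F.O.pc i) i = true ∧ W.ku i < W.lwk i
  v : ∀ i < W.F.P.n, (W.F.P.u i = 0 ∧ W.F.uk i = false) ∨ W.okv i = true
  oz : ∀ i < W.F.P.n, W.F.oz i = true → W.fcl i = 3 ∨ (W.one (W.F.O.pc i) i = true ∧
    W.ku i ≤ W.F.pu (W.F.O.pc i) ∧ (W.ocl i = true ∨ W.fcl i = 2 ∨
      W.ku i < W.F.pu (W.F.O.pc i) ∨ W.t4 (W.F.O.pc i) i = true))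

theorem WF.ck (h : W.chk Δ = true) : W.Ck Δ := by
  unfold WF.chk at h
  simp only [Bool.and_eq_true] at h
  obtain ⟨⟨⟨⟨⟨⟨⟨⟨h1, h2⟩, h3⟩, h4⟩, h5⟩, h6⟩, h7⟩, h8⟩, h9⟩ := h
  unfold WF.chkA at h3
  simp only [Bool.and_eq_true, allN_iff, Bool.or_eq_true, decide_eq_true_eq, List.all_eq_true] at h3
  obtain ⟨⟨⟨⟨⟨⟨⟨⟨⟨a1, a2⟩, a3⟩, a4⟩, a5⟩, a6⟩, a7⟩, a7o⟩, a8⟩, a9⟩ := h3
  unfold WF.chkD at h4
  simp only [Bool.and_eq_true, allN_iff, Bool.or_eq_true, decide_eq_true_eq, beq_iff_eq,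
    Bool.not_eq_true'] at h4
  unfold WF.chkL at h5
  simp only [Bool.and_eq_true, allN_iff, Bool.or_eq_true, decide_eq_true_eq] at h5
  unfold WF.chkP at h6
  simp only [Bool.and_eq_true, allN_iff, Bool.or_eq_true, decide_eq_true_eq, List.all_eq_true,
    Bool.not_eq_true'] at h6
  unfold WF.chkO at h7
  simp only [Bool.and_eq_true, allN_iff, Bool.or_eq_true, decide_eq_true_eq,
    Bool.not_eq_true'] at h7
  unfold WF.chkV at h8
  simp only [Bool.and_eq_true, allN_iff, Bool.or_eq_true, decide_eq_true_eq,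
    Bool.not_eq_true'] at h8
  unfold WF.chkZ at h9
  simp only [Bool.and_eq_true, allN_iff, Bool.or_eq_true, decide_eq_true_eq,
    Bool.not_eq_true'] at h9
  refine ⟨Stars.chk_ck h1, h2, a1, a2, a3, fun a ha => ?_, fun a ha hb => ?_, a5, a6, a7, a7o,
    fun a ha b hb hab => ?_, fun a ha b hb hab => ?_, fun i hi hu => ?_, fun i hi hu => ?_,
    fun i hi hu => ?_, fun i hi hu => ?_, fun i hi => (h4 i hi).1.1.1.1.2, fun i hi hu => ?_,
    fun i hi ho => ?_,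
    fun i hi ho => ?_, fun i hi ho => ?_, fun a ha => ?_, fun p hp hs => ?_, fun q hq ht => ?_,
    fun q hq ht => ?_, fun i hi ho => ?_, h8, fun i hi hz => ?_⟩
  · have := a4 a (by omega)
    rw [if_pos ha] at this
    simpa [and_assoc] using this
  · have := a4 a hb
    rw [if_neg (by omega)] at this
    simpa [and_assoc] using this
  · rcases a8 a ha b hb with h | h
    · rw [hab] at h; exact absurd h (by simp)
    · exact h
  · rcases a9 a ha b hb with ((h | h) | h) | h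
    · rw [hab] at h; exact absurd h (by simp)
    · exact Or.inl h
    · exact Or.inr (Or.inl h)
    · rw [List.any_eq_true] at h
      obtain ⟨q, hq, h⟩ := h
      simp only [Bool.and_eq_true, Bool.or_eq_true, decide_eq_true_eq] at h
      exact Or.inr (Or.inr ⟨q, hq, h⟩)
  · have := (h4 i hi).1.1.1.1.1.1
    rw [if_pos hu] at this
    exact of_decide_eq_true this
  · have := (h4 i hi).1.1.1.1.1.1
    rw [if_neg (by rw [hu]; simp)] at this
    simpa using this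
  · have := (h4 i hi).1.1.1.1.1.2
    rw [if_neg (by rw [hu]; simp), Bool.and_eq_true, Bool.not_eq_true', beq_iff_eq] at this
    exact this
  · have := (h4 i hi).1.1.1.1.1.2
    rw [if_pos hu] at this
    simp only [Bool.and_eq_true, Bool.not_eq_true', List.contains_iff_mem, allN_iff,
      Bool.or_eq_true] at this
    refine ⟨this.1.1, this.1.2, fun j hj => ?_⟩
    rcases this.2 j hj with ((h | h) | h) | h
    · exact Or.inl h
    · exact Or.inr (Or.inl h)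
    · exact Or.inr (Or.inr (Or.inl h))
    · exact Or.inr (Or.inr (Or.inr h))
  · rcases (h4 i hi).1.1.1.2 with h | h
    · rw [hu] at h; exact absurd h (by simp)
    · exact h
  · rcases (h4 i hi).1.1.2 with h | h
    · rw [ho] at h; exact absurd h (by simp)
    · exact h
  · rcases (h4 i hi).1.2 with (h | h) | h
    · rw [ho] at h; exact absurd h (by simp)
    · exact Or.inl h
    · exact Or.inr h
  · rcases (h4 i hi).2 with h | h
    · rw [ho] at h; exact absurd h (by simp)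
    · refine ⟨h.1, fun j hj => ?_⟩
      rcases h.2 j hj with (h | h) | h
      · exact Or.inl h
      · exact Or.inr (Or.inl h)
      · exact Or.inr (Or.inr h)
  · rcases h5 a ha with h | h
    · exact Or.inl h
    · exact Or.inr ⟨h.1.1.1, h.1.1.2, h.1.2, h.2⟩
  · rcases h6 p hp with h | h
    · rw [hs] at h; exact absurd h (by simp)
    · refine ⟨h.1.1.1, h.1.1.2, h.1.2, ?_⟩
      rcases h.2 with h | h
      · exact Or.inl h
      · refine Or.inr ⟨h.1.1, h.1.2, fun j hj hα hl => ?_⟩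
        rcases h.2 j hj with (h | h) | h
        · exact absurd hα h
        · exact absurd hl h
        · exact h
  · rcases (h7.1 q hq).2 with h | h
    · exact absurd ht h
    · exact h
  · rcases (h7.1 q hq).1 with h | h
    · exact absurd ht h
    · exact h
  · rcases h7.2 i hi with h | h
    · rw [ho] at h; exact absurd h (by simp)
    · exact h
  · rcases h9 i hi with (h | h) | h
    · rw [hz] at h; exact absurd h (by simp)
    · exact Or.inl h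
    · exact Or.inr ⟨h.1.1, h.1.2, by tauto⟩

end Pool.FC7
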