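import Pool.Agent.FC7.WfD

/-! # Facts given by words: labels, units, arcs -/

open Finset

set_option linter.unusedSectionVars false

namespace Pool.FC7

open Pool.FC6 Pool.FC6.St

variable {D V : Type} [Fintype D] [DecidableEq V] {Δ N R e : ℕ} {S : St D V} {L : D → Bool}
  {w : D → ℕ} {W : WF} {d f : ℕ → D} {g : ℕ → V}

/-- everything which is known -/
structure WF.Cx (W : WF) (Δ : ℕ) (S : St D V) (L : D → Bool) (w : D → ℕ) (d f : ℕ → D)
    (g : ℕ → V) : Prop where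
  hS : IsStar S
  ok : Ok Δ S L w
  w1 : W1 L w
  C : W.Ck Δ
  F : W.F.Chk Δ
  K : ∀ (κ : ℕ → ℕ) (l : ℕ → Bool), (∀ i, κ i ≠ 0 → W.F.uk i = true) →
    (∀ i, l i = true → W.F.lu i = true) → W.F.Kap κ l
  H : W.Hy S L d f g

namespace WF.Cx

variable (X : W.Cx Δ S L w d f g)

include X

theorem ρ {j : ℕ} (hj : j < W.Z.Q.ns) : S.M.σ (W.Z.io S d j) = W.Z.io S d (W.Z.Q.ρ j) :=
  Stars.io_ρ X.C.Z X.H.m hj

theorem G : W.F.P.Good := Pa.good_iff.1 X.F.g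

theorem eP : Em W.F.P S f g := Em.restrict X.H.em X.C.rs

theorem nP : W.F.P.n ≤ W.PT.n := by
  have := X.C.rs
  simp only [rstr, Bool.and_eq_true, decide_eq_true_eq] at this
  exact this.1

theorem lP {i : ℕ} (hi : i < W.F.P.n) : W.F.P.l i = W.PT.l i := by
  have := X.C.rs
  simp only [rstr, Bool.and_eq_true, decide_eq_true_eq, allN_iff, Bool.or_eq_true,
    beq_iff_eq] at this
  exact (this.2 i hi).1.2

/-- the names of the darts -/
theorem nm {i : ℕ} (hi : i < W.F.P.n) : W.Z.Q.rk i < 3 ∧ W.Z.Q.rj i < W.Z.Q.ns ∧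
    f i = nmS S (W.Z.io S d) (W.Z.Q.rk i) (W.Z.Q.rj i) := by
  have h := X.nP
  have hC := X.C.Z.Q
  have h1 := hC.k3 i (by omega)
  have h2 := hC.rjlt i (by omega)
  refine ⟨h1, h2, ?_⟩
  rw [← X.H.nm _ h2 _ h1, hC.nfr i (by omega)]

theorem hh {j : ℕ} (hj : j < W.Z.Q.ns) : g (W.hl j) = S.M.v (S.M.α (W.Z.io S d j)) := by
  unfold WF.hl
  rw [← X.H.em.hl _ (X.C.Z.Q.nflt j hj 1 (by norm_num)), X.H.nm j hj 1 (by norm_num)]
  rfl

theorem occ {a : ℕ} (ha : a < W.F.nl) : ∃ i < W.PT.n, W.PT.l i = a := by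
  by_cases h : a < W.F.O.m
  · obtain ⟨h1, h2, h3⟩ := X.C.r1 a h
    have := X.nP
    exact ⟨W.rd a, by omega, by rw [← X.lP h1]; exact h2⟩
  · obtain ⟨h1, h2, h4, h3⟩ := X.C.r2 a (by omega) ha
    exact ⟨_, X.C.Z.Q.nflt _ h1 1 (by norm_num), h3⟩

theorem alive {a : ℕ} (ha : a < W.F.O.m) : g a ∈ S.A := by
  obtain ⟨h1, h2, h3⟩ := X.C.r1 a ha
  have h4 := X.eP.hl _ h1
  rw [h2] at h4
  rw [← h4]
  exact X.ok.real_A _ (by rw [X.eP.hr _ h1]; exact h3)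

theorem dead {a : ℕ} (ha : W.F.O.m ≤ a) (hb : a < W.F.nl) : g a ∉ S.A := by
  obtain ⟨h1, h2, h4, h3⟩ := X.C.r2 a ha hb
  rw [← h3, X.hh h1]
  rcases X.hS.virt X.ok.toWf (by rw [X.H.inf.rl _ h1]; exact h2) with ⟨_, _, k, _⟩ | ⟨_, _, k, _⟩
  · exact absurd (X.H.inf.al _ h1 h4) k
  · exact k

theorem cenx {a b : ℕ} (hc : W.Z.Q.cx a = true) (ha : a < W.F.nl) (hb : b < W.F.nl)
    (hab : b ≠ a) : g b ≠ g a := by
  obtain ⟨i, h1, h2⟩ := X.occ ha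
  obtain ⟨i', h3, h4⟩ := X.occ hb
  have := X.H.dif i h1 (by rw [h2]; exact hc) i' h3 (by rw [h2, h4]; exact hab)
  rwa [h2, h4] at this

theorem cen {a b : ℕ} (ha : a < W.F.O.x) (hb : b < W.F.nl) (hab : b ≠ a) : g b ≠ g a :=
  X.cenx (X.C.cx a ha) (by have := X.F.c5; have := X.C.ml; omega) hb hab

theorem dis {a b : ℕ} (ha : a < W.F.nl) (hb : b < W.F.nl) (h : W.dis a b = true) : g a ≠ g b := by
  unfold WF.dis at h
  simp only [Bool.and_eq_true, Bool.or_eq_true, decide_eq_true_eq, List.any_eq_true,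
    bne_iff_ne] at h
  obtain ⟨h0, ((h | h) | h) | ⟨q, hq, h⟩⟩ := h
  · exact (X.cenx h ha hb (Ne.symm h0)).symm
  · exact X.cenx h hb ha h0
  · intro he
    by_cases h1 : a < W.F.O.m
    · have h2 : ¬ b < W.F.O.m := fun h2 => h (by simp [h1, h2])
      exact X.dead (not_lt.1 h2) hb (he ▸ X.alive h1)
    · have h2 : b < W.F.O.m := by
        by_contra h2
        exact h (by simp [h1, h2])
      exact X.dead (not_lt.1 h1) ha (he ▸ X.alive h2)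
  · have hl := X.C.dl q hq
    have := X.H.dq q hq
    rw [← X.hh hl.1, ← X.hh hl.2] at this
    rcases h with ⟨h1, h2⟩ | ⟨h1, h2⟩
    · rwa [h1, h2] at this
    · rw [h1, h2] at this
      exact this.symm

theorem lnl {i : ℕ} (hi : i < W.F.P.n) : W.F.P.l i < W.F.nl := (X.F.s2 i hi).1

theorem hub {b : ℕ} (h : W.hub b = true) : g b ∉ S.A ∧ ∀ j < W.F.P.n, g (W.F.P.l j) = g b →
    W.F.P.l j = b := by
  unfold WF.hub at h
  simp only [Bool.and_eq_true, Bool.or_eq_true, decide_eq_true_eq, allN_iff] at h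
  refine ⟨X.dead h.1.1 h.1.2, fun j hj hg => ?_⟩
  rcases h.2 _ (X.lnl hj) with h1 | h1
  · exact h1
  · exact absurd hg (X.dis (X.lnl hj) h.1.2 h1)

theorem nm2 {i : ℕ} (hi : i < W.F.P.n) (h : W.Z.Q.rk i = 2) :
    W.ac (W.Z.ca (W.Z.Q.rj i)) = true := by
  have hn := X.nP
  exact Wt.nm2 X.hS X.ok.toWf X.C.Z X.C.ok (fun j hj => X.ρ hj) X.H.inf
    (show i < W.PT.n by omega) h

/-- the units -/
theorem un {i : ℕ} (hi : i < W.F.P.n) (hu : W.F.uk i = false) : S.u (f i) = W.F.P.u i := by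
  obtain ⟨h1, h2, h3⟩ := X.nm hi
  obtain ⟨h4, h5⟩ := X.C.dk i hi hu
  rw [h3, h5]
  exact Wt.u_nm X.hS X.ok.toWf X.C.Z X.C.ok (fun j hj => X.ρ hj) X.H.inf X.H.cu h2 h1
    (X.nm2 hi) h4

theorem fc {i : ℕ} (hi : i < W.F.P.n) : FB (fu S (f i)) (W.fcl i) := by
  obtain ⟨h1, h2, h3⟩ := X.nm hi
  rw [h3]
  exact Wt.f_nm X.hS X.ok.toWf X.C.Z X.C.ok (fun j hj => X.ρ hj) X.H.inf X.H.oo h2 h1

theorem oc {i : ℕ} (hi : i < W.F.P.n) (h : W.ocl i = true) : OZ (fu S (f i)) := by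
  obtain ⟨h1, h2, h3⟩ := X.nm hi
  rw [h3]
  exact Wt.o_nm X.hS X.ok.toWf X.C.Z X.C.ok (fun j hj => X.ρ hj) X.H.inf X.H.oo h2 h1 h

theorem lb {i : ℕ} (hi : i < W.F.P.n) (hl : W.F.lu i = false) : L (f i) = W.F.O.lb i := by
  obtain ⟨h1, h2, h3⟩ := X.nm hi
  obtain ⟨h4, h5⟩ := X.C.lb i hi hl
  rw [h3, h5]
  exact Wt.l_nm X.hS X.ok.toWf X.C.Z X.C.ok (fun j hj => X.ρ hj) X.H.inf h2 h1 (X.nm2 hi) h4

theorem star {a : ℕ} (ha : a < W.F.O.x) {x : D} (hx : S.M.v x = g a) : ∃ i < W.F.P.n, f i = x := by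
  obtain ⟨i, h1, h2⟩ := X.occ (a := a) (by have := X.F.c5; have := X.C.ml; omega)
  obtain ⟨i', h3, h4⟩ := X.H.all i h1 (by rw [h2]; exact X.C.cx a ha) x (by rw [h2]; exact hx)
  rcases X.C.ce i' h3 with h5 | h5
  · exact ⟨i', h5, h4⟩
  · exfalso
    have h6 := X.H.dif i h1 (by rw [h2]; exact X.C.cx a ha) i' h3 (by rw [h2]; omega)
    apply h6
    rw [h2, ← hx, ← h4, X.H.em.hl i' h3]

theorem off {a b : ℕ} (h : W.off a b = true) : Off S (g a) (g b) := by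
  unfold WF.off at h
  rw [List.any_eq_true] at h
  obtain ⟨q, hq, h⟩ := h
  simp only [Bool.and_eq_true, decide_eq_true_eq] at h
  have h1 := X.C.ol q hq
  have h2 := X.H.oq q hq
  rwa [← X.hh h1.1, ← X.hh h1.2, h.1, h.2] at h2

end WF.Cx

/-- a face with a unit has two of them -/
theorem two_le_fu (thr : ∀ d, S.u d ≠ 0 → 3 ≤ fu S d ∨ Two S d) {d : D} (h : 1 ≤ fu S d) :
    2 ≤ fu S d := by
  classical
  have h1 : ∃ x, S.sc.r d x ∧ S.u x ≠ 0 := by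
    by_contra hno
    push Not at hno
    unfold fu at h
    rw [Finset.sum_eq_zero] at h
    · omega
    · intro x _
      by_cases hs : S.sc.r d x
      · rw [if_pos hs]; exact hno x hs
      · rw [if_neg hs]
  obtain ⟨x, h1, h2⟩ := h1
  rw [fu_congr h1]
  rcases thr x h2 with h4 | ⟨e, e', a1, a2, a3, a4, a5, a6⟩
  · omega
  · have hne : e ≠ e' := fun h => a5 (by rw [h])
    unfold fu
    have : ∑ y ∈ ({e, e'} : Finset D), (if S.sc.r x y then S.u y else 0) ≤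
        ∑ y, if S.sc.r x y then S.u y else 0 :=
      Finset.sum_le_sum_of_subset (Finset.subset_univ _)
    rw [Finset.sum_pair hne, if_pos a1, if_pos a2] at this
    omega

theorem lw_le (thr : ∀ d, S.u d ≠ 0 → 3 ≤ fu S d ∨ Two S d) {d : D} {c : ℕ}
    (h : FB (fu S d) c) : WF.lw c ≤ fu S d := by
  unfold WF.lw
  split_ifs with h1 h2
  · exact h.2.1 h1
  · exact two_le_fu thr (h.1 h2).1
  · exact Nat.zero_le _

end Pool.FC7
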