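import Pool.Agent.FC7.WfB
import Pool.Agent.FC7.NrA

/-! # Faces with two units: pieces with kept corners

`RH.class_piece`: if all arcs of the piece of `i` belong to one hub and all arcs of the hub belong to
the piece then the face of `S'` consists of the piece and the outer part of the hub.
`RH.two_t`: both corners are kept.  `RH.two_T`: one corner is kept, the other one is new. -/

open Finset

set_option linter.unusedSectionVars false

namespace Pool.FC7

open Pool.FC6 Pool.FC6.St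

variable {D V : Type} [Fintype D] [DecidableEq V] {Δ : ℕ} {S S' : St D V} {L L' : D → Bool}
  {w w' : D → ℕ} {P P' : Pa} {f : ℕ → D} {g : ℕ → V} {X : OD}

/-- the vertex `y` is not a corner of the face with the hub `z` -/
def Off (S : St D V) (y z : V) : Prop :=
  ∀ r, S.real r = false → ¬ (S.M.v r = y ∧ S.M.v (S.M.α r) = z)

/-- the ends of a real dart of the face of a hub are corners -/
theorem inC_off (hS : IsStar S) (W : Wf Δ S L w) {z : V} (hz : z ∉ S.A) {r : D}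
    (hr : S.real r = true) (h : InC S z r) : ¬ Off S (S.M.v r) z ∧ ¬ Off S (S.M.v (S.M.α r)) z := by
  have h1 : S.M.v (S.M.φ (S.M.φ r)) = z := by
    rcases h with h | h | h
    · exact absurd (W.real_A r hr) (h ▸ hz)
    · rw [S.M.vφ] at h
      exact absurd (W.real_A _ (by rw [W.real_α]; exact hr)) (h ▸ hz)
    · exact h
  have h2 : S.real (S.M.φ (S.M.φ r)) = false := (hS.φdead W (by rw [h1]; exact hz)).1
  constructor
  · intro hf
    refine hf (S.M.α (S.M.φ (S.M.φ r))) (by rw [W.real_α]; exact h2) ⟨?_, by rw [S.M.αα]; exact h1⟩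
    rw [← S.M.vφ, S.M.φ3]
  · intro hf
    have h3 : S.real (S.M.φ r) = false := by
      by_contra hne
      have h4 : S.M.v (S.M.α (S.M.φ r)) ∈ S.A :=
        W.real_A _ (by rw [W.real_α]; simpa using hne)
      rw [← S.M.vφ, h1] at h4
      exact hz h4
    exact hf (S.M.φ r) h3 ⟨S.M.vφ r, by rw [← S.M.vφ]; exact h1⟩

section outer

variable (h : RH Δ S S' L L' w w' P P' f g X) (hS : IsStar S) {b i i0 : ℕ} (hz : g b ∉ S.A)
  (hb : ∀ j < P.n, g (P.l j) = g b → P.l j = b) (hi : i < P.n) (hib : inb P b i = true)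
  (hi0 : i0 < P.n)
  (hK : ∀ j < P.n, P.α j = j → P.real j = false → inb P b j = true → X.pc j = X.pc i0)
  (hK2 : ∀ j < P.n, P.α j = j → P.real j = false → X.pc j = X.pc i0 → inb P b j = true)
  (hcφ : ∀ j < P.n, X.pc (P'.φ j) = X.pc j)
  (hcα : ∀ j < P.n, P.α j ≠ j → P'.real j = false → X.pc (P.α j) = X.pc j)

include h hS hz hb hi hib hi0 hK

/-- a kept unit of the face -/
theorem RH.kept {e : D} (he : S.sc.r (f i) e) (hu : S.u e ≠ 0)
    (hk : ∀ j < P.n, inb P b j = true → f j = e →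
      ∃ k < P.n, X.pc k = X.pc i0 ∧ P'.u k ≠ 0 ∧ P'.l k = P.l j ∧ X.x ≤ P.l j) :
    ∃ e1, S'.sc.r (f i0) e1 ∧ S'.u e1 ≠ 0 ∧ S'.M.v e1 = S.M.v e ∧ (∀ a < X.x, S.M.v e ≠ g a) ∧
      ¬ Off S (S.M.v e) (g b) := by
  have hW := h.hW
  have hre := hS.ur e hu
  have hin : InC S (g b) e := (sc_inC hS hW hz he).1 ((inb_iff h.rep.e h.rep.G hb hi).2 hib)
  have hoff := (inC_off hS hW hz hre hin).1
  by_cases ho : ∀ j < P.n, f j ≠ e
  · refine ⟨e, h.outer_y hi (RH.hub_K h hS hz hb hi hib hi0 hK) ho he, by rw [h.rep.uo e ho]; exact hu,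
      h.rep.vo e ho, fun a ha he' => ?_, hoff⟩
    obtain ⟨j, hj, hj'⟩ := h.hX a ha e he'
    exact ho j hj hj'
  · push Not at ho
    obtain ⟨j, hj, rfl⟩ := ho
    have hjb : inb P b j = true := (RH.hub_sc h hS hz hb hi hib hj).1 he
    obtain ⟨k, hk', k0, k1, k2, k3⟩ := hk j hj hjb rfl
    have hlm : P.l j < X.m := by
      have hrj : P.real j = true := by rw [← h.rep.e.hr j hj]; exact hre
      exact ((OD.stat1 h.stat hj).r hrj).1
    refine ⟨f k, h.sc_piece hi0 hk' k0.symm, by rw [h.rep.hu' k hk']; exact k1,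
      by rw [h.v' hk', k2, h.rep.e.hl j hj], fun a ha he' => ?_, hoff⟩
    rw [h.rep.e.hl j hj] at he'
    exact h.hgd a ha _ k3 hlm he'

include hK2 hcφ hcα

/-- the face of the piece -/
theorem RH.class_piece {d : D} (hd : S'.sc.r (f i0) d) :
    (∃ j < P.n, f j = d ∧ X.pc j = X.pc i0) ∨ ((∀ j < P.n, f j ≠ d) ∧ S.sc.r (f i) d) := by
  classical
  have G := h.rep.G
  let Q : D → Prop := fun d => (∃ j < P.n, f j = d ∧ X.pc j = X.pc i0) ∨
    ((∀ j < P.n, f j ≠ d) ∧ S.sc.r (f i) d)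
  have Qf : ∀ j < P.n, Q (f j) ↔ X.pc j = X.pc i0 := by
    intro j hj
    constructor
    · rintro (⟨k, hk, h1, h2⟩ | ⟨h1, -⟩)
      · rw [← h.rep.e.inj k hk j hj h1]; exact h2
      · exact absurd rfl (h1 j hj)
    · intro h1
      exact Or.inl ⟨j, hj, rfl, h1⟩
  have Qo : ∀ d, (∀ j < P.n, f j ≠ d) → (Q d ↔ S.sc.r (f i) d) := by
    intro d hd
    constructor
    · rintro (⟨k, hk, h1, -⟩ | ⟨-, h2⟩)
      · exact absurd h1 (hd k hk)
      · exact h2
    · intro h1
      exact Or.inr ⟨hd, h1⟩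
  -- half darts
  have half : ∀ j < P.n, P.α j = j → P.real j = false →
      (X.pc j = X.pc i0 ↔ S.sc.r (f i) (f j)) := by
    intro j hj ha hr
    rw [RH.hub_sc h hS hz hb hi hib hj]
    exact ⟨hK2 j hj ha hr, hK j hj ha hr⟩
  have hcl : S'.Cl (fun e => decide (Q e)) := by
    refine ⟨fun e => ?_, fun e he => ?_⟩
    · show decide (Q _) = decide (Q _)
      rw [decide_eq_decide]
      by_cases ho : ∀ j < P.n, f j ≠ e
      · have ho' := h.out_φ ho
        rw [h.rep.φo e ho, Qo _ ho', Qo _ ho, scφ]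
      · push Not at ho
        obtain ⟨j, hj, rfl⟩ := ho
        rw [h.φ' hj, Qf _ (h.φlt' hj), Qf _ hj, hcφ j hj]
    · show decide (Q _) = decide (Q _)
      rw [decide_eq_decide, h.rep.αo]
      by_cases ho : ∀ j < P.n, f j ≠ e
      · have hre : S.real e = false := by rw [← h.rep.ro e ho]; exact he
        rcases h.out_α ho with h1 | ⟨j, hj, h1, h2⟩
        · rw [Qo _ h1, Qo _ ho, scα hre]
        · have hrj : P.real j = false := by
            rw [← h.rep.e.hr j hj, h1, h.hW.real_α]; exact hre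
          rw [← h1, Qf _ hj, half j hj h2 hrj, h1, scα hre, Qo _ ho]
      · push Not at ho
        obtain ⟨j, hj, rfl⟩ := ho
        have he' : P'.real j = false := by rw [← h.real' hj]; exact he
        by_cases ha : P.α j = j
        · have hrj : P.real j = false := by
            rw [← ((OD.stat1 h.stat hj).ring ha).1]; exact he'
          have hre : S.real (f j) = false := by rw [h.rep.e.hr j hj]; exact hrj
          rw [Qf _ hj, half j hj ha hrj]
          by_cases ho2 : ∀ k < P.n, f k ≠ S.M.α (f j)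
          · rw [Qo _ ho2, scα hre]
          · push Not at ho2
            obtain ⟨k, hk, hk'⟩ := ho2
            have hak : P.α k = k := by
              by_contra hne
              have h1 := h.rep.e.hα k hk hne
              rw [hk', S.M.αα] at h1
              have h2 := h.rep.e.inj j hj _ (G.αlt k hk) h1
              have h3 := G.αα k hk
              rw [← h2, ha] at h3
              rw [← h3] at hk'
              exact S.M.αne _ hk'.symm
            have hrk : P.real k = false := by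
              rw [← h.rep.e.hr k hk, hk', h.hW.real_α]; exact hre
            rw [← hk', Qf _ hk, half k hk hak hrk, hk', scα hre]
        · rw [h.rep.e.hα j hj ha, Qf _ (G.αlt j hj), Qf _ hj, hcα j hj ha he']
  have h1 := hd _ hcl
  have h2 : decide (Q (f i0)) = true := decide_eq_true ((Qf i0 hi0).2 rfl)
  rw [h2] at h1
  exact of_decide_eq_true h1.symm

/-- two kept corners -/
theorem RH.two_t (hT : Two S (f i))
    (hk : ∀ j < P.n, inb P b j = true → S.u (f j) ≠ 0 →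
      ∃ k < P.n, X.pc k = X.pc i0 ∧ P'.u k ≠ 0 ∧ P'.l k = P.l j ∧ X.x ≤ P.l j)
    (hE : ∀ j < P.n, X.pc j = X.pc i0 → P'.real j = true → P'.l j < X.x ∨ P'.l (P'.φ j) < X.x ∨
      (P.real j = true ∧ P'.l j = P.l j ∧ P'.l (P'.φ j) = P.l (P.φ j) ∧ inb P b j = true) ∨
      Off S (g (P'.l j)) (g b) ∨ Off S (g (P'.l (P'.φ j))) (g b)) : Two S' (f i0) := by
  obtain ⟨e, e', a1, a2, a3, a4, a5, a6⟩ := hT
  obtain ⟨e1, k1, k2, k3, k4, k5⟩ := RH.kept h hS hz hb hi hib hi0 hK a1 a3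
    (fun j hj hjb hje => hk j hj hjb (hje ▸ a3))
  obtain ⟨e2, l1, l2, l3, l4, l5⟩ := RH.kept h hS hz hb hi hib hi0 hK a2 a4
    (fun j hj hjb hje => hk j hj hjb (hje ▸ a4))
  refine ⟨e1, e2, k1, l1, k2, l2, by rw [k3, l3]; exact a5, fun r hr hs => ?_⟩
  rw [k3, l3]
  rcases RH.class_piece h hS hz hb hi hib hi0 hK hK2 hcφ hcα hs with ⟨j, hj, rfl, hp⟩ | ⟨ho, hs'⟩
  · rw [h.v' hj, h.v_α' hj]
    rw [h.real' hj] at hr
    rcases hE j hj hp hr with h1 | h1 | ⟨h1, h2, h3, h4⟩ | h1 | h1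
    · exact ⟨fun h2 => k4 _ h1 h2.1.symm, fun h2 => l4 _ h1 h2.1.symm⟩
    · exact ⟨fun h2 => l4 _ h1 h2.2.symm, fun h2 => k4 _ h1 h2.2.symm⟩
    · have h5 := a6 (f j) (by rw [h.rep.e.hr j hj]; exact h1)
        ((RH.hub_sc h hS hz hb hi hib hj).2 h4)
      rw [h.rep.e.hl j hj, ← S.M.vφ, h.rep.e.hφ j hj, h.rep.e.hl _ (h.rep.G.φlt j hj),
        ← h2, ← h3] at h5
      exact h5
    · exact ⟨fun h2 => k5 (h2.1 ▸ h1), fun h2 => l5 (h2.1 ▸ h1)⟩
    · exact ⟨fun h2 => l5 (h2.2 ▸ h1), fun h2 => k5 (h2.2 ▸ h1)⟩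
  · rw [h.rep.vo r ho, h.out_vα ho]
    exact a6 r (by rw [← h.rep.ro r ho]; exact hr) hs'

/-- one kept corner `x` of a face with two units, a new unit at the dart `k`, the lost unit at the
dart `c` -/
theorem RH.two_T (hT : Two S (f i)) (h2 : fu S (f i) ≤ 2) {c k : ℕ} (hc : c < P.n)
    (hcb : inb P b c = true) (hcu : S.u (f c) ≠ 0) (hk0 : k < P.n) (hkp : X.pc k = X.pc i0)
    (hku : P'.u k ≠ 0) (hky : P'.l k < X.x ∨ Off S (g (P'.l k)) (g b))
    (hk : ∀ j < P.n, inb P b j = true → j ≠ c → S.u (f j) ≠ 0 →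
      ∃ k < P.n, X.pc k = X.pc i0 ∧ P'.u k ≠ 0 ∧ P'.l k = P.l j ∧ X.x ≤ P.l j)
    (hE : ∀ j < P.n, X.pc j = X.pc i0 → P'.real j = true →
      ∀ y ∈ ({P'.l j, P'.l (P'.φ j)} : Finset ℕ), ∀ z ∈ ({P'.l j, P'.l (P'.φ j)} : Finset ℕ),
      g y = g (P'.l k) → y ≠ z → z < X.x ∨ Off S (g z) (g b) ∨ ∃ t, S.real t = true ∧
        S.sc.r (f i) t ∧ ((S.M.v t = S.M.v (f c) ∧ S.M.v (S.M.α t) = g z) ∨
          (S.M.v t = g z ∧ S.M.v (S.M.α t) = S.M.v (f c)))) : Two S' (f i0) := by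
  classical
  have hW := h.hW
  obtain ⟨e1, e2, a1, a2, a3, a4, a5, a6⟩ := hT
  have hsc : S.sc.r (f i) (f c) := (RH.hub_sc h hS hz hb hi hib hc).2 hcb
  -- the kept unit
  obtain ⟨e, b1, b2, b3, b4, b5⟩ : ∃ e, S.sc.r (f i) e ∧ S.u e ≠ 0 ∧ e ≠ f c ∧
      S.M.v e ≠ S.M.v (f c) ∧ ∀ r, S.real r = true → S.sc.r (f i) r →
      ¬ (S.M.v r = S.M.v (f c) ∧ S.M.v (S.M.α r) = S.M.v e) ∧
      ¬ (S.M.v r = S.M.v e ∧ S.M.v (S.M.α r) = S.M.v (f c)) := by
    by_cases c1 : e1 = f c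
    · subst c1
      exact ⟨e2, a2, a4, fun h3 => a5 (by rw [h3]), a5.symm, a6⟩
    · by_cases c2 : e2 = f c
      · subst c2
        exact ⟨e1, a1, a3, c1, a5, fun r hr hs => ⟨(a6 r hr hs).2, (a6 r hr hs).1⟩⟩
      · exfalso
        have c3 : e1 ≠ e2 := fun h3 => a5 (by rw [h3])
        have h3 : ∑ y ∈ ({e1, e2, f c} : Finset D), (if S.sc.r (f i) y then S.u y else 0) ≤
            fu S (f i) := by
          unfold fu
          exact Finset.sum_le_sum_of_subset (Finset.subset_univ _)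
        rw [Finset.sum_insert (by simp [c1, c3]), Finset.sum_pair c2, if_pos a1, if_pos a2,
          if_pos hsc] at h3
        omega
  obtain ⟨e0, k1, k2, k3, k4, k5⟩ := RH.kept h hS hz hb hi hib hi0 hK b1 b2
    (fun j hj hjb hje => hk j hj hjb (fun h3 => b3 (by rw [← hje, h3])) (hje ▸ b2))
  have hyx : g (P'.l k) ≠ S.M.v e := by
    rcases hky with h3 | h3
    · exact fun h4 => k4 _ h3 h4.symm
    · intro h4
      rw [h4] at h3
      exact k5 h3
  have key : ∀ z, (z < X.x ∨ Off S (g z) (g b) ∨ ∃ t, S.real t = true ∧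
        S.sc.r (f i) t ∧ ((S.M.v t = S.M.v (f c) ∧ S.M.v (S.M.α t) = g z) ∨
          (S.M.v t = g z ∧ S.M.v (S.M.α t) = S.M.v (f c)))) → g z ≠ S.M.v e := by
    rintro z (h3 | h3 | ⟨t, t1, t2, t3⟩) h4
    · exact k4 _ h3 h4.symm
    · rw [h4] at h3
      exact k5 h3
    · have h5 := b5 t t1 t2
      rcases t3 with t3 | t3
      · exact h5.1 ⟨t3.1, t3.2.trans h4⟩
      · exact h5.2 ⟨t3.1.trans h4, t3.2⟩
  refine ⟨f k, e0, h.sc_piece hi0 hk0 hkp.symm, k1, by rw [h.rep.hu' k hk0]; exact hku, k2,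
    by rw [h.v' hk0, k3]; exact hyx, fun r hr hs => ?_⟩
  rw [h.v' hk0, k3]
  rcases RH.class_piece h hS hz hb hi hib hi0 hK hK2 hcφ hcα hs with ⟨j, hj, rfl, hp⟩ | ⟨ho, hs'⟩
  · rw [h.v' hj, h.v_α' hj]
    rw [h.real' hj] at hr
    have h3 := hE j hj hp hr
    have hne := h.hne j hj hr
    constructor
    · rintro ⟨h4, h5⟩
      exact key _ (h3 _ (by simp) _ (by simp) h4 (fun h6 => hne (by rw [h6]))) h5
    · rintro ⟨h4, h5⟩
      exact key _ (h3 _ (by simp) _ (by simp) h5 (fun h6 => hne (by rw [h6]))) h4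
  · rw [h.rep.vo r ho, h.out_vα ho]
    have hr' : S.real r = true := by rw [← h.rep.ro r ho]; exact hr
    have hin : InC S (g b) r :=
      (sc_inC hS hW hz hs').1 ((inb_iff h.rep.e h.rep.G hb hi).2 hib)
    obtain ⟨o1, o2⟩ := inC_off hS hW hz hr' hin
    constructor
    · rintro ⟨h4, -⟩
      rcases hky with h5 | h5
      · obtain ⟨j, hj, hj'⟩ := h.hX _ h5 r h4
        exact ho j hj hj'
      · exact o1 (h4 ▸ h5)
    · rintro ⟨-, h4⟩
      rcases hky with h5 | h5
      · obtain ⟨j, hj, hj'⟩ := h.hX _ h5 _ h4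
        have ha : P.α j = j := by
          by_contra hne
          have h6 := h.rep.e.hα j hj hne
          rw [hj', S.M.αα] at h6
          exact ho _ (h.rep.G.αlt j hj) h6.symm
        have r1 := (OD.stat1 h.stat hj).ring ha
        have hrj : P.real j = true := by
          rw [← h.rep.e.hr j hj, hj', hW.real_α]; exact hr'
        have r2 := ((OD.stat1 h.stat hj).r hrj).1
        refine h.hgd _ h5 _ r1.2.2.2.1 r2 ?_
        rw [← h.rep.e.hl j hj, hj']
        exact h4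
      · exact o2 (h4 ▸ h5)

end outer

end Pool.FC7
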