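import Pool.Agent.FC7.WfE

/-! # Facts without replacement given by words: the tables and their check -/

open Finset

set_option linter.unusedSectionVars false

namespace Pool.FC7

open Pool.FC6 Pool.FC6.St

/-- a fact without replacement with spokes: `PT` is the patch of all centres, `F.P` its restriction to
the deleted ones; `rd a`: a real dart of `F.P` at the label `a < F.X.x + F.X.k`, a virtual spoke with
the head `a` otherwise; `dq`: pairs of spokes with different heads -/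
structure WR extends Wt where
  F : Fr
  PT : Pa
  rd : ℕ → ℕ
  dq : List (ℕ × ℕ)

namespace WR

variable (W : WR)

/-- the number of alive labels -/
def m : ℕ := W.F.X.x + W.F.X.k

/-- the label of the head of a spoke -/
def hl (j : ℕ) : ℕ := W.PT.l (W.Z.Q.nf 1 j)

/-- surely different labels -/
def dis (a b : ℕ) : Bool :=
  decide (a ≠ b) && (W.Z.Q.cx a || W.Z.Q.cx b ||
    (decide (a < W.m) != decide (b < W.m)) ||
    W.dq.any fun q => (decide (W.hl q.1 = a) && decide (W.hl q.2 = b)) ||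
      (decide (W.hl q.1 = b) && decide (W.hl q.2 = a)))

/-- the label `b` is a hub, surely different from the other labels -/
def hub (b : ℕ) : Bool :=
  decide (W.m ≤ b) && decide (b < W.F.nl) && allN W.F.nl fun a => decide (a = b) || W.dis a b

/-- the class of the face of the dart `i` -/
def fcl (i : ℕ) : ℕ := W.fc (W.Z.Q.rk i) (W.Z.Q.rj i)

/-- the face of the dart `i` has units -/
def rqf (i : ℕ) : Bool := decide (W.fcl i = 1) || decide (W.fcl i = 2) ||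
  (W.ac (W.Z.ca (W.Z.Q.rj i)) && decide (wa (W.fl (W.Z.Q.rk i) (W.Z.Q.rj i)) ≠ 0))

/-- the label of the hub of the triangle -/
def hd (i : ℕ) : ℕ := if W.m ≤ W.F.P.l i then W.F.P.l i
  else if W.m ≤ W.F.P.l (W.F.P.φ i) then W.F.P.l (W.F.P.φ i)
  else W.F.P.l (W.F.P.φ (W.F.P.φ i))

/-- the face of `i` is a solid triangle, not the one of `j` -/
def fd1 (i j : ℕ) : Bool :=
  W.F.P.real i && W.F.P.real (W.F.P.φ i) && W.F.P.real j &&
    decide (j ≠ i) && decide (j ≠ W.F.P.φ i) && decide (j ≠ W.F.P.φ (W.F.P.φ i))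

/-- different faces -/
def fd (i j : ℕ) : Bool :=
  W.fd1 i j || W.fd1 j i ||
  (decide (W.m ≤ W.hd i) && decide (W.m ≤ W.hd j) && W.dis (W.hd i) (W.hd j))

/-- the labels -/
def chkA : Bool :=
  rstr W.F.P W.PT && allN W.F.X.x (fun a => W.Z.Q.cx a) &&
  allN W.PT.n (fun i => decide (i < W.F.P.n) || decide (W.F.X.x ≤ W.PT.l i)) &&
  allN W.F.nl (fun a => if a < W.m then decide (W.rd a < W.F.P.n) &&
      decide (W.F.P.l (W.rd a) = a) && W.F.P.real (W.rd a)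
    else decide (W.rd a < W.Z.Q.ns) && !W.Z.Q.rl (W.rd a) && W.ac (W.Z.ca (W.rd a)) &&
      decide (W.hl (W.rd a) = a)) &&
  decide (W.m ≤ W.F.nl) && W.F.P.good &&
  W.dq.all (fun q => decide (q.1 < W.Z.Q.ns) && decide (q.2 < W.Z.Q.ns)) &&
  allN W.F.P.n (fun i => decide (W.F.P.l i < W.F.nl)) &&
  allN W.m (fun a => allN W.m fun b => !W.F.ne a b || W.dis a b)

/-- the darts -/
def chkD : Bool :=
  allN W.F.P.n fun i =>
    (W.F.lu i || (!W.lun (W.Z.Q.rk i) (W.Z.Q.rj i) &&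
      (W.F.lb i == W.lb (W.Z.Q.rk i) (W.Z.Q.rj i)))) &&
    (!W.F.nu i || (W.kn (W.Z.Q.rk i) (W.Z.Q.rj i) &&
      decide (W.un (W.Z.Q.rk i) (W.Z.Q.rj i) = 0))) &&
    (!W.F.rq i || (W.rqf i && (W.F.lab || W.fd W.F.dr i))) &&
    (decide (W.F.P.α i ≠ i) || !W.F.lb i || W.F.lu i || allN W.F.P.n fun j => !W.F.P.real j ||
      W.dis (W.F.P.l j) (W.F.P.l (W.F.P.φ i)) || W.dis (W.F.P.l (W.F.P.φ j)) (W.F.P.l i))

/-- the dropped requirement -/
def chkF : Bool :=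
  decide (W.F.dr < W.F.P.n) &&
  (if W.F.lab then W.F.lb W.F.dr && !W.F.lu W.F.dr else W.rqf W.F.dr)

/-- the arcs which are surely active -/
def chkP : Bool :=
  W.F.X.ar.all fun p => !W.F.X.sp p.1 || (decide (p.1 < W.F.P.n) && decide (p.2 < W.F.P.n) &&
    decide (W.F.P.α p.1 = p.1) && ((W.F.P.real p.1 && decide (p.1 = p.2)) ||
      (!W.F.P.real p.1 && W.hub (W.F.P.l (W.F.P.φ p.1)) &&
      allN W.F.P.n fun j => decide (W.F.P.α j ≠ j) || decide (W.F.P.l j ≠ W.F.P.l (W.F.P.φ p.1)) ||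
        decide (j = p.2))))

/-- the check of the tables -/
def chk : Bool :=
  W.Z.chk W.PT && W.ok && W.chkA && W.chkD && W.chkF && W.chkP

end WR

/-- the check as propositions -/
structure WR.Ck (W : WR) : Prop where
  Z : W.Z.Ck W.PT
  ok : W.ok = true
  g : W.F.P.Good
  rs : rstr W.F.P W.PT = true
  cx : ∀ a < W.F.X.x, W.Z.Q.cx a = true
  ce : ∀ i < W.PT.n, i < W.F.P.n ∨ W.F.X.x ≤ W.PT.l i
  r1 : ∀ a < W.m, W.rd a < W.F.P.n ∧ W.F.P.l (W.rd a) = a ∧ W.F.P.real (W.rd a) = true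
  r2 : ∀ a, W.m ≤ a → a < W.F.nl → W.rd a < W.Z.Q.ns ∧ W.Z.Q.rl (W.rd a) = false ∧
    W.ac (W.Z.ca (W.rd a)) = true ∧ W.hl (W.rd a) = a
  ml : W.m ≤ W.F.nl
  dl : ∀ q ∈ W.dq, q.1 < W.Z.Q.ns ∧ q.2 < W.Z.Q.ns
  s2 : ∀ i < W.F.P.n, W.F.P.l i < W.F.nl
  ne : ∀ a < W.m, ∀ b < W.m, W.F.ne a b = true → W.dis a b = true
  lb : ∀ i < W.F.P.n, W.F.lu i = false → W.lun (W.Z.Q.rk i) (W.Z.Q.rj i) = false ∧
    W.F.lb i = W.lb (W.Z.Q.rk i) (W.Z.Q.rj i)
  nu : ∀ i < W.F.P.n, W.F.nu i = true → W.kn (W.Z.Q.rk i) (W.Z.Q.rj i) = true ∧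
    W.un (W.Z.Q.rk i) (W.Z.Q.rj i) = 0
  rq : ∀ i < W.F.P.n, W.F.rq i = true → W.rqf i = true ∧
    (W.F.lab = true ∨ W.fd W.F.dr i = true)
  ho : ∀ i < W.F.P.n, W.F.P.α i = i → W.F.lb i = true → W.F.lu i = false →
    ∀ j < W.F.P.n, W.F.P.real j = false ∨
    W.dis (W.F.P.l j) (W.F.P.l (W.F.P.φ i)) = true ∨
      W.dis (W.F.P.l (W.F.P.φ j)) (W.F.P.l i) = true
  dr : W.F.dr < W.F.P.n
  dL : W.F.lab = true → W.F.lb W.F.dr = true ∧ W.F.lu W.F.dr = false
  dF : W.F.lab = false → W.rqf W.F.dr = true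
  sp : ∀ p ∈ W.F.X.ar, W.F.X.sp p.1 = true → p.1 < W.F.P.n ∧ p.2 < W.F.P.n ∧
    W.F.P.α p.1 = p.1 ∧ ((W.F.P.real p.1 = true ∧ p.1 = p.2) ∨
      (W.F.P.real p.1 = false ∧ W.hub (W.F.P.l (W.F.P.φ p.1)) = true ∧
      ∀ j < W.F.P.n, W.F.P.α j = j → W.F.P.l j = W.F.P.l (W.F.P.φ p.1) → j = p.2))

theorem WR.ck {W : WR} (h : W.chk = true) : W.Ck := by
  unfold WR.chk at h
  simp only [Bool.and_eq_true] at h
  obtain ⟨⟨⟨⟨⟨h1, h2⟩, h3⟩, h4⟩, h5⟩, h6⟩ := h
  unfold WR.chkA at h3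
  simp only [Bool.and_eq_true, allN_iff, Bool.or_eq_true, decide_eq_true_eq, List.all_eq_true] at h3
  obtain ⟨⟨⟨⟨⟨⟨⟨⟨a1, a2⟩, a3⟩, a4⟩, a5⟩, a6⟩, a7⟩, a8⟩, a9⟩ := h3
  unfold WR.chkD at h4
  simp only [Bool.and_eq_true, allN_iff, Bool.or_eq_true, decide_eq_true_eq, beq_iff_eq,
    Bool.not_eq_true'] at h4
  unfold WR.chkF at h5
  rw [Bool.and_eq_true, decide_eq_true_eq] at h5
  unfold WR.chkP at h6
  simp only [Bool.and_eq_true, allN_iff, Bool.or_eq_true, decide_eq_true_eq, List.all_eq_true,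
    Bool.not_eq_true'] at h6
  refine ⟨Stars.chk_ck h1, h2, Pa.good_iff.1 a6, a1, a2, a3, fun a ha => ?_, fun a ha hb => ?_, a5,
    a7, a8, fun a ha b hb hab => ?_, fun i hi hl => ?_, fun i hi hn => ?_,
    fun i hi ho => ?_, fun i hi hα hl hu => ?_, h5.1, fun hl => ?_, fun hl => ?_,
    fun p hp hs => ?_⟩
  · have := a4 a (by omega)
    rw [if_pos ha] at this
    simpa [and_assoc] using this
  · have := a4 a hb
    rw [if_neg (by omega)] at this
    simpa [and_assoc] using this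
  · rcases a9 a ha b hb with h | h
    · rw [hab] at h; exact absurd h (by simp)
    · exact h
  · rcases (h4 i hi).1.1.1 with h | h
    · rw [hl] at h; exact absurd h (by simp)
    · exact h
  · rcases (h4 i hi).1.1.2 with h | h
    · rw [hn] at h; exact absurd h (by simp)
    · exact h
  · rcases (h4 i hi).1.2 with h | h
    · rw [ho] at h; exact absurd h (by simp)
    · exact h
  · rcases (h4 i hi).2 with ((h | h) | h) | h
    · exact absurd hα h
    · rw [hl] at h; exact absurd h (by simp)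
    · rw [hu] at h; exact absurd h (by simp)
    · intro j hj
      rcases h j hj with (h | h) | h
      · exact Or.inl h
      · exact Or.inr (Or.inl h)
      · exact Or.inr (Or.inr h)
  · have := h5.2
    rw [if_pos hl, Bool.and_eq_true, Bool.not_eq_true'] at this
    exact this
  · have := h5.2
    rwa [if_neg (by rw [hl]; simp)] at this
  · rcases h6 p hp with h | h
    · rw [hs] at h; exact absurd h (by simp)
    · refine ⟨h.1.1.1, h.1.1.2, h.1.2, ?_⟩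
      rcases h.2 with h | h
      · exact Or.inl h
      · refine Or.inr ⟨h.1.1, h.1.2, fun j hj hα hl => ?_⟩
        rcases h.2 j hj with (h | h) | h
        · exact absurd hα h
        · exact absurd hl h
        · exact h

variable {D V : Type} [Fintype D] [DecidableEq V] {Δ N R e : ℕ} {S : St D V} {L : D → Bool}
  {w : D → ℕ} {W : WR} {d f : ℕ → D} {g : ℕ → V}

/-- the words hold at the base darts -/
structure WR.Hy (W : WR) (S : St D V) (L : D → Bool) (d : ℕ → D) (f : ℕ → D) (g : ℕ → V) : Prop where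
  m : ∀ a < W.Z.nc, S.M.σ^[W.Z.m a] (d a) = d a
  inf : Info W.Z W.ac S L d W.lt
  cu : ∀ j < W.Z.Q.ns, W.clk j = true → (wb (W.lt j) = 1 ∨ wb (W.lt j) = 2) →
    S.u (S.M.α (W.Z.io S d j)) = W.cun j
  oo : ∀ j < W.Z.Q.ns, W.Z.Q.rl j = true →
    Oo (fu S (W.Z.io S d (W.Z.Q.ρ j))) (W.Z.Q.rl (W.Z.Q.ρ j)) (W.lt j)
  em : Em W.PT S f g
  nm : ∀ j < W.Z.Q.ns, ∀ k < 3, f (W.Z.Q.nf k j) = nmS S (W.Z.io S d) k j
  all : ∀ i < W.PT.n, W.Z.Q.cx (W.PT.l i) = true → ∀ x, S.M.v x = g (W.PT.l i) →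
    ∃ i' < W.PT.n, f i' = x
  dif : ∀ i < W.PT.n, W.Z.Q.cx (W.PT.l i) = true → ∀ i' < W.PT.n, W.PT.l i' ≠ W.PT.l i →
    g (W.PT.l i') ≠ g (W.PT.l i)
  dq : ∀ q ∈ W.dq, S.M.v (S.M.α (W.Z.io S d q.1)) ≠ S.M.v (S.M.α (W.Z.io S d q.2))

end Pool.FC7
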