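import Pool.Agent.FC7.WrA
import Pool.Agent.FC7.WfG

/-! # Facts without replacement given by words -/

open Finset

set_option linter.unusedSectionVars false

namespace Pool.FC7

open Pool.FC6 Pool.FC6.St

variable {D V : Type} [Fintype D] [DecidableEq V] {Δ N R e : ℕ} {S : St D V} {L : D → Bool}
  {w : D → ℕ} {W : WR} {d f : ℕ → D} {g : ℕ → V}

/-- everything which is known -/
structure WR.Cx (W : WR) (Δ : ℕ) (S : St D V) (L : D → Bool) (w : D → ℕ) (d f : ℕ → D)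
    (g : ℕ → V) : Prop where
  hS : IsStar S
  ok : Ok Δ S L w
  w1 : W1 L w
  C : W.Ck
  H : W.Hy S L d f g

/-- a face with units has a unit -/
theorem exists_unit {x : D} (h : 1 ≤ fu S x) : ∃ y, S.sc.r x y ∧ S.u y ≠ 0 := by
  classical
  by_contra hno
  push Not at hno
  unfold fu at h
  rw [Finset.sum_eq_zero] at h
  · omega
  · intro y _
    by_cases hs : S.sc.r x y
    · rw [if_pos hs]; exact hno y hs
    · rw [if_neg hs]

/-- the solid triangle of `x` does not contain the real dart `y` -/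
theorem sc_solid (hS : IsStar S) {x y : D} (h1 : S.real x = true) (h2 : S.real (S.M.φ x) = true)
    (h3 : S.real y = true) (n1 : y ≠ x) (n2 : y ≠ S.M.φ x) (n3 : y ≠ S.M.φ (S.M.φ x)) :
    ¬ S.sc.r x y := by
  classical
  intro h
  have h4 : y ∈ rds S x := by rw [mem_rds]; exact ⟨h3, h⟩
  rw [rds_solid hS h1 h2, Finset.mem_insert, Finset.mem_insert, Finset.mem_singleton] at h4
  rcases h4 with h4 | h4 | h4
  · exact n1 h4
  · exact n2 h4
  · exact n3 h4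

namespace WR.Cx

variable (X : W.Cx Δ S L w d f g)

include X

theorem ρ {j : ℕ} (hj : j < W.Z.Q.ns) : S.M.σ (W.Z.io S d j) = W.Z.io S d (W.Z.Q.ρ j) :=
  Stars.io_ρ X.C.Z X.H.m hj

theorem eP : Em W.F.P S f g := Em.restrict X.H.em X.C.rs

theorem nP : W.F.P.n ≤ W.PT.n := by
  have := X.C.rs
  simp only [rstr, Bool.and_eq_true, decide_eq_true_eq] at this
  exact this.1

theorem lP {i : ℕ} (hi : i < W.F.P.n) : W.F.P.l i = W.PT.l i := by
  have := X.C.rs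
  simp only [rstr, Bool.and_eq_true, decide_eq_true_eq, allN_iff, Bool.or_eq_true,
    beq_iff_eq] at this
  exact (this.2 i hi).1.2

/-- the names of the darts -/
theorem nm {i : ℕ} (hi : i < W.F.P.n) : W.Z.Q.rk i < 3 ∧ W.Z.Q.rj i < W.Z.Q.ns ∧
    f i = nmS S (W.Z.io S d) (W.Z.Q.rk i) (W.Z.Q.rj i) := by
  have h := X.nP
  have hC := X.C.Z.Q
  have h1 := hC.k3 i (by omega)
  have h2 := hC.rjlt i (by omega)
  refine ⟨h1, h2, ?_⟩
  rw [← X.H.nm _ h2 _ h1, hC.nfr i (by omega)]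

theorem hh {j : ℕ} (hj : j < W.Z.Q.ns) : g (W.hl j) = S.M.v (S.M.α (W.Z.io S d j)) := by
  unfold WR.hl
  rw [← X.H.em.hl _ (X.C.Z.Q.nflt j hj 1 (by norm_num)), X.H.nm j hj 1 (by norm_num)]
  rfl

theorem occ {a : ℕ} (ha : a < W.F.nl) : ∃ i < W.PT.n, W.PT.l i = a := by
  by_cases h : a < W.m
  · obtain ⟨h1, h2, h3⟩ := X.C.r1 a h
    have := X.nP
    exact ⟨W.rd a, by omega, by rw [← X.lP h1]; exact h2⟩
  · obtain ⟨h1, h2, h4, h3⟩ := X.C.r2 a (by omega) ha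
    exact ⟨_, X.C.Z.Q.nflt _ h1 1 (by norm_num), h3⟩

theorem alive {a : ℕ} (ha : a < W.m) : g a ∈ S.A := by
  obtain ⟨h1, h2, h3⟩ := X.C.r1 a ha
  have h4 := X.eP.hl _ h1
  rw [h2] at h4
  rw [← h4]
  exact X.ok.real_A _ (by rw [X.eP.hr _ h1]; exact h3)

theorem dead {a : ℕ} (ha : W.m ≤ a) (hb : a < W.F.nl) : g a ∉ S.A := by
  obtain ⟨h1, h2, h4, h3⟩ := X.C.r2 a ha hb
  rw [← h3, X.hh h1]
  rcases X.hS.virt X.ok.toWf (by rw [X.H.inf.rl _ h1]; exact h2) with ⟨_, _, k, _⟩ | ⟨_, _, k, _⟩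
  · exact absurd (X.H.inf.al _ h1 h4) k
  · exact k

theorem cenx {a b : ℕ} (hc : W.Z.Q.cx a = true) (ha : a < W.F.nl) (hb : b < W.F.nl)
    (hab : b ≠ a) : g b ≠ g a := by
  obtain ⟨i, h1, h2⟩ := X.occ ha
  obtain ⟨i', h3, h4⟩ := X.occ hb
  have := X.H.dif i h1 (by rw [h2]; exact hc) i' h3 (by rw [h2, h4]; exact hab)
  rwa [h2, h4] at this

theorem dis {a b : ℕ} (ha : a < W.F.nl) (hb : b < W.F.nl) (h : W.dis a b = true) : g a ≠ g b := by
  unfold WR.dis at h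
  simp only [Bool.and_eq_true, Bool.or_eq_true, decide_eq_true_eq, List.any_eq_true,
    bne_iff_ne] at h
  obtain ⟨h0, ((h | h) | h) | ⟨q, hq, h⟩⟩ := h
  · exact (X.cenx h ha hb (Ne.symm h0)).symm
  · exact X.cenx h hb ha h0
  · intro he
    by_cases h1 : a < W.m
    · have h2 : ¬ b < W.m := fun h2 => h (by simp [h1, h2])
      exact X.dead (not_lt.1 h2) hb (he ▸ X.alive h1)
    · have h2 : b < W.m := by
        by_contra h2
        exact h (by simp [h1, h2])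
      exact X.dead (not_lt.1 h1) ha (he ▸ X.alive h2)
  · have hl := X.C.dl q hq
    have := X.H.dq q hq
    rw [← X.hh hl.1, ← X.hh hl.2] at this
    rcases h with ⟨h1, h2⟩ | ⟨h1, h2⟩
    · rwa [h1, h2] at this
    · rw [h1, h2] at this
      exact this.symm

theorem lnl {i : ℕ} (hi : i < W.F.P.n) : W.F.P.l i < W.F.nl := X.C.s2 i hi

theorem hub {b : ℕ} (h : W.hub b = true) : g b ∉ S.A ∧ ∀ j < W.F.P.n, g (W.F.P.l j) = g b →
    W.F.P.l j = b := by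
  unfold WR.hub at h
  simp only [Bool.and_eq_true, Bool.or_eq_true, decide_eq_true_eq, allN_iff] at h
  refine ⟨X.dead h.1.1 h.1.2, fun j hj hg => ?_⟩
  rcases h.2 _ (X.lnl hj) with h1 | h1
  · exact h1
  · exact absurd hg (X.dis (X.lnl hj) h.1.2 h1)

theorem nm2 {i : ℕ} (hi : i < W.F.P.n) (h : W.Z.Q.rk i = 2) :
    W.ac (W.Z.ca (W.Z.Q.rj i)) = true := by
  have hn := X.nP
  exact Wt.nm2 X.hS X.ok.toWf X.C.Z X.C.ok (fun j hj => X.ρ hj) X.H.inf
    (show i < W.PT.n by omega) h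

/-- the units -/
theorem un {i : ℕ} (hi : i < W.F.P.n) (hk : W.kn (W.Z.Q.rk i) (W.Z.Q.rj i) = true) :
    S.u (f i) = W.un (W.Z.Q.rk i) (W.Z.Q.rj i) := by
  obtain ⟨h1, h2, h3⟩ := X.nm hi
  rw [h3]
  exact Wt.u_nm X.hS X.ok.toWf X.C.Z X.C.ok (fun j hj => X.ρ hj) X.H.inf X.H.cu h2 h1
    (X.nm2 hi) hk

theorem fc {i : ℕ} (hi : i < W.F.P.n) : FB (fu S (f i)) (W.fcl i) := by
  obtain ⟨h1, h2, h3⟩ := X.nm hi
  rw [h3]
  exact Wt.f_nm X.hS X.ok.toWf X.C.Z X.C.ok (fun j hj => X.ρ hj) X.H.inf X.H.oo h2 h1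

theorem fc1 {i : ℕ} (hi : i < W.F.P.n) (h : W.rqf i = true) :
    ∃ y, S.sc.r (f i) y ∧ S.u y ≠ 0 := by
  have h1 := X.fc hi
  unfold WR.rqf at h
  rw [Bool.or_eq_true, Bool.or_eq_true, Bool.and_eq_true, decide_eq_true_eq, decide_eq_true_eq,
    decide_eq_true_eq] at h
  rcases h with (h | h) | h
  · exact exists_unit (h1.1 h).1
  · exact exists_unit (le_trans (by norm_num) (h1.2.1 h))
  · obtain ⟨h2, h3, h4⟩ := X.nm hi
    have h5 := Wt.fa_nm X.hS X.ok.toWf X.C.Z X.C.ok (fun j hj => X.ρ hj) X.H.inf h3 h2 h.1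
    rw [← h4] at h5
    exact exists_unit (by have := h.2; omega)

theorem lb {i : ℕ} (hi : i < W.F.P.n) (hl : W.F.lu i = false) : L (f i) = W.F.lb i := by
  obtain ⟨h1, h2, h3⟩ := X.nm hi
  obtain ⟨h4, h5⟩ := X.C.lb i hi hl
  rw [h3, h5]
  exact Wt.l_nm X.hS X.ok.toWf X.C.Z X.C.ok (fun j hj => X.ρ hj) X.H.inf h2 h1 (X.nm2 hi) h4

theorem star {a : ℕ} (ha : a < W.F.X.x) {x : D} (hx : S.M.v x = g a) : ∃ i < W.F.P.n, f i = x := by
  obtain ⟨i, h1, h2⟩ := X.occ (a := a) (by have := X.C.ml; unfold WR.m at this; omega)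
  obtain ⟨i', h3, h4⟩ := X.H.all i h1 (by rw [h2]; exact X.C.cx a ha) x (by rw [h2]; exact hx)
  rcases X.C.ce i' h3 with h5 | h5
  · exact ⟨i', h5, h4⟩
  · exfalso
    have h6 := X.H.dif i h1 (by rw [h2]; exact X.C.cx a ha) i' h3 (by rw [h2]; omega)
    apply h6
    rw [h2, ← hx, ← h4, X.H.em.hl i' h3]

theorem fd1 {i j : ℕ} (hi : i < W.F.P.n) (hj : j < W.F.P.n) (h : W.fd1 i j = true) :
    ¬ S.sc.r (f i) (f j) := by
  have e := X.eP
  have G := X.C.g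
  unfold WR.fd1 at h
  simp only [Bool.and_eq_true, decide_eq_true_eq] at h
  obtain ⟨⟨⟨⟨⟨h1, h2⟩, h3⟩, h4⟩, h5⟩, h6⟩ := h
  have p1 := G.φlt i hi
  have p2 := G.φlt _ p1
  refine sc_solid X.hS (by rw [e.hr i hi]; exact h1) ?_ (by rw [e.hr j hj]; exact h3) ?_ ?_ ?_
  · rw [e.hφ i hi, e.hr _ p1]; exact h2
  · exact fun hh => h4 (e.inj j hj i hi hh)
  · rw [e.hφ i hi]
    exact fun hh => h5 (e.inj j hj _ p1 hh)
  · rw [e.hφ i hi, e.hφ _ p1]
    exact fun hh => h6 (e.inj j hj _ p2 hh)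

/-- a dart of the triangle with the hub -/
theorem hdv {i : ℕ} (hi : i < W.F.P.n) (h : W.m ≤ W.hd i) : ∃ x, S.sc.r (f i) x ∧
    S.M.v x = g (W.hd i) ∧ g (W.hd i) ∉ S.A ∧ W.hd i < W.F.nl ∧
    ∃ y, S.sc.r (f i) y ∧ y = f i := by
  have e := X.eP
  have G := X.C.g
  have p1 := G.φlt i hi
  have p2 := G.φlt _ p1
  have key : ∃ j < W.F.P.n, W.hd i = W.F.P.l j ∧ S.sc.r (f i) (f j) := by
    unfold WR.hd
    split_ifs with h1 h2
    · exact ⟨i, hi, rfl, S.sc.iseqv.refl _⟩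
    · refine ⟨_, p1, rfl, ?_⟩
      rw [← e.hφ i hi]
      exact (scφ _ _).2 (S.sc.iseqv.refl _)
    · refine ⟨_, p2, rfl, ?_⟩
      rw [← e.hφ _ p1, ← e.hφ i hi]
      exact (scφ _ _).2 ((scφ _ _).2 (S.sc.iseqv.refl _))
  obtain ⟨j, hj, h1, h2⟩ := key
  have h3 := X.lnl hj
  rw [← h1] at h3
  exact ⟨f j, h2, by rw [h1, e.hl j hj], X.dead h h3, h3, _, S.sc.iseqv.refl _, rfl⟩

/-- the vertices of a triangle in the class of a dead centre -/
theorem fdh {x y : D} (hx : S.M.v x ∉ S.A) (hy : S.M.v y ∉ S.A) (h : S.sc.r x y) :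
    S.M.v x = S.M.v y := by
  rcases (X.hS.sc_star X.ok.toWf hx y).1 h with h1 | h1 | h1
  · exact h1.symm
  · exfalso
    have h2 := X.hS.alivev X.ok.toWf hy
    rw [← S.M.vφ, h1] at h2
    exact hx h2
  · exfalso
    have h2 := (X.hS.φdead X.ok.toWf hy).2.1
    have h3 : S.M.v (S.M.α (S.M.φ y)) ∈ S.A :=
      X.ok.real_A _ (by rw [X.ok.real_α]; exact h2)
    rw [← S.M.vφ, h1] at h3
    exact hx h3

theorem fd {i j : ℕ} (hi : i < W.F.P.n) (hj : j < W.F.P.n) (h : W.fd i j = true) :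
    ¬ S.sc.r (f i) (f j) := by
  unfold WR.fd at h
  simp only [Bool.and_eq_true, Bool.or_eq_true, decide_eq_true_eq] at h
  rcases h with (h | h) | ⟨⟨h1, h2⟩, h3⟩
  · exact X.fd1 hi hj h
  · exact fun hh => X.fd1 hj hi h (S.sc.iseqv.symm hh)
  · intro hh
    obtain ⟨x, x1, x2, x3, x4, -⟩ := X.hdv hi h1
    obtain ⟨y, y1, y2, y3, y4, -⟩ := X.hdv hj h2
    refine X.dis x4 y4 h3 ?_
    rw [← x2, ← y2]
    exact X.fdh (by rw [x2]; exact x3) (by rw [y2]; exact y3)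
      (S.sc.iseqv.trans (S.sc.iseqv.symm x1) (S.sc.iseqv.trans hh y1))

/-- THE EMBEDDING -/
theorem emb : EmbR W.F S L f g where
  e := X.eP
  hstar a ha x hx := X.star ha hx
  hA a ha := X.alive (by unfold WR.m; omega)
  nf a ha b hb hb' he := X.dead hb hb' (he ▸ X.alive (by unfold WR.m; omega))
  fA b hb hb' := X.dead hb hb'
  ne a ha b hb h := by
    have h1 : a < W.m := ha
    have h2 : b < W.m := hb
    have := X.C.ml
    exact X.dis (by omega) (by omega) (X.C.ne a h1 b h2 h)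
  nu i hi hn := by
    obtain ⟨h1, h2⟩ := X.C.nu i hi hn
    rw [X.un hi h1, h2]
  hL i hi hl := X.lb hi hl
  dF hl := X.fc1 X.C.dr (X.C.dF hl)
  dL hl := X.C.dL hl
  rq i hi hr := by
    obtain ⟨h1, h2⟩ := X.C.rq i hi hr
    refine ⟨X.fc1 hi h1, fun hl => ?_⟩
    rcases h2 with h2 | h2
    · rw [hl] at h2; exact absurd h2 (by simp)
    · exact X.fd X.C.dr hi h2
  ho i hi hα hl hu j hj hj' := by
    have e := X.eP
    have G := X.C.g
    have hri : S.real (f i) = true := X.ok.L_real _ (by rw [X.lb hi hu]; exact hl)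
    have hrj : W.F.P.real j = true := by
      rw [← e.hr j hj, hj', X.ok.real_α]; exact hri
    rcases X.C.ho i hi hα hl hu j hj with h3 | h3 | h3
    · rw [hrj] at h3; exact absurd h3 (by simp)
    · refine X.dis (X.lnl hj) (X.lnl (G.φlt i hi)) h3 ?_
      rw [← e.hl j hj, ← e.hl _ (G.φlt i hi), hj', ← e.hφ i hi, S.M.vφ]
    · refine X.dis (X.lnl (G.φlt j hj)) (X.lnl hi) h3 ?_
      rw [← e.hl i hi, ← e.hl _ (G.φlt j hj), ← e.hφ j hj, S.M.vφ, hj', S.M.αα]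
  sp c' p hp hs hc := by
    obtain ⟨h1, h2, h3, h4⟩ := X.C.sp p hp hs
    have e := X.eP
    have G := X.C.g
    left
    have hc' : c' (S.M.v (f p.1)) ≠ c' (S.M.v (S.M.α (f p.2))) := by
      rw [e.hl _ h1, ← S.M.vφ, e.hφ _ h2, e.hl _ (G.φlt _ h2)]
      exact hc
    rcases h4 with ⟨h4, h5⟩ | ⟨h4, h5, h6⟩
    · refine ⟨f p.1, ORel.refl _, fun j hj hne hj' => ?_, by rw [e.hr _ h1]; exact h4, ?_⟩
      · have hj : j < W.F.P.n := hj
        rw [e.inj j hj _ h1 hj'] at hne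
        exact hne h3
      · rw [← h5] at hc'
        exact hc'
    · obtain ⟨a1, a2⟩ := X.hub h5
      have hv : S.M.v (S.M.α (f p.1)) = g (W.F.P.l (W.F.P.φ p.1)) := by
        rw [← S.M.vφ, e.hφ _ h1, e.hl _ (G.φlt _ h1)]
      refine act_arc (P := W.F.P) e G X.hS X.ok.toWf h1 h3 h4
        (by rw [hv]; exact a1) (fun j hj hα hj' => ?_) hc'
      exact h6 j hj hα (a2 j hj (by rw [← e.hl j hj, hj', hv]))

end WR.Cx

/-- A FACT WITHOUT REPLACEMENT GIVEN BY WORDS -/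
theorem WR.no {W : WR} (hk : W.chk = true) (hF : W.F.chk = true) (hE : W.F.One)
    (he : e < 6072) (h : MM Δ N R e S L w) (hS : IsStar S) (H : W.Hy S L d f g) : False := by
  have X : W.Cx Δ S L w d f g := ⟨hS, h.ok, h.w1, WR.ck hk, H⟩
  exact h.r0 he hF hE X.emb

end Pool.FC7
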