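import Pool.Agent.FC7.ExN

/-! # The fast extension check: definitions

The cells of `P`, `P'` and the arcs are numbered; relations are bit matrices.  The search runs through
the outside relations of the arcs; a state is a list of classes of arcs with representatives, a matrix
of pairs of arcs which are known to be unrelated, the relation of the cells of `P'` and the list of
the joined arcs.  `Bool.rec y x b` is: if `b` then `x` else `y` (fast in the kernel). -/

set_option linter.unusedSectionVars false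

namespace Pool.FC7

open Pool.FC6

/-- a real inner edge: mask of the labels of its ends, its cells -/
structure FE where
  lm : ℕ
  i : ℕ
  j : ℕ
  qi : ℕ
  qj : ℕ
  bm : ℕ
deriving DecidableEq

/-- an arc: mask of the labels of its ends, real, surely active, number, cells in `P` and `P'` -/
structure FA where
  lm : ℕ
  r : Bool
  sp : Bool
  t : ℕ
  qt : ℕ
  bt : ℕ
  bq : ℕ
  i : ℕ
  qi : ℕ
  bi : ℕ
  i' : ℕ
  qi' : ℕ
  bi' : ℕ
  hb : ℕ
deriving DecidableEq

/-- a labelled real ring dart -/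
structure FL where
  lm : ℕ
  bi : ℕ
  bi' : ℕ
  qi' : ℕ
  s : Bool
  s' : Bool
deriving DecidableEq

/-- the tables of the fast check -/
structure XF where
  q : ℕ
  w : ℕ
  N : ℕ
  K : ℕ
  F : ℕ
  I : ℕ
  O : ℕ
  FK : ℕ
  x : ℕ
  es : List FE
  es' : List FE
  ars : List FA
  tj : ℕ
  hj : ℕ
  tj' : ℕ
  hj' : ℕ
  rq : List (ℕ × List ℕ)
  tt : ℕ
  tt' : ℕ
  hl : ℕ
  lr : List FL
  hi : ℕ → List ℕ

/-- the labels of the mask have the same colour -/
def ncl (c lm : ℕ) : Bool :=
  Bool.rec (motive := fun _ => _) (Nat.beq (Nat.land c lm) lm) true (Nat.beq (Nat.land c lm) 0)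

noncomputable def meR (K F c : ℕ) (l : List FE) : ℕ → ℕ :=
  List.rec (motive := fun _ => ℕ → ℕ) (fun R => R)
    (fun e _ ih R => Bool.rec (motive := fun _ => _) (ih (mr K F R e.i e.j e.qi e.qj)) (ih R) (ncl c e.lm)) l

noncomputable def meB (c : ℕ) (l : List FE) : ℕ → ℕ :=
  List.rec (motive := fun _ => ℕ → ℕ) (fun B => B)
    (fun e _ ih B => Bool.rec (motive := fun _ => _) (ih (Nat.lor B e.bm)) (ih B) (ncl c e.lm)) l

/-- all masks of the list meet `V` -/
noncomputable def meet (V : ℕ) (l : List ℕ) : Bool :=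
  List.rec (motive := fun _ => Bool) true
    (fun m _ ih => Bool.rec (motive := fun _ => _) ih false (Nat.beq (Nat.land m V) 0)) l

/-- a state: a list of classes and a list of pairs -/
abbrev KC := List (ℕ × FA) → ℕ → ℕ → List (FA × FA) → Bool

namespace XF

variable (X : XF)

/-- the transfer condition -/
def tra (K W Om : ℕ) : Bool :=
  (fun n' => Nat.beq (Nat.land n' (nz X.O X.FK X.tt W)) n') (Nat.land (nz X.O X.FK X.tt' K) Om)

/-- the transfer condition for the classes which are not visited -/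
noncomputable def un (V R' U R Om : ℕ) (l : List (ℕ × FA)) : Bool :=
  List.rec (motive := fun _ => Bool) true
    (fun c _ ih => Bool.rec (motive := fun _ => _) ih (Bool.rec (motive := fun _ => _) false ih (X.tra (row X.F R' c.2.qi') (Nat.lor U (row X.F R c.2.qi)) Om)) (Nat.beq (Nat.land c.2.bi' V) 0)) l

/-- merging of the pairs -/
noncomputable def mp (pp : List (FA × FA)) : ℕ → ℕ :=
  List.rec (motive := fun _ => ℕ → ℕ) (fun R => R)
    (fun p _ ih R => ih (mr X.K X.F R p.1.i p.2.i p.1.qi p.2.qi)) pp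

/-- the class of the marked cells -/
def vis (B R : ℕ) : ℕ :=
  Bool.rec (motive := fun _ => _) (row X.F R (Nat.mul X.q (Nat.log2 B))) 0 (Nat.beq B 0)

/-- the conditions for `P` -/
noncomputable def lf (V R' Om : ℕ) (cls : List (ℕ × FA)) (ex : List ℕ) (B R : ℕ) : Bool :=
  (fun U => Bool.rec (motive := fun _ => _) false (Bool.rec (motive := fun _ => _) false (Bool.rec (motive := fun _ => _) false (Bool.rec (motive := fun _ => _) false (Bool.rec (motive := fun _ => _) false (X.un V R' U R Om cls) (X.tra V U Om)) (Bool.rec (motive := fun _ => _) true (Nat.beq B 0) (Nat.beq V 0))) (meet U ex)) (Nat.beq (Nat.land (nz X.O X.FK X.tj U) X.hj) X.hj)) (Nat.beq (Nat.land B U) B)) (X.vis B R)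

noncomputable def leaf (c1 BA Om : ℕ) (ex : List ℕ) (V R' : ℕ) (cls : List (ℕ × FA))
    (pp : List (FA × FA)) (l : List ℕ) : Bool :=
  List.rec (motive := fun _ => Bool) false
    (fun ξ _ ih => Bool.rec (motive := fun _ => _) false (Bool.rec (motive := fun _ => _) ih true (X.lf V R' Om cls ex (Nat.lor (meB (Nat.add c1 ξ) X.es 0) BA)
        (X.mp pp (meR X.K X.F (Nat.add c1 ξ) X.es X.I)))) (Nat.beq (Nat.shiftRight ξ X.x) 0)) l

/-- the class of `a` is enlarged -/
noncomputable def absorb (IA IB : ℕ) (a : FA) (k : KC) (l : List (ℕ × FA)) :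
    List (ℕ × FA) → ℕ → ℕ → ℕ → List (FA × FA) → Bool :=
  List.rec (motive := fun _ => List (ℕ × FA) → ℕ → ℕ → ℕ → List (FA × FA) → Bool)
    (fun kp m Fb R' pp => k ((m, a) :: kp) Fb R' pp)
    (fun c _ ih kp m Fb R' pp =>
      Bool.rec (motive := fun _ => _) (ih kp (Nat.lor m c.1) Fb R' pp) (Bool.rec (motive := fun _ => _) (Bool.rec (motive := fun _ => _) (Bool.rec (motive := fun _ => _) true (ih kp (Nat.lor m c.1) (ctr X.K X.F Fb a.t c.2.t a.qt c.2.qt)
                (mr X.K X.F R' a.i' c.2.i' a.qi' c.2.qi') ((a, c.2) :: pp)) (Nat.beq (Nat.land (Nat.shiftRight Fb a.qt) c.2.bt) 0)) (ih (c :: kp) m Fb R' pp) (Nat.beq (Nat.land c.1 IB) c.1)) (ih (c :: kp) m Fb R' pp) (Nat.beq (Nat.land c.1 IA) 0)) (Nat.beq (Nat.land c.1 m) 0)) l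

/-- the arcs `a`, `b` are joined -/
noncomputable def join (k : KC) (cls : List (ℕ × FA)) (R' : ℕ) (pp : List (FA × FA))
    (a b : ℕ × FA) (Fb : ℕ) : Bool :=
  X.absorb (Bool.rec (motive := fun _ => _) (Nat.sub a.2.bt (Nat.mul 2 b.2.bt)) (Nat.sub b.2.bt (Nat.mul 2 a.2.bt)) (Nat.ble a.2.t b.2.t))
    (Bool.rec (motive := fun _ => _) (Nat.sub (Nat.mul 2 a.2.bt) b.2.bt) (Nat.sub (Nat.mul 2 b.2.bt) a.2.bt) (Nat.ble a.2.t b.2.t)) a.2 k cls [] (Nat.lor a.1 b.1)
    (ctr X.K X.F Fb a.2.t b.2.t a.2.qt b.2.qt)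
    (mr X.K X.F R' a.2.i' b.2.i' a.2.qi' b.2.qi') ((a.2, b.2) :: pp)

/-- all pairs with the first class `a` -/
noncomputable def inner (k : ℕ × FA → ℕ × FA → ℕ → Bool) (M : ℕ) (a : ℕ × FA)
    (cont : ℕ → Bool) (l : List (ℕ × FA)) : ℕ → Bool :=
  List.rec (motive := fun _ => ℕ → Bool) cont
    (fun b _ ih Fb => Bool.rec (motive := fun _ => _) (ih Fb) (Bool.rec (motive := fun _ => _) (ih Fb) (Bool.rec (motive := fun _ => _) false (ih (Nat.lor Fb (Nat.lor (Nat.mul a.2.bq b.2.bt) (Nat.mul b.2.bq a.2.bt)))) (k a b Fb)) (Nat.beq (Nat.land (Nat.shiftRight Fb a.2.qt) b.2.bt) 0)) (Nat.beq (Nat.land b.2.bi' M) 0)) l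

/-- all pairs which leave `M` -/
noncomputable def outer (k : ℕ × FA → ℕ × FA → ℕ → Bool) (M : ℕ) (cls l : List (ℕ × FA)) :
    ℕ → Bool :=
  List.rec (motive := fun _ => ℕ → Bool) (fun _ => true)
    (fun a _ ih Fb => Bool.rec (motive := fun _ => _) (inner k M a ih cls Fb) (ih Fb) (Nat.beq (Nat.land a.2.bi' M) 0)) l

/-- the closure of a set of cells, given by a list of numbers `q t` -/
noncomputable def clo (R' : ℕ) (l : List ℕ) : ℕ :=
  List.rec (motive := fun _ => ℕ) 0 (fun t _ ih => Nat.lor (row X.F R' t) ih) l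

/-- the first requirement which is not met -/
noncomputable def unmet (V R' : ℕ) (k : ℕ → Bool) (d : Bool) (l : List (ℕ × List ℕ)) : Bool :=
  List.rec (motive := fun _ => Bool) d
    (fun m _ ih => Bool.rec (motive := fun _ => _) ih (k (X.clo R' m.2)) (Nat.beq (Nat.land m.1 V) 0)) l

/-- one state -/
noncomputable def step (B' : ℕ) (ex' : List (ℕ × List ℕ)) (lf : ℕ → ℕ → List (ℕ × FA) →
    List (FA × FA) → Bool) (k : KC) (cls : List (ℕ × FA)) (Fb R' : ℕ) (pp : List (FA × FA)) : Bool :=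
  (fun V => Bool.rec (motive := fun _ => _) (outer (X.join k cls R' pp) V cls cls Fb) (X.unmet V R' (fun M => outer (X.join k cls R' pp) M cls cls Fb)
        (Bool.rec (motive := fun _ => _) (X.unmet V R' (fun M => outer (X.join k cls R' pp) M cls cls Fb) false X.rq) (lf V R' cls pp) (Nat.beq (Nat.land (nz X.O X.FK X.tj' V) X.hj') X.hj')) ex') (Nat.beq (Nat.land B' V) B')) (X.vis B' R')

noncomputable def go (B' : ℕ) (ex' : List (ℕ × List ℕ)) (lf : ℕ → ℕ → List (ℕ × FA) →
    List (FA × FA) → Bool) (fuel : ℕ) : KC :=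
  Nat.rec (motive := fun _ => KC) (fun _ _ _ _ => false) (fun _ ih => X.step B' ex' lf ih) fuel

end XF

/-- noncrossing matchings -/
noncomputable def mt2 {α : Type} (k : List (α × α) → Bool) (l : List α) :
    List α → List (α × α) → Bool :=
  List.rec (motive := fun _ => List α → List (α × α) → Bool)
    (fun st prs => List.rec (motive := fun _ => Bool) (k prs) (fun _ _ _ => true) st)
    (fun i _ ih st prs => List.rec (motive := fun _ => Bool) (ih [i] prs)
      (fun t s _ => Bool.rec (motive := fun _ => _) false (ih s ((t, i) :: prs)) (ih (i :: t :: s) prs)) st) l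

namespace XF

variable (X : XF)

noncomputable def pcl (cls : List (ℕ × FA)) (prs : List (FA × FA)) : List (ℕ × FA) :=
  List.rec (motive := fun _ => List (ℕ × FA)) cls
    (fun p _ ih => (Nat.lor p.1.bt p.2.bt, p.1) :: ih) prs

noncomputable def pfb (Fb : ℕ) (prs : List (FA × FA)) : ℕ :=
  List.rec (motive := fun _ => ℕ) Fb (fun p _ ih => ctr X.K X.F ih p.1.t p.2.t p.1.qt p.2.qt) prs

noncomputable def prr (R' : ℕ) (prs : List (FA × FA)) : ℕ :=
  List.rec (motive := fun _ => ℕ) R' (fun p _ ih => mr X.K X.F ih p.1.i' p.2.i' p.1.qi' p.2.qi') prs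

/-- labelled ring darts -/
noncomputable def labs (c0 : ℕ) (k : List ℕ → List (ℕ × List ℕ) → Bool) (l : List FL) :
    List ℕ → List (ℕ × List ℕ) → Bool :=
  List.rec (motive := fun _ => List ℕ → List (ℕ × List ℕ) → Bool) k
    (fun e _ ih ex ex' => Bool.rec (motive := fun _ => _) (ih ex ex') (Bool.rec (motive := fun _ => _) (Bool.rec (motive := fun _ => _) (ih ex ex') (ih (e.bi :: ex) ex') (e.s)) (Bool.rec (motive := fun _ => _) false (ih (Bool.rec (motive := fun _ => _) ex (e.bi :: ex) (e.s))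
          ((e.bi', [e.qi']) :: ex')) (ih ex ex')) (e.s')) (ncl c0 e.lm)) l

/-- the continuation of `arcs`: classes, arcs with ends of different colours, masks of the active and
inactive arcs, marked cells, high bits of the open arcs -/
abbrev KA := List (ℕ × FA) → List FA → ℕ → ℕ → ℕ → ℕ → ℕ → ℕ → ℕ → Bool

/-- the arcs and their activity -/
noncomputable def arcs (c0 : ℕ) (k : KA) (l : List FA) : KA :=
  List.rec (motive := fun _ => KA) k
    (fun a _ ih cls od Am Aq Im Iq B' BA Om =>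
      Bool.rec (motive := fun _ => _) (Bool.rec (motive := fun _ => _) (Bool.rec (motive := fun _ => _) false (ih cls (a :: od) (Nat.lor Am a.bt) (Nat.lor Aq a.bq) Im Iq
              (Nat.lor B' a.bi') (Nat.lor BA a.bi) (Nat.lor Om a.hb)) (ih cls (a :: od) Am Aq (Nat.lor Im a.bt) (Nat.lor Iq a.bq) B' BA
              (Nat.lor Om a.hb))) (ih cls (a :: od) (Nat.lor Am a.bt) (Nat.lor Aq a.bq) Im Iq
              (Nat.lor B' a.bi') (Nat.lor BA a.bi) (Nat.lor Om a.hb)) (Bool.rec (motive := fun _ => _) (a.sp) true (a.r))) (Bool.rec (motive := fun _ => _) (Bool.rec (motive := fun _ => _) false (ih ((a.bt, a) :: cls) od (Nat.lor Am a.bt) (Nat.lor Aq a.bq) Im Iq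
              (Nat.lor B' a.bi') (Nat.lor BA a.bi) (Nat.lor Om a.hb)) (ih ((a.bt, a) :: cls) od Am Aq (Nat.lor Im a.bt) (Nat.lor Iq a.bq) B' BA
              (Nat.lor Om a.hb))) (ih cls od Am Aq Im Iq B' BA Om) (a.r)) (ncl c0 a.lm)) l

/-- the check for one colouring -/
noncomputable def one (c0 : ℕ) : Bool :=
  arcs c0 (fun cls od Am Aq Im Iq B' BA Om =>
    labs c0 (fun ex ex' => mt2 (fun prs =>
      X.go B' ex' (fun V R' cls pp => X.leaf (Nat.shiftLeft (Nat.shiftRight c0 X.x) X.x) BA Om ex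
          V R' cls pp (X.hi c0)) 20 (pcl cls prs)
        (X.pfb (Nat.lor (Nat.mul Aq Im) (Nat.mul Iq Am)) prs)
        (X.prr (meR X.K X.F c0 X.es' X.I) prs) prs) od [] []) X.lr [] [])
    X.ars [] [] 0 0 0 0 (meB c0 X.es' 0) 0 X.hl

end XF

end Pool.FC7
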