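import Pool.Agent.FC7.XF

/-! # The fast extension check: basic lemmas -/

set_option linter.unusedSectionVars false

namespace Pool.FC7

open Pool.FC6

theorem lor_eq (a b : ℕ) : Nat.lor a b = a ||| b := rfl
theorem land_eq (a b : ℕ) : Nat.land a b = a &&& b := rfl

theorem beq_true {a b : ℕ} : Nat.beq a b = true ↔ a = b := Nat.beq_eq ▸ Iff.rfl

theorem beq_false {a b : ℕ} : Nat.beq a b = false ↔ a ≠ b := by
  rw [Ne, ← beq_true, Bool.eq_false_iff]

theorem land_two_pow (c a : ℕ) : c &&& 2 ^ a = if c.testBit a = true then 2 ^ a else 0 := by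
  apply Nat.eq_of_testBit_eq
  intro i
  rw [Nat.testBit_and, Nat.testBit_two_pow]
  split_ifs with h
  · rw [Nat.testBit_two_pow]
    by_cases h1 : a = i
    · subst h1; rw [h]; simp
    · simp [h1]
  · rw [Nat.zero_testBit]
    by_cases h1 : a = i
    · subst h1
      rw [Bool.eq_false_iff.2 h]; rfl
    · simp [h1]

theorem ncl_eq (c a b : ℕ) : ncl c (2 ^ a ||| 2 ^ b) = !(c.testBit a != c.testBit b) := by
  have h2 : ∀ n : ℕ, 2 ^ n ≠ 0 := fun n => by positivity
  have ha : 2 ^ a ||| 2 ^ b ≠ 0 := by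
    intro h
    have := congrArg (fun n => n.testBit a) h
    simp [Nat.testBit_or] at this
  unfold ncl
  rw [bif_eq]
  show (if Nat.beq (c &&& (2 ^ a ||| 2 ^ b)) 0 = true then true else
    Nat.beq (c &&& (2 ^ a ||| 2 ^ b)) (2 ^ a ||| 2 ^ b)) = _
  rw [Nat.and_or_distrib_left, land_two_pow, land_two_pow]
  cases h3 : c.testBit a <;> cases h4 : c.testBit b
  · simp
  · have hab : a ≠ b := by rintro rfl; rw [h3] at h4; cases h4
    have e : Nat.beq (2 ^ b) (2 ^ a ||| 2 ^ b) = false := by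
      rw [beq_false]
      intro h
      have := congrArg (fun n => n.testBit a) h
      simp only [Nat.testBit_or, Nat.testBit_two_pow_self, Bool.true_or, Nat.testBit_two_pow] at this
      exact hab (by simpa using this.symm : b = a).symm
    have e2 : Nat.beq (2 ^ b) 0 = false := beq_false.2 (h2 b)
    simp [e, e2]
  · have hab : a ≠ b := by rintro rfl; rw [h3] at h4; cases h4
    have e : Nat.beq (2 ^ a) (2 ^ a ||| 2 ^ b) = false := by
      rw [beq_false]
      intro h
      have := congrArg (fun n => n.testBit b) h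
      simp only [Nat.testBit_or, Nat.testBit_two_pow_self, Bool.or_true, Nat.testBit_two_pow] at this
      exact hab (by simpa using this)
    have e2 : Nat.beq (2 ^ a) 0 = false := beq_false.2 (h2 a)
    simp [e, e2]
  · have e2 : Nat.beq (2 ^ a ||| 2 ^ b) 0 = false := beq_false.2 ha
    simp [e2]

/-- the edge `e` of the table has the cells `i`, `j` -/
structure FE.Ok (q : ℕ) (e : FE) : Prop where
  qi : e.qi = q * e.i
  qj : e.qj = q * e.j
  bm : e.bm = 2 ^ e.i ||| 2 ^ e.j

theorem meR_nil (K F c R : ℕ) : meR K F c [] R = R := rfl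

theorem meR_cons (K F c : ℕ) (e : FE) (l : List FE) (R : ℕ) : meR K F c (e :: l) R =
    if ncl c e.lm = true then meR K F c l R else meR K F c l (mr K F R e.i e.j e.qi e.qj) := by
  show (Bool.rec (motive := fun _ => _) (meR K F c l (mr K F R e.i e.j e.qi e.qj)) (meR K F c l R) (ncl c e.lm)) = _
  rw [bif_eq]

theorem meB_cons (c : ℕ) (e : FE) (l : List FE) (B : ℕ) : meB c (e :: l) B =
    if ncl c e.lm = true then meB c l B else meB c l (Nat.lor B e.bm) := by
  show (Bool.rec (motive := fun _ => _) (meB c l (Nat.lor B e.bm)) (meB c l B) (ncl c e.lm)) = _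
  rw [bif_eq]

/-- the relation contains the open edges -/
theorem meR_eqv {q w c : ℕ} (hq : 0 < q) (hw : w ≤ q) : ∀ (l : List FE) (R : ℕ),
    (∀ e ∈ l, e.Ok q ∧ e.i < w ∧ e.j < w) → Eqv q w R →
    Eqv q w (meR (Ks q w) (2 ^ q - 1) c l R) ∧
      (∀ s t, rb q R s t → rb q (meR (Ks q w) (2 ^ q - 1) c l R) s t) ∧
      ∀ e ∈ l, ncl c e.lm = false → rb q (meR (Ks q w) (2 ^ q - 1) c l R) e.i e.j
  | [], R, _, h => ⟨h, fun _ _ h => h, by simp⟩
  | e :: l, R, hl, h => by
    have hl' : ∀ e ∈ l, e.Ok q ∧ e.i < w ∧ e.j < w := fun e he => hl e (List.mem_cons_of_mem _ he)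
    obtain ⟨h1, h2, h3⟩ := hl e (by simp)
    rw [meR_cons]
    split_ifs with hc
    · obtain ⟨k1, k2, k3⟩ := meR_eqv hq hw l R hl' h
      refine ⟨k1, k2, fun e' he' hn => ?_⟩
      rcases List.mem_cons.1 he' with rfl | he'
      · rw [hc] at hn; cases hn
      · exact k3 e' he' hn
    · rw [h1.qi, h1.qj]
      obtain ⟨g1, g2, g3⟩ := h.mr hq hw h2 h3
      obtain ⟨k1, k2, k3⟩ := meR_eqv hq hw l _ hl' g1
      refine ⟨k1, fun s t hst => k2 s t (g2 s t hst), fun e' he' hn => ?_⟩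
      rcases List.mem_cons.1 he' with rfl | he'
      · exact k2 _ _ g3
      · exact k3 e' he' hn

/-- the relation is contained in `T` -/
theorem meR_sub {q w c : ℕ} {T : ℕ → ℕ → Prop} (hT : Equivalence T) (hq : 0 < q) (hw : w ≤ q) :
    ∀ (l : List FE) (R : ℕ), (∀ e ∈ l, e.Ok q ∧ e.i < w ∧ e.j < w) →
    (∀ e ∈ l, ncl c e.lm = false → T e.i e.j) → Sub q R T →
    Sub q (meR (Ks q w) (2 ^ q - 1) c l R) T
  | [], R, _, _, h => h
  | e :: l, R, hl, ht, h => by
    have hl' : ∀ e ∈ l, e.Ok q ∧ e.i < w ∧ e.j < w := fun e he => hl e (List.mem_cons_of_mem _ he)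
    have ht' : ∀ e ∈ l, ncl c e.lm = false → T e.i e.j := fun e he => ht e (List.mem_cons_of_mem _ he)
    obtain ⟨h1, h2, h3⟩ := hl e (by simp)
    rw [meR_cons]
    split_ifs with hc
    · exact meR_sub hT hq hw l R hl' ht' h
    · rw [h1.qi, h1.qj]
      exact meR_sub hT hq hw l _ hl' ht' (h.mr hT hq (by omega) (by omega)
        (ht e (by simp) (by simpa using hc)))

theorem meB_bit {q c t : ℕ} : ∀ (l : List FE) (B : ℕ), (∀ e ∈ l, e.Ok q) →
    ((meB c l B).testBit t = true ↔ B.testBit t = true ∨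
      ∃ e ∈ l, ncl c e.lm = false ∧ (t = e.i ∨ t = e.j))
  | [], B, _ => by
    show B.testBit t = true ↔ _
    simp
  | e :: l, B, hl => by
    have hl' : ∀ e ∈ l, e.Ok q := fun e he => hl e (List.mem_cons_of_mem _ he)
    rw [meB_cons]
    split_ifs with hc
    · rw [meB_bit l B hl']
      constructor
      · rintro (h | ⟨e', h1, h2⟩)
        · exact Or.inl h
        · exact Or.inr ⟨e', List.mem_cons_of_mem _ h1, h2⟩
      · rintro (h | ⟨e', h1, h2, h3⟩)
        · exact Or.inl h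
        · rcases List.mem_cons.1 h1 with rfl | h1
          · rw [hc] at h2; cases h2
          · exact Or.inr ⟨e', h1, h2, h3⟩
    · rw [meB_bit l _ hl', lor_eq, Nat.testBit_or, Bool.or_eq_true, (hl e (by simp)).bm, bit2]
      constructor
      · rintro ((h | h) | ⟨e', h1, h2⟩)
        · exact Or.inl h
        · exact Or.inr ⟨e, by simp, by simpa using hc, h.imp Eq.symm Eq.symm⟩
        · exact Or.inr ⟨e', List.mem_cons_of_mem _ h1, h2⟩
      · rintro (h | ⟨e', h1, h2, h3⟩)
        · exact Or.inl (Or.inl h)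
        · rcases List.mem_cons.1 h1 with rfl | h1
          · exact Or.inl (Or.inr (h3.imp Eq.symm Eq.symm))
          · exact Or.inr ⟨e', h1, h2, h3⟩

theorem meet_true {V : ℕ} : ∀ {l : List ℕ}, meet V l = true → ∀ m ∈ l, m &&& V ≠ 0
  | [], _, m, hm => by simp at hm
  | z :: l, h, m, hm => by
    have h' : (Bool.rec (motive := fun _ => _) (meet V l) false (Nat.beq (Nat.land z V) 0)) = true := h
    rcases bif_true h' with ⟨h1, h2⟩ | ⟨h1, h2⟩
    · cases h2
    · rcases List.mem_cons.1 hm with rfl | hm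
      · exact beq_false.1 h1
      · exact meet_true h2 m hm

/-! ### Tables -/

theorem Hs_bit {q n i : ℕ} (hq : 0 < q) : (2 ^ (q - 1) * Ks q n).testBit i = true ↔
    ∃ y < n, i = q * y + (q - 1) := by
  rw [Nat.mul_comm, Nat.testBit_mul_two_pow, Bool.and_eq_true, decide_eq_true_eq, Ks_bit hq]
  constructor
  · rintro ⟨h1, t, h2, h3⟩
    exact ⟨t, h2, by omega⟩
  · rintro ⟨y, h1, h2⟩
    exact ⟨by omega, y, h1, by omega⟩

/-- all masks of the table meet `V` -/
theorem all_meet {q N V : ℕ} (hq : 0 < q) (hV : V < 2 ^ q) {l : List ℕ}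
    (hl : ∀ m ∈ l, m < 2 ^ (q - 1)) (hn : l.length ≤ N)
    (h : Nat.beq (Nat.land (nz (Ks q N) (Fs q N) (Tb q l) V) (2 ^ (q - 1) * Ks q l.length))
      (2 ^ (q - 1) * Ks q l.length) = true) : ∀ m ∈ l, m &&& V ≠ 0 := by
  rw [beq_true, land_eq] at h
  intro m hm
  obtain ⟨y, hy, rfl⟩ := List.getElem_of_mem hm
  have h1 : (2 ^ (q - 1) * Ks q l.length).testBit (q * y + (q - 1)) = true :=
    (Hs_bit hq).2 ⟨y, hy, rfl⟩
  rw [← h, Nat.testBit_and, Bool.and_eq_true] at h1
  have := (nz_bit hq hV hl hn hy).1 h1.1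
  rwa [List.getD_eq_getElem _ _ hy] at this

/-- the transfer condition for the fields -/
theorem tra_bit {q N K W Om : ℕ} (hq : 0 < q) (hK : K < 2 ^ q) (hW : W < 2 ^ q) {l l' : List ℕ}
    (hl : ∀ m ∈ l, m < 2 ^ (q - 1)) (hl' : ∀ m ∈ l', m < 2 ^ (q - 1)) (hn : l.length ≤ N)
    (hn' : l'.length = l.length) {X : XF} (hO : X.O = Ks q N) (hF : X.FK = Fs q N)
    (ht : X.tt = Tb q l) (ht' : X.tt' = Tb q l') (h : X.tra K W Om = true) :
    ∀ y < l.length, Om.testBit (q * y + (q - 1)) = true → l'.getD y 0 &&& K ≠ 0 →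
      l.getD y 0 &&& W ≠ 0 := by
  intro y hy ho hk
  unfold XF.tra at h
  simp only at h
  rw [beq_true, land_eq, land_eq, hO, hF, ht, ht'] at h
  have h1 : ((nz (Ks q N) (Fs q N) (Tb q l') K) &&& Om).testBit (q * y + (q - 1)) = true := by
    rw [Nat.testBit_and, Bool.and_eq_true]
    exact ⟨(nz_bit hq hK hl' (by omega) (by omega)).2 hk, ho⟩
  rw [← h, Nat.testBit_and, Bool.and_eq_true] at h1
  exact (nz_bit hq hW hl hn hy).1 h1.2

end Pool.FC7
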