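import Pool.Agent.FC7.XFa

/-! # The fast extension check: tables and states -/

open Finset

set_option linter.unusedSectionVars false

namespace Pool.FC7

open Pool.FC6

def mkE (q : ℕ) (Q : Pa) (ce : ℕ → ℕ) (i : ℕ) : FE :=
  ⟨2 ^ Q.l i ||| 2 ^ Q.l (Q.φ i), ce i, ce (Q.α i), q * ce i, q * ce (Q.α i),
    2 ^ ce i ||| 2 ^ ce (Q.α i)⟩

def mkA (q : ℕ) (X : XE) (P : Pa) (t : ℕ) (p : ℕ × ℕ) : FA :=
  ⟨2 ^ P.l p.1 ||| 2 ^ P.l (P.φ p.2), P.real p.1, X.sp p.1, t, q * t, 2 ^ t, 2 ^ (q * t),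
    X.ce p.1, q * X.ce p.1, 2 ^ X.ce p.1, X.ce' p.1, q * X.ce' p.1, 2 ^ X.ce' p.1,
    2 ^ (q * (X.k + t) + (q - 1))⟩

def mkL (q : ℕ) (X : XE) (P : Pa) (z : ℕ × Bool × Bool) : FL :=
  ⟨2 ^ P.l z.1 ||| 2 ^ P.l (P.φ z.1), 2 ^ X.ce z.1, 2 ^ X.ce' z.1, q * X.ce' z.1, z.2.1, z.2.2⟩

/-- the positions of a mask -/
def ps (q w m : ℕ) : List ℕ := ((List.range w).filter fun t => m.testBit t).map (q * ·)

/-- the masks of the fields -/
def fst' (X : XE) : List ℕ := ((List.range X.k).map (fun a => X.st' (X.x + a)) ++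
  X.ar.map fun p => 2 ^ X.ce' p.1) ++ X.kd.map fun i => 2 ^ X.ce' i

def fst (X : XE) : List ℕ := ((List.range X.k).map (fun a => X.st (X.x + a)) ++
  X.ar.map fun p => 2 ^ X.ce p.1) ++ X.kd.map fun i => 2 ^ X.ce i

/-- the high bits of the fields of the labels and of the kept darts -/
def hlk (q : ℕ) (X : XE) : ℕ := 2 ^ (q - 1) * Ks q X.k +
  2 ^ (q * (X.k + X.ar.length)) * (2 ^ (q - 1) * Ks q X.kd.length)

/-- the tables are correct -/
def XF.ok (F : XF) (X : XE) (P P' : Pa) : Bool :=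
  decide (F.w < F.q) && decide (F.K = Ks F.q F.w) && decide (F.F = 2 ^ F.q - 1) &&
  decide (F.I = Is F.q F.w) && decide (F.O = Ks F.q F.N) && decide (F.FK = Fs F.q F.N) &&
  decide (F.x = X.x) && decide (F.es = X.es.map (mkE F.q P X.ce)) &&
  decide (F.es' = X.es'.map (mkE F.q P' X.ce')) &&
  decide (F.ars = (X.ar.mapIdx (mkA F.q X P)).reverse) && decide (X.ar.length ≤ F.w) &&
  allN P.n (fun i => decide (X.ce i < F.w) && decide (X.ce' i < F.w)) &&
  X.dj.all (fun m => decide (m < 2 ^ (F.q - 1))) && decide (X.dj.length ≤ F.N) &&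
  decide (F.tj = Tb F.q X.dj) && decide (F.hj = 2 ^ (F.q - 1) * Ks F.q X.dj.length) &&
  X.dj'.all (fun m => decide (m < 2 ^ (F.q - 1))) && decide (X.dj'.length ≤ F.N) &&
  decide (F.tj' = Tb F.q X.dj') && decide (F.hj' = 2 ^ (F.q - 1) * Ks F.q X.dj'.length) &&
  decide (F.rq = X.dj'.map fun m => (m, ps F.q F.w m)) &&
  (fst X).all (fun m => decide (m < 2 ^ (F.q - 1))) &&
  (fst' X).all (fun m => decide (m < 2 ^ (F.q - 1))) &&
  decide (X.k + X.ar.length + X.kd.length ≤ F.N) && X.kd.all (fun i => decide (i < P.n)) &&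
  decide (F.tt = Tb F.q (fst X)) && decide (F.tt' = Tb F.q (fst' X)) &&
  decide (F.hl = hlk F.q X) && decide (F.lr = X.lr.map (mkL F.q X P)) &&
  X.ringOk P && X.es.all (fun i => P.real i) && X.es'.all fun i => P'.real i

/-- the tables are correct -/
structure Lk (F : XF) (X : XE) (P P' : Pa) : Prop where
  hw : F.w < F.q
  hK : F.K = Ks F.q F.w
  hF : F.F = 2 ^ F.q - 1
  hI : F.I = Is F.q F.w
  hO : F.O = Ks F.q F.N
  hFK : F.FK = Fs F.q F.N
  hx : F.x = X.x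
  es : F.es = X.es.map (mkE F.q P X.ce)
  es' : F.es' = X.es'.map (mkE F.q P' X.ce')
  ars : F.ars = (X.ar.mapIdx (mkA F.q X P)).reverse
  al : X.ar.length ≤ F.w
  ce : ∀ i < P.n, X.ce i < F.w ∧ X.ce' i < F.w
  dj : ∀ m ∈ X.dj, m < 2 ^ (F.q - 1)
  djn : X.dj.length ≤ F.N
  tj : F.tj = Tb F.q X.dj
  hj : F.hj = 2 ^ (F.q - 1) * Ks F.q X.dj.length
  dj' : ∀ m ∈ X.dj', m < 2 ^ (F.q - 1)
  djn' : X.dj'.length ≤ F.N
  tj' : F.tj' = Tb F.q X.dj'
  hj' : F.hj' = 2 ^ (F.q - 1) * Ks F.q X.dj'.length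
  rq : F.rq = X.dj'.map fun m => (m, ps F.q F.w m)
  st : ∀ m ∈ fst X, m < 2 ^ (F.q - 1)
  st' : ∀ m ∈ fst' X, m < 2 ^ (F.q - 1)
  kn : X.k + X.ar.length + X.kd.length ≤ F.N
  kd : ∀ i ∈ X.kd, i < P.n
  tt : F.tt = Tb F.q (fst X)
  tt' : F.tt' = Tb F.q (fst' X)
  hl : F.hl = hlk F.q X
  lr : F.lr = X.lr.map (mkL F.q X P)
  ring : X.ringOk P = true
  er : ∀ i ∈ X.es, P.real i = true
  er' : ∀ i ∈ X.es', P'.real i = true

theorem XF.ok_lk {F : XF} {X : XE} {P P' : Pa} (h : F.ok X P P' = true) : Lk F X P P' := by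
  unfold XF.ok at h
  simp only [Bool.and_eq_true, decide_eq_true_eq, allN_iff, List.all_eq_true] at h
  obtain ⟨⟨⟨⟨⟨⟨⟨⟨⟨⟨⟨⟨⟨⟨⟨⟨⟨⟨⟨⟨⟨⟨⟨⟨⟨⟨⟨⟨⟨⟨⟨a1, a2⟩, a3⟩, a4⟩, a5⟩, a6⟩, a7⟩, a8⟩, a9⟩, a10⟩, a11⟩, a12⟩, a13⟩,
    a14⟩, a15⟩, a16⟩, a17⟩, a18⟩, a19⟩, a20⟩, a21⟩, a22⟩, a23⟩, a24⟩, a24k⟩, a25⟩, a26⟩, a27⟩, a28⟩, a29⟩, a30⟩, a31⟩ := h
  exact ⟨a1, a2, a3, a4, a5, a6, a7, a8, a9, a10, a11, a12, a13, a14, a15, a16, a17, a18, a19, a20,
    a21, a22, a23, a24, a24k, a25, a26, a27, a28, a29, a30, a31⟩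

/-- the dart of the arc -/
def dt (X : XE) (a : FA) : ℕ := (X.ar.getD a.t (0, 0)).1

/-- the data of an arc -/
structure Arc (q : ℕ) (X : XE) (P : Pa) (a : FA) : Prop where
  tl : a.t < X.ar.length
  p : ∃ p ∈ X.ar, p.1 = dt X a ∧ a.lm = 2 ^ P.l p.1 ||| 2 ^ P.l (P.φ p.2)
  r : a.r = P.real (dt X a)
  sp : a.sp = X.sp (dt X a)
  qt : a.qt = q * a.t
  bt : a.bt = 2 ^ a.t
  bq : a.bq = 2 ^ (q * a.t)
  i : a.i = X.ce (dt X a)
  qi : a.qi = q * a.i
  bi : a.bi = 2 ^ a.i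
  i' : a.i' = X.ce' (dt X a)
  qi' : a.qi' = q * a.i'
  bi' : a.bi' = 2 ^ a.i'
  hb : a.hb = 2 ^ (q * (X.k + a.t) + (q - 1))

variable {F : XF} {X : XE} {P P' : Pa}

theorem Lk.mem (L : Lk F X P P') {a : FA} : a ∈ F.ars ↔ ∃ (t : ℕ) (_ : t < X.ar.length),
    mkA F.q X P t X.ar[t] = a := by
  rw [L.ars, List.mem_reverse, List.mem_mapIdx]

theorem Lk.arc (L : Lk F X P P') {a : FA} (h : a ∈ F.ars) : Arc F.q X P a := by
  obtain ⟨t, ht, rfl⟩ := L.mem.1 h
  have e : X.ar.getD t (0, 0) = X.ar[t] := List.getD_eq_getElem _ _ ht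
  have e2 : dt X (mkA F.q X P t X.ar[t]) = (X.ar[t]).1 := by
    unfold dt
    show (X.ar.getD t (0, 0)).1 = _
    rw [e]
  exact ⟨ht, ⟨X.ar[t], List.getElem_mem ht, e2.symm, rfl⟩, by rw [e2]; rfl, by rw [e2]; rfl, rfl, rfl,
    rfl, by rw [e2]; rfl, rfl, rfl, by rw [e2]; rfl, rfl, rfl, rfl⟩

theorem Lk.arc_inj (L : Lk F X P P') {a b : FA} (ha : a ∈ F.ars) (hb : b ∈ F.ars) (h : a.t = b.t) :
    a = b := by
  obtain ⟨t, ht, rfl⟩ := L.mem.1 ha
  obtain ⟨s, hs, rfl⟩ := L.mem.1 hb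
  have h' : t = s := h
  subst h'
  rfl

theorem Lk.hq (L : Lk F X P P') : 0 < F.q := by
  have := L.hw; omega

theorem Lk.tq (L : Lk F X P P') {a : FA} (ha : a ∈ F.ars) : a.t < F.q := by
  have h1 := (L.arc ha).tl
  have h2 := L.al
  have := L.hw
  omega

theorem Arc.mem {q : ℕ} {a : FA} (h : Arc q X P a) : dt X a ∈ X.as := by
  unfold dt
  rw [List.getD_eq_getElem _ _ h.tl]
  exact List.mem_map.2 ⟨_, List.getElem_mem h.tl, rfl⟩

theorem Lk.of_mem (L : Lk F X P P') {i : ℕ} (hi : i ∈ X.as) : ∃ a ∈ F.ars, dt X a = i := by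
  obtain ⟨p, hp, rfl⟩ := List.mem_map.1 hi
  obtain ⟨t, ht, rfl⟩ := List.getElem_of_mem hp
  refine ⟨mkA F.q X P t X.ar[t], L.mem.2 ⟨t, ht, rfl⟩, ?_⟩
  unfold dt
  show (X.ar.getD t (0, 0)).1 = _
  rw [List.getD_eq_getElem _ _ ht]

variable {D V : Type} [Fintype D] [DecidableEq V]
variable {S S' : St D V} {f : ℕ → D} {g : ℕ → V} {c' : V → Bool} {c0 : ℕ}

/-- open arcs -/
def OA (F : XF) (X : XE) (P' : Pa) (c0 : ℕ) (a : FA) : Prop :=
  a ∈ F.ars ∧ P'.op c0 (dt X a) = true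

/-- the outside relation of the arcs -/
def RQ (S : St D V) (P : Pa) (f : ℕ → D) (X : XE) (c' : V → Bool) (a b : FA) : Prop :=
  Rr S P f X c' (dt X a) (dt X b)

/-- the matrix of unrelated arcs -/
def FbOk (S : St D V) (P P' : Pa) (f : ℕ → D) (F : XF) (X : XE) (c' : V → Bool) (c0 : ℕ)
    (Fb : ℕ) : Prop :=
  ∀ a b, OA F X P' c0 a → OA F X P' c0 b → rb F.q Fb a.t b.t → ¬ RQ S P f X c' a b

/-- a class of arcs -/
def CK (S : St D V) (P P' : Pa) (f : ℕ → D) (F : XF) (X : XE) (c' : V → Bool) (c0 R' : ℕ) (m : ℕ)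
    (a : FA) : Prop :=
  ∀ t, m.testBit t = true → ∃ b, OA F X P' c0 b ∧ b.t = t ∧ RQ S P f X c' a b ∧
    rb F.q R' a.i' b.i'

/-- the invariants of a state -/
structure GI (S : St D V) (P P' : Pa) (f : ℕ → D) (F : XF) (X : XE) (c' : V → Bool) (c0 : ℕ)
    (cls : List (ℕ × FA)) (Fb R' : ℕ) (pp : List (FA × FA)) : Prop where
  e : Eqv F.q F.w R'
  o : ∀ i < P.n, P.α i ≠ i → P'.real i = true → P'.op c0 i = true →
    rb F.q R' (X.ce' i) (X.ce' (P.α i))
  m : ∀ c ∈ cls, OA F X P' c0 c.2 ∧ CK S P P' f F X c' c0 R' c.1 c.2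
  v : ∀ b, OA F X P' c0 b → ∃ c ∈ cls, c.1.testBit b.t = true
  fb : FbOk S P P' f F X c' c0 Fb
  pr : ∀ z ∈ pp, OA F X P' c0 z.1 ∧ OA F X P' c0 z.2 ∧ RQ S P f X c' z.1 z.2

/-- the marked cells of `P'` -/
structure BO (S S' : St D V) (P P' : Pa) (f : ℕ → D) (F : XF) (X : XE) (c' : V → Bool) (c0 : ℕ)
    (B' : ℕ) : Prop where
  b1 : ∀ i < P.n, br P' c0 i = true → B'.testBit (X.ce' i) = true
  b2 : ∀ a, OA F X P' c0 a → ActR S P f X c' (dt X a) → B'.testBit a.i' = true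
  b3 : ∀ t, B'.testBit t = true → ∃ i < P.n, X.ce' i = t ∧ Vi S' c' (f i)

theorem Lk.rq_equiv (C : Cx S S' P P' f g X c' c0) : (∀ a, RQ S P f X c' a a) ∧
    (∀ {a b : FA}, RQ S P f X c' a b → RQ S P f X c' b a) ∧
    (∀ {a b c : FA}, RQ S P f X c' a b → RQ S P f X c' b c → RQ S P f X c' a c) :=
  ⟨fun _ => C.rr_equiv.refl _, fun h => C.rr_equiv.symm h, fun h h' => C.rr_equiv.trans h h'⟩

theorem CK.mono {R' R1 m : ℕ} {a : FA} (h : CK S P P' f F X c' c0 R' m a)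
    (hR : ∀ s t, rb F.q R' s t → rb F.q R1 s t) : CK S P P' f F X c' c0 R1 m a := by
  intro t ht
  obtain ⟨b, b1, b2, b3, b4⟩ := h t ht
  exact ⟨b, b1, b2, b3, hR _ _ b4⟩

/-- a bit of the matrix of unrelated arcs -/
theorem fb_test {q Fb a b : ℕ} (hb : b < q) : Nat.beq (Nat.land (Nat.shiftRight Fb (q * a)) (2 ^ b)) 0
    = false ↔ rb q Fb a b := by
  rw [beq_false, land_eq]
  show (Fb >>> (q * a)) &&& 2 ^ b ≠ 0 ↔ _
  rw [land_two_pow, Nat.testBit_shiftRight]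
  unfold rb
  split_ifs with h
  · exact ⟨fun _ => ⟨hb, h⟩, fun _ => by positivity⟩
  · exact ⟨fun h' => absurd rfl h', fun h' => absurd h'.2 h⟩

theorem fb_add {q Fb a b s t : ℕ} (ha : a < q) (hb : b < q)
    (h : rb q (Nat.lor Fb (Nat.lor (Nat.mul (2 ^ (q * a)) (2 ^ b)) (Nat.mul (2 ^ (q * b)) (2 ^ a)))) s t) :
    rb q Fb s t ∨ (s = a ∧ t = b) ∨ (s = b ∧ t = a) := by
  obtain ⟨h1, h2⟩ := h
  have e2 : ∀ a b : ℕ, Nat.mul a b = a * b := fun _ _ => rfl
  rw [lor_eq, lor_eq, e2, e2, ← pow_add, ← pow_add, Nat.testBit_or, Nat.testBit_or, Bool.or_eq_true,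
    Bool.or_eq_true, Nat.testBit_two_pow, Nat.testBit_two_pow, decide_eq_true_eq,
    decide_eq_true_eq] at h2
  have key : ∀ a b : ℕ, b < q → q * a + b = q * s + t → s = a ∧ t = b := by
    intro a b hb h
    rcases lt_trichotomy s a with h4 | h4 | h4
    · have : q * (s + 1) ≤ q * a := Nat.mul_le_mul_left _ h4
      rw [Nat.mul_add] at this; omega
    · subst h4
      exact ⟨rfl, by omega⟩
    · have : q * (a + 1) ≤ q * s := Nat.mul_le_mul_left _ h4
      rw [Nat.mul_add] at this; omega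
  rcases h2 with h2 | h2 | h2
  · exact Or.inl ⟨h1, h2⟩
  · exact Or.inr (Or.inl (key _ _ hb h2))
  · exact Or.inr (Or.inr (key _ _ ha h2))

theorem FbOk.add (C : Cx S S' P P' f g X c' c0) (L : Lk F X P P') {Fb : ℕ}
    (h : FbOk S P P' f F X c' c0 Fb) {a b : FA} (ha : OA F X P' c0 a) (hb : OA F X P' c0 b)
    (hn : ¬ RQ S P f X c' a b) : FbOk S P P' f F X c' c0
      (Nat.lor Fb (Nat.lor (Nat.mul a.bq b.bt) (Nat.mul b.bq a.bt))) := by
  intro c d hc hd hr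
  rw [(L.arc ha.1).bq, (L.arc ha.1).bt, (L.arc hb.1).bq, (L.arc hb.1).bt] at hr
  rcases fb_add (L.tq ha.1) (L.tq hb.1) hr with h1 | ⟨h1, h2⟩ | ⟨h1, h2⟩
  · exact h c d hc hd h1
  · rw [L.arc_inj hc.1 ha.1 h1, L.arc_inj hd.1 hb.1 h2]; exact hn
  · rw [L.arc_inj hc.1 hb.1 h1, L.arc_inj hd.1 ha.1 h2]
    exact fun h => hn (C.rr_equiv.symm h)

/-- contraction -/
theorem FbOk.ctr (C : Cx S S' P P' f g X c' c0) (L : Lk F X P P') {Fb : ℕ}
    (h : FbOk S P P' f F X c' c0 Fb) {a b : FA} (ha : OA F X P' c0 a) (hb : OA F X P' c0 b)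
    (hn : RQ S P f X c' a b) :
    FbOk S P P' f F X c' c0 (ctr F.K F.F Fb a.t b.t a.qt b.qt) := by
  intro c d hc hd hr
  rw [(L.arc ha.1).qt, (L.arc hb.1).qt, L.hK, L.hF] at hr
  rcases ctr_bit L.hq (L.tq ha.1) (L.tq hb.1) hr with h1 | ⟨h1, h2⟩ | ⟨h1, h2⟩
  · exact h c d hc hd h1
  · rw [L.arc_inj hc.1 ha.1 h1]
    exact fun h' => h b d hb hd h2 (C.rr_equiv.trans (C.rr_equiv.symm hn) h')
  · rw [L.arc_inj hd.1 ha.1 h1]
    exact fun h' => h c b hc hb h2 (C.rr_equiv.trans h' hn)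

/-- noncrossing property of the arcs -/
def NCA (S : St D V) (P : Pa) (f : ℕ → D) (F : XF) (X : XE) (c' : V → Bool) : Prop :=
  ∀ a ∈ F.ars, ∀ b ∈ F.ars, ∀ c ∈ F.ars, ∀ d ∈ F.ars, a.t < b.t → b.t < c.t → c.t < d.t →
    RQ S P f X c' a c → RQ S P f X c' b d → RQ S P f X c' a b

theorem absorb_sound (C : Cx S S' P P' f g X c' c0) (L : Lk F X P P')
    (hN : NCA S P f F X c') {IA IB : ℕ} {a b : FA} (ha : OA F X P' c0 a) (hb : OA F X P' c0 b)
    (hab : RQ S P f X c' a b)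
    (hIA : ∀ u, IA.testBit u = true → min a.t b.t < u ∧ u < max a.t b.t)
    (hIB : ∀ u, min a.t b.t ≤ u → u ≤ max a.t b.t → IB.testBit u = true)
    {k : KC} {G : Prop} (hk : ∀ cls Fb R' pp, GI S P P' f F X c' c0 cls Fb R' pp →
      k cls Fb R' pp = true → G) :
    ∀ (l kp : List (ℕ × FA)) (m Fb R' : ℕ) (pp : List (FA × FA)), Eqv F.q F.w R' →
      (∀ i < P.n, P.α i ≠ i → P'.real i = true → P'.op c0 i = true →
        rb F.q R' (X.ce' i) (X.ce' (P.α i))) →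
      (∀ c ∈ l, OA F X P' c0 c.2 ∧ CK S P P' f F X c' c0 R' c.1 c.2) →
      (∀ c ∈ kp, OA F X P' c0 c.2 ∧ CK S P P' f F X c' c0 R' c.1 c.2) →
      CK S P P' f F X c' c0 R' m a →
      (∀ z, OA F X P' c0 z → m.testBit z.t = true ∨ (∃ c ∈ l, c.1.testBit z.t = true) ∨
        ∃ c ∈ kp, c.1.testBit z.t = true) →
      FbOk S P P' f F X c' c0 Fb →
      (∀ z ∈ pp, OA F X P' c0 z.1 ∧ OA F X P' c0 z.2 ∧ RQ S P f X c' z.1 z.2) →
      F.absorb IA IB a k l kp m Fb R' pp = true → G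
  | [], kp, m, Fb, R', pp, e1, e2, e3, e4, e5, e6, e7, e8, h => by
    refine hk _ _ _ _ ⟨e1, e2, fun c hc => ?_, fun z hz => ?_, e7, e8⟩ h
    · rcases List.mem_cons.1 hc with rfl | hc
      · exact ⟨ha, e5⟩
      · exact e4 c hc
    · rcases e6 z hz with h1 | ⟨c, h1, _⟩ | ⟨c, h1, h2⟩
      · exact ⟨(m, a), by simp, h1⟩
      · simp at h1
      · exact ⟨c, List.mem_cons_of_mem _ h1, h2⟩
  | c :: l, kp, m, Fb, R', pp, e1, e2, e3, e4, e5, e6, e7, e8, h => by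
    have h' : (Bool.rec (motive := fun _ => _) (F.absorb IA IB a k l kp (Nat.lor m c.1) Fb R' pp) (Bool.rec (motive := fun _ => _) (Bool.rec (motive := fun _ => _) (Bool.rec (motive := fun _ => _) true (F.absorb IA IB a k l kp (Nat.lor m c.1) (ctr F.K F.F Fb a.t c.2.t a.qt c.2.qt)
                (mr F.K F.F R' a.i' c.2.i' a.qi' c.2.qi') ((a, c.2) :: pp)) (Nat.beq (Nat.land (Nat.shiftRight Fb a.qt) c.2.bt) 0)) (F.absorb IA IB a k l (c :: kp) m Fb R' pp) (Nat.beq (Nat.land c.1 IB) c.1)) (F.absorb IA IB a k l (c :: kp) m Fb R' pp) (Nat.beq (Nat.land c.1 IA) 0)) (Nat.beq (Nat.land c.1 m) 0)) = true := h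
    have el : ∀ c ∈ l, OA F X P' c0 c.2 ∧ CK S P P' f F X c' c0 R' c.1 c.2 :=
      fun c hc => e3 c (List.mem_cons_of_mem _ hc)
    obtain ⟨oc, kc⟩ := e3 c (by simp)
    have ac := L.arc oc.1
    have aa := L.arc ha.1
    obtain ⟨r1, r2, r3⟩ := Lk.rq_equiv C
    -- the class is kept
    have keep : F.absorb IA IB a k l (c :: kp) m Fb R' pp = true → G := by
      intro h1
      refine absorb_sound C L hN ha hb hab hIA hIB hk l (c :: kp) m Fb R' pp e1 e2 el ?_ e5 ?_ e7 e8 h1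
      · intro z hz
        rcases List.mem_cons.1 hz with rfl | hz
        · exact ⟨oc, kc⟩
        · exact e4 z hz
      · intro z hz
        rcases e6 z hz with h1 | ⟨d, h1, h2⟩ | ⟨d, h1, h2⟩
        · exact Or.inl h1
        · rcases List.mem_cons.1 h1 with rfl | h1
          · exact Or.inr (Or.inr ⟨_, by simp, h2⟩)
          · exact Or.inr (Or.inl ⟨d, h1, h2⟩)
        · exact Or.inr (Or.inr ⟨d, List.mem_cons_of_mem _ h1, h2⟩)
    -- the cover after the union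
    have cov : ∀ z, OA F X P' c0 z → (Nat.lor m c.1).testBit z.t = true ∨
        (∃ c ∈ l, c.1.testBit z.t = true) ∨ ∃ c ∈ kp, c.1.testBit z.t = true := by
      intro z hz
      rw [lor_eq, Nat.testBit_or, Bool.or_eq_true]
      rcases e6 z hz with h1 | ⟨d, h1, h2⟩ | ⟨d, h1, h2⟩
      · exact Or.inl (Or.inl h1)
      · rcases List.mem_cons.1 h1 with rfl | h1
        · exact Or.inl (Or.inr h2)
        · exact Or.inr (Or.inl ⟨d, h1, h2⟩)
      · exact Or.inr (Or.inr ⟨d, h1, h2⟩)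
    -- the union of two classes
    have uni : ∀ R1, Eqv F.q F.w R1 → (∀ s t, rb F.q R' s t → rb F.q R1 s t) →
        RQ S P f X c' a c.2 → rb F.q R1 a.i' c.2.i' →
        CK S P P' f F X c' c0 R1 (Nat.lor m c.1) a := by
      intro R1 f1 f2 f3 f4 t ht
      rw [lor_eq, Nat.testBit_or, Bool.or_eq_true] at ht
      rcases ht with ht | ht
      · exact (e5.mono f2) t ht
      · obtain ⟨z, z1, z2, z3, z4⟩ := (kc.mono f2) t ht
        exact ⟨z, z1, z2, r3 f3 z3, f1.trans _ _ _ f4 z4⟩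
    rcases bif_true h' with ⟨h1, h2⟩ | ⟨h1, h2⟩
    · rcases bif_true h2 with ⟨h3, h4⟩ | ⟨h3, h4⟩
      · exact keep h4
      · rcases bif_true h4 with ⟨h5, h6⟩ | ⟨h5, h6⟩
        · exact keep h6
        · -- crossing
          rw [beq_false, land_eq] at h3 h5
          obtain ⟨u, u1, u2⟩ := and_ne_zero.1 h3
          have hv : ∃ v, c.1.testBit v = true ∧ IB.testBit v = false := by
            by_contra hcon
            push Not at hcon
            apply h5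
            apply Nat.eq_of_testBit_eq
            intro i
            rw [Nat.testBit_and]
            cases h7 : c.1.testBit i
            · rfl
            · have := hcon i h7
              rw [Bool.true_and]
              simpa using this
          obtain ⟨v, v1, v2⟩ := hv
          obtain ⟨u3, u4⟩ := hIA u u2
          have v3 : v < min a.t b.t ∨ max a.t b.t < v := by
            by_contra hcon
            push Not at hcon
            rw [hIB v hcon.1 hcon.2] at v2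
            cases v2
          obtain ⟨x, x1, rfl, x3, x4⟩ := kc u u1
          obtain ⟨y, y1, rfl, y3, y4⟩ := kc v v1
          have hxy : RQ S P f X c' x y := r3 (r2 x3) y3
          have hac : RQ S P f X c' a c.2 := by
            have : RQ S P f X c' a x ∨ RQ S P f X c' b x ∨ RQ S P f X c' y a ∨ RQ S P f X c' y b := by
              rcases le_total a.t b.t with hle | hle
              · rw [min_eq_left hle] at u3 v3
                rw [max_eq_right hle] at u4 v3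
                rcases v3 with v3 | v3
                · exact Or.inr (Or.inr (Or.inl (hN y y1.1 a ha.1 x x1.1 b hb.1 v3 u3 u4 (r2 hxy) hab)))
                · exact Or.inl (hN a ha.1 x x1.1 b hb.1 y y1.1 u3 u4 v3 hab hxy)
              · rw [min_eq_right hle] at u3 v3
                rw [max_eq_left hle] at u4 v3
                rcases v3 with v3 | v3
                · exact Or.inr (Or.inr (Or.inr (hN y y1.1 b hb.1 x x1.1 a ha.1 v3 u3 u4 (r2 hxy) (r2 hab))))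
                · exact Or.inr (Or.inl (hN b hb.1 x x1.1 a ha.1 y y1.1 u3 u4 v3 (r2 hab) hxy))
            rcases this with h | h | h | h
            · exact r3 h (r2 x3)
            · exact r3 hab (r3 h (r2 x3))
            · exact r3 (r2 h) (r2 y3)
            · exact r3 hab (r3 (r2 h) (r2 y3))
          rcases bif_true h6 with ⟨h7, h8⟩ | ⟨h7, h8⟩
          · have g1 := (C.st.rs _ (C.st.asm aa.mem)).1
            have g2 := (C.st.rs _ (C.st.asm ac.mem)).1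
            have w1 : a.i' < F.w := by rw [aa.i']; exact (L.ce _ g1).2
            have w2 : c.2.i' < F.w := by rw [ac.i']; exact (L.ce _ g2).2
            obtain ⟨q1, q2, q3⟩ := e1.mr (i := a.i') (j := c.2.i') L.hq (le_of_lt L.hw) w1 w2
            rw [aa.qi', ac.qi', L.hK, L.hF] at h8
            rw [← L.hK, ← L.hF] at h8
            have hR : mr F.K F.F R' a.i' c.2.i' (F.q * a.i') (F.q * c.2.i') =
                mr (Ks F.q F.w) (2 ^ F.q - 1) R' a.i' c.2.i' (F.q * a.i') (F.q * c.2.i') := by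
              rw [L.hK, L.hF]
            rw [hR] at h8
            refine absorb_sound C L hN ha hb hab hIA hIB hk l kp _ _ _ _ q1
              (fun i hi hne hr ho => q2 _ _ (e2 i hi hne hr ho))
              (fun d hd => ⟨(el d hd).1, (el d hd).2.mono q2⟩)
              (fun d hd => ⟨(e4 d hd).1, (e4 d hd).2.mono q2⟩)
              (uni _ q1 q2 hac q3) cov (e7.ctr C L ha oc hac) ?_ h8
            intro z hz
            rcases List.mem_cons.1 hz with rfl | hz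
            · exact ⟨ha, oc, hac⟩
            · exact e8 z hz
          · exfalso
            rw [aa.qt, ac.bt, fb_test (L.tq oc.1)] at h7
            exact e7 a c.2 ha oc h7 hac
    · -- the classes have a common arc
      rw [beq_false, land_eq] at h1
      obtain ⟨u, u1, u2⟩ := and_ne_zero.1 h1
      obtain ⟨x, x1, x2, x3, x4⟩ := kc u u1
      obtain ⟨y, y1, y2, y3, y4⟩ := e5 u u2
      have hxy : x = y := L.arc_inj x1.1 y1.1 (x2.trans y2.symm)
      subst hxy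
      refine absorb_sound C L hN ha hb hab hIA hIB hk l kp _ Fb R' pp e1 e2 el e4
        (uni R' e1 (fun _ _ h => h) (r3 y3 (r2 x3)) (e1.trans _ _ _ y4 (e1.symm _ _ x4))) cov e7 e8 h2

end Pool.FC7
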