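import Pool.Agent.FC7.XFb

/-! # The fast extension check: the search -/

open Finset

set_option linter.unusedSectionVars false

namespace Pool.FC7

open Pool.FC6

variable {F : XF} {X : XE} {P P' : Pa}
variable {D V : Type} [Fintype D] [DecidableEq V]
variable {S S' : St D V} {f : ℕ → D} {g : ℕ → V} {c' : V → Bool} {c0 : ℕ}

/-- bits of `2 ^ (j + 1) - 2 ^ i` and of `2 ^ j - 2 ^ (i + 1)` -/
theorem sub_bit {i j u : ℕ} (hij : i ≤ j) : (2 ^ j - 2 ^ i).testBit u = true ↔ i ≤ u ∧ u < j := by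
  have e : 2 ^ j - 2 ^ i = 2 ^ i * (2 ^ (j - i) - 1) := by
    rw [Nat.mul_sub, mul_one, ← pow_add, Nat.add_sub_cancel' hij]
  rw [e, Nat.mul_comm, Nat.testBit_mul_two_pow, Bool.and_eq_true, decide_eq_true_eq,
    Nat.testBit_two_pow_sub_one, decide_eq_true_eq]
  omega

theorem two_mul_pow (i : ℕ) : Nat.mul 2 (2 ^ i) = 2 ^ (i + 1) := by
  show 2 * 2 ^ i = _
  rw [pow_succ]; ring

theorem join_sound (C : Cx S S' P P' f g X c' c0) (L : Lk F X P P')
    (hN : NCA S P f F X c') {cls : List (ℕ × FA)} {Fb0 R' : ℕ} {pp : List (FA × FA)}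
    (h : GI S P P' f F X c' c0 cls Fb0 R' pp) {k : KC} {G : Prop}
    (hk : ∀ cls Fb R' pp, GI S P P' f F X c' c0 cls Fb R' pp → k cls Fb R' pp = true → G)
    {a b : ℕ × FA} (ha : a ∈ cls) (hb : b ∈ cls) (hab : RQ S P f X c' a.2 b.2) {Fb : ℕ}
    (hF : FbOk S P P' f F X c' c0 Fb) (hj : F.join k cls R' pp a b Fb = true) : G := by
  obtain ⟨oa, ka⟩ := h.m a ha
  obtain ⟨ob, kb⟩ := h.m b hb
  have aa := L.arc oa.1
  have ab := L.arc ob.1
  have g1 := (C.st.rs _ (C.st.asm aa.mem)).1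
  have g2 := (C.st.rs _ (C.st.asm ab.mem)).1
  have w1 : a.2.i' < F.w := by rw [aa.i']; exact (L.ce _ g1).2
  have w2 : b.2.i' < F.w := by rw [ab.i']; exact (L.ce _ g2).2
  obtain ⟨q1, q2, q3⟩ := h.e.mr (i := a.2.i') (j := b.2.i') L.hq (le_of_lt L.hw) w1 w2
  unfold XF.join at hj
  have hR : mr F.K F.F R' a.2.i' b.2.i' a.2.qi' b.2.qi' =
      mr (Ks F.q F.w) (2 ^ F.q - 1) R' a.2.i' b.2.i' (F.q * a.2.i') (F.q * b.2.i') := by
    rw [L.hK, L.hF, aa.qi', ab.qi']
  rw [hR] at hj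
  refine absorb_sound C L hN oa ob hab ?_ ?_ hk cls [] _ _ _ _ q1
    (fun i hi hne hr ho => q2 _ _ (h.o i hi hne hr ho))
    (fun d hd => ⟨(h.m d hd).1, (h.m d hd).2.mono q2⟩) (fun c hc => by simp at hc) ?_ ?_
    (hF.ctr C L oa ob hab) ?_ hj
  · intro u hu
    rw [bif_eq, ab.bt, aa.bt, two_mul_pow, two_mul_pow] at hu
    split_ifs at hu with hle
    · rw [Nat.ble_eq] at hle
      rw [min_eq_left hle, max_eq_right hle]
      have hu' : (2 ^ b.2.t - 2 ^ (a.2.t + 1)).testBit u = true := hu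
      rcases Nat.lt_or_ge a.2.t b.2.t with h1 | h1
      · rw [sub_bit h1] at hu'
        omega
      · have : 2 ^ b.2.t ≤ 2 ^ (a.2.t + 1) := Nat.pow_le_pow_right (by norm_num) (by omega)
        rw [Nat.sub_eq_zero_of_le this, Nat.zero_testBit] at hu'
        cases hu'
    · rw [Nat.ble_eq, not_le] at hle
      rw [min_eq_right (le_of_lt hle), max_eq_left (le_of_lt hle)]
      have hu' : (2 ^ a.2.t - 2 ^ (b.2.t + 1)).testBit u = true := hu
      rw [sub_bit hle] at hu'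
      omega
  · intro u h1 h2
    rw [bif_eq, ab.bt, aa.bt, two_mul_pow, two_mul_pow]
    split_ifs with hle
    · rw [Nat.ble_eq] at hle
      rw [min_eq_left hle] at h1
      rw [max_eq_right hle] at h2
      show (2 ^ (b.2.t + 1) - 2 ^ a.2.t).testBit u = true
      rw [sub_bit (by omega)]
      omega
    · rw [Nat.ble_eq, not_le] at hle
      rw [min_eq_right (le_of_lt hle)] at h1
      rw [max_eq_left (le_of_lt hle)] at h2
      show (2 ^ (a.2.t + 1) - 2 ^ b.2.t).testBit u = true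
      rw [sub_bit (by omega)]
      omega
  · intro t ht
    rw [lor_eq, Nat.testBit_or, Bool.or_eq_true] at ht
    rcases ht with ht | ht
    · exact (ka.mono q2) t ht
    · obtain ⟨z, z1, z2, z3, z4⟩ := (kb.mono q2) t ht
      exact ⟨z, z1, z2, C.rr_equiv.trans hab z3, q1.trans _ _ _ q3 z4⟩
  · intro z hz
    obtain ⟨c, h1, h2⟩ := h.v z hz
    exact Or.inr (Or.inl ⟨c, h1, h2⟩)
  · intro z hz
    rcases List.mem_cons.1 hz with rfl | hz
    · exact ⟨oa, ob, hab⟩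
    · exact h.pr z hz

/-- pairs with the first class `a` -/
theorem inner_sound (C : Cx S S' P P' f g X c' c0) (L : Lk F X P P') {cls : List (ℕ × FA)}
    (ho : ∀ c ∈ cls, OA F X P' c0 c.2)
    {k : ℕ × FA → ℕ × FA → ℕ → Bool} {G : Prop}
    (hk : ∀ a ∈ cls, ∀ b ∈ cls, ∀ Fb, FbOk S P P' f F X c' c0 Fb → RQ S P f X c' a.2 b.2 →
      k a b Fb = true → G) {M : ℕ} {a : ℕ × FA} (ha : a ∈ cls) {cont : ℕ → Bool} :
    ∀ (l : List (ℕ × FA)) (Fb : ℕ), (∀ b ∈ l, b ∈ cls) → FbOk S P P' f F X c' c0 Fb →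
      XF.inner k M a cont l Fb = true → G ∨ (∃ Fb', FbOk S P P' f F X c' c0 Fb' ∧ cont Fb' = true) ∧
        ∀ b ∈ l, b.2.bi' &&& M = 0 → ¬ RQ S P f X c' a.2 b.2
  | [], Fb, _, hF, h => Or.inr ⟨⟨Fb, hF, h⟩, by simp⟩
  | b :: l, Fb, hl, hF, h => by
    have h' : (Bool.rec (motive := fun _ => _) (XF.inner k M a cont l Fb) (Bool.rec (motive := fun _ => _) (XF.inner k M a cont l Fb) (Bool.rec (motive := fun _ => _) false (XF.inner k M a cont l
            (Nat.lor Fb (Nat.lor (Nat.mul a.2.bq b.2.bt) (Nat.mul b.2.bq a.2.bt)))) (k a b Fb)) (Nat.beq (Nat.land (Nat.shiftRight Fb a.2.qt) b.2.bt) 0)) (Nat.beq (Nat.land b.2.bi' M) 0)) = true := h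
    have hl' : ∀ b ∈ l, b ∈ cls := fun b hb => hl b (List.mem_cons_of_mem _ hb)
    have hb := hl b (by simp)
    have fin : ∀ Fb', FbOk S P P' f F X c' c0 Fb' → XF.inner k M a cont l Fb' = true →
        (b.2.bi' &&& M = 0 → ¬ RQ S P f X c' a.2 b.2) →
        G ∨ (∃ Fb', FbOk S P P' f F X c' c0 Fb' ∧ cont Fb' = true) ∧
          ∀ z ∈ b :: l, z.2.bi' &&& M = 0 → ¬ RQ S P f X c' a.2 z.2 := by
      intro Fb' h1 h2 h3
      rcases inner_sound C L ho hk ha l Fb' hl' h1 h2 with h4 | ⟨h4, h5⟩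
      · exact Or.inl h4
      · refine Or.inr ⟨h4, fun z hz => ?_⟩
        rcases List.mem_cons.1 hz with rfl | hz
        · exact h3
        · exact h5 z hz
    rcases bif_true h' with ⟨h1, h2⟩ | ⟨h1, h2⟩
    · rcases bif_true h2 with ⟨h3, h4⟩ | ⟨h3, h4⟩
      · rcases bif_true h4 with ⟨h5, h6⟩ | ⟨h5, h6⟩
        · by_cases hab : RQ S P f X c' a.2 b.2
          · exact Or.inl (hk a ha b hb Fb hF hab h5)
          · exact fin _ (hF.add C L (ho a ha) (ho b hb) hab) h6 fun _ => hab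
        · cases h6
      · rw [(L.arc (ho a ha).1).qt, (L.arc (ho b hb).1).bt, fb_test (L.tq (ho b hb).1)] at h3
        exact fin Fb hF h4 fun _ => hF _ _ (ho a ha) (ho b hb) h3
    · rw [beq_false, land_eq] at h1
      exact fin Fb hF h2 fun h => absurd h h1

theorem outer_sound (C : Cx S S' P P' f g X c' c0) (L : Lk F X P P') {cls : List (ℕ × FA)}
    (ho : ∀ c ∈ cls, OA F X P' c0 c.2)
    {k : ℕ × FA → ℕ × FA → ℕ → Bool} {G : Prop}
    (hk : ∀ a ∈ cls, ∀ b ∈ cls, ∀ Fb, FbOk S P P' f F X c' c0 Fb → RQ S P f X c' a.2 b.2 →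
      k a b Fb = true → G) {M : ℕ} :
    ∀ (l : List (ℕ × FA)) (Fb : ℕ), (∀ b ∈ l, b ∈ cls) → FbOk S P P' f F X c' c0 Fb →
      XF.outer k M cls l Fb = true → G ∨
        ∀ a ∈ l, a.2.bi' &&& M ≠ 0 → ∀ b ∈ cls, b.2.bi' &&& M = 0 → ¬ RQ S P f X c' a.2 b.2
  | [], Fb, _, hF, h => Or.inr (by simp)
  | a :: l, Fb, hl, hF, h => by
    have h' : (Bool.rec (motive := fun _ => _) (XF.inner k M a (XF.outer k M cls l) cls Fb) (XF.outer k M cls l Fb) (Nat.beq (Nat.land a.2.bi' M) 0)) = true := h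
    have hl' : ∀ b ∈ l, b ∈ cls := fun b hb => hl b (List.mem_cons_of_mem _ hb)
    have ha := hl a (by simp)
    rcases bif_true h' with ⟨h1, h2⟩ | ⟨h1, h2⟩
    · rcases outer_sound C L ho hk l Fb hl' hF h2 with h3 | h3
      · exact Or.inl h3
      · refine Or.inr fun z hz hM => ?_
        rcases List.mem_cons.1 hz with rfl | hz
        · exact absurd (beq_true.1 h1) hM
        · exact h3 z hz hM
    · rcases inner_sound C L ho hk ha cls Fb (fun _ h => h) hF h2 with h3 | ⟨⟨Fb', h3, h4⟩, h5⟩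
      · exact Or.inl h3
      · rcases outer_sound C L ho hk l Fb' hl' h3 h4 with h6 | h6
        · exact Or.inl h6
        · refine Or.inr fun z hz hM => ?_
          rcases List.mem_cons.1 hz with rfl | hz
          · exact h5
          · exact h6 z hz hM

/-- the mask is closed -/
def Cl (q R' M : ℕ) : Prop := ∀ s t, rb q R' s t → M.testBit s = true → M.testBit t = true

theorem bi_test {M i : ℕ} : 2 ^ i &&& M ≠ 0 ↔ M.testBit i = true := by
  rw [Nat.and_comm, land_two_pow]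
  split_ifs with h
  · exact ⟨fun _ => h, fun _ => by positivity⟩
  · exact ⟨fun h' => absurd rfl h', fun h' => absurd h' h⟩

/-- a branch of the search -/
theorem branch (C : Cx S S' P P' f g X c' c0) (L : Lk F X P P')
    (hN : NCA S P f F X c') {cls : List (ℕ × FA)} {Fb R' : ℕ} {pp : List (FA × FA)}
    (h : GI S P P' f F X c' c0 cls Fb R' pp) {k : KC} {G : Prop}
    (hk : ∀ cls Fb R' pp, GI S P P' f F X c' c0 cls Fb R' pp → k cls Fb R' pp = true → G)
    {M : ℕ} (hM : Cl F.q R' M) (ho : XF.outer (F.join k cls R' pp) M cls cls Fb = true)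
    (hx : Clo P P' X c0 (fun t => M.testBit t = true) →
      ∃ i ∈ X.as, P'.op c0 i = true ∧ M.testBit (X.ce' i) = true ∧
      ∃ j ∈ X.as, P'.op c0 j = true ∧ ¬ M.testBit (X.ce' j) = true ∧ Rr S P f X c' i j) : G := by
  obtain ⟨i, i1, i2, i3, j, j1, j2, j3, j4⟩ := hx (fun i hi hne hr hop => by
    have h1 := h.o i hi hne hr hop
    exact ⟨hM _ _ h1, hM _ _ (h.e.symm _ _ h1)⟩)
  obtain ⟨a, a1, a2⟩ := L.of_mem i1
  obtain ⟨b, b1, b2⟩ := L.of_mem j1
  have oa : OA F X P' c0 a := ⟨a1, by rw [a2]; exact i2⟩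
  have ob : OA F X P' c0 b := ⟨b1, by rw [b2]; exact j2⟩
  have aa := L.arc a1
  have ab := L.arc b1
  obtain ⟨ca, ca1, ca2⟩ := h.v a oa
  obtain ⟨cb, cb1, cb2⟩ := h.v b ob
  obtain ⟨oca, kca⟩ := h.m ca ca1
  obtain ⟨ocb, kcb⟩ := h.m cb cb1
  obtain ⟨a', x1, x2, x3, x4⟩ := kca _ ca2
  obtain ⟨b', y1, y2, y3, y4⟩ := kcb _ cb2
  have := L.arc_inj x1.1 a1 x2
  subst this
  have := L.arc_inj y1.1 b1 y2
  subst this
  rcases outer_sound C L (fun c hc => (h.m c hc).1)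
    (fun a ha b hb Fb hF hab hj => join_sound C L hN h hk ha hb hab hF hj) cls Fb (fun _ h => h) h.fb ho
    with h1 | h1
  · exact h1
  · exfalso
    refine h1 ca ca1 ?_ cb cb1 ?_ ?_
    · rw [(L.arc oca.1).bi', bi_test]
      refine hM _ _ (h.e.symm _ _ x4) ?_
      rw [aa.i', a2]; exact i3
    · by_contra hcon
      rw [← Ne, (L.arc ocb.1).bi', bi_test] at hcon
      apply j3
      have := hM _ _ y4 hcon
      rwa [ab.i', b2] at this
    · have : RQ S P f X c' a' b' := by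
        unfold RQ
        rw [a2, b2]; exact j4
      exact C.rr_equiv.trans x3 (C.rr_equiv.trans this (C.rr_equiv.symm y3))

theorem vis_bit (L : Lk F X P P') {B R t : ℕ} : (F.vis B R).testBit t = true ↔
    B ≠ 0 ∧ rb F.q R (Nat.log2 B) t := by
  unfold XF.vis
  rw [bif_eq]
  split_ifs with h
  · rw [beq_true] at h
    rw [Nat.zero_testBit]
    constructor
    · intro h'; cases h'
    · intro h'; exact absurd h h'.1
  · have h' : B ≠ 0 := beq_false.1 (Bool.eq_false_iff.2 h)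
    have e : Nat.mul F.q (Nat.log2 B) = F.q * Nat.log2 B := rfl
    rw [L.hF, e, row_bit]
    exact ⟨fun h => ⟨h', h⟩, fun h => h.2⟩

theorem vis_lt (L : Lk F X P P') {B R : ℕ} : F.vis B R < 2 ^ F.q := by
  unfold XF.vis
  rw [bif_eq]
  split_ifs with h
  · positivity
  · rw [L.hF]; exact row_lt

theorem vis_cl (L : Lk F X P P') {B R : ℕ} (hR : Eqv F.q F.w R) : Cl F.q R (F.vis B R) := by
  intro s t h1 h2
  rw [vis_bit L] at h2 ⊢
  exact ⟨h2.1, hR.trans _ _ _ h2.2 h1⟩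

theorem log2_bit {B : ℕ} (h : B ≠ 0) : B.testBit (Nat.log2 B) = true := by
  obtain ⟨i, hi⟩ := Nat.exists_testBit_of_ne_zero h
  rw [Nat.testBit_eq_decide_div_mod_eq, decide_eq_true_eq]
  have h1 := Nat.log2_self_le h
  have h2 : B < 2 ^ (Nat.log2 B + 1) := Nat.lt_log2_self
  rw [pow_succ] at h2
  have : B / 2 ^ Nat.log2 B = 1 := Nat.div_eq_of_lt_le (by omega) (by omega)
  rw [this]

/-- a requirement with its positions -/
structure RqOk (S' : St D V) (P : Pa) (f : ℕ → D) (F : XF) (X : XE) (c' : V → Bool)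
    (m : ℕ × List ℕ) : Prop where
  h1 : ∀ t < F.w, m.1.testBit t = true → F.q * t ∈ m.2
  h2 : ∀ z ∈ m.2, ∃ t < F.w, z = F.q * t ∧ m.1.testBit t = true
  h3 : ∃ i < P.n, m.1.testBit (X.ce' i) = true ∧ Vi S' c' (f i)

theorem clo_bit (L : Lk F X P P') {R' u : ℕ} : ∀ {l : List ℕ}, (F.clo R' l).testBit u = true ↔
    ∃ z ∈ l, (row (2 ^ F.q - 1) R' z).testBit u = true
  | [] => by
    show (0 : ℕ).testBit u = true ↔ _
    simp
  | z :: l => by
    show (Nat.lor (row F.F R' z) (F.clo R' l)).testBit u = true ↔ _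
    rw [lor_eq, Nat.testBit_or, Bool.or_eq_true, clo_bit L, L.hF]
    simp only [List.mem_cons, exists_eq_or_imp]

theorem unmet_sound {V R' : ℕ} {k : ℕ → Bool} {d : Bool} : ∀ {l : List (ℕ × List ℕ)},
    F.unmet V R' k d l = true → d = true ∨ ∃ m ∈ l, m.1 &&& V = 0 ∧ k (F.clo R' m.2) = true
  | [], h => Or.inl h
  | m :: l, h => by
    have h' : (Bool.rec (motive := fun _ => _) (F.unmet V R' k d l) (k (F.clo R' m.2)) (Nat.beq (Nat.land m.1 V) 0)) = true := h
    rcases bif_true h' with ⟨h1, h2⟩ | ⟨h1, h2⟩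
    · exact Or.inr ⟨m, by simp, beq_true.1 h1, h2⟩
    · rcases unmet_sound h2 with h3 | ⟨z, h3, h4⟩
      · exact Or.inl h3
      · exact Or.inr ⟨z, List.mem_cons_of_mem _ h3, h4⟩

/-- a branch for a requirement -/
theorem branch_rq (C : Cx S S' P P' f g X c' c0) (L : Lk F X P P')
    (hN : NCA S P f F X c') {cls : List (ℕ × FA)} {Fb R' : ℕ} {pp : List (FA × FA)}
    (h : GI S P P' f F X c' c0 cls Fb R' pp) {k : KC} {G : Prop}
    (hk : ∀ cls Fb R' pp, GI S P P' f F X c' c0 cls Fb R' pp → k cls Fb R' pp = true → G)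
    {B' : ℕ} (hB : BO S S' P P' f F X c' c0 B') (hV : B' &&& F.vis B' R' = B')
    {m : ℕ × List ℕ} (hm : RqOk S' P f F X c' m) (hmV : m.1 &&& F.vis B' R' = 0)
    (ho : XF.outer (F.join k cls R' pp) (F.clo R' m.2) cls cls Fb = true) : G := by
  have key : ∀ u, (F.clo R' m.2).testBit u = true ↔ ∃ t, m.1.testBit t = true ∧ rb F.q R' t u := by
    intro u
    rw [clo_bit L]
    constructor
    · rintro ⟨z, hz, h1⟩
      obtain ⟨t, t1, rfl, t3⟩ := hm.h2 z hz
      exact ⟨t, t3, row_bit.1 h1⟩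
    · rintro ⟨t, t1, t2⟩
      exact ⟨F.q * t, hm.h1 t (h.e.lt _ _ t2).1 t1, row_bit.2 t2⟩
  have hno : ∀ u, B'.testBit u = true → ¬ (F.clo R' m.2).testBit u = true := by
    intro u hu hc
    obtain ⟨t, t1, t2⟩ := (key u).1 hc
    have h1 : (F.vis B' R').testBit u = true := by
      rw [← hV, Nat.testBit_and, Bool.and_eq_true] at hu
      exact hu.2
    exact and_eq_zero_iff.1 hmV t t1 (vis_cl L h.e _ _ (h.e.symm _ _ t2) h1)
  refine branch C L hN h hk (M := F.clo R' m.2) (fun s t h1 h2 => ?_) ho fun hcl => ?_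
  · rw [key] at h2 ⊢
    obtain ⟨z, z1, z2⟩ := h2
    exact ⟨z, z1, h.e.trans _ _ _ z2 h1⟩
  · obtain ⟨i0, i1, i2, i3⟩ := hm.h3
    refine exists_pair1N C hcl (fun i hi hb => hno _ (hB.b1 i hi hb)) (fun j hj oj ha => ?_) i1 ?_ i3
    · obtain ⟨a, a1, a2⟩ := L.of_mem hj
      have := hB.b2 a ⟨a1, by rw [a2]; exact oj⟩ (by rw [a2]; exact ha)
      rw [(L.arc a1).i', a2] at this
      exact hno _ this
    · rw [key]
      exact ⟨_, i2, h.e.refl _ (L.ce i0 i1).2⟩

theorem step_sound (C : Cx S S' P P' f g X c' c0) (L : Lk F X P P')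
    (hN : NCA S P f F X c') {B' : ℕ} (hB : BO S S' P P' f F X c' c0 B')
    {ex' : List (ℕ × List ℕ)} (hex : ∀ m ∈ ex', RqOk S' P f F X c' m)
    (hrq : ∀ m ∈ F.rq, RqOk S' P f F X c' m)
    {lf : ℕ → ℕ → List (ℕ × FA) → List (FA × FA) → Bool} {G : Prop}
    (hlf : ∀ cls Fb R' pp, GI S P P' f F X c' c0 cls Fb R' pp → B' &&& F.vis B' R' = B' →
      lf (F.vis B' R') R' cls pp = true → G) {k : KC}
    (hk : ∀ cls Fb R' pp, GI S P P' f F X c' c0 cls Fb R' pp → k cls Fb R' pp = true → G)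
    (cls : List (ℕ × FA)) (Fb R' : ℕ) (pp : List (FA × FA))
    (h : GI S P P' f F X c' c0 cls Fb R' pp) (hs : F.step B' ex' lf k cls Fb R' pp = true) : G := by
  unfold XF.step at hs
  simp only at hs
  rcases bif_true hs with ⟨h1, h2⟩ | ⟨h1, h2⟩
  · rw [beq_true, land_eq] at h1
    rcases unmet_sound h2 with h3 | ⟨m, m1, m2, m3⟩
    · rcases bif_true h3 with ⟨h4, h5⟩ | ⟨h4, h5⟩
      · exact hlf cls Fb R' pp h h1 h5
      · rcases unmet_sound h5 with h6 | ⟨m, m1, m2, m3⟩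
        · cases h6
        · exact branch_rq C L hN h hk hB h1 (hrq m m1) m2 m3
    · exact branch_rq C L hN h hk hB h1 (hex m m1) m2 m3
  · rw [beq_false, land_eq] at h1
    refine branch C L hN h hk (vis_cl L h.e) h2 fun hcl => ?_
    have hB0 : B' ≠ 0 := by
      rintro rfl
      exact h1 (Nat.zero_and _)
    have hv : ∃ v, B'.testBit v = true ∧ (F.vis B' R').testBit v = false := by
      by_contra hcon
      push Not at hcon
      apply h1
      apply Nat.eq_of_testBit_eq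
      intro i
      rw [Nat.testBit_and]
      cases h7 : B'.testBit i
      · rfl
      · have := hcon i h7
        rw [Bool.true_and]
        simpa using this
    obtain ⟨v, v1, v2⟩ := hv
    obtain ⟨i1, i11, rfl, i13⟩ := hB.b3 v v1
    obtain ⟨i0, i01, i02, i03⟩ := hB.b3 _ (log2_bit hB0)
    refine exists_pair2N C hcl i01 ?_ i03 i11 (by rw [v2]; simp) i13
    rw [vis_bit L, i02]
    exact ⟨hB0, h.e.refl _ (by rw [← i02]; exact (L.ce i0 i01).2)⟩

theorem go_soundF (C : Cx S S' P P' f g X c' c0) (L : Lk F X P P')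
    (hN : NCA S P f F X c') {B' : ℕ} (hB : BO S S' P P' f F X c' c0 B')
    {ex' : List (ℕ × List ℕ)} (hex : ∀ m ∈ ex', RqOk S' P f F X c' m)
    (hrq : ∀ m ∈ F.rq, RqOk S' P f F X c' m)
    {lf : ℕ → ℕ → List (ℕ × FA) → List (FA × FA) → Bool} {G : Prop}
    (hlf : ∀ cls Fb R' pp, GI S P P' f F X c' c0 cls Fb R' pp → B' &&& F.vis B' R' = B' →
      lf (F.vis B' R') R' cls pp = true → G) : ∀ (fuel : ℕ)
    (cls : List (ℕ × FA)) (Fb R' : ℕ) (pp : List (FA × FA)),
    GI S P P' f F X c' c0 cls Fb R' pp → F.go B' ex' lf fuel cls Fb R' pp = true → G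
  | 0, cls, Fb, R', pp, _, h => by
    have : (false : Bool) = true := h
    cases this
  | fuel + 1, cls, Fb, R', pp, hG, h =>
    step_sound C L hN hB hex hrq hlf (go_soundF C L hN hB hex hrq hlf fuel) cls Fb R' pp hG h

end Pool.FC7
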