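import Pool.Agent.FC7.XFd

/-! # The fast extension check: arcs, labelled edges, matchings -/

open Finset

set_option linter.unusedSectionVars false

namespace Pool.FC7

open Pool.FC6

variable {F : XF} {X : XE} {P P' : Pa}
variable {D V : Type} [Fintype D] [DecidableEq V]
variable {S S' : St D V} {f : ℕ → D} {g : ℕ → V} {c' : V → Bool} {c0 : ℕ}

/-- real open arcs are active -/
theorem Cx.act_real (C : Cx S S' P P' f g X c' c0) {i : ℕ} (hi : i ∈ X.as) (hr : P.real i = true)
    (oi : P'.op c0 i = true) : ActR S P f X c' i := by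
  obtain ⟨h1, h2⟩ := C.st.rs i (C.st.asm hi)
  refine ⟨i, C.rr_equiv.refl _, f i, ORel.refl _, C.pe.ringOR h1 h2, ?_⟩
  rw [C.brO ag_refl (C.pe.ringOR h1 h2), C.br' h1]
  have hr' : P'.real i = true := by rw [(C.st.ring i h1 h2).2.1]; exact hr
  unfold Pa.op at oi
  unfold br
  rw [hr'] at oi ⊢
  simpa using oi

/-- open arcs -/
theorem Lk.oa_iff (C : Cx S S' P P' f g X c' c0) (L : Lk F X P P') {a : FA} (ha : a ∈ F.ars) :
    P'.op c0 (dt X a) = true ↔ ¬ (ncl c0 a.lm = true ∧ a.r = true) := by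
  have aa := L.arc ha
  obtain ⟨h1, h2⟩ := C.st.rs _ (C.st.asm aa.mem)
  obtain ⟨-, r1, r2, r3, -⟩ := C.st.ring _ h1 h2
  unfold Pa.op
  rw [r1, r2, r3, ← aa.r]
  cases hr : a.r
  · simp
  · obtain ⟨p, p1, p2, p3⟩ := aa.p
    have hpe : p.1 = p.2 := by
      rcases C.st.tw p p1 with h | ⟨h, -⟩
      · exact h
      · rw [p2, ← aa.r, hr] at h; cases h
    rw [p3, ← hpe, p2, ncl_eq]
    simp

/-- `M` = bits of `M0` and the positions of the arcs with the property `p` -/
def Bp (M M0 : ℕ) (p : FA → Prop) (pos : FA → ℕ) (dn : List FA) : Prop :=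
  ∀ n, M.testBit n = true ↔ M0.testBit n = true ∨ ∃ a ∈ dn, p a ∧ pos a = n

theorem Bp.yes {M M0 : ℕ} {p : FA → Prop} {pos : FA → ℕ} {dn : List FA} (h : Bp M M0 p pos dn)
    {a : FA} (ha : p a) {m : ℕ} (hm : m = 2 ^ pos a) : Bp (Nat.lor M m) M0 p pos (a :: dn) := by
  intro n
  rw [lor_eq, Nat.testBit_or, Bool.or_eq_true, h n, hm, Nat.testBit_two_pow, decide_eq_true_eq]
  constructor
  · rintro ((h | ⟨b, h1, h2⟩) | h)
    · exact Or.inl h
    · exact Or.inr ⟨b, List.mem_cons_of_mem _ h1, h2⟩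
    · exact Or.inr ⟨a, by simp, ha, h⟩
  · rintro (h | ⟨b, h1, h2, h3⟩)
    · exact Or.inl (Or.inl h)
    · rcases List.mem_cons.1 h1 with rfl | h1
      · exact Or.inr h3
      · exact Or.inl (Or.inr ⟨b, h1, h2, h3⟩)

theorem Bp.no {M M0 : ℕ} {p : FA → Prop} {pos : FA → ℕ} {dn : List FA} (h : Bp M M0 p pos dn)
    {a : FA} (ha : ¬ p a) : Bp M M0 p pos (a :: dn) := by
  intro n
  rw [h n]
  constructor
  · rintro (h | ⟨b, h1, h2⟩)
    · exact Or.inl h
    · exact Or.inr ⟨b, List.mem_cons_of_mem _ h1, h2⟩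
  · rintro (h | ⟨b, h1, h2, h3⟩)
    · exact Or.inl h
    · rcases List.mem_cons.1 h1 with rfl | h1
      · exact absurd h2 ha
      · exact Or.inr ⟨b, h1, h2, h3⟩

theorem Bp.nil {M : ℕ} {p : FA → Prop} {pos : FA → ℕ} : Bp M M p pos [] := by
  intro n; simp

/-- active, inactive open arcs -/
def AA (S : St D V) (P P' : Pa) (f : ℕ → D) (F : XF) (X : XE) (c' : V → Bool) (c0 : ℕ) (a : FA) :
    Prop := OA F X P' c0 a ∧ ActR S P f X c' (dt X a)

def AN (S : St D V) (P P' : Pa) (f : ℕ → D) (F : XF) (X : XE) (c' : V → Bool) (c0 : ℕ) (a : FA) :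
    Prop := OA F X P' c0 a ∧ ¬ ActR S P f X c' (dt X a)

/-- the data collected by `arcs` -/
structure AI (S : St D V) (P P' : Pa) (f : ℕ → D) (F : XF) (X : XE) (c' : V → Bool) (c0 : ℕ)
    (B0 : ℕ) (dn : List FA) (cls : List (ℕ × FA)) (od : List FA) (Am Aq Im Iq B' BA Om : ℕ) :
    Prop where
  cl : ∀ c ∈ cls, c.1 = c.2.bt ∧ OA F X P' c0 c.2
  cv : ∀ a ∈ dn, P'.op c0 (dt X a) = true → ncl c0 a.lm = true → (a.bt, a) ∈ cls
  od : od = dn.filter (fun a => !ncl c0 a.lm)
  am : Bp Am 0 (AA S P P' f F X c' c0) (fun a => a.t) dn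
  aq : Bp Aq 0 (AA S P P' f F X c' c0) (fun a => F.q * a.t) dn
  im : Bp Im 0 (AN S P P' f F X c' c0) (fun a => a.t) dn
  iq : Bp Iq 0 (AN S P P' f F X c' c0) (fun a => F.q * a.t) dn
  b' : Bp B' B0 (AA S P P' f F X c' c0) (fun a => a.i') dn
  ba : Bp BA 0 (AA S P P' f F X c' c0) (fun a => a.i) dn
  om : Bp Om F.hl (OA F X P' c0) (fun a => F.q * (X.k + a.t) + (F.q - 1)) dn

theorem arcs_nil {c0 : ℕ} {k : XF.KA} {cls : List (ℕ × FA)} {od : List FA}
    {Am Aq Im Iq B' BA Om : ℕ} : XF.arcs c0 k [] cls od Am Aq Im Iq B' BA Om =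
      k cls od Am Aq Im Iq B' BA Om := rfl

theorem arcs_cons {c0 : ℕ} {k : XF.KA} {a : FA} {l : List FA} {cls : List (ℕ × FA)} {od : List FA}
    {Am Aq Im Iq B' BA Om : ℕ} : XF.arcs c0 k (a :: l) cls od Am Aq Im Iq B' BA Om =
      Bool.rec (motive := fun _ => _) (Bool.rec (motive := fun _ => _) (Bool.rec (motive := fun _ => _) false (XF.arcs c0 k l cls (a :: od) (Nat.lor Am a.bt) (Nat.lor Aq a.bq) Im Iq
              (Nat.lor B' a.bi') (Nat.lor BA a.bi) (Nat.lor Om a.hb)) (XF.arcs c0 k l cls (a :: od) Am Aq (Nat.lor Im a.bt) (Nat.lor Iq a.bq) B' BA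
              (Nat.lor Om a.hb))) (XF.arcs c0 k l cls (a :: od) (Nat.lor Am a.bt) (Nat.lor Aq a.bq) Im Iq
              (Nat.lor B' a.bi') (Nat.lor BA a.bi) (Nat.lor Om a.hb)) (Bool.rec (motive := fun _ => _) (a.sp) true (a.r))) (Bool.rec (motive := fun _ => _) (Bool.rec (motive := fun _ => _) false (XF.arcs c0 k l ((a.bt, a) :: cls) od (Nat.lor Am a.bt) (Nat.lor Aq a.bq) Im Iq
              (Nat.lor B' a.bi') (Nat.lor BA a.bi) (Nat.lor Om a.hb)) (XF.arcs c0 k l ((a.bt, a) :: cls) od Am Aq (Nat.lor Im a.bt) (Nat.lor Iq a.bq) B' BA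
              (Nat.lor Om a.hb))) (XF.arcs c0 k l cls od Am Aq Im Iq B' BA Om) (a.r)) (ncl c0 a.lm) := rfl

theorem arcs_sound (C : Cx S S' P P' f g X c' c0) (L : Lk F X P P') {B0 : ℕ} {k : XF.KA} :
    ∀ (l dn : List FA) (cls : List (ℕ × FA)) (od : List FA) (Am Aq Im Iq B' BA Om : ℕ),
      (∀ a ∈ l, a ∈ F.ars) →
      (∀ a ∈ l, a.sp = true → ncl c0 a.lm = false → ActR S P f X c' (dt X a)) →
      AI S P P' f F X c' c0 B0 dn cls od Am Aq Im Iq B' BA Om →
      XF.arcs c0 k l cls od Am Aq Im Iq B' BA Om = true →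
      ∃ cls od Am Aq Im Iq B' BA Om,
        AI S P P' f F X c' c0 B0 (l.reverse ++ dn) cls od Am Aq Im Iq B' BA Om ∧
        k cls od Am Aq Im Iq B' BA Om = true
  | [], dn, cls, od, Am, Aq, Im, Iq, B', BA, Om, _, _, h, hk =>
    ⟨cls, od, Am, Aq, Im, Iq, B', BA, Om, by simpa using h, hk⟩
  | a :: l, dn, cls, od, Am, Aq, Im, Iq, B', BA, Om, hl, hs, h, hk => by
    have hl' : ∀ a ∈ l, a ∈ F.ars := fun b hb => hl b (List.mem_cons_of_mem _ hb)
    have hs' : ∀ a ∈ l, a.sp = true → ncl c0 a.lm = false → ActR S P f X c' (dt X a) :=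
      fun b hb => hs b (List.mem_cons_of_mem _ hb)
    have ha := hl a (by simp)
    have aa := L.arc ha
    have hoa := Lk.oa_iff C L ha
    have fin : ∀ (cls : List (ℕ × FA)) (od : List FA) (Am Aq Im Iq B' BA Om : ℕ),
        AI S P P' f F X c' c0 B0 (a :: dn) cls od Am Aq Im Iq B' BA Om →
        XF.arcs c0 k l cls od Am Aq Im Iq B' BA Om = true →
        ∃ cls od Am Aq Im Iq B' BA Om,
          AI S P P' f F X c' c0 B0 ((a :: l).reverse ++ dn) cls od Am Aq Im Iq B' BA Om ∧
          k cls od Am Aq Im Iq B' BA Om = true := by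
      intro cls od Am Aq Im Iq B' BA Om h1 h2
      obtain ⟨cls, od, Am, Aq, Im, Iq, B', BA, Om, h3, h4⟩ :=
        arcs_sound C L l (a :: dn) cls od Am Aq Im Iq B' BA Om hl' hs' h1 h2
      refine ⟨cls, od, Am, Aq, Im, Iq, B', BA, Om, ?_, h4⟩
      rw [List.reverse_cons, List.append_assoc]
      exact h3
    rw [arcs_cons] at hk
    rcases bif_true hk with ⟨h1, h2⟩ | ⟨h1, h2⟩
    · have hf : dn.filter (fun a => !ncl c0 a.lm) = (a :: dn).filter (fun a => !ncl c0 a.lm) := by
        rw [List.filter_cons, h1]; rfl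
      rcases bif_true h2 with ⟨h3, h4⟩ | ⟨h3, h4⟩
      · -- closed
        have ho : ¬ OA F X P' c0 a := fun h => (hoa.1 h.2) ⟨h1, h3⟩
        refine fin _ _ _ _ _ _ _ _ _ ⟨h.cl, fun b hb ob hn => ?_, h.od.trans hf,
          h.am.no fun h => ho h.1, h.aq.no fun h => ho h.1, h.im.no fun h => ho h.1,
          h.iq.no fun h => ho h.1, h.b'.no fun h => ho h.1, h.ba.no fun h => ho h.1, h.om.no ho⟩ h4
        rcases List.mem_cons.1 hb with rfl | hb
        · exact absurd ⟨ha, ob⟩ ho
        · exact h.cv b hb ob hn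
      · -- open
        have ho : OA F X P' c0 a := ⟨ha, hoa.2 fun h => by rw [h3] at h; cases h.2⟩
        have hcl : ∀ c ∈ (a.bt, a) :: cls, c.1 = c.2.bt ∧ OA F X P' c0 c.2 := by
          intro c hc
          rcases List.mem_cons.1 hc with rfl | hc
          · exact ⟨rfl, ho⟩
          · exact h.cl c hc
        have hcv : ∀ b ∈ a :: dn, P'.op c0 (dt X b) = true → ncl c0 b.lm = true →
            (b.bt, b) ∈ (a.bt, a) :: cls := by
          intro b hb ob hn
          rcases List.mem_cons.1 hb with rfl | hb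
          · simp
          · exact List.mem_cons_of_mem _ (h.cv b hb ob hn)
        rcases bif_true h4 with ⟨h5, h6⟩ | ⟨h5, h6⟩
        · by_cases hA : ActR S P f X c' (dt X a)
          · exact fin _ _ _ _ _ _ _ _ _ ⟨hcl, hcv, h.od.trans hf, h.am.yes ⟨ho, hA⟩ aa.bt,
              h.aq.yes ⟨ho, hA⟩ aa.bq, h.im.no fun h => h.2 hA, h.iq.no fun h => h.2 hA,
              h.b'.yes ⟨ho, hA⟩ aa.bi', h.ba.yes ⟨ho, hA⟩ aa.bi, h.om.yes ho aa.hb⟩ h6
          · exact fin _ _ _ _ _ _ _ _ _ ⟨hcl, hcv, h.od.trans hf, h.am.no fun h => hA h.2,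
              h.aq.no fun h => hA h.2, h.im.yes ⟨ho, hA⟩ aa.bt, h.iq.yes ⟨ho, hA⟩ aa.bq,
              h.b'.no fun h => hA h.2, h.ba.no fun h => hA h.2, h.om.yes ho aa.hb⟩ h5
        · cases h6
    · have hf : a :: od = (a :: dn).filter (fun a => !ncl c0 a.lm) := by
        rw [List.filter_cons, h1, h.od]; rfl
      have ho : OA F X P' c0 a := ⟨ha, hoa.2 fun h => by rw [h1] at h; cases h.1⟩
      have hcv : ∀ b ∈ a :: dn, P'.op c0 (dt X b) = true → ncl c0 b.lm = true → (b.bt, b) ∈ cls := by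
        intro b hb ob hn
        rcases List.mem_cons.1 hb with rfl | hb
        · rw [h1] at hn; cases hn
        · exact h.cv b hb ob hn
      have yes : ActR S P f X c' (dt X a) → XF.arcs c0 k l cls (a :: od) (Nat.lor Am a.bt)
          (Nat.lor Aq a.bq) Im Iq (Nat.lor B' a.bi') (Nat.lor BA a.bi) (Nat.lor Om a.hb) = true →
          ∃ cls od Am Aq Im Iq B' BA Om,
            AI S P P' f F X c' c0 B0 ((a :: l).reverse ++ dn) cls od Am Aq Im Iq B' BA Om ∧
            k cls od Am Aq Im Iq B' BA Om = true := fun hA h2 =>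
        fin _ _ _ _ _ _ _ _ _ ⟨h.cl, hcv, hf, h.am.yes ⟨ho, hA⟩ aa.bt,
              h.aq.yes ⟨ho, hA⟩ aa.bq, h.im.no fun h => h.2 hA, h.iq.no fun h => h.2 hA,
              h.b'.yes ⟨ho, hA⟩ aa.bi', h.ba.yes ⟨ho, hA⟩ aa.bi, h.om.yes ho aa.hb⟩ h2
      rcases bif_true h2 with ⟨h3, h4⟩ | ⟨h3, h4⟩
      · refine yes ?_ h4
        rcases bif_true h3 with ⟨h5, -⟩ | ⟨h5, h6⟩
        · exact C.act_real aa.mem (by rw [← aa.r]; exact h5) ho.2
        · exact hs a (by simp) h6 h1
      · rcases bif_true h4 with ⟨h5, h6⟩ | ⟨h5, h6⟩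
        · by_cases hA : ActR S P f X c' (dt X a)
          · exact yes hA h6
          · exact fin _ _ _ _ _ _ _ _ _ ⟨h.cl, hcv, hf, h.am.no fun h => hA h.2,
              h.aq.no fun h => hA h.2, h.im.yes ⟨ho, hA⟩ aa.bt, h.iq.yes ⟨ho, hA⟩ aa.bq,
              h.b'.no fun h => hA h.2, h.ba.no fun h => hA h.2, h.om.yes ho aa.hb⟩ h5
        · cases h6

/-! ### Labelled edges -/

theorem ncl_opi {Q : Pa} {i c : ℕ} (hr : Q.real i = true) :
    ncl c (2 ^ Q.l i ||| 2 ^ Q.l (Q.φ i)) = false ↔ Q.op c i = true := by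
  rw [ncl_eq]
  unfold Pa.op
  rw [hr]
  simp

theorem rq1 (L : Lk F X P P') {i : ℕ} (hi : i < P.n) (hv : Vi S' c' (f i)) :
    RqOk S' P f F X c' (2 ^ X.ce' i, [F.q * X.ce' i]) where
  h1 t ht h := by
    have : t = X.ce' i := (bit1.1 h).symm
    rw [this]; simp
  h2 z hz := by
    rw [List.mem_singleton] at hz
    exact ⟨X.ce' i, (L.ce i hi).2, hz, bit1.2 rfl⟩
  h3 := ⟨i, hi, bit1.2 rfl, hv⟩

theorem labs_cons {c0 : ℕ} {k : List ℕ → List (ℕ × List ℕ) → Bool} {e : FL} {l : List FL}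
    {ex : List ℕ} {ex' : List (ℕ × List ℕ)} : XF.labs c0 k (e :: l) ex ex' =
      Bool.rec (motive := fun _ => _) (XF.labs c0 k l ex ex') (Bool.rec (motive := fun _ => _) (Bool.rec (motive := fun _ => _) (XF.labs c0 k l ex ex') (XF.labs c0 k l (e.bi :: ex) ex') (e.s)) (Bool.rec (motive := fun _ => _) false (XF.labs c0 k l (Bool.rec (motive := fun _ => _) ex (e.bi :: ex) (e.s))
          ((e.bi', [e.qi']) :: ex')) (XF.labs c0 k l ex ex')) (e.s')) (ncl c0 e.lm) := rfl

theorem labs_soundF (C : Cx S S' P P' f g X c' c0) (L : Lk F X P P')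
    {k : List ℕ → List (ℕ × List ℕ) → Bool} :
    ∀ (l : List (ℕ × Bool × Bool)) (ex : List ℕ) (ex' : List (ℕ × List ℕ)),
      (∀ q ∈ l, q.1 < P.n ∧ P.real q.1 = true ∧
        (q.2.2 = true → Vi S' c' (f q.1) ∨ Vi S' c' (S.M.α (f q.1)))) →
      XF.labs c0 k (l.map (mkL F.q X P)) ex ex' = true → (∀ m ∈ ex', RqOk S' P f F X c' m) →
      ∃ ey ey', k ey ey' = true ∧ (∀ m ∈ ey', RqOk S' P f F X c' m) ∧ (∀ m ∈ ex, m ∈ ey) ∧
        ∀ q ∈ l, LrOk S S' P f X c' c0 ey q
  | [], ex, ex', _, h, hd => ⟨ex, ex', h, hd, fun _ h => h, by simp⟩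
  | (i, s, s') :: l, ex, ex', hl, h, hd => by
    have hl' : ∀ q ∈ l, q.1 < P.n ∧ P.real q.1 = true ∧ (q.2.2 = true → Vi S' c' (f q.1) ∨
        Vi S' c' (S.M.α (f q.1))) := fun q hq => hl q (List.mem_cons_of_mem _ hq)
    obtain ⟨hi, hre, hv⟩ := hl (i, s, s') (by simp)
    have fin : ∀ (ex1 : List ℕ) (ex1' : List (ℕ × List ℕ)), (∀ m ∈ ex, m ∈ ex1) →
        XF.labs c0 k (l.map (mkL F.q X P)) ex1 ex1' = true →
        (∀ m ∈ ex1', RqOk S' P f F X c' m) → (s = true → P.op c0 i = true ∨ 2 ^ X.ce i ∈ ex1 ∨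
          Vi S' c' (S.M.α (f i))) →
        ∃ ey ey', k ey ey' = true ∧ (∀ m ∈ ey', RqOk S' P f F X c' m) ∧ (∀ m ∈ ex, m ∈ ey) ∧
          ∀ q ∈ (i, s, s') :: l, LrOk S S' P f X c' c0 ey q := by
      intro ex1 ex1' h1 h2 h3 h4
      obtain ⟨ey, ey', k1, k2, k3, k4⟩ := labs_soundF C L l ex1 ex1' hl' h2 h3
      refine ⟨ey, ey', k1, k2, fun m hm => k3 m (h1 m hm), fun q hq => ?_⟩
      rcases List.mem_cons.1 hq with rfl | hq
      · intro hs
        rcases h4 hs with h5 | h5 | h5
        · exact Or.inl h5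
        · exact Or.inr (Or.inl (k3 _ h5))
        · exact Or.inr (Or.inr h5)
      · exact k4 q hq
    rw [List.map_cons, labs_cons] at h
    rcases bif_true h with ⟨h1, h2⟩ | ⟨h1, h2⟩
    · rcases bif_true h2 with ⟨h3, h4⟩ | ⟨h3, h4⟩
      · rcases bif_true h4 with ⟨h5, h6⟩ | ⟨h5, h6⟩
        · rcases hv h3 with hv | hv
          · refine fin _ _ ?_ h6 ?_ ?_
            · intro m hm
              rw [bif_eq]
              split_ifs
              · exact List.mem_cons_of_mem _ hm
              · exact hm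
            · intro m hm
              rcases List.mem_cons.1 hm with rfl | hm
              · exact rq1 L hi hv
              · exact hd m hm
            · intro hs
              rw [bif_eq, if_pos (show (mkL F.q X P (i, s, s')).s = true from hs)]
              exact Or.inr (Or.inl (List.mem_cons_self))
          · exact fin ex ex' (fun _ h => h) h5 hd fun _ => Or.inr (Or.inr hv)
        · cases h6
      · rcases bif_true h4 with ⟨h5, h6⟩ | ⟨h5, h6⟩
        · exact fin _ _ (fun m hm => List.mem_cons_of_mem _ hm) h6 hd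
            fun _ => Or.inr (Or.inl (List.mem_cons_self))
        · exact fin ex ex' (fun _ h => h) h6 hd fun h => by
            rw [show (mkL F.q X P (i, s, s')).s = s from rfl, h] at h5
            cases h5
    · exact fin ex ex' (fun _ h => h) h2 hd fun _ => Or.inl ((ncl_opi hre).1 h1)

/-! ### Matchings -/

theorem mt2_eq {α : Type} (k : List (α × α) → Bool) (l : List α) : ∀ st prs,
    mt2 k l st prs = mt k l st prs := by
  induction l with
  | nil =>
    intro st prs
    cases st with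
    | nil => rfl
    | cons t s => rfl
  | cons i l ih =>
    intro st prs
    cases st with
    | nil => exact ih [i] prs
    | cons t s =>
      show (Bool.rec (motive := fun _ => _) false (mt2 k l s ((t, i) :: prs)) (mt2 k l (i :: t :: s) prs)) =
        (mt k l (i :: t :: s) prs && mt k l s ((t, i) :: prs))
      rw [ih, ih, bif_eq]
      cases mt k l (i :: t :: s) prs <;> simp

/-- the matching covers the list -/
theorem mt_cover {α : Type} {R : α → α → Prop} (hR : Equivalence R) (k : List (α × α) → Bool)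
    (l : List α) : ∀ st prs, mt k l st prs = true → NCL R (st.reverse ++ l) →
      EvL R (st.reverse ++ l) → st.IsChain (fun a b => ¬ R b a) → (∀ p ∈ prs, R p.1 p.2) →
      ∃ prs', (∀ p ∈ prs', R p.1 p.2 ∧ ((p.1 ∈ st.reverse ++ l ∧ p.2 ∈ st.reverse ++ l) ∨ p ∈ prs)) ∧
        (∀ x ∈ st.reverse ++ l, ∃ p ∈ prs', x = p.1 ∨ x = p.2) ∧ (∀ p ∈ prs, p ∈ prs') ∧
        k prs' = true := by
  classical
  induction l with
  | nil =>
    intro st prs h hnc hev hch hp
    cases st with
    | nil => exact ⟨prs, fun p h' => ⟨hp p h', Or.inr h'⟩, by simp, fun _ h => h, h⟩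
    | cons t s =>
      exfalso
      rw [List.append_nil] at hnc hev
      refine no_chain hR _ (t :: s).reverse rfl (by simp) hnc hev ?_
      rw [List.isChain_reverse]
      exact hch
  | cons i l ih =>
    intro st prs h hnc hev hch hp
    cases st with
    | nil =>
      have h' : mt k l [i] prs = true := h
      obtain ⟨prs', h1, h3, h4, h2⟩ := ih [i] prs h' (by simpa using hnc) (by simpa using hev)
        (by simp) hp
      refine ⟨prs', fun p hp' => ?_, fun x hx => ?_, h4, h2⟩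
      · have := h1 p hp'
        simpa using this
      · exact h3 x (by simpa using hx)
    | cons t s =>
      have h' : FC6.mt k l (i :: t :: s) prs = true ∧ FC6.mt k l s ((t, i) :: prs) = true := by
        simpa [FC6.mt] using h
      have e : (i :: t :: s).reverse ++ l = (t :: s).reverse ++ i :: l := by simp
      by_cases hti : R t i
      · have e2 : (t :: s).reverse ++ i :: l = s.reverse ++ (t :: i :: l) := by simp
        have hsub : (s.reverse ++ l).Sublist ((t :: s).reverse ++ i :: l) := by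
          rw [e2]
          exact List.Sublist.append (List.Sublist.refl _)
            ((List.sublist_cons_self i l).trans (List.sublist_cons_self t _))
        obtain ⟨prs', h1, h5, h6, h2⟩ := ih s ((t, i) :: prs) h'.2 (hnc.sub hsub) (by
          intro j hj
          have h3 := hev j (hsub.subset hj)
          rw [e2, List.countP_append, List.countP_cons, List.countP_cons] at h3
          rw [List.countP_append]
          have h4 : decide (R j t) = decide (R j i) := by
            rw [decide_eq_decide]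
            exact ⟨fun h => hR.trans h hti, fun h => hR.trans h (hR.symm hti)⟩
          rw [h4] at h3
          by_cases h5 : R j i
          · simp only [h5, decide_true, if_true] at h3
            rcases h3 with ⟨q, hq⟩
            exact ⟨q - 1, by omega⟩
          · simp only [h5, decide_false, Bool.false_eq_true, if_false, Nat.add_zero] at h3
            exact h3) hch.tail (by
          intro p hp'
          rcases List.mem_cons.1 hp' with rfl | hp'
          · exact hti
          · exact hp p hp')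
        refine ⟨prs', fun p hp' => ⟨(h1 p hp').1, ?_⟩, fun x hx => ?_, fun p hp' =>
          h6 p (List.mem_cons_of_mem _ hp'), h2⟩
        · rcases (h1 p hp').2 with ⟨h3, h4⟩ | h3
          · exact Or.inl ⟨hsub.subset h3, hsub.subset h4⟩
          · rcases List.mem_cons.1 h3 with rfl | h3
            · left
              constructor <;> simp
            · exact Or.inr h3
        · rw [e2, List.mem_append, List.mem_cons, List.mem_cons] at hx
          rcases hx with hx | rfl | rfl | hx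
          · exact h5 x (List.mem_append_left _ hx)
          · exact ⟨(x, i), h6 _ (by simp), Or.inl rfl⟩
          · exact ⟨(t, x), h6 _ (by simp), Or.inr rfl⟩
          · exact h5 x (List.mem_append_right _ hx)
      · obtain ⟨prs', h1, h5, h6, h2⟩ := ih (i :: t :: s) prs h'.1 (by rw [e]; exact hnc)
          (by rw [e]; exact hev) (by
            rw [List.isChain_cons_cons]; exact ⟨hti, hch⟩) hp
        refine ⟨prs', fun p hp' => ?_, fun x hx => ?_, h6, h2⟩
        · have := h1 p hp'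
          rw [e] at this
          exact this
        · rw [← e] at hx
          exact h5 x hx

end Pool.FC7
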