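import Pool.Agent.FC7.XFf

/-! # The guided extension check: definitions

The colours of the ring labels are chosen one after the other; the arcs and the edges are processed as
soon as the labels of their ends are coloured; then the inner labels of `P'` are coloured.  As long as
an inner label has no colour its edges count as open and marked (coarse states); a test for `P` which
succeeds in a coarse state needs no further branching.  A certificate `N` (codes of `W` bits) tells in
which states a test is done and with which colours of the inner labels of `P`.  A search returns `0`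
(failure) or the rest of the certificate + 1.

`V` = a closed set of cells of `P'` which contains all marked cells, `BA` = cells of `P` at the arcs
which are known to be active, `Im` = mask of arcs which are known to be inactive. -/

set_option linter.unusedSectionVars false

namespace Pool.FC7

open Pool.FC6

/-- a search -/
abbrev KQ := ℕ → ℕ

/-- one search after the other -/
noncomputable def sq (x : ℕ) (f : KQ) : ℕ := Nat.rec (motive := fun _ => ℕ) 0 (fun n _ => f n) x

/-- a search in a state: a list of classes, a matrix of unrelated arcs, the visited cells of `P'`, the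
relation of the cells of `P'`, the joined pairs -/
abbrev KD := List (ℕ × FA) → ℕ → ℕ → ℕ → List (FA × FA) → KQ

/-- a test: colours of the inner labels of `P`, active cells, known marks, cells, relation, classes,
joined pairs -/
abbrev KT := ℕ → ℕ → ℕ → ℕ → ℕ → List (ℕ × FA) → List (FA × FA) → Bool

/-- an item of the table for the ring: a label is coloured, an arc, an edge of `P'`, a labelled edge,
edges of `P` -/
inductive IT where
  | b (m : ℕ)
  | a (a : FA)
  | e (e : FE)
  | l (e : FL)
  | p (l : List FE)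
deriving DecidableEq

/-- colouring, classes, arcs with ends of different colours, marked cells of `P'`, `P`, high bits of
the open arcs, relation of the cells of `P'`, requirements of labels, relation of the cells of `P`,
marked cells of `P` -/
abbrev KM := ℕ → List (ℕ × FA) → List FA → ℕ → ℕ → ℕ → ℕ → List ℕ → (ℕ → ℕ) → (ℕ → ℕ) → KQ

/-- merging of all edges -/
noncomputable def mrs (K F : ℕ) (l : List FE) : ℕ → ℕ :=
  List.rec (motive := fun _ => ℕ → ℕ) (fun R => R)
    (fun e _ ih R => ih (mr K F R e.i e.j e.qi e.qj)) l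

noncomputable def mrb (l : List FE) : ℕ → ℕ :=
  List.rec (motive := fun _ => ℕ → ℕ) (fun B => B) (fun e _ ih B => ih (Nat.lor B e.bm)) l

/-- the remaining edges are open -/
noncomputable def cR (K F : ℕ) (l : List (ℕ × List FE)) : ℕ → ℕ :=
  List.rec (motive := fun _ => ℕ → ℕ) (fun R => R) (fun v _ ih R => ih (mrs K F v.2 R)) l

noncomputable def cB (l : List (ℕ × List FE)) : ℕ → ℕ :=
  List.rec (motive := fun _ => ℕ → ℕ) (fun B => B) (fun v _ ih B => ih (mrb v.2 B)) l

/-- all pairs with the first class `a` -/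
noncomputable def innerS (k : ℕ × FA → ℕ × FA → ℕ → KQ) (M : ℕ) (a : ℕ × FA)
    (cont : ℕ → KQ) (l : List (ℕ × FA)) : ℕ → KQ :=
  List.rec (motive := fun _ => ℕ → KQ) cont
    (fun b _ ih Fb => Bool.rec (motive := fun _ => KQ) (ih Fb)
      (Bool.rec (motive := fun _ => KQ) (ih Fb)
        (fun N => sq (k a b Fb N)
          (ih (Nat.lor Fb (Nat.lor (Nat.mul a.2.bq b.2.bt) (Nat.mul b.2.bq a.2.bt)))))
        (Nat.beq (Nat.land (Nat.shiftRight Fb a.2.qt) b.2.bt) 0))
      (Nat.beq (Nat.land b.2.bi' M) 0)) l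

/-- all pairs which leave `M` -/
noncomputable def outerS (k : ℕ × FA → ℕ × FA → ℕ → KQ) (M : ℕ) (cls l : List (ℕ × FA)) :
    ℕ → KQ :=
  List.rec (motive := fun _ => ℕ → KQ) (fun _ => Nat.succ)
    (fun a _ ih Fb => Bool.rec (motive := fun _ => KQ) (innerS k M a ih cls Fb) (ih Fb)
      (Nat.beq (Nat.land a.2.bi' M) 0)) l

/-- noncrossing matchings with at most `h` further open arcs -/
noncomputable def mtS (k : List (FA × FA) → KQ) (l : List FA) :
    List FA → ℕ → List (FA × FA) → KQ :=
  List.rec (motive := fun _ => List FA → ℕ → List (FA × FA) → KQ)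
    (fun _ _ => k)
    (fun i _ ih st h => List.rec (motive := fun _ => List (FA × FA) → KQ)
      (Nat.rec (motive := fun _ => List (FA × FA) → KQ) (fun _ => Nat.succ) (fun h _ => ih [i] h) h)
      (fun t s _ prs => Nat.rec (motive := fun _ => KQ) (ih s h ((t, i) :: prs))
        (fun h' _ N => sq (ih s h ((t, i) :: prs) N) (ih (i :: t :: s) h' prs)) h) st) l

/-- the arcs as classes -/
noncomputable def sng (cls : List (ℕ × FA)) (od : List FA) : List (ℕ × FA) :=
  List.rec (motive := fun _ => List (ℕ × FA)) cls (fun a _ ih => (a.bt, a) :: ih) od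

noncomputable def cnt (od : List FA) : ℕ :=
  List.rec (motive := fun _ => ℕ) 0 (fun _ _ ih => Nat.succ ih) od

namespace XF

variable (X : XF)

/-- the visited cells after the union of the classes of the arcs `a`, `c` -/
def vm (V R : ℕ) (a c : FA) : ℕ :=
  Bool.rec (motive := fun _ => ℕ) (Nat.lor V (row X.F R a.qi')) V
    (Nat.beq (Nat.land V (Nat.lor a.bi' c.bi')) 0)

/-- the class of `a` is enlarged -/
noncomputable def absorbS (IA IB : ℕ) (a : FA) (k : KD) (l : List (ℕ × FA)) :
    List (ℕ × FA) → ℕ → ℕ → ℕ → ℕ → List (FA × FA) → KQ :=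
  List.rec (motive := fun _ => List (ℕ × FA) → ℕ → ℕ → ℕ → ℕ → List (FA × FA) → KQ)
    (fun kp m Fb V R' pp => k ((m, a) :: kp) Fb V R' pp)
    (fun c _ ih kp m Fb V R' pp =>
      Bool.rec (motive := fun _ => KQ) (ih kp (Nat.lor m c.1) Fb V R' pp)
        (Bool.rec (motive := fun _ => KQ)
          (Bool.rec (motive := fun _ => KQ)
            (Bool.rec (motive := fun _ => KQ) Nat.succ
              (ih kp (Nat.lor m c.1) (ctr X.K X.F Fb a.t c.2.t a.qt c.2.qt)
                (X.vm V (mr X.K X.F R' a.i' c.2.i' a.qi' c.2.qi') a c.2)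
                (mr X.K X.F R' a.i' c.2.i' a.qi' c.2.qi') ((a, c.2) :: pp))
              (Nat.beq (Nat.land (Nat.shiftRight Fb a.qt) c.2.bt) 0))
            (ih (c :: kp) m Fb V R' pp) (Nat.beq (Nat.land c.1 IB) c.1))
          (ih (c :: kp) m Fb V R' pp) (Nat.beq (Nat.land c.1 IA) 0))
        (Nat.beq (Nat.land c.1 m) 0)) l

/-- the arcs `a`, `b` are joined -/
noncomputable def joinS (k : KD) (cls : List (ℕ × FA)) (V R' : ℕ) (pp : List (FA × FA))
    (a b : ℕ × FA) (Fb : ℕ) : KQ :=
  X.absorbS (Bool.rec (motive := fun _ => ℕ) (Nat.sub a.2.bt (Nat.mul 2 b.2.bt))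
      (Nat.sub b.2.bt (Nat.mul 2 a.2.bt)) (Nat.ble a.2.t b.2.t))
    (Bool.rec (motive := fun _ => ℕ) (Nat.sub (Nat.mul 2 a.2.bt) b.2.bt)
      (Nat.sub (Nat.mul 2 b.2.bt) a.2.bt) (Nat.ble a.2.t b.2.t)) a.2 k cls [] (Nat.lor a.1 b.1)
    (ctr X.K X.F Fb a.2.t b.2.t a.2.qt b.2.qt)
    (X.vm V (mr X.K X.F R' a.2.i' b.2.i' a.2.qi' b.2.qi') a.2 b.2)
    (mr X.K X.F R' a.2.i' b.2.i' a.2.qi' b.2.qi') ((a.2, b.2) :: pp)

/-- the activity of the first class which meets `M` and is not known to be inactive is decided -/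
noncomputable def splS (k : ℕ → ℕ → ℕ → KQ) (BA Im V R' M : ℕ) (d : KQ)
    (l : List (ℕ × FA)) : KQ :=
  List.rec (motive := fun _ => KQ) d
    (fun c _ ih => Bool.rec (motive := fun _ => KQ)
      (Bool.rec (motive := fun _ => KQ) ih
        (fun N => sq (k BA (Nat.lor Im c.1) V N)
          (k (Nat.lor BA c.2.bi) Im (Nat.lor V (row X.F R' c.2.qi'))))
        (Nat.beq (Nat.land c.1 Im) 0))
      ih (Nat.beq (Nat.land c.2.bi' M) 0)) l

/-- the first requirement which is not met -/
noncomputable def unmetS (V R' : ℕ) (k : ℕ → KQ) (d : KQ) (l : List (ℕ × List ℕ)) : KQ :=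
  List.rec (motive := fun _ => KQ) d
    (fun m _ ih => Bool.rec (motive := fun _ => KQ) ih (k (X.clo R' m.2))
      (Nat.beq (Nat.land m.1 V) 0)) l

/-- a state without test -/
noncomputable def brS (k : ℕ → ℕ → KD) (BA Im : ℕ) (cls : List (ℕ × FA)) (Fb V R' : ℕ)
    (pp : List (FA × FA)) : KQ :=
  (fun M => Bool.rec (motive := fun _ => KQ)
    (outerS (X.joinS (k BA Im) cls V R' pp) M cls cls Fb)
    (X.unmetS V R' (fun M => X.splS (fun BA Im V => k BA Im cls Fb V R' pp) BA Im V R' M
        (outerS (X.joinS (k BA Im) cls V R' pp) M cls cls Fb) cls)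
      (X.splS (fun BA Im V => k BA Im cls Fb V R' pp) BA Im V R' (Nat.sub X.F V) (fun _ => 0) cls)
      X.rq)
    (Nat.beq M V)) (X.vis V R')

/-- one state -/
noncomputable def stepS (w m : ℕ) (lf : KT) (k : ℕ → ℕ → KD) (BA Im : ℕ) (cls : List (ℕ × FA))
    (Fb V R' : ℕ) (pp : List (FA × FA)) : KQ := fun N =>
  Nat.rec (motive := fun _ => ℕ) (X.brS k BA Im cls Fb V R' pp (Nat.shiftRight N w))
    (fun ξ _ => Bool.rec (motive := fun _ => ℕ) 0 (Nat.succ (Nat.shiftRight N w))
      (lf ξ BA V V R' cls pp)) (Nat.land N m)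

noncomputable def goS (w m : ℕ) (lf : KT) (fuel : ℕ) : ℕ → ℕ → KD :=
  Nat.rec (motive := fun _ => ℕ → ℕ → KD) (fun _ _ _ _ _ _ _ _ => 0)
    (fun _ ih => X.stepS w m lf ih) fuel

/-- merging of the pairs -/
noncomputable def mpr (R : ℕ) (pp : List (FA × FA)) : ℕ :=
  List.rec (motive := fun _ => ℕ) R
    (fun p _ ih => mr X.K X.F ih p.1.i p.2.i p.1.qi p.2.qi) pp

/-- the visited cells after the pairs of a matching are joined -/
noncomputable def pvv (V R : ℕ) (prs : List (FA × FA)) : ℕ :=
  List.rec (motive := fun _ => ℕ) V (fun p l ih => X.vm ih (X.prr R (p :: l)) p.1 p.2) prs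

/-- the conditions for `P` -/
noncomputable def lfM (V Vk R' Om : ℕ) (cls : List (ℕ × FA)) (ex : List ℕ) (B R : ℕ) : Bool :=
  (fun U => Bool.rec (motive := fun _ => Bool) false (Bool.rec (motive := fun _ => Bool) false
    (Bool.rec (motive := fun _ => Bool) false (Bool.rec (motive := fun _ => Bool) false
      (Bool.rec (motive := fun _ => Bool) false (X.un V R' U R Om cls) (X.tra V U Om))
      (Bool.rec (motive := fun _ => Bool) true (Nat.beq B 0) (Nat.beq Vk 0))) (meet U ex))
    (Nat.beq (Nat.land (nz X.O X.FK X.tj U) X.hj) X.hj)) (Nat.beq (Nat.land B U) B)) (X.vis B R)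

/-- the test -/
noncomputable def tst (Om : ℕ) (ex : List ℕ) (RP BP : ℕ → ℕ) : KT :=
  fun ξ BA Vk V R' cls pp => Bool.rec (motive := fun _ => Bool) false
    (X.lfM V Vk R' Om cls ex (Nat.lor (BP ξ) BA) (X.mpr (RP ξ) pp)) (Nat.beq (Nat.shiftRight ξ X.x) 0)

/-- the inner labels of `P'` are coloured, for one matching -/
noncomputable def nd (w m : ℕ) (lf : KT) (go : KD) (cls : List (ℕ × FA)) (BA : ℕ)
    (l : List (ℕ × List FE)) : ℕ → ℕ → ℕ → List (FA × FA) → KQ :=
  List.rec (motive := fun _ => ℕ → ℕ → ℕ → List (FA × FA) → KQ)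
    (fun _ R B' prs => go (pcl cls prs) 0 (X.pvv B' R prs) (X.prr R prs) prs)
    (fun v l ih c R B' prs N => Nat.rec (motive := fun _ => ℕ)
      (sq (ih c (meR X.K X.F c v.2 R) (meB c v.2 B') prs (Nat.shiftRight N w))
        (ih (Nat.lor c v.1) (meR X.K X.F (Nat.lor c v.1) v.2 R) (meB (Nat.lor c v.1) v.2 B') prs))
      (fun ξ _ => Bool.rec (motive := fun _ => ℕ) 0 (Nat.succ (Nat.shiftRight N w))
        (lf ξ BA B' (X.pvv (cB (v :: l) B') (cR X.K X.F (v :: l) R) prs)
          (X.prr (cR X.K X.F (v :: l) R) prs) (pcl cls prs) prs)) (Nat.land N m)) l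

/-- the inner labels of `P'` are coloured -/
noncomputable def df2 (w m : ℕ) (lf : KT) (go : KD) (cls : List (ℕ × FA)) (od : List FA) (BA : ℕ)
    (l : List (ℕ × List FE)) : ℕ → ℕ → ℕ → KQ :=
  List.rec (motive := fun _ => ℕ → ℕ → ℕ → KQ)
    (fun c R B' N => Nat.rec (motive := fun _ => ℕ) 0
      (fun d _ => Nat.rec (motive := fun _ => ℕ)
        (mtS (X.nd w m lf go cls BA [] c R B') od [] (Nat.div (cnt od) 2) [] (Nat.shiftRight N w))
        (fun ξ _ => Bool.rec (motive := fun _ => ℕ) 0 (Nat.succ (Nat.shiftRight N w))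
          (lf ξ BA B' B' R (sng cls od) [])) d) (Nat.land N m))
    (fun v l ih c R B' N => Nat.rec (motive := fun _ => ℕ)
      (sq (ih c (meR X.K X.F c v.2 R) (meB c v.2 B') (Nat.shiftRight N w))
        (ih (Nat.lor c v.1) (meR X.K X.F (Nat.lor c v.1) v.2 R) (meB (Nat.lor c v.1) v.2 B')))
      (fun d _ => Nat.rec (motive := fun _ => ℕ)
        (mtS (X.nd w m lf go cls BA (v :: l) c R B') od [] (Nat.div (cnt od) 2) []
          (Nat.shiftRight N w))
        (fun ξ _ => Bool.rec (motive := fun _ => ℕ) 0 (Nat.succ (Nat.shiftRight N w))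
          (lf ξ BA B' (cB (v :: l) B') (cR X.K X.F (v :: l) R) (sng cls od) [])) d)
      (Nat.land N m)) l

/-- the ring is coloured -/
noncomputable def fin (w m : ℕ) (l : List (ℕ × List FE)) : KM :=
  fun c cls od B' BA Om R ex RP BP =>
    X.df2 w m (X.tst Om ex RP BP) (X.goS w m (X.tst Om ex RP BP) 20 BA 0) cls od BA l c R B'

end XF

noncomputable def iB (m : ℕ) (ih : KM) : KM := fun c cls od B' BA Om R ex RP BP N =>
  sq (ih c cls od B' BA Om R ex RP BP N) (ih (Nat.lor c m) cls od B' BA Om R ex RP BP)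

noncomputable def iA (a : FA) (ih : KM) : KM := fun c cls od B' BA Om R ex RP BP =>
  Bool.rec (motive := fun _ => KQ)
    (Bool.rec (motive := fun _ => KQ)
      (ih c cls (a :: od) B' BA (Nat.lor Om a.hb) R ex RP BP)
      (ih c cls (a :: od) (Nat.lor B' a.bi') (Nat.lor BA a.bi) (Nat.lor Om a.hb) R ex RP BP)
      (Bool.rec (motive := fun _ => Bool) a.sp true a.r))
    (Bool.rec (motive := fun _ => KQ)
      (ih c ((a.bt, a) :: cls) od B' BA (Nat.lor Om a.hb) R ex RP BP)
      (ih c cls od B' BA Om R ex RP BP) a.r) (ncl c a.lm)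

noncomputable def iE (K F : ℕ) (e : FE) (ih : KM) : KM := fun c cls od B' BA Om R ex =>
  Bool.rec (motive := fun _ => (ℕ → ℕ) → (ℕ → ℕ) → KQ)
    (ih c cls od (Nat.lor B' e.bm) BA Om (mr K F R e.i e.j e.qi e.qj) ex)
    (ih c cls od B' BA Om R ex) (ncl c e.lm)

noncomputable def iL (e : FL) (ih : KM) : KM := fun c cls od B' BA Om R ex =>
  Bool.rec (motive := fun _ => (ℕ → ℕ) → (ℕ → ℕ) → KQ) (ih c cls od B' BA Om R ex)
    (Bool.rec (motive := fun _ => (ℕ → ℕ) → (ℕ → ℕ) → KQ) (ih c cls od B' BA Om R ex)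
      (ih c cls od B' BA Om R (e.bi :: ex)) e.s) (ncl c e.lm)

noncomputable def iP (K F : ℕ) (l : List FE) (ih : KM) : KM := fun c cls od B' BA Om R ex RP BP =>
  ih c cls od B' BA Om R ex (fun ξ => meR K F (Nat.add c ξ) l (RP ξ))
    (fun ξ => meB (Nat.add c ξ) l (BP ξ))

/-- one item -/
noncomputable def iT (K F : ℕ) (t : IT) (ih : KM) : KM :=
  IT.rec (motive := fun _ => KM) (fun m => iB m ih) (fun a => iA a ih)
    (fun e => iE K F e ih) (fun e => iL e ih) (fun l => iP K F l ih) t

/-- the search through the colourings of the ring -/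
noncomputable def dfs (K F : ℕ) (fin : KM) (l : List IT) : KM :=
  List.rec (motive := fun _ => KM) fin (fun t _ ih => iT K F t ih) l

/-- the check for all colourings with given first part `c`, with certificate `N` -/
noncomputable def XF.chM (X : XF) (its : List IT) (l : List (ℕ × List FE)) (w m c N : ℕ) : ℕ :=
  dfs X.K X.F (X.fin w m l) its c [] [] 0 0 X.hl X.I [] (fun _ => X.I) (fun _ => 0) N

end Pool.FC7
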