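import Pool.Agent.FC7.XM

/-! # The guided extension check: the search of a state -/

open Finset

set_option linter.unusedSectionVars false

namespace Pool.FC7

open Pool.FC6

variable {F : XF} {X : XE} {P P' : Pa}
variable {D V : Type} [Fintype D] [DecidableEq V]
variable {S S' : St D V} {f : ℕ → D} {g : ℕ → V} {c' : V → Bool} {c0 : ℕ}

theorem sq_ne {x : ℕ} {f : KQ} (h : sq x f ≠ 0) : x ≠ 0 ∧ ∃ n, f n ≠ 0 := by
  cases x with
  | zero => exact absurd rfl h
  | succ n => exact ⟨Nat.succ_ne_zero n, n, h⟩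

theorem brq {α : Type} {b : Bool} {x y : α} {p : α → Prop}
    (h : p (Bool.rec (motive := fun _ => α) y x b)) : (b = true ∧ p x) ∨ (b = false ∧ p y) := by
  cases b
  · exact Or.inr ⟨rfl, h⟩
  · exact Or.inl ⟨rfl, h⟩

/-- the visited cells: a closed set which contains the marked cells -/
structure VI (S' : St D V) (P P' : Pa) (f : ℕ → D) (F : XF) (X : XE) (c' : V → Bool) (c0 : ℕ)
    (R' W : ℕ) : Prop where
  cl : Cl F.q R' W
  br : ∀ i < P.n, br P' c0 i = true → W.testBit (X.ce' i) = true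
  rp : ∀ t, W.testBit t = true → ∃ i < P.n, Vi S' c' (f i) ∧ rb F.q R' (X.ce' i) t

/-- arcs which are known to be inactive -/
def IO (S : St D V) (P P' : Pa) (f : ℕ → D) (F : XF) (X : XE) (c' : V → Bool) (c0 : ℕ)
    (Im : ℕ) : Prop := ∀ a, OA F X P' c0 a → Im.testBit a.t = true → ¬ ActR S P f X c' (dt X a)

theorem OA.lt (C : Cx S S' P P' f g X c' c0) (L : Lk F X P P') {a : FA} (h : OA F X P' c0 a) :
    a.i' < F.w := by
  rw [(L.arc h.1).i']
  exact (L.ce _ (C.st.rs _ (C.st.asm (L.arc h.1).mem)).1).2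

/-- closedness after a union -/
theorem vm_cl (L : Lk F X P P') {R' W : ℕ} (hR : Eqv F.q F.w R') (h : Cl F.q R' W) {a c : FA}
    (ha : a.i' < F.w) (hc : c.i' < F.w) (ab : a.bi' = 2 ^ a.i') (cb : c.bi' = 2 ^ c.i')
    (aq : a.qi' = F.q * a.i') (cq : c.qi' = F.q * c.i') :
    Cl F.q (mr F.K F.F R' a.i' c.i' a.qi' c.qi')
      (F.vm W (mr F.K F.F R' a.i' c.i' a.qi' c.qi') a c) := by
  have hw := L.hw
  obtain ⟨q1, q2, q3⟩ := hR.mr (i := a.i') (j := c.i') L.hq (le_of_lt L.hw) ha hc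
  have hRe : mr F.K F.F R' a.i' c.i' a.qi' c.qi' =
      mr (Ks F.q F.w) (2 ^ F.q - 1) R' a.i' c.i' (F.q * a.i') (F.q * c.i') := by
    rw [L.hK, L.hF, aq, cq]
  rw [hRe]
  set R1 := mr (Ks F.q F.w) (2 ^ F.q - 1) R' a.i' c.i' (F.q * a.i') (F.q * c.i') with hR1
  have sym : ∀ s t, rb F.q R' s t → (W.testBit s = true ↔ W.testBit t = true) := fun s t hst =>
    ⟨h s t hst, h t s (hR.symm _ _ hst)⟩
  unfold XF.vm
  rw [bif_eq]
  split_ifs with hz
  · rw [beq_true, land_eq, lor_eq, ab, cb] at hz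
    have na : W.testBit a.i' = false := by
      by_contra hcon
      rw [Bool.not_eq_false] at hcon
      exact and_eq_zero_iff.1 hz _ hcon (bit2.2 (Or.inl rfl))
    have nc : W.testBit c.i' = false := by
      by_contra hcon
      rw [Bool.not_eq_false] at hcon
      exact and_eq_zero_iff.1 hz _ hcon (bit2.2 (Or.inr rfl))
    have hT : Equivalence (fun s t => (W.testBit s = true ↔ W.testBit t = true)) :=
      ⟨fun _ => Iff.rfl, fun h => h.symm, fun h h' => h.trans h'⟩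
    have hS : Sub F.q R1 (fun s t => (W.testBit s = true ↔ W.testBit t = true)) := by
      rw [hR1]
      exact Sub.mr hT sym L.hq (by omega) (by omega) (by rw [na, nc])
    exact fun s t hst hs => (hS s t hst).1 hs
  · set U := Nat.lor W (row F.F R1 a.qi') with hU
    have ub : ∀ t, U.testBit t = true ↔ W.testBit t = true ∨ rb F.q R1 a.i' t := by
      intro t
      rw [hU, lor_eq, Nat.testBit_or, Bool.or_eq_true, L.hF, aq, row_bit]
    have hT : Equivalence (fun s t => (U.testBit s = true ↔ U.testBit t = true)) :=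
      ⟨fun _ => Iff.rfl, fun h => h.symm, fun h h' => h.trans h'⟩
    have hS : Sub F.q R1 (fun s t => (U.testBit s = true ↔ U.testBit t = true)) := by
      have h0 : Sub F.q R' (fun s t => (U.testBit s = true ↔ U.testBit t = true)) := by
        intro s t hst
        rw [ub, ub, sym s t hst]
        constructor
        · exact fun h' => h'.imp id fun h' => q1.trans _ _ _ h' (q2 _ _ hst)
        · exact fun h' => h'.imp id fun h' => q1.trans _ _ _ h' (q1.symm _ _ (q2 _ _ hst))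
      have h1 := Sub.mr (w := F.w) (i := a.i') (j := c.i') hT h0 L.hq (by omega) (by omega) (by
        rw [ub, ub]
        exact ⟨fun _ => Or.inr q3, fun _ => Or.inr (q1.refl _ ha)⟩)
      exact h1
    exact fun s t hst hs => (hS s t hst).1 hs

theorem vm_mono {W R : ℕ} {a c : FA} {t : ℕ} (h : W.testBit t = true) :
    (F.vm W R a c).testBit t = true := by
  unfold XF.vm
  rw [bif_eq]
  split_ifs
  · exact h
  · rw [lor_eq, Nat.testBit_or, h]; rfl

theorem VI.mr (C : Cx S S' P P' f g X c' c0) (L : Lk F X P P') {R' W : ℕ} (hR : Eqv F.q F.w R')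
    (h : VI S' P P' f F X c' c0 R' W) {a c : FA} (oa : OA F X P' c0 a) (oc : OA F X P' c0 c) :
    VI S' P P' f F X c' c0 (mr F.K F.F R' a.i' c.i' a.qi' c.qi')
      (F.vm W (FC7.mr F.K F.F R' a.i' c.i' a.qi' c.qi') a c) := by
  have aa := L.arc oa.1
  have ac := L.arc oc.1
  obtain ⟨q1, q2, q3⟩ := hR.mr (i := a.i') (j := c.i') L.hq (le_of_lt L.hw) (oa.lt C L) (oc.lt C L)
  have hRe : FC7.mr F.K F.F R' a.i' c.i' a.qi' c.qi' =
      FC7.mr (Ks F.q F.w) (2 ^ F.q - 1) R' a.i' c.i' (F.q * a.i') (F.q * c.i') := by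
    rw [L.hK, L.hF, aa.qi', ac.qi']
  refine ⟨vm_cl L hR h.cl (oa.lt C L) (oc.lt C L) aa.bi' ac.bi' aa.qi' ac.qi',
    fun i hi hb => vm_mono (h.br i hi hb), fun t ht => ?_⟩
  rw [hRe] at ht ⊢
  have old : ∀ t, W.testBit t = true → ∃ i < P.n, Vi S' c' (f i) ∧
      rb F.q (FC7.mr (Ks F.q F.w) (2 ^ F.q - 1) R' a.i' c.i' (F.q * a.i') (F.q * c.i')) (X.ce' i) t := by
    intro t ht
    obtain ⟨i, i1, i2, i3⟩ := h.rp t ht
    exact ⟨i, i1, i2, q2 _ _ i3⟩
  unfold XF.vm at ht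
  rw [bif_eq] at ht
  split_ifs at ht with hz
  · exact old t ht
  · rw [lor_eq, Nat.testBit_or, Bool.or_eq_true, L.hF, aa.qi', row_bit] at ht
    rcases ht with ht | ht
    · exact old t ht
    · have hz' := beq_false.1 (Bool.eq_false_iff.2 hz)
      rw [land_eq, lor_eq, aa.bi', ac.bi'] at hz'
      obtain ⟨u, u1, u2⟩ := and_ne_zero.1 hz'
      obtain ⟨i, i1, i2, i3⟩ := old u u1
      refine ⟨i, i1, i2, q1.trans _ _ _ i3 ?_⟩
      rcases bit2.1 u2 with h5 | h5
      · rw [← h5]; exact ht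
      · rw [← h5]; exact q1.trans _ _ _ (q1.symm _ _ q3) ht

/-- an active class is visited -/
theorem VI.act (C : Cx S S' P P' f g X c' c0) (L : Lk F X P P') {R' W : ℕ} (hR : Eqv F.q F.w R')
    (h : VI S' P P' f F X c' c0 R' W) {a : FA} (oa : OA F X P' c0 a)
    (ha : ActR S P f X c' (dt X a)) :
    VI S' P P' f F X c' c0 R' (Nat.lor W (row F.F R' a.qi')) := by
  have aa := L.arc oa.1
  have ub : ∀ t, (Nat.lor W (row F.F R' a.qi')).testBit t = true ↔
      W.testBit t = true ∨ rb F.q R' a.i' t := by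
    intro t
    rw [lor_eq, Nat.testBit_or, Bool.or_eq_true, L.hF, aa.qi', row_bit]
  refine ⟨fun s t hst hs => ?_, fun i hi hb => (ub _).2 (Or.inl (h.br i hi hb)), fun t ht => ?_⟩
  · rw [ub] at hs ⊢
    exact hs.imp (h.cl _ _ hst) fun h' => hR.trans _ _ _ h' hst
  · rcases (ub t).1 ht with ht | ht
    · exact h.rp t ht
    · refine ⟨dt X a, (C.st.rs _ (C.st.asm aa.mem)).1, C.actR_vi' ha, ?_⟩
      rw [← aa.i']; exact ht

theorem brN {b : Bool} {x y : KQ} {N : ℕ}
    (h : (Bool.rec (motive := fun _ => KQ) y x b) N ≠ 0) : (b = true ∧ x N ≠ 0) ∨ (b = false ∧ y N ≠ 0) :=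
  brq (α := KQ) (p := fun q => q N ≠ 0) h

theorem absorbS_sound (C : Cx S S' P P' f g X c' c0) (L : Lk F X P P')
    (hN : NCA S P f F X c') {IA IB : ℕ} {a b : FA} (ha : OA F X P' c0 a) (hb : OA F X P' c0 b)
    (hab : RQ S P f X c' a b)
    (hIA : ∀ u, IA.testBit u = true → min a.t b.t < u ∧ u < max a.t b.t)
    (hIB : ∀ u, min a.t b.t ≤ u → u ≤ max a.t b.t → IB.testBit u = true)
    {k : KD} {G : Prop} (hk : ∀ cls Fb W R' pp N, GI S P P' f F X c' c0 cls Fb R' pp →
      VI S' P P' f F X c' c0 R' W → k cls Fb W R' pp N ≠ 0 → G) (N : ℕ) :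
    ∀ (l kp : List (ℕ × FA)) (m Fb W R' : ℕ) (pp : List (FA × FA)), Eqv F.q F.w R' →
      VI S' P P' f F X c' c0 R' W →
      (∀ i < P.n, P.α i ≠ i → P'.real i = true → P'.op c0 i = true →
        rb F.q R' (X.ce' i) (X.ce' (P.α i))) →
      (∀ c ∈ l, OA F X P' c0 c.2 ∧ CK S P P' f F X c' c0 R' c.1 c.2) →
      (∀ c ∈ kp, OA F X P' c0 c.2 ∧ CK S P P' f F X c' c0 R' c.1 c.2) →
      CK S P P' f F X c' c0 R' m a →
      (∀ z, OA F X P' c0 z → m.testBit z.t = true ∨ (∃ c ∈ l, c.1.testBit z.t = true) ∨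
        ∃ c ∈ kp, c.1.testBit z.t = true) →
      FbOk S P P' f F X c' c0 Fb →
      (∀ z ∈ pp, OA F X P' c0 z.1 ∧ OA F X P' c0 z.2 ∧ RQ S P f X c' z.1 z.2) →
      F.absorbS IA IB a k l kp m Fb W R' pp N ≠ 0 → G
  | [], kp, m, Fb, W, R', pp, e1, e0, e2, e3, e4, e5, e6, e7, e8, h => by
    refine hk _ _ _ _ _ _ ⟨e1, e2, fun c hc => ?_, fun z hz => ?_, e7, e8⟩ e0 h
    · rcases List.mem_cons.1 hc with rfl | hc
      · exact ⟨ha, e5⟩
      · exact e4 c hc
    · rcases e6 z hz with h1 | ⟨c, h1, _⟩ | ⟨c, h1, h2⟩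
      · exact ⟨(m, a), by simp, h1⟩
      · simp at h1
      · exact ⟨c, List.mem_cons_of_mem _ h1, h2⟩
  | c :: l, kp, m, Fb, W, R', pp, e1, e0, e2, e3, e4, e5, e6, e7, e8, h => by
    have h' : (Bool.rec (motive := fun _ => KQ) (F.absorbS IA IB a k l kp (Nat.lor m c.1) Fb W R' pp)
        (Bool.rec (motive := fun _ => KQ)
          (Bool.rec (motive := fun _ => KQ)
            (Bool.rec (motive := fun _ => KQ) Nat.succ
              (F.absorbS IA IB a k l kp (Nat.lor m c.1) (ctr F.K F.F Fb a.t c.2.t a.qt c.2.qt)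
                (F.vm W (mr F.K F.F R' a.i' c.2.i' a.qi' c.2.qi') a c.2)
                (mr F.K F.F R' a.i' c.2.i' a.qi' c.2.qi') ((a, c.2) :: pp))
              (Nat.beq (Nat.land (Nat.shiftRight Fb a.qt) c.2.bt) 0))
            (F.absorbS IA IB a k l (c :: kp) m Fb W R' pp) (Nat.beq (Nat.land c.1 IB) c.1))
          (F.absorbS IA IB a k l (c :: kp) m Fb W R' pp) (Nat.beq (Nat.land c.1 IA) 0))
        (Nat.beq (Nat.land c.1 m) 0)) N ≠ 0 := h
    have el : ∀ c ∈ l, OA F X P' c0 c.2 ∧ CK S P P' f F X c' c0 R' c.1 c.2 :=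
      fun c hc => e3 c (List.mem_cons_of_mem _ hc)
    obtain ⟨oc, kc⟩ := e3 c (by simp)
    have ac := L.arc oc.1
    have aa := L.arc ha.1
    obtain ⟨r1, r2, r3⟩ := Lk.rq_equiv C
    -- the class is kept
    have keep : F.absorbS IA IB a k l (c :: kp) m Fb W R' pp N ≠ 0 → G := by
      intro h1
      refine absorbS_sound C L hN ha hb hab hIA hIB hk N l (c :: kp) m Fb W R' pp e1 e0 e2 el ?_ e5 ?_
        e7 e8 h1
      · intro z hz
        rcases List.mem_cons.1 hz with rfl | hz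
        · exact ⟨oc, kc⟩
        · exact e4 z hz
      · intro z hz
        rcases e6 z hz with h1 | ⟨d, h1, h2⟩ | ⟨d, h1, h2⟩
        · exact Or.inl h1
        · rcases List.mem_cons.1 h1 with rfl | h1
          · exact Or.inr (Or.inr ⟨_, by simp, h2⟩)
          · exact Or.inr (Or.inl ⟨d, h1, h2⟩)
        · exact Or.inr (Or.inr ⟨d, List.mem_cons_of_mem _ h1, h2⟩)
    -- the cover after the union
    have cov : ∀ z, OA F X P' c0 z → (Nat.lor m c.1).testBit z.t = true ∨
        (∃ c ∈ l, c.1.testBit z.t = true) ∨ ∃ c ∈ kp, c.1.testBit z.t = true := by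
      intro z hz
      rw [lor_eq, Nat.testBit_or, Bool.or_eq_true]
      rcases e6 z hz with h1 | ⟨d, h1, h2⟩ | ⟨d, h1, h2⟩
      · exact Or.inl (Or.inl h1)
      · rcases List.mem_cons.1 h1 with rfl | h1
        · exact Or.inl (Or.inr h2)
        · exact Or.inr (Or.inl ⟨d, h1, h2⟩)
      · exact Or.inr (Or.inr ⟨d, h1, h2⟩)
    -- the union of two classes
    have uni : ∀ R1, Eqv F.q F.w R1 → (∀ s t, rb F.q R' s t → rb F.q R1 s t) →
        RQ S P f X c' a c.2 → rb F.q R1 a.i' c.2.i' →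
        CK S P P' f F X c' c0 R1 (Nat.lor m c.1) a := by
      intro R1 f1 f2 f3 f4 t ht
      rw [lor_eq, Nat.testBit_or, Bool.or_eq_true] at ht
      rcases ht with ht | ht
      · exact (e5.mono f2) t ht
      · obtain ⟨z, z1, z2, z3, z4⟩ := (kc.mono f2) t ht
        exact ⟨z, z1, z2, r3 f3 z3, f1.trans _ _ _ f4 z4⟩
    rcases brN h' with ⟨h1, h2⟩ | ⟨h1, h2⟩
    · rcases brN h2 with ⟨h3, h4⟩ | ⟨h3, h4⟩
      · exact keep h4
      · rcases brN h4 with ⟨h5, h6⟩ | ⟨h5, h6⟩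
        · exact keep h6
        · -- crossing
          rw [beq_false, land_eq] at h3 h5
          obtain ⟨u, u1, u2⟩ := and_ne_zero.1 h3
          have hv : ∃ v, c.1.testBit v = true ∧ IB.testBit v = false := by
            by_contra hcon
            push Not at hcon
            apply h5
            apply Nat.eq_of_testBit_eq
            intro i
            rw [Nat.testBit_and]
            cases h7 : c.1.testBit i
            · rfl
            · have := hcon i h7
              rw [Bool.true_and]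
              simpa using this
          obtain ⟨v, v1, v2⟩ := hv
          obtain ⟨u3, u4⟩ := hIA u u2
          have v3 : v < min a.t b.t ∨ max a.t b.t < v := by
            by_contra hcon
            push Not at hcon
            rw [hIB v hcon.1 hcon.2] at v2
            cases v2
          obtain ⟨x, x1, rfl, x3, x4⟩ := kc u u1
          obtain ⟨y, y1, rfl, y3, y4⟩ := kc v v1
          have hxy : RQ S P f X c' x y := r3 (r2 x3) y3
          have hac : RQ S P f X c' a c.2 := by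
            have : RQ S P f X c' a x ∨ RQ S P f X c' b x ∨ RQ S P f X c' y a ∨ RQ S P f X c' y b := by
              rcases le_total a.t b.t with hle | hle
              · rw [min_eq_left hle] at u3 v3
                rw [max_eq_right hle] at u4 v3
                rcases v3 with v3 | v3
                · exact Or.inr (Or.inr (Or.inl (hN y y1.1 a ha.1 x x1.1 b hb.1 v3 u3 u4 (r2 hxy) hab)))
                · exact Or.inl (hN a ha.1 x x1.1 b hb.1 y y1.1 u3 u4 v3 hab hxy)
              · rw [min_eq_right hle] at u3 v3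
                rw [max_eq_left hle] at u4 v3
                rcases v3 with v3 | v3
                · exact Or.inr (Or.inr (Or.inr (hN y y1.1 b hb.1 x x1.1 a ha.1 v3 u3 u4 (r2 hxy) (r2 hab))))
                · exact Or.inr (Or.inl (hN b hb.1 x x1.1 a ha.1 y y1.1 u3 u4 v3 (r2 hab) hxy))
            rcases this with h | h | h | h
            · exact r3 h (r2 x3)
            · exact r3 hab (r3 h (r2 x3))
            · exact r3 (r2 h) (r2 y3)
            · exact r3 hab (r3 (r2 h) (r2 y3))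
          rcases brN h6 with ⟨h7, h8⟩ | ⟨h7, h8⟩
          · obtain ⟨q1, q2, q3⟩ := e1.mr (i := a.i') (j := c.2.i') L.hq (le_of_lt L.hw) (ha.lt C L)
              (oc.lt C L)
            have hV := e0.mr C L e1 ha oc
            have hR : mr F.K F.F R' a.i' c.2.i' a.qi' c.2.qi' =
                mr (Ks F.q F.w) (2 ^ F.q - 1) R' a.i' c.2.i' (F.q * a.i') (F.q * c.2.i') := by
              rw [L.hK, L.hF, aa.qi', ac.qi']
            rw [hR] at h8 hV
            refine absorbS_sound C L hN ha hb hab hIA hIB hk N l kp _ _ _ _ _ q1 hV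
              (fun i hi hne hr ho => q2 _ _ (e2 i hi hne hr ho))
              (fun d hd => ⟨(el d hd).1, (el d hd).2.mono q2⟩)
              (fun d hd => ⟨(e4 d hd).1, (e4 d hd).2.mono q2⟩)
              (uni _ q1 q2 hac q3) cov (e7.ctr C L ha oc hac) ?_ h8
            intro z hz
            rcases List.mem_cons.1 hz with rfl | hz
            · exact ⟨ha, oc, hac⟩
            · exact e8 z hz
          · exfalso
            rw [aa.qt, ac.bt, fb_test (L.tq oc.1)] at h7
            exact e7 a c.2 ha oc h7 hac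
    · -- the classes have a common arc
      rw [beq_false, land_eq] at h1
      obtain ⟨u, u1, u2⟩ := and_ne_zero.1 h1
      obtain ⟨x, x1, x2, x3, x4⟩ := kc u u1
      obtain ⟨y, y1, y2, y3, y4⟩ := e5 u u2
      have hxy : x = y := L.arc_inj x1.1 y1.1 (x2.trans y2.symm)
      subst hxy
      refine absorbS_sound C L hN ha hb hab hIA hIB hk N l kp _ Fb W R' pp e1 e0 e2 el e4
        (uni R' e1 (fun _ _ h => h) (r3 y3 (r2 x3)) (e1.trans _ _ _ y4 (e1.symm _ _ x4))) cov e7 e8 h2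

theorem joinS_sound (C : Cx S S' P P' f g X c' c0) (L : Lk F X P P')
    (hN : NCA S P f F X c') {cls : List (ℕ × FA)} {Fb0 W R' : ℕ} {pp : List (FA × FA)}
    (h : GI S P P' f F X c' c0 cls Fb0 R' pp) (hv : VI S' P P' f F X c' c0 R' W) {k : KD} {G : Prop}
    (hk : ∀ cls Fb W R' pp N, GI S P P' f F X c' c0 cls Fb R' pp →
      VI S' P P' f F X c' c0 R' W → k cls Fb W R' pp N ≠ 0 → G)
    {a b : ℕ × FA} (ha : a ∈ cls) (hb : b ∈ cls) (hab : RQ S P f X c' a.2 b.2) {Fb N : ℕ}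
    (hF : FbOk S P P' f F X c' c0 Fb) (hj : F.joinS k cls W R' pp a b Fb N ≠ 0) : G := by
  obtain ⟨oa, ka⟩ := h.m a ha
  obtain ⟨ob, kb⟩ := h.m b hb
  have aa := L.arc oa.1
  have ab := L.arc ob.1
  obtain ⟨q1, q2, q3⟩ := h.e.mr (i := a.2.i') (j := b.2.i') L.hq (le_of_lt L.hw) (oa.lt C L)
    (ob.lt C L)
  have hV := hv.mr C L h.e oa ob
  unfold XF.joinS at hj
  have hR : mr F.K F.F R' a.2.i' b.2.i' a.2.qi' b.2.qi' =
      mr (Ks F.q F.w) (2 ^ F.q - 1) R' a.2.i' b.2.i' (F.q * a.2.i') (F.q * b.2.i') := by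
    rw [L.hK, L.hF, aa.qi', ab.qi']
  rw [hR] at hj hV
  refine absorbS_sound C L hN oa ob hab ?_ ?_ hk N cls [] _ _ _ _ _ q1 hV
    (fun i hi hne hr ho => q2 _ _ (h.o i hi hne hr ho))
    (fun d hd => ⟨(h.m d hd).1, (h.m d hd).2.mono q2⟩) (fun c hc => by simp at hc) ?_ ?_
    (hF.ctr C L oa ob hab) ?_ hj
  · intro u hu
    rw [bif_eq, ab.bt, aa.bt, two_mul_pow, two_mul_pow] at hu
    split_ifs at hu with hle
    · rw [Nat.ble_eq] at hle
      rw [min_eq_left hle, max_eq_right hle]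
      have hu' : (2 ^ b.2.t - 2 ^ (a.2.t + 1)).testBit u = true := hu
      rcases Nat.lt_or_ge a.2.t b.2.t with h1 | h1
      · rw [sub_bit h1] at hu'
        omega
      · have : 2 ^ b.2.t ≤ 2 ^ (a.2.t + 1) := Nat.pow_le_pow_right (by norm_num) (by omega)
        rw [Nat.sub_eq_zero_of_le this, Nat.zero_testBit] at hu'
        cases hu'
    · rw [Nat.ble_eq, not_le] at hle
      rw [min_eq_right (le_of_lt hle), max_eq_left (le_of_lt hle)]
      have hu' : (2 ^ a.2.t - 2 ^ (b.2.t + 1)).testBit u = true := hu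
      rw [sub_bit hle] at hu'
      omega
  · intro u h1 h2
    rw [bif_eq, ab.bt, aa.bt, two_mul_pow, two_mul_pow]
    split_ifs with hle
    · rw [Nat.ble_eq] at hle
      rw [min_eq_left hle] at h1
      rw [max_eq_right hle] at h2
      show (2 ^ (b.2.t + 1) - 2 ^ a.2.t).testBit u = true
      rw [sub_bit (by omega)]
      omega
    · rw [Nat.ble_eq, not_le] at hle
      rw [min_eq_right (le_of_lt hle)] at h1
      rw [max_eq_left (le_of_lt hle)] at h2
      show (2 ^ (a.2.t + 1) - 2 ^ b.2.t).testBit u = true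
      rw [sub_bit (by omega)]
      omega
  · intro t ht
    rw [lor_eq, Nat.testBit_or, Bool.or_eq_true] at ht
    rcases ht with ht | ht
    · exact (ka.mono q2) t ht
    · obtain ⟨z, z1, z2, z3, z4⟩ := (kb.mono q2) t ht
      exact ⟨z, z1, z2, C.rr_equiv.trans hab z3, q1.trans _ _ _ q3 z4⟩
  · intro z hz
    obtain ⟨c, h1, h2⟩ := h.v z hz
    exact Or.inr (Or.inl ⟨c, h1, h2⟩)
  · intro z hz
    rcases List.mem_cons.1 hz with rfl | hz
    · exact ⟨oa, ob, hab⟩
    · exact h.pr z hz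

/-- pairs with the first class `a` -/
theorem innerS_sound (C : Cx S S' P P' f g X c' c0) (L : Lk F X P P') {cls : List (ℕ × FA)}
    (ho : ∀ c ∈ cls, OA F X P' c0 c.2)
    {k : ℕ × FA → ℕ × FA → ℕ → KQ} {G : Prop}
    (hk : ∀ a ∈ cls, ∀ b ∈ cls, ∀ Fb N, FbOk S P P' f F X c' c0 Fb → RQ S P f X c' a.2 b.2 →
      k a b Fb N ≠ 0 → G) {M : ℕ} {a : ℕ × FA} (ha : a ∈ cls) {cont : ℕ → KQ} :
    ∀ (l : List (ℕ × FA)) (Fb N : ℕ), (∀ b ∈ l, b ∈ cls) → FbOk S P P' f F X c' c0 Fb →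
      innerS k M a cont l Fb N ≠ 0 →
      G ∨ (∃ Fb' N', FbOk S P P' f F X c' c0 Fb' ∧ cont Fb' N' ≠ 0) ∧
        ∀ b ∈ l, b.2.bi' &&& M = 0 → ¬ RQ S P f X c' a.2 b.2
  | [], Fb, N, _, hF, h => Or.inr ⟨⟨Fb, N, hF, h⟩, by simp⟩
  | b :: l, Fb, N, hl, hF, h => by
    have h' : (Bool.rec (motive := fun _ => KQ) (innerS k M a cont l Fb)
      (Bool.rec (motive := fun _ => KQ) (innerS k M a cont l Fb)
        (fun N => sq (k a b Fb N)
          (innerS k M a cont l (Nat.lor Fb (Nat.lor (Nat.mul a.2.bq b.2.bt) (Nat.mul b.2.bq a.2.bt)))))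
        (Nat.beq (Nat.land (Nat.shiftRight Fb a.2.qt) b.2.bt) 0))
      (Nat.beq (Nat.land b.2.bi' M) 0)) N ≠ 0 := h
    have hl' : ∀ b ∈ l, b ∈ cls := fun b hb => hl b (List.mem_cons_of_mem _ hb)
    have hb := hl b (by simp)
    have fin : ∀ Fb' N', FbOk S P P' f F X c' c0 Fb' → innerS k M a cont l Fb' N' ≠ 0 →
        (b.2.bi' &&& M = 0 → ¬ RQ S P f X c' a.2 b.2) →
        G ∨ (∃ Fb' N', FbOk S P P' f F X c' c0 Fb' ∧ cont Fb' N' ≠ 0) ∧
          ∀ z ∈ b :: l, z.2.bi' &&& M = 0 → ¬ RQ S P f X c' a.2 z.2 := by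
      intro Fb' N' h1 h2 h3
      rcases innerS_sound C L ho hk ha l Fb' N' hl' h1 h2 with h4 | ⟨h4, h5⟩
      · exact Or.inl h4
      · refine Or.inr ⟨h4, fun z hz => ?_⟩
        rcases List.mem_cons.1 hz with rfl | hz
        · exact h3
        · exact h5 z hz
    rcases brN h' with ⟨h1, h2⟩ | ⟨h1, h2⟩
    · rcases brN h2 with ⟨h3, h4⟩ | ⟨h3, h4⟩
      · obtain ⟨h5, N1, h6⟩ := sq_ne h4
        by_cases hab : RQ S P f X c' a.2 b.2
        · exact Or.inl (hk a ha b hb Fb N hF hab h5)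
        · exact fin _ _ (hF.add C L (ho a ha) (ho b hb) hab) h6 fun _ => hab
      · rw [(L.arc (ho a ha).1).qt, (L.arc (ho b hb).1).bt, fb_test (L.tq (ho b hb).1)] at h3
        exact fin Fb N hF h4 fun _ => hF _ _ (ho a ha) (ho b hb) h3
    · rw [beq_false, land_eq] at h1
      exact fin Fb N hF h2 fun h => absurd h h1

theorem outerS_sound (C : Cx S S' P P' f g X c' c0) (L : Lk F X P P') {cls : List (ℕ × FA)}
    (ho : ∀ c ∈ cls, OA F X P' c0 c.2)
    {k : ℕ × FA → ℕ × FA → ℕ → KQ} {G : Prop}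
    (hk : ∀ a ∈ cls, ∀ b ∈ cls, ∀ Fb N, FbOk S P P' f F X c' c0 Fb → RQ S P f X c' a.2 b.2 →
      k a b Fb N ≠ 0 → G) {M : ℕ} :
    ∀ (l : List (ℕ × FA)) (Fb N : ℕ), (∀ b ∈ l, b ∈ cls) → FbOk S P P' f F X c' c0 Fb →
      outerS k M cls l Fb N ≠ 0 → G ∨
        ∀ a ∈ l, a.2.bi' &&& M ≠ 0 → ∀ b ∈ cls, b.2.bi' &&& M = 0 → ¬ RQ S P f X c' a.2 b.2
  | [], Fb, N, _, hF, h => Or.inr (by simp)
  | a :: l, Fb, N, hl, hF, h => by
    have h' : (Bool.rec (motive := fun _ => KQ) (innerS k M a (outerS k M cls l) cls Fb)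
      (outerS k M cls l Fb) (Nat.beq (Nat.land a.2.bi' M) 0)) N ≠ 0 := h
    have hl' : ∀ b ∈ l, b ∈ cls := fun b hb => hl b (List.mem_cons_of_mem _ hb)
    have ha := hl a (by simp)
    rcases brN h' with ⟨h1, h2⟩ | ⟨h1, h2⟩
    · rcases outerS_sound C L ho hk l Fb N hl' hF h2 with h3 | h3
      · exact Or.inl h3
      · refine Or.inr fun z hz hM => ?_
        rcases List.mem_cons.1 hz with rfl | hz
        · exact absurd (beq_true.1 h1) hM
        · exact h3 z hz hM
    · rcases innerS_sound C L ho hk ha cls Fb N (fun _ h => h) hF h2 with h3 | ⟨⟨Fb', N', h3, h4⟩, h5⟩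
      · exact Or.inl h3
      · rcases outerS_sound C L ho hk l Fb' N' hl' h3 h4 with h6 | h6
        · exact Or.inl h6
        · refine Or.inr fun z hz hM => ?_
          rcases List.mem_cons.1 hz with rfl | hz
          · exact h5
          · exact h6 z hz hM

/-- a branch of the search -/
theorem branchS (C : Cx S S' P P' f g X c' c0) (L : Lk F X P P')
    (hN : NCA S P f F X c') {cls : List (ℕ × FA)} {Fb W R' : ℕ} {pp : List (FA × FA)}
    (h : GI S P P' f F X c' c0 cls Fb R' pp) (hv : VI S' P P' f F X c' c0 R' W) {k : KD} {G : Prop}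
    (hk : ∀ cls Fb W R' pp N, GI S P P' f F X c' c0 cls Fb R' pp →
      VI S' P P' f F X c' c0 R' W → k cls Fb W R' pp N ≠ 0 → G)
    {M N : ℕ} (hM : Cl F.q R' M) (ho : outerS (F.joinS k cls W R' pp) M cls cls Fb N ≠ 0)
    (hx : Clo P P' X c0 (fun t => M.testBit t = true) →
      ∃ i ∈ X.as, P'.op c0 i = true ∧ M.testBit (X.ce' i) = true ∧
      ∃ j ∈ X.as, P'.op c0 j = true ∧ ¬ M.testBit (X.ce' j) = true ∧ Rr S P f X c' i j) : G := by
  obtain ⟨i, i1, i2, i3, j, j1, j2, j3, j4⟩ := hx (fun i hi hne hr hop => by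
    have h1 := h.o i hi hne hr hop
    exact ⟨hM _ _ h1, hM _ _ (h.e.symm _ _ h1)⟩)
  obtain ⟨a, a1, a2⟩ := L.of_mem i1
  obtain ⟨b, b1, b2⟩ := L.of_mem j1
  have oa : OA F X P' c0 a := ⟨a1, by rw [a2]; exact i2⟩
  have ob : OA F X P' c0 b := ⟨b1, by rw [b2]; exact j2⟩
  have aa := L.arc a1
  have ab := L.arc b1
  obtain ⟨ca, ca1, ca2⟩ := h.v a oa
  obtain ⟨cb, cb1, cb2⟩ := h.v b ob
  obtain ⟨oca, kca⟩ := h.m ca ca1
  obtain ⟨ocb, kcb⟩ := h.m cb cb1
  obtain ⟨a', x1, x2, x3, x4⟩ := kca _ ca2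
  obtain ⟨b', y1, y2, y3, y4⟩ := kcb _ cb2
  have := L.arc_inj x1.1 a1 x2
  subst this
  have := L.arc_inj y1.1 b1 y2
  subst this
  rcases outerS_sound C L (fun c hc => (h.m c hc).1)
    (fun a ha b hb Fb N hF hab hj => joinS_sound C L hN h hv hk ha hb hab hF hj) cls Fb N
    (fun _ h => h) h.fb ho with h1 | h1
  · exact h1
  · exfalso
    refine h1 ca ca1 ?_ cb cb1 ?_ ?_
    · rw [(L.arc oca.1).bi', bi_test]
      refine hM _ _ (h.e.symm _ _ x4) ?_
      rw [aa.i', a2]; exact i3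
    · by_contra hcon
      rw [← Ne, (L.arc ocb.1).bi', bi_test] at hcon
      apply j3
      have := hM _ _ y4 hcon
      rwa [ab.i', b2] at this
    · have : RQ S P f X c' a' b' := by
        unfold RQ
        rw [a2, b2]; exact j4
      exact C.rr_equiv.trans x3 (C.rr_equiv.trans this (C.rr_equiv.symm y3))

theorem splS_sound (C : Cx S S' P P' f g X c' c0) (L : Lk F X P P')
    {cls : List (ℕ × FA)} {Fb W R' BA Om Im : ℕ} {pp : List (FA × FA)}
    (h : GI S P P' f F X c' c0 cls Fb R' pp) (hv : VI S' P P' f F X c' c0 R' W)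
    (hO : PO S P P' f F X c' c0 BA Om) (hI : IO S P P' f F X c' c0 Im)
    {k : ℕ → ℕ → ℕ → KQ} {G : Prop}
    (hk : ∀ BA Im W N, PO S P P' f F X c' c0 BA Om → IO S P P' f F X c' c0 Im →
      VI S' P P' f F X c' c0 R' W → k BA Im W N ≠ 0 → G) {M N : ℕ} {d : KQ} :
    ∀ (l : List (ℕ × FA)), (∀ c ∈ l, c ∈ cls) → F.splS k BA Im W R' M d l N ≠ 0 →
      G ∨ (d N ≠ 0 ∧ ∀ c ∈ l, c.2.bi' &&& M ≠ 0 → c.1 &&& Im ≠ 0)
  | [], _, h => Or.inr ⟨h, by simp⟩
  | c :: l, hl, hs => by
    have h' : (Bool.rec (motive := fun _ => KQ)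
      (Bool.rec (motive := fun _ => KQ) (F.splS k BA Im W R' M d l)
        (fun N => sq (k BA (Nat.lor Im c.1) W N)
          (k (Nat.lor BA c.2.bi) Im (Nat.lor W (row F.F R' c.2.qi'))))
        (Nat.beq (Nat.land c.1 Im) 0))
      (F.splS k BA Im W R' M d l) (Nat.beq (Nat.land c.2.bi' M) 0)) N ≠ 0 := hs
    have hl' : ∀ b ∈ l, b ∈ cls := fun b hb => hl b (List.mem_cons_of_mem _ hb)
    have hc := hl c (by simp)
    obtain ⟨oc, kc⟩ := h.m c hc
    have ac := L.arc oc.1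
    have fin : F.splS k BA Im W R' M d l N ≠ 0 → (c.2.bi' &&& M ≠ 0 → c.1 &&& Im ≠ 0) →
        G ∨ (d N ≠ 0 ∧ ∀ z ∈ c :: l, z.2.bi' &&& M ≠ 0 → z.1 &&& Im ≠ 0) := by
      intro h1 h2
      rcases splS_sound C L h hv hO hI hk l hl' h1 with h3 | ⟨h3, h4⟩
      · exact Or.inl h3
      · refine Or.inr ⟨h3, fun z hz => ?_⟩
        rcases List.mem_cons.1 hz with rfl | hz
        · exact h2
        · exact h4 z hz
    rcases brN h' with ⟨h1, h2⟩ | ⟨h1, h2⟩
    · exact fin h2 fun h3 => absurd (beq_true.1 h1) h3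
    · rcases brN h2 with ⟨h3, h4⟩ | ⟨h3, h4⟩
      · obtain ⟨h5, N1, h6⟩ := sq_ne h4
        left
        by_cases hA : ActR S P f X c' (dt X c.2)
        · refine hk _ _ _ _ ⟨fun t ht => ?_, fun a ha hr => ?_, hO.o1, hO.o2, hO.o3⟩ hI
            (hv.act C L h.e oc hA) h6
          · rw [lor_eq, Nat.testBit_or, Bool.or_eq_true, ac.bi, bit1] at ht
            rcases ht with ht | ht
            · exact hO.a1 t ht
            · exact ⟨c.2, oc, hA, ht⟩
          · rw [lor_eq, Nat.testBit_or, hO.a2 a ha hr]; rfl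
        · refine hk _ _ _ _ hO (fun a ha ht => ?_) hv h5
          rw [lor_eq, Nat.testBit_or, Bool.or_eq_true] at ht
          rcases ht with ht | ht
          · exact hI a ha ht
          · obtain ⟨b, b1, b2, b3, b4⟩ := kc _ ht
            have := L.arc_inj b1.1 ha.1 b2
            subst this
            exact fun h7 => hA ((C.actR_iff b3).2 h7)
      · exact fin h4 fun _ => beq_false.1 h3

theorem unmetS_sound {W R' N : ℕ} {k : ℕ → KQ} {d : KQ} : ∀ {l : List (ℕ × List ℕ)},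
    F.unmetS W R' k d l N ≠ 0 → d N ≠ 0 ∨ ∃ m ∈ l, m.1 &&& W = 0 ∧ k (F.clo R' m.2) N ≠ 0
  | [], h => Or.inl h
  | m :: l, h => by
    have h' : (Bool.rec (motive := fun _ => KQ) (F.unmetS W R' k d l) (k (F.clo R' m.2))
      (Nat.beq (Nat.land m.1 W) 0)) N ≠ 0 := h
    rcases brN h' with ⟨h1, h2⟩ | ⟨h1, h2⟩
    · exact Or.inr ⟨m, by simp, beq_true.1 h1, h2⟩
    · rcases unmetS_sound h2 with h3 | ⟨z, h3, h4⟩
      · exact Or.inl h3
      · exact Or.inr ⟨z, List.mem_cons_of_mem _ h3, h4⟩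

theorem brS_sound (C : Cx S S' P P' f g X c' c0) (L : Lk F X P P')
    (hN : NCA S P f F X c') (hrq : ∀ m ∈ F.rq, RqOk S' P f F X c' m) {Om : ℕ} {G : Prop}
    {k : ℕ → ℕ → KD}
    (hk : ∀ BA Im cls Fb W R' pp N, PO S P P' f F X c' c0 BA Om → IO S P P' f F X c' c0 Im →
      GI S P P' f F X c' c0 cls Fb R' pp → VI S' P P' f F X c' c0 R' W →
      k BA Im cls Fb W R' pp N ≠ 0 → G)
    (BA Im : ℕ) (cls : List (ℕ × FA)) (Fb W R' : ℕ) (pp : List (FA × FA)) (N : ℕ)
    (hO : PO S P P' f F X c' c0 BA Om) (hI : IO S P P' f F X c' c0 Im)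
    (h : GI S P P' f F X c' c0 cls Fb R' pp) (hv : VI S' P P' f F X c' c0 R' W)
    (hs : F.brS k BA Im cls Fb W R' pp N ≠ 0) : G := by
  have hk1 : ∀ cls Fb W R' pp N, GI S P P' f F X c' c0 cls Fb R' pp →
      VI S' P P' f F X c' c0 R' W → k BA Im cls Fb W R' pp N ≠ 0 → G :=
    fun cls Fb W R' pp N h1 h2 h3 => hk _ _ _ _ _ _ _ _ hO hI h1 h2 h3
  unfold XF.brS at hs
  simp only at hs
  rcases brN hs with ⟨h1, h2⟩ | ⟨h1, h2⟩
  · rcases unmetS_sound h2 with h3 | ⟨m, m1, m2, m3⟩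
    · rcases splS_sound C L h hv hO hI (fun BA Im W N h1 h2 h3 h4 => hk _ _ _ _ _ _ _ _ h1 h2 h h3 h4)
        cls (fun _ h => h) h3 with h4 | ⟨h4, -⟩
      · exact h4
      · exact absurd rfl h4
    · rcases splS_sound C L h hv hO hI (fun BA Im W N h1 h2 h3 h4 => hk _ _ _ _ _ _ _ _ h1 h2 h h3 h4)
        cls (fun _ h => h) m3 with h4 | ⟨h4, h5⟩
      · exact h4
      · -- a requirement without active arc
        have hm := hrq m m1
        have key : ∀ u, (F.clo R' m.2).testBit u = true ↔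
            ∃ t, m.1.testBit t = true ∧ rb F.q R' t u := by
          intro u
          rw [clo_bit L]
          constructor
          · rintro ⟨z, hz, h1⟩
            obtain ⟨t, t1, rfl, t3⟩ := hm.h2 z hz
            exact ⟨t, t3, row_bit.1 h1⟩
          · rintro ⟨t, t1, t2⟩
            exact ⟨F.q * t, hm.h1 t (h.e.lt _ _ t2).1 t1, row_bit.2 t2⟩
        have hcl : Cl F.q R' (F.clo R' m.2) := by
          intro s t h1 h2
          rw [key] at h2 ⊢
          obtain ⟨z, z1, z2⟩ := h2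
          exact ⟨z, z1, h.e.trans _ _ _ z2 h1⟩
        have hno : ∀ u, W.testBit u = true → ¬ (F.clo R' m.2).testBit u = true := by
          intro u hu hc
          obtain ⟨t, t1, t2⟩ := (key u).1 hc
          exact and_eq_zero_iff.1 m2 t t1 (hv.cl _ _ (h.e.symm _ _ t2) hu)
        refine branchS C L hN h hv hk1 hcl h4 fun hcl' => ?_
        obtain ⟨i0, i1, i2, i3⟩ := hm.h3
        refine exists_pair1N C hcl' (fun i hi hb => hno _ (hv.br i hi hb)) (fun j hj oj ha => ?_) i1 ?_ i3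
        · obtain ⟨a, a1, a2⟩ := L.of_mem hj
          have oa : OA F X P' c0 a := ⟨a1, by rw [a2]; exact oj⟩
          intro hc
          obtain ⟨z, z1, z2⟩ := h.v a oa
          obtain ⟨oz, kz⟩ := h.m z z1
          obtain ⟨a', x1, x2, x3, x4⟩ := kz _ z2
          have := L.arc_inj x1.1 a1 x2
          subst this
          have h6 : z.2.bi' &&& F.clo R' m.2 ≠ 0 := by
            rw [(L.arc oz.1).bi', bi_test]
            refine hcl _ _ (h.e.symm _ _ x4) ?_
            rw [(L.arc a1).i', a2]; exact hc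
          obtain ⟨u, u1, u2⟩ := and_ne_zero.1 (h5 z z1 h6)
          obtain ⟨b, b1, b2, b3, b4⟩ := kz _ u1
          have h7 := hI b b1 (by rw [b2]; exact u2)
          apply h7
          have h8 : ActR S P f X c' (dt X a') := by rw [a2]; exact ha
          exact (C.actR_iff (C.rr_equiv.trans (C.rr_equiv.symm b3) x3)).2 h8
        · rw [key]
          exact ⟨_, i2, h.e.refl _ (L.ce i0 i1).2⟩
  · -- several classes of visited cells
    rw [beq_false] at h1
    refine branchS C L hN h hv hk1 (vis_cl L h.e) h2 fun hcl => ?_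
    have hW0 : W ≠ 0 := by
      rintro rfl
      exact h1 rfl
    have lw := hv.rp _ (log2_bit hW0)
    have sub : ∀ t, (F.vis W R').testBit t = true → W.testBit t = true := by
      intro t ht
      rw [vis_bit L] at ht
      exact hv.cl _ _ ht.2 (log2_bit hW0)
    have hv2 : ∃ v, W.testBit v = true ∧ (F.vis W R').testBit v = false := by
      by_contra hcon
      push Not at hcon
      apply h1
      apply Nat.eq_of_testBit_eq
      intro i
      cases h7 : W.testBit i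
      · cases h8 : (F.vis W R').testBit i
        · rfl
        · rw [sub i h8] at h7; cases h7
      · have := hcon i h7
        simpa using this
    obtain ⟨v, v1, v2⟩ := hv2
    obtain ⟨i1, i11, i12, i13⟩ := hv.rp v v1
    obtain ⟨i0, i01, i02, i03⟩ := lw
    refine exists_pair2N C hcl i01 ?_ i02 i11 ?_ i12
    · rw [vis_bit L]
      exact ⟨hW0, h.e.symm _ _ i03⟩
    · intro hc
      have := vis_cl L h.e _ _ i13 hc
      rw [v2] at this; cases this

theorem stepS_sound (C : Cx S S' P P' f g X c' c0) (L : Lk F X P P')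
    (hN : NCA S P f F X c') (hrq : ∀ m ∈ F.rq, RqOk S' P f F X c' m) {Om w m : ℕ} {G : Prop}
    {lf : KT}
    (hlf : ∀ ξ BA cls Fb W R' pp, PO S P P' f F X c' c0 BA Om →
      GI S P P' f F X c' c0 cls Fb R' pp → VI S' P P' f F X c' c0 R' W →
      lf ξ BA W W R' cls pp = true → G) {k : ℕ → ℕ → KD}
    (hk : ∀ BA Im cls Fb W R' pp N, PO S P P' f F X c' c0 BA Om → IO S P P' f F X c' c0 Im →
      GI S P P' f F X c' c0 cls Fb R' pp → VI S' P P' f F X c' c0 R' W →
      k BA Im cls Fb W R' pp N ≠ 0 → G)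
    (BA Im : ℕ) (cls : List (ℕ × FA)) (Fb W R' : ℕ) (pp : List (FA × FA)) (N : ℕ)
    (hO : PO S P P' f F X c' c0 BA Om) (hI : IO S P P' f F X c' c0 Im)
    (h : GI S P P' f F X c' c0 cls Fb R' pp) (hv : VI S' P P' f F X c' c0 R' W)
    (hs : F.stepS w m lf k BA Im cls Fb W R' pp N ≠ 0) : G := by
  unfold XF.stepS at hs
  cases hd : Nat.land N m with
  | zero =>
    rw [hd] at hs
    exact brS_sound C L hN hrq hk BA Im cls Fb W R' pp _ hO hI h hv hs
  | succ ξ =>
    rw [hd] at hs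
    have hs' : (Bool.rec (motive := fun _ => ℕ) 0 (Nat.succ (Nat.shiftRight N w))
      (lf ξ BA W W R' cls pp)) ≠ 0 := hs
    rcases brq (p := fun q => q ≠ 0) hs' with ⟨h1, -⟩ | ⟨-, h2⟩
    · exact hlf ξ BA cls Fb W R' pp hO h hv h1
    · exact absurd rfl h2

theorem goS_sound (C : Cx S S' P P' f g X c' c0) (L : Lk F X P P')
    (hN : NCA S P f F X c') (hrq : ∀ m ∈ F.rq, RqOk S' P f F X c' m) {Om w m : ℕ} {G : Prop}
    {lf : KT}
    (hlf : ∀ ξ BA cls Fb W R' pp, PO S P P' f F X c' c0 BA Om →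
      GI S P P' f F X c' c0 cls Fb R' pp → VI S' P P' f F X c' c0 R' W →
      lf ξ BA W W R' cls pp = true → G) : ∀ (fuel : ℕ)
    (BA Im : ℕ) (cls : List (ℕ × FA)) (Fb W R' : ℕ) (pp : List (FA × FA)) (N : ℕ),
    PO S P P' f F X c' c0 BA Om → IO S P P' f F X c' c0 Im →
    GI S P P' f F X c' c0 cls Fb R' pp → VI S' P P' f F X c' c0 R' W →
    F.goS w m lf fuel BA Im cls Fb W R' pp N ≠ 0 → G
  | 0, _, _, _, _, _, _, _, _, _, _, _, _, h => absurd rfl h
  | fuel + 1, BA, Im, cls, Fb, W, R', pp, N, hO, hI, hG, hv, h =>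
    stepS_sound C L hN hrq hlf (goS_sound C L hN hrq hlf fuel) BA Im cls Fb W R' pp N hO hI hG hv h

end Pool.FC7
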