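import Pool.Agent.FC7.XMb

/-! # The guided extension check: matchings and the inner labels -/

open Finset

set_option linter.unusedSectionVars false

namespace Pool.FC7

open Pool.FC6

/-! ### Matchings -/

theorem mt_big {α : Type} {k : List (α × α) → Bool} : ∀ (l st : List α) (prs : List (α × α)),
    l.length < st.length → FC6.mt k l st prs = true
  | [], [], _, h => by simp at h
  | [], _ :: _, _, _ => rfl
  | i :: l, [], _, h => by simp at h
  | i :: l, t :: s, prs, h => by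
    simp only [List.length_cons] at h
    have h1 := mt_big (k := k) l (i :: t :: s) prs (by simp only [List.length_cons]; omega)
    have h2 := mt_big (k := k) l s ((t, i) :: prs) (by omega)
    show (FC6.mt k l (i :: t :: s) prs && FC6.mt k l s ((t, i) :: prs)) = true
    rw [h1, h2]; rfl

open Classical in
theorem mtS_mt {k : List (FA × FA) → KQ} : ∀ (l st : List FA) (h : ℕ) (prs : List (FA × FA)) (N : ℕ),
    l.length ≤ st.length + 2 * h + 1 → mtS k l st h prs N ≠ 0 →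
    FC6.mt (fun prs => decide (∃ N, k prs N ≠ 0)) l st prs = true
  | [], [], _, prs, N, _, hk => decide_eq_true ⟨N, hk⟩
  | [], _ :: _, _, _, _, _, _ => rfl
  | i :: l, [], 0, prs, N, hl, _ => by
    simp only [List.length_cons, List.length_nil] at hl
    have h1 : l = [] := List.length_eq_zero_iff.1 (by omega)
    subst h1
    rfl
  | i :: l, [], h + 1, prs, N, hl, hk => by
    simp only [List.length_cons, List.length_nil] at hl
    exact mtS_mt l [i] h prs N (by simp only [List.length_cons, List.length_nil]; omega) hk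
  | i :: l, t :: s, 0, prs, N, hl, hk => by
    simp only [List.length_cons] at hl
    have h1 := mt_big (k := fun prs => decide (∃ N, k prs N ≠ 0)) l (i :: t :: s) prs
      (by simp only [List.length_cons]; omega)
    have h2 := mtS_mt l s 0 ((t, i) :: prs) N (by omega) hk
    show (FC6.mt _ l (i :: t :: s) prs && FC6.mt _ l s ((t, i) :: prs)) = true
    rw [h1, h2]; rfl
  | i :: l, t :: s, h + 1, prs, N, hl, hk => by
    simp only [List.length_cons] at hl
    have hk' : sq (mtS k l s (h + 1) ((t, i) :: prs) N) (mtS k l (i :: t :: s) h prs) ≠ 0 := hk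
    obtain ⟨h3, N1, h4⟩ := sq_ne hk'
    have h1 := mtS_mt l (i :: t :: s) h prs N1 (by simp only [List.length_cons]; omega) h4
    have h2 := mtS_mt l s (h + 1) ((t, i) :: prs) N (by omega) h3
    show (FC6.mt _ l (i :: t :: s) prs && FC6.mt _ l s ((t, i) :: prs)) = true
    rw [h1, h2]; rfl

theorem cnt_eq : ∀ od : List FA, cnt od = od.length
  | [] => rfl
  | _ :: od => by
    show Nat.succ (cnt od) = _
    rw [cnt_eq od]; rfl

theorem sng_mem {cls : List (ℕ × FA)} : ∀ {od : List FA} {c : ℕ × FA},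
    c ∈ sng cls od ↔ c ∈ cls ∨ ∃ a ∈ od, c = (a.bt, a)
  | [], c => by
    show c ∈ cls ↔ _
    simp
  | a :: od, c => by
    show c ∈ (a.bt, a) :: sng cls od ↔ _
    rw [List.mem_cons, sng_mem]
    constructor
    · rintro (h | h | ⟨p', h1, h2⟩)
      · exact Or.inr ⟨a, by simp, h⟩
      · exact Or.inl h
      · exact Or.inr ⟨p', List.mem_cons_of_mem _ h1, h2⟩
    · rintro (h | ⟨p', h1, h2⟩)
      · exact Or.inr (Or.inl h)
      · rcases List.mem_cons.1 h1 with rfl | h1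
        · exact Or.inl h2
        · exact Or.inr (Or.inr ⟨p', h1, h2⟩)

/-! ### Partial colourings -/

/-- the labels of the mask `U` have no colour in `c` -/
def AG (U c c0 : ℕ) : Prop := ∀ i, c.testBit i = (!U.testBit i && c0.testBit i)

theorem AG.ncl {U c c0 lm : ℕ} (h : AG U c c0) (hm : lm &&& U = 0) : ncl c lm = ncl c0 lm := by
  have e : Nat.land c lm = Nat.land c0 lm := by
    rw [land_eq, land_eq]
    apply Nat.eq_of_testBit_eq
    intro i
    rw [Nat.testBit_and, Nat.testBit_and, h i]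
    cases h1 : lm.testBit i
    · simp
    · have : U.testBit i = false := by
        by_contra hc
        rw [Bool.not_eq_false] at hc
        exact and_eq_zero_iff.1 hm i h1 hc
      rw [this]; simp
  unfold FC7.ncl
  rw [e]

theorem AG.step {U c c0 j : ℕ} (h : AG U c c0) (hj : U.testBit j = true) :
    (c0.testBit j = false → AG (U ^^^ 2 ^ j) c c0) ∧
      (c0.testBit j = true → AG (U ^^^ 2 ^ j) (Nat.lor c (2 ^ j)) c0) := by
  constructor
  · intro h0 i
    rw [Nat.testBit_xor, Nat.testBit_two_pow, h i]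
    by_cases h1 : j = i
    · subst h1
      rw [hj, h0]; simp
    · simp [h1]
  · intro h0 i
    rw [lor_eq, Nat.testBit_or, Nat.testBit_xor, Nat.testBit_two_pow, h i]
    by_cases h1 : j = i
    · subst h1
      rw [hj, h0]; simp
    · simp [h1]

/-- the masks of the levels are correct -/
noncomputable def lvOk (l : List (ℕ × List FE)) : ℕ → Bool :=
  List.rec (motive := fun _ => ℕ → Bool) (fun U => Nat.beq U 0)
    (fun v _ ih U => Bool.rec (motive := fun _ => Bool) false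
      (Bool.rec (motive := fun _ => Bool) false
        (Bool.rec (motive := fun _ => Bool) false (ih (Nat.xor U v.1))
          (List.rec (motive := fun _ => Bool) true
            (fun e _ ih => Bool.rec (motive := fun _ => Bool) false ih
              (Nat.beq (Nat.land e.lm (Nat.xor U v.1)) 0)) v.2))
        (Nat.beq (Nat.land v.1 U) v.1)) (Nat.beq v.1 (Nat.pow 2 (Nat.log2 v.1)))) l

theorem all_rec {α : Type} {p : α → Bool} : ∀ {l : List α}, List.rec (motive := fun _ => Bool) true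
    (fun e _ ih => Bool.rec (motive := fun _ => Bool) false ih (p e)) l = true →
    ∀ e ∈ l, p e = true
  | [], _, e, he => by simp at he
  | e :: l, h, z, hz => by
    have h' : Bool.rec (motive := fun _ => Bool) false (List.rec (motive := fun _ => Bool) true
      (fun e _ ih => Bool.rec (motive := fun _ => Bool) false ih (p e)) l) (p e) = true := h
    rcases bif_true h' with ⟨h1, h2⟩ | ⟨-, h2⟩
    · rcases List.mem_cons.1 hz with rfl | hz
      · exact h1
      · exact all_rec h2 z hz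
    · cases h2

theorem lvOk_cons {U : ℕ} {v : ℕ × List FE} {l : List (ℕ × List FE)} (h : lvOk (v :: l) U = true) :
    ∃ j, v.1 = 2 ^ j ∧ U.testBit j = true ∧ (∀ e ∈ v.2, e.lm &&& (U ^^^ 2 ^ j) = 0) ∧
      lvOk l (U ^^^ 2 ^ j) = true := by
  have h' : Bool.rec (motive := fun _ => Bool) false
      (Bool.rec (motive := fun _ => Bool) false
        (Bool.rec (motive := fun _ => Bool) false (lvOk l (Nat.xor U v.1))
          (List.rec (motive := fun _ => Bool) true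
            (fun e _ ih => Bool.rec (motive := fun _ => Bool) false ih
              (Nat.beq (Nat.land e.lm (Nat.xor U v.1)) 0)) v.2))
        (Nat.beq (Nat.land v.1 U) v.1)) (Nat.beq v.1 (Nat.pow 2 (Nat.log2 v.1))) = true := h
  rcases bif_true h' with ⟨h1, h2⟩ | ⟨-, h2⟩
  swap
  · cases h2
  rcases bif_true h2 with ⟨h3, h4⟩ | ⟨-, h4⟩
  swap
  · cases h4
  rcases bif_true h4 with ⟨h5, h6⟩ | ⟨-, h6⟩
  swap
  · cases h6
  obtain ⟨j, e1⟩ : ∃ j, v.1 = 2 ^ j := ⟨_, beq_true.1 h1⟩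
  rw [beq_true, land_eq] at h3
  have h7 := all_rec h5
  rw [e1] at h6 h7 h3
  refine ⟨j, e1, ?_, fun e he => beq_true.1 (h7 e he), h6⟩
  have : (2 ^ j &&& U).testBit j = true := by
    rw [h3]
    exact bit1.2 rfl
  rw [Nat.testBit_and, Bool.and_eq_true] at this
  exact this.2

theorem lvOk_nil {U : ℕ} (h : lvOk [] U = true) : U = 0 := beq_true.1 h

/-! ### Merging of all edges -/

theorem mrs_eqv {q w : ℕ} (hq : 0 < q) (hw : w ≤ q) : ∀ (l : List FE) (R : ℕ),
    (∀ e ∈ l, e.Ok q ∧ e.i < w ∧ e.j < w) → Eqv q w R →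
    Eqv q w (mrs (Ks q w) (2 ^ q - 1) l R) ∧
      (∀ s t, rb q R s t → rb q (mrs (Ks q w) (2 ^ q - 1) l R) s t) ∧
      ∀ e ∈ l, rb q (mrs (Ks q w) (2 ^ q - 1) l R) e.i e.j
  | [], R, _, h => ⟨h, fun _ _ h => h, by simp⟩
  | e :: l, R, hl, h => by
    have hl' : ∀ e ∈ l, e.Ok q ∧ e.i < w ∧ e.j < w := fun e he => hl e (List.mem_cons_of_mem _ he)
    obtain ⟨h1, h2, h3⟩ := hl e (by simp)
    show Eqv q w (mrs (Ks q w) (2 ^ q - 1) l (mr (Ks q w) (2 ^ q - 1) R e.i e.j e.qi e.qj)) ∧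
      (∀ s t, rb q R s t →
        rb q (mrs (Ks q w) (2 ^ q - 1) l (mr (Ks q w) (2 ^ q - 1) R e.i e.j e.qi e.qj)) s t) ∧
      ∀ z ∈ e :: l, rb q (mrs (Ks q w) (2 ^ q - 1) l (mr (Ks q w) (2 ^ q - 1) R e.i e.j e.qi e.qj))
        z.i z.j
    rw [h1.qi, h1.qj]
    obtain ⟨g1, g2, g3⟩ := h.mr hq hw h2 h3
    obtain ⟨k1, k2, k3⟩ := mrs_eqv hq hw l _ hl' g1
    refine ⟨k1, fun s t hst => k2 s t (g2 s t hst), fun z hz => ?_⟩
    rcases List.mem_cons.1 hz with rfl | hz
    · exact k2 _ _ g3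
    · exact k3 z hz

theorem mrs_sub {q w : ℕ} {T : ℕ → ℕ → Prop} (hT : Equivalence T) (hq : 0 < q) (hw : w ≤ q) :
    ∀ (l : List FE) (R : ℕ), (∀ e ∈ l, e.Ok q ∧ e.i < w ∧ e.j < w) →
    (∀ e ∈ l, T e.i e.j) → Sub q R T → Sub q (mrs (Ks q w) (2 ^ q - 1) l R) T
  | [], R, _, _, h => h
  | e :: l, R, hl, ht, h => by
    have hl' : ∀ e ∈ l, e.Ok q ∧ e.i < w ∧ e.j < w := fun e he => hl e (List.mem_cons_of_mem _ he)
    have ht' : ∀ e ∈ l, T e.i e.j := fun e he => ht e (List.mem_cons_of_mem _ he)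
    obtain ⟨h1, h2, h3⟩ := hl e (by simp)
    show Sub q (mrs (Ks q w) (2 ^ q - 1) l (mr (Ks q w) (2 ^ q - 1) R e.i e.j e.qi e.qj)) T
    rw [h1.qi, h1.qj]
    exact mrs_sub hT hq hw l _ hl' ht' (h.mr hT hq (by omega) (by omega) (ht e (by simp)))

theorem mrb_bit {q t : ℕ} : ∀ (l : List FE) (B : ℕ), (∀ e ∈ l, e.Ok q) →
    ((mrb l B).testBit t = true ↔ B.testBit t = true ∨ ∃ e ∈ l, (t = e.i ∨ t = e.j))
  | [], B, _ => by
    show B.testBit t = true ↔ _
    simp
  | e :: l, B, hl => by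
    have hl' : ∀ e ∈ l, e.Ok q := fun e he => hl e (List.mem_cons_of_mem _ he)
    show (mrb l (Nat.lor B e.bm)).testBit t = true ↔ _
    rw [mrb_bit l _ hl', lor_eq, Nat.testBit_or, Bool.or_eq_true, (hl e (by simp)).bm, bit2]
    constructor
    · rintro ((h | h) | ⟨e', h1, h2⟩)
      · exact Or.inl h
      · exact Or.inr ⟨e, by simp, h.imp Eq.symm Eq.symm⟩
      · exact Or.inr ⟨e', List.mem_cons_of_mem _ h1, h2⟩
    · rintro (h | ⟨e', h1, h3⟩)
      · exact Or.inl (Or.inl h)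
      · rcases List.mem_cons.1 h1 with rfl | h1
        · exact Or.inl (Or.inr (h3.imp Eq.symm Eq.symm))
        · exact Or.inr ⟨e', h1, h3⟩

theorem cR_eqv {q w : ℕ} (hq : 0 < q) (hw : w ≤ q) : ∀ (l : List (ℕ × List FE)) (R : ℕ),
    (∀ v ∈ l, ∀ e ∈ v.2, e.Ok q ∧ e.i < w ∧ e.j < w) → Eqv q w R →
    Eqv q w (cR (Ks q w) (2 ^ q - 1) l R) ∧
      (∀ s t, rb q R s t → rb q (cR (Ks q w) (2 ^ q - 1) l R) s t) ∧
      ∀ v ∈ l, ∀ e ∈ v.2, rb q (cR (Ks q w) (2 ^ q - 1) l R) e.i e.j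
  | [], R, _, h => ⟨h, fun _ _ h => h, by simp⟩
  | v :: l, R, hl, h => by
    have hl' : ∀ v ∈ l, ∀ e ∈ v.2, e.Ok q ∧ e.i < w ∧ e.j < w :=
      fun v hv => hl v (List.mem_cons_of_mem _ hv)
    obtain ⟨g1, g2, g3⟩ := mrs_eqv hq hw v.2 R (hl v (by simp)) h
    obtain ⟨k1, k2, k3⟩ := cR_eqv hq hw l _ hl' g1
    refine ⟨k1, fun s t hst => k2 s t (g2 s t hst), fun z hz e he => ?_⟩
    rcases List.mem_cons.1 hz with rfl | hz
    · exact k2 _ _ (g3 e he)
    · exact k3 z hz e he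

theorem cR_sub {q w : ℕ} {T : ℕ → ℕ → Prop} (hT : Equivalence T) (hq : 0 < q) (hw : w ≤ q) :
    ∀ (l : List (ℕ × List FE)) (R : ℕ), (∀ v ∈ l, ∀ e ∈ v.2, e.Ok q ∧ e.i < w ∧ e.j < w) →
    (∀ v ∈ l, ∀ e ∈ v.2, T e.i e.j) → Sub q R T → Sub q (cR (Ks q w) (2 ^ q - 1) l R) T
  | [], R, _, _, h => h
  | v :: l, R, hl, ht, h => cR_sub hT hq hw l _ (fun v hv => hl v (List.mem_cons_of_mem _ hv))
      (fun v hv => ht v (List.mem_cons_of_mem _ hv))
      (mrs_sub hT hq hw v.2 R (hl v (by simp)) (ht v (by simp)) h)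

theorem cB_bit {q t : ℕ} : ∀ (l : List (ℕ × List FE)) (B : ℕ), (∀ v ∈ l, ∀ e ∈ v.2, e.Ok q) →
    ((cB l B).testBit t = true ↔ B.testBit t = true ∨ ∃ v ∈ l, ∃ e ∈ v.2, (t = e.i ∨ t = e.j))
  | [], B, _ => by
    show B.testBit t = true ↔ _
    simp
  | v :: l, B, hl => by
    have hl' : ∀ v ∈ l, ∀ e ∈ v.2, e.Ok q := fun e he => hl e (List.mem_cons_of_mem _ he)
    show (cB l (mrb v.2 B)).testBit t = true ↔ _
    rw [cB_bit l _ hl', mrb_bit v.2 B (hl v (by simp))]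
    constructor
    · rintro ((h | h) | ⟨e', h1, h2⟩)
      · exact Or.inl h
      · exact Or.inr ⟨v, by simp, h⟩
      · exact Or.inr ⟨e', List.mem_cons_of_mem _ h1, h2⟩
    · rintro (h | ⟨e', h1, h3⟩)
      · exact Or.inl (Or.inl h)
      · rcases List.mem_cons.1 h1 with rfl | h1
        · exact Or.inl (Or.inr h3)
        · exact Or.inr ⟨e', h1, h3⟩

/-- the marked classes -/
theorem mk_equiv {B : ℕ} : Equivalence (fun s t : ℕ => s = t ∨ (B.testBit s = true ∧ B.testBit t = true)) := by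
  refine ⟨fun _ => Or.inl rfl, ?_, ?_⟩
  · rintro s t (h | ⟨h, h'⟩)
    · exact Or.inl h.symm
    · exact Or.inr ⟨h', h⟩
  · rintro s t u (h | ⟨h, h'⟩) (k | ⟨k, k'⟩)
    · exact Or.inl (h.trans k)
    · exact Or.inr ⟨by rw [h]; exact k, k'⟩
    · exact Or.inr ⟨h, by rw [← k]; exact h'⟩
    · exact Or.inr ⟨h, k'⟩

variable {F : XF} {X : XE} {P P' : Pa}
variable {D V : Type} [Fintype D] [DecidableEq V]
variable {S S' : St D V} {f : ℕ → D} {g : ℕ → V} {c' : V → Bool} {c0 : ℕ}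

theorem es_ok (L : Lk F X P P') : ∀ e ∈ F.es', FE.Ok F.q e := by
  intro e he
  rw [L.es'] at he
  obtain ⟨i, hi, rfl⟩ := List.mem_map.1 he
  exact mkE_ok

theorem es_lt (C : Cx S S' P P' f g X c' c0) (L : Lk F X P P') :
    ∀ e ∈ F.es', e.Ok F.q ∧ e.i < F.w ∧ e.j < F.w := by
  intro e he
  rw [L.es'] at he
  obtain ⟨i, hi, rfl⟩ := List.mem_map.1 he
  obtain ⟨h1, h2⟩ := C.st.es' i hi
  refine ⟨mkE_ok, (L.ce i h1).2, ?_⟩
  show X.ce' (P'.α i) < F.w
  rw [C.h.hα i h1]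
  exact (L.ce _ (C.h.G.αlt i h1)).2

/-- the cells at an open edge are visited -/
theorem es_vi (C : Cx S S' P P' f g X c' c0) (L : Lk F X P P') {e : FE} (he : e ∈ F.es')
    (hn : ncl c0 e.lm = false) {t : ℕ} (ht : t = e.i ∨ t = e.j) :
    ∃ i < P.n, X.ce' i = t ∧ Vi S' c' (f i) := by
  rw [L.es'] at he
  obtain ⟨i, hi, rfl⟩ := List.mem_map.1 he
  obtain ⟨k1, k2⟩ := C.st.es' i hi
  have hi' : i < P'.n := by rw [C.h.hn]; exact k1
  have h3 : Br S' c' (f i) := (C.br' k1).2 ((ncl_br (L.er' i hi)).1 hn)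
  rcases ht with rfl | rfl
  · exact ⟨i, k1, rfl, h3.vi⟩
  · have hα' : P'.α i = P.α i := C.h.hα i k1
    refine ⟨P'.α i, by rw [hα']; exact C.h.G.αlt i k1, rfl, ?_⟩
    rw [← C.h.e'.hα i hi' (by rw [hα']; exact k2)]
    exact (vi_α ((C.op' k1).2 ((ncl_op (L.er' i hi)).1 hn))).2 h3.vi

/-- the data of the ring -/
structure RG (S : St D V) (P P' : Pa) (f : ℕ → D) (F : XF) (X : XE) (c' : V → Bool) (c0 : ℕ)
    (cls : List (ℕ × FA)) (od : List FA) (BA Om : ℕ) : Prop where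
  cl : ∀ c ∈ cls, c.1 = c.2.bt ∧ OA F X P' c0 c.2
  odo : ∀ a ∈ od, OA F X P' c0 a
  cv : ∀ a, OA F X P' c0 a → (a.bt, a) ∈ cls ∨ a ∈ od
  po : PO S P P' f F X c' c0 BA Om
  nc : NCL (RQ S P f X c') od
  ev : EvL (RQ S P f X c') od

/-- the data of the edges of `P'`: `l` = levels which have not been processed -/
structure EI (S' : St D V) (P P' : Pa) (f : ℕ → D) (F : XF) (X : XE) (c' : V → Bool) (c0 : ℕ)
    (l : List (ℕ × List FE)) (R B : ℕ) : Prop where
  e : Eqv F.q F.w R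
  o : ∀ e ∈ F.es', (∃ v ∈ l, e ∈ v.2) ∨ (ncl c0 e.lm = false →
    rb F.q R e.i e.j ∧ B.testBit e.i = true ∧ B.testBit e.j = true)
  re : ∀ a, OA F X P' c0 a → a.r = true → B.testBit a.i' = true
  vi : ∀ t, B.testBit t = true → ∃ i < P.n, X.ce' i = t ∧ Vi S' c' (f i)
  cl : Sub F.q R (fun s t => s = t ∨ (B.testBit s = true ∧ B.testBit t = true))
  ls : ∀ v ∈ l, ∀ e ∈ v.2, e ∈ F.es'

theorem EI.step (C : Cx S S' P P' f g X c' c0) (L : Lk F X P P') {v : ℕ × List FE}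
    {l : List (ℕ × List FE)} {R B c : ℕ} (h : EI S' P P' f F X c' c0 (v :: l) R B)
    (hc : ∀ e ∈ v.2, ncl c e.lm = ncl c0 e.lm) :
    EI S' P P' f F X c' c0 l (meR F.K F.F c v.2 R) (meB c v.2 B) := by
  have hlt := fun e he => es_lt C L e (h.ls v (by simp) e he)
  obtain ⟨e1, e2, e3⟩ := meR_eqv (c := c) L.hq (le_of_lt L.hw) v.2 R hlt h.e
  have hbit := fun t => meB_bit (q := F.q) (c := c) (t := t) v.2 B (fun e he => (hlt e he).1)
  rw [L.hK, L.hF]
  refine ⟨e1, fun e he => ?_, fun a ha hr => (hbit _).2 (Or.inl (h.re a ha hr)), fun t ht => ?_, ?_,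
    fun z hz => h.ls z (List.mem_cons_of_mem _ hz)⟩
  · rcases h.o e he with ⟨z, z1, z2⟩ | h1
    · rcases List.mem_cons.1 z1 with rfl | z1
      · right
        intro hn
        have hn' : ncl c e.lm = false := by rw [hc e z2]; exact hn
        exact ⟨e3 e z2 hn', (hbit _).2 (Or.inr ⟨e, z2, hn', Or.inl rfl⟩),
          (hbit _).2 (Or.inr ⟨e, z2, hn', Or.inr rfl⟩)⟩
      · exact Or.inl ⟨z, z1, z2⟩
    · right
      intro hn
      obtain ⟨a1, a2, a3⟩ := h1 hn
      exact ⟨e2 _ _ a1, (hbit _).2 (Or.inl a2), (hbit _).2 (Or.inl a3)⟩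
  · rcases (hbit t).1 ht with h1 | ⟨e, h1, h2, h3⟩
    · exact h.vi t h1
    · exact es_vi C L (h.ls v (by simp) e h1) (by rw [← hc e h1]; exact h2) h3
  · refine meR_sub mk_equiv L.hq (le_of_lt L.hw) v.2 R hlt (fun e he hn => ?_) fun s t hst => ?_
    · exact Or.inr ⟨(hbit _).2 (Or.inr ⟨e, he, hn, Or.inl rfl⟩),
        (hbit _).2 (Or.inr ⟨e, he, hn, Or.inr rfl⟩)⟩
    · rcases h.cl s t hst with h1 | ⟨h1, h2⟩
      · exact Or.inl h1
      · exact Or.inr ⟨(hbit _).2 (Or.inl h1), (hbit _).2 (Or.inl h2)⟩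

/-- the open edges are in the relation -/
def OE (P P' : Pa) (F : XF) (X : XE) (c0 R : ℕ) : Prop :=
  ∀ i < P.n, P.α i ≠ i → P'.real i = true → P'.op c0 i = true →
    rb F.q R (X.ce' i) (X.ce' (P.α i))

theorem EI.coarse (C : Cx S S' P P' f g X c' c0) (L : Lk F X P P') {l : List (ℕ × List FE)}
    {R B : ℕ} (h : EI S' P P' f F X c' c0 l R B) :
    Eqv F.q F.w (cR F.K F.F l R) ∧ OE P P' F X c0 (cR F.K F.F l R) ∧
      VC S' P P' f F X c' c0 (cR F.K F.F l R) (cB l B) B := by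
  have hlt := fun v hv e he => es_lt C L e (h.ls v hv e he)
  obtain ⟨e1, e2, e3⟩ := cR_eqv L.hq (le_of_lt L.hw) l R hlt h.e
  have hbit := fun t => cB_bit (q := F.q) (t := t) l B (fun v hv e he => (hlt v hv e he).1)
  have hn := C.h.hn
  rw [L.hK, L.hF]
  -- the edges
  have key : ∀ e ∈ F.es', ncl c0 e.lm = false → rb F.q (cR (Ks F.q F.w) (2 ^ F.q - 1) l R) e.i e.j ∧
      (cB l B).testBit e.i = true ∧ (cB l B).testBit e.j = true := by
    intro e he hn
    rcases h.o e he with ⟨v, v1, v2⟩ | h1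
    · exact ⟨e3 v v1 e v2, (hbit _).2 (Or.inr ⟨v, v1, e, v2, Or.inl rfl⟩),
        (hbit _).2 (Or.inr ⟨v, v1, e, v2, Or.inr rfl⟩)⟩
    · obtain ⟨a1, a2, a3⟩ := h1 hn
      exact ⟨e2 _ _ a1, (hbit _).2 (Or.inl a2), (hbit _).2 (Or.inl a3)⟩
  refine ⟨e1, fun i hi hne hr ho => ?_, ?_, fun s t hst hs => ?_, fun i hi hb => ?_, fun h0 => ?_⟩
  · have hi' : i < P'.n := by rw [hn]; exact hi
    have hα' : P'.α i = P.α i := C.h.hα i hi
    rcases C.st.inn' i hi hne hr with h3 | h3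
    · have h5 := (key (mkE F.q P' X.ce' i) (by rw [L.es']; exact List.mem_map_of_mem h3)
        ((ncl_op hr).2 ho)).1
      have h6 : rb F.q (cR (Ks F.q F.w) (2 ^ F.q - 1) l R) (X.ce' i) (X.ce' (P'.α i)) := h5
      rwa [hα'] at h6
    · have hr' : P'.real (P.α i) = true := by rw [C.st.rα' i hi]; exact hr
      have h5 := (key (mkE F.q P' X.ce' (P.α i)) (by rw [L.es']; exact List.mem_map_of_mem h3)
        ((ncl_op hr').2 (by
          rw [← hα', op_α C.h.G' hi' (by rw [hα']; exact hne) (by rw [hα']; exact C.st.rα' i hi)]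
          exact ho))).1
      have h6 : rb F.q (cR (Ks F.q F.w) (2 ^ F.q - 1) l R) (X.ce' (P.α i))
        (X.ce' (P'.α (P.α i))) := h5
      rw [← hα', C.h.G'.αα i hi', hα'] at h6
      exact e1.symm _ _ h6
  · apply Nat.lt_pow_two_of_testBit
    intro i hi
    by_contra hcon
    rw [Bool.not_eq_false] at hcon
    have hw := L.hw
    rcases (hbit i).1 hcon with h1 | ⟨v, v1, e, e1, e2⟩
    · obtain ⟨j, j1, j2, -⟩ := h.vi i h1
      have := (L.ce j j1).2
      omega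
    · obtain ⟨-, b1, b2⟩ := hlt v v1 e e1
      rcases e2 with e2 | e2 <;> omega
  · have hS : Sub F.q (cR (Ks F.q F.w) (2 ^ F.q - 1) l R)
        (fun s t => s = t ∨ ((cB l B).testBit s = true ∧ (cB l B).testBit t = true)) := by
      refine cR_sub mk_equiv L.hq (le_of_lt L.hw) l R hlt (fun v hv e he => Or.inr
        ⟨(hbit _).2 (Or.inr ⟨v, hv, e, he, Or.inl rfl⟩),
        (hbit _).2 (Or.inr ⟨v, hv, e, he, Or.inr rfl⟩)⟩) fun s t hst => ?_
      rcases h.cl s t hst with h1 | ⟨h1, h2⟩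
      · exact Or.inl h1
      · exact Or.inr ⟨(hbit _).2 (Or.inl h1), (hbit _).2 (Or.inl h2)⟩
    rcases hS s t hst with h1 | ⟨-, h1⟩
    · rw [← h1]; exact hs
    · exact h1
  · have hr := br_real hb
    by_cases hα : P.α i = i
    · obtain ⟨r1, r2, -⟩ := C.st.ring i hi hα
      have has := C.st.rreal r1 (by rw [← r2]; exact hr)
      obtain ⟨a, a1, a2⟩ := L.of_mem has
      have aa := L.arc a1
      have ho := br_op hb
      have := h.re a ⟨a1, by rw [a2]; exact ho⟩ (by rw [aa.r, a2, ← r2]; exact hr)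
      rw [aa.i', a2] at this
      exact (hbit _).2 (Or.inl this)
    · have hi' : i < P'.n := by rw [hn]; exact hi
      have hα' : P'.α i = P.α i := C.h.hα i hi
      rcases C.st.inn' i hi hα hr with h3 | h3
      · exact (key _ (by rw [L.es']; exact List.mem_map_of_mem h3) ((ncl_br hr).2 hb)).2.1
      · have hr' : P'.real (P.α i) = true := by rw [C.st.rα' i hi]; exact hr
        have h5 := (key (mkE F.q P' X.ce' (P.α i)) (by rw [L.es']; exact List.mem_map_of_mem h3)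
          ((ncl_br hr').2 (by
            rw [← hα']
            rw [br_α C.h.G' hi' (by rw [hα']; exact hα) (by rw [hα']; exact C.st.rα' i hi)]
            exact hb))).2.2
        have h6 : (cB l B).testBit (X.ce' (P'.α (P.α i))) = true := h5
        rw [← hα', C.h.G'.αα i hi'] at h6
        exact h6
  · obtain ⟨i, i1, i2, i3⟩ := h.vi _ (log2_bit h0)
    exact ⟨i, i1, by rw [i2]; exact (hbit _).2 (Or.inl (log2_bit h0)), i3⟩

theorem EI.exact (C : Cx S S' P P' f g X c' c0) (L : Lk F X P P')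
    {R B : ℕ} (h : EI S' P P' f F X c' c0 [] R B) :
    OE P P' F X c0 R ∧ VI S' P P' f F X c' c0 R B := by
  obtain ⟨h1, h2, h3⟩ := h.coarse C L
  have h3' : VC S' P P' f F X c' c0 R B B := h3
  refine ⟨h2, h3'.cl, h3'.br, fun t ht => ?_⟩
  obtain ⟨i, i1, i2, i3⟩ := h.vi t ht
  refine ⟨i, i1, i3, ?_⟩
  rw [i2]
  have := (L.ce i i1).2
  exact h.e.refl _ (by omega)

/-- the classes of a matching -/
theorem prs_vc (C : Cx S S' P P' f g X c' c0) (L : Lk F X P P') {R W Wk : ℕ} (hR : Eqv F.q F.w R)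
    (h : VC S' P P' f F X c' c0 R W Wk) : ∀ (prs : List (FA × FA)),
    (∀ z ∈ prs, OA F X P' c0 z.1 ∧ OA F X P' c0 z.2) →
    VC S' P P' f F X c' c0 (F.prr R prs) (F.pvv W R prs) Wk
  | [], _ => h
  | p :: prs, hp => by
    have ih := prs_vc C L hR h prs fun z hz => hp z (List.mem_cons_of_mem _ hz)
    obtain ⟨h1, h2⟩ := hp p (by simp)
    exact ih.mr C L (prr_ok C L hR prs fun z hz => hp z (List.mem_cons_of_mem _ hz)).1 h1 h2

theorem prs_vi (C : Cx S S' P P' f g X c' c0) (L : Lk F X P P') {R W : ℕ} (hR : Eqv F.q F.w R)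
    (h : VI S' P P' f F X c' c0 R W) : ∀ (prs : List (FA × FA)),
    (∀ z ∈ prs, OA F X P' c0 z.1 ∧ OA F X P' c0 z.2) →
    VI S' P P' f F X c' c0 (F.prr R prs) (F.pvv W R prs)
  | [], _ => h
  | p :: prs, hp => by
    have ih := prs_vi C L hR h prs fun z hz => hp z (List.mem_cons_of_mem _ hz)
    obtain ⟨h1, h2⟩ := hp p (by simp)
    exact ih.mr C L (prr_ok C L hR prs fun z hz => hp z (List.mem_cons_of_mem _ hz)).1 h1 h2

theorem fb_zero : FbOk S P P' f F X c' c0 0 := by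
  intro a b _ _ h
  have := h.2
  rw [Nat.zero_testBit] at this
  cases this

theorem GI_pcl (C : Cx S S' P P' f g X c' c0) (L : Lk F X P P') {cls : List (ℕ × FA)}
    {od : List FA} {BA Om : ℕ} (hg : RG S P P' f F X c' c0 cls od BA Om) {R : ℕ}
    (hR : Eqv F.q F.w R) (hO : OE P P' F X c0 R) {prs : List (FA × FA)}
    (hp : ∀ z ∈ prs, OA F X P' c0 z.1 ∧ OA F X P' c0 z.2 ∧ RQ S P f X c' z.1 z.2)
    (hc : ∀ x ∈ od, ∃ p ∈ prs, x = p.1 ∨ x = p.2) :
    GI S P P' f F X c' c0 (XF.pcl cls prs) 0 (F.prr R prs) prs := by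
  obtain ⟨r1, r2, r3⟩ := Lk.rq_equiv C
  obtain ⟨f1, f2, f3⟩ := prr_ok C L hR prs fun z hz => ⟨(hp z hz).1, (hp z hz).2.1⟩
  refine ⟨f1, fun i hi hne hr ho => f2 _ _ (hO i hi hne hr ho), fun c hc => ?_, fun b hb => ?_,
    fb_zero, hp⟩
  · rcases pcl_mem.1 hc with h1 | ⟨p, h1, rfl⟩
    · obtain ⟨k1, k2⟩ := hg.cl c h1
      refine ⟨k2, fun t ht => ?_⟩
      rw [k1, (L.arc k2.1).bt] at ht
      exact ⟨c.2, k2, bit1.1 ht, r1 _, f1.refl _ (k2.lt C L)⟩
    · obtain ⟨k1, k2, k3⟩ := hp p h1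
      refine ⟨k1, fun t ht => ?_⟩
      have ht' : (2 ^ p.1.t ||| 2 ^ p.2.t).testBit t = true := by
        rw [← (L.arc k1.1).bt, ← (L.arc k2.1).bt]; exact ht
      rcases bit2.1 ht' with h5 | h5
      · exact ⟨p.1, k1, h5, r1 _, f1.refl _ (k1.lt C L)⟩
      · exact ⟨p.2, k2, h5, k3, f3 p h1⟩
  · rcases hg.cv b hb with h1 | h1
    · refine ⟨(b.bt, b), pcl_mem.2 (Or.inl h1), ?_⟩
      rw [(L.arc hb.1).bt]
      exact bit1.2 rfl
    · obtain ⟨p, h1, h2⟩ := hc b h1
      refine ⟨(Nat.lor p.1.bt p.2.bt, p.1), pcl_mem.2 (Or.inr ⟨p, h1, rfl⟩), ?_⟩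
      obtain ⟨k1, k2, k3⟩ := hp p h1
      show (p.1.bt ||| p.2.bt).testBit b.t = true
      rw [(L.arc k1.1).bt, (L.arc k2.1).bt]
      exact bit2.2 (h2.imp (fun h => by rw [h]) (fun h => by rw [h]))

theorem GI_sng (C : Cx S S' P P' f g X c' c0) (L : Lk F X P P') {cls : List (ℕ × FA)}
    {od : List FA} {BA Om : ℕ} (hg : RG S P P' f F X c' c0 cls od BA Om) {R : ℕ}
    (hR : Eqv F.q F.w R) (hO : OE P P' F X c0 R) :
    GI S P P' f F X c' c0 (sng cls od) 0 R [] := by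
  obtain ⟨r1, r2, r3⟩ := Lk.rq_equiv C
  refine ⟨hR, hO, fun c hc => ?_, fun b hb => ?_, fb_zero, by simp⟩
  · have key : c.1 = c.2.bt ∧ OA F X P' c0 c.2 := by
      rcases sng_mem.1 hc with h1 | ⟨a, h1, rfl⟩
      · exact hg.cl c h1
      · exact ⟨rfl, hg.odo a h1⟩
    refine ⟨key.2, fun t ht => ?_⟩
    rw [key.1, (L.arc key.2.1).bt] at ht
    exact ⟨c.2, key.2, bit1.1 ht, r1 _, hR.refl _ (key.2.lt C L)⟩
  · refine ⟨(b.bt, b), sng_mem.2 ?_, ?_⟩
    · rcases hg.cv b hb with h1 | h1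
      · exact Or.inl h1
      · exact Or.inr ⟨b, h1, rfl⟩
    · rw [(L.arc hb.1).bt]
      exact bit1.2 rfl

/-- the case of a test -/
theorem tst_case {N w : ℕ} {b : Bool} (h : (Bool.rec (motive := fun _ => ℕ) 0
    (Nat.succ (Nat.shiftRight N w)) b) ≠ 0) : b = true := by
  rcases brq (p := fun q => q ≠ 0) h with ⟨h1, -⟩ | ⟨-, h1⟩
  · exact h1
  · exact absurd rfl h1

theorem nodM_sound (C : Cx S S' P P' f g X c' c0) (L : Lk F X P P') {cls : List (ℕ × FA)}
    {od : List FA} {BA Om : ℕ} (hg : RG S P P' f F X c' c0 cls od BA Om) {w m : ℕ} {lf : KT}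
    {go : KD} {G : Prop}
    (hlf : ∀ ξ Wk cls W R' pp, GI S P P' f F X c' c0 cls 0 R' pp →
      VC S' P P' f F X c' c0 R' W Wk → lf ξ BA Wk W R' cls pp = true → G)
    (hgo : ∀ cls W R' pp N, GI S P P' f F X c' c0 cls 0 R' pp →
      VI S' P P' f F X c' c0 R' W → go cls 0 W R' pp N ≠ 0 → G) {prs : List (FA × FA)}
    (hp : ∀ z ∈ prs, OA F X P' c0 z.1 ∧ OA F X P' c0 z.2 ∧ RQ S P f X c' z.1 z.2)
    (hc : ∀ x ∈ od, ∃ p ∈ prs, x = p.1 ∨ x = p.2) :
    ∀ (l : List (ℕ × List FE)) (U c R B N : ℕ), lvOk l U = true → AG U c c0 →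
      EI S' P P' f F X c' c0 l R B → F.nd w m lf go cls BA l c R B prs N ≠ 0 → G
  | [], U, c, R, B, N, hU, ha, hE, h => by
    obtain ⟨h1, h2⟩ := hE.exact C L
    exact hgo _ _ _ _ N (GI_pcl C L hg hE.e h1 hp hc)
      (prs_vi C L hE.e h2 prs fun z hz => ⟨(hp z hz).1, (hp z hz).2.1⟩) h
  | v :: l, U, c, R, B, N, hU, ha, hE, h => by
    obtain ⟨j, j1, j2, j3, j4⟩ := lvOk_cons hU
    obtain ⟨s0, s1⟩ := ha.step j2
    have h' : (Nat.rec (motive := fun _ => ℕ)
      (sq (F.nd w m lf go cls BA l c (meR F.K F.F c v.2 R) (meB c v.2 B) prs (Nat.shiftRight N w))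
        (F.nd w m lf go cls BA l (Nat.lor c v.1) (meR F.K F.F (Nat.lor c v.1) v.2 R)
          (meB (Nat.lor c v.1) v.2 B) prs))
      (fun ξ _ => Bool.rec (motive := fun _ => ℕ) 0 (Nat.succ (Nat.shiftRight N w))
        (lf ξ BA B (F.pvv (cB (v :: l) B) (cR F.K F.F (v :: l) R) prs)
          (F.prr (cR F.K F.F (v :: l) R) prs) (XF.pcl cls prs) prs)) (Nat.land N m)) ≠ 0 := h
    cases hd : Nat.land N m with
    | zero =>
      rw [hd] at h'
      obtain ⟨h1, N1, h2⟩ := sq_ne h'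
      cases hb : c0.testBit j
      · have a1 := s0 hb
        exact nodM_sound C L hg hlf hgo hp hc l _ _ _ _ _ j4 a1
          (hE.step C L fun e he => a1.ncl (j3 e he)) h1
      · have a1 := s1 hb
        rw [j1] at h2
        exact nodM_sound C L hg hlf hgo hp hc l _ _ _ _ _ j4 a1
          (hE.step C L fun e he => a1.ncl (j3 e he)) h2
    | succ ξ =>
      rw [hd] at h'
      obtain ⟨e1, e2, e3⟩ := hE.coarse C L
      exact hlf ξ B _ _ _ _ (GI_pcl C L hg e1 e2 hp hc)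
        (prs_vc C L e1 e3 prs fun z hz => ⟨(hp z hz).1, (hp z hz).2.1⟩) (tst_case h')

theorem df2_sound (C : Cx S S' P P' f g X c' c0) (L : Lk F X P P') {cls : List (ℕ × FA)}
    {od : List FA} {BA Om : ℕ} (hg : RG S P P' f F X c' c0 cls od BA Om) {w m : ℕ} {lf : KT}
    {go : KD} {G : Prop}
    (hlf : ∀ ξ Wk cls W R' pp, GI S P P' f F X c' c0 cls 0 R' pp →
      VC S' P P' f F X c' c0 R' W Wk → lf ξ BA Wk W R' cls pp = true → G)
    (hgo : ∀ cls W R' pp N, GI S P P' f F X c' c0 cls 0 R' pp →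
      VI S' P P' f F X c' c0 R' W → go cls 0 W R' pp N ≠ 0 → G) :
    ∀ (l : List (ℕ × List FE)) (U c R B N : ℕ), lvOk l U = true → AG U c c0 →
      EI S' P P' f F X c' c0 l R B → F.df2 w m lf go cls od BA l c R B N ≠ 0 → G := by
  classical
  -- the matchings
  have hM : ∀ (l : List (ℕ × List FE)) (U c R B N : ℕ), lvOk l U = true → AG U c c0 →
      EI S' P P' f F X c' c0 l R B →
      mtS (F.nd w m lf go cls BA l c R B) od [] (Nat.div (cnt od) 2) [] N ≠ 0 → G := by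
    intro l U c R B N hU ha hE h
    have h1 := mtS_mt od [] _ [] N (by
      rw [cnt_eq]
      show od.length ≤ 0 + 2 * (od.length / 2) + 1
      omega) h
    obtain ⟨r1, r2, r3⟩ := Lk.rq_equiv C
    obtain ⟨prs, m1, m2, -, hk⟩ := mt_cover (R := RQ S P f X c') ⟨r1, r2, r3⟩ _ od [] [] h1
      (by simpa using hg.nc) (by simpa using hg.ev) (by simp) (by simp)
    simp only [List.reverse_nil, List.nil_append, List.not_mem_nil, or_false] at m1 m2
    obtain ⟨N1, hN1⟩ := of_decide_eq_true hk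
    exact nodM_sound C L hg hlf hgo
      (fun z hz => ⟨hg.odo _ (m1 z hz).2.1, hg.odo _ (m1 z hz).2.2, (m1 z hz).1⟩) m2 l U c R B N1 hU ha
      hE hN1
  -- the test with single arcs
  have hT : ∀ (l : List (ℕ × List FE)) (R B ξ : ℕ),
      EI S' P P' f F X c' c0 l R B →
      lf ξ BA B (cB l B) (cR F.K F.F l R) (sng cls od) [] = true → G := by
    intro l R B ξ hE h
    obtain ⟨e1, e2, e3⟩ := hE.coarse C L
    exact hlf ξ B _ _ _ _ (GI_sng C L hg e1 e2) e3 h
  intro l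
  induction l with
  | nil =>
    intro U c R B N hU ha hE h
    have h' : (Nat.rec (motive := fun _ => ℕ) 0
      (fun d _ => Nat.rec (motive := fun _ => ℕ)
        (mtS (F.nd w m lf go cls BA [] c R B) od [] (Nat.div (cnt od) 2) [] (Nat.shiftRight N w))
        (fun ξ _ => Bool.rec (motive := fun _ => ℕ) 0 (Nat.succ (Nat.shiftRight N w))
          (lf ξ BA B B R (sng cls od) [])) d) (Nat.land N m)) ≠ 0 := h
    cases hd : Nat.land N m with
    | zero => rw [hd] at h'; exact absurd rfl h'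
    | succ d =>
      rw [hd] at h'
      cases d with
      | zero => exact hM [] U c R B _ hU ha hE h'
      | succ ξ => exact hT [] R B ξ hE (tst_case h')
  | cons v l ih =>
    intro U c R B N hU ha hE h
    obtain ⟨j, j1, j2, j3, j4⟩ := lvOk_cons hU
    obtain ⟨s0, s1⟩ := ha.step j2
    have h' : (Nat.rec (motive := fun _ => ℕ)
      (sq (F.df2 w m lf go cls od BA l c (meR F.K F.F c v.2 R) (meB c v.2 B) (Nat.shiftRight N w))
        (F.df2 w m lf go cls od BA l (Nat.lor c v.1) (meR F.K F.F (Nat.lor c v.1) v.2 R)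
          (meB (Nat.lor c v.1) v.2 B)))
      (fun d _ => Nat.rec (motive := fun _ => ℕ)
        (mtS (F.nd w m lf go cls BA (v :: l) c R B) od [] (Nat.div (cnt od) 2) []
          (Nat.shiftRight N w))
        (fun ξ _ => Bool.rec (motive := fun _ => ℕ) 0 (Nat.succ (Nat.shiftRight N w))
          (lf ξ BA B (cB (v :: l) B) (cR F.K F.F (v :: l) R) (sng cls od) [])) d)
      (Nat.land N m)) ≠ 0 := h
    cases hd : Nat.land N m with
    | zero =>
      rw [hd] at h'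
      obtain ⟨h1, N1, h2⟩ := sq_ne h'
      cases hb : c0.testBit j
      · have a1 := s0 hb
        exact ih _ _ _ _ _ j4 a1 (hE.step C L fun e he => a1.ncl (j3 e he)) h1
      · have a1 := s1 hb
        rw [j1] at h2
        exact ih _ _ _ _ _ j4 a1 (hE.step C L fun e he => a1.ncl (j3 e he)) h2
    | succ d =>
      rw [hd] at h'
      cases d with
      | zero => exact hM (v :: l) U c R B _ hU ha hE h'
      | succ ξ => exact hT (v :: l) R B ξ hE (tst_case h')

end Pool.FC7
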