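import Pool.Agent.FC7.XMc

/-! # The guided extension check: the ring -/

open Finset

set_option linter.unusedSectionVars false

namespace Pool.FC7

open Pool.FC6

/-! ### The lists of the items -/

noncomputable def aI (l : List IT) : List FA :=
  List.rec (motive := fun _ => List FA) []
    (fun t _ ih => IT.rec (motive := fun _ => List FA) (fun _ => ih) (fun a => a :: ih)
      (fun _ => ih) (fun _ => ih) (fun _ => ih) t) l

noncomputable def lI (l : List IT) : List FL :=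
  List.rec (motive := fun _ => List FL) []
    (fun t _ ih => IT.rec (motive := fun _ => List FL) (fun _ => ih) (fun _ => ih)
      (fun _ => ih) (fun e => e :: ih) (fun _ => ih) t) l

/-- the edges of the levels -/
noncomputable def eL (l : List (ℕ × List FE)) : List FE :=
  List.rec (motive := fun _ => List FE) []
    (fun v _ ih => List.rec (motive := fun _ => List FE) ih (fun e _ ih => e :: ih) v.2) l

noncomputable def eI (l : List IT) (ll : List (ℕ × List FE)) : List FE :=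
  List.rec (motive := fun _ => List FE) (eL ll)
    (fun t _ ih => IT.rec (motive := fun _ => List FE) (fun _ => ih) (fun _ => ih)
      (fun e => e :: ih) (fun _ => ih) (fun _ => ih) t) l

noncomputable def pI (l : List IT) : List FE :=
  List.rec (motive := fun _ => List FE) []
    (fun t _ ih => IT.rec (motive := fun _ => List FE) (fun _ => ih) (fun _ => ih)
      (fun _ => ih) (fun _ => ih)
      (fun l => List.rec (motive := fun _ => List FE) ih (fun e _ ih => e :: ih) l) t) l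

/-- the masks of the items are correct; `U` = labels without colour -/
noncomputable def itOk (x U1 : ℕ) (l : List IT) : ℕ → Bool :=
  List.rec (motive := fun _ => ℕ → Bool) (fun U => Nat.beq U U1)
    (fun t _ ih U => IT.rec (motive := fun _ => Bool)
      (fun m => Bool.rec (motive := fun _ => Bool) false
        (Bool.rec (motive := fun _ => Bool) false
          (Bool.rec (motive := fun _ => Bool) (ih (Nat.xor U m)) false (Nat.beq (Nat.shiftRight m x) 0))
          (Nat.beq (Nat.land m U) m)) (Nat.beq m (Nat.pow 2 (Nat.log2 m))))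
      (fun a => Bool.rec (motive := fun _ => Bool) false (ih U) (Nat.beq (Nat.land a.lm U) 0))
      (fun e => Bool.rec (motive := fun _ => Bool) false (ih U) (Nat.beq (Nat.land e.lm U) 0))
      (fun e => Bool.rec (motive := fun _ => Bool) false (ih U) (Nat.beq (Nat.land e.lm U) 0))
      (fun l => Bool.rec (motive := fun _ => Bool) false (ih U)
        (List.rec (motive := fun _ => Bool) true
            (fun e _ ih => Bool.rec (motive := fun _ => Bool) false ih
              (Nat.beq (Nat.shiftRight (Nat.land e.lm U) x) 0)) l)) t) l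

theorem app_rec {α : Type} {l s : List α} :
    List.rec (motive := fun _ => List α) s (fun e _ ih => e :: ih) l = l ++ s := by
  induction l with
  | nil => rfl
  | cons e l ih => exact congrArg (List.cons e) ih

theorem eL_mem : ∀ {l : List (ℕ × List FE)} {e : FE}, e ∈ eL l ↔ ∃ v ∈ l, e ∈ v.2
  | [], e => by
    show e ∈ [] ↔ _
    simp
  | v :: l, e => by
    show e ∈ List.rec (motive := fun _ => List FE) (eL l) (fun e _ ih => e :: ih) v.2 ↔ _
    rw [app_rec, List.mem_append, eL_mem, List.exists_mem_cons_iff]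

theorem eI_mem {ll : List (ℕ × List FE)} : ∀ {l : List IT} {e : FE},
    e ∈ eI l ll ↔ e ∈ eI l [] ∨ e ∈ eL ll
  | [], e => by
    show e ∈ eL ll ↔ e ∈ eL [] ∨ _
    have : ¬ e ∈ eL [] := by
      show ¬ e ∈ []
      simp
    simp [this]
  | .b _ :: l, e => eI_mem (l := l)
  | .a _ :: l, e => eI_mem (l := l)
  | .e e0 :: l, e => by
    show e ∈ e0 :: eI l ll ↔ e ∈ e0 :: eI l [] ∨ _
    rw [List.mem_cons, List.mem_cons, eI_mem (l := l), or_assoc]
  | .l _ :: l, e => eI_mem (l := l)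
  | .p _ :: l, e => eI_mem (l := l)

theorem meR_app {K F c : ℕ} : ∀ (l s : List FE) (R : ℕ), meR K F c (l ++ s) R =
    meR K F c s (meR K F c l R)
  | [], _, _ => rfl
  | e :: l, s, R => by
    rw [List.cons_append, meR_cons, meR_cons]
    split_ifs
    · exact meR_app l s R
    · exact meR_app l s _

theorem meB_app {c : ℕ} : ∀ (l s : List FE) (R : ℕ), meB c (l ++ s) R = meB c s (meB c l R)
  | [], _, _ => rfl
  | e :: l, s, R => by
    rw [List.cons_append, meB_cons, meB_cons]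
    split_ifs
    · exact meB_app l s R
    · exact meB_app l s _

theorem meR_agr {K F c c1 : ℕ} : ∀ (l : List FE) (R : ℕ), (∀ e ∈ l, ncl c e.lm = ncl c1 e.lm) →
    meR K F c l R = meR K F c1 l R
  | [], _, _ => rfl
  | e :: l, R, h => by
    have h' : ∀ e ∈ l, ncl c e.lm = ncl c1 e.lm := fun z hz => h z (List.mem_cons_of_mem _ hz)
    rw [meR_cons, meR_cons, h e (by simp), meR_agr l R h', meR_agr l _ h']

theorem meB_agr {c c1 : ℕ} : ∀ (l : List FE) (R : ℕ), (∀ e ∈ l, ncl c e.lm = ncl c1 e.lm) →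
    meB c l R = meB c1 l R
  | [], _, _ => rfl
  | e :: l, R, h => by
    have h' : ∀ e ∈ l, ncl c e.lm = ncl c1 e.lm := fun z hz => h z (List.mem_cons_of_mem _ hz)
    rw [meB_cons, meB_cons, h e (by simp), meB_agr l R h', meB_agr l _ h']

theorem add_bit {x c ξ i : ℕ} (hc : ∀ i < x, c.testBit i = false) (hξ : ξ < 2 ^ x) :
    (c + ξ).testBit i = if i < x then ξ.testBit i else c.testBit i := by
  have e : c = 2 ^ x * (c >>> x) := by
    apply Nat.eq_of_testBit_eq
    intro j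
    rw [Nat.mul_comm, Nat.testBit_mul_two_pow, Nat.testBit_shiftRight]
    by_cases h : x ≤ j
    · simp [h]
    · rw [hc j (by omega)]; simp [h]
  have e2 : c + ξ = ξ + 2 ^ x * (c >>> x) := by omega
  rw [e2, tb_add hξ]
  split_ifs with h
  · rfl
  · rw [Nat.testBit_shiftRight]
    congr 1
    omega

theorem shl_bit {x c0 i : ℕ} : ((c0 >>> x) <<< x).testBit i = (decide (x ≤ i) && c0.testBit i) := by
  rw [Nat.testBit_shiftLeft, Nat.testBit_shiftRight]
  by_cases h : x ≤ i
  · simp [h]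
  · simp [h]

theorem ncl_agr {x U c c0 ξ lm : ℕ} (ha : AG U c c0) (hc : ∀ i < x, c.testBit i = false)
    (hξ : ξ < 2 ^ x) (hm : (lm &&& U) >>> x = 0) :
    ncl (c + ξ) lm = ncl (((c0 >>> x) <<< x) + ξ) lm := by
  have e : Nat.land (c + ξ) lm = Nat.land (((c0 >>> x) <<< x) + ξ) lm := by
    rw [land_eq, land_eq]
    apply Nat.eq_of_testBit_eq
    intro i
    rw [Nat.testBit_and, Nat.testBit_and, add_bit hc hξ, add_bit (c := (c0 >>> x) <<< x) (fun i hi => by
      rw [shl_bit]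
      simp [Nat.not_le.2 hi]) hξ]
    split_ifs with h
    · rfl
    · rw [shl_bit, ha i]
      have hx : x ≤ i := by omega
      cases h1 : lm.testBit i
      · simp
      · have : U.testBit i = false := by
          by_contra hcon
          rw [Bool.not_eq_false] at hcon
          have h2 : ((lm &&& U) >>> x).testBit (i - x) = true := by
            rw [Nat.testBit_shiftRight, Nat.add_sub_cancel' hx, Nat.testBit_and, h1, hcon]
            rfl
          rw [hm, Nat.zero_testBit] at h2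
          cases h2
        rw [this]; simp [hx]
  unfold ncl
  rw [e]

variable {F : XF} {X : XE} {P P' : Pa}
variable {D V : Type} [Fintype D] [DecidableEq V]
variable {S S' : St D V} {f : ℕ → D} {g : ℕ → V} {c' : V → Bool} {c0 : ℕ}

/-- arcs which are known to be active -/
def AS (F : XF) (X : XE) (P' : Pa) (c0 : ℕ) (a : FA) : Prop :=
  OA F X P' c0 a ∧ ncl c0 a.lm = false ∧ (a.r = true ∨ a.sp = true)

/-- the invariants for the ring: processed arcs, edges, labels -/
structure MI (P' : Pa) (F : XF) (X : XE) (c0 : ℕ) (dA : List FA) (dE : List FE) (dL : List FL)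
    (cls : List (ℕ × FA)) (od : List FA) (B' BA Om R : ℕ) (ex : List ℕ) : Prop where
  cl : ∀ c ∈ cls, c.1 = c.2.bt ∧ OA F X P' c0 c.2
  cv : ∀ a ∈ dA, P'.op c0 (dt X a) = true → ncl c0 a.lm = true → (a.bt, a) ∈ cls
  odd : od = dA.filter (fun a => !ncl c0 a.lm)
  ba : Bp BA 0 (AS F X P' c0) (fun a => a.i) dA
  om : Bp Om F.hl (OA F X P' c0) (fun a => F.q * (X.k + a.t) + (F.q - 1)) dA
  b : ∀ t, B'.testBit t = true ↔ (∃ a ∈ dA, AS F X P' c0 a ∧ a.i' = t) ∨
    ∃ e ∈ dE, ncl c0 e.lm = false ∧ (t = e.i ∨ t = e.j)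
  e : Eqv F.q F.w R
  eo : ∀ e ∈ dE, ncl c0 e.lm = false → rb F.q R e.i e.j
  ec : Sub F.q R (fun s t => s = t ∨ (B'.testBit s = true ∧ B'.testBit t = true))
  ex : ∀ e ∈ dL, e.s = true → ncl c0 e.lm = true → e.bi ∈ ex

theorem brM {α : Type} {b : Bool} {x y : α → KQ} {R B : α} {N : ℕ}
    (h : (Bool.rec (motive := fun _ => α → KQ) y x b) R N ≠ 0) :
    (b = true ∧ x R N ≠ 0) ∨ (b = false ∧ y R N ≠ 0) :=
  brq (α := α → KQ) (p := fun q => q R N ≠ 0) h

theorem brP {α : Type} {b : Bool} {x y : α → α → KQ} {R B : α} {N : ℕ}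
    (h : (Bool.rec (motive := fun _ => α → α → KQ) y x b) R B N ≠ 0) :
    (b = true ∧ x R B N ≠ 0) ∨ (b = false ∧ y R B N ≠ 0) :=
  brq (α := α → α → KQ) (p := fun q => q R B N ≠ 0) h

/-- the conclusion of the search through the ring -/
def RC (P' : Pa) (F : XF) (X : XE) (c0 : ℕ) (fin : KM) (U1 : ℕ) (dA : List FA) (dE : List FE)
    (dL : List FL) (dP : List FE) : Prop :=
  ∃ c cls od B' BA Om R ex RP BP N, MI P' F X c0 dA dE dL cls od B' BA Om R ex ∧
    AG U1 c c0 ∧
    (∀ ξ < 2 ^ X.x, RP ξ = meR F.K F.F (((c0 >>> X.x) <<< X.x) + ξ) dP F.I) ∧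
    (∀ ξ < 2 ^ X.x, BP ξ = meB (((c0 >>> X.x) <<< X.x) + ξ) dP 0) ∧
    fin c cls od B' BA Om R ex RP BP N ≠ 0

theorem dfsM_sound (C : Cx S S' P P' f g X c' c0) (L : Lk F X P P') {fin : KM} {U1 : ℕ} :
    ∀ (its : List IT) (U c : ℕ) (dA : List FA) (dE : List FE) (dL : List FL) (dP : List FE)
      (cls : List (ℕ × FA)) (od : List FA) (B' BA Om R : ℕ) (ex : List ℕ) (RP BP : ℕ → ℕ) (N : ℕ),
      itOk X.x U1 its U = true → AG U c c0 → (∀ i < X.x, c.testBit i = false) →
      (∀ a ∈ aI its, a ∈ F.ars) → (∀ e ∈ eI its [], e ∈ F.es') →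
      MI P' F X c0 dA dE dL cls od B' BA Om R ex →
      (∀ ξ < 2 ^ X.x, RP ξ = meR F.K F.F (((c0 >>> X.x) <<< X.x) + ξ) dP F.I) →
      (∀ ξ < 2 ^ X.x, BP ξ = meB (((c0 >>> X.x) <<< X.x) + ξ) dP 0) →
      dfs F.K F.F fin its c cls od B' BA Om R ex RP BP N ≠ 0 →
      ∃ dE' dL', (∀ e, e ∈ dE' ↔ e ∈ dE ∨ e ∈ eI its []) ∧ (∀ e, e ∈ dL' ↔ e ∈ dL ∨ e ∈ lI its) ∧
        RC P' F X c0 fin U1 ((aI its).reverse ++ dA) dE' dL' (dP ++ pI its)
  | [], U, c, dA, dE, dL, dP, cls, od, B', BA, Om, R, ex, RP, BP, N, hU, ha, _, _, _, h, hR, hB, hd => by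
    have hU' : U = U1 := beq_true.1 hU
    subst hU'
    refine ⟨dE, dL, fun e => ?_, fun e => ?_, c, cls, od, B', BA, Om, R, ex, RP, BP, N, h, ha, ?_,
      ?_, hd⟩
    · show _ ↔ e ∈ dE ∨ e ∈ []
      simp
    · show _ ↔ e ∈ dL ∨ e ∈ []
      simp
    · intro ξ hξ
      rw [hR ξ hξ]
      show _ = meR F.K F.F _ (dP ++ []) F.I
      rw [List.append_nil]
    · intro ξ hξ
      rw [hB ξ hξ]
      show _ = meB _ (dP ++ []) 0
      rw [List.append_nil]
  | .b m :: its, U, c, dA, dE, dL, dP, cls, od, B', BA, Om, R, ex, RP, BP, N, hU, ha, hc, h1, h2, h,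
      hR, hB, hd => by
    have hU' : (Bool.rec (motive := fun _ => Bool) false
        (Bool.rec (motive := fun _ => Bool) false
          (Bool.rec (motive := fun _ => Bool) (itOk X.x U1 its (Nat.xor U m)) false
            (Nat.beq (Nat.shiftRight m X.x) 0))
          (Nat.beq (Nat.land m U) m)) (Nat.beq m (Nat.pow 2 (Nat.log2 m)))) = true := hU
    rcases bif_true hU' with ⟨k1, k2⟩ | ⟨-, k2⟩
    swap
    · cases k2
    rcases bif_true k2 with ⟨k3, k4⟩ | ⟨-, k4⟩
    swap
    · cases k4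
    rcases bif_true k4 with ⟨-, k6⟩ | ⟨k5, k6⟩
    · cases k6
    obtain ⟨j, rfl⟩ : ∃ j, m = 2 ^ j := ⟨_, beq_true.1 k1⟩
    rw [beq_true, land_eq] at k3
    have hj : U.testBit j = true := by
      have : (2 ^ j &&& U).testBit j = true := by
        rw [k3]; exact bit1.2 rfl
      rw [Nat.testBit_and, Bool.and_eq_true] at this
      exact this.2
    have hjx : X.x ≤ j := by
      by_contra hcon
      apply beq_false.1 k5
      show (2 ^ j) >>> X.x = 0
      rw [Nat.shiftRight_eq_div_pow]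
      exact Nat.div_eq_of_lt (Nat.pow_lt_pow_right (by norm_num) (by omega))
    obtain ⟨s0, s1⟩ := ha.step hj
    have hd' : sq (dfs F.K F.F fin its c cls od B' BA Om R ex RP BP N)
      (dfs F.K F.F fin its (Nat.lor c (2 ^ j)) cls od B' BA Om R ex RP BP) ≠ 0 := hd
    obtain ⟨d1, N1, d2⟩ := sq_ne hd'
    cases hb : c0.testBit j
    · exact dfsM_sound C L its _ _ dA dE dL dP _ _ _ _ _ _ _ _ _ _ k6 (s0 hb) hc h1 h2 h hR hB d1
    · refine dfsM_sound C L its _ _ dA dE dL dP _ _ _ _ _ _ _ _ _ _ k6 (s1 hb) (fun i hi => ?_) h1 h2 h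
        hR hB d2
      rw [lor_eq, Nat.testBit_or, hc i hi, Nat.testBit_two_pow]
      simp
      omega
  | .a a :: its, U, c, dA, dE, dL, dP, cls, od, B', BA, Om, R, ex, RP, BP, N, hU, ha, hc, h1, h2, h,
      hR, hB, hd => by
    have hU' : (Bool.rec (motive := fun _ => Bool) false (itOk X.x U1 its U)
      (Nat.beq (Nat.land a.lm U) 0)) = true := hU
    rcases bif_true hU' with ⟨k1, k2⟩ | ⟨-, k2⟩
    swap
    · cases k2
    have hnc : ncl c a.lm = ncl c0 a.lm := ha.ncl (beq_true.1 k1)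
    have haF : a ∈ F.ars := h1 a (by
      show a ∈ a :: aI its
      simp)
    have h1' : ∀ a ∈ aI its, a ∈ F.ars := fun b hb => h1 b (by
      show b ∈ a :: aI its
      exact List.mem_cons_of_mem _ hb)
    have aa := L.arc haF
    have hoa := Lk.oa_iff C L haF
    have fin' : ∀ (cls : List (ℕ × FA)) (od : List FA) (B' BA Om : ℕ),
        MI P' F X c0 (a :: dA) dE dL cls od B' BA Om R ex →
        dfs F.K F.F fin its c cls od B' BA Om R ex RP BP N ≠ 0 →
        ∃ dE' dL', (∀ e, e ∈ dE' ↔ e ∈ dE ∨ e ∈ eI (.a a :: its) []) ∧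
          (∀ e, e ∈ dL' ↔ e ∈ dL ∨ e ∈ lI (.a a :: its)) ∧
          RC P' F X c0 fin U1 ((aI (.a a :: its)).reverse ++ dA) dE' dL' (dP ++ pI (.a a :: its)) := by
      intro cls od B' BA Om g1 g2
      obtain ⟨dE', dL', g3, g4, g5⟩ := dfsM_sound C L its U c (a :: dA) dE dL dP _ _ _ _ _ _ _ _ _ _
        k2 ha hc h1' h2 g1 hR hB g2
      refine ⟨dE', dL', g3, g4, ?_⟩
      have e1 : (aI (.a a :: its)).reverse ++ dA = (aI its).reverse ++ (a :: dA) := by
        show (a :: aI its).reverse ++ dA = _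
        rw [List.reverse_cons, List.append_assoc]; rfl
      rw [e1]
      exact g5
    have hd' : (Bool.rec (motive := fun _ => KQ)
      (Bool.rec (motive := fun _ => KQ)
        (dfs F.K F.F fin its c cls (a :: od) B' BA (Nat.lor Om a.hb) R ex RP BP)
        (dfs F.K F.F fin its c cls (a :: od) (Nat.lor B' a.bi') (Nat.lor BA a.bi) (Nat.lor Om a.hb)
          R ex RP BP)
        (Bool.rec (motive := fun _ => Bool) a.sp true a.r))
      (Bool.rec (motive := fun _ => KQ)
        (dfs F.K F.F fin its c ((a.bt, a) :: cls) od B' BA (Nat.lor Om a.hb) R ex RP BP)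
        (dfs F.K F.F fin its c cls od B' BA Om R ex RP BP) a.r) (ncl c a.lm)) N ≠ 0 := hd
    -- the marked cells
    have bno : ¬ AS F X P' c0 a → ∀ t, B'.testBit t = true ↔
        (∃ b ∈ a :: dA, AS F X P' c0 b ∧ b.i' = t) ∨
        ∃ e ∈ dE, ncl c0 e.lm = false ∧ (t = e.i ∨ t = e.j) := by
      intro hn t
      rw [h.b t]
      constructor
      · rintro (⟨b, b1, b2⟩ | g1)
        · exact Or.inl ⟨b, List.mem_cons_of_mem _ b1, b2⟩
        · exact Or.inr g1
      · rintro (⟨b, b1, b2⟩ | g1)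
        · rcases List.mem_cons.1 b1 with rfl | b1
          · exact absurd b2.1 hn
          · exact Or.inl ⟨b, b1, b2⟩
        · exact Or.inr g1
    rcases brN hd' with ⟨g1, g2⟩ | ⟨g1, g2⟩
    · rw [hnc] at g1
      have hf : dA.filter (fun a => !ncl c0 a.lm) = (a :: dA).filter (fun a => !ncl c0 a.lm) := by
        rw [List.filter_cons, g1]; rfl
      have hns : ¬ AS F X P' c0 a := fun h => by rw [h.2.1] at g1; cases g1
      rcases brN g2 with ⟨g3, g4⟩ | ⟨g3, g4⟩
      · -- closed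
        have ho : ¬ OA F X P' c0 a := fun h => (hoa.1 h.2) ⟨g1, g3⟩
        refine fin' _ _ _ _ _ ⟨h.cl, fun b hb ob hn => ?_, h.odd.trans hf, h.ba.no hns, h.om.no ho,
          bno hns, h.e, h.eo, h.ec, h.ex⟩ g4
        rcases List.mem_cons.1 hb with rfl | hb
        · exact absurd ⟨haF, ob⟩ ho
        · exact h.cv b hb ob hn
      · -- open
        have ho : OA F X P' c0 a := ⟨haF, hoa.2 fun h => by rw [g3] at h; cases h.2⟩
        refine fin' _ _ _ _ _ ⟨fun c hc => ?_, fun b hb ob hn => ?_, h.odd.trans hf, h.ba.no hns,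
          h.om.yes ho aa.hb, bno hns, h.e, h.eo, h.ec, h.ex⟩ g4
        · rcases List.mem_cons.1 hc with rfl | hc
          · exact ⟨rfl, ho⟩
          · exact h.cl c hc
        · rcases List.mem_cons.1 hb with rfl | hb
          · simp
          · exact List.mem_cons_of_mem _ (h.cv b hb ob hn)
    · rw [hnc] at g1
      have hf : a :: od = (a :: dA).filter (fun a => !ncl c0 a.lm) := by
        rw [List.filter_cons, g1, h.odd]; rfl
      have ho : OA F X P' c0 a := ⟨haF, hoa.2 fun h => by rw [g1] at h; cases h.1⟩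
      have hcv : ∀ b ∈ a :: dA, P'.op c0 (dt X b) = true → ncl c0 b.lm = true → (b.bt, b) ∈ cls := by
        intro b hb ob hn
        rcases List.mem_cons.1 hb with rfl | hb
        · rw [g1] at hn; cases hn
        · exact h.cv b hb ob hn
      rcases brN g2 with ⟨g3, g4⟩ | ⟨g3, g4⟩
      · -- active
        have hs : AS F X P' c0 a := by
          refine ⟨ho, g1, ?_⟩
          rcases bif_true g3 with ⟨g5, -⟩ | ⟨-, g6⟩
          · exact Or.inl g5
          · exact Or.inr g6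
        have hb' : ∀ t, (Nat.lor B' a.bi').testBit t = true ↔
            (∃ b ∈ a :: dA, AS F X P' c0 b ∧ b.i' = t) ∨
            ∃ e ∈ dE, ncl c0 e.lm = false ∧ (t = e.i ∨ t = e.j) := by
          intro t
          rw [lor_eq, Nat.testBit_or, Bool.or_eq_true, h.b t, aa.bi', bit1]
          constructor
          · rintro ((⟨b, b1, b2⟩ | g1) | g1)
            · exact Or.inl ⟨b, List.mem_cons_of_mem _ b1, b2⟩
            · exact Or.inr g1
            · exact Or.inl ⟨a, by simp, hs, g1⟩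
          · rintro (⟨b, b1, b2⟩ | g1)
            · rcases List.mem_cons.1 b1 with rfl | b1
              · exact Or.inr b2.2
              · exact Or.inl (Or.inl ⟨b, b1, b2⟩)
            · exact Or.inl (Or.inr g1)
        refine fin' _ _ _ _ _ ⟨h.cl, hcv, hf, h.ba.yes hs aa.bi, h.om.yes ho aa.hb, hb', h.e, h.eo,
          fun s t hst => ?_, h.ex⟩ g4
        rcases h.ec s t hst with g5 | ⟨g5, g6⟩
        · exact Or.inl g5
        · right
          rw [lor_eq, Nat.testBit_or, Nat.testBit_or, g5, g6]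
          exact ⟨rfl, rfl⟩
      · -- activity unknown
        have hns : ¬ AS F X P' c0 a := by
          rintro ⟨-, -, g5 | g5⟩
          · rw [g5] at g3; cases g3
          · cases hr : a.r
            · rw [hr] at g3
              have g3' : a.sp = false := g3
              rw [g5] at g3'; cases g3'
            · rw [hr] at g3; cases g3
        exact fin' _ _ _ _ _ ⟨h.cl, hcv, hf, h.ba.no hns, h.om.yes ho aa.hb, bno hns, h.e, h.eo,
          h.ec, h.ex⟩ g4
  | .e e :: its, U, c, dA, dE, dL, dP, cls, od, B', BA, Om, R, ex, RP, BP, N, hU, ha, hc, h1, h2, h,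
      hR, hB, hd => by
    have hU' : (Bool.rec (motive := fun _ => Bool) false (itOk X.x U1 its U)
      (Nat.beq (Nat.land e.lm U) 0)) = true := hU
    rcases bif_true hU' with ⟨k1, k2⟩ | ⟨-, k2⟩
    swap
    · cases k2
    have hnc : ncl c e.lm = ncl c0 e.lm := ha.ncl (beq_true.1 k1)
    have heF : e ∈ F.es' := h2 e (by
      show e ∈ e :: eI its []
      simp)
    have h2' : ∀ e ∈ eI its [], e ∈ F.es' := fun z hz => h2 z (by
      show z ∈ e :: eI its []
      exact List.mem_cons_of_mem _ hz)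
    obtain ⟨a1, a2, a3⟩ := es_lt C L e heF
    have fin' : ∀ (B' R : ℕ), MI P' F X c0 dA (e :: dE) dL cls od B' BA Om R ex →
        dfs F.K F.F fin its c cls od B' BA Om R ex RP BP N ≠ 0 →
        ∃ dE' dL', (∀ z, z ∈ dE' ↔ z ∈ dE ∨ z ∈ eI (.e e :: its) []) ∧
          (∀ z, z ∈ dL' ↔ z ∈ dL ∨ z ∈ lI (.e e :: its)) ∧
          RC P' F X c0 fin U1 ((aI (.e e :: its)).reverse ++ dA) dE' dL' (dP ++ pI (.e e :: its)) := by
      intro B' R g1 g2
      obtain ⟨dE', dL', g3, g4, g5⟩ := dfsM_sound C L its U c dA (e :: dE) dL dP _ _ _ _ _ _ _ _ _ _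
        k2 ha hc h1 h2' g1 hR hB g2
      refine ⟨dE', dL', fun z => ?_, g4, g5⟩
      rw [g3 z]
      show z ∈ e :: dE ∨ z ∈ eI its [] ↔ z ∈ dE ∨ z ∈ e :: eI its []
      rw [List.mem_cons, List.mem_cons]
      tauto
    have hd' : (Bool.rec (motive := fun _ => (ℕ → ℕ) → (ℕ → ℕ) → KQ)
      (dfs F.K F.F fin its c cls od (Nat.lor B' e.bm) BA Om (mr F.K F.F R e.i e.j e.qi e.qj) ex)
      (dfs F.K F.F fin its c cls od B' BA Om R ex) (ncl c e.lm)) RP BP N ≠ 0 := hd
    rcases brP hd' with ⟨g1, g2⟩ | ⟨g1, g2⟩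
    · rw [hnc] at g1
      refine fin' _ _ ⟨h.cl, h.cv, h.odd, h.ba, h.om, fun t => ?_, h.e, fun z hz hn => ?_, h.ec,
        h.ex⟩ g2
      · rw [h.b t]
        constructor
        · rintro (g3 | ⟨z, z1, z2⟩)
          · exact Or.inl g3
          · exact Or.inr ⟨z, List.mem_cons_of_mem _ z1, z2⟩
        · rintro (g3 | ⟨z, z1, z2, z3⟩)
          · exact Or.inl g3
          · rcases List.mem_cons.1 z1 with rfl | z1
            · rw [g1] at z2; cases z2
            · exact Or.inr ⟨z, z1, z2, z3⟩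
      · rcases List.mem_cons.1 hz with rfl | hz
        · rw [g1] at hn; cases hn
        · exact h.eo z hz hn
    · rw [hnc] at g1
      obtain ⟨q1, q2, q3⟩ := h.e.mr (i := e.i) (j := e.j) L.hq (le_of_lt L.hw) a2 a3
      have hRe : mr F.K F.F R e.i e.j e.qi e.qj =
          mr (Ks F.q F.w) (2 ^ F.q - 1) R e.i e.j (F.q * e.i) (F.q * e.j) := by
        rw [L.hK, L.hF, a1.qi, a1.qj]
      have hb' : ∀ t, (Nat.lor B' e.bm).testBit t = true ↔
          (∃ b ∈ dA, AS F X P' c0 b ∧ b.i' = t) ∨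
          ∃ z ∈ e :: dE, ncl c0 z.lm = false ∧ (t = z.i ∨ t = z.j) := by
        intro t
        rw [lor_eq, Nat.testBit_or, Bool.or_eq_true, h.b t, a1.bm, bit2]
        constructor
        · rintro ((g3 | ⟨z, z1, z2⟩) | g3)
          · exact Or.inl g3
          · exact Or.inr ⟨z, List.mem_cons_of_mem _ z1, z2⟩
          · exact Or.inr ⟨e, by simp, g1, g3.imp Eq.symm Eq.symm⟩
        · rintro (g3 | ⟨z, z1, z2, z3⟩)
          · exact Or.inl (Or.inl g3)
          · rcases List.mem_cons.1 z1 with rfl | z1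
            · exact Or.inr (z3.imp Eq.symm Eq.symm)
            · exact Or.inl (Or.inr ⟨z, z1, z2, z3⟩)
      rw [hRe] at g2
      have hw := L.hw
      refine fin' _ _ ⟨h.cl, h.cv, h.odd, h.ba, h.om, hb', q1, fun z hz hn => ?_, ?_, h.ex⟩ g2
      · rcases List.mem_cons.1 hz with rfl | hz
        · exact q3
        · exact q2 _ _ (h.eo z hz hn)
      · refine Sub.mr mk_equiv (fun s t hst => ?_) L.hq (by omega) (by omega) (Or.inr
          ⟨(hb' _).2 (Or.inr ⟨e, by simp, g1, Or.inl rfl⟩),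
          (hb' _).2 (Or.inr ⟨e, by simp, g1, Or.inr rfl⟩)⟩)
        rcases h.ec s t hst with g5 | ⟨g5, g6⟩
        · exact Or.inl g5
        · right
          rw [lor_eq, Nat.testBit_or, Nat.testBit_or, g5, g6]
          exact ⟨rfl, rfl⟩
  | .l e :: its, U, c, dA, dE, dL, dP, cls, od, B', BA, Om, R, ex, RP, BP, N, hU, ha, hc, h1, h2, h,
      hR, hB, hd => by
    have hU' : (Bool.rec (motive := fun _ => Bool) false (itOk X.x U1 its U)
      (Nat.beq (Nat.land e.lm U) 0)) = true := hU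
    rcases bif_true hU' with ⟨k1, k2⟩ | ⟨-, k2⟩
    swap
    · cases k2
    have hnc : ncl c e.lm = ncl c0 e.lm := ha.ncl (beq_true.1 k1)
    have fin' : ∀ (ey : List ℕ), (∀ z ∈ ex, z ∈ ey) →
        (e.s = true → ncl c0 e.lm = true → e.bi ∈ ey) →
        dfs F.K F.F fin its c cls od B' BA Om R ey RP BP N ≠ 0 →
        ∃ dE' dL', (∀ z, z ∈ dE' ↔ z ∈ dE ∨ z ∈ eI (.l e :: its) []) ∧
          (∀ z, z ∈ dL' ↔ z ∈ dL ∨ z ∈ lI (.l e :: its)) ∧
          RC P' F X c0 fin U1 ((aI (.l e :: its)).reverse ++ dA) dE' dL' (dP ++ pI (.l e :: its)) := by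
      intro ey g0 g1 g2
      obtain ⟨dE', dL', g3, g4, g5⟩ := dfsM_sound C L its U c dA dE (e :: dL) dP _ _ _ _ _ _ _ _ _ _
        k2 ha hc h1 h2 ⟨h.cl, h.cv, h.odd, h.ba, h.om, h.b, h.e, h.eo, h.ec, fun z hz hs hn => by
          rcases List.mem_cons.1 hz with rfl | hz
          · exact g1 hs hn
          · exact g0 _ (h.ex z hz hs hn)⟩ hR hB g2
      refine ⟨dE', dL', g3, fun z => ?_, g5⟩
      rw [g4 z]
      show z ∈ e :: dL ∨ z ∈ lI its ↔ z ∈ dL ∨ z ∈ e :: lI its
      rw [List.mem_cons, List.mem_cons]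
      tauto
    have hd' : (Bool.rec (motive := fun _ => (ℕ → ℕ) → (ℕ → ℕ) → KQ)
      (dfs F.K F.F fin its c cls od B' BA Om R ex)
      (Bool.rec (motive := fun _ => (ℕ → ℕ) → (ℕ → ℕ) → KQ) (dfs F.K F.F fin its c cls od B' BA Om R ex)
        (dfs F.K F.F fin its c cls od B' BA Om R (e.bi :: ex)) e.s) (ncl c e.lm)) RP BP N ≠ 0 := hd
    rcases brP hd' with ⟨g1, g2⟩ | ⟨g1, g2⟩
    · rcases brP g2 with ⟨g3, g4⟩ | ⟨g3, g4⟩
      · exact fin' _ (fun z hz => List.mem_cons_of_mem _ hz) (fun _ _ => by simp) g4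
      · exact fin' _ (fun _ h => h) (fun hs _ => by rw [g3] at hs; cases hs) g4
    · rw [hnc] at g1
      exact fin' _ (fun _ h => h) (fun _ hn => by rw [g1] at hn; cases hn) g2
  | .p l :: its, U, c, dA, dE, dL, dP, cls, od, B', BA, Om, R, ex, RP, BP, N, hU, ha, hc, h1, h2, h,
      hR, hB, hd => by
    have hU' : (Bool.rec (motive := fun _ => Bool) false (itOk X.x U1 its U)
        (List.rec (motive := fun _ => Bool) true
            (fun e _ ih => Bool.rec (motive := fun _ => Bool) false ih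
              (Nat.beq (Nat.shiftRight (Nat.land e.lm U) X.x) 0)) l)) = true := hU
    rcases bif_true hU' with ⟨k1, k2⟩ | ⟨-, k2⟩
    swap
    · cases k2
    have k3 := all_rec k1
    have key : ∀ ξ < 2 ^ X.x, ∀ e ∈ l, ncl (Nat.add c ξ) e.lm =
        ncl (((c0 >>> X.x) <<< X.x) + ξ) e.lm :=
      fun ξ hξ e he => ncl_agr ha hc hξ (beq_true.1 (k3 e he))
    obtain ⟨dE', dL', g3, g4, g5⟩ := dfsM_sound C L its U c dA dE dL (dP ++ l) _ _ _ _ _ _ _
      (fun ξ => meR F.K F.F (Nat.add c ξ) l (RP ξ)) (fun ξ => meB (Nat.add c ξ) l (BP ξ)) N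
        k2 ha hc h1 h2 h (fun ξ hξ => by
          show meR F.K F.F (Nat.add c ξ) l (RP ξ) = _
          rw [meR_app, ← hR ξ hξ]
          exact meR_agr l _ (key ξ hξ)) (fun ξ hξ => by
          show meB (Nat.add c ξ) l (BP ξ) = _
          rw [meB_app, ← hB ξ hξ]
          exact meB_agr l _ (key ξ hξ)) hd
    refine ⟨dE', dL', g3, g4, ?_⟩
    have e1 : dP ++ pI (.p l :: its) = (dP ++ l) ++ pI its := by
      show dP ++ List.rec (motive := fun _ => List FE) (pI its) (fun e _ ih => e :: ih) l = _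
      rw [app_rec, List.append_assoc]
    rw [e1]
    exact g5

/-- the guided check for the colouring `c0` -/
def XF.OneM (F : XF) (c0 : ℕ) : Prop :=
  ∃ (its : List IT) (ll : List (ℕ × List FE)) (w m c N U U1 : ℕ), F.ars = aI its ∧ F.es = pI its ∧
    F.es' = eI its ll ∧ F.lr = lI its ∧ itOk F.x U1 its U = true ∧ lvOk ll U1 = true ∧
    AG U c c0 ∧ (∀ i < F.x, c.testBit i = false) ∧ F.chM its ll w m c N ≠ 0

/-- SOUNDNESS OF THE GUIDED CHECK, one colouring -/
theorem oneM_sound (C : Cx S S' P P' f g X c' c0)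
    (hgx : ∀ a < X.x, ∀ b < X.x, g a = g b → a = b) (L : Lk F X P P')
    (hsp : ∀ p ∈ X.ar, X.sp p.1 = true → c' (g (P.l p.1)) ≠ c' (g (P.l (P.φ p.2))) →
      ActR S P f X c' p.1)
    (hlr : ∀ q ∈ X.lr, q.1 < P.n ∧ P.real q.1 = true ∧
      (q.2.2 = true → Vi S' c' (f q.1) ∨ Vi S' c' (S.M.α (f q.1))))
    (hdj : Dj S' P f X.ce' c' X.dj') (h : F.OneM c0) :
    ∃ ex c, (∀ q ∈ X.lr, LrOk S S' P f X c' c0 ex q) ∧
      Ag g X c' c ∧ (∀ t, S.Test c t → ∀ d d', Br S c d → Br S c d' → t d = t d') ∧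
      (∀ d, OV P f d → Vi S' c' d → Vi S c d) ∧
      (∀ i < P.n, Vi S' c' (f i) → X.x ≤ P'.l i → P'.l i < X.x + X.k →
        ∃ d, S.M.v d = g (P'.l i) ∧ Vi S c d) ∧
      (∀ i ∈ X.kd, Vi S' c' (f i) → Vi S c (f i)) ∧
      ∀ z ∈ X.dj ++ ex, ∃ i < P.n, z.testBit (X.ce i) = true ∧ Vi S c (f i) := by
  classical
  obtain ⟨its, ll, w, m, c, N, U, U1, e1, e2, e3, e4, k1, k2, ha, hc, hN⟩ := h
  have hNc := nca_of C L
  have hI : Eqv F.q F.w F.I := by rw [L.hI]; exact Is_eqv (le_of_lt L.hw)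
  have hesI : ∀ e, e ∈ F.es' ↔ e ∈ eI its [] ∨ e ∈ eL ll := fun e => by rw [e3]; exact eI_mem
  rw [L.hx] at k1 hc
  obtain ⟨dE, dL, g1, g2, c2, cls, od, B', BA, Om, R, ex, RP, BP, N', hM, hA, hRP, hBP, hfin⟩ :=
    dfsM_sound C L its U c [] [] [] [] [] [] 0 0 F.hl F.I [] (fun _ => F.I) (fun _ => 0) N k1 ha hc
      (fun a h => by rw [e1]; exact h) (fun e h => (hesI e).2 (Or.inl h))
      ⟨by simp, by simp, by simp, Bp.nil, Bp.nil, by simp, hI, by simp, fun s t hst => by
        rw [L.hI, Is_bit (le_of_lt L.hw)] at hst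
        exact Or.inl hst.1, by simp⟩ (fun _ _ => rfl) (fun _ _ => rfl) hN
  rw [List.append_nil, ← e1] at hM
  rw [List.nil_append, ← e2] at hRP hBP
  have hdn : ∀ a ∈ F.ars, a ∈ F.ars.reverse := fun a ha => List.mem_reverse.2 ha
  -- active arcs
  have hAS : ∀ a, AS F X P' c0 a → ActR S P f X c' (dt X a) := by
    rintro a ⟨h1, h2, h3 | h3⟩
    · exact C.act_real (L.arc h1.1).mem (by rw [← (L.arc h1.1).r]; exact h3) h1.2
    · have aa := L.arc h1.1
      obtain ⟨p, p1, p2, p3⟩ := aa.p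
      rw [← p2]
      refine hsp p p1 (by rw [p2, ← aa.sp]; exact h3) ?_
      obtain ⟨k1, k2⟩ := C.st.al p p1
      rw [C.hm _ k1, C.hm _ k2]
      rw [p3, ncl_eq] at h2
      simpa using h2
  have hreal : ∀ a, OA F X P' c0 a → a.r = true → AS F X P' c0 a := by
    intro a h1 h2
    refine ⟨h1, ?_, Or.inl h2⟩
    by_contra hcon
    rw [Bool.not_eq_false] at hcon
    exact (Lk.oa_iff C L h1.1).1 h1.2 ⟨hcon, h2⟩
  have odo : ∀ a ∈ od, OA F X P' c0 a := by
    intro a ha
    rw [hM.odd, List.mem_filter, List.mem_reverse] at ha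
    refine ⟨ha.1, (Lk.oa_iff C L ha.1).2 fun h => ?_⟩
    rw [h.1] at ha
    simp at ha
  obtain ⟨n1, n2⟩ := od_rel C L hM.odd
  have hO : PO S P P' f F X c' c0 BA Om := by
    refine ⟨fun t ht => ?_, fun a ha hr => ?_, fun y hy => ?_, fun a ha => ?_, fun y hy => ?_⟩
    · rcases (hM.ba t).1 ht with h1 | ⟨a, -, h1, h3⟩
      · rw [Nat.zero_testBit] at h1; cases h1
      · exact ⟨a, h1.1, hAS a h1, h3⟩
    · exact (hM.ba _).2 (Or.inr ⟨a, hdn a ha.1, hreal a ha hr, rfl⟩)
    · refine (hM.om _).2 (Or.inl ?_)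
      rw [L.hl]
      exact hlk_bit L.hq (Or.inl ⟨y, hy, rfl⟩)
    · exact (hM.om _).2 (Or.inr ⟨a, hdn a ha.1, ha, rfl⟩)
    · refine (hM.om _).2 (Or.inl ?_)
      rw [L.hl]
      exact hlk_bit L.hq (Or.inr ⟨y, hy, rfl⟩)
  have hg : RG S P P' f F X c' c0 cls od BA Om := by
    refine ⟨hM.cl, odo, fun a ha => ?_, hO, n1, n2⟩
    by_cases hnl : ncl c0 a.lm = true
    · exact Or.inl (hM.cv a (hdn a ha.1) ha.2 hnl)
    · right
      rw [hM.odd, List.mem_filter]
      exact ⟨hdn a ha.1, by simpa using hnl⟩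
  have hE : EI S' P P' f F X c' c0 ll R B' := by
    refine ⟨hM.e, fun e he => ?_, fun a ha hr => ?_, fun t ht => ?_, hM.ec, fun v hv e he => ?_⟩
    · rcases (hesI e).1 he with h1 | h1
      · right
        intro hn
        have h2 : e ∈ dE := (g1 e).2 (Or.inr h1)
        exact ⟨hM.eo e h2 hn, (hM.b _).2 (Or.inr ⟨e, h2, hn, Or.inl rfl⟩),
          (hM.b _).2 (Or.inr ⟨e, h2, hn, Or.inr rfl⟩)⟩
      · exact Or.inl (eL_mem.1 h1)
    · exact (hM.b _).2 (Or.inl ⟨a, hdn a ha.1, hreal a ha hr, rfl⟩)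
    · rcases (hM.b t).1 ht with ⟨a, a1, a2, a3⟩ | ⟨e, h1, h2, h3⟩
      · have aa := L.arc a2.1.1
        refine ⟨dt X a, (C.st.rs _ (C.st.asm aa.mem)).1, ?_, C.actR_vi' (hAS a a2)⟩
        rw [← aa.i']; exact a3
      · have h4 : e ∈ F.es' := by
          rcases (g1 e).1 h1 with h5 | h5
          · simp at h5
          · exact (hesI e).2 (Or.inl h5)
        exact es_vi C L h4 h2 h3
    · exact (hesI e).2 (Or.inr (eL_mem.2 ⟨v, hv, he⟩))
  have hlo : ∀ q ∈ X.lr, LrOk S S' P f X c' c0 ex q := by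
    intro q hq hs
    obtain ⟨hi, hre, -⟩ := hlr q hq
    by_cases hn : ncl c0 (mkL F.q X P q).lm = true
    · right; left
      have h1 : mkL F.q X P q ∈ dL := (g2 _).2 (Or.inr (by
        rw [← e4, L.lr]; exact List.mem_map_of_mem hq))
      exact hM.ex _ h1 hs hn
    · left
      rw [Bool.not_eq_true] at hn
      exact (ncl_opi hre).1 hn
  have hfin' : F.df2 w m (F.tst Om ex RP BP) (F.goS w m (F.tst Om ex RP BP) 20 BA 0) cls od BA ll
    c2 R B' N' ≠ 0 := hfin
  have hG : Gl S S' P P' f g X c' ex := by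
    refine df2_sound C L hg (fun ξ Wk cls W R' pp h1 h2 h3 => ?_) (fun cls W R' pp N h1 h2 h3 => ?_)
      ll U1 c2 R B' N' k2 hA hE hfin'
    · exact tst_sound C hgx L hRP hBP h1 h2 hO h3
    · exact goS_sound C L hNc (rq_of L hdj) (fun ξ BA cls Fb W R' pp h1 h2 h3 h4 =>
        tst_sound C hgx L hRP hBP h2 (h3.vc h2.e) h1 h4) 20 BA 0 cls 0 W R' pp N hO (fun a _ ht => by
          rw [Nat.zero_testBit] at ht; cases ht) h1 h2 h3
  obtain ⟨c, hc⟩ := hG
  exact ⟨ex, c, hlo, hc⟩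

end Pool.FC7
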