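import Pool.Agent.FC7.XMd

/-! # The guided extension check: all colourings -/

set_option linter.unusedSectionVars false

namespace Pool.FC7

open Pool.FC6

/-- the tables of the guided check: items of the ring, levels of the inner labels, number of bits and
mask of a code, the labels `≥ s` are coloured at the start, certificates -/
structure GT where
  its : List IT
  ll : List (ℕ × List FE)
  w : ℕ
  m : ℕ
  s : ℕ
  N : ℕ → ℕ

namespace GT

variable (G : GT)

/-- the check for the chunk `i` -/
noncomputable def run (T : XF) (i : ℕ) : Bool :=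
  Bool.rec (motive := fun _ => Bool) true false
    (Nat.beq (T.chM G.its G.ll G.w G.m (Nat.shiftLeft i G.s) (G.N i)) 0)

/-- the masks are correct; `x` inner labels, the labels `< lo` are not used -/
noncomputable def ok (x lo : ℕ) : Bool :=
  Bool.rec (motive := fun _ => Bool) false
    (Bool.rec (motive := fun _ => Bool) false
      (Bool.rec (motive := fun _ => Bool) false
        (itOk x (Nat.sub (Nat.pow 2 x) (Nat.pow 2 lo)) G.its
          (Nat.add (Nat.sub (Nat.pow 2 x) (Nat.pow 2 lo))
            (Nat.sub (Nat.pow 2 G.s) (Nat.pow 2 (Nat.succ x)))))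
        (lvOk G.ll (Nat.sub (Nat.pow 2 x) (Nat.pow 2 lo)))) (Nat.ble lo x)) (Nat.ble (Nat.succ x) G.s)

end GT

theorem sub_pow_bit {i j u : ℕ} (hij : i ≤ j) :
    (2 ^ j - 2 ^ i).testBit u = (decide (i ≤ u) && decide (u < j)) := by
  have := sub_bit (u := u) hij
  cases h : (2 ^ j - 2 ^ i).testBit u
  · rw [h] at this
    have h2 : ¬ (i ≤ u ∧ u < j) := fun h3 => by
      have := this.2 h3
      cases this
    symm
    rw [Bool.and_eq_false_iff, decide_eq_false_iff_not, decide_eq_false_iff_not]
    by_contra hcon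
    push Not at hcon
    exact h2 hcon
  · have h2 := this.1 h
    simp [h2.1, h2.2]

/-- the check for all colourings -/
theorem GT.all {G : GT} {T : XF} {x n lo t : ℕ} (hx : T.x = x) (hn : n = G.s + t)
    (h1 : T.ars = aI G.its) (h2 : T.es = pI G.its) (h3 : T.es' = eI G.its G.ll)
    (h4 : T.lr = lI G.its) (hok : G.ok x lo = true) (hrun : ∀ i < 2 ^ t, G.run T i = true) :
    ∀ r < 2 ^ (n - lo), (r <<< lo).testBit x = true ∨ T.OneM (r <<< lo) := by
  intro r hr
  by_cases hb : (r <<< lo).testBit x = true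
  · exact Or.inl hb
  right
  rw [Bool.not_eq_true] at hb
  unfold GT.ok at hok
  rcases bif_true hok with ⟨a1, a2⟩ | ⟨-, a2⟩
  swap
  · cases a2
  rcases bif_true a2 with ⟨a3, a4⟩ | ⟨-, a4⟩
  swap
  · cases a4
  rcases bif_true a4 with ⟨a5, a6⟩ | ⟨-, a6⟩
  swap
  · cases a6
  have a1' : x + 1 ≤ G.s := Nat.le_of_ble_eq_true a1
  have a3' : lo ≤ x := Nat.le_of_ble_eq_true a3
  set c0 := r <<< lo with hc0
  have hlt : c0 < 2 ^ n := by
    rw [hc0, Nat.shiftLeft_eq]
    calc r * 2 ^ lo < 2 ^ (n - lo) * 2 ^ lo := by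
          exact Nat.mul_lt_mul_of_pos_right hr (by positivity)
      _ = 2 ^ n := by rw [← pow_add, Nat.sub_add_cancel (by omega)]
  have hi : c0 >>> G.s < 2 ^ t := by
    rw [Nat.shiftRight_eq_div_pow]
    apply Nat.div_lt_of_lt_mul
    rw [← pow_add, ← hn]; exact hlt
  have hr := hrun _ hi
  have hN : T.chM G.its G.ll G.w G.m ((c0 >>> G.s) <<< G.s) (G.N (c0 >>> G.s)) ≠ 0 := by
    unfold GT.run at hr
    rcases bif_true hr with ⟨-, b2⟩ | ⟨b1, -⟩
    · cases b2
    · exact beq_false.1 b1
  have hU : ∀ i, ((2 ^ x - 2 ^ lo) + (2 ^ G.s - 2 ^ (x + 1))).testBit i =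
      (decide (lo ≤ i) && decide (i < G.s) && !decide (i = x)) := by
    intro i
    have hle : 2 ^ x - 2 ^ lo < 2 ^ (x + 1) := by
      have : 2 ^ x < 2 ^ (x + 1) := Nat.pow_lt_pow_right (by norm_num) (Nat.lt_succ_self x)
      exact lt_of_le_of_lt (Nat.sub_le _ _) this
    have e : 2 ^ G.s - 2 ^ (x + 1) = 2 ^ (x + 1) * (2 ^ (G.s - (x + 1)) - 1) := by
      rw [Nat.mul_sub, mul_one, ← pow_add, Nat.add_sub_cancel' a1']
    rw [e, tb_add hle]
    split_ifs with h
    · rw [sub_pow_bit a3']
      by_cases h5 : i = x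
      · subst h5; simp
      · have : i < x := by omega
        have : i < G.s := by omega
        simp [*]
    · rw [Nat.testBit_two_pow_sub_one]
      have b1 : lo ≤ i := by omega
      have b2 : ¬ i = x := by omega
      by_cases h5 : i < G.s
      · have : i - (x + 1) < G.s - (x + 1) := by omega
        simp [b1, b2, h5, this]
      · have : ¬ i - (x + 1) < G.s - (x + 1) := by omega
        simp [h5, this]
  refine ⟨G.its, G.ll, G.w, G.m, (c0 >>> G.s) <<< G.s, G.N (c0 >>> G.s), _, _, h1, h2, h3, h4,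
    by rw [hx]; exact a6, a5, fun i => ?_, fun i hi => ?_, hN⟩
  · have e : Nat.add (Nat.sub (Nat.pow 2 x) (Nat.pow 2 lo))
      (Nat.sub (Nat.pow 2 G.s) (Nat.pow 2 (Nat.succ x))) =
        (2 ^ x - 2 ^ lo) + (2 ^ G.s - 2 ^ (x + 1)) := rfl
    rw [e, hU i, shl_bit]
    by_cases h5 : G.s ≤ i
    · have : ¬ i < G.s := by omega
      simp [h5, this]
    · have h6 : i < G.s := by omega
      by_cases h7 : i = x
      · subst h7
        rw [hb]; simp
      · by_cases h8 : lo ≤ i
        · simp [h5, h6, h7, h8]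
        · have h9 : c0.testBit i = false := by
            rw [hc0, Nat.testBit_shiftLeft]
            simp [h8]
          simp [h5, h6, h7, h8, h9]
  · rw [shl_bit]
    rw [hx] at hi
    have : ¬ G.s ≤ i := by omega
    simp [this]

/-- few chunks -/
theorem GT.run1 {G : GT} {T : XF} (h0 : G.run T 0 = true) : ∀ i < 2 ^ 0, G.run T i = true := by
  intro i hi
  have : i = 0 := by simp at hi; omega
  subst this; exact h0

theorem GT.run2 {G : GT} {T : XF} (h0 : G.run T 0 = true) (h1 : G.run T 1 = true) :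
    ∀ i < 2 ^ 1, G.run T i = true := by
  intro i hi
  norm_num at hi
  interval_cases i
  exacts [h0, h1]

theorem GT.run4 {G : GT} {T : XF} (h0 : G.run T 0 = true) (h1 : G.run T 1 = true)
    (h2 : G.run T 2 = true) (h3 : G.run T 3 = true) : ∀ i < 2 ^ 2, G.run T i = true := by
  intro i hi
  norm_num at hi
  interval_cases i
  exacts [h0, h1, h2, h3]

theorem GT.run8 {G : GT} {T : XF} (h0 : G.run T 0 = true) (h1 : G.run T 1 = true)
    (h2 : G.run T 2 = true) (h3 : G.run T 3 = true) (h4 : G.run T 4 = true) (h5 : G.run T 5 = true)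
    (h6 : G.run T 6 = true) (h7 : G.run T 7 = true) : ∀ i < 2 ^ 3, G.run T i = true := by
  intro i hi
  norm_num at hi
  interval_cases i
  exacts [h0, h1, h2, h3, h4, h5, h6, h7]

end Pool.FC7
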