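import Pool.Agent.FC7.XMe

/-!
# More chunks of the guided extension check
-/

namespace Pool.FC7

open Pool.FC6

/-- eight more chunks -/
theorem GT.more {G : GT} {T : XF} (n : ℕ) (h : ∀ i < n, G.run T i = true)
    (a0 : G.run T n = true) (a1 : G.run T (n + 1) = true) (a2 : G.run T (n + 2) = true)
    (a3 : G.run T (n + 3) = true) (a4 : G.run T (n + 4) = true) (a5 : G.run T (n + 5) = true)
    (a6 : G.run T (n + 6) = true) (a7 : G.run T (n + 7) = true) :
    ∀ i < n + 8, G.run T i = true := by
  intro i hi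
  rcases Nat.lt_or_ge i n with h1 | h1
  · exact h i h1
  · obtain ⟨j, rfl⟩ := Nat.exists_eq_add_of_le h1
    have hj : j < 8 := by omega
    interval_cases j
    exacts [a0, a1, a2, a3, a4, a5, a6, a7]

/-- many chunks -/
theorem GT.runp {G : GT} {T : XF} {t : ℕ} (n : ℕ) (e : 2 ^ t = n)
    (h : ∀ i < n, G.run T i = true) : ∀ i < 2 ^ t, G.run T i = true := by
  rw [e]; exact h

end Pool.FC7
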